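import Pool.Agent.Helper38_TET.TA_C

/-!
# MP_c7c9bf_co: certificates, family TA
-/

set_option autoImplicit false
set_option maxRecDepth 100000

namespace Pool.Agent.TET

theorem TA_rg24 : ROK [.q ⟨-26, -21, 15, 32⟩ ⟨-3360, 780, 6164, -3584⟩, .q ⟨-26, -21, 15, 32⟩ ⟨12304, -21740, -1572, 11008⟩, .q ⟨-26, -21, 15, 32⟩ ⟨2604, 484, -6160, 3072⟩, .q ⟨-26, -21, 15, 32⟩ ⟨-6368, 17868, -7276, -4224⟩] := by
  refine rok_w (v := ⟨-26, -21, 15, 32⟩) (q := 4) (by decide) (by decide) (by decide) TA_sc (k := 1) (by decide) (Q := [(-393, 1961, -112), (-3629, -1683, 344), (625, -1900, 96), (3774, -1324, -132)])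
    (P := [⟨-3440640, -393, 1961⟩, ⟨10567680, -3629, -1683⟩, ⟨2949120, 625, -1900⟩, ⟨-4055040, 3774, -1324⟩]) rfl rfl
    (List.mem_of_getElem? (i := 24) rfl) TA_fr TA_cov ?_
  · intro X Y h
    simp only [List.forall_mem_cons, List.not_mem_nil, false_imp_iff, implies_true, and_true] at h
    push_cast at h ⊢
    obtain ⟨h0, h1, h2, h3⟩ := h
    refine ⟨⟨?_, ?_⟩, ?_, ?_⟩ <;> linarith

theorem TA_rg25 : ROK [.q ⟨-26, -21, 15, 32⟩ ⟨-3020, -5148, 12136, -3968⟩, .q ⟨-26, -21, 15, 32⟩ ⟨1168, -1808, -512, 1152⟩, .q ⟨-26, -21, 15, 32⟩ ⟨3156, 4604, -12112, 4352⟩, .q ⟨-26, -21, 15, 32⟩ ⟨-2440, 3532, 1084, -2176⟩] := by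
  refine rok_w (v := ⟨-26, -21, 15, 32⟩) (q := 4) (by decide) (by decide) (by decide) TA_sc (k := 1) (by decide) (Q := [(-1938, 3499, -124), (-263, -263, 36), (1865, -3538, 136), (526, 526, -68)])
    (P := [⟨-3809280, -1938, 3499⟩, ⟨1105920, -263, -263⟩, ⟨4177920, 1865, -3538⟩, ⟨-2088960, 526, 526⟩]) rfl rfl
    (List.mem_of_getElem? (i := 25) rfl) TA_fr TA_cov ?_
  · intro X Y h
    simp only [List.forall_mem_cons, List.not_mem_nil, false_imp_iff, implies_true, and_true] at h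
    push_cast at h ⊢
    obtain ⟨h0, h1, h2, h3⟩ := h
    refine ⟨⟨?_, ?_⟩, ?_, ?_⟩ <;> linarith

theorem TA_rg26 : ROK [.q ⟨-26, -21, 15, 32⟩ ⟨8540, -5516, -11856, 8832⟩, .q ⟨-26, -21, 15, 32⟩ ⟨-616, 10396, -10932, 1152⟩, .q ⟨-26, -21, 15, 32⟩ ⟨-6152, 8788, 2740, -5376⟩, .q ⟨-26, -21, 15, 32⟩ ⟨-2712, -5644, 12068, -3712⟩] := by
  refine rok_w (v := ⟨-26, -21, 15, 32⟩) (q := 4) (by decide) (by decide) (by decide) TA_sc (k := 1) (by decide) (Q := [(70, -3999, 276), (2788, -2868, 36), (1315, 1315, -168), (-2020, 3452, -116)])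
    (P := [⟨8478720, 70, -3999⟩, ⟨1105920, 2788, -2868⟩, ⟨-5160960, 1315, 1315⟩, ⟨-3563520, -2020, 3452⟩]) rfl rfl
    (List.mem_of_getElem? (i := 26) rfl) TA_fr TA_cov ?_
  · intro X Y h
    simp only [List.forall_mem_cons, List.not_mem_nil, false_imp_iff, implies_true, and_true] at h
    push_cast at h ⊢
    obtain ⟨h0, h1, h2, h3⟩ := h
    refine ⟨⟨?_, ?_⟩, ?_, ?_⟩ <;> linarith

theorem TA_rg27 : ROK [.q ⟨-26, -21, 15, 32⟩ ⟨1864, 6760, -11824, 3200⟩, .q ⟨-26, -21, 15, 32⟩ ⟨-1756, 1188, 2360, -1792⟩, .q ⟨-26, -21, 15, 32⟩ ⟨1424, -7092, 4900, 768⟩, .q ⟨-26, -21, 15, 32⟩ ⟨7276, -3076, -12136, 7936⟩] := by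
  refine rok_w (v := ⟨-26, -21, 15, 32⟩) (q := 4) (by decide) (by decide) (by decide) TA_sc (k := 1) (by decide) (Q := [(2215, -3331, 100), (3, 800, -56), (-1647, 1135, 24), (533, -3964, 248)])
    (P := [⟨3072000, 2215, -3331⟩, ⟨-1720320, 3, 800⟩, ⟨737280, -1647, 1135⟩, ⟨7618560, 533, -3964⟩]) rfl rfl
    (List.mem_of_getElem? (i := 27) rfl) TA_fr TA_cov ?_
  · intro X Y h
    simp only [List.forall_mem_cons, List.not_mem_nil, false_imp_iff, implies_true, and_true] at h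
    push_cast at h ⊢
    obtain ⟨h0, h1, h2, h3⟩ := h
    refine ⟨⟨?_, ?_⟩, ?_, ?_⟩ <;> linarith

theorem TA_rg28 : ROK [.q ⟨-26, -21, 15, 32⟩ ⟨-772, 10612, -10864, 1024⟩, .q ⟨-26, -21, 15, 32⟩ ⟨-12396, 15012, 8776, -11392⟩, .q ⟨-26, -21, 15, 32⟩ ⟨572, -10648, 10972, -896⟩, .q ⟨-26, -21, 15, 32⟩ ⟨872, -588, -1180, 896⟩] := by
  refine rok_w (v := ⟨-26, -21, 15, 32⟩) (q := 4) (by decide) (by decide) (by decide) TA_sc (k := 1) (by decide) (Q := [(2821, -2836, 32), (1884, 3529, -356), (-2809, 2848, -28), (0, -400, 28)])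
    (P := [⟨983040, 2821, -2836⟩, ⟨-10936320, 1884, 3529⟩, ⟨-860160, -2809, 2848⟩, ⟨860160, 0, -400⟩]) rfl rfl
    (List.mem_of_getElem? (i := 28) rfl) TA_fr TA_cov ?_
  · intro X Y h
    simp only [List.forall_mem_cons, List.not_mem_nil, false_imp_iff, implies_true, and_true] at h
    push_cast at h ⊢
    obtain ⟨h0, h1, h2, h3⟩ := h
    refine ⟨⟨?_, ?_⟩, ?_, ?_⟩ <;> linarith

theorem TA_rg29 : ROK [.q ⟨-26, -21, 15, 32⟩ ⟨3444, 4108, -12160, 4608⟩, .q ⟨-26, -21, 15, 32⟩ ⟨-12052, 21828, 464, -10240⟩, .q ⟨-26, -21, 15, 32⟩ ⟨1172, -11616, 10700, -256⟩] := by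
  refine rok_w (v := ⟨-26, -21, 15, 32⟩) (q := 4) (by decide) (by decide) (by decide) TA_sc (k := 1) (by decide) (Q := [(1783, -3580, 144), (3777, 1316, -320), (-2946, 2705, -8)])
    (P := [⟨4423680, 1783, -3580⟩, ⟨-9830400, 3777, 1316⟩, ⟨-245760, -2946, 2705⟩]) rfl rfl
    (List.mem_of_getElem? (i := 29) rfl) TA_fr TA_cov ?_
  · intro X Y h
    simp only [List.forall_mem_cons, List.not_mem_nil, false_imp_iff, implies_true, and_true] at h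
    push_cast at h ⊢
    obtain ⟨h0, h1, h2⟩ := h
    refine ⟨⟨?_, ?_⟩, ?_, ?_⟩ <;> linarith

theorem TA_rg30 : ROK [.q ⟨-26, -21, 15, 32⟩ ⟨-11624, 12300, 10076, -10752⟩, .q ⟨-26, -21, 15, 32⟩ ⟨848, -3600, 2368, 384⟩, .q ⟨-26, -21, 15, 32⟩ ⟨3888, -7268, 180, 3200⟩, .q ⟨-26, -21, 15, 32⟩ ⟨2024, 6368, -11848, 3456⟩] := by
  refine rok_w (v := ⟨-26, -21, 15, 32⟩) (q := 4) (by decide) (by decide) (by decide) TA_sc (k := 1) (by decide) (Q := [(1311, 3779, -336), (-837, 547, 12), (-1292, -330, 100), (2159, -3367, 108)])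
    (P := [⟨-10321920, 1311, 3779⟩, ⟨368640, -837, 547⟩, ⟨3072000, -1292, -330⟩, ⟨3317760, 2159, -3367⟩]) rfl rfl
    (List.mem_of_getElem? (i := 30) rfl) TA_fr TA_cov ?_
  · intro X Y h
    simp only [List.forall_mem_cons, List.not_mem_nil, false_imp_iff, implies_true, and_true] at h
    push_cast at h ⊢
    obtain ⟨h0, h1, h2, h3⟩ := h
    refine ⟨⟨?_, ?_⟩, ?_, ?_⟩ <;> linarith

theorem TA_rg31 : ROK [.q ⟨-26, -21, 15, 32⟩ ⟨-4332, -2880, 12332, -5120⟩, .q ⟨-26, -21, 15, 32⟩ ⟨2172, -6296, 2332, 1792⟩, .q ⟨-26, -21, 15, 32⟩ ⟨3736, 3604, -12204, 4864⟩, .q ⟨-26, -21, 15, 32⟩ ⟨-9972, 20788, -3520, -7296⟩] := by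
  refine rok_w (v := ⟨-26, -21, 15, 32⟩) (q := 4) (by decide) (by decide) (by decide) TA_sc (k := 1) (by decide) (Q := [(-1560, 3683, -160), (-1280, 373, 56), (1699, -3621, 152), (4000, -25, -228)])
    (P := [⟨-4915200, -1560, 3683⟩, ⟨1720320, -1280, 373⟩, ⟨4669440, 1699, -3621⟩, ⟨-7004160, 4000, -25⟩]) rfl rfl
    (List.mem_of_getElem? (i := 31) rfl) TA_fr TA_cov ?_
  · intro X Y h
    simp only [List.forall_mem_cons, List.not_mem_nil, false_imp_iff, implies_true, and_true] at h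
    push_cast at h ⊢
    obtain ⟨h0, h1, h2, h3⟩ := h
    refine ⟨⟨?_, ?_⟩, ?_, ?_⟩ <;> linarith

theorem TA_rg32 : ROK [.q ⟨-26, -21, 15, 32⟩ ⟨10328, -21860, 2444, 9088⟩, .q ⟨-26, -21, 15, 32⟩ ⟨5804, -148, -12312, 6656⟩, .q ⟨-26, -21, 15, 32⟩ ⟨-488, 1052, -180, -384⟩, .q ⟨-26, -21, 15, 32⟩ ⟨-5236, -1268, 12392, -5888⟩] := by
  refine rok_w (v := ⟨-26, -21, 15, 32⟩) (q := 4) (by decide) (by decide) (by decide) TA_sc (k := 1) (by decide) (Q := [(-3974, -454, 284), (1055, -3858, 208), (200, 0, -12), (-1283, 3788, -184)])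
    (P := [⟨8724480, -3974, -454⟩, ⟨6389760, 1055, -3858⟩, ⟨-368640, 200, 0⟩, ⟨-5652480, -1283, 3788⟩]) rfl rfl
    (List.mem_of_getElem? (i := 32) rfl) TA_fr TA_cov ?_
  · intro X Y h
    simp only [List.forall_mem_cons, List.not_mem_nil, false_imp_iff, implies_true, and_true] at h
    push_cast at h ⊢
    obtain ⟨h0, h1, h2, h3⟩ := h
    refine ⟨⟨?_, ?_⟩, ?_, ?_⟩ <;> linarith

theorem TA_rg33 : ROK [.q ⟨-26, -21, 15, 32⟩ ⟨10828, -21848, 1804, 9216⟩, .q ⟨-26, -21, 15, 32⟩ ⟨6278, -983, -12303, 7008⟩, .q ⟨-26, -21, 15, 32⟩ ⟨-104, 1532, -1556, 128⟩, .q ⟨-26, -21, 15, 32⟩ ⟨-5400, -984, 12400, -6016⟩] := by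
  refine rok_w (v := ⟨-26, -21, 15, 32⟩) (q := 4) (by decide) (by decide) (by decide) TA_sc (k := 1) (by decide) (Q := [(-3950, -629, 288), (904, -3897, 219), (404, -404, 4), (-1233, 3805, -188)])
    (P := [⟨8847360, -3950, -629⟩, ⟨6727680, 904, -3897⟩, ⟨122880, 404, -404⟩, ⟨-5775360, -1233, 3805⟩]) rfl rfl
    (List.mem_of_getElem? (i := 33) rfl) TA_fr TA_cov ?_
  · intro X Y h
    simp only [List.forall_mem_cons, List.not_mem_nil, false_imp_iff, implies_true, and_true] at h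
    push_cast at h ⊢
    obtain ⟨h0, h1, h2, h3⟩ := h
    refine ⟨⟨?_, ?_⟩, ?_, ?_⟩ <;> linarith

theorem TA_rg34 : ROK [.q ⟨-26, -21, 15, 32⟩ ⟨9980, -21824, 2884, 8960⟩, .q ⟨-26, -21, 15, 32⟩ ⟨4504, 2284, -12292, 5504⟩, .q ⟨-26, -21, 15, 32⟩ ⟨-7172, 18500, -6592, -4736⟩, .q ⟨-26, -21, 15, 32⟩ ⟨-4508, -2600, 12356, -5248⟩] := by
  refine rok_w (v := ⟨-26, -21, 15, 32⟩) (q := 4) (by decide) (by decide) (by decide) TA_sc (k := 1) (by decide) (Q := [(-3986, -329, 280), (1474, -3718, 172), (3848, -1093, -148), (-1511, 3704, -164)])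
    (P := [⟨8601600, -3986, -329⟩, ⟨5283840, 1474, -3718⟩, ⟨-4546560, 3848, -1093⟩, ⟨-5038080, -1511, 3704⟩]) rfl rfl
    (List.mem_of_getElem? (i := 34) rfl) TA_fr TA_cov ?_
  · intro X Y h
    simp only [List.forall_mem_cons, List.not_mem_nil, false_imp_iff, implies_true, and_true] at h
    push_cast at h ⊢
    obtain ⟨h0, h1, h2, h3⟩ := h
    refine ⟨⟨?_, ?_⟩, ?_, ?_⟩ <;> linarith

theorem TA_rg35 : ROK [.q ⟨-26, -21, 15, 32⟩ ⟨11284, -12508, -9912, 11136⟩, .q ⟨-26, -21, 15, 32⟩ ⟨1152, 7900, -11612, 2560⟩, .q ⟨-26, -21, 15, 32⟩ ⟨-10652, 21608, -2252, -8704⟩, .q ⟨-26, -21, 15, 32⟩ ⟨312, -5404, 5476, -384⟩] := by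
  refine rok_w (v := ⟨-26, -21, 15, 32⟩) (q := 4) (by decide) (by decide) (by decide) TA_sc (k := 1) (by decide) (Q := [(-1300, -3783, 348), (2395, -3203, 80), (3974, 457, -272), (-1414, 1414, -12)])
    (P := [⟨10690560, -1300, -3783⟩, ⟨2457600, 2395, -3203⟩, ⟨-8355840, 3974, 457⟩, ⟨-368640, -1414, 1414⟩]) rfl rfl
    (List.mem_of_getElem? (i := 35) rfl) TA_fr TA_cov ?_
  · intro X Y h
    simp only [List.forall_mem_cons, List.not_mem_nil, false_imp_iff, implies_true, and_true] at h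
    push_cast at h ⊢
    obtain ⟨h0, h1, h2, h3⟩ := h
    refine ⟨⟨?_, ?_⟩, ?_, ?_⟩ <;> linarith

theorem TA_rg36 : ROK [.q ⟨-26, -21, 15, 32⟩ ⟨-8252, 19728, -5460, -6016⟩, .q ⟨-26, -21, 15, 32⟩ ⟨-660, -8748, 11456, -2048⟩, .q ⟨-26, -21, 15, 32⟩ ⟨9148, -6888, -11604, 9344⟩] := by
  refine rok_w (v := ⟨-26, -21, 15, 32⟩) (q := 4) (by decide) (by decide) (by decide) TA_sc (k := 1) (by decide) (Q := [(3945, -660, -188), (-2523, 3104, -64), (-189, -3996, 292)])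
    (P := [⟨-5775360, 3945, -660⟩, ⟨-1966080, -2523, 3104⟩, ⟨8970240, -189, -3996⟩]) rfl rfl
    (List.mem_of_getElem? (i := 36) rfl) TA_fr TA_cov ?_
  · intro X Y h
    simp only [List.forall_mem_cons, List.not_mem_nil, false_imp_iff, implies_true, and_true] at h
    push_cast at h ⊢
    obtain ⟨h0, h1, h2⟩ := h
    refine ⟨⟨?_, ?_⟩, ?_, ?_⟩ <;> linarith

theorem TA_rg37 : ROK [.q ⟨-26, -21, 15, 32⟩ ⟨-8008, 4272, 12056, -8320⟩, .q ⟨-26, -21, 15, 32⟩ ⟨11092, -22084, 1136, 9856⟩, .q ⟨-26, -21, 15, 32⟩ ⟨10560, -10356, -10700, 10496⟩, .q ⟨-26, -21, 15, 32⟩ ⟨3268, 4380, -12128, 4480⟩] := by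
  refine rok_w (v := ⟨-26, -21, 15, 32⟩) (q := 4) (by decide) (by decide) (by decide) TA_sc (k := 1) (by decide) (Q := [(-297, 3989, -260), (-3904, -871, 308), (-867, -3905, 328), (1830, -3557, 140)])
    (P := [⟨-7987200, -297, 3989⟩, ⟨9461760, -3904, -871⟩, ⟨10076160, -867, -3905⟩, ⟨4300800, 1830, -3557⟩]) rfl rfl
    (List.mem_of_getElem? (i := 37) rfl) TA_fr TA_cov ?_
  · intro X Y h
    simp only [List.forall_mem_cons, List.not_mem_nil, false_imp_iff, implies_true, and_true] at h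
    push_cast at h ⊢
    obtain ⟨h0, h1, h2, h3⟩ := h
    refine ⟨⟨?_, ?_⟩, ?_, ?_⟩ <;> linarith

theorem TA_rg38 : ROK [.q ⟨-26, -21, 15, 32⟩ ⟨-8824, 5796, 11860, -8832⟩, .q ⟨-26, -21, 15, 32⟩ ⟨4164, -15556, 8960, 2432⟩, .q ⟨-26, -21, 15, 32⟩ ⟨1920, -948, -3020, 2048⟩, .q ⟨-26, -21, 15, 32⟩ ⟨-4504, 15676, -8740, -2432⟩] := by
  refine rok_w (v := ⟨-26, -21, 15, 32⟩) (q := 4) (by decide) (by decide) (by decide) TA_sc (k := 1) (by decide) (Q := [(0, 4000, -276), (-3490, 1955, 76), (99, -995, 64), (3520, -1900, -76)])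
    (P := [⟨-8478720, 0, 4000⟩, ⟨2334720, -3490, 1955⟩, ⟨1966080, 99, -995⟩, ⟨-2334720, 3520, -1900⟩]) rfl rfl
    (List.mem_of_getElem? (i := 38) rfl) TA_fr TA_cov ?_
  · intro X Y h
    simp only [List.forall_mem_cons, List.not_mem_nil, false_imp_iff, implies_true, and_true] at h
    push_cast at h ⊢
    obtain ⟨h0, h1, h2, h3⟩ := h
    refine ⟨⟨?_, ?_⟩, ?_, ?_⟩ <;> linarith

theorem TA_rg39 : ROK [.q ⟨-26, -21, 15, 32⟩ ⟨-1276, -2948, 6016, -1792⟩, .q ⟨-26, -21, 15, 32⟩ ⟨7360, -3148, -12148, 7936⟩, .q ⟨-26, -21, 15, 32⟩ ⟨-6660, 18164, -7024, -4480⟩, .q ⟨-26, -21, 15, 32⟩ ⟨-5352, 5052, 5420, -5120⟩] := by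
  refine rok_w (v := ⟨-26, -21, 15, 32⟩) (q := 4) (by decide) (by decide) (by decide) TA_sc (k := 1) (by decide) (Q := [(-1031, 1714, -56), (515, -3967, 248), (3806, -1231, -140), (423, 1955, -160)])
    (P := [⟨-1720320, -1031, 1714⟩, ⟨7618560, 515, -3967⟩, ⟨-4300800, 3806, -1231⟩, ⟨-4915200, 423, 1955⟩]) rfl rfl
    (List.mem_of_getElem? (i := 39) rfl) TA_fr TA_cov ?_
  · intro X Y h
    simp only [List.forall_mem_cons, List.not_mem_nil, false_imp_iff, implies_true, and_true] at h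
    push_cast at h ⊢
    obtain ⟨h0, h1, h2, h3⟩ := h
    refine ⟨⟨?_, ?_⟩, ?_, ?_⟩ <;> linarith

theorem TA_rg40 : ROK [.q ⟨-26, -21, 15, 32⟩ ⟨5384, 672, -12328, 6272⟩, .q ⟨-26, -21, 15, 32⟩ ⟨-12728, 21384, 1968, -10624⟩, .q ⟨-26, -21, 15, 32⟩ ⟨-2172, -1436, 6168, -2560⟩, .q ⟨-26, -21, 15, 32⟩ ⟨3076, -14652, 9656, 1920⟩] := by
  refine rok_w (v := ⟨-26, -21, 15, 32⟩) (q := 4) (by decide) (by decide) (by decide) TA_sc (k := 1) (by decide) (Q := [(1197, -3817, 196), (3603, 1737, -332), (-779, 1842, -80), (-3348, 2189, 60)])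
    (P := [⟨6021120, 1197, -3817⟩, ⟨-10199040, 3603, 1737⟩, ⟨-2457600, -779, 1842⟩, ⟨1843200, -3348, 2189⟩]) rfl rfl
    (List.mem_of_getElem? (i := 40) rfl) TA_fr TA_cov ?_
  · intro X Y h
    simp only [List.forall_mem_cons, List.not_mem_nil, false_imp_iff, implies_true, and_true] at h
    push_cast at h ⊢
    obtain ⟨h0, h1, h2, h3⟩ := h
    refine ⟨⟨?_, ?_⟩, ?_, ?_⟩ <;> linarith

theorem TA_rg41 : ROK [.q ⟨-26, -21, 15, 32⟩ ⟨-10772, 9976, 10908, -10112⟩, .q ⟨-26, -21, 15, 32⟩ ⟨-1772, -7108, 11824, -2944⟩, .q ⟨-26, -21, 15, 32⟩ ⟨7856, -4132, -12044, 8320⟩, .q ⟨-26, -21, 15, 32⟩ ⟨1464, 7288, -11696, 2944⟩] := by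
  refine rok_w (v := ⟨-26, -21, 15, 32⟩) (q := 4) (by decide) (by decide) (by decide) TA_sc (k := 1) (by decide) (Q := [(835, 3912, -316), (-2260, 3301, -92), (332, -3986, 260), (2305, -3269, 92)])
    (P := [⟨-9707520, 835, 3912⟩, ⟨-2826240, -2260, 3301⟩, ⟨7987200, 332, -3986⟩, ⟨2826240, 2305, -3269⟩]) rfl rfl
    (List.mem_of_getElem? (i := 41) rfl) TA_fr TA_cov ?_
  · intro X Y h
    simp only [List.forall_mem_cons, List.not_mem_nil, false_imp_iff, implies_true, and_true] at h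
    push_cast at h ⊢
    obtain ⟨h0, h1, h2, h3⟩ := h
    refine ⟨⟨?_, ?_⟩, ?_, ?_⟩ <;> linarith

theorem TA_rg42 : ROK [.q ⟨-26, -21, 15, 32⟩ ⟨-1740, -2196, 6112, -2176⟩, .q ⟨-26, -21, 15, 32⟩ ⟨10152, -9212, -11052, 10112⟩, .q ⟨-26, -21, 15, 32⟩ ⟨-9416, 20776, -4064, -7296⟩] := by
  refine rok_w (v := ⟨-26, -21, 15, 32⟩) (q := 4) (by decide) (by decide) (by decide) TA_sc (k := 1) (by decide) (Q := [(-906, 1783, -68), (-644, -3948, 316), (3997, -161, -228)])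
    (P := [⟨-2088960, -906, 1783⟩, ⟨9707520, -644, -3948⟩, ⟨-7004160, 3997, -161⟩]) rfl rfl
    (List.mem_of_getElem? (i := 42) rfl) TA_fr TA_cov ?_
  · intro X Y h
    simp only [List.forall_mem_cons, List.not_mem_nil, false_imp_iff, implies_true, and_true] at h
    push_cast at h ⊢
    obtain ⟨h0, h1, h2⟩ := h
    refine ⟨⟨?_, ?_⟩, ?_, ?_⟩ <;> linarith

theorem TA_rg43 : ROK [.q ⟨-26, -21, 15, 32⟩ ⟨-2580, -5728, 12020, -3712⟩, .q ⟨-26, -21, 15, 32⟩ ⟨872, -588, -1180, 896⟩, .q ⟨-26, -21, 15, 32⟩ ⟨-1668, 7064, -4756, -640⟩] := by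
  refine rok_w (v := ⟨-26, -21, 15, 32⟩) (q := 4) (by decide) (by decide) (by decide) TA_sc (k := 1) (by decide) (Q := [(-2041, 3440, -116), (0, -400, 28), (1661, -1114, -20)])
    (P := [⟨-3563520, -2041, 3440⟩, ⟨860160, 0, -400⟩, ⟨-614400, 1661, -1114⟩]) rfl rfl
    (List.mem_of_getElem? (i := 43) rfl) TA_fr TA_cov ?_
  · intro X Y h
    simp only [List.forall_mem_cons, List.not_mem_nil, false_imp_iff, implies_true, and_true] at h
    push_cast at h ⊢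
    obtain ⟨h0, h1, h2⟩ := h
    refine ⟨⟨?_, ?_⟩, ?_, ?_⟩ <;> linarith

theorem TA_rg44 : ROK [.q ⟨-26, -21, 15, 32⟩ ⟨7084, -18800, 6596, 5120⟩, .q ⟨-26, -21, 15, 32⟩ ⟨872, -588, -1180, 896⟩, .q ⟨-26, -21, 15, 32⟩ ⟨-764, 3440, -2420, -256⟩, .q ⟨-26, -21, 15, 32⟩ ⟨-8824, 5796, 11860, -8832⟩] := by
  refine rok_w (v := ⟨-26, -21, 15, 32⟩) (q := 4) (by decide) (by decide) (by decide) TA_sc (k := 1) (by decide) (Q := [(-3860, 1049, 160), (0, -400, 28), (818, -575, -8), (0, 4000, -276)])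
    (P := [⟨4915200, -3860, 1049⟩, ⟨860160, 0, -400⟩, ⟨-245760, 818, -575⟩, ⟨-8478720, 0, 4000⟩]) rfl rfl
    (List.mem_of_getElem? (i := 44) rfl) TA_fr TA_cov ?_
  · intro X Y h
    simp only [List.forall_mem_cons, List.not_mem_nil, false_imp_iff, implies_true, and_true] at h
    push_cast at h ⊢
    obtain ⟨h0, h1, h2, h3⟩ := h
    refine ⟨⟨?_, ?_⟩, ?_, ?_⟩ <;> linarith

theorem TA_rg45 : ROK [.q ⟨-26, -21, 15, 32⟩ ⟨6344, -10680, -1168, 5504⟩, .q ⟨-26, -21, 15, 32⟩ ⟨3256, 4388, -12124, 4480⟩, .q ⟨-26, -21, 15, 32⟩ ⟨-7776, 18940, -6044, -5120⟩, .q ⟨-26, -21, 15, 32⟩ ⟨-6844, 1664, 12348, -7168⟩, .q ⟨-26, -21, 15, 32⟩ ⟨312, -5404, 5476, -384⟩] := by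
  refine rok_w (v := ⟨-26, -21, 15, 32⟩) (q := 4) (by decide) (by decide) (by decide) TA_sc (k := 1) (by decide) (Q := [(-1767, -937, 172), (1832, -3556, 140), (3895, -911, -160), (-760, 3927, -224), (-1414, 1414, -12)])
    (P := [⟨5283840, -1767, -937⟩, ⟨4300800, 1832, -3556⟩, ⟨-4915200, 3895, -911⟩, ⟨-6881280, -760, 3927⟩, ⟨-368640, -1414, 1414⟩]) rfl rfl
    (List.mem_of_getElem? (i := 45) rfl) TA_fr TA_cov ?_
  · intro X Y h
    simp only [List.forall_mem_cons, List.not_mem_nil, false_imp_iff, implies_true, and_true] at h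
    push_cast at h ⊢
    obtain ⟨h0, h1, h2, h3, h4⟩ := h
    refine ⟨⟨?_, ?_⟩, ?_, ?_⟩ <;> linarith

theorem TA_rg46 : ROK [.q ⟨-26, -21, 15, 32⟩ ⟨-4984, 10436, -1740, -3712⟩, .q ⟨-26, -21, 15, 32⟩ ⟨-4808, -2068, 12380, -5504⟩, .q ⟨-26, -21, 15, 32⟩ ⟨9212, -6956, -11600, 9344⟩, .q ⟨-26, -21, 15, 32⟩ ⟨2620, 5404, -11992, 3968⟩] := by
  refine rok_w (v := ⟨-26, -21, 15, 32⟩) (q := 4) (by decide) (by decide) (by decide) TA_sc (k := 1) (by decide) (Q := [(2000, 0, -116), (-1420, 3740, -172), (-206, -3995, 292), (2002, -3463, 124)])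
    (P := [⟨-3563520, 2000, 0⟩, ⟨-5283840, -1420, 3740⟩, ⟨8970240, -206, -3995⟩, ⟨3809280, 2002, -3463⟩]) rfl rfl
    (List.mem_of_getElem? (i := 46) rfl) TA_fr TA_cov ?_
  · intro X Y h
    simp only [List.forall_mem_cons, List.not_mem_nil, false_imp_iff, implies_true, and_true] at h
    push_cast at h ⊢
    obtain ⟨h0, h1, h2, h3⟩ := h
    refine ⟨⟨?_, ?_⟩, ?_, ?_⟩ <;> linarith

theorem TA_rg47 : ROK [.q ⟨-26, -21, 15, 32⟩ ⟨5352, 696, -12320, 6272⟩, .q ⟨-26, -21, 15, 32⟩ ⟨-11980, 16576, 6412, -11008⟩, .q ⟨-26, -21, 15, 32⟩ ⟨1724, -12408, 10428, 256⟩] := by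
  refine rok_w (v := ⟨-26, -21, 15, 32⟩) (q := 4) (by decide) (by decide) (by decide) TA_sc (k := 1) (by decide) (Q := [(1203, -3815, 196), (2338, 2893, -344), (-3060, 2577, 8)])
    (P := [⟨6021120, 1203, -3815⟩, ⟨-10567680, 2338, 2893⟩, ⟨245760, -3060, 2577⟩]) rfl rfl
    (List.mem_of_getElem? (i := 47) rfl) TA_fr TA_cov ?_
  · intro X Y h
    simp only [List.forall_mem_cons, List.not_mem_nil, false_imp_iff, implies_true, and_true] at h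
    push_cast at h ⊢
    obtain ⟨h0, h1, h2⟩ := h
    refine ⟨⟨?_, ?_⟩, ?_, ?_⟩ <;> linarith

end Pool.Agent.TET
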