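import Pool.Agent.Helper38_TET.TA_C

/-!
# MP_c7c9bf_co: certificates, family TA
-/

set_option autoImplicit false
set_option maxRecDepth 100000

namespace Pool.Agent.TET

theorem TA_rg48 : ROK [.q ⟨-26, -21, 15, 32⟩ ⟨1100, 84, -2464, 1280⟩, .q ⟨-26, -21, 15, 32⟩ ⟨-2440, 3532, 1084, -2176⟩, .q ⟨-26, -21, 15, 32⟩ ⟨312, -5404, 5476, -384⟩] := by
  refine rok_w (v := ⟨-26, -21, 15, 32⟩) (q := 4) (by decide) (by decide) (by decide) TA_sc (k := 1) (by decide) (Q := [(231, -766, 40), (526, 526, -68), (-1414, 1414, -12)])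
    (P := [⟨1228800, 231, -766⟩, ⟨-2088960, 526, 526⟩, ⟨-368640, -1414, 1414⟩]) rfl rfl
    (List.mem_of_getElem? (i := 48) rfl) TA_fr TA_cov ?_
  · intro X Y h
    simp only [List.forall_mem_cons, List.not_mem_nil, false_imp_iff, implies_true, and_true] at h
    push_cast at h ⊢
    obtain ⟨h0, h1, h2⟩ := h
    refine ⟨⟨?_, ?_⟩, ?_, ?_⟩ <;> linarith

theorem TA_rg49 : ROK [.q ⟨-26, -21, 15, 32⟩ ⟨2464, 5652, -11956, 3840⟩, .q ⟨-26, -21, 15, 32⟩ ⟨-11724, 12704, 9900, -10880⟩, .q ⟨-26, -21, 15, 32⟩ ⟨12312, -21656, -768, 10112⟩] := by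
  refine rok_w (v := ⟨-26, -21, 15, 32⟩) (q := 4) (by decide) (by decide) (by decide) TA_sc (k := 1) (by decide) (Q := [(2043, -3439, 120), (1391, 3750, -340), (-3755, -1377, 316)])
    (P := [⟨3686400, 2043, -3439⟩, ⟨-10444800, 1391, 3750⟩, ⟨9707520, -3755, -1377⟩]) rfl rfl
    (List.mem_of_getElem? (i := 49) rfl) TA_fr TA_cov ?_
  · intro X Y h
    simp only [List.forall_mem_cons, List.not_mem_nil, false_imp_iff, implies_true, and_true] at h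
    push_cast at h ⊢
    obtain ⟨h0, h1, h2⟩ := h
    refine ⟨⟨?_, ?_⟩, ?_, ?_⟩ <;> linarith

theorem TA_rg50 : ROK [.q ⟨-26, -21, 15, 32⟩ ⟨40, 4672, -5608, 896⟩, .q ⟨-26, -21, 15, 32⟩ ⟨-908, -996, 3056, -1152⟩, .q ⟨-26, -21, 15, 32⟩ ⟨10536, -9892, -10884, 10240⟩] := by
  refine rok_w (v := ⟨-26, -21, 15, 32⟩) (q := 4) (by decide) (by decide) (by decide) TA_sc (k := 1) (by decide) (Q := [(1315, -1507, 28), (-438, 899, -36), (-793, -3921, 320)])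
    (P := [⟨860160, 1315, -1507⟩, ⟨-1105920, -438, 899⟩, ⟨9830400, -793, -3921⟩]) rfl rfl
    (List.mem_of_getElem? (i := 50) rfl) TA_fr TA_cov ?_
  · intro X Y h
    simp only [List.forall_mem_cons, List.not_mem_nil, false_imp_iff, implies_true, and_true] at h
    push_cast at h ⊢
    obtain ⟨h0, h1, h2⟩ := h
    refine ⟨⟨?_, ?_⟩, ?_, ?_⟩ <;> linarith

theorem TA_rg51 : ROK [.q ⟨-26, -21, 15, 32⟩ ⟨-12132, 16144, 6740, -10752⟩, .q ⟨-26, -21, 15, 32⟩ ⟨-8824, 5796, 11860, -8832⟩, .q ⟨-26, -21, 15, 32⟩ ⟨9584, -20868, 3860, 7424⟩, .q ⟨-26, -21, 15, 32⟩ ⟨3536, 3896, -12168, 4736⟩] := by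
  refine rok_w (v := ⟨-26, -21, 15, 32⟩) (q := 4) (by decide) (by decide) (by decide) TA_sc (k := 1) (by decide) (Q := [(2272, 2945, -336), (0, 4000, -276), (-3999, 95, 232), (1751, -3597, 148)])
    (P := [⟨-10321920, 2272, 2945⟩, ⟨-8478720, 0, 4000⟩, ⟨7127040, -3999, 95⟩, ⟨4546560, 1751, -3597⟩]) rfl rfl
    (List.mem_of_getElem? (i := 51) rfl) TA_fr TA_cov ?_
  · intro X Y h
    simp only [List.forall_mem_cons, List.not_mem_nil, false_imp_iff, implies_true, and_true] at h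
    push_cast at h ⊢
    obtain ⟨h0, h1, h2, h3⟩ := h
    refine ⟨⟨?_, ?_⟩, ?_, ?_⟩ <;> linarith

theorem TA_rg52 : ROK [.q ⟨-26, -21, 15, 32⟩ ⟨-8824, 5796, 11860, -8832⟩, .q ⟨-26, -21, 15, 32⟩ ⟨12192, -17348, -5724, 10880⟩, .q ⟨-26, -21, 15, 32⟩ ⟨524, 2360, -3908, 1024⟩] := by
  refine rok_w (v := ⟨-26, -21, 15, 32⟩) (q := 4) (by decide) (by decide) (by decide) TA_sc (k := 1) (by decide) (Q := [(0, 4000, -276), (-2552, -2706, 340), (758, -1097, 32)])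
    (P := [⟨-8478720, 0, 4000⟩, ⟨10444800, -2552, -2706⟩, ⟨983040, 758, -1097⟩]) rfl rfl
    (List.mem_of_getElem? (i := 52) rfl) TA_fr TA_cov ?_
  · intro X Y h
    simp only [List.forall_mem_cons, List.not_mem_nil, false_imp_iff, implies_true, and_true] at h
    push_cast at h ⊢
    obtain ⟨h0, h1, h2⟩ := h
    refine ⟨⟨?_, ?_⟩, ?_, ?_⟩ <;> linarith

theorem TA_rg53 : ROK [.q ⟨-26, -21, 15, 32⟩ ⟨2924, 4908, -12056, 4224⟩, .q ⟨-26, -21, 15, 32⟩ ⟨-4984, 10436, -1740, -3712⟩, .q ⟨-26, -21, 15, 32⟩ ⟨-7992, 4076, 12108, -8192⟩, .q ⟨-26, -21, 15, 32⟩ ⟨2756, -8416, 3996, 1664⟩] := by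
  refine rok_w (v := ⟨-26, -21, 15, 32⟩) (q := 4) (by decide) (by decide) (by decide) TA_sc (k := 1) (by decide) (Q := [(1920, -3509, 132), (2000, 0, -116), (-325, 3987, -256), (-1831, 804, 52)])
    (P := [⟨4055040, 1920, -3509⟩, ⟨-3563520, 2000, 0⟩, ⟨-7864320, -325, 3987⟩, ⟨1597440, -1831, 804⟩]) rfl rfl
    (List.mem_of_getElem? (i := 53) rfl) TA_fr TA_cov ?_
  · intro X Y h
    simp only [List.forall_mem_cons, List.not_mem_nil, false_imp_iff, implies_true, and_true] at h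
    push_cast at h ⊢
    obtain ⟨h0, h1, h2, h3⟩ := h
    refine ⟨⟨?_, ?_⟩, ?_, ?_⟩ <;> linarith

theorem TA_rg54 : ROK [.q ⟨-26, -21, 15, 32⟩ ⟨-6132, 8452, 3056, -5376⟩, .q ⟨-26, -21, 15, 32⟩ ⟨104, -1532, 1556, -128⟩, .q ⟨-26, -21, 15, 32⟩ ⟨12312, -18452, -4484, 10624⟩, .q ⟨-26, -21, 15, 32⟩ ⟨-1404, 11460, -10568, 512⟩] := by
  refine rok_w (v := ⟨-26, -21, 15, 32⟩) (q := 4) (by decide) (by decide) (by decide) TA_sc (k := 1) (by decide) (Q := [(1231, 1394, -168), (-404, 404, -4), (-2870, -2366, 332), (2949, -2702, 16)])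
    (P := [⟨-5160960, 1231, 1394⟩, ⟨-122880, -404, 404⟩, ⟨10199040, -2870, -2366⟩, ⟨491520, 2949, -2702⟩]) rfl rfl
    (List.mem_of_getElem? (i := 54) rfl) TA_fr TA_cov ?_
  · intro X Y h
    simp only [List.forall_mem_cons, List.not_mem_nil, false_imp_iff, implies_true, and_true] at h
    push_cast at h ⊢
    obtain ⟨h0, h1, h2, h3⟩ := h
    refine ⟨⟨?_, ?_⟩, ?_, ?_⟩ <;> linarith

theorem TA_rg55 : ROK [.q ⟨-26, -21, 15, 32⟩ ⟨12552, -21536, -1384, 10368⟩, .q ⟨-26, -21, 15, 32⟩ ⟨1080, 3068, -5940, 1792⟩, .q ⟨-26, -21, 15, 32⟩ ⟨-12408, 17492, 5540, -10624⟩, .q ⟨-26, -21, 15, 32⟩ ⟨-4156, -3160, 12308, -4992⟩] := by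
  refine rok_w (v := ⟨-26, -21, 15, 32⟩) (q := 4) (by decide) (by decide) (by decide) TA_sc (k := 1) (by decide) (Q := [(-3683, -1561, 324), (1061, -1695, 56), (2630, 2630, -332), (-1609, 3662, -156)])
    (P := [⟨9953280, -3683, -1561⟩, ⟨1720320, 1061, -1695⟩, ⟨-10199040, 2630, 2630⟩, ⟨-4792320, -1609, 3662⟩]) rfl rfl
    (List.mem_of_getElem? (i := 55) rfl) TA_fr TA_cov ?_
  · intro X Y h
    simp only [List.forall_mem_cons, List.not_mem_nil, false_imp_iff, implies_true, and_true] at h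
    push_cast at h ⊢
    obtain ⟨h0, h1, h2, h3⟩ := h
    refine ⟨⟨?_, ?_⟩, ?_, ?_⟩ <;> linarith

theorem TA_rg56 : ROK [.q ⟨-26, -21, 15, 32⟩ ⟨-11412, 11984, 10180, -10752⟩, .q ⟨-26, -21, 15, 32⟩ ⟨9992, -21120, 3320, 7808⟩, .q ⟨-26, -21, 15, 32⟩ ⟨5192, 980, -12316, 6144⟩, .q ⟨-26, -21, 15, 32⟩ ⟨-9864, 20956, -3540, -7552⟩] := by
  refine rok_w (v := ⟨-26, -21, 15, 32⟩) (q := 4) (by decide) (by decide) (by decide) TA_sc (k := 1) (by decide) (Q := [(1232, 3805, -336), (-3999, -85, 244), (1253, -3799, 192), (4000, 0, -236)])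
    (P := [⟨-10321920, 1232, 3805⟩, ⟨7495680, -3999, -85⟩, ⟨5898240, 1253, -3799⟩, ⟨-7249920, 4000, 0⟩]) rfl rfl
    (List.mem_of_getElem? (i := 56) rfl) TA_fr TA_cov ?_
  · intro X Y h
    simp only [List.forall_mem_cons, List.not_mem_nil, false_imp_iff, implies_true, and_true] at h
    push_cast at h ⊢
    obtain ⟨h0, h1, h2, h3⟩ := h
    refine ⟨⟨?_, ?_⟩, ?_, ?_⟩ <;> linarith

end Pool.Agent.TET
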