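import Pool.Agent.Helper38_TET.TB_C

/-!
# MP_c7c9bf_co: certificates, family TB
-/

set_option autoImplicit false
set_option maxRecDepth 100000

namespace Pool.Agent.TET

theorem TB_rg24 : ROK [.q ⟨-7, -13, 20, 0⟩ ⟨-33, 13, 20, 0⟩, .q ⟨5, 15, -20, 0⟩ ⟨-35, 15, 20, 0⟩, .q ⟨33, -13, -20, 0⟩ ⟨2762, 1075, 160, -3997⟩, .q ⟨35, -15, -20, 0⟩ ⟨2762, 1075, 160, -3997⟩, .q ⟨33, -13, -20, 0⟩ ⟨5929, -11346, 1894, 3523⟩, .q ⟨35, -15, -20, 0⟩ ⟨5929, -11346, 1894, 3523⟩, .q ⟨33, -13, -20, 0⟩ ⟨2304, 247, 1249, -3800⟩, .q ⟨35, -15, -20, 0⟩ ⟨2304, 247, 1249, -3800⟩, .q ⟨33, -13, -20, 0⟩ ⟨523, -42, -1634, 1153⟩, .q ⟨35, -15, -20, 0⟩ ⟨523, -42, -1634, 1153⟩] := by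
  refine rok_bs (s := -1) (nlo := 13) (nhi := 15) (q := 20) (by decide) (by decide) (by decide) (by decide) (k := 1) (by decide) (Q := [(160, 3997, -1075), (1894, -3523, 11346), (1249, 3800, -247), (-1634, -1153, 42)])
    (P := [⟨-399360, -20, 0⟩, ⟨460800, 20, 0⟩, ⟨-33024000, 160, 3997⟩, ⟨348549120, 1894, -3523⟩, ⟨-7587840, 1249, 3800⟩, ⟨1290240, -1634, -1153⟩]) rfl rfl
    (List.mem_of_getElem? (i := 24) rfl) TB_fr TB_cov ?_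
  · intro X Y h
    simp only [List.forall_mem_cons, List.not_mem_nil, false_imp_iff, implies_true, and_true] at h
    push_cast at h ⊢
    obtain ⟨h0, h1, h2, h3, h4, h5⟩ := h
    refine ⟨⟨?_, ?_⟩, ?_, ?_⟩ <;> linarith

theorem TB_rg25 : ROK [.q ⟨-5, -35, 40, 0⟩ ⟨-75, 35, 40, 0⟩, .q ⟨2, 38, -40, 0⟩ ⟨-78, 38, 40, 0⟩, .q ⟨75, -35, -40, 0⟩ ⟨1009, -9, 0, -1000⟩, .q ⟨78, -38, -40, 0⟩ ⟨1009, -9, 0, -1000⟩, .q ⟨75, -35, -40, 0⟩ ⟨-3801, -199, 0, 4000⟩, .q ⟨78, -38, -40, 0⟩ ⟨-3801, -199, 0, 4000⟩, .q ⟨75, -35, -40, 0⟩ ⟨-1426, 955, -1159, 1630⟩, .q ⟨78, -38, -40, 0⟩ ⟨-1426, 955, -1159, 1630⟩] := by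
  refine rok_bs (s := -1) (nlo := 35) (nhi := 38) (q := 40) (by decide) (by decide) (by decide) (by decide) (k := 1) (by decide) (Q := [(0, 1000, 9), (0, -4000, 199), (-1159, -1630, -955)])
    (P := [⟨-1075200, -40, 0⟩, ⟨1167360, 40, 0⟩, ⟨276480, 0, 1000⟩, ⟨6113280, 0, -4000⟩, ⟨-29337600, -1159, -1630⟩]) rfl rfl
    (List.mem_of_getElem? (i := 25) rfl) TB_fr TB_cov ?_
  · intro X Y h
    simp only [List.forall_mem_cons, List.not_mem_nil, false_imp_iff, implies_true, and_true] at h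
    push_cast at h ⊢
    obtain ⟨h0, h1, h2, h3, h4⟩ := h
    refine ⟨⟨?_, ?_⟩, ?_, ?_⟩ <;> linarith

theorem TB_rg26 : ROK [.q ⟨-6, -34, 40, 0⟩ ⟨-74, 34, 40, 0⟩, .q ⟨3, 37, -40, 0⟩ ⟨-77, 37, 40, 0⟩, .q ⟨74, -34, -40, 0⟩ ⟨4026, -130, 103, -3999⟩, .q ⟨77, -37, -40, 0⟩ ⟨4026, -130, 103, -3999⟩, .q ⟨74, -34, -40, 0⟩ ⟨-3742, -154, -103, 3999⟩, .q ⟨77, -37, -40, 0⟩ ⟨-3742, -154, -103, 3999⟩, .q ⟨74, -34, -40, 0⟩ ⟨2464, 3015, -3442, -2037⟩, .q ⟨77, -37, -40, 0⟩ ⟨2464, 3015, -3442, -2037⟩, .q ⟨74, -34, -40, 0⟩ ⟨-2950, 1813, -2202, 3339⟩, .q ⟨77, -37, -40, 0⟩ ⟨-2950, 1813, -2202, 3339⟩] := by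
  refine rok_bs (s := -1) (nlo := 34) (nhi := 37) (q := 40) (by decide) (by decide) (by decide) (by decide) (k := 1) (by decide) (Q := [(103, 3999, 130), (-103, -3999, 154), (-3442, 2037, -3015), (-2202, -3339, -1813)])
    (P := [⟨-1044480, -40, 0⟩, ⟨1136640, 40, 0⟩, ⟨3993600, 103, 3999⟩, ⟨4730880, -103, -3999⟩, ⟨-92620800, -3442, 2037⟩, ⟨-55695360, -2202, -3339⟩]) rfl rfl
    (List.mem_of_getElem? (i := 26) rfl) TB_fr TB_cov ?_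
  · intro X Y h
    simp only [List.forall_mem_cons, List.not_mem_nil, false_imp_iff, implies_true, and_true] at h
    push_cast at h ⊢
    obtain ⟨h0, h1, h2, h3, h4, h5⟩ := h
    refine ⟨⟨?_, ?_⟩, ?_, ?_⟩ <;> linarith

theorem TB_rg27 : ROK [.q ⟨-23, -17, 40, 0⟩ ⟨-57, 17, 40, 0⟩, .q ⟨19, 21, -40, 0⟩ ⟨-61, 21, 40, 0⟩, .q ⟨57, -17, -40, 0⟩ ⟨270, 116, 2629, -3015⟩, .q ⟨61, -21, -40, 0⟩ ⟨270, 116, 2629, -3015⟩, .q ⟨57, -17, -40, 0⟩ ⟨11093, -13336, -1475, 3718⟩, .q ⟨61, -21, -40, 0⟩ ⟨11093, -13336, -1475, 3718⟩, .q ⟨57, -17, -40, 0⟩ ⟨2728, 2806, -3355, -2179⟩, .q ⟨61, -21, -40, 0⟩ ⟨2728, 2806, -3355, -2179⟩, .q ⟨57, -17, -40, 0⟩ ⟨553, 189, -3175, 2433⟩, .q ⟨61, -21, -40, 0⟩ ⟨553, 189, -3175, 2433⟩] := by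
  refine rok_bs (s := -1) (nlo := 17) (nhi := 21) (q := 40) (by decide) (by decide) (by decide) (by decide) (k := 1) (by decide) (Q := [(2629, 3015, -116), (-1475, -3718, 13336), (-3355, 2179, -2806), (-3175, -2433, -189)])
    (P := [⟨-522240, -40, 0⟩, ⟨645120, 40, 0⟩, ⟨-3563520, 2629, 3015⟩, ⟨409681920, -1475, -3718⟩, ⟨-86200320, -3355, 2179⟩, ⟨-5806080, -3175, -2433⟩]) rfl rfl
    (List.mem_of_getElem? (i := 27) rfl) TB_fr TB_cov ?_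
  · intro X Y h
    simp only [List.forall_mem_cons, List.not_mem_nil, false_imp_iff, implies_true, and_true] at h
    push_cast at h ⊢
    obtain ⟨h0, h1, h2, h3, h4, h5⟩ := h
    refine ⟨⟨?_, ?_⟩, ?_, ?_⟩ <;> linarith

theorem TB_rg28 : ROK [.q ⟨-22, -18, 40, 0⟩ ⟨-58, 18, 40, 0⟩, .q ⟨19, 21, -40, 0⟩ ⟨-61, 21, 40, 0⟩, .q ⟨58, -18, -40, 0⟩ ⟨6889, -4889, 0, -2000⟩, .q ⟨61, -21, -40, 0⟩ ⟨6889, -4889, 0, -2000⟩, .q ⟨58, -18, -40, 0⟩ ⟨4223, -6223, 0, 2000⟩, .q ⟨61, -21, -40, 0⟩ ⟨4223, -6223, 0, 2000⟩, .q ⟨58, -18, -40, 0⟩ ⟨2707, 2833, -3341, -2199⟩, .q ⟨61, -21, -40, 0⟩ ⟨2707, 2833, -3341, -2199⟩, .q ⟨58, -18, -40, 0⟩ ⟨973, 626, -3513, 1914⟩, .q ⟨61, -21, -40, 0⟩ ⟨973, 626, -3513, 1914⟩] := by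
  refine rok_bs (s := -1) (nlo := 18) (nhi := 21) (q := 40) (by decide) (by decide) (by decide) (by decide) (k := 1) (by decide) (Q := [(0, 2000, 4889), (0, -2000, 6223), (-3341, 2199, -2833), (-3513, -1914, -626)])
    (P := [⟨-552960, -40, 0⟩, ⟨645120, 40, 0⟩, ⟨150190080, 0, 2000⟩, ⟨191170560, 0, -2000⟩, ⟨-87029760, -3341, 2199⟩, ⟨-19230720, -3513, -1914⟩]) rfl rfl
    (List.mem_of_getElem? (i := 28) rfl) TB_fr TB_cov ?_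
  · intro X Y h
    simp only [List.forall_mem_cons, List.not_mem_nil, false_imp_iff, implies_true, and_true] at h
    push_cast at h ⊢
    obtain ⟨h0, h1, h2, h3, h4, h5⟩ := h
    refine ⟨⟨?_, ?_⟩, ?_, ?_⟩ <;> linarith

theorem TB_rg29 : ROK [.q ⟨-26, -214, 240, 0⟩ ⟨-454, 214, 240, 0⟩, .q ⟨21, 219, -240, 0⟩ ⟨-459, 219, 240, 0⟩, .q ⟨454, -214, -240, 0⟩ ⟨3207, 1743, -1106, -3844⟩, .q ⟨459, -219, -240, 0⟩ ⟨3207, 1743, -1106, -3844⟩, .q ⟨454, -214, -240, 0⟩ ⟨819, -2391, -1931, 3503⟩, .q ⟨459, -219, -240, 0⟩ ⟨819, -2391, -1931, 3503⟩] := by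
  refine rok_bs (s := -1) (nlo := 214) (nhi := 219) (q := 240) (by decide) (by decide) (by decide) (by decide) (k := 1) (by decide) (Q := [(-1106, 3844, -1743), (-1931, -3503, 2391)])
    (P := [⟨-6574080, -240, 0⟩, ⟨6727680, 240, 0⟩, ⟨-53544960, -1106, 3844⟩, ⟨73451520, -1931, -3503⟩]) rfl rfl
    (List.mem_of_getElem? (i := 29) rfl) TB_fr TB_cov ?_
  · intro X Y h
    simp only [List.forall_mem_cons, List.not_mem_nil, false_imp_iff, implies_true, and_true] at h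
    push_cast at h ⊢
    obtain ⟨h0, h1, h2, h3⟩ := h
    refine ⟨⟨?_, ?_⟩, ?_, ?_⟩ <;> linarith

theorem TB_rg30 : ROK [.q ⟨-7, -13, 20, 0⟩ ⟨-33, 13, 20, 0⟩, .q ⟨5, 15, -20, 0⟩ ⟨-35, 15, 20, 0⟩, .q ⟨33, -13, -20, 0⟩ ⟨2523, 611, 788, -3922⟩, .q ⟨35, -15, -20, 0⟩ ⟨2523, 611, 788, -3922⟩, .q ⟨33, -13, -20, 0⟩ ⟨553, -3687, -788, 3922⟩, .q ⟨35, -15, -20, 0⟩ ⟨553, -3687, -788, 3922⟩, .q ⟨33, -13, -20, 0⟩ ⟨1782, -482, 2103, -3403⟩, .q ⟨35, -15, -20, 0⟩ ⟨1782, -482, 2103, -3403⟩] := by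
  refine rok_bs (s := -1) (nlo := 13) (nhi := 15) (q := 20) (by decide) (by decide) (by decide) (by decide) (k := 1) (by decide) (Q := [(788, 3922, -611), (-788, -3922, 3687), (2103, 3403, 482)])
    (P := [⟨-399360, -20, 0⟩, ⟨460800, 20, 0⟩, ⟨-18769920, 788, 3922⟩, ⟨113264640, -788, -3922⟩, ⟨14807040, 2103, 3403⟩]) rfl rfl
    (List.mem_of_getElem? (i := 30) rfl) TB_fr TB_cov ?_
  · intro X Y h
    simp only [List.forall_mem_cons, List.not_mem_nil, false_imp_iff, implies_true, and_true] at h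
    push_cast at h ⊢
    obtain ⟨h0, h1, h2, h3, h4⟩ := h
    refine ⟨⟨?_, ?_⟩, ?_, ?_⟩ <;> linarith

theorem TB_rg31 : ROK [.q ⟨-40, -40, 80, 0⟩ ⟨-120, 40, 80, 0⟩, .q ⟨37, 43, -80, 0⟩ ⟨-123, 43, 80, 0⟩, .q ⟨120, -40, -80, 0⟩ ⟨1975, 1901, 122, -3998⟩, .q ⟨123, -43, -80, 0⟩ ⟨1975, 1901, 122, -3998⟩, .q ⟨120, -40, -80, 0⟩ ⟨-286, -758, -263, 1307⟩, .q ⟨123, -43, -80, 0⟩ ⟨-286, -758, -263, 1307⟩, .q ⟨120, -40, -80, 0⟩ ⟨2823, 2829, -2710, -2942⟩, .q ⟨123, -43, -80, 0⟩ ⟨2823, 2829, -2710, -2942⟩] := by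
  refine rok_bs (s := -1) (nlo := 40) (nhi := 43) (q := 80) (by decide) (by decide) (by decide) (by decide) (k := 1) (by decide) (Q := [(122, 3998, -1901), (-263, -1307, 758), (-2710, 2942, -2829)])
    (P := [⟨-1228800, -80, 0⟩, ⟨1320960, 80, 0⟩, ⟨-58398720, 122, 3998⟩, ⟨23285760, -263, -1307⟩, ⟨-86906880, -2710, 2942⟩]) rfl rfl
    (List.mem_of_getElem? (i := 31) rfl) TB_fr TB_cov ?_
  · intro X Y h
    simp only [List.forall_mem_cons, List.not_mem_nil, false_imp_iff, implies_true, and_true] at h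
    push_cast at h ⊢
    obtain ⟨h0, h1, h2, h3, h4⟩ := h
    refine ⟨⟨?_, ?_⟩, ?_, ?_⟩ <;> linarith

theorem TB_rg32 : ROK [.q ⟨-24, -24, 48, 0⟩ ⟨-72, 24, 48, 0⟩, .q ⟨23, 25, -48, 0⟩ ⟨-73, 25, 48, 0⟩, .q ⟨72, -24, -48, 0⟩ ⟨407, 393, 0, -800⟩, .q ⟨73, -25, -48, 0⟩ ⟨407, 393, 0, -800⟩, .q ⟨72, -24, -48, 0⟩ ⟨-851, -2283, -788, 3922⟩, .q ⟨73, -25, -48, 0⟩ ⟨-851, -2283, -788, 3922⟩, .q ⟨72, -24, -48, 0⟩ ⟨1369, 1360, -993, -1736⟩, .q ⟨73, -25, -48, 0⟩ ⟨1369, 1360, -993, -1736⟩] := by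
  refine rok_bs (s := -1) (nlo := 24) (nhi := 25) (q := 48) (by decide) (by decide) (by decide) (by decide) (k := 1) (by decide) (Q := [(0, 800, -393), (-788, -3922, 2283), (-993, 1736, -1360)])
    (P := [⟨-737280, -48, 0⟩, ⟨768000, 48, 0⟩, ⟨-12072960, 0, 800⟩, ⟨70133760, -788, -3922⟩, ⟨-41779200, -993, 1736⟩]) rfl rfl
    (List.mem_of_getElem? (i := 32) rfl) TB_fr TB_cov ?_
  · intro X Y h
    simp only [List.forall_mem_cons, List.not_mem_nil, false_imp_iff, implies_true, and_true] at h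
    push_cast at h ⊢
    obtain ⟨h0, h1, h2, h3, h4⟩ := h
    refine ⟨⟨?_, ?_⟩, ?_, ?_⟩ <;> linarith

theorem TB_rg33 : ROK [.q ⟨-21, -19, 40, 0⟩ ⟨-59, 19, 40, 0⟩, .q ⟨18, 22, -40, 0⟩ ⟨-62, 22, 40, 0⟩, .q ⟨59, -19, -40, 0⟩ ⟨1271, 1171, 1330, -3772⟩, .q ⟨62, -22, -40, 0⟩ ⟨1271, 1171, 1330, -3772⟩, .q ⟨59, -19, -40, 0⟩ ⟨3933, -5154, -665, 1886⟩, .q ⟨62, -22, -40, 0⟩ ⟨3933, -5154, -665, 1886⟩, .q ⟨59, -19, -40, 0⟩ ⟨2623, 2671, -3644, -1650⟩, .q ⟨62, -22, -40, 0⟩ ⟨2623, 2671, -3644, -1650⟩, .q ⟨59, -19, -40, 0⟩ ⟨846, 499, -3420, 2075⟩, .q ⟨62, -22, -40, 0⟩ ⟨846, 499, -3420, 2075⟩] := by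
  refine rok_bs (s := -1) (nlo := 19) (nhi := 22) (q := 40) (by decide) (by decide) (by decide) (by decide) (k := 1) (by decide) (Q := [(1330, 3772, -1171), (-665, -1886, 5154), (-3644, 1650, -2671), (-3420, -2075, -499)])
    (P := [⟨-583680, -40, 0⟩, ⟨675840, 40, 0⟩, ⟨-35973120, 1330, 3772⟩, ⟨158330880, -665, -1886⟩, ⟨-82053120, -3644, 1650⟩, ⟨-15329280, -3420, -2075⟩]) rfl rfl
    (List.mem_of_getElem? (i := 33) rfl) TB_fr TB_cov ?_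
  · intro X Y h
    simp only [List.forall_mem_cons, List.not_mem_nil, false_imp_iff, implies_true, and_true] at h
    push_cast at h ⊢
    obtain ⟨h0, h1, h2, h3, h4, h5⟩ := h
    refine ⟨⟨?_, ?_⟩, ?_, ?_⟩ <;> linarith

theorem TB_rg34 : ROK [.q ⟨-487, -473, 960, 0⟩ ⟨-1433, 473, 960, 0⟩, .q ⟨480, 480, -960, 0⟩ ⟨-1440, 480, 960, 0⟩, .q ⟨1433, -473, -960, 0⟩ ⟨1969, 1947, 83, -3999⟩, .q ⟨1440, -480, -960, 0⟩ ⟨1969, 1947, 83, -3999⟩, .q ⟨1433, -473, -960, 0⟩ ⟨-520, -637, -2190, 3347⟩, .q ⟨1440, -480, -960, 0⟩ ⟨-520, -637, -2190, 3347⟩, .q ⟨1433, -473, -960, 0⟩ ⟨2601, 2582, -3724, -1459⟩, .q ⟨1440, -480, -960, 0⟩ ⟨2601, 2582, -3724, -1459⟩] := by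
  refine rok_bs (s := -1) (nlo := 473) (nhi := 480) (q := 960) (by decide) (by decide) (by decide) (by decide) (k := 1) (by decide) (Q := [(83, 3999, -1947), (-2190, -3347, 637), (-3724, 1459, -2582)])
    (P := [⟨-14530560, -960, 0⟩, ⟨14745600, 960, 0⟩, ⟨-59811840, 83, 3999⟩, ⟨19568640, -2190, -3347⟩, ⟨-79319040, -3724, 1459⟩]) rfl rfl
    (List.mem_of_getElem? (i := 34) rfl) TB_fr TB_cov ?_
  · intro X Y h
    simp only [List.forall_mem_cons, List.not_mem_nil, false_imp_iff, implies_true, and_true] at h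
    push_cast at h ⊢
    obtain ⟨h0, h1, h2, h3, h4⟩ := h
    refine ⟨⟨?_, ?_⟩, ?_, ?_⟩ <;> linarith

theorem TB_rg35 : ROK [.q ⟨-22, -18, 40, 0⟩ ⟨-58, 18, 40, 0⟩, .q ⟨19, 21, -40, 0⟩ ⟨-61, 21, 40, 0⟩, .q ⟨58, -18, -40, 0⟩ ⟨2400, 2375, -871, -3904⟩, .q ⟨61, -21, -40, 0⟩ ⟨2400, 2375, -871, -3904⟩, .q ⟨58, -18, -40, 0⟩ ⟨9640, -14415, 871, 3904⟩, .q ⟨61, -21, -40, 0⟩ ⟨9640, -14415, 871, 3904⟩, .q ⟨58, -18, -40, 0⟩ ⟨2657, 2642, -3640, -1659⟩, .q ⟨61, -21, -40, 0⟩ ⟨2657, 2642, -3640, -1659⟩, .q ⟨58, -18, -40, 0⟩ ⟨523, 417, -3259, 2319⟩, .q ⟨61, -21, -40, 0⟩ ⟨523, 417, -3259, 2319⟩] := by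
  refine rok_bs (s := -1) (nlo := 18) (nhi := 21) (q := 40) (by decide) (by decide) (by decide) (by decide) (k := 1) (by decide) (Q := [(-871, 3904, -2375), (871, -3904, 14415), (-3640, 1659, -2642), (-3259, -2319, -417)])
    (P := [⟨-552960, -40, 0⟩, ⟨645120, 40, 0⟩, ⟨-72960000, -871, 3904⟩, ⟨442828800, 871, -3904⟩, ⟨-81162240, -3640, 1659⟩, ⟨-12810240, -3259, -2319⟩]) rfl rfl
    (List.mem_of_getElem? (i := 35) rfl) TB_fr TB_cov ?_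
  · intro X Y h
    simp only [List.forall_mem_cons, List.not_mem_nil, false_imp_iff, implies_true, and_true] at h
    push_cast at h ⊢
    obtain ⟨h0, h1, h2, h3, h4, h5⟩ := h
    refine ⟨⟨?_, ?_⟩, ?_, ?_⟩ <;> linarith

theorem TB_rg36 : ROK [.q ⟨-38, -42, 80, 0⟩ ⟨-122, 42, 80, 0⟩, .q ⟨37, 43, -80, 0⟩ ⟨-123, 43, 80, 0⟩, .q ⟨122, -42, -80, 0⟩ ⟨2128, 101, 1485, -3714⟩, .q ⟨123, -43, -80, 0⟩ ⟨2128, 101, 1485, -3714⟩, .q ⟨122, -42, -80, 0⟩ ⟨-1295, -934, -1485, 3714⟩, .q ⟨123, -43, -80, 0⟩ ⟨-1295, -934, -1485, 3714⟩, .q ⟨122, -42, -80, 0⟩ ⟨45, 165, -1042, 832⟩, .q ⟨123, -43, -80, 0⟩ ⟨45, 165, -1042, 832⟩] := by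
  refine rok_bs (s := -1) (nlo := 42) (nhi := 43) (q := 80) (by decide) (by decide) (by decide) (by decide) (k := 1) (by decide) (Q := [(1485, 3714, -101), (-1485, -3714, 934), (-1042, -832, -165)])
    (P := [⟨-1290240, -80, 0⟩, ⟨1320960, 80, 0⟩, ⟨-3102720, 1485, 3714⟩, ⟨28692480, -1485, -3714⟩, ⟨-5068800, -1042, -832⟩]) rfl rfl
    (List.mem_of_getElem? (i := 36) rfl) TB_fr TB_cov ?_
  · intro X Y h
    simp only [List.forall_mem_cons, List.not_mem_nil, false_imp_iff, implies_true, and_true] at h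
    push_cast at h ⊢
    obtain ⟨h0, h1, h2, h3, h4⟩ := h
    refine ⟨⟨?_, ?_⟩, ?_, ?_⟩ <;> linarith

theorem TB_rg37 : ROK [.q ⟨-21, -19, 40, 0⟩ ⟨-59, 19, 40, 0⟩, .q ⟨18, 22, -40, 0⟩ ⟨-62, 22, 40, 0⟩, .q ⟨59, -19, -40, 0⟩ ⟨2150, 2123, -283, -3990⟩, .q ⟨62, -22, -40, 0⟩ ⟨2150, 2123, -283, -3990⟩, .q ⟨59, -19, -40, 0⟩ ⟨-483, -863, -2074, 3420⟩, .q ⟨62, -22, -40, 0⟩ ⟨-483, -863, -2074, 3420⟩, .q ⟨59, -19, -40, 0⟩ ⟨1301, 1295, -1859, -737⟩, .q ⟨62, -22, -40, 0⟩ ⟨1301, 1295, -1859, -737⟩] := by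
  refine rok_bs (s := -1) (nlo := 19) (nhi := 22) (q := 40) (by decide) (by decide) (by decide) (by decide) (k := 1) (by decide) (Q := [(-283, 3990, -2123), (-2074, -3420, 863), (-1859, 737, -1295)])
    (P := [⟨-583680, -40, 0⟩, ⟨675840, 40, 0⟩, ⟨-65218560, -283, 3990⟩, ⟨26511360, -2074, -3420⟩, ⟨-39782400, -1859, 737⟩]) rfl rfl
    (List.mem_of_getElem? (i := 37) rfl) TB_fr TB_cov ?_
  · intro X Y h
    simp only [List.forall_mem_cons, List.not_mem_nil, false_imp_iff, implies_true, and_true] at h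
    push_cast at h ⊢
    obtain ⟨h0, h1, h2, h3, h4⟩ := h
    refine ⟨⟨?_, ?_⟩, ?_, ?_⟩ <;> linarith

theorem TB_rg38 : ROK [.q ⟨-39, -41, 80, 0⟩ ⟨-121, 41, 80, 0⟩, .q ⟨36, 44, -80, 0⟩ ⟨-124, 44, 80, 0⟩, .q ⟨121, -41, -80, 0⟩ ⟨2095, 95, 1513, -3703⟩, .q ⟨124, -44, -80, 0⟩ ⟨2095, 95, 1513, -3703⟩, .q ⟨121, -41, -80, 0⟩ ⟨-1279, -911, -1513, 3703⟩, .q ⟨124, -44, -80, 0⟩ ⟨-1279, -911, -1513, 3703⟩] := by
  refine rok_bs (s := -1) (nlo := 41) (nhi := 44) (q := 80) (by decide) (by decide) (by decide) (by decide) (k := 1) (by decide) (Q := [(1513, 3703, -95), (-1513, -3703, 911)])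
    (P := [⟨-1259520, -80, 0⟩, ⟨1351680, 80, 0⟩, ⟨-2918400, 1513, 3703⟩, ⟨27985920, -1513, -3703⟩]) rfl rfl
    (List.mem_of_getElem? (i := 38) rfl) TB_fr TB_cov ?_
  · intro X Y h
    simp only [List.forall_mem_cons, List.not_mem_nil, false_imp_iff, implies_true, and_true] at h
    push_cast at h ⊢
    obtain ⟨h0, h1, h2, h3⟩ := h
    refine ⟨⟨?_, ?_⟩, ?_, ?_⟩ <;> linarith

theorem TB_rg39 : ROK [.q ⟨-116, -124, 240, 0⟩ ⟨-364, 124, 240, 0⟩, .q ⟨111, 129, -240, 0⟩ ⟨-369, 129, 240, 0⟩, .q ⟨364, -124, -240, 0⟩ ⟨3033, 967, 0, -4000⟩, .q ⟨369, -129, -240, 0⟩ ⟨3033, 967, 0, -4000⟩, .q ⟨364, -124, -240, 0⟩ ⟨-945, -577, -1963, 3485⟩, .q ⟨369, -129, -240, 0⟩ ⟨-945, -577, -1963, 3485⟩, .q ⟨364, -124, -240, 0⟩ ⟨-1204, -838, -1617, 3659⟩, .q ⟨369, -129, -240, 0⟩ ⟨-1204, -838, -1617, 3659⟩] := by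
  refine rok_bs (s := -1) (nlo := 124) (nhi := 129) (q := 240) (by decide) (by decide) (by decide) (by decide) (k := 1) (by decide) (Q := [(0, 4000, -967), (-1963, -3485, 577), (-1617, -3659, 838)])
    (P := [⟨-3809280, -240, 0⟩, ⟨3962880, 240, 0⟩, ⟨-29706240, 0, 4000⟩, ⟨17725440, -1963, -3485⟩, ⟨25743360, -1617, -3659⟩]) rfl rfl
    (List.mem_of_getElem? (i := 39) rfl) TB_fr TB_cov ?_
  · intro X Y h
    simp only [List.forall_mem_cons, List.not_mem_nil, false_imp_iff, implies_true, and_true] at h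
    push_cast at h ⊢
    obtain ⟨h0, h1, h2, h3, h4⟩ := h
    refine ⟨⟨?_, ?_⟩, ?_, ?_⟩ <;> linarith

theorem TB_rg40 : ROK [.q ⟨-5, -5, 10, 0⟩ ⟨-15, 5, 10, 0⟩, .q ⟨3, 7, -10, 0⟩ ⟨-17, 7, 10, 0⟩, .q ⟨15, -5, -10, 0⟩ ⟨2590, 2663, -1577, -3676⟩, .q ⟨17, -7, -10, 0⟩ ⟨2590, 2663, -1577, -3676⟩, .q ⟨15, -5, -10, 0⟩ ⟨-190, -1361, -1945, 3496⟩, .q ⟨17, -7, -10, 0⟩ ⟨-190, -1361, -1945, 3496⟩] := by
  refine rok_bs (s := -1) (nlo := 5) (nhi := 7) (q := 10) (by decide) (by decide) (by decide) (by decide) (k := 1) (by decide) (Q := [(-1577, 3676, -2663), (-1945, -3496, 1361)])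
    (P := [⟨-153600, -10, 0⟩, ⟨215040, 10, 0⟩, ⟨-81807360, -1577, 3676⟩, ⟨41809920, -1945, -3496⟩]) rfl rfl
    (List.mem_of_getElem? (i := 40) rfl) TB_fr TB_cov ?_
  · intro X Y h
    simp only [List.forall_mem_cons, List.not_mem_nil, false_imp_iff, implies_true, and_true] at h
    push_cast at h ⊢
    obtain ⟨h0, h1, h2, h3⟩ := h
    refine ⟨⟨?_, ?_⟩, ?_, ?_⟩ <;> linarith

theorem TB_rg41 : ROK [.q ⟨-11, -469, 480, 0⟩ ⟨-949, 469, 480, 0⟩, .q ⟨3, 477, -480, 0⟩ ⟨-957, 477, 480, 0⟩, .q ⟨949, -469, -480, 0⟩ ⟨5223, -4251, 322, -1294⟩, .q ⟨957, -477, -480, 0⟩ ⟨5223, -4251, 322, -1294⟩, .q ⟨949, -469, -480, 0⟩ ⟨-3599, 683, -966, 3882⟩, .q ⟨957, -477, -480, 0⟩ ⟨-3599, 683, -966, 3882⟩, .q ⟨949, -469, -480, 0⟩ ⟨4008, -631, 581, -3958⟩, .q ⟨957, -477, -480, 0⟩ ⟨4008, -631, 581, -3958⟩] := by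
  refine rok_bs (s := -1) (nlo := 469) (nhi := 477) (q := 480) (by decide) (by decide) (by decide) (by decide) (k := 1) (by decide) (Q := [(322, 1294, 4251), (-966, -3882, -683), (581, 3958, 631)])
    (P := [⟨-14407680, -480, 0⟩, ⟨14653440, 480, 0⟩, ⟨130590720, 322, 1294⟩, ⟨-20981760, -966, -3882⟩, ⟨19384320, 581, 3958⟩]) rfl rfl
    (List.mem_of_getElem? (i := 41) rfl) TB_fr TB_cov ?_
  · intro X Y h
    simp only [List.forall_mem_cons, List.not_mem_nil, false_imp_iff, implies_true, and_true] at h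
    push_cast at h ⊢
    obtain ⟨h0, h1, h2, h3, h4⟩ := h
    refine ⟨⟨?_, ?_⟩, ?_, ?_⟩ <;> linarith

theorem TB_rg42 : ROK [.q ⟨-41, -39, 80, 0⟩ ⟨-119, 39, 80, 0⟩, .q ⟨39, 41, -80, 0⟩ ⟨-121, 41, 80, 0⟩, .q ⟨119, -39, -80, 0⟩ ⟨525, 518, -44, -999⟩, .q ⟨121, -41, -80, 0⟩ ⟨525, 518, -44, -999⟩, .q ⟨119, -39, -80, 0⟩ ⟨-1771, -2401, 176, 3996⟩, .q ⟨121, -41, -80, 0⟩ ⟨-1771, -2401, 176, 3996⟩, .q ⟨119, -39, -80, 0⟩ ⟨2627, 2618, -3682, -1563⟩, .q ⟨121, -41, -80, 0⟩ ⟨2627, 2618, -3682, -1563⟩] := by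
  refine rok_bs (s := -1) (nlo := 39) (nhi := 41) (q := 80) (by decide) (by decide) (by decide) (by decide) (k := 1) (by decide) (Q := [(-44, 999, -518), (176, -3996, 2401), (-3682, 1563, -2618)])
    (P := [⟨-1198080, -80, 0⟩, ⟨1259520, 80, 0⟩, ⟨-15912960, -44, 999⟩, ⟨73758720, 176, -3996⟩, ⟨-80424960, -3682, 1563⟩]) rfl rfl
    (List.mem_of_getElem? (i := 42) rfl) TB_fr TB_cov ?_
  · intro X Y h
    simp only [List.forall_mem_cons, List.not_mem_nil, false_imp_iff, implies_true, and_true] at h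
    push_cast at h ⊢
    obtain ⟨h0, h1, h2, h3, h4⟩ := h
    refine ⟨⟨?_, ?_⟩, ?_, ?_⟩ <;> linarith

theorem TB_rg43 : ROK [.q ⟨-237, -243, 480, 0⟩ ⟨-723, 243, 480, 0⟩, .q ⟨227, 253, -480, 0⟩ ⟨-733, 253, 480, 0⟩, .q ⟨723, -243, -480, 0⟩ ⟨2116, 68, 1517, -3701⟩, .q ⟨733, -253, -480, 0⟩ ⟨2116, 68, 1517, -3701⟩, .q ⟨723, -243, -480, 0⟩ ⟨-1276, -908, -1517, 3701⟩, .q ⟨733, -253, -480, 0⟩ ⟨-1276, -908, -1517, 3701⟩] := by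
  refine rok_bs (s := -1) (nlo := 243) (nhi := 253) (q := 480) (by decide) (by decide) (by decide) (by decide) (k := 1) (by decide) (Q := [(1517, 3701, -68), (-1517, -3701, 908)])
    (P := [⟨-7464960, -480, 0⟩, ⟨7772160, 480, 0⟩, ⟨-2088960, 1517, 3701⟩, ⟨27893760, -1517, -3701⟩]) rfl rfl
    (List.mem_of_getElem? (i := 43) rfl) TB_fr TB_cov ?_
  · intro X Y h
    simp only [List.forall_mem_cons, List.not_mem_nil, false_imp_iff, implies_true, and_true] at h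
    push_cast at h ⊢
    obtain ⟨h0, h1, h2, h3⟩ := h
    refine ⟨⟨?_, ?_⟩, ?_, ?_⟩ <;> linarith

theorem TB_rg44 : ROK [.q ⟨-39, -41, 80, 0⟩ ⟨-121, 41, 80, 0⟩, .q ⟨36, 44, -80, 0⟩ ⟨-124, 44, 80, 0⟩, .q ⟨121, -41, -80, 0⟩ ⟨2247, 228, 1306, -3781⟩, .q ⟨124, -44, -80, 0⟩ ⟨2247, 228, 1306, -3781⟩, .q ⟨121, -41, -80, 0⟩ ⟨-1158, -790, -1681, 3629⟩, .q ⟨124, -44, -80, 0⟩ ⟨-1158, -790, -1681, 3629⟩] := by
  refine rok_bs (s := -1) (nlo := 41) (nhi := 44) (q := 80) (by decide) (by decide) (by decide) (by decide) (k := 1) (by decide) (Q := [(1306, 3781, -228), (-1681, -3629, 790)])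
    (P := [⟨-1259520, -80, 0⟩, ⟨1351680, 80, 0⟩, ⟨-7004160, 1306, 3781⟩, ⟨24268800, -1681, -3629⟩]) rfl rfl
    (List.mem_of_getElem? (i := 44) rfl) TB_fr TB_cov ?_
  · intro X Y h
    simp only [List.forall_mem_cons, List.not_mem_nil, false_imp_iff, implies_true, and_true] at h
    push_cast at h ⊢
    obtain ⟨h0, h1, h2, h3⟩ := h
    refine ⟨⟨?_, ?_⟩, ?_, ?_⟩ <;> linarith

theorem TB_rg45 : ROK [.q ⟨-239, -241, 480, 0⟩ ⟨-721, 241, 480, 0⟩, .q ⟨229, 251, -480, 0⟩ ⟨-731, 251, 480, 0⟩, .q ⟨721, -241, -480, 0⟩ ⟨2767, 2754, -2144, -3377⟩, .q ⟨731, -251, -480, 0⟩ ⟨2767, 2754, -2144, -3377⟩, .q ⟨721, -241, -480, 0⟩ ⟨-2133, -3388, 2144, 3377⟩, .q ⟨731, -251, -480, 0⟩ ⟨-2133, -3388, 2144, 3377⟩, .q ⟨721, -241, -480, 0⟩ ⟨947, 908, 140, -1995⟩, .q ⟨731, -251, -480, 0⟩ ⟨947, 908, 140, -1995⟩] := by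
  refine rok_bs (s := -1) (nlo := 241) (nhi := 251) (q := 480) (by decide) (by decide) (by decide) (by decide) (k := 1) (by decide) (Q := [(-2144, 3377, -2754), (2144, -3377, 3388), (140, 1995, -908)])
    (P := [⟨-7403520, -480, 0⟩, ⟨7710720, 480, 0⟩, ⟨-84602880, -2144, 3377⟩, ⟨104079360, 2144, -3377⟩, ⟨-27893760, 140, 1995⟩]) rfl rfl
    (List.mem_of_getElem? (i := 45) rfl) TB_fr TB_cov ?_
  · intro X Y h
    simp only [List.forall_mem_cons, List.not_mem_nil, false_imp_iff, implies_true, and_true] at h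
    push_cast at h ⊢
    obtain ⟨h0, h1, h2, h3, h4⟩ := h
    refine ⟨⟨?_, ?_⟩, ?_, ?_⟩ <;> linarith

theorem TB_rg46 : ROK [.q ⟨-10, -10, 20, 0⟩ ⟨-30, 10, 20, 0⟩, .q ⟨9, 11, -20, 0⟩ ⟨-31, 11, 20, 0⟩, .q ⟨30, -10, -20, 0⟩ ⟨1114, 1086, -211, -1989⟩, .q ⟨31, -11, -20, 0⟩ ⟨1114, 1086, -211, -1989⟩, .q ⟨30, -10, -20, 0⟩ ⟨-1329, -2789, 120, 3998⟩, .q ⟨31, -11, -20, 0⟩ ⟨-1329, -2789, 120, 3998⟩, .q ⟨30, -10, -20, 0⟩ ⟨905, 899, -628, -1176⟩, .q ⟨31, -11, -20, 0⟩ ⟨905, 899, -628, -1176⟩] := by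
  refine rok_bs (s := -1) (nlo := 10) (nhi := 11) (q := 20) (by decide) (by decide) (by decide) (by decide) (k := 1) (by decide) (Q := [(-211, 1989, -1086), (120, -3998, 2789), (-628, 1176, -899)])
    (P := [⟨-307200, -20, 0⟩, ⟨337920, 20, 0⟩, ⟨-33361920, -211, 1989⟩, ⟨85678080, 120, -3998⟩, ⟨-27617280, -628, 1176⟩]) rfl rfl
    (List.mem_of_getElem? (i := 46) rfl) TB_fr TB_cov ?_
  · intro X Y h
    simp only [List.forall_mem_cons, List.not_mem_nil, false_imp_iff, implies_true, and_true] at h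
    push_cast at h ⊢
    obtain ⟨h0, h1, h2, h3, h4⟩ := h
    refine ⟨⟨?_, ?_⟩, ?_, ?_⟩ <;> linarith

theorem TB_rg47 : ROK [.q ⟨-87, -105, 192, 0⟩ ⟨-297, 105, 192, 0⟩, .q ⟨85, 107, -192, 0⟩ ⟨-299, 107, 192, 0⟩, .q ⟨297, -105, -192, 0⟩ ⟨3401, 2247, -2663, -2985⟩, .q ⟨299, -107, -192, 0⟩ ⟨3401, 2247, -2663, -2985⟩, .q ⟨297, -105, -192, 0⟩ ⟨-269, -89, -1224, 1582⟩, .q ⟨299, -107, -192, 0⟩ ⟨-269, -89, -1224, 1582⟩] := by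
  refine rok_bs (s := -1) (nlo := 105) (nhi := 107) (q := 192) (by decide) (by decide) (by decide) (by decide) (k := 1) (by decide) (Q := [(-2663, 2985, -2247), (-1224, -1582, 89)])
    (P := [⟨-3225600, -192, 0⟩, ⟨3287040, 192, 0⟩, ⟨-69027840, -2663, 2985⟩, ⟨2734080, -1224, -1582⟩]) rfl rfl
    (List.mem_of_getElem? (i := 47) rfl) TB_fr TB_cov ?_
  · intro X Y h
    simp only [List.forall_mem_cons, List.not_mem_nil, false_imp_iff, implies_true, and_true] at h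
    push_cast at h ⊢
    obtain ⟨h0, h1, h2, h3⟩ := h
    refine ⟨⟨?_, ?_⟩, ?_, ?_⟩ <;> linarith

end Pool.Agent.TET
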