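import Pool.Agent.Helper38_TET.TB_C

/-!
# MP_c7c9bf_co: certificates, family TB
-/

set_option autoImplicit false
set_option maxRecDepth 100000

namespace Pool.Agent.TET

theorem TB_rg240 : ROK [.q ⟨-114, -126, 240, 0⟩ ⟨-366, 126, 240, 0⟩, .q ⟨109, 131, -240, 0⟩ ⟨-371, 131, 240, 0⟩, .q ⟨366, -126, -240, 0⟩ ⟨1872, -97, 1798, -3573⟩, .q ⟨371, -131, -240, 0⟩ ⟨1872, -97, 1798, -3573⟩, .q ⟨366, -126, -240, 0⟩ ⟨-1072, -703, -1798, 3573⟩, .q ⟨371, -131, -240, 0⟩ ⟨-1072, -703, -1798, 3573⟩] := by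
  refine rok_bs (s := -1) (nlo := 126) (nhi := 131) (q := 240) (by decide) (by decide) (by decide) (by decide) (k := 1) (by decide) (Q := [(1798, 3573, 97), (-1798, -3573, 703)])
    (P := [⟨-3870720, -240, 0⟩, ⟨4024320, 240, 0⟩, ⟨2979840, 1798, 3573⟩, ⟨21596160, -1798, -3573⟩]) rfl rfl
    (List.mem_of_getElem? (i := 240) rfl) TB_fr TB_cov ?_
  · intro X Y h
    simp only [List.forall_mem_cons, List.not_mem_nil, false_imp_iff, implies_true, and_true] at h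
    push_cast at h ⊢
    obtain ⟨h0, h1, h2, h3⟩ := h
    refine ⟨⟨?_, ?_⟩, ?_, ?_⟩ <;> linarith

theorem TB_rg241 : ROK [.q ⟨-225, -255, 480, 0⟩ ⟨-735, 255, 480, 0⟩, .q ⟨221, 259, -480, 0⟩ ⟨-739, 259, 480, 0⟩, .q ⟨735, -255, -480, 0⟩ ⟨3272, -2841, 458, -889⟩, .q ⟨739, -259, -480, 0⟩ ⟨3272, -2841, 458, -889⟩, .q ⟨735, -255, -480, 0⟩ ⟨-1045, -679, -1832, 3556⟩, .q ⟨739, -259, -480, 0⟩ ⟨-1045, -679, -1832, 3556⟩, .q ⟨735, -255, -480, 0⟩ ⟨3242, 1239, -514, -3967⟩, .q ⟨739, -259, -480, 0⟩ ⟨3242, 1239, -514, -3967⟩] := by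
  refine rok_bs (s := -1) (nlo := 255) (nhi := 259) (q := 480) (by decide) (by decide) (by decide) (by decide) (k := 1) (by decide) (Q := [(458, 889, 2841), (-1832, -3556, 679), (-514, 3967, -1239)])
    (P := [⟨-7833600, -480, 0⟩, ⟨7956480, 480, 0⟩, ⟨87275520, 458, 889⟩, ⟨20858880, -1832, -3556⟩, ⟨-38062080, -514, 3967⟩]) rfl rfl
    (List.mem_of_getElem? (i := 241) rfl) TB_fr TB_cov ?_
  · intro X Y h
    simp only [List.forall_mem_cons, List.not_mem_nil, false_imp_iff, implies_true, and_true] at h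
    push_cast at h ⊢
    obtain ⟨h0, h1, h2, h3, h4⟩ := h
    refine ⟨⟨?_, ?_⟩, ?_, ?_⟩ <;> linarith

theorem TB_rg242 : ROK [.q ⟨-19, -21, 40, 0⟩ ⟨-61, 21, 40, 0⟩, .q ⟨16, 24, -40, 0⟩ ⟨-64, 24, 40, 0⟩, .q ⟨61, -21, -40, 0⟩ ⟨2722, 2877, -2395, -3204⟩, .q ⟨64, -24, -40, 0⟩ ⟨2722, 2877, -2395, -3204⟩, .q ⟨61, -21, -40, 0⟩ ⟨-1921, -3380, 1663, 3638⟩, .q ⟨64, -24, -40, 0⟩ ⟨-1921, -3380, 1663, 3638⟩] := by
  refine rok_bs (s := -1) (nlo := 21) (nhi := 24) (q := 40) (by decide) (by decide) (by decide) (by decide) (k := 1) (by decide) (Q := [(-2395, 3204, -2877), (1663, -3638, 3380)])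
    (P := [⟨-645120, -40, 0⟩, ⟨737280, 40, 0⟩, ⟨-88381440, -2395, 3204⟩, ⟨103833600, 1663, -3638⟩]) rfl rfl
    (List.mem_of_getElem? (i := 242) rfl) TB_fr TB_cov ?_
  · intro X Y h
    simp only [List.forall_mem_cons, List.not_mem_nil, false_imp_iff, implies_true, and_true] at h
    push_cast at h ⊢
    obtain ⟨h0, h1, h2, h3⟩ := h
    refine ⟨⟨?_, ?_⟩, ?_, ?_⟩ <;> linarith

theorem TB_rg243 : ROK [.q ⟨-13, -67, 80, 0⟩ ⟨-147, 67, 80, 0⟩, .q ⟨11, 69, -80, 0⟩ ⟨-149, 69, 80, 0⟩, .q ⟨147, -67, -80, 0⟩ ⟨3995, 1107, -1329, -3773⟩, .q ⟨149, -69, -80, 0⟩ ⟨3995, 1107, -1329, -3773⟩, .q ⟨147, -67, -80, 0⟩ ⟨-3452, 1192, -1463, 3723⟩, .q ⟨149, -69, -80, 0⟩ ⟨-3452, 1192, -1463, 3723⟩, .q ⟨147, -67, -80, 0⟩ ⟨4052, 174, -233, -3993⟩, .q ⟨149, -69, -80, 0⟩ ⟨4052, 174, -233, -3993⟩] := by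
  refine rok_bs (s := -1) (nlo := 67) (nhi := 69) (q := 80) (by decide) (by decide) (by decide) (by decide) (k := 1) (by decide) (Q := [(-1329, 3773, -1107), (-1463, -3723, -1192), (-233, 3993, -174)])
    (P := [⟨-2058240, -80, 0⟩, ⟨2119680, 80, 0⟩, ⟨-34007040, -1329, 3773⟩, ⟨-36618240, -1463, -3723⟩, ⟨-5345280, -233, 3993⟩]) rfl rfl
    (List.mem_of_getElem? (i := 243) rfl) TB_fr TB_cov ?_
  · intro X Y h
    simp only [List.forall_mem_cons, List.not_mem_nil, false_imp_iff, implies_true, and_true] at h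
    push_cast at h ⊢
    obtain ⟨h0, h1, h2, h3, h4⟩ := h
    refine ⟨⟨?_, ?_⟩, ?_, ?_⟩ <;> linarith

theorem TB_rg244 : ROK [.q ⟨-20, -20, 40, 0⟩ ⟨-60, 20, 40, 0⟩, .q ⟨17, 23, -40, 0⟩ ⟨-63, 23, 40, 0⟩, .q ⟨60, -20, -40, 0⟩ ⟨1672, -241, 2021, -3452⟩, .q ⟨63, -23, -40, 0⟩ ⟨1672, -241, 2021, -3452⟩, .q ⟨60, -20, -40, 0⟩ ⟨-881, -550, -2021, 3452⟩, .q ⟨63, -23, -40, 0⟩ ⟨-881, -550, -2021, 3452⟩, .q ⟨60, -20, -40, 0⟩ ⟨409, 804, -3369, 2156⟩, .q ⟨63, -23, -40, 0⟩ ⟨409, 804, -3369, 2156⟩] := by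
  refine rok_bs (s := -1) (nlo := 20) (nhi := 23) (q := 40) (by decide) (by decide) (by decide) (by decide) (k := 1) (by decide) (Q := [(2021, 3452, 241), (-2021, -3452, 550), (-3369, -2156, -804)])
    (P := [⟨-614400, -40, 0⟩, ⟨706560, 40, 0⟩, ⟨7403520, 2021, 3452⟩, ⟨16896000, -2021, -3452⟩, ⟨-24698880, -3369, -2156⟩]) rfl rfl
    (List.mem_of_getElem? (i := 244) rfl) TB_fr TB_cov ?_
  · intro X Y h
    simp only [List.forall_mem_cons, List.not_mem_nil, false_imp_iff, implies_true, and_true] at h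
    push_cast at h ⊢
    obtain ⟨h0, h1, h2, h3, h4⟩ := h
    refine ⟨⟨?_, ?_⟩, ?_, ?_⟩ <;> linarith

theorem TB_rg245 : ROK [.q ⟨-16, -464, 480, 0⟩ ⟨-944, 464, 480, 0⟩, .q ⟨9, 471, -480, 0⟩ ⟨-951, 471, 480, 0⟩, .q ⟨944, -464, -480, 0⟩ ⟨813, -13, 0, -800⟩, .q ⟨951, -471, -480, 0⟩ ⟨813, -13, 0, -800⟩, .q ⟨944, -464, -480, 0⟩ ⟨-933, -67, 0, 1000⟩, .q ⟨951, -471, -480, 0⟩ ⟨-933, -67, 0, 1000⟩] := by
  refine rok_bs (s := -1) (nlo := 464) (nhi := 471) (q := 480) (by decide) (by decide) (by decide) (by decide) (k := 1) (by decide) (Q := [(0, 800, 13), (0, -1000, 67)])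
    (P := [⟨-14254080, -480, 0⟩, ⟨14469120, 480, 0⟩, ⟨399360, 0, 800⟩, ⟨2058240, 0, -1000⟩]) rfl rfl
    (List.mem_of_getElem? (i := 245) rfl) TB_fr TB_cov ?_
  · intro X Y h
    simp only [List.forall_mem_cons, List.not_mem_nil, false_imp_iff, implies_true, and_true] at h
    push_cast at h ⊢
    obtain ⟨h0, h1, h2, h3⟩ := h
    refine ⟨⟨?_, ?_⟩, ?_, ?_⟩ <;> linarith

theorem TB_rg246 : ROK [.q ⟨-11, -9, 20, 0⟩ ⟨-29, 9, 20, 0⟩, .q ⟨8, 12, -20, 0⟩ ⟨-32, 12, 20, 0⟩, .q ⟨29, -9, -20, 0⟩ ⟨1291, 3958, -1571, -3678⟩, .q ⟨32, -12, -20, 0⟩ ⟨1291, 3958, -1571, -3678⟩, .q ⟨29, -9, -20, 0⟩ ⟨912, -2208, -2105, 3401⟩, .q ⟨32, -12, -20, 0⟩ ⟨912, -2208, -2105, 3401⟩] := by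
  refine rok_bs (s := -1) (nlo := 9) (nhi := 12) (q := 20) (by decide) (by decide) (by decide) (by decide) (k := 1) (by decide) (Q := [(-1571, 3678, -3958), (-2105, -3401, 2208)])
    (P := [⟨-276480, -20, 0⟩, ⟨368640, 20, 0⟩, ⟨-121589760, -1571, 3678⟩, ⟨67829760, -2105, -3401⟩]) rfl rfl
    (List.mem_of_getElem? (i := 246) rfl) TB_fr TB_cov ?_
  · intro X Y h
    simp only [List.forall_mem_cons, List.not_mem_nil, false_imp_iff, implies_true, and_true] at h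
    push_cast at h ⊢
    obtain ⟨h0, h1, h2, h3⟩ := h
    refine ⟨⟨?_, ?_⟩, ?_, ?_⟩ <;> linarith

theorem TB_rg247 : ROK [.q ⟨-38, -42, 80, 0⟩ ⟨-122, 42, 80, 0⟩, .q ⟨35, 45, -80, 0⟩ ⟨-125, 45, 80, 0⟩, .q ⟨122, -42, -80, 0⟩ ⟨830, -128, 1019, -1721⟩, .q ⟨125, -45, -80, 0⟩ ⟨830, -128, 1019, -1721⟩, .q ⟨122, -42, -80, 0⟩ ⟨-889, -515, -2038, 3442⟩, .q ⟨125, -45, -80, 0⟩ ⟨-889, -515, -2038, 3442⟩] := by
  refine rok_bs (s := -1) (nlo := 42) (nhi := 45) (q := 80) (by decide) (by decide) (by decide) (by decide) (k := 1) (by decide) (Q := [(1019, 1721, 128), (-2038, -3442, 515)])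
    (P := [⟨-1290240, -80, 0⟩, ⟨1382400, 80, 0⟩, ⟨3932160, 1019, 1721⟩, ⟨15820800, -2038, -3442⟩]) rfl rfl
    (List.mem_of_getElem? (i := 247) rfl) TB_fr TB_cov ?_
  · intro X Y h
    simp only [List.forall_mem_cons, List.not_mem_nil, false_imp_iff, implies_true, and_true] at h
    push_cast at h ⊢
    obtain ⟨h0, h1, h2, h3⟩ := h
    refine ⟨⟨?_, ?_⟩, ?_, ?_⟩ <;> linarith

theorem TB_rg248 : ROK [.q ⟨-20, -20, 40, 0⟩ ⟨-60, 20, 40, 0⟩, .q ⟨17, 23, -40, 0⟩ ⟨-63, 23, 40, 0⟩, .q ⟨60, -20, -40, 0⟩ ⟨12491, -11934, 2536, -3093⟩, .q ⟨63, -23, -40, 0⟩ ⟨12491, -11934, 2536, -3093⟩, .q ⟨60, -20, -40, 0⟩ ⟨-460, -97, -2536, 3093⟩, .q ⟨63, -23, -40, 0⟩ ⟨-460, -97, -2536, 3093⟩, .q ⟨60, -20, -40, 0⟩ ⟨1292, 1383, -1797, -878⟩, .q ⟨63, -23, -40, 0⟩ ⟨1292, 1383, -1797, -878⟩] := by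
  refine rok_bs (s := -1) (nlo := 20) (nhi := 23) (q := 40) (by decide) (by decide) (by decide) (by decide) (k := 1) (by decide) (Q := [(2536, 3093, 11934), (-2536, -3093, 97), (-1797, 878, -1383)])
    (P := [⟨-614400, -40, 0⟩, ⟨706560, 40, 0⟩, ⟨366612480, 2536, 3093⟩, ⟨2979840, -2536, -3093⟩, ⟨-42485760, -1797, 878⟩]) rfl rfl
    (List.mem_of_getElem? (i := 248) rfl) TB_fr TB_cov ?_
  · intro X Y h
    simp only [List.forall_mem_cons, List.not_mem_nil, false_imp_iff, implies_true, and_true] at h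
    push_cast at h ⊢
    obtain ⟨h0, h1, h2, h3, h4⟩ := h
    refine ⟨⟨?_, ?_⟩, ?_, ?_⟩ <;> linarith

theorem TB_rg249 : ROK [.q ⟨-37, -43, 80, 0⟩ ⟨-123, 43, 80, 0⟩, .q ⟨34, 46, -80, 0⟩ ⟨-126, 46, 80, 0⟩, .q ⟨123, -43, -80, 0⟩ ⟨2013, 62, 1594, -3669⟩, .q ⟨126, -46, -80, 0⟩ ⟨2013, 62, 1594, -3669⟩, .q ⟨123, -43, -80, 0⟩ ⟨7683, -9758, -1594, 3669⟩, .q ⟨126, -46, -80, 0⟩ ⟨7683, -9758, -1594, 3669⟩, .q ⟨123, -43, -80, 0⟩ ⟨738, 1171, -3617, 1708⟩, .q ⟨126, -46, -80, 0⟩ ⟨738, 1171, -3617, 1708⟩] := by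
  refine rok_bs (s := -1) (nlo := 43) (nhi := 46) (q := 80) (by decide) (by decide) (by decide) (by decide) (k := 1) (by decide) (Q := [(1594, 3669, -62), (-1594, -3669, 9758), (-3617, -1708, -1171)])
    (P := [⟨-1320960, -80, 0⟩, ⟨1413120, 80, 0⟩, ⟨-1904640, 1594, 3669⟩, ⟨299765760, -1594, -3669⟩, ⟨-35973120, -3617, -1708⟩]) rfl rfl
    (List.mem_of_getElem? (i := 249) rfl) TB_fr TB_cov ?_
  · intro X Y h
    simp only [List.forall_mem_cons, List.not_mem_nil, false_imp_iff, implies_true, and_true] at h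
    push_cast at h ⊢
    obtain ⟨h0, h1, h2, h3, h4⟩ := h
    refine ⟨⟨?_, ?_⟩, ?_, ?_⟩ <;> linarith

theorem TB_rg250 : ROK [.q ⟨-220, -260, 480, 0⟩ ⟨-740, 260, 480, 0⟩, .q ⟨209, 271, -480, 0⟩ ⟨-751, 271, 480, 0⟩, .q ⟨740, -260, -480, 0⟩ ⟨1280, -541, 2435, -3174⟩, .q ⟨751, -271, -480, 0⟩ ⟨1280, -541, 2435, -3174⟩, .q ⟨740, -260, -480, 0⟩ ⟨-549, -190, -2435, 3174⟩, .q ⟨751, -271, -480, 0⟩ ⟨-549, -190, -2435, 3174⟩] := by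
  refine rok_bs (s := -1) (nlo := 260) (nhi := 271) (q := 480) (by decide) (by decide) (by decide) (by decide) (k := 1) (by decide) (Q := [(2435, 3174, 541), (-2435, -3174, 190)])
    (P := [⟨-7987200, -480, 0⟩, ⟨8325120, 480, 0⟩, ⟨16619520, 2435, 3174⟩, ⟨5836800, -2435, -3174⟩]) rfl rfl
    (List.mem_of_getElem? (i := 250) rfl) TB_fr TB_cov ?_
  · intro X Y h
    simp only [List.forall_mem_cons, List.not_mem_nil, false_imp_iff, implies_true, and_true] at h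
    push_cast at h ⊢
    obtain ⟨h0, h1, h2, h3⟩ := h
    refine ⟨⟨?_, ?_⟩, ?_, ?_⟩ <;> linarith

theorem TB_rg251 : ROK [.q ⟨-225, -255, 480, 0⟩ ⟨-735, 255, 480, 0⟩, .q ⟨218, 262, -480, 0⟩ ⟨-742, 262, 480, 0⟩, .q ⟨735, -255, -480, 0⟩ ⟨1174, -608, 2531, -3097⟩, .q ⟨742, -262, -480, 0⟩ ⟨1174, -608, 2531, -3097⟩, .q ⟨735, -255, -480, 0⟩ ⟨-971, -601, -1931, 3503⟩, .q ⟨742, -262, -480, 0⟩ ⟨-971, -601, -1931, 3503⟩] := by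
  refine rok_bs (s := -1) (nlo := 255) (nhi := 262) (q := 480) (by decide) (by decide) (by decide) (by decide) (k := 1) (by decide) (Q := [(2531, 3097, 608), (-1931, -3503, 601)])
    (P := [⟨-7833600, -480, 0⟩, ⟨8048640, 480, 0⟩, ⟨18677760, 2531, 3097⟩, ⟨18462720, -1931, -3503⟩]) rfl rfl
    (List.mem_of_getElem? (i := 251) rfl) TB_fr TB_cov ?_
  · intro X Y h
    simp only [List.forall_mem_cons, List.not_mem_nil, false_imp_iff, implies_true, and_true] at h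
    push_cast at h ⊢
    obtain ⟨h0, h1, h2, h3⟩ := h
    refine ⟨⟨?_, ?_⟩, ?_, ?_⟩ <;> linarith

theorem TB_rg252 : ROK [.q ⟨-19, -21, 40, 0⟩ ⟨-61, 21, 40, 0⟩, .q ⟨16, 24, -40, 0⟩ ⟨-64, 24, 40, 0⟩, .q ⟨61, -21, -40, 0⟩ ⟨2858, 1044, 97, -3999⟩, .q ⟨64, -24, -40, 0⟩ ⟨2858, 1044, 97, -3999⟩, .q ⟨61, -21, -40, 0⟩ ⟨-142, -113, -125, 380⟩, .q ⟨64, -24, -40, 0⟩ ⟨-142, -113, -125, 380⟩, .q ⟨61, -21, -40, 0⟩ ⟨909, 1291, -3706, 1506⟩, .q ⟨64, -24, -40, 0⟩ ⟨909, 1291, -3706, 1506⟩] := by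
  refine rok_bs (s := -1) (nlo := 21) (nhi := 24) (q := 40) (by decide) (by decide) (by decide) (by decide) (k := 1) (by decide) (Q := [(97, 3999, -1044), (-125, -380, 113), (-3706, -1506, -1291)])
    (P := [⟨-645120, -40, 0⟩, ⟨737280, 40, 0⟩, ⟨-32071680, 97, 3999⟩, ⟨3471360, -125, -380⟩, ⟨-39659520, -3706, -1506⟩]) rfl rfl
    (List.mem_of_getElem? (i := 252) rfl) TB_fr TB_cov ?_
  · intro X Y h
    simp only [List.forall_mem_cons, List.not_mem_nil, false_imp_iff, implies_true, and_true] at h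
    push_cast at h ⊢
    obtain ⟨h0, h1, h2, h3, h4⟩ := h
    refine ⟨⟨?_, ?_⟩, ?_, ?_⟩ <;> linarith

theorem TB_rg253 : ROK [.q ⟨-437, -523, 960, 0⟩ ⟨-1483, 523, 960, 0⟩, .q ⟨427, 533, -960, 0⟩ ⟨-1493, 533, 960, 0⟩, .q ⟨1483, -523, -960, 0⟩ ⟨12533, -11861, 2472, -3144⟩, .q ⟨1493, -533, -960, 0⟩ ⟨12533, -11861, 2472, -3144⟩, .q ⟨1483, -523, -960, 0⟩ ⟨-515, -157, -2472, 3144⟩, .q ⟨1493, -533, -960, 0⟩ ⟨-515, -157, -2472, 3144⟩, .q ⟨1483, -523, -960, 0⟩ ⟨824, 366, -213, -977⟩, .q ⟨1493, -533, -960, 0⟩ ⟨824, 366, -213, -977⟩] := by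
  refine rok_bs (s := -1) (nlo := 523) (nhi := 533) (q := 960) (by decide) (by decide) (by decide) (by decide) (k := 1) (by decide) (Q := [(2472, 3144, 11861), (-2472, -3144, 157), (-213, 977, -366)])
    (P := [⟨-16066560, -960, 0⟩, ⟨16373760, 960, 0⟩, ⟨364369920, 2472, 3144⟩, ⟨4823040, -2472, -3144⟩, ⟨-11243520, -213, 977⟩]) rfl rfl
    (List.mem_of_getElem? (i := 253) rfl) TB_fr TB_cov ?_
  · intro X Y h
    simp only [List.forall_mem_cons, List.not_mem_nil, false_imp_iff, implies_true, and_true] at h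
    push_cast at h ⊢
    obtain ⟨h0, h1, h2, h3, h4⟩ := h
    refine ⟨⟨?_, ?_⟩, ?_, ?_⟩ <;> linarith

theorem TB_rg254 : ROK [.q ⟨-11, -9, 20, 0⟩ ⟨-29, 9, 20, 0⟩, .q ⟨8, 12, -20, 0⟩ ⟨-32, 12, 20, 0⟩, .q ⟨29, -9, -20, 0⟩ ⟨137, 63, 0, -200⟩, .q ⟨32, -12, -20, 0⟩ ⟨137, 63, 0, -200⟩, .q ⟨29, -9, -20, 0⟩ ⟨-430, -64, -2571, 3065⟩, .q ⟨32, -12, -20, 0⟩ ⟨-430, -64, -2571, 3065⟩, .q ⟨29, -9, -20, 0⟩ ⟨821, 1205, -3654, 1628⟩, .q ⟨32, -12, -20, 0⟩ ⟨821, 1205, -3654, 1628⟩] := by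
  refine rok_bs (s := -1) (nlo := 9) (nhi := 12) (q := 20) (by decide) (by decide) (by decide) (by decide) (k := 1) (by decide) (Q := [(0, 200, -63), (-2571, -3065, 64), (-3654, -1628, -1205)])
    (P := [⟨-276480, -20, 0⟩, ⟨368640, 20, 0⟩, ⟨-1935360, 0, 200⟩, ⟨1966080, -2571, -3065⟩, ⟨-37017600, -3654, -1628⟩]) rfl rfl
    (List.mem_of_getElem? (i := 254) rfl) TB_fr TB_cov ?_
  · intro X Y h
    simp only [List.forall_mem_cons, List.not_mem_nil, false_imp_iff, implies_true, and_true] at h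
    push_cast at h ⊢
    obtain ⟨h0, h1, h2, h3, h4⟩ := h
    refine ⟨⟨?_, ?_⟩, ?_, ?_⟩ <;> linarith

theorem TB_rg255 : ROK [.q ⟨-39, -41, 80, 0⟩ ⟨-121, 41, 80, 0⟩, .q ⟨36, 44, -80, 0⟩ ⟨-124, 44, 80, 0⟩, .q ⟨121, -41, -80, 0⟩ ⟨3100, 1130, -237, -3993⟩, .q ⟨124, -44, -80, 0⟩ ⟨3100, 1130, -237, -3993⟩, .q ⟨121, -41, -80, 0⟩ ⟨-145, 44, -1363, 1464⟩, .q ⟨124, -44, -80, 0⟩ ⟨-145, 44, -1363, 1464⟩, .q ⟨121, -41, -80, 0⟩ ⟨-1131, -769, -1714, 3614⟩, .q ⟨124, -44, -80, 0⟩ ⟨-1131, -769, -1714, 3614⟩] := by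
  refine rok_bs (s := -1) (nlo := 41) (nhi := 44) (q := 80) (by decide) (by decide) (by decide) (by decide) (k := 1) (by decide) (Q := [(-237, 3993, -1130), (-1363, -1464, -44), (-1714, -3614, 769)])
    (P := [⟨-1259520, -80, 0⟩, ⟨1351680, 80, 0⟩, ⟨-34713600, -237, 3993⟩, ⟨-1351680, -1363, -1464⟩, ⟨23623680, -1714, -3614⟩]) rfl rfl
    (List.mem_of_getElem? (i := 255) rfl) TB_fr TB_cov ?_
  · intro X Y h
    simp only [List.forall_mem_cons, List.not_mem_nil, false_imp_iff, implies_true, and_true] at h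
    push_cast at h ⊢
    obtain ⟨h0, h1, h2, h3, h4⟩ := h
    refine ⟨⟨?_, ?_⟩, ?_, ?_⟩ <;> linarith

theorem TB_rg256 : ROK [.q ⟨-20, -20, 40, 0⟩ ⟨-60, 20, 40, 0⟩, .q ⟨17, 23, -40, 0⟩ ⟨-63, 23, 40, 0⟩, .q ⟨60, -20, -40, 0⟩ ⟨3873, -2653, 109, -1329⟩, .q ⟨63, -23, -40, 0⟩ ⟨3873, -2653, 109, -1329⟩, .q ⟨60, -20, -40, 0⟩ ⟨-79, -1200, -2116, 3395⟩, .q ⟨63, -23, -40, 0⟩ ⟨-79, -1200, -2116, 3395⟩, .q ⟨60, -20, -40, 0⟩ ⟨2640, 2919, -3304, -2255⟩, .q ⟨63, -23, -40, 0⟩ ⟨2640, 2919, -3304, -2255⟩] := by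
  refine rok_bs (s := -1) (nlo := 20) (nhi := 23) (q := 40) (by decide) (by decide) (by decide) (by decide) (k := 1) (by decide) (Q := [(109, 1329, 2653), (-2116, -3395, 1200), (-3304, 2255, -2919)])
    (P := [⟨-614400, -40, 0⟩, ⟨706560, 40, 0⟩, ⟨81500160, 109, 1329⟩, ⟨36864000, -2116, -3395⟩, ⟨-89671680, -3304, 2255⟩]) rfl rfl
    (List.mem_of_getElem? (i := 256) rfl) TB_fr TB_cov ?_
  · intro X Y h
    simp only [List.forall_mem_cons, List.not_mem_nil, false_imp_iff, implies_true, and_true] at h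
    push_cast at h ⊢
    obtain ⟨h0, h1, h2, h3, h4⟩ := h
    refine ⟨⟨?_, ?_⟩, ?_, ?_⟩ <;> linarith

theorem TB_rg257 : ROK [.q ⟨-7, -33, 40, 0⟩ ⟨-73, 33, 40, 0⟩, .q ⟨4, 36, -40, 0⟩ ⟨-76, 36, 40, 0⟩, .q ⟨73, -33, -40, 0⟩ ⟨1569, -1069, 0, -500⟩, .q ⟨76, -36, -40, 0⟩ ⟨1569, -1069, 0, -500⟩, .q ⟨73, -33, -40, 0⟩ ⟨-3953, -47, 0, 4000⟩, .q ⟨76, -36, -40, 0⟩ ⟨-3953, -47, 0, 4000⟩, .q ⟨73, -33, -40, 0⟩ ⟨1313, -92, 108, -1329⟩, .q ⟨76, -36, -40, 0⟩ ⟨1313, -92, 108, -1329⟩, .q ⟨73, -33, -40, 0⟩ ⟨-721, 471, -571, 821⟩, .q ⟨76, -36, -40, 0⟩ ⟨-721, 471, -571, 821⟩] := by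
  refine rok_bs (s := -1) (nlo := 33) (nhi := 36) (q := 40) (by decide) (by decide) (by decide) (by decide) (k := 1) (by decide) (Q := [(0, 500, 1069), (0, -4000, 47), (108, 1329, 92), (-571, -821, -471)])
    (P := [⟨-1013760, -40, 0⟩, ⟨1105920, 40, 0⟩, ⟨32839680, 0, 500⟩, ⟨1443840, 0, -4000⟩, ⟨2826240, 108, 1329⟩, ⟨-14469120, -571, -821⟩]) rfl rfl
    (List.mem_of_getElem? (i := 257) rfl) TB_fr TB_cov ?_
  · intro X Y h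
    simp only [List.forall_mem_cons, List.not_mem_nil, false_imp_iff, implies_true, and_true] at h
    push_cast at h ⊢
    obtain ⟨h0, h1, h2, h3, h4, h5⟩ := h
    refine ⟨⟨?_, ?_⟩, ?_, ?_⟩ <;> linarith

theorem TB_rg258 : ROK [.q ⟨-45, -51, 96, 0⟩ ⟨-147, 51, 96, 0⟩, .q ⟨43, 53, -96, 0⟩ ⟨-149, 53, 96, 0⟩, .q ⟨147, -51, -96, 0⟩ ⟨1731, -204, 1960, -3487⟩, .q ⟨149, -53, -96, 0⟩ ⟨1731, -204, 1960, -3487⟩, .q ⟨147, -51, -96, 0⟩ ⟨-949, -578, -1960, 3487⟩, .q ⟨149, -53, -96, 0⟩ ⟨-949, -578, -1960, 3487⟩] := by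
  refine rok_bs (s := -1) (nlo := 51) (nhi := 53) (q := 96) (by decide) (by decide) (by decide) (by decide) (k := 1) (by decide) (Q := [(1960, 3487, 204), (-1960, -3487, 578)])
    (P := [⟨-1566720, -96, 0⟩, ⟨1628160, 96, 0⟩, ⟨6266880, 1960, 3487⟩, ⟨17756160, -1960, -3487⟩]) rfl rfl
    (List.mem_of_getElem? (i := 258) rfl) TB_fr TB_cov ?_
  · intro X Y h
    simp only [List.forall_mem_cons, List.not_mem_nil, false_imp_iff, implies_true, and_true] at h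
    push_cast at h ⊢
    obtain ⟨h0, h1, h2, h3⟩ := h
    refine ⟨⟨?_, ?_⟩, ?_, ?_⟩ <;> linarith

theorem TB_rg259 : ROK [.q ⟨-22, -26, 48, 0⟩ ⟨-74, 26, 48, 0⟩, .q ⟨21, 27, -48, 0⟩ ⟨-75, 27, 48, 0⟩, .q ⟨74, -26, -48, 0⟩ ⟨6453, -4453, 0, -2000⟩, .q ⟨75, -27, -48, 0⟩ ⟨6453, -4453, 0, -2000⟩, .q ⟨74, -26, -48, 0⟩ ⟨-352, 19, -2657, 2990⟩, .q ⟨75, -27, -48, 0⟩ ⟨-352, 19, -2657, 2990⟩, .q ⟨74, -26, -48, 0⟩ ⟨1866, -85, 1794, -3575⟩, .q ⟨75, -27, -48, 0⟩ ⟨1866, -85, 1794, -3575⟩] := by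
  refine rok_bs (s := -1) (nlo := 26) (nhi := 27) (q := 48) (by decide) (by decide) (by decide) (by decide) (k := 1) (by decide) (Q := [(0, 2000, 4453), (-2657, -2990, -19), (1794, 3575, 85)])
    (P := [⟨-798720, -48, 0⟩, ⟨829440, 48, 0⟩, ⟨136796160, 0, 2000⟩, ⟨-583680, -2657, -2990⟩, ⟨2611200, 1794, 3575⟩]) rfl rfl
    (List.mem_of_getElem? (i := 259) rfl) TB_fr TB_cov ?_
  · intro X Y h
    simp only [List.forall_mem_cons, List.not_mem_nil, false_imp_iff, implies_true, and_true] at h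
    push_cast at h ⊢
    obtain ⟨h0, h1, h2, h3, h4⟩ := h
    refine ⟨⟨?_, ?_⟩, ?_, ?_⟩ <;> linarith

theorem TB_rg260 : ROK [.q ⟨-221, -259, 480, 0⟩ ⟨-739, 259, 480, 0⟩, .q ⟨211, 269, -480, 0⟩ ⟨-749, 269, 480, 0⟩, .q ⟨739, -259, -480, 0⟩ ⟨3042, 1122, -167, -3997⟩, .q ⟨749, -269, -480, 0⟩ ⟨3042, 1122, -167, -3997⟩, .q ⟨739, -259, -480, 0⟩ ⟨-557, -199, -2425, 3181⟩, .q ⟨749, -269, -480, 0⟩ ⟨-557, -199, -2425, 3181⟩] := by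
  refine rok_bs (s := -1) (nlo := 259) (nhi := 269) (q := 480) (by decide) (by decide) (by decide) (by decide) (k := 1) (by decide) (Q := [(-167, 3997, -1122), (-2425, -3181, 199)])
    (P := [⟨-7956480, -480, 0⟩, ⟨8263680, 480, 0⟩, ⟨-34467840, -167, 3997⟩, ⟨6113280, -2425, -3181⟩]) rfl rfl
    (List.mem_of_getElem? (i := 260) rfl) TB_fr TB_cov ?_
  · intro X Y h
    simp only [List.forall_mem_cons, List.not_mem_nil, false_imp_iff, implies_true, and_true] at h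
    push_cast at h ⊢
    obtain ⟨h0, h1, h2, h3⟩ := h
    refine ⟨⟨?_, ?_⟩, ?_, ?_⟩ <;> linarith

theorem TB_rg261 : ROK [.q ⟨-10, -10, 20, 0⟩ ⟨-30, 10, 20, 0⟩, .q ⟨7, 13, -20, 0⟩ ⟨-33, 13, 20, 0⟩, .q ⟨30, -10, -20, 0⟩ ⟨2412, 2391, -907, -3896⟩, .q ⟨33, -13, -20, 0⟩ ⟨2412, 2391, -907, -3896⟩, .q ⟨30, -10, -20, 0⟩ ⟨-513, -1816, -1413, 3742⟩, .q ⟨33, -13, -20, 0⟩ ⟨-513, -1816, -1413, 3742⟩] := by
  refine rok_bs (s := -1) (nlo := 10) (nhi := 13) (q := 20) (by decide) (by decide) (by decide) (by decide) (k := 1) (by decide) (Q := [(-907, 3896, -2391), (-1413, -3742, 1816)])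
    (P := [⟨-307200, -20, 0⟩, ⟨399360, 20, 0⟩, ⟨-73451520, -907, 3896⟩, ⟨55787520, -1413, -3742⟩]) rfl rfl
    (List.mem_of_getElem? (i := 261) rfl) TB_fr TB_cov ?_
  · intro X Y h
    simp only [List.forall_mem_cons, List.not_mem_nil, false_imp_iff, implies_true, and_true] at h
    push_cast at h ⊢
    obtain ⟨h0, h1, h2, h3⟩ := h
    refine ⟨⟨?_, ?_⟩, ?_, ?_⟩ <;> linarith

theorem TB_rg262 : ROK [.q ⟨-39, -41, 80, 0⟩ ⟨-121, 41, 80, 0⟩, .q ⟨35, 45, -80, 0⟩ ⟨-125, 45, 80, 0⟩, .q ⟨121, -41, -80, 0⟩ ⟨371, 129, 0, -500⟩, .q ⟨125, -45, -80, 0⟩ ⟨371, 129, 0, -500⟩, .q ⟨121, -41, -80, 0⟩ ⟨-1072, -703, -1798, 3573⟩, .q ⟨125, -45, -80, 0⟩ ⟨-1072, -703, -1798, 3573⟩] := by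
  refine rok_bs (s := -1) (nlo := 41) (nhi := 45) (q := 80) (by decide) (by decide) (by decide) (by decide) (k := 1) (by decide) (Q := [(0, 500, -129), (-1798, -3573, 703)])
    (P := [⟨-1259520, -80, 0⟩, ⟨1382400, 80, 0⟩, ⟨-3962880, 0, 500⟩, ⟨21596160, -1798, -3573⟩]) rfl rfl
    (List.mem_of_getElem? (i := 262) rfl) TB_fr TB_cov ?_
  · intro X Y h
    simp only [List.forall_mem_cons, List.not_mem_nil, false_imp_iff, implies_true, and_true] at h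
    push_cast at h ⊢
    obtain ⟨h0, h1, h2, h3⟩ := h
    refine ⟨⟨?_, ?_⟩, ?_, ?_⟩ <;> linarith

theorem TB_rg263 : ROK [.q ⟨-10, -10, 20, 0⟩ ⟨-30, 10, 20, 0⟩, .q ⟨7, 13, -20, 0⟩ ⟨-33, 13, 20, 0⟩, .q ⟨30, -10, -20, 0⟩ ⟨3197, 2022, -1519, -3700⟩, .q ⟨33, -13, -20, 0⟩ ⟨3197, 2022, -1519, -3700⟩, .q ⟨30, -10, -20, 0⟩ ⟨-1935, -3284, 1519, 3700⟩, .q ⟨33, -13, -20, 0⟩ ⟨-1935, -3284, 1519, 3700⟩, .q ⟨30, -10, -20, 0⟩ ⟨1238, 1405, -1825, -818⟩, .q ⟨33, -13, -20, 0⟩ ⟨1238, 1405, -1825, -818⟩] := by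
  refine rok_bs (s := -1) (nlo := 10) (nhi := 13) (q := 20) (by decide) (by decide) (by decide) (by decide) (k := 1) (by decide) (Q := [(-1519, 3700, -2022), (1519, -3700, 3284), (-1825, 818, -1405)])
    (P := [⟨-307200, -20, 0⟩, ⟨399360, 20, 0⟩, ⟨-62115840, -1519, 3700⟩, ⟨100884480, 1519, -3700⟩, ⟨-43161600, -1825, 818⟩]) rfl rfl
    (List.mem_of_getElem? (i := 263) rfl) TB_fr TB_cov ?_
  · intro X Y h
    simp only [List.forall_mem_cons, List.not_mem_nil, false_imp_iff, implies_true, and_true] at h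
    push_cast at h ⊢
    obtain ⟨h0, h1, h2, h3, h4⟩ := h
    refine ⟨⟨?_, ?_⟩, ?_, ?_⟩ <;> linarith

end Pool.Agent.TET
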