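import Pool.Agent.Helper38_TET.TB_C

/-!
# MP_c7c9bf_co: certificates, family TB
-/

set_option autoImplicit false
set_option maxRecDepth 100000

namespace Pool.Agent.TET

theorem TB_rg264 : ROK [.q ⟨-10, -10, 20, 0⟩ ⟨-30, 10, 20, 0⟩, .q ⟨7, 13, -20, 0⟩ ⟨-33, 13, 20, 0⟩, .q ⟨30, -10, -20, 0⟩ ⟨1138, -883, 2698, -2953⟩, .q ⟨33, -13, -20, 0⟩ ⟨1138, -883, 2698, -2953⟩, .q ⟨30, -10, -20, 0⟩ ⟨-222, -40, -1277, 1539⟩, .q ⟨33, -13, -20, 0⟩ ⟨-222, -40, -1277, 1539⟩, .q ⟨30, -10, -20, 0⟩ ⟨2517, 2717, -3690, -1544⟩, .q ⟨33, -13, -20, 0⟩ ⟨2517, 2717, -3690, -1544⟩] := by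
  refine rok_bs (s := -1) (nlo := 10) (nhi := 13) (q := 20) (by decide) (by decide) (by decide) (by decide) (k := 1) (by decide) (Q := [(2698, 2953, 883), (-1277, -1539, 40), (-3690, 1544, -2717)])
    (P := [⟨-307200, -20, 0⟩, ⟨399360, 20, 0⟩, ⟨27125760, 2698, 2953⟩, ⟨1228800, -1277, -1539⟩, ⟨-83466240, -3690, 1544⟩]) rfl rfl
    (List.mem_of_getElem? (i := 264) rfl) TB_fr TB_cov ?_
  · intro X Y h
    simp only [List.forall_mem_cons, List.not_mem_nil, false_imp_iff, implies_true, and_true] at h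
    push_cast at h ⊢
    obtain ⟨h0, h1, h2, h3, h4⟩ := h
    refine ⟨⟨?_, ?_⟩, ?_, ?_⟩ <;> linarith

theorem TB_rg265 : ROK [.q ⟨-226, -254, 480, 0⟩ ⟨-734, 254, 480, 0⟩, .q ⟨215, 265, -480, 0⟩ ⟨-745, 265, 480, 0⟩, .q ⟨734, -254, -480, 0⟩ ⟨3311, -2311, 0, -1000⟩, .q ⟨745, -265, -480, 0⟩ ⟨3311, -2311, 0, -1000⟩, .q ⟨734, -254, -480, 0⟩ ⟨9296, -14619, 1704, 3619⟩, .q ⟨745, -265, -480, 0⟩ ⟨9296, -14619, 1704, 3619⟩, .q ⟨734, -254, -480, 0⟩ ⟨3485, 2065, -2227, -3323⟩, .q ⟨745, -265, -480, 0⟩ ⟨3485, 2065, -2227, -3323⟩, .q ⟨734, -254, -480, 0⟩ ⟨-87, 310, -2938, 2715⟩, .q ⟨745, -265, -480, 0⟩ ⟨-87, 310, -2938, 2715⟩] := by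
  refine rok_bs (s := -1) (nlo := 254) (nhi := 265) (q := 480) (by decide) (by decide) (by decide) (by decide) (k := 1) (by decide) (Q := [(0, 1000, 2311), (1704, -3619, 14619), (-2227, 3323, -2065), (-2938, -2715, -310)])
    (P := [⟨-7802880, -480, 0⟩, ⟨8140800, 480, 0⟩, ⟨70993920, 0, 1000⟩, ⟨449095680, 1704, -3619⟩, ⟨-63436800, -2227, 3323⟩, ⟨-9523200, -2938, -2715⟩]) rfl rfl
    (List.mem_of_getElem? (i := 265) rfl) TB_fr TB_cov ?_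
  · intro X Y h
    simp only [List.forall_mem_cons, List.not_mem_nil, false_imp_iff, implies_true, and_true] at h
    push_cast at h ⊢
    obtain ⟨h0, h1, h2, h3, h4, h5⟩ := h
    refine ⟨⟨?_, ?_⟩, ?_, ?_⟩ <;> linarith

theorem TB_rg266 : ROK [.q ⟨-13, -67, 80, 0⟩ ⟨-147, 67, 80, 0⟩, .q ⟨10, 70, -80, 0⟩ ⟨-150, 70, 80, 0⟩, .q ⟨147, -67, -80, 0⟩ ⟨2032, 165, -208, -1989⟩, .q ⟨150, -70, -80, 0⟩ ⟨2032, 165, -208, -1989⟩, .q ⟨147, -67, -80, 0⟩ ⟨-2619, 2152, -2585, 3052⟩, .q ⟨150, -70, -80, 0⟩ ⟨-2619, 2152, -2585, 3052⟩, .q ⟨147, -67, -80, 0⟩ ⟨3015, 2614, -3096, -2533⟩, .q ⟨150, -70, -80, 0⟩ ⟨3015, 2614, -3096, -2533⟩] := by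
  refine rok_bs (s := -1) (nlo := 67) (nhi := 70) (q := 80) (by decide) (by decide) (by decide) (by decide) (k := 1) (by decide) (Q := [(-208, 1989, -165), (-2585, -3052, -2152), (-3096, 2533, -2614)])
    (P := [⟨-2058240, -80, 0⟩, ⟨2150400, 80, 0⟩, ⟨-5068800, -208, 1989⟩, ⟨-66109440, -2585, -3052⟩, ⟨-80302080, -3096, 2533⟩]) rfl rfl
    (List.mem_of_getElem? (i := 266) rfl) TB_fr TB_cov ?_
  · intro X Y h
    simp only [List.forall_mem_cons, List.not_mem_nil, false_imp_iff, implies_true, and_true] at h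
    push_cast at h ⊢
    obtain ⟨h0, h1, h2, h3, h4⟩ := h
    refine ⟨⟨?_, ?_⟩, ?_, ?_⟩ <;> linarith

theorem TB_rg267 : ROK [.q ⟨-221, -259, 480, 0⟩ ⟨-739, 259, 480, 0⟩, .q ⟨212, 268, -480, 0⟩ ⟨-748, 268, 480, 0⟩, .q ⟨739, -259, -480, 0⟩ ⟨1042, -705, 2655, -2992⟩, .q ⟨748, -268, -480, 0⟩ ⟨1042, -705, 2655, -2992⟩, .q ⟨739, -259, -480, 0⟩ ⟨-353, 16, -2655, 2992⟩, .q ⟨748, -268, -480, 0⟩ ⟨-353, 16, -2655, 2992⟩, .q ⟨739, -259, -480, 0⟩ ⟨-2303, -2208, 549, 3962⟩, .q ⟨748, -268, -480, 0⟩ ⟨-2303, -2208, 549, 3962⟩] := by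
  refine rok_bs (s := -1) (nlo := 259) (nhi := 268) (q := 480) (by decide) (by decide) (by decide) (by decide) (k := 1) (by decide) (Q := [(2655, 2992, 705), (-2655, -2992, -16), (549, -3962, 2208)])
    (P := [⟨-7956480, -480, 0⟩, ⟨8232960, 480, 0⟩, ⟨21657600, 2655, 2992⟩, ⟨-491520, -2655, -2992⟩, ⟨67829760, 549, -3962⟩]) rfl rfl
    (List.mem_of_getElem? (i := 267) rfl) TB_fr TB_cov ?_
  · intro X Y h
    simp only [List.forall_mem_cons, List.not_mem_nil, false_imp_iff, implies_true, and_true] at h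
    push_cast at h ⊢
    obtain ⟨h0, h1, h2, h3, h4⟩ := h
    refine ⟨⟨?_, ?_⟩, ?_, ?_⟩ <;> linarith

theorem TB_rg268 : ROK [.q ⟨-22, -26, 48, 0⟩ ⟨-74, 26, 48, 0⟩, .q ⟨21, 27, -48, 0⟩ ⟨-75, 27, 48, 0⟩, .q ⟨74, -26, -48, 0⟩ ⟨371, 129, 0, -500⟩, .q ⟨75, -27, -48, 0⟩ ⟨371, 129, 0, -500⟩, .q ⟨74, -26, -48, 0⟩ ⟨-463, -101, -2532, 3096⟩, .q ⟨75, -27, -48, 0⟩ ⟨-463, -101, -2532, 3096⟩] := by
  refine rok_bs (s := -1) (nlo := 26) (nhi := 27) (q := 48) (by decide) (by decide) (by decide) (by decide) (k := 1) (by decide) (Q := [(0, 500, -129), (-2532, -3096, 101)])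
    (P := [⟨-798720, -48, 0⟩, ⟨829440, 48, 0⟩, ⟨-3962880, 0, 500⟩, ⟨3102720, -2532, -3096⟩]) rfl rfl
    (List.mem_of_getElem? (i := 268) rfl) TB_fr TB_cov ?_
  · intro X Y h
    simp only [List.forall_mem_cons, List.not_mem_nil, false_imp_iff, implies_true, and_true] at h
    push_cast at h ⊢
    obtain ⟨h0, h1, h2, h3⟩ := h
    refine ⟨⟨?_, ?_⟩, ?_, ?_⟩ <;> linarith

theorem TB_rg269 : ROK [.q ⟨-79, -401, 480, 0⟩ ⟨-881, 401, 480, 0⟩, .q ⟨69, 411, -480, 0⟩ ⟨-891, 411, 480, 0⟩, .q ⟨881, -401, -480, 0⟩ ⟨2011, -11, 0, -2000⟩, .q ⟨891, -411, -480, 0⟩ ⟨2011, -11, 0, -2000⟩, .q ⟨881, -401, -480, 0⟩ ⟨1481, -2281, 0, 800⟩, .q ⟨891, -411, -480, 0⟩ ⟨1481, -2281, 0, 800⟩, .q ⟨881, -401, -480, 0⟩ ⟨4063, 674, -823, -3914⟩, .q ⟨891, -411, -480, 0⟩ ⟨4063, 674, -823, -3914⟩, .q ⟨881, -401, -480, 0⟩ ⟨-3907, 194, -277, 3990⟩, .q ⟨891,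 -411, -480, 0⟩ ⟨-3907, 194, -277, 3990⟩] := by
  refine rok_bs (s := -1) (nlo := 401) (nhi := 411) (q := 480) (by decide) (by decide) (by decide) (by decide) (k := 1) (by decide) (Q := [(0, 2000, 11), (0, -800, 2281), (-823, 3914, -674), (-277, -3990, -194)])
    (P := [⟨-12318720, -480, 0⟩, ⟨12625920, 480, 0⟩, ⟨337920, 0, 2000⟩, ⟨70072320, 0, -800⟩, ⟨-20705280, -823, 3914⟩, ⟨-5959680, -277, -3990⟩]) rfl rfl
    (List.mem_of_getElem? (i := 269) rfl) TB_fr TB_cov ?_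
  · intro X Y h
    simp only [List.forall_mem_cons, List.not_mem_nil, false_imp_iff, implies_true, and_true] at h
    push_cast at h ⊢
    obtain ⟨h0, h1, h2, h3, h4, h5⟩ := h
    refine ⟨⟨?_, ?_⟩, ?_, ?_⟩ <;> linarith

theorem TB_rg270 : ROK [.q ⟨-5, -35, 40, 0⟩ ⟨-75, 35, 40, 0⟩, .q ⟨2, 38, -40, 0⟩ ⟨-78, 38, 40, 0⟩, .q ⟨75, -35, -40, 0⟩ ⟨14199, -10199, 0, -4000⟩, .q ⟨78, -38, -40, 0⟩ ⟨14199, -10199, 0, -4000⟩, .q ⟨75, -35, -40, 0⟩ ⟨-3595, 747, -1020, 3868⟩, .q ⟨78, -38, -40, 0⟩ ⟨-3595, 747, -1020, 3868⟩, .q ⟨75, -35, -40, 0⟩ ⟨4064, 259, -337, -3986⟩, .q ⟨78, -38, -40, 0⟩ ⟨4064, 259, -337, -3986⟩] := by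
  refine rok_bs (s := -1) (nlo := 35) (nhi := 38) (q := 40) (by decide) (by decide) (by decide) (by decide) (k := 1) (by decide) (Q := [(0, 4000, 10199), (-1020, -3868, -747), (-337, 3986, -259)])
    (P := [⟨-1075200, -40, 0⟩, ⟨1167360, 40, 0⟩, ⟨313313280, 0, 4000⟩, ⟨-22947840, -1020, -3868⟩, ⟨-7956480, -337, 3986⟩]) rfl rfl
    (List.mem_of_getElem? (i := 270) rfl) TB_fr TB_cov ?_
  · intro X Y h
    simp only [List.forall_mem_cons, List.not_mem_nil, false_imp_iff, implies_true, and_true] at h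
    push_cast at h ⊢
    obtain ⟨h0, h1, h2, h3, h4⟩ := h
    refine ⟨⟨?_, ?_⟩, ?_, ?_⟩ <;> linarith

theorem TB_rg271 : ROK [.q ⟨-22, -18, 40, 0⟩ ⟨-58, 18, 40, 0⟩, .q ⟨19, 21, -40, 0⟩ ⟨-61, 21, 40, 0⟩, .q ⟨58, -18, -40, 0⟩ ⟨13402, -8000, -1863, -3539⟩, .q ⟨61, -21, -40, 0⟩ ⟨13402, -8000, -1863, -3539⟩, .q ⟨58, -18, -40, 0⟩ ⟨366, -3025, -1167, 3826⟩, .q ⟨61, -21, -40, 0⟩ ⟨366, -3025, -1167, 3826⟩, .q ⟨58, -18, -40, 0⟩ ⟨1129, 3915, -1241, -3803⟩, .q ⟨61, -21, -40, 0⟩ ⟨1129, 3915, -1241, -3803⟩] := by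
  refine rok_bs (s := -1) (nlo := 18) (nhi := 21) (q := 40) (by decide) (by decide) (by decide) (by decide) (k := 1) (by decide) (Q := [(-1863, 3539, 8000), (-1167, -3826, 3025), (-1241, 3803, -3915)])
    (P := [⟨-552960, -40, 0⟩, ⟨645120, 40, 0⟩, ⟨245760000, -1863, 3539⟩, ⟨92928000, -1167, -3826⟩, ⟨-120268800, -1241, 3803⟩]) rfl rfl
    (List.mem_of_getElem? (i := 271) rfl) TB_fr TB_cov ?_
  · intro X Y h
    simp only [List.forall_mem_cons, List.not_mem_nil, false_imp_iff, implies_true, and_true] at h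
    push_cast at h ⊢
    obtain ⟨h0, h1, h2, h3, h4⟩ := h
    refine ⟨⟨?_, ?_⟩, ?_, ?_⟩ <;> linarith

theorem TB_rg272 : ROK [.q ⟨-535, -425, 960, 0⟩ ⟨-1385, 425, 960, 0⟩, .q ⟨526, 434, -960, 0⟩ ⟨-1394, 434, 960, 0⟩, .q ⟨1385, -425, -960, 0⟩ ⟨10783, -8697, 1586, -3672⟩, .q ⟨1394, -434, -960, 0⟩ ⟨10783, -8697, 1586, -3672⟩, .q ⟨1385, -425, -960, 0⟩ ⟨567, -2653, -1586, 3672⟩, .q ⟨1394, -434, -960, 0⟩ ⟨567, -2653, -1586, 3672⟩, .q ⟨1385, -425, -960, 0⟩ ⟨-1707, 227, 3470, -1990⟩, .q ⟨1394, -434, -960, 0⟩ ⟨-1707, 227, 3470, -1990⟩] := by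
  refine rok_bs (s := -1) (nlo := 425) (nhi := 434) (q := 960) (by decide) (by decide) (by decide) (by decide) (k := 1) (by decide) (Q := [(1586, 3672, 8697), (-1586, -3672, 2653), (3470, 1990, -227)])
    (P := [⟨-13056000, -960, 0⟩, ⟨13332480, 960, 0⟩, ⟨267171840, 1586, 3672⟩, ⟨81500160, -1586, -3672⟩, ⟨-6973440, 3470, 1990⟩]) rfl rfl
    (List.mem_of_getElem? (i := 272) rfl) TB_fr TB_cov ?_
  · intro X Y h
    simp only [List.forall_mem_cons, List.not_mem_nil, false_imp_iff, implies_true, and_true] at h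
    push_cast at h ⊢
    obtain ⟨h0, h1, h2, h3, h4⟩ := h
    refine ⟨⟨?_, ?_⟩, ?_, ?_⟩ <;> linarith

theorem TB_rg273 : ROK [.q ⟨-10, -10, 20, 0⟩ ⟨-30, 10, 20, 0⟩, .q ⟨7, 13, -20, 0⟩ ⟨-33, 13, 20, 0⟩, .q ⟨30, -10, -20, 0⟩ ⟨4838, -3235, -305, -1298⟩, .q ⟨33, -13, -20, 0⟩ ⟨4838, -3235, -305, -1298⟩, .q ⟨30, -10, -20, 0⟩ ⟨-927, -554, -1989, 3470⟩, .q ⟨33, -13, -20, 0⟩ ⟨-927, -554, -1989, 3470⟩, .q ⟨30, -10, -20, 0⟩ ⟨3111, 1636, -835, -3912⟩, .q ⟨33, -13, -20, 0⟩ ⟨3111, 1636, -835, -3912⟩] := by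
  refine rok_bs (s := -1) (nlo := 10) (nhi := 13) (q := 20) (by decide) (by decide) (by decide) (by decide) (k := 1) (by decide) (Q := [(-305, 1298, 3235), (-1989, -3470, 554), (-835, 3912, -1636)])
    (P := [⟨-307200, -20, 0⟩, ⟨399360, 20, 0⟩, ⟨99379200, -305, 1298⟩, ⟨17018880, -1989, -3470⟩, ⟨-50257920, -835, 3912⟩]) rfl rfl
    (List.mem_of_getElem? (i := 273) rfl) TB_fr TB_cov ?_
  · intro X Y h
    simp only [List.forall_mem_cons, List.not_mem_nil, false_imp_iff, implies_true, and_true] at h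
    push_cast at h ⊢
    obtain ⟨h0, h1, h2, h3, h4⟩ := h
    refine ⟨⟨?_, ?_⟩, ?_, ?_⟩ <;> linarith

theorem TB_rg274 : ROK [.q ⟨-19, -21, 40, 0⟩ ⟨-61, 21, 40, 0⟩, .q ⟨16, 24, -40, 0⟩ ⟨-64, 24, 40, 0⟩, .q ⟨61, -21, -40, 0⟩ ⟨257, 243, 0, -500⟩, .q ⟨64, -24, -40, 0⟩ ⟨257, 243, 0, -500⟩, .q ⟨61, -21, -40, 0⟩ ⟨238, -724, -2575, 3061⟩, .q ⟨64, -24, -40, 0⟩ ⟨238, -724, -2575, 3061⟩, .q ⟨61, -21, -40, 0⟩ ⟨2664, 2723, -1830, -3557⟩, .q ⟨64, -24, -40, 0⟩ ⟨2664, 2723, -1830, -3557⟩] := by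
  refine rok_bs (s := -1) (nlo := 21) (nhi := 24) (q := 40) (by decide) (by decide) (by decide) (by decide) (k := 1) (by decide) (Q := [(0, 500, -243), (-2575, -3061, 724), (-1830, 3557, -2723)])
    (P := [⟨-645120, -40, 0⟩, ⟨737280, 40, 0⟩, ⟨-7464960, 0, 500⟩, ⟨22241280, -2575, -3061⟩, ⟨-83650560, -1830, 3557⟩]) rfl rfl
    (List.mem_of_getElem? (i := 274) rfl) TB_fr TB_cov ?_
  · intro X Y h
    simp only [List.forall_mem_cons, List.not_mem_nil, false_imp_iff, implies_true, and_true] at h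
    push_cast at h ⊢
    obtain ⟨h0, h1, h2, h3, h4⟩ := h
    refine ⟨⟨?_, ?_⟩, ?_, ?_⟩ <;> linarith

theorem TB_rg275 : ROK [.q ⟨-7, -33, 40, 0⟩ ⟨-73, 33, 40, 0⟩, .q ⟨4, 36, -40, 0⟩ ⟨-76, 36, 40, 0⟩, .q ⟨73, -33, -40, 0⟩ ⟨803, -3, 0, -800⟩, .q ⟨76, -36, -40, 0⟩ ⟨803, -3, 0, -800⟩, .q ⟨73, -33, -40, 0⟩ ⟨-967, -33, 0, 1000⟩, .q ⟨76, -36, -40, 0⟩ ⟨-967, -33, 0, 1000⟩, .q ⟨73, -33, -40, 0⟩ ⟨-2404, 2334, -2793, 2863⟩, .q ⟨76, -36, -40, 0⟩ ⟨-2404, 2334, -2793, 2863⟩] := by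
  refine rok_bs (s := -1) (nlo := 33) (nhi := 36) (q := 40) (by decide) (by decide) (by decide) (by decide) (k := 1) (by decide) (Q := [(0, 800, 3), (0, -1000, 33), (-2793, -2863, -2334)])
    (P := [⟨-1013760, -40, 0⟩, ⟨1105920, 40, 0⟩, ⟨92160, 0, 800⟩, ⟨1013760, 0, -1000⟩, ⟨-71700480, -2793, -2863⟩]) rfl rfl
    (List.mem_of_getElem? (i := 275) rfl) TB_fr TB_cov ?_
  · intro X Y h
    simp only [List.forall_mem_cons, List.not_mem_nil, false_imp_iff, implies_true, and_true] at h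
    push_cast at h ⊢
    obtain ⟨h0, h1, h2, h3, h4⟩ := h
    refine ⟨⟨?_, ?_⟩, ?_, ?_⟩ <;> linarith

theorem TB_rg276 : ROK [.q ⟨-11, -9, 20, 0⟩ ⟨-29, 9, 20, 0⟩, .q ⟨8, 12, -20, 0⟩ ⟨-32, 12, 20, 0⟩, .q ⟨29, -9, -20, 0⟩ ⟨11133, -7133, 0, -4000⟩, .q ⟨32, -12, -20, 0⟩ ⟨11133, -7133, 0, -4000⟩, .q ⟨29, -9, -20, 0⟩ ⟨9937, -13937, 0, 4000⟩, .q ⟨32, -12, -20, 0⟩ ⟨9937, -13937, 0, 4000⟩, .q ⟨29, -9, -20, 0⟩ ⟨1294, 422, 1837, -3553⟩, .q ⟨32, -12, -20, 0⟩ ⟨1294, 422, 1837, -3553⟩, .q ⟨29, -9, -20, 0⟩ ⟨364, 783, -3343, 2196⟩, .q ⟨32, -12, -20, 0⟩ ⟨364, 783, -3343, 2196⟩] := by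
  refine rok_bs (s := -1) (nlo := 9) (nhi := 12) (q := 20) (by decide) (by decide) (by decide) (by decide) (k := 1) (by decide) (Q := [(0, 4000, 7133), (0, -4000, 13937), (1837, 3553, -422), (-3343, -2196, -783)])
    (P := [⟨-276480, -20, 0⟩, ⟨368640, 20, 0⟩, ⟨219125760, 0, 4000⟩, ⟨428144640, 0, -4000⟩, ⟨-12963840, 1837, 3553⟩, ⟨-24053760, -3343, -2196⟩]) rfl rfl
    (List.mem_of_getElem? (i := 276) rfl) TB_fr TB_cov ?_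
  · intro X Y h
    simp only [List.forall_mem_cons, List.not_mem_nil, false_imp_iff, implies_true, and_true] at h
    push_cast at h ⊢
    obtain ⟨h0, h1, h2, h3, h4, h5⟩ := h
    refine ⟨⟨?_, ?_⟩, ?_, ?_⟩ <;> linarith

theorem TB_rg277 : ROK [.q ⟨-19, -21, 40, 0⟩ ⟨-61, 21, 40, 0⟩, .q ⟨16, 24, -40, 0⟩ ⟨-64, 24, 40, 0⟩, .q ⟨61, -21, -40, 0⟩ ⟨3279, 2330, -2438, -3171⟩, .q ⟨64, -24, -40, 0⟩ ⟨3279, 2330, -2438, -3171⟩, .q ⟨61, -21, -40, 0⟩ ⟨2365, -2551, -608, 794⟩, .q ⟨64, -24, -40, 0⟩ ⟨2365, -2551, -608, 794⟩, .q ⟨61, -21, -40, 0⟩ ⟨762, 1195, -3632, 1675⟩, .q ⟨64, -24, -40, 0⟩ ⟨762, 1195, -3632, 1675⟩] := by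
  refine rok_bs (s := -1) (nlo := 21) (nhi := 24) (q := 40) (by decide) (by decide) (by decide) (by decide) (k := 1) (by decide) (Q := [(-2438, 3171, -2330), (-608, -794, 2551), (-3632, -1675, -1195)])
    (P := [⟨-645120, -40, 0⟩, ⟨737280, 40, 0⟩, ⟨-71577600, -2438, 3171⟩, ⟨78366720, -608, -794⟩, ⟨-36710400, -3632, -1675⟩]) rfl rfl
    (List.mem_of_getElem? (i := 277) rfl) TB_fr TB_cov ?_
  · intro X Y h
    simp only [List.forall_mem_cons, List.not_mem_nil, false_imp_iff, implies_true, and_true] at h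
    push_cast at h ⊢
    obtain ⟨h0, h1, h2, h3, h4⟩ := h
    refine ⟨⟨?_, ?_⟩, ?_, ?_⟩ <;> linarith

theorem TB_rg278 : ROK [.q ⟨-1, -39, 40, 0⟩ ⟨-79, 39, 40, 0⟩, .q ⟨-1, 41, -40, 0⟩ ⟨-81, 41, 40, 0⟩, .q ⟨79, -39, -40, 0⟩ ⟨532, -116, 215, -631⟩, .q ⟨81, -41, -40, 0⟩ ⟨532, -116, 215, -631⟩, .q ⟨79, -39, -40, 0⟩ ⟨377, -1625, -645, 1893⟩, .q ⟨81, -41, -40, 0⟩ ⟨377, -1625, -645, 1893⟩, .q ⟨79, -39, -40, 0⟩ ⟨3298, 1457, -846, -3909⟩, .q ⟨81, -41, -40, 0⟩ ⟨3298, 1457, -846, -3909⟩] := by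
  refine rok_bs (s := -1) (nlo := 39) (nhi := 41) (q := 40) (by decide) (by decide) (by decide) (by decide) (k := 1) (by decide) (Q := [(215, 631, 116), (-645, -1893, 1625), (-846, 3909, -1457)])
    (P := [⟨-1198080, -40, 0⟩, ⟨1259520, 40, 0⟩, ⟨3563520, 215, 631⟩, ⟨49920000, -645, -1893⟩, ⟨-44759040, -846, 3909⟩]) rfl rfl
    (List.mem_of_getElem? (i := 278) rfl) TB_fr TB_cov ?_
  · intro X Y h
    simp only [List.forall_mem_cons, List.not_mem_nil, false_imp_iff, implies_true, and_true] at h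
    push_cast at h ⊢
    obtain ⟨h0, h1, h2, h3, h4⟩ := h
    refine ⟨⟨?_, ?_⟩, ?_, ?_⟩ <;> linarith

theorem TB_rg279 : ROK [.q ⟨-2, -38, 40, 0⟩ ⟨-78, 38, 40, 0⟩, .q ⟨-1, 41, -40, 0⟩ ⟨-81, 41, 40, 0⟩, .q ⟨78, -38, -40, 0⟩ ⟨3290, -182, 809, -3917⟩, .q ⟨81, -41, -40, 0⟩ ⟨3290, -182, 809, -3917⟩, .q ⟨78, -38, -40, 0⟩ ⟨779, -3887, -809, 3917⟩, .q ⟨81, -41, -40, 0⟩ ⟨779, -3887, -809, 3917⟩, .q ⟨78, -38, -40, 0⟩ ⟨3300, 1451, -840, -3911⟩, .q ⟨81, -41, -40, 0⟩ ⟨3300, 1451, -840, -3911⟩] := by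
  refine rok_bs (s := -1) (nlo := 38) (nhi := 41) (q := 40) (by decide) (by decide) (by decide) (by decide) (k := 1) (by decide) (Q := [(809, 3917, 182), (-809, -3917, 3887), (-840, 3911, -1451)])
    (P := [⟨-1167360, -40, 0⟩, ⟨1259520, 40, 0⟩, ⟨5591040, 809, 3917⟩, ⟨119408640, -809, -3917⟩, ⟨-44574720, -840, 3911⟩]) rfl rfl
    (List.mem_of_getElem? (i := 279) rfl) TB_fr TB_cov ?_
  · intro X Y h
    simp only [List.forall_mem_cons, List.not_mem_nil, false_imp_iff, implies_true, and_true] at h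
    push_cast at h ⊢
    obtain ⟨h0, h1, h2, h3, h4⟩ := h
    refine ⟨⟨?_, ?_⟩, ?_, ?_⟩ <;> linarith

theorem TB_rg280 : ROK [.q ⟨-38, -42, 80, 0⟩ ⟨-122, 42, 80, 0⟩, .q ⟨35, 45, -80, 0⟩ ⟨-125, 45, 80, 0⟩, .q ⟨122, -42, -80, 0⟩ ⟨5496, -2675, -1308, -1513⟩, .q ⟨125, -45, -80, 0⟩ ⟨5496, -2675, -1308, -1513⟩, .q ⟨122, -42, -80, 0⟩ ⟨-2111, -1910, 21, 4000⟩, .q ⟨125, -45, -80, 0⟩ ⟨-2111, -1910, 21, 4000⟩, .q ⟨122, -42, -80, 0⟩ ⟨2626, 2783, -3532, -1877⟩, .q ⟨125, -45, -80, 0⟩ ⟨2626, 2783, -3532, -1877⟩, .q ⟨122, -42, -80, 0⟩ ⟨914, 1291, -3707, 1502⟩, .q ⟨125, -45, -80, 0⟩ ⟨914, 1291, -3707, 1502⟩] := by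
  refine rok_bs (s := -1) (nlo := 42) (nhi := 45) (q := 80) (by decide) (by decide) (by decide) (by decide) (k := 1) (by decide) (Q := [(-1308, 1513, 2675), (21, -4000, 1910), (-3532, 1877, -2783), (-3707, -1502, -1291)])
    (P := [⟨-1290240, -80, 0⟩, ⟨1382400, 80, 0⟩, ⟨82176000, -1308, 1513⟩, ⟨58675200, 21, -4000⟩, ⟨-85493760, -3532, 1877⟩, ⟨-39659520, -3707, -1502⟩]) rfl rfl
    (List.mem_of_getElem? (i := 280) rfl) TB_fr TB_cov ?_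
  · intro X Y h
    simp only [List.forall_mem_cons, List.not_mem_nil, false_imp_iff, implies_true, and_true] at h
    push_cast at h ⊢
    obtain ⟨h0, h1, h2, h3, h4, h5⟩ := h
    refine ⟨⟨?_, ?_⟩, ?_, ?_⟩ <;> linarith

theorem TB_rg281 : ROK [.q ⟨-14, -66, 80, 0⟩ ⟨-146, 66, 80, 0⟩, .q ⟨11, 69, -80, 0⟩ ⟨-149, 69, 80, 0⟩, .q ⟨146, -66, -80, 0⟩ ⟨2009, -9, 0, -2000⟩, .q ⟨149, -69, -80, 0⟩ ⟨2009, -9, 0, -2000⟩, .q ⟨146, -66, -80, 0⟩ ⟨-3503, 1108, -1365, 3760⟩, .q ⟨149, -69, -80, 0⟩ ⟨-3503, 1108, -1365, 3760⟩, .q ⟨146, -66, -80, 0⟩ ⟨3114, 2527, -3029, -2612⟩, .q ⟨149, -69, -80, 0⟩ ⟨3114, 2527, -3029, -2612⟩] := by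
  refine rok_bs (s := -1) (nlo := 66) (nhi := 69) (q := 80) (by decide) (by decide) (by decide) (by decide) (k := 1) (by decide) (Q := [(0, 2000, 9), (-1365, -3760, -1108), (-3029, 2612, -2527)])
    (P := [⟨-2027520, -80, 0⟩, ⟨2119680, 80, 0⟩, ⟨276480, 0, 2000⟩, ⟨-34037760, -1365, -3760⟩, ⟨-77629440, -3029, 2612⟩]) rfl rfl
    (List.mem_of_getElem? (i := 281) rfl) TB_fr TB_cov ?_
  · intro X Y h
    simp only [List.forall_mem_cons, List.not_mem_nil, false_imp_iff, implies_true, and_true] at h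
    push_cast at h ⊢
    obtain ⟨h0, h1, h2, h3, h4⟩ := h
    refine ⟨⟨?_, ?_⟩, ?_, ?_⟩ <;> linarith

theorem TB_rg282 : ROK [.q ⟨-13, -67, 80, 0⟩ ⟨-147, 67, 80, 0⟩, .q ⟨10, 70, -80, 0⟩ ⟨-150, 70, 80, 0⟩, .q ⟨147, -67, -80, 0⟩ ⟨3563, -1222, 1404, -3745⟩, .q ⟨150, -70, -80, 0⟩ ⟨3563, -1222, 1404, -3745⟩, .q ⟨147, -67, -80, 0⟩ ⟨-3482, 1141, -1404, 3745⟩, .q ⟨150, -70, -80, 0⟩ ⟨-3482, 1141, -1404, 3745⟩, .q ⟨147, -67, -80, 0⟩ ⟨3913, 1377, -1643, -3647⟩, .q ⟨150, -70, -80, 0⟩ ⟨3913, 1377, -1643, -3647⟩] := by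
  refine rok_bs (s := -1) (nlo := 67) (nhi := 70) (q := 80) (by decide) (by decide) (by decide) (by decide) (k := 1) (by decide) (Q := [(1404, 3745, 1222), (-1404, -3745, -1141), (-1643, 3647, -1377)])
    (P := [⟨-2058240, -80, 0⟩, ⟨2150400, 80, 0⟩, ⟨37539840, 1404, 3745⟩, ⟨-35051520, -1404, -3745⟩, ⟨-42301440, -1643, 3647⟩]) rfl rfl
    (List.mem_of_getElem? (i := 282) rfl) TB_fr TB_cov ?_
  · intro X Y h
    simp only [List.forall_mem_cons, List.not_mem_nil, false_imp_iff, implies_true, and_true] at h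
    push_cast at h ⊢
    obtain ⟨h0, h1, h2, h3, h4⟩ := h
    refine ⟨⟨?_, ?_⟩, ?_, ?_⟩ <;> linarith

theorem TB_rg283 : ROK [.q ⟨-443, -517, 960, 0⟩ ⟨-1477, 517, 960, 0⟩, .q ⟨432, 528, -960, 0⟩ ⟨-1488, 528, 960, 0⟩, .q ⟨1477, -517, -960, 0⟩ ⟨13480, -10876, 1209, -3813⟩, .q ⟨1488, -528, -960, 0⟩ ⟨13480, -10876, 1209, -3813⟩, .q ⟨1477, -517, -960, 0⟩ ⟨-482, -386, -403, 1271⟩, .q ⟨1488, -528, -960, 0⟩ ⟨-482, -386, -403, 1271⟩, .q ⟨1477, -517, -960, 0⟩ ⟨1066, 422, -165, -1323⟩, .q ⟨1488, -528, -960, 0⟩ ⟨1066, 422, -165, -1323⟩, .q ⟨1477, -517, -960, 0⟩ ⟨861, 1242, -3677, 1574⟩, .q ⟨1488, -528, -960, 0⟩ ⟨861, 1242, -3677, 1574⟩] := by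
  refine rok_bs (s := -1) (nlo := 517) (nhi := 528) (q := 960) (by decide) (by decide) (by decide) (by decide) (k := 1) (by decide) (Q := [(1209, 3813, 10876), (-403, -1271, 386), (-165, 1323, -422), (-3677, -1574, -1242)])
    (P := [⟨-15882240, -960, 0⟩, ⟨16220160, 960, 0⟩, ⟨334110720, 1209, 3813⟩, ⟨11857920, -403, -1271⟩, ⟨-12963840, -165, 1323⟩, ⟨-38154240, -3677, -1574⟩]) rfl rfl
    (List.mem_of_getElem? (i := 283) rfl) TB_fr TB_cov ?_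
  · intro X Y h
    simp only [List.forall_mem_cons, List.not_mem_nil, false_imp_iff, implies_true, and_true] at h
    push_cast at h ⊢
    obtain ⟨h0, h1, h2, h3, h4, h5⟩ := h
    refine ⟨⟨?_, ?_⟩, ?_, ?_⟩ <;> linarith

theorem TB_rg284 : ROK [.q ⟨-3, -37, 40, 0⟩ ⟨-77, 37, 40, 0⟩, .q ⟨0, 40, -40, 0⟩ ⟨-80, 40, 40, 0⟩, .q ⟨77, -37, -40, 0⟩ ⟨3344, 1017, -379, -3982⟩, .q ⟨80, -40, -40, 0⟩ ⟨3344, 1017, -379, -3982⟩, .q ⟨77, -37, -40, 0⟩ ⟨729, -2764, -1622, 3657⟩, .q ⟨80, -40, -40, 0⟩ ⟨729, -2764, -1622, 3657⟩, .q ⟨77, -37, -40, 0⟩ ⟨2091, 3458, -3322, -2227⟩, .q ⟨80, -40, -40, 0⟩ ⟨2091, 3458, -3322, -2227⟩] := by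
  refine rok_bs (s := -1) (nlo := 37) (nhi := 40) (q := 40) (by decide) (by decide) (by decide) (by decide) (k := 1) (by decide) (Q := [(-379, 3982, -1017), (-1622, -3657, 2764), (-3322, 2227, -3458)])
    (P := [⟨-1136640, -40, 0⟩, ⟨1228800, 40, 0⟩, ⟨-31242240, -379, 3982⟩, ⟨84910080, -1622, -3657⟩, ⟨-106229760, -3322, 2227⟩]) rfl rfl
    (List.mem_of_getElem? (i := 284) rfl) TB_fr TB_cov ?_
  · intro X Y h
    simp only [List.forall_mem_cons, List.not_mem_nil, false_imp_iff, implies_true, and_true] at h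
    push_cast at h ⊢
    obtain ⟨h0, h1, h2, h3, h4⟩ := h
    refine ⟨⟨?_, ?_⟩, ?_, ?_⟩ <;> linarith

theorem TB_rg285 : ROK [.q ⟨-6, -34, 40, 0⟩ ⟨-74, 34, 40, 0⟩, .q ⟨3, 37, -40, 0⟩ ⟨-77, 37, 40, 0⟩, .q ⟨74, -34, -40, 0⟩ ⟨4049, -49, 0, -4000⟩, .q ⟨77, -37, -40, 0⟩ ⟨4049, -49, 0, -4000⟩, .q ⟨74, -34, -40, 0⟩ ⟨-381, -19, 0, 400⟩, .q ⟨77, -37, -40, 0⟩ ⟨-381, -19, 0, 400⟩, .q ⟨74, -34, -40, 0⟩ ⟨3603, 1942, -2214, -3331⟩, .q ⟨77, -37, -40, 0⟩ ⟨3603, 1942, -2214, -3331⟩, .q ⟨74, -34, -40, 0⟩ ⟨-2646, 2127, -2557, 3076⟩, .q ⟨77, -37, -40, 0⟩ ⟨-2646, 2127, -2557, 3076⟩] := by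
  refine rok_bs (s := -1) (nlo := 34) (nhi := 37) (q := 40) (by decide) (by decide) (by decide) (by decide) (k := 1) (by decide) (Q := [(0, 4000, 49), (0, -400, 19), (-2214, 3331, -1942), (-2557, -3076, -2127)])
    (P := [⟨-1044480, -40, 0⟩, ⟨1136640, 40, 0⟩, ⟨1505280, 0, 4000⟩, ⟨583680, 0, -400⟩, ⟨-59658240, -2214, 3331⟩, ⟨-65341440, -2557, -3076⟩]) rfl rfl
    (List.mem_of_getElem? (i := 285) rfl) TB_fr TB_cov ?_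
  · intro X Y h
    simp only [List.forall_mem_cons, List.not_mem_nil, false_imp_iff, implies_true, and_true] at h
    push_cast at h ⊢
    obtain ⟨h0, h1, h2, h3, h4, h5⟩ := h
    refine ⟨⟨?_, ?_⟩, ?_, ?_⟩ <;> linarith

theorem TB_rg286 : ROK [.q ⟨-221, -259, 480, 0⟩ ⟨-739, 259, 480, 0⟩, .q ⟨214, 266, -480, 0⟩ ⟨-746, 266, 480, 0⟩, .q ⟨739, -259, -480, 0⟩ ⟨14403, -8782, -2493, -3128⟩, .q ⟨746, -266, -480, 0⟩ ⟨14403, -8782, -2493, -3128⟩, .q ⟨739, -259, -480, 0⟩ ⟨-460, -97, -2536, 3093⟩, .q ⟨746, -266, -480, 0⟩ ⟨-460, -97, -2536, 3093⟩, .q ⟨739, -259, -480, 0⟩ ⟨30, -429, 1121, -722⟩, .q ⟨746, -266, -480, 0⟩ ⟨30, -429, 1121, -722⟩] := by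
  refine rok_bs (s := -1) (nlo := 259) (nhi := 266) (q := 480) (by decide) (by decide) (by decide) (by decide) (k := 1) (by decide) (Q := [(-2493, 3128, 8782), (-2536, -3093, 97), (1121, 722, 429)])
    (P := [⟨-7956480, -480, 0⟩, ⟨8171520, 480, 0⟩, ⟨269783040, -2493, 3128⟩, ⟨2979840, -2536, -3093⟩, ⟨13178880, 1121, 722⟩]) rfl rfl
    (List.mem_of_getElem? (i := 286) rfl) TB_fr TB_cov ?_
  · intro X Y h
    simp only [List.forall_mem_cons, List.not_mem_nil, false_imp_iff, implies_true, and_true] at h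
    push_cast at h ⊢
    obtain ⟨h0, h1, h2, h3, h4⟩ := h
    refine ⟨⟨?_, ?_⟩, ?_, ?_⟩ <;> linarith

theorem TB_rg287 : ROK [.q ⟨-437, -523, 960, 0⟩ ⟨-1483, 523, 960, 0⟩, .q ⟨425, 535, -960, 0⟩ ⟨-1495, 535, 960, 0⟩, .q ⟨1483, -523, -960, 0⟩ ⟨12524, -11927, 2514, -3111⟩, .q ⟨1495, -535, -960, 0⟩ ⟨12524, -11927, 2514, -3111⟩, .q ⟨1483, -523, -960, 0⟩ ⟨-479, -118, -2514, 3111⟩, .q ⟨1495, -535, -960, 0⟩ ⟨-479, -118, -2514, 3111⟩, .q ⟨1483, -523, -960, 0⟩ ⟨3125, 2422, -3326, -2221⟩, .q ⟨1495, -535, -960, 0⟩ ⟨3125, 2422, -3326, -2221⟩] := by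
  refine rok_bs (s := -1) (nlo := 523) (nhi := 535) (q := 960) (by decide) (by decide) (by decide) (by decide) (k := 1) (by decide) (Q := [(2514, 3111, 11927), (-2514, -3111, 118), (-3326, 2221, -2422)])
    (P := [⟨-16066560, -960, 0⟩, ⟨16435200, 960, 0⟩, ⟨366397440, 2514, 3111⟩, ⟨3624960, -2514, -3111⟩, ⟨-74403840, -3326, 2221⟩]) rfl rfl
    (List.mem_of_getElem? (i := 287) rfl) TB_fr TB_cov ?_
  · intro X Y h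
    simp only [List.forall_mem_cons, List.not_mem_nil, false_imp_iff, implies_true, and_true] at h
    push_cast at h ⊢
    obtain ⟨h0, h1, h2, h3, h4⟩ := h
    refine ⟨⟨?_, ?_⟩, ?_, ?_⟩ <;> linarith

end Pool.Agent.TET
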