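import Pool.Agent.Helper38_TET.TB_C

/-!
# MP_c7c9bf_co: certificates, family TB
-/

set_option autoImplicit false
set_option maxRecDepth 100000

namespace Pool.Agent.TET

theorem TB_rg288 : ROK [.q ⟨-22, -18, 40, 0⟩ ⟨-58, 18, 40, 0⟩, .q ⟨19, 21, -40, 0⟩ ⟨-61, 21, 40, 0⟩, .q ⟨58, -18, -40, 0⟩ ⟨12763, -7881, -1012, -3870⟩, .q ⟨61, -21, -40, 0⟩ ⟨12763, -7881, -1012, -3870⟩, .q ⟨58, -18, -40, 0⟩ ⟨-49, -4119, 172, 3996⟩, .q ⟨61, -21, -40, 0⟩ ⟨-49, -4119, 172, 3996⟩, .q ⟨58, -18, -40, 0⟩ ⟨603, 3632, -242, -3993⟩, .q ⟨61, -21, -40, 0⟩ ⟨603, 3632, -242, -3993⟩, .q ⟨58, -18, -40, 0⟩ ⟨968, 157, -1860, 735⟩, .q ⟨61, -21, -40, 0⟩ ⟨968, 157, -1860, 735⟩] := by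
  refine rok_bs (s := -1) (nlo := 18) (nhi := 21) (q := 40) (by decide) (by decide) (by decide) (by decide) (k := 1) (by decide) (Q := [(-1012, 3870, 7881), (172, -3996, 4119), (-242, 3993, -3632), (-1860, -735, -157)])
    (P := [⟨-552960, -40, 0⟩, ⟨645120, 40, 0⟩, ⟨242104320, -1012, 3870⟩, ⟨126535680, 172, -3996⟩, ⟨-111575040, -242, 3993⟩, ⟨-4823040, -1860, -735⟩]) rfl rfl
    (List.mem_of_getElem? (i := 288) rfl) TB_fr TB_cov ?_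
  · intro X Y h
    simp only [List.forall_mem_cons, List.not_mem_nil, false_imp_iff, implies_true, and_true] at h
    push_cast at h ⊢
    obtain ⟨h0, h1, h2, h3, h4, h5⟩ := h
    refine ⟨⟨?_, ?_⟩, ?_, ?_⟩ <;> linarith

theorem TB_rg289 : ROK [.q ⟨-3, -37, 40, 0⟩ ⟨-77, 37, 40, 0⟩, .q ⟨-1, 41, -40, 0⟩ ⟨-81, 41, 40, 0⟩, .q ⟨77, -37, -40, 0⟩ ⟨2029, -29, 0, -2000⟩, .q ⟨81, -41, -40, 0⟩ ⟨2029, -29, 0, -2000⟩, .q ⟨77, -37, -40, 0⟩ ⟨-3759, -241, 0, 4000⟩, .q ⟨81, -41, -40, 0⟩ ⟨-3759, -241, 0, 4000⟩] := by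
  refine rok_bs (s := -1) (nlo := 37) (nhi := 41) (q := 40) (by decide) (by decide) (by decide) (by decide) (k := 1) (by decide) (Q := [(0, 2000, 29), (0, -4000, 241)])
    (P := [⟨-1136640, -40, 0⟩, ⟨1259520, 40, 0⟩, ⟨890880, 0, 2000⟩, ⟨7403520, 0, -4000⟩]) rfl rfl
    (List.mem_of_getElem? (i := 289) rfl) TB_fr TB_cov ?_
  · intro X Y h
    simp only [List.forall_mem_cons, List.not_mem_nil, false_imp_iff, implies_true, and_true] at h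
    push_cast at h ⊢
    obtain ⟨h0, h1, h2, h3⟩ := h
    refine ⟨⟨?_, ?_⟩, ?_, ?_⟩ <;> linarith

theorem TB_rg290 : ROK [.q ⟨-3, -17, 20, 0⟩ ⟨-37, 17, 20, 0⟩, .q ⟨0, 20, -20, 0⟩ ⟨-40, 20, 20, 0⟩, .q ⟨37, -17, -20, 0⟩ ⟨4045, -166, 119, -3998⟩, .q ⟨40, -20, -20, 0⟩ ⟨4045, -166, 119, -3998⟩, .q ⟨37, -17, -20, 0⟩ ⟨-3734, -145, -119, 3998⟩, .q ⟨40, -20, -20, 0⟩ ⟨-3734, -145, -119, 3998⟩, .q ⟨37, -17, -20, 0⟩ ⟨1942, 665, -755, -1852⟩, .q ⟨40, -20, -20, 0⟩ ⟨1942, 665, -755, -1852⟩, .q ⟨37, -17, -20, 0⟩ ⟨-3110, 1701, -2035, 3444⟩, .q ⟨40, -20, -20, 0⟩ ⟨-3110, 1701, -2035, 3444⟩] := by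
  refine rok_bs (s := -1) (nlo := 17) (nhi := 20) (q := 20) (by decide) (by decide) (by decide) (by decide) (k := 1) (by decide) (Q := [(119, 3998, 166), (-119, -3998, 145), (-755, 1852, -665), (-2035, -3444, -1701)])
    (P := [⟨-522240, -20, 0⟩, ⟨614400, 20, 0⟩, ⟨5099520, 119, 3998⟩, ⟨4454400, -119, -3998⟩, ⟨-20428800, -755, 1852⟩, ⟨-52254720, -2035, -3444⟩]) rfl rfl
    (List.mem_of_getElem? (i := 290) rfl) TB_fr TB_cov ?_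
  · intro X Y h
    simp only [List.forall_mem_cons, List.not_mem_nil, false_imp_iff, implies_true, and_true] at h
    push_cast at h ⊢
    obtain ⟨h0, h1, h2, h3, h4, h5⟩ := h
    refine ⟨⟨?_, ?_⟩, ?_, ?_⟩ <;> linarith

theorem TB_rg291 : ROK [.q ⟨-218, -262, 480, 0⟩ ⟨-742, 262, 480, 0⟩, .q ⟨211, 269, -480, 0⟩ ⟨-749, 269, 480, 0⟩, .q ⟨742, -262, -480, 0⟩ ⟨3274, 1479, -843, -3910⟩, .q ⟨749, -269, -480, 0⟩ ⟨3274, 1479, -843, -3910⟩, .q ⟨742, -262, -480, 0⟩ ⟨-363, 7, -2645, 3001⟩, .q ⟨749, -269, -480, 0⟩ ⟨-363, 7, -2645, 3001⟩] := by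
  refine rok_bs (s := -1) (nlo := 262) (nhi := 269) (q := 480) (by decide) (by decide) (by decide) (by decide) (k := 1) (by decide) (Q := [(-843, 3910, -1479), (-2645, -3001, -7)])
    (P := [⟨-8048640, -480, 0⟩, ⟨8263680, 480, 0⟩, ⟨-45434880, -843, 3910⟩, ⟨-215040, -2645, -3001⟩]) rfl rfl
    (List.mem_of_getElem? (i := 291) rfl) TB_fr TB_cov ?_
  · intro X Y h
    simp only [List.forall_mem_cons, List.not_mem_nil, false_imp_iff, implies_true, and_true] at h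
    push_cast at h ⊢
    obtain ⟨h0, h1, h2, h3⟩ := h
    refine ⟨⟨?_, ?_⟩, ?_, ?_⟩ <;> linarith

theorem TB_rg292 : ROK [.q ⟨-5, -5, 10, 0⟩ ⟨-15, 5, 10, 0⟩, .q ⟨4, 6, -10, 0⟩ ⟨-16, 6, 10, 0⟩, .q ⟨15, -5, -10, 0⟩ ⟨1888, -41, 1750, -3597⟩, .q ⟨16, -6, -10, 0⟩ ⟨1888, -41, 1750, -3597⟩, .q ⟨15, -5, -10, 0⟩ ⟨-1105, -742, -1750, 3597⟩, .q ⟨16, -6, -10, 0⟩ ⟨-1105, -742, -1750, 3597⟩, .q ⟨15, -5, -10, 0⟩ ⟨-281, 97, -2735, 2919⟩, .q ⟨16, -6, -10, 0⟩ ⟨-281, 97, -2735, 2919⟩] := by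
  refine rok_bs (s := -1) (nlo := 5) (nhi := 6) (q := 10) (by decide) (by decide) (by decide) (by decide) (k := 1) (by decide) (Q := [(1750, 3597, 41), (-1750, -3597, 742), (-2735, -2919, -97)])
    (P := [⟨-153600, -10, 0⟩, ⟨184320, 10, 0⟩, ⟨1259520, 1750, 3597⟩, ⟨22794240, -1750, -3597⟩, ⟨-2979840, -2735, -2919⟩]) rfl rfl
    (List.mem_of_getElem? (i := 292) rfl) TB_fr TB_cov ?_
  · intro X Y h
    simp only [List.forall_mem_cons, List.not_mem_nil, false_imp_iff, implies_true, and_true] at h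
    push_cast at h ⊢
    obtain ⟨h0, h1, h2, h3, h4⟩ := h
    refine ⟨⟨?_, ?_⟩, ?_, ?_⟩ <;> linarith

theorem TB_rg293 : ROK [.q ⟨-3, -17, 20, 0⟩ ⟨-37, 17, 20, 0⟩, .q ⟨0, 20, -20, 0⟩ ⟨-40, 20, 20, 0⟩, .q ⟨37, -17, -20, 0⟩ ⟨2642, 3011, -2717, -2936⟩, .q ⟨40, -20, -20, 0⟩ ⟨2642, 3011, -2717, -2936⟩, .q ⟨37, -17, -20, 0⟩ ⟨387, -1876, -458, 1947⟩, .q ⟨40, -20, -20, 0⟩ ⟨387, -1876, -458, 1947⟩, .q ⟨37, -17, -20, 0⟩ ⟨408, 25, 63, -496⟩, .q ⟨40, -20, -20, 0⟩ ⟨408, 25, 63, -496⟩] := by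
  refine rok_bs (s := -1) (nlo := 17) (nhi := 20) (q := 20) (by decide) (by decide) (by decide) (by decide) (k := 1) (by decide) (Q := [(-2717, 2936, -3011), (-458, -1947, 1876), (63, 496, -25)])
    (P := [⟨-522240, -20, 0⟩, ⟨614400, 20, 0⟩, ⟨-92497920, -2717, 2936⟩, ⟨57630720, -458, -1947⟩, ⟨-768000, 63, 496⟩]) rfl rfl
    (List.mem_of_getElem? (i := 293) rfl) TB_fr TB_cov ?_
  · intro X Y h
    simp only [List.forall_mem_cons, List.not_mem_nil, false_imp_iff, implies_true, and_true] at h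
    push_cast at h ⊢
    obtain ⟨h0, h1, h2, h3, h4⟩ := h
    refine ⟨⟨?_, ?_⟩, ?_, ?_⟩ <;> linarith

theorem TB_rg294 : ROK [.q ⟨-29, -31, 60, 0⟩ ⟨-91, 31, 60, 0⟩, .q ⟨28, 32, -60, 0⟩ ⟨-92, 32, 60, 0⟩, .q ⟨91, -31, -60, 0⟩ ⟨477, 3205, 306, -3988⟩, .q ⟨92, -32, -60, 0⟩ ⟨477, 3205, 306, -3988⟩, .q ⟨91, -31, -60, 0⟩ ⟨-583, -4556, 1387, 3752⟩, .q ⟨92, -32, -60, 0⟩ ⟨-583, -4556, 1387, 3752⟩] := by
  refine rok_bs (s := -1) (nlo := 31) (nhi := 32) (q := 60) (by decide) (by decide) (by decide) (by decide) (k := 1) (by decide) (Q := [(306, 3988, -3205), (1387, -3752, 4556)])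
    (P := [⟨-952320, -60, 0⟩, ⟨983040, 60, 0⟩, ⟨-98457600, 306, 3988⟩, ⟨139960320, 1387, -3752⟩]) rfl rfl
    (List.mem_of_getElem? (i := 294) rfl) TB_fr TB_cov ?_
  · intro X Y h
    simp only [List.forall_mem_cons, List.not_mem_nil, false_imp_iff, implies_true, and_true] at h
    push_cast at h ⊢
    obtain ⟨h0, h1, h2, h3⟩ := h
    refine ⟨⟨?_, ?_⟩, ?_, ?_⟩ <;> linarith

theorem TB_rg295 : ROK [.q ⟨-124, -116, 240, 0⟩ ⟨-356, 116, 240, 0⟩, .q ⟨119, 121, -240, 0⟩ ⟨-361, 121, 240, 0⟩, .q ⟨356, -116, -240, 0⟩ ⟨1011, 989, 0, -2000⟩, .q ⟨361, -121, -240, 0⟩ ⟨1011, 989, 0, -2000⟩, .q ⟨356, -116, -240, 0⟩ ⟨-1757, -2243, 0, 4000⟩, .q ⟨361, -121, -240, 0⟩ ⟨-1757, -2243, 0, 4000⟩, .q ⟨356, -116, -240, 0⟩ ⟨2651, 2654, -3635, -1670⟩, .q ⟨361, -121, -240, 0⟩ ⟨2651, 2654, -3635, -1670⟩] := by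
  refine rok_bs (s := -1) (nlo := 116) (nhi := 121) (q := 240) (by decide) (by decide) (by decide) (by decide) (k := 1) (by decide) (Q := [(0, 2000, -989), (0, -4000, 2243), (-3635, 1670, -2654)])
    (P := [⟨-3563520, -240, 0⟩, ⟨3717120, 240, 0⟩, ⟨-30382080, 0, 2000⟩, ⟨68904960, 0, -4000⟩, ⟨-81530880, -3635, 1670⟩]) rfl rfl
    (List.mem_of_getElem? (i := 295) rfl) TB_fr TB_cov ?_
  · intro X Y h
    simp only [List.forall_mem_cons, List.not_mem_nil, false_imp_iff, implies_true, and_true] at h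
    push_cast at h ⊢
    obtain ⟨h0, h1, h2, h3, h4⟩ := h
    refine ⟨⟨?_, ?_⟩, ?_, ?_⟩ <;> linarith

theorem TB_rg296 : ROK [.q ⟨-12, -68, 80, 0⟩ ⟨-148, 68, 80, 0⟩, .q ⟨9, 71, -80, 0⟩ ⟨-151, 71, 80, 0⟩, .q ⟨148, -68, -80, 0⟩ ⟨4063, 308, -390, -3981⟩, .q ⟨151, -71, -80, 0⟩ ⟨4063, 308, -390, -3981⟩, .q ⟨148, -68, -80, 0⟩ ⟨-1394, 999, -1203, 1598⟩, .q ⟨151, -71, -80, 0⟩ ⟨-1394, 999, -1203, 1598⟩] := by
  refine rok_bs (s := -1) (nlo := 68) (nhi := 71) (q := 80) (by decide) (by decide) (by decide) (by decide) (k := 1) (by decide) (Q := [(-390, 3981, -308), (-1203, -1598, -999)])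
    (P := [⟨-2088960, -80, 0⟩, ⟨2181120, 80, 0⟩, ⟨-9461760, -390, 3981⟩, ⟨-30689280, -1203, -1598⟩]) rfl rfl
    (List.mem_of_getElem? (i := 296) rfl) TB_fr TB_cov ?_
  · intro X Y h
    simp only [List.forall_mem_cons, List.not_mem_nil, false_imp_iff, implies_true, and_true] at h
    push_cast at h ⊢
    obtain ⟨h0, h1, h2, h3⟩ := h
    refine ⟨⟨?_, ?_⟩, ?_, ?_⟩ <;> linarith

theorem TB_rg297 : ROK [.q ⟨-224, -256, 480, 0⟩ ⟨-736, 256, 480, 0⟩, .q ⟨215, 265, -480, 0⟩ ⟨-745, 265, 480, 0⟩, .q ⟨736, -256, -480, 0⟩ ⟨826, 361, -209, -978⟩, .q ⟨745, -265, -480, 0⟩ ⟨826, 361, -209, -978⟩, .q ⟨736, -256, -480, 0⟩ ⟨-2435, -2313, 836, 3912⟩, .q ⟨745, -265, -480, 0⟩ ⟨-2435, -2313, 836, 3912⟩, .q ⟨736, -256, -480, 0⟩ ⟨820, 1204, -3653, 1629⟩, .q ⟨745, -265, -480, 0⟩ ⟨820, 1204, -3653, 1629⟩] := by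
  refine rok_bs (s := -1) (nlo := 256) (nhi := 265) (q := 480) (by decide) (by decide) (by decide) (by decide) (k := 1) (by decide) (Q := [(-209, 978, -361), (836, -3912, 2313), (-3653, -1629, -1204)])
    (P := [⟨-7864320, -480, 0⟩, ⟨8140800, 480, 0⟩, ⟨-11089920, -209, 978⟩, ⟨71055360, 836, -3912⟩, ⟨-36986880, -3653, -1629⟩]) rfl rfl
    (List.mem_of_getElem? (i := 297) rfl) TB_fr TB_cov ?_
  · intro X Y h
    simp only [List.forall_mem_cons, List.not_mem_nil, false_imp_iff, implies_true, and_true] at h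
    push_cast at h ⊢
    obtain ⟨h0, h1, h2, h3, h4⟩ := h
    refine ⟨⟨?_, ?_⟩, ?_, ?_⟩ <;> linarith

theorem TB_rg298 : ROK [.q ⟨-443, -517, 960, 0⟩ ⟨-1477, 517, 960, 0⟩, .q ⟨434, 526, -960, 0⟩ ⟨-1486, 526, 960, 0⟩, .q ⟨1477, -517, -960, 0⟩ ⟨14326, -9940, -407, -3979⟩, .q ⟨1486, -526, -960, 0⟩ ⟨14326, -9940, -407, -3979⟩, .q ⟨1477, -517, -960, 0⟩ ⟨-2277, -2109, 407, 3979⟩, .q ⟨1486, -526, -960, 0⟩ ⟨-2277, -2109, 407, 3979⟩, .q ⟨1477, -517, -960, 0⟩ ⟨3179, 2375, -3314, -2240⟩, .q ⟨1486, -526, -960, 0⟩ ⟨3179, 2375, -3314, -2240⟩, .q ⟨1477, -517, -960, 0⟩ ⟨149, 212, -616, 255⟩, .q ⟨1486, -526, -960, 0⟩ ⟨149, 212, -616, 255⟩] := by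
  refine rok_bs (s := -1) (nlo := 517) (nhi := 526) (q := 960) (by decide) (by decide) (by decide) (by decide) (k := 1) (by decide) (Q := [(-407, 3979, 9940), (407, -3979, 2109), (-3314, 2240, -2375), (-616, -255, -212)])
    (P := [⟨-15882240, -960, 0⟩, ⟨16158720, 960, 0⟩, ⟨305356800, -407, 3979⟩, ⟨64788480, 407, -3979⟩, ⟨-72960000, -3314, 2240⟩, ⟨-6512640, -616, -255⟩]) rfl rfl
    (List.mem_of_getElem? (i := 298) rfl) TB_fr TB_cov ?_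
  · intro X Y h
    simp only [List.forall_mem_cons, List.not_mem_nil, false_imp_iff, implies_true, and_true] at h
    push_cast at h ⊢
    obtain ⟨h0, h1, h2, h3, h4, h5⟩ := h
    refine ⟨⟨?_, ?_⟩, ?_, ?_⟩ <;> linarith

theorem TB_rg299 : ROK [.q ⟨-6, -34, 40, 0⟩ ⟨-74, 34, 40, 0⟩, .q ⟨3, 37, -40, 0⟩ ⟨-77, 37, 40, 0⟩, .q ⟨74, -34, -40, 0⟩ ⟨4062, 419, -514, -3967⟩, .q ⟨77, -37, -40, 0⟩ ⟨4062, 419, -514, -3967⟩, .q ⟨74, -34, -40, 0⟩ ⟨-2987, 1793, -2168, 3362⟩, .q ⟨77, -37, -40, 0⟩ ⟨-2987, 1793, -2168, 3362⟩] := by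
  refine rok_bs (s := -1) (nlo := 34) (nhi := 37) (q := 40) (by decide) (by decide) (by decide) (by decide) (k := 1) (by decide) (Q := [(-514, 3967, -419), (-2168, -3362, -1793)])
    (P := [⟨-1044480, -40, 0⟩, ⟨1136640, 40, 0⟩, ⟨-12871680, -514, 3967⟩, ⟨-55080960, -2168, -3362⟩]) rfl rfl
    (List.mem_of_getElem? (i := 299) rfl) TB_fr TB_cov ?_
  · intro X Y h
    simp only [List.forall_mem_cons, List.not_mem_nil, false_imp_iff, implies_true, and_true] at h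
    push_cast at h ⊢
    obtain ⟨h0, h1, h2, h3⟩ := h
    refine ⟨⟨?_, ?_⟩, ?_, ?_⟩ <;> linarith

theorem TB_rg300 : ROK [.q ⟨-21, -19, 40, 0⟩ ⟨-59, 19, 40, 0⟩, .q ⟨18, 22, -40, 0⟩ ⟨-62, 22, 40, 0⟩, .q ⟨59, -19, -40, 0⟩ ⟨183, 565, -221, -527⟩, .q ⟨62, -22, -40, 0⟩ ⟨183, 565, -221, -527⟩, .q ⟨59, -19, -40, 0⟩ ⟨-1061, -4428, 2060, 3429⟩, .q ⟨62, -22, -40, 0⟩ ⟨-1061, -4428, 2060, 3429⟩] := by
  refine rok_bs (s := -1) (nlo := 19) (nhi := 22) (q := 40) (by decide) (by decide) (by decide) (by decide) (k := 1) (by decide) (Q := [(-221, 527, -565), (2060, -3429, 4428)])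
    (P := [⟨-583680, -40, 0⟩, ⟨675840, 40, 0⟩, ⟨-17356800, -221, 527⟩, ⟨136028160, 2060, -3429⟩]) rfl rfl
    (List.mem_of_getElem? (i := 300) rfl) TB_fr TB_cov ?_
  · intro X Y h
    simp only [List.forall_mem_cons, List.not_mem_nil, false_imp_iff, implies_true, and_true] at h
    push_cast at h ⊢
    obtain ⟨h0, h1, h2, h3⟩ := h
    refine ⟨⟨?_, ?_⟩, ?_, ?_⟩ <;> linarith

theorem TB_rg301 : ROK [.q ⟨-8, -40, 48, 0⟩ ⟨-88, 40, 48, 0⟩, .q ⟨7, 41, -48, 0⟩ ⟨-89, 41, 48, 0⟩, .q ⟨88, -40, -48, 0⟩ ⟨251, -1, 0, -250⟩, .q ⟨89, -41, -48, 0⟩ ⟨251, -1, 0, -250⟩, .q ⟨88, -40, -48, 0⟩ ⟨-79, -1, 0, 80⟩, .q ⟨89, -41, -48, 0⟩ ⟨-79, -1, 0, 80⟩, .q ⟨88, -40, -48, 0⟩ ⟨2802, 2755, -3308, -2249⟩, .q ⟨89, -41, -48, 0⟩ ⟨2802, 2755, -3308, -2249⟩, .q ⟨88, -40, -48, 0⟩ ⟨-2561, 2183, -2633, 3011⟩, .q ⟨89, -41, -48, 0⟩ ⟨-2561, 2183, -2633, 3011⟩]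 := by
  refine rok_bs (s := -1) (nlo := 40) (nhi := 41) (q := 48) (by decide) (by decide) (by decide) (by decide) (k := 1) (by decide) (Q := [(0, 250, 1), (0, -80, 1), (-3308, 2249, -2755), (-2633, -3011, -2183)])
    (P := [⟨-1228800, -48, 0⟩, ⟨1259520, 48, 0⟩, ⟨30720, 0, 250⟩, ⟨30720, 0, -80⟩, ⟨-84633600, -3308, 2249⟩, ⟨-67061760, -2633, -3011⟩]) rfl rfl
    (List.mem_of_getElem? (i := 301) rfl) TB_fr TB_cov ?_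
  · intro X Y h
    simp only [List.forall_mem_cons, List.not_mem_nil, false_imp_iff, implies_true, and_true] at h
    push_cast at h ⊢
    obtain ⟨h0, h1, h2, h3, h4, h5⟩ := h
    refine ⟨⟨?_, ?_⟩, ?_, ?_⟩ <;> linarith

theorem TB_rg302 : ROK [.q ⟨-6, -34, 40, 0⟩ ⟨-74, 34, 40, 0⟩, .q ⟨3, 37, -40, 0⟩ ⟨-77, 37, 40, 0⟩, .q ⟨74, -34, -40, 0⟩ ⟨3409, -1703, 1844, -3550⟩, .q ⟨77, -37, -40, 0⟩ ⟨3409, -1703, 1844, -3550⟩, .q ⟨74, -34, -40, 0⟩ ⟨-3002, 1774, -2147, 3375⟩, .q ⟨77, -37, -40, 0⟩ ⟨-3002, 1774, -2147, 3375⟩, .q ⟨74, -34, -40, 0⟩ ⟨4059, 587, -709, -3937⟩, .q ⟨77, -37, -40, 0⟩ ⟨4059, 587, -709, -3937⟩] := by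
  refine rok_bs (s := -1) (nlo := 34) (nhi := 37) (q := 40) (by decide) (by decide) (by decide) (by decide) (k := 1) (by decide) (Q := [(1844, 3550, 1703), (-2147, -3375, -1774), (-709, 3937, -587)])
    (P := [⟨-1044480, -40, 0⟩, ⟨1136640, 40, 0⟩, ⟨52316160, 1844, 3550⟩, ⟨-54497280, -2147, -3375⟩, ⟨-18032640, -709, 3937⟩]) rfl rfl
    (List.mem_of_getElem? (i := 302) rfl) TB_fr TB_cov ?_
  · intro X Y h
    simp only [List.forall_mem_cons, List.not_mem_nil, false_imp_iff, implies_true, and_true] at h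
    push_cast at h ⊢
    obtain ⟨h0, h1, h2, h3, h4⟩ := h
    refine ⟨⟨?_, ?_⟩, ?_, ?_⟩ <;> linarith

theorem TB_rg303 : ROK [.q ⟨-79, -401, 480, 0⟩ ⟨-881, 401, 480, 0⟩, .q ⟨70, 410, -480, 0⟩ ⟨-890, 410, 480, 0⟩, .q ⟨881, -401, -480, 0⟩ ⟨803, -3, 0, -800⟩, .q ⟨890, -410, -480, 0⟩ ⟨803, -3, 0, -800⟩, .q ⟨881, -401, -480, 0⟩ ⟨-3976, -180, 159, 3997⟩, .q ⟨890, -410, -480, 0⟩ ⟨-3976, -180, 159, 3997⟩, .q ⟨881, -401, -480, 0⟩ ⟨-2829, 1937, -2347, 3239⟩, .q ⟨890, -410, -480, 0⟩ ⟨-2829, 1937, -2347, 3239⟩] := by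
  refine rok_bs (s := -1) (nlo := 401) (nhi := 410) (q := 480) (by decide) (by decide) (by decide) (by decide) (k := 1) (by decide) (Q := [(0, 800, 3), (159, -3997, 180), (-2347, -3239, -1937)])
    (P := [⟨-12318720, -480, 0⟩, ⟨12595200, 480, 0⟩, ⟨92160, 0, 800⟩, ⟨5529600, 159, -3997⟩, ⟨-59504640, -2347, -3239⟩]) rfl rfl
    (List.mem_of_getElem? (i := 303) rfl) TB_fr TB_cov ?_
  · intro X Y h
    simp only [List.forall_mem_cons, List.not_mem_nil, false_imp_iff, implies_true, and_true] at h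
    push_cast at h ⊢
    obtain ⟨h0, h1, h2, h3, h4⟩ := h
    refine ⟨⟨?_, ?_⟩, ?_, ?_⟩ <;> linarith

theorem TB_rg304 : ROK [.q ⟨-38, -42, 80, 0⟩ ⟨-122, 42, 80, 0⟩, .q ⟨35, 45, -80, 0⟩ ⟨-125, 45, 80, 0⟩, .q ⟨122, -42, -80, 0⟩ ⟨6264, -5953, 1250, -1561⟩, .q ⟨125, -45, -80, 0⟩ ⟨6264, -5953, 1250, -1561⟩, .q ⟨122, -42, -80, 0⟩ ⟨-246, -65, -1250, 1561⟩, .q ⟨125, -45, -80, 0⟩ ⟨-246, -65, -1250, 1561⟩, .q ⟨122, -42, -80, 0⟩ ⟨2571, 2756, -3615, -1712⟩, .q ⟨125, -45, -80, 0⟩ ⟨2571, 2756, -3615, -1712⟩] := by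
  refine rok_bs (s := -1) (nlo := 42) (nhi := 45) (q := 80) (by decide) (by decide) (by decide) (by decide) (k := 1) (by decide) (Q := [(1250, 1561, 5953), (-1250, -1561, 65), (-3615, 1712, -2756)])
    (P := [⟨-1290240, -80, 0⟩, ⟨1382400, 80, 0⟩, ⟨182876160, 1250, 1561⟩, ⟨1996800, -1250, -1561⟩, ⟨-84664320, -3615, 1712⟩]) rfl rfl
    (List.mem_of_getElem? (i := 304) rfl) TB_fr TB_cov ?_
  · intro X Y h
    simp only [List.forall_mem_cons, List.not_mem_nil, false_imp_iff, implies_true, and_true] at h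
    push_cast at h ⊢
    obtain ⟨h0, h1, h2, h3, h4⟩ := h
    refine ⟨⟨?_, ?_⟩, ?_, ?_⟩ <;> linarith

theorem TB_rg305 : ROK [.q ⟨-21, -19, 40, 0⟩ ⟨-59, 19, 40, 0⟩, .q ⟨18, 22, -40, 0⟩ ⟨-62, 22, 40, 0⟩, .q ⟨59, -19, -40, 0⟩ ⟨407, 393, 0, -800⟩, .q ⟨62, -22, -40, 0⟩ ⟨407, 393, 0, -800⟩, .q ⟨59, -19, -40, 0⟩ ⟨-32, -435, -2585, 3052⟩, .q ⟨62, -22, -40, 0⟩ ⟨-32, -435, -2585, 3052⟩, .q ⟨59, -19, -40, 0⟩ ⟨1331, 1348, -1793, -886⟩, .q ⟨62, -22, -40, 0⟩ ⟨1331, 1348, -1793, -886⟩] := by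
  refine rok_bs (s := -1) (nlo := 19) (nhi := 22) (q := 40) (by decide) (by decide) (by decide) (by decide) (k := 1) (by decide) (Q := [(0, 800, -393), (-2585, -3052, 435), (-1793, 886, -1348)])
    (P := [⟨-583680, -40, 0⟩, ⟨675840, 40, 0⟩, ⟨-12072960, 0, 800⟩, ⟨13363200, -2585, -3052⟩, ⟨-41410560, -1793, 886⟩]) rfl rfl
    (List.mem_of_getElem? (i := 305) rfl) TB_fr TB_cov ?_
  · intro X Y h
    simp only [List.forall_mem_cons, List.not_mem_nil, false_imp_iff, implies_true, and_true] at h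
    push_cast at h ⊢
    obtain ⟨h0, h1, h2, h3, h4⟩ := h
    refine ⟨⟨?_, ?_⟩, ?_, ?_⟩ <;> linarith

theorem TB_rg306 : ROK [.q ⟨-9, -11, 20, 0⟩ ⟨-31, 11, 20, 0⟩, .q ⟨7, 13, -20, 0⟩ ⟨-33, 13, 20, 0⟩, .q ⟨31, -11, -20, 0⟩ ⟨12019, -8019, 0, -4000⟩, .q ⟨33, -13, -20, 0⟩ ⟨12019, -8019, 0, -4000⟩, .q ⟨31, -11, -20, 0⟩ ⟨143, -4143, 0, 4000⟩, .q ⟨33, -13, -20, 0⟩ ⟨143, -4143, 0, 4000⟩, .q ⟨31, -11, -20, 0⟩ ⟨2527, 2848, -3569, -1806⟩, .q ⟨33, -13, -20, 0⟩ ⟨2527, 2848, -3569, -1806⟩] := by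
  refine rok_bs (s := -1) (nlo := 11) (nhi := 13) (q := 20) (by decide) (by decide) (by decide) (by decide) (k := 1) (by decide) (Q := [(0, 4000, 8019), (0, -4000, 4143), (-3569, 1806, -2848)])
    (P := [⟨-337920, -20, 0⟩, ⟨399360, 20, 0⟩, ⟨246343680, 0, 4000⟩, ⟨127272960, 0, -4000⟩, ⟨-87490560, -3569, 1806⟩]) rfl rfl
    (List.mem_of_getElem? (i := 306) rfl) TB_fr TB_cov ?_
  · intro X Y h
    simp only [List.forall_mem_cons, List.not_mem_nil, false_imp_iff, implies_true, and_true] at h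
    push_cast at h ⊢
    obtain ⟨h0, h1, h2, h3, h4⟩ := h
    refine ⟨⟨?_, ?_⟩, ?_, ?_⟩ <;> linarith

theorem TB_rg307 : ROK [.q ⟨-249, -231, 480, 0⟩ ⟨-711, 231, 480, 0⟩, .q ⟨239, 241, -480, 0⟩ ⟨-721, 241, 480, 0⟩, .q ⟨711, -231, -480, 0⟩ ⟨9960, -7405, 1246, -3801⟩, .q ⟨721, -241, -480, 0⟩ ⟨9960, -7405, 1246, -3801⟩, .q ⟨711, -231, -480, 0⟩ ⟨-1063, -1492, -1246, 3801⟩, .q ⟨721, -241, -480, 0⟩ ⟨-1063, -1492, -1246, 3801⟩, .q ⟨711, -231, -480, 0⟩ ⟨2727, 2777, -3406, -2098⟩, .q ⟨721, -241, -480, 0⟩ ⟨2727, 2777, -3406, -2098⟩] := by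
  refine rok_bs (s := -1) (nlo := 231) (nhi := 241) (q := 480) (by decide) (by decide) (by decide) (by decide) (k := 1) (by decide) (Q := [(1246, 3801, 7405), (-1246, -3801, 1492), (-3406, 2098, -2777)])
    (P := [⟨-7096320, -480, 0⟩, ⟨7403520, 480, 0⟩, ⟨227481600, 1246, 3801⟩, ⟨45834240, -1246, -3801⟩, ⟨-85309440, -3406, 2098⟩]) rfl rfl
    (List.mem_of_getElem? (i := 307) rfl) TB_fr TB_cov ?_
  · intro X Y h
    simp only [List.forall_mem_cons, List.not_mem_nil, false_imp_iff, implies_true, and_true] at h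
    push_cast at h ⊢
    obtain ⟨h0, h1, h2, h3, h4⟩ := h
    refine ⟨⟨?_, ?_⟩, ?_, ?_⟩ <;> linarith

theorem TB_rg308 : ROK [.q ⟨-221, -259, 480, 0⟩ ⟨-739, 259, 480, 0⟩, .q ⟨216, 264, -480, 0⟩ ⟨-744, 264, 480, 0⟩, .q ⟨739, -259, -480, 0⟩ ⟨387, -208, 849, -1028⟩, .q ⟨744, -264, -480, 0⟩ ⟨387, -208, 849, -1028⟩, .q ⟨739, -259, -480, 0⟩ ⟨-150, -29, -849, 1028⟩, .q ⟨744, -264, -480, 0⟩ ⟨-150, -29, -849, 1028⟩] := by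
  refine rok_bs (s := -1) (nlo := 259) (nhi := 264) (q := 480) (by decide) (by decide) (by decide) (by decide) (k := 1) (by decide) (Q := [(849, 1028, 208), (-849, -1028, 29)])
    (P := [⟨-7956480, -480, 0⟩, ⟨8110080, 480, 0⟩, ⟨6389760, 849, 1028⟩, ⟨890880, -849, -1028⟩]) rfl rfl
    (List.mem_of_getElem? (i := 308) rfl) TB_fr TB_cov ?_
  · intro X Y h
    simp only [List.forall_mem_cons, List.not_mem_nil, false_imp_iff, implies_true, and_true] at h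
    push_cast at h ⊢
    obtain ⟨h0, h1, h2, h3⟩ := h
    refine ⟨⟨?_, ?_⟩, ?_, ?_⟩ <;> linarith

theorem TB_rg309 : ROK [.q ⟨-39, -41, 80, 0⟩ ⟨-121, 41, 80, 0⟩, .q ⟨35, 45, -80, 0⟩ ⟨-125, 45, 80, 0⟩, .q ⟨121, -41, -80, 0⟩ ⟨6190, -6032, 1333, -1491⟩, .q ⟨125, -45, -80, 0⟩ ⟨6190, -6032, 1333, -1491⟩, .q ⟨121, -41, -80, 0⟩ ⟨-616, -262, -2355, 3233⟩, .q ⟨125, -45, -80, 0⟩ ⟨-616, -262, -2355, 3233⟩, .q ⟨121, -41, -80, 0⟩ ⟨3318, 1579, -1032, -3865⟩, .q ⟨125, -45, -80, 0⟩ ⟨3318, 1579, -1032, -3865⟩, .q ⟨121, -41, -80, 0⟩ ⟨894, 1275, -3697, 1528⟩, .q ⟨125, -45, -80, 0⟩ ⟨894, 1275, -3697, 1528⟩] := by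
  refine rok_bs (s := -1) (nlo := 41) (nhi := 45) (q := 80) (by decide) (by decide) (by decide) (by decide) (k := 1) (by decide) (Q := [(1333, 1491, 6032), (-2355, -3233, 262), (-1032, 3865, -1579), (-3697, -1528, -1275)])
    (P := [⟨-1259520, -80, 0⟩, ⟨1382400, 80, 0⟩, ⟨185303040, 1333, 1491⟩, ⟨8048640, -2355, -3233⟩, ⟨-48506880, -1032, 3865⟩, ⟨-39168000, -3697, -1528⟩]) rfl rfl
    (List.mem_of_getElem? (i := 309) rfl) TB_fr TB_cov ?_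
  · intro X Y h
    simp only [List.forall_mem_cons, List.not_mem_nil, false_imp_iff, implies_true, and_true] at h
    push_cast at h ⊢
    obtain ⟨h0, h1, h2, h3, h4, h5⟩ := h
    refine ⟨⟨?_, ?_⟩, ?_, ?_⟩ <;> linarith

theorem TB_rg310 : ROK [.q ⟨-2, -18, 20, 0⟩ ⟨-38, 18, 20, 0⟩, .q ⟨-1, 21, -20, 0⟩ ⟨-41, 21, 20, 0⟩, .q ⟨38, -18, -20, 0⟩ ⟨1552, 1063, -769, -1846⟩, .q ⟨41, -21, -20, 0⟩ ⟨1552, 1063, -769, -1846⟩, .q ⟨38, -18, -20, 0⟩ ⟨-2687, -2543, 1538, 3692⟩, .q ⟨41, -21, -20, 0⟩ ⟨-2687, -2543, 1538, 3692⟩, .q ⟨38, -18, -20, 0⟩ ⟨1427, -3399, 3637, -1665⟩, .q ⟨41, -21, -20, 0⟩ ⟨1427, -3399, 3637, -1665⟩] := by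
  refine rok_bs (s := -1) (nlo := 18) (nhi := 21) (q := 20) (by decide) (by decide) (by decide) (by decide) (k := 1) (by decide) (Q := [(-769, 1846, -1063), (1538, -3692, 2543), (3637, 1665, 3399)])
    (P := [⟨-552960, -20, 0⟩, ⟨645120, 20, 0⟩, ⟨-32655360, -769, 1846⟩, ⟨78120960, 1538, -3692⟩, ⟨104417280, 3637, 1665⟩]) rfl rfl
    (List.mem_of_getElem? (i := 310) rfl) TB_fr TB_cov ?_
  · intro X Y h
    simp only [List.forall_mem_cons, List.not_mem_nil, false_imp_iff, implies_true, and_true] at h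
    push_cast at h ⊢
    obtain ⟨h0, h1, h2, h3, h4⟩ := h
    refine ⟨⟨?_, ?_⟩, ?_, ?_⟩ <;> linarith

theorem TB_rg311 : ROK [.q ⟨-25, -55, 80, 0⟩ ⟨-135, 55, 80, 0⟩, .q ⟨22, 58, -80, 0⟩ ⟨-138, 58, 80, 0⟩, .q ⟨135, -55, -80, 0⟩ ⟨14733, -11040, 296, -3989⟩, .q ⟨138, -58, -80, 0⟩ ⟨14733, -11040, 296, -3989⟩, .q ⟨135, -55, -80, 0⟩ ⟨-2561, -661, -714, 3936⟩, .q ⟨138, -58, -80, 0⟩ ⟨-2561, -661, -714, 3936⟩, .q ⟨135, -55, -80, 0⟩ ⟨2319, 3038, -3587, -1770⟩, .q ⟨138, -58, -80, 0⟩ ⟨2319, 3038, -3587, -1770⟩, .q ⟨135, -55, -80, 0⟩ ⟨2, 2140, -3689, 1547⟩, .q ⟨138, -58, -80, 0⟩ ⟨2, 2140, -3689, 1547⟩] := by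
  refine rok_bs (s := -1) (nlo := 55) (nhi := 58) (q := 80) (by decide) (by decide) (by decide) (by decide) (k := 1) (by decide) (Q := [(296, 3989, 11040), (-714, -3936, 661), (-3587, 1770, -3038), (-3689, -1547, -2140)])
    (P := [⟨-1689600, -80, 0⟩, ⟨1781760, 80, 0⟩, ⟨339148800, 296, 3989⟩, ⟨20305920, -714, -3936⟩, ⟨-93327360, -3587, 1770⟩, ⟨-65740800, -3689, -1547⟩]) rfl rfl
    (List.mem_of_getElem? (i := 311) rfl) TB_fr TB_cov ?_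
  · intro X Y h
    simp only [List.forall_mem_cons, List.not_mem_nil, false_imp_iff, implies_true, and_true] at h
    push_cast at h ⊢
    obtain ⟨h0, h1, h2, h3, h4, h5⟩ := h
    refine ⟨⟨?_, ?_⟩, ?_, ?_⟩ <;> linarith

end Pool.Agent.TET
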