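import Pool.Agent.Helper38_TET.TB_C

/-!
# MP_c7c9bf_co: certificates, family TB
-/

set_option autoImplicit false
set_option maxRecDepth 100000

namespace Pool.Agent.TET

theorem TB_rg336 : ROK [.q ⟨-11, -9, 20, 0⟩ ⟨-29, 9, 20, 0⟩, .q ⟨8, 12, -20, 0⟩ ⟨-32, 12, 20, 0⟩, .q ⟨29, -9, -20, 0⟩ ⟨1855, -71, 1792, -3576⟩, .q ⟨32, -12, -20, 0⟩ ⟨1855, -71, 1792, -3576⟩, .q ⟨29, -9, -20, 0⟩ ⟨-1077, -707, -1792, 3576⟩, .q ⟨32, -12, -20, 0⟩ ⟨-1077, -707, -1792, 3576⟩, .q ⟨29, -9, -20, 0⟩ ⟨686, 610, -931, -365⟩, .q ⟨32, -12, -20, 0⟩ ⟨686, 610, -931, -365⟩] := by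
  refine rok_bs (s := -1) (nlo := 9) (nhi := 12) (q := 20) (by decide) (by decide) (by decide) (by decide) (k := 1) (by decide) (Q := [(1792, 3576, 71), (-1792, -3576, 707), (-931, 365, -610)])
    (P := [⟨-276480, -20, 0⟩, ⟨368640, 20, 0⟩, ⟨2181120, 1792, 3576⟩, ⟨21719040, -1792, -3576⟩, ⟨-18739200, -931, 365⟩]) rfl rfl
    (List.mem_of_getElem? (i := 336) rfl) TB_fr TB_cov ?_
  · intro X Y h
    simp only [List.forall_mem_cons, List.not_mem_nil, false_imp_iff, implies_true, and_true] at h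
    push_cast at h ⊢
    obtain ⟨h0, h1, h2, h3, h4⟩ := h
    refine ⟨⟨?_, ?_⟩, ?_, ?_⟩ <;> linarith

theorem TB_rg337 : ROK [.q ⟨-3, -477, 480, 0⟩ ⟨-957, 477, 480, 0⟩, .q ⟨-7, 487, -480, 0⟩ ⟨-967, 487, 480, 0⟩, .q ⟨957, -477, -480, 0⟩ ⟨3371, 629, 0, -4000⟩, .q ⟨967, -487, -480, 0⟩ ⟨3371, 629, 0, -4000⟩, .q ⟨957, -477, -480, 0⟩ ⟨793, -4793, 0, 4000⟩, .q ⟨967, -487, -480, 0⟩ ⟨793, -4793, 0, 4000⟩, .q ⟨957, -477, -480, 0⟩ ⟨2805, -1735, 2242, -3312⟩, .q ⟨967, -487, -480, 0⟩ ⟨2805, -1735, 2242, -3312⟩] := by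
  refine rok_bs (s := -1) (nlo := 477) (nhi := 487) (q := 480) (by decide) (by decide) (by decide) (by decide) (k := 1) (by decide) (Q := [(0, 4000, -629), (0, -4000, 4793), (2242, 3312, 1735)])
    (P := [⟨-14653440, -480, 0⟩, ⟨14960640, 480, 0⟩, ⟨-19322880, 0, 4000⟩, ⟨147240960, 0, -4000⟩, ⟨53299200, 2242, 3312⟩]) rfl rfl
    (List.mem_of_getElem? (i := 337) rfl) TB_fr TB_cov ?_
  · intro X Y h
    simp only [List.forall_mem_cons, List.not_mem_nil, false_imp_iff, implies_true, and_true] at h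
    push_cast at h ⊢
    obtain ⟨h0, h1, h2, h3, h4⟩ := h
    refine ⟨⟨?_, ?_⟩, ?_, ?_⟩ <;> linarith

theorem TB_rg338 : ROK [.q ⟨-2, -8, 10, 0⟩ ⟨-18, 8, 10, 0⟩, .q ⟨1, 9, -10, 0⟩ ⟨-19, 9, 10, 0⟩, .q ⟨18, -8, -10, 0⟩ ⟨15937, -12326, 372, -3983⟩, .q ⟨19, -9, -10, 0⟩ ⟨15937, -12326, 372, -3983⟩, .q ⟨18, -8, -10, 0⟩ ⟨-3875, 264, -372, 3983⟩, .q ⟨19, -9, -10, 0⟩ ⟨-3875, 264, -372, 3983⟩, .q ⟨18, -8, -10, 0⟩ ⟨4052, 294, -363, -3983⟩, .q ⟨19, -9, -10, 0⟩ ⟨4052, 294, -363, -3983⟩, .q ⟨18, -8, -10, 0⟩ ⟨-2943, 1826, -2214, 3331⟩, .q ⟨19, -9, -10, 0⟩ ⟨-2943, 1826, -2214, 3331⟩] := by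
  refine rok_bs (s := -1) (nlo := 8) (nhi := 9) (q := 10) (by decide) (by decide) (by decide) (by decide) (k := 1) (by decide) (Q := [(372, 3983, 12326), (-372, -3983, -264), (-363, 3983, -294), (-2214, -3331, -1826)])
    (P := [⟨-245760, -10, 0⟩, ⟨276480, 10, 0⟩, ⟨378654720, 372, 3983⟩, ⟨-8110080, -372, -3983⟩, ⟨-9031680, -363, 3983⟩, ⟨-56094720, -2214, -3331⟩]) rfl rfl
    (List.mem_of_getElem? (i := 338) rfl) TB_fr TB_cov ?_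
  · intro X Y h
    simp only [List.forall_mem_cons, List.not_mem_nil, false_imp_iff, implies_true, and_true] at h
    push_cast at h ⊢
    obtain ⟨h0, h1, h2, h3, h4, h5⟩ := h
    refine ⟨⟨?_, ?_⟩, ?_, ?_⟩ <;> linarith

theorem TB_rg339 : ROK [.q ⟨-12, -948, 960, 0⟩ ⟨-1908, 948, 960, 0⟩, .q ⟨1, 959, -960, 0⟩ ⟨-1919, 959, 960, 0⟩, .q ⟨1908, -948, -960, 0⟩ ⟨15381, -10054, -1711, -3616⟩, .q ⟨1919, -959, -960, 0⟩ ⟨15381, -10054, -1711, -3616⟩, .q ⟨1908, -948, -960, 0⟩ ⟨-3539, 909, -1189, 3819⟩, .q ⟨1919, -959, -960, 0⟩ ⟨-3539, 909, -1189, 3819⟩, .q ⟨1908, -948, -960, 0⟩ ⟨3833, -1434, 1362, -3761⟩, .q ⟨1919, -959, -960, 0⟩ ⟨3833, -1434, 1362, -3761⟩, .q ⟨1908, -948, -960, 0⟩ ⟨-3008, -2577, 2344, 3241⟩, .q ⟨1919, -959, -960, 0⟩ ⟨-3008, -2577, 2344, 3241⟩] := by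
  refine rok_bs (s := -1) (nlo := 948) (nhi := 959) (q := 960) (by decide) (by decide) (by decide) (by decide) (k := 1) (by decide) (Q := [(-1711, 3616, 10054), (-1189, -3819, -909), (1362, 3761, 1434), (2344, -3241, 2577)])
    (P := [⟨-29122560, -960, 0⟩, ⟨29460480, 960, 0⟩, ⟨308858880, -1711, 3616⟩, ⟨-27924480, -1189, -3819⟩, ⟨44052480, 1362, 3761⟩, ⟨79165440, 2344, -3241⟩]) rfl rfl
    (List.mem_of_getElem? (i := 339) rfl) TB_fr TB_cov ?_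
  · intro X Y h
    simp only [List.forall_mem_cons, List.not_mem_nil, false_imp_iff, implies_true, and_true] at h
    push_cast at h ⊢
    obtain ⟨h0, h1, h2, h3, h4, h5⟩ := h
    refine ⟨⟨?_, ?_⟩, ?_, ?_⟩ <;> linarith

theorem TB_rg340 : ROK [.q ⟨-447, -513, 960, 0⟩ ⟨-1473, 513, 960, 0⟩, .q ⟨436, 524, -960, 0⟩ ⟨-1484, 524, 960, 0⟩, .q ⟨1473, -513, -960, 0⟩ ⟨12444, -11962, 2577, -3059⟩, .q ⟨1484, -524, -960, 0⟩ ⟨12444, -11962, 2577, -3059⟩, .q ⟨1473, -513, -960, 0⟩ ⟨-425, -57, -2577, 3059⟩, .q ⟨1484, -524, -960, 0⟩ ⟨-425, -57, -2577, 3059⟩, .q ⟨1473, -513, -960, 0⟩ ⟨2586, 2765, -3593, -1758⟩, .q ⟨1484, -524, -960, 0⟩ ⟨2586, 2765, -3593, -1758⟩] := by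
  refine rok_bs (s := -1) (nlo := 513) (nhi := 524) (q := 960) (by decide) (by decide) (by decide) (by decide) (k := 1) (by decide) (Q := [(2577, 3059, 11962), (-2577, -3059, 57), (-3593, 1758, -2765)])
    (P := [⟨-15759360, -960, 0⟩, ⟨16097280, 960, 0⟩, ⟨367472640, 2577, 3059⟩, ⟨1751040, -2577, -3059⟩, ⟨-84940800, -3593, 1758⟩]) rfl rfl
    (List.mem_of_getElem? (i := 340) rfl) TB_fr TB_cov ?_
  · intro X Y h
    simp only [List.forall_mem_cons, List.not_mem_nil, false_imp_iff, implies_true, and_true] at h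
    push_cast at h ⊢
    obtain ⟨h0, h1, h2, h3, h4⟩ := h
    refine ⟨⟨?_, ?_⟩, ?_, ?_⟩ <;> linarith

theorem TB_rg341 : ROK [.q ⟨-11, -949, 960, 0⟩ ⟨-1909, 949, 960, 0⟩, .q ⟨4, 956, -960, 0⟩ ⟨-1916, 956, 960, 0⟩, .q ⟨1909, -949, -960, 0⟩ ⟨3989, -1134, 1014, -3869⟩, .q ⟨1916, -956, -960, 0⟩ ⟨3989, -1134, 1014, -3869⟩, .q ⟨1909, -949, -960, 0⟩ ⟨-3586, 731, -1014, 3869⟩, .q ⟨1916, -956, -960, 0⟩ ⟨-3586, 731, -1014, 3869⟩] := by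
  refine rok_bs (s := -1) (nlo := 949) (nhi := 956) (q := 960) (by decide) (by decide) (by decide) (by decide) (k := 1) (by decide) (Q := [(1014, 3869, 1134), (-1014, -3869, -731)])
    (P := [⟨-29153280, -960, 0⟩, ⟨29368320, 960, 0⟩, ⟨34836480, 1014, 3869⟩, ⟨-22456320, -1014, -3869⟩]) rfl rfl
    (List.mem_of_getElem? (i := 341) rfl) TB_fr TB_cov ?_
  · intro X Y h
    simp only [List.forall_mem_cons, List.not_mem_nil, false_imp_iff, implies_true, and_true] at h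
    push_cast at h ⊢
    obtain ⟨h0, h1, h2, h3⟩ := h
    refine ⟨⟨?_, ?_⟩, ?_, ?_⟩ <;> linarith

theorem TB_rg342 : ROK [.q ⟨-248, -232, 480, 0⟩ ⟨-712, 232, 480, 0⟩, .q ⟨237, 243, -480, 0⟩ ⟨-723, 243, 480, 0⟩, .q ⟨712, -232, -480, 0⟩ ⟨2001, 2278, -290, -3989⟩, .q ⟨723, -243, -480, 0⟩ ⟨2001, 2278, -290, -3989⟩, .q ⟨712, -232, -480, 0⟩ ⟨-209, -679, -2349, 3237⟩, .q ⟨723, -243, -480, 0⟩ ⟨-209, -679, -2349, 3237⟩] := by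
  refine rok_bs (s := -1) (nlo := 232) (nhi := 243) (q := 480) (by decide) (by decide) (by decide) (by decide) (k := 1) (by decide) (Q := [(-290, 3989, -2278), (-2349, -3237, 679)])
    (P := [⟨-7127040, -480, 0⟩, ⟨7464960, 480, 0⟩, ⟨-69980160, -290, 3989⟩, ⟨20858880, -2349, -3237⟩]) rfl rfl
    (List.mem_of_getElem? (i := 342) rfl) TB_fr TB_cov ?_
  · intro X Y h
    simp only [List.forall_mem_cons, List.not_mem_nil, false_imp_iff, implies_true, and_true] at h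
    push_cast at h ⊢
    obtain ⟨h0, h1, h2, h3⟩ := h
    refine ⟨⟨?_, ?_⟩, ?_, ?_⟩ <;> linarith

theorem TB_rg343 : ROK [.q ⟨-15, -65, 80, 0⟩ ⟨-145, 65, 80, 0⟩, .q ⟨11, 69, -80, 0⟩ ⟨-149, 69, 80, 0⟩, .q ⟨145, -65, -80, 0⟩ ⟨4027, 986, -1196, -3817⟩, .q ⟨149, -69, -80, 0⟩ ⟨4027, 986, -1196, -3817⟩, .q ⟨145, -65, -80, 0⟩ ⟨-3307, 1403, -1711, 3615⟩, .q ⟨149, -69, -80, 0⟩ ⟨-3307, 1403, -1711, 3615⟩, .q ⟨145, -65, -80, 0⟩ ⟨3615, -1075, 1257, -3797⟩, .q ⟨149, -69, -80, 0⟩ ⟨3615, -1075, 1257, -3797⟩] := by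
  refine rok_bs (s := -1) (nlo := 65) (nhi := 69) (q := 80) (by decide) (by decide) (by decide) (by decide) (k := 1) (by decide) (Q := [(-1196, 3817, -986), (-1711, -3615, -1403), (1257, 3797, 1075)])
    (P := [⟨-1996800, -80, 0⟩, ⟨2119680, 80, 0⟩, ⟨-30289920, -1196, 3817⟩, ⟨-43100160, -1711, -3615⟩, ⟨33024000, 1257, 3797⟩]) rfl rfl
    (List.mem_of_getElem? (i := 343) rfl) TB_fr TB_cov ?_
  · intro X Y h
    simp only [List.forall_mem_cons, List.not_mem_nil, false_imp_iff, implies_true, and_true] at h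
    push_cast at h ⊢
    obtain ⟨h0, h1, h2, h3, h4⟩ := h
    refine ⟨⟨?_, ?_⟩, ?_, ?_⟩ <;> linarith

theorem TB_rg344 : ROK [.q ⟨-443, -517, 960, 0⟩ ⟨-1477, 517, 960, 0⟩, .q ⟨432, 528, -960, 0⟩ ⟨-1488, 528, 960, 0⟩, .q ⟨1477, -517, -960, 0⟩ ⟨12620, -11804, 2391, -3207⟩, .q ⟨1488, -528, -960, 0⟩ ⟨12620, -11804, 2391, -3207⟩, .q ⟨1477, -517, -960, 0⟩ ⟨-587, -229, -2391, 3207⟩, .q ⟨1488, -528, -960, 0⟩ ⟨-587, -229, -2391, 3207⟩, .q ⟨1477, -517, -960, 0⟩ ⟨2508, 2710, -3701, -1517⟩, .q ⟨1488, -528, -960, 0⟩ ⟨2508, 2710, -3701, -1517⟩] := by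
  refine rok_bs (s := -1) (nlo := 517) (nhi := 528) (q := 960) (by decide) (by decide) (by decide) (by decide) (k := 1) (by decide) (Q := [(2391, 3207, 11804), (-2391, -3207, 229), (-3701, 1517, -2710)])
    (P := [⟨-15882240, -960, 0⟩, ⟨16220160, 960, 0⟩, ⟨362618880, 2391, 3207⟩, ⟨7034880, -2391, -3207⟩, ⟨-83251200, -3701, 1517⟩]) rfl rfl
    (List.mem_of_getElem? (i := 344) rfl) TB_fr TB_cov ?_
  · intro X Y h
    simp only [List.forall_mem_cons, List.not_mem_nil, false_imp_iff, implies_true, and_true] at h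
    push_cast at h ⊢
    obtain ⟨h0, h1, h2, h3, h4⟩ := h
    refine ⟨⟨?_, ?_⟩, ?_, ?_⟩ <;> linarith

theorem TB_rg345 : ROK [.q ⟨-14, -66, 80, 0⟩ ⟨-146, 66, 80, 0⟩, .q ⟨11, 69, -80, 0⟩ ⟨-149, 69, 80, 0⟩, .q ⟨146, -66, -80, 0⟩ ⟨6351, -4351, 0, -2000⟩, .q ⟨149, -69, -80, 0⟩ ⟨6351, -4351, 0, -2000⟩, .q ⟨146, -66, -80, 0⟩ ⟨-2648, 2087, -2534, 3095⟩, .q ⟨149, -69, -80, 0⟩ ⟨-2648, 2087, -2534, 3095⟩, .q ⟨146, -66, -80, 0⟩ ⟨4058, 337, -417, -3978⟩, .q ⟨149, -69, -80, 0⟩ ⟨4058, 337, -417, -3978⟩, .q ⟨146, -66, -80, 0⟩ ⟨-3903, 204, -290, 3989⟩, .q ⟨149, -69, -80, 0⟩ ⟨-3903, 204, -290, 3989⟩] := by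
  refine rok_bs (s := -1) (nlo := 66) (nhi := 69) (q := 80) (by decide) (by decide) (by decide) (by decide) (k := 1) (by decide) (Q := [(0, 2000, 4351), (-2534, -3095, -2087), (-417, 3978, -337), (-290, -3989, -204)])
    (P := [⟨-2027520, -80, 0⟩, ⟨2119680, 80, 0⟩, ⟨133662720, 0, 2000⟩, ⟨-64112640, -2534, -3095⟩, ⟨-10352640, -417, 3978⟩, ⟨-6266880, -290, -3989⟩]) rfl rfl
    (List.mem_of_getElem? (i := 345) rfl) TB_fr TB_cov ?_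
  · intro X Y h
    simp only [List.forall_mem_cons, List.not_mem_nil, false_imp_iff, implies_true, and_true] at h
    push_cast at h ⊢
    obtain ⟨h0, h1, h2, h3, h4, h5⟩ := h
    refine ⟨⟨?_, ?_⟩, ?_, ?_⟩ <;> linarith

theorem TB_rg346 : ROK [.q ⟨-221, -259, 480, 0⟩ ⟨-739, 259, 480, 0⟩, .q ⟨212, 268, -480, 0⟩ ⟨-748, 268, 480, 0⟩, .q ⟨739, -259, -480, 0⟩ ⟨3254, 1421, -745, -3930⟩, .q ⟨748, -268, -480, 0⟩ ⟨3254, 1421, -745, -3930⟩, .q ⟨739, -259, -480, 0⟩ ⟨-439, -75, -2560, 3074⟩, .q ⟨748, -268, -480, 0⟩ ⟨-439, -75, -2560, 3074⟩] := by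
  refine rok_bs (s := -1) (nlo := 259) (nhi := 268) (q := 480) (by decide) (by decide) (by decide) (by decide) (k := 1) (by decide) (Q := [(-745, 3930, -1421), (-2560, -3074, 75)])
    (P := [⟨-7956480, -480, 0⟩, ⟨8232960, 480, 0⟩, ⟨-43653120, -745, 3930⟩, ⟨2304000, -2560, -3074⟩]) rfl rfl
    (List.mem_of_getElem? (i := 346) rfl) TB_fr TB_cov ?_
  · intro X Y h
    simp only [List.forall_mem_cons, List.not_mem_nil, false_imp_iff, implies_true, and_true] at h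
    push_cast at h ⊢
    obtain ⟨h0, h1, h2, h3⟩ := h
    refine ⟨⟨?_, ?_⟩, ?_, ?_⟩ <;> linarith

theorem TB_rg347 : ROK [.q ⟨-7, -33, 40, 0⟩ ⟨-73, 33, 40, 0⟩, .q ⟨4, 36, -40, 0⟩ ⟨-76, 36, 40, 0⟩, .q ⟨73, -33, -40, 0⟩ ⟨4056, 237, -305, -3988⟩, .q ⟨76, -36, -40, 0⟩ ⟨4056, 237, -305, -3988⟩, .q ⟨73, -33, -40, 0⟩ ⟨-3307, 1404, -1712, 3615⟩, .q ⟨76, -36, -40, 0⟩ ⟨-3307, 1404, -1712, 3615⟩, .q ⟨73, -33, -40, 0⟩ ⟨1579, 1245, -1491, -1333⟩, .q ⟨76, -36, -40, 0⟩ ⟨1579, 1245, -1491, -1333⟩] := by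
  refine rok_bs (s := -1) (nlo := 33) (nhi := 36) (q := 40) (by decide) (by decide) (by decide) (by decide) (k := 1) (by decide) (Q := [(-305, 3988, -237), (-1712, -3615, -1404), (-1491, 1333, -1245)])
    (P := [⟨-1013760, -40, 0⟩, ⟨1105920, 40, 0⟩, ⟨-7280640, -305, 3988⟩, ⟨-43130880, -1712, -3615⟩, ⟨-38246400, -1491, 1333⟩]) rfl rfl
    (List.mem_of_getElem? (i := 347) rfl) TB_fr TB_cov ?_
  · intro X Y h
    simp only [List.forall_mem_cons, List.not_mem_nil, false_imp_iff, implies_true, and_true] at h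
    push_cast at h ⊢
    obtain ⟨h0, h1, h2, h3, h4⟩ := h
    refine ⟨⟨?_, ?_⟩, ?_, ?_⟩ <;> linarith

theorem TB_rg348 : ROK [.q ⟨-533, -427, 960, 0⟩ ⟨-1387, 427, 960, 0⟩, .q ⟨523, 437, -960, 0⟩ ⟨-1397, 437, 960, 0⟩, .q ⟨1387, -427, -960, 0⟩ ⟨93, 707, 0, -800⟩, .q ⟨1397, -437, -960, 0⟩ ⟨93, 707, 0, -800⟩, .q ⟨1387, -427, -960, 0⟩ ⟨-329, -3671, 0, 4000⟩, .q ⟨1397, -437, -960, 0⟩ ⟨-329, -3671, 0, 4000⟩] := by
  refine rok_bs (s := -1) (nlo := 427) (nhi := 437) (q := 960) (by decide) (by decide) (by decide) (by decide) (k := 1) (by decide) (Q := [(0, 800, -707), (0, -4000, 3671)])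
    (P := [⟨-13117440, -960, 0⟩, ⟨13424640, 960, 0⟩, ⟨-21719040, 0, 800⟩, ⟨112773120, 0, -4000⟩]) rfl rfl
    (List.mem_of_getElem? (i := 348) rfl) TB_fr TB_cov ?_
  · intro X Y h
    simp only [List.forall_mem_cons, List.not_mem_nil, false_imp_iff, implies_true, and_true] at h
    push_cast at h ⊢
    obtain ⟨h0, h1, h2, h3⟩ := h
    refine ⟨⟨?_, ?_⟩, ?_, ?_⟩ <;> linarith

theorem TB_rg349 : ROK [.q ⟨-4, -476, 480, 0⟩ ⟨-956, 476, 480, 0⟩, .q ⟨1, 479, -480, 0⟩ ⟨-959, 479, 480, 0⟩, .q ⟨956, -476, -480, 0⟩ ⟨15539, -10479, -1266, -3794⟩, .q ⟨959, -479, -480, 0⟩ ⟨15539, -10479, -1266, -3794⟩, .q ⟨956, -476, -480, 0⟩ ⟨-3247, 1658, -1920, 3509⟩, .q ⟨959, -479, -480, 0⟩ ⟨-3247, 1658, -1920, 3509⟩, .q ⟨956, -476, -480, 0⟩ ⟨3590, 1871, -1994, -3467⟩, .q ⟨959, -479, -480, 0⟩ ⟨3590, 1871, -1994, -3467⟩, .q ⟨956, -476, -480, 0⟩ ⟨-2768, -2881,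 2672, 2977⟩, .q ⟨959, -479, -480, 0⟩ ⟨-2768, -2881, 2672, 2977⟩] := by
  refine rok_bs (s := -1) (nlo := 476) (nhi := 479) (q := 480) (by decide) (by decide) (by decide) (by decide) (k := 1) (by decide) (Q := [(-1266, 3794, 10479), (-1920, -3509, -1658), (-1994, 3467, -1871), (2672, -2977, 2881)])
    (P := [⟨-14622720, -480, 0⟩, ⟨14714880, 480, 0⟩, ⟨321914880, -1266, 3794⟩, ⟨-50933760, -1920, -3509⟩, ⟨-57477120, -1994, 3467⟩, ⟨88504320, 2672, -2977⟩]) rfl rfl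
    (List.mem_of_getElem? (i := 349) rfl) TB_fr TB_cov ?_
  · intro X Y h
    simp only [List.forall_mem_cons, List.not_mem_nil, false_imp_iff, implies_true, and_true] at h
    push_cast at h ⊢
    obtain ⟨h0, h1, h2, h3, h4, h5⟩ := h
    refine ⟨⟨?_, ?_⟩, ?_, ?_⟩ <;> linarith

theorem TB_rg350 : ROK [.q ⟨-7, -953, 960, 0⟩ ⟨-1913, 953, 960, 0⟩, .q ⟨1, 959, -960, 0⟩ ⟨-1919, 959, 960, 0⟩, .q ⟨1913, -953, -960, 0⟩ ⟨517, -17, 0, -500⟩, .q ⟨1919, -959, -960, 0⟩ ⟨517, -17, 0, -500⟩, .q ⟨1913, -953, -960, 0⟩ ⟨-3713, -245, -42, 4000⟩, .q ⟨1919, -959, -960, 0⟩ ⟨-3713, -245, -42, 4000⟩] := by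
  refine rok_bs (s := -1) (nlo := 953) (nhi := 959) (q := 960) (by decide) (by decide) (by decide) (by decide) (k := 1) (by decide) (Q := [(0, 500, 17), (-42, -4000, 245)])
    (P := [⟨-29276160, -960, 0⟩, ⟨29460480, 960, 0⟩, ⟨522240, 0, 500⟩, ⟨7526400, -42, -4000⟩]) rfl rfl
    (List.mem_of_getElem? (i := 350) rfl) TB_fr TB_cov ?_
  · intro X Y h
    simp only [List.forall_mem_cons, List.not_mem_nil, false_imp_iff, implies_true, and_true] at h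
    push_cast at h ⊢
    obtain ⟨h0, h1, h2, h3⟩ := h
    refine ⟨⟨?_, ?_⟩, ?_, ?_⟩ <;> linarith

theorem TB_rg351 : ROK [.q ⟨-2, -78, 80, 0⟩ ⟨-158, 78, 80, 0⟩, .q ⟨-1, 81, -80, 0⟩ ⟨-161, 81, 80, 0⟩, .q ⟨158, -78, -80, 0⟩ ⟨3307, 1411, -799, -3919⟩, .q ⟨161, -81, -80, 0⟩ ⟨3307, 1411, -799, -3919⟩, .q ⟨158, -78, -80, 0⟩ ⟨778, -3860, -831, 3913⟩, .q ⟨161, -81, -80, 0⟩ ⟨778, -3860, -831, 3913⟩, .q ⟨158, -78, -80, 0⟩ ⟨2186, -2658, 3055, -2583⟩, .q ⟨161, -81, -80, 0⟩ ⟨2186, -2658, 3055, -2583⟩] := by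
  refine rok_bs (s := -1) (nlo := 78) (nhi := 81) (q := 80) (by decide) (by decide) (by decide) (by decide) (k := 1) (by decide) (Q := [(-799, 3919, -1411), (-831, -3913, 3860), (3055, 2583, 2658)])
    (P := [⟨-2396160, -80, 0⟩, ⟨2488320, 80, 0⟩, ⟨-43345920, -799, 3919⟩, ⟨118579200, -831, -3913⟩, ⟨81653760, 3055, 2583⟩]) rfl rfl
    (List.mem_of_getElem? (i := 351) rfl) TB_fr TB_cov ?_
  · intro X Y h
    simp only [List.forall_mem_cons, List.not_mem_nil, false_imp_iff, implies_true, and_true] at h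
    push_cast at h ⊢
    obtain ⟨h0, h1, h2, h3, h4⟩ := h
    refine ⟨⟨?_, ?_⟩, ?_, ?_⟩ <;> linarith

theorem TB_rg352 : ROK [.q ⟨-11, -9, 20, 0⟩ ⟨-29, 9, 20, 0⟩, .q ⟨7, 13, -20, 0⟩ ⟨-33, 13, 20, 0⟩, .q ⟨29, -9, -20, 0⟩ ⟨1907, -203, 1845, -3549⟩, .q ⟨33, -13, -20, 0⟩ ⟨1907, -203, 1845, -3549⟩, .q ⟨29, -9, -20, 0⟩ ⟨-485, -123, -2508, 3116⟩, .q ⟨33, -13, -20, 0⟩ ⟨-485, -123, -2508, 3116⟩, .q ⟨29, -9, -20, 0⟩ ⟨1290, 1378, -1803, -865⟩, .q ⟨33, -13, -20, 0⟩ ⟨1290, 1378, -1803, -865⟩, .q ⟨29, -9, -20, 0⟩ ⟨694, 1076, -3571, 1801⟩, .q ⟨33, -13, -20, 0⟩ ⟨694, 1076, -3571, 1801⟩] := by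
  refine rok_bs (s := -1) (nlo := 9) (nhi := 13) (q := 20) (by decide) (by decide) (by decide) (by decide) (k := 1) (by decide) (Q := [(1845, 3549, 203), (-2508, -3116, 123), (-1803, 865, -1378), (-3571, -1801, -1076)])
    (P := [⟨-276480, -20, 0⟩, ⟨399360, 20, 0⟩, ⟨6236160, 1845, 3549⟩, ⟨3778560, -2508, -3116⟩, ⟨-42332160, -1803, 865⟩, ⟨-33054720, -3571, -1801⟩]) rfl rfl
    (List.mem_of_getElem? (i := 352) rfl) TB_fr TB_cov ?_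
  · intro X Y h
    simp only [List.forall_mem_cons, List.not_mem_nil, false_imp_iff, implies_true, and_true] at h
    push_cast at h ⊢
    obtain ⟨h0, h1, h2, h3, h4, h5⟩ := h
    refine ⟨⟨?_, ?_⟩, ?_, ?_⟩ <;> linarith

theorem TB_rg353 : ROK [.q ⟨-10, -50, 60, 0⟩ ⟨-110, 50, 60, 0⟩, .q ⟨9, 51, -60, 0⟩ ⟨-111, 51, 60, 0⟩, .q ⟨110, -50, -60, 0⟩ ⟨1916, -324, 373, -1965⟩, .q ⟨111, -51, -60, 0⟩ ⟨1916, -324, 373, -1965⟩, .q ⟨110, -50, -60, 0⟩ ⟨-3701, 752, -939, 3888⟩, .q ⟨111, -51, -60, 0⟩ ⟨-3701, 752, -939, 3888⟩, .q ⟨110, -50, -60, 0⟩ ⟨4060, 732, -893, -3899⟩, .q ⟨111, -51, -60, 0⟩ ⟨4060, 732, -893, -3899⟩] := by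
  refine rok_bs (s := -1) (nlo := 50) (nhi := 51) (q := 60) (by decide) (by decide) (by decide) (by decide) (k := 1) (by decide) (Q := [(373, 1965, 324), (-939, -3888, -752), (-893, 3899, -732)])
    (P := [⟨-1536000, -60, 0⟩, ⟨1566720, 60, 0⟩, ⟨9953280, 373, 1965⟩, ⟨-23101440, -939, -3888⟩, ⟨-22487040, -893, 3899⟩]) rfl rfl
    (List.mem_of_getElem? (i := 353) rfl) TB_fr TB_cov ?_
  · intro X Y h
    simp only [List.forall_mem_cons, List.not_mem_nil, false_imp_iff, implies_true, and_true] at h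
    push_cast at h ⊢
    obtain ⟨h0, h1, h2, h3, h4⟩ := h
    refine ⟨⟨?_, ?_⟩, ?_, ?_⟩ <;> linarith

theorem TB_rg354 : ROK [.q ⟨-6, -34, 40, 0⟩ ⟨-74, 34, 40, 0⟩, .q ⟨3, 37, -40, 0⟩ ⟨-77, 37, 40, 0⟩, .q ⟨74, -34, -40, 0⟩ ⟨3247, -1712, 1955, -3490⟩, .q ⟨77, -37, -40, 0⟩ ⟨3247, -1712, 1955, -3490⟩, .q ⟨74, -34, -40, 0⟩ ⟨-626, 319, -391, 698⟩, .q ⟨77, -37, -40, 0⟩ ⟨-626, 319, -391, 698⟩, .q ⟨74, -34, -40, 0⟩ ⟨2568, 2929, -3417, -2080⟩, .q ⟨77, -37, -40, 0⟩ ⟨2568, 2929, -3417, -2080⟩, .q ⟨74, -34, -40, 0⟩ ⟨-2332, 2387, -2856, 2801⟩, .q ⟨77, -37, -40, 0⟩ ⟨-2332, 2387, -2856, 2801⟩] := by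
  refine rok_bs (s := -1) (nlo := 34) (nhi := 37) (q := 40) (by decide) (by decide) (by decide) (by decide) (k := 1) (by decide) (Q := [(1955, 3490, 1712), (-391, -698, -319), (-3417, 2080, -2929), (-2856, -2801, -2387)])
    (P := [⟨-1044480, -40, 0⟩, ⟨1136640, 40, 0⟩, ⟨52592640, 1955, 3490⟩, ⟨-9799680, -391, -698⟩, ⟨-89978880, -3417, 2080⟩, ⟨-73328640, -2856, -2801⟩]) rfl rfl
    (List.mem_of_getElem? (i := 354) rfl) TB_fr TB_cov ?_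
  · intro X Y h
    simp only [List.forall_mem_cons, List.not_mem_nil, false_imp_iff, implies_true, and_true] at h
    push_cast at h ⊢
    obtain ⟨h0, h1, h2, h3, h4, h5⟩ := h
    refine ⟨⟨?_, ?_⟩, ?_, ?_⟩ <;> linarith

theorem TB_rg355 : ROK [.q ⟨-221, -259, 480, 0⟩ ⟨-739, 259, 480, 0⟩, .q ⟨213, 267, -480, 0⟩ ⟨-747, 267, 480, 0⟩, .q ⟨739, -259, -480, 0⟩ ⟨149, 51, 0, -200⟩, .q ⟨747, -267, -480, 0⟩ ⟨149, 51, 0, -200⟩, .q ⟨739, -259, -480, 0⟩ ⟨-455, -92, -2542, 3089⟩, .q ⟨747, -267, -480, 0⟩ ⟨-455, -92, -2542, 3089⟩] := by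
  refine rok_bs (s := -1) (nlo := 259) (nhi := 267) (q := 480) (by decide) (by decide) (by decide) (by decide) (k := 1) (by decide) (Q := [(0, 200, -51), (-2542, -3089, 92)])
    (P := [⟨-7956480, -480, 0⟩, ⟨8202240, 480, 0⟩, ⟨-1566720, 0, 200⟩, ⟨2826240, -2542, -3089⟩]) rfl rfl
    (List.mem_of_getElem? (i := 355) rfl) TB_fr TB_cov ?_
  · intro X Y h
    simp only [List.forall_mem_cons, List.not_mem_nil, false_imp_iff, implies_true, and_true] at h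
    push_cast at h ⊢
    obtain ⟨h0, h1, h2, h3⟩ := h
    refine ⟨⟨?_, ?_⟩, ?_, ?_⟩ <;> linarith

theorem TB_rg356 : ROK [.q ⟨-3, -17, 20, 0⟩ ⟨-37, 17, 20, 0⟩, .q ⟨2, 18, -20, 0⟩ ⟨-38, 18, 20, 0⟩, .q ⟨37, -17, -20, 0⟩ ⟨4062, 289, -368, -3983⟩, .q ⟨38, -18, -20, 0⟩ ⟨4062, 289, -368, -3983⟩, .q ⟨37, -17, -20, 0⟩ ⟨-690, 506, -609, 793⟩, .q ⟨38, -18, -20, 0⟩ ⟨-690, 506, -609, 793⟩] := by
  refine rok_bs (s := -1) (nlo := 17) (nhi := 18) (q := 20) (by decide) (by decide) (by decide) (by decide) (k := 1) (by decide) (Q := [(-368, 3983, -289), (-609, -793, -506)])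
    (P := [⟨-522240, -20, 0⟩, ⟨552960, 20, 0⟩, ⟨-8878080, -368, 3983⟩, ⟨-15544320, -609, -793⟩]) rfl rfl
    (List.mem_of_getElem? (i := 356) rfl) TB_fr TB_cov ?_
  · intro X Y h
    simp only [List.forall_mem_cons, List.not_mem_nil, false_imp_iff, implies_true, and_true] at h
    push_cast at h ⊢
    obtain ⟨h0, h1, h2, h3⟩ := h
    refine ⟨⟨?_, ?_⟩, ?_, ?_⟩ <;> linarith

theorem TB_rg357 : ROK [.q ⟨-21, -19, 40, 0⟩ ⟨-59, 19, 40, 0⟩, .q ⟨17, 23, -40, 0⟩ ⟨-63, 23, 40, 0⟩, .q ⟨59, -19, -40, 0⟩ ⟨734, 3673, -430, -3977⟩, .q ⟨63, -23, -40, 0⟩ ⟨734, 3673, -430, -3977⟩, .q ⟨59, -19, -40, 0⟩ ⟨807, -2984, -1522, 3699⟩, .q ⟨63, -23, -40, 0⟩ ⟨807, -2984, -1522, 3699⟩] := by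
  refine rok_bs (s := -1) (nlo := 19) (nhi := 23) (q := 40) (by decide) (by decide) (by decide) (by decide) (k := 1) (by decide) (Q := [(-430, 3977, -3673), (-1522, -3699, 2984)])
    (P := [⟨-583680, -40, 0⟩, ⟨706560, 40, 0⟩, ⟨-112834560, -430, 3977⟩, ⟨91668480, -1522, -3699⟩]) rfl rfl
    (List.mem_of_getElem? (i := 357) rfl) TB_fr TB_cov ?_
  · intro X Y h
    simp only [List.forall_mem_cons, List.not_mem_nil, false_imp_iff, implies_true, and_true] at h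
    push_cast at h ⊢
    obtain ⟨h0, h1, h2, h3⟩ := h
    refine ⟨⟨?_, ?_⟩, ?_, ?_⟩ <;> linarith

theorem TB_rg358 : ROK [.q ⟨-244, -236, 480, 0⟩ ⟨-716, 236, 480, 0⟩, .q ⟨241, 239, -480, 0⟩ ⟨-719, 239, 480, 0⟩, .q ⟨716, -236, -480, 0⟩ ⟨10517, -6517, 0, -4000⟩, .q ⟨719, -239, -480, 0⟩ ⟨10517, -6517, 0, -4000⟩, .q ⟨716, -236, -480, 0⟩ ⟨-51, -74, 0, 125⟩, .q ⟨719, -239, -480, 0⟩ ⟨-51, -74, 0, 125⟩, .q ⟨716, -236, -480, 0⟩ ⟨2761, 2770, -3360, -2171⟩, .q ⟨719, -239, -480, 0⟩ ⟨2761, 2770, -3360, -2171⟩] := by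
  refine rok_bs (s := -1) (nlo := 236) (nhi := 239) (q := 480) (by decide) (by decide) (by decide) (by decide) (k := 1) (by decide) (Q := [(0, 4000, 6517), (0, -125, 74), (-3360, 2171, -2770)])
    (P := [⟨-7249920, -480, 0⟩, ⟨7342080, 480, 0⟩, ⟨200202240, 0, 4000⟩, ⟨2273280, 0, -125⟩, ⟨-85094400, -3360, 2171⟩]) rfl rfl
    (List.mem_of_getElem? (i := 358) rfl) TB_fr TB_cov ?_
  · intro X Y h
    simp only [List.forall_mem_cons, List.not_mem_nil, false_imp_iff, implies_true, and_true] at h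
    push_cast at h ⊢
    obtain ⟨h0, h1, h2, h3, h4⟩ := h
    refine ⟨⟨?_, ?_⟩, ?_, ?_⟩ <;> linarith

theorem TB_rg359 : ROK [.q ⟨-223, -257, 480, 0⟩ ⟨-737, 257, 480, 0⟩, .q ⟨215, 265, -480, 0⟩ ⟨-745, 265, 480, 0⟩, .q ⟨737, -257, -480, 0⟩ ⟨3472, 1843, -1688, -3627⟩, .q ⟨745, -265, -480, 0⟩ ⟨3472, 1843, -1688, -3627⟩, .q ⟨737, -257, -480, 0⟩ ⟨-2676, -2639, 1688, 3627⟩, .q ⟨745, -265, -480, 0⟩ ⟨-2676, -2639, 1688, 3627⟩, .q ⟨737, -257, -480, 0⟩ ⟨840, 1223, -3665, 1602⟩, .q ⟨745, -265, -480, 0⟩ ⟨840, 1223, -3665, 1602⟩] := by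
  refine rok_bs (s := -1) (nlo := 257) (nhi := 265) (q := 480) (by decide) (by decide) (by decide) (by decide) (k := 1) (by decide) (Q := [(-1688, 3627, -1843), (1688, -3627, 2639), (-3665, -1602, -1223)])
    (P := [⟨-7895040, -480, 0⟩, ⟨8140800, 480, 0⟩, ⟨-56616960, -1688, 3627⟩, ⟨81070080, 1688, -3627⟩, ⟨-37570560, -3665, -1602⟩]) rfl rfl
    (List.mem_of_getElem? (i := 359) rfl) TB_fr TB_cov ?_
  · intro X Y h
    simp only [List.forall_mem_cons, List.not_mem_nil, false_imp_iff, implies_true, and_true] at h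
    push_cast at h ⊢
    obtain ⟨h0, h1, h2, h3, h4⟩ := h
    refine ⟨⟨?_, ?_⟩, ?_, ?_⟩ <;> linarith

end Pool.Agent.TET
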