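import Pool.Agent.Helper38_TET.TB_C

/-!
# MP_c7c9bf_co: certificates, family TB
-/

set_option autoImplicit false
set_option maxRecDepth 100000

namespace Pool.Agent.TET

theorem TB_rg360 : ROK [.q ⟨-3, -237, 240, 0⟩ ⟨-477, 237, 240, 0⟩, .q ⟨-2, 242, -240, 0⟩ ⟨-482, 242, 240, 0⟩, .q ⟨477, -237, -240, 0⟩ ⟨3185, 1919, -1333, -3771⟩, .q ⟨482, -242, -240, 0⟩ ⟨3185, 1919, -1333, -3771⟩, .q ⟨477, -237, -240, 0⟩ ⟨788, -4451, -324, 3987⟩, .q ⟨482, -242, -240, 0⟩ ⟨788, -4451, -324, 3987⟩, .q ⟨477, -237, -240, 0⟩ ⟨3263, -415, 1020, -3868⟩, .q ⟨482, -242, -240, 0⟩ ⟨3263, -415, 1020, -3868⟩] := by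
  refine rok_bs (s := -1) (nlo := 237) (nhi := 242) (q := 240) (by decide) (by decide) (by decide) (by decide) (k := 1) (by decide) (Q := [(-1333, 3771, -1919), (-324, -3987, 4451), (1020, 3868, 415)])
    (P := [⟨-7280640, -240, 0⟩, ⟨7434240, 240, 0⟩, ⟨-58951680, -1333, 3771⟩, ⟨136734720, -324, -3987⟩, ⟨12748800, 1020, 3868⟩]) rfl rfl
    (List.mem_of_getElem? (i := 360) rfl) TB_fr TB_cov ?_
  · intro X Y h
    simp only [List.forall_mem_cons, List.not_mem_nil, false_imp_iff, implies_true, and_true] at h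
    push_cast at h ⊢
    obtain ⟨h0, h1, h2, h3, h4⟩ := h
    refine ⟨⟨?_, ?_⟩, ?_, ?_⟩ <;> linarith

theorem TB_rg361 : ROK [.q ⟨-5, -5, 10, 0⟩ ⟨-15, 5, 10, 0⟩, .q ⟨4, 6, -10, 0⟩ ⟨-16, 6, 10, 0⟩, .q ⟨15, -5, -10, 0⟩ ⟨2741, 2752, -2071, -3422⟩, .q ⟨16, -6, -10, 0⟩ ⟨2741, 2752, -2071, -3422⟩, .q ⟨15, -5, -10, 0⟩ ⟨-2124, -3369, 2071, 3422⟩, .q ⟨16, -6, -10, 0⟩ ⟨-2124, -3369, 2071, 3422⟩, .q ⟨15, -5, -10, 0⟩ ⟨2296, 2243, -582, -3957⟩, .q ⟨16, -6, -10, 0⟩ ⟨2296, 2243, -582, -3957⟩] := by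
  refine rok_bs (s := -1) (nlo := 5) (nhi := 6) (q := 10) (by decide) (by decide) (by decide) (by decide) (k := 1) (by decide) (Q := [(-2071, 3422, -2752), (2071, -3422, 3369), (-582, 3957, -2243)])
    (P := [⟨-153600, -10, 0⟩, ⟨184320, 10, 0⟩, ⟨-84541440, -2071, 3422⟩, ⟨103495680, 2071, -3422⟩, ⟨-68904960, -582, 3957⟩]) rfl rfl
    (List.mem_of_getElem? (i := 361) rfl) TB_fr TB_cov ?_
  · intro X Y h
    simp only [List.forall_mem_cons, List.not_mem_nil, false_imp_iff, implies_true, and_true] at h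
    push_cast at h ⊢
    obtain ⟨h0, h1, h2, h3, h4⟩ := h
    refine ⟨⟨?_, ?_⟩, ?_, ?_⟩ <;> linarith

theorem TB_rg362 : ROK [.q ⟨-20, -20, 40, 0⟩ ⟨-60, 20, 40, 0⟩, .q ⟨17, 23, -40, 0⟩ ⟨-63, 23, 40, 0⟩, .q ⟨60, -20, -40, 0⟩ ⟨7061, -5061, 0, -2000⟩, .q ⟨63, -23, -40, 0⟩ ⟨7061, -5061, 0, -2000⟩, .q ⟨60, -20, -40, 0⟩ ⟨-1486, -1202, -1145, 3833⟩, .q ⟨63, -23, -40, 0⟩ ⟨-1486, -1202, -1145, 3833⟩, .q ⟨60, -20, -40, 0⟩ ⟨914, 950, -1075, -789⟩, .q ⟨63, -23, -40, 0⟩ ⟨914, 950, -1075, -789⟩, .q ⟨60, -20, -40, 0⟩ ⟨652, 1035, -3543, 1856⟩, .q ⟨63, -23, -40, 0⟩ ⟨652, 1035, -3543, 1856⟩] := by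
  refine rok_bs (s := -1) (nlo := 20) (nhi := 23) (q := 40) (by decide) (by decide) (by decide) (by decide) (k := 1) (by decide) (Q := [(0, 2000, 5061), (-1145, -3833, 1202), (-1075, 789, -950), (-3543, -1856, -1035)])
    (P := [⟨-614400, -40, 0⟩, ⟨706560, 40, 0⟩, ⟨155473920, 0, 2000⟩, ⟨36925440, -1145, -3833⟩, ⟨-29184000, -1075, 789⟩, ⟨-31795200, -3543, -1856⟩]) rfl rfl
    (List.mem_of_getElem? (i := 362) rfl) TB_fr TB_cov ?_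
  · intro X Y h
    simp only [List.forall_mem_cons, List.not_mem_nil, false_imp_iff, implies_true, and_true] at h
    push_cast at h ⊢
    obtain ⟨h0, h1, h2, h3, h4, h5⟩ := h
    refine ⟨⟨?_, ?_⟩, ?_, ?_⟩ <;> linarith

theorem TB_rg363 : ROK [.q ⟨-3, -17, 20, 0⟩ ⟨-37, 17, 20, 0⟩, .q ⟨0, 20, -20, 0⟩ ⟨-40, 20, 20, 0⟩, .q ⟨37, -17, -20, 0⟩ ⟨3897, -679, 717, -3935⟩, .q ⟨40, -20, -20, 0⟩ ⟨3897, -679, 717, -3935⟩, .q ⟨37, -17, -20, 0⟩ ⟨-3874, -1047, 1065, 3856⟩, .q ⟨40, -20, -20, 0⟩ ⟨-3874, -1047, 1065, 3856⟩, .q ⟨37, -17, -20, 0⟩ ⟨4000, 999, -1176, -3823⟩, .q ⟨40, -20, -20, 0⟩ ⟨4000, 999, -1176, -3823⟩, .q ⟨37, -17, -20, 0⟩ ⟨-2291, 2422, -2893, 2762⟩, .q ⟨40, -20, -20, 0⟩ ⟨-2291, 2422, -2893, 2762⟩] := by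
  refine rok_bs (s := -1) (nlo := 17) (nhi := 20) (q := 20) (by decide) (by decide) (by decide) (by decide) (k := 1) (by decide) (Q := [(717, 3935, 679), (1065, -3856, 1047), (-1176, 3823, -999), (-2893, -2762, -2422)])
    (P := [⟨-522240, -20, 0⟩, ⟨614400, 20, 0⟩, ⟨20858880, 717, 3935⟩, ⟨32163840, 1065, -3856⟩, ⟨-30689280, -1176, 3823⟩, ⟨-74403840, -2893, -2762⟩]) rfl rfl
    (List.mem_of_getElem? (i := 363) rfl) TB_fr TB_cov ?_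
  · intro X Y h
    simp only [List.forall_mem_cons, List.not_mem_nil, false_imp_iff, implies_true, and_true] at h
    push_cast at h ⊢
    obtain ⟨h0, h1, h2, h3, h4, h5⟩ := h
    refine ⟨⟨?_, ?_⟩, ?_, ?_⟩ <;> linarith

theorem TB_rg364 : ROK [.q ⟨-3, -17, 20, 0⟩ ⟨-37, 17, 20, 0⟩, .q ⟨0, 20, -20, 0⟩ ⟨-40, 20, 20, 0⟩, .q ⟨37, -17, -20, 0⟩ ⟨4041, -41, 0, -4000⟩, .q ⟨40, -20, -20, 0⟩ ⟨4041, -41, 0, -4000⟩, .q ⟨37, -17, -20, 0⟩ ⟨-3701, -1191, 1026, 3866⟩, .q ⟨40, -20, -20, 0⟩ ⟨-3701, -1191, 1026, 3866⟩, .q ⟨37, -17, -20, 0⟩ ⟨2802, 2797, -3203, -2396⟩, .q ⟨40, -20, -20, 0⟩ ⟨2802, 2797, -3203, -2396⟩, .q ⟨37, -17, -20, 0⟩ ⟨-1069, 501, -615, 1183⟩, .q ⟨40, -20, -20, 0⟩ ⟨-1069, 501, -615, 1183⟩] := by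
  refine rok_bs (s := -1) (nlo := 17) (nhi := 20) (q := 20) (by decide) (by decide) (by decide) (by decide) (k := 1) (by decide) (Q := [(0, 4000, 41), (1026, -3866, 1191), (-3203, 2396, -2797), (-615, -1183, -501)])
    (P := [⟨-522240, -20, 0⟩, ⟨614400, 20, 0⟩, ⟨1259520, 0, 4000⟩, ⟨36587520, 1026, -3866⟩, ⟨-85923840, -3203, 2396⟩, ⟨-15390720, -615, -1183⟩]) rfl rfl
    (List.mem_of_getElem? (i := 364) rfl) TB_fr TB_cov ?_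
  · intro X Y h
    simp only [List.forall_mem_cons, List.not_mem_nil, false_imp_iff, implies_true, and_true] at h
    push_cast at h ⊢
    obtain ⟨h0, h1, h2, h3, h4, h5⟩ := h
    refine ⟨⟨?_, ?_⟩, ?_, ?_⟩ <;> linarith

theorem TB_rg365 : ROK [.q ⟨-19, -21, 40, 0⟩ ⟨-61, 21, 40, 0⟩, .q ⟨16, 24, -40, 0⟩ ⟨-64, 24, 40, 0⟩, .q ⟨61, -21, -40, 0⟩ ⟨13294, -11037, 1465, -3722⟩, .q ⟨64, -24, -40, 0⟩ ⟨13294, -11037, 1465, -3722⟩, .q ⟨61, -21, -40, 0⟩ ⟨10739, -12996, -1465, 3722⟩, .q ⟨64, -24, -40, 0⟩ ⟨10739, -12996, -1465, 3722⟩, .q ⟨61, -21, -40, 0⟩ ⟨3292, 1898, -1469, -3721⟩, .q ⟨64, -24, -40, 0⟩ ⟨3292, 1898, -1469, -3721⟩, .q ⟨61, -21, -40, 0⟩ ⟨871, 1306, -3699, 1522⟩, .q ⟨64, -24, -40, 0⟩ ⟨871, 1306, -3699, 1522⟩] := by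
  refine rok_bs (s := -1) (nlo := 21) (nhi := 24) (q := 40) (by decide) (by decide) (by decide) (by decide) (k := 1) (by decide) (Q := [(1465, 3722, 11037), (-1465, -3722, 12996), (-1469, 3721, -1898), (-3699, -1522, -1306)])
    (P := [⟨-645120, -40, 0⟩, ⟨737280, 40, 0⟩, ⟨339056640, 1465, 3722⟩, ⟨399237120, -1465, -3722⟩, ⟨-58306560, -1469, 3721⟩, ⟨-40120320, -3699, -1522⟩]) rfl rfl
    (List.mem_of_getElem? (i := 365) rfl) TB_fr TB_cov ?_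
  · intro X Y h
    simp only [List.forall_mem_cons, List.not_mem_nil, false_imp_iff, implies_true, and_true] at h
    push_cast at h ⊢
    obtain ⟨h0, h1, h2, h3, h4, h5⟩ := h
    refine ⟨⟨?_, ?_⟩, ?_, ?_⟩ <;> linarith

theorem TB_rg366 : ROK [.q ⟨-13, -67, 80, 0⟩ ⟨-147, 67, 80, 0⟩, .q ⟨10, 70, -80, 0⟩ ⟨-150, 70, 80, 0⟩, .q ⟨147, -67, -80, 0⟩ ⟨3902, 1406, -1677, -3631⟩, .q ⟨150, -70, -80, 0⟩ ⟨3902, 1406, -1677, -3631⟩, .q ⟨147, -67, -80, 0⟩ ⟨-3518, 1085, -1337, 3770⟩, .q ⟨150, -70, -80, 0⟩ ⟨-3518, 1085, -1337, 3770⟩, .q ⟨147, -67, -80, 0⟩ ⟨4002, -152, 147, -3997⟩, .q ⟨150, -70, -80, 0⟩ ⟨4002, -152, 147, -3997⟩] := by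
  refine rok_bs (s := -1) (nlo := 67) (nhi := 70) (q := 80) (by decide) (by decide) (by decide) (by decide) (k := 1) (by decide) (Q := [(-1677, 3631, -1406), (-1337, -3770, -1085), (147, 3997, 152)])
    (P := [⟨-2058240, -80, 0⟩, ⟨2150400, 80, 0⟩, ⟨-43192320, -1677, 3631⟩, ⟨-33331200, -1337, -3770⟩, ⟨4669440, 147, 3997⟩]) rfl rfl
    (List.mem_of_getElem? (i := 366) rfl) TB_fr TB_cov ?_
  · intro X Y h
    simp only [List.forall_mem_cons, List.not_mem_nil, false_imp_iff, implies_true, and_true] at h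
    push_cast at h ⊢
    obtain ⟨h0, h1, h2, h3, h4⟩ := h
    refine ⟨⟨?_, ?_⟩, ?_, ?_⟩ <;> linarith

theorem TB_rg367 : ROK [.q ⟨-11, -9, 20, 0⟩ ⟨-29, 9, 20, 0⟩, .q ⟨9, 11, -20, 0⟩ ⟨-31, 11, 20, 0⟩, .q ⟨29, -9, -20, 0⟩ ⟨2372, 2347, -800, -3919⟩, .q ⟨31, -11, -20, 0⟩ ⟨2372, 2347, -800, -3919⟩, .q ⟨29, -9, -20, 0⟩ ⟨8704, -13423, 800, 3919⟩, .q ⟨31, -11, -20, 0⟩ ⟨8704, -13423, 800, 3919⟩, .q ⟨29, -9, -20, 0⟩ ⟨2633, 2633, -3667, -1599⟩, .q ⟨31, -11, -20, 0⟩ ⟨2633, 2633, -3667, -1599⟩, .q ⟨29, -9, -20, 0⟩ ⟨1123, 839, -3634, 1672⟩, .q ⟨31, -11, -20, 0⟩ ⟨1123, 839, -3634, 1672⟩] := by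
  refine rok_bs (s := -1) (nlo := 9) (nhi := 11) (q := 20) (by decide) (by decide) (by decide) (by decide) (k := 1) (by decide) (Q := [(-800, 3919, -2347), (800, -3919, 13423), (-3667, 1599, -2633), (-3634, -1672, -839)])
    (P := [⟨-276480, -20, 0⟩, ⟨337920, 20, 0⟩, ⟨-72099840, -800, 3919⟩, ⟨412354560, 800, -3919⟩, ⟨-80885760, -3667, 1599⟩, ⟨-25774080, -3634, -1672⟩]) rfl rfl
    (List.mem_of_getElem? (i := 367) rfl) TB_fr TB_cov ?_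
  · intro X Y h
    simp only [List.forall_mem_cons, List.not_mem_nil, false_imp_iff, implies_true, and_true] at h
    push_cast at h ⊢
    obtain ⟨h0, h1, h2, h3, h4, h5⟩ := h
    refine ⟨⟨?_, ?_⟩, ?_, ?_⟩ <;> linarith

theorem TB_rg368 : ROK [.q ⟨-1, -19, 20, 0⟩ ⟨-39, 19, 20, 0⟩, .q ⟨-1, 21, -20, 0⟩ ⟨-41, 21, 20, 0⟩, .q ⟨39, -19, -20, 0⟩ ⟨3343, 657, 0, -4000⟩, .q ⟨41, -21, -20, 0⟩ ⟨3343, 657, 0, -4000⟩, .q ⟨39, -19, -20, 0⟩ ⟨2966, -3834, -403, 1271⟩, .q ⟨41, -21, -20, 0⟩ ⟨2966, -3834, -403, 1271⟩, .q ⟨39, -19, -20, 0⟩ ⟨2415, -2430, 2836, -2821⟩, .q ⟨41, -21, -20, 0⟩ ⟨2415, -2430, 2836, -2821⟩, .q ⟨39, -19, -20, 0⟩ ⟨-346, -771, 648, 469⟩, .q ⟨41, -21, -20, 0⟩ ⟨-346, -771, 648, 469⟩] := by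
  refine rok_bs (s := -1) (nlo := 19) (nhi := 21) (q := 20) (by decide) (by decide) (by decide) (by decide) (k := 1) (by decide) (Q := [(0, 4000, -657), (-403, -1271, 3834), (2836, 2821, 2430), (648, -469, 771)])
    (P := [⟨-583680, -20, 0⟩, ⟨645120, 20, 0⟩, ⟨-20183040, 0, 4000⟩, ⟨117780480, -403, -1271⟩, ⟨74649600, 2836, 2821⟩, ⟨23685120, 648, -469⟩]) rfl rfl
    (List.mem_of_getElem? (i := 368) rfl) TB_fr TB_cov ?_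
  · intro X Y h
    simp only [List.forall_mem_cons, List.not_mem_nil, false_imp_iff, implies_true, and_true] at h
    push_cast at h ⊢
    obtain ⟨h0, h1, h2, h3, h4, h5⟩ := h
    refine ⟨⟨?_, ?_⟩, ?_, ?_⟩ <;> linarith

theorem TB_rg369 : ROK [.q ⟨-38, -42, 80, 0⟩ ⟨-122, 42, 80, 0⟩, .q ⟨35, 45, -80, 0⟩ ⟨-125, 45, 80, 0⟩, .q ⟨122, -42, -80, 0⟩ ⟨5486, -5298, 1317, -1505⟩, .q ⟨125, -45, -80, 0⟩ ⟨5486, -5298, 1317, -1505⟩, .q ⟨122, -42, -80, 0⟩ ⟨-186, -2, -1317, 1505⟩, .q ⟨125, -45, -80, 0⟩ ⟨-186, -2, -1317, 1505⟩, .q ⟨122, -42, -80, 0⟩ ⟨2492, 2698, -3721, -1469⟩, .q ⟨125, -45, -80, 0⟩ ⟨2492, 2698, -3721, -1469⟩, .q ⟨122, -42, -80, 0⟩ ⟨-2695, -2760, 1979, 3476⟩, .q ⟨125, -45, -80, 0⟩ ⟨-2695, -2760, 1979, 3476⟩] := by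
  refine rok_bs (s := -1) (nlo := 42) (nhi := 45) (q := 80) (by decide) (by decide) (by decide) (by decide) (k := 1) (by decide) (Q := [(1317, 1505, 5298), (-1317, -1505, 2), (-3721, 1469, -2698), (1979, -3476, 2760)])
    (P := [⟨-1290240, -80, 0⟩, ⟨1382400, 80, 0⟩, ⟨162754560, 1317, 1505⟩, ⟨61440, -1317, -1505⟩, ⟨-82882560, -3721, 1469⟩, ⟨84787200, 1979, -3476⟩]) rfl rfl
    (List.mem_of_getElem? (i := 369) rfl) TB_fr TB_cov ?_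
  · intro X Y h
    simp only [List.forall_mem_cons, List.not_mem_nil, false_imp_iff, implies_true, and_true] at h
    push_cast at h ⊢
    obtain ⟨h0, h1, h2, h3, h4, h5⟩ := h
    refine ⟨⟨?_, ?_⟩, ?_, ?_⟩ <;> linarith

theorem TB_rg370 : ROK [.q ⟨-9, -11, 20, 0⟩ ⟨-31, 11, 20, 0⟩, .q ⟨5, 15, -20, 0⟩ ⟨-35, 15, 20, 0⟩, .q ⟨31, -11, -20, 0⟩ ⟨2823, 1132, 45, -4000⟩, .q ⟨35, -15, -20, 0⟩ ⟨2823, 1132, 45, -4000⟩, .q ⟨31, -11, -20, 0⟩ ⟨-981, -4627, 2432, 3176⟩, .q ⟨35, -15, -20, 0⟩ ⟨-981, -4627, 2432, 3176⟩, .q ⟨31, -11, -20, 0⟩ ⟨2643, 2921, -3294, -2270⟩, .q ⟨35, -15, -20, 0⟩ ⟨2643, 2921, -3294, -2270⟩] := by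
  refine rok_bs (s := -1) (nlo := 11) (nhi := 15) (q := 20) (by decide) (by decide) (by decide) (by decide) (k := 1) (by decide) (Q := [(45, 4000, -1132), (2432, -3176, 4627), (-3294, 2270, -2921)])
    (P := [⟨-337920, -20, 0⟩, ⟨460800, 20, 0⟩, ⟨-34775040, 45, 4000⟩, ⟨142141440, 2432, -3176⟩, ⟨-89733120, -3294, 2270⟩]) rfl rfl
    (List.mem_of_getElem? (i := 370) rfl) TB_fr TB_cov ?_
  · intro X Y h
    simp only [List.forall_mem_cons, List.not_mem_nil, false_imp_iff, implies_true, and_true] at h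
    push_cast at h ⊢
    obtain ⟨h0, h1, h2, h3, h4⟩ := h
    refine ⟨⟨?_, ?_⟩, ?_, ?_⟩ <;> linarith

theorem TB_rg371 : ROK [.q ⟨-7, -33, 40, 0⟩ ⟨-73, 33, 40, 0⟩, .q ⟨4, 36, -40, 0⟩ ⟨-76, 36, 40, 0⟩, .q ⟨73, -33, -40, 0⟩ ⟨2011, -11, 0, -2000⟩, .q ⟨76, -36, -40, 0⟩ ⟨2011, -11, 0, -2000⟩, .q ⟨73, -33, -40, 0⟩ ⟨321, -481, 0, 160⟩, .q ⟨76, -36, -40, 0⟩ ⟨321, -481, 0, 160⟩, .q ⟨73, -33, -40, 0⟩ ⟨4048, 838, -1017, -3869⟩, .q ⟨76, -36, -40, 0⟩ ⟨4048, 838, -1017, -3869⟩, .q ⟨73, -33, -40, 0⟩ ⟨-1145, 406, -498, 1237⟩, .q ⟨76, -36, -40, 0⟩ ⟨-1145, 406, -498, 1237⟩] := by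
  refine rok_bs (s := -1) (nlo := 33) (nhi := 36) (q := 40) (by decide) (by decide) (by decide) (by decide) (k := 1) (by decide) (Q := [(0, 2000, 11), (0, -160, 481), (-1017, 3869, -838), (-498, -1237, -406)])
    (P := [⟨-1013760, -40, 0⟩, ⟨1105920, 40, 0⟩, ⟨337920, 0, 2000⟩, ⟨14776320, 0, -160⟩, ⟨-25743360, -1017, 3869⟩, ⟨-12472320, -498, -1237⟩]) rfl rfl
    (List.mem_of_getElem? (i := 371) rfl) TB_fr TB_cov ?_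
  · intro X Y h
    simp only [List.forall_mem_cons, List.not_mem_nil, false_imp_iff, implies_true, and_true] at h
    push_cast at h ⊢
    obtain ⟨h0, h1, h2, h3, h4, h5⟩ := h
    refine ⟨⟨?_, ?_⟩, ?_, ?_⟩ <;> linarith

theorem TB_rg372 : ROK [.q ⟨-443, -517, 960, 0⟩ ⟨-1477, 517, 960, 0⟩, .q ⟨436, 524, -960, 0⟩ ⟨-1484, 524, 960, 0⟩, .q ⟨1477, -517, -960, 0⟩ ⟨11429, -8217, 722, -3934⟩, .q ⟨1484, -524, -960, 0⟩ ⟨11429, -8217, 722, -3934⟩, .q ⟨1477, -517, -960, 0⟩ ⟨-1447, -1161, -1206, 3814⟩, .q ⟨1484, -524, -960, 0⟩ ⟨-1447, -1161, -1206, 3814⟩, .q ⟨1477, -517, -960, 0⟩ ⟨1299, 1387, -1786, -900⟩, .q ⟨1484, -524, -960, 0⟩ ⟨1299, 1387, -1786, -900⟩, .q ⟨1477, -517, -960, 0⟩ ⟨-100, 276, -2915, 2739⟩, .q ⟨1484, -524, -960, 0⟩ ⟨-100, 276, -2915, 2739⟩] := by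
  refine rok_bs (s := -1) (nlo := 517) (nhi := 524) (q := 960) (by decide) (by decide) (by decide) (by decide) (k := 1) (by decide) (Q := [(722, 3934, 8217), (-1206, -3814, 1161), (-1786, 900, -1387), (-2915, -2739, -276)])
    (P := [⟨-15882240, -960, 0⟩, ⟨16097280, 960, 0⟩, ⟨252426240, 722, 3934⟩, ⟨35665920, -1206, -3814⟩, ⟨-42608640, -1786, 900⟩, ⟨-8478720, -2915, -2739⟩]) rfl rfl
    (List.mem_of_getElem? (i := 372) rfl) TB_fr TB_cov ?_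
  · intro X Y h
    simp only [List.forall_mem_cons, List.not_mem_nil, false_imp_iff, implies_true, and_true] at h
    push_cast at h ⊢
    obtain ⟨h0, h1, h2, h3, h4, h5⟩ := h
    refine ⟨⟨?_, ?_⟩, ?_, ?_⟩ <;> linarith

theorem TB_rg373 : ROK [.q ⟨-265, -215, 480, 0⟩ ⟨-695, 215, 480, 0⟩, .q ⟨257, 223, -480, 0⟩ ⟨-703, 223, 480, 0⟩, .q ⟨695, -215, -480, 0⟩ ⟨117, 883, 0, -1000⟩, .q ⟨703, -223, -480, 0⟩ ⟨117, 883, 0, -1000⟩, .q ⟨695, -215, -480, 0⟩ ⟨-149, -1851, 0, 2000⟩, .q ⟨703, -223, -480, 0⟩ ⟨-149, -1851, 0, 2000⟩] := by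
  refine rok_bs (s := -1) (nlo := 215) (nhi := 223) (q := 480) (by decide) (by decide) (by decide) (by decide) (k := 1) (by decide) (Q := [(0, 1000, -883), (0, -2000, 1851)])
    (P := [⟨-6604800, -480, 0⟩, ⟨6850560, 480, 0⟩, ⟨-27125760, 0, 1000⟩, ⟨56862720, 0, -2000⟩]) rfl rfl
    (List.mem_of_getElem? (i := 373) rfl) TB_fr TB_cov ?_
  · intro X Y h
    simp only [List.forall_mem_cons, List.not_mem_nil, false_imp_iff, implies_true, and_true] at h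
    push_cast at h ⊢
    obtain ⟨h0, h1, h2, h3⟩ := h
    refine ⟨⟨?_, ?_⟩, ?_, ?_⟩ <;> linarith

theorem TB_rg374 : ROK [.q ⟨-223, -257, 480, 0⟩ ⟨-737, 257, 480, 0⟩, .q ⟨219, 261, -480, 0⟩ ⟨-741, 261, 480, 0⟩, .q ⟨737, -257, -480, 0⟩ ⟨6225, -3399, -1357, -1469⟩, .q ⟨741, -261, -480, 0⟩ ⟨6225, -3399, -1357, -1469⟩, .q ⟨737, -257, -480, 0⟩ ⟨-816, -469, -2112, 3397⟩, .q ⟨741, -261, -480, 0⟩ ⟨-816, -469, -2112, 3397⟩, .q ⟨737, -257, -480, 0⟩ ⟨2527, 2724, -3677, -1574⟩, .q ⟨741, -261, -480, 0⟩ ⟨2527, 2724, -3677, -1574⟩] := by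
  refine rok_bs (s := -1) (nlo := 257) (nhi := 261) (q := 480) (by decide) (by decide) (by decide) (by decide) (k := 1) (by decide) (Q := [(-1357, 1469, 3399), (-2112, -3397, 469), (-3677, 1574, -2724)])
    (P := [⟨-7895040, -480, 0⟩, ⟨8017920, 480, 0⟩, ⟨104417280, -1357, 1469⟩, ⟨14407680, -2112, -3397⟩, ⟨-83681280, -3677, 1574⟩]) rfl rfl
    (List.mem_of_getElem? (i := 374) rfl) TB_fr TB_cov ?_
  · intro X Y h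
    simp only [List.forall_mem_cons, List.not_mem_nil, false_imp_iff, implies_true, and_true] at h
    push_cast at h ⊢
    obtain ⟨h0, h1, h2, h3, h4⟩ := h
    refine ⟨⟨?_, ?_⟩, ?_, ?_⟩ <;> linarith

theorem TB_rg375 : ROK [.q ⟨-13, -67, 80, 0⟩ ⟨-147, 67, 80, 0⟩, .q ⟨11, 69, -80, 0⟩ ⟨-149, 69, 80, 0⟩, .q ⟨147, -67, -80, 0⟩ ⟨3928, -359, 410, -3979⟩, .q ⟨149, -69, -80, 0⟩ ⟨3928, -359, 410, -3979⟩, .q ⟨147, -67, -80, 0⟩ ⟨-3865, 296, -410, 3979⟩, .q ⟨149, -69, -80, 0⟩ ⟨-3865, 296, -410, 3979⟩, .q ⟨147, -67, -80, 0⟩ ⟨-2677, 2087, -2518, 3108⟩, .q ⟨149, -69, -80, 0⟩ ⟨-2677, 2087, -2518, 3108⟩] := by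
  refine rok_bs (s := -1) (nlo := 67) (nhi := 69) (q := 80) (by decide) (by decide) (by decide) (by decide) (k := 1) (by decide) (Q := [(410, 3979, 359), (-410, -3979, -296), (-2518, -3108, -2087)])
    (P := [⟨-2058240, -80, 0⟩, ⟨2119680, 80, 0⟩, ⟨11028480, 410, 3979⟩, ⟨-9093120, -410, -3979⟩, ⟨-64112640, -2518, -3108⟩]) rfl rfl
    (List.mem_of_getElem? (i := 375) rfl) TB_fr TB_cov ?_
  · intro X Y h
    simp only [List.forall_mem_cons, List.not_mem_nil, false_imp_iff, implies_true, and_true] at h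
    push_cast at h ⊢
    obtain ⟨h0, h1, h2, h3, h4⟩ := h
    refine ⟨⟨?_, ?_⟩, ?_, ?_⟩ <;> linarith

theorem TB_rg376 : ROK [.q ⟨-532, -428, 960, 0⟩ ⟨-1388, 428, 960, 0⟩, .q ⟨525, 435, -960, 0⟩ ⟨-1395, 435, 960, 0⟩, .q ⟨1388, -428, -960, 0⟩ ⟨-691, 2197, 1973, -3479⟩, .q ⟨1395, -435, -960, 0⟩ ⟨-691, 2197, 1973, -3479⟩, .q ⟨1388, -428, -960, 0⟩ ⟨815, -2321, -1973, 3479⟩, .q ⟨1395, -435, -960, 0⟩ ⟨815, -2321, -1973, 3479⟩] := by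
  refine rok_bs (s := -1) (nlo := 428) (nhi := 435) (q := 960) (by decide) (by decide) (by decide) (by decide) (k := 1) (by decide) (Q := [(1973, 3479, -2197), (-1973, -3479, 2321)])
    (P := [⟨-13148160, -960, 0⟩, ⟨13363200, 960, 0⟩, ⟨-67491840, 1973, 3479⟩, ⟨71301120, -1973, -3479⟩]) rfl rfl
    (List.mem_of_getElem? (i := 376) rfl) TB_fr TB_cov ?_
  · intro X Y h
    simp only [List.forall_mem_cons, List.not_mem_nil, false_imp_iff, implies_true, and_true] at h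
    push_cast at h ⊢
    obtain ⟨h0, h1, h2, h3⟩ := h
    refine ⟨⟨?_, ?_⟩, ?_, ?_⟩ <;> linarith

theorem TB_rg377 : ROK [.q ⟨-5, -35, 40, 0⟩ ⟨-75, 35, 40, 0⟩, .q ⟨2, 38, -40, 0⟩ ⟨-78, 38, 40, 0⟩, .q ⟨75, -35, -40, 0⟩ ⟨4060, 185, -253, -3992⟩, .q ⟨78, -38, -40, 0⟩ ⟨4060, 185, -253, -3992⟩, .q ⟨75, -35, -40, 0⟩ ⟨-486, -293, 282, 497⟩, .q ⟨78, -38, -40, 0⟩ ⟨-486, -293, 282, 497⟩, .q ⟨75, -35, -40, 0⟩ ⟨-3282, 1351, -1693, 3624⟩, .q ⟨78, -38, -40, 0⟩ ⟨-3282, 1351, -1693, 3624⟩] := by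
  refine rok_bs (s := -1) (nlo := 35) (nhi := 38) (q := 40) (by decide) (by decide) (by decide) (by decide) (k := 1) (by decide) (Q := [(-253, 3992, -185), (282, -497, 293), (-1693, -3624, -1351)])
    (P := [⟨-1075200, -40, 0⟩, ⟨1167360, 40, 0⟩, ⟨-5683200, -253, 3992⟩, ⟨9000960, 282, -497⟩, ⟨-41502720, -1693, -3624⟩]) rfl rfl
    (List.mem_of_getElem? (i := 377) rfl) TB_fr TB_cov ?_
  · intro X Y h
    simp only [List.forall_mem_cons, List.not_mem_nil, false_imp_iff, implies_true, and_true] at h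
    push_cast at h ⊢
    obtain ⟨h0, h1, h2, h3, h4⟩ := h
    refine ⟨⟨?_, ?_⟩, ?_, ?_⟩ <;> linarith

theorem TB_rg378 : ROK [.q ⟨-222, -258, 480, 0⟩ ⟨-738, 258, 480, 0⟩, .q ⟨217, 263, -480, 0⟩ ⟨-743, 263, 480, 0⟩, .q ⟨738, -258, -480, 0⟩ ⟨12799, -11602, 2166, -3363⟩, .q ⟨743, -263, -480, 0⟩ ⟨12799, -11602, 2166, -3363⟩, .q ⟨738, -258, -480, 0⟩ ⟨9395, -14502, 1338, 3769⟩, .q ⟨743, -263, -480, 0⟩ ⟨9395, -14502, 1338, 3769⟩, .q ⟨738, -258, -480, 0⟩ ⟨2507, 2710, -3702, -1515⟩, .q ⟨743, -263, -480, 0⟩ ⟨2507, 2710, -3702, -1515⟩, .q ⟨738, -258, -480, 0⟩ ⟨-268, -88, -1225, 1581⟩, .q ⟨743, -263, -480, 0⟩ ⟨-268, -88, -1225, 1581⟩] := by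
  refine rok_bs (s := -1) (nlo := 258) (nhi := 263) (q := 480) (by decide) (by decide) (by decide) (by decide) (k := 1) (by decide) (Q := [(2166, 3363, 11602), (1338, -3769, 14502), (-3702, 1515, -2710), (-1225, -1581, 88)])
    (P := [⟨-7925760, -480, 0⟩, ⟨8079360, 480, 0⟩, ⟨356413440, 2166, 3363⟩, ⟨445501440, 1338, -3769⟩, ⟨-83251200, -3702, 1515⟩, ⟨2703360, -1225, -1581⟩]) rfl rfl
    (List.mem_of_getElem? (i := 378) rfl) TB_fr TB_cov ?_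
  · intro X Y h
    simp only [List.forall_mem_cons, List.not_mem_nil, false_imp_iff, implies_true, and_true] at h
    push_cast at h ⊢
    obtain ⟨h0, h1, h2, h3, h4, h5⟩ := h
    refine ⟨⟨?_, ?_⟩, ?_, ?_⟩ <;> linarith

theorem TB_rg379 : ROK [.q ⟨-7, -13, 20, 0⟩ ⟨-33, 13, 20, 0⟩, .q ⟨4, 16, -20, 0⟩ ⟨-36, 16, 20, 0⟩, .q ⟨33, -13, -20, 0⟩ ⟨1479, 521, 0, -2000⟩, .q ⟨36, -16, -20, 0⟩ ⟨1479, 521, 0, -2000⟩, .q ⟨33, -13, -20, 0⟩ ⟨901, -1315, -2614, 3028⟩, .q ⟨36, -16, -20, 0⟩ ⟨901, -1315, -2614, 3028⟩, .q ⟨33, -13, -20, 0⟩ ⟨2326, 2996, -3619, -1703⟩, .q ⟨36, -16, -20, 0⟩ ⟨2326, 2996, -3619, -1703⟩] := by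
  refine rok_bs (s := -1) (nlo := 13) (nhi := 16) (q := 20) (by decide) (by decide) (by decide) (by decide) (k := 1) (by decide) (Q := [(0, 2000, -521), (-2614, -3028, 1315), (-3619, 1703, -2996)])
    (P := [⟨-399360, -20, 0⟩, ⟨491520, 20, 0⟩, ⟨-16005120, 0, 2000⟩, ⟨40396800, -2614, -3028⟩, ⟨-92037120, -3619, 1703⟩]) rfl rfl
    (List.mem_of_getElem? (i := 379) rfl) TB_fr TB_cov ?_
  · intro X Y h
    simp only [List.forall_mem_cons, List.not_mem_nil, false_imp_iff, implies_true, and_true] at h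
    push_cast at h ⊢
    obtain ⟨h0, h1, h2, h3, h4⟩ := h
    refine ⟨⟨?_, ?_⟩, ?_, ?_⟩ <;> linarith

theorem TB_rg380 : ROK [.q ⟨-1, -95, 96, 0⟩ ⟨-191, 95, 96, 0⟩, .q ⟨0, 96, -96, 0⟩ ⟨-192, 96, 96, 0⟩, .q ⟨191, -95, -96, 0⟩ ⟨15691, -11691, 0, -4000⟩, .q ⟨192, -96, -96, 0⟩ ⟨15691, -11691, 0, -4000⟩, .q ⟨191, -95, -96, 0⟩ ⟨-3717, -283, 0, 4000⟩, .q ⟨192, -96, -96, 0⟩ ⟨-3717, -283, 0, 4000⟩, .q ⟨191, -95, -96, 0⟩ ⟨2354, -2931, 3102, -2525⟩, .q ⟨192, -96, -96, 0⟩ ⟨2354, -2931, 3102, -2525⟩, .q ⟨191, -95, -96, 0⟩ ⟨-1600, -3729, 3613, 1716⟩, .q ⟨192, -96, -96, 0⟩ ⟨-1600, -3729, 3613, 1716⟩] := by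
  refine rok_bs (s := -1) (nlo := 95) (nhi := 96) (q := 96) (by decide) (by decide) (by decide) (by decide) (k := 1) (by decide) (Q := [(0, 4000, 11691), (0, -4000, 283), (3102, 2525, 2931), (3613, -1716, 3729)])
    (P := [⟨-2918400, -96, 0⟩, ⟨2949120, 96, 0⟩, ⟨359147520, 0, 4000⟩, ⟨8693760, 0, -4000⟩, ⟨90040320, 3102, 2525⟩, ⟨114554880, 3613, -1716⟩]) rfl rfl
    (List.mem_of_getElem? (i := 380) rfl) TB_fr TB_cov ?_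
  · intro X Y h
    simp only [List.forall_mem_cons, List.not_mem_nil, false_imp_iff, implies_true, and_true] at h
    push_cast at h ⊢
    obtain ⟨h0, h1, h2, h3, h4, h5⟩ := h
    refine ⟨⟨?_, ?_⟩, ?_, ?_⟩ <;> linarith

theorem TB_rg381 : ROK [.q ⟨-3, -17, 20, 0⟩ ⟨-37, 17, 20, 0⟩, .q ⟨2, 18, -20, 0⟩ ⟨-38, 18, 20, 0⟩, .q ⟨37, -17, -20, 0⟩ ⟨4066, 488, -599, -3955⟩, .q ⟨38, -18, -20, 0⟩ ⟨4066, 488, -599, -3955⟩, .q ⟨37, -17, -20, 0⟩ ⟨-3077, 1688, -2047, 3436⟩, .q ⟨38, -18, -20, 0⟩ ⟨-3077, 1688, -2047, 3436⟩, .q ⟨37, -17, -20, 0⟩ ⟨3562, -1449, 1567, -3680⟩, .q ⟨38, -18, -20, 0⟩ ⟨3562, -1449, 1567, -3680⟩] := by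
  refine rok_bs (s := -1) (nlo := 17) (nhi := 18) (q := 20) (by decide) (by decide) (by decide) (by decide) (k := 1) (by decide) (Q := [(-599, 3955, -488), (-2047, -3436, -1688), (1567, 3680, 1449)])
    (P := [⟨-522240, -20, 0⟩, ⟨552960, 20, 0⟩, ⟨-14991360, -599, 3955⟩, ⟨-51855360, -2047, -3436⟩, ⟨44513280, 1567, 3680⟩]) rfl rfl
    (List.mem_of_getElem? (i := 381) rfl) TB_fr TB_cov ?_
  · intro X Y h
    simp only [List.forall_mem_cons, List.not_mem_nil, false_imp_iff, implies_true, and_true] at h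
    push_cast at h ⊢
    obtain ⟨h0, h1, h2, h3, h4⟩ := h
    refine ⟨⟨?_, ?_⟩, ?_, ?_⟩ <;> linarith

theorem TB_rg382 : ROK [.q ⟨-534, -426, 960, 0⟩ ⟨-1386, 426, 960, 0⟩, .q ⟨527, 433, -960, 0⟩ ⟨-1393, 433, 960, 0⟩, .q ⟨1386, -426, -960, 0⟩ ⟨11801, -7801, 0, -4000⟩, .q ⟨1393, -433, -960, 0⟩ ⟨11801, -7801, 0, -4000⟩, .q ⟨1386, -426, -960, 0⟩ ⟨11283, -15912, 689, 3940⟩, .q ⟨1393, -433, -960, 0⟩ ⟨11283, -15912, 689, 3940⟩, .q ⟨1386, -426, -960, 0⟩ ⟨-1537, 635, 3243, -2341⟩, .q ⟨1393, -433, -960, 0⟩ ⟨-1537, 635, 3243, -2341⟩, .q ⟨1386, -426, -960, 0⟩ ⟨197, -3134, -949, 3886⟩, .q ⟨1393, -433, -960, 0⟩ ⟨197, -3134, -949, 3886⟩] := by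
  refine rok_bs (s := -1) (nlo := 426) (nhi := 433) (q := 960) (by decide) (by decide) (by decide) (by decide) (k := 1) (by decide) (Q := [(0, 4000, 7801), (689, -3940, 15912), (3243, 2341, -635), (-949, -3886, 3134)])
    (P := [⟨-13086720, -960, 0⟩, ⟨13301760, 960, 0⟩, ⟨239646720, 0, 4000⟩, ⟨488816640, 689, -3940⟩, ⟨-19507200, 3243, 2341⟩, ⟨96276480, -949, -3886⟩]) rfl rfl
    (List.mem_of_getElem? (i := 382) rfl) TB_fr TB_cov ?_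
  · intro X Y h
    simp only [List.forall_mem_cons, List.not_mem_nil, false_imp_iff, implies_true, and_true] at h
    push_cast at h ⊢
    obtain ⟨h0, h1, h2, h3, h4, h5⟩ := h
    refine ⟨⟨?_, ?_⟩, ?_, ?_⟩ <;> linarith

theorem TB_rg383 : ROK [.q ⟨-221, -259, 480, 0⟩ ⟨-739, 259, 480, 0⟩, .q ⟨218, 262, -480, 0⟩ ⟨-742, 262, 480, 0⟩, .q ⟨739, -259, -480, 0⟩ ⟨3011, 989, 0, -4000⟩, .q ⟨742, -262, -480, 0⟩ ⟨3011, 989, 0, -4000⟩, .q ⟨739, -259, -480, 0⟩ ⟨-557, -199, -2425, 3181⟩, .q ⟨742, -262, -480, 0⟩ ⟨-557, -199, -2425, 3181⟩] := by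
  refine rok_bs (s := -1) (nlo := 259) (nhi := 262) (q := 480) (by decide) (by decide) (by decide) (by decide) (k := 1) (by decide) (Q := [(0, 4000, -989), (-2425, -3181, 199)])
    (P := [⟨-7956480, -480, 0⟩, ⟨8048640, 480, 0⟩, ⟨-30382080, 0, 4000⟩, ⟨6113280, -2425, -3181⟩]) rfl rfl
    (List.mem_of_getElem? (i := 383) rfl) TB_fr TB_cov ?_
  · intro X Y h
    simp only [List.forall_mem_cons, List.not_mem_nil, false_imp_iff, implies_true, and_true] at h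
    push_cast at h ⊢
    obtain ⟨h0, h1, h2, h3⟩ := h
    refine ⟨⟨?_, ?_⟩, ?_, ?_⟩ <;> linarith

end Pool.Agent.TET
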