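import Pool.Agent.Helper38_TET.TB_C

/-!
# MP_c7c9bf_co: certificates, family TB
-/

set_option autoImplicit false
set_option maxRecDepth 100000

namespace Pool.Agent.TET

theorem TB_rg384 : ROK [.q ⟨-80, -400, 480, 0⟩ ⟨-880, 400, 480, 0⟩, .q ⟨73, 407, -480, 0⟩ ⟨-887, 407, 480, 0⟩, .q ⟨880, -400, -480, 0⟩ ⟨4063, 370, -460, -3973⟩, .q ⟨887, -407, -480, 0⟩ ⟨4063, 370, -460, -3973⟩, .q ⟨880, -400, -480, 0⟩ ⟨-3555, 1021, -1262, 3796⟩, .q ⟨887, -407, -480, 0⟩ ⟨-3555, 1021, -1262, 3796⟩] := by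
  refine rok_bs (s := -1) (nlo := 400) (nhi := 407) (q := 480) (by decide) (by decide) (by decide) (by decide) (k := 1) (by decide) (Q := [(-460, 3973, -370), (-1262, -3796, -1021)])
    (P := [⟨-12288000, -480, 0⟩, ⟨12503040, 480, 0⟩, ⟨-11366400, -460, 3973⟩, ⟨-31365120, -1262, -3796⟩]) rfl rfl
    (List.mem_of_getElem? (i := 384) rfl) TB_fr TB_cov ?_
  · intro X Y h
    simp only [List.forall_mem_cons, List.not_mem_nil, false_imp_iff, implies_true, and_true] at h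
    push_cast at h ⊢
    obtain ⟨h0, h1, h2, h3⟩ := h
    refine ⟨⟨?_, ?_⟩, ?_, ?_⟩ <;> linarith

theorem TB_rg385 : ROK [.q ⟨-13, -947, 960, 0⟩ ⟨-1907, 947, 960, 0⟩, .q ⟨2, 958, -960, 0⟩ ⟨-1918, 958, 960, 0⟩, .q ⟨1907, -947, -960, 0⟩ ⟨3751, 1542, -1649, -3644⟩, .q ⟨1918, -958, -960, 0⟩ ⟨3751, 1542, -1649, -3644⟩, .q ⟨1907, -947, -960, 0⟩ ⟨-902, 160, -231, 973⟩, .q ⟨1918, -958, -960, 0⟩ ⟨-902, 160, -231, 973⟩] := by
  refine rok_bs (s := -1) (nlo := 947) (nhi := 958) (q := 960) (by decide) (by decide) (by decide) (by decide) (k := 1) (by decide) (Q := [(-1649, 3644, -1542), (-231, -973, -160)])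
    (P := [⟨-29091840, -960, 0⟩, ⟨29429760, 960, 0⟩, ⟨-47370240, -1649, 3644⟩, ⟨-4915200, -231, -973⟩]) rfl rfl
    (List.mem_of_getElem? (i := 385) rfl) TB_fr TB_cov ?_
  · intro X Y h
    simp only [List.forall_mem_cons, List.not_mem_nil, false_imp_iff, implies_true, and_true] at h
    push_cast at h ⊢
    obtain ⟨h0, h1, h2, h3⟩ := h
    refine ⟨⟨?_, ?_⟩, ?_, ?_⟩ <;> linarith

theorem TB_rg386 : ROK [.q ⟨-7, -33, 40, 0⟩ ⟨-73, 33, 40, 0⟩, .q ⟨5, 35, -40, 0⟩ ⟨-75, 35, 40, 0⟩, .q ⟨73, -33, -40, 0⟩ ⟨3926, 1368, -1651, -3643⟩, .q ⟨75, -35, -40, 0⟩ ⟨3926, 1368, -1651, -3643⟩, .q ⟨73, -33, -40, 0⟩ ⟨-3559, 1015, -1254, 3798⟩, .q ⟨75, -35, -40, 0⟩ ⟨-3559, 1015, -1254, 3798⟩, .q ⟨73, -33, -40, 0⟩ ⟨4060, 289, -366, -3983⟩, .q ⟨75, -35, -40, 0⟩ ⟨4060, 289, -366, -3983⟩] := by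
  refine rok_bs (s := -1) (nlo := 33) (nhi := 35) (q := 40) (by decide) (by decide) (by decide) (by decide) (k := 1) (by decide) (Q := [(-1651, 3643, -1368), (-1254, -3798, -1015), (-366, 3983, -289)])
    (P := [⟨-1013760, -40, 0⟩, ⟨1075200, 40, 0⟩, ⟨-42024960, -1651, 3643⟩, ⟨-31180800, -1254, -3798⟩, ⟨-8878080, -366, 3983⟩]) rfl rfl
    (List.mem_of_getElem? (i := 386) rfl) TB_fr TB_cov ?_
  · intro X Y h
    simp only [List.forall_mem_cons, List.not_mem_nil, false_imp_iff, implies_true, and_true] at h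
    push_cast at h ⊢
    obtain ⟨h0, h1, h2, h3, h4⟩ := h
    refine ⟨⟨?_, ?_⟩, ?_, ?_⟩ <;> linarith

theorem TB_rg387 : ROK [.q ⟨-533, -427, 960, 0⟩ ⟨-1387, 427, 960, 0⟩, .q ⟨525, 435, -960, 0⟩ ⟨-1395, 435, 960, 0⟩, .q ⟨1387, -427, -960, 0⟩ ⟨-354, 2675, 1419, -3740⟩, .q ⟨1395, -435, -960, 0⟩ ⟨-354, 2675, 1419, -3740⟩, .q ⟨1387, -427, -960, 0⟩ ⟨313, -3016, -1133, 3836⟩, .q ⟨1395, -435, -960, 0⟩ ⟨313, -3016, -1133, 3836⟩] := by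
  refine rok_bs (s := -1) (nlo := 427) (nhi := 435) (q := 960) (by decide) (by decide) (by decide) (by decide) (k := 1) (by decide) (Q := [(1419, 3740, -2675), (-1133, -3836, 3016)])
    (P := [⟨-13117440, -960, 0⟩, ⟨13363200, 960, 0⟩, ⟨-82176000, 1419, 3740⟩, ⟨92651520, -1133, -3836⟩]) rfl rfl
    (List.mem_of_getElem? (i := 387) rfl) TB_fr TB_cov ?_
  · intro X Y h
    simp only [List.forall_mem_cons, List.not_mem_nil, false_imp_iff, implies_true, and_true] at h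
    push_cast at h ⊢
    obtain ⟨h0, h1, h2, h3⟩ := h
    refine ⟨⟨?_, ?_⟩, ?_, ?_⟩ <;> linarith

theorem TB_rg388 : ROK [.q ⟨-11, -29, 40, 0⟩ ⟨-69, 29, 40, 0⟩, .q ⟨8, 32, -40, 0⟩ ⟨-72, 32, 40, 0⟩, .q ⟨69, -29, -40, 0⟩ ⟨601, 199, 0, -800⟩, .q ⟨72, -32, -40, 0⟩ ⟨601, 199, 0, -800⟩, .q ⟨69, -29, -40, 0⟩ ⟨878, -1599, -2445, 3166⟩, .q ⟨72, -32, -40, 0⟩ ⟨878, -1599, -2445, 3166⟩, .q ⟨69, -29, -40, 0⟩ ⟨1987, -795, 2169, -3361⟩, .q ⟨72, -32, -40, 0⟩ ⟨1987, -795, 2169, -3361⟩] := by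
  refine rok_bs (s := -1) (nlo := 29) (nhi := 32) (q := 40) (by decide) (by decide) (by decide) (by decide) (k := 1) (by decide) (Q := [(0, 800, -199), (-2445, -3166, 1599), (2169, 3361, 795)])
    (P := [⟨-890880, -40, 0⟩, ⟨983040, 40, 0⟩, ⟨-6113280, 0, 800⟩, ⟨49121280, -2445, -3166⟩, ⟨24422400, 2169, 3361⟩]) rfl rfl
    (List.mem_of_getElem? (i := 388) rfl) TB_fr TB_cov ?_
  · intro X Y h
    simp only [List.forall_mem_cons, List.not_mem_nil, false_imp_iff, implies_true, and_true] at h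
    push_cast at h ⊢
    obtain ⟨h0, h1, h2, h3, h4⟩ := h
    refine ⟨⟨?_, ?_⟩, ?_, ?_⟩ <;> linarith

theorem TB_rg389 : ROK [.q ⟨-8, -32, 40, 0⟩ ⟨-72, 32, 40, 0⟩, .q ⟨5, 35, -40, 0⟩ ⟨-75, 35, 40, 0⟩, .q ⟨72, -32, -40, 0⟩ ⟨1007, -7, 0, -1000⟩, .q ⟨75, -35, -40, 0⟩ ⟨1007, -7, 0, -1000⟩, .q ⟨72, -32, -40, 0⟩ ⟨5472, -5936, -2587, 3051⟩, .q ⟨75, -35, -40, 0⟩ ⟨5472, -5936, -2587, 3051⟩, .q ⟨72, -32, -40, 0⟩ ⟨4067, 554, -679, -3942⟩, .q ⟨75, -35, -40, 0⟩ ⟨4067, 554, -679, -3942⟩, .q ⟨72, -32, -40, 0⟩ ⟨-3534, 1058, -1305, 3781⟩, .q ⟨75, -35, -40, 0⟩ ⟨-3534, 1058, -1305, 3781⟩] := by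
  refine rok_bs (s := -1) (nlo := 32) (nhi := 35) (q := 40) (by decide) (by decide) (by decide) (by decide) (k := 1) (by decide) (Q := [(0, 1000, 7), (-2587, -3051, 5936), (-679, 3942, -554), (-1305, -3781, -1058)])
    (P := [⟨-983040, -40, 0⟩, ⟨1075200, 40, 0⟩, ⟨215040, 0, 1000⟩, ⟨182353920, -2587, -3051⟩, ⟨-17018880, -679, 3942⟩, ⟨-32501760, -1305, -3781⟩]) rfl rfl
    (List.mem_of_getElem? (i := 389) rfl) TB_fr TB_cov ?_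
  · intro X Y h
    simp only [List.forall_mem_cons, List.not_mem_nil, false_imp_iff, implies_true, and_true] at h
    push_cast at h ⊢
    obtain ⟨h0, h1, h2, h3, h4, h5⟩ := h
    refine ⟨⟨?_, ?_⟩, ?_, ?_⟩ <;> linarith

theorem TB_rg390 : ROK [.q ⟨-535, -425, 960, 0⟩ ⟨-1385, 425, 960, 0⟩, .q ⟨529, 431, -960, 0⟩ ⟨-1391, 431, 960, 0⟩, .q ⟨1385, -425, -960, 0⟩ ⟨229, 1771, 0, -2000⟩, .q ⟨1391, -431, -960, 0⟩ ⟨229, 1771, 0, -2000⟩, .q ⟨1385, -425, -960, 0⟩ ⟨766, -2356, -1919, 3509⟩, .q ⟨1391, -431, -960, 0⟩ ⟨766, -2356, -1919, 3509⟩] := by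
  refine rok_bs (s := -1) (nlo := 425) (nhi := 431) (q := 960) (by decide) (by decide) (by decide) (by decide) (k := 1) (by decide) (Q := [(0, 2000, -1771), (-1919, -3509, 2356)])
    (P := [⟨-13056000, -960, 0⟩, ⟨13240320, 960, 0⟩, ⟨-54405120, 0, 2000⟩, ⟨72376320, -1919, -3509⟩]) rfl rfl
    (List.mem_of_getElem? (i := 390) rfl) TB_fr TB_cov ?_
  · intro X Y h
    simp only [List.forall_mem_cons, List.not_mem_nil, false_imp_iff, implies_true, and_true] at h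
    push_cast at h ⊢
    obtain ⟨h0, h1, h2, h3⟩ := h
    refine ⟨⟨?_, ?_⟩, ?_, ?_⟩ <;> linarith

theorem TB_rg391 : ROK [.q ⟨-2, -18, 20, 0⟩ ⟨-38, 18, 20, 0⟩, .q ⟨1, 19, -20, 0⟩ ⟨-39, 19, 20, 0⟩, .q ⟨38, -18, -20, 0⟩ ⟨3275, 1653, -1075, -3853⟩, .q ⟨39, -19, -20, 0⟩ ⟨3275, 1653, -1075, -3853⟩, .q ⟨38, -18, -20, 0⟩ ⟨604, -5532, 1075, 3853⟩, .q ⟨39, -19, -20, 0⟩ ⟨604, -5532, 1075, 3853⟩, .q ⟨38, -18, -20, 0⟩ ⟨2627, 3028, -2743, -2912⟩, .q ⟨39, -19, -20, 0⟩ ⟨2627, 3028, -2743, -2912⟩] := by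
  refine rok_bs (s := -1) (nlo := 18) (nhi := 19) (q := 20) (by decide) (by decide) (by decide) (by decide) (k := 1) (by decide) (Q := [(-1075, 3853, -1653), (1075, -3853, 5532), (-2743, 2912, -3028)])
    (P := [⟨-552960, -20, 0⟩, ⟨583680, 20, 0⟩, ⟨-50780160, -1075, 3853⟩, ⟨169943040, 1075, -3853⟩, ⟨-93020160, -2743, 2912⟩]) rfl rfl
    (List.mem_of_getElem? (i := 391) rfl) TB_fr TB_cov ?_
  · intro X Y h
    simp only [List.forall_mem_cons, List.not_mem_nil, false_imp_iff, implies_true, and_true] at h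
    push_cast at h ⊢
    obtain ⟨h0, h1, h2, h3, h4⟩ := h
    refine ⟨⟨?_, ?_⟩, ?_, ?_⟩ <;> linarith

theorem TB_rg392 : ROK [.q ⟨-11, -949, 960, 0⟩ ⟨-1909, 949, 960, 0⟩, .q ⟨3, 957, -960, 0⟩ ⟨-1917, 957, 960, 0⟩, .q ⟨1909, -949, -960, 0⟩ ⟨15352, -13528, 1765, -3589⟩, .q ⟨1917, -957, -960, 0⟩ ⟨15352, -13528, 1765, -3589⟩, .q ⟨1909, -949, -960, 0⟩ ⟨-3322, 1498, -1765, 3589⟩, .q ⟨1917, -957, -960, 0⟩ ⟨-3322, 1498, -1765, 3589⟩, .q ⟨1909, -949, -960, 0⟩ ⟨3179, -2601, 2525, -3103⟩, .q ⟨1917, -957, -960, 0⟩ ⟨3179, -2601, 2525, -3103⟩] := by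
  refine rok_bs (s := -1) (nlo := 949) (nhi := 957) (q := 960) (by decide) (by decide) (by decide) (by decide) (k := 1) (by decide) (Q := [(1765, 3589, 13528), (-1765, -3589, -1498), (2525, 3103, 2601)])
    (P := [⟨-29153280, -960, 0⟩, ⟨29399040, 960, 0⟩, ⟨415580160, 1765, 3589⟩, ⟨-46018560, -1765, -3589⟩, ⟨79902720, 2525, 3103⟩]) rfl rfl
    (List.mem_of_getElem? (i := 392) rfl) TB_fr TB_cov ?_
  · intro X Y h
    simp only [List.forall_mem_cons, List.not_mem_nil, false_imp_iff, implies_true, and_true] at h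
    push_cast at h ⊢
    obtain ⟨h0, h1, h2, h3, h4⟩ := h
    refine ⟨⟨?_, ?_⟩, ?_, ?_⟩ <;> linarith

theorem TB_rg393 : ROK [.q ⟨-178, -142, 320, 0⟩ ⟨-462, 142, 320, 0⟩, .q ⟨175, 145, -320, 0⟩ ⟨-465, 145, 320, 0⟩, .q ⟨462, -142, -320, 0⟩ ⟨-915, 1857, 2318, -3260⟩, .q ⟨465, -145, -320, 0⟩ ⟨-915, 1857, 2318, -3260⟩, .q ⟨462, -142, -320, 0⟩ ⟨506, -977, -1159, 1630⟩, .q ⟨465, -145, -320, 0⟩ ⟨506, -977, -1159, 1630⟩] := by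
  refine rok_bs (s := -1) (nlo := 142) (nhi := 145) (q := 320) (by decide) (by decide) (by decide) (by decide) (k := 1) (by decide) (Q := [(2318, 3260, -1857), (-1159, -1630, 977)])
    (P := [⟨-4362240, -320, 0⟩, ⟨4454400, 320, 0⟩, ⟨-57047040, 2318, 3260⟩, ⟨30013440, -1159, -1630⟩]) rfl rfl
    (List.mem_of_getElem? (i := 393) rfl) TB_fr TB_cov ?_
  · intro X Y h
    simp only [List.forall_mem_cons, List.not_mem_nil, false_imp_iff, implies_true, and_true] at h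
    push_cast at h ⊢
    obtain ⟨h0, h1, h2, h3⟩ := h
    refine ⟨⟨?_, ?_⟩, ?_, ?_⟩ <;> linarith

theorem TB_rg394 : ROK [.q ⟨-13, -67, 80, 0⟩ ⟨-147, 67, 80, 0⟩, .q ⟨10, 70, -80, 0⟩ ⟨-150, 70, 80, 0⟩, .q ⟨147, -67, -80, 0⟩ ⟨1343, 320, -387, -1276⟩, .q ⟨150, -70, -80, 0⟩ ⟨1343, 320, -387, -1276⟩, .q ⟨147, -67, -80, 0⟩ ⟨-3978, -137, 117, 3998⟩, .q ⟨150, -70, -80, 0⟩ ⟨-3978, -137, 117, 3998⟩, .q ⟨147, -67, -80, 0⟩ ⟨4017, -54, 37, -4000⟩, .q ⟨150, -70, -80, 0⟩ ⟨4017, -54, 37, -4000⟩] := by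
  refine rok_bs (s := -1) (nlo := 67) (nhi := 70) (q := 80) (by decide) (by decide) (by decide) (by decide) (k := 1) (by decide) (Q := [(-387, 1276, -320), (117, -3998, 137), (37, 4000, 54)])
    (P := [⟨-2058240, -80, 0⟩, ⟨2150400, 80, 0⟩, ⟨-9830400, -387, 1276⟩, ⟨4208640, 117, -3998⟩, ⟨1658880, 37, 4000⟩]) rfl rfl
    (List.mem_of_getElem? (i := 394) rfl) TB_fr TB_cov ?_
  · intro X Y h
    simp only [List.forall_mem_cons, List.not_mem_nil, false_imp_iff, implies_true, and_true] at h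
    push_cast at h ⊢
    obtain ⟨h0, h1, h2, h3, h4⟩ := h
    refine ⟨⟨?_, ?_⟩, ?_, ?_⟩ <;> linarith

theorem TB_rg395 : ROK [.q ⟨-9, -951, 960, 0⟩ ⟨-1911, 951, 960, 0⟩, .q ⟨2, 958, -960, 0⟩ ⟨-1918, 958, 960, 0⟩, .q ⟨1911, -951, -960, 0⟩ ⟨12378, -12007, 2637, -3008⟩, .q ⟨1918, -958, -960, 0⟩ ⟨12378, -12007, 2637, -3008⟩, .q ⟨1911, -951, -960, 0⟩ ⟨-2778, 2407, -2637, 3008⟩, .q ⟨1918, -958, -960, 0⟩ ⟨-2778, 2407, -2637, 3008⟩, .q ⟨1911, -951, -960, 0⟩ ⟨2902, 2755, -2857, -2800⟩, .q ⟨1918, -958, -960, 0⟩ ⟨2902, 2755, -2857, -2800⟩, .q ⟨1911, -951, -960, 0⟩ ⟨-3133, -2392, 2154, 3371⟩, .q ⟨1918, -958, -960, 0⟩ ⟨-3133, -2392, 2154, 3371⟩] := by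
  refine rok_bs (s := -1) (nlo := 951) (nhi := 958) (q := 960) (by decide) (by decide) (by decide) (by decide) (k := 1) (by decide) (Q := [(2637, 3008, 12007), (-2637, -3008, -2407), (-2857, 2800, -2755), (2154, -3371, 2392)])
    (P := [⟨-29214720, -960, 0⟩, ⟨29429760, 960, 0⟩, ⟨368855040, 2637, 3008⟩, ⟨-73943040, -2637, -3008⟩, ⟨-84633600, -2857, 2800⟩, ⟨73482240, 2154, -3371⟩]) rfl rfl
    (List.mem_of_getElem? (i := 395) rfl) TB_fr TB_cov ?_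
  · intro X Y h
    simp only [List.forall_mem_cons, List.not_mem_nil, false_imp_iff, implies_true, and_true] at h
    push_cast at h ⊢
    obtain ⟨h0, h1, h2, h3, h4, h5⟩ := h
    refine ⟨⟨?_, ?_⟩, ?_, ?_⟩ <;> linarith

theorem TB_rg396 : ROK [.q ⟨-8, -952, 960, 0⟩ ⟨-1912, 952, 960, 0⟩, .q ⟨1, 959, -960, 0⟩ ⟨-1919, 959, 960, 0⟩, .q ⟨1912, -952, -960, 0⟩ ⟨15217, -11757, 508, -3968⟩, .q ⟨1919, -959, -960, 0⟩ ⟨15217, -11757, 508, -3968⟩, .q ⟨1912, -952, -960, 0⟩ ⟨-3681, 221, -508, 3968⟩, .q ⟨1919, -959, -960, 0⟩ ⟨-3681, 221, -508, 3968⟩, .q ⟨1912, -952, -960, 0⟩ ⟨559, 1200, -1219, -540⟩, .q ⟨1919, -959, -960, 0⟩ ⟨559, 1200, -1219, -540⟩] := by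
  refine rok_bs (s := -1) (nlo := 952) (nhi := 959) (q := 960) (by decide) (by decide) (by decide) (by decide) (k := 1) (by decide) (Q := [(508, 3968, 11757), (-508, -3968, -221), (-1219, 540, -1200)])
    (P := [⟨-29245440, -960, 0⟩, ⟨29460480, 960, 0⟩, ⟨361175040, 508, 3968⟩, ⟨-6789120, -508, -3968⟩, ⟨-36864000, -1219, 540⟩]) rfl rfl
    (List.mem_of_getElem? (i := 396) rfl) TB_fr TB_cov ?_
  · intro X Y h
    simp only [List.forall_mem_cons, List.not_mem_nil, false_imp_iff, implies_true, and_true] at h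
    push_cast at h ⊢
    obtain ⟨h0, h1, h2, h3, h4⟩ := h
    refine ⟨⟨?_, ?_⟩, ?_, ?_⟩ <;> linarith

theorem TB_rg397 : ROK [.q ⟨-11, -69, 80, 0⟩ ⟨-149, 69, 80, 0⟩, .q ⟨7, 73, -80, 0⟩ ⟨-153, 73, 80, 0⟩, .q ⟨149, -69, -80, 0⟩ ⟨2023, -23, 0, -2000⟩, .q ⟨153, -73, -80, 0⟩ ⟨2023, -23, 0, -2000⟩, .q ⟨149, -69, -80, 0⟩ ⟨-3212, 1479, -1826, 3559⟩, .q ⟨153, -73, -80, 0⟩ ⟨-3212, 1479, -1826, 3559⟩, .q ⟨149, -69, -80, 0⟩ ⟨1976, 591, -690, -1877⟩, .q ⟨153, -73, -80, 0⟩ ⟨1976, 591, -690, -1877⟩] := by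
  refine rok_bs (s := -1) (nlo := 69) (nhi := 73) (q := 80) (by decide) (by decide) (by decide) (by decide) (k := 1) (by decide) (Q := [(0, 2000, 23), (-1826, -3559, -1479), (-690, 1877, -591)])
    (P := [⟨-2119680, -80, 0⟩, ⟨2242560, 80, 0⟩, ⟨706560, 0, 2000⟩, ⟨-45434880, -1826, -3559⟩, ⟨-18155520, -690, 1877⟩]) rfl rfl
    (List.mem_of_getElem? (i := 397) rfl) TB_fr TB_cov ?_
  · intro X Y h
    simp only [List.forall_mem_cons, List.not_mem_nil, false_imp_iff, implies_true, and_true] at h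
    push_cast at h ⊢
    obtain ⟨h0, h1, h2, h3, h4⟩ := h
    refine ⟨⟨?_, ?_⟩, ?_, ?_⟩ <;> linarith

theorem TB_rg398 : ROK [.q ⟨-3, -237, 240, 0⟩ ⟨-477, 237, 240, 0⟩, .q ⟨1, 239, -240, 0⟩ ⟨-479, 239, 240, 0⟩, .q ⟨477, -237, -240, 0⟩ ⟨128, -3, 0, -125⟩, .q ⟨479, -239, -240, 0⟩ ⟨128, -3, 0, -125⟩, .q ⟨477, -237, -240, 0⟩ ⟨-1857, -143, 0, 2000⟩, .q ⟨479, -239, -240, 0⟩ ⟨-1857, -143, 0, 2000⟩, .q ⟨477, -237, -240, 0⟩ ⟨-1815, 3304, -3473, 1984⟩, .q ⟨479, -239, -240, 0⟩ ⟨-1815, 3304, -3473, 1984⟩] := by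
  refine rok_bs (s := -1) (nlo := 237) (nhi := 239) (q := 240) (by decide) (by decide) (by decide) (by decide) (k := 1) (by decide) (Q := [(0, 125, 3), (0, -2000, 143), (-3473, -1984, -3304)])
    (P := [⟨-7280640, -240, 0⟩, ⟨7342080, 240, 0⟩, ⟨92160, 0, 125⟩, ⟨4392960, 0, -2000⟩, ⟨-101498880, -3473, -1984⟩]) rfl rfl
    (List.mem_of_getElem? (i := 398) rfl) TB_fr TB_cov ?_
  · intro X Y h
    simp only [List.forall_mem_cons, List.not_mem_nil, false_imp_iff, implies_true, and_true] at h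
    push_cast at h ⊢
    obtain ⟨h0, h1, h2, h3, h4⟩ := h
    refine ⟨⟨?_, ?_⟩, ?_, ?_⟩ <;> linarith

theorem TB_rg399 : ROK [.q ⟨-115, -125, 240, 0⟩ ⟨-365, 125, 240, 0⟩, .q ⟨111, 129, -240, 0⟩ ⟨-369, 129, 240, 0⟩, .q ⟨365, -125, -240, 0⟩ ⟨7912, -7393, 2557, -3076⟩, .q ⟨369, -129, -240, 0⟩ ⟨7912, -7393, 2557, -3076⟩, .q ⟨365, -125, -240, 0⟩ ⟨-859, -4596, 1979, 3476⟩, .q ⟨369, -129, -240, 0⟩ ⟨-859, -4596, 1979, 3476⟩, .q ⟨365, -125, -240, 0⟩ ⟨216, 2739, 934, -3889⟩, .q ⟨369, -129, -240, 0⟩ ⟨216, 2739, 934, -3889⟩] := by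
  refine rok_bs (s := -1) (nlo := 125) (nhi := 129) (q := 240) (by decide) (by decide) (by decide) (by decide) (k := 1) (by decide) (Q := [(2557, 3076, 7393), (1979, -3476, 4596), (934, 3889, -2739)])
    (P := [⟨-3840000, -240, 0⟩, ⟨3962880, 240, 0⟩, ⟨227112960, 2557, 3076⟩, ⟨141189120, 1979, -3476⟩, ⟨-84142080, 934, 3889⟩]) rfl rfl
    (List.mem_of_getElem? (i := 399) rfl) TB_fr TB_cov ?_
  · intro X Y h
    simp only [List.forall_mem_cons, List.not_mem_nil, false_imp_iff, implies_true, and_true] at h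
    push_cast at h ⊢
    obtain ⟨h0, h1, h2, h3, h4⟩ := h
    refine ⟨⟨?_, ?_⟩, ?_, ?_⟩ <;> linarith

theorem TB_rg400 : ROK [.q ⟨-444, -516, 960, 0⟩ ⟨-1476, 516, 960, 0⟩, .q ⟨437, 523, -960, 0⟩ ⟨-1483, 523, 960, 0⟩, .q ⟨1476, -516, -960, 0⟩ ⟨12422, -11969, 2593, -3046⟩, .q ⟨1483, -523, -960, 0⟩ ⟨12422, -11969, 2593, -3046⟩, .q ⟨1476, -516, -960, 0⟩ ⟨-409, -44, -2593, 3046⟩, .q ⟨1483, -523, -960, 0⟩ ⟨-409, -44, -2593, 3046⟩, .q ⟨1476, -516, -960, 0⟩ ⟨2707, 2843, -3321, -2229⟩, .q ⟨1483, -523, -960, 0⟩ ⟨2707, 2843, -3321, -2229⟩] := by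
  refine rok_bs (s := -1) (nlo := 516) (nhi := 523) (q := 960) (by decide) (by decide) (by decide) (by decide) (k := 1) (by decide) (Q := [(2593, 3046, 11969), (-2593, -3046, 44), (-3321, 2229, -2843)])
    (P := [⟨-15851520, -960, 0⟩, ⟨16066560, 960, 0⟩, ⟨367687680, 2593, 3046⟩, ⟨1351680, -2593, -3046⟩, ⟨-87336960, -3321, 2229⟩]) rfl rfl
    (List.mem_of_getElem? (i := 400) rfl) TB_fr TB_cov ?_
  · intro X Y h
    simp only [List.forall_mem_cons, List.not_mem_nil, false_imp_iff, implies_true, and_true] at h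
    push_cast at h ⊢
    obtain ⟨h0, h1, h2, h3, h4⟩ := h
    refine ⟨⟨?_, ?_⟩, ?_, ?_⟩ <;> linarith

theorem TB_rg401 : ROK [.q ⟨-11, -949, 960, 0⟩ ⟨-1909, 949, 960, 0⟩, .q ⟨1, 959, -960, 0⟩ ⟨-1919, 959, 960, 0⟩, .q ⟨1909, -949, -960, 0⟩ ⟨14837, -9291, -2217, -3329⟩, .q ⟨1919, -959, -960, 0⟩ ⟨14837, -9291, -2217, -3329⟩, .q ⟨1909, -949, -960, 0⟩ ⟨-1853, -237, 92, 1998⟩, .q ⟨1919, -959, -960, 0⟩ ⟨-1853, -237, 92, 1998⟩, .q ⟨1909, -949, -960, 0⟩ ⟨4085, -710, 582, -3957⟩, .q ⟨1919, -959, -960, 0⟩ ⟨4085, -710, 582, -3957⟩, .q ⟨1909, -949, -960, 0⟩ ⟨-1922, 3243, -3411, 2090⟩, .q ⟨1919, -959, -960, 0⟩ ⟨-1922, 3243, -3411, 2090⟩] := by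
  refine rok_bs (s := -1) (nlo := 949) (nhi := 959) (q := 960) (by decide) (by decide) (by decide) (by decide) (k := 1) (by decide) (Q := [(-2217, 3329, 9291), (92, -1998, 237), (582, 3957, 710), (-3411, -2090, -3243)])
    (P := [⟨-29153280, -960, 0⟩, ⟨29460480, 960, 0⟩, ⟨285419520, -2217, 3329⟩, ⟨7280640, 92, -1998⟩, ⟨21811200, 582, 3957⟩, ⟨-99624960, -3411, -2090⟩]) rfl rfl
    (List.mem_of_getElem? (i := 401) rfl) TB_fr TB_cov ?_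
  · intro X Y h
    simp only [List.forall_mem_cons, List.not_mem_nil, false_imp_iff, implies_true, and_true] at h
    push_cast at h ⊢
    obtain ⟨h0, h1, h2, h3, h4, h5⟩ := h
    refine ⟨⟨?_, ?_⟩, ?_, ?_⟩ <;> linarith

theorem TB_rg402 : ROK [.q ⟨-39, -201, 240, 0⟩ ⟨-441, 201, 240, 0⟩, .q ⟨34, 206, -240, 0⟩ ⟨-446, 206, 240, 0⟩, .q ⟨441, -201, -240, 0⟩ ⟨4068, 457, -565, -3960⟩, .q ⟨446, -206, -240, 0⟩ ⟨4068, 457, -565, -3960⟩, .q ⟨441, -201, -240, 0⟩ ⟨-3260, 1468, -1787, 3579⟩, .q ⟨446, -206, -240, 0⟩ ⟨-3260, 1468, -1787, 3579⟩] := by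
  refine rok_bs (s := -1) (nlo := 201) (nhi := 206) (q := 240) (by decide) (by decide) (by decide) (by decide) (k := 1) (by decide) (Q := [(-565, 3960, -457), (-1787, -3579, -1468)])
    (P := [⟨-6174720, -240, 0⟩, ⟨6328320, 240, 0⟩, ⟨-14039040, -565, 3960⟩, ⟨-45096960, -1787, -3579⟩]) rfl rfl
    (List.mem_of_getElem? (i := 402) rfl) TB_fr TB_cov ?_
  · intro X Y h
    simp only [List.forall_mem_cons, List.not_mem_nil, false_imp_iff, implies_true, and_true] at h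
    push_cast at h ⊢
    obtain ⟨h0, h1, h2, h3⟩ := h
    refine ⟨⟨?_, ?_⟩, ?_, ?_⟩ <;> linarith

theorem TB_rg403 : ROK [.q ⟨-535, -425, 960, 0⟩ ⟨-1385, 425, 960, 0⟩, .q ⟨528, 432, -960, 0⟩ ⟨-1392, 432, 960, 0⟩, .q ⟨1385, -425, -960, 0⟩ ⟨-833, 1998, 2185, -3350⟩, .q ⟨1392, -432, -960, 0⟩ ⟨-833, 1998, 2185, -3350⟩, .q ⟨1385, -425, -960, 0⟩ ⟨-389, -3690, 80, 3999⟩, .q ⟨1392, -432, -960, 0⟩ ⟨-389, -3690, 80, 3999⟩] := by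
  refine rok_bs (s := -1) (nlo := 425) (nhi := 432) (q := 960) (by decide) (by decide) (by decide) (by decide) (k := 1) (by decide) (Q := [(2185, 3350, -1998), (80, -3999, 3690)])
    (P := [⟨-13056000, -960, 0⟩, ⟨13271040, 960, 0⟩, ⟨-61378560, 2185, 3350⟩, ⟨113356800, 80, -3999⟩]) rfl rfl
    (List.mem_of_getElem? (i := 403) rfl) TB_fr TB_cov ?_
  · intro X Y h
    simp only [List.forall_mem_cons, List.not_mem_nil, false_imp_iff, implies_true, and_true] at h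
    push_cast at h ⊢
    obtain ⟨h0, h1, h2, h3⟩ := h
    refine ⟨⟨?_, ?_⟩, ?_, ?_⟩ <;> linarith

theorem TB_rg404 : ROK [.q ⟨-231, -249, 480, 0⟩ ⟨-729, 249, 480, 0⟩, .q ⟨221, 259, -480, 0⟩ ⟨-739, 259, 480, 0⟩, .q ⟨729, -249, -480, 0⟩ ⟨351, -191, 0, -160⟩, .q ⟨739, -259, -480, 0⟩ ⟨351, -191, 0, -160⟩, .q ⟨729, -249, -480, 0⟩ ⟨2871, -4127, 303, 953⟩, .q ⟨739, -259, -480, 0⟩ ⟨2871, -4127, 303, 953⟩, .q ⟨729, -249, -480, 0⟩ ⟨1127, 3775, -1039, -3863⟩, .q ⟨739, -259, -480, 0⟩ ⟨1127, 3775, -1039, -3863⟩, .q ⟨729, -249, -480, 0⟩ ⟨131, -1954, -170, 1993⟩, .q ⟨739, -259, -480, 0⟩ ⟨131, -1954, -170, 1993⟩] := by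
  refine rok_bs (s := -1) (nlo := 249) (nhi := 259) (q := 480) (by decide) (by decide) (by decide) (by decide) (k := 1) (by decide) (Q := [(0, 160, 191), (303, -953, 4127), (-1039, 3863, -3775), (-170, -1993, 1954)])
    (P := [⟨-7649280, -480, 0⟩, ⟨7956480, 480, 0⟩, ⟨5867520, 0, 160⟩, ⟨126781440, 303, -953⟩, ⟨-115968000, -1039, 3863⟩, ⟨60026880, -170, -1993⟩]) rfl rfl
    (List.mem_of_getElem? (i := 404) rfl) TB_fr TB_cov ?_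
  · intro X Y h
    simp only [List.forall_mem_cons, List.not_mem_nil, false_imp_iff, implies_true, and_true] at h
    push_cast at h ⊢
    obtain ⟨h0, h1, h2, h3, h4, h5⟩ := h
    refine ⟨⟨?_, ?_⟩, ?_, ?_⟩ <;> linarith

theorem TB_rg405 : ROK [.q ⟨-89, -71, 160, 0⟩ ⟨-231, 71, 160, 0⟩, .q ⟨88, 72, -160, 0⟩ ⟨-232, 72, 160, 0⟩, .q ⟨231, -71, -160, 0⟩ ⟨-126, 2965, 1027, -3866⟩, .q ⟨232, -72, -160, 0⟩ ⟨-126, 2965, 1027, -3866⟩, .q ⟨231, -71, -160, 0⟩ ⟨589, -824, -1292, 1527⟩, .q ⟨232, -72, -160, 0⟩ ⟨589, -824, -1292, 1527⟩] := by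
  refine rok_bs (s := -1) (nlo := 71) (nhi := 72) (q := 160) (by decide) (by decide) (by decide) (by decide) (k := 1) (by decide) (Q := [(1027, 3866, -2965), (-1292, -1527, 824)])
    (P := [⟨-2181120, -160, 0⟩, ⟨2211840, 160, 0⟩, ⟨-91084800, 1027, 3866⟩, ⟨25313280, -1292, -1527⟩]) rfl rfl
    (List.mem_of_getElem? (i := 405) rfl) TB_fr TB_cov ?_
  · intro X Y h
    simp only [List.forall_mem_cons, List.not_mem_nil, false_imp_iff, implies_true, and_true] at h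
    push_cast at h ⊢
    obtain ⟨h0, h1, h2, h3⟩ := h
    refine ⟨⟨?_, ?_⟩, ?_, ?_⟩ <;> linarith

theorem TB_rg406 : ROK [.q ⟨-535, -425, 960, 0⟩ ⟨-1385, 425, 960, 0⟩, .q ⟨528, 432, -960, 0⟩ ⟨-1392, 432, 960, 0⟩, .q ⟨1385, -425, -960, 0⟩ ⟨229, 1771, 0, -2000⟩, .q ⟨1392, -432, -960, 0⟩ ⟨229, 1771, 0, -2000⟩, .q ⟨1385, -425, -960, 0⟩ ⟨456, -2804, -1399, 3747⟩, .q ⟨1392, -432, -960, 0⟩ ⟨456, -2804, -1399, 3747⟩] := by
  refine rok_bs (s := -1) (nlo := 425) (nhi := 432) (q := 960) (by decide) (by decide) (by decide) (by decide) (k := 1) (by decide) (Q := [(0, 2000, -1771), (-1399, -3747, 2804)])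
    (P := [⟨-13056000, -960, 0⟩, ⟨13271040, 960, 0⟩, ⟨-54405120, 0, 2000⟩, ⟨86138880, -1399, -3747⟩]) rfl rfl
    (List.mem_of_getElem? (i := 406) rfl) TB_fr TB_cov ?_
  · intro X Y h
    simp only [List.forall_mem_cons, List.not_mem_nil, false_imp_iff, implies_true, and_true] at h
    push_cast at h ⊢
    obtain ⟨h0, h1, h2, h3⟩ := h
    refine ⟨⟨?_, ?_⟩, ?_, ?_⟩ <;> linarith

theorem TB_rg407 : ROK [.q ⟨-531, -429, 960, 0⟩ ⟨-1389, 429, 960, 0⟩, .q ⟨524, 436, -960, 0⟩ ⟨-1396, 436, 960, 0⟩, .q ⟨1389, -429, -960, 0⟩ ⟨1233, -833, 0, -400⟩, .q ⟨1396, -436, -960, 0⟩ ⟨1233, -833, 0, -400⟩, .q ⟨1389, -429, -960, 0⟩ ⟨130, -3261, -790, 3921⟩, .q ⟨1396, -436, -960, 0⟩ ⟨130, -3261, -790, 3921⟩, .q ⟨1389, -429, -960, 0⟩ ⟨-1396, 914, 3059, -2577⟩, .q ⟨1396, -436, -960, 0⟩ ⟨-1396, 914, 3059, -2577⟩] := by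
  refine rok_bs (s := -1) (nlo := 429) (nhi := 436) (q := 960) (by decide) (by decide) (by decide) (by decide) (k := 1) (by decide) (Q := [(0, 400, 833), (-790, -3921, 3261), (3059, 2577, -914)])
    (P := [⟨-13178880, -960, 0⟩, ⟨13393920, 960, 0⟩, ⟨25589760, 0, 400⟩, ⟨100177920, -790, -3921⟩, ⟨-28078080, 3059, 2577⟩]) rfl rfl
    (List.mem_of_getElem? (i := 407) rfl) TB_fr TB_cov ?_
  · intro X Y h
    simp only [List.forall_mem_cons, List.not_mem_nil, false_imp_iff, implies_true, and_true] at h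
    push_cast at h ⊢
    obtain ⟨h0, h1, h2, h3, h4⟩ := h
    refine ⟨⟨?_, ?_⟩, ?_, ?_⟩ <;> linarith

end Pool.Agent.TET
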