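import Pool.Agent.Helper38_TET.TB_C

/-!
# MP_c7c9bf_co: certificates, family TB
-/

set_option autoImplicit false
set_option maxRecDepth 100000

namespace Pool.Agent.TET

theorem TB_rg408 : ROK [.q ⟨-42, -38, 80, 0⟩ ⟨-118, 38, 80, 0⟩, .q ⟨39, 41, -80, 0⟩ ⟨-121, 41, 80, 0⟩, .q ⟨118, -38, -80, 0⟩ ⟨1011, 989, 0, -2000⟩, .q ⟨121, -41, -80, 0⟩ ⟨1011, 989, 0, -2000⟩, .q ⟨118, -38, -80, 0⟩ ⟨-155, -564, -2446, 3165⟩, .q ⟨121, -41, -80, 0⟩ ⟨-155, -564, -2446, 3165⟩, .q ⟨118, -38, -80, 0⟩ ⟨2617, 2622, -3687, -1552⟩, .q ⟨121, -41, -80, 0⟩ ⟨2617, 2622, -3687, -1552⟩] := by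
  refine rok_bs (s := -1) (nlo := 38) (nhi := 41) (q := 80) (by decide) (by decide) (by decide) (by decide) (k := 1) (by decide) (Q := [(0, 2000, -989), (-2446, -3165, 564), (-3687, 1552, -2622)])
    (P := [⟨-1167360, -80, 0⟩, ⟨1259520, 80, 0⟩, ⟨-30382080, 0, 2000⟩, ⟨17326080, -2446, -3165⟩, ⟨-80547840, -3687, 1552⟩]) rfl rfl
    (List.mem_of_getElem? (i := 408) rfl) TB_fr TB_cov ?_
  · intro X Y h
    simp only [List.forall_mem_cons, List.not_mem_nil, false_imp_iff, implies_true, and_true] at h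
    push_cast at h ⊢
    obtain ⟨h0, h1, h2, h3, h4⟩ := h
    refine ⟨⟨?_, ?_⟩, ?_, ?_⟩ <;> linarith

theorem TB_rg409 : ROK [.q ⟨-445, -515, 960, 0⟩ ⟨-1475, 515, 960, 0⟩, .q ⟨438, 522, -960, 0⟩ ⟨-1482, 522, 960, 0⟩, .q ⟨1475, -515, -960, 0⟩ ⟨7240, -4836, -457, -1947⟩, .q ⟨1482, -522, -960, 0⟩ ⟨7240, -4836, -457, -1947⟩, .q ⟨1475, -515, -960, 0⟩ ⟨-436, -69, -2565, 3070⟩, .q ⟨1482, -522, -960, 0⟩ ⟨-436, -69, -2565, 3070⟩, .q ⟨1475, -515, -960, 0⟩ ⟨2507, 2709, -3703, -1513⟩, .q ⟨1482, -522, -960, 0⟩ ⟨2507, 2709, -3703, -1513⟩] := by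
  refine rok_bs (s := -1) (nlo := 515) (nhi := 522) (q := 960) (by decide) (by decide) (by decide) (by decide) (k := 1) (by decide) (Q := [(-457, 1947, 4836), (-2565, -3070, 69), (-3703, 1513, -2709)])
    (P := [⟨-15820800, -960, 0⟩, ⟨16035840, 960, 0⟩, ⟨148561920, -457, 1947⟩, ⟨2119680, -2565, -3070⟩, ⟨-83220480, -3703, 1513⟩]) rfl rfl
    (List.mem_of_getElem? (i := 409) rfl) TB_fr TB_cov ?_
  · intro X Y h
    simp only [List.forall_mem_cons, List.not_mem_nil, false_imp_iff, implies_true, and_true] at h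
    push_cast at h ⊢
    obtain ⟨h0, h1, h2, h3, h4⟩ := h
    refine ⟨⟨?_, ?_⟩, ?_, ?_⟩ <;> linarith

theorem TB_rg410 : ROK [.q ⟨-8, -472, 480, 0⟩ ⟨-952, 472, 480, 0⟩, .q ⟨1, 479, -480, 0⟩ ⟨-959, 479, 480, 0⟩, .q ⟨952, -472, -480, 0⟩ ⟨15723, -11723, 0, -4000⟩, .q ⟨959, -479, -480, 0⟩ ⟨15723, -11723, 0, -4000⟩, .q ⟨952, -472, -480, 0⟩ ⟨-3717, -283, 0, 4000⟩, .q ⟨959, -479, -480, 0⟩ ⟨-3717, -283, 0, 4000⟩, .q ⟨952, -472, -480, 0⟩ ⟨4007, -656, 603, -3954⟩, .q ⟨959, -479, -480, 0⟩ ⟨4007, -656, 603, -3954⟩, .q ⟨952, -472, -480, 0⟩ ⟨-2140, 3037, -3241, 2344⟩, .q ⟨959, -479, -480, 0⟩ ⟨-2140, 3037, -3241, 2344⟩] := by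
  refine rok_bs (s := -1) (nlo := 472) (nhi := 479) (q := 480) (by decide) (by decide) (by decide) (by decide) (k := 1) (by decide) (Q := [(0, 4000, 11723), (0, -4000, 283), (603, 3954, 656), (-3241, -2344, -3037)])
    (P := [⟨-14499840, -480, 0⟩, ⟨14714880, 480, 0⟩, ⟨360130560, 0, 4000⟩, ⟨8693760, 0, -4000⟩, ⟨20152320, 603, 3954⟩, ⟨-93296640, -3241, -2344⟩]) rfl rfl
    (List.mem_of_getElem? (i := 410) rfl) TB_fr TB_cov ?_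
  · intro X Y h
    simp only [List.forall_mem_cons, List.not_mem_nil, false_imp_iff, implies_true, and_true] at h
    push_cast at h ⊢
    obtain ⟨h0, h1, h2, h3, h4, h5⟩ := h
    refine ⟨⟨?_, ?_⟩, ?_, ?_⟩ <;> linarith

theorem TB_rg411 : ROK [.q ⟨-13, -947, 960, 0⟩ ⟨-1907, 947, 960, 0⟩, .q ⟨5, 955, -960, 0⟩ ⟨-1915, 955, 960, 0⟩, .q ⟨1907, -947, -960, 0⟩ ⟨3217, 2409, -2516, -3110⟩, .q ⟨1915, -955, -960, 0⟩ ⟨3217, 2409, -2516, -3110⟩, .q ⟨1907, -947, -960, 0⟩ ⟨-3680, -847, 567, 3960⟩, .q ⟨1915, -955, -960, 0⟩ ⟨-3680, -847, 567, 3960⟩, .q ⟨1907, -947, -960, 0⟩ ⟨-3584, 741, -1024, 3867⟩, .q ⟨1915, -955, -960, 0⟩ ⟨-3584, 741, -1024, 3867⟩] := by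
  refine rok_bs (s := -1) (nlo := 947) (nhi := 955) (q := 960) (by decide) (by decide) (by decide) (by decide) (k := 1) (by decide) (Q := [(-2516, 3110, -2409), (567, -3960, 847), (-1024, -3867, -741)])
    (P := [⟨-29091840, -960, 0⟩, ⟨29337600, 960, 0⟩, ⟨-74004480, -2516, 3110⟩, ⟨26019840, 567, -3960⟩, ⟨-22763520, -1024, -3867⟩]) rfl rfl
    (List.mem_of_getElem? (i := 411) rfl) TB_fr TB_cov ?_
  · intro X Y h
    simp only [List.forall_mem_cons, List.not_mem_nil, false_imp_iff, implies_true, and_true] at h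
    push_cast at h ⊢
    obtain ⟨h0, h1, h2, h3, h4⟩ := h
    refine ⟨⟨?_, ?_⟩, ?_, ?_⟩ <;> linarith

theorem TB_rg412 : ROK [.q ⟨-10, -470, 480, 0⟩ ⟨-950, 470, 480, 0⟩, .q ⟨1, 479, -480, 0⟩ ⟨-959, 479, 480, 0⟩, .q ⟨950, -470, -480, 0⟩ ⟨12045, -9190, 1014, -3869⟩, .q ⟨959, -479, -480, 0⟩ ⟨12045, -9190, 1014, -3869⟩, .q ⟨950, -470, -480, 0⟩ ⟨-3586, 731, -1014, 3869⟩, .q ⟨959, -479, -480, 0⟩ ⟨-3586, 731, -1014, 3869⟩, .q ⟨950, -470, -480, 0⟩ ⟨3916, 1055, -1136, -3835⟩, .q ⟨959, -479, -480, 0⟩ ⟨3916, 1055, -1136, -3835⟩] := by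
  refine rok_bs (s := -1) (nlo := 470) (nhi := 479) (q := 480) (by decide) (by decide) (by decide) (by decide) (k := 1) (by decide) (Q := [(1014, 3869, 9190), (-1014, -3869, -731), (-1136, 3835, -1055)])
    (P := [⟨-14438400, -480, 0⟩, ⟨14714880, 480, 0⟩, ⟨282316800, 1014, 3869⟩, ⟨-22456320, -1014, -3869⟩, ⟨-32409600, -1136, 3835⟩]) rfl rfl
    (List.mem_of_getElem? (i := 412) rfl) TB_fr TB_cov ?_
  · intro X Y h
    simp only [List.forall_mem_cons, List.not_mem_nil, false_imp_iff, implies_true, and_true] at h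
    push_cast at h ⊢
    obtain ⟨h0, h1, h2, h3, h4⟩ := h
    refine ⟨⟨?_, ?_⟩, ?_, ?_⟩ <;> linarith

theorem TB_rg413 : ROK [.q ⟨-4, -316, 320, 0⟩ ⟨-636, 316, 320, 0⟩, .q ⟨1, 319, -320, 0⟩ ⟨-639, 319, 320, 0⟩, .q ⟨636, -316, -320, 0⟩ ⟨6241, -5051, 688, -1878⟩, .q ⟨639, -319, -320, 0⟩ ⟨6241, -5051, 688, -1878⟩, .q ⟨636, -316, -320, 0⟩ ⟨-1739, 549, -688, 1878⟩, .q ⟨639, -319, -320, 0⟩ ⟨-1739, 549, -688, 1878⟩, .q ⟨636, -316, -320, 0⟩ ⟨1267, 1538, -1584, -1221⟩, .q ⟨639, -319, -320, 0⟩ ⟨1267, 1538, -1584, -1221⟩, .q ⟨636, -316, -320, 0⟩ ⟨-3705, -34, -253, 3992⟩, .q ⟨639, -319, -320, 0⟩ ⟨-3705, -34, -253, 3992⟩] := by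
  refine rok_bs (s := -1) (nlo := 316) (nhi := 319) (q := 320) (by decide) (by decide) (by decide) (by decide) (k := 1) (by decide) (Q := [(688, 1878, 5051), (-688, -1878, -549), (-1584, 1221, -1538), (-253, -3992, 34)])
    (P := [⟨-9707520, -320, 0⟩, ⟨9799680, 320, 0⟩, ⟨155166720, 688, 1878⟩, ⟨-16865280, -688, -1878⟩, ⟨-47247360, -1584, 1221⟩, ⟨1044480, -253, -3992⟩]) rfl rfl
    (List.mem_of_getElem? (i := 413) rfl) TB_fr TB_cov ?_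
  · intro X Y h
    simp only [List.forall_mem_cons, List.not_mem_nil, false_imp_iff, implies_true, and_true] at h
    push_cast at h ⊢
    obtain ⟨h0, h1, h2, h3, h4, h5⟩ := h
    refine ⟨⟨?_, ?_⟩, ?_, ?_⟩ <;> linarith

theorem TB_rg414 : ROK [.q ⟨-11, -949, 960, 0⟩ ⟨-1909, 949, 960, 0⟩, .q ⟨4, 956, -960, 0⟩ ⟨-1916, 956, 960, 0⟩, .q ⟨1909, -949, -960, 0⟩ ⟨4054, 697, -840, -3911⟩, .q ⟨1916, -956, -960, 0⟩ ⟨4054, 697, -840, -3911⟩, .q ⟨1909, -949, -960, 0⟩ ⟨-3567, 808, -1090, 3849⟩, .q ⟨1916, -956, -960, 0⟩ ⟨-3567, 808, -1090, 3849⟩] := by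
  refine rok_bs (s := -1) (nlo := 949) (nhi := 956) (q := 960) (by decide) (by decide) (by decide) (by decide) (k := 1) (by decide) (Q := [(-840, 3911, -697), (-1090, -3849, -808)])
    (P := [⟨-29153280, -960, 0⟩, ⟨29368320, 960, 0⟩, ⟨-21411840, -840, 3911⟩, ⟨-24821760, -1090, -3849⟩]) rfl rfl
    (List.mem_of_getElem? (i := 414) rfl) TB_fr TB_cov ?_
  · intro X Y h
    simp only [List.forall_mem_cons, List.not_mem_nil, false_imp_iff, implies_true, and_true] at h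
    push_cast at h ⊢
    obtain ⟨h0, h1, h2, h3⟩ := h
    refine ⟨⟨?_, ?_⟩, ?_, ?_⟩ <;> linarith

theorem TB_rg415 : ROK [.q ⟨-14, -946, 960, 0⟩ ⟨-1906, 946, 960, 0⟩, .q ⟨3, 957, -960, 0⟩ ⟨-1917, 957, 960, 0⟩, .q ⟨1906, -946, -960, 0⟩ ⟨3771, 1468, -1553, -3686⟩, .q ⟨1917, -957, -960, 0⟩ ⟨3771, 1468, -1553, -3686⟩, .q ⟨1906, -946, -960, 0⟩ ⟨-3432, -1807, 1553, 3686⟩, .q ⟨1917, -957, -960, 0⟩ ⟨-3432, -1807, 1553, 3686⟩, .q ⟨1906, -946, -960, 0⟩ ⟨-2836, 2319, -2558, 3075⟩, .q ⟨1917, -957, -960, 0⟩ ⟨-2836, 2319, -2558, 3075⟩] := by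
  refine rok_bs (s := -1) (nlo := 946) (nhi := 957) (q := 960) (by decide) (by decide) (by decide) (by decide) (k := 1) (by decide) (Q := [(-1553, 3686, -1468), (1553, -3686, 1807), (-2558, -3075, -2319)])
    (P := [⟨-29061120, -960, 0⟩, ⟨29399040, 960, 0⟩, ⟨-45096960, -1553, 3686⟩, ⟨55511040, 1553, -3686⟩, ⟨-71239680, -2558, -3075⟩]) rfl rfl
    (List.mem_of_getElem? (i := 415) rfl) TB_fr TB_cov ?_
  · intro X Y h
    simp only [List.forall_mem_cons, List.not_mem_nil, false_imp_iff, implies_true, and_true] at h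
    push_cast at h ⊢
    obtain ⟨h0, h1, h2, h3, h4⟩ := h
    refine ⟨⟨?_, ?_⟩, ?_, ?_⟩ <;> linarith

theorem TB_rg416 : ROK [.q ⟨-7, -473, 480, 0⟩ ⟨-953, 473, 480, 0⟩, .q ⟨3, 477, -480, 0⟩ ⟨-957, 477, 480, 0⟩, .q ⟨953, -473, -480, 0⟩ ⟨3509, -2002, 1973, -3480⟩, .q ⟨957, -477, -480, 0⟩ ⟨3509, -2002, 1973, -3480⟩, .q ⟨953, -473, -480, 0⟩ ⟨-1239, -128, 34, 1333⟩, .q ⟨957, -477, -480, 0⟩ ⟨-1239, -128, 34, 1333⟩, .q ⟨953, -473, -480, 0⟩ ⟨-1442, 1118, -1243, 1567⟩, .q ⟨957, -477, -480, 0⟩ ⟨-1442, 1118, -1243, 1567⟩] := by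
  refine rok_bs (s := -1) (nlo := 473) (nhi := 477) (q := 480) (by decide) (by decide) (by decide) (by decide) (k := 1) (by decide) (Q := [(1973, 3480, 2002), (34, -1333, 128), (-1243, -1567, -1118)])
    (P := [⟨-14530560, -480, 0⟩, ⟨14653440, 480, 0⟩, ⟨61501440, 1973, 3480⟩, ⟨3932160, 34, -1333⟩, ⟨-34344960, -1243, -1567⟩]) rfl rfl
    (List.mem_of_getElem? (i := 416) rfl) TB_fr TB_cov ?_
  · intro X Y h
    simp only [List.forall_mem_cons, List.not_mem_nil, false_imp_iff, implies_true, and_true] at h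
    push_cast at h ⊢
    obtain ⟨h0, h1, h2, h3, h4⟩ := h
    refine ⟨⟨?_, ?_⟩, ?_, ?_⟩ <;> linarith

theorem TB_rg417 : ROK [.q ⟨-10, -950, 960, 0⟩ ⟨-1910, 950, 960, 0⟩, .q ⟨3, 957, -960, 0⟩ ⟨-1917, 957, 960, 0⟩, .q ⟨1910, -950, -960, 0⟩ ⟨3991, -3832, 860, -1019⟩, .q ⟨1917, -957, -960, 0⟩ ⟨3991, -3832, 860, -1019⟩, .q ⟨1910, -950, -960, 0⟩ ⟨-3713, -363, 77, 3999⟩, .q ⟨1917, -957, -960, 0⟩ ⟨-3713, -363, 77, 3999⟩, .q ⟨1910, -950, -960, 0⟩ ⟨1878, 780, -845, -1813⟩, .q ⟨1917, -957, -960, 0⟩ ⟨1878, 780, -845, -1813⟩, .q ⟨1910, -950, -960, 0⟩ ⟨-396, 863, -901, 434⟩, .q ⟨1917, -957, -960, 0⟩ ⟨-396, 863, -901, 434⟩] := by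
  refine rok_bs (s := -1) (nlo := 950) (nhi := 957) (q := 960) (by decide) (by decide) (by decide) (by decide) (k := 1) (by decide) (Q := [(860, 1019, 3832), (77, -3999, 363), (-845, 1813, -780), (-901, -434, -863)])
    (P := [⟨-29184000, -960, 0⟩, ⟨29399040, 960, 0⟩, ⟨117719040, 860, 1019⟩, ⟨11151360, 77, -3999⟩, ⟨-23961600, -845, 1813⟩, ⟨-26511360, -901, -434⟩]) rfl rfl
    (List.mem_of_getElem? (i := 417) rfl) TB_fr TB_cov ?_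
  · intro X Y h
    simp only [List.forall_mem_cons, List.not_mem_nil, false_imp_iff, implies_true, and_true] at h
    push_cast at h ⊢
    obtain ⟨h0, h1, h2, h3, h4, h5⟩ := h
    refine ⟨⟨?_, ?_⟩, ?_, ?_⟩ <;> linarith

theorem TB_rg418 : ROK [.q ⟨-13, -947, 960, 0⟩ ⟨-1907, 947, 960, 0⟩, .q ⟨3, 957, -960, 0⟩ ⟨-1917, 957, 960, 0⟩, .q ⟨1907, -947, -960, 0⟩ ⟨4093, -93, 0, -4000⟩, .q ⟨1917, -957, -960, 0⟩ ⟨4093, -93, 0, -4000⟩, .q ⟨1907, -947, -960, 0⟩ ⟨-1857, -143, 0, 2000⟩, .q ⟨1917, -957, -960, 0⟩ ⟨-1857, -143, 0, 2000⟩, .q ⟨1907, -947, -960, 0⟩ ⟨-3295, 1550, -1818, 3563⟩, .q ⟨1917, -957, -960, 0⟩ ⟨-3295, 1550, -1818, 3563⟩] := by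
  refine rok_bs (s := -1) (nlo := 947) (nhi := 957) (q := 960) (by decide) (by decide) (by decide) (by decide) (k := 1) (by decide) (Q := [(0, 4000, 93), (0, -2000, 143), (-1818, -3563, -1550)])
    (P := [⟨-29091840, -960, 0⟩, ⟨29399040, 960, 0⟩, ⟨2856960, 0, 4000⟩, ⟨4392960, 0, -2000⟩, ⟨-47616000, -1818, -3563⟩]) rfl rfl
    (List.mem_of_getElem? (i := 418) rfl) TB_fr TB_cov ?_
  · intro X Y h
    simp only [List.forall_mem_cons, List.not_mem_nil, false_imp_iff, implies_true, and_true] at h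
    push_cast at h ⊢
    obtain ⟨h0, h1, h2, h3, h4⟩ := h
    refine ⟨⟨?_, ?_⟩, ?_, ?_⟩ <;> linarith

theorem TB_rg419 : ROK [.q ⟨-12, -948, 960, 0⟩ ⟨-1908, 948, 960, 0⟩, .q ⟨5, 955, -960, 0⟩ ⟨-1915, 955, 960, 0⟩, .q ⟨1908, -948, -960, 0⟩ ⟨7859, -5722, -142, -1995⟩, .q ⟨1915, -955, -960, 0⟩ ⟨7859, -5722, -142, -1995⟩, .q ⟨1908, -948, -960, 0⟩ ⟨-1853, -284, 142, 1995⟩, .q ⟨1915, -955, -960, 0⟩ ⟨-1853, -284, 142, 1995⟩, .q ⟨1908, -948, -960, 0⟩ ⟨3721, 1610, -1719, -3612⟩, .q ⟨1915, -955, -960, 0⟩ ⟨3721, 1610, -1719, -3612⟩, .q ⟨1908, -948, -960, 0⟩ ⟨-2985, 2105, -2354, 3234⟩, .q ⟨1915, -955, -960, 0⟩ ⟨-2985, 2105, -2354, 3234⟩] := by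
  refine rok_bs (s := -1) (nlo := 948) (nhi := 955) (q := 960) (by decide) (by decide) (by decide) (by decide) (k := 1) (by decide) (Q := [(-142, 1995, 5722), (142, -1995, 284), (-1719, 3612, -1610), (-2354, -3234, -2105)])
    (P := [⟨-29122560, -960, 0⟩, ⟨29337600, 960, 0⟩, ⟨175779840, -142, 1995⟩, ⟨8724480, 142, -1995⟩, ⟨-49459200, -1719, 3612⟩, ⟨-64665600, -2354, -3234⟩]) rfl rfl
    (List.mem_of_getElem? (i := 419) rfl) TB_fr TB_cov ?_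
  · intro X Y h
    simp only [List.forall_mem_cons, List.not_mem_nil, false_imp_iff, implies_true, and_true] at h
    push_cast at h ⊢
    obtain ⟨h0, h1, h2, h3, h4, h5⟩ := h
    refine ⟨⟨?_, ?_⟩, ?_, ?_⟩ <;> linarith

theorem TB_rg420 : ROK [.q ⟨-1, -119, 120, 0⟩ ⟨-239, 119, 120, 0⟩, .q ⟨0, 120, -120, 0⟩ ⟨-240, 120, 120, 0⟩, .q ⟨239, -119, -120, 0⟩ ⟨15675, -12291, 575, -3959⟩, .q ⟨240, -120, -120, 0⟩ ⟨15675, -12291, 575, -3959⟩, .q ⟨239, -119, -120, 0⟩ ⟨-3672, 288, -575, 3959⟩, .q ⟨240, -120, -120, 0⟩ ⟨-3672, 288, -575, 3959⟩, .q ⟨239, -119, -120, 0⟩ ⟨2978, -2143, 2380, -3215⟩, .q ⟨240, -120, -120, 0⟩ ⟨2978, -2143, 2380, -3215⟩] := by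
  refine rok_bs (s := -1) (nlo := 119) (nhi := 120) (q := 120) (by decide) (by decide) (by decide) (by decide) (k := 1) (by decide) (Q := [(575, 3959, 12291), (-575, -3959, -288), (2380, 3215, 2143)])
    (P := [⟨-3655680, -120, 0⟩, ⟨3686400, 120, 0⟩, ⟨377579520, 575, 3959⟩, ⟨-8847360, -575, -3959⟩, ⟨65832960, 2380, 3215⟩]) rfl rfl
    (List.mem_of_getElem? (i := 420) rfl) TB_fr TB_cov ?_
  · intro X Y h
    simp only [List.forall_mem_cons, List.not_mem_nil, false_imp_iff, implies_true, and_true] at h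
    push_cast at h ⊢
    obtain ⟨h0, h1, h2, h3, h4⟩ := h
    refine ⟨⟨?_, ?_⟩, ?_, ?_⟩ <;> linarith

theorem TB_rg421 : ROK [.q ⟨-9, -951, 960, 0⟩ ⟨-1911, 951, 960, 0⟩, .q ⟨2, 958, -960, 0⟩ ⟨-1918, 958, 960, 0⟩, .q ⟨1911, -951, -960, 0⟩ ⟨14517, -13553, 2305, -3269⟩, .q ⟨1918, -958, -960, 0⟩ ⟨14517, -13553, 2305, -3269⟩, .q ⟨1911, -951, -960, 0⟩ ⟨-3018, 2054, -2305, 3269⟩, .q ⟨1918, -958, -960, 0⟩ ⟨-3018, 2054, -2305, 3269⟩, .q ⟨1911, -951, -960, 0⟩ ⟨4039, -991, 859, -3907⟩, .q ⟨1918, -958, -960, 0⟩ ⟨4039, -991, 859, -3907⟩, .q ⟨1911, -951, -960, 0⟩ ⟨-3696, -697, 415, 3978⟩, .q ⟨1918, -958, -960, 0⟩ ⟨-3696, -697, 415, 3978⟩] := by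
  refine rok_bs (s := -1) (nlo := 951) (nhi := 958) (q := 960) (by decide) (by decide) (by decide) (by decide) (k := 1) (by decide) (Q := [(2305, 3269, 13553), (-2305, -3269, -2054), (859, 3907, 991), (415, -3978, 697)])
    (P := [⟨-29214720, -960, 0⟩, ⟨29429760, 960, 0⟩, ⟨416348160, 2305, 3269⟩, ⟨-63098880, -2305, -3269⟩, ⟨30443520, 859, 3907⟩, ⟨21411840, 415, -3978⟩]) rfl rfl
    (List.mem_of_getElem? (i := 421) rfl) TB_fr TB_cov ?_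
  · intro X Y h
    simp only [List.forall_mem_cons, List.not_mem_nil, false_imp_iff, implies_true, and_true] at h
    push_cast at h ⊢
    obtain ⟨h0, h1, h2, h3, h4, h5⟩ := h
    refine ⟨⟨?_, ?_⟩, ?_, ?_⟩ <;> linarith

theorem TB_rg422 : ROK [.q ⟨-8, -472, 480, 0⟩ ⟨-952, 472, 480, 0⟩, .q ⟨1, 479, -480, 0⟩ ⟨-959, 479, 480, 0⟩, .q ⟨952, -472, -480, 0⟩ ⟨15721, -11721, 0, -4000⟩, .q ⟨959, -479, -480, 0⟩ ⟨15721, -11721, 0, -4000⟩, .q ⟨952, -472, -480, 0⟩ ⟨-3587, -1333, 1064, 3856⟩, .q ⟨959, -479, -480, 0⟩ ⟨-3587, -1333, 1064, 3856⟩, .q ⟨952, -472, -480, 0⟩ ⟨1613, 3627, -3686, -1554⟩, .q ⟨959, -479, -480, 0⟩ ⟨1613, 3627, -3686, -1554⟩, .q ⟨952, -472, -480, 0⟩ ⟨-3141, 1848, -2107, 3400⟩, .q ⟨959, -479, -480, 0⟩ ⟨-3141, 1848, -2107, 3400⟩] := by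
  refine rok_bs (s := -1) (nlo := 472) (nhi := 479) (q := 480) (by decide) (by decide) (by decide) (by decide) (k := 1) (by decide) (Q := [(0, 4000, 11721), (1064, -3856, 1333), (-3686, 1554, -3627), (-2107, -3400, -1848)])
    (P := [⟨-14499840, -480, 0⟩, ⟨14714880, 480, 0⟩, ⟨360069120, 0, 4000⟩, ⟨40949760, 1064, -3856⟩, ⟨-111421440, -3686, 1554⟩, ⟨-56770560, -2107, -3400⟩]) rfl rfl
    (List.mem_of_getElem? (i := 422) rfl) TB_fr TB_cov ?_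
  · intro X Y h
    simp only [List.forall_mem_cons, List.not_mem_nil, false_imp_iff, implies_true, and_true] at h
    push_cast at h ⊢
    obtain ⟨h0, h1, h2, h3, h4, h5⟩ := h
    refine ⟨⟨?_, ?_⟩, ?_, ?_⟩ <;> linarith

theorem TB_rg423 : ROK [.q ⟨-488, -472, 960, 0⟩ ⟨-1432, 472, 960, 0⟩, .q ⟨479, 481, -960, 0⟩ ⟨-1441, 481, 960, 0⟩, .q ⟨1432, -472, -960, 0⟩ ⟨1809, 1870, 309, -3988⟩, .q ⟨1441, -481, -960, 0⟩ ⟨1809, 1870, 309, -3988⟩, .q ⟨1432, -472, -960, 0⟩ ⟨6369, -11605, 1547, 3689⟩, .q ⟨1441, -481, -960, 0⟩ ⟨6369, -11605, 1547, 3689⟩, .q ⟨1432, -472, -960, 0⟩ ⟨521, 517, -744, -294⟩, .q ⟨1441, -481, -960, 0⟩ ⟨521, 517, -744, -294⟩, .q ⟨1432, -472, -960, 0⟩ ⟨386, 278, -3141, 2477⟩, .q ⟨1441, -481, -960, 0⟩ ⟨386, 278, -3141, 2477⟩] := by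
  refine rok_bs (s := -1) (nlo := 472) (nhi := 481) (q := 960) (by decide) (by decide) (by decide) (by decide) (k := 1) (by decide) (Q := [(309, 3988, -1870), (1547, -3689, 11605), (-744, 294, -517), (-3141, -2477, -278)])
    (P := [⟨-14499840, -960, 0⟩, ⟨14776320, 960, 0⟩, ⟨-57446400, 309, 3988⟩, ⟨356505600, 1547, -3689⟩, ⟨-15882240, -744, 294⟩, ⟨-8540160, -3141, -2477⟩]) rfl rfl
    (List.mem_of_getElem? (i := 423) rfl) TB_fr TB_cov ?_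
  · intro X Y h
    simp only [List.forall_mem_cons, List.not_mem_nil, false_imp_iff, implies_true, and_true] at h
    push_cast at h ⊢
    obtain ⟨h0, h1, h2, h3, h4, h5⟩ := h
    refine ⟨⟨?_, ?_⟩, ?_, ?_⟩ <;> linarith

theorem TB_rg424 : ROK [.q ⟨-134, -106, 240, 0⟩ ⟨-346, 106, 240, 0⟩, .q ⟨131, 109, -240, 0⟩ ⟨-349, 109, 240, 0⟩, .q ⟨346, -106, -240, 0⟩ ⟨229, 1771, 0, -2000⟩, .q ⟨349, -109, -240, 0⟩ ⟨229, 1771, 0, -2000⟩, .q ⟨346, -106, -240, 0⟩ ⟨-177, -1823, 0, 2000⟩, .q ⟨349, -109, -240, 0⟩ ⟨-177, -1823, 0, 2000⟩] := by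
  refine rok_bs (s := -1) (nlo := 106) (nhi := 109) (q := 240) (by decide) (by decide) (by decide) (by decide) (k := 1) (by decide) (Q := [(0, 2000, -1771), (0, -2000, 1823)])
    (P := [⟨-3256320, -240, 0⟩, ⟨3348480, 240, 0⟩, ⟨-54405120, 0, 2000⟩, ⟨56002560, 0, -2000⟩]) rfl rfl
    (List.mem_of_getElem? (i := 424) rfl) TB_fr TB_cov ?_
  · intro X Y h
    simp only [List.forall_mem_cons, List.not_mem_nil, false_imp_iff, implies_true, and_true] at h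
    push_cast at h ⊢
    obtain ⟨h0, h1, h2, h3⟩ := h
    refine ⟨⟨?_, ?_⟩, ?_, ?_⟩ <;> linarith

theorem TB_rg425 : ROK [.q ⟨-13, -947, 960, 0⟩ ⟨-1907, 947, 960, 0⟩, .q ⟨3, 957, -960, 0⟩ ⟨-1917, 957, 960, 0⟩, .q ⟨1907, -947, -960, 0⟩ ⟨4321, -4226, 894, -989⟩, .q ⟨1917, -957, -960, 0⟩ ⟨4321, -4226, 894, -989⟩, .q ⟨1907, -947, -960, 0⟩ ⟨-2734, 2449, -2682, 2967⟩, .q ⟨1917, -957, -960, 0⟩ ⟨-2734, 2449, -2682, 2967⟩, .q ⟨1907, -947, -960, 0⟩ ⟨2433, 3152, -3241, -2344⟩, .q ⟨1917, -957, -960, 0⟩ ⟨2433, 3152, -3241, -2344⟩, .q ⟨1907, -947, -960, 0⟩ ⟨-2859, -2776, 2573, 3062⟩, .q ⟨1917, -957, -960, 0⟩ ⟨-2859, -2776, 2573, 3062⟩] := by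
  refine rok_bs (s := -1) (nlo := 947) (nhi := 957) (q := 960) (by decide) (by decide) (by decide) (by decide) (k := 1) (by decide) (Q := [(894, 989, 4226), (-2682, -2967, -2449), (-3241, 2344, -3152), (2573, -3062, 2776)])
    (P := [⟨-29091840, -960, 0⟩, ⟨29399040, 960, 0⟩, ⟨129822720, 894, 989⟩, ⟨-75233280, -2682, -2967⟩, ⟨-96829440, -3241, 2344⟩, ⟨85278720, 2573, -3062⟩]) rfl rfl
    (List.mem_of_getElem? (i := 425) rfl) TB_fr TB_cov ?_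
  · intro X Y h
    simp only [List.forall_mem_cons, List.not_mem_nil, false_imp_iff, implies_true, and_true] at h
    push_cast at h ⊢
    obtain ⟨h0, h1, h2, h3, h4, h5⟩ := h
    refine ⟨⟨?_, ?_⟩, ?_, ?_⟩ <;> linarith

theorem TB_rg426 : ROK [.q ⟨-12, -948, 960, 0⟩ ⟨-1908, 948, 960, 0⟩, .q ⟨5, 955, -960, 0⟩ ⟨-1915, 955, 960, 0⟩, .q ⟨1908, -948, -960, 0⟩ ⟨3659, -1815, 1752, -3596⟩, .q ⟨1915, -955, -960, 0⟩ ⟨3659, -1815, 1752, -3596⟩, .q ⟨1908, -948, -960, 0⟩ ⟨-1661, 739, -876, 1798⟩, .q ⟨1915, -955, -960, 0⟩ ⟨-1661, 739, -876, 1798⟩, .q ⟨1908, -948, -960, 0⟩ ⟨-1213, 163, -258, 1308⟩, .q ⟨1915, -955, -960, 0⟩ ⟨-1213, 163, -258, 1308⟩] := by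
  refine rok_bs (s := -1) (nlo := 948) (nhi := 955) (q := 960) (by decide) (by decide) (by decide) (by decide) (k := 1) (by decide) (Q := [(1752, 3596, 1815), (-876, -1798, -739), (-258, -1308, -163)])
    (P := [⟨-29122560, -960, 0⟩, ⟨29337600, 960, 0⟩, ⟨55756800, 1752, 3596⟩, ⟨-22702080, -876, -1798⟩, ⟨-5007360, -258, -1308⟩]) rfl rfl
    (List.mem_of_getElem? (i := 426) rfl) TB_fr TB_cov ?_
  · intro X Y h
    simp only [List.forall_mem_cons, List.not_mem_nil, false_imp_iff, implies_true, and_true] at h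
    push_cast at h ⊢
    obtain ⟨h0, h1, h2, h3, h4⟩ := h
    refine ⟨⟨?_, ?_⟩, ?_, ?_⟩ <;> linarith

theorem TB_rg427 : ROK [.q ⟨-536, -424, 960, 0⟩ ⟨-1384, 424, 960, 0⟩, .q ⟨529, 431, -960, 0⟩ ⟨-1391, 431, 960, 0⟩, .q ⟨1384, -424, -960, 0⟩ ⟨572, 3628, -205, -3995⟩, .q ⟨1391, -431, -960, 0⟩ ⟨572, 3628, -205, -3995⟩, .q ⟨1384, -424, -960, 0⟩ ⟨-468, -3732, 205, 3995⟩, .q ⟨1391, -431, -960, 0⟩ ⟨-468, -3732, 205, 3995⟩] := by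
  refine rok_bs (s := -1) (nlo := 424) (nhi := 431) (q := 960) (by decide) (by decide) (by decide) (by decide) (k := 1) (by decide) (Q := [(-205, 3995, -3628), (205, -3995, 3732)])
    (P := [⟨-13025280, -960, 0⟩, ⟨13240320, 960, 0⟩, ⟨-111452160, -205, 3995⟩, ⟨114647040, 205, -3995⟩]) rfl rfl
    (List.mem_of_getElem? (i := 427) rfl) TB_fr TB_cov ?_
  · intro X Y h
    simp only [List.forall_mem_cons, List.not_mem_nil, false_imp_iff, implies_true, and_true] at h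
    push_cast at h ⊢
    obtain ⟨h0, h1, h2, h3⟩ := h
    refine ⟨⟨?_, ?_⟩, ?_, ?_⟩ <;> linarith

theorem TB_rg428 : ROK [.q ⟨-3, -317, 320, 0⟩ ⟨-637, 317, 320, 0⟩, .q ⟨1, 319, -320, 0⟩ ⟨-639, 319, 320, 0⟩, .q ⟨637, -317, -320, 0⟩ ⟨2069, -69, 0, -2000⟩, .q ⟨639, -319, -320, 0⟩ ⟨2069, -69, 0, -2000⟩, .q ⟨637, -317, -320, 0⟩ ⟨-1189, 269, -363, 1283⟩, .q ⟨639, -319, -320, 0⟩ ⟨-1189, 269, -363, 1283⟩] := by
  refine rok_bs (s := -1) (nlo := 317) (nhi := 319) (q := 320) (by decide) (by decide) (by decide) (by decide) (k := 1) (by decide) (Q := [(0, 2000, 69), (-363, -1283, -269)])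
    (P := [⟨-9738240, -320, 0⟩, ⟨9799680, 320, 0⟩, ⟨2119680, 0, 2000⟩, ⟨-8263680, -363, -1283⟩]) rfl rfl
    (List.mem_of_getElem? (i := 428) rfl) TB_fr TB_cov ?_
  · intro X Y h
    simp only [List.forall_mem_cons, List.not_mem_nil, false_imp_iff, implies_true, and_true] at h
    push_cast at h ⊢
    obtain ⟨h0, h1, h2, h3⟩ := h
    refine ⟨⟨?_, ?_⟩, ?_, ?_⟩ <;> linarith

theorem TB_rg429 : ROK [.q ⟨-4, -476, 480, 0⟩ ⟨-956, 476, 480, 0⟩, .q ⟨1, 479, -480, 0⟩ ⟨-959, 479, 480, 0⟩, .q ⟨956, -476, -480, 0⟩ ⟨3599, 1858, -1982, -3475⟩, .q ⟨959, -479, -480, 0⟩ ⟨3599, 1858, -1982, -3475⟩, .q ⟨956, -476, -480, 0⟩ ⟨-3699, 50, -337, 3986⟩, .q ⟨959, -479, -480, 0⟩ ⟨-3699, 50, -337, 3986⟩] := by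
  refine rok_bs (s := -1) (nlo := 476) (nhi := 479) (q := 480) (by decide) (by decide) (by decide) (by decide) (k := 1) (by decide) (Q := [(-1982, 3475, -1858), (-337, -3986, -50)])
    (P := [⟨-14622720, -480, 0⟩, ⟨14714880, 480, 0⟩, ⟨-57077760, -1982, 3475⟩, ⟨-1536000, -337, -3986⟩]) rfl rfl
    (List.mem_of_getElem? (i := 429) rfl) TB_fr TB_cov ?_
  · intro X Y h
    simp only [List.forall_mem_cons, List.not_mem_nil, false_imp_iff, implies_true, and_true] at h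
    push_cast at h ⊢
    obtain ⟨h0, h1, h2, h3⟩ := h
    refine ⟨⟨?_, ?_⟩, ?_, ?_⟩ <;> linarith

theorem TB_rg430 : ROK [.q ⟨-11, -949, 960, 0⟩ ⟨-1909, 949, 960, 0⟩, .q ⟨3, 957, -960, 0⟩ ⟨-1917, 957, 960, 0⟩, .q ⟨1909, -949, -960, 0⟩ ⟨3143, -2343, 0, -800⟩, .q ⟨1917, -957, -960, 0⟩ ⟨3143, -2343, 0, -800⟩, .q ⟨1909, -949, -960, 0⟩ ⟨-2907, 2220, -2464, 3151⟩, .q ⟨1917, -957, -960, 0⟩ ⟨-2907, 2220, -2464, 3151⟩, .q ⟨1909, -949, -960, 0⟩ ⟨4117, 271, -409, -3979⟩, .q ⟨1917, -957, -960, 0⟩ ⟨4117, 271, -409, -3979⟩, .q ⟨1909, -949, -960, 0⟩ ⟨-3712, -216, -71, 3999⟩, .q ⟨1917, -957, -960, 0⟩ ⟨-3712, -216, -71, 3999⟩] := by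
  refine rok_bs (s := -1) (nlo := 949) (nhi := 957) (q := 960) (by decide) (by decide) (by decide) (by decide) (k := 1) (by decide) (Q := [(0, 800, 2343), (-2464, -3151, -2220), (-409, 3979, -271), (-71, -3999, 216)])
    (P := [⟨-29153280, -960, 0⟩, ⟨29399040, 960, 0⟩, ⟨71976960, 0, 800⟩, ⟨-68198400, -2464, -3151⟩, ⟨-8325120, -409, 3979⟩, ⟨6635520, -71, -3999⟩]) rfl rfl
    (List.mem_of_getElem? (i := 430) rfl) TB_fr TB_cov ?_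
  · intro X Y h
    simp only [List.forall_mem_cons, List.not_mem_nil, false_imp_iff, implies_true, and_true] at h
    push_cast at h ⊢
    obtain ⟨h0, h1, h2, h3, h4, h5⟩ := h
    refine ⟨⟨?_, ?_⟩, ?_, ?_⟩ <;> linarith

theorem TB_rg431 : ROK [.q ⟨-13, -947, 960, 0⟩ ⟨-1907, 947, 960, 0⟩, .q ⟨5, 955, -960, 0⟩ ⟨-1915, 955, 960, 0⟩, .q ⟨1907, -947, -960, 0⟩ ⟨4036, 615, -716, -3935⟩, .q ⟨1915, -955, -960, 0⟩ ⟨4036, 615, -716, -3935⟩, .q ⟨1907, -947, -960, 0⟩ ⟨-502, 141, -181, 542⟩, .q ⟨1915, -955, -960, 0⟩ ⟨-502, 141, -181, 542⟩, .q ⟨1907, -947, -960, 0⟩ ⟨-3568, -1404, 1137, 3835⟩, .q ⟨1915, -955, -960, 0⟩ ⟨-3568, -1404, 1137, 3835⟩] := by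
  refine rok_bs (s := -1) (nlo := 947) (nhi := 955) (q := 960) (by decide) (by decide) (by decide) (by decide) (k := 1) (by decide) (Q := [(-716, 3935, -615), (-181, -542, -141), (1137, -3835, 1404)])
    (P := [⟨-29091840, -960, 0⟩, ⟨29337600, 960, 0⟩, ⟨-18892800, -716, 3935⟩, ⟨-4331520, -181, -542⟩, ⟨43130880, 1137, -3835⟩]) rfl rfl
    (List.mem_of_getElem? (i := 431) rfl) TB_fr TB_cov ?_
  · intro X Y h
    simp only [List.forall_mem_cons, List.not_mem_nil, false_imp_iff, implies_true, and_true] at h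
    push_cast at h ⊢
    obtain ⟨h0, h1, h2, h3, h4⟩ := h
    refine ⟨⟨?_, ?_⟩, ?_, ?_⟩ <;> linarith

end Pool.Agent.TET
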