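import Pool.Agent.Helper38_TET.TB_C

/-!
# MP_c7c9bf_co: certificates, family TB
-/

set_option autoImplicit false
set_option maxRecDepth 100000

namespace Pool.Agent.TET

theorem TB_rg432 : ROK [.q ⟨-269, -211, 480, 0⟩ ⟨-691, 211, 480, 0⟩, .q ⟨265, 215, -480, 0⟩ ⟨-695, 215, 480, 0⟩, .q ⟨691, -211, -480, 0⟩ ⟨12347, -8347, 0, -4000⟩, .q ⟨695, -215, -480, 0⟩ ⟨12347, -8347, 0, -4000⟩, .q ⟨691, -211, -480, 0⟩ ⟨1238, -1523, -2682, 2967⟩, .q ⟨695, -215, -480, 0⟩ ⟨1238, -1523, -2682, 2967⟩, .q ⟨691, -211, -480, 0⟩ ⟨1685, 3944, -2538, -3091⟩, .q ⟨695, -215, -480, 0⟩ ⟨1685, 3944, -2538, -3091⟩] := by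
  refine rok_bs (s := -1) (nlo := 211) (nhi := 215) (q := 480) (by decide) (by decide) (by decide) (by decide) (k := 1) (by decide) (Q := [(0, 4000, 8347), (-2682, -2967, 1523), (-2538, 3091, -3944)])
    (P := [⟨-6481920, -480, 0⟩, ⟨6604800, 480, 0⟩, ⟨256419840, 0, 4000⟩, ⟨46786560, -2682, -2967⟩, ⟨-121159680, -2538, 3091⟩]) rfl rfl
    (List.mem_of_getElem? (i := 432) rfl) TB_fr TB_cov ?_
  · intro X Y h
    simp only [List.forall_mem_cons, List.not_mem_nil, false_imp_iff, implies_true, and_true] at h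
    push_cast at h ⊢
    obtain ⟨h0, h1, h2, h3, h4⟩ := h
    refine ⟨⟨?_, ?_⟩, ?_, ?_⟩ <;> linarith

theorem TB_rg433 : ROK [.q ⟨-8, -952, 960, 0⟩ ⟨-1912, 952, 960, 0⟩, .q ⟨1, 959, -960, 0⟩ ⟨-1919, 959, 960, 0⟩, .q ⟨1912, -952, -960, 0⟩ ⟨4125, -438, 302, -3989⟩, .q ⟨1919, -959, -960, 0⟩ ⟨4125, -438, 302, -3989⟩, .q ⟨1912, -952, -960, 0⟩ ⟨-3702, 15, -302, 3989⟩, .q ⟨1919, -959, -960, 0⟩ ⟨-3702, 15, -302, 3989⟩] := by
  refine rok_bs (s := -1) (nlo := 952) (nhi := 959) (q := 960) (by decide) (by decide) (by decide) (by decide) (k := 1) (by decide) (Q := [(302, 3989, 438), (-302, -3989, -15)])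
    (P := [⟨-29245440, -960, 0⟩, ⟨29460480, 960, 0⟩, ⟨13455360, 302, 3989⟩, ⟨-460800, -302, -3989⟩]) rfl rfl
    (List.mem_of_getElem? (i := 433) rfl) TB_fr TB_cov ?_
  · intro X Y h
    simp only [List.forall_mem_cons, List.not_mem_nil, false_imp_iff, implies_true, and_true] at h
    push_cast at h ⊢
    obtain ⟨h0, h1, h2, h3⟩ := h
    refine ⟨⟨?_, ?_⟩, ?_, ?_⟩ <;> linarith

theorem TB_rg434 : ROK [.q ⟨-538, -422, 960, 0⟩ ⟨-1382, 422, 960, 0⟩, .q ⟨529, 431, -960, 0⟩ ⟨-1391, 431, 960, 0⟩, .q ⟨1382, -422, -960, 0⟩ ⟨113, 887, 0, -1000⟩, .q ⟨1391, -431, -960, 0⟩ ⟨113, 887, 0, -1000⟩, .q ⟨1382, -422, -960, 0⟩ ⟨-323, -3677, 0, 4000⟩, .q ⟨1391, -431, -960, 0⟩ ⟨-323, -3677, 0, 4000⟩] := by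
  refine rok_bs (s := -1) (nlo := 422) (nhi := 431) (q := 960) (by decide) (by decide) (by decide) (by decide) (k := 1) (by decide) (Q := [(0, 1000, -887), (0, -4000, 3677)])
    (P := [⟨-12963840, -960, 0⟩, ⟨13240320, 960, 0⟩, ⟨-27248640, 0, 1000⟩, ⟨112957440, 0, -4000⟩]) rfl rfl
    (List.mem_of_getElem? (i := 434) rfl) TB_fr TB_cov ?_
  · intro X Y h
    simp only [List.forall_mem_cons, List.not_mem_nil, false_imp_iff, implies_true, and_true] at h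
    push_cast at h ⊢
    obtain ⟨h0, h1, h2, h3⟩ := h
    refine ⟨⟨?_, ?_⟩, ?_, ?_⟩ <;> linarith

theorem TB_rg435 : ROK [.q ⟨-269, -211, 480, 0⟩ ⟨-691, 211, 480, 0⟩, .q ⟨266, 214, -480, 0⟩ ⟨-694, 214, 480, 0⟩, .q ⟨691, -211, -480, 0⟩ ⟨-439, 981, 1117, -1659⟩, .q ⟨694, -214, -480, 0⟩ ⟨-439, 981, 1117, -1659⟩, .q ⟨691, -211, -480, 0⟩ ⟨456, -1095, -1058, 1697⟩, .q ⟨694, -214, -480, 0⟩ ⟨456, -1095, -1058, 1697⟩] := by
  refine rok_bs (s := -1) (nlo := 211) (nhi := 214) (q := 480) (by decide) (by decide) (by decide) (by decide) (k := 1) (by decide) (Q := [(1117, 1659, -981), (-1058, -1697, 1095)])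
    (P := [⟨-6481920, -480, 0⟩, ⟨6574080, 480, 0⟩, ⟨-30136320, 1117, 1659⟩, ⟨33638400, -1058, -1697⟩]) rfl rfl
    (List.mem_of_getElem? (i := 435) rfl) TB_fr TB_cov ?_
  · intro X Y h
    simp only [List.forall_mem_cons, List.not_mem_nil, false_imp_iff, implies_true, and_true] at h
    push_cast at h ⊢
    obtain ⟨h0, h1, h2, h3⟩ := h
    refine ⟨⟨?_, ?_⟩, ?_, ?_⟩ <;> linarith

theorem TB_rg436 : ROK [.q ⟨-268, -212, 480, 0⟩ ⟨-692, 212, 480, 0⟩, .q ⟨265, 215, -480, 0⟩ ⟨-695, 215, 480, 0⟩, .q ⟨692, -212, -480, 0⟩ ⟨229, 1771, 0, -2000⟩, .q ⟨695, -215, -480, 0⟩ ⟨229, 1771, 0, -2000⟩, .q ⟨692, -212, -480, 0⟩ ⟨-929, -4042, 1136, 3835⟩, .q ⟨695, -215, -480, 0⟩ ⟨-929, -4042, 1136, 3835⟩] := by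
  refine rok_bs (s := -1) (nlo := 212) (nhi := 215) (q := 480) (by decide) (by decide) (by decide) (by decide) (k := 1) (by decide) (Q := [(0, 2000, -1771), (1136, -3835, 4042)])
    (P := [⟨-6512640, -480, 0⟩, ⟨6604800, 480, 0⟩, ⟨-54405120, 0, 2000⟩, ⟨124170240, 1136, -3835⟩]) rfl rfl
    (List.mem_of_getElem? (i := 436) rfl) TB_fr TB_cov ?_
  · intro X Y h
    simp only [List.forall_mem_cons, List.not_mem_nil, false_imp_iff, implies_true, and_true] at h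
    push_cast at h ⊢
    obtain ⟨h0, h1, h2, h3⟩ := h
    refine ⟨⟨?_, ?_⟩, ?_, ?_⟩ <;> linarith

theorem TB_rg437 : ROK [.q ⟨-179, -141, 320, 0⟩ ⟨-461, 141, 320, 0⟩, .q ⟨176, 144, -320, 0⟩ ⟨-464, 144, 320, 0⟩, .q ⟨461, -141, -320, 0⟩ ⟨716, 3729, -473, -3972⟩, .q ⟨464, -144, -320, 0⟩ ⟨716, 3729, -473, -3972⟩, .q ⟨461, -141, -320, 0⟩ ⟨832, -2331, -1978, 3477⟩, .q ⟨464, -144, -320, 0⟩ ⟨832, -2331, -1978, 3477⟩] := by
  refine rok_bs (s := -1) (nlo := 141) (nhi := 144) (q := 320) (by decide) (by decide) (by decide) (by decide) (k := 1) (by decide) (Q := [(-473, 3972, -3729), (-1978, -3477, 2331)])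
    (P := [⟨-4331520, -320, 0⟩, ⟨4423680, 320, 0⟩, ⟨-114554880, -473, 3972⟩, ⟨71608320, -1978, -3477⟩]) rfl rfl
    (List.mem_of_getElem? (i := 437) rfl) TB_fr TB_cov ?_
  · intro X Y h
    simp only [List.forall_mem_cons, List.not_mem_nil, false_imp_iff, implies_true, and_true] at h
    push_cast at h ⊢
    obtain ⟨h0, h1, h2, h3⟩ := h
    refine ⟨⟨?_, ?_⟩, ?_, ?_⟩ <;> linarith

theorem TB_rg438 : ROK [.q ⟨-45, -35, 80, 0⟩ ⟨-115, 35, 80, 0⟩, .q ⟨44, 36, -80, 0⟩ ⟨-116, 36, 80, 0⟩, .q ⟨115, -35, -80, 0⟩ ⟨429, 1961, -439, -1951⟩, .q ⟨116, -36, -80, 0⟩ ⟨429, 1961, -439, -1951⟩, .q ⟨115, -35, -80, 0⟩ ⟨242, -1399, -712, 1869⟩, .q ⟨116, -36, -80, 0⟩ ⟨242, -1399, -712, 1869⟩] := by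
  refine rok_bs (s := -1) (nlo := 35) (nhi := 36) (q := 80) (by decide) (by decide) (by decide) (by decide) (k := 1) (by decide) (Q := [(-439, 1951, -1961), (-712, -1869, 1399)])
    (P := [⟨-1075200, -80, 0⟩, ⟨1105920, 80, 0⟩, ⟨-60241920, -439, 1951⟩, ⟨42977280, -712, -1869⟩]) rfl rfl
    (List.mem_of_getElem? (i := 438) rfl) TB_fr TB_cov ?_
  · intro X Y h
    simp only [List.forall_mem_cons, List.not_mem_nil, false_imp_iff, implies_true, and_true] at h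
    push_cast at h ⊢
    obtain ⟨h0, h1, h2, h3⟩ := h
    refine ⟨⟨?_, ?_⟩, ?_, ?_⟩ <;> linarith

theorem TB_rg439 : ROK [.q ⟨-534, -426, 960, 0⟩ ⟨-1386, 426, 960, 0⟩, .q ⟨527, 433, -960, 0⟩ ⟨-1393, 433, 960, 0⟩, .q ⟨1386, -426, -960, 0⟩ ⟨2293, -1493, 0, -800⟩, .q ⟨1393, -433, -960, 0⟩ ⟨2293, -1493, 0, -800⟩, .q ⟨1386, -426, -960, 0⟩ ⟨-9, -116, 0, 125⟩, .q ⟨1393, -433, -960, 0⟩ ⟨-9, -116, 0, 125⟩, .q ⟨1386, -426, -960, 0⟩ ⟨2155, 3267, -3519, -1903⟩, .q ⟨1393, -433, -960, 0⟩ ⟨2155, 3267, -3519, -1903⟩] := by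
  refine rok_bs (s := -1) (nlo := 426) (nhi := 433) (q := 960) (by decide) (by decide) (by decide) (by decide) (k := 1) (by decide) (Q := [(0, 800, 1493), (0, -125, 116), (-3519, 1903, -3267)])
    (P := [⟨-13086720, -960, 0⟩, ⟨13301760, 960, 0⟩, ⟨45864960, 0, 800⟩, ⟨3563520, 0, -125⟩, ⟨-100362240, -3519, 1903⟩]) rfl rfl
    (List.mem_of_getElem? (i := 439) rfl) TB_fr TB_cov ?_
  · intro X Y h
    simp only [List.forall_mem_cons, List.not_mem_nil, false_imp_iff, implies_true, and_true] at h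
    push_cast at h ⊢
    obtain ⟨h0, h1, h2, h3, h4⟩ := h
    refine ⟨⟨?_, ?_⟩, ?_, ?_⟩ <;> linarith

theorem TB_rg440 : ROK [.q ⟨-272, -208, 480, 0⟩ ⟨-688, 208, 480, 0⟩, .q ⟨263, 217, -480, 0⟩ ⟨-697, 217, 480, 0⟩, .q ⟨688, -208, -480, 0⟩ ⟨11341, -9472, 1735, -3604⟩, .q ⟨697, -217, -480, 0⟩ ⟨11341, -9472, 1735, -3604⟩, .q ⟨688, -208, -480, 0⟩ ⟨397, -2996, -1213, 3812⟩, .q ⟨697, -217, -480, 0⟩ ⟨397, -2996, -1213, 3812⟩, .q ⟨688, -208, -480, 0⟩ ⟨1882, 3774, -2891, -2765⟩, .q ⟨697, -217, -480, 0⟩ ⟨1882, 3774, -2891, -2765⟩, .q ⟨688, -208, -480, 0⟩ ⟨1890, 32, -3621, 1699⟩, .q ⟨697, -217, -480, 0⟩ ⟨1890, 32, -3621, 1699⟩] := by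
  refine rok_bs (s := -1) (nlo := 208) (nhi := 217) (q := 480) (by decide) (by decide) (by decide) (by decide) (k := 1) (by decide) (Q := [(1735, 3604, 9472), (-1213, -3812, 2996), (-2891, 2765, -3774), (-3621, -1699, -32)])
    (P := [⟨-6389760, -480, 0⟩, ⟨6666240, 480, 0⟩, ⟨290979840, 1735, 3604⟩, ⟨92037120, -1213, -3812⟩, ⟨-115937280, -2891, 2765⟩, ⟨-983040, -3621, -1699⟩]) rfl rfl
    (List.mem_of_getElem? (i := 440) rfl) TB_fr TB_cov ?_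
  · intro X Y h
    simp only [List.forall_mem_cons, List.not_mem_nil, false_imp_iff, implies_true, and_true] at h
    push_cast at h ⊢
    obtain ⟨h0, h1, h2, h3, h4, h5⟩ := h
    refine ⟨⟨?_, ?_⟩, ?_, ?_⟩ <;> linarith

theorem TB_rg441 : ROK [.q ⟨-541, -419, 960, 0⟩ ⟨-1379, 419, 960, 0⟩, .q ⟨533, 427, -960, 0⟩ ⟨-1387, 427, 960, 0⟩, .q ⟨1379, -419, -960, 0⟩ ⟨626, 3801, -453, -3974⟩, .q ⟨1387, -427, -960, 0⟩ ⟨626, 3801, -453, -3974⟩, .q ⟨1379, -419, -960, 0⟩ ⟨-573, -3854, 453, 3974⟩, .q ⟨1387, -427, -960, 0⟩ ⟨-573, -3854, 453, 3974⟩, .q ⟨1379, -419, -960, 0⟩ ⟨1931, 162, -3674, 1581⟩, .q ⟨1387, -427, -960, 0⟩ ⟨1931, 162, -3674, 1581⟩] := by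
  refine rok_bs (s := -1) (nlo := 419) (nhi := 427) (q := 960) (by decide) (by decide) (by decide) (by decide) (k := 1) (by decide) (Q := [(-453, 3974, -3801), (453, -3974, 3854), (-3674, -1581, -162)])
    (P := [⟨-12871680, -960, 0⟩, ⟨13117440, 960, 0⟩, ⟨-116766720, -453, 3974⟩, ⟨118394880, 453, -3974⟩, ⟨-4976640, -3674, -1581⟩]) rfl rfl
    (List.mem_of_getElem? (i := 441) rfl) TB_fr TB_cov ?_
  · intro X Y h
    simp only [List.forall_mem_cons, List.not_mem_nil, false_imp_iff, implies_true, and_true] at h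
    push_cast at h ⊢
    obtain ⟨h0, h1, h2, h3, h4⟩ := h
    refine ⟨⟨?_, ?_⟩, ?_, ?_⟩ <;> linarith

theorem TB_rg442 : ROK [.q ⟨-134, -106, 240, 0⟩ ⟨-346, 106, 240, 0⟩, .q ⟨129, 111, -240, 0⟩ ⟨-351, 111, 240, 0⟩, .q ⟨346, -106, -240, 0⟩ ⟨229, 1771, 0, -2000⟩, .q ⟨351, -111, -240, 0⟩ ⟨229, 1771, 0, -2000⟩, .q ⟨346, -106, -240, 0⟩ ⟨-307, -3693, 0, 4000⟩, .q ⟨351, -111, -240, 0⟩ ⟨-307, -3693, 0, 4000⟩] := by
  refine rok_bs (s := -1) (nlo := 106) (nhi := 111) (q := 240) (by decide) (by decide) (by decide) (by decide) (k := 1) (by decide) (Q := [(0, 2000, -1771), (0, -4000, 3693)])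
    (P := [⟨-3256320, -240, 0⟩, ⟨3409920, 240, 0⟩, ⟨-54405120, 0, 2000⟩, ⟨113448960, 0, -4000⟩]) rfl rfl
    (List.mem_of_getElem? (i := 442) rfl) TB_fr TB_cov ?_
  · intro X Y h
    simp only [List.forall_mem_cons, List.not_mem_nil, false_imp_iff, implies_true, and_true] at h
    push_cast at h ⊢
    obtain ⟨h0, h1, h2, h3⟩ := h
    refine ⟨⟨?_, ?_⟩, ?_, ?_⟩ <;> linarith

theorem TB_rg443 : ROK [.q ⟨-267, -213, 480, 0⟩ ⟨-693, 213, 480, 0⟩, .q ⟨259, 221, -480, 0⟩ ⟨-701, 221, 480, 0⟩, .q ⟨693, -213, -480, 0⟩ ⟨461, 3539, 0, -4000⟩, .q ⟨701, -221, -480, 0⟩ ⟨461, 3539, 0, -4000⟩, .q ⟨693, -213, -480, 0⟩ ⟨-9, -116, 0, 125⟩, .q ⟨701, -221, -480, 0⟩ ⟨-9, -116, 0, 125⟩] := by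
  refine rok_bs (s := -1) (nlo := 213) (nhi := 221) (q := 480) (by decide) (by decide) (by decide) (by decide) (k := 1) (by decide) (Q := [(0, 4000, -3539), (0, -125, 116)])
    (P := [⟨-6543360, -480, 0⟩, ⟨6789120, 480, 0⟩, ⟨-108718080, 0, 4000⟩, ⟨3563520, 0, -125⟩]) rfl rfl
    (List.mem_of_getElem? (i := 443) rfl) TB_fr TB_cov ?_
  · intro X Y h
    simp only [List.forall_mem_cons, List.not_mem_nil, false_imp_iff, implies_true, and_true] at h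
    push_cast at h ⊢
    obtain ⟨h0, h1, h2, h3⟩ := h
    refine ⟨⟨?_, ?_⟩, ?_, ?_⟩ <;> linarith

theorem TB_rg444 : ROK [.q ⟨-539, -421, 960, 0⟩ ⟨-1381, 421, 960, 0⟩, .q ⟨531, 429, -960, 0⟩ ⟨-1389, 429, 960, 0⟩, .q ⟨1381, -421, -960, 0⟩ ⟨-65, 447, 240, -622⟩, .q ⟨1389, -429, -960, 0⟩ ⟨-65, 447, 240, -622⟩, .q ⟨1381, -421, -960, 0⟩ ⟨344, -2989, -1178, 3823⟩, .q ⟨1389, -429, -960, 0⟩ ⟨344, -2989, -1178, 3823⟩] := by
  refine rok_bs (s := -1) (nlo := 421) (nhi := 429) (q := 960) (by decide) (by decide) (by decide) (by decide) (k := 1) (by decide) (Q := [(240, 622, -447), (-1178, -3823, 2989)])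
    (P := [⟨-12933120, -960, 0⟩, ⟨13178880, 960, 0⟩, ⟨-13731840, 240, 622⟩, ⟨91822080, -1178, -3823⟩]) rfl rfl
    (List.mem_of_getElem? (i := 444) rfl) TB_fr TB_cov ?_
  · intro X Y h
    simp only [List.forall_mem_cons, List.not_mem_nil, false_imp_iff, implies_true, and_true] at h
    push_cast at h ⊢
    obtain ⟨h0, h1, h2, h3⟩ := h
    refine ⟨⟨?_, ?_⟩, ?_, ?_⟩ <;> linarith

theorem TB_rg445 : ROK [.q ⟨-269, -211, 480, 0⟩ ⟨-691, 211, 480, 0⟩, .q ⟨263, 217, -480, 0⟩ ⟨-697, 217, 480, 0⟩, .q ⟨691, -211, -480, 0⟩ ⟨-921, 1892, 2301, -3272⟩, .q ⟨697, -217, -480, 0⟩ ⟨-921, 1892, 2301, -3272⟩, .q ⟨691, -211, -480, 0⟩ ⟨1025, -1996, -2301, 3272⟩, .q ⟨697, -217, -480, 0⟩ ⟨1025, -1996, -2301, 3272⟩] := by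
  refine rok_bs (s := -1) (nlo := 211) (nhi := 217) (q := 480) (by decide) (by decide) (by decide) (by decide) (k := 1) (by decide) (Q := [(2301, 3272, -1892), (-2301, -3272, 1996)])
    (P := [⟨-6481920, -480, 0⟩, ⟨6666240, 480, 0⟩, ⟨-58122240, 2301, 3272⟩, ⟨61317120, -2301, -3272⟩]) rfl rfl
    (List.mem_of_getElem? (i := 445) rfl) TB_fr TB_cov ?_
  · intro X Y h
    simp only [List.forall_mem_cons, List.not_mem_nil, false_imp_iff, implies_true, and_true] at h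
    push_cast at h ⊢
    obtain ⟨h0, h1, h2, h3⟩ := h
    refine ⟨⟨?_, ?_⟩, ?_, ?_⟩ <;> linarith

theorem TB_rg446 : ROK [.q ⟨-539, -421, 960, 0⟩ ⟨-1381, 421, 960, 0⟩, .q ⟨530, 430, -960, 0⟩ ⟨-1390, 430, 960, 0⟩, .q ⟨1381, -421, -960, 0⟩ ⟨8547, -4547, 0, -4000⟩, .q ⟨1390, -430, -960, 0⟩ ⟨8547, -4547, 0, -4000⟩, .q ⟨1381, -421, -960, 0⟩ ⟨-83, -917, 0, 1000⟩, .q ⟨1390, -430, -960, 0⟩ ⟨-83, -917, 0, 1000⟩, .q ⟨1381, -421, -960, 0⟩ ⟨-1335, 1145, 2922, -2732⟩, .q ⟨1390, -430, -960, 0⟩ ⟨-1335, 1145, 2922, -2732⟩] := by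
  refine rok_bs (s := -1) (nlo := 421) (nhi := 430) (q := 960) (by decide) (by decide) (by decide) (by decide) (k := 1) (by decide) (Q := [(0, 4000, 4547), (0, -1000, 917), (2922, 2732, -1145)])
    (P := [⟨-12933120, -960, 0⟩, ⟨13209600, 960, 0⟩, ⟨139683840, 0, 4000⟩, ⟨28170240, 0, -1000⟩, ⟨-35174400, 2922, 2732⟩]) rfl rfl
    (List.mem_of_getElem? (i := 446) rfl) TB_fr TB_cov ?_
  · intro X Y h
    simp only [List.forall_mem_cons, List.not_mem_nil, false_imp_iff, implies_true, and_true] at h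
    push_cast at h ⊢
    obtain ⟨h0, h1, h2, h3, h4⟩ := h
    refine ⟨⟨?_, ?_⟩, ?_, ?_⟩ <;> linarith

theorem TB_rg447 : ROK [.q ⟨-538, -422, 960, 0⟩ ⟨-1382, 422, 960, 0⟩, .q ⟨527, 433, -960, 0⟩ ⟨-1393, 433, 960, 0⟩, .q ⟨1382, -422, -960, 0⟩ ⟨1213, 3940, -1410, -3743⟩, .q ⟨1393, -433, -960, 0⟩ ⟨1213, 3940, -1410, -3743⟩, .q ⟨1382, -422, -960, 0⟩ ⟨877, -2246, -2060, 3429⟩, .q ⟨1393, -433, -960, 0⟩ ⟨877, -2246, -2060, 3429⟩] := by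
  refine rok_bs (s := -1) (nlo := 422) (nhi := 433) (q := 960) (by decide) (by decide) (by decide) (by decide) (k := 1) (by decide) (Q := [(-1410, 3743, -3940), (-2060, -3429, 2246)])
    (P := [⟨-12963840, -960, 0⟩, ⟨13301760, 960, 0⟩, ⟨-121036800, -1410, 3743⟩, ⟨68997120, -2060, -3429⟩]) rfl rfl
    (List.mem_of_getElem? (i := 447) rfl) TB_fr TB_cov ?_
  · intro X Y h
    simp only [List.forall_mem_cons, List.not_mem_nil, false_imp_iff, implies_true, and_true] at h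
    push_cast at h ⊢
    obtain ⟨h0, h1, h2, h3⟩ := h
    refine ⟨⟨?_, ?_⟩, ?_, ?_⟩ <;> linarith

theorem TB_rg448 : ROK [.q ⟨-119, -121, 240, 0⟩ ⟨-361, 121, 240, 0⟩, .q ⟨116, 124, -240, 0⟩ ⟨-364, 124, 240, 0⟩, .q ⟨361, -121, -240, 0⟩ ⟨925, 3762, -760, -3927⟩, .q ⟨364, -124, -240, 0⟩ ⟨925, 3762, -760, -3927⟩, .q ⟨361, -121, -240, 0⟩ ⟨703, -3210, -1282, 3789⟩, .q ⟨364, -124, -240, 0⟩ ⟨703, -3210, -1282, 3789⟩] := by
  refine rok_bs (s := -1) (nlo := 121) (nhi := 124) (q := 240) (by decide) (by decide) (by decide) (by decide) (k := 1) (by decide) (Q := [(-760, 3927, -3762), (-1282, -3789, 3210)])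
    (P := [⟨-3717120, -240, 0⟩, ⟨3809280, 240, 0⟩, ⟨-115568640, -760, 3927⟩, ⟨98611200, -1282, -3789⟩]) rfl rfl
    (List.mem_of_getElem? (i := 448) rfl) TB_fr TB_cov ?_
  · intro X Y h
    simp only [List.forall_mem_cons, List.not_mem_nil, false_imp_iff, implies_true, and_true] at h
    push_cast at h ⊢
    obtain ⟨h0, h1, h2, h3⟩ := h
    refine ⟨⟨?_, ?_⟩, ?_, ?_⟩ <;> linarith

theorem TB_rg449 : ROK [.q ⟨-540, -420, 960, 0⟩ ⟨-1380, 420, 960, 0⟩, .q ⟨533, 427, -960, 0⟩ ⟨-1387, 427, 960, 0⟩, .q ⟨1380, -420, -960, 0⟩ ⟨187, 1813, 0, -2000⟩, .q ⟨1387, -427, -960, 0⟩ ⟨187, 1813, 0, -2000⟩, .q ⟨1380, -420, -960, 0⟩ ⟨818, -2315, -1979, 3476⟩, .q ⟨1387, -427, -960, 0⟩ ⟨818, -2315, -1979, 3476⟩] := by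
  refine rok_bs (s := -1) (nlo := 420) (nhi := 427) (q := 960) (by decide) (by decide) (by decide) (by decide) (k := 1) (by decide) (Q := [(0, 2000, -1813), (-1979, -3476, 2315)])
    (P := [⟨-12902400, -960, 0⟩, ⟨13117440, 960, 0⟩, ⟨-55695360, 0, 2000⟩, ⟨71116800, -1979, -3476⟩]) rfl rfl
    (List.mem_of_getElem? (i := 449) rfl) TB_fr TB_cov ?_
  · intro X Y h
    simp only [List.forall_mem_cons, List.not_mem_nil, false_imp_iff, implies_true, and_true] at h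
    push_cast at h ⊢
    obtain ⟨h0, h1, h2, h3⟩ := h
    refine ⟨⟨?_, ?_⟩, ?_, ?_⟩ <;> linarith

theorem TB_rg450 : ROK [.q ⟨-539, -421, 960, 0⟩ ⟨-1381, 421, 960, 0⟩, .q ⟨532, 428, -960, 0⟩ ⟨-1388, 428, 960, 0⟩, .q ⟨1381, -421, -960, 0⟩ ⟨-1156, 1493, 2655, -2992⟩, .q ⟨1388, -428, -960, 0⟩ ⟨-1156, 1493, 2655, -2992⟩, .q ⟨1381, -421, -960, 0⟩ ⟨1242, -1579, -2655, 2992⟩, .q ⟨1388, -428, -960, 0⟩ ⟨1242, -1579, -2655, 2992⟩] := by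
  refine rok_bs (s := -1) (nlo := 421) (nhi := 428) (q := 960) (by decide) (by decide) (by decide) (by decide) (k := 1) (by decide) (Q := [(2655, 2992, -1493), (-2655, -2992, 1579)])
    (P := [⟨-12933120, -960, 0⟩, ⟨13148160, 960, 0⟩, ⟨-45864960, 2655, 2992⟩, ⟨48506880, -2655, -2992⟩]) rfl rfl
    (List.mem_of_getElem? (i := 450) rfl) TB_fr TB_cov ?_
  · intro X Y h
    simp only [List.forall_mem_cons, List.not_mem_nil, false_imp_iff, implies_true, and_true] at h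
    push_cast at h ⊢
    obtain ⟨h0, h1, h2, h3⟩ := h
    refine ⟨⟨?_, ?_⟩, ?_, ?_⟩ <;> linarith

theorem TB_rg451 : ROK [.q ⟨-539, -421, 960, 0⟩ ⟨-1381, 421, 960, 0⟩, .q ⟨532, 428, -960, 0⟩ ⟨-1388, 428, 960, 0⟩, .q ⟨1381, -421, -960, 0⟩ ⟨9845, -8552, 2107, -3400⟩, .q ⟨1388, -428, -960, 0⟩ ⟨9845, -8552, 2107, -3400⟩, .q ⟨1381, -421, -960, 0⟩ ⟨71, -3299, -709, 3937⟩, .q ⟨1388, -428, -960, 0⟩ ⟨71, -3299, -709, 3937⟩, .q ⟨1381, -421, -960, 0⟩ ⟨-524, 844, 1245, -1565⟩, .q ⟨1388, -428, -960, 0⟩ ⟨-524, 844, 1245, -1565⟩] := by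
  refine rok_bs (s := -1) (nlo := 421) (nhi := 428) (q := 960) (by decide) (by decide) (by decide) (by decide) (k := 1) (by decide) (Q := [(2107, 3400, 8552), (-709, -3937, 3299), (1245, 1565, -844)])
    (P := [⟨-12933120, -960, 0⟩, ⟨13148160, 960, 0⟩, ⟨262717440, 2107, 3400⟩, ⟨101345280, -709, -3937⟩, ⟨-25927680, 1245, 1565⟩]) rfl rfl
    (List.mem_of_getElem? (i := 451) rfl) TB_fr TB_cov ?_
  · intro X Y h
    simp only [List.forall_mem_cons, List.not_mem_nil, false_imp_iff, implies_true, and_true] at h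
    push_cast at h ⊢
    obtain ⟨h0, h1, h2, h3, h4⟩ := h
    refine ⟨⟨?_, ?_⟩, ?_, ?_⟩ <;> linarith

theorem TB_rg452 : ROK [.q ⟨-135, -105, 240, 0⟩ ⟨-345, 105, 240, 0⟩, .q ⟨133, 107, -240, 0⟩ ⟨-347, 107, 240, 0⟩, .q ⟨345, -105, -240, 0⟩ ⟨187, 1813, 0, -2000⟩, .q ⟨347, -107, -240, 0⟩ ⟨187, 1813, 0, -2000⟩, .q ⟨345, -105, -240, 0⟩ ⟨-339, -3661, 0, 4000⟩, .q ⟨347, -107, -240, 0⟩ ⟨-339, -3661, 0, 4000⟩] := by
  refine rok_bs (s := -1) (nlo := 105) (nhi := 107) (q := 240) (by decide) (by decide) (by decide) (by decide) (k := 1) (by decide) (Q := [(0, 2000, -1813), (0, -4000, 3661)])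
    (P := [⟨-3225600, -240, 0⟩, ⟨3287040, 240, 0⟩, ⟨-55695360, 0, 2000⟩, ⟨112465920, 0, -4000⟩]) rfl rfl
    (List.mem_of_getElem? (i := 452) rfl) TB_fr TB_cov ?_
  · intro X Y h
    simp only [List.forall_mem_cons, List.not_mem_nil, false_imp_iff, implies_true, and_true] at h
    push_cast at h ⊢
    obtain ⟨h0, h1, h2, h3⟩ := h
    refine ⟨⟨?_, ?_⟩, ?_, ?_⟩ <;> linarith

theorem TB_rg453 : ROK [.q ⟨-133, -107, 240, 0⟩ ⟨-347, 107, 240, 0⟩, .q ⟨128, 112, -240, 0⟩ ⟨-352, 112, 240, 0⟩, .q ⟨347, -107, -240, 0⟩ ⟨629, 3659, -299, -3989⟩, .q ⟨352, -112, -240, 0⟩ ⟨629, 3659, -299, -3989⟩, .q ⟨347, -107, -240, 0⟩ ⟨-446, -3842, 299, 3989⟩, .q ⟨352, -112, -240, 0⟩ ⟨-446, -3842, 299, 3989⟩] := by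
  refine rok_bs (s := -1) (nlo := 107) (nhi := 112) (q := 240) (by decide) (by decide) (by decide) (by decide) (k := 1) (by decide) (Q := [(-299, 3989, -3659), (299, -3989, 3842)])
    (P := [⟨-3287040, -240, 0⟩, ⟨3440640, 240, 0⟩, ⟨-112404480, -299, 3989⟩, ⟨118026240, 299, -3989⟩]) rfl rfl
    (List.mem_of_getElem? (i := 453) rfl) TB_fr TB_cov ?_
  · intro X Y h
    simp only [List.forall_mem_cons, List.not_mem_nil, false_imp_iff, implies_true, and_true] at h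
    push_cast at h ⊢
    obtain ⟨h0, h1, h2, h3⟩ := h
    refine ⟨⟨?_, ?_⟩, ?_, ?_⟩ <;> linarith

theorem TB_rg454 : ROK [.q ⟨-539, -421, 960, 0⟩ ⟨-1381, 421, 960, 0⟩, .q ⟨533, 427, -960, 0⟩ ⟨-1387, 427, 960, 0⟩, .q ⟨1381, -421, -960, 0⟩ ⟨377, 1880, -276, -1981⟩, .q ⟨1387, -427, -960, 0⟩ ⟨377, 1880, -276, -1981⟩, .q ⟨1381, -421, -960, 0⟩ ⟨509, -997, -1149, 1637⟩, .q ⟨1387, -427, -960, 0⟩ ⟨509, -997, -1149, 1637⟩] := by
  refine rok_bs (s := -1) (nlo := 421) (nhi := 427) (q := 960) (by decide) (by decide) (by decide) (by decide) (k := 1) (by decide) (Q := [(-276, 1981, -1880), (-1149, -1637, 997)])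
    (P := [⟨-12933120, -960, 0⟩, ⟨13117440, 960, 0⟩, ⟨-57753600, -276, 1981⟩, ⟨30627840, -1149, -1637⟩]) rfl rfl
    (List.mem_of_getElem? (i := 454) rfl) TB_fr TB_cov ?_
  · intro X Y h
    simp only [List.forall_mem_cons, List.not_mem_nil, false_imp_iff, implies_true, and_true] at h
    push_cast at h ⊢
    obtain ⟨h0, h1, h2, h3⟩ := h
    refine ⟨⟨?_, ?_⟩, ?_, ?_⟩ <;> linarith

theorem TB_rg455 : ROK [.q ⟨-269, -211, 480, 0⟩ ⟨-691, 211, 480, 0⟩, .q ⟨265, 215, -480, 0⟩ ⟨-695, 215, 480, 0⟩, .q ⟨691, -211, -480, 0⟩ ⟨-588, 721, 1346, -1479⟩, .q ⟨695, -215, -480, 0⟩ ⟨-588, 721, 1346, -1479⟩, .q ⟨691, -211, -480, 0⟩ ⟨104, -1583, -466, 1945⟩, .q ⟨695, -215, -480, 0⟩ ⟨104, -1583, -466, 1945⟩] := by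
  refine rok_bs (s := -1) (nlo := 211) (nhi := 215) (q := 480) (by decide) (by decide) (by decide) (by decide) (k := 1) (by decide) (Q := [(1346, 1479, -721), (-466, -1945, 1583)])
    (P := [⟨-6481920, -480, 0⟩, ⟨6604800, 480, 0⟩, ⟨-22149120, 1346, 1479⟩, ⟨48629760, -466, -1945⟩]) rfl rfl
    (List.mem_of_getElem? (i := 455) rfl) TB_fr TB_cov ?_
  · intro X Y h
    simp only [List.forall_mem_cons, List.not_mem_nil, false_imp_iff, implies_true, and_true] at h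
    push_cast at h ⊢
    obtain ⟨h0, h1, h2, h3⟩ := h
    refine ⟨⟨?_, ?_⟩, ?_, ?_⟩ <;> linarith

end Pool.Agent.TET
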