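import Pool.Agent.Helper38_TET.TB_C

/-!
# MP_c7c9bf_co: certificates, family TB
-/

set_option autoImplicit false
set_option maxRecDepth 100000

namespace Pool.Agent.TET

theorem TB_rg456 : ROK [.q ⟨-539, -421, 960, 0⟩ ⟨-1381, 421, 960, 0⟩, .q ⟨533, 427, -960, 0⟩ ⟨-1387, 427, 960, 0⟩, .q ⟨1381, -421, -960, 0⟩ ⟨12349, -8349, 0, -4000⟩, .q ⟨1387, -427, -960, 0⟩ ⟨12349, -8349, 0, -4000⟩, .q ⟨1381, -421, -960, 0⟩ ⟨-83, -917, 0, 1000⟩, .q ⟨1387, -427, -960, 0⟩ ⟨-83, -917, 0, 1000⟩, .q ⟨1381, -421, -960, 0⟩ ⟨1690, 3904, -2375, -3219⟩, .q ⟨1387, -427, -960, 0⟩ ⟨1690, 3904, -2375, -3219⟩] := by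
  refine rok_bs (s := -1) (nlo := 421) (nhi := 427) (q := 960) (by decide) (by decide) (by decide) (by decide) (k := 1) (by decide) (Q := [(0, 4000, 8349), (0, -1000, 917), (-2375, 3219, -3904)])
    (P := [⟨-12933120, -960, 0⟩, ⟨13117440, 960, 0⟩, ⟨256481280, 0, 4000⟩, ⟨28170240, 0, -1000⟩, ⟨-119930880, -2375, 3219⟩]) rfl rfl
    (List.mem_of_getElem? (i := 456) rfl) TB_fr TB_cov ?_
  · intro X Y h
    simp only [List.forall_mem_cons, List.not_mem_nil, false_imp_iff, implies_true, and_true] at h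
    push_cast at h ⊢
    obtain ⟨h0, h1, h2, h3, h4⟩ := h
    refine ⟨⟨?_, ?_⟩, ?_, ?_⟩ <;> linarith

theorem TB_rg457 : ROK [.q ⟨-538, -422, 960, 0⟩ ⟨-1382, 422, 960, 0⟩, .q ⟨531, 429, -960, 0⟩ ⟨-1389, 429, 960, 0⟩, .q ⟨1382, -422, -960, 0⟩ ⟨113, 887, 0, -1000⟩, .q ⟨1389, -429, -960, 0⟩ ⟨113, 887, 0, -1000⟩, .q ⟨1382, -422, -960, 0⟩ ⟨435, -2891, -1320, 3776⟩, .q ⟨1389, -429, -960, 0⟩ ⟨435, -2891, -1320, 3776⟩] := by
  refine rok_bs (s := -1) (nlo := 422) (nhi := 429) (q := 960) (by decide) (by decide) (by decide) (by decide) (k := 1) (by decide) (Q := [(0, 1000, -887), (-1320, -3776, 2891)])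
    (P := [⟨-12963840, -960, 0⟩, ⟨13178880, 960, 0⟩, ⟨-27248640, 0, 1000⟩, ⟨88811520, -1320, -3776⟩]) rfl rfl
    (List.mem_of_getElem? (i := 457) rfl) TB_fr TB_cov ?_
  · intro X Y h
    simp only [List.forall_mem_cons, List.not_mem_nil, false_imp_iff, implies_true, and_true] at h
    push_cast at h ⊢
    obtain ⟨h0, h1, h2, h3⟩ := h
    refine ⟨⟨?_, ?_⟩, ?_, ?_⟩ <;> linarith

theorem TB_rg458 : ROK [.q ⟨-269, -211, 480, 0⟩ ⟨-691, 211, 480, 0⟩, .q ⟨264, 216, -480, 0⟩ ⟨-696, 216, 480, 0⟩, .q ⟨691, -211, -480, 0⟩ ⟨384, 3493, 121, -3998⟩, .q ⟨696, -216, -480, 0⟩ ⟨384, 3493, 121, -3998⟩, .q ⟨691, -211, -480, 0⟩ ⟨-255, -3622, -121, 3998⟩, .q ⟨696, -216, -480, 0⟩ ⟨-255, -3622, -121, 3998⟩] := by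
  refine rok_bs (s := -1) (nlo := 211) (nhi := 216) (q := 480) (by decide) (by decide) (by decide) (by decide) (k := 1) (by decide) (Q := [(121, 3998, -3493), (-121, -3998, 3622)])
    (P := [⟨-6481920, -480, 0⟩, ⟨6635520, 480, 0⟩, ⟨-107304960, 121, 3998⟩, ⟨111267840, -121, -3998⟩]) rfl rfl
    (List.mem_of_getElem? (i := 458) rfl) TB_fr TB_cov ?_
  · intro X Y h
    simp only [List.forall_mem_cons, List.not_mem_nil, false_imp_iff, implies_true, and_true] at h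
    push_cast at h ⊢
    obtain ⟨h0, h1, h2, h3⟩ := h
    refine ⟨⟨?_, ?_⟩, ?_, ?_⟩ <;> linarith

theorem TB_rg459 : ROK [.q ⟨-538, -422, 960, 0⟩ ⟨-1382, 422, 960, 0⟩, .q ⟨529, 431, -960, 0⟩ ⟨-1391, 431, 960, 0⟩, .q ⟨1382, -422, -960, 0⟩ ⟨-382, 1071, 1027, -1716⟩, .q ⟨1391, -431, -960, 0⟩ ⟨-382, 1071, 1027, -1716⟩, .q ⟨1382, -422, -960, 0⟩ ⟨437, -1126, -1027, 1716⟩, .q ⟨1391, -431, -960, 0⟩ ⟨437, -1126, -1027, 1716⟩] := by
  refine rok_bs (s := -1) (nlo := 422) (nhi := 431) (q := 960) (by decide) (by decide) (by decide) (by decide) (k := 1) (by decide) (Q := [(1027, 1716, -1071), (-1027, -1716, 1126)])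
    (P := [⟨-12963840, -960, 0⟩, ⟨13240320, 960, 0⟩, ⟨-32901120, 1027, 1716⟩, ⟨34590720, -1027, -1716⟩]) rfl rfl
    (List.mem_of_getElem? (i := 459) rfl) TB_fr TB_cov ?_
  · intro X Y h
    simp only [List.forall_mem_cons, List.not_mem_nil, false_imp_iff, implies_true, and_true] at h
    push_cast at h ⊢
    obtain ⟨h0, h1, h2, h3⟩ := h
    refine ⟨⟨?_, ?_⟩, ?_, ?_⟩ <;> linarith

theorem TB_rg460 : ROK [.q ⟨-269, -211, 480, 0⟩ ⟨-691, 211, 480, 0⟩, .q ⟨264, 216, -480, 0⟩ ⟨-696, 216, 480, 0⟩, .q ⟨691, -211, -480, 0⟩ ⟨-838, 2026, 2171, -3359⟩, .q ⟨696, -216, -480, 0⟩ ⟨-838, 2026, 2171, -3359⟩, .q ⟨691, -211, -480, 0⟩ ⟨945, -2133, -2171, 3359⟩, .q ⟨696, -216, -480, 0⟩ ⟨945, -2133, -2171, 3359⟩] := by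
  refine rok_bs (s := -1) (nlo := 211) (nhi := 216) (q := 480) (by decide) (by decide) (by decide) (by decide) (k := 1) (by decide) (Q := [(2171, 3359, -2026), (-2171, -3359, 2133)])
    (P := [⟨-6481920, -480, 0⟩, ⟨6635520, 480, 0⟩, ⟨-62238720, 2171, 3359⟩, ⟨65525760, -2171, -3359⟩]) rfl rfl
    (List.mem_of_getElem? (i := 460) rfl) TB_fr TB_cov ?_
  · intro X Y h
    simp only [List.forall_mem_cons, List.not_mem_nil, false_imp_iff, implies_true, and_true] at h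
    push_cast at h ⊢
    obtain ⟨h0, h1, h2, h3⟩ := h
    refine ⟨⟨?_, ?_⟩, ?_, ?_⟩ <;> linarith

theorem TB_rg461 : ROK [.q ⟨-90, -70, 160, 0⟩ ⟨-230, 70, 160, 0⟩, .q ⟨89, 71, -160, 0⟩ ⟨-231, 71, 160, 0⟩, .q ⟨230, -70, -160, 0⟩ ⟨187, 1813, 0, -2000⟩, .q ⟨231, -71, -160, 0⟩ ⟨187, 1813, 0, -2000⟩, .q ⟨230, -70, -160, 0⟩ ⟨-339, -3661, 0, 4000⟩, .q ⟨231, -71, -160, 0⟩ ⟨-339, -3661, 0, 4000⟩] := by
  refine rok_bs (s := -1) (nlo := 70) (nhi := 71) (q := 160) (by decide) (by decide) (by decide) (by decide) (k := 1) (by decide) (Q := [(0, 2000, -1813), (0, -4000, 3661)])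
    (P := [⟨-2150400, -160, 0⟩, ⟨2181120, 160, 0⟩, ⟨-55695360, 0, 2000⟩, ⟨112465920, 0, -4000⟩]) rfl rfl
    (List.mem_of_getElem? (i := 461) rfl) TB_fr TB_cov ?_
  · intro X Y h
    simp only [List.forall_mem_cons, List.not_mem_nil, false_imp_iff, implies_true, and_true] at h
    push_cast at h ⊢
    obtain ⟨h0, h1, h2, h3⟩ := h
    refine ⟨⟨?_, ?_⟩, ?_, ?_⟩ <;> linarith

theorem TB_rg462 : ROK [.q ⟨-135, -105, 240, 0⟩ ⟨-345, 105, 240, 0⟩, .q ⟨133, 107, -240, 0⟩ ⟨-347, 107, 240, 0⟩, .q ⟨345, -105, -240, 0⟩ ⟨393, 1945, -373, -1965⟩, .q ⟨347, -107, -240, 0⟩ ⟨393, 1945, -373, -1965⟩, .q ⟨345, -105, -240, 0⟩ ⟨-753, -3923, 746, 3930⟩, .q ⟨347, -107, -240, 0⟩ ⟨-753, -3923, 746, 3930⟩] := by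
  refine rok_bs (s := -1) (nlo := 105) (nhi := 107) (q := 240) (by decide) (by decide) (by decide) (by decide) (k := 1) (by decide) (Q := [(-373, 1965, -1945), (746, -3930, 3923)])
    (P := [⟨-3225600, -240, 0⟩, ⟨3287040, 240, 0⟩, ⟨-59750400, -373, 1965⟩, ⟨120514560, 746, -3930⟩]) rfl rfl
    (List.mem_of_getElem? (i := 462) rfl) TB_fr TB_cov ?_
  · intro X Y h
    simp only [List.forall_mem_cons, List.not_mem_nil, false_imp_iff, implies_true, and_true] at h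
    push_cast at h ⊢
    obtain ⟨h0, h1, h2, h3⟩ := h
    refine ⟨⟨?_, ?_⟩, ?_, ?_⟩ <;> linarith

theorem TB_rg463 : ROK [.q ⟨-538, -422, 960, 0⟩ ⟨-1382, 422, 960, 0⟩, .q ⟨529, 431, -960, 0⟩ ⟨-1391, 431, 960, 0⟩, .q ⟨1382, -422, -960, 0⟩ ⟨113, 887, 0, -1000⟩, .q ⟨1391, -431, -960, 0⟩ ⟨113, 887, 0, -1000⟩, .q ⟨1382, -422, -960, 0⟩ ⟨561, -2722, -1533, 3694⟩, .q ⟨1391, -431, -960, 0⟩ ⟨561, -2722, -1533, 3694⟩] := by
  refine rok_bs (s := -1) (nlo := 422) (nhi := 431) (q := 960) (by decide) (by decide) (by decide) (by decide) (k := 1) (by decide) (Q := [(0, 1000, -887), (-1533, -3694, 2722)])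
    (P := [⟨-12963840, -960, 0⟩, ⟨13240320, 960, 0⟩, ⟨-27248640, 0, 1000⟩, ⟨83619840, -1533, -3694⟩]) rfl rfl
    (List.mem_of_getElem? (i := 463) rfl) TB_fr TB_cov ?_
  · intro X Y h
    simp only [List.forall_mem_cons, List.not_mem_nil, false_imp_iff, implies_true, and_true] at h
    push_cast at h ⊢
    obtain ⟨h0, h1, h2, h3⟩ := h
    refine ⟨⟨?_, ?_⟩, ?_, ?_⟩ <;> linarith

theorem TB_rg464 : ROK [.q ⟨-539, -421, 960, 0⟩ ⟨-1381, 421, 960, 0⟩, .q ⟨532, 428, -960, 0⟩ ⟨-1388, 428, 960, 0⟩, .q ⟨1381, -421, -960, 0⟩ ⟨12343, -8343, 0, -4000⟩, .q ⟨1388, -428, -960, 0⟩ ⟨12343, -8343, 0, -4000⟩, .q ⟨1381, -421, -960, 0⟩ ⟨940, -2128, -2171, 3359⟩, .q ⟨1388, -428, -960, 0⟩ ⟨940, -2128, -2171, 3359⟩, .q ⟨1381, -421, -960, 0⟩ ⟨1542, 3949, -2065, -3426⟩, .q ⟨1388, -428, -960, 0⟩ ⟨1542, 3949, -2065, -3426⟩] := by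
  refine rok_bs (s := -1) (nlo := 421) (nhi := 428) (q := 960) (by decide) (by decide) (by decide) (by decide) (k := 1) (by decide) (Q := [(0, 4000, 8343), (-2171, -3359, 2128), (-2065, 3426, -3949)])
    (P := [⟨-12933120, -960, 0⟩, ⟨13148160, 960, 0⟩, ⟨256296960, 0, 4000⟩, ⟨65372160, -2171, -3359⟩, ⟨-121313280, -2065, 3426⟩]) rfl rfl
    (List.mem_of_getElem? (i := 464) rfl) TB_fr TB_cov ?_
  · intro X Y h
    simp only [List.forall_mem_cons, List.not_mem_nil, false_imp_iff, implies_true, and_true] at h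
    push_cast at h ⊢
    obtain ⟨h0, h1, h2, h3, h4⟩ := h
    refine ⟨⟨?_, ?_⟩, ?_, ?_⟩ <;> linarith

theorem TB_rg465 : ROK [.q ⟨-539, -421, 960, 0⟩ ⟨-1381, 421, 960, 0⟩, .q ⟨533, 427, -960, 0⟩ ⟨-1387, 427, 960, 0⟩, .q ⟨1381, -421, -960, 0⟩ ⟨11919, -8732, 743, -3930⟩, .q ⟨1387, -427, -960, 0⟩ ⟨11919, -8732, 743, -3930⟩, .q ⟨1381, -421, -960, 0⟩ ⟨91, -3278, -743, 3930⟩, .q ⟨1387, -427, -960, 0⟩ ⟨91, -3278, -743, 3930⟩, .q ⟨1381, -421, -960, 0⟩ ⟨-1636, 474, 3349, -2187⟩, .q ⟨1387, -427, -960, 0⟩ ⟨-1636, 474, 3349, -2187⟩] := by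
  refine rok_bs (s := -1) (nlo := 421) (nhi := 427) (q := 960) (by decide) (by decide) (by decide) (by decide) (k := 1) (by decide) (Q := [(743, 3930, 8732), (-743, -3930, 3278), (3349, 2187, -474)])
    (P := [⟨-12933120, -960, 0⟩, ⟨13117440, 960, 0⟩, ⟨268247040, 743, 3930⟩, ⟨100700160, -743, -3930⟩, ⟨-14561280, 3349, 2187⟩]) rfl rfl
    (List.mem_of_getElem? (i := 465) rfl) TB_fr TB_cov ?_
  · intro X Y h
    simp only [List.forall_mem_cons, List.not_mem_nil, false_imp_iff, implies_true, and_true] at h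
    push_cast at h ⊢
    obtain ⟨h0, h1, h2, h3, h4⟩ := h
    refine ⟨⟨?_, ?_⟩, ?_, ?_⟩ <;> linarith

theorem TB_rg466 : ROK [.q ⟨-90, -70, 160, 0⟩ ⟨-230, 70, 160, 0⟩, .q ⟨89, 71, -160, 0⟩ ⟨-231, 71, 160, 0⟩, .q ⟨230, -70, -160, 0⟩ ⟨12661, -8164, -533, -3964⟩, .q ⟨231, -71, -160, 0⟩ ⟨12661, -8164, -533, -3964⟩, .q ⟨230, -70, -160, 0⟩ ⟨-7, -3366, -584, 3957⟩, .q ⟨231, -71, -160, 0⟩ ⟨-7, -3366, -584, 3957⟩, .q ⟨230, -70, -160, 0⟩ ⟨2157, 3257, -3527, -1887⟩, .q ⟨231, -71, -160, 0⟩ ⟨2157, 3257, -3527, -1887⟩] := by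
  refine rok_bs (s := -1) (nlo := 70) (nhi := 71) (q := 160) (by decide) (by decide) (by decide) (by decide) (k := 1) (by decide) (Q := [(-533, 3964, 8164), (-584, -3957, 3366), (-3527, 1887, -3257)])
    (P := [⟨-2150400, -160, 0⟩, ⟨2181120, 160, 0⟩, ⟨250798080, -533, 3964⟩, ⟨103403520, -584, -3957⟩, ⟨-100055040, -3527, 1887⟩]) rfl rfl
    (List.mem_of_getElem? (i := 466) rfl) TB_fr TB_cov ?_
  · intro X Y h
    simp only [List.forall_mem_cons, List.not_mem_nil, false_imp_iff, implies_true, and_true] at h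
    push_cast at h ⊢
    obtain ⟨h0, h1, h2, h3, h4⟩ := h
    refine ⟨⟨?_, ?_⟩, ?_, ?_⟩ <;> linarith

theorem TB_rg467 : ROK [.q ⟨-535, -425, 960, 0⟩ ⟨-1385, 425, 960, 0⟩, .q ⟨526, 434, -960, 0⟩ ⟨-1394, 434, 960, 0⟩, .q ⟨1385, -425, -960, 0⟩ ⟨229, 1771, 0, -2000⟩, .q ⟨1394, -434, -960, 0⟩ ⟨229, 1771, 0, -2000⟩, .q ⟨1385, -425, -960, 0⟩ ⟨-297, -3703, 0, 4000⟩, .q ⟨1394, -434, -960, 0⟩ ⟨-297, -3703, 0, 4000⟩] := by
  refine rok_bs (s := -1) (nlo := 425) (nhi := 434) (q := 960) (by decide) (by decide) (by decide) (by decide) (k := 1) (by decide) (Q := [(0, 2000, -1771), (0, -4000, 3703)])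
    (P := [⟨-13056000, -960, 0⟩, ⟨13332480, 960, 0⟩, ⟨-54405120, 0, 2000⟩, ⟨113756160, 0, -4000⟩]) rfl rfl
    (List.mem_of_getElem? (i := 467) rfl) TB_fr TB_cov ?_
  · intro X Y h
    simp only [List.forall_mem_cons, List.not_mem_nil, false_imp_iff, implies_true, and_true] at h
    push_cast at h ⊢
    obtain ⟨h0, h1, h2, h3⟩ := h
    refine ⟨⟨?_, ?_⟩, ?_, ?_⟩ <;> linarith

theorem TB_rg468 : ROK [.q ⟨-23, -17, 40, 0⟩ ⟨-57, 17, 40, 0⟩, .q ⟨21, 19, -40, 0⟩ ⟨-59, 19, 40, 0⟩, .q ⟨57, -17, -40, 0⟩ ⟨286, 1259, -232, -1313⟩, .q ⟨59, -19, -40, 0⟩ ⟨286, 1259, -232, -1313⟩, .q ⟨57, -17, -40, 0⟩ ⟨1075, -1899, -2386, 3210⟩, .q ⟨59, -19, -40, 0⟩ ⟨1075, -1899, -2386, 3210⟩, .q ⟨57, -17, -40, 0⟩ ⟨2099, 3383, -3440, -2042⟩, .q ⟨59, -19, -40, 0⟩ ⟨2099, 3383, -3440, -2042⟩] := by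
  refine rok_bs (s := -1) (nlo := 17) (nhi := 19) (q := 40) (by decide) (by decide) (by decide) (by decide) (k := 1) (by decide) (Q := [(-232, 1313, -1259), (-2386, -3210, 1899), (-3440, 2042, -3383)])
    (P := [⟨-522240, -40, 0⟩, ⟨583680, 40, 0⟩, ⟨-38676480, -232, 1313⟩, ⟨58337280, -2386, -3210⟩, ⟨-103925760, -3440, 2042⟩]) rfl rfl
    (List.mem_of_getElem? (i := 468) rfl) TB_fr TB_cov ?_
  · intro X Y h
    simp only [List.forall_mem_cons, List.not_mem_nil, false_imp_iff, implies_true, and_true] at h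
    push_cast at h ⊢
    obtain ⟨h0, h1, h2, h3, h4⟩ := h
    refine ⟨⟨?_, ?_⟩, ?_, ?_⟩ <;> linarith

theorem TB_rg469 : ROK [.q ⟨-3, -477, 480, 0⟩ ⟨-957, 477, 480, 0⟩, .q ⟨-2, 482, -480, 0⟩ ⟨-962, 482, 480, 0⟩, .q ⟨957, -477, -480, 0⟩ ⟨4016, 797, -920, -3893⟩, .q ⟨962, -482, -480, 0⟩ ⟨4016, 797, -920, -3893⟩, .q ⟨957, -477, -480, 0⟩ ⟨-3365, -1976, 1738, 3603⟩, .q ⟨962, -482, -480, 0⟩ ⟨-3365, -1976, 1738, 3603⟩] := by
  refine rok_bs (s := -1) (nlo := 477) (nhi := 482) (q := 480) (by decide) (by decide) (by decide) (by decide) (k := 1) (by decide) (Q := [(-920, 3893, -797), (1738, -3603, 1976)])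
    (P := [⟨-14653440, -480, 0⟩, ⟨14807040, 480, 0⟩, ⟨-24483840, -920, 3893⟩, ⟨60702720, 1738, -3603⟩]) rfl rfl
    (List.mem_of_getElem? (i := 469) rfl) TB_fr TB_cov ?_
  · intro X Y h
    simp only [List.forall_mem_cons, List.not_mem_nil, false_imp_iff, implies_true, and_true] at h
    push_cast at h ⊢
    obtain ⟨h0, h1, h2, h3⟩ := h
    refine ⟨⟨?_, ?_⟩, ?_, ?_⟩ <;> linarith

theorem TB_rg470 : ROK [.q ⟨-11, -949, 960, 0⟩ ⟨-1909, 949, 960, 0⟩, .q ⟨4, 956, -960, 0⟩ ⟨-1916, 956, 960, 0⟩, .q ⟨1909, -949, -960, 0⟩ ⟨3307, -2449, 2367, -3225⟩, .q ⟨1916, -956, -960, 0⟩ ⟨3307, -2449, 2367, -3225⟩, .q ⟨1909, -949, -960, 0⟩ ⟨-992, 706, -789, 1075⟩, .q ⟨1916, -956, -960, 0⟩ ⟨-992, 706, -789, 1075⟩, .q ⟨1909, -949, -960, 0⟩ ⟨-3466, -1721, 1464, 3723⟩, .q ⟨1916, -956, -960, 0⟩ ⟨-3466, -1721, 1464, 3723⟩] := by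
  refine rok_bs (s := -1) (nlo := 949) (nhi := 956) (q := 960) (by decide) (by decide) (by decide) (by decide) (k := 1) (by decide) (Q := [(2367, 3225, 2449), (-789, -1075, -706), (1464, -3723, 1721)])
    (P := [⟨-29153280, -960, 0⟩, ⟨29368320, 960, 0⟩, ⟨75233280, 2367, 3225⟩, ⟨-21688320, -789, -1075⟩, ⟨52869120, 1464, -3723⟩]) rfl rfl
    (List.mem_of_getElem? (i := 470) rfl) TB_fr TB_cov ?_
  · intro X Y h
    simp only [List.forall_mem_cons, List.not_mem_nil, false_imp_iff, implies_true, and_true] at h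
    push_cast at h ⊢
    obtain ⟨h0, h1, h2, h3, h4⟩ := h
    refine ⟨⟨?_, ?_⟩, ?_, ?_⟩ <;> linarith

theorem TB_rg471 : ROK [.q ⟨-541, -419, 960, 0⟩ ⟨-1379, 419, 960, 0⟩, .q ⟨533, 427, -960, 0⟩ ⟨-1387, 427, 960, 0⟩, .q ⟨1379, -419, -960, 0⟩ ⟨187, 1813, 0, -2000⟩, .q ⟨1387, -427, -960, 0⟩ ⟨187, 1813, 0, -2000⟩, .q ⟨1379, -419, -960, 0⟩ ⟨-351, -3649, 0, 4000⟩, .q ⟨1387, -427, -960, 0⟩ ⟨-351, -3649, 0, 4000⟩] := by
  refine rok_bs (s := -1) (nlo := 419) (nhi := 427) (q := 960) (by decide) (by decide) (by decide) (by decide) (k := 1) (by decide) (Q := [(0, 2000, -1813), (0, -4000, 3649)])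
    (P := [⟨-12871680, -960, 0⟩, ⟨13117440, 960, 0⟩, ⟨-55695360, 0, 2000⟩, ⟨112097280, 0, -4000⟩]) rfl rfl
    (List.mem_of_getElem? (i := 471) rfl) TB_fr TB_cov ?_
  · intro X Y h
    simp only [List.forall_mem_cons, List.not_mem_nil, false_imp_iff, implies_true, and_true] at h
    push_cast at h ⊢
    obtain ⟨h0, h1, h2, h3⟩ := h
    refine ⟨⟨?_, ?_⟩, ?_, ?_⟩ <;> linarith

theorem TB_rg472 : ROK [.q ⟨-135, -105, 240, 0⟩ ⟨-345, 105, 240, 0⟩, .q ⟨133, 107, -240, 0⟩ ⟨-347, 107, 240, 0⟩, .q ⟨345, -105, -240, 0⟩ ⟨550, 3753, -315, -3988⟩, .q ⟨347, -107, -240, 0⟩ ⟨550, 3753, -315, -3988⟩, .q ⟨345, -105, -240, 0⟩ ⟨-516, -3787, 315, 3988⟩, .q ⟨347, -107, -240, 0⟩ ⟨-516, -3787, 315, 3988⟩] := by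
  refine rok_bs (s := -1) (nlo := 105) (nhi := 107) (q := 240) (by decide) (by decide) (by decide) (by decide) (k := 1) (by decide) (Q := [(-315, 3988, -3753), (315, -3988, 3787)])
    (P := [⟨-3225600, -240, 0⟩, ⟨3287040, 240, 0⟩, ⟨-115292160, -315, 3988⟩, ⟨116336640, 315, -3988⟩]) rfl rfl
    (List.mem_of_getElem? (i := 472) rfl) TB_fr TB_cov ?_
  · intro X Y h
    simp only [List.forall_mem_cons, List.not_mem_nil, false_imp_iff, implies_true, and_true] at h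
    push_cast at h ⊢
    obtain ⟨h0, h1, h2, h3⟩ := h
    refine ⟨⟨?_, ?_⟩, ?_, ?_⟩ <;> linarith

theorem TB_rg473 : ROK [.q ⟨-538, -422, 960, 0⟩ ⟨-1382, 422, 960, 0⟩, .q ⟨531, 429, -960, 0⟩ ⟨-1389, 429, 960, 0⟩, .q ⟨1382, -422, -960, 0⟩ ⟨113, 887, 0, -1000⟩, .q ⟨1389, -429, -960, 0⟩ ⟨113, 887, 0, -1000⟩, .q ⟨1382, -422, -960, 0⟩ ⟨-323, -3677, 0, 4000⟩, .q ⟨1389, -429, -960, 0⟩ ⟨-323, -3677, 0, 4000⟩] := by
  refine rok_bs (s := -1) (nlo := 422) (nhi := 429) (q := 960) (by decide) (by decide) (by decide) (by decide) (k := 1) (by decide) (Q := [(0, 1000, -887), (0, -4000, 3677)])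
    (P := [⟨-12963840, -960, 0⟩, ⟨13178880, 960, 0⟩, ⟨-27248640, 0, 1000⟩, ⟨112957440, 0, -4000⟩]) rfl rfl
    (List.mem_of_getElem? (i := 473) rfl) TB_fr TB_cov ?_
  · intro X Y h
    simp only [List.forall_mem_cons, List.not_mem_nil, false_imp_iff, implies_true, and_true] at h
    push_cast at h ⊢
    obtain ⟨h0, h1, h2, h3⟩ := h
    refine ⟨⟨?_, ?_⟩, ?_, ?_⟩ <;> linarith

theorem TB_rg474 : ROK [.q ⟨-537, -423, 960, 0⟩ ⟨-1383, 423, 960, 0⟩, .q ⟨529, 431, -960, 0⟩ ⟨-1391, 431, 960, 0⟩, .q ⟨1383, -423, -960, 0⟩ ⟨91, 709, 0, -800⟩, .q ⟨1391, -431, -960, 0⟩ ⟨91, 709, 0, -800⟩, .q ⟨1383, -423, -960, 0⟩ ⟨41, -3359, -632, 3950⟩, .q ⟨1391, -431, -960, 0⟩ ⟨41, -3359, -632, 3950⟩] := by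
  refine rok_bs (s := -1) (nlo := 423) (nhi := 431) (q := 960) (by decide) (by decide) (by decide) (by decide) (k := 1) (by decide) (Q := [(0, 800, -709), (-632, -3950, 3359)])
    (P := [⟨-12994560, -960, 0⟩, ⟨13240320, 960, 0⟩, ⟨-21780480, 0, 800⟩, ⟨103188480, -632, -3950⟩]) rfl rfl
    (List.mem_of_getElem? (i := 474) rfl) TB_fr TB_cov ?_
  · intro X Y h
    simp only [List.forall_mem_cons, List.not_mem_nil, false_imp_iff, implies_true, and_true] at h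
    push_cast at h ⊢
    obtain ⟨h0, h1, h2, h3⟩ := h
    refine ⟨⟨?_, ?_⟩, ?_, ?_⟩ <;> linarith

theorem TB_rg475 : ROK [.q ⟨-539, -421, 960, 0⟩ ⟨-1381, 421, 960, 0⟩, .q ⟨533, 427, -960, 0⟩ ⟨-1387, 427, 960, 0⟩, .q ⟨1381, -421, -960, 0⟩ ⟨12138, -8521, 366, -3983⟩, .q ⟨1387, -427, -960, 0⟩ ⟨12138, -8521, 366, -3983⟩, .q ⟨1381, -421, -960, 0⟩ ⟨-125, -3492, -366, 3983⟩, .q ⟨1387, -427, -960, 0⟩ ⟨-125, -3492, -366, 3983⟩, .q ⟨1381, -421, -960, 0⟩ ⟨2118, 3408, -3367, -2159⟩, .q ⟨1387, -427, -960, 0⟩ ⟨2118, 3408, -3367, -2159⟩] := by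
  refine rok_bs (s := -1) (nlo := 421) (nhi := 427) (q := 960) (by decide) (by decide) (by decide) (by decide) (k := 1) (by decide) (Q := [(366, 3983, 8521), (-366, -3983, 3492), (-3367, 2159, -3408)])
    (P := [⟨-12933120, -960, 0⟩, ⟨13117440, 960, 0⟩, ⟨261765120, 366, 3983⟩, ⟨107274240, -366, -3983⟩, ⟨-104693760, -3367, 2159⟩]) rfl rfl
    (List.mem_of_getElem? (i := 475) rfl) TB_fr TB_cov ?_
  · intro X Y h
    simp only [List.forall_mem_cons, List.not_mem_nil, false_imp_iff, implies_true, and_true] at h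
    push_cast at h ⊢
    obtain ⟨h0, h1, h2, h3, h4⟩ := h
    refine ⟨⟨?_, ?_⟩, ?_, ?_⟩ <;> linarith

theorem TB_rg476 : ROK [.q ⟨-269, -211, 480, 0⟩ ⟨-691, 211, 480, 0⟩, .q ⟨264, 216, -480, 0⟩ ⟨-696, 216, 480, 0⟩, .q ⟨691, -211, -480, 0⟩ ⟨-238, 2863, 1193, -3818⟩, .q ⟨696, -216, -480, 0⟩ ⟨-238, 2863, 1193, -3818⟩, .q ⟨691, -211, -480, 0⟩ ⟨1106, -1852, -2431, 3177⟩, .q ⟨696, -216, -480, 0⟩ ⟨1106, -1852, -2431, 3177⟩] := by
  refine rok_bs (s := -1) (nlo := 211) (nhi := 216) (q := 480) (by decide) (by decide) (by decide) (by decide) (k := 1) (by decide) (Q := [(1193, 3818, -2863), (-2431, -3177, 1852)])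
    (P := [⟨-6481920, -480, 0⟩, ⟨6635520, 480, 0⟩, ⟨-87951360, 1193, 3818⟩, ⟨56893440, -2431, -3177⟩]) rfl rfl
    (List.mem_of_getElem? (i := 476) rfl) TB_fr TB_cov ?_
  · intro X Y h
    simp only [List.forall_mem_cons, List.not_mem_nil, false_imp_iff, implies_true, and_true] at h
    push_cast at h ⊢
    obtain ⟨h0, h1, h2, h3⟩ := h
    refine ⟨⟨?_, ?_⟩, ?_, ?_⟩ <;> linarith

theorem TB_rg477 : ROK [.q ⟨-6, -954, 960, 0⟩ ⟨-1914, 954, 960, 0⟩, .q ⟨-1, 961, -960, 0⟩ ⟨-1921, 961, 960, 0⟩, .q ⟨1914, -954, -960, 0⟩ ⟨3693, 1669, -1781, -3581⟩, .q ⟨1921, -961, -960, 0⟩ ⟨3693, 1669, -1781, -3581⟩, .q ⟨1914, -954, -960, 0⟩ ⟨-3344, -2018, 1781, 3581⟩, .q ⟨1921, -961, -960, 0⟩ ⟨-3344, -2018, 1781, 3581⟩] := by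
  refine rok_bs (s := -1) (nlo := 954) (nhi := 961) (q := 960) (by decide) (by decide) (by decide) (by decide) (k := 1) (by decide) (Q := [(-1781, 3581, -1669), (1781, -3581, 2018)])
    (P := [⟨-29306880, -960, 0⟩, ⟨29521920, 960, 0⟩, ⟨-51271680, -1781, 3581⟩, ⟨61992960, 1781, -3581⟩]) rfl rfl
    (List.mem_of_getElem? (i := 477) rfl) TB_fr TB_cov ?_
  · intro X Y h
    simp only [List.forall_mem_cons, List.not_mem_nil, false_imp_iff, implies_true, and_true] at h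
    push_cast at h ⊢
    obtain ⟨h0, h1, h2, h3⟩ := h
    refine ⟨⟨?_, ?_⟩, ?_, ?_⟩ <;> linarith

theorem TB_rg478 : ROK [.q ⟨-539, -421, 960, 0⟩ ⟨-1381, 421, 960, 0⟩, .q ⟨533, 427, -960, 0⟩ ⟨-1387, 427, 960, 0⟩, .q ⟨1381, -421, -960, 0⟩ ⟨-943, 1868, 2328, -3253⟩, .q ⟨1387, -427, -960, 0⟩ ⟨-943, 1868, 2328, -3253⟩, .q ⟨1381, -421, -960, 0⟩ ⟨1037, -1962, -2328, 3253⟩, .q ⟨1387, -427, -960, 0⟩ ⟨1037, -1962, -2328, 3253⟩] := by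
  refine rok_bs (s := -1) (nlo := 421) (nhi := 427) (q := 960) (by decide) (by decide) (by decide) (by decide) (k := 1) (by decide) (Q := [(2328, 3253, -1868), (-2328, -3253, 1962)])
    (P := [⟨-12933120, -960, 0⟩, ⟨13117440, 960, 0⟩, ⟨-57384960, 2328, 3253⟩, ⟨60272640, -2328, -3253⟩]) rfl rfl
    (List.mem_of_getElem? (i := 478) rfl) TB_fr TB_cov ?_
  · intro X Y h
    simp only [List.forall_mem_cons, List.not_mem_nil, false_imp_iff, implies_true, and_true] at h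
    push_cast at h ⊢
    obtain ⟨h0, h1, h2, h3⟩ := h
    refine ⟨⟨?_, ?_⟩, ?_, ?_⟩ <;> linarith

theorem TB_rg479 : ROK [.q ⟨-5, -955, 960, 0⟩ ⟨-1915, 955, 960, 0⟩, .q ⟨-3, 963, -960, 0⟩ ⟨-1923, 963, 960, 0⟩, .q ⟨1915, -955, -960, 0⟩ ⟨3693, 1671, -1783, -3581⟩, .q ⟨1923, -963, -960, 0⟩ ⟨3693, 1671, -1783, -3581⟩, .q ⟨1915, -955, -960, 0⟩ ⟨-3126, -2411, 2190, 3347⟩, .q ⟨1923, -963, -960, 0⟩ ⟨-3126, -2411, 2190, 3347⟩] := by
  refine rok_bs (s := -1) (nlo := 955) (nhi := 963) (q := 960) (by decide) (by decide) (by decide) (by decide) (k := 1) (by decide) (Q := [(-1783, 3581, -1671), (2190, -3347, 2411)])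
    (P := [⟨-29337600, -960, 0⟩, ⟨29583360, 960, 0⟩, ⟨-51333120, -1783, 3581⟩, ⟨74065920, 2190, -3347⟩]) rfl rfl
    (List.mem_of_getElem? (i := 479) rfl) TB_fr TB_cov ?_
  · intro X Y h
    simp only [List.forall_mem_cons, List.not_mem_nil, false_imp_iff, implies_true, and_true] at h
    push_cast at h ⊢
    obtain ⟨h0, h1, h2, h3⟩ := h
    refine ⟨⟨?_, ?_⟩, ?_, ?_⟩ <;> linarith

end Pool.Agent.TET
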