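import Pool.Agent.Helper38_TET.TB_C

/-!
# MP_c7c9bf_co: certificates, family TB
-/

set_option autoImplicit false
set_option maxRecDepth 100000

namespace Pool.Agent.TET

theorem TB_rg48 : ROK [.q ⟨-19, -21, 40, 0⟩ ⟨-61, 21, 40, 0⟩, .q ⟨17, 23, -40, 0⟩ ⟨-63, 23, 40, 0⟩, .q ⟨61, -21, -40, 0⟩ ⟨14111, -10111, 0, -4000⟩, .q ⟨63, -23, -40, 0⟩ ⟨14111, -10111, 0, -4000⟩, .q ⟨61, -21, -40, 0⟩ ⟨-1315, -1018, -1410, 3743⟩, .q ⟨63, -23, -40, 0⟩ ⟨-1315, -1018, -1410, 3743⟩, .q ⟨61, -21, -40, 0⟩ ⟨2576, 2764, -3603, -1737⟩, .q ⟨63, -23, -40, 0⟩ ⟨2576, 2764, -3603, -1737⟩, .q ⟨61, -21, -40, 0⟩ ⟨173, 562, -3172, 2437⟩, .q ⟨63, -23, -40, 0⟩ ⟨173, 562, -3172, 2437⟩] := by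
  refine rok_bs (s := -1) (nlo := 21) (nhi := 23) (q := 40) (by decide) (by decide) (by decide) (by decide) (k := 1) (by decide) (Q := [(0, 4000, 10111), (-1410, -3743, 1018), (-3603, 1737, -2764), (-3172, -2437, -562)])
    (P := [⟨-645120, -40, 0⟩, ⟨706560, 40, 0⟩, ⟨310609920, 0, 4000⟩, ⟨31272960, -1410, -3743⟩, ⟨-84910080, -3603, 1737⟩, ⟨-17264640, -3172, -2437⟩]) rfl rfl
    (List.mem_of_getElem? (i := 48) rfl) TB_fr TB_cov ?_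
  · intro X Y h
    simp only [List.forall_mem_cons, List.not_mem_nil, false_imp_iff, implies_true, and_true] at h
    push_cast at h ⊢
    obtain ⟨h0, h1, h2, h3, h4, h5⟩ := h
    refine ⟨⟨?_, ?_⟩, ?_, ?_⟩ <;> linarith

theorem TB_rg49 : ROK [.q ⟨-21, -19, 40, 0⟩ ⟨-59, 19, 40, 0⟩, .q ⟨18, 22, -40, 0⟩ ⟨-62, 22, 40, 0⟩, .q ⟨59, -19, -40, 0⟩ ⟨11857, -9846, 1638, -3649⟩, .q ⟨62, -22, -40, 0⟩ ⟨11857, -9846, 1638, -3649⟩, .q ⟨59, -19, -40, 0⟩ ⟨-1190, -821, -1638, 3649⟩, .q ⟨62, -22, -40, 0⟩ ⟨-1190, -821, -1638, 3649⟩, .q ⟨59, -19, -40, 0⟩ ⟨2808, 2476, -3653, -1631⟩, .q ⟨62, -22, -40, 0⟩ ⟨2808, 2476, -3653, -1631⟩] := by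
  refine rok_bs (s := -1) (nlo := 19) (nhi := 22) (q := 40) (by decide) (by decide) (by decide) (by decide) (k := 1) (by decide) (Q := [(1638, 3649, 9846), (-1638, -3649, 821), (-3653, 1631, -2476)])
    (P := [⟨-583680, -40, 0⟩, ⟨675840, 40, 0⟩, ⟨302469120, 1638, 3649⟩, ⟨25221120, -1638, -3649⟩, ⟨-76062720, -3653, 1631⟩]) rfl rfl
    (List.mem_of_getElem? (i := 49) rfl) TB_fr TB_cov ?_
  · intro X Y h
    simp only [List.forall_mem_cons, List.not_mem_nil, false_imp_iff, implies_true, and_true] at h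
    push_cast at h ⊢
    obtain ⟨h0, h1, h2, h3, h4⟩ := h
    refine ⟨⟨?_, ?_⟩, ?_, ?_⟩ <;> linarith

theorem TB_rg50 : ROK [.q ⟨-10, -10, 20, 0⟩ ⟨-30, 10, 20, 0⟩, .q ⟨7, 13, -20, 0⟩ ⟨-33, 13, 20, 0⟩, .q ⟨30, -10, -20, 0⟩ ⟨1221, 3934, -1412, -3743⟩, .q ⟨33, -13, -20, 0⟩ ⟨1221, 3934, -1412, -3743⟩, .q ⟨30, -10, -20, 0⟩ ⟨-644, -4511, 1412, 3743⟩, .q ⟨33, -13, -20, 0⟩ ⟨-644, -4511, 1412, 3743⟩] := by
  refine rok_bs (s := -1) (nlo := 10) (nhi := 13) (q := 20) (by decide) (by decide) (by decide) (by decide) (k := 1) (by decide) (Q := [(-1412, 3743, -3934), (1412, -3743, 4511)])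
    (P := [⟨-307200, -20, 0⟩, ⟨399360, 20, 0⟩, ⟨-120852480, -1412, 3743⟩, ⟨138577920, 1412, -3743⟩]) rfl rfl
    (List.mem_of_getElem? (i := 50) rfl) TB_fr TB_cov ?_
  · intro X Y h
    simp only [List.forall_mem_cons, List.not_mem_nil, false_imp_iff, implies_true, and_true] at h
    push_cast at h ⊢
    obtain ⟨h0, h1, h2, h3⟩ := h
    refine ⟨⟨?_, ?_⟩, ?_, ?_⟩ <;> linarith

theorem TB_rg51 : ROK [.q ⟨-20, -20, 40, 0⟩ ⟨-60, 20, 40, 0⟩, .q ⟨17, 23, -40, 0⟩ ⟨-63, 23, 40, 0⟩, .q ⟨60, -20, -40, 0⟩ ⟨333, 8, 269, -610⟩, .q ⟨63, -23, -40, 0⟩ ⟨333, 8, 269, -610⟩, .q ⟨60, -20, -40, 0⟩ ⟨-1207, -839, -1614, 3660⟩, .q ⟨63, -23, -40, 0⟩ ⟨-1207, -839, -1614, 3660⟩] := by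
  refine rok_bs (s := -1) (nlo := 20) (nhi := 23) (q := 40) (by decide) (by decide) (by decide) (by decide) (k := 1) (by decide) (Q := [(269, 610, -8), (-1614, -3660, 839)])
    (P := [⟨-614400, -40, 0⟩, ⟨706560, 40, 0⟩, ⟨-245760, 269, 610⟩, ⟨25774080, -1614, -3660⟩]) rfl rfl
    (List.mem_of_getElem? (i := 51) rfl) TB_fr TB_cov ?_
  · intro X Y h
    simp only [List.forall_mem_cons, List.not_mem_nil, false_imp_iff, implies_true, and_true] at h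
    push_cast at h ⊢
    obtain ⟨h0, h1, h2, h3⟩ := h
    refine ⟨⟨?_, ?_⟩, ?_, ?_⟩ <;> linarith

theorem TB_rg52 : ROK [.q ⟨-11, -9, 20, 0⟩ ⟨-29, 9, 20, 0⟩, .q ⟨10, 10, -20, 0⟩ ⟨-30, 10, 20, 0⟩, .q ⟨29, -9, -20, 0⟩ ⟨471, 3529, 0, -4000⟩, .q ⟨30, -10, -20, 0⟩ ⟨471, 3529, 0, -4000⟩, .q ⟨29, -9, -20, 0⟩ ⟨55, -366, -162, 473⟩, .q ⟨30, -10, -20, 0⟩ ⟨55, -366, -162, 473⟩] := by
  refine rok_bs (s := -1) (nlo := 9) (nhi := 10) (q := 20) (by decide) (by decide) (by decide) (by decide) (k := 1) (by decide) (Q := [(0, 4000, -3529), (-162, -473, 366)])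
    (P := [⟨-276480, -20, 0⟩, ⟨307200, 20, 0⟩, ⟨-108410880, 0, 4000⟩, ⟨11243520, -162, -473⟩]) rfl rfl
    (List.mem_of_getElem? (i := 52) rfl) TB_fr TB_cov ?_
  · intro X Y h
    simp only [List.forall_mem_cons, List.not_mem_nil, false_imp_iff, implies_true, and_true] at h
    push_cast at h ⊢
    obtain ⟨h0, h1, h2, h3⟩ := h
    refine ⟨⟨?_, ?_⟩, ?_, ?_⟩ <;> linarith

theorem TB_rg53 : ROK [.q ⟨-237, -243, 480, 0⟩ ⟨-723, 243, 480, 0⟩, .q ⟨230, 250, -480, 0⟩ ⟨-730, 250, 480, 0⟩, .q ⟨723, -243, -480, 0⟩ ⟨407, 393, 0, -800⟩, .q ⟨730, -250, -480, 0⟩ ⟨407, 393, 0, -800⟩, .q ⟨723, -243, -480, 0⟩ ⟨-114, -1339, -2007, 3460⟩, .q ⟨730, -250, -480, 0⟩ ⟨-114, -1339, -2007, 3460⟩, .q ⟨723, -243, -480, 0⟩ ⟨2657, 2629, -1635, -3651⟩, .q ⟨730, -250, -480, 0⟩ ⟨2657, 2629, -1635, -3651⟩] := by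
  refine rok_bs (s := -1) (nlo := 243) (nhi := 250) (q := 480) (by decide) (by decide) (by decide) (by decide) (k := 1) (by decide) (Q := [(0, 800, -393), (-2007, -3460, 1339), (-1635, 3651, -2629)])
    (P := [⟨-7464960, -480, 0⟩, ⟨7680000, 480, 0⟩, ⟨-12072960, 0, 800⟩, ⟨41134080, -2007, -3460⟩, ⟨-80762880, -1635, 3651⟩]) rfl rfl
    (List.mem_of_getElem? (i := 53) rfl) TB_fr TB_cov ?_
  · intro X Y h
    simp only [List.forall_mem_cons, List.not_mem_nil, false_imp_iff, implies_true, and_true] at h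
    push_cast at h ⊢
    obtain ⟨h0, h1, h2, h3, h4⟩ := h
    refine ⟨⟨?_, ?_⟩, ?_, ?_⟩ <;> linarith

theorem TB_rg54 : ROK [.q ⟨-44, -36, 80, 0⟩ ⟨-116, 36, 80, 0⟩, .q ⟨41, 39, -80, 0⟩ ⟨-119, 39, 80, 0⟩, .q ⟨116, -36, -80, 0⟩ ⟨8905, -8333, 2528, -3100⟩, .q ⟨119, -39, -80, 0⟩ ⟨8905, -8333, 2528, -3100⟩, .q ⟨116, -36, -80, 0⟩ ⟨583, -869, -1264, 1550⟩, .q ⟨119, -39, -80, 0⟩ ⟨583, -869, -1264, 1550⟩, .q ⟨116, -36, -80, 0⟩ ⟨1075, 3896, -1136, -3835⟩, .q ⟨119, -39, -80, 0⟩ ⟨1075, 3896, -1136, -3835⟩] := by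
  refine rok_bs (s := -1) (nlo := 36) (nhi := 39) (q := 80) (by decide) (by decide) (by decide) (by decide) (k := 1) (by decide) (Q := [(2528, 3100, 8333), (-1264, -1550, 869), (-1136, 3835, -3896)])
    (P := [⟨-1105920, -80, 0⟩, ⟨1198080, 80, 0⟩, ⟨255989760, 2528, 3100⟩, ⟨26695680, -1264, -1550⟩, ⟨-119685120, -1136, 3835⟩]) rfl rfl
    (List.mem_of_getElem? (i := 54) rfl) TB_fr TB_cov ?_
  · intro X Y h
    simp only [List.forall_mem_cons, List.not_mem_nil, false_imp_iff, implies_true, and_true] at h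
    push_cast at h ⊢
    obtain ⟨h0, h1, h2, h3, h4⟩ := h
    refine ⟨⟨?_, ?_⟩, ?_, ?_⟩ <;> linarith

theorem TB_rg55 : ROK [.q ⟨-10, -10, 20, 0⟩ ⟨-30, 10, 20, 0⟩, .q ⟨7, 13, -20, 0⟩ ⟨-33, 13, 20, 0⟩, .q ⟨30, -10, -20, 0⟩ ⟨785, 1994, -1126, -1653⟩, .q ⟨33, -13, -20, 0⟩ ⟨785, 1994, -1126, -1653⟩, .q ⟨30, -10, -20, 0⟩ ⟨275, -954, -540, 1219⟩, .q ⟨33, -13, -20, 0⟩ ⟨275, -954, -540, 1219⟩] := by
  refine rok_bs (s := -1) (nlo := 10) (nhi := 13) (q := 20) (by decide) (by decide) (by decide) (by decide) (k := 1) (by decide) (Q := [(-1126, 1653, -1994), (-540, -1219, 954)])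
    (P := [⟨-307200, -20, 0⟩, ⟨399360, 20, 0⟩, ⟨-61255680, -1126, 1653⟩, ⟨29306880, -540, -1219⟩]) rfl rfl
    (List.mem_of_getElem? (i := 55) rfl) TB_fr TB_cov ?_
  · intro X Y h
    simp only [List.forall_mem_cons, List.not_mem_nil, false_imp_iff, implies_true, and_true] at h
    push_cast at h ⊢
    obtain ⟨h0, h1, h2, h3⟩ := h
    refine ⟨⟨?_, ?_⟩, ?_, ?_⟩ <;> linarith

theorem TB_rg56 : ROK [.q ⟨-43, -37, 80, 0⟩ ⟨-117, 37, 80, 0⟩, .q ⟨39, 41, -80, 0⟩ ⟨-121, 41, 80, 0⟩, .q ⟨117, -37, -80, 0⟩ ⟨493, 3507, 0, -4000⟩, .q ⟨121, -41, -80, 0⟩ ⟨493, 3507, 0, -4000⟩, .q ⟨117, -37, -80, 0⟩ ⟨-167, -3833, 0, 4000⟩, .q ⟨121, -41, -80, 0⟩ ⟨-167, -3833, 0, 4000⟩] := by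
  refine rok_bs (s := -1) (nlo := 37) (nhi := 41) (q := 80) (by decide) (by decide) (by decide) (by decide) (k := 1) (by decide) (Q := [(0, 4000, -3507), (0, -4000, 3833)])
    (P := [⟨-1136640, -80, 0⟩, ⟨1259520, 80, 0⟩, ⟨-107735040, 0, 4000⟩, ⟨117749760, 0, -4000⟩]) rfl rfl
    (List.mem_of_getElem? (i := 56) rfl) TB_fr TB_cov ?_
  · intro X Y h
    simp only [List.forall_mem_cons, List.not_mem_nil, false_imp_iff, implies_true, and_true] at h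
    push_cast at h ⊢
    obtain ⟨h0, h1, h2, h3⟩ := h
    refine ⟨⟨?_, ?_⟩, ?_, ?_⟩ <;> linarith

theorem TB_rg57 : ROK [.q ⟨-22, -18, 40, 0⟩ ⟨-58, 18, 40, 0⟩, .q ⟨19, 21, -40, 0⟩ ⟨-61, 21, 40, 0⟩, .q ⟨58, -18, -40, 0⟩ ⟨2473, 2442, -1057, -3858⟩, .q ⟨61, -21, -40, 0⟩ ⟨2473, 2442, -1057, -3858⟩, .q ⟨58, -18, -40, 0⟩ ⟨9800, -12801, -897, 3898⟩, .q ⟨61, -21, -40, 0⟩ ⟨9800, -12801, -897, 3898⟩, .q ⟨58, -18, -40, 0⟩ ⟨2721, 2755, -3448, -2028⟩, .q ⟨61, -21, -40, 0⟩ ⟨2721, 2755, -3448, -2028⟩, .q ⟨58, -18, -40, 0⟩ ⟨966, 692, -3533, 1875⟩, .q ⟨61, -21, -40, 0⟩ ⟨966, 692, -3533, 1875⟩] := by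
  refine rok_bs (s := -1) (nlo := 18) (nhi := 21) (q := 40) (by decide) (by decide) (by decide) (by decide) (k := 1) (by decide) (Q := [(-1057, 3858, -2442), (-897, -3898, 12801), (-3448, 2028, -2755), (-3533, -1875, -692)])
    (P := [⟨-552960, -40, 0⟩, ⟨645120, 40, 0⟩, ⟨-75018240, -1057, 3858⟩, ⟨393246720, -897, -3898⟩, ⟨-84633600, -3448, 2028⟩, ⟨-21258240, -3533, -1875⟩]) rfl rfl
    (List.mem_of_getElem? (i := 57) rfl) TB_fr TB_cov ?_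
  · intro X Y h
    simp only [List.forall_mem_cons, List.not_mem_nil, false_imp_iff, implies_true, and_true] at h
    push_cast at h ⊢
    obtain ⟨h0, h1, h2, h3, h4, h5⟩ := h
    refine ⟨⟨?_, ?_⟩, ?_, ?_⟩ <;> linarith

theorem TB_rg58 : ROK [.q ⟨-457, -503, 960, 0⟩ ⟨-1463, 503, 960, 0⟩, .q ⟨446, 514, -960, 0⟩ ⟨-1474, 514, 960, 0⟩, .q ⟨1463, -503, -960, 0⟩ ⟨2013, 1, 1636, -3650⟩, .q ⟨1474, -514, -960, 0⟩ ⟨2013, 1, 1636, -3650⟩, .q ⟨1463, -503, -960, 0⟩ ⟨-595, -412, -818, 1825⟩, .q ⟨1474, -514, -960, 0⟩ ⟨-595, -412, -818, 1825⟩] := by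
  refine rok_bs (s := -1) (nlo := 503) (nhi := 514) (q := 960) (by decide) (by decide) (by decide) (by decide) (k := 1) (by decide) (Q := [(1636, 3650, -1), (-818, -1825, 412)])
    (P := [⟨-15452160, -960, 0⟩, ⟨15790080, 960, 0⟩, ⟨-30720, 1636, 3650⟩, ⟨12656640, -818, -1825⟩]) rfl rfl
    (List.mem_of_getElem? (i := 58) rfl) TB_fr TB_cov ?_
  · intro X Y h
    simp only [List.forall_mem_cons, List.not_mem_nil, false_imp_iff, implies_true, and_true] at h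
    push_cast at h ⊢
    obtain ⟨h0, h1, h2, h3⟩ := h
    refine ⟨⟨?_, ?_⟩, ?_, ?_⟩ <;> linarith

theorem TB_rg59 : ROK [.q ⟨-22, -18, 40, 0⟩ ⟨-58, 18, 40, 0⟩, .q ⟨19, 21, -40, 0⟩ ⟨-61, 21, 40, 0⟩, .q ⟨58, -18, -40, 0⟩ ⟨2382, 2356, -823, -3915⟩, .q ⟨61, -21, -40, 0⟩ ⟨2382, 2356, -823, -3915⟩, .q ⟨58, -18, -40, 0⟩ ⟨-563, -673, -2142, 3378⟩, .q ⟨61, -21, -40, 0⟩ ⟨-563, -673, -2142, 3378⟩, .q ⟨58, -18, -40, 0⟩ ⟨2695, 2683, -3566, -1812⟩, .q ⟨61, -21, -40, 0⟩ ⟨2695, 2683, -3566, -1812⟩] := by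
  refine rok_bs (s := -1) (nlo := 18) (nhi := 21) (q := 40) (by decide) (by decide) (by decide) (by decide) (k := 1) (by decide) (Q := [(-823, 3915, -2356), (-2142, -3378, 673), (-3566, 1812, -2683)])
    (P := [⟨-552960, -40, 0⟩, ⟨645120, 40, 0⟩, ⟨-72376320, -823, 3915⟩, ⟨20674560, -2142, -3378⟩, ⟨-82421760, -3566, 1812⟩]) rfl rfl
    (List.mem_of_getElem? (i := 59) rfl) TB_fr TB_cov ?_
  · intro X Y h
    simp only [List.forall_mem_cons, List.not_mem_nil, false_imp_iff, implies_true, and_true] at h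
    push_cast at h ⊢
    obtain ⟨h0, h1, h2, h3, h4⟩ := h
    refine ⟨⟨?_, ?_⟩, ?_, ?_⟩ <;> linarith

theorem TB_rg60 : ROK [.q ⟨-9, -11, 20, 0⟩ ⟨-31, 11, 20, 0⟩, .q ⟨6, 14, -20, 0⟩ ⟨-34, 14, 20, 0⟩, .q ⟨31, -11, -20, 0⟩ ⟨1499, -631, 2361, -3229⟩, .q ⟨34, -14, -20, 0⟩ ⟨1499, -631, 2361, -3229⟩, .q ⟨31, -11, -20, 0⟩ ⟨447, -3700, -687, 3940⟩, .q ⟨34, -14, -20, 0⟩ ⟨447, -3700, -687, 3940⟩, .q ⟨31, -11, -20, 0⟩ ⟨2414, 2816, -3693, -1537⟩, .q ⟨34, -14, -20, 0⟩ ⟨2414, 2816, -3693, -1537⟩] := by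
  refine rok_bs (s := -1) (nlo := 11) (nhi := 14) (q := 20) (by decide) (by decide) (by decide) (by decide) (k := 1) (by decide) (Q := [(2361, 3229, 631), (-687, -3940, 3700), (-3693, 1537, -2816)])
    (P := [⟨-337920, -20, 0⟩, ⟨430080, 20, 0⟩, ⟨19384320, 2361, 3229⟩, ⟨113664000, -687, -3940⟩, ⟨-86507520, -3693, 1537⟩]) rfl rfl
    (List.mem_of_getElem? (i := 60) rfl) TB_fr TB_cov ?_
  · intro X Y h
    simp only [List.forall_mem_cons, List.not_mem_nil, false_imp_iff, implies_true, and_true] at h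
    push_cast at h ⊢
    obtain ⟨h0, h1, h2, h3, h4⟩ := h
    refine ⟨⟨?_, ?_⟩, ?_, ?_⟩ <;> linarith

theorem TB_rg61 : ROK [.q ⟨-41, -39, 80, 0⟩ ⟨-119, 39, 80, 0⟩, .q ⟨37, 43, -80, 0⟩ ⟨-123, 43, 80, 0⟩, .q ⟨119, -39, -80, 0⟩ ⟨2031, 1969, 0, -4000⟩, .q ⟨123, -43, -80, 0⟩ ⟨2031, 1969, 0, -4000⟩, .q ⟨119, -39, -80, 0⟩ ⟨62, -485, -2609, 3032⟩, .q ⟨123, -43, -80, 0⟩ ⟨62, -485, -2609, 3032⟩, .q ⟨119, -39, -80, 0⟩ ⟨2728, 2752, -3441, -2039⟩, .q ⟨123, -43, -80, 0⟩ ⟨2728, 2752, -3441, -2039⟩] := by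
  refine rok_bs (s := -1) (nlo := 39) (nhi := 43) (q := 80) (by decide) (by decide) (by decide) (by decide) (k := 1) (by decide) (Q := [(0, 4000, -1969), (-2609, -3032, 485), (-3441, 2039, -2752)])
    (P := [⟨-1198080, -80, 0⟩, ⟨1320960, 80, 0⟩, ⟨-60487680, 0, 4000⟩, ⟨14899200, -2609, -3032⟩, ⟨-84541440, -3441, 2039⟩]) rfl rfl
    (List.mem_of_getElem? (i := 61) rfl) TB_fr TB_cov ?_
  · intro X Y h
    simp only [List.forall_mem_cons, List.not_mem_nil, false_imp_iff, implies_true, and_true] at h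
    push_cast at h ⊢
    obtain ⟨h0, h1, h2, h3, h4⟩ := h
    refine ⟨⟨?_, ?_⟩, ?_, ?_⟩ <;> linarith

theorem TB_rg62 : ROK [.q ⟨-247, -233, 480, 0⟩ ⟨-713, 233, 480, 0⟩, .q ⟨240, 240, -480, 0⟩ ⟨-720, 240, 480, 0⟩, .q ⟨713, -233, -480, 0⟩ ⟨12013, -9342, 1158, -3829⟩, .q ⟨720, -240, -480, 0⟩ ⟨12013, -9342, 1158, -3829⟩, .q ⟨713, -233, -480, 0⟩ ⟨8312, -10983, -1158, 3829⟩, .q ⟨720, -240, -480, 0⟩ ⟨8312, -10983, -1158, 3829⟩, .q ⟨713, -233, -480, 0⟩ ⟨2689, 2703, -3552, -1840⟩, .q ⟨720, -240, -480, 0⟩ ⟨2689, 2703, -3552, -1840⟩, .q ⟨713, -233, -480, 0⟩ ⟨-1390, -2033, -540, 3963⟩, .q ⟨720, -240, -480, 0⟩ ⟨-1390, -2033, -540, 3963⟩] := by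
  refine rok_bs (s := -1) (nlo := 233) (nhi := 240) (q := 480) (by decide) (by decide) (by decide) (by decide) (k := 1) (by decide) (Q := [(1158, 3829, 9342), (-1158, -3829, 10983), (-3552, 1840, -2703), (-540, -3963, 2033)])
    (P := [⟨-7157760, -480, 0⟩, ⟨7372800, 480, 0⟩, ⟨286986240, 1158, 3829⟩, ⟨337397760, -1158, -3829⟩, ⟨-83036160, -3552, 1840⟩, ⟨62453760, -540, -3963⟩]) rfl rfl
    (List.mem_of_getElem? (i := 62) rfl) TB_fr TB_cov ?_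
  · intro X Y h
    simp only [List.forall_mem_cons, List.not_mem_nil, false_imp_iff, implies_true, and_true] at h
    push_cast at h ⊢
    obtain ⟨h0, h1, h2, h3, h4, h5⟩ := h
    refine ⟨⟨?_, ?_⟩, ?_, ?_⟩ <;> linarith

theorem TB_rg63 : ROK [.q ⟨-11, -9, 20, 0⟩ ⟨-29, 9, 20, 0⟩, .q ⟨9, 11, -20, 0⟩ ⟨-31, 11, 20, 0⟩, .q ⟨29, -9, -20, 0⟩ ⟨2031, 1969, 0, -4000⟩, .q ⟨31, -11, -20, 0⟩ ⟨2031, 1969, 0, -4000⟩, .q ⟨29, -9, -20, 0⟩ ⟨-25, -478, -2566, 3069⟩, .q ⟨31, -11, -20, 0⟩ ⟨-25, -478, -2566, 3069⟩, .q ⟨29, -9, -20, 0⟩ ⟨2590, 2627, -3701, -1516⟩, .q ⟨31, -11, -20, 0⟩ ⟨2590, 2627, -3701, -1516⟩] := by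
  refine rok_bs (s := -1) (nlo := 9) (nhi := 11) (q := 20) (by decide) (by decide) (by decide) (by decide) (k := 1) (by decide) (Q := [(0, 4000, -1969), (-2566, -3069, 478), (-3701, 1516, -2627)])
    (P := [⟨-276480, -20, 0⟩, ⟨337920, 20, 0⟩, ⟨-60487680, 0, 4000⟩, ⟨14684160, -2566, -3069⟩, ⟨-80701440, -3701, 1516⟩]) rfl rfl
    (List.mem_of_getElem? (i := 63) rfl) TB_fr TB_cov ?_
  · intro X Y h
    simp only [List.forall_mem_cons, List.not_mem_nil, false_imp_iff, implies_true, and_true] at h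
    push_cast at h ⊢
    obtain ⟨h0, h1, h2, h3, h4⟩ := h
    refine ⟨⟨?_, ?_⟩, ?_, ?_⟩ <;> linarith

theorem TB_rg64 : ROK [.q ⟨-248, -232, 480, 0⟩ ⟨-712, 232, 480, 0⟩, .q ⟨239, 241, -480, 0⟩ ⟨-721, 241, 480, 0⟩, .q ⟨712, -232, -480, 0⟩ ⟨2417, 2646, -1270, -3793⟩, .q ⟨721, -241, -480, 0⟩ ⟨2417, 2646, -1270, -3793⟩, .q ⟨712, -232, -480, 0⟩ ⟨29, -82, -680, 733⟩, .q ⟨721, -241, -480, 0⟩ ⟨29, -82, -680, 733⟩] := by
  refine rok_bs (s := -1) (nlo := 232) (nhi := 241) (q := 480) (by decide) (by decide) (by decide) (by decide) (k := 1) (by decide) (Q := [(-1270, 3793, -2646), (-680, -733, 82)])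
    (P := [⟨-7127040, -480, 0⟩, ⟨7403520, 480, 0⟩, ⟨-81285120, -1270, 3793⟩, ⟨2519040, -680, -733⟩]) rfl rfl
    (List.mem_of_getElem? (i := 64) rfl) TB_fr TB_cov ?_
  · intro X Y h
    simp only [List.forall_mem_cons, List.not_mem_nil, false_imp_iff, implies_true, and_true] at h
    push_cast at h ⊢
    obtain ⟨h0, h1, h2, h3⟩ := h
    refine ⟨⟨?_, ?_⟩, ?_, ?_⟩ <;> linarith

theorem TB_rg65 : ROK [.q ⟨-21, -19, 40, 0⟩ ⟨-59, 19, 40, 0⟩, .q ⟨17, 23, -40, 0⟩ ⟨-63, 23, 40, 0⟩, .q ⟨59, -19, -40, 0⟩ ⟨2143, 2087, -237, -3993⟩, .q ⟨63, -23, -40, 0⟩ ⟨2143, 2087, -237, -3993⟩, .q ⟨59, -19, -40, 0⟩ ⟨-224, -616, -2377, 3217⟩, .q ⟨63, -23, -40, 0⟩ ⟨-224, -616, -2377, 3217⟩, .q ⟨59, -19, -40, 0⟩ ⟨2670, 2698, -3575, -1793⟩, .q ⟨63, -23, -40, 0⟩ ⟨2670, 2698, -3575, -1793⟩] := by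
  refine rok_bs (s := -1) (nlo := 19) (nhi := 23) (q := 40) (by decide) (by decide) (by decide) (by decide) (k := 1) (by decide) (Q := [(-237, 3993, -2087), (-2377, -3217, 616), (-3575, 1793, -2698)])
    (P := [⟨-583680, -40, 0⟩, ⟨706560, 40, 0⟩, ⟨-64112640, -237, 3993⟩, ⟨18923520, -2377, -3217⟩, ⟨-82882560, -3575, 1793⟩]) rfl rfl
    (List.mem_of_getElem? (i := 65) rfl) TB_fr TB_cov ?_
  · intro X Y h
    simp only [List.forall_mem_cons, List.not_mem_nil, false_imp_iff, implies_true, and_true] at h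
    push_cast at h ⊢
    obtain ⟨h0, h1, h2, h3, h4⟩ := h
    refine ⟨⟨?_, ?_⟩, ?_, ?_⟩ <;> linarith

theorem TB_rg66 : ROK [.q ⟨-241, -239, 480, 0⟩ ⟨-719, 239, 480, 0⟩, .q ⟨231, 249, -480, 0⟩ ⟨-729, 249, 480, 0⟩, .q ⟨719, -239, -480, 0⟩ ⟨253, 247, 0, -500⟩, .q ⟨729, -249, -480, 0⟩ ⟨253, 247, 0, -500⟩, .q ⟨719, -239, -480, 0⟩ ⟨8203, -12203, 0, 4000⟩, .q ⟨729, -249, -480, 0⟩ ⟨8203, -12203, 0, 4000⟩, .q ⟨719, -239, -480, 0⟩ ⟨2795, 2780, -2308, -3267⟩, .q ⟨729, -249, -480, 0⟩ ⟨2795, 2780, -2308, -3267⟩, .q ⟨719, -239, -480, 0⟩ ⟨-1941, -2739, 751, 3929⟩, .q ⟨729, -249, -480, 0⟩ ⟨-1941, -2739, 751, 3929⟩] := by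
  refine rok_bs (s := -1) (nlo := 239) (nhi := 249) (q := 480) (by decide) (by decide) (by decide) (by decide) (k := 1) (by decide) (Q := [(0, 500, -247), (0, -4000, 12203), (-2308, 3267, -2780), (751, -3929, 2739)])
    (P := [⟨-7342080, -480, 0⟩, ⟨7649280, 480, 0⟩, ⟨-7587840, 0, 500⟩, ⟨374876160, 0, -4000⟩, ⟨-85401600, -2308, 3267⟩, ⟨84142080, 751, -3929⟩]) rfl rfl
    (List.mem_of_getElem? (i := 66) rfl) TB_fr TB_cov ?_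
  · intro X Y h
    simp only [List.forall_mem_cons, List.not_mem_nil, false_imp_iff, implies_true, and_true] at h
    push_cast at h ⊢
    obtain ⟨h0, h1, h2, h3, h4, h5⟩ := h
    refine ⟨⟨?_, ?_⟩, ?_, ?_⟩ <;> linarith

theorem TB_rg67 : ROK [.q ⟨-265, -215, 480, 0⟩ ⟨-695, 215, 480, 0⟩, .q ⟨256, 224, -480, 0⟩ ⟨-704, 224, 480, 0⟩, .q ⟨695, -215, -480, 0⟩ ⟨4479, -2479, 0, -2000⟩, .q ⟨704, -224, -480, 0⟩ ⟨4479, -2479, 0, -2000⟩, .q ⟨695, -215, -480, 0⟩ ⟨-493, -3847, 356, 3984⟩, .q ⟨704, -224, -480, 0⟩ ⟨-493, -3847, 356, 3984⟩, .q ⟨695, -215, -480, 0⟩ ⟨-67, 3010, 944, -3887⟩, .q ⟨704, -224, -480, 0⟩ ⟨-67, 3010, 944, -3887⟩] := by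
  refine rok_bs (s := -1) (nlo := 215) (nhi := 224) (q := 480) (by decide) (by decide) (by decide) (by decide) (k := 1) (by decide) (Q := [(0, 2000, 2479), (356, -3984, 3847), (944, 3887, -3010)])
    (P := [⟨-6604800, -480, 0⟩, ⟨6881280, 480, 0⟩, ⟨76154880, 0, 2000⟩, ⟨118179840, 356, -3984⟩, ⟨-92467200, 944, 3887⟩]) rfl rfl
    (List.mem_of_getElem? (i := 67) rfl) TB_fr TB_cov ?_
  · intro X Y h
    simp only [List.forall_mem_cons, List.not_mem_nil, false_imp_iff, implies_true, and_true] at h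
    push_cast at h ⊢
    obtain ⟨h0, h1, h2, h3, h4⟩ := h
    refine ⟨⟨?_, ?_⟩, ?_, ?_⟩ <;> linarith

theorem TB_rg68 : ROK [.q ⟨-42, -38, 80, 0⟩ ⟨-118, 38, 80, 0⟩, .q ⟨39, 41, -80, 0⟩ ⟨-121, 41, 80, 0⟩, .q ⟨118, -38, -80, 0⟩ ⟨403, 397, 0, -800⟩, .q ⟨121, -41, -80, 0⟩ ⟨403, 397, 0, -800⟩, .q ⟨118, -38, -80, 0⟩ ⟨-73, -87, 0, 160⟩, .q ⟨121, -41, -80, 0⟩ ⟨-73, -87, 0, 160⟩, .q ⟨118, -38, -80, 0⟩ ⟨2597, 2584, -3726, -1455⟩, .q ⟨121, -41, -80, 0⟩ ⟨2597, 2584, -3726, -1455⟩] := by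
  refine rok_bs (s := -1) (nlo := 38) (nhi := 41) (q := 80) (by decide) (by decide) (by decide) (by decide) (k := 1) (by decide) (Q := [(0, 800, -397), (0, -160, 87), (-3726, 1455, -2584)])
    (P := [⟨-1167360, -80, 0⟩, ⟨1259520, 80, 0⟩, ⟨-12195840, 0, 800⟩, ⟨2672640, 0, -160⟩, ⟨-79380480, -3726, 1455⟩]) rfl rfl
    (List.mem_of_getElem? (i := 68) rfl) TB_fr TB_cov ?_
  · intro X Y h
    simp only [List.forall_mem_cons, List.not_mem_nil, false_imp_iff, implies_true, and_true] at h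
    push_cast at h ⊢
    obtain ⟨h0, h1, h2, h3, h4⟩ := h
    refine ⟨⟨?_, ?_⟩, ?_, ?_⟩ <;> linarith

theorem TB_rg69 : ROK [.q ⟨-19, -21, 40, 0⟩ ⟨-61, 21, 40, 0⟩, .q ⟨15, 25, -40, 0⟩ ⟨-65, 25, 40, 0⟩, .q ⟨61, -21, -40, 0⟩ ⟨2781, -1781, 0, -1000⟩, .q ⟨65, -25, -40, 0⟩ ⟨2781, -1781, 0, -1000⟩, .q ⟨61, -21, -40, 0⟩ ⟨9440, -14923, 2046, 3437⟩, .q ⟨65, -25, -40, 0⟩ ⟨9440, -14923, 2046, 3437⟩, .q ⟨61, -21, -40, 0⟩ ⟨-53, -458, 1163, -652⟩, .q ⟨65, -25, -40, 0⟩ ⟨-53, -458, 1163, -652⟩, .q ⟨61, -21, -40, 0⟩ ⟨459, 893, -3422, 2070⟩, .q ⟨65, -25, -40, 0⟩ ⟨459, 893, -3422, 2070⟩] := by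
  refine rok_bs (s := -1) (nlo := 21) (nhi := 25) (q := 40) (by decide) (by decide) (by decide) (by decide) (k := 1) (by decide) (Q := [(0, 1000, 1781), (2046, -3437, 14923), (1163, 652, 458), (-3422, -2070, -893)])
    (P := [⟨-645120, -40, 0⟩, ⟨768000, 40, 0⟩, ⟨54712320, 0, 1000⟩, ⟨458434560, 2046, -3437⟩, ⟨14069760, 1163, 652⟩, ⟨-27432960, -3422, -2070⟩]) rfl rfl
    (List.mem_of_getElem? (i := 69) rfl) TB_fr TB_cov ?_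
  · intro X Y h
    simp only [List.forall_mem_cons, List.not_mem_nil, false_imp_iff, implies_true, and_true] at h
    push_cast at h ⊢
    obtain ⟨h0, h1, h2, h3, h4, h5⟩ := h
    refine ⟨⟨?_, ?_⟩, ?_, ?_⟩ <;> linarith

theorem TB_rg70 : ROK [.q ⟨-10, -10, 20, 0⟩ ⟨-30, 10, 20, 0⟩, .q ⟨7, 13, -20, 0⟩ ⟨-33, 13, 20, 0⟩, .q ⟨30, -10, -20, 0⟩ ⟨137, 2974, 807, -3918⟩, .q ⟨33, -13, -20, 0⟩ ⟨137, 2974, 807, -3918⟩, .q ⟨30, -10, -20, 0⟩ ⟨156, -1193, -269, 1306⟩, .q ⟨33, -13, -20, 0⟩ ⟨156, -1193, -269, 1306⟩] := by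
  refine rok_bs (s := -1) (nlo := 10) (nhi := 13) (q := 20) (by decide) (by decide) (by decide) (by decide) (k := 1) (by decide) (Q := [(807, 3918, -2974), (-269, -1306, 1193)])
    (P := [⟨-307200, -20, 0⟩, ⟨399360, 20, 0⟩, ⟨-91361280, 807, 3918⟩, ⟨36648960, -269, -1306⟩]) rfl rfl
    (List.mem_of_getElem? (i := 70) rfl) TB_fr TB_cov ?_
  · intro X Y h
    simp only [List.forall_mem_cons, List.not_mem_nil, false_imp_iff, implies_true, and_true] at h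
    push_cast at h ⊢
    obtain ⟨h0, h1, h2, h3⟩ := h
    refine ⟨⟨?_, ?_⟩, ?_, ?_⟩ <;> linarith

theorem TB_rg71 : ROK [.q ⟨-123, -117, 240, 0⟩ ⟨-357, 117, 240, 0⟩, .q ⟨119, 121, -240, 0⟩ ⟨-361, 121, 240, 0⟩, .q ⟨357, -117, -240, 0⟩ ⟨403, 397, 0, -800⟩, .q ⟨361, -121, -240, 0⟩ ⟨403, 397, 0, -800⟩, .q ⟨357, -117, -240, 0⟩ ⟨-2091, -2687, 875, 3903⟩, .q ⟨361, -121, -240, 0⟩ ⟨-2091, -2687, 875, 3903⟩, .q ⟨357, -117, -240, 0⟩ ⟨2625, 2615, -3686, -1554⟩, .q ⟨361, -121, -240, 0⟩ ⟨2625, 2615, -3686, -1554⟩] := by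
  refine rok_bs (s := -1) (nlo := 117) (nhi := 121) (q := 240) (by decide) (by decide) (by decide) (by decide) (k := 1) (by decide) (Q := [(0, 800, -397), (875, -3903, 2687), (-3686, 1554, -2615)])
    (P := [⟨-3594240, -240, 0⟩, ⟨3717120, 240, 0⟩, ⟨-12195840, 0, 800⟩, ⟨82544640, 875, -3903⟩, ⟨-80332800, -3686, 1554⟩]) rfl rfl
    (List.mem_of_getElem? (i := 71) rfl) TB_fr TB_cov ?_
  · intro X Y h
    simp only [List.forall_mem_cons, List.not_mem_nil, false_imp_iff, implies_true, and_true] at h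
    push_cast at h ⊢
    obtain ⟨h0, h1, h2, h3, h4⟩ := h
    refine ⟨⟨?_, ?_⟩, ?_, ?_⟩ <;> linarith

end Pool.Agent.TET
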