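import Pool.Agent.Helper38_TET.TB_C

/-!
# MP_c7c9bf_co: certificates, family TB
-/

set_option autoImplicit false
set_option maxRecDepth 100000

namespace Pool.Agent.TET

theorem TB_rg480 : ROK [.q ⟨-271, -209, 480, 0⟩ ⟨-689, 209, 480, 0⟩, .q ⟨267, 213, -480, 0⟩ ⟨-693, 213, 480, 0⟩, .q ⟨689, -209, -480, 0⟩ ⟨6163, -4163, 0, -2000⟩, .q ⟨693, -213, -480, 0⟩ ⟨6163, -4163, 0, -2000⟩, .q ⟨689, -209, -480, 0⟩ ⟨959, -2121, -2187, 3349⟩, .q ⟨693, -213, -480, 0⟩ ⟨959, -2121, -2187, 3349⟩, .q ⟨689, -209, -480, 0⟩ ⟨1983, 3625, -3175, -2433⟩, .q ⟨693, -213, -480, 0⟩ ⟨1983, 3625, -3175, -2433⟩, .q ⟨689, -209, -480, 0⟩ ⟨624, -11, -1198, 585⟩, .q ⟨693, -213, -480, 0⟩ ⟨624, -11, -1198, 585⟩] := by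
  refine rok_bs (s := -1) (nlo := 209) (nhi := 213) (q := 480) (by decide) (by decide) (by decide) (by decide) (k := 1) (by decide) (Q := [(0, 2000, 4163), (-2187, -3349, 2121), (-3175, 2433, -3625), (-1198, -585, 11)])
    (P := [⟨-6420480, -480, 0⟩, ⟨6543360, 480, 0⟩, ⟨127887360, 0, 2000⟩, ⟨65157120, -2187, -3349⟩, ⟨-111360000, -3175, 2433⟩, ⟨337920, -1198, -585⟩]) rfl rfl
    (List.mem_of_getElem? (i := 480) rfl) TB_fr TB_cov ?_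
  · intro X Y h
    simp only [List.forall_mem_cons, List.not_mem_nil, false_imp_iff, implies_true, and_true] at h
    push_cast at h ⊢
    obtain ⟨h0, h1, h2, h3, h4, h5⟩ := h
    refine ⟨⟨?_, ?_⟩, ?_, ?_⟩ <;> linarith

theorem TB_rg481 : ROK [.q ⟨-5, -475, 480, 0⟩ ⟨-955, 475, 480, 0⟩, .q ⟨-2, 482, -480, 0⟩ ⟨-962, 482, 480, 0⟩, .q ⟨955, -475, -480, 0⟩ ⟨3178, -2615, 2533, -3096⟩, .q ⟨962, -482, -480, 0⟩ ⟨3178, -2615, 2533, -3096⟩, .q ⟨955, -475, -480, 0⟩ ⟨-2861, 2298, -2533, 3096⟩, .q ⟨962, -482, -480, 0⟩ ⟨-2861, 2298, -2533, 3096⟩, .q ⟨955, -475, -480, 0⟩ ⟨-2535, -3117, 2938, 2714⟩, .q ⟨962, -482, -480, 0⟩ ⟨-2535, -3117, 2938, 2714⟩] := by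
  refine rok_bs (s := -1) (nlo := 475) (nhi := 482) (q := 480) (by decide) (by decide) (by decide) (by decide) (k := 1) (by decide) (Q := [(2533, 3096, 2615), (-2533, -3096, -2298), (2938, -2714, 3117)])
    (P := [⟨-14592000, -480, 0⟩, ⟨14807040, 480, 0⟩, ⟨80332800, 2533, 3096⟩, ⟨-70594560, -2533, -3096⟩, ⟨95754240, 2938, -2714⟩]) rfl rfl
    (List.mem_of_getElem? (i := 481) rfl) TB_fr TB_cov ?_
  · intro X Y h
    simp only [List.forall_mem_cons, List.not_mem_nil, false_imp_iff, implies_true, and_true] at h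
    push_cast at h ⊢
    obtain ⟨h0, h1, h2, h3, h4⟩ := h
    refine ⟨⟨?_, ?_⟩, ?_, ?_⟩ <;> linarith

theorem TB_rg482 : ROK [.q ⟨-541, -419, 960, 0⟩ ⟨-1379, 419, 960, 0⟩, .q ⟨533, 427, -960, 0⟩ ⟨-1387, 427, 960, 0⟩, .q ⟨1379, -419, -960, 0⟩ ⟨511, 3726, -245, -3992⟩, .q ⟨1387, -427, -960, 0⟩ ⟨511, 3726, -245, -3992⟩, .q ⟨1379, -419, -960, 0⟩ ⟨-488, -3749, 245, 3992⟩, .q ⟨1387, -427, -960, 0⟩ ⟨-488, -3749, 245, 3992⟩] := by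
  refine rok_bs (s := -1) (nlo := 419) (nhi := 427) (q := 960) (by decide) (by decide) (by decide) (by decide) (k := 1) (by decide) (Q := [(-245, 3992, -3726), (245, -3992, 3749)])
    (P := [⟨-12871680, -960, 0⟩, ⟨13117440, 960, 0⟩, ⟨-114462720, -245, 3992⟩, ⟨115169280, 245, -3992⟩]) rfl rfl
    (List.mem_of_getElem? (i := 482) rfl) TB_fr TB_cov ?_
  · intro X Y h
    simp only [List.forall_mem_cons, List.not_mem_nil, false_imp_iff, implies_true, and_true] at h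
    push_cast at h ⊢
    obtain ⟨h0, h1, h2, h3⟩ := h
    refine ⟨⟨?_, ?_⟩, ?_, ?_⟩ <;> linarith

theorem TB_rg483 : ROK [.q ⟨-91, -69, 160, 0⟩ ⟨-229, 69, 160, 0⟩, .q ⟨89, 71, -160, 0⟩ ⟨-231, 71, 160, 0⟩, .q ⟨229, -69, -160, 0⟩ ⟨9590, -7687, 1712, -3615⟩, .q ⟨231, -71, -160, 0⟩ ⟨9590, -7687, 1712, -3615⟩, .q ⟨229, -69, -160, 0⟩ ⟨2481, -2979, -259, 757⟩, .q ⟨231, -71, -160, 0⟩ ⟨2481, -2979, -259, 757⟩, .q ⟨229, -69, -160, 0⟩ ⟨1476, 4026, -2093, -3409⟩, .q ⟨231, -71, -160, 0⟩ ⟨1476, 4026, -2093, -3409⟩, .q ⟨229, -69, -160, 0⟩ ⟨1825, -176, -3530, 1881⟩, .q ⟨231, -71, -160, 0⟩ ⟨1825, -176, -3530, 1881⟩] := by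
  refine rok_bs (s := -1) (nlo := 69) (nhi := 71) (q := 160) (by decide) (by decide) (by decide) (by decide) (k := 1) (by decide) (Q := [(1712, 3615, 7687), (-259, -757, 2979), (-2093, 3409, -4026), (-3530, -1881, 176)])
    (P := [⟨-2119680, -160, 0⟩, ⟨2181120, 160, 0⟩, ⟨236144640, 1712, 3615⟩, ⟨91514880, -259, -757⟩, ⟨-123678720, -2093, 3409⟩, ⟨5406720, -3530, -1881⟩]) rfl rfl
    (List.mem_of_getElem? (i := 483) rfl) TB_fr TB_cov ?_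
  · intro X Y h
    simp only [List.forall_mem_cons, List.not_mem_nil, false_imp_iff, implies_true, and_true] at h
    push_cast at h ⊢
    obtain ⟨h0, h1, h2, h3, h4, h5⟩ := h
    refine ⟨⟨?_, ?_⟩, ?_, ?_⟩ <;> linarith

theorem TB_rg484 : ROK [.q ⟨-5, -475, 480, 0⟩ ⟨-955, 475, 480, 0⟩, .q ⟨1, 479, -480, 0⟩ ⟨-959, 479, 480, 0⟩, .q ⟨955, -475, -480, 0⟩ ⟨12497, -10968, 1959, -3488⟩, .q ⟨959, -479, -480, 0⟩ ⟨12497, -10968, 1959, -3488⟩, .q ⟨955, -475, -480, 0⟩ ⟨-3224, 1695, -1959, 3488⟩, .q ⟨959, -479, -480, 0⟩ ⟨-3224, 1695, -1959, 3488⟩, .q ⟨955, -475, -480, 0⟩ ⟨1563, -3702, 3688, -1549⟩, .q ⟨959, -479, -480, 0⟩ ⟨1563, -3702, 3688, -1549⟩, .q ⟨955, -475, -480, 0⟩ ⟨-3626, -1163, 889, 3900⟩, .q ⟨959, -479, -480, 0⟩ ⟨-3626, -1163, 889, 3900⟩] := by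
  refine rok_bs (s := -1) (nlo := 475) (nhi := 479) (q := 480) (by decide) (by decide) (by decide) (by decide) (k := 1) (by decide) (Q := [(1959, 3488, 10968), (-1959, -3488, -1695), (3688, 1549, 3702), (889, -3900, 1163)])
    (P := [⟨-14592000, -480, 0⟩, ⟨14714880, 480, 0⟩, ⟨336936960, 1959, 3488⟩, ⟨-52070400, -1959, -3488⟩, ⟨113725440, 3688, 1549⟩, ⟨35727360, 889, -3900⟩]) rfl rfl
    (List.mem_of_getElem? (i := 484) rfl) TB_fr TB_cov ?_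
  · intro X Y h
    simp only [List.forall_mem_cons, List.not_mem_nil, false_imp_iff, implies_true, and_true] at h
    push_cast at h ⊢
    obtain ⟨h0, h1, h2, h3, h4, h5⟩ := h
    refine ⟨⟨?_, ?_⟩, ?_, ?_⟩ <;> linarith

theorem TB_rg485 : ROK [.q ⟨-269, -211, 480, 0⟩ ⟨-691, 211, 480, 0⟩, .q ⟨265, 215, -480, 0⟩ ⟨-695, 215, 480, 0⟩, .q ⟨691, -211, -480, 0⟩ ⟨12309, -6990, -1697, -3622⟩, .q ⟨695, -215, -480, 0⟩ ⟨12309, -6990, -1697, -3622⟩, .q ⟨691, -211, -480, 0⟩ ⟨29, -276, -102, 349⟩, .q ⟨695, -215, -480, 0⟩ ⟨29, -276, -102, 349⟩, .q ⟨691, -211, -480, 0⟩ ⟨-1211, 1378, 2744, -2911⟩, .q ⟨695, -215, -480, 0⟩ ⟨-1211, 1378, 2744, -2911⟩] := by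
  refine rok_bs (s := -1) (nlo := 211) (nhi := 215) (q := 480) (by decide) (by decide) (by decide) (by decide) (k := 1) (by decide) (Q := [(-1697, 3622, 6990), (-102, -349, 276), (2744, 2911, -1378)])
    (P := [⟨-6481920, -480, 0⟩, ⟨6604800, 480, 0⟩, ⟨214732800, -1697, 3622⟩, ⟨8478720, -102, -349⟩, ⟨-42332160, 2744, 2911⟩]) rfl rfl
    (List.mem_of_getElem? (i := 485) rfl) TB_fr TB_cov ?_
  · intro X Y h
    simp only [List.forall_mem_cons, List.not_mem_nil, false_imp_iff, implies_true, and_true] at h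
    push_cast at h ⊢
    obtain ⟨h0, h1, h2, h3, h4⟩ := h
    refine ⟨⟨?_, ?_⟩, ?_, ?_⟩ <;> linarith

end Pool.Agent.TET
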