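import Pool.Agent.Helper38_TET.TB_C

/-!
# MP_c7c9bf_co: certificates, family TB
-/

set_option autoImplicit false
set_option maxRecDepth 100000

namespace Pool.Agent.TET

theorem TB_rg72 : ROK [.q ⟨-21, -19, 40, 0⟩ ⟨-59, 19, 40, 0⟩, .q ⟨17, 23, -40, 0⟩ ⟨-63, 23, 40, 0⟩, .q ⟨59, -19, -40, 0⟩ ⟨511, 3489, 0, -4000⟩, .q ⟨63, -23, -40, 0⟩ ⟨511, 3489, 0, -4000⟩, .q ⟨59, -19, -40, 0⟩ ⟨3, -503, 0, 500⟩, .q ⟨63, -23, -40, 0⟩ ⟨3, -503, 0, 500⟩] := by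
  refine rok_bs (s := -1) (nlo := 19) (nhi := 23) (q := 40) (by decide) (by decide) (by decide) (by decide) (k := 1) (by decide) (Q := [(0, 4000, -3489), (0, -500, 503)])
    (P := [⟨-583680, -40, 0⟩, ⟨706560, 40, 0⟩, ⟨-107182080, 0, 4000⟩, ⟨15452160, 0, -500⟩]) rfl rfl
    (List.mem_of_getElem? (i := 72) rfl) TB_fr TB_cov ?_
  · intro X Y h
    simp only [List.forall_mem_cons, List.not_mem_nil, false_imp_iff, implies_true, and_true] at h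
    push_cast at h ⊢
    obtain ⟨h0, h1, h2, h3⟩ := h
    refine ⟨⟨?_, ?_⟩, ?_, ?_⟩ <;> linarith

theorem TB_rg73 : ROK [.q ⟨-254, -226, 480, 0⟩ ⟨-706, 226, 480, 0⟩, .q ⟨243, 237, -480, 0⟩ ⟨-717, 237, 480, 0⟩, .q ⟨706, -226, -480, 0⟩ ⟨249, 1744, 7, -2000⟩, .q ⟨717, -237, -480, 0⟩ ⟨249, 1744, 7, -2000⟩, .q ⟨706, -226, -480, 0⟩ ⟨11, -2004, -7, 2000⟩, .q ⟨717, -237, -480, 0⟩ ⟨11, -2004, -7, 2000⟩] := by
  refine rok_bs (s := -1) (nlo := 226) (nhi := 237) (q := 480) (by decide) (by decide) (by decide) (by decide) (k := 1) (by decide) (Q := [(7, 2000, -1744), (-7, -2000, 2004)])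
    (P := [⟨-6942720, -480, 0⟩, ⟨7280640, 480, 0⟩, ⟨-53575680, 7, 2000⟩, ⟨61562880, -7, -2000⟩]) rfl rfl
    (List.mem_of_getElem? (i := 73) rfl) TB_fr TB_cov ?_
  · intro X Y h
    simp only [List.forall_mem_cons, List.not_mem_nil, false_imp_iff, implies_true, and_true] at h
    push_cast at h ⊢
    obtain ⟨h0, h1, h2, h3⟩ := h
    refine ⟨⟨?_, ?_⟩, ?_, ?_⟩ <;> linarith

theorem TB_rg74 : ROK [.q ⟨-11, -9, 20, 0⟩ ⟨-29, 9, 20, 0⟩, .q ⟨8, 12, -20, 0⟩ ⟨-32, 12, 20, 0⟩, .q ⟨29, -9, -20, 0⟩ ⟨407, 393, 0, -800⟩, .q ⟨32, -12, -20, 0⟩ ⟨407, 393, 0, -800⟩, .q ⟨29, -9, -20, 0⟩ ⟨6885, -12096, 1505, 3706⟩, .q ⟨32, -12, -20, 0⟩ ⟨6885, -12096, 1505, 3706⟩, .q ⟨29, -9, -20, 0⟩ ⟨2633, 2679, -3629, -1683⟩, .q ⟨32, -12, -20, 0⟩ ⟨2633, 2679, -3629, -1683⟩, .q ⟨29, -9, -20, 0⟩ ⟨325, 214, -1173, 634⟩, .q ⟨32, -12, -20, 0⟩ ⟨325, 214,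 -1173, 634⟩] := by
  refine rok_bs (s := -1) (nlo := 9) (nhi := 12) (q := 20) (by decide) (by decide) (by decide) (by decide) (k := 1) (by decide) (Q := [(0, 800, -393), (1505, -3706, 12096), (-3629, 1683, -2679), (-1173, -634, -214)])
    (P := [⟨-276480, -20, 0⟩, ⟨368640, 20, 0⟩, ⟨-12072960, 0, 800⟩, ⟨371589120, 1505, -3706⟩, ⟨-82298880, -3629, 1683⟩, ⟨-6574080, -1173, -634⟩]) rfl rfl
    (List.mem_of_getElem? (i := 74) rfl) TB_fr TB_cov ?_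
  · intro X Y h
    simp only [List.forall_mem_cons, List.not_mem_nil, false_imp_iff, implies_true, and_true] at h
    push_cast at h ⊢
    obtain ⟨h0, h1, h2, h3, h4, h5⟩ := h
    refine ⟨⟨?_, ?_⟩, ?_, ?_⟩ <;> linarith

theorem TB_rg75 : ROK [.q ⟨-10, -10, 20, 0⟩ ⟨-30, 10, 20, 0⟩, .q ⟨7, 13, -20, 0⟩ ⟨-33, 13, 20, 0⟩, .q ⟨30, -10, -20, 0⟩ ⟨2883, 1117, 0, -4000⟩, .q ⟨33, -13, -20, 0⟩ ⟨2883, 1117, 0, -4000⟩, .q ⟨30, -10, -20, 0⟩ ⟨9723, -14223, 536, 3964⟩, .q ⟨33, -13, -20, 0⟩ ⟨9723, -14223, 536, 3964⟩, .q ⟨30, -10, -20, 0⟩ ⟨737, 1184, -3621, 1700⟩, .q ⟨33, -13, -20, 0⟩ ⟨737, 1184, -3621, 1700⟩] := by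
  refine rok_bs (s := -1) (nlo := 10) (nhi := 13) (q := 20) (by decide) (by decide) (by decide) (by decide) (k := 1) (by decide) (Q := [(0, 4000, -1117), (536, -3964, 14223), (-3621, -1700, -1184)])
    (P := [⟨-307200, -20, 0⟩, ⟨399360, 20, 0⟩, ⟨-34314240, 0, 4000⟩, ⟨436930560, 536, -3964⟩, ⟨-36372480, -3621, -1700⟩]) rfl rfl
    (List.mem_of_getElem? (i := 75) rfl) TB_fr TB_cov ?_
  · intro X Y h
    simp only [List.forall_mem_cons, List.not_mem_nil, false_imp_iff, implies_true, and_true] at h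
    push_cast at h ⊢
    obtain ⟨h0, h1, h2, h3, h4⟩ := h
    refine ⟨⟨?_, ?_⟩, ?_, ?_⟩ <;> linarith

theorem TB_rg76 : ROK [.q ⟨-9, -11, 20, 0⟩ ⟨-31, 11, 20, 0⟩, .q ⟨7, 13, -20, 0⟩ ⟨-33, 13, 20, 0⟩, .q ⟨31, -11, -20, 0⟩ ⟨1767, -1267, 0, -500⟩, .q ⟨33, -13, -20, 0⟩ ⟨1767, -1267, 0, -500⟩, .q ⟨31, -11, -20, 0⟩ ⟨7285, -11210, -74, 3999⟩, .q ⟨33, -13, -20, 0⟩ ⟨7285, -11210, -74, 3999⟩, .q ⟨31, -11, -20, 0⟩ ⟨2899, 2727, -3110, -2516⟩, .q ⟨33, -13, -20, 0⟩ ⟨2899, 2727, -3110, -2516⟩, .q ⟨31, -11, -20, 0⟩ ⟨884, 1334, -3711, 1493⟩, .q ⟨33, -13, -20, 0⟩ ⟨884, 1334, -3711, 1493⟩] := by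
  refine rok_bs (s := -1) (nlo := 11) (nhi := 13) (q := 20) (by decide) (by decide) (by decide) (by decide) (k := 1) (by decide) (Q := [(0, 500, 1267), (-74, -3999, 11210), (-3110, 2516, -2727), (-3711, -1493, -1334)])
    (P := [⟨-337920, -20, 0⟩, ⟨399360, 20, 0⟩, ⟨38922240, 0, 500⟩, ⟨344371200, -74, -3999⟩, ⟨-83773440, -3110, 2516⟩, ⟨-40980480, -3711, -1493⟩]) rfl rfl
    (List.mem_of_getElem? (i := 76) rfl) TB_fr TB_cov ?_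
  · intro X Y h
    simp only [List.forall_mem_cons, List.not_mem_nil, false_imp_iff, implies_true, and_true] at h
    push_cast at h ⊢
    obtain ⟨h0, h1, h2, h3, h4, h5⟩ := h
    refine ⟨⟨?_, ?_⟩, ?_, ?_⟩ <;> linarith

theorem TB_rg77 : ROK [.q ⟨-11, -469, 480, 0⟩ ⟨-949, 469, 480, 0⟩, .q ⟨1, 479, -480, 0⟩ ⟨-959, 479, 480, 0⟩, .q ⟨949, -469, -480, 0⟩ ⟨6911, -4941, 30, -2000⟩, .q ⟨959, -479, -480, 0⟩ ⟨6911, -4941, 30, -2000⟩, .q ⟨949, -469, -480, 0⟩ ⟨-3677, 295, -576, 3958⟩, .q ⟨959, -479, -480, 0⟩ ⟨-3677, 295, -576, 3958⟩, .q ⟨949, -469, -480, 0⟩ ⟨3194, 2433, -2523, -3104⟩, .q ⟨959, -479, -480, 0⟩ ⟨3194, 2433, -2523, -3104⟩] := by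
  refine rok_bs (s := -1) (nlo := 469) (nhi := 479) (q := 480) (by decide) (by decide) (by decide) (by decide) (k := 1) (by decide) (Q := [(30, 2000, 4941), (-576, -3958, -295), (-2523, 3104, -2433)])
    (P := [⟨-14407680, -480, 0⟩, ⟨14714880, 480, 0⟩, ⟨151787520, 30, 2000⟩, ⟨-9062400, -576, -3958⟩, ⟨-74741760, -2523, 3104⟩]) rfl rfl
    (List.mem_of_getElem? (i := 77) rfl) TB_fr TB_cov ?_
  · intro X Y h
    simp only [List.forall_mem_cons, List.not_mem_nil, false_imp_iff, implies_true, and_true] at h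
    push_cast at h ⊢
    obtain ⟨h0, h1, h2, h3, h4⟩ := h
    refine ⟨⟨?_, ?_⟩, ?_, ?_⟩ <;> linarith

theorem TB_rg78 : ROK [.q ⟨-21, -19, 40, 0⟩ ⟨-59, 19, 40, 0⟩, .q ⟨18, 22, -40, 0⟩ ⟨-62, 22, 40, 0⟩, .q ⟨59, -19, -40, 0⟩ ⟨13224, -11175, 1612, -3661⟩, .q ⟨62, -22, -40, 0⟩ ⟨13224, -11175, 1612, -3661⟩, .q ⟨59, -19, -40, 0⟩ ⟨-1209, -840, -1612, 3661⟩, .q ⟨62, -22, -40, 0⟩ ⟨-1209, -840, -1612, 3661⟩, .q ⟨59, -19, -40, 0⟩ ⟨2837, 2492, -3613, -1716⟩, .q ⟨62, -22, -40, 0⟩ ⟨2837, 2492, -3613, -1716⟩] := by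
  refine rok_bs (s := -1) (nlo := 19) (nhi := 22) (q := 40) (by decide) (by decide) (by decide) (by decide) (k := 1) (by decide) (Q := [(1612, 3661, 11175), (-1612, -3661, 840), (-3613, 1716, -2492)])
    (P := [⟨-583680, -40, 0⟩, ⟨675840, 40, 0⟩, ⟨343296000, 1612, 3661⟩, ⟨25804800, -1612, -3661⟩, ⟨-76554240, -3613, 1716⟩]) rfl rfl
    (List.mem_of_getElem? (i := 78) rfl) TB_fr TB_cov ?_
  · intro X Y h
    simp only [List.forall_mem_cons, List.not_mem_nil, false_imp_iff, implies_true, and_true] at h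
    push_cast at h ⊢
    obtain ⟨h0, h1, h2, h3, h4⟩ := h
    refine ⟨⟨?_, ?_⟩, ?_, ?_⟩ <;> linarith

theorem TB_rg79 : ROK [.q ⟨-43, -37, 80, 0⟩ ⟨-117, 37, 80, 0⟩, .q ⟨39, 41, -80, 0⟩ ⟨-121, 41, 80, 0⟩, .q ⟨117, -37, -80, 0⟩ ⟨403, 397, 0, -800⟩, .q ⟨121, -41, -80, 0⟩ ⟨403, 397, 0, -800⟩, .q ⟨117, -37, -80, 0⟩ ⟨10622, -13494, -1001, 3873⟩, .q ⟨121, -41, -80, 0⟩ ⟨10622, -13494, -1001, 3873⟩, .q ⟨117, -37, -80, 0⟩ ⟨2660, 2645, -3634, -1671⟩, .q ⟨121, -41, -80, 0⟩ ⟨2660, 2645, -3634, -1671⟩, .q ⟨117, -37, -80, 0⟩ ⟨193, 81, -2962, 2688⟩, .q ⟨121, -41, -80, 0⟩ ⟨193, 81, -2962, 2688⟩] := by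
  refine rok_bs (s := -1) (nlo := 37) (nhi := 41) (q := 80) (by decide) (by decide) (by decide) (by decide) (k := 1) (by decide) (Q := [(0, 800, -397), (-1001, -3873, 13494), (-3634, 1671, -2645), (-2962, -2688, -81)])
    (P := [⟨-1136640, -80, 0⟩, ⟨1259520, 80, 0⟩, ⟨-12195840, 0, 800⟩, ⟨414535680, -1001, -3873⟩, ⟨-81254400, -3634, 1671⟩, ⟨-2488320, -2962, -2688⟩]) rfl rfl
    (List.mem_of_getElem? (i := 79) rfl) TB_fr TB_cov ?_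
  · intro X Y h
    simp only [List.forall_mem_cons, List.not_mem_nil, false_imp_iff, implies_true, and_true] at h
    push_cast at h ⊢
    obtain ⟨h0, h1, h2, h3, h4, h5⟩ := h
    refine ⟨⟨?_, ?_⟩, ?_, ?_⟩ <;> linarith

theorem TB_rg80 : ROK [.q ⟨-11, -9, 20, 0⟩ ⟨-29, 9, 20, 0⟩, .q ⟨9, 11, -20, 0⟩ ⟨-31, 11, 20, 0⟩, .q ⟨29, -9, -20, 0⟩ ⟨229, 199, 2606, -3034⟩, .q ⟨31, -11, -20, 0⟩ ⟨229, 199, 2606, -3034⟩, .q ⟨29, -9, -20, 0⟩ ⟨-6, -208, -1303, 1517⟩, .q ⟨31, -11, -20, 0⟩ ⟨-6, -208, -1303, 1517⟩, .q ⟨29, -9, -20, 0⟩ ⟨2591, 2595, -3723, -1463⟩, .q ⟨31, -11, -20, 0⟩ ⟨2591, 2595, -3723, -1463⟩] := by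
  refine rok_bs (s := -1) (nlo := 9) (nhi := 11) (q := 20) (by decide) (by decide) (by decide) (by decide) (k := 1) (by decide) (Q := [(2606, 3034, -199), (-1303, -1517, 208), (-3723, 1463, -2595)])
    (P := [⟨-276480, -20, 0⟩, ⟨337920, 20, 0⟩, ⟨-6113280, 2606, 3034⟩, ⟨6389760, -1303, -1517⟩, ⟨-79718400, -3723, 1463⟩]) rfl rfl
    (List.mem_of_getElem? (i := 80) rfl) TB_fr TB_cov ?_
  · intro X Y h
    simp only [List.forall_mem_cons, List.not_mem_nil, false_imp_iff, implies_true, and_true] at h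
    push_cast at h ⊢
    obtain ⟨h0, h1, h2, h3, h4⟩ := h
    refine ⟨⟨?_, ?_⟩, ?_, ?_⟩ <;> linarith

theorem TB_rg81 : ROK [.q ⟨-244, -236, 480, 0⟩ ⟨-716, 236, 480, 0⟩, .q ⟨235, 245, -480, 0⟩ ⟨-725, 245, 480, 0⟩, .q ⟨716, -236, -480, 0⟩ ⟨1037, 1011, 1613, -3661⟩, .q ⟨725, -245, -480, 0⟩ ⟨1037, 1011, 1613, -3661⟩, .q ⟨716, -236, -480, 0⟩ ⟨-2567, -3076, 2623, 3020⟩, .q ⟨725, -245, -480, 0⟩ ⟨-2567, -3076, 2623, 3020⟩, .q ⟨716, -236, -480, 0⟩ ⟨656, 653, -922, -387⟩, .q ⟨725, -245, -480, 0⟩ ⟨656, 653, -922, -387⟩] := by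
  refine rok_bs (s := -1) (nlo := 236) (nhi := 245) (q := 480) (by decide) (by decide) (by decide) (by decide) (k := 1) (by decide) (Q := [(1613, 3661, -1011), (2623, -3020, 3076), (-922, 387, -653)])
    (P := [⟨-7249920, -480, 0⟩, ⟨7526400, 480, 0⟩, ⟨-31057920, 1613, 3661⟩, ⟨94494720, 2623, -3020⟩, ⟨-20060160, -922, 387⟩]) rfl rfl
    (List.mem_of_getElem? (i := 81) rfl) TB_fr TB_cov ?_
  · intro X Y h
    simp only [List.forall_mem_cons, List.not_mem_nil, false_imp_iff, implies_true, and_true] at h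
    push_cast at h ⊢
    obtain ⟨h0, h1, h2, h3, h4⟩ := h
    refine ⟨⟨?_, ?_⟩, ?_, ?_⟩ <;> linarith

theorem TB_rg82 : ROK [.q ⟨-20, -20, 40, 0⟩ ⟨-60, 20, 40, 0⟩, .q ⟨17, 23, -40, 0⟩ ⟨-63, 23, 40, 0⟩, .q ⟨60, -20, -40, 0⟩ ⟨2066, 111, 1522, -3699⟩, .q ⟨63, -23, -40, 0⟩ ⟨2066, 111, 1522, -3699⟩, .q ⟨60, -20, -40, 0⟩ ⟨-1269, -908, -1522, 3699⟩, .q ⟨63, -23, -40, 0⟩ ⟨-1269, -908, -1522, 3699⟩, .q ⟨60, -20, -40, 0⟩ ⟨-1072, -703, -1798, 3573⟩, .q ⟨63, -23, -40, 0⟩ ⟨-1072, -703, -1798, 3573⟩] := by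
  refine rok_bs (s := -1) (nlo := 20) (nhi := 23) (q := 40) (by decide) (by decide) (by decide) (by decide) (k := 1) (by decide) (Q := [(1522, 3699, -111), (-1522, -3699, 908), (-1798, -3573, 703)])
    (P := [⟨-614400, -40, 0⟩, ⟨706560, 40, 0⟩, ⟨-3409920, 1522, 3699⟩, ⟨27893760, -1522, -3699⟩, ⟨21596160, -1798, -3573⟩]) rfl rfl
    (List.mem_of_getElem? (i := 82) rfl) TB_fr TB_cov ?_
  · intro X Y h
    simp only [List.forall_mem_cons, List.not_mem_nil, false_imp_iff, implies_true, and_true] at h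
    push_cast at h ⊢
    obtain ⟨h0, h1, h2, h3, h4⟩ := h
    refine ⟨⟨?_, ?_⟩, ?_, ?_⟩ <;> linarith

theorem TB_rg83 : ROK [.q ⟨-5, -5, 10, 0⟩ ⟨-15, 5, 10, 0⟩, .q ⟨3, 7, -10, 0⟩ ⟨-17, 7, 10, 0⟩, .q ⟨15, -5, -10, 0⟩ ⟨763, -297, 1162, -1628⟩, .q ⟨17, -7, -10, 0⟩ ⟨763, -297, 1162, -1628⟩, .q ⟨15, -5, -10, 0⟩ ⟨-2217, -3382, 2394, 3205⟩, .q ⟨17, -7, -10, 0⟩ ⟨-2217, -3382, 2394, 3205⟩, .q ⟨15, -5, -10, 0⟩ ⟨2430, 2793, -3698, -1525⟩, .q ⟨17, -7, -10, 0⟩ ⟨2430, 2793, -3698, -1525⟩] := by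
  refine rok_bs (s := -1) (nlo := 5) (nhi := 7) (q := 10) (by decide) (by decide) (by decide) (by decide) (k := 1) (by decide) (Q := [(1162, 1628, 297), (2394, -3205, 3382), (-3698, 1525, -2793)])
    (P := [⟨-153600, -10, 0⟩, ⟨215040, 10, 0⟩, ⟨9123840, 1162, 1628⟩, ⟨103895040, 2394, -3205⟩, ⟨-85800960, -3698, 1525⟩]) rfl rfl
    (List.mem_of_getElem? (i := 83) rfl) TB_fr TB_cov ?_
  · intro X Y h
    simp only [List.forall_mem_cons, List.not_mem_nil, false_imp_iff, implies_true, and_true] at h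
    push_cast at h ⊢
    obtain ⟨h0, h1, h2, h3, h4⟩ := h
    refine ⟨⟨?_, ?_⟩, ?_, ?_⟩ <;> linarith

theorem TB_rg84 : ROK [.q ⟨-40, -40, 80, 0⟩ ⟨-120, 40, 80, 0⟩, .q ⟨37, 43, -80, 0⟩ ⟨-123, 43, 80, 0⟩, .q ⟨120, -40, -80, 0⟩ ⟨2757, 2740, -2079, -3418⟩, .q ⟨123, -43, -80, 0⟩ ⟨2757, 2740, -2079, -3418⟩, .q ⟨120, -40, -80, 0⟩ ⟨-2126, -3371, 2079, 3418⟩, .q ⟨123, -43, -80, 0⟩ ⟨-2126, -3371, 2079, 3418⟩, .q ⟨120, -40, -80, 0⟩ ⟨2061, 1995, -56, -4000⟩, .q ⟨123, -43, -80, 0⟩ ⟨2061, 1995, -56, -4000⟩] := by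
  refine rok_bs (s := -1) (nlo := 40) (nhi := 43) (q := 80) (by decide) (by decide) (by decide) (by decide) (k := 1) (by decide) (Q := [(-2079, 3418, -2740), (2079, -3418, 3371), (-56, 4000, -1995)])
    (P := [⟨-1228800, -80, 0⟩, ⟨1320960, 80, 0⟩, ⟨-84172800, -2079, 3418⟩, ⟨103557120, 2079, -3418⟩, ⟨-61286400, -56, 4000⟩]) rfl rfl
    (List.mem_of_getElem? (i := 84) rfl) TB_fr TB_cov ?_
  · intro X Y h
    simp only [List.forall_mem_cons, List.not_mem_nil, false_imp_iff, implies_true, and_true] at h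
    push_cast at h ⊢
    obtain ⟨h0, h1, h2, h3, h4⟩ := h
    refine ⟨⟨?_, ?_⟩, ?_, ?_⟩ <;> linarith

theorem TB_rg85 : ROK [.q ⟨-440, -520, 960, 0⟩ ⟨-1480, 520, 960, 0⟩, .q ⟨431, 529, -960, 0⟩ ⟨-1489, 529, 960, 0⟩, .q ⟨1480, -520, -960, 0⟩ ⟨7010, -5105, 93, -1998⟩, .q ⟨1489, -529, -960, 0⟩ ⟨7010, -5105, 93, -1998⟩, .q ⟨1480, -520, -960, 0⟩ ⟨-332, -303, -31, 666⟩, .q ⟨1489, -529, -960, 0⟩ ⟨-332, -303, -31, 666⟩, .q ⟨1480, -520, -960, 0⟩ ⟨1049, 400, -121, -1328⟩, .q ⟨1489, -529, -960, 0⟩ ⟨1049, 400, -121, -1328⟩, .q ⟨1480, -520, -960, 0⟩ ⟨-213, 168, -2806, 2851⟩, .q ⟨1489, -529, -960, 0⟩ ⟨-213, 168, -2806, 2851⟩] := by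
  refine rok_bs (s := -1) (nlo := 520) (nhi := 529) (q := 960) (by decide) (by decide) (by decide) (by decide) (k := 1) (by decide) (Q := [(93, 1998, 5105), (-31, -666, 303), (-121, 1328, -400), (-2806, -2851, -168)])
    (P := [⟨-15974400, -960, 0⟩, ⟨16250880, 960, 0⟩, ⟨156825600, 93, 1998⟩, ⟨9308160, -31, -666⟩, ⟨-12288000, -121, 1328⟩, ⟨-5160960, -2806, -2851⟩]) rfl rfl
    (List.mem_of_getElem? (i := 85) rfl) TB_fr TB_cov ?_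
  · intro X Y h
    simp only [List.forall_mem_cons, List.not_mem_nil, false_imp_iff, implies_true, and_true] at h
    push_cast at h ⊢
    obtain ⟨h0, h1, h2, h3, h4, h5⟩ := h
    refine ⟨⟨?_, ?_⟩, ?_, ?_⟩ <;> linarith

theorem TB_rg86 : ROK [.q ⟨-42, -38, 80, 0⟩ ⟨-118, 38, 80, 0⟩, .q ⟨39, 41, -80, 0⟩ ⟨-121, 41, 80, 0⟩, .q ⟨118, -38, -80, 0⟩ ⟨403, 397, 0, -800⟩, .q ⟨121, -41, -80, 0⟩ ⟨403, 397, 0, -800⟩, .q ⟨118, -38, -80, 0⟩ ⟨1003, -1403, 0, 400⟩, .q ⟨121, -41, -80, 0⟩ ⟨1003, -1403, 0, 400⟩, .q ⟨118, -38, -80, 0⟩ ⟨1335, 1328, -1808, -855⟩, .q ⟨121, -41, -80, 0⟩ ⟨1335, 1328, -1808, -855⟩, .q ⟨118, -38, -80, 0⟩ ⟨936, 841, -3574, 1797⟩, .q ⟨121, -41, -80, 0⟩ ⟨936, 841, -3574, 1797⟩] := by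
  refine rok_bs (s := -1) (nlo := 38) (nhi := 41) (q := 80) (by decide) (by decide) (by decide) (by decide) (k := 1) (by decide) (Q := [(0, 800, -397), (0, -400, 1403), (-1808, 855, -1328), (-3574, -1797, -841)])
    (P := [⟨-1167360, -80, 0⟩, ⟨1259520, 80, 0⟩, ⟨-12195840, 0, 800⟩, ⟨43100160, 0, -400⟩, ⟨-40796160, -1808, 855⟩, ⟨-25835520, -3574, -1797⟩]) rfl rfl
    (List.mem_of_getElem? (i := 86) rfl) TB_fr TB_cov ?_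
  · intro X Y h
    simp only [List.forall_mem_cons, List.not_mem_nil, false_imp_iff, implies_true, and_true] at h
    push_cast at h ⊢
    obtain ⟨h0, h1, h2, h3, h4, h5⟩ := h
    refine ⟨⟨?_, ?_⟩, ?_, ?_⟩ <;> linarith

theorem TB_rg87 : ROK [.q ⟨-21, -19, 40, 0⟩ ⟨-59, 19, 40, 0⟩, .q ⟨18, 22, -40, 0⟩ ⟨-62, 22, 40, 0⟩, .q ⟨59, -19, -40, 0⟩ ⟨849, 3755, -658, -3946⟩, .q ⟨62, -22, -40, 0⟩ ⟨849, 3755, -658, -3946⟩, .q ⟨59, -19, -40, 0⟩ ⟨772, -3075, -1432, 3735⟩, .q ⟨62, -22, -40, 0⟩ ⟨772, -3075, -1432, 3735⟩] := by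
  refine rok_bs (s := -1) (nlo := 19) (nhi := 22) (q := 40) (by decide) (by decide) (by decide) (by decide) (k := 1) (by decide) (Q := [(-658, 3946, -3755), (-1432, -3735, 3075)])
    (P := [⟨-583680, -40, 0⟩, ⟨675840, 40, 0⟩, ⟨-115353600, -658, 3946⟩, ⟨94464000, -1432, -3735⟩]) rfl rfl
    (List.mem_of_getElem? (i := 87) rfl) TB_fr TB_cov ?_
  · intro X Y h
    simp only [List.forall_mem_cons, List.not_mem_nil, false_imp_iff, implies_true, and_true] at h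
    push_cast at h ⊢
    obtain ⟨h0, h1, h2, h3⟩ := h
    refine ⟨⟨?_, ?_⟩, ?_, ?_⟩ <;> linarith

theorem TB_rg88 : ROK [.q ⟨-5, -5, 10, 0⟩ ⟨-15, 5, 10, 0⟩, .q ⟨3, 7, -10, 0⟩ ⟨-17, 7, 10, 0⟩, .q ⟨15, -5, -10, 0⟩ ⟨14357, -10027, -345, -3985⟩, .q ⟨17, -7, -10, 0⟩ ⟨14357, -10027, -345, -3985⟩, .q ⟨15, -5, -10, 0⟩ ⟨1279, -2145, 69, 797⟩, .q ⟨17, -7, -10, 0⟩ ⟨1279, -2145, 69, 797⟩, .q ⟨15, -5, -10, 0⟩ ⟨2957, 1550, -544, -3963⟩, .q ⟨17, -7, -10, 0⟩ ⟨2957, 1550, -544, -3963⟩, .q ⟨15, -5, -10, 0⟩ ⟨266, 691, -3266, 2309⟩, .q ⟨17, -7, -10, 0⟩ ⟨266, 691, -3266, 2309⟩] := by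
  refine rok_bs (s := -1) (nlo := 5) (nhi := 7) (q := 10) (by decide) (by decide) (by decide) (by decide) (k := 1) (by decide) (Q := [(-345, 3985, 10027), (69, -797, 2145), (-544, 3963, -1550), (-3266, -2309, -691)])
    (P := [⟨-153600, -10, 0⟩, ⟨215040, 10, 0⟩, ⟨308029440, -345, 3985⟩, ⟨65894400, 69, -797⟩, ⟨-47616000, -544, 3963⟩, ⟨-21227520, -3266, -2309⟩]) rfl rfl
    (List.mem_of_getElem? (i := 88) rfl) TB_fr TB_cov ?_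
  · intro X Y h
    simp only [List.forall_mem_cons, List.not_mem_nil, false_imp_iff, implies_true, and_true] at h
    push_cast at h ⊢
    obtain ⟨h0, h1, h2, h3, h4, h5⟩ := h
    refine ⟨⟨?_, ?_⟩, ?_, ?_⟩ <;> linarith

theorem TB_rg89 : ROK [.q ⟨-11, -9, 20, 0⟩ ⟨-29, 9, 20, 0⟩, .q ⟨8, 12, -20, 0⟩ ⟨-32, 12, 20, 0⟩, .q ⟨29, -9, -20, 0⟩ ⟨246, 121, 2639, -3006⟩, .q ⟨32, -12, -20, 0⟩ ⟨246, 121, 2639, -3006⟩, .q ⟨29, -9, -20, 0⟩ ⟨67, -434, -2639, 3006⟩, .q ⟨32, -12, -20, 0⟩ ⟨67, -434, -2639, 3006⟩, .q ⟨29, -9, -20, 0⟩ ⟨2582, 2650, -3691, -1541⟩, .q ⟨32, -12, -20, 0⟩ ⟨2582, 2650, -3691, -1541⟩] := by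
  refine rok_bs (s := -1) (nlo := 9) (nhi := 12) (q := 20) (by decide) (by decide) (by decide) (by decide) (k := 1) (by decide) (Q := [(2639, 3006, -121), (-2639, -3006, 434), (-3691, 1541, -2650)])
    (P := [⟨-276480, -20, 0⟩, ⟨368640, 20, 0⟩, ⟨-3717120, 2639, 3006⟩, ⟨13332480, -2639, -3006⟩, ⟨-81408000, -3691, 1541⟩]) rfl rfl
    (List.mem_of_getElem? (i := 89) rfl) TB_fr TB_cov ?_
  · intro X Y h
    simp only [List.forall_mem_cons, List.not_mem_nil, false_imp_iff, implies_true, and_true] at h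
    push_cast at h ⊢
    obtain ⟨h0, h1, h2, h3, h4⟩ := h
    refine ⟨⟨?_, ?_⟩, ?_, ?_⟩ <;> linarith

theorem TB_rg90 : ROK [.q ⟨-249, -231, 480, 0⟩ ⟨-711, 231, 480, 0⟩, .q ⟨241, 239, -480, 0⟩ ⟨-719, 239, 480, 0⟩, .q ⟨711, -231, -480, 0⟩ ⟨2723, -1723, 0, -1000⟩, .q ⟨719, -239, -480, 0⟩ ⟨2723, -1723, 0, -1000⟩, .q ⟨711, -231, -480, 0⟩ ⟨-9, -11, 0, 20⟩, .q ⟨719, -239, -480, 0⟩ ⟨-9, -11, 0, 20⟩, .q ⟨711, -231, -480, 0⟩ ⟨2603, 2591, -3718, -1476⟩, .q ⟨719, -239, -480, 0⟩ ⟨2603, 2591, -3718, -1476⟩] := by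
  refine rok_bs (s := -1) (nlo := 231) (nhi := 239) (q := 480) (by decide) (by decide) (by decide) (by decide) (k := 1) (by decide) (Q := [(0, 1000, 1723), (0, -20, 11), (-3718, 1476, -2591)])
    (P := [⟨-7096320, -480, 0⟩, ⟨7342080, 480, 0⟩, ⟨52930560, 0, 1000⟩, ⟨337920, 0, -20⟩, ⟨-79595520, -3718, 1476⟩]) rfl rfl
    (List.mem_of_getElem? (i := 90) rfl) TB_fr TB_cov ?_
  · intro X Y h
    simp only [List.forall_mem_cons, List.not_mem_nil, false_imp_iff, implies_true, and_true] at h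
    push_cast at h ⊢
    obtain ⟨h0, h1, h2, h3, h4⟩ := h
    refine ⟨⟨?_, ?_⟩, ?_, ?_⟩ <;> linarith

theorem TB_rg91 : ROK [.q ⟨-42, -38, 80, 0⟩ ⟨-118, 38, 80, 0⟩, .q ⟨39, 41, -80, 0⟩ ⟨-121, 41, 80, 0⟩, .q ⟨118, -38, -80, 0⟩ ⟨245, 215, 2589, -3049⟩, .q ⟨121, -41, -80, 0⟩ ⟨245, 215, 2589, -3049⟩, .q ⟨118, -38, -80, 0⟩ ⟨3084, -5109, 25, 2000⟩, .q ⟨121, -41, -80, 0⟩ ⟨3084, -5109, 25, 2000⟩, .q ⟨118, -38, -80, 0⟩ ⟨670, 669, -897, -442⟩, .q ⟨121, -41, -80, 0⟩ ⟨670, 669, -897, -442⟩, .q ⟨118, -38, -80, 0⟩ ⟨834, 693, -3487, 1960⟩, .q ⟨121, -41, -80, 0⟩ ⟨834, 693, -3487, 1960⟩] := by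
  refine rok_bs (s := -1) (nlo := 38) (nhi := 41) (q := 80) (by decide) (by decide) (by decide) (by decide) (k := 1) (by decide) (Q := [(2589, 3049, -215), (25, -2000, 5109), (-897, 442, -669), (-3487, -1960, -693)])
    (P := [⟨-1167360, -80, 0⟩, ⟨1259520, 80, 0⟩, ⟨-6604800, 2589, 3049⟩, ⟨156948480, 25, -2000⟩, ⟨-20551680, -897, 442⟩, ⟨-21288960, -3487, -1960⟩]) rfl rfl
    (List.mem_of_getElem? (i := 91) rfl) TB_fr TB_cov ?_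
  · intro X Y h
    simp only [List.forall_mem_cons, List.not_mem_nil, false_imp_iff, implies_true, and_true] at h
    push_cast at h ⊢
    obtain ⟨h0, h1, h2, h3, h4, h5⟩ := h
    refine ⟨⟨?_, ?_⟩, ?_, ?_⟩ <;> linarith

theorem TB_rg92 : ROK [.q ⟨-21, -19, 40, 0⟩ ⟨-59, 19, 40, 0⟩, .q ⟨19, 21, -40, 0⟩ ⟨-61, 21, 40, 0⟩, .q ⟨59, -19, -40, 0⟩ ⟨403, 397, 0, -800⟩, .q ⟨61, -21, -40, 0⟩ ⟨403, 397, 0, -800⟩, .q ⟨59, -19, -40, 0⟩ ⟨-1046, -1297, -1403, 3746⟩, .q ⟨61, -21, -40, 0⟩ ⟨-1046, -1297, -1403, 3746⟩, .q ⟨59, -19, -40, 0⟩ ⟨2601, 2587, -3721, -1467⟩, .q ⟨61, -21, -40, 0⟩ ⟨2601, 2587, -3721, -1467⟩] := by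
  refine rok_bs (s := -1) (nlo := 19) (nhi := 21) (q := 40) (by decide) (by decide) (by decide) (by decide) (k := 1) (by decide) (Q := [(0, 800, -397), (-1403, -3746, 1297), (-3721, 1467, -2587)])
    (P := [⟨-583680, -40, 0⟩, ⟨645120, 40, 0⟩, ⟨-12195840, 0, 800⟩, ⟨39843840, -1403, -3746⟩, ⟨-79472640, -3721, 1467⟩]) rfl rfl
    (List.mem_of_getElem? (i := 92) rfl) TB_fr TB_cov ?_
  · intro X Y h
    simp only [List.forall_mem_cons, List.not_mem_nil, false_imp_iff, implies_true, and_true] at h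
    push_cast at h ⊢
    obtain ⟨h0, h1, h2, h3, h4⟩ := h
    refine ⟨⟨?_, ?_⟩, ?_, ?_⟩ <;> linarith

theorem TB_rg93 : ROK [.q ⟨-461, -499, 960, 0⟩ ⟨-1459, 499, 960, 0⟩, .q ⟨450, 510, -960, 0⟩ ⟨-1470, 510, 960, 0⟩, .q ⟨1459, -499, -960, 0⟩ ⟨14161, -10161, 0, -4000⟩, .q ⟨1470, -510, -960, 0⟩ ⟨14161, -10161, 0, -4000⟩, .q ⟨1459, -499, -960, 0⟩ ⟨-1077, -923, 0, 2000⟩, .q ⟨1470, -510, -960, 0⟩ ⟨-1077, -923, 0, 2000⟩, .q ⟨1459, -499, -960, 0⟩ ⟨3285, 2288, -3271, -2302⟩, .q ⟨1470, -510, -960, 0⟩ ⟨3285, 2288, -3271, -2302⟩, .q ⟨1459, -499, -960, 0⟩ ⟨-1030, -662, -1853, 3545⟩, .q ⟨1470, -510, -960, 0⟩ ⟨-1030, -662, -1853, 3545⟩] := by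
  refine rok_bs (s := -1) (nlo := 499) (nhi := 510) (q := 960) (by decide) (by decide) (by decide) (by decide) (k := 1) (by decide) (Q := [(0, 4000, 10161), (0, -2000, 923), (-3271, 2302, -2288), (-1853, -3545, 662)])
    (P := [⟨-15329280, -960, 0⟩, ⟨15667200, 960, 0⟩, ⟨312145920, 0, 4000⟩, ⟨28354560, 0, -2000⟩, ⟨-70287360, -3271, 2302⟩, ⟨20336640, -1853, -3545⟩]) rfl rfl
    (List.mem_of_getElem? (i := 93) rfl) TB_fr TB_cov ?_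
  · intro X Y h
    simp only [List.forall_mem_cons, List.not_mem_nil, false_imp_iff, implies_true, and_true] at h
    push_cast at h ⊢
    obtain ⟨h0, h1, h2, h3, h4, h5⟩ := h
    refine ⟨⟨?_, ?_⟩, ?_, ?_⟩ <;> linarith

theorem TB_rg94 : ROK [.q ⟨-20, -20, 40, 0⟩ ⟨-60, 20, 40, 0⟩, .q ⟨17, 23, -40, 0⟩ ⟨-63, 23, 40, 0⟩, .q ⟨60, -20, -40, 0⟩ ⟨51, 49, 0, -100⟩, .q ⟨63, -23, -40, 0⟩ ⟨51, 49, 0, -100⟩, .q ⟨60, -20, -40, 0⟩ ⟨-127, -273, 0, 400⟩, .q ⟨63, -23, -40, 0⟩ ⟨-127, -273, 0, 400⟩, .q ⟨60, -20, -40, 0⟩ ⟨2583, 2564, -1401, -3746⟩, .q ⟨63, -23, -40, 0⟩ ⟨2583, 2564, -1401, -3746⟩] := by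
  refine rok_bs (s := -1) (nlo := 20) (nhi := 23) (q := 40) (by decide) (by decide) (by decide) (by decide) (k := 1) (by decide) (Q := [(0, 100, -49), (0, -400, 273), (-1401, 3746, -2564)])
    (P := [⟨-614400, -40, 0⟩, ⟨706560, 40, 0⟩, ⟨-1505280, 0, 100⟩, ⟨8386560, 0, -400⟩, ⟨-78766080, -1401, 3746⟩]) rfl rfl
    (List.mem_of_getElem? (i := 94) rfl) TB_fr TB_cov ?_
  · intro X Y h
    simp only [List.forall_mem_cons, List.not_mem_nil, false_imp_iff, implies_true, and_true] at h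
    push_cast at h ⊢
    obtain ⟨h0, h1, h2, h3, h4⟩ := h
    refine ⟨⟨?_, ?_⟩, ?_, ?_⟩ <;> linarith

theorem TB_rg95 : ROK [.q ⟨-22, -18, 40, 0⟩ ⟨-58, 18, 40, 0⟩, .q ⟨19, 21, -40, 0⟩ ⟨-61, 21, 40, 0⟩, .q ⟨58, -18, -40, 0⟩ ⟨153, 109, 1277, -1539⟩, .q ⟨61, -21, -40, 0⟩ ⟨153, 109, 1277, -1539⟩, .q ⟨58, -18, -40, 0⟩ ⟨9034, -13705, 740, 3931⟩, .q ⟨61, -21, -40, 0⟩ ⟨9034, -13705, 740, 3931⟩, .q ⟨58, -18, -40, 0⟩ ⟨1335, 1350, -1787, -898⟩, .q ⟨61, -21, -40, 0⟩ ⟨1335, 1350, -1787, -898⟩, .q ⟨58, -18, -40, 0⟩ ⟨171, -212, -2808, 2849⟩, .q ⟨61, -21, -40, 0⟩ ⟨171, -212, -2808, 2849⟩] := by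
  refine rok_bs (s := -1) (nlo := 18) (nhi := 21) (q := 40) (by decide) (by decide) (by decide) (by decide) (k := 1) (by decide) (Q := [(1277, 1539, -109), (740, -3931, 13705), (-1787, 898, -1350), (-2808, -2849, 212)])
    (P := [⟨-552960, -40, 0⟩, ⟨645120, 40, 0⟩, ⟨-3348480, 1277, 1539⟩, ⟨421017600, 740, -3931⟩, ⟨-41472000, -1787, 898⟩, ⟨6512640, -2808, -2849⟩]) rfl rfl
    (List.mem_of_getElem? (i := 95) rfl) TB_fr TB_cov ?_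
  · intro X Y h
    simp only [List.forall_mem_cons, List.not_mem_nil, false_imp_iff, implies_true, and_true] at h
    push_cast at h ⊢
    obtain ⟨h0, h1, h2, h3, h4, h5⟩ := h
    refine ⟨⟨?_, ?_⟩, ?_, ?_⟩ <;> linarith

end Pool.Agent.TET
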