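import Pool.Agent.Helper38_TET.TB_C

/-!
# MP_c7c9bf_co: certificates, family TB
-/

set_option autoImplicit false
set_option maxRecDepth 100000

namespace Pool.Agent.TET

theorem TB_rg96 : ROK [.q ⟨-227, -253, 480, 0⟩ ⟨-733, 253, 480, 0⟩, .q ⟨223, 257, -480, 0⟩ ⟨-737, 257, 480, 0⟩, .q ⟨733, -253, -480, 0⟩ ⟨11693, -10336, 2067, -3424⟩, .q ⟨737, -257, -480, 0⟩ ⟨11693, -10336, 2067, -3424⟩, .q ⟨733, -253, -480, 0⟩ ⟨-866, -491, -2067, 3424⟩, .q ⟨737, -257, -480, 0⟩ ⟨-866, -491, -2067, 3424⟩, .q ⟨733, -253, -480, 0⟩ ⟨1181, 598, -577, -1202⟩, .q ⟨737, -257, -480, 0⟩ ⟨1181, 598, -577, -1202⟩, .q ⟨733, -253, -480, 0⟩ ⟨-2291, -2027, 332, 3986⟩, .q ⟨737, -257, -480, 0⟩ ⟨-2291, -2027, 332, 3986⟩] := by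
  refine rok_bs (s := -1) (nlo := 253) (nhi := 257) (q := 480) (by decide) (by decide) (by decide) (by decide) (k := 1) (by decide) (Q := [(2067, 3424, 10336), (-2067, -3424, 491), (-577, 1202, -598), (332, -3986, 2027)])
    (P := [⟨-7772160, -480, 0⟩, ⟨7895040, 480, 0⟩, ⟨317521920, 2067, 3424⟩, ⟨15083520, -2067, -3424⟩, ⟨-18370560, -577, 1202⟩, ⟨62269440, 332, -3986⟩]) rfl rfl
    (List.mem_of_getElem? (i := 96) rfl) TB_fr TB_cov ?_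
  · intro X Y h
    simp only [List.forall_mem_cons, List.not_mem_nil, false_imp_iff, implies_true, and_true] at h
    push_cast at h ⊢
    obtain ⟨h0, h1, h2, h3, h4, h5⟩ := h
    refine ⟨⟨?_, ?_⟩, ?_, ?_⟩ <;> linarith

theorem TB_rg97 : ROK [.q ⟨-39, -41, 80, 0⟩ ⟨-121, 41, 80, 0⟩, .q ⟨36, 44, -80, 0⟩ ⟨-124, 44, 80, 0⟩, .q ⟨121, -41, -80, 0⟩ ⟨12510, -9393, 802, -3919⟩, .q ⟨124, -44, -80, 0⟩ ⟨12510, -9393, 802, -3919⟩, .q ⟨121, -41, -80, 0⟩ ⟨-1739, -1378, -802, 3919⟩, .q ⟨124, -44, -80, 0⟩ ⟨-1739, -1378, -802, 3919⟩, .q ⟨121, -41, -80, 0⟩ ⟨678, -889, 2932, -2721⟩, .q ⟨124, -44, -80, 0⟩ ⟨678, -889, 2932, -2721⟩, .q ⟨121, -41, -80, 0⟩ ⟨-618, -264, -2353, 3235⟩, .q ⟨124, -44, -80, 0⟩ ⟨-618, -264, -2353, 3235⟩] := by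
  refine rok_bs (s := -1) (nlo := 41) (nhi := 44) (q := 80) (by decide) (by decide) (by decide) (by decide) (k := 1) (by decide) (Q := [(802, 3919, 9393), (-802, -3919, 1378), (2932, 2721, 889), (-2353, -3235, 264)])
    (P := [⟨-1259520, -80, 0⟩, ⟨1351680, 80, 0⟩, ⟨288552960, 802, 3919⟩, ⟨42332160, -802, -3919⟩, ⟨27310080, 2932, 2721⟩, ⟨8110080, -2353, -3235⟩]) rfl rfl
    (List.mem_of_getElem? (i := 97) rfl) TB_fr TB_cov ?_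
  · intro X Y h
    simp only [List.forall_mem_cons, List.not_mem_nil, false_imp_iff, implies_true, and_true] at h
    push_cast at h ⊢
    obtain ⟨h0, h1, h2, h3, h4, h5⟩ := h
    refine ⟨⟨?_, ?_⟩, ?_, ?_⟩ <;> linarith

theorem TB_rg98 : ROK [.q ⟨-115, -125, 240, 0⟩ ⟨-365, 125, 240, 0⟩, .q ⟨111, 129, -240, 0⟩ ⟨-369, 129, 240, 0⟩, .q ⟨365, -125, -240, 0⟩ ⟨3321, -2776, 380, -925⟩, .q ⟨369, -129, -240, 0⟩ ⟨3321, -2776, 380, -925⟩, .q ⟨365, -125, -240, 0⟩ ⟨-318, -227, -380, 925⟩, .q ⟨369, -129, -240, 0⟩ ⟨-318, -227, -380, 925⟩, .q ⟨365, -125, -240, 0⟩ ⟨2515, 438, 936, -3889⟩, .q ⟨369, -129, -240, 0⟩ ⟨2515, 438, 936, -3889⟩, .q ⟨365, -125, -240, 0⟩ ⟨-1135, -768, -1712, 3615⟩, .q ⟨369, -129, -240, 0⟩ ⟨-1135, -768, -1712, 3615⟩] := by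
  refine rok_bs (s := -1) (nlo := 125) (nhi := 129) (q := 240) (by decide) (by decide) (by decide) (by decide) (k := 1) (by decide) (Q := [(380, 925, 2776), (-380, -925, 227), (936, 3889, -438), (-1712, -3615, 768)])
    (P := [⟨-3840000, -240, 0⟩, ⟨3962880, 240, 0⟩, ⟨85278720, 380, 925⟩, ⟨6973440, -380, -925⟩, ⟨-13455360, 936, 3889⟩, ⟨23592960, -1712, -3615⟩]) rfl rfl
    (List.mem_of_getElem? (i := 98) rfl) TB_fr TB_cov ?_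
  · intro X Y h
    simp only [List.forall_mem_cons, List.not_mem_nil, false_imp_iff, implies_true, and_true] at h
    push_cast at h ⊢
    obtain ⟨h0, h1, h2, h3, h4, h5⟩ := h
    refine ⟨⟨?_, ?_⟩, ?_, ?_⟩ <;> linarith

theorem TB_rg99 : ROK [.q ⟨-21, -19, 40, 0⟩ ⟨-59, 19, 40, 0⟩, .q ⟨17, 23, -40, 0⟩ ⟨-63, 23, 40, 0⟩, .q ⟨59, -19, -40, 0⟩ ⟨1520, 1452, 921, -3893⟩, .q ⟨63, -23, -40, 0⟩ ⟨1520, 1452, 921, -3893⟩, .q ⟨59, -19, -40, 0⟩ ⟨-18, -442, -2589, 3049⟩, .q ⟨63, -23, -40, 0⟩ ⟨-18, -442, -2589, 3049⟩, .q ⟨59, -19, -40, 0⟩ ⟨2609, 2636, -3682, -1563⟩, .q ⟨63, -23, -40, 0⟩ ⟨2609, 2636, -3682, -1563⟩] := by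
  refine rok_bs (s := -1) (nlo := 19) (nhi := 23) (q := 40) (by decide) (by decide) (by decide) (by decide) (k := 1) (by decide) (Q := [(921, 3893, -1452), (-2589, -3049, 442), (-3682, 1563, -2636)])
    (P := [⟨-583680, -40, 0⟩, ⟨706560, 40, 0⟩, ⟨-44605440, 921, 3893⟩, ⟨13578240, -2589, -3049⟩, ⟨-80977920, -3682, 1563⟩]) rfl rfl
    (List.mem_of_getElem? (i := 99) rfl) TB_fr TB_cov ?_
  · intro X Y h
    simp only [List.forall_mem_cons, List.not_mem_nil, false_imp_iff, implies_true, and_true] at h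
    push_cast at h ⊢
    obtain ⟨h0, h1, h2, h3, h4⟩ := h
    refine ⟨⟨?_, ?_⟩, ?_, ?_⟩ <;> linarith

theorem TB_rg100 : ROK [.q ⟨-2, -38, 40, 0⟩ ⟨-78, 38, 40, 0⟩, .q ⟨-1, 41, -40, 0⟩ ⟨-81, 41, 40, 0⟩, .q ⟨78, -38, -40, 0⟩ ⟨13961, -9884, -78, -3999⟩, .q ⟨81, -41, -40, 0⟩ ⟨13961, -9884, -78, -3999⟩, .q ⟨78, -38, -40, 0⟩ ⟨-3567, -1440, 1187, 3820⟩, .q ⟨81, -41, -40, 0⟩ ⟨-3567, -1440, 1187, 3820⟩, .q ⟨78, -38, -40, 0⟩ ⟨2749, 2907, -2877, -2779⟩, .q ⟨81, -41, -40, 0⟩ ⟨2749, 2907, -2877, -2779⟩, .q ⟨78, -38, -40, 0⟩ ⟨-3270, 1590, -1861, 3541⟩, .q ⟨81, -41, -40, 0⟩ ⟨-3270, 1590, -1861, 3541⟩] := by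
  refine rok_bs (s := -1) (nlo := 38) (nhi := 41) (q := 40) (by decide) (by decide) (by decide) (by decide) (k := 1) (by decide) (Q := [(-78, 3999, 9884), (1187, -3820, 1440), (-2877, 2779, -2907), (-1861, -3541, -1590)])
    (P := [⟨-1167360, -40, 0⟩, ⟨1259520, 40, 0⟩, ⟨303636480, -78, 3999⟩, ⟨44236800, 1187, -3820⟩, ⟨-89303040, -2877, 2779⟩, ⟨-48844800, -1861, -3541⟩]) rfl rfl
    (List.mem_of_getElem? (i := 100) rfl) TB_fr TB_cov ?_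
  · intro X Y h
    simp only [List.forall_mem_cons, List.not_mem_nil, false_imp_iff, implies_true, and_true] at h
    push_cast at h ⊢
    obtain ⟨h0, h1, h2, h3, h4, h5⟩ := h
    refine ⟨⟨?_, ?_⟩, ?_, ?_⟩ <;> linarith

theorem TB_rg101 : ROK [.q ⟨-41, -39, 80, 0⟩ ⟨-119, 39, 80, 0⟩, .q ⟨38, 42, -80, 0⟩ ⟨-122, 42, 80, 0⟩, .q ⟨119, -39, -80, 0⟩ ⟨2996, 2391, -1830, -3557⟩, .q ⟨122, -42, -80, 0⟩ ⟨2996, 2391, -1830, -3557⟩, .q ⟨119, -39, -80, 0⟩ ⟨-1202, -834, -1621, 3657⟩, .q ⟨122, -42, -80, 0⟩ ⟨-1202, -834, -1621, 3657⟩] := by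
  refine rok_bs (s := -1) (nlo := 39) (nhi := 42) (q := 80) (by decide) (by decide) (by decide) (by decide) (k := 1) (by decide) (Q := [(-1830, 3557, -2391), (-1621, -3657, 834)])
    (P := [⟨-1198080, -80, 0⟩, ⟨1290240, 80, 0⟩, ⟨-73451520, -1830, 3557⟩, ⟨25620480, -1621, -3657⟩]) rfl rfl
    (List.mem_of_getElem? (i := 101) rfl) TB_fr TB_cov ?_
  · intro X Y h
    simp only [List.forall_mem_cons, List.not_mem_nil, false_imp_iff, implies_true, and_true] at h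
    push_cast at h ⊢
    obtain ⟨h0, h1, h2, h3⟩ := h
    refine ⟨⟨?_, ?_⟩, ?_, ?_⟩ <;> linarith

theorem TB_rg102 : ROK [.q ⟨-9, -11, 20, 0⟩ ⟨-31, 11, 20, 0⟩, .q ⟨6, 14, -20, 0⟩ ⟨-34, 14, 20, 0⟩, .q ⟨31, -11, -20, 0⟩ ⟨1484, 794, -301, -1977⟩, .q ⟨34, -14, -20, 0⟩ ⟨1484, 794, -301, -1977⟩, .q ⟨31, -11, -20, 0⟩ ⟨-65, -2213, 301, 1977⟩, .q ⟨34, -14, -20, 0⟩ ⟨-65, -2213, 301, 1977⟩, .q ⟨31, -11, -20, 0⟩ ⟨2434, 2796, -3693, -1537⟩, .q ⟨34, -14, -20, 0⟩ ⟨2434, 2796, -3693, -1537⟩] := by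
  refine rok_bs (s := -1) (nlo := 11) (nhi := 14) (q := 20) (by decide) (by decide) (by decide) (by decide) (k := 1) (by decide) (Q := [(-301, 1977, -794), (301, -1977, 2213), (-3693, 1537, -2796)])
    (P := [⟨-337920, -20, 0⟩, ⟨430080, 20, 0⟩, ⟨-24391680, -301, 1977⟩, ⟨67983360, 301, -1977⟩, ⟨-85893120, -3693, 1537⟩]) rfl rfl
    (List.mem_of_getElem? (i := 102) rfl) TB_fr TB_cov ?_
  · intro X Y h
    simp only [List.forall_mem_cons, List.not_mem_nil, false_imp_iff, implies_true, and_true] at h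
    push_cast at h ⊢
    obtain ⟨h0, h1, h2, h3, h4⟩ := h
    refine ⟨⟨?_, ?_⟩, ?_, ?_⟩ <;> linarith

theorem TB_rg103 : ROK [.q ⟨-148, -172, 320, 0⟩ ⟨-492, 172, 320, 0⟩, .q ⟨145, 175, -320, 0⟩ ⟨-495, 175, 320, 0⟩, .q ⟨492, -172, -320, 0⟩ ⟨13993, -10342, 335, -3986⟩, .q ⟨495, -175, -320, 0⟩ ⟨13993, -10342, 335, -3986⟩, .q ⟨492, -172, -320, 0⟩ ⟨-1967, -1684, -335, 3986⟩, .q ⟨495, -175, -320, 0⟩ ⟨-1967, -1684, -335, 3986⟩, .q ⟨492, -172, -320, 0⟩ ⟨3504, 1921, -1911, -3514⟩, .q ⟨495, -175, -320, 0⟩ ⟨3504, 1921, -1911, -3514⟩, .q ⟨492, -172, -320, 0⟩ ⟨701, 1091, -3579, 1787⟩, .q ⟨495, -175, -320, 0⟩ ⟨701, 1091, -3579, 1787⟩] := by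
  refine rok_bs (s := -1) (nlo := 172) (nhi := 175) (q := 320) (by decide) (by decide) (by decide) (by decide) (k := 1) (by decide) (Q := [(335, 3986, 10342), (-335, -3986, 1684), (-1911, 3514, -1921), (-3579, -1787, -1091)])
    (P := [⟨-5283840, -320, 0⟩, ⟨5376000, 320, 0⟩, ⟨317706240, 335, 3986⟩, ⟨51732480, -335, -3986⟩, ⟨-59013120, -1911, 3514⟩, ⟨-33515520, -3579, -1787⟩]) rfl rfl
    (List.mem_of_getElem? (i := 103) rfl) TB_fr TB_cov ?_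
  · intro X Y h
    simp only [List.forall_mem_cons, List.not_mem_nil, false_imp_iff, implies_true, and_true] at h
    push_cast at h ⊢
    obtain ⟨h0, h1, h2, h3, h4, h5⟩ := h
    refine ⟨⟨?_, ?_⟩, ?_, ?_⟩ <;> linarith

theorem TB_rg104 : ROK [.q ⟨-20, -20, 40, 0⟩ ⟨-60, 20, 40, 0⟩, .q ⟨17, 23, -40, 0⟩ ⟨-63, 23, 40, 0⟩, .q ⟨60, -20, -40, 0⟩ ⟨14147, -10147, 0, -4000⟩, .q ⟨63, -23, -40, 0⟩ ⟨14147, -10147, 0, -4000⟩, .q ⟨60, -20, -40, 0⟩ ⟨-1289, -921, -1499, 3709⟩, .q ⟨63, -23, -40, 0⟩ ⟨-1289, -921, -1499, 3709⟩, .q ⟨60, -20, -40, 0⟩ ⟨2726, 2574, -3639, -1661⟩, .q ⟨63, -23, -40, 0⟩ ⟨2726, 2574, -3639, -1661⟩] := by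
  refine rok_bs (s := -1) (nlo := 20) (nhi := 23) (q := 40) (by decide) (by decide) (by decide) (by decide) (k := 1) (by decide) (Q := [(0, 4000, 10147), (-1499, -3709, 921), (-3639, 1661, -2574)])
    (P := [⟨-614400, -40, 0⟩, ⟨706560, 40, 0⟩, ⟨311715840, 0, 4000⟩, ⟨28293120, -1499, -3709⟩, ⟨-79073280, -3639, 1661⟩]) rfl rfl
    (List.mem_of_getElem? (i := 104) rfl) TB_fr TB_cov ?_
  · intro X Y h
    simp only [List.forall_mem_cons, List.not_mem_nil, false_imp_iff, implies_true, and_true] at h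
    push_cast at h ⊢
    obtain ⟨h0, h1, h2, h3, h4⟩ := h
    refine ⟨⟨?_, ?_⟩, ?_, ?_⟩ <;> linarith

theorem TB_rg105 : ROK [.q ⟨-115, -125, 240, 0⟩ ⟨-365, 125, 240, 0⟩, .q ⟨111, 129, -240, 0⟩ ⟨-369, 129, 240, 0⟩, .q ⟨365, -125, -240, 0⟩ ⟨12528, -8825, 287, -3990⟩, .q ⟨369, -129, -240, 0⟩ ⟨12528, -8825, 287, -3990⟩, .q ⟨365, -125, -240, 0⟩ ⟨-307, 64, -2704, 2947⟩, .q ⟨369, -129, -240, 0⟩ ⟨-307, 64, -2704, 2947⟩, .q ⟨365, -125, -240, 0⟩ ⟨2546, 467, 887, -3900⟩, .q ⟨369, -129, -240, 0⟩ ⟨2546, 467, 887, -3900⟩, .q ⟨365, -125, -240, 0⟩ ⟨-1429, -1074, -1285, 3788⟩, .q ⟨369, -129, -240, 0⟩ ⟨-1429, -1074, -1285, 3788⟩] := by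
  refine rok_bs (s := -1) (nlo := 125) (nhi := 129) (q := 240) (by decide) (by decide) (by decide) (by decide) (k := 1) (by decide) (Q := [(287, 3990, 8825), (-2704, -2947, -64), (887, 3900, -467), (-1285, -3788, 1074)])
    (P := [⟨-3840000, -240, 0⟩, ⟨3962880, 240, 0⟩, ⟨271104000, 287, 3990⟩, ⟨-1966080, -2704, -2947⟩, ⟨-14346240, 887, 3900⟩, ⟨32993280, -1285, -3788⟩]) rfl rfl
    (List.mem_of_getElem? (i := 105) rfl) TB_fr TB_cov ?_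
  · intro X Y h
    simp only [List.forall_mem_cons, List.not_mem_nil, false_imp_iff, implies_true, and_true] at h
    push_cast at h ⊢
    obtain ⟨h0, h1, h2, h3, h4, h5⟩ := h
    refine ⟨⟨?_, ?_⟩, ?_, ?_⟩ <;> linarith

theorem TB_rg106 : ROK [.q ⟨-229, -251, 480, 0⟩ ⟨-731, 251, 480, 0⟩, .q ⟨222, 258, -480, 0⟩ ⟨-738, 258, 480, 0⟩, .q ⟨731, -251, -480, 0⟩ ⟨3033, 967, 0, -4000⟩, .q ⟨738, -258, -480, 0⟩ ⟨3033, 967, 0, -4000⟩, .q ⟨731, -251, -480, 0⟩ ⟨-537, -463, 0, 1000⟩, .q ⟨738, -258, -480, 0⟩ ⟨-537, -463, 0, 1000⟩, .q ⟨731, -251, -480, 0⟩ ⟨-895, -523, -2029, 3447⟩, .q ⟨738, -258, -480, 0⟩ ⟨-895, -523, -2029, 3447⟩] := by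
  refine rok_bs (s := -1) (nlo := 251) (nhi := 258) (q := 480) (by decide) (by decide) (by decide) (by decide) (k := 1) (by decide) (Q := [(0, 4000, -967), (0, -1000, 463), (-2029, -3447, 523)])
    (P := [⟨-7710720, -480, 0⟩, ⟨7925760, 480, 0⟩, ⟨-29706240, 0, 4000⟩, ⟨14223360, 0, -1000⟩, ⟨16066560, -2029, -3447⟩]) rfl rfl
    (List.mem_of_getElem? (i := 106) rfl) TB_fr TB_cov ?_
  · intro X Y h
    simp only [List.forall_mem_cons, List.not_mem_nil, false_imp_iff, implies_true, and_true] at h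
    push_cast at h ⊢
    obtain ⟨h0, h1, h2, h3, h4⟩ := h
    refine ⟨⟨?_, ?_⟩, ?_, ?_⟩ <;> linarith

theorem TB_rg107 : ROK [.q ⟨-39, -41, 80, 0⟩ ⟨-121, 41, 80, 0⟩, .q ⟨36, 44, -80, 0⟩ ⟨-124, 44, 80, 0⟩, .q ⟨121, -41, -80, 0⟩ ⟨6499, -4499, 0, -2000⟩, .q ⟨124, -44, -80, 0⟩ ⟨6499, -4499, 0, -2000⟩, .q ⟨121, -41, -80, 0⟩ ⟨-1305, -944, -1471, 3720⟩, .q ⟨124, -44, -80, 0⟩ ⟨-1305, -944, -1471, 3720⟩, .q ⟨121, -41, -80, 0⟩ ⟨1529, 538, -68, -1999⟩, .q ⟨124, -44, -80, 0⟩ ⟨1529, 538, -68, -1999⟩, .q ⟨121, -41, -80, 0⟩ ⟨-568, -195, -2421, 3184⟩, .q ⟨124, -44, -80, 0⟩ ⟨-568, -195, -2421, 3184⟩] := by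
  refine rok_bs (s := -1) (nlo := 41) (nhi := 44) (q := 80) (by decide) (by decide) (by decide) (by decide) (k := 1) (by decide) (Q := [(0, 2000, 4499), (-1471, -3720, 944), (-68, 1999, -538), (-2421, -3184, 195)])
    (P := [⟨-1259520, -80, 0⟩, ⟨1351680, 80, 0⟩, ⟨138209280, 0, 2000⟩, ⟨28999680, -1471, -3720⟩, ⟨-16527360, -68, 1999⟩, ⟨5990400, -2421, -3184⟩]) rfl rfl
    (List.mem_of_getElem? (i := 107) rfl) TB_fr TB_cov ?_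
  · intro X Y h
    simp only [List.forall_mem_cons, List.not_mem_nil, false_imp_iff, implies_true, and_true] at h
    push_cast at h ⊢
    obtain ⟨h0, h1, h2, h3, h4, h5⟩ := h
    refine ⟨⟨?_, ?_⟩, ?_, ?_⟩ <;> linarith

theorem TB_rg108 : ROK [.q ⟨-5, -35, 40, 0⟩ ⟨-75, 35, 40, 0⟩, .q ⟨2, 38, -40, 0⟩ ⟨-78, 38, 40, 0⟩, .q ⟨75, -35, -40, 0⟩ ⟨2816, 2789, -2418, -3187⟩, .q ⟨78, -38, -40, 0⟩ ⟨2816, 2789, -2418, -3187⟩, .q ⟨75, -35, -40, 0⟩ ⟨191, -1757, 258, 1308⟩, .q ⟨78, -38, -40, 0⟩ ⟨191, -1757, 258, 1308⟩, .q ⟨75, -35, -40, 0⟩ ⟨3340, 1147, -521, -3966⟩, .q ⟨78, -38, -40, 0⟩ ⟨3340, 1147, -521, -3966⟩] := by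
  refine rok_bs (s := -1) (nlo := 35) (nhi := 38) (q := 40) (by decide) (by decide) (by decide) (by decide) (k := 1) (by decide) (Q := [(-2418, 3187, -2789), (258, -1308, 1757), (-521, 3966, -1147)])
    (P := [⟨-1075200, -40, 0⟩, ⟨1167360, 40, 0⟩, ⟨-85678080, -2418, 3187⟩, ⟨53975040, 258, -1308⟩, ⟨-35235840, -521, 3966⟩]) rfl rfl
    (List.mem_of_getElem? (i := 108) rfl) TB_fr TB_cov ?_
  · intro X Y h
    simp only [List.forall_mem_cons, List.not_mem_nil, false_imp_iff, implies_true, and_true] at h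
    push_cast at h ⊢
    obtain ⟨h0, h1, h2, h3, h4⟩ := h
    refine ⟨⟨?_, ?_⟩, ?_, ?_⟩ <;> linarith

theorem TB_rg109 : ROK [.q ⟨-268, -212, 480, 0⟩ ⟨-692, 212, 480, 0⟩, .q ⟨259, 221, -480, 0⟩ ⟨-701, 221, 480, 0⟩, .q ⟨692, -212, -480, 0⟩ ⟨229, 1771, 0, -2000⟩, .q ⟨701, -221, -480, 0⟩ ⟨229, 1771, 0, -2000⟩, .q ⟨692, -212, -480, 0⟩ ⟨-177, -1823, 0, 2000⟩, .q ⟨701, -221, -480, 0⟩ ⟨-177, -1823, 0, 2000⟩] := by
  refine rok_bs (s := -1) (nlo := 212) (nhi := 221) (q := 480) (by decide) (by decide) (by decide) (by decide) (k := 1) (by decide) (Q := [(0, 2000, -1771), (0, -2000, 1823)])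
    (P := [⟨-6512640, -480, 0⟩, ⟨6789120, 480, 0⟩, ⟨-54405120, 0, 2000⟩, ⟨56002560, 0, -2000⟩]) rfl rfl
    (List.mem_of_getElem? (i := 109) rfl) TB_fr TB_cov ?_
  · intro X Y h
    simp only [List.forall_mem_cons, List.not_mem_nil, false_imp_iff, implies_true, and_true] at h
    push_cast at h ⊢
    obtain ⟨h0, h1, h2, h3⟩ := h
    refine ⟨⟨?_, ?_⟩, ?_, ?_⟩ <;> linarith

theorem TB_rg110 : ROK [.q ⟨-4, -36, 40, 0⟩ ⟨-76, 36, 40, 0⟩, .q ⟨1, 39, -40, 0⟩ ⟨-79, 39, 40, 0⟩, .q ⟨76, -36, -40, 0⟩ ⟨2779, 2842, -2491, -3130⟩, .q ⟨79, -39, -40, 0⟩ ⟨2779, 2842, -2491, -3130⟩, .q ⟨76, -36, -40, 0⟩ ⟨9256, -14877, 2491, 3130⟩, .q ⟨79, -39, -40, 0⟩ ⟨9256, -14877, 2491, 3130⟩, .q ⟨76, -36, -40, 0⟩ ⟨3339, 693, -32, -4000⟩, .q ⟨79, -39, -40, 0⟩ ⟨3339, 693, -32, -4000⟩, .q ⟨76, -36, -40, 0⟩ ⟨128, -5735, 3180, 2427⟩, .q ⟨79, -39, -40, 0⟩ ⟨128, -5735,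 3180, 2427⟩] := by
  refine rok_bs (s := -1) (nlo := 36) (nhi := 39) (q := 40) (by decide) (by decide) (by decide) (by decide) (k := 1) (by decide) (Q := [(-2491, 3130, -2842), (2491, -3130, 14877), (-32, 4000, -693), (3180, -2427, 5735)])
    (P := [⟨-1105920, -40, 0⟩, ⟨1198080, 40, 0⟩, ⟨-87306240, -2491, 3130⟩, ⟨457021440, 2491, -3130⟩, ⟨-21288960, -32, 4000⟩, ⟨176179200, 3180, -2427⟩]) rfl rfl
    (List.mem_of_getElem? (i := 110) rfl) TB_fr TB_cov ?_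
  · intro X Y h
    simp only [List.forall_mem_cons, List.not_mem_nil, false_imp_iff, implies_true, and_true] at h
    push_cast at h ⊢
    obtain ⟨h0, h1, h2, h3, h4, h5⟩ := h
    refine ⟨⟨?_, ?_⟩, ?_, ?_⟩ <;> linarith

theorem TB_rg111 : ROK [.q ⟨-42, -38, 80, 0⟩ ⟨-118, 38, 80, 0⟩, .q ⟨39, 41, -80, 0⟩ ⟨-121, 41, 80, 0⟩, .q ⟨118, -38, -80, 0⟩ ⟨526, 3501, -27, -4000⟩, .q ⟨121, -41, -80, 0⟩ ⟨526, 3501, -27, -4000⟩, .q ⟨118, -38, -80, 0⟩ ⟨881, -2878, -1648, 3645⟩, .q ⟨121, -41, -80, 0⟩ ⟨881, -2878, -1648, 3645⟩] := by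
  refine rok_bs (s := -1) (nlo := 38) (nhi := 41) (q := 80) (by decide) (by decide) (by decide) (by decide) (k := 1) (by decide) (Q := [(-27, 4000, -3501), (-1648, -3645, 2878)])
    (P := [⟨-1167360, -80, 0⟩, ⟨1259520, 80, 0⟩, ⟨-107550720, -27, 4000⟩, ⟨88412160, -1648, -3645⟩]) rfl rfl
    (List.mem_of_getElem? (i := 111) rfl) TB_fr TB_cov ?_
  · intro X Y h
    simp only [List.forall_mem_cons, List.not_mem_nil, false_imp_iff, implies_true, and_true] at h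
    push_cast at h ⊢
    obtain ⟨h0, h1, h2, h3⟩ := h
    refine ⟨⟨?_, ?_⟩, ?_, ?_⟩ <;> linarith

theorem TB_rg112 : ROK [.q ⟨-245, -235, 480, 0⟩ ⟨-715, 235, 480, 0⟩, .q ⟨236, 244, -480, 0⟩ ⟨-724, 244, 480, 0⟩, .q ⟨715, -235, -480, 0⟩ ⟨2029, 1971, 0, -4000⟩, .q ⟨724, -244, -480, 0⟩ ⟨2029, 1971, 0, -4000⟩, .q ⟨715, -235, -480, 0⟩ ⟨-2215, -2833, 1247, 3801⟩, .q ⟨724, -244, -480, 0⟩ ⟨-2215, -2833, 1247, 3801⟩, .q ⟨715, -235, -480, 0⟩ ⟨2744, 2761, -3402, -2103⟩, .q ⟨724, -244, -480, 0⟩ ⟨2744, 2761, -3402, -2103⟩] := by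
  refine rok_bs (s := -1) (nlo := 235) (nhi := 244) (q := 480) (by decide) (by decide) (by decide) (by decide) (k := 1) (by decide) (Q := [(0, 4000, -1971), (1247, -3801, 2833), (-3402, 2103, -2761)])
    (P := [⟨-7219200, -480, 0⟩, ⟨7495680, 480, 0⟩, ⟨-60549120, 0, 4000⟩, ⟨87029760, 1247, -3801⟩, ⟨-84817920, -3402, 2103⟩]) rfl rfl
    (List.mem_of_getElem? (i := 112) rfl) TB_fr TB_cov ?_
  · intro X Y h
    simp only [List.forall_mem_cons, List.not_mem_nil, false_imp_iff, implies_true, and_true] at h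
    push_cast at h ⊢
    obtain ⟨h0, h1, h2, h3, h4⟩ := h
    refine ⟨⟨?_, ?_⟩, ?_, ?_⟩ <;> linarith

theorem TB_rg113 : ROK [.q ⟨-231, -249, 480, 0⟩ ⟨-729, 249, 480, 0⟩, .q ⟨221, 259, -480, 0⟩ ⟨-739, 259, 480, 0⟩, .q ⟨729, -249, -480, 0⟩ ⟨28, 879, 373, -1280⟩, .q ⟨739, -259, -480, 0⟩ ⟨28, 879, 373, -1280⟩, .q ⟨729, -249, -480, 0⟩ ⟨632, -3353, -1119, 3840⟩, .q ⟨739, -259, -480, 0⟩ ⟨632, -3353, -1119, 3840⟩] := by
  refine rok_bs (s := -1) (nlo := 249) (nhi := 259) (q := 480) (by decide) (by decide) (by decide) (by decide) (k := 1) (by decide) (Q := [(373, 1280, -879), (-1119, -3840, 3353)])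
    (P := [⟨-7649280, -480, 0⟩, ⟨7956480, 480, 0⟩, ⟨-27002880, 373, 1280⟩, ⟨103004160, -1119, -3840⟩]) rfl rfl
    (List.mem_of_getElem? (i := 113) rfl) TB_fr TB_cov ?_
  · intro X Y h
    simp only [List.forall_mem_cons, List.not_mem_nil, false_imp_iff, implies_true, and_true] at h
    push_cast at h ⊢
    obtain ⟨h0, h1, h2, h3⟩ := h
    refine ⟨⟨?_, ?_⟩, ?_, ?_⟩ <;> linarith

theorem TB_rg114 : ROK [.q ⟨-531, -429, 960, 0⟩ ⟨-1389, 429, 960, 0⟩, .q ⟨520, 440, -960, 0⟩ ⟨-1400, 440, 960, 0⟩, .q ⟨1389, -429, -960, 0⟩ ⟨-1095, 1475, 2632, -3012⟩, .q ⟨1400, -440, -960, 0⟩ ⟨-1095, 1475, 2632, -3012⟩, .q ⟨1389, -429, -960, 0⟩ ⟨-112, -3509, -363, 3984⟩, .q ⟨1400, -440, -960, 0⟩ ⟨-112, -3509, -363, 3984⟩, .q ⟨1389, -429, -960, 0⟩ ⟨2147, 3304, -3482, -1969⟩, .q ⟨1400, -440, -960, 0⟩ ⟨2147, 3304, -3482, -1969⟩] := by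
  refine rok_bs (s := -1) (nlo := 429) (nhi := 440) (q := 960) (by decide) (by decide) (by decide) (by decide) (k := 1) (by decide) (Q := [(2632, 3012, -1475), (-363, -3984, 3509), (-3482, 1969, -3304)])
    (P := [⟨-13178880, -960, 0⟩, ⟨13516800, 960, 0⟩, ⟨-45312000, 2632, 3012⟩, ⟨107796480, -363, -3984⟩, ⟨-101498880, -3482, 1969⟩]) rfl rfl
    (List.mem_of_getElem? (i := 114) rfl) TB_fr TB_cov ?_
  · intro X Y h
    simp only [List.forall_mem_cons, List.not_mem_nil, false_imp_iff, implies_true, and_true] at h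
    push_cast at h ⊢
    obtain ⟨h0, h1, h2, h3, h4⟩ := h
    refine ⟨⟨?_, ?_⟩, ?_, ?_⟩ <;> linarith

theorem TB_rg115 : ROK [.q ⟨-263, -217, 480, 0⟩ ⟨-697, 217, 480, 0⟩, .q ⟨255, 225, -480, 0⟩ ⟨-705, 225, 480, 0⟩, .q ⟨697, -217, -480, 0⟩ ⟨72, 1609, 297, -1978⟩, .q ⟨705, -225, -480, 0⟩ ⟨72, 1609, 297, -1978⟩, .q ⟨697, -217, -480, 0⟩ ⟨29, -1710, -297, 1978⟩, .q ⟨705, -225, -480, 0⟩ ⟨29, -1710, -297, 1978⟩] := by
  refine rok_bs (s := -1) (nlo := 217) (nhi := 225) (q := 480) (by decide) (by decide) (by decide) (by decide) (k := 1) (by decide) (Q := [(297, 1978, -1609), (-297, -1978, 1710)])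
    (P := [⟨-6666240, -480, 0⟩, ⟨6912000, 480, 0⟩, ⟨-49428480, 297, 1978⟩, ⟨52531200, -297, -1978⟩]) rfl rfl
    (List.mem_of_getElem? (i := 115) rfl) TB_fr TB_cov ?_
  · intro X Y h
    simp only [List.forall_mem_cons, List.not_mem_nil, false_imp_iff, implies_true, and_true] at h
    push_cast at h ⊢
    obtain ⟨h0, h1, h2, h3⟩ := h
    refine ⟨⟨?_, ?_⟩, ?_, ?_⟩ <;> linarith

theorem TB_rg116 : ROK [.q ⟨-89, -71, 160, 0⟩ ⟨-231, 71, 160, 0⟩, .q ⟨87, 73, -160, 0⟩ ⟨-233, 73, 160, 0⟩, .q ⟨231, -71, -160, 0⟩ ⟨461, 3539, 0, -4000⟩, .q ⟨233, -73, -160, 0⟩ ⟨461, 3539, 0, -4000⟩, .q ⟨231, -71, -160, 0⟩ ⟨1016, -1949, -2323, 3256⟩, .q ⟨233, -73, -160, 0⟩ ⟨1016, -1949, -2323, 3256⟩] := by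
  refine rok_bs (s := -1) (nlo := 71) (nhi := 73) (q := 160) (by decide) (by decide) (by decide) (by decide) (k := 1) (by decide) (Q := [(0, 4000, -3539), (-2323, -3256, 1949)])
    (P := [⟨-2181120, -160, 0⟩, ⟨2242560, 160, 0⟩, ⟨-108718080, 0, 4000⟩, ⟨59873280, -2323, -3256⟩]) rfl rfl
    (List.mem_of_getElem? (i := 116) rfl) TB_fr TB_cov ?_
  · intro X Y h
    simp only [List.forall_mem_cons, List.not_mem_nil, false_imp_iff, implies_true, and_true] at h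
    push_cast at h ⊢
    obtain ⟨h0, h1, h2, h3⟩ := h
    refine ⟨⟨?_, ?_⟩, ?_, ?_⟩ <;> linarith

theorem TB_rg117 : ROK [.q ⟨-21, -19, 40, 0⟩ ⟨-59, 19, 40, 0⟩, .q ⟨18, 22, -40, 0⟩ ⟨-62, 22, 40, 0⟩, .q ⟨59, -19, -40, 0⟩ ⟨2029, 1971, 0, -4000⟩, .q ⟨62, -22, -40, 0⟩ ⟨2029, 1971, 0, -4000⟩, .q ⟨59, -19, -40, 0⟩ ⟨-103, -148, -426, 677⟩, .q ⟨62, -22, -40, 0⟩ ⟨-103, -148, -426, 677⟩, .q ⟨59, -19, -40, 0⟩ ⟨2731, 2748, -3443, -2036⟩, .q ⟨62, -22, -40, 0⟩ ⟨2731, 2748, -3443, -2036⟩] := by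
  refine rok_bs (s := -1) (nlo := 19) (nhi := 22) (q := 40) (by decide) (by decide) (by decide) (by decide) (k := 1) (by decide) (Q := [(0, 4000, -1971), (-426, -677, 148), (-3443, 2036, -2748)])
    (P := [⟨-583680, -40, 0⟩, ⟨675840, 40, 0⟩, ⟨-60549120, 0, 4000⟩, ⟨4546560, -426, -677⟩, ⟨-84418560, -3443, 2036⟩]) rfl rfl
    (List.mem_of_getElem? (i := 117) rfl) TB_fr TB_cov ?_
  · intro X Y h
    simp only [List.forall_mem_cons, List.not_mem_nil, false_imp_iff, implies_true, and_true] at h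
    push_cast at h ⊢
    obtain ⟨h0, h1, h2, h3, h4⟩ := h
    refine ⟨⟨?_, ?_⟩, ?_, ?_⟩ <;> linarith

theorem TB_rg118 : ROK [.q ⟨-133, -107, 240, 0⟩ ⟨-347, 107, 240, 0⟩, .q ⟨128, 112, -240, 0⟩ ⟨-352, 112, 240, 0⟩, .q ⟨347, -107, -240, 0⟩ ⟨93, 707, 0, -800⟩, .q ⟨352, -112, -240, 0⟩ ⟨93, 707, 0, -800⟩, .q ⟨347, -107, -240, 0⟩ ⟨383, -1199, -946, 1762⟩, .q ⟨352, -112, -240, 0⟩ ⟨383, -1199, -946, 1762⟩] := by
  refine rok_bs (s := -1) (nlo := 107) (nhi := 112) (q := 240) (by decide) (by decide) (by decide) (by decide) (k := 1) (by decide) (Q := [(0, 800, -707), (-946, -1762, 1199)])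
    (P := [⟨-3287040, -240, 0⟩, ⟨3440640, 240, 0⟩, ⟨-21719040, 0, 800⟩, ⟨36833280, -946, -1762⟩]) rfl rfl
    (List.mem_of_getElem? (i := 118) rfl) TB_fr TB_cov ?_
  · intro X Y h
    simp only [List.forall_mem_cons, List.not_mem_nil, false_imp_iff, implies_true, and_true] at h
    push_cast at h ⊢
    obtain ⟨h0, h1, h2, h3⟩ := h
    refine ⟨⟨?_, ?_⟩, ?_, ?_⟩ <;> linarith

theorem TB_rg119 : ROK [.q ⟨-123, -117, 240, 0⟩ ⟨-357, 117, 240, 0⟩, .q ⟨119, 121, -240, 0⟩ ⟨-361, 121, 240, 0⟩, .q ⟨357, -117, -240, 0⟩ ⟨741, 3649, -411, -3979⟩, .q ⟨361, -121, -240, 0⟩ ⟨741, 3649, -411, -3979⟩, .q ⟨357, -117, -240, 0⟩ ⟨1087, -2444, -2067, 3424⟩, .q ⟨361, -121, -240, 0⟩ ⟨1087, -2444, -2067, 3424⟩] := by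
  refine rok_bs (s := -1) (nlo := 117) (nhi := 121) (q := 240) (by decide) (by decide) (by decide) (by decide) (k := 1) (by decide) (Q := [(-411, 3979, -3649), (-2067, -3424, 2444)])
    (P := [⟨-3594240, -240, 0⟩, ⟨3717120, 240, 0⟩, ⟨-112097280, -411, 3979⟩, ⟨75079680, -2067, -3424⟩]) rfl rfl
    (List.mem_of_getElem? (i := 119) rfl) TB_fr TB_cov ?_
  · intro X Y h
    simp only [List.forall_mem_cons, List.not_mem_nil, false_imp_iff, implies_true, and_true] at h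
    push_cast at h ⊢
    obtain ⟨h0, h1, h2, h3⟩ := h
    refine ⟨⟨?_, ?_⟩, ?_, ?_⟩ <;> linarith

end Pool.Agent.TET
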