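import Pool.Agent.Helper38_TET.TB_C

/-!
# MP_c7c9bf_co: certificates, family TB
-/

set_option autoImplicit false
set_option maxRecDepth 100000

namespace Pool.Agent.TET

theorem TB_rg120 : ROK [.q ⟨-1, -39, 40, 0⟩ ⟨-79, 39, 40, 0⟩, .q ⟨-2, 42, -40, 0⟩ ⟨-82, 42, 40, 0⟩, .q ⟨79, -39, -40, 0⟩ ⟨3967, -823, 779, -3923⟩, .q ⟨82, -42, -40, 0⟩ ⟨3967, -823, 779, -3923⟩, .q ⟨79, -39, -40, 0⟩ ⟨-3640, 496, -779, 3923⟩, .q ⟨82, -42, -40, 0⟩ ⟨-3640, 496, -779, 3923⟩, .q ⟨79, -39, -40, 0⟩ ⟨-1752, -3656, 3533, 1875⟩, .q ⟨82, -42, -40, 0⟩ ⟨-1752, -3656, 3533, 1875⟩] := by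
  refine rok_bs (s := -1) (nlo := 39) (nhi := 42) (q := 40) (by decide) (by decide) (by decide) (by decide) (k := 1) (by decide) (Q := [(779, 3923, 823), (-779, -3923, -496), (3533, -1875, 3656)])
    (P := [⟨-1198080, -40, 0⟩, ⟨1290240, 40, 0⟩, ⟨25282560, 779, 3923⟩, ⟨-15237120, -779, -3923⟩, ⟨112312320, 3533, -1875⟩]) rfl rfl
    (List.mem_of_getElem? (i := 120) rfl) TB_fr TB_cov ?_
  · intro X Y h
    simp only [List.forall_mem_cons, List.not_mem_nil, false_imp_iff, implies_true, and_true] at h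
    push_cast at h ⊢
    obtain ⟨h0, h1, h2, h3, h4⟩ := h
    refine ⟨⟨?_, ?_⟩, ?_, ?_⟩ <;> linarith

theorem TB_rg121 : ROK [.q ⟨-1, -9, 10, 0⟩ ⟨-19, 9, 10, 0⟩, .q ⟨0, 10, -10, 0⟩ ⟨-20, 10, 10, 0⟩, .q ⟨19, -9, -10, 0⟩ ⟨4063, 106, -173, -3996⟩, .q ⟨20, -10, -10, 0⟩ ⟨4063, 106, -173, -3996⟩, .q ⟨19, -9, -10, 0⟩ ⟨-3797, -372, 173, 3996⟩, .q ⟨20, -10, -10, 0⟩ ⟨-3797, -372, 173, 3996⟩] := by
  refine rok_bs (s := -1) (nlo := 9) (nhi := 10) (q := 10) (by decide) (by decide) (by decide) (by decide) (k := 1) (by decide) (Q := [(-173, 3996, -106), (173, -3996, 372)])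
    (P := [⟨-276480, -10, 0⟩, ⟨307200, 10, 0⟩, ⟨-3256320, -173, 3996⟩, ⟨11427840, 173, -3996⟩]) rfl rfl
    (List.mem_of_getElem? (i := 121) rfl) TB_fr TB_cov ?_
  · intro X Y h
    simp only [List.forall_mem_cons, List.not_mem_nil, false_imp_iff, implies_true, and_true] at h
    push_cast at h ⊢
    obtain ⟨h0, h1, h2, h3⟩ := h
    refine ⟨⟨?_, ?_⟩, ?_, ?_⟩ <;> linarith

theorem TB_rg122 : ROK [.q ⟨-8, -72, 80, 0⟩ ⟨-152, 72, 80, 0⟩, .q ⟨5, 75, -80, 0⟩ ⟨-155, 75, 80, 0⟩, .q ⟨152, -72, -80, 0⟩ ⟨2554, -1211, 2076, -3419⟩, .q ⟨155, -75, -80, 0⟩ ⟨2554, -1211, 2076, -3419⟩, .q ⟨152, -72, -80, 0⟩ ⟨776, -2119, -2076, 3419⟩, .q ⟨155, -75, -80, 0⟩ ⟨776, -2119, -2076, 3419⟩] := by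
  refine rok_bs (s := -1) (nlo := 72) (nhi := 75) (q := 80) (by decide) (by decide) (by decide) (by decide) (k := 1) (by decide) (Q := [(2076, 3419, 1211), (-2076, -3419, 2119)])
    (P := [⟨-2211840, -80, 0⟩, ⟨2304000, 80, 0⟩, ⟨37201920, 2076, 3419⟩, ⟨65095680, -2076, -3419⟩]) rfl rfl
    (List.mem_of_getElem? (i := 122) rfl) TB_fr TB_cov ?_
  · intro X Y h
    simp only [List.forall_mem_cons, List.not_mem_nil, false_imp_iff, implies_true, and_true] at h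
    push_cast at h ⊢
    obtain ⟨h0, h1, h2, h3⟩ := h
    refine ⟨⟨?_, ?_⟩, ?_, ?_⟩ <;> linarith

theorem TB_rg123 : ROK [.q ⟨-43, -37, 80, 0⟩ ⟨-117, 37, 80, 0⟩, .q ⟨40, 40, -80, 0⟩ ⟨-120, 40, 80, 0⟩, .q ⟨117, -37, -80, 0⟩ ⟨4108, -3126, 835, -1817⟩, .q ⟨120, -40, -80, 0⟩ ⟨4108, -3126, 835, -1817⟩, .q ⟨117, -37, -80, 0⟩ ⟨-29, -763, -8, 800⟩, .q ⟨120, -40, -80, 0⟩ ⟨-29, -763, -8, 800⟩, .q ⟨117, -37, -80, 0⟩ ⟨1275, 3952, -1532, -3695⟩, .q ⟨120, -40, -80, 0⟩ ⟨1275, 3952, -1532, -3695⟩] := by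
  refine rok_bs (s := -1) (nlo := 37) (nhi := 40) (q := 80) (by decide) (by decide) (by decide) (by decide) (k := 1) (by decide) (Q := [(835, 1817, 3126), (-8, -800, 763), (-1532, 3695, -3952)])
    (P := [⟨-1136640, -80, 0⟩, ⟨1228800, 80, 0⟩, ⟨96030720, 835, 1817⟩, ⟨23439360, -8, -800⟩, ⟨-121405440, -1532, 3695⟩]) rfl rfl
    (List.mem_of_getElem? (i := 123) rfl) TB_fr TB_cov ?_
  · intro X Y h
    simp only [List.forall_mem_cons, List.not_mem_nil, false_imp_iff, implies_true, and_true] at h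
    push_cast at h ⊢
    obtain ⟨h0, h1, h2, h3, h4⟩ := h
    refine ⟨⟨?_, ?_⟩, ?_, ?_⟩ <;> linarith

theorem TB_rg124 : ROK [.q ⟨-7, -73, 80, 0⟩ ⟨-153, 73, 80, 0⟩, .q ⟨4, 76, -80, 0⟩ ⟨-156, 76, 80, 0⟩, .q ⟨153, -73, -80, 0⟩ ⟨133, 27, 0, -160⟩, .q ⟨156, -76, -80, 0⟩ ⟨133, 27, 0, -160⟩, .q ⟨153, -73, -80, 0⟩ ⟨743, -4743, 0, 4000⟩, .q ⟨156, -76, -80, 0⟩ ⟨743, -4743, 0, 4000⟩, .q ⟨153, -73, -80, 0⟩ ⟨2714, 2927, -2610, -3031⟩, .q ⟨156, -76, -80, 0⟩ ⟨2714, 2927, -2610, -3031⟩] := by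
  refine rok_bs (s := -1) (nlo := 73) (nhi := 76) (q := 80) (by decide) (by decide) (by decide) (by decide) (k := 1) (by decide) (Q := [(0, 160, -27), (0, -4000, 4743), (-2610, 3031, -2927)])
    (P := [⟨-2242560, -80, 0⟩, ⟨2334720, 80, 0⟩, ⟨-829440, 0, 160⟩, ⟨145704960, 0, -4000⟩, ⟨-89917440, -2610, 3031⟩]) rfl rfl
    (List.mem_of_getElem? (i := 124) rfl) TB_fr TB_cov ?_
  · intro X Y h
    simp only [List.forall_mem_cons, List.not_mem_nil, false_imp_iff, implies_true, and_true] at h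
    push_cast at h ⊢
    obtain ⟨h0, h1, h2, h3, h4⟩ := h
    refine ⟨⟨?_, ?_⟩, ?_, ?_⟩ <;> linarith

theorem TB_rg125 : ROK [.q ⟨-248, -232, 480, 0⟩ ⟨-712, 232, 480, 0⟩, .q ⟨241, 239, -480, 0⟩ ⟨-719, 239, 480, 0⟩, .q ⟨712, -232, -480, 0⟩ ⟨11557, -5983, -2303, -3271⟩, .q ⟨719, -239, -480, 0⟩ ⟨11557, -5983, -2303, -3271⟩, .q ⟨712, -232, -480, 0⟩ ⟨6557, -12131, 2303, 3271⟩, .q ⟨719, -239, -480, 0⟩ ⟨6557, -12131, 2303, 3271⟩, .q ⟨712, -232, -480, 0⟩ ⟨2685, 2701, -3557, -1829⟩, .q ⟨719, -239, -480, 0⟩ ⟨2685, 2701, -3557, -1829⟩, .q ⟨712, -232, -480, 0⟩ ⟨-2357, -2767, 1363, 3761⟩, .q ⟨719, -239, -480, 0⟩ ⟨-2357, -2767, 1363, 3761⟩] := by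
  refine rok_bs (s := -1) (nlo := 232) (nhi := 239) (q := 480) (by decide) (by decide) (by decide) (by decide) (k := 1) (by decide) (Q := [(-2303, 3271, 5983), (2303, -3271, 12131), (-3557, 1829, -2701), (1363, -3761, 2767)])
    (P := [⟨-7127040, -480, 0⟩, ⟨7342080, 480, 0⟩, ⟨183797760, -2303, 3271⟩, ⟨372664320, 2303, -3271⟩, ⟨-82974720, -3557, 1829⟩, ⟨85002240, 1363, -3761⟩]) rfl rfl
    (List.mem_of_getElem? (i := 125) rfl) TB_fr TB_cov ?_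
  · intro X Y h
    simp only [List.forall_mem_cons, List.not_mem_nil, false_imp_iff, implies_true, and_true] at h
    push_cast at h ⊢
    obtain ⟨h0, h1, h2, h3, h4, h5⟩ := h
    refine ⟨⟨?_, ?_⟩, ?_, ?_⟩ <;> linarith

theorem TB_rg126 : ROK [.q ⟨-112, -128, 240, 0⟩ ⟨-368, 128, 240, 0⟩, .q ⟨109, 131, -240, 0⟩ ⟨-371, 131, 240, 0⟩, .q ⟨368, -128, -240, 0⟩ ⟨3011, 989, 0, -4000⟩, .q ⟨371, -131, -240, 0⟩ ⟨3011, 989, 0, -4000⟩, .q ⟨368, -128, -240, 0⟩ ⟨-700, -524, -663, 1887⟩, .q ⟨371, -131, -240, 0⟩ ⟨-700, -524, -663, 1887⟩] := by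
  refine rok_bs (s := -1) (nlo := 128) (nhi := 131) (q := 240) (by decide) (by decide) (by decide) (by decide) (k := 1) (by decide) (Q := [(0, 4000, -989), (-663, -1887, 524)])
    (P := [⟨-3932160, -240, 0⟩, ⟨4024320, 240, 0⟩, ⟨-30382080, 0, 4000⟩, ⟨16097280, -663, -1887⟩]) rfl rfl
    (List.mem_of_getElem? (i := 126) rfl) TB_fr TB_cov ?_
  · intro X Y h
    simp only [List.forall_mem_cons, List.not_mem_nil, false_imp_iff, implies_true, and_true] at h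
    push_cast at h ⊢
    obtain ⟨h0, h1, h2, h3⟩ := h
    refine ⟨⟨?_, ?_⟩, ?_, ?_⟩ <;> linarith

theorem TB_rg127 : ROK [.q ⟨-37, -43, 80, 0⟩ ⟨-123, 43, 80, 0⟩, .q ⟨34, 46, -80, 0⟩ ⟨-126, 46, 80, 0⟩, .q ⟨123, -43, -80, 0⟩ ⟨12515, -11943, 2528, -3100⟩, .q ⟨126, -46, -80, 0⟩ ⟨12515, -11943, 2528, -3100⟩, .q ⟨123, -43, -80, 0⟩ ⟨-469, -103, -2528, 3100⟩, .q ⟨126, -46, -80, 0⟩ ⟨-469, -103, -2528, 3100⟩, .q ⟨123, -43, -80, 0⟩ ⟨3085, 2494, -3258, -2321⟩, .q ⟨126, -46, -80, 0⟩ ⟨3085, 2494, -3258, -2321⟩, .q ⟨123, -43, -80, 0⟩ ⟨571, 973, -3493, 1949⟩, .q ⟨126, -46, -80, 0⟩ ⟨571, 973, -3493, 1949⟩] := by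
  refine rok_bs (s := -1) (nlo := 43) (nhi := 46) (q := 80) (by decide) (by decide) (by decide) (by decide) (k := 1) (by decide) (Q := [(2528, 3100, 11943), (-2528, -3100, 103), (-3258, 2321, -2494), (-3493, -1949, -973)])
    (P := [⟨-1320960, -80, 0⟩, ⟨1413120, 80, 0⟩, ⟨366888960, 2528, 3100⟩, ⟨3164160, -2528, -3100⟩, ⟨-76615680, -3258, 2321⟩, ⟨-29890560, -3493, -1949⟩]) rfl rfl
    (List.mem_of_getElem? (i := 127) rfl) TB_fr TB_cov ?_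
  · intro X Y h
    simp only [List.forall_mem_cons, List.not_mem_nil, false_imp_iff, implies_true, and_true] at h
    push_cast at h ⊢
    obtain ⟨h0, h1, h2, h3, h4, h5⟩ := h
    refine ⟨⟨?_, ?_⟩, ?_, ?_⟩ <;> linarith

theorem TB_rg128 : ROK [.q ⟨-19, -21, 40, 0⟩ ⟨-61, 21, 40, 0⟩, .q ⟨16, 24, -40, 0⟩ ⟨-64, 24, 40, 0⟩, .q ⟨61, -21, -40, 0⟩ ⟨393, 1607, 0, -2000⟩, .q ⟨64, -24, -40, 0⟩ ⟨393, 1607, 0, -2000⟩, .q ⟨61, -21, -40, 0⟩ ⟨27, -1027, 0, 1000⟩, .q ⟨64, -24, -40, 0⟩ ⟨27, -1027, 0, 1000⟩] := by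
  refine rok_bs (s := -1) (nlo := 21) (nhi := 24) (q := 40) (by decide) (by decide) (by decide) (by decide) (k := 1) (by decide) (Q := [(0, 2000, -1607), (0, -1000, 1027)])
    (P := [⟨-645120, -40, 0⟩, ⟨737280, 40, 0⟩, ⟨-49367040, 0, 2000⟩, ⟨31549440, 0, -1000⟩]) rfl rfl
    (List.mem_of_getElem? (i := 128) rfl) TB_fr TB_cov ?_
  · intro X Y h
    simp only [List.forall_mem_cons, List.not_mem_nil, false_imp_iff, implies_true, and_true] at h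
    push_cast at h ⊢
    obtain ⟨h0, h1, h2, h3⟩ := h
    refine ⟨⟨?_, ?_⟩, ?_, ?_⟩ <;> linarith

theorem TB_rg129 : ROK [.q ⟨-255, -225, 480, 0⟩ ⟨-705, 225, 480, 0⟩, .q ⟨244, 236, -480, 0⟩ ⟨-716, 236, 480, 0⟩, .q ⟨705, -225, -480, 0⟩ ⟨526, 1936, -535, -1927⟩, .q ⟨716, -236, -480, 0⟩ ⟨526, 1936, -535, -1927⟩, .q ⟨705, -225, -480, 0⟩ ⟨637, -3001, -1388, 3752⟩, .q ⟨716, -236, -480, 0⟩ ⟨637, -3001, -1388, 3752⟩] := by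
  refine rok_bs (s := -1) (nlo := 225) (nhi := 236) (q := 480) (by decide) (by decide) (by decide) (by decide) (k := 1) (by decide) (Q := [(-535, 1927, -1936), (-1388, -3752, 3001)])
    (P := [⟨-6912000, -480, 0⟩, ⟨7249920, 480, 0⟩, ⟨-59473920, -535, 1927⟩, ⟨92190720, -1388, -3752⟩]) rfl rfl
    (List.mem_of_getElem? (i := 129) rfl) TB_fr TB_cov ?_
  · intro X Y h
    simp only [List.forall_mem_cons, List.not_mem_nil, false_imp_iff, implies_true, and_true] at h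
    push_cast at h ⊢
    obtain ⟨h0, h1, h2, h3⟩ := h
    refine ⟨⟨?_, ?_⟩, ?_, ?_⟩ <;> linarith

theorem TB_rg130 : ROK [.q ⟨-43, -37, 80, 0⟩ ⟨-117, 37, 80, 0⟩, .q ⟨40, 40, -80, 0⟩ ⟨-120, 40, 80, 0⟩, .q ⟨117, -37, -80, 0⟩ ⟨3555, -2149, -626, -780⟩, .q ⟨120, -40, -80, 0⟩ ⟨3555, -2149, -626, -780⟩, .q ⟨117, -37, -80, 0⟩ ⟨3, -223, -1300, 1520⟩, .q ⟨120, -40, -80, 0⟩ ⟨3, -223, -1300, 1520⟩, .q ⟨117, -37, -80, 0⟩ ⟨2614, 2664, -3657, -1621⟩, .q ⟨120, -40, -80, 0⟩ ⟨2614, 2664, -3657, -1621⟩] := by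
  refine rok_bs (s := -1) (nlo := 37) (nhi := 40) (q := 80) (by decide) (by decide) (by decide) (by decide) (k := 1) (by decide) (Q := [(-626, 780, 2149), (-1300, -1520, 223), (-3657, 1621, -2664)])
    (P := [⟨-1136640, -80, 0⟩, ⟨1228800, 80, 0⟩, ⟨66017280, -626, 780⟩, ⟨6850560, -1300, -1520⟩, ⟨-81838080, -3657, 1621⟩]) rfl rfl
    (List.mem_of_getElem? (i := 130) rfl) TB_fr TB_cov ?_
  · intro X Y h
    simp only [List.forall_mem_cons, List.not_mem_nil, false_imp_iff, implies_true, and_true] at h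
    push_cast at h ⊢
    obtain ⟨h0, h1, h2, h3, h4⟩ := h
    refine ⟨⟨?_, ?_⟩, ?_, ?_⟩ <;> linarith

theorem TB_rg131 : ROK [.q ⟨-5, -35, 40, 0⟩ ⟨-75, 35, 40, 0⟩, .q ⟨2, 38, -40, 0⟩ ⟨-78, 38, 40, 0⟩, .q ⟨75, -35, -40, 0⟩ ⟨1009, -9, 0, -1000⟩, .q ⟨78, -38, -40, 0⟩ ⟨1009, -9, 0, -1000⟩, .q ⟨75, -35, -40, 0⟩ ⟨-1887, -113, 0, 2000⟩, .q ⟨78, -38, -40, 0⟩ ⟨-1887, -113, 0, 2000⟩, .q ⟨75, -35, -40, 0⟩ ⟨-2905, 1851, -2252, 3306⟩, .q ⟨78, -38, -40, 0⟩ ⟨-2905, 1851, -2252, 3306⟩] := by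
  refine rok_bs (s := -1) (nlo := 35) (nhi := 38) (q := 40) (by decide) (by decide) (by decide) (by decide) (k := 1) (by decide) (Q := [(0, 1000, 9), (0, -2000, 113), (-2252, -3306, -1851)])
    (P := [⟨-1075200, -40, 0⟩, ⟨1167360, 40, 0⟩, ⟨276480, 0, 1000⟩, ⟨3471360, 0, -2000⟩, ⟨-56862720, -2252, -3306⟩]) rfl rfl
    (List.mem_of_getElem? (i := 131) rfl) TB_fr TB_cov ?_
  · intro X Y h
    simp only [List.forall_mem_cons, List.not_mem_nil, false_imp_iff, implies_true, and_true] at h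
    push_cast at h ⊢
    obtain ⟨h0, h1, h2, h3, h4⟩ := h
    refine ⟨⟨?_, ?_⟩, ?_, ?_⟩ <;> linarith

theorem TB_rg132 : ROK [.q ⟨-41, -39, 80, 0⟩ ⟨-119, 39, 80, 0⟩, .q ⟨37, 43, -80, 0⟩ ⟨-123, 43, 80, 0⟩, .q ⟨119, -39, -80, 0⟩ ⟨1826, 1797, 361, -3984⟩, .q ⟨123, -43, -80, 0⟩ ⟨1826, 1797, 361, -3984⟩, .q ⟨119, -39, -80, 0⟩ ⟨-1491, -2132, -361, 3984⟩, .q ⟨123, -43, -80, 0⟩ ⟨-1491, -2132, -361, 3984⟩, .q ⟨119, -39, -80, 0⟩ ⟨2630, 2621, -3678, -1573⟩, .q ⟨123, -43, -80, 0⟩ ⟨2630, 2621, -3678, -1573⟩] := by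
  refine rok_bs (s := -1) (nlo := 39) (nhi := 43) (q := 80) (by decide) (by decide) (by decide) (by decide) (k := 1) (by decide) (Q := [(361, 3984, -1797), (-361, -3984, 2132), (-3678, 1573, -2621)])
    (P := [⟨-1198080, -80, 0⟩, ⟨1320960, 80, 0⟩, ⟨-55203840, 361, 3984⟩, ⟨65495040, -361, -3984⟩, ⟨-80517120, -3678, 1573⟩]) rfl rfl
    (List.mem_of_getElem? (i := 132) rfl) TB_fr TB_cov ?_
  · intro X Y h
    simp only [List.forall_mem_cons, List.not_mem_nil, false_imp_iff, implies_true, and_true] at h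
    push_cast at h ⊢
    obtain ⟨h0, h1, h2, h3, h4⟩ := h
    refine ⟨⟨?_, ?_⟩, ?_, ?_⟩ <;> linarith

theorem TB_rg133 : ROK [.q ⟨-42, -38, 80, 0⟩ ⟨-118, 38, 80, 0⟩, .q ⟨39, 41, -80, 0⟩ ⟨-121, 41, 80, 0⟩, .q ⟨118, -38, -80, 0⟩ ⟨1476, 1457, 952, -3885⟩, .q ⟨121, -41, -80, 0⟩ ⟨1476, 1457, 952, -3885⟩, .q ⟨118, -38, -80, 0⟩ ⟨-1410, -1523, -952, 3885⟩, .q ⟨121, -41, -80, 0⟩ ⟨-1410, -1523, -952, 3885⟩, .q ⟨118, -38, -80, 0⟩ ⟨2601, 2582, -3725, -1458⟩, .q ⟨121, -41, -80, 0⟩ ⟨2601, 2582, -3725, -1458⟩] := by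
  refine rok_bs (s := -1) (nlo := 38) (nhi := 41) (q := 80) (by decide) (by decide) (by decide) (by decide) (k := 1) (by decide) (Q := [(952, 3885, -1457), (-952, -3885, 1523), (-3725, 1458, -2582)])
    (P := [⟨-1167360, -80, 0⟩, ⟨1259520, 80, 0⟩, ⟨-44759040, 952, 3885⟩, ⟨46786560, -952, -3885⟩, ⟨-79319040, -3725, 1458⟩]) rfl rfl
    (List.mem_of_getElem? (i := 133) rfl) TB_fr TB_cov ?_
  · intro X Y h
    simp only [List.forall_mem_cons, List.not_mem_nil, false_imp_iff, implies_true, and_true] at h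
    push_cast at h ⊢
    obtain ⟨h0, h1, h2, h3, h4⟩ := h
    refine ⟨⟨?_, ?_⟩, ?_, ?_⟩ <;> linarith

theorem TB_rg134 : ROK [.q ⟨-107, -85, 192, 0⟩ ⟨-277, 85, 192, 0⟩, .q ⟨105, 87, -192, 0⟩ ⟨-279, 87, 192, 0⟩, .q ⟨277, -85, -192, 0⟩ ⟨12052, -8705, 607, -3954⟩, .q ⟨279, -87, -192, 0⟩ ⟨12052, -8705, 607, -3954⟩, .q ⟨277, -85, -192, 0⟩ ⟨-3, -3344, -607, 3954⟩, .q ⟨279, -87, -192, 0⟩ ⟨-3, -3344, -607, 3954⟩, .q ⟨277, -85, -192, 0⟩ ⟨414, 3506, 79, -3999⟩, .q ⟨279, -87, -192, 0⟩ ⟨414, 3506, 79, -3999⟩] := by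
  refine rok_bs (s := -1) (nlo := 85) (nhi := 87) (q := 192) (by decide) (by decide) (by decide) (by decide) (k := 1) (by decide) (Q := [(607, 3954, 8705), (-607, -3954, 3344), (79, 3999, -3506)])
    (P := [⟨-2611200, -192, 0⟩, ⟨2672640, 192, 0⟩, ⟨267417600, 607, 3954⟩, ⟨102727680, -607, -3954⟩, ⟨-107704320, 79, 3999⟩]) rfl rfl
    (List.mem_of_getElem? (i := 134) rfl) TB_fr TB_cov ?_
  · intro X Y h
    simp only [List.forall_mem_cons, List.not_mem_nil, false_imp_iff, implies_true, and_true] at h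
    push_cast at h ⊢
    obtain ⟨h0, h1, h2, h3, h4⟩ := h
    refine ⟨⟨?_, ?_⟩, ?_, ?_⟩ <;> linarith

theorem TB_rg135 : ROK [.q ⟨-11, -949, 960, 0⟩ ⟨-1909, 949, 960, 0⟩, .q ⟨2, 958, -960, 0⟩ ⟨-1918, 958, 960, 0⟩, .q ⟨1909, -949, -960, 0⟩ ⟨3916, -1362, 1247, -3801⟩, .q ⟨1918, -958, -960, 0⟩ ⟨3916, -1362, 1247, -3801⟩, .q ⟨1909, -949, -960, 0⟩ ⟨-929, -64, -7, 1000⟩, .q ⟨1918, -958, -960, 0⟩ ⟨-929, -64, -7, 1000⟩] := by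
  refine rok_bs (s := -1) (nlo := 949) (nhi := 958) (q := 960) (by decide) (by decide) (by decide) (by decide) (k := 1) (by decide) (Q := [(1247, 3801, 1362), (-7, -1000, 64)])
    (P := [⟨-29153280, -960, 0⟩, ⟨29429760, 960, 0⟩, ⟨41840640, 1247, 3801⟩, ⟨1966080, -7, -1000⟩]) rfl rfl
    (List.mem_of_getElem? (i := 135) rfl) TB_fr TB_cov ?_
  · intro X Y h
    simp only [List.forall_mem_cons, List.not_mem_nil, false_imp_iff, implies_true, and_true] at h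
    push_cast at h ⊢
    obtain ⟨h0, h1, h2, h3⟩ := h
    refine ⟨⟨?_, ?_⟩, ?_, ?_⟩ <;> linarith

theorem TB_rg136 : ROK [.q ⟨-53, -43, 96, 0⟩ ⟨-139, 43, 96, 0⟩, .q ⟨51, 45, -96, 0⟩ ⟨-141, 45, 96, 0⟩, .q ⟨139, -43, -96, 0⟩ ⟨761, 3743, -541, -3963⟩, .q ⟨141, -45, -96, 0⟩ ⟨761, 3743, -541, -3963⟩, .q ⟨139, -43, -96, 0⟩ ⟨-786, -4009, 897, 3898⟩, .q ⟨141, -45, -96, 0⟩ ⟨-786, -4009, 897, 3898⟩] := by
  refine rok_bs (s := -1) (nlo := 43) (nhi := 45) (q := 96) (by decide) (by decide) (by decide) (by decide) (k := 1) (by decide) (Q := [(-541, 3963, -3743), (897, -3898, 4009)])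
    (P := [⟨-1320960, -96, 0⟩, ⟨1382400, 96, 0⟩, ⟨-114984960, -541, 3963⟩, ⟨123156480, 897, -3898⟩]) rfl rfl
    (List.mem_of_getElem? (i := 136) rfl) TB_fr TB_cov ?_
  · intro X Y h
    simp only [List.forall_mem_cons, List.not_mem_nil, false_imp_iff, implies_true, and_true] at h
    push_cast at h ⊢
    obtain ⟨h0, h1, h2, h3⟩ := h
    refine ⟨⟨?_, ?_⟩, ?_, ?_⟩ <;> linarith

theorem TB_rg137 : ROK [.q ⟨-2, -38, 40, 0⟩ ⟨-78, 38, 40, 0⟩, .q ⟨-1, 41, -40, 0⟩ ⟨-81, 41, 40, 0⟩, .q ⟨78, -38, -40, 0⟩ ⟨3971, -693, 666, -3944⟩, .q ⟨81, -41, -40, 0⟩ ⟨3971, -693, 666, -3944⟩, .q ⟨78, -38, -40, 0⟩ ⟨-1831, 192, -333, 1972⟩, .q ⟨81, -41, -40, 0⟩ ⟨-1831, 192, -333, 1972⟩, .q ⟨78, -38, -40, 0⟩ ⟨-311, -395, 373, 333⟩, .q ⟨81, -41, -40, 0⟩ ⟨-311, -395, 373, 333⟩] := by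
  refine rok_bs (s := -1) (nlo := 38) (nhi := 41) (q := 40) (by decide) (by decide) (by decide) (by decide) (k := 1) (by decide) (Q := [(666, 3944, 693), (-333, -1972, -192), (373, -333, 395)])
    (P := [⟨-1167360, -40, 0⟩, ⟨1259520, 40, 0⟩, ⟨21288960, 666, 3944⟩, ⟨-5898240, -333, -1972⟩, ⟨12134400, 373, -333⟩]) rfl rfl
    (List.mem_of_getElem? (i := 137) rfl) TB_fr TB_cov ?_
  · intro X Y h
    simp only [List.forall_mem_cons, List.not_mem_nil, false_imp_iff, implies_true, and_true] at h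
    push_cast at h ⊢
    obtain ⟨h0, h1, h2, h3, h4⟩ := h
    refine ⟨⟨?_, ?_⟩, ?_, ?_⟩ <;> linarith

theorem TB_rg138 : ROK [.q ⟨-22, -18, 40, 0⟩ ⟨-58, 18, 40, 0⟩, .q ⟨21, 19, -40, 0⟩ ⟨-59, 19, 40, 0⟩, .q ⟨58, -18, -40, 0⟩ ⟨221, 1225, -118, -1328⟩, .q ⟨59, -19, -40, 0⟩ ⟨221, 1225, -118, -1328⟩, .q ⟨58, -18, -40, 0⟩ ⟨677, -2589, -1706, 3618⟩, .q ⟨59, -19, -40, 0⟩ ⟨677, -2589, -1706, 3618⟩] := by
  refine rok_bs (s := -1) (nlo := 18) (nhi := 19) (q := 40) (by decide) (by decide) (by decide) (by decide) (k := 1) (by decide) (Q := [(-118, 1328, -1225), (-1706, -3618, 2589)])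
    (P := [⟨-552960, -40, 0⟩, ⟨583680, 40, 0⟩, ⟨-37632000, -118, 1328⟩, ⟨79534080, -1706, -3618⟩]) rfl rfl
    (List.mem_of_getElem? (i := 138) rfl) TB_fr TB_cov ?_
  · intro X Y h
    simp only [List.forall_mem_cons, List.not_mem_nil, false_imp_iff, implies_true, and_true] at h
    push_cast at h ⊢
    obtain ⟨h0, h1, h2, h3⟩ := h
    refine ⟨⟨?_, ?_⟩, ?_, ?_⟩ <;> linarith

theorem TB_rg139 : ROK [.q ⟨-47, -49, 96, 0⟩ ⟨-145, 49, 96, 0⟩, .q ⟨45, 51, -96, 0⟩ ⟨-147, 51, 96, 0⟩, .q ⟨145, -49, -96, 0⟩ ⟨51, 49, 0, -100⟩, .q ⟨147, -51, -96, 0⟩ ⟨51, 49, 0, -100⟩, .q ⟨145, -49, -96, 0⟩ ⟨-39, -86, 0, 125⟩, .q ⟨147, -51, -96, 0⟩ ⟨-39, -86, 0, 125⟩, .q ⟨145, -49, -96, 0⟩ ⟨1391, 1402, -1173, -1620⟩, .q ⟨147, -51, -96, 0⟩ ⟨1391, 1402, -1173, -1620⟩] := by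
  refine rok_bs (s := -1) (nlo := 49) (nhi := 51) (q := 96) (by decide) (by decide) (by decide) (by decide) (k := 1) (by decide) (Q := [(0, 100, -49), (0, -125, 86), (-1173, 1620, -1402)])
    (P := [⟨-1505280, -96, 0⟩, ⟨1566720, 96, 0⟩, ⟨-1505280, 0, 100⟩, ⟨2641920, 0, -125⟩, ⟨-43069440, -1173, 1620⟩]) rfl rfl
    (List.mem_of_getElem? (i := 139) rfl) TB_fr TB_cov ?_
  · intro X Y h
    simp only [List.forall_mem_cons, List.not_mem_nil, false_imp_iff, implies_true, and_true] at h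
    push_cast at h ⊢
    obtain ⟨h0, h1, h2, h3, h4⟩ := h
    refine ⟨⟨?_, ?_⟩, ?_, ?_⟩ <;> linarith

theorem TB_rg140 : ROK [.q ⟨-267, -213, 480, 0⟩ ⟨-693, 213, 480, 0⟩, .q ⟨259, 221, -480, 0⟩ ⟨-701, 221, 480, 0⟩, .q ⟨693, -213, -480, 0⟩ ⟨955, 3851, -911, -3895⟩, .q ⟨701, -221, -480, 0⟩ ⟨955, 3851, -911, -3895⟩, .q ⟨693, -213, -480, 0⟩ ⟨-1, -3349, -604, 3954⟩, .q ⟨701, -221, -480, 0⟩ ⟨-1, -3349, -604, 3954⟩] := by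
  refine rok_bs (s := -1) (nlo := 213) (nhi := 221) (q := 480) (by decide) (by decide) (by decide) (by decide) (k := 1) (by decide) (Q := [(-911, 3895, -3851), (-604, -3954, 3349)])
    (P := [⟨-6543360, -480, 0⟩, ⟨6789120, 480, 0⟩, ⟨-118302720, -911, 3895⟩, ⟨102881280, -604, -3954⟩]) rfl rfl
    (List.mem_of_getElem? (i := 140) rfl) TB_fr TB_cov ?_
  · intro X Y h
    simp only [List.forall_mem_cons, List.not_mem_nil, false_imp_iff, implies_true, and_true] at h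
    push_cast at h ⊢
    obtain ⟨h0, h1, h2, h3⟩ := h
    refine ⟨⟨?_, ?_⟩, ?_, ?_⟩ <;> linarith

theorem TB_rg141 : ROK [.q ⟨-19, -21, 40, 0⟩ ⟨-61, 21, 40, 0⟩, .q ⟨17, 23, -40, 0⟩ ⟨-63, 23, 40, 0⟩, .q ⟨61, -21, -40, 0⟩ ⟨11144, -6571, -622, -3951⟩, .q ⟨63, -23, -40, 0⟩ ⟨11144, -6571, -622, -3951⟩, .q ⟨61, -21, -40, 0⟩ ⟨-534, -454, -309, 1297⟩, .q ⟨63, -23, -40, 0⟩ ⟨-534, -454, -309, 1297⟩, .q ⟨61, -21, -40, 0⟩ ⟨2799, 2830, -2531, -3098⟩, .q ⟨63, -23, -40, 0⟩ ⟨2799, 2830, -2531, -3098⟩, .q ⟨61, -21, -40, 0⟩ ⟨-206, 175, -2813, 2844⟩, .q ⟨63, -23, -40, 0⟩ ⟨-206, 175, -2813, 2844⟩] := by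
  refine rok_bs (s := -1) (nlo := 21) (nhi := 23) (q := 40) (by decide) (by decide) (by decide) (by decide) (k := 1) (by decide) (Q := [(-622, 3951, 6571), (-309, -1297, 454), (-2531, 3098, -2830), (-2813, -2844, -175)])
    (P := [⟨-645120, -40, 0⟩, ⟨706560, 40, 0⟩, ⟨201861120, -622, 3951⟩, ⟨13946880, -309, -1297⟩, ⟨-86937600, -2531, 3098⟩, ⟨-5376000, -2813, -2844⟩]) rfl rfl
    (List.mem_of_getElem? (i := 141) rfl) TB_fr TB_cov ?_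
  · intro X Y h
    simp only [List.forall_mem_cons, List.not_mem_nil, false_imp_iff, implies_true, and_true] at h
    push_cast at h ⊢
    obtain ⟨h0, h1, h2, h3, h4, h5⟩ := h
    refine ⟨⟨?_, ?_⟩, ?_, ?_⟩ <;> linarith

theorem TB_rg142 : ROK [.q ⟨-4, -16, 20, 0⟩ ⟨-36, 16, 20, 0⟩, .q ⟨1, 19, -20, 0⟩ ⟨-39, 19, 20, 0⟩, .q ⟨36, -16, -20, 0⟩ ⟨601, 199, 0, -800⟩, .q ⟨39, -19, -20, 0⟩ ⟨601, 199, 0, -800⟩, .q ⟨36, -16, -20, 0⟩ ⟨756, -2120, -2063, 3427⟩, .q ⟨39, -19, -20, 0⟩ ⟨756, -2120, -2063, 3427⟩] := by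
  refine rok_bs (s := -1) (nlo := 16) (nhi := 19) (q := 20) (by decide) (by decide) (by decide) (by decide) (k := 1) (by decide) (Q := [(0, 800, -199), (-2063, -3427, 2120)])
    (P := [⟨-491520, -20, 0⟩, ⟨583680, 20, 0⟩, ⟨-6113280, 0, 800⟩, ⟨65126400, -2063, -3427⟩]) rfl rfl
    (List.mem_of_getElem? (i := 142) rfl) TB_fr TB_cov ?_
  · intro X Y h
    simp only [List.forall_mem_cons, List.not_mem_nil, false_imp_iff, implies_true, and_true] at h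
    push_cast at h ⊢
    obtain ⟨h0, h1, h2, h3⟩ := h
    refine ⟨⟨?_, ?_⟩, ?_, ?_⟩ <;> linarith

theorem TB_rg143 : ROK [.q ⟨-122, -118, 240, 0⟩ ⟨-358, 118, 240, 0⟩, .q ⟨117, 123, -240, 0⟩ ⟨-363, 123, 240, 0⟩, .q ⟨358, -118, -240, 0⟩ ⟨2492, 2460, -1109, -3843⟩, .q ⟨363, -123, -240, 0⟩ ⟨2492, 2460, -1109, -3843⟩, .q ⟨358, -118, -240, 0⟩ ⟨-2030, -2734, 857, 3907⟩, .q ⟨363, -123, -240, 0⟩ ⟨-2030, -2734, 857, 3907⟩, .q ⟨358, -118, -240, 0⟩ ⟨1368, 1370, -1723, -1015⟩, .q ⟨363, -123, -240, 0⟩ ⟨1368, 1370, -1723, -1015⟩] := by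
  refine rok_bs (s := -1) (nlo := 118) (nhi := 123) (q := 240) (by decide) (by decide) (by decide) (by decide) (k := 1) (by decide) (Q := [(-1109, 3843, -2460), (857, -3907, 2734), (-1723, 1015, -1370)])
    (P := [⟨-3624960, -240, 0⟩, ⟨3778560, 240, 0⟩, ⟨-75571200, -1109, 3843⟩, ⟨83988480, 857, -3907⟩, ⟨-42086400, -1723, 1015⟩]) rfl rfl
    (List.mem_of_getElem? (i := 143) rfl) TB_fr TB_cov ?_
  · intro X Y h
    simp only [List.forall_mem_cons, List.not_mem_nil, false_imp_iff, implies_true, and_true] at h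
    push_cast at h ⊢
    obtain ⟨h0, h1, h2, h3, h4⟩ := h
    refine ⟨⟨?_, ?_⟩, ?_, ?_⟩ <;> linarith

end Pool.Agent.TET
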