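import Pool.Agent.Helper38_TET.TB_C

/-!
# MP_c7c9bf_co: certificates, family TB
-/

set_option autoImplicit false
set_option maxRecDepth 100000

namespace Pool.Agent.TET

theorem TB_rg144 : ROK [.q ⟨-8, -472, 480, 0⟩ ⟨-952, 472, 480, 0⟩, .q ⟨1, 479, -480, 0⟩ ⟨-959, 479, 480, 0⟩, .q ⟨952, -472, -480, 0⟩ ⟨1354, -57, 36, -1333⟩, .q ⟨959, -479, -480, 0⟩ ⟨1354, -57, 36, -1333⟩, .q ⟨952, -472, -480, 0⟩ ⟨-3715, -176, -108, 3999⟩, .q ⟨959, -479, -480, 0⟩ ⟨-3715, -176, -108, 3999⟩, .q ⟨952, -472, -480, 0⟩ ⟨-1550, 953, -1084, 1681⟩, .q ⟨959, -479, -480, 0⟩ ⟨-1550, 953, -1084, 1681⟩] := by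
  refine rok_bs (s := -1) (nlo := 472) (nhi := 479) (q := 480) (by decide) (by decide) (by decide) (by decide) (k := 1) (by decide) (Q := [(36, 1333, 57), (-108, -3999, 176), (-1084, -1681, -953)])
    (P := [⟨-14499840, -480, 0⟩, ⟨14714880, 480, 0⟩, ⟨1751040, 36, 1333⟩, ⟨5406720, -108, -3999⟩, ⟨-29276160, -1084, -1681⟩]) rfl rfl
    (List.mem_of_getElem? (i := 144) rfl) TB_fr TB_cov ?_
  · intro X Y h
    simp only [List.forall_mem_cons, List.not_mem_nil, false_imp_iff, implies_true, and_true] at h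
    push_cast at h ⊢
    obtain ⟨h0, h1, h2, h3, h4⟩ := h
    refine ⟨⟨?_, ?_⟩, ?_, ?_⟩ <;> linarith

theorem TB_rg145 : ROK [.q ⟨-497, -463, 960, 0⟩ ⟨-1423, 463, 960, 0⟩, .q ⟨486, 474, -960, 0⟩ ⟨-1434, 474, 960, 0⟩, .q ⟨1423, -463, -960, 0⟩ ⟨2342, 2591, -1082, -3851⟩, .q ⟨1434, -474, -960, 0⟩ ⟨2342, 2591, -1082, -3851⟩, .q ⟨1423, -463, -960, 0⟩ ⟨-256, -729, -2293, 3278⟩, .q ⟨1434, -474, -960, 0⟩ ⟨-256, -729, -2293, 3278⟩] := by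
  refine rok_bs (s := -1) (nlo := 463) (nhi := 474) (q := 960) (by decide) (by decide) (by decide) (by decide) (k := 1) (by decide) (Q := [(-1082, 3851, -2591), (-2293, -3278, 729)])
    (P := [⟨-14223360, -960, 0⟩, ⟨14561280, 960, 0⟩, ⟨-79595520, -1082, 3851⟩, ⟨22394880, -2293, -3278⟩]) rfl rfl
    (List.mem_of_getElem? (i := 145) rfl) TB_fr TB_cov ?_
  · intro X Y h
    simp only [List.forall_mem_cons, List.not_mem_nil, false_imp_iff, implies_true, and_true] at h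
    push_cast at h ⊢
    obtain ⟨h0, h1, h2, h3⟩ := h
    refine ⟨⟨?_, ?_⟩, ?_, ?_⟩ <;> linarith

theorem TB_rg146 : ROK [.q ⟨-9, -71, 80, 0⟩ ⟨-151, 71, 80, 0⟩, .q ⟨6, 74, -80, 0⟩ ⟨-154, 74, 80, 0⟩, .q ⟨151, -71, -80, 0⟩ ⟨2216, -1911, 2672, -2977⟩, .q ⟨154, -74, -80, 0⟩ ⟨2216, -1911, 2672, -2977⟩, .q ⟨151, -71, -80, 0⟩ ⟨9830, -10135, -2672, 2977⟩, .q ⟨154, -74, -80, 0⟩ ⟨9830, -10135, -2672, 2977⟩, .q ⟨151, -71, -80, 0⟩ ⟨2276, 3333, -3172, -2437⟩, .q ⟨154, -74, -80, 0⟩ ⟨2276, 3333, -3172, -2437⟩, .q ⟨151, -71, -80, 0⟩ ⟨795, -2096, -2102, 3403⟩, .q ⟨154, -74, -80, 0⟩ ⟨795, -2096, -2102, 3403⟩] := by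
  refine rok_bs (s := -1) (nlo := 71) (nhi := 74) (q := 80) (by decide) (by decide) (by decide) (by decide) (k := 1) (by decide) (Q := [(2672, 2977, 1911), (-2672, -2977, 10135), (-3172, 2437, -3333), (-2102, -3403, 2096)])
    (P := [⟨-2181120, -80, 0⟩, ⟨2273280, 80, 0⟩, ⟨58705920, 2672, 2977⟩, ⟨311347200, -2672, -2977⟩, ⟨-102389760, -3172, 2437⟩, ⟨64389120, -2102, -3403⟩]) rfl rfl
    (List.mem_of_getElem? (i := 146) rfl) TB_fr TB_cov ?_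
  · intro X Y h
    simp only [List.forall_mem_cons, List.not_mem_nil, false_imp_iff, implies_true, and_true] at h
    push_cast at h ⊢
    obtain ⟨h0, h1, h2, h3, h4, h5⟩ := h
    refine ⟨⟨?_, ?_⟩, ?_, ?_⟩ <;> linarith

theorem TB_rg147 : ROK [.q ⟨-491, -469, 960, 0⟩ ⟨-1429, 469, 960, 0⟩, .q ⟨483, 477, -960, 0⟩ ⟨-1437, 477, 960, 0⟩, .q ⟨1429, -469, -960, 0⟩ ⟨13597, -9597, 0, -4000⟩, .q ⟨1437, -477, -960, 0⟩ ⟨13597, -9597, 0, -4000⟩, .q ⟨1429, -469, -960, 0⟩ ⟨-1033, -1709, -1103, 3845⟩, .q ⟨1437, -477, -960, 0⟩ ⟨-1033, -1709, -1103, 3845⟩, .q ⟨1429, -469, -960, 0⟩ ⟨2701, 2707, -3533, -1875⟩, .q ⟨1437, -477, -960, 0⟩ ⟨2701, 2707, -3533, -1875⟩] := by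
  refine rok_bs (s := -1) (nlo := 469) (nhi := 477) (q := 960) (by decide) (by decide) (by decide) (by decide) (k := 1) (by decide) (Q := [(0, 4000, 9597), (-1103, -3845, 1709), (-3533, 1875, -2707)])
    (P := [⟨-14407680, -960, 0⟩, ⟨14653440, 960, 0⟩, ⟨294819840, 0, 4000⟩, ⟨52500480, -1103, -3845⟩, ⟨-83159040, -3533, 1875⟩]) rfl rfl
    (List.mem_of_getElem? (i := 147) rfl) TB_fr TB_cov ?_
  · intro X Y h
    simp only [List.forall_mem_cons, List.not_mem_nil, false_imp_iff, implies_true, and_true] at h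
    push_cast at h ⊢
    obtain ⟨h0, h1, h2, h3, h4⟩ := h
    refine ⟨⟨?_, ?_⟩, ?_, ?_⟩ <;> linarith

theorem TB_rg148 : ROK [.q ⟨-123, -117, 240, 0⟩ ⟨-357, 117, 240, 0⟩, .q ⟨121, 119, -240, 0⟩ ⟨-359, 119, 240, 0⟩, .q ⟨357, -117, -240, 0⟩ ⟨10719, -6719, 0, -4000⟩, .q ⟨359, -119, -240, 0⟩ ⟨10719, -6719, 0, -4000⟩, .q ⟨357, -117, -240, 0⟩ ⟨-841, -1159, 0, 2000⟩, .q ⟨359, -119, -240, 0⟩ ⟨-841, -1159, 0, 2000⟩, .q ⟨357, -117, -240, 0⟩ ⟨2681, 2685, -3578, -1788⟩, .q ⟨359, -119, -240, 0⟩ ⟨2681, 2685, -3578, -1788⟩] := by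
  refine rok_bs (s := -1) (nlo := 117) (nhi := 119) (q := 240) (by decide) (by decide) (by decide) (by decide) (k := 1) (by decide) (Q := [(0, 4000, 6719), (0, -2000, 1159), (-3578, 1788, -2685)])
    (P := [⟨-3594240, -240, 0⟩, ⟨3655680, 240, 0⟩, ⟨206407680, 0, 4000⟩, ⟨35604480, 0, -2000⟩, ⟨-82483200, -3578, 1788⟩]) rfl rfl
    (List.mem_of_getElem? (i := 148) rfl) TB_fr TB_cov ?_
  · intro X Y h
    simp only [List.forall_mem_cons, List.not_mem_nil, false_imp_iff, implies_true, and_true] at h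
    push_cast at h ⊢
    obtain ⟨h0, h1, h2, h3, h4⟩ := h
    refine ⟨⟨?_, ?_⟩, ?_, ?_⟩ <;> linarith

theorem TB_rg149 : ROK [.q ⟨-22, -18, 40, 0⟩ ⟨-58, 18, 40, 0⟩, .q ⟨19, 21, -40, 0⟩ ⟨-61, 21, 40, 0⟩, .q ⟨58, -18, -40, 0⟩ ⟨2297, 2249, -590, -3956⟩, .q ⟨61, -21, -40, 0⟩ ⟨2297, 2249, -590, -3956⟩, .q ⟨58, -18, -40, 0⟩ ⟨10263, -14138, -123, 3998⟩, .q ⟨61, -21, -40, 0⟩ ⟨10263, -14138, -123, 3998⟩, .q ⟨58, -18, -40, 0⟩ ⟨2679, 2701, -3564, -1816⟩, .q ⟨61, -21, -40, 0⟩ ⟨2679, 2701, -3564, -1816⟩, .q ⟨58, -18, -40, 0⟩ ⟨1177, 898, -3669, 1594⟩, .q ⟨61, -21, -40, 0⟩ ⟨1177, 898, -3669, 1594⟩] := by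
  refine rok_bs (s := -1) (nlo := 18) (nhi := 21) (q := 40) (by decide) (by decide) (by decide) (by decide) (k := 1) (by decide) (Q := [(-590, 3956, -2249), (-123, -3998, 14138), (-3564, 1816, -2701), (-3669, -1594, -898)])
    (P := [⟨-552960, -40, 0⟩, ⟨645120, 40, 0⟩, ⟨-69089280, -590, 3956⟩, ⟨434319360, -123, -3998⟩, ⟨-82974720, -3564, 1816⟩, ⟨-27586560, -3669, -1594⟩]) rfl rfl
    (List.mem_of_getElem? (i := 149) rfl) TB_fr TB_cov ?_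
  · intro X Y h
    simp only [List.forall_mem_cons, List.not_mem_nil, false_imp_iff, implies_true, and_true] at h
    push_cast at h ⊢
    obtain ⟨h0, h1, h2, h3, h4, h5⟩ := h
    refine ⟨⟨?_, ?_⟩, ?_, ?_⟩ <;> linarith

theorem TB_rg150 : ROK [.q ⟨-247, -233, 480, 0⟩ ⟨-713, 233, 480, 0⟩, .q ⟨242, 238, -480, 0⟩ ⟨-718, 238, 480, 0⟩, .q ⟨713, -233, -480, 0⟩ ⟨13911, -9911, 0, -4000⟩, .q ⟨718, -238, -480, 0⟩ ⟨13911, -9911, 0, -4000⟩, .q ⟨713, -233, -480, 0⟩ ⟨7525, -13164, 2590, 3049⟩, .q ⟨718, -238, -480, 0⟩ ⟨7525, -13164, 2590, 3049⟩, .q ⟨713, -233, -480, 0⟩ ⟨2745, 2767, -3391, -2121⟩, .q ⟨718, -238, -480, 0⟩ ⟨2745, 2767, -3391, -2121⟩, .q ⟨713, -233, -480, 0⟩ ⟨610, 412, -3293, 2271⟩, .q ⟨718, -238, -480, 0⟩ ⟨610, 412, -3293, 2271⟩] := by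
  refine rok_bs (s := -1) (nlo := 233) (nhi := 238) (q := 480) (by decide) (by decide) (by decide) (by decide) (k := 1) (by decide) (Q := [(0, 4000, 9911), (2590, -3049, 13164), (-3391, 2121, -2767), (-3293, -2271, -412)])
    (P := [⟨-7157760, -480, 0⟩, ⟨7311360, 480, 0⟩, ⟨304465920, 0, 4000⟩, ⟨404398080, 2590, -3049⟩, ⟨-85002240, -3391, 2121⟩, ⟨-12656640, -3293, -2271⟩]) rfl rfl
    (List.mem_of_getElem? (i := 150) rfl) TB_fr TB_cov ?_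
  · intro X Y h
    simp only [List.forall_mem_cons, List.not_mem_nil, false_imp_iff, implies_true, and_true] at h
    push_cast at h ⊢
    obtain ⟨h0, h1, h2, h3, h4, h5⟩ := h
    refine ⟨⟨?_, ?_⟩, ?_, ?_⟩ <;> linarith

theorem TB_rg151 : ROK [.q ⟨-7, -33, 40, 0⟩ ⟨-73, 33, 40, 0⟩, .q ⟨4, 36, -40, 0⟩ ⟨-76, 36, 40, 0⟩, .q ⟨73, -33, -40, 0⟩ ⟨601, -441, 0, -160⟩, .q ⟨76, -36, -40, 0⟩ ⟨601, -441, 0, -160⟩, .q ⟨73, -33, -40, 0⟩ ⟨419, -1105, -1029, 1715⟩, .q ⟨76, -36, -40, 0⟩ ⟨419, -1105, -1029, 1715⟩, .q ⟨73, -33, -40, 0⟩ ⟨2900, 2612, -2119, -3393⟩, .q ⟨76, -36, -40, 0⟩ ⟨2900, 2612, -2119, -3393⟩] := by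
  refine rok_bs (s := -1) (nlo := 33) (nhi := 36) (q := 40) (by decide) (by decide) (by decide) (by decide) (k := 1) (by decide) (Q := [(0, 160, 441), (-1029, -1715, 1105), (-2119, 3393, -2612)])
    (P := [⟨-1013760, -40, 0⟩, ⟨1105920, 40, 0⟩, ⟨13547520, 0, 160⟩, ⟨33945600, -1029, -1715⟩, ⟨-80240640, -2119, 3393⟩]) rfl rfl
    (List.mem_of_getElem? (i := 151) rfl) TB_fr TB_cov ?_
  · intro X Y h
    simp only [List.forall_mem_cons, List.not_mem_nil, false_imp_iff, implies_true, and_true] at h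
    push_cast at h ⊢
    obtain ⟨h0, h1, h2, h3, h4⟩ := h
    refine ⟨⟨?_, ?_⟩, ?_, ?_⟩ <;> linarith

theorem TB_rg152 : ROK [.q ⟨-269, -211, 480, 0⟩ ⟨-691, 211, 480, 0⟩, .q ⟨260, 220, -480, 0⟩ ⟨-700, 220, 480, 0⟩, .q ⟨691, -211, -480, 0⟩ ⟨10917, -9253, 1871, -3535⟩, .q ⟨700, -220, -480, 0⟩ ⟨10917, -9253, 1871, -3535⟩, .q ⟨691, -211, -480, 0⟩ ⟨718, -2382, -1871, 3535⟩, .q ⟨700, -220, -480, 0⟩ ⟨718, -2382, -1871, 3535⟩, .q ⟨691, -211, -480, 0⟩ ⟨412, 1315, -485, -1242⟩, .q ⟨700, -220, -480, 0⟩ ⟨412, 1315, -485, -1242⟩] := by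
  refine rok_bs (s := -1) (nlo := 211) (nhi := 220) (q := 480) (by decide) (by decide) (by decide) (by decide) (k := 1) (by decide) (Q := [(1871, 3535, 9253), (-1871, -3535, 2382), (-485, 1242, -1315)])
    (P := [⟨-6481920, -480, 0⟩, ⟨6758400, 480, 0⟩, ⟨284252160, 1871, 3535⟩, ⟨73175040, -1871, -3535⟩, ⟨-40396800, -485, 1242⟩]) rfl rfl
    (List.mem_of_getElem? (i := 152) rfl) TB_fr TB_cov ?_
  · intro X Y h
    simp only [List.forall_mem_cons, List.not_mem_nil, false_imp_iff, implies_true, and_true] at h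
    push_cast at h ⊢
    obtain ⟨h0, h1, h2, h3, h4⟩ := h
    refine ⟨⟨?_, ?_⟩, ?_, ?_⟩ <;> linarith

theorem TB_rg153 : ROK [.q ⟨-8, -32, 40, 0⟩ ⟨-72, 32, 40, 0⟩, .q ⟨5, 35, -40, 0⟩ ⟨-75, 35, 40, 0⟩, .q ⟨72, -32, -40, 0⟩ ⟨3551, -1178, 1381, -3754⟩, .q ⟨75, -35, -40, 0⟩ ⟨3551, -1178, 1381, -3754⟩, .q ⟨72, -32, -40, 0⟩ ⟨-3495, 1122, -1381, 3754⟩, .q ⟨75, -35, -40, 0⟩ ⟨-3495, 1122, -1381, 3754⟩, .q ⟨72, -32, -40, 0⟩ ⟨3983, 1185, -1433, -3735⟩, .q ⟨75, -35, -40, 0⟩ ⟨3983, 1185, -1433, -3735⟩] := by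
  refine rok_bs (s := -1) (nlo := 32) (nhi := 35) (q := 40) (by decide) (by decide) (by decide) (by decide) (k := 1) (by decide) (Q := [(1381, 3754, 1178), (-1381, -3754, -1122), (-1433, 3735, -1185)])
    (P := [⟨-983040, -40, 0⟩, ⟨1075200, 40, 0⟩, ⟨36188160, 1381, 3754⟩, ⟨-34467840, -1381, -3754⟩, ⟨-36403200, -1433, 3735⟩]) rfl rfl
    (List.mem_of_getElem? (i := 153) rfl) TB_fr TB_cov ?_
  · intro X Y h
    simp only [List.forall_mem_cons, List.not_mem_nil, false_imp_iff, implies_true, and_true] at h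
    push_cast at h ⊢
    obtain ⟨h0, h1, h2, h3, h4⟩ := h
    refine ⟨⟨?_, ?_⟩, ?_, ?_⟩ <;> linarith

theorem TB_rg154 : ROK [.q ⟨-13, -27, 40, 0⟩ ⟨-67, 27, 40, 0⟩, .q ⟨10, 30, -40, 0⟩ ⟨-70, 30, 40, 0⟩, .q ⟨67, -27, -40, 0⟩ ⟨2835, 2817, -2707, -2945⟩, .q ⟨70, -30, -40, 0⟩ ⟨2835, 2817, -2707, -2945⟩, .q ⟨67, -27, -40, 0⟩ ⟨364, -4206, -155, 3997⟩, .q ⟨70, -30, -40, 0⟩ ⟨364, -4206, -155, 3997⟩] := by
  refine rok_bs (s := -1) (nlo := 27) (nhi := 30) (q := 40) (by decide) (by decide) (by decide) (by decide) (k := 1) (by decide) (Q := [(-2707, 2945, -2817), (-155, -3997, 4206)])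
    (P := [⟨-829440, -40, 0⟩, ⟨921600, 40, 0⟩, ⟨-86538240, -2707, 2945⟩, ⟨129208320, -155, -3997⟩]) rfl rfl
    (List.mem_of_getElem? (i := 154) rfl) TB_fr TB_cov ?_
  · intro X Y h
    simp only [List.forall_mem_cons, List.not_mem_nil, false_imp_iff, implies_true, and_true] at h
    push_cast at h ⊢
    obtain ⟨h0, h1, h2, h3⟩ := h
    refine ⟨⟨?_, ?_⟩, ?_, ?_⟩ <;> linarith

theorem TB_rg155 : ROK [.q ⟨-142, -338, 480, 0⟩ ⟨-818, 338, 480, 0⟩, .q ⟨135, 345, -480, 0⟩ ⟨-825, 345, 480, 0⟩, .q ⟨818, -338, -480, 0⟩ ⟨759, 241, 0, -1000⟩, .q ⟨825, -345, -480, 0⟩ ⟨759, 241, 0, -1000⟩, .q ⟨818, -338, -480, 0⟩ ⟨-281, -119, 0, 400⟩, .q ⟨825, -345, -480, 0⟩ ⟨-281, -119, 0, 400⟩] := by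
  refine rok_bs (s := -1) (nlo := 338) (nhi := 345) (q := 480) (by decide) (by decide) (by decide) (by decide) (k := 1) (by decide) (Q := [(0, 1000, -241), (0, -400, 119)])
    (P := [⟨-10383360, -480, 0⟩, ⟨10598400, 480, 0⟩, ⟨-7403520, 0, 1000⟩, ⟨3655680, 0, -400⟩]) rfl rfl
    (List.mem_of_getElem? (i := 155) rfl) TB_fr TB_cov ?_
  · intro X Y h
    simp only [List.forall_mem_cons, List.not_mem_nil, false_imp_iff, implies_true, and_true] at h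
    push_cast at h ⊢
    obtain ⟨h0, h1, h2, h3⟩ := h
    refine ⟨⟨?_, ?_⟩, ?_, ?_⟩ <;> linarith

theorem TB_rg156 : ROK [.q ⟨-7, -13, 20, 0⟩ ⟨-33, 13, 20, 0⟩, .q ⟨5, 15, -20, 0⟩ ⟨-35, 15, 20, 0⟩, .q ⟨33, -13, -20, 0⟩ ⟨2832, 1227, -59, -4000⟩, .q ⟨35, -15, -20, 0⟩ ⟨2832, 1227, -59, -4000⟩, .q ⟨33, -13, -20, 0⟩ ⟨10292, -11561, -2122, 3391⟩, .q ⟨35, -15, -20, 0⟩ ⟨10292, -11561, -2122, 3391⟩, .q ⟨33, -13, -20, 0⟩ ⟨1656, -627, 2267, -3296⟩, .q ⟨35, -15, -20, 0⟩ ⟨1656, -627, 2267, -3296⟩, .q ⟨33, -13, -20, 0⟩ ⟨-764, -4891, 2761, 2894⟩, .q ⟨35, -15, -20, 0⟩ ⟨-764, -4891, 2761, 2894⟩] := by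
  refine rok_bs (s := -1) (nlo := 13) (nhi := 15) (q := 20) (by decide) (by decide) (by decide) (by decide) (k := 1) (by decide) (Q := [(-59, 4000, -1227), (-2122, -3391, 11561), (2267, 3296, 627), (2761, -2894, 4891)])
    (P := [⟨-399360, -20, 0⟩, ⟨460800, 20, 0⟩, ⟨-37693440, -59, 4000⟩, ⟨355153920, -2122, -3391⟩, ⟨19261440, 2267, 3296⟩, ⟨150251520, 2761, -2894⟩]) rfl rfl
    (List.mem_of_getElem? (i := 156) rfl) TB_fr TB_cov ?_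
  · intro X Y h
    simp only [List.forall_mem_cons, List.not_mem_nil, false_imp_iff, implies_true, and_true] at h
    push_cast at h ⊢
    obtain ⟨h0, h1, h2, h3, h4, h5⟩ := h
    refine ⟨⟨?_, ?_⟩, ?_, ?_⟩ <;> linarith

theorem TB_rg157 : ROK [.q ⟨-25, -55, 80, 0⟩ ⟨-135, 55, 80, 0⟩, .q ⟨22, 58, -80, 0⟩ ⟨-138, 58, 80, 0⟩, .q ⟨135, -55, -80, 0⟩ ⟨1012, 806, -659, -1159⟩, .q ⟨138, -58, -80, 0⟩ ⟨1012, 806, -659, -1159⟩, .q ⟨135, -55, -80, 0⟩ ⟨728, -3096, -1385, 3753⟩, .q ⟨138, -58, -80, 0⟩ ⟨728, -3096, -1385, 3753⟩, .q ⟨135, -55, -80, 0⟩ ⟨548, -214, 761, -1095⟩, .q ⟨138, -58, -80, 0⟩ ⟨548, -214, 761, -1095⟩] := by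
  refine rok_bs (s := -1) (nlo := 55) (nhi := 58) (q := 80) (by decide) (by decide) (by decide) (by decide) (k := 1) (by decide) (Q := [(-659, 1159, -806), (-1385, -3753, 3096), (761, 1095, 214)])
    (P := [⟨-1689600, -80, 0⟩, ⟨1781760, 80, 0⟩, ⟨-24760320, -659, 1159⟩, ⟨95109120, -1385, -3753⟩, ⟨6574080, 761, 1095⟩]) rfl rfl
    (List.mem_of_getElem? (i := 157) rfl) TB_fr TB_cov ?_
  · intro X Y h
    simp only [List.forall_mem_cons, List.not_mem_nil, false_imp_iff, implies_true, and_true] at h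
    push_cast at h ⊢
    obtain ⟨h0, h1, h2, h3, h4⟩ := h
    refine ⟨⟨?_, ?_⟩, ?_, ?_⟩ <;> linarith

theorem TB_rg158 : ROK [.q ⟨-7, -13, 20, 0⟩ ⟨-33, 13, 20, 0⟩, .q ⟨3, 17, -20, 0⟩ ⟨-37, 17, 20, 0⟩, .q ⟨33, -13, -20, 0⟩ ⟨1561, -1248, 2668, -2981⟩, .q ⟨37, -17, -20, 0⟩ ⟨1561, -1248, 2668, -2981⟩, .q ⟨33, -13, -20, 0⟩ ⟨810, -2283, -1994, 3467⟩, .q ⟨37, -17, -20, 0⟩ ⟨810, -2283, -1994, 3467⟩, .q ⟨33, -13, -20, 0⟩ ⟨2234, 3097, -3612, -1719⟩, .q ⟨37, -17, -20, 0⟩ ⟨2234, 3097, -3612, -1719⟩] := by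
  refine rok_bs (s := -1) (nlo := 13) (nhi := 17) (q := 20) (by decide) (by decide) (by decide) (by decide) (k := 1) (by decide) (Q := [(2668, 2981, 1248), (-1994, -3467, 2283), (-3612, 1719, -3097)])
    (P := [⟨-399360, -20, 0⟩, ⟨522240, 20, 0⟩, ⟨38338560, 2668, 2981⟩, ⟨70133760, -1994, -3467⟩, ⟨-95139840, -3612, 1719⟩]) rfl rfl
    (List.mem_of_getElem? (i := 158) rfl) TB_fr TB_cov ?_
  · intro X Y h
    simp only [List.forall_mem_cons, List.not_mem_nil, false_imp_iff, implies_true, and_true] at h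
    push_cast at h ⊢
    obtain ⟨h0, h1, h2, h3, h4⟩ := h
    refine ⟨⟨?_, ?_⟩, ?_, ?_⟩ <;> linarith

theorem TB_rg159 : ROK [.q ⟨-25, -55, 80, 0⟩ ⟨-135, 55, 80, 0⟩, .q ⟨21, 59, -80, 0⟩ ⟨-139, 59, 80, 0⟩, .q ⟨135, -55, -80, 0⟩ ⟨3190, 2116, -1673, -3633⟩, .q ⟨139, -59, -80, 0⟩ ⟨3190, 2116, -1673, -3633⟩, .q ⟨135, -55, -80, 0⟩ ⟨-3036, -2270, 1673, 3633⟩, .q ⟨139, -59, -80, 0⟩ ⟨-3036, -2270, 1673, 3633⟩, .q ⟨135, -55, -80, 0⟩ ⟨2194, 3049, -3683, -1560⟩, .q ⟨139, -59, -80, 0⟩ ⟨2194, 3049, -3683, -1560⟩] := by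
  refine rok_bs (s := -1) (nlo := 55) (nhi := 59) (q := 80) (by decide) (by decide) (by decide) (by decide) (k := 1) (by decide) (Q := [(-1673, 3633, -2116), (1673, -3633, 2270), (-3683, 1560, -3049)])
    (P := [⟨-1689600, -80, 0⟩, ⟨1812480, 80, 0⟩, ⟨-65003520, -1673, 3633⟩, ⟨69734400, 1673, -3633⟩, ⟨-93665280, -3683, 1560⟩]) rfl rfl
    (List.mem_of_getElem? (i := 159) rfl) TB_fr TB_cov ?_
  · intro X Y h
    simp only [List.forall_mem_cons, List.not_mem_nil, false_imp_iff, implies_true, and_true] at h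
    push_cast at h ⊢
    obtain ⟨h0, h1, h2, h3, h4⟩ := h
    refine ⟨⟨?_, ?_⟩, ?_, ?_⟩ <;> linarith

theorem TB_rg160 : ROK [.q ⟨-25, -55, 80, 0⟩ ⟨-135, 55, 80, 0⟩, .q ⟨22, 58, -80, 0⟩ ⟨-138, 58, 80, 0⟩, .q ⟨135, -55, -80, 0⟩ ⟨2587, 732, 631, -3950⟩, .q ⟨138, -58, -80, 0⟩ ⟨2587, 732, 631, -3950⟩, .q ⟨135, -55, -80, 0⟩ ⟨-74, -2516, 727, 1863⟩, .q ⟨138, -58, -80, 0⟩ ⟨-74, -2516, 727, 1863⟩] := by
  refine rok_bs (s := -1) (nlo := 55) (nhi := 58) (q := 80) (by decide) (by decide) (by decide) (by decide) (k := 1) (by decide) (Q := [(631, 3950, -732), (727, -1863, 2516)])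
    (P := [⟨-1689600, -80, 0⟩, ⟨1781760, 80, 0⟩, ⟨-22487040, 631, 3950⟩, ⟨77291520, 727, -1863⟩]) rfl rfl
    (List.mem_of_getElem? (i := 160) rfl) TB_fr TB_cov ?_
  · intro X Y h
    simp only [List.forall_mem_cons, List.not_mem_nil, false_imp_iff, implies_true, and_true] at h
    push_cast at h ⊢
    obtain ⟨h0, h1, h2, h3⟩ := h
    refine ⟨⟨?_, ?_⟩, ?_, ?_⟩ <;> linarith

theorem TB_rg161 : ROK [.q ⟨-2, -38, 40, 0⟩ ⟨-78, 38, 40, 0⟩, .q ⟨-1, 41, -40, 0⟩ ⟨-81, 41, 40, 0⟩, .q ⟨78, -38, -40, 0⟩ ⟨3335, 1174, -546, -3963⟩, .q ⟨81, -41, -40, 0⟩ ⟨3335, 1174, -546, -3963⟩, .q ⟨78, -38, -40, 0⟩ ⟨730, -5239, 546, 3963⟩, .q ⟨81, -41, -40, 0⟩ ⟨730, -5239, 546, 3963⟩, .q ⟨78, -38, -40, 0⟩ ⟨3189, -709, 1302, -3782⟩, .q ⟨81, -41, -40, 0⟩ ⟨3189, -709, 1302, -3782⟩] := by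
  refine rok_bs (s := -1) (nlo := 38) (nhi := 41) (q := 40) (by decide) (by decide) (by decide) (by decide) (k := 1) (by decide) (Q := [(-546, 3963, -1174), (546, -3963, 5239), (1302, 3782, 709)])
    (P := [⟨-1167360, -40, 0⟩, ⟨1259520, 40, 0⟩, ⟨-36065280, -546, 3963⟩, ⟨160942080, 546, -3963⟩, ⟨21780480, 1302, 3782⟩]) rfl rfl
    (List.mem_of_getElem? (i := 161) rfl) TB_fr TB_cov ?_
  · intro X Y h
    simp only [List.forall_mem_cons, List.not_mem_nil, false_imp_iff, implies_true, and_true] at h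
    push_cast at h ⊢
    obtain ⟨h0, h1, h2, h3, h4⟩ := h
    refine ⟨⟨?_, ?_⟩, ?_, ?_⟩ <;> linarith

theorem TB_rg162 : ROK [.q ⟨-3, -37, 40, 0⟩ ⟨-77, 37, 40, 0⟩, .q ⟨-1, 41, -40, 0⟩ ⟨-81, 41, 40, 0⟩, .q ⟨77, -37, -40, 0⟩ ⟨3323, 677, 0, -4000⟩, .q ⟨81, -41, -40, 0⟩ ⟨3323, 677, 0, -4000⟩, .q ⟨77, -37, -40, 0⟩ ⟨749, -4749, 0, 4000⟩, .q ⟨81, -41, -40, 0⟩ ⟨749, -4749, 0, 4000⟩] := by
  refine rok_bs (s := -1) (nlo := 37) (nhi := 41) (q := 40) (by decide) (by decide) (by decide) (by decide) (k := 1) (by decide) (Q := [(0, 4000, -677), (0, -4000, 4749)])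
    (P := [⟨-1136640, -40, 0⟩, ⟨1259520, 40, 0⟩, ⟨-20797440, 0, 4000⟩, ⟨145889280, 0, -4000⟩]) rfl rfl
    (List.mem_of_getElem? (i := 162) rfl) TB_fr TB_cov ?_
  · intro X Y h
    simp only [List.forall_mem_cons, List.not_mem_nil, false_imp_iff, implies_true, and_true] at h
    push_cast at h ⊢
    obtain ⟨h0, h1, h2, h3⟩ := h
    refine ⟨⟨?_, ?_⟩, ?_, ?_⟩ <;> linarith

theorem TB_rg163 : ROK [.q ⟨-12, -68, 80, 0⟩ ⟨-148, 68, 80, 0⟩, .q ⟨9, 71, -80, 0⟩ ⟨-151, 71, 80, 0⟩, .q ⟨148, -68, -80, 0⟩ ⟨3388, -1510, 1729, -3607⟩, .q ⟨151, -71, -80, 0⟩ ⟨3388, -1510, 1729, -3607⟩, .q ⟨148, -68, -80, 0⟩ ⟨-3386, 1191, -1509, 3704⟩, .q ⟨151, -71, -80, 0⟩ ⟨-3386, 1191, -1509, 3704⟩, .q ⟨148, -68, -80, 0⟩ ⟨3419, 2223, -2614, -3028⟩, .q ⟨151, -71, -80, 0⟩ ⟨3419, 2223, -2614, -3028⟩, .q ⟨148, -68, -80, 0⟩ ⟨-2482, 2269, -2720, 2933⟩, .q ⟨151,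 -71, -80, 0⟩ ⟨-2482, 2269, -2720, 2933⟩] := by
  refine rok_bs (s := -1) (nlo := 68) (nhi := 71) (q := 80) (by decide) (by decide) (by decide) (by decide) (k := 1) (by decide) (Q := [(1729, 3607, 1510), (-1509, -3704, -1191), (-2614, 3028, -2223), (-2720, -2933, -2269)])
    (P := [⟨-2088960, -80, 0⟩, ⟨2181120, 80, 0⟩, ⟨46387200, 1729, 3607⟩, ⟨-36587520, -1509, -3704⟩, ⟨-68290560, -2614, 3028⟩, ⟨-69703680, -2720, -2933⟩]) rfl rfl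
    (List.mem_of_getElem? (i := 163) rfl) TB_fr TB_cov ?_
  · intro X Y h
    simp only [List.forall_mem_cons, List.not_mem_nil, false_imp_iff, implies_true, and_true] at h
    push_cast at h ⊢
    obtain ⟨h0, h1, h2, h3, h4, h5⟩ := h
    refine ⟨⟨?_, ?_⟩, ?_, ?_⟩ <;> linarith

theorem TB_rg164 : ROK [.q ⟨-145, -335, 480, 0⟩ ⟨-815, 335, 480, 0⟩, .q ⟨137, 343, -480, 0⟩ ⟨-823, 343, 480, 0⟩, .q ⟨815, -335, -480, 0⟩ ⟨13040, -10095, 942, -3887⟩, .q ⟨823, -343, -480, 0⟩ ⟨13040, -10095, 942, -3887⟩, .q ⟨815, -335, -480, 0⟩ ⟨-1404, 940, -2587, 3051⟩, .q ⟨823, -343, -480, 0⟩ ⟨-1404, 940, -2587, 3051⟩, .q ⟨815, -335, -480, 0⟩ ⟨3182, 1414, -649, -3947⟩, .q ⟨823, -343, -480, 0⟩ ⟨3182, 1414, -649, -3947⟩] := by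
  refine rok_bs (s := -1) (nlo := 335) (nhi := 343) (q := 480) (by decide) (by decide) (by decide) (by decide) (k := 1) (by decide) (Q := [(942, 3887, 10095), (-2587, -3051, -940), (-649, 3947, -1414)])
    (P := [⟨-10291200, -480, 0⟩, ⟨10536960, 480, 0⟩, ⟨310118400, 942, 3887⟩, ⟨-28876800, -2587, -3051⟩, ⟨-43438080, -649, 3947⟩]) rfl rfl
    (List.mem_of_getElem? (i := 164) rfl) TB_fr TB_cov ?_
  · intro X Y h
    simp only [List.forall_mem_cons, List.not_mem_nil, false_imp_iff, implies_true, and_true] at h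
    push_cast at h ⊢
    obtain ⟨h0, h1, h2, h3, h4⟩ := h
    refine ⟨⟨?_, ?_⟩, ?_, ?_⟩ <;> linarith

theorem TB_rg165 : ROK [.q ⟨-6, -14, 20, 0⟩ ⟨-34, 14, 20, 0⟩, .q ⟨5, 15, -20, 0⟩ ⟨-35, 15, 20, 0⟩, .q ⟨34, -14, -20, 0⟩ ⟨94, 31, 0, -125⟩, .q ⟨35, -15, -20, 0⟩ ⟨94, 31, 0, -125⟩, .q ⟨34, -14, -20, 0⟩ ⟨-1652, 654, -2285, 3283⟩, .q ⟨35, -15, -20, 0⟩ ⟨-1652, 654, -2285, 3283⟩] := by
  refine rok_bs (s := -1) (nlo := 14) (nhi := 15) (q := 20) (by decide) (by decide) (by decide) (by decide) (k := 1) (by decide) (Q := [(0, 125, -31), (-2285, -3283, -654)])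
    (P := [⟨-430080, -20, 0⟩, ⟨460800, 20, 0⟩, ⟨-952320, 0, 125⟩, ⟨-20090880, -2285, -3283⟩]) rfl rfl
    (List.mem_of_getElem? (i := 165) rfl) TB_fr TB_cov ?_
  · intro X Y h
    simp only [List.forall_mem_cons, List.not_mem_nil, false_imp_iff, implies_true, and_true] at h
    push_cast at h ⊢
    obtain ⟨h0, h1, h2, h3⟩ := h
    refine ⟨⟨?_, ?_⟩, ?_, ?_⟩ <;> linarith

theorem TB_rg166 : ROK [.q ⟨-2, -38, 40, 0⟩ ⟨-78, 38, 40, 0⟩, .q ⟨-1, 41, -40, 0⟩ ⟨-81, 41, 40, 0⟩, .q ⟨78, -38, -40, 0⟩ ⟨3192, 1899, -1313, -3778⟩, .q ⟨81, -41, -40, 0⟩ ⟨3192, 1899, -1313, -3778⟩, .q ⟨78, -38, -40, 0⟩ ⟨686, -5588, 1039, 3863⟩, .q ⟨81, -41, -40, 0⟩ ⟨686, -5588, 1039, 3863⟩, .q ⟨78, -38, -40, 0⟩ ⟨3244, -451, 1063, -3856⟩, .q ⟨81, -41, -40, 0⟩ ⟨3244, -451, 1063, -3856⟩] := by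
  refine rok_bs (s := -1) (nlo := 38) (nhi := 41) (q := 40) (by decide) (by decide) (by decide) (by decide) (k := 1) (by decide) (Q := [(-1313, 3778, -1899), (1039, -3863, 5588), (1063, 3856, 451)])
    (P := [⟨-1167360, -40, 0⟩, ⟨1259520, 40, 0⟩, ⟨-58337280, -1313, 3778⟩, ⟨171663360, 1039, -3863⟩, ⟨13854720, 1063, 3856⟩]) rfl rfl
    (List.mem_of_getElem? (i := 166) rfl) TB_fr TB_cov ?_
  · intro X Y h
    simp only [List.forall_mem_cons, List.not_mem_nil, false_imp_iff, implies_true, and_true] at h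
    push_cast at h ⊢
    obtain ⟨h0, h1, h2, h3, h4⟩ := h
    refine ⟨⟨?_, ?_⟩, ?_, ?_⟩ <;> linarith

theorem TB_rg167 : ROK [.q ⟨-10, -10, 20, 0⟩ ⟨-30, 10, 20, 0⟩, .q ⟨7, 13, -20, 0⟩ ⟨-33, 13, 20, 0⟩, .q ⟨30, -10, -20, 0⟩ ⟨6169, -6051, 1354, -1472⟩, .q ⟨33, -13, -20, 0⟩ ⟨6169, -6051, 1354, -1472⟩, .q ⟨30, -10, -20, 0⟩ ⟨-309, 73, -2708, 2944⟩, .q ⟨33, -13, -20, 0⟩ ⟨-309, 73, -2708, 2944⟩, .q ⟨30, -10, -20, 0⟩ ⟨2511, 608, 800, -3919⟩, .q ⟨33, -13, -20, 0⟩ ⟨2511, 608, 800, -3919⟩, .q ⟨30, -10, -20, 0⟩ ⟨434, 629, -1842, 779⟩, .q ⟨33, -13, -20, 0⟩ ⟨434, 629, -1842, 779⟩] := by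
  refine rok_bs (s := -1) (nlo := 10) (nhi := 13) (q := 20) (by decide) (by decide) (by decide) (by decide) (k := 1) (by decide) (Q := [(1354, 1472, 6051), (-2708, -2944, -73), (800, 3919, -608), (-1842, -779, -629)])
    (P := [⟨-307200, -20, 0⟩, ⟨399360, 20, 0⟩, ⟨185886720, 1354, 1472⟩, ⟨-2242560, -2708, -2944⟩, ⟨-18677760, 800, 3919⟩, ⟨-19322880, -1842, -779⟩]) rfl rfl
    (List.mem_of_getElem? (i := 167) rfl) TB_fr TB_cov ?_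
  · intro X Y h
    simp only [List.forall_mem_cons, List.not_mem_nil, false_imp_iff, implies_true, and_true] at h
    push_cast at h ⊢
    obtain ⟨h0, h1, h2, h3, h4, h5⟩ := h
    refine ⟨⟨?_, ?_⟩, ?_, ?_⟩ <;> linarith

end Pool.Agent.TET
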