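import Pool.Agent.Helper38_TET.TB_C

/-!
# MP_c7c9bf_co: certificates, family TB
-/

set_option autoImplicit false
set_option maxRecDepth 100000

namespace Pool.Agent.TET

theorem TB_rg168 : ROK [.q ⟨-71, -169, 240, 0⟩ ⟨-409, 169, 240, 0⟩, .q ⟨67, 173, -240, 0⟩ ⟨-413, 173, 240, 0⟩, .q ⟨409, -169, -240, 0⟩ ⟨3189, 2275, -2001, -3463⟩, .q ⟨413, -173, -240, 0⟩ ⟨3189, 2275, -2001, -3463⟩, .q ⟨409, -169, -240, 0⟩ ⟨-2807, -1181, -12, 4000⟩, .q ⟨413, -173, -240, 0⟩ ⟨-2807, -1181, -12, 4000⟩] := by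
  refine rok_bs (s := -1) (nlo := 169) (nhi := 173) (q := 240) (by decide) (by decide) (by decide) (by decide) (k := 1) (by decide) (Q := [(-2001, 3463, -2275), (-12, -4000, 1181)])
    (P := [⟨-5191680, -240, 0⟩, ⟨5314560, 240, 0⟩, ⟨-69888000, -2001, 3463⟩, ⟨36280320, -12, -4000⟩]) rfl rfl
    (List.mem_of_getElem? (i := 168) rfl) TB_fr TB_cov ?_
  · intro X Y h
    simp only [List.forall_mem_cons, List.not_mem_nil, false_imp_iff, implies_true, and_true] at h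
    push_cast at h ⊢
    obtain ⟨h0, h1, h2, h3⟩ := h
    refine ⟨⟨?_, ?_⟩, ?_, ?_⟩ <;> linarith

theorem TB_rg169 : ROK [.q ⟨-145, -335, 480, 0⟩ ⟨-815, 335, 480, 0⟩, .q ⟨139, 341, -480, 0⟩ ⟨-821, 341, 480, 0⟩, .q ⟨815, -335, -480, 0⟩ ⟨2963, 2643, -2423, -3183⟩, .q ⟨821, -341, -480, 0⟩ ⟨2963, 2643, -2423, -3183⟩, .q ⟨815, -335, -480, 0⟩ ⟨-463, -5143, 2423, 3183⟩, .q ⟨821, -341, -480, 0⟩ ⟨-463, -5143, 2423, 3183⟩] := by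
  refine rok_bs (s := -1) (nlo := 335) (nhi := 341) (q := 480) (by decide) (by decide) (by decide) (by decide) (k := 1) (by decide) (Q := [(-2423, 3183, -2643), (2423, -3183, 5143)])
    (P := [⟨-10291200, -480, 0⟩, ⟨10475520, 480, 0⟩, ⟨-81192960, -2423, 3183⟩, ⟨157992960, 2423, -3183⟩]) rfl rfl
    (List.mem_of_getElem? (i := 169) rfl) TB_fr TB_cov ?_
  · intro X Y h
    simp only [List.forall_mem_cons, List.not_mem_nil, false_imp_iff, implies_true, and_true] at h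
    push_cast at h ⊢
    obtain ⟨h0, h1, h2, h3⟩ := h
    refine ⟨⟨?_, ?_⟩, ?_, ?_⟩ <;> linarith

theorem TB_rg170 : ROK [.q ⟨-2, -8, 10, 0⟩ ⟨-18, 8, 10, 0⟩, .q ⟨1, 9, -10, 0⟩ ⟨-19, 9, 10, 0⟩, .q ⟨18, -8, -10, 0⟩ ⟨4061, 709, -864, -3906⟩, .q ⟨19, -9, -10, 0⟩ ⟨4061, 709, -864, -3906⟩, .q ⟨18, -8, -10, 0⟩ ⟨-3438, 1213, -1488, 3713⟩, .q ⟨19, -9, -10, 0⟩ ⟨-3438, 1213, -1488, 3713⟩, .q ⟨18, -8, -10, 0⟩ ⟨4040, 87, -129, -3998⟩, .q ⟨19, -9, -10, 0⟩ ⟨4040, 87, -129, -3998⟩] := by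
  refine rok_bs (s := -1) (nlo := 8) (nhi := 9) (q := 10) (by decide) (by decide) (by decide) (by decide) (k := 1) (by decide) (Q := [(-864, 3906, -709), (-1488, -3713, -1213), (-129, 3998, -87)])
    (P := [⟨-245760, -10, 0⟩, ⟨276480, 10, 0⟩, ⟨-21780480, -864, 3906⟩, ⟨-37263360, -1488, -3713⟩, ⟨-2672640, -129, 3998⟩]) rfl rfl
    (List.mem_of_getElem? (i := 170) rfl) TB_fr TB_cov ?_
  · intro X Y h
    simp only [List.forall_mem_cons, List.not_mem_nil, false_imp_iff, implies_true, and_true] at h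
    push_cast at h ⊢
    obtain ⟨h0, h1, h2, h3, h4⟩ := h
    refine ⟨⟨?_, ?_⟩, ?_, ?_⟩ <;> linarith

theorem TB_rg171 : ROK [.q ⟨-22, -18, 40, 0⟩ ⟨-58, 18, 40, 0⟩, .q ⟨19, 21, -40, 0⟩ ⟨-61, 21, 40, 0⟩, .q ⟨58, -18, -40, 0⟩ ⟨14598, -9106, -2069, -3423⟩, .q ⟨61, -21, -40, 0⟩ ⟨14598, -9106, -2069, -3423⟩, .q ⟨58, -18, -40, 0⟩ ⟨7442, -9077, -1890, 3525⟩, .q ⟨61, -21, -40, 0⟩ ⟨7442, -9077, -1890, 3525⟩, .q ⟨58, -18, -40, 0⟩ ⟨2726, 2845, -3276, -2295⟩, .q ⟨61, -21, -40, 0⟩ ⟨2726, 2845, -3276, -2295⟩, .q ⟨58, -18, -40, 0⟩ ⟨1241, 944, -3701, 1516⟩, .q ⟨61, -21, -40, 0⟩ ⟨1241, 944, -3701, 1516⟩] := by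
  refine rok_bs (s := -1) (nlo := 18) (nhi := 21) (q := 40) (by decide) (by decide) (by decide) (by decide) (k := 1) (by decide) (Q := [(-2069, 3423, 9106), (-1890, -3525, 9077), (-3276, 2295, -2845), (-3701, -1516, -944)])
    (P := [⟨-552960, -40, 0⟩, ⟨645120, 40, 0⟩, ⟨279736320, -2069, 3423⟩, ⟨278845440, -1890, -3525⟩, ⟨-87398400, -3276, 2295⟩, ⟨-28999680, -3701, -1516⟩]) rfl rfl
    (List.mem_of_getElem? (i := 171) rfl) TB_fr TB_cov ?_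
  · intro X Y h
    simp only [List.forall_mem_cons, List.not_mem_nil, false_imp_iff, implies_true, and_true] at h
    push_cast at h ⊢
    obtain ⟨h0, h1, h2, h3, h4, h5⟩ := h
    refine ⟨⟨?_, ?_⟩, ?_, ?_⟩ <;> linarith

theorem TB_rg172 : ROK [.q ⟨-249, -231, 480, 0⟩ ⟨-711, 231, 480, 0⟩, .q ⟨244, 236, -480, 0⟩ ⟨-716, 236, 480, 0⟩, .q ⟨711, -231, -480, 0⟩ ⟨6341, -4341, 0, -2000⟩, .q ⟨716, -236, -480, 0⟩ ⟨6341, -4341, 0, -2000⟩, .q ⟨711, -231, -480, 0⟩ ⟨42, -181, -1343, 1482⟩, .q ⟨716, -236, -480, 0⟩ ⟨42, -181, -1343, 1482⟩, .q ⟨711, -231, -480, 0⟩ ⟨2585, 2619, -3710, -1494⟩, .q ⟨716, -236, -480, 0⟩ ⟨2585, 2619, -3710, -1494⟩] := by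
  refine rok_bs (s := -1) (nlo := 231) (nhi := 236) (q := 480) (by decide) (by decide) (by decide) (by decide) (k := 1) (by decide) (Q := [(0, 2000, 4341), (-1343, -1482, 181), (-3710, 1494, -2619)])
    (P := [⟨-7096320, -480, 0⟩, ⟨7249920, 480, 0⟩, ⟨133355520, 0, 2000⟩, ⟨5560320, -1343, -1482⟩, ⟨-80455680, -3710, 1494⟩]) rfl rfl
    (List.mem_of_getElem? (i := 172) rfl) TB_fr TB_cov ?_
  · intro X Y h
    simp only [List.forall_mem_cons, List.not_mem_nil, false_imp_iff, implies_true, and_true] at h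
    push_cast at h ⊢
    obtain ⟨h0, h1, h2, h3, h4⟩ := h
    refine ⟨⟨?_, ?_⟩, ?_, ?_⟩ <;> linarith

theorem TB_rg173 : ROK [.q ⟨-11, -69, 80, 0⟩ ⟨-149, 69, 80, 0⟩, .q ⟨8, 72, -80, 0⟩ ⟨-152, 72, 80, 0⟩, .q ⟨149, -69, -80, 0⟩ ⟨12273, -8273, 0, -4000⟩, .q ⟨152, -72, -80, 0⟩ ⟨12273, -8273, 0, -4000⟩, .q ⟨149, -69, -80, 0⟩ ⟨4013, -6013, 0, 2000⟩, .q ⟨152, -72, -80, 0⟩ ⟨4013, -6013, 0, 2000⟩, .q ⟨149, -69, -80, 0⟩ ⟨4067, 372, -466, -3973⟩, .q ⟨152, -72, -80, 0⟩ ⟨4067, 372, -466, -3973⟩, .q ⟨149, -69, -80, 0⟩ ⟨-3443, 1124, -1420, 3739⟩, .q ⟨152, -72, -80, 0⟩ ⟨-3443, 1124, -1420, 3739⟩] := by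
  refine rok_bs (s := -1) (nlo := 69) (nhi := 72) (q := 80) (by decide) (by decide) (by decide) (by decide) (k := 1) (by decide) (Q := [(0, 4000, 8273), (0, -2000, 6013), (-466, 3973, -372), (-1420, -3739, -1124)])
    (P := [⟨-2119680, -80, 0⟩, ⟨2211840, 80, 0⟩, ⟨254146560, 0, 4000⟩, ⟨184719360, 0, -2000⟩, ⟨-11427840, -466, 3973⟩, ⟨-34529280, -1420, -3739⟩]) rfl rfl
    (List.mem_of_getElem? (i := 173) rfl) TB_fr TB_cov ?_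
  · intro X Y h
    simp only [List.forall_mem_cons, List.not_mem_nil, false_imp_iff, implies_true, and_true] at h
    push_cast at h ⊢
    obtain ⟨h0, h1, h2, h3, h4, h5⟩ := h
    refine ⟨⟨?_, ?_⟩, ?_, ?_⟩ <;> linarith

theorem TB_rg174 : ROK [.q ⟨-3, -17, 20, 0⟩ ⟨-37, 17, 20, 0⟩, .q ⟨1, 19, -20, 0⟩ ⟨-39, 19, 20, 0⟩, .q ⟨37, -17, -20, 0⟩ ⟨1013, -13, 0, -1000⟩, .q ⟨39, -19, -20, 0⟩ ⟨1013, -13, 0, -1000⟩, .q ⟨37, -17, -20, 0⟩ ⟨-3441, 1068, -1381, 3754⟩, .q ⟨39, -19, -20, 0⟩ ⟨-3441, 1068, -1381, 3754⟩, .q ⟨37, -17, -20, 0⟩ ⟨1922, 3304, -3695, -1531⟩, .q ⟨39, -19, -20, 0⟩ ⟨1922, 3304, -3695, -1531⟩] := by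
  refine rok_bs (s := -1) (nlo := 17) (nhi := 19) (q := 20) (by decide) (by decide) (by decide) (by decide) (k := 1) (by decide) (Q := [(0, 1000, 13), (-1381, -3754, -1068), (-3695, 1531, -3304)])
    (P := [⟨-522240, -20, 0⟩, ⟨583680, 20, 0⟩, ⟨399360, 0, 1000⟩, ⟨-32808960, -1381, -3754⟩, ⟨-101498880, -3695, 1531⟩]) rfl rfl
    (List.mem_of_getElem? (i := 174) rfl) TB_fr TB_cov ?_
  · intro X Y h
    simp only [List.forall_mem_cons, List.not_mem_nil, false_imp_iff, implies_true, and_true] at h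
    push_cast at h ⊢
    obtain ⟨h0, h1, h2, h3, h4⟩ := h
    refine ⟨⟨?_, ?_⟩, ?_, ?_⟩ <;> linarith

theorem TB_rg175 : ROK [.q ⟨-6, -14, 20, 0⟩ ⟨-34, 14, 20, 0⟩, .q ⟨5, 15, -20, 0⟩ ⟨-35, 15, 20, 0⟩, .q ⟨34, -14, -20, 0⟩ ⟨13693, -12619, 2240, -3314⟩, .q ⟨35, -15, -20, 0⟩ ⟨13693, -12619, 2240, -3314⟩, .q ⟨34, -14, -20, 0⟩ ⟨-86, -5036, 1361, 3761⟩, .q ⟨35, -15, -20, 0⟩ ⟨-86, -5036, 1361, 3761⟩, .q ⟨34, -14, -20, 0⟩ ⟨1289, 1507, -1612, -1184⟩, .q ⟨35, -15, -20, 0⟩ ⟨1289, 1507, -1612, -1184⟩] := by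
  refine rok_bs (s := -1) (nlo := 14) (nhi := 15) (q := 20) (by decide) (by decide) (by decide) (by decide) (k := 1) (by decide) (Q := [(2240, 3314, 12619), (1361, -3761, 5036), (-1612, 1184, -1507)])
    (P := [⟨-430080, -20, 0⟩, ⟨460800, 20, 0⟩, ⟨387655680, 2240, 3314⟩, ⟨154705920, 1361, -3761⟩, ⟨-46295040, -1612, 1184⟩]) rfl rfl
    (List.mem_of_getElem? (i := 175) rfl) TB_fr TB_cov ?_
  · intro X Y h
    simp only [List.forall_mem_cons, List.not_mem_nil, false_imp_iff, implies_true, and_true] at h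
    push_cast at h ⊢
    obtain ⟨h0, h1, h2, h3, h4⟩ := h
    refine ⟨⟨?_, ?_⟩, ?_, ?_⟩ <;> linarith

theorem TB_rg176 : ROK [.q ⟨-4, -36, 40, 0⟩ ⟨-76, 36, 40, 0⟩, .q ⟨1, 39, -40, 0⟩ ⟨-79, 39, 40, 0⟩, .q ⟨76, -36, -40, 0⟩ ⟨1013, -13, 0, -1000⟩, .q ⟨79, -39, -40, 0⟩ ⟨1013, -13, 0, -1000⟩, .q ⟨76, -36, -40, 0⟩ ⟨-3673, 353, -630, 3950⟩, .q ⟨79, -39, -40, 0⟩ ⟨-3673, 353, -630, 3950⟩] := by
  refine rok_bs (s := -1) (nlo := 36) (nhi := 39) (q := 40) (by decide) (by decide) (by decide) (by decide) (k := 1) (by decide) (Q := [(0, 1000, 13), (-630, -3950, -353)])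
    (P := [⟨-1105920, -40, 0⟩, ⟨1198080, 40, 0⟩, ⟨399360, 0, 1000⟩, ⟨-10844160, -630, -3950⟩]) rfl rfl
    (List.mem_of_getElem? (i := 176) rfl) TB_fr TB_cov ?_
  · intro X Y h
    simp only [List.forall_mem_cons, List.not_mem_nil, false_imp_iff, implies_true, and_true] at h
    push_cast at h ⊢
    obtain ⟨h0, h1, h2, h3⟩ := h
    refine ⟨⟨?_, ?_⟩, ?_, ?_⟩ <;> linarith

theorem TB_rg177 : ROK [.q ⟨-3, -17, 20, 0⟩ ⟨-37, 17, 20, 0⟩, .q ⟨1, 19, -20, 0⟩ ⟨-39, 19, 20, 0⟩, .q ⟨37, -17, -20, 0⟩ ⟨1013, -13, 0, -1000⟩, .q ⟨39, -19, -20, 0⟩ ⟨1013, -13, 0, -1000⟩, .q ⟨37, -17, -20, 0⟩ ⟨-1606, 767, -931, 1770⟩, .q ⟨39, -19, -20, 0⟩ ⟨-1606, 767, -931, 1770⟩, .q ⟨37, -17, -20, 0⟩ ⟨3820, 1525, -1746, -3599⟩, .q ⟨39, -19, -20, 0⟩ ⟨3820, 1525, -1746, -3599⟩] := by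
  refine rok_bs (s := -1) (nlo := 17) (nhi := 19) (q := 20) (by decide) (by decide) (by decide) (by decide) (k := 1) (by decide) (Q := [(0, 1000, 13), (-931, -1770, -767), (-1746, 3599, -1525)])
    (P := [⟨-522240, -20, 0⟩, ⟨583680, 20, 0⟩, ⟨399360, 0, 1000⟩, ⟨-23562240, -931, -1770⟩, ⟨-46848000, -1746, 3599⟩]) rfl rfl
    (List.mem_of_getElem? (i := 177) rfl) TB_fr TB_cov ?_
  · intro X Y h
    simp only [List.forall_mem_cons, List.not_mem_nil, false_imp_iff, implies_true, and_true] at h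
    push_cast at h ⊢
    obtain ⟨h0, h1, h2, h3, h4⟩ := h
    refine ⟨⟨?_, ?_⟩, ?_, ?_⟩ <;> linarith

theorem TB_rg178 : ROK [.q ⟨-80, -400, 480, 0⟩ ⟨-880, 400, 480, 0⟩, .q ⟨73, 407, -480, 0⟩ ⟨-887, 407, 480, 0⟩, .q ⟨880, -400, -480, 0⟩ ⟨4019, -19, 0, -4000⟩, .q ⟨887, -407, -480, 0⟩ ⟨4019, -19, 0, -4000⟩, .q ⟨880, -400, -480, 0⟩ ⟨-124, -1, 0, 125⟩, .q ⟨887, -407, -480, 0⟩ ⟨-124, -1, 0, 125⟩, .q ⟨880, -400, -480, 0⟩ ⟨4019, 1027, -1244, -3802⟩, .q ⟨887, -407, -480, 0⟩ ⟨4019, 1027, -1244, -3802⟩] := by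
  refine rok_bs (s := -1) (nlo := 400) (nhi := 407) (q := 480) (by decide) (by decide) (by decide) (by decide) (k := 1) (by decide) (Q := [(0, 4000, 19), (0, -125, 1), (-1244, 3802, -1027)])
    (P := [⟨-12288000, -480, 0⟩, ⟨12503040, 480, 0⟩, ⟨583680, 0, 4000⟩, ⟨30720, 0, -125⟩, ⟨-31549440, -1244, 3802⟩]) rfl rfl
    (List.mem_of_getElem? (i := 178) rfl) TB_fr TB_cov ?_
  · intro X Y h
    simp only [List.forall_mem_cons, List.not_mem_nil, false_imp_iff, implies_true, and_true] at h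
    push_cast at h ⊢
    obtain ⟨h0, h1, h2, h3, h4⟩ := h
    refine ⟨⟨?_, ?_⟩, ?_, ?_⟩ <;> linarith

theorem TB_rg179 : ROK [.q ⟨-11, -69, 80, 0⟩ ⟨-149, 69, 80, 0⟩, .q ⟨8, 72, -80, 0⟩ ⟨-152, 72, 80, 0⟩, .q ⟨149, -69, -80, 0⟩ ⟨3229, -2229, 0, -1000⟩, .q ⟨152, -72, -80, 0⟩ ⟨3229, -2229, 0, -1000⟩, .q ⟨149, -69, -80, 0⟩ ⟨3323, -5323, 0, 2000⟩, .q ⟨152, -72, -80, 0⟩ ⟨3323, -5323, 0, 2000⟩, .q ⟨149, -69, -80, 0⟩ ⟨4067, 457, -564, -3960⟩, .q ⟨152, -72, -80, 0⟩ ⟨4067, 457, -564, -3960⟩, .q ⟨149, -69, -80, 0⟩ ⟨-2002, 2716, -3163, 2449⟩, .q ⟨152, -72, -80, 0⟩ ⟨-2002, 2716, -3163, 2449⟩] := by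
  refine rok_bs (s := -1) (nlo := 69) (nhi := 72) (q := 80) (by decide) (by decide) (by decide) (by decide) (k := 1) (by decide) (Q := [(0, 1000, 2229), (0, -2000, 5323), (-564, 3960, -457), (-3163, -2449, -2716)])
    (P := [⟨-2119680, -80, 0⟩, ⟨2211840, 80, 0⟩, ⟨68474880, 0, 1000⟩, ⟨163522560, 0, -2000⟩, ⟨-14039040, -564, 3960⟩, ⟨-83435520, -3163, -2449⟩]) rfl rfl
    (List.mem_of_getElem? (i := 179) rfl) TB_fr TB_cov ?_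
  · intro X Y h
    simp only [List.forall_mem_cons, List.not_mem_nil, false_imp_iff, implies_true, and_true] at h
    push_cast at h ⊢
    obtain ⟨h0, h1, h2, h3, h4, h5⟩ := h
    refine ⟨⟨?_, ?_⟩, ?_, ?_⟩ <;> linarith

theorem TB_rg180 : ROK [.q ⟨-1, -479, 480, 0⟩ ⟨-959, 479, 480, 0⟩, .q ⟨-8, 488, -480, 0⟩ ⟨-968, 488, 480, 0⟩, .q ⟨959, -479, -480, 0⟩ ⟨3371, 629, 0, -4000⟩, .q ⟨968, -488, -480, 0⟩ ⟨3371, 629, 0, -4000⟩, .q ⟨959, -479, -480, 0⟩ ⟨199, -1199, 0, 1000⟩, .q ⟨968, -488, -480, 0⟩ ⟨199, -1199, 0, 1000⟩, .q ⟨959, -479, -480, 0⟩ ⟨2883, -1575, 2098, -3406⟩, .q ⟨968, -488, -480, 0⟩ ⟨2883, -1575, 2098, -3406⟩] := by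
  refine rok_bs (s := -1) (nlo := 479) (nhi := 488) (q := 480) (by decide) (by decide) (by decide) (by decide) (k := 1) (by decide) (Q := [(0, 4000, -629), (0, -1000, 1199), (2098, 3406, 1575)])
    (P := [⟨-14714880, -480, 0⟩, ⟨14991360, 480, 0⟩, ⟨-19322880, 0, 4000⟩, ⟨36833280, 0, -1000⟩, ⟨48384000, 2098, 3406⟩]) rfl rfl
    (List.mem_of_getElem? (i := 180) rfl) TB_fr TB_cov ?_
  · intro X Y h
    simp only [List.forall_mem_cons, List.not_mem_nil, false_imp_iff, implies_true, and_true] at h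
    push_cast at h ⊢
    obtain ⟨h0, h1, h2, h3, h4⟩ := h
    refine ⟨⟨?_, ?_⟩, ?_, ?_⟩ <;> linarith

theorem TB_rg181 : ROK [.q ⟨-14, -66, 80, 0⟩ ⟨-146, 66, 80, 0⟩, .q ⟨11, 69, -80, 0⟩ ⟨-149, 69, 80, 0⟩, .q ⟨146, -66, -80, 0⟩ ⟨4042, 97, -141, -3998⟩, .q ⟨149, -69, -80, 0⟩ ⟨4042, 97, -141, -3998⟩, .q ⟨146, -66, -80, 0⟩ ⟨-2883, 1904, -2296, 3275⟩, .q ⟨149, -69, -80, 0⟩ ⟨-2883, 1904, -2296, 3275⟩, .q ⟨146, -66, -80, 0⟩ ⟨3869, 1506, -1806, -3569⟩, .q ⟨149, -69, -80, 0⟩ ⟨3869, 1506, -1806, -3569⟩] := by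
  refine rok_bs (s := -1) (nlo := 66) (nhi := 69) (q := 80) (by decide) (by decide) (by decide) (by decide) (k := 1) (by decide) (Q := [(-141, 3998, -97), (-2296, -3275, -1904), (-1806, 3569, -1506)])
    (P := [⟨-2027520, -80, 0⟩, ⟨2119680, 80, 0⟩, ⟨-2979840, -141, 3998⟩, ⟨-58490880, -2296, -3275⟩, ⟨-46264320, -1806, 3569⟩]) rfl rfl
    (List.mem_of_getElem? (i := 181) rfl) TB_fr TB_cov ?_
  · intro X Y h
    simp only [List.forall_mem_cons, List.not_mem_nil, false_imp_iff, implies_true, and_true] at h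
    push_cast at h ⊢
    obtain ⟨h0, h1, h2, h3, h4⟩ := h
    refine ⟨⟨?_, ?_⟩, ?_, ?_⟩ <;> linarith

theorem TB_rg182 : ROK [.q ⟨-266, -214, 480, 0⟩ ⟨-694, 214, 480, 0⟩, .q ⟨259, 221, -480, 0⟩ ⟨-701, 221, 480, 0⟩, .q ⟨694, -214, -480, 0⟩ ⟨93, 707, 0, -800⟩, .q ⟨701, -221, -480, 0⟩ ⟨93, 707, 0, -800⟩, .q ⟨694, -214, -480, 0⟩ ⟨-2, -23, 0, 25⟩, .q ⟨701, -221, -480, 0⟩ ⟨-2, -23, 0, 25⟩] := by
  refine rok_bs (s := -1) (nlo := 214) (nhi := 221) (q := 480) (by decide) (by decide) (by decide) (by decide) (k := 1) (by decide) (Q := [(0, 800, -707), (0, -25, 23)])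
    (P := [⟨-6574080, -480, 0⟩, ⟨6789120, 480, 0⟩, ⟨-21719040, 0, 800⟩, ⟨706560, 0, -25⟩]) rfl rfl
    (List.mem_of_getElem? (i := 182) rfl) TB_fr TB_cov ?_
  · intro X Y h
    simp only [List.forall_mem_cons, List.not_mem_nil, false_imp_iff, implies_true, and_true] at h
    push_cast at h ⊢
    obtain ⟨h0, h1, h2, h3⟩ := h
    refine ⟨⟨?_, ?_⟩, ?_, ?_⟩ <;> linarith

theorem TB_rg183 : ROK [.q ⟨-12, -28, 40, 0⟩ ⟨-68, 28, 40, 0⟩, .q ⟨9, 31, -40, 0⟩ ⟨-71, 31, 40, 0⟩, .q ⟨68, -28, -40, 0⟩ ⟨3033, 967, 0, -4000⟩, .q ⟨71, -31, -40, 0⟩ ⟨3033, 967, 0, -4000⟩, .q ⟨68, -28, -40, 0⟩ ⟨-569, -231, 0, 800⟩, .q ⟨71, -31, -40, 0⟩ ⟨-569, -231, 0, 800⟩, .q ⟨68, -28, -40, 0⟩ ⟨2316, -338, 1661, -3639⟩, .q ⟨71, -31, -40, 0⟩ ⟨2316, -338, 1661, -3639⟩] := by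
  refine rok_bs (s := -1) (nlo := 28) (nhi := 31) (q := 40) (by decide) (by decide) (by decide) (by decide) (k := 1) (by decide) (Q := [(0, 4000, -967), (0, -800, 231), (1661, 3639, 338)])
    (P := [⟨-860160, -40, 0⟩, ⟨952320, 40, 0⟩, ⟨-29706240, 0, 4000⟩, ⟨7096320, 0, -800⟩, ⟨10383360, 1661, 3639⟩]) rfl rfl
    (List.mem_of_getElem? (i := 183) rfl) TB_fr TB_cov ?_
  · intro X Y h
    simp only [List.forall_mem_cons, List.not_mem_nil, false_imp_iff, implies_true, and_true] at h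
    push_cast at h ⊢
    obtain ⟨h0, h1, h2, h3, h4⟩ := h
    refine ⟨⟨?_, ?_⟩, ?_, ?_⟩ <;> linarith

theorem TB_rg184 : ROK [.q ⟨-2, -238, 240, 0⟩ ⟨-478, 238, 240, 0⟩, .q ⟨-3, 243, -240, 0⟩ ⟨-483, 243, 240, 0⟩, .q ⟨478, -238, -240, 0⟩ ⟨3368, 792, -163, -3997⟩, .q ⟨483, -243, -240, 0⟩ ⟨3368, 792, -163, -3997⟩, .q ⟨478, -238, -240, 0⟩ ⟨724, -2690, -1669, 3635⟩, .q ⟨483, -243, -240, 0⟩ ⟨724, -2690, -1669, 3635⟩, .q ⟨478, -238, -240, 0⟩ ⟨1985, -2908, 3252, -2329⟩, .q ⟨483, -243, -240, 0⟩ ⟨1985, -2908, 3252, -2329⟩] := by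
  refine rok_bs (s := -1) (nlo := 238) (nhi := 243) (q := 240) (by decide) (by decide) (by decide) (by decide) (k := 1) (by decide) (Q := [(-163, 3997, -792), (-1669, -3635, 2690), (3252, 2329, 2908)])
    (P := [⟨-7311360, -240, 0⟩, ⟨7464960, 240, 0⟩, ⟨-24330240, -163, 3997⟩, ⟨82636800, -1669, -3635⟩, ⟨89333760, 3252, 2329⟩]) rfl rfl
    (List.mem_of_getElem? (i := 184) rfl) TB_fr TB_cov ?_
  · intro X Y h
    simp only [List.forall_mem_cons, List.not_mem_nil, false_imp_iff, implies_true, and_true] at h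
    push_cast at h ⊢
    obtain ⟨h0, h1, h2, h3, h4⟩ := h
    refine ⟨⟨?_, ?_⟩, ?_, ?_⟩ <;> linarith

theorem TB_rg185 : ROK [.q ⟨-1, -19, 20, 0⟩ ⟨-39, 19, 20, 0⟩, .q ⟨-2, 22, -20, 0⟩ ⟨-42, 22, 20, 0⟩, .q ⟨39, -19, -20, 0⟩ ⟨2782, -1643, 2201, -3340⟩, .q ⟨42, -22, -20, 0⟩ ⟨2782, -1643, 2201, -3340⟩, .q ⟨39, -19, -20, 0⟩ ⟨7925, -9064, -2201, 3340⟩, .q ⟨42, -22, -20, 0⟩ ⟨7925, -9064, -2201, 3340⟩, .q ⟨39, -19, -20, 0⟩ ⟨2384, 3272, -2871, -2785⟩, .q ⟨42, -22, -20, 0⟩ ⟨2384, 3272, -2871, -2785⟩, .q ⟨39, -19, -20, 0⟩ ⟨-1618, -3931, 3324, 2225⟩, .q ⟨42, -22, -20, 0⟩ ⟨-1618, -3931, 3324, 2225⟩] := by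
  refine rok_bs (s := -1) (nlo := 19) (nhi := 22) (q := 20) (by decide) (by decide) (by decide) (by decide) (k := 1) (by decide) (Q := [(2201, 3340, 1643), (-2201, -3340, 9064), (-2871, 2785, -3272), (3324, -2225, 3931)])
    (P := [⟨-583680, -20, 0⟩, ⟨675840, 20, 0⟩, ⟨50472960, 2201, 3340⟩, ⟨278446080, -2201, -3340⟩, ⟨-100515840, -2871, 2785⟩, ⟨120760320, 3324, -2225⟩]) rfl rfl
    (List.mem_of_getElem? (i := 185) rfl) TB_fr TB_cov ?_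
  · intro X Y h
    simp only [List.forall_mem_cons, List.not_mem_nil, false_imp_iff, implies_true, and_true] at h
    push_cast at h ⊢
    obtain ⟨h0, h1, h2, h3, h4, h5⟩ := h
    refine ⟨⟨?_, ?_⟩, ?_, ?_⟩ <;> linarith

theorem TB_rg186 : ROK [.q ⟨-13, -67, 80, 0⟩ ⟨-147, 67, 80, 0⟩, .q ⟨10, 70, -80, 0⟩ ⟨-150, 70, 80, 0⟩, .q ⟨147, -67, -80, 0⟩ ⟨14965, -13969, 2286, -3282⟩, .q ⟨150, -70, -80, 0⟩ ⟨14965, -13969, 2286, -3282⟩, .q ⟨147, -67, -80, 0⟩ ⟨-2891, 1895, -2286, 3282⟩, .q ⟨150, -70, -80, 0⟩ ⟨-2891, 1895, -2286, 3282⟩, .q ⟨147, -67, -80, 0⟩ ⟨2024, 95, -123, -1996⟩, .q ⟨150, -70, -80, 0⟩ ⟨2024, 95, -123, -1996⟩] := by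
  refine rok_bs (s := -1) (nlo := 67) (nhi := 70) (q := 80) (by decide) (by decide) (by decide) (by decide) (k := 1) (by decide) (Q := [(2286, 3282, 13969), (-2286, -3282, -1895), (-123, 1996, -95)])
    (P := [⟨-2058240, -80, 0⟩, ⟨2150400, 80, 0⟩, ⟨429127680, 2286, 3282⟩, ⟨-58214400, -2286, -3282⟩, ⟨-2918400, -123, 1996⟩]) rfl rfl
    (List.mem_of_getElem? (i := 186) rfl) TB_fr TB_cov ?_
  · intro X Y h
    simp only [List.forall_mem_cons, List.not_mem_nil, false_imp_iff, implies_true, and_true] at h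
    push_cast at h ⊢
    obtain ⟨h0, h1, h2, h3, h4⟩ := h
    refine ⟨⟨?_, ?_⟩, ?_, ?_⟩ <;> linarith

theorem TB_rg187 : ROK [.q ⟨-7, -33, 40, 0⟩ ⟨-73, 33, 40, 0⟩, .q ⟨4, 36, -40, 0⟩ ⟨-76, 36, 40, 0⟩, .q ⟨73, -33, -40, 0⟩ ⟨4066, 475, -584, -3957⟩, .q ⟨76, -36, -40, 0⟩ ⟨4066, 475, -584, -3957⟩, .q ⟨73, -33, -40, 0⟩ ⟨-1746, 563, -693, 1876⟩, .q ⟨76, -36, -40, 0⟩ ⟨-1746, 563, -693, 1876⟩] := by
  refine rok_bs (s := -1) (nlo := 33) (nhi := 36) (q := 40) (by decide) (by decide) (by decide) (by decide) (k := 1) (by decide) (Q := [(-584, 3957, -475), (-693, -1876, -563)])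
    (P := [⟨-1013760, -40, 0⟩, ⟨1105920, 40, 0⟩, ⟨-14592000, -584, 3957⟩, ⟨-17295360, -693, -1876⟩]) rfl rfl
    (List.mem_of_getElem? (i := 187) rfl) TB_fr TB_cov ?_
  · intro X Y h
    simp only [List.forall_mem_cons, List.not_mem_nil, false_imp_iff, implies_true, and_true] at h
    push_cast at h ⊢
    obtain ⟨h0, h1, h2, h3⟩ := h
    refine ⟨⟨?_, ?_⟩, ?_, ?_⟩ <;> linarith

theorem TB_rg188 : ROK [.q ⟨-2, -78, 80, 0⟩ ⟨-158, 78, 80, 0⟩, .q ⟨-1, 81, -80, 0⟩ ⟨-161, 81, 80, 0⟩, .q ⟨158, -78, -80, 0⟩ ⟨3222, 1791, -1196, -3817⟩, .q ⟨161, -81, -80, 0⟩ ⟨3222, 1791, -1196, -3817⟩, .q ⟨158, -78, -80, 0⟩ ⟨622, -6090, 2011, 3457⟩, .q ⟨161, -81, -80, 0⟩ ⟨622, -6090, 2011, 3457⟩, .q ⟨158, -78, -80, 0⟩ ⟨3123, -943, 1520, -3700⟩, .q ⟨161, -81, -80, 0⟩ ⟨3123, -943, 1520, -3700⟩] := by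
  refine rok_bs (s := -1) (nlo := 78) (nhi := 81) (q := 80) (by decide) (by decide) (by decide) (by decide) (k := 1) (by decide) (Q := [(-1196, 3817, -1791), (2011, -3457, 6090), (1520, 3700, 943)])
    (P := [⟨-2396160, -80, 0⟩, ⟨2488320, 80, 0⟩, ⟨-55019520, -1196, 3817⟩, ⟨187084800, 2011, -3457⟩, ⟨28968960, 1520, 3700⟩]) rfl rfl
    (List.mem_of_getElem? (i := 188) rfl) TB_fr TB_cov ?_
  · intro X Y h
    simp only [List.forall_mem_cons, List.not_mem_nil, false_imp_iff, implies_true, and_true] at h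
    push_cast at h ⊢
    obtain ⟨h0, h1, h2, h3, h4⟩ := h
    refine ⟨⟨?_, ?_⟩, ?_, ?_⟩ <;> linarith

theorem TB_rg189 : ROK [.q ⟨-20, -20, 40, 0⟩ ⟨-60, 20, 40, 0⟩, .q ⟨17, 23, -40, 0⟩ ⟨-63, 23, 40, 0⟩, .q ⟨60, -20, -40, 0⟩ ⟨1256, -542, 2449, -3163⟩, .q ⟨63, -23, -40, 0⟩ ⟨1256, -542, 2449, -3163⟩, .q ⟨60, -20, -40, 0⟩ ⟨-516, -198, -2449, 3163⟩, .q ⟨63, -23, -40, 0⟩ ⟨-516, -198, -2449, 3163⟩, .q ⟨60, -20, -40, 0⟩ ⟨-1281, -913, -1510, 3704⟩, .q ⟨63, -23, -40, 0⟩ ⟨-1281, -913, -1510, 3704⟩] := by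
  refine rok_bs (s := -1) (nlo := 20) (nhi := 23) (q := 40) (by decide) (by decide) (by decide) (by decide) (k := 1) (by decide) (Q := [(2449, 3163, 542), (-2449, -3163, 198), (-1510, -3704, 913)])
    (P := [⟨-614400, -40, 0⟩, ⟨706560, 40, 0⟩, ⟨16650240, 2449, 3163⟩, ⟨6082560, -2449, -3163⟩, ⟨28047360, -1510, -3704⟩]) rfl rfl
    (List.mem_of_getElem? (i := 189) rfl) TB_fr TB_cov ?_
  · intro X Y h
    simp only [List.forall_mem_cons, List.not_mem_nil, false_imp_iff, implies_true, and_true] at h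
    push_cast at h ⊢
    obtain ⟨h0, h1, h2, h3, h4⟩ := h
    refine ⟨⟨?_, ?_⟩, ?_, ?_⟩ <;> linarith

theorem TB_rg190 : ROK [.q ⟨-3, -17, 20, 0⟩ ⟨-37, 17, 20, 0⟩, .q ⟨0, 20, -20, 0⟩ ⟨-40, 20, 20, 0⟩, .q ⟨37, -17, -20, 0⟩ ⟨3271, -1904, 2061, -3428⟩, .q ⟨40, -20, -20, 0⟩ ⟨3271, -1904, 2061, -3428⟩, .q ⟨37, -17, -20, 0⟩ ⟨-3534, 1049, -1298, 3783⟩, .q ⟨40, -20, -20, 0⟩ ⟨-3534, 1049, -1298, 3783⟩, .q ⟨37, -17, -20, 0⟩ ⟨4063, 521, -635, -3949⟩, .q ⟨40, -20, -20, 0⟩ ⟨4063, 521, -635, -3949⟩] := by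
  refine rok_bs (s := -1) (nlo := 17) (nhi := 20) (q := 20) (by decide) (by decide) (by decide) (by decide) (k := 1) (by decide) (Q := [(2061, 3428, 1904), (-1298, -3783, -1049), (-635, 3949, -521)])
    (P := [⟨-522240, -20, 0⟩, ⟨614400, 20, 0⟩, ⟨58490880, 2061, 3428⟩, ⟨-32225280, -1298, -3783⟩, ⟨-16005120, -635, 3949⟩]) rfl rfl
    (List.mem_of_getElem? (i := 190) rfl) TB_fr TB_cov ?_
  · intro X Y h
    simp only [List.forall_mem_cons, List.not_mem_nil, false_imp_iff, implies_true, and_true] at h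
    push_cast at h ⊢
    obtain ⟨h0, h1, h2, h3, h4⟩ := h
    refine ⟨⟨?_, ?_⟩, ?_, ?_⟩ <;> linarith

theorem TB_rg191 : ROK [.q ⟨-3, -17, 20, 0⟩ ⟨-37, 17, 20, 0⟩, .q ⟨0, 20, -20, 0⟩ ⟨-40, 20, 20, 0⟩, .q ⟨37, -17, -20, 0⟩ ⟨1667, 333, 0, -2000⟩, .q ⟨40, -20, -20, 0⟩ ⟨1667, 333, 0, -2000⟩, .q ⟨37, -17, -20, 0⟩ ⟨739, -2950, -1498, 3709⟩, .q ⟨40, -20, -20, 0⟩ ⟨739, -2950, -1498, 3709⟩, .q ⟨37, -17, -20, 0⟩ ⟨2535, 3121, -2856, -2800⟩, .q ⟨40, -20, -20, 0⟩ ⟨2535, 3121, -2856, -2800⟩] := by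
  refine rok_bs (s := -1) (nlo := 17) (nhi := 20) (q := 20) (by decide) (by decide) (by decide) (by decide) (k := 1) (by decide) (Q := [(0, 2000, -333), (-1498, -3709, 2950), (-2856, 2800, -3121)])
    (P := [⟨-522240, -20, 0⟩, ⟨614400, 20, 0⟩, ⟨-10229760, 0, 2000⟩, ⟨90624000, -1498, -3709⟩, ⟨-95877120, -2856, 2800⟩]) rfl rfl
    (List.mem_of_getElem? (i := 191) rfl) TB_fr TB_cov ?_
  · intro X Y h
    simp only [List.forall_mem_cons, List.not_mem_nil, false_imp_iff, implies_true, and_true] at h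
    push_cast at h ⊢
    obtain ⟨h0, h1, h2, h3, h4⟩ := h
    refine ⟨⟨?_, ?_⟩, ?_, ?_⟩ <;> linarith

end Pool.Agent.TET
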