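import Pool.Agent.Helper38_TET.TB_C

/-!
# MP_c7c9bf_co: certificates, family TB
-/

set_option autoImplicit false
set_option maxRecDepth 100000

namespace Pool.Agent.TET

theorem TB_rg192 : ROK [.q ⟨-12, -28, 40, 0⟩ ⟨-68, 28, 40, 0⟩, .q ⟨11, 29, -40, 0⟩ ⟨-69, 29, 40, 0⟩, .q ⟨68, -28, -40, 0⟩ ⟨13504, -8422, -1299, -3783⟩, .q ⟨69, -29, -40, 0⟩ ⟨13504, -8422, -1299, -3783⟩, .q ⟨68, -28, -40, 0⟩ ⟨-3034, -2048, 1299, 3783⟩, .q ⟨69, -29, -40, 0⟩ ⟨-3034, -2048, 1299, 3783⟩, .q ⟨68, -28, -40, 0⟩ ⟨3098, 1141, -247, -3992⟩, .q ⟨69, -29, -40, 0⟩ ⟨3098, 1141, -247, -3992⟩, .q ⟨68, -28, -40, 0⟩ ⟨-1082, 1251, -2912, 2743⟩, .q ⟨69, -29, -40, 0⟩ ⟨-1082, 1251, -2912, 2743⟩] := by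
  refine rok_bs (s := -1) (nlo := 28) (nhi := 29) (q := 40) (by decide) (by decide) (by decide) (by decide) (k := 1) (by decide) (Q := [(-1299, 3783, 8422), (1299, -3783, 2048), (-247, 3992, -1141), (-2912, -2743, -1251)])
    (P := [⟨-860160, -40, 0⟩, ⟨890880, 40, 0⟩, ⟨258723840, -1299, 3783⟩, ⟨62914560, 1299, -3783⟩, ⟨-35051520, -247, 3992⟩, ⟨-38430720, -2912, -2743⟩]) rfl rfl
    (List.mem_of_getElem? (i := 192) rfl) TB_fr TB_cov ?_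
  · intro X Y h
    simp only [List.forall_mem_cons, List.not_mem_nil, false_imp_iff, implies_true, and_true] at h
    push_cast at h ⊢
    obtain ⟨h0, h1, h2, h3, h4, h5⟩ := h
    refine ⟨⟨?_, ?_⟩, ?_, ?_⟩ <;> linarith

theorem TB_rg193 : ROK [.q ⟨-1, -239, 240, 0⟩ ⟨-479, 239, 240, 0⟩, .q ⟨-3, 243, -240, 0⟩ ⟨-483, 243, 240, 0⟩, .q ⟨479, -239, -240, 0⟩ ⟨3371, 629, 0, -4000⟩, .q ⟨483, -243, -240, 0⟩ ⟨3371, 629, 0, -4000⟩, .q ⟨479, -239, -240, 0⟩ ⟨3963, -5963, 0, 2000⟩, .q ⟨483, -243, -240, 0⟩ ⟨3963, -5963, 0, 2000⟩, .q ⟨479, -239, -240, 0⟩ ⟨2480, -2291, 2732, -2921⟩, .q ⟨483, -243, -240, 0⟩ ⟨2480, -2291, 2732, -2921⟩, .q ⟨479, -239, -240, 0⟩ ⟨791, -4426, -350, 3985⟩, .q ⟨483, -243, -240, 0⟩ ⟨791, -4426, -350, 3985⟩] := by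
  refine rok_bs (s := -1) (nlo := 239) (nhi := 243) (q := 240) (by decide) (by decide) (by decide) (by decide) (k := 1) (by decide) (Q := [(0, 4000, -629), (0, -2000, 5963), (2732, 2921, 2291), (-350, -3985, 4426)])
    (P := [⟨-7342080, -240, 0⟩, ⟨7464960, 240, 0⟩, ⟨-19322880, 0, 4000⟩, ⟨183183360, 0, -2000⟩, ⟨70379520, 2732, 2921⟩, ⟨135966720, -350, -3985⟩]) rfl rfl
    (List.mem_of_getElem? (i := 193) rfl) TB_fr TB_cov ?_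
  · intro X Y h
    simp only [List.forall_mem_cons, List.not_mem_nil, false_imp_iff, implies_true, and_true] at h
    push_cast at h ⊢
    obtain ⟨h0, h1, h2, h3, h4, h5⟩ := h
    refine ⟨⟨?_, ?_⟩, ?_, ?_⟩ <;> linarith

theorem TB_rg194 : ROK [.q ⟨-177, -143, 320, 0⟩ ⟨-463, 143, 320, 0⟩, .q ⟨175, 145, -320, 0⟩ ⟨-465, 145, 320, 0⟩, .q ⟨463, -143, -320, 0⟩ ⟨93, 707, 0, -800⟩, .q ⟨465, -145, -320, 0⟩ ⟨93, 707, 0, -800⟩, .q ⟨463, -143, -320, 0⟩ ⟨947, -2109, -2187, 3349⟩, .q ⟨465, -145, -320, 0⟩ ⟨947, -2109, -2187, 3349⟩] := by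
  refine rok_bs (s := -1) (nlo := 143) (nhi := 145) (q := 320) (by decide) (by decide) (by decide) (by decide) (k := 1) (by decide) (Q := [(0, 800, -707), (-2187, -3349, 2109)])
    (P := [⟨-4392960, -320, 0⟩, ⟨4454400, 320, 0⟩, ⟨-21719040, 0, 800⟩, ⟨64788480, -2187, -3349⟩]) rfl rfl
    (List.mem_of_getElem? (i := 194) rfl) TB_fr TB_cov ?_
  · intro X Y h
    simp only [List.forall_mem_cons, List.not_mem_nil, false_imp_iff, implies_true, and_true] at h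
    push_cast at h ⊢
    obtain ⟨h0, h1, h2, h3⟩ := h
    refine ⟨⟨?_, ?_⟩, ?_, ?_⟩ <;> linarith

theorem TB_rg195 : ROK [.q ⟨-21, -19, 40, 0⟩ ⟨-59, 19, 40, 0⟩, .q ⟨19, 21, -40, 0⟩ ⟨-61, 21, 40, 0⟩, .q ⟨59, -19, -40, 0⟩ ⟨192, 171, 2641, -3004⟩, .q ⟨61, -21, -40, 0⟩ ⟨192, 171, 2641, -3004⟩, .q ⟨59, -19, -40, 0⟩ ⟨1, -364, -2641, 3004⟩, .q ⟨61, -21, -40, 0⟩ ⟨1, -364, -2641, 3004⟩, .q ⟨59, -19, -40, 0⟩ ⟨2612, 2603, -3703, -1512⟩, .q ⟨61, -21, -40, 0⟩ ⟨2612, 2603, -3703, -1512⟩] := by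
  refine rok_bs (s := -1) (nlo := 19) (nhi := 21) (q := 40) (by decide) (by decide) (by decide) (by decide) (k := 1) (by decide) (Q := [(2641, 3004, -171), (-2641, -3004, 364), (-3703, 1512, -2603)])
    (P := [⟨-583680, -40, 0⟩, ⟨645120, 40, 0⟩, ⟨-5253120, 2641, 3004⟩, ⟨11182080, -2641, -3004⟩, ⟨-79964160, -3703, 1512⟩]) rfl rfl
    (List.mem_of_getElem? (i := 195) rfl) TB_fr TB_cov ?_
  · intro X Y h
    simp only [List.forall_mem_cons, List.not_mem_nil, false_imp_iff, implies_true, and_true] at h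
    push_cast at h ⊢
    obtain ⟨h0, h1, h2, h3, h4⟩ := h
    refine ⟨⟨?_, ?_⟩, ?_, ?_⟩ <;> linarith

theorem TB_rg196 : ROK [.q ⟨-11, -69, 80, 0⟩ ⟨-149, 69, 80, 0⟩, .q ⟨7, 73, -80, 0⟩ ⟨-153, 73, 80, 0⟩, .q ⟨149, -69, -80, 0⟩ ⟨15623, -10646, -1144, -3833⟩, .q ⟨153, -73, -80, 0⟩ ⟨15623, -10646, -1144, -3833⟩, .q ⟨149, -69, -80, 0⟩ ⟨-2957, 1798, -2189, 3348⟩, .q ⟨153, -73, -80, 0⟩ ⟨-2957, 1798, -2189, 3348⟩, .q ⟨149, -69, -80, 0⟩ ⟨2023, 327, -388, -1962⟩, .q ⟨153, -73, -80, 0⟩ ⟨2023, 327, -388, -1962⟩] := by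
  refine rok_bs (s := -1) (nlo := 69) (nhi := 73) (q := 80) (by decide) (by decide) (by decide) (by decide) (k := 1) (by decide) (Q := [(-1144, 3833, 10646), (-2189, -3348, -1798), (-388, 1962, -327)])
    (P := [⟨-2119680, -80, 0⟩, ⟨2242560, 80, 0⟩, ⟨327045120, -1144, 3833⟩, ⟨-55234560, -2189, -3348⟩, ⟨-10045440, -388, 1962⟩]) rfl rfl
    (List.mem_of_getElem? (i := 196) rfl) TB_fr TB_cov ?_
  · intro X Y h
    simp only [List.forall_mem_cons, List.not_mem_nil, false_imp_iff, implies_true, and_true] at h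
    push_cast at h ⊢
    obtain ⟨h0, h1, h2, h3, h4⟩ := h
    refine ⟨⟨?_, ?_⟩, ?_, ?_⟩ <;> linarith

theorem TB_rg197 : ROK [.q ⟨-2, -8, 10, 0⟩ ⟨-18, 8, 10, 0⟩, .q ⟨1, 9, -10, 0⟩ ⟨-19, 9, 10, 0⟩, .q ⟨18, -8, -10, 0⟩ ⟨4067, 437, -541, -3963⟩, .q ⟨19, -9, -10, 0⟩ ⟨4067, 437, -541, -3963⟩, .q ⟨18, -8, -10, 0⟩ ⟨-2840, 1957, -2352, 3235⟩, .q ⟨19, -9, -10, 0⟩ ⟨-2840, 1957, -2352, 3235⟩] := by
  refine rok_bs (s := -1) (nlo := 8) (nhi := 9) (q := 10) (by decide) (by decide) (by decide) (by decide) (k := 1) (by decide) (Q := [(-541, 3963, -437), (-2352, -3235, -1957)])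
    (P := [⟨-245760, -10, 0⟩, ⟨276480, 10, 0⟩, ⟨-13424640, -541, 3963⟩, ⟨-60119040, -2352, -3235⟩]) rfl rfl
    (List.mem_of_getElem? (i := 197) rfl) TB_fr TB_cov ?_
  · intro X Y h
    simp only [List.forall_mem_cons, List.not_mem_nil, false_imp_iff, implies_true, and_true] at h
    push_cast at h ⊢
    obtain ⟨h0, h1, h2, h3⟩ := h
    refine ⟨⟨?_, ?_⟩, ?_, ?_⟩ <;> linarith

theorem TB_rg198 : ROK [.q ⟨-1, -79, 80, 0⟩ ⟨-159, 79, 80, 0⟩, .q ⟨-2, 82, -80, 0⟩ ⟨-162, 82, 80, 0⟩, .q ⟨159, -79, -80, 0⟩ ⟨3269, 1603, -999, -3873⟩, .q ⟨162, -82, -80, 0⟩ ⟨3269, 1603, -999, -3873⟩, .q ⟨159, -79, -80, 0⟩ ⟨749, -3149, -1361, 3761⟩, .q ⟨162, -82, -80, 0⟩ ⟨749, -3149, -1361, 3761⟩, .q ⟨159, -79, -80, 0⟩ ⟨3151, -850, 1433, -3734⟩, .q ⟨162, -82, -80, 0⟩ ⟨3151, -850, 1433, -3734⟩] := by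
  refine rok_bs (s := -1) (nlo := 79) (nhi := 82) (q := 80) (by decide) (by decide) (by decide) (by decide) (k := 1) (by decide) (Q := [(-999, 3873, -1603), (-1361, -3761, 3149), (1433, 3734, 850)])
    (P := [⟨-2426880, -80, 0⟩, ⟨2519040, 80, 0⟩, ⟨-49244160, -999, 3873⟩, ⟨96737280, -1361, -3761⟩, ⟨26112000, 1433, 3734⟩]) rfl rfl
    (List.mem_of_getElem? (i := 198) rfl) TB_fr TB_cov ?_
  · intro X Y h
    simp only [List.forall_mem_cons, List.not_mem_nil, false_imp_iff, implies_true, and_true] at h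
    push_cast at h ⊢
    obtain ⟨h0, h1, h2, h3, h4⟩ := h
    refine ⟨⟨?_, ?_⟩, ?_, ?_⟩ <;> linarith

theorem TB_rg199 : ROK [.q ⟨-6, -14, 20, 0⟩ ⟨-34, 14, 20, 0⟩, .q ⟨3, 17, -20, 0⟩ ⟨-37, 17, 20, 0⟩, .q ⟨34, -14, -20, 0⟩ ⟨3030, 1128, -161, -3997⟩, .q ⟨37, -17, -20, 0⟩ ⟨3030, 1128, -161, -3997⟩, .q ⟨34, -14, -20, 0⟩ ⟨42, -636, 23, 571⟩, .q ⟨37, -17, -20, 0⟩ ⟨42, -636, 23, 571⟩, .q ⟨34, -14, -20, 0⟩ ⟨2962, 2584, -2215, -3331⟩, .q ⟨37, -17, -20, 0⟩ ⟨2962, 2584, -2215, -3331⟩] := by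
  refine rok_bs (s := -1) (nlo := 14) (nhi := 17) (q := 20) (by decide) (by decide) (by decide) (by decide) (k := 1) (by decide) (Q := [(-161, 3997, -1128), (23, -571, 636), (-2215, 3331, -2584)])
    (P := [⟨-430080, -20, 0⟩, ⟨522240, 20, 0⟩, ⟨-34652160, -161, 3997⟩, ⟨19537920, 23, -571⟩, ⟨-79380480, -2215, 3331⟩]) rfl rfl
    (List.mem_of_getElem? (i := 199) rfl) TB_fr TB_cov ?_
  · intro X Y h
    simp only [List.forall_mem_cons, List.not_mem_nil, false_imp_iff, implies_true, and_true] at h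
    push_cast at h ⊢
    obtain ⟨h0, h1, h2, h3, h4⟩ := h
    refine ⟨⟨?_, ?_⟩, ?_, ?_⟩ <;> linarith

theorem TB_rg200 : ROK [.q ⟨-7, -33, 40, 0⟩ ⟨-73, 33, 40, 0⟩, .q ⟨4, 36, -40, 0⟩ ⟨-76, 36, 40, 0⟩, .q ⟨73, -33, -40, 0⟩ ⟨1007, -7, 0, -1000⟩, .q ⟨76, -36, -40, 0⟩ ⟨1007, -7, 0, -1000⟩, .q ⟨73, -33, -40, 0⟩ ⟨-2778, 2008, -2417, 3187⟩, .q ⟨76, -36, -40, 0⟩ ⟨-2778, 2008, -2417, 3187⟩, .q ⟨73, -33, -40, 0⟩ ⟨1705, 1117, -1318, -1504⟩, .q ⟨76, -36, -40, 0⟩ ⟨1705, 1117, -1318, -1504⟩] := by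
  refine rok_bs (s := -1) (nlo := 33) (nhi := 36) (q := 40) (by decide) (by decide) (by decide) (by decide) (k := 1) (by decide) (Q := [(0, 1000, 7), (-2417, -3187, -2008), (-1318, 1504, -1117)])
    (P := [⟨-1013760, -40, 0⟩, ⟨1105920, 40, 0⟩, ⟨215040, 0, 1000⟩, ⟨-61685760, -2417, -3187⟩, ⟨-34314240, -1318, 1504⟩]) rfl rfl
    (List.mem_of_getElem? (i := 200) rfl) TB_fr TB_cov ?_
  · intro X Y h
    simp only [List.forall_mem_cons, List.not_mem_nil, false_imp_iff, implies_true, and_true] at h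
    push_cast at h ⊢
    obtain ⟨h0, h1, h2, h3, h4⟩ := h
    refine ⟨⟨?_, ?_⟩, ?_, ?_⟩ <;> linarith

theorem TB_rg201 : ROK [.q ⟨-5, -35, 40, 0⟩ ⟨-75, 35, 40, 0⟩, .q ⟨2, 38, -40, 0⟩ ⟨-78, 38, 40, 0⟩, .q ⟨75, -35, -40, 0⟩ ⟨3386, -1817, 1933, -3502⟩, .q ⟨78, -38, -40, 0⟩ ⟨3386, -1817, 1933, -3502⟩, .q ⟨75, -35, -40, 0⟩ ⟨-3170, 1601, -1933, 3502⟩, .q ⟨78, -38, -40, 0⟩ ⟨-3170, 1601, -1933, 3502⟩, .q ⟨75, -35, -40, 0⟩ ⟨4067, 406, -505, -3968⟩, .q ⟨78, -38, -40, 0⟩ ⟨4067, 406, -505, -3968⟩, .q ⟨75, -35, -40, 0⟩ ⟨-1309, -1514, 1501, 1322⟩, .q ⟨78, -38, -40, 0⟩ ⟨-1309, -1514, 1501, 1322⟩] := by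
  refine rok_bs (s := -1) (nlo := 35) (nhi := 38) (q := 40) (by decide) (by decide) (by decide) (by decide) (k := 1) (by decide) (Q := [(1933, 3502, 1817), (-1933, -3502, -1601), (-505, 3968, -406), (1501, -1322, 1514)])
    (P := [⟨-1075200, -40, 0⟩, ⟨1167360, 40, 0⟩, ⟨55818240, 1933, 3502⟩, ⟨-49182720, -1933, -3502⟩, ⟨-12472320, -505, 3968⟩, ⟨46510080, 1501, -1322⟩]) rfl rfl
    (List.mem_of_getElem? (i := 201) rfl) TB_fr TB_cov ?_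
  · intro X Y h
    simp only [List.forall_mem_cons, List.not_mem_nil, false_imp_iff, implies_true, and_true] at h
    push_cast at h ⊢
    obtain ⟨h0, h1, h2, h3, h4, h5⟩ := h
    refine ⟨⟨?_, ?_⟩, ?_, ?_⟩ <;> linarith

theorem TB_rg202 : ROK [.q ⟨-43, -37, 80, 0⟩ ⟨-117, 37, 80, 0⟩, .q ⟨40, 40, -80, 0⟩ ⟨-120, 40, 80, 0⟩, .q ⟨117, -37, -80, 0⟩ ⟨14314, -9320, -1169, -3825⟩, .q ⟨120, -40, -80, 0⟩ ⟨14314, -9320, -1169, -3825⟩, .q ⟨117, -37, -80, 0⟩ ⟨9691, -14685, 1169, 3825⟩, .q ⟨120, -40, -80, 0⟩ ⟨9691, -14685, 1169, 3825⟩, .q ⟨117, -37, -80, 0⟩ ⟨2584, 2597, -3725, -1456⟩, .q ⟨120, -40, -80, 0⟩ ⟨2584, 2597, -3725, -1456⟩, .q ⟨117, -37, -80, 0⟩ ⟨1250, 955, -3707, 1502⟩, .q ⟨120, -40, -80, 0⟩ ⟨1250, 955, -3707, 1502⟩] := by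
  refine rok_bs (s := -1) (nlo := 37) (nhi := 40) (q := 80) (by decide) (by decide) (by decide) (by decide) (k := 1) (by decide) (Q := [(-1169, 3825, 9320), (1169, -3825, 14685), (-3725, 1456, -2597), (-3707, -1502, -955)])
    (P := [⟨-1136640, -80, 0⟩, ⟨1228800, 80, 0⟩, ⟨286310400, -1169, 3825⟩, ⟨451123200, 1169, -3825⟩, ⟨-79779840, -3725, 1456⟩, ⟨-29337600, -3707, -1502⟩]) rfl rfl
    (List.mem_of_getElem? (i := 202) rfl) TB_fr TB_cov ?_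
  · intro X Y h
    simp only [List.forall_mem_cons, List.not_mem_nil, false_imp_iff, implies_true, and_true] at h
    push_cast at h ⊢
    obtain ⟨h0, h1, h2, h3, h4, h5⟩ := h
    refine ⟨⟨?_, ?_⟩, ?_, ?_⟩ <;> linarith

theorem TB_rg203 : ROK [.q ⟨-23, -25, 48, 0⟩ ⟨-73, 25, 48, 0⟩, .q ⟨22, 26, -48, 0⟩ ⟨-74, 26, 48, 0⟩, .q ⟨73, -25, -48, 0⟩ ⟨12156, -10971, 2173, -3358⟩, .q ⟨74, -26, -48, 0⟩ ⟨12156, -10971, 2173, -3358⟩, .q ⟨73, -25, -48, 0⟩ ⟨-779, -406, -2173, 3358⟩, .q ⟨74, -26, -48, 0⟩ ⟨-779, -406, -2173, 3358⟩, .q ⟨73, -25, -48, 0⟩ ⟨3507, 2109, -2467, -3149⟩, .q ⟨74, -26, -48, 0⟩ ⟨3507, 2109, -2467, -3149⟩, .q ⟨73, -25, -48, 0⟩ ⟨-1472, -1119, -1219, 3810⟩, .q ⟨74, -26, -48, 0⟩ ⟨-1472, -1119, -1219, 3810⟩] := by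
  refine rok_bs (s := -1) (nlo := 25) (nhi := 26) (q := 48) (by decide) (by decide) (by decide) (by decide) (k := 1) (by decide) (Q := [(2173, 3358, 10971), (-2173, -3358, 406), (-2467, 3149, -2109), (-1219, -3810, 1119)])
    (P := [⟨-768000, -48, 0⟩, ⟨798720, 48, 0⟩, ⟨337029120, 2173, 3358⟩, ⟨12472320, -2173, -3358⟩, ⟨-64788480, -2467, 3149⟩, ⟨34375680, -1219, -3810⟩]) rfl rfl
    (List.mem_of_getElem? (i := 203) rfl) TB_fr TB_cov ?_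
  · intro X Y h
    simp only [List.forall_mem_cons, List.not_mem_nil, false_imp_iff, implies_true, and_true] at h
    push_cast at h ⊢
    obtain ⟨h0, h1, h2, h3, h4, h5⟩ := h
    refine ⟨⟨?_, ?_⟩, ?_, ?_⟩ <;> linarith

theorem TB_rg204 : ROK [.q ⟨-5, -35, 40, 0⟩ ⟨-75, 35, 40, 0⟩, .q ⟨3, 37, -40, 0⟩ ⟨-77, 37, 40, 0⟩, .q ⟨75, -35, -40, 0⟩ ⟨1591, 884, -553, -1922⟩, .q ⟨77, -37, -40, 0⟩ ⟨1591, 884, -553, -1922⟩, .q ⟨75, -35, -40, 0⟩ ⟨799, -2293, -1981, 3475⟩, .q ⟨77, -37, -40, 0⟩ ⟨799, -2293, -1981, 3475⟩] := by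
  refine rok_bs (s := -1) (nlo := 35) (nhi := 37) (q := 40) (by decide) (by decide) (by decide) (by decide) (k := 1) (by decide) (Q := [(-553, 1922, -884), (-1981, -3475, 2293)])
    (P := [⟨-1075200, -40, 0⟩, ⟨1136640, 40, 0⟩, ⟨-27156480, -553, 1922⟩, ⟨70440960, -1981, -3475⟩]) rfl rfl
    (List.mem_of_getElem? (i := 204) rfl) TB_fr TB_cov ?_
  · intro X Y h
    simp only [List.forall_mem_cons, List.not_mem_nil, false_imp_iff, implies_true, and_true] at h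
    push_cast at h ⊢
    obtain ⟨h0, h1, h2, h3⟩ := h
    refine ⟨⟨?_, ?_⟩, ?_, ?_⟩ <;> linarith

theorem TB_rg205 : ROK [.q ⟨-25, -55, 80, 0⟩ ⟨-135, 55, 80, 0⟩, .q ⟨22, 58, -80, 0⟩ ⟨-138, 58, 80, 0⟩, .q ⟨135, -55, -80, 0⟩ ⟨6481, -4393, -90, -1998⟩, .q ⟨138, -58, -80, 0⟩ ⟨6481, -4393, -90, -1998⟩, .q ⟨135, -55, -80, 0⟩ ⟨7283, -11459, 180, 3996⟩, .q ⟨138, -58, -80, 0⟩ ⟨7283, -11459, 180, 3996⟩, .q ⟨135, -55, -80, 0⟩ ⟨3057, 2201, -1586, -3672⟩, .q ⟨138, -58, -80, 0⟩ ⟨3057, 2201, -1586, -3672⟩, .q ⟨135, -55, -80, 0⟩ ⟨-2556, -3013, 3281, 2288⟩, .q ⟨138, -58, -80, 0⟩ ⟨-2556, -3013, 3281, 2288⟩] := by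
  refine rok_bs (s := -1) (nlo := 55) (nhi := 58) (q := 80) (by decide) (by decide) (by decide) (by decide) (k := 1) (by decide) (Q := [(-90, 1998, 4393), (180, -3996, 11459), (-1586, 3672, -2201), (3281, -2288, 3013)])
    (P := [⟨-1689600, -80, 0⟩, ⟨1781760, 80, 0⟩, ⟨134952960, -90, 1998⟩, ⟨352020480, 180, -3996⟩, ⟨-67614720, -1586, 3672⟩, ⟨92559360, 3281, -2288⟩]) rfl rfl
    (List.mem_of_getElem? (i := 205) rfl) TB_fr TB_cov ?_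
  · intro X Y h
    simp only [List.forall_mem_cons, List.not_mem_nil, false_imp_iff, implies_true, and_true] at h
    push_cast at h ⊢
    obtain ⟨h0, h1, h2, h3, h4, h5⟩ := h
    refine ⟨⟨?_, ?_⟩, ?_, ?_⟩ <;> linarith

theorem TB_rg206 : ROK [.q ⟨-5, -15, 20, 0⟩ ⟨-35, 15, 20, 0⟩, .q ⟨2, 18, -20, 0⟩ ⟨-38, 18, 20, 0⟩, .q ⟨35, -15, -20, 0⟩ ⟨601, 199, 0, -800⟩, .q ⟨38, -18, -20, 0⟩ ⟨601, 199, 0, -800⟩, .q ⟨35, -15, -20, 0⟩ ⟨603, -3641, -867, 3905⟩, .q ⟨38, -18, -20, 0⟩ ⟨603, -3641, -867, 3905⟩, .q ⟨35, -15, -20, 0⟩ ⟨2641, 3010, -2956, -2695⟩, .q ⟨38, -18, -20, 0⟩ ⟨2641, 3010, -2956, -2695⟩] := by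
  refine rok_bs (s := -1) (nlo := 15) (nhi := 18) (q := 20) (by decide) (by decide) (by decide) (by decide) (k := 1) (by decide) (Q := [(0, 800, -199), (-867, -3905, 3641), (-2956, 2695, -3010)])
    (P := [⟨-460800, -20, 0⟩, ⟨552960, 20, 0⟩, ⟨-6113280, 0, 800⟩, ⟨111851520, -867, -3905⟩, ⟨-92467200, -2956, 2695⟩]) rfl rfl
    (List.mem_of_getElem? (i := 206) rfl) TB_fr TB_cov ?_
  · intro X Y h
    simp only [List.forall_mem_cons, List.not_mem_nil, false_imp_iff, implies_true, and_true] at h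
    push_cast at h ⊢
    obtain ⟨h0, h1, h2, h3, h4⟩ := h
    refine ⟨⟨?_, ?_⟩, ?_, ?_⟩ <;> linarith

theorem TB_rg207 : ROK [.q ⟨-3, -17, 20, 0⟩ ⟨-37, 17, 20, 0⟩, .q ⟨0, 20, -20, 0⟩ ⟨-40, 20, 20, 0⟩, .q ⟨37, -17, -20, 0⟩ ⟨4033, -33, 0, -4000⟩, .q ⟨40, -20, -20, 0⟩ ⟨4033, -33, 0, -4000⟩, .q ⟨37, -17, -20, 0⟩ ⟨2013, -3013, 0, 1000⟩, .q ⟨40, -20, -20, 0⟩ ⟨2013, -3013, 0, 1000⟩, .q ⟨37, -17, -20, 0⟩ ⟨4067, 468, -577, -3958⟩, .q ⟨40, -20, -20, 0⟩ ⟨4067, 468, -577, -3958⟩, .q ⟨37, -17, -20, 0⟩ ⟨-3718, 675, -863, 3906⟩, .q ⟨40, -20, -20, 0⟩ ⟨-3718, 675, -863, 3906⟩] := by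
  refine rok_bs (s := -1) (nlo := 17) (nhi := 20) (q := 20) (by decide) (by decide) (by decide) (by decide) (k := 1) (by decide) (Q := [(0, 4000, 33), (0, -1000, 3013), (-577, 3958, -468), (-863, -3906, -675)])
    (P := [⟨-522240, -20, 0⟩, ⟨614400, 20, 0⟩, ⟨1013760, 0, 4000⟩, ⟨92559360, 0, -1000⟩, ⟨-14376960, -577, 3958⟩, ⟨-20736000, -863, -3906⟩]) rfl rfl
    (List.mem_of_getElem? (i := 207) rfl) TB_fr TB_cov ?_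
  · intro X Y h
    simp only [List.forall_mem_cons, List.not_mem_nil, false_imp_iff, implies_true, and_true] at h
    push_cast at h ⊢
    obtain ⟨h0, h1, h2, h3, h4, h5⟩ := h
    refine ⟨⟨?_, ?_⟩, ?_, ?_⟩ <;> linarith

theorem TB_rg208 : ROK [.q ⟨-497, -463, 960, 0⟩ ⟨-1423, 463, 960, 0⟩, .q ⟨485, 475, -960, 0⟩ ⟨-1435, 475, 960, 0⟩, .q ⟨1423, -463, -960, 0⟩ ⟨9101, -6954, 1543, -3690⟩, .q ⟨1435, -475, -960, 0⟩ ⟨9101, -6954, 1543, -3690⟩, .q ⟨1423, -463, -960, 0⟩ ⟨-824, -1323, -1543, 3690⟩, .q ⟨1435, -475, -960, 0⟩ ⟨-824, -1323, -1543, 3690⟩, .q ⟨1423, -463, -960, 0⟩ ⟨2766, 2835, -3197, -2404⟩, .q ⟨1435, -475, -960, 0⟩ ⟨2766, 2835, -3197, -2404⟩] := by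
  refine rok_bs (s := -1) (nlo := 463) (nhi := 475) (q := 960) (by decide) (by decide) (by decide) (by decide) (k := 1) (by decide) (Q := [(1543, 3690, 6954), (-1543, -3690, 1323), (-3197, 2404, -2835)])
    (P := [⟨-14223360, -960, 0⟩, ⟨14592000, 960, 0⟩, ⟨213626880, 1543, 3690⟩, ⟨40642560, -1543, -3690⟩, ⟨-87091200, -3197, 2404⟩]) rfl rfl
    (List.mem_of_getElem? (i := 208) rfl) TB_fr TB_cov ?_
  · intro X Y h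
    simp only [List.forall_mem_cons, List.not_mem_nil, false_imp_iff, implies_true, and_true] at h
    push_cast at h ⊢
    obtain ⟨h0, h1, h2, h3, h4⟩ := h
    refine ⟨⟨?_, ?_⟩, ?_, ?_⟩ <;> linarith

theorem TB_rg209 : ROK [.q ⟨-6, -34, 40, 0⟩ ⟨-74, 34, 40, 0⟩, .q ⟨3, 37, -40, 0⟩ ⟨-77, 37, 40, 0⟩, .q ⟨74, -34, -40, 0⟩ ⟨4052, 85, -139, -3998⟩, .q ⟨77, -37, -40, 0⟩ ⟨4052, 85, -139, -3998⟩, .q ⟨74, -34, -40, 0⟩ ⟨-3091, 1638, -2007, 3460⟩, .q ⟨77, -37, -40, 0⟩ ⟨-3091, 1638, -2007, 3460⟩, .q ⟨74, -34, -40, 0⟩ ⟨2490, 2991, -3442, -2039⟩, .q ⟨77, -37, -40, 0⟩ ⟨2490, 2991, -3442, -2039⟩, .q ⟨74, -34, -40, 0⟩ ⟨-2904, 1865, -2261, 3300⟩, .q ⟨77, -37, -40, 0⟩ ⟨-2904, 1865, -2261, 3300⟩] := by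
  refine rok_bs (s := -1) (nlo := 34) (nhi := 37) (q := 40) (by decide) (by decide) (by decide) (by decide) (k := 1) (by decide) (Q := [(-139, 3998, -85), (-2007, -3460, -1638), (-3442, 2039, -2991), (-2261, -3300, -1865)])
    (P := [⟨-1044480, -40, 0⟩, ⟨1136640, 40, 0⟩, ⟨-2611200, -139, 3998⟩, ⟨-50319360, -2007, -3460⟩, ⟨-91883520, -3442, 2039⟩, ⟨-57292800, -2261, -3300⟩]) rfl rfl
    (List.mem_of_getElem? (i := 209) rfl) TB_fr TB_cov ?_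
  · intro X Y h
    simp only [List.forall_mem_cons, List.not_mem_nil, false_imp_iff, implies_true, and_true] at h
    push_cast at h ⊢
    obtain ⟨h0, h1, h2, h3, h4, h5⟩ := h
    refine ⟨⟨?_, ?_⟩, ?_, ?_⟩ <;> linarith

theorem TB_rg210 : ROK [.q ⟨-533, -427, 960, 0⟩ ⟨-1387, 427, 960, 0⟩, .q ⟨525, 435, -960, 0⟩ ⟨-1395, 435, 960, 0⟩, .q ⟨1387, -427, -960, 0⟩ ⟨-966, 1754, 2407, -3195⟩, .q ⟨1395, -435, -960, 0⟩ ⟨-966, 1754, 2407, -3195⟩, .q ⟨1387, -427, -960, 0⟩ ⟨-336, -3677, 13, 4000⟩, .q ⟨1395, -435, -960, 0⟩ ⟨-336, -3677, 13, 4000⟩] := by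
  refine rok_bs (s := -1) (nlo := 427) (nhi := 435) (q := 960) (by decide) (by decide) (by decide) (by decide) (k := 1) (by decide) (Q := [(2407, 3195, -1754), (13, -4000, 3677)])
    (P := [⟨-13117440, -960, 0⟩, ⟨13363200, 960, 0⟩, ⟨-53882880, 2407, 3195⟩, ⟨112957440, 13, -4000⟩]) rfl rfl
    (List.mem_of_getElem? (i := 210) rfl) TB_fr TB_cov ?_
  · intro X Y h
    simp only [List.forall_mem_cons, List.not_mem_nil, false_imp_iff, implies_true, and_true] at h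
    push_cast at h ⊢
    obtain ⟨h0, h1, h2, h3⟩ := h
    refine ⟨⟨?_, ?_⟩, ?_, ?_⟩ <;> linarith

theorem TB_rg211 : ROK [.q ⟨-39, -201, 240, 0⟩ ⟨-441, 201, 240, 0⟩, .q ⟨34, 206, -240, 0⟩ ⟨-446, 206, 240, 0⟩, .q ⟨441, -201, -240, 0⟩ ⟨251, -1, 0, -250⟩, .q ⟨446, -206, -240, 0⟩ ⟨251, -1, 0, -250⟩, .q ⟨441, -201, -240, 0⟩ ⟨-3496, 1120, -1379, 3755⟩, .q ⟨446, -206, -240, 0⟩ ⟨-3496, 1120, -1379, 3755⟩] := by
  refine rok_bs (s := -1) (nlo := 201) (nhi := 206) (q := 240) (by decide) (by decide) (by decide) (by decide) (k := 1) (by decide) (Q := [(0, 250, 1), (-1379, -3755, -1120)])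
    (P := [⟨-6174720, -240, 0⟩, ⟨6328320, 240, 0⟩, ⟨30720, 0, 250⟩, ⟨-34406400, -1379, -3755⟩]) rfl rfl
    (List.mem_of_getElem? (i := 211) rfl) TB_fr TB_cov ?_
  · intro X Y h
    simp only [List.forall_mem_cons, List.not_mem_nil, false_imp_iff, implies_true, and_true] at h
    push_cast at h ⊢
    obtain ⟨h0, h1, h2, h3⟩ := h
    refine ⟨⟨?_, ?_⟩, ?_, ?_⟩ <;> linarith

theorem TB_rg212 : ROK [.q ⟨-1, -9, 10, 0⟩ ⟨-19, 9, 10, 0⟩, .q ⟨0, 10, -10, 0⟩ ⟨-20, 10, 10, 0⟩, .q ⟨19, -9, -10, 0⟩ ⟨3331, 669, 0, -4000⟩, .q ⟨20, -10, -10, 0⟩ ⟨3331, 669, 0, -4000⟩, .q ⟨19, -9, -10, 0⟩ ⟨37, -237, 0, 200⟩, .q ⟨20, -10, -10, 0⟩ ⟨37, -237, 0, 200⟩, .q ⟨19, -9, -10, 0⟩ ⟨2712, 2929, -2608, -3033⟩, .q ⟨20, -10, -10, 0⟩ ⟨2712, 2929, -2608, -3033⟩] := by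
  refine rok_bs (s := -1) (nlo := 9) (nhi := 10) (q := 10) (by decide) (by decide) (by decide) (by decide) (k := 1) (by decide) (Q := [(0, 4000, -669), (0, -200, 237), (-2608, 3033, -2929)])
    (P := [⟨-276480, -10, 0⟩, ⟨307200, 10, 0⟩, ⟨-20551680, 0, 4000⟩, ⟨7280640, 0, -200⟩, ⟨-89978880, -2608, 3033⟩]) rfl rfl
    (List.mem_of_getElem? (i := 212) rfl) TB_fr TB_cov ?_
  · intro X Y h
    simp only [List.forall_mem_cons, List.not_mem_nil, false_imp_iff, implies_true, and_true] at h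
    push_cast at h ⊢
    obtain ⟨h0, h1, h2, h3, h4⟩ := h
    refine ⟨⟨?_, ?_⟩, ?_, ?_⟩ <;> linarith

theorem TB_rg213 : ROK [.q ⟨-10, -70, 80, 0⟩ ⟨-150, 70, 80, 0⟩, .q ⟨7, 73, -80, 0⟩ ⟨-153, 73, 80, 0⟩, .q ⟨150, -70, -80, 0⟩ ⟨4067, 466, -574, -3959⟩, .q ⟨153, -73, -80, 0⟩ ⟨4067, 466, -574, -3959⟩, .q ⟨150, -70, -80, 0⟩ ⟨-3882, -651, 574, 3959⟩, .q ⟨153, -73, -80, 0⟩ ⟨-3882, -651, 574, 3959⟩, .q ⟨150, -70, -80, 0⟩ ⟨2569, -2608, 2848, -2809⟩, .q ⟨153, -73, -80, 0⟩ ⟨2569, -2608, 2848, -2809⟩] := by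
  refine rok_bs (s := -1) (nlo := 70) (nhi := 73) (q := 80) (by decide) (by decide) (by decide) (by decide) (k := 1) (by decide) (Q := [(-574, 3959, -466), (574, -3959, 651), (2848, 2809, 2608)])
    (P := [⟨-2150400, -80, 0⟩, ⟨2242560, 80, 0⟩, ⟨-14315520, -574, 3959⟩, ⟨19998720, 574, -3959⟩, ⟨80117760, 2848, 2809⟩]) rfl rfl
    (List.mem_of_getElem? (i := 213) rfl) TB_fr TB_cov ?_
  · intro X Y h
    simp only [List.forall_mem_cons, List.not_mem_nil, false_imp_iff, implies_true, and_true] at h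
    push_cast at h ⊢
    obtain ⟨h0, h1, h2, h3, h4⟩ := h
    refine ⟨⟨?_, ?_⟩, ?_, ?_⟩ <;> linarith

theorem TB_rg214 : ROK [.q ⟨-3, -17, 20, 0⟩ ⟨-37, 17, 20, 0⟩, .q ⟨0, 20, -20, 0⟩ ⟨-40, 20, 20, 0⟩, .q ⟨37, -17, -20, 0⟩ ⟨503, -3, 0, -500⟩, .q ⟨40, -20, -20, 0⟩ ⟨503, -3, 0, -500⟩, .q ⟨37, -17, -20, 0⟩ ⟨-874, 717, -861, 1018⟩, .q ⟨40, -20, -20, 0⟩ ⟨-874, 717, -861, 1018⟩, .q ⟨37, -17, -20, 0⟩ ⟨-3549, -1889, 1939, 3499⟩, .q ⟨40, -20, -20, 0⟩ ⟨-3549, -1889, 1939, 3499⟩] := by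
  refine rok_bs (s := -1) (nlo := 17) (nhi := 20) (q := 20) (by decide) (by decide) (by decide) (by decide) (k := 1) (by decide) (Q := [(0, 500, 3), (-861, -1018, -717), (1939, -3499, 1889)])
    (P := [⟨-522240, -20, 0⟩, ⟨614400, 20, 0⟩, ⟨92160, 0, 500⟩, ⟨-22026240, -861, -1018⟩, ⟨58030080, 1939, -3499⟩]) rfl rfl
    (List.mem_of_getElem? (i := 214) rfl) TB_fr TB_cov ?_
  · intro X Y h
    simp only [List.forall_mem_cons, List.not_mem_nil, false_imp_iff, implies_true, and_true] at h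
    push_cast at h ⊢
    obtain ⟨h0, h1, h2, h3, h4⟩ := h
    refine ⟨⟨?_, ?_⟩, ?_, ?_⟩ <;> linarith

theorem TB_rg215 : ROK [.q ⟨-3, -37, 40, 0⟩ ⟨-77, 37, 40, 0⟩, .q ⟨-1, 41, -40, 0⟩ ⟨-81, 41, 40, 0⟩, .q ⟨77, -37, -40, 0⟩ ⟨3284, 1536, -929, -3891⟩, .q ⟨81, -41, -40, 0⟩ ⟨3284, 1536, -929, -3891⟩, .q ⟨77, -37, -40, 0⟩ ⟨771, -3663, -985, 3877⟩, .q ⟨81, -41, -40, 0⟩ ⟨771, -3663, -985, 3877⟩, .q ⟨77, -37, -40, 0⟩ ⟨1297, -3469, 3698, -1526⟩, .q ⟨81, -41, -40, 0⟩ ⟨1297, -3469, 3698, -1526⟩] := by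
  refine rok_bs (s := -1) (nlo := 37) (nhi := 41) (q := 40) (by decide) (by decide) (by decide) (by decide) (k := 1) (by decide) (Q := [(-929, 3891, -1536), (-985, -3877, 3663), (3698, 1526, 3469)])
    (P := [⟨-1136640, -40, 0⟩, ⟨1259520, 40, 0⟩, ⟨-47185920, -929, 3891⟩, ⟨112527360, -985, -3877⟩, ⟨106567680, 3698, 1526⟩]) rfl rfl
    (List.mem_of_getElem? (i := 215) rfl) TB_fr TB_cov ?_
  · intro X Y h
    simp only [List.forall_mem_cons, List.not_mem_nil, false_imp_iff, implies_true, and_true] at h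
    push_cast at h ⊢
    obtain ⟨h0, h1, h2, h3, h4⟩ := h
    refine ⟨⟨?_, ?_⟩, ?_, ?_⟩ <;> linarith

end Pool.Agent.TET
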