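import Pool.Agent.Helper38_TET.TB_C

/-!
# MP_c7c9bf_co: certificates, family TB
-/

set_option autoImplicit false
set_option maxRecDepth 100000

namespace Pool.Agent.TET

theorem TB_rg216 : ROK [.q ⟨-293, -667, 960, 0⟩ ⟨-1627, 667, 960, 0⟩, .q ⟨283, 677, -960, 0⟩ ⟨-1637, 677, 960, 0⟩, .q ⟨1627, -667, -960, 0⟩ ⟨14502, -8885, -2475, -3142⟩, .q ⟨1637, -677, -960, 0⟩ ⟨14502, -8885, -2475, -3142⟩, .q ⟨1627, -667, -960, 0⟩ ⟨-2971, -2646, 2475, 3142⟩, .q ⟨1637, -677, -960, 0⟩ ⟨-2971, -2646, 2475, 3142⟩, .q ⟨1627, -667, -960, 0⟩ ⟨2281, 2974, -3675, -1580⟩, .q ⟨1637, -677, -960, 0⟩ ⟨2281, 2974, -3675, -1580⟩, .q ⟨1627, -667, -960, 0⟩ ⟨-13, 2128, -3681, 1566⟩, .q ⟨1637, -677, -960, 0⟩ ⟨-13, 2128, -3681, 1566⟩] := by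
  refine rok_bs (s := -1) (nlo := 667) (nhi := 677) (q := 960) (by decide) (by decide) (by decide) (by decide) (k := 1) (by decide) (Q := [(-2475, 3142, 8885), (2475, -3142, 2646), (-3675, 1580, -2974), (-3681, -1566, -2128)])
    (P := [⟨-20490240, -960, 0⟩, ⟨20797440, 960, 0⟩, ⟨272947200, -2475, 3142⟩, ⟨81285120, 2475, -3142⟩, ⟨-91361280, -3675, 1580⟩, ⟨-65372160, -3681, -1566⟩]) rfl rfl
    (List.mem_of_getElem? (i := 216) rfl) TB_fr TB_cov ?_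
  · intro X Y h
    simp only [List.forall_mem_cons, List.not_mem_nil, false_imp_iff, implies_true, and_true] at h
    push_cast at h ⊢
    obtain ⟨h0, h1, h2, h3, h4, h5⟩ := h
    refine ⟨⟨?_, ?_⟩, ?_, ?_⟩ <;> linarith

theorem TB_rg217 : ROK [.q ⟨-229, -251, 480, 0⟩ ⟨-731, 251, 480, 0⟩, .q ⟨221, 259, -480, 0⟩ ⟨-739, 259, 480, 0⟩, .q ⟨731, -251, -480, 0⟩ ⟨13086, -11305, 1794, -3575⟩, .q ⟨739, -259, -480, 0⟩ ⟨13086, -11305, 1794, -3575⟩, .q ⟨731, -251, -480, 0⟩ ⟨-1075, -706, -1794, 3575⟩, .q ⟨739, -259, -480, 0⟩ ⟨-1075, -706, -1794, 3575⟩, .q ⟨731, -251, -480, 0⟩ ⟨3527, 2077, -2416, -3188⟩, .q ⟨739, -259, -480, 0⟩ ⟨3527, 2077, -2416, -3188⟩, .q ⟨731, -251, -480, 0⟩ ⟨-2325, -2079, 427, 3977⟩, .q ⟨739, -259, -480, 0⟩ ⟨-2325, -2079, 427, 3977⟩] := by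
  refine rok_bs (s := -1) (nlo := 251) (nhi := 259) (q := 480) (by decide) (by decide) (by decide) (by decide) (k := 1) (by decide) (Q := [(1794, 3575, 11305), (-1794, -3575, 706), (-2416, 3188, -2077), (427, -3977, 2079)])
    (P := [⟨-7710720, -480, 0⟩, ⟨7956480, 480, 0⟩, ⟨347289600, 1794, 3575⟩, ⟨21688320, -1794, -3575⟩, ⟨-63805440, -2416, 3188⟩, ⟨63866880, 427, -3977⟩]) rfl rfl
    (List.mem_of_getElem? (i := 217) rfl) TB_fr TB_cov ?_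
  · intro X Y h
    simp only [List.forall_mem_cons, List.not_mem_nil, false_imp_iff, implies_true, and_true] at h
    push_cast at h ⊢
    obtain ⟨h0, h1, h2, h3, h4, h5⟩ := h
    refine ⟨⟨?_, ?_⟩, ?_, ?_⟩ <;> linarith

theorem TB_rg218 : ROK [.q ⟨-13, -67, 80, 0⟩ ⟨-147, 67, 80, 0⟩, .q ⟨9, 71, -80, 0⟩ ⟨-151, 71, 80, 0⟩, .q ⟨147, -67, -80, 0⟩ ⟨2013, -13, 0, -2000⟩, .q ⟨151, -71, -80, 0⟩ ⟨2013, -13, 0, -2000⟩, .q ⟨147, -67, -80, 0⟩ ⟨-2661, 2115, -2542, 3088⟩, .q ⟨151, -71, -80, 0⟩ ⟨-2661, 2115, -2542, 3088⟩, .q ⟨147, -67, -80, 0⟩ ⟨3256, 2401, -2839, -2818⟩, .q ⟨151, -71, -80, 0⟩ ⟨3256, 2401, -2839, -2818⟩] := by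
  refine rok_bs (s := -1) (nlo := 67) (nhi := 71) (q := 80) (by decide) (by decide) (by decide) (by decide) (k := 1) (by decide) (Q := [(0, 2000, 13), (-2542, -3088, -2115), (-2839, 2818, -2401)])
    (P := [⟨-2058240, -80, 0⟩, ⟨2181120, 80, 0⟩, ⟨399360, 0, 2000⟩, ⟨-64972800, -2542, -3088⟩, ⟨-73758720, -2839, 2818⟩]) rfl rfl
    (List.mem_of_getElem? (i := 218) rfl) TB_fr TB_cov ?_
  · intro X Y h
    simp only [List.forall_mem_cons, List.not_mem_nil, false_imp_iff, implies_true, and_true] at h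
    push_cast at h ⊢
    obtain ⟨h0, h1, h2, h3, h4⟩ := h
    refine ⟨⟨?_, ?_⟩, ?_, ?_⟩ <;> linarith

theorem TB_rg219 : ROK [.q ⟨-9, -71, 80, 0⟩ ⟨-151, 71, 80, 0⟩, .q ⟨6, 74, -80, 0⟩ ⟨-154, 74, 80, 0⟩, .q ⟨151, -71, -80, 0⟩ ⟨4067, 205, -282, -3990⟩, .q ⟨154, -74, -80, 0⟩ ⟨4067, 205, -282, -3990⟩, .q ⟨151, -71, -80, 0⟩ ⟨-1918, -218, 141, 1995⟩, .q ⟨154, -74, -80, 0⟩ ⟨-1918, -218, 141, 1995⟩] := by
  refine rok_bs (s := -1) (nlo := 71) (nhi := 74) (q := 80) (by decide) (by decide) (by decide) (by decide) (k := 1) (by decide) (Q := [(-282, 3990, -205), (141, -1995, 218)])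
    (P := [⟨-2181120, -80, 0⟩, ⟨2273280, 80, 0⟩, ⟨-6297600, -282, 3990⟩, ⟨6696960, 141, -1995⟩]) rfl rfl
    (List.mem_of_getElem? (i := 219) rfl) TB_fr TB_cov ?_
  · intro X Y h
    simp only [List.forall_mem_cons, List.not_mem_nil, false_imp_iff, implies_true, and_true] at h
    push_cast at h ⊢
    obtain ⟨h0, h1, h2, h3⟩ := h
    refine ⟨⟨?_, ?_⟩, ?_, ?_⟩ <;> linarith

theorem TB_rg220 : ROK [.q ⟨-20, -20, 40, 0⟩ ⟨-60, 20, 40, 0⟩, .q ⟨17, 23, -40, 0⟩ ⟨-63, 23, 40, 0⟩, .q ⟨60, -20, -40, 0⟩ ⟨1579, -319, 2127, -3387⟩, .q ⟨63, -23, -40, 0⟩ ⟨1579, -319, 2127, -3387⟩, .q ⟨60, -20, -40, 0⟩ ⟨-273, -147, -709, 1129⟩, .q ⟨63, -23, -40, 0⟩ ⟨-273, -147, -709, 1129⟩] := by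
  refine rok_bs (s := -1) (nlo := 20) (nhi := 23) (q := 40) (by decide) (by decide) (by decide) (by decide) (k := 1) (by decide) (Q := [(2127, 3387, 319), (-709, -1129, 147)])
    (P := [⟨-614400, -40, 0⟩, ⟨706560, 40, 0⟩, ⟨9799680, 2127, 3387⟩, ⟨4515840, -709, -1129⟩]) rfl rfl
    (List.mem_of_getElem? (i := 220) rfl) TB_fr TB_cov ?_
  · intro X Y h
    simp only [List.forall_mem_cons, List.not_mem_nil, false_imp_iff, implies_true, and_true] at h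
    push_cast at h ⊢
    obtain ⟨h0, h1, h2, h3⟩ := h
    refine ⟨⟨?_, ?_⟩, ?_, ?_⟩ <;> linarith

theorem TB_rg221 : ROK [.q ⟨-37, -43, 80, 0⟩ ⟨-123, 43, 80, 0⟩, .q ⟨33, 47, -80, 0⟩ ⟨-127, 47, 80, 0⟩, .q ⟨123, -43, -80, 0⟩ ⟨2639, 2719, -1772, -3586⟩, .q ⟨127, -47, -80, 0⟩ ⟨2639, 2719, -1772, -3586⟩, .q ⟨123, -43, -80, 0⟩ ⟨-970, -1709, 886, 1793⟩, .q ⟨127, -47, -80, 0⟩ ⟨-970, -1709, 886, 1793⟩] := by
  refine rok_bs (s := -1) (nlo := 43) (nhi := 47) (q := 80) (by decide) (by decide) (by decide) (by decide) (k := 1) (by decide) (Q := [(-1772, 3586, -2719), (886, -1793, 1709)])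
    (P := [⟨-1320960, -80, 0⟩, ⟨1443840, 80, 0⟩, ⟨-83527680, -1772, 3586⟩, ⟨52500480, 886, -1793⟩]) rfl rfl
    (List.mem_of_getElem? (i := 221) rfl) TB_fr TB_cov ?_
  · intro X Y h
    simp only [List.forall_mem_cons, List.not_mem_nil, false_imp_iff, implies_true, and_true] at h
    push_cast at h ⊢
    obtain ⟨h0, h1, h2, h3⟩ := h
    refine ⟨⟨?_, ?_⟩, ?_, ?_⟩ <;> linarith

theorem TB_rg222 : ROK [.q ⟨-19, -21, 40, 0⟩ ⟨-61, 21, 40, 0⟩, .q ⟨16, 24, -40, 0⟩ ⟨-64, 24, 40, 0⟩, .q ⟨61, -21, -40, 0⟩ ⟨2514, 2531, -1243, -3802⟩, .q ⟨64, -24, -40, 0⟩ ⟨2514, 2531, -1243, -3802⟩, .q ⟨61, -21, -40, 0⟩ ⟨-1772, -3273, 1243, 3802⟩, .q ⟨64, -24, -40, 0⟩ ⟨-1772, -3273, 1243, 3802⟩] := by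
  refine rok_bs (s := -1) (nlo := 21) (nhi := 24) (q := 40) (by decide) (by decide) (by decide) (by decide) (k := 1) (by decide) (Q := [(-1243, 3802, -2531), (1243, -3802, 3273)])
    (P := [⟨-645120, -40, 0⟩, ⟨737280, 40, 0⟩, ⟨-77752320, -1243, 3802⟩, ⟨100546560, 1243, -3802⟩]) rfl rfl
    (List.mem_of_getElem? (i := 222) rfl) TB_fr TB_cov ?_
  · intro X Y h
    simp only [List.forall_mem_cons, List.not_mem_nil, false_imp_iff, implies_true, and_true] at h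
    push_cast at h ⊢
    obtain ⟨h0, h1, h2, h3⟩ := h
    refine ⟨⟨?_, ?_⟩, ?_, ?_⟩ <;> linarith

theorem TB_rg223 : ROK [.q ⟨-19, -21, 40, 0⟩ ⟨-61, 21, 40, 0⟩, .q ⟨17, 23, -40, 0⟩ ⟨-63, 23, 40, 0⟩, .q ⟨61, -21, -40, 0⟩ ⟨3423, -2636, 194, -981⟩, .q ⟨63, -23, -40, 0⟩ ⟨3423, -2636, 194, -981⟩, .q ⟨61, -21, -40, 0⟩ ⟨-127, -4, -875, 1006⟩, .q ⟨63, -23, -40, 0⟩ ⟨-127, -4, -875, 1006⟩, .q ⟨61, -21, -40, 0⟩ ⟨2802, 2854, -2763, -2893⟩, .q ⟨63, -23, -40, 0⟩ ⟨2802, 2854, -2763, -2893⟩] := by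
  refine rok_bs (s := -1) (nlo := 21) (nhi := 23) (q := 40) (by decide) (by decide) (by decide) (by decide) (k := 1) (by decide) (Q := [(194, 981, 2636), (-875, -1006, 4), (-2763, 2893, -2854)])
    (P := [⟨-645120, -40, 0⟩, ⟨706560, 40, 0⟩, ⟨80977920, 194, 981⟩, ⟨122880, -875, -1006⟩, ⟨-87674880, -2763, 2893⟩]) rfl rfl
    (List.mem_of_getElem? (i := 223) rfl) TB_fr TB_cov ?_
  · intro X Y h
    simp only [List.forall_mem_cons, List.not_mem_nil, false_imp_iff, implies_true, and_true] at h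
    push_cast at h ⊢
    obtain ⟨h0, h1, h2, h3, h4⟩ := h
    refine ⟨⟨?_, ?_⟩, ?_, ?_⟩ <;> linarith

theorem TB_rg224 : ROK [.q ⟨-455, -505, 960, 0⟩ ⟨-1465, 505, 960, 0⟩, .q ⟨446, 514, -960, 0⟩ ⟨-1474, 514, 960, 0⟩, .q ⟨1465, -505, -960, 0⟩ ⟨3430, 1508, -1089, -3849⟩, .q ⟨1474, -514, -960, 0⟩ ⟨3430, 1508, -1089, -3849⟩, .q ⟨1465, -505, -960, 0⟩ ⟨-2558, -2380, 1089, 3849⟩, .q ⟨1474, -514, -960, 0⟩ ⟨-2558, -2380, 1089, 3849⟩, .q ⟨1465, -505, -960, 0⟩ ⟨-779, -403, -2175, 3357⟩, .q ⟨1474, -514, -960, 0⟩ ⟨-779, -403, -2175, 3357⟩] := by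
  refine rok_bs (s := -1) (nlo := 505) (nhi := 514) (q := 960) (by decide) (by decide) (by decide) (by decide) (k := 1) (by decide) (Q := [(-1089, 3849, -1508), (1089, -3849, 2380), (-2175, -3357, 403)])
    (P := [⟨-15513600, -960, 0⟩, ⟨15790080, 960, 0⟩, ⟨-46325760, -1089, 3849⟩, ⟨73113600, 1089, -3849⟩, ⟨12380160, -2175, -3357⟩]) rfl rfl
    (List.mem_of_getElem? (i := 224) rfl) TB_fr TB_cov ?_
  · intro X Y h
    simp only [List.forall_mem_cons, List.not_mem_nil, false_imp_iff, implies_true, and_true] at h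
    push_cast at h ⊢
    obtain ⟨h0, h1, h2, h3, h4⟩ := h
    refine ⟨⟨?_, ?_⟩, ?_, ?_⟩ <;> linarith

theorem TB_rg225 : ROK [.q ⟨-112, -128, 240, 0⟩ ⟨-368, 128, 240, 0⟩, .q ⟨107, 133, -240, 0⟩ ⟨-373, 133, 240, 0⟩, .q ⟨368, -128, -240, 0⟩ ⟨1595, -310, 2112, -3397⟩, .q ⟨373, -133, -240, 0⟩ ⟨1595, -310, 2112, -3397⟩, .q ⟨368, -128, -240, 0⟩ ⟨-831, -454, -2112, 3397⟩, .q ⟨373, -133, -240, 0⟩ ⟨-831, -454, -2112, 3397⟩] := by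
  refine rok_bs (s := -1) (nlo := 128) (nhi := 133) (q := 240) (by decide) (by decide) (by decide) (by decide) (k := 1) (by decide) (Q := [(2112, 3397, 310), (-2112, -3397, 454)])
    (P := [⟨-3932160, -240, 0⟩, ⟨4085760, 240, 0⟩, ⟨9523200, 2112, 3397⟩, ⟨13946880, -2112, -3397⟩]) rfl rfl
    (List.mem_of_getElem? (i := 225) rfl) TB_fr TB_cov ?_
  · intro X Y h
    simp only [List.forall_mem_cons, List.not_mem_nil, false_imp_iff, implies_true, and_true] at h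
    push_cast at h ⊢
    obtain ⟨h0, h1, h2, h3⟩ := h
    refine ⟨⟨?_, ?_⟩, ?_, ?_⟩ <;> linarith

theorem TB_rg226 : ROK [.q ⟨-5, -5, 10, 0⟩ ⟨-15, 5, 10, 0⟩, .q ⟨4, 6, -10, 0⟩ ⟨-16, 6, 10, 0⟩, .q ⟨15, -5, -10, 0⟩ ⟨10597, -8013, 1224, -3808⟩, .q ⟨16, -6, -10, 0⟩ ⟨10597, -8013, 1224, -3808⟩, .q ⟨15, -5, -10, 0⟩ ⟨-621, -1963, -1224, 3808⟩, .q ⟨16, -6, -10, 0⟩ ⟨-621, -1963, -1224, 3808⟩, .q ⟨15, -5, -10, 0⟩ ⟨880, 973, -1101, -752⟩, .q ⟨16, -6, -10, 0⟩ ⟨880, 973, -1101, -752⟩] := by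
  refine rok_bs (s := -1) (nlo := 5) (nhi := 6) (q := 10) (by decide) (by decide) (by decide) (by decide) (k := 1) (by decide) (Q := [(1224, 3808, 8013), (-1224, -3808, 1963), (-1101, 752, -973)])
    (P := [⟨-153600, -10, 0⟩, ⟨184320, 10, 0⟩, ⟨246159360, 1224, 3808⟩, ⟨60303360, -1224, -3808⟩, ⟨-29890560, -1101, 752⟩]) rfl rfl
    (List.mem_of_getElem? (i := 226) rfl) TB_fr TB_cov ?_
  · intro X Y h
    simp only [List.forall_mem_cons, List.not_mem_nil, false_imp_iff, implies_true, and_true] at h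
    push_cast at h ⊢
    obtain ⟨h0, h1, h2, h3, h4⟩ := h
    refine ⟨⟨?_, ?_⟩, ?_, ?_⟩ <;> linarith

theorem TB_rg227 : ROK [.q ⟨-19, -21, 40, 0⟩ ⟨-61, 21, 40, 0⟩, .q ⟨15, 25, -40, 0⟩ ⟨-65, 25, 40, 0⟩, .q ⟨61, -21, -40, 0⟩ ⟨2575, 2619, -1477, -3717⟩, .q ⟨65, -25, -40, 0⟩ ⟨2575, 2619, -1477, -3717⟩, .q ⟨61, -21, -40, 0⟩ ⟨-913, -2344, -684, 3941⟩, .q ⟨65, -25, -40, 0⟩ ⟨-913, -2344, -684, 3941⟩] := by
  refine rok_bs (s := -1) (nlo := 21) (nhi := 25) (q := 40) (by decide) (by decide) (by decide) (by decide) (k := 1) (by decide) (Q := [(-1477, 3717, -2619), (-684, -3941, 2344)])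
    (P := [⟨-645120, -40, 0⟩, ⟨768000, 40, 0⟩, ⟨-80455680, -1477, 3717⟩, ⟨72007680, -684, -3941⟩]) rfl rfl
    (List.mem_of_getElem? (i := 227) rfl) TB_fr TB_cov ?_
  · intro X Y h
    simp only [List.forall_mem_cons, List.not_mem_nil, false_imp_iff, implies_true, and_true] at h
    push_cast at h ⊢
    obtain ⟨h0, h1, h2, h3⟩ := h
    refine ⟨⟨?_, ?_⟩, ?_, ?_⟩ <;> linarith

theorem TB_rg228 : ROK [.q ⟨-151, -169, 320, 0⟩ ⟨-489, 169, 320, 0⟩, .q ⟨148, 172, -320, 0⟩ ⟨-492, 172, 320, 0⟩, .q ⟨489, -169, -320, 0⟩ ⟨586, -64, 645, -1167⟩, .q ⟨492, -172, -320, 0⟩ ⟨586, -64, 645, -1167⟩, .q ⟨489, -169, -320, 0⟩ ⟨-323, -199, -645, 1167⟩, .q ⟨492, -172, -320, 0⟩ ⟨-323, -199, -645, 1167⟩] := by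
  refine rok_bs (s := -1) (nlo := 169) (nhi := 172) (q := 320) (by decide) (by decide) (by decide) (by decide) (k := 1) (by decide) (Q := [(645, 1167, 64), (-645, -1167, 199)])
    (P := [⟨-5191680, -320, 0⟩, ⟨5283840, 320, 0⟩, ⟨1966080, 645, 1167⟩, ⟨6113280, -645, -1167⟩]) rfl rfl
    (List.mem_of_getElem? (i := 228) rfl) TB_fr TB_cov ?_
  · intro X Y h
    simp only [List.forall_mem_cons, List.not_mem_nil, false_imp_iff, implies_true, and_true] at h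
    push_cast at h ⊢
    obtain ⟨h0, h1, h2, h3⟩ := h
    refine ⟨⟨?_, ?_⟩, ?_, ?_⟩ <;> linarith

theorem TB_rg229 : ROK [.q ⟨-10, -10, 20, 0⟩ ⟨-30, 10, 20, 0⟩, .q ⟨7, 13, -20, 0⟩ ⟨-33, 13, 20, 0⟩, .q ⟨30, -10, -20, 0⟩ ⟨2705, 2836, -2202, -3339⟩, .q ⟨33, -13, -20, 0⟩ ⟨2705, 2836, -2202, -3339⟩, .q ⟨30, -10, -20, 0⟩ ⟨-1958, -3297, 1580, 3675⟩, .q ⟨33, -13, -20, 0⟩ ⟨-1958, -3297, 1580, 3675⟩] := by
  refine rok_bs (s := -1) (nlo := 10) (nhi := 13) (q := 20) (by decide) (by decide) (by decide) (by decide) (k := 1) (by decide) (Q := [(-2202, 3339, -2836), (1580, -3675, 3297)])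
    (P := [⟨-307200, -20, 0⟩, ⟨399360, 20, 0⟩, ⟨-87121920, -2202, 3339⟩, ⟨101283840, 1580, -3675⟩]) rfl rfl
    (List.mem_of_getElem? (i := 229) rfl) TB_fr TB_cov ?_
  · intro X Y h
    simp only [List.forall_mem_cons, List.not_mem_nil, false_imp_iff, implies_true, and_true] at h
    push_cast at h ⊢
    obtain ⟨h0, h1, h2, h3⟩ := h
    refine ⟨⟨?_, ?_⟩, ?_, ?_⟩ <;> linarith

theorem TB_rg230 : ROK [.q ⟨-446, -514, 960, 0⟩ ⟨-1474, 514, 960, 0⟩, .q ⟨439, 521, -960, 0⟩ ⟨-1481, 521, 960, 0⟩, .q ⟨1474, -514, -960, 0⟩ ⟨3521, 1854, -1805, -3570⟩, .q ⟨1481, -521, -960, 0⟩ ⟨3521, 1854, -1805, -3570⟩, .q ⟨1474, -514, -960, 0⟩ ⟨-575, -188, -2421, 3184⟩, .q ⟨1481, -521, -960, 0⟩ ⟨-575, -188, -2421, 3184⟩] := by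
  refine rok_bs (s := -1) (nlo := 514) (nhi := 521) (q := 960) (by decide) (by decide) (by decide) (by decide) (k := 1) (by decide) (Q := [(-1805, 3570, -1854), (-2421, -3184, 188)])
    (P := [⟨-15790080, -960, 0⟩, ⟨16005120, 960, 0⟩, ⟨-56954880, -1805, 3570⟩, ⟨5775360, -2421, -3184⟩]) rfl rfl
    (List.mem_of_getElem? (i := 230) rfl) TB_fr TB_cov ?_
  · intro X Y h
    simp only [List.forall_mem_cons, List.not_mem_nil, false_imp_iff, implies_true, and_true] at h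
    push_cast at h ⊢
    obtain ⟨h0, h1, h2, h3⟩ := h
    refine ⟨⟨?_, ?_⟩, ?_, ?_⟩ <;> linarith

theorem TB_rg231 : ROK [.q ⟨-19, -21, 40, 0⟩ ⟨-61, 21, 40, 0⟩, .q ⟨16, 24, -40, 0⟩ ⟨-64, 24, 40, 0⟩, .q ⟨61, -21, -40, 0⟩ ⟨2338, 2294, -693, -3939⟩, .q ⟨64, -24, -40, 0⟩ ⟨2338, 2294, -693, -3939⟩, .q ⟨61, -21, -40, 0⟩ ⟨-1556, -3076, 693, 3939⟩, .q ⟨64, -24, -40, 0⟩ ⟨-1556, -3076, 693, 3939⟩] := by
  refine rok_bs (s := -1) (nlo := 21) (nhi := 24) (q := 40) (by decide) (by decide) (by decide) (by decide) (k := 1) (by decide) (Q := [(-693, 3939, -2294), (693, -3939, 3076)])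
    (P := [⟨-645120, -40, 0⟩, ⟨737280, 40, 0⟩, ⟨-70471680, -693, 3939⟩, ⟨94494720, 693, -3939⟩]) rfl rfl
    (List.mem_of_getElem? (i := 231) rfl) TB_fr TB_cov ?_
  · intro X Y h
    simp only [List.forall_mem_cons, List.not_mem_nil, false_imp_iff, implies_true, and_true] at h
    push_cast at h ⊢
    obtain ⟨h0, h1, h2, h3⟩ := h
    refine ⟨⟨?_, ?_⟩, ?_, ?_⟩ <;> linarith

theorem TB_rg232 : ROK [.q ⟨-75, -85, 160, 0⟩ ⟨-245, 85, 160, 0⟩, .q ⟨72, 88, -160, 0⟩ ⟨-248, 88, 160, 0⟩, .q ⟨245, -85, -160, 0⟩ ⟨2999, 1001, 0, -4000⟩, .q ⟨248, -88, -160, 0⟩ ⟨2999, 1001, 0, -4000⟩, .q ⟨245, -85, -160, 0⟩ ⟨-929, -557, -1986, 3472⟩, .q ⟨248, -88, -160, 0⟩ ⟨-929, -557, -1986, 3472⟩] := by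
  refine rok_bs (s := -1) (nlo := 85) (nhi := 88) (q := 160) (by decide) (by decide) (by decide) (by decide) (k := 1) (by decide) (Q := [(0, 4000, -1001), (-1986, -3472, 557)])
    (P := [⟨-2611200, -160, 0⟩, ⟨2703360, 160, 0⟩, ⟨-30750720, 0, 4000⟩, ⟨17111040, -1986, -3472⟩]) rfl rfl
    (List.mem_of_getElem? (i := 232) rfl) TB_fr TB_cov ?_
  · intro X Y h
    simp only [List.forall_mem_cons, List.not_mem_nil, false_imp_iff, implies_true, and_true] at h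
    push_cast at h ⊢
    obtain ⟨h0, h1, h2, h3⟩ := h
    refine ⟨⟨?_, ?_⟩, ?_, ?_⟩ <;> linarith

theorem TB_rg233 : ROK [.q ⟨-230, -250, 480, 0⟩ ⟨-730, 250, 480, 0⟩, .q ⟨223, 257, -480, 0⟩ ⟨-737, 257, 480, 0⟩, .q ⟨730, -250, -480, 0⟩ ⟨1880, -103, 1797, -3574⟩, .q ⟨737, -257, -480, 0⟩ ⟨1880, -103, 1797, -3574⟩, .q ⟨730, -250, -480, 0⟩ ⟨-1073, -704, -1797, 3574⟩, .q ⟨737, -257, -480, 0⟩ ⟨-1073, -704, -1797, 3574⟩] := by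
  refine rok_bs (s := -1) (nlo := 250) (nhi := 257) (q := 480) (by decide) (by decide) (by decide) (by decide) (k := 1) (by decide) (Q := [(1797, 3574, 103), (-1797, -3574, 704)])
    (P := [⟨-7680000, -480, 0⟩, ⟨7895040, 480, 0⟩, ⟨3164160, 1797, 3574⟩, ⟨21626880, -1797, -3574⟩]) rfl rfl
    (List.mem_of_getElem? (i := 233) rfl) TB_fr TB_cov ?_
  · intro X Y h
    simp only [List.forall_mem_cons, List.not_mem_nil, false_imp_iff, implies_true, and_true] at h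
    push_cast at h ⊢
    obtain ⟨h0, h1, h2, h3⟩ := h
    refine ⟨⟨?_, ?_⟩, ?_, ?_⟩ <;> linarith

theorem TB_rg234 : ROK [.q ⟨-19, -21, 40, 0⟩ ⟨-61, 21, 40, 0⟩, .q ⟨16, 24, -40, 0⟩ ⟨-64, 24, 40, 0⟩, .q ⟨61, -21, -40, 0⟩ ⟨1693, -220, 1994, -3467⟩, .q ⟨64, -24, -40, 0⟩ ⟨1693, -220, 1994, -3467⟩, .q ⟨61, -21, -40, 0⟩ ⟨-924, -549, -1994, 3467⟩, .q ⟨64, -24, -40, 0⟩ ⟨-924, -549, -1994, 3467⟩] := by
  refine rok_bs (s := -1) (nlo := 21) (nhi := 24) (q := 40) (by decide) (by decide) (by decide) (by decide) (k := 1) (by decide) (Q := [(1994, 3467, 220), (-1994, -3467, 549)])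
    (P := [⟨-645120, -40, 0⟩, ⟨737280, 40, 0⟩, ⟨6758400, 1994, 3467⟩, ⟨16865280, -1994, -3467⟩]) rfl rfl
    (List.mem_of_getElem? (i := 234) rfl) TB_fr TB_cov ?_
  · intro X Y h
    simp only [List.forall_mem_cons, List.not_mem_nil, false_imp_iff, implies_true, and_true] at h
    push_cast at h ⊢
    obtain ⟨h0, h1, h2, h3⟩ := h
    refine ⟨⟨?_, ?_⟩, ?_, ?_⟩ <;> linarith

theorem TB_rg235 : ROK [.q ⟨-227, -253, 480, 0⟩ ⟨-733, 253, 480, 0⟩, .q ⟨218, 262, -480, 0⟩ ⟨-742, 262, 480, 0⟩, .q ⟨733, -253, -480, 0⟩ ⟨3510, 2051, -2261, -3300⟩, .q ⟨742, -262, -480, 0⟩ ⟨3510, 2051, -2261, -3300⟩, .q ⟨733, -253, -480, 0⟩ ⟨-888, -514, -2039, 3441⟩, .q ⟨742, -262, -480, 0⟩ ⟨-888, -514, -2039, 3441⟩] := by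
  refine rok_bs (s := -1) (nlo := 253) (nhi := 262) (q := 480) (by decide) (by decide) (by decide) (by decide) (k := 1) (by decide) (Q := [(-2261, 3300, -2051), (-2039, -3441, 514)])
    (P := [⟨-7772160, -480, 0⟩, ⟨8048640, 480, 0⟩, ⟨-63006720, -2261, 3300⟩, ⟨15790080, -2039, -3441⟩]) rfl rfl
    (List.mem_of_getElem? (i := 235) rfl) TB_fr TB_cov ?_
  · intro X Y h
    simp only [List.forall_mem_cons, List.not_mem_nil, false_imp_iff, implies_true, and_true] at h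
    push_cast at h ⊢
    obtain ⟨h0, h1, h2, h3⟩ := h
    refine ⟨⟨?_, ?_⟩, ?_, ?_⟩ <;> linarith

theorem TB_rg236 : ROK [.q ⟨-5, -5, 10, 0⟩ ⟨-15, 5, 10, 0⟩, .q ⟨4, 6, -10, 0⟩ ⟨-16, 6, 10, 0⟩, .q ⟨15, -5, -10, 0⟩ ⟨2813, -2013, 0, -800⟩, .q ⟨16, -6, -10, 0⟩ ⟨2813, -2013, 0, -800⟩, .q ⟨15, -5, -10, 0⟩ ⟨-798, -1517, 345, 1970⟩, .q ⟨16, -6, -10, 0⟩ ⟨-798, -1517, 345, 1970⟩, .q ⟨15, -5, -10, 0⟩ ⟨2415, 2764, -3728, -1451⟩, .q ⟨16, -6, -10, 0⟩ ⟨2415, 2764, -3728, -1451⟩] := by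
  refine rok_bs (s := -1) (nlo := 5) (nhi := 6) (q := 10) (by decide) (by decide) (by decide) (by decide) (k := 1) (by decide) (Q := [(0, 800, 2013), (345, -1970, 1517), (-3728, 1451, -2764)])
    (P := [⟨-153600, -10, 0⟩, ⟨184320, 10, 0⟩, ⟨61839360, 0, 800⟩, ⟨46602240, 345, -1970⟩, ⟨-84910080, -3728, 1451⟩]) rfl rfl
    (List.mem_of_getElem? (i := 236) rfl) TB_fr TB_cov ?_
  · intro X Y h
    simp only [List.forall_mem_cons, List.not_mem_nil, false_imp_iff, implies_true, and_true] at h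
    push_cast at h ⊢
    obtain ⟨h0, h1, h2, h3, h4⟩ := h
    refine ⟨⟨?_, ?_⟩, ?_, ?_⟩ <;> linarith

theorem TB_rg237 : ROK [.q ⟨-20, -20, 40, 0⟩ ⟨-60, 20, 40, 0⟩, .q ⟨17, 23, -40, 0⟩ ⟨-63, 23, 40, 0⟩, .q ⟨60, -20, -40, 0⟩ ⟨1189, -585, 2510, -3114⟩, .q ⟨63, -23, -40, 0⟩ ⟨1189, -585, 2510, -3114⟩, .q ⟨60, -20, -40, 0⟩ ⟨-246, -56, -1255, 1557⟩, .q ⟨63, -23, -40, 0⟩ ⟨-246, -56, -1255, 1557⟩, .q ⟨60, -20, -40, 0⟩ ⟨-1007, -639, -1883, 3529⟩, .q ⟨63, -23, -40, 0⟩ ⟨-1007, -639, -1883, 3529⟩] := by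
  refine rok_bs (s := -1) (nlo := 20) (nhi := 23) (q := 40) (by decide) (by decide) (by decide) (by decide) (k := 1) (by decide) (Q := [(2510, 3114, 585), (-1255, -1557, 56), (-1883, -3529, 639)])
    (P := [⟨-614400, -40, 0⟩, ⟨706560, 40, 0⟩, ⟨17971200, 2510, 3114⟩, ⟨1720320, -1255, -1557⟩, ⟨19630080, -1883, -3529⟩]) rfl rfl
    (List.mem_of_getElem? (i := 237) rfl) TB_fr TB_cov ?_
  · intro X Y h
    simp only [List.forall_mem_cons, List.not_mem_nil, false_imp_iff, implies_true, and_true] at h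
    push_cast at h ⊢
    obtain ⟨h0, h1, h2, h3, h4⟩ := h
    refine ⟨⟨?_, ?_⟩, ?_, ?_⟩ <;> linarith

theorem TB_rg238 : ROK [.q ⟨-429, -531, 960, 0⟩ ⟨-1491, 531, 960, 0⟩, .q ⟨418, 542, -960, 0⟩ ⟨-1502, 542, 960, 0⟩, .q ⟨1491, -531, -960, 0⟩ ⟨2961, 1039, 0, -4000⟩, .q ⟨1502, -542, -960, 0⟩ ⟨2961, 1039, 0, -4000⟩, .q ⟨1491, -531, -960, 0⟩ ⟨-749, -4700, 1966, 3483⟩, .q ⟨1502, -542, -960, 0⟩ ⟨-749, -4700, 1966, 3483⟩] := by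
  refine rok_bs (s := -1) (nlo := 531) (nhi := 542) (q := 960) (by decide) (by decide) (by decide) (by decide) (k := 1) (by decide) (Q := [(0, 4000, -1039), (1966, -3483, 4700)])
    (P := [⟨-16312320, -960, 0⟩, ⟨16650240, 960, 0⟩, ⟨-31918080, 0, 4000⟩, ⟨144384000, 1966, -3483⟩]) rfl rfl
    (List.mem_of_getElem? (i := 238) rfl) TB_fr TB_cov ?_
  · intro X Y h
    simp only [List.forall_mem_cons, List.not_mem_nil, false_imp_iff, implies_true, and_true] at h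
    push_cast at h ⊢
    obtain ⟨h0, h1, h2, h3⟩ := h
    refine ⟨⟨?_, ?_⟩, ?_, ?_⟩ <;> linarith

theorem TB_rg239 : ROK [.q ⟨-38, -42, 80, 0⟩ ⟨-122, 42, 80, 0⟩, .q ⟨35, 45, -80, 0⟩ ⟨-125, 45, 80, 0⟩, .q ⟨122, -42, -80, 0⟩ ⟨12491, -9213, 666, -3944⟩, .q ⟨125, -45, -80, 0⟩ ⟨12491, -9213, 666, -3944⟩, .q ⟨122, -42, -80, 0⟩ ⟨-1757, -1521, -666, 3944⟩, .q ⟨125, -45, -80, 0⟩ ⟨-1757, -1521, -666, 3944⟩, .q ⟨122, -42, -80, 0⟩ ⟨3379, 2267, -2653, -2993⟩, .q ⟨125, -45, -80, 0⟩ ⟨3379, 2267, -2653, -2993⟩, .q ⟨122, -42, -80, 0⟩ ⟨515, 908, -3449, 2026⟩, .q ⟨125, -45, -80, 0⟩ ⟨515, 908, -3449, 2026⟩] := by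
  refine rok_bs (s := -1) (nlo := 42) (nhi := 45) (q := 80) (by decide) (by decide) (by decide) (by decide) (k := 1) (by decide) (Q := [(666, 3944, 9213), (-666, -3944, 1521), (-2653, 2993, -2267), (-3449, -2026, -908)])
    (P := [⟨-1290240, -80, 0⟩, ⟨1382400, 80, 0⟩, ⟨283023360, 666, 3944⟩, ⟨46725120, -666, -3944⟩, ⟨-69642240, -2653, 2993⟩, ⟨-27893760, -3449, -2026⟩]) rfl rfl
    (List.mem_of_getElem? (i := 239) rfl) TB_fr TB_cov ?_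
  · intro X Y h
    simp only [List.forall_mem_cons, List.not_mem_nil, false_imp_iff, implies_true, and_true] at h
    push_cast at h ⊢
    obtain ⟨h0, h1, h2, h3, h4, h5⟩ := h
    refine ⟨⟨?_, ?_⟩, ?_, ?_⟩ <;> linarith

end Pool.Agent.TET
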