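import Pool.Agent.Helper38_TET.TB_R0
import Pool.Agent.Helper38_TET.TB_R1
import Pool.Agent.Helper38_TET.TB_R2
import Pool.Agent.Helper38_TET.TB_R3
import Pool.Agent.Helper38_TET.TB_R4
import Pool.Agent.Helper38_TET.TB_R5
import Pool.Agent.Helper38_TET.TB_R6
import Pool.Agent.Helper38_TET.TB_R7
import Pool.Agent.Helper38_TET.TB_R8
import Pool.Agent.Helper38_TET.TB_R9
import Pool.Agent.Helper38_TET.TB_R10
import Pool.Agent.Helper38_TET.TB_R11
import Pool.Agent.Helper38_TET.TB_R12
import Pool.Agent.Helper38_TET.TB_R13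
import Pool.Agent.Helper38_TET.TB_R14
import Pool.Agent.Helper38_TET.TB_R15
import Pool.Agent.Helper38_TET.TB_R16
import Pool.Agent.Helper38_TET.TB_R17
import Pool.Agent.Helper38_TET.TB_R18
import Pool.Agent.Helper38_TET.TB_R19
import Pool.Agent.Helper38_TET.TB_R20

/-!
# MP_c7c9bf_co: certificates, family TB
-/

set_option autoImplicit false
set_option maxRecDepth 100000

namespace Pool.Agent.TET

end Pool.Agent.TET
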