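import Pool.Agent.Helper38_TET.TD_C

/-!
# MP_c7c9bf_co: certificates, family TD
-/

set_option autoImplicit false
set_option maxRecDepth 100000

namespace Pool.Agent.TET

theorem TD_rg24 : ROK [.l ⟨0, 10, 0, -9⟩ ⟨0, 10, 0, 9⟩, .l ⟨0, -10, 0, 10⟩ ⟨0, 10, 0, 10⟩, .l ⟨0, 10, 0, -9⟩ ⟨0, 0, 1000, 483⟩, .l ⟨0, 10, 0, -10⟩ ⟨0, 0, 1000, 483⟩, .l ⟨0, 10, 0, -9⟩ ⟨0, 0, -800, -663⟩, .l ⟨0, 10, 0, -10⟩ ⟨0, 0, -800, -663⟩, .l ⟨0, 10, 0, -9⟩ ⟨0, 2434, 3175, 3847⟩, .l ⟨0, 10, 0, -10⟩ ⟨0, 2434, 3175, 3847⟩] := by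
  refine rok_ds (s := 1) (nlo := 9) (nhi := 10) (q := 10) (by decide) (by decide) (by decide) (by decide) (k := 1) (by decide) (Q := [(0, 1000, -483), (0, -800, 663), (2434, 3175, -3847)])
    (P := [⟨-276480, 10, 0⟩, ⟨307200, -10, 0⟩, ⟨-14837760, 0, 1000⟩, ⟨20367360, 0, -800⟩, ⟨-118179840, 2434, 3175⟩]) rfl rfl
    (List.mem_of_getElem? (i := 24) rfl) TD_fr TD_cov ?_
  · intro X Y h
    simp only [List.forall_mem_cons, List.not_mem_nil, false_imp_iff, implies_true, and_true] at h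
    push_cast at h ⊢
    obtain ⟨h0, h1, h2, h3, h4⟩ := h
    refine ⟨⟨?_, ?_⟩, ?_, ?_⟩ <;> linarith

theorem TD_rg25 : ROK [.l ⟨0, 480, 0, -345⟩ ⟨0, 480, 0, 345⟩, .l ⟨0, -480, 0, 353⟩ ⟨0, 480, 0, 353⟩, .l ⟨0, 480, 0, -345⟩ ⟨0, -76, 3999, -5470⟩, .l ⟨0, 480, 0, -353⟩ ⟨0, -76, 3999, -5470⟩, .l ⟨0, 480, 0, -345⟩ ⟨0, 76, -3999, -3236⟩, .l ⟨0, 480, 0, -353⟩ ⟨0, 76, -3999, -3236⟩, .l ⟨0, 480, 0, -345⟩ ⟨0, 397, 411, 595⟩, .l ⟨0, 480, 0, -353⟩ ⟨0, 397, 411, 595⟩] := by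
  refine rok_ds (s := 1) (nlo := 345) (nhi := 353) (q := 480) (by decide) (by decide) (by decide) (by decide) (k := 1) (by decide) (Q := [(-76, 3999, 5470), (76, -3999, 3236), (397, 411, -595)])
    (P := [⟨-10598400, 480, 0⟩, ⟨10844160, -480, 0⟩, ⟨168038400, -76, 3999⟩, ⟨99409920, 76, -3999⟩, ⟨-18278400, 397, 411⟩]) rfl rfl
    (List.mem_of_getElem? (i := 25) rfl) TD_fr TD_cov ?_
  · intro X Y h
    simp only [List.forall_mem_cons, List.not_mem_nil, false_imp_iff, implies_true, and_true] at h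
    push_cast at h ⊢
    obtain ⟨h0, h1, h2, h3, h4⟩ := h
    refine ⟨⟨?_, ?_⟩, ?_, ?_⟩ <;> linarith

theorem TD_rg26 : ROK [.l ⟨0, 20, 0, -16⟩ ⟨0, 20, 0, 16⟩, .l ⟨0, -20, 0, 19⟩ ⟨0, 20, 0, 19⟩, .l ⟨0, 20, 0, -16⟩ ⟨0, 0, 1000, 501⟩, .l ⟨0, 20, 0, -19⟩ ⟨0, 0, 1000, 501⟩, .l ⟨0, 20, 0, -16⟩ ⟨0, 0, -2000, -1193⟩, .l ⟨0, 20, 0, -19⟩ ⟨0, 0, -2000, -1193⟩, .l ⟨0, 20, 0, -16⟩ ⟨0, 2851, 2805, 3969⟩, .l ⟨0, 20, 0, -19⟩ ⟨0, 2851, 2805, 3969⟩] := by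
  refine rok_ds (s := 1) (nlo := 16) (nhi := 19) (q := 20) (by decide) (by decide) (by decide) (by decide) (k := 1) (by decide) (Q := [(0, 1000, -501), (0, -2000, 1193), (2851, 2805, -3969)])
    (P := [⟨-491520, 20, 0⟩, ⟨583680, -20, 0⟩, ⟨-15390720, 0, 1000⟩, ⟨36648960, 0, -2000⟩, ⟨-121927680, 2851, 2805⟩]) rfl rfl
    (List.mem_of_getElem? (i := 26) rfl) TD_fr TD_cov ?_
  · intro X Y h
    simp only [List.forall_mem_cons, List.not_mem_nil, false_imp_iff, implies_true, and_true] at h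
    push_cast at h ⊢
    obtain ⟨h0, h1, h2, h3, h4⟩ := h
    refine ⟨⟨?_, ?_⟩, ?_, ?_⟩ <;> linarith

theorem TD_rg27 : ROK [.l ⟨0, 10, 0, -7⟩ ⟨0, 10, 0, 7⟩, .l ⟨0, -10, 0, 8⟩ ⟨0, 10, 0, 8⟩, .l ⟨0, 10, 0, -7⟩ ⟨0, 2349, 3238, 4069⟩, .l ⟨0, 10, 0, -8⟩ ⟨0, 2349, 3238, 4069⟩, .l ⟨0, 10, 0, -7⟩ ⟨0, -2349, -3238, -4341⟩, .l ⟨0, 10, 0, -8⟩ ⟨0, -2349, -3238, -4341⟩, .l ⟨0, 10, 0, -7⟩ ⟨0, 3704, 1509, 3892⟩, .l ⟨0, 10, 0, -8⟩ ⟨0, 3704, 1509, 3892⟩] := by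
  refine rok_ds (s := 1) (nlo := 7) (nhi := 8) (q := 10) (by decide) (by decide) (by decide) (by decide) (k := 1) (by decide) (Q := [(2349, 3238, -4069), (-2349, -3238, 4341), (3704, 1509, -3892)])
    (P := [⟨-215040, 10, 0⟩, ⟨245760, -10, 0⟩, ⟨-124999680, 2349, 3238⟩, ⟨133355520, -2349, -3238⟩, ⟨-119562240, 3704, 1509⟩]) rfl rfl
    (List.mem_of_getElem? (i := 27) rfl) TD_fr TD_cov ?_
  · intro X Y h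
    simp only [List.forall_mem_cons, List.not_mem_nil, false_imp_iff, implies_true, and_true] at h
    push_cast at h ⊢
    obtain ⟨h0, h1, h2, h3, h4⟩ := h
    refine ⟨⟨?_, ?_⟩, ?_, ?_⟩ <;> linarith

theorem TD_rg28 : ROK [.l ⟨0, 20, 0, -17⟩ ⟨0, 20, 0, 17⟩, .l ⟨0, -20, 0, 20⟩ ⟨0, 20, 0, 20⟩, .l ⟨0, 20, 0, -17⟩ ⟨0, 1467, 3721, 4645⟩, .l ⟨0, 20, 0, -20⟩ ⟨0, 1467, 3721, 4645⟩, .l ⟨0, 20, 0, -17⟩ ⟨0, 532, -3964, -3753⟩, .l ⟨0, 20, 0, -20⟩ ⟨0, 532, -3964, -3753⟩] := by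
  refine rok_ds (s := 1) (nlo := 17) (nhi := 20) (q := 20) (by decide) (by decide) (by decide) (by decide) (k := 1) (by decide) (Q := [(1467, 3721, -4645), (532, -3964, 3753)])
    (P := [⟨-522240, 20, 0⟩, ⟨614400, -20, 0⟩, ⟨-142694400, 1467, 3721⟩, ⟨115292160, 532, -3964⟩]) rfl rfl
    (List.mem_of_getElem? (i := 28) rfl) TD_fr TD_cov ?_
  · intro X Y h
    simp only [List.forall_mem_cons, List.not_mem_nil, false_imp_iff, implies_true, and_true] at h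
    push_cast at h ⊢
    obtain ⟨h0, h1, h2, h3⟩ := h
    refine ⟨⟨?_, ?_⟩, ?_, ?_⟩ <;> linarith

theorem TD_rg29 : ROK [.l ⟨0, 480, 0, -431⟩ ⟨0, 480, 0, 431⟩, .l ⟨0, -480, 0, 439⟩ ⟨0, 480, 0, 439⟩, .l ⟨0, 480, 0, -431⟩ ⟨0, 0, 4000, 3573⟩, .l ⟨0, 480, 0, -439⟩ ⟨0, 0, 4000, 3573⟩, .l ⟨0, 480, 0, -431⟩ ⟨0, 0, -4000, -4299⟩, .l ⟨0, 480, 0, -439⟩ ⟨0, 0, -4000, -4299⟩] := by
  refine rok_ds (s := 1) (nlo := 431) (nhi := 439) (q := 480) (by decide) (by decide) (by decide) (by decide) (k := 1) (by decide) (Q := [(0, 4000, -3573), (0, -4000, 4299)])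
    (P := [⟨-13240320, 480, 0⟩, ⟨13486080, -480, 0⟩, ⟨-109762560, 0, 4000⟩, ⟨132065280, 0, -4000⟩]) rfl rfl
    (List.mem_of_getElem? (i := 29) rfl) TD_fr TD_cov ?_
  · intro X Y h
    simp only [List.forall_mem_cons, List.not_mem_nil, false_imp_iff, implies_true, and_true] at h
    push_cast at h ⊢
    obtain ⟨h0, h1, h2, h3⟩ := h
    refine ⟨⟨?_, ?_⟩, ?_, ?_⟩ <;> linarith

theorem TD_rg30 : ROK [.l ⟨0, 10, 0, -7⟩ ⟨0, 10, 0, 7⟩, .l ⟨0, -10, 0, 8⟩ ⟨0, 10, 0, 8⟩, .l ⟨0, 10, 0, -7⟩ ⟨0, 0, 2000, 1399⟩, .l ⟨0, 10, 0, -8⟩ ⟨0, 0, 2000, 1399⟩, .l ⟨0, 10, 0, -7⟩ ⟨0, -377, -1964, -1871⟩, .l ⟨0, 10, 0, -8⟩ ⟨0, -377, -1964, -1871⟩, .l ⟨0, 10, 0, -7⟩ ⟨0, 3071, 2563, 4150⟩, .l ⟨0, 10, 0, -8⟩ ⟨0, 3071, 2563, 4150⟩] := by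
  refine rok_ds (s := 1) (nlo := 7) (nhi := 8) (q := 10) (by decide) (by decide) (by decide) (by decide) (k := 1) (by decide) (Q := [(0, 2000, -1399), (-377, -1964, 1871), (3071, 2563, -4150)])
    (P := [⟨-215040, 10, 0⟩, ⟨245760, -10, 0⟩, ⟨-42977280, 0, 2000⟩, ⟨57477120, -377, -1964⟩, ⟨-127488000, 3071, 2563⟩]) rfl rfl
    (List.mem_of_getElem? (i := 30) rfl) TD_fr TD_cov ?_
  · intro X Y h
    simp only [List.forall_mem_cons, List.not_mem_nil, false_imp_iff, implies_true, and_true] at h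
    push_cast at h ⊢
    obtain ⟨h0, h1, h2, h3, h4⟩ := h
    refine ⟨⟨?_, ?_⟩, ?_, ?_⟩ <;> linarith

theorem TD_rg31 : ROK [.l ⟨0, 10, 0, -8⟩ ⟨0, 10, 0, 8⟩, .l ⟨0, -10, 0, 9⟩ ⟨0, 10, 0, 9⟩, .l ⟨0, 10, 0, -8⟩ ⟨0, -147, 3997, 2547⟩, .l ⟨0, 10, 0, -9⟩ ⟨0, -147, 3997, 2547⟩, .l ⟨0, 10, 0, -8⟩ ⟨0, 147, -3997, -3191⟩, .l ⟨0, 10, 0, -9⟩ ⟨0, 147, -3997, -3191⟩] := by
  refine rok_ds (s := 1) (nlo := 8) (nhi := 9) (q := 10) (by decide) (by decide) (by decide) (by decide) (k := 1) (by decide) (Q := [(-147, 3997, -2547), (147, -3997, 3191)])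
    (P := [⟨-245760, 10, 0⟩, ⟨276480, -10, 0⟩, ⟨-78243840, -147, 3997⟩, ⟨98027520, 147, -3997⟩]) rfl rfl
    (List.mem_of_getElem? (i := 31) rfl) TD_fr TD_cov ?_
  · intro X Y h
    simp only [List.forall_mem_cons, List.not_mem_nil, false_imp_iff, implies_true, and_true] at h
    push_cast at h ⊢
    obtain ⟨h0, h1, h2, h3⟩ := h
    refine ⟨⟨?_, ?_⟩, ?_, ?_⟩ <;> linarith

theorem TD_rg32 : ROK [.l ⟨0, 20, 0, -15⟩ ⟨0, 20, 0, 15⟩, .l ⟨0, -20, 0, 18⟩ ⟨0, 20, 0, 18⟩, .l ⟨0, 20, 0, -15⟩ ⟨0, 98, 3999, 2952⟩, .l ⟨0, 20, 0, -18⟩ ⟨0, 98, 3999, 2952⟩, .l ⟨0, 20, 0, -15⟩ ⟨0, -98, -3999, -3372⟩, .l ⟨0, 20, 0, -18⟩ ⟨0, -98, -3999, -3372⟩] := by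
  refine rok_ds (s := 1) (nlo := 15) (nhi := 18) (q := 20) (by decide) (by decide) (by decide) (by decide) (k := 1) (by decide) (Q := [(98, 3999, -2952), (-98, -3999, 3372)])
    (P := [⟨-460800, 20, 0⟩, ⟨552960, -20, 0⟩, ⟨-90685440, 98, 3999⟩, ⟨103587840, -98, -3999⟩]) rfl rfl
    (List.mem_of_getElem? (i := 32) rfl) TD_fr TD_cov ?_
  · intro X Y h
    simp only [List.forall_mem_cons, List.not_mem_nil, false_imp_iff, implies_true, and_true] at h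
    push_cast at h ⊢
    obtain ⟨h0, h1, h2, h3⟩ := h
    refine ⟨⟨?_, ?_⟩, ?_, ?_⟩ <;> linarith

theorem TD_rg33 : ROK [.l ⟨0, 40, 0, -28⟩ ⟨0, 40, 0, 28⟩, .l ⟨0, -40, 0, 31⟩ ⟨0, 40, 0, 31⟩, .l ⟨0, 40, 0, -28⟩ ⟨0, 0, 500, -1107⟩, .l ⟨0, 40, 0, -31⟩ ⟨0, 0, 500, -1107⟩, .l ⟨0, 40, 0, -28⟩ ⟨0, -273, -3991, -3457⟩, .l ⟨0, 40, 0, -31⟩ ⟨0, -273, -3991, -3457⟩, .l ⟨0, 40, 0, -28⟩ ⟨0, 161, 236, 295⟩, .l ⟨0, 40, 0, -31⟩ ⟨0, 161, 236, 295⟩] := by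
  refine rok_ds (s := 1) (nlo := 28) (nhi := 31) (q := 40) (by decide) (by decide) (by decide) (by decide) (k := 1) (by decide) (Q := [(0, 500, 1107), (-273, -3991, 3457), (161, 236, -295)])
    (P := [⟨-860160, 40, 0⟩, ⟨952320, -40, 0⟩, ⟨34007040, 0, 500⟩, ⟨106199040, -273, -3991⟩, ⟨-9062400, 161, 236⟩]) rfl rfl
    (List.mem_of_getElem? (i := 33) rfl) TD_fr TD_cov ?_
  · intro X Y h
    simp only [List.forall_mem_cons, List.not_mem_nil, false_imp_iff, implies_true, and_true] at h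
    push_cast at h ⊢
    obtain ⟨h0, h1, h2, h3, h4⟩ := h
    refine ⟨⟨?_, ?_⟩, ?_, ?_⟩ <;> linarith

theorem TD_rg34 : ROK [.l ⟨0, 10, 0, -8⟩ ⟨0, 10, 0, 8⟩, .l ⟨0, -10, 0, 9⟩ ⟨0, 10, 0, 9⟩, .l ⟨0, 10, 0, -8⟩ ⟨0, 0, 4000, 3617⟩, .l ⟨0, 10, 0, -9⟩ ⟨0, 0, 4000, 3617⟩, .l ⟨0, 10, 0, -8⟩ ⟨0, 0, -4000, -4199⟩, .l ⟨0, 10, 0, -9⟩ ⟨0, 0, -4000, -4199⟩, .l ⟨0, 10, 0, -8⟩ ⟨0, 1388, 1440, 2507⟩, .l ⟨0, 10, 0, -9⟩ ⟨0, 1388, 1440, 2507⟩] := by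
  refine rok_ds (s := 1) (nlo := 8) (nhi := 9) (q := 10) (by decide) (by decide) (by decide) (by decide) (k := 1) (by decide) (Q := [(0, 4000, -3617), (0, -4000, 4199), (1388, 1440, -2507)])
    (P := [⟨-245760, 10, 0⟩, ⟨276480, -10, 0⟩, ⟨-111114240, 0, 4000⟩, ⟨128993280, 0, -4000⟩, ⟨-77015040, 1388, 1440⟩]) rfl rfl
    (List.mem_of_getElem? (i := 34) rfl) TD_fr TD_cov ?_
  · intro X Y h
    simp only [List.forall_mem_cons, List.not_mem_nil, false_imp_iff, implies_true, and_true] at h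
    push_cast at h ⊢
    obtain ⟨h0, h1, h2, h3, h4⟩ := h
    refine ⟨⟨?_, ?_⟩, ?_, ?_⟩ <;> linarith

theorem TD_rg35 : ROK [.l ⟨0, 80, 0, -61⟩ ⟨0, 80, 0, 61⟩, .l ⟨0, -80, 0, 65⟩ ⟨0, 80, 0, 65⟩, .l ⟨0, 80, 0, -61⟩ ⟨0, 1309, 1512, 2064⟩, .l ⟨0, 80, 0, -65⟩ ⟨0, 1309, 1512, 2064⟩, .l ⟨0, 80, 0, -61⟩ ⟨0, 257, -3992, -3093⟩, .l ⟨0, 80, 0, -65⟩ ⟨0, 257, -3992, -3093⟩] := by
  refine rok_ds (s := 1) (nlo := 61) (nhi := 65) (q := 80) (by decide) (by decide) (by decide) (by decide) (k := 1) (by decide) (Q := [(1309, 1512, -2064), (257, -3992, 3093)])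
    (P := [⟨-1873920, 80, 0⟩, ⟨1996800, -80, 0⟩, ⟨-63406080, 1309, 1512⟩, ⟨95016960, 257, -3992⟩]) rfl rfl
    (List.mem_of_getElem? (i := 35) rfl) TD_fr TD_cov ?_
  · intro X Y h
    simp only [List.forall_mem_cons, List.not_mem_nil, false_imp_iff, implies_true, and_true] at h
    push_cast at h ⊢
    obtain ⟨h0, h1, h2, h3⟩ := h
    refine ⟨⟨?_, ?_⟩, ?_, ?_⟩ <;> linarith

theorem TD_rg36 : ROK [.l ⟨0, 20, 0, -16⟩ ⟨0, 20, 0, 16⟩, .l ⟨0, -20, 0, 19⟩ ⟨0, 20, 0, 19⟩, .l ⟨0, 20, 0, -16⟩ ⟨0, 2381, 3214, 4980⟩, .l ⟨0, 20, 0, -19⟩ ⟨0, 2381, 3214, 4980⟩, .l ⟨0, 20, 0, -16⟩ ⟨0, 488, -3970, -3777⟩, .l ⟨0, 20, 0, -19⟩ ⟨0, 488, -3970, -3777⟩, .l ⟨0, 20, 0, -16⟩ ⟨0, -1632, 3652, 1867⟩, .l ⟨0, 20, 0, -19⟩ ⟨0, -1632, 3652, 1867⟩] := by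
  refine rok_ds (s := 1) (nlo := 16) (nhi := 19) (q := 20) (by decide) (by decide) (by decide) (by decide) (k := 1) (by decide) (Q := [(2381, 3214, -4980), (488, -3970, 3777), (-1632, 3652, -1867)])
    (P := [⟨-491520, 20, 0⟩, ⟨583680, -20, 0⟩, ⟨-152985600, 2381, 3214⟩, ⟨116029440, 488, -3970⟩, ⟨-57354240, -1632, 3652⟩]) rfl rfl
    (List.mem_of_getElem? (i := 36) rfl) TD_fr TD_cov ?_
  · intro X Y h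
    simp only [List.forall_mem_cons, List.not_mem_nil, false_imp_iff, implies_true, and_true] at h
    push_cast at h ⊢
    obtain ⟨h0, h1, h2, h3, h4⟩ := h
    refine ⟨⟨?_, ?_⟩, ?_, ?_⟩ <;> linarith

theorem TD_rg37 : ROK [.l ⟨0, 40, 0, -31⟩ ⟨0, 40, 0, 31⟩, .l ⟨0, -40, 0, 34⟩ ⟨0, 40, 0, 34⟩, .l ⟨0, 40, 0, -31⟩ ⟨0, 206, 3995, 2917⟩, .l ⟨0, 40, 0, -34⟩ ⟨0, 206, 3995, 2917⟩, .l ⟨0, 40, 0, -31⟩ ⟨0, -206, -3995, -3454⟩, .l ⟨0, 40, 0, -34⟩ ⟨0, -206, -3995, -3454⟩] := by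
  refine rok_ds (s := 1) (nlo := 31) (nhi := 34) (q := 40) (by decide) (by decide) (by decide) (by decide) (k := 1) (by decide) (Q := [(206, 3995, -2917), (-206, -3995, 3454)])
    (P := [⟨-952320, 40, 0⟩, ⟨1044480, -40, 0⟩, ⟨-89610240, 206, 3995⟩, ⟨106106880, -206, -3995⟩]) rfl rfl
    (List.mem_of_getElem? (i := 37) rfl) TD_fr TD_cov ?_
  · intro X Y h
    simp only [List.forall_mem_cons, List.not_mem_nil, false_imp_iff, implies_true, and_true] at h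
    push_cast at h ⊢
    obtain ⟨h0, h1, h2, h3⟩ := h
    refine ⟨⟨?_, ?_⟩, ?_, ?_⟩ <;> linarith

theorem TD_rg38 : ROK [.l ⟨0, 40, 0, -35⟩ ⟨0, 40, 0, 35⟩, .l ⟨0, -40, 0, 38⟩ ⟨0, 40, 0, 38⟩, .l ⟨0, 40, 0, -35⟩ ⟨0, 0, 4000, 2101⟩, .l ⟨0, 40, 0, -38⟩ ⟨0, 0, 4000, 2101⟩, .l ⟨0, 40, 0, -35⟩ ⟨0, 0, -400, -333⟩, .l ⟨0, 40, 0, -38⟩ ⟨0, 0, -400, -333⟩] := by
  refine rok_ds (s := 1) (nlo := 35) (nhi := 38) (q := 40) (by decide) (by decide) (by decide) (by decide) (k := 1) (by decide) (Q := [(0, 4000, -2101), (0, -400, 333)])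
    (P := [⟨-1075200, 40, 0⟩, ⟨1167360, -40, 0⟩, ⟨-64542720, 0, 4000⟩, ⟨10229760, 0, -400⟩]) rfl rfl
    (List.mem_of_getElem? (i := 38) rfl) TD_fr TD_cov ?_
  · intro X Y h
    simp only [List.forall_mem_cons, List.not_mem_nil, false_imp_iff, implies_true, and_true] at h
    push_cast at h ⊢
    obtain ⟨h0, h1, h2, h3⟩ := h
    refine ⟨⟨?_, ?_⟩, ?_, ?_⟩ <;> linarith

theorem TD_rg39 : ROK [.l ⟨0, 20, 0, -14⟩ ⟨0, 20, 0, 14⟩, .l ⟨0, -20, 0, 17⟩ ⟨0, 20, 0, 17⟩, .l ⟨0, 20, 0, -14⟩ ⟨0, 0, 2000, -3003⟩, .l ⟨0, 20, 0, -17⟩ ⟨0, 0, 2000, -3003⟩, .l ⟨0, 20, 0, -14⟩ ⟨0, 0, -2000, -1637⟩, .l ⟨0, 20, 0, -17⟩ ⟨0, 0, -2000, -1637⟩, .l ⟨0, 20, 0, -14⟩ ⟨0, 2950, 2701, 4169⟩, .l ⟨0, 20, 0, -17⟩ ⟨0, 2950, 2701, 4169⟩] := by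
  refine rok_ds (s := 1) (nlo := 14) (nhi := 17) (q := 20) (by decide) (by decide) (by decide) (by decide) (k := 1) (by decide) (Q := [(0, 2000, 3003), (0, -2000, 1637), (2950, 2701, -4169)])
    (P := [⟨-430080, 20, 0⟩, ⟨522240, -20, 0⟩, ⟨92252160, 0, 2000⟩, ⟨50288640, 0, -2000⟩, ⟨-128071680, 2950, 2701⟩]) rfl rfl
    (List.mem_of_getElem? (i := 39) rfl) TD_fr TD_cov ?_
  · intro X Y h
    simp only [List.forall_mem_cons, List.not_mem_nil, false_imp_iff, implies_true, and_true] at h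
    push_cast at h ⊢
    obtain ⟨h0, h1, h2, h3, h4⟩ := h
    refine ⟨⟨?_, ?_⟩, ?_, ?_⟩ <;> linarith

theorem TD_rg40 : ROK [.l ⟨0, 480, 0, -393⟩ ⟨0, 480, 0, 393⟩, .l ⟨0, -480, 0, 401⟩ ⟨0, 480, 0, 401⟩, .l ⟨0, 480, 0, -393⟩ ⟨0, 0, 4000, -8683⟩, .l ⟨0, 480, 0, -401⟩ ⟨0, 0, 4000, -8683⟩, .l ⟨0, 480, 0, -393⟩ ⟨0, 0, -1000, -831⟩, .l ⟨0, 480, 0, -401⟩ ⟨0, 0, -1000, -831⟩, .l ⟨0, 480, 0, -393⟩ ⟨0, -3702, 1515, -2042⟩, .l ⟨0, 480, 0, -401⟩ ⟨0, -3702, 1515, -2042⟩, .l ⟨0, 480, 0, -393⟩ ⟨0, 3499, -1938, 1263⟩, .l ⟨0, 480, 0, -401⟩ ⟨0, 3499, -1938, 1263⟩] := by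
  refine rok_ds (s := 1) (nlo := 393) (nhi := 401) (q := 480) (by decide) (by decide) (by decide) (by decide) (k := 1) (by decide) (Q := [(0, 4000, 8683), (0, -1000, 831), (-3702, 1515, 2042), (3499, -1938, -1263)])
    (P := [⟨-12072960, 480, 0⟩, ⟨12318720, -480, 0⟩, ⟨266741760, 0, 4000⟩, ⟨25528320, 0, -1000⟩, ⟨62730240, -3702, 1515⟩, ⟨-38799360, 3499, -1938⟩]) rfl rfl
    (List.mem_of_getElem? (i := 40) rfl) TD_fr TD_cov ?_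
  · intro X Y h
    simp only [List.forall_mem_cons, List.not_mem_nil, false_imp_iff, implies_true, and_true] at h
    push_cast at h ⊢
    obtain ⟨h0, h1, h2, h3, h4, h5⟩ := h
    refine ⟨⟨?_, ?_⟩, ?_, ?_⟩ <;> linarith

theorem TD_rg41 : ROK [.l ⟨0, 20, 0, -15⟩ ⟨0, 20, 0, 15⟩, .l ⟨0, -20, 0, 18⟩ ⟨0, 20, 0, 18⟩, .l ⟨0, 20, 0, -15⟩ ⟨0, 0, 2000, -2689⟩, .l ⟨0, 20, 0, -18⟩ ⟨0, 0, 2000, -2689⟩, .l ⟨0, 20, 0, -15⟩ ⟨0, 0, -4000, -3299⟩, .l ⟨0, 20, 0, -18⟩ ⟨0, 0, -4000, -3299⟩, .l ⟨0, 20, 0, -15⟩ ⟨0, 3182, 2424, 4183⟩, .l ⟨0, 20, 0, -18⟩ ⟨0, 3182, 2424, 4183⟩] := by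
  refine rok_ds (s := 1) (nlo := 15) (nhi := 18) (q := 20) (by decide) (by decide) (by decide) (by decide) (k := 1) (by decide) (Q := [(0, 2000, 2689), (0, -4000, 3299), (3182, 2424, -4183)])
    (P := [⟨-460800, 20, 0⟩, ⟨552960, -20, 0⟩, ⟨82606080, 0, 2000⟩, ⟨101345280, 0, -4000⟩, ⟨-128501760, 3182, 2424⟩]) rfl rfl
    (List.mem_of_getElem? (i := 41) rfl) TD_fr TD_cov ?_
  · intro X Y h
    simp only [List.forall_mem_cons, List.not_mem_nil, false_imp_iff, implies_true, and_true] at h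
    push_cast at h ⊢
    obtain ⟨h0, h1, h2, h3, h4⟩ := h
    refine ⟨⟨?_, ?_⟩, ?_, ?_⟩ <;> linarith

theorem TD_rg42 : ROK [.l ⟨0, 20, 0, -17⟩ ⟨0, 20, 0, 17⟩, .l ⟨0, -20, 0, 19⟩ ⟨0, 20, 0, 19⟩, .l ⟨0, 20, 0, -17⟩ ⟨0, -1767, 3588, -9833⟩, .l ⟨0, 20, 0, -19⟩ ⟨0, -1767, 3588, -9833⟩, .l ⟨0, 20, 0, -17⟩ ⟨0, 970, -1749, -1018⟩, .l ⟨0, 20, 0, -19⟩ ⟨0, 970, -1749, -1018⟩, .l ⟨0, 20, 0, -17⟩ ⟨0, -2576, 3060, 603⟩, .l ⟨0, 20, 0, -19⟩ ⟨0, -2576, 3060, 603⟩, .l ⟨0, 20, 0, -17⟩ ⟨0, 499, -3969, -3810⟩, .l ⟨0, 20, 0, -19⟩ ⟨0, 499, -3969, -3810⟩] := by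
  refine rok_ds (s := 1) (nlo := 17) (nhi := 19) (q := 20) (by decide) (by decide) (by decide) (by decide) (k := 1) (by decide) (Q := [(-1767, 3588, 9833), (970, -1749, 1018), (-2576, 3060, -603), (499, -3969, 3810)])
    (P := [⟨-522240, 20, 0⟩, ⟨583680, -20, 0⟩, ⟨302069760, -1767, 3588⟩, ⟨31272960, 970, -1749⟩, ⟨-18524160, -2576, 3060⟩, ⟨117043200, 499, -3969⟩]) rfl rfl
    (List.mem_of_getElem? (i := 42) rfl) TD_fr TD_cov ?_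
  · intro X Y h
    simp only [List.forall_mem_cons, List.not_mem_nil, false_imp_iff, implies_true, and_true] at h
    push_cast at h ⊢
    obtain ⟨h0, h1, h2, h3, h4, h5⟩ := h
    refine ⟨⟨?_, ?_⟩, ?_, ?_⟩ <;> linarith

theorem TD_rg43 : ROK [.l ⟨0, 40, 0, -37⟩ ⟨0, 40, 0, 37⟩, .l ⟨0, -40, 0, 41⟩ ⟨0, 40, 0, 41⟩, .l ⟨0, 40, 0, -37⟩ ⟨0, 0, 2000, 1763⟩, .l ⟨0, 40, 0, -41⟩ ⟨0, 0, 2000, 1763⟩, .l ⟨0, 40, 0, -37⟩ ⟨0, 0, -4000, -4311⟩, .l ⟨0, 40, 0, -41⟩ ⟨0, 0, -4000, -4311⟩] := by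
  refine rok_ds (s := 1) (nlo := 37) (nhi := 41) (q := 40) (by decide) (by decide) (by decide) (by decide) (k := 1) (by decide) (Q := [(0, 2000, -1763), (0, -4000, 4311)])
    (P := [⟨-1136640, 40, 0⟩, ⟨1259520, -40, 0⟩, ⟨-54159360, 0, 2000⟩, ⟨132433920, 0, -4000⟩]) rfl rfl
    (List.mem_of_getElem? (i := 43) rfl) TD_fr TD_cov ?_
  · intro X Y h
    simp only [List.forall_mem_cons, List.not_mem_nil, false_imp_iff, implies_true, and_true] at h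
    push_cast at h ⊢
    obtain ⟨h0, h1, h2, h3⟩ := h
    refine ⟨⟨?_, ?_⟩, ?_, ?_⟩ <;> linarith

theorem TD_rg44 : ROK [.l ⟨0, 20, 0, -17⟩ ⟨0, 20, 0, 17⟩, .l ⟨0, -20, 0, 20⟩ ⟨0, 20, 0, 20⟩, .l ⟨0, 20, 0, -17⟩ ⟨0, 0, 4000, 2101⟩, .l ⟨0, 20, 0, -20⟩ ⟨0, 0, 4000, 2101⟩, .l ⟨0, 20, 0, -17⟩ ⟨0, 0, -800, -663⟩, .l ⟨0, 20, 0, -20⟩ ⟨0, 0, -800, -663⟩] := by
  refine rok_ds (s := 1) (nlo := 17) (nhi := 20) (q := 20) (by decide) (by decide) (by decide) (by decide) (k := 1) (by decide) (Q := [(0, 4000, -2101), (0, -800, 663)])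
    (P := [⟨-522240, 20, 0⟩, ⟨614400, -20, 0⟩, ⟨-64542720, 0, 4000⟩, ⟨20367360, 0, -800⟩]) rfl rfl
    (List.mem_of_getElem? (i := 44) rfl) TD_fr TD_cov ?_
  · intro X Y h
    simp only [List.forall_mem_cons, List.not_mem_nil, false_imp_iff, implies_true, and_true] at h
    push_cast at h ⊢
    obtain ⟨h0, h1, h2, h3⟩ := h
    refine ⟨⟨?_, ?_⟩, ?_, ?_⟩ <;> linarith

theorem TD_rg45 : ROK [.l ⟨0, 80, 0, -66⟩ ⟨0, 80, 0, 66⟩, .l ⟨0, -80, 0, 69⟩ ⟨0, 80, 0, 69⟩, .l ⟨0, 80, 0, -66⟩ ⟨0, 1362, 1465, 2493⟩, .l ⟨0, 80, 0, -69⟩ ⟨0, 1362, 1465, 2493⟩, .l ⟨0, 80, 0, -66⟩ ⟨0, -2724, -2930, -5337⟩, .l ⟨0, 80, 0, -69⟩ ⟨0, -2724, -2930, -5337⟩, .l ⟨0, 80, 0, -66⟩ ⟨0, -1374, 1453, 154⟩, .l ⟨0, 80, 0, -69⟩ ⟨0, -1374, 1453, 154⟩] := by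
  refine rok_ds (s := 1) (nlo := 66) (nhi := 69) (q := 80) (by decide) (by decide) (by decide) (by decide) (k := 1) (by decide) (Q := [(1362, 1465, -2493), (-2724, -2930, 5337), (-1374, 1453, -154)])
    (P := [⟨-2027520, 80, 0⟩, ⟨2119680, -80, 0⟩, ⟨-76584960, 1362, 1465⟩, ⟨163952640, -2724, -2930⟩, ⟨-4730880, -1374, 1453⟩]) rfl rfl
    (List.mem_of_getElem? (i := 45) rfl) TD_fr TD_cov ?_
  · intro X Y h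
    simp only [List.forall_mem_cons, List.not_mem_nil, false_imp_iff, implies_true, and_true] at h
    push_cast at h ⊢
    obtain ⟨h0, h1, h2, h3, h4⟩ := h
    refine ⟨⟨?_, ?_⟩, ?_, ?_⟩ <;> linarith

theorem TD_rg46 : ROK [.l ⟨0, 40, 0, -38⟩ ⟨0, 40, 0, 38⟩, .l ⟨0, -40, 0, 41⟩ ⟨0, 40, 0, 41⟩, .l ⟨0, 40, 0, -38⟩ ⟨0, 1207, 3814, 3004⟩, .l ⟨0, 40, 0, -41⟩ ⟨0, 1207, 3814, 3004⟩, .l ⟨0, 40, 0, -38⟩ ⟨0, -51, -4000, -3350⟩, .l ⟨0, 40, 0, -41⟩ ⟨0, -51, -4000, -3350⟩] := by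
  refine rok_ds (s := 1) (nlo := 38) (nhi := 41) (q := 40) (by decide) (by decide) (by decide) (by decide) (k := 1) (by decide) (Q := [(1207, 3814, -3004), (-51, -4000, 3350)])
    (P := [⟨-1167360, 40, 0⟩, ⟨1259520, -40, 0⟩, ⟨-92282880, 1207, 3814⟩, ⟨102912000, -51, -4000⟩]) rfl rfl
    (List.mem_of_getElem? (i := 46) rfl) TD_fr TD_cov ?_
  · intro X Y h
    simp only [List.forall_mem_cons, List.not_mem_nil, false_imp_iff, implies_true, and_true] at h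
    push_cast at h ⊢
    obtain ⟨h0, h1, h2, h3⟩ := h
    refine ⟨⟨?_, ?_⟩, ?_, ?_⟩ <;> linarith

theorem TD_rg47 : ROK [.l ⟨0, 20, 0, -16⟩ ⟨0, 20, 0, 16⟩, .l ⟨0, -20, 0, 19⟩ ⟨0, 20, 0, 19⟩, .l ⟨0, 20, 0, -16⟩ ⟨0, 0, 4000, -8697⟩, .l ⟨0, 20, 0, -19⟩ ⟨0, 0, 4000, -8697⟩, .l ⟨0, 20, 0, -16⟩ ⟨0, 0, -400, -333⟩, .l ⟨0, 20, 0, -19⟩ ⟨0, 0, -400, -333⟩, .l ⟨0, 20, 0, -16⟩ ⟨0, 95, 1998, 1408⟩, .l ⟨0, 20, 0, -19⟩ ⟨0, 95, 1998, 1408⟩, .l ⟨0, 20, 0, -16⟩ ⟨0, 721, -3934, -2656⟩, .l ⟨0, 20, 0, -19⟩ ⟨0, 721, -3934, -2656⟩] := by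
  refine rok_ds (s := 1) (nlo := 16) (nhi := 19) (q := 20) (by decide) (by decide) (by decide) (by decide) (k := 1) (by decide) (Q := [(0, 4000, 8697), (0, -400, 333), (95, 1998, -1408), (721, -3934, 2656)])
    (P := [⟨-491520, 20, 0⟩, ⟨583680, -20, 0⟩, ⟨267171840, 0, 4000⟩, ⟨10229760, 0, -400⟩, ⟨-43253760, 95, 1998⟩, ⟨81592320, 721, -3934⟩]) rfl rfl
    (List.mem_of_getElem? (i := 47) rfl) TD_fr TD_cov ?_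
  · intro X Y h
    simp only [List.forall_mem_cons, List.not_mem_nil, false_imp_iff, implies_true, and_true] at h
    push_cast at h ⊢
    obtain ⟨h0, h1, h2, h3, h4, h5⟩ := h
    refine ⟨⟨?_, ?_⟩, ?_, ?_⟩ <;> linarith

end Pool.Agent.TET
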