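import Pool.Agent.Helper38_TET.TD_C

/-!
# MP_c7c9bf_co: certificates, family TD
-/

set_option autoImplicit false
set_option maxRecDepth 100000

namespace Pool.Agent.TET

theorem TD_rg240 : ROK [.l ⟨0, 960, 0, -827⟩ ⟨0, 960, 0, 827⟩, .l ⟨0, -960, 0, 834⟩ ⟨0, 960, 0, 834⟩, .l ⟨0, 960, 0, -827⟩ ⟨0, 0, 4000, 2053⟩, .l ⟨0, 960, 0, -834⟩ ⟨0, 0, 4000, 2053⟩, .l ⟨0, 960, 0, -827⟩ ⟨0, 0, -2000, -1671⟩, .l ⟨0, 960, 0, -834⟩ ⟨0, 0, -2000, -1671⟩] := by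
  refine rok_ds (s := 1) (nlo := 827) (nhi := 834) (q := 960) (by decide) (by decide) (by decide) (by decide) (k := 1) (by decide) (Q := [(0, 4000, -2053), (0, -2000, 1671)])
    (P := [⟨-25405440, 960, 0⟩, ⟨25620480, -960, 0⟩, ⟨-63068160, 0, 4000⟩, ⟨51333120, 0, -2000⟩]) rfl rfl
    (List.mem_of_getElem? (i := 240) rfl) TD_fr TD_cov ?_
  · intro X Y h
    simp only [List.forall_mem_cons, List.not_mem_nil, false_imp_iff, implies_true, and_true] at h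
    push_cast at h ⊢
    obtain ⟨h0, h1, h2, h3⟩ := h
    refine ⟨⟨?_, ?_⟩, ?_, ?_⟩ <;> linarith

theorem TD_rg241 : ROK [.l ⟨0, 480, 0, -401⟩ ⟨0, 480, 0, 401⟩, .l ⟨0, -480, 0, 409⟩ ⟨0, 480, 0, 409⟩, .l ⟨0, 480, 0, -401⟩ ⟨0, 1378, 3755, 4579⟩, .l ⟨0, 480, 0, -409⟩ ⟨0, 1378, 3755, 4579⟩, .l ⟨0, 480, 0, -401⟩ ⟨0, -2510, -3115, -5406⟩, .l ⟨0, 480, 0, -409⟩ ⟨0, -2510, -3115, -5406⟩] := by
  refine rok_ds (s := 1) (nlo := 401) (nhi := 409) (q := 480) (by decide) (by decide) (by decide) (by decide) (k := 1) (by decide) (Q := [(1378, 3755, -4579), (-2510, -3115, 5406)])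
    (P := [⟨-12318720, 480, 0⟩, ⟨12564480, -480, 0⟩, ⟨-140666880, 1378, 3755⟩, ⟨166072320, -2510, -3115⟩]) rfl rfl
    (List.mem_of_getElem? (i := 241) rfl) TD_fr TD_cov ?_
  · intro X Y h
    simp only [List.forall_mem_cons, List.not_mem_nil, false_imp_iff, implies_true, and_true] at h
    push_cast at h ⊢
    obtain ⟨h0, h1, h2, h3⟩ := h
    refine ⟨⟨?_, ?_⟩, ?_, ?_⟩ <;> linarith

theorem TD_rg242 : ROK [.l ⟨0, 480, 0, -423⟩ ⟨0, 480, 0, 423⟩, .l ⟨0, -480, 0, 431⟩ ⟨0, 480, 0, 431⟩, .l ⟨0, 480, 0, -423⟩ ⟨0, -1200, 1600, 357⟩, .l ⟨0, 480, 0, -431⟩ ⟨0, -1200, 1600, 357⟩, .l ⟨0, 480, 0, -423⟩ ⟨0, 2400, -3200, -1283⟩, .l ⟨0, 480, 0, -431⟩ ⟨0, 2400, -3200, -1283⟩, .l ⟨0, 480, 0, -423⟩ ⟨0, 2815, 2842, 5039⟩, .l ⟨0, 480, 0, -431⟩ ⟨0, 2815, 2842, 5039⟩] := by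
  refine rok_ds (s := 1) (nlo := 423) (nhi := 431) (q := 480) (by decide) (by decide) (by decide) (by decide) (k := 1) (by decide) (Q := [(-1200, 1600, -357), (2400, -3200, 1283), (2815, 2842, -5039)])
    (P := [⟨-12994560, 480, 0⟩, ⟨13240320, -480, 0⟩, ⟨-10967040, -1200, 1600⟩, ⟨39413760, 2400, -3200⟩, ⟨-154798080, 2815, 2842⟩]) rfl rfl
    (List.mem_of_getElem? (i := 242) rfl) TD_fr TD_cov ?_
  · intro X Y h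
    simp only [List.forall_mem_cons, List.not_mem_nil, false_imp_iff, implies_true, and_true] at h
    push_cast at h ⊢
    obtain ⟨h0, h1, h2, h3, h4⟩ := h
    refine ⟨⟨?_, ?_⟩, ?_, ?_⟩ <;> linarith

theorem TD_rg243 : ROK [.l ⟨0, 40, 0, -35⟩ ⟨0, 40, 0, 35⟩, .l ⟨0, -40, 0, 38⟩ ⟨0, 40, 0, 38⟩, .l ⟨0, 40, 0, -35⟩ ⟨0, 0, 2000, 1799⟩, .l ⟨0, 40, 0, -38⟩ ⟨0, 0, 2000, 1799⟩, .l ⟨0, 40, 0, -35⟩ ⟨0, 344, -3985, -3974⟩, .l ⟨0, 40, 0, -38⟩ ⟨0, 344, -3985, -3974⟩, .l ⟨0, 40, 0, -35⟩ ⟨0, 3294, -2269, 585⟩, .l ⟨0, 40, 0, -38⟩ ⟨0, 3294, -2269, 585⟩] := by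
  refine rok_ds (s := 1) (nlo := 35) (nhi := 38) (q := 40) (by decide) (by decide) (by decide) (by decide) (k := 1) (by decide) (Q := [(0, 2000, -1799), (344, -3985, 3974), (3294, -2269, -585)])
    (P := [⟨-1075200, 40, 0⟩, ⟨1167360, -40, 0⟩, ⟨-55265280, 0, 2000⟩, ⟨122081280, 344, -3985⟩, ⟨-17971200, 3294, -2269⟩]) rfl rfl
    (List.mem_of_getElem? (i := 243) rfl) TD_fr TD_cov ?_
  · intro X Y h
    simp only [List.forall_mem_cons, List.not_mem_nil, false_imp_iff, implies_true, and_true] at h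
    push_cast at h ⊢
    obtain ⟨h0, h1, h2, h3, h4⟩ := h
    refine ⟨⟨?_, ?_⟩, ?_, ?_⟩ <;> linarith

theorem TD_rg244 : ROK [.l ⟨0, 960, 0, -818⟩ ⟨0, 960, 0, 818⟩, .l ⟨0, -960, 0, 825⟩ ⟨0, 960, 0, 825⟩, .l ⟨0, 960, 0, -818⟩ ⟨0, 822, 3915, -5354⟩, .l ⟨0, 960, 0, -825⟩ ⟨0, 822, 3915, -5354⟩, .l ⟨0, 960, 0, -818⟩ ⟨0, -274, -1305, -1325⟩, .l ⟨0, 960, 0, -825⟩ ⟨0, -274, -1305, -1325⟩, .l ⟨0, 960, 0, -818⟩ ⟨0, 2929, 2724, 3921⟩, .l ⟨0, 960, 0, -825⟩ ⟨0, 2929, 2724, 3921⟩, .l ⟨0, 960, 0, -818⟩ ⟨0, 1957, -3489, -1239⟩, .l ⟨0, 960, 0, -825⟩ ⟨0, 1957, -3489, -1239⟩] := by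
  refine rok_ds (s := 1) (nlo := 818) (nhi := 825) (q := 960) (by decide) (by decide) (by decide) (by decide) (k := 1) (by decide) (Q := [(822, 3915, 5354), (-274, -1305, 1325), (2929, 2724, -3921), (1957, -3489, 1239)])
    (P := [⟨-25128960, 960, 0⟩, ⟨25344000, -960, 0⟩, ⟨164474880, 822, 3915⟩, ⟨40704000, -274, -1305⟩, ⟨-120453120, 2929, 2724⟩, ⟨38062080, 1957, -3489⟩]) rfl rfl
    (List.mem_of_getElem? (i := 244) rfl) TD_fr TD_cov ?_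
  · intro X Y h
    simp only [List.forall_mem_cons, List.not_mem_nil, false_imp_iff, implies_true, and_true] at h
    push_cast at h ⊢
    obtain ⟨h0, h1, h2, h3, h4, h5⟩ := h
    refine ⟨⟨?_, ?_⟩, ?_, ?_⟩ <;> linarith

theorem TD_rg245 : ROK [.l ⟨0, 240, 0, -219⟩ ⟨0, 240, 0, 219⟩, .l ⟨0, -240, 0, 223⟩ ⟨0, 240, 0, 223⟩, .l ⟨0, 240, 0, -219⟩ ⟨0, -365, 3983, 3188⟩, .l ⟨0, 240, 0, -223⟩ ⟨0, -365, 3983, 3188⟩, .l ⟨0, 240, 0, -219⟩ ⟨0, 365, -3983, -3954⟩, .l ⟨0, 240, 0, -223⟩ ⟨0, 365, -3983, -3954⟩, .l ⟨0, 240, 0, -219⟩ ⟨0, 688, -1142, -597⟩, .l ⟨0, 240, 0, -223⟩ ⟨0, 688, -1142, -597⟩] := by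
  refine rok_ds (s := 1) (nlo := 219) (nhi := 223) (q := 240) (by decide) (by decide) (by decide) (by decide) (k := 1) (by decide) (Q := [(-365, 3983, -3188), (365, -3983, 3954), (688, -1142, 597)])
    (P := [⟨-6727680, 240, 0⟩, ⟨6850560, -240, 0⟩, ⟨-97935360, -365, 3983⟩, ⟨121466880, 365, -3983⟩, ⟨18339840, 688, -1142⟩]) rfl rfl
    (List.mem_of_getElem? (i := 245) rfl) TD_fr TD_cov ?_
  · intro X Y h
    simp only [List.forall_mem_cons, List.not_mem_nil, false_imp_iff, implies_true, and_true] at h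
    push_cast at h ⊢
    obtain ⟨h0, h1, h2, h3, h4⟩ := h
    refine ⟨⟨?_, ?_⟩, ?_, ?_⟩ <;> linarith

theorem TD_rg246 : ROK [.l ⟨0, 480, 0, -414⟩ ⟨0, 480, 0, 414⟩, .l ⟨0, -480, 0, 421⟩ ⟨0, 480, 0, 421⟩, .l ⟨0, 480, 0, -414⟩ ⟨0, 2135, 3382, 3645⟩, .l ⟨0, 480, 0, -421⟩ ⟨0, 2135, 3382, 3645⟩, .l ⟨0, 480, 0, -414⟩ ⟨0, -129, -1996, -1779⟩, .l ⟨0, 480, 0, -421⟩ ⟨0, -129, -1996, -1779⟩] := by
  refine rok_ds (s := 1) (nlo := 414) (nhi := 421) (q := 480) (by decide) (by decide) (by decide) (by decide) (k := 1) (by decide) (Q := [(2135, 3382, -3645), (-129, -1996, 1779)])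
    (P := [⟨-12718080, 480, 0⟩, ⟨12933120, -480, 0⟩, ⟨-111974400, 2135, 3382⟩, ⟨54650880, -129, -1996⟩]) rfl rfl
    (List.mem_of_getElem? (i := 246) rfl) TD_fr TD_cov ?_
  · intro X Y h
    simp only [List.forall_mem_cons, List.not_mem_nil, false_imp_iff, implies_true, and_true] at h
    push_cast at h ⊢
    obtain ⟨h0, h1, h2, h3⟩ := h
    refine ⟨⟨?_, ?_⟩, ?_, ?_⟩ <;> linarith

theorem TD_rg247 : ROK [.l ⟨0, 960, 0, -869⟩ ⟨0, 960, 0, 869⟩, .l ⟨0, -960, 0, 879⟩ ⟨0, 960, 0, 879⟩, .l ⟨0, 960, 0, -869⟩ ⟨0, 0, 1000, -2113⟩, .l ⟨0, 960, 0, -879⟩ ⟨0, 0, 1000, -2113⟩, .l ⟨0, 960, 0, -869⟩ ⟨0, 381, -3982, -3934⟩, .l ⟨0, 960, 0, -879⟩ ⟨0, 381, -3982, -3934⟩, .l ⟨0, 960, 0, -869⟩ ⟨0, 1288, 3787, 4527⟩, .l ⟨0, 960, 0, -879⟩ ⟨0, 1288, 3787, 4527⟩] := by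
  refine rok_ds (s := 1) (nlo := 869) (nhi := 879) (q := 960) (by decide) (by decide) (by decide) (by decide) (k := 1) (by decide) (Q := [(0, 1000, 2113), (381, -3982, 3934), (1288, 3787, -4527)])
    (P := [⟨-26695680, 960, 0⟩, ⟨27002880, -960, 0⟩, ⟨64911360, 0, 1000⟩, ⟨120852480, 381, -3982⟩, ⟨-139069440, 1288, 3787⟩]) rfl rfl
    (List.mem_of_getElem? (i := 247) rfl) TD_fr TD_cov ?_
  · intro X Y h
    simp only [List.forall_mem_cons, List.not_mem_nil, false_imp_iff, implies_true, and_true] at h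
    push_cast at h ⊢
    obtain ⟨h0, h1, h2, h3, h4⟩ := h
    refine ⟨⟨?_, ?_⟩, ?_, ?_⟩ <;> linarith

theorem TD_rg248 : ROK [.l ⟨0, 320, 0, -294⟩ ⟨0, 320, 0, 294⟩, .l ⟨0, -320, 0, 297⟩ ⟨0, 320, 0, 297⟩, .l ⟨0, 320, 0, -294⟩ ⟨0, -90, 3999, -5071⟩, .l ⟨0, 320, 0, -297⟩ ⟨0, -90, 3999, -5071⟩, .l ⟨0, 320, 0, -294⟩ ⟨0, 30, -1333, -1409⟩, .l ⟨0, 320, 0, -297⟩ ⟨0, 30, -1333, -1409⟩, .l ⟨0, 320, 0, -294⟩ ⟨0, -1113, 3842, 2346⟩, .l ⟨0, 320, 0, -297⟩ ⟨0, -1113, 3842, 2346⟩, .l ⟨0, 320, 0, -294⟩ ⟨0, 3191, -2412, 337⟩, .l ⟨0, 320, 0, -297⟩ ⟨0, 3191, -2412, 337⟩] := by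
  refine rok_ds (s := 1) (nlo := 294) (nhi := 297) (q := 320) (by decide) (by decide) (by decide) (by decide) (k := 1) (by decide) (Q := [(-90, 3999, 5071), (30, -1333, 1409), (-1113, 3842, -2346), (3191, -2412, -337)])
    (P := [⟨-9031680, 320, 0⟩, ⟨9123840, -320, 0⟩, ⟨155781120, -90, 3999⟩, ⟨43284480, 30, -1333⟩, ⟨-72069120, -1113, 3842⟩, ⟨-10352640, 3191, -2412⟩]) rfl rfl
    (List.mem_of_getElem? (i := 248) rfl) TD_fr TD_cov ?_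
  · intro X Y h
    simp only [List.forall_mem_cons, List.not_mem_nil, false_imp_iff, implies_true, and_true] at h
    push_cast at h ⊢
    obtain ⟨h0, h1, h2, h3, h4, h5⟩ := h
    refine ⟨⟨?_, ?_⟩, ?_, ?_⟩ <;> linarith

theorem TD_rg249 : ROK [.l ⟨0, 192, 0, -179⟩ ⟨0, 192, 0, 179⟩, .l ⟨0, -192, 0, 181⟩ ⟨0, 192, 0, 181⟩, .l ⟨0, 192, 0, -179⟩ ⟨0, 0, 250, 219⟩, .l ⟨0, 192, 0, -181⟩ ⟨0, 0, 250, 219⟩, .l ⟨0, 192, 0, -179⟩ ⟨0, 0, -800, -863⟩, .l ⟨0, 192, 0, -181⟩ ⟨0, 0, -800, -863⟩] := by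
  refine rok_ds (s := 1) (nlo := 179) (nhi := 181) (q := 192) (by decide) (by decide) (by decide) (by decide) (k := 1) (by decide) (Q := [(0, 250, -219), (0, -800, 863)])
    (P := [⟨-5498880, 192, 0⟩, ⟨5560320, -192, 0⟩, ⟨-6727680, 0, 250⟩, ⟨26511360, 0, -800⟩]) rfl rfl
    (List.mem_of_getElem? (i := 249) rfl) TD_fr TD_cov ?_
  · intro X Y h
    simp only [List.forall_mem_cons, List.not_mem_nil, false_imp_iff, implies_true, and_true] at h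
    push_cast at h ⊢
    obtain ⟨h0, h1, h2, h3⟩ := h
    refine ⟨⟨?_, ?_⟩, ?_, ?_⟩ <;> linarith

theorem TD_rg250 : ROK [.l ⟨0, 480, 0, -401⟩ ⟨0, 480, 0, 401⟩, .l ⟨0, -480, 0, 411⟩ ⟨0, 480, 0, 411⟩, .l ⟨0, 480, 0, -401⟩ ⟨0, 0, 4000, -8687⟩, .l ⟨0, 480, 0, -411⟩ ⟨0, 0, 4000, -8687⟩, .l ⟨0, 480, 0, -401⟩ ⟨0, -593, -3956, -3806⟩, .l ⟨0, 480, 0, -411⟩ ⟨0, -593, -3956, -3806⟩, .l ⟨0, 480, 0, -401⟩ ⟨0, -3525, 1890, -1951⟩, .l ⟨0, 480, 0, -411⟩ ⟨0, -3525, 1890, -1951⟩, .l ⟨0, 480, 0, -401⟩ ⟨0, 1436, -3733, -1898⟩, .l ⟨0, 480, 0, -411⟩ ⟨0, 1436, -3733, -1898⟩] := by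
  refine rok_ds (s := 1) (nlo := 401) (nhi := 411) (q := 480) (by decide) (by decide) (by decide) (by decide) (k := 1) (by decide) (Q := [(0, 4000, 8687), (-593, -3956, 3806), (-3525, 1890, 1951), (1436, -3733, 1898)])
    (P := [⟨-12318720, 480, 0⟩, ⟨12625920, -480, 0⟩, ⟨266864640, 0, 4000⟩, ⟨116920320, -593, -3956⟩, ⟨59934720, -3525, 1890⟩, ⟨58306560, 1436, -3733⟩]) rfl rfl
    (List.mem_of_getElem? (i := 250) rfl) TD_fr TD_cov ?_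
  · intro X Y h
    simp only [List.forall_mem_cons, List.not_mem_nil, false_imp_iff, implies_true, and_true] at h
    push_cast at h ⊢
    obtain ⟨h0, h1, h2, h3, h4, h5⟩ := h
    refine ⟨⟨?_, ?_⟩, ?_, ?_⟩ <;> linarith

theorem TD_rg251 : ROK [.l ⟨0, 240, 0, -221⟩ ⟨0, 240, 0, 221⟩, .l ⟨0, -240, 0, 226⟩ ⟨0, 240, 0, 226⟩, .l ⟨0, 240, 0, -221⟩ ⟨0, 0, 2000, 1757⟩, .l ⟨0, 240, 0, -226⟩ ⟨0, 0, 2000, 1757⟩, .l ⟨0, 240, 0, -221⟩ ⟨0, 0, -4000, -4311⟩, .l ⟨0, 240, 0, -226⟩ ⟨0, 0, -4000, -4311⟩] := by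
  refine rok_ds (s := 1) (nlo := 221) (nhi := 226) (q := 240) (by decide) (by decide) (by decide) (by decide) (k := 1) (by decide) (Q := [(0, 2000, -1757), (0, -4000, 4311)])
    (P := [⟨-6789120, 240, 0⟩, ⟨6942720, -240, 0⟩, ⟨-53975040, 0, 2000⟩, ⟨132433920, 0, -4000⟩]) rfl rfl
    (List.mem_of_getElem? (i := 251) rfl) TD_fr TD_cov ?_
  · intro X Y h
    simp only [List.forall_mem_cons, List.not_mem_nil, false_imp_iff, implies_true, and_true] at h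
    push_cast at h ⊢
    obtain ⟨h0, h1, h2, h3⟩ := h
    refine ⟨⟨?_, ?_⟩, ?_, ?_⟩ <;> linarith

theorem TD_rg252 : ROK [.l ⟨0, 960, 0, -819⟩ ⟨0, 960, 0, 819⟩, .l ⟨0, -960, 0, 826⟩ ⟨0, 960, 0, 826⟩, .l ⟨0, 960, 0, -819⟩ ⟨0, 0, 4000, 2071⟩, .l ⟨0, 960, 0, -826⟩ ⟨0, 0, 4000, 2071⟩, .l ⟨0, 960, 0, -819⟩ ⟨0, 0, -200, -167⟩, .l ⟨0, 960, 0, -826⟩ ⟨0, 0, -200, -167⟩] := by
  refine rok_ds (s := 1) (nlo := 819) (nhi := 826) (q := 960) (by decide) (by decide) (by decide) (by decide) (k := 1) (by decide) (Q := [(0, 4000, -2071), (0, -200, 167)])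
    (P := [⟨-25159680, 960, 0⟩, ⟨25374720, -960, 0⟩, ⟨-63621120, 0, 4000⟩, ⟨5130240, 0, -200⟩]) rfl rfl
    (List.mem_of_getElem? (i := 252) rfl) TD_fr TD_cov ?_
  · intro X Y h
    simp only [List.forall_mem_cons, List.not_mem_nil, false_imp_iff, implies_true, and_true] at h
    push_cast at h ⊢
    obtain ⟨h0, h1, h2, h3⟩ := h
    refine ⟨⟨?_, ?_⟩, ?_, ?_⟩ <;> linarith

theorem TD_rg253 : ROK [.l ⟨0, 40, 0, -33⟩ ⟨0, 40, 0, 33⟩, .l ⟨0, -40, 0, 36⟩ ⟨0, 40, 0, 36⟩, .l ⟨0, 40, 0, -33⟩ ⟨0, 0, 2000, -4339⟩, .l ⟨0, 40, 0, -36⟩ ⟨0, 0, 2000, -4339⟩, .l ⟨0, 40, 0, -33⟩ ⟨0, 0, -4000, -3333⟩, .l ⟨0, 40, 0, -36⟩ ⟨0, 0, -4000, -3333⟩, .l ⟨0, 40, 0, -33⟩ ⟨0, 284, 3990, 2801⟩, .l ⟨0, 40, 0, -36⟩ ⟨0, 284, 3990, 2801⟩, .l ⟨0, 40, 0, -33⟩ ⟨0, 571, -821, -207⟩, .l ⟨0, 40, 0, -36⟩ ⟨0, 571, -821, -207⟩] := by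
  refine rok_ds (s := 1) (nlo := 33) (nhi := 36) (q := 40) (by decide) (by decide) (by decide) (by decide) (k := 1) (by decide) (Q := [(0, 2000, 4339), (0, -4000, 3333), (284, 3990, -2801), (571, -821, 207)])
    (P := [⟨-1013760, 40, 0⟩, ⟨1105920, -40, 0⟩, ⟨133294080, 0, 2000⟩, ⟨102389760, 0, -4000⟩, ⟨-86046720, 284, 3990⟩, ⟨6359040, 571, -821⟩]) rfl rfl
    (List.mem_of_getElem? (i := 253) rfl) TD_fr TD_cov ?_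
  · intro X Y h
    simp only [List.forall_mem_cons, List.not_mem_nil, false_imp_iff, implies_true, and_true] at h
    push_cast at h ⊢
    obtain ⟨h0, h1, h2, h3, h4, h5⟩ := h
    refine ⟨⟨?_, ?_⟩, ?_, ?_⟩ <;> linarith

theorem TD_rg254 : ROK [.l ⟨0, 960, 0, -854⟩ ⟨0, 960, 0, 854⟩, .l ⟨0, -960, 0, 865⟩ ⟨0, 960, 0, 865⟩, .l ⟨0, 960, 0, -854⟩ ⟨0, -144, 3997, 3444⟩, .l ⟨0, 960, 0, -865⟩ ⟨0, -144, 3997, 3444⟩, .l ⟨0, 960, 0, -854⟩ ⟨0, 144, -3997, -4161⟩, .l ⟨0, 960, 0, -865⟩ ⟨0, 144, -3997, -4161⟩] := by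
  refine rok_ds (s := 1) (nlo := 854) (nhi := 865) (q := 960) (by decide) (by decide) (by decide) (by decide) (k := 1) (by decide) (Q := [(-144, 3997, -3444), (144, -3997, 4161)])
    (P := [⟨-26234880, 960, 0⟩, ⟨26572800, -960, 0⟩, ⟨-105799680, -144, 3997⟩, ⟨127825920, 144, -3997⟩]) rfl rfl
    (List.mem_of_getElem? (i := 254) rfl) TD_fr TD_cov ?_
  · intro X Y h
    simp only [List.forall_mem_cons, List.not_mem_nil, false_imp_iff, implies_true, and_true] at h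
    push_cast at h ⊢
    obtain ⟨h0, h1, h2, h3⟩ := h
    refine ⟨⟨?_, ?_⟩, ?_, ?_⟩ <;> linarith

theorem TD_rg255 : ROK [.l ⟨0, 480, 0, -435⟩ ⟨0, 480, 0, 435⟩, .l ⟨0, -480, 0, 439⟩ ⟨0, 480, 0, 439⟩, .l ⟨0, 480, 0, -435⟩ ⟨0, 896, 3898, 4269⟩, .l ⟨0, 480, 0, -439⟩ ⟨0, 896, 3898, 4269⟩, .l ⟨0, 480, 0, -435⟩ ⟨0, -896, -3898, -5013⟩, .l ⟨0, 480, 0, -439⟩ ⟨0, -896, -3898, -5013⟩, .l ⟨0, 480, 0, -435⟩ ⟨0, 2585, -3053, -931⟩, .l ⟨0, 480, 0, -439⟩ ⟨0, 2585, -3053, -931⟩] := by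
  refine rok_ds (s := 1) (nlo := 435) (nhi := 439) (q := 480) (by decide) (by decide) (by decide) (by decide) (k := 1) (by decide) (Q := [(896, 3898, -4269), (-896, -3898, 5013), (2585, -3053, 931)])
    (P := [⟨-13363200, 480, 0⟩, ⟨13486080, -480, 0⟩, ⟨-131143680, 896, 3898⟩, ⟨153999360, -896, -3898⟩, ⟨28600320, 2585, -3053⟩]) rfl rfl
    (List.mem_of_getElem? (i := 255) rfl) TD_fr TD_cov ?_
  · intro X Y h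
    simp only [List.forall_mem_cons, List.not_mem_nil, false_imp_iff, implies_true, and_true] at h
    push_cast at h ⊢
    obtain ⟨h0, h1, h2, h3, h4⟩ := h
    refine ⟨⟨?_, ?_⟩, ?_, ?_⟩ <;> linarith

theorem TD_rg256 : ROK [.l ⟨0, 80, 0, -67⟩ ⟨0, 80, 0, 67⟩, .l ⟨0, -80, 0, 70⟩ ⟨0, 80, 0, 70⟩, .l ⟨0, 80, 0, -67⟩ ⟨0, 0, 4000, 2101⟩, .l ⟨0, 80, 0, -70⟩ ⟨0, 0, 4000, 2101⟩, .l ⟨0, 80, 0, -67⟩ ⟨0, 0, -200, -167⟩, .l ⟨0, 80, 0, -70⟩ ⟨0, 0, -200, -167⟩, .l ⟨0, 80, 0, -67⟩ ⟨0, 2003, -3462, -1182⟩, .l ⟨0, 80, 0, -70⟩ ⟨0, 2003, -3462, -1182⟩] := by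
  refine rok_ds (s := 1) (nlo := 67) (nhi := 70) (q := 80) (by decide) (by decide) (by decide) (by decide) (k := 1) (by decide) (Q := [(0, 4000, -2101), (0, -200, 167), (2003, -3462, 1182)])
    (P := [⟨-2058240, 80, 0⟩, ⟨2150400, -80, 0⟩, ⟨-64542720, 0, 4000⟩, ⟨5130240, 0, -200⟩, ⟨36311040, 2003, -3462⟩]) rfl rfl
    (List.mem_of_getElem? (i := 256) rfl) TD_fr TD_cov ?_
  · intro X Y h
    simp only [List.forall_mem_cons, List.not_mem_nil, false_imp_iff, implies_true, and_true] at h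
    push_cast at h ⊢
    obtain ⟨h0, h1, h2, h3, h4⟩ := h
    refine ⟨⟨?_, ?_⟩, ?_, ?_⟩ <;> linarith

theorem TD_rg257 : ROK [.l ⟨0, 960, 0, -846⟩ ⟨0, 960, 0, 846⟩, .l ⟨0, -960, 0, 853⟩ ⟨0, 960, 0, 853⟩, .l ⟨0, 960, 0, -846⟩ ⟨0, 0, 2000, 1041⟩, .l ⟨0, 960, 0, -853⟩ ⟨0, 0, 2000, 1041⟩, .l ⟨0, 960, 0, -846⟩ ⟨0, 0, -4000, -3343⟩, .l ⟨0, 960, 0, -853⟩ ⟨0, 0, -4000, -3343⟩] := by
  refine rok_ds (s := 1) (nlo := 846) (nhi := 853) (q := 960) (by decide) (by decide) (by decide) (by decide) (k := 1) (by decide) (Q := [(0, 2000, -1041), (0, -4000, 3343)])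
    (P := [⟨-25989120, 960, 0⟩, ⟨26204160, -960, 0⟩, ⟨-31979520, 0, 2000⟩, ⟨102696960, 0, -4000⟩]) rfl rfl
    (List.mem_of_getElem? (i := 257) rfl) TD_fr TD_cov ?_
  · intro X Y h
    simp only [List.forall_mem_cons, List.not_mem_nil, false_imp_iff, implies_true, and_true] at h
    push_cast at h ⊢
    obtain ⟨h0, h1, h2, h3⟩ := h
    refine ⟨⟨?_, ?_⟩, ?_, ?_⟩ <;> linarith

theorem TD_rg258 : ROK [.l ⟨0, 960, 0, -827⟩ ⟨0, 960, 0, 827⟩, .l ⟨0, -960, 0, 834⟩ ⟨0, 960, 0, 834⟩, .l ⟨0, 960, 0, -827⟩ ⟨0, 0, 4000, 2053⟩, .l ⟨0, 960, 0, -834⟩ ⟨0, 0, 4000, 2053⟩, .l ⟨0, 960, 0, -827⟩ ⟨0, 99, -3999, -3256⟩, .l ⟨0, 960, 0, -834⟩ ⟨0, 99, -3999, -3256⟩] := by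
  refine rok_ds (s := 1) (nlo := 827) (nhi := 834) (q := 960) (by decide) (by decide) (by decide) (by decide) (k := 1) (by decide) (Q := [(0, 4000, -2053), (99, -3999, 3256)])
    (P := [⟨-25405440, 960, 0⟩, ⟨25620480, -960, 0⟩, ⟨-63068160, 0, 4000⟩, ⟨100024320, 99, -3999⟩]) rfl rfl
    (List.mem_of_getElem? (i := 258) rfl) TD_fr TD_cov ?_
  · intro X Y h
    simp only [List.forall_mem_cons, List.not_mem_nil, false_imp_iff, implies_true, and_true] at h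
    push_cast at h ⊢
    obtain ⟨h0, h1, h2, h3⟩ := h
    refine ⟨⟨?_, ?_⟩, ?_, ?_⟩ <;> linarith

theorem TD_rg259 : ROK [.l ⟨0, 320, 0, -273⟩ ⟨0, 320, 0, 273⟩, .l ⟨0, -320, 0, 276⟩ ⟨0, 320, 0, 276⟩, .l ⟨0, 320, 0, -273⟩ ⟨0, -531, 1928, 545⟩, .l ⟨0, 320, 0, -276⟩ ⟨0, -531, 1928, 545⟩, .l ⟨0, 320, 0, -273⟩ ⟨0, 1743, -3600, -1514⟩, .l ⟨0, 320, 0, -276⟩ ⟨0, 1743, -3600, -1514⟩, .l ⟨0, 320, 0, -273⟩ ⟨0, -1494, -3711, -4382⟩, .l ⟨0, 320, 0, -276⟩ ⟨0, -1494, -3711, -4382⟩] := by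
  refine rok_ds (s := 1) (nlo := 273) (nhi := 276) (q := 320) (by decide) (by decide) (by decide) (by decide) (k := 1) (by decide) (Q := [(-531, 1928, -545), (1743, -3600, 1514), (-1494, -3711, 4382)])
    (P := [⟨-8386560, 320, 0⟩, ⟨8478720, -320, 0⟩, ⟨-16742400, -531, 1928⟩, ⟨46510080, 1743, -3600⟩, ⟨134615040, -1494, -3711⟩]) rfl rfl
    (List.mem_of_getElem? (i := 259) rfl) TD_fr TD_cov ?_
  · intro X Y h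
    simp only [List.forall_mem_cons, List.not_mem_nil, false_imp_iff, implies_true, and_true] at h
    push_cast at h ⊢
    obtain ⟨h0, h1, h2, h3, h4⟩ := h
    refine ⟨⟨?_, ?_⟩, ?_, ?_⟩ <;> linarith

theorem TD_rg260 : ROK [.l ⟨0, 960, 0, -865⟩ ⟨0, 960, 0, 865⟩, .l ⟨0, -960, 0, 873⟩ ⟨0, 960, 0, 873⟩, .l ⟨0, 960, 0, -865⟩ ⟨0, 1803, 3571, 4801⟩, .l ⟨0, 960, 0, -873⟩ ⟨0, 1803, 3571, 4801⟩, .l ⟨0, 960, 0, -865⟩ ⟨0, -1803, -3571, -5463⟩, .l ⟨0, 960, 0, -873⟩ ⟨0, -1803, -3571, -5463⟩, .l ⟨0, 960, 0, -865⟩ ⟨0, -1690, 3625, 1695⟩, .l ⟨0, 960, 0, -873⟩ ⟨0, -1690, 3625, 1695⟩] := by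
  refine rok_ds (s := 1) (nlo := 865) (nhi := 873) (q := 960) (by decide) (by decide) (by decide) (by decide) (k := 1) (by decide) (Q := [(1803, 3571, -4801), (-1803, -3571, 5463), (-1690, 3625, -1695)])
    (P := [⟨-26572800, 960, 0⟩, ⟨26818560, -960, 0⟩, ⟨-147486720, 1803, 3571⟩, ⟨167823360, -1803, -3571⟩, ⟨-52070400, -1690, 3625⟩]) rfl rfl
    (List.mem_of_getElem? (i := 260) rfl) TD_fr TD_cov ?_
  · intro X Y h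
    simp only [List.forall_mem_cons, List.not_mem_nil, false_imp_iff, implies_true, and_true] at h
    push_cast at h ⊢
    obtain ⟨h0, h1, h2, h3, h4⟩ := h
    refine ⟨⟨?_, ?_⟩, ?_, ?_⟩ <;> linarith

theorem TD_rg261 : ROK [.l ⟨0, 960, 0, -849⟩ ⟨0, 960, 0, 849⟩, .l ⟨0, -960, 0, 857⟩ ⟨0, 960, 0, 857⟩, .l ⟨0, 960, 0, -849⟩ ⟨0, -2567, 3068, -11452⟩, .l ⟨0, 960, 0, -857⟩ ⟨0, -2567, 3068, -11452⟩, .l ⟨0, 960, 0, -849⟩ ⟨0, 2567, -3068, -1006⟩, .l ⟨0, 960, 0, -857⟩ ⟨0, 2567, -3068, -1006⟩, .l ⟨0, 960, 0, -849⟩ ⟨0, 981, 1743, 2429⟩, .l ⟨0, 960, 0, -857⟩ ⟨0, 981, 1743, 2429⟩] := by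
  refine rok_ds (s := 1) (nlo := 849) (nhi := 857) (q := 960) (by decide) (by decide) (by decide) (by decide) (k := 1) (by decide) (Q := [(-2567, 3068, 11452), (2567, -3068, 1006), (981, 1743, -2429)])
    (P := [⟨-26081280, 960, 0⟩, ⟨26327040, -960, 0⟩, ⟨351805440, -2567, 3068⟩, ⟨30904320, 2567, -3068⟩, ⟨-74618880, 981, 1743⟩]) rfl rfl
    (List.mem_of_getElem? (i := 261) rfl) TD_fr TD_cov ?_
  · intro X Y h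
    simp only [List.forall_mem_cons, List.not_mem_nil, false_imp_iff, implies_true, and_true] at h
    push_cast at h ⊢
    obtain ⟨h0, h1, h2, h3, h4⟩ := h
    refine ⟨⟨?_, ?_⟩, ?_, ?_⟩ <;> linarith

theorem TD_rg262 : ROK [.l ⟨0, 320, 0, -231⟩ ⟨0, 320, 0, 231⟩, .l ⟨0, -320, 0, 234⟩ ⟨0, 320, 0, 234⟩, .l ⟨0, 320, 0, -231⟩ ⟨0, 0, 800, 597⟩, .l ⟨0, 320, 0, -234⟩ ⟨0, 0, 800, 597⟩, .l ⟨0, 320, 0, -231⟩ ⟨0, -312, -3988, -3515⟩, .l ⟨0, 320, 0, -234⟩ ⟨0, -312, -3988, -3515⟩, .l ⟨0, 320, 0, -231⟩ ⟨0, 3055, 2582, 4144⟩, .l ⟨0, 320, 0, -234⟩ ⟨0, 3055, 2582, 4144⟩] := by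
  refine rok_ds (s := 1) (nlo := 231) (nhi := 234) (q := 320) (by decide) (by decide) (by decide) (by decide) (k := 1) (by decide) (Q := [(0, 800, -597), (-312, -3988, 3515), (3055, 2582, -4144)])
    (P := [⟨-7096320, 320, 0⟩, ⟨7188480, -320, 0⟩, ⟨-18339840, 0, 800⟩, ⟨107980800, -312, -3988⟩, ⟨-127303680, 3055, 2582⟩]) rfl rfl
    (List.mem_of_getElem? (i := 262) rfl) TD_fr TD_cov ?_
  · intro X Y h
    simp only [List.forall_mem_cons, List.not_mem_nil, false_imp_iff, implies_true, and_true] at h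
    push_cast at h ⊢
    obtain ⟨h0, h1, h2, h3, h4⟩ := h
    refine ⟨⟨?_, ?_⟩, ?_, ?_⟩ <;> linarith

theorem TD_rg263 : ROK [.l ⟨0, 480, 0, -423⟩ ⟨0, 480, 0, 423⟩, .l ⟨0, -480, 0, 431⟩ ⟨0, 480, 0, 431⟩, .l ⟨0, 480, 0, -423⟩ ⟨0, 2033, 3445, 4884⟩, .l ⟨0, 480, 0, -431⟩ ⟨0, 2033, 3445, 4884⟩, .l ⟨0, 480, 0, -423⟩ ⟨0, -2033, -3445, -5482⟩, .l ⟨0, 480, 0, -431⟩ ⟨0, -2033, -3445, -5482⟩, .l ⟨0, 480, 0, -423⟩ ⟨0, -2657, 2990, 295⟩, .l ⟨0, 480, 0, -431⟩ ⟨0, -2657, 2990, 295⟩] := by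
  refine rok_ds (s := 1) (nlo := 423) (nhi := 431) (q := 480) (by decide) (by decide) (by decide) (by decide) (k := 1) (by decide) (Q := [(2033, 3445, -4884), (-2033, -3445, 5482), (-2657, 2990, -295)])
    (P := [⟨-12994560, 480, 0⟩, ⟨13240320, -480, 0⟩, ⟨-150036480, 2033, 3445⟩, ⟨168407040, -2033, -3445⟩, ⟨-9062400, -2657, 2990⟩]) rfl rfl
    (List.mem_of_getElem? (i := 263) rfl) TD_fr TD_cov ?_
  · intro X Y h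
    simp only [List.forall_mem_cons, List.not_mem_nil, false_imp_iff, implies_true, and_true] at h
    push_cast at h ⊢
    obtain ⟨h0, h1, h2, h3, h4⟩ := h
    refine ⟨⟨?_, ?_⟩, ?_, ?_⟩ <;> linarith

end Pool.Agent.TET
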