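import Pool.Agent.Helper38_TET.TD_C

/-!
# MP_c7c9bf_co: certificates, family TD
-/

set_option autoImplicit false
set_option maxRecDepth 100000

namespace Pool.Agent.TET

theorem TD_rg264 : ROK [.l ⟨0, 80, 0, -69⟩ ⟨0, 80, 0, 69⟩, .l ⟨0, -80, 0, 72⟩ ⟨0, 80, 0, 72⟩, .l ⟨0, 80, 0, -69⟩ ⟨0, 0, 4000, -5239⟩, .l ⟨0, 80, 0, -72⟩ ⟨0, 0, 4000, -5239⟩, .l ⟨0, 80, 0, -69⟩ ⟨0, -1166, -3826, -4207⟩, .l ⟨0, 80, 0, -72⟩ ⟨0, -1166, -3826, -4207⟩, .l ⟨0, 80, 0, -69⟩ ⟨0, -3467, 1996, -1966⟩, .l ⟨0, 80, 0, -72⟩ ⟨0, -3467, 1996, -1966⟩, .l ⟨0, 80, 0, -69⟩ ⟨0, 1207, -1595, -290⟩, .l ⟨0, 80, 0, -72⟩ ⟨0, 1207, -1595, -290⟩] := by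
  refine rok_ds (s := 1) (nlo := 69) (nhi := 72) (q := 80) (by decide) (by decide) (by decide) (by decide) (k := 1) (by decide) (Q := [(0, 4000, 5239), (-1166, -3826, 4207), (-3467, 1996, 1966), (1207, -1595, 290)])
    (P := [⟨-2119680, 80, 0⟩, ⟨2211840, -80, 0⟩, ⟨160942080, 0, 4000⟩, ⟨129239040, -1166, -3826⟩, ⟨60395520, -3467, 1996⟩, ⟨8908800, 1207, -1595⟩]) rfl rfl
    (List.mem_of_getElem? (i := 264) rfl) TD_fr TD_cov ?_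
  · intro X Y h
    simp only [List.forall_mem_cons, List.not_mem_nil, false_imp_iff, implies_true, and_true] at h
    push_cast at h ⊢
    obtain ⟨h0, h1, h2, h3, h4, h5⟩ := h
    refine ⟨⟨?_, ?_⟩, ?_, ?_⟩ <;> linarith

theorem TD_rg265 : ROK [.l ⟨0, 80, 0, -72⟩ ⟨0, 80, 0, 72⟩, .l ⟨0, -80, 0, 75⟩ ⟨0, 80, 0, 75⟩, .l ⟨0, 80, 0, -72⟩ ⟨0, 0, 2000, -3659⟩, .l ⟨0, 80, 0, -75⟩ ⟨0, 0, 2000, -3659⟩, .l ⟨0, 80, 0, -72⟩ ⟨0, 0, -4000, -4311⟩, .l ⟨0, 80, 0, -75⟩ ⟨0, 0, -4000, -4311⟩, .l ⟨0, 80, 0, -72⟩ ⟨0, 1821, 3562, 4824⟩, .l ⟨0, 80, 0, -75⟩ ⟨0, 1821, 3562, 4824⟩, .l ⟨0, 80, 0, -72⟩ ⟨0, 1325, -1498, -395⟩, .l ⟨0, 80, 0, -75⟩ ⟨0, 1325, -1498, -395⟩] := by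
  refine rok_ds (s := 1) (nlo := 72) (nhi := 75) (q := 80) (by decide) (by decide) (by decide) (by decide) (k := 1) (by decide) (Q := [(0, 2000, 3659), (0, -4000, 4311), (1821, 3562, -4824), (1325, -1498, 395)])
    (P := [⟨-2211840, 80, 0⟩, ⟨2304000, -80, 0⟩, ⟨112404480, 0, 2000⟩, ⟨132433920, 0, -4000⟩, ⟨-148193280, 1821, 3562⟩, ⟨12134400, 1325, -1498⟩]) rfl rfl
    (List.mem_of_getElem? (i := 265) rfl) TD_fr TD_cov ?_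
  · intro X Y h
    simp only [List.forall_mem_cons, List.not_mem_nil, false_imp_iff, implies_true, and_true] at h
    push_cast at h ⊢
    obtain ⟨h0, h1, h2, h3, h4, h5⟩ := h
    refine ⟨⟨?_, ?_⟩, ?_, ?_⟩ <;> linarith

theorem TD_rg266 : ROK [.l ⟨0, 960, 0, -821⟩ ⟨0, 960, 0, 821⟩, .l ⟨0, -960, 0, 830⟩ ⟨0, 960, 0, 830⟩, .l ⟨0, 960, 0, -821⟩ ⟨0, 2163, 3364, 3592⟩, .l ⟨0, 960, 0, -830⟩ ⟨0, 2163, 3364, 3592⟩, .l ⟨0, 960, 0, -821⟩ ⟨0, -2163, -3364, -4669⟩, .l ⟨0, 960, 0, -830⟩ ⟨0, -2163, -3364, -4669⟩, .l ⟨0, 960, 0, -821⟩ ⟨0, 666, -3944, -2723⟩, .l ⟨0, 960, 0, -830⟩ ⟨0, 666, -3944, -2723⟩] := by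
  refine rok_ds (s := 1) (nlo := 821) (nhi := 830) (q := 960) (by decide) (by decide) (by decide) (by decide) (k := 1) (by decide) (Q := [(2163, 3364, -3592), (-2163, -3364, 4669), (666, -3944, 2723)])
    (P := [⟨-25221120, 960, 0⟩, ⟨25497600, -960, 0⟩, ⟨-110346240, 2163, 3364⟩, ⟨143431680, -2163, -3364⟩, ⟨83650560, 666, -3944⟩]) rfl rfl
    (List.mem_of_getElem? (i := 266) rfl) TD_fr TD_cov ?_
  · intro X Y h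
    simp only [List.forall_mem_cons, List.not_mem_nil, false_imp_iff, implies_true, and_true] at h
    push_cast at h ⊢
    obtain ⟨h0, h1, h2, h3, h4⟩ := h
    refine ⟨⟨?_, ?_⟩, ?_, ?_⟩ <;> linarith

theorem TD_rg267 : ROK [.l ⟨0, 960, 0, -815⟩ ⟨0, 960, 0, 815⟩, .l ⟨0, -960, 0, 823⟩ ⟨0, 960, 0, 823⟩, .l ⟨0, 960, 0, -815⟩ ⟨0, -1613, 3661, 535⟩, .l ⟨0, 960, 0, -823⟩ ⟨0, -1613, 3661, 535⟩, .l ⟨0, 960, 0, -815⟩ ⟨0, -313, -3988, -3595⟩, .l ⟨0, 960, 0, -823⟩ ⟨0, -313, -3988, -3595⟩] := by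
  refine rok_ds (s := 1) (nlo := 815) (nhi := 823) (q := 960) (by decide) (by decide) (by decide) (by decide) (k := 1) (by decide) (Q := [(-1613, 3661, -535), (-313, -3988, 3595)])
    (P := [⟨-25036800, 960, 0⟩, ⟨25282560, -960, 0⟩, ⟨-16435200, -1613, 3661⟩, ⟨110438400, -313, -3988⟩]) rfl rfl
    (List.mem_of_getElem? (i := 267) rfl) TD_fr TD_cov ?_
  · intro X Y h
    simp only [List.forall_mem_cons, List.not_mem_nil, false_imp_iff, implies_true, and_true] at h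
    push_cast at h ⊢
    obtain ⟨h0, h1, h2, h3⟩ := h
    refine ⟨⟨?_, ?_⟩, ?_, ?_⟩ <;> linarith

theorem TD_rg268 : ROK [.l ⟨0, 480, 0, -409⟩ ⟨0, 480, 0, 409⟩, .l ⟨0, -480, 0, 418⟩ ⟨0, 480, 0, 418⟩, .l ⟨0, 480, 0, -409⟩ ⟨0, 274, 1981, 1260⟩, .l ⟨0, 480, 0, -418⟩ ⟨0, 274, 1981, 1260⟩, .l ⟨0, 480, 0, -409⟩ ⟨0, -548, -3962, -3779⟩, .l ⟨0, 480, 0, -418⟩ ⟨0, -548, -3962, -3779⟩, .l ⟨0, 480, 0, -409⟩ ⟨0, 1499, -3709, -1814⟩, .l ⟨0, 480, 0, -418⟩ ⟨0, 1499, -3709, -1814⟩] := by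
  refine rok_ds (s := 1) (nlo := 409) (nhi := 418) (q := 480) (by decide) (by decide) (by decide) (by decide) (k := 1) (by decide) (Q := [(274, 1981, -1260), (-548, -3962, 3779), (1499, -3709, 1814)])
    (P := [⟨-12564480, 480, 0⟩, ⟨12840960, -480, 0⟩, ⟨-38707200, 274, 1981⟩, ⟨116090880, -548, -3962⟩, ⟨55726080, 1499, -3709⟩]) rfl rfl
    (List.mem_of_getElem? (i := 268) rfl) TD_fr TD_cov ?_
  · intro X Y h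
    simp only [List.forall_mem_cons, List.not_mem_nil, false_imp_iff, implies_true, and_true] at h
    push_cast at h ⊢
    obtain ⟨h0, h1, h2, h3, h4⟩ := h
    refine ⟨⟨?_, ?_⟩, ?_, ?_⟩ <;> linarith

theorem TD_rg269 : ROK [.l ⟨0, 480, 0, -431⟩ ⟨0, 480, 0, 431⟩, .l ⟨0, -480, 0, 435⟩ ⟨0, 480, 0, 435⟩, .l ⟨0, 480, 0, -431⟩ ⟨0, -368, 3983, 3209⟩, .l ⟨0, 480, 0, -435⟩ ⟨0, -368, 3983, 3209⟩, .l ⟨0, 480, 0, -431⟩ ⟨0, -2402, -3199, -5592⟩, .l ⟨0, 480, 0, -435⟩ ⟨0, -2402, -3199, -5592⟩, .l ⟨0, 480, 0, -431⟩ ⟨0, 3502, 1933, 4877⟩, .l ⟨0, 480, 0, -435⟩ ⟨0, 3502, 1933, 4877⟩] := by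
  refine rok_ds (s := 1) (nlo := 431) (nhi := 435) (q := 480) (by decide) (by decide) (by decide) (by decide) (k := 1) (by decide) (Q := [(-368, 3983, -3209), (-2402, -3199, 5592), (3502, 1933, -4877)])
    (P := [⟨-13240320, 480, 0⟩, ⟨13363200, -480, 0⟩, ⟨-98580480, -368, 3983⟩, ⟨171786240, -2402, -3199⟩, ⟨-149821440, 3502, 1933⟩]) rfl rfl
    (List.mem_of_getElem? (i := 269) rfl) TD_fr TD_cov ?_
  · intro X Y h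
    simp only [List.forall_mem_cons, List.not_mem_nil, false_imp_iff, implies_true, and_true] at h
    push_cast at h ⊢
    obtain ⟨h0, h1, h2, h3, h4⟩ := h
    refine ⟨⟨?_, ?_⟩, ?_, ?_⟩ <;> linarith

theorem TD_rg270 : ROK [.l ⟨0, 960, 0, -851⟩ ⟨0, 960, 0, 851⟩, .l ⟨0, -960, 0, 859⟩ ⟨0, 960, 0, 859⟩, .l ⟨0, 960, 0, -851⟩ ⟨0, 0, 4000, 2057⟩, .l ⟨0, 960, 0, -859⟩ ⟨0, 0, 4000, 2057⟩, .l ⟨0, 960, 0, -851⟩ ⟨0, 215, -389, -133⟩, .l ⟨0, 960, 0, -859⟩ ⟨0, 215, -389, -133⟩] := by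
  refine rok_ds (s := 1) (nlo := 851) (nhi := 859) (q := 960) (by decide) (by decide) (by decide) (by decide) (k := 1) (by decide) (Q := [(0, 4000, -2057), (215, -389, 133)])
    (P := [⟨-26142720, 960, 0⟩, ⟨26388480, -960, 0⟩, ⟨-63191040, 0, 4000⟩, ⟨4085760, 215, -389⟩]) rfl rfl
    (List.mem_of_getElem? (i := 270) rfl) TD_fr TD_cov ?_
  · intro X Y h
    simp only [List.forall_mem_cons, List.not_mem_nil, false_imp_iff, implies_true, and_true] at h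
    push_cast at h ⊢
    obtain ⟨h0, h1, h2, h3⟩ := h
    refine ⟨⟨?_, ?_⟩, ?_, ?_⟩ <;> linarith

theorem TD_rg271 : ROK [.l ⟨0, 160, 0, -137⟩ ⟨0, 160, 0, 137⟩, .l ⟨0, -160, 0, 140⟩ ⟨0, 160, 0, 140⟩, .l ⟨0, 160, 0, -137⟩ ⟨0, -1441, 3732, -10143⟩, .l ⟨0, 160, 0, -140⟩ ⟨0, -1441, 3732, -10143⟩, .l ⟨0, 160, 0, -137⟩ ⟨0, 1441, -3732, -1875⟩, .l ⟨0, 160, 0, -140⟩ ⟨0, 1441, -3732, -1875⟩, .l ⟨0, 160, 0, -137⟩ ⟨0, -3382, 2135, -1793⟩, .l ⟨0, 160, 0, -140⟩ ⟨0, -3382, 2135, -1793⟩, .l ⟨0, 160, 0, -137⟩ ⟨0, -422, -3978, -3689⟩, .l ⟨0, 160, 0, -140⟩ ⟨0, -422, -3978, -3689⟩] := by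
  refine rok_ds (s := 1) (nlo := 137) (nhi := 140) (q := 160) (by decide) (by decide) (by decide) (by decide) (k := 1) (by decide) (Q := [(-1441, 3732, 10143), (1441, -3732, 1875), (-3382, 2135, 1793), (-422, -3978, 3689)])
    (P := [⟨-4208640, 160, 0⟩, ⟨4300800, -160, 0⟩, ⟨311592960, -1441, 3732⟩, ⟨57600000, 1441, -3732⟩, ⟨55080960, -3382, 2135⟩, ⟨113326080, -422, -3978⟩]) rfl rfl
    (List.mem_of_getElem? (i := 271) rfl) TD_fr TD_cov ?_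
  · intro X Y h
    simp only [List.forall_mem_cons, List.not_mem_nil, false_imp_iff, implies_true, and_true] at h
    push_cast at h ⊢
    obtain ⟨h0, h1, h2, h3, h4, h5⟩ := h
    refine ⟨⟨?_, ?_⟩, ?_, ?_⟩ <;> linarith

theorem TD_rg272 : ROK [.l ⟨0, 960, 0, -820⟩ ⟨0, 960, 0, 820⟩, .l ⟨0, -960, 0, 829⟩ ⟨0, 960, 0, 829⟩, .l ⟨0, 960, 0, -820⟩ ⟨0, 1032, 3865, 2880⟩, .l ⟨0, 960, 0, -829⟩ ⟨0, 1032, 3865, 2880⟩, .l ⟨0, 960, 0, -820⟩ ⟨0, -1032, -3865, -4114⟩, .l ⟨0, 960, 0, -829⟩ ⟨0, -1032, -3865, -4114⟩, .l ⟨0, 960, 0, -820⟩ ⟨0, 1751, -3596, -1504⟩, .l ⟨0, 960, 0, -829⟩ ⟨0, 1751, -3596, -1504⟩] := by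
  refine rok_ds (s := 1) (nlo := 820) (nhi := 829) (q := 960) (by decide) (by decide) (by decide) (by decide) (k := 1) (by decide) (Q := [(1032, 3865, -2880), (-1032, -3865, 4114), (1751, -3596, 1504)])
    (P := [⟨-25190400, 960, 0⟩, ⟨25466880, -960, 0⟩, ⟨-88473600, 1032, 3865⟩, ⟨126382080, -1032, -3865⟩, ⟨46202880, 1751, -3596⟩]) rfl rfl
    (List.mem_of_getElem? (i := 272) rfl) TD_fr TD_cov ?_
  · intro X Y h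
    simp only [List.forall_mem_cons, List.not_mem_nil, false_imp_iff, implies_true, and_true] at h
    push_cast at h ⊢
    obtain ⟨h0, h1, h2, h3, h4⟩ := h
    refine ⟨⟨?_, ?_⟩, ?_, ?_⟩ <;> linarith

theorem TD_rg273 : ROK [.l ⟨0, 960, 0, -823⟩ ⟨0, 960, 0, 823⟩, .l ⟨0, -960, 0, 830⟩ ⟨0, 960, 0, 830⟩, .l ⟨0, 960, 0, -823⟩ ⟨0, -55, 497, 209⟩, .l ⟨0, 960, 0, -830⟩ ⟨0, -55, 497, 209⟩, .l ⟨0, 960, 0, -823⟩ ⟨0, -468, -3973, -3720⟩, .l ⟨0, 960, 0, -830⟩ ⟨0, -468, -3973, -3720⟩] := by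
  refine rok_ds (s := 1) (nlo := 823) (nhi := 830) (q := 960) (by decide) (by decide) (by decide) (by decide) (k := 1) (by decide) (Q := [(-55, 497, -209), (-468, -3973, 3720)])
    (P := [⟨-25282560, 960, 0⟩, ⟨25497600, -960, 0⟩, ⟨-6420480, -55, 497⟩, ⟨114278400, -468, -3973⟩]) rfl rfl
    (List.mem_of_getElem? (i := 273) rfl) TD_fr TD_cov ?_
  · intro X Y h
    simp only [List.forall_mem_cons, List.not_mem_nil, false_imp_iff, implies_true, and_true] at h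
    push_cast at h ⊢
    obtain ⟨h0, h1, h2, h3⟩ := h
    refine ⟨⟨?_, ?_⟩, ?_, ?_⟩ <;> linarith

theorem TD_rg274 : ROK [.l ⟨0, 960, 0, -847⟩ ⟨0, 960, 0, 847⟩, .l ⟨0, -960, 0, 854⟩ ⟨0, 960, 0, 854⟩, .l ⟨0, 960, 0, -847⟩ ⟨0, 0, 500, 447⟩, .l ⟨0, 960, 0, -854⟩ ⟨0, 0, 500, 447⟩, .l ⟨0, 960, 0, -847⟩ ⟨0, -2549, -3082, -5553⟩, .l ⟨0, 960, 0, -854⟩ ⟨0, -2549, -3082, -5553⟩, .l ⟨0, 960, 0, -847⟩ ⟨0, 2327, 3254, 4972⟩, .l ⟨0, 960, 0, -854⟩ ⟨0, 2327, 3254, 4972⟩] := by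
  refine rok_ds (s := 1) (nlo := 847) (nhi := 854) (q := 960) (by decide) (by decide) (by decide) (by decide) (k := 1) (by decide) (Q := [(0, 500, -447), (-2549, -3082, 5553), (2327, 3254, -4972)])
    (P := [⟨-26019840, 960, 0⟩, ⟨26234880, -960, 0⟩, ⟨-13731840, 0, 500⟩, ⟨170588160, -2549, -3082⟩, ⟨-152739840, 2327, 3254⟩]) rfl rfl
    (List.mem_of_getElem? (i := 274) rfl) TD_fr TD_cov ?_
  · intro X Y h
    simp only [List.forall_mem_cons, List.not_mem_nil, false_imp_iff, implies_true, and_true] at h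
    push_cast at h ⊢
    obtain ⟨h0, h1, h2, h3, h4⟩ := h
    refine ⟨⟨?_, ?_⟩, ?_, ?_⟩ <;> linarith

theorem TD_rg275 : ROK [.l ⟨0, 480, 0, -409⟩ ⟨0, 480, 0, 409⟩, .l ⟨0, -480, 0, 417⟩ ⟨0, 480, 0, 417⟩, .l ⟨0, 480, 0, -409⟩ ⟨0, 1004, 3872, -7257⟩, .l ⟨0, 480, 0, -417⟩ ⟨0, 1004, 3872, -7257⟩, .l ⟨0, 480, 0, -409⟩ ⟨0, -251, -968, -1024⟩, .l ⟨0, 480, 0, -417⟩ ⟨0, -251, -968, -1024⟩, .l ⟨0, 480, 0, -409⟩ ⟨0, -1987, 3471, 107⟩, .l ⟨0, 480, 0, -417⟩ ⟨0, -1987, 3471, 107⟩, .l ⟨0, 480, 0, -409⟩ ⟨0, 457, -3974, -2927⟩, .l ⟨0, 480, 0, -417⟩ ⟨0, 457, -3974, -2927⟩] := by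
  refine rok_ds (s := 1) (nlo := 409) (nhi := 417) (q := 480) (by decide) (by decide) (by decide) (by decide) (k := 1) (by decide) (Q := [(1004, 3872, 7257), (-251, -968, 1024), (-1987, 3471, -107), (457, -3974, 2927)])
    (P := [⟨-12564480, 480, 0⟩, ⟨12810240, -480, 0⟩, ⟨222935040, 1004, 3872⟩, ⟨31457280, -251, -968⟩, ⟨-3287040, -1987, 3471⟩, ⟨89917440, 457, -3974⟩]) rfl rfl
    (List.mem_of_getElem? (i := 275) rfl) TD_fr TD_cov ?_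
  · intro X Y h
    simp only [List.forall_mem_cons, List.not_mem_nil, false_imp_iff, implies_true, and_true] at h
    push_cast at h ⊢
    obtain ⟨h0, h1, h2, h3, h4, h5⟩ := h
    refine ⟨⟨?_, ?_⟩, ?_, ?_⟩ <;> linarith

theorem TD_rg276 : ROK [.l ⟨0, 240, 0, -206⟩ ⟨0, 240, 0, 206⟩, .l ⟨0, -240, 0, 209⟩ ⟨0, 240, 0, 209⟩, .l ⟨0, 240, 0, -206⟩ ⟨0, -829, 1820, 226⟩, .l ⟨0, 240, 0, -209⟩ ⟨0, -829, 1820, 226⟩, .l ⟨0, 240, 0, -206⟩ ⟨0, 829, -1820, -805⟩, .l ⟨0, 240, 0, -209⟩ ⟨0, 829, -1820, -805⟩, .l ⟨0, 240, 0, -206⟩ ⟨0, -245, -3992, -3548⟩, .l ⟨0, 240, 0, -209⟩ ⟨0, -245, -3992, -3548⟩] := by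
  refine rok_ds (s := 1) (nlo := 206) (nhi := 209) (q := 240) (by decide) (by decide) (by decide) (by decide) (k := 1) (by decide) (Q := [(-829, 1820, -226), (829, -1820, 805), (-245, -3992, 3548)])
    (P := [⟨-6328320, 240, 0⟩, ⟨6420480, -240, 0⟩, ⟨-6942720, -829, 1820⟩, ⟨24729600, 829, -1820⟩, ⟨108994560, -245, -3992⟩]) rfl rfl
    (List.mem_of_getElem? (i := 276) rfl) TD_fr TD_cov ?_
  · intro X Y h
    simp only [List.forall_mem_cons, List.not_mem_nil, false_imp_iff, implies_true, and_true] at h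
    push_cast at h ⊢
    obtain ⟨h0, h1, h2, h3, h4⟩ := h
    refine ⟨⟨?_, ?_⟩, ?_, ?_⟩ <;> linarith

theorem TD_rg277 : ROK [.l ⟨0, 20, 0, -16⟩ ⟨0, 20, 0, 16⟩, .l ⟨0, -20, 0, 19⟩ ⟨0, 20, 0, 19⟩, .l ⟨0, 20, 0, -16⟩ ⟨0, 436, 3976, 3985⟩, .l ⟨0, 20, 0, -19⟩ ⟨0, 436, 3976, 3985⟩, .l ⟨0, 20, 0, -16⟩ ⟨0, -436, -3976, -4531⟩, .l ⟨0, 20, 0, -19⟩ ⟨0, -436, -3976, -4531⟩, .l ⟨0, 20, 0, -16⟩ ⟨0, 3160, 2453, 4894⟩, .l ⟨0, 20, 0, -19⟩ ⟨0, 3160, 2453, 4894⟩] := by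
  refine rok_ds (s := 1) (nlo := 16) (nhi := 19) (q := 20) (by decide) (by decide) (by decide) (by decide) (k := 1) (by decide) (Q := [(436, 3976, -3985), (-436, -3976, 4531), (3160, 2453, -4894)])
    (P := [⟨-491520, 20, 0⟩, ⟨583680, -20, 0⟩, ⟨-122419200, 436, 3976⟩, ⟨139192320, -436, -3976⟩, ⟨-150343680, 3160, 2453⟩]) rfl rfl
    (List.mem_of_getElem? (i := 277) rfl) TD_fr TD_cov ?_
  · intro X Y h
    simp only [List.forall_mem_cons, List.not_mem_nil, false_imp_iff, implies_true, and_true] at h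
    push_cast at h ⊢
    obtain ⟨h0, h1, h2, h3, h4⟩ := h
    refine ⟨⟨?_, ?_⟩, ?_, ?_⟩ <;> linarith

theorem TD_rg278 : ROK [.l ⟨0, 20, 0, -15⟩ ⟨0, 20, 0, 15⟩, .l ⟨0, -20, 0, 18⟩ ⟨0, 20, 0, 18⟩, .l ⟨0, 20, 0, -15⟩ ⟨0, -1707, 3618, -8932⟩, .l ⟨0, 20, 0, -18⟩ ⟨0, -1707, 3618, -8932⟩, .l ⟨0, 20, 0, -15⟩ ⟨0, 569, -1206, -521⟩, .l ⟨0, 20, 0, -18⟩ ⟨0, 569, -1206, -521⟩, .l ⟨0, 20, 0, -15⟩ ⟨0, 2905, 2749, 4163⟩, .l ⟨0, 20, 0, -18⟩ ⟨0, 2905, 2749, 4163⟩, .l ⟨0, 20, 0, -15⟩ ⟨0, -410, -3979, -3673⟩, .l ⟨0, 20, 0, -18⟩ ⟨0, -410, -3979, -3673⟩] := by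
  refine rok_ds (s := 1) (nlo := 15) (nhi := 18) (q := 20) (by decide) (by decide) (by decide) (by decide) (k := 1) (by decide) (Q := [(-1707, 3618, 8932), (569, -1206, 521), (2905, 2749, -4163), (-410, -3979, 3673)])
    (P := [⟨-460800, 20, 0⟩, ⟨552960, -20, 0⟩, ⟨274391040, -1707, 3618⟩, ⟨16005120, 569, -1206⟩, ⟨-127887360, 2905, 2749⟩, ⟨112834560, -410, -3979⟩]) rfl rfl
    (List.mem_of_getElem? (i := 278) rfl) TD_fr TD_cov ?_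
  · intro X Y h
    simp only [List.forall_mem_cons, List.not_mem_nil, false_imp_iff, implies_true, and_true] at h
    push_cast at h ⊢
    obtain ⟨h0, h1, h2, h3, h4, h5⟩ := h
    refine ⟨⟨?_, ?_⟩, ?_, ?_⟩ <;> linarith

theorem TD_rg279 : ROK [.l ⟨0, 480, 0, -431⟩ ⟨0, 480, 0, 431⟩, .l ⟨0, -480, 0, 441⟩ ⟨0, 480, 0, 441⟩, .l ⟨0, 480, 0, -431⟩ ⟨0, 2041, 3440, 4903⟩, .l ⟨0, 480, 0, -441⟩ ⟨0, 2041, 3440, 4903⟩, .l ⟨0, 480, 0, -431⟩ ⟨0, 1637, -3650, -2424⟩, .l ⟨0, 480, 0, -441⟩ ⟨0, 1637, -3650, -2424⟩, .l ⟨0, 480, 0, -431⟩ ⟨0, 2391, 3207, 5017⟩, .l ⟨0, 480, 0, -441⟩ ⟨0, 2391, 3207, 5017⟩] := by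
  refine rok_ds (s := 1) (nlo := 431) (nhi := 441) (q := 480) (by decide) (by decide) (by decide) (by decide) (k := 1) (by decide) (Q := [(2041, 3440, -4903), (1637, -3650, 2424), (2391, 3207, -5017)])
    (P := [⟨-13240320, 480, 0⟩, ⟨13547520, -480, 0⟩, ⟨-150620160, 2041, 3440⟩, ⟨74465280, 1637, -3650⟩, ⟨-154122240, 2391, 3207⟩]) rfl rfl
    (List.mem_of_getElem? (i := 279) rfl) TD_fr TD_cov ?_
  · intro X Y h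
    simp only [List.forall_mem_cons, List.not_mem_nil, false_imp_iff, implies_true, and_true] at h
    push_cast at h ⊢
    obtain ⟨h0, h1, h2, h3, h4⟩ := h
    refine ⟨⟨?_, ?_⟩, ?_, ?_⟩ <;> linarith

theorem TD_rg280 : ROK [.l ⟨0, 480, 0, -417⟩ ⟨0, 480, 0, 417⟩, .l ⟨0, -480, 0, 424⟩ ⟨0, 480, 0, 424⟩, .l ⟨0, 480, 0, -417⟩ ⟨0, 2285, 3283, 4950⟩, .l ⟨0, 480, 0, -424⟩ ⟨0, 2285, 3283, 4950⟩, .l ⟨0, 480, 0, -417⟩ ⟨0, -2285, -3283, -5493⟩, .l ⟨0, 480, 0, -424⟩ ⟨0, -2285, -3283, -5493⟩, .l ⟨0, 480, 0, -417⟩ ⟨0, -734, 1113, 356⟩, .l ⟨0, 480, 0, -424⟩ ⟨0, -734, 1113, 356⟩] := by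
  refine rok_ds (s := 1) (nlo := 417) (nhi := 424) (q := 480) (by decide) (by decide) (by decide) (by decide) (k := 1) (by decide) (Q := [(2285, 3283, -4950), (-2285, -3283, 5493), (-734, 1113, -356)])
    (P := [⟨-12810240, 480, 0⟩, ⟨13025280, -480, 0⟩, ⟨-152064000, 2285, 3283⟩, ⟨168744960, -2285, -3283⟩, ⟨-10936320, -734, 1113⟩]) rfl rfl
    (List.mem_of_getElem? (i := 280) rfl) TD_fr TD_cov ?_
  · intro X Y h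
    simp only [List.forall_mem_cons, List.not_mem_nil, false_imp_iff, implies_true, and_true] at h
    push_cast at h ⊢
    obtain ⟨h0, h1, h2, h3, h4⟩ := h
    refine ⟨⟨?_, ?_⟩, ?_, ?_⟩ <;> linarith

theorem TD_rg281 : ROK [.l ⟨0, 960, 0, -869⟩ ⟨0, 960, 0, 869⟩, .l ⟨0, -960, 0, 878⟩ ⟨0, 960, 0, 878⟩, .l ⟨0, 960, 0, -869⟩ ⟨0, -1307, 3780, 2161⟩, .l ⟨0, 960, 0, -878⟩ ⟨0, -1307, 3780, 2161⟩, .l ⟨0, 960, 0, -869⟩ ⟨0, 1307, -3780, -2874⟩, .l ⟨0, 960, 0, -878⟩ ⟨0, 1307, -3780, -2874⟩, .l ⟨0, 960, 0, -869⟩ ⟨0, 580, 551, 1014⟩, .l ⟨0, 960, 0, -878⟩ ⟨0, 580, 551, 1014⟩] := by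
  refine rok_ds (s := 1) (nlo := 869) (nhi := 878) (q := 960) (by decide) (by decide) (by decide) (by decide) (k := 1) (by decide) (Q := [(-1307, 3780, -2161), (1307, -3780, 2874), (580, 551, -1014)])
    (P := [⟨-26695680, 960, 0⟩, ⟨26972160, -960, 0⟩, ⟨-66385920, -1307, 3780⟩, ⟨88289280, 1307, -3780⟩, ⟨-31150080, 580, 551⟩]) rfl rfl
    (List.mem_of_getElem? (i := 281) rfl) TD_fr TD_cov ?_
  · intro X Y h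
    simp only [List.forall_mem_cons, List.not_mem_nil, false_imp_iff, implies_true, and_true] at h
    push_cast at h ⊢
    obtain ⟨h0, h1, h2, h3, h4⟩ := h
    refine ⟨⟨?_, ?_⟩, ?_, ?_⟩ <;> linarith

theorem TD_rg282 : ROK [.l ⟨0, 80, 0, -75⟩ ⟨0, 80, 0, 75⟩, .l ⟨0, -80, 0, 79⟩ ⟨0, 80, 0, 79⟩, .l ⟨0, 80, 0, -75⟩ ⟨0, 439, 3976, 3876⟩, .l ⟨0, 80, 0, -79⟩ ⟨0, 439, 3976, 3876⟩, .l ⟨0, 80, 0, -75⟩ ⟨0, -1373, -3757, -5340⟩, .l ⟨0, 80, 0, -79⟩ ⟨0, -1373, -3757, -5340⟩] := by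
  refine rok_ds (s := 1) (nlo := 75) (nhi := 79) (q := 80) (by decide) (by decide) (by decide) (by decide) (k := 1) (by decide) (Q := [(439, 3976, -3876), (-1373, -3757, 5340)])
    (P := [⟨-2304000, 80, 0⟩, ⟨2426880, -80, 0⟩, ⟨-119070720, 439, 3976⟩, ⟨164044800, -1373, -3757⟩]) rfl rfl
    (List.mem_of_getElem? (i := 282) rfl) TD_fr TD_cov ?_
  · intro X Y h
    simp only [List.forall_mem_cons, List.not_mem_nil, false_imp_iff, implies_true, and_true] at h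
    push_cast at h ⊢
    obtain ⟨h0, h1, h2, h3⟩ := h
    refine ⟨⟨?_, ?_⟩, ?_, ?_⟩ <;> linarith

theorem TD_rg283 : ROK [.l ⟨0, 80, 0, -79⟩ ⟨0, 80, 0, 79⟩, .l ⟨0, -80, 0, 82⟩ ⟨0, 80, 0, 82⟩, .l ⟨0, 80, 0, -79⟩ ⟨0, 0, 2000, 1699⟩, .l ⟨0, 80, 0, -82⟩ ⟨0, 0, 2000, 1699⟩, .l ⟨0, 80, 0, -79⟩ ⟨0, 0, -4000, -4321⟩, .l ⟨0, 80, 0, -82⟩ ⟨0, 0, -4000, -4321⟩] := by
  refine rok_ds (s := 1) (nlo := 79) (nhi := 82) (q := 80) (by decide) (by decide) (by decide) (by decide) (k := 1) (by decide) (Q := [(0, 2000, -1699), (0, -4000, 4321)])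
    (P := [⟨-2426880, 80, 0⟩, ⟨2519040, -80, 0⟩, ⟨-52193280, 0, 2000⟩, ⟨132741120, 0, -4000⟩]) rfl rfl
    (List.mem_of_getElem? (i := 283) rfl) TD_fr TD_cov ?_
  · intro X Y h
    simp only [List.forall_mem_cons, List.not_mem_nil, false_imp_iff, implies_true, and_true] at h
    push_cast at h ⊢
    obtain ⟨h0, h1, h2, h3⟩ := h
    refine ⟨⟨?_, ?_⟩, ?_, ?_⟩ <;> linarith

theorem TD_rg284 : ROK [.l ⟨0, 20, 0, -17⟩ ⟨0, 20, 0, 17⟩, .l ⟨0, -20, 0, 18⟩ ⟨0, 20, 0, 18⟩, .l ⟨0, 20, 0, -17⟩ ⟨0, 324, 3987, -7334⟩, .l ⟨0, 20, 0, -18⟩ ⟨0, 324, 3987, -7334⟩, .l ⟨0, 20, 0, -17⟩ ⟨0, -108, -1329, -1202⟩, .l ⟨0, 20, 0, -18⟩ ⟨0, -108, -1329, -1202⟩, .l ⟨0, 20, 0, -17⟩ ⟨0, -175, 3996, 1946⟩, .l ⟨0, 20, 0, -18⟩ ⟨0, -175, 3996, 1946⟩, .l ⟨0, 20, 0, -17⟩ ⟨0, 899, -3898, -2487⟩, .l ⟨0, 20, 0, -18⟩ ⟨0, 899, -3898, -2487⟩] := by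
  refine rok_ds (s := 1) (nlo := 17) (nhi := 18) (q := 20) (by decide) (by decide) (by decide) (by decide) (k := 1) (by decide) (Q := [(324, 3987, 7334), (-108, -1329, 1202), (-175, 3996, -1946), (899, -3898, 2487)])
    (P := [⟨-522240, 20, 0⟩, ⟨552960, -20, 0⟩, ⟨225300480, 324, 3987⟩, ⟨36925440, -108, -1329⟩, ⟨-59781120, -175, 3996⟩, ⟨76400640, 899, -3898⟩]) rfl rfl
    (List.mem_of_getElem? (i := 284) rfl) TD_fr TD_cov ?_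
  · intro X Y h
    simp only [List.forall_mem_cons, List.not_mem_nil, false_imp_iff, implies_true, and_true] at h
    push_cast at h ⊢
    obtain ⟨h0, h1, h2, h3, h4, h5⟩ := h
    refine ⟨⟨?_, ?_⟩, ?_, ?_⟩ <;> linarith

theorem TD_rg285 : ROK [.l ⟨0, 960, 0, -809⟩ ⟨0, 960, 0, 809⟩, .l ⟨0, -960, 0, 817⟩ ⟨0, 960, 0, 817⟩, .l ⟨0, 960, 0, -809⟩ ⟨0, 0, 2000, 1039⟩, .l ⟨0, 960, 0, -817⟩ ⟨0, 0, 2000, 1039⟩, .l ⟨0, 960, 0, -809⟩ ⟨0, 114, -1997, -1569⟩, .l ⟨0, 960, 0, -817⟩ ⟨0, 114, -1997, -1569⟩, .l ⟨0, 960, 0, -809⟩ ⟨0, 3076, 2557, 3942⟩, .l ⟨0, 960, 0, -817⟩ ⟨0, 3076, 2557, 3942⟩] := by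
  refine rok_ds (s := 1) (nlo := 809) (nhi := 817) (q := 960) (by decide) (by decide) (by decide) (by decide) (k := 1) (by decide) (Q := [(0, 2000, -1039), (114, -1997, 1569), (3076, 2557, -3942)])
    (P := [⟨-24852480, 960, 0⟩, ⟨25098240, -960, 0⟩, ⟨-31918080, 0, 2000⟩, ⟨48199680, 114, -1997⟩, ⟨-121098240, 3076, 2557⟩]) rfl rfl
    (List.mem_of_getElem? (i := 285) rfl) TD_fr TD_cov ?_
  · intro X Y h
    simp only [List.forall_mem_cons, List.not_mem_nil, false_imp_iff, implies_true, and_true] at h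
    push_cast at h ⊢
    obtain ⟨h0, h1, h2, h3, h4⟩ := h
    refine ⟨⟨?_, ?_⟩, ?_, ?_⟩ <;> linarith

theorem TD_rg286 : ROK [.l ⟨0, 960, 0, -690⟩ ⟨0, 960, 0, 690⟩, .l ⟨0, -960, 0, 701⟩ ⟨0, 960, 0, 701⟩, .l ⟨0, 960, 0, -690⟩ ⟨0, 0, 4000, -8991⟩, .l ⟨0, 960, 0, -701⟩ ⟨0, 0, 4000, -8991⟩, .l ⟨0, 960, 0, -690⟩ ⟨0, 0, -4000, -3299⟩, .l ⟨0, 960, 0, -701⟩ ⟨0, 0, -4000, -3299⟩, .l ⟨0, 960, 0, -690⟩ ⟨0, 2841, 2816, 4164⟩, .l ⟨0, 960, 0, -701⟩ ⟨0, 2841, 2816, 4164⟩] := by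
  refine rok_ds (s := 1) (nlo := 690) (nhi := 701) (q := 960) (by decide) (by decide) (by decide) (by decide) (k := 1) (by decide) (Q := [(0, 4000, 8991), (0, -4000, 3299), (2841, 2816, -4164)])
    (P := [⟨-21196800, 960, 0⟩, ⟨21534720, -960, 0⟩, ⟨276203520, 0, 4000⟩, ⟨101345280, 0, -4000⟩, ⟨-127918080, 2841, 2816⟩]) rfl rfl
    (List.mem_of_getElem? (i := 286) rfl) TD_fr TD_cov ?_
  · intro X Y h
    simp only [List.forall_mem_cons, List.not_mem_nil, false_imp_iff, implies_true, and_true] at h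
    push_cast at h ⊢
    obtain ⟨h0, h1, h2, h3, h4⟩ := h
    refine ⟨⟨?_, ?_⟩, ?_, ?_⟩ <;> linarith

theorem TD_rg287 : ROK [.l ⟨0, 480, 0, -421⟩ ⟨0, 480, 0, 421⟩, .l ⟨0, -480, 0, 427⟩ ⟨0, 480, 0, 427⟩, .l ⟨0, 480, 0, -421⟩ ⟨0, -1822, 3561, 1578⟩, .l ⟨0, 480, 0, -427⟩ ⟨0, -1822, 3561, 1578⟩, .l ⟨0, 480, 0, -421⟩ ⟨0, 1822, -3561, -2199⟩, .l ⟨0, 480, 0, -427⟩ ⟨0, 1822, -3561, -2199⟩, .l ⟨0, 480, 0, -421⟩ ⟨0, 2957, 2694, 5023⟩, .l ⟨0, 480, 0, -427⟩ ⟨0, 2957, 2694, 5023⟩] := by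
  refine rok_ds (s := 1) (nlo := 421) (nhi := 427) (q := 480) (by decide) (by decide) (by decide) (by decide) (k := 1) (by decide) (Q := [(-1822, 3561, -1578), (1822, -3561, 2199), (2957, 2694, -5023)])
    (P := [⟨-12933120, 480, 0⟩, ⟨13117440, -480, 0⟩, ⟨-48476160, -1822, 3561⟩, ⟨67553280, 1822, -3561⟩, ⟨-154306560, 2957, 2694⟩]) rfl rfl
    (List.mem_of_getElem? (i := 287) rfl) TD_fr TD_cov ?_
  · intro X Y h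
    simp only [List.forall_mem_cons, List.not_mem_nil, false_imp_iff, implies_true, and_true] at h
    push_cast at h ⊢
    obtain ⟨h0, h1, h2, h3, h4⟩ := h
    refine ⟨⟨?_, ?_⟩, ?_, ?_⟩ <;> linarith

end Pool.Agent.TET
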