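import Pool.Agent.Helper38_TET.TD_C

/-!
# MP_c7c9bf_co: certificates, family TD
-/

set_option autoImplicit false
set_option maxRecDepth 100000

namespace Pool.Agent.TET

theorem TD_rg288 : ROK [.l ⟨0, 480, 0, -407⟩ ⟨0, 480, 0, 407⟩, .l ⟨0, -480, 0, 411⟩ ⟨0, 480, 0, 411⟩, .l ⟨0, 480, 0, -407⟩ ⟨0, -254, 3992, 1861⟩, .l ⟨0, 480, 0, -411⟩ ⟨0, -254, 3992, 1861⟩, .l ⟨0, 480, 0, -407⟩ ⟨0, -499, -3969, -3737⟩, .l ⟨0, 480, 0, -411⟩ ⟨0, -499, -3969, -3737⟩] := by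
  refine rok_ds (s := 1) (nlo := 407) (nhi := 411) (q := 480) (by decide) (by decide) (by decide) (by decide) (k := 1) (by decide) (Q := [(-254, 3992, -1861), (-499, -3969, 3737)])
    (P := [⟨-12503040, 480, 0⟩, ⟨12625920, -480, 0⟩, ⟨-57169920, -254, 3992⟩, ⟨114800640, -499, -3969⟩]) rfl rfl
    (List.mem_of_getElem? (i := 288) rfl) TD_fr TD_cov ?_
  · intro X Y h
    simp only [List.forall_mem_cons, List.not_mem_nil, false_imp_iff, implies_true, and_true] at h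
    push_cast at h ⊢
    obtain ⟨h0, h1, h2, h3⟩ := h
    refine ⟨⟨?_, ?_⟩, ?_, ?_⟩ <;> linarith

theorem TD_rg289 : ROK [.l ⟨0, 240, 0, -211⟩ ⟨0, 240, 0, 211⟩, .l ⟨0, -240, 0, 216⟩ ⟨0, 240, 0, 216⟩, .l ⟨0, 240, 0, -211⟩ ⟨0, 2303, 3270, 3730⟩, .l ⟨0, 240, 0, -216⟩ ⟨0, 2303, 3270, 3730⟩, .l ⟨0, 240, 0, -211⟩ ⟨0, -667, -3944, -3884⟩, .l ⟨0, 240, 0, -216⟩ ⟨0, -667, -3944, -3884⟩] := by
  refine rok_ds (s := 1) (nlo := 211) (nhi := 216) (q := 240) (by decide) (by decide) (by decide) (by decide) (k := 1) (by decide) (Q := [(2303, 3270, -3730), (-667, -3944, 3884)])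
    (P := [⟨-6481920, 240, 0⟩, ⟨6635520, -240, 0⟩, ⟨-114585600, 2303, 3270⟩, ⟨119316480, -667, -3944⟩]) rfl rfl
    (List.mem_of_getElem? (i := 289) rfl) TD_fr TD_cov ?_
  · intro X Y h
    simp only [List.forall_mem_cons, List.not_mem_nil, false_imp_iff, implies_true, and_true] at h
    push_cast at h ⊢
    obtain ⟨h0, h1, h2, h3⟩ := h
    refine ⟨⟨?_, ?_⟩, ?_, ?_⟩ <;> linarith

theorem TD_rg290 : ROK [.l ⟨0, 160, 0, -141⟩ ⟨0, 160, 0, 141⟩, .l ⟨0, -160, 0, 144⟩ ⟨0, 160, 0, 144⟩, .l ⟨0, 160, 0, -141⟩ ⟨0, 2500, 3122, -7179⟩, .l ⟨0, 160, 0, -144⟩ ⟨0, 2500, 3122, -7179⟩, .l ⟨0, 160, 0, -141⟩ ⟨0, -1250, -1561, -2415⟩, .l ⟨0, 160, 0, -144⟩ ⟨0, -1250, -1561, -2415⟩, .l ⟨0, 160, 0, -141⟩ ⟨0, 553, 1922, 1487⟩, .l ⟨0, 160, 0, -144⟩ ⟨0, 553, 1922, 1487⟩, .l ⟨0, 160, 0, -141⟩ ⟨0, 529, -3965, -2845⟩, .l ⟨0, 160, 0, -144⟩ ⟨0,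 529, -3965, -2845⟩] := by
  refine rok_ds (s := 1) (nlo := 141) (nhi := 144) (q := 160) (by decide) (by decide) (by decide) (by decide) (k := 1) (by decide) (Q := [(2500, 3122, 7179), (-1250, -1561, 2415), (553, 1922, -1487), (529, -3965, 2845)])
    (P := [⟨-4331520, 160, 0⟩, ⟨4423680, -160, 0⟩, ⟨220538880, 2500, 3122⟩, ⟨74188800, -1250, -1561⟩, ⟨-45680640, 553, 1922⟩, ⟨87398400, 529, -3965⟩]) rfl rfl
    (List.mem_of_getElem? (i := 290) rfl) TD_fr TD_cov ?_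
  · intro X Y h
    simp only [List.forall_mem_cons, List.not_mem_nil, false_imp_iff, implies_true, and_true] at h
    push_cast at h ⊢
    obtain ⟨h0, h1, h2, h3, h4, h5⟩ := h
    refine ⟨⟨?_, ?_⟩, ?_, ?_⟩ <;> linarith

theorem TD_rg291 : ROK [.l ⟨0, 960, 0, -853⟩ ⟨0, 960, 0, 853⟩, .l ⟨0, -960, 0, 860⟩ ⟨0, 960, 0, 860⟩, .l ⟨0, 960, 0, -853⟩ ⟨0, -2575, 3061, -715⟩, .l ⟨0, 960, 0, -860⟩ ⟨0, -2575, 3061, -715⟩, .l ⟨0, 960, 0, -853⟩ ⟨0, 1599, -3666, -1634⟩, .l ⟨0, 960, 0, -860⟩ ⟨0, 1599, -3666, -1634⟩] := by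
  refine rok_ds (s := 1) (nlo := 853) (nhi := 860) (q := 960) (by decide) (by decide) (by decide) (by decide) (k := 1) (by decide) (Q := [(-2575, 3061, 715), (1599, -3666, 1634)])
    (P := [⟨-26204160, 960, 0⟩, ⟨26419200, -960, 0⟩, ⟨21964800, -2575, 3061⟩, ⟨50196480, 1599, -3666⟩]) rfl rfl
    (List.mem_of_getElem? (i := 291) rfl) TD_fr TD_cov ?_
  · intro X Y h
    simp only [List.forall_mem_cons, List.not_mem_nil, false_imp_iff, implies_true, and_true] at h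
    push_cast at h ⊢
    obtain ⟨h0, h1, h2, h3⟩ := h
    refine ⟨⟨?_, ?_⟩, ?_, ?_⟩ <;> linarith

theorem TD_rg292 : ROK [.l ⟨0, 40, 0, -36⟩ ⟨0, 40, 0, 36⟩, .l ⟨0, -40, 0, 39⟩ ⟨0, 40, 0, 39⟩, .l ⟨0, 40, 0, -36⟩ ⟨0, 1228, 3807, -5328⟩, .l ⟨0, 40, 0, -39⟩ ⟨0, 1228, 3807, -5328⟩, .l ⟨0, 40, 0, -36⟩ ⟨0, -1228, -3807, -4291⟩, .l ⟨0, 40, 0, -39⟩ ⟨0, -1228, -3807, -4291⟩, .l ⟨0, 40, 0, -36⟩ ⟨0, 1269, 3793, 3044⟩, .l ⟨0, 40, 0, -39⟩ ⟨0, 1269, 3793, 3044⟩] := by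
  refine rok_ds (s := 1) (nlo := 36) (nhi := 39) (q := 40) (by decide) (by decide) (by decide) (by decide) (k := 1) (by decide) (Q := [(1228, 3807, 5328), (-1228, -3807, 4291), (1269, 3793, -3044)])
    (P := [⟨-1105920, 40, 0⟩, ⟨1198080, -40, 0⟩, ⟨163676160, 1228, 3807⟩, ⟨131819520, -1228, -3807⟩, ⟨-93511680, 1269, 3793⟩]) rfl rfl
    (List.mem_of_getElem? (i := 292) rfl) TD_fr TD_cov ?_
  · intro X Y h
    simp only [List.forall_mem_cons, List.not_mem_nil, false_imp_iff, implies_true, and_true] at h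
    push_cast at h ⊢
    obtain ⟨h0, h1, h2, h3, h4⟩ := h
    refine ⟨⟨?_, ?_⟩, ?_, ?_⟩ <;> linarith

theorem TD_rg293 : ROK [.l ⟨0, 480, 0, -426⟩ ⟨0, 480, 0, 426⟩, .l ⟨0, -480, 0, 433⟩ ⟨0, 480, 0, 433⟩, .l ⟨0, 480, 0, -426⟩ ⟨0, -1060, 3857, 1045⟩, .l ⟨0, 480, 0, -433⟩ ⟨0, -1060, 3857, 1045⟩, .l ⟨0, 480, 0, -426⟩ ⟨0, -432, -1953, -2020⟩, .l ⟨0, 480, 0, -433⟩ ⟨0, -432, -1953, -2020⟩, .l ⟨0, 480, 0, -426⟩ ⟨0, 3329, -2217, 1117⟩, .l ⟨0, 480, 0, -433⟩ ⟨0, 3329, -2217, 1117⟩] := by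
  refine rok_ds (s := 1) (nlo := 426) (nhi := 433) (q := 480) (by decide) (by decide) (by decide) (by decide) (k := 1) (by decide) (Q := [(-1060, 3857, -1045), (-432, -1953, 2020), (3329, -2217, -1117)])
    (P := [⟨-13086720, 480, 0⟩, ⟨13301760, -480, 0⟩, ⟨-32102400, -1060, 3857⟩, ⟨62054400, -432, -1953⟩, ⟨-34314240, 3329, -2217⟩]) rfl rfl
    (List.mem_of_getElem? (i := 293) rfl) TD_fr TD_cov ?_
  · intro X Y h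
    simp only [List.forall_mem_cons, List.not_mem_nil, false_imp_iff, implies_true, and_true] at h
    push_cast at h ⊢
    obtain ⟨h0, h1, h2, h3, h4⟩ := h
    refine ⟨⟨?_, ?_⟩, ?_, ?_⟩ <;> linarith

theorem TD_rg294 : ROK [.l ⟨0, 480, 0, -343⟩ ⟨0, 480, 0, 343⟩, .l ⟨0, -480, 0, 353⟩ ⟨0, 480, 0, 353⟩, .l ⟨0, 480, 0, -343⟩ ⟨0, 2672, 2977, 4165⟩, .l ⟨0, 480, 0, -353⟩ ⟨0, 2672, 2977, 4165⟩, .l ⟨0, 480, 0, -343⟩ ⟨0, -2672, -2977, -4363⟩, .l ⟨0, 480, 0, -353⟩ ⟨0, -2672, -2977, -4363⟩] := by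
  refine rok_ds (s := 1) (nlo := 343) (nhi := 353) (q := 480) (by decide) (by decide) (by decide) (by decide) (k := 1) (by decide) (Q := [(2672, 2977, -4165), (-2672, -2977, 4363)])
    (P := [⟨-10536960, 480, 0⟩, ⟨10844160, -480, 0⟩, ⟨-127948800, 2672, 2977⟩, ⟨134031360, -2672, -2977⟩]) rfl rfl
    (List.mem_of_getElem? (i := 294) rfl) TD_fr TD_cov ?_
  · intro X Y h
    simp only [List.forall_mem_cons, List.not_mem_nil, false_imp_iff, implies_true, and_true] at h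
    push_cast at h ⊢
    obtain ⟨h0, h1, h2, h3⟩ := h
    refine ⟨⟨?_, ?_⟩, ?_, ?_⟩ <;> linarith

theorem TD_rg295 : ROK [.l ⟨0, 960, 0, -860⟩ ⟨0, 960, 0, 860⟩, .l ⟨0, -960, 0, 867⟩ ⟨0, 960, 0, 867⟩, .l ⟨0, 960, 0, -860⟩ ⟨0, 752, 3929, 4183⟩, .l ⟨0, 960, 0, -867⟩ ⟨0, 752, 3929, 4183⟩, .l ⟨0, 960, 0, -860⟩ ⟨0, -752, -3929, -4896⟩, .l ⟨0, 960, 0, -867⟩ ⟨0, -752, -3929, -4896⟩, .l ⟨0, 960, 0, -860⟩ ⟨0, 1854, 3545, 4831⟩, .l ⟨0, 960, 0, -867⟩ ⟨0, 1854, 3545, 4831⟩] := by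
  refine rok_ds (s := 1) (nlo := 860) (nhi := 867) (q := 960) (by decide) (by decide) (by decide) (by decide) (k := 1) (by decide) (Q := [(752, 3929, -4183), (-752, -3929, 4896), (1854, 3545, -4831)])
    (P := [⟨-26419200, 960, 0⟩, ⟨26634240, -960, 0⟩, ⟨-128501760, 752, 3929⟩, ⟨150405120, -752, -3929⟩, ⟨-148408320, 1854, 3545⟩]) rfl rfl
    (List.mem_of_getElem? (i := 295) rfl) TD_fr TD_cov ?_
  · intro X Y h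
    simp only [List.forall_mem_cons, List.not_mem_nil, false_imp_iff, implies_true, and_true] at h
    push_cast at h ⊢
    obtain ⟨h0, h1, h2, h3, h4⟩ := h
    refine ⟨⟨?_, ?_⟩, ?_, ?_⟩ <;> linarith

theorem TD_rg296 : ROK [.l ⟨0, 40, 0, -34⟩ ⟨0, 40, 0, 34⟩, .l ⟨0, -40, 0, 35⟩ ⟨0, 40, 0, 35⟩, .l ⟨0, 40, 0, -34⟩ ⟨0, 0, 4000, 2101⟩, .l ⟨0, 40, 0, -35⟩ ⟨0, 0, 4000, 2101⟩, .l ⟨0, 40, 0, -34⟩ ⟨0, 0, -200, -167⟩, .l ⟨0, 40, 0, -35⟩ ⟨0, 0, -200, -167⟩, .l ⟨0, 40, 0, -34⟩ ⟨0, 1249, -3800, -2107⟩, .l ⟨0, 40, 0, -35⟩ ⟨0, 1249, -3800, -2107⟩] := by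
  refine rok_ds (s := 1) (nlo := 34) (nhi := 35) (q := 40) (by decide) (by decide) (by decide) (by decide) (k := 1) (by decide) (Q := [(0, 4000, -2101), (0, -200, 167), (1249, -3800, 2107)])
    (P := [⟨-1044480, 40, 0⟩, ⟨1075200, -40, 0⟩, ⟨-64542720, 0, 4000⟩, ⟨5130240, 0, -200⟩, ⟨64727040, 1249, -3800⟩]) rfl rfl
    (List.mem_of_getElem? (i := 296) rfl) TD_fr TD_cov ?_
  · intro X Y h
    simp only [List.forall_mem_cons, List.not_mem_nil, false_imp_iff, implies_true, and_true] at h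
    push_cast at h ⊢
    obtain ⟨h0, h1, h2, h3, h4⟩ := h
    refine ⟨⟨?_, ?_⟩, ?_, ?_⟩ <;> linarith

theorem TD_rg297 : ROK [.l ⟨0, 960, 0, -689⟩ ⟨0, 960, 0, 689⟩, .l ⟨0, -960, 0, 698⟩ ⟨0, 960, 0, 698⟩, .l ⟨0, 960, 0, -689⟩ ⟨0, 1015, 3869, 3638⟩, .l ⟨0, 960, 0, -698⟩ ⟨0, 1015, 3869, 3638⟩, .l ⟨0, 960, 0, -689⟩ ⟨0, -1015, -3869, -15654⟩, .l ⟨0, 960, 0, -698⟩ ⟨0, -1015, -3869, -15654⟩, .l ⟨0, 960, 0, -689⟩ ⟨0, 2863, 2793, 4162⟩, .l ⟨0, 960, 0, -698⟩ ⟨0, 2863, 2793, 4162⟩, .l ⟨0, 960, 0, -689⟩ ⟨0, -2861, -2795, -4357⟩, .l ⟨0, 960, 0, -698⟩ ⟨0, -2861, -2795, -4357⟩] := by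
  refine rok_ds (s := 1) (nlo := 689) (nhi := 698) (q := 960) (by decide) (by decide) (by decide) (by decide) (k := 1) (by decide) (Q := [(1015, 3869, -3638), (-1015, -3869, 15654), (2863, 2793, -4162), (-2861, -2795, 4357)])
    (P := [⟨-21166080, 960, 0⟩, ⟨21442560, -960, 0⟩, ⟨-111759360, 1015, 3869⟩, ⟨480890880, -1015, -3869⟩, ⟨-127856640, 2863, 2793⟩, ⟨133847040, -2861, -2795⟩]) rfl rfl
    (List.mem_of_getElem? (i := 297) rfl) TD_fr TD_cov ?_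
  · intro X Y h
    simp only [List.forall_mem_cons, List.not_mem_nil, false_imp_iff, implies_true, and_true] at h
    push_cast at h ⊢
    obtain ⟨h0, h1, h2, h3, h4, h5⟩ := h
    refine ⟨⟨?_, ?_⟩, ?_, ?_⟩ <;> linarith

theorem TD_rg298 : ROK [.l ⟨0, 320, 0, -286⟩ ⟨0, 320, 0, 286⟩, .l ⟨0, -320, 0, 289⟩ ⟨0, 320, 0, 289⟩, .l ⟨0, 320, 0, -286⟩ ⟨0, 614, 3953, -8163⟩, .l ⟨0, 320, 0, -289⟩ ⟨0, 614, 3953, -8163⟩, .l ⟨0, 320, 0, -286⟩ ⟨0, -614, -3953, -3856⟩, .l ⟨0, 320, 0, -289⟩ ⟨0, -614, -3953, -3856⟩, .l ⟨0, 320, 0, -286⟩ ⟨0, -1684, 1079, -954⟩, .l ⟨0, 320, 0, -289⟩ ⟨0, -1684, 1079, -954⟩] := by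
  refine rok_ds (s := 1) (nlo := 286) (nhi := 289) (q := 320) (by decide) (by decide) (by decide) (by decide) (k := 1) (by decide) (Q := [(614, 3953, 8163), (-614, -3953, 3856), (-1684, 1079, 954)])
    (P := [⟨-8785920, 320, 0⟩, ⟨8878080, -320, 0⟩, ⟨250767360, 614, 3953⟩, ⟨118456320, -614, -3953⟩, ⟨29306880, -1684, 1079⟩]) rfl rfl
    (List.mem_of_getElem? (i := 298) rfl) TD_fr TD_cov ?_
  · intro X Y h
    simp only [List.forall_mem_cons, List.not_mem_nil, false_imp_iff, implies_true, and_true] at h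
    push_cast at h ⊢
    obtain ⟨h0, h1, h2, h3, h4⟩ := h
    refine ⟨⟨?_, ?_⟩, ?_, ?_⟩ <;> linarith

theorem TD_rg299 : ROK [.l ⟨0, 40, 0, -29⟩ ⟨0, 40, 0, 29⟩, .l ⟨0, -40, 0, 32⟩ ⟨0, 40, 0, 32⟩, .l ⟨0, 40, 0, -29⟩ ⟨0, 757, 3928, 3486⟩, .l ⟨0, 40, 0, -32⟩ ⟨0, 757, 3928, 3486⟩, .l ⟨0, 40, 0, -29⟩ ⟨0, -757, -3928, -3788⟩, .l ⟨0, 40, 0, -32⟩ ⟨0, -757, -3928, -3788⟩] := by
  refine rok_ds (s := 1) (nlo := 29) (nhi := 32) (q := 40) (by decide) (by decide) (by decide) (by decide) (k := 1) (by decide) (Q := [(757, 3928, -3486), (-757, -3928, 3788)])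
    (P := [⟨-890880, 40, 0⟩, ⟨983040, -40, 0⟩, ⟨-107089920, 757, 3928⟩, ⟨116367360, -757, -3928⟩]) rfl rfl
    (List.mem_of_getElem? (i := 299) rfl) TD_fr TD_cov ?_
  · intro X Y h
    simp only [List.forall_mem_cons, List.not_mem_nil, false_imp_iff, implies_true, and_true] at h
    push_cast at h ⊢
    obtain ⟨h0, h1, h2, h3⟩ := h
    refine ⟨⟨?_, ?_⟩, ?_, ?_⟩ <;> linarith

theorem TD_rg300 : ROK [.l ⟨0, 960, 0, -844⟩ ⟨0, 960, 0, 844⟩, .l ⟨0, -960, 0, 855⟩ ⟨0, 960, 0, 855⟩, .l ⟨0, 960, 0, -844⟩ ⟨0, 0, 500, 447⟩, .l ⟨0, 960, 0, -855⟩ ⟨0, 0, 500, 447⟩, .l ⟨0, 960, 0, -844⟩ ⟨0, -2117, -3394, -5497⟩, .l ⟨0, 960, 0, -855⟩ ⟨0, -2117, -3394, -5497⟩, .l ⟨0, 960, 0, -844⟩ ⟨0, 3183, 2423, 4985⟩, .l ⟨0, 960, 0, -855⟩ ⟨0, 3183, 2423, 4985⟩] := by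
  refine rok_ds (s := 1) (nlo := 844) (nhi := 855) (q := 960) (by decide) (by decide) (by decide) (by decide) (k := 1) (by decide) (Q := [(0, 500, -447), (-2117, -3394, 5497), (3183, 2423, -4985)])
    (P := [⟨-25927680, 960, 0⟩, ⟨26265600, -960, 0⟩, ⟨-13731840, 0, 500⟩, ⟨168867840, -2117, -3394⟩, ⟨-153139200, 3183, 2423⟩]) rfl rfl
    (List.mem_of_getElem? (i := 300) rfl) TD_fr TD_cov ?_
  · intro X Y h
    simp only [List.forall_mem_cons, List.not_mem_nil, false_imp_iff, implies_true, and_true] at h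
    push_cast at h ⊢
    obtain ⟨h0, h1, h2, h3, h4⟩ := h
    refine ⟨⟨?_, ?_⟩, ?_, ?_⟩ <;> linarith

theorem TD_rg301 : ROK [.l ⟨0, 40, 0, -37⟩ ⟨0, 40, 0, 37⟩, .l ⟨0, -40, 0, 41⟩ ⟨0, 40, 0, 41⟩, .l ⟨0, 40, 0, -37⟩ ⟨0, 207, 3995, -7407⟩, .l ⟨0, 40, 0, -41⟩ ⟨0, 207, 3995, -7407⟩, .l ⟨0, 40, 0, -37⟩ ⟨0, -207, -3995, -4497⟩, .l ⟨0, 40, 0, -41⟩ ⟨0, -207, -3995, -4497⟩, .l ⟨0, 40, 0, -37⟩ ⟨0, 125, 1996, 1869⟩, .l ⟨0, 40, 0, -41⟩ ⟨0, 125, 1996, 1869⟩] := by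
  refine rok_ds (s := 1) (nlo := 37) (nhi := 41) (q := 40) (by decide) (by decide) (by decide) (by decide) (k := 1) (by decide) (Q := [(207, 3995, 7407), (-207, -3995, 4497), (125, 1996, -1869)])
    (P := [⟨-1136640, 40, 0⟩, ⟨1259520, -40, 0⟩, ⟨227543040, 207, 3995⟩, ⟨138147840, -207, -3995⟩, ⟨-57415680, 125, 1996⟩]) rfl rfl
    (List.mem_of_getElem? (i := 301) rfl) TD_fr TD_cov ?_
  · intro X Y h
    simp only [List.forall_mem_cons, List.not_mem_nil, false_imp_iff, implies_true, and_true] at h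
    push_cast at h ⊢
    obtain ⟨h0, h1, h2, h3, h4⟩ := h
    refine ⟨⟨?_, ?_⟩, ?_, ?_⟩ <;> linarith

theorem TD_rg302 : ROK [.l ⟨0, 480, 0, -433⟩ ⟨0, 480, 0, 433⟩, .l ⟨0, -480, 0, 440⟩ ⟨0, 480, 0, 440⟩, .l ⟨0, 480, 0, -433⟩ ⟨0, 0, 800, 709⟩, .l ⟨0, 480, 0, -440⟩ ⟨0, 0, 800, 709⟩, .l ⟨0, 480, 0, -433⟩ ⟨0, -275, -3991, -4537⟩, .l ⟨0, 480, 0, -440⟩ ⟨0, -275, -3991, -4537⟩, .l ⟨0, 480, 0, -433⟩ ⟨0, 2375, 3218, 5010⟩, .l ⟨0, 480, 0, -440⟩ ⟨0, 2375, 3218, 5010⟩] := by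
  refine rok_ds (s := 1) (nlo := 433) (nhi := 440) (q := 480) (by decide) (by decide) (by decide) (by decide) (k := 1) (by decide) (Q := [(0, 800, -709), (-275, -3991, 4537), (2375, 3218, -5010)])
    (P := [⟨-13301760, 480, 0⟩, ⟨13516800, -480, 0⟩, ⟨-21780480, 0, 800⟩, ⟨139376640, -275, -3991⟩, ⟨-153907200, 2375, 3218⟩]) rfl rfl
    (List.mem_of_getElem? (i := 302) rfl) TD_fr TD_cov ?_
  · intro X Y h
    simp only [List.forall_mem_cons, List.not_mem_nil, false_imp_iff, implies_true, and_true] at h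
    push_cast at h ⊢
    obtain ⟨h0, h1, h2, h3, h4⟩ := h
    refine ⟨⟨?_, ?_⟩, ?_, ?_⟩ <;> linarith

theorem TD_rg303 : ROK [.l ⟨0, 80, 0, -68⟩ ⟨0, 80, 0, 68⟩, .l ⟨0, -80, 0, 71⟩ ⟨0, 80, 0, 71⟩, .l ⟨0, 80, 0, -68⟩ ⟨0, -1047, 3860, 2552⟩, .l ⟨0, 80, 0, -71⟩ ⟨0, -1047, 3860, 2552⟩, .l ⟨0, 80, 0, -68⟩ ⟨0, 915, -3894, -3361⟩, .l ⟨0, 80, 0, -71⟩ ⟨0, 915, -3894, -3361⟩, .l ⟨0, 80, 0, -68⟩ ⟨0, 1923, 3507, 4837⟩, .l ⟨0, 80, 0, -71⟩ ⟨0, 1923, 3507, 4837⟩] := by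
  refine rok_ds (s := 1) (nlo := 68) (nhi := 71) (q := 80) (by decide) (by decide) (by decide) (by decide) (k := 1) (by decide) (Q := [(-1047, 3860, -2552), (915, -3894, 3361), (1923, 3507, -4837)])
    (P := [⟨-2088960, 80, 0⟩, ⟨2181120, -80, 0⟩, ⟨-78397440, -1047, 3860⟩, ⟨103249920, 915, -3894⟩, ⟨-148592640, 1923, 3507⟩]) rfl rfl
    (List.mem_of_getElem? (i := 303) rfl) TD_fr TD_cov ?_
  · intro X Y h
    simp only [List.forall_mem_cons, List.not_mem_nil, false_imp_iff, implies_true, and_true] at h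
    push_cast at h ⊢
    obtain ⟨h0, h1, h2, h3, h4⟩ := h
    refine ⟨⟨?_, ?_⟩, ?_, ?_⟩ <;> linarith

theorem TD_rg304 : ROK [.l ⟨0, 960, 0, -865⟩ ⟨0, 960, 0, 865⟩, .l ⟨0, -960, 0, 876⟩ ⟨0, 960, 0, 876⟩, .l ⟨0, 960, 0, -865⟩ ⟨0, 1987, 3471, 4884⟩, .l ⟨0, 960, 0, -876⟩ ⟨0, 1987, 3471, 4884⟩, .l ⟨0, 960, 0, -865⟩ ⟨0, 825, -3914, -3458⟩, .l ⟨0, 960, 0, -876⟩ ⟨0, 825, -3914, -3458⟩] := by
  refine rok_ds (s := 1) (nlo := 865) (nhi := 876) (q := 960) (by decide) (by decide) (by decide) (by decide) (k := 1) (by decide) (Q := [(1987, 3471, -4884), (825, -3914, 3458)])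
    (P := [⟨-26572800, 960, 0⟩, ⟨26910720, -960, 0⟩, ⟨-150036480, 1987, 3471⟩, ⟨106229760, 825, -3914⟩]) rfl rfl
    (List.mem_of_getElem? (i := 304) rfl) TD_fr TD_cov ?_
  · intro X Y h
    simp only [List.forall_mem_cons, List.not_mem_nil, false_imp_iff, implies_true, and_true] at h
    push_cast at h ⊢
    obtain ⟨h0, h1, h2, h3⟩ := h
    refine ⟨⟨?_, ?_⟩, ?_, ?_⟩ <;> linarith

theorem TD_rg305 : ROK [.l ⟨0, 80, 0, -69⟩ ⟨0, 80, 0, 69⟩, .l ⟨0, -80, 0, 73⟩ ⟨0, 80, 0, 73⟩, .l ⟨0, 80, 0, -69⟩ ⟨0, 426, 3977, 2462⟩, .l ⟨0, 80, 0, -73⟩ ⟨0, 426, 3977, 2462⟩, .l ⟨0, 80, 0, -69⟩ ⟨0, -426, -3977, -3691⟩, .l ⟨0, 80, 0, -73⟩ ⟨0, -426, -3977, -3691⟩] := by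
  refine rok_ds (s := 1) (nlo := 69) (nhi := 73) (q := 80) (by decide) (by decide) (by decide) (by decide) (k := 1) (by decide) (Q := [(426, 3977, -2462), (-426, -3977, 3691)])
    (P := [⟨-2119680, 80, 0⟩, ⟨2242560, -80, 0⟩, ⟨-75632640, 426, 3977⟩, ⟨113387520, -426, -3977⟩]) rfl rfl
    (List.mem_of_getElem? (i := 305) rfl) TD_fr TD_cov ?_
  · intro X Y h
    simp only [List.forall_mem_cons, List.not_mem_nil, false_imp_iff, implies_true, and_true] at h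
    push_cast at h ⊢
    obtain ⟨h0, h1, h2, h3⟩ := h
    refine ⟨⟨?_, ?_⟩, ?_, ?_⟩ <;> linarith

theorem TD_rg306 : ROK [.l ⟨0, 960, 0, -871⟩ ⟨0, 960, 0, 871⟩, .l ⟨0, -960, 0, 882⟩ ⟨0, 960, 0, 882⟩, .l ⟨0, 960, 0, -871⟩ ⟨0, 0, 800, 707⟩, .l ⟨0, 960, 0, -882⟩ ⟨0, 0, 800, 707⟩, .l ⟨0, 960, 0, -871⟩ ⟨0, -2055, -3432, -5551⟩, .l ⟨0, 960, 0, -882⟩ ⟨0, -2055, -3432, -5551⟩, .l ⟨0, 960, 0, -871⟩ ⟨0, 3714, 1485, 4694⟩, .l ⟨0, 960, 0, -882⟩ ⟨0, 3714, 1485, 4694⟩] := by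
  refine rok_ds (s := 1) (nlo := 871) (nhi := 882) (q := 960) (by decide) (by decide) (by decide) (by decide) (k := 1) (by decide) (Q := [(0, 800, -707), (-2055, -3432, 5551), (3714, 1485, -4694)])
    (P := [⟨-26757120, 960, 0⟩, ⟨27095040, -960, 0⟩, ⟨-21719040, 0, 800⟩, ⟨170526720, -2055, -3432⟩, ⟨-144199680, 3714, 1485⟩]) rfl rfl
    (List.mem_of_getElem? (i := 306) rfl) TD_fr TD_cov ?_
  · intro X Y h
    simp only [List.forall_mem_cons, List.not_mem_nil, false_imp_iff, implies_true, and_true] at h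
    push_cast at h ⊢
    obtain ⟨h0, h1, h2, h3, h4⟩ := h
    refine ⟨⟨?_, ?_⟩, ?_, ?_⟩ <;> linarith

theorem TD_rg307 : ROK [.l ⟨0, 40, 0, -32⟩ ⟨0, 40, 0, 32⟩, .l ⟨0, -40, 0, 35⟩ ⟨0, 40, 0, 35⟩, .l ⟨0, 40, 0, -32⟩ ⟨0, 709, 3937, 4184⟩, .l ⟨0, 40, 0, -35⟩ ⟨0, 709, 3937, 4184⟩, .l ⟨0, 40, 0, -32⟩ ⟨0, -1324, -1499, -2635⟩, .l ⟨0, 40, 0, -35⟩ ⟨0, -1324, -1499, -2635⟩, .l ⟨0, 40, 0, -32⟩ ⟨0, 1855, 748, 2235⟩, .l ⟨0, 40, 0, -35⟩ ⟨0, 1855, 748, 2235⟩] := by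
  refine rok_ds (s := 1) (nlo := 32) (nhi := 35) (q := 40) (by decide) (by decide) (by decide) (by decide) (k := 1) (by decide) (Q := [(709, 3937, -4184), (-1324, -1499, 2635), (1855, 748, -2235)])
    (P := [⟨-983040, 40, 0⟩, ⟨1075200, -40, 0⟩, ⟨-128532480, 709, 3937⟩, ⟨80947200, -1324, -1499⟩, ⟨-68659200, 1855, 748⟩]) rfl rfl
    (List.mem_of_getElem? (i := 307) rfl) TD_fr TD_cov ?_
  · intro X Y h
    simp only [List.forall_mem_cons, List.not_mem_nil, false_imp_iff, implies_true, and_true] at h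
    push_cast at h ⊢
    obtain ⟨h0, h1, h2, h3, h4⟩ := h
    refine ⟨⟨?_, ?_⟩, ?_, ?_⟩ <;> linarith

theorem TD_rg308 : ROK [.l ⟨0, 480, 0, -411⟩ ⟨0, 480, 0, 411⟩, .l ⟨0, -480, 0, 422⟩ ⟨0, 480, 0, 422⟩, .l ⟨0, 480, 0, -411⟩ ⟨0, 0, 4000, 2101⟩, .l ⟨0, 480, 0, -422⟩ ⟨0, 0, 4000, 2101⟩, .l ⟨0, 480, 0, -411⟩ ⟨0, 0, -200, -167⟩, .l ⟨0, 480, 0, -422⟩ ⟨0, 0, -200, -167⟩] := by
  refine rok_ds (s := 1) (nlo := 411) (nhi := 422) (q := 480) (by decide) (by decide) (by decide) (by decide) (k := 1) (by decide) (Q := [(0, 4000, -2101), (0, -200, 167)])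
    (P := [⟨-12625920, 480, 0⟩, ⟨12963840, -480, 0⟩, ⟨-64542720, 0, 4000⟩, ⟨5130240, 0, -200⟩]) rfl rfl
    (List.mem_of_getElem? (i := 308) rfl) TD_fr TD_cov ?_
  · intro X Y h
    simp only [List.forall_mem_cons, List.not_mem_nil, false_imp_iff, implies_true, and_true] at h
    push_cast at h ⊢
    obtain ⟨h0, h1, h2, h3⟩ := h
    refine ⟨⟨?_, ?_⟩, ?_, ?_⟩ <;> linarith

theorem TD_rg309 : ROK [.l ⟨0, 960, 0, -865⟩ ⟨0, 960, 0, 865⟩, .l ⟨0, -960, 0, 873⟩ ⟨0, 960, 0, 873⟩, .l ⟨0, 960, 0, -865⟩ ⟨0, -444, 3975, 3133⟩, .l ⟨0, 960, 0, -873⟩ ⟨0, -444, 3975, 3133⟩, .l ⟨0, 960, 0, -865⟩ ⟨0, 444, -3975, -3869⟩, .l ⟨0, 960, 0, -873⟩ ⟨0, 444, -3975, -3869⟩, .l ⟨0, 960, 0, -865⟩ ⟨0, 2424, 3182, 5015⟩, .l ⟨0, 960, 0, -873⟩ ⟨0, 2424, 3182, 5015⟩] := by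
  refine rok_ds (s := 1) (nlo := 865) (nhi := 873) (q := 960) (by decide) (by decide) (by decide) (by decide) (k := 1) (by decide) (Q := [(-444, 3975, -3133), (444, -3975, 3869), (2424, 3182, -5015)])
    (P := [⟨-26572800, 960, 0⟩, ⟨26818560, -960, 0⟩, ⟨-96245760, -444, 3975⟩, ⟨118855680, 444, -3975⟩, ⟨-154060800, 2424, 3182⟩]) rfl rfl
    (List.mem_of_getElem? (i := 309) rfl) TD_fr TD_cov ?_
  · intro X Y h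
    simp only [List.forall_mem_cons, List.not_mem_nil, false_imp_iff, implies_true, and_true] at h
    push_cast at h ⊢
    obtain ⟨h0, h1, h2, h3, h4⟩ := h
    refine ⟨⟨?_, ?_⟩, ?_, ?_⟩ <;> linarith

theorem TD_rg310 : ROK [.l ⟨0, 960, 0, -851⟩ ⟨0, 960, 0, 851⟩, .l ⟨0, -960, 0, 862⟩ ⟨0, 960, 0, 862⟩, .l ⟨0, 960, 0, -851⟩ ⟨0, -689, 3940, -8193⟩, .l ⟨0, 960, 0, -862⟩ ⟨0, -689, 3940, -8193⟩, .l ⟨0, 960, 0, -851⟩ ⟨0, 2683, -2967, -85⟩, .l ⟨0, 960, 0, -862⟩ ⟨0, 2683, -2967, -85⟩, .l ⟨0, 960, 0, -851⟩ ⟨0, 1595, 3668, 3300⟩, .l ⟨0, 960, 0, -862⟩ ⟨0, 1595, 3668, 3300⟩, .l ⟨0, 960, 0, -851⟩ ⟨0, -782, -3923, -3981⟩, .l ⟨0, 960, 0, -862⟩ ⟨0, -782, -3923, -3981⟩] := by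
  refine rok_ds (s := 1) (nlo := 851) (nhi := 862) (q := 960) (by decide) (by decide) (by decide) (by decide) (k := 1) (by decide) (Q := [(-689, 3940, 8193), (2683, -2967, 85), (1595, 3668, -3300), (-782, -3923, 3981)])
    (P := [⟨-26142720, 960, 0⟩, ⟨26480640, -960, 0⟩, ⟨251688960, -689, 3940⟩, ⟨2611200, 2683, -2967⟩, ⟨-101376000, 1595, 3668⟩, ⟨122296320, -782, -3923⟩]) rfl rfl
    (List.mem_of_getElem? (i := 310) rfl) TD_fr TD_cov ?_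
  · intro X Y h
    simp only [List.forall_mem_cons, List.not_mem_nil, false_imp_iff, implies_true, and_true] at h
    push_cast at h ⊢
    obtain ⟨h0, h1, h2, h3, h4, h5⟩ := h
    refine ⟨⟨?_, ?_⟩, ?_, ?_⟩ <;> linarith

theorem TD_rg311 : ROK [.l ⟨0, 960, 0, -854⟩ ⟨0, 960, 0, 854⟩, .l ⟨0, -960, 0, 861⟩ ⟨0, 960, 0, 861⟩, .l ⟨0, 960, 0, -854⟩ ⟨0, 0, 4000, 3567⟩, .l ⟨0, 960, 0, -861⟩ ⟨0, 0, 4000, 3567⟩, .l ⟨0, 960, 0, -854⟩ ⟨0, 1677, -3631, -2395⟩, .l ⟨0, 960, 0, -861⟩ ⟨0, 1677, -3631, -2395⟩, .l ⟨0, 960, 0, -854⟩ ⟨0, -367, 438, 63⟩, .l ⟨0, 960, 0, -861⟩ ⟨0, -367, 438, 63⟩] := by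
  refine rok_ds (s := 1) (nlo := 854) (nhi := 861) (q := 960) (by decide) (by decide) (by decide) (by decide) (k := 1) (by decide) (Q := [(0, 4000, -3567), (1677, -3631, 2395), (-367, 438, -63)])
    (P := [⟨-26234880, 960, 0⟩, ⟨26449920, -960, 0⟩, ⟨-109578240, 0, 4000⟩, ⟨73574400, 1677, -3631⟩, ⟨-1935360, -367, 438⟩]) rfl rfl
    (List.mem_of_getElem? (i := 311) rfl) TD_fr TD_cov ?_
  · intro X Y h
    simp only [List.forall_mem_cons, List.not_mem_nil, false_imp_iff, implies_true, and_true] at h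
    push_cast at h ⊢
    obtain ⟨h0, h1, h2, h3, h4⟩ := h
    refine ⟨⟨?_, ?_⟩, ?_, ?_⟩ <;> linarith

end Pool.Agent.TET
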