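import Pool.Agent.Helper38_TET.TD_C

/-!
# MP_c7c9bf_co: certificates, family TD
-/

set_option autoImplicit false
set_option maxRecDepth 100000

namespace Pool.Agent.TET

theorem TD_rg336 : ROK [.l ⟨0, 960, 0, -873⟩ ⟨0, 960, 0, 873⟩, .l ⟨0, -960, 0, 881⟩ ⟨0, 960, 0, 881⟩, .l ⟨0, 960, 0, -873⟩ ⟨0, 11, 4000, -7690⟩, .l ⟨0, 960, 0, -881⟩ ⟨0, 11, 4000, -7690⟩, .l ⟨0, 960, 0, -873⟩ ⟨0, -11, -4000, -4315⟩, .l ⟨0, 960, 0, -881⟩ ⟨0, -11, -4000, -4315⟩, .l ⟨0, 960, 0, -873⟩ ⟨0, 228, 3994, 3747⟩, .l ⟨0, 960, 0, -881⟩ ⟨0, 228, 3994, 3747⟩] := by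
  refine rok_ds (s := 1) (nlo := 873) (nhi := 881) (q := 960) (by decide) (by decide) (by decide) (by decide) (k := 1) (by decide) (Q := [(11, 4000, 7690), (-11, -4000, 4315), (228, 3994, -3747)])
    (P := [⟨-26818560, 960, 0⟩, ⟨27064320, -960, 0⟩, ⟨236236800, 11, 4000⟩, ⟨132556800, -11, -4000⟩, ⟨-115107840, 228, 3994⟩]) rfl rfl
    (List.mem_of_getElem? (i := 336) rfl) TD_fr TD_cov ?_
  · intro X Y h
    simp only [List.forall_mem_cons, List.not_mem_nil, false_imp_iff, implies_true, and_true] at h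
    push_cast at h ⊢
    obtain ⟨h0, h1, h2, h3, h4⟩ := h
    refine ⟨⟨?_, ?_⟩, ?_, ?_⟩ <;> linarith

theorem TD_rg337 : ROK [.l ⟨0, 960, 0, -895⟩ ⟨0, 960, 0, 895⟩, .l ⟨0, -960, 0, 903⟩ ⟨0, 960, 0, 903⟩, .l ⟨0, 960, 0, -895⟩ ⟨0, 0, 250, 219⟩, .l ⟨0, 960, 0, -903⟩ ⟨0, 0, 250, 219⟩, .l ⟨0, 960, 0, -895⟩ ⟨0, 0, -800, -863⟩, .l ⟨0, 960, 0, -903⟩ ⟨0, 0, -800, -863⟩] := by
  refine rok_ds (s := 1) (nlo := 895) (nhi := 903) (q := 960) (by decide) (by decide) (by decide) (by decide) (k := 1) (by decide) (Q := [(0, 250, -219), (0, -800, 863)])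
    (P := [⟨-27494400, 960, 0⟩, ⟨27740160, -960, 0⟩, ⟨-6727680, 0, 250⟩, ⟨26511360, 0, -800⟩]) rfl rfl
    (List.mem_of_getElem? (i := 337) rfl) TD_fr TD_cov ?_
  · intro X Y h
    simp only [List.forall_mem_cons, List.not_mem_nil, false_imp_iff, implies_true, and_true] at h
    push_cast at h ⊢
    obtain ⟨h0, h1, h2, h3⟩ := h
    refine ⟨⟨?_, ?_⟩, ?_, ?_⟩ <;> linarith

theorem TD_rg338 : ROK [.l ⟨0, 960, 0, -827⟩ ⟨0, 960, 0, 827⟩, .l ⟨0, -960, 0, 837⟩ ⟨0, 960, 0, 837⟩, .l ⟨0, 960, 0, -827⟩ ⟨0, 2069, 3423, 3548⟩, .l ⟨0, 960, 0, -837⟩ ⟨0, 2069, 3423, 3548⟩, .l ⟨0, 960, 0, -827⟩ ⟨0, -631, -3950, -3844⟩, .l ⟨0, 960, 0, -837⟩ ⟨0, -631, -3950, -3844⟩] := by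
  refine rok_ds (s := 1) (nlo := 827) (nhi := 837) (q := 960) (by decide) (by decide) (by decide) (by decide) (k := 1) (by decide) (Q := [(2069, 3423, -3548), (-631, -3950, 3844)])
    (P := [⟨-25405440, 960, 0⟩, ⟨25712640, -960, 0⟩, ⟨-108994560, 2069, 3423⟩, ⟨118087680, -631, -3950⟩]) rfl rfl
    (List.mem_of_getElem? (i := 338) rfl) TD_fr TD_cov ?_
  · intro X Y h
    simp only [List.forall_mem_cons, List.not_mem_nil, false_imp_iff, implies_true, and_true] at h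
    push_cast at h ⊢
    obtain ⟨h0, h1, h2, h3⟩ := h
    refine ⟨⟨?_, ?_⟩, ?_, ?_⟩ <;> linarith

theorem TD_rg339 : ROK [.l ⟨0, 240, 0, -179⟩ ⟨0, 240, 0, 179⟩, .l ⟨0, -240, 0, 200⟩ ⟨0, 240, 0, 200⟩, .l ⟨0, 240, 0, -179⟩ ⟨0, -1344, 3768, 2699⟩, .l ⟨0, 240, 0, -200⟩ ⟨0, -1344, 3768, 2699⟩, .l ⟨0, 240, 0, -179⟩ ⟨0, 913, -3894, -3325⟩, .l ⟨0, 240, 0, -200⟩ ⟨0, 913, -3894, -3325⟩] := by
  refine rok_ds (s := 1) (nlo := 179) (nhi := 200) (q := 240) (by decide) (by decide) (by decide) (by decide) (k := 1) (by decide) (Q := [(-1344, 3768, -2699), (913, -3894, 3325)])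
    (P := [⟨-5498880, 240, 0⟩, ⟨6144000, -240, 0⟩, ⟨-82913280, -1344, 3768⟩, ⟨102144000, 913, -3894⟩]) rfl rfl
    (List.mem_of_getElem? (i := 339) rfl) TD_fr TD_cov ?_
  · intro X Y h
    simp only [List.forall_mem_cons, List.not_mem_nil, false_imp_iff, implies_true, and_true] at h
    push_cast at h ⊢
    obtain ⟨h0, h1, h2, h3⟩ := h
    refine ⟨⟨?_, ?_⟩, ?_, ?_⟩ <;> linarith

theorem TD_rg340 : ROK [.l ⟨0, 960, 0, -815⟩ ⟨0, 960, 0, 815⟩, .l ⟨0, -960, 0, 822⟩ ⟨0, 960, 0, 822⟩, .l ⟨0, 960, 0, -815⟩ ⟨0, 489, 3970, 2479⟩, .l ⟨0, 960, 0, -822⟩ ⟨0, 489, 3970, 2479⟩, .l ⟨0, 960, 0, -815⟩ ⟨0, -489, -3970, -3730⟩, .l ⟨0, 960, 0, -822⟩ ⟨0, -489, -3970, -3730⟩] := by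
  refine rok_ds (s := 1) (nlo := 815) (nhi := 822) (q := 960) (by decide) (by decide) (by decide) (by decide) (k := 1) (by decide) (Q := [(489, 3970, -2479), (-489, -3970, 3730)])
    (P := [⟨-25036800, 960, 0⟩, ⟨25251840, -960, 0⟩, ⟨-76154880, 489, 3970⟩, ⟨114585600, -489, -3970⟩]) rfl rfl
    (List.mem_of_getElem? (i := 340) rfl) TD_fr TD_cov ?_
  · intro X Y h
    simp only [List.forall_mem_cons, List.not_mem_nil, false_imp_iff, implies_true, and_true] at h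
    push_cast at h ⊢
    obtain ⟨h0, h1, h2, h3⟩ := h
    refine ⟨⟨?_, ?_⟩, ?_, ?_⟩ <;> linarith

theorem TD_rg341 : ROK [.l ⟨0, 960, 0, -812⟩ ⟨0, 960, 0, 812⟩, .l ⟨0, -960, 0, 821⟩ ⟨0, 960, 0, 821⟩, .l ⟨0, 960, 0, -812⟩ ⟨0, 0, 1000, -2169⟩, .l ⟨0, 960, 0, -821⟩ ⟨0, 0, 1000, -2169⟩, .l ⟨0, 960, 0, -812⟩ ⟨0, -1643, -3647, -4443⟩, .l ⟨0, 960, 0, -821⟩ ⟨0, -1643, -3647, -4443⟩, .l ⟨0, 960, 0, -812⟩ ⟨0, 758, 3928, 2689⟩, .l ⟨0, 960, 0, -821⟩ ⟨0, 758, 3928, 2689⟩, .l ⟨0, 960, 0, -812⟩ ⟨0, 2103, -3403, -1055⟩, .l ⟨0, 960, 0, -821⟩ ⟨0, 2103, -3403, -1055⟩] := by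
  refine rok_ds (s := 1) (nlo := 812) (nhi := 821) (q := 960) (by decide) (by decide) (by decide) (by decide) (k := 1) (by decide) (Q := [(0, 1000, 2169), (-1643, -3647, 4443), (758, 3928, -2689), (2103, -3403, 1055)])
    (P := [⟨-24944640, 960, 0⟩, ⟨25221120, -960, 0⟩, ⟨66631680, 0, 1000⟩, ⟨136488960, -1643, -3647⟩, ⟨-82606080, 758, 3928⟩, ⟨32409600, 2103, -3403⟩]) rfl rfl
    (List.mem_of_getElem? (i := 341) rfl) TD_fr TD_cov ?_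
  · intro X Y h
    simp only [List.forall_mem_cons, List.not_mem_nil, false_imp_iff, implies_true, and_true] at h
    push_cast at h ⊢
    obtain ⟨h0, h1, h2, h3, h4, h5⟩ := h
    refine ⟨⟨?_, ?_⟩, ?_, ?_⟩ <;> linarith

theorem TD_rg342 : ROK [.l ⟨0, 480, 0, -412⟩ ⟨0, 480, 0, 412⟩, .l ⟨0, -480, 0, 415⟩ ⟨0, 480, 0, 415⟩, .l ⟨0, 480, 0, -412⟩ ⟨0, 1681, 3630, -7534⟩, .l ⟨0, 480, 0, -415⟩ ⟨0, 1681, 3630, -7534⟩, .l ⟨0, 480, 0, -412⟩ ⟨0, -421, -1955, -1997⟩, .l ⟨0, 480, 0, -415⟩ ⟨0, -421, -1955, -1997⟩, .l ⟨0, 480, 0, -412⟩ ⟨0, 3613, 1716, 4003⟩, .l ⟨0, 480, 0, -415⟩ ⟨0, 3613, 1716, 4003⟩, .l ⟨0, 480, 0, -412⟩ ⟨0, 1527, -3697, -1773⟩, .l ⟨0, 480, 0, -415⟩ ⟨0, 1527, -3697, -1773⟩] := by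
  refine rok_ds (s := 1) (nlo := 412) (nhi := 415) (q := 480) (by decide) (by decide) (by decide) (by decide) (k := 1) (by decide) (Q := [(1681, 3630, 7534), (-421, -1955, 1997), (3613, 1716, -4003), (1527, -3697, 1773)])
    (P := [⟨-12656640, 480, 0⟩, ⟨12748800, -480, 0⟩, ⟨231444480, 1681, 3630⟩, ⟨61347840, -421, -1955⟩, ⟨-122972160, 3613, 1716⟩, ⟨54466560, 1527, -3697⟩]) rfl rfl
    (List.mem_of_getElem? (i := 342) rfl) TD_fr TD_cov ?_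
  · intro X Y h
    simp only [List.forall_mem_cons, List.not_mem_nil, false_imp_iff, implies_true, and_true] at h
    push_cast at h ⊢
    obtain ⟨h0, h1, h2, h3, h4, h5⟩ := h
    refine ⟨⟨?_, ?_⟩, ?_, ?_⟩ <;> linarith

theorem TD_rg343 : ROK [.l ⟨0, 480, 0, -407⟩ ⟨0, 480, 0, 407⟩, .l ⟨0, -480, 0, 414⟩ ⟨0, 480, 0, 414⟩, .l ⟨0, 480, 0, -407⟩ ⟨0, 0, 4000, 2081⟩, .l ⟨0, 480, 0, -414⟩ ⟨0, 0, 4000, 2081⟩, .l ⟨0, 480, 0, -407⟩ ⟨0, 0, -200, -167⟩, .l ⟨0, 480, 0, -414⟩ ⟨0, 0, -200, -167⟩, .l ⟨0, 480, 0, -407⟩ ⟨0, 1964, -3485, -1235⟩, .l ⟨0, 480, 0, -414⟩ ⟨0, 1964, -3485, -1235⟩] := by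
  refine rok_ds (s := 1) (nlo := 407) (nhi := 414) (q := 480) (by decide) (by decide) (by decide) (by decide) (k := 1) (by decide) (Q := [(0, 4000, -2081), (0, -200, 167), (1964, -3485, 1235)])
    (P := [⟨-12503040, 480, 0⟩, ⟨12718080, -480, 0⟩, ⟨-63928320, 0, 4000⟩, ⟨5130240, 0, -200⟩, ⟨37939200, 1964, -3485⟩]) rfl rfl
    (List.mem_of_getElem? (i := 343) rfl) TD_fr TD_cov ?_
  · intro X Y h
    simp only [List.forall_mem_cons, List.not_mem_nil, false_imp_iff, implies_true, and_true] at h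
    push_cast at h ⊢
    obtain ⟨h0, h1, h2, h3, h4⟩ := h
    refine ⟨⟨?_, ?_⟩, ?_, ?_⟩ <;> linarith

theorem TD_rg344 : ROK [.l ⟨0, 96, 0, -82⟩ ⟨0, 96, 0, 82⟩, .l ⟨0, -96, 0, 83⟩ ⟨0, 96, 0, 83⟩, .l ⟨0, 96, 0, -82⟩ ⟨0, 0, 4000, 2067⟩, .l ⟨0, 96, 0, -83⟩ ⟨0, 0, 4000, 2067⟩, .l ⟨0, 96, 0, -82⟩ ⟨0, 666, -1886, -1005⟩, .l ⟨0, 96, 0, -83⟩ ⟨0, 666, -1886, -1005⟩, .l ⟨0, 96, 0, -82⟩ ⟨0, -1523, -3699, -4397⟩, .l ⟨0, 96, 0, -83⟩ ⟨0, -1523, -3699, -4397⟩] := by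
  refine rok_ds (s := 1) (nlo := 82) (nhi := 83) (q := 96) (by decide) (by decide) (by decide) (by decide) (k := 1) (by decide) (Q := [(0, 4000, -2067), (666, -1886, 1005), (-1523, -3699, 4397)])
    (P := [⟨-2519040, 96, 0⟩, ⟨2549760, -96, 0⟩, ⟨-63498240, 0, 4000⟩, ⟨30873600, 666, -1886⟩, ⟨135075840, -1523, -3699⟩]) rfl rfl
    (List.mem_of_getElem? (i := 344) rfl) TD_fr TD_cov ?_
  · intro X Y h
    simp only [List.forall_mem_cons, List.not_mem_nil, false_imp_iff, implies_true, and_true] at h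
    push_cast at h ⊢
    obtain ⟨h0, h1, h2, h3, h4⟩ := h
    refine ⟨⟨?_, ?_⟩, ?_, ?_⟩ <;> linarith

theorem TD_rg345 : ROK [.l ⟨0, 240, 0, -185⟩ ⟨0, 240, 0, 185⟩, .l ⟨0, -240, 0, 199⟩ ⟨0, 240, 0, 199⟩, .l ⟨0, 240, 0, -185⟩ ⟨0, -711, 3936, -8537⟩, .l ⟨0, 240, 0, -199⟩ ⟨0, -711, 3936, -8537⟩, .l ⟨0, 240, 0, -185⟩ ⟨0, 1127, -3838, -3122⟩, .l ⟨0, 240, 0, -199⟩ ⟨0, 1127, -3838, -3122⟩, .l ⟨0, 240, 0, -185⟩ ⟨0, 2969, 2680, 4949⟩, .l ⟨0, 240, 0, -199⟩ ⟨0, 2969, 2680, 4949⟩] := by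
  refine rok_ds (s := 1) (nlo := 185) (nhi := 199) (q := 240) (by decide) (by decide) (by decide) (by decide) (k := 1) (by decide) (Q := [(-711, 3936, 8537), (1127, -3838, 3122), (2969, 2680, -4949)])
    (P := [⟨-5683200, 240, 0⟩, ⟨6113280, -240, 0⟩, ⟨262256640, -711, 3936⟩, ⟨95907840, 1127, -3838⟩, ⟨-152033280, 2969, 2680⟩]) rfl rfl
    (List.mem_of_getElem? (i := 345) rfl) TD_fr TD_cov ?_
  · intro X Y h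
    simp only [List.forall_mem_cons, List.not_mem_nil, false_imp_iff, implies_true, and_true] at h
    push_cast at h ⊢
    obtain ⟨h0, h1, h2, h3, h4⟩ := h
    refine ⟨⟨?_, ?_⟩, ?_, ?_⟩ <;> linarith

theorem TD_rg346 : ROK [.l ⟨0, 240, 0, -218⟩ ⟨0, 240, 0, 218⟩, .l ⟨0, -240, 0, 221⟩ ⟨0, 240, 0, 221⟩, .l ⟨0, 240, 0, -218⟩ ⟨0, 16, 4000, -6281⟩, .l ⟨0, 240, 0, -221⟩ ⟨0, 16, 4000, -6281⟩, .l ⟨0, 240, 0, -218⟩ ⟨0, -1, -250, -270⟩, .l ⟨0, 240, 0, -221⟩ ⟨0, -1, -250, -270⟩, .l ⟨0, 240, 0, -218⟩ ⟨0, -148, 989, 742⟩, .l ⟨0, 240, 0, -221⟩ ⟨0, -148, 989, 742⟩] := by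
  refine rok_ds (s := 1) (nlo := 218) (nhi := 221) (q := 240) (by decide) (by decide) (by decide) (by decide) (k := 1) (by decide) (Q := [(16, 4000, 6281), (-1, -250, 270), (-148, 989, -742)])
    (P := [⟨-6696960, 240, 0⟩, ⟨6789120, -240, 0⟩, ⟨192952320, 16, 4000⟩, ⟨8294400, -1, -250⟩, ⟨-22794240, -148, 989⟩]) rfl rfl
    (List.mem_of_getElem? (i := 346) rfl) TD_fr TD_cov ?_
  · intro X Y h
    simp only [List.forall_mem_cons, List.not_mem_nil, false_imp_iff, implies_true, and_true] at h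
    push_cast at h ⊢
    obtain ⟨h0, h1, h2, h3, h4⟩ := h
    refine ⟨⟨?_, ?_⟩, ?_, ?_⟩ <;> linarith

theorem TD_rg347 : ROK [.l ⟨0, 480, 0, -405⟩ ⟨0, 480, 0, 405⟩, .l ⟨0, -480, 0, 413⟩ ⟨0, 480, 0, 413⟩, .l ⟨0, 480, 0, -405⟩ ⟨0, 1024, 3867, -7928⟩, .l ⟨0, 480, 0, -413⟩ ⟨0, 1024, 3867, -7928⟩, .l ⟨0, 480, 0, -405⟩ ⟨0, -1024, -3867, -4099⟩, .l ⟨0, 480, 0, -413⟩ ⟨0, -1024, -3867, -4099⟩, .l ⟨0, 480, 0, -405⟩ ⟨0, 811, 3917, 2731⟩, .l ⟨0, 480, 0, -413⟩ ⟨0, 811, 3917, 2731⟩, .l ⟨0, 480, 0, -405⟩ ⟨0, 1239, -3803, -2123⟩, .l ⟨0, 480, 0, -413⟩ ⟨0, 1239, -3803, -2123⟩] := by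
  refine rok_ds (s := 1) (nlo := 405) (nhi := 413) (q := 480) (by decide) (by decide) (by decide) (by decide) (k := 1) (by decide) (Q := [(1024, 3867, 7928), (-1024, -3867, 4099), (811, 3917, -2731), (1239, -3803, 2123)])
    (P := [⟨-12441600, 480, 0⟩, ⟨12687360, -480, 0⟩, ⟨243548160, 1024, 3867⟩, ⟨125921280, -1024, -3867⟩, ⟨-83896320, 811, 3917⟩, ⟨65218560, 1239, -3803⟩]) rfl rfl
    (List.mem_of_getElem? (i := 347) rfl) TD_fr TD_cov ?_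
  · intro X Y h
    simp only [List.forall_mem_cons, List.not_mem_nil, false_imp_iff, implies_true, and_true] at h
    push_cast at h ⊢
    obtain ⟨h0, h1, h2, h3, h4, h5⟩ := h
    refine ⟨⟨?_, ?_⟩, ?_, ?_⟩ <;> linarith

theorem TD_rg348 : ROK [.l ⟨0, 480, 0, -411⟩ ⟨0, 480, 0, 411⟩, .l ⟨0, -480, 0, 418⟩ ⟨0, 480, 0, 418⟩, .l ⟨0, 480, 0, -411⟩ ⟨0, 0, 4000, -7741⟩, .l ⟨0, 480, 0, -418⟩ ⟨0, 0, 4000, -7741⟩, .l ⟨0, 480, 0, -411⟩ ⟨0, 0, -4000, -3343⟩, .l ⟨0, 480, 0, -418⟩ ⟨0, 0, -4000, -3343⟩, .l ⟨0, 480, 0, -411⟩ ⟨0, -2145, 3376, -94⟩, .l ⟨0, 480, 0, -418⟩ ⟨0, -2145, 3376, -94⟩, .l ⟨0, 480, 0, -411⟩ ⟨0, 1602, -3665, -1682⟩, .l ⟨0, 480, 0, -418⟩ ⟨0, 1602, -3665, -1682⟩] := by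
  refine rok_ds (s := 1) (nlo := 411) (nhi := 418) (q := 480) (by decide) (by decide) (by decide) (by decide) (k := 1) (by decide) (Q := [(0, 4000, 7741), (0, -4000, 3343), (-2145, 3376, 94), (1602, -3665, 1682)])
    (P := [⟨-12625920, 480, 0⟩, ⟨12840960, -480, 0⟩, ⟨237803520, 0, 4000⟩, ⟨102696960, 0, -4000⟩, ⟨2887680, -2145, 3376⟩, ⟨51671040, 1602, -3665⟩]) rfl rfl
    (List.mem_of_getElem? (i := 348) rfl) TD_fr TD_cov ?_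
  · intro X Y h
    simp only [List.forall_mem_cons, List.not_mem_nil, false_imp_iff, implies_true, and_true] at h
    push_cast at h ⊢
    obtain ⟨h0, h1, h2, h3, h4, h5⟩ := h
    refine ⟨⟨?_, ?_⟩, ?_, ?_⟩ <;> linarith

theorem TD_rg349 : ROK [.l ⟨0, 960, 0, -894⟩ ⟨0, 960, 0, 894⟩, .l ⟨0, -960, 0, 905⟩ ⟨0, 960, 0, 905⟩, .l ⟨0, 960, 0, -894⟩ ⟨0, 0, 4000, -6761⟩, .l ⟨0, 960, 0, -905⟩ ⟨0, 0, 4000, -6761⟩, .l ⟨0, 960, 0, -894⟩ ⟨0, -486, -1940, -2549⟩, .l ⟨0, 960, 0, -905⟩ ⟨0, -486, -1940, -2549⟩, .l ⟨0, 960, 0, -894⟩ ⟨0, 2192, 3346, 4981⟩, .l ⟨0, 960, 0, -905⟩ ⟨0, 2192, 3346, 4981⟩, .l ⟨0, 960, 0, -894⟩ ⟨0, 109, -315, -238⟩, .l ⟨0, 960, 0, -905⟩ ⟨0, 109, -315, -238⟩] := by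
  refine rok_ds (s := 1) (nlo := 894) (nhi := 905) (q := 960) (by decide) (by decide) (by decide) (by decide) (k := 1) (by decide) (Q := [(0, 4000, 6761), (-486, -1940, 2549), (2192, 3346, -4981), (109, -315, 238)])
    (P := [⟨-27463680, 960, 0⟩, ⟨27801600, -960, 0⟩, ⟨207697920, 0, 4000⟩, ⟨78305280, -486, -1940⟩, ⟨-153016320, 2192, 3346⟩, ⟨7311360, 109, -315⟩]) rfl rfl
    (List.mem_of_getElem? (i := 349) rfl) TD_fr TD_cov ?_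
  · intro X Y h
    simp only [List.forall_mem_cons, List.not_mem_nil, false_imp_iff, implies_true, and_true] at h
    push_cast at h ⊢
    obtain ⟨h0, h1, h2, h3, h4, h5⟩ := h
    refine ⟨⟨?_, ?_⟩, ?_, ?_⟩ <;> linarith

theorem TD_rg350 : ROK [.l ⟨0, 960, 0, -871⟩ ⟨0, 960, 0, 871⟩, .l ⟨0, -960, 0, 878⟩ ⟨0, 960, 0, 878⟩, .l ⟨0, 960, 0, -871⟩ ⟨0, 0, 4000, -7703⟩, .l ⟨0, 960, 0, -878⟩ ⟨0, 0, 4000, -7703⟩, .l ⟨0, 960, 0, -871⟩ ⟨0, 316, -1975, -1837⟩, .l ⟨0, 960, 0, -878⟩ ⟨0, 316, -1975, -1837⟩, .l ⟨0, 960, 0, -871⟩ ⟨0, -289, 1979, 1491⟩, .l ⟨0, 960, 0, -878⟩ ⟨0, -289, 1979, 1491⟩, .l ⟨0, 960, 0, -871⟩ ⟨0, 3379, -2141, 767⟩, .l ⟨0, 960, 0, -878⟩ ⟨0, 3379, -2141, 767⟩] := by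
  refine rok_ds (s := 1) (nlo := 871) (nhi := 878) (q := 960) (by decide) (by decide) (by decide) (by decide) (k := 1) (by decide) (Q := [(0, 4000, 7703), (316, -1975, 1837), (-289, 1979, -1491), (3379, -2141, -767)])
    (P := [⟨-26757120, 960, 0⟩, ⟨26972160, -960, 0⟩, ⟨236636160, 0, 4000⟩, ⟨56432640, 316, -1975⟩, ⟨-45803520, -289, 1979⟩, ⟨-23562240, 3379, -2141⟩]) rfl rfl
    (List.mem_of_getElem? (i := 350) rfl) TD_fr TD_cov ?_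
  · intro X Y h
    simp only [List.forall_mem_cons, List.not_mem_nil, false_imp_iff, implies_true, and_true] at h
    push_cast at h ⊢
    obtain ⟨h0, h1, h2, h3, h4, h5⟩ := h
    refine ⟨⟨?_, ?_⟩, ?_, ?_⟩ <;> linarith

theorem TD_rg351 : ROK [.l ⟨0, 480, 0, -412⟩ ⟨0, 480, 0, 412⟩, .l ⟨0, -480, 0, 417⟩ ⟨0, 480, 0, 417⟩, .l ⟨0, 480, 0, -412⟩ ⟨0, 0, 2000, -3137⟩, .l ⟨0, 480, 0, -417⟩ ⟨0, 0, 2000, -3137⟩, .l ⟨0, 480, 0, -412⟩ ⟨0, 0, -2000, -1671⟩, .l ⟨0, 480, 0, -417⟩ ⟨0, 0, -2000, -1671⟩, .l ⟨0, 480, 0, -412⟩ ⟨0, 1647, 3645, 3293⟩, .l ⟨0, 480, 0, -417⟩ ⟨0, 1647, 3645, 3293⟩, .l ⟨0, 480, 0, -412⟩ ⟨0, 3027, -2615, 421⟩, .l ⟨0, 480, 0, -417⟩ ⟨0, 3027, -2615, 421⟩] := by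
  refine rok_ds (s := 1) (nlo := 412) (nhi := 417) (q := 480) (by decide) (by decide) (by decide) (by decide) (k := 1) (by decide) (Q := [(0, 2000, 3137), (0, -2000, 1671), (1647, 3645, -3293), (3027, -2615, -421)])
    (P := [⟨-12656640, 480, 0⟩, ⟨12810240, -480, 0⟩, ⟨96368640, 0, 2000⟩, ⟨51333120, 0, -2000⟩, ⟨-101160960, 1647, 3645⟩, ⟨-12933120, 3027, -2615⟩]) rfl rfl
    (List.mem_of_getElem? (i := 351) rfl) TD_fr TD_cov ?_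
  · intro X Y h
    simp only [List.forall_mem_cons, List.not_mem_nil, false_imp_iff, implies_true, and_true] at h
    push_cast at h ⊢
    obtain ⟨h0, h1, h2, h3, h4, h5⟩ := h
    refine ⟨⟨?_, ?_⟩, ?_, ?_⟩ <;> linarith

theorem TD_rg352 : ROK [.l ⟨0, 960, 0, -889⟩ ⟨0, 960, 0, 889⟩, .l ⟨0, -960, 0, 897⟩ ⟨0, 960, 0, 897⟩, .l ⟨0, 960, 0, -889⟩ ⟨0, -68, 3999, -6478⟩, .l ⟨0, 960, 0, -897⟩ ⟨0, -68, 3999, -6478⟩, .l ⟨0, 960, 0, -889⟩ ⟨0, 68, -3999, -4247⟩, .l ⟨0, 960, 0, -897⟩ ⟨0, 68, -3999, -4247⟩, .l ⟨0, 960, 0, -889⟩ ⟨0, -957, 1756, 656⟩, .l ⟨0, 960, 0, -897⟩ ⟨0, -957, 1756, 656⟩] := by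
  refine rok_ds (s := 1) (nlo := 889) (nhi := 897) (q := 960) (by decide) (by decide) (by decide) (by decide) (k := 1) (by decide) (Q := [(-68, 3999, 6478), (68, -3999, 4247), (-957, 1756, -656)])
    (P := [⟨-27310080, 960, 0⟩, ⟨27555840, -960, 0⟩, ⟨199004160, -68, 3999⟩, ⟨130467840, 68, -3999⟩, ⟨-20152320, -957, 1756⟩]) rfl rfl
    (List.mem_of_getElem? (i := 352) rfl) TD_fr TD_cov ?_
  · intro X Y h
    simp only [List.forall_mem_cons, List.not_mem_nil, false_imp_iff, implies_true, and_true] at h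
    push_cast at h ⊢
    obtain ⟨h0, h1, h2, h3, h4⟩ := h
    refine ⟨⟨?_, ?_⟩, ?_, ?_⟩ <;> linarith

theorem TD_rg353 : ROK [.l ⟨0, 60, 0, -54⟩ ⟨0, 60, 0, 54⟩, .l ⟨0, -60, 0, 55⟩ ⟨0, 60, 0, 55⟩, .l ⟨0, 60, 0, -54⟩ ⟨0, 125, 1996, 1894⟩, .l ⟨0, 60, 0, -55⟩ ⟨0, 125, 1996, 1894⟩, .l ⟨0, 60, 0, -54⟩ ⟨0, -72, -3999, -4370⟩, .l ⟨0, 60, 0, -55⟩ ⟨0, -72, -3999, -4370⟩, .l ⟨0, 60, 0, -54⟩ ⟨0, 1282, -1535, -486⟩, .l ⟨0, 60, 0, -55⟩ ⟨0, 1282, -1535, -486⟩] := by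
  refine rok_ds (s := 1) (nlo := 54) (nhi := 55) (q := 60) (by decide) (by decide) (by decide) (by decide) (k := 1) (by decide) (Q := [(125, 1996, -1894), (-72, -3999, 4370), (1282, -1535, 486)])
    (P := [⟨-1658880, 60, 0⟩, ⟨1689600, -60, 0⟩, ⟨-58183680, 125, 1996⟩, ⟨134246400, -72, -3999⟩, ⟨14929920, 1282, -1535⟩]) rfl rfl
    (List.mem_of_getElem? (i := 353) rfl) TD_fr TD_cov ?_
  · intro X Y h
    simp only [List.forall_mem_cons, List.not_mem_nil, false_imp_iff, implies_true, and_true] at h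
    push_cast at h ⊢
    obtain ⟨h0, h1, h2, h3, h4⟩ := h
    refine ⟨⟨?_, ?_⟩, ?_, ?_⟩ <;> linarith

theorem TD_rg354 : ROK [.l ⟨0, 40, 0, -31⟩ ⟨0, 40, 0, 31⟩, .l ⟨0, -40, 0, 33⟩ ⟨0, 40, 0, 33⟩, .l ⟨0, 40, 0, -31⟩ ⟨0, 0, 4000, 3873⟩, .l ⟨0, 40, 0, -33⟩ ⟨0, 0, 4000, 3873⟩, .l ⟨0, 40, 0, -31⟩ ⟨0, 0, -4000, -4171⟩, .l ⟨0, 40, 0, -33⟩ ⟨0, 0, -4000, -4171⟩] := by
  refine rok_ds (s := 1) (nlo := 31) (nhi := 33) (q := 40) (by decide) (by decide) (by decide) (by decide) (k := 1) (by decide) (Q := [(0, 4000, -3873), (0, -4000, 4171)])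
    (P := [⟨-952320, 40, 0⟩, ⟨1013760, -40, 0⟩, ⟨-118978560, 0, 4000⟩, ⟨128133120, 0, -4000⟩]) rfl rfl
    (List.mem_of_getElem? (i := 354) rfl) TD_fr TD_cov ?_
  · intro X Y h
    simp only [List.forall_mem_cons, List.not_mem_nil, false_imp_iff, implies_true, and_true] at h
    push_cast at h ⊢
    obtain ⟨h0, h1, h2, h3⟩ := h
    refine ⟨⟨?_, ?_⟩, ?_, ?_⟩ <;> linarith

theorem TD_rg355 : ROK [.l ⟨0, 480, 0, -340⟩ ⟨0, 480, 0, 340⟩, .l ⟨0, -480, 0, 347⟩ ⟨0, 480, 0, 347⟩, .l ⟨0, 480, 0, -340⟩ ⟨0, 900, 1786, 2003⟩, .l ⟨0, 480, 0, -347⟩ ⟨0, 900, 1786, 2003⟩, .l ⟨0, 480, 0, -340⟩ ⟨0, -2500, -3123, -4339⟩, .l ⟨0, 480, 0, -347⟩ ⟨0, -2500, -3123, -4339⟩] := by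
  refine rok_ds (s := 1) (nlo := 340) (nhi := 347) (q := 480) (by decide) (by decide) (by decide) (by decide) (k := 1) (by decide) (Q := [(900, 1786, -2003), (-2500, -3123, 4339)])
    (P := [⟨-10444800, 480, 0⟩, ⟨10659840, -480, 0⟩, ⟨-61532160, 900, 1786⟩, ⟨133294080, -2500, -3123⟩]) rfl rfl
    (List.mem_of_getElem? (i := 355) rfl) TD_fr TD_cov ?_
  · intro X Y h
    simp only [List.forall_mem_cons, List.not_mem_nil, false_imp_iff, implies_true, and_true] at h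
    push_cast at h ⊢
    obtain ⟨h0, h1, h2, h3⟩ := h
    refine ⟨⟨?_, ?_⟩, ?_, ?_⟩ <;> linarith

end Pool.Agent.TET
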