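import Pool.Agent.Helper38_TET.TD_C

/-!
# MP_c7c9bf_co: certificates, family TD
-/

set_option autoImplicit false
set_option maxRecDepth 100000

namespace Pool.Agent.TET

theorem TD_rg48 : ROK [.l ⟨0, 80, 0, -74⟩ ⟨0, 80, 0, 74⟩, .l ⟨0, -80, 0, 77⟩ ⟨0, 80, 0, 77⟩, .l ⟨0, 80, 0, -74⟩ ⟨0, -261, 3991, -5581⟩, .l ⟨0, 80, 0, -77⟩ ⟨0, -261, 3991, -5581⟩, .l ⟨0, 80, 0, -74⟩ ⟨0, 261, -3991, -4059⟩, .l ⟨0, 80, 0, -77⟩ ⟨0, 261, -3991, -4059⟩, .l ⟨0, 80, 0, -74⟩ ⟨0, 93, 3999, 3611⟩, .l ⟨0, 80, 0, -77⟩ ⟨0, 93, 3999, 3611⟩] := by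
  refine rok_ds (s := 1) (nlo := 74) (nhi := 77) (q := 80) (by decide) (by decide) (by decide) (by decide) (k := 1) (by decide) (Q := [(-261, 3991, 5581), (261, -3991, 4059), (93, 3999, -3611)])
    (P := [⟨-2273280, 80, 0⟩, ⟨2365440, -80, 0⟩, ⟨171448320, -261, 3991⟩, ⟨124692480, 261, -3991⟩, ⟨-110929920, 93, 3999⟩]) rfl rfl
    (List.mem_of_getElem? (i := 48) rfl) TD_fr TD_cov ?_
  · intro X Y h
    simp only [List.forall_mem_cons, List.not_mem_nil, false_imp_iff, implies_true, and_true] at h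
    push_cast at h ⊢
    obtain ⟨h0, h1, h2, h3, h4⟩ := h
    refine ⟨⟨?_, ?_⟩, ?_, ?_⟩ <;> linarith

theorem TD_rg49 : ROK [.l ⟨0, 40, 0, -31⟩ ⟨0, 40, 0, 31⟩, .l ⟨0, -40, 0, 33⟩ ⟨0, 40, 0, 33⟩, .l ⟨0, 40, 0, -31⟩ ⟨0, 0, 2000, -4079⟩, .l ⟨0, 40, 0, -33⟩ ⟨0, 0, 2000, -4079⟩, .l ⟨0, 40, 0, -31⟩ ⟨0, 406, -3979, -2967⟩, .l ⟨0, 40, 0, -33⟩ ⟨0, 406, -3979, -2967⟩, .l ⟨0, 40, 0, -31⟩ ⟨0, 2676, 2973, 4124⟩, .l ⟨0, 40, 0, -33⟩ ⟨0, 2676, 2973, 4124⟩] := by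
  refine rok_ds (s := 1) (nlo := 31) (nhi := 33) (q := 40) (by decide) (by decide) (by decide) (by decide) (k := 1) (by decide) (Q := [(0, 2000, 4079), (406, -3979, 2967), (2676, 2973, -4124)])
    (P := [⟨-952320, 40, 0⟩, ⟨1013760, -40, 0⟩, ⟨125306880, 0, 2000⟩, ⟨91146240, 406, -3979⟩, ⟨-126689280, 2676, 2973⟩]) rfl rfl
    (List.mem_of_getElem? (i := 49) rfl) TD_fr TD_cov ?_
  · intro X Y h
    simp only [List.forall_mem_cons, List.not_mem_nil, false_imp_iff, implies_true, and_true] at h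
    push_cast at h ⊢
    obtain ⟨h0, h1, h2, h3, h4⟩ := h
    refine ⟨⟨?_, ?_⟩, ?_, ?_⟩ <;> linarith

theorem TD_rg50 : ROK [.l ⟨0, 48, 0, -43⟩ ⟨0, 48, 0, 43⟩, .l ⟨0, -48, 0, 44⟩ ⟨0, 48, 0, 44⟩, .l ⟨0, 48, 0, -43⟩ ⟨0, 0, 2000, -3071⟩, .l ⟨0, 48, 0, -44⟩ ⟨0, 0, 2000, -3071⟩, .l ⟨0, 48, 0, -43⟩ ⟨0, 0, -4000, -4299⟩, .l ⟨0, 48, 0, -44⟩ ⟨0, 0, -4000, -4299⟩, .l ⟨0, 48, 0, -43⟩ ⟨0, 1829, 3557, 4826⟩, .l ⟨0, 48, 0, -44⟩ ⟨0, 1829, 3557, 4826⟩] := by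
  refine rok_ds (s := 1) (nlo := 43) (nhi := 44) (q := 48) (by decide) (by decide) (by decide) (by decide) (k := 1) (by decide) (Q := [(0, 2000, 3071), (0, -4000, 4299), (1829, 3557, -4826)])
    (P := [⟨-1320960, 48, 0⟩, ⟨1351680, -48, 0⟩, ⟨94341120, 0, 2000⟩, ⟨132065280, 0, -4000⟩, ⟨-148254720, 1829, 3557⟩]) rfl rfl
    (List.mem_of_getElem? (i := 50) rfl) TD_fr TD_cov ?_
  · intro X Y h
    simp only [List.forall_mem_cons, List.not_mem_nil, false_imp_iff, implies_true, and_true] at h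
    push_cast at h ⊢
    obtain ⟨h0, h1, h2, h3, h4⟩ := h
    refine ⟨⟨?_, ?_⟩, ?_, ?_⟩ <;> linarith

theorem TD_rg51 : ROK [.l ⟨0, 20, 0, -15⟩ ⟨0, 20, 0, 15⟩, .l ⟨0, -20, 0, 18⟩ ⟨0, 20, 0, 18⟩, .l ⟨0, 20, 0, -15⟩ ⟨0, -259, 3992, 2679⟩, .l ⟨0, 20, 0, -18⟩ ⟨0, -259, 3992, 2679⟩, .l ⟨0, 20, 0, -15⟩ ⟨0, 259, -3992, -3092⟩, .l ⟨0, 20, 0, -18⟩ ⟨0, 259, -3992, -3092⟩] := by
  refine rok_ds (s := 1) (nlo := 15) (nhi := 18) (q := 20) (by decide) (by decide) (by decide) (by decide) (k := 1) (by decide) (Q := [(-259, 3992, -2679), (259, -3992, 3092)])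
    (P := [⟨-460800, 20, 0⟩, ⟨552960, -20, 0⟩, ⟨-82298880, -259, 3992⟩, ⟨94986240, 259, -3992⟩]) rfl rfl
    (List.mem_of_getElem? (i := 51) rfl) TD_fr TD_cov ?_
  · intro X Y h
    simp only [List.forall_mem_cons, List.not_mem_nil, false_imp_iff, implies_true, and_true] at h
    push_cast at h ⊢
    obtain ⟨h0, h1, h2, h3⟩ := h
    refine ⟨⟨?_, ?_⟩, ?_, ?_⟩ <;> linarith

theorem TD_rg52 : ROK [.l ⟨0, 40, 0, -33⟩ ⟨0, 40, 0, 33⟩, .l ⟨0, -40, 0, 37⟩ ⟨0, 40, 0, 37⟩, .l ⟨0, 40, 0, -33⟩ ⟨0, 0, 800, 747⟩, .l ⟨0, 40, 0, -37⟩ ⟨0, 0, 800, 747⟩, .l ⟨0, 40, 0, -33⟩ ⟨0, 779, -3923, -3499⟩, .l ⟨0, 40, 0, -37⟩ ⟨0, 779, -3923, -3499⟩] := by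
  refine rok_ds (s := 1) (nlo := 33) (nhi := 37) (q := 40) (by decide) (by decide) (by decide) (by decide) (k := 1) (by decide) (Q := [(0, 800, -747), (779, -3923, 3499)])
    (P := [⟨-1013760, 40, 0⟩, ⟨1136640, -40, 0⟩, ⟨-22947840, 0, 800⟩, ⟨107489280, 779, -3923⟩]) rfl rfl
    (List.mem_of_getElem? (i := 52) rfl) TD_fr TD_cov ?_
  · intro X Y h
    simp only [List.forall_mem_cons, List.not_mem_nil, false_imp_iff, implies_true, and_true] at h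
    push_cast at h ⊢
    obtain ⟨h0, h1, h2, h3⟩ := h
    refine ⟨⟨?_, ?_⟩, ?_, ?_⟩ <;> linarith

theorem TD_rg53 : ROK [.l ⟨0, 80, 0, -70⟩ ⟨0, 80, 0, 70⟩, .l ⟨0, -80, 0, 73⟩ ⟨0, 80, 0, 73⟩, .l ⟨0, 80, 0, -70⟩ ⟨0, 0, 400, 361⟩, .l ⟨0, 80, 0, -73⟩ ⟨0, 0, 400, 361⟩, .l ⟨0, 80, 0, -70⟩ ⟨0, 691, -3940, -3607⟩, .l ⟨0, 80, 0, -73⟩ ⟨0, 691, -3940, -3607⟩] := by
  refine rok_ds (s := 1) (nlo := 70) (nhi := 73) (q := 80) (by decide) (by decide) (by decide) (by decide) (k := 1) (by decide) (Q := [(0, 400, -361), (691, -3940, 3607)])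
    (P := [⟨-2150400, 80, 0⟩, ⟨2242560, -80, 0⟩, ⟨-11089920, 0, 400⟩, ⟨110807040, 691, -3940⟩]) rfl rfl
    (List.mem_of_getElem? (i := 53) rfl) TD_fr TD_cov ?_
  · intro X Y h
    simp only [List.forall_mem_cons, List.not_mem_nil, false_imp_iff, implies_true, and_true] at h
    push_cast at h ⊢
    obtain ⟨h0, h1, h2, h3⟩ := h
    refine ⟨⟨?_, ?_⟩, ?_, ?_⟩ <;> linarith

theorem TD_rg54 : ROK [.l ⟨0, 20, 0, -13⟩ ⟨0, 20, 0, 13⟩, .l ⟨0, -20, 0, 16⟩ ⟨0, 20, 0, 16⟩, .l ⟨0, 20, 0, -13⟩ ⟨0, 0, 4000, -5231⟩, .l ⟨0, 20, 0, -16⟩ ⟨0, 0, 4000, -5231⟩, .l ⟨0, 20, 0, -13⟩ ⟨0, 0, -500, -403⟩, .l ⟨0, 20, 0, -16⟩ ⟨0, 0, -500, -403⟩, .l ⟨0, 20, 0, -13⟩ ⟨0, 2883, 2773, 4165⟩, .l ⟨0, 20, 0, -16⟩ ⟨0, 2883, 2773, 4165⟩] := by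
  refine rok_ds (s := 1) (nlo := 13) (nhi := 16) (q := 20) (by decide) (by decide) (by decide) (by decide) (k := 1) (by decide) (Q := [(0, 4000, 5231), (0, -500, 403), (2883, 2773, -4165)])
    (P := [⟨-399360, 20, 0⟩, ⟨491520, -20, 0⟩, ⟨160696320, 0, 4000⟩, ⟨12380160, 0, -500⟩, ⟨-127948800, 2883, 2773⟩]) rfl rfl
    (List.mem_of_getElem? (i := 54) rfl) TD_fr TD_cov ?_
  · intro X Y h
    simp only [List.forall_mem_cons, List.not_mem_nil, false_imp_iff, implies_true, and_true] at h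
    push_cast at h ⊢
    obtain ⟨h0, h1, h2, h3, h4⟩ := h
    refine ⟨⟨?_, ?_⟩, ?_, ?_⟩ <;> linarith

theorem TD_rg55 : ROK [.l ⟨0, 40, 0, -33⟩ ⟨0, 40, 0, 33⟩, .l ⟨0, -40, 0, 37⟩ ⟨0, 40, 0, 37⟩, .l ⟨0, 40, 0, -33⟩ ⟨0, 1432, 3735, 4626⟩, .l ⟨0, 40, 0, -37⟩ ⟨0, 1432, 3735, 4626⟩, .l ⟨0, 40, 0, -33⟩ ⟨0, -1432, -3735, -5123⟩, .l ⟨0, 40, 0, -37⟩ ⟨0, -1432, -3735, -5123⟩, .l ⟨0, 40, 0, -33⟩ ⟨0, 2842, 2815, 4999⟩, .l ⟨0, 40, 0, -37⟩ ⟨0, 2842, 2815, 4999⟩] := by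
  refine rok_ds (s := 1) (nlo := 33) (nhi := 37) (q := 40) (by decide) (by decide) (by decide) (by decide) (k := 1) (by decide) (Q := [(1432, 3735, -4626), (-1432, -3735, 5123), (2842, 2815, -4999)])
    (P := [⟨-1013760, 40, 0⟩, ⟨1136640, -40, 0⟩, ⟨-142110720, 1432, 3735⟩, ⟨157378560, -1432, -3735⟩, ⟨-153569280, 2842, 2815⟩]) rfl rfl
    (List.mem_of_getElem? (i := 55) rfl) TD_fr TD_cov ?_
  · intro X Y h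
    simp only [List.forall_mem_cons, List.not_mem_nil, false_imp_iff, implies_true, and_true] at h
    push_cast at h ⊢
    obtain ⟨h0, h1, h2, h3, h4⟩ := h
    refine ⟨⟨?_, ?_⟩, ?_, ?_⟩ <;> linarith

theorem TD_rg56 : ROK [.l ⟨0, 480, 0, -430⟩ ⟨0, 480, 0, 430⟩, .l ⟨0, -480, 0, 437⟩ ⟨0, 480, 0, 437⟩, .l ⟨0, 480, 0, -430⟩ ⟨0, 0, 500, 447⟩, .l ⟨0, 480, 0, -437⟩ ⟨0, 0, 500, 447⟩, .l ⟨0, 480, 0, -430⟩ ⟨0, 0, -4000, -4299⟩, .l ⟨0, 480, 0, -437⟩ ⟨0, 0, -4000, -4299⟩] := by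
  refine rok_ds (s := 1) (nlo := 430) (nhi := 437) (q := 480) (by decide) (by decide) (by decide) (by decide) (k := 1) (by decide) (Q := [(0, 500, -447), (0, -4000, 4299)])
    (P := [⟨-13209600, 480, 0⟩, ⟨13424640, -480, 0⟩, ⟨-13731840, 0, 500⟩, ⟨132065280, 0, -4000⟩]) rfl rfl
    (List.mem_of_getElem? (i := 56) rfl) TD_fr TD_cov ?_
  · intro X Y h
    simp only [List.forall_mem_cons, List.not_mem_nil, false_imp_iff, implies_true, and_true] at h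
    push_cast at h ⊢
    obtain ⟨h0, h1, h2, h3⟩ := h
    refine ⟨⟨?_, ?_⟩, ?_, ?_⟩ <;> linarith

theorem TD_rg57 : ROK [.l ⟨0, 10, 0, -8⟩ ⟨0, 10, 0, 8⟩, .l ⟨0, -10, 0, 9⟩ ⟨0, 10, 0, 9⟩, .l ⟨0, 10, 0, -8⟩ ⟨0, 2667, 2981, 5065⟩, .l ⟨0, 10, 0, -9⟩ ⟨0, 2667, 2981, 5065⟩, .l ⟨0, 10, 0, -8⟩ ⟨0, 525, -1930, -1601⟩, .l ⟨0, 10, 0, -9⟩ ⟨0, 525, -1930, -1601⟩] := by
  refine rok_ds (s := 1) (nlo := 8) (nhi := 9) (q := 10) (by decide) (by decide) (by decide) (by decide) (k := 1) (by decide) (Q := [(2667, 2981, -5065), (525, -1930, 1601)])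
    (P := [⟨-245760, 10, 0⟩, ⟨276480, -10, 0⟩, ⟨-155596800, 2667, 2981⟩, ⟨49182720, 525, -1930⟩]) rfl rfl
    (List.mem_of_getElem? (i := 57) rfl) TD_fr TD_cov ?_
  · intro X Y h
    simp only [List.forall_mem_cons, List.not_mem_nil, false_imp_iff, implies_true, and_true] at h
    push_cast at h ⊢
    obtain ⟨h0, h1, h2, h3⟩ := h
    refine ⟨⟨?_, ?_⟩, ?_, ?_⟩ <;> linarith

theorem TD_rg58 : ROK [.l ⟨0, 40, 0, -32⟩ ⟨0, 40, 0, 32⟩, .l ⟨0, -40, 0, 35⟩ ⟨0, 40, 0, 35⟩, .l ⟨0, 40, 0, -32⟩ ⟨0, 1136, 3835, 4563⟩, .l ⟨0, 40, 0, -35⟩ ⟨0, 1136, 3835, 4563⟩, .l ⟨0, 40, 0, -32⟩ ⟨0, 1213, -3812, -3015⟩, .l ⟨0, 40, 0, -35⟩ ⟨0, 1213, -3812, -3015⟩] := by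
  refine rok_ds (s := 1) (nlo := 32) (nhi := 35) (q := 40) (by decide) (by decide) (by decide) (by decide) (k := 1) (by decide) (Q := [(1136, 3835, -4563), (1213, -3812, 3015)])
    (P := [⟨-983040, 40, 0⟩, ⟨1075200, -40, 0⟩, ⟨-140175360, 1136, 3835⟩, ⟨92620800, 1213, -3812⟩]) rfl rfl
    (List.mem_of_getElem? (i := 58) rfl) TD_fr TD_cov ?_
  · intro X Y h
    simp only [List.forall_mem_cons, List.not_mem_nil, false_imp_iff, implies_true, and_true] at h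
    push_cast at h ⊢
    obtain ⟨h0, h1, h2, h3⟩ := h
    refine ⟨⟨?_, ?_⟩, ?_, ?_⟩ <;> linarith

theorem TD_rg59 : ROK [.l ⟨0, 40, 0, -31⟩ ⟨0, 40, 0, 31⟩, .l ⟨0, -40, 0, 34⟩ ⟨0, 40, 0, 34⟩, .l ⟨0, 40, 0, -31⟩ ⟨0, 2641, 3004, 4118⟩, .l ⟨0, 40, 0, -34⟩ ⟨0, 2641, 3004, 4118⟩, .l ⟨0, 40, 0, -31⟩ ⟨0, 338, -3986, -3025⟩, .l ⟨0, 40, 0, -34⟩ ⟨0, 338, -3986, -3025⟩] := by
  refine rok_ds (s := 1) (nlo := 31) (nhi := 34) (q := 40) (by decide) (by decide) (by decide) (by decide) (k := 1) (by decide) (Q := [(2641, 3004, -4118), (338, -3986, 3025)])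
    (P := [⟨-952320, 40, 0⟩, ⟨1044480, -40, 0⟩, ⟨-126504960, 2641, 3004⟩, ⟨92928000, 338, -3986⟩]) rfl rfl
    (List.mem_of_getElem? (i := 59) rfl) TD_fr TD_cov ?_
  · intro X Y h
    simp only [List.forall_mem_cons, List.not_mem_nil, false_imp_iff, implies_true, and_true] at h
    push_cast at h ⊢
    obtain ⟨h0, h1, h2, h3⟩ := h
    refine ⟨⟨?_, ?_⟩, ?_, ?_⟩ <;> linarith

theorem TD_rg60 : ROK [.l ⟨0, 20, 0, -14⟩ ⟨0, 20, 0, 14⟩, .l ⟨0, -20, 0, 15⟩ ⟨0, 20, 0, 15⟩, .l ⟨0, 20, 0, -14⟩ ⟨0, 208, 1317, -1521⟩, .l ⟨0, 20, 0, -15⟩ ⟨0, 208, 1317, -1521⟩, .l ⟨0, 20, 0, -14⟩ ⟨0, -2337, -3246, -4289⟩, .l ⟨0, 20, 0, -15⟩ ⟨0, -2337, -3246, -4289⟩, .l ⟨0, 20, 0, -14⟩ ⟨0, 2728, 2926, 4173⟩, .l ⟨0, 20, 0, -15⟩ ⟨0, 2728, 2926, 4173⟩] := by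
  refine rok_ds (s := 1) (nlo := 14) (nhi := 15) (q := 20) (by decide) (by decide) (by decide) (by decide) (k := 1) (by decide) (Q := [(208, 1317, 1521), (-2337, -3246, 4289), (2728, 2926, -4173)])
    (P := [⟨-430080, 20, 0⟩, ⟨460800, -20, 0⟩, ⟨46725120, 208, 1317⟩, ⟨131758080, -2337, -3246⟩, ⟨-128194560, 2728, 2926⟩]) rfl rfl
    (List.mem_of_getElem? (i := 60) rfl) TD_fr TD_cov ?_
  · intro X Y h
    simp only [List.forall_mem_cons, List.not_mem_nil, false_imp_iff, implies_true, and_true] at h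
    push_cast at h ⊢
    obtain ⟨h0, h1, h2, h3, h4⟩ := h
    refine ⟨⟨?_, ?_⟩, ?_, ?_⟩ <;> linarith

theorem TD_rg61 : ROK [.l ⟨0, 480, 0, -349⟩ ⟨0, 480, 0, 349⟩, .l ⟨0, -480, 0, 356⟩ ⟨0, 480, 0, 356⟩, .l ⟨0, 480, 0, -349⟩ ⟨0, 2659, 2988, 4159⟩, .l ⟨0, 480, 0, -356⟩ ⟨0, 2659, 2988, 4159⟩, .l ⟨0, 480, 0, -349⟩ ⟨0, -1282, -3789, -4056⟩, .l ⟨0, 480, 0, -356⟩ ⟨0, -1282, -3789, -4056⟩] := by
  refine rok_ds (s := 1) (nlo := 349) (nhi := 356) (q := 480) (by decide) (by decide) (by decide) (by decide) (k := 1) (by decide) (Q := [(2659, 2988, -4159), (-1282, -3789, 4056)])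
    (P := [⟨-10721280, 480, 0⟩, ⟨10936320, -480, 0⟩, ⟨-127764480, 2659, 2988⟩, ⟨124600320, -1282, -3789⟩]) rfl rfl
    (List.mem_of_getElem? (i := 61) rfl) TD_fr TD_cov ?_
  · intro X Y h
    simp only [List.forall_mem_cons, List.not_mem_nil, false_imp_iff, implies_true, and_true] at h
    push_cast at h ⊢
    obtain ⟨h0, h1, h2, h3⟩ := h
    refine ⟨⟨?_, ?_⟩, ?_, ?_⟩ <;> linarith

theorem TD_rg62 : ROK [.l ⟨0, 96, 0, -85⟩ ⟨0, 96, 0, 85⟩, .l ⟨0, -96, 0, 87⟩ ⟨0, 96, 0, 87⟩, .l ⟨0, 96, 0, -85⟩ ⟨0, 0, 400, -773⟩, .l ⟨0, 96, 0, -87⟩ ⟨0, 0, 400, -773⟩, .l ⟨0, 96, 0, -85⟩ ⟨0, 0, -2000, -2143⟩, .l ⟨0, 96, 0, -87⟩ ⟨0, 0, -2000, -2143⟩, .l ⟨0, 96, 0, -85⟩ ⟨0, 893, 3899, 4292⟩, .l ⟨0, 96, 0, -87⟩ ⟨0, 893, 3899, 4292⟩] := by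
  refine rok_ds (s := 1) (nlo := 85) (nhi := 87) (q := 96) (by decide) (by decide) (by decide) (by decide) (k := 1) (by decide) (Q := [(0, 400, 773), (0, -2000, 2143), (893, 3899, -4292)])
    (P := [⟨-2611200, 96, 0⟩, ⟨2672640, -96, 0⟩, ⟨23746560, 0, 400⟩, ⟨65832960, 0, -2000⟩, ⟨-131850240, 893, 3899⟩]) rfl rfl
    (List.mem_of_getElem? (i := 62) rfl) TD_fr TD_cov ?_
  · intro X Y h
    simp only [List.forall_mem_cons, List.not_mem_nil, false_imp_iff, implies_true, and_true] at h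
    push_cast at h ⊢
    obtain ⟨h0, h1, h2, h3, h4⟩ := h
    refine ⟨⟨?_, ?_⟩, ?_, ?_⟩ <;> linarith

theorem TD_rg63 : ROK [.l ⟨0, 80, 0, -58⟩ ⟨0, 80, 0, 58⟩, .l ⟨0, -80, 0, 61⟩ ⟨0, 80, 0, 61⟩, .l ⟨0, 80, 0, -58⟩ ⟨0, 0, 400, -903⟩, .l ⟨0, 80, 0, -61⟩ ⟨0, 0, 400, -903⟩, .l ⟨0, 80, 0, -58⟩ ⟨0, 2420, -3185, -781⟩, .l ⟨0, 80, 0, -61⟩ ⟨0, 2420, -3185, -781⟩, .l ⟨0, 80, 0, -58⟩ ⟨0, 2980, 2668, 4157⟩, .l ⟨0, 80, 0, -61⟩ ⟨0, 2980, 2668, 4157⟩] := by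
  refine rok_ds (s := 1) (nlo := 58) (nhi := 61) (q := 80) (by decide) (by decide) (by decide) (by decide) (k := 1) (by decide) (Q := [(0, 400, 903), (2420, -3185, 781), (2980, 2668, -4157)])
    (P := [⟨-1781760, 80, 0⟩, ⟨1873920, -80, 0⟩, ⟨27740160, 0, 400⟩, ⟨23992320, 2420, -3185⟩, ⟨-127703040, 2980, 2668⟩]) rfl rfl
    (List.mem_of_getElem? (i := 63) rfl) TD_fr TD_cov ?_
  · intro X Y h
    simp only [List.forall_mem_cons, List.not_mem_nil, false_imp_iff, implies_true, and_true] at h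
    push_cast at h ⊢
    obtain ⟨h0, h1, h2, h3, h4⟩ := h
    refine ⟨⟨?_, ?_⟩, ?_, ?_⟩ <;> linarith

theorem TD_rg64 : ROK [.l ⟨0, 480, 0, -436⟩ ⟨0, 480, 0, 436⟩, .l ⟨0, -480, 0, 445⟩ ⟨0, 480, 0, 445⟩, .l ⟨0, 480, 0, -436⟩ ⟨0, 0, 2000, 1777⟩, .l ⟨0, 480, 0, -445⟩ ⟨0, 0, 2000, 1777⟩, .l ⟨0, 480, 0, -436⟩ ⟨0, 0, -800, -861⟩, .l ⟨0, 480, 0, -445⟩ ⟨0, 0, -800, -861⟩] := by
  refine rok_ds (s := 1) (nlo := 436) (nhi := 445) (q := 480) (by decide) (by decide) (by decide) (by decide) (k := 1) (by decide) (Q := [(0, 2000, -1777), (0, -800, 861)])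
    (P := [⟨-13393920, 480, 0⟩, ⟨13670400, -480, 0⟩, ⟨-54589440, 0, 2000⟩, ⟨26449920, 0, -800⟩]) rfl rfl
    (List.mem_of_getElem? (i := 64) rfl) TD_fr TD_cov ?_
  · intro X Y h
    simp only [List.forall_mem_cons, List.not_mem_nil, false_imp_iff, implies_true, and_true] at h
    push_cast at h ⊢
    obtain ⟨h0, h1, h2, h3⟩ := h
    refine ⟨⟨?_, ?_⟩, ?_, ?_⟩ <;> linarith

theorem TD_rg65 : ROK [.l ⟨0, 480, 0, -351⟩ ⟨0, 480, 0, 351⟩, .l ⟨0, -480, 0, 358⟩ ⟨0, 480, 0, 358⟩, .l ⟨0, 480, 0, -351⟩ ⟨0, 0, 500, -1131⟩, .l ⟨0, 480, 0, -358⟩ ⟨0, 0, 500, -1131⟩, .l ⟨0, 480, 0, -351⟩ ⟨0, 2168, -3362, -1157⟩, .l ⟨0, 480, 0, -358⟩ ⟨0, 2168, -3362, -1157⟩, .l ⟨0, 480, 0, -351⟩ ⟨0, 2980, 2668, 4157⟩, .l ⟨0, 480, 0, -358⟩ ⟨0, 2980, 2668, 4157⟩] := by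
  refine rok_ds (s := 1) (nlo := 351) (nhi := 358) (q := 480) (by decide) (by decide) (by decide) (by decide) (k := 1) (by decide) (Q := [(0, 500, 1131), (2168, -3362, 1157), (2980, 2668, -4157)])
    (P := [⟨-10782720, 480, 0⟩, ⟨10997760, -480, 0⟩, ⟨34744320, 0, 500⟩, ⟨35543040, 2168, -3362⟩, ⟨-127703040, 2980, 2668⟩]) rfl rfl
    (List.mem_of_getElem? (i := 65) rfl) TD_fr TD_cov ?_
  · intro X Y h
    simp only [List.forall_mem_cons, List.not_mem_nil, false_imp_iff, implies_true, and_true] at h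
    push_cast at h ⊢
    obtain ⟨h0, h1, h2, h3, h4⟩ := h
    refine ⟨⟨?_, ?_⟩, ?_, ?_⟩ <;> linarith

theorem TD_rg66 : ROK [.l ⟨0, 240, 0, -222⟩ ⟨0, 240, 0, 222⟩, .l ⟨0, -240, 0, 227⟩ ⟨0, 240, 0, 227⟩, .l ⟨0, 240, 0, -222⟩ ⟨0, 0, 4000, -7709⟩, .l ⟨0, 240, 0, -227⟩ ⟨0, 0, 4000, -7709⟩, .l ⟨0, 240, 0, -222⟩ ⟨0, 750, -1854, -1297⟩, .l ⟨0, 240, 0, -227⟩ ⟨0, 750, -1854, -1297⟩, .l ⟨0, 240, 0, -222⟩ ⟨0, 1921, 3509, 4874⟩, .l ⟨0, 240, 0, -227⟩ ⟨0, 1921, 3509, 4874⟩, .l ⟨0, 240, 0, -222⟩ ⟨0, -2417, -3187, -5710⟩, .l ⟨0, 240, 0, -227⟩ ⟨0, -2417, -3187, -5710⟩] := by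
  refine rok_ds (s := 1) (nlo := 222) (nhi := 227) (q := 240) (by decide) (by decide) (by decide) (by decide) (k := 1) (by decide) (Q := [(0, 4000, 7709), (750, -1854, 1297), (1921, 3509, -4874), (-2417, -3187, 5710)])
    (P := [⟨-6819840, 240, 0⟩, ⟨6973440, -240, 0⟩, ⟨236820480, 0, 4000⟩, ⟨39843840, 750, -1854⟩, ⟨-149729280, 1921, 3509⟩, ⟨175411200, -2417, -3187⟩]) rfl rfl
    (List.mem_of_getElem? (i := 66) rfl) TD_fr TD_cov ?_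
  · intro X Y h
    simp only [List.forall_mem_cons, List.not_mem_nil, false_imp_iff, implies_true, and_true] at h
    push_cast at h ⊢
    obtain ⟨h0, h1, h2, h3, h4, h5⟩ := h
    refine ⟨⟨?_, ?_⟩, ?_, ?_⟩ <;> linarith

theorem TD_rg67 : ROK [.l ⟨0, 80, 0, -56⟩ ⟨0, 80, 0, 56⟩, .l ⟨0, -80, 0, 59⟩ ⟨0, 80, 0, 59⟩, .l ⟨0, 80, 0, -56⟩ ⟨0, -1705, 3619, 1472⟩, .l ⟨0, 80, 0, -59⟩ ⟨0, -1705, 3619, 1472⟩, .l ⟨0, 80, 0, -56⟩ ⟨0, 155, -329, -157⟩, .l ⟨0, 80, 0, -59⟩ ⟨0, 155, -329, -157⟩, .l ⟨0, 80, 0, -56⟩ ⟨0, 3014, 2629, 4149⟩, .l ⟨0, 80, 0, -59⟩ ⟨0, 3014, 2629, 4149⟩] := by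
  refine rok_ds (s := 1) (nlo := 56) (nhi := 59) (q := 80) (by decide) (by decide) (by decide) (by decide) (k := 1) (by decide) (Q := [(-1705, 3619, -1472), (155, -329, 157), (3014, 2629, -4149)])
    (P := [⟨-1720320, 80, 0⟩, ⟨1812480, -80, 0⟩, ⟨-45219840, -1705, 3619⟩, ⟨4823040, 155, -329⟩, ⟨-127457280, 3014, 2629⟩]) rfl rfl
    (List.mem_of_getElem? (i := 67) rfl) TD_fr TD_cov ?_
  · intro X Y h
    simp only [List.forall_mem_cons, List.not_mem_nil, false_imp_iff, implies_true, and_true] at h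
    push_cast at h ⊢
    obtain ⟨h0, h1, h2, h3, h4⟩ := h
    refine ⟨⟨?_, ?_⟩, ?_, ?_⟩ <;> linarith

theorem TD_rg68 : ROK [.l ⟨0, 240, 0, -209⟩ ⟨0, 240, 0, 209⟩, .l ⟨0, -240, 0, 214⟩ ⟨0, 240, 0, 214⟩, .l ⟨0, 240, 0, -209⟩ ⟨0, -2153, 3371, 1173⟩, .l ⟨0, 240, 0, -214⟩ ⟨0, -2153, 3371, 1173⟩, .l ⟨0, 240, 0, -209⟩ ⟨0, 1066, -3855, -3185⟩, .l ⟨0, 240, 0, -214⟩ ⟨0, 1066, -3855, -3185⟩] := by
  refine rok_ds (s := 1) (nlo := 209) (nhi := 214) (q := 240) (by decide) (by decide) (by decide) (by decide) (k := 1) (by decide) (Q := [(-2153, 3371, -1173), (1066, -3855, 3185)])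
    (P := [⟨-6420480, 240, 0⟩, ⟨6574080, -240, 0⟩, ⟨-36034560, -2153, 3371⟩, ⟨97843200, 1066, -3855⟩]) rfl rfl
    (List.mem_of_getElem? (i := 68) rfl) TD_fr TD_cov ?_
  · intro X Y h
    simp only [List.forall_mem_cons, List.not_mem_nil, false_imp_iff, implies_true, and_true] at h
    push_cast at h ⊢
    obtain ⟨h0, h1, h2, h3⟩ := h
    refine ⟨⟨?_, ?_⟩, ?_, ?_⟩ <;> linarith

theorem TD_rg69 : ROK [.l ⟨0, 160, 0, -116⟩ ⟨0, 160, 0, 116⟩, .l ⟨0, -160, 0, 119⟩ ⟨0, 160, 0, 119⟩, .l ⟨0, 160, 0, -116⟩ ⟨0, 2185, 3350, -5788⟩, .l ⟨0, 160, 0, -119⟩ ⟨0, 2185, 3350, -5788⟩, .l ⟨0, 160, 0, -116⟩ ⟨0, 1899, -3520, -1488⟩, .l ⟨0, 160, 0, -119⟩ ⟨0, 1899, -3520, -1488⟩, .l ⟨0, 160, 0, -116⟩ ⟨0, 2923, 2731, 4162⟩, .l ⟨0, 160, 0, -119⟩ ⟨0, 2923, 2731, 4162⟩] := by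
  refine rok_ds (s := 1) (nlo := 116) (nhi := 119) (q := 160) (by decide) (by decide) (by decide) (by decide) (k := 1) (by decide) (Q := [(2185, 3350, 5788), (1899, -3520, 1488), (2923, 2731, -4162)])
    (P := [⟨-3563520, 160, 0⟩, ⟨3655680, -160, 0⟩, ⟨177807360, 2185, 3350⟩, ⟨45711360, 1899, -3520⟩, ⟨-127856640, 2923, 2731⟩]) rfl rfl
    (List.mem_of_getElem? (i := 69) rfl) TD_fr TD_cov ?_
  · intro X Y h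
    simp only [List.forall_mem_cons, List.not_mem_nil, false_imp_iff, implies_true, and_true] at h
    push_cast at h ⊢
    obtain ⟨h0, h1, h2, h3, h4⟩ := h
    refine ⟨⟨?_, ?_⟩, ?_, ?_⟩ <;> linarith

theorem TD_rg70 : ROK [.l ⟨0, 40, 0, -35⟩ ⟨0, 40, 0, 35⟩, .l ⟨0, -40, 0, 37⟩ ⟨0, 40, 0, 37⟩, .l ⟨0, 40, 0, -35⟩ ⟨0, 685, 1144, 1639⟩, .l ⟨0, 40, 0, -37⟩ ⟨0, 685, 1144, 1639⟩, .l ⟨0, 40, 0, -35⟩ ⟨0, 415, -3978, -3891⟩, .l ⟨0, 40, 0, -37⟩ ⟨0, 415, -3978, -3891⟩, .l ⟨0, 40, 0, -35⟩ ⟨0, 1498, 3709, 4657⟩, .l ⟨0, 40, 0, -37⟩ ⟨0, 1498, 3709, 4657⟩] := by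
  refine rok_ds (s := 1) (nlo := 35) (nhi := 37) (q := 40) (by decide) (by decide) (by decide) (by decide) (k := 1) (by decide) (Q := [(685, 1144, -1639), (415, -3978, 3891), (1498, 3709, -4657)])
    (P := [⟨-1075200, 40, 0⟩, ⟨1136640, -40, 0⟩, ⟨-50350080, 685, 1144⟩, ⟨119531520, 415, -3978⟩, ⟨-143063040, 1498, 3709⟩]) rfl rfl
    (List.mem_of_getElem? (i := 70) rfl) TD_fr TD_cov ?_
  · intro X Y h
    simp only [List.forall_mem_cons, List.not_mem_nil, false_imp_iff, implies_true, and_true] at h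
    push_cast at h ⊢
    obtain ⟨h0, h1, h2, h3, h4⟩ := h
    refine ⟨⟨?_, ?_⟩, ?_, ?_⟩ <;> linarith

theorem TD_rg71 : ROK [.l ⟨0, 80, 0, -73⟩ ⟨0, 80, 0, 73⟩, .l ⟨0, -80, 0, 77⟩ ⟨0, 80, 0, 77⟩, .l ⟨0, 80, 0, -73⟩ ⟨0, -1662, 3638, -9671⟩, .l ⟨0, 80, 0, -77⟩ ⟨0, -1662, 3638, -9671⟩, .l ⟨0, 80, 0, -73⟩ ⟨0, 1662, -3638, -2369⟩, .l ⟨0, 80, 0, -77⟩ ⟨0, 1662, -3638, -2369⟩, .l ⟨0, 80, 0, -73⟩ ⟨0, 1762, 3591, 4798⟩, .l ⟨0, 80, 0, -77⟩ ⟨0, 1762, 3591, 4798⟩, .l ⟨0, 80, 0, -73⟩ ⟨0, -1764, -3590, -5529⟩, .l ⟨0, 80, 0, -77⟩ ⟨0, -1764, -3590, -5529⟩] := by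
  refine rok_ds (s := 1) (nlo := 73) (nhi := 77) (q := 80) (by decide) (by decide) (by decide) (by decide) (k := 1) (by decide) (Q := [(-1662, 3638, 9671), (1662, -3638, 2369), (1762, 3591, -4798), (-1764, -3590, 5529)])
    (P := [⟨-2242560, 80, 0⟩, ⟨2365440, -80, 0⟩, ⟨297093120, -1662, 3638⟩, ⟨72775680, 1662, -3638⟩, ⟨-147394560, 1762, 3591⟩, ⟨169850880, -1764, -3590⟩]) rfl rfl
    (List.mem_of_getElem? (i := 71) rfl) TD_fr TD_cov ?_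
  · intro X Y h
    simp only [List.forall_mem_cons, List.not_mem_nil, false_imp_iff, implies_true, and_true] at h
    push_cast at h ⊢
    obtain ⟨h0, h1, h2, h3, h4, h5⟩ := h
    refine ⟨⟨?_, ?_⟩, ?_, ?_⟩ <;> linarith

end Pool.Agent.TET
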