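import Pool.Agent.Helper38_TET.TD_C

/-!
# MP_c7c9bf_co: certificates, family TD
-/

set_option autoImplicit false
set_option maxRecDepth 100000

namespace Pool.Agent.TET

theorem TD_rg72 : ROK [.l ⟨0, 960, 0, -885⟩ ⟨0, 960, 0, 885⟩, .l ⟨0, -960, 0, 896⟩ ⟨0, 960, 0, 896⟩, .l ⟨0, 960, 0, -885⟩ ⟨0, 0, 4000, 3529⟩, .l ⟨0, 960, 0, -896⟩ ⟨0, 0, 4000, 3529⟩, .l ⟨0, 960, 0, -885⟩ ⟨0, -127, -3998, -4426⟩, .l ⟨0, 960, 0, -896⟩ ⟨0, -127, -3998, -4426⟩] := by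
  refine rok_ds (s := 1) (nlo := 885) (nhi := 896) (q := 960) (by decide) (by decide) (by decide) (by decide) (k := 1) (by decide) (Q := [(0, 4000, -3529), (-127, -3998, 4426)])
    (P := [⟨-27187200, 960, 0⟩, ⟨27525120, -960, 0⟩, ⟨-108410880, 0, 4000⟩, ⟨135966720, -127, -3998⟩]) rfl rfl
    (List.mem_of_getElem? (i := 72) rfl) TD_fr TD_cov ?_
  · intro X Y h
    simp only [List.forall_mem_cons, List.not_mem_nil, false_imp_iff, implies_true, and_true] at h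
    push_cast at h ⊢
    obtain ⟨h0, h1, h2, h3⟩ := h
    refine ⟨⟨?_, ?_⟩, ?_, ?_⟩ <;> linarith

theorem TD_rg73 : ROK [.l ⟨0, 40, 0, -34⟩ ⟨0, 40, 0, 34⟩, .l ⟨0, -40, 0, 37⟩ ⟨0, 40, 0, 37⟩, .l ⟨0, 40, 0, -34⟩ ⟨0, 0, 125, 114⟩, .l ⟨0, 40, 0, -37⟩ ⟨0, 0, 125, 114⟩, .l ⟨0, 40, 0, -34⟩ ⟨0, 753, -3928, -3536⟩, .l ⟨0, 40, 0, -37⟩ ⟨0, 753, -3928, -3536⟩] := by
  refine rok_ds (s := 1) (nlo := 34) (nhi := 37) (q := 40) (by decide) (by decide) (by decide) (by decide) (k := 1) (by decide) (Q := [(0, 125, -114), (753, -3928, 3536)])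
    (P := [⟨-1044480, 40, 0⟩, ⟨1136640, -40, 0⟩, ⟨-3502080, 0, 125⟩, ⟨108625920, 753, -3928⟩]) rfl rfl
    (List.mem_of_getElem? (i := 73) rfl) TD_fr TD_cov ?_
  · intro X Y h
    simp only [List.forall_mem_cons, List.not_mem_nil, false_imp_iff, implies_true, and_true] at h
    push_cast at h ⊢
    obtain ⟨h0, h1, h2, h3⟩ := h
    refine ⟨⟨?_, ?_⟩, ?_, ?_⟩ <;> linarith

theorem TD_rg74 : ROK [.l ⟨0, 80, 0, -72⟩ ⟨0, 80, 0, 72⟩, .l ⟨0, -80, 0, 75⟩ ⟨0, 80, 0, 75⟩, .l ⟨0, 80, 0, -72⟩ ⟨0, 0, 4000, 3573⟩, .l ⟨0, 80, 0, -75⟩ ⟨0, 0, 4000, 3573⟩, .l ⟨0, 80, 0, -72⟩ ⟨0, 572, -3959, -3735⟩, .l ⟨0, 80, 0, -75⟩ ⟨0, 572, -3959, -3735⟩] := by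
  refine rok_ds (s := 1) (nlo := 72) (nhi := 75) (q := 80) (by decide) (by decide) (by decide) (by decide) (k := 1) (by decide) (Q := [(0, 4000, -3573), (572, -3959, 3735)])
    (P := [⟨-2211840, 80, 0⟩, ⟨2304000, -80, 0⟩, ⟨-109762560, 0, 4000⟩, ⟨114739200, 572, -3959⟩]) rfl rfl
    (List.mem_of_getElem? (i := 74) rfl) TD_fr TD_cov ?_
  · intro X Y h
    simp only [List.forall_mem_cons, List.not_mem_nil, false_imp_iff, implies_true, and_true] at h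
    push_cast at h ⊢
    obtain ⟨h0, h1, h2, h3⟩ := h
    refine ⟨⟨?_, ?_⟩, ?_, ?_⟩ <;> linarith

theorem TD_rg75 : ROK [.l ⟨0, 120, 0, -111⟩ ⟨0, 120, 0, 111⟩, .l ⟨0, -120, 0, 113⟩ ⟨0, 120, 0, 113⟩, .l ⟨0, 120, 0, -111⟩ ⟨0, 0, 2000, 1763⟩, .l ⟨0, 120, 0, -113⟩ ⟨0, 0, 2000, 1763⟩, .l ⟨0, 120, 0, -111⟩ ⟨0, 79, -662, -640⟩, .l ⟨0, 120, 0, -113⟩ ⟨0, 79, -662, -640⟩] := by
  refine rok_ds (s := 1) (nlo := 111) (nhi := 113) (q := 120) (by decide) (by decide) (by decide) (by decide) (k := 1) (by decide) (Q := [(0, 2000, -1763), (79, -662, 640)])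
    (P := [⟨-3409920, 120, 0⟩, ⟨3471360, -120, 0⟩, ⟨-54159360, 0, 2000⟩, ⟨19660800, 79, -662⟩]) rfl rfl
    (List.mem_of_getElem? (i := 75) rfl) TD_fr TD_cov ?_
  · intro X Y h
    simp only [List.forall_mem_cons, List.not_mem_nil, false_imp_iff, implies_true, and_true] at h
    push_cast at h ⊢
    obtain ⟨h0, h1, h2, h3⟩ := h
    refine ⟨⟨?_, ?_⟩, ?_, ?_⟩ <;> linarith

theorem TD_rg76 : ROK [.l ⟨0, 480, 0, -427⟩ ⟨0, 480, 0, 427⟩, .l ⟨0, -480, 0, 437⟩ ⟨0, 480, 0, 437⟩, .l ⟨0, 480, 0, -427⟩ ⟨0, 0, 100, 89⟩, .l ⟨0, 480, 0, -437⟩ ⟨0, 0, 100, 89⟩, .l ⟨0, 480, 0, -427⟩ ⟨0, 0, -4000, -4293⟩, .l ⟨0, 480, 0, -437⟩ ⟨0, 0, -4000, -4293⟩, .l ⟨0, 480, 0, -427⟩ ⟨0, 1394, 1434, 2537⟩, .l ⟨0, 480, 0, -437⟩ ⟨0, 1394, 1434, 2537⟩] := by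
  refine rok_ds (s := 1) (nlo := 427) (nhi := 437) (q := 480) (by decide) (by decide) (by decide) (by decide) (k := 1) (by decide) (Q := [(0, 100, -89), (0, -4000, 4293), (1394, 1434, -2537)])
    (P := [⟨-13117440, 480, 0⟩, ⟨13424640, -480, 0⟩, ⟨-2734080, 0, 100⟩, ⟨131880960, 0, -4000⟩, ⟨-77936640, 1394, 1434⟩]) rfl rfl
    (List.mem_of_getElem? (i := 76) rfl) TD_fr TD_cov ?_
  · intro X Y h
    simp only [List.forall_mem_cons, List.not_mem_nil, false_imp_iff, implies_true, and_true] at h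
    push_cast at h ⊢
    obtain ⟨h0, h1, h2, h3, h4⟩ := h
    refine ⟨⟨?_, ?_⟩, ?_, ?_⟩ <;> linarith

theorem TD_rg77 : ROK [.l ⟨0, 80, 0, -57⟩ ⟨0, 80, 0, 57⟩, .l ⟨0, -80, 0, 60⟩ ⟨0, 80, 0, 60⟩, .l ⟨0, 80, 0, -57⟩ ⟨0, 2623, 3020, 4148⟩, .l ⟨0, 80, 0, -60⟩ ⟨0, 2623, 3020, 4148⟩, .l ⟨0, 80, 0, -57⟩ ⟨0, -2623, -3020, -4350⟩, .l ⟨0, 80, 0, -60⟩ ⟨0, -2623, -3020, -4350⟩, .l ⟨0, 80, 0, -57⟩ ⟨0, 3273, 2299, 4100⟩, .l ⟨0, 80, 0, -60⟩ ⟨0, 3273, 2299, 4100⟩] := by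
  refine rok_ds (s := 1) (nlo := 57) (nhi := 60) (q := 80) (by decide) (by decide) (by decide) (by decide) (k := 1) (by decide) (Q := [(2623, 3020, -4148), (-2623, -3020, 4350), (3273, 2299, -4100)])
    (P := [⟨-1751040, 80, 0⟩, ⟨1843200, -80, 0⟩, ⟨-127426560, 2623, 3020⟩, ⟨133632000, -2623, -3020⟩, ⟨-125952000, 3273, 2299⟩]) rfl rfl
    (List.mem_of_getElem? (i := 77) rfl) TD_fr TD_cov ?_
  · intro X Y h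
    simp only [List.forall_mem_cons, List.not_mem_nil, false_imp_iff, implies_true, and_true] at h
    push_cast at h ⊢
    obtain ⟨h0, h1, h2, h3, h4⟩ := h
    refine ⟨⟨?_, ?_⟩, ?_, ?_⟩ <;> linarith

theorem TD_rg78 : ROK [.l ⟨0, 80, 0, -57⟩ ⟨0, 80, 0, 57⟩, .l ⟨0, -80, 0, 61⟩ ⟨0, 80, 0, 61⟩, .l ⟨0, 80, 0, -57⟩ ⟨0, 0, 4000, -9041⟩, .l ⟨0, 80, 0, -61⟩ ⟨0, 0, 4000, -9041⟩, .l ⟨0, 80, 0, -57⟩ ⟨0, 0, -2000, -1643⟩, .l ⟨0, 80, 0, -61⟩ ⟨0, 0, -2000, -1643⟩, .l ⟨0, 80, 0, -57⟩ ⟨0, 3088, 2543, 4148⟩, .l ⟨0, 80, 0, -61⟩ ⟨0, 3088, 2543, 4148⟩] := by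
  refine rok_ds (s := 1) (nlo := 57) (nhi := 61) (q := 80) (by decide) (by decide) (by decide) (by decide) (k := 1) (by decide) (Q := [(0, 4000, 9041), (0, -2000, 1643), (3088, 2543, -4148)])
    (P := [⟨-1751040, 80, 0⟩, ⟨1873920, -80, 0⟩, ⟨277739520, 0, 4000⟩, ⟨50472960, 0, -2000⟩, ⟨-127426560, 3088, 2543⟩]) rfl rfl
    (List.mem_of_getElem? (i := 78) rfl) TD_fr TD_cov ?_
  · intro X Y h
    simp only [List.forall_mem_cons, List.not_mem_nil, false_imp_iff, implies_true, and_true] at h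
    push_cast at h ⊢
    obtain ⟨h0, h1, h2, h3, h4⟩ := h
    refine ⟨⟨?_, ?_⟩, ?_, ?_⟩ <;> linarith

theorem TD_rg79 : ROK [.l ⟨0, 960, 0, -691⟩ ⟨0, 960, 0, 691⟩, .l ⟨0, -960, 0, 702⟩ ⟨0, 960, 0, 702⟩, .l ⟨0, 960, 0, -691⟩ ⟨0, -649, 3947, -9526⟩, .l ⟨0, 960, 0, -702⟩ ⟨0, -649, 3947, -9526⟩, .l ⟨0, 960, 0, -691⟩ ⟨0, 621, -3951, -2798⟩, .l ⟨0, 960, 0, -702⟩ ⟨0, 621, -3951, -2798⟩, .l ⟨0, 960, 0, -691⟩ ⟨0, 2695, 2956, 4164⟩, .l ⟨0, 960, 0, -702⟩ ⟨0, 2695, 2956, 4164⟩] := by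
  refine rok_ds (s := 1) (nlo := 691) (nhi := 702) (q := 960) (by decide) (by decide) (by decide) (by decide) (k := 1) (by decide) (Q := [(-649, 3947, 9526), (621, -3951, 2798), (2695, 2956, -4164)])
    (P := [⟨-21227520, 960, 0⟩, ⟨21565440, -960, 0⟩, ⟨292638720, -649, 3947⟩, ⟨85954560, 621, -3951⟩, ⟨-127918080, 2695, 2956⟩]) rfl rfl
    (List.mem_of_getElem? (i := 79) rfl) TD_fr TD_cov ?_
  · intro X Y h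
    simp only [List.forall_mem_cons, List.not_mem_nil, false_imp_iff, implies_true, and_true] at h
    push_cast at h ⊢
    obtain ⟨h0, h1, h2, h3, h4⟩ := h
    refine ⟨⟨?_, ?_⟩, ?_, ?_⟩ <;> linarith

theorem TD_rg80 : ROK [.l ⟨0, 40, 0, -36⟩ ⟨0, 40, 0, 36⟩, .l ⟨0, -40, 0, 37⟩ ⟨0, 40, 0, 37⟩, .l ⟨0, 40, 0, -36⟩ ⟨0, 0, 4000, 3573⟩, .l ⟨0, 40, 0, -37⟩ ⟨0, 0, 4000, 3573⟩, .l ⟨0, 40, 0, -36⟩ ⟨0, 0, -800, -861⟩, .l ⟨0, 40, 0, -37⟩ ⟨0, 0, -800, -861⟩, .l ⟨0, 40, 0, -36⟩ ⟨0, 2919, -2735, -289⟩, .l ⟨0, 40, 0, -37⟩ ⟨0, 2919, -2735, -289⟩] := by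
  refine rok_ds (s := 1) (nlo := 36) (nhi := 37) (q := 40) (by decide) (by decide) (by decide) (by decide) (k := 1) (by decide) (Q := [(0, 4000, -3573), (0, -800, 861), (2919, -2735, 289)])
    (P := [⟨-1105920, 40, 0⟩, ⟨1136640, -40, 0⟩, ⟨-109762560, 0, 4000⟩, ⟨26449920, 0, -800⟩, ⟨8878080, 2919, -2735⟩]) rfl rfl
    (List.mem_of_getElem? (i := 80) rfl) TD_fr TD_cov ?_
  · intro X Y h
    simp only [List.forall_mem_cons, List.not_mem_nil, false_imp_iff, implies_true, and_true] at h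
    push_cast at h ⊢
    obtain ⟨h0, h1, h2, h3, h4⟩ := h
    refine ⟨⟨?_, ?_⟩, ?_, ?_⟩ <;> linarith

theorem TD_rg81 : ROK [.l ⟨0, 960, 0, -693⟩ ⟨0, 960, 0, 693⟩, .l ⟨0, -960, 0, 703⟩ ⟨0, 960, 0, 703⟩, .l ⟨0, 960, 0, -693⟩ ⟨0, 1423, 3738, -4975⟩, .l ⟨0, 960, 0, -703⟩ ⟨0, 1423, 3738, -4975⟩, .l ⟨0, 960, 0, -693⟩ ⟨0, -1611, -3661, -4176⟩, .l ⟨0, 960, 0, -703⟩ ⟨0, -1611, -3661, -4176⟩, .l ⟨0, 960, 0, -693⟩ ⟨0, 2778, 2878, 4165⟩, .l ⟨0, 960, 0, -703⟩ ⟨0, 2778, 2878, 4165⟩] := by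
  refine rok_ds (s := 1) (nlo := 693) (nhi := 703) (q := 960) (by decide) (by decide) (by decide) (by decide) (k := 1) (by decide) (Q := [(1423, 3738, 4975), (-1611, -3661, 4176), (2778, 2878, -4165)])
    (P := [⟨-21288960, 960, 0⟩, ⟨21596160, -960, 0⟩, ⟨152832000, 1423, 3738⟩, ⟨128286720, -1611, -3661⟩, ⟨-127948800, 2778, 2878⟩]) rfl rfl
    (List.mem_of_getElem? (i := 81) rfl) TD_fr TD_cov ?_
  · intro X Y h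
    simp only [List.forall_mem_cons, List.not_mem_nil, false_imp_iff, implies_true, and_true] at h
    push_cast at h ⊢
    obtain ⟨h0, h1, h2, h3, h4⟩ := h
    refine ⟨⟨?_, ?_⟩, ?_, ?_⟩ <;> linarith

theorem TD_rg82 : ROK [.l ⟨0, 480, 0, -442⟩ ⟨0, 480, 0, 442⟩, .l ⟨0, -480, 0, 449⟩ ⟨0, 480, 0, 449⟩, .l ⟨0, 480, 0, -442⟩ ⟨0, 0, 4000, 3529⟩, .l ⟨0, 480, 0, -449⟩ ⟨0, 0, 4000, 3529⟩, .l ⟨0, 480, 0, -442⟩ ⟨0, 1007, -3871, -3235⟩, .l ⟨0, 480, 0, -449⟩ ⟨0, 1007, -3871, -3235⟩] := by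
  refine rok_ds (s := 1) (nlo := 442) (nhi := 449) (q := 480) (by decide) (by decide) (by decide) (by decide) (k := 1) (by decide) (Q := [(0, 4000, -3529), (1007, -3871, 3235)])
    (P := [⟨-13578240, 480, 0⟩, ⟨13793280, -480, 0⟩, ⟨-108410880, 0, 4000⟩, ⟨99379200, 1007, -3871⟩]) rfl rfl
    (List.mem_of_getElem? (i := 82) rfl) TD_fr TD_cov ?_
  · intro X Y h
    simp only [List.forall_mem_cons, List.not_mem_nil, false_imp_iff, implies_true, and_true] at h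
    push_cast at h ⊢
    obtain ⟨h0, h1, h2, h3⟩ := h
    refine ⟨⟨?_, ?_⟩, ?_, ?_⟩ <;> linarith

theorem TD_rg83 : ROK [.l ⟨0, 960, 0, -685⟩ ⟨0, 960, 0, 685⟩, .l ⟨0, -960, 0, 696⟩ ⟨0, 960, 0, 696⟩, .l ⟨0, 960, 0, -685⟩ ⟨0, 2487, 3133, 4152⟩, .l ⟨0, 960, 0, -696⟩ ⟨0, 2487, 3133, 4152⟩, .l ⟨0, 960, 0, -685⟩ ⟨0, -1453, -3727, -4100⟩, .l ⟨0, 960, 0, -696⟩ ⟨0, -1453, -3727, -4100⟩] := by
  refine rok_ds (s := 1) (nlo := 685) (nhi := 696) (q := 960) (by decide) (by decide) (by decide) (by decide) (k := 1) (by decide) (Q := [(2487, 3133, -4152), (-1453, -3727, 4100)])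
    (P := [⟨-21043200, 960, 0⟩, ⟨21381120, -960, 0⟩, ⟨-127549440, 2487, 3133⟩, ⟨125952000, -1453, -3727⟩]) rfl rfl
    (List.mem_of_getElem? (i := 83) rfl) TD_fr TD_cov ?_
  · intro X Y h
    simp only [List.forall_mem_cons, List.not_mem_nil, false_imp_iff, implies_true, and_true] at h
    push_cast at h ⊢
    obtain ⟨h0, h1, h2, h3⟩ := h
    refine ⟨⟨?_, ?_⟩, ?_, ?_⟩ <;> linarith

theorem TD_rg84 : ROK [.l ⟨0, 480, 0, -444⟩ ⟨0, 480, 0, 444⟩, .l ⟨0, -480, 0, 451⟩ ⟨0, 480, 0, 451⟩, .l ⟨0, 480, 0, -444⟩ ⟨0, 0, 4000, -7699⟩, .l ⟨0, 480, 0, -451⟩ ⟨0, 0, 4000, -7699⟩, .l ⟨0, 480, 0, -444⟩ ⟨0, 0, -2000, -2159⟩, .l ⟨0, 480, 0, -451⟩ ⟨0, 0, -2000, -2159⟩, .l ⟨0, 480, 0, -444⟩ ⟨0, 1937, 3500, 4881⟩, .l ⟨0, 480, 0, -451⟩ ⟨0, 1937, 3500, 4881⟩, .l ⟨0, 480, 0, -444⟩ ⟨0, 1515, -3702, -2579⟩, .l ⟨0, 480, 0, -451⟩ ⟨0, 1515,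 -3702, -2579⟩] := by
  refine rok_ds (s := 1) (nlo := 444) (nhi := 451) (q := 480) (by decide) (by decide) (by decide) (by decide) (k := 1) (by decide) (Q := [(0, 4000, 7699), (0, -2000, 2159), (1937, 3500, -4881), (1515, -3702, 2579)])
    (P := [⟨-13639680, 480, 0⟩, ⟨13854720, -480, 0⟩, ⟨236513280, 0, 4000⟩, ⟨66324480, 0, -2000⟩, ⟨-149944320, 1937, 3500⟩, ⟨79226880, 1515, -3702⟩]) rfl rfl
    (List.mem_of_getElem? (i := 84) rfl) TD_fr TD_cov ?_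
  · intro X Y h
    simp only [List.forall_mem_cons, List.not_mem_nil, false_imp_iff, implies_true, and_true] at h
    push_cast at h ⊢
    obtain ⟨h0, h1, h2, h3, h4, h5⟩ := h
    refine ⟨⟨?_, ?_⟩, ?_, ?_⟩ <;> linarith

theorem TD_rg85 : ROK [.l ⟨0, 480, 0, -343⟩ ⟨0, 480, 0, 343⟩, .l ⟨0, -480, 0, 348⟩ ⟨0, 480, 0, 348⟩, .l ⟨0, 480, 0, -343⟩ ⟨0, 2699, 2952, 4165⟩, .l ⟨0, 480, 0, -348⟩ ⟨0, 2699, 2952, 4165⟩, .l ⟨0, 480, 0, -343⟩ ⟨0, 1418, -3740, -2051⟩, .l ⟨0, 480, 0, -348⟩ ⟨0, 1418, -3740, -2051⟩] := by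
  refine rok_ds (s := 1) (nlo := 343) (nhi := 348) (q := 480) (by decide) (by decide) (by decide) (by decide) (k := 1) (by decide) (Q := [(2699, 2952, -4165), (1418, -3740, 2051)])
    (P := [⟨-10536960, 480, 0⟩, ⟨10690560, -480, 0⟩, ⟨-127948800, 2699, 2952⟩, ⟨63006720, 1418, -3740⟩]) rfl rfl
    (List.mem_of_getElem? (i := 85) rfl) TD_fr TD_cov ?_
  · intro X Y h
    simp only [List.forall_mem_cons, List.not_mem_nil, false_imp_iff, implies_true, and_true] at h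
    push_cast at h ⊢
    obtain ⟨h0, h1, h2, h3⟩ := h
    refine ⟨⟨?_, ?_⟩, ?_, ?_⟩ <;> linarith

theorem TD_rg86 : ROK [.l ⟨0, 960, 0, -689⟩ ⟨0, 960, 0, 689⟩, .l ⟨0, -960, 0, 700⟩ ⟨0, 960, 0, 700⟩, .l ⟨0, 960, 0, -689⟩ ⟨0, -907, 3896, -7081⟩, .l ⟨0, 960, 0, -700⟩ ⟨0, -907, 3896, -7081⟩, .l ⟨0, 960, 0, -689⟩ ⟨0, 907, -3896, -2548⟩, .l ⟨0, 960, 0, -700⟩ ⟨0, 907, -3896, -2548⟩, .l ⟨0, 960, 0, -689⟩ ⟨0, 2844, 2813, 4164⟩, .l ⟨0, 960, 0, -700⟩ ⟨0, 2844, 2813, 4164⟩] := by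
  refine rok_ds (s := 1) (nlo := 689) (nhi := 700) (q := 960) (by decide) (by decide) (by decide) (by decide) (k := 1) (by decide) (Q := [(-907, 3896, 7081), (907, -3896, 2548), (2844, 2813, -4164)])
    (P := [⟨-21166080, 960, 0⟩, ⟨21504000, -960, 0⟩, ⟨217528320, -907, 3896⟩, ⟨78274560, 907, -3896⟩, ⟨-127918080, 2844, 2813⟩]) rfl rfl
    (List.mem_of_getElem? (i := 86) rfl) TD_fr TD_cov ?_
  · intro X Y h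
    simp only [List.forall_mem_cons, List.not_mem_nil, false_imp_iff, implies_true, and_true] at h
    push_cast at h ⊢
    obtain ⟨h0, h1, h2, h3, h4⟩ := h
    refine ⟨⟨?_, ?_⟩, ?_, ?_⟩ <;> linarith

theorem TD_rg87 : ROK [.l ⟨0, 160, 0, -140⟩ ⟨0, 160, 0, 140⟩, .l ⟨0, -160, 0, 143⟩ ⟨0, 160, 0, 143⟩, .l ⟨0, 160, 0, -140⟩ ⟨0, -936, 3889, 2691⟩, .l ⟨0, 160, 0, -143⟩ ⟨0, -936, 3889, 2691⟩, .l ⟨0, 160, 0, -140⟩ ⟨0, 790, -3921, -3501⟩, .l ⟨0, 160, 0, -143⟩ ⟨0, 790, -3921, -3501⟩] := by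
  refine rok_ds (s := 1) (nlo := 140) (nhi := 143) (q := 160) (by decide) (by decide) (by decide) (by decide) (k := 1) (by decide) (Q := [(-936, 3889, -2691), (790, -3921, 3501)])
    (P := [⟨-4300800, 160, 0⟩, ⟨4392960, -160, 0⟩, ⟨-82667520, -936, 3889⟩, ⟨107550720, 790, -3921⟩]) rfl rfl
    (List.mem_of_getElem? (i := 87) rfl) TD_fr TD_cov ?_
  · intro X Y h
    simp only [List.forall_mem_cons, List.not_mem_nil, false_imp_iff, implies_true, and_true] at h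
    push_cast at h ⊢
    obtain ⟨h0, h1, h2, h3⟩ := h
    refine ⟨⟨?_, ?_⟩, ?_, ?_⟩ <;> linarith

theorem TD_rg88 : ROK [.l ⟨0, 480, 0, -438⟩ ⟨0, 480, 0, 438⟩, .l ⟨0, -480, 0, 443⟩ ⟨0, 480, 0, 443⟩, .l ⟨0, 480, 0, -438⟩ ⟨0, 0, 1000, 887⟩, .l ⟨0, 480, 0, -443⟩ ⟨0, 0, 1000, 887⟩, .l ⟨0, 480, 0, -438⟩ ⟨0, 0, -800, -861⟩, .l ⟨0, 480, 0, -443⟩ ⟨0, 0, -800, -861⟩] := by
  refine rok_ds (s := 1) (nlo := 438) (nhi := 443) (q := 480) (by decide) (by decide) (by decide) (by decide) (k := 1) (by decide) (Q := [(0, 1000, -887), (0, -800, 861)])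
    (P := [⟨-13455360, 480, 0⟩, ⟨13608960, -480, 0⟩, ⟨-27248640, 0, 1000⟩, ⟨26449920, 0, -800⟩]) rfl rfl
    (List.mem_of_getElem? (i := 88) rfl) TD_fr TD_cov ?_
  · intro X Y h
    simp only [List.forall_mem_cons, List.not_mem_nil, false_imp_iff, implies_true, and_true] at h
    push_cast at h ⊢
    obtain ⟨h0, h1, h2, h3⟩ := h
    refine ⟨⟨?_, ?_⟩, ?_, ?_⟩ <;> linarith

theorem TD_rg89 : ROK [.l ⟨0, 40, 0, -33⟩ ⟨0, 40, 0, 33⟩, .l ⟨0, -40, 0, 37⟩ ⟨0, 40, 0, 37⟩, .l ⟨0, 40, 0, -33⟩ ⟨0, -121, 3998, 2035⟩, .l ⟨0, 40, 0, -37⟩ ⟨0, -121, 3998, 2035⟩, .l ⟨0, 40, 0, -33⟩ ⟨0, 121, -3998, -2467⟩, .l ⟨0, 40, 0, -37⟩ ⟨0, 121, -3998, -2467⟩] := by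
  refine rok_ds (s := 1) (nlo := 33) (nhi := 37) (q := 40) (by decide) (by decide) (by decide) (by decide) (k := 1) (by decide) (Q := [(-121, 3998, -2035), (121, -3998, 2467)])
    (P := [⟨-1013760, 40, 0⟩, ⟨1136640, -40, 0⟩, ⟨-62515200, -121, 3998⟩, ⟨75786240, 121, -3998⟩]) rfl rfl
    (List.mem_of_getElem? (i := 89) rfl) TD_fr TD_cov ?_
  · intro X Y h
    simp only [List.forall_mem_cons, List.not_mem_nil, false_imp_iff, implies_true, and_true] at h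
    push_cast at h ⊢
    obtain ⟨h0, h1, h2, h3⟩ := h
    refine ⟨⟨?_, ?_⟩, ?_, ?_⟩ <;> linarith

theorem TD_rg90 : ROK [.l ⟨0, 40, 0, -27⟩ ⟨0, 40, 0, 27⟩, .l ⟨0, -40, 0, 31⟩ ⟨0, 40, 0, 31⟩, .l ⟨0, 40, 0, -27⟩ ⟨0, 0, 400, -557⟩, .l ⟨0, 40, 0, -31⟩ ⟨0, 0, 400, -557⟩, .l ⟨0, 40, 0, -27⟩ ⟨0, 0, -1000, -809⟩, .l ⟨0, 40, 0, -31⟩ ⟨0, 0, -1000, -809⟩, .l ⟨0, 40, 0, -27⟩ ⟨0, 2954, 2697, 4159⟩, .l ⟨0, 40, 0, -31⟩ ⟨0, 2954, 2697, 4159⟩] := by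
  refine rok_ds (s := 1) (nlo := 27) (nhi := 31) (q := 40) (by decide) (by decide) (by decide) (by decide) (k := 1) (by decide) (Q := [(0, 400, 557), (0, -1000, 809), (2954, 2697, -4159)])
    (P := [⟨-829440, 40, 0⟩, ⟨952320, -40, 0⟩, ⟨17111040, 0, 400⟩, ⟨24852480, 0, -1000⟩, ⟨-127764480, 2954, 2697⟩]) rfl rfl
    (List.mem_of_getElem? (i := 90) rfl) TD_fr TD_cov ?_
  · intro X Y h
    simp only [List.forall_mem_cons, List.not_mem_nil, false_imp_iff, implies_true, and_true] at h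
    push_cast at h ⊢
    obtain ⟨h0, h1, h2, h3, h4⟩ := h
    refine ⟨⟨?_, ?_⟩, ?_, ?_⟩ <;> linarith

theorem TD_rg91 : ROK [.l ⟨0, 40, 0, -37⟩ ⟨0, 40, 0, 37⟩, .l ⟨0, -40, 0, 41⟩ ⟨0, 40, 0, 41⟩, .l ⟨0, 40, 0, -37⟩ ⟨0, 344, 3985, 2284⟩, .l ⟨0, 40, 0, -41⟩ ⟨0, 344, 3985, 2284⟩, .l ⟨0, 40, 0, -37⟩ ⟨0, -344, -3985, -3634⟩, .l ⟨0, 40, 0, -41⟩ ⟨0, -344, -3985, -3634⟩] := by
  refine rok_ds (s := 1) (nlo := 37) (nhi := 41) (q := 40) (by decide) (by decide) (by decide) (by decide) (k := 1) (by decide) (Q := [(344, 3985, -2284), (-344, -3985, 3634)])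
    (P := [⟨-1136640, 40, 0⟩, ⟨1259520, -40, 0⟩, ⟨-70164480, 344, 3985⟩, ⟨111636480, -344, -3985⟩]) rfl rfl
    (List.mem_of_getElem? (i := 91) rfl) TD_fr TD_cov ?_
  · intro X Y h
    simp only [List.forall_mem_cons, List.not_mem_nil, false_imp_iff, implies_true, and_true] at h
    push_cast at h ⊢
    obtain ⟨h0, h1, h2, h3⟩ := h
    refine ⟨⟨?_, ?_⟩, ?_, ?_⟩ <;> linarith

theorem TD_rg92 : ROK [.l ⟨0, 20, 0, -16⟩ ⟨0, 20, 0, 16⟩, .l ⟨0, -20, 0, 19⟩ ⟨0, 20, 0, 19⟩, .l ⟨0, 20, 0, -16⟩ ⟨0, 0, 4000, 2667⟩, .l ⟨0, 20, 0, -19⟩ ⟨0, 0, 4000, 2667⟩, .l ⟨0, 20, 0, -16⟩ ⟨0, 0, -1000, -831⟩, .l ⟨0, 20, 0, -19⟩ ⟨0, 0, -1000, -831⟩, .l ⟨0, 20, 0, -16⟩ ⟨0, 948, -1761, -683⟩, .l ⟨0, 20, 0, -19⟩ ⟨0, 948, -1761, -683⟩] := by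
  refine rok_ds (s := 1) (nlo := 16) (nhi := 19) (q := 20) (by decide) (by decide) (by decide) (by decide) (k := 1) (by decide) (Q := [(0, 4000, -2667), (0, -1000, 831), (948, -1761, 683)])
    (P := [⟨-491520, 20, 0⟩, ⟨583680, -20, 0⟩, ⟨-81930240, 0, 4000⟩, ⟨25528320, 0, -1000⟩, ⟨20981760, 948, -1761⟩]) rfl rfl
    (List.mem_of_getElem? (i := 92) rfl) TD_fr TD_cov ?_
  · intro X Y h
    simp only [List.forall_mem_cons, List.not_mem_nil, false_imp_iff, implies_true, and_true] at h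
    push_cast at h ⊢
    obtain ⟨h0, h1, h2, h3, h4⟩ := h
    refine ⟨⟨?_, ?_⟩, ?_, ?_⟩ <;> linarith

theorem TD_rg93 : ROK [.l ⟨0, 480, 0, -346⟩ ⟨0, 480, 0, 346⟩, .l ⟨0, -480, 0, 355⟩ ⟨0, 480, 0, 355⟩, .l ⟨0, 480, 0, -346⟩ ⟨0, 2411, 3192, 4136⟩, .l ⟨0, 480, 0, -355⟩ ⟨0, 2411, 3192, 4136⟩, .l ⟨0, 480, 0, -346⟩ ⟨0, 1598, -3667, -10411⟩, .l ⟨0, 480, 0, -355⟩ ⟨0, 1598, -3667, -10411⟩, .l ⟨0, 480, 0, -346⟩ ⟨0, 3418, -2077, 815⟩, .l ⟨0, 480, 0, -355⟩ ⟨0, 3418, -2077, 815⟩] := by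
  refine rok_ds (s := 1) (nlo := 346) (nhi := 355) (q := 480) (by decide) (by decide) (by decide) (by decide) (k := 1) (by decide) (Q := [(2411, 3192, -4136), (1598, -3667, 10411), (3418, -2077, -815)])
    (P := [⟨-10629120, 480, 0⟩, ⟨10905600, -480, 0⟩, ⟨-127057920, 2411, 3192⟩, ⟨319825920, 1598, -3667⟩, ⟨-25036800, 3418, -2077⟩]) rfl rfl
    (List.mem_of_getElem? (i := 93) rfl) TD_fr TD_cov ?_
  · intro X Y h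
    simp only [List.forall_mem_cons, List.not_mem_nil, false_imp_iff, implies_true, and_true] at h
    push_cast at h ⊢
    obtain ⟨h0, h1, h2, h3, h4⟩ := h
    refine ⟨⟨?_, ?_⟩, ?_, ?_⟩ <;> linarith

theorem TD_rg94 : ROK [.l ⟨0, 480, 0, -442⟩ ⟨0, 480, 0, 442⟩, .l ⟨0, -480, 0, 449⟩ ⟨0, 480, 0, 449⟩, .l ⟨0, 480, 0, -442⟩ ⟨0, 0, 4000, 3529⟩, .l ⟨0, 480, 0, -449⟩ ⟨0, 0, 4000, 3529⟩, .l ⟨0, 480, 0, -442⟩ ⟨0, 0, -4000, -4311⟩, .l ⟨0, 480, 0, -449⟩ ⟨0, 0, -4000, -4311⟩] := by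
  refine rok_ds (s := 1) (nlo := 442) (nhi := 449) (q := 480) (by decide) (by decide) (by decide) (by decide) (k := 1) (by decide) (Q := [(0, 4000, -3529), (0, -4000, 4311)])
    (P := [⟨-13578240, 480, 0⟩, ⟨13793280, -480, 0⟩, ⟨-108410880, 0, 4000⟩, ⟨132433920, 0, -4000⟩]) rfl rfl
    (List.mem_of_getElem? (i := 94) rfl) TD_fr TD_cov ?_
  · intro X Y h
    simp only [List.forall_mem_cons, List.not_mem_nil, false_imp_iff, implies_true, and_true] at h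
    push_cast at h ⊢
    obtain ⟨h0, h1, h2, h3⟩ := h
    refine ⟨⟨?_, ?_⟩, ?_, ?_⟩ <;> linarith

theorem TD_rg95 : ROK [.l ⟨0, 480, 0, -438⟩ ⟨0, 480, 0, 438⟩, .l ⟨0, -480, 0, 445⟩ ⟨0, 480, 0, 445⟩, .l ⟨0, 480, 0, -438⟩ ⟨0, -680, 3942, 2877⟩, .l ⟨0, 480, 0, -445⟩ ⟨0, -680, 3942, 2877⟩, .l ⟨0, 480, 0, -438⟩ ⟨0, 340, -1971, -1809⟩, .l ⟨0, 480, 0, -445⟩ ⟨0, 340, -1971, -1809⟩] := by
  refine rok_ds (s := 1) (nlo := 438) (nhi := 445) (q := 480) (by decide) (by decide) (by decide) (by decide) (k := 1) (by decide) (Q := [(-680, 3942, -2877), (340, -1971, 1809)])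
    (P := [⟨-13455360, 480, 0⟩, ⟨13670400, -480, 0⟩, ⟨-88381440, -680, 3942⟩, ⟨55572480, 340, -1971⟩]) rfl rfl
    (List.mem_of_getElem? (i := 95) rfl) TD_fr TD_cov ?_
  · intro X Y h
    simp only [List.forall_mem_cons, List.not_mem_nil, false_imp_iff, implies_true, and_true] at h
    push_cast at h ⊢
    obtain ⟨h0, h1, h2, h3⟩ := h
    refine ⟨⟨?_, ?_⟩, ?_, ?_⟩ <;> linarith

end Pool.Agent.TET
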