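import Pool.Agent.Helper38_TET.TD_C

/-!
# MP_c7c9bf_co: certificates, family TD
-/

set_option autoImplicit false
set_option maxRecDepth 100000

namespace Pool.Agent.TET

theorem TD_rg96 : ROK [.l ⟨0, 480, 0, -343⟩ ⟨0, 480, 0, 343⟩, .l ⟨0, -480, 0, 352⟩ ⟨0, 480, 0, 352⟩, .l ⟨0, 480, 0, -343⟩ ⟨0, 894, 989, 1387⟩, .l ⟨0, 480, 0, -352⟩ ⟨0, 894, 989, 1387⟩, .l ⟨0, 480, 0, -343⟩ ⟨0, -2682, -2967, -4357⟩, .l ⟨0, 480, 0, -352⟩ ⟨0, -2682, -2967, -4357⟩, .l ⟨0, 480, 0, -343⟩ ⟨0, 3524, 1893, 3970⟩, .l ⟨0, 480, 0, -352⟩ ⟨0, 3524, 1893, 3970⟩] := by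
  refine rok_ds (s := 1) (nlo := 343) (nhi := 352) (q := 480) (by decide) (by decide) (by decide) (by decide) (k := 1) (by decide) (Q := [(894, 989, -1387), (-2682, -2967, 4357), (3524, 1893, -3970)])
    (P := [⟨-10536960, 480, 0⟩, ⟨10813440, -480, 0⟩, ⟨-42608640, 894, 989⟩, ⟨133847040, -2682, -2967⟩, ⟨-121958400, 3524, 1893⟩]) rfl rfl
    (List.mem_of_getElem? (i := 96) rfl) TD_fr TD_cov ?_
  · intro X Y h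
    simp only [List.forall_mem_cons, List.not_mem_nil, false_imp_iff, implies_true, and_true] at h
    push_cast at h ⊢
    obtain ⟨h0, h1, h2, h3, h4⟩ := h
    refine ⟨⟨?_, ?_⟩, ?_, ?_⟩ <;> linarith

theorem TD_rg97 : ROK [.l ⟨0, 480, 0, -335⟩ ⟨0, 480, 0, 335⟩, .l ⟨0, -480, 0, 344⟩ ⟨0, 480, 0, 344⟩, .l ⟨0, 480, 0, -335⟩ ⟨0, -1013, 3870, -9542⟩, .l ⟨0, 480, 0, -344⟩ ⟨0, -1013, 3870, -9542⟩, .l ⟨0, 480, 0, -335⟩ ⟨0, 509, -3968, -2891⟩, .l ⟨0, 480, 0, -344⟩ ⟨0, 509, -3968, -2891⟩, .l ⟨0, 480, 0, -335⟩ ⟨0, 2763, 2892, 4172⟩, .l ⟨0, 480, 0, -344⟩ ⟨0, 2763, 2892, 4172⟩] := by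
  refine rok_ds (s := 1) (nlo := 335) (nhi := 344) (q := 480) (by decide) (by decide) (by decide) (by decide) (k := 1) (by decide) (Q := [(-1013, 3870, 9542), (509, -3968, 2891), (2763, 2892, -4172)])
    (P := [⟨-10291200, 480, 0⟩, ⟨10567680, -480, 0⟩, ⟨293130240, -1013, 3870⟩, ⟨88811520, 509, -3968⟩, ⟨-128163840, 2763, 2892⟩]) rfl rfl
    (List.mem_of_getElem? (i := 97) rfl) TD_fr TD_cov ?_
  · intro X Y h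
    simp only [List.forall_mem_cons, List.not_mem_nil, false_imp_iff, implies_true, and_true] at h
    push_cast at h ⊢
    obtain ⟨h0, h1, h2, h3, h4⟩ := h
    refine ⟨⟨?_, ?_⟩, ?_, ?_⟩ <;> linarith

theorem TD_rg98 : ROK [.l ⟨0, 20, 0, -14⟩ ⟨0, 20, 0, 14⟩, .l ⟨0, -20, 0, 15⟩ ⟨0, 20, 0, 15⟩, .l ⟨0, 20, 0, -14⟩ ⟨0, 0, 800, 597⟩, .l ⟨0, 20, 0, -15⟩ ⟨0, 0, 800, 597⟩, .l ⟨0, 20, 0, -14⟩ ⟨0, 0, -2000, -1637⟩, .l ⟨0, 20, 0, -15⟩ ⟨0, 0, -2000, -1637⟩, .l ⟨0, 20, 0, -14⟩ ⟨0, 3109, 2517, 4135⟩, .l ⟨0, 20, 0, -15⟩ ⟨0, 3109, 2517, 4135⟩] := by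
  refine rok_ds (s := 1) (nlo := 14) (nhi := 15) (q := 20) (by decide) (by decide) (by decide) (by decide) (k := 1) (by decide) (Q := [(0, 800, -597), (0, -2000, 1637), (3109, 2517, -4135)])
    (P := [⟨-430080, 20, 0⟩, ⟨460800, -20, 0⟩, ⟨-18339840, 0, 800⟩, ⟨50288640, 0, -2000⟩, ⟨-127027200, 3109, 2517⟩]) rfl rfl
    (List.mem_of_getElem? (i := 98) rfl) TD_fr TD_cov ?_
  · intro X Y h
    simp only [List.forall_mem_cons, List.not_mem_nil, false_imp_iff, implies_true, and_true] at h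
    push_cast at h ⊢
    obtain ⟨h0, h1, h2, h3, h4⟩ := h
    refine ⟨⟨?_, ?_⟩, ?_, ?_⟩ <;> linarith

theorem TD_rg99 : ROK [.l ⟨0, 480, 0, -345⟩ ⟨0, 480, 0, 345⟩, .l ⟨0, -480, 0, 353⟩ ⟨0, 480, 0, 353⟩, .l ⟨0, 480, 0, -345⟩ ⟨0, 1871, 3535, 3991⟩, .l ⟨0, 480, 0, -353⟩ ⟨0, 1871, 3535, 3991⟩, .l ⟨0, 480, 0, -345⟩ ⟨0, 976, -3879, -2476⟩, .l ⟨0, 480, 0, -353⟩ ⟨0, 976, -3879, -2476⟩, .l ⟨0, 480, 0, -345⟩ ⟨0, 3163, 2448, 4124⟩, .l ⟨0, 480, 0, -353⟩ ⟨0, 3163, 2448, 4124⟩] := by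
  refine rok_ds (s := 1) (nlo := 345) (nhi := 353) (q := 480) (by decide) (by decide) (by decide) (by decide) (k := 1) (by decide) (Q := [(1871, 3535, -3991), (976, -3879, 2476), (3163, 2448, -4124)])
    (P := [⟨-10598400, 480, 0⟩, ⟨10844160, -480, 0⟩, ⟨-122603520, 1871, 3535⟩, ⟨76062720, 976, -3879⟩, ⟨-126689280, 3163, 2448⟩]) rfl rfl
    (List.mem_of_getElem? (i := 99) rfl) TD_fr TD_cov ?_
  · intro X Y h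
    simp only [List.forall_mem_cons, List.not_mem_nil, false_imp_iff, implies_true, and_true] at h
    push_cast at h ⊢
    obtain ⟨h0, h1, h2, h3, h4⟩ := h
    refine ⟨⟨?_, ?_⟩, ?_, ?_⟩ <;> linarith

theorem TD_rg100 : ROK [.l ⟨0, 240, 0, -219⟩ ⟨0, 240, 0, 219⟩, .l ⟨0, -240, 0, 224⟩ ⟨0, 240, 0, 224⟩, .l ⟨0, 240, 0, -219⟩ ⟨0, -435, 3976, 3130⟩, .l ⟨0, 240, 0, -224⟩ ⟨0, -435, 3976, 3130⟩, .l ⟨0, 240, 0, -219⟩ ⟨0, 435, -3976, -3880⟩, .l ⟨0, 240, 0, -224⟩ ⟨0, 435, -3976, -3880⟩] := by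
  refine rok_ds (s := 1) (nlo := 219) (nhi := 224) (q := 240) (by decide) (by decide) (by decide) (by decide) (k := 1) (by decide) (Q := [(-435, 3976, -3130), (435, -3976, 3880)])
    (P := [⟨-6727680, 240, 0⟩, ⟨6881280, -240, 0⟩, ⟨-96153600, -435, 3976⟩, ⟨119193600, 435, -3976⟩]) rfl rfl
    (List.mem_of_getElem? (i := 100) rfl) TD_fr TD_cov ?_
  · intro X Y h
    simp only [List.forall_mem_cons, List.not_mem_nil, false_imp_iff, implies_true, and_true] at h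
    push_cast at h ⊢
    obtain ⟨h0, h1, h2, h3⟩ := h
    refine ⟨⟨?_, ?_⟩, ?_, ?_⟩ <;> linarith

theorem TD_rg101 : ROK [.l ⟨0, 80, 0, -57⟩ ⟨0, 80, 0, 57⟩, .l ⟨0, -80, 0, 59⟩ ⟨0, 80, 0, 59⟩, .l ⟨0, 80, 0, -57⟩ ⟨0, 0, 2000, 1477⟩, .l ⟨0, 80, 0, -59⟩ ⟨0, 0, 2000, 1477⟩, .l ⟨0, 80, 0, -57⟩ ⟨0, 1374, -3757, -13822⟩, .l ⟨0, 80, 0, -59⟩ ⟨0, 1374, -3757, -13822⟩, .l ⟨0, 80, 0, -57⟩ ⟨0, 2838, 2818, 4163⟩, .l ⟨0, 80, 0, -59⟩ ⟨0, 2838, 2818, 4163⟩, .l ⟨0, 80, 0, -57⟩ ⟨0, 2169, -3361, -1011⟩, .l ⟨0, 80, 0, -59⟩ ⟨0, 2169, -3361, -1011⟩] := by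
  refine rok_ds (s := 1) (nlo := 57) (nhi := 59) (q := 80) (by decide) (by decide) (by decide) (by decide) (k := 1) (by decide) (Q := [(0, 2000, -1477), (1374, -3757, 13822), (2838, 2818, -4163), (2169, -3361, 1011)])
    (P := [⟨-1751040, 80, 0⟩, ⟨1812480, -80, 0⟩, ⟨-45373440, 0, 2000⟩, ⟨424611840, 1374, -3757⟩, ⟨-127887360, 2838, 2818⟩, ⟨31057920, 2169, -3361⟩]) rfl rfl
    (List.mem_of_getElem? (i := 101) rfl) TD_fr TD_cov ?_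
  · intro X Y h
    simp only [List.forall_mem_cons, List.not_mem_nil, false_imp_iff, implies_true, and_true] at h
    push_cast at h ⊢
    obtain ⟨h0, h1, h2, h3, h4, h5⟩ := h
    refine ⟨⟨?_, ?_⟩, ?_, ?_⟩ <;> linarith

theorem TD_rg102 : ROK [.l ⟨0, 40, 0, -33⟩ ⟨0, 40, 0, 33⟩, .l ⟨0, -40, 0, 36⟩ ⟨0, 40, 0, 36⟩, .l ⟨0, 40, 0, -33⟩ ⟨0, 0, 4000, 2573⟩, .l ⟨0, 40, 0, -36⟩ ⟨0, 0, 4000, 2573⟩, .l ⟨0, 40, 0, -33⟩ ⟨0, 0, -1000, -831⟩, .l ⟨0, 40, 0, -36⟩ ⟨0, 0, -1000, -831⟩] := by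
  refine rok_ds (s := 1) (nlo := 33) (nhi := 36) (q := 40) (by decide) (by decide) (by decide) (by decide) (k := 1) (by decide) (Q := [(0, 4000, -2573), (0, -1000, 831)])
    (P := [⟨-1013760, 40, 0⟩, ⟨1105920, -40, 0⟩, ⟨-79042560, 0, 4000⟩, ⟨25528320, 0, -1000⟩]) rfl rfl
    (List.mem_of_getElem? (i := 102) rfl) TD_fr TD_cov ?_
  · intro X Y h
    simp only [List.forall_mem_cons, List.not_mem_nil, false_imp_iff, implies_true, and_true] at h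
    push_cast at h ⊢
    obtain ⟨h0, h1, h2, h3⟩ := h
    refine ⟨⟨?_, ?_⟩, ?_, ?_⟩ <;> linarith

theorem TD_rg103 : ROK [.l ⟨0, 960, 0, -853⟩ ⟨0, 960, 0, 853⟩, .l ⟨0, -960, 0, 863⟩ ⟨0, 960, 0, 863⟩, .l ⟨0, 960, 0, -853⟩ ⟨0, 0, 500, 447⟩, .l ⟨0, 960, 0, -863⟩ ⟨0, 0, 500, 447⟩, .l ⟨0, 960, 0, -853⟩ ⟨0, 0, -4000, -4293⟩, .l ⟨0, 960, 0, -863⟩ ⟨0, 0, -4000, -4293⟩] := by
  refine rok_ds (s := 1) (nlo := 853) (nhi := 863) (q := 960) (by decide) (by decide) (by decide) (by decide) (k := 1) (by decide) (Q := [(0, 500, -447), (0, -4000, 4293)])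
    (P := [⟨-26204160, 960, 0⟩, ⟨26511360, -960, 0⟩, ⟨-13731840, 0, 500⟩, ⟨131880960, 0, -4000⟩]) rfl rfl
    (List.mem_of_getElem? (i := 103) rfl) TD_fr TD_cov ?_
  · intro X Y h
    simp only [List.forall_mem_cons, List.not_mem_nil, false_imp_iff, implies_true, and_true] at h
    push_cast at h ⊢
    obtain ⟨h0, h1, h2, h3⟩ := h
    refine ⟨⟨?_, ?_⟩, ?_, ?_⟩ <;> linarith

theorem TD_rg104 : ROK [.l ⟨0, 40, 0, -31⟩ ⟨0, 40, 0, 31⟩, .l ⟨0, -40, 0, 34⟩ ⟨0, 40, 0, 34⟩, .l ⟨0, 40, 0, -31⟩ ⟨0, -928, 3891, -9930⟩, .l ⟨0, 40, 0, -34⟩ ⟨0, -928, 3891, -9930⟩, .l ⟨0, 40, 0, -31⟩ ⟨0, 928, -3891, -2460⟩, .l ⟨0, 40, 0, -34⟩ ⟨0, 928, -3891, -2460⟩, .l ⟨0, 40, 0, -31⟩ ⟨0, 2665, 2983, 4122⟩, .l ⟨0, 40, 0, -34⟩ ⟨0, 2665, 2983, 4122⟩] := by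
  refine rok_ds (s := 1) (nlo := 31) (nhi := 34) (q := 40) (by decide) (by decide) (by decide) (by decide) (k := 1) (by decide) (Q := [(-928, 3891, 9930), (928, -3891, 2460), (2665, 2983, -4122)])
    (P := [⟨-952320, 40, 0⟩, ⟨1044480, -40, 0⟩, ⟨305049600, -928, 3891⟩, ⟨75571200, 928, -3891⟩, ⟨-126627840, 2665, 2983⟩]) rfl rfl
    (List.mem_of_getElem? (i := 104) rfl) TD_fr TD_cov ?_
  · intro X Y h
    simp only [List.forall_mem_cons, List.not_mem_nil, false_imp_iff, implies_true, and_true] at h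
    push_cast at h ⊢
    obtain ⟨h0, h1, h2, h3, h4⟩ := h
    refine ⟨⟨?_, ?_⟩, ?_, ?_⟩ <;> linarith

theorem TD_rg105 : ROK [.l ⟨0, 480, 0, -410⟩ ⟨0, 480, 0, 410⟩, .l ⟨0, -480, 0, 417⟩ ⟨0, 480, 0, 417⟩, .l ⟨0, 480, 0, -410⟩ ⟨0, -235, 3993, 1862⟩, .l ⟨0, 480, 0, -417⟩ ⟨0, -235, 3993, 1862⟩, .l ⟨0, 480, 0, -410⟩ ⟨0, 235, -3993, -3132⟩, .l ⟨0, 480, 0, -417⟩ ⟨0, 235, -3993, -3132⟩] := by
  refine rok_ds (s := 1) (nlo := 410) (nhi := 417) (q := 480) (by decide) (by decide) (by decide) (by decide) (k := 1) (by decide) (Q := [(-235, 3993, -1862), (235, -3993, 3132)])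
    (P := [⟨-12595200, 480, 0⟩, ⟨12810240, -480, 0⟩, ⟨-57200640, -235, 3993⟩, ⟨96215040, 235, -3993⟩]) rfl rfl
    (List.mem_of_getElem? (i := 105) rfl) TD_fr TD_cov ?_
  · intro X Y h
    simp only [List.forall_mem_cons, List.not_mem_nil, false_imp_iff, implies_true, and_true] at h
    push_cast at h ⊢
    obtain ⟨h0, h1, h2, h3⟩ := h
    refine ⟨⟨?_, ?_⟩, ?_, ?_⟩ <;> linarith

theorem TD_rg106 : ROK [.l ⟨0, 40, 0, -32⟩ ⟨0, 40, 0, 32⟩, .l ⟨0, -40, 0, 35⟩ ⟨0, 40, 0, 35⟩, .l ⟨0, 40, 0, -32⟩ ⟨0, 0, 4000, -8709⟩, .l ⟨0, 40, 0, -35⟩ ⟨0, 0, 4000, -8709⟩, .l ⟨0, 40, 0, -32⟩ ⟨0, 1726, -3609, -1553⟩, .l ⟨0, 40, 0, -35⟩ ⟨0, 1726, -3609, -1553⟩, .l ⟨0, 40, 0, -32⟩ ⟨0, -1510, 3704, 1263⟩, .l ⟨0, 40, 0, -35⟩ ⟨0, -1510, 3704, 1263⟩, .l ⟨0, 40, 0, -32⟩ ⟨0, -1070, -3854, -4121⟩, .l ⟨0, 40, 0, -35⟩ ⟨0, -1070, -3854, -4121⟩]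 := by
  refine rok_ds (s := 1) (nlo := 32) (nhi := 35) (q := 40) (by decide) (by decide) (by decide) (by decide) (k := 1) (by decide) (Q := [(0, 4000, 8709), (1726, -3609, 1553), (-1510, 3704, -1263), (-1070, -3854, 4121)])
    (P := [⟨-983040, 40, 0⟩, ⟨1075200, -40, 0⟩, ⟨267540480, 0, 4000⟩, ⟨47708160, 1726, -3609⟩, ⟨-38799360, -1510, 3704⟩, ⟨126597120, -1070, -3854⟩]) rfl rfl
    (List.mem_of_getElem? (i := 106) rfl) TD_fr TD_cov ?_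
  · intro X Y h
    simp only [List.forall_mem_cons, List.not_mem_nil, false_imp_iff, implies_true, and_true] at h
    push_cast at h ⊢
    obtain ⟨h0, h1, h2, h3, h4, h5⟩ := h
    refine ⟨⟨?_, ?_⟩, ?_, ?_⟩ <;> linarith

theorem TD_rg107 : ROK [.l ⟨0, 40, 0, -33⟩ ⟨0, 40, 0, 33⟩, .l ⟨0, -40, 0, 36⟩ ⟨0, 40, 0, 36⟩, .l ⟨0, 40, 0, -33⟩ ⟨0, 0, 4000, 3601⟩, .l ⟨0, 40, 0, -36⟩ ⟨0, 0, 4000, 3601⟩, .l ⟨0, 40, 0, -33⟩ ⟨0, 0, -4000, -4241⟩, .l ⟨0, 40, 0, -36⟩ ⟨0, 0, -4000, -4241⟩, .l ⟨0, 40, 0, -33⟩ ⟨0, 3545, 1853, 4740⟩, .l ⟨0, 40, 0, -36⟩ ⟨0, 3545, 1853, 4740⟩] := by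
  refine rok_ds (s := 1) (nlo := 33) (nhi := 36) (q := 40) (by decide) (by decide) (by decide) (by decide) (k := 1) (by decide) (Q := [(0, 4000, -3601), (0, -4000, 4241), (3545, 1853, -4740)])
    (P := [⟨-1013760, 40, 0⟩, ⟨1105920, -40, 0⟩, ⟨-110622720, 0, 4000⟩, ⟨130283520, 0, -4000⟩, ⟨-145612800, 3545, 1853⟩]) rfl rfl
    (List.mem_of_getElem? (i := 107) rfl) TD_fr TD_cov ?_
  · intro X Y h
    simp only [List.forall_mem_cons, List.not_mem_nil, false_imp_iff, implies_true, and_true] at h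
    push_cast at h ⊢
    obtain ⟨h0, h1, h2, h3, h4⟩ := h
    refine ⟨⟨?_, ?_⟩, ?_, ?_⟩ <;> linarith

theorem TD_rg108 : ROK [.l ⟨0, 40, 0, -34⟩ ⟨0, 40, 0, 34⟩, .l ⟨0, -40, 0, 37⟩ ⟨0, 40, 0, 37⟩, .l ⟨0, 40, 0, -34⟩ ⟨0, 177, 1992, 1201⟩, .l ⟨0, 40, 0, -37⟩ ⟨0, 177, 1992, 1201⟩, .l ⟨0, 40, 0, -34⟩ ⟨0, -177, -1992, -1813⟩, .l ⟨0, 40, 0, -37⟩ ⟨0, -177, -1992, -1813⟩] := by
  refine rok_ds (s := 1) (nlo := 34) (nhi := 37) (q := 40) (by decide) (by decide) (by decide) (by decide) (k := 1) (by decide) (Q := [(177, 1992, -1201), (-177, -1992, 1813)])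
    (P := [⟨-1044480, 40, 0⟩, ⟨1136640, -40, 0⟩, ⟨-36894720, 177, 1992⟩, ⟨55695360, -177, -1992⟩]) rfl rfl
    (List.mem_of_getElem? (i := 108) rfl) TD_fr TD_cov ?_
  · intro X Y h
    simp only [List.forall_mem_cons, List.not_mem_nil, false_imp_iff, implies_true, and_true] at h
    push_cast at h ⊢
    obtain ⟨h0, h1, h2, h3⟩ := h
    refine ⟨⟨?_, ?_⟩, ?_, ?_⟩ <;> linarith

theorem TD_rg109 : ROK [.l ⟨0, 480, 0, -406⟩ ⟨0, 480, 0, 406⟩, .l ⟨0, -480, 0, 415⟩ ⟨0, 480, 0, 415⟩, .l ⟨0, 480, 0, -406⟩ ⟨0, -266, 3991, 1856⟩, .l ⟨0, 480, 0, -415⟩ ⟨0, -266, 3991, 1856⟩, .l ⟨0, 480, 0, -406⟩ ⟨0, 266, -3991, -3103⟩, .l ⟨0, 480, 0, -415⟩ ⟨0, 266, -3991, -3103⟩] := by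
  refine rok_ds (s := 1) (nlo := 406) (nhi := 415) (q := 480) (by decide) (by decide) (by decide) (by decide) (k := 1) (by decide) (Q := [(-266, 3991, -1856), (266, -3991, 3103)])
    (P := [⟨-12472320, 480, 0⟩, ⟨12748800, -480, 0⟩, ⟨-57016320, -266, 3991⟩, ⟨95324160, 266, -3991⟩]) rfl rfl
    (List.mem_of_getElem? (i := 109) rfl) TD_fr TD_cov ?_
  · intro X Y h
    simp only [List.forall_mem_cons, List.not_mem_nil, false_imp_iff, implies_true, and_true] at h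
    push_cast at h ⊢
    obtain ⟨h0, h1, h2, h3⟩ := h
    refine ⟨⟨?_, ?_⟩, ?_, ?_⟩ <;> linarith

theorem TD_rg110 : ROK [.l ⟨0, 480, 0, -429⟩ ⟨0, 480, 0, 429⟩, .l ⟨0, -480, 0, 436⟩ ⟨0, 480, 0, 436⟩, .l ⟨0, 480, 0, -429⟩ ⟨0, 0, 500, 447⟩, .l ⟨0, 480, 0, -436⟩ ⟨0, 0, 500, 447⟩, .l ⟨0, 480, 0, -429⟩ ⟨0, 0, -4000, -4299⟩, .l ⟨0, 480, 0, -436⟩ ⟨0, 0, -4000, -4299⟩, .l ⟨0, 480, 0, -429⟩ ⟨0, 2811, -2846, -537⟩, .l ⟨0, 480, 0, -436⟩ ⟨0, 2811, -2846, -537⟩] := by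
  refine rok_ds (s := 1) (nlo := 429) (nhi := 436) (q := 480) (by decide) (by decide) (by decide) (by decide) (k := 1) (by decide) (Q := [(0, 500, -447), (0, -4000, 4299), (2811, -2846, 537)])
    (P := [⟨-13178880, 480, 0⟩, ⟨13393920, -480, 0⟩, ⟨-13731840, 0, 500⟩, ⟨132065280, 0, -4000⟩, ⟨16496640, 2811, -2846⟩]) rfl rfl
    (List.mem_of_getElem? (i := 110) rfl) TD_fr TD_cov ?_
  · intro X Y h
    simp only [List.forall_mem_cons, List.not_mem_nil, false_imp_iff, implies_true, and_true] at h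
    push_cast at h ⊢
    obtain ⟨h0, h1, h2, h3, h4⟩ := h
    refine ⟨⟨?_, ?_⟩, ?_, ?_⟩ <;> linarith

theorem TD_rg111 : ROK [.l ⟨0, 80, 0, -66⟩ ⟨0, 80, 0, 66⟩, .l ⟨0, -80, 0, 69⟩ ⟨0, 80, 0, 69⟩, .l ⟨0, 80, 0, -66⟩ ⟨0, -439, 3976, 2196⟩, .l ⟨0, 80, 0, -69⟩ ⟨0, -439, 3976, 2196⟩, .l ⟨0, 80, 0, -66⟩ ⟨0, 439, -3976, -2939⟩, .l ⟨0, 80, 0, -69⟩ ⟨0, 439, -3976, -2939⟩] := by
  refine rok_ds (s := 1) (nlo := 66) (nhi := 69) (q := 80) (by decide) (by decide) (by decide) (by decide) (k := 1) (by decide) (Q := [(-439, 3976, -2196), (439, -3976, 2939)])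
    (P := [⟨-2027520, 80, 0⟩, ⟨2119680, -80, 0⟩, ⟨-67461120, -439, 3976⟩, ⟨90286080, 439, -3976⟩]) rfl rfl
    (List.mem_of_getElem? (i := 111) rfl) TD_fr TD_cov ?_
  · intro X Y h
    simp only [List.forall_mem_cons, List.not_mem_nil, false_imp_iff, implies_true, and_true] at h
    push_cast at h ⊢
    obtain ⟨h0, h1, h2, h3⟩ := h
    refine ⟨⟨?_, ?_⟩, ?_, ?_⟩ <;> linarith

theorem TD_rg112 : ROK [.l ⟨0, 40, 0, -34⟩ ⟨0, 40, 0, 34⟩, .l ⟨0, -40, 0, 37⟩ ⟨0, 40, 0, 37⟩, .l ⟨0, 40, 0, -34⟩ ⟨0, 0, 4000, 2101⟩, .l ⟨0, 40, 0, -37⟩ ⟨0, 0, 4000, 2101⟩, .l ⟨0, 40, 0, -34⟩ ⟨0, 0, -500, -417⟩, .l ⟨0, 40, 0, -37⟩ ⟨0, 0, -500, -417⟩] := by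
  refine rok_ds (s := 1) (nlo := 34) (nhi := 37) (q := 40) (by decide) (by decide) (by decide) (by decide) (k := 1) (by decide) (Q := [(0, 4000, -2101), (0, -500, 417)])
    (P := [⟨-1044480, 40, 0⟩, ⟨1136640, -40, 0⟩, ⟨-64542720, 0, 4000⟩, ⟨12810240, 0, -500⟩]) rfl rfl
    (List.mem_of_getElem? (i := 112) rfl) TD_fr TD_cov ?_
  · intro X Y h
    simp only [List.forall_mem_cons, List.not_mem_nil, false_imp_iff, implies_true, and_true] at h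
    push_cast at h ⊢
    obtain ⟨h0, h1, h2, h3⟩ := h
    refine ⟨⟨?_, ?_⟩, ?_, ?_⟩ <;> linarith

theorem TD_rg113 : ROK [.l ⟨0, 80, 0, -68⟩ ⟨0, 80, 0, 68⟩, .l ⟨0, -80, 0, 71⟩ ⟨0, 80, 0, 71⟩, .l ⟨0, 80, 0, -68⟩ ⟨0, 0, 125, -233⟩, .l ⟨0, 80, 0, -71⟩ ⟨0, 0, 125, -233⟩, .l ⟨0, 80, 0, -68⟩ ⟨0, 0, -2000, -1669⟩, .l ⟨0, 80, 0, -71⟩ ⟨0, 0, -2000, -1669⟩, .l ⟨0, 80, 0, -68⟩ ⟨0, -3091, 2538, -1307⟩, .l ⟨0, 80, 0, -71⟩ ⟨0, -3091, 2538, -1307⟩] := by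
  refine rok_ds (s := 1) (nlo := 68) (nhi := 71) (q := 80) (by decide) (by decide) (by decide) (by decide) (k := 1) (by decide) (Q := [(0, 125, 233), (0, -2000, 1669), (-3091, 2538, 1307)])
    (P := [⟨-2088960, 80, 0⟩, ⟨2181120, -80, 0⟩, ⟨7157760, 0, 125⟩, ⟨51271680, 0, -2000⟩, ⟨40151040, -3091, 2538⟩]) rfl rfl
    (List.mem_of_getElem? (i := 113) rfl) TD_fr TD_cov ?_
  · intro X Y h
    simp only [List.forall_mem_cons, List.not_mem_nil, false_imp_iff, implies_true, and_true] at h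
    push_cast at h ⊢
    obtain ⟨h0, h1, h2, h3, h4⟩ := h
    refine ⟨⟨?_, ?_⟩, ?_, ?_⟩ <;> linarith

theorem TD_rg114 : ROK [.l ⟨0, 240, 0, -211⟩ ⟨0, 240, 0, 211⟩, .l ⟨0, -240, 0, 215⟩ ⟨0, 240, 0, 215⟩, .l ⟨0, 240, 0, -211⟩ ⟨0, 2673, 2976, 5029⟩, .l ⟨0, 240, 0, -215⟩ ⟨0, 2673, 2976, 5029⟩, .l ⟨0, 240, 0, -211⟩ ⟨0, 133, -3998, -4166⟩, .l ⟨0, 240, 0, -215⟩ ⟨0, 133, -3998, -4166⟩, .l ⟨0, 240, 0, -211⟩ ⟨0, -89, 3999, 3496⟩, .l ⟨0, 240, 0, -215⟩ ⟨0, -89, 3999, 3496⟩] := by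
  refine rok_ds (s := 1) (nlo := 211) (nhi := 215) (q := 240) (by decide) (by decide) (by decide) (by decide) (k := 1) (by decide) (Q := [(2673, 2976, -5029), (133, -3998, 4166), (-89, 3999, -3496)])
    (P := [⟨-6481920, 240, 0⟩, ⟨6604800, -240, 0⟩, ⟨-154490880, 2673, 2976⟩, ⟨127979520, 133, -3998⟩, ⟨-107397120, -89, 3999⟩]) rfl rfl
    (List.mem_of_getElem? (i := 114) rfl) TD_fr TD_cov ?_
  · intro X Y h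
    simp only [List.forall_mem_cons, List.not_mem_nil, false_imp_iff, implies_true, and_true] at h
    push_cast at h ⊢
    obtain ⟨h0, h1, h2, h3, h4⟩ := h
    refine ⟨⟨?_, ?_⟩, ?_, ?_⟩ <;> linarith

theorem TD_rg115 : ROK [.l ⟨0, 40, 0, -33⟩ ⟨0, 40, 0, 33⟩, .l ⟨0, -40, 0, 36⟩ ⟨0, 40, 0, 36⟩, .l ⟨0, 40, 0, -33⟩ ⟨0, 553, 1922, 2215⟩, .l ⟨0, 40, 0, -36⟩ ⟨0, 553, 1922, 2215⟩, .l ⟨0, 40, 0, -33⟩ ⟨0, -2365, -3226, -5370⟩, .l ⟨0, 40, 0, -36⟩ ⟨0, -2365, -3226, -5370⟩, .l ⟨0, 40, 0, -33⟩ ⟨0, 2227, 3323, 4934⟩, .l ⟨0, 40, 0, -36⟩ ⟨0, 2227, 3323, 4934⟩] := by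
  refine rok_ds (s := 1) (nlo := 33) (nhi := 36) (q := 40) (by decide) (by decide) (by decide) (by decide) (k := 1) (by decide) (Q := [(553, 1922, -2215), (-2365, -3226, 5370), (2227, 3323, -4934)])
    (P := [⟨-1013760, 40, 0⟩, ⟨1105920, -40, 0⟩, ⟨-68044800, 553, 1922⟩, ⟨164966400, -2365, -3226⟩, ⟨-151572480, 2227, 3323⟩]) rfl rfl
    (List.mem_of_getElem? (i := 115) rfl) TD_fr TD_cov ?_
  · intro X Y h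
    simp only [List.forall_mem_cons, List.not_mem_nil, false_imp_iff, implies_true, and_true] at h
    push_cast at h ⊢
    obtain ⟨h0, h1, h2, h3, h4⟩ := h
    refine ⟨⟨?_, ?_⟩, ?_, ?_⟩ <;> linarith

theorem TD_rg116 : ROK [.l ⟨0, 40, 0, -36⟩ ⟨0, 40, 0, 36⟩, .l ⟨0, -40, 0, 39⟩ ⟨0, 40, 0, 39⟩, .l ⟨0, 40, 0, -36⟩ ⟨0, 375, 3982, 2282⟩, .l ⟨0, 40, 0, -39⟩ ⟨0, 375, 3982, 2282⟩, .l ⟨0, 40, 0, -36⟩ ⟨0, -639, -3949, -3880⟩, .l ⟨0, 40, 0, -39⟩ ⟨0, -639, -3949, -3880⟩, .l ⟨0, 40, 0, -36⟩ ⟨0, 2611, 3030, 3945⟩, .l ⟨0, 40, 0, -39⟩ ⟨0, 2611, 3030, 3945⟩] := by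
  refine rok_ds (s := 1) (nlo := 36) (nhi := 39) (q := 40) (by decide) (by decide) (by decide) (by decide) (k := 1) (by decide) (Q := [(375, 3982, -2282), (-639, -3949, 3880), (2611, 3030, -3945)])
    (P := [⟨-1105920, 40, 0⟩, ⟨1198080, -40, 0⟩, ⟨-70103040, 375, 3982⟩, ⟨119193600, -639, -3949⟩, ⟨-121190400, 2611, 3030⟩]) rfl rfl
    (List.mem_of_getElem? (i := 116) rfl) TD_fr TD_cov ?_
  · intro X Y h
    simp only [List.forall_mem_cons, List.not_mem_nil, false_imp_iff, implies_true, and_true] at h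
    push_cast at h ⊢
    obtain ⟨h0, h1, h2, h3, h4⟩ := h
    refine ⟨⟨?_, ?_⟩, ?_, ?_⟩ <;> linarith

theorem TD_rg117 : ROK [.l ⟨0, 160, 0, -139⟩ ⟨0, 160, 0, 139⟩, .l ⟨0, -160, 0, 142⟩ ⟨0, 160, 0, 142⟩, .l ⟨0, 160, 0, -139⟩ ⟨0, 1583, 3673, 4695⟩, .l ⟨0, 160, 0, -142⟩ ⟨0, 1583, 3673, 4695⟩, .l ⟨0, 160, 0, -139⟩ ⟨0, 436, -1952, -1705⟩, .l ⟨0, 160, 0, -142⟩ ⟨0, 436, -1952, -1705⟩] := by
  refine rok_ds (s := 1) (nlo := 139) (nhi := 142) (q := 160) (by decide) (by decide) (by decide) (by decide) (k := 1) (by decide) (Q := [(1583, 3673, -4695), (436, -1952, 1705)])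
    (P := [⟨-4270080, 160, 0⟩, ⟨4362240, -160, 0⟩, ⟨-144230400, 1583, 3673⟩, ⟨52377600, 436, -1952⟩]) rfl rfl
    (List.mem_of_getElem? (i := 117) rfl) TD_fr TD_cov ?_
  · intro X Y h
    simp only [List.forall_mem_cons, List.not_mem_nil, false_imp_iff, implies_true, and_true] at h
    push_cast at h ⊢
    obtain ⟨h0, h1, h2, h3⟩ := h
    refine ⟨⟨?_, ?_⟩, ?_, ?_⟩ <;> linarith

theorem TD_rg118 : ROK [.l ⟨0, 480, 0, -413⟩ ⟨0, 480, 0, 413⟩, .l ⟨0, -480, 0, 422⟩ ⟨0, 480, 0, 422⟩, .l ⟨0, 480, 0, -413⟩ ⟨0, 442, 897, 1193⟩, .l ⟨0, 480, 0, -422⟩ ⟨0, 442, 897, 1193⟩, .l ⟨0, 480, 0, -413⟩ ⟨0, 695, -3939, -3605⟩, .l ⟨0, 480, 0, -422⟩ ⟨0, 695, -3939, -3605⟩, .l ⟨0, 480, 0, -413⟩ ⟨0, -2061, 3428, 1272⟩, .l ⟨0, 480, 0, -422⟩ ⟨0, -2061, 3428, 1272⟩] := by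
  refine rok_ds (s := 1) (nlo := 413) (nhi := 422) (q := 480) (by decide) (by decide) (by decide) (by decide) (k := 1) (by decide) (Q := [(442, 897, -1193), (695, -3939, 3605), (-2061, 3428, -1272)])
    (P := [⟨-12687360, 480, 0⟩, ⟨12963840, -480, 0⟩, ⟨-36648960, 442, 897⟩, ⟨110745600, 695, -3939⟩, ⟨-39075840, -2061, 3428⟩]) rfl rfl
    (List.mem_of_getElem? (i := 118) rfl) TD_fr TD_cov ?_
  · intro X Y h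
    simp only [List.forall_mem_cons, List.not_mem_nil, false_imp_iff, implies_true, and_true] at h
    push_cast at h ⊢
    obtain ⟨h0, h1, h2, h3, h4⟩ := h
    refine ⟨⟨?_, ?_⟩, ?_, ?_⟩ <;> linarith

theorem TD_rg119 : ROK [.l ⟨0, 80, 0, -71⟩ ⟨0, 80, 0, 71⟩, .l ⟨0, -80, 0, 74⟩ ⟨0, 80, 0, 74⟩, .l ⟨0, 80, 0, -71⟩ ⟨0, 0, 4000, 3523⟩, .l ⟨0, 80, 0, -74⟩ ⟨0, 0, 4000, 3523⟩, .l ⟨0, 80, 0, -71⟩ ⟨0, 0, -2000, -2143⟩, .l ⟨0, 80, 0, -74⟩ ⟨0, 0, -2000, -2143⟩, .l ⟨0, 80, 0, -71⟩ ⟨0, 2359, 3230, 5008⟩, .l ⟨0, 80, 0, -74⟩ ⟨0, 2359, 3230, 5008⟩] := by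
  refine rok_ds (s := 1) (nlo := 71) (nhi := 74) (q := 80) (by decide) (by decide) (by decide) (by decide) (k := 1) (by decide) (Q := [(0, 4000, -3523), (0, -2000, 2143), (2359, 3230, -5008)])
    (P := [⟨-2181120, 80, 0⟩, ⟨2273280, -80, 0⟩, ⟨-108226560, 0, 4000⟩, ⟨65832960, 0, -2000⟩, ⟨-153845760, 2359, 3230⟩]) rfl rfl
    (List.mem_of_getElem? (i := 119) rfl) TD_fr TD_cov ?_
  · intro X Y h
    simp only [List.forall_mem_cons, List.not_mem_nil, false_imp_iff, implies_true, and_true] at h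
    push_cast at h ⊢
    obtain ⟨h0, h1, h2, h3, h4⟩ := h
    refine ⟨⟨?_, ?_⟩, ?_, ?_⟩ <;> linarith

end Pool.Agent.TET
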