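import Pool.Agent.Helper38_TET.TD_C

/-!
# MP_c7c9bf_co: certificates, family TD
-/

set_option autoImplicit false
set_option maxRecDepth 100000

namespace Pool.Agent.TET

theorem TD_rg120 : ROK [.l ⟨0, 480, 0, -431⟩ ⟨0, 480, 0, 431⟩, .l ⟨0, -480, 0, 438⟩ ⟨0, 480, 0, 438⟩, .l ⟨0, 480, 0, -431⟩ ⟨0, 0, 400, 201⟩, .l ⟨0, 480, 0, -438⟩ ⟨0, 0, 400, 201⟩, .l ⟨0, 480, 0, -431⟩ ⟨0, 0, -4000, -3343⟩, .l ⟨0, 480, 0, -438⟩ ⟨0, 0, -4000, -3343⟩] := by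
  refine rok_ds (s := 1) (nlo := 431) (nhi := 438) (q := 480) (by decide) (by decide) (by decide) (by decide) (k := 1) (by decide) (Q := [(0, 400, -201), (0, -4000, 3343)])
    (P := [⟨-13240320, 480, 0⟩, ⟨13455360, -480, 0⟩, ⟨-6174720, 0, 400⟩, ⟨102696960, 0, -4000⟩]) rfl rfl
    (List.mem_of_getElem? (i := 120) rfl) TD_fr TD_cov ?_
  · intro X Y h
    simp only [List.forall_mem_cons, List.not_mem_nil, false_imp_iff, implies_true, and_true] at h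
    push_cast at h ⊢
    obtain ⟨h0, h1, h2, h3⟩ := h
    refine ⟨⟨?_, ?_⟩, ?_, ?_⟩ <;> linarith

theorem TD_rg121 : ROK [.l ⟨0, 20, 0, -17⟩ ⟨0, 20, 0, 17⟩, .l ⟨0, -20, 0, 19⟩ ⟨0, 20, 0, 19⟩, .l ⟨0, 20, 0, -17⟩ ⟨0, 956, 3884, 4311⟩, .l ⟨0, 20, 0, -19⟩ ⟨0, 956, 3884, 4311⟩, .l ⟨0, 20, 0, -17⟩ ⟨0, 1115, -3842, -3088⟩, .l ⟨0, 20, 0, -19⟩ ⟨0, 1115, -3842, -3088⟩, .l ⟨0, 20, 0, -17⟩ ⟨0, 1350, 1476, 2534⟩, .l ⟨0, 20, 0, -19⟩ ⟨0, 1350, 1476, 2534⟩] := by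
  refine rok_ds (s := 1) (nlo := 17) (nhi := 19) (q := 20) (by decide) (by decide) (by decide) (by decide) (k := 1) (by decide) (Q := [(956, 3884, -4311), (1115, -3842, 3088), (1350, 1476, -2534)])
    (P := [⟨-522240, 20, 0⟩, ⟨583680, -20, 0⟩, ⟨-132433920, 956, 3884⟩, ⟨94863360, 1115, -3842⟩, ⟨-77844480, 1350, 1476⟩]) rfl rfl
    (List.mem_of_getElem? (i := 121) rfl) TD_fr TD_cov ?_
  · intro X Y h
    simp only [List.forall_mem_cons, List.not_mem_nil, false_imp_iff, implies_true, and_true] at h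
    push_cast at h ⊢
    obtain ⟨h0, h1, h2, h3, h4⟩ := h
    refine ⟨⟨?_, ?_⟩, ?_, ?_⟩ <;> linarith

theorem TD_rg122 : ROK [.l ⟨0, 20, 0, -16⟩ ⟨0, 20, 0, 16⟩, .l ⟨0, -20, 0, 19⟩ ⟨0, 20, 0, 19⟩, .l ⟨0, 20, 0, -16⟩ ⟨0, 1319, 3776, 4557⟩, .l ⟨0, 20, 0, -19⟩ ⟨0, 1319, 3776, 4557⟩, .l ⟨0, 20, 0, -16⟩ ⟨0, -399, -1960, -2381⟩, .l ⟨0, 20, 0, -19⟩ ⟨0, -399, -1960, -2381⟩, .l ⟨0, 20, 0, -16⟩ ⟨0, 2137, 3381, 4929⟩, .l ⟨0, 20, 0, -19⟩ ⟨0, 2137, 3381, 4929⟩] := by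
  refine rok_ds (s := 1) (nlo := 16) (nhi := 19) (q := 20) (by decide) (by decide) (by decide) (by decide) (k := 1) (by decide) (Q := [(1319, 3776, -4557), (-399, -1960, 2381), (2137, 3381, -4929)])
    (P := [⟨-491520, 20, 0⟩, ⟨583680, -20, 0⟩, ⟨-139991040, 1319, 3776⟩, ⟨73144320, -399, -1960⟩, ⟨-151418880, 2137, 3381⟩]) rfl rfl
    (List.mem_of_getElem? (i := 122) rfl) TD_fr TD_cov ?_
  · intro X Y h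
    simp only [List.forall_mem_cons, List.not_mem_nil, false_imp_iff, implies_true, and_true] at h
    push_cast at h ⊢
    obtain ⟨h0, h1, h2, h3, h4⟩ := h
    refine ⟨⟨?_, ?_⟩, ?_, ?_⟩ <;> linarith

theorem TD_rg123 : ROK [.l ⟨0, 80, 0, -69⟩ ⟨0, 80, 0, 69⟩, .l ⟨0, -80, 0, 73⟩ ⟨0, 80, 0, 73⟩, .l ⟨0, 80, 0, -69⟩ ⟨0, 2463, 3151, 4999⟩, .l ⟨0, 80, 0, -73⟩ ⟨0, 2463, 3151, 4999⟩, .l ⟨0, 80, 0, -69⟩ ⟨0, -2463, -3151, -5486⟩, .l ⟨0, 80, 0, -73⟩ ⟨0, -2463, -3151, -5486⟩, .l ⟨0, 80, 0, -69⟩ ⟨0, 739, 3931, 4176⟩, .l ⟨0, 80, 0, -73⟩ ⟨0, 739, 3931, 4176⟩] := by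
  refine rok_ds (s := 1) (nlo := 69) (nhi := 73) (q := 80) (by decide) (by decide) (by decide) (by decide) (k := 1) (by decide) (Q := [(2463, 3151, -4999), (-2463, -3151, 5486), (739, 3931, -4176)])
    (P := [⟨-2119680, 80, 0⟩, ⟨2242560, -80, 0⟩, ⟨-153569280, 2463, 3151⟩, ⟨168529920, -2463, -3151⟩, ⟨-128286720, 739, 3931⟩]) rfl rfl
    (List.mem_of_getElem? (i := 123) rfl) TD_fr TD_cov ?_
  · intro X Y h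
    simp only [List.forall_mem_cons, List.not_mem_nil, false_imp_iff, implies_true, and_true] at h
    push_cast at h ⊢
    obtain ⟨h0, h1, h2, h3, h4⟩ := h
    refine ⟨⟨?_, ?_⟩, ?_, ?_⟩ <;> linarith

theorem TD_rg124 : ROK [.l ⟨0, 20, 0, -15⟩ ⟨0, 20, 0, 15⟩, .l ⟨0, -20, 0, 18⟩ ⟨0, 20, 0, 18⟩, .l ⟨0, 20, 0, -15⟩ ⟨0, 0, 250, 227⟩, .l ⟨0, 20, 0, -18⟩ ⟨0, 0, 250, 227⟩, .l ⟨0, 20, 0, -15⟩ ⟨0, 0, -4000, -4121⟩, .l ⟨0, 20, 0, -18⟩ ⟨0, 0, -4000, -4121⟩, .l ⟨0, 20, 0, -15⟩ ⟨0, 3012, 2632, 4939⟩, .l ⟨0, 20, 0, -18⟩ ⟨0, 3012, 2632, 4939⟩] := by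
  refine rok_ds (s := 1) (nlo := 15) (nhi := 18) (q := 20) (by decide) (by decide) (by decide) (by decide) (k := 1) (by decide) (Q := [(0, 250, -227), (0, -4000, 4121), (3012, 2632, -4939)])
    (P := [⟨-460800, 20, 0⟩, ⟨552960, -20, 0⟩, ⟨-6973440, 0, 250⟩, ⟨126597120, 0, -4000⟩, ⟨-151726080, 3012, 2632⟩]) rfl rfl
    (List.mem_of_getElem? (i := 124) rfl) TD_fr TD_cov ?_
  · intro X Y h
    simp only [List.forall_mem_cons, List.not_mem_nil, false_imp_iff, implies_true, and_true] at h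
    push_cast at h ⊢
    obtain ⟨h0, h1, h2, h3, h4⟩ := h
    refine ⟨⟨?_, ?_⟩, ?_, ?_⟩ <;> linarith

theorem TD_rg125 : ROK [.l ⟨0, 40, 0, -34⟩ ⟨0, 40, 0, 34⟩, .l ⟨0, -40, 0, 37⟩ ⟨0, 40, 0, 37⟩, .l ⟨0, 40, 0, -34⟩ ⟨0, 1298, 3783, 4544⟩, .l ⟨0, 40, 0, -37⟩ ⟨0, 1298, 3783, 4544⟩, .l ⟨0, 40, 0, -34⟩ ⟨0, -323, -3987, -4516⟩, .l ⟨0, 40, 0, -37⟩ ⟨0, -323, -3987, -4516⟩, .l ⟨0, 40, 0, -34⟩ ⟨0, 3569, 1807, 4709⟩, .l ⟨0, 40, 0, -37⟩ ⟨0, 3569, 1807, 4709⟩] := by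
  refine rok_ds (s := 1) (nlo := 34) (nhi := 37) (q := 40) (by decide) (by decide) (by decide) (by decide) (k := 1) (by decide) (Q := [(1298, 3783, -4544), (-323, -3987, 4516), (3569, 1807, -4709)])
    (P := [⟨-1044480, 40, 0⟩, ⟨1136640, -40, 0⟩, ⟨-139591680, 1298, 3783⟩, ⟨138731520, -323, -3987⟩, ⟨-144660480, 3569, 1807⟩]) rfl rfl
    (List.mem_of_getElem? (i := 125) rfl) TD_fr TD_cov ?_
  · intro X Y h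
    simp only [List.forall_mem_cons, List.not_mem_nil, false_imp_iff, implies_true, and_true] at h
    push_cast at h ⊢
    obtain ⟨h0, h1, h2, h3, h4⟩ := h
    refine ⟨⟨?_, ?_⟩, ?_, ?_⟩ <;> linarith

theorem TD_rg126 : ROK [.l ⟨0, 80, 0, -67⟩ ⟨0, 80, 0, 67⟩, .l ⟨0, -80, 0, 70⟩ ⟨0, 80, 0, 70⟩, .l ⟨0, 80, 0, -67⟩ ⟨0, 0, 4000, 2101⟩, .l ⟨0, 80, 0, -70⟩ ⟨0, 0, 4000, 2101⟩, .l ⟨0, 80, 0, -67⟩ ⟨0, -597, -3955, -3796⟩, .l ⟨0, 80, 0, -70⟩ ⟨0, -597, -3955, -3796⟩] := by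
  refine rok_ds (s := 1) (nlo := 67) (nhi := 70) (q := 80) (by decide) (by decide) (by decide) (by decide) (k := 1) (by decide) (Q := [(0, 4000, -2101), (-597, -3955, 3796)])
    (P := [⟨-2058240, 80, 0⟩, ⟨2150400, -80, 0⟩, ⟨-64542720, 0, 4000⟩, ⟨116613120, -597, -3955⟩]) rfl rfl
    (List.mem_of_getElem? (i := 126) rfl) TD_fr TD_cov ?_
  · intro X Y h
    simp only [List.forall_mem_cons, List.not_mem_nil, false_imp_iff, implies_true, and_true] at h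
    push_cast at h ⊢
    obtain ⟨h0, h1, h2, h3⟩ := h
    refine ⟨⟨?_, ?_⟩, ?_, ?_⟩ <;> linarith

theorem TD_rg127 : ROK [.l ⟨0, 40, 0, -33⟩ ⟨0, 40, 0, 33⟩, .l ⟨0, -40, 0, 36⟩ ⟨0, 40, 0, 36⟩, .l ⟨0, 40, 0, -33⟩ ⟨0, 1281, 3789, 4534⟩, .l ⟨0, 40, 0, -36⟩ ⟨0, 1281, 3789, 4534⟩, .l ⟨0, 40, 0, -33⟩ ⟨0, -1046, -3861, -4956⟩, .l ⟨0, 40, 0, -36⟩ ⟨0, -1046, -3861, -4956⟩, .l ⟨0, 40, 0, -33⟩ ⟨0, 2224, 3325, 4933⟩, .l ⟨0, 40, 0, -36⟩ ⟨0, 2224, 3325, 4933⟩] := by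
  refine rok_ds (s := 1) (nlo := 33) (nhi := 36) (q := 40) (by decide) (by decide) (by decide) (by decide) (k := 1) (by decide) (Q := [(1281, 3789, -4534), (-1046, -3861, 4956), (2224, 3325, -4933)])
    (P := [⟨-1013760, 40, 0⟩, ⟨1105920, -40, 0⟩, ⟨-139284480, 1281, 3789⟩, ⟨152248320, -1046, -3861⟩, ⟨-151541760, 2224, 3325⟩]) rfl rfl
    (List.mem_of_getElem? (i := 127) rfl) TD_fr TD_cov ?_
  · intro X Y h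
    simp only [List.forall_mem_cons, List.not_mem_nil, false_imp_iff, implies_true, and_true] at h
    push_cast at h ⊢
    obtain ⟨h0, h1, h2, h3, h4⟩ := h
    refine ⟨⟨?_, ?_⟩, ?_, ?_⟩ <;> linarith

theorem TD_rg128 : ROK [.l ⟨0, 240, 0, -213⟩ ⟨0, 240, 0, 213⟩, .l ⟨0, -240, 0, 217⟩ ⟨0, 240, 0, 217⟩, .l ⟨0, 240, 0, -213⟩ ⟨0, 0, 500, 447⟩, .l ⟨0, 240, 0, -217⟩ ⟨0, 0, 500, 447⟩, .l ⟨0, 240, 0, -213⟩ ⟨0, 868, -3905, -3413⟩, .l ⟨0, 240, 0, -217⟩ ⟨0, 868, -3905, -3413⟩] := by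
  refine rok_ds (s := 1) (nlo := 213) (nhi := 217) (q := 240) (by decide) (by decide) (by decide) (by decide) (k := 1) (by decide) (Q := [(0, 500, -447), (868, -3905, 3413)])
    (P := [⟨-6543360, 240, 0⟩, ⟨6666240, -240, 0⟩, ⟨-13731840, 0, 500⟩, ⟨104847360, 868, -3905⟩]) rfl rfl
    (List.mem_of_getElem? (i := 128) rfl) TD_fr TD_cov ?_
  · intro X Y h
    simp only [List.forall_mem_cons, List.not_mem_nil, false_imp_iff, implies_true, and_true] at h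
    push_cast at h ⊢
    obtain ⟨h0, h1, h2, h3⟩ := h
    refine ⟨⟨?_, ?_⟩, ?_, ?_⟩ <;> linarith

theorem TD_rg129 : ROK [.l ⟨0, 480, 0, -401⟩ ⟨0, 480, 0, 401⟩, .l ⟨0, -480, 0, 411⟩ ⟨0, 480, 0, 411⟩, .l ⟨0, 480, 0, -401⟩ ⟨0, 0, 500, 263⟩, .l ⟨0, 480, 0, -411⟩ ⟨0, 0, 500, 263⟩, .l ⟨0, 480, 0, -401⟩ ⟨0, 0, -4000, -3333⟩, .l ⟨0, 480, 0, -411⟩ ⟨0, 0, -4000, -3333⟩] := by
  refine rok_ds (s := 1) (nlo := 401) (nhi := 411) (q := 480) (by decide) (by decide) (by decide) (by decide) (k := 1) (by decide) (Q := [(0, 500, -263), (0, -4000, 3333)])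
    (P := [⟨-12318720, 480, 0⟩, ⟨12625920, -480, 0⟩, ⟨-8079360, 0, 500⟩, ⟨102389760, 0, -4000⟩]) rfl rfl
    (List.mem_of_getElem? (i := 129) rfl) TD_fr TD_cov ?_
  · intro X Y h
    simp only [List.forall_mem_cons, List.not_mem_nil, false_imp_iff, implies_true, and_true] at h
    push_cast at h ⊢
    obtain ⟨h0, h1, h2, h3⟩ := h
    refine ⟨⟨?_, ?_⟩, ?_, ?_⟩ <;> linarith

theorem TD_rg130 : ROK [.l ⟨0, 480, 0, -421⟩ ⟨0, 480, 0, 421⟩, .l ⟨0, -480, 0, 430⟩ ⟨0, 480, 0, 430⟩, .l ⟨0, 480, 0, -421⟩ ⟨0, 0, 500, 447⟩, .l ⟨0, 480, 0, -430⟩ ⟨0, 0, 500, 447⟩, .l ⟨0, 480, 0, -421⟩ ⟨0, 0, -2000, -2143⟩, .l ⟨0, 480, 0, -430⟩ ⟨0, 0, -2000, -2143⟩, .l ⟨0, 480, 0, -421⟩ ⟨0, 2092, 3409, 4905⟩, .l ⟨0, 480, 0, -430⟩ ⟨0, 2092, 3409, 4905⟩] := by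
  refine rok_ds (s := 1) (nlo := 421) (nhi := 430) (q := 480) (by decide) (by decide) (by decide) (by decide) (k := 1) (by decide) (Q := [(0, 500, -447), (0, -2000, 2143), (2092, 3409, -4905)])
    (P := [⟨-12933120, 480, 0⟩, ⟨13209600, -480, 0⟩, ⟨-13731840, 0, 500⟩, ⟨65832960, 0, -2000⟩, ⟨-150681600, 2092, 3409⟩]) rfl rfl
    (List.mem_of_getElem? (i := 130) rfl) TD_fr TD_cov ?_
  · intro X Y h
    simp only [List.forall_mem_cons, List.not_mem_nil, false_imp_iff, implies_true, and_true] at h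
    push_cast at h ⊢
    obtain ⟨h0, h1, h2, h3, h4⟩ := h
    refine ⟨⟨?_, ?_⟩, ?_, ?_⟩ <;> linarith

theorem TD_rg131 : ROK [.l ⟨0, 80, 0, -77⟩ ⟨0, 80, 0, 77⟩, .l ⟨0, -80, 0, 81⟩ ⟨0, 80, 0, 81⟩, .l ⟨0, 80, 0, -77⟩ ⟨0, 339, 1971, 2027⟩, .l ⟨0, 80, 0, -81⟩ ⟨0, 339, 1971, 2027⟩, .l ⟨0, 80, 0, -77⟩ ⟨0, -678, -3942, -4913⟩, .l ⟨0, 80, 0, -81⟩ ⟨0, -678, -3942, -4913⟩] := by
  refine rok_ds (s := 1) (nlo := 77) (nhi := 81) (q := 80) (by decide) (by decide) (by decide) (by decide) (k := 1) (by decide) (Q := [(339, 1971, -2027), (-678, -3942, 4913)])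
    (P := [⟨-2365440, 80, 0⟩, ⟨2488320, -80, 0⟩, ⟨-62269440, 339, 1971⟩, ⟨150927360, -678, -3942⟩]) rfl rfl
    (List.mem_of_getElem? (i := 131) rfl) TD_fr TD_cov ?_
  · intro X Y h
    simp only [List.forall_mem_cons, List.not_mem_nil, false_imp_iff, implies_true, and_true] at h
    push_cast at h ⊢
    obtain ⟨h0, h1, h2, h3⟩ := h
    refine ⟨⟨?_, ?_⟩, ?_, ?_⟩ <;> linarith

theorem TD_rg132 : ROK [.l ⟨0, 480, 0, -406⟩ ⟨0, 480, 0, 406⟩, .l ⟨0, -480, 0, 413⟩ ⟨0, 480, 0, 413⟩, .l ⟨0, 480, 0, -406⟩ ⟨0, -366, 1282, 359⟩, .l ⟨0, 480, 0, -413⟩ ⟨0, -366, 1282, 359⟩, .l ⟨0, 480, 0, -406⟩ ⟨0, 200, -3995, -3163⟩, .l ⟨0, 480, 0, -413⟩ ⟨0, 200, -3995, -3163⟩] := by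
  refine rok_ds (s := 1) (nlo := 406) (nhi := 413) (q := 480) (by decide) (by decide) (by decide) (by decide) (k := 1) (by decide) (Q := [(-366, 1282, -359), (200, -3995, 3163)])
    (P := [⟨-12472320, 480, 0⟩, ⟨12687360, -480, 0⟩, ⟨-11028480, -366, 1282⟩, ⟨97167360, 200, -3995⟩]) rfl rfl
    (List.mem_of_getElem? (i := 132) rfl) TD_fr TD_cov ?_
  · intro X Y h
    simp only [List.forall_mem_cons, List.not_mem_nil, false_imp_iff, implies_true, and_true] at h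
    push_cast at h ⊢
    obtain ⟨h0, h1, h2, h3⟩ := h
    refine ⟨⟨?_, ?_⟩, ?_, ?_⟩ <;> linarith

theorem TD_rg133 : ROK [.l ⟨0, 40, 0, -32⟩ ⟨0, 40, 0, 32⟩, .l ⟨0, -40, 0, 35⟩ ⟨0, 40, 0, 35⟩, .l ⟨0, 40, 0, -32⟩ ⟨0, -2501, 3122, -438⟩, .l ⟨0, 40, 0, -35⟩ ⟨0, -2501, 3122, -438⟩, .l ⟨0, 40, 0, -32⟩ ⟨0, 2501, -3122, 173⟩, .l ⟨0, 40, 0, -35⟩ ⟨0, 2501, -3122, 173⟩, .l ⟨0, 40, 0, -32⟩ ⟨0, 462, 653, 729⟩, .l ⟨0, 40, 0, -35⟩ ⟨0, 462, 653, 729⟩] := by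
  refine rok_ds (s := 1) (nlo := 32) (nhi := 35) (q := 40) (by decide) (by decide) (by decide) (by decide) (k := 1) (by decide) (Q := [(-2501, 3122, 438), (2501, -3122, -173), (462, 653, -729)])
    (P := [⟨-983040, 40, 0⟩, ⟨1075200, -40, 0⟩, ⟨13455360, -2501, 3122⟩, ⟨-5314560, 2501, -3122⟩, ⟨-22394880, 462, 653⟩]) rfl rfl
    (List.mem_of_getElem? (i := 133) rfl) TD_fr TD_cov ?_
  · intro X Y h
    simp only [List.forall_mem_cons, List.not_mem_nil, false_imp_iff, implies_true, and_true] at h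
    push_cast at h ⊢
    obtain ⟨h0, h1, h2, h3, h4⟩ := h
    refine ⟨⟨?_, ?_⟩, ?_, ?_⟩ <;> linarith

theorem TD_rg134 : ROK [.l ⟨0, 80, 0, -69⟩ ⟨0, 80, 0, 69⟩, .l ⟨0, -80, 0, 72⟩ ⟨0, 80, 0, 72⟩, .l ⟨0, 80, 0, -69⟩ ⟨0, 0, 4000, 2101⟩, .l ⟨0, 80, 0, -72⟩ ⟨0, 0, 4000, 2101⟩, .l ⟨0, 80, 0, -69⟩ ⟨0, 879, -3902, -2485⟩, .l ⟨0, 80, 0, -72⟩ ⟨0, 879, -3902, -2485⟩, .l ⟨0, 80, 0, -69⟩ ⟨0, -1507, -3705, -4429⟩, .l ⟨0, 80, 0, -72⟩ ⟨0, -1507, -3705, -4429⟩] := by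
  refine rok_ds (s := 1) (nlo := 69) (nhi := 72) (q := 80) (by decide) (by decide) (by decide) (by decide) (k := 1) (by decide) (Q := [(0, 4000, -2101), (879, -3902, 2485), (-1507, -3705, 4429)])
    (P := [⟨-2119680, 80, 0⟩, ⟨2211840, -80, 0⟩, ⟨-64542720, 0, 4000⟩, ⟨76339200, 879, -3902⟩, ⟨136058880, -1507, -3705⟩]) rfl rfl
    (List.mem_of_getElem? (i := 134) rfl) TD_fr TD_cov ?_
  · intro X Y h
    simp only [List.forall_mem_cons, List.not_mem_nil, false_imp_iff, implies_true, and_true] at h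
    push_cast at h ⊢
    obtain ⟨h0, h1, h2, h3, h4⟩ := h
    refine ⟨⟨?_, ?_⟩, ?_, ?_⟩ <;> linarith

theorem TD_rg135 : ROK [.l ⟨0, 480, 0, -420⟩ ⟨0, 480, 0, 420⟩, .l ⟨0, -480, 0, 427⟩ ⟨0, 480, 0, 427⟩, .l ⟨0, 480, 0, -420⟩ ⟨0, 2290, 3280, -7023⟩, .l ⟨0, 480, 0, -427⟩ ⟨0, 2290, 3280, -7023⟩, .l ⟨0, 480, 0, -420⟩ ⟨0, -1857, -3543, -5416⟩, .l ⟨0, 480, 0, -427⟩ ⟨0, -1857, -3543, -5416⟩, .l ⟨0, 480, 0, -420⟩ ⟨0, 2150, 3373, 4924⟩, .l ⟨0, 480, 0, -427⟩ ⟨0, 2150, 3373, 4924⟩] := by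
  refine rok_ds (s := 1) (nlo := 420) (nhi := 427) (q := 480) (by decide) (by decide) (by decide) (by decide) (k := 1) (by decide) (Q := [(2290, 3280, 7023), (-1857, -3543, 5416), (2150, 3373, -4924)])
    (P := [⟨-12902400, 480, 0⟩, ⟨13117440, -480, 0⟩, ⟨215746560, 2290, 3280⟩, ⟨166379520, -1857, -3543⟩, ⟨-151265280, 2150, 3373⟩]) rfl rfl
    (List.mem_of_getElem? (i := 135) rfl) TD_fr TD_cov ?_
  · intro X Y h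
    simp only [List.forall_mem_cons, List.not_mem_nil, false_imp_iff, implies_true, and_true] at h
    push_cast at h ⊢
    obtain ⟨h0, h1, h2, h3, h4⟩ := h
    refine ⟨⟨?_, ?_⟩, ?_, ?_⟩ <;> linarith

theorem TD_rg136 : ROK [.l ⟨0, 960, 0, -823⟩ ⟨0, 960, 0, 823⟩, .l ⟨0, -960, 0, 830⟩ ⟨0, 960, 0, 830⟩, .l ⟨0, 960, 0, -823⟩ ⟨0, 0, 1000, -2167⟩, .l ⟨0, 960, 0, -830⟩ ⟨0, 0, 1000, -2167⟩, .l ⟨0, 960, 0, -823⟩ ⟨0, 0, -200, -167⟩, .l ⟨0, 960, 0, -830⟩ ⟨0, 0, -200, -167⟩, .l ⟨0, 960, 0, -823⟩ ⟨0, -748, 3929, 1383⟩, .l ⟨0, 960, 0, -830⟩ ⟨0, -748, 3929, 1383⟩] := by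
  refine rok_ds (s := 1) (nlo := 823) (nhi := 830) (q := 960) (by decide) (by decide) (by decide) (by decide) (k := 1) (by decide) (Q := [(0, 1000, 2167), (0, -200, 167), (-748, 3929, -1383)])
    (P := [⟨-25282560, 960, 0⟩, ⟨25497600, -960, 0⟩, ⟨66570240, 0, 1000⟩, ⟨5130240, 0, -200⟩, ⟨-42485760, -748, 3929⟩]) rfl rfl
    (List.mem_of_getElem? (i := 136) rfl) TD_fr TD_cov ?_
  · intro X Y h
    simp only [List.forall_mem_cons, List.not_mem_nil, false_imp_iff, implies_true, and_true] at h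
    push_cast at h ⊢
    obtain ⟨h0, h1, h2, h3, h4⟩ := h
    refine ⟨⟨?_, ?_⟩, ?_, ?_⟩ <;> linarith

theorem TD_rg137 : ROK [.l ⟨0, 80, 0, -67⟩ ⟨0, 80, 0, 67⟩, .l ⟨0, -80, 0, 71⟩ ⟨0, 80, 0, 71⟩, .l ⟨0, 80, 0, -67⟩ ⟨0, 1489, 3713, 4651⟩, .l ⟨0, 80, 0, -71⟩ ⟨0, 1489, 3713, 4651⟩, .l ⟨0, 80, 0, -67⟩ ⟨0, -1489, -3713, -5185⟩, .l ⟨0, 80, 0, -71⟩ ⟨0, -1489, -3713, -5185⟩] := by
  refine rok_ds (s := 1) (nlo := 67) (nhi := 71) (q := 80) (by decide) (by decide) (by decide) (by decide) (k := 1) (by decide) (Q := [(1489, 3713, -4651), (-1489, -3713, 5185)])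
    (P := [⟨-2058240, 80, 0⟩, ⟨2181120, -80, 0⟩, ⟨-142878720, 1489, 3713⟩, ⟨159283200, -1489, -3713⟩]) rfl rfl
    (List.mem_of_getElem? (i := 137) rfl) TD_fr TD_cov ?_
  · intro X Y h
    simp only [List.forall_mem_cons, List.not_mem_nil, false_imp_iff, implies_true, and_true] at h
    push_cast at h ⊢
    obtain ⟨h0, h1, h2, h3⟩ := h
    refine ⟨⟨?_, ?_⟩, ?_, ?_⟩ <;> linarith

theorem TD_rg138 : ROK [.l ⟨0, 40, 0, -35⟩ ⟨0, 40, 0, 35⟩, .l ⟨0, -40, 0, 36⟩ ⟨0, 40, 0, 36⟩, .l ⟨0, 40, 0, -35⟩ ⟨0, 0, 2000, -3629⟩, .l ⟨0, 40, 0, -36⟩ ⟨0, 0, 2000, -3629⟩, .l ⟨0, 40, 0, -35⟩ ⟨0, 639, -3949, -2734⟩, .l ⟨0, 40, 0, -36⟩ ⟨0, 639, -3949, -2734⟩, .l ⟨0, 40, 0, -35⟩ ⟨0, 3195, 2406, 4082⟩, .l ⟨0, 40, 0, -36⟩ ⟨0, 3195, 2406, 4082⟩, .l ⟨0, 40, 0, -35⟩ ⟨0, -3668, -1596, -4597⟩, .l ⟨0, 40, 0, -36⟩ ⟨0, -3668, -1596, -4597⟩]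 := by
  refine rok_ds (s := 1) (nlo := 35) (nhi := 36) (q := 40) (by decide) (by decide) (by decide) (by decide) (k := 1) (by decide) (Q := [(0, 2000, 3629), (639, -3949, 2734), (3195, 2406, -4082), (-3668, -1596, 4597)])
    (P := [⟨-1075200, 40, 0⟩, ⟨1105920, -40, 0⟩, ⟨111482880, 0, 2000⟩, ⟨83988480, 639, -3949⟩, ⟨-125399040, 3195, 2406⟩, ⟨141219840, -3668, -1596⟩]) rfl rfl
    (List.mem_of_getElem? (i := 138) rfl) TD_fr TD_cov ?_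
  · intro X Y h
    simp only [List.forall_mem_cons, List.not_mem_nil, false_imp_iff, implies_true, and_true] at h
    push_cast at h ⊢
    obtain ⟨h0, h1, h2, h3, h4, h5⟩ := h
    refine ⟨⟨?_, ?_⟩, ?_, ?_⟩ <;> linarith

theorem TD_rg139 : ROK [.l ⟨0, 80, 0, -67⟩ ⟨0, 80, 0, 67⟩, .l ⟨0, -80, 0, 70⟩ ⟨0, 80, 0, 70⟩, .l ⟨0, 80, 0, -67⟩ ⟨0, 421, 1955, 2137⟩, .l ⟨0, 80, 0, -70⟩ ⟨0, 421, 1955, 2137⟩, .l ⟨0, 80, 0, -67⟩ ⟨0, -421, -1955, -2426⟩, .l ⟨0, 80, 0, -70⟩ ⟨0, -421, -1955, -2426⟩] := by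
  refine rok_ds (s := 1) (nlo := 67) (nhi := 70) (q := 80) (by decide) (by decide) (by decide) (by decide) (k := 1) (by decide) (Q := [(421, 1955, -2137), (-421, -1955, 2426)])
    (P := [⟨-2058240, 80, 0⟩, ⟨2150400, -80, 0⟩, ⟨-65648640, 421, 1955⟩, ⟨74526720, -421, -1955⟩]) rfl rfl
    (List.mem_of_getElem? (i := 139) rfl) TD_fr TD_cov ?_
  · intro X Y h
    simp only [List.forall_mem_cons, List.not_mem_nil, false_imp_iff, implies_true, and_true] at h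
    push_cast at h ⊢
    obtain ⟨h0, h1, h2, h3⟩ := h
    refine ⟨⟨?_, ?_⟩, ?_, ?_⟩ <;> linarith

theorem TD_rg140 : ROK [.l ⟨0, 80, 0, -68⟩ ⟨0, 80, 0, 68⟩, .l ⟨0, -80, 0, 71⟩ ⟨0, 80, 0, 71⟩, .l ⟨0, 80, 0, -68⟩ ⟨0, 0, 4000, 3601⟩, .l ⟨0, 80, 0, -71⟩ ⟨0, 0, 4000, 3601⟩, .l ⟨0, 80, 0, -68⟩ ⟨0, 137, -3998, -4136⟩, .l ⟨0, 80, 0, -71⟩ ⟨0, 137, -3998, -4136⟩, .l ⟨0, 80, 0, -68⟩ ⟨0, 3125, 2497, 4957⟩, .l ⟨0, 80, 0, -71⟩ ⟨0, 3125, 2497, 4957⟩] := by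
  refine rok_ds (s := 1) (nlo := 68) (nhi := 71) (q := 80) (by decide) (by decide) (by decide) (by decide) (k := 1) (by decide) (Q := [(0, 4000, -3601), (137, -3998, 4136), (3125, 2497, -4957)])
    (P := [⟨-2088960, 80, 0⟩, ⟨2181120, -80, 0⟩, ⟨-110622720, 0, 4000⟩, ⟨127057920, 137, -3998⟩, ⟨-152279040, 3125, 2497⟩]) rfl rfl
    (List.mem_of_getElem? (i := 140) rfl) TD_fr TD_cov ?_
  · intro X Y h
    simp only [List.forall_mem_cons, List.not_mem_nil, false_imp_iff, implies_true, and_true] at h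
    push_cast at h ⊢
    obtain ⟨h0, h1, h2, h3, h4⟩ := h
    refine ⟨⟨?_, ?_⟩, ?_, ?_⟩ <;> linarith

theorem TD_rg141 : ROK [.l ⟨0, 40, 0, -34⟩ ⟨0, 40, 0, 34⟩, .l ⟨0, -40, 0, 37⟩ ⟨0, 40, 0, 37⟩, .l ⟨0, 40, 0, -34⟩ ⟨0, -220, 3994, 1905⟩, .l ⟨0, 40, 0, -37⟩ ⟨0, -220, 3994, 1905⟩, .l ⟨0, 40, 0, -34⟩ ⟨0, 220, -3994, -3143⟩, .l ⟨0, 40, 0, -37⟩ ⟨0, 220, -3994, -3143⟩, .l ⟨0, 40, 0, -34⟩ ⟨0, -2935, -2718, -4881⟩, .l ⟨0, 40, 0, -37⟩ ⟨0, -2935, -2718, -4881⟩] := by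
  refine rok_ds (s := 1) (nlo := 34) (nhi := 37) (q := 40) (by decide) (by decide) (by decide) (by decide) (k := 1) (by decide) (Q := [(-220, 3994, -1905), (220, -3994, 3143), (-2935, -2718, 4881)])
    (P := [⟨-1044480, 40, 0⟩, ⟨1136640, -40, 0⟩, ⟨-58521600, -220, 3994⟩, ⟨96552960, 220, -3994⟩, ⟨149944320, -2935, -2718⟩]) rfl rfl
    (List.mem_of_getElem? (i := 141) rfl) TD_fr TD_cov ?_
  · intro X Y h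
    simp only [List.forall_mem_cons, List.not_mem_nil, false_imp_iff, implies_true, and_true] at h
    push_cast at h ⊢
    obtain ⟨h0, h1, h2, h3, h4⟩ := h
    refine ⟨⟨?_, ?_⟩, ?_, ?_⟩ <;> linarith

theorem TD_rg142 : ROK [.l ⟨0, 960, 0, -816⟩ ⟨0, 960, 0, 816⟩, .l ⟨0, -960, 0, 823⟩ ⟨0, 960, 0, 823⟩, .l ⟨0, 960, 0, -816⟩ ⟨0, 0, 2000, 1039⟩, .l ⟨0, 960, 0, -823⟩ ⟨0, 0, 2000, 1039⟩, .l ⟨0, 960, 0, -816⟩ ⟨0, 346, -3985, -3031⟩, .l ⟨0, 960, 0, -823⟩ ⟨0, 346, -3985, -3031⟩] := by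
  refine rok_ds (s := 1) (nlo := 816) (nhi := 823) (q := 960) (by decide) (by decide) (by decide) (by decide) (k := 1) (by decide) (Q := [(0, 2000, -1039), (346, -3985, 3031)])
    (P := [⟨-25067520, 960, 0⟩, ⟨25282560, -960, 0⟩, ⟨-31918080, 0, 2000⟩, ⟨93112320, 346, -3985⟩]) rfl rfl
    (List.mem_of_getElem? (i := 142) rfl) TD_fr TD_cov ?_
  · intro X Y h
    simp only [List.forall_mem_cons, List.not_mem_nil, false_imp_iff, implies_true, and_true] at h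
    push_cast at h ⊢
    obtain ⟨h0, h1, h2, h3⟩ := h
    refine ⟨⟨?_, ?_⟩, ?_, ?_⟩ <;> linarith

theorem TD_rg143 : ROK [.l ⟨0, 80, 0, -70⟩ ⟨0, 80, 0, 70⟩, .l ⟨0, -80, 0, 73⟩ ⟨0, 80, 0, 73⟩, .l ⟨0, 80, 0, -70⟩ ⟨0, -569, 3959, 3030⟩, .l ⟨0, 80, 0, -73⟩ ⟨0, -569, 3959, 3030⟩, .l ⟨0, 80, 0, -70⟩ ⟨0, -492, -3970, -4679⟩, .l ⟨0, 80, 0, -73⟩ ⟨0, -492, -3970, -4679⟩, .l ⟨0, 80, 0, -70⟩ ⟨0, 1427, 1401, 2519⟩, .l ⟨0, 80, 0, -73⟩ ⟨0, 1427, 1401, 2519⟩] := by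
  refine rok_ds (s := 1) (nlo := 70) (nhi := 73) (q := 80) (by decide) (by decide) (by decide) (by decide) (k := 1) (by decide) (Q := [(-569, 3959, -3030), (-492, -3970, 4679), (1427, 1401, -2519)])
    (P := [⟨-2150400, 80, 0⟩, ⟨2242560, -80, 0⟩, ⟨-93081600, -569, 3959⟩, ⟨143738880, -492, -3970⟩, ⟨-77383680, 1427, 1401⟩]) rfl rfl
    (List.mem_of_getElem? (i := 143) rfl) TD_fr TD_cov ?_
  · intro X Y h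
    simp only [List.forall_mem_cons, List.not_mem_nil, false_imp_iff, implies_true, and_true] at h
    push_cast at h ⊢
    obtain ⟨h0, h1, h2, h3, h4⟩ := h
    refine ⟨⟨?_, ?_⟩, ?_, ?_⟩ <;> linarith

end Pool.Agent.TET
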