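import Pool.Agent.Helper38_TET.TD_C

/-!
# MP_c7c9bf_co: certificates, family TD
-/

set_option autoImplicit false
set_option maxRecDepth 100000

namespace Pool.Agent.TET

theorem TD_rg144 : ROK [.l ⟨0, 40, 0, -39⟩ ⟨0, 40, 0, 39⟩, .l ⟨0, -40, 0, 41⟩ ⟨0, 40, 0, 41⟩, .l ⟨0, 40, 0, -39⟩ ⟨0, 188, 1991, 1884⟩, .l ⟨0, 40, 0, -41⟩ ⟨0, 188, 1991, 1884⟩, .l ⟨0, 40, 0, -39⟩ ⟨0, -2450, -3162, -5803⟩, .l ⟨0, 40, 0, -41⟩ ⟨0, -2450, -3162, -5803⟩] := by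
  refine rok_ds (s := 1) (nlo := 39) (nhi := 41) (q := 40) (by decide) (by decide) (by decide) (by decide) (k := 1) (by decide) (Q := [(188, 1991, -1884), (-2450, -3162, 5803)])
    (P := [⟨-1198080, 40, 0⟩, ⟨1259520, -40, 0⟩, ⟨-57876480, 188, 1991⟩, ⟨178268160, -2450, -3162⟩]) rfl rfl
    (List.mem_of_getElem? (i := 144) rfl) TD_fr TD_cov ?_
  · intro X Y h
    simp only [List.forall_mem_cons, List.not_mem_nil, false_imp_iff, implies_true, and_true] at h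
    push_cast at h ⊢
    obtain ⟨h0, h1, h2, h3⟩ := h
    refine ⟨⟨?_, ?_⟩, ?_, ?_⟩ <;> linarith

theorem TD_rg145 : ROK [.l ⟨0, 480, 0, -423⟩ ⟨0, 480, 0, 423⟩, .l ⟨0, -480, 0, 433⟩ ⟨0, 480, 0, 433⟩, .l ⟨0, 480, 0, -423⟩ ⟨0, -3, 4000, 3573⟩, .l ⟨0, 480, 0, -433⟩ ⟨0, -3, 4000, 3573⟩, .l ⟨0, 480, 0, -423⟩ ⟨0, -1751, -3596, -5395⟩, .l ⟨0, 480, 0, -433⟩ ⟨0, -1751, -3596, -5395⟩, .l ⟨0, 480, 0, -423⟩ ⟨0, 2655, 2992, 5028⟩, .l ⟨0, 480, 0, -433⟩ ⟨0, 2655, 2992, 5028⟩] := by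
  refine rok_ds (s := 1) (nlo := 423) (nhi := 433) (q := 480) (by decide) (by decide) (by decide) (by decide) (k := 1) (by decide) (Q := [(-3, 4000, -3573), (-1751, -3596, 5395), (2655, 2992, -5028)])
    (P := [⟨-12994560, 480, 0⟩, ⟨13301760, -480, 0⟩, ⟨-109762560, -3, 4000⟩, ⟨165734400, -1751, -3596⟩, ⟨-154460160, 2655, 2992⟩]) rfl rfl
    (List.mem_of_getElem? (i := 145) rfl) TD_fr TD_cov ?_
  · intro X Y h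
    simp only [List.forall_mem_cons, List.not_mem_nil, false_imp_iff, implies_true, and_true] at h
    push_cast at h ⊢
    obtain ⟨h0, h1, h2, h3, h4⟩ := h
    refine ⟨⟨?_, ?_⟩, ?_, ?_⟩ <;> linarith

theorem TD_rg146 : ROK [.l ⟨0, 40, 0, -27⟩ ⟨0, 40, 0, 27⟩, .l ⟨0, -40, 0, 31⟩ ⟨0, 40, 0, 31⟩, .l ⟨0, 40, 0, -27⟩ ⟨0, 0, 1000, 723⟩, .l ⟨0, 40, 0, -31⟩ ⟨0, 0, 1000, 723⟩, .l ⟨0, 40, 0, -27⟩ ⟨0, 548, -3962, -2841⟩, .l ⟨0, 40, 0, -31⟩ ⟨0, 548, -3962, -2841⟩, .l ⟨0, 40, 0, -27⟩ ⟨0, 2993, 2654, 4156⟩, .l ⟨0, 40, 0, -31⟩ ⟨0, 2993, 2654, 4156⟩] := by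
  refine rok_ds (s := 1) (nlo := 27) (nhi := 31) (q := 40) (by decide) (by decide) (by decide) (by decide) (k := 1) (by decide) (Q := [(0, 1000, -723), (548, -3962, 2841), (2993, 2654, -4156)])
    (P := [⟨-829440, 40, 0⟩, ⟨952320, -40, 0⟩, ⟨-22210560, 0, 1000⟩, ⟨87275520, 548, -3962⟩, ⟨-127672320, 2993, 2654⟩]) rfl rfl
    (List.mem_of_getElem? (i := 146) rfl) TD_fr TD_cov ?_
  · intro X Y h
    simp only [List.forall_mem_cons, List.not_mem_nil, false_imp_iff, implies_true, and_true] at h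
    push_cast at h ⊢
    obtain ⟨h0, h1, h2, h3, h4⟩ := h
    refine ⟨⟨?_, ?_⟩, ?_, ?_⟩ <;> linarith

theorem TD_rg147 : ROK [.l ⟨0, 20, 0, -16⟩ ⟨0, 20, 0, 16⟩, .l ⟨0, -20, 0, 19⟩ ⟨0, 20, 0, 19⟩, .l ⟨0, 20, 0, -16⟩ ⟨0, -2212, 3333, -12091⟩, .l ⟨0, 20, 0, -19⟩ ⟨0, -2212, 3333, -12091⟩, .l ⟨0, 20, 0, -16⟩ ⟨0, 315, -3988, -13133⟩, .l ⟨0, 20, 0, -19⟩ ⟨0, 315, -3988, -13133⟩, .l ⟨0, 20, 0, -16⟩ ⟨0, 1873, 3534, 3495⟩, .l ⟨0, 20, 0, -19⟩ ⟨0, 1873, 3534, 3495⟩, .l ⟨0, 20, 0, -16⟩ ⟨0, 2905, -2750, 714⟩, .l ⟨0, 20, 0, -19⟩ ⟨0, 2905, -2750, 714⟩] := by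
  refine rok_ds (s := 1) (nlo := 16) (nhi := 19) (q := 20) (by decide) (by decide) (by decide) (by decide) (k := 1) (by decide) (Q := [(-2212, 3333, 12091), (315, -3988, 13133), (1873, 3534, -3495), (2905, -2750, -714)])
    (P := [⟨-491520, 20, 0⟩, ⟨583680, -20, 0⟩, ⟨371435520, -2212, 3333⟩, ⟨403445760, 315, -3988⟩, ⟨-107366400, 1873, 3534⟩, ⟨-21934080, 2905, -2750⟩]) rfl rfl
    (List.mem_of_getElem? (i := 147) rfl) TD_fr TD_cov ?_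
  · intro X Y h
    simp only [List.forall_mem_cons, List.not_mem_nil, false_imp_iff, implies_true, and_true] at h
    push_cast at h ⊢
    obtain ⟨h0, h1, h2, h3, h4, h5⟩ := h
    refine ⟨⟨?_, ?_⟩, ?_, ?_⟩ <;> linarith

theorem TD_rg148 : ROK [.l ⟨0, 480, 0, -410⟩ ⟨0, 480, 0, 410⟩, .l ⟨0, -480, 0, 417⟩ ⟨0, 480, 0, 417⟩, .l ⟨0, 480, 0, -410⟩ ⟨0, 0, 2000, -4331⟩, .l ⟨0, 480, 0, -417⟩ ⟨0, 0, 2000, -4331⟩, .l ⟨0, 480, 0, -410⟩ ⟨0, 0, -4000, -3343⟩, .l ⟨0, 480, 0, -417⟩ ⟨0, 0, -4000, -3343⟩, .l ⟨0, 480, 0, -410⟩ ⟨0, -1460, 1367, -540⟩, .l ⟨0, 480, 0, -417⟩ ⟨0, -1460, 1367, -540⟩, .l ⟨0, 480, 0, -410⟩ ⟨0, 712, -1869, -948⟩, .l ⟨0, 480, 0, -417⟩ ⟨0, 712, -1869, -948⟩] := by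
  refine rok_ds (s := 1) (nlo := 410) (nhi := 417) (q := 480) (by decide) (by decide) (by decide) (by decide) (k := 1) (by decide) (Q := [(0, 2000, 4331), (0, -4000, 3343), (-1460, 1367, 540), (712, -1869, 948)])
    (P := [⟨-12595200, 480, 0⟩, ⟨12810240, -480, 0⟩, ⟨133048320, 0, 2000⟩, ⟨102696960, 0, -4000⟩, ⟨16588800, -1460, 1367⟩, ⟨29122560, 712, -1869⟩]) rfl rfl
    (List.mem_of_getElem? (i := 148) rfl) TD_fr TD_cov ?_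
  · intro X Y h
    simp only [List.forall_mem_cons, List.not_mem_nil, false_imp_iff, implies_true, and_true] at h
    push_cast at h ⊢
    obtain ⟨h0, h1, h2, h3, h4, h5⟩ := h
    refine ⟨⟨?_, ?_⟩, ?_, ?_⟩ <;> linarith

theorem TD_rg149 : ROK [.l ⟨0, 240, 0, -205⟩ ⟨0, 240, 0, 205⟩, .l ⟨0, -240, 0, 209⟩ ⟨0, 240, 0, 209⟩, .l ⟨0, 240, 0, -205⟩ ⟨0, 0, 50, -109⟩, .l ⟨0, 240, 0, -209⟩ ⟨0, 0, 50, -109⟩, .l ⟨0, 240, 0, -205⟩ ⟨0, 0, -200, -167⟩, .l ⟨0, 240, 0, -209⟩ ⟨0, 0, -200, -167⟩, .l ⟨0, 240, 0, -205⟩ ⟨0, -3346, 2191, -1725⟩, .l ⟨0, 240, 0, -209⟩ ⟨0, -3346, 2191, -1725⟩] := by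
  refine rok_ds (s := 1) (nlo := 205) (nhi := 209) (q := 240) (by decide) (by decide) (by decide) (by decide) (k := 1) (by decide) (Q := [(0, 50, 109), (0, -200, 167), (-3346, 2191, 1725)])
    (P := [⟨-6297600, 240, 0⟩, ⟨6420480, -240, 0⟩, ⟨3348480, 0, 50⟩, ⟨5130240, 0, -200⟩, ⟨52992000, -3346, 2191⟩]) rfl rfl
    (List.mem_of_getElem? (i := 149) rfl) TD_fr TD_cov ?_
  · intro X Y h
    simp only [List.forall_mem_cons, List.not_mem_nil, false_imp_iff, implies_true, and_true] at h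
    push_cast at h ⊢
    obtain ⟨h0, h1, h2, h3, h4⟩ := h
    refine ⟨⟨?_, ?_⟩, ?_, ?_⟩ <;> linarith

theorem TD_rg150 : ROK [.l ⟨0, 80, 0, -58⟩ ⟨0, 80, 0, 58⟩, .l ⟨0, -80, 0, 61⟩ ⟨0, 80, 0, 61⟩, .l ⟨0, 80, 0, -58⟩ ⟨0, 2236, 3317, 4080⟩, .l ⟨0, 80, 0, -61⟩ ⟨0, 2236, 3317, 4080⟩, .l ⟨0, 80, 0, -58⟩ ⟨0, 1824, -3560, -1553⟩, .l ⟨0, 80, 0, -61⟩ ⟨0, 1824, -3560, -1553⟩, .l ⟨0, 80, 0, -58⟩ ⟨0, 3390, 2123, 4057⟩, .l ⟨0, 80, 0, -61⟩ ⟨0, 3390, 2123, 4057⟩] := by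
  refine rok_ds (s := 1) (nlo := 58) (nhi := 61) (q := 80) (by decide) (by decide) (by decide) (by decide) (k := 1) (by decide) (Q := [(2236, 3317, -4080), (1824, -3560, 1553), (3390, 2123, -4057)])
    (P := [⟨-1781760, 80, 0⟩, ⟨1873920, -80, 0⟩, ⟨-125337600, 2236, 3317⟩, ⟨47708160, 1824, -3560⟩, ⟨-124631040, 3390, 2123⟩]) rfl rfl
    (List.mem_of_getElem? (i := 150) rfl) TD_fr TD_cov ?_
  · intro X Y h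
    simp only [List.forall_mem_cons, List.not_mem_nil, false_imp_iff, implies_true, and_true] at h
    push_cast at h ⊢
    obtain ⟨h0, h1, h2, h3, h4⟩ := h
    refine ⟨⟨?_, ?_⟩, ?_, ?_⟩ <;> linarith

theorem TD_rg151 : ROK [.l ⟨0, 20, 0, -16⟩ ⟨0, 20, 0, 16⟩, .l ⟨0, -20, 0, 17⟩ ⟨0, 20, 0, 17⟩, .l ⟨0, 20, 0, -16⟩ ⟨0, 0, 4000, 2667⟩, .l ⟨0, 20, 0, -17⟩ ⟨0, 0, 4000, 2667⟩, .l ⟨0, 20, 0, -16⟩ ⟨0, 416, -3978, -2959⟩, .l ⟨0, 20, 0, -17⟩ ⟨0, 416, -3978, -2959⟩] := by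
  refine rok_ds (s := 1) (nlo := 16) (nhi := 17) (q := 20) (by decide) (by decide) (by decide) (by decide) (k := 1) (by decide) (Q := [(0, 4000, -2667), (416, -3978, 2959)])
    (P := [⟨-491520, 20, 0⟩, ⟨522240, -20, 0⟩, ⟨-81930240, 0, 4000⟩, ⟨90900480, 416, -3978⟩]) rfl rfl
    (List.mem_of_getElem? (i := 151) rfl) TD_fr TD_cov ?_
  · intro X Y h
    simp only [List.forall_mem_cons, List.not_mem_nil, false_imp_iff, implies_true, and_true] at h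
    push_cast at h ⊢
    obtain ⟨h0, h1, h2, h3⟩ := h
    refine ⟨⟨?_, ?_⟩, ?_, ?_⟩ <;> linarith

theorem TD_rg152 : ROK [.l ⟨0, 40, 0, -38⟩ ⟨0, 40, 0, 38⟩, .l ⟨0, -40, 0, 41⟩ ⟨0, 40, 0, 41⟩, .l ⟨0, 40, 0, -38⟩ ⟨0, 1090, 3849, 2901⟩, .l ⟨0, 40, 0, -41⟩ ⟨0, 1090, 3849, 2901⟩, .l ⟨0, 40, 0, -38⟩ ⟨0, 372, -3983, -2903⟩, .l ⟨0, 40, 0, -41⟩ ⟨0, 372, -3983, -2903⟩] := by
  refine rok_ds (s := 1) (nlo := 38) (nhi := 41) (q := 40) (by decide) (by decide) (by decide) (by decide) (k := 1) (by decide) (Q := [(1090, 3849, -2901), (372, -3983, 2903)])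
    (P := [⟨-1167360, 40, 0⟩, ⟨1259520, -40, 0⟩, ⟨-89118720, 1090, 3849⟩, ⟨89180160, 372, -3983⟩]) rfl rfl
    (List.mem_of_getElem? (i := 152) rfl) TD_fr TD_cov ?_
  · intro X Y h
    simp only [List.forall_mem_cons, List.not_mem_nil, false_imp_iff, implies_true, and_true] at h
    push_cast at h ⊢
    obtain ⟨h0, h1, h2, h3⟩ := h
    refine ⟨⟨?_, ?_⟩, ?_, ?_⟩ <;> linarith

theorem TD_rg153 : ROK [.l ⟨0, 20, 0, -15⟩ ⟨0, 20, 0, 15⟩, .l ⟨0, -20, 0, 17⟩ ⟨0, 20, 0, 17⟩, .l ⟨0, 20, 0, -15⟩ ⟨0, 716, 3935, 3369⟩, .l ⟨0, 20, 0, -17⟩ ⟨0, 716, 3935, 3369⟩, .l ⟨0, 20, 0, -15⟩ ⟨0, -716, -3935, -3788⟩, .l ⟨0, 20, 0, -17⟩ ⟨0, -716, -3935, -3788⟩] := by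
  refine rok_ds (s := 1) (nlo := 15) (nhi := 17) (q := 20) (by decide) (by decide) (by decide) (by decide) (k := 1) (by decide) (Q := [(716, 3935, -3369), (-716, -3935, 3788)])
    (P := [⟨-460800, 20, 0⟩, ⟨522240, -20, 0⟩, ⟨-103495680, 716, 3935⟩, ⟨116367360, -716, -3935⟩]) rfl rfl
    (List.mem_of_getElem? (i := 153) rfl) TD_fr TD_cov ?_
  · intro X Y h
    simp only [List.forall_mem_cons, List.not_mem_nil, false_imp_iff, implies_true, and_true] at h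
    push_cast at h ⊢
    obtain ⟨h0, h1, h2, h3⟩ := h
    refine ⟨⟨?_, ?_⟩, ?_, ?_⟩ <;> linarith

theorem TD_rg154 : ROK [.l ⟨0, 40, 0, -36⟩ ⟨0, 40, 0, 36⟩, .l ⟨0, -40, 0, 39⟩ ⟨0, 40, 0, 39⟩, .l ⟨0, 40, 0, -36⟩ ⟨0, 88, 3999, -8831⟩, .l ⟨0, 40, 0, -39⟩ ⟨0, 88, 3999, -8831⟩, .l ⟨0, 40, 0, -36⟩ ⟨0, -80, -796, -737⟩, .l ⟨0, 40, 0, -39⟩ ⟨0, -80, -796, -737⟩, .l ⟨0, 40, 0, -36⟩ ⟨0, 1096, 3847, 2915⟩, .l ⟨0, 40, 0, -39⟩ ⟨0, 1096, 3847, 2915⟩] := by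
  refine rok_ds (s := 1) (nlo := 36) (nhi := 39) (q := 40) (by decide) (by decide) (by decide) (by decide) (k := 1) (by decide) (Q := [(88, 3999, 8831), (-80, -796, 737), (1096, 3847, -2915)])
    (P := [⟨-1105920, 40, 0⟩, ⟨1198080, -40, 0⟩, ⟨271288320, 88, 3999⟩, ⟨22640640, -80, -796⟩, ⟨-89548800, 1096, 3847⟩]) rfl rfl
    (List.mem_of_getElem? (i := 154) rfl) TD_fr TD_cov ?_
  · intro X Y h
    simp only [List.forall_mem_cons, List.not_mem_nil, false_imp_iff, implies_true, and_true] at h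
    push_cast at h ⊢
    obtain ⟨h0, h1, h2, h3, h4⟩ := h
    refine ⟨⟨?_, ?_⟩, ?_, ?_⟩ <;> linarith

theorem TD_rg155 : ROK [.l ⟨0, 40, 0, -33⟩ ⟨0, 40, 0, 33⟩, .l ⟨0, -40, 0, 34⟩ ⟨0, 40, 0, 34⟩, .l ⟨0, 40, 0, -33⟩ ⟨0, 0, 4000, 2573⟩, .l ⟨0, 40, 0, -34⟩ ⟨0, 0, 4000, 2573⟩, .l ⟨0, 40, 0, -33⟩ ⟨0, 651, -3947, -2739⟩, .l ⟨0, 40, 0, -34⟩ ⟨0, 651, -3947, -2739⟩] := by
  refine rok_ds (s := 1) (nlo := 33) (nhi := 34) (q := 40) (by decide) (by decide) (by decide) (by decide) (k := 1) (by decide) (Q := [(0, 4000, -2573), (651, -3947, 2739)])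
    (P := [⟨-1013760, 40, 0⟩, ⟨1044480, -40, 0⟩, ⟨-79042560, 0, 4000⟩, ⟨84142080, 651, -3947⟩]) rfl rfl
    (List.mem_of_getElem? (i := 155) rfl) TD_fr TD_cov ?_
  · intro X Y h
    simp only [List.forall_mem_cons, List.not_mem_nil, false_imp_iff, implies_true, and_true] at h
    push_cast at h ⊢
    obtain ⟨h0, h1, h2, h3⟩ := h
    refine ⟨⟨?_, ?_⟩, ?_, ?_⟩ <;> linarith

theorem TD_rg156 : ROK [.l ⟨0, 80, 0, -69⟩ ⟨0, 80, 0, 69⟩, .l ⟨0, -80, 0, 73⟩ ⟨0, 80, 0, 73⟩, .l ⟨0, 80, 0, -69⟩ ⟨0, 252, 3992, -6221⟩, .l ⟨0, 80, 0, -73⟩ ⟨0, 252, 3992, -6221⟩, .l ⟨0, 80, 0, -69⟩ ⟨0, -63, -998, -888⟩, .l ⟨0, 80, 0, -73⟩ ⟨0, -63, -998, -888⟩, .l ⟨0, 80, 0, -69⟩ ⟨0, 526, 3965, 2543⟩, .l ⟨0, 80, 0, -73⟩ ⟨0, 526, 3965, 2543⟩] := by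
  refine rok_ds (s := 1) (nlo := 69) (nhi := 73) (q := 80) (by decide) (by decide) (by decide) (by decide) (k := 1) (by decide) (Q := [(252, 3992, 6221), (-63, -998, 888), (526, 3965, -2543)])
    (P := [⟨-2119680, 80, 0⟩, ⟨2242560, -80, 0⟩, ⟨191109120, 252, 3992⟩, ⟨27279360, -63, -998⟩, ⟨-78120960, 526, 3965⟩]) rfl rfl
    (List.mem_of_getElem? (i := 156) rfl) TD_fr TD_cov ?_
  · intro X Y h
    simp only [List.forall_mem_cons, List.not_mem_nil, false_imp_iff, implies_true, and_true] at h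
    push_cast at h ⊢
    obtain ⟨h0, h1, h2, h3, h4⟩ := h
    refine ⟨⟨?_, ?_⟩, ?_, ?_⟩ <;> linarith

theorem TD_rg157 : ROK [.l ⟨0, 480, 0, -347⟩ ⟨0, 480, 0, 347⟩, .l ⟨0, -480, 0, 356⟩ ⟨0, 480, 0, 356⟩, .l ⟨0, 480, 0, -347⟩ ⟨0, -1288, 1530, -3947⟩, .l ⟨0, 480, 0, -356⟩ ⟨0, -1288, 1530, -3947⟩, .l ⟨0, 480, 0, -347⟩ ⟨0, 1288, -1530, -309⟩, .l ⟨0, 480, 0, -356⟩ ⟨0, 1288, -1530, -309⟩, .l ⟨0, 480, 0, -347⟩ ⟨0, 2873, 2783, 4163⟩, .l ⟨0, 480, 0, -356⟩ ⟨0, 2873, 2783, 4163⟩] := by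
  refine rok_ds (s := 1) (nlo := 347) (nhi := 356) (q := 480) (by decide) (by decide) (by decide) (by decide) (k := 1) (by decide) (Q := [(-1288, 1530, 3947), (1288, -1530, 309), (2873, 2783, -4163)])
    (P := [⟨-10659840, 480, 0⟩, ⟨10936320, -480, 0⟩, ⟨121251840, -1288, 1530⟩, ⟨9492480, 1288, -1530⟩, ⟨-127887360, 2873, 2783⟩]) rfl rfl
    (List.mem_of_getElem? (i := 157) rfl) TD_fr TD_cov ?_
  · intro X Y h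
    simp only [List.forall_mem_cons, List.not_mem_nil, false_imp_iff, implies_true, and_true] at h
    push_cast at h ⊢
    obtain ⟨h0, h1, h2, h3, h4⟩ := h
    refine ⟨⟨?_, ?_⟩, ?_, ?_⟩ <;> linarith

theorem TD_rg158 : ROK [.l ⟨0, 80, 0, -69⟩ ⟨0, 80, 0, 69⟩, .l ⟨0, -80, 0, 72⟩ ⟨0, 80, 0, 72⟩, .l ⟨0, 80, 0, -69⟩ ⟨0, -2671, 2977, -773⟩, .l ⟨0, 80, 0, -72⟩ ⟨0, -2671, 2977, -773⟩, .l ⟨0, 80, 0, -69⟩ ⟨0, -517, -3966, -3760⟩, .l ⟨0, 80, 0, -72⟩ ⟨0, -517, -3966, -3760⟩] := by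
  refine rok_ds (s := 1) (nlo := 69) (nhi := 72) (q := 80) (by decide) (by decide) (by decide) (by decide) (k := 1) (by decide) (Q := [(-2671, 2977, 773), (-517, -3966, 3760)])
    (P := [⟨-2119680, 80, 0⟩, ⟨2211840, -80, 0⟩, ⟨23746560, -2671, 2977⟩, ⟨115507200, -517, -3966⟩]) rfl rfl
    (List.mem_of_getElem? (i := 158) rfl) TD_fr TD_cov ?_
  · intro X Y h
    simp only [List.forall_mem_cons, List.not_mem_nil, false_imp_iff, implies_true, and_true] at h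
    push_cast at h ⊢
    obtain ⟨h0, h1, h2, h3⟩ := h
    refine ⟨⟨?_, ?_⟩, ?_, ?_⟩ <;> linarith

theorem TD_rg159 : ROK [.l ⟨0, 40, 0, -31⟩ ⟨0, 40, 0, 31⟩, .l ⟨0, -40, 0, 35⟩ ⟨0, 40, 0, 35⟩, .l ⟨0, 40, 0, -31⟩ ⟨0, 831, 3913, 3344⟩, .l ⟨0, 40, 0, -35⟩ ⟨0, 831, 3913, 3344⟩, .l ⟨0, 40, 0, -31⟩ ⟨0, 180, -1321, -946⟩, .l ⟨0, 40, 0, -35⟩ ⟨0, 180, -1321, -946⟩] := by
  refine rok_ds (s := 1) (nlo := 31) (nhi := 35) (q := 40) (by decide) (by decide) (by decide) (by decide) (k := 1) (by decide) (Q := [(831, 3913, -3344), (180, -1321, 946)])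
    (P := [⟨-952320, 40, 0⟩, ⟨1075200, -40, 0⟩, ⟨-102727680, 831, 3913⟩, ⟨29061120, 180, -1321⟩]) rfl rfl
    (List.mem_of_getElem? (i := 159) rfl) TD_fr TD_cov ?_
  · intro X Y h
    simp only [List.forall_mem_cons, List.not_mem_nil, false_imp_iff, implies_true, and_true] at h
    push_cast at h ⊢
    obtain ⟨h0, h1, h2, h3⟩ := h
    refine ⟨⟨?_, ?_⟩, ?_, ?_⟩ <;> linarith

theorem TD_rg160 : ROK [.l ⟨0, 40, 0, -33⟩ ⟨0, 40, 0, 33⟩, .l ⟨0, -40, 0, 37⟩ ⟨0, 40, 0, 37⟩, .l ⟨0, 40, 0, -33⟩ ⟨0, 0, 4000, 2573⟩, .l ⟨0, 40, 0, -37⟩ ⟨0, 0, 4000, 2573⟩, .l ⟨0, 40, 0, -33⟩ ⟨0, 0, -1000, -831⟩, .l ⟨0, 40, 0, -37⟩ ⟨0, 0, -1000, -831⟩] := by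
  refine rok_ds (s := 1) (nlo := 33) (nhi := 37) (q := 40) (by decide) (by decide) (by decide) (by decide) (k := 1) (by decide) (Q := [(0, 4000, -2573), (0, -1000, 831)])
    (P := [⟨-1013760, 40, 0⟩, ⟨1136640, -40, 0⟩, ⟨-79042560, 0, 4000⟩, ⟨25528320, 0, -1000⟩]) rfl rfl
    (List.mem_of_getElem? (i := 160) rfl) TD_fr TD_cov ?_
  · intro X Y h
    simp only [List.forall_mem_cons, List.not_mem_nil, false_imp_iff, implies_true, and_true] at h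
    push_cast at h ⊢
    obtain ⟨h0, h1, h2, h3⟩ := h
    refine ⟨⟨?_, ?_⟩, ?_, ?_⟩ <;> linarith

theorem TD_rg161 : ROK [.l ⟨0, 80, 0, -57⟩ ⟨0, 80, 0, 57⟩, .l ⟨0, -80, 0, 60⟩ ⟨0, 80, 0, 60⟩, .l ⟨0, 80, 0, -57⟩ ⟨0, 961, 3883, 3582⟩, .l ⟨0, 80, 0, -60⟩ ⟨0, 961, 3883, 3582⟩, .l ⟨0, 80, 0, -57⟩ ⟨0, -961, -3883, -3884⟩, .l ⟨0, 80, 0, -60⟩ ⟨0, -961, -3883, -3884⟩, .l ⟨0, 80, 0, -57⟩ ⟨0, 3046, 2592, 4147⟩, .l ⟨0, 80, 0, -60⟩ ⟨0, 3046, 2592, 4147⟩] := by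
  refine rok_ds (s := 1) (nlo := 57) (nhi := 60) (q := 80) (by decide) (by decide) (by decide) (by decide) (k := 1) (by decide) (Q := [(961, 3883, -3582), (-961, -3883, 3884), (3046, 2592, -4147)])
    (P := [⟨-1751040, 80, 0⟩, ⟨1843200, -80, 0⟩, ⟨-110039040, 961, 3883⟩, ⟨119316480, -961, -3883⟩, ⟨-127395840, 3046, 2592⟩]) rfl rfl
    (List.mem_of_getElem? (i := 161) rfl) TD_fr TD_cov ?_
  · intro X Y h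
    simp only [List.forall_mem_cons, List.not_mem_nil, false_imp_iff, implies_true, and_true] at h
    push_cast at h ⊢
    obtain ⟨h0, h1, h2, h3, h4⟩ := h
    refine ⟨⟨?_, ?_⟩, ?_, ?_⟩ <;> linarith

theorem TD_rg162 : ROK [.l ⟨0, 48, 0, -41⟩ ⟨0, 48, 0, 41⟩, .l ⟨0, -48, 0, 42⟩ ⟨0, 48, 0, 42⟩, .l ⟨0, 48, 0, -41⟩ ⟨0, 0, 4000, 2101⟩, .l ⟨0, 48, 0, -42⟩ ⟨0, 0, 4000, 2101⟩, .l ⟨0, 48, 0, -41⟩ ⟨0, 0, -200, -167⟩, .l ⟨0, 48, 0, -42⟩ ⟨0, 0, -200, -167⟩] := by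
  refine rok_ds (s := 1) (nlo := 41) (nhi := 42) (q := 48) (by decide) (by decide) (by decide) (by decide) (k := 1) (by decide) (Q := [(0, 4000, -2101), (0, -200, 167)])
    (P := [⟨-1259520, 48, 0⟩, ⟨1290240, -48, 0⟩, ⟨-64542720, 0, 4000⟩, ⟨5130240, 0, -200⟩]) rfl rfl
    (List.mem_of_getElem? (i := 162) rfl) TD_fr TD_cov ?_
  · intro X Y h
    simp only [List.forall_mem_cons, List.not_mem_nil, false_imp_iff, implies_true, and_true] at h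
    push_cast at h ⊢
    obtain ⟨h0, h1, h2, h3⟩ := h
    refine ⟨⟨?_, ?_⟩, ?_, ?_⟩ <;> linarith

theorem TD_rg163 : ROK [.l ⟨0, 480, 0, -407⟩ ⟨0, 480, 0, 407⟩, .l ⟨0, -480, 0, 416⟩ ⟨0, 480, 0, 416⟩, .l ⟨0, 480, 0, -407⟩ ⟨0, -1472, 3719, 686⟩, .l ⟨0, 480, 0, -416⟩ ⟨0, -1472, 3719, 686⟩, .l ⟨0, 480, 0, -407⟩ ⟨0, -412, -3979, -3671⟩, .l ⟨0, 480, 0, -416⟩ ⟨0, -412, -3979, -3671⟩] := by
  refine rok_ds (s := 1) (nlo := 407) (nhi := 416) (q := 480) (by decide) (by decide) (by decide) (by decide) (k := 1) (by decide) (Q := [(-1472, 3719, -686), (-412, -3979, 3671)])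
    (P := [⟨-12503040, 480, 0⟩, ⟨12779520, -480, 0⟩, ⟨-21073920, -1472, 3719⟩, ⟨112773120, -412, -3979⟩]) rfl rfl
    (List.mem_of_getElem? (i := 163) rfl) TD_fr TD_cov ?_
  · intro X Y h
    simp only [List.forall_mem_cons, List.not_mem_nil, false_imp_iff, implies_true, and_true] at h
    push_cast at h ⊢
    obtain ⟨h0, h1, h2, h3⟩ := h
    refine ⟨⟨?_, ?_⟩, ?_, ?_⟩ <;> linarith

theorem TD_rg164 : ROK [.l ⟨0, 960, 0, -865⟩ ⟨0, 960, 0, 865⟩, .l ⟨0, -960, 0, 876⟩ ⟨0, 960, 0, 876⟩, .l ⟨0, 960, 0, -865⟩ ⟨0, 0, 800, 709⟩, .l ⟨0, 960, 0, -876⟩ ⟨0, 0, 800, 709⟩, .l ⟨0, 960, 0, -865⟩ ⟨0, 0, -4000, -4299⟩, .l ⟨0, 960, 0, -876⟩ ⟨0, 0, -4000, -4299⟩, .l ⟨0, 960, 0, -865⟩ ⟨0, 1288, 1530, 2526⟩, .l ⟨0, 960, 0, -876⟩ ⟨0, 1288, 1530, 2526⟩] := by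
  refine rok_ds (s := 1) (nlo := 865) (nhi := 876) (q := 960) (by decide) (by decide) (by decide) (by decide) (k := 1) (by decide) (Q := [(0, 800, -709), (0, -4000, 4299), (1288, 1530, -2526)])
    (P := [⟨-26572800, 960, 0⟩, ⟨26910720, -960, 0⟩, ⟨-21780480, 0, 800⟩, ⟨132065280, 0, -4000⟩, ⟨-77598720, 1288, 1530⟩]) rfl rfl
    (List.mem_of_getElem? (i := 164) rfl) TD_fr TD_cov ?_
  · intro X Y h
    simp only [List.forall_mem_cons, List.not_mem_nil, false_imp_iff, implies_true, and_true] at h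
    push_cast at h ⊢
    obtain ⟨h0, h1, h2, h3, h4⟩ := h
    refine ⟨⟨?_, ?_⟩, ?_, ?_⟩ <;> linarith

theorem TD_rg165 : ROK [.l ⟨0, 40, 0, -37⟩ ⟨0, 40, 0, 37⟩, .l ⟨0, -40, 0, 40⟩ ⟨0, 40, 0, 40⟩, .l ⟨0, 40, 0, -37⟩ ⟨0, 750, 3929, 4146⟩, .l ⟨0, 40, 0, -40⟩ ⟨0, 750, 3929, 4146⟩, .l ⟨0, 40, 0, -37⟩ ⟨0, 1465, -3722, -2560⟩, .l ⟨0, 40, 0, -40⟩ ⟨0, 1465, -3722, -2560⟩] := by
  refine rok_ds (s := 1) (nlo := 37) (nhi := 40) (q := 40) (by decide) (by decide) (by decide) (by decide) (k := 1) (by decide) (Q := [(750, 3929, -4146), (1465, -3722, 2560)])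
    (P := [⟨-1136640, 40, 0⟩, ⟨1228800, -40, 0⟩, ⟨-127365120, 750, 3929⟩, ⟨78643200, 1465, -3722⟩]) rfl rfl
    (List.mem_of_getElem? (i := 165) rfl) TD_fr TD_cov ?_
  · intro X Y h
    simp only [List.forall_mem_cons, List.not_mem_nil, false_imp_iff, implies_true, and_true] at h
    push_cast at h ⊢
    obtain ⟨h0, h1, h2, h3⟩ := h
    refine ⟨⟨?_, ?_⟩, ?_, ?_⟩ <;> linarith

theorem TD_rg166 : ROK [.l ⟨0, 48, 0, -40⟩ ⟨0, 48, 0, 40⟩, .l ⟨0, -48, 0, 41⟩ ⟨0, 48, 0, 41⟩, .l ⟨0, 48, 0, -40⟩ ⟨0, 0, 4000, 2109⟩, .l ⟨0, 48, 0, -41⟩ ⟨0, 0, 4000, 2109⟩, .l ⟨0, 48, 0, -40⟩ ⟨0, 373, -3983, -3005⟩, .l ⟨0, 48, 0, -41⟩ ⟨0, 373, -3983, -3005⟩] := by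
  refine rok_ds (s := 1) (nlo := 40) (nhi := 41) (q := 48) (by decide) (by decide) (by decide) (by decide) (k := 1) (by decide) (Q := [(0, 4000, -2109), (373, -3983, 3005)])
    (P := [⟨-1228800, 48, 0⟩, ⟨1259520, -48, 0⟩, ⟨-64788480, 0, 4000⟩, ⟨92313600, 373, -3983⟩]) rfl rfl
    (List.mem_of_getElem? (i := 166) rfl) TD_fr TD_cov ?_
  · intro X Y h
    simp only [List.forall_mem_cons, List.not_mem_nil, false_imp_iff, implies_true, and_true] at h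
    push_cast at h ⊢
    obtain ⟨h0, h1, h2, h3⟩ := h
    refine ⟨⟨?_, ?_⟩, ?_, ?_⟩ <;> linarith

theorem TD_rg167 : ROK [.l ⟨0, 240, 0, -216⟩ ⟨0, 240, 0, 216⟩, .l ⟨0, -240, 0, 221⟩ ⟨0, 240, 0, 221⟩, .l ⟨0, 240, 0, -216⟩ ⟨0, 0, 800, 709⟩, .l ⟨0, 240, 0, -221⟩ ⟨0, 0, 800, 709⟩, .l ⟨0, 240, 0, -216⟩ ⟨0, -13, -4000, -4311⟩, .l ⟨0, 240, 0, -221⟩ ⟨0, -13, -4000, -4311⟩, .l ⟨0, 240, 0, -216⟩ ⟨0, 2514, 3111, 5041⟩, .l ⟨0, 240, 0, -221⟩ ⟨0, 2514, 3111, 5041⟩] := by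
  refine rok_ds (s := 1) (nlo := 216) (nhi := 221) (q := 240) (by decide) (by decide) (by decide) (by decide) (k := 1) (by decide) (Q := [(0, 800, -709), (-13, -4000, 4311), (2514, 3111, -5041)])
    (P := [⟨-6635520, 240, 0⟩, ⟨6789120, -240, 0⟩, ⟨-21780480, 0, 800⟩, ⟨132433920, -13, -4000⟩, ⟨-154859520, 2514, 3111⟩]) rfl rfl
    (List.mem_of_getElem? (i := 167) rfl) TD_fr TD_cov ?_
  · intro X Y h
    simp only [List.forall_mem_cons, List.not_mem_nil, false_imp_iff, implies_true, and_true] at h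
    push_cast at h ⊢
    obtain ⟨h0, h1, h2, h3, h4⟩ := h
    refine ⟨⟨?_, ?_⟩, ?_, ?_⟩ <;> linarith

end Pool.Agent.TET
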