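import Pool.Agent.Helper38_TET.TD_C

/-!
# MP_c7c9bf_co: certificates, family TD
-/

set_option autoImplicit false
set_option maxRecDepth 100000

namespace Pool.Agent.TET

theorem TD_rg168 : ROK [.l ⟨0, 20, 0, -17⟩ ⟨0, 20, 0, 17⟩, .l ⟨0, -20, 0, 20⟩ ⟨0, 20, 0, 20⟩, .l ⟨0, 20, 0, -17⟩ ⟨0, 144, 3997, 2226⟩, .l ⟨0, 20, 0, -20⟩ ⟨0, 144, 3997, 2226⟩, .l ⟨0, 20, 0, -17⟩ ⟨0, -144, -3997, -3456⟩, .l ⟨0, 20, 0, -20⟩ ⟨0, -144, -3997, -3456⟩] := by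
  refine rok_ds (s := 1) (nlo := 17) (nhi := 20) (q := 20) (by decide) (by decide) (by decide) (by decide) (k := 1) (by decide) (Q := [(144, 3997, -2226), (-144, -3997, 3456)])
    (P := [⟨-522240, 20, 0⟩, ⟨614400, -20, 0⟩, ⟨-68382720, 144, 3997⟩, ⟨106168320, -144, -3997⟩]) rfl rfl
    (List.mem_of_getElem? (i := 168) rfl) TD_fr TD_cov ?_
  · intro X Y h
    simp only [List.forall_mem_cons, List.not_mem_nil, false_imp_iff, implies_true, and_true] at h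
    push_cast at h ⊢
    obtain ⟨h0, h1, h2, h3⟩ := h
    refine ⟨⟨?_, ?_⟩, ?_, ?_⟩ <;> linarith

theorem TD_rg169 : ROK [.l ⟨0, 80, 0, -67⟩ ⟨0, 80, 0, 67⟩, .l ⟨0, -80, 0, 71⟩ ⟨0, 80, 0, 71⟩, .l ⟨0, 80, 0, -67⟩ ⟨0, -245, 3992, 1889⟩, .l ⟨0, 80, 0, -71⟩ ⟨0, -245, 3992, 1889⟩, .l ⟨0, 80, 0, -67⟩ ⟨0, 245, -3992, -3119⟩, .l ⟨0, 80, 0, -71⟩ ⟨0, 245, -3992, -3119⟩] := by
  refine rok_ds (s := 1) (nlo := 67) (nhi := 71) (q := 80) (by decide) (by decide) (by decide) (by decide) (k := 1) (by decide) (Q := [(-245, 3992, -1889), (245, -3992, 3119)])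
    (P := [⟨-2058240, 80, 0⟩, ⟨2181120, -80, 0⟩, ⟨-58030080, -245, 3992⟩, ⟨95815680, 245, -3992⟩]) rfl rfl
    (List.mem_of_getElem? (i := 169) rfl) TD_fr TD_cov ?_
  · intro X Y h
    simp only [List.forall_mem_cons, List.not_mem_nil, false_imp_iff, implies_true, and_true] at h
    push_cast at h ⊢
    obtain ⟨h0, h1, h2, h3⟩ := h
    refine ⟨⟨?_, ?_⟩, ?_, ?_⟩ <;> linarith

theorem TD_rg170 : ROK [.l ⟨0, 480, 0, -407⟩ ⟨0, 480, 0, 407⟩, .l ⟨0, -480, 0, 417⟩ ⟨0, 480, 0, 417⟩, .l ⟨0, 480, 0, -407⟩ ⟨0, -2541, 3089, -10027⟩, .l ⟨0, 480, 0, -417⟩ ⟨0, -2541, 3089, -10027⟩, .l ⟨0, 480, 0, -407⟩ ⟨0, 176, -3996, -3185⟩, .l ⟨0, 480, 0, -417⟩ ⟨0, 176, -3996, -3185⟩, .l ⟨0, 480, 0, -407⟩ ⟨0, -632, 3950, 1519⟩, .l ⟨0, 480, 0, -417⟩ ⟨0, -632, 3950, 1519⟩] := by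
  refine rok_ds (s := 1) (nlo := 407) (nhi := 417) (q := 480) (by decide) (by decide) (by decide) (by decide) (k := 1) (by decide) (Q := [(-2541, 3089, 10027), (176, -3996, 3185), (-632, 3950, -1519)])
    (P := [⟨-12503040, 480, 0⟩, ⟨12810240, -480, 0⟩, ⟨308029440, -2541, 3089⟩, ⟨97843200, 176, -3996⟩, ⟨-46663680, -632, 3950⟩]) rfl rfl
    (List.mem_of_getElem? (i := 170) rfl) TD_fr TD_cov ?_
  · intro X Y h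
    simp only [List.forall_mem_cons, List.not_mem_nil, false_imp_iff, implies_true, and_true] at h
    push_cast at h ⊢
    obtain ⟨h0, h1, h2, h3, h4⟩ := h
    refine ⟨⟨?_, ?_⟩, ?_, ?_⟩ <;> linarith

theorem TD_rg171 : ROK [.l ⟨0, 320, 0, -270⟩ ⟨0, 320, 0, 270⟩, .l ⟨0, -320, 0, 273⟩ ⟨0, 320, 0, 273⟩, .l ⟨0, 320, 0, -270⟩ ⟨0, 868, 3905, -8013⟩, .l ⟨0, 320, 0, -273⟩ ⟨0, 868, 3905, -8013⟩, .l ⟨0, 320, 0, -270⟩ ⟨0, -868, -3905, -3998⟩, .l ⟨0, 320, 0, -273⟩ ⟨0, -868, -3905, -3998⟩, .l ⟨0, 320, 0, -270⟩ ⟨0, -2373, 3220, -321⟩, .l ⟨0, 320, 0, -273⟩ ⟨0, -2373, 3220, -321⟩, .l ⟨0, 320, 0, -270⟩ ⟨0, 599, -1908, -1084⟩, .l ⟨0, 320, 0, -273⟩ ⟨0, 599, -1908, -1084⟩] := by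
  refine rok_ds (s := 1) (nlo := 270) (nhi := 273) (q := 320) (by decide) (by decide) (by decide) (by decide) (k := 1) (by decide) (Q := [(868, 3905, 8013), (-868, -3905, 3998), (-2373, 3220, 321), (599, -1908, 1084)])
    (P := [⟨-8294400, 320, 0⟩, ⟨8386560, -320, 0⟩, ⟨246159360, 868, 3905⟩, ⟨122818560, -868, -3905⟩, ⟨9861120, -2373, 3220⟩, ⟨33300480, 599, -1908⟩]) rfl rfl
    (List.mem_of_getElem? (i := 171) rfl) TD_fr TD_cov ?_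
  · intro X Y h
    simp only [List.forall_mem_cons, List.not_mem_nil, false_imp_iff, implies_true, and_true] at h
    push_cast at h ⊢
    obtain ⟨h0, h1, h2, h3, h4, h5⟩ := h
    refine ⟨⟨?_, ?_⟩, ?_, ?_⟩ <;> linarith

theorem TD_rg172 : ROK [.l ⟨0, 40, 0, -32⟩ ⟨0, 40, 0, 32⟩, .l ⟨0, -40, 0, 35⟩ ⟨0, 40, 0, 35⟩, .l ⟨0, 40, 0, -32⟩ ⟨0, 0, 4000, 2667⟩, .l ⟨0, 40, 0, -35⟩ ⟨0, 0, 4000, 2667⟩, .l ⟨0, 40, 0, -32⟩ ⟨0, 0, -1000, -831⟩, .l ⟨0, 40, 0, -35⟩ ⟨0, 0, -1000, -831⟩, .l ⟨0, 40, 0, -32⟩ ⟨0, 1517, -3701, -1832⟩, .l ⟨0, 40, 0, -35⟩ ⟨0, 1517, -3701, -1832⟩] := by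
  refine rok_ds (s := 1) (nlo := 32) (nhi := 35) (q := 40) (by decide) (by decide) (by decide) (by decide) (k := 1) (by decide) (Q := [(0, 4000, -2667), (0, -1000, 831), (1517, -3701, 1832)])
    (P := [⟨-983040, 40, 0⟩, ⟨1075200, -40, 0⟩, ⟨-81930240, 0, 4000⟩, ⟨25528320, 0, -1000⟩, ⟨56279040, 1517, -3701⟩]) rfl rfl
    (List.mem_of_getElem? (i := 172) rfl) TD_fr TD_cov ?_
  · intro X Y h
    simp only [List.forall_mem_cons, List.not_mem_nil, false_imp_iff, implies_true, and_true] at h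
    push_cast at h ⊢
    obtain ⟨h0, h1, h2, h3, h4⟩ := h
    refine ⟨⟨?_, ?_⟩, ?_, ?_⟩ <;> linarith

theorem TD_rg173 : ROK [.l ⟨0, 480, 0, -403⟩ ⟨0, 480, 0, 403⟩, .l ⟨0, -480, 0, 410⟩ ⟨0, 480, 0, 410⟩, .l ⟨0, 480, 0, -403⟩ ⟨0, 0, 2000, 1049⟩, .l ⟨0, 480, 0, -410⟩ ⟨0, 0, 2000, 1049⟩, .l ⟨0, 480, 0, -403⟩ ⟨0, 403, -3980, -2978⟩, .l ⟨0, 480, 0, -410⟩ ⟨0, 403, -3980, -2978⟩] := by
  refine rok_ds (s := 1) (nlo := 403) (nhi := 410) (q := 480) (by decide) (by decide) (by decide) (by decide) (k := 1) (by decide) (Q := [(0, 2000, -1049), (403, -3980, 2978)])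
    (P := [⟨-12380160, 480, 0⟩, ⟨12595200, -480, 0⟩, ⟨-32225280, 0, 2000⟩, ⟨91484160, 403, -3980⟩]) rfl rfl
    (List.mem_of_getElem? (i := 173) rfl) TD_fr TD_cov ?_
  · intro X Y h
    simp only [List.forall_mem_cons, List.not_mem_nil, false_imp_iff, implies_true, and_true] at h
    push_cast at h ⊢
    obtain ⟨h0, h1, h2, h3⟩ := h
    refine ⟨⟨?_, ?_⟩, ?_, ?_⟩ <;> linarith

theorem TD_rg174 : ROK [.l ⟨0, 80, 0, -65⟩ ⟨0, 80, 0, 65⟩, .l ⟨0, -80, 0, 68⟩ ⟨0, 80, 0, 68⟩, .l ⟨0, 80, 0, -65⟩ ⟨0, 0, 2000, 1307⟩, .l ⟨0, 80, 0, -68⟩ ⟨0, 0, 2000, 1307⟩, .l ⟨0, 80, 0, -65⟩ ⟨0, 267, -1982, -1425⟩, .l ⟨0, 80, 0, -68⟩ ⟨0, 267, -1982, -1425⟩] := by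
  refine rok_ds (s := 1) (nlo := 65) (nhi := 68) (q := 80) (by decide) (by decide) (by decide) (by decide) (k := 1) (by decide) (Q := [(0, 2000, -1307), (267, -1982, 1425)])
    (P := [⟨-1996800, 80, 0⟩, ⟨2088960, -80, 0⟩, ⟨-40151040, 0, 2000⟩, ⟨43776000, 267, -1982⟩]) rfl rfl
    (List.mem_of_getElem? (i := 174) rfl) TD_fr TD_cov ?_
  · intro X Y h
    simp only [List.forall_mem_cons, List.not_mem_nil, false_imp_iff, implies_true, and_true] at h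
    push_cast at h ⊢
    obtain ⟨h0, h1, h2, h3⟩ := h
    refine ⟨⟨?_, ?_⟩, ?_, ?_⟩ <;> linarith

theorem TD_rg175 : ROK [.l ⟨0, 80, 0, -65⟩ ⟨0, 80, 0, 65⟩, .l ⟨0, -80, 0, 69⟩ ⟨0, 80, 0, 69⟩, .l ⟨0, 80, 0, -65⟩ ⟨0, -409, 3979, 2268⟩, .l ⟨0, 80, 0, -69⟩ ⟨0, -409, 3979, 2268⟩, .l ⟨0, 80, 0, -65⟩ ⟨0, 409, -3979, -2966⟩, .l ⟨0, 80, 0, -69⟩ ⟨0, 409, -3979, -2966⟩] := by
  refine rok_ds (s := 1) (nlo := 65) (nhi := 69) (q := 80) (by decide) (by decide) (by decide) (by decide) (k := 1) (by decide) (Q := [(-409, 3979, -2268), (409, -3979, 2966)])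
    (P := [⟨-1996800, 80, 0⟩, ⟨2119680, -80, 0⟩, ⟨-69672960, -409, 3979⟩, ⟨91115520, 409, -3979⟩]) rfl rfl
    (List.mem_of_getElem? (i := 175) rfl) TD_fr TD_cov ?_
  · intro X Y h
    simp only [List.forall_mem_cons, List.not_mem_nil, false_imp_iff, implies_true, and_true] at h
    push_cast at h ⊢
    obtain ⟨h0, h1, h2, h3⟩ := h
    refine ⟨⟨?_, ?_⟩, ?_, ?_⟩ <;> linarith

theorem TD_rg176 : ROK [.l ⟨0, 40, 0, -35⟩ ⟨0, 40, 0, 35⟩, .l ⟨0, -40, 0, 39⟩ ⟨0, 40, 0, 39⟩, .l ⟨0, 40, 0, -35⟩ ⟨0, 0, 250, 219⟩, .l ⟨0, 40, 0, -39⟩ ⟨0, 0, 250, 219⟩, .l ⟨0, 40, 0, -35⟩ ⟨0, -1508, -3705, -5284⟩, .l ⟨0, 40, 0, -39⟩ ⟨0, -1508, -3705, -5284⟩, .l ⟨0, 40, 0, -35⟩ ⟨0, 1806, 3569, 4811⟩, .l ⟨0, 40, 0, -39⟩ ⟨0, 1806, 3569, 4811⟩] := by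
  refine rok_ds (s := 1) (nlo := 35) (nhi := 39) (q := 40) (by decide) (by decide) (by decide) (by decide) (k := 1) (by decide) (Q := [(0, 250, -219), (-1508, -3705, 5284), (1806, 3569, -4811)])
    (P := [⟨-1075200, 40, 0⟩, ⟨1198080, -40, 0⟩, ⟨-6727680, 0, 250⟩, ⟨162324480, -1508, -3705⟩, ⟨-147793920, 1806, 3569⟩]) rfl rfl
    (List.mem_of_getElem? (i := 176) rfl) TD_fr TD_cov ?_
  · intro X Y h
    simp only [List.forall_mem_cons, List.not_mem_nil, false_imp_iff, implies_true, and_true] at h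
    push_cast at h ⊢
    obtain ⟨h0, h1, h2, h3, h4⟩ := h
    refine ⟨⟨?_, ?_⟩, ?_, ?_⟩ <;> linarith

theorem TD_rg177 : ROK [.l ⟨0, 80, 0, -69⟩ ⟨0, 80, 0, 69⟩, .l ⟨0, -80, 0, 72⟩ ⟨0, 80, 0, 72⟩, .l ⟨0, 80, 0, -69⟩ ⟨0, 442, 3976, 2475⟩, .l ⟨0, 80, 0, -72⟩ ⟨0, 442, 3976, 2475⟩, .l ⟨0, 80, 0, -69⟩ ⟨0, -221, -1988, -1852⟩, .l ⟨0, 80, 0, -72⟩ ⟨0, -221, -1988, -1852⟩] := by
  refine rok_ds (s := 1) (nlo := 69) (nhi := 72) (q := 80) (by decide) (by decide) (by decide) (by decide) (k := 1) (by decide) (Q := [(442, 3976, -2475), (-221, -1988, 1852)])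
    (P := [⟨-2119680, 80, 0⟩, ⟨2211840, -80, 0⟩, ⟨-76032000, 442, 3976⟩, ⟨56893440, -221, -1988⟩]) rfl rfl
    (List.mem_of_getElem? (i := 177) rfl) TD_fr TD_cov ?_
  · intro X Y h
    simp only [List.forall_mem_cons, List.not_mem_nil, false_imp_iff, implies_true, and_true] at h
    push_cast at h ⊢
    obtain ⟨h0, h1, h2, h3⟩ := h
    refine ⟨⟨?_, ?_⟩, ?_, ?_⟩ <;> linarith

theorem TD_rg178 : ROK [.l ⟨0, 960, 0, -862⟩ ⟨0, 960, 0, 862⟩, .l ⟨0, -960, 0, 869⟩ ⟨0, 960, 0, 869⟩, .l ⟨0, 960, 0, -862⟩ ⟨0, 0, 400, 201⟩, .l ⟨0, 960, 0, -869⟩ ⟨0, 0, 400, 201⟩, .l ⟨0, 960, 0, -862⟩ ⟨0, 0, -4000, -3347⟩, .l ⟨0, 960, 0, -869⟩ ⟨0, 0, -4000, -3347⟩] := by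
  refine rok_ds (s := 1) (nlo := 862) (nhi := 869) (q := 960) (by decide) (by decide) (by decide) (by decide) (k := 1) (by decide) (Q := [(0, 400, -201), (0, -4000, 3347)])
    (P := [⟨-26480640, 960, 0⟩, ⟨26695680, -960, 0⟩, ⟨-6174720, 0, 400⟩, ⟨102819840, 0, -4000⟩]) rfl rfl
    (List.mem_of_getElem? (i := 178) rfl) TD_fr TD_cov ?_
  · intro X Y h
    simp only [List.forall_mem_cons, List.not_mem_nil, false_imp_iff, implies_true, and_true] at h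
    push_cast at h ⊢
    obtain ⟨h0, h1, h2, h3⟩ := h
    refine ⟨⟨?_, ?_⟩, ?_, ?_⟩ <;> linarith

theorem TD_rg179 : ROK [.l ⟨0, 960, 0, -860⟩ ⟨0, 960, 0, 860⟩, .l ⟨0, -960, 0, 867⟩ ⟨0, 960, 0, 867⟩, .l ⟨0, 960, 0, -860⟩ ⟨0, 0, 200, 101⟩, .l ⟨0, 960, 0, -867⟩ ⟨0, 0, 200, 101⟩, .l ⟨0, 960, 0, -860⟩ ⟨0, 0, -250, -209⟩, .l ⟨0, 960, 0, -867⟩ ⟨0, 0, -250, -209⟩] := by
  refine rok_ds (s := 1) (nlo := 860) (nhi := 867) (q := 960) (by decide) (by decide) (by decide) (by decide) (k := 1) (by decide) (Q := [(0, 200, -101), (0, -250, 209)])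
    (P := [⟨-26419200, 960, 0⟩, ⟨26634240, -960, 0⟩, ⟨-3102720, 0, 200⟩, ⟨6420480, 0, -250⟩]) rfl rfl
    (List.mem_of_getElem? (i := 179) rfl) TD_fr TD_cov ?_
  · intro X Y h
    simp only [List.forall_mem_cons, List.not_mem_nil, false_imp_iff, implies_true, and_true] at h
    push_cast at h ⊢
    obtain ⟨h0, h1, h2, h3⟩ := h
    refine ⟨⟨?_, ?_⟩, ?_, ?_⟩ <;> linarith

theorem TD_rg180 : ROK [.l ⟨0, 480, 0, -425⟩ ⟨0, 480, 0, 425⟩, .l ⟨0, -480, 0, 432⟩ ⟨0, 480, 0, 432⟩, .l ⟨0, 480, 0, -425⟩ ⟨0, -627, 3951, 1484⟩, .l ⟨0, 480, 0, -432⟩ ⟨0, -627, 3951, 1484⟩, .l ⟨0, 480, 0, -425⟩ ⟨0, 627, -3951, -2737⟩, .l ⟨0, 480, 0, -432⟩ ⟨0, 627, -3951, -2737⟩] := by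
  refine rok_ds (s := 1) (nlo := 425) (nhi := 432) (q := 480) (by decide) (by decide) (by decide) (by decide) (k := 1) (by decide) (Q := [(-627, 3951, -1484), (627, -3951, 2737)])
    (P := [⟨-13056000, 480, 0⟩, ⟨13271040, -480, 0⟩, ⟨-45588480, -627, 3951⟩, ⟨84080640, 627, -3951⟩]) rfl rfl
    (List.mem_of_getElem? (i := 180) rfl) TD_fr TD_cov ?_
  · intro X Y h
    simp only [List.forall_mem_cons, List.not_mem_nil, false_imp_iff, implies_true, and_true] at h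
    push_cast at h ⊢
    obtain ⟨h0, h1, h2, h3⟩ := h
    refine ⟨⟨?_, ?_⟩, ?_, ?_⟩ <;> linarith

theorem TD_rg181 : ROK [.l ⟨0, 960, 0, -866⟩ ⟨0, 960, 0, 866⟩, .l ⟨0, -960, 0, 875⟩ ⟨0, 960, 0, 875⟩, .l ⟨0, 960, 0, -866⟩ ⟨0, 0, 4000, 3557⟩, .l ⟨0, 960, 0, -875⟩ ⟨0, 0, 4000, 3557⟩, .l ⟨0, 960, 0, -866⟩ ⟨0, 0, -4000, -4299⟩, .l ⟨0, 960, 0, -875⟩ ⟨0, 0, -4000, -4299⟩] := by
  refine rok_ds (s := 1) (nlo := 866) (nhi := 875) (q := 960) (by decide) (by decide) (by decide) (by decide) (k := 1) (by decide) (Q := [(0, 4000, -3557), (0, -4000, 4299)])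
    (P := [⟨-26603520, 960, 0⟩, ⟨26880000, -960, 0⟩, ⟨-109271040, 0, 4000⟩, ⟨132065280, 0, -4000⟩]) rfl rfl
    (List.mem_of_getElem? (i := 181) rfl) TD_fr TD_cov ?_
  · intro X Y h
    simp only [List.forall_mem_cons, List.not_mem_nil, false_imp_iff, implies_true, and_true] at h
    push_cast at h ⊢
    obtain ⟨h0, h1, h2, h3⟩ := h
    refine ⟨⟨?_, ?_⟩, ?_, ?_⟩ <;> linarith

theorem TD_rg182 : ROK [.l ⟨0, 960, 0, -818⟩ ⟨0, 960, 0, 818⟩, .l ⟨0, -960, 0, 825⟩ ⟨0, 960, 0, 825⟩, .l ⟨0, 960, 0, -818⟩ ⟨0, 359, 3984, -8403⟩, .l ⟨0, 960, 0, -825⟩ ⟨0, 359, 3984, -8403⟩, .l ⟨0, 960, 0, -818⟩ ⟨0, 650, -3947, -2739⟩, .l ⟨0, 960, 0, -825⟩ ⟨0, 650, -3947, -2739⟩, .l ⟨0, 960, 0, -818⟩ ⟨0, -1352, 3765, 800⟩, .l ⟨0, 960, 0, -825⟩ ⟨0, -1352, 3765, 800⟩] := by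
  refine rok_ds (s := 1) (nlo := 818) (nhi := 825) (q := 960) (by decide) (by decide) (by decide) (by decide) (k := 1) (by decide) (Q := [(359, 3984, 8403), (650, -3947, 2739), (-1352, 3765, -800)])
    (P := [⟨-25128960, 960, 0⟩, ⟨25344000, -960, 0⟩, ⟨258140160, 359, 3984⟩, ⟨84142080, 650, -3947⟩, ⟨-24576000, -1352, 3765⟩]) rfl rfl
    (List.mem_of_getElem? (i := 182) rfl) TD_fr TD_cov ?_
  · intro X Y h
    simp only [List.forall_mem_cons, List.not_mem_nil, false_imp_iff, implies_true, and_true] at h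
    push_cast at h ⊢
    obtain ⟨h0, h1, h2, h3, h4⟩ := h
    refine ⟨⟨?_, ?_⟩, ?_, ?_⟩ <;> linarith

theorem TD_rg183 : ROK [.l ⟨0, 960, 0, -871⟩ ⟨0, 960, 0, 871⟩, .l ⟨0, -960, 0, 879⟩ ⟨0, 960, 0, 879⟩, .l ⟨0, 960, 0, -871⟩ ⟨0, -7, 4000, 3538⟩, .l ⟨0, 960, 0, -879⟩ ⟨0, -7, 4000, 3538⟩, .l ⟨0, 960, 0, -871⟩ ⟨0, -1834, -3555, -5483⟩, .l ⟨0, 960, 0, -879⟩ ⟨0, -1834, -3555, -5483⟩] := by
  refine rok_ds (s := 1) (nlo := 871) (nhi := 879) (q := 960) (by decide) (by decide) (by decide) (by decide) (k := 1) (by decide) (Q := [(-7, 4000, -3538), (-1834, -3555, 5483)])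
    (P := [⟨-26757120, 960, 0⟩, ⟨27002880, -960, 0⟩, ⟨-108687360, -7, 4000⟩, ⟨168437760, -1834, -3555⟩]) rfl rfl
    (List.mem_of_getElem? (i := 183) rfl) TD_fr TD_cov ?_
  · intro X Y h
    simp only [List.forall_mem_cons, List.not_mem_nil, false_imp_iff, implies_true, and_true] at h
    push_cast at h ⊢
    obtain ⟨h0, h1, h2, h3⟩ := h
    refine ⟨⟨?_, ?_⟩, ?_, ?_⟩ <;> linarith

theorem TD_rg184 : ROK [.l ⟨0, 960, 0, -820⟩ ⟨0, 960, 0, 820⟩, .l ⟨0, -960, 0, 827⟩ ⟨0, 960, 0, 827⟩, .l ⟨0, 960, 0, -820⟩ ⟨0, 0, 200, -409⟩, .l ⟨0, 960, 0, -827⟩ ⟨0, 0, 200, -409⟩, .l ⟨0, 960, 0, -820⟩ ⟨0, 0, -200, -167⟩, .l ⟨0, 960, 0, -827⟩ ⟨0, 0, -200, -167⟩, .l ⟨0, 960, 0, -820⟩ ⟨0, -1909, 3515, 186⟩, .l ⟨0, 960, 0, -827⟩ ⟨0, -1909, 3515, 186⟩] := by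
  refine rok_ds (s := 1) (nlo := 820) (nhi := 827) (q := 960) (by decide) (by decide) (by decide) (by decide) (k := 1) (by decide) (Q := [(0, 200, 409), (0, -200, 167), (-1909, 3515, -186)])
    (P := [⟨-25190400, 960, 0⟩, ⟨25405440, -960, 0⟩, ⟨12564480, 0, 200⟩, ⟨5130240, 0, -200⟩, ⟨-5713920, -1909, 3515⟩]) rfl rfl
    (List.mem_of_getElem? (i := 184) rfl) TD_fr TD_cov ?_
  · intro X Y h
    simp only [List.forall_mem_cons, List.not_mem_nil, false_imp_iff, implies_true, and_true] at h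
    push_cast at h ⊢
    obtain ⟨h0, h1, h2, h3, h4⟩ := h
    refine ⟨⟨?_, ?_⟩, ?_, ?_⟩ <;> linarith

theorem TD_rg185 : ROK [.l ⟨0, 960, 0, -857⟩ ⟨0, 960, 0, 857⟩, .l ⟨0, -960, 0, 866⟩ ⟨0, 960, 0, 866⟩, .l ⟨0, 960, 0, -857⟩ ⟨0, -764, 3926, 1313⟩, .l ⟨0, 960, 0, -866⟩ ⟨0, -764, 3926, 1313⟩, .l ⟨0, 960, 0, -857⟩ ⟨0, 382, -1963, -1298⟩, .l ⟨0, 960, 0, -866⟩ ⟨0, 382, -1963, -1298⟩] := by
  refine rok_ds (s := 1) (nlo := 857) (nhi := 866) (q := 960) (by decide) (by decide) (by decide) (by decide) (k := 1) (by decide) (Q := [(-764, 3926, -1313), (382, -1963, 1298)])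
    (P := [⟨-26327040, 960, 0⟩, ⟨26603520, -960, 0⟩, ⟨-40335360, -764, 3926⟩, ⟨39874560, 382, -1963⟩]) rfl rfl
    (List.mem_of_getElem? (i := 185) rfl) TD_fr TD_cov ?_
  · intro X Y h
    simp only [List.forall_mem_cons, List.not_mem_nil, false_imp_iff, implies_true, and_true] at h
    push_cast at h ⊢
    obtain ⟨h0, h1, h2, h3⟩ := h
    refine ⟨⟨?_, ?_⟩, ?_, ?_⟩ <;> linarith

theorem TD_rg186 : ROK [.l ⟨0, 960, 0, -859⟩ ⟨0, 960, 0, 859⟩, .l ⟨0, -960, 0, 869⟩ ⟨0, 960, 0, 869⟩, .l ⟨0, 960, 0, -859⟩ ⟨0, 2037, 3443, 4906⟩, .l ⟨0, 960, 0, -869⟩ ⟨0, 2037, 3443, 4906⟩, .l ⟨0, 960, 0, -859⟩ ⟨0, 1220, -3810, -2993⟩, .l ⟨0, 960, 0, -869⟩ ⟨0, 1220, -3810, -2993⟩] := by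
  refine rok_ds (s := 1) (nlo := 859) (nhi := 869) (q := 960) (by decide) (by decide) (by decide) (by decide) (k := 1) (by decide) (Q := [(2037, 3443, -4906), (1220, -3810, 2993)])
    (P := [⟨-26388480, 960, 0⟩, ⟨26695680, -960, 0⟩, ⟨-150712320, 2037, 3443⟩, ⟨91944960, 1220, -3810⟩]) rfl rfl
    (List.mem_of_getElem? (i := 186) rfl) TD_fr TD_cov ?_
  · intro X Y h
    simp only [List.forall_mem_cons, List.not_mem_nil, false_imp_iff, implies_true, and_true] at h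
    push_cast at h ⊢
    obtain ⟨h0, h1, h2, h3⟩ := h
    refine ⟨⟨?_, ?_⟩, ?_, ?_⟩ <;> linarith

theorem TD_rg187 : ROK [.l ⟨0, 960, 0, -868⟩ ⟨0, 960, 0, 868⟩, .l ⟨0, -960, 0, 875⟩ ⟨0, 960, 0, 875⟩, .l ⟨0, 960, 0, -868⟩ ⟨0, 2463, 3152, 5031⟩, .l ⟨0, 960, 0, -875⟩ ⟨0, 2463, 3152, 5031⟩, .l ⟨0, 960, 0, -868⟩ ⟨0, -2294, -3276, -5597⟩, .l ⟨0, 960, 0, -875⟩ ⟨0, -2294, -3276, -5597⟩, .l ⟨0, 960, 0, -868⟩ ⟨0, -597, 3955, 2962⟩, .l ⟨0, 960, 0, -875⟩ ⟨0, -597, 3955, 2962⟩] := by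
  refine rok_ds (s := 1) (nlo := 868) (nhi := 875) (q := 960) (by decide) (by decide) (by decide) (by decide) (k := 1) (by decide) (Q := [(2463, 3152, -5031), (-2294, -3276, 5597), (-597, 3955, -2962)])
    (P := [⟨-26664960, 960, 0⟩, ⟨26880000, -960, 0⟩, ⟨-154552320, 2463, 3152⟩, ⟨171939840, -2294, -3276⟩, ⟨-90992640, -597, 3955⟩]) rfl rfl
    (List.mem_of_getElem? (i := 187) rfl) TD_fr TD_cov ?_
  · intro X Y h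
    simp only [List.forall_mem_cons, List.not_mem_nil, false_imp_iff, implies_true, and_true] at h
    push_cast at h ⊢
    obtain ⟨h0, h1, h2, h3, h4⟩ := h
    refine ⟨⟨?_, ?_⟩, ?_, ?_⟩ <;> linarith

theorem TD_rg188 : ROK [.l ⟨0, 960, 0, -827⟩ ⟨0, 960, 0, 827⟩, .l ⟨0, -960, 0, 835⟩ ⟨0, 960, 0, 835⟩, .l ⟨0, 960, 0, -827⟩ ⟨0, 41, 4000, 2089⟩, .l ⟨0, 960, 0, -835⟩ ⟨0, 41, 4000, 2089⟩, .l ⟨0, 960, 0, -827⟩ ⟨0, -41, -4000, -3377⟩, .l ⟨0, 960, 0, -835⟩ ⟨0, -41, -4000, -3377⟩] := by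
  refine rok_ds (s := 1) (nlo := 827) (nhi := 835) (q := 960) (by decide) (by decide) (by decide) (by decide) (k := 1) (by decide) (Q := [(41, 4000, -2089), (-41, -4000, 3377)])
    (P := [⟨-25405440, 960, 0⟩, ⟨25651200, -960, 0⟩, ⟨-64174080, 41, 4000⟩, ⟨103741440, -41, -4000⟩]) rfl rfl
    (List.mem_of_getElem? (i := 188) rfl) TD_fr TD_cov ?_
  · intro X Y h
    simp only [List.forall_mem_cons, List.not_mem_nil, false_imp_iff, implies_true, and_true] at h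
    push_cast at h ⊢
    obtain ⟨h0, h1, h2, h3⟩ := h
    refine ⟨⟨?_, ?_⟩, ?_, ?_⟩ <;> linarith

theorem TD_rg189 : ROK [.l ⟨0, 960, 0, -865⟩ ⟨0, 960, 0, 865⟩, .l ⟨0, -960, 0, 873⟩ ⟨0, 960, 0, 873⟩, .l ⟨0, 960, 0, -865⟩ ⟨0, 2483, 3136, -3537⟩, .l ⟨0, 960, 0, -873⟩ ⟨0, 2483, 3136, -3537⟩, .l ⟨0, 960, 0, -865⟩ ⟨0, -2483, -3136, -5609⟩, .l ⟨0, 960, 0, -873⟩ ⟨0, -2483, -3136, -5609⟩, .l ⟨0, 960, 0, -865⟩ ⟨0, 354, 3984, 3863⟩, .l ⟨0, 960, 0, -873⟩ ⟨0, 354, 3984, 3863⟩] := by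
  refine rok_ds (s := 1) (nlo := 865) (nhi := 873) (q := 960) (by decide) (by decide) (by decide) (by decide) (k := 1) (by decide) (Q := [(2483, 3136, 3537), (-2483, -3136, 5609), (354, 3984, -3863)])
    (P := [⟨-26572800, 960, 0⟩, ⟨26818560, -960, 0⟩, ⟨108656640, 2483, 3136⟩, ⟨172308480, -2483, -3136⟩, ⟨-118671360, 354, 3984⟩]) rfl rfl
    (List.mem_of_getElem? (i := 189) rfl) TD_fr TD_cov ?_
  · intro X Y h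
    simp only [List.forall_mem_cons, List.not_mem_nil, false_imp_iff, implies_true, and_true] at h
    push_cast at h ⊢
    obtain ⟨h0, h1, h2, h3, h4⟩ := h
    refine ⟨⟨?_, ?_⟩, ?_, ?_⟩ <;> linarith

theorem TD_rg190 : ROK [.l ⟨0, 960, 0, -858⟩ ⟨0, 960, 0, 858⟩, .l ⟨0, -960, 0, 869⟩ ⟨0, 960, 0, 869⟩, .l ⟨0, 960, 0, -858⟩ ⟨0, -1111, 3843, -8108⟩, .l ⟨0, 960, 0, -869⟩ ⟨0, -1111, 3843, -8108⟩, .l ⟨0, 960, 0, -858⟩ ⟨0, 1111, -3843, -3127⟩, .l ⟨0, 960, 0, -869⟩ ⟨0, 1111, -3843, -3127⟩, .l ⟨0, 960, 0, -858⟩ ⟨0, 1411, 3743, 4610⟩, .l ⟨0, 960, 0, -869⟩ ⟨0, 1411, 3743, 4610⟩] := by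
  refine rok_ds (s := 1) (nlo := 858) (nhi := 869) (q := 960) (by decide) (by decide) (by decide) (by decide) (k := 1) (by decide) (Q := [(-1111, 3843, 8108), (1111, -3843, 3127), (1411, 3743, -4610)])
    (P := [⟨-26357760, 960, 0⟩, ⟨26695680, -960, 0⟩, ⟨249077760, -1111, 3843⟩, ⟨96061440, 1111, -3843⟩, ⟨-141619200, 1411, 3743⟩]) rfl rfl
    (List.mem_of_getElem? (i := 190) rfl) TD_fr TD_cov ?_
  · intro X Y h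
    simp only [List.forall_mem_cons, List.not_mem_nil, false_imp_iff, implies_true, and_true] at h
    push_cast at h ⊢
    obtain ⟨h0, h1, h2, h3, h4⟩ := h
    refine ⟨⟨?_, ?_⟩, ?_, ?_⟩ <;> linarith

theorem TD_rg191 : ROK [.l ⟨0, 960, 0, -859⟩ ⟨0, 960, 0, 859⟩, .l ⟨0, -960, 0, 867⟩ ⟨0, 960, 0, 867⟩, .l ⟨0, 960, 0, -859⟩ ⟨0, 1301, 3782, 4546⟩, .l ⟨0, 960, 0, -867⟩ ⟨0, 1301, 3782, 4546⟩, .l ⟨0, 960, 0, -859⟩ ⟨0, -2603, -3037, -5585⟩, .l ⟨0, 960, 0, -867⟩ ⟨0, -2603, -3037, -5585⟩] := by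
  refine rok_ds (s := 1) (nlo := 859) (nhi := 867) (q := 960) (by decide) (by decide) (by decide) (by decide) (k := 1) (by decide) (Q := [(1301, 3782, -4546), (-2603, -3037, 5585)])
    (P := [⟨-26388480, 960, 0⟩, ⟨26634240, -960, 0⟩, ⟨-139653120, 1301, 3782⟩, ⟨171571200, -2603, -3037⟩]) rfl rfl
    (List.mem_of_getElem? (i := 191) rfl) TD_fr TD_cov ?_
  · intro X Y h
    simp only [List.forall_mem_cons, List.not_mem_nil, false_imp_iff, implies_true, and_true] at h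
    push_cast at h ⊢
    obtain ⟨h0, h1, h2, h3⟩ := h
    refine ⟨⟨?_, ?_⟩, ?_, ?_⟩ <;> linarith

end Pool.Agent.TET
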