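import Pool.Agent.Helper38_TET.TD_C

/-!
# MP_c7c9bf_co: certificates, family TD
-/

set_option autoImplicit false
set_option maxRecDepth 100000

namespace Pool.Agent.TET

theorem TD_rg192 : ROK [.l ⟨0, 960, 0, -850⟩ ⟨0, 960, 0, 850⟩, .l ⟨0, -960, 0, 859⟩ ⟨0, 960, 0, 859⟩, .l ⟨0, 960, 0, -850⟩ ⟨0, -844, 1813, 189⟩, .l ⟨0, 960, 0, -859⟩ ⟨0, -844, 1813, 189⟩, .l ⟨0, 960, 0, -850⟩ ⟨0, 1688, -3626, -1521⟩, .l ⟨0, 960, 0, -859⟩ ⟨0, 1688, -3626, -1521⟩] := by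
  refine rok_ds (s := 1) (nlo := 850) (nhi := 859) (q := 960) (by decide) (by decide) (by decide) (by decide) (k := 1) (by decide) (Q := [(-844, 1813, -189), (1688, -3626, 1521)])
    (P := [⟨-26112000, 960, 0⟩, ⟨26388480, -960, 0⟩, ⟨-5806080, -844, 1813⟩, ⟨46725120, 1688, -3626⟩]) rfl rfl
    (List.mem_of_getElem? (i := 192) rfl) TD_fr TD_cov ?_
  · intro X Y h
    simp only [List.forall_mem_cons, List.not_mem_nil, false_imp_iff, implies_true, and_true] at h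
    push_cast at h ⊢
    obtain ⟨h0, h1, h2, h3⟩ := h
    refine ⟨⟨?_, ?_⟩, ?_, ?_⟩ <;> linarith

theorem TD_rg193 : ROK [.l ⟨0, 480, 0, -437⟩ ⟨0, 480, 0, 437⟩, .l ⟨0, -480, 0, 447⟩ ⟨0, 480, 0, 447⟩, .l ⟨0, 480, 0, -437⟩ ⟨0, 665, 3944, 4093⟩, .l ⟨0, 480, 0, -447⟩ ⟨0, 665, 3944, 4093⟩, .l ⟨0, 480, 0, -437⟩ ⟨0, 1575, -3677, -2496⟩, .l ⟨0, 480, 0, -447⟩ ⟨0, 1575, -3677, -2496⟩] := by
  refine rok_ds (s := 1) (nlo := 437) (nhi := 447) (q := 480) (by decide) (by decide) (by decide) (by decide) (k := 1) (by decide) (Q := [(665, 3944, -4093), (1575, -3677, 2496)])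
    (P := [⟨-13424640, 480, 0⟩, ⟨13731840, -480, 0⟩, ⟨-125736960, 665, 3944⟩, ⟨76677120, 1575, -3677⟩]) rfl rfl
    (List.mem_of_getElem? (i := 193) rfl) TD_fr TD_cov ?_
  · intro X Y h
    simp only [List.forall_mem_cons, List.not_mem_nil, false_imp_iff, implies_true, and_true] at h
    push_cast at h ⊢
    obtain ⟨h0, h1, h2, h3⟩ := h
    refine ⟨⟨?_, ?_⟩, ?_, ?_⟩ <;> linarith

theorem TD_rg194 : ROK [.l ⟨0, 160, 0, -135⟩ ⟨0, 160, 0, 135⟩, .l ⟨0, -160, 0, 137⟩ ⟨0, 160, 0, 137⟩, .l ⟨0, 160, 0, -135⟩ ⟨0, -442, 3975, 1703⟩, .l ⟨0, 160, 0, -137⟩ ⟨0, -442, 3975, 1703⟩, .l ⟨0, 160, 0, -135⟩ ⟨0, 442, -3975, -2941⟩, .l ⟨0, 160, 0, -137⟩ ⟨0, 442, -3975, -2941⟩] := by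
  refine rok_ds (s := 1) (nlo := 135) (nhi := 137) (q := 160) (by decide) (by decide) (by decide) (by decide) (k := 1) (by decide) (Q := [(-442, 3975, -1703), (442, -3975, 2941)])
    (P := [⟨-4147200, 160, 0⟩, ⟨4208640, -160, 0⟩, ⟨-52316160, -442, 3975⟩, ⟨90347520, 442, -3975⟩]) rfl rfl
    (List.mem_of_getElem? (i := 194) rfl) TD_fr TD_cov ?_
  · intro X Y h
    simp only [List.forall_mem_cons, List.not_mem_nil, false_imp_iff, implies_true, and_true] at h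
    push_cast at h ⊢
    obtain ⟨h0, h1, h2, h3⟩ := h
    refine ⟨⟨?_, ?_⟩, ?_, ?_⟩ <;> linarith

theorem TD_rg195 : ROK [.l ⟨0, 960, 0, -842⟩ ⟨0, 960, 0, 842⟩, .l ⟨0, -960, 0, 849⟩ ⟨0, 960, 0, 849⟩, .l ⟨0, 960, 0, -842⟩ ⟨0, 17, 4000, 2110⟩, .l ⟨0, 960, 0, -849⟩ ⟨0, 17, 4000, 2110⟩, .l ⟨0, 960, 0, -842⟩ ⟨0, -17, -4000, -3358⟩, .l ⟨0, 960, 0, -849⟩ ⟨0, -17, -4000, -3358⟩] := by
  refine rok_ds (s := 1) (nlo := 842) (nhi := 849) (q := 960) (by decide) (by decide) (by decide) (by decide) (k := 1) (by decide) (Q := [(17, 4000, -2110), (-17, -4000, 3358)])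
    (P := [⟨-25866240, 960, 0⟩, ⟨26081280, -960, 0⟩, ⟨-64819200, 17, 4000⟩, ⟨103157760, -17, -4000⟩]) rfl rfl
    (List.mem_of_getElem? (i := 195) rfl) TD_fr TD_cov ?_
  · intro X Y h
    simp only [List.forall_mem_cons, List.not_mem_nil, false_imp_iff, implies_true, and_true] at h
    push_cast at h ⊢
    obtain ⟨h0, h1, h2, h3⟩ := h
    refine ⟨⟨?_, ?_⟩, ?_, ?_⟩ <;> linarith

theorem TD_rg196 : ROK [.l ⟨0, 480, 0, -413⟩ ⟨0, 480, 0, 413⟩, .l ⟨0, -480, 0, 420⟩ ⟨0, 480, 0, 420⟩, .l ⟨0, 480, 0, -413⟩ ⟨0, 0, 2000, -4343⟩, .l ⟨0, 480, 0, -420⟩ ⟨0, 0, 2000, -4343⟩, .l ⟨0, 480, 0, -413⟩ ⟨0, -2606, -3034, -4799⟩, .l ⟨0, 480, 0, -420⟩ ⟨0, -2606, -3034, -4799⟩, .l ⟨0, 480, 0, -413⟩ ⟨0, 481, 3971, 2507⟩, .l ⟨0, 480, 0, -420⟩ ⟨0, 481, 3971, 2507⟩, .l ⟨0, 480, 0, -413⟩ ⟨0, 1035, -3864, -2332⟩, .l ⟨0, 480, 0, -420⟩ ⟨0, 1035, -3864,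 -2332⟩] := by
  refine rok_ds (s := 1) (nlo := 413) (nhi := 420) (q := 480) (by decide) (by decide) (by decide) (by decide) (k := 1) (by decide) (Q := [(0, 2000, 4343), (-2606, -3034, 4799), (481, 3971, -2507), (1035, -3864, 2332)])
    (P := [⟨-12687360, 480, 0⟩, ⟨12902400, -480, 0⟩, ⟨133416960, 0, 2000⟩, ⟨147425280, -2606, -3034⟩, ⟨-77015040, 481, 3971⟩, ⟨71639040, 1035, -3864⟩]) rfl rfl
    (List.mem_of_getElem? (i := 196) rfl) TD_fr TD_cov ?_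
  · intro X Y h
    simp only [List.forall_mem_cons, List.not_mem_nil, false_imp_iff, implies_true, and_true] at h
    push_cast at h ⊢
    obtain ⟨h0, h1, h2, h3, h4, h5⟩ := h
    refine ⟨⟨?_, ?_⟩, ?_, ?_⟩ <;> linarith

theorem TD_rg197 : ROK [.l ⟨0, 960, 0, -839⟩ ⟨0, 960, 0, 839⟩, .l ⟨0, -960, 0, 846⟩ ⟨0, 960, 0, 846⟩, .l ⟨0, 960, 0, -839⟩ ⟨0, 0, 4000, 2101⟩, .l ⟨0, 960, 0, -846⟩ ⟨0, 0, 4000, 2101⟩, .l ⟨0, 960, 0, -839⟩ ⟨0, 0, -4000, -3343⟩, .l ⟨0, 960, 0, -846⟩ ⟨0, 0, -4000, -3343⟩] := by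
  refine rok_ds (s := 1) (nlo := 839) (nhi := 846) (q := 960) (by decide) (by decide) (by decide) (by decide) (k := 1) (by decide) (Q := [(0, 4000, -2101), (0, -4000, 3343)])
    (P := [⟨-25774080, 960, 0⟩, ⟨25989120, -960, 0⟩, ⟨-64542720, 0, 4000⟩, ⟨102696960, 0, -4000⟩]) rfl rfl
    (List.mem_of_getElem? (i := 197) rfl) TD_fr TD_cov ?_
  · intro X Y h
    simp only [List.forall_mem_cons, List.not_mem_nil, false_imp_iff, implies_true, and_true] at h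
    push_cast at h ⊢
    obtain ⟨h0, h1, h2, h3⟩ := h
    refine ⟨⟨?_, ?_⟩, ?_, ?_⟩ <;> linarith

theorem TD_rg198 : ROK [.l ⟨0, 960, 0, -847⟩ ⟨0, 960, 0, 847⟩, .l ⟨0, -960, 0, 858⟩ ⟨0, 960, 0, 858⟩, .l ⟨0, 960, 0, -847⟩ ⟨0, 612, 3953, 4077⟩, .l ⟨0, 960, 0, -858⟩ ⟨0, 612, 3953, 4077⟩, .l ⟨0, 960, 0, -847⟩ ⟨0, -612, -3953, -4776⟩, .l ⟨0, 960, 0, -858⟩ ⟨0, -612, -3953, -4776⟩, .l ⟨0, 960, 0, -847⟩ ⟨0, 3499, 1939, 4832⟩, .l ⟨0, 960, 0, -858⟩ ⟨0, 3499, 1939, 4832⟩] := by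
  refine rok_ds (s := 1) (nlo := 847) (nhi := 858) (q := 960) (by decide) (by decide) (by decide) (by decide) (k := 1) (by decide) (Q := [(612, 3953, -4077), (-612, -3953, 4776), (3499, 1939, -4832)])
    (P := [⟨-26019840, 960, 0⟩, ⟨26357760, -960, 0⟩, ⟨-125245440, 612, 3953⟩, ⟨146718720, -612, -3953⟩, ⟨-148439040, 3499, 1939⟩]) rfl rfl
    (List.mem_of_getElem? (i := 198) rfl) TD_fr TD_cov ?_
  · intro X Y h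
    simp only [List.forall_mem_cons, List.not_mem_nil, false_imp_iff, implies_true, and_true] at h
    push_cast at h ⊢
    obtain ⟨h0, h1, h2, h3, h4⟩ := h
    refine ⟨⟨?_, ?_⟩, ?_, ?_⟩ <;> linarith

theorem TD_rg199 : ROK [.l ⟨0, 80, 0, -67⟩ ⟨0, 80, 0, 67⟩, .l ⟨0, -80, 0, 70⟩ ⟨0, 80, 0, 70⟩, .l ⟨0, 80, 0, -67⟩ ⟨0, 1335, 1489, -2142⟩, .l ⟨0, 80, 0, -70⟩ ⟨0, 1335, 1489, -2142⟩, .l ⟨0, 80, 0, -67⟩ ⟨0, 107, -1997, -1574⟩, .l ⟨0, 80, 0, -70⟩ ⟨0, 107, -1997, -1574⟩, .l ⟨0, 80, 0, -67⟩ ⟨0, 2038, 3442, 3591⟩, .l ⟨0, 80, 0, -70⟩ ⟨0, 2038, 3442, 3591⟩] := by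
  refine rok_ds (s := 1) (nlo := 67) (nhi := 70) (q := 80) (by decide) (by decide) (by decide) (by decide) (k := 1) (by decide) (Q := [(1335, 1489, 2142), (107, -1997, 1574), (2038, 3442, -3591)])
    (P := [⟨-2058240, 80, 0⟩, ⟨2150400, -80, 0⟩, ⟨65802240, 1335, 1489⟩, ⟨48353280, 107, -1997⟩, ⟨-110315520, 2038, 3442⟩]) rfl rfl
    (List.mem_of_getElem? (i := 199) rfl) TD_fr TD_cov ?_
  · intro X Y h
    simp only [List.forall_mem_cons, List.not_mem_nil, false_imp_iff, implies_true, and_true] at h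
    push_cast at h ⊢
    obtain ⟨h0, h1, h2, h3, h4⟩ := h
    refine ⟨⟨?_, ?_⟩, ?_, ?_⟩ <;> linarith

theorem TD_rg200 : ROK [.l ⟨0, 80, 0, -70⟩ ⟨0, 80, 0, 70⟩, .l ⟨0, -80, 0, 73⟩ ⟨0, 80, 0, 73⟩, .l ⟨0, 80, 0, -70⟩ ⟨0, 2253, 3305, 4978⟩, .l ⟨0, 80, 0, -73⟩ ⟨0, 2253, 3305, 4978⟩, .l ⟨0, 80, 0, -70⟩ ⟨0, 802, -3919, -3484⟩, .l ⟨0, 80, 0, -73⟩ ⟨0, 802, -3919, -3484⟩] := by
  refine rok_ds (s := 1) (nlo := 70) (nhi := 73) (q := 80) (by decide) (by decide) (by decide) (by decide) (k := 1) (by decide) (Q := [(2253, 3305, -4978), (802, -3919, 3484)])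
    (P := [⟨-2150400, 80, 0⟩, ⟨2242560, -80, 0⟩, ⟨-152924160, 2253, 3305⟩, ⟨107028480, 802, -3919⟩]) rfl rfl
    (List.mem_of_getElem? (i := 200) rfl) TD_fr TD_cov ?_
  · intro X Y h
    simp only [List.forall_mem_cons, List.not_mem_nil, false_imp_iff, implies_true, and_true] at h
    push_cast at h ⊢
    obtain ⟨h0, h1, h2, h3⟩ := h
    refine ⟨⟨?_, ?_⟩, ?_, ?_⟩ <;> linarith

theorem TD_rg201 : ROK [.l ⟨0, 480, 0, -426⟩ ⟨0, 480, 0, 426⟩, .l ⟨0, -480, 0, 433⟩ ⟨0, 480, 0, 433⟩, .l ⟨0, 480, 0, -426⟩ ⟨0, 1195, 3817, 4482⟩, .l ⟨0, 480, 0, -433⟩ ⟨0, 1195, 3817, 4482⟩, .l ⟨0, 480, 0, -426⟩ ⟨0, -1195, -3817, -5149⟩, .l ⟨0, 480, 0, -433⟩ ⟨0, -1195, -3817, -5149⟩] := by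
  refine rok_ds (s := 1) (nlo := 426) (nhi := 433) (q := 480) (by decide) (by decide) (by decide) (by decide) (k := 1) (by decide) (Q := [(1195, 3817, -4482), (-1195, -3817, 5149)])
    (P := [⟨-13086720, 480, 0⟩, ⟨13301760, -480, 0⟩, ⟨-137687040, 1195, 3817⟩, ⟨158177280, -1195, -3817⟩]) rfl rfl
    (List.mem_of_getElem? (i := 201) rfl) TD_fr TD_cov ?_
  · intro X Y h
    simp only [List.forall_mem_cons, List.not_mem_nil, false_imp_iff, implies_true, and_true] at h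
    push_cast at h ⊢
    obtain ⟨h0, h1, h2, h3⟩ := h
    refine ⟨⟨?_, ?_⟩, ?_, ?_⟩ <;> linarith

theorem TD_rg202 : ROK [.l ⟨0, 480, 0, -422⟩ ⟨0, 480, 0, 422⟩, .l ⟨0, -480, 0, 427⟩ ⟨0, 480, 0, 427⟩, .l ⟨0, 480, 0, -422⟩ ⟨0, 0, 500, -971⟩, .l ⟨0, 480, 0, -427⟩ ⟨0, 0, 500, -971⟩, .l ⟨0, 480, 0, -422⟩ ⟨0, 0, -4000, -3343⟩, .l ⟨0, 480, 0, -427⟩ ⟨0, 0, -4000, -3343⟩, .l ⟨0, 480, 0, -422⟩ ⟨0, 549, 3962, 2551⟩, .l ⟨0, 480, 0, -427⟩ ⟨0, 549, 3962, 2551⟩] := by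
  refine rok_ds (s := 1) (nlo := 422) (nhi := 427) (q := 480) (by decide) (by decide) (by decide) (by decide) (k := 1) (by decide) (Q := [(0, 500, 971), (0, -4000, 3343), (549, 3962, -2551)])
    (P := [⟨-12963840, 480, 0⟩, ⟨13117440, -480, 0⟩, ⟨29829120, 0, 500⟩, ⟨102696960, 0, -4000⟩, ⟨-78366720, 549, 3962⟩]) rfl rfl
    (List.mem_of_getElem? (i := 202) rfl) TD_fr TD_cov ?_
  · intro X Y h
    simp only [List.forall_mem_cons, List.not_mem_nil, false_imp_iff, implies_true, and_true] at h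
    push_cast at h ⊢
    obtain ⟨h0, h1, h2, h3, h4⟩ := h
    refine ⟨⟨?_, ?_⟩, ?_, ?_⟩ <;> linarith

theorem TD_rg203 : ROK [.l ⟨0, 480, 0, -425⟩ ⟨0, 480, 0, 425⟩, .l ⟨0, -480, 0, 429⟩ ⟨0, 480, 0, 429⟩, .l ⟨0, 480, 0, -425⟩ ⟨0, 1219, 3810, 3044⟩, .l ⟨0, 480, 0, -429⟩ ⟨0, 1219, 3810, 3044⟩, .l ⟨0, 480, 0, -425⟩ ⟨0, -1219, -3810, -4263⟩, .l ⟨0, 480, 0, -429⟩ ⟨0, -1219, -3810, -4263⟩] := by
  refine rok_ds (s := 1) (nlo := 425) (nhi := 429) (q := 480) (by decide) (by decide) (by decide) (by decide) (k := 1) (by decide) (Q := [(1219, 3810, -3044), (-1219, -3810, 4263)])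
    (P := [⟨-13056000, 480, 0⟩, ⟨13178880, -480, 0⟩, ⟨-93511680, 1219, 3810⟩, ⟨130959360, -1219, -3810⟩]) rfl rfl
    (List.mem_of_getElem? (i := 203) rfl) TD_fr TD_cov ?_
  · intro X Y h
    simp only [List.forall_mem_cons, List.not_mem_nil, false_imp_iff, implies_true, and_true] at h
    push_cast at h ⊢
    obtain ⟨h0, h1, h2, h3⟩ := h
    refine ⟨⟨?_, ?_⟩, ?_, ?_⟩ <;> linarith

theorem TD_rg204 : ROK [.l ⟨0, 320, 0, -274⟩ ⟨0, 320, 0, 274⟩, .l ⟨0, -320, 0, 277⟩ ⟨0, 320, 0, 277⟩, .l ⟨0, 320, 0, -274⟩ ⟨0, 583, 3957, 2541⟩, .l ⟨0, 320, 0, -277⟩ ⟨0, 583, 3957, 2541⟩, .l ⟨0, 320, 0, -274⟩ ⟨0, -550, -3962, -3781⟩, .l ⟨0, 320, 0, -277⟩ ⟨0, -550, -3962, -3781⟩] := by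
  refine rok_ds (s := 1) (nlo := 274) (nhi := 277) (q := 320) (by decide) (by decide) (by decide) (by decide) (k := 1) (by decide) (Q := [(583, 3957, -2541), (-550, -3962, 3781)])
    (P := [⟨-8417280, 320, 0⟩, ⟨8509440, -320, 0⟩, ⟨-78059520, 583, 3957⟩, ⟨116152320, -550, -3962⟩]) rfl rfl
    (List.mem_of_getElem? (i := 204) rfl) TD_fr TD_cov ?_
  · intro X Y h
    simp only [List.forall_mem_cons, List.not_mem_nil, false_imp_iff, implies_true, and_true] at h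
    push_cast at h ⊢
    obtain ⟨h0, h1, h2, h3⟩ := h
    refine ⟨⟨?_, ?_⟩, ?_, ?_⟩ <;> linarith

theorem TD_rg205 : ROK [.l ⟨0, 960, 0, -845⟩ ⟨0, 960, 0, 845⟩, .l ⟨0, -960, 0, 853⟩ ⟨0, 960, 0, 853⟩, .l ⟨0, 960, 0, -845⟩ ⟨0, 0, 2000, 1041⟩, .l ⟨0, 960, 0, -853⟩ ⟨0, 0, 2000, 1041⟩, .l ⟨0, 960, 0, -845⟩ ⟨0, 0, -4000, -3343⟩, .l ⟨0, 960, 0, -853⟩ ⟨0, 0, -4000, -3343⟩] := by
  refine rok_ds (s := 1) (nlo := 845) (nhi := 853) (q := 960) (by decide) (by decide) (by decide) (by decide) (k := 1) (by decide) (Q := [(0, 2000, -1041), (0, -4000, 3343)])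
    (P := [⟨-25958400, 960, 0⟩, ⟨26204160, -960, 0⟩, ⟨-31979520, 0, 2000⟩, ⟨102696960, 0, -4000⟩]) rfl rfl
    (List.mem_of_getElem? (i := 205) rfl) TD_fr TD_cov ?_
  · intro X Y h
    simp only [List.forall_mem_cons, List.not_mem_nil, false_imp_iff, implies_true, and_true] at h
    push_cast at h ⊢
    obtain ⟨h0, h1, h2, h3⟩ := h
    refine ⟨⟨?_, ?_⟩, ?_, ?_⟩ <;> linarith

theorem TD_rg206 : ROK [.l ⟨0, 80, 0, -69⟩ ⟨0, 80, 0, 69⟩, .l ⟨0, -80, 0, 72⟩ ⟨0, 80, 0, 72⟩, .l ⟨0, 80, 0, -69⟩ ⟨0, 93, 1330, 780⟩, .l ⟨0, 80, 0, -72⟩ ⟨0, 93, 1330, 780⟩, .l ⟨0, 80, 0, -69⟩ ⟨0, 616, -3952, -2763⟩, .l ⟨0, 80, 0, -72⟩ ⟨0, 616, -3952, -2763⟩, .l ⟨0, 80, 0, -69⟩ ⟨0, -616, -3952, -3845⟩, .l ⟨0, 80, 0, -72⟩ ⟨0, -616, -3952, -3845⟩] := by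
  refine rok_ds (s := 1) (nlo := 69) (nhi := 72) (q := 80) (by decide) (by decide) (by decide) (by decide) (k := 1) (by decide) (Q := [(93, 1330, -780), (616, -3952, 2763), (-616, -3952, 3845)])
    (P := [⟨-2119680, 80, 0⟩, ⟨2211840, -80, 0⟩, ⟨-23961600, 93, 1330⟩, ⟨84879360, 616, -3952⟩, ⟨118118400, -616, -3952⟩]) rfl rfl
    (List.mem_of_getElem? (i := 206) rfl) TD_fr TD_cov ?_
  · intro X Y h
    simp only [List.forall_mem_cons, List.not_mem_nil, false_imp_iff, implies_true, and_true] at h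
    push_cast at h ⊢
    obtain ⟨h0, h1, h2, h3, h4⟩ := h
    refine ⟨⟨?_, ?_⟩, ?_, ?_⟩ <;> linarith

theorem TD_rg207 : ROK [.l ⟨0, 960, 0, -809⟩ ⟨0, 960, 0, 809⟩, .l ⟨0, -960, 0, 818⟩ ⟨0, 960, 0, 818⟩, .l ⟨0, 960, 0, -809⟩ ⟨0, -439, 3976, 1708⟩, .l ⟨0, 960, 0, -818⟩ ⟨0, -439, 3976, 1708⟩, .l ⟨0, 960, 0, -809⟩ ⟨0, -292, -3989, -3572⟩, .l ⟨0, 960, 0, -818⟩ ⟨0, -292, -3989, -3572⟩] := by
  refine rok_ds (s := 1) (nlo := 809) (nhi := 818) (q := 960) (by decide) (by decide) (by decide) (by decide) (k := 1) (by decide) (Q := [(-439, 3976, -1708), (-292, -3989, 3572)])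
    (P := [⟨-24852480, 960, 0⟩, ⟨25128960, -960, 0⟩, ⟨-52469760, -439, 3976⟩, ⟨109731840, -292, -3989⟩]) rfl rfl
    (List.mem_of_getElem? (i := 207) rfl) TD_fr TD_cov ?_
  · intro X Y h
    simp only [List.forall_mem_cons, List.not_mem_nil, false_imp_iff, implies_true, and_true] at h
    push_cast at h ⊢
    obtain ⟨h0, h1, h2, h3⟩ := h
    refine ⟨⟨?_, ?_⟩, ?_, ?_⟩ <;> linarith

theorem TD_rg208 : ROK [.l ⟨0, 960, 0, -861⟩ ⟨0, 960, 0, 861⟩, .l ⟨0, -960, 0, 871⟩ ⟨0, 960, 0, 871⟩, .l ⟨0, 960, 0, -861⟩ ⟨0, 0, 2000, -4209⟩, .l ⟨0, 960, 0, -871⟩ ⟨0, 0, 2000, -4209⟩, .l ⟨0, 960, 0, -861⟩ ⟨0, 2118, -3393, -1724⟩, .l ⟨0, 960, 0, -871⟩ ⟨0, 2118, -3393, -1724⟩, .l ⟨0, 960, 0, -861⟩ ⟨0, 2470, 3147, 5033⟩, .l ⟨0, 960, 0, -871⟩ ⟨0, 2470, 3147, 5033⟩] := by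
  refine rok_ds (s := 1) (nlo := 861) (nhi := 871) (q := 960) (by decide) (by decide) (by decide) (by decide) (k := 1) (by decide) (Q := [(0, 2000, 4209), (2118, -3393, 1724), (2470, 3147, -5033)])
    (P := [⟨-26449920, 960, 0⟩, ⟨26757120, -960, 0⟩, ⟨129300480, 0, 2000⟩, ⟨52961280, 2118, -3393⟩, ⟨-154613760, 2470, 3147⟩]) rfl rfl
    (List.mem_of_getElem? (i := 208) rfl) TD_fr TD_cov ?_
  · intro X Y h
    simp only [List.forall_mem_cons, List.not_mem_nil, false_imp_iff, implies_true, and_true] at h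
    push_cast at h ⊢
    obtain ⟨h0, h1, h2, h3, h4⟩ := h
    refine ⟨⟨?_, ?_⟩, ?_, ?_⟩ <;> linarith

theorem TD_rg209 : ROK [.l ⟨0, 480, 0, -420⟩ ⟨0, 480, 0, 420⟩, .l ⟨0, -480, 0, 427⟩ ⟨0, 480, 0, 427⟩, .l ⟨0, 480, 0, -420⟩ ⟨0, 2502, 3121, 5008⟩, .l ⟨0, 480, 0, -427⟩ ⟨0, 2502, 3121, 5008⟩, .l ⟨0, 480, 0, -420⟩ ⟨0, -2502, -3121, -5529⟩, .l ⟨0, 480, 0, -427⟩ ⟨0, -2502, -3121, -5529⟩, .l ⟨0, 480, 0, -420⟩ ⟨0, 1382, 3754, 4583⟩, .l ⟨0, 480, 0, -427⟩ ⟨0, 1382, 3754, 4583⟩] := by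
  refine rok_ds (s := 1) (nlo := 420) (nhi := 427) (q := 480) (by decide) (by decide) (by decide) (by decide) (k := 1) (by decide) (Q := [(2502, 3121, -5008), (-2502, -3121, 5529), (1382, 3754, -4583)])
    (P := [⟨-12902400, 480, 0⟩, ⟨13117440, -480, 0⟩, ⟨-153845760, 2502, 3121⟩, ⟨169850880, -2502, -3121⟩, ⟨-140789760, 1382, 3754⟩]) rfl rfl
    (List.mem_of_getElem? (i := 209) rfl) TD_fr TD_cov ?_
  · intro X Y h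
    simp only [List.forall_mem_cons, List.not_mem_nil, false_imp_iff, implies_true, and_true] at h
    push_cast at h ⊢
    obtain ⟨h0, h1, h2, h3, h4⟩ := h
    refine ⟨⟨?_, ?_⟩, ?_, ?_⟩ <;> linarith

theorem TD_rg210 : ROK [.l ⟨0, 80, 0, -66⟩ ⟨0, 80, 0, 66⟩, .l ⟨0, -80, 0, 69⟩ ⟨0, 80, 0, 69⟩, .l ⟨0, 80, 0, -66⟩ ⟨0, 315, 3988, 2825⟩, .l ⟨0, 80, 0, -69⟩ ⟨0, 315, 3988, 2825⟩, .l ⟨0, 80, 0, -66⟩ ⟨0, -315, -3988, -3576⟩, .l ⟨0, 80, 0, -69⟩ ⟨0, -315, -3988, -3576⟩] := by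
  refine rok_ds (s := 1) (nlo := 66) (nhi := 69) (q := 80) (by decide) (by decide) (by decide) (by decide) (k := 1) (by decide) (Q := [(315, 3988, -2825), (-315, -3988, 3576)])
    (P := [⟨-2027520, 80, 0⟩, ⟨2119680, -80, 0⟩, ⟨-86784000, 315, 3988⟩, ⟨109854720, -315, -3988⟩]) rfl rfl
    (List.mem_of_getElem? (i := 210) rfl) TD_fr TD_cov ?_
  · intro X Y h
    simp only [List.forall_mem_cons, List.not_mem_nil, false_imp_iff, implies_true, and_true] at h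
    push_cast at h ⊢
    obtain ⟨h0, h1, h2, h3⟩ := h
    refine ⟨⟨?_, ?_⟩, ?_, ?_⟩ <;> linarith

theorem TD_rg211 : ROK [.l ⟨0, 960, 0, -819⟩ ⟨0, 960, 0, 819⟩, .l ⟨0, -960, 0, 830⟩ ⟨0, 960, 0, 830⟩, .l ⟨0, 960, 0, -819⟩ ⟨0, 0, 4000, 2071⟩, .l ⟨0, 960, 0, -830⟩ ⟨0, 0, 4000, 2071⟩, .l ⟨0, 960, 0, -819⟩ ⟨0, 0, -200, -167⟩, .l ⟨0, 960, 0, -830⟩ ⟨0, 0, -200, -167⟩] := by
  refine rok_ds (s := 1) (nlo := 819) (nhi := 830) (q := 960) (by decide) (by decide) (by decide) (by decide) (k := 1) (by decide) (Q := [(0, 4000, -2071), (0, -200, 167)])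
    (P := [⟨-25159680, 960, 0⟩, ⟨25497600, -960, 0⟩, ⟨-63621120, 0, 4000⟩, ⟨5130240, 0, -200⟩]) rfl rfl
    (List.mem_of_getElem? (i := 211) rfl) TD_fr TD_cov ?_
  · intro X Y h
    simp only [List.forall_mem_cons, List.not_mem_nil, false_imp_iff, implies_true, and_true] at h
    push_cast at h ⊢
    obtain ⟨h0, h1, h2, h3⟩ := h
    refine ⟨⟨?_, ?_⟩, ?_, ?_⟩ <;> linarith

theorem TD_rg212 : ROK [.l ⟨0, 40, 0, -33⟩ ⟨0, 40, 0, 33⟩, .l ⟨0, -40, 0, 35⟩ ⟨0, 40, 0, 35⟩, .l ⟨0, 40, 0, -33⟩ ⟨0, 0, 250, 227⟩, .l ⟨0, 40, 0, -35⟩ ⟨0, 0, 250, 227⟩, .l ⟨0, 40, 0, -33⟩ ⟨0, 731, -3933, -3559⟩, .l ⟨0, 40, 0, -35⟩ ⟨0, 731, -3933, -3559⟩, .l ⟨0, 40, 0, -33⟩ ⟨0, 3685, 1556, 4520⟩, .l ⟨0, 40, 0, -35⟩ ⟨0, 3685, 1556, 4520⟩] := by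
  refine rok_ds (s := 1) (nlo := 33) (nhi := 35) (q := 40) (by decide) (by decide) (by decide) (by decide) (k := 1) (by decide) (Q := [(0, 250, -227), (731, -3933, 3559), (3685, 1556, -4520)])
    (P := [⟨-1013760, 40, 0⟩, ⟨1075200, -40, 0⟩, ⟨-6973440, 0, 250⟩, ⟨109332480, 731, -3933⟩, ⟨-138854400, 3685, 1556⟩]) rfl rfl
    (List.mem_of_getElem? (i := 212) rfl) TD_fr TD_cov ?_
  · intro X Y h
    simp only [List.forall_mem_cons, List.not_mem_nil, false_imp_iff, implies_true, and_true] at h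
    push_cast at h ⊢
    obtain ⟨h0, h1, h2, h3, h4⟩ := h
    refine ⟨⟨?_, ?_⟩, ?_, ?_⟩ <;> linarith

theorem TD_rg213 : ROK [.l ⟨0, 960, 0, -821⟩ ⟨0, 960, 0, 821⟩, .l ⟨0, -960, 0, 832⟩ ⟨0, 960, 0, 832⟩, .l ⟨0, 960, 0, -821⟩ ⟨0, 0, 4000, 2067⟩, .l ⟨0, 960, 0, -832⟩ ⟨0, 0, 4000, 2067⟩, .l ⟨0, 960, 0, -821⟩ ⟨0, 0, -200, -167⟩, .l ⟨0, 960, 0, -832⟩ ⟨0, 0, -200, -167⟩] := by
  refine rok_ds (s := 1) (nlo := 821) (nhi := 832) (q := 960) (by decide) (by decide) (by decide) (by decide) (k := 1) (by decide) (Q := [(0, 4000, -2067), (0, -200, 167)])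
    (P := [⟨-25221120, 960, 0⟩, ⟨25559040, -960, 0⟩, ⟨-63498240, 0, 4000⟩, ⟨5130240, 0, -200⟩]) rfl rfl
    (List.mem_of_getElem? (i := 213) rfl) TD_fr TD_cov ?_
  · intro X Y h
    simp only [List.forall_mem_cons, List.not_mem_nil, false_imp_iff, implies_true, and_true] at h
    push_cast at h ⊢
    obtain ⟨h0, h1, h2, h3⟩ := h
    refine ⟨⟨?_, ?_⟩, ?_, ?_⟩ <;> linarith

theorem TD_rg214 : ROK [.l ⟨0, 960, 0, -863⟩ ⟨0, 960, 0, 863⟩, .l ⟨0, -960, 0, 874⟩ ⟨0, 960, 0, 874⟩, .l ⟨0, 960, 0, -863⟩ ⟨0, 0, 4000, 3557⟩, .l ⟨0, 960, 0, -874⟩ ⟨0, 0, 4000, 3557⟩, .l ⟨0, 960, 0, -863⟩ ⟨0, 2224, -3325, -1553⟩, .l ⟨0, 960, 0, -874⟩ ⟨0, 2224, -3325, -1553⟩, .l ⟨0, 960, 0, -863⟩ ⟨0, 3518, 1903, 4865⟩, .l ⟨0, 960, 0, -874⟩ ⟨0, 3518, 1903, 4865⟩] := by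
  refine rok_ds (s := 1) (nlo := 863) (nhi := 874) (q := 960) (by decide) (by decide) (by decide) (by decide) (k := 1) (by decide) (Q := [(0, 4000, -3557), (2224, -3325, 1553), (3518, 1903, -4865)])
    (P := [⟨-26511360, 960, 0⟩, ⟨26849280, -960, 0⟩, ⟨-109271040, 0, 4000⟩, ⟨47708160, 2224, -3325⟩, ⟨-149452800, 3518, 1903⟩]) rfl rfl
    (List.mem_of_getElem? (i := 214) rfl) TD_fr TD_cov ?_
  · intro X Y h
    simp only [List.forall_mem_cons, List.not_mem_nil, false_imp_iff, implies_true, and_true] at h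
    push_cast at h ⊢
    obtain ⟨h0, h1, h2, h3, h4⟩ := h
    refine ⟨⟨?_, ?_⟩, ?_, ?_⟩ <;> linarith

theorem TD_rg215 : ROK [.l ⟨0, 160, 0, -143⟩ ⟨0, 160, 0, 143⟩, .l ⟨0, -160, 0, 145⟩ ⟨0, 160, 0, 145⟩, .l ⟨0, 160, 0, -143⟩ ⟨0, -1148, 3832, 2369⟩, .l ⟨0, 160, 0, -145⟩ ⟨0, -1148, 3832, 2369⟩, .l ⟨0, 160, 0, -143⟩ ⟨0, 2605, -3035, -897⟩, .l ⟨0, 160, 0, -145⟩ ⟨0, 2605, -3035, -897⟩, .l ⟨0, 160, 0, -143⟩ ⟨0, 3349, 2188, 4967⟩, .l ⟨0, 160, 0, -145⟩ ⟨0, 3349, 2188, 4967⟩] := by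
  refine rok_ds (s := 1) (nlo := 143) (nhi := 145) (q := 160) (by decide) (by decide) (by decide) (by decide) (k := 1) (by decide) (Q := [(-1148, 3832, -2369), (2605, -3035, 897), (3349, 2188, -4967)])
    (P := [⟨-4392960, 160, 0⟩, ⟨4454400, -160, 0⟩, ⟨-72775680, -1148, 3832⟩, ⟨27555840, 2605, -3035⟩, ⟨-152586240, 3349, 2188⟩]) rfl rfl
    (List.mem_of_getElem? (i := 215) rfl) TD_fr TD_cov ?_
  · intro X Y h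
    simp only [List.forall_mem_cons, List.not_mem_nil, false_imp_iff, implies_true, and_true] at h
    push_cast at h ⊢
    obtain ⟨h0, h1, h2, h3, h4⟩ := h
    refine ⟨⟨?_, ?_⟩, ?_, ?_⟩ <;> linarith

end Pool.Agent.TET
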