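import Pool.Agent.Helper38_TET.TD_C

/-!
# MP_c7c9bf_co: certificates, family TD
-/

set_option autoImplicit false
set_option maxRecDepth 100000

namespace Pool.Agent.TET

theorem TD_rg216 : ROK [.l ⟨0, 960, 0, -865⟩ ⟨0, 960, 0, 865⟩, .l ⟨0, -960, 0, 872⟩ ⟨0, 960, 0, 872⟩, .l ⟨0, 960, 0, -865⟩ ⟨0, 955, 3884, 4318⟩, .l ⟨0, 960, 0, -872⟩ ⟨0, 955, 3884, 4318⟩, .l ⟨0, 960, 0, -865⟩ ⟨0, -2201, -3340, -5574⟩, .l ⟨0, 960, 0, -872⟩ ⟨0, -2201, -3340, -5574⟩] := by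
  refine rok_ds (s := 1) (nlo := 865) (nhi := 872) (q := 960) (by decide) (by decide) (by decide) (by decide) (k := 1) (by decide) (Q := [(955, 3884, -4318), (-2201, -3340, 5574)])
    (P := [⟨-26572800, 960, 0⟩, ⟨26787840, -960, 0⟩, ⟨-132648960, 955, 3884⟩, ⟨171233280, -2201, -3340⟩]) rfl rfl
    (List.mem_of_getElem? (i := 216) rfl) TD_fr TD_cov ?_
  · intro X Y h
    simp only [List.forall_mem_cons, List.not_mem_nil, false_imp_iff, implies_true, and_true] at h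
    push_cast at h ⊢
    obtain ⟨h0, h1, h2, h3⟩ := h
    refine ⟨⟨?_, ?_⟩, ?_, ?_⟩ <;> linarith

theorem TD_rg217 : ROK [.l ⟨0, 480, 0, -418⟩ ⟨0, 480, 0, 418⟩, .l ⟨0, -480, 0, 425⟩ ⟨0, 480, 0, 425⟩, .l ⟨0, 480, 0, -418⟩ ⟨0, 1090, 3849, 4420⟩, .l ⟨0, 480, 0, -425⟩ ⟨0, 1090, 3849, 4420⟩, .l ⟨0, 480, 0, -418⟩ ⟨0, -1090, -3849, -5065⟩, .l ⟨0, 480, 0, -425⟩ ⟨0, -1090, -3849, -5065⟩] := by
  refine rok_ds (s := 1) (nlo := 418) (nhi := 425) (q := 480) (by decide) (by decide) (by decide) (by decide) (k := 1) (by decide) (Q := [(1090, 3849, -4420), (-1090, -3849, 5065)])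
    (P := [⟨-12840960, 480, 0⟩, ⟨13056000, -480, 0⟩, ⟨-135782400, 1090, 3849⟩, ⟨155596800, -1090, -3849⟩]) rfl rfl
    (List.mem_of_getElem? (i := 217) rfl) TD_fr TD_cov ?_
  · intro X Y h
    simp only [List.forall_mem_cons, List.not_mem_nil, false_imp_iff, implies_true, and_true] at h
    push_cast at h ⊢
    obtain ⟨h0, h1, h2, h3⟩ := h
    refine ⟨⟨?_, ?_⟩, ?_, ?_⟩ <;> linarith

theorem TD_rg218 : ROK [.l ⟨0, 40, 0, -33⟩ ⟨0, 40, 0, 33⟩, .l ⟨0, -40, 0, 36⟩ ⟨0, 40, 0, 36⟩, .l ⟨0, 40, 0, -33⟩ ⟨0, 0, 4000, -7773⟩, .l ⟨0, 40, 0, -36⟩ ⟨0, 0, 4000, -7773⟩, .l ⟨0, 40, 0, -33⟩ ⟨0, 1017, -3869, -2355⟩, .l ⟨0, 40, 0, -36⟩ ⟨0, 1017, -3869, -2355⟩, .l ⟨0, 40, 0, -33⟩ ⟨0, -671, 1884, 659⟩, .l ⟨0, 40, 0, -36⟩ ⟨0, -671, 1884, 659⟩, .l ⟨0, 40, 0, -33⟩ ⟨0, -517, -3966, -3761⟩, .l ⟨0, 40, 0, -36⟩ ⟨0, -517, -3966, -3761⟩]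 := by
  refine rok_ds (s := 1) (nlo := 33) (nhi := 36) (q := 40) (by decide) (by decide) (by decide) (by decide) (k := 1) (by decide) (Q := [(0, 4000, 7773), (1017, -3869, 2355), (-671, 1884, -659), (-517, -3966, 3761)])
    (P := [⟨-1013760, 40, 0⟩, ⟨1105920, -40, 0⟩, ⟨238786560, 0, 4000⟩, ⟨72345600, 1017, -3869⟩, ⟨-20244480, -671, 1884⟩, ⟨115537920, -517, -3966⟩]) rfl rfl
    (List.mem_of_getElem? (i := 218) rfl) TD_fr TD_cov ?_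
  · intro X Y h
    simp only [List.forall_mem_cons, List.not_mem_nil, false_imp_iff, implies_true, and_true] at h
    push_cast at h ⊢
    obtain ⟨h0, h1, h2, h3, h4, h5⟩ := h
    refine ⟨⟨?_, ?_⟩, ?_, ?_⟩ <;> linarith

theorem TD_rg219 : ROK [.l ⟨0, 480, 0, -421⟩ ⟨0, 480, 0, 421⟩, .l ⟨0, -480, 0, 427⟩ ⟨0, 480, 0, 427⟩, .l ⟨0, 480, 0, -421⟩ ⟨0, 337, 3986, -5796⟩, .l ⟨0, 480, 0, -427⟩ ⟨0, 337, 3986, -5796⟩, .l ⟨0, 480, 0, -421⟩ ⟨0, -337, -3986, -3628⟩, .l ⟨0, 480, 0, -427⟩ ⟨0, -337, -3986, -3628⟩, .l ⟨0, 480, 0, -421⟩ ⟨0, 3015, 2628, 4025⟩, .l ⟨0, 480, 0, -427⟩ ⟨0, 3015, 2628, 4025⟩] := by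
  refine rok_ds (s := 1) (nlo := 421) (nhi := 427) (q := 480) (by decide) (by decide) (by decide) (by decide) (k := 1) (by decide) (Q := [(337, 3986, 5796), (-337, -3986, 3628), (3015, 2628, -4025)])
    (P := [⟨-12933120, 480, 0⟩, ⟨13117440, -480, 0⟩, ⟨178053120, 337, 3986⟩, ⟨111452160, -337, -3986⟩, ⟨-123648000, 3015, 2628⟩]) rfl rfl
    (List.mem_of_getElem? (i := 219) rfl) TD_fr TD_cov ?_
  · intro X Y h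
    simp only [List.forall_mem_cons, List.not_mem_nil, false_imp_iff, implies_true, and_true] at h
    push_cast at h ⊢
    obtain ⟨h0, h1, h2, h3, h4⟩ := h
    refine ⟨⟨?_, ?_⟩, ?_, ?_⟩ <;> linarith

theorem TD_rg220 : ROK [.l ⟨0, 240, 0, -203⟩ ⟨0, 240, 0, 203⟩, .l ⟨0, -240, 0, 206⟩ ⟨0, 240, 0, 206⟩, .l ⟨0, 240, 0, -203⟩ ⟨0, -246, 1985, 827⟩, .l ⟨0, 240, 0, -206⟩ ⟨0, -246, 1985, 827⟩, .l ⟨0, 240, 0, -203⟩ ⟨0, 246, -1985, -1447⟩, .l ⟨0, 240, 0, -206⟩ ⟨0, 246, -1985, -1447⟩] := by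
  refine rok_ds (s := 1) (nlo := 203) (nhi := 206) (q := 240) (by decide) (by decide) (by decide) (by decide) (k := 1) (by decide) (Q := [(-246, 1985, -827), (246, -1985, 1447)])
    (P := [⟨-6236160, 240, 0⟩, ⟨6328320, -240, 0⟩, ⟨-25405440, -246, 1985⟩, ⟨44451840, 246, -1985⟩]) rfl rfl
    (List.mem_of_getElem? (i := 220) rfl) TD_fr TD_cov ?_
  · intro X Y h
    simp only [List.forall_mem_cons, List.not_mem_nil, false_imp_iff, implies_true, and_true] at h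
    push_cast at h ⊢
    obtain ⟨h0, h1, h2, h3⟩ := h
    refine ⟨⟨?_, ?_⟩, ?_, ?_⟩ <;> linarith

theorem TD_rg221 : ROK [.l ⟨0, 960, 0, -847⟩ ⟨0, 960, 0, 847⟩, .l ⟨0, -960, 0, 854⟩ ⟨0, 960, 0, 854⟩, .l ⟨0, 960, 0, -847⟩ ⟨0, 0, 1000, 519⟩, .l ⟨0, 960, 0, -854⟩ ⟨0, 0, 1000, 519⟩, .l ⟨0, 960, 0, -847⟩ ⟨0, 0, -4000, -3343⟩, .l ⟨0, 960, 0, -854⟩ ⟨0, 0, -4000, -3343⟩] := by
  refine rok_ds (s := 1) (nlo := 847) (nhi := 854) (q := 960) (by decide) (by decide) (by decide) (by decide) (k := 1) (by decide) (Q := [(0, 1000, -519), (0, -4000, 3343)])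
    (P := [⟨-26019840, 960, 0⟩, ⟨26234880, -960, 0⟩, ⟨-15943680, 0, 1000⟩, ⟨102696960, 0, -4000⟩]) rfl rfl
    (List.mem_of_getElem? (i := 221) rfl) TD_fr TD_cov ?_
  · intro X Y h
    simp only [List.forall_mem_cons, List.not_mem_nil, false_imp_iff, implies_true, and_true] at h
    push_cast at h ⊢
    obtain ⟨h0, h1, h2, h3⟩ := h
    refine ⟨⟨?_, ?_⟩, ?_, ?_⟩ <;> linarith

theorem TD_rg222 : ROK [.l ⟨0, 80, 0, -71⟩ ⟨0, 80, 0, 71⟩, .l ⟨0, -80, 0, 73⟩ ⟨0, 80, 0, 73⟩, .l ⟨0, 80, 0, -71⟩ ⟨0, 1610, 3662, 4713⟩, .l ⟨0, 80, 0, -73⟩ ⟨0, 1610, 3662, 4713⟩, .l ⟨0, 80, 0, -71⟩ ⟨0, -805, -1831, -2675⟩, .l ⟨0, 80, 0, -73⟩ ⟨0, -805, -1831, -2675⟩, .l ⟨0, 80, 0, -71⟩ ⟨0, 2450, 3162, 5027⟩, .l ⟨0, 80, 0, -73⟩ ⟨0, 2450, 3162, 5027⟩] := by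
  refine rok_ds (s := 1) (nlo := 71) (nhi := 73) (q := 80) (by decide) (by decide) (by decide) (by decide) (k := 1) (by decide) (Q := [(1610, 3662, -4713), (-805, -1831, 2675), (2450, 3162, -5027)])
    (P := [⟨-2181120, 80, 0⟩, ⟨2242560, -80, 0⟩, ⟨-144783360, 1610, 3662⟩, ⟨82176000, -805, -1831⟩, ⟨-154429440, 2450, 3162⟩]) rfl rfl
    (List.mem_of_getElem? (i := 222) rfl) TD_fr TD_cov ?_
  · intro X Y h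
    simp only [List.forall_mem_cons, List.not_mem_nil, false_imp_iff, implies_true, and_true] at h
    push_cast at h ⊢
    obtain ⟨h0, h1, h2, h3, h4⟩ := h
    refine ⟨⟨?_, ?_⟩, ?_, ?_⟩ <;> linarith

theorem TD_rg223 : ROK [.l ⟨0, 480, 0, -409⟩ ⟨0, 480, 0, 409⟩, .l ⟨0, -480, 0, 416⟩ ⟨0, 480, 0, 416⟩, .l ⟨0, 480, 0, -409⟩ ⟨0, 0, 4000, 2073⟩, .l ⟨0, 480, 0, -416⟩ ⟨0, 0, 4000, 2073⟩, .l ⟨0, 480, 0, -409⟩ ⟨0, 31, -499, -390⟩, .l ⟨0, 480, 0, -416⟩ ⟨0, 31, -499, -390⟩] := by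
  refine rok_ds (s := 1) (nlo := 409) (nhi := 416) (q := 480) (by decide) (by decide) (by decide) (by decide) (k := 1) (by decide) (Q := [(0, 4000, -2073), (31, -499, 390)])
    (P := [⟨-12564480, 480, 0⟩, ⟨12779520, -480, 0⟩, ⟨-63682560, 0, 4000⟩, ⟨11980800, 31, -499⟩]) rfl rfl
    (List.mem_of_getElem? (i := 223) rfl) TD_fr TD_cov ?_
  · intro X Y h
    simp only [List.forall_mem_cons, List.not_mem_nil, false_imp_iff, implies_true, and_true] at h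
    push_cast at h ⊢
    obtain ⟨h0, h1, h2, h3⟩ := h
    refine ⟨⟨?_, ?_⟩, ?_, ?_⟩ <;> linarith

theorem TD_rg224 : ROK [.l ⟨0, 480, 0, -429⟩ ⟨0, 480, 0, 429⟩, .l ⟨0, -480, 0, 439⟩ ⟨0, 480, 0, 439⟩, .l ⟨0, 480, 0, -429⟩ ⟨0, 947, 3886, 4312⟩, .l ⟨0, 480, 0, -439⟩ ⟨0, 947, 3886, 4312⟩, .l ⟨0, 480, 0, -429⟩ ⟨0, -947, -3886, -5017⟩, .l ⟨0, 480, 0, -439⟩ ⟨0, -947, -3886, -5017⟩, .l ⟨0, 480, 0, -429⟩ ⟨0, 3005, 2640, 5061⟩, .l ⟨0, 480, 0, -439⟩ ⟨0, 3005, 2640, 5061⟩] := by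
  refine rok_ds (s := 1) (nlo := 429) (nhi := 439) (q := 480) (by decide) (by decide) (by decide) (by decide) (k := 1) (by decide) (Q := [(947, 3886, -4312), (-947, -3886, 5017), (3005, 2640, -5061)])
    (P := [⟨-13178880, 480, 0⟩, ⟨13486080, -480, 0⟩, ⟨-132464640, 947, 3886⟩, ⟨154122240, -947, -3886⟩, ⟨-155473920, 3005, 2640⟩]) rfl rfl
    (List.mem_of_getElem? (i := 224) rfl) TD_fr TD_cov ?_
  · intro X Y h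
    simp only [List.forall_mem_cons, List.not_mem_nil, false_imp_iff, implies_true, and_true] at h
    push_cast at h ⊢
    obtain ⟨h0, h1, h2, h3, h4⟩ := h
    refine ⟨⟨?_, ?_⟩, ?_, ?_⟩ <;> linarith

theorem TD_rg225 : ROK [.l ⟨0, 80, 0, -57⟩ ⟨0, 80, 0, 57⟩, .l ⟨0, -80, 0, 60⟩ ⟨0, 80, 0, 60⟩, .l ⟨0, 80, 0, -57⟩ ⟨0, -515, 3967, -9420⟩, .l ⟨0, 80, 0, -60⟩ ⟨0, -515, 3967, -9420⟩, .l ⟨0, 80, 0, -57⟩ ⟨0, 515, -3967, -2887⟩, .l ⟨0, 80, 0, -60⟩ ⟨0, 515, -3967, -2887⟩, .l ⟨0, 80, 0, -57⟩ ⟨0, 2935, 2717, 4160⟩, .l ⟨0, 80, 0, -60⟩ ⟨0, 2935, 2717, 4160⟩] := by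
  refine rok_ds (s := 1) (nlo := 57) (nhi := 60) (q := 80) (by decide) (by decide) (by decide) (by decide) (k := 1) (by decide) (Q := [(-515, 3967, 9420), (515, -3967, 2887), (2935, 2717, -4160)])
    (P := [⟨-1751040, 80, 0⟩, ⟨1843200, -80, 0⟩, ⟨289382400, -515, 3967⟩, ⟨88688640, 515, -3967⟩, ⟨-127795200, 2935, 2717⟩]) rfl rfl
    (List.mem_of_getElem? (i := 225) rfl) TD_fr TD_cov ?_
  · intro X Y h
    simp only [List.forall_mem_cons, List.not_mem_nil, false_imp_iff, implies_true, and_true] at h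
    push_cast at h ⊢
    obtain ⟨h0, h1, h2, h3, h4⟩ := h
    refine ⟨⟨?_, ?_⟩, ?_, ?_⟩ <;> linarith

theorem TD_rg226 : ROK [.l ⟨0, 480, 0, -411⟩ ⟨0, 480, 0, 411⟩, .l ⟨0, -480, 0, 419⟩ ⟨0, 480, 0, 419⟩, .l ⟨0, 480, 0, -411⟩ ⟨0, 295, 3989, 2311⟩, .l ⟨0, 480, 0, -419⟩ ⟨0, 295, 3989, 2311⟩, .l ⟨0, 480, 0, -411⟩ ⟨0, -421, -1265, -1423⟩, .l ⟨0, 480, 0, -419⟩ ⟨0, -421, -1265, -1423⟩, .l ⟨0, 480, 0, -411⟩ ⟨0, 862, -3906, -2517⟩, .l ⟨0, 480, 0, -419⟩ ⟨0, 862, -3906, -2517⟩] := by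
  refine rok_ds (s := 1) (nlo := 411) (nhi := 419) (q := 480) (by decide) (by decide) (by decide) (by decide) (k := 1) (by decide) (Q := [(295, 3989, -2311), (-421, -1265, 1423), (862, -3906, 2517)])
    (P := [⟨-12625920, 480, 0⟩, ⟨12871680, -480, 0⟩, ⟨-70993920, 295, 3989⟩, ⟨43714560, -421, -1265⟩, ⟨77322240, 862, -3906⟩]) rfl rfl
    (List.mem_of_getElem? (i := 226) rfl) TD_fr TD_cov ?_
  · intro X Y h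
    simp only [List.forall_mem_cons, List.not_mem_nil, false_imp_iff, implies_true, and_true] at h
    push_cast at h ⊢
    obtain ⟨h0, h1, h2, h3, h4⟩ := h
    refine ⟨⟨?_, ?_⟩, ?_, ?_⟩ <;> linarith

theorem TD_rg227 : ROK [.l ⟨0, 40, 0, -35⟩ ⟨0, 40, 0, 35⟩, .l ⟨0, -40, 0, 38⟩ ⟨0, 40, 0, 38⟩, .l ⟨0, 40, 0, -35⟩ ⟨0, 1094, 3847, 4393⟩, .l ⟨0, 40, 0, -38⟩ ⟨0, 1094, 3847, 4393⟩, .l ⟨0, 40, 0, -35⟩ ⟨0, 1172, -3825, -14354⟩, .l ⟨0, 40, 0, -38⟩ ⟨0, 1172, -3825, -14354⟩, .l ⟨0, 40, 0, -35⟩ ⟨0, 1033, 843, 1688⟩, .l ⟨0, 40, 0, -38⟩ ⟨0, 1033, 843, 1688⟩, .l ⟨0, 40, 0, -35⟩ ⟨0, -2398, -3201, -5523⟩, .l ⟨0, 40, 0, -38⟩ ⟨0, -2398, -3201, -5523⟩] := by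
  refine rok_ds (s := 1) (nlo := 35) (nhi := 38) (q := 40) (by decide) (by decide) (by decide) (by decide) (k := 1) (by decide) (Q := [(1094, 3847, -4393), (1172, -3825, 14354), (1033, 843, -1688), (-2398, -3201, 5523)])
    (P := [⟨-1075200, 40, 0⟩, ⟨1167360, -40, 0⟩, ⟨-134952960, 1094, 3847⟩, ⟨440954880, 1172, -3825⟩, ⟨-51855360, 1033, 843⟩, ⟨169666560, -2398, -3201⟩]) rfl rfl
    (List.mem_of_getElem? (i := 227) rfl) TD_fr TD_cov ?_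
  · intro X Y h
    simp only [List.forall_mem_cons, List.not_mem_nil, false_imp_iff, implies_true, and_true] at h
    push_cast at h ⊢
    obtain ⟨h0, h1, h2, h3, h4, h5⟩ := h
    refine ⟨⟨?_, ?_⟩, ?_, ?_⟩ <;> linarith

theorem TD_rg228 : ROK [.l ⟨0, 960, 0, -853⟩ ⟨0, 960, 0, 853⟩, .l ⟨0, -960, 0, 861⟩ ⟨0, 960, 0, 861⟩, .l ⟨0, 960, 0, -853⟩ ⟨0, 0, 400, 357⟩, .l ⟨0, 960, 0, -861⟩ ⟨0, 0, 400, 357⟩, .l ⟨0, 960, 0, -853⟩ ⟨0, 850, -3909, -3434⟩, .l ⟨0, 960, 0, -861⟩ ⟨0, 850, -3909, -3434⟩, .l ⟨0, 960, 0, -853⟩ ⟨0, -2111, 3398, 1148⟩, .l ⟨0, 960, 0, -861⟩ ⟨0, -2111, 3398, 1148⟩] := by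
  refine rok_ds (s := 1) (nlo := 853) (nhi := 861) (q := 960) (by decide) (by decide) (by decide) (by decide) (k := 1) (by decide) (Q := [(0, 400, -357), (850, -3909, 3434), (-2111, 3398, -1148)])
    (P := [⟨-26204160, 960, 0⟩, ⟨26449920, -960, 0⟩, ⟨-10967040, 0, 400⟩, ⟨105492480, 850, -3909⟩, ⟨-35266560, -2111, 3398⟩]) rfl rfl
    (List.mem_of_getElem? (i := 228) rfl) TD_fr TD_cov ?_
  · intro X Y h
    simp only [List.forall_mem_cons, List.not_mem_nil, false_imp_iff, implies_true, and_true] at h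
    push_cast at h ⊢
    obtain ⟨h0, h1, h2, h3, h4⟩ := h
    refine ⟨⟨?_, ?_⟩, ?_, ?_⟩ <;> linarith

theorem TD_rg229 : ROK [.l ⟨0, 192, 0, -163⟩ ⟨0, 192, 0, 163⟩, .l ⟨0, -192, 0, 165⟩ ⟨0, 192, 0, 165⟩, .l ⟨0, 192, 0, -163⟩ ⟨0, -941, 1765, 119⟩, .l ⟨0, 192, 0, -165⟩ ⟨0, -941, 1765, 119⟩, .l ⟨0, 192, 0, -163⟩ ⟨0, 511, -3967, -2875⟩, .l ⟨0, 192, 0, -165⟩ ⟨0, 511, -3967, -2875⟩] := by
  refine rok_ds (s := 1) (nlo := 163) (nhi := 165) (q := 192) (by decide) (by decide) (by decide) (by decide) (k := 1) (by decide) (Q := [(-941, 1765, -119), (511, -3967, 2875)])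
    (P := [⟨-5007360, 192, 0⟩, ⟨5068800, -192, 0⟩, ⟨-3655680, -941, 1765⟩, ⟨88320000, 511, -3967⟩]) rfl rfl
    (List.mem_of_getElem? (i := 229) rfl) TD_fr TD_cov ?_
  · intro X Y h
    simp only [List.forall_mem_cons, List.not_mem_nil, false_imp_iff, implies_true, and_true] at h
    push_cast at h ⊢
    obtain ⟨h0, h1, h2, h3⟩ := h
    refine ⟨⟨?_, ?_⟩, ?_, ?_⟩ <;> linarith

theorem TD_rg230 : ROK [.l ⟨0, 20, 0, -16⟩ ⟨0, 20, 0, 16⟩, .l ⟨0, -20, 0, 19⟩ ⟨0, 20, 0, 19⟩, .l ⟨0, 20, 0, -16⟩ ⟨0, -2018, 3454, 49⟩, .l ⟨0, 20, 0, -19⟩ ⟨0, -2018, 3454, 49⟩, .l ⟨0, 20, 0, -16⟩ ⟨0, 1009, -1727, -204⟩, .l ⟨0, 20, 0, -19⟩ ⟨0, 1009, -1727, -204⟩, .l ⟨0, 20, 0, -16⟩ ⟨0, 2472, 3145, 3740⟩, .l ⟨0, 20, 0, -19⟩ ⟨0, 2472, 3145, 3740⟩] := by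
  refine rok_ds (s := 1) (nlo := 16) (nhi := 19) (q := 20) (by decide) (by decide) (by decide) (by decide) (k := 1) (by decide) (Q := [(-2018, 3454, -49), (1009, -1727, 204), (2472, 3145, -3740)])
    (P := [⟨-491520, 20, 0⟩, ⟨583680, -20, 0⟩, ⟨-1505280, -2018, 3454⟩, ⟨6266880, 1009, -1727⟩, ⟨-114892800, 2472, 3145⟩]) rfl rfl
    (List.mem_of_getElem? (i := 230) rfl) TD_fr TD_cov ?_
  · intro X Y h
    simp only [List.forall_mem_cons, List.not_mem_nil, false_imp_iff, implies_true, and_true] at h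
    push_cast at h ⊢
    obtain ⟨h0, h1, h2, h3, h4⟩ := h
    refine ⟨⟨?_, ?_⟩, ?_, ?_⟩ <;> linarith

theorem TD_rg231 : ROK [.l ⟨0, 960, 0, -850⟩ ⟨0, 960, 0, 850⟩, .l ⟨0, -960, 0, 859⟩ ⟨0, 960, 0, 859⟩, .l ⟨0, 960, 0, -850⟩ ⟨0, -1454, 3726, 2029⟩, .l ⟨0, 960, 0, -859⟩ ⟨0, -1454, 3726, 2029⟩, .l ⟨0, 960, 0, -850⟩ ⟨0, 1454, -3726, -2697⟩, .l ⟨0, 960, 0, -859⟩ ⟨0, 1454, -3726, -2697⟩, .l ⟨0, 960, 0, -850⟩ ⟨0, 2473, 3144, 5006⟩, .l ⟨0, 960, 0, -859⟩ ⟨0, 2473, 3144, 5006⟩] := by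
  refine rok_ds (s := 1) (nlo := 850) (nhi := 859) (q := 960) (by decide) (by decide) (by decide) (by decide) (k := 1) (by decide) (Q := [(-1454, 3726, -2029), (1454, -3726, 2697), (2473, 3144, -5006)])
    (P := [⟨-26112000, 960, 0⟩, ⟨26388480, -960, 0⟩, ⟨-62330880, -1454, 3726⟩, ⟨82851840, 1454, -3726⟩, ⟨-153784320, 2473, 3144⟩]) rfl rfl
    (List.mem_of_getElem? (i := 231) rfl) TD_fr TD_cov ?_
  · intro X Y h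
    simp only [List.forall_mem_cons, List.not_mem_nil, false_imp_iff, implies_true, and_true] at h
    push_cast at h ⊢
    obtain ⟨h0, h1, h2, h3, h4⟩ := h
    refine ⟨⟨?_, ?_⟩, ?_, ?_⟩ <;> linarith

theorem TD_rg232 : ROK [.l ⟨0, 960, 0, -845⟩ ⟨0, 960, 0, 845⟩, .l ⟨0, -960, 0, 856⟩ ⟨0, 960, 0, 856⟩, .l ⟨0, 960, 0, -845⟩ ⟨0, 0, 2000, 1791⟩, .l ⟨0, 960, 0, -856⟩ ⟨0, 0, 2000, 1791⟩, .l ⟨0, 960, 0, -845⟩ ⟨0, -165, -3997, -4428⟩, .l ⟨0, 960, 0, -856⟩ ⟨0, -165, -3997, -4428⟩, .l ⟨0, 960, 0, -845⟩ ⟨0, 3399, 2108, 4887⟩, .l ⟨0, 960, 0, -856⟩ ⟨0, 3399, 2108, 4887⟩] := by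
  refine rok_ds (s := 1) (nlo := 845) (nhi := 856) (q := 960) (by decide) (by decide) (by decide) (by decide) (k := 1) (by decide) (Q := [(0, 2000, -1791), (-165, -3997, 4428), (3399, 2108, -4887)])
    (P := [⟨-25958400, 960, 0⟩, ⟨26296320, -960, 0⟩, ⟨-55019520, 0, 2000⟩, ⟨136028160, -165, -3997⟩, ⟨-150128640, 3399, 2108⟩]) rfl rfl
    (List.mem_of_getElem? (i := 232) rfl) TD_fr TD_cov ?_
  · intro X Y h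
    simp only [List.forall_mem_cons, List.not_mem_nil, false_imp_iff, implies_true, and_true] at h
    push_cast at h ⊢
    obtain ⟨h0, h1, h2, h3, h4⟩ := h
    refine ⟨⟨?_, ?_⟩, ?_, ?_⟩ <;> linarith

theorem TD_rg233 : ROK [.l ⟨0, 40, 0, -35⟩ ⟨0, 40, 0, 35⟩, .l ⟨0, -40, 0, 38⟩ ⟨0, 40, 0, 38⟩, .l ⟨0, 40, 0, -35⟩ ⟨0, -1995, 3467, -10906⟩, .l ⟨0, 40, 0, -38⟩ ⟨0, -1995, 3467, -10906⟩, .l ⟨0, 40, 0, -35⟩ ⟨0, 1995, -3467, -1115⟩, .l ⟨0, 40, 0, -38⟩ ⟨0, 1995, -3467, -1115⟩, .l ⟨0, 40, 0, -35⟩ ⟨0, 1261, 3796, 3097⟩, .l ⟨0, 40, 0, -38⟩ ⟨0, 1261, 3796, 3097⟩, .l ⟨0, 40, 0, -35⟩ ⟨0, -673, -3943, -3900⟩, .l ⟨0, 40, 0, -38⟩ ⟨0, -673, -3943, -3900⟩] := by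
  refine rok_ds (s := 1) (nlo := 35) (nhi := 38) (q := 40) (by decide) (by decide) (by decide) (by decide) (k := 1) (by decide) (Q := [(-1995, 3467, 10906), (1995, -3467, 1115), (1261, 3796, -3097), (-673, -3943, 3900)])
    (P := [⟨-1075200, 40, 0⟩, ⟨1167360, -40, 0⟩, ⟨335032320, -1995, 3467⟩, ⟨34252800, 1995, -3467⟩, ⟨-95139840, 1261, 3796⟩, ⟨119808000, -673, -3943⟩]) rfl rfl
    (List.mem_of_getElem? (i := 233) rfl) TD_fr TD_cov ?_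
  · intro X Y h
    simp only [List.forall_mem_cons, List.not_mem_nil, false_imp_iff, implies_true, and_true] at h
    push_cast at h ⊢
    obtain ⟨h0, h1, h2, h3, h4, h5⟩ := h
    refine ⟨⟨?_, ?_⟩, ?_, ?_⟩ <;> linarith

theorem TD_rg234 : ROK [.l ⟨0, 960, 0, -861⟩ ⟨0, 960, 0, 861⟩, .l ⟨0, -960, 0, 872⟩ ⟨0, 960, 0, 872⟩, .l ⟨0, 960, 0, -861⟩ ⟨0, 583, 3957, 4046⟩, .l ⟨0, 960, 0, -872⟩ ⟨0, 583, 3957, 4046⟩, .l ⟨0, 960, 0, -861⟩ ⟨0, -583, -3957, -4775⟩, .l ⟨0, 960, 0, -872⟩ ⟨0, -583, -3957, -4775⟩, .l ⟨0, 960, 0, -861⟩ ⟨0, 3592, 1759, 4803⟩, .l ⟨0, 960, 0, -872⟩ ⟨0, 3592, 1759, 4803⟩] := by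
  refine rok_ds (s := 1) (nlo := 861) (nhi := 872) (q := 960) (by decide) (by decide) (by decide) (by decide) (k := 1) (by decide) (Q := [(583, 3957, -4046), (-583, -3957, 4775), (3592, 1759, -4803)])
    (P := [⟨-26449920, 960, 0⟩, ⟨26787840, -960, 0⟩, ⟨-124293120, 583, 3957⟩, ⟨146688000, -583, -3957⟩, ⟨-147548160, 3592, 1759⟩]) rfl rfl
    (List.mem_of_getElem? (i := 234) rfl) TD_fr TD_cov ?_
  · intro X Y h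
    simp only [List.forall_mem_cons, List.not_mem_nil, false_imp_iff, implies_true, and_true] at h
    push_cast at h ⊢
    obtain ⟨h0, h1, h2, h3, h4⟩ := h
    refine ⟨⟨?_, ?_⟩, ?_, ?_⟩ <;> linarith

theorem TD_rg235 : ROK [.l ⟨0, 96, 0, -85⟩ ⟨0, 96, 0, 85⟩, .l ⟨0, -96, 0, 86⟩ ⟨0, 96, 0, 86⟩, .l ⟨0, 96, 0, -85⟩ ⟨0, -615, 1183, 507⟩, .l ⟨0, 96, 0, -86⟩ ⟨0, -615, 1183, 507⟩, .l ⟨0, 96, 0, -85⟩ ⟨0, 615, -1183, -719⟩, .l ⟨0, 96, 0, -86⟩ ⟨0, 615, -1183, -719⟩, .l ⟨0, 96, 0, -85⟩ ⟨0, 571, 1205, 1584⟩, .l ⟨0, 96, 0, -86⟩ ⟨0, 571, 1205, 1584⟩] := by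
  refine rok_ds (s := 1) (nlo := 85) (nhi := 86) (q := 96) (by decide) (by decide) (by decide) (by decide) (k := 1) (by decide) (Q := [(-615, 1183, -507), (615, -1183, 719), (571, 1205, -1584)])
    (P := [⟨-2611200, 96, 0⟩, ⟨2641920, -96, 0⟩, ⟨-15575040, -615, 1183⟩, ⟨22087680, 615, -1183⟩, ⟨-48660480, 571, 1205⟩]) rfl rfl
    (List.mem_of_getElem? (i := 235) rfl) TD_fr TD_cov ?_
  · intro X Y h
    simp only [List.forall_mem_cons, List.not_mem_nil, false_imp_iff, implies_true, and_true] at h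
    push_cast at h ⊢
    obtain ⟨h0, h1, h2, h3, h4⟩ := h
    refine ⟨⟨?_, ?_⟩, ?_, ?_⟩ <;> linarith

theorem TD_rg236 : ROK [.l ⟨0, 480, 0, -403⟩ ⟨0, 480, 0, 403⟩, .l ⟨0, -480, 0, 413⟩ ⟨0, 480, 0, 413⟩, .l ⟨0, 480, 0, -403⟩ ⟨0, -703, 3938, -9340⟩, .l ⟨0, 480, 0, -413⟩ ⟨0, -703, 3938, -9340⟩, .l ⟨0, 480, 0, -403⟩ ⟨0, -655, -3946, -3858⟩, .l ⟨0, 480, 0, -413⟩ ⟨0, -655, -3946, -3858⟩, .l ⟨0, 480, 0, -403⟩ ⟨0, 545, 3963, 2536⟩, .l ⟨0, 480, 0, -413⟩ ⟨0, 545, 3963, 2536⟩, .l ⟨0, 480, 0, -403⟩ ⟨0, 229, -1987, -1463⟩, .l ⟨0, 480, 0, -413⟩ ⟨0, 229, -1987, -1463⟩] := by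
  refine rok_ds (s := 1) (nlo := 403) (nhi := 413) (q := 480) (by decide) (by decide) (by decide) (by decide) (k := 1) (by decide) (Q := [(-703, 3938, 9340), (-655, -3946, 3858), (545, 3963, -2536), (229, -1987, 1463)])
    (P := [⟨-12380160, 480, 0⟩, ⟨12687360, -480, 0⟩, ⟨286924800, -703, 3938⟩, ⟨118517760, -655, -3946⟩, ⟨-77905920, 545, 3963⟩, ⟨44943360, 229, -1987⟩]) rfl rfl
    (List.mem_of_getElem? (i := 236) rfl) TD_fr TD_cov ?_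
  · intro X Y h
    simp only [List.forall_mem_cons, List.not_mem_nil, false_imp_iff, implies_true, and_true] at h
    push_cast at h ⊢
    obtain ⟨h0, h1, h2, h3, h4, h5⟩ := h
    refine ⟨⟨?_, ?_⟩, ?_, ?_⟩ <;> linarith

theorem TD_rg237 : ROK [.l ⟨0, 80, 0, -78⟩ ⟨0, 80, 0, 78⟩, .l ⟨0, -80, 0, 81⟩ ⟨0, 80, 0, 81⟩, .l ⟨0, 80, 0, -78⟩ ⟨0, -2539, 3091, 48⟩, .l ⟨0, 80, 0, -81⟩ ⟨0, -2539, 3091, 48⟩, .l ⟨0, 80, 0, -78⟩ ⟨0, -2178, -3355, -5747⟩, .l ⟨0, 80, 0, -81⟩ ⟨0, -2178, -3355, -5747⟩, .l ⟨0, 80, 0, -78⟩ ⟨0, 1708, 1040, 2565⟩, .l ⟨0, 80, 0, -81⟩ ⟨0, 1708, 1040, 2565⟩] := by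
  refine rok_ds (s := 1) (nlo := 78) (nhi := 81) (q := 80) (by decide) (by decide) (by decide) (by decide) (k := 1) (by decide) (Q := [(-2539, 3091, -48), (-2178, -3355, 5747), (1708, 1040, -2565)])
    (P := [⟨-2396160, 80, 0⟩, ⟨2488320, -80, 0⟩, ⟨-1474560, -2539, 3091⟩, ⟨176547840, -2178, -3355⟩, ⟨-78796800, 1708, 1040⟩]) rfl rfl
    (List.mem_of_getElem? (i := 237) rfl) TD_fr TD_cov ?_
  · intro X Y h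
    simp only [List.forall_mem_cons, List.not_mem_nil, false_imp_iff, implies_true, and_true] at h
    push_cast at h ⊢
    obtain ⟨h0, h1, h2, h3, h4⟩ := h
    refine ⟨⟨?_, ?_⟩, ?_, ?_⟩ <;> linarith

theorem TD_rg238 : ROK [.l ⟨0, 960, 0, -823⟩ ⟨0, 960, 0, 823⟩, .l ⟨0, -960, 0, 830⟩ ⟨0, 960, 0, 830⟩, .l ⟨0, 960, 0, -823⟩ ⟨0, 0, 4000, 2061⟩, .l ⟨0, 960, 0, -830⟩ ⟨0, 0, 4000, 2061⟩, .l ⟨0, 960, 0, -823⟩ ⟨0, -249, -1310, -1308⟩, .l ⟨0, 960, 0, -830⟩ ⟨0, -249, -1310, -1308⟩] := by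
  refine rok_ds (s := 1) (nlo := 823) (nhi := 830) (q := 960) (by decide) (by decide) (by decide) (by decide) (k := 1) (by decide) (Q := [(0, 4000, -2061), (-249, -1310, 1308)])
    (P := [⟨-25282560, 960, 0⟩, ⟨25497600, -960, 0⟩, ⟨-63313920, 0, 4000⟩, ⟨40181760, -249, -1310⟩]) rfl rfl
    (List.mem_of_getElem? (i := 238) rfl) TD_fr TD_cov ?_
  · intro X Y h
    simp only [List.forall_mem_cons, List.not_mem_nil, false_imp_iff, implies_true, and_true] at h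
    push_cast at h ⊢
    obtain ⟨h0, h1, h2, h3⟩ := h
    refine ⟨⟨?_, ?_⟩, ?_, ?_⟩ <;> linarith

theorem TD_rg239 : ROK [.l ⟨0, 40, 0, -30⟩ ⟨0, 40, 0, 30⟩, .l ⟨0, -40, 0, 33⟩ ⟨0, 40, 0, 33⟩, .l ⟨0, 40, 0, -30⟩ ⟨0, 0, 32, -73⟩, .l ⟨0, 40, 0, -33⟩ ⟨0, 0, 32, -73⟩, .l ⟨0, 40, 0, -30⟩ ⟨0, 0, -2000, -5993⟩, .l ⟨0, 40, 0, -33⟩ ⟨0, 0, -2000, -5993⟩, .l ⟨0, 40, 0, -30⟩ ⟨0, 1341, 1484, 2073⟩, .l ⟨0, 40, 0, -33⟩ ⟨0, 1341, 1484, 2073⟩, .l ⟨0, 40, 0, -30⟩ ⟨0, -7, -2000, -1655⟩, .l ⟨0, 40, 0, -33⟩ ⟨0, -7, -2000, -1655⟩] := by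
  refine rok_ds (s := 1) (nlo := 30) (nhi := 33) (q := 40) (by decide) (by decide) (by decide) (by decide) (k := 1) (by decide) (Q := [(0, 32, 73), (0, -2000, 5993), (1341, 1484, -2073), (-7, -2000, 1655)])
    (P := [⟨-921600, 40, 0⟩, ⟨1013760, -40, 0⟩, ⟨2242560, 0, 32⟩, ⟨184104960, 0, -2000⟩, ⟨-63682560, 1341, 1484⟩, ⟨50841600, -7, -2000⟩]) rfl rfl
    (List.mem_of_getElem? (i := 239) rfl) TD_fr TD_cov ?_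
  · intro X Y h
    simp only [List.forall_mem_cons, List.not_mem_nil, false_imp_iff, implies_true, and_true] at h
    push_cast at h ⊢
    obtain ⟨h0, h1, h2, h3, h4, h5⟩ := h
    refine ⟨⟨?_, ?_⟩, ?_, ?_⟩ <;> linarith

end Pool.Agent.TET
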