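import Pool.Agent.Helper38_TET.TE_C

/-!
# MP_c7c9bf_co: certificates, family TE
-/

set_option autoImplicit false
set_option maxRecDepth 100000

namespace Pool.Agent.TET

theorem TE_rg24 : ROK [.q ⟨-1, 0, 0, 1⟩ ⟨3391, -3791, -1276, 1676⟩, .q ⟨-1, 0, 0, 1⟩ ⟨73, 0, -1000, 927⟩, .q ⟨-1, 0, 0, 1⟩ ⟨-2267, 2828, -2828, 2267⟩, .q ⟨-1, 0, 0, 1⟩ ⟨-1369, 1271, 1544, -1446⟩] := by
  refine rok_e (k := 1) (by decide) (Q := [(-3791, -1276, 1676), (0, -1000, 927), (2828, -2828, 2267), (1271, 1544, -1446)])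
    (P := [⟨51486720, -3791, -1276⟩, ⟨28477440, 0, -1000⟩, ⟨69642240, 2828, -2828⟩, ⟨-44421120, 1271, 1544⟩]) rfl rfl
    (List.mem_of_getElem? (i := 24) rfl) TE_fr TE_cov ?_
  · intro X Y h
    simp only [List.forall_mem_cons, List.not_mem_nil, false_imp_iff, implies_true, and_true] at h
    push_cast at h ⊢
    obtain ⟨h0, h1, h2, h3⟩ := h
    refine ⟨⟨?_, ?_⟩, ?_, ?_⟩ <;> linarith

theorem TE_rg25 : ROK [.q ⟨-1, 0, 0, 1⟩ ⟨2777, -2976, -2672, 2871⟩, .q ⟨-1, 0, 0, 1⟩ ⟨-171, 531, -3965, 3605⟩, .q ⟨-1, 0, 0, 1⟩ ⟨-3572, 3990, -277, -141⟩, .q ⟨-1, 0, 0, 1⟩ ⟨1341, -2828, 2828, -1341⟩] := by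
  refine rok_e (k := 1) (by decide) (Q := [(-2976, -2672, 2871), (531, -3965, 3605), (3990, -277, -141), (-2828, 2828, -1341)])
    (P := [⟨88197120, -2976, -2672⟩, ⟨110745600, 531, -3965⟩, ⟨-4331520, 3990, -277⟩, ⟨-41195520, -2828, 2828⟩]) rfl rfl
    (List.mem_of_getElem? (i := 25) rfl) TE_fr TE_cov ?_
  · intro X Y h
    simp only [List.forall_mem_cons, List.not_mem_nil, false_imp_iff, implies_true, and_true] at h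
    push_cast at h ⊢
    obtain ⟨h0, h1, h2, h3⟩ := h
    refine ⟨⟨?_, ?_⟩, ?_, ?_⟩ <;> linarith

theorem TE_rg26 : ROK [.q ⟨-1, 0, 0, 1⟩ ⟨-4128, 3991, -274, 411⟩, .q ⟨-1, 0, 0, 1⟩ ⟨431, -800, 3919, -3550⟩, .q ⟨-1, 0, 0, 1⟩ ⟨3667, -3986, -333, 652⟩, .q ⟨-1, 0, 0, 1⟩ ⟨-83, 0, -2000, 2083⟩] := by
  refine rok_e (k := 1) (by decide) (Q := [(3991, -274, 411), (-800, 3919, -3550), (-3986, -333, 652), (0, -2000, 2083)])
    (P := [⟨12625920, 3991, -274⟩, ⟨-109056000, -800, 3919⟩, ⟨20029440, -3986, -333⟩, ⟨63989760, 0, -2000⟩]) rfl rfl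
    (List.mem_of_getElem? (i := 26) rfl) TE_fr TE_cov ?_
  · intro X Y h
    simp only [List.forall_mem_cons, List.not_mem_nil, false_imp_iff, implies_true, and_true] at h
    push_cast at h ⊢
    obtain ⟨h0, h1, h2, h3⟩ := h
    refine ⟨⟨?_, ?_⟩, ?_, ?_⟩ <;> linarith

theorem TE_rg27 : ROK [.q ⟨-1, 0, 0, 1⟩ ⟨2831, -3097, -2532, 2798⟩, .q ⟨-1, 0, 0, 1⟩ ⟨389, -281, -1980, 1872⟩, .q ⟨-1, 0, 0, 1⟩ ⟨-3342, 3713, 1488, -1859⟩, .q ⟨-1, 0, 0, 1⟩ ⟨1341, -2828, 2828, -1341⟩] := by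
  refine rok_e (k := 1) (by decide) (Q := [(-3097, -2532, 2798), (-281, -1980, 1872), (3713, 1488, -1859), (-2828, 2828, -1341)])
    (P := [⟨85954560, -3097, -2532⟩, ⟨57507840, -281, -1980⟩, ⟨-57108480, 3713, 1488⟩, ⟨-41195520, -2828, 2828⟩]) rfl rfl
    (List.mem_of_getElem? (i := 27) rfl) TE_fr TE_cov ?_
  · intro X Y h
    simp only [List.forall_mem_cons, List.not_mem_nil, false_imp_iff, implies_true, and_true] at h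
    push_cast at h ⊢
    obtain ⟨h0, h1, h2, h3⟩ := h
    refine ⟨⟨?_, ?_⟩, ?_, ?_⟩ <;> linarith

theorem TE_rg28 : ROK [.q ⟨-1, 0, 0, 1⟩ ⟨-445, 860, -3907, 3492⟩, .q ⟨-1, 0, 0, 1⟩ ⟨-1834, 2000, 15, -181⟩, .q ⟨-1, 0, 0, 1⟩ ⟨770, -1492, 3711, -2989⟩, .q ⟨-1, 0, 0, 1⟩ ⟨94, -101, -101, 108⟩] := by
  refine rok_e (k := 1) (by decide) (Q := [(860, -3907, 3492), (2000, 15, -181), (-1492, 3711, -2989), (-101, -101, 108)])
    (P := [⟨107274240, 860, -3907⟩, ⟨-5560320, 2000, 15⟩, ⟨-91822080, -1492, 3711⟩, ⟨3317760, -101, -101⟩]) rfl rfl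
    (List.mem_of_getElem? (i := 28) rfl) TE_fr TE_cov ?_
  · intro X Y h
    simp only [List.forall_mem_cons, List.not_mem_nil, false_imp_iff, implies_true, and_true] at h
    push_cast at h ⊢
    obtain ⟨h0, h1, h2, h3⟩ := h
    refine ⟨⟨?_, ?_⟩, ?_, ?_⟩ <;> linarith

theorem TE_rg29 : ROK [.q ⟨-1, 0, 0, 1⟩ ⟨-540, 707, -707, 540⟩, .q ⟨-1, 0, 0, 1⟩ ⟨-1127, 556, 3961, -3390⟩, .q ⟨-1, 0, 0, 1⟩ ⟨2552, -3314, 2241, -1479⟩, .q ⟨-1, 0, 0, 1⟩ ⟨2329, -2464, -3151, 3286⟩] := by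
  refine rok_e (k := 1) (by decide) (Q := [(707, -707, 540), (556, 3961, -3390), (-3314, 2241, -1479), (-2464, -3151, 3286)])
    (P := [⟨16588800, 707, -707⟩, ⟨-104140800, 556, 3961⟩, ⟨-45434880, -3314, 2241⟩, ⟨100945920, -2464, -3151⟩]) rfl rfl
    (List.mem_of_getElem? (i := 29) rfl) TE_fr TE_cov ?_
  · intro X Y h
    simp only [List.forall_mem_cons, List.not_mem_nil, false_imp_iff, implies_true, and_true] at h
    push_cast at h ⊢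
    obtain ⟨h0, h1, h2, h3⟩ := h
    refine ⟨⟨?_, ?_⟩, ?_, ?_⟩ <;> linarith

theorem TE_rg30 : ROK [.q ⟨-1, 0, 0, 1⟩ ⟨1441, -2928, 2725, -1238⟩, .q ⟨-1, 0, 0, 1⟩ ⟨191, -202, -202, 213⟩, .q ⟨-1, 0, 0, 1⟩ ⟨-791, 1224, -3808, 3375⟩, .q ⟨-1, 0, 0, 1⟩ ⟨-2907, 3055, 2582, -2730⟩] := by
  refine rok_e (k := 1) (by decide) (Q := [(-2928, 2725, -1238), (-202, -202, 213), (1224, -3808, 3375), (3055, 2582, -2730)])
    (P := [⟨-38031360, -2928, 2725⟩, ⟨6543360, -202, -202⟩, ⟨103680000, 1224, -3808⟩, ⟨-83865600, 3055, 2582⟩]) rfl rfl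
    (List.mem_of_getElem? (i := 30) rfl) TE_fr TE_cov ?_
  · intro X Y h
    simp only [List.forall_mem_cons, List.not_mem_nil, false_imp_iff, implies_true, and_true] at h
    push_cast at h ⊢
    obtain ⟨h0, h1, h2, h3⟩ := h
    refine ⟨⟨?_, ?_⟩, ?_, ?_⟩ <;> linarith

theorem TE_rg31 : ROK [.q ⟨-1, 0, 0, 1⟩ ⟨-2563, 3164, -2448, 1847⟩, .q ⟨-1, 0, 0, 1⟩ ⟨-3365, 3282, 2287, -2204⟩, .q ⟨-1, 0, 0, 1⟩ ⟨3431, -4000, 0, 569⟩, .q ⟨-1, 0, 0, 1⟩ ⟨390, -283, -1980, 1873⟩] := by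
  refine rok_e (k := 1) (by decide) (Q := [(3164, -2448, 1847), (3282, 2287, -2204), (-4000, 0, 569), (-283, -1980, 1873)])
    (P := [⟨56739840, 3164, -2448⟩, ⟨-67706880, 3282, 2287⟩, ⟨17479680, -4000, 0⟩, ⟨57538560, -283, -1980⟩]) rfl rfl
    (List.mem_of_getElem? (i := 31) rfl) TE_fr TE_cov ?_
  · intro X Y h
    simp only [List.forall_mem_cons, List.not_mem_nil, false_imp_iff, implies_true, and_true] at h
    push_cast at h ⊢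
    obtain ⟨h0, h1, h2, h3⟩ := h
    refine ⟨⟨?_, ?_⟩, ?_, ?_⟩ <;> linarith

theorem TE_rg32 : ROK [.q ⟨-1, 0, 0, 1⟩ ⟨2141, -2828, -2828, 3515⟩, .q ⟨-1, 0, 0, 1⟩ ⟨-3121, 3881, -969, 209⟩, .q ⟨-1, 0, 0, 1⟩ ⟨1341, -2828, 2828, -1341⟩] := by
  refine rok_e (k := 1) (by decide) (Q := [(-2828, -2828, 3515), (3881, -969, 209), (-2828, 2828, -1341)])
    (P := [⟨107980800, -2828, -2828⟩, ⟨6420480, 3881, -969⟩, ⟨-41195520, -2828, 2828⟩]) rfl rfl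
    (List.mem_of_getElem? (i := 32) rfl) TE_fr TE_cov ?_
  · intro X Y h
    simp only [List.forall_mem_cons, List.not_mem_nil, false_imp_iff, implies_true, and_true] at h
    push_cast at h ⊢
    obtain ⟨h0, h1, h2⟩ := h
    refine ⟨⟨?_, ?_⟩, ?_, ?_⟩ <;> linarith

theorem TE_rg33 : ROK [.q ⟨-1, 0, 0, 1⟩ ⟨565, -965, 3882, -3482⟩, .q ⟨-1, 0, 0, 1⟩ ⟨183, -200, 0, 17⟩, .q ⟨-1, 0, 0, 1⟩ ⟨756, -751, -3929, 3924⟩, .q ⟨-1, 0, 0, 1⟩ ⟨-4069, 3855, 1066, -852⟩] := by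
  refine rok_e (k := 1) (by decide) (Q := [(-965, 3882, -3482), (-200, 0, 17), (-751, -3929, 3924), (3855, 1066, -852)])
    (P := [⟨-106967040, -965, 3882⟩, ⟨522240, -200, 0⟩, ⟨120545280, -751, -3929⟩, ⟨-26173440, 3855, 1066⟩]) rfl rfl
    (List.mem_of_getElem? (i := 33) rfl) TE_fr TE_cov ?_
  · intro X Y h
    simp only [List.forall_mem_cons, List.not_mem_nil, false_imp_iff, implies_true, and_true] at h
    push_cast at h ⊢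
    obtain ⟨h0, h1, h2, h3⟩ := h
    refine ⟨⟨?_, ?_⟩, ?_, ?_⟩ <;> linarith

theorem TE_rg34 : ROK [.q ⟨-1, 0, 0, 1⟩ ⟨-2525, 3033, -2608, 2100⟩, .q ⟨-1, 0, 0, 1⟩ ⟨-3654, 3986, -339, 7⟩, .q ⟨-1, 0, 0, 1⟩ ⟨435, -962, 3883, -3356⟩, .q ⟨-1, 0, 0, 1⟩ ⟨1124, -1201, -579, 656⟩] := by
  refine rok_e (k := 1) (by decide) (Q := [(3033, -2608, 2100), (3986, -339, 7), (-962, 3883, -3356), (-1201, -579, 656)])
    (P := [⟨64512000, 3033, -2608⟩, ⟨215040, 3986, -339⟩, ⟨-103096320, -962, 3883⟩, ⟨20152320, -1201, -579⟩]) rfl rfl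
    (List.mem_of_getElem? (i := 34) rfl) TE_fr TE_cov ?_
  · intro X Y h
    simp only [List.forall_mem_cons, List.not_mem_nil, false_imp_iff, implies_true, and_true] at h
    push_cast at h ⊢
    obtain ⟨h0, h1, h2, h3⟩ := h
    refine ⟨⟨?_, ?_⟩, ?_, ?_⟩ <;> linarith

theorem TE_rg35 : ROK [.q ⟨-1, 0, 0, 1⟩ ⟨3194, -3597, -1749, 2152⟩, .q ⟨-1, 0, 0, 1⟩ ⟨998, -823, -3914, 3739⟩, .q ⟨-1, 0, 0, 1⟩ ⟨-1158, 1331, 80, -253⟩, .q ⟨-1, 0, 0, 1⟩ ⟨-2961, 2942, 2710, -2691⟩] := by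
  refine rok_e (k := 1) (by decide) (Q := [(-3597, -1749, 2152), (-823, -3914, 3739), (1331, 80, -253), (2942, 2710, -2691)])
    (P := [⟨66109440, -3597, -1749⟩, ⟨114862080, -823, -3914⟩, ⟨-7772160, 1331, 80⟩, ⟨-82667520, 2942, 2710⟩]) rfl rfl
    (List.mem_of_getElem? (i := 35) rfl) TE_fr TE_cov ?_
  · intro X Y h
    simp only [List.forall_mem_cons, List.not_mem_nil, false_imp_iff, implies_true, and_true] at h
    push_cast at h ⊢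
    obtain ⟨h0, h1, h2, h3⟩ := h
    refine ⟨⟨?_, ?_⟩, ?_, ?_⟩ <;> linarith

theorem TE_rg36 : ROK [.q ⟨-1, 0, 0, 1⟩ ⟨654, -707, -707, 760⟩, .q ⟨-1, 0, 0, 1⟩ ⟨-2755, 2584, -3053, 3224⟩, .q ⟨-1, 0, 0, 1⟩ ⟨-4199, 3985, 343, -129⟩, .q ⟨-1, 0, 0, 1⟩ ⟨-309, 0, 4000, -3691⟩, .q ⟨-1, 0, 0, 1⟩ ⟨2465, -2828, 2828, -2465⟩] := by
  refine rok_e (k := 1) (by decide) (Q := [(-707, -707, 760), (2584, -3053, 3224), (3985, 343, -129), (0, 4000, -3691), (-2828, 2828, -2465)])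
    (P := [⟨23347200, -707, -707⟩, ⟨99041280, 2584, -3053⟩, ⟨-3962880, 3985, 343⟩, ⟨-113387520, 0, 4000⟩, ⟨-75724800, -2828, 2828⟩]) rfl rfl
    (List.mem_of_getElem? (i := 36) rfl) TE_fr TE_cov ?_
  · intro X Y h
    simp only [List.forall_mem_cons, List.not_mem_nil, false_imp_iff, implies_true, and_true] at h
    push_cast at h ⊢
    obtain ⟨h0, h1, h2, h3, h4⟩ := h
    refine ⟨⟨?_, ?_⟩, ?_, ?_⟩ <;> linarith

theorem TE_rg37 : ROK [.q ⟨-1, 0, 0, 1⟩ ⟨-291, 0, 4000, -3709⟩, .q ⟨-1, 0, 0, 1⟩ ⟨1567, -2441, -3169, 4043⟩, .q ⟨-1, 0, 0, 1⟩ ⟨-99, 0, -4000, 4099⟩, .q ⟨-1, 0, 0, 1⟩ ⟨-3186, 3947, -652, -109⟩] := by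
  refine rok_e (k := 1) (by decide) (Q := [(0, 4000, -3709), (-2441, -3169, 4043), (0, -4000, 4099), (3947, -652, -109)])
    (P := [⟨-113940480, 0, 4000⟩, ⟨124200960, -2441, -3169⟩, ⟨125921280, 0, -4000⟩, ⟨-3348480, 3947, -652⟩]) rfl rfl
    (List.mem_of_getElem? (i := 37) rfl) TE_fr TE_cov ?_
  · intro X Y h
    simp only [List.forall_mem_cons, List.not_mem_nil, false_imp_iff, implies_true, and_true] at h
    push_cast at h ⊢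
    obtain ⟨h0, h1, h2, h3⟩ := h
    refine ⟨⟨?_, ?_⟩, ?_, ?_⟩ <;> linarith

theorem TE_rg38 : ROK [.q ⟨-1, 0, 0, 1⟩ ⟨-2273, 2828, -2828, 2273⟩, .q ⟨-1, 0, 0, 1⟩ ⟨898, -1458, 3725, -3165⟩, .q ⟨-1, 0, 0, 1⟩ ⟨3455, -3946, -656, 1147⟩, .q ⟨-1, 0, 0, 1⟩ ⟨293, 0, -4000, 3707⟩] := by
  refine rok_e (k := 1) (by decide) (Q := [(2828, -2828, 2273), (-1458, 3725, -3165), (-3946, -656, 1147), (0, -4000, 3707)])
    (P := [⟨69826560, 2828, -2828⟩, ⟨-97228800, -1458, 3725⟩, ⟨35235840, -3946, -656⟩, ⟨113879040, 0, -4000⟩]) rfl rfl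
    (List.mem_of_getElem? (i := 38) rfl) TE_fr TE_cov ?_
  · intro X Y h
    simp only [List.forall_mem_cons, List.not_mem_nil, false_imp_iff, implies_true, and_true] at h
    push_cast at h ⊢
    obtain ⟨h0, h1, h2, h3⟩ := h
    refine ⟨⟨?_, ?_⟩, ?_, ?_⟩ <;> linarith

theorem TE_rg39 : ROK [.q ⟨-1, 0, 0, 1⟩ ⟨-569, 189, 3996, -3616⟩, .q ⟨-1, 0, 0, 1⟩ ⟨2147, -2097, -3406, 3356⟩, .q ⟨-1, 0, 0, 1⟩ ⟨-2294, 2793, -2863, 2364⟩] := by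
  refine rok_e (k := 1) (by decide) (Q := [(189, 3996, -3616), (-2097, -3406, 3356), (2793, -2863, 2364)])
    (P := [⟨-111083520, 189, 3996⟩, ⟨103096320, -2097, -3406⟩, ⟨72622080, 2793, -2863⟩]) rfl rfl
    (List.mem_of_getElem? (i := 39) rfl) TE_fr TE_cov ?_
  · intro X Y h
    simp only [List.forall_mem_cons, List.not_mem_nil, false_imp_iff, implies_true, and_true] at h
    push_cast at h ⊢
    obtain ⟨h0, h1, h2⟩ := h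
    refine ⟨⟨?_, ?_⟩, ?_, ?_⟩ <;> linarith

theorem TE_rg40 : ROK [.q ⟨-1, 0, 0, 1⟩ ⟨1151, -1519, 1301, -933⟩, .q ⟨-1, 0, 0, 1⟩ ⟨1058, -861, -3906, 3709⟩, .q ⟨-1, 0, 0, 1⟩ ⟨-1818, 2308, -3267, 2777⟩, .q ⟨-1, 0, 0, 1⟩ ⟨-1433, 1414, 1414, -1395⟩] := by
  refine rok_e (k := 1) (by decide) (Q := [(-1519, 1301, -933), (-861, -3906, 3709), (2308, -3267, 2777), (1414, 1414, -1395)])
    (P := [⟨-28661760, -1519, 1301⟩, ⟨113940480, -861, -3906⟩, ⟨85309440, 2308, -3267⟩, ⟨-42854400, 1414, 1414⟩]) rfl rfl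
    (List.mem_of_getElem? (i := 40) rfl) TE_fr TE_cov ?_
  · intro X Y h
    simp only [List.forall_mem_cons, List.not_mem_nil, false_imp_iff, implies_true, and_true] at h
    push_cast at h ⊢
    obtain ⟨h0, h1, h2, h3⟩ := h
    refine ⟨⟨?_, ?_⟩, ?_, ?_⟩ <;> linarith

theorem TE_rg41 : ROK [.q ⟨-1, 0, 0, 1⟩ ⟨-1161, 1414, -1414, 1161⟩, .q ⟨-1, 0, 0, 1⟩ ⟨-1579, 1953, 431, -805⟩, .q ⟨-1, 0, 0, 1⟩ ⟨1070, -2446, 3165, -1789⟩, .q ⟨-1, 0, 0, 1⟩ ⟨2416, -3729, -1448, 2761⟩] := by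
  refine rok_e (k := 1) (by decide) (Q := [(1414, -1414, 1161), (1953, 431, -805), (-2446, 3165, -1789), (-3729, -1448, 2761)])
    (P := [⟨35665920, 1414, -1414⟩, ⟨-24729600, 1953, 431⟩, ⟨-54958080, -2446, 3165⟩, ⟨84817920, -3729, -1448⟩]) rfl rfl
    (List.mem_of_getElem? (i := 41) rfl) TE_fr TE_cov ?_
  · intro X Y h
    simp only [List.forall_mem_cons, List.not_mem_nil, false_imp_iff, implies_true, and_true] at h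
    push_cast at h ⊢
    obtain ⟨h0, h1, h2, h3⟩ := h
    refine ⟨⟨?_, ?_⟩, ?_, ?_⟩ <;> linarith

theorem TE_rg42 : ROK [.q ⟨-1, 0, 0, 1⟩ ⟨-3056, 3246, 2337, -2527⟩, .q ⟨-1, 0, 0, 1⟩ ⟨1622, -3097, 2532, -1057⟩, .q ⟨-1, 0, 0, 1⟩ ⟨2509, -2701, -2951, 3143⟩, .q ⟨-1, 0, 0, 1⟩ ⟨333, 0, -4000, 3667⟩] := by
  refine rok_e (k := 1) (by decide) (Q := [(3246, 2337, -2527), (-3097, 2532, -1057), (-2701, -2951, 3143), (0, -4000, 3667)])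
    (P := [⟨-77629440, 3246, 2337⟩, ⟨-32471040, -3097, 2532⟩, ⟨96552960, -2701, -2951⟩, ⟨112650240, 0, -4000⟩]) rfl rfl
    (List.mem_of_getElem? (i := 42) rfl) TE_fr TE_cov ?_
  · intro X Y h
    simp only [List.forall_mem_cons, List.not_mem_nil, false_imp_iff, implies_true, and_true] at h
    push_cast at h ⊢
    obtain ⟨h0, h1, h2, h3⟩ := h
    refine ⟨⟨?_, ?_⟩, ?_, ?_⟩ <;> linarith

theorem TE_rg43 : ROK [.q ⟨-1, 0, 0, 1⟩ ⟨-2934, 3708, -1501, 727⟩, .q ⟨-1, 0, 0, 1⟩ ⟨-285, -842, 3910, -2783⟩, .q ⟨-1, 0, 0, 1⟩ ⟨2879, -3556, -1831, 2508⟩] := by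
  refine rok_e (k := 1) (by decide) (Q := [(3708, -1501, 727), (-842, 3910, -2783), (-3556, -1831, 2508)])
    (P := [⟨22333440, 3708, -1501⟩, ⟨-85493760, -842, 3910⟩, ⟨77045760, -3556, -1831⟩]) rfl rfl
    (List.mem_of_getElem? (i := 43) rfl) TE_fr TE_cov ?_
  · intro X Y h
    simp only [List.forall_mem_cons, List.not_mem_nil, false_imp_iff, implies_true, and_true] at h
    push_cast at h ⊢
    obtain ⟨h0, h1, h2⟩ := h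
    refine ⟨⟨?_, ?_⟩, ?_, ?_⟩ <;> linarith

theorem TE_rg44 : ROK [.q ⟨-1, 0, 0, 1⟩ ⟨926, -1669, -3635, 4378⟩, .q ⟨-1, 0, 0, 1⟩ ⟨-2915, 3687, -1551, 779⟩, .q ⟨-1, 0, 0, 1⟩ ⟨-2335, 2506, 3118, -3289⟩, .q ⟨-1, 0, 0, 1⟩ ⟨2469, -3905, 866, 570⟩] := by
  refine rok_e (k := 1) (by decide) (Q := [(-1669, -3635, 4378), (3687, -1551, 779), (2506, 3118, -3289), (-3905, 866, 570)])
    (P := [⟨134492160, -1669, -3635⟩, ⟨23930880, 3687, -1551⟩, ⟨-101038080, 2506, 3118⟩, ⟨17510400, -3905, 866⟩]) rfl rfl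
    (List.mem_of_getElem? (i := 44) rfl) TE_fr TE_cov ?_
  · intro X Y h
    simp only [List.forall_mem_cons, List.not_mem_nil, false_imp_iff, implies_true, and_true] at h
    push_cast at h ⊢
    obtain ⟨h0, h1, h2, h3⟩ := h
    refine ⟨⟨?_, ?_⟩, ?_, ?_⟩ <;> linarith

theorem TE_rg45 : ROK [.q ⟨-1, 0, 0, 1⟩ ⟨59, 0, -800, 741⟩, .q ⟨-1, 0, 0, 1⟩ ⟨-3199, 3776, -1320, 743⟩, .q ⟨-1, 0, 0, 1⟩ ⟨650, -1038, 837, -449⟩, .q ⟨-1, 0, 0, 1⟩ ⟨2748, -2966, -2683, 2901⟩] := by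
  refine rok_e (k := 1) (by decide) (Q := [(0, -800, 741), (3776, -1320, 743), (-1038, 837, -449), (-2966, -2683, 2901)])
    (P := [⟨22763520, 0, -800⟩, ⟨22824960, 3776, -1320⟩, ⟨-13793280, -1038, 837⟩, ⟨89118720, -2966, -2683⟩]) rfl rfl
    (List.mem_of_getElem? (i := 45) rfl) TE_fr TE_cov ?_
  · intro X Y h
    simp only [List.forall_mem_cons, List.not_mem_nil, false_imp_iff, implies_true, and_true] at h
    push_cast at h ⊢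
    obtain ⟨h0, h1, h2, h3⟩ := h
    refine ⟨⟨?_, ?_⟩, ?_, ?_⟩ <;> linarith

theorem TE_rg46 : ROK [.q ⟨-1, 0, 0, 1⟩ ⟨183, -250, 0, 67⟩, .q ⟨-1, 0, 0, 1⟩ ⟨1849, -1834, -3555, 3540⟩, .q ⟨-1, 0, 0, 1⟩ ⟨-205, 570, -3959, 3594⟩, .q ⟨-1, 0, 0, 1⟩ ⟨-3369, 3890, -931, 410⟩, .q ⟨-1, 0, 0, 1⟩ ⟨-1041, 0, 4000, -2959⟩] := by
  refine rok_e (k := 1) (by decide) (Q := [(-250, 0, 67), (-1834, -3555, 3540), (570, -3959, 3594), (3890, -931, 410), (0, 4000, -2959)])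
    (P := [⟨2058240, -250, 0⟩, ⟨108748800, -1834, -3555⟩, ⟨110407680, 570, -3959⟩, ⟨12595200, 3890, -931⟩, ⟨-90900480, 0, 4000⟩]) rfl rfl
    (List.mem_of_getElem? (i := 46) rfl) TE_fr TE_cov ?_
  · intro X Y h
    simp only [List.forall_mem_cons, List.not_mem_nil, false_imp_iff, implies_true, and_true] at h
    push_cast at h ⊢
    obtain ⟨h0, h1, h2, h3, h4⟩ := h
    refine ⟨⟨?_, ?_⟩, ?_, ?_⟩ <;> linarith

theorem TE_rg47 : ROK [.q ⟨-1, 0, 0, 1⟩ ⟨2677, -2897, -2758, 2978⟩, .q ⟨-1, 0, 0, 1⟩ ⟨561, -306, -3988, 3733⟩, .q ⟨-1, 0, 0, 1⟩ ⟨-3352, 3689, 1545, -1882⟩, .q ⟨-1, 0, 0, 1⟩ ⟨-324, -825, 3914, -2765⟩] := by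
  refine rok_e (k := 1) (by decide) (Q := [(-2897, -2758, 2978), (-306, -3988, 3733), (3689, 1545, -1882), (-825, 3914, -2765)])
    (P := [⟨91484160, -2897, -2758⟩, ⟨114677760, -306, -3988⟩, ⟨-57815040, 3689, 1545⟩, ⟨-84940800, -825, 3914⟩]) rfl rfl
    (List.mem_of_getElem? (i := 47) rfl) TE_fr TE_cov ?_
  · intro X Y h
    simp only [List.forall_mem_cons, List.not_mem_nil, false_imp_iff, implies_true, and_true] at h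
    push_cast at h ⊢
    obtain ⟨h0, h1, h2, h3⟩ := h
    refine ⟨⟨?_, ?_⟩, ?_, ?_⟩ <;> linarith

end Pool.Agent.TET
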