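import Pool.Agent.Helper38_TET.TE_C

/-!
# MP_c7c9bf_co: certificates, family TE
-/

set_option autoImplicit false
set_option maxRecDepth 100000

namespace Pool.Agent.TET

theorem TE_rg48 : ROK [.q ⟨-1, 0, 0, 1⟩ ⟨377, -77, -3999, 3699⟩, .q ⟨-1, 0, 0, 1⟩ ⟨-1388, 1640, -1145, 893⟩, .q ⟨-1, 0, 0, 1⟩ ⟨-1364, 1281, 1536, -1453⟩, .q ⟨-1, 0, 0, 1⟩ ⟨1519, -1862, 730, -387⟩] := by
  refine rok_e (k := 1) (by decide) (Q := [(-77, -3999, 3699), (1640, -1145, 893), (1281, 1536, -1453), (-1862, 730, -387)])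
    (P := [⟨113633280, -77, -3999⟩, ⟨27432960, 1640, -1145⟩, ⟨-44636160, 1281, 1536⟩, ⟨-11888640, -1862, 730⟩]) rfl rfl
    (List.mem_of_getElem? (i := 48) rfl) TE_fr TE_cov ?_
  · intro X Y h
    simp only [List.forall_mem_cons, List.not_mem_nil, false_imp_iff, implies_true, and_true] at h
    push_cast at h ⊢
    obtain ⟨h0, h1, h2, h3⟩ := h
    refine ⟨⟨?_, ?_⟩, ?_, ?_⟩ <;> linarith

theorem TE_rg49 : ROK [.q ⟨-1, 0, 0, 1⟩ ⟨2490, -2851, -2806, 3167⟩, .q ⟨-1, 0, 0, 1⟩ ⟨-6, 0, -125, 131⟩, .q ⟨-1, 0, 0, 1⟩ ⟨-2931, 3001, 2644, -2714⟩, .q ⟨-1, 0, 0, 1⟩ ⟨2701, -2993, 2654, -2362⟩] := by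
  refine rok_e (k := 1) (by decide) (Q := [(-2851, -2806, 3167), (0, -125, 131), (3001, 2644, -2714), (-2993, 2654, -2362)])
    (P := [⟨97290240, -2851, -2806⟩, ⟨4024320, 0, -125⟩, ⟨-83374080, 3001, 2644⟩, ⟨-72560640, -2993, 2654⟩]) rfl rfl
    (List.mem_of_getElem? (i := 49) rfl) TE_fr TE_cov ?_
  · intro X Y h
    simp only [List.forall_mem_cons, List.not_mem_nil, false_imp_iff, implies_true, and_true] at h
    push_cast at h ⊢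
    obtain ⟨h0, h1, h2, h3⟩ := h
    refine ⟨⟨?_, ?_⟩, ?_, ?_⟩ <;> linarith

theorem TE_rg50 : ROK [.q ⟨-1, 0, 0, 1⟩ ⟨49, -97, 794, -746⟩, .q ⟨-1, 0, 0, 1⟩ ⟨3456, -3871, 1009, -594⟩, .q ⟨-1, 0, 0, 1⟩ ⟨1708, -1989, -3470, 3751⟩, .q ⟨-1, 0, 0, 1⟩ ⟨-397, 404, -404, 397⟩] := by
  refine rok_e (k := 1) (by decide) (Q := [(-97, 794, -746), (-3871, 1009, -594), (-1989, -3470, 3751), (404, -404, 397)])
    (P := [⟨-22917120, -97, 794⟩, ⟨-18247680, -3871, 1009⟩, ⟨115230720, -1989, -3470⟩, ⟨12195840, 404, -404⟩]) rfl rfl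
    (List.mem_of_getElem? (i := 50) rfl) TE_fr TE_cov ?_
  · intro X Y h
    simp only [List.forall_mem_cons, List.not_mem_nil, false_imp_iff, implies_true, and_true] at h
    push_cast at h ⊢
    obtain ⟨h0, h1, h2, h3⟩ := h
    refine ⟨⟨?_, ?_⟩, ?_, ?_⟩ <;> linarith

theorem TE_rg51 : ROK [.q ⟨-1, 0, 0, 1⟩ ⟨-1145, 898, 3898, -3651⟩, .q ⟨-1, 0, 0, 1⟩ ⟨3397, -4000, 0, 603⟩, .q ⟨-1, 0, 0, 1⟩ ⟨1049, -883, -3901, 3735⟩, .q ⟨-1, 0, 0, 1⟩ ⟨-250, 453, -1948, 1745⟩] := by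
  refine rok_e (k := 1) (by decide) (Q := [(898, 3898, -3651), (-4000, 0, 603), (-883, -3901, 3735), (453, -1948, 1745)])
    (P := [⟨-112158720, 898, 3898⟩, ⟨18524160, -4000, 0⟩, ⟨114739200, -883, -3901⟩, ⟨53606400, 453, -1948⟩]) rfl rfl
    (List.mem_of_getElem? (i := 51) rfl) TE_fr TE_cov ?_
  · intro X Y h
    simp only [List.forall_mem_cons, List.not_mem_nil, false_imp_iff, implies_true, and_true] at h
    push_cast at h ⊢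
    obtain ⟨h0, h1, h2, h3⟩ := h
    refine ⟨⟨?_, ?_⟩, ?_, ?_⟩ <;> linarith

theorem TE_rg52 : ROK [.q ⟨-1, 0, 0, 1⟩ ⟨-2097, 2600, -3040, 2537⟩, .q ⟨-1, 0, 0, 1⟩ ⟨-1848, 1612, 3661, -3425⟩, .q ⟨-1, 0, 0, 1⟩ ⟨831, -1000, 0, 169⟩, .q ⟨-1, 0, 0, 1⟩ ⟨380, -318, -1295, 1233⟩] := by
  refine rok_e (k := 1) (by decide) (Q := [(2600, -3040, 2537), (1612, 3661, -3425), (-1000, 0, 169), (-318, -1295, 1233)])
    (P := [⟨77936640, 2600, -3040⟩, ⟨-105216000, 1612, 3661⟩, ⟨5191680, -1000, 0⟩, ⟨37877760, -318, -1295⟩]) rfl rfl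
    (List.mem_of_getElem? (i := 52) rfl) TE_fr TE_cov ?_
  · intro X Y h
    simp only [List.forall_mem_cons, List.not_mem_nil, false_imp_iff, implies_true, and_true] at h
    push_cast at h ⊢
    obtain ⟨h0, h1, h2, h3⟩ := h
    refine ⟨⟨?_, ?_⟩, ?_, ?_⟩ <;> linarith

theorem TE_rg53 : ROK [.q ⟨-1, 0, 0, 1⟩ ⟨3375, -3793, 1270, -852⟩, .q ⟨-1, 0, 0, 1⟩ ⟨1333, -1490, -1334, 1491⟩, .q ⟨-1, 0, 0, 1⟩ ⟨-738, 563, -3960, 4135⟩, .q ⟨-1, 0, 0, 1⟩ ⟨-3651, 3596, 1751, -1696⟩, .q ⟨-1, 0, 0, 1⟩ ⟨731, -1137, 3835, -3429⟩] := by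
  refine rok_e (k := 1) (by decide) (Q := [(-3793, 1270, -852), (-1490, -1334, 1491), (563, -3960, 4135), (3596, 1751, -1696), (-1137, 3835, -3429)])
    (P := [⟨-26173440, -3793, 1270⟩, ⟨45803520, -1490, -1334⟩, ⟨127027200, 563, -3960⟩, ⟨-52101120, 3596, 1751⟩, ⟨-105338880, -1137, 3835⟩]) rfl rfl
    (List.mem_of_getElem? (i := 53) rfl) TE_fr TE_cov ?_
  · intro X Y h
    simp only [List.forall_mem_cons, List.not_mem_nil, false_imp_iff, implies_true, and_true] at h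
    push_cast at h ⊢
    obtain ⟨h0, h1, h2, h3, h4⟩ := h
    refine ⟨⟨?_, ?_⟩, ?_, ?_⟩ <;> linarith

theorem TE_rg54 : ROK [.q ⟨-1, 0, 0, 1⟩ ⟨-1813, 1884, 672, -743⟩, .q ⟨-1, 0, 0, 1⟩ ⟨280, -1593, 3669, -2356⟩, .q ⟨-1, 0, 0, 1⟩ ⟨2638, -2836, -2821, 3019⟩, .q ⟨-1, 0, 0, 1⟩ ⟨-1148, 1657, -3641, 3132⟩] := by
  refine rok_e (k := 1) (by decide) (Q := [(1884, 672, -743), (-1593, 3669, -2356), (-2836, -2821, 3019), (1657, -3641, 3132)])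
    (P := [⟨-22824960, 1884, 672⟩, ⟨-72376320, -1593, 3669⟩, ⟨92743680, -2836, -2821⟩, ⟨96215040, 1657, -3641⟩]) rfl rfl
    (List.mem_of_getElem? (i := 54) rfl) TE_fr TE_cov ?_
  · intro X Y h
    simp only [List.forall_mem_cons, List.not_mem_nil, false_imp_iff, implies_true, and_true] at h
    push_cast at h ⊢
    obtain ⟨h0, h1, h2, h3⟩ := h
    refine ⟨⟨?_, ?_⟩, ?_, ?_⟩ <;> linarith

theorem TE_rg55 : ROK [.q ⟨-1, 0, 0, 1⟩ ⟨1583, -1776, -920, 1113⟩, .q ⟨-1, 0, 0, 1⟩ ⟨761, -542, -3963, 3744⟩, .q ⟨-1, 0, 0, 1⟩ ⟨-1712, 1918, 567, -773⟩, .q ⟨-1, 0, 0, 1⟩ ⟨-536, 375, 927, -766⟩] := by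
  refine rok_e (k := 1) (by decide) (Q := [(-1776, -920, 1113), (-542, -3963, 3744), (1918, 567, -773), (375, 927, -766)])
    (P := [⟨34191360, -1776, -920⟩, ⟨115015680, -542, -3963⟩, ⟨-23746560, 1918, 567⟩, ⟨-23531520, 375, 927⟩]) rfl rfl
    (List.mem_of_getElem? (i := 55) rfl) TE_fr TE_cov ?_
  · intro X Y h
    simp only [List.forall_mem_cons, List.not_mem_nil, false_imp_iff, implies_true, and_true] at h
    push_cast at h ⊢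
    obtain ⟨h0, h1, h2, h3⟩ := h
    refine ⟨⟨?_, ?_⟩, ?_, ?_⟩ <;> linarith

theorem TE_rg56 : ROK [.q ⟨-1, 0, 0, 1⟩ ⟨693, -1000, 0, 307⟩, .q ⟨-1, 0, 0, 1⟩ ⟨-2196, 2642, -3003, 2557⟩, .q ⟨-1, 0, 0, 1⟩ ⟨-3125, 3859, -1054, 320⟩, .q ⟨-1, 0, 0, 1⟩ ⟨-1517, 1782, 3581, -3846⟩] := by
  refine rok_e (k := 1) (by decide) (Q := [(-1000, 0, 307), (2642, -3003, 2557), (3859, -1054, 320), (1782, 3581, -3846)])
    (P := [⟨9431040, -1000, 0⟩, ⟨78551040, 2642, -3003⟩, ⟨9830400, 3859, -1054⟩, ⟨-118149120, 1782, 3581⟩]) rfl rfl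
    (List.mem_of_getElem? (i := 56) rfl) TE_fr TE_cov ?_
  · intro X Y h
    simp only [List.forall_mem_cons, List.not_mem_nil, false_imp_iff, implies_true, and_true] at h
    push_cast at h ⊢
    obtain ⟨h0, h1, h2, h3⟩ := h
    refine ⟨⟨?_, ?_⟩, ?_, ?_⟩ <;> linarith

theorem TE_rg57 : ROK [.q ⟨-1, 0, 0, 1⟩ ⟨-103, -627, 3951, -3221⟩, .q ⟨-1, 0, 0, 1⟩ ⟨2607, -2828, -2828, 3049⟩, .q ⟨-1, 0, 0, 1⟩ ⟨1565, -1504, -3706, 3645⟩, .q ⟨-1, 0, 0, 1⟩ ⟨-2867, 3516, -1908, 1259⟩] := by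
  refine rok_e (k := 1) (by decide) (Q := [(-627, 3951, -3221), (-2828, -2828, 3049), (-1504, -3706, 3645), (3516, -1908, 1259)])
    (P := [⟨-98949120, -627, 3951⟩, ⟨93665280, -2828, -2828⟩, ⟨111974400, -1504, -3706⟩, ⟨38676480, 3516, -1908⟩]) rfl rfl
    (List.mem_of_getElem? (i := 57) rfl) TE_fr TE_cov ?_
  · intro X Y h
    simp only [List.forall_mem_cons, List.not_mem_nil, false_imp_iff, implies_true, and_true] at h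
    push_cast at h ⊢
    obtain ⟨h0, h1, h2, h3⟩ := h
    refine ⟨⟨?_, ?_⟩, ?_, ?_⟩ <;> linarith

theorem TE_rg58 : ROK [.q ⟨-1, 0, 0, 1⟩ ⟨311, -404, 404, -311⟩, .q ⟨-1, 0, 0, 1⟩ ⟨3218, -3362, -2167, 2311⟩, .q ⟨-1, 0, 0, 1⟩ ⟨-1322, 1569, -1240, 993⟩, .q ⟨-1, 0, 0, 1⟩ ⟨-3719, 3990, 283, -554⟩] := by
  refine rok_e (k := 1) (by decide) (Q := [(-404, 404, -311), (-3362, -2167, 2311), (1569, -1240, 993), (3990, 283, -554)])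
    (P := [⟨-9553920, -404, 404⟩, ⟨70993920, -3362, -2167⟩, ⟨30504960, 1569, -1240⟩, ⟨-17018880, 3990, 283⟩]) rfl rfl
    (List.mem_of_getElem? (i := 58) rfl) TE_fr TE_cov ?_
  · intro X Y h
    simp only [List.forall_mem_cons, List.not_mem_nil, false_imp_iff, implies_true, and_true] at h
    push_cast at h ⊢
    obtain ⟨h0, h1, h2, h3⟩ := h
    refine ⟨⟨?_, ?_⟩, ?_, ?_⟩ <;> linarith

theorem TE_rg59 : ROK [.q ⟨-1, 0, 0, 1⟩ ⟨-2521, 3112, -2513, 1922⟩, .q ⟨-1, 0, 0, 1⟩ ⟨-1845, 1974, 320, -449⟩, .q ⟨-1, 0, 0, 1⟩ ⟨1113, -2581, 3055, -1587⟩, .q ⟨-1, 0, 0, 1⟩ ⟨95, -101, -101, 107⟩, .q ⟨-1, 0, 0, 1⟩ ⟨983, -803, -3919, 3739⟩] := by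
  refine rok_e (k := 1) (by decide) (Q := [(3112, -2513, 1922), (1974, 320, -449), (-2581, 3055, -1587), (-101, -101, 107), (-803, -3919, 3739)])
    (P := [⟨59043840, 3112, -2513⟩, ⟨-13793280, 1974, 320⟩, ⟨-48752640, -2581, 3055⟩, ⟨3287040, -101, -101⟩, ⟨114862080, -803, -3919⟩]) rfl rfl
    (List.mem_of_getElem? (i := 59) rfl) TE_fr TE_cov ?_
  · intro X Y h
    simp only [List.forall_mem_cons, List.not_mem_nil, false_imp_iff, implies_true, and_true] at h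
    push_cast at h ⊢
    obtain ⟨h0, h1, h2, h3, h4⟩ := h
    refine ⟨⟨?_, ?_⟩, ?_, ?_⟩ <;> linarith

theorem TE_rg60 : ROK [.q ⟨-1, 0, 0, 1⟩ ⟨2474, -2951, -2700, 3177⟩, .q ⟨-1, 0, 0, 1⟩ ⟨-3235, 3979, -408, -336⟩, .q ⟨-1, 0, 0, 1⟩ ⟨-77, 0, 400, -323⟩, .q ⟨-1, 0, 0, 1⟩ ⟨667, -1414, 1414, -667⟩] := by
  refine rok_e (k := 1) (by decide) (Q := [(-2951, -2700, 3177), (3979, -408, -336), (0, 400, -323), (-1414, 1414, -667)])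
    (P := [⟨97597440, -2951, -2700⟩, ⟨-10321920, 3979, -408⟩, ⟨-9922560, 0, 400⟩, ⟨-20490240, -1414, 1414⟩]) rfl rfl
    (List.mem_of_getElem? (i := 60) rfl) TE_fr TE_cov ?_
  · intro X Y h
    simp only [List.forall_mem_cons, List.not_mem_nil, false_imp_iff, implies_true, and_true] at h
    push_cast at h ⊢
    obtain ⟨h0, h1, h2, h3⟩ := h
    refine ⟨⟨?_, ?_⟩, ?_, ?_⟩ <;> linarith

theorem TE_rg61 : ROK [.q ⟨-1, 0, 0, 1⟩ ⟨-213, 202, 202, -191⟩, .q ⟨-1, 0, 0, 1⟩ ⟨368, -1071, 1689, -986⟩, .q ⟨-1, 0, 0, 1⟩ ⟨654, -707, -707, 760⟩, .q ⟨-1, 0, 0, 1⟩ ⟨1003, -826, -3914, 3737⟩, .q ⟨-1, 0, 0, 1⟩ ⟨-2251, 2828, -2828, 2251⟩] := by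
  refine rok_e (k := 1) (by decide) (Q := [(202, 202, -191), (-1071, 1689, -986), (-707, -707, 760), (-826, -3914, 3737), (2828, -2828, 2251)])
    (P := [⟨-5867520, 202, 202⟩, ⟨-30289920, -1071, 1689⟩, ⟨23347200, -707, -707⟩, ⟨114800640, -826, -3914⟩, ⟨69150720, 2828, -2828⟩]) rfl rfl
    (List.mem_of_getElem? (i := 61) rfl) TE_fr TE_cov ?_
  · intro X Y h
    simp only [List.forall_mem_cons, List.not_mem_nil, false_imp_iff, implies_true, and_true] at h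
    push_cast at h ⊢
    obtain ⟨h0, h1, h2, h3, h4⟩ := h
    refine ⟨⟨?_, ?_⟩, ?_, ?_⟩ <;> linarith

theorem TE_rg62 : ROK [.q ⟨-1, 0, 0, 1⟩ ⟨850, -649, -3947, 3746⟩, .q ⟨-1, 0, 0, 1⟩ ⟨-1008, 1311, -1510, 1207⟩, .q ⟨-1, 0, 0, 1⟩ ⟨-3527, 3541, 1860, -1874⟩, .q ⟨-1, 0, 0, 1⟩ ⟨2040, -3390, 2123, -773⟩, .q ⟨-1, 0, 0, 1⟩ ⟨375, -404, -404, 433⟩] := by
  refine rok_e (k := 1) (by decide) (Q := [(-649, -3947, 3746), (1311, -1510, 1207), (3541, 1860, -1874), (-3390, 2123, -773), (-404, -404, 433)])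
    (P := [⟨115077120, -649, -3947⟩, ⟨37079040, 1311, -1510⟩, ⟨-57569280, 3541, 1860⟩, ⟨-23746560, -3390, 2123⟩, ⟨13301760, -404, -404⟩]) rfl rfl
    (List.mem_of_getElem? (i := 62) rfl) TE_fr TE_cov ?_
  · intro X Y h
    simp only [List.forall_mem_cons, List.not_mem_nil, false_imp_iff, implies_true, and_true] at h
    push_cast at h ⊢
    obtain ⟨h0, h1, h2, h3, h4⟩ := h
    refine ⟨⟨?_, ?_⟩, ?_, ?_⟩ <;> linarith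

theorem TE_rg63 : ROK [.q ⟨-1, 0, 0, 1⟩ ⟨2791, -3225, 2366, -1932⟩, .q ⟨-1, 0, 0, 1⟩ ⟨1324, -1214, -3811, 3701⟩, .q ⟨-1, 0, 0, 1⟩ ⟨-2527, 2351, 3237, -3061⟩, .q ⟨-1, 0, 0, 1⟩ ⟨804, -1223, 3808, -3389⟩] := by
  refine rok_e (k := 1) (by decide) (Q := [(-3225, 2366, -1932), (-1214, -3811, 3701), (2351, 3237, -3061), (-1223, 3808, -3389)])
    (P := [⟨-59351040, -3225, 2366⟩, ⟨113694720, -1214, -3811⟩, ⟨-94033920, 2351, 3237⟩, ⟨-104110080, -1223, 3808⟩]) rfl rfl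
    (List.mem_of_getElem? (i := 63) rfl) TE_fr TE_cov ?_
  · intro X Y h
    simp only [List.forall_mem_cons, List.not_mem_nil, false_imp_iff, implies_true, and_true] at h
    push_cast at h ⊢
    obtain ⟨h0, h1, h2, h3⟩ := h
    refine ⟨⟨?_, ?_⟩, ?_, ?_⟩ <;> linarith

theorem TE_rg64 : ROK [.q ⟨-1, 0, 0, 1⟩ ⟨2114, -2339, -3244, 3469⟩, .q ⟨-1, 0, 0, 1⟩ ⟨-1509, 1414, -1414, 1509⟩, .q ⟨-1, 0, 0, 1⟩ ⟨-3954, 3713, 1488, -1247⟩, .q ⟨-1, 0, 0, 1⟩ ⟨-1316, 1153, 1634, -1471⟩, .q ⟨-1, 0, 0, 1⟩ ⟨2505, -2828, 2828, -2505⟩] := by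
  refine rok_e (k := 1) (by decide) (Q := [(-2339, -3244, 3469), (1414, -1414, 1509), (3713, 1488, -1247), (1153, 1634, -1471), (-2828, 2828, -2505)])
    (P := [⟨106567680, -2339, -3244⟩, ⟨46356480, 1414, -1414⟩, ⟨-38307840, 3713, 1488⟩, ⟨-45189120, 1153, 1634⟩, ⟨-76953600, -2828, 2828⟩]) rfl rfl
    (List.mem_of_getElem? (i := 64) rfl) TE_fr TE_cov ?_
  · intro X Y h
    simp only [List.forall_mem_cons, List.not_mem_nil, false_imp_iff, implies_true, and_true] at h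
    push_cast at h ⊢
    obtain ⟨h0, h1, h2, h3, h4⟩ := h
    refine ⟨⟨?_, ?_⟩, ?_, ?_⟩ <;> linarith

theorem TE_rg65 : ROK [.q ⟨-1, 0, 0, 1⟩ ⟨1341, -2828, 2828, -1341⟩, .q ⟨-1, 0, 0, 1⟩ ⟨975, -730, -3933, 3688⟩, .q ⟨-1, 0, 0, 1⟩ ⟨-3285, 3748, -1397, 934⟩, .q ⟨-1, 0, 0, 1⟩ ⟨-3497, 3501, 1934, -1938⟩] := by
  refine rok_e (k := 1) (by decide) (Q := [(-2828, 2828, -1341), (-730, -3933, 3688), (3748, -1397, 934), (3501, 1934, -1938)])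
    (P := [⟨-41195520, -2828, 2828⟩, ⟨113295360, -730, -3933⟩, ⟨28692480, 3748, -1397⟩, ⟨-59535360, 3501, 1934⟩]) rfl rfl
    (List.mem_of_getElem? (i := 65) rfl) TE_fr TE_cov ?_
  · intro X Y h
    simp only [List.forall_mem_cons, List.not_mem_nil, false_imp_iff, implies_true, and_true] at h
    push_cast at h ⊢
    obtain ⟨h0, h1, h2, h3⟩ := h
    refine ⟨⟨?_, ?_⟩, ?_, ?_⟩ <;> linarith

theorem TE_rg66 : ROK [.q ⟨-1, 0, 0, 1⟩ ⟨2917, -3000, -2646, 2729⟩, .q ⟨-1, 0, 0, 1⟩ ⟨-1501, 1966, -3484, 3019⟩, .q ⟨-1, 0, 0, 1⟩ ⟨-3050, 3513, -1913, 1450⟩, .q ⟨-1, 0, 0, 1⟩ ⟨-2938, 2889, 2766, -2717⟩, .q ⟨-1, 0, 0, 1⟩ ⟨2074, -3483, 1968, -559⟩] := by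
  refine rok_e (k := 1) (by decide) (Q := [(-3000, -2646, 2729), (1966, -3484, 3019), (3513, -1913, 1450), (2889, 2766, -2717), (-3483, 1968, -559)])
    (P := [⟨83834880, -3000, -2646⟩, ⟨92743680, 1966, -3484⟩, ⟨44544000, 3513, -1913⟩, ⟨-83466240, 2889, 2766⟩, ⟨-17172480, -3483, 1968⟩]) rfl rfl
    (List.mem_of_getElem? (i := 66) rfl) TE_fr TE_cov ?_
  · intro X Y h
    simp only [List.forall_mem_cons, List.not_mem_nil, false_imp_iff, implies_true, and_true] at h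
    push_cast at h ⊢
    obtain ⟨h0, h1, h2, h3, h4⟩ := h
    refine ⟨⟨?_, ?_⟩, ?_, ?_⟩ <;> linarith

theorem TE_rg67 : ROK [.q ⟨-1, 0, 0, 1⟩ ⟨-207, 0, -4000, 4207⟩, .q ⟨-1, 0, 0, 1⟩ ⟨-4061, 4000, 0, 61⟩, .q ⟨-1, 0, 0, 1⟩ ⟨-1785, 1600, 3666, -3481⟩, .q ⟨-1, 0, 0, 1⟩ ⟨1676, -1884, 671, -463⟩, .q ⟨-1, 0, 0, 1⟩ ⟨2507, -2828, -2828, 3149⟩] := by
  refine rok_e (k := 1) (by decide) (Q := [(0, -4000, 4207), (4000, 0, 61), (1600, 3666, -3481), (-1884, 671, -463), (-2828, -2828, 3149)])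
    (P := [⟨129239040, 0, -4000⟩, ⟨1873920, 4000, 0⟩, ⟨-106936320, 1600, 3666⟩, ⟨-14223360, -1884, 671⟩, ⟨96737280, -2828, -2828⟩]) rfl rfl
    (List.mem_of_getElem? (i := 67) rfl) TE_fr TE_cov ?_
  · intro X Y h
    simp only [List.forall_mem_cons, List.not_mem_nil, false_imp_iff, implies_true, and_true] at h
    push_cast at h ⊢
    obtain ⟨h0, h1, h2, h3, h4⟩ := h
    refine ⟨⟨?_, ?_⟩, ?_, ?_⟩ <;> linarith

theorem TE_rg68 : ROK [.q ⟨-1, 0, 0, 1⟩ ⟨-2937, 2737, 2917, -2717⟩, .q ⟨-1, 0, 0, 1⟩ ⟨-27, 0, 400, -373⟩, .q ⟨-1, 0, 0, 1⟩ ⟨3417, -3834, 1139, -722⟩, .q ⟨-1, 0, 0, 1⟩ ⟨2719, -2828, -2828, 2937⟩, .q ⟨-1, 0, 0, 1⟩ ⟨-815, 770, -638, 683⟩] := by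
  refine rok_e (k := 1) (by decide) (Q := [(2737, 2917, -2717), (0, 400, -373), (-3834, 1139, -722), (-2828, -2828, 2937), (770, -638, 683)])
    (P := [⟨-83466240, 2737, 2917⟩, ⟨-11458560, 0, 400⟩, ⟨-22179840, -3834, 1139⟩, ⟨90224640, -2828, -2828⟩, ⟨20981760, 770, -638⟩]) rfl rfl
    (List.mem_of_getElem? (i := 68) rfl) TE_fr TE_cov ?_
  · intro X Y h
    simp only [List.forall_mem_cons, List.not_mem_nil, false_imp_iff, implies_true, and_true] at h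
    push_cast at h ⊢
    obtain ⟨h0, h1, h2, h3, h4⟩ := h
    refine ⟨⟨?_, ?_⟩, ?_, ?_⟩ <;> linarith

theorem TE_rg69 : ROK [.q ⟨-1, 0, 0, 1⟩ ⟨-3817, 3995, -200, 22⟩, .q ⟨-1, 0, 0, 1⟩ ⟨3001, -3340, 2201, -1862⟩, .q ⟨-1, 0, 0, 1⟩ ⟨709, -797, -69, 157⟩, .q ⟨-1, 0, 0, 1⟩ ⟨557, -797, -3920, 4160⟩] := by
  refine rok_e (k := 1) (by decide) (Q := [(3995, -200, 22), (-3340, 2201, -1862), (-797, -69, 157), (-797, -3920, 4160)])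
    (P := [⟨675840, 3995, -200⟩, ⟨-57200640, -3340, 2201⟩, ⟨4823040, -797, -69⟩, ⟨127795200, -797, -3920⟩]) rfl rfl
    (List.mem_of_getElem? (i := 69) rfl) TE_fr TE_cov ?_
  · intro X Y h
    simp only [List.forall_mem_cons, List.not_mem_nil, false_imp_iff, implies_true, and_true] at h
    push_cast at h ⊢
    obtain ⟨h0, h1, h2, h3⟩ := h
    refine ⟨⟨?_, ?_⟩, ?_, ?_⟩ <;> linarith

theorem TE_rg70 : ROK [.q ⟨-1, 0, 0, 1⟩ ⟨3407, -3824, 1174, -757⟩, .q ⟨-1, 0, 0, 1⟩ ⟨141, -167, -986, 1012⟩, .q ⟨-1, 0, 0, 1⟩ ⟨-4009, 3939, -698, 768⟩, .q ⟨-1, 0, 0, 1⟩ ⟨171, -367, 1966, -1770⟩] := by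
  refine rok_e (k := 1) (by decide) (Q := [(-3824, 1174, -757), (-167, -986, 1012), (3939, -698, 768), (-367, 1966, -1770)])
    (P := [⟨-23255040, -3824, 1174⟩, ⟨31088640, -167, -986⟩, ⟨23592960, 3939, -698⟩, ⟨-54374400, -367, 1966⟩]) rfl rfl
    (List.mem_of_getElem? (i := 70) rfl) TE_fr TE_cov ?_
  · intro X Y h
    simp only [List.forall_mem_cons, List.not_mem_nil, false_imp_iff, implies_true, and_true] at h
    push_cast at h ⊢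
    obtain ⟨h0, h1, h2, h3⟩ := h
    refine ⟨⟨?_, ?_⟩, ?_, ?_⟩ <;> linarith

theorem TE_rg71 : ROK [.q ⟨-1, 0, 0, 1⟩ ⟨-297, 404, -404, 297⟩, .q ⟨-1, 0, 0, 1⟩ ⟨-2215, 1669, 1102, -556⟩, .q ⟨-1, 0, 0, 1⟩ ⟨1341, -2828, 2828, -1341⟩, .q ⟨-1, 0, 0, 1⟩ ⟨1879, -3258, -2321, 3700⟩] := by
  refine rok_e (k := 1) (by decide) (Q := [(404, -404, 297), (1669, 1102, -556), (-2828, 2828, -1341), (-3258, -2321, 3700)])
    (P := [⟨9123840, 404, -404⟩, ⟨-17080320, 1669, 1102⟩, ⟨-41195520, -2828, 2828⟩, ⟨113664000, -3258, -2321⟩]) rfl rfl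
    (List.mem_of_getElem? (i := 71) rfl) TE_fr TE_cov ?_
  · intro X Y h
    simp only [List.forall_mem_cons, List.not_mem_nil, false_imp_iff, implies_true, and_true] at h
    push_cast at h ⊢
    obtain ⟨h0, h1, h2, h3⟩ := h
    refine ⟨⟨?_, ?_⟩, ?_, ?_⟩ <;> linarith

end Pool.Agent.TET
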