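import Pool.Agent.Helper38_TET.TE_C

/-!
# MP_c7c9bf_co: certificates, family TE
-/

set_option autoImplicit false
set_option maxRecDepth 100000

namespace Pool.Agent.TET

theorem TE_rg72 : ROK [.q ⟨-1, 0, 0, 1⟩ ⟨3582, -3967, 514, -129⟩, .q ⟨-1, 0, 0, 1⟩ ⟨559, -808, -3917, 4166⟩, .q ⟨-1, 0, 0, 1⟩ ⟨-1881, 2000, 0, -119⟩, .q ⟨-1, 0, 0, 1⟩ ⟨2053, -2486, 3134, -2701⟩] := by
  refine rok_e (k := 1) (by decide) (Q := [(-3967, 514, -129), (-808, -3917, 4166), (2000, 0, -119), (-2486, 3134, -2701)])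
    (P := [⟨-3962880, -3967, 514⟩, ⟨127979520, -808, -3917⟩, ⟨-3655680, 2000, 0⟩, ⟨-82974720, -2486, 3134⟩]) rfl rfl
    (List.mem_of_getElem? (i := 72) rfl) TE_fr TE_cov ?_
  · intro X Y h
    simp only [List.forall_mem_cons, List.not_mem_nil, false_imp_iff, implies_true, and_true] at h
    push_cast at h ⊢
    obtain ⟨h0, h1, h2, h3⟩ := h
    refine ⟨⟨?_, ?_⟩, ?_, ?_⟩ <;> linarith

theorem TE_rg73 : ROK [.q ⟨-1, 0, 0, 1⟩ ⟨-1694, 1719, -3612, 3587⟩, .q ⟨-1, 0, 0, 1⟩ ⟨-3713, 3963, -543, 293⟩, .q ⟨-1, 0, 0, 1⟩ ⟨781, -1199, 3816, -3398⟩, .q ⟨-1, 0, 0, 1⟩ ⟨1788, -1979, 289, -98⟩] := by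
  refine rok_e (k := 1) (by decide) (Q := [(1719, -3612, 3587), (3963, -543, 293), (-1199, 3816, -3398), (-1979, 289, -98)])
    (P := [⟨110192640, 1719, -3612⟩, ⟨9000960, 3963, -543⟩, ⟨-104386560, -1199, 3816⟩, ⟨-3010560, -1979, 289⟩]) rfl rfl
    (List.mem_of_getElem? (i := 73) rfl) TE_fr TE_cov ?_
  · intro X Y h
    simp only [List.forall_mem_cons, List.not_mem_nil, false_imp_iff, implies_true, and_true] at h
    push_cast at h ⊢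
    obtain ⟨h0, h1, h2, h3⟩ := h
    refine ⟨⟨?_, ?_⟩, ?_, ?_⟩ <;> linarith

theorem TE_rg74 : ROK [.q ⟨-1, 0, 0, 1⟩ ⟨725, -618, -1902, 1795⟩, .q ⟨-1, 0, 0, 1⟩ ⟨-1509, 1742, -983, 750⟩, .q ⟨-1, 0, 0, 1⟩ ⟨-461, 500, 0, -39⟩, .q ⟨-1, 0, 0, 1⟩ ⟨547, -707, 707, -547⟩] := by
  refine rok_e (k := 1) (by decide) (Q := [(-618, -1902, 1795), (1742, -983, 750), (500, 0, -39), (-707, 707, -547)])
    (P := [⟨55142400, -618, -1902⟩, ⟨23040000, 1742, -983⟩, ⟨-1198080, 500, 0⟩, ⟨-16803840, -707, 707⟩]) rfl rfl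
    (List.mem_of_getElem? (i := 74) rfl) TE_fr TE_cov ?_
  · intro X Y h
    simp only [List.forall_mem_cons, List.not_mem_nil, false_imp_iff, implies_true, and_true] at h
    push_cast at h ⊢
    obtain ⟨h0, h1, h2, h3⟩ := h
    refine ⟨⟨?_, ?_⟩, ?_, ?_⟩ <;> linarith

theorem TE_rg75 : ROK [.q ⟨-1, 0, 0, 1⟩ ⟨-15, 367, -3983, 3631⟩, .q ⟨-1, 0, 0, 1⟩ ⟨-3348, 3803, -1238, 783⟩, .q ⟨-1, 0, 0, 1⟩ ⟨-751, 707, 707, -663⟩, .q ⟨-1, 0, 0, 1⟩ ⟨683, -800, 0, 117⟩] := by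
  refine rok_e (k := 1) (by decide) (Q := [(367, -3983, 3631), (3803, -1238, 783), (707, 707, -663), (-800, 0, 117)])
    (P := [⟨111544320, 367, -3983⟩, ⟨24053760, 3803, -1238⟩, ⟨-20367360, 707, 707⟩, ⟨3594240, -800, 0⟩]) rfl rfl
    (List.mem_of_getElem? (i := 75) rfl) TE_fr TE_cov ?_
  · intro X Y h
    simp only [List.forall_mem_cons, List.not_mem_nil, false_imp_iff, implies_true, and_true] at h
    push_cast at h ⊢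
    obtain ⟨h0, h1, h2, h3⟩ := h
    refine ⟨⟨?_, ?_⟩, ?_, ?_⟩ <;> linarith

theorem TE_rg76 : ROK [.q ⟨-1, 0, 0, 1⟩ ⟨-47, 0, 400, -353⟩, .q ⟨-1, 0, 0, 1⟩ ⟨2713, -2828, -2828, 2943⟩, .q ⟨-1, 0, 0, 1⟩ ⟨-981, 1418, -3740, 3303⟩, .q ⟨-1, 0, 0, 1⟩ ⟨-3268, 3715, -1483, 1036⟩] := by
  refine rok_e (k := 1) (by decide) (Q := [(0, 400, -353), (-2828, -2828, 2943), (1418, -3740, 3303), (3715, -1483, 1036)])
    (P := [⟨-10844160, 0, 400⟩, ⟨90408960, -2828, -2828⟩, ⟨101468160, 1418, -3740⟩, ⟨31825920, 3715, -1483⟩]) rfl rfl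
    (List.mem_of_getElem? (i := 76) rfl) TE_fr TE_cov ?_
  · intro X Y h
    simp only [List.forall_mem_cons, List.not_mem_nil, false_imp_iff, implies_true, and_true] at h
    push_cast at h ⊢
    obtain ⟨h0, h1, h2, h3⟩ := h
    refine ⟨⟨?_, ?_⟩, ?_, ?_⟩ <;> linarith

theorem TE_rg77 : ROK [.q ⟨-1, 0, 0, 1⟩ ⟨2603, -2828, -2828, 3053⟩, .q ⟨-1, 0, 0, 1⟩ ⟨1085, -903, -3897, 3715⟩, .q ⟨-1, 0, 0, 1⟩ ⟨-3537, 3957, 586, -1006⟩, .q ⟨-1, 0, 0, 1⟩ ⟨2739, -3506, 1926, -1159⟩] := by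
  refine rok_e (k := 1) (by decide) (Q := [(-2828, -2828, 3053), (-903, -3897, 3715), (3957, 586, -1006), (-3506, 1926, -1159)])
    (P := [⟨93788160, -2828, -2828⟩, ⟨114124800, -903, -3897⟩, ⟨-30904320, 3957, 586⟩, ⟨-35604480, -3506, 1926⟩]) rfl rfl
    (List.mem_of_getElem? (i := 77) rfl) TE_fr TE_cov ?_
  · intro X Y h
    simp only [List.forall_mem_cons, List.not_mem_nil, false_imp_iff, implies_true, and_true] at h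
    push_cast at h ⊢
    obtain ⟨h0, h1, h2, h3⟩ := h
    refine ⟨⟨?_, ?_⟩, ?_, ?_⟩ <;> linarith

theorem TE_rg78 : ROK [.q ⟨-1, 0, 0, 1⟩ ⟨3350, -3999, 71, 578⟩, .q ⟨-1, 0, 0, 1⟩ ⟨329, 0, -4000, 3671⟩, .q ⟨-1, 0, 0, 1⟩ ⟨-3074, 3542, -1859, 1391⟩, .q ⟨-1, 0, 0, 1⟩ ⟨-2025, 1752, 3596, -3323⟩] := by
  refine rok_e (k := 1) (by decide) (Q := [(-3999, 71, 578), (0, -4000, 3671), (3542, -1859, 1391), (1752, 3596, -3323)])
    (P := [⟨17756160, -3999, 71⟩, ⟨112773120, 0, -4000⟩, ⟨42731520, 3542, -1859⟩, ⟨-102082560, 1752, 3596⟩]) rfl rfl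
    (List.mem_of_getElem? (i := 78) rfl) TE_fr TE_cov ?_
  · intro X Y h
    simp only [List.forall_mem_cons, List.not_mem_nil, false_imp_iff, implies_true, and_true] at h
    push_cast at h ⊢
    obtain ⟨h0, h1, h2, h3⟩ := h
    refine ⟨⟨?_, ?_⟩, ?_, ?_⟩ <;> linarith

theorem TE_rg79 : ROK [.q ⟨-1, 0, 0, 1⟩ ⟨2657, -2839, -2817, 2999⟩, .q ⟨-1, 0, 0, 1⟩ ⟨293, 0, -4000, 3707⟩, .q ⟨-1, 0, 0, 1⟩ ⟨-3511, 4000, 0, -489⟩, .q ⟨-1, 0, 0, 1⟩ ⟨1341, -2828, 2828, -1341⟩] := by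
  refine rok_e (k := 1) (by decide) (Q := [(-2839, -2817, 2999), (0, -4000, 3707), (4000, 0, -489), (-2828, 2828, -1341)])
    (P := [⟨92129280, -2839, -2817⟩, ⟨113879040, 0, -4000⟩, ⟨-15022080, 4000, 0⟩, ⟨-41195520, -2828, 2828⟩]) rfl rfl
    (List.mem_of_getElem? (i := 79) rfl) TE_fr TE_cov ?_
  · intro X Y h
    simp only [List.forall_mem_cons, List.not_mem_nil, false_imp_iff, implies_true, and_true] at h
    push_cast at h ⊢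
    obtain ⟨h0, h1, h2, h3⟩ := h
    refine ⟨⟨?_, ?_⟩, ?_, ?_⟩ <;> linarith

theorem TE_rg80 : ROK [.q ⟨-1, 0, 0, 1⟩ ⟨2793, -3361, 2169, -1601⟩, .q ⟨-1, 0, 0, 1⟩ ⟨-447, 838, -3911, 3520⟩, .q ⟨-1, 0, 0, 1⟩ ⟨-2837, 3327, -2221, 1731⟩, .q ⟨-1, 0, 0, 1⟩ ⟨-968, 574, 3959, -3565⟩] := by
  refine rok_e (k := 1) (by decide) (Q := [(-3361, 2169, -1601), (838, -3911, 3520), (3327, -2221, 1731), (574, 3959, -3565)])
    (P := [⟨-49182720, -3361, 2169⟩, ⟨108134400, 838, -3911⟩, ⟨53176320, 3327, -2221⟩, ⟨-109516800, 574, 3959⟩]) rfl rfl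
    (List.mem_of_getElem? (i := 80) rfl) TE_fr TE_cov ?_
  · intro X Y h
    simp only [List.forall_mem_cons, List.not_mem_nil, false_imp_iff, implies_true, and_true] at h
    push_cast at h ⊢
    obtain ⟨h0, h1, h2, h3⟩ := h
    refine ⟨⟨?_, ?_⟩, ?_, ?_⟩ <;> linarith

theorem TE_rg81 : ROK [.q ⟨-1, 0, 0, 1⟩ ⟨-870, 547, 3962, -3639⟩, .q ⟨-1, 0, 0, 1⟩ ⟨912, -1053, 818, -677⟩, .q ⟨-1, 0, 0, 1⟩ ⟨-1849, 2230, -3321, 2940⟩] := by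
  refine rok_e (k := 1) (by decide) (Q := [(547, 3962, -3639), (-1053, 818, -677), (2230, -3321, 2940)])
    (P := [⟨-111790080, 547, 3962⟩, ⟨-20797440, -1053, 818⟩, ⟨90316800, 2230, -3321⟩]) rfl rfl
    (List.mem_of_getElem? (i := 81) rfl) TE_fr TE_cov ?_
  · intro X Y h
    simp only [List.forall_mem_cons, List.not_mem_nil, false_imp_iff, implies_true, and_true] at h
    push_cast at h ⊢
    obtain ⟨h0, h1, h2⟩ := h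
    refine ⟨⟨?_, ?_⟩, ?_, ?_⟩ <;> linarith

theorem TE_rg82 : ROK [.q ⟨-1, 0, 0, 1⟩ ⟨3339, -3748, 1398, -989⟩, .q ⟨-1, 0, 0, 1⟩ ⟨3388, -3819, -1191, 1622⟩, .q ⟨-1, 0, 0, 1⟩ ⟨-414, 268, -3991, 4137⟩, .q ⟨-1, 0, 0, 1⟩ ⟨-3416, 3525, 1890, -1999⟩] := by
  refine rok_e (k := 1) (by decide) (Q := [(-3748, 1398, -989), (-3819, -1191, 1622), (268, -3991, 4137), (3525, 1890, -1999)])
    (P := [⟨-30382080, -3748, 1398⟩, ⟨49827840, -3819, -1191⟩, ⟨127088640, 268, -3991⟩, ⟨-61409280, 3525, 1890⟩]) rfl rfl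
    (List.mem_of_getElem? (i := 82) rfl) TE_fr TE_cov ?_
  · intro X Y h
    simp only [List.forall_mem_cons, List.not_mem_nil, false_imp_iff, implies_true, and_true] at h
    push_cast at h ⊢
    obtain ⟨h0, h1, h2, h3⟩ := h
    refine ⟨⟨?_, ?_⟩, ?_, ?_⟩ <;> linarith

theorem TE_rg83 : ROK [.q ⟨-1, 0, 0, 1⟩ ⟨-4036, 3979, 413, -356⟩, .q ⟨-1, 0, 0, 1⟩ ⟨-1227, 1159, 1630, -1562⟩, .q ⟨-1, 0, 0, 1⟩ ⟨341, -404, 404, -341⟩, .q ⟨-1, 0, 0, 1⟩ ⟨3650, -3985, -341, 676⟩, .q ⟨-1, 0, 0, 1⟩ ⟨-189, 0, -4000, 4189⟩] := by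
  refine rok_e (k := 1) (by decide) (Q := [(3979, 413, -356), (1159, 1630, -1562), (-404, 404, -341), (-3985, -341, 676), (0, -4000, 4189)])
    (P := [⟨-10936320, 3979, 413⟩, ⟨-47984640, 1159, 1630⟩, ⟨-10475520, -404, 404⟩, ⟨20766720, -3985, -341⟩, ⟨128686080, 0, -4000⟩]) rfl rfl
    (List.mem_of_getElem? (i := 83) rfl) TE_fr TE_cov ?_
  · intro X Y h
    simp only [List.forall_mem_cons, List.not_mem_nil, false_imp_iff, implies_true, and_true] at h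
    push_cast at h ⊢
    obtain ⟨h0, h1, h2, h3, h4⟩ := h
    refine ⟨⟨?_, ?_⟩, ?_, ?_⟩ <;> linarith

theorem TE_rg84 : ROK [.q ⟨-1, 0, 0, 1⟩ ⟨-2338, 2843, -2814, 2309⟩, .q ⟨-1, 0, 0, 1⟩ ⟨-1849, 2000, 0, -151⟩, .q ⟨-1, 0, 0, 1⟩ ⟨3403, -3841, 1117, -679⟩] := by
  refine rok_e (k := 1) (by decide) (Q := [(2843, -2814, 2309), (2000, 0, -151), (-3841, 1117, -679)])
    (P := [⟨70932480, 2843, -2814⟩, ⟨-4638720, 2000, 0⟩, ⟨-20858880, -3841, 1117⟩]) rfl rfl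
    (List.mem_of_getElem? (i := 84) rfl) TE_fr TE_cov ?_
  · intro X Y h
    simp only [List.forall_mem_cons, List.not_mem_nil, false_imp_iff, implies_true, and_true] at h
    push_cast at h ⊢
    obtain ⟨h0, h1, h2⟩ := h
    refine ⟨⟨?_, ?_⟩, ?_, ?_⟩ <;> linarith

theorem TE_rg85 : ROK [.q ⟨-1, 0, 0, 1⟩ ⟨-1401, 1529, -3696, 3568⟩, .q ⟨-1, 0, 0, 1⟩ ⟨-1549, 1282, 3789, -3522⟩, .q ⟨-1, 0, 0, 1⟩ ⟨1949, -2387, 3210, -2772⟩, .q ⟨-1, 0, 0, 1⟩ ⟨2553, -2558, -3075, 3080⟩] := by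
  refine rok_e (k := 1) (by decide) (Q := [(1529, -3696, 3568), (1282, 3789, -3522), (-2387, 3210, -2772), (-2558, -3075, 3080)])
    (P := [⟨109608960, 1529, -3696⟩, ⟨-108195840, 1282, 3789⟩, ⟨-85155840, -2387, 3210⟩, ⟨94617600, -2558, -3075⟩]) rfl rfl
    (List.mem_of_getElem? (i := 85) rfl) TE_fr TE_cov ?_
  · intro X Y h
    simp only [List.forall_mem_cons, List.not_mem_nil, false_imp_iff, implies_true, and_true] at h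
    push_cast at h ⊢
    obtain ⟨h0, h1, h2, h3⟩ := h
    refine ⟨⟨?_, ?_⟩, ?_, ?_⟩ <;> linarith

theorem TE_rg86 : ROK [.q ⟨-1, 0, 0, 1⟩ ⟨-3472, 3831, -1151, 792⟩, .q ⟨-1, 0, 0, 1⟩ ⟨2375, -2816, 2841, -2400⟩, .q ⟨-1, 0, 0, 1⟩ ⟨1821, -2000, 0, 179⟩] := by
  refine rok_e (k := 1) (by decide) (Q := [(3831, -1151, 792), (-2816, 2841, -2400), (-2000, 0, 179)])
    (P := [⟨24330240, 3831, -1151⟩, ⟨-73728000, -2816, 2841⟩, ⟨5498880, -2000, 0⟩]) rfl rfl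
    (List.mem_of_getElem? (i := 86) rfl) TE_fr TE_cov ?_
  · intro X Y h
    simp only [List.forall_mem_cons, List.not_mem_nil, false_imp_iff, implies_true, and_true] at h
    push_cast at h ⊢
    obtain ⟨h0, h1, h2⟩ := h
    refine ⟨⟨?_, ?_⟩, ?_, ?_⟩ <;> linarith

theorem TE_rg87 : ROK [.q ⟨-1, 0, 0, 1⟩ ⟨-2315, 2257, 3302, -3244⟩, .q ⟨-1, 0, 0, 1⟩ ⟨3211, -3611, 1721, -1321⟩, .q ⟨-1, 0, 0, 1⟩ ⟨889, -1000, 0, 111⟩, .q ⟨-1, 0, 0, 1⟩ ⟨-477, 391, -3981, 4067⟩] := by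
  refine rok_e (k := 1) (by decide) (Q := [(2257, 3302, -3244), (-3611, 1721, -1321), (-1000, 0, 111), (391, -3981, 4067)])
    (P := [⟨-99655680, 2257, 3302⟩, ⟨-40581120, -3611, 1721⟩, ⟨3409920, -1000, 0⟩, ⟨124938240, 391, -3981⟩]) rfl rfl
    (List.mem_of_getElem? (i := 87) rfl) TE_fr TE_cov ?_
  · intro X Y h
    simp only [List.forall_mem_cons, List.not_mem_nil, false_imp_iff, implies_true, and_true] at h
    push_cast at h ⊢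
    obtain ⟨h0, h1, h2, h3⟩ := h
    refine ⟨⟨?_, ?_⟩, ?_, ?_⟩ <;> linarith

theorem TE_rg88 : ROK [.q ⟨-1, 0, 0, 1⟩ ⟨611, -956, 3884, -3539⟩, .q ⟨-1, 0, 0, 1⟩ ⟨883, -983, 183, -83⟩, .q ⟨-1, 0, 0, 1⟩ ⟨-13, 14, -14, 13⟩] := by
  refine rok_e (k := 1) (by decide) (Q := [(-956, 3884, -3539), (-983, 183, -83), (14, -14, 13)])
    (P := [⟨-108718080, -956, 3884⟩, ⟨-2549760, -983, 183⟩, ⟨399360, 14, -14⟩]) rfl rfl
    (List.mem_of_getElem? (i := 88) rfl) TE_fr TE_cov ?_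
  · intro X Y h
    simp only [List.forall_mem_cons, List.not_mem_nil, false_imp_iff, implies_true, and_true] at h
    push_cast at h ⊢
    obtain ⟨h0, h1, h2⟩ := h
    refine ⟨⟨?_, ?_⟩, ?_, ?_⟩ <;> linarith

theorem TE_rg89 : ROK [.q ⟨-1, 0, 0, 1⟩ ⟨-645, 642, -1894, 1897⟩, .q ⟨-1, 0, 0, 1⟩ ⟨-3214, 3041, 2599, -2426⟩, .q ⟨-1, 0, 0, 1⟩ ⟨1450, -1852, 3545, -3143⟩, .q ⟨-1, 0, 0, 1⟩ ⟨3538, -3937, 705, -306⟩] := by
  refine rok_e (k := 1) (by decide) (Q := [(642, -1894, 1897), (3041, 2599, -2426), (-1852, 3545, -3143), (-3937, 705, -306)])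
    (P := [⟨58275840, 642, -1894⟩, ⟨-74526720, 3041, 2599⟩, ⟨-96552960, -1852, 3545⟩, ⟨-9400320, -3937, 705⟩]) rfl rfl
    (List.mem_of_getElem? (i := 89) rfl) TE_fr TE_cov ?_
  · intro X Y h
    simp only [List.forall_mem_cons, List.not_mem_nil, false_imp_iff, implies_true, and_true] at h
    push_cast at h ⊢
    obtain ⟨h0, h1, h2, h3⟩ := h
    refine ⟨⟨?_, ?_⟩, ?_, ?_⟩ <;> linarith

theorem TE_rg90 : ROK [.q ⟨-1, 0, 0, 1⟩ ⟨-847, 1216, -3811, 3442⟩, .q ⟨-1, 0, 0, 1⟩ ⟨-536, 187, 3996, -3647⟩, .q ⟨-1, 0, 0, 1⟩ ⟨2229, -2668, 2980, -2541⟩] := by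
  refine rok_e (k := 1) (by decide) (Q := [(1216, -3811, 3442), (187, 3996, -3647), (-2668, 2980, -2541)])
    (P := [⟨105738240, 1216, -3811⟩, ⟨-112035840, 187, 3996⟩, ⟨-78059520, -2668, 2980⟩]) rfl rfl
    (List.mem_of_getElem? (i := 90) rfl) TE_fr TE_cov ?_
  · intro X Y h
    simp only [List.forall_mem_cons, List.not_mem_nil, false_imp_iff, implies_true, and_true] at h
    push_cast at h ⊢
    obtain ⟨h0, h1, h2⟩ := h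
    refine ⟨⟨?_, ?_⟩, ?_, ?_⟩ <;> linarith

theorem TE_rg91 : ROK [.q ⟨-1, 0, 0, 1⟩ ⟨-1036, 1356, -3763, 3443⟩, .q ⟨-1, 0, 0, 1⟩ ⟨-30, -352, 3985, -3603⟩, .q ⟨-1, 0, 0, 1⟩ ⟨2973, -3381, 2138, -1730⟩] := by
  refine rok_e (k := 1) (by decide) (Q := [(1356, -3763, 3443), (-352, 3985, -3603), (-3381, 2138, -1730)])
    (P := [⟨105768960, 1356, -3763⟩, ⟨-110684160, -352, 3985⟩, ⟨-53145600, -3381, 2138⟩]) rfl rfl
    (List.mem_of_getElem? (i := 91) rfl) TE_fr TE_cov ?_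
  · intro X Y h
    simp only [List.forall_mem_cons, List.not_mem_nil, false_imp_iff, implies_true, and_true] at h
    push_cast at h ⊢
    obtain ⟨h0, h1, h2⟩ := h
    refine ⟨⟨?_, ?_⟩, ?_, ?_⟩ <;> linarith

theorem TE_rg92 : ROK [.q ⟨-1, 0, 0, 1⟩ ⟨-2319, 2828, -2828, 2319⟩, .q ⟨-1, 0, 0, 1⟩ ⟨-3249, 4000, 0, -751⟩, .q ⟨-1, 0, 0, 1⟩ ⟨1341, -2828, 2828, -1341⟩, .q ⟨-1, 0, 0, 1⟩ ⟨2557, -3863, -1039, 2345⟩] := by
  refine rok_e (k := 1) (by decide) (Q := [(2828, -2828, 2319), (4000, 0, -751), (-2828, 2828, -1341), (-3863, -1039, 2345)])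
    (P := [⟨71239680, 2828, -2828⟩, ⟨-23070720, 4000, 0⟩, ⟨-41195520, -2828, 2828⟩, ⟨72038400, -3863, -1039⟩]) rfl rfl
    (List.mem_of_getElem? (i := 92) rfl) TE_fr TE_cov ?_
  · intro X Y h
    simp only [List.forall_mem_cons, List.not_mem_nil, false_imp_iff, implies_true, and_true] at h
    push_cast at h ⊢
    obtain ⟨h0, h1, h2, h3⟩ := h
    refine ⟨⟨?_, ?_⟩, ?_, ?_⟩ <;> linarith

theorem TE_rg93 : ROK [.q ⟨-1, 0, 0, 1⟩ ⟨667, -903, -3897, 4133⟩, .q ⟨-1, 0, 0, 1⟩ ⟨-4005, 3991, 264, -250⟩, .q ⟨-1, 0, 0, 1⟩ ⟨799, -1031, 3865, -3633⟩, .q ⟨-1, 0, 0, 1⟩ ⟨1772, -1979, 290, -83⟩] := by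
  refine rok_e (k := 1) (by decide) (Q := [(-903, -3897, 4133), (3991, 264, -250), (-1031, 3865, -3633), (-1979, 290, -83)])
    (P := [⟨126965760, -903, -3897⟩, ⟨-7680000, 3991, 264⟩, ⟨-111605760, -1031, 3865⟩, ⟨-2549760, -1979, 290⟩]) rfl rfl
    (List.mem_of_getElem? (i := 93) rfl) TE_fr TE_cov ?_
  · intro X Y h
    simp only [List.forall_mem_cons, List.not_mem_nil, false_imp_iff, implies_true, and_true] at h
    push_cast at h ⊢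
    obtain ⟨h0, h1, h2, h3⟩ := h
    refine ⟨⟨?_, ?_⟩, ?_, ?_⟩ <;> linarith

theorem TE_rg94 : ROK [.q ⟨-1, 0, 0, 1⟩ ⟨-2950, 3429, -2060, 1581⟩, .q ⟨-1, 0, 0, 1⟩ ⟨-741, 800, 0, -59⟩, .q ⟨-1, 0, 0, 1⟩ ⟨783, -1332, 3772, -3223⟩, .q ⟨-1, 0, 0, 1⟩ ⟨3531, -3765, -1352, 1586⟩] := by
  refine rok_e (k := 1) (by decide) (Q := [(3429, -2060, 1581), (800, 0, -59), (-1332, 3772, -3223), (-3765, -1352, 1586)])
    (P := [⟨48568320, 3429, -2060⟩, ⟨-1812480, 800, 0⟩, ⟨-99010560, -1332, 3772⟩, ⟨48721920, -3765, -1352⟩]) rfl rfl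
    (List.mem_of_getElem? (i := 94) rfl) TE_fr TE_cov ?_
  · intro X Y h
    simp only [List.forall_mem_cons, List.not_mem_nil, false_imp_iff, implies_true, and_true] at h
    push_cast at h ⊢
    obtain ⟨h0, h1, h2, h3⟩ := h
    refine ⟨⟨?_, ?_⟩, ?_, ?_⟩ <;> linarith

theorem TE_rg95 : ROK [.q ⟨-1, 0, 0, 1⟩ ⟨-1647, 1129, 3837, -3319⟩, .q ⟨-1, 0, 0, 1⟩ ⟨1181, -2604, 3036, -1613⟩, .q ⟨-1, 0, 0, 1⟩ ⟨1118, -1059, -3857, 3798⟩, .q ⟨-1, 0, 0, 1⟩ ⟨-1744, 2453, -3160, 2451⟩] := by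
  refine rok_e (k := 1) (by decide) (Q := [(1129, 3837, -3319), (-2604, 3036, -1613), (-1059, -3857, 3798), (2453, -3160, 2451)])
    (P := [⟨-101959680, 1129, 3837⟩, ⟨-49551360, -2604, 3036⟩, ⟨116674560, -1059, -3857⟩, ⟨75294720, 2453, -3160⟩]) rfl rfl
    (List.mem_of_getElem? (i := 95) rfl) TE_fr TE_cov ?_
  · intro X Y h
    simp only [List.forall_mem_cons, List.not_mem_nil, false_imp_iff, implies_true, and_true] at h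
    push_cast at h ⊢
    obtain ⟨h0, h1, h2, h3⟩ := h
    refine ⟨⟨?_, ?_⟩, ?_, ?_⟩ <;> linarith

end Pool.Agent.TET
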