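import Pool.Agent.Helper38_TET.TE_C

/-!
# MP_c7c9bf_co: certificates, family TE
-/

set_option autoImplicit false
set_option maxRecDepth 100000

namespace Pool.Agent.TET

theorem TE_rg96 : ROK [.q ⟨-1, 0, 0, 1⟩ ⟨2406, -2617, -3025, 3236⟩, .q ⟨-1, 0, 0, 1⟩ ⟨-1509, 1414, -1414, 1509⟩, .q ⟨-1, 0, 0, 1⟩ ⟨-4185, 3975, 443, -233⟩, .q ⟨-1, 0, 0, 1⟩ ⟨240, -421, 1955, -1774⟩, .q ⟨-1, 0, 0, 1⟩ ⟨913, -1000, 0, 87⟩] := by
  refine rok_e (k := 1) (by decide) (Q := [(-2617, -3025, 3236), (1414, -1414, 1509), (3975, 443, -233), (-421, 1955, -1774), (-1000, 0, 87)])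
    (P := [⟨99409920, -2617, -3025⟩, ⟨46356480, 1414, -1414⟩, ⟨-7157760, 3975, 443⟩, ⟨-54497280, -421, 1955⟩, ⟨2672640, -1000, 0⟩]) rfl rfl
    (List.mem_of_getElem? (i := 96) rfl) TE_fr TE_cov ?_
  · intro X Y h
    simp only [List.forall_mem_cons, List.not_mem_nil, false_imp_iff, implies_true, and_true] at h
    push_cast at h ⊢
    obtain ⟨h0, h1, h2, h3, h4⟩ := h
    refine ⟨⟨?_, ?_⟩, ?_, ?_⟩ <;> linarith

theorem TE_rg97 : ROK [.q ⟨-1, 0, 0, 1⟩ ⟨3262, -3665, 1603, -1200⟩, .q ⟨-1, 0, 0, 1⟩ ⟨1661, -1868, -714, 921⟩, .q ⟨-1, 0, 0, 1⟩ ⟨-63, -29, -2000, 2092⟩, .q ⟨-1, 0, 0, 1⟩ ⟨-1961, 1941, -481, 501⟩, .q ⟨-1, 0, 0, 1⟩ ⟨327, -723, 3934, -3538⟩] := by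
  refine rok_e (k := 1) (by decide) (Q := [(-3665, 1603, -1200), (-1868, -714, 921), (-29, -2000, 2092), (1941, -481, 501), (-723, 3934, -3538)])
    (P := [⟨-36864000, -3665, 1603⟩, ⟨28293120, -1868, -714⟩, ⟨64266240, -29, -2000⟩, ⟨15390720, 1941, -481⟩, ⟨-108687360, -723, 3934⟩]) rfl rfl
    (List.mem_of_getElem? (i := 97) rfl) TE_fr TE_cov ?_
  · intro X Y h
    simp only [List.forall_mem_cons, List.not_mem_nil, false_imp_iff, implies_true, and_true] at h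
    push_cast at h ⊢
    obtain ⟨h0, h1, h2, h3, h4⟩ := h
    refine ⟨⟨?_, ?_⟩, ?_, ?_⟩ <;> linarith

theorem TE_rg98 : ROK [.q ⟨-1, 0, 0, 1⟩ ⟨-2911, 0, -1000, 3911⟩, .q ⟨-1, 0, 0, 1⟩ ⟨-2612, 3000, -2645, 2257⟩, .q ⟨-1, 0, 0, 1⟩ ⟨-3445, 3464, 2000, -2019⟩, .q ⟨-1, 0, 0, 1⟩ ⟨877, -1299, 3783, -3361⟩, .q ⟨-1, 0, 0, 1⟩ ⟨2928, -3333, 2212, -1807⟩] := by
  refine rok_e (k := 1) (by decide) (Q := [(0, -1000, 3911), (3000, -2645, 2257), (3464, 2000, -2019), (-1299, 3783, -3361), (-3333, 2212, -1807)])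
    (P := [⟨120145920, 0, -1000⟩, ⟨69335040, 3000, -2645⟩, ⟨-62023680, 3464, 2000⟩, ⟨-103249920, -1299, 3783⟩, ⟨-55511040, -3333, 2212⟩]) rfl rfl
    (List.mem_of_getElem? (i := 98) rfl) TE_fr TE_cov ?_
  · intro X Y h
    simp only [List.forall_mem_cons, List.not_mem_nil, false_imp_iff, implies_true, and_true] at h
    push_cast at h ⊢
    obtain ⟨h0, h1, h2, h3, h4⟩ := h
    refine ⟨⟨?_, ?_⟩, ?_, ?_⟩ <;> linarith

theorem TE_rg99 : ROK [.q ⟨-1, 0, 0, 1⟩ ⟨-500, -49, 4000, -3451⟩, .q ⟨-1, 0, 0, 1⟩ ⟨1567, -3127, 2494, -934⟩, .q ⟨-1, 0, 0, 1⟩ ⟨413, 0, -4000, 3587⟩, .q ⟨-1, 0, 0, 1⟩ ⟨-1846, 2000, -31, -123⟩] := by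
  refine rok_e (k := 1) (by decide) (Q := [(-49, 4000, -3451), (-3127, 2494, -934), (0, -4000, 3587), (2000, -31, -123)])
    (P := [⟨-106014720, -49, 4000⟩, ⟨-28692480, -3127, 2494⟩, ⟨110192640, 0, -4000⟩, ⟨-3778560, 2000, -31⟩]) rfl rfl
    (List.mem_of_getElem? (i := 99) rfl) TE_fr TE_cov ?_
  · intro X Y h
    simp only [List.forall_mem_cons, List.not_mem_nil, false_imp_iff, implies_true, and_true] at h
    push_cast at h ⊢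
    obtain ⟨h0, h1, h2, h3⟩ := h
    refine ⟨⟨?_, ?_⟩, ?_, ?_⟩ <;> linarith

theorem TE_rg100 : ROK [.q ⟨-1, 0, 0, 1⟩ ⟨-2143, 2715, -2938, 2366⟩, .q ⟨-1, 0, 0, 1⟩ ⟨-1623, 1994, -154, -217⟩, .q ⟨-1, 0, 0, 1⟩ ⟨1751, -3153, 2462, -1060⟩, .q ⟨-1, 0, 0, 1⟩ ⟨2689, -4000, 0, 1311⟩] := by
  refine rok_e (k := 1) (by decide) (Q := [(2715, -2938, 2366), (1994, -154, -217), (-3153, 2462, -1060), (-4000, 0, 1311)])
    (P := [⟨72683520, 2715, -2938⟩, ⟨-6666240, 1994, -154⟩, ⟨-32563200, -3153, 2462⟩, ⟨40273920, -4000, 0⟩]) rfl rfl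
    (List.mem_of_getElem? (i := 100) rfl) TE_fr TE_cov ?_
  · intro X Y h
    simp only [List.forall_mem_cons, List.not_mem_nil, false_imp_iff, implies_true, and_true] at h
    push_cast at h ⊢
    obtain ⟨h0, h1, h2, h3⟩ := h
    refine ⟨⟨?_, ?_⟩, ?_, ?_⟩ <;> linarith

theorem TE_rg101 : ROK [.q ⟨-1, 0, 0, 1⟩ ⟨-3062, 3573, -1798, 1287⟩, .q ⟨-1, 0, 0, 1⟩ ⟨-2761, 2828, 2828, -2895⟩, .q ⟨-1, 0, 0, 1⟩ ⟨2245, -3658, 1618, -205⟩, .q ⟨-1, 0, 0, 1⟩ ⟨2628, -2701, -2951, 3024⟩, .q ⟨-1, 0, 0, 1⟩ ⟨-745, 979, -1744, 1510⟩] := by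
  refine rok_e (k := 1) (by decide) (Q := [(3573, -1798, 1287), (2828, 2828, -2895), (-3658, 1618, -205), (-2701, -2951, 3024), (979, -1744, 1510)])
    (P := [⟨39536640, 3573, -1798⟩, ⟨-88934400, 2828, 2828⟩, ⟨-6297600, -3658, 1618⟩, ⟨92897280, -2701, -2951⟩, ⟨46387200, 979, -1744⟩]) rfl rfl
    (List.mem_of_getElem? (i := 101) rfl) TE_fr TE_cov ?_
  · intro X Y h
    simp only [List.forall_mem_cons, List.not_mem_nil, false_imp_iff, implies_true, and_true] at h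
    push_cast at h ⊢
    obtain ⟨h0, h1, h2, h3, h4⟩ := h
    refine ⟨⟨?_, ?_⟩, ?_, ?_⟩ <;> linarith

theorem TE_rg102 : ROK [.q ⟨-1, 0, 0, 1⟩ ⟨-1223, 927, 3891, -3595⟩, .q ⟨-1, 0, 0, 1⟩ ⟨599, -707, 707, -599⟩, .q ⟨-1, 0, 0, 1⟩ ⟨-838, 1039, -1709, 1508⟩] := by
  refine rok_e (k := 1) (by decide) (Q := [(927, 3891, -3595), (-707, 707, -599), (1039, -1709, 1508)])
    (P := [⟨-110438400, 927, 3891⟩, ⟨-18401280, -707, 707⟩, ⟨46325760, 1039, -1709⟩]) rfl rfl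
    (List.mem_of_getElem? (i := 102) rfl) TE_fr TE_cov ?_
  · intro X Y h
    simp only [List.forall_mem_cons, List.not_mem_nil, false_imp_iff, implies_true, and_true] at h
    push_cast at h ⊢
    obtain ⟨h0, h1, h2⟩ := h
    refine ⟨⟨?_, ?_⟩, ?_, ?_⟩ <;> linarith

theorem TE_rg103 : ROK [.q ⟨-1, 0, 0, 1⟩ ⟨596, -802, 1065, -859⟩, .q ⟨-1, 0, 0, 1⟩ ⟨2759, -2828, -2828, 2897⟩, .q ⟨-1, 0, 0, 1⟩ ⟨-2332, 2837, -2820, 2315⟩, .q ⟨-1, 0, 0, 1⟩ ⟨-1849, 2000, 0, -151⟩] := by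
  refine rok_e (k := 1) (by decide) (Q := [(-802, 1065, -859), (-2828, -2828, 2897), (2837, -2820, 2315), (2000, 0, -151)])
    (P := [⟨-26388480, -802, 1065⟩, ⟨88995840, -2828, -2828⟩, ⟨71116800, 2837, -2820⟩, ⟨-4638720, 2000, 0⟩]) rfl rfl
    (List.mem_of_getElem? (i := 103) rfl) TE_fr TE_cov ?_
  · intro X Y h
    simp only [List.forall_mem_cons, List.not_mem_nil, false_imp_iff, implies_true, and_true] at h
    push_cast at h ⊢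
    obtain ⟨h0, h1, h2, h3⟩ := h
    refine ⟨⟨?_, ?_⟩, ?_, ?_⟩ <;> linarith

theorem TE_rg104 : ROK [.q ⟨-1, 0, 0, 1⟩ ⟨-3489, 3951, -623, 161⟩, .q ⟨-1, 0, 0, 1⟩ ⟨75, -101, 101, -75⟩, .q ⟨-1, 0, 0, 1⟩ ⟨3476, -3951, 626, -151⟩, .q ⟨-1, 0, 0, 1⟩ ⟨-203, 558, -3961, 3606⟩] := by
  refine rok_e (k := 1) (by decide) (Q := [(3951, -623, 161), (-101, 101, -75), (-3951, 626, -151), (558, -3961, 3606)])
    (P := [⟨4945920, 3951, -623⟩, ⟨-2304000, -101, 101⟩, ⟨-4638720, -3951, 626⟩, ⟨110776320, 558, -3961⟩]) rfl rfl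
    (List.mem_of_getElem? (i := 104) rfl) TE_fr TE_cov ?_
  · intro X Y h
    simp only [List.forall_mem_cons, List.not_mem_nil, false_imp_iff, implies_true, and_true] at h
    push_cast at h ⊢
    obtain ⟨h0, h1, h2, h3⟩ := h
    refine ⟨⟨?_, ?_⟩, ?_, ?_⟩ <;> linarith

theorem TE_rg105 : ROK [.q ⟨-1, 0, 0, 1⟩ ⟨-363, 0, 4000, -3637⟩, .q ⟨-1, 0, 0, 1⟩ ⟨1378, -1813, 3565, -3130⟩, .q ⟨-1, 0, 0, 1⟩ ⟨-279, 646, -3948, 3581⟩] := by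
  refine rok_e (k := 1) (by decide) (Q := [(0, 4000, -3637), (-1813, 3565, -3130), (646, -3948, 3581)])
    (P := [⟨-111728640, 0, 4000⟩, ⟨-96153600, -1813, 3565⟩, ⟨110008320, 646, -3948⟩]) rfl rfl
    (List.mem_of_getElem? (i := 105) rfl) TE_fr TE_cov ?_
  · intro X Y h
    simp only [List.forall_mem_cons, List.not_mem_nil, false_imp_iff, implies_true, and_true] at h
    push_cast at h ⊢
    obtain ⟨h0, h1, h2⟩ := h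
    refine ⟨⟨?_, ?_⟩, ?_, ?_⟩ <;> linarith

theorem TE_rg106 : ROK [.q ⟨-1, 0, 0, 1⟩ ⟨-2340, 3103, -2524, 1761⟩, .q ⟨-1, 0, 0, 1⟩ ⟨-4509, 3520, 1901, -912⟩, .q ⟨-1, 0, 0, 1⟩ ⟨1963, -3219, 2374, -1118⟩, .q ⟨-1, 0, 0, 1⟩ ⟨1261, -2399, -3201, 4339⟩] := by
  refine rok_e (k := 1) (by decide) (Q := [(3103, -2524, 1761), (3520, 1901, -912), (-3219, 2374, -1118), (-2399, -3201, 4339)])
    (P := [⟨54097920, 3103, -2524⟩, ⟨-28016640, 3520, 1901⟩, ⟨-34344960, -3219, 2374⟩, ⟨133294080, -2399, -3201⟩]) rfl rfl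
    (List.mem_of_getElem? (i := 106) rfl) TE_fr TE_cov ?_
  · intro X Y h
    simp only [List.forall_mem_cons, List.not_mem_nil, false_imp_iff, implies_true, and_true] at h
    push_cast at h ⊢
    obtain ⟨h0, h1, h2, h3⟩ := h
    refine ⟨⟨?_, ?_⟩, ?_, ?_⟩ <;> linarith

theorem TE_rg107 : ROK [.q ⟨-1, 0, 0, 1⟩ ⟨2395, -2828, 2828, -2395⟩, .q ⟨-1, 0, 0, 1⟩ ⟨3509, -3914, 823, -418⟩, .q ⟨-1, 0, 0, 1⟩ ⟨-9, -151, -3997, 4157⟩, .q ⟨-1, 0, 0, 1⟩ ⟨-1873, 2000, 0, -127⟩] := by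
  refine rok_e (k := 1) (by decide) (Q := [(-2828, 2828, -2395), (-3914, 823, -418), (-151, -3997, 4157), (2000, 0, -127)])
    (P := [⟨-73574400, -2828, 2828⟩, ⟨-12840960, -3914, 823⟩, ⟨127703040, -151, -3997⟩, ⟨-3901440, 2000, 0⟩]) rfl rfl
    (List.mem_of_getElem? (i := 107) rfl) TE_fr TE_cov ?_
  · intro X Y h
    simp only [List.forall_mem_cons, List.not_mem_nil, false_imp_iff, implies_true, and_true] at h
    push_cast at h ⊢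
    obtain ⟨h0, h1, h2, h3⟩ := h
    refine ⟨⟨?_, ?_⟩, ?_, ?_⟩ <;> linarith

theorem TE_rg108 : ROK [.q ⟨-1, 0, 0, 1⟩ ⟨3372, -3789, 1283, -866⟩, .q ⟨-1, 0, 0, 1⟩ ⟨2813, -3177, -2431, 2795⟩, .q ⟨-1, 0, 0, 1⟩ ⟨-1373, 1414, -1414, 1373⟩, .q ⟨-1, 0, 0, 1⟩ ⟨-1459, 1235, 3805, -3581⟩] := by
  refine rok_e (k := 1) (by decide) (Q := [(-3789, 1283, -866), (-3177, -2431, 2795), (1414, -1414, 1373), (1235, 3805, -3581)])
    (P := [⟨-26603520, -3789, 1283⟩, ⟨85862400, -3177, -2431⟩, ⟨42178560, 1414, -1414⟩, ⟨-110008320, 1235, 3805⟩]) rfl rfl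
    (List.mem_of_getElem? (i := 108) rfl) TE_fr TE_cov ?_
  · intro X Y h
    simp only [List.forall_mem_cons, List.not_mem_nil, false_imp_iff, implies_true, and_true] at h
    push_cast at h ⊢
    obtain ⟨h0, h1, h2, h3⟩ := h
    refine ⟨⟨?_, ?_⟩, ?_, ?_⟩ <;> linarith

theorem TE_rg109 : ROK [.q ⟨-1, 0, 0, 1⟩ ⟨-2297, 2133, 3384, -3220⟩, .q ⟨-1, 0, 0, 1⟩ ⟨2391, -2828, 2828, -2391⟩, .q ⟨-1, 0, 0, 1⟩ ⟨91, -100, 0, 9⟩, .q ⟨-1, 0, 0, 1⟩ ⟨-2145, 2190, -3347, 3302⟩] := by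
  refine rok_e (k := 1) (by decide) (Q := [(2133, 3384, -3220), (-2828, 2828, -2391), (-100, 0, 9), (2190, -3347, 3302)])
    (P := [⟨-98918400, 2133, 3384⟩, ⟨-73451520, -2828, 2828⟩, ⟨276480, -100, 0⟩, ⟨101437440, 2190, -3347⟩]) rfl rfl
    (List.mem_of_getElem? (i := 109) rfl) TE_fr TE_cov ?_
  · intro X Y h
    simp only [List.forall_mem_cons, List.not_mem_nil, false_imp_iff, implies_true, and_true] at h
    push_cast at h ⊢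
    obtain ⟨h0, h1, h2, h3⟩ := h
    refine ⟨⟨?_, ?_⟩, ?_, ?_⟩ <;> linarith

theorem TE_rg110 : ROK [.q ⟨-1, 0, 0, 1⟩ ⟨1181, -1612, 3661, -3230⟩, .q ⟨-1, 0, 0, 1⟩ ⟨2510, -2469, -3147, 3106⟩, .q ⟨-1, 0, 0, 1⟩ ⟨-2871, 2828, -2828, 2871⟩, .q ⟨-1, 0, 0, 1⟩ ⟨-964, 851, 1810, -1697⟩] := by
  refine rok_e (k := 1) (by decide) (Q := [(-1612, 3661, -3230), (-2469, -3147, 3106), (2828, -2828, 2871), (851, 1810, -1697)])
    (P := [⟨-99225600, -1612, 3661⟩, ⟨95416320, -2469, -3147⟩, ⟨88197120, 2828, -2828⟩, ⟨-52131840, 851, 1810⟩]) rfl rfl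
    (List.mem_of_getElem? (i := 110) rfl) TE_fr TE_cov ?_
  · intro X Y h
    simp only [List.forall_mem_cons, List.not_mem_nil, false_imp_iff, implies_true, and_true] at h
    push_cast at h ⊢
    obtain ⟨h0, h1, h2, h3⟩ := h
    refine ⟨⟨?_, ?_⟩, ?_, ?_⟩ <;> linarith

theorem TE_rg111 : ROK [.q ⟨-1, 0, 0, 1⟩ ⟨-4187, 3964, 539, -316⟩, .q ⟨-1, 0, 0, 1⟩ ⟨-526, 196, 3995, -3665⟩, .q ⟨-1, 0, 0, 1⟩ ⟨1695, -1894, 643, -444⟩, .q ⟨-1, 0, 0, 1⟩ ⟨1593, -1834, -3555, 3796⟩, .q ⟨-1, 0, 0, 1⟩ ⟨-1509, 1414, -1414, 1509⟩] := by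
  refine rok_e (k := 1) (by decide) (Q := [(3964, 539, -316), (196, 3995, -3665), (-1894, 643, -444), (-1834, -3555, 3796), (1414, -1414, 1509)])
    (P := [⟨-9707520, 3964, 539⟩, ⟨-112588800, 196, 3995⟩, ⟨-13639680, -1894, 643⟩, ⟨116613120, -1834, -3555⟩, ⟨46356480, 1414, -1414⟩]) rfl rfl
    (List.mem_of_getElem? (i := 111) rfl) TE_fr TE_cov ?_
  · intro X Y h
    simp only [List.forall_mem_cons, List.not_mem_nil, false_imp_iff, implies_true, and_true] at h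
    push_cast at h ⊢
    obtain ⟨h0, h1, h2, h3, h4⟩ := h
    refine ⟨⟨?_, ?_⟩, ?_, ?_⟩ <;> linarith

theorem TE_rg112 : ROK [.q ⟨-1, 0, 0, 1⟩ ⟨3241, -3428, -2061, 2248⟩, .q ⟨-1, 0, 0, 1⟩ ⟨-2341, 2841, -2816, 2316⟩, .q ⟨-1, 0, 0, 1⟩ ⟨-2469, 2329, 3252, -3112⟩] := by
  refine rok_e (k := 1) (by decide) (Q := [(-3428, -2061, 2248), (2841, -2816, 2316), (2329, 3252, -3112)])
    (P := [⟨69058560, -3428, -2061⟩, ⟨71147520, 2841, -2816⟩, ⟨-95600640, 2329, 3252⟩]) rfl rfl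
    (List.mem_of_getElem? (i := 112) rfl) TE_fr TE_cov ?_
  · intro X Y h
    simp only [List.forall_mem_cons, List.not_mem_nil, false_imp_iff, implies_true, and_true] at h
    push_cast at h ⊢
    obtain ⟨h0, h1, h2⟩ := h
    refine ⟨⟨?_, ?_⟩, ?_, ?_⟩ <;> linarith

theorem TE_rg113 : ROK [.q ⟨-1, 0, 0, 1⟩ ⟨-75, -306, 3988, -3607⟩, .q ⟨-1, 0, 0, 1⟩ ⟨3160, -3548, 1847, -1459⟩, .q ⟨-1, 0, 0, 1⟩ ⟨-1415, 1706, -3618, 3327⟩] := by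
  refine rok_e (k := 1) (by decide) (Q := [(-306, 3988, -3607), (-3548, 1847, -1459), (1706, -3618, 3327)])
    (P := [⟨-110807040, -306, 3988⟩, ⟨-44820480, -3548, 1847⟩, ⟨102205440, 1706, -3618⟩]) rfl rfl
    (List.mem_of_getElem? (i := 113) rfl) TE_fr TE_cov ?_
  · intro X Y h
    simp only [List.forall_mem_cons, List.not_mem_nil, false_imp_iff, implies_true, and_true] at h
    push_cast at h ⊢
    obtain ⟨h0, h1, h2⟩ := h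
    refine ⟨⟨?_, ?_⟩, ?_, ?_⟩ <;> linarith

theorem TE_rg114 : ROK [.q ⟨-1, 0, 0, 1⟩ ⟨628, -707, 707, -628⟩, .q ⟨-1, 0, 0, 1⟩ ⟨1702, -1915, -577, 790⟩, .q ⟨-1, 0, 0, 1⟩ ⟨-191, 202, -202, 191⟩, .q ⟨-1, 0, 0, 1⟩ ⟨-2651, 2308, 3267, -2924⟩] := by
  refine rok_e (k := 1) (by decide) (Q := [(-707, 707, -628), (-1915, -577, 790), (202, -202, 191), (2308, 3267, -2924)])
    (P := [⟨-19292160, -707, 707⟩, ⟨24268800, -1915, -577⟩, ⟨5867520, 202, -202⟩, ⟨-89825280, 2308, 3267⟩]) rfl rfl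
    (List.mem_of_getElem? (i := 114) rfl) TE_fr TE_cov ?_
  · intro X Y h
    simp only [List.forall_mem_cons, List.not_mem_nil, false_imp_iff, implies_true, and_true] at h
    push_cast at h ⊢
    obtain ⟨h0, h1, h2, h3⟩ := h
    refine ⟨⟨?_, ?_⟩, ?_, ?_⟩ <;> linarith

theorem TE_rg115 : ROK [.q ⟨-1, 0, 0, 1⟩ ⟨3237, -3649, -1639, 2051⟩, .q ⟨-1, 0, 0, 1⟩ ⟨-2642, 2769, -2887, 2760⟩, .q ⟨-1, 0, 0, 1⟩ ⟨-2530, 2457, 3157, -3084⟩, .q ⟨-1, 0, 0, 1⟩ ⟨3348, -3764, 1355, -939⟩] := by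
  refine rok_e (k := 1) (by decide) (Q := [(-3649, -1639, 2051), (2769, -2887, 2760), (2457, 3157, -3084), (-3764, 1355, -939)])
    (P := [⟨63006720, -3649, -1639⟩, ⟨84787200, 2769, -2887⟩, ⟨-94740480, 2457, 3157⟩, ⟨-28846080, -3764, 1355⟩]) rfl rfl
    (List.mem_of_getElem? (i := 115) rfl) TE_fr TE_cov ?_
  · intro X Y h
    simp only [List.forall_mem_cons, List.not_mem_nil, false_imp_iff, implies_true, and_true] at h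
    push_cast at h ⊢
    obtain ⟨h0, h1, h2, h3⟩ := h
    refine ⟨⟨?_, ?_⟩, ?_, ?_⟩ <;> linarith

theorem TE_rg116 : ROK [.q ⟨-1, 0, 0, 1⟩ ⟨-3487, 3505, -1927, 1909⟩, .q ⟨-1, 0, 0, 1⟩ ⟨-363, 0, 4000, -3637⟩, .q ⟨-1, 0, 0, 1⟩ ⟨454, -599, 1191, -1046⟩, .q ⟨-1, 0, 0, 1⟩ ⟨3140, -3234, -2353, 2447⟩] := by
  refine rok_e (k := 1) (by decide) (Q := [(3505, -1927, 1909), (0, 4000, -3637), (-599, 1191, -1046), (-3234, -2353, 2447)])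
    (P := [⟨58644480, 3505, -1927⟩, ⟨-111728640, 0, 4000⟩, ⟨-32133120, -599, 1191⟩, ⟨75171840, -3234, -2353⟩]) rfl rfl
    (List.mem_of_getElem? (i := 116) rfl) TE_fr TE_cov ?_
  · intro X Y h
    simp only [List.forall_mem_cons, List.not_mem_nil, false_imp_iff, implies_true, and_true] at h
    push_cast at h ⊢
    obtain ⟨h0, h1, h2, h3⟩ := h
    refine ⟨⟨?_, ?_⟩, ?_, ?_⟩ <;> linarith

theorem TE_rg117 : ROK [.q ⟨-1, 0, 0, 1⟩ ⟨-3611, 4000, 46, -435⟩, .q ⟨-1, 0, 0, 1⟩ ⟨2654, -2987, 2661, -2328⟩, .q ⟨-1, 0, 0, 1⟩ ⟨3361, -3782, -1303, 1724⟩] := by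
  refine rok_e (k := 1) (by decide) (Q := [(4000, 46, -435), (-2987, 2661, -2328), (-3782, -1303, 1724)])
    (P := [⟨-13363200, 4000, 46⟩, ⟨-71516160, -2987, 2661⟩, ⟨52961280, -3782, -1303⟩]) rfl rfl
    (List.mem_of_getElem? (i := 117) rfl) TE_fr TE_cov ?_
  · intro X Y h
    simp only [List.forall_mem_cons, List.not_mem_nil, false_imp_iff, implies_true, and_true] at h
    push_cast at h ⊢
    obtain ⟨h0, h1, h2⟩ := h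
    refine ⟨⟨?_, ?_⟩, ?_, ?_⟩ <;> linarith

theorem TE_rg118 : ROK [.q ⟨-1, 0, 0, 1⟩ ⟨1261, -1098, -3846, 3683⟩, .q ⟨-1, 0, 0, 1⟩ ⟨-1153, 1414, -1414, 1153⟩, .q ⟨-1, 0, 0, 1⟩ ⟨-3654, 3791, 1275, -1412⟩, .q ⟨-1, 0, 0, 1⟩ ⟨1341, -2828, 2828, -1341⟩] := by
  refine rok_e (k := 1) (by decide) (Q := [(-1098, -3846, 3683), (1414, -1414, 1153), (3791, 1275, -1412), (-2828, 2828, -1341)])
    (P := [⟨113141760, -1098, -3846⟩, ⟨35420160, 1414, -1414⟩, ⟨-43376640, 3791, 1275⟩, ⟨-41195520, -2828, 2828⟩]) rfl rfl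
    (List.mem_of_getElem? (i := 118) rfl) TE_fr TE_cov ?_
  · intro X Y h
    simp only [List.forall_mem_cons, List.not_mem_nil, false_imp_iff, implies_true, and_true] at h
    push_cast at h ⊢
    obtain ⟨h0, h1, h2, h3⟩ := h
    refine ⟨⟨?_, ?_⟩, ?_, ?_⟩ <;> linarith

theorem TE_rg119 : ROK [.q ⟨-1, 0, 0, 1⟩ ⟨672, -407, -3979, 3714⟩, .q ⟨-1, 0, 0, 1⟩ ⟨-2263, 2762, -2894, 2395⟩, .q ⟨-1, 0, 0, 1⟩ ⟨-1153, 831, 3913, -3591⟩, .q ⟨-1, 0, 0, 1⟩ ⟨3121, -3837, 1129, -413⟩] := by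
  refine rok_e (k := 1) (by decide) (Q := [(-407, -3979, 3714), (2762, -2894, 2395), (831, 3913, -3591), (-3837, 1129, -413)])
    (P := [⟨114094080, -407, -3979⟩, ⟨73574400, 2762, -2894⟩, ⟨-110315520, 831, 3913⟩, ⟨-12687360, -3837, 1129⟩]) rfl rfl
    (List.mem_of_getElem? (i := 119) rfl) TE_fr TE_cov ?_
  · intro X Y h
    simp only [List.forall_mem_cons, List.not_mem_nil, false_imp_iff, implies_true, and_true] at h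
    push_cast at h ⊢
    obtain ⟨h0, h1, h2, h3⟩ := h
    refine ⟨⟨?_, ?_⟩, ?_, ?_⟩ <;> linarith

end Pool.Agent.TET
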