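import Pool.Agent.Helper38_TET.TE_C

/-!
# MP_c7c9bf_co: certificates, family TE
-/

set_option autoImplicit false
set_option maxRecDepth 100000

namespace Pool.Agent.TET

theorem TE_rg120 : ROK [.q ⟨-1, 0, 0, 1⟩ ⟨-241, -128, 3998, -3629⟩, .q ⟨-1, 0, 0, 1⟩ ⟨2449, -2883, 2773, -2339⟩, .q ⟨-1, 0, 0, 1⟩ ⟨-102, 157, -648, 593⟩] := by
  refine rok_e (k := 1) (by decide) (Q := [(-128, 3998, -3629), (-2883, 2773, -2339), (157, -648, 593)])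
    (P := [⟨-111482880, -128, 3998⟩, ⟨-71854080, -2883, 2773⟩, ⟨18216960, 157, -648⟩]) rfl rfl
    (List.mem_of_getElem? (i := 120) rfl) TE_fr TE_cov ?_
  · intro X Y h
    simp only [List.forall_mem_cons, List.not_mem_nil, false_imp_iff, implies_true, and_true] at h
    push_cast at h ⊢
    obtain ⟨h0, h1, h2⟩ := h
    refine ⟨⟨?_, ?_⟩, ?_, ?_⟩ <;> linarith

theorem TE_rg121 : ROK [.q ⟨-1, 0, 0, 1⟩ ⟨853, -652, -3946, 3745⟩, .q ⟨-1, 0, 0, 1⟩ ⟨-4119, 3877, 983, -741⟩, .q ⟨-1, 0, 0, 1⟩ ⟨-191, -181, 3996, -3624⟩, .q ⟨-1, 0, 0, 1⟩ ⟨2334, -2771, 2884, -2447⟩] := by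
  refine rok_e (k := 1) (by decide) (Q := [(-652, -3946, 3745), (3877, 983, -741), (-181, 3996, -3624), (-2771, 2884, -2447)])
    (P := [⟨115046400, -652, -3946⟩, ⟨-22763520, 3877, 983⟩, ⟨-111329280, -181, 3996⟩, ⟨-75171840, -2771, 2884⟩]) rfl rfl
    (List.mem_of_getElem? (i := 121) rfl) TE_fr TE_cov ?_
  · intro X Y h
    simp only [List.forall_mem_cons, List.not_mem_nil, false_imp_iff, implies_true, and_true] at h
    push_cast at h ⊢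
    obtain ⟨h0, h1, h2, h3⟩ := h
    refine ⟨⟨?_, ?_⟩, ?_, ?_⟩ <;> linarith

theorem TE_rg122 : ROK [.q ⟨-1, 0, 0, 1⟩ ⟨-35, 258, -3992, 3769⟩, .q ⟨-1, 0, 0, 1⟩ ⟨-2679, 2723, 2930, -2974⟩, .q ⟨-1, 0, 0, 1⟩ ⟨3374, -3795, 1264, -843⟩] := by
  refine rok_e (k := 1) (by decide) (Q := [(258, -3992, 3769), (2723, 2930, -2974), (-3795, 1264, -843)])
    (P := [⟨115783680, 258, -3992⟩, ⟨-91361280, 2723, 2930⟩, ⟨-25896960, -3795, 1264⟩]) rfl rfl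
    (List.mem_of_getElem? (i := 122) rfl) TE_fr TE_cov ?_
  · intro X Y h
    simp only [List.forall_mem_cons, List.not_mem_nil, false_imp_iff, implies_true, and_true] at h
    push_cast at h ⊢
    obtain ⟨h0, h1, h2⟩ := h
    refine ⟨⟨?_, ?_⟩, ?_, ?_⟩ <;> linarith

theorem TE_rg123 : ROK [.q ⟨-1, 0, 0, 1⟩ ⟨-311, -56, 4000, -3633⟩, .q ⟨-1, 0, 0, 1⟩ ⟨599, -707, 707, -599⟩, .q ⟨-1, 0, 0, 1⟩ ⟨-1558, 1953, -3491, 3096⟩] := by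
  refine rok_e (k := 1) (by decide) (Q := [(-56, 4000, -3633), (-707, 707, -599), (1953, -3491, 3096)])
    (P := [⟨-111605760, -56, 4000⟩, ⟨-18401280, -707, 707⟩, ⟨95109120, 1953, -3491⟩]) rfl rfl
    (List.mem_of_getElem? (i := 123) rfl) TE_fr TE_cov ?_
  · intro X Y h
    simp only [List.forall_mem_cons, List.not_mem_nil, false_imp_iff, implies_true, and_true] at h
    push_cast at h ⊢
    obtain ⟨h0, h1, h2⟩ := h
    refine ⟨⟨?_, ?_⟩, ?_, ?_⟩ <;> linarith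

theorem TE_rg124 : ROK [.q ⟨-1, 0, 0, 1⟩ ⟨3375, -3420, -2074, 2119⟩, .q ⟨-1, 0, 0, 1⟩ ⟨-4030, 3922, -787, 895⟩, .q ⟨-1, 0, 0, 1⟩ ⟨-453, 98, 3999, -3644⟩, .q ⟨-1, 0, 0, 1⟩ ⟨2583, -3012, 2632, -2203⟩] := by
  refine rok_e (k := 1) (by decide) (Q := [(-3420, -2074, 2119), (3922, -787, 895), (98, 3999, -3644), (-3012, 2632, -2203)])
    (P := [⟨65095680, -3420, -2074⟩, ⟨27494400, 3922, -787⟩, ⟨-111943680, 98, 3999⟩, ⟨-67676160, -3012, 2632⟩]) rfl rfl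
    (List.mem_of_getElem? (i := 124) rfl) TE_fr TE_cov ?_
  · intro X Y h
    simp only [List.forall_mem_cons, List.not_mem_nil, false_imp_iff, implies_true, and_true] at h
    push_cast at h ⊢
    obtain ⟨h0, h1, h2, h3⟩ := h
    refine ⟨⟨?_, ?_⟩, ?_, ?_⟩ <;> linarith

theorem TE_rg125 : ROK [.q ⟨-1, 0, 0, 1⟩ ⟨-181, -194, 3995, -3620⟩, .q ⟨-1, 0, 0, 1⟩ ⟨3544, -3875, 991, -660⟩, .q ⟨-1, 0, 0, 1⟩ ⟨1011, -1017, -3869, 3875⟩, .q ⟨-1, 0, 0, 1⟩ ⟨-2891, 2792, 2864, -2765⟩] := by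
  refine rok_e (k := 1) (by decide) (Q := [(-194, 3995, -3620), (-3875, 991, -660), (-1017, -3869, 3875), (2792, 2864, -2765)])
    (P := [⟨-111206400, -194, 3995⟩, ⟨-20275200, -3875, 991⟩, ⟨119040000, -1017, -3869⟩, ⟨-84940800, 2792, 2864⟩]) rfl rfl
    (List.mem_of_getElem? (i := 125) rfl) TE_fr TE_cov ?_
  · intro X Y h
    simp only [List.forall_mem_cons, List.not_mem_nil, false_imp_iff, implies_true, and_true] at h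
    push_cast at h ⊢
    obtain ⟨h0, h1, h2, h3⟩ := h
    refine ⟨⟨?_, ?_⟩, ?_, ?_⟩ <;> linarith

theorem TE_rg126 : ROK [.q ⟨-1, 0, 0, 1⟩ ⟨524, -417, -1956, 1849⟩, .q ⟨-1, 0, 0, 1⟩ ⟨-2321, 2828, -2828, 2321⟩, .q ⟨-1, 0, 0, 1⟩ ⟨-3721, 3984, 354, -617⟩, .q ⟨-1, 0, 0, 1⟩ ⟨431, -1102, 3845, -3174⟩] := by
  refine rok_e (k := 1) (by decide) (Q := [(-417, -1956, 1849), (2828, -2828, 2321), (3984, 354, -617), (-1102, 3845, -3174)])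
    (P := [⟨56801280, -417, -1956⟩, ⟨71301120, 2828, -2828⟩, ⟨-18954240, 3984, 354⟩, ⟨-97505280, -1102, 3845⟩]) rfl rfl
    (List.mem_of_getElem? (i := 126) rfl) TE_fr TE_cov ?_
  · intro X Y h
    simp only [List.forall_mem_cons, List.not_mem_nil, false_imp_iff, implies_true, and_true] at h
    push_cast at h ⊢
    obtain ⟨h0, h1, h2, h3⟩ := h
    refine ⟨⟨?_, ?_⟩, ?_, ?_⟩ <;> linarith

theorem TE_rg127 : ROK [.q ⟨-1, 0, 0, 1⟩ ⟨-1419, 1882, -3529, 3066⟩, .q ⟨-1, 0, 0, 1⟩ ⟨-2985, 3500, -1936, 1421⟩, .q ⟨-1, 0, 0, 1⟩ ⟨-1895, 1519, 3700, -3324⟩, .q ⟨-1, 0, 0, 1⟩ ⟨2467, -2507, -3117, 3157⟩] := by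
  refine rok_e (k := 1) (by decide) (Q := [(1882, -3529, 3066), (3500, -1936, 1421), (1519, 3700, -3324), (-2507, -3117, 3157)])
    (P := [⟨94187520, 1882, -3529⟩, ⟨43653120, 3500, -1936⟩, ⟨-102113280, 1519, 3700⟩, ⟨96983040, -2507, -3117⟩]) rfl rfl
    (List.mem_of_getElem? (i := 127) rfl) TE_fr TE_cov ?_
  · intro X Y h
    simp only [List.forall_mem_cons, List.not_mem_nil, false_imp_iff, implies_true, and_true] at h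
    push_cast at h ⊢
    obtain ⟨h0, h1, h2, h3⟩ := h
    refine ⟨⟨?_, ?_⟩, ?_, ?_⟩ <;> linarith

theorem TE_rg128 : ROK [.q ⟨-1, 0, 0, 1⟩ ⟨1341, -2828, 2828, -1341⟩, .q ⟨-1, 0, 0, 1⟩ ⟨640, -619, -1181, 1160⟩, .q ⟨-1, 0, 0, 1⟩ ⟨-2243, 2752, -2903, 2394⟩, .q ⟨-1, 0, 0, 1⟩ ⟨-3699, 4000, 0, -301⟩, .q ⟨-1, 0, 0, 1⟩ ⟨-104, 101, 101, -98⟩] := by
  refine rok_e (k := 1) (by decide) (Q := [(-2828, 2828, -1341), (-619, -1181, 1160), (2752, -2903, 2394), (4000, 0, -301), (101, 101, -98)])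
    (P := [⟨-41195520, -2828, 2828⟩, ⟨35635200, -619, -1181⟩, ⟨73543680, 2752, -2903⟩, ⟨-9246720, 4000, 0⟩, ⟨-3010560, 101, 101⟩]) rfl rfl
    (List.mem_of_getElem? (i := 128) rfl) TE_fr TE_cov ?_
  · intro X Y h
    simp only [List.forall_mem_cons, List.not_mem_nil, false_imp_iff, implies_true, and_true] at h
    push_cast at h ⊢
    obtain ⟨h0, h1, h2, h3, h4⟩ := h
    refine ⟨⟨?_, ?_⟩, ?_, ?_⟩ <;> linarith

theorem TE_rg129 : ROK [.q ⟨-1, 0, 0, 1⟩ ⟨-3673, 3612, 1718, -1657⟩, .q ⟨-1, 0, 0, 1⟩ ⟨1539, -1940, 3498, -3097⟩, .q ⟨-1, 0, 0, 1⟩ ⟨91, -100, 0, 9⟩, .q ⟨-1, 0, 0, 1⟩ ⟨-1176, 1101, -3845, 3920⟩] := by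
  refine rok_e (k := 1) (by decide) (Q := [(3612, 1718, -1657), (-1940, 3498, -3097), (-100, 0, 9), (1101, -3845, 3920)])
    (P := [⟨-50903040, 3612, 1718⟩, ⟨-95139840, -1940, 3498⟩, ⟨276480, -100, 0⟩, ⟨120422400, 1101, -3845⟩]) rfl rfl
    (List.mem_of_getElem? (i := 129) rfl) TE_fr TE_cov ?_
  · intro X Y h
    simp only [List.forall_mem_cons, List.not_mem_nil, false_imp_iff, implies_true, and_true] at h
    push_cast at h ⊢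
    obtain ⟨h0, h1, h2, h3⟩ := h
    refine ⟨⟨?_, ?_⟩, ?_, ?_⟩ <;> linarith

theorem TE_rg130 : ROK [.q ⟨-1, 0, 0, 1⟩ ⟨-374, 11, 4000, -3637⟩, .q ⟨-1, 0, 0, 1⟩ ⟨3768, -3984, -355, 571⟩, .q ⟨-1, 0, 0, 1⟩ ⟨-20, 367, -3983, 3636⟩, .q ⟨-1, 0, 0, 1⟩ ⟨-14640, 3056, -2581, 14165⟩] := by
  refine rok_e (k := 1) (by decide) (Q := [(11, 4000, -3637), (-3984, -355, 571), (367, -3983, 3636), (3056, -2581, 14165)])
    (P := [⟨-111728640, 11, 4000⟩, ⟨17541120, -3984, -355⟩, ⟨111697920, 367, -3983⟩, ⟨435148800, 3056, -2581⟩]) rfl rfl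
    (List.mem_of_getElem? (i := 130) rfl) TE_fr TE_cov ?_
  · intro X Y h
    simp only [List.forall_mem_cons, List.not_mem_nil, false_imp_iff, implies_true, and_true] at h
    push_cast at h ⊢
    obtain ⟨h0, h1, h2, h3⟩ := h
    refine ⟨⟨?_, ?_⟩, ?_, ?_⟩ <;> linarith

theorem TE_rg131 : ROK [.q ⟨-1, 0, 0, 1⟩ ⟨2552, -2578, -3059, 3085⟩, .q ⟨-1, 0, 0, 1⟩ ⟨-2386, 2887, -2769, 2268⟩, .q ⟨-1, 0, 0, 1⟩ ⟨-1853, 1996, 124, -267⟩, .q ⟨-1, 0, 0, 1⟩ ⟨2155, -2828, 2828, -2155⟩] := by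
  refine rok_e (k := 1) (by decide) (Q := [(-2578, -3059, 3085), (2887, -2769, 2268), (1996, 124, -267), (-2828, 2828, -2155)])
    (P := [⟨94771200, -2578, -3059⟩, ⟨69672960, 2887, -2769⟩, ⟨-8202240, 1996, 124⟩, ⟨-66201600, -2828, 2828⟩]) rfl rfl
    (List.mem_of_getElem? (i := 131) rfl) TE_fr TE_cov ?_
  · intro X Y h
    simp only [List.forall_mem_cons, List.not_mem_nil, false_imp_iff, implies_true, and_true] at h
    push_cast at h ⊢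
    obtain ⟨h0, h1, h2, h3⟩ := h
    refine ⟨⟨?_, ?_⟩, ?_, ?_⟩ <;> linarith

theorem TE_rg132 : ROK [.q ⟨-1, 0, 0, 1⟩ ⟨-2301, 2264, -3298, 3335⟩, .q ⟨-1, 0, 0, 1⟩ ⟨-2869, 2828, 2828, -2787⟩, .q ⟨-1, 0, 0, 1⟩ ⟨2761, -3204, 2395, -1952⟩, .q ⟨-1, 0, 0, 1⟩ ⟨3589, -3873, -999, 1283⟩] := by
  refine rok_e (k := 1) (by decide) (Q := [(2264, -3298, 3335), (2828, 2828, -2787), (-3204, 2395, -1952), (-3873, -999, 1283)])
    (P := [⟨102451200, 2264, -3298⟩, ⟨-85616640, 2828, 2828⟩, ⟨-59965440, -3204, 2395⟩, ⟨39413760, -3873, -999⟩]) rfl rfl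
    (List.mem_of_getElem? (i := 132) rfl) TE_fr TE_cov ?_
  · intro X Y h
    simp only [List.forall_mem_cons, List.not_mem_nil, false_imp_iff, implies_true, and_true] at h
    push_cast at h ⊢
    obtain ⟨h0, h1, h2, h3⟩ := h
    refine ⟨⟨?_, ?_⟩, ?_, ?_⟩ <;> linarith

theorem TE_rg133 : ROK [.q ⟨-1, 0, 0, 1⟩ ⟨610, -698, 391, -303⟩, .q ⟨-1, 0, 0, 1⟩ ⟨1741, -1862, -730, 851⟩, .q ⟨-1, 0, 0, 1⟩ ⟨-2941, 2938, -2714, 2717⟩, .q ⟨-1, 0, 0, 1⟩ ⟨-2655, 2598, 3041, -2984⟩] := by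
  refine rok_e (k := 1) (by decide) (Q := [(-698, 391, -303), (-1862, -730, 851), (2938, -2714, 2717), (2598, 3041, -2984)])
    (P := [⟨-9308160, -698, 391⟩, ⟨26142720, -1862, -730⟩, ⟨83466240, 2938, -2714⟩, ⟨-91668480, 2598, 3041⟩]) rfl rfl
    (List.mem_of_getElem? (i := 133) rfl) TE_fr TE_cov ?_
  · intro X Y h
    simp only [List.forall_mem_cons, List.not_mem_nil, false_imp_iff, implies_true, and_true] at h
    push_cast at h ⊢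
    obtain ⟨h0, h1, h2, h3⟩ := h
    refine ⟨⟨?_, ?_⟩, ?_, ?_⟩ <;> linarith

theorem TE_rg134 : ROK [.q ⟨-1, 0, 0, 1⟩ ⟨2373, -2809, 2847, -2411⟩, .q ⟨-1, 0, 0, 1⟩ ⟨1823, -1988, -219, 384⟩, .q ⟨-1, 0, 0, 1⟩ ⟨2017, -1988, -3471, 3442⟩, .q ⟨-1, 0, 0, 1⟩ ⟨-1451, 1414, 1414, -1377⟩] := by
  refine rok_e (k := 1) (by decide) (Q := [(-2809, 2847, -2411), (-1988, -219, 384), (-1988, -3471, 3442), (1414, 1414, -1377)])
    (P := [⟨-74065920, -2809, 2847⟩, ⟨11796480, -1988, -219⟩, ⟨105738240, -1988, -3471⟩, ⟨-42301440, 1414, 1414⟩]) rfl rfl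
    (List.mem_of_getElem? (i := 134) rfl) TE_fr TE_cov ?_
  · intro X Y h
    simp only [List.forall_mem_cons, List.not_mem_nil, false_imp_iff, implies_true, and_true] at h
    push_cast at h ⊢
    obtain ⟨h0, h1, h2, h3⟩ := h
    refine ⟨⟨?_, ?_⟩, ?_, ?_⟩ <;> linarith

theorem TE_rg135 : ROK [.q ⟨-1, 0, 0, 1⟩ ⟨415, -404, -404, 393⟩, .q ⟨-1, 0, 0, 1⟩ ⟨-3358, 3779, -1311, 890⟩, .q ⟨-1, 0, 0, 1⟩ ⟨-3508, 3595, 1753, -1840⟩, .q ⟨-1, 0, 0, 1⟩ ⟨260, -1681, 3629, -2208⟩] := by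
  refine rok_e (k := 1) (by decide) (Q := [(-404, -404, 393), (3779, -1311, 890), (3595, 1753, -1840), (-1681, 3629, -2208)])
    (P := [⟨12072960, -404, -404⟩, ⟨27340800, 3779, -1311⟩, ⟨-56524800, 3595, 1753⟩, ⟨-67829760, -1681, 3629⟩]) rfl rfl
    (List.mem_of_getElem? (i := 135) rfl) TE_fr TE_cov ?_
  · intro X Y h
    simp only [List.forall_mem_cons, List.not_mem_nil, false_imp_iff, implies_true, and_true] at h
    push_cast at h ⊢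
    obtain ⟨h0, h1, h2, h3⟩ := h
    refine ⟨⟨?_, ?_⟩, ?_, ?_⟩ <;> linarith

theorem TE_rg136 : ROK [.q ⟨-1, 0, 0, 1⟩ ⟨-2444, 2531, -3098, 3011⟩, .q ⟨-1, 0, 0, 1⟩ ⟨-3704, 3939, 696, -931⟩, .q ⟨-1, 0, 0, 1⟩ ⟨2844, -3287, 2279, -1836⟩, .q ⟨-1, 0, 0, 1⟩ ⟨91, -100, 0, 9⟩] := by
  refine rok_e (k := 1) (by decide) (Q := [(2531, -3098, 3011), (3939, 696, -931), (-3287, 2279, -1836), (-100, 0, 9)])
    (P := [⟨92497920, 2531, -3098⟩, ⟨-28600320, 3939, 696⟩, ⟨-56401920, -3287, 2279⟩, ⟨276480, -100, 0⟩]) rfl rfl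
    (List.mem_of_getElem? (i := 136) rfl) TE_fr TE_cov ?_
  · intro X Y h
    simp only [List.forall_mem_cons, List.not_mem_nil, false_imp_iff, implies_true, and_true] at h
    push_cast at h ⊢
    obtain ⟨h0, h1, h2, h3⟩ := h
    refine ⟨⟨?_, ?_⟩, ?_, ?_⟩ <;> linarith

theorem TE_rg137 : ROK [.q ⟨-1, 0, 0, 1⟩ ⟨1696, -1975, -314, 593⟩, .q ⟨-1, 0, 0, 1⟩ ⟨-363, 605, -1906, 1664⟩, .q ⟨-1, 0, 0, 1⟩ ⟨-3493, 3885, -954, 562⟩, .q ⟨-1, 0, 0, 1⟩ ⟨-2944, 2867, 2789, -2712⟩] := by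
  refine rok_e (k := 1) (by decide) (Q := [(-1975, -314, 593), (605, -1906, 1664), (3885, -954, 562), (2867, 2789, -2712)])
    (P := [⟨18216960, -1975, -314⟩, ⟨51118080, 605, -1906⟩, ⟨17264640, 3885, -954⟩, ⟨-83312640, 2867, 2789⟩]) rfl rfl
    (List.mem_of_getElem? (i := 137) rfl) TE_fr TE_cov ?_
  · intro X Y h
    simp only [List.forall_mem_cons, List.not_mem_nil, false_imp_iff, implies_true, and_true] at h
    push_cast at h ⊢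
    obtain ⟨h0, h1, h2, h3⟩ := h
    refine ⟨⟨?_, ?_⟩, ?_, ?_⟩ <;> linarith

theorem TE_rg138 : ROK [.q ⟨-1, 0, 0, 1⟩ ⟨-2096, 2599, -3041, 2538⟩, .q ⟨-1, 0, 0, 1⟩ ⟨-1138, 815, 3916, -3593⟩, .q ⟨-1, 0, 0, 1⟩ ⟨3065, -3243, -2342, 2520⟩, .q ⟨-1, 0, 0, 1⟩ ⟨59, 0, -800, 741⟩] := by
  refine rok_e (k := 1) (by decide) (Q := [(2599, -3041, 2538), (815, 3916, -3593), (-3243, -2342, 2520), (0, -800, 741)])
    (P := [⟨77967360, 2599, -3041⟩, ⟨-110376960, 815, 3916⟩, ⟨77414400, -3243, -2342⟩, ⟨22763520, 0, -800⟩]) rfl rfl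
    (List.mem_of_getElem? (i := 138) rfl) TE_fr TE_cov ?_
  · intro X Y h
    simp only [List.forall_mem_cons, List.not_mem_nil, false_imp_iff, implies_true, and_true] at h
    push_cast at h ⊢
    obtain ⟨h0, h1, h2, h3⟩ := h
    refine ⟨⟨?_, ?_⟩, ?_, ?_⟩ <;> linarith

theorem TE_rg139 : ROK [.q ⟨-1, 0, 0, 1⟩ ⟨979, -753, -3928, 3702⟩, .q ⟨-1, 0, 0, 1⟩ ⟨-9, 10, 0, -1⟩, .q ⟨-1, 0, 0, 1⟩ ⟨3043, -3799, 1253, -497⟩] := by
  refine rok_e (k := 1) (by decide) (Q := [(-753, -3928, 3702), (10, 0, -1), (-3799, 1253, -497)])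
    (P := [⟨113725440, -753, -3928⟩, ⟨-30720, 10, 0⟩, ⟨-15267840, -3799, 1253⟩]) rfl rfl
    (List.mem_of_getElem? (i := 139) rfl) TE_fr TE_cov ?_
  · intro X Y h
    simp only [List.forall_mem_cons, List.not_mem_nil, false_imp_iff, implies_true, and_true] at h
    push_cast at h ⊢
    obtain ⟨h0, h1, h2⟩ := h
    refine ⟨⟨?_, ?_⟩, ?_, ?_⟩ <;> linarith

theorem TE_rg140 : ROK [.q ⟨-1, 0, 0, 1⟩ ⟨639, -1123, 719, -235⟩, .q ⟨-1, 0, 0, 1⟩ ⟨1549, -1426, -3737, 3614⟩, .q ⟨-1, 0, 0, 1⟩ ⟨-579, 707, -707, 579⟩, .q ⟨-1, 0, 0, 1⟩ ⟨-2877, 2919, 2735, -2777⟩] := by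
  refine rok_e (k := 1) (by decide) (Q := [(-1123, 719, -235), (-1426, -3737, 3614), (707, -707, 579), (2919, 2735, -2777)])
    (P := [⟨-7219200, -1123, 719⟩, ⟨111022080, -1426, -3737⟩, ⟨17786880, 707, -707⟩, ⟨-85309440, 2919, 2735⟩]) rfl rfl
    (List.mem_of_getElem? (i := 140) rfl) TE_fr TE_cov ?_
  · intro X Y h
    simp only [List.forall_mem_cons, List.not_mem_nil, false_imp_iff, implies_true, and_true] at h
    push_cast at h ⊢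
    obtain ⟨h0, h1, h2, h3⟩ := h
    refine ⟨⟨?_, ?_⟩, ?_, ?_⟩ <;> linarith

theorem TE_rg141 : ROK [.q ⟨-1, 0, 0, 1⟩ ⟨-13828, 3993, -237, 10072⟩, .q ⟨-1, 0, 0, 1⟩ ⟨-275, -92, 3999, -3632⟩, .q ⟨-1, 0, 0, 1⟩ ⟨2393, -2828, 2828, -2393⟩, .q ⟨-1, 0, 0, 1⟩ ⟨-124, 297, -1978, 1805⟩] := by
  refine rok_e (k := 1) (by decide) (Q := [(3993, -237, 10072), (-92, 3999, -3632), (-2828, 2828, -2393), (297, -1978, 1805)])
    (P := [⟨309411840, 3993, -237⟩, ⟨-111575040, -92, 3999⟩, ⟨-73512960, -2828, 2828⟩, ⟨55449600, 297, -1978⟩]) rfl rfl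
    (List.mem_of_getElem? (i := 141) rfl) TE_fr TE_cov ?_
  · intro X Y h
    simp only [List.forall_mem_cons, List.not_mem_nil, false_imp_iff, implies_true, and_true] at h
    push_cast at h ⊢
    obtain ⟨h0, h1, h2, h3⟩ := h
    refine ⟨⟨?_, ?_⟩, ?_, ?_⟩ <;> linarith

theorem TE_rg142 : ROK [.q ⟨-1, 0, 0, 1⟩ ⟨-3698, 3933, 728, -963⟩, .q ⟨-1, 0, 0, 1⟩ ⟨3017, -3452, 2021, -1586⟩, .q ⟨-1, 0, 0, 1⟩ ⟨3382, -3613, -1717, 1948⟩] := by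
  refine rok_e (k := 1) (by decide) (Q := [(3933, 728, -963), (-3452, 2021, -1586), (-3613, -1717, 1948)])
    (P := [⟨-29583360, 3933, 728⟩, ⟨-48721920, -3452, 2021⟩, ⟨59842560, -3613, -1717⟩]) rfl rfl
    (List.mem_of_getElem? (i := 142) rfl) TE_fr TE_cov ?_
  · intro X Y h
    simp only [List.forall_mem_cons, List.not_mem_nil, false_imp_iff, implies_true, and_true] at h
    push_cast at h ⊢
    obtain ⟨h0, h1, h2⟩ := h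
    refine ⟨⟨?_, ?_⟩, ?_, ?_⟩ <;> linarith

theorem TE_rg143 : ROK [.q ⟨-1, 0, 0, 1⟩ ⟨2391, -2828, 2828, -2391⟩, .q ⟨-1, 0, 0, 1⟩ ⟨3584, -3867, -1023, 1306⟩, .q ⟨-1, 0, 0, 1⟩ ⟨-214, 7, -4000, 4207⟩, .q ⟨-1, 0, 0, 1⟩ ⟨-3517, 3595, 1754, -1832⟩] := by
  refine rok_e (k := 1) (by decide) (Q := [(-2828, 2828, -2391), (-3867, -1023, 1306), (7, -4000, 4207), (3595, 1754, -1832)])
    (P := [⟨-73451520, -2828, 2828⟩, ⟨40120320, -3867, -1023⟩, ⟨129239040, 7, -4000⟩, ⟨-56279040, 3595, 1754⟩]) rfl rfl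
    (List.mem_of_getElem? (i := 143) rfl) TE_fr TE_cov ?_
  · intro X Y h
    simp only [List.forall_mem_cons, List.not_mem_nil, false_imp_iff, implies_true, and_true] at h
    push_cast at h ⊢
    obtain ⟨h0, h1, h2, h3⟩ := h
    refine ⟨⟨?_, ?_⟩, ?_, ?_⟩ <;> linarith

end Pool.Agent.TET
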