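import Pool.Agent.Helper38_TET.TE_C

/-!
# MP_c7c9bf_co: certificates, family TE
-/

set_option autoImplicit false
set_option maxRecDepth 100000

namespace Pool.Agent.TET

theorem TE_rg144 : ROK [.q ⟨-1, 0, 0, 1⟩ ⟨-2683, 2828, -2828, 2683⟩, .q ⟨-1, 0, 0, 1⟩ ⟨-233, -139, 3998, -3626⟩, .q ⟨-1, 0, 0, 1⟩ ⟨3769, -3987, -327, 545⟩] := by
  refine rok_e (k := 1) (by decide) (Q := [(2828, -2828, 2683), (-139, 3998, -3626), (-3987, -327, 545)])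
    (P := [⟨82421760, 2828, -2828⟩, ⟨-111390720, -139, 3998⟩, ⟨16742400, -3987, -327⟩]) rfl rfl
    (List.mem_of_getElem? (i := 144) rfl) TE_fr TE_cov ?_
  · intro X Y h
    simp only [List.forall_mem_cons, List.not_mem_nil, false_imp_iff, implies_true, and_true] at h
    push_cast at h ⊢
    obtain ⟨h0, h1, h2⟩ := h
    refine ⟨⟨?_, ?_⟩, ?_, ?_⟩ <;> linarith

theorem TE_rg145 : ROK [.q ⟨-1, 0, 0, 1⟩ ⟨599, -707, 707, -599⟩, .q ⟨-1, 0, 0, 1⟩ ⟨2339, -2352, -3235, 3248⟩, .q ⟨-1, 0, 0, 1⟩ ⟨-3627, 3602, -1739, 1764⟩, .q ⟨-1, 0, 0, 1⟩ ⟨-715, 376, 3982, -3643⟩] := by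
  refine rok_e (k := 1) (by decide) (Q := [(-707, 707, -599), (-2352, -3235, 3248), (3602, -1739, 1764), (376, 3982, -3643)])
    (P := [⟨-18401280, -707, 707⟩, ⟨99778560, -2352, -3235⟩, ⟨54190080, 3602, -1739⟩, ⟨-111912960, 376, 3982⟩]) rfl rfl
    (List.mem_of_getElem? (i := 145) rfl) TE_fr TE_cov ?_
  · intro X Y h
    simp only [List.forall_mem_cons, List.not_mem_nil, false_imp_iff, implies_true, and_true] at h
    push_cast at h ⊢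
    obtain ⟨h0, h1, h2, h3⟩ := h
    refine ⟨⟨?_, ?_⟩, ?_, ?_⟩ <;> linarith

theorem TE_rg146 : ROK [.q ⟨-1, 0, 0, 1⟩ ⟨-2237, 2528, -3100, 2809⟩, .q ⟨-1, 0, 0, 1⟩ ⟨1116, -1491, 3712, -3337⟩, .q ⟨-1, 0, 0, 1⟩ ⟨91, -100, 0, 9⟩] := by
  refine rok_e (k := 1) (by decide) (Q := [(2528, -3100, 2809), (-1491, 3712, -3337), (-100, 0, 9)])
    (P := [⟨86292480, 2528, -3100⟩, ⟨-102512640, -1491, 3712⟩, ⟨276480, -100, 0⟩]) rfl rfl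
    (List.mem_of_getElem? (i := 146) rfl) TE_fr TE_cov ?_
  · intro X Y h
    simp only [List.forall_mem_cons, List.not_mem_nil, false_imp_iff, implies_true, and_true] at h
    push_cast at h ⊢
    obtain ⟨h0, h1, h2⟩ := h
    refine ⟨⟨?_, ?_⟩, ?_, ?_⟩ <;> linarith

theorem TE_rg147 : ROK [.q ⟨-1, 0, 0, 1⟩ ⟨688, -514, -3967, 3793⟩, .q ⟨-1, 0, 0, 1⟩ ⟨-2138, 1910, 3515, -3287⟩, .q ⟨-1, 0, 0, 1⟩ ⟨2005, -2429, 3178, -2754⟩, .q ⟨-1, 0, 0, 1⟩ ⟨3580, -3861, -1045, 1326⟩] := by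
  refine rok_e (k := 1) (by decide) (Q := [(-514, -3967, 3793), (1910, 3515, -3287), (-2429, 3178, -2754), (-3861, -1045, 1326)])
    (P := [⟨116520960, -514, -3967⟩, ⟨-100976640, 1910, 3515⟩, ⟨-84602880, -2429, 3178⟩, ⟨40734720, -3861, -1045⟩]) rfl rfl
    (List.mem_of_getElem? (i := 147) rfl) TE_fr TE_cov ?_
  · intro X Y h
    simp only [List.forall_mem_cons, List.not_mem_nil, false_imp_iff, implies_true, and_true] at h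
    push_cast at h ⊢
    obtain ⟨h0, h1, h2, h3⟩ := h
    refine ⟨⟨?_, ?_⟩, ?_, ?_⟩ <;> linarith

theorem TE_rg148 : ROK [.q ⟨-1, 0, 0, 1⟩ ⟨-2573, 2728, -2925, 2770⟩, .q ⟨-1, 0, 0, 1⟩ ⟨-298, -70, 3999, -3631⟩, .q ⟨-1, 0, 0, 1⟩ ⟨3751, -4000, 0, 249⟩] := by
  refine rok_e (k := 1) (by decide) (Q := [(2728, -2925, 2770), (-70, 3999, -3631), (-4000, 0, 249)])
    (P := [⟨85094400, 2728, -2925⟩, ⟨-111544320, -70, 3999⟩, ⟨7649280, -4000, 0⟩]) rfl rfl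
    (List.mem_of_getElem? (i := 148) rfl) TE_fr TE_cov ?_
  · intro X Y h
    simp only [List.forall_mem_cons, List.not_mem_nil, false_imp_iff, implies_true, and_true] at h
    push_cast at h ⊢
    obtain ⟨h0, h1, h2⟩ := h
    refine ⟨⟨?_, ?_⟩, ?_, ?_⟩ <;> linarith

theorem TE_rg149 : ROK [.q ⟨-1, 0, 0, 1⟩ ⟨3572, -3843, -1109, 1380⟩, .q ⟨-1, 0, 0, 1⟩ ⟨-3638, 3778, -1313, 1173⟩, .q ⟨-1, 0, 0, 1⟩ ⟨1170, -1555, 3686, -3301⟩] := by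
  refine rok_e (k := 1) (by decide) (Q := [(-3843, -1109, 1380), (3778, -1313, 1173), (-1555, 3686, -3301)])
    (P := [⟨42393600, -3843, -1109⟩, ⟨36034560, 3778, -1313⟩, ⟨-101406720, -1555, 3686⟩]) rfl rfl
    (List.mem_of_getElem? (i := 149) rfl) TE_fr TE_cov ?_
  · intro X Y h
    simp only [List.forall_mem_cons, List.not_mem_nil, false_imp_iff, implies_true, and_true] at h
    push_cast at h ⊢
    obtain ⟨h0, h1, h2⟩ := h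
    refine ⟨⟨?_, ?_⟩, ?_, ?_⟩ <;> linarith

theorem TE_rg150 : ROK [.q ⟨-1, 0, 0, 1⟩ ⟨624, -734, 679, -569⟩, .q ⟨-1, 0, 0, 1⟩ ⟨91, -100, 0, 9⟩, .q ⟨-1, 0, 0, 1⟩ ⟨-193, 202, -202, 193⟩, .q ⟨-1, 0, 0, 1⟩ ⟨-3246, 3263, 2314, -2331⟩] := by
  refine rok_e (k := 1) (by decide) (Q := [(-734, 679, -569), (-100, 0, 9), (202, -202, 193), (3263, 2314, -2331)])
    (P := [⟨-17479680, -734, 679⟩, ⟨276480, -100, 0⟩, ⟨5928960, 202, -202⟩, ⟨-71608320, 3263, 2314⟩]) rfl rfl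
    (List.mem_of_getElem? (i := 150) rfl) TE_fr TE_cov ?_
  · intro X Y h
    simp only [List.forall_mem_cons, List.not_mem_nil, false_imp_iff, implies_true, and_true] at h
    push_cast at h ⊢
    obtain ⟨h0, h1, h2, h3⟩ := h
    refine ⟨⟨?_, ?_⟩, ?_, ?_⟩ <;> linarith

theorem TE_rg151 : ROK [.q ⟨-1, 0, 0, 1⟩ ⟨-15761, 3999, 66, 11696⟩, .q ⟨-1, 0, 0, 1⟩ ⟨-724, 386, 3981, -3643⟩, .q ⟨-1, 0, 0, 1⟩ ⟨1711, -2150, 3373, -2934⟩, .q ⟨-1, 0, 0, 1⟩ ⟨157, 5, -2000, 1838⟩] := by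
  refine rok_e (k := 1) (by decide) (Q := [(3999, 66, 11696), (386, 3981, -3643), (-2150, 3373, -2934), (5, -2000, 1838)])
    (P := [⟨359301120, 3999, 66⟩, ⟨-111912960, 386, 3981⟩, ⟨-90132480, -2150, 3373⟩, ⟨56463360, 5, -2000⟩]) rfl rfl
    (List.mem_of_getElem? (i := 151) rfl) TE_fr TE_cov ?_
  · intro X Y h
    simp only [List.forall_mem_cons, List.not_mem_nil, false_imp_iff, implies_true, and_true] at h
    push_cast at h ⊢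
    obtain ⟨h0, h1, h2, h3⟩ := h
    refine ⟨⟨?_, ?_⟩, ?_, ?_⟩ <;> linarith

theorem TE_rg152 : ROK [.q ⟨-1, 0, 0, 1⟩ ⟨-136, 483, -3971, 3624⟩, .q ⟨-1, 0, 0, 1⟩ ⟨-3349, 3839, -1125, 635⟩, .q ⟨-1, 0, 0, 1⟩ ⟨-13208, 1027, 3866, 8315⟩, .q ⟨-1, 0, 0, 1⟩ ⟨3163, -3700, 1520, -983⟩, .q ⟨-1, 0, 0, 1⟩ ⟨1783, -2000, 0, 217⟩] := by
  refine rok_e (k := 1) (by decide) (Q := [(483, -3971, 3624), (3839, -1125, 635), (1027, 3866, 8315), (-3700, 1520, -983), (-2000, 0, 217)])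
    (P := [⟨111329280, 483, -3971⟩, ⟨19507200, 3839, -1125⟩, ⟨255436800, 1027, 3866⟩, ⟨-30197760, -3700, 1520⟩, ⟨6666240, -2000, 0⟩]) rfl rfl
    (List.mem_of_getElem? (i := 152) rfl) TE_fr TE_cov ?_
  · intro X Y h
    simp only [List.forall_mem_cons, List.not_mem_nil, false_imp_iff, implies_true, and_true] at h
    push_cast at h ⊢
    obtain ⟨h0, h1, h2, h3, h4⟩ := h
    refine ⟨⟨?_, ?_⟩, ?_, ?_⟩ <;> linarith

theorem TE_rg153 : ROK [.q ⟨-1, 0, 0, 1⟩ ⟨1741, -1901, -621, 781⟩, .q ⟨-1, 0, 0, 1⟩ ⟨-1207, 1654, -3642, 3195⟩, .q ⟨-1, 0, 0, 1⟩ ⟨-2644, 2707, 2945, -3008⟩] := by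
  refine rok_e (k := 1) (by decide) (Q := [(-1901, -621, 781), (1654, -3642, 3195), (2707, 2945, -3008)])
    (P := [⟨23992320, -1901, -621⟩, ⟨98150400, 1654, -3642⟩, ⟨-92405760, 2707, 2945⟩]) rfl rfl
    (List.mem_of_getElem? (i := 153) rfl) TE_fr TE_cov ?_
  · intro X Y h
    simp only [List.forall_mem_cons, List.not_mem_nil, false_imp_iff, implies_true, and_true] at h
    push_cast at h ⊢
    obtain ⟨h0, h1, h2⟩ := h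
    refine ⟨⟨?_, ?_⟩, ?_, ?_⟩ <;> linarith

theorem TE_rg154 : ROK [.q ⟨-1, 0, 0, 1⟩ ⟨1652, -1475, -3718, 3541⟩, .q ⟨-1, 0, 0, 1⟩ ⟨-2913, 2828, 2828, -2743⟩, .q ⟨-1, 0, 0, 1⟩ ⟨1082, -1511, 3704, -3275⟩] := by
  refine rok_e (k := 1) (by decide) (Q := [(-1475, -3718, 3541), (2828, 2828, -2743), (-1511, 3704, -3275)])
    (P := [⟨108779520, -1475, -3718⟩, ⟨-84264960, 2828, 2828⟩, ⟨-100608000, -1511, 3704⟩]) rfl rfl
    (List.mem_of_getElem? (i := 154) rfl) TE_fr TE_cov ?_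
  · intro X Y h
    simp only [List.forall_mem_cons, List.not_mem_nil, false_imp_iff, implies_true, and_true] at h
    push_cast at h ⊢
    obtain ⟨h0, h1, h2⟩ := h
    refine ⟨⟨?_, ?_⟩, ?_, ?_⟩ <;> linarith

theorem TE_rg155 : ROK [.q ⟨-1, 0, 0, 1⟩ ⟨896, -1634, 3651, -2913⟩, .q ⟨-1, 0, 0, 1⟩ ⟨1660, -1531, -3695, 3566⟩, .q ⟨-1, 0, 0, 1⟩ ⟨-2701, 3206, -2393, 1888⟩, .q ⟨-1, 0, 0, 1⟩ ⟨-1854, 1984, 251, -381⟩] := by
  refine rok_e (k := 1) (by decide) (Q := [(-1634, 3651, -2913), (-1531, -3695, 3566), (3206, -2393, 1888), (1984, 251, -381)])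
    (P := [⟨-89487360, -1634, 3651⟩, ⟨109547520, -1531, -3695⟩, ⟨57999360, 3206, -2393⟩, ⟨-11704320, 1984, 251⟩]) rfl rfl
    (List.mem_of_getElem? (i := 155) rfl) TE_fr TE_cov ?_
  · intro X Y h
    simp only [List.forall_mem_cons, List.not_mem_nil, false_imp_iff, implies_true, and_true] at h
    push_cast at h ⊢
    obtain ⟨h0, h1, h2, h3⟩ := h
    refine ⟨⟨?_, ?_⟩, ?_, ?_⟩ <;> linarith

theorem TE_rg156 : ROK [.q ⟨-1, 0, 0, 1⟩ ⟨3643, -3968, -506, 831⟩, .q ⟨-1, 0, 0, 1⟩ ⟨-1, 0, -1000, 1001⟩, .q ⟨-1, 0, 0, 1⟩ ⟨-1049, 984, 1741, -1676⟩, .q ⟨-1, 0, 0, 1⟩ ⟨2391, -2828, 2828, -2391⟩] := by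
  refine rok_e (k := 1) (by decide) (Q := [(-3968, -506, 831), (0, -1000, 1001), (984, 1741, -1676), (-2828, 2828, -2391)])
    (P := [⟨25528320, -3968, -506⟩, ⟨30750720, 0, -1000⟩, ⟨-51486720, 984, 1741⟩, ⟨-73451520, -2828, 2828⟩]) rfl rfl
    (List.mem_of_getElem? (i := 156) rfl) TE_fr TE_cov ?_
  · intro X Y h
    simp only [List.forall_mem_cons, List.not_mem_nil, false_imp_iff, implies_true, and_true] at h
    push_cast at h ⊢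
    obtain ⟨h0, h1, h2, h3⟩ := h
    refine ⟨⟨?_, ?_⟩, ?_, ?_⟩ <;> linarith

theorem TE_rg157 : ROK [.q ⟨-1, 0, 0, 1⟩ ⟨1123, -1553, 3686, -3256⟩, .q ⟨-1, 0, 0, 1⟩ ⟨2456, -2403, -3198, 3145⟩, .q ⟨-1, 0, 0, 1⟩ ⟨-3579, 3653, 1630, -1704⟩] := by
  refine rok_e (k := 1) (by decide) (Q := [(-1553, 3686, -3256), (-2403, -3198, 3145), (3653, 1630, -1704)])
    (P := [⟨-100024320, -1553, 3686⟩, ⟨96614400, -2403, -3198⟩, ⟨-52346880, 3653, 1630⟩]) rfl rfl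
    (List.mem_of_getElem? (i := 157) rfl) TE_fr TE_cov ?_
  · intro X Y h
    simp only [List.forall_mem_cons, List.not_mem_nil, false_imp_iff, implies_true, and_true] at h
    push_cast at h ⊢
    obtain ⟨h0, h1, h2⟩ := h
    refine ⟨⟨?_, ?_⟩, ?_, ?_⟩ <;> linarith

theorem TE_rg158 : ROK [.q ⟨-1, 0, 0, 1⟩ ⟨319, -1587, 3672, -2404⟩, .q ⟨-1, 0, 0, 1⟩ ⟨1878, -1625, -3655, 3402⟩, .q ⟨-1, 0, 0, 1⟩ ⟨-3369, 3788, -1285, 866⟩, .q ⟨-1, 0, 0, 1⟩ ⟨-104, 101, 101, -98⟩] := by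
  refine rok_e (k := 1) (by decide) (Q := [(-1587, 3672, -2404), (-1625, -3655, 3402), (3788, -1285, 866), (101, 101, -98)])
    (P := [⟨-73850880, -1587, 3672⟩, ⟨104509440, -1625, -3655⟩, ⟨26603520, 3788, -1285⟩, ⟨-3010560, 101, 101⟩]) rfl rfl
    (List.mem_of_getElem? (i := 158) rfl) TE_fr TE_cov ?_
  · intro X Y h
    simp only [List.forall_mem_cons, List.not_mem_nil, false_imp_iff, implies_true, and_true] at h
    push_cast at h ⊢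
    obtain ⟨h0, h1, h2, h3⟩ := h
    refine ⟨⟨?_, ?_⟩, ?_, ?_⟩ <;> linarith

theorem TE_rg159 : ROK [.q ⟨-1, 0, 0, 1⟩ ⟨1107, -1325, 1498, -1280⟩, .q ⟨-1, 0, 0, 1⟩ ⟨3033, -3153, -2461, 2581⟩, .q ⟨-1, 0, 0, 1⟩ ⟨-2561, 2707, -2945, 2799⟩, .q ⟨-1, 0, 0, 1⟩ ⟨-378, 15, 4000, -3637⟩] := by
  refine rok_e (k := 1) (by decide) (Q := [(-1325, 1498, -1280), (-3153, -2461, 2581), (2707, -2945, 2799), (15, 4000, -3637)])
    (P := [⟨-39321600, -1325, 1498⟩, ⟨79288320, -3153, -2461⟩, ⟨85985280, 2707, -2945⟩, ⟨-111728640, 15, 4000⟩]) rfl rfl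
    (List.mem_of_getElem? (i := 159) rfl) TE_fr TE_cov ?_
  · intro X Y h
    simp only [List.forall_mem_cons, List.not_mem_nil, false_imp_iff, implies_true, and_true] at h
    push_cast at h ⊢
    obtain ⟨h0, h1, h2, h3⟩ := h
    refine ⟨⟨?_, ?_⟩, ?_, ?_⟩ <;> linarith

theorem TE_rg160 : ROK [.q ⟨-1, 0, 0, 1⟩ ⟨-2429, 2330, 3251, -3152⟩, .q ⟨-1, 0, 0, 1⟩ ⟨3025, -3465, 1998, -1558⟩, .q ⟨-1, 0, 0, 1⟩ ⟨3640, -3961, -560, 881⟩, .q ⟨-1, 0, 0, 1⟩ ⟨1431, -1386, -3752, 3707⟩] := by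
  refine rok_e (k := 1) (by decide) (Q := [(2330, 3251, -3152), (-3465, 1998, -1558), (-3961, -560, 881), (-1386, -3752, 3707)])
    (P := [⟨-96829440, 2330, 3251⟩, ⟨-47861760, -3465, 1998⟩, ⟨27064320, -3961, -560⟩, ⟨113879040, -1386, -3752⟩]) rfl rfl
    (List.mem_of_getElem? (i := 160) rfl) TE_fr TE_cov ?_
  · intro X Y h
    simp only [List.forall_mem_cons, List.not_mem_nil, false_imp_iff, implies_true, and_true] at h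
    push_cast at h ⊢
    obtain ⟨h0, h1, h2, h3⟩ := h
    refine ⟨⟨?_, ?_⟩, ?_, ?_⟩ <;> linarith

theorem TE_rg161 : ROK [.q ⟨-1, 0, 0, 1⟩ ⟨-2244, 2751, -2903, 2396⟩, .q ⟨-1, 0, 0, 1⟩ ⟨-1821, 1900, 624, -703⟩, .q ⟨-1, 0, 0, 1⟩ ⟨3589, -4000, -47, 458⟩] := by
  refine rok_e (k := 1) (by decide) (Q := [(2751, -2903, 2396), (1900, 624, -703), (-4000, -47, 458)])
    (P := [⟨73605120, 2751, -2903⟩, ⟨-21596160, 1900, 624⟩, ⟨14069760, -4000, -47⟩]) rfl rfl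
    (List.mem_of_getElem? (i := 161) rfl) TE_fr TE_cov ?_
  · intro X Y h
    simp only [List.forall_mem_cons, List.not_mem_nil, false_imp_iff, implies_true, and_true] at h
    push_cast at h ⊢
    obtain ⟨h0, h1, h2⟩ := h
    refine ⟨⟨?_, ?_⟩, ?_, ?_⟩ <;> linarith

theorem TE_rg162 : ROK [.q ⟨-1, 0, 0, 1⟩ ⟨-4205, 3979, 405, -179⟩, .q ⟨-1, 0, 0, 1⟩ ⟨-2561, 2223, 3325, -2987⟩, .q ⟨-1, 0, 0, 1⟩ ⟨3019, -2723, -2930, 2634⟩, .q ⟨-1, 0, 0, 1⟩ ⟨-2783, 2828, -2828, 2783⟩] := by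
  refine rok_e (k := 1) (by decide) (Q := [(3979, 405, -179), (2223, 3325, -2987), (-2723, -2930, 2634), (2828, -2828, 2783)])
    (P := [⟨-5498880, 3979, 405⟩, ⟨-91760640, 2223, 3325⟩, ⟨80916480, -2723, -2930⟩, ⟨85493760, 2828, -2828⟩]) rfl rfl
    (List.mem_of_getElem? (i := 162) rfl) TE_fr TE_cov ?_
  · intro X Y h
    simp only [List.forall_mem_cons, List.not_mem_nil, false_imp_iff, implies_true, and_true] at h
    push_cast at h ⊢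
    obtain ⟨h0, h1, h2, h3⟩ := h
    refine ⟨⟨?_, ?_⟩, ?_, ?_⟩ <;> linarith

theorem TE_rg163 : ROK [.q ⟨-1, 0, 0, 1⟩ ⟨2239, -2668, 2980, -2551⟩, .q ⟨-1, 0, 0, 1⟩ ⟨3579, -3863, -1037, 1321⟩, .q ⟨-1, 0, 0, 1⟩ ⟨-3244, 3614, -1715, 1345⟩] := by
  refine rok_e (k := 1) (by decide) (Q := [(-2668, 2980, -2551), (-3863, -1037, 1321), (3614, -1715, 1345)])
    (P := [⟨-78366720, -2668, 2980⟩, ⟨40581120, -3863, -1037⟩, ⟨41318400, 3614, -1715⟩]) rfl rfl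
    (List.mem_of_getElem? (i := 163) rfl) TE_fr TE_cov ?_
  · intro X Y h
    simp only [List.forall_mem_cons, List.not_mem_nil, false_imp_iff, implies_true, and_true] at h
    push_cast at h ⊢
    obtain ⟨h0, h1, h2⟩ := h
    refine ⟨⟨?_, ?_⟩, ?_, ?_⟩ <;> linarith

theorem TE_rg164 : ROK [.q ⟨-1, 0, 0, 1⟩ ⟨3083, -3154, -2460, 2531⟩, .q ⟨-1, 0, 0, 1⟩ ⟨-3727, 3992, -247, -18⟩, .q ⟨-1, 0, 0, 1⟩ ⟨560, -775, 1844, -1629⟩] := by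
  refine rok_e (k := 1) (by decide) (Q := [(-3154, -2460, 2531), (3992, -247, -18), (-775, 1844, -1629)])
    (P := [⟨77752320, -3154, -2460⟩, ⟨-552960, 3992, -247⟩, ⟨-50042880, -775, 1844⟩]) rfl rfl
    (List.mem_of_getElem? (i := 164) rfl) TE_fr TE_cov ?_
  · intro X Y h
    simp only [List.forall_mem_cons, List.not_mem_nil, false_imp_iff, implies_true, and_true] at h
    push_cast at h ⊢
    obtain ⟨h0, h1, h2⟩ := h
    refine ⟨⟨?_, ?_⟩, ?_, ?_⟩ <;> linarith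

theorem TE_rg165 : ROK [.q ⟨-1, 0, 0, 1⟩ ⟨-3448, 3920, -797, 325⟩, .q ⟨-1, 0, 0, 1⟩ ⟨2843, -3467, 1995, -1371⟩, .q ⟨-1, 0, 0, 1⟩ ⟨2916, -3055, -2582, 2721⟩, .q ⟨-1, 0, 0, 1⟩ ⟨-847, 1264, -3795, 3378⟩] := by
  refine rok_e (k := 1) (by decide) (Q := [(3920, -797, 325), (-3467, 1995, -1371), (-3055, -2582, 2721), (1264, -3795, 3378)])
    (P := [⟨9984000, 3920, -797⟩, ⟨-42117120, -3467, 1995⟩, ⟨83589120, -3055, -2582⟩, ⟨103772160, 1264, -3795⟩]) rfl rfl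
    (List.mem_of_getElem? (i := 165) rfl) TE_fr TE_cov ?_
  · intro X Y h
    simp only [List.forall_mem_cons, List.not_mem_nil, false_imp_iff, implies_true, and_true] at h
    push_cast at h ⊢
    obtain ⟨h0, h1, h2, h3⟩ := h
    refine ⟨⟨?_, ?_⟩, ?_, ?_⟩ <;> linarith

theorem TE_rg166 : ROK [.q ⟨-1, 0, 0, 1⟩ ⟨-1151, 1050, 1702, -1601⟩, .q ⟨-1, 0, 0, 1⟩ ⟨330, -731, 3933, -3532⟩, .q ⟨-1, 0, 0, 1⟩ ⟨1873, -2000, 0, 127⟩, .q ⟨-1, 0, 0, 1⟩ ⟨3196, -3181, -2425, 2410⟩, .q ⟨-1, 0, 0, 1⟩ ⟨-4018, 3839, -1125, 1304⟩] := by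
  refine rok_e (k := 1) (by decide) (Q := [(1050, 1702, -1601), (-731, 3933, -3532), (-2000, 0, 127), (-3181, -2425, 2410), (3839, -1125, 1304)])
    (P := [⟨-49182720, 1050, 1702⟩, ⟨-108503040, -731, 3933⟩, ⟨3901440, -2000, 0⟩, ⟨74035200, -3181, -2425⟩, ⟨40058880, 3839, -1125⟩]) rfl rfl
    (List.mem_of_getElem? (i := 166) rfl) TE_fr TE_cov ?_
  · intro X Y h
    simp only [List.forall_mem_cons, List.not_mem_nil, false_imp_iff, implies_true, and_true] at h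
    push_cast at h ⊢
    obtain ⟨h0, h1, h2, h3, h4⟩ := h
    refine ⟨⟨?_, ?_⟩, ?_, ?_⟩ <;> linarith

theorem TE_rg167 : ROK [.q ⟨-1, 0, 0, 1⟩ ⟨-1443, 1414, -1414, 1443⟩, .q ⟨-1, 0, 0, 1⟩ ⟨-2627, 2566, 3069, -3008⟩, .q ⟨-1, 0, 0, 1⟩ ⟨3078, -3517, 1906, -1467⟩, .q ⟨-1, 0, 0, 1⟩ ⟨1691, -1797, -878, 984⟩] := by
  refine rok_e (k := 1) (by decide) (Q := [(1414, -1414, 1443), (2566, 3069, -3008), (-3517, 1906, -1467), (-1797, -878, 984)])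
    (P := [⟨44328960, 1414, -1414⟩, ⟨-92405760, 2566, 3069⟩, ⟨-45066240, -3517, 1906⟩, ⟨30228480, -1797, -878⟩]) rfl rfl
    (List.mem_of_getElem? (i := 167) rfl) TE_fr TE_cov ?_
  · intro X Y h
    simp only [List.forall_mem_cons, List.not_mem_nil, false_imp_iff, implies_true, and_true] at h
    push_cast at h ⊢
    obtain ⟨h0, h1, h2, h3⟩ := h
    refine ⟨⟨?_, ?_⟩, ?_, ?_⟩ <;> linarith

end Pool.Agent.TET
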