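import Pool.Agent.Helper38_TET.TE_C

/-!
# MP_c7c9bf_co: certificates, family TE
-/

set_option autoImplicit false
set_option maxRecDepth 100000

namespace Pool.Agent.TET

theorem TE_rg168 : ROK [.q ⟨-1, 0, 0, 1⟩ ⟨-481, 864, -3906, 3523⟩, .q ⟨-1, 0, 0, 1⟩ ⟨-3519, 3972, -476, 23⟩, .q ⟨-1, 0, 0, 1⟩ ⟨-11563, -820, 3915, 8468⟩, .q ⟨-1, 0, 0, 1⟩ ⟨3493, -3963, 542, -72⟩] := by
  refine rok_e (k := 1) (by decide) (Q := [(864, -3906, 3523), (3972, -476, 23), (-820, 3915, 8468), (-3963, 542, -72)])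
    (P := [⟨108226560, 864, -3906⟩, ⟨706560, 3972, -476⟩, ⟨260136960, -820, 3915⟩, ⟨-2211840, -3963, 542⟩]) rfl rfl
    (List.mem_of_getElem? (i := 168) rfl) TE_fr TE_cov ?_
  · intro X Y h
    simp only [List.forall_mem_cons, List.not_mem_nil, false_imp_iff, implies_true, and_true] at h
    push_cast at h ⊢
    obtain ⟨h0, h1, h2, h3⟩ := h
    refine ⟨⟨?_, ?_⟩, ?_, ?_⟩ <;> linarith

theorem TE_rg169 : ROK [.q ⟨-1, 0, 0, 1⟩ ⟨-2847, 2828, 2828, -2809⟩, .q ⟨-1, 0, 0, 1⟩ ⟨3089, -3528, 1885, -1446⟩, .q ⟨-1, 0, 0, 1⟩ ⟨3554, -3823, -1177, 1446⟩, .q ⟨-1, 0, 0, 1⟩ ⟨-2201, 2137, -3381, 3445⟩] := by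
  refine rok_e (k := 1) (by decide) (Q := [(2828, 2828, -2809), (-3528, 1885, -1446), (-3823, -1177, 1446), (2137, -3381, 3445)])
    (P := [⟨-86292480, 2828, 2828⟩, ⟨-44421120, -3528, 1885⟩, ⟨44421120, -3823, -1177⟩, ⟨105830400, 2137, -3381⟩]) rfl rfl
    (List.mem_of_getElem? (i := 169) rfl) TE_fr TE_cov ?_
  · intro X Y h
    simp only [List.forall_mem_cons, List.not_mem_nil, false_imp_iff, implies_true, and_true] at h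
    push_cast at h ⊢
    obtain ⟨h0, h1, h2, h3⟩ := h
    refine ⟨⟨?_, ?_⟩, ?_, ?_⟩ <;> linarith

theorem TE_rg170 : ROK [.q ⟨-1, 0, 0, 1⟩ ⟨2294, -3572, 1801, -523⟩, .q ⟨-1, 0, 0, 1⟩ ⟨2666, -2748, -2907, 2989⟩, .q ⟨-1, 0, 0, 1⟩ ⟨-306, 447, -1256, 1115⟩, .q ⟨-1, 0, 0, 1⟩ ⟨-3502, 3812, 1211, -1521⟩] := by
  refine rok_e (k := 1) (by decide) (Q := [(-3572, 1801, -523), (-2748, -2907, 2989), (447, -1256, 1115), (3812, 1211, -1521)])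
    (P := [⟨-16066560, -3572, 1801⟩, ⟨91822080, -2748, -2907⟩, ⟨34252800, 447, -1256⟩, ⟨-46725120, 3812, 1211⟩]) rfl rfl
    (List.mem_of_getElem? (i := 170) rfl) TE_fr TE_cov ?_
  · intro X Y h
    simp only [List.forall_mem_cons, List.not_mem_nil, false_imp_iff, implies_true, and_true] at h
    push_cast at h ⊢
    obtain ⟨h0, h1, h2, h3⟩ := h
    refine ⟨⟨?_, ?_⟩, ?_, ?_⟩ <;> linarith

theorem TE_rg171 : ROK [.q ⟨-1, 0, 0, 1⟩ ⟨-3744, 3987, 316, -559⟩, .q ⟨-1, 0, 0, 1⟩ ⟨2709, -3143, 2474, -2040⟩, .q ⟨-1, 0, 0, 1⟩ ⟨1817, -2000, 0, 183⟩, .q ⟨-1, 0, 0, 1⟩ ⟨-2057, 2094, -3408, 3371⟩] := by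
  refine rok_e (k := 1) (by decide) (Q := [(3987, 316, -559), (-3143, 2474, -2040), (-2000, 0, 183), (2094, -3408, 3371)])
    (P := [⟨-17172480, 3987, 316⟩, ⟨-62668800, -3143, 2474⟩, ⟨5621760, -2000, 0⟩, ⟨103557120, 2094, -3408⟩]) rfl rfl
    (List.mem_of_getElem? (i := 171) rfl) TE_fr TE_cov ?_
  · intro X Y h
    simp only [List.forall_mem_cons, List.not_mem_nil, false_imp_iff, implies_true, and_true] at h
    push_cast at h ⊢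
    obtain ⟨h0, h1, h2, h3⟩ := h
    refine ⟨⟨?_, ?_⟩, ?_, ?_⟩ <;> linarith

theorem TE_rg172 : ROK [.q ⟨-1, 0, 0, 1⟩ ⟨860, -484, -3971, 3595⟩, .q ⟨-1, 0, 0, 1⟩ ⟨-3712, 3997, 154, -439⟩, .q ⟨-1, 0, 0, 1⟩ ⟨1574, -2221, 3327, -2680⟩] := by
  refine rok_e (k := 1) (by decide) (Q := [(-484, -3971, 3595), (3997, 154, -439), (-2221, 3327, -2680)])
    (P := [⟨110438400, -484, -3971⟩, ⟨-13486080, 3997, 154⟩, ⟨-82329600, -2221, 3327⟩]) rfl rfl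
    (List.mem_of_getElem? (i := 172) rfl) TE_fr TE_cov ?_
  · intro X Y h
    simp only [List.forall_mem_cons, List.not_mem_nil, false_imp_iff, implies_true, and_true] at h
    push_cast at h ⊢
    obtain ⟨h0, h1, h2⟩ := h
    refine ⟨⟨?_, ?_⟩, ?_, ?_⟩ <;> linarith

theorem TE_rg173 : ROK [.q ⟨-1, 0, 0, 1⟩ ⟨1180, -2587, 3051, -1644⟩, .q ⟨-1, 0, 0, 1⟩ ⟨411, 0, -4000, 3589⟩, .q ⟨-1, 0, 0, 1⟩ ⟨-3428, 3835, -1136, 729⟩, .q ⟨-1, 0, 0, 1⟩ ⟨-104, 101, 101, -98⟩] := by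
  refine rok_e (k := 1) (by decide) (Q := [(-2587, 3051, -1644), (0, -4000, 3589), (3835, -1136, 729), (101, 101, -98)])
    (P := [⟨-50503680, -2587, 3051⟩, ⟨110254080, 0, -4000⟩, ⟨22394880, 3835, -1136⟩, ⟨-3010560, 101, 101⟩]) rfl rfl
    (List.mem_of_getElem? (i := 173) rfl) TE_fr TE_cov ?_
  · intro X Y h
    simp only [List.forall_mem_cons, List.not_mem_nil, false_imp_iff, implies_true, and_true] at h
    push_cast at h ⊢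
    obtain ⟨h0, h1, h2, h3⟩ := h
    refine ⟨⟨?_, ?_⟩, ?_, ?_⟩ <;> linarith

theorem TE_rg174 : ROK [.q ⟨-1, 0, 0, 1⟩ ⟨91, -100, 0, 9⟩, .q ⟨-1, 0, 0, 1⟩ ⟨1083, -991, -3875, 3783⟩, .q ⟨-1, 0, 0, 1⟩ ⟨-576, 533, 1222, -1179⟩, .q ⟨-1, 0, 0, 1⟩ ⟨340, -411, 525, -454⟩] := by
  refine rok_e (k := 1) (by decide) (Q := [(-100, 0, 9), (-991, -3875, 3783), (533, 1222, -1179), (-411, 525, -454)])
    (P := [⟨276480, -100, 0⟩, ⟨116213760, -991, -3875⟩, ⟨-36218880, 533, 1222⟩, ⟨-13946880, -411, 525⟩]) rfl rfl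
    (List.mem_of_getElem? (i := 174) rfl) TE_fr TE_cov ?_
  · intro X Y h
    simp only [List.forall_mem_cons, List.not_mem_nil, false_imp_iff, implies_true, and_true] at h
    push_cast at h ⊢
    obtain ⟨h0, h1, h2, h3⟩ := h
    refine ⟨⟨?_, ?_⟩, ?_, ?_⟩ <;> linarith

theorem TE_rg175 : ROK [.q ⟨-1, 0, 0, 1⟩ ⟨-3690, 3996, 181, -487⟩, .q ⟨-1, 0, 0, 1⟩ ⟨3145, -3582, 1779, -1342⟩, .q ⟨-1, 0, 0, 1⟩ ⟨2659, -2717, -2935, 2993⟩] := by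
  refine rok_e (k := 1) (by decide) (Q := [(3996, 181, -487), (-3582, 1779, -1342), (-2717, -2935, 2993)])
    (P := [⟨-14960640, 3996, 181⟩, ⟨-41226240, -3582, 1779⟩, ⟨91944960, -2717, -2935⟩]) rfl rfl
    (List.mem_of_getElem? (i := 175) rfl) TE_fr TE_cov ?_
  · intro X Y h
    simp only [List.forall_mem_cons, List.not_mem_nil, false_imp_iff, implies_true, and_true] at h
    push_cast at h ⊢
    obtain ⟨h0, h1, h2⟩ := h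
    refine ⟨⟨?_, ?_⟩, ?_, ?_⟩ <;> linarith

theorem TE_rg176 : ROK [.q ⟨-1, 0, 0, 1⟩ ⟨-12751, 1831, 3556, 7364⟩, .q ⟨-1, 0, 0, 1⟩ ⟨1935, -2447, 3164, -2652⟩, .q ⟨-1, 0, 0, 1⟩ ⟨2733, -2828, -2828, 2923⟩, .q ⟨-1, 0, 0, 1⟩ ⟨-1657, 2136, -3382, 2903⟩, .q ⟨-1, 0, 0, 1⟩ ⟨-2259, 2768, -2887, 2378⟩] := by
  refine rok_e (k := 1) (by decide) (Q := [(1831, 3556, 7364), (-2447, 3164, -2652), (-2828, -2828, 2923), (2136, -3382, 2903), (2768, -2887, 2378)])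
    (P := [⟨226222080, 1831, 3556⟩, ⟨-81469440, -2447, 3164⟩, ⟨89794560, -2828, -2828⟩, ⟨89180160, 2136, -3382⟩, ⟨73052160, 2768, -2887⟩]) rfl rfl
    (List.mem_of_getElem? (i := 176) rfl) TE_fr TE_cov ?_
  · intro X Y h
    simp only [List.forall_mem_cons, List.not_mem_nil, false_imp_iff, implies_true, and_true] at h
    push_cast at h ⊢
    obtain ⟨h0, h1, h2, h3, h4⟩ := h
    refine ⟨⟨?_, ?_⟩, ?_, ?_⟩ <;> linarith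

theorem TE_rg177 : ROK [.q ⟨-1, 0, 0, 1⟩ ⟨2407, -2845, 2812, -2374⟩, .q ⟨-1, 0, 0, 1⟩ ⟨3649, -3993, -243, 587⟩, .q ⟨-1, 0, 0, 1⟩ ⟨-11134, 364, -3983, 14753⟩, .q ⟨-1, 0, 0, 1⟩ ⟨-229, 250, 0, -21⟩] := by
  refine rok_e (k := 1) (by decide) (Q := [(-2845, 2812, -2374), (-3993, -243, 587), (364, -3983, 14753), (250, 0, -21)])
    (P := [⟨-72929280, -2845, 2812⟩, ⟨18032640, -3993, -243⟩, ⟨453212160, 364, -3983⟩, ⟨-645120, 250, 0⟩]) rfl rfl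
    (List.mem_of_getElem? (i := 177) rfl) TE_fr TE_cov ?_
  · intro X Y h
    simp only [List.forall_mem_cons, List.not_mem_nil, false_imp_iff, implies_true, and_true] at h
    push_cast at h ⊢
    obtain ⟨h0, h1, h2, h3⟩ := h
    refine ⟨⟨?_, ?_⟩, ?_, ?_⟩ <;> linarith

theorem TE_rg178 : ROK [.q ⟨-1, 0, 0, 1⟩ ⟨-1459, 1195, 3817, -3553⟩, .q ⟨-1, 0, 0, 1⟩ ⟨2391, -2828, 2828, -2391⟩, .q ⟨-1, 0, 0, 1⟩ ⟨3548, -3815, -1201, 1468⟩, .q ⟨-1, 0, 0, 1⟩ ⟨476, -708, -3937, 4169⟩, .q ⟨-1, 0, 0, 1⟩ ⟨-4033, 3959, -569, 643⟩] := by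
  refine rok_e (k := 1) (by decide) (Q := [(1195, 3817, -3553), (-2828, 2828, -2391), (-3815, -1201, 1468), (-708, -3937, 4169), (3959, -569, 643)])
    (P := [⟨-109148160, 1195, 3817⟩, ⟨-73451520, -2828, 2828⟩, ⟨45096960, -3815, -1201⟩, ⟨128071680, -708, -3937⟩, ⟨19752960, 3959, -569⟩]) rfl rfl
    (List.mem_of_getElem? (i := 178) rfl) TE_fr TE_cov ?_
  · intro X Y h
    simp only [List.forall_mem_cons, List.not_mem_nil, false_imp_iff, implies_true, and_true] at h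
    push_cast at h ⊢
    obtain ⟨h0, h1, h2, h3, h4⟩ := h
    refine ⟨⟨?_, ?_⟩, ?_, ?_⟩ <;> linarith

theorem TE_rg179 : ROK [.q ⟨-1, 0, 0, 1⟩ ⟨2734, -3177, 2430, -1987⟩, .q ⟨-1, 0, 0, 1⟩ ⟨3551, -3819, -1190, 1458⟩, .q ⟨-1, 0, 0, 1⟩ ⟨-1002, 961, -1754, 1795⟩, .q ⟨-1, 0, 0, 1⟩ ⟨-2869, 2828, 2828, -2787⟩] := by
  refine rok_e (k := 1) (by decide) (Q := [(-3177, 2430, -1987), (-3819, -1190, 1458), (961, -1754, 1795), (2828, 2828, -2787)])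
    (P := [⟨-61040640, -3177, 2430⟩, ⟨44789760, -3819, -1190⟩, ⟨55142400, 961, -1754⟩, ⟨-85616640, 2828, 2828⟩]) rfl rfl
    (List.mem_of_getElem? (i := 179) rfl) TE_fr TE_cov ?_
  · intro X Y h
    simp only [List.forall_mem_cons, List.not_mem_nil, false_imp_iff, implies_true, and_true] at h
    push_cast at h ⊢
    obtain ⟨h0, h1, h2, h3⟩ := h
    refine ⟨⟨?_, ?_⟩, ?_, ?_⟩ <;> linarith

theorem TE_rg180 : ROK [.q ⟨-1, 0, 0, 1⟩ ⟨-261, 250, 0, 11⟩, .q ⟨-1, 0, 0, 1⟩ ⟨-299, -69, 3999, -3631⟩, .q ⟨-1, 0, 0, 1⟩ ⟨3658, -3957, 584, -285⟩, .q ⟨-1, 0, 0, 1⟩ ⟨143, -147, -372, 376⟩] := by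
  refine rok_e (k := 1) (by decide) (Q := [(250, 0, 11), (-69, 3999, -3631), (-3957, 584, -285), (-147, -372, 376)])
    (P := [⟨337920, 250, 0⟩, ⟨-111544320, -69, 3999⟩, ⟨-8755200, -3957, 584⟩, ⟨11550720, -147, -372⟩]) rfl rfl
    (List.mem_of_getElem? (i := 180) rfl) TE_fr TE_cov ?_
  · intro X Y h
    simp only [List.forall_mem_cons, List.not_mem_nil, false_imp_iff, implies_true, and_true] at h
    push_cast at h ⊢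
    obtain ⟨h0, h1, h2, h3⟩ := h
    refine ⟨⟨?_, ?_⟩, ?_, ?_⟩ <;> linarith

theorem TE_rg181 : ROK [.q ⟨-1, 0, 0, 1⟩ ⟨-961, 849, 1811, -1699⟩, .q ⟨-1, 0, 0, 1⟩ ⟨2397, -2829, 2827, -2395⟩, .q ⟨-1, 0, 0, 1⟩ ⟨1819, -2000, 0, 181⟩, .q ⟨-1, 0, 0, 1⟩ ⟨-515, 537, -593, 571⟩] := by
  refine rok_e (k := 1) (by decide) (Q := [(849, 1811, -1699), (-2829, 2827, -2395), (-2000, 0, 181), (537, -593, 571)])
    (P := [⟨-52193280, 849, 1811⟩, ⟨-73574400, -2829, 2827⟩, ⟨5560320, -2000, 0⟩, ⟨17541120, 537, -593⟩]) rfl rfl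
    (List.mem_of_getElem? (i := 181) rfl) TE_fr TE_cov ?_
  · intro X Y h
    simp only [List.forall_mem_cons, List.not_mem_nil, false_imp_iff, implies_true, and_true] at h
    push_cast at h ⊢
    obtain ⟨h0, h1, h2, h3⟩ := h
    refine ⟨⟨?_, ?_⟩, ?_, ?_⟩ <;> linarith

theorem TE_rg182 : ROK [.q ⟨-1, 0, 0, 1⟩ ⟨-3150, 3289, 2276, -2415⟩, .q ⟨-1, 0, 0, 1⟩ ⟨3249, -3681, 1565, -1133⟩, .q ⟨-1, 0, 0, 1⟩ ⟨91, -100, 0, 9⟩, .q ⟨-1, 0, 0, 1⟩ ⟨-1333, 1276, -3791, 3848⟩] := by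
  refine rok_e (k := 1) (by decide) (Q := [(3289, 2276, -2415), (-3681, 1565, -1133), (-100, 0, 9), (1276, -3791, 3848)])
    (P := [⟨-74188800, 3289, 2276⟩, ⟨-34805760, -3681, 1565⟩, ⟨276480, -100, 0⟩, ⟨118210560, 1276, -3791⟩]) rfl rfl
    (List.mem_of_getElem? (i := 182) rfl) TE_fr TE_cov ?_
  · intro X Y h
    simp only [List.forall_mem_cons, List.not_mem_nil, false_imp_iff, implies_true, and_true] at h
    push_cast at h ⊢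
    obtain ⟨h0, h1, h2, h3⟩ := h
    refine ⟨⟨?_, ?_⟩, ?_, ?_⟩ <;> linarith

theorem TE_rg183 : ROK [.q ⟨-1, 0, 0, 1⟩ ⟨3647, -3998, -113, 464⟩, .q ⟨-1, 0, 0, 1⟩ ⟨-1790, 1907, -3516, 3399⟩, .q ⟨-1, 0, 0, 1⟩ ⟨-2442, 2135, 3383, -3076⟩, .q ⟨-1, 0, 0, 1⟩ ⟨992, -1365, 3760, -3387⟩] := by
  refine rok_e (k := 1) (by decide) (Q := [(-3998, -113, 464), (1907, -3516, 3399), (2135, 3383, -3076), (-1365, 3760, -3387)])
    (P := [⟨14254080, -3998, -113⟩, ⟨104417280, 1907, -3516⟩, ⟨-94494720, 2135, 3383⟩, ⟨-104048640, -1365, 3760⟩]) rfl rfl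
    (List.mem_of_getElem? (i := 183) rfl) TE_fr TE_cov ?_
  · intro X Y h
    simp only [List.forall_mem_cons, List.not_mem_nil, false_imp_iff, implies_true, and_true] at h
    push_cast at h ⊢
    obtain ⟨h0, h1, h2, h3⟩ := h
    refine ⟨⟨?_, ?_⟩, ?_, ?_⟩ <;> linarith

theorem TE_rg184 : ROK [.q ⟨-1, 0, 0, 1⟩ ⟨411, 0, -4000, 3589⟩, .q ⟨-1, 0, 0, 1⟩ ⟨-3409, 3820, -1186, 775⟩, .q ⟨-1, 0, 0, 1⟩ ⟨-104, 101, 101, -98⟩, .q ⟨-1, 0, 0, 1⟩ ⟨2471, -3773, 1328, -26⟩] := by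
  refine rok_e (k := 1) (by decide) (Q := [(0, -4000, 3589), (3820, -1186, 775), (101, 101, -98), (-3773, 1328, -26)])
    (P := [⟨110254080, 0, -4000⟩, ⟨23808000, 3820, -1186⟩, ⟨-3010560, 101, 101⟩, ⟨-798720, -3773, 1328⟩]) rfl rfl
    (List.mem_of_getElem? (i := 184) rfl) TE_fr TE_cov ?_
  · intro X Y h
    simp only [List.forall_mem_cons, List.not_mem_nil, false_imp_iff, implies_true, and_true] at h
    push_cast at h ⊢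
    obtain ⟨h0, h1, h2, h3⟩ := h
    refine ⟨⟨?_, ?_⟩, ?_, ?_⟩ <;> linarith

theorem TE_rg185 : ROK [.q ⟨-1, 0, 0, 1⟩ ⟨1567, -1969, 3482, -3080⟩, .q ⟨-1, 0, 0, 1⟩ ⟨3472, -3711, -1492, 1731⟩, .q ⟨-1, 0, 0, 1⟩ ⟨-3699, 3910, -844, 633⟩] := by
  refine rok_e (k := 1) (by decide) (Q := [(-1969, 3482, -3080), (-3711, -1492, 1731), (3910, -844, 633)])
    (P := [⟨-94617600, -1969, 3482⟩, ⟨53176320, -3711, -1492⟩, ⟨19445760, 3910, -844⟩]) rfl rfl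
    (List.mem_of_getElem? (i := 185) rfl) TE_fr TE_cov ?_
  · intro X Y h
    simp only [List.forall_mem_cons, List.not_mem_nil, false_imp_iff, implies_true, and_true] at h
    push_cast at h ⊢
    obtain ⟨h0, h1, h2⟩ := h
    refine ⟨⟨?_, ?_⟩, ?_, ?_⟩ <;> linarith

theorem TE_rg186 : ROK [.q ⟨-1, 0, 0, 1⟩ ⟨-915, 541, 3963, -3589⟩, .q ⟨-1, 0, 0, 1⟩ ⟨1222, -1563, 1248, -907⟩, .q ⟨-1, 0, 0, 1⟩ ⟨-673, 1154, -3830, 3349⟩, .q ⟨-1, 0, 0, 1⟩ ⟨-3606, 3962, -551, 195⟩] := by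
  refine rok_e (k := 1) (by decide) (Q := [(541, 3963, -3589), (-1563, 1248, -907), (1154, -3830, 3349), (3962, -551, 195)])
    (P := [⟨-110254080, 541, 3963⟩, ⟨-27863040, -1563, 1248⟩, ⟨102881280, 1154, -3830⟩, ⟨5990400, 3962, -551⟩]) rfl rfl
    (List.mem_of_getElem? (i := 186) rfl) TE_fr TE_cov ?_
  · intro X Y h
    simp only [List.forall_mem_cons, List.not_mem_nil, false_imp_iff, implies_true, and_true] at h
    push_cast at h ⊢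
    obtain ⟨h0, h1, h2, h3⟩ := h
    refine ⟨⟨?_, ?_⟩, ?_, ?_⟩ <;> linarith

theorem TE_rg187 : ROK [.q ⟨-1, 0, 0, 1⟩ ⟨1516, -1321, -3776, 3581⟩, .q ⟨-1, 0, 0, 1⟩ ⟨-3772, 3991, 265, -484⟩, .q ⟨-1, 0, 0, 1⟩ ⟨1083, -1512, 3703, -3274⟩] := by
  refine rok_e (k := 1) (by decide) (Q := [(-1321, -3776, 3581), (3991, 265, -484), (-1512, 3703, -3274)])
    (P := [⟨110008320, -1321, -3776⟩, ⟨-14868480, 3991, 265⟩, ⟨-100577280, -1512, 3703⟩]) rfl rfl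
    (List.mem_of_getElem? (i := 187) rfl) TE_fr TE_cov ?_
  · intro X Y h
    simp only [List.forall_mem_cons, List.not_mem_nil, false_imp_iff, implies_true, and_true] at h
    push_cast at h ⊢
    obtain ⟨h0, h1, h2⟩ := h
    refine ⟨⟨?_, ?_⟩, ?_, ?_⟩ <;> linarith

theorem TE_rg188 : ROK [.q ⟨-1, 0, 0, 1⟩ ⟨2742, -3937, 707, 488⟩, .q ⟨-1, 0, 0, 1⟩ ⟨1194, -997, -3874, 3677⟩, .q ⟨-1, 0, 0, 1⟩ ⟨-582, 707, -707, 582⟩, .q ⟨-1, 0, 0, 1⟩ ⟨-2955, 2996, 2650, -2691⟩] := by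
  refine rok_e (k := 1) (by decide) (Q := [(-3937, 707, 488), (-997, -3874, 3677), (707, -707, 582), (2996, 2650, -2691)])
    (P := [⟨14991360, -3937, 707⟩, ⟨112957440, -997, -3874⟩, ⟨17879040, 707, -707⟩, ⟨-82667520, 2996, 2650⟩]) rfl rfl
    (List.mem_of_getElem? (i := 188) rfl) TE_fr TE_cov ?_
  · intro X Y h
    simp only [List.forall_mem_cons, List.not_mem_nil, false_imp_iff, implies_true, and_true] at h
    push_cast at h ⊢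
    obtain ⟨h0, h1, h2, h3⟩ := h
    refine ⟨⟨?_, ?_⟩, ?_, ?_⟩ <;> linarith

theorem TE_rg189 : ROK [.q ⟨-1, 0, 0, 1⟩ ⟨-1195, 1090, -1677, 1782⟩, .q ⟨-1, 0, 0, 1⟩ ⟨-2783, 2828, 2828, -2873⟩, .q ⟨-1, 0, 0, 1⟩ ⟨2417, -2855, 2802, -2364⟩, .q ⟨-1, 0, 0, 1⟩ ⟨3435, -3662, -1610, 1837⟩, .q ⟨-1, 0, 0, 1⟩ ⟨2655, -2713, -2939, 2997⟩] := by
  refine rok_e (k := 1) (by decide) (Q := [(1090, -1677, 1782), (2828, 2828, -2873), (-2855, 2802, -2364), (-3662, -1610, 1837), (-2713, -2939, 2997)])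
    (P := [⟨54743040, 1090, -1677⟩, ⟨-88258560, 2828, 2828⟩, ⟨-72622080, -2855, 2802⟩, ⟨56432640, -3662, -1610⟩, ⟨92067840, -2713, -2939⟩]) rfl rfl
    (List.mem_of_getElem? (i := 189) rfl) TE_fr TE_cov ?_
  · intro X Y h
    simp only [List.forall_mem_cons, List.not_mem_nil, false_imp_iff, implies_true, and_true] at h
    push_cast at h ⊢
    obtain ⟨h0, h1, h2, h3, h4⟩ := h
    refine ⟨⟨?_, ?_⟩, ?_, ?_⟩ <;> linarith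

theorem TE_rg190 : ROK [.q ⟨-1, 0, 0, 1⟩ ⟨-361, 0, 4000, -3639⟩, .q ⟨-1, 0, 0, 1⟩ ⟨2380, -2816, 2841, -2405⟩, .q ⟨-1, 0, 0, 1⟩ ⟨2895, -2828, -2828, 2761⟩, .q ⟨-1, 0, 0, 1⟩ ⟨-5821, 0, -2000, 7821⟩, .q ⟨-1, 0, 0, 1⟩ ⟨-3064, 2987, 2660, -2583⟩] := by
  refine rok_e (k := 1) (by decide) (Q := [(0, 4000, -3639), (-2816, 2841, -2405), (-2828, -2828, 2761), (0, -2000, 7821), (2987, 2660, -2583)])
    (P := [⟨-111790080, 0, 4000⟩, ⟨-73881600, -2816, 2841⟩, ⟨84817920, -2828, -2828⟩, ⟨240261120, 0, -2000⟩, ⟨-79349760, 2987, 2660⟩]) rfl rfl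
    (List.mem_of_getElem? (i := 190) rfl) TE_fr TE_cov ?_
  · intro X Y h
    simp only [List.forall_mem_cons, List.not_mem_nil, false_imp_iff, implies_true, and_true] at h
    push_cast at h ⊢
    obtain ⟨h0, h1, h2, h3, h4⟩ := h
    refine ⟨⟨?_, ?_⟩, ?_, ?_⟩ <;> linarith

theorem TE_rg191 : ROK [.q ⟨-1, 0, 0, 1⟩ ⟨-1848, 2000, -7, -145⟩, .q ⟨-1, 0, 0, 1⟩ ⟨1992, -2522, 3105, -2575⟩, .q ⟨-1, 0, 0, 1⟩ ⟨-8473, -3633, -1673, 13779⟩, .q ⟨-1, 0, 0, 1⟩ ⟨-1681, 2191, -3347, 2837⟩] := by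
  refine rok_e (k := 1) (by decide) (Q := [(2000, -7, -145), (-2522, 3105, -2575), (-3633, -1673, 13779), (2191, -3347, 2837)])
    (P := [⟨-4454400, 2000, -7⟩, ⟨-79104000, -2522, 3105⟩, ⟨423290880, -3633, -1673⟩, ⟨87152640, 2191, -3347⟩]) rfl rfl
    (List.mem_of_getElem? (i := 191) rfl) TE_fr TE_cov ?_
  · intro X Y h
    simp only [List.forall_mem_cons, List.not_mem_nil, false_imp_iff, implies_true, and_true] at h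
    push_cast at h ⊢
    obtain ⟨h0, h1, h2, h3⟩ := h
    refine ⟨⟨?_, ?_⟩, ?_, ?_⟩ <;> linarith

end Pool.Agent.TET
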