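import Pool.Agent.Helper38_TET.TE_C

/-!
# MP_c7c9bf_co: certificates, family TE
-/

set_option autoImplicit false
set_option maxRecDepth 100000

namespace Pool.Agent.TET

theorem TE_rg192 : ROK [.q ⟨-1, 0, 0, 1⟩ ⟨910, -675, -3943, 3708⟩, .q ⟨-1, 0, 0, 1⟩ ⟨-2331, 2836, -2821, 2316⟩, .q ⟨-1, 0, 0, 1⟩ ⟨-2691, 2568, 3067, -2944⟩, .q ⟨-1, 0, 0, 1⟩ ⟨1659, -2338, 3245, -2566⟩] := by
  refine rok_e (k := 1) (by decide) (Q := [(-675, -3943, 3708), (2836, -2821, 2316), (2568, 3067, -2944), (-2338, 3245, -2566)])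
    (P := [⟨113909760, -675, -3943⟩, ⟨71147520, 2836, -2821⟩, ⟨-90439680, 2568, 3067⟩, ⟨-78827520, -2338, 3245⟩]) rfl rfl
    (List.mem_of_getElem? (i := 192) rfl) TE_fr TE_cov ?_
  · intro X Y h
    simp only [List.forall_mem_cons, List.not_mem_nil, false_imp_iff, implies_true, and_true] at h
    push_cast at h ⊢
    obtain ⟨h0, h1, h2, h3⟩ := h
    refine ⟨⟨?_, ?_⟩, ?_, ?_⟩ <;> linarith

theorem TE_rg193 : ROK [.q ⟨-1, 0, 0, 1⟩ ⟨2391, -2828, 2828, -2391⟩, .q ⟨-1, 0, 0, 1⟩ ⟨3619, -3922, -788, 1091⟩, .q ⟨-1, 0, 0, 1⟩ ⟨-11680, 2790, -2867, 11757⟩, .q ⟨-1, 0, 0, 1⟩ ⟨-3703, 3989, 291, -577⟩] := by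
  refine rok_e (k := 1) (by decide) (Q := [(-2828, 2828, -2391), (-3922, -788, 1091), (2790, -2867, 11757), (3989, 291, -577)])
    (P := [⟨-73451520, -2828, 2828⟩, ⟨33515520, -3922, -788⟩, ⟨361175040, 2790, -2867⟩, ⟨-17725440, 3989, 291⟩]) rfl rfl
    (List.mem_of_getElem? (i := 193) rfl) TE_fr TE_cov ?_
  · intro X Y h
    simp only [List.forall_mem_cons, List.not_mem_nil, false_imp_iff, implies_true, and_true] at h
    push_cast at h ⊢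
    obtain ⟨h0, h1, h2, h3⟩ := h
    refine ⟨⟨?_, ?_⟩, ?_, ?_⟩ <;> linarith

theorem TE_rg194 : ROK [.q ⟨-1, 0, 0, 1⟩ ⟨-361, 0, 4000, -3639⟩, .q ⟨-1, 0, 0, 1⟩ ⟨2339, -2776, 2880, -2443⟩, .q ⟨-1, 0, 0, 1⟩ ⟨3194, -3351, -2185, 2342⟩, .q ⟨-1, 0, 0, 1⟩ ⟨-3974, 3945, -661, 690⟩] := by
  refine rok_e (k := 1) (by decide) (Q := [(0, 4000, -3639), (-2776, 2880, -2443), (-3351, -2185, 2342), (3945, -661, 690)])
    (P := [⟨-111790080, 0, 4000⟩, ⟨-75048960, -2776, 2880⟩, ⟨71946240, -3351, -2185⟩, ⟨21196800, 3945, -661⟩]) rfl rfl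
    (List.mem_of_getElem? (i := 194) rfl) TE_fr TE_cov ?_
  · intro X Y h
    simp only [List.forall_mem_cons, List.not_mem_nil, false_imp_iff, implies_true, and_true] at h
    push_cast at h ⊢
    obtain ⟨h0, h1, h2, h3⟩ := h
    refine ⟨⟨?_, ?_⟩, ?_, ?_⟩ <;> linarith

theorem TE_rg195 : ROK [.q ⟨-1, 0, 0, 1⟩ ⟨-2827, 2828, -2828, 2827⟩, .q ⟨-1, 0, 0, 1⟩ ⟨-3092, 3066, 2569, -2543⟩, .q ⟨-1, 0, 0, 1⟩ ⟨2425, -2863, 2793, -2355⟩, .q ⟨-1, 0, 0, 1⟩ ⟨3548, -3815, -1202, 1469⟩] := by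
  refine rok_e (k := 1) (by decide) (Q := [(2828, -2828, 2827), (3066, 2569, -2543), (-2863, 2793, -2355), (-3815, -1202, 1469)])
    (P := [⟨86845440, 2828, -2828⟩, ⟨-78120960, 3066, 2569⟩, ⟨-72345600, -2863, 2793⟩, ⟨45127680, -3815, -1202⟩]) rfl rfl
    (List.mem_of_getElem? (i := 195) rfl) TE_fr TE_cov ?_
  · intro X Y h
    simp only [List.forall_mem_cons, List.not_mem_nil, false_imp_iff, implies_true, and_true] at h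
    push_cast at h ⊢
    obtain ⟨h0, h1, h2, h3⟩ := h
    refine ⟨⟨?_, ?_⟩, ?_, ?_⟩ <;> linarith

theorem TE_rg196 : ROK [.q ⟨-1, 0, 0, 1⟩ ⟨3562, -3835, -1137, 1410⟩, .q ⟨-1, 0, 0, 1⟩ ⟨-3475, 3582, -1781, 1674⟩, .q ⟨-1, 0, 0, 1⟩ ⟨-2716, 2615, 3027, -2926⟩, .q ⟨-1, 0, 0, 1⟩ ⟨2391, -2828, 2828, -2391⟩] := by
  refine rok_e (k := 1) (by decide) (Q := [(-3835, -1137, 1410), (3582, -1781, 1674), (2615, 3027, -2926), (-2828, 2828, -2391)])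
    (P := [⟨43315200, -3835, -1137⟩, ⟨51425280, 3582, -1781⟩, ⟨-89886720, 2615, 3027⟩, ⟨-73451520, -2828, 2828⟩]) rfl rfl
    (List.mem_of_getElem? (i := 196) rfl) TE_fr TE_cov ?_
  · intro X Y h
    simp only [List.forall_mem_cons, List.not_mem_nil, false_imp_iff, implies_true, and_true] at h
    push_cast at h ⊢
    obtain ⟨h0, h1, h2, h3⟩ := h
    refine ⟨⟨?_, ?_⟩, ?_, ?_⟩ <;> linarith

theorem TE_rg197 : ROK [.q ⟨-1, 0, 0, 1⟩ ⟨-2140, 2649, -2997, 2488⟩, .q ⟨-1, 0, 0, 1⟩ ⟨-3701, 4000, 26, -325⟩, .q ⟨-1, 0, 0, 1⟩ ⟨-83, -108, 1329, -1138⟩, .q ⟨-1, 0, 0, 1⟩ ⟨1752, -1985, 243, -10⟩] := by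
  refine rok_e (k := 1) (by decide) (Q := [(2649, -2997, 2488), (4000, 26, -325), (-108, 1329, -1138), (-1985, 243, -10)])
    (P := [⟨76431360, 2649, -2997⟩, ⟨-9984000, 4000, 26⟩, ⟨-34959360, -108, 1329⟩, ⟨-307200, -1985, 243⟩]) rfl rfl
    (List.mem_of_getElem? (i := 197) rfl) TE_fr TE_cov ?_
  · intro X Y h
    simp only [List.forall_mem_cons, List.not_mem_nil, false_imp_iff, implies_true, and_true] at h
    push_cast at h ⊢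
    obtain ⟨h0, h1, h2, h3⟩ := h
    refine ⟨⟨?_, ?_⟩, ?_, ?_⟩ <;> linarith

theorem TE_rg198 : ROK [.q ⟨-1, 0, 0, 1⟩ ⟨-1281, 1088, 3849, -3656⟩, .q ⟨-1, 0, 0, 1⟩ ⟨3373, -3986, -330, 943⟩, .q ⟨-1, 0, 0, 1⟩ ⟨621, -350, -3985, 3714⟩, .q ⟨-1, 0, 0, 1⟩ ⟨-1076, 1515, -3702, 3263⟩] := by
  refine rok_e (k := 1) (by decide) (Q := [(1088, 3849, -3656), (-3986, -330, 943), (-350, -3985, 3714), (1515, -3702, 3263)])
    (P := [⟨-112312320, 1088, 3849⟩, ⟨28968960, -3986, -330⟩, ⟨114094080, -350, -3985⟩, ⟨100239360, 1515, -3702⟩]) rfl rfl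
    (List.mem_of_getElem? (i := 198) rfl) TE_fr TE_cov ?_
  · intro X Y h
    simp only [List.forall_mem_cons, List.not_mem_nil, false_imp_iff, implies_true, and_true] at h
    push_cast at h ⊢
    obtain ⟨h0, h1, h2, h3⟩ := h
    refine ⟨⟨?_, ?_⟩, ?_, ?_⟩ <;> linarith

theorem TE_rg199 : ROK [.q ⟨-1, 0, 0, 1⟩ ⟨1194, -1288, -345, 439⟩, .q ⟨-1, 0, 0, 1⟩ ⟨-3747, 3986, -339, 100⟩, .q ⟨-1, 0, 0, 1⟩ ⟨1981, -2404, 3197, -2774⟩] := by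
  refine rok_e (k := 1) (by decide) (Q := [(-1288, -345, 439), (3986, -339, 100), (-2404, 3197, -2774)])
    (P := [⟨13486080, -1288, -345⟩, ⟨3072000, 3986, -339⟩, ⟨-85217280, -2404, 3197⟩]) rfl rfl
    (List.mem_of_getElem? (i := 199) rfl) TE_fr TE_cov ?_
  · intro X Y h
    simp only [List.forall_mem_cons, List.not_mem_nil, false_imp_iff, implies_true, and_true] at h
    push_cast at h ⊢
    obtain ⟨h0, h1, h2⟩ := h
    refine ⟨⟨?_, ?_⟩, ?_, ?_⟩ <;> linarith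

theorem TE_rg200 : ROK [.q ⟨-1, 0, 0, 1⟩ ⟨1445, -1964, 3485, -2966⟩, .q ⟨-1, 0, 0, 1⟩ ⟨149, 0, -2000, 1851⟩, .q ⟨-1, 0, 0, 1⟩ ⟨-2400, 2913, -2741, 2228⟩] := by
  refine rok_e (k := 1) (by decide) (Q := [(-1964, 3485, -2966), (0, -2000, 1851), (2913, -2741, 2228)])
    (P := [⟨-91115520, -1964, 3485⟩, ⟨56862720, 0, -2000⟩, ⟨68444160, 2913, -2741⟩]) rfl rfl
    (List.mem_of_getElem? (i := 200) rfl) TE_fr TE_cov ?_
  · intro X Y h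
    simp only [List.forall_mem_cons, List.not_mem_nil, false_imp_iff, implies_true, and_true] at h
    push_cast at h ⊢
    obtain ⟨h0, h1, h2⟩ := h
    refine ⟨⟨?_, ?_⟩, ?_, ?_⟩ <;> linarith

theorem TE_rg201 : ROK [.q ⟨-1, 0, 0, 1⟩ ⟨-342, 153, -3997, 4186⟩, .q ⟨-1, 0, 0, 1⟩ ⟨-2761, 2828, 2828, -2895⟩, .q ⟨-1, 0, 0, 1⟩ ⟨1082, -1295, 1524, -1311⟩, .q ⟨-1, 0, 0, 1⟩ ⟨3612, -3914, -825, 1127⟩] := by
  refine rok_e (k := 1) (by decide) (Q := [(153, -3997, 4186), (2828, 2828, -2895), (-1295, 1524, -1311), (-3914, -825, 1127)])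
    (P := [⟨128593920, 153, -3997⟩, ⟨-88934400, 2828, 2828⟩, ⟨-40273920, -1295, 1524⟩, ⟨34621440, -3914, -825⟩]) rfl rfl
    (List.mem_of_getElem? (i := 201) rfl) TE_fr TE_cov ?_
  · intro X Y h
    simp only [List.forall_mem_cons, List.not_mem_nil, false_imp_iff, implies_true, and_true] at h
    push_cast at h ⊢
    obtain ⟨h0, h1, h2, h3⟩ := h
    refine ⟨⟨?_, ?_⟩, ?_, ?_⟩ <;> linarith

theorem TE_rg202 : ROK [.q ⟨-1, 0, 0, 1⟩ ⟨-2608, 2472, 3145, -3009⟩, .q ⟨-1, 0, 0, 1⟩ ⟨2360, -2791, 2865, -2434⟩, .q ⟨-1, 0, 0, 1⟩ ⟨1323, -1355, -1471, 1503⟩, .q ⟨-1, 0, 0, 1⟩ ⟨-3275, 3084, -2548, 2739⟩] := by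
  refine rok_e (k := 1) (by decide) (Q := [(2472, 3145, -3009), (-2791, 2865, -2434), (-1355, -1471, 1503), (3084, -2548, 2739)])
    (P := [⟨-92436480, 2472, 3145⟩, ⟨-74772480, -2791, 2865⟩, ⟨46172160, -1355, -1471⟩, ⟨84142080, 3084, -2548⟩]) rfl rfl
    (List.mem_of_getElem? (i := 202) rfl) TE_fr TE_cov ?_
  · intro X Y h
    simp only [List.forall_mem_cons, List.not_mem_nil, false_imp_iff, implies_true, and_true] at h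
    push_cast at h ⊢
    obtain ⟨h0, h1, h2, h3⟩ := h
    refine ⟨⟨?_, ?_⟩, ?_, ?_⟩ <;> linarith

theorem TE_rg203 : ROK [.q ⟨-1, 0, 0, 1⟩ ⟨-2115, 1940, 3498, -3323⟩, .q ⟨-1, 0, 0, 1⟩ ⟨1858, -2276, 3289, -2871⟩, .q ⟨-1, 0, 0, 1⟩ ⟨91, -100, 0, 9⟩, .q ⟨-1, 0, 0, 1⟩ ⟨1954, -1908, -3515, 3469⟩, .q ⟨-1, 0, 0, 1⟩ ⟨-4097, 3877, -986, 1206⟩] := by
  refine rok_e (k := 1) (by decide) (Q := [(1940, 3498, -3323), (-2276, 3289, -2871), (-100, 0, 9), (-1908, -3515, 3469), (3877, -986, 1206)])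
    (P := [⟨-102082560, 1940, 3498⟩, ⟨-88197120, -2276, 3289⟩, ⟨276480, -100, 0⟩, ⟨106567680, -1908, -3515⟩, ⟨37048320, 3877, -986⟩]) rfl rfl
    (List.mem_of_getElem? (i := 203) rfl) TE_fr TE_cov ?_
  · intro X Y h
    simp only [List.forall_mem_cons, List.not_mem_nil, false_imp_iff, implies_true, and_true] at h
    push_cast at h ⊢
    obtain ⟨h0, h1, h2, h3, h4⟩ := h
    refine ⟨⟨?_, ?_⟩, ?_, ?_⟩ <;> linarith

end Pool.Agent.TET
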