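import Pool.Agent.Helper38_TET.TF_C

/-!
# MP_c7c9bf_co: certificates, family TF
-/

set_option autoImplicit false
set_option maxRecDepth 100000

namespace Pool.Agent.TET

theorem TF_rg24 : ROK [.l ⟨0, -1275, 3791, 320⟩ ⟨0, 0, 0, 1⟩, .l ⟨0, 0, -1000, -77⟩ ⟨0, 0, 0, 1⟩, .l ⟨0, 3258, -2320, 19⟩ ⟨0, 0, 0, 1⟩] := by
  refine rok_f (f := ⟨0, 0, 0, 1⟩) (by decide) (k := -1) (by decide) (Q := [(-1275, 3791, 320), (0, -1000, -77), (3258, -2320, 19)])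
    (P := [⟨9830400, 1275, -3791⟩, ⟨-2365440, 0, 1000⟩, ⟨583680, -3258, 2320⟩]) rfl rfl
    (List.mem_of_getElem? (i := 24) rfl) TF_fr TF_cov ?_
  · intro X Y h
    simp only [List.forall_mem_cons, List.not_mem_nil, false_imp_iff, implies_true, and_true] at h
    push_cast at h ⊢
    obtain ⟨h0, h1, h2⟩ := h
    refine ⟨⟨?_, ?_⟩, ?_, ?_⟩ <;> linarith

theorem TF_rg25 : ROK [.l ⟨0, 315, -3988, -38⟩ ⟨0, 0, 0, 1⟩, .l ⟨0, 404, -404, 311⟩ ⟨0, 0, 0, 1⟩, .l ⟨0, 2701, 2951, 2817⟩ ⟨0, 0, 0, 1⟩, .l ⟨0, -1787, 898, -95⟩ ⟨0, 0, 0, 1⟩] := by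
  refine rok_f (f := ⟨0, 0, 0, 1⟩) (by decide) (k := -1) (by decide) (Q := [(315, -3988, -38), (404, -404, 311), (2701, 2951, 2817), (-1787, 898, -95)])
    (P := [⟨-1167360, -315, 3988⟩, ⟨9553920, -404, 404⟩, ⟨86538240, -2701, -2951⟩, ⟨-2918400, 1787, -898⟩]) rfl rfl
    (List.mem_of_getElem? (i := 25) rfl) TF_fr TF_cov ?_
  · intro X Y h
    simp only [List.forall_mem_cons, List.not_mem_nil, false_imp_iff, implies_true, and_true] at h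
    push_cast at h ⊢
    obtain ⟨h0, h1, h2, h3⟩ := h
    refine ⟨⟨?_, ?_⟩, ?_, ?_⟩ <;> linarith

theorem TF_rg26 : ROK [.l ⟨0, -2828, 2828, 2297⟩ ⟨0, 0, 0, 1⟩, .l ⟨0, -2000, 0, 399⟩ ⟨0, 0, 0, 1⟩, .l ⟨0, -1419, -3740, -1945⟩ ⟨0, 0, 0, 1⟩, .l ⟨0, 200, 0, 11⟩ ⟨0, 0, 0, 1⟩] := by
  refine rok_f (f := ⟨0, 0, 0, 1⟩) (by decide) (k := -1) (by decide) (Q := [(-2828, 2828, 2297), (-2000, 0, 399), (-1419, -3740, -1945), (200, 0, 11)])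
    (P := [⟨70563840, 2828, -2828⟩, ⟨12257280, 2000, 0⟩, ⟨-59750400, 1419, 3740⟩, ⟨337920, -200, 0⟩]) rfl rfl
    (List.mem_of_getElem? (i := 26) rfl) TF_fr TF_cov ?_
  · intro X Y h
    simp only [List.forall_mem_cons, List.not_mem_nil, false_imp_iff, implies_true, and_true] at h
    push_cast at h ⊢
    obtain ⟨h0, h1, h2, h3⟩ := h
    refine ⟨⟨?_, ?_⟩, ?_, ?_⟩ <;> linarith

theorem TF_rg27 : ROK [.l ⟨0, 3589, 1766, 1564⟩ ⟨0, 0, 0, 1⟩, .l ⟨0, -4000, 0, 67⟩ ⟨0, 0, 0, 1⟩, .l ⟨0, -3483, -1967, -17⟩ ⟨0, 0, 0, 1⟩, .l ⟨0, 1414, -1414, -51⟩ ⟨0, 0, 0, 1⟩] := by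
  refine rok_f (f := ⟨0, 0, 0, 1⟩) (by decide) (k := -1) (by decide) (Q := [(3589, 1766, 1564), (-4000, 0, 67), (-3483, -1967, -17), (1414, -1414, -51)])
    (P := [⟨48046080, -3589, -1766⟩, ⟨2058240, 4000, 0⟩, ⟨-522240, 3483, 1967⟩, ⟨-1566720, -1414, 1414⟩]) rfl rfl
    (List.mem_of_getElem? (i := 27) rfl) TF_fr TF_cov ?_
  · intro X Y h
    simp only [List.forall_mem_cons, List.not_mem_nil, false_imp_iff, implies_true, and_true] at h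
    push_cast at h ⊢
    obtain ⟨h0, h1, h2, h3⟩ := h
    refine ⟨⟨?_, ?_⟩, ?_, ?_⟩ <;> linarith

theorem TF_rg28 : ROK [.l ⟨0, -3268, -2306, -33⟩ ⟨0, 0, 0, 1⟩, .l ⟨0, 3938, -699, 80⟩ ⟨0, 0, 0, 1⟩, .l ⟨0, 1552, 3687, 3484⟩ ⟨0, 0, 0, 1⟩, .l ⟨0, -794, 98, 17⟩ ⟨0, 0, 0, 1⟩] := by
  refine rok_f (f := ⟨0, 0, 0, 1⟩) (by decide) (k := -1) (by decide) (Q := [(-3268, -2306, -33), (3938, -699, 80), (1552, 3687, 3484), (-794, 98, 17)])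
    (P := [⟨-1013760, 3268, 2306⟩, ⟨2457600, -3938, 699⟩, ⟨107028480, -1552, -3687⟩, ⟨522240, 794, -98⟩]) rfl rfl
    (List.mem_of_getElem? (i := 28) rfl) TF_fr TF_cov ?_
  · intro X Y h
    simp only [List.forall_mem_cons, List.not_mem_nil, false_imp_iff, implies_true, and_true] at h
    push_cast at h ⊢
    obtain ⟨h0, h1, h2, h3⟩ := h
    refine ⟨⟨?_, ?_⟩, ?_, ?_⟩ <;> linarith

theorem TF_rg29 : ROK [.l ⟨0, -3542, 1859, -1017⟩ ⟨0, 0, 0, 1⟩, .l ⟨0, 0, -4000, 319⟩ ⟨0, 0, 0, 1⟩, .l ⟨0, 2631, -3013, 2435⟩ ⟨0, 0, 0, 1⟩, .l ⟨0, 2828, 2828, 2591⟩ ⟨0, 0, 0, 1⟩] := by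
  refine rok_f (f := ⟨0, 0, 0, 1⟩) (by decide) (k := -1) (by decide) (Q := [(-3542, 1859, -1017), (0, -4000, 319), (2631, -3013, 2435), (2828, 2828, 2591)])
    (P := [⟨-31242240, 3542, -1859⟩, ⟨9799680, 0, 4000⟩, ⟨74803200, -2631, 3013⟩, ⟨79595520, -2828, -2828⟩]) rfl rfl
    (List.mem_of_getElem? (i := 29) rfl) TF_fr TF_cov ?_
  · intro X Y h
    simp only [List.forall_mem_cons, List.not_mem_nil, false_imp_iff, implies_true, and_true] at h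
    push_cast at h ⊢
    obtain ⟨h0, h1, h2, h3⟩ := h
    refine ⟨⟨?_, ?_⟩, ?_, ?_⟩ <;> linarith

theorem TF_rg30 : ROK [.l ⟨0, 209, -1989, 513⟩ ⟨0, 0, 0, 1⟩, .l ⟨0, 3928, 757, 2768⟩ ⟨0, 0, 0, 1⟩, .l ⟨0, 362, 3984, 2657⟩ ⟨0, 0, 0, 1⟩, .l ⟨0, -3559, -1826, -1382⟩ ⟨0, 0, 0, 1⟩] := by
  refine rok_f (f := ⟨0, 0, 0, 1⟩) (by decide) (k := -1) (by decide) (Q := [(209, -1989, 513), (3928, 757, 2768), (362, 3984, 2657), (-3559, -1826, -1382)])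
    (P := [⟨15759360, -209, 1989⟩, ⟨85032960, -3928, -757⟩, ⟨81623040, -362, -3984⟩, ⟨-42455040, 3559, 1826⟩]) rfl rfl
    (List.mem_of_getElem? (i := 30) rfl) TF_fr TF_cov ?_
  · intro X Y h
    simp only [List.forall_mem_cons, List.not_mem_nil, false_imp_iff, implies_true, and_true] at h
    push_cast at h ⊢
    obtain ⟨h0, h1, h2, h3⟩ := h
    refine ⟨⟨?_, ?_⟩, ?_, ?_⟩ <;> linarith

theorem TF_rg31 : ROK [.l ⟨0, -850, -3909, -2076⟩ ⟨0, 0, 0, 1⟩, .l ⟨0, 3833, 1143, 1215⟩ ⟨0, 0, 0, 1⟩, .l ⟨0, -1414, 1414, 1119⟩ ⟨0, 0, 0, 1⟩, .l ⟨0, -1000, 0, 199⟩ ⟨0, 0, 0, 1⟩] := by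
  refine rok_f (f := ⟨0, 0, 0, 1⟩) (by decide) (k := -1) (by decide) (Q := [(-850, -3909, -2076), (3833, 1143, 1215), (-1414, 1414, 1119), (-1000, 0, 199)])
    (P := [⟨-63774720, 850, 3909⟩, ⟨37324800, -3833, -1143⟩, ⟨34375680, 1414, -1414⟩, ⟨6113280, 1000, 0⟩]) rfl rfl
    (List.mem_of_getElem? (i := 31) rfl) TF_fr TF_cov ?_
  · intro X Y h
    simp only [List.forall_mem_cons, List.not_mem_nil, false_imp_iff, implies_true, and_true] at h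
    push_cast at h ⊢
    obtain ⟨h0, h1, h2, h3⟩ := h
    refine ⟨⟨?_, ?_⟩, ?_, ?_⟩ <;> linarith

theorem TF_rg32 : ROK [.l ⟨0, -1000, 0, 201⟩ ⟨0, 0, 0, 1⟩, .l ⟨0, 0, -4000, -1959⟩ ⟨0, 0, 0, 1⟩, .l ⟨0, 3680, 1567, 1518⟩ ⟨0, 0, 0, 1⟩, .l ⟨0, -3491, 1953, 1809⟩ ⟨0, 0, 0, 1⟩] := by
  refine rok_f (f := ⟨0, 0, 0, 1⟩) (by decide) (k := -1) (by decide) (Q := [(-1000, 0, 201), (0, -4000, -1959), (3680, 1567, 1518), (-3491, 1953, 1809)])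
    (P := [⟨6174720, 1000, 0⟩, ⟨-60180480, 0, 4000⟩, ⟨46632960, -3680, -1567⟩, ⟨55572480, 3491, -1953⟩]) rfl rfl
    (List.mem_of_getElem? (i := 32) rfl) TF_fr TF_cov ?_
  · intro X Y h
    simp only [List.forall_mem_cons, List.not_mem_nil, false_imp_iff, implies_true, and_true] at h
    push_cast at h ⊢
    obtain ⟨h0, h1, h2, h3⟩ := h
    refine ⟨⟨?_, ?_⟩, ?_, ?_⟩ <;> linarith

theorem TF_rg33 : ROK [.l ⟨0, 3994, 225, 1284⟩ ⟨0, 0, 0, 1⟩, .l ⟨0, -361, 3984, 3136⟩ ⟨0, 0, 0, 1⟩, .l ⟨0, -3949, 635, 1158⟩ ⟨0, 0, 0, 1⟩, .l ⟨0, -707, -707, -270⟩ ⟨0, 0, 0, 1⟩] := by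
  refine rok_f (f := ⟨0, 0, 0, 1⟩) (by decide) (k := -1) (by decide) (Q := [(3994, 225, 1284), (-361, 3984, 3136), (-3949, 635, 1158), (-707, -707, -270)])
    (P := [⟨39444480, -3994, -225⟩, ⟨96337920, 361, -3984⟩, ⟨35573760, 3949, -635⟩, ⟨-8294400, 707, 707⟩]) rfl rfl
    (List.mem_of_getElem? (i := 33) rfl) TF_fr TF_cov ?_
  · intro X Y h
    simp only [List.forall_mem_cons, List.not_mem_nil, false_imp_iff, implies_true, and_true] at h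
    push_cast at h ⊢
    obtain ⟨h0, h1, h2, h3⟩ := h
    refine ⟨⟨?_, ?_⟩, ?_, ?_⟩ <;> linarith

theorem TF_rg34 : ROK [.l ⟨0, -2812, -2845, 5785⟩ ⟨0, 0, 0, 1⟩, .l ⟨0, 3401, -2106, -1838⟩ ⟨0, 0, 0, 1⟩, .l ⟨0, 1742, 3601, 3541⟩ ⟨0, 0, 0, 1⟩, .l ⟨0, -3576, 1792, 1679⟩ ⟨0, 0, 0, 1⟩] := by
  refine rok_f (f := ⟨0, 0, 0, 1⟩) (by decide) (k := -1) (by decide) (Q := [(-2812, -2845, 5785), (3401, -2106, -1838), (1742, 3601, 3541), (-3576, 1792, 1679)])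
    (P := [⟨177715200, 2812, 2845⟩, ⟨-56463360, -3401, 2106⟩, ⟨108779520, -1742, -3601⟩, ⟨51578880, 3576, -1792⟩]) rfl rfl
    (List.mem_of_getElem? (i := 34) rfl) TF_fr TF_cov ?_
  · intro X Y h
    simp only [List.forall_mem_cons, List.not_mem_nil, false_imp_iff, implies_true, and_true] at h
    push_cast at h ⊢
    obtain ⟨h0, h1, h2, h3⟩ := h
    refine ⟨⟨?_, ?_⟩, ?_, ?_⟩ <;> linarith

theorem TF_rg35 : ROK [.l ⟨0, 0, -125, -2⟩ ⟨0, 0, 0, 1⟩, .l ⟨0, 3802, 1242, 3309⟩ ⟨0, 0, 0, 1⟩, .l ⟨0, -777, 3924, 76⟩ ⟨0, 0, 0, 1⟩] := by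
  refine rok_f (f := ⟨0, 0, 0, 1⟩) (by decide) (k := -1) (by decide) (Q := [(0, -125, -2), (3802, 1242, 3309), (-777, 3924, 76)])
    (P := [⟨-61440, 0, 125⟩, ⟨101652480, -3802, -1242⟩, ⟨2334720, 777, -3924⟩]) rfl rfl
    (List.mem_of_getElem? (i := 35) rfl) TF_fr TF_cov ?_
  · intro X Y h
    simp only [List.forall_mem_cons, List.not_mem_nil, false_imp_iff, implies_true, and_true] at h
    push_cast at h ⊢
    obtain ⟨h0, h1, h2⟩ := h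
    refine ⟨⟨?_, ?_⟩, ?_, ?_⟩ <;> linarith

theorem TF_rg36 : ROK [.l ⟨0, 0, 800, 29⟩ ⟨0, 0, 0, 1⟩, .l ⟨0, -3960, 563, -1390⟩ ⟨0, 0, 0, 1⟩, .l ⟨0, -1157, -3829, 46⟩ ⟨0, 0, 0, 1⟩, .l ⟨0, 2651, -2995, 2251⟩ ⟨0, 0, 0, 1⟩] := by
  refine rok_f (f := ⟨0, 0, 0, 1⟩) (by decide) (k := -1) (by decide) (Q := [(0, 800, 29), (-3960, 563, -1390), (-1157, -3829, 46), (2651, -2995, 2251)])
    (P := [⟨890880, 0, -800⟩, ⟨-42700800, 3960, -563⟩, ⟨1413120, 1157, 3829⟩, ⟨69150720, -2651, 2995⟩]) rfl rfl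
    (List.mem_of_getElem? (i := 36) rfl) TF_fr TF_cov ?_
  · intro X Y h
    simp only [List.forall_mem_cons, List.not_mem_nil, false_imp_iff, implies_true, and_true] at h
    push_cast at h ⊢
    obtain ⟨h0, h1, h2, h3⟩ := h
    refine ⟨⟨?_, ?_⟩, ?_, ?_⟩ <;> linarith

theorem TF_rg37 : ROK [.l ⟨0, 0, -200, -99⟩ ⟨0, 0, 0, 1⟩, .l ⟨0, 1819, 831, 1212⟩ ⟨0, 0, 0, 1⟩, .l ⟨0, -1582, 3674, 2413⟩ ⟨0, 0, 0, 1⟩, .l ⟨0, -3981, 387, 1016⟩ ⟨0, 0, 0, 1⟩] := by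
  refine rok_f (f := ⟨0, 0, 0, 1⟩) (by decide) (k := -1) (by decide) (Q := [(0, -200, -99), (1819, 831, 1212), (-1582, 3674, 2413), (-3981, 387, 1016)])
    (P := [⟨-3041280, 0, 200⟩, ⟨37232640, -1819, -831⟩, ⟨74127360, 1582, -3674⟩, ⟨31211520, 3981, -387⟩]) rfl rfl
    (List.mem_of_getElem? (i := 37) rfl) TF_fr TF_cov ?_
  · intro X Y h
    simp only [List.forall_mem_cons, List.not_mem_nil, false_imp_iff, implies_true, and_true] at h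
    push_cast at h ⊢
    obtain ⟨h0, h1, h2, h3⟩ := h
    refine ⟨⟨?_, ?_⟩, ?_, ?_⟩ <;> linarith

theorem TF_rg38 : ROK [.l ⟨0, 3706, 1505, 1969⟩ ⟨0, 0, 0, 1⟩, .l ⟨0, 77, 3999, 1679⟩ ⟨0, 0, 0, 1⟩, .l ⟨0, -356, -447, -123⟩ ⟨0, 0, 0, 1⟩, .l ⟨0, 34, -4000, 819⟩ ⟨0, 0, 0, 1⟩] := by
  refine rok_f (f := ⟨0, 0, 0, 1⟩) (by decide) (k := -1) (by decide) (Q := [(3706, 1505, 1969), (77, 3999, 1679), (-356, -447, -123), (34, -4000, 819)])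
    (P := [⟨60487680, -3706, -1505⟩, ⟨51578880, -77, -3999⟩, ⟨-3778560, 356, 447⟩, ⟨25159680, -34, 4000⟩]) rfl rfl
    (List.mem_of_getElem? (i := 38) rfl) TF_fr TF_cov ?_
  · intro X Y h
    simp only [List.forall_mem_cons, List.not_mem_nil, false_imp_iff, implies_true, and_true] at h
    push_cast at h ⊢
    obtain ⟨h0, h1, h2, h3⟩ := h
    refine ⟨⟨?_, ?_⟩, ?_, ?_⟩ <;> linarith

theorem TF_rg39 : ROK [.l ⟨0, -4000, 0, 801⟩ ⟨0, 0, 0, 1⟩, .l ⟨0, -1414, -1414, -597⟩ ⟨0, 0, 0, 1⟩, .l ⟨0, 707, -707, -39⟩ ⟨0, 0, 0, 1⟩, .l ⟨0, 15, 4000, 2518⟩ ⟨0, 0, 0, 1⟩] := by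
  refine rok_f (f := ⟨0, 0, 0, 1⟩) (by decide) (k := -1) (by decide) (Q := [(-4000, 0, 801), (-1414, -1414, -597), (707, -707, -39), (15, 4000, 2518)])
    (P := [⟨24606720, 4000, 0⟩, ⟨-18339840, 1414, 1414⟩, ⟨-1198080, -707, 707⟩, ⟨77352960, -15, -4000⟩]) rfl rfl
    (List.mem_of_getElem? (i := 39) rfl) TF_fr TF_cov ?_
  · intro X Y h
    simp only [List.forall_mem_cons, List.not_mem_nil, false_imp_iff, implies_true, and_true] at h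
    push_cast at h ⊢
    obtain ⟨h0, h1, h2, h3⟩ := h
    refine ⟨⟨?_, ?_⟩, ?_, ?_⟩ <;> linarith

theorem TF_rg40 : ROK [.l ⟨0, -275, 3991, 110⟩ ⟨0, 0, 0, 1⟩, .l ⟨0, -2828, -2828, -73⟩ ⟨0, 0, 0, 1⟩, .l ⟨0, 1621, -3657, 133⟩ ⟨0, 0, 0, 1⟩] := by
  refine rok_f (f := ⟨0, 0, 0, 1⟩) (by decide) (k := -1) (by decide) (Q := [(-275, 3991, 110), (-2828, -2828, -73), (1621, -3657, 133)])
    (P := [⟨3379200, 275, -3991⟩, ⟨-2242560, 2828, 2828⟩, ⟨4085760, -1621, 3657⟩]) rfl rfl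
    (List.mem_of_getElem? (i := 40) rfl) TF_fr TF_cov ?_
  · intro X Y h
    simp only [List.forall_mem_cons, List.not_mem_nil, false_imp_iff, implies_true, and_true] at h
    push_cast at h ⊢
    obtain ⟨h0, h1, h2⟩ := h
    refine ⟨⟨?_, ?_⟩, ?_, ?_⟩ <;> linarith

theorem TF_rg41 : ROK [.l ⟨0, -4000, 0, -1959⟩ ⟨0, 0, 0, 1⟩, .l ⟨0, 129, -3998, 874⟩ ⟨0, 0, 0, 1⟩, .l ⟨0, 2828, -2828, 2179⟩ ⟨0, 0, 0, 1⟩, .l ⟨0, 2354, 3234, 2235⟩ ⟨0, 0, 0, 1⟩] := by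
  refine rok_f (f := ⟨0, 0, 0, 1⟩) (by decide) (k := -1) (by decide) (Q := [(-4000, 0, -1959), (129, -3998, 874), (2828, -2828, 2179), (2354, 3234, 2235)])
    (P := [⟨-60180480, 4000, 0⟩, ⟨26849280, -129, 3998⟩, ⟨66938880, -2828, 2828⟩, ⟨68659200, -2354, -3234⟩]) rfl rfl
    (List.mem_of_getElem? (i := 41) rfl) TF_fr TF_cov ?_
  · intro X Y h
    simp only [List.forall_mem_cons, List.not_mem_nil, false_imp_iff, implies_true, and_true] at h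
    push_cast at h ⊢
    obtain ⟨h0, h1, h2, h3⟩ := h
    refine ⟨⟨?_, ?_⟩, ?_, ?_⟩ <;> linarith

theorem TF_rg42 : ROK [.l ⟨0, 2828, 2828, 2617⟩ ⟨0, 0, 0, 1⟩, .l ⟨0, -3235, 2353, 375⟩ ⟨0, 0, 0, 1⟩, .l ⟨0, -1892, -649, -19⟩ ⟨0, 0, 0, 1⟩, .l ⟨0, -121, -3998, -415⟩ ⟨0, 0, 0, 1⟩] := by
  refine rok_f (f := ⟨0, 0, 0, 1⟩) (by decide) (k := -1) (by decide) (Q := [(2828, 2828, 2617), (-3235, 2353, 375), (-1892, -649, -19), (-121, -3998, -415)])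
    (P := [⟨80394240, -2828, -2828⟩, ⟨11520000, 3235, -2353⟩, ⟨-583680, 1892, 649⟩, ⟨-12748800, 121, 3998⟩]) rfl rfl
    (List.mem_of_getElem? (i := 42) rfl) TF_fr TF_cov ?_
  · intro X Y h
    simp only [List.forall_mem_cons, List.not_mem_nil, false_imp_iff, implies_true, and_true] at h
    push_cast at h ⊢
    obtain ⟨h0, h1, h2, h3⟩ := h
    refine ⟨⟨?_, ?_⟩, ?_, ?_⟩ <;> linarith

theorem TF_rg43 : ROK [.l ⟨0, -3982, 383, -2370⟩ ⟨0, 0, 0, 1⟩, .l ⟨0, 75, -3999, 842⟩ ⟨0, 0, 0, 1⟩, .l ⟨0, 1414, -1414, 1119⟩ ⟨0, 0, 0, 1⟩, .l ⟨0, 1054, 3859, 1140⟩ ⟨0, 0, 0, 1⟩] := by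
  refine rok_f (f := ⟨0, 0, 0, 1⟩) (by decide) (k := -1) (by decide) (Q := [(-3982, 383, -2370), (75, -3999, 842), (1414, -1414, 1119), (1054, 3859, 1140)])
    (P := [⟨-72806400, 3982, -383⟩, ⟨25866240, -75, 3999⟩, ⟨34375680, -1414, 1414⟩, ⟨35020800, -1054, -3859⟩]) rfl rfl
    (List.mem_of_getElem? (i := 43) rfl) TF_fr TF_cov ?_
  · intro X Y h
    simp only [List.forall_mem_cons, List.not_mem_nil, false_imp_iff, implies_true, and_true] at h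
    push_cast at h ⊢
    obtain ⟨h0, h1, h2, h3⟩ := h
    refine ⟨⟨?_, ?_⟩, ?_, ?_⟩ <;> linarith

theorem TF_rg44 : ROK [.l ⟨0, 857, 3907, 586⟩ ⟨0, 0, 0, 1⟩, .l ⟨0, -2006, -3461, -465⟩ ⟨0, 0, 0, 1⟩, .l ⟨0, 0, -2000, 399⟩ ⟨0, 0, 0, 1⟩, .l ⟨0, 3683, 1560, 1867⟩ ⟨0, 0, 0, 1⟩] := by
  refine rok_f (f := ⟨0, 0, 0, 1⟩) (by decide) (k := -1) (by decide) (Q := [(857, 3907, 586), (-2006, -3461, -465), (0, -2000, 399), (3683, 1560, 1867)])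
    (P := [⟨18001920, -857, -3907⟩, ⟨-14284800, 2006, 3461⟩, ⟨12257280, 0, 2000⟩, ⟨57354240, -3683, -1560⟩]) rfl rfl
    (List.mem_of_getElem? (i := 44) rfl) TF_fr TF_cov ?_
  · intro X Y h
    simp only [List.forall_mem_cons, List.not_mem_nil, false_imp_iff, implies_true, and_true] at h
    push_cast at h ⊢
    obtain ⟨h0, h1, h2, h3⟩ := h
    refine ⟨⟨?_, ?_⟩, ?_, ?_⟩ <;> linarith

theorem TF_rg45 : ROK [.l ⟨0, 3394, -2117, 137⟩ ⟨0, 0, 0, 1⟩, .l ⟨0, 353, 3984, 138⟩ ⟨0, 0, 0, 1⟩, .l ⟨0, -202, 202, 7⟩ ⟨0, 0, 0, 1⟩, .l ⟨0, -3283, -2285, 45⟩ ⟨0, 0, 0, 1⟩, .l ⟨0, 725, -3934, 94⟩ ⟨0, 0, 0, 1⟩] := by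
  refine rok_f (f := ⟨0, 0, 0, 1⟩) (by decide) (k := -1) (by decide) (Q := [(3394, -2117, 137), (353, 3984, 138), (-202, 202, 7), (-3283, -2285, 45), (725, -3934, 94)])
    (P := [⟨4208640, -3394, 2117⟩, ⟨4239360, -353, -3984⟩, ⟨215040, 202, -202⟩, ⟨1382400, 3283, 2285⟩, ⟨2887680, -725, 3934⟩]) rfl rfl
    (List.mem_of_getElem? (i := 45) rfl) TF_fr TF_cov ?_
  · intro X Y h
    simp only [List.forall_mem_cons, List.not_mem_nil, false_imp_iff, implies_true, and_true] at h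
    push_cast at h ⊢
    obtain ⟨h0, h1, h2, h3, h4⟩ := h
    refine ⟨⟨?_, ?_⟩, ?_, ?_⟩ <;> linarith

theorem TF_rg46 : ROK [.l ⟨0, 3607, -1729, -1483⟩ ⟨0, 0, 0, 1⟩, .l ⟨0, 2860, 2797, 2846⟩ ⟨0, 0, 0, 1⟩, .l ⟨0, -1421, 3739, 3601⟩ ⟨0, 0, 0, 1⟩, .l ⟨0, -999, 44, 41⟩ ⟨0, 0, 0, 1⟩] := by
  refine rok_f (f := ⟨0, 0, 0, 1⟩) (by decide) (k := -1) (by decide) (Q := [(3607, -1729, -1483), (2860, 2797, 2846), (-1421, 3739, 3601), (-999, 44, 41)])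
    (P := [⟨-45557760, -3607, 1729⟩, ⟨87429120, -2860, -2797⟩, ⟨110622720, 1421, -3739⟩, ⟨1259520, 999, -44⟩]) rfl rfl
    (List.mem_of_getElem? (i := 46) rfl) TF_fr TF_cov ?_
  · intro X Y h
    simp only [List.forall_mem_cons, List.not_mem_nil, false_imp_iff, implies_true, and_true] at h
    push_cast at h ⊢
    obtain ⟨h0, h1, h2, h3⟩ := h
    refine ⟨⟨?_, ?_⟩, ?_, ?_⟩ <;> linarith

theorem TF_rg47 : ROK [.l ⟨0, 3548, 1847, 243⟩ ⟨0, 0, 0, 1⟩, .l ⟨0, -3997, 158, 140⟩ ⟨0, 0, 0, 1⟩, .l ⟨0, -2366, -3225, -300⟩ ⟨0, 0, 0, 1⟩] := by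
  refine rok_f (f := ⟨0, 0, 0, 1⟩) (by decide) (k := -1) (by decide) (Q := [(3548, 1847, 243), (-3997, 158, 140), (-2366, -3225, -300)])
    (P := [⟨7464960, -3548, -1847⟩, ⟨4300800, 3997, -158⟩, ⟨-9216000, 2366, 3225⟩]) rfl rfl
    (List.mem_of_getElem? (i := 47) rfl) TF_fr TF_cov ?_
  · intro X Y h
    simp only [List.forall_mem_cons, List.not_mem_nil, false_imp_iff, implies_true, and_true] at h
    push_cast at h ⊢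
    obtain ⟨h0, h1, h2⟩ := h
    refine ⟨⟨?_, ?_⟩, ?_, ?_⟩ <;> linarith

end Pool.Agent.TET
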