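import Pool.Agent.Helper38_TET.TF_C

/-!
# MP_c7c9bf_co: certificates, family TF
-/

set_option autoImplicit false
set_option maxRecDepth 100000

namespace Pool.Agent.TET

theorem TF_rg48 : ROK [.l ⟨0, -3401, 2105, 1982⟩ ⟨0, 0, 0, 1⟩, .l ⟨0, -2609, -3032, -1357⟩ ⟨0, 0, 0, 1⟩, .l ⟨0, 3456, 2013, 1904⟩ ⟨0, 0, 0, 1⟩, .l ⟨0, 622, 1901, 1762⟩ ⟨0, 0, 0, 1⟩] := by
  refine rok_f (f := ⟨0, 0, 0, 1⟩) (by decide) (k := -1) (by decide) (Q := [(-3401, 2105, 1982), (-2609, -3032, -1357), (3456, 2013, 1904), (622, 1901, 1762)])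
    (P := [⟨60887040, 3401, -2105⟩, ⟨-41687040, 2609, 3032⟩, ⟨58490880, -3456, -2013⟩, ⟨54128640, -622, -1901⟩]) rfl rfl
    (List.mem_of_getElem? (i := 48) rfl) TF_fr TF_cov ?_
  · intro X Y h
    simp only [List.forall_mem_cons, List.not_mem_nil, false_imp_iff, implies_true, and_true] at h
    push_cast at h ⊢
    obtain ⟨h0, h1, h2, h3⟩ := h
    refine ⟨⟨?_, ?_⟩, ?_, ?_⟩ <;> linarith

theorem TF_rg49 : ROK [.l ⟨0, 3997, 142, 391⟩ ⟨0, 0, 0, 1⟩, .l ⟨0, 1418, 3740, 175⟩ ⟨0, 0, 0, 1⟩, .l ⟨0, -3959, -568, 42⟩ ⟨0, 0, 0, 1⟩, .l ⟨0, -1022, -3867, -6⟩ ⟨0, 0, 0, 1⟩] := by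
  refine rok_f (f := ⟨0, 0, 0, 1⟩) (by decide) (k := -1) (by decide) (Q := [(3997, 142, 391), (1418, 3740, 175), (-3959, -568, 42), (-1022, -3867, -6)])
    (P := [⟨12011520, -3997, -142⟩, ⟨5376000, -1418, -3740⟩, ⟨1290240, 3959, 568⟩, ⟨-184320, 1022, 3867⟩]) rfl rfl
    (List.mem_of_getElem? (i := 49) rfl) TF_fr TF_cov ?_
  · intro X Y h
    simp only [List.forall_mem_cons, List.not_mem_nil, false_imp_iff, implies_true, and_true] at h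
    push_cast at h ⊢
    obtain ⟨h0, h1, h2, h3⟩ := h
    refine ⟨⟨?_, ?_⟩, ?_, ?_⟩ <;> linarith

theorem TF_rg50 : ROK [.l ⟨0, -4000, 0, 127⟩ ⟨0, 0, 0, 1⟩, .l ⟨0, 2039, -3441, 8107⟩ ⟨0, 0, 0, 1⟩, .l ⟨0, 3965, -528, -367⟩ ⟨0, 0, 0, 1⟩, .l ⟨0, -1414, 1414, 1325⟩ ⟨0, 0, 0, 1⟩] := by
  refine rok_f (f := ⟨0, 0, 0, 1⟩) (by decide) (k := -1) (by decide) (Q := [(-4000, 0, 127), (2039, -3441, 8107), (3965, -528, -367), (-1414, 1414, 1325)])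
    (P := [⟨3901440, 4000, 0⟩, ⟨249047040, -2039, 3441⟩, ⟨-11274240, -3965, 528⟩, ⟨40704000, 1414, -1414⟩]) rfl rfl
    (List.mem_of_getElem? (i := 50) rfl) TF_fr TF_cov ?_
  · intro X Y h
    simp only [List.forall_mem_cons, List.not_mem_nil, false_imp_iff, implies_true, and_true] at h
    push_cast at h ⊢
    obtain ⟨h0, h1, h2, h3⟩ := h
    refine ⟨⟨?_, ?_⟩, ?_, ?_⟩ <;> linarith

theorem TF_rg51 : ROK [.l ⟨0, -507, -3968, 9⟩ ⟨0, 0, 0, 1⟩, .l ⟨0, 1996, -123, 55⟩ ⟨0, 0, 0, 1⟩, .l ⟨0, -3272, 2301, 123⟩ ⟨0, 0, 0, 1⟩, .l ⟨0, -3958, 577, 93⟩ ⟨0, 0, 0, 1⟩] := by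
  refine rok_f (f := ⟨0, 0, 0, 1⟩) (by decide) (k := -1) (by decide) (Q := [(-507, -3968, 9), (1996, -123, 55), (-3272, 2301, 123), (-3958, 577, 93)])
    (P := [⟨276480, 507, 3968⟩, ⟨1689600, -1996, 123⟩, ⟨3778560, 3272, -2301⟩, ⟨2856960, 3958, -577⟩]) rfl rfl
    (List.mem_of_getElem? (i := 51) rfl) TF_fr TF_cov ?_
  · intro X Y h
    simp only [List.forall_mem_cons, List.not_mem_nil, false_imp_iff, implies_true, and_true] at h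
    push_cast at h ⊢
    obtain ⟨h0, h1, h2, h3⟩ := h
    refine ⟨⟨?_, ?_⟩, ?_, ?_⟩ <;> linarith

theorem TF_rg52 : ROK [.l ⟨0, -1329, 108, 157⟩ ⟨0, 0, 0, 1⟩, .l ⟨0, 1309, -1512, -580⟩ ⟨0, 0, 0, 1⟩, .l ⟨0, 1718, 1024, 967⟩ ⟨0, 0, 0, 1⟩, .l ⟨0, -3009, 2635, 2463⟩ ⟨0, 0, 0, 1⟩] := by
  refine rok_f (f := ⟨0, 0, 0, 1⟩) (by decide) (k := -1) (by decide) (Q := [(-1329, 108, 157), (1309, -1512, -580), (1718, 1024, 967), (-3009, 2635, 2463)])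
    (P := [⟨4823040, 1329, -108⟩, ⟨-17817600, -1309, 1512⟩, ⟨29706240, -1718, -1024⟩, ⟨75663360, 3009, -2635⟩]) rfl rfl
    (List.mem_of_getElem? (i := 52) rfl) TF_fr TF_cov ?_
  · intro X Y h
    simp only [List.forall_mem_cons, List.not_mem_nil, false_imp_iff, implies_true, and_true] at h
    push_cast at h ⊢
    obtain ⟨h0, h1, h2, h3⟩ := h
    refine ⟨⟨?_, ?_⟩, ?_, ?_⟩ <;> linarith

theorem TF_rg53 : ROK [.l ⟨0, -98, -3999, -2364⟩ ⟨0, 0, 0, 1⟩, .l ⟨0, 1000, 0, -133⟩ ⟨0, 0, 0, 1⟩, .l ⟨0, -3708, 1499, 1654⟩ ⟨0, 0, 0, 1⟩, .l ⟨0, -500, 2, 101⟩ ⟨0, 0, 0, 1⟩] := by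
  refine rok_f (f := ⟨0, 0, 0, 1⟩) (by decide) (k := -1) (by decide) (Q := [(-98, -3999, -2364), (1000, 0, -133), (-3708, 1499, 1654), (-500, 2, 101)])
    (P := [⟨-72622080, 98, 3999⟩, ⟨-4085760, -1000, 0⟩, ⟨50810880, 3708, -1499⟩, ⟨3102720, 500, -2⟩]) rfl rfl
    (List.mem_of_getElem? (i := 53) rfl) TF_fr TF_cov ?_
  · intro X Y h
    simp only [List.forall_mem_cons, List.not_mem_nil, false_imp_iff, implies_true, and_true] at h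
    push_cast at h ⊢
    obtain ⟨h0, h1, h2, h3⟩ := h
    refine ⟨⟨?_, ?_⟩, ?_, ?_⟩ <;> linarith

theorem TF_rg54 : ROK [.l ⟨0, -1, -1000, 199⟩ ⟨0, 0, 0, 1⟩, .l ⟨0, 2000, 0, 1183⟩ ⟨0, 0, 0, 1⟩, .l ⟨0, -196, 3995, 1989⟩ ⟨0, 0, 0, 1⟩, .l ⟨0, -2659, -2989, -933⟩ ⟨0, 0, 0, 1⟩] := by
  refine rok_f (f := ⟨0, 0, 0, 1⟩) (by decide) (k := -1) (by decide) (Q := [(-1, -1000, 199), (2000, 0, 1183), (-196, 3995, 1989), (-2659, -2989, -933)])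
    (P := [⟨6113280, 1, 1000⟩, ⟨36341760, -2000, 0⟩, ⟨61102080, 196, -3995⟩, ⟨-28661760, 2659, 2989⟩]) rfl rfl
    (List.mem_of_getElem? (i := 54) rfl) TF_fr TF_cov ?_
  · intro X Y h
    simp only [List.forall_mem_cons, List.not_mem_nil, false_imp_iff, implies_true, and_true] at h
    push_cast at h ⊢
    obtain ⟨h0, h1, h2, h3⟩ := h
    refine ⟨⟨?_, ?_⟩, ?_, ?_⟩ <;> linarith

theorem TF_rg55 : ROK [.l ⟨0, 3253, 2328, 2441⟩ ⟨0, 0, 0, 1⟩, .l ⟨0, -3507, 1924, -180⟩ ⟨0, 0, 0, 1⟩, .l ⟨0, -90, -996, 11⟩ ⟨0, 0, 0, 1⟩] := by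
  refine rok_f (f := ⟨0, 0, 0, 1⟩) (by decide) (k := -1) (by decide) (Q := [(3253, 2328, 2441), (-3507, 1924, -180), (-90, -996, 11)])
    (P := [⟨74987520, -3253, -2328⟩, ⟨-5529600, 3507, -1924⟩, ⟨337920, 90, 996⟩]) rfl rfl
    (List.mem_of_getElem? (i := 55) rfl) TF_fr TF_cov ?_
  · intro X Y h
    simp only [List.forall_mem_cons, List.not_mem_nil, false_imp_iff, implies_true, and_true] at h
    push_cast at h ⊢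
    obtain ⟨h0, h1, h2⟩ := h
    refine ⟨⟨?_, ?_⟩, ?_, ?_⟩ <;> linarith

theorem TF_rg56 : ROK [.l ⟨0, 3043, 2597, 2261⟩ ⟨0, 0, 0, 1⟩, .l ⟨0, -4000, 0, 121⟩ ⟨0, 0, 0, 1⟩, .l ⟨0, -707, -707, -60⟩ ⟨0, 0, 0, 1⟩, .l ⟨0, 1155, -666, -8⟩ ⟨0, 0, 0, 1⟩] := by
  refine rok_f (f := ⟨0, 0, 0, 1⟩) (by decide) (k := -1) (by decide) (Q := [(3043, 2597, 2261), (-4000, 0, 121), (-707, -707, -60), (1155, -666, -8)])
    (P := [⟨69457920, -3043, -2597⟩, ⟨3717120, 4000, 0⟩, ⟨-1843200, 707, 707⟩, ⟨-245760, -1155, 666⟩]) rfl rfl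
    (List.mem_of_getElem? (i := 56) rfl) TF_fr TF_cov ?_
  · intro X Y h
    simp only [List.forall_mem_cons, List.not_mem_nil, false_imp_iff, implies_true, and_true] at h
    push_cast at h ⊢
    obtain ⟨h0, h1, h2, h3⟩ := h
    refine ⟨⟨?_, ?_⟩, ?_, ?_⟩ <;> linarith

theorem TF_rg57 : ROK [.l ⟨0, 0, 4000, 127⟩ ⟨0, 0, 0, 1⟩, .l ⟨0, -707, 707, -10⟩ ⟨0, 0, 0, 1⟩, .l ⟨0, 543, -1925, 38⟩ ⟨0, 0, 0, 1⟩] := by
  refine rok_f (f := ⟨0, 0, 0, 1⟩) (by decide) (k := -1) (by decide) (Q := [(0, 4000, 127), (-707, 707, -10), (543, -1925, 38)])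
    (P := [⟨3901440, 0, -4000⟩, ⟨-307200, 707, -707⟩, ⟨1167360, -543, 1925⟩]) rfl rfl
    (List.mem_of_getElem? (i := 57) rfl) TF_fr TF_cov ?_
  · intro X Y h
    simp only [List.forall_mem_cons, List.not_mem_nil, false_imp_iff, implies_true, and_true] at h
    push_cast at h ⊢
    obtain ⟨h0, h1, h2⟩ := h
    refine ⟨⟨?_, ?_⟩, ?_, ?_⟩ <;> linarith

theorem TF_rg58 : ROK [.l ⟨0, -3945, 659, 1183⟩ ⟨0, 0, 0, 1⟩, .l ⟨0, -3555, -1834, -390⟩ ⟨0, 0, 0, 1⟩, .l ⟨0, 2663, -2985, -49⟩ ⟨0, 0, 0, 1⟩, .l ⟨0, 1997, 3466, 2364⟩ ⟨0, 0, 0, 1⟩] := by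
  refine rok_f (f := ⟨0, 0, 0, 1⟩) (by decide) (k := -1) (by decide) (Q := [(-3945, 659, 1183), (-3555, -1834, -390), (2663, -2985, -49), (1997, 3466, 2364)])
    (P := [⟨36341760, 3945, -659⟩, ⟨-11980800, 3555, 1834⟩, ⟨-1505280, -2663, 2985⟩, ⟨72622080, -1997, -3466⟩]) rfl rfl
    (List.mem_of_getElem? (i := 58) rfl) TF_fr TF_cov ?_
  · intro X Y h
    simp only [List.forall_mem_cons, List.not_mem_nil, false_imp_iff, implies_true, and_true] at h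
    push_cast at h ⊢
    obtain ⟨h0, h1, h2, h3⟩ := h
    refine ⟨⟨?_, ?_⟩, ?_, ?_⟩ <;> linarith

theorem TF_rg59 : ROK [.l ⟨0, 0, 1000, 31⟩ ⟨0, 0, 0, 1⟩, .l ⟨0, -1150, 675, 23⟩ ⟨0, 0, 0, 1⟩, .l ⟨0, -710, -3937, 35⟩ ⟨0, 0, 0, 1⟩, .l ⟨0, 2828, -2828, 257⟩ ⟨0, 0, 0, 1⟩] := by
  refine rok_f (f := ⟨0, 0, 0, 1⟩) (by decide) (k := -1) (by decide) (Q := [(0, 1000, 31), (-1150, 675, 23), (-710, -3937, 35), (2828, -2828, 257)])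
    (P := [⟨952320, 0, -1000⟩, ⟨706560, 1150, -675⟩, ⟨1075200, 710, 3937⟩, ⟨7895040, -2828, 2828⟩]) rfl rfl
    (List.mem_of_getElem? (i := 59) rfl) TF_fr TF_cov ?_
  · intro X Y h
    simp only [List.forall_mem_cons, List.not_mem_nil, false_imp_iff, implies_true, and_true] at h
    push_cast at h ⊢
    obtain ⟨h0, h1, h2, h3⟩ := h
    refine ⟨⟨?_, ?_⟩, ?_, ?_⟩ <;> linarith

theorem TF_rg60 : ROK [.l ⟨0, 0, 4000, 129⟩ ⟨0, 0, 0, 1⟩, .l ⟨0, -1438, 3733, 31⟩ ⟨0, 0, 0, 1⟩, .l ⟨0, -754, -3928, 15⟩ ⟨0, 0, 0, 1⟩, .l ⟨0, 3200, -2399, 379⟩ ⟨0, 0, 0, 1⟩] := by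
  refine rok_f (f := ⟨0, 0, 0, 1⟩) (by decide) (k := -1) (by decide) (Q := [(0, 4000, 129), (-1438, 3733, 31), (-754, -3928, 15), (3200, -2399, 379)])
    (P := [⟨3962880, 0, -4000⟩, ⟨952320, 1438, -3733⟩, ⟨460800, 754, 3928⟩, ⟨11642880, -3200, 2399⟩]) rfl rfl
    (List.mem_of_getElem? (i := 60) rfl) TF_fr TF_cov ?_
  · intro X Y h
    simp only [List.forall_mem_cons, List.not_mem_nil, false_imp_iff, implies_true, and_true] at h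
    push_cast at h ⊢
    obtain ⟨h0, h1, h2, h3⟩ := h
    refine ⟨⟨?_, ?_⟩, ?_, ?_⟩ <;> linarith

theorem TF_rg61 : ROK [.l ⟨0, 0, 1000, 31⟩ ⟨0, 0, 0, 1⟩, .l ⟨0, -3395, 2115, 107⟩ ⟨0, 0, 0, 1⟩, .l ⟨0, -2572, -3064, 9⟩ ⟨0, 0, 0, 1⟩, .l ⟨0, 1814, -3565, 116⟩ ⟨0, 0, 0, 1⟩] := by
  refine rok_f (f := ⟨0, 0, 0, 1⟩) (by decide) (k := -1) (by decide) (Q := [(0, 1000, 31), (-3395, 2115, 107), (-2572, -3064, 9), (1814, -3565, 116)])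
    (P := [⟨952320, 0, -1000⟩, ⟨3287040, 3395, -2115⟩, ⟨276480, 2572, 3064⟩, ⟨3563520, -1814, 3565⟩]) rfl rfl
    (List.mem_of_getElem? (i := 61) rfl) TF_fr TF_cov ?_
  · intro X Y h
    simp only [List.forall_mem_cons, List.not_mem_nil, false_imp_iff, implies_true, and_true] at h
    push_cast at h ⊢
    obtain ⟨h0, h1, h2, h3⟩ := h
    refine ⟨⟨?_, ?_⟩, ?_, ?_⟩ <;> linarith

theorem TF_rg62 : ROK [.l ⟨0, 0, 1000, 31⟩ ⟨0, 0, 0, 1⟩, .l ⟨0, -3975, 447, -58⟩ ⟨0, 0, 0, 1⟩, .l ⟨0, 900, -3897, 98⟩ ⟨0, 0, 0, 1⟩, .l ⟨0, 2251, -3307, 125⟩ ⟨0, 0, 0, 1⟩] := by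
  refine rok_f (f := ⟨0, 0, 0, 1⟩) (by decide) (k := -1) (by decide) (Q := [(0, 1000, 31), (-3975, 447, -58), (900, -3897, 98), (2251, -3307, 125)])
    (P := [⟨952320, 0, -1000⟩, ⟨-1781760, 3975, -447⟩, ⟨3010560, -900, 3897⟩, ⟨3840000, -2251, 3307⟩]) rfl rfl
    (List.mem_of_getElem? (i := 62) rfl) TF_fr TF_cov ?_
  · intro X Y h
    simp only [List.forall_mem_cons, List.not_mem_nil, false_imp_iff, implies_true, and_true] at h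
    push_cast at h ⊢
    obtain ⟨h0, h1, h2, h3⟩ := h
    refine ⟨⟨?_, ?_⟩, ?_, ?_⟩ <;> linarith

theorem TF_rg63 : ROK [.l ⟨0, -1354, -1472, -485⟩ ⟨0, 0, 0, 1⟩, .l ⟨0, 352, -1969, 597⟩ ⟨0, 0, 0, 1⟩, .l ⟨0, 3931, 741, 2385⟩ ⟨0, 0, 0, 1⟩, .l ⟨0, 1116, 3841, 3304⟩ ⟨0, 0, 0, 1⟩, .l ⟨0, -3973, 465, 613⟩ ⟨0, 0, 0, 1⟩] := by
  refine rok_f (f := ⟨0, 0, 0, 1⟩) (by decide) (k := -1) (by decide) (Q := [(-1354, -1472, -485), (352, -1969, 597), (3931, 741, 2385), (1116, 3841, 3304), (-3973, 465, 613)])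
    (P := [⟨-14899200, 1354, 1472⟩, ⟨18339840, -352, 1969⟩, ⟨73267200, -3931, -741⟩, ⟨101498880, -1116, -3841⟩, ⟨18831360, 3973, -465⟩]) rfl rfl
    (List.mem_of_getElem? (i := 63) rfl) TF_fr TF_cov ?_
  · intro X Y h
    simp only [List.forall_mem_cons, List.not_mem_nil, false_imp_iff, implies_true, and_true] at h
    push_cast at h ⊢
    obtain ⟨h0, h1, h2, h3, h4⟩ := h
    refine ⟨⟨?_, ?_⟩, ?_, ?_⟩ <;> linarith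

theorem TF_rg64 : ROK [.l ⟨0, 2828, -2828, 89⟩ ⟨0, 0, 0, 1⟩, .l ⟨0, 1414, 1414, 97⟩ ⟨0, 0, 0, 1⟩, .l ⟨0, -125, 0, 2⟩ ⟨0, 0, 0, 1⟩, .l ⟨0, -3707, -1503, 6⟩ ⟨0, 0, 0, 1⟩] := by
  refine rok_f (f := ⟨0, 0, 0, 1⟩) (by decide) (k := -1) (by decide) (Q := [(2828, -2828, 89), (1414, 1414, 97), (-125, 0, 2), (-3707, -1503, 6)])
    (P := [⟨2734080, -2828, 2828⟩, ⟨2979840, -1414, -1414⟩, ⟨61440, 125, 0⟩, ⟨184320, 3707, 1503⟩]) rfl rfl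
    (List.mem_of_getElem? (i := 64) rfl) TF_fr TF_cov ?_
  · intro X Y h
    simp only [List.forall_mem_cons, List.not_mem_nil, false_imp_iff, implies_true, and_true] at h
    push_cast at h ⊢
    obtain ⟨h0, h1, h2, h3⟩ := h
    refine ⟨⟨?_, ?_⟩, ?_, ?_⟩ <;> linarith

theorem TF_rg65 : ROK [.l ⟨0, 697, -3939, -266⟩ ⟨0, 0, 0, 1⟩, .l ⟨0, 1864, 725, 1263⟩ ⟨0, 0, 0, 1⟩, .l ⟨0, -3381, 2137, 394⟩ ⟨0, 0, 0, 1⟩, .l ⟨0, -1255, -450, -21⟩ ⟨0, 0, 0, 1⟩] := by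
  refine rok_f (f := ⟨0, 0, 0, 1⟩) (by decide) (k := -1) (by decide) (Q := [(697, -3939, -266), (1864, 725, 1263), (-3381, 2137, 394), (-1255, -450, -21)])
    (P := [⟨-8171520, -697, 3939⟩, ⟨38799360, -1864, -725⟩, ⟨12103680, 3381, -2137⟩, ⟨-645120, 1255, 450⟩]) rfl rfl
    (List.mem_of_getElem? (i := 65) rfl) TF_fr TF_cov ?_
  · intro X Y h
    simp only [List.forall_mem_cons, List.not_mem_nil, false_imp_iff, implies_true, and_true] at h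
    push_cast at h ⊢
    obtain ⟨h0, h1, h2, h3⟩ := h
    refine ⟨⟨?_, ?_⟩, ?_, ?_⟩ <;> linarith

theorem TF_rg66 : ROK [.l ⟨0, -3116, 2509, -106⟩ ⟨0, 0, 0, 1⟩, .l ⟨0, -2828, -2828, -53⟩ ⟨0, 0, 0, 1⟩, .l ⟨0, -90, -3999, 61⟩ ⟨0, 0, 0, 1⟩, .l ⟨0, 707, 707, 65⟩ ⟨0, 0, 0, 1⟩] := by
  refine rok_f (f := ⟨0, 0, 0, 1⟩) (by decide) (k := -1) (by decide) (Q := [(-3116, 2509, -106), (-2828, -2828, -53), (-90, -3999, 61), (707, 707, 65)])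
    (P := [⟨-3256320, 3116, -2509⟩, ⟨-1628160, 2828, 2828⟩, ⟨1873920, 90, 3999⟩, ⟨1996800, -707, -707⟩]) rfl rfl
    (List.mem_of_getElem? (i := 66) rfl) TF_fr TF_cov ?_
  · intro X Y h
    simp only [List.forall_mem_cons, List.not_mem_nil, false_imp_iff, implies_true, and_true] at h
    push_cast at h ⊢
    obtain ⟨h0, h1, h2, h3⟩ := h
    refine ⟨⟨?_, ?_⟩, ?_, ?_⟩ <;> linarith

theorem TF_rg67 : ROK [.l ⟨0, 83, -493, 10⟩ ⟨0, 0, 0, 1⟩, .l ⟨0, 2775, 2881, 194⟩ ⟨0, 0, 0, 1⟩, .l ⟨0, -3669, 1593, 109⟩ ⟨0, 0, 0, 1⟩, .l ⟨0, -3786, -1291, 63⟩ ⟨0, 0, 0, 1⟩] := by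
  refine rok_f (f := ⟨0, 0, 0, 1⟩) (by decide) (k := -1) (by decide) (Q := [(83, -493, 10), (2775, 2881, 194), (-3669, 1593, 109), (-3786, -1291, 63)])
    (P := [⟨307200, -83, 493⟩, ⟨5959680, -2775, -2881⟩, ⟨3348480, 3669, -1593⟩, ⟨1935360, 3786, 1291⟩]) rfl rfl
    (List.mem_of_getElem? (i := 67) rfl) TF_fr TF_cov ?_
  · intro X Y h
    simp only [List.forall_mem_cons, List.not_mem_nil, false_imp_iff, implies_true, and_true] at h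
    push_cast at h ⊢
    obtain ⟨h0, h1, h2, h3⟩ := h
    refine ⟨⟨?_, ?_⟩, ?_, ?_⟩ <;> linarith

theorem TF_rg68 : ROK [.l ⟨0, 0, 500, 493⟩ ⟨0, 0, 0, 1⟩, .l ⟨0, -3927, 759, 805⟩ ⟨0, 0, 0, 1⟩, .l ⟨0, -3189, -2415, -2303⟩ ⟨0, 0, 0, 1⟩, .l ⟨0, 1425, -3738, -3643⟩ ⟨0, 0, 0, 1⟩] := by
  refine rok_f (f := ⟨0, 0, 0, 1⟩) (by decide) (k := -1) (by decide) (Q := [(0, 500, 493), (-3927, 759, 805), (-3189, -2415, -2303), (1425, -3738, -3643)])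
    (P := [⟨15144960, 0, -500⟩, ⟨24729600, 3927, -759⟩, ⟨-70748160, 3189, 2415⟩, ⟨-111912960, -1425, 3738⟩]) rfl rfl
    (List.mem_of_getElem? (i := 68) rfl) TF_fr TF_cov ?_
  · intro X Y h
    simp only [List.forall_mem_cons, List.not_mem_nil, false_imp_iff, implies_true, and_true] at h
    push_cast at h ⊢
    obtain ⟨h0, h1, h2, h3⟩ := h
    refine ⟨⟨?_, ?_⟩, ?_, ?_⟩ <;> linarith

theorem TF_rg69 : ROK [.l ⟨0, 3999, 97, 208⟩ ⟨0, 0, 0, 1⟩, .l ⟨0, -1414, 1414, 1325⟩ ⟨0, 0, 0, 1⟩, .l ⟨0, -3793, 1271, 1267⟩ ⟨0, 0, 0, 1⟩, .l ⟨0, 2753, -2902, -1791⟩ ⟨0, 0, 0, 1⟩] := by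
  refine rok_f (f := ⟨0, 0, 0, 1⟩) (by decide) (k := -1) (by decide) (Q := [(3999, 97, 208), (-1414, 1414, 1325), (-3793, 1271, 1267), (2753, -2902, -1791)])
    (P := [⟨6389760, -3999, -97⟩, ⟨40704000, 1414, -1414⟩, ⟨38922240, 3793, -1271⟩, ⟨-55019520, -2753, 2902⟩]) rfl rfl
    (List.mem_of_getElem? (i := 69) rfl) TF_fr TF_cov ?_
  · intro X Y h
    simp only [List.forall_mem_cons, List.not_mem_nil, false_imp_iff, implies_true, and_true] at h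
    push_cast at h ⊢
    obtain ⟨h0, h1, h2, h3⟩ := h
    refine ⟨⟨?_, ?_⟩, ?_, ?_⟩ <;> linarith

theorem TF_rg70 : ROK [.l ⟨0, 404, -404, -13⟩ ⟨0, 0, 0, 1⟩, .l ⟨0, 0, 4000, 2457⟩ ⟨0, 0, 0, 1⟩, .l ⟨0, -3986, 333, 99⟩ ⟨0, 0, 0, 1⟩, .l ⟨0, 928, -3891, -245⟩ ⟨0, 0, 0, 1⟩] := by
  refine rok_f (f := ⟨0, 0, 0, 1⟩) (by decide) (k := -1) (by decide) (Q := [(404, -404, -13), (0, 4000, 2457), (-3986, 333, 99), (928, -3891, -245)])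
    (P := [⟨-399360, -404, 404⟩, ⟨75479040, 0, -4000⟩, ⟨3041280, 3986, -333⟩, ⟨-7526400, -928, 3891⟩]) rfl rfl
    (List.mem_of_getElem? (i := 70) rfl) TF_fr TF_cov ?_
  · intro X Y h
    simp only [List.forall_mem_cons, List.not_mem_nil, false_imp_iff, implies_true, and_true] at h
    push_cast at h ⊢
    obtain ⟨h0, h1, h2, h3⟩ := h
    refine ⟨⟨?_, ?_⟩, ?_, ?_⟩ <;> linarith

theorem TF_rg71 : ROK [.l ⟨0, -1414, 1414, 201⟩ ⟨0, 0, 0, 1⟩, .l ⟨0, -3915, -819, 23⟩ ⟨0, 0, 0, 1⟩, .l ⟨0, 0, -2000, -209⟩ ⟨0, 0, 0, 1⟩, .l ⟨0, 2134, -3383, 422⟩ ⟨0, 0, 0, 1⟩, .l ⟨0, 3127, 2495, 3340⟩ ⟨0, 0, 0, 1⟩] := by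
  refine rok_f (f := ⟨0, 0, 0, 1⟩) (by decide) (k := -1) (by decide) (Q := [(-1414, 1414, 201), (-3915, -819, 23), (0, -2000, -209), (2134, -3383, 422), (3127, 2495, 3340)])
    (P := [⟨6174720, 1414, -1414⟩, ⟨706560, 3915, 819⟩, ⟨-6420480, 0, 2000⟩, ⟨12963840, -2134, 3383⟩, ⟨102604800, -3127, -2495⟩]) rfl rfl
    (List.mem_of_getElem? (i := 71) rfl) TF_fr TF_cov ?_
  · intro X Y h
    simp only [List.forall_mem_cons, List.not_mem_nil, false_imp_iff, implies_true, and_true] at h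
    push_cast at h ⊢
    obtain ⟨h0, h1, h2, h3, h4⟩ := h
    refine ⟨⟨?_, ?_⟩, ?_, ?_⟩ <;> linarith

end Pool.Agent.TET
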