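import Pool.Agent.Helper38_TET.TF_C

/-!
# MP_c7c9bf_co: certificates, family TF
-/

set_option autoImplicit false
set_option maxRecDepth 100000

namespace Pool.Agent.TET

theorem TF_rg72 : ROK [.l ⟨0, -4000, -3, 797⟩ ⟨0, 0, 0, 1⟩, .l ⟨0, 0, -250, -149⟩ ⟨0, 0, 0, 1⟩, .l ⟨0, 2783, 2873, 2627⟩ ⟨0, 0, 0, 1⟩, .l ⟨0, -2828, 2829, 2297⟩ ⟨0, 0, 0, 1⟩] := by
  refine rok_f (f := ⟨0, 0, 0, 1⟩) (by decide) (k := -1) (by decide) (Q := [(-4000, -3, 797), (0, -250, -149), (2783, 2873, 2627), (-2828, 2829, 2297)])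
    (P := [⟨24483840, 4000, 3⟩, ⟨-4577280, 0, 250⟩, ⟨80701440, -2783, -2873⟩, ⟨70563840, 2828, -2829⟩]) rfl rfl
    (List.mem_of_getElem? (i := 72) rfl) TF_fr TF_cov ?_
  · intro X Y h
    simp only [List.forall_mem_cons, List.not_mem_nil, false_imp_iff, implies_true, and_true] at h
    push_cast at h ⊢
    obtain ⟨h0, h1, h2, h3⟩ := h
    refine ⟨⟨?_, ?_⟩, ?_, ?_⟩ <;> linarith

theorem TF_rg73 : ROK [.l ⟨0, 2938, -2715, 361⟩ ⟨0, 0, 0, 1⟩, .l ⟨0, -1165, 3827, 46⟩ ⟨0, 0, 0, 1⟩, .l ⟨0, -1414, -1414, -89⟩ ⟨0, 0, 0, 1⟩, .l ⟨0, 0, -2000, 49⟩ ⟨0, 0, 0, 1⟩] := by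
  refine rok_f (f := ⟨0, 0, 0, 1⟩) (by decide) (k := -1) (by decide) (Q := [(2938, -2715, 361), (-1165, 3827, 46), (-1414, -1414, -89), (0, -2000, 49)])
    (P := [⟨11089920, -2938, 2715⟩, ⟨1413120, 1165, -3827⟩, ⟨-2734080, 1414, 1414⟩, ⟨1505280, 0, 2000⟩]) rfl rfl
    (List.mem_of_getElem? (i := 73) rfl) TF_fr TF_cov ?_
  · intro X Y h
    simp only [List.forall_mem_cons, List.not_mem_nil, false_imp_iff, implies_true, and_true] at h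
    push_cast at h ⊢
    obtain ⟨h0, h1, h2, h3⟩ := h
    refine ⟨⟨?_, ?_⟩, ?_, ?_⟩ <;> linarith

theorem TF_rg74 : ROK [.l ⟨0, 2802, -2855, 263⟩ ⟨0, 0, 0, 1⟩, .l ⟨0, 0, 1000, 31⟩ ⟨0, 0, 0, 1⟩, .l ⟨0, -2828, 2828, 43⟩ ⟨0, 0, 0, 1⟩, .l ⟨0, -643, -3948, 39⟩ ⟨0, 0, 0, 1⟩] := by
  refine rok_f (f := ⟨0, 0, 0, 1⟩) (by decide) (k := -1) (by decide) (Q := [(2802, -2855, 263), (0, 1000, 31), (-2828, 2828, 43), (-643, -3948, 39)])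
    (P := [⟨8079360, -2802, 2855⟩, ⟨952320, 0, -1000⟩, ⟨1320960, 2828, -2828⟩, ⟨1198080, 643, 3948⟩]) rfl rfl
    (List.mem_of_getElem? (i := 74) rfl) TF_fr TF_cov ?_
  · intro X Y h
    simp only [List.forall_mem_cons, List.not_mem_nil, false_imp_iff, implies_true, and_true] at h
    push_cast at h ⊢
    obtain ⟨h0, h1, h2, h3⟩ := h
    refine ⟨⟨?_, ?_⟩, ?_, ?_⟩ <;> linarith

theorem TF_rg75 : ROK [.l ⟨0, 2998, 2648, 2883⟩ ⟨0, 0, 0, 1⟩, .l ⟨0, -975, 1746, 1300⟩ ⟨0, 0, 0, 1⟩, .l ⟨0, -4000, 0, 801⟩ ⟨0, 0, 0, 1⟩, .l ⟨0, -2724, -2929, -1278⟩ ⟨0, 0, 0, 1⟩, .l ⟨0, 2981, -2667, 2317⟩ ⟨0, 0, 0, 1⟩] := by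
  refine rok_f (f := ⟨0, 0, 0, 1⟩) (by decide) (k := -1) (by decide) (Q := [(2998, 2648, 2883), (-975, 1746, 1300), (-4000, 0, 801), (-2724, -2929, -1278), (2981, -2667, 2317)])
    (P := [⟨88565760, -2998, -2648⟩, ⟨39936000, 975, -1746⟩, ⟨24606720, 4000, 0⟩, ⟨-39260160, 2724, 2929⟩, ⟨71178240, -2981, 2667⟩]) rfl rfl
    (List.mem_of_getElem? (i := 75) rfl) TF_fr TF_cov ?_
  · intro X Y h
    simp only [List.forall_mem_cons, List.not_mem_nil, false_imp_iff, implies_true, and_true] at h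
    push_cast at h ⊢
    obtain ⟨h0, h1, h2, h3, h4⟩ := h
    refine ⟨⟨?_, ?_⟩, ?_, ?_⟩ <;> linarith

theorem TF_rg76 : ROK [.l ⟨0, 2828, -2828, 2179⟩ ⟨0, 0, 0, 1⟩, .l ⟨0, 2501, 3122, 2351⟩ ⟨0, 0, 0, 1⟩, .l ⟨0, -1659, 1117, -1046⟩ ⟨0, 0, 0, 1⟩, .l ⟨0, 109, -1997, 462⟩ ⟨0, 0, 0, 1⟩] := by
  refine rok_f (f := ⟨0, 0, 0, 1⟩) (by decide) (k := -1) (by decide) (Q := [(2828, -2828, 2179), (2501, 3122, 2351), (-1659, 1117, -1046), (109, -1997, 462)])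
    (P := [⟨66938880, -2828, 2828⟩, ⟨72222720, -2501, -3122⟩, ⟨-32133120, 1659, -1117⟩, ⟨14192640, -109, 1997⟩]) rfl rfl
    (List.mem_of_getElem? (i := 76) rfl) TF_fr TF_cov ?_
  · intro X Y h
    simp only [List.forall_mem_cons, List.not_mem_nil, false_imp_iff, implies_true, and_true] at h
    push_cast at h ⊢
    obtain ⟨h0, h1, h2, h3⟩ := h
    refine ⟨⟨?_, ?_⟩, ?_, ?_⟩ <;> linarith

theorem TF_rg77 : ROK [.l ⟨0, -1779, 3583, -5⟩ ⟨0, 0, 0, 1⟩, .l ⟨0, -895, -3899, 6⟩ ⟨0, 0, 0, 1⟩, .l ⟨0, 2132, -3385, 292⟩ ⟨0, 0, 0, 1⟩, .l ⟨0, 1903, 615, 5806⟩ ⟨0, 0, 0, 1⟩] := by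
  refine rok_f (f := ⟨0, 0, 0, 1⟩) (by decide) (k := -1) (by decide) (Q := [(-1779, 3583, -5), (-895, -3899, 6), (2132, -3385, 292), (1903, 615, 5806)])
    (P := [⟨-153600, 1779, -3583⟩, ⟨184320, 895, 3899⟩, ⟨8970240, -2132, 3385⟩, ⟨178360320, -1903, -615⟩]) rfl rfl
    (List.mem_of_getElem? (i := 77) rfl) TF_fr TF_cov ?_
  · intro X Y h
    simp only [List.forall_mem_cons, List.not_mem_nil, false_imp_iff, implies_true, and_true] at h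
    push_cast at h ⊢
    obtain ⟨h0, h1, h2, h3⟩ := h
    refine ⟨⟨?_, ?_⟩, ?_, ?_⟩ <;> linarith

theorem TF_rg78 : ROK [.l ⟨0, 3674, -1581, 2258⟩ ⟨0, 0, 0, 1⟩, .l ⟨0, 166, 3997, 1656⟩ ⟨0, 0, 0, 1⟩, .l ⟨0, -4000, 23, 119⟩ ⟨0, 0, 0, 1⟩, .l ⟨0, -1414, -1414, -113⟩ ⟨0, 0, 0, 1⟩, .l ⟨0, 587, -3957, -429⟩ ⟨0, 0, 0, 1⟩] := by
  refine rok_f (f := ⟨0, 0, 0, 1⟩) (by decide) (k := -1) (by decide) (Q := [(3674, -1581, 2258), (166, 3997, 1656), (-4000, 23, 119), (-1414, -1414, -113), (587, -3957, -429)])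
    (P := [⟨69365760, -3674, 1581⟩, ⟨50872320, -166, -3997⟩, ⟨3655680, 4000, -23⟩, ⟨-3471360, 1414, 1414⟩, ⟨-13178880, -587, 3957⟩]) rfl rfl
    (List.mem_of_getElem? (i := 78) rfl) TF_fr TF_cov ?_
  · intro X Y h
    simp only [List.forall_mem_cons, List.not_mem_nil, false_imp_iff, implies_true, and_true] at h
    push_cast at h ⊢
    obtain ⟨h0, h1, h2, h3, h4⟩ := h
    refine ⟨⟨?_, ?_⟩, ?_, ?_⟩ <;> linarith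

theorem TF_rg79 : ROK [.l ⟨0, -3506, 1925, 118⟩ ⟨0, 0, 0, 1⟩, .l ⟨0, -3975, 445, 91⟩ ⟨0, 0, 0, 1⟩, .l ⟨0, -96, -3999, 1⟩ ⟨0, 0, 0, 1⟩, .l ⟨0, 3988, -315, 106⟩ ⟨0, 0, 0, 1⟩] := by
  refine rok_f (f := ⟨0, 0, 0, 1⟩) (by decide) (k := -1) (by decide) (Q := [(-3506, 1925, 118), (-3975, 445, 91), (-96, -3999, 1), (3988, -315, 106)])
    (P := [⟨3624960, 3506, -1925⟩, ⟨2795520, 3975, -445⟩, ⟨30720, 96, 3999⟩, ⟨3256320, -3988, 315⟩]) rfl rfl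
    (List.mem_of_getElem? (i := 79) rfl) TF_fr TF_cov ?_
  · intro X Y h
    simp only [List.forall_mem_cons, List.not_mem_nil, false_imp_iff, implies_true, and_true] at h
    push_cast at h ⊢
    obtain ⟨h0, h1, h2, h3⟩ := h
    refine ⟨⟨?_, ?_⟩, ?_, ?_⟩ <;> linarith

theorem TF_rg80 : ROK [.l ⟨0, -1703, 3619, 159⟩ ⟨0, 0, 0, 1⟩, .l ⟨0, -3411, -2089, -22⟩ ⟨0, 0, 0, 1⟩, .l ⟨0, 838, -3911, 93⟩ ⟨0, 0, 0, 1⟩, .l ⟨0, 2705, -2947, 137⟩ ⟨0, 0, 0, 1⟩, .l ⟨0, 3000, 2646, 193⟩ ⟨0, 0, 0, 1⟩] := by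
  refine rok_f (f := ⟨0, 0, 0, 1⟩) (by decide) (k := -1) (by decide) (Q := [(-1703, 3619, 159), (-3411, -2089, -22), (838, -3911, 93), (2705, -2947, 137), (3000, 2646, 193)])
    (P := [⟨4884480, 1703, -3619⟩, ⟨-675840, 3411, 2089⟩, ⟨2856960, -838, 3911⟩, ⟨4208640, -2705, 2947⟩, ⟨5928960, -3000, -2646⟩]) rfl rfl
    (List.mem_of_getElem? (i := 80) rfl) TF_fr TF_cov ?_
  · intro X Y h
    simp only [List.forall_mem_cons, List.not_mem_nil, false_imp_iff, implies_true, and_true] at h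
    push_cast at h ⊢
    obtain ⟨h0, h1, h2, h3, h4⟩ := h
    refine ⟨⟨?_, ?_⟩, ?_, ?_⟩ <;> linarith

theorem TF_rg81 : ROK [.l ⟨0, 3683, -1561, 2938⟩ ⟨0, 0, 0, 1⟩, .l ⟨0, 0, 2000, 359⟩ ⟨0, 0, 0, 1⟩, .l ⟨0, -3380, 2139, 342⟩ ⟨0, 0, 0, 1⟩, .l ⟨0, -3785, -1293, -33⟩ ⟨0, 0, 0, 1⟩, .l ⟨0, 0, -2000, -209⟩ ⟨0, 0, 0, 1⟩] := by
  refine rok_f (f := ⟨0, 0, 0, 1⟩) (by decide) (k := -1) (by decide) (Q := [(3683, -1561, 2938), (0, 2000, 359), (-3380, 2139, 342), (-3785, -1293, -33), (0, -2000, -209)])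
    (P := [⟨90255360, -3683, 1561⟩, ⟨11028480, 0, -2000⟩, ⟨10506240, 3380, -2139⟩, ⟨-1013760, 3785, 1293⟩, ⟨-6420480, 0, 2000⟩]) rfl rfl
    (List.mem_of_getElem? (i := 81) rfl) TF_fr TF_cov ?_
  · intro X Y h
    simp only [List.forall_mem_cons, List.not_mem_nil, false_imp_iff, implies_true, and_true] at h
    push_cast at h ⊢
    obtain ⟨h0, h1, h2, h3, h4⟩ := h
    refine ⟨⟨?_, ?_⟩, ?_, ?_⟩ <;> linarith

theorem TF_rg82 : ROK [.l ⟨0, 569, -3959, -427⟩ ⟨0, 0, 0, 1⟩, .l ⟨0, 3980, 399, 322⟩ ⟨0, 0, 0, 1⟩, .l ⟨0, 1567, 3680, 12392⟩ ⟨0, 0, 0, 1⟩, .l ⟨0, -3999, 92, 127⟩ ⟨0, 0, 0, 1⟩, .l ⟨0, -404, -404, -33⟩ ⟨0, 0, 0, 1⟩] := by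
  refine rok_f (f := ⟨0, 0, 0, 1⟩) (by decide) (k := -1) (by decide) (Q := [(569, -3959, -427), (3980, 399, 322), (1567, 3680, 12392), (-3999, 92, 127), (-404, -404, -33)])
    (P := [⟨-13117440, -569, 3959⟩, ⟨9891840, -3980, -399⟩, ⟨380682240, -1567, -3680⟩, ⟨3901440, 3999, -92⟩, ⟨-1013760, 404, 404⟩]) rfl rfl
    (List.mem_of_getElem? (i := 82) rfl) TF_fr TF_cov ?_
  · intro X Y h
    simp only [List.forall_mem_cons, List.not_mem_nil, false_imp_iff, implies_true, and_true] at h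
    push_cast at h ⊢
    obtain ⟨h0, h1, h2, h3, h4⟩ := h
    refine ⟨⟨?_, ?_⟩, ?_, ?_⟩ <;> linarith

theorem TF_rg83 : ROK [.l ⟨0, -3921, 793, 81⟩ ⟨0, 0, 0, 1⟩, .l ⟨0, -1161, -3828, 40⟩ ⟨0, 0, 0, 1⟩, .l ⟨0, 2468, -3148, 129⟩ ⟨0, 0, 0, 1⟩, .l ⟨0, 858, 3907, 157⟩ ⟨0, 0, 0, 1⟩] := by
  refine rok_f (f := ⟨0, 0, 0, 1⟩) (by decide) (k := -1) (by decide) (Q := [(-3921, 793, 81), (-1161, -3828, 40), (2468, -3148, 129), (858, 3907, 157)])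
    (P := [⟨2488320, 3921, -793⟩, ⟨1228800, 1161, 3828⟩, ⟨3962880, -2468, 3148⟩, ⟨4823040, -858, -3907⟩]) rfl rfl
    (List.mem_of_getElem? (i := 83) rfl) TF_fr TF_cov ?_
  · intro X Y h
    simp only [List.forall_mem_cons, List.not_mem_nil, false_imp_iff, implies_true, and_true] at h
    push_cast at h ⊢
    obtain ⟨h0, h1, h2, h3⟩ := h
    refine ⟨⟨?_, ?_⟩, ?_, ?_⟩ <;> linarith

theorem TF_rg84 : ROK [.l ⟨0, -893, 990, -29⟩ ⟨0, 0, 0, 1⟩, .l ⟨0, -1567, -3680, -236⟩ ⟨0, 0, 0, 1⟩, .l ⟨0, 827, -3914, 1297⟩ ⟨0, 0, 0, 1⟩, .l ⟨0, 1829, 3557, 831⟩ ⟨0, 0, 0, 1⟩] := by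
  refine rok_f (f := ⟨0, 0, 0, 1⟩) (by decide) (k := -1) (by decide) (Q := [(-893, 990, -29), (-1567, -3680, -236), (827, -3914, 1297), (1829, 3557, 831)])
    (P := [⟨-890880, 893, -990⟩, ⟨-7249920, 1567, 3680⟩, ⟨39843840, -827, 3914⟩, ⟨25528320, -1829, -3557⟩]) rfl rfl
    (List.mem_of_getElem? (i := 84) rfl) TF_fr TF_cov ?_
  · intro X Y h
    simp only [List.forall_mem_cons, List.not_mem_nil, false_imp_iff, implies_true, and_true] at h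
    push_cast at h ⊢
    obtain ⟨h0, h1, h2, h3⟩ := h
    refine ⟨⟨?_, ?_⟩, ?_, ?_⟩ <;> linarith

theorem TF_rg85 : ROK [.l ⟨0, 2419, 3186, 197⟩ ⟨0, 0, 0, 1⟩, .l ⟨0, -1414, 1414, -9⟩ ⟨0, 0, 0, 1⟩, .l ⟨0, 0, -4000, 77⟩ ⟨0, 0, 0, 1⟩, .l ⟨0, 2847, -2810, 134⟩ ⟨0, 0, 0, 1⟩] := by
  refine rok_f (f := ⟨0, 0, 0, 1⟩) (by decide) (k := -1) (by decide) (Q := [(2419, 3186, 197), (-1414, 1414, -9), (0, -4000, 77), (2847, -2810, 134)])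
    (P := [⟨6051840, -2419, -3186⟩, ⟨-276480, 1414, -1414⟩, ⟨2365440, 0, 4000⟩, ⟨4116480, -2847, 2810⟩]) rfl rfl
    (List.mem_of_getElem? (i := 85) rfl) TF_fr TF_cov ?_
  · intro X Y h
    simp only [List.forall_mem_cons, List.not_mem_nil, false_imp_iff, implies_true, and_true] at h
    push_cast at h ⊢
    obtain ⟨h0, h1, h2, h3⟩ := h
    refine ⟨⟨?_, ?_⟩, ?_, ?_⟩ <;> linarith

theorem TF_rg86 : ROK [.l ⟨0, -1886, -666, -19⟩ ⟨0, 0, 0, 1⟩, .l ⟨0, 0, -2000, -209⟩ ⟨0, 0, 0, 1⟩, .l ⟨0, 1968, 356, 439⟩ ⟨0, 0, 0, 1⟩, .l ⟨0, -991, 133, 44⟩ ⟨0, 0, 0, 1⟩] := by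
  refine rok_f (f := ⟨0, 0, 0, 1⟩) (by decide) (k := -1) (by decide) (Q := [(-1886, -666, -19), (0, -2000, -209), (1968, 356, 439), (-991, 133, 44)])
    (P := [⟨-583680, 1886, 666⟩, ⟨-6420480, 0, 2000⟩, ⟨13486080, -1968, -356⟩, ⟨1351680, 991, -133⟩]) rfl rfl
    (List.mem_of_getElem? (i := 86) rfl) TF_fr TF_cov ?_
  · intro X Y h
    simp only [List.forall_mem_cons, List.not_mem_nil, false_imp_iff, implies_true, and_true] at h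
    push_cast at h ⊢
    obtain ⟨h0, h1, h2, h3⟩ := h
    refine ⟨⟨?_, ?_⟩, ?_, ?_⟩ <;> linarith

theorem TF_rg87 : ROK [.l ⟨0, -2863, 2793, 401⟩ ⟨0, 0, 0, 1⟩, .l ⟨0, -3875, -992, 3⟩ ⟨0, 0, 0, 1⟩, .l ⟨0, 0, -2000, -209⟩ ⟨0, 0, 0, 1⟩, .l ⟨0, 2951, -2700, -295⟩ ⟨0, 0, 0, 1⟩, .l ⟨0, 3325, 2224, 12169⟩ ⟨0, 0, 0, 1⟩] := by
  refine rok_f (f := ⟨0, 0, 0, 1⟩) (by decide) (k := -1) (by decide) (Q := [(-2863, 2793, 401), (-3875, -992, 3), (0, -2000, -209), (2951, -2700, -295), (3325, 2224, 12169)])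
    (P := [⟨12318720, 2863, -2793⟩, ⟨92160, 3875, 992⟩, ⟨-6420480, 0, 2000⟩, ⟨-9062400, -2951, 2700⟩, ⟨373831680, -3325, -2224⟩]) rfl rfl
    (List.mem_of_getElem? (i := 87) rfl) TF_fr TF_cov ?_
  · intro X Y h
    simp only [List.forall_mem_cons, List.not_mem_nil, false_imp_iff, implies_true, and_true] at h
    push_cast at h ⊢
    obtain ⟨h0, h1, h2, h3, h4⟩ := h
    refine ⟨⟨?_, ?_⟩, ?_, ?_⟩ <;> linarith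

theorem TF_rg88 : ROK [.l ⟨0, 3641, -1657, 401⟩ ⟨0, 0, 0, 1⟩, .l ⟨0, 1334, 3771, 3373⟩ ⟨0, 0, 0, 1⟩, .l ⟨0, -1328, 119, -119⟩ ⟨0, 0, 0, 1⟩, .l ⟨0, -670, -3943, 37⟩ ⟨0, 0, 0, 1⟩] := by
  refine rok_f (f := ⟨0, 0, 0, 1⟩) (by decide) (k := -1) (by decide) (Q := [(3641, -1657, 401), (1334, 3771, 3373), (-1328, 119, -119), (-670, -3943, 37)])
    (P := [⟨12318720, -3641, 1657⟩, ⟨103618560, -1334, -3771⟩, ⟨-3655680, 1328, -119⟩, ⟨1136640, 670, 3943⟩]) rfl rfl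
    (List.mem_of_getElem? (i := 88) rfl) TF_fr TF_cov ?_
  · intro X Y h
    simp only [List.forall_mem_cons, List.not_mem_nil, false_imp_iff, implies_true, and_true] at h
    push_cast at h ⊢
    obtain ⟨h0, h1, h2, h3⟩ := h
    refine ⟨⟨?_, ?_⟩, ?_, ?_⟩ <;> linarith

theorem TF_rg89 : ROK [.l ⟨0, -123, 3998, 1911⟩ ⟨0, 0, 0, 1⟩, .l ⟨0, -3593, -1758, -2144⟩ ⟨0, 0, 0, 1⟩, .l ⟨0, 465, -3973, 1154⟩ ⟨0, 0, 0, 1⟩, .l ⟨0, 250, 0, 177⟩ ⟨0, 0, 0, 1⟩] := by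
  refine rok_f (f := ⟨0, 0, 0, 1⟩) (by decide) (k := -1) (by decide) (Q := [(-123, 3998, 1911), (-3593, -1758, -2144), (465, -3973, 1154), (250, 0, 177)])
    (P := [⟨58705920, 123, -3998⟩, ⟨-65863680, 3593, 1758⟩, ⟨35450880, -465, 3973⟩, ⟨5437440, -250, 0⟩]) rfl rfl
    (List.mem_of_getElem? (i := 89) rfl) TF_fr TF_cov ?_
  · intro X Y h
    simp only [List.forall_mem_cons, List.not_mem_nil, false_imp_iff, implies_true, and_true] at h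
    push_cast at h ⊢
    obtain ⟨h0, h1, h2, h3⟩ := h
    refine ⟨⟨?_, ?_⟩, ?_, ?_⟩ <;> linarith

theorem TF_rg90 : ROK [.l ⟨0, -1201, -3815, -47⟩ ⟨0, 0, 0, 1⟩, .l ⟨0, 3410, -2090, 2847⟩ ⟨0, 0, 0, 1⟩, .l ⟨0, -1288, 3787, -916⟩ ⟨0, 0, 0, 1⟩] := by
  refine rok_f (f := ⟨0, 0, 0, 1⟩) (by decide) (k := -1) (by decide) (Q := [(-1201, -3815, -47), (3410, -2090, 2847), (-1288, 3787, -916)])
    (P := [⟨-1443840, 1201, 3815⟩, ⟨87459840, -3410, 2090⟩, ⟨-28139520, 1288, -3787⟩]) rfl rfl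
    (List.mem_of_getElem? (i := 90) rfl) TF_fr TF_cov ?_
  · intro X Y h
    simp only [List.forall_mem_cons, List.not_mem_nil, false_imp_iff, implies_true, and_true] at h
    push_cast at h ⊢
    obtain ⟨h0, h1, h2⟩ := h
    refine ⟨⟨?_, ?_⟩, ?_, ?_⟩ <;> linarith

theorem TF_rg91 : ROK [.l ⟨0, 768, -3926, 1209⟩ ⟨0, 0, 0, 1⟩, .l ⟨0, 3986, 332, 2559⟩ ⟨0, 0, 0, 1⟩, .l ⟨0, 2083, 3415, 3310⟩ ⟨0, 0, 0, 1⟩, .l ⟨0, -202, 202, 155⟩ ⟨0, 0, 0, 1⟩, .l ⟨0, -803, -596, -278⟩ ⟨0, 0, 0, 1⟩] := by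
  refine rok_f (f := ⟨0, 0, 0, 1⟩) (by decide) (k := -1) (by decide) (Q := [(768, -3926, 1209), (3986, 332, 2559), (2083, 3415, 3310), (-202, 202, 155), (-803, -596, -278)])
    (P := [⟨37140480, -768, 3926⟩, ⟨78612480, -3986, -332⟩, ⟨101683200, -2083, -3415⟩, ⟨4761600, 202, -202⟩, ⟨-8540160, 803, 596⟩]) rfl rfl
    (List.mem_of_getElem? (i := 91) rfl) TF_fr TF_cov ?_
  · intro X Y h
    simp only [List.forall_mem_cons, List.not_mem_nil, false_imp_iff, implies_true, and_true] at h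
    push_cast at h ⊢
    obtain ⟨h0, h1, h2, h3, h4⟩ := h
    refine ⟨⟨?_, ?_⟩, ?_, ?_⟩ <;> linarith

theorem TF_rg92 : ROK [.l ⟨0, -3989, -293, 82⟩ ⟨0, 0, 0, 1⟩, .l ⟨0, -489, -3970, -404⟩ ⟨0, 0, 0, 1⟩, .l ⟨0, 476, -153, 63⟩ ⟨0, 0, 0, 1⟩, .l ⟨0, -2197, 3343, 1763⟩ ⟨0, 0, 0, 1⟩] := by
  refine rok_f (f := ⟨0, 0, 0, 1⟩) (by decide) (k := -1) (by decide) (Q := [(-3989, -293, 82), (-489, -3970, -404), (476, -153, 63), (-2197, 3343, 1763)])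
    (P := [⟨2519040, 3989, 293⟩, ⟨-12410880, 489, 3970⟩, ⟨1935360, -476, 153⟩, ⟨54159360, 2197, -3343⟩]) rfl rfl
    (List.mem_of_getElem? (i := 92) rfl) TF_fr TF_cov ?_
  · intro X Y h
    simp only [List.forall_mem_cons, List.not_mem_nil, false_imp_iff, implies_true, and_true] at h
    push_cast at h ⊢
    obtain ⟨h0, h1, h2, h3⟩ := h
    refine ⟨⟨?_, ?_⟩, ?_, ?_⟩ <;> linarith

theorem TF_rg93 : ROK [.l ⟨0, -2828, 2828, 351⟩ ⟨0, 0, 0, 1⟩, .l ⟨0, -1535, -1282, -84⟩ ⟨0, 0, 0, 1⟩, .l ⟨0, 3111, -2514, -71⟩ ⟨0, 0, 0, 1⟩, .l ⟨0, 287, 3990, 12382⟩ ⟨0, 0, 0, 1⟩] := by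
  refine rok_f (f := ⟨0, 0, 0, 1⟩) (by decide) (k := -1) (by decide) (Q := [(-2828, 2828, 351), (-1535, -1282, -84), (3111, -2514, -71), (287, 3990, 12382)])
    (P := [⟨10782720, 2828, -2828⟩, ⟨-2580480, 1535, 1282⟩, ⟨-2181120, -3111, 2514⟩, ⟨380375040, -287, -3990⟩]) rfl rfl
    (List.mem_of_getElem? (i := 93) rfl) TF_fr TF_cov ?_
  · intro X Y h
    simp only [List.forall_mem_cons, List.not_mem_nil, false_imp_iff, implies_true, and_true] at h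
    push_cast at h ⊢
    obtain ⟨h0, h1, h2, h3⟩ := h
    refine ⟨⟨?_, ?_⟩, ?_, ?_⟩ <;> linarith

theorem TF_rg94 : ROK [.l ⟨0, -2828, 2828, 2615⟩ ⟨0, 0, 0, 1⟩, .l ⟨0, -3863, 1037, 1126⟩ ⟨0, 0, 0, 1⟩, .l ⟨0, 0, -4000, -1613⟩ ⟨0, 0, 0, 1⟩, .l ⟨0, 4000, 0, 119⟩ ⟨0, 0, 0, 1⟩] := by
  refine rok_f (f := ⟨0, 0, 0, 1⟩) (by decide) (k := -1) (by decide) (Q := [(-2828, 2828, 2615), (-3863, 1037, 1126), (0, -4000, -1613), (4000, 0, 119)])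
    (P := [⟨80332800, 2828, -2828⟩, ⟨34590720, 3863, -1037⟩, ⟨-49551360, 0, 4000⟩, ⟨3655680, -4000, 0⟩]) rfl rfl
    (List.mem_of_getElem? (i := 94) rfl) TF_fr TF_cov ?_
  · intro X Y h
    simp only [List.forall_mem_cons, List.not_mem_nil, false_imp_iff, implies_true, and_true] at h
    push_cast at h ⊢
    obtain ⟨h0, h1, h2, h3⟩ := h
    refine ⟨⟨?_, ?_⟩, ?_, ?_⟩ <;> linarith

theorem TF_rg95 : ROK [.l ⟨0, -1127, 3838, 49⟩ ⟨0, 0, 0, 1⟩, .l ⟨0, -1647, -1135, -123⟩ ⟨0, 0, 0, 1⟩, .l ⟨0, 0, -4000, 103⟩ ⟨0, 0, 0, 1⟩, .l ⟨0, 1772, -927, 199⟩ ⟨0, 0, 0, 1⟩] := by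
  refine rok_f (f := ⟨0, 0, 0, 1⟩) (by decide) (k := -1) (by decide) (Q := [(-1127, 3838, 49), (-1647, -1135, -123), (0, -4000, 103), (1772, -927, 199)])
    (P := [⟨1505280, 1127, -3838⟩, ⟨-3778560, 1647, 1135⟩, ⟨3164160, 0, 4000⟩, ⟨6113280, -1772, 927⟩]) rfl rfl
    (List.mem_of_getElem? (i := 95) rfl) TF_fr TF_cov ?_
  · intro X Y h
    simp only [List.forall_mem_cons, List.not_mem_nil, false_imp_iff, implies_true, and_true] at h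
    push_cast at h ⊢
    obtain ⟨h0, h1, h2, h3⟩ := h
    refine ⟨⟨?_, ?_⟩, ?_, ?_⟩ <;> linarith

end Pool.Agent.TET
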