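import Pool.Agent.Helper38_TET.TF_C

/-!
# MP_c7c9bf_co: certificates, family TF
-/

set_option autoImplicit false
set_option maxRecDepth 100000

namespace Pool.Agent.TET

theorem TF_rg96 : ROK [.l ⟨0, -3998, -115, 99⟩ ⟨0, 0, 0, 1⟩, .l ⟨0, -18, -4000, -417⟩ ⟨0, 0, 0, 1⟩, .l ⟨0, 1312, 237, 141⟩ ⟨0, 0, 0, 1⟩] := by
  refine rok_f (f := ⟨0, 0, 0, 1⟩) (by decide) (k := -1) (by decide) (Q := [(-3998, -115, 99), (-18, -4000, -417), (1312, 237, 141)])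
    (P := [⟨3041280, 3998, 115⟩, ⟨-12810240, 18, 4000⟩, ⟨4331520, -1312, -237⟩]) rfl rfl
    (List.mem_of_getElem? (i := 96) rfl) TF_fr TF_cov ?_
  · intro X Y h
    simp only [List.forall_mem_cons, List.not_mem_nil, false_imp_iff, implies_true, and_true] at h
    push_cast at h ⊢
    obtain ⟨h0, h1, h2⟩ := h
    refine ⟨⟨?_, ?_⟩, ?_, ?_⟩ <;> linarith

theorem TF_rg97 : ROK [.l ⟨0, 3223, 2369, 3182⟩ ⟨0, 0, 0, 1⟩, .l ⟨0, -1303, 3782, 466⟩ ⟨0, 0, 0, 1⟩, .l ⟨0, -3862, -1040, -3⟩ ⟨0, 0, 0, 1⟩, .l ⟨0, -17, -4000, -417⟩ ⟨0, 0, 0, 1⟩] := by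
  refine rok_f (f := ⟨0, 0, 0, 1⟩) (by decide) (k := -1) (by decide) (Q := [(3223, 2369, 3182), (-1303, 3782, 466), (-3862, -1040, -3), (-17, -4000, -417)])
    (P := [⟨97751040, -3223, -2369⟩, ⟨14315520, 1303, -3782⟩, ⟨-92160, 3862, 1040⟩, ⟨-12810240, 17, 4000⟩]) rfl rfl
    (List.mem_of_getElem? (i := 97) rfl) TF_fr TF_cov ?_
  · intro X Y h
    simp only [List.forall_mem_cons, List.not_mem_nil, false_imp_iff, implies_true, and_true] at h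
    push_cast at h ⊢
    obtain ⟨h0, h1, h2, h3⟩ := h
    refine ⟨⟨?_, ?_⟩, ?_, ?_⟩ <;> linarith

theorem TF_rg98 : ROK [.l ⟨0, 248, -3992, -423⟩ ⟨0, 0, 0, 1⟩, .l ⟨0, 3914, -823, 63⟩ ⟨0, 0, 0, 1⟩, .l ⟨0, -583, 3957, 3298⟩ ⟨0, 0, 0, 1⟩, .l ⟨0, -3994, 224, 141⟩ ⟨0, 0, 0, 1⟩, .l ⟨0, -3382, -2135, -135⟩ ⟨0, 0, 0, 1⟩] := by
  refine rok_f (f := ⟨0, 0, 0, 1⟩) (by decide) (k := -1) (by decide) (Q := [(248, -3992, -423), (3914, -823, 63), (-583, 3957, 3298), (-3994, 224, 141), (-3382, -2135, -135)])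
    (P := [⟨-12994560, -248, 3992⟩, ⟨1935360, -3914, 823⟩, ⟨101314560, 583, -3957⟩, ⟨4331520, 3994, -224⟩, ⟨-4147200, 3382, 2135⟩]) rfl rfl
    (List.mem_of_getElem? (i := 98) rfl) TF_fr TF_cov ?_
  · intro X Y h
    simp only [List.forall_mem_cons, List.not_mem_nil, false_imp_iff, implies_true, and_true] at h
    push_cast at h ⊢
    obtain ⟨h0, h1, h2, h3, h4⟩ := h
    refine ⟨⟨?_, ?_⟩, ?_, ?_⟩ <;> linarith

theorem TF_rg99 : ROK [.l ⟨0, -365, -3983, -340⟩ ⟨0, 0, 0, 1⟩, .l ⟨0, 3045, 2594, 2396⟩ ⟨0, 0, 0, 1⟩, .l ⟨0, -2824, 2833, 2655⟩ ⟨0, 0, 0, 1⟩, .l ⟨0, -3987, -326, -169⟩ ⟨0, 0, 0, 1⟩] := by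
  refine rok_f (f := ⟨0, 0, 0, 1⟩) (by decide) (k := -1) (by decide) (Q := [(-365, -3983, -340), (3045, 2594, 2396), (-2824, 2833, 2655), (-3987, -326, -169)])
    (P := [⟨-10444800, 365, 3983⟩, ⟨73605120, -3045, -2594⟩, ⟨81561600, 2824, -2833⟩, ⟨-5191680, 3987, 326⟩]) rfl rfl
    (List.mem_of_getElem? (i := 99) rfl) TF_fr TF_cov ?_
  · intro X Y h
    simp only [List.forall_mem_cons, List.not_mem_nil, false_imp_iff, implies_true, and_true] at h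
    push_cast at h ⊢
    obtain ⟨h0, h1, h2, h3⟩ := h
    refine ⟨⟨?_, ?_⟩, ?_, ?_⟩ <;> linarith

theorem TF_rg100 : ROK [.l ⟨0, -2764, 2891, 357⟩ ⟨0, 0, 0, 1⟩, .l ⟨0, -3866, -1025, 1⟩ ⟨0, 0, 0, 1⟩, .l ⟨0, 1414, -1414, -155⟩ ⟨0, 0, 0, 1⟩, .l ⟨0, 2828, 2828, 9145⟩ ⟨0, 0, 0, 1⟩] := by
  refine rok_f (f := ⟨0, 0, 0, 1⟩) (by decide) (k := -1) (by decide) (Q := [(-2764, 2891, 357), (-3866, -1025, 1), (1414, -1414, -155), (2828, 2828, 9145)])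
    (P := [⟨10967040, 2764, -2891⟩, ⟨30720, 3866, 1025⟩, ⟨-4761600, -1414, 1414⟩, ⟨280934400, -2828, -2828⟩]) rfl rfl
    (List.mem_of_getElem? (i := 100) rfl) TF_fr TF_cov ?_
  · intro X Y h
    simp only [List.forall_mem_cons, List.not_mem_nil, false_imp_iff, implies_true, and_true] at h
    push_cast at h ⊢
    obtain ⟨h0, h1, h2, h3⟩ := h
    refine ⟨⟨?_, ?_⟩, ?_, ?_⟩ <;> linarith

theorem TF_rg101 : ROK [.l ⟨0, 808, -3917, 1286⟩ ⟨0, 0, 0, 1⟩, .l ⟨0, 3391, 2122, 2287⟩ ⟨0, 0, 0, 1⟩, .l ⟨0, -2201, 3340, 604⟩ ⟨0, 0, 0, 1⟩, .l ⟨0, -1890, -3525, -467⟩ ⟨0, 0, 0, 1⟩] := by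
  refine rok_f (f := ⟨0, 0, 0, 1⟩) (by decide) (k := -1) (by decide) (Q := [(808, -3917, 1286), (3391, 2122, 2287), (-2201, 3340, 604), (-1890, -3525, -467)])
    (P := [⟨39505920, -808, 3917⟩, ⟨70256640, -3391, -2122⟩, ⟨18554880, 2201, -3340⟩, ⟨-14346240, 1890, 3525⟩]) rfl rfl
    (List.mem_of_getElem? (i := 101) rfl) TF_fr TF_cov ?_
  · intro X Y h
    simp only [List.forall_mem_cons, List.not_mem_nil, false_imp_iff, implies_true, and_true] at h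
    push_cast at h ⊢
    obtain ⟨h0, h1, h2, h3⟩ := h
    refine ⟨⟨?_, ?_⟩, ?_, ?_⟩ <;> linarith

theorem TF_rg102 : ROK [.l ⟨0, 674, -3943, -434⟩ ⟨0, 0, 0, 1⟩, .l ⟨0, 1116, 3841, 478⟩ ⟨0, 0, 0, 1⟩, .l ⟨0, -3966, -523, 56⟩ ⟨0, 0, 0, 1⟩] := by
  refine rok_f (f := ⟨0, 0, 0, 1⟩) (by decide) (k := -1) (by decide) (Q := [(674, -3943, -434), (1116, 3841, 478), (-3966, -523, 56)])
    (P := [⟨-13332480, -674, 3943⟩, ⟨14684160, -1116, -3841⟩, ⟨1720320, 3966, 523⟩]) rfl rfl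
    (List.mem_of_getElem? (i := 102) rfl) TF_fr TF_cov ?_
  · intro X Y h
    simp only [List.forall_mem_cons, List.not_mem_nil, false_imp_iff, implies_true, and_true] at h
    push_cast at h ⊢
    obtain ⟨h0, h1, h2⟩ := h
    refine ⟨⟨?_, ?_⟩, ?_, ?_⟩ <;> linarith

theorem TF_rg103 : ROK [.l ⟨0, 1725, -3609, -424⟩ ⟨0, 0, 0, 1⟩, .l ⟨0, 3538, 1865, 2453⟩ ⟨0, 0, 0, 1⟩, .l ⟨0, -3709, 1498, 272⟩ ⟨0, 0, 0, 1⟩, .l ⟨0, -3604, -1736, -85⟩ ⟨0, 0, 0, 1⟩] := by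
  refine rok_f (f := ⟨0, 0, 0, 1⟩) (by decide) (k := -1) (by decide) (Q := [(1725, -3609, -424), (3538, 1865, 2453), (-3709, 1498, 272), (-3604, -1736, -85)])
    (P := [⟨-13025280, -1725, 3609⟩, ⟨75356160, -3538, -1865⟩, ⟨8355840, 3709, -1498⟩, ⟨-2611200, 3604, 1736⟩]) rfl rfl
    (List.mem_of_getElem? (i := 103) rfl) TF_fr TF_cov ?_
  · intro X Y h
    simp only [List.forall_mem_cons, List.not_mem_nil, false_imp_iff, implies_true, and_true] at h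
    push_cast at h ⊢
    obtain ⟨h0, h1, h2, h3⟩ := h
    refine ⟨⟨?_, ?_⟩, ?_, ?_⟩ <;> linarith

theorem TF_rg104 : ROK [.l ⟨0, -1935, 506, 114⟩ ⟨0, 0, 0, 1⟩, .l ⟨0, -3831, -1151, -16⟩ ⟨0, 0, 0, 1⟩, .l ⟨0, 0, -2000, -209⟩ ⟨0, 0, 0, 1⟩, .l ⟨0, 1000, 0, 169⟩ ⟨0, 0, 0, 1⟩] := by
  refine rok_f (f := ⟨0, 0, 0, 1⟩) (by decide) (k := -1) (by decide) (Q := [(-1935, 506, 114), (-3831, -1151, -16), (0, -2000, -209), (1000, 0, 169)])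
    (P := [⟨3502080, 1935, -506⟩, ⟨-491520, 3831, 1151⟩, ⟨-6420480, 0, 2000⟩, ⟨5191680, -1000, 0⟩]) rfl rfl
    (List.mem_of_getElem? (i := 104) rfl) TF_fr TF_cov ?_
  · intro X Y h
    simp only [List.forall_mem_cons, List.not_mem_nil, false_imp_iff, implies_true, and_true] at h
    push_cast at h ⊢
    obtain ⟨h0, h1, h2, h3⟩ := h
    refine ⟨⟨?_, ?_⟩, ?_, ?_⟩ <;> linarith

theorem TF_rg105 : ROK [.l ⟨0, 899, -3898, 936⟩ ⟨0, 0, 0, 1⟩, .l ⟨0, 1011, -869, 943⟩ ⟨0, 0, 0, 1⟩, .l ⟨0, 564, 1919, 530⟩ ⟨0, 0, 0, 1⟩, .l ⟨0, -3182, 2423, -1567⟩ ⟨0, 0, 0, 1⟩] := by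
  refine rok_f (f := ⟨0, 0, 0, 1⟩) (by decide) (k := -1) (by decide) (Q := [(899, -3898, 936), (1011, -869, 943), (564, 1919, 530), (-3182, 2423, -1567)])
    (P := [⟨28753920, -899, 3898⟩, ⟨28968960, -1011, 869⟩, ⟨16281600, -564, -1919⟩, ⟨-48138240, 3182, -2423⟩]) rfl rfl
    (List.mem_of_getElem? (i := 105) rfl) TF_fr TF_cov ?_
  · intro X Y h
    simp only [List.forall_mem_cons, List.not_mem_nil, false_imp_iff, implies_true, and_true] at h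
    push_cast at h ⊢
    obtain ⟨h0, h1, h2, h3⟩ := h
    refine ⟨⟨?_, ?_⟩, ?_, ?_⟩ <;> linarith

theorem TF_rg106 : ROK [.l ⟨0, -2829, 2828, -102⟩ ⟨0, 0, 0, 1⟩, .l ⟨0, -3467, -1995, -269⟩ ⟨0, 0, 0, 1⟩, .l ⟨0, 49, -4000, 108⟩ ⟨0, 0, 0, 1⟩, .l ⟨0, 800, 0, 79⟩ ⟨0, 0, 0, 1⟩] := by
  refine rok_f (f := ⟨0, 0, 0, 1⟩) (by decide) (k := -1) (by decide) (Q := [(-2829, 2828, -102), (-3467, -1995, -269), (49, -4000, 108), (800, 0, 79)])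
    (P := [⟨-3133440, 2829, -2828⟩, ⟨-8263680, 3467, 1995⟩, ⟨3317760, -49, 4000⟩, ⟨2426880, -800, 0⟩]) rfl rfl
    (List.mem_of_getElem? (i := 106) rfl) TF_fr TF_cov ?_
  · intro X Y h
    simp only [List.forall_mem_cons, List.not_mem_nil, false_imp_iff, implies_true, and_true] at h
    push_cast at h ⊢
    obtain ⟨h0, h1, h2, h3⟩ := h
    refine ⟨⟨?_, ?_⟩, ?_, ?_⟩ <;> linarith

theorem TF_rg107 : ROK [.l ⟨0, -338, -1971, -199⟩ ⟨0, 0, 0, 1⟩, .l ⟨0, 2000, 0, 1691⟩ ⟨0, 0, 0, 1⟩, .l ⟨0, 135, 3998, 1019⟩ ⟨0, 0, 0, 1⟩, .l ⟨0, -2649, 2997, 418⟩ ⟨0, 0, 0, 1⟩, .l ⟨0, -3843, -1111, -11⟩ ⟨0, 0, 0, 1⟩] := by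
  refine rok_f (f := ⟨0, 0, 0, 1⟩) (by decide) (k := -1) (by decide) (Q := [(-338, -1971, -199), (2000, 0, 1691), (135, 3998, 1019), (-2649, 2997, 418), (-3843, -1111, -11)])
    (P := [⟨-6113280, 338, 1971⟩, ⟨51947520, -2000, 0⟩, ⟨31303680, -135, -3998⟩, ⟨12840960, 2649, -2997⟩, ⟨-337920, 3843, 1111⟩]) rfl rfl
    (List.mem_of_getElem? (i := 107) rfl) TF_fr TF_cov ?_
  · intro X Y h
    simp only [List.forall_mem_cons, List.not_mem_nil, false_imp_iff, implies_true, and_true] at h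
    push_cast at h ⊢
    obtain ⟨h0, h1, h2, h3, h4⟩ := h
    refine ⟨⟨?_, ?_⟩, ?_, ?_⟩ <;> linarith

theorem TF_rg108 : ROK [.l ⟨0, -3047, -2592, -937⟩ ⟨0, 0, 0, 1⟩, .l ⟨0, 1942, 477, 543⟩ ⟨0, 0, 0, 1⟩, .l ⟨0, -2659, 2989, 2356⟩ ⟨0, 0, 0, 1⟩, .l ⟨0, -3998, 112, 865⟩ ⟨0, 0, 0, 1⟩] := by
  refine rok_f (f := ⟨0, 0, 0, 1⟩) (by decide) (k := -1) (by decide) (Q := [(-3047, -2592, -937), (1942, 477, 543), (-2659, 2989, 2356), (-3998, 112, 865)])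
    (P := [⟨-28784640, 3047, 2592⟩, ⟨16680960, -1942, -477⟩, ⟨72376320, 2659, -2989⟩, ⟨26572800, 3998, -112⟩]) rfl rfl
    (List.mem_of_getElem? (i := 108) rfl) TF_fr TF_cov ?_
  · intro X Y h
    simp only [List.forall_mem_cons, List.not_mem_nil, false_imp_iff, implies_true, and_true] at h
    push_cast at h ⊢
    obtain ⟨h0, h1, h2, h3⟩ := h
    refine ⟨⟨?_, ?_⟩, ?_, ?_⟩ <;> linarith

theorem TF_rg109 : ROK [.l ⟨0, 1233, 3805, 2772⟩ ⟨0, 0, 0, 1⟩, .l ⟨0, -3243, 2342, 2314⟩ ⟨0, 0, 0, 1⟩, .l ⟨0, -1983, -261, 226⟩ ⟨0, 0, 0, 1⟩, .l ⟨0, 510, -1934, -829⟩ ⟨0, 0, 0, 1⟩] := by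
  refine rok_f (f := ⟨0, 0, 0, 1⟩) (by decide) (k := -1) (by decide) (Q := [(1233, 3805, 2772), (-3243, 2342, 2314), (-1983, -261, 226), (510, -1934, -829)])
    (P := [⟨85155840, -1233, -3805⟩, ⟨71086080, 3243, -2342⟩, ⟨6942720, 1983, 261⟩, ⟨-25466880, -510, 1934⟩]) rfl rfl
    (List.mem_of_getElem? (i := 109) rfl) TF_fr TF_cov ?_
  · intro X Y h
    simp only [List.forall_mem_cons, List.not_mem_nil, false_imp_iff, implies_true, and_true] at h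
    push_cast at h ⊢
    obtain ⟨h0, h1, h2, h3⟩ := h
    refine ⟨⟨?_, ?_⟩, ?_, ?_⟩ <;> linarith

theorem TF_rg110 : ROK [.l ⟨0, 411, -3979, -819⟩ ⟨0, 0, 0, 1⟩, .l ⟨0, 2828, 2828, 2591⟩ ⟨0, 0, 0, 1⟩, .l ⟨0, -3111, 2515, 2359⟩ ⟨0, 0, 0, 1⟩, .l ⟨0, -4000, 0, 249⟩ ⟨0, 0, 0, 1⟩] := by
  refine rok_f (f := ⟨0, 0, 0, 1⟩) (by decide) (k := -1) (by decide) (Q := [(411, -3979, -819), (2828, 2828, 2591), (-3111, 2515, 2359), (-4000, 0, 249)])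
    (P := [⟨-25159680, -411, 3979⟩, ⟨79595520, -2828, -2828⟩, ⟨72468480, 3111, -2515⟩, ⟨7649280, 4000, 0⟩]) rfl rfl
    (List.mem_of_getElem? (i := 110) rfl) TF_fr TF_cov ?_
  · intro X Y h
    simp only [List.forall_mem_cons, List.not_mem_nil, false_imp_iff, implies_true, and_true] at h
    push_cast at h ⊢
    obtain ⟨h0, h1, h2, h3⟩ := h
    refine ⟨⟨?_, ?_⟩, ?_, ?_⟩ <;> linarith

theorem TF_rg111 : ROK [.l ⟨0, 979, -1744, -887⟩ ⟨0, 0, 0, 1⟩, .l ⟨0, 4000, 0, 119⟩ ⟨0, 0, 0, 1⟩, .l ⟨0, -2828, 2828, 2591⟩ ⟨0, 0, 0, 1⟩, .l ⟨0, -3883, 962, 1104⟩ ⟨0, 0, 0, 1⟩] := by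
  refine rok_f (f := ⟨0, 0, 0, 1⟩) (by decide) (k := -1) (by decide) (Q := [(979, -1744, -887), (4000, 0, 119), (-2828, 2828, 2591), (-3883, 962, 1104)])
    (P := [⟨-27248640, -979, 1744⟩, ⟨3655680, -4000, 0⟩, ⟨79595520, 2828, -2828⟩, ⟨33914880, 3883, -962⟩]) rfl rfl
    (List.mem_of_getElem? (i := 111) rfl) TF_fr TF_cov ?_
  · intro X Y h
    simp only [List.forall_mem_cons, List.not_mem_nil, false_imp_iff, implies_true, and_true] at h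
    push_cast at h ⊢
    obtain ⟨h0, h1, h2, h3⟩ := h
    refine ⟨⟨?_, ?_⟩, ?_, ?_⟩ <;> linarith

theorem TF_rg112 : ROK [.l ⟨0, -2828, -2828, -1179⟩ ⟨0, 0, 0, 1⟩, .l ⟨0, 3981, -392, 10573⟩ ⟨0, 0, 0, 1⟩, .l ⟨0, 3093, 2536, 1399⟩ ⟨0, 0, 0, 1⟩, .l ⟨0, -731, 1115, 852⟩ ⟨0, 0, 0, 1⟩, .l ⟨0, -2000, 0, 399⟩ ⟨0, 0, 0, 1⟩] := by
  refine rok_f (f := ⟨0, 0, 0, 1⟩) (by decide) (k := -1) (by decide) (Q := [(-2828, -2828, -1179), (3981, -392, 10573), (3093, 2536, 1399), (-731, 1115, 852), (-2000, 0, 399)])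
    (P := [⟨-36218880, 2828, 2828⟩, ⟨324802560, -3981, 392⟩, ⟨42977280, -3093, -2536⟩, ⟨26173440, 731, -1115⟩, ⟨12257280, 2000, 0⟩]) rfl rfl
    (List.mem_of_getElem? (i := 112) rfl) TF_fr TF_cov ?_
  · intro X Y h
    simp only [List.forall_mem_cons, List.not_mem_nil, false_imp_iff, implies_true, and_true] at h
    push_cast at h ⊢
    obtain ⟨h0, h1, h2, h3, h4⟩ := h
    refine ⟨⟨?_, ?_⟩, ?_, ?_⟩ <;> linarith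

theorem TF_rg113 : ROK [.l ⟨0, -742, -299, -57⟩ ⟨0, 0, 0, 1⟩, .l ⟨0, -970, -3881, 7⟩ ⟨0, 0, 0, 1⟩, .l ⟨0, 3280, -2289, 382⟩ ⟨0, 0, 0, 1⟩, .l ⟨0, 2828, 2828, 271⟩ ⟨0, 0, 0, 1⟩] := by
  refine rok_f (f := ⟨0, 0, 0, 1⟩) (by decide) (k := -1) (by decide) (Q := [(-742, -299, -57), (-970, -3881, 7), (3280, -2289, 382), (2828, 2828, 271)])
    (P := [⟨-1751040, 742, 299⟩, ⟨215040, 970, 3881⟩, ⟨11735040, -3280, 2289⟩, ⟨8325120, -2828, -2828⟩]) rfl rfl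
    (List.mem_of_getElem? (i := 113) rfl) TF_fr TF_cov ?_
  · intro X Y h
    simp only [List.forall_mem_cons, List.not_mem_nil, false_imp_iff, implies_true, and_true] at h
    push_cast at h ⊢
    obtain ⟨h0, h1, h2, h3⟩ := h
    refine ⟨⟨?_, ?_⟩, ?_, ?_⟩ <;> linarith

theorem TF_rg114 : ROK [.l ⟨0, -1825, 3559, 3253⟩ ⟨0, 0, 0, 1⟩, .l ⟨0, -3381, 2138, 2036⟩ ⟨0, 0, 0, 1⟩, .l ⟨0, 1327, -3774, -3195⟩ ⟨0, 0, 0, 1⟩, .l ⟨0, 3486, 1962, 1861⟩ ⟨0, 0, 0, 1⟩] := by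
  refine rok_f (f := ⟨0, 0, 0, 1⟩) (by decide) (k := -1) (by decide) (Q := [(-1825, 3559, 3253), (-3381, 2138, 2036), (1327, -3774, -3195), (3486, 1962, 1861)])
    (P := [⟨99932160, 1825, -3559⟩, ⟨62545920, 3381, -2138⟩, ⟨-98150400, -1327, 3774⟩, ⟨57169920, -3486, -1962⟩]) rfl rfl
    (List.mem_of_getElem? (i := 114) rfl) TF_fr TF_cov ?_
  · intro X Y h
    simp only [List.forall_mem_cons, List.not_mem_nil, false_imp_iff, implies_true, and_true] at h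
    push_cast at h ⊢
    obtain ⟨h0, h1, h2, h3⟩ := h
    refine ⟨⟨?_, ?_⟩, ?_, ?_⟩ <;> linarith

theorem TF_rg115 : ROK [.l ⟨0, -814, 1827, 1690⟩ ⟨0, 0, 0, 1⟩, .l ⟨0, -3329, 2218, 2103⟩ ⟨0, 0, 0, 1⟩, .l ⟨0, -2870, -2786, -2209⟩ ⟨0, 0, 0, 1⟩, .l ⟨0, 3773, 1327, 1306⟩ ⟨0, 0, 0, 1⟩] := by
  refine rok_f (f := ⟨0, 0, 0, 1⟩) (by decide) (k := -1) (by decide) (Q := [(-814, 1827, 1690), (-3329, 2218, 2103), (-2870, -2786, -2209), (3773, 1327, 1306)])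
    (P := [⟨51916800, 814, -1827⟩, ⟨64604160, 3329, -2218⟩, ⟨-67860480, 2870, 2786⟩, ⟨40120320, -3773, -1327⟩]) rfl rfl
    (List.mem_of_getElem? (i := 115) rfl) TF_fr TF_cov ?_
  · intro X Y h
    simp only [List.forall_mem_cons, List.not_mem_nil, false_imp_iff, implies_true, and_true] at h
    push_cast at h ⊢
    obtain ⟨h0, h1, h2, h3⟩ := h
    refine ⟨⟨?_, ?_⟩, ?_, ?_⟩ <;> linarith

theorem TF_rg116 : ROK [.l ⟨0, 0, -2000, -209⟩ ⟨0, 0, 0, 1⟩, .l ⟨0, 707, 707, 589⟩ ⟨0, 0, 0, 1⟩, .l ⟨0, -3999, -101, 103⟩ ⟨0, 0, 0, 1⟩, .l ⟨0, -2975, -2674, -198⟩ ⟨0, 0, 0, 1⟩] := by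
  refine rok_f (f := ⟨0, 0, 0, 1⟩) (by decide) (k := -1) (by decide) (Q := [(0, -2000, -209), (707, 707, 589), (-3999, -101, 103), (-2975, -2674, -198)])
    (P := [⟨-6420480, 0, 2000⟩, ⟨18094080, -707, -707⟩, ⟨3164160, 3999, 101⟩, ⟨-6082560, 2975, 2674⟩]) rfl rfl
    (List.mem_of_getElem? (i := 116) rfl) TF_fr TF_cov ?_
  · intro X Y h
    simp only [List.forall_mem_cons, List.not_mem_nil, false_imp_iff, implies_true, and_true] at h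
    push_cast at h ⊢
    obtain ⟨h0, h1, h2, h3⟩ := h
    refine ⟨⟨?_, ?_⟩, ?_, ?_⟩ <;> linarith

theorem TF_rg117 : ROK [.l ⟨0, 1213, -3812, 97⟩ ⟨0, 0, 0, 1⟩, .l ⟨0, 316, 3987, 94⟩ ⟨0, 0, 0, 1⟩, .l ⟨0, -2000, 0, 41⟩ ⟨0, 0, 0, 1⟩, .l ⟨0, -1557, -3684, 76⟩ ⟨0, 0, 0, 1⟩] := by
  refine rok_f (f := ⟨0, 0, 0, 1⟩) (by decide) (k := -1) (by decide) (Q := [(1213, -3812, 97), (316, 3987, 94), (-2000, 0, 41), (-1557, -3684, 76)])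
    (P := [⟨2979840, -1213, 3812⟩, ⟨2887680, -316, -3987⟩, ⟨1259520, 2000, 0⟩, ⟨2334720, 1557, 3684⟩]) rfl rfl
    (List.mem_of_getElem? (i := 117) rfl) TF_fr TF_cov ?_
  · intro X Y h
    simp only [List.forall_mem_cons, List.not_mem_nil, false_imp_iff, implies_true, and_true] at h
    push_cast at h ⊢
    obtain ⟨h0, h1, h2, h3⟩ := h
    refine ⟨⟨?_, ?_⟩, ?_, ?_⟩ <;> linarith

theorem TF_rg118 : ROK [.l ⟨0, -3916, 815, 877⟩ ⟨0, 0, 0, 1⟩, .l ⟨0, -1088, -3849, -1286⟩ ⟨0, 0, 0, 1⟩, .l ⟨0, 3752, 1387, 1359⟩ ⟨0, 0, 0, 1⟩, .l ⟨0, -1414, 1414, 1317⟩ ⟨0, 0, 0, 1⟩] := by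
  refine rok_f (f := ⟨0, 0, 0, 1⟩) (by decide) (k := -1) (by decide) (Q := [(-3916, 815, 877), (-1088, -3849, -1286), (3752, 1387, 1359), (-1414, 1414, 1317)])
    (P := [⟨26941440, 3916, -815⟩, ⟨-39505920, 1088, 3849⟩, ⟨41748480, -3752, -1387⟩, ⟨40458240, 1414, -1414⟩]) rfl rfl
    (List.mem_of_getElem? (i := 118) rfl) TF_fr TF_cov ?_
  · intro X Y h
    simp only [List.forall_mem_cons, List.not_mem_nil, false_imp_iff, implies_true, and_true] at h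
    push_cast at h ⊢
    obtain ⟨h0, h1, h2, h3⟩ := h
    refine ⟨⟨?_, ?_⟩, ?_, ?_⟩ <;> linarith

theorem TF_rg119 : ROK [.l ⟨0, 2828, 2828, 2591⟩ ⟨0, 0, 0, 1⟩, .l ⟨0, -3803, 1241, -2511⟩ ⟨0, 0, 0, 1⟩, .l ⟨0, 1868, -3537, 1811⟩ ⟨0, 0, 0, 1⟩, .l ⟨0, 3899, -894, 3486⟩ ⟨0, 0, 0, 1⟩] := by
  refine rok_f (f := ⟨0, 0, 0, 1⟩) (by decide) (k := -1) (by decide) (Q := [(2828, 2828, 2591), (-3803, 1241, -2511), (1868, -3537, 1811), (3899, -894, 3486)])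
    (P := [⟨79595520, -2828, -2828⟩, ⟨-77137920, 3803, -1241⟩, ⟨55633920, -1868, 3537⟩, ⟨107089920, -3899, 894⟩]) rfl rfl
    (List.mem_of_getElem? (i := 119) rfl) TF_fr TF_cov ?_
  · intro X Y h
    simp only [List.forall_mem_cons, List.not_mem_nil, false_imp_iff, implies_true, and_true] at h
    push_cast at h ⊢
    obtain ⟨h0, h1, h2, h3⟩ := h
    refine ⟨⟨?_, ?_⟩, ?_, ?_⟩ <;> linarith

end Pool.Agent.TET
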