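import Pool.Agent.Helper38_TET.TF_C

/-!
# MP_c7c9bf_co: certificates, family TF
-/

set_option autoImplicit false
set_option maxRecDepth 100000

namespace Pool.Agent.TET

theorem TF_rg120 : ROK [.l ⟨0, -2430, -3177, -1070⟩ ⟨0, 0, 0, 1⟩, .l ⟨0, 3327, -2221, -1756⟩ ⟨0, 0, 0, 1⟩, .l ⟨0, 382, 1963, 932⟩ ⟨0, 0, 0, 1⟩, .l ⟨0, -125, 0, 26⟩ ⟨0, 0, 0, 1⟩] := by
  refine rok_f (f := ⟨0, 0, 0, 1⟩) (by decide) (k := -1) (by decide) (Q := [(-2430, -3177, -1070), (3327, -2221, -1756), (382, 1963, 932), (-125, 0, 26)])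
    (P := [⟨-32870400, 2430, 3177⟩, ⟨-53944320, -3327, 2221⟩, ⟨28631040, -382, -1963⟩, ⟨798720, 125, 0⟩]) rfl rfl
    (List.mem_of_getElem? (i := 120) rfl) TF_fr TF_cov ?_
  · intro X Y h
    simp only [List.forall_mem_cons, List.not_mem_nil, false_imp_iff, implies_true, and_true] at h
    push_cast at h ⊢
    obtain ⟨h0, h1, h2, h3⟩ := h
    refine ⟨⟨?_, ?_⟩, ?_, ?_⟩ <;> linarith

theorem TF_rg121 : ROK [.l ⟨0, 3809, -1222, 2196⟩ ⟨0, 0, 0, 1⟩, .l ⟨0, 1924, 3507, 3035⟩ ⟨0, 0, 0, 1⟩, .l ⟨0, -3961, -559, -1847⟩ ⟨0, 0, 0, 1⟩, .l ⟨0, -97, -3999, 784⟩ ⟨0, 0, 0, 1⟩] := by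
  refine rok_f (f := ⟨0, 0, 0, 1⟩) (by decide) (k := -1) (by decide) (Q := [(3809, -1222, 2196), (1924, 3507, 3035), (-3961, -559, -1847), (-97, -3999, 784)])
    (P := [⟨67461120, -3809, 1222⟩, ⟨93235200, -1924, -3507⟩, ⟨-56739840, 3961, 559⟩, ⟨24084480, 97, 3999⟩]) rfl rfl
    (List.mem_of_getElem? (i := 121) rfl) TF_fr TF_cov ?_
  · intro X Y h
    simp only [List.forall_mem_cons, List.not_mem_nil, false_imp_iff, implies_true, and_true] at h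
    push_cast at h ⊢
    obtain ⟨h0, h1, h2, h3⟩ := h
    refine ⟨⟨?_, ?_⟩, ?_, ?_⟩ <;> linarith

theorem TF_rg122 : ROK [.l ⟨0, 923, 3892, 1966⟩ ⟨0, 0, 0, 1⟩, .l ⟨0, -3713, -1487, -1530⟩ ⟨0, 0, 0, 1⟩, .l ⟨0, -1111, -3843, 247⟩ ⟨0, 0, 0, 1⟩, .l ⟨0, 1173, -634, 715⟩ ⟨0, 0, 0, 1⟩] := by
  refine rok_f (f := ⟨0, 0, 0, 1⟩) (by decide) (k := -1) (by decide) (Q := [(923, 3892, 1966), (-3713, -1487, -1530), (-1111, -3843, 247), (1173, -634, 715)])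
    (P := [⟨60395520, -923, -3892⟩, ⟨-47001600, 3713, 1487⟩, ⟨7587840, 1111, 3843⟩, ⟨21964800, -1173, 634⟩]) rfl rfl
    (List.mem_of_getElem? (i := 122) rfl) TF_fr TF_cov ?_
  · intro X Y h
    simp only [List.forall_mem_cons, List.not_mem_nil, false_imp_iff, implies_true, and_true] at h
    push_cast at h ⊢
    obtain ⟨h0, h1, h2, h3⟩ := h
    refine ⟨⟨?_, ?_⟩, ?_, ?_⟩ <;> linarith

theorem TF_rg123 : ROK [.l ⟨0, -509, 1934, -640⟩ ⟨0, 0, 0, 1⟩, .l ⟨0, -2915, -2739, -876⟩ ⟨0, 0, 0, 1⟩, .l ⟨0, -422, -3978, 617⟩ ⟨0, 0, 0, 1⟩, .l ⟨0, 3950, 633, 1877⟩ ⟨0, 0, 0, 1⟩] := by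
  refine rok_f (f := ⟨0, 0, 0, 1⟩) (by decide) (k := -1) (by decide) (Q := [(-509, 1934, -640), (-2915, -2739, -876), (-422, -3978, 617), (3950, 633, 1877)])
    (P := [⟨-19660800, 509, -1934⟩, ⟨-26910720, 2915, 2739⟩, ⟨18954240, 422, 3978⟩, ⟨57661440, -3950, -633⟩]) rfl rfl
    (List.mem_of_getElem? (i := 123) rfl) TF_fr TF_cov ?_
  · intro X Y h
    simp only [List.forall_mem_cons, List.not_mem_nil, false_imp_iff, implies_true, and_true] at h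
    push_cast at h ⊢
    obtain ⟨h0, h1, h2, h3⟩ := h
    refine ⟨⟨?_, ?_⟩, ?_, ?_⟩ <;> linarith

theorem TF_rg124 : ROK [.l ⟨0, -3999, -73, 796⟩ ⟨0, 0, 0, 1⟩, .l ⟨0, 1389, -3751, -2149⟩ ⟨0, 0, 0, 1⟩, .l ⟨0, 3430, 2057, 331⟩ ⟨0, 0, 0, 1⟩] := by
  refine rok_f (f := ⟨0, 0, 0, 1⟩) (by decide) (k := -1) (by decide) (Q := [(-3999, -73, 796), (1389, -3751, -2149), (3430, 2057, 331)])
    (P := [⟨24453120, 3999, 73⟩, ⟨-66017280, -1389, 3751⟩, ⟨10168320, -3430, -2057⟩]) rfl rfl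
    (List.mem_of_getElem? (i := 124) rfl) TF_fr TF_cov ?_
  · intro X Y h
    simp only [List.forall_mem_cons, List.not_mem_nil, false_imp_iff, implies_true, and_true] at h
    push_cast at h ⊢
    obtain ⟨h0, h1, h2⟩ := h
    refine ⟨⟨?_, ?_⟩, ?_, ?_⟩ <;> linarith

theorem TF_rg125 : ROK [.l ⟨0, 3971, -484, 2587⟩ ⟨0, 0, 0, 1⟩, .l ⟨0, 2733, 2921, 3395⟩ ⟨0, 0, 0, 1⟩, .l ⟨0, -3365, 2163, -1246⟩ ⟨0, 0, 0, 1⟩, .l ⟨0, -76, -1331, 106⟩ ⟨0, 0, 0, 1⟩] := by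
  refine rok_f (f := ⟨0, 0, 0, 1⟩) (by decide) (k := -1) (by decide) (Q := [(3971, -484, 2587), (2733, 2921, 3395), (-3365, 2163, -1246), (-76, -1331, 106)])
    (P := [⟨79472640, -3971, 484⟩, ⟨104294400, -2733, -2921⟩, ⟨-38277120, 3365, -2163⟩, ⟨3256320, 76, 1331⟩]) rfl rfl
    (List.mem_of_getElem? (i := 125) rfl) TF_fr TF_cov ?_
  · intro X Y h
    simp only [List.forall_mem_cons, List.not_mem_nil, false_imp_iff, implies_true, and_true] at h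
    push_cast at h ⊢
    obtain ⟨h0, h1, h2, h3⟩ := h
    refine ⟨⟨?_, ?_⟩, ?_, ?_⟩ <;> linarith

theorem TF_rg126 : ROK [.l ⟨0, 11, -800, 172⟩ ⟨0, 0, 0, 1⟩, .l ⟨0, 3335, -2208, 2177⟩ ⟨0, 0, 0, 1⟩, .l ⟨0, -108, 1997, 425⟩ ⟨0, 0, 0, 1⟩, .l ⟨0, -3654, -1627, -1475⟩ ⟨0, 0, 0, 1⟩] := by
  refine rok_f (f := ⟨0, 0, 0, 1⟩) (by decide) (k := -1) (by decide) (Q := [(11, -800, 172), (3335, -2208, 2177), (-108, 1997, 425), (-3654, -1627, -1475)])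
    (P := [⟨5283840, -11, 800⟩, ⟨66877440, -3335, 2208⟩, ⟨13056000, 108, -1997⟩, ⟨-45312000, 3654, 1627⟩]) rfl rfl
    (List.mem_of_getElem? (i := 126) rfl) TF_fr TF_cov ?_
  · intro X Y h
    simp only [List.forall_mem_cons, List.not_mem_nil, false_imp_iff, implies_true, and_true] at h
    push_cast at h ⊢
    obtain ⟨h0, h1, h2, h3⟩ := h
    refine ⟨⟨?_, ?_⟩, ?_, ?_⟩ <;> linarith

theorem TF_rg127 : ROK [.l ⟨0, -4000, 23, 844⟩ ⟨0, 0, 0, 1⟩, .l ⟨0, -2303, -3271, -1143⟩ ⟨0, 0, 0, 1⟩, .l ⟨0, 3975, -448, -1018⟩ ⟨0, 0, 0, 1⟩, .l ⟨0, 1482, 1343, 383⟩ ⟨0, 0, 0, 1⟩] := by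
  refine rok_f (f := ⟨0, 0, 0, 1⟩) (by decide) (k := -1) (by decide) (Q := [(-4000, 23, 844), (-2303, -3271, -1143), (3975, -448, -1018), (1482, 1343, 383)])
    (P := [⟨25927680, 4000, -23⟩, ⟨-35112960, 2303, 3271⟩, ⟨-31272960, -3975, 448⟩, ⟨11765760, -1482, -1343⟩]) rfl rfl
    (List.mem_of_getElem? (i := 127) rfl) TF_fr TF_cov ?_
  · intro X Y h
    simp only [List.forall_mem_cons, List.not_mem_nil, false_imp_iff, implies_true, and_true] at h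
    push_cast at h ⊢
    obtain ⟨h0, h1, h2, h3⟩ := h
    refine ⟨⟨?_, ?_⟩, ?_, ?_⟩ <;> linarith

theorem TF_rg128 : ROK [.l ⟨0, -1245, 3801, 407⟩ ⟨0, 0, 0, 1⟩, .l ⟨0, -3999, -70, 94⟩ ⟨0, 0, 0, 1⟩, .l ⟨0, -1412, -3742, -295⟩ ⟨0, 0, 0, 1⟩, .l ⟨0, 3926, 766, 179⟩ ⟨0, 0, 0, 1⟩] := by
  refine rok_f (f := ⟨0, 0, 0, 1⟩) (by decide) (k := -1) (by decide) (Q := [(-1245, 3801, 407), (-3999, -70, 94), (-1412, -3742, -295), (3926, 766, 179)])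
    (P := [⟨12503040, 1245, -3801⟩, ⟨2887680, 3999, 70⟩, ⟨-9062400, 1412, 3742⟩, ⟨5498880, -3926, -766⟩]) rfl rfl
    (List.mem_of_getElem? (i := 128) rfl) TF_fr TF_cov ?_
  · intro X Y h
    simp only [List.forall_mem_cons, List.not_mem_nil, false_imp_iff, implies_true, and_true] at h
    push_cast at h ⊢
    obtain ⟨h0, h1, h2, h3⟩ := h
    refine ⟨⟨?_, ?_⟩, ?_, ?_⟩ <;> linarith

theorem TF_rg129 : ROK [.l ⟨0, -3886, -947, -319⟩ ⟨0, 0, 0, 1⟩, .l ⟨0, -266, -3991, 76⟩ ⟨0, 0, 0, 1⟩, .l ⟨0, 1269, -409, 136⟩ ⟨0, 0, 0, 1⟩, .l ⟨0, -2828, 2828, -95⟩ ⟨0, 0, 0, 1⟩] := by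
  refine rok_f (f := ⟨0, 0, 0, 1⟩) (by decide) (k := -1) (by decide) (Q := [(-3886, -947, -319), (-266, -3991, 76), (1269, -409, 136), (-2828, 2828, -95)])
    (P := [⟨-9799680, 3886, 947⟩, ⟨2334720, 266, 3991⟩, ⟨4177920, -1269, 409⟩, ⟨-2918400, 2828, -2828⟩]) rfl rfl
    (List.mem_of_getElem? (i := 129) rfl) TF_fr TF_cov ?_
  · intro X Y h
    simp only [List.forall_mem_cons, List.not_mem_nil, false_imp_iff, implies_true, and_true] at h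
    push_cast at h ⊢
    obtain ⟨h0, h1, h2, h3⟩ := h
    refine ⟨⟨?_, ?_⟩, ?_, ?_⟩ <;> linarith

theorem TF_rg130 : ROK [.l ⟨0, 1008, 3871, 2755⟩ ⟨0, 0, 0, 1⟩, .l ⟨0, -323, 167, -17⟩ ⟨0, 0, 0, 1⟩, .l ⟨0, -2806, -2851, -186⟩ ⟨0, 0, 0, 1⟩, .l ⟨0, 468, -3973, 146⟩ ⟨0, 0, 0, 1⟩, .l ⟨0, 707, -707, 88⟩ ⟨0, 0, 0, 1⟩] := by
  refine rok_f (f := ⟨0, 0, 0, 1⟩) (by decide) (k := -1) (by decide) (Q := [(1008, 3871, 2755), (-323, 167, -17), (-2806, -2851, -186), (468, -3973, 146), (707, -707, 88)])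
    (P := [⟨84633600, -1008, -3871⟩, ⟨-522240, 323, -167⟩, ⟨-5713920, 2806, 2851⟩, ⟨4485120, -468, 3973⟩, ⟨2703360, -707, 707⟩]) rfl rfl
    (List.mem_of_getElem? (i := 130) rfl) TF_fr TF_cov ?_
  · intro X Y h
    simp only [List.forall_mem_cons, List.not_mem_nil, false_imp_iff, implies_true, and_true] at h
    push_cast at h ⊢
    obtain ⟨h0, h1, h2, h3, h4⟩ := h
    refine ⟨⟨?_, ?_⟩, ?_, ?_⟩ <;> linarith

theorem TF_rg131 : ROK [.l ⟨0, -3293, -2270, -754⟩ ⟨0, 0, 0, 1⟩, .l ⟨0, 3331, -2214, 1174⟩ ⟨0, 0, 0, 1⟩, .l ⟨0, 698, 3939, 2355⟩ ⟨0, 0, 0, 1⟩, .l ⟨0, -3987, 328, 1003⟩ ⟨0, 0, 0, 1⟩] := by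
  refine rok_f (f := ⟨0, 0, 0, 1⟩) (by decide) (k := -1) (by decide) (Q := [(-3293, -2270, -754), (3331, -2214, 1174), (698, 3939, 2355), (-3987, 328, 1003)])
    (P := [⟨-23162880, 3293, 2270⟩, ⟨36065280, -3331, 2214⟩, ⟨72345600, -698, -3939⟩, ⟨30812160, 3987, -328⟩]) rfl rfl
    (List.mem_of_getElem? (i := 131) rfl) TF_fr TF_cov ?_
  · intro X Y h
    simp only [List.forall_mem_cons, List.not_mem_nil, false_imp_iff, implies_true, and_true] at h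
    push_cast at h ⊢
    obtain ⟨h0, h1, h2, h3⟩ := h
    refine ⟨⟨?_, ?_⟩, ?_, ?_⟩ <;> linarith

theorem TF_rg132 : ROK [.l ⟨0, -2589, 3049, 366⟩ ⟨0, 0, 0, 1⟩, .l ⟨0, -3714, -1485, -47⟩ ⟨0, 0, 0, 1⟩, .l ⟨0, 1237, -3804, -231⟩ ⟨0, 0, 0, 1⟩, .l ⟨0, 712, 3936, 1801⟩ ⟨0, 0, 0, 1⟩] := by
  refine rok_f (f := ⟨0, 0, 0, 1⟩) (by decide) (k := -1) (by decide) (Q := [(-2589, 3049, 366), (-3714, -1485, -47), (1237, -3804, -231), (712, 3936, 1801)])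
    (P := [⟨11243520, 2589, -3049⟩, ⟨-1443840, 3714, 1485⟩, ⟨-7096320, -1237, 3804⟩, ⟨55326720, -712, -3936⟩]) rfl rfl
    (List.mem_of_getElem? (i := 132) rfl) TF_fr TF_cov ?_
  · intro X Y h
    simp only [List.forall_mem_cons, List.not_mem_nil, false_imp_iff, implies_true, and_true] at h
    push_cast at h ⊢
    obtain ⟨h0, h1, h2, h3⟩ := h
    refine ⟨⟨?_, ?_⟩, ?_, ?_⟩ <;> linarith

theorem TF_rg133 : ROK [.l ⟨0, 3977, 426, 505⟩ ⟨0, 0, 0, 1⟩, .l ⟨0, -264, 1307, 1195⟩ ⟨0, 0, 0, 1⟩, .l ⟨0, -3545, 1853, 1783⟩ ⟨0, 0, 0, 1⟩, .l ⟨0, -707, -707, -269⟩ ⟨0, 0, 0, 1⟩] := by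
  refine rok_f (f := ⟨0, 0, 0, 1⟩) (by decide) (k := -1) (by decide) (Q := [(3977, 426, 505), (-264, 1307, 1195), (-3545, 1853, 1783), (-707, -707, -269)])
    (P := [⟨15513600, -3977, -426⟩, ⟨36710400, 264, -1307⟩, ⟨54773760, 3545, -1853⟩, ⟨-8263680, 707, 707⟩]) rfl rfl
    (List.mem_of_getElem? (i := 133) rfl) TF_fr TF_cov ?_
  · intro X Y h
    simp only [List.forall_mem_cons, List.not_mem_nil, false_imp_iff, implies_true, and_true] at h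
    push_cast at h ⊢
    obtain ⟨h0, h1, h2, h3⟩ := h
    refine ⟨⟨?_, ?_⟩, ?_, ?_⟩ <;> linarith

theorem TF_rg134 : ROK [.l ⟨0, -3286, -2281, -153⟩ ⟨0, 0, 0, 1⟩, .l ⟨0, 1192, -1606, -199⟩ ⟨0, 0, 0, 1⟩, .l ⟨0, 2828, 2828, 2591⟩ ⟨0, 0, 0, 1⟩, .l ⟨0, -3995, 193, 137⟩ ⟨0, 0, 0, 1⟩] := by
  refine rok_f (f := ⟨0, 0, 0, 1⟩) (by decide) (k := -1) (by decide) (Q := [(-3286, -2281, -153), (1192, -1606, -199), (2828, 2828, 2591), (-3995, 193, 137)])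
    (P := [⟨-4700160, 3286, 2281⟩, ⟨-6113280, -1192, 1606⟩, ⟨79595520, -2828, -2828⟩, ⟨4208640, 3995, -193⟩]) rfl rfl
    (List.mem_of_getElem? (i := 134) rfl) TF_fr TF_cov ?_
  · intro X Y h
    simp only [List.forall_mem_cons, List.not_mem_nil, false_imp_iff, implies_true, and_true] at h
    push_cast at h ⊢
    obtain ⟨h0, h1, h2, h3⟩ := h
    refine ⟨⟨?_, ?_⟩, ?_, ?_⟩ <;> linarith

theorem TF_rg135 : ROK [.l ⟨0, -3236, -2351, -162⟩ ⟨0, 0, 0, 1⟩, .l ⟨0, 2828, -2828, -369⟩ ⟨0, 0, 0, 1⟩, .l ⟨0, 580, 551, 506⟩ ⟨0, 0, 0, 1⟩, .l ⟨0, -3988, 316, 151⟩ ⟨0, 0, 0, 1⟩] := by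
  refine rok_f (f := ⟨0, 0, 0, 1⟩) (by decide) (k := -1) (by decide) (Q := [(-3236, -2351, -162), (2828, -2828, -369), (580, 551, 506), (-3988, 316, 151)])
    (P := [⟨-4976640, 3236, 2351⟩, ⟨-11335680, -2828, 2828⟩, ⟨15544320, -580, -551⟩, ⟨4638720, 3988, -316⟩]) rfl rfl
    (List.mem_of_getElem? (i := 135) rfl) TF_fr TF_cov ?_
  · intro X Y h
    simp only [List.forall_mem_cons, List.not_mem_nil, false_imp_iff, implies_true, and_true] at h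
    push_cast at h ⊢
    obtain ⟨h0, h1, h2, h3⟩ := h
    refine ⟨⟨?_, ?_⟩, ?_, ?_⟩ <;> linarith

theorem TF_rg136 : ROK [.l ⟨0, 4000, 0, 121⟩ ⟨0, 0, 0, 1⟩, .l ⟨0, 1546, 3689, 324⟩ ⟨0, 0, 0, 1⟩, .l ⟨0, -3999, 91, 112⟩ ⟨0, 0, 0, 1⟩, .l ⟨0, -2953, -2698, -174⟩ ⟨0, 0, 0, 1⟩] := by
  refine rok_f (f := ⟨0, 0, 0, 1⟩) (by decide) (k := -1) (by decide) (Q := [(4000, 0, 121), (1546, 3689, 324), (-3999, 91, 112), (-2953, -2698, -174)])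
    (P := [⟨3717120, -4000, 0⟩, ⟨9953280, -1546, -3689⟩, ⟨3440640, 3999, -91⟩, ⟨-5345280, 2953, 2698⟩]) rfl rfl
    (List.mem_of_getElem? (i := 136) rfl) TF_fr TF_cov ?_
  · intro X Y h
    simp only [List.forall_mem_cons, List.not_mem_nil, false_imp_iff, implies_true, and_true] at h
    push_cast at h ⊢
    obtain ⟨h0, h1, h2, h3⟩ := h
    refine ⟨⟨?_, ?_⟩, ?_, ?_⟩ <;> linarith

theorem TF_rg137 : ROK [.l ⟨0, 3979, -409, 1628⟩ ⟨0, 0, 0, 1⟩, .l ⟨0, -481, 3971, 2608⟩ ⟨0, 0, 0, 1⟩, .l ⟨0, -400, 3, 82⟩ ⟨0, 0, 0, 1⟩, .l ⟨0, -418, -3978, -2391⟩ ⟨0, 0, 0, 1⟩] := by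
  refine rok_f (f := ⟨0, 0, 0, 1⟩) (by decide) (k := -1) (by decide) (Q := [(3979, -409, 1628), (-481, 3971, 2608), (-400, 3, 82), (-418, -3978, -2391)])
    (P := [⟨50012160, -3979, 409⟩, ⟨80117760, 481, -3971⟩, ⟨2519040, 400, -3⟩, ⟨-73451520, 418, 3978⟩]) rfl rfl
    (List.mem_of_getElem? (i := 137) rfl) TF_fr TF_cov ?_
  · intro X Y h
    simp only [List.forall_mem_cons, List.not_mem_nil, false_imp_iff, implies_true, and_true] at h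
    push_cast at h ⊢
    obtain ⟨h0, h1, h2, h3⟩ := h
    refine ⟨⟨?_, ?_⟩, ?_, ?_⟩ <;> linarith

theorem TF_rg138 : ROK [.l ⟨0, -3148, 2468, -137⟩ ⟨0, 0, 0, 1⟩, .l ⟨0, -1903, -3518, -86⟩ ⟨0, 0, 0, 1⟩, .l ⟨0, 0, -4000, 103⟩ ⟨0, 0, 0, 1⟩, .l ⟨0, 1946, 461, 180⟩ ⟨0, 0, 0, 1⟩] := by
  refine rok_f (f := ⟨0, 0, 0, 1⟩) (by decide) (k := -1) (by decide) (Q := [(-3148, 2468, -137), (-1903, -3518, -86), (0, -4000, 103), (1946, 461, 180)])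
    (P := [⟨-4208640, 3148, -2468⟩, ⟨-2641920, 1903, 3518⟩, ⟨3164160, 0, 4000⟩, ⟨5529600, -1946, -461⟩]) rfl rfl
    (List.mem_of_getElem? (i := 138) rfl) TF_fr TF_cov ?_
  · intro X Y h
    simp only [List.forall_mem_cons, List.not_mem_nil, false_imp_iff, implies_true, and_true] at h
    push_cast at h ⊢
    obtain ⟨h0, h1, h2, h3⟩ := h
    refine ⟨⟨?_, ?_⟩, ?_, ?_⟩ <;> linarith

theorem TF_rg139 : ROK [.l ⟨0, -3903, 877, 1329⟩ ⟨0, 0, 0, 1⟩, .l ⟨0, -3836, -1134, 61⟩ ⟨0, 0, 0, 1⟩, .l ⟨0, 1370, -3758, -1945⟩ ⟨0, 0, 0, 1⟩, .l ⟨0, 0, 2000, 1403⟩ ⟨0, 0, 0, 1⟩] := by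
  refine rok_f (f := ⟨0, 0, 0, 1⟩) (by decide) (k := -1) (by decide) (Q := [(-3903, 877, 1329), (-3836, -1134, 61), (1370, -3758, -1945), (0, 2000, 1403)])
    (P := [⟨40826880, 3903, -877⟩, ⟨1873920, 3836, 1134⟩, ⟨-59750400, -1370, 3758⟩, ⟨43100160, 0, -2000⟩]) rfl rfl
    (List.mem_of_getElem? (i := 139) rfl) TF_fr TF_cov ?_
  · intro X Y h
    simp only [List.forall_mem_cons, List.not_mem_nil, false_imp_iff, implies_true, and_true] at h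
    push_cast at h ⊢
    obtain ⟨h0, h1, h2, h3⟩ := h
    refine ⟨⟨?_, ?_⟩, ?_, ?_⟩ <;> linarith

theorem TF_rg140 : ROK [.l ⟨0, 3746, -1403, -126⟩ ⟨0, 0, 0, 1⟩, .l ⟨0, 2828, 2828, 12245⟩ ⟨0, 0, 0, 1⟩, .l ⟨0, -3671, 1588, 287⟩ ⟨0, 0, 0, 1⟩, .l ⟨0, -3943, -674, 39⟩ ⟨0, 0, 0, 1⟩, .l ⟨0, -29, -4000, -417⟩ ⟨0, 0, 0, 1⟩] := by
  refine rok_f (f := ⟨0, 0, 0, 1⟩) (by decide) (k := -1) (by decide) (Q := [(3746, -1403, -126), (2828, 2828, 12245), (-3671, 1588, 287), (-3943, -674, 39), (-29, -4000, -417)])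
    (P := [⟨-3870720, -3746, 1403⟩, ⟨376166400, -2828, -2828⟩, ⟨8816640, 3671, -1588⟩, ⟨1198080, 3943, 674⟩, ⟨-12810240, 29, 4000⟩]) rfl rfl
    (List.mem_of_getElem? (i := 140) rfl) TF_fr TF_cov ?_
  · intro X Y h
    simp only [List.forall_mem_cons, List.not_mem_nil, false_imp_iff, implies_true, and_true] at h
    push_cast at h ⊢
    obtain ⟨h0, h1, h2, h3, h4⟩ := h
    refine ⟨⟨?_, ?_⟩, ?_, ?_⟩ <;> linarith

theorem TF_rg141 : ROK [.l ⟨0, 1403, 3746, 97⟩ ⟨0, 0, 0, 1⟩, .l ⟨0, -2555, 3077, 11672⟩ ⟨0, 0, 0, 1⟩, .l ⟨0, -1841, -3551, -87⟩ ⟨0, 0, 0, 1⟩, .l ⟨0, 2858, -2799, 355⟩ ⟨0, 0, 0, 1⟩] := by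
  refine rok_f (f := ⟨0, 0, 0, 1⟩) (by decide) (k := -1) (by decide) (Q := [(1403, 3746, 97), (-2555, 3077, 11672), (-1841, -3551, -87), (2858, -2799, 355)])
    (P := [⟨2979840, -1403, -3746⟩, ⟨358563840, 2555, -3077⟩, ⟨-2672640, 1841, 3551⟩, ⟨10905600, -2858, 2799⟩]) rfl rfl
    (List.mem_of_getElem? (i := 141) rfl) TF_fr TF_cov ?_
  · intro X Y h
    simp only [List.forall_mem_cons, List.not_mem_nil, false_imp_iff, implies_true, and_true] at h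
    push_cast at h ⊢
    obtain ⟨h0, h1, h2, h3⟩ := h
    refine ⟨⟨?_, ?_⟩, ?_, ?_⟩ <;> linarith

theorem TF_rg142 : ROK [.l ⟨0, 3466, 1997, 360⟩ ⟨0, 0, 0, 1⟩, .l ⟨0, -4000, -15, -417⟩ ⟨0, 0, 0, 1⟩, .l ⟨0, -703, -3938, 34⟩ ⟨0, 0, 0, 1⟩] := by
  refine rok_f (f := ⟨0, 0, 0, 1⟩) (by decide) (k := -1) (by decide) (Q := [(3466, 1997, 360), (-4000, -15, -417), (-703, -3938, 34)])
    (P := [⟨11059200, -3466, -1997⟩, ⟨-12810240, 4000, 15⟩, ⟨1044480, 703, 3938⟩]) rfl rfl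
    (List.mem_of_getElem? (i := 142) rfl) TF_fr TF_cov ?_
  · intro X Y h
    simp only [List.forall_mem_cons, List.not_mem_nil, false_imp_iff, implies_true, and_true] at h
    push_cast at h ⊢
    obtain ⟨h0, h1, h2⟩ := h
    refine ⟨⟨?_, ?_⟩, ?_, ?_⟩ <;> linarith

theorem TF_rg143 : ROK [.l ⟨0, -3737, -1428, -308⟩ ⟨0, 0, 0, 1⟩, .l ⟨0, 49, -4000, 108⟩ ⟨0, 0, 0, 1⟩, .l ⟨0, 3120, -2503, 373⟩ ⟨0, 0, 0, 1⟩, .l ⟨0, -1389, 3751, 29⟩ ⟨0, 0, 0, 1⟩] := by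
  refine rok_f (f := ⟨0, 0, 0, 1⟩) (by decide) (k := -1) (by decide) (Q := [(-3737, -1428, -308), (49, -4000, 108), (3120, -2503, 373), (-1389, 3751, 29)])
    (P := [⟨-9461760, 3737, 1428⟩, ⟨3317760, -49, 4000⟩, ⟨11458560, -3120, 2503⟩, ⟨890880, 1389, -3751⟩]) rfl rfl
    (List.mem_of_getElem? (i := 143) rfl) TF_fr TF_cov ?_
  · intro X Y h
    simp only [List.forall_mem_cons, List.not_mem_nil, false_imp_iff, implies_true, and_true] at h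
    push_cast at h ⊢
    obtain ⟨h0, h1, h2, h3⟩ := h
    refine ⟨⟨?_, ?_⟩, ?_, ?_⟩ <;> linarith

end Pool.Agent.TET
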