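import Pool.Agent.Helper38_TET.TF_C

/-!
# MP_c7c9bf_co: certificates, family TF
-/

set_option autoImplicit false
set_option maxRecDepth 100000

namespace Pool.Agent.TET

theorem TF_rg144 : ROK [.l ⟨0, -3379, -2141, -119⟩ ⟨0, 0, 0, 1⟩, .l ⟨0, 707, -707, -9⟩ ⟨0, 0, 0, 1⟩, .l ⟨0, 707, 707, 53⟩ ⟨0, 0, 0, 1⟩, .l ⟨0, -2828, 2828, 351⟩ ⟨0, 0, 0, 1⟩] := by
  refine rok_f (f := ⟨0, 0, 0, 1⟩) (by decide) (k := -1) (by decide) (Q := [(-3379, -2141, -119), (707, -707, -9), (707, 707, 53), (-2828, 2828, 351)])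
    (P := [⟨-3655680, 3379, 2141⟩, ⟨-276480, -707, 707⟩, ⟨1628160, -707, -707⟩, ⟨10782720, 2828, -2828⟩]) rfl rfl
    (List.mem_of_getElem? (i := 144) rfl) TF_fr TF_cov ?_
  · intro X Y h
    simp only [List.forall_mem_cons, List.not_mem_nil, false_imp_iff, implies_true, and_true] at h
    push_cast at h ⊢
    obtain ⟨h0, h1, h2, h3⟩ := h
    refine ⟨⟨?_, ?_⟩, ?_, ?_⟩ <;> linarith

theorem TF_rg145 : ROK [.l ⟨0, 1019, 1721, 143⟩ ⟨0, 0, 0, 1⟩, .l ⟨0, -4000, 16, 105⟩ ⟨0, 0, 0, 1⟩, .l ⟨0, 0, -250, -23⟩ ⟨0, 0, 0, 1⟩] := by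
  refine rok_f (f := ⟨0, 0, 0, 1⟩) (by decide) (k := -1) (by decide) (Q := [(1019, 1721, 143), (-4000, 16, 105), (0, -250, -23)])
    (P := [⟨4392960, -1019, -1721⟩, ⟨3225600, 4000, -16⟩, ⟨-706560, 0, 250⟩]) rfl rfl
    (List.mem_of_getElem? (i := 145) rfl) TF_fr TF_cov ?_
  · intro X Y h
    simp only [List.forall_mem_cons, List.not_mem_nil, false_imp_iff, implies_true, and_true] at h
    push_cast at h ⊢
    obtain ⟨h0, h1, h2⟩ := h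
    refine ⟨⟨?_, ?_⟩, ?_, ?_⟩ <;> linarith

theorem TF_rg146 : ROK [.l ⟨0, 0, 4000, 3577⟩ ⟨0, 0, 0, 1⟩, .l ⟨0, -1725, 1012, 969⟩ ⟨0, 0, 0, 1⟩, .l ⟨0, 2123, -3390, -2958⟩ ⟨0, 0, 0, 1⟩] := by
  refine rok_f (f := ⟨0, 0, 0, 1⟩) (by decide) (k := -1) (by decide) (Q := [(0, 4000, 3577), (-1725, 1012, 969), (2123, -3390, -2958)])
    (P := [⟨109885440, 0, -4000⟩, ⟨29767680, 1725, -1012⟩, ⟨-90869760, -2123, 3390⟩]) rfl rfl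
    (List.mem_of_getElem? (i := 146) rfl) TF_fr TF_cov ?_
  · intro X Y h
    simp only [List.forall_mem_cons, List.not_mem_nil, false_imp_iff, implies_true, and_true] at h
    push_cast at h ⊢
    obtain ⟨h0, h1, h2⟩ := h
    refine ⟨⟨?_, ?_⟩, ?_, ?_⟩ <;> linarith

theorem TF_rg147 : ROK [.l ⟨0, -2614, 3027, 366⟩ ⟨0, 0, 0, 1⟩, .l ⟨0, -3994, -223, 84⟩ ⟨0, 0, 0, 1⟩, .l ⟨0, 142, -3997, -390⟩ ⟨0, 0, 0, 1⟩, .l ⟨0, 3632, 1676, 3363⟩ ⟨0, 0, 0, 1⟩, .l ⟨0, 275, 1981, 1221⟩ ⟨0, 0, 0, 1⟩] := by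
  refine rok_f (f := ⟨0, 0, 0, 1⟩) (by decide) (k := -1) (by decide) (Q := [(-2614, 3027, 366), (-3994, -223, 84), (142, -3997, -390), (3632, 1676, 3363), (275, 1981, 1221)])
    (P := [⟨11243520, 2614, -3027⟩, ⟨2580480, 3994, 223⟩, ⟨-11980800, -142, 3997⟩, ⟨103311360, -3632, -1676⟩, ⟨37509120, -275, -1981⟩]) rfl rfl
    (List.mem_of_getElem? (i := 147) rfl) TF_fr TF_cov ?_
  · intro X Y h
    simp only [List.forall_mem_cons, List.not_mem_nil, false_imp_iff, implies_true, and_true] at h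
    push_cast at h ⊢
    obtain ⟨h0, h1, h2, h3, h4⟩ := h
    refine ⟨⟨?_, ?_⟩, ?_, ?_⟩ <;> linarith

theorem TF_rg148 : ROK [.l ⟨0, 2915, -2739, 357⟩ ⟨0, 0, 0, 1⟩, .l ⟨0, 2504, 3119, 193⟩ ⟨0, 0, 0, 1⟩, .l ⟨0, -2345, 3241, 274⟩ ⟨0, 0, 0, 1⟩, .l ⟨0, -2506, -3117, -161⟩ ⟨0, 0, 0, 1⟩] := by
  refine rok_f (f := ⟨0, 0, 0, 1⟩) (by decide) (k := -1) (by decide) (Q := [(2915, -2739, 357), (2504, 3119, 193), (-2345, 3241, 274), (-2506, -3117, -161)])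
    (P := [⟨10967040, -2915, 2739⟩, ⟨5928960, -2504, -3119⟩, ⟨8417280, 2345, -3241⟩, ⟨-4945920, 2506, 3117⟩]) rfl rfl
    (List.mem_of_getElem? (i := 148) rfl) TF_fr TF_cov ?_
  · intro X Y h
    simp only [List.forall_mem_cons, List.not_mem_nil, false_imp_iff, implies_true, and_true] at h
    push_cast at h ⊢
    obtain ⟨h0, h1, h2, h3⟩ := h
    refine ⟨⟨?_, ?_⟩, ?_, ?_⟩ <;> linarith

theorem TF_rg149 : ROK [.l ⟨0, 2121, -3392, -146⟩ ⟨0, 0, 0, 1⟩, .l ⟨0, 2337, 3247, 281⟩ ⟨0, 0, 0, 1⟩, .l ⟨0, -3017, 2626, 336⟩ ⟨0, 0, 0, 1⟩, .l ⟨0, -3003, -2642, -177⟩ ⟨0, 0, 0, 1⟩] := by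
  refine rok_f (f := ⟨0, 0, 0, 1⟩) (by decide) (k := -1) (by decide) (Q := [(2121, -3392, -146), (2337, 3247, 281), (-3017, 2626, 336), (-3003, -2642, -177)])
    (P := [⟨-4485120, -2121, 3392⟩, ⟨8632320, -2337, -3247⟩, ⟨10321920, 3017, -2626⟩, ⟨-5437440, 3003, 2642⟩]) rfl rfl
    (List.mem_of_getElem? (i := 149) rfl) TF_fr TF_cov ?_
  · intro X Y h
    simp only [List.forall_mem_cons, List.not_mem_nil, false_imp_iff, implies_true, and_true] at h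
    push_cast at h ⊢
    obtain ⟨h0, h1, h2, h3⟩ := h
    refine ⟨⟨?_, ?_⟩, ?_, ?_⟩ <;> linarith

theorem TF_rg150 : ROK [.l ⟨0, 2088, 3412, 239⟩ ⟨0, 0, 0, 1⟩, .l ⟨0, -3415, -2083, -277⟩ ⟨0, 0, 0, 1⟩, .l ⟨0, 446, -3975, 149⟩ ⟨0, 0, 0, 1⟩, .l ⟨0, 2991, -2656, 364⟩ ⟨0, 0, 0, 1⟩] := by
  refine rok_f (f := ⟨0, 0, 0, 1⟩) (by decide) (k := -1) (by decide) (Q := [(2088, 3412, 239), (-3415, -2083, -277), (446, -3975, 149), (2991, -2656, 364)])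
    (P := [⟨7342080, -2088, -3412⟩, ⟨-8509440, 3415, 2083⟩, ⟨4577280, -446, 3975⟩, ⟨11182080, -2991, 2656⟩]) rfl rfl
    (List.mem_of_getElem? (i := 150) rfl) TF_fr TF_cov ?_
  · intro X Y h
    simp only [List.forall_mem_cons, List.not_mem_nil, false_imp_iff, implies_true, and_true] at h
    push_cast at h ⊢
    obtain ⟨h0, h1, h2, h3⟩ := h
    refine ⟨⟨?_, ?_⟩, ?_, ?_⟩ <;> linarith

theorem TF_rg151 : ROK [.l ⟨0, 1557, -1255, 186⟩ ⟨0, 0, 0, 1⟩, .l ⟨0, 404, 404, 477⟩ ⟨0, 0, 0, 1⟩, .l ⟨0, -1086, 3850, 2573⟩ ⟨0, 0, 0, 1⟩, .l ⟨0, -4000, 0, -387⟩ ⟨0, 0, 0, 1⟩, .l ⟨0, 0, -2000, 53⟩ ⟨0, 0, 0, 1⟩] := by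
  refine rok_f (f := ⟨0, 0, 0, 1⟩) (by decide) (k := -1) (by decide) (Q := [(1557, -1255, 186), (404, 404, 477), (-1086, 3850, 2573), (-4000, 0, -387), (0, -2000, 53)])
    (P := [⟨5713920, -1557, 1255⟩, ⟨14653440, -404, -404⟩, ⟨79042560, 1086, -3850⟩, ⟨-11888640, 4000, 0⟩, ⟨1628160, 0, 2000⟩]) rfl rfl
    (List.mem_of_getElem? (i := 151) rfl) TF_fr TF_cov ?_
  · intro X Y h
    simp only [List.forall_mem_cons, List.not_mem_nil, false_imp_iff, implies_true, and_true] at h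
    push_cast at h ⊢
    obtain ⟨h0, h1, h2, h3, h4⟩ := h
    refine ⟨⟨?_, ?_⟩, ?_, ?_⟩ <;> linarith

theorem TF_rg152 : ROK [.l ⟨0, -3412, -2088, -275⟩ ⟨0, 0, 0, 1⟩, .l ⟨0, 0, -2000, 53⟩ ⟨0, 0, 0, 1⟩, .l ⟨0, 1870, -709, 202⟩ ⟨0, 0, 0, 1⟩, .l ⟨0, -2565, 3069, -76⟩ ⟨0, 0, 0, 1⟩] := by
  refine rok_f (f := ⟨0, 0, 0, 1⟩) (by decide) (k := -1) (by decide) (Q := [(-3412, -2088, -275), (0, -2000, 53), (1870, -709, 202), (-2565, 3069, -76)])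
    (P := [⟨-8448000, 3412, 2088⟩, ⟨1628160, 0, 2000⟩, ⟨6205440, -1870, 709⟩, ⟨-2334720, 2565, -3069⟩]) rfl rfl
    (List.mem_of_getElem? (i := 152) rfl) TF_fr TF_cov ?_
  · intro X Y h
    simp only [List.forall_mem_cons, List.not_mem_nil, false_imp_iff, implies_true, and_true] at h
    push_cast at h ⊢
    obtain ⟨h0, h1, h2, h3⟩ := h
    refine ⟨⟨?_, ?_⟩, ?_, ?_⟩ <;> linarith

theorem TF_rg153 : ROK [.l ⟨0, -1309, 1512, 183⟩ ⟨0, 0, 0, 1⟩, .l ⟨0, -2000, 0, 53⟩ ⟨0, 0, 0, 1⟩, .l ⟨0, 106, -3999, -389⟩ ⟨0, 0, 0, 1⟩, .l ⟨0, 4000, 0, 2311⟩ ⟨0, 0, 0, 1⟩] := by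
  refine rok_f (f := ⟨0, 0, 0, 1⟩) (by decide) (k := -1) (by decide) (Q := [(-1309, 1512, 183), (-2000, 0, 53), (106, -3999, -389), (4000, 0, 2311)])
    (P := [⟨5621760, 1309, -1512⟩, ⟨1628160, 2000, 0⟩, ⟨-11950080, -106, 3999⟩, ⟨70993920, -4000, 0⟩]) rfl rfl
    (List.mem_of_getElem? (i := 153) rfl) TF_fr TF_cov ?_
  · intro X Y h
    simp only [List.forall_mem_cons, List.not_mem_nil, false_imp_iff, implies_true, and_true] at h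
    push_cast at h ⊢
    obtain ⟨h0, h1, h2, h3⟩ := h
    refine ⟨⟨?_, ?_⟩, ?_, ?_⟩ <;> linarith

theorem TF_rg154 : ROK [.l ⟨0, 707, 707, 53⟩ ⟨0, 0, 0, 1⟩, .l ⟨0, -1843, 777, 123⟩ ⟨0, 0, 0, 1⟩, .l ⟨0, -3999, -109, 93⟩ ⟨0, 0, 0, 1⟩, .l ⟨0, 941, -3888, -383⟩ ⟨0, 0, 0, 1⟩] := by
  refine rok_f (f := ⟨0, 0, 0, 1⟩) (by decide) (k := -1) (by decide) (Q := [(707, 707, 53), (-1843, 777, 123), (-3999, -109, 93), (941, -3888, -383)])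
    (P := [⟨1628160, -707, -707⟩, ⟨3778560, 1843, -777⟩, ⟨2856960, 3999, 109⟩, ⟨-11765760, -941, 3888⟩]) rfl rfl
    (List.mem_of_getElem? (i := 154) rfl) TF_fr TF_cov ?_
  · intro X Y h
    simp only [List.forall_mem_cons, List.not_mem_nil, false_imp_iff, implies_true, and_true] at h
    push_cast at h ⊢
    obtain ⟨h0, h1, h2, h3⟩ := h
    refine ⟨⟨?_, ?_⟩, ?_, ?_⟩ <;> linarith

theorem TF_rg155 : ROK [.l ⟨0, 1258, 3797, 211⟩ ⟨0, 0, 0, 1⟩, .l ⟨0, -3624, -1693, -306⟩ ⟨0, 0, 0, 1⟩, .l ⟨0, 0, -2000, 53⟩ ⟨0, 0, 0, 1⟩, .l ⟨0, 2987, -2660, 364⟩ ⟨0, 0, 0, 1⟩] := by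
  refine rok_f (f := ⟨0, 0, 0, 1⟩) (by decide) (k := -1) (by decide) (Q := [(1258, 3797, 211), (-3624, -1693, -306), (0, -2000, 53), (2987, -2660, 364)])
    (P := [⟨6481920, -1258, -3797⟩, ⟨-9400320, 3624, 1693⟩, ⟨1628160, 0, 2000⟩, ⟨11182080, -2987, 2660⟩]) rfl rfl
    (List.mem_of_getElem? (i := 155) rfl) TF_fr TF_cov ?_
  · intro X Y h
    simp only [List.forall_mem_cons, List.not_mem_nil, false_imp_iff, implies_true, and_true] at h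
    push_cast at h ⊢
    obtain ⟨h0, h1, h2, h3⟩ := h
    refine ⟨⟨?_, ?_⟩, ?_, ?_⟩ <;> linarith

theorem TF_rg156 : ROK [.l ⟨0, 2830, -2827, 353⟩ ⟨0, 0, 0, 1⟩, .l ⟨0, 3826, 1168, 2825⟩ ⟨0, 0, 0, 1⟩, .l ⟨0, -3375, 2148, -361⟩ ⟨0, 0, 0, 1⟩, .l ⟨0, -1889, 657, -191⟩ ⟨0, 0, 0, 1⟩, .l ⟨0, 0, -4000, 103⟩ ⟨0, 0, 0, 1⟩] := by
  refine rok_f (f := ⟨0, 0, 0, 1⟩) (by decide) (k := -1) (by decide) (Q := [(2830, -2827, 353), (3826, 1168, 2825), (-3375, 2148, -361), (-1889, 657, -191), (0, -4000, 103)])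
    (P := [⟨10844160, -2830, 2827⟩, ⟨86784000, -3826, -1168⟩, ⟨-11089920, 3375, -2148⟩, ⟨-5867520, 1889, -657⟩, ⟨3164160, 0, 4000⟩]) rfl rfl
    (List.mem_of_getElem? (i := 156) rfl) TF_fr TF_cov ?_
  · intro X Y h
    simp only [List.forall_mem_cons, List.not_mem_nil, false_imp_iff, implies_true, and_true] at h
    push_cast at h ⊢
    obtain ⟨h0, h1, h2, h3, h4⟩ := h
    refine ⟨⟨?_, ?_⟩, ?_, ?_⟩ <;> linarith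

theorem TF_rg157 : ROK [.l ⟨0, 3777, 1316, 2909⟩ ⟨0, 0, 0, 1⟩, .l ⟨0, -2825, 2831, 353⟩ ⟨0, 0, 0, 1⟩, .l ⟨0, -3828, -1160, -13⟩ ⟨0, 0, 0, 1⟩, .l ⟨0, 778, -3924, -357⟩ ⟨0, 0, 0, 1⟩] := by
  refine rok_f (f := ⟨0, 0, 0, 1⟩) (by decide) (k := -1) (by decide) (Q := [(3777, 1316, 2909), (-2825, 2831, 353), (-3828, -1160, -13), (778, -3924, -357)])
    (P := [⟨89364480, -3777, -1316⟩, ⟨10844160, 2825, -2831⟩, ⟨-399360, 3828, 1160⟩, ⟨-10967040, -778, 3924⟩]) rfl rfl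
    (List.mem_of_getElem? (i := 157) rfl) TF_fr TF_cov ?_
  · intro X Y h
    simp only [List.forall_mem_cons, List.not_mem_nil, false_imp_iff, implies_true, and_true] at h
    push_cast at h ⊢
    obtain ⟨h0, h1, h2, h3⟩ := h
    refine ⟨⟨?_, ?_⟩, ?_, ?_⟩ <;> linarith

end Pool.Agent.TET
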