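import Pool.Agent.Helper38_TET.TG_C

/-!
# MP_c7c9bf_co: certificates, family TG
-/

set_option autoImplicit false
set_option maxRecDepth 100000

namespace Pool.Agent.TET

theorem TG_rgx0 : ROK [.l ⟨0, 0, 25068, 2720⟩ ⟨0, 0, 1, 40⟩, .l ⟨0, 0, -31195, -3000⟩ ⟨0, 0, 1, 40⟩, .l ⟨0, -32080, -721, -28840⟩ ⟨0, 0, 1, 40⟩, .l ⟨0, 23880, 12213, 22920⟩ ⟨0, 0, 1, 40⟩, .l ⟨0, 47760, 49494, 48560⟩ ⟨0, 0, 1, 40⟩] := by
  refine rok_g (f := ⟨0, 0, 1, 40⟩) (q := 40) (by decide) (by decide) TG_sc (k := 40) (by decide) (Q := [(0, 625, 68), (0, -778, -75), (-802, 0, -721), (597, 291, 573), (1194, 1207, 1214)])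
    (P := [⟨2088960, 0, 25000⟩, ⟨-2304000, 0, -31120⟩, ⟨-22149120, -32080, 0⟩, ⟨17602560, 23880, 11640⟩, ⟨37294080, 47760, 48280⟩]) rfl rfl
    (List.mem_of_getElem? (i := 0) rfl) TG_fr TG_cov ?_
  · intro X Y h
    simp only [List.forall_mem_cons, List.not_mem_nil, false_imp_iff, implies_true, and_true] at h
    push_cast at h ⊢
    obtain ⟨h0, h1, h2, h3, h4⟩ := h
    refine ⟨⟨?_, ?_⟩, ?_, ?_⟩ <;> linarith

theorem TG_rgx1 : ROK [.l ⟨0, 0, 8022, 880⟩ ⟨0, 0, 1, 40⟩, .l ⟨0, 0, -8020, -800⟩ ⟨0, 0, 1, 40⟩, .l ⟨0, -10000, -224, -8960⟩ ⟨0, 0, 1, 40⟩, .l ⟨0, 23360, 15169, 22760⟩ ⟨0, 0, 1, 40⟩, .l ⟨0, 23360, 23191, 23640⟩ ⟨0, 0, 1, 40⟩] := by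
  refine rok_g (f := ⟨0, 0, 1, 40⟩) (q := 40) (by decide) (by decide) TG_sc (k := 40) (by decide) (Q := [(0, 200, 22), (0, -200, -20), (-250, 0, -224), (584, 365, 569), (584, 565, 591)])
    (P := [⟨675840, 0, 8000⟩, ⟨-614400, 0, -8000⟩, ⟨-6881280, -10000, 0⟩, ⟨17479680, 23360, 14600⟩, ⟨18155520, 23360, 22600⟩]) rfl rfl
    (List.mem_of_getElem? (i := 1) rfl) TG_fr TG_cov ?_
  · intro X Y h
    simp only [List.forall_mem_cons, List.not_mem_nil, false_imp_iff, implies_true, and_true] at h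
    push_cast at h ⊢
    obtain ⟨h0, h1, h2, h3, h4⟩ := h
    refine ⟨⟨?_, ?_⟩, ?_, ?_⟩ <;> linarith

theorem TG_rgx2 : ROK [.l ⟨0, 0, 16043, 1720⟩ ⟨0, 0, 1, 40⟩, .l ⟨0, 0, -25299, -2360⟩ ⟨0, 0, 1, 40⟩, .l ⟨0, -10000, -224, -8960⟩ ⟨0, 0, 1, 40⟩, .l ⟨0, 28120, 13192, 26880⟩ ⟨0, 0, 1, 40⟩, .l ⟨0, 28120, 29235, 28600⟩ ⟨0, 0, 1, 40⟩] := by
  refine rok_g (f := ⟨0, 0, 1, 40⟩) (q := 40) (by decide) (by decide) TG_sc (k := 40) (by decide) (Q := [(0, 400, 43), (0, -631, -59), (-250, 0, -224), (703, 313, 672), (703, 713, 715)])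
    (P := [⟨1320960, 0, 16000⟩, ⟨-1812480, 0, -25240⟩, ⟨-6881280, -10000, 0⟩, ⟨20643840, 28120, 12520⟩, ⟨21964800, 28120, 28520⟩]) rfl rfl
    (List.mem_of_getElem? (i := 2) rfl) TG_fr TG_cov ?_
  · intro X Y h
    simp only [List.forall_mem_cons, List.not_mem_nil, false_imp_iff, implies_true, and_true] at h
    push_cast at h ⊢
    obtain ⟨h0, h1, h2, h3, h4⟩ := h
    refine ⟨⟨?_, ?_⟩, ?_, ?_⟩ <;> linarith

end Pool.Agent.TET
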