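import Pool.Agent.Helper38_TET.TH_C

/-!
# MP_c7c9bf_co: certificates, family TH
-/

set_option autoImplicit false
set_option maxRecDepth 100000

namespace Pool.Agent.TET

theorem TH_rg24 : ROK [.q ⟨-227, -253, 480, 0⟩ ⟨-733, 253, 480, 0⟩, .q ⟨219, 261, -480, 0⟩ ⟨-741, 261, 480, 0⟩, .q ⟨733, -253, -480, 0⟩ ⟨892, 116, 2279, -3287⟩, .q ⟨741, -261, -480, 0⟩ ⟨892, 116, 2279, -3287⟩, .q ⟨733, -253, -480, 0⟩ ⟨-695, -313, -2279, 3287⟩, .q ⟨741, -261, -480, 0⟩ ⟨-695, -313, -2279, 3287⟩] := by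
  refine rok_bys (s := -1) (nlo := 253) (nhi := 261) (q := 480) (by decide) (by decide) (by decide) (by decide) (z := 3) (by decide) TH_sc (k := 1) (by decide) (Q := [(2279, 3287, -116), (-2279, -3287, 313)])
    (P := [⟨-23316480, -480, 0⟩, ⟨24053760, 480, 0⟩, ⟨-10690560, 2279, 3287⟩, ⟨28846080, -2279, -3287⟩]) rfl rfl
    (List.mem_of_getElem? (i := 24) rfl) TH_fr TH_cov ?_
  · intro X Y h
    simp only [List.forall_mem_cons, List.not_mem_nil, false_imp_iff, implies_true, and_true] at h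
    push_cast at h ⊢
    obtain ⟨h0, h1, h2, h3⟩ := h
    refine ⟨⟨?_, ?_⟩, ?_, ?_⟩ <;> linarith

theorem TH_rg25 : ROK [.q ⟨-20, -20, 40, 0⟩ ⟨-60, 20, 40, 0⟩, .q ⟨17, 23, -40, 0⟩ ⟨-63, 23, 40, 0⟩, .q ⟨60, -20, -40, 0⟩ ⟨2399, 1601, 0, -4000⟩, .q ⟨63, -23, -40, 0⟩ ⟨2399, 1601, 0, -4000⟩, .q ⟨60, -20, -40, 0⟩ ⟨-1572, -1231, -1055, 3858⟩, .q ⟨63, -23, -40, 0⟩ ⟨-1572, -1231, -1055, 3858⟩, .q ⟨60, -20, -40, 0⟩ ⟨-426, -244, -1039, 1709⟩, .q ⟨63, -23, -40, 0⟩ ⟨-426, -244, -1039, 1709⟩] := by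
  refine rok_bys (s := -1) (nlo := 20) (nhi := 23) (q := 40) (by decide) (by decide) (by decide) (by decide) (z := 3) (by decide) TH_sc (k := 1) (by decide) (Q := [(0, 4000, -1601), (-1055, -3858, 1231), (-1039, -1709, 244)])
    (P := [⟨-1843200, -40, 0⟩, ⟨2119680, 40, 0⟩, ⟨-147548160, 0, 4000⟩, ⟨113448960, -1055, -3858⟩, ⟨22487040, -1039, -1709⟩]) rfl rfl
    (List.mem_of_getElem? (i := 25) rfl) TH_fr TH_cov ?_
  · intro X Y h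
    simp only [List.forall_mem_cons, List.not_mem_nil, false_imp_iff, implies_true, and_true] at h
    push_cast at h ⊢
    obtain ⟨h0, h1, h2, h3, h4⟩ := h
    refine ⟨⟨?_, ?_⟩, ?_, ?_⟩ <;> linarith

theorem TH_rg26 : ROK [.q ⟨-76, -84, 160, 0⟩ ⟨-244, 84, 160, 0⟩, .q ⟨73, 87, -160, 0⟩ ⟨-247, 87, 160, 0⟩, .q ⟨244, -84, -160, 0⟩ ⟨2399, 1601, 0, -4000⟩, .q ⟨247, -87, -160, 0⟩ ⟨2399, 1601, 0, -4000⟩, .q ⟨244, -84, -160, 0⟩ ⟨-1164, -805, -1667, 3636⟩, .q ⟨247, -87, -160, 0⟩ ⟨-1164, -805, -1667, 3636⟩] := by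
  refine rok_bys (s := -1) (nlo := 84) (nhi := 87) (q := 160) (by decide) (by decide) (by decide) (by decide) (z := 3) (by decide) TH_sc (k := 1) (by decide) (Q := [(0, 4000, -1601), (-1667, -3636, 805)])
    (P := [⟨-7741440, -160, 0⟩, ⟨8017920, 160, 0⟩, ⟨-147548160, 0, 4000⟩, ⟨74188800, -1667, -3636⟩]) rfl rfl
    (List.mem_of_getElem? (i := 26) rfl) TH_fr TH_cov ?_
  · intro X Y h
    simp only [List.forall_mem_cons, List.not_mem_nil, false_imp_iff, implies_true, and_true] at h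
    push_cast at h ⊢
    obtain ⟨h0, h1, h2, h3⟩ := h
    refine ⟨⟨?_, ?_⟩, ?_, ?_⟩ <;> linarith

theorem TH_rg27 : ROK [.q ⟨-39, -41, 80, 0⟩ ⟨-121, 41, 80, 0⟩, .q ⟨36, 44, -80, 0⟩ ⟨-124, 44, 80, 0⟩, .q ⟨121, -41, -80, 0⟩ ⟨2399, 1601, 0, -4000⟩, .q ⟨124, -44, -80, 0⟩ ⟨2399, 1601, 0, -4000⟩, .q ⟨121, -41, -80, 0⟩ ⟨-636, -540, -149, 1325⟩, .q ⟨124, -44, -80, 0⟩ ⟨-636, -540, -149, 1325⟩, .q ⟨121, -41, -80, 0⟩ ⟨-543, -160, -2455, 3158⟩, .q ⟨124, -44, -80, 0⟩ ⟨-543, -160, -2455, 3158⟩] := by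
  refine rok_bys (s := -1) (nlo := 41) (nhi := 44) (q := 80) (by decide) (by decide) (by decide) (by decide) (z := 3) (by decide) TH_sc (k := 1) (by decide) (Q := [(0, 4000, -1601), (-149, -1325, 540), (-2455, -3158, 160)])
    (P := [⟨-3778560, -80, 0⟩, ⟨4055040, 80, 0⟩, ⟨-147548160, 0, 4000⟩, ⟨49766400, -149, -1325⟩, ⟨14745600, -2455, -3158⟩]) rfl rfl
    (List.mem_of_getElem? (i := 27) rfl) TH_fr TH_cov ?_
  · intro X Y h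
    simp only [List.forall_mem_cons, List.not_mem_nil, false_imp_iff, implies_true, and_true] at h
    push_cast at h ⊢
    obtain ⟨h0, h1, h2, h3, h4⟩ := h
    refine ⟨⟨?_, ?_⟩, ?_, ?_⟩ <;> linarith

theorem TH_rg28 : ROK [.q ⟨-447, -513, 960, 0⟩ ⟨-1473, 513, 960, 0⟩, .q ⟨439, 521, -960, 0⟩ ⟨-1481, 521, 960, 0⟩, .q ⟨1473, -513, -960, 0⟩ ⟨12502, -11939, 2533, -3096⟩, .q ⟨1481, -521, -960, 0⟩ ⟨12502, -11939, 2533, -3096⟩, .q ⟨1473, -513, -960, 0⟩ ⟨-474, -89, -2533, 3096⟩, .q ⟨1481, -521, -960, 0⟩ ⟨-474, -89, -2533, 3096⟩, .q ⟨1473, -513, -960, 0⟩ ⟨3009, 2543, -2232, -3320⟩, .q ⟨1481, -521, -960, 0⟩ ⟨3009, 2543, -2232, -3320⟩, .q ⟨1473, -513, -960, 0⟩ ⟨-2192, -1945, 139, 3998⟩, .q ⟨1481, -521, -960, 0⟩ ⟨-2192, -1945, 139, 3998⟩] := by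
  refine rok_bys (s := -1) (nlo := 513) (nhi := 521) (q := 960) (by decide) (by decide) (by decide) (by decide) (z := 3) (by decide) TH_sc (k := 1) (by decide) (Q := [(2533, 3096, 11939), (-2533, -3096, 89), (-2232, 3320, -2543), (139, -3998, 1945)])
    (P := [⟨-47278080, -960, 0⟩, ⟨48015360, 960, 0⟩, ⟨1100298240, 2533, 3096⟩, ⟨8202240, -2533, -3096⟩, ⟨-234362880, -2232, 3320⟩, ⟨179251200, 139, -3998⟩]) rfl rfl
    (List.mem_of_getElem? (i := 28) rfl) TH_fr TH_cov ?_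
  · intro X Y h
    simp only [List.forall_mem_cons, List.not_mem_nil, false_imp_iff, implies_true, and_true] at h
    push_cast at h ⊢
    obtain ⟨h0, h1, h2, h3, h4, h5⟩ := h
    refine ⟨⟨?_, ?_⟩, ?_, ?_⟩ <;> linarith

theorem TH_rg29 : ROK [.q ⟨-449, -511, 960, 0⟩ ⟨-1471, 511, 960, 0⟩, .q ⟨442, 518, -960, 0⟩ ⟨-1478, 518, 960, 0⟩, .q ⟨1471, -511, -960, 0⟩ ⟨1217, 397, 1904, -3518⟩, .q ⟨1478, -518, -960, 0⟩ ⟨1217, 397, 1904, -3518⟩, .q ⟨1471, -511, -960, 0⟩ ⟨-761, -386, -2196, 3343⟩, .q ⟨1478, -518, -960, 0⟩ ⟨-761, -386, -2196, 3343⟩, .q ⟨1471, -511, -960, 0⟩ ⟨-1992, -1709, -289, 3990⟩, .q ⟨1478, -518, -960, 0⟩ ⟨-1992, -1709, -289, 3990⟩] := by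
  refine rok_bys (s := -1) (nlo := 511) (nhi := 518) (q := 960) (by decide) (by decide) (by decide) (by decide) (z := 3) (by decide) TH_sc (k := 1) (by decide) (Q := [(1904, 3518, -397), (-2196, -3343, 386), (-289, -3990, 1709)])
    (P := [⟨-47093760, -960, 0⟩, ⟨47738880, 960, 0⟩, ⟨-36587520, 1904, 3518⟩, ⟨35573760, -2196, -3343⟩, ⟨157501440, -289, -3990⟩]) rfl rfl
    (List.mem_of_getElem? (i := 29) rfl) TH_fr TH_cov ?_
  · intro X Y h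
    simp only [List.forall_mem_cons, List.not_mem_nil, false_imp_iff, implies_true, and_true] at h
    push_cast at h ⊢
    obtain ⟨h0, h1, h2, h3, h4⟩ := h
    refine ⟨⟨?_, ?_⟩, ?_, ?_⟩ <;> linarith

theorem TH_rg30 : ROK [.q ⟨-113, -127, 240, 0⟩ ⟨-367, 127, 240, 0⟩, .q ⟨110, 130, -240, 0⟩ ⟨-370, 130, 240, 0⟩, .q ⟨367, -127, -240, 0⟩ ⟨1409, 589, 1647, -3645⟩, .q ⟨370, -130, -240, 0⟩ ⟨1409, 589, 1647, -3645⟩, .q ⟨367, -127, -240, 0⟩ ⟨-1178, -820, -1647, 3645⟩, .q ⟨370, -130, -240, 0⟩ ⟨-1178, -820, -1647, 3645⟩] := by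
  refine rok_bys (s := -1) (nlo := 127) (nhi := 130) (q := 240) (by decide) (by decide) (by decide) (by decide) (z := 3) (by decide) TH_sc (k := 1) (by decide) (Q := [(1647, 3645, -589), (-1647, -3645, 820)])
    (P := [⟨-11704320, -240, 0⟩, ⟨11980800, 240, 0⟩, ⟨-54282240, 1647, 3645⟩, ⟨75571200, -1647, -3645⟩]) rfl rfl
    (List.mem_of_getElem? (i := 30) rfl) TH_fr TH_cov ?_
  · intro X Y h
    simp only [List.forall_mem_cons, List.not_mem_nil, false_imp_iff, implies_true, and_true] at h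
    push_cast at h ⊢
    obtain ⟨h0, h1, h2, h3⟩ := h
    refine ⟨⟨?_, ?_⟩, ?_, ?_⟩ <;> linarith

theorem TH_rg31 : ROK [.q ⟨-237, -243, 480, 0⟩ ⟨-723, 243, 480, 0⟩, .q ⟨227, 253, -480, 0⟩ ⟨-733, 253, 480, 0⟩, .q ⟨723, -243, -480, 0⟩ ⟨1585, 1471, 852, -3908⟩, .q ⟨733, -253, -480, 0⟩ ⟨1585, 1471, 852, -3908⟩, .q ⟨723, -243, -480, 0⟩ ⟨-1690, -2075, -228, 3993⟩, .q ⟨733, -253, -480, 0⟩ ⟨-1690, -2075, -228, 3993⟩, .q ⟨723, -243, -480, 0⟩ ⟨2819, 2838, -2844, -2813⟩, .q ⟨733, -253, -480, 0⟩ ⟨2819, 2838, -2844, -2813⟩] := by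
  refine rok_bys (s := -1) (nlo := 243) (nhi := 253) (q := 480) (by decide) (by decide) (by decide) (by decide) (z := 3) (by decide) TH_sc (k := 1) (by decide) (Q := [(852, 3908, -1471), (-228, -3993, 2075), (-2844, 2813, -2838)])
    (P := [⟨-22394880, -480, 0⟩, ⟨23316480, 480, 0⟩, ⟨-135567360, 852, 3908⟩, ⟨191232000, -228, -3993⟩, ⟨-261550080, -2844, 2813⟩]) rfl rfl
    (List.mem_of_getElem? (i := 31) rfl) TH_fr TH_cov ?_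
  · intro X Y h
    simp only [List.forall_mem_cons, List.not_mem_nil, false_imp_iff, implies_true, and_true] at h
    push_cast at h ⊢
    obtain ⟨h0, h1, h2, h3, h4⟩ := h
    refine ⟨⟨?_, ?_⟩, ?_, ?_⟩ <;> linarith

theorem TH_rg32 : ROK [.q ⟨-73, -87, 160, 0⟩ ⟨-247, 87, 160, 0⟩, .q ⟨71, 89, -160, 0⟩ ⟨-249, 89, 160, 0⟩, .q ⟨247, -87, -160, 0⟩ ⟨2690, 2799, -2061, -3428⟩, .q ⟨249, -89, -160, 0⟩ ⟨2690, 2799, -2061, -3428⟩, .q ⟨247, -87, -160, 0⟩ ⟨-844, -998, -1753, 3595⟩, .q ⟨249, -89, -160, 0⟩ ⟨-844, -998, -1753, 3595⟩] := by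
  refine rok_bys (s := -1) (nlo := 87) (nhi := 89) (q := 160) (by decide) (by decide) (by decide) (by decide) (z := 3) (by decide) TH_sc (k := 1) (by decide) (Q := [(-2061, 3428, -2799), (-1753, -3595, 998)])
    (P := [⟨-8017920, -160, 0⟩, ⟨8202240, 160, 0⟩, ⟨-257955840, -2061, 3428⟩, ⟨91975680, -1753, -3595⟩]) rfl rfl
    (List.mem_of_getElem? (i := 32) rfl) TH_fr TH_cov ?_
  · intro X Y h
    simp only [List.forall_mem_cons, List.not_mem_nil, false_imp_iff, implies_true, and_true] at h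
    push_cast at h ⊢
    obtain ⟨h0, h1, h2, h3⟩ := h
    refine ⟨⟨?_, ?_⟩, ?_, ?_⟩ <;> linarith

theorem TH_rg33 : ROK [.q ⟨-39, -41, 80, 0⟩ ⟨-121, 41, 80, 0⟩, .q ⟨36, 44, -80, 0⟩ ⟨-124, 44, 80, 0⟩, .q ⟨121, -41, -80, 0⟩ ⟨14795, -9268, -2162, -3365⟩, .q ⟨124, -44, -80, 0⟩ ⟨14795, -9268, -2162, -3365⟩, .q ⟨121, -41, -80, 0⟩ ⟨-2742, -2785, 2162, 3365⟩, .q ⟨124, -44, -80, 0⟩ ⟨-2742, -2785, 2162, 3365⟩, .q ⟨121, -41, -80, 0⟩ ⟨2564, 1811, -394, -3981⟩, .q ⟨124, -44, -80, 0⟩ ⟨2564, 1811, -394, -3981⟩, .q ⟨121, -41, -80, 0⟩ ⟨447, 841, -3398, 2110⟩, .q ⟨124, -44, -80, 0⟩ ⟨447, 841, -3398, 2110⟩] := by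
  refine rok_bys (s := -1) (nlo := 41) (nhi := 44) (q := 80) (by decide) (by decide) (by decide) (by decide) (z := 3) (by decide) TH_sc (k := 1) (by decide) (Q := [(-2162, 3365, 9268), (2162, -3365, 2785), (-394, 3981, -1811), (-3398, -2110, -841)])
    (P := [⟨-3778560, -80, 0⟩, ⟨4055040, 80, 0⟩, ⟨854138880, -2162, 3365⟩, ⟨256665600, 2162, -3365⟩, ⟨-166901760, -394, 3981⟩, ⟨-77506560, -3398, -2110⟩]) rfl rfl
    (List.mem_of_getElem? (i := 33) rfl) TH_fr TH_cov ?_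
  · intro X Y h
    simp only [List.forall_mem_cons, List.not_mem_nil, false_imp_iff, implies_true, and_true] at h
    push_cast at h ⊢
    obtain ⟨h0, h1, h2, h3, h4, h5⟩ := h
    refine ⟨⟨?_, ?_⟩, ?_, ?_⟩ <;> linarith

theorem TH_rg34 : ROK [.q ⟨-224, -256, 480, 0⟩ ⟨-736, 256, 480, 0⟩, .q ⟨217, 263, -480, 0⟩ ⟨-743, 263, 480, 0⟩, .q ⟨736, -256, -480, 0⟩ ⟨1617, 778, 1365, -3760⟩, .q ⟨743, -263, -480, 0⟩ ⟨1617, 778, 1365, -3760⟩, .q ⟨736, -256, -480, 0⟩ ⟨-837, -461, -2104, 3402⟩, .q ⟨743, -263, -480, 0⟩ ⟨-837, -461, -2104, 3402⟩] := by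
  refine rok_bys (s := -1) (nlo := 256) (nhi := 263) (q := 480) (by decide) (by decide) (by decide) (by decide) (z := 3) (by decide) TH_sc (k := 1) (by decide) (Q := [(1365, 3760, -778), (-2104, -3402, 461)])
    (P := [⟨-23592960, -480, 0⟩, ⟨24238080, 480, 0⟩, ⟨-71700480, 1365, 3760⟩, ⟨42485760, -2104, -3402⟩]) rfl rfl
    (List.mem_of_getElem? (i := 34) rfl) TH_fr TH_cov ?_
  · intro X Y h
    simp only [List.forall_mem_cons, List.not_mem_nil, false_imp_iff, implies_true, and_true] at h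
    push_cast at h ⊢
    obtain ⟨h0, h1, h2, h3⟩ := h
    refine ⟨⟨?_, ?_⟩, ?_, ?_⟩ <;> linarith

theorem TH_rg35 : ROK [.q ⟨-225, -255, 480, 0⟩ ⟨-735, 255, 480, 0⟩, .q ⟨217, 263, -480, 0⟩ ⟨-743, 263, 480, 0⟩, .q ⟨735, -255, -480, 0⟩ ⟨10236, -8317, 1701, -3620⟩, .q ⟨743, -263, -480, 0⟩ ⟨10236, -8317, 1701, -3620⟩, .q ⟨735, -255, -480, 0⟩ ⟨-497, -313, -950, 1760⟩, .q ⟨743, -263, -480, 0⟩ ⟨-497, -313, -950, 1760⟩, .q ⟨735, -255, -480, 0⟩ ⟨1733, 901, 1186, -3820⟩, .q ⟨743, -263, -480, 0⟩ ⟨1733, 901, 1186, -3820⟩] := by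
  refine rok_bys (s := -1) (nlo := 255) (nhi := 263) (q := 480) (by decide) (by decide) (by decide) (by decide) (z := 3) (by decide) TH_sc (k := 1) (by decide) (Q := [(1701, 3620, 8317), (-950, -1760, 313), (1186, 3820, -901)])
    (P := [⟨-23500800, -480, 0⟩, ⟨24238080, 480, 0⟩, ⟨766494720, 1701, 3620⟩, ⟨28846080, -950, -1760⟩, ⟨-83036160, 1186, 3820⟩]) rfl rfl
    (List.mem_of_getElem? (i := 35) rfl) TH_fr TH_cov ?_
  · intro X Y h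
    simp only [List.forall_mem_cons, List.not_mem_nil, false_imp_iff, implies_true, and_true] at h
    push_cast at h ⊢
    obtain ⟨h0, h1, h2, h3, h4⟩ := h
    refine ⟨⟨?_, ?_⟩, ?_, ?_⟩ <;> linarith

theorem TH_rg36 : ROK [.q ⟨-39, -41, 80, 0⟩ ⟨-121, 41, 80, 0⟩, .q ⟨35, 45, -80, 0⟩ ⟨-125, 45, 80, 0⟩, .q ⟨121, -41, -80, 0⟩ ⟨1318, 561, 1728, -3607⟩, .q ⟨125, -45, -80, 0⟩ ⟨1318, 561, 1728, -3607⟩, .q ⟨121, -41, -80, 0⟩ ⟨-1120, -759, -1728, 3607⟩, .q ⟨125, -45, -80, 0⟩ ⟨-1120, -759, -1728, 3607⟩] := by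
  refine rok_bys (s := -1) (nlo := 41) (nhi := 45) (q := 80) (by decide) (by decide) (by decide) (by decide) (z := 3) (by decide) TH_sc (k := 1) (by decide) (Q := [(1728, 3607, -561), (-1728, -3607, 759)])
    (P := [⟨-3778560, -80, 0⟩, ⟨4147200, 80, 0⟩, ⟨-51701760, 1728, 3607⟩, ⟨69949440, -1728, -3607⟩]) rfl rfl
    (List.mem_of_getElem? (i := 36) rfl) TH_fr TH_cov ?_
  · intro X Y h
    simp only [List.forall_mem_cons, List.not_mem_nil, false_imp_iff, implies_true, and_true] at h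
    push_cast at h ⊢
    obtain ⟨h0, h1, h2, h3⟩ := h
    refine ⟨⟨?_, ?_⟩, ?_, ?_⟩ <;> linarith

theorem TH_rg37 : ROK [.q ⟨-37, -43, 80, 0⟩ ⟨-123, 43, 80, 0⟩, .q ⟨34, 46, -80, 0⟩ ⟨-126, 46, 80, 0⟩, .q ⟨123, -43, -80, 0⟩ ⟨13333, -8891, -470, -3972⟩, .q ⟨126, -46, -80, 0⟩ ⟨13333, -8891, -470, -3972⟩, .q ⟨123, -43, -80, 0⟩ ⟨-624, -634, -2129, 3387⟩, .q ⟨126, -46, -80, 0⟩ ⟨-624, -634, -2129, 3387⟩, .q ⟨123, -43, -80, 0⟩ ⟨2651, 2920, -3276, -2295⟩, .q ⟨126, -46, -80, 0⟩ ⟨2651, 2920, -3276, -2295⟩] := by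
  refine rok_bys (s := -1) (nlo := 43) (nhi := 46) (q := 80) (by decide) (by decide) (by decide) (by decide) (z := 3) (by decide) TH_sc (k := 1) (by decide) (Q := [(-470, 3972, 8891), (-2129, -3387, 634), (-3276, 2295, -2920)])
    (P := [⟨-3962880, -80, 0⟩, ⟨4239360, 80, 0⟩, ⟨819394560, -470, 3972⟩, ⟨58429440, -2129, -3387⟩, ⟨-269107200, -3276, 2295⟩]) rfl rfl
    (List.mem_of_getElem? (i := 37) rfl) TH_fr TH_cov ?_
  · intro X Y h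
    simp only [List.forall_mem_cons, List.not_mem_nil, false_imp_iff, implies_true, and_true] at h
    push_cast at h ⊢
    obtain ⟨h0, h1, h2, h3, h4⟩ := h
    refine ⟨⟨?_, ?_⟩, ?_, ?_⟩ <;> linarith

theorem TH_rg38 : ROK [.q ⟨-21, -19, 40, 0⟩ ⟨-59, 19, 40, 0⟩, .q ⟨17, 23, -40, 0⟩ ⟨-63, 23, 40, 0⟩, .q ⟨59, -19, -40, 0⟩ ⟨51, 49, 0, -100⟩, .q ⟨63, -23, -40, 0⟩ ⟨51, 49, 0, -100⟩, .q ⟨59, -19, -40, 0⟩ ⟨-451, -499, -857, 1807⟩, .q ⟨63, -23, -40, 0⟩ ⟨-451, -499, -857, 1807⟩, .q ⟨59, -19, -40, 0⟩ ⟨2688, 2723, -3531, -1880⟩, .q ⟨63, -23, -40, 0⟩ ⟨2688, 2723, -3531, -1880⟩] := by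
  refine rok_bys (s := -1) (nlo := 19) (nhi := 23) (q := 40) (by decide) (by decide) (by decide) (by decide) (z := 3) (by decide) TH_sc (k := 1) (by decide) (Q := [(0, 100, -49), (-857, -1807, 499), (-3531, 1880, -2723)])
    (P := [⟨-1751040, -40, 0⟩, ⟨2119680, 40, 0⟩, ⟨-4515840, 0, 100⟩, ⟨45987840, -857, -1807⟩, ⟨-250951680, -3531, 1880⟩]) rfl rfl
    (List.mem_of_getElem? (i := 38) rfl) TH_fr TH_cov ?_
  · intro X Y h
    simp only [List.forall_mem_cons, List.not_mem_nil, false_imp_iff, implies_true, and_true] at h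
    push_cast at h ⊢
    obtain ⟨h0, h1, h2, h3, h4⟩ := h
    refine ⟨⟨?_, ?_⟩, ?_, ?_⟩ <;> linarith

theorem TH_rg39 : ROK [.q ⟨-225, -255, 480, 0⟩ ⟨-735, 255, 480, 0⟩, .q ⟨217, 263, -480, 0⟩ ⟨-743, 263, 480, 0⟩, .q ⟨735, -255, -480, 0⟩ ⟨747, 333, 767, -1847⟩, .q ⟨743, -263, -480, 0⟩ ⟨747, 333, 767, -1847⟩, .q ⟨735, -255, -480, 0⟩ ⟨-305, 88, -2718, 2935⟩, .q ⟨743, -263, -480, 0⟩ ⟨-305, 88, -2718, 2935⟩] := by
  refine rok_bys (s := -1) (nlo := 255) (nhi := 263) (q := 480) (by decide) (by decide) (by decide) (by decide) (z := 3) (by decide) TH_sc (k := 1) (by decide) (Q := [(767, 1847, -333), (-2718, -2935, -88)])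
    (P := [⟨-23500800, -480, 0⟩, ⟨24238080, 480, 0⟩, ⟨-30689280, 767, 1847⟩, ⟨-8110080, -2718, -2935⟩]) rfl rfl
    (List.mem_of_getElem? (i := 39) rfl) TH_fr TH_cov ?_
  · intro X Y h
    simp only [List.forall_mem_cons, List.not_mem_nil, false_imp_iff, implies_true, and_true] at h
    push_cast at h ⊢
    obtain ⟨h0, h1, h2, h3⟩ := h
    refine ⟨⟨?_, ?_⟩, ?_, ?_⟩ <;> linarith

theorem TH_rg40 : ROK [.q ⟨-231, -249, 480, 0⟩ ⟨-729, 249, 480, 0⟩, .q ⟨224, 256, -480, 0⟩ ⟨-736, 256, 480, 0⟩, .q ⟨729, -249, -480, 0⟩ ⟨1463, 674, 1550, -3687⟩, .q ⟨736, -256, -480, 0⟩ ⟨1463, 674, 1550, -3687⟩, .q ⟨729, -249, -480, 0⟩ ⟨-1248, -889, -1550, 3687⟩, .q ⟨736, -256, -480, 0⟩ ⟨-1248, -889, -1550, 3687⟩] := by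
  refine rok_bys (s := -1) (nlo := 249) (nhi := 256) (q := 480) (by decide) (by decide) (by decide) (by decide) (z := 3) (by decide) TH_sc (k := 1) (by decide) (Q := [(1550, 3687, -674), (-1550, -3687, 889)])
    (P := [⟨-22947840, -480, 0⟩, ⟨23592960, 480, 0⟩, ⟨-62115840, 1550, 3687⟩, ⟨81930240, -1550, -3687⟩]) rfl rfl
    (List.mem_of_getElem? (i := 40) rfl) TH_fr TH_cov ?_
  · intro X Y h
    simp only [List.forall_mem_cons, List.not_mem_nil, false_imp_iff, implies_true, and_true] at h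
    push_cast at h ⊢
    obtain ⟨h0, h1, h2, h3⟩ := h
    refine ⟨⟨?_, ?_⟩, ?_, ?_⟩ <;> linarith

theorem TH_rg41 : ROK [.q ⟨-113, -127, 240, 0⟩ ⟨-367, 127, 240, 0⟩, .q ⟨109, 131, -240, 0⟩ ⟨-371, 131, 240, 0⟩, .q ⟨367, -127, -240, 0⟩ ⟨2985, 2486, -2016, -3455⟩, .q ⟨371, -131, -240, 0⟩ ⟨2985, 2486, -2016, -3455⟩, .q ⟨367, -127, -240, 0⟩ ⟨-1120, -759, -1728, 3607⟩, .q ⟨371, -131, -240, 0⟩ ⟨-1120, -759, -1728, 3607⟩] := by
  refine rok_bys (s := -1) (nlo := 127) (nhi := 131) (q := 240) (by decide) (by decide) (by decide) (by decide) (z := 3) (by decide) TH_sc (k := 1) (by decide) (Q := [(-2016, 3455, -2486), (-1728, -3607, 759)])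
    (P := [⟨-11704320, -240, 0⟩, ⟨12072960, 240, 0⟩, ⟨-229109760, -2016, 3455⟩, ⟨69949440, -1728, -3607⟩]) rfl rfl
    (List.mem_of_getElem? (i := 41) rfl) TH_fr TH_cov ?_
  · intro X Y h
    simp only [List.forall_mem_cons, List.not_mem_nil, false_imp_iff, implies_true, and_true] at h
    push_cast at h ⊢
    obtain ⟨h0, h1, h2, h3⟩ := h
    refine ⟨⟨?_, ?_⟩, ?_, ?_⟩ <;> linarith

theorem TH_rg42 : ROK [.q ⟨-455, -505, 960, 0⟩ ⟨-1465, 505, 960, 0⟩, .q ⟨446, 514, -960, 0⟩ ⟨-1474, 514, 960, 0⟩, .q ⟨1465, -505, -960, 0⟩ ⟨1042, 258, 2103, -3403⟩, .q ⟨1474, -514, -960, 0⟩ ⟨1042, 258, 2103, -3403⟩, .q ⟨1465, -505, -960, 0⟩ ⟨-1156, -797, -1678, 3631⟩, .q ⟨1474, -514, -960, 0⟩ ⟨-1156, -797, -1678, 3631⟩] := by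
  refine rok_bys (s := -1) (nlo := 505) (nhi := 514) (q := 960) (by decide) (by decide) (by decide) (by decide) (z := 3) (by decide) TH_sc (k := 1) (by decide) (Q := [(2103, 3403, -258), (-1678, -3631, 797)])
    (P := [⟨-46540800, -960, 0⟩, ⟨47370240, 960, 0⟩, ⟨-23777280, 2103, 3403⟩, ⟨73451520, -1678, -3631⟩]) rfl rfl
    (List.mem_of_getElem? (i := 42) rfl) TH_fr TH_cov ?_
  · intro X Y h
    simp only [List.forall_mem_cons, List.not_mem_nil, false_imp_iff, implies_true, and_true] at h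
    push_cast at h ⊢
    obtain ⟨h0, h1, h2, h3⟩ := h
    refine ⟨⟨?_, ?_⟩, ?_, ?_⟩ <;> linarith

theorem TH_rg43 : ROK [.q ⟨-225, -255, 480, 0⟩ ⟨-735, 255, 480, 0⟩, .q ⟨218, 262, -480, 0⟩ ⟨-742, 262, 480, 0⟩, .q ⟨735, -255, -480, 0⟩ ⟨7077, -5077, 0, -2000⟩, .q ⟨742, -262, -480, 0⟩ ⟨7077, -5077, 0, -2000⟩, .q ⟨735, -255, -480, 0⟩ ⟨-133, -117, 0, 250⟩, .q ⟨742, -262, -480, 0⟩ ⟨-133, -117, 0, 250⟩, .q ⟨735, -255, -480, 0⟩ ⟨2257, 1444, 289, -3990⟩, .q ⟨742, -262, -480, 0⟩ ⟨2257, 1444, 289, -3990⟩, .q ⟨735, -255, -480, 0⟩ ⟨-439, -53, -2572, 3064⟩, .q ⟨742, -262, -480, 0⟩ ⟨-439, -53, -2572, 3064⟩] := by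
  refine rok_bys (s := -1) (nlo := 255) (nhi := 262) (q := 480) (by decide) (by decide) (by decide) (by decide) (z := 3) (by decide) TH_sc (k := 1) (by decide) (Q := [(0, 2000, 5077), (0, -250, 117), (289, 3990, -1444), (-2572, -3064, 53)])
    (P := [⟨-23500800, -480, 0⟩, ⟨24145920, 480, 0⟩, ⟨467896320, 0, 2000⟩, ⟨10782720, 0, -250⟩, ⟨-133079040, 289, 3990⟩, ⟨4884480, -2572, -3064⟩]) rfl rfl
    (List.mem_of_getElem? (i := 43) rfl) TH_fr TH_cov ?_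
  · intro X Y h
    simp only [List.forall_mem_cons, List.not_mem_nil, false_imp_iff, implies_true, and_true] at h
    push_cast at h ⊢
    obtain ⟨h0, h1, h2, h3, h4, h5⟩ := h
    refine ⟨⟨?_, ?_⟩, ?_, ?_⟩ <;> linarith

theorem TH_rg44 : ROK [.q ⟨-223, -257, 480, 0⟩ ⟨-737, 257, 480, 0⟩, .q ⟨220, 260, -480, 0⟩ ⟨-740, 260, 480, 0⟩, .q ⟨737, -257, -480, 0⟩ ⟨2733, 2026, -851, -3908⟩, .q ⟨740, -260, -480, 0⟩ ⟨2733, 2026, -851, -3908⟩, .q ⟨737, -257, -480, 0⟩ ⟨-1063, -699, -1807, 3569⟩, .q ⟨740, -260, -480, 0⟩ ⟨-1063, -699, -1807, 3569⟩] := by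
  refine rok_bys (s := -1) (nlo := 257) (nhi := 260) (q := 480) (by decide) (by decide) (by decide) (by decide) (z := 3) (by decide) TH_sc (k := 1) (by decide) (Q := [(-851, 3908, -2026), (-1807, -3569, 699)])
    (P := [⟨-23685120, -480, 0⟩, ⟨23961600, 480, 0⟩, ⟨-186716160, -851, 3908⟩, ⟨64419840, -1807, -3569⟩]) rfl rfl
    (List.mem_of_getElem? (i := 44) rfl) TH_fr TH_cov ?_
  · intro X Y h
    simp only [List.forall_mem_cons, List.not_mem_nil, false_imp_iff, implies_true, and_true] at h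
    push_cast at h ⊢
    obtain ⟨h0, h1, h2, h3⟩ := h
    refine ⟨⟨?_, ?_⟩, ?_, ?_⟩ <;> linarith

theorem TH_rg45 : ROK [.q ⟨-40, -40, 80, 0⟩ ⟨-120, 40, 80, 0⟩, .q ⟨37, 43, -80, 0⟩ ⟨-123, 43, 80, 0⟩, .q ⟨120, -40, -80, 0⟩ ⟨2721, 2704, -1910, -3515⟩, .q ⟨123, -43, -80, 0⟩ ⟨2721, 2704, -1910, -3515⟩, .q ⟨120, -40, -80, 0⟩ ⟨-2541, -2884, 1910, 3515⟩, .q ⟨123, -43, -80, 0⟩ ⟨-2541, -2884, 1910, 3515⟩, .q ⟨120, -40, -80, 0⟩ ⟨2255, 2193, -476, -3972⟩, .q ⟨123, -43, -80, 0⟩ ⟨2255, 2193, -476, -3972⟩] := by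
  refine rok_bys (s := -1) (nlo := 40) (nhi := 43) (q := 80) (by decide) (by decide) (by decide) (by decide) (z := 3) (by decide) TH_sc (k := 1) (by decide) (Q := [(-1910, 3515, -2704), (1910, -3515, 2884), (-476, 3972, -2193)])
    (P := [⟨-3686400, -80, 0⟩, ⟨3962880, 80, 0⟩, ⟨-249200640, -1910, 3515⟩, ⟨265789440, 1910, -3515⟩, ⟨-202106880, -476, 3972⟩]) rfl rfl
    (List.mem_of_getElem? (i := 45) rfl) TH_fr TH_cov ?_
  · intro X Y h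
    simp only [List.forall_mem_cons, List.not_mem_nil, false_imp_iff, implies_true, and_true] at h
    push_cast at h ⊢
    obtain ⟨h0, h1, h2, h3, h4⟩ := h
    refine ⟨⟨?_, ?_⟩, ?_, ?_⟩ <;> linarith

theorem TH_rg46 : ROK [.q ⟨-227, -253, 480, 0⟩ ⟨-733, 253, 480, 0⟩, .q ⟨220, 260, -480, 0⟩ ⟨-740, 260, 480, 0⟩, .q ⟨733, -253, -480, 0⟩ ⟨1115, 320, 2018, -3453⟩, .q ⟨740, -260, -480, 0⟩ ⟨1115, 320, 2018, -3453⟩, .q ⟨733, -253, -480, 0⟩ ⟨-402, -283, -536, 1221⟩, .q ⟨740, -260, -480, 0⟩ ⟨-402, -283, -536, 1221⟩] := by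
  refine rok_bys (s := -1) (nlo := 253) (nhi := 260) (q := 480) (by decide) (by decide) (by decide) (by decide) (z := 3) (by decide) TH_sc (k := 1) (by decide) (Q := [(2018, 3453, -320), (-536, -1221, 283)])
    (P := [⟨-23316480, -480, 0⟩, ⟨23961600, 480, 0⟩, ⟨-29491200, 2018, 3453⟩, ⟨26081280, -536, -1221⟩]) rfl rfl
    (List.mem_of_getElem? (i := 46) rfl) TH_fr TH_cov ?_
  · intro X Y h
    simp only [List.forall_mem_cons, List.not_mem_nil, false_imp_iff, implies_true, and_true] at h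
    push_cast at h ⊢
    obtain ⟨h0, h1, h2, h3⟩ := h
    refine ⟨⟨?_, ?_⟩, ?_, ?_⟩ <;> linarith

theorem TH_rg47 : ROK [.q ⟨-215, -265, 480, 0⟩ ⟨-745, 265, 480, 0⟩, .q ⟨208, 272, -480, 0⟩ ⟨-752, 272, 480, 0⟩, .q ⟨745, -265, -480, 0⟩ ⟨2958, 2643, -2402, -3199⟩, .q ⟨752, -272, -480, 0⟩ ⟨2958, 2643, -2402, -3199⟩, .q ⟨745, -265, -480, 0⟩ ⟨-2518, -3083, 2402, 3199⟩, .q ⟨752, -272, -480, 0⟩ ⟨-2518, -3083, 2402, 3199⟩] := by
  refine rok_bys (s := -1) (nlo := 265) (nhi := 272) (q := 480) (by decide) (by decide) (by decide) (by decide) (z := 3) (by decide) TH_sc (k := 1) (by decide) (Q := [(-2402, 3199, -2643), (2402, -3199, 3083)])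
    (P := [⟨-24422400, -480, 0⟩, ⟨25067520, 480, 0⟩, ⟨-243578880, -2402, 3199⟩, ⟨284129280, 2402, -3199⟩]) rfl rfl
    (List.mem_of_getElem? (i := 47) rfl) TH_fr TH_cov ?_
  · intro X Y h
    simp only [List.forall_mem_cons, List.not_mem_nil, false_imp_iff, implies_true, and_true] at h
    push_cast at h ⊢
    obtain ⟨h0, h1, h2, h3⟩ := h
    refine ⟨⟨?_, ?_⟩, ?_, ?_⟩ <;> linarith

end Pool.Agent.TET
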