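import Pool.Agent.Helper38_TET.TH_C

/-!
# MP_c7c9bf_co: certificates, family TH
-/

set_option autoImplicit false
set_option maxRecDepth 100000

namespace Pool.Agent.TET

theorem TH_rg48 : ROK [.q ⟨-10, -10, 20, 0⟩ ⟨-30, 10, 20, 0⟩, .q ⟨9, 11, -20, 0⟩ ⟨-31, 11, 20, 0⟩, .q ⟨30, -10, -20, 0⟩ ⟨10814, -7875, 947, -3886⟩, .q ⟨31, -11, -20, 0⟩ ⟨10814, -7875, 947, -3886⟩, .q ⟨30, -10, -20, 0⟩ ⟨-1631, -1308, -947, 3886⟩, .q ⟨31, -11, -20, 0⟩ ⟨-1631, -1308, -947, 3886⟩, .q ⟨30, -10, -20, 0⟩ ⟨2538, 1777, -329, -3986⟩, .q ⟨31, -11, -20, 0⟩ ⟨2538, 1777, -329, -3986⟩, .q ⟨30, -10, -20, 0⟩ ⟨-723, -347, -2242, 3312⟩, .q ⟨31, -11, -20, 0⟩ ⟨-723, -347, -2242, 3312⟩] := by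
  refine rok_bys (s := -1) (nlo := 10) (nhi := 11) (q := 20) (by decide) (by decide) (by decide) (by decide) (z := 3) (by decide) TH_sc (k := 1) (by decide) (Q := [(947, 3886, 7875), (-947, -3886, 1308), (-329, 3986, -1777), (-2242, -3312, 347)])
    (P := [⟨-921600, -20, 0⟩, ⟨1013760, 20, 0⟩, ⟨725760000, 947, 3886⟩, ⟨120545280, -947, -3886⟩, ⟨-163768320, -329, 3986⟩, ⟨31979520, -2242, -3312⟩]) rfl rfl
    (List.mem_of_getElem? (i := 48) rfl) TH_fr TH_cov ?_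
  · intro X Y h
    simp only [List.forall_mem_cons, List.not_mem_nil, false_imp_iff, implies_true, and_true] at h
    push_cast at h ⊢
    obtain ⟨h0, h1, h2, h3, h4, h5⟩ := h
    refine ⟨⟨?_, ?_⟩, ?_, ?_⟩ <;> linarith

theorem TH_rg49 : ROK [.q ⟨-230, -250, 480, 0⟩ ⟨-730, 250, 480, 0⟩, .q ⟨221, 259, -480, 0⟩ ⟨-739, 259, 480, 0⟩, .q ⟨730, -250, -480, 0⟩ ⟨1338, 549, 1723, -3610⟩, .q ⟨739, -259, -480, 0⟩ ⟨1338, 549, 1723, -3610⟩, .q ⟨730, -250, -480, 0⟩ ⟨-1124, -763, -1723, 3610⟩, .q ⟨739, -259, -480, 0⟩ ⟨-1124, -763, -1723, 3610⟩] := by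
  refine rok_bys (s := -1) (nlo := 250) (nhi := 259) (q := 480) (by decide) (by decide) (by decide) (by decide) (z := 3) (by decide) TH_sc (k := 1) (by decide) (Q := [(1723, 3610, -549), (-1723, -3610, 763)])
    (P := [⟨-23040000, -480, 0⟩, ⟨23869440, 480, 0⟩, ⟨-50595840, 1723, 3610⟩, ⟨70318080, -1723, -3610⟩]) rfl rfl
    (List.mem_of_getElem? (i := 49) rfl) TH_fr TH_cov ?_
  · intro X Y h
    simp only [List.forall_mem_cons, List.not_mem_nil, false_imp_iff, implies_true, and_true] at h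
    push_cast at h ⊢
    obtain ⟨h0, h1, h2, h3⟩ := h
    refine ⟨⟨?_, ?_⟩, ?_, ?_⟩ <;> linarith

theorem TH_rg50 : ROK [.q ⟨-451, -509, 960, 0⟩ ⟨-1469, 509, 960, 0⟩, .q ⟨440, 520, -960, 0⟩ ⟨-1480, 520, 960, 0⟩, .q ⟨1469, -509, -960, 0⟩ ⟨2420, 1627, -47, -4000⟩, .q ⟨1480, -520, -960, 0⟩ ⟨2420, 1627, -47, -4000⟩, .q ⟨1469, -509, -960, 0⟩ ⟨-1194, -837, -1624, 3655⟩, .q ⟨1480, -520, -960, 0⟩ ⟨-1194, -837, -1624, 3655⟩] := by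
  refine rok_bys (s := -1) (nlo := 509) (nhi := 520) (q := 960) (by decide) (by decide) (by decide) (by decide) (z := 3) (by decide) TH_sc (k := 1) (by decide) (Q := [(-47, 4000, -1627), (-1624, -3655, 837)])
    (P := [⟨-46909440, -960, 0⟩, ⟨47923200, 960, 0⟩, ⟨-149944320, -47, 4000⟩, ⟨77137920, -1624, -3655⟩]) rfl rfl
    (List.mem_of_getElem? (i := 50) rfl) TH_fr TH_cov ?_
  · intro X Y h
    simp only [List.forall_mem_cons, List.not_mem_nil, false_imp_iff, implies_true, and_true] at h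
    push_cast at h ⊢
    obtain ⟨h0, h1, h2, h3⟩ := h
    refine ⟨⟨?_, ?_⟩, ?_, ?_⟩ <;> linarith

theorem TH_rg51 : ROK [.q ⟨-39, -41, 80, 0⟩ ⟨-121, 41, 80, 0⟩, .q ⟨36, 44, -80, 0⟩ ⟨-124, 44, 80, 0⟩, .q ⟨121, -41, -80, 0⟩ ⟨2854, 2603, -1983, -3474⟩, .q ⟨124, -44, -80, 0⟩ ⟨2854, 2603, -1983, -3474⟩, .q ⟨121, -41, -80, 0⟩ ⟨-568, -388, -853, 1809⟩, .q ⟨124, -44, -80, 0⟩ ⟨-568, -388, -853, 1809⟩] := by
  refine rok_bys (s := -1) (nlo := 41) (nhi := 44) (q := 80) (by decide) (by decide) (by decide) (by decide) (z := 3) (by decide) TH_sc (k := 1) (by decide) (Q := [(-1983, 3474, -2603), (-853, -1809, 388)])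
    (P := [⟨-3778560, -80, 0⟩, ⟨4055040, 80, 0⟩, ⟨-239892480, -1983, 3474⟩, ⟨35758080, -853, -1809⟩]) rfl rfl
    (List.mem_of_getElem? (i := 51) rfl) TH_fr TH_cov ?_
  · intro X Y h
    simp only [List.forall_mem_cons, List.not_mem_nil, false_imp_iff, implies_true, and_true] at h
    push_cast at h ⊢
    obtain ⟨h0, h1, h2, h3⟩ := h
    refine ⟨⟨?_, ?_⟩, ?_, ?_⟩ <;> linarith

theorem TH_rg52 : ROK [.q ⟨-451, -509, 960, 0⟩ ⟨-1469, 509, 960, 0⟩, .q ⟨443, 517, -960, 0⟩ ⟨-1477, 517, 960, 0⟩, .q ⟨1469, -509, -960, 0⟩ ⟨1388, 565, 1678, -3631⟩, .q ⟨1477, -517, -960, 0⟩ ⟨1388, 565, 1678, -3631⟩, .q ⟨1469, -509, -960, 0⟩ ⟨-1156, -797, -1678, 3631⟩, .q ⟨1477, -517, -960, 0⟩ ⟨-1156, -797, -1678, 3631⟩] := by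
  refine rok_bys (s := -1) (nlo := 509) (nhi := 517) (q := 960) (by decide) (by decide) (by decide) (by decide) (z := 3) (by decide) TH_sc (k := 1) (by decide) (Q := [(1678, 3631, -565), (-1678, -3631, 797)])
    (P := [⟨-46909440, -960, 0⟩, ⟨47646720, 960, 0⟩, ⟨-52070400, 1678, 3631⟩, ⟨73451520, -1678, -3631⟩]) rfl rfl
    (List.mem_of_getElem? (i := 52) rfl) TH_fr TH_cov ?_
  · intro X Y h
    simp only [List.forall_mem_cons, List.not_mem_nil, false_imp_iff, implies_true, and_true] at h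
    push_cast at h ⊢
    obtain ⟨h0, h1, h2, h3⟩ := h
    refine ⟨⟨?_, ?_⟩, ?_, ?_⟩ <;> linarith

theorem TH_rg53 : ROK [.q ⟨-19, -21, 40, 0⟩ ⟨-61, 21, 40, 0⟩, .q ⟨17, 23, -40, 0⟩ ⟨-63, 23, 40, 0⟩, .q ⟨61, -21, -40, 0⟩ ⟨14205, -9868, -353, -3984⟩, .q ⟨63, -23, -40, 0⟩ ⟨14205, -9868, -353, -3984⟩, .q ⟨61, -21, -40, 0⟩ ⟨-2083, -2505, 640, 3948⟩, .q ⟨63, -23, -40, 0⟩ ⟨-2083, -2505, 640, 3948⟩, .q ⟨61, -21, -40, 0⟩ ⟨2551, 2858, -3533, -1876⟩, .q ⟨63, -23, -40, 0⟩ ⟨2551, 2858, -3533, -1876⟩] := by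
  refine rok_bys (s := -1) (nlo := 21) (nhi := 23) (q := 40) (by decide) (by decide) (by decide) (by decide) (z := 3) (by decide) TH_sc (k := 1) (by decide) (Q := [(-353, 3984, 9868), (640, -3948, 2505), (-3533, 1876, -2858)])
    (P := [⟨-1935360, -40, 0⟩, ⟨2119680, 40, 0⟩, ⟨909434880, -353, 3984⟩, ⟨230860800, 640, -3948⟩, ⟨-263393280, -3533, 1876⟩]) rfl rfl
    (List.mem_of_getElem? (i := 53) rfl) TH_fr TH_cov ?_
  · intro X Y h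
    simp only [List.forall_mem_cons, List.not_mem_nil, false_imp_iff, implies_true, and_true] at h
    push_cast at h ⊢
    obtain ⟨h0, h1, h2, h3, h4⟩ := h
    refine ⟨⟨?_, ?_⟩, ?_, ?_⟩ <;> linarith

theorem TH_rg54 : ROK [.q ⟨-224, -256, 480, 0⟩ ⟨-736, 256, 480, 0⟩, .q ⟨217, 263, -480, 0⟩ ⟨-743, 263, 480, 0⟩, .q ⟨736, -256, -480, 0⟩ ⟨269, -115, 1335, -1489⟩, .q ⟨743, -263, -480, 0⟩ ⟨269, -115, 1335, -1489⟩, .q ⟨736, -256, -480, 0⟩ ⟨-175, 21, -1335, 1489⟩, .q ⟨743, -263, -480, 0⟩ ⟨-175, 21, -1335, 1489⟩] := by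
  refine rok_bys (s := -1) (nlo := 256) (nhi := 263) (q := 480) (by decide) (by decide) (by decide) (by decide) (z := 3) (by decide) TH_sc (k := 1) (by decide) (Q := [(1335, 1489, 115), (-1335, -1489, -21)])
    (P := [⟨-23592960, -480, 0⟩, ⟨24238080, 480, 0⟩, ⟨10598400, 1335, 1489⟩, ⟨-1935360, -1335, -1489⟩]) rfl rfl
    (List.mem_of_getElem? (i := 54) rfl) TH_fr TH_cov ?_
  · intro X Y h
    simp only [List.forall_mem_cons, List.not_mem_nil, false_imp_iff, implies_true, and_true] at h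
    push_cast at h ⊢
    obtain ⟨h0, h1, h2, h3⟩ := h
    refine ⟨⟨?_, ?_⟩, ?_, ?_⟩ <;> linarith

theorem TH_rg55 : ROK [.q ⟨-447, -513, 960, 0⟩ ⟨-1473, 513, 960, 0⟩, .q ⟨439, 521, -960, 0⟩ ⟨-1481, 521, 960, 0⟩, .q ⟨1473, -513, -960, 0⟩ ⟨11114, -9249, 1738, -3603⟩, .q ⟨1481, -521, -960, 0⟩ ⟨11114, -9249, 1738, -3603⟩, .q ⟨1473, -513, -960, 0⟩ ⟨-1113, -752, -1738, 3603⟩, .q ⟨1481, -521, -960, 0⟩ ⟨-1113, -752, -1738, 3603⟩, .q ⟨1473, -513, -960, 0⟩ ⟨3004, 2519, -2149, -3374⟩, .q ⟨1481, -521, -960, 0⟩ ⟨3004, 2519, -2149, -3374⟩] := by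
  refine rok_bys (s := -1) (nlo := 513) (nhi := 521) (q := 960) (by decide) (by decide) (by decide) (by decide) (z := 3) (by decide) TH_sc (k := 1) (by decide) (Q := [(1738, 3603, 9249), (-1738, -3603, 752), (-2149, 3374, -2519)])
    (P := [⟨-47278080, -960, 0⟩, ⟨48015360, 960, 0⟩, ⟨852387840, 1738, 3603⟩, ⟨69304320, -1738, -3603⟩, ⟨-232151040, -2149, 3374⟩]) rfl rfl
    (List.mem_of_getElem? (i := 55) rfl) TH_fr TH_cov ?_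
  · intro X Y h
    simp only [List.forall_mem_cons, List.not_mem_nil, false_imp_iff, implies_true, and_true] at h
    push_cast at h ⊢
    obtain ⟨h0, h1, h2, h3, h4⟩ := h
    refine ⟨⟨?_, ?_⟩, ?_, ?_⟩ <;> linarith

theorem TH_rg56 : ROK [.q ⟨-20, -20, 40, 0⟩ ⟨-60, 20, 40, 0⟩, .q ⟨17, 23, -40, 0⟩ ⟨-63, 23, 40, 0⟩, .q ⟨60, -20, -40, 0⟩ ⟨13768, -10536, 705, -3937⟩, .q ⟨63, -23, -40, 0⟩ ⟨13768, -10536, 705, -3937⟩, .q ⟨60, -20, -40, 0⟩ ⟨-1824, -1614, -527, 3965⟩, .q ⟨63, -23, -40, 0⟩ ⟨-1824, -1614, -527, 3965⟩, .q ⟨60, -20, -40, 0⟩ ⟨2493, 1732, -232, -3993⟩, .q ⟨63, -23, -40, 0⟩ ⟨2493, 1732, -232, -3993⟩, .q ⟨60, -20, -40, 0⟩ ⟨89, 221, -1085, 775⟩, .q ⟨63, -23, -40, 0⟩ ⟨89, 221, -1085, 775⟩] := by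
  refine rok_bys (s := -1) (nlo := 20) (nhi := 23) (q := 40) (by decide) (by decide) (by decide) (by decide) (z := 3) (by decide) TH_sc (k := 1) (by decide) (Q := [(705, 3937, 10536), (-527, -3965, 1614), (-232, 3993, -1732), (-1085, -775, -221)])
    (P := [⟨-1843200, -40, 0⟩, ⟨2119680, 40, 0⟩, ⟨970997760, 705, 3937⟩, ⟨148746240, -527, -3965⟩, ⟨-159621120, -232, 3993⟩, ⟨-20367360, -1085, -775⟩]) rfl rfl
    (List.mem_of_getElem? (i := 56) rfl) TH_fr TH_cov ?_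
  · intro X Y h
    simp only [List.forall_mem_cons, List.not_mem_nil, false_imp_iff, implies_true, and_true] at h
    push_cast at h ⊢
    obtain ⟨h0, h1, h2, h3, h4, h5⟩ := h
    refine ⟨⟨?_, ?_⟩, ?_, ?_⟩ <;> linarith

theorem TH_rg57 : ROK [.q ⟨-20, -20, 40, 0⟩ ⟨-60, 20, 40, 0⟩, .q ⟨17, 23, -40, 0⟩ ⟨-63, 23, 40, 0⟩, .q ⟨60, -20, -40, 0⟩ ⟨812, 551, -30, -1333⟩, .q ⟨63, -23, -40, 0⟩ ⟨812, 551, -30, -1333⟩, .q ⟨60, -20, -40, 0⟩ ⟨-1105, -742, -1750, 3597⟩, .q ⟨63, -23, -40, 0⟩ ⟨-1105, -742, -1750, 3597⟩] := by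
  refine rok_bys (s := -1) (nlo := 20) (nhi := 23) (q := 40) (by decide) (by decide) (by decide) (by decide) (z := 3) (by decide) TH_sc (k := 1) (by decide) (Q := [(-30, 1333, -551), (-1750, -3597, 742)])
    (P := [⟨-1843200, -40, 0⟩, ⟨2119680, 40, 0⟩, ⟨-50780160, -30, 1333⟩, ⟨68382720, -1750, -3597⟩]) rfl rfl
    (List.mem_of_getElem? (i := 57) rfl) TH_fr TH_cov ?_
  · intro X Y h
    simp only [List.forall_mem_cons, List.not_mem_nil, false_imp_iff, implies_true, and_true] at h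
    push_cast at h ⊢
    obtain ⟨h0, h1, h2, h3⟩ := h
    refine ⟨⟨?_, ?_⟩, ?_, ?_⟩ <;> linarith

theorem TH_rg58 : ROK [.q ⟨-39, -41, 80, 0⟩ ⟨-121, 41, 80, 0⟩, .q ⟨37, 43, -80, 0⟩ ⟨-123, 43, 80, 0⟩, .q ⟨121, -41, -80, 0⟩ ⟨13177, -11263, 1705, -3619⟩, .q ⟨123, -43, -80, 0⟩ ⟨13177, -11263, 1705, -3619⟩, .q ⟨121, -41, -80, 0⟩ ⟨-1137, -777, -1705, 3619⟩, .q ⟨123, -43, -80, 0⟩ ⟨-1137, -777, -1705, 3619⟩, .q ⟨121, -41, -80, 0⟩ ⟨947, 909, -1094, -762⟩, .q ⟨123, -43, -80, 0⟩ ⟨947, 909, -1094, -762⟩] := by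
  refine rok_bys (s := -1) (nlo := 41) (nhi := 43) (q := 80) (by decide) (by decide) (by decide) (by decide) (z := 3) (by decide) TH_sc (k := 1) (by decide) (Q := [(1705, 3619, 11263), (-1705, -3619, 777), (-1094, 762, -909)])
    (P := [⟨-3778560, -80, 0⟩, ⟨3962880, 80, 0⟩, ⟨1037998080, 1705, 3619⟩, ⟨71608320, -1705, -3619⟩, ⟨-83773440, -1094, 762⟩]) rfl rfl
    (List.mem_of_getElem? (i := 58) rfl) TH_fr TH_cov ?_
  · intro X Y h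
    simp only [List.forall_mem_cons, List.not_mem_nil, false_imp_iff, implies_true, and_true] at h
    push_cast at h ⊢
    obtain ⟨h0, h1, h2, h3, h4⟩ := h
    refine ⟨⟨?_, ?_⟩, ?_, ?_⟩ <;> linarith

theorem TH_rg59 : ROK [.q ⟨-38, -42, 80, 0⟩ ⟨-122, 42, 80, 0⟩, .q ⟨35, 45, -80, 0⟩ ⟨-125, 45, 80, 0⟩, .q ⟨122, -42, -80, 0⟩ ⟨446, 179, 577, -1202⟩, .q ⟨125, -45, -80, 0⟩ ⟨446, 179, 577, -1202⟩, .q ⟨122, -42, -80, 0⟩ ⟨-1118, -757, -1731, 3606⟩, .q ⟨125, -45, -80, 0⟩ ⟨-1118, -757, -1731, 3606⟩] := by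
  refine rok_bys (s := -1) (nlo := 42) (nhi := 45) (q := 80) (by decide) (by decide) (by decide) (by decide) (z := 3) (by decide) TH_sc (k := 1) (by decide) (Q := [(577, 1202, -179), (-1731, -3606, 757)])
    (P := [⟨-3870720, -80, 0⟩, ⟨4147200, 80, 0⟩, ⟨-16496640, 577, 1202⟩, ⟨69765120, -1731, -3606⟩]) rfl rfl
    (List.mem_of_getElem? (i := 59) rfl) TH_fr TH_cov ?_
  · intro X Y h
    simp only [List.forall_mem_cons, List.not_mem_nil, false_imp_iff, implies_true, and_true] at h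
    push_cast at h ⊢
    obtain ⟨h0, h1, h2, h3⟩ := h
    refine ⟨⟨?_, ?_⟩, ?_, ?_⟩ <;> linarith

theorem TH_rg60 : ROK [.q ⟨-452, -508, 960, 0⟩ ⟨-1468, 508, 960, 0⟩, .q ⟨441, 519, -960, 0⟩ ⟨-1479, 519, 960, 0⟩, .q ⟨1468, -508, -960, 0⟩ ⟨14817, -9283, -2181, -3353⟩, .q ⟨1479, -519, -960, 0⟩ ⟨14817, -9283, -2181, -3353⟩, .q ⟨1468, -508, -960, 0⟩ ⟨-1315, -964, -1449, 3728⟩, .q ⟨1479, -519, -960, 0⟩ ⟨-1315, -964, -1449, 3728⟩, .q ⟨1468, -508, -960, 0⟩ ⟨2987, 2457, -1954, -3490⟩, .q ⟨1479, -519, -960, 0⟩ ⟨2987, 2457, -1954, -3490⟩] := by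
  refine rok_bys (s := -1) (nlo := 508) (nhi := 519) (q := 960) (by decide) (by decide) (by decide) (by decide) (z := 3) (by decide) TH_sc (k := 1) (by decide) (Q := [(-2181, 3353, 9283), (-1449, -3728, 964), (-1954, 3490, -2457)])
    (P := [⟨-46817280, -960, 0⟩, ⟨47831040, 960, 0⟩, ⟨855521280, -2181, 3353⟩, ⟨88842240, -1449, -3728⟩, ⟨-226437120, -1954, 3490⟩]) rfl rfl
    (List.mem_of_getElem? (i := 60) rfl) TH_fr TH_cov ?_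
  · intro X Y h
    simp only [List.forall_mem_cons, List.not_mem_nil, false_imp_iff, implies_true, and_true] at h
    push_cast at h ⊢
    obtain ⟨h0, h1, h2, h3, h4⟩ := h
    refine ⟨⟨?_, ?_⟩, ?_, ?_⟩ <;> linarith

theorem TH_rg61 : ROK [.q ⟨-461, -499, 960, 0⟩ ⟨-1459, 499, 960, 0⟩, .q ⟨450, 510, -960, 0⟩ ⟨-1470, 510, 960, 0⟩, .q ⟨1459, -499, -960, 0⟩ ⟨483, 219, 524, -1226⟩, .q ⟨1470, -510, -960, 0⟩ ⟨483, 219, 524, -1226⟩, .q ⟨1459, -499, -960, 0⟩ ⟨-616, -437, -786, 1839⟩, .q ⟨1470, -510, -960, 0⟩ ⟨-616, -437, -786, 1839⟩] := by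
  refine rok_bys (s := -1) (nlo := 499) (nhi := 510) (q := 960) (by decide) (by decide) (by decide) (by decide) (z := 3) (by decide) TH_sc (k := 1) (by decide) (Q := [(524, 1226, -219), (-786, -1839, 437)])
    (P := [⟨-45987840, -960, 0⟩, ⟨47001600, 960, 0⟩, ⟨-20183040, 524, 1226⟩, ⟨40273920, -786, -1839⟩]) rfl rfl
    (List.mem_of_getElem? (i := 61) rfl) TH_fr TH_cov ?_
  · intro X Y h
    simp only [List.forall_mem_cons, List.not_mem_nil, false_imp_iff, implies_true, and_true] at h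
    push_cast at h ⊢
    obtain ⟨h0, h1, h2, h3⟩ := h
    refine ⟨⟨?_, ?_⟩, ?_, ?_⟩ <;> linarith

theorem TH_rg62 : ROK [.q ⟨-233, -247, 480, 0⟩ ⟨-727, 247, 480, 0⟩, .q ⟨226, 254, -480, 0⟩ ⟨-734, 254, 480, 0⟩, .q ⟨727, -247, -480, 0⟩ ⟨1409, 633, 1617, -3659⟩, .q ⟨734, -254, -480, 0⟩ ⟨1409, 633, 1617, -3659⟩, .q ⟨727, -247, -480, 0⟩ ⟨-1201, -841, -1617, 3659⟩, .q ⟨734, -254, -480, 0⟩ ⟨-1201, -841, -1617, 3659⟩] := by
  refine rok_bys (s := -1) (nlo := 247) (nhi := 254) (q := 480) (by decide) (by decide) (by decide) (by decide) (z := 3) (by decide) TH_sc (k := 1) (by decide) (Q := [(1617, 3659, -633), (-1617, -3659, 841)])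
    (P := [⟨-22763520, -480, 0⟩, ⟨23408640, 480, 0⟩, ⟨-58337280, 1617, 3659⟩, ⟨77506560, -1617, -3659⟩]) rfl rfl
    (List.mem_of_getElem? (i := 62) rfl) TH_fr TH_cov ?_
  · intro X Y h
    simp only [List.forall_mem_cons, List.not_mem_nil, false_imp_iff, implies_true, and_true] at h
    push_cast at h ⊢
    obtain ⟨h0, h1, h2, h3⟩ := h
    refine ⟨⟨?_, ?_⟩, ?_, ?_⟩ <;> linarith

theorem TH_rg63 : ROK [.q ⟨-20, -20, 40, 0⟩ ⟨-60, 20, 40, 0⟩, .q ⟨17, 23, -40, 0⟩ ⟨-63, 23, 40, 0⟩, .q ⟨60, -20, -40, 0⟩ ⟨1399, 673, 1596, -3668⟩, .q ⟨63, -23, -40, 0⟩ ⟨1399, 673, 1596, -3668⟩, .q ⟨60, -20, -40, 0⟩ ⟨-1113, -750, -1739, 3602⟩, .q ⟨63, -23, -40, 0⟩ ⟨-1113, -750, -1739, 3602⟩] := by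
  refine rok_bys (s := -1) (nlo := 20) (nhi := 23) (q := 40) (by decide) (by decide) (by decide) (by decide) (z := 3) (by decide) TH_sc (k := 1) (by decide) (Q := [(1596, 3668, -673), (-1739, -3602, 750)])
    (P := [⟨-1843200, -40, 0⟩, ⟨2119680, 40, 0⟩, ⟨-62023680, 1596, 3668⟩, ⟨69120000, -1739, -3602⟩]) rfl rfl
    (List.mem_of_getElem? (i := 63) rfl) TH_fr TH_cov ?_
  · intro X Y h
    simp only [List.forall_mem_cons, List.not_mem_nil, false_imp_iff, implies_true, and_true] at h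
    push_cast at h ⊢
    obtain ⟨h0, h1, h2, h3⟩ := h
    refine ⟨⟨?_, ?_⟩, ?_, ?_⟩ <;> linarith

theorem TH_rg64 : ROK [.q ⟨-230, -250, 480, 0⟩ ⟨-730, 250, 480, 0⟩, .q ⟨221, 259, -480, 0⟩ ⟨-739, 259, 480, 0⟩, .q ⟨730, -250, -480, 0⟩ ⟨6639, -4639, 0, -2000⟩, .q ⟨739, -259, -480, 0⟩ ⟨6639, -4639, 0, -2000⟩, .q ⟨730, -250, -480, 0⟩ ⟨-2780, -2716, 2077, 3419⟩, .q ⟨739, -259, -480, 0⟩ ⟨-2780, -2716, 2077, 3419⟩, .q ⟨730, -250, -480, 0⟩ ⟨2927, 2321, -1569, -3679⟩, .q ⟨739, -259, -480, 0⟩ ⟨2927, 2321, -1569, -3679⟩, .q ⟨730, -250, -480, 0⟩ ⟨-944, -575, -1965, 3484⟩, .q ⟨739, -259, -480, 0⟩ ⟨-944, -575, -1965, 3484⟩] := by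
  refine rok_bys (s := -1) (nlo := 250) (nhi := 259) (q := 480) (by decide) (by decide) (by decide) (by decide) (z := 3) (by decide) TH_sc (k := 1) (by decide) (Q := [(0, 2000, 4639), (2077, -3419, 2716), (-1569, 3679, -2321), (-1965, -3484, 575)])
    (P := [⟨-23040000, -480, 0⟩, ⟨23869440, 480, 0⟩, ⟨427530240, 0, 2000⟩, ⟨250306560, 2077, -3419⟩, ⟨-213903360, -1569, 3679⟩, ⟨52992000, -1965, -3484⟩]) rfl rfl
    (List.mem_of_getElem? (i := 64) rfl) TH_fr TH_cov ?_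
  · intro X Y h
    simp only [List.forall_mem_cons, List.not_mem_nil, false_imp_iff, implies_true, and_true] at h
    push_cast at h ⊢
    obtain ⟨h0, h1, h2, h3, h4, h5⟩ := h
    refine ⟨⟨?_, ?_⟩, ?_, ?_⟩ <;> linarith

theorem TH_rg65 : ROK [.q ⟨-20, -20, 40, 0⟩ ⟨-60, 20, 40, 0⟩, .q ⟨17, 23, -40, 0⟩ ⟨-63, 23, 40, 0⟩, .q ⟨60, -20, -40, 0⟩ ⟨1654, 900, 1247, -3801⟩, .q ⟨63, -23, -40, 0⟩ ⟨1654, 900, 1247, -3801⟩, .q ⟨60, -20, -40, 0⟩ ⟨-707, -350, -2250, 3307⟩, .q ⟨63, -23, -40, 0⟩ ⟨-707, -350, -2250, 3307⟩, .q ⟨60, -20, -40, 0⟩ ⟨-1672, -1327, -899, 3898⟩, .q ⟨63, -23, -40, 0⟩ ⟨-1672, -1327, -899, 3898⟩] := by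
  refine rok_bys (s := -1) (nlo := 20) (nhi := 23) (q := 40) (by decide) (by decide) (by decide) (by decide) (z := 3) (by decide) TH_sc (k := 1) (by decide) (Q := [(1247, 3801, -900), (-2250, -3307, 350), (-899, -3898, 1327)])
    (P := [⟨-1843200, -40, 0⟩, ⟨2119680, 40, 0⟩, ⟨-82944000, 1247, 3801⟩, ⟨32256000, -2250, -3307⟩, ⟨122296320, -899, -3898⟩]) rfl rfl
    (List.mem_of_getElem? (i := 65) rfl) TH_fr TH_cov ?_
  · intro X Y h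
    simp only [List.forall_mem_cons, List.not_mem_nil, false_imp_iff, implies_true, and_true] at h
    push_cast at h ⊢
    obtain ⟨h0, h1, h2, h3, h4⟩ := h
    refine ⟨⟨?_, ?_⟩, ?_, ?_⟩ <;> linarith

theorem TH_rg66 : ROK [.q ⟨-39, -41, 80, 0⟩ ⟨-121, 41, 80, 0⟩, .q ⟨36, 44, -80, 0⟩ ⟨-124, 44, 80, 0⟩, .q ⟨121, -41, -80, 0⟩ ⟨2399, 1601, 0, -4000⟩, .q ⟨124, -44, -80, 0⟩ ⟨2399, 1601, 0, -4000⟩, .q ⟨121, -41, -80, 0⟩ ⟨-1116, -755, -1734, 3605⟩, .q ⟨124, -44, -80, 0⟩ ⟨-1116, -755, -1734, 3605⟩] := by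
  refine rok_bys (s := -1) (nlo := 41) (nhi := 44) (q := 80) (by decide) (by decide) (by decide) (by decide) (z := 3) (by decide) TH_sc (k := 1) (by decide) (Q := [(0, 4000, -1601), (-1734, -3605, 755)])
    (P := [⟨-3778560, -80, 0⟩, ⟨4055040, 80, 0⟩, ⟨-147548160, 0, 4000⟩, ⟨69580800, -1734, -3605⟩]) rfl rfl
    (List.mem_of_getElem? (i := 66) rfl) TH_fr TH_cov ?_
  · intro X Y h
    simp only [List.forall_mem_cons, List.not_mem_nil, false_imp_iff, implies_true, and_true] at h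
    push_cast at h ⊢
    obtain ⟨h0, h1, h2, h3⟩ := h
    refine ⟨⟨?_, ?_⟩, ?_, ?_⟩ <;> linarith

theorem TH_rg67 : ROK [.q ⟨-440, -520, 960, 0⟩ ⟨-1480, 520, 960, 0⟩, .q ⟨433, 527, -960, 0⟩ ⟨-1487, 527, 960, 0⟩, .q ⟨1480, -520, -960, 0⟩ ⟨733, -94, 2491, -3130⟩, .q ⟨1487, -527, -960, 0⟩ ⟨733, -94, 2491, -3130⟩, .q ⟨1480, -520, -960, 0⟩ ⟨-499, -140, -2491, 3130⟩, .q ⟨1487, -527, -960, 0⟩ ⟨-499, -140, -2491, 3130⟩] := by
  refine rok_bys (s := -1) (nlo := 520) (nhi := 527) (q := 960) (by decide) (by decide) (by decide) (by decide) (z := 3) (by decide) TH_sc (k := 1) (by decide) (Q := [(2491, 3130, 94), (-2491, -3130, 140)])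
    (P := [⟨-47923200, -960, 0⟩, ⟨48568320, 960, 0⟩, ⟨8663040, 2491, 3130⟩, ⟨12902400, -2491, -3130⟩]) rfl rfl
    (List.mem_of_getElem? (i := 67) rfl) TH_fr TH_cov ?_
  · intro X Y h
    simp only [List.forall_mem_cons, List.not_mem_nil, false_imp_iff, implies_true, and_true] at h
    push_cast at h ⊢
    obtain ⟨h0, h1, h2, h3⟩ := h
    refine ⟨⟨?_, ?_⟩, ?_, ?_⟩ <;> linarith

theorem TH_rg68 : ROK [.q ⟨-37, -43, 80, 0⟩ ⟨-123, 43, 80, 0⟩, .q ⟨34, 46, -80, 0⟩ ⟨-126, 46, 80, 0⟩, .q ⟨123, -43, -80, 0⟩ ⟨1409, -1009, 0, -400⟩, .q ⟨126, -46, -80, 0⟩ ⟨1409, -1009, 0, -400⟩, .q ⟨123, -43, -80, 0⟩ ⟨5387, -6463, -770, 1846⟩, .q ⟨126, -46, -80, 0⟩ ⟨5387, -6463, -770, 1846⟩, .q ⟨123, -43, -80, 0⟩ ⟨1881, 1037, 964, -3882⟩, .q ⟨126, -46, -80, 0⟩ ⟨1881, 1037, 964, -3882⟩, .q ⟨123, -43, -80, 0⟩ ⟨91, 134, -372, 147⟩, .q ⟨126, -46, -80, 0⟩ ⟨91, 134, -372,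 147⟩] := by
  refine rok_bys (s := -1) (nlo := 43) (nhi := 46) (q := 80) (by decide) (by decide) (by decide) (by decide) (z := 3) (by decide) TH_sc (k := 1) (by decide) (Q := [(0, 400, 1009), (-770, -1846, 6463), (964, 3882, -1037), (-372, -147, -134)])
    (P := [⟨-3962880, -80, 0⟩, ⟨4239360, 80, 0⟩, ⟨92989440, 0, 400⟩, ⟨595630080, -770, -1846⟩, ⟨-95569920, 964, 3882⟩, ⟨-12349440, -372, -147⟩]) rfl rfl
    (List.mem_of_getElem? (i := 68) rfl) TH_fr TH_cov ?_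
  · intro X Y h
    simp only [List.forall_mem_cons, List.not_mem_nil, false_imp_iff, implies_true, and_true] at h
    push_cast at h ⊢
    obtain ⟨h0, h1, h2, h3, h4, h5⟩ := h
    refine ⟨⟨?_, ?_⟩, ?_, ?_⟩ <;> linarith

theorem TH_rg69 : ROK [.q ⟨-447, -513, 960, 0⟩ ⟨-1473, 513, 960, 0⟩, .q ⟨440, 520, -960, 0⟩ ⟨-1480, 520, 960, 0⟩, .q ⟨1473, -513, -960, 0⟩ ⟨6057, -4057, 0, -2000⟩, .q ⟨1480, -520, -960, 0⟩ ⟨6057, -4057, 0, -2000⟩, .q ⟨1473, -513, -960, 0⟩ ⟨-834, -459, -2107, 3400⟩, .q ⟨1480, -520, -960, 0⟩ ⟨-834, -459, -2107, 3400⟩, .q ⟨1473, -513, -960, 0⟩ ⟨1623, 783, 1357, -3763⟩, .q ⟨1480, -520, -960, 0⟩ ⟨1623, 783, 1357, -3763⟩, .q ⟨1473, -513, -960, 0⟩ ⟨-2201, -1958, 162, 3997⟩, .q ⟨1480, -520, -960, 0⟩ ⟨-2201, -1958, 162, 3997⟩] := by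
  refine rok_bys (s := -1) (nlo := 513) (nhi := 520) (q := 960) (by decide) (by decide) (by decide) (by decide) (z := 3) (by decide) TH_sc (k := 1) (by decide) (Q := [(0, 2000, 4057), (-2107, -3400, 459), (1357, 3763, -783), (162, -3997, 1958)])
    (P := [⟨-47278080, -960, 0⟩, ⟨47923200, 960, 0⟩, ⟨373893120, 0, 2000⟩, ⟨42301440, -2107, -3400⟩, ⟨-72161280, 1357, 3763⟩, ⟨180449280, 162, -3997⟩]) rfl rfl
    (List.mem_of_getElem? (i := 69) rfl) TH_fr TH_cov ?_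
  · intro X Y h
    simp only [List.forall_mem_cons, List.not_mem_nil, false_imp_iff, implies_true, and_true] at h
    push_cast at h ⊢
    obtain ⟨h0, h1, h2, h3, h4, h5⟩ := h
    refine ⟨⟨?_, ?_⟩, ?_, ?_⟩ <;> linarith

theorem TH_rg70 : ROK [.q ⟨-39, -41, 80, 0⟩ ⟨-121, 41, 80, 0⟩, .q ⟨36, 44, -80, 0⟩ ⟨-124, 44, 80, 0⟩, .q ⟨121, -41, -80, 0⟩ ⟨2399, 1601, 0, -4000⟩, .q ⟨124, -44, -80, 0⟩ ⟨2399, 1601, 0, -4000⟩, .q ⟨121, -41, -80, 0⟩ ⟨-1081, -720, -1781, 3582⟩, .q ⟨124, -44, -80, 0⟩ ⟨-1081, -720, -1781, 3582⟩, .q ⟨121, -41, -80, 0⟩ ⟨-1672, -1346, -883, 3901⟩, .q ⟨124, -44, -80, 0⟩ ⟨-1672, -1346, -883, 3901⟩] := by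
  refine rok_bys (s := -1) (nlo := 41) (nhi := 44) (q := 80) (by decide) (by decide) (by decide) (by decide) (z := 3) (by decide) TH_sc (k := 1) (by decide) (Q := [(0, 4000, -1601), (-1781, -3582, 720), (-883, -3901, 1346)])
    (P := [⟨-3778560, -80, 0⟩, ⟨4055040, 80, 0⟩, ⟨-147548160, 0, 4000⟩, ⟨66355200, -1781, -3582⟩, ⟨124047360, -883, -3901⟩]) rfl rfl
    (List.mem_of_getElem? (i := 70) rfl) TH_fr TH_cov ?_
  · intro X Y h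
    simp only [List.forall_mem_cons, List.not_mem_nil, false_imp_iff, implies_true, and_true] at h
    push_cast at h ⊢
    obtain ⟨h0, h1, h2, h3, h4⟩ := h
    refine ⟨⟨?_, ?_⟩, ?_, ?_⟩ <;> linarith

theorem TH_rg71 : ROK [.q ⟨-75, -85, 160, 0⟩ ⟨-245, 85, 160, 0⟩, .q ⟨72, 88, -160, 0⟩ ⟨-248, 88, 160, 0⟩, .q ⟨245, -85, -160, 0⟩ ⟨2399, 1601, 0, -4000⟩, .q ⟨248, -88, -160, 0⟩ ⟨2399, 1601, 0, -4000⟩, .q ⟨245, -85, -160, 0⟩ ⟨-1063, -699, -1807, 3569⟩, .q ⟨248, -88, -160, 0⟩ ⟨-1063, -699, -1807, 3569⟩] := by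
  refine rok_bys (s := -1) (nlo := 85) (nhi := 88) (q := 160) (by decide) (by decide) (by decide) (by decide) (z := 3) (by decide) TH_sc (k := 1) (by decide) (Q := [(0, 4000, -1601), (-1807, -3569, 699)])
    (P := [⟨-7833600, -160, 0⟩, ⟨8110080, 160, 0⟩, ⟨-147548160, 0, 4000⟩, ⟨64419840, -1807, -3569⟩]) rfl rfl
    (List.mem_of_getElem? (i := 71) rfl) TH_fr TH_cov ?_
  · intro X Y h
    simp only [List.forall_mem_cons, List.not_mem_nil, false_imp_iff, implies_true, and_true] at h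
    push_cast at h ⊢
    obtain ⟨h0, h1, h2, h3⟩ := h
    refine ⟨⟨?_, ?_⟩, ?_, ?_⟩ <;> linarith

end Pool.Agent.TET
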