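import Pool.Agent.Helper38_TET.TH_C

/-!
# MP_c7c9bf_co: certificates, family TH
-/

set_option autoImplicit false
set_option maxRecDepth 100000

namespace Pool.Agent.TET

theorem TH_rg72 : ROK [.q ⟨-21, -19, 40, 0⟩ ⟨-59, 19, 40, 0⟩, .q ⟨18, 22, -40, 0⟩ ⟨-62, 22, 40, 0⟩, .q ⟨59, -19, -40, 0⟩ ⟨790, 336, 2209, -3335⟩, .q ⟨62, -22, -40, 0⟩ ⟨790, 336, 2209, -3335⟩, .q ⟨59, -19, -40, 0⟩ ⟨-1418, -1057, -1306, 3781⟩, .q ⟨62, -22, -40, 0⟩ ⟨-1418, -1057, -1306, 3781⟩, .q ⟨59, -19, -40, 0⟩ ⟨82, 231, -1562, 1249⟩, .q ⟨62, -22, -40, 0⟩ ⟨82, 231, -1562, 1249⟩] := by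
  refine rok_bys (s := -1) (nlo := 19) (nhi := 22) (q := 40) (by decide) (by decide) (by decide) (by decide) (z := 3) (by decide) TH_sc (k := 1) (by decide) (Q := [(2209, 3335, -336), (-1306, -3781, 1057), (-1562, -1249, -231)])
    (P := [⟨-1751040, -40, 0⟩, ⟨2027520, 40, 0⟩, ⟨-30965760, 2209, 3335⟩, ⟨97413120, -1306, -3781⟩, ⟨-21288960, -1562, -1249⟩]) rfl rfl
    (List.mem_of_getElem? (i := 72) rfl) TH_fr TH_cov ?_
  · intro X Y h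
    simp only [List.forall_mem_cons, List.not_mem_nil, false_imp_iff, implies_true, and_true] at h
    push_cast at h ⊢
    obtain ⟨h0, h1, h2, h3, h4⟩ := h
    refine ⟨⟨?_, ?_⟩, ?_, ?_⟩ <;> linarith

theorem TH_rg73 : ROK [.q ⟨-235, -245, 480, 0⟩ ⟨-725, 245, 480, 0⟩, .q ⟨226, 254, -480, 0⟩ ⟨-734, 254, 480, 0⟩, .q ⟨725, -245, -480, 0⟩ ⟨2399, 1601, 0, -4000⟩, .q ⟨734, -254, -480, 0⟩ ⟨2399, 1601, 0, -4000⟩, .q ⟨725, -245, -480, 0⟩ ⟨-538, -357, -894, 1789⟩, .q ⟨734, -254, -480, 0⟩ ⟨-538, -357, -894, 1789⟩] := by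
  refine rok_bys (s := -1) (nlo := 245) (nhi := 254) (q := 480) (by decide) (by decide) (by decide) (by decide) (z := 3) (by decide) TH_sc (k := 1) (by decide) (Q := [(0, 4000, -1601), (-894, -1789, 357)])
    (P := [⟨-22579200, -480, 0⟩, ⟨23408640, 480, 0⟩, ⟨-147548160, 0, 4000⟩, ⟨32901120, -894, -1789⟩]) rfl rfl
    (List.mem_of_getElem? (i := 73) rfl) TH_fr TH_cov ?_
  · intro X Y h
    simp only [List.forall_mem_cons, List.not_mem_nil, false_imp_iff, implies_true, and_true] at h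
    push_cast at h ⊢
    obtain ⟨h0, h1, h2, h3⟩ := h
    refine ⟨⟨?_, ?_⟩, ?_, ?_⟩ <;> linarith

theorem TH_rg74 : ROK [.q ⟨-47, -49, 96, 0⟩ ⟨-145, 49, 96, 0⟩, .q ⟨45, 51, -96, 0⟩ ⟨-147, 51, 96, 0⟩, .q ⟨145, -49, -96, 0⟩ ⟨1241, 848, -91, -1998⟩, .q ⟨147, -51, -96, 0⟩ ⟨1241, 848, -91, -1998⟩, .q ⟨145, -49, -96, 0⟩ ⟨-1147, -785, -1692, 3624⟩, .q ⟨147, -51, -96, 0⟩ ⟨-1147, -785, -1692, 3624⟩] := by
  refine rok_bys (s := -1) (nlo := 49) (nhi := 51) (q := 96) (by decide) (by decide) (by decide) (by decide) (z := 3) (by decide) TH_sc (k := 1) (by decide) (Q := [(-91, 1998, -848), (-1692, -3624, 785)])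
    (P := [⟨-4515840, -96, 0⟩, ⟨4700160, 96, 0⟩, ⟨-78151680, -91, 1998⟩, ⟨72345600, -1692, -3624⟩]) rfl rfl
    (List.mem_of_getElem? (i := 74) rfl) TH_fr TH_cov ?_
  · intro X Y h
    simp only [List.forall_mem_cons, List.not_mem_nil, false_imp_iff, implies_true, and_true] at h
    push_cast at h ⊢
    obtain ⟨h0, h1, h2, h3⟩ := h
    refine ⟨⟨?_, ?_⟩, ?_, ?_⟩ <;> linarith

theorem TH_rg75 : ROK [.q ⟨-443, -517, 960, 0⟩ ⟨-1477, 517, 960, 0⟩, .q ⟨432, 528, -960, 0⟩ ⟨-1488, 528, 960, 0⟩, .q ⟨1477, -517, -960, 0⟩ ⟨553, -241, 2668, -2980⟩, .q ⟨1488, -528, -960, 0⟩ ⟨553, -241, 2668, -2980⟩, .q ⟨1477, -517, -960, 0⟩ ⟨-173, 17, -1334, 1490⟩, .q ⟨1488, -528, -960, 0⟩ ⟨-173, 17, -1334, 1490⟩] := by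
  refine rok_bys (s := -1) (nlo := 517) (nhi := 528) (q := 960) (by decide) (by decide) (by decide) (by decide) (z := 3) (by decide) TH_sc (k := 1) (by decide) (Q := [(2668, 2980, 241), (-1334, -1490, -17)])
    (P := [⟨-47646720, -960, 0⟩, ⟨48660480, 960, 0⟩, ⟨22210560, 2668, 2980⟩, ⟨-1566720, -1334, -1490⟩]) rfl rfl
    (List.mem_of_getElem? (i := 75) rfl) TH_fr TH_cov ?_
  · intro X Y h
    simp only [List.forall_mem_cons, List.not_mem_nil, false_imp_iff, implies_true, and_true] at h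
    push_cast at h ⊢
    obtain ⟨h0, h1, h2, h3⟩ := h
    refine ⟨⟨?_, ?_⟩, ?_, ?_⟩ <;> linarith

theorem TH_rg76 : ROK [.q ⟨-229, -251, 480, 0⟩ ⟨-731, 251, 480, 0⟩, .q ⟨219, 261, -480, 0⟩ ⟨-741, 261, 480, 0⟩, .q ⟨731, -251, -480, 0⟩ ⟨1429, 629, 1606, -3664⟩, .q ⟨741, -261, -480, 0⟩ ⟨1429, 629, 1606, -3664⟩, .q ⟨731, -251, -480, 0⟩ ⟨-604, -425, -803, 1832⟩, .q ⟨741, -261, -480, 0⟩ ⟨-604, -425, -803, 1832⟩] := by
  refine rok_bys (s := -1) (nlo := 251) (nhi := 261) (q := 480) (by decide) (by decide) (by decide) (by decide) (z := 3) (by decide) TH_sc (k := 1) (by decide) (Q := [(1606, 3664, -629), (-803, -1832, 425)])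
    (P := [⟨-23132160, -480, 0⟩, ⟨24053760, 480, 0⟩, ⟨-57968640, 1606, 3664⟩, ⟨39168000, -803, -1832⟩]) rfl rfl
    (List.mem_of_getElem? (i := 76) rfl) TH_fr TH_cov ?_
  · intro X Y h
    simp only [List.forall_mem_cons, List.not_mem_nil, false_imp_iff, implies_true, and_true] at h
    push_cast at h ⊢
    obtain ⟨h0, h1, h2, h3⟩ := h
    refine ⟨⟨?_, ?_⟩, ?_, ?_⟩ <;> linarith

theorem TH_rg77 : ROK [.q ⟨-221, -259, 480, 0⟩ ⟨-739, 259, 480, 0⟩, .q ⟨218, 262, -480, 0⟩ ⟨-742, 262, 480, 0⟩, .q ⟨739, -259, -480, 0⟩ ⟨13863, -10423, 525, -3965⟩, .q ⟨742, -262, -480, 0⟩ ⟨13863, -10423, 525, -3965⟩, .q ⟨739, -259, -480, 0⟩ ⟨-787, -441, -2147, 3375⟩, .q ⟨742, -262, -480, 0⟩ ⟨-787, -441, -2147, 3375⟩, .q ⟨739, -259, -480, 0⟩ ⟨1040, 199, 2140, -3379⟩, .q ⟨742, -262, -480, 0⟩ ⟨1040, 199, 2140, -3379⟩] := by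
  refine rok_bys (s := -1) (nlo := 259) (nhi := 262) (q := 480) (by decide) (by decide) (by decide) (by decide) (z := 3) (by decide) TH_sc (k := 1) (by decide) (Q := [(525, 3965, 10423), (-2147, -3375, 441), (2140, 3379, -199)])
    (P := [⟨-23869440, -480, 0⟩, ⟨24145920, 480, 0⟩, ⟨960583680, 525, 3965⟩, ⟨40642560, -2147, -3375⟩, ⟨-18339840, 2140, 3379⟩]) rfl rfl
    (List.mem_of_getElem? (i := 77) rfl) TH_fr TH_cov ?_
  · intro X Y h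
    simp only [List.forall_mem_cons, List.not_mem_nil, false_imp_iff, implies_true, and_true] at h
    push_cast at h ⊢
    obtain ⟨h0, h1, h2, h3, h4⟩ := h
    refine ⟨⟨?_, ?_⟩, ?_, ?_⟩ <;> linarith

theorem TH_rg78 : ROK [.q ⟨-440, -520, 960, 0⟩ ⟨-1480, 520, 960, 0⟩, .q ⟨433, 527, -960, 0⟩ ⟨-1487, 527, 960, 0⟩, .q ⟨1480, -520, -960, 0⟩ ⟨7049, -5049, 0, -2000⟩, .q ⟨1487, -527, -960, 0⟩ ⟨7049, -5049, 0, -2000⟩, .q ⟨1480, -520, -960, 0⟩ ⟨-309, 61, -2702, 2950⟩, .q ⟨1487, -527, -960, 0⟩ ⟨-309, 61, -2702, 2950⟩, .q ⟨1480, -520, -960, 0⟩ ⟨1295, 438, 1826, -3559⟩, .q ⟨1487, -527, -960, 0⟩ ⟨1295, 438, 1826, -3559⟩, .q ⟨1480, -520, -960, 0⟩ ⟨-2733, -2830, 2268, 3295⟩, .q ⟨1487, -527, -960, 0⟩ ⟨-2733, -2830, 2268, 3295⟩] := by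
  refine rok_bys (s := -1) (nlo := 520) (nhi := 527) (q := 960) (by decide) (by decide) (by decide) (by decide) (z := 3) (by decide) TH_sc (k := 1) (by decide) (Q := [(0, 2000, 5049), (-2702, -2950, -61), (1826, 3559, -438), (2268, -3295, 2830)])
    (P := [⟨-47923200, -960, 0⟩, ⟨48568320, 960, 0⟩, ⟨465315840, 0, 2000⟩, ⟨-5621760, -2702, -2950⟩, ⟨-40366080, 1826, 3559⟩, ⟨260812800, 2268, -3295⟩]) rfl rfl
    (List.mem_of_getElem? (i := 78) rfl) TH_fr TH_cov ?_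
  · intro X Y h
    simp only [List.forall_mem_cons, List.not_mem_nil, false_imp_iff, implies_true, and_true] at h
    push_cast at h ⊢
    obtain ⟨h0, h1, h2, h3, h4, h5⟩ := h
    refine ⟨⟨?_, ?_⟩, ?_, ?_⟩ <;> linarith

theorem TH_rg79 : ROK [.q ⟨-443, -517, 960, 0⟩ ⟨-1477, 517, 960, 0⟩, .q ⟨433, 527, -960, 0⟩ ⟨-1487, 527, 960, 0⟩, .q ⟨1477, -517, -960, 0⟩ ⟨1757, -1559, 458, -656⟩, .q ⟨1487, -527, -960, 0⟩ ⟨1757, -1559, 458, -656⟩, .q ⟨1477, -517, -960, 0⟩ ⟨-336, -159, -1145, 1640⟩, .q ⟨1487, -527, -960, 0⟩ ⟨-336, -159, -1145, 1640⟩, .q ⟨1477, -517, -960, 0⟩ ⟨2501, 2704, -3710, -1495⟩, .q ⟨1487, -527, -960, 0⟩ ⟨2501, 2704, -3710, -1495⟩] := by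
  refine rok_bys (s := -1) (nlo := 517) (nhi := 527) (q := 960) (by decide) (by decide) (by decide) (by decide) (z := 3) (by decide) TH_sc (k := 1) (by decide) (Q := [(458, 656, 1559), (-1145, -1640, 159), (-3710, 1495, -2704)])
    (P := [⟨-47646720, -960, 0⟩, ⟨48568320, 960, 0⟩, ⟨143677440, 458, 656⟩, ⟨14653440, -1145, -1640⟩, ⟨-249200640, -3710, 1495⟩]) rfl rfl
    (List.mem_of_getElem? (i := 79) rfl) TH_fr TH_cov ?_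
  · intro X Y h
    simp only [List.forall_mem_cons, List.not_mem_nil, false_imp_iff, implies_true, and_true] at h
    push_cast at h ⊢
    obtain ⟨h0, h1, h2, h3, h4⟩ := h
    refine ⟨⟨?_, ?_⟩, ?_, ?_⟩ <;> linarith

theorem TH_rg80 : ROK [.q ⟨-227, -253, 480, 0⟩ ⟨-733, 253, 480, 0⟩, .q ⟨219, 261, -480, 0⟩ ⟨-741, 261, 480, 0⟩, .q ⟨733, -253, -480, 0⟩ ⟨1453, 637, 1583, -3673⟩, .q ⟨741, -261, -480, 0⟩ ⟨1453, 637, 1583, -3673⟩, .q ⟨733, -253, -480, 0⟩ ⟨-1223, -867, -1583, 3673⟩, .q ⟨741, -261, -480, 0⟩ ⟨-1223, -867, -1583, 3673⟩] := by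
  refine rok_bys (s := -1) (nlo := 253) (nhi := 261) (q := 480) (by decide) (by decide) (by decide) (by decide) (z := 3) (by decide) TH_sc (k := 1) (by decide) (Q := [(1583, 3673, -637), (-1583, -3673, 867)])
    (P := [⟨-23316480, -480, 0⟩, ⟨24053760, 480, 0⟩, ⟨-58705920, 1583, 3673⟩, ⟨79902720, -1583, -3673⟩]) rfl rfl
    (List.mem_of_getElem? (i := 80) rfl) TH_fr TH_cov ?_
  · intro X Y h
    simp only [List.forall_mem_cons, List.not_mem_nil, false_imp_iff, implies_true, and_true] at h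
    push_cast at h ⊢
    obtain ⟨h0, h1, h2, h3⟩ := h
    refine ⟨⟨?_, ?_⟩, ?_, ?_⟩ <;> linarith

theorem TH_rg81 : ROK [.q ⟨-223, -257, 480, 0⟩ ⟨-737, 257, 480, 0⟩, .q ⟨218, 262, -480, 0⟩ ⟨-742, 262, 480, 0⟩, .q ⟨737, -257, -480, 0⟩ ⟨2422, 1629, -51, -4000⟩, .q ⟨742, -262, -480, 0⟩ ⟨2422, 1629, -51, -4000⟩, .q ⟨737, -257, -480, 0⟩ ⟨-580, -401, -836, 1817⟩, .q ⟨742, -262, -480, 0⟩ ⟨-580, -401, -836, 1817⟩] := by
  refine rok_bys (s := -1) (nlo := 257) (nhi := 262) (q := 480) (by decide) (by decide) (by decide) (by decide) (z := 3) (by decide) TH_sc (k := 1) (by decide) (Q := [(-51, 4000, -1629), (-836, -1817, 401)])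
    (P := [⟨-23685120, -480, 0⟩, ⟨24145920, 480, 0⟩, ⟨-150128640, -51, 4000⟩, ⟨36956160, -836, -1817⟩]) rfl rfl
    (List.mem_of_getElem? (i := 81) rfl) TH_fr TH_cov ?_
  · intro X Y h
    simp only [List.forall_mem_cons, List.not_mem_nil, false_imp_iff, implies_true, and_true] at h
    push_cast at h ⊢
    obtain ⟨h0, h1, h2, h3⟩ := h
    refine ⟨⟨?_, ?_⟩, ?_, ?_⟩ <;> linarith

theorem TH_rg82 : ROK [.q ⟨-450, -510, 960, 0⟩ ⟨-1470, 510, 960, 0⟩, .q ⟨443, 517, -960, 0⟩ ⟨-1477, 517, 960, 0⟩, .q ⟨1470, -510, -960, 0⟩ ⟨6095, -5624, 1159, -1630⟩, .q ⟨1477, -517, -960, 0⟩ ⟨6095, -5624, 1159, -1630⟩, .q ⟨1470, -510, -960, 0⟩ ⟨-2043, -1775, -178, 3996⟩, .q ⟨1477, -517, -960, 0⟩ ⟨-2043, -1775, -178, 3996⟩, .q ⟨1470, -510, -960, 0⟩ ⟨2521, 1746, -277, -3990⟩, .q ⟨1477, -517, -960, 0⟩ ⟨2521, 1746, -277, -3990⟩, .q ⟨1470, -510, -960, 0⟩ ⟨-1075, -712,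 -1790, 3577⟩, .q ⟨1477, -517, -960, 0⟩ ⟨-1075, -712, -1790, 3577⟩] := by
  refine rok_bys (s := -1) (nlo := 510) (nhi := 517) (q := 960) (by decide) (by decide) (by decide) (by decide) (z := 3) (by decide) TH_sc (k := 1) (by decide) (Q := [(1159, 1630, 5624), (-178, -3996, 1775), (-277, 3990, -1746), (-1790, -3577, 712)])
    (P := [⟨-47001600, -960, 0⟩, ⟨47646720, 960, 0⟩, ⟨518307840, 1159, 1630⟩, ⟨163584000, -178, -3996⟩, ⟨-160911360, -277, 3990⟩, ⟨65617920, -1790, -3577⟩]) rfl rfl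
    (List.mem_of_getElem? (i := 82) rfl) TH_fr TH_cov ?_
  · intro X Y h
    simp only [List.forall_mem_cons, List.not_mem_nil, false_imp_iff, implies_true, and_true] at h
    push_cast at h ⊢
    obtain ⟨h0, h1, h2, h3, h4, h5⟩ := h
    refine ⟨⟨?_, ?_⟩, ?_, ?_⟩ <;> linarith

theorem TH_rg83 : ROK [.q ⟨-229, -251, 480, 0⟩ ⟨-731, 251, 480, 0⟩, .q ⟨222, 258, -480, 0⟩ ⟨-738, 258, 480, 0⟩, .q ⟨731, -251, -480, 0⟩ ⟨2999, 2466, -2003, -3462⟩, .q ⟨738, -258, -480, 0⟩ ⟨2999, 2466, -2003, -3462⟩, .q ⟨731, -251, -480, 0⟩ ⟨-1125, -765, -1721, 3611⟩, .q ⟨738, -258, -480, 0⟩ ⟨-1125, -765, -1721, 3611⟩, .q ⟨731, -251, -480, 0⟩ ⟨-2734, -2596, 1717, 3613⟩, .q ⟨738, -258, -480, 0⟩ ⟨-2734, -2596, 1717, 3613⟩] := by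
  refine rok_bys (s := -1) (nlo := 251) (nhi := 258) (q := 480) (by decide) (by decide) (by decide) (by decide) (z := 3) (by decide) TH_sc (k := 1) (by decide) (Q := [(-2003, 3462, -2466), (-1721, -3611, 765), (1717, -3613, 2596)])
    (P := [⟨-23132160, -480, 0⟩, ⟨23777280, 480, 0⟩, ⟨-227266560, -2003, 3462⟩, ⟨70502400, -1721, -3611⟩, ⟨239247360, 1717, -3613⟩]) rfl rfl
    (List.mem_of_getElem? (i := 83) rfl) TH_fr TH_cov ?_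
  · intro X Y h
    simp only [List.forall_mem_cons, List.not_mem_nil, false_imp_iff, implies_true, and_true] at h
    push_cast at h ⊢
    obtain ⟨h0, h1, h2, h3, h4⟩ := h
    refine ⟨⟨?_, ?_⟩, ?_, ?_⟩ <;> linarith

theorem TH_rg84 : ROK [.q ⟨-224, -256, 480, 0⟩ ⟨-736, 256, 480, 0⟩, .q ⟨217, 263, -480, 0⟩ ⟨-743, 263, 480, 0⟩, .q ⟨736, -256, -480, 0⟩ ⟨1413, -1013, 0, -400⟩, .q ⟨743, -263, -480, 0⟩ ⟨1413, -1013, 0, -400⟩, .q ⟨736, -256, -480, 0⟩ ⟨-297, -208, -408, 913⟩, .q ⟨743, -263, -480, 0⟩ ⟨-297, -208, -408, 913⟩, .q ⟨736, -256, -480, 0⟩ ⟨2539, 2696, -3689, -1546⟩, .q ⟨743, -263, -480, 0⟩ ⟨2539, 2696, -3689, -1546⟩] := by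
  refine rok_bys (s := -1) (nlo := 256) (nhi := 263) (q := 480) (by decide) (by decide) (by decide) (by decide) (z := 3) (by decide) TH_sc (k := 1) (by decide) (Q := [(0, 400, 1013), (-408, -913, 208), (-3689, 1546, -2696)])
    (P := [⟨-23592960, -480, 0⟩, ⟨24238080, 480, 0⟩, ⟨93358080, 0, 400⟩, ⟨19169280, -408, -913⟩, ⟨-248463360, -3689, 1546⟩]) rfl rfl
    (List.mem_of_getElem? (i := 84) rfl) TH_fr TH_cov ?_
  · intro X Y h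
    simp only [List.forall_mem_cons, List.not_mem_nil, false_imp_iff, implies_true, and_true] at h
    push_cast at h ⊢
    obtain ⟨h0, h1, h2, h3, h4⟩ := h
    refine ⟨⟨?_, ?_⟩, ?_, ?_⟩ <;> linarith

theorem TH_rg85 : ROK [.q ⟨-226, -254, 480, 0⟩ ⟨-734, 254, 480, 0⟩, .q ⟨217, 263, -480, 0⟩ ⟨-743, 263, 480, 0⟩, .q ⟨734, -254, -480, 0⟩ ⟨1408, 588, 1649, -3645⟩, .q ⟨743, -263, -480, 0⟩ ⟨1408, 588, 1649, -3645⟩, .q ⟨734, -254, -480, 0⟩ ⟨-1177, -819, -1649, 3645⟩, .q ⟨743, -263, -480, 0⟩ ⟨-1177, -819, -1649, 3645⟩] := by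
  refine rok_bys (s := -1) (nlo := 254) (nhi := 263) (q := 480) (by decide) (by decide) (by decide) (by decide) (z := 3) (by decide) TH_sc (k := 1) (by decide) (Q := [(1649, 3645, -588), (-1649, -3645, 819)])
    (P := [⟨-23408640, -480, 0⟩, ⟨24238080, 480, 0⟩, ⟨-54190080, 1649, 3645⟩, ⟨75479040, -1649, -3645⟩]) rfl rfl
    (List.mem_of_getElem? (i := 85) rfl) TH_fr TH_cov ?_
  · intro X Y h
    simp only [List.forall_mem_cons, List.not_mem_nil, false_imp_iff, implies_true, and_true] at h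
    push_cast at h ⊢
    obtain ⟨h0, h1, h2, h3⟩ := h
    refine ⟨⟨?_, ?_⟩, ?_, ?_⟩ <;> linarith

theorem TH_rg86 : ROK [.q ⟨-224, -256, 480, 0⟩ ⟨-736, 256, 480, 0⟩, .q ⟨219, 261, -480, 0⟩ ⟨-741, 261, 480, 0⟩, .q ⟨736, -256, -480, 0⟩ ⟨7071, -5071, 0, -2000⟩, .q ⟨741, -261, -480, 0⟩ ⟨7071, -5071, 0, -2000⟩, .q ⟨736, -256, -480, 0⟩ ⟨-133, -117, 0, 250⟩, .q ⟨741, -261, -480, 0⟩ ⟨-133, -117, 0, 250⟩, .q ⟨736, -256, -480, 0⟩ ⟨2937, 2700, -3055, -2582⟩, .q ⟨741, -261, -480, 0⟩ ⟨2937, 2700, -3055, -2582⟩, .q ⟨736, -256, -480, 0⟩ ⟨-70, 319, -2950, 2701⟩, .q ⟨741, -261, -480, 0⟩ ⟨-70, 319, -2950, 2701⟩] := by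
  refine rok_bys (s := -1) (nlo := 256) (nhi := 261) (q := 480) (by decide) (by decide) (by decide) (by decide) (z := 3) (by decide) TH_sc (k := 1) (by decide) (Q := [(0, 2000, 5071), (0, -250, 117), (-3055, 2582, -2700), (-2950, -2701, -319)])
    (P := [⟨-23592960, -480, 0⟩, ⟨24053760, 480, 0⟩, ⟨467343360, 0, 2000⟩, ⟨10782720, 0, -250⟩, ⟨-248832000, -3055, 2582⟩, ⟨-29399040, -2950, -2701⟩]) rfl rfl
    (List.mem_of_getElem? (i := 86) rfl) TH_fr TH_cov ?_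
  · intro X Y h
    simp only [List.forall_mem_cons, List.not_mem_nil, false_imp_iff, implies_true, and_true] at h
    push_cast at h ⊢
    obtain ⟨h0, h1, h2, h3, h4, h5⟩ := h
    refine ⟨⟨?_, ?_⟩, ?_, ?_⟩ <;> linarith

theorem TH_rg87 : ROK [.q ⟨-10, -10, 20, 0⟩ ⟨-30, 10, 20, 0⟩, .q ⟨9, 11, -20, 0⟩ ⟨-31, 11, 20, 0⟩, .q ⟨30, -10, -20, 0⟩ ⟨64, 61, 0, -125⟩, .q ⟨31, -11, -20, 0⟩ ⟨64, 61, 0, -125⟩, .q ⟨30, -10, -20, 0⟩ ⟨-2260, -2641, 1038, 3863⟩, .q ⟨31, -11, -20, 0⟩ ⟨-2260, -2641, 1038, 3863⟩, .q ⟨30, -10, -20, 0⟩ ⟨2777, 2781, -2252, -3306⟩, .q ⟨31, -11, -20, 0⟩ ⟨2777, 2781, -2252, -3306⟩] := by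
  refine rok_bys (s := -1) (nlo := 10) (nhi := 11) (q := 20) (by decide) (by decide) (by decide) (by decide) (z := 3) (by decide) TH_sc (k := 1) (by decide) (Q := [(0, 125, -61), (1038, -3863, 2641), (-2252, 3306, -2781)])
    (P := [⟨-921600, -20, 0⟩, ⟨1013760, 20, 0⟩, ⟨-5621760, 0, 125⟩, ⟨243394560, 1038, -3863⟩, ⟨-256296960, -2252, 3306⟩]) rfl rfl
    (List.mem_of_getElem? (i := 87) rfl) TH_fr TH_cov ?_
  · intro X Y h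
    simp only [List.forall_mem_cons, List.not_mem_nil, false_imp_iff, implies_true, and_true] at h
    push_cast at h ⊢
    obtain ⟨h0, h1, h2, h3, h4⟩ := h
    refine ⟨⟨?_, ?_⟩, ?_, ?_⟩ <;> linarith

theorem TH_rg88 : ROK [.q ⟨-10, -10, 20, 0⟩ ⟨-30, 10, 20, 0⟩, .q ⟨9, 11, -20, 0⟩ ⟨-31, 11, 20, 0⟩, .q ⟨30, -10, -20, 0⟩ ⟨51, 49, 0, -100⟩, .q ⟨31, -11, -20, 0⟩ ⟨51, 49, 0, -100⟩, .q ⟨30, -10, -20, 0⟩ ⟨-2607, -2932, 2196, 3343⟩, .q ⟨31, -11, -20, 0⟩ ⟨-2607, -2932, 2196, 3343⟩, .q ⟨30, -10, -20, 0⟩ ⟨2813, 2806, -2481, -3138⟩, .q ⟨31, -11, -20, 0⟩ ⟨2813, 2806, -2481, -3138⟩] := by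
  refine rok_bys (s := -1) (nlo := 10) (nhi := 11) (q := 20) (by decide) (by decide) (by decide) (by decide) (z := 3) (by decide) TH_sc (k := 1) (by decide) (Q := [(0, 100, -49), (2196, -3343, 2932), (-2481, 3138, -2806)])
    (P := [⟨-921600, -20, 0⟩, ⟨1013760, 20, 0⟩, ⟨-4515840, 0, 100⟩, ⟨270213120, 2196, -3343⟩, ⟨-258600960, -2481, 3138⟩]) rfl rfl
    (List.mem_of_getElem? (i := 88) rfl) TH_fr TH_cov ?_
  · intro X Y h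
    simp only [List.forall_mem_cons, List.not_mem_nil, false_imp_iff, implies_true, and_true] at h
    push_cast at h ⊢
    obtain ⟨h0, h1, h2, h3, h4⟩ := h
    refine ⟨⟨?_, ?_⟩, ?_, ?_⟩ <;> linarith

theorem TH_rg89 : ROK [.q ⟨-5, -5, 10, 0⟩ ⟨-15, 5, 10, 0⟩, .q ⟨4, 6, -10, 0⟩ ⟨-16, 6, 10, 0⟩, .q ⟨15, -5, -10, 0⟩ ⟨11223, -7223, 0, -4000⟩, .q ⟨16, -6, -10, 0⟩ ⟨11223, -7223, 0, -4000⟩, .q ⟨15, -5, -10, 0⟩ ⟨-419, -381, 0, 800⟩, .q ⟨16, -6, -10, 0⟩ ⟨-419, -381, 0, 800⟩, .q ⟨15, -5, -10, 0⟩ ⟨-445, -901, 3420, -2074⟩, .q ⟨16, -6, -10, 0⟩ ⟨-445, -901, 3420, -2074⟩, .q ⟨15, -5, -10, 0⟩ ⟨155, 232, -725, 338⟩, .q ⟨16, -6, -10, 0⟩ ⟨155, 232, -725, 338⟩] := by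
  refine rok_bys (s := -1) (nlo := 5) (nhi := 6) (q := 10) (by decide) (by decide) (by decide) (by decide) (z := 3) (by decide) TH_sc (k := 1) (by decide) (Q := [(0, 4000, 7223), (0, -800, 381), (3420, 2074, 901), (-725, -338, -232)])
    (P := [⟨-460800, -10, 0⟩, ⟨552960, 10, 0⟩, ⟨665671680, 0, 4000⟩, ⟨35112960, 0, -800⟩, ⟨83036160, 3420, 2074⟩, ⟨-21381120, -725, -338⟩]) rfl rfl
    (List.mem_of_getElem? (i := 89) rfl) TH_fr TH_cov ?_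
  · intro X Y h
    simp only [List.forall_mem_cons, List.not_mem_nil, false_imp_iff, implies_true, and_true] at h
    push_cast at h ⊢
    obtain ⟨h0, h1, h2, h3, h4, h5⟩ := h
    refine ⟨⟨?_, ?_⟩, ?_, ?_⟩ <;> linarith

theorem TH_rg90 : ROK [.q ⟨-225, -255, 480, 0⟩ ⟨-735, 255, 480, 0⟩, .q ⟨218, 262, -480, 0⟩ ⟨-742, 262, 480, 0⟩, .q ⟨735, -255, -480, 0⟩ ⟨2399, 1601, 0, -4000⟩, .q ⟨742, -262, -480, 0⟩ ⟨2399, 1601, 0, -4000⟩, .q ⟨735, -255, -480, 0⟩ ⟨-133, -117, 0, 250⟩, .q ⟨742, -262, -480, 0⟩ ⟨-133, -117, 0, 250⟩, .q ⟨735, -255, -480, 0⟩ ⟨-213, 175, -2809, 2847⟩, .q ⟨742, -262, -480, 0⟩ ⟨-213, 175, -2809, 2847⟩] := by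
  refine rok_bys (s := -1) (nlo := 255) (nhi := 262) (q := 480) (by decide) (by decide) (by decide) (by decide) (z := 3) (by decide) TH_sc (k := 1) (by decide) (Q := [(0, 4000, -1601), (0, -250, 117), (-2809, -2847, -175)])
    (P := [⟨-23500800, -480, 0⟩, ⟨24145920, 480, 0⟩, ⟨-147548160, 0, 4000⟩, ⟨10782720, 0, -250⟩, ⟨-16128000, -2809, -2847⟩]) rfl rfl
    (List.mem_of_getElem? (i := 90) rfl) TH_fr TH_cov ?_
  · intro X Y h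
    simp only [List.forall_mem_cons, List.not_mem_nil, false_imp_iff, implies_true, and_true] at h
    push_cast at h ⊢
    obtain ⟨h0, h1, h2, h3, h4⟩ := h
    refine ⟨⟨?_, ?_⟩, ?_, ?_⟩ <;> linarith

theorem TH_rg91 : ROK [.q ⟨-228, -252, 480, 0⟩ ⟨-732, 252, 480, 0⟩, .q ⟨221, 259, -480, 0⟩ ⟨-739, 259, 480, 0⟩, .q ⟨732, -252, -480, 0⟩ ⟨9434, -8138, 2105, -3401⟩, .q ⟨739, -259, -480, 0⟩ ⟨9434, -8138, 2105, -3401⟩, .q ⟨732, -252, -480, 0⟩ ⟨-832, -464, -2105, 3401⟩, .q ⟨739, -259, -480, 0⟩ ⟨-832, -464, -2105, 3401⟩, .q ⟨732, -252, -480, 0⟩ ⟨1401, 596, 1648, -3645⟩, .q ⟨739, -259, -480, 0⟩ ⟨1401, 596, 1648, -3645⟩, .q ⟨732, -252, -480, 0⟩ ⟨-2191, -1921, 114, 3998⟩, .q ⟨739, -259, -480, 0⟩ ⟨-2191, -1921, 114, 3998⟩] := by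
  refine rok_bys (s := -1) (nlo := 252) (nhi := 259) (q := 480) (by decide) (by decide) (by decide) (by decide) (z := 3) (by decide) TH_sc (k := 1) (by decide) (Q := [(2105, 3401, 8138), (-2105, -3401, 464), (1648, 3645, -596), (114, -3998, 1921)])
    (P := [⟨-23224320, -480, 0⟩, ⟨23869440, 480, 0⟩, ⟨749998080, 2105, 3401⟩, ⟨42762240, -2105, -3401⟩, ⟨-54927360, 1648, 3645⟩, ⟨177039360, 114, -3998⟩]) rfl rfl
    (List.mem_of_getElem? (i := 91) rfl) TH_fr TH_cov ?_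
  · intro X Y h
    simp only [List.forall_mem_cons, List.not_mem_nil, false_imp_iff, implies_true, and_true] at h
    push_cast at h ⊢
    obtain ⟨h0, h1, h2, h3, h4, h5⟩ := h
    refine ⟨⟨?_, ?_⟩, ?_, ?_⟩ <;> linarith

theorem TH_rg92 : ROK [.q ⟨-37, -43, 80, 0⟩ ⟨-123, 43, 80, 0⟩, .q ⟨33, 47, -80, 0⟩ ⟨-127, 47, 80, 0⟩, .q ⟨123, -43, -80, 0⟩ ⟨1761, -1261, 0, -500⟩, .q ⟨127, -47, -80, 0⟩ ⟨1761, -1261, 0, -500⟩, .q ⟨123, -43, -80, 0⟩ ⟨-457, -531, -309, 1297⟩, .q ⟨127, -47, -80, 0⟩ ⟨-457, -531, -309, 1297⟩, .q ⟨123, -43, -80, 0⟩ ⟨2710, 2937, -2990, -2657⟩, .q ⟨127, -47, -80, 0⟩ ⟨2710, 2937, -2990, -2657⟩] := by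
  refine rok_bys (s := -1) (nlo := 43) (nhi := 47) (q := 80) (by decide) (by decide) (by decide) (by decide) (z := 3) (by decide) TH_sc (k := 1) (by decide) (Q := [(0, 500, 1261), (-309, -1297, 531), (-2990, 2657, -2937)])
    (P := [⟨-3962880, -80, 0⟩, ⟨4331520, 80, 0⟩, ⟨116213760, 0, 500⟩, ⟨48936960, -309, -1297⟩, ⟨-270673920, -2990, 2657⟩]) rfl rfl
    (List.mem_of_getElem? (i := 92) rfl) TH_fr TH_cov ?_
  · intro X Y h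
    simp only [List.forall_mem_cons, List.not_mem_nil, false_imp_iff, implies_true, and_true] at h
    push_cast at h ⊢
    obtain ⟨h0, h1, h2, h3, h4⟩ := h
    refine ⟨⟨?_, ?_⟩, ?_, ?_⟩ <;> linarith

theorem TH_rg93 : ROK [.q ⟨-21, -19, 40, 0⟩ ⟨-59, 19, 40, 0⟩, .q ⟨18, 22, -40, 0⟩ ⟨-62, 22, 40, 0⟩, .q ⟨59, -19, -40, 0⟩ ⟨771, 320, 2230, -3321⟩, .q ⟨62, -22, -40, 0⟩ ⟨771, 320, 2230, -3321⟩, .q ⟨59, -19, -40, 0⟩ ⟨-720, -371, -2230, 3321⟩, .q ⟨62, -22, -40, 0⟩ ⟨-720, -371, -2230, 3321⟩, .q ⟨59, -19, -40, 0⟩ ⟨-1426, -1066, -1293, 3785⟩, .q ⟨62, -22, -40, 0⟩ ⟨-1426, -1066, -1293, 3785⟩] := by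
  refine rok_bys (s := -1) (nlo := 19) (nhi := 22) (q := 40) (by decide) (by decide) (by decide) (by decide) (z := 3) (by decide) TH_sc (k := 1) (by decide) (Q := [(2230, 3321, -320), (-2230, -3321, 371), (-1293, -3785, 1066)])
    (P := [⟨-1751040, -40, 0⟩, ⟨2027520, 40, 0⟩, ⟨-29491200, 2230, 3321⟩, ⟨34191360, -2230, -3321⟩, ⟨98242560, -1293, -3785⟩]) rfl rfl
    (List.mem_of_getElem? (i := 93) rfl) TH_fr TH_cov ?_
  · intro X Y h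
    simp only [List.forall_mem_cons, List.not_mem_nil, false_imp_iff, implies_true, and_true] at h
    push_cast at h ⊢
    obtain ⟨h0, h1, h2, h3, h4⟩ := h
    refine ⟨⟨?_, ?_⟩, ?_, ?_⟩ <;> linarith

theorem TH_rg94 : ROK [.q ⟨-444, -516, 960, 0⟩ ⟨-1476, 516, 960, 0⟩, .q ⟨433, 527, -960, 0⟩ ⟨-1487, 527, 960, 0⟩, .q ⟨1476, -516, -960, 0⟩ ⟨2399, 1601, 0, -4000⟩, .q ⟨1487, -527, -960, 0⟩ ⟨2399, 1601, 0, -4000⟩, .q ⟨1476, -516, -960, 0⟩ ⟨-2731, -2762, 2071, 3422⟩, .q ⟨1487, -527, -960, 0⟩ ⟨-2731, -2762, 2071, 3422⟩, .q ⟨1476, -516, -960, 0⟩ ⟨439, 833, -3392, 2120⟩, .q ⟨1487, -527, -960, 0⟩ ⟨439, 833, -3392, 2120⟩] := by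
  refine rok_bys (s := -1) (nlo := 516) (nhi := 527) (q := 960) (by decide) (by decide) (by decide) (by decide) (z := 3) (by decide) TH_sc (k := 1) (by decide) (Q := [(0, 4000, -1601), (2071, -3422, 2762), (-3392, -2120, -833)])
    (P := [⟨-47554560, -960, 0⟩, ⟨48568320, 960, 0⟩, ⟨-147548160, 0, 4000⟩, ⟨254545920, 2071, -3422⟩, ⟨-76769280, -3392, -2120⟩]) rfl rfl
    (List.mem_of_getElem? (i := 94) rfl) TH_fr TH_cov ?_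
  · intro X Y h
    simp only [List.forall_mem_cons, List.not_mem_nil, false_imp_iff, implies_true, and_true] at h
    push_cast at h ⊢
    obtain ⟨h0, h1, h2, h3, h4⟩ := h
    refine ⟨⟨?_, ?_⟩, ?_, ?_⟩ <;> linarith

theorem TH_rg95 : ROK [.q ⟨-77, -83, 160, 0⟩ ⟨-243, 83, 160, 0⟩, .q ⟨74, 86, -160, 0⟩ ⟨-246, 86, 160, 0⟩, .q ⟨243, -83, -160, 0⟩ ⟨2399, 1601, 0, -4000⟩, .q ⟨246, -86, -160, 0⟩ ⟨2399, 1601, 0, -4000⟩, .q ⟨243, -83, -160, 0⟩ ⟨-1144, -784, -1695, 3623⟩, .q ⟨246, -86, -160, 0⟩ ⟨-1144, -784, -1695, 3623⟩] := by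
  refine rok_bys (s := -1) (nlo := 83) (nhi := 86) (q := 160) (by decide) (by decide) (by decide) (by decide) (z := 3) (by decide) TH_sc (k := 1) (by decide) (Q := [(0, 4000, -1601), (-1695, -3623, 784)])
    (P := [⟨-7649280, -160, 0⟩, ⟨7925760, 160, 0⟩, ⟨-147548160, 0, 4000⟩, ⟨72253440, -1695, -3623⟩]) rfl rfl
    (List.mem_of_getElem? (i := 95) rfl) TH_fr TH_cov ?_
  · intro X Y h
    simp only [List.forall_mem_cons, List.not_mem_nil, false_imp_iff, implies_true, and_true] at h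
    push_cast at h ⊢
    obtain ⟨h0, h1, h2, h3⟩ := h
    refine ⟨⟨?_, ?_⟩, ?_, ?_⟩ <;> linarith

end Pool.Agent.TET
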