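import Pool.Agent.Helper38_TET.TH_C

/-!
# MP_c7c9bf_co: certificates, family TH
-/

set_option autoImplicit false
set_option maxRecDepth 100000

namespace Pool.Agent.TET

theorem TH_rg96 : ROK [.q ⟨-217, -263, 480, 0⟩ ⟨-743, 263, 480, 0⟩, .q ⟨210, 270, -480, 0⟩ ⟨-750, 270, 480, 0⟩, .q ⟨743, -263, -480, 0⟩ ⟨1295, 1318, -765, -1848⟩, .q ⟨750, -270, -480, 0⟩ ⟨1295, 1318, -765, -1848⟩, .q ⟨743, -263, -480, 0⟩ ⟨-393, -478, 255, 616⟩, .q ⟨750, -270, -480, 0⟩ ⟨-393, -478, 255, 616⟩] := by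
  refine rok_bys (s := -1) (nlo := 263) (nhi := 270) (q := 480) (by decide) (by decide) (by decide) (by decide) (z := 3) (by decide) TH_sc (k := 1) (by decide) (Q := [(-765, 1848, -1318), (255, -616, 478)])
    (P := [⟨-24238080, -480, 0⟩, ⟨24883200, 480, 0⟩, ⟨-121466880, -765, 1848⟩, ⟨44052480, 255, -616⟩]) rfl rfl
    (List.mem_of_getElem? (i := 96) rfl) TH_fr TH_cov ?_
  · intro X Y h
    simp only [List.forall_mem_cons, List.not_mem_nil, false_imp_iff, implies_true, and_true] at h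
    push_cast at h ⊢
    obtain ⟨h0, h1, h2, h3⟩ := h
    refine ⟨⟨?_, ?_⟩, ?_, ?_⟩ <;> linarith

theorem TH_rg97 : ROK [.q ⟨-443, -517, 960, 0⟩ ⟨-1477, 517, 960, 0⟩, .q ⟨435, 525, -960, 0⟩ ⟨-1485, 525, 960, 0⟩, .q ⟨1477, -517, -960, 0⟩ ⟨10722, -9961, 2422, -3183⟩, .q ⟨1485, -525, -960, 0⟩ ⟨10722, -9961, 2422, -3183⟩, .q ⟨1477, -517, -960, 0⟩ ⟨-560, -201, -2422, 3183⟩, .q ⟨1485, -525, -960, 0⟩ ⟨-560, -201, -2422, 3183⟩, .q ⟨1477, -517, -960, 0⟩ ⟨2760, 2862, -3127, -2495⟩, .q ⟨1485, -525, -960, 0⟩ ⟨2760, 2862, -3127, -2495⟩] := by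
  refine rok_bys (s := -1) (nlo := 517) (nhi := 525) (q := 960) (by decide) (by decide) (by decide) (by decide) (z := 3) (by decide) TH_sc (k := 1) (by decide) (Q := [(2422, 3183, 9961), (-2422, -3183, 201), (-3127, 2495, -2862)])
    (P := [⟨-47646720, -960, 0⟩, ⟨48384000, 960, 0⟩, ⟨918005760, 2422, 3183⟩, ⟨18524160, -2422, -3183⟩, ⟨-263761920, -3127, 2495⟩]) rfl rfl
    (List.mem_of_getElem? (i := 97) rfl) TH_fr TH_cov ?_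
  · intro X Y h
    simp only [List.forall_mem_cons, List.not_mem_nil, false_imp_iff, implies_true, and_true] at h
    push_cast at h ⊢
    obtain ⟨h0, h1, h2, h3, h4⟩ := h
    refine ⟨⟨?_, ?_⟩, ?_, ?_⟩ <;> linarith

theorem TH_rg98 : ROK [.q ⟨-447, -513, 960, 0⟩ ⟨-1473, 513, 960, 0⟩, .q ⟨439, 521, -960, 0⟩ ⟨-1481, 521, 960, 0⟩, .q ⟨1473, -513, -960, 0⟩ ⟨2399, 1601, 0, -4000⟩, .q ⟨1481, -521, -960, 0⟩ ⟨2399, 1601, 0, -4000⟩, .q ⟨1473, -513, -960, 0⟩ ⟨-133, -117, 0, 250⟩, .q ⟨1481, -521, -960, 0⟩ ⟨-133, -117, 0, 250⟩, .q ⟨1473, -513, -960, 0⟩ ⟨-192, -98, -547, 837⟩, .q ⟨1481, -521, -960, 0⟩ ⟨-192, -98, -547, 837⟩] := by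
  refine rok_bys (s := -1) (nlo := 513) (nhi := 521) (q := 960) (by decide) (by decide) (by decide) (by decide) (z := 3) (by decide) TH_sc (k := 1) (by decide) (Q := [(0, 4000, -1601), (0, -250, 117), (-547, -837, 98)])
    (P := [⟨-47278080, -960, 0⟩, ⟨48015360, 960, 0⟩, ⟨-147548160, 0, 4000⟩, ⟨10782720, 0, -250⟩, ⟨9031680, -547, -837⟩]) rfl rfl
    (List.mem_of_getElem? (i := 98) rfl) TH_fr TH_cov ?_
  · intro X Y h
    simp only [List.forall_mem_cons, List.not_mem_nil, false_imp_iff, implies_true, and_true] at h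
    push_cast at h ⊢
    obtain ⟨h0, h1, h2, h3, h4⟩ := h
    refine ⟨⟨?_, ?_⟩, ?_, ?_⟩ <;> linarith

theorem TH_rg99 : ROK [.q ⟨-437, -523, 960, 0⟩ ⟨-1483, 523, 960, 0⟩, .q ⟨429, 531, -960, 0⟩ ⟨-1491, 531, 960, 0⟩, .q ⟨1483, -523, -960, 0⟩ ⟨915, 61, 2298, -3274⟩, .q ⟨1491, -531, -960, 0⟩ ⟨915, 61, 2298, -3274⟩, .q ⟨1483, -523, -960, 0⟩ ⟨-661, -315, -2298, 3274⟩, .q ⟨1491, -531, -960, 0⟩ ⟨-661, -315, -2298, 3274⟩] := by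
  refine rok_bys (s := -1) (nlo := 523) (nhi := 531) (q := 960) (by decide) (by decide) (by decide) (by decide) (z := 3) (by decide) TH_sc (k := 1) (by decide) (Q := [(2298, 3274, -61), (-2298, -3274, 315)])
    (P := [⟨-48199680, -960, 0⟩, ⟨48936960, 960, 0⟩, ⟨-5621760, 2298, 3274⟩, ⟨29030400, -2298, -3274⟩]) rfl rfl
    (List.mem_of_getElem? (i := 99) rfl) TH_fr TH_cov ?_
  · intro X Y h
    simp only [List.forall_mem_cons, List.not_mem_nil, false_imp_iff, implies_true, and_true] at h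
    push_cast at h ⊢
    obtain ⟨h0, h1, h2, h3⟩ := h
    refine ⟨⟨?_, ?_⟩, ?_, ?_⟩ <;> linarith

theorem TH_rg100 : ROK [.q ⟨-442, -518, 960, 0⟩ ⟨-1478, 518, 960, 0⟩, .q ⟨435, 525, -960, 0⟩ ⟨-1485, 525, 960, 0⟩, .q ⟨1478, -518, -960, 0⟩ ⟨14123, -10123, 0, -4000⟩, .q ⟨1485, -525, -960, 0⟩ ⟨14123, -10123, 0, -4000⟩, .q ⟨1478, -518, -960, 0⟩ ⟨-1305, -998, -1432, 3735⟩, .q ⟨1485, -525, -960, 0⟩ ⟨-1305, -998, -1432, 3735⟩, .q ⟨1478, -518, -960, 0⟩ ⟨673, 246, 878, -1797⟩, .q ⟨1485, -525, -960, 0⟩ ⟨673, 246, 878, -1797⟩] := by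
  refine rok_bys (s := -1) (nlo := 518) (nhi := 525) (q := 960) (by decide) (by decide) (by decide) (by decide) (z := 3) (by decide) TH_sc (k := 1) (by decide) (Q := [(0, 4000, 10123), (-1432, -3735, 998), (878, 1797, -246)])
    (P := [⟨-47738880, -960, 0⟩, ⟨48384000, 960, 0⟩, ⟨932935680, 0, 4000⟩, ⟨91975680, -1432, -3735⟩, ⟨-22671360, 878, 1797⟩]) rfl rfl
    (List.mem_of_getElem? (i := 100) rfl) TH_fr TH_cov ?_
  · intro X Y h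
    simp only [List.forall_mem_cons, List.not_mem_nil, false_imp_iff, implies_true, and_true] at h
    push_cast at h ⊢
    obtain ⟨h0, h1, h2, h3, h4⟩ := h
    refine ⟨⟨?_, ?_⟩, ?_, ?_⟩ <;> linarith

theorem TH_rg101 : ROK [.q ⟨-38, -42, 80, 0⟩ ⟨-122, 42, 80, 0⟩, .q ⟨35, 45, -80, 0⟩ ⟨-125, 45, 80, 0⟩, .q ⟨122, -42, -80, 0⟩ ⟨11143, -6459, -756, -3928⟩, .q ⟨125, -45, -80, 0⟩ ⟨11143, -6459, -756, -3928⟩, .q ⟨122, -42, -80, 0⟩ ⟨-421, -56, -2580, 3057⟩, .q ⟨125, -45, -80, 0⟩ ⟨-421, -56, -2580, 3057⟩, .q ⟨122, -42, -80, 0⟩ ⟨2596, 1867, -494, -3969⟩, .q ⟨125, -45, -80, 0⟩ ⟨2596, 1867, -494, -3969⟩, .q ⟨122, -42, -80, 0⟩ ⟨212, 409, -1690, 1069⟩, .q ⟨125, -45, -80, 0⟩ ⟨212, 409, -1690, 1069⟩] := by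
  refine rok_bys (s := -1) (nlo := 42) (nhi := 45) (q := 80) (by decide) (by decide) (by decide) (by decide) (z := 3) (by decide) TH_sc (k := 1) (by decide) (Q := [(-756, 3928, 6459), (-2580, -3057, 56), (-494, 3969, -1867), (-1690, -1069, -409)])
    (P := [⟨-3870720, -80, 0⟩, ⟨4147200, 80, 0⟩, ⟨595261440, -756, 3928⟩, ⟨5160960, -2580, -3057⟩, ⟨-172062720, -494, 3969⟩, ⟨-37693440, -1690, -1069⟩]) rfl rfl
    (List.mem_of_getElem? (i := 101) rfl) TH_fr TH_cov ?_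
  · intro X Y h
    simp only [List.forall_mem_cons, List.not_mem_nil, false_imp_iff, implies_true, and_true] at h
    push_cast at h ⊢
    obtain ⟨h0, h1, h2, h3, h4, h5⟩ := h
    refine ⟨⟨?_, ?_⟩, ?_, ?_⟩ <;> linarith

theorem TH_rg102 : ROK [.q ⟨-223, -257, 480, 0⟩ ⟨-737, 257, 480, 0⟩, .q ⟨219, 261, -480, 0⟩ ⟨-741, 261, 480, 0⟩, .q ⟨737, -257, -480, 0⟩ ⟨1281, 446, 1830, -3557⟩, .q ⟨741, -261, -480, 0⟩ ⟨1281, 446, 1830, -3557⟩, .q ⟨737, -257, -480, 0⟩ ⟨-1046, -681, -1830, 3557⟩, .q ⟨741, -261, -480, 0⟩ ⟨-1046, -681, -1830, 3557⟩] := by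
  refine rok_bys (s := -1) (nlo := 257) (nhi := 261) (q := 480) (by decide) (by decide) (by decide) (by decide) (z := 3) (by decide) TH_sc (k := 1) (by decide) (Q := [(1830, 3557, -446), (-1830, -3557, 681)])
    (P := [⟨-23685120, -480, 0⟩, ⟨24053760, 480, 0⟩, ⟨-41103360, 1830, 3557⟩, ⟨62760960, -1830, -3557⟩]) rfl rfl
    (List.mem_of_getElem? (i := 102) rfl) TH_fr TH_cov ?_
  · intro X Y h
    simp only [List.forall_mem_cons, List.not_mem_nil, false_imp_iff, implies_true, and_true] at h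
    push_cast at h ⊢
    obtain ⟨h0, h1, h2, h3⟩ := h
    refine ⟨⟨?_, ?_⟩, ?_, ?_⟩ <;> linarith

theorem TH_rg103 : ROK [.q ⟨-5, -5, 10, 0⟩ ⟨-15, 5, 10, 0⟩, .q ⟨4, 6, -10, 0⟩ ⟨-16, 6, 10, 0⟩, .q ⟨15, -5, -10, 0⟩ ⟨13481, -10886, 1216, -3811⟩, .q ⟨16, -6, -10, 0⟩ ⟨13481, -10886, 1216, -3811⟩, .q ⟨15, -5, -10, 0⟩ ⟨-1469, -1126, -1216, 3811⟩, .q ⟨16, -6, -10, 0⟩ ⟨-1469, -1126, -1216, 3811⟩, .q ⟨15, -5, -10, 0⟩ ⟨600, 25, 2499, -3124⟩, .q ⟨16, -6, -10, 0⟩ ⟨600, 25, 2499, -3124⟩, .q ⟨15, -5, -10, 0⟩ ⟨-769, -402, -2182, 3353⟩, .q ⟨16, -6, -10, 0⟩ ⟨-769, -402, -2182, 3353⟩] := by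
  refine rok_bys (s := -1) (nlo := 5) (nhi := 6) (q := 10) (by decide) (by decide) (by decide) (by decide) (z := 3) (by decide) TH_sc (k := 1) (by decide) (Q := [(1216, 3811, 10886), (-1216, -3811, 1126), (2499, 3124, -25), (-2182, -3353, 402)])
    (P := [⟨-460800, -10, 0⟩, ⟨552960, 10, 0⟩, ⟨1003253760, 1216, 3811⟩, ⟨103772160, -1216, -3811⟩, ⟨-2304000, 2499, 3124⟩, ⟨37048320, -2182, -3353⟩]) rfl rfl
    (List.mem_of_getElem? (i := 103) rfl) TH_fr TH_cov ?_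
  · intro X Y h
    simp only [List.forall_mem_cons, List.not_mem_nil, false_imp_iff, implies_true, and_true] at h
    push_cast at h ⊢
    obtain ⟨h0, h1, h2, h3, h4, h5⟩ := h
    refine ⟨⟨?_, ?_⟩, ?_, ?_⟩ <;> linarith

theorem TH_rg104 : ROK [.q ⟨-221, -259, 480, 0⟩ ⟨-739, 259, 480, 0⟩, .q ⟨217, 263, -480, 0⟩ ⟨-743, 263, 480, 0⟩, .q ⟨739, -259, -480, 0⟩ ⟨2215, 1391, 376, -3982⟩, .q ⟨743, -263, -480, 0⟩ ⟨2215, 1391, 376, -3982⟩, .q ⟨739, -259, -480, 0⟩ ⟨-1057, -730, -1790, 3577⟩, .q ⟨743, -263, -480, 0⟩ ⟨-1057, -730, -1790, 3577⟩] := by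
  refine rok_bys (s := -1) (nlo := 259) (nhi := 263) (q := 480) (by decide) (by decide) (by decide) (by decide) (z := 3) (by decide) TH_sc (k := 1) (by decide) (Q := [(376, 3982, -1391), (-1790, -3577, 730)])
    (P := [⟨-23869440, -480, 0⟩, ⟨24238080, 480, 0⟩, ⟨-128194560, 376, 3982⟩, ⟨67276800, -1790, -3577⟩]) rfl rfl
    (List.mem_of_getElem? (i := 104) rfl) TH_fr TH_cov ?_
  · intro X Y h
    simp only [List.forall_mem_cons, List.not_mem_nil, false_imp_iff, implies_true, and_true] at h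
    push_cast at h ⊢
    obtain ⟨h0, h1, h2, h3⟩ := h
    refine ⟨⟨?_, ?_⟩, ?_, ?_⟩ <;> linarith

theorem TH_rg105 : ROK [.q ⟨-23, -25, 48, 0⟩ ⟨-73, 25, 48, 0⟩, .q ⟨22, 26, -48, 0⟩ ⟨-74, 26, 48, 0⟩, .q ⟨73, -25, -48, 0⟩ ⟨3331, -2331, 0, -1000⟩, .q ⟨74, -26, -48, 0⟩ ⟨3331, -2331, 0, -1000⟩, .q ⟨73, -25, -48, 0⟩ ⟨-1172, -813, -1656, 3641⟩, .q ⟨74, -26, -48, 0⟩ ⟨-1172, -813, -1656, 3641⟩, .q ⟨73, -25, -48, 0⟩ ⟨3002, 2499, -2092, -3409⟩, .q ⟨74, -26, -48, 0⟩ ⟨3002, 2499, -2092, -3409⟩] := by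
  refine rok_bys (s := -1) (nlo := 25) (nhi := 26) (q := 48) (by decide) (by decide) (by decide) (by decide) (z := 3) (by decide) TH_sc (k := 1) (by decide) (Q := [(0, 1000, 2331), (-1656, -3641, 813), (-2092, 3409, -2499)])
    (P := [⟨-2304000, -48, 0⟩, ⟨2396160, 48, 0⟩, ⟨214824960, 0, 1000⟩, ⟨74926080, -1656, -3641⟩, ⟨-230307840, -2092, 3409⟩]) rfl rfl
    (List.mem_of_getElem? (i := 105) rfl) TH_fr TH_cov ?_
  · intro X Y h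
    simp only [List.forall_mem_cons, List.not_mem_nil, false_imp_iff, implies_true, and_true] at h
    push_cast at h ⊢
    obtain ⟨h0, h1, h2, h3, h4⟩ := h
    refine ⟨⟨?_, ?_⟩, ?_, ?_⟩ <;> linarith

theorem TH_rg106 : ROK [.q ⟨-223, -257, 480, 0⟩ ⟨-737, 257, 480, 0⟩, .q ⟨219, 261, -480, 0⟩ ⟨-741, 261, 480, 0⟩, .q ⟨737, -257, -480, 0⟩ ⟨1511, 669, 1520, -3700⟩, .q ⟨741, -261, -480, 0⟩ ⟨1511, 669, 1520, -3700⟩, .q ⟨737, -257, -480, 0⟩ ⟨-349, 43, -2671, 2977⟩, .q ⟨741, -261, -480, 0⟩ ⟨-349, 43, -2671, 2977⟩] := by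
  refine rok_bys (s := -1) (nlo := 257) (nhi := 261) (q := 480) (by decide) (by decide) (by decide) (by decide) (z := 3) (by decide) TH_sc (k := 1) (by decide) (Q := [(1520, 3700, -669), (-2671, -2977, -43)])
    (P := [⟨-23685120, -480, 0⟩, ⟨24053760, 480, 0⟩, ⟨-61655040, 1520, 3700⟩, ⟨-3962880, -2671, -2977⟩]) rfl rfl
    (List.mem_of_getElem? (i := 106) rfl) TH_fr TH_cov ?_
  · intro X Y h
    simp only [List.forall_mem_cons, List.not_mem_nil, false_imp_iff, implies_true, and_true] at h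
    push_cast at h ⊢
    obtain ⟨h0, h1, h2, h3⟩ := h
    refine ⟨⟨?_, ?_⟩, ?_, ?_⟩ <;> linarith

theorem TH_rg107 : ROK [.q ⟨-227, -253, 480, 0⟩ ⟨-733, 253, 480, 0⟩, .q ⟨222, 258, -480, 0⟩ ⟨-738, 258, 480, 0⟩, .q ⟨733, -253, -480, 0⟩ ⟨2399, 1601, 0, -4000⟩, .q ⟨738, -258, -480, 0⟩ ⟨2399, 1601, 0, -4000⟩, .q ⟨733, -253, -480, 0⟩ ⟨-399, -280, -540, 1219⟩, .q ⟨738, -258, -480, 0⟩ ⟨-399, -280, -540, 1219⟩] := by
  refine rok_bys (s := -1) (nlo := 253) (nhi := 258) (q := 480) (by decide) (by decide) (by decide) (by decide) (z := 3) (by decide) TH_sc (k := 1) (by decide) (Q := [(0, 4000, -1601), (-540, -1219, 280)])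
    (P := [⟨-23316480, -480, 0⟩, ⟨23777280, 480, 0⟩, ⟨-147548160, 0, 4000⟩, ⟨25804800, -540, -1219⟩]) rfl rfl
    (List.mem_of_getElem? (i := 107) rfl) TH_fr TH_cov ?_
  · intro X Y h
    simp only [List.forall_mem_cons, List.not_mem_nil, false_imp_iff, implies_true, and_true] at h
    push_cast at h ⊢
    obtain ⟨h0, h1, h2, h3⟩ := h
    refine ⟨⟨?_, ?_⟩, ?_, ?_⟩ <;> linarith

theorem TH_rg108 : ROK [.q ⟨-39, -41, 80, 0⟩ ⟨-121, 41, 80, 0⟩, .q ⟨36, 44, -80, 0⟩ ⟨-124, 44, 80, 0⟩, .q ⟨121, -41, -80, 0⟩ ⟨2399, 1601, 0, -4000⟩, .q ⟨124, -44, -80, 0⟩ ⟨2399, 1601, 0, -4000⟩, .q ⟨121, -41, -80, 0⟩ ⟨-1600, -1271, -1002, 3873⟩, .q ⟨124, -44, -80, 0⟩ ⟨-1600, -1271, -1002, 3873⟩, .q ⟨121, -41, -80, 0⟩ ⟨784, 1138, -3621, 1699⟩, .q ⟨124, -44, -80, 0⟩ ⟨784, 1138, -3621, 1699⟩] := by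
  refine rok_bys (s := -1) (nlo := 41) (nhi := 44) (q := 80) (by decide) (by decide) (by decide) (by decide) (z := 3) (by decide) TH_sc (k := 1) (by decide) (Q := [(0, 4000, -1601), (-1002, -3873, 1271), (-3621, -1699, -1138)])
    (P := [⟨-3778560, -80, 0⟩, ⟨4055040, 80, 0⟩, ⟨-147548160, 0, 4000⟩, ⟨117135360, -1002, -3873⟩, ⟨-104878080, -3621, -1699⟩]) rfl rfl
    (List.mem_of_getElem? (i := 108) rfl) TH_fr TH_cov ?_
  · intro X Y h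
    simp only [List.forall_mem_cons, List.not_mem_nil, false_imp_iff, implies_true, and_true] at h
    push_cast at h ⊢
    obtain ⟨h0, h1, h2, h3, h4⟩ := h
    refine ⟨⟨?_, ?_⟩, ?_, ?_⟩ <;> linarith

theorem TH_rg109 : ROK [.q ⟨-449, -511, 960, 0⟩ ⟨-1471, 511, 960, 0⟩, .q ⟨439, 521, -960, 0⟩ ⟨-1481, 521, 960, 0⟩, .q ⟨1471, -511, -960, 0⟩ ⟨13176, -11225, 1679, -3630⟩, .q ⟨1481, -521, -960, 0⟩ ⟨13176, -11225, 1679, -3630⟩, .q ⟨1471, -511, -960, 0⟩ ⟨-1155, -796, -1679, 3630⟩, .q ⟨1481, -521, -960, 0⟩ ⟨-1155, -796, -1679, 3630⟩, .q ⟨1471, -511, -960, 0⟩ ⟨2354, 1550, 95, -3999⟩, .q ⟨1481, -521, -960, 0⟩ ⟨2354, 1550, 95, -3999⟩] := by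
  refine rok_bys (s := -1) (nlo := 511) (nhi := 521) (q := 960) (by decide) (by decide) (by decide) (by decide) (z := 3) (by decide) TH_sc (k := 1) (by decide) (Q := [(1679, 3630, 11225), (-1679, -3630, 796), (95, 3999, -1550)])
    (P := [⟨-47093760, -960, 0⟩, ⟨48015360, 960, 0⟩, ⟨1034496000, 1679, 3630⟩, ⟨73359360, -1679, -3630⟩, ⟨-142848000, 95, 3999⟩]) rfl rfl
    (List.mem_of_getElem? (i := 109) rfl) TH_fr TH_cov ?_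
  · intro X Y h
    simp only [List.forall_mem_cons, List.not_mem_nil, false_imp_iff, implies_true, and_true] at h
    push_cast at h ⊢
    obtain ⟨h0, h1, h2, h3, h4⟩ := h
    refine ⟨⟨?_, ?_⟩, ?_, ?_⟩ <;> linarith

theorem TH_rg110 : ROK [.q ⟨-451, -509, 960, 0⟩ ⟨-1469, 509, 960, 0⟩, .q ⟨443, 517, -960, 0⟩ ⟨-1477, 517, 960, 0⟩, .q ⟨1469, -509, -960, 0⟩ ⟨2903, 2271, -1443, -3731⟩, .q ⟨1477, -517, -960, 0⟩ ⟨2903, 2271, -1443, -3731⟩, .q ⟨1469, -509, -960, 0⟩ ⟨-1308, -957, -1459, 3724⟩, .q ⟨1477, -517, -960, 0⟩ ⟨-1308, -957, -1459, 3724⟩] := by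
  refine rok_bys (s := -1) (nlo := 509) (nhi := 517) (q := 960) (by decide) (by decide) (by decide) (by decide) (z := 3) (by decide) TH_sc (k := 1) (by decide) (Q := [(-1443, 3731, -2271), (-1459, -3724, 957)])
    (P := [⟨-46909440, -960, 0⟩, ⟨47646720, 960, 0⟩, ⟨-209295360, -1443, 3731⟩, ⟨88197120, -1459, -3724⟩]) rfl rfl
    (List.mem_of_getElem? (i := 110) rfl) TH_fr TH_cov ?_
  · intro X Y h
    simp only [List.forall_mem_cons, List.not_mem_nil, false_imp_iff, implies_true, and_true] at h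
    push_cast at h ⊢
    obtain ⟨h0, h1, h2, h3⟩ := h
    refine ⟨⟨?_, ?_⟩, ?_, ?_⟩ <;> linarith

theorem TH_rg111 : ROK [.q ⟨-226, -254, 480, 0⟩ ⟨-734, 254, 480, 0⟩, .q ⟨219, 261, -480, 0⟩ ⟨-741, 261, 480, 0⟩, .q ⟨734, -254, -480, 0⟩ ⟨1715, 886, 1211, -3812⟩, .q ⟨741, -261, -480, 0⟩ ⟨1715, 886, 1211, -3812⟩, .q ⟨734, -254, -480, 0⟩ ⟨-1471, -1130, -1211, 3812⟩, .q ⟨741, -261, -480, 0⟩ ⟨-1471, -1130, -1211, 3812⟩, .q ⟨734, -254, -480, 0⟩ ⟨178, 545, -3167, 2444⟩, .q ⟨741, -261, -480, 0⟩ ⟨178, 545, -3167, 2444⟩] := by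
  refine rok_bys (s := -1) (nlo := 254) (nhi := 261) (q := 480) (by decide) (by decide) (by decide) (by decide) (z := 3) (by decide) TH_sc (k := 1) (by decide) (Q := [(1211, 3812, -886), (-1211, -3812, 1130), (-3167, -2444, -545)])
    (P := [⟨-23408640, -480, 0⟩, ⟨24053760, 480, 0⟩, ⟨-81653760, 1211, 3812⟩, ⟨104140800, -1211, -3812⟩, ⟨-50227200, -3167, -2444⟩]) rfl rfl
    (List.mem_of_getElem? (i := 111) rfl) TH_fr TH_cov ?_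
  · intro X Y h
    simp only [List.forall_mem_cons, List.not_mem_nil, false_imp_iff, implies_true, and_true] at h
    push_cast at h ⊢
    obtain ⟨h0, h1, h2, h3, h4⟩ := h
    refine ⟨⟨?_, ?_⟩, ?_, ?_⟩ <;> linarith

theorem TH_rg112 : ROK [.q ⟨-10, -10, 20, 0⟩ ⟨-30, 10, 20, 0⟩, .q ⟨9, 11, -20, 0⟩ ⟨-31, 11, 20, 0⟩, .q ⟨30, -10, -20, 0⟩ ⟨409, 391, 0, -800⟩, .q ⟨31, -11, -20, 0⟩ ⟨409, 391, 0, -800⟩, .q ⟨30, -10, -20, 0⟩ ⟨-1801, -2199, 0, 4000⟩, .q ⟨31, -11, -20, 0⟩ ⟨-1801, -2199, 0, 4000⟩, .q ⟨30, -10, -20, 0⟩ ⟨2797, 2795, -2367, -3225⟩, .q ⟨31, -11, -20, 0⟩ ⟨2797, 2795, -2367, -3225⟩] := by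
  refine rok_bys (s := -1) (nlo := 10) (nhi := 11) (q := 20) (by decide) (by decide) (by decide) (by decide) (z := 3) (by decide) TH_sc (k := 1) (by decide) (Q := [(0, 800, -391), (0, -4000, 2199), (-2367, 3225, -2795)])
    (P := [⟨-921600, -20, 0⟩, ⟨1013760, 20, 0⟩, ⟨-36034560, 0, 800⟩, ⟨202659840, 0, -4000⟩, ⟨-257587200, -2367, 3225⟩]) rfl rfl
    (List.mem_of_getElem? (i := 112) rfl) TH_fr TH_cov ?_
  · intro X Y h
    simp only [List.forall_mem_cons, List.not_mem_nil, false_imp_iff, implies_true, and_true] at h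
    push_cast at h ⊢
    obtain ⟨h0, h1, h2, h3, h4⟩ := h
    refine ⟨⟨?_, ?_⟩, ?_, ?_⟩ <;> linarith

theorem TH_rg113 : ROK [.q ⟨-235, -245, 480, 0⟩ ⟨-725, 245, 480, 0⟩, .q ⟨227, 253, -480, 0⟩ ⟨-733, 253, 480, 0⟩, .q ⟨725, -245, -480, 0⟩ ⟨7097, -5097, 0, -2000⟩, .q ⟨733, -253, -480, 0⟩ ⟨7097, -5097, 0, -2000⟩, .q ⟨725, -245, -480, 0⟩ ⟨-1158, -797, -1677, 3632⟩, .q ⟨733, -253, -480, 0⟩ ⟨-1158, -797, -1677, 3632⟩, .q ⟨725, -245, -480, 0⟩ ⟨2875, 2641, -3386, -2130⟩, .q ⟨733, -253, -480, 0⟩ ⟨2875, 2641, -3386, -2130⟩] := by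
  refine rok_bys (s := -1) (nlo := 245) (nhi := 253) (q := 480) (by decide) (by decide) (by decide) (by decide) (z := 3) (by decide) TH_sc (k := 1) (by decide) (Q := [(0, 2000, 5097), (-1677, -3632, 797), (-3386, 2130, -2641)])
    (P := [⟨-22579200, -480, 0⟩, ⟨23316480, 480, 0⟩, ⟨469739520, 0, 2000⟩, ⟨73451520, -1677, -3632⟩, ⟨-243394560, -3386, 2130⟩]) rfl rfl
    (List.mem_of_getElem? (i := 113) rfl) TH_fr TH_cov ?_
  · intro X Y h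
    simp only [List.forall_mem_cons, List.not_mem_nil, false_imp_iff, implies_true, and_true] at h
    push_cast at h ⊢
    obtain ⟨h0, h1, h2, h3, h4⟩ := h
    refine ⟨⟨?_, ?_⟩, ?_, ?_⟩ <;> linarith

theorem TH_rg114 : ROK [.q ⟨-113, -127, 240, 0⟩ ⟨-367, 127, 240, 0⟩, .q ⟨109, 131, -240, 0⟩ ⟨-371, 131, 240, 0⟩, .q ⟨367, -127, -240, 0⟩ ⟨2733, 2035, -862, -3906⟩, .q ⟨371, -131, -240, 0⟩ ⟨2733, 2035, -862, -3906⟩, .q ⟨367, -127, -240, 0⟩ ⟨-1234, -879, -1567, 3680⟩, .q ⟨371, -131, -240, 0⟩ ⟨-1234, -879, -1567, 3680⟩] := by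
  refine rok_bys (s := -1) (nlo := 127) (nhi := 131) (q := 240) (by decide) (by decide) (by decide) (by decide) (z := 3) (by decide) TH_sc (k := 1) (by decide) (Q := [(-862, 3906, -2035), (-1567, -3680, 879)])
    (P := [⟨-11704320, -240, 0⟩, ⟨12072960, 240, 0⟩, ⟨-187545600, -862, 3906⟩, ⟨81008640, -1567, -3680⟩]) rfl rfl
    (List.mem_of_getElem? (i := 114) rfl) TH_fr TH_cov ?_
  · intro X Y h
    simp only [List.forall_mem_cons, List.not_mem_nil, false_imp_iff, implies_true, and_true] at h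
    push_cast at h ⊢
    obtain ⟨h0, h1, h2, h3⟩ := h
    refine ⟨⟨?_, ?_⟩, ?_, ?_⟩ <;> linarith

theorem TH_rg115 : ROK [.q ⟨-27, -33, 60, 0⟩ ⟨-93, 33, 60, 0⟩, .q ⟨26, 34, -60, 0⟩ ⟨-94, 34, 60, 0⟩, .q ⟨93, -33, -60, 0⟩ ⟨13523, -9523, 0, -4000⟩, .q ⟨94, -34, -60, 0⟩ ⟨13523, -9523, 0, -4000⟩, .q ⟨93, -33, -60, 0⟩ ⟨-1801, -2199, 0, 4000⟩, .q ⟨94, -34, -60, 0⟩ ⟨-1801, -2199, 0, 4000⟩, .q ⟨93, -33, -60, 0⟩ ⟨2514, 2831, -3599, -1746⟩, .q ⟨94, -34, -60, 0⟩ ⟨2514, 2831, -3599, -1746⟩] := by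
  refine rok_bys (s := -1) (nlo := 33) (nhi := 34) (q := 60) (by decide) (by decide) (by decide) (by decide) (z := 3) (by decide) TH_sc (k := 1) (by decide) (Q := [(0, 4000, 9523), (0, -4000, 2199), (-3599, 1746, -2831)])
    (P := [⟨-3041280, -60, 0⟩, ⟨3133440, 60, 0⟩, ⟨877639680, 0, 4000⟩, ⟨202659840, 0, -4000⟩, ⟨-260904960, -3599, 1746⟩]) rfl rfl
    (List.mem_of_getElem? (i := 115) rfl) TH_fr TH_cov ?_
  · intro X Y h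
    simp only [List.forall_mem_cons, List.not_mem_nil, false_imp_iff, implies_true, and_true] at h
    push_cast at h ⊢
    obtain ⟨h0, h1, h2, h3, h4⟩ := h
    refine ⟨⟨?_, ?_⟩, ?_, ?_⟩ <;> linarith

theorem TH_rg116 : ROK [.q ⟨-228, -252, 480, 0⟩ ⟨-732, 252, 480, 0⟩, .q ⟨217, 263, -480, 0⟩ ⟨-743, 263, 480, 0⟩, .q ⟨732, -252, -480, 0⟩ ⟨1251, 456, 1843, -3550⟩, .q ⟨743, -263, -480, 0⟩ ⟨1251, 456, 1843, -3550⟩, .q ⟨732, -252, -480, 0⟩ ⟨-1036, -671, -1843, 3550⟩, .q ⟨743, -263, -480, 0⟩ ⟨-1036, -671, -1843, 3550⟩, .q ⟨732, -252, -480, 0⟩ ⟨-1988, -1711, -290, 3989⟩, .q ⟨743, -263, -480, 0⟩ ⟨-1988, -1711, -290, 3989⟩] := by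
  refine rok_bys (s := -1) (nlo := 252) (nhi := 263) (q := 480) (by decide) (by decide) (by decide) (by decide) (z := 3) (by decide) TH_sc (k := 1) (by decide) (Q := [(1843, 3550, -456), (-1843, -3550, 671), (-290, -3989, 1711)])
    (P := [⟨-23224320, -480, 0⟩, ⟨24238080, 480, 0⟩, ⟨-42024960, 1843, 3550⟩, ⟨61839360, -1843, -3550⟩, ⟨157685760, -290, -3989⟩]) rfl rfl
    (List.mem_of_getElem? (i := 116) rfl) TH_fr TH_cov ?_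
  · intro X Y h
    simp only [List.forall_mem_cons, List.not_mem_nil, false_imp_iff, implies_true, and_true] at h
    push_cast at h ⊢
    obtain ⟨h0, h1, h2, h3, h4⟩ := h
    refine ⟨⟨?_, ?_⟩, ?_, ?_⟩ <;> linarith

theorem TH_rg117 : ROK [.q ⟨-3, -2, 5, 0⟩ ⟨-7, 2, 5, 0⟩, .q ⟨2, 3, -5, 0⟩ ⟨-8, 3, 5, 0⟩, .q ⟨7, -2, -5, 0⟩ ⟨1320, 1021, -377, -1964⟩, .q ⟨8, -3, -5, 0⟩ ⟨1320, 1021, -377, -1964⟩, .q ⟨7, -2, -5, 0⟩ ⟨-2439, -2243, 754, 3928⟩, .q ⟨8, -3, -5, 0⟩ ⟨-2439, -2243, 754, 3928⟩, .q ⟨7, -2, -5, 0⟩ ⟨267, 91, 505, -863⟩, .q ⟨8, -3, -5, 0⟩ ⟨267, 91, 505, -863⟩, .q ⟨7, -2, -5, 0⟩ ⟨-890, -519, -2035, 3444⟩, .q ⟨8, -3, -5, 0⟩ ⟨-890, -519, -2035, 3444⟩] := by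
  refine rok_bys (s := -1) (nlo := 2) (nhi := 3) (q := 5) (by decide) (by decide) (by decide) (by decide) (z := 3) (by decide) TH_sc (k := 1) (by decide) (Q := [(-377, 1964, -1021), (754, -3928, 2243), (505, 863, -91), (-2035, -3444, 519)])
    (P := [⟨-184320, -5, 0⟩, ⟨276480, 5, 0⟩, ⟨-94095360, -377, 1964⟩, ⟨206714880, 754, -3928⟩, ⟨-8386560, 505, 863⟩, ⟨47831040, -2035, -3444⟩]) rfl rfl
    (List.mem_of_getElem? (i := 117) rfl) TH_fr TH_cov ?_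
  · intro X Y h
    simp only [List.forall_mem_cons, List.not_mem_nil, false_imp_iff, implies_true, and_true] at h
    push_cast at h ⊢
    obtain ⟨h0, h1, h2, h3, h4, h5⟩ := h
    refine ⟨⟨?_, ?_⟩, ?_, ?_⟩ <;> linarith

theorem TH_rg118 : ROK [.q ⟨-40, -40, 80, 0⟩ ⟨-120, 40, 80, 0⟩, .q ⟨37, 43, -80, 0⟩ ⟨-123, 43, 80, 0⟩, .q ⟨120, -40, -80, 0⟩ ⟨543, -59, 2576, -3060⟩, .q ⟨123, -43, -80, 0⟩ ⟨543, -59, 2576, -3060⟩, .q ⟨120, -40, -80, 0⟩ ⟨-104, -17, -644, 765⟩, .q ⟨123, -43, -80, 0⟩ ⟨-104, -17, -644, 765⟩, .q ⟨120, -40, -80, 0⟩ ⟨-1230, -872, -1575, 3677⟩, .q ⟨123, -43, -80, 0⟩ ⟨-1230, -872, -1575, 3677⟩] := by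
  refine rok_bys (s := -1) (nlo := 40) (nhi := 43) (q := 80) (by decide) (by decide) (by decide) (by decide) (z := 3) (by decide) TH_sc (k := 1) (by decide) (Q := [(2576, 3060, 59), (-644, -765, 17), (-1575, -3677, 872)])
    (P := [⟨-3686400, -80, 0⟩, ⟨3962880, 80, 0⟩, ⟨5437440, 2576, 3060⟩, ⟨1566720, -644, -765⟩, ⟨80363520, -1575, -3677⟩]) rfl rfl
    (List.mem_of_getElem? (i := 118) rfl) TH_fr TH_cov ?_
  · intro X Y h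
    simp only [List.forall_mem_cons, List.not_mem_nil, false_imp_iff, implies_true, and_true] at h
    push_cast at h ⊢
    obtain ⟨h0, h1, h2, h3, h4⟩ := h
    refine ⟨⟨?_, ?_⟩, ?_, ?_⟩ <;> linarith

theorem TH_rg119 : ROK [.q ⟨-38, -42, 80, 0⟩ ⟨-122, 42, 80, 0⟩, .q ⟨35, 45, -80, 0⟩ ⟨-125, 45, 80, 0⟩, .q ⟨122, -42, -80, 0⟩ ⟨2399, 1601, 0, -4000⟩, .q ⟨125, -45, -80, 0⟩ ⟨2399, 1601, 0, -4000⟩, .q ⟨122, -42, -80, 0⟩ ⟨-755, -380, -2203, 3338⟩, .q ⟨125, -45, -80, 0⟩ ⟨-755, -380, -2203, 3338⟩, .q ⟨122, -42, -80, 0⟩ ⟨-893, -739, -339, 1971⟩, .q ⟨125, -45, -80, 0⟩ ⟨-893, -739, -339, 1971⟩] := by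
  refine rok_bys (s := -1) (nlo := 42) (nhi := 45) (q := 80) (by decide) (by decide) (by decide) (by decide) (z := 3) (by decide) TH_sc (k := 1) (by decide) (Q := [(0, 4000, -1601), (-2203, -3338, 380), (-339, -1971, 739)])
    (P := [⟨-3870720, -80, 0⟩, ⟨4147200, 80, 0⟩, ⟨-147548160, 0, 4000⟩, ⟨35020800, -2203, -3338⟩, ⟨68106240, -339, -1971⟩]) rfl rfl
    (List.mem_of_getElem? (i := 119) rfl) TH_fr TH_cov ?_
  · intro X Y h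
    simp only [List.forall_mem_cons, List.not_mem_nil, false_imp_iff, implies_true, and_true] at h
    push_cast at h ⊢
    obtain ⟨h0, h1, h2, h3, h4⟩ := h
    refine ⟨⟨?_, ?_⟩, ?_, ?_⟩ <;> linarith

end Pool.Agent.TET
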