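import Pool.Agent.Helper38_TET.TH_C

/-!
# MP_c7c9bf_co: certificates, family TH
-/

set_option autoImplicit false
set_option maxRecDepth 100000

namespace Pool.Agent.TET

theorem TH_rg120 : ROK [.q ⟨-57, -63, 120, 0⟩ ⟨-183, 63, 120, 0⟩, .q ⟨55, 65, -120, 0⟩ ⟨-185, 65, 120, 0⟩, .q ⟨183, -63, -120, 0⟩ ⟨14141, -10141, 0, -4000⟩, .q ⟨185, -65, -120, 0⟩ ⟨14141, -10141, 0, -4000⟩, .q ⟨183, -63, -120, 0⟩ ⟨-915, -549, -2000, 3464⟩, .q ⟨185, -65, -120, 0⟩ ⟨-915, -549, -2000, 3464⟩, .q ⟨183, -63, -120, 0⟩ ⟨1325, 525, 1748, -3598⟩, .q ⟨185, -65, -120, 0⟩ ⟨1325, 525, 1748, -3598⟩, .q ⟨183, -63, -120, 0⟩ ⟨-966, -815, -208, 1989⟩, .q ⟨185, -65, -120, 0⟩ ⟨-966, -815, -208, 1989⟩] := by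
  refine rok_bys (s := -1) (nlo := 63) (nhi := 65) (q := 120) (by decide) (by decide) (by decide) (by decide) (z := 3) (by decide) TH_sc (k := 1) (by decide) (Q := [(0, 4000, 10141), (-2000, -3464, 549), (1748, 3598, -525), (-208, -1989, 815)])
    (P := [⟨-5806080, -120, 0⟩, ⟨5990400, 120, 0⟩, ⟨934594560, 0, 4000⟩, ⟨50595840, -2000, -3464⟩, ⟨-48384000, 1748, 3598⟩, ⟨75110400, -208, -1989⟩]) rfl rfl
    (List.mem_of_getElem? (i := 120) rfl) TH_fr TH_cov ?_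
  · intro X Y h
    simp only [List.forall_mem_cons, List.not_mem_nil, false_imp_iff, implies_true, and_true] at h
    push_cast at h ⊢
    obtain ⟨h0, h1, h2, h3, h4, h5⟩ := h
    refine ⟨⟨?_, ?_⟩, ?_, ?_⟩ <;> linarith

theorem TH_rg121 : ROK [.q ⟨-23, -25, 48, 0⟩ ⟨-73, 25, 48, 0⟩, .q ⟨22, 26, -48, 0⟩ ⟨-74, 26, 48, 0⟩, .q ⟨73, -25, -48, 0⟩ ⟨13911, -10438, 496, -3969⟩, .q ⟨74, -26, -48, 0⟩ ⟨13911, -10438, 496, -3969⟩, .q ⟨73, -25, -48, 0⟩ ⟨-1882, -1591, -496, 3969⟩, .q ⟨74, -26, -48, 0⟩ ⟨-1882, -1591, -496, 3969⟩, .q ⟨73, -25, -48, 0⟩ ⟨822, 418, 651, -1891⟩, .q ⟨74, -26, -48, 0⟩ ⟨822, 418, 651, -1891⟩, .q ⟨73, -25, -48, 0⟩ ⟨-457, -272, -1002, 1731⟩, .q ⟨74, -26, -48, 0⟩ ⟨-457, -272, -1002, 1731⟩] := by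
  refine rok_bys (s := -1) (nlo := 25) (nhi := 26) (q := 48) (by decide) (by decide) (by decide) (by decide) (z := 3) (by decide) TH_sc (k := 1) (by decide) (Q := [(496, 3969, 10438), (-496, -3969, 1591), (651, 1891, -418), (-1002, -1731, 272)])
    (P := [⟨-2304000, -48, 0⟩, ⟨2396160, 48, 0⟩, ⟨961966080, 496, 3969⟩, ⟨146626560, -496, -3969⟩, ⟨-38522880, 651, 1891⟩, ⟨25067520, -1002, -1731⟩]) rfl rfl
    (List.mem_of_getElem? (i := 121) rfl) TH_fr TH_cov ?_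
  · intro X Y h
    simp only [List.forall_mem_cons, List.not_mem_nil, false_imp_iff, implies_true, and_true] at h
    push_cast at h ⊢
    obtain ⟨h0, h1, h2, h3, h4, h5⟩ := h
    refine ⟨⟨?_, ?_⟩, ?_, ?_⟩ <;> linarith

theorem TH_rg122 : ROK [.q ⟨-232, -248, 480, 0⟩ ⟨-728, 248, 480, 0⟩, .q ⟨225, 255, -480, 0⟩ ⟨-735, 255, 480, 0⟩, .q ⟨728, -248, -480, 0⟩ ⟨450, -220, 2711, -2941⟩, .q ⟨735, -255, -480, 0⟩ ⟨450, -220, 2711, -2941⟩, .q ⟨728, -248, -480, 0⟩ ⟨-1021, -662, -1859, 3542⟩, .q ⟨735, -255, -480, 0⟩ ⟨-1021, -662, -1859, 3542⟩, .q ⟨728, -248, -480, 0⟩ ⟨-2444, -2165, 665, 3944⟩, .q ⟨735, -255, -480, 0⟩ ⟨-2444, -2165, 665, 3944⟩] := by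
  refine rok_bys (s := -1) (nlo := 248) (nhi := 255) (q := 480) (by decide) (by decide) (by decide) (by decide) (z := 3) (by decide) TH_sc (k := 1) (by decide) (Q := [(2711, 2941, 220), (-1859, -3542, 662), (665, -3944, 2165)])
    (P := [⟨-22855680, -480, 0⟩, ⟨23500800, 480, 0⟩, ⟨20275200, 2711, 2941⟩, ⟨61009920, -1859, -3542⟩, ⟨199526400, 665, -3944⟩]) rfl rfl
    (List.mem_of_getElem? (i := 122) rfl) TH_fr TH_cov ?_
  · intro X Y h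
    simp only [List.forall_mem_cons, List.not_mem_nil, false_imp_iff, implies_true, and_true] at h
    push_cast at h ⊢
    obtain ⟨h0, h1, h2, h3, h4⟩ := h
    refine ⟨⟨?_, ?_⟩, ?_, ?_⟩ <;> linarith

theorem TH_rg123 : ROK [.q ⟨-227, -253, 480, 0⟩ ⟨-733, 253, 480, 0⟩, .q ⟨220, 260, -480, 0⟩ ⟨-740, 260, 480, 0⟩, .q ⟨733, -253, -480, 0⟩ ⟨12978, -11443, 1955, -3490⟩, .q ⟨740, -260, -480, 0⟩ ⟨12978, -11443, 1955, -3490⟩, .q ⟨733, -253, -480, 0⟩ ⟨-1022, -659, -1860, 3541⟩, .q ⟨740, -260, -480, 0⟩ ⟨-1022, -659, -1860, 3541⟩, .q ⟨733, -253, -480, 0⟩ ⟨2822, 2688, -3397, -2113⟩, .q ⟨740, -260, -480, 0⟩ ⟨2822, 2688, -3397, -2113⟩, .q ⟨733, -253, -480, 0⟩ ⟨-2246, -1986, 239, 3993⟩, .q ⟨740, -260, -480, 0⟩ ⟨-2246, -1986, 239, 3993⟩] := by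
  refine rok_bys (s := -1) (nlo := 253) (nhi := 260) (q := 480) (by decide) (by decide) (by decide) (by decide) (z := 3) (by decide) TH_sc (k := 1) (by decide) (Q := [(1955, 3490, 11443), (-1860, -3541, 659), (-3397, 2113, -2688), (239, -3993, 1986)])
    (P := [⟨-23316480, -480, 0⟩, ⟨23961600, 480, 0⟩, ⟨1054586880, 1955, 3490⟩, ⟨60733440, -1860, -3541⟩, ⟨-247726080, -3397, 2113⟩, ⟨183029760, 239, -3993⟩]) rfl rfl
    (List.mem_of_getElem? (i := 123) rfl) TH_fr TH_cov ?_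
  · intro X Y h
    simp only [List.forall_mem_cons, List.not_mem_nil, false_imp_iff, implies_true, and_true] at h
    push_cast at h ⊢
    obtain ⟨h0, h1, h2, h3, h4, h5⟩ := h
    refine ⟨⟨?_, ?_⟩, ?_, ?_⟩ <;> linarith

theorem TH_rg124 : ROK [.q ⟨-219, -261, 480, 0⟩ ⟨-741, 261, 480, 0⟩, .q ⟨214, 266, -480, 0⟩ ⟨-746, 266, 480, 0⟩, .q ⟨741, -261, -480, 0⟩ ⟨12254, -8141, -115, -3998⟩, .q ⟨746, -266, -480, 0⟩ ⟨12254, -8141, -115, -3998⟩, .q ⟨741, -261, -480, 0⟩ ⟨-1846, -1653, -473, 3972⟩, .q ⟨746, -266, -480, 0⟩ ⟨-1846, -1653, -473, 3972⟩, .q ⟨741, -261, -480, 0⟩ ⟨-819, -1425, 3718, -1474⟩, .q ⟨746, -266, -480, 0⟩ ⟨-819, -1425, 3718, -1474⟩, .q ⟨741, -261, -480, 0⟩ ⟨-243, 131, -2772, 2884⟩, .q ⟨746, -266, -480, 0⟩ ⟨-243, 131, -2772, 2884⟩] := by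
  refine rok_bys (s := -1) (nlo := 261) (nhi := 266) (q := 480) (by decide) (by decide) (by decide) (by decide) (z := 3) (by decide) TH_sc (k := 1) (by decide) (Q := [(-115, 3998, 8141), (-473, -3972, 1653), (3718, 1474, 1425), (-2772, -2884, -131)])
    (P := [⟨-24053760, -480, 0⟩, ⟨24514560, 480, 0⟩, ⟨750274560, -115, 3998⟩, ⟨152340480, -473, -3972⟩, ⟨131328000, 3718, 1474⟩, ⟨-12072960, -2772, -2884⟩]) rfl rfl
    (List.mem_of_getElem? (i := 124) rfl) TH_fr TH_cov ?_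
  · intro X Y h
    simp only [List.forall_mem_cons, List.not_mem_nil, false_imp_iff, implies_true, and_true] at h
    push_cast at h ⊢
    obtain ⟨h0, h1, h2, h3, h4, h5⟩ := h
    refine ⟨⟨?_, ?_⟩, ?_, ?_⟩ <;> linarith

theorem TH_rg125 : ROK [.q ⟨-449, -511, 960, 0⟩ ⟨-1471, 511, 960, 0⟩, .q ⟨439, 521, -960, 0⟩ ⟨-1481, 521, 960, 0⟩, .q ⟨1471, -511, -960, 0⟩ ⟨1348, 521, 1735, -3604⟩, .q ⟨1481, -521, -960, 0⟩ ⟨1348, 521, 1735, -3604⟩, .q ⟨1471, -511, -960, 0⟩ ⟨-1115, -754, -1735, 3604⟩, .q ⟨1481, -521, -960, 0⟩ ⟨-1115, -754, -1735, 3604⟩] := by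
  refine rok_bys (s := -1) (nlo := 511) (nhi := 521) (q := 960) (by decide) (by decide) (by decide) (by decide) (z := 3) (by decide) TH_sc (k := 1) (by decide) (Q := [(1735, 3604, -521), (-1735, -3604, 754)])
    (P := [⟨-47093760, -960, 0⟩, ⟨48015360, 960, 0⟩, ⟨-48015360, 1735, 3604⟩, ⟨69488640, -1735, -3604⟩]) rfl rfl
    (List.mem_of_getElem? (i := 125) rfl) TH_fr TH_cov ?_
  · intro X Y h
    simp only [List.forall_mem_cons, List.not_mem_nil, false_imp_iff, implies_true, and_true] at h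
    push_cast at h ⊢
    obtain ⟨h0, h1, h2, h3⟩ := h
    refine ⟨⟨?_, ?_⟩, ?_, ?_⟩ <;> linarith

theorem TH_rg126 : ROK [.q ⟨-446, -514, 960, 0⟩ ⟨-1474, 514, 960, 0⟩, .q ⟨435, 525, -960, 0⟩ ⟨-1485, 525, 960, 0⟩, .q ⟨1474, -514, -960, 0⟩ ⟨2210, 1389, 383, -3982⟩, .q ⟨1485, -525, -960, 0⟩ ⟨2210, 1389, 383, -3982⟩, .q ⟨1474, -514, -960, 0⟩ ⟨-898, -525, -2026, 3449⟩, .q ⟨1485, -525, -960, 0⟩ ⟨-898, -525, -2026, 3449⟩] := by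
  refine rok_bys (s := -1) (nlo := 514) (nhi := 525) (q := 960) (by decide) (by decide) (by decide) (by decide) (z := 3) (by decide) TH_sc (k := 1) (by decide) (Q := [(383, 3982, -1389), (-2026, -3449, 525)])
    (P := [⟨-47370240, -960, 0⟩, ⟨48384000, 960, 0⟩, ⟨-128010240, 383, 3982⟩, ⟨48384000, -2026, -3449⟩]) rfl rfl
    (List.mem_of_getElem? (i := 126) rfl) TH_fr TH_cov ?_
  · intro X Y h
    simp only [List.forall_mem_cons, List.not_mem_nil, false_imp_iff, implies_true, and_true] at h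
    push_cast at h ⊢
    obtain ⟨h0, h1, h2, h3⟩ := h
    refine ⟨⟨?_, ?_⟩, ?_, ?_⟩ <;> linarith

theorem TH_rg127 : ROK [.q ⟨-75, -85, 160, 0⟩ ⟨-245, 85, 160, 0⟩, .q ⟨74, 86, -160, 0⟩ ⟨-246, 86, 160, 0⟩, .q ⟨245, -85, -160, 0⟩ ⟨3019, 2625, -2636, -3008⟩, .q ⟨246, -86, -160, 0⟩ ⟨3019, 2625, -2636, -3008⟩, .q ⟨245, -85, -160, 0⟩ ⟨-1195, -838, -1623, 3656⟩, .q ⟨246, -86, -160, 0⟩ ⟨-1195, -838, -1623, 3656⟩] := by
  refine rok_bys (s := -1) (nlo := 85) (nhi := 86) (q := 160) (by decide) (by decide) (by decide) (by decide) (z := 3) (by decide) TH_sc (k := 1) (by decide) (Q := [(-2636, 3008, -2625), (-1623, -3656, 838)])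
    (P := [⟨-7833600, -160, 0⟩, ⟨7925760, 160, 0⟩, ⟨-241920000, -2636, 3008⟩, ⟨77230080, -1623, -3656⟩]) rfl rfl
    (List.mem_of_getElem? (i := 127) rfl) TH_fr TH_cov ?_
  · intro X Y h
    simp only [List.forall_mem_cons, List.not_mem_nil, false_imp_iff, implies_true, and_true] at h
    push_cast at h ⊢
    obtain ⟨h0, h1, h2, h3⟩ := h
    refine ⟨⟨?_, ?_⟩, ?_, ?_⟩ <;> linarith

theorem TH_rg128 : ROK [.q ⟨-20, -20, 40, 0⟩ ⟨-60, 20, 40, 0⟩, .q ⟨17, 23, -40, 0⟩ ⟨-63, 23, 40, 0⟩, .q ⟨60, -20, -40, 0⟩ ⟨14275, -9984, -302, -3989⟩, .q ⟨63, -23, -40, 0⟩ ⟨14275, -9984, -302, -3989⟩, .q ⟨60, -20, -40, 0⟩ ⟨-910, -540, -2009, 3459⟩, .q ⟨63, -23, -40, 0⟩ ⟨-910, -540, -2009, 3459⟩, .q ⟨60, -20, -40, 0⟩ ⟨1370, 647, 1634, -3651⟩, .q ⟨63, -23, -40, 0⟩ ⟨1370, 647, 1634, -3651⟩, .q ⟨60, -20, -40, 0⟩ ⟨-1909, -1621, -445, 3975⟩, .q ⟨63, -23, -40, 0⟩ ⟨-1909,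 -1621, -445, 3975⟩] := by
  refine rok_bys (s := -1) (nlo := 20) (nhi := 23) (q := 40) (by decide) (by decide) (by decide) (by decide) (z := 3) (by decide) TH_sc (k := 1) (by decide) (Q := [(-302, 3989, 9984), (-2009, -3459, 540), (1634, 3651, -647), (-445, -3975, 1621)])
    (P := [⟨-1843200, -40, 0⟩, ⟨2119680, 40, 0⟩, ⟨920125440, -302, 3989⟩, ⟨49766400, -2009, -3459⟩, ⟨-59627520, 1634, 3651⟩, ⟨149391360, -445, -3975⟩]) rfl rfl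
    (List.mem_of_getElem? (i := 128) rfl) TH_fr TH_cov ?_
  · intro X Y h
    simp only [List.forall_mem_cons, List.not_mem_nil, false_imp_iff, implies_true, and_true] at h
    push_cast at h ⊢
    obtain ⟨h0, h1, h2, h3, h4, h5⟩ := h
    refine ⟨⟨?_, ?_⟩, ?_, ?_⟩ <;> linarith

theorem TH_rg129 : ROK [.q ⟨-223, -257, 480, 0⟩ ⟨-737, 257, 480, 0⟩, .q ⟨217, 263, -480, 0⟩ ⟨-743, 263, 480, 0⟩, .q ⟨737, -257, -480, 0⟩ ⟨1447, 606, 1609, -3662⟩, .q ⟨743, -263, -480, 0⟩ ⟨1447, 606, 1609, -3662⟩, .q ⟨737, -257, -480, 0⟩ ⟨-1204, -849, -1609, 3662⟩, .q ⟨743, -263, -480, 0⟩ ⟨-1204, -849, -1609, 3662⟩] := by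
  refine rok_bys (s := -1) (nlo := 257) (nhi := 263) (q := 480) (by decide) (by decide) (by decide) (by decide) (z := 3) (by decide) TH_sc (k := 1) (by decide) (Q := [(1609, 3662, -606), (-1609, -3662, 849)])
    (P := [⟨-23685120, -480, 0⟩, ⟨24238080, 480, 0⟩, ⟨-55848960, 1609, 3662⟩, ⟨78243840, -1609, -3662⟩]) rfl rfl
    (List.mem_of_getElem? (i := 129) rfl) TH_fr TH_cov ?_
  · intro X Y h
    simp only [List.forall_mem_cons, List.not_mem_nil, false_imp_iff, implies_true, and_true] at h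
    push_cast at h ⊢
    obtain ⟨h0, h1, h2, h3⟩ := h
    refine ⟨⟨?_, ?_⟩, ?_, ?_⟩ <;> linarith

theorem TH_rg130 : ROK [.q ⟨-38, -42, 80, 0⟩ ⟨-122, 42, 80, 0⟩, .q ⟨35, 45, -80, 0⟩ ⟨-125, 45, 80, 0⟩, .q ⟨122, -42, -80, 0⟩ ⟨12997, -11392, 1910, -3515⟩, .q ⟨125, -45, -80, 0⟩ ⟨12997, -11392, 1910, -3515⟩, .q ⟨122, -42, -80, 0⟩ ⟨-986, -619, -1910, 3515⟩, .q ⟨125, -45, -80, 0⟩ ⟨-986, -619, -1910, 3515⟩, .q ⟨122, -42, -80, 0⟩ ⟨2796, 2767, -3295, -2268⟩, .q ⟨125, -45, -80, 0⟩ ⟨2796, 2767, -3295, -2268⟩, .q ⟨122, -42, -80, 0⟩ ⟨-2676, -2554, 1537, 3693⟩, .q ⟨125, -45, -80, 0⟩ ⟨-2676, -2554, 1537, 3693⟩] := by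
  refine rok_bys (s := -1) (nlo := 42) (nhi := 45) (q := 80) (by decide) (by decide) (by decide) (by decide) (z := 3) (by decide) TH_sc (k := 1) (by decide) (Q := [(1910, 3515, 11392), (-1910, -3515, 619), (-3295, 2268, -2767), (1537, -3693, 2554)])
    (P := [⟨-3870720, -80, 0⟩, ⟨4147200, 80, 0⟩, ⟨1049886720, 1910, 3515⟩, ⟨57047040, -1910, -3515⟩, ⟨-255006720, -3295, 2268⟩, ⟨235376640, 1537, -3693⟩]) rfl rfl
    (List.mem_of_getElem? (i := 130) rfl) TH_fr TH_cov ?_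
  · intro X Y h
    simp only [List.forall_mem_cons, List.not_mem_nil, false_imp_iff, implies_true, and_true] at h
    push_cast at h ⊢
    obtain ⟨h0, h1, h2, h3, h4, h5⟩ := h
    refine ⟨⟨?_, ?_⟩, ?_, ?_⟩ <;> linarith

theorem TH_rg131 : ROK [.q ⟨-443, -517, 960, 0⟩ ⟨-1477, 517, 960, 0⟩, .q ⟨436, 524, -960, 0⟩ ⟨-1484, 524, 960, 0⟩, .q ⟨1477, -517, -960, 0⟩ ⟨11349, -6905, -472, -3972⟩, .q ⟨1484, -524, -960, 0⟩ ⟨11349, -6905, -472, -3972⟩, .q ⟨1477, -517, -960, 0⟩ ⟨8497, -13863, 1788, 3578⟩, .q ⟨1484, -524, -960, 0⟩ ⟨8497, -13863, 1788, 3578⟩, .q ⟨1477, -517, -960, 0⟩ ⟨567, -228, 2654, -2993⟩, .q ⟨1484, -524, -960, 0⟩ ⟨567, -228, 2654, -2993⟩, .q ⟨1477, -517, -960, 0⟩ ⟨-23, 170, -1486, 1339⟩, .q ⟨1484, -524, -960, 0⟩ ⟨-23, 170, -1486, 1339⟩] := by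
  refine rok_bys (s := -1) (nlo := 517) (nhi := 524) (q := 960) (by decide) (by decide) (by decide) (by decide) (z := 3) (by decide) TH_sc (k := 1) (by decide) (Q := [(-472, 3972, 6905), (1788, -3578, 13863), (2654, 2993, 228), (-1486, -1339, -170)])
    (P := [⟨-47646720, -960, 0⟩, ⟨48291840, 960, 0⟩, ⟨636364800, -472, 3972⟩, ⟨1277614080, 1788, -3578⟩, ⟨21012480, 2654, 2993⟩, ⟨-15667200, -1486, -1339⟩]) rfl rfl
    (List.mem_of_getElem? (i := 131) rfl) TH_fr TH_cov ?_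
  · intro X Y h
    simp only [List.forall_mem_cons, List.not_mem_nil, false_imp_iff, implies_true, and_true] at h
    push_cast at h ⊢
    obtain ⟨h0, h1, h2, h3, h4, h5⟩ := h
    refine ⟨⟨?_, ?_⟩, ?_, ?_⟩ <;> linarith

theorem TH_rg132 : ROK [.q ⟨-20, -20, 40, 0⟩ ⟨-60, 20, 40, 0⟩, .q ⟨17, 23, -40, 0⟩ ⟨-63, 23, 40, 0⟩, .q ⟨60, -20, -40, 0⟩ ⟨14660, -9467, -1474, -3719⟩, .q ⟨63, -23, -40, 0⟩ ⟨14660, -9467, -1474, -3719⟩, .q ⟨60, -20, -40, 0⟩ ⟨-2623, -2570, 1474, 3719⟩, .q ⟨63, -23, -40, 0⟩ ⟨-2623, -2570, 1474, 3719⟩, .q ⟨60, -20, -40, 0⟩ ⟨1239, 512, 1814, -3565⟩, .q ⟨63, -23, -40, 0⟩ ⟨1239, 512, 1814, -3565⟩, .q ⟨60, -20, -40, 0⟩ ⟨771, 1156, -3623, 1696⟩, .q ⟨63, -23, -40, 0⟩ ⟨771, 1156, -3623, 1696⟩] := by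
  refine rok_bys (s := -1) (nlo := 20) (nhi := 23) (q := 40) (by decide) (by decide) (by decide) (by decide) (z := 3) (by decide) TH_sc (k := 1) (by decide) (Q := [(-1474, 3719, 9467), (1474, -3719, 2570), (1814, 3565, -512), (-3623, -1696, -1156)])
    (P := [⟨-1843200, -40, 0⟩, ⟨2119680, 40, 0⟩, ⟨872478720, -1474, 3719⟩, ⟨236851200, 1474, -3719⟩, ⟨-47185920, 1814, 3565⟩, ⟨-106536960, -3623, -1696⟩]) rfl rfl
    (List.mem_of_getElem? (i := 132) rfl) TH_fr TH_cov ?_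
  · intro X Y h
    simp only [List.forall_mem_cons, List.not_mem_nil, false_imp_iff, implies_true, and_true] at h
    push_cast at h ⊢
    obtain ⟨h0, h1, h2, h3, h4, h5⟩ := h
    refine ⟨⟨?_, ?_⟩, ?_, ?_⟩ <;> linarith

theorem TH_rg133 : ROK [.q ⟨-226, -254, 480, 0⟩ ⟨-734, 254, 480, 0⟩, .q ⟨219, 261, -480, 0⟩ ⟨-741, 261, 480, 0⟩, .q ⟨734, -254, -480, 0⟩ ⟨1365, 547, 1706, -3618⟩, .q ⟨741, -261, -480, 0⟩ ⟨1365, 547, 1706, -3618⟩, .q ⟨734, -254, -480, 0⟩ ⟨-568, -388, -853, 1809⟩, .q ⟨741, -261, -480, 0⟩ ⟨-568, -388, -853, 1809⟩] := by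
  refine rok_bys (s := -1) (nlo := 254) (nhi := 261) (q := 480) (by decide) (by decide) (by decide) (by decide) (z := 3) (by decide) TH_sc (k := 1) (by decide) (Q := [(1706, 3618, -547), (-853, -1809, 388)])
    (P := [⟨-23408640, -480, 0⟩, ⟨24053760, 480, 0⟩, ⟨-50411520, 1706, 3618⟩, ⟨35758080, -853, -1809⟩]) rfl rfl
    (List.mem_of_getElem? (i := 133) rfl) TH_fr TH_cov ?_
  · intro X Y h
    simp only [List.forall_mem_cons, List.not_mem_nil, false_imp_iff, implies_true, and_true] at h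
    push_cast at h ⊢
    obtain ⟨h0, h1, h2, h3⟩ := h
    refine ⟨⟨?_, ?_⟩, ?_, ?_⟩ <;> linarith

theorem TH_rg134 : ROK [.q ⟨-227, -253, 480, 0⟩ ⟨-733, 253, 480, 0⟩, .q ⟨217, 263, -480, 0⟩ ⟨-743, 263, 480, 0⟩, .q ⟨733, -253, -480, 0⟩ ⟨1689, 865, 1247, -3801⟩, .q ⟨743, -263, -480, 0⟩ ⟨1689, 865, 1247, -3801⟩, .q ⟨733, -253, -480, 0⟩ ⟨-1446, -1108, -1247, 3801⟩, .q ⟨743, -263, -480, 0⟩ ⟨-1446, -1108, -1247, 3801⟩, .q ⟨733, -253, -480, 0⟩ ⟨-893, -522, -2031, 3446⟩, .q ⟨743, -263, -480, 0⟩ ⟨-893, -522, -2031, 3446⟩] := by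
  refine rok_bys (s := -1) (nlo := 253) (nhi := 263) (q := 480) (by decide) (by decide) (by decide) (by decide) (z := 3) (by decide) TH_sc (k := 1) (by decide) (Q := [(1247, 3801, -865), (-1247, -3801, 1108), (-2031, -3446, 522)])
    (P := [⟨-23316480, -480, 0⟩, ⟨24238080, 480, 0⟩, ⟨-79718400, 1247, 3801⟩, ⟨102113280, -1247, -3801⟩, ⟨48107520, -2031, -3446⟩]) rfl rfl
    (List.mem_of_getElem? (i := 134) rfl) TH_fr TH_cov ?_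
  · intro X Y h
    simp only [List.forall_mem_cons, List.not_mem_nil, false_imp_iff, implies_true, and_true] at h
    push_cast at h ⊢
    obtain ⟨h0, h1, h2, h3, h4⟩ := h
    refine ⟨⟨?_, ?_⟩, ?_, ?_⟩ <;> linarith

theorem TH_rg135 : ROK [.q ⟨-45, -51, 96, 0⟩ ⟨-147, 51, 96, 0⟩, .q ⟨44, 52, -96, 0⟩ ⟨-148, 52, 96, 0⟩, .q ⟨147, -51, -96, 0⟩ ⟨5297, -4787, 1136, -1646⟩, .q ⟨148, -52, -96, 0⟩ ⟨5297, -4787, 1136, -1646⟩, .q ⟨147, -51, -96, 0⟩ ⟨-349, -161, -1136, 1646⟩, .q ⟨148, -52, -96, 0⟩ ⟨-349, -161, -1136, 1646⟩, .q ⟨147, -51, -96, 0⟩ ⟨1632, 801, 1337, -3770⟩, .q ⟨148, -52, -96, 0⟩ ⟨1632, 801, 1337, -3770⟩, .q ⟨147, -51, -96, 0⟩ ⟨-1209, -853, -1603, 3665⟩, .q ⟨148, -52, -96, 0⟩ ⟨-1209, -853, -1603, 3665⟩] := by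
  refine rok_bys (s := -1) (nlo := 51) (nhi := 52) (q := 96) (by decide) (by decide) (by decide) (by decide) (z := 3) (by decide) TH_sc (k := 1) (by decide) (Q := [(1136, 1646, 4787), (-1136, -1646, 161), (1337, 3770, -801), (-1603, -3665, 853)])
    (P := [⟨-4700160, -96, 0⟩, ⟨4792320, 96, 0⟩, ⟨441169920, 1136, 1646⟩, ⟨14837760, -1136, -1646⟩, ⟨-73820160, 1337, 3770⟩, ⟨78612480, -1603, -3665⟩]) rfl rfl
    (List.mem_of_getElem? (i := 135) rfl) TH_fr TH_cov ?_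
  · intro X Y h
    simp only [List.forall_mem_cons, List.not_mem_nil, false_imp_iff, implies_true, and_true] at h
    push_cast at h ⊢
    obtain ⟨h0, h1, h2, h3, h4, h5⟩ := h
    refine ⟨⟨?_, ?_⟩, ?_, ?_⟩ <;> linarith

theorem TH_rg136 : ROK [.q ⟨-228, -252, 480, 0⟩ ⟨-732, 252, 480, 0⟩, .q ⟨221, 259, -480, 0⟩ ⟨-739, 259, 480, 0⟩, .q ⟨732, -252, -480, 0⟩ ⟨1539, 727, 1459, -3725⟩, .q ⟨739, -259, -480, 0⟩ ⟨1539, 727, 1459, -3725⟩, .q ⟨732, -252, -480, 0⟩ ⟨-1309, -957, -1459, 3725⟩, .q ⟨739, -259, -480, 0⟩ ⟨-1309, -957, -1459, 3725⟩, .q ⟨732, -252, -480, 0⟩ ⟨-719, -350, -2243, 3312⟩, .q ⟨739, -259, -480, 0⟩ ⟨-719, -350, -2243, 3312⟩] := by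
  refine rok_bys (s := -1) (nlo := 252) (nhi := 259) (q := 480) (by decide) (by decide) (by decide) (by decide) (z := 3) (by decide) TH_sc (k := 1) (by decide) (Q := [(1459, 3725, -727), (-1459, -3725, 957), (-2243, -3312, 350)])
    (P := [⟨-23224320, -480, 0⟩, ⟨23869440, 480, 0⟩, ⟨-67000320, 1459, 3725⟩, ⟨88197120, -1459, -3725⟩, ⟨32256000, -2243, -3312⟩]) rfl rfl
    (List.mem_of_getElem? (i := 136) rfl) TH_fr TH_cov ?_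
  · intro X Y h
    simp only [List.forall_mem_cons, List.not_mem_nil, false_imp_iff, implies_true, and_true] at h
    push_cast at h ⊢
    obtain ⟨h0, h1, h2, h3, h4⟩ := h
    refine ⟨⟨?_, ?_⟩, ?_, ?_⟩ <;> linarith

theorem TH_rg137 : ROK [.q ⟨-225, -255, 480, 0⟩ ⟨-735, 255, 480, 0⟩, .q ⟨217, 263, -480, 0⟩ ⟨-743, 263, 480, 0⟩, .q ⟨735, -255, -480, 0⟩ ⟨2989, 2514, -2097, -3406⟩, .q ⟨743, -263, -480, 0⟩ ⟨2989, 2514, -2097, -3406⟩, .q ⟨735, -255, -480, 0⟩ ⟨-2666, -2637, 1668, 3635⟩, .q ⟨743, -263, -480, 0⟩ ⟨-2666, -2637, 1668, 3635⟩, .q ⟨735, -255, -480, 0⟩ ⟨713, 1100, -3586, 1773⟩, .q ⟨743, -263, -480, 0⟩ ⟨713, 1100, -3586, 1773⟩] := by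
  refine rok_bys (s := -1) (nlo := 255) (nhi := 263) (q := 480) (by decide) (by decide) (by decide) (by decide) (z := 3) (by decide) TH_sc (k := 1) (by decide) (Q := [(-2097, 3406, -2514), (1668, -3635, 2637), (-3586, -1773, -1100)])
    (P := [⟨-23500800, -480, 0⟩, ⟨24238080, 480, 0⟩, ⟨-231690240, -2097, 3406⟩, ⟨243025920, 1668, -3635⟩, ⟨-101376000, -3586, -1773⟩]) rfl rfl
    (List.mem_of_getElem? (i := 137) rfl) TH_fr TH_cov ?_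
  · intro X Y h
    simp only [List.forall_mem_cons, List.not_mem_nil, false_imp_iff, implies_true, and_true] at h
    push_cast at h ⊢
    obtain ⟨h0, h1, h2, h3, h4⟩ := h
    refine ⟨⟨?_, ?_⟩, ?_, ?_⟩ <;> linarith

theorem TH_rg138 : ROK [.q ⟨-40, -40, 80, 0⟩ ⟨-120, 40, 80, 0⟩, .q ⟨37, 43, -80, 0⟩ ⟨-123, 43, 80, 0⟩, .q ⟨120, -40, -80, 0⟩ ⟨11143, -5508, -2573, -3062⟩, .q ⟨123, -43, -80, 0⟩ ⟨11143, -5508, -2573, -3062⟩, .q ⟨120, -40, -80, 0⟩ ⟨-2101, -1767, -130, 3998⟩, .q ⟨123, -43, -80, 0⟩ ⟨-2101, -1767, -130, 3998⟩, .q ⟨120, -40, -80, 0⟩ ⟨2676, 1943, -677, -3942⟩, .q ⟨123, -43, -80, 0⟩ ⟨2676, 1943, -677, -3942⟩, .q ⟨120, -40, -80, 0⟩ ⟨-756, -403, -2189, 3348⟩, .q ⟨123, -43, -80, 0⟩ ⟨-756, -403, -2189, 3348⟩] := by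
  refine rok_bys (s := -1) (nlo := 40) (nhi := 43) (q := 80) (by decide) (by decide) (by decide) (by decide) (z := 3) (by decide) TH_sc (k := 1) (by decide) (Q := [(-2573, 3062, 5508), (-130, -3998, 1767), (-677, 3942, -1943), (-2189, -3348, 403)])
    (P := [⟨-3686400, -80, 0⟩, ⟨3962880, 80, 0⟩, ⟨507617280, -2573, 3062⟩, ⟨162846720, -130, -3998⟩, ⟨-179066880, -677, 3942⟩, ⟨37140480, -2189, -3348⟩]) rfl rfl
    (List.mem_of_getElem? (i := 138) rfl) TH_fr TH_cov ?_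
  · intro X Y h
    simp only [List.forall_mem_cons, List.not_mem_nil, false_imp_iff, implies_true, and_true] at h
    push_cast at h ⊢
    obtain ⟨h0, h1, h2, h3, h4, h5⟩ := h
    refine ⟨⟨?_, ?_⟩, ?_, ?_⟩ <;> linarith

theorem TH_rg139 : ROK [.q ⟨-20, -20, 40, 0⟩ ⟨-60, 20, 40, 0⟩, .q ⟨17, 23, -40, 0⟩ ⟨-63, 23, 40, 0⟩, .q ⟨60, -20, -40, 0⟩ ⟨1376, 653, 1626, -3655⟩, .q ⟨63, -23, -40, 0⟩ ⟨1376, 653, 1626, -3655⟩, .q ⟨60, -20, -40, 0⟩ ⟨-1194, -835, -1626, 3655⟩, .q ⟨63, -23, -40, 0⟩ ⟨-1194, -835, -1626, 3655⟩, .q ⟨60, -20, -40, 0⟩ ⟨-799, -442, -2139, 3380⟩, .q ⟨63, -23, -40, 0⟩ ⟨-799, -442, -2139, 3380⟩] := by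
  refine rok_bys (s := -1) (nlo := 20) (nhi := 23) (q := 40) (by decide) (by decide) (by decide) (by decide) (z := 3) (by decide) TH_sc (k := 1) (by decide) (Q := [(1626, 3655, -653), (-1626, -3655, 835), (-2139, -3380, 442)])
    (P := [⟨-1843200, -40, 0⟩, ⟨2119680, 40, 0⟩, ⟨-60180480, 1626, 3655⟩, ⟨76953600, -1626, -3655⟩, ⟨40734720, -2139, -3380⟩]) rfl rfl
    (List.mem_of_getElem? (i := 139) rfl) TH_fr TH_cov ?_
  · intro X Y h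
    simp only [List.forall_mem_cons, List.not_mem_nil, false_imp_iff, implies_true, and_true] at h
    push_cast at h ⊢
    obtain ⟨h0, h1, h2, h3, h4⟩ := h
    refine ⟨⟨?_, ?_⟩, ?_, ?_⟩ <;> linarith

theorem TH_rg140 : ROK [.q ⟨-447, -513, 960, 0⟩ ⟨-1473, 513, 960, 0⟩, .q ⟨437, 523, -960, 0⟩ ⟨-1483, 523, 960, 0⟩, .q ⟨1473, -513, -960, 0⟩ ⟨1234, 407, 1886, -3527⟩, .q ⟨1483, -523, -960, 0⟩ ⟨1234, 407, 1886, -3527⟩, .q ⟨1473, -513, -960, 0⟩ ⟨-1174, -817, -1652, 3643⟩, .q ⟨1483, -523, -960, 0⟩ ⟨-1174, -817, -1652, 3643⟩] := by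
  refine rok_bys (s := -1) (nlo := 513) (nhi := 523) (q := 960) (by decide) (by decide) (by decide) (by decide) (z := 3) (by decide) TH_sc (k := 1) (by decide) (Q := [(1886, 3527, -407), (-1652, -3643, 817)])
    (P := [⟨-47278080, -960, 0⟩, ⟨48199680, 960, 0⟩, ⟨-37509120, 1886, 3527⟩, ⟨75294720, -1652, -3643⟩]) rfl rfl
    (List.mem_of_getElem? (i := 140) rfl) TH_fr TH_cov ?_
  · intro X Y h
    simp only [List.forall_mem_cons, List.not_mem_nil, false_imp_iff, implies_true, and_true] at h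
    push_cast at h ⊢
    obtain ⟨h0, h1, h2, h3⟩ := h
    refine ⟨⟨?_, ?_⟩, ?_, ?_⟩ <;> linarith

theorem TH_rg141 : ROK [.q ⟨-451, -509, 960, 0⟩ ⟨-1469, 509, 960, 0⟩, .q ⟨442, 518, -960, 0⟩ ⟨-1478, 518, 960, 0⟩, .q ⟨1469, -509, -960, 0⟩ ⟨2399, 1601, 0, -4000⟩, .q ⟨1478, -518, -960, 0⟩ ⟨2399, 1601, 0, -4000⟩, .q ⟨1469, -509, -960, 0⟩ ⟨-427, -373, 0, 800⟩, .q ⟨1478, -518, -960, 0⟩ ⟨-427, -373, 0, 800⟩, .q ⟨1469, -509, -960, 0⟩ ⟨-580, -203, -2410, 3193⟩, .q ⟨1478, -518, -960, 0⟩ ⟨-580, -203, -2410, 3193⟩] := by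
  refine rok_bys (s := -1) (nlo := 509) (nhi := 518) (q := 960) (by decide) (by decide) (by decide) (by decide) (z := 3) (by decide) TH_sc (k := 1) (by decide) (Q := [(0, 4000, -1601), (0, -800, 373), (-2410, -3193, 203)])
    (P := [⟨-46909440, -960, 0⟩, ⟨47738880, 960, 0⟩, ⟨-147548160, 0, 4000⟩, ⟨34375680, 0, -800⟩, ⟨18708480, -2410, -3193⟩]) rfl rfl
    (List.mem_of_getElem? (i := 141) rfl) TH_fr TH_cov ?_
  · intro X Y h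
    simp only [List.forall_mem_cons, List.not_mem_nil, false_imp_iff, implies_true, and_true] at h
    push_cast at h ⊢
    obtain ⟨h0, h1, h2, h3, h4⟩ := h
    refine ⟨⟨?_, ?_⟩, ?_, ?_⟩ <;> linarith

theorem TH_rg142 : ROK [.q ⟨-445, -515, 960, 0⟩ ⟨-1475, 515, 960, 0⟩, .q ⟨433, 527, -960, 0⟩ ⟨-1487, 527, 960, 0⟩, .q ⟨1475, -515, -960, 0⟩ ⟨2399, 1601, 0, -4000⟩, .q ⟨1487, -527, -960, 0⟩ ⟨2399, 1601, 0, -4000⟩, .q ⟨1475, -515, -960, 0⟩ ⟨-611, -226, -2379, 3216⟩, .q ⟨1487, -527, -960, 0⟩ ⟨-611, -226, -2379, 3216⟩] := by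
  refine rok_bys (s := -1) (nlo := 515) (nhi := 527) (q := 960) (by decide) (by decide) (by decide) (by decide) (z := 3) (by decide) TH_sc (k := 1) (by decide) (Q := [(0, 4000, -1601), (-2379, -3216, 226)])
    (P := [⟨-47462400, -960, 0⟩, ⟨48568320, 960, 0⟩, ⟨-147548160, 0, 4000⟩, ⟨20828160, -2379, -3216⟩]) rfl rfl
    (List.mem_of_getElem? (i := 142) rfl) TH_fr TH_cov ?_
  · intro X Y h
    simp only [List.forall_mem_cons, List.not_mem_nil, false_imp_iff, implies_true, and_true] at h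
    push_cast at h ⊢
    obtain ⟨h0, h1, h2, h3⟩ := h
    refine ⟨⟨?_, ?_⟩, ?_, ?_⟩ <;> linarith

theorem TH_rg143 : ROK [.q ⟨-39, -41, 80, 0⟩ ⟨-121, 41, 80, 0⟩, .q ⟨36, 44, -80, 0⟩ ⟨-124, 44, 80, 0⟩, .q ⟨121, -41, -80, 0⟩ ⟨2399, 1601, 0, -4000⟩, .q ⟨124, -44, -80, 0⟩ ⟨2399, 1601, 0, -4000⟩, .q ⟨121, -41, -80, 0⟩ ⟨-815, -446, -2127, 3388⟩, .q ⟨124, -44, -80, 0⟩ ⟨-815, -446, -2127, 3388⟩, .q ⟨121, -41, -80, 0⟩ ⟨-1760, -1442, -731, 3933⟩, .q ⟨124, -44, -80, 0⟩ ⟨-1760, -1442, -731, 3933⟩] := by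
  refine rok_bys (s := -1) (nlo := 41) (nhi := 44) (q := 80) (by decide) (by decide) (by decide) (by decide) (z := 3) (by decide) TH_sc (k := 1) (by decide) (Q := [(0, 4000, -1601), (-2127, -3388, 446), (-731, -3933, 1442)])
    (P := [⟨-3778560, -80, 0⟩, ⟨4055040, 80, 0⟩, ⟨-147548160, 0, 4000⟩, ⟨41103360, -2127, -3388⟩, ⟨132894720, -731, -3933⟩]) rfl rfl
    (List.mem_of_getElem? (i := 143) rfl) TH_fr TH_cov ?_
  · intro X Y h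
    simp only [List.forall_mem_cons, List.not_mem_nil, false_imp_iff, implies_true, and_true] at h
    push_cast at h ⊢
    obtain ⟨h0, h1, h2, h3, h4⟩ := h
    refine ⟨⟨?_, ?_⟩, ?_, ?_⟩ <;> linarith

end Pool.Agent.TET
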