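import Pool.Agent.Helper38_TET.TH_C

/-!
# MP_c7c9bf_co: certificates, family TH
-/

set_option autoImplicit false
set_option maxRecDepth 100000

namespace Pool.Agent.TET

theorem TH_rg144 : ROK [.q ⟨-453, -507, 960, 0⟩ ⟨-1467, 507, 960, 0⟩, .q ⟨442, 518, -960, 0⟩ ⟨-1478, 518, 960, 0⟩, .q ⟨1467, -507, -960, 0⟩ ⟨2493, -1693, 0, -800⟩, .q ⟨1478, -518, -960, 0⟩ ⟨2493, -1693, 0, -800⟩, .q ⟨1467, -507, -960, 0⟩ ⟨-819, -656, -469, 1944⟩, .q ⟨1478, -518, -960, 0⟩ ⟨-819, -656, -469, 1944⟩, .q ⟨1467, -507, -960, 0⟩ ⟨2182, 1365, 430, -3977⟩, .q ⟨1478, -518, -960, 0⟩ ⟨2182, 1365, 430, -3977⟩, .q ⟨1467, -507, -960, 0⟩ ⟨467, 834, -3403, 2102⟩, .q ⟨1478, -518, -960, 0⟩ ⟨467, 834, -3403, 2102⟩] := by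
  refine rok_bys (s := -1) (nlo := 507) (nhi := 518) (q := 960) (by decide) (by decide) (by decide) (by decide) (z := 3) (by decide) TH_sc (k := 1) (by decide) (Q := [(0, 800, 1693), (-469, -1944, 656), (430, 3977, -1365), (-3403, -2102, -834)])
    (P := [⟨-46725120, -960, 0⟩, ⟨47738880, 960, 0⟩, ⟨156026880, 0, 800⟩, ⟨60456960, -469, -1944⟩, ⟨-125798400, 430, 3977⟩, ⟨-76861440, -3403, -2102⟩]) rfl rfl
    (List.mem_of_getElem? (i := 144) rfl) TH_fr TH_cov ?_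
  · intro X Y h
    simp only [List.forall_mem_cons, List.not_mem_nil, false_imp_iff, implies_true, and_true] at h
    push_cast at h ⊢
    obtain ⟨h0, h1, h2, h3, h4, h5⟩ := h
    refine ⟨⟨?_, ?_⟩, ?_, ?_⟩ <;> linarith

theorem TH_rg145 : ROK [.q ⟨-75, -85, 160, 0⟩ ⟨-245, 85, 160, 0⟩, .q ⟨72, 88, -160, 0⟩ ⟨-248, 88, 160, 0⟩, .q ⟨245, -85, -160, 0⟩ ⟨2399, 1601, 0, -4000⟩, .q ⟨248, -88, -160, 0⟩ ⟨2399, 1601, 0, -4000⟩, .q ⟨245, -85, -160, 0⟩ ⟨-1135, -775, -1707, 3617⟩, .q ⟨248, -88, -160, 0⟩ ⟨-1135, -775, -1707, 3617⟩] := by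
  refine rok_bys (s := -1) (nlo := 85) (nhi := 88) (q := 160) (by decide) (by decide) (by decide) (by decide) (z := 3) (by decide) TH_sc (k := 1) (by decide) (Q := [(0, 4000, -1601), (-1707, -3617, 775)])
    (P := [⟨-7833600, -160, 0⟩, ⟨8110080, 160, 0⟩, ⟨-147548160, 0, 4000⟩, ⟨71424000, -1707, -3617⟩]) rfl rfl
    (List.mem_of_getElem? (i := 145) rfl) TH_fr TH_cov ?_
  · intro X Y h
    simp only [List.forall_mem_cons, List.not_mem_nil, false_imp_iff, implies_true, and_true] at h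
    push_cast at h ⊢
    obtain ⟨h0, h1, h2, h3⟩ := h
    refine ⟨⟨?_, ?_⟩, ?_, ?_⟩ <;> linarith

theorem TH_rg146 : ROK [.q ⟨-455, -505, 960, 0⟩ ⟨-1465, 505, 960, 0⟩, .q ⟨443, 517, -960, 0⟩ ⟨-1477, 517, 960, 0⟩, .q ⟨1465, -505, -960, 0⟩ ⟨2399, 1601, 0, -4000⟩, .q ⟨1477, -517, -960, 0⟩ ⟨2399, 1601, 0, -4000⟩, .q ⟨1465, -505, -960, 0⟩ ⟨-1531, -1199, -1112, 3842⟩, .q ⟨1477, -517, -960, 0⟩ ⟨-1531, -1199, -1112, 3842⟩, .q ⟨1465, -505, -960, 0⟩ ⟨-653, -274, -2327, 3254⟩, .q ⟨1477, -517, -960, 0⟩ ⟨-653, -274, -2327, 3254⟩] := by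
  refine rok_bys (s := -1) (nlo := 505) (nhi := 517) (q := 960) (by decide) (by decide) (by decide) (by decide) (z := 3) (by decide) TH_sc (k := 1) (by decide) (Q := [(0, 4000, -1601), (-1112, -3842, 1199), (-2327, -3254, 274)])
    (P := [⟨-46540800, -960, 0⟩, ⟨47646720, 960, 0⟩, ⟨-147548160, 0, 4000⟩, ⟨110499840, -1112, -3842⟩, ⟨25251840, -2327, -3254⟩]) rfl rfl
    (List.mem_of_getElem? (i := 146) rfl) TH_fr TH_cov ?_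
  · intro X Y h
    simp only [List.forall_mem_cons, List.not_mem_nil, false_imp_iff, implies_true, and_true] at h
    push_cast at h ⊢
    obtain ⟨h0, h1, h2, h3, h4⟩ := h
    refine ⟨⟨?_, ?_⟩, ?_, ?_⟩ <;> linarith

theorem TH_rg147 : ROK [.q ⟨-36, -44, 80, 0⟩ ⟨-124, 44, 80, 0⟩, .q ⟨33, 47, -80, 0⟩ ⟨-127, 47, 80, 0⟩, .q ⟨124, -44, -80, 0⟩ ⟨2756, 2181, -1087, -3850⟩, .q ⟨127, -47, -80, 0⟩ ⟨2756, 2181, -1087, -3850⟩, .q ⟨124, -44, -80, 0⟩ ⟨-2419, -2949, 1792, 3576⟩, .q ⟨127, -47, -80, 0⟩ ⟨-2419, -2949, 1792, 3576⟩, .q ⟨124, -44, -80, 0⟩ ⟨2439, 2774, -3705, -1508⟩, .q ⟨127, -47, -80, 0⟩ ⟨2439, 2774, -3705, -1508⟩] := by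
  refine rok_bys (s := -1) (nlo := 44) (nhi := 47) (q := 80) (by decide) (by decide) (by decide) (by decide) (z := 3) (by decide) TH_sc (k := 1) (by decide) (Q := [(-1087, 3850, -2181), (1792, -3576, 2949), (-3705, 1508, -2774)])
    (P := [⟨-4055040, -80, 0⟩, ⟨4331520, 80, 0⟩, ⟨-201000960, -1087, 3850⟩, ⟨271779840, 1792, -3576⟩, ⟨-255651840, -3705, 1508⟩]) rfl rfl
    (List.mem_of_getElem? (i := 147) rfl) TH_fr TH_cov ?_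
  · intro X Y h
    simp only [List.forall_mem_cons, List.not_mem_nil, false_imp_iff, implies_true, and_true] at h
    push_cast at h ⊢
    obtain ⟨h0, h1, h2, h3, h4⟩ := h
    refine ⟨⟨?_, ?_⟩, ?_, ?_⟩ <;> linarith

theorem TH_rg148 : ROK [.q ⟨-40, -40, 80, 0⟩ ⟨-120, 40, 80, 0⟩, .q ⟨37, 43, -80, 0⟩ ⟨-123, 43, 80, 0⟩, .q ⟨120, -40, -80, 0⟩ ⟨920, 915, -701, -1134⟩, .q ⟨123, -43, -80, 0⟩ ⟨920, 915, -701, -1134⟩, .q ⟨120, -40, -80, 0⟩ ⟨-329, -425, -986, 1740⟩, .q ⟨123, -43, -80, 0⟩ ⟨-329, -425, -986, 1740⟩, .q ⟨120, -40, -80, 0⟩ ⟨2186, 2111, -309, -3988⟩, .q ⟨123, -43, -80, 0⟩ ⟨2186, 2111, -309, -3988⟩] := by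
  refine rok_bys (s := -1) (nlo := 40) (nhi := 43) (q := 80) (by decide) (by decide) (by decide) (by decide) (z := 3) (by decide) TH_sc (k := 1) (by decide) (Q := [(-701, 1134, -915), (-986, -1740, 425), (-309, 3988, -2111)])
    (P := [⟨-3686400, -80, 0⟩, ⟨3962880, 80, 0⟩, ⟨-84326400, -701, 1134⟩, ⟨39168000, -986, -1740⟩, ⟨-194549760, -309, 3988⟩]) rfl rfl
    (List.mem_of_getElem? (i := 148) rfl) TH_fr TH_cov ?_
  · intro X Y h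
    simp only [List.forall_mem_cons, List.not_mem_nil, false_imp_iff, implies_true, and_true] at h
    push_cast at h ⊢
    obtain ⟨h0, h1, h2, h3, h4⟩ := h
    refine ⟨⟨?_, ?_⟩, ?_, ?_⟩ <;> linarith

theorem TH_rg149 : ROK [.q ⟨-235, -245, 480, 0⟩ ⟨-725, 245, 480, 0⟩, .q ⟨227, 253, -480, 0⟩ ⟨-733, 253, 480, 0⟩, .q ⟨725, -245, -480, 0⟩ ⟨657, 281, 865, -1803⟩, .q ⟨733, -253, -480, 0⟩ ⟨657, 281, 865, -1803⟩, .q ⟨725, -245, -480, 0⟩ ⟨-559, -379, -865, 1803⟩, .q ⟨733, -253, -480, 0⟩ ⟨-559, -379, -865, 1803⟩] := by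
  refine rok_bys (s := -1) (nlo := 245) (nhi := 253) (q := 480) (by decide) (by decide) (by decide) (by decide) (z := 3) (by decide) TH_sc (k := 1) (by decide) (Q := [(865, 1803, -281), (-865, -1803, 379)])
    (P := [⟨-22579200, -480, 0⟩, ⟨23316480, 480, 0⟩, ⟨-25896960, 865, 1803⟩, ⟨34928640, -865, -1803⟩]) rfl rfl
    (List.mem_of_getElem? (i := 149) rfl) TH_fr TH_cov ?_
  · intro X Y h
    simp only [List.forall_mem_cons, List.not_mem_nil, false_imp_iff, implies_true, and_true] at h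
    push_cast at h ⊢
    obtain ⟨h0, h1, h2, h3⟩ := h
    refine ⟨⟨?_, ?_⟩, ?_, ?_⟩ <;> linarith

theorem TH_rg150 : ROK [.q ⟨-20, -20, 40, 0⟩ ⟨-60, 20, 40, 0⟩, .q ⟨17, 23, -40, 0⟩ ⟨-63, 23, 40, 0⟩, .q ⟨60, -20, -40, 0⟩ ⟨2399, 1601, 0, -4000⟩, .q ⟨63, -23, -40, 0⟩ ⟨2399, 1601, 0, -4000⟩, .q ⟨60, -20, -40, 0⟩ ⟨-217, -183, 0, 400⟩, .q ⟨63, -23, -40, 0⟩ ⟨-217, -183, 0, 400⟩, .q ⟨60, -20, -40, 0⟩ ⟨-817, -465, -2114, 3396⟩, .q ⟨63, -23, -40, 0⟩ ⟨-817, -465, -2114, 3396⟩] := by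
  refine rok_bys (s := -1) (nlo := 20) (nhi := 23) (q := 40) (by decide) (by decide) (by decide) (by decide) (z := 3) (by decide) TH_sc (k := 1) (by decide) (Q := [(0, 4000, -1601), (0, -400, 183), (-2114, -3396, 465)])
    (P := [⟨-1843200, -40, 0⟩, ⟨2119680, 40, 0⟩, ⟨-147548160, 0, 4000⟩, ⟨16865280, 0, -400⟩, ⟨42854400, -2114, -3396⟩]) rfl rfl
    (List.mem_of_getElem? (i := 150) rfl) TH_fr TH_cov ?_
  · intro X Y h
    simp only [List.forall_mem_cons, List.not_mem_nil, false_imp_iff, implies_true, and_true] at h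
    push_cast at h ⊢
    obtain ⟨h0, h1, h2, h3, h4⟩ := h
    refine ⟨⟨?_, ?_⟩, ?_, ?_⟩ <;> linarith

theorem TH_rg151 : ROK [.q ⟨-20, -20, 40, 0⟩ ⟨-60, 20, 40, 0⟩, .q ⟨17, 23, -40, 0⟩ ⟨-63, 23, 40, 0⟩, .q ⟨60, -20, -40, 0⟩ ⟨2047, 1953, 0, -4000⟩, .q ⟨63, -23, -40, 0⟩ ⟨2047, 1953, 0, -4000⟩, .q ⟨60, -20, -40, 0⟩ ⟨-1801, -2199, 0, 4000⟩, .q ⟨63, -23, -40, 0⟩ ⟨-1801, -2199, 0, 4000⟩, .q ⟨60, -20, -40, 0⟩ ⟨2798, 2799, -2389, -3208⟩, .q ⟨63, -23, -40, 0⟩ ⟨2798, 2799, -2389, -3208⟩] := by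
  refine rok_bys (s := -1) (nlo := 20) (nhi := 23) (q := 40) (by decide) (by decide) (by decide) (by decide) (z := 3) (by decide) TH_sc (k := 1) (by decide) (Q := [(0, 4000, -1953), (0, -4000, 2199), (-2389, 3208, -2799)])
    (P := [⟨-1843200, -40, 0⟩, ⟨2119680, 40, 0⟩, ⟨-179988480, 0, 4000⟩, ⟨202659840, 0, -4000⟩, ⟨-257955840, -2389, 3208⟩]) rfl rfl
    (List.mem_of_getElem? (i := 151) rfl) TH_fr TH_cov ?_
  · intro X Y h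
    simp only [List.forall_mem_cons, List.not_mem_nil, false_imp_iff, implies_true, and_true] at h
    push_cast at h ⊢
    obtain ⟨h0, h1, h2, h3, h4⟩ := h
    refine ⟨⟨?_, ?_⟩, ?_, ?_⟩ <;> linarith

theorem TH_rg152 : ROK [.q ⟨-440, -520, 960, 0⟩ ⟨-1480, 520, 960, 0⟩, .q ⟨431, 529, -960, 0⟩ ⟨-1489, 529, 960, 0⟩, .q ⟨1480, -520, -960, 0⟩ ⟨12445, -11937, 2563, -3071⟩, .q ⟨1489, -529, -960, 0⟩ ⟨12445, -11937, 2563, -3071⟩, .q ⟨1480, -520, -960, 0⟩ ⟨-436, -72, -2563, 3071⟩, .q ⟨1489, -529, -960, 0⟩ ⟨-436, -72, -2563, 3071⟩, .q ⟨1480, -520, -960, 0⟩ ⟨594, 308, 377, -1279⟩, .q ⟨1489, -529, -960, 0⟩ ⟨594, 308, 377, -1279⟩] := by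
  refine rok_bys (s := -1) (nlo := 520) (nhi := 529) (q := 960) (by decide) (by decide) (by decide) (by decide) (z := 3) (by decide) TH_sc (k := 1) (by decide) (Q := [(2563, 3071, 11937), (-2563, -3071, 72), (377, 1279, -308)])
    (P := [⟨-47923200, -960, 0⟩, ⟨48752640, 960, 0⟩, ⟨1100113920, 2563, 3071⟩, ⟨6635520, -2563, -3071⟩, ⟨-28385280, 377, 1279⟩]) rfl rfl
    (List.mem_of_getElem? (i := 152) rfl) TH_fr TH_cov ?_
  · intro X Y h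
    simp only [List.forall_mem_cons, List.not_mem_nil, false_imp_iff, implies_true, and_true] at h
    push_cast at h ⊢
    obtain ⟨h0, h1, h2, h3, h4⟩ := h
    refine ⟨⟨?_, ?_⟩, ?_, ?_⟩ <;> linarith

theorem TH_rg153 : ROK [.q ⟨-222, -258, 480, 0⟩ ⟨-738, 258, 480, 0⟩, .q ⟨215, 265, -480, 0⟩ ⟨-745, 265, 480, 0⟩, .q ⟨738, -258, -480, 0⟩ ⟨13072, -9460, 371, -3983⟩, .q ⟨745, -265, -480, 0⟩ ⟨13072, -9460, 371, -3983⟩, .q ⟨738, -258, -480, 0⟩ ⟨-1898, -1714, -371, 3983⟩, .q ⟨745, -265, -480, 0⟩ ⟨-1898, -1714, -371, 3983⟩, .q ⟨738, -258, -480, 0⟩ ⟨2777, 2755, -2175, -3357⟩, .q ⟨745, -265, -480, 0⟩ ⟨2777, 2755, -2175, -3357⟩, .q ⟨738, -258, -480, 0⟩ ⟨-181, 197, -2836, 2820⟩, .q ⟨745, -265, -480, 0⟩ ⟨-181, 197, -2836, 2820⟩] := by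
  refine rok_bys (s := -1) (nlo := 258) (nhi := 265) (q := 480) (by decide) (by decide) (by decide) (by decide) (z := 3) (by decide) TH_sc (k := 1) (by decide) (Q := [(371, 3983, 9460), (-371, -3983, 1714), (-2175, 3357, -2755), (-2836, -2820, -197)])
    (P := [⟨-23777280, -480, 0⟩, ⟨24422400, 480, 0⟩, ⟨871833600, 371, 3983⟩, ⟨157962240, -371, -3983⟩, ⟨-253900800, -2175, 3357⟩, ⟨-18155520, -2836, -2820⟩]) rfl rfl
    (List.mem_of_getElem? (i := 153) rfl) TH_fr TH_cov ?_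
  · intro X Y h
    simp only [List.forall_mem_cons, List.not_mem_nil, false_imp_iff, implies_true, and_true] at h
    push_cast at h ⊢
    obtain ⟨h0, h1, h2, h3, h4, h5⟩ := h
    refine ⟨⟨?_, ?_⟩, ?_, ?_⟩ <;> linarith

theorem TH_rg154 : ROK [.q ⟨-40, -40, 80, 0⟩ ⟨-120, 40, 80, 0⟩, .q ⟨37, 43, -80, 0⟩ ⟨-123, 43, 80, 0⟩, .q ⟨120, -40, -80, 0⟩ ⟨1077, 392, 1997, -3466⟩, .q ⟨123, -43, -80, 0⟩ ⟨1077, 392, 1997, -3466⟩, .q ⟨120, -40, -80, 0⟩ ⟨-1357, -996, -1396, 3749⟩, .q ⟨123, -43, -80, 0⟩ ⟨-1357, -996, -1396, 3749⟩, .q ⟨120, -40, -80, 0⟩ ⟨-152, 167, -2836, 2821⟩, .q ⟨123, -43, -80, 0⟩ ⟨-152, 167, -2836, 2821⟩] := by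
  refine rok_bys (s := -1) (nlo := 40) (nhi := 43) (q := 80) (by decide) (by decide) (by decide) (by decide) (z := 3) (by decide) TH_sc (k := 1) (by decide) (Q := [(1997, 3466, -392), (-1396, -3749, 996), (-2836, -2821, -167)])
    (P := [⟨-3686400, -80, 0⟩, ⟨3962880, 80, 0⟩, ⟨-36126720, 1997, 3466⟩, ⟨91791360, -1396, -3749⟩, ⟨-15390720, -2836, -2821⟩]) rfl rfl
    (List.mem_of_getElem? (i := 154) rfl) TH_fr TH_cov ?_
  · intro X Y h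
    simp only [List.forall_mem_cons, List.not_mem_nil, false_imp_iff, implies_true, and_true] at h
    push_cast at h ⊢
    obtain ⟨h0, h1, h2, h3, h4⟩ := h
    refine ⟨⟨?_, ?_⟩, ?_, ?_⟩ <;> linarith

theorem TH_rg155 : ROK [.q ⟨-446, -514, 960, 0⟩ ⟨-1474, 514, 960, 0⟩, .q ⟨439, 521, -960, 0⟩ ⟨-1481, 521, 960, 0⟩, .q ⟨1474, -514, -960, 0⟩ ⟨1002, 184, 2173, -3359⟩, .q ⟨1481, -521, -960, 0⟩ ⟨1002, 184, 2173, -3359⟩, .q ⟨1474, -514, -960, 0⟩ ⟨-391, -272, -551, 1214⟩, .q ⟨1481, -521, -960, 0⟩ ⟨-391, -272, -551, 1214⟩] := by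
  refine rok_bys (s := -1) (nlo := 514) (nhi := 521) (q := 960) (by decide) (by decide) (by decide) (by decide) (z := 3) (by decide) TH_sc (k := 1) (by decide) (Q := [(2173, 3359, -184), (-551, -1214, 272)])
    (P := [⟨-47370240, -960, 0⟩, ⟨48015360, 960, 0⟩, ⟨-16957440, 2173, 3359⟩, ⟨25067520, -551, -1214⟩]) rfl rfl
    (List.mem_of_getElem? (i := 155) rfl) TH_fr TH_cov ?_
  · intro X Y h
    simp only [List.forall_mem_cons, List.not_mem_nil, false_imp_iff, implies_true, and_true] at h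
    push_cast at h ⊢
    obtain ⟨h0, h1, h2, h3⟩ := h
    refine ⟨⟨?_, ?_⟩, ?_, ?_⟩ <;> linarith

theorem TH_rg156 : ROK [.q ⟨-38, -42, 80, 0⟩ ⟨-122, 42, 80, 0⟩, .q ⟨35, 45, -80, 0⟩ ⟨-125, 45, 80, 0⟩, .q ⟨122, -42, -80, 0⟩ ⟨6155, -5290, 914, -1779⟩, .q ⟨125, -45, -80, 0⟩ ⟨6155, -5290, 914, -1779⟩, .q ⟨122, -42, -80, 0⟩ ⟨-514, -351, -914, 1779⟩, .q ⟨125, -45, -80, 0⟩ ⟨-514, -351, -914, 1779⟩, .q ⟨122, -42, -80, 0⟩ ⟨1257, 462, 1835, -3554⟩, .q ⟨125, -45, -80, 0⟩ ⟨1257, 462, 1835, -3554⟩, .q ⟨122, -42, -80, 0⟩ ⟨932, 1311, -3718, 1475⟩, .q ⟨125, -45, -80, 0⟩ ⟨932, 1311, -3718, 1475⟩] := by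
  refine rok_bys (s := -1) (nlo := 42) (nhi := 45) (q := 80) (by decide) (by decide) (by decide) (by decide) (z := 3) (by decide) TH_sc (k := 1) (by decide) (Q := [(914, 1779, 5290), (-914, -1779, 351), (1835, 3554, -462), (-3718, -1475, -1311)])
    (P := [⟨-3870720, -80, 0⟩, ⟨4147200, 80, 0⟩, ⟨487526400, 914, 1779⟩, ⟨32348160, -914, -1779⟩, ⟨-42577920, 1835, 3554⟩, ⟨-120821760, -3718, -1475⟩]) rfl rfl
    (List.mem_of_getElem? (i := 156) rfl) TH_fr TH_cov ?_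
  · intro X Y h
    simp only [List.forall_mem_cons, List.not_mem_nil, false_imp_iff, implies_true, and_true] at h
    push_cast at h ⊢
    obtain ⟨h0, h1, h2, h3, h4, h5⟩ := h
    refine ⟨⟨?_, ?_⟩, ?_, ?_⟩ <;> linarith

theorem TH_rg157 : ROK [.q ⟨-443, -517, 960, 0⟩ ⟨-1477, 517, 960, 0⟩, .q ⟨433, 527, -960, 0⟩ ⟨-1487, 527, 960, 0⟩, .q ⟨1477, -517, -960, 0⟩ ⟨898, 73, 2301, -3272⟩, .q ⟨1487, -527, -960, 0⟩ ⟨898, 73, 2301, -3272⟩, .q ⟨1477, -517, -960, 0⟩ ⟨-661, -310, -2301, 3272⟩, .q ⟨1487, -527, -960, 0⟩ ⟨-661, -310, -2301, 3272⟩, .q ⟨1477, -517, -960, 0⟩ ⟨697, 1080, -3574, 1797⟩, .q ⟨1487, -527, -960, 0⟩ ⟨697, 1080, -3574, 1797⟩] := by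
  refine rok_bys (s := -1) (nlo := 517) (nhi := 527) (q := 960) (by decide) (by decide) (by decide) (by decide) (z := 3) (by decide) TH_sc (k := 1) (by decide) (Q := [(2301, 3272, -73), (-2301, -3272, 310), (-3574, -1797, -1080)])
    (P := [⟨-47646720, -960, 0⟩, ⟨48568320, 960, 0⟩, ⟨-6727680, 2301, 3272⟩, ⟨28569600, -2301, -3272⟩, ⟨-99532800, -3574, -1797⟩]) rfl rfl
    (List.mem_of_getElem? (i := 157) rfl) TH_fr TH_cov ?_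
  · intro X Y h
    simp only [List.forall_mem_cons, List.not_mem_nil, false_imp_iff, implies_true, and_true] at h
    push_cast at h ⊢
    obtain ⟨h0, h1, h2, h3, h4⟩ := h
    refine ⟨⟨?_, ?_⟩, ?_, ?_⟩ <;> linarith

theorem TH_rg158 : ROK [.q ⟨-437, -523, 960, 0⟩ ⟨-1483, 523, 960, 0⟩, .q ⟨431, 529, -960, 0⟩ ⟨-1489, 529, 960, 0⟩, .q ⟨1483, -523, -960, 0⟩ ⟨5743, -3743, 0, -2000⟩, .q ⟨1489, -529, -960, 0⟩ ⟨5743, -3743, 0, -2000⟩, .q ⟨1483, -523, -960, 0⟩ ⟨-787, -451, -2141, 3379⟩, .q ⟨1489, -529, -960, 0⟩ ⟨-787, -451, -2141, 3379⟩, .q ⟨1483, -523, -960, 0⟩ ⟨-393, -1092, 3472, -1987⟩, .q ⟨1489, -529, -960, 0⟩ ⟨-393, -1092, 3472, -1987⟩] := by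
  refine rok_bys (s := -1) (nlo := 523) (nhi := 529) (q := 960) (by decide) (by decide) (by decide) (by decide) (z := 3) (by decide) TH_sc (k := 1) (by decide) (Q := [(0, 2000, 3743), (-2141, -3379, 451), (3472, 1987, 1092)])
    (P := [⟨-48199680, -960, 0⟩, ⟨48752640, 960, 0⟩, ⟨344954880, 0, 2000⟩, ⟨41564160, -2141, -3379⟩, ⟨100638720, 3472, 1987⟩]) rfl rfl
    (List.mem_of_getElem? (i := 158) rfl) TH_fr TH_cov ?_
  · intro X Y h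
    simp only [List.forall_mem_cons, List.not_mem_nil, false_imp_iff, implies_true, and_true] at h
    push_cast at h ⊢
    obtain ⟨h0, h1, h2, h3, h4⟩ := h
    refine ⟨⟨?_, ?_⟩, ?_, ?_⟩ <;> linarith

theorem TH_rg159 : ROK [.q ⟨-434, -526, 960, 0⟩ ⟨-1486, 526, 960, 0⟩, .q ⟨425, 535, -960, 0⟩ ⟨-1495, 535, 960, 0⟩, .q ⟨1486, -526, -960, 0⟩ ⟨12575, -11768, 2396, -3203⟩, .q ⟨1495, -535, -960, 0⟩ ⟨12575, -11768, 2396, -3203⟩, .q ⟨1486, -526, -960, 0⟩ ⟨-383, -424, -2396, 3203⟩, .q ⟨1495, -535, -960, 0⟩ ⟨-383, -424, -2396, 3203⟩, .q ⟨1486, -526, -960, 0⟩ ⟨2188, 2099, -298, -3989⟩, .q ⟨1495, -535, -960, 0⟩ ⟨2188, 2099, -298, -3989⟩] := by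
  refine rok_bys (s := -1) (nlo := 526) (nhi := 535) (q := 960) (by decide) (by decide) (by decide) (by decide) (z := 3) (by decide) TH_sc (k := 1) (by decide) (Q := [(2396, 3203, 11768), (-2396, -3203, 424), (-298, 3989, -2099)])
    (P := [⟨-48476160, -960, 0⟩, ⟨49305600, 960, 0⟩, ⟨1084538880, 2396, 3203⟩, ⟨39075840, -2396, -3203⟩, ⟨-193443840, -298, 3989⟩]) rfl rfl
    (List.mem_of_getElem? (i := 159) rfl) TH_fr TH_cov ?_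
  · intro X Y h
    simp only [List.forall_mem_cons, List.not_mem_nil, false_imp_iff, implies_true, and_true] at h
    push_cast at h ⊢
    obtain ⟨h0, h1, h2, h3, h4⟩ := h
    refine ⟨⟨?_, ?_⟩, ?_, ?_⟩ <;> linarith

theorem TH_rg160 : ROK [.q ⟨-115, -125, 240, 0⟩ ⟨-365, 125, 240, 0⟩, .q ⟨111, 129, -240, 0⟩ ⟨-369, 129, 240, 0⟩, .q ⟨365, -125, -240, 0⟩ ⟨14462, -9802, -727, -3933⟩, .q ⟨369, -129, -240, 0⟩ ⟨14462, -9802, -727, -3933⟩, .q ⟨365, -125, -240, 0⟩ ⟨-460, -96, -2537, 3093⟩, .q ⟨369, -129, -240, 0⟩ ⟨-460, -96, -2537, 3093⟩, .q ⟨365, -125, -240, 0⟩ ⟨1336, 547, 1726, -3609⟩, .q ⟨369, -129, -240, 0⟩ ⟨1336, 547, 1726, -3609⟩, .q ⟨365, -125, -240, 0⟩ ⟨-591, -412, -821, 1824⟩, .q ⟨369, -129, -240, 0⟩ ⟨-591, -412, -821, 1824⟩] := by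
  refine rok_bys (s := -1) (nlo := 125) (nhi := 129) (q := 240) (by decide) (by decide) (by decide) (by decide) (z := 3) (by decide) TH_sc (k := 1) (by decide) (Q := [(-727, 3933, 9802), (-2537, -3093, 96), (1726, 3609, -547), (-821, -1824, 412)])
    (P := [⟨-11520000, -240, 0⟩, ⟨11888640, 240, 0⟩, ⟨903352320, -727, 3933⟩, ⟨8847360, -2537, -3093⟩, ⟨-50411520, 1726, 3609⟩, ⟨37969920, -821, -1824⟩]) rfl rfl
    (List.mem_of_getElem? (i := 160) rfl) TH_fr TH_cov ?_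
  · intro X Y h
    simp only [List.forall_mem_cons, List.not_mem_nil, false_imp_iff, implies_true, and_true] at h
    push_cast at h ⊢
    obtain ⟨h0, h1, h2, h3, h4, h5⟩ := h
    refine ⟨⟨?_, ?_⟩, ?_, ?_⟩ <;> linarith

theorem TH_rg161 : ROK [.q ⟨-439, -521, 960, 0⟩ ⟨-1481, 521, 960, 0⟩, .q ⟨431, 529, -960, 0⟩ ⟨-1489, 529, 960, 0⟩, .q ⟨1481, -521, -960, 0⟩ ⟨14091, -10091, 0, -4000⟩, .q ⟨1489, -529, -960, 0⟩ ⟨14091, -10091, 0, -4000⟩, .q ⟨1481, -521, -960, 0⟩ ⟨11307, -12346, -2261, 3300⟩, .q ⟨1489, -529, -960, 0⟩ ⟨11307, -12346, -2261, 3300⟩, .q ⟨1481, -521, -960, 0⟩ ⟨2981, 2513, -2072, -3422⟩, .q ⟨1489, -529, -960, 0⟩ ⟨2981, 2513, -2072, -3422⟩, .q ⟨1481, -521, -960, 0⟩ ⟨-566, -211, -2413, 3190⟩, .q ⟨1489, -529, -960, 0⟩ ⟨-566, -211, -2413, 3190⟩] := by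
  refine rok_bys (s := -1) (nlo := 521) (nhi := 529) (q := 960) (by decide) (by decide) (by decide) (by decide) (z := 3) (by decide) TH_sc (k := 1) (by decide) (Q := [(0, 4000, 10091), (-2261, -3300, 12346), (-2072, 3422, -2513), (-2413, -3190, 211)])
    (P := [⟨-48015360, -960, 0⟩, ⟨48752640, 960, 0⟩, ⟨929986560, 0, 4000⟩, ⟨1137807360, -2261, -3300⟩, ⟨-231598080, -2072, 3422⟩, ⟨19445760, -2413, -3190⟩]) rfl rfl
    (List.mem_of_getElem? (i := 161) rfl) TH_fr TH_cov ?_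
  · intro X Y h
    simp only [List.forall_mem_cons, List.not_mem_nil, false_imp_iff, implies_true, and_true] at h
    push_cast at h ⊢
    obtain ⟨h0, h1, h2, h3, h4, h5⟩ := h
    refine ⟨⟨?_, ?_⟩, ?_, ?_⟩ <;> linarith

theorem TH_rg162 : ROK [.q ⟨-223, -257, 480, 0⟩ ⟨-737, 257, 480, 0⟩, .q ⟨218, 262, -480, 0⟩ ⟨-742, 262, 480, 0⟩, .q ⟨737, -257, -480, 0⟩ ⟨2911, 2317, -1533, -3695⟩, .q ⟨742, -262, -480, 0⟩ ⟨2911, 2317, -1533, -3695⟩, .q ⟨737, -257, -480, 0⟩ ⟨-299, 94, -2724, 2929⟩, .q ⟨742, -262, -480, 0⟩ ⟨-299, 94, -2724, 2929⟩] := by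
  refine rok_bys (s := -1) (nlo := 257) (nhi := 262) (q := 480) (by decide) (by decide) (by decide) (by decide) (z := 3) (by decide) TH_sc (k := 1) (by decide) (Q := [(-1533, 3695, -2317), (-2724, -2929, -94)])
    (P := [⟨-23685120, -480, 0⟩, ⟨24145920, 480, 0⟩, ⟨-213534720, -1533, 3695⟩, ⟨-8663040, -2724, -2929⟩]) rfl rfl
    (List.mem_of_getElem? (i := 162) rfl) TH_fr TH_cov ?_
  · intro X Y h
    simp only [List.forall_mem_cons, List.not_mem_nil, false_imp_iff, implies_true, and_true] at h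
    push_cast at h ⊢
    obtain ⟨h0, h1, h2, h3⟩ := h
    refine ⟨⟨?_, ?_⟩, ?_, ?_⟩ <;> linarith

theorem TH_rg163 : ROK [.q ⟨-115, -125, 240, 0⟩ ⟨-365, 125, 240, 0⟩, .q ⟨111, 129, -240, 0⟩ ⟨-369, 129, 240, 0⟩, .q ⟨365, -125, -240, 0⟩ ⟨13709, -9175, -575, -3959⟩, .q ⟨369, -129, -240, 0⟩ ⟨13709, -9175, -575, -3959⟩, .q ⟨365, -125, -240, 0⟩ ⟨-1933, -1625, -420, 3978⟩, .q ⟨369, -129, -240, 0⟩ ⟨-1933, -1625, -420, 3978⟩, .q ⟨365, -125, -240, 0⟩ ⟨1295, 509, 1779, -3583⟩, .q ⟨369, -129, -240, 0⟩ ⟨1295, 509, 1779, -3583⟩, .q ⟨365, -125, -240, 0⟩ ⟨-853, -487, -2078, 3418⟩, .q ⟨369, -129, -240, 0⟩ ⟨-853, -487, -2078, 3418⟩] := by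
  refine rok_bys (s := -1) (nlo := 125) (nhi := 129) (q := 240) (by decide) (by decide) (by decide) (by decide) (z := 3) (by decide) TH_sc (k := 1) (by decide) (Q := [(-575, 3959, 9175), (-420, -3978, 1625), (1779, 3583, -509), (-2078, -3418, 487)])
    (P := [⟨-11520000, -240, 0⟩, ⟨11888640, 240, 0⟩, ⟨845568000, -575, 3959⟩, ⟨149760000, -420, -3978⟩, ⟨-46909440, 1779, 3583⟩, ⟨44881920, -2078, -3418⟩]) rfl rfl
    (List.mem_of_getElem? (i := 163) rfl) TH_fr TH_cov ?_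
  · intro X Y h
    simp only [List.forall_mem_cons, List.not_mem_nil, false_imp_iff, implies_true, and_true] at h
    push_cast at h ⊢
    obtain ⟨h0, h1, h2, h3, h4, h5⟩ := h
    refine ⟨⟨?_, ?_⟩, ?_, ?_⟩ <;> linarith

theorem TH_rg164 : ROK [.q ⟨-57, -63, 120, 0⟩ ⟨-183, 63, 120, 0⟩, .q ⟨55, 65, -120, 0⟩ ⟨-185, 65, 120, 0⟩, .q ⟨183, -63, -120, 0⟩ ⟨14844, -9193, -2696, -2955⟩, .q ⟨185, -65, -120, 0⟩ ⟨14844, -9193, -2696, -2955⟩, .q ⟨183, -63, -120, 0⟩ ⟨-634, -258, -2347, 3239⟩, .q ⟨185, -65, -120, 0⟩ ⟨-634, -258, -2347, 3239⟩, .q ⟨183, -63, -120, 0⟩ ⟨2824, 2157, -1150, -3831⟩, .q ⟨185, -65, -120, 0⟩ ⟨2824, 2157, -1150, -3831⟩, .q ⟨183, -63, -120, 0⟩ ⟨-2024, -1739, -230, 3993⟩, .q ⟨185, -65, -120, 0⟩ ⟨-2024, -1739, -230, 3993⟩] := by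
  refine rok_bys (s := -1) (nlo := 63) (nhi := 65) (q := 120) (by decide) (by decide) (by decide) (by decide) (z := 3) (by decide) TH_sc (k := 1) (by decide) (Q := [(-2696, 2955, 9193), (-2347, -3239, 258), (-1150, 3831, -2157), (-230, -3993, 1739)])
    (P := [⟨-5806080, -120, 0⟩, ⟨5990400, 120, 0⟩, ⟨847226880, -2696, 2955⟩, ⟨23777280, -2347, -3239⟩, ⟨-198789120, -1150, 3831⟩, ⟨160266240, -230, -3993⟩]) rfl rfl
    (List.mem_of_getElem? (i := 164) rfl) TH_fr TH_cov ?_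
  · intro X Y h
    simp only [List.forall_mem_cons, List.not_mem_nil, false_imp_iff, implies_true, and_true] at h
    push_cast at h ⊢
    obtain ⟨h0, h1, h2, h3, h4, h5⟩ := h
    refine ⟨⟨?_, ?_⟩, ?_, ?_⟩ <;> linarith

theorem TH_rg165 : ROK [.q ⟨-455, -505, 960, 0⟩ ⟨-1465, 505, 960, 0⟩, .q ⟨443, 517, -960, 0⟩ ⟨-1477, 517, 960, 0⟩, .q ⟨1465, -505, -960, 0⟩ ⟨769, 12, 2411, -3192⟩, .q ⟨1477, -517, -960, 0⟩ ⟨769, 12, 2411, -3192⟩, .q ⟨1465, -505, -960, 0⟩ ⟨-575, -206, -2411, 3192⟩, .q ⟨1477, -517, -960, 0⟩ ⟨-575, -206, -2411, 3192⟩, .q ⟨1465, -505, -960, 0⟩ ⟨-1453, -1109, -1241, 3803⟩, .q ⟨1477, -517, -960, 0⟩ ⟨-1453, -1109, -1241, 3803⟩] := by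
  refine rok_bys (s := -1) (nlo := 505) (nhi := 517) (q := 960) (by decide) (by decide) (by decide) (by decide) (z := 3) (by decide) TH_sc (k := 1) (by decide) (Q := [(2411, 3192, -12), (-2411, -3192, 206), (-1241, -3803, 1109)])
    (P := [⟨-46540800, -960, 0⟩, ⟨47646720, 960, 0⟩, ⟨-1105920, 2411, 3192⟩, ⟨18984960, -2411, -3192⟩, ⟨102205440, -1241, -3803⟩]) rfl rfl
    (List.mem_of_getElem? (i := 165) rfl) TH_fr TH_cov ?_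
  · intro X Y h
    simp only [List.forall_mem_cons, List.not_mem_nil, false_imp_iff, implies_true, and_true] at h
    push_cast at h ⊢
    obtain ⟨h0, h1, h2, h3, h4⟩ := h
    refine ⟨⟨?_, ?_⟩, ?_, ?_⟩ <;> linarith

theorem TH_rg166 : ROK [.q ⟨-38, -42, 80, 0⟩ ⟨-122, 42, 80, 0⟩, .q ⟨35, 45, -80, 0⟩ ⟨-125, 45, 80, 0⟩, .q ⟨122, -42, -80, 0⟩ ⟨13502, -10840, 1165, -3827⟩, .q ⟨125, -45, -80, 0⟩ ⟨13502, -10840, 1165, -3827⟩, .q ⟨122, -42, -80, 0⟩ ⟨-1497, -1165, -1165, 3827⟩, .q ⟨125, -45, -80, 0⟩ ⟨-1497, -1165, -1165, 3827⟩, .q ⟨122, -42, -80, 0⟩ ⟨680, -59, 2501, -3122⟩, .q ⟨125, -45, -80, 0⟩ ⟨680, -59, 2501, -3122⟩, .q ⟨122, -42, -80, 0⟩ ⟨-818, -443, -2127, 3388⟩, .q ⟨125, -45, -80, 0⟩ ⟨-818, -443, -2127, 3388⟩] := by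
  refine rok_bys (s := -1) (nlo := 42) (nhi := 45) (q := 80) (by decide) (by decide) (by decide) (by decide) (z := 3) (by decide) TH_sc (k := 1) (by decide) (Q := [(1165, 3827, 10840), (-1165, -3827, 1165), (2501, 3122, 59), (-2127, -3388, 443)])
    (P := [⟨-3870720, -80, 0⟩, ⟨4147200, 80, 0⟩, ⟨999014400, 1165, 3827⟩, ⟨107366400, -1165, -3827⟩, ⟨5437440, 2501, 3122⟩, ⟨40826880, -2127, -3388⟩]) rfl rfl
    (List.mem_of_getElem? (i := 166) rfl) TH_fr TH_cov ?_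
  · intro X Y h
    simp only [List.forall_mem_cons, List.not_mem_nil, false_imp_iff, implies_true, and_true] at h
    push_cast at h ⊢
    obtain ⟨h0, h1, h2, h3, h4, h5⟩ := h
    refine ⟨⟨?_, ?_⟩, ?_, ?_⟩ <;> linarith

theorem TH_rg167 : ROK [.q ⟨-109, -131, 240, 0⟩ ⟨-371, 131, 240, 0⟩, .q ⟨107, 133, -240, 0⟩ ⟨-373, 133, 240, 0⟩, .q ⟨371, -131, -240, 0⟩ ⟨2646, 2711, -1769, -3588⟩, .q ⟨373, -133, -240, 0⟩ ⟨2646, 2711, -1769, -3588⟩, .q ⟨371, -131, -240, 0⟩ ⟨8176, -13533, 1769, 3588⟩, .q ⟨373, -133, -240, 0⟩ ⟨8176, -13533, 1769, 3588⟩, .q ⟨371, -131, -240, 0⟩ ⟨1865, 1706, 408, -3979⟩, .q ⟨373, -133, -240, 0⟩ ⟨1865, 1706, 408, -3979⟩, .q ⟨371, -131, -240, 0⟩ ⟨-2451, -2956, 3536, 1871⟩, .q ⟨373, -133, -240, 0⟩ ⟨-2451, -2956, 3536, 1871⟩] := by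
  refine rok_bys (s := -1) (nlo := 131) (nhi := 133) (q := 240) (by decide) (by decide) (by decide) (by decide) (z := 3) (by decide) TH_sc (k := 1) (by decide) (Q := [(-1769, 3588, -2711), (1769, -3588, 13533), (408, 3979, -1706), (3536, -1871, 2956)])
    (P := [⟨-12072960, -240, 0⟩, ⟨12257280, 240, 0⟩, ⟨-249845760, -1769, 3588⟩, ⟨1247201280, 1769, -3588⟩, ⟨-157224960, 408, 3979⟩, ⟨272424960, 3536, -1871⟩]) rfl rfl
    (List.mem_of_getElem? (i := 167) rfl) TH_fr TH_cov ?_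
  · intro X Y h
    simp only [List.forall_mem_cons, List.not_mem_nil, false_imp_iff, implies_true, and_true] at h
    push_cast at h ⊢
    obtain ⟨h0, h1, h2, h3, h4, h5⟩ := h
    refine ⟨⟨?_, ?_⟩, ?_, ?_⟩ <;> linarith

end Pool.Agent.TET
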