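import Pool.Agent.Helper38_TET.TH_C

/-!
# MP_c7c9bf_co: certificates, family TH
-/

set_option autoImplicit false
set_option maxRecDepth 100000

namespace Pool.Agent.TET

theorem TH_rg168 : ROK [.q ⟨-445, -515, 960, 0⟩ ⟨-1475, 515, 960, 0⟩, .q ⟨438, 522, -960, 0⟩ ⟨-1482, 522, 960, 0⟩, .q ⟨1475, -515, -960, 0⟩ ⟨14632, -9461, -1439, -3732⟩, .q ⟨1482, -522, -960, 0⟩ ⟨14632, -9461, -1439, -3732⟩, .q ⟨1475, -515, -960, 0⟩ ⟨-2760, -2815, 2309, 3266⟩, .q ⟨1482, -522, -960, 0⟩ ⟨-2760, -2815, 2309, 3266⟩, .q ⟨1475, -515, -960, 0⟩ ⟨2608, 2781, -3555, -1834⟩, .q ⟨1482, -522, -960, 0⟩ ⟨2608, 2781, -3555, -1834⟩, .q ⟨1475, -515, -960, 0⟩ ⟨-117, 69, -1390, 1438⟩, .q ⟨1482, -522, -960, 0⟩ ⟨-117, 69, -1390, 1438⟩] := by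
  refine rok_bys (s := -1) (nlo := 515) (nhi := 522) (q := 960) (by decide) (by decide) (by decide) (by decide) (z := 3) (by decide) TH_sc (k := 1) (by decide) (Q := [(-1439, 3732, 9461), (2309, -3266, 2815), (-3555, 1834, -2781), (-1390, -1438, -69)])
    (P := [⟨-47462400, -960, 0⟩, ⟨48107520, 960, 0⟩, ⟨871925760, -1439, 3732⟩, ⟨259430400, 2309, -3266⟩, ⟨-256296960, -3555, 1834⟩, ⟨-6359040, -1390, -1438⟩]) rfl rfl
    (List.mem_of_getElem? (i := 168) rfl) TH_fr TH_cov ?_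
  · intro X Y h
    simp only [List.forall_mem_cons, List.not_mem_nil, false_imp_iff, implies_true, and_true] at h
    push_cast at h ⊢
    obtain ⟨h0, h1, h2, h3, h4, h5⟩ := h
    refine ⟨⟨?_, ?_⟩, ?_, ?_⟩ <;> linarith

theorem TH_rg169 : ROK [.q ⟨-447, -513, 960, 0⟩ ⟨-1473, 513, 960, 0⟩, .q ⟨439, 521, -960, 0⟩ ⟨-1481, 521, 960, 0⟩, .q ⟨1473, -513, -960, 0⟩ ⟨12478, -6988, -2063, -3427⟩, .q ⟨1481, -521, -960, 0⟩ ⟨12478, -6988, -2063, -3427⟩, .q ⟨1473, -513, -960, 0⟩ ⟨-1646, -1328, -919, 3893⟩, .q ⟨1481, -521, -960, 0⟩ ⟨-1646, -1328, -919, 3893⟩, .q ⟨1473, -513, -960, 0⟩ ⟨343, -402, 2858, -2799⟩, .q ⟨1481, -521, -960, 0⟩ ⟨343, -402, 2858, -2799⟩, .q ⟨1473, -513, -960, 0⟩ ⟨-662, -282, -2317, 3261⟩, .q ⟨1481, -521, -960, 0⟩ ⟨-662, -282, -2317, 3261⟩] := by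
  refine rok_bys (s := -1) (nlo := 513) (nhi := 521) (q := 960) (by decide) (by decide) (by decide) (by decide) (z := 3) (by decide) TH_sc (k := 1) (by decide) (Q := [(-2063, 3427, 6988), (-919, -3893, 1328), (2858, 2799, 402), (-2317, -3261, 282)])
    (P := [⟨-47278080, -960, 0⟩, ⟨48015360, 960, 0⟩, ⟨644014080, -2063, 3427⟩, ⟨122388480, -919, -3893⟩, ⟨37048320, 2858, 2799⟩, ⟨25989120, -2317, -3261⟩]) rfl rfl
    (List.mem_of_getElem? (i := 169) rfl) TH_fr TH_cov ?_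
  · intro X Y h
    simp only [List.forall_mem_cons, List.not_mem_nil, false_imp_iff, implies_true, and_true] at h
    push_cast at h ⊢
    obtain ⟨h0, h1, h2, h3, h4, h5⟩ := h
    refine ⟨⟨?_, ?_⟩, ?_, ?_⟩ <;> linarith

theorem TH_rg170 : ROK [.q ⟨-227, -253, 480, 0⟩ ⟨-733, 253, 480, 0⟩, .q ⟨219, 261, -480, 0⟩ ⟨-741, 261, 480, 0⟩, .q ⟨733, -253, -480, 0⟩ ⟨2399, 1601, 0, -4000⟩, .q ⟨741, -261, -480, 0⟩ ⟨2399, 1601, 0, -4000⟩, .q ⟨733, -253, -480, 0⟩ ⟨-2430, -2221, 716, 3935⟩, .q ⟨741, -261, -480, 0⟩ ⟨-2430, -2221, 716, 3935⟩, .q ⟨733, -253, -480, 0⟩ ⟨-252, -127, -734, 1113⟩, .q ⟨741, -261, -480, 0⟩ ⟨-252, -127, -734, 1113⟩] := by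
  refine rok_bys (s := -1) (nlo := 253) (nhi := 261) (q := 480) (by decide) (by decide) (by decide) (by decide) (z := 3) (by decide) TH_sc (k := 1) (by decide) (Q := [(0, 4000, -1601), (716, -3935, 2221), (-734, -1113, 127)])
    (P := [⟨-23316480, -480, 0⟩, ⟨24053760, 480, 0⟩, ⟨-147548160, 0, 4000⟩, ⟨204687360, 716, -3935⟩, ⟨11704320, -734, -1113⟩]) rfl rfl
    (List.mem_of_getElem? (i := 170) rfl) TH_fr TH_cov ?_
  · intro X Y h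
    simp only [List.forall_mem_cons, List.not_mem_nil, false_imp_iff, implies_true, and_true] at h
    push_cast at h ⊢
    obtain ⟨h0, h1, h2, h3, h4⟩ := h
    refine ⟨⟨?_, ?_⟩, ?_, ?_⟩ <;> linarith

theorem TH_rg171 : ROK [.q ⟨-74, -86, 160, 0⟩ ⟨-246, 86, 160, 0⟩, .q ⟨73, 87, -160, 0⟩ ⟨-247, 87, 160, 0⟩, .q ⟨246, -86, -160, 0⟩ ⟨12475, -11900, 2526, -3101⟩, .q ⟨247, -87, -160, 0⟩ ⟨12475, -11900, 2526, -3101⟩, .q ⟨246, -86, -160, 0⟩ ⟨7211, -12624, 1885, 3528⟩, .q ⟨247, -87, -160, 0⟩ ⟨7211, -12624, 1885, 3528⟩, .q ⟨246, -86, -160, 0⟩ ⟨2705, 2841, -3331, -2215⟩, .q ⟨247, -87, -160, 0⟩ ⟨2705, 2841, -3331, -2215⟩, .q ⟨246, -86, -160, 0⟩ ⟨-429, -64, -2571, 3064⟩, .q ⟨247, -87, -160, 0⟩ ⟨-429, -64, -2571, 3064⟩] := by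
  refine rok_bys (s := -1) (nlo := 86) (nhi := 87) (q := 160) (by decide) (by decide) (by decide) (by decide) (z := 3) (by decide) TH_sc (k := 1) (by decide) (Q := [(2526, 3101, 11900), (1885, -3528, 12624), (-3331, 2215, -2841), (-2571, -3064, 64)])
    (P := [⟨-7925760, -160, 0⟩, ⟨8017920, 160, 0⟩, ⟨1096704000, 2526, 3101⟩, ⟨1163427840, 1885, -3528⟩, ⟨-261826560, -3331, 2215⟩, ⟨5898240, -2571, -3064⟩]) rfl rfl
    (List.mem_of_getElem? (i := 171) rfl) TH_fr TH_cov ?_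
  · intro X Y h
    simp only [List.forall_mem_cons, List.not_mem_nil, false_imp_iff, implies_true, and_true] at h
    push_cast at h ⊢
    obtain ⟨h0, h1, h2, h3, h4, h5⟩ := h
    refine ⟨⟨?_, ?_⟩, ?_, ?_⟩ <;> linarith

theorem TH_rg172 : ROK [.q ⟨-20, -20, 40, 0⟩ ⟨-60, 20, 40, 0⟩, .q ⟨17, 23, -40, 0⟩ ⟨-63, 23, 40, 0⟩, .q ⟨60, -20, -40, 0⟩ ⟨399, 77, 1156, -1632⟩, .q ⟨63, -23, -40, 0⟩ ⟨399, 77, 1156, -1632⟩, .q ⟨60, -20, -40, 0⟩ ⟨-163, -75, -578, 816⟩, .q ⟨63, -23, -40, 0⟩ ⟨-163, -75, -578, 816⟩, .q ⟨60, -20, -40, 0⟩ ⟨-1266, -907, -1525, 3698⟩, .q ⟨63, -23, -40, 0⟩ ⟨-1266, -907, -1525, 3698⟩] := by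
  refine rok_bys (s := -1) (nlo := 20) (nhi := 23) (q := 40) (by decide) (by decide) (by decide) (by decide) (z := 3) (by decide) TH_sc (k := 1) (by decide) (Q := [(1156, 1632, -77), (-578, -816, 75), (-1525, -3698, 907)])
    (P := [⟨-1843200, -40, 0⟩, ⟨2119680, 40, 0⟩, ⟨-7096320, 1156, 1632⟩, ⟨6912000, -578, -816⟩, ⟨83589120, -1525, -3698⟩]) rfl rfl
    (List.mem_of_getElem? (i := 172) rfl) TH_fr TH_cov ?_
  · intro X Y h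
    simp only [List.forall_mem_cons, List.not_mem_nil, false_imp_iff, implies_true, and_true] at h
    push_cast at h ⊢
    obtain ⟨h0, h1, h2, h3, h4⟩ := h
    refine ⟨⟨?_, ?_⟩, ?_, ?_⟩ <;> linarith

theorem TH_rg173 : ROK [.q ⟨-436, -524, 960, 0⟩ ⟨-1484, 524, 960, 0⟩, .q ⟨425, 535, -960, 0⟩ ⟨-1495, 535, 960, 0⟩, .q ⟨1484, -524, -960, 0⟩ ⟨2114, 2007, -123, -3998⟩, .q ⟨1495, -535, -960, 0⟩ ⟨2114, 2007, -123, -3998⟩, .q ⟨1484, -524, -960, 0⟩ ⟨-1723, -2101, -172, 3996⟩, .q ⟨1495, -535, -960, 0⟩ ⟨-1723, -2101, -172, 3996⟩] := by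
  refine rok_bys (s := -1) (nlo := 524) (nhi := 535) (q := 960) (by decide) (by decide) (by decide) (by decide) (z := 3) (by decide) TH_sc (k := 1) (by decide) (Q := [(-123, 3998, -2007), (-172, -3996, 2101)])
    (P := [⟨-48291840, -960, 0⟩, ⟨49305600, 960, 0⟩, ⟨-184965120, -123, 3998⟩, ⟨193628160, -172, -3996⟩]) rfl rfl
    (List.mem_of_getElem? (i := 173) rfl) TH_fr TH_cov ?_
  · intro X Y h
    simp only [List.forall_mem_cons, List.not_mem_nil, false_imp_iff, implies_true, and_true] at h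
    push_cast at h ⊢
    obtain ⟨h0, h1, h2, h3⟩ := h
    refine ⟨⟨?_, ?_⟩, ?_, ?_⟩ <;> linarith

theorem TH_rg174 : ROK [.q ⟨-455, -505, 960, 0⟩ ⟨-1465, 505, 960, 0⟩, .q ⟨444, 516, -960, 0⟩ ⟨-1476, 516, 960, 0⟩, .q ⟨1465, -505, -960, 0⟩ ⟨14157, -10157, 0, -4000⟩, .q ⟨1476, -516, -960, 0⟩ ⟨14157, -10157, 0, -4000⟩, .q ⟨1465, -505, -960, 0⟩ ⟨-933, -564, -1979, 3476⟩, .q ⟨1476, -516, -960, 0⟩ ⟨-933, -564, -1979, 3476⟩, .q ⟨1465, -505, -960, 0⟩ ⟨911, 139, 2254, -3304⟩, .q ⟨1476, -516, -960, 0⟩ ⟨911, 139, 2254, -3304⟩, .q ⟨1465, -505, -960, 0⟩ ⟨-1408, -1420, 1395, 1433⟩, .q ⟨1476, -516, -960, 0⟩ ⟨-1408, -1420, 1395, 1433⟩] := by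
  refine rok_bys (s := -1) (nlo := 505) (nhi := 516) (q := 960) (by decide) (by decide) (by decide) (by decide) (z := 3) (by decide) TH_sc (k := 1) (by decide) (Q := [(0, 4000, 10157), (-1979, -3476, 564), (2254, 3304, -139), (1395, -1433, 1420)])
    (P := [⟨-46540800, -960, 0⟩, ⟨47554560, 960, 0⟩, ⟨936069120, 0, 4000⟩, ⟨51978240, -1979, -3476⟩, ⟨-12810240, 2254, 3304⟩, ⟨130867200, 1395, -1433⟩]) rfl rfl
    (List.mem_of_getElem? (i := 174) rfl) TH_fr TH_cov ?_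
  · intro X Y h
    simp only [List.forall_mem_cons, List.not_mem_nil, false_imp_iff, implies_true, and_true] at h
    push_cast at h ⊢
    obtain ⟨h0, h1, h2, h3, h4, h5⟩ := h
    refine ⟨⟨?_, ?_⟩, ?_, ?_⟩ <;> linarith

theorem TH_rg175 : ROK [.q ⟨-124, -116, 240, 0⟩ ⟨-356, 116, 240, 0⟩, .q ⟨121, 119, -240, 0⟩ ⟨-359, 119, 240, 0⟩, .q ⟨356, -116, -240, 0⟩ ⟨13857, -9857, 0, -4000⟩, .q ⟨359, -119, -240, 0⟩ ⟨13857, -9857, 0, -4000⟩, .q ⟨356, -116, -240, 0⟩ ⟨-1801, -2199, 0, 4000⟩, .q ⟨359, -119, -240, 0⟩ ⟨-1801, -2199, 0, 4000⟩, .q ⟨356, -116, -240, 0⟩ ⟨2750, 2800, -3321, -2229⟩, .q ⟨359, -119, -240, 0⟩ ⟨2750, 2800, -3321, -2229⟩] := by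
  refine rok_bys (s := -1) (nlo := 116) (nhi := 119) (q := 240) (by decide) (by decide) (by decide) (by decide) (z := 3) (by decide) TH_sc (k := 1) (by decide) (Q := [(0, 4000, 9857), (0, -4000, 2199), (-3321, 2229, -2800)])
    (P := [⟨-10690560, -240, 0⟩, ⟨10967040, 240, 0⟩, ⟨908421120, 0, 4000⟩, ⟨202659840, 0, -4000⟩, ⟨-258048000, -3321, 2229⟩]) rfl rfl
    (List.mem_of_getElem? (i := 175) rfl) TH_fr TH_cov ?_
  · intro X Y h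
    simp only [List.forall_mem_cons, List.not_mem_nil, false_imp_iff, implies_true, and_true] at h
    push_cast at h ⊢
    obtain ⟨h0, h1, h2, h3, h4⟩ := h
    refine ⟨⟨?_, ?_⟩, ?_, ?_⟩ <;> linarith

theorem TH_rg176 : ROK [.q ⟨-448, -512, 960, 0⟩ ⟨-1472, 512, 960, 0⟩, .q ⟨439, 521, -960, 0⟩ ⟨-1481, 521, 960, 0⟩, .q ⟨1472, -512, -960, 0⟩ ⟨2166, 1343, 464, -3973⟩, .q ⟨1481, -521, -960, 0⟩ ⟨2166, 1343, 464, -3973⟩, .q ⟨1472, -512, -960, 0⟩ ⟨-1385, -1042, -1341, 3768⟩, .q ⟨1481, -521, -960, 0⟩ ⟨-1385, -1042, -1341, 3768⟩, .q ⟨1472, -512, -960, 0⟩ ⟨-469, -87, -2537, 3093⟩, .q ⟨1481, -521, -960, 0⟩ ⟨-469, -87, -2537, 3093⟩] := by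
  refine rok_bys (s := -1) (nlo := 512) (nhi := 521) (q := 960) (by decide) (by decide) (by decide) (by decide) (z := 3) (by decide) TH_sc (k := 1) (by decide) (Q := [(464, 3973, -1343), (-1341, -3768, 1042), (-2537, -3093, 87)])
    (P := [⟨-47185920, -960, 0⟩, ⟨48015360, 960, 0⟩, ⟨-123770880, 464, 3973⟩, ⟨96030720, -1341, -3768⟩, ⟨8017920, -2537, -3093⟩]) rfl rfl
    (List.mem_of_getElem? (i := 176) rfl) TH_fr TH_cov ?_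
  · intro X Y h
    simp only [List.forall_mem_cons, List.not_mem_nil, false_imp_iff, implies_true, and_true] at h
    push_cast at h ⊢
    obtain ⟨h0, h1, h2, h3, h4⟩ := h
    refine ⟨⟨?_, ?_⟩, ?_, ?_⟩ <;> linarith

theorem TH_rg177 : ROK [.q ⟨-37, -43, 80, 0⟩ ⟨-123, 43, 80, 0⟩, .q ⟨33, 47, -80, 0⟩ ⟨-127, 47, 80, 0⟩, .q ⟨123, -43, -80, 0⟩ ⟨2719, 2859, -2318, -3260⟩, .q ⟨127, -47, -80, 0⟩ ⟨2719, 2859, -2318, -3260⟩, .q ⟨123, -43, -80, 0⟩ ⟨-1236, -1405, -1181, 3822⟩, .q ⟨127, -47, -80, 0⟩ ⟨-1236, -1405, -1181, 3822⟩] := by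
  refine rok_bys (s := -1) (nlo := 43) (nhi := 47) (q := 80) (by decide) (by decide) (by decide) (by decide) (z := 3) (by decide) TH_sc (k := 1) (by decide) (Q := [(-2318, 3260, -2859), (-1181, -3822, 1405)])
    (P := [⟨-3962880, -80, 0⟩, ⟨4331520, 80, 0⟩, ⟨-263485440, -2318, 3260⟩, ⟨129484800, -1181, -3822⟩]) rfl rfl
    (List.mem_of_getElem? (i := 177) rfl) TH_fr TH_cov ?_
  · intro X Y h
    simp only [List.forall_mem_cons, List.not_mem_nil, false_imp_iff, implies_true, and_true] at h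
    push_cast at h ⊢
    obtain ⟨h0, h1, h2, h3⟩ := h
    refine ⟨⟨?_, ?_⟩, ?_, ?_⟩ <;> linarith

theorem TH_rg178 : ROK [.q ⟨-56, -64, 120, 0⟩ ⟨-184, 64, 120, 0⟩, .q ⟨55, 65, -120, 0⟩ ⟨-185, 65, 120, 0⟩, .q ⟨184, -64, -120, 0⟩ ⟨3016, 2557, -2300, -3273⟩, .q ⟨185, -65, -120, 0⟩ ⟨3016, 2557, -2300, -3273⟩, .q ⟨184, -64, -120, 0⟩ ⟨-349, 43, -2671, 2977⟩, .q ⟨185, -65, -120, 0⟩ ⟨-349, 43, -2671, 2977⟩] := by
  refine rok_bys (s := -1) (nlo := 64) (nhi := 65) (q := 120) (by decide) (by decide) (by decide) (by decide) (z := 3) (by decide) TH_sc (k := 1) (by decide) (Q := [(-2300, 3273, -2557), (-2671, -2977, -43)])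
    (P := [⟨-5898240, -120, 0⟩, ⟨5990400, 120, 0⟩, ⟨-235653120, -2300, 3273⟩, ⟨-3962880, -2671, -2977⟩]) rfl rfl
    (List.mem_of_getElem? (i := 178) rfl) TH_fr TH_cov ?_
  · intro X Y h
    simp only [List.forall_mem_cons, List.not_mem_nil, false_imp_iff, implies_true, and_true] at h
    push_cast at h ⊢
    obtain ⟨h0, h1, h2, h3⟩ := h
    refine ⟨⟨?_, ?_⟩, ?_, ?_⟩ <;> linarith

theorem TH_rg179 : ROK [.q ⟨-115, -125, 240, 0⟩ ⟨-365, 125, 240, 0⟩, .q ⟨111, 129, -240, 0⟩ ⟨-369, 129, 240, 0⟩, .q ⟨365, -125, -240, 0⟩ ⟨3011, 2501, -2121, -3391⟩, .q ⟨369, -129, -240, 0⟩ ⟨3011, 2501, -2121, -3391⟩, .q ⟨365, -125, -240, 0⟩ ⟨-1164, -805, -1667, 3636⟩, .q ⟨369, -129, -240, 0⟩ ⟨-1164, -805, -1667, 3636⟩] := by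
  refine rok_bys (s := -1) (nlo := 125) (nhi := 129) (q := 240) (by decide) (by decide) (by decide) (by decide) (z := 3) (by decide) TH_sc (k := 1) (by decide) (Q := [(-2121, 3391, -2501), (-1667, -3636, 805)])
    (P := [⟨-11520000, -240, 0⟩, ⟨11888640, 240, 0⟩, ⟨-230492160, -2121, 3391⟩, ⟨74188800, -1667, -3636⟩]) rfl rfl
    (List.mem_of_getElem? (i := 179) rfl) TH_fr TH_cov ?_
  · intro X Y h
    simp only [List.forall_mem_cons, List.not_mem_nil, false_imp_iff, implies_true, and_true] at h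
    push_cast at h ⊢
    obtain ⟨h0, h1, h2, h3⟩ := h
    refine ⟨⟨?_, ?_⟩, ?_, ?_⟩ <;> linarith

theorem TH_rg180 : ROK [.q ⟨-232, -248, 480, 0⟩ ⟨-728, 248, 480, 0⟩, .q ⟨223, 257, -480, 0⟩ ⟨-737, 257, 480, 0⟩, .q ⟨728, -248, -480, 0⟩ ⟨2399, 1601, 0, -4000⟩, .q ⟨737, -257, -480, 0⟩ ⟨2399, 1601, 0, -4000⟩, .q ⟨728, -248, -480, 0⟩ ⟨-1069, -931, 0, 2000⟩, .q ⟨737, -257, -480, 0⟩ ⟨-1069, -931, 0, 2000⟩, .q ⟨728, -248, -480, 0⟩ ⟨-1076, -715, -1787, 3578⟩, .q ⟨737, -257, -480, 0⟩ ⟨-1076, -715, -1787, 3578⟩] := by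
  refine rok_bys (s := -1) (nlo := 248) (nhi := 257) (q := 480) (by decide) (by decide) (by decide) (by decide) (z := 3) (by decide) TH_sc (k := 1) (by decide) (Q := [(0, 4000, -1601), (0, -2000, 931), (-1787, -3578, 715)])
    (P := [⟨-22855680, -480, 0⟩, ⟨23685120, 480, 0⟩, ⟨-147548160, 0, 4000⟩, ⟨85800960, 0, -2000⟩, ⟨65894400, -1787, -3578⟩]) rfl rfl
    (List.mem_of_getElem? (i := 180) rfl) TH_fr TH_cov ?_
  · intro X Y h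
    simp only [List.forall_mem_cons, List.not_mem_nil, false_imp_iff, implies_true, and_true] at h
    push_cast at h ⊢
    obtain ⟨h0, h1, h2, h3, h4⟩ := h
    refine ⟨⟨?_, ?_⟩, ?_, ?_⟩ <;> linarith

theorem TH_rg181 : ROK [.q ⟨-491, -469, 960, 0⟩ ⟨-1429, 469, 960, 0⟩, .q ⟨485, 475, -960, 0⟩ ⟨-1435, 475, 960, 0⟩, .q ⟨1429, -469, -960, 0⟩ ⟨87, -62, 0, -25⟩, .q ⟨1435, -475, -960, 0⟩ ⟨87, -62, 0, -25⟩, .q ⟨1429, -469, -960, 0⟩ ⟨-2423, -2757, 1454, 3726⟩, .q ⟨1435, -475, -960, 0⟩ ⟨-2423, -2757, 1454, 3726⟩, .q ⟨1429, -469, -960, 0⟩ ⟨2741, 2759, -3412, -2088⟩, .q ⟨1435, -475, -960, 0⟩ ⟨2741, 2759, -3412, -2088⟩] := by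
  refine rok_bys (s := -1) (nlo := 469) (nhi := 475) (q := 960) (by decide) (by decide) (by decide) (by decide) (z := 3) (by decide) TH_sc (k := 1) (by decide) (Q := [(0, 25, 62), (1454, -3726, 2757), (-3412, 2088, -2759)])
    (P := [⟨-43223040, -960, 0⟩, ⟨43776000, 960, 0⟩, ⟨5713920, 0, 25⟩, ⟨254085120, 1454, -3726⟩, ⟨-254269440, -3412, 2088⟩]) rfl rfl
    (List.mem_of_getElem? (i := 181) rfl) TH_fr TH_cov ?_
  · intro X Y h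
    simp only [List.forall_mem_cons, List.not_mem_nil, false_imp_iff, implies_true, and_true] at h
    push_cast at h ⊢
    obtain ⟨h0, h1, h2, h3, h4⟩ := h
    refine ⟨⟨?_, ?_⟩, ?_, ?_⟩ <;> linarith

theorem TH_rg182 : ROK [.q ⟨-116, -124, 240, 0⟩ ⟨-364, 124, 240, 0⟩, .q ⟨111, 129, -240, 0⟩ ⟨-369, 129, 240, 0⟩, .q ⟨364, -124, -240, 0⟩ ⟨1721, 921, 1180, -3822⟩, .q ⟨369, -129, -240, 0⟩ ⟨1721, 921, 1180, -3822⟩, .q ⟨364, -124, -240, 0⟩ ⟨-1497, -1145, -1180, 3822⟩, .q ⟨369, -129, -240, 0⟩ ⟨-1497, -1145, -1180, 3822⟩, .q ⟨364, -124, -240, 0⟩ ⟨-409, -230, -1058, 1697⟩, .q ⟨369, -129, -240, 0⟩ ⟨-409, -230, -1058, 1697⟩] := by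
  refine rok_bys (s := -1) (nlo := 124) (nhi := 129) (q := 240) (by decide) (by decide) (by decide) (by decide) (z := 3) (by decide) TH_sc (k := 1) (by decide) (Q := [(1180, 3822, -921), (-1180, -3822, 1145), (-1058, -1697, 230)])
    (P := [⟨-11427840, -240, 0⟩, ⟨11888640, 240, 0⟩, ⟨-84879360, 1180, 3822⟩, ⟨105523200, -1180, -3822⟩, ⟨21196800, -1058, -1697⟩]) rfl rfl
    (List.mem_of_getElem? (i := 182) rfl) TH_fr TH_cov ?_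
  · intro X Y h
    simp only [List.forall_mem_cons, List.not_mem_nil, false_imp_iff, implies_true, and_true] at h
    push_cast at h ⊢
    obtain ⟨h0, h1, h2, h3, h4⟩ := h
    refine ⟨⟨?_, ?_⟩, ?_, ?_⟩ <;> linarith

theorem TH_rg183 : ROK [.q ⟨-446, -514, 960, 0⟩ ⟨-1474, 514, 960, 0⟩, .q ⟨437, 523, -960, 0⟩ ⟨-1483, 523, 960, 0⟩, .q ⟨1474, -514, -960, 0⟩ ⟨2651, -1851, 0, -800⟩, .q ⟨1483, -523, -960, 0⟩ ⟨2651, -1851, 0, -800⟩, .q ⟨1474, -514, -960, 0⟩ ⟨-1189, -833, -1631, 3653⟩, .q ⟨1483, -523, -960, 0⟩ ⟨-1189, -833, -1631, 3653⟩, .q ⟨1474, -514, -960, 0⟩ ⟨2581, 1826, -430, -3977⟩, .q ⟨1483, -523, -960, 0⟩ ⟨2581, 1826, -430, -3977⟩] := by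
  refine rok_bys (s := -1) (nlo := 514) (nhi := 523) (q := 960) (by decide) (by decide) (by decide) (by decide) (z := 3) (by decide) TH_sc (k := 1) (by decide) (Q := [(0, 800, 1851), (-1631, -3653, 833), (-430, 3977, -1826)])
    (P := [⟨-47370240, -960, 0⟩, ⟨48199680, 960, 0⟩, ⟨170588160, 0, 800⟩, ⟨76769280, -1631, -3653⟩, ⟨-168284160, -430, 3977⟩]) rfl rfl
    (List.mem_of_getElem? (i := 183) rfl) TH_fr TH_cov ?_
  · intro X Y h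
    simp only [List.forall_mem_cons, List.not_mem_nil, false_imp_iff, implies_true, and_true] at h
    push_cast at h ⊢
    obtain ⟨h0, h1, h2, h3, h4⟩ := h
    refine ⟨⟨?_, ?_⟩, ?_, ?_⟩ <;> linarith

theorem TH_rg184 : ROK [.q ⟨-55, -65, 120, 0⟩ ⟨-185, 65, 120, 0⟩, .q ⟨53, 67, -120, 0⟩ ⟨-187, 67, 120, 0⟩, .q ⟨185, -65, -120, 0⟩ ⟨2399, 1601, 0, -4000⟩, .q ⟨187, -67, -120, 0⟩ ⟨2399, 1601, 0, -4000⟩, .q ⟨185, -65, -120, 0⟩ ⟨-273, -95, -1218, 1586⟩, .q ⟨187, -67, -120, 0⟩ ⟨-273, -95, -1218, 1586⟩] := by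
  refine rok_bys (s := -1) (nlo := 65) (nhi := 67) (q := 120) (by decide) (by decide) (by decide) (by decide) (z := 3) (by decide) TH_sc (k := 1) (by decide) (Q := [(0, 4000, -1601), (-1218, -1586, 95)])
    (P := [⟨-5990400, -120, 0⟩, ⟨6174720, 120, 0⟩, ⟨-147548160, 0, 4000⟩, ⟨8755200, -1218, -1586⟩]) rfl rfl
    (List.mem_of_getElem? (i := 184) rfl) TH_fr TH_cov ?_
  · intro X Y h
    simp only [List.forall_mem_cons, List.not_mem_nil, false_imp_iff, implies_true, and_true] at h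
    push_cast at h ⊢
    obtain ⟨h0, h1, h2, h3⟩ := h
    refine ⟨⟨?_, ?_⟩, ?_, ?_⟩ <;> linarith

theorem TH_rg185 : ROK [.q ⟨-39, -41, 80, 0⟩ ⟨-121, 41, 80, 0⟩, .q ⟨37, 43, -80, 0⟩ ⟨-123, 43, 80, 0⟩, .q ⟨121, -41, -80, 0⟩ ⟨12996, -11390, 1909, -3515⟩, .q ⟨123, -43, -80, 0⟩ ⟨12996, -11390, 1909, -3515⟩, .q ⟨121, -41, -80, 0⟩ ⟨-985, -621, -1909, 3515⟩, .q ⟨123, -43, -80, 0⟩ ⟨-985, -621, -1909, 3515⟩, .q ⟨121, -41, -80, 0⟩ ⟨2354, 1554, 91, -3999⟩, .q ⟨123, -43, -80, 0⟩ ⟨2354, 1554, 91, -3999⟩, .q ⟨121, -41, -80, 0⟩ ⟨-1654, -1327, -913, 3894⟩, .q ⟨123, -43, -80, 0⟩ ⟨-1654, -1327, -913, 3894⟩] := by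
  refine rok_bys (s := -1) (nlo := 41) (nhi := 43) (q := 80) (by decide) (by decide) (by decide) (by decide) (z := 3) (by decide) TH_sc (k := 1) (by decide) (Q := [(1909, 3515, 11390), (-1909, -3515, 621), (91, 3999, -1554), (-913, -3894, 1327)])
    (P := [⟨-3778560, -80, 0⟩, ⟨3962880, 80, 0⟩, ⟨1049702400, 1909, 3515⟩, ⟨57231360, -1909, -3515⟩, ⟨-143216640, 91, 3999⟩, ⟨122296320, -913, -3894⟩]) rfl rfl
    (List.mem_of_getElem? (i := 185) rfl) TH_fr TH_cov ?_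
  · intro X Y h
    simp only [List.forall_mem_cons, List.not_mem_nil, false_imp_iff, implies_true, and_true] at h
    push_cast at h ⊢
    obtain ⟨h0, h1, h2, h3, h4, h5⟩ := h
    refine ⟨⟨?_, ?_⟩, ?_, ?_⟩ <;> linarith

theorem TH_rg186 : ROK [.q ⟨-443, -517, 960, 0⟩ ⟨-1477, 517, 960, 0⟩, .q ⟨434, 526, -960, 0⟩ ⟨-1486, 526, 960, 0⟩, .q ⟨1477, -517, -960, 0⟩ ⟨2994, 2529, -2149, -3374⟩, .q ⟨1486, -526, -960, 0⟩ ⟨2994, 2529, -2149, -3374⟩, .q ⟨1477, -517, -960, 0⟩ ⟨-1251, -939, -1513, 3703⟩, .q ⟨1486, -526, -960, 0⟩ ⟨-1251, -939, -1513, 3703⟩, .q ⟨1477, -517, -960, 0⟩ ⟨451, 639, -1850, 760⟩, .q ⟨1486, -526, -960, 0⟩ ⟨451, 639, -1850, 760⟩] := by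
  refine rok_bys (s := -1) (nlo := 517) (nhi := 526) (q := 960) (by decide) (by decide) (by decide) (by decide) (z := 3) (by decide) TH_sc (k := 1) (by decide) (Q := [(-2149, 3374, -2529), (-1513, -3703, 939), (-1850, -760, -639)])
    (P := [⟨-47646720, -960, 0⟩, ⟨48476160, 960, 0⟩, ⟨-233072640, -2149, 3374⟩, ⟨86538240, -1513, -3703⟩, ⟨-58890240, -1850, -760⟩]) rfl rfl
    (List.mem_of_getElem? (i := 186) rfl) TH_fr TH_cov ?_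
  · intro X Y h
    simp only [List.forall_mem_cons, List.not_mem_nil, false_imp_iff, implies_true, and_true] at h
    push_cast at h ⊢
    obtain ⟨h0, h1, h2, h3, h4⟩ := h
    refine ⟨⟨?_, ?_⟩, ?_, ?_⟩ <;> linarith

theorem TH_rg187 : ROK [.q ⟨-226, -254, 480, 0⟩ ⟨-734, 254, 480, 0⟩, .q ⟨217, 263, -480, 0⟩ ⟨-743, 263, 480, 0⟩, .q ⟨734, -254, -480, 0⟩ ⟨13694, -10605, 825, -3914⟩, .q ⟨743, -263, -480, 0⟩ ⟨13694, -10605, 825, -3914⟩, .q ⟨734, -254, -480, 0⟩ ⟨-1671, -1418, -825, 3914⟩, .q ⟨743, -263, -480, 0⟩ ⟨-1671, -1418, -825, 3914⟩, .q ⟨734, -254, -480, 0⟩ ⟨2779, 2864, -3016, -2627⟩, .q ⟨743, -263, -480, 0⟩ ⟨2779, 2864, -3016, -2627⟩, .q ⟨734, -254, -480, 0⟩ ⟨-10, 369, -3002, 2643⟩, .q ⟨743, -263, -480, 0⟩ ⟨-10, 369, -3002, 2643⟩] := by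
  refine rok_bys (s := -1) (nlo := 254) (nhi := 263) (q := 480) (by decide) (by decide) (by decide) (by decide) (z := 3) (by decide) TH_sc (k := 1) (by decide) (Q := [(825, 3914, 10605), (-825, -3914, 1418), (-3016, 2627, -2864), (-3002, -2643, -369)])
    (P := [⟨-23408640, -480, 0⟩, ⟨24238080, 480, 0⟩, ⟨977356800, 825, 3914⟩, ⟨130682880, -825, -3914⟩, ⟨-263946240, -3016, 2627⟩, ⟨-34007040, -3002, -2643⟩]) rfl rfl
    (List.mem_of_getElem? (i := 187) rfl) TH_fr TH_cov ?_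
  · intro X Y h
    simp only [List.forall_mem_cons, List.not_mem_nil, false_imp_iff, implies_true, and_true] at h
    push_cast at h ⊢
    obtain ⟨h0, h1, h2, h3, h4, h5⟩ := h
    refine ⟨⟨?_, ?_⟩, ?_, ?_⟩ <;> linarith

theorem TH_rg188 : ROK [.q ⟨-39, -41, 80, 0⟩ ⟨-121, 41, 80, 0⟩, .q ⟨36, 44, -80, 0⟩ ⟨-124, 44, 80, 0⟩, .q ⟨121, -41, -80, 0⟩ ⟨2156, 1354, 463, -3973⟩, .q ⟨124, -44, -80, 0⟩ ⟨2156, 1354, 463, -3973⟩, .q ⟨121, -41, -80, 0⟩ ⟨-1033, -671, -1845, 3549⟩, .q ⟨124, -44, -80, 0⟩ ⟨-1033, -671, -1845, 3549⟩, .q ⟨121, -41, -80, 0⟩ ⟨-1258, -904, -1533, 3695⟩, .q ⟨124, -44, -80, 0⟩ ⟨-1258, -904, -1533, 3695⟩] := by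
  refine rok_bys (s := -1) (nlo := 41) (nhi := 44) (q := 80) (by decide) (by decide) (by decide) (by decide) (z := 3) (by decide) TH_sc (k := 1) (by decide) (Q := [(463, 3973, -1354), (-1845, -3549, 671), (-1533, -3695, 904)])
    (P := [⟨-3778560, -80, 0⟩, ⟨4055040, 80, 0⟩, ⟨-124784640, 463, 3973⟩, ⟨61839360, -1845, -3549⟩, ⟨83312640, -1533, -3695⟩]) rfl rfl
    (List.mem_of_getElem? (i := 188) rfl) TH_fr TH_cov ?_
  · intro X Y h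
    simp only [List.forall_mem_cons, List.not_mem_nil, false_imp_iff, implies_true, and_true] at h
    push_cast at h ⊢
    obtain ⟨h0, h1, h2, h3, h4⟩ := h
    refine ⟨⟨?_, ?_⟩, ?_, ?_⟩ <;> linarith

theorem TH_rg189 : ROK [.q ⟨-75, -85, 160, 0⟩ ⟨-245, 85, 160, 0⟩, .q ⟨72, 88, -160, 0⟩ ⟨-248, 88, 160, 0⟩, .q ⟨245, -85, -160, 0⟩ ⟨13874, -10201, 315, -3988⟩, .q ⟨248, -88, -160, 0⟩ ⟨13874, -10201, 315, -3988⟩, .q ⟨245, -85, -160, 0⟩ ⟨-1982, -1691, -315, 3988⟩, .q ⟨248, -88, -160, 0⟩ ⟨-1982, -1691, -315, 3988⟩, .q ⟨245, -85, -160, 0⟩ ⟨2447, 1661, -109, -3999⟩, .q ⟨248, -88, -160, 0⟩ ⟨2447, 1661, -109, -3999⟩, .q ⟨245, -85, -160, 0⟩ ⟨-332, 47, -2682, 2967⟩, .q ⟨248, -88, -160, 0⟩ ⟨-332, 47, -2682, 2967⟩] := by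
  refine rok_bys (s := -1) (nlo := 85) (nhi := 88) (q := 160) (by decide) (by decide) (by decide) (by decide) (z := 3) (by decide) TH_sc (k := 1) (by decide) (Q := [(315, 3988, 10201), (-315, -3988, 1691), (-109, 3999, -1661), (-2682, -2967, -47)])
    (P := [⟨-7833600, -160, 0⟩, ⟨8110080, 160, 0⟩, ⟨940124160, 315, 3988⟩, ⟨155842560, -315, -3988⟩, ⟨-153077760, -109, 3999⟩, ⟨-4331520, -2682, -2967⟩]) rfl rfl
    (List.mem_of_getElem? (i := 189) rfl) TH_fr TH_cov ?_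
  · intro X Y h
    simp only [List.forall_mem_cons, List.not_mem_nil, false_imp_iff, implies_true, and_true] at h
    push_cast at h ⊢
    obtain ⟨h0, h1, h2, h3, h4, h5⟩ := h
    refine ⟨⟨?_, ?_⟩, ?_, ?_⟩ <;> linarith

theorem TH_rg190 : ROK [.q ⟨-20, -20, 40, 0⟩ ⟨-60, 20, 40, 0⟩, .q ⟨17, 23, -40, 0⟩ ⟨-63, 23, 40, 0⟩, .q ⟨60, -20, -40, 0⟩ ⟨1357, 635, 1651, -3643⟩, .q ⟨63, -23, -40, 0⟩ ⟨1357, 635, 1651, -3643⟩, .q ⟨60, -20, -40, 0⟩ ⟨-1176, -816, -1651, 3643⟩, .q ⟨63, -23, -40, 0⟩ ⟨-1176, -816, -1651, 3643⟩, .q ⟨60, -20, -40, 0⟩ ⟨727, 979, -3550, 1844⟩, .q ⟨63, -23, -40, 0⟩ ⟨727, 979, -3550, 1844⟩] := by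
  refine rok_bys (s := -1) (nlo := 20) (nhi := 23) (q := 40) (by decide) (by decide) (by decide) (by decide) (z := 3) (by decide) TH_sc (k := 1) (by decide) (Q := [(1651, 3643, -635), (-1651, -3643, 816), (-3550, -1844, -979)])
    (P := [⟨-1843200, -40, 0⟩, ⟨2119680, 40, 0⟩, ⟨-58521600, 1651, 3643⟩, ⟨75202560, -1651, -3643⟩, ⟨-90224640, -3550, -1844⟩]) rfl rfl
    (List.mem_of_getElem? (i := 190) rfl) TH_fr TH_cov ?_
  · intro X Y h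
    simp only [List.forall_mem_cons, List.not_mem_nil, false_imp_iff, implies_true, and_true] at h
    push_cast at h ⊢
    obtain ⟨h0, h1, h2, h3, h4⟩ := h
    refine ⟨⟨?_, ?_⟩, ?_, ?_⟩ <;> linarith

theorem TH_rg191 : ROK [.q ⟨-217, -263, 480, 0⟩ ⟨-743, 263, 480, 0⟩, .q ⟨207, 273, -480, 0⟩ ⟨-753, 273, 480, 0⟩, .q ⟨743, -263, -480, 0⟩ ⟨2935, 2522, -1983, -3474⟩, .q ⟨753, -273, -480, 0⟩ ⟨2935, 2522, -1983, -3474⟩, .q ⟨743, -263, -480, 0⟩ ⟨10681, -12918, -1479, 3716⟩, .q ⟨753, -273, -480, 0⟩ ⟨10681, -12918, -1479, 3716⟩, .q ⟨743, -263, -480, 0⟩ ⟨909, 1338, -3719, 1472⟩, .q ⟨753, -273, -480, 0⟩ ⟨909, 1338, -3719, 1472⟩] := by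
  refine rok_bys (s := -1) (nlo := 263) (nhi := 273) (q := 480) (by decide) (by decide) (by decide) (by decide) (z := 3) (by decide) TH_sc (k := 1) (by decide) (Q := [(-1983, 3474, -2522), (-1479, -3716, 12918), (-3719, -1472, -1338)])
    (P := [⟨-24238080, -480, 0⟩, ⟨25159680, 480, 0⟩, ⟨-232427520, -1983, 3474⟩, ⟨1190522880, -1479, -3716⟩, ⟨-123310080, -3719, -1472⟩]) rfl rfl
    (List.mem_of_getElem? (i := 191) rfl) TH_fr TH_cov ?_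
  · intro X Y h
    simp only [List.forall_mem_cons, List.not_mem_nil, false_imp_iff, implies_true, and_true] at h
    push_cast at h ⊢
    obtain ⟨h0, h1, h2, h3, h4⟩ := h
    refine ⟨⟨?_, ?_⟩, ?_, ?_⟩ <;> linarith

end Pool.Agent.TET
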