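import Pool.Agent.Helper38_TET.TH_C

/-!
# MP_c7c9bf_co: certificates, family TH
-/

set_option autoImplicit false
set_option maxRecDepth 100000

namespace Pool.Agent.TET

theorem TH_rg192 : ROK [.q ⟨-220, -260, 480, 0⟩ ⟨-740, 260, 480, 0⟩, .q ⟨217, 263, -480, 0⟩ ⟨-743, 263, 480, 0⟩, .q ⟨740, -260, -480, 0⟩ ⟨805, -26, 2412, -3191⟩, .q ⟨743, -263, -480, 0⟩ ⟨805, -26, 2412, -3191⟩, .q ⟨740, -260, -480, 0⟩ ⟨-567, -212, -2412, 3191⟩, .q ⟨743, -263, -480, 0⟩ ⟨-567, -212, -2412, 3191⟩] := by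
  refine rok_bys (s := -1) (nlo := 260) (nhi := 263) (q := 480) (by decide) (by decide) (by decide) (by decide) (z := 3) (by decide) TH_sc (k := 1) (by decide) (Q := [(2412, 3191, 26), (-2412, -3191, 212)])
    (P := [⟨-23961600, -480, 0⟩, ⟨24238080, 480, 0⟩, ⟨2396160, 2412, 3191⟩, ⟨19537920, -2412, -3191⟩]) rfl rfl
    (List.mem_of_getElem? (i := 192) rfl) TH_fr TH_cov ?_
  · intro X Y h
    simp only [List.forall_mem_cons, List.not_mem_nil, false_imp_iff, implies_true, and_true] at h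
    push_cast at h ⊢
    obtain ⟨h0, h1, h2, h3⟩ := h
    refine ⟨⟨?_, ?_⟩, ?_, ?_⟩ <;> linarith

theorem TH_rg193 : ROK [.q ⟨-449, -511, 960, 0⟩ ⟨-1471, 511, 960, 0⟩, .q ⟨442, 518, -960, 0⟩ ⟨-1478, 518, 960, 0⟩, .q ⟨1471, -511, -960, 0⟩ ⟨12891, -11486, 2037, -3442⟩, .q ⟨1478, -518, -960, 0⟩ ⟨12891, -11486, 2037, -3442⟩, .q ⟨1471, -511, -960, 0⟩ ⟨-888, -517, -2037, 3442⟩, .q ⟨1478, -518, -960, 0⟩ ⟨-888, -517, -2037, 3442⟩, .q ⟨1471, -511, -960, 0⟩ ⟨-355, -983, 3417, -2079⟩, .q ⟨1478, -518, -960, 0⟩ ⟨-355, -983, 3417, -2079⟩, .q ⟨1471, -511, -960, 0⟩ ⟨-681, -509, -688, 1878⟩, .q ⟨1478, -518, -960, 0⟩ ⟨-681, -509, -688, 1878⟩] := by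
  refine rok_bys (s := -1) (nlo := 511) (nhi := 518) (q := 960) (by decide) (by decide) (by decide) (by decide) (z := 3) (by decide) TH_sc (k := 1) (by decide) (Q := [(2037, 3442, 11486), (-2037, -3442, 517), (3417, 2079, 983), (-688, -1878, 509)])
    (P := [⟨-47093760, -960, 0⟩, ⟨47738880, 960, 0⟩, ⟨1058549760, 2037, 3442⟩, ⟨47646720, -2037, -3442⟩, ⟨90593280, 3417, 2079⟩, ⟨46909440, -688, -1878⟩]) rfl rfl
    (List.mem_of_getElem? (i := 193) rfl) TH_fr TH_cov ?_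
  · intro X Y h
    simp only [List.forall_mem_cons, List.not_mem_nil, false_imp_iff, implies_true, and_true] at h
    push_cast at h ⊢
    obtain ⟨h0, h1, h2, h3, h4, h5⟩ := h
    refine ⟨⟨?_, ?_⟩, ?_, ?_⟩ <;> linarith

theorem TH_rg194 : ROK [.q ⟨-443, -517, 960, 0⟩ ⟨-1477, 517, 960, 0⟩, .q ⟨436, 524, -960, 0⟩ ⟨-1484, 524, 960, 0⟩, .q ⟨1477, -517, -960, 0⟩ ⟨12293, -8293, 0, -4000⟩, .q ⟨1484, -524, -960, 0⟩ ⟨12293, -8293, 0, -4000⟩, .q ⟨1477, -517, -960, 0⟩ ⟨-447, -83, -2551, 3081⟩, .q ⟨1484, -524, -960, 0⟩ ⟨-447, -83, -2551, 3081⟩, .q ⟨1477, -517, -960, 0⟩ ⟨2722, 2847, -3282, -2287⟩, .q ⟨1484, -524, -960, 0⟩ ⟨2722, 2847, -3282, -2287⟩] := by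
  refine rok_bys (s := -1) (nlo := 517) (nhi := 524) (q := 960) (by decide) (by decide) (by decide) (by decide) (z := 3) (by decide) TH_sc (k := 1) (by decide) (Q := [(0, 4000, 8293), (-2551, -3081, 83), (-3282, 2287, -2847)])
    (P := [⟨-47646720, -960, 0⟩, ⟨48291840, 960, 0⟩, ⟨764282880, 0, 4000⟩, ⟨7649280, -2551, -3081⟩, ⟨-262379520, -3282, 2287⟩]) rfl rfl
    (List.mem_of_getElem? (i := 194) rfl) TH_fr TH_cov ?_
  · intro X Y h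
    simp only [List.forall_mem_cons, List.not_mem_nil, false_imp_iff, implies_true, and_true] at h
    push_cast at h ⊢
    obtain ⟨h0, h1, h2, h3, h4⟩ := h
    refine ⟨⟨?_, ?_⟩, ?_, ?_⟩ <;> linarith

theorem TH_rg195 : ROK [.q ⟨-435, -525, 960, 0⟩ ⟨-1485, 525, 960, 0⟩, .q ⟨427, 533, -960, 0⟩ ⟨-1493, 533, 960, 0⟩, .q ⟨1485, -525, -960, 0⟩ ⟨2697, 2805, -2092, -3410⟩, .q ⟨1493, -533, -960, 0⟩ ⟨2697, 2805, -2092, -3410⟩, .q ⟨1485, -525, -960, 0⟩ ⟨-2174, -2645, 928, 3891⟩, .q ⟨1493, -533, -960, 0⟩ ⟨-2174, -2645, 928, 3891⟩, .q ⟨1485, -525, -960, 0⟩ ⟨1525, 1304, 1035, -3864⟩, .q ⟨1493, -533, -960, 0⟩ ⟨1525, 1304, 1035, -3864⟩] := by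
  refine rok_bys (s := -1) (nlo := 525) (nhi := 533) (q := 960) (by decide) (by decide) (by decide) (by decide) (z := 3) (by decide) TH_sc (k := 1) (by decide) (Q := [(-2092, 3410, -2805), (928, -3891, 2645), (1035, 3864, -1304)])
    (P := [⟨-48384000, -960, 0⟩, ⟨49121280, 960, 0⟩, ⟨-258508800, -2092, 3410⟩, ⟨243763200, 928, -3891⟩, ⟨-120176640, 1035, 3864⟩]) rfl rfl
    (List.mem_of_getElem? (i := 195) rfl) TH_fr TH_cov ?_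
  · intro X Y h
    simp only [List.forall_mem_cons, List.not_mem_nil, false_imp_iff, implies_true, and_true] at h
    push_cast at h ⊢
    obtain ⟨h0, h1, h2, h3, h4⟩ := h
    refine ⟨⟨?_, ?_⟩, ?_, ?_⟩ <;> linarith

theorem TH_rg196 : ROK [.q ⟨-39, -41, 80, 0⟩ ⟨-121, 41, 80, 0⟩, .q ⟨36, 44, -80, 0⟩ ⟨-124, 44, 80, 0⟩, .q ⟨121, -41, -80, 0⟩ ⟨2399, 1601, 0, -4000⟩, .q ⟨124, -44, -80, 0⟩ ⟨2399, 1601, 0, -4000⟩, .q ⟨121, -41, -80, 0⟩ ⟨-643, -465, -747, 1855⟩, .q ⟨124, -44, -80, 0⟩ ⟨-643, -465, -747, 1855⟩, .q ⟨121, -41, -80, 0⟩ ⟨-926, -565, -1983, 3474⟩, .q ⟨124, -44, -80, 0⟩ ⟨-926, -565, -1983, 3474⟩] := by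
  refine rok_bys (s := -1) (nlo := 41) (nhi := 44) (q := 80) (by decide) (by decide) (by decide) (by decide) (z := 3) (by decide) TH_sc (k := 1) (by decide) (Q := [(0, 4000, -1601), (-747, -1855, 465), (-1983, -3474, 565)])
    (P := [⟨-3778560, -80, 0⟩, ⟨4055040, 80, 0⟩, ⟨-147548160, 0, 4000⟩, ⟨42854400, -747, -1855⟩, ⟨52070400, -1983, -3474⟩]) rfl rfl
    (List.mem_of_getElem? (i := 196) rfl) TH_fr TH_cov ?_
  · intro X Y h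
    simp only [List.forall_mem_cons, List.not_mem_nil, false_imp_iff, implies_true, and_true] at h
    push_cast at h ⊢
    obtain ⟨h0, h1, h2, h3, h4⟩ := h
    refine ⟨⟨?_, ?_⟩, ?_, ?_⟩ <;> linarith

theorem TH_rg197 : ROK [.q ⟨-446, -514, 960, 0⟩ ⟨-1474, 514, 960, 0⟩, .q ⟨435, 525, -960, 0⟩ ⟨-1485, 525, 960, 0⟩, .q ⟨1474, -514, -960, 0⟩ ⟨10867, -6867, 0, -4000⟩, .q ⟨1485, -525, -960, 0⟩ ⟨10867, -6867, 0, -4000⟩, .q ⟨1474, -514, -960, 0⟩ ⟨-1474, -1189, -1164, 3827⟩, .q ⟨1485, -525, -960, 0⟩ ⟨-1474, -1189, -1164, 3827⟩, .q ⟨1474, -514, -960, 0⟩ ⟨-56, -753, 3204, -2395⟩, .q ⟨1485, -525, -960, 0⟩ ⟨-56, -753, 3204, -2395⟩, .q ⟨1474, -514, -960, 0⟩ ⟨926, 1305, -3715, 1484⟩, .q ⟨1485, -525, -960, 0⟩ ⟨926, 1305, -3715, 1484⟩] := by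
  refine rok_bys (s := -1) (nlo := 514) (nhi := 525) (q := 960) (by decide) (by decide) (by decide) (by decide) (z := 3) (by decide) TH_sc (k := 1) (by decide) (Q := [(0, 4000, 6867), (-1164, -3827, 1189), (3204, 2395, 753), (-3715, -1484, -1305)])
    (P := [⟨-47370240, -960, 0⟩, ⟨48384000, 960, 0⟩, ⟨632862720, 0, 4000⟩, ⟨109578240, -1164, -3827⟩, ⟨69396480, 3204, 2395⟩, ⟨-120268800, -3715, -1484⟩]) rfl rfl
    (List.mem_of_getElem? (i := 197) rfl) TH_fr TH_cov ?_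
  · intro X Y h
    simp only [List.forall_mem_cons, List.not_mem_nil, false_imp_iff, implies_true, and_true] at h
    push_cast at h ⊢
    obtain ⟨h0, h1, h2, h3, h4, h5⟩ := h
    refine ⟨⟨?_, ?_⟩, ?_, ?_⟩ <;> linarith

theorem TH_rg198 : ROK [.q ⟨-433, -527, 960, 0⟩ ⟨-1487, 527, 960, 0⟩, .q ⟨426, 534, -960, 0⟩ ⟨-1494, 534, 960, 0⟩, .q ⟨1487, -527, -960, 0⟩ ⟨594, 585, -199, -980⟩, .q ⟨1494, -534, -960, 0⟩ ⟨594, 585, -199, -980⟩, .q ⟨1487, -527, -960, 0⟩ ⟨-2280, -2779, 1264, 3795⟩, .q ⟨1494, -534, -960, 0⟩ ⟨-2280, -2779, 1264, 3795⟩] := by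
  refine rok_bys (s := -1) (nlo := 527) (nhi := 534) (q := 960) (by decide) (by decide) (by decide) (by decide) (z := 3) (by decide) TH_sc (k := 1) (by decide) (Q := [(-199, 980, -585), (1264, -3795, 2779)])
    (P := [⟨-48568320, -960, 0⟩, ⟨49213440, 960, 0⟩, ⟨-53913600, -199, 980⟩, ⟨256112640, 1264, -3795⟩]) rfl rfl
    (List.mem_of_getElem? (i := 198) rfl) TH_fr TH_cov ?_
  · intro X Y h
    simp only [List.forall_mem_cons, List.not_mem_nil, false_imp_iff, implies_true, and_true] at h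
    push_cast at h ⊢
    obtain ⟨h0, h1, h2, h3⟩ := h
    refine ⟨⟨?_, ?_⟩, ?_, ?_⟩ <;> linarith

theorem TH_rg199 : ROK [.q ⟨-150, -170, 320, 0⟩ ⟨-490, 170, 320, 0⟩, .q ⟨147, 173, -320, 0⟩ ⟨-493, 173, 320, 0⟩, .q ⟨490, -170, -320, 0⟩ ⟨14413, -8782, -2543, -3088⟩, .q ⟨493, -173, -320, 0⟩ ⟨14413, -8782, -2543, -3088⟩, .q ⟨490, -170, -320, 0⟩ ⟨-610, -229, -2378, 3217⟩, .q ⟨493, -173, -320, 0⟩ ⟨-610, -229, -2378, 3217⟩, .q ⟨490, -170, -320, 0⟩ ⟨866, 615, -157, -1324⟩, .q ⟨493, -173, -320, 0⟩ ⟨866, 615, -157, -1324⟩, .q ⟨490, -170, -320, 0⟩ ⟨-2448, -2254, 779, 3923⟩, .q ⟨493, -173, -320, 0⟩ ⟨-2448, -2254, 779, 3923⟩] := by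
  refine rok_bys (s := -1) (nlo := 170) (nhi := 173) (q := 320) (by decide) (by decide) (by decide) (by decide) (z := 3) (by decide) TH_sc (k := 1) (by decide) (Q := [(-2543, 3088, 8782), (-2378, -3217, 229), (-157, 1324, -615), (779, -3923, 2254)])
    (P := [⟨-15667200, -320, 0⟩, ⟨15943680, 320, 0⟩, ⟨809349120, -2543, 3088⟩, ⟨21104640, -2378, -3217⟩, ⟨-56678400, -157, 1324⟩, ⟨207728640, 779, -3923⟩]) rfl rfl
    (List.mem_of_getElem? (i := 199) rfl) TH_fr TH_cov ?_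
  · intro X Y h
    simp only [List.forall_mem_cons, List.not_mem_nil, false_imp_iff, implies_true, and_true] at h
    push_cast at h ⊢
    obtain ⟨h0, h1, h2, h3, h4, h5⟩ := h
    refine ⟨⟨?_, ?_⟩, ?_, ?_⟩ <;> linarith

theorem TH_rg200 : ROK [.q ⟨-39, -41, 80, 0⟩ ⟨-121, 41, 80, 0⟩, .q ⟨37, 43, -80, 0⟩ ⟨-123, 43, 80, 0⟩, .q ⟨121, -41, -80, 0⟩ ⟨2793, -1862, -144, -787⟩, .q ⟨123, -43, -80, 0⟩ ⟨2793, -1862, -144, -787⟩, .q ⟨121, -41, -80, 0⟩ ⟨-1378, -1020, -1363, 3761⟩, .q ⟨123, -43, -80, 0⟩ ⟨-1378, -1020, -1363, 3761⟩, .q ⟨121, -41, -80, 0⟩ ⟨2571, 1808, -399, -3980⟩, .q ⟨123, -43, -80, 0⟩ ⟨2571, 1808, -399, -3980⟩, .q ⟨121, -41, -80, 0⟩ ⟨-634, -282, -2333, 3249⟩, .q ⟨123, -43, -80, 0⟩ ⟨-634, -282, -2333, 3249⟩] := by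
  refine rok_bys (s := -1) (nlo := 41) (nhi := 43) (q := 80) (by decide) (by decide) (by decide) (by decide) (z := 3) (by decide) TH_sc (k := 1) (by decide) (Q := [(-144, 787, 1862), (-1363, -3761, 1020), (-399, 3980, -1808), (-2333, -3249, 282)])
    (P := [⟨-3778560, -80, 0⟩, ⟨3962880, 80, 0⟩, ⟨171601920, -144, 787⟩, ⟨94003200, -1363, -3761⟩, ⟨-166625280, -399, 3980⟩, ⟨25989120, -2333, -3249⟩]) rfl rfl
    (List.mem_of_getElem? (i := 200) rfl) TH_fr TH_cov ?_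
  · intro X Y h
    simp only [List.forall_mem_cons, List.not_mem_nil, false_imp_iff, implies_true, and_true] at h
    push_cast at h ⊢
    obtain ⟨h0, h1, h2, h3, h4, h5⟩ := h
    refine ⟨⟨?_, ?_⟩, ?_, ?_⟩ <;> linarith

theorem TH_rg201 : ROK [.q ⟨-116, -124, 240, 0⟩ ⟨-364, 124, 240, 0⟩, .q ⟨113, 127, -240, 0⟩ ⟨-367, 127, 240, 0⟩, .q ⟨364, -124, -240, 0⟩ ⟨9739, -7974, 1805, -3570⟩, .q ⟨367, -127, -240, 0⟩ ⟨9739, -7974, 1805, -3570⟩, .q ⟨364, -124, -240, 0⟩ ⟨-1062, -703, -1805, 3570⟩, .q ⟨367, -127, -240, 0⟩ ⟨-1062, -703, -1805, 3570⟩, .q ⟨364, -124, -240, 0⟩ ⟨2366, 1567, 66, -3999⟩, .q ⟨367, -127, -240, 0⟩ ⟨2366, 1567, 66, -3999⟩, .q ⟨364, -124, -240, 0⟩ ⟨-2390, -2104, 529, 3965⟩, .q ⟨367, -127, -240, 0⟩ ⟨-2390, -2104, 529, 3965⟩] := by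
  refine rok_bys (s := -1) (nlo := 124) (nhi := 127) (q := 240) (by decide) (by decide) (by decide) (by decide) (z := 3) (by decide) TH_sc (k := 1) (by decide) (Q := [(1805, 3570, 7974), (-1805, -3570, 703), (66, 3999, -1567), (529, -3965, 2104)])
    (P := [⟨-11427840, -240, 0⟩, ⟨11704320, 240, 0⟩, ⟨734883840, 1805, 3570⟩, ⟨64788480, -1805, -3570⟩, ⟨-144414720, 66, 3999⟩, ⟨193904640, 529, -3965⟩]) rfl rfl
    (List.mem_of_getElem? (i := 201) rfl) TH_fr TH_cov ?_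
  · intro X Y h
    simp only [List.forall_mem_cons, List.not_mem_nil, false_imp_iff, implies_true, and_true] at h
    push_cast at h ⊢
    obtain ⟨h0, h1, h2, h3, h4, h5⟩ := h
    refine ⟨⟨?_, ?_⟩, ?_, ?_⟩ <;> linarith

theorem TH_rg202 : ROK [.q ⟨-446, -514, 960, 0⟩ ⟨-1474, 514, 960, 0⟩, .q ⟨437, 523, -960, 0⟩ ⟨-1483, 523, 960, 0⟩, .q ⟨1474, -514, -960, 0⟩ ⟨2810, 2843, -2716, -2937⟩, .q ⟨1483, -523, -960, 0⟩ ⟨2810, 2843, -2716, -2937⟩, .q ⟨1474, -514, -960, 0⟩ ⟨-187, -3, -1316, 1506⟩, .q ⟨1483, -523, -960, 0⟩ ⟨-187, -3, -1316, 1506⟩, .q ⟨1474, -514, -960, 0⟩ ⟨601, 985, -3508, 1922⟩, .q ⟨1483, -523, -960, 0⟩ ⟨601, 985, -3508, 1922⟩] := by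
  refine rok_bys (s := -1) (nlo := 514) (nhi := 523) (q := 960) (by decide) (by decide) (by decide) (by decide) (z := 3) (by decide) TH_sc (k := 1) (by decide) (Q := [(-2716, 2937, -2843), (-1316, -1506, 3), (-3508, -1922, -985)])
    (P := [⟨-47370240, -960, 0⟩, ⟨48199680, 960, 0⟩, ⟨-262010880, -2716, 2937⟩, ⟨276480, -1316, -1506⟩, ⟨-90777600, -3508, -1922⟩]) rfl rfl
    (List.mem_of_getElem? (i := 202) rfl) TH_fr TH_cov ?_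
  · intro X Y h
    simp only [List.forall_mem_cons, List.not_mem_nil, false_imp_iff, implies_true, and_true] at h
    push_cast at h ⊢
    obtain ⟨h0, h1, h2, h3, h4⟩ := h
    refine ⟨⟨?_, ?_⟩, ?_, ?_⟩ <;> linarith

theorem TH_rg203 : ROK [.q ⟨-147, -173, 320, 0⟩ ⟨-493, 173, 320, 0⟩, .q ⟨144, 176, -320, 0⟩ ⟨-496, 176, 320, 0⟩, .q ⟨493, -173, -320, 0⟩ ⟨13330, -10975, 1394, -3749⟩, .q ⟨496, -176, -320, 0⟩ ⟨13330, -10975, 1394, -3749⟩, .q ⟨493, -173, -320, 0⟩ ⟨-1536, -1279, -1046, 3861⟩, .q ⟨496, -176, -320, 0⟩ ⟨-1536, -1279, -1046, 3861⟩, .q ⟨493, -173, -320, 0⟩ ⟨2993, 2631, -2507, -3117⟩, .q ⟨496, -176, -320, 0⟩ ⟨2993, 2631, -2507, -3117⟩, .q ⟨493, -173, -320, 0⟩ ⟨64, 162, -811, 585⟩, .q ⟨496, -176, -320, 0⟩ ⟨64, 162, -811, 585⟩] := by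
  refine rok_bys (s := -1) (nlo := 173) (nhi := 176) (q := 320) (by decide) (by decide) (by decide) (by decide) (z := 3) (by decide) TH_sc (k := 1) (by decide) (Q := [(1394, 3749, 10975), (-1046, -3861, 1279), (-2507, 3117, -2631), (-811, -585, -162)])
    (P := [⟨-15943680, -320, 0⟩, ⟨16220160, 320, 0⟩, ⟨1011456000, 1394, 3749⟩, ⟨117872640, -1046, -3861⟩, ⟨-242472960, -2507, 3117⟩, ⟨-14929920, -811, -585⟩]) rfl rfl
    (List.mem_of_getElem? (i := 203) rfl) TH_fr TH_cov ?_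
  · intro X Y h
    simp only [List.forall_mem_cons, List.not_mem_nil, false_imp_iff, implies_true, and_true] at h
    push_cast at h ⊢
    obtain ⟨h0, h1, h2, h3, h4, h5⟩ := h
    refine ⟨⟨?_, ?_⟩, ?_, ?_⟩ <;> linarith

theorem TH_rg204 : ROK [.q ⟨-445, -515, 960, 0⟩ ⟨-1475, 515, 960, 0⟩, .q ⟨439, 521, -960, 0⟩ ⟨-1481, 521, 960, 0⟩, .q ⟨1475, -515, -960, 0⟩ ⟨521, 313, 154, -988⟩, .q ⟨1481, -521, -960, 0⟩ ⟨521, 313, 154, -988⟩, .q ⟨1475, -515, -960, 0⟩ ⟨-1389, -1048, -1334, 3771⟩, .q ⟨1481, -521, -960, 0⟩ ⟨-1389, -1048, -1334, 3771⟩] := by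
  refine rok_bys (s := -1) (nlo := 515) (nhi := 521) (q := 960) (by decide) (by decide) (by decide) (by decide) (z := 3) (by decide) TH_sc (k := 1) (by decide) (Q := [(154, 988, -313), (-1334, -3771, 1048)])
    (P := [⟨-47462400, -960, 0⟩, ⟨48015360, 960, 0⟩, ⟨-28846080, 154, 988⟩, ⟨96583680, -1334, -3771⟩]) rfl rfl
    (List.mem_of_getElem? (i := 204) rfl) TH_fr TH_cov ?_
  · intro X Y h
    simp only [List.forall_mem_cons, List.not_mem_nil, false_imp_iff, implies_true, and_true] at h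
    push_cast at h ⊢
    obtain ⟨h0, h1, h2, h3⟩ := h
    refine ⟨⟨?_, ?_⟩, ?_, ?_⟩ <;> linarith

theorem TH_rg205 : ROK [.q ⟨-39, -41, 80, 0⟩ ⟨-121, 41, 80, 0⟩, .q ⟨36, 44, -80, 0⟩ ⟨-124, 44, 80, 0⟩, .q ⟨121, -41, -80, 0⟩ ⟨10889, -8892, 1648, -3645⟩, .q ⟨124, -44, -80, 0⟩ ⟨10889, -8892, 1648, -3645⟩, .q ⟨121, -41, -80, 0⟩ ⟨-1178, -819, -1648, 3645⟩, .q ⟨124, -44, -80, 0⟩ ⟨-1178, -819, -1648, 3645⟩, .q ⟨121, -41, -80, 0⟩ ⟨515, -142, 2636, -3009⟩, .q ⟨124, -44, -80, 0⟩ ⟨515, -142, 2636, -3009⟩, .q ⟨121, -41, -80, 0⟩ ⟨-569, -218, -2407, 3194⟩, .q ⟨124, -44, -80, 0⟩ ⟨-569, -218, -2407, 3194⟩] := by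
  refine rok_bys (s := -1) (nlo := 41) (nhi := 44) (q := 80) (by decide) (by decide) (by decide) (by decide) (z := 3) (by decide) TH_sc (k := 1) (by decide) (Q := [(1648, 3645, 8892), (-1648, -3645, 819), (2636, 3009, 142), (-2407, -3194, 218)])
    (P := [⟨-3778560, -80, 0⟩, ⟨4055040, 80, 0⟩, ⟨819486720, 1648, 3645⟩, ⟨75479040, -1648, -3645⟩, ⟨13086720, 2636, 3009⟩, ⟨20090880, -2407, -3194⟩]) rfl rfl
    (List.mem_of_getElem? (i := 205) rfl) TH_fr TH_cov ?_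
  · intro X Y h
    simp only [List.forall_mem_cons, List.not_mem_nil, false_imp_iff, implies_true, and_true] at h
    push_cast at h ⊢
    obtain ⟨h0, h1, h2, h3, h4, h5⟩ := h
    refine ⟨⟨?_, ?_⟩, ?_, ?_⟩ <;> linarith

theorem TH_rg206 : ROK [.q ⟨-57, -63, 120, 0⟩ ⟨-183, 63, 120, 0⟩, .q ⟨55, 65, -120, 0⟩ ⟨-185, 65, 120, 0⟩, .q ⟨183, -63, -120, 0⟩ ⟨6709, -5489, 666, -1886⟩, .q ⟨185, -65, -120, 0⟩ ⟨6709, -5489, 666, -1886⟩, .q ⟨183, -63, -120, 0⟩ ⟨-1393, -1047, -1332, 3772⟩, .q ⟨185, -65, -120, 0⟩ ⟨-1393, -1047, -1332, 3772⟩, .q ⟨183, -63, -120, 0⟩ ⟨3007, 2514, -2144, -3377⟩, .q ⟨185, -65, -120, 0⟩ ⟨3007, 2514, -2144, -3377⟩, .q ⟨183, -63, -120, 0⟩ ⟨-765, -395, -2188, 3348⟩, .q ⟨185, -65, -120, 0⟩ ⟨-765, -395, -2188, 3348⟩] := by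
  refine rok_bys (s := -1) (nlo := 63) (nhi := 65) (q := 120) (by decide) (by decide) (by decide) (by decide) (z := 3) (by decide) TH_sc (k := 1) (by decide) (Q := [(666, 1886, 5489), (-1332, -3772, 1047), (-2144, 3377, -2514), (-2188, -3348, 395)])
    (P := [⟨-5806080, -120, 0⟩, ⟨5990400, 120, 0⟩, ⟨505866240, 666, 1886⟩, ⟨96491520, -1332, -3772⟩, ⟨-231690240, -2144, 3377⟩, ⟨36403200, -2188, -3348⟩]) rfl rfl
    (List.mem_of_getElem? (i := 206) rfl) TH_fr TH_cov ?_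
  · intro X Y h
    simp only [List.forall_mem_cons, List.not_mem_nil, false_imp_iff, implies_true, and_true] at h
    push_cast at h ⊢
    obtain ⟨h0, h1, h2, h3, h4, h5⟩ := h
    refine ⟨⟨?_, ?_⟩, ?_, ?_⟩ <;> linarith

theorem TH_rg207 : ROK [.q ⟨-224, -256, 480, 0⟩ ⟨-736, 256, 480, 0⟩, .q ⟨215, 265, -480, 0⟩ ⟨-745, 265, 480, 0⟩, .q ⟨736, -256, -480, 0⟩ ⟨13340, -11023, 1422, -3739⟩, .q ⟨745, -265, -480, 0⟩ ⟨13340, -11023, 1422, -3739⟩, .q ⟨736, -256, -480, 0⟩ ⟨-595, -212, -2396, 3203⟩, .q ⟨745, -265, -480, 0⟩ ⟨-595, -212, -2396, 3203⟩, .q ⟨736, -256, -480, 0⟩ ⟨2876, 2279, -1412, -3743⟩, .q ⟨745, -265, -480, 0⟩ ⟨2876, 2279, -1412, -3743⟩, .q ⟨736, -256, -480, 0⟩ ⟨-1572, -1247, -1043, 3862⟩, .q ⟨745, -265, -480, 0⟩ ⟨-1572, -1247, -1043, 3862⟩] := by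
  refine rok_bys (s := -1) (nlo := 256) (nhi := 265) (q := 480) (by decide) (by decide) (by decide) (by decide) (z := 3) (by decide) TH_sc (k := 1) (by decide) (Q := [(1422, 3739, 11023), (-2396, -3203, 212), (-1412, 3743, -2279), (-1043, -3862, 1247)])
    (P := [⟨-23592960, -480, 0⟩, ⟨24422400, 480, 0⟩, ⟨1015879680, 1422, 3739⟩, ⟨19537920, -2396, -3203⟩, ⟨-210032640, -1412, 3743⟩, ⟨114923520, -1043, -3862⟩]) rfl rfl
    (List.mem_of_getElem? (i := 207) rfl) TH_fr TH_cov ?_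
  · intro X Y h
    simp only [List.forall_mem_cons, List.not_mem_nil, false_imp_iff, implies_true, and_true] at h
    push_cast at h ⊢
    obtain ⟨h0, h1, h2, h3, h4, h5⟩ := h
    refine ⟨⟨?_, ?_⟩, ?_, ?_⟩ <;> linarith

theorem TH_rg208 : ROK [.q ⟨-150, -170, 320, 0⟩ ⟨-490, 170, 320, 0⟩, .q ⟨147, 173, -320, 0⟩ ⟨-493, 173, 320, 0⟩, .q ⟨490, -170, -320, 0⟩ ⟨13043, -11353, 1854, -3544⟩, .q ⟨493, -173, -320, 0⟩ ⟨13043, -11353, 1854, -3544⟩, .q ⟨490, -170, -320, 0⟩ ⟨-514, -331, -927, 1772⟩, .q ⟨493, -173, -320, 0⟩ ⟨-514, -331, -927, 1772⟩, .q ⟨490, -170, -320, 0⟩ ⟨2945, 2691, -3061, -2575⟩, .q ⟨493, -173, -320, 0⟩ ⟨2945, 2691, -3061, -2575⟩] := by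
  refine rok_bys (s := -1) (nlo := 170) (nhi := 173) (q := 320) (by decide) (by decide) (by decide) (by decide) (z := 3) (by decide) TH_sc (k := 1) (by decide) (Q := [(1854, 3544, 11353), (-927, -1772, 331), (-3061, 2575, -2691)])
    (P := [⟨-15667200, -320, 0⟩, ⟨15943680, 320, 0⟩, ⟨1046292480, 1854, 3544⟩, ⟨30504960, -927, -1772⟩, ⟨-248002560, -3061, 2575⟩]) rfl rfl
    (List.mem_of_getElem? (i := 208) rfl) TH_fr TH_cov ?_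
  · intro X Y h
    simp only [List.forall_mem_cons, List.not_mem_nil, false_imp_iff, implies_true, and_true] at h
    push_cast at h ⊢
    obtain ⟨h0, h1, h2, h3, h4⟩ := h
    refine ⟨⟨?_, ?_⟩, ?_, ?_⟩ <;> linarith

theorem TH_rg209 : ROK [.q ⟨-219, -261, 480, 0⟩ ⟨-741, 261, 480, 0⟩, .q ⟨212, 268, -480, 0⟩ ⟨-748, 268, 480, 0⟩, .q ⟨741, -261, -480, 0⟩ ⟨734, -99, 2493, -3128⟩, .q ⟨748, -268, -480, 0⟩ ⟨734, -99, 2493, -3128⟩, .q ⟨741, -261, -480, 0⟩ ⟨-497, -138, -2493, 3128⟩, .q ⟨748, -268, -480, 0⟩ ⟨-497, -138, -2493, 3128⟩] := by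
  refine rok_bys (s := -1) (nlo := 261) (nhi := 268) (q := 480) (by decide) (by decide) (by decide) (by decide) (z := 3) (by decide) TH_sc (k := 1) (by decide) (Q := [(2493, 3128, 99), (-2493, -3128, 138)])
    (P := [⟨-24053760, -480, 0⟩, ⟨24698880, 480, 0⟩, ⟨9123840, 2493, 3128⟩, ⟨12718080, -2493, -3128⟩]) rfl rfl
    (List.mem_of_getElem? (i := 209) rfl) TH_fr TH_cov ?_
  · intro X Y h
    simp only [List.forall_mem_cons, List.not_mem_nil, false_imp_iff, implies_true, and_true] at h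
    push_cast at h ⊢
    obtain ⟨h0, h1, h2, h3⟩ := h
    refine ⟨⟨?_, ?_⟩, ?_, ?_⟩ <;> linarith

theorem TH_rg210 : ROK [.q ⟨-451, -509, 960, 0⟩ ⟨-1469, 509, 960, 0⟩, .q ⟨440, 520, -960, 0⟩ ⟨-1480, 520, 960, 0⟩, .q ⟨1469, -509, -960, 0⟩ ⟨14687, -9445, -1558, -3684⟩, .q ⟨1480, -520, -960, 0⟩ ⟨14687, -9445, -1558, -3684⟩, .q ⟨1469, -509, -960, 0⟩ ⟨-527, -144, -2473, 3144⟩, .q ⟨1480, -520, -960, 0⟩ ⟨-527, -144, -2473, 3144⟩, .q ⟨1469, -509, -960, 0⟩ ⟨2357, 1555, 87, -3999⟩, .q ⟨1480, -520, -960, 0⟩ ⟨2357, 1555, 87, -3999⟩, .q ⟨1469, -509, -960, 0⟩ ⟨-82, -73, 7, 148⟩, .q ⟨1480, -520, -960, 0⟩ ⟨-82, -73, 7, 148⟩] := by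
  refine rok_bys (s := -1) (nlo := 509) (nhi := 520) (q := 960) (by decide) (by decide) (by decide) (by decide) (z := 3) (by decide) TH_sc (k := 1) (by decide) (Q := [(-1558, 3684, 9445), (-2473, -3144, 144), (87, 3999, -1555), (7, -148, 73)])
    (P := [⟨-46909440, -960, 0⟩, ⟨47923200, 960, 0⟩, ⟨870451200, -1558, 3684⟩, ⟨13271040, -2473, -3144⟩, ⟨-143308800, 87, 3999⟩, ⟨6727680, 7, -148⟩]) rfl rfl
    (List.mem_of_getElem? (i := 210) rfl) TH_fr TH_cov ?_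
  · intro X Y h
    simp only [List.forall_mem_cons, List.not_mem_nil, false_imp_iff, implies_true, and_true] at h
    push_cast at h ⊢
    obtain ⟨h0, h1, h2, h3, h4, h5⟩ := h
    refine ⟨⟨?_, ?_⟩, ?_, ?_⟩ <;> linarith

theorem TH_rg211 : ROK [.q ⟨-436, -524, 960, 0⟩ ⟨-1484, 524, 960, 0⟩, .q ⟨429, 531, -960, 0⟩ ⟨-1491, 531, 960, 0⟩, .q ⟨1484, -524, -960, 0⟩ ⟨1274, 1285, -677, -1882⟩, .q ⟨1491, -531, -960, 0⟩ ⟨1274, 1285, -677, -1882⟩, .q ⟨1484, -524, -960, 0⟩ ⟨-1442, -1753, -737, 3932⟩, .q ⟨1491, -531, -960, 0⟩ ⟨-1442, -1753, -737, 3932⟩, .q ⟨1484, -524, -960, 0⟩ ⟨1896, 1742, 347, -3985⟩, .q ⟨1491, -531, -960, 0⟩ ⟨1896, 1742, 347, -3985⟩] := by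
  refine rok_bys (s := -1) (nlo := 524) (nhi := 531) (q := 960) (by decide) (by decide) (by decide) (by decide) (z := 3) (by decide) TH_sc (k := 1) (by decide) (Q := [(-677, 1882, -1285), (-737, -3932, 1753), (347, 3985, -1742)])
    (P := [⟨-48291840, -960, 0⟩, ⟨48936960, 960, 0⟩, ⟨-118425600, -677, 1882⟩, ⟨161556480, -737, -3932⟩, ⟨-160542720, 347, 3985⟩]) rfl rfl
    (List.mem_of_getElem? (i := 211) rfl) TH_fr TH_cov ?_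
  · intro X Y h
    simp only [List.forall_mem_cons, List.not_mem_nil, false_imp_iff, implies_true, and_true] at h
    push_cast at h ⊢
    obtain ⟨h0, h1, h2, h3, h4⟩ := h
    refine ⟨⟨?_, ?_⟩, ?_, ?_⟩ <;> linarith

theorem TH_rg212 : ROK [.q ⟨-436, -524, 960, 0⟩ ⟨-1484, 524, 960, 0⟩, .q ⟨425, 535, -960, 0⟩ ⟨-1495, 535, 960, 0⟩, .q ⟨1484, -524, -960, 0⟩ ⟨1345, 1098, 1330, -3773⟩, .q ⟨1495, -535, -960, 0⟩ ⟨1345, 1098, 1330, -3773⟩, .q ⟨1484, -524, -960, 0⟩ ⟨-1111, -1332, -1330, 3773⟩, .q ⟨1495, -535, -960, 0⟩ ⟨-1111, -1332, -1330, 3773⟩, .q ⟨1484, -524, -960, 0⟩ ⟨2326, 2273, -653, -3946⟩, .q ⟨1495, -535, -960, 0⟩ ⟨2326, 2273, -653, -3946⟩] := by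
  refine rok_bys (s := -1) (nlo := 524) (nhi := 535) (q := 960) (by decide) (by decide) (by decide) (by decide) (z := 3) (by decide) TH_sc (k := 1) (by decide) (Q := [(1330, 3773, -1098), (-1330, -3773, 1332), (-653, 3946, -2273)])
    (P := [⟨-48291840, -960, 0⟩, ⟨49305600, 960, 0⟩, ⟨-101191680, 1330, 3773⟩, ⟨122757120, -1330, -3773⟩, ⟨-209479680, -653, 3946⟩]) rfl rfl
    (List.mem_of_getElem? (i := 212) rfl) TH_fr TH_cov ?_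
  · intro X Y h
    simp only [List.forall_mem_cons, List.not_mem_nil, false_imp_iff, implies_true, and_true] at h
    push_cast at h ⊢
    obtain ⟨h0, h1, h2, h3, h4⟩ := h
    refine ⟨⟨?_, ?_⟩, ?_, ?_⟩ <;> linarith

theorem TH_rg213 : ROK [.q ⟨-87, -105, 192, 0⟩ ⟨-297, 105, 192, 0⟩, .q ⟨85, 107, -192, 0⟩ ⟨-299, 107, 192, 0⟩, .q ⟨297, -105, -192, 0⟩ ⟨2632, 2693, -1709, -3616⟩, .q ⟨299, -107, -192, 0⟩ ⟨2632, 2693, -1709, -3616⟩, .q ⟨297, -105, -192, 0⟩ ⟨-1287, -1552, -1027, 3866⟩, .q ⟨299, -107, -192, 0⟩ ⟨-1287, -1552, -1027, 3866⟩, .q ⟨297, -105, -192, 0⟩ ⟨1490, 1265, 1093, -3848⟩, .q ⟨299, -107, -192, 0⟩ ⟨1490, 1265, 1093, -3848⟩] := by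
  refine rok_bys (s := -1) (nlo := 105) (nhi := 107) (q := 192) (by decide) (by decide) (by decide) (by decide) (z := 3) (by decide) TH_sc (k := 1) (by decide) (Q := [(-1709, 3616, -2693), (-1027, -3866, 1552), (1093, 3848, -1265)])
    (P := [⟨-9676800, -192, 0⟩, ⟨9861120, 192, 0⟩, ⟨-248186880, -1709, 3616⟩, ⟨143032320, -1027, -3866⟩, ⟨-116582400, 1093, 3848⟩]) rfl rfl
    (List.mem_of_getElem? (i := 213) rfl) TH_fr TH_cov ?_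
  · intro X Y h
    simp only [List.forall_mem_cons, List.not_mem_nil, false_imp_iff, implies_true, and_true] at h
    push_cast at h ⊢
    obtain ⟨h0, h1, h2, h3, h4⟩ := h
    refine ⟨⟨?_, ?_⟩, ?_, ?_⟩ <;> linarith

theorem TH_rg214 : ROK [.q ⟨-435, -525, 960, 0⟩ ⟨-1485, 525, 960, 0⟩, .q ⟨428, 532, -960, 0⟩ ⟨-1492, 532, 960, 0⟩, .q ⟨1485, -525, -960, 0⟩ ⟨1315, 1346, -851, -1810⟩, .q ⟨1492, -532, -960, 0⟩ ⟨1315, 1346, -851, -1810⟩, .q ⟨1485, -525, -960, 0⟩ ⟨-1202, -1459, 851, 1810⟩, .q ⟨1492, -532, -960, 0⟩ ⟨-1202, -1459, 851, 1810⟩, .q ⟨1485, -525, -960, 0⟩ ⟨1205, 937, 1547, -3689⟩, .q ⟨1492, -532, -960, 0⟩ ⟨1205, 937, 1547, -3689⟩] := by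
  refine rok_bys (s := -1) (nlo := 525) (nhi := 532) (q := 960) (by decide) (by decide) (by decide) (by decide) (z := 3) (by decide) TH_sc (k := 1) (by decide) (Q := [(-851, 1810, -1346), (851, -1810, 1459), (1547, 3689, -937)])
    (P := [⟨-48384000, -960, 0⟩, ⟨49029120, 960, 0⟩, ⟨-124047360, -851, 1810⟩, ⟨134461440, 851, -1810⟩, ⟨-86353920, 1547, 3689⟩]) rfl rfl
    (List.mem_of_getElem? (i := 214) rfl) TH_fr TH_cov ?_
  · intro X Y h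
    simp only [List.forall_mem_cons, List.not_mem_nil, false_imp_iff, implies_true, and_true] at h
    push_cast at h ⊢
    obtain ⟨h0, h1, h2, h3, h4⟩ := h
    refine ⟨⟨?_, ?_⟩, ?_, ?_⟩ <;> linarith

theorem TH_rg215 : ROK [.q ⟨-447, -513, 960, 0⟩ ⟨-1473, 513, 960, 0⟩, .q ⟨440, 520, -960, 0⟩ ⟨-1480, 520, 960, 0⟩, .q ⟨1473, -513, -960, 0⟩ ⟨7067, -5067, 0, -2000⟩, .q ⟨1480, -520, -960, 0⟩ ⟨7067, -5067, 0, -2000⟩, .q ⟨1473, -513, -960, 0⟩ ⟨-133, -117, 0, 250⟩, .q ⟨1480, -520, -960, 0⟩ ⟨-133, -117, 0, 250⟩, .q ⟨1473, -513, -960, 0⟩ ⟨1501, 664, 1531, -3696⟩, .q ⟨1480, -520, -960, 0⟩ ⟨1501, 664, 1531, -3696⟩, .q ⟨1473, -513, -960, 0⟩ ⟨-53, 336, -2966, 2683⟩, .q ⟨1480, -520, -960, 0⟩ ⟨-53, 336, -2966, 2683⟩] := by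
  refine rok_bys (s := -1) (nlo := 513) (nhi := 520) (q := 960) (by decide) (by decide) (by decide) (by decide) (z := 3) (by decide) TH_sc (k := 1) (by decide) (Q := [(0, 2000, 5067), (0, -250, 117), (1531, 3696, -664), (-2966, -2683, -336)])
    (P := [⟨-47278080, -960, 0⟩, ⟨47923200, 960, 0⟩, ⟨466974720, 0, 2000⟩, ⟨10782720, 0, -250⟩, ⟨-61194240, 1531, 3696⟩, ⟨-30965760, -2966, -2683⟩]) rfl rfl
    (List.mem_of_getElem? (i := 215) rfl) TH_fr TH_cov ?_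
  · intro X Y h
    simp only [List.forall_mem_cons, List.not_mem_nil, false_imp_iff, implies_true, and_true] at h
    push_cast at h ⊢
    obtain ⟨h0, h1, h2, h3, h4, h5⟩ := h
    refine ⟨⟨?_, ?_⟩, ?_, ?_⟩ <;> linarith

end Pool.Agent.TET
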