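import Pool.Agent.Helper38_TET.TH_C

/-!
# MP_c7c9bf_co: certificates, family TH
-/

set_option autoImplicit false
set_option maxRecDepth 100000

namespace Pool.Agent.TET

theorem TH_rg216 : ROK [.q ⟨-109, -131, 240, 0⟩ ⟨-371, 131, 240, 0⟩, .q ⟨107, 133, -240, 0⟩ ⟨-373, 133, 240, 0⟩, .q ⟨371, -131, -240, 0⟩ ⟨1186, 916, 1575, -3677⟩, .q ⟨373, -133, -240, 0⟩ ⟨1186, 916, 1575, -3677⟩, .q ⟨371, -131, -240, 0⟩ ⟨-954, -1148, -1575, 3677⟩, .q ⟨373, -133, -240, 0⟩ ⟨-954, -1148, -1575, 3677⟩, .q ⟨371, -131, -240, 0⟩ ⟨2529, 2543, -1284, -3788⟩, .q ⟨373, -133, -240, 0⟩ ⟨2529, 2543, -1284, -3788⟩] := by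
  refine rok_bys (s := -1) (nlo := 131) (nhi := 133) (q := 240) (by decide) (by decide) (by decide) (by decide) (z := 3) (by decide) TH_sc (k := 1) (by decide) (Q := [(1575, 3677, -916), (-1575, -3677, 1148), (-1284, 3788, -2543)])
    (P := [⟨-12072960, -240, 0⟩, ⟨12257280, 240, 0⟩, ⟨-84418560, 1575, 3677⟩, ⟨105799680, -1575, -3677⟩, ⟨-234362880, -1284, 3788⟩]) rfl rfl
    (List.mem_of_getElem? (i := 216) rfl) TH_fr TH_cov ?_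
  · intro X Y h
    simp only [List.forall_mem_cons, List.not_mem_nil, false_imp_iff, implies_true, and_true] at h
    push_cast at h ⊢
    obtain ⟨h0, h1, h2, h3, h4⟩ := h
    refine ⟨⟨?_, ?_⟩, ?_, ?_⟩ <;> linarith

theorem TH_rg217 : ROK [.q ⟨-217, -263, 480, 0⟩ ⟨-743, 263, 480, 0⟩, .q ⟨214, 266, -480, 0⟩ ⟨-746, 266, 480, 0⟩, .q ⟨743, -263, -480, 0⟩ ⟨2656, 2733, -1835, -3554⟩, .q ⟨746, -266, -480, 0⟩ ⟨2656, 2733, -1835, -3554⟩, .q ⟨743, -263, -480, 0⟩ ⟨-2432, -2957, 1835, 3554⟩, .q ⟨746, -266, -480, 0⟩ ⟨-2432, -2957, 1835, 3554⟩, .q ⟨743, -263, -480, 0⟩ ⟨541, 399, 864, -1804⟩, .q ⟨746, -266, -480, 0⟩ ⟨541, 399, 864, -1804⟩] := by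
  refine rok_bys (s := -1) (nlo := 263) (nhi := 266) (q := 480) (by decide) (by decide) (by decide) (by decide) (z := 3) (by decide) TH_sc (k := 1) (by decide) (Q := [(-1835, 3554, -2733), (1835, -3554, 2957), (864, 1804, -399)])
    (P := [⟨-24238080, -480, 0⟩, ⟨24514560, 480, 0⟩, ⟨-251873280, -1835, 3554⟩, ⟨272517120, 1835, -3554⟩, ⟨-36771840, 864, 1804⟩]) rfl rfl
    (List.mem_of_getElem? (i := 217) rfl) TH_fr TH_cov ?_
  · intro X Y h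
    simp only [List.forall_mem_cons, List.not_mem_nil, false_imp_iff, implies_true, and_true] at h
    push_cast at h ⊢
    obtain ⟨h0, h1, h2, h3, h4⟩ := h
    refine ⟨⟨?_, ?_⟩, ?_, ?_⟩ <;> linarith

theorem TH_rg218 : ROK [.q ⟨-434, -526, 960, 0⟩ ⟨-1486, 526, 960, 0⟩, .q ⟨427, 533, -960, 0⟩ ⟨-1493, 533, 960, 0⟩, .q ⟨1486, -526, -960, 0⟩ ⟨2611, 2662, -1613, -3660⟩, .q ⟨1493, -533, -960, 0⟩ ⟨2611, 2662, -1613, -3660⟩, .q ⟨1486, -526, -960, 0⟩ ⟨-526, -610, -2203, 3339⟩, .q ⟨1493, -533, -960, 0⟩ ⟨-526, -610, -2203, 3339⟩, .q ⟨1486, -526, -960, 0⟩ ⟨421, 68, 2573, -3062⟩, .q ⟨1493, -533, -960, 0⟩ ⟨421, 68, 2573, -3062⟩] := by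
  refine rok_bys (s := -1) (nlo := 526) (nhi := 533) (q := 960) (by decide) (by decide) (by decide) (by decide) (z := 3) (by decide) TH_sc (k := 1) (by decide) (Q := [(-1613, 3660, -2662), (-2203, -3339, 610), (2573, 3062, -68)])
    (P := [⟨-48476160, -960, 0⟩, ⟨49121280, 960, 0⟩, ⟨-245329920, -1613, 3660⟩, ⟨56217600, -2203, -3339⟩, ⟨-6266880, 2573, 3062⟩]) rfl rfl
    (List.mem_of_getElem? (i := 218) rfl) TH_fr TH_cov ?_
  · intro X Y h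
    simp only [List.forall_mem_cons, List.not_mem_nil, false_imp_iff, implies_true, and_true] at h
    push_cast at h ⊢
    obtain ⟨h0, h1, h2, h3, h4⟩ := h
    refine ⟨⟨?_, ?_⟩, ?_, ?_⟩ <;> linarith

theorem TH_rg219 : ROK [.q ⟨-145, -175, 320, 0⟩ ⟨-495, 175, 320, 0⟩, .q ⟨142, 178, -320, 0⟩ ⟨-498, 178, 320, 0⟩, .q ⟨495, -175, -320, 0⟩ ⟨2544, 2564, -1339, -3769⟩, .q ⟨498, -178, -320, 0⟩ ⟨2544, 2564, -1339, -3769⟩, .q ⟨495, -175, -320, 0⟩ ⟨-756, -889, -1884, 3529⟩, .q ⟨498, -178, -320, 0⟩ ⟨-756, -889, -1884, 3529⟩, .q ⟨495, -175, -320, 0⟩ ⟨1349, 1101, 1324, -3774⟩, .q ⟨498, -178, -320, 0⟩ ⟨1349, 1101, 1324, -3774⟩] := by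
  refine rok_bys (s := -1) (nlo := 175) (nhi := 178) (q := 320) (by decide) (by decide) (by decide) (by decide) (z := 3) (by decide) TH_sc (k := 1) (by decide) (Q := [(-1339, 3769, -2564), (-1884, -3529, 889), (1324, 3774, -1101)])
    (P := [⟨-16128000, -320, 0⟩, ⟨16404480, 320, 0⟩, ⟨-236298240, -1339, 3769⟩, ⟨81930240, -1884, -3529⟩, ⟨-101468160, 1324, 3774⟩]) rfl rfl
    (List.mem_of_getElem? (i := 219) rfl) TH_fr TH_cov ?_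
  · intro X Y h
    simp only [List.forall_mem_cons, List.not_mem_nil, false_imp_iff, implies_true, and_true] at h
    push_cast at h ⊢
    obtain ⟨h0, h1, h2, h3, h4⟩ := h
    refine ⟨⟨?_, ?_⟩, ?_, ?_⟩ <;> linarith

theorem TH_rg220 : ROK [.q ⟨-217, -263, 480, 0⟩ ⟨-743, 263, 480, 0⟩, .q ⟨214, 266, -480, 0⟩ ⟨-746, 266, 480, 0⟩, .q ⟨743, -263, -480, 0⟩ ⟨2023, 1895, 81, -3999⟩, .q ⟨746, -266, -480, 0⟩ ⟨2023, 1895, 81, -3999⟩, .q ⟨743, -263, -480, 0⟩ ⟨-1765, -2153, -81, 3999⟩, .q ⟨746, -266, -480, 0⟩ ⟨-1765, -2153, -81, 3999⟩, .q ⟨743, -263, -480, 0⟩ ⟨2673, 2922, -3212, -2383⟩, .q ⟨746, -266, -480, 0⟩ ⟨2673, 2922, -3212, -2383⟩] := by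
  refine rok_bys (s := -1) (nlo := 263) (nhi := 266) (q := 480) (by decide) (by decide) (by decide) (by decide) (z := 3) (by decide) TH_sc (k := 1) (by decide) (Q := [(81, 3999, -1895), (-81, -3999, 2153), (-3212, 2383, -2922)])
    (P := [⟨-24238080, -480, 0⟩, ⟨24514560, 480, 0⟩, ⟨-174643200, 81, 3999⟩, ⟨198420480, -81, -3999⟩, ⟨-269291520, -3212, 2383⟩]) rfl rfl
    (List.mem_of_getElem? (i := 220) rfl) TH_fr TH_cov ?_
  · intro X Y h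
    simp only [List.forall_mem_cons, List.not_mem_nil, false_imp_iff, implies_true, and_true] at h
    push_cast at h ⊢
    obtain ⟨h0, h1, h2, h3, h4⟩ := h
    refine ⟨⟨?_, ?_⟩, ?_, ?_⟩ <;> linarith

theorem TH_rg221 : ROK [.q ⟨-217, -263, 480, 0⟩ ⟨-743, 263, 480, 0⟩, .q ⟨213, 267, -480, 0⟩ ⟨-747, 267, 480, 0⟩, .q ⟨743, -263, -480, 0⟩ ⟨2378, 2340, -799, -3919⟩, .q ⟨747, -267, -480, 0⟩ ⟨2378, 2340, -799, -3919⟩, .q ⟨743, -263, -480, 0⟩ ⟨-2127, -2591, 799, 3919⟩, .q ⟨747, -267, -480, 0⟩ ⟨-2127, -2591, 799, 3919⟩, .q ⟨743, -263, -480, 0⟩ ⟨1503, 1278, 1073, -3854⟩, .q ⟨747, -267, -480, 0⟩ ⟨1503, 1278, 1073, -3854⟩] := by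
  refine rok_bys (s := -1) (nlo := 263) (nhi := 267) (q := 480) (by decide) (by decide) (by decide) (by decide) (z := 3) (by decide) TH_sc (k := 1) (by decide) (Q := [(-799, 3919, -2340), (799, -3919, 2591), (1073, 3854, -1278)])
    (P := [⟨-24238080, -480, 0⟩, ⟨24606720, 480, 0⟩, ⟨-215654400, -799, 3919⟩, ⟨238786560, 799, -3919⟩, ⟨-117780480, 1073, 3854⟩]) rfl rfl
    (List.mem_of_getElem? (i := 221) rfl) TH_fr TH_cov ?_
  · intro X Y h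
    simp only [List.forall_mem_cons, List.not_mem_nil, false_imp_iff, implies_true, and_true] at h
    push_cast at h ⊢
    obtain ⟨h0, h1, h2, h3, h4⟩ := h
    refine ⟨⟨?_, ?_⟩, ?_, ?_⟩ <;> linarith

theorem TH_rg222 : ROK [.q ⟨-145, -175, 320, 0⟩ ⟨-495, 175, 320, 0⟩, .q ⟨142, 178, -320, 0⟩ ⟨-498, 178, 320, 0⟩, .q ⟨495, -175, -320, 0⟩ ⟨259, 263, -152, -370⟩, .q ⟨498, -178, -320, 0⟩ ⟨259, 263, -152, -370⟩, .q ⟨495, -175, -320, 0⟩ ⟨-973, -1160, -1553, 3686⟩, .q ⟨498, -178, -320, 0⟩ ⟨-973, -1160, -1553, 3686⟩, .q ⟨495, -175, -320, 0⟩ ⟨1704, 1513, 718, -3935⟩, .q ⟨498, -178, -320, 0⟩ ⟨1704, 1513, 718, -3935⟩] := by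
  refine rok_bys (s := -1) (nlo := 175) (nhi := 178) (q := 320) (by decide) (by decide) (by decide) (by decide) (z := 3) (by decide) TH_sc (k := 1) (by decide) (Q := [(-152, 370, -263), (-1553, -3686, 1160), (718, 3935, -1513)])
    (P := [⟨-16128000, -320, 0⟩, ⟨16404480, 320, 0⟩, ⟨-24238080, -152, 370⟩, ⟨106905600, -1553, -3686⟩, ⟨-139438080, 718, 3935⟩]) rfl rfl
    (List.mem_of_getElem? (i := 222) rfl) TH_fr TH_cov ?_
  · intro X Y h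
    simp only [List.forall_mem_cons, List.not_mem_nil, false_imp_iff, implies_true, and_true] at h
    push_cast at h ⊢
    obtain ⟨h0, h1, h2, h3, h4⟩ := h
    refine ⟨⟨?_, ?_⟩, ?_, ?_⟩ <;> linarith

theorem TH_rg223 : ROK [.q ⟨-435, -525, 960, 0⟩ ⟨-1485, 525, 960, 0⟩, .q ⟨427, 533, -960, 0⟩ ⟨-1493, 533, 960, 0⟩, .q ⟨1485, -525, -960, 0⟩ ⟨1387, 1145, 1263, -3795⟩, .q ⟨1493, -533, -960, 0⟩ ⟨1387, 1145, 1263, -3795⟩, .q ⟨1485, -525, -960, 0⟩ ⟨-2335, -2836, 1439, 3732⟩, .q ⟨1493, -533, -960, 0⟩ ⟨-2335, -2836, 1439, 3732⟩, .q ⟨1485, -525, -960, 0⟩ ⟨2501, 2504, -1185, -3820⟩, .q ⟨1493, -533, -960, 0⟩ ⟨2501, 2504, -1185, -3820⟩] := by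
  refine rok_bys (s := -1) (nlo := 525) (nhi := 533) (q := 960) (by decide) (by decide) (by decide) (by decide) (z := 3) (by decide) TH_sc (k := 1) (by decide) (Q := [(1263, 3795, -1145), (1439, -3732, 2836), (-1185, 3820, -2504)])
    (P := [⟨-48384000, -960, 0⟩, ⟨49121280, 960, 0⟩, ⟨-105523200, 1263, 3795⟩, ⟨261365760, 1439, -3732⟩, ⟨-230768640, -1185, 3820⟩]) rfl rfl
    (List.mem_of_getElem? (i := 223) rfl) TH_fr TH_cov ?_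
  · intro X Y h
    simp only [List.forall_mem_cons, List.not_mem_nil, false_imp_iff, implies_true, and_true] at h
    push_cast at h ⊢
    obtain ⟨h0, h1, h2, h3, h4⟩ := h
    refine ⟨⟨?_, ?_⟩, ?_, ?_⟩ <;> linarith

theorem TH_rg224 : ROK [.q ⟨-217, -263, 480, 0⟩ ⟨-743, 263, 480, 0⟩, .q ⟨213, 267, -480, 0⟩ ⟨-747, 267, 480, 0⟩, .q ⟨743, -263, -480, 0⟩ ⟨2098, 1987, -86, -3999⟩, .q ⟨747, -267, -480, 0⟩ ⟨2098, 1987, -86, -3999⟩, .q ⟨743, -263, -480, 0⟩ ⟨-230, -233, -2587, 3050⟩, .q ⟨747, -267, -480, 0⟩ ⟨-230, -233, -2587, 3050⟩] := by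
  refine rok_bys (s := -1) (nlo := 263) (nhi := 267) (q := 480) (by decide) (by decide) (by decide) (by decide) (z := 3) (by decide) TH_sc (k := 1) (by decide) (Q := [(-86, 3999, -1987), (-2587, -3050, 233)])
    (P := [⟨-24238080, -480, 0⟩, ⟨24606720, 480, 0⟩, ⟨-183121920, -86, 3999⟩, ⟨21473280, -2587, -3050⟩]) rfl rfl
    (List.mem_of_getElem? (i := 224) rfl) TH_fr TH_cov ?_
  · intro X Y h
    simp only [List.forall_mem_cons, List.not_mem_nil, false_imp_iff, implies_true, and_true] at h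
    push_cast at h ⊢
    obtain ⟨h0, h1, h2, h3⟩ := h
    refine ⟨⟨?_, ?_⟩, ?_, ?_⟩ <;> linarith

theorem TH_rg225 : ROK [.q ⟨-435, -525, 960, 0⟩ ⟨-1485, 525, 960, 0⟩, .q ⟨427, 533, -960, 0⟩ ⟨-1493, 533, 960, 0⟩, .q ⟨1485, -525, -960, 0⟩ ⟨664, 333, 2286, -3283⟩, .q ⟨1493, -533, -960, 0⟩ ⟨664, 333, 2286, -3283⟩, .q ⟨1485, -525, -960, 0⟩ ⟨-464, -533, -2286, 3283⟩, .q ⟨1493, -533, -960, 0⟩ ⟨-464, -533, -2286, 3283⟩, .q ⟨1485, -525, -960, 0⟩ ⟨841, 845, -421, -1265⟩, .q ⟨1493, -533, -960, 0⟩ ⟨841, 845, -421, -1265⟩] := by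
  refine rok_bys (s := -1) (nlo := 525) (nhi := 533) (q := 960) (by decide) (by decide) (by decide) (by decide) (z := 3) (by decide) TH_sc (k := 1) (by decide) (Q := [(2286, 3283, -333), (-2286, -3283, 533), (-421, 1265, -845)])
    (P := [⟨-48384000, -960, 0⟩, ⟨49121280, 960, 0⟩, ⟨-30689280, 2286, 3283⟩, ⟨49121280, -2286, -3283⟩, ⟨-77875200, -421, 1265⟩]) rfl rfl
    (List.mem_of_getElem? (i := 225) rfl) TH_fr TH_cov ?_
  · intro X Y h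
    simp only [List.forall_mem_cons, List.not_mem_nil, false_imp_iff, implies_true, and_true] at h
    push_cast at h ⊢
    obtain ⟨h0, h1, h2, h3, h4⟩ := h
    refine ⟨⟨?_, ?_⟩, ?_, ?_⟩ <;> linarith

theorem TH_rg226 : ROK [.q ⟨-434, -526, 960, 0⟩ ⟨-1486, 526, 960, 0⟩, .q ⟨427, 533, -960, 0⟩ ⟨-1493, 533, 960, 0⟩, .q ⟨1486, -526, -960, 0⟩ ⟨2726, 2863, -2358, -3231⟩, .q ⟨1493, -533, -960, 0⟩ ⟨2726, 2863, -2358, -3231⟩, .q ⟨1486, -526, -960, 0⟩ ⟨-2524, -3065, 2358, 3231⟩, .q ⟨1493, -533, -960, 0⟩ ⟨-2524, -3065, 2358, 3231⟩, .q ⟨1486, -526, -960, 0⟩ ⟨783, 676, 482, -1941⟩, .q ⟨1493, -533, -960, 0⟩ ⟨783, 676, 482, -1941⟩] := by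
  refine rok_bys (s := -1) (nlo := 526) (nhi := 533) (q := 960) (by decide) (by decide) (by decide) (by decide) (z := 3) (by decide) TH_sc (k := 1) (by decide) (Q := [(-2358, 3231, -2863), (2358, -3231, 3065), (482, 1941, -676)])
    (P := [⟨-48476160, -960, 0⟩, ⟨49121280, 960, 0⟩, ⟨-263854080, -2358, 3231⟩, ⟨282470400, 2358, -3231⟩, ⟨-62300160, 482, 1941⟩]) rfl rfl
    (List.mem_of_getElem? (i := 226) rfl) TH_fr TH_cov ?_
  · intro X Y h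
    simp only [List.forall_mem_cons, List.not_mem_nil, false_imp_iff, implies_true, and_true] at h
    push_cast at h ⊢
    obtain ⟨h0, h1, h2, h3, h4⟩ := h
    refine ⟨⟨?_, ?_⟩, ?_, ?_⟩ <;> linarith

theorem TH_rg227 : ROK [.q ⟨-111, -129, 240, 0⟩ ⟨-369, 129, 240, 0⟩, .q ⟨107, 133, -240, 0⟩ ⟨-373, 133, 240, 0⟩, .q ⟨369, -129, -240, 0⟩ ⟨527, 473, 0, -1000⟩, .q ⟨373, -133, -240, 0⟩ ⟨527, 473, 0, -1000⟩, .q ⟨369, -129, -240, 0⟩ ⟨-1075, -772, -1750, 3597⟩, .q ⟨373, -133, -240, 0⟩ ⟨-1075, -772, -1750, 3597⟩, .q ⟨369, -129, -240, 0⟩ ⟨-383, -17, -2621, 3021⟩, .q ⟨373, -133, -240, 0⟩ ⟨-383, -17, -2621, 3021⟩] := by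
  refine rok_bys (s := -1) (nlo := 129) (nhi := 133) (q := 240) (by decide) (by decide) (by decide) (by decide) (z := 3) (by decide) TH_sc (k := 1) (by decide) (Q := [(0, 1000, -473), (-1750, -3597, 772), (-2621, -3021, 17)])
    (P := [⟨-11888640, -240, 0⟩, ⟨12257280, 240, 0⟩, ⟨-43591680, 0, 1000⟩, ⟨71147520, -1750, -3597⟩, ⟨1566720, -2621, -3021⟩]) rfl rfl
    (List.mem_of_getElem? (i := 227) rfl) TH_fr TH_cov ?_
  · intro X Y h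
    simp only [List.forall_mem_cons, List.not_mem_nil, false_imp_iff, implies_true, and_true] at h
    push_cast at h ⊢
    obtain ⟨h0, h1, h2, h3, h4⟩ := h
    refine ⟨⟨?_, ?_⟩, ?_, ?_⟩ <;> linarith

theorem TH_rg228 : ROK [.q ⟨-115, -125, 240, 0⟩ ⟨-365, 125, 240, 0⟩, .q ⟨109, 131, -240, 0⟩ ⟨-371, 131, 240, 0⟩, .q ⟨365, -125, -240, 0⟩ ⟨2399, 1601, 0, -4000⟩, .q ⟨371, -131, -240, 0⟩ ⟨2399, 1601, 0, -4000⟩, .q ⟨365, -125, -240, 0⟩ ⟨-2091, -1909, 0, 4000⟩, .q ⟨371, -131, -240, 0⟩ ⟨-2091, -1909, 0, 4000⟩, .q ⟨365, -125, -240, 0⟩ ⟨575, 966, -3492, 1951⟩, .q ⟨371, -131, -240, 0⟩ ⟨575, 966, -3492, 1951⟩] := by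
  refine rok_bys (s := -1) (nlo := 125) (nhi := 131) (q := 240) (by decide) (by decide) (by decide) (by decide) (z := 3) (by decide) TH_sc (k := 1) (by decide) (Q := [(0, 4000, -1601), (0, -4000, 1909), (-3492, -1951, -966)])
    (P := [⟨-11520000, -240, 0⟩, ⟨12072960, 240, 0⟩, ⟨-147548160, 0, 4000⟩, ⟨175933440, 0, -4000⟩, ⟨-89026560, -3492, -1951⟩]) rfl rfl
    (List.mem_of_getElem? (i := 228) rfl) TH_fr TH_cov ?_
  · intro X Y h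
    simp only [List.forall_mem_cons, List.not_mem_nil, false_imp_iff, implies_true, and_true] at h
    push_cast at h ⊢
    obtain ⟨h0, h1, h2, h3, h4⟩ := h
    refine ⟨⟨?_, ?_⟩, ?_, ?_⟩ <;> linarith

end Pool.Agent.TET
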