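import Pool.Agent.Helper38_TET.TI_C

/-!
# MP_c7c9bf_co: certificates, family TI
-/

set_option autoImplicit false
set_option maxRecDepth 100000

namespace Pool.Agent.TET

theorem TI_rg24 : ROK [.l ⟨0, 480, 0, -417⟩ ⟨0, 480, 0, 417⟩, .l ⟨0, -480, 0, 427⟩ ⟨0, 480, 0, 427⟩, .l ⟨0, 480, 0, -417⟩ ⟨0, 1149, 3832, 4448⟩, .l ⟨0, 480, 0, -427⟩ ⟨0, 1149, 3832, 4448⟩, .l ⟨0, 480, 0, -417⟩ ⟨0, -450, -1255, -1582⟩, .l ⟨0, 480, 0, -427⟩ ⟨0, -450, -1255, -1582⟩] := by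
  refine rok_dys (s := 1) (nlo := 417) (nhi := 427) (q := 480) (by decide) (by decide) (by decide) (by decide) (z := 3) (by decide) TI_sc (k := 1) (by decide) (Q := [(1149, 3832, -4448), (-450, -1255, 1582)])
    (P := [⟨-38430720, 480, 0⟩, ⟨39352320, -480, 0⟩, ⟨-409927680, 1149, 3832⟩, ⟨145797120, -450, -1255⟩]) rfl rfl
    (List.mem_of_getElem? (i := 24) rfl) TI_fr TI_cov ?_
  · intro X Y h
    simp only [List.forall_mem_cons, List.not_mem_nil, false_imp_iff, implies_true, and_true] at h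
    push_cast at h ⊢
    obtain ⟨h0, h1, h2, h3⟩ := h
    refine ⟨⟨?_, ?_⟩, ?_, ?_⟩ <;> linarith

theorem TI_rg25 : ROK [.l ⟨0, 480, 0, -417⟩ ⟨0, 480, 0, 417⟩, .l ⟨0, -480, 0, 424⟩ ⟨0, 480, 0, 424⟩, .l ⟨0, 480, 0, -417⟩ ⟨0, -2379, 3216, 511⟩, .l ⟨0, 480, 0, -424⟩ ⟨0, -2379, 3216, 511⟩, .l ⟨0, 480, 0, -417⟩ ⟨0, -594, -3956, -3827⟩, .l ⟨0, 480, 0, -424⟩ ⟨0, -594, -3956, -3827⟩] := by
  refine rok_dys (s := 1) (nlo := 417) (nhi := 424) (q := 480) (by decide) (by decide) (by decide) (by decide) (z := 3) (by decide) TI_sc (k := 1) (by decide) (Q := [(-2379, 3216, -511), (-594, -3956, 3827)])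
    (P := [⟨-38430720, 480, 0⟩, ⟨39075840, -480, 0⟩, ⟨-47093760, -2379, 3216⟩, ⟨352696320, -594, -3956⟩]) rfl rfl
    (List.mem_of_getElem? (i := 25) rfl) TI_fr TI_cov ?_
  · intro X Y h
    simp only [List.forall_mem_cons, List.not_mem_nil, false_imp_iff, implies_true, and_true] at h
    push_cast at h ⊢
    obtain ⟨h0, h1, h2, h3⟩ := h
    refine ⟨⟨?_, ?_⟩, ?_, ?_⟩ <;> linarith

theorem TI_rg26 : ROK [.l ⟨0, 960, 0, -838⟩ ⟨0, 960, 0, 838⟩, .l ⟨0, -960, 0, 845⟩ ⟨0, 960, 0, 845⟩, .l ⟨0, 960, 0, -838⟩ ⟨0, 902, 3897, 3914⟩, .l ⟨0, 960, 0, -845⟩ ⟨0, 902, 3897, 3914⟩, .l ⟨0, 960, 0, -838⟩ ⟨0, 199, -3995, -3169⟩, .l ⟨0, 960, 0, -845⟩ ⟨0, 199, -3995, -3169⟩] := by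
  refine rok_dys (s := 1) (nlo := 838) (nhi := 845) (q := 960) (by decide) (by decide) (by decide) (by decide) (z := 3) (by decide) TI_sc (k := 1) (by decide) (Q := [(902, 3897, -3914), (199, -3995, 3169)])
    (P := [⟨-77230080, 960, 0⟩, ⟨77875200, -960, 0⟩, ⟨-360714240, 902, 3897⟩, ⟨292055040, 199, -3995⟩]) rfl rfl
    (List.mem_of_getElem? (i := 26) rfl) TI_fr TI_cov ?_
  · intro X Y h
    simp only [List.forall_mem_cons, List.not_mem_nil, false_imp_iff, implies_true, and_true] at h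
    push_cast at h ⊢
    obtain ⟨h0, h1, h2, h3⟩ := h
    refine ⟨⟨?_, ?_⟩, ?_, ?_⟩ <;> linarith

theorem TI_rg27 : ROK [.l ⟨0, 480, 0, -430⟩ ⟨0, 480, 0, 430⟩, .l ⟨0, -480, 0, 437⟩ ⟨0, 480, 0, 437⟩, .l ⟨0, 480, 0, -430⟩ ⟨0, 576, 3958, 4015⟩, .l ⟨0, 480, 0, -437⟩ ⟨0, 576, 3958, 4015⟩, .l ⟨0, 480, 0, -430⟩ ⟨0, -576, -3958, -4275⟩, .l ⟨0, 480, 0, -437⟩ ⟨0, -576, -3958, -4275⟩, .l ⟨0, 480, 0, -430⟩ ⟨0, 2863, 2794, 5049⟩, .l ⟨0, 480, 0, -437⟩ ⟨0, 2863, 2794, 5049⟩] := by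
  refine rok_dys (s := 1) (nlo := 430) (nhi := 437) (q := 480) (by decide) (by decide) (by decide) (by decide) (z := 3) (by decide) TI_sc (k := 1) (by decide) (Q := [(576, 3958, -4015), (-576, -3958, 4275), (2863, 2794, -5049)])
    (P := [⟨-39628800, 480, 0⟩, ⟨40273920, -480, 0⟩, ⟨-370022400, 576, 3958⟩, ⟨393984000, -576, -3958⟩, ⟨-465315840, 2863, 2794⟩]) rfl rfl
    (List.mem_of_getElem? (i := 27) rfl) TI_fr TI_cov ?_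
  · intro X Y h
    simp only [List.forall_mem_cons, List.not_mem_nil, false_imp_iff, implies_true, and_true] at h
    push_cast at h ⊢
    obtain ⟨h0, h1, h2, h3, h4⟩ := h
    refine ⟨⟨?_, ?_⟩, ?_, ?_⟩ <;> linarith

theorem TI_rg28 : ROK [.l ⟨0, 80, 0, -69⟩ ⟨0, 80, 0, 69⟩, .l ⟨0, -80, 0, 72⟩ ⟨0, 80, 0, 72⟩, .l ⟨0, 80, 0, -69⟩ ⟨0, 433, 3976, 3935⟩, .l ⟨0, 80, 0, -72⟩ ⟨0, 433, 3976, 3935⟩, .l ⟨0, 80, 0, -69⟩ ⟨0, -433, -3976, -4149⟩, .l ⟨0, 80, 0, -72⟩ ⟨0, -433, -3976, -4149⟩, .l ⟨0, 80, 0, -69⟩ ⟨0, 2500, 3122, 4983⟩, .l ⟨0, 80, 0, -72⟩ ⟨0, 2500, 3122, 4983⟩] := by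
  refine rok_dys (s := 1) (nlo := 69) (nhi := 72) (q := 80) (by decide) (by decide) (by decide) (by decide) (z := 3) (by decide) TI_sc (k := 1) (by decide) (Q := [(433, 3976, -3935), (-433, -3976, 4149), (2500, 3122, -4983)])
    (P := [⟨-6359040, 80, 0⟩, ⟨6635520, -80, 0⟩, ⟨-362649600, 433, 3976⟩, ⟨382371840, -433, -3976⟩, ⟨-459233280, 2500, 3122⟩]) rfl rfl
    (List.mem_of_getElem? (i := 28) rfl) TI_fr TI_cov ?_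
  · intro X Y h
    simp only [List.forall_mem_cons, List.not_mem_nil, false_imp_iff, implies_true, and_true] at h
    push_cast at h ⊢
    obtain ⟨h0, h1, h2, h3, h4⟩ := h
    refine ⟨⟨?_, ?_⟩, ?_, ?_⟩ <;> linarith

theorem TI_rg29 : ROK [.l ⟨0, 960, 0, -865⟩ ⟨0, 960, 0, 865⟩, .l ⟨0, -960, 0, 874⟩ ⟨0, 960, 0, 874⟩, .l ⟨0, 960, 0, -865⟩ ⟨0, -1177, 3823, 2303⟩, .l ⟨0, 960, 0, -874⟩ ⟨0, -1177, 3823, 2303⟩, .l ⟨0, 960, 0, -865⟩ ⟨0, 1177, -3823, -2559⟩, .l ⟨0, 960, 0, -874⟩ ⟨0, 1177, -3823, -2559⟩, .l ⟨0, 960, 0, -865⟩ ⟨0, 2427, 3180, 5000⟩, .l ⟨0, 960, 0, -874⟩ ⟨0, 2427, 3180, 5000⟩] := by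
  refine rok_dys (s := 1) (nlo := 865) (nhi := 874) (q := 960) (by decide) (by decide) (by decide) (by decide) (z := 3) (by decide) TI_sc (k := 1) (by decide) (Q := [(-1177, 3823, -2303), (1177, -3823, 2559), (2427, 3180, -5000)])
    (P := [⟨-79718400, 960, 0⟩, ⟨80547840, -960, 0⟩, ⟨-212244480, -1177, 3823⟩, ⟨235837440, 1177, -3823⟩, ⟨-460800000, 2427, 3180⟩]) rfl rfl
    (List.mem_of_getElem? (i := 29) rfl) TI_fr TI_cov ?_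
  · intro X Y h
    simp only [List.forall_mem_cons, List.not_mem_nil, false_imp_iff, implies_true, and_true] at h
    push_cast at h ⊢
    obtain ⟨h0, h1, h2, h3, h4⟩ := h
    refine ⟨⟨?_, ?_⟩, ?_, ?_⟩ <;> linarith

theorem TI_rg30 : ROK [.l ⟨0, 960, 0, -853⟩ ⟨0, 960, 0, 853⟩, .l ⟨0, -960, 0, 861⟩ ⟨0, 960, 0, 861⟩, .l ⟨0, 960, 0, -853⟩ ⟨0, 0, 2000, -4333⟩, .l ⟨0, 960, 0, -861⟩ ⟨0, 0, 2000, -4333⟩, .l ⟨0, 960, 0, -853⟩ ⟨0, 0, -4000, -3349⟩, .l ⟨0, 960, 0, -861⟩ ⟨0, 0, -4000, -3349⟩, .l ⟨0, 960, 0, -853⟩ ⟨0, 2369, 3223, 4708⟩, .l ⟨0, 960, 0, -861⟩ ⟨0, 2369, 3223, 4708⟩] := by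
  refine rok_dys (s := 1) (nlo := 853) (nhi := 861) (q := 960) (by decide) (by decide) (by decide) (by decide) (z := 3) (by decide) TI_sc (k := 1) (by decide) (Q := [(0, 2000, 4333), (0, -4000, 3349), (2369, 3223, -4708)])
    (P := [⟨-78612480, 960, 0⟩, ⟨79349760, -960, 0⟩, ⟨399329280, 0, 2000⟩, ⟨308643840, 0, -4000⟩, ⟨-433889280, 2369, 3223⟩]) rfl rfl
    (List.mem_of_getElem? (i := 30) rfl) TI_fr TI_cov ?_
  · intro X Y h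
    simp only [List.forall_mem_cons, List.not_mem_nil, false_imp_iff, implies_true, and_true] at h
    push_cast at h ⊢
    obtain ⟨h0, h1, h2, h3, h4⟩ := h
    refine ⟨⟨?_, ?_⟩, ?_, ?_⟩ <;> linarith

theorem TI_rg31 : ROK [.l ⟨0, 960, 0, -847⟩ ⟨0, 960, 0, 847⟩, .l ⟨0, -960, 0, 853⟩ ⟨0, 960, 0, 853⟩, .l ⟨0, 960, 0, -847⟩ ⟨0, 221, 3994, 3751⟩, .l ⟨0, 960, 0, -853⟩ ⟨0, 221, 3994, 3751⟩, .l ⟨0, 960, 0, -847⟩ ⟨0, 3, -4000, -3796⟩, .l ⟨0, 960, 0, -853⟩ ⟨0, 3, -4000, -3796⟩, .l ⟨0, 960, 0, -847⟩ ⟨0, 3459, 2008, 4849⟩, .l ⟨0, 960, 0, -853⟩ ⟨0, 3459, 2008, 4849⟩] := by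
  refine rok_dys (s := 1) (nlo := 847) (nhi := 853) (q := 960) (by decide) (by decide) (by decide) (by decide) (z := 3) (by decide) TI_sc (k := 1) (by decide) (Q := [(221, 3994, -3751), (3, -4000, 3796), (3459, 2008, -4849)])
    (P := [⟨-78059520, 960, 0⟩, ⟨78612480, -960, 0⟩, ⟨-345692160, 221, 3994⟩, ⟨349839360, 3, -4000⟩, ⟨-446883840, 3459, 2008⟩]) rfl rfl
    (List.mem_of_getElem? (i := 31) rfl) TI_fr TI_cov ?_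
  · intro X Y h
    simp only [List.forall_mem_cons, List.not_mem_nil, false_imp_iff, implies_true, and_true] at h
    push_cast at h ⊢
    obtain ⟨h0, h1, h2, h3, h4⟩ := h
    refine ⟨⟨?_, ?_⟩, ?_, ?_⟩ <;> linarith

theorem TI_rg32 : ROK [.l ⟨0, 240, 0, -209⟩ ⟨0, 240, 0, 209⟩, .l ⟨0, -240, 0, 214⟩ ⟨0, 240, 0, 214⟩, .l ⟨0, 240, 0, -209⟩ ⟨0, 0, 4000, 3201⟩, .l ⟨0, 240, 0, -214⟩ ⟨0, 0, 4000, 3201⟩, .l ⟨0, 240, 0, -209⟩ ⟨0, 0, -4000, -3349⟩, .l ⟨0, 240, 0, -214⟩ ⟨0, 0, -4000, -3349⟩] := by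
  refine rok_dys (s := 1) (nlo := 209) (nhi := 214) (q := 240) (by decide) (by decide) (by decide) (by decide) (z := 3) (by decide) TI_sc (k := 1) (by decide) (Q := [(0, 4000, -3201), (0, -4000, 3349)])
    (P := [⟨-19261440, 240, 0⟩, ⟨19722240, -240, 0⟩, ⟨-295004160, 0, 4000⟩, ⟨308643840, 0, -4000⟩]) rfl rfl
    (List.mem_of_getElem? (i := 32) rfl) TI_fr TI_cov ?_
  · intro X Y h
    simp only [List.forall_mem_cons, List.not_mem_nil, false_imp_iff, implies_true, and_true] at h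
    push_cast at h ⊢
    obtain ⟨h0, h1, h2, h3⟩ := h
    refine ⟨⟨?_, ?_⟩, ?_, ?_⟩ <;> linarith

theorem TI_rg33 : ROK [.l ⟨0, 120, 0, -103⟩ ⟨0, 120, 0, 103⟩, .l ⟨0, -120, 0, 104⟩ ⟨0, 120, 0, 104⟩, .l ⟨0, 120, 0, -103⟩ ⟨0, -1225, 1581, -5742⟩, .l ⟨0, 120, 0, -104⟩ ⟨0, -1225, 1581, -5742⟩, .l ⟨0, 120, 0, -103⟩ ⟨0, 1225, -1581, -266⟩, .l ⟨0, 120, 0, -104⟩ ⟨0, 1225, -1581, -266⟩, .l ⟨0, 120, 0, -103⟩ ⟨0, -1594, 3669, 1569⟩, .l ⟨0, 120, 0, -104⟩ ⟨0, -1594, 3669, 1569⟩, .l ⟨0, 120, 0, -103⟩ ⟨0, 139, -3998, -3220⟩, .l ⟨0, 120, 0, -104⟩ ⟨0, 139, -3998, -3220⟩] := by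
  refine rok_dys (s := 1) (nlo := 103) (nhi := 104) (q := 120) (by decide) (by decide) (by decide) (by decide) (z := 3) (by decide) TI_sc (k := 1) (by decide) (Q := [(-1225, 1581, 5742), (1225, -1581, 266), (-1594, 3669, -1569), (139, -3998, 3220)])
    (P := [⟨-9492480, 120, 0⟩, ⟨9584640, -120, 0⟩, ⟨529182720, -1225, 1581⟩, ⟨24514560, 1225, -1581⟩, ⟨-144599040, -1594, 3669⟩, ⟨296755200, 139, -3998⟩]) rfl rfl
    (List.mem_of_getElem? (i := 33) rfl) TI_fr TI_cov ?_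
  · intro X Y h
    simp only [List.forall_mem_cons, List.not_mem_nil, false_imp_iff, implies_true, and_true] at h
    push_cast at h ⊢
    obtain ⟨h0, h1, h2, h3, h4, h5⟩ := h
    refine ⟨⟨?_, ?_⟩, ?_, ?_⟩ <;> linarith

theorem TI_rg34 : ROK [.l ⟨0, 240, 0, -207⟩ ⟨0, 240, 0, 207⟩, .l ⟨0, -240, 0, 211⟩ ⟨0, 240, 0, 211⟩, .l ⟨0, 240, 0, -207⟩ ⟨0, 1738, 3603, 4383⟩, .l ⟨0, 240, 0, -211⟩ ⟨0, 1738, 3603, 4383⟩, .l ⟨0, 240, 0, -207⟩ ⟨0, -1738, -3603, -4531⟩, .l ⟨0, 240, 0, -211⟩ ⟨0, -1738, -3603, -4531⟩, .l ⟨0, 240, 0, -207⟩ ⟨0, -3725, 1459, -2045⟩, .l ⟨0, 240, 0, -211⟩ ⟨0, -3725, 1459, -2045⟩, .l ⟨0, 240, 0, -207⟩ ⟨0, 1416, -3741, -1898⟩, .l ⟨0, 240, 0, -211⟩ ⟨0, 1416, -3741, -1898⟩] := by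
  refine rok_dys (s := 1) (nlo := 207) (nhi := 211) (q := 240) (by decide) (by decide) (by decide) (by decide) (z := 3) (by decide) TI_sc (k := 1) (by decide) (Q := [(1738, 3603, -4383), (-1738, -3603, 4531), (-3725, 1459, 2045), (1416, -3741, 1898)])
    (P := [⟨-19077120, 240, 0⟩, ⟨19445760, -240, 0⟩, ⟨-403937280, 1738, 3603⟩, ⟨417576960, -1738, -3603⟩, ⟨188467200, -3725, 1459⟩, ⟨174919680, 1416, -3741⟩]) rfl rfl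
    (List.mem_of_getElem? (i := 34) rfl) TI_fr TI_cov ?_
  · intro X Y h
    simp only [List.forall_mem_cons, List.not_mem_nil, false_imp_iff, implies_true, and_true] at h
    push_cast at h ⊢
    obtain ⟨h0, h1, h2, h3, h4, h5⟩ := h
    refine ⟨⟨?_, ?_⟩, ?_, ?_⟩ <;> linarith

theorem TI_rg35 : ROK [.l ⟨0, 960, 0, -853⟩ ⟨0, 960, 0, 853⟩, .l ⟨0, -960, 0, 864⟩ ⟨0, 960, 0, 864⟩, .l ⟨0, 960, 0, -853⟩ ⟨0, 1343, 3768, 4545⟩, .l ⟨0, 960, 0, -864⟩ ⟨0, 1343, 3768, 4545⟩, .l ⟨0, 960, 0, -853⟩ ⟨0, -1414, -3742, -4809⟩, .l ⟨0, 960, 0, -864⟩ ⟨0, -1414, -3742, -4809⟩] := by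
  refine rok_dys (s := 1) (nlo := 853) (nhi := 864) (q := 960) (by decide) (by decide) (by decide) (by decide) (z := 3) (by decide) TI_sc (k := 1) (by decide) (Q := [(1343, 3768, -4545), (-1414, -3742, 4809)])
    (P := [⟨-78612480, 960, 0⟩, ⟨79626240, -960, 0⟩, ⟨-418867200, 1343, 3768⟩, ⟨443197440, -1414, -3742⟩]) rfl rfl
    (List.mem_of_getElem? (i := 35) rfl) TI_fr TI_cov ?_
  · intro X Y h
    simp only [List.forall_mem_cons, List.not_mem_nil, false_imp_iff, implies_true, and_true] at h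
    push_cast at h ⊢
    obtain ⟨h0, h1, h2, h3⟩ := h
    refine ⟨⟨?_, ?_⟩, ?_, ?_⟩ <;> linarith

theorem TI_rg36 : ROK [.l ⟨0, 480, 0, -419⟩ ⟨0, 480, 0, 419⟩, .l ⟨0, -480, 0, 429⟩ ⟨0, 480, 0, 429⟩, .l ⟨0, 480, 0, -419⟩ ⟨0, 0, 4000, 3201⟩, .l ⟨0, 480, 0, -429⟩ ⟨0, 0, 4000, 3201⟩, .l ⟨0, 480, 0, -419⟩ ⟨0, 0, -4000, -3349⟩, .l ⟨0, 480, 0, -429⟩ ⟨0, 0, -4000, -3349⟩] := by
  refine rok_dys (s := 1) (nlo := 419) (nhi := 429) (q := 480) (by decide) (by decide) (by decide) (by decide) (z := 3) (by decide) TI_sc (k := 1) (by decide) (Q := [(0, 4000, -3201), (0, -4000, 3349)])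
    (P := [⟨-38615040, 480, 0⟩, ⟨39536640, -480, 0⟩, ⟨-295004160, 0, 4000⟩, ⟨308643840, 0, -4000⟩]) rfl rfl
    (List.mem_of_getElem? (i := 36) rfl) TI_fr TI_cov ?_
  · intro X Y h
    simp only [List.forall_mem_cons, List.not_mem_nil, false_imp_iff, implies_true, and_true] at h
    push_cast at h ⊢
    obtain ⟨h0, h1, h2, h3⟩ := h
    refine ⟨⟨?_, ?_⟩, ?_, ?_⟩ <;> linarith

theorem TI_rg37 : ROK [.l ⟨0, 480, 0, -427⟩ ⟨0, 480, 0, 427⟩, .l ⟨0, -480, 0, 434⟩ ⟨0, 480, 0, 434⟩, .l ⟨0, 480, 0, -427⟩ ⟨0, 0, 200, -389⟩, .l ⟨0, 480, 0, -434⟩ ⟨0, 0, 200, -389⟩, .l ⟨0, 480, 0, -427⟩ ⟨0, 0, -4000, -3349⟩, .l ⟨0, 480, 0, -434⟩ ⟨0, 0, -4000, -3349⟩, .l ⟨0, 480, 0, -427⟩ ⟨0, -90, 1998, 1519⟩, .l ⟨0, 480, 0, -434⟩ ⟨0, -90, 1998, 1519⟩] := by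
  refine rok_dys (s := 1) (nlo := 427) (nhi := 434) (q := 480) (by decide) (by decide) (by decide) (by decide) (z := 3) (by decide) TI_sc (k := 1) (by decide) (Q := [(0, 200, 389), (0, -4000, 3349), (-90, 1998, -1519)])
    (P := [⟨-39352320, 480, 0⟩, ⟨39997440, -480, 0⟩, ⟨35850240, 0, 200⟩, ⟨308643840, 0, -4000⟩, ⟨-139991040, -90, 1998⟩]) rfl rfl
    (List.mem_of_getElem? (i := 37) rfl) TI_fr TI_cov ?_
  · intro X Y h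
    simp only [List.forall_mem_cons, List.not_mem_nil, false_imp_iff, implies_true, and_true] at h
    push_cast at h ⊢
    obtain ⟨h0, h1, h2, h3, h4⟩ := h
    refine ⟨⟨?_, ?_⟩, ?_, ?_⟩ <;> linarith

theorem TI_rg38 : ROK [.l ⟨0, 240, 0, -207⟩ ⟨0, 240, 0, 207⟩, .l ⟨0, -240, 0, 211⟩ ⟨0, 240, 0, 211⟩, .l ⟨0, 240, 0, -207⟩ ⟨0, -79, 796, 569⟩, .l ⟨0, 240, 0, -211⟩ ⟨0, -79, 796, 569⟩, .l ⟨0, 240, 0, -207⟩ ⟨0, 395, -3980, -2984⟩, .l ⟨0, 240, 0, -211⟩ ⟨0, 395, -3980, -2984⟩] := by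
  refine rok_dys (s := 1) (nlo := 207) (nhi := 211) (q := 240) (by decide) (by decide) (by decide) (by decide) (z := 3) (by decide) TI_sc (k := 1) (by decide) (Q := [(-79, 796, -569), (395, -3980, 2984)])
    (P := [⟨-19077120, 240, 0⟩, ⟨19445760, -240, 0⟩, ⟨-52439040, -79, 796⟩, ⟨275005440, 395, -3980⟩]) rfl rfl
    (List.mem_of_getElem? (i := 38) rfl) TI_fr TI_cov ?_
  · intro X Y h
    simp only [List.forall_mem_cons, List.not_mem_nil, false_imp_iff, implies_true, and_true] at h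
    push_cast at h ⊢
    obtain ⟨h0, h1, h2, h3⟩ := h
    refine ⟨⟨?_, ?_⟩, ?_, ?_⟩ <;> linarith

theorem TI_rg39 : ROK [.l ⟨0, 960, 0, -847⟩ ⟨0, 960, 0, 847⟩, .l ⟨0, -960, 0, 857⟩ ⟨0, 960, 0, 857⟩, .l ⟨0, 960, 0, -847⟩ ⟨0, 2529, 3099, -3527⟩, .l ⟨0, 960, 0, -857⟩ ⟨0, 2529, 3099, -3527⟩, .l ⟨0, 960, 0, -847⟩ ⟨0, -843, -1033, -1724⟩, .l ⟨0, 960, 0, -857⟩ ⟨0, -843, -1033, -1724⟩, .l ⟨0, 960, 0, -847⟩ ⟨0, 1190, 3819, 4455⟩, .l ⟨0, 960, 0, -857⟩ ⟨0, 1190, 3819, 4455⟩] := by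
  refine rok_dys (s := 1) (nlo := 847) (nhi := 857) (q := 960) (by decide) (by decide) (by decide) (by decide) (z := 3) (by decide) TI_sc (k := 1) (by decide) (Q := [(2529, 3099, 3527), (-843, -1033, 1724), (1190, 3819, -4455)])
    (P := [⟨-78059520, 960, 0⟩, ⟨78981120, -960, 0⟩, ⟨325048320, 2529, 3099⟩, ⟨158883840, -843, -1033⟩, ⟨-410572800, 1190, 3819⟩]) rfl rfl
    (List.mem_of_getElem? (i := 39) rfl) TI_fr TI_cov ?_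
  · intro X Y h
    simp only [List.forall_mem_cons, List.not_mem_nil, false_imp_iff, implies_true, and_true] at h
    push_cast at h ⊢
    obtain ⟨h0, h1, h2, h3, h4⟩ := h
    refine ⟨⟨?_, ?_⟩, ?_, ?_⟩ <;> linarith

theorem TI_rg40 : ROK [.l ⟨0, 960, 0, -846⟩ ⟨0, 960, 0, 846⟩, .l ⟨0, -960, 0, 853⟩ ⟨0, 960, 0, 853⟩, .l ⟨0, 960, 0, -846⟩ ⟨0, 0, 4000, 3201⟩, .l ⟨0, 960, 0, -853⟩ ⟨0, 0, 4000, 3201⟩, .l ⟨0, 960, 0, -846⟩ ⟨0, 0, -4000, -3349⟩, .l ⟨0, 960, 0, -853⟩ ⟨0, 0, -4000, -3349⟩] := by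
  refine rok_dys (s := 1) (nlo := 846) (nhi := 853) (q := 960) (by decide) (by decide) (by decide) (by decide) (z := 3) (by decide) TI_sc (k := 1) (by decide) (Q := [(0, 4000, -3201), (0, -4000, 3349)])
    (P := [⟨-77967360, 960, 0⟩, ⟨78612480, -960, 0⟩, ⟨-295004160, 0, 4000⟩, ⟨308643840, 0, -4000⟩]) rfl rfl
    (List.mem_of_getElem? (i := 40) rfl) TI_fr TI_cov ?_
  · intro X Y h
    simp only [List.forall_mem_cons, List.not_mem_nil, false_imp_iff, implies_true, and_true] at h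
    push_cast at h ⊢
    obtain ⟨h0, h1, h2, h3⟩ := h
    refine ⟨⟨?_, ?_⟩, ?_, ?_⟩ <;> linarith

theorem TI_rg41 : ROK [.l ⟨0, 320, 0, -286⟩ ⟨0, 320, 0, 286⟩, .l ⟨0, -320, 0, 289⟩ ⟨0, 320, 0, 289⟩, .l ⟨0, 320, 0, -286⟩ ⟨0, 2725, 2928, 5038⟩, .l ⟨0, 320, 0, -289⟩ ⟨0, 2725, 2928, 5038⟩, .l ⟨0, 320, 0, -286⟩ ⟨0, -2185, -3350, -5131⟩, .l ⟨0, 320, 0, -289⟩ ⟨0, -2185, -3350, -5131⟩, .l ⟨0, 320, 0, -286⟩ ⟨0, -1092, 3848, 2423⟩, .l ⟨0, 320, 0, -289⟩ ⟨0, -1092, 3848, 2423⟩] := by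
  refine rok_dys (s := 1) (nlo := 286) (nhi := 289) (q := 320) (by decide) (by decide) (by decide) (by decide) (z := 3) (by decide) TI_sc (k := 1) (by decide) (Q := [(2725, 2928, -5038), (-2185, -3350, 5131), (-1092, 3848, -2423)])
    (P := [⟨-26357760, 320, 0⟩, ⟨26634240, -320, 0⟩, ⟨-464302080, 2725, 2928⟩, ⟨472872960, -2185, -3350⟩, ⟨-223303680, -1092, 3848⟩]) rfl rfl
    (List.mem_of_getElem? (i := 41) rfl) TI_fr TI_cov ?_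
  · intro X Y h
    simp only [List.forall_mem_cons, List.not_mem_nil, false_imp_iff, implies_true, and_true] at h
    push_cast at h ⊢
    obtain ⟨h0, h1, h2, h3, h4⟩ := h
    refine ⟨⟨?_, ?_⟩, ?_, ?_⟩ <;> linarith

theorem TI_rg42 : ROK [.l ⟨0, 40, 0, -35⟩ ⟨0, 40, 0, 35⟩, .l ⟨0, -40, 0, 37⟩ ⟨0, 40, 0, 37⟩, .l ⟨0, 40, 0, -35⟩ ⟨0, -304, 3988, 3219⟩, .l ⟨0, 40, 0, -37⟩ ⟨0, -304, 3988, 3219⟩, .l ⟨0, 40, 0, -35⟩ ⟨0, 152, -1994, -1753⟩, .l ⟨0, 40, 0, -37⟩ ⟨0, 152, -1994, -1753⟩, .l ⟨0, 40, 0, -35⟩ ⟨0, 1985, 3473, 4862⟩, .l ⟨0, 40, 0, -37⟩ ⟨0, 1985, 3473, 4862⟩] := by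
  refine rok_dys (s := 1) (nlo := 35) (nhi := 37) (q := 40) (by decide) (by decide) (by decide) (by decide) (z := 3) (by decide) TI_sc (k := 1) (by decide) (Q := [(-304, 3988, -3219), (152, -1994, 1753), (1985, 3473, -4862)])
    (P := [⟨-3225600, 40, 0⟩, ⟨3409920, -40, 0⟩, ⟨-296663040, -304, 3988⟩, ⟨161556480, 152, -1994⟩, ⟨-448081920, 1985, 3473⟩]) rfl rfl
    (List.mem_of_getElem? (i := 42) rfl) TI_fr TI_cov ?_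
  · intro X Y h
    simp only [List.forall_mem_cons, List.not_mem_nil, false_imp_iff, implies_true, and_true] at h
    push_cast at h ⊢
    obtain ⟨h0, h1, h2, h3, h4⟩ := h
    refine ⟨⟨?_, ?_⟩, ?_, ?_⟩ <;> linarith

theorem TI_rg43 : ROK [.l ⟨0, 480, 0, -425⟩ ⟨0, 480, 0, 425⟩, .l ⟨0, -480, 0, 433⟩ ⟨0, 480, 0, 433⟩, .l ⟨0, 480, 0, -425⟩ ⟨0, 699, 3938, 4116⟩, .l ⟨0, 480, 0, -433⟩ ⟨0, 699, 3938, 4116⟩, .l ⟨0, 480, 0, -425⟩ ⟨0, -699, -3938, -4358⟩, .l ⟨0, 480, 0, -433⟩ ⟨0, -699, -3938, -4358⟩, .l ⟨0, 480, 0, -425⟩ ⟨0, 2083, 3415, 4890⟩, .l ⟨0, 480, 0, -433⟩ ⟨0, 2083, 3415, 4890⟩] := by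
  refine rok_dys (s := 1) (nlo := 425) (nhi := 433) (q := 480) (by decide) (by decide) (by decide) (by decide) (z := 3) (by decide) TI_sc (k := 1) (by decide) (Q := [(699, 3938, -4116), (-699, -3938, 4358), (2083, 3415, -4890)])
    (P := [⟨-39168000, 480, 0⟩, ⟨39905280, -480, 0⟩, ⟨-379330560, 699, 3938⟩, ⟨401633280, -699, -3938⟩, ⟨-450662400, 2083, 3415⟩]) rfl rfl
    (List.mem_of_getElem? (i := 43) rfl) TI_fr TI_cov ?_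
  · intro X Y h
    simp only [List.forall_mem_cons, List.not_mem_nil, false_imp_iff, implies_true, and_true] at h
    push_cast at h ⊢
    obtain ⟨h0, h1, h2, h3, h4⟩ := h
    refine ⟨⟨?_, ?_⟩, ?_, ?_⟩ <;> linarith

theorem TI_rg44 : ROK [.l ⟨0, 480, 0, -417⟩ ⟨0, 480, 0, 417⟩, .l ⟨0, -480, 0, 424⟩ ⟨0, 480, 0, 424⟩, .l ⟨0, 480, 0, -417⟩ ⟨0, 0, 4000, 3201⟩, .l ⟨0, 480, 0, -424⟩ ⟨0, 0, 4000, 3201⟩, .l ⟨0, 480, 0, -417⟩ ⟨0, 0, -1000, -837⟩, .l ⟨0, 480, 0, -424⟩ ⟨0, 0, -1000, -837⟩] := by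
  refine rok_dys (s := 1) (nlo := 417) (nhi := 424) (q := 480) (by decide) (by decide) (by decide) (by decide) (z := 3) (by decide) TI_sc (k := 1) (by decide) (Q := [(0, 4000, -3201), (0, -1000, 837)])
    (P := [⟨-38430720, 480, 0⟩, ⟨39075840, -480, 0⟩, ⟨-295004160, 0, 4000⟩, ⟨77137920, 0, -1000⟩]) rfl rfl
    (List.mem_of_getElem? (i := 44) rfl) TI_fr TI_cov ?_
  · intro X Y h
    simp only [List.forall_mem_cons, List.not_mem_nil, false_imp_iff, implies_true, and_true] at h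
    push_cast at h ⊢
    obtain ⟨h0, h1, h2, h3⟩ := h
    refine ⟨⟨?_, ?_⟩, ?_, ?_⟩ <;> linarith

theorem TI_rg45 : ROK [.l ⟨0, 960, 0, -847⟩ ⟨0, 960, 0, 847⟩, .l ⟨0, -960, 0, 853⟩ ⟨0, 960, 0, 853⟩, .l ⟨0, 960, 0, -847⟩ ⟨0, 0, 4000, -8667⟩, .l ⟨0, 960, 0, -853⟩ ⟨0, 0, 4000, -8667⟩, .l ⟨0, 960, 0, -847⟩ ⟨0, 0, -4000, -3349⟩, .l ⟨0, 960, 0, -853⟩ ⟨0, 0, -4000, -3349⟩, .l ⟨0, 960, 0, -847⟩ ⟨0, 3521, 1897, 4649⟩, .l ⟨0, 960, 0, -853⟩ ⟨0, 3521, 1897, 4649⟩] := by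
  refine rok_dys (s := 1) (nlo := 847) (nhi := 853) (q := 960) (by decide) (by decide) (by decide) (by decide) (z := 3) (by decide) TI_sc (k := 1) (by decide) (Q := [(0, 4000, 8667), (0, -4000, 3349), (3521, 1897, -4649)])
    (P := [⟨-78059520, 960, 0⟩, ⟨78612480, -960, 0⟩, ⟨798750720, 0, 4000⟩, ⟨308643840, 0, -4000⟩, ⟨-428451840, 3521, 1897⟩]) rfl rfl
    (List.mem_of_getElem? (i := 45) rfl) TI_fr TI_cov ?_
  · intro X Y h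
    simp only [List.forall_mem_cons, List.not_mem_nil, false_imp_iff, implies_true, and_true] at h
    push_cast at h ⊢
    obtain ⟨h0, h1, h2, h3, h4⟩ := h
    refine ⟨⟨?_, ?_⟩, ?_, ?_⟩ <;> linarith

theorem TI_rg46 : ROK [.l ⟨0, 960, 0, -869⟩ ⟨0, 960, 0, 869⟩, .l ⟨0, -960, 0, 876⟩ ⟨0, 960, 0, 876⟩, .l ⟨0, 960, 0, -869⟩ ⟨0, 1066, 3855, 4362⟩, .l ⟨0, 960, 0, -876⟩ ⟨0, 1066, 3855, 4362⟩, .l ⟨0, 960, 0, -869⟩ ⟨0, 1667, -3636, -1929⟩, .l ⟨0, 960, 0, -876⟩ ⟨0, 1667, -3636, -1929⟩, .l ⟨0, 960, 0, -869⟩ ⟨0, 1041, 833, 1678⟩, .l ⟨0, 960, 0, -876⟩ ⟨0, 1041, 833, 1678⟩] := by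
  refine rok_dys (s := 1) (nlo := 869) (nhi := 876) (q := 960) (by decide) (by decide) (by decide) (by decide) (z := 3) (by decide) TI_sc (k := 1) (by decide) (Q := [(1066, 3855, -4362), (1667, -3636, 1929), (1041, 833, -1678)])
    (P := [⟨-80087040, 960, 0⟩, ⟨80732160, -960, 0⟩, ⟨-402001920, 1066, 3855⟩, ⟨177776640, 1667, -3636⟩, ⟨-154644480, 1041, 833⟩]) rfl rfl
    (List.mem_of_getElem? (i := 46) rfl) TI_fr TI_cov ?_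
  · intro X Y h
    simp only [List.forall_mem_cons, List.not_mem_nil, false_imp_iff, implies_true, and_true] at h
    push_cast at h ⊢
    obtain ⟨h0, h1, h2, h3, h4⟩ := h
    refine ⟨⟨?_, ?_⟩, ?_, ?_⟩ <;> linarith

theorem TI_rg47 : ROK [.l ⟨0, 960, 0, -847⟩ ⟨0, 960, 0, 847⟩, .l ⟨0, -960, 0, 857⟩ ⟨0, 960, 0, 857⟩, .l ⟨0, 960, 0, -847⟩ ⟨0, 999, 3873, 4334⟩, .l ⟨0, 960, 0, -857⟩ ⟨0, 999, 3873, 4334⟩, .l ⟨0, 960, 0, -847⟩ ⟨0, -999, -3873, -4559⟩, .l ⟨0, 960, 0, -857⟩ ⟨0, -999, -3873, -4559⟩] := by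
  refine rok_dys (s := 1) (nlo := 847) (nhi := 857) (q := 960) (by decide) (by decide) (by decide) (by decide) (z := 3) (by decide) TI_sc (k := 1) (by decide) (Q := [(999, 3873, -4334), (-999, -3873, 4559)])
    (P := [⟨-78059520, 960, 0⟩, ⟨78981120, -960, 0⟩, ⟨-399421440, 999, 3873⟩, ⟨420157440, -999, -3873⟩]) rfl rfl
    (List.mem_of_getElem? (i := 47) rfl) TI_fr TI_cov ?_
  · intro X Y h
    simp only [List.forall_mem_cons, List.not_mem_nil, false_imp_iff, implies_true, and_true] at h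
    push_cast at h ⊢
    obtain ⟨h0, h1, h2, h3⟩ := h
    refine ⟨⟨?_, ?_⟩, ?_, ?_⟩ <;> linarith

end Pool.Agent.TET
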