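import Pool.Agent.Helper38_TET.TI_C

/-!
# MP_c7c9bf_co: certificates, family TI
-/

set_option autoImplicit false
set_option maxRecDepth 100000

namespace Pool.Agent.TET

theorem TI_rg48 : ROK [.l ⟨0, 480, 0, -433⟩ ⟨0, 480, 0, 433⟩, .l ⟨0, -480, 0, 439⟩ ⟨0, 480, 0, 439⟩, .l ⟨0, 480, 0, -433⟩ ⟨0, 571, 1205, 1580⟩, .l ⟨0, 480, 0, -439⟩ ⟨0, 571, 1205, 1580⟩, .l ⟨0, 480, 0, -433⟩ ⟨0, 1503, -3707, -2144⟩, .l ⟨0, 480, 0, -439⟩ ⟨0, 1503, -3707, -2144⟩] := by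
  refine rok_dys (s := 1) (nlo := 433) (nhi := 439) (q := 480) (by decide) (by decide) (by decide) (by decide) (z := 3) (by decide) TI_sc (k := 1) (by decide) (Q := [(571, 1205, -1580), (1503, -3707, 2144)])
    (P := [⟨-39905280, 480, 0⟩, ⟨40458240, -480, 0⟩, ⟨-145612800, 571, 1205⟩, ⟨197591040, 1503, -3707⟩]) rfl rfl
    (List.mem_of_getElem? (i := 48) rfl) TI_fr TI_cov ?_
  · intro X Y h
    simp only [List.forall_mem_cons, List.not_mem_nil, false_imp_iff, implies_true, and_true] at h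
    push_cast at h ⊢
    obtain ⟨h0, h1, h2, h3⟩ := h
    refine ⟨⟨?_, ?_⟩, ?_, ?_⟩ <;> linarith

theorem TI_rg49 : ROK [.l ⟨0, 960, 0, -864⟩ ⟨0, 960, 0, 864⟩, .l ⟨0, -960, 0, 871⟩ ⟨0, 960, 0, 871⟩, .l ⟨0, 960, 0, -864⟩ ⟨0, 0, 1000, 883⟩, .l ⟨0, 960, 0, -871⟩ ⟨0, 0, 1000, 883⟩, .l ⟨0, 960, 0, -864⟩ ⟨0, 0, -4000, -3799⟩, .l ⟨0, 960, 0, -871⟩ ⟨0, 0, -4000, -3799⟩, .l ⟨0, 960, 0, -864⟩ ⟨0, 3176, 2431, 5011⟩, .l ⟨0, 960, 0, -871⟩ ⟨0, 3176, 2431, 5011⟩] := by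
  refine rok_dys (s := 1) (nlo := 864) (nhi := 871) (q := 960) (by decide) (by decide) (by decide) (by decide) (z := 3) (by decide) TI_sc (k := 1) (by decide) (Q := [(0, 1000, -883), (0, -4000, 3799), (3176, 2431, -5011)])
    (P := [⟨-79626240, 960, 0⟩, ⟨80271360, -960, 0⟩, ⟨-81377280, 0, 1000⟩, ⟨350115840, 0, -4000⟩, ⟨-461813760, 3176, 2431⟩]) rfl rfl
    (List.mem_of_getElem? (i := 49) rfl) TI_fr TI_cov ?_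
  · intro X Y h
    simp only [List.forall_mem_cons, List.not_mem_nil, false_imp_iff, implies_true, and_true] at h
    push_cast at h ⊢
    obtain ⟨h0, h1, h2, h3, h4⟩ := h
    refine ⟨⟨?_, ?_⟩, ?_, ?_⟩ <;> linarith

theorem TI_rg50 : ROK [.l ⟨0, 240, 0, -211⟩ ⟨0, 240, 0, 211⟩, .l ⟨0, -240, 0, 216⟩ ⟨0, 240, 0, 216⟩, .l ⟨0, 240, 0, -211⟩ ⟨0, 0, 125, -226⟩, .l ⟨0, 240, 0, -216⟩ ⟨0, 0, 125, -226⟩, .l ⟨0, 240, 0, -211⟩ ⟨0, 0, -4000, -3349⟩, .l ⟨0, 240, 0, -216⟩ ⟨0, 0, -4000, -3349⟩, .l ⟨0, 240, 0, -211⟩ ⟨0, 2513, 3112, 4756⟩, .l ⟨0, 240, 0, -216⟩ ⟨0, 2513, 3112, 4756⟩] := by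
  refine rok_dys (s := 1) (nlo := 211) (nhi := 216) (q := 240) (by decide) (by decide) (by decide) (by decide) (z := 3) (by decide) TI_sc (k := 1) (by decide) (Q := [(0, 125, 226), (0, -4000, 3349), (2513, 3112, -4756)])
    (P := [⟨-19445760, 240, 0⟩, ⟨19906560, -240, 0⟩, ⟨20828160, 0, 125⟩, ⟨308643840, 0, -4000⟩, ⟨-438312960, 2513, 3112⟩]) rfl rfl
    (List.mem_of_getElem? (i := 50) rfl) TI_fr TI_cov ?_
  · intro X Y h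
    simp only [List.forall_mem_cons, List.not_mem_nil, false_imp_iff, implies_true, and_true] at h
    push_cast at h ⊢
    obtain ⟨h0, h1, h2, h3, h4⟩ := h
    refine ⟨⟨?_, ?_⟩, ?_, ?_⟩ <;> linarith

theorem TI_rg51 : ROK [.l ⟨0, 120, 0, -105⟩ ⟨0, 120, 0, 105⟩, .l ⟨0, -120, 0, 107⟩ ⟨0, 120, 0, 107⟩, .l ⟨0, 120, 0, -105⟩ ⟨0, 1543, 3691, 4655⟩, .l ⟨0, 120, 0, -107⟩ ⟨0, 1543, 3691, 4655⟩, .l ⟨0, 120, 0, -105⟩ ⟨0, 906, -1783, -885⟩, .l ⟨0, 120, 0, -107⟩ ⟨0, 906, -1783, -885⟩] := by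
  refine rok_dys (s := 1) (nlo := 105) (nhi := 107) (q := 120) (by decide) (by decide) (by decide) (by decide) (z := 3) (by decide) TI_sc (k := 1) (by decide) (Q := [(1543, 3691, -4655), (906, -1783, 885)])
    (P := [⟨-9676800, 120, 0⟩, ⟨9861120, -120, 0⟩, ⟨-429004800, 1543, 3691⟩, ⟨81561600, 906, -1783⟩]) rfl rfl
    (List.mem_of_getElem? (i := 51) rfl) TI_fr TI_cov ?_
  · intro X Y h
    simp only [List.forall_mem_cons, List.not_mem_nil, false_imp_iff, implies_true, and_true] at h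
    push_cast at h ⊢
    obtain ⟨h0, h1, h2, h3⟩ := h
    refine ⟨⟨?_, ?_⟩, ?_, ?_⟩ <;> linarith

theorem TI_rg52 : ROK [.l ⟨0, 960, 0, -860⟩ ⟨0, 960, 0, 860⟩, .l ⟨0, -960, 0, 871⟩ ⟨0, 960, 0, 871⟩, .l ⟨0, 960, 0, -860⟩ ⟨0, -1751, 3596, 1594⟩, .l ⟨0, 960, 0, -871⟩ ⟨0, -1751, 3596, 1594⟩, .l ⟨0, 960, 0, -860⟩ ⟨0, 1751, -3596, -1826⟩, .l ⟨0, 960, 0, -871⟩ ⟨0, 1751, -3596, -1826⟩, .l ⟨0, 960, 0, -860⟩ ⟨0, 2065, 3426, 4889⟩, .l ⟨0, 960, 0, -871⟩ ⟨0, 2065, 3426, 4889⟩] := by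
  refine rok_dys (s := 1) (nlo := 860) (nhi := 871) (q := 960) (by decide) (by decide) (by decide) (by decide) (z := 3) (by decide) TI_sc (k := 1) (by decide) (Q := [(-1751, 3596, -1594), (1751, -3596, 1826), (2065, 3426, -4889)])
    (P := [⟨-79257600, 960, 0⟩, ⟨80271360, -960, 0⟩, ⟨-146903040, -1751, 3596⟩, ⟨168284160, 1751, -3596⟩, ⟨-450570240, 2065, 3426⟩]) rfl rfl
    (List.mem_of_getElem? (i := 52) rfl) TI_fr TI_cov ?_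
  · intro X Y h
    simp only [List.forall_mem_cons, List.not_mem_nil, false_imp_iff, implies_true, and_true] at h
    push_cast at h ⊢
    obtain ⟨h0, h1, h2, h3, h4⟩ := h
    refine ⟨⟨?_, ?_⟩, ?_, ?_⟩ <;> linarith

theorem TI_rg53 : ROK [.l ⟨0, 960, 0, -855⟩ ⟨0, 960, 0, 855⟩, .l ⟨0, -960, 0, 866⟩ ⟨0, 960, 0, 866⟩, .l ⟨0, 960, 0, -855⟩ ⟨0, 0, 4000, 3201⟩, .l ⟨0, 960, 0, -866⟩ ⟨0, 0, 4000, 3201⟩, .l ⟨0, 960, 0, -855⟩ ⟨0, 0, -4000, -3349⟩, .l ⟨0, 960, 0, -866⟩ ⟨0, 0, -4000, -3349⟩] := by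
  refine rok_dys (s := 1) (nlo := 855) (nhi := 866) (q := 960) (by decide) (by decide) (by decide) (by decide) (z := 3) (by decide) TI_sc (k := 1) (by decide) (Q := [(0, 4000, -3201), (0, -4000, 3349)])
    (P := [⟨-78796800, 960, 0⟩, ⟨79810560, -960, 0⟩, ⟨-295004160, 0, 4000⟩, ⟨308643840, 0, -4000⟩]) rfl rfl
    (List.mem_of_getElem? (i := 53) rfl) TI_fr TI_cov ?_
  · intro X Y h
    simp only [List.forall_mem_cons, List.not_mem_nil, false_imp_iff, implies_true, and_true] at h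
    push_cast at h ⊢
    obtain ⟨h0, h1, h2, h3⟩ := h
    refine ⟨⟨?_, ?_⟩, ?_, ?_⟩ <;> linarith

theorem TI_rg54 : ROK [.l ⟨0, 480, 0, -425⟩ ⟨0, 480, 0, 425⟩, .l ⟨0, -480, 0, 431⟩ ⟨0, 480, 0, 431⟩, .l ⟨0, 480, 0, -425⟩ ⟨0, 1628, 3654, 4697⟩, .l ⟨0, 480, 0, -431⟩ ⟨0, 1628, 3654, 4697⟩, .l ⟨0, 480, 0, -425⟩ ⟨0, -814, -1827, -2455⟩, .l ⟨0, 480, 0, -431⟩ ⟨0, -814, -1827, -2455⟩] := by
  refine rok_dys (s := 1) (nlo := 425) (nhi := 431) (q := 480) (by decide) (by decide) (by decide) (by decide) (z := 3) (by decide) TI_sc (k := 1) (by decide) (Q := [(1628, 3654, -4697), (-814, -1827, 2455)])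
    (P := [⟨-39168000, 480, 0⟩, ⟨39720960, -480, 0⟩, ⟨-432875520, 1628, 3654⟩, ⟨226252800, -814, -1827⟩]) rfl rfl
    (List.mem_of_getElem? (i := 54) rfl) TI_fr TI_cov ?_
  · intro X Y h
    simp only [List.forall_mem_cons, List.not_mem_nil, false_imp_iff, implies_true, and_true] at h
    push_cast at h ⊢
    obtain ⟨h0, h1, h2, h3⟩ := h
    refine ⟨⟨?_, ?_⟩, ?_, ?_⟩ <;> linarith

theorem TI_rg55 : ROK [.l ⟨0, 240, 0, -214⟩ ⟨0, 240, 0, 214⟩, .l ⟨0, -240, 0, 219⟩ ⟨0, 240, 0, 219⟩, .l ⟨0, 240, 0, -214⟩ ⟨0, 0, 4000, 3201⟩, .l ⟨0, 240, 0, -219⟩ ⟨0, 0, 4000, 3201⟩, .l ⟨0, 240, 0, -214⟩ ⟨0, 0, -4000, -3349⟩, .l ⟨0, 240, 0, -219⟩ ⟨0, 0, -4000, -3349⟩] := by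
  refine rok_dys (s := 1) (nlo := 214) (nhi := 219) (q := 240) (by decide) (by decide) (by decide) (by decide) (z := 3) (by decide) TI_sc (k := 1) (by decide) (Q := [(0, 4000, -3201), (0, -4000, 3349)])
    (P := [⟨-19722240, 240, 0⟩, ⟨20183040, -240, 0⟩, ⟨-295004160, 0, 4000⟩, ⟨308643840, 0, -4000⟩]) rfl rfl
    (List.mem_of_getElem? (i := 55) rfl) TI_fr TI_cov ?_
  · intro X Y h
    simp only [List.forall_mem_cons, List.not_mem_nil, false_imp_iff, implies_true, and_true] at h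
    push_cast at h ⊢
    obtain ⟨h0, h1, h2, h3⟩ := h
    refine ⟨⟨?_, ?_⟩, ?_, ?_⟩ <;> linarith

theorem TI_rg56 : ROK [.l ⟨0, 240, 0, -217⟩ ⟨0, 240, 0, 217⟩, .l ⟨0, -240, 0, 219⟩ ⟨0, 240, 0, 219⟩, .l ⟨0, 240, 0, -217⟩ ⟨0, -296, 1300, 875⟩, .l ⟨0, 240, 0, -219⟩ ⟨0, -296, 1300, 875⟩, .l ⟨0, 240, 0, -217⟩ ⟨0, -1097, -3847, -4644⟩, .l ⟨0, 240, 0, -219⟩ ⟨0, -1097, -3847, -4644⟩, .l ⟨0, 240, 0, -217⟩ ⟨0, 2351, 3236, 4983⟩, .l ⟨0, 240, 0, -219⟩ ⟨0, 2351, 3236, 4983⟩] := by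
  refine rok_dys (s := 1) (nlo := 217) (nhi := 219) (q := 240) (by decide) (by decide) (by decide) (by decide) (z := 3) (by decide) TI_sc (k := 1) (by decide) (Q := [(-296, 1300, -875), (-1097, -3847, 4644), (2351, 3236, -4983)])
    (P := [⟨-19998720, 240, 0⟩, ⟨20183040, -240, 0⟩, ⟨-80640000, -296, 1300⟩, ⟨427991040, -1097, -3847⟩, ⟨-459233280, 2351, 3236⟩]) rfl rfl
    (List.mem_of_getElem? (i := 56) rfl) TI_fr TI_cov ?_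
  · intro X Y h
    simp only [List.forall_mem_cons, List.not_mem_nil, false_imp_iff, implies_true, and_true] at h
    push_cast at h ⊢
    obtain ⟨h0, h1, h2, h3, h4⟩ := h
    refine ⟨⟨?_, ?_⟩, ?_, ?_⟩ <;> linarith

theorem TI_rg57 : ROK [.l ⟨0, 960, 0, -845⟩ ⟨0, 960, 0, 845⟩, .l ⟨0, -960, 0, 852⟩ ⟨0, 960, 0, 852⟩, .l ⟨0, 960, 0, -845⟩ ⟨0, 1734, 3605, 4747⟩, .l ⟨0, 960, 0, -852⟩ ⟨0, 1734, 3605, 4747⟩, .l ⟨0, 960, 0, -845⟩ ⟨0, -95, -3999, -3882⟩, .l ⟨0, 960, 0, -852⟩ ⟨0, -95, -3999, -3882⟩] := by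
  refine rok_dys (s := 1) (nlo := 845) (nhi := 852) (q := 960) (by decide) (by decide) (by decide) (by decide) (z := 3) (by decide) TI_sc (k := 1) (by decide) (Q := [(1734, 3605, -4747), (-95, -3999, 3882)])
    (P := [⟨-77875200, 960, 0⟩, ⟨78520320, -960, 0⟩, ⟨-437483520, 1734, 3605⟩, ⟨357765120, -95, -3999⟩]) rfl rfl
    (List.mem_of_getElem? (i := 57) rfl) TI_fr TI_cov ?_
  · intro X Y h
    simp only [List.forall_mem_cons, List.not_mem_nil, false_imp_iff, implies_true, and_true] at h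
    push_cast at h ⊢
    obtain ⟨h0, h1, h2, h3⟩ := h
    refine ⟨⟨?_, ?_⟩, ?_, ?_⟩ <;> linarith

theorem TI_rg58 : ROK [.l ⟨0, 960, 0, -857⟩ ⟨0, 960, 0, 857⟩, .l ⟨0, -960, 0, 868⟩ ⟨0, 960, 0, 868⟩, .l ⟨0, 960, 0, -857⟩ ⟨0, 0, 4000, 3539⟩, .l ⟨0, 960, 0, -868⟩ ⟨0, 0, 4000, 3539⟩, .l ⟨0, 960, 0, -857⟩ ⟨0, 1491, -3712, -2176⟩, .l ⟨0, 960, 0, -868⟩ ⟨0, 1491, -3712, -2176⟩, .l ⟨0, 960, 0, -857⟩ ⟨0, 2564, 3071, 5020⟩, .l ⟨0, 960, 0, -868⟩ ⟨0, 2564, 3071, 5020⟩] := by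
  refine rok_dys (s := 1) (nlo := 857) (nhi := 868) (q := 960) (by decide) (by decide) (by decide) (by decide) (z := 3) (by decide) TI_sc (k := 1) (by decide) (Q := [(0, 4000, -3539), (1491, -3712, 2176), (2564, 3071, -5020)])
    (P := [⟨-78981120, 960, 0⟩, ⟨79994880, -960, 0⟩, ⟨-326154240, 0, 4000⟩, ⟨200540160, 1491, -3712⟩, ⟨-462643200, 2564, 3071⟩]) rfl rfl
    (List.mem_of_getElem? (i := 58) rfl) TI_fr TI_cov ?_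
  · intro X Y h
    simp only [List.forall_mem_cons, List.not_mem_nil, false_imp_iff, implies_true, and_true] at h
    push_cast at h ⊢
    obtain ⟨h0, h1, h2, h3, h4⟩ := h
    refine ⟨⟨?_, ?_⟩, ?_, ?_⟩ <;> linarith

theorem TI_rg59 : ROK [.l ⟨0, 960, 0, -846⟩ ⟨0, 960, 0, 846⟩, .l ⟨0, -960, 0, 857⟩ ⟨0, 960, 0, 857⟩, .l ⟨0, 960, 0, -846⟩ ⟨0, 0, 4000, 3557⟩, .l ⟨0, 960, 0, -857⟩ ⟨0, 0, 4000, 3557⟩, .l ⟨0, 960, 0, -846⟩ ⟨0, 2633, -3011, -506⟩, .l ⟨0, 960, 0, -857⟩ ⟨0, 2633, -3011, -506⟩, .l ⟨0, 960, 0, -846⟩ ⟨0, 2624, 3019, 5014⟩, .l ⟨0, 960, 0, -857⟩ ⟨0, 2624, 3019, 5014⟩] := by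
  refine rok_dys (s := 1) (nlo := 846) (nhi := 857) (q := 960) (by decide) (by decide) (by decide) (by decide) (z := 3) (by decide) TI_sc (k := 1) (by decide) (Q := [(0, 4000, -3557), (2633, -3011, 506), (2624, 3019, -5014)])
    (P := [⟨-77967360, 960, 0⟩, ⟨78981120, -960, 0⟩, ⟨-327813120, 0, 4000⟩, ⟨46632960, 2633, -3011⟩, ⟨-462090240, 2624, 3019⟩]) rfl rfl
    (List.mem_of_getElem? (i := 59) rfl) TI_fr TI_cov ?_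
  · intro X Y h
    simp only [List.forall_mem_cons, List.not_mem_nil, false_imp_iff, implies_true, and_true] at h
    push_cast at h ⊢
    obtain ⟨h0, h1, h2, h3, h4⟩ := h
    refine ⟨⟨?_, ?_⟩, ?_, ?_⟩ <;> linarith

theorem TI_rg60 : ROK [.l ⟨0, 480, 0, -432⟩ ⟨0, 480, 0, 432⟩, .l ⟨0, -480, 0, 439⟩ ⟨0, 480, 0, 439⟩, .l ⟨0, 480, 0, -432⟩ ⟨0, 0, 2000, 1763⟩, .l ⟨0, 480, 0, -439⟩ ⟨0, 0, 2000, 1763⟩, .l ⟨0, 480, 0, -432⟩ ⟨0, 0, -4000, -3799⟩, .l ⟨0, 480, 0, -439⟩ ⟨0, 0, -4000, -3799⟩, .l ⟨0, 480, 0, -432⟩ ⟨0, 2859, 2797, 5052⟩, .l ⟨0, 480, 0, -439⟩ ⟨0, 2859, 2797, 5052⟩] := by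
  refine rok_dys (s := 1) (nlo := 432) (nhi := 439) (q := 480) (by decide) (by decide) (by decide) (by decide) (z := 3) (by decide) TI_sc (k := 1) (by decide) (Q := [(0, 2000, -1763), (0, -4000, 3799), (2859, 2797, -5052)])
    (P := [⟨-39813120, 480, 0⟩, ⟨40458240, -480, 0⟩, ⟨-162478080, 0, 2000⟩, ⟨350115840, 0, -4000⟩, ⟨-465592320, 2859, 2797⟩]) rfl rfl
    (List.mem_of_getElem? (i := 60) rfl) TI_fr TI_cov ?_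
  · intro X Y h
    simp only [List.forall_mem_cons, List.not_mem_nil, false_imp_iff, implies_true, and_true] at h
    push_cast at h ⊢
    obtain ⟨h0, h1, h2, h3, h4⟩ := h
    refine ⟨⟨?_, ?_⟩, ?_, ?_⟩ <;> linarith

theorem TI_rg61 : ROK [.l ⟨0, 480, 0, -413⟩ ⟨0, 480, 0, 413⟩, .l ⟨0, -480, 0, 422⟩ ⟨0, 480, 0, 422⟩, .l ⟨0, 480, 0, -413⟩ ⟨0, 0, 125, -172⟩, .l ⟨0, 480, 0, -422⟩ ⟨0, 0, 125, -172⟩, .l ⟨0, 480, 0, -413⟩ ⟨0, 455, -3974, -2926⟩, .l ⟨0, 480, 0, -422⟩ ⟨0, 455, -3974, -2926⟩, .l ⟨0, 480, 0, -413⟩ ⟨0, 63, 568, 510⟩, .l ⟨0, 480, 0, -422⟩ ⟨0, 63, 568, 510⟩] := by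
  refine rok_dys (s := 1) (nlo := 413) (nhi := 422) (q := 480) (by decide) (by decide) (by decide) (by decide) (z := 3) (by decide) TI_sc (k := 1) (by decide) (Q := [(0, 125, 172), (455, -3974, 2926), (63, 568, -510)])
    (P := [⟨-38062080, 480, 0⟩, ⟨38891520, -480, 0⟩, ⟨15851520, 0, 125⟩, ⟨269660160, 455, -3974⟩, ⟨-47001600, 63, 568⟩]) rfl rfl
    (List.mem_of_getElem? (i := 61) rfl) TI_fr TI_cov ?_
  · intro X Y h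
    simp only [List.forall_mem_cons, List.not_mem_nil, false_imp_iff, implies_true, and_true] at h
    push_cast at h ⊢
    obtain ⟨h0, h1, h2, h3, h4⟩ := h
    refine ⟨⟨?_, ?_⟩, ?_, ?_⟩ <;> linarith

theorem TI_rg62 : ROK [.l ⟨0, 80, 0, -72⟩ ⟨0, 80, 0, 72⟩, .l ⟨0, -80, 0, 75⟩ ⟨0, 80, 0, 75⟩, .l ⟨0, 80, 0, -72⟩ ⟨0, -1779, 3583, 1485⟩, .l ⟨0, 80, 0, -75⟩ ⟨0, -1779, 3583, 1485⟩, .l ⟨0, 80, 0, -72⟩ ⟨0, 1779, -3583, -9894⟩, .l ⟨0, 80, 0, -75⟩ ⟨0, 1779, -3583, -9894⟩, .l ⟨0, 80, 0, -72⟩ ⟨0, 1773, 3586, 4768⟩, .l ⟨0, 80, 0, -75⟩ ⟨0, 1773, 3586, 4768⟩, .l ⟨0, 80, 0, -72⟩ ⟨0, 80, -3999, -3723⟩, .l ⟨0, 80, 0, -75⟩ ⟨0, 80, -3999, -3723⟩] := by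
  refine rok_dys (s := 1) (nlo := 72) (nhi := 75) (q := 80) (by decide) (by decide) (by decide) (by decide) (z := 3) (by decide) TI_sc (k := 1) (by decide) (Q := [(-1779, 3583, -1485), (1779, -3583, 9894), (1773, 3586, -4768), (80, -3999, 3723)])
    (P := [⟨-6635520, 80, 0⟩, ⟨6912000, -80, 0⟩, ⟨-136857600, -1779, 3583⟩, ⟨911831040, 1779, -3583⟩, ⟨-439418880, 1773, 3586⟩, ⟨343111680, 80, -3999⟩]) rfl rfl
    (List.mem_of_getElem? (i := 62) rfl) TI_fr TI_cov ?_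
  · intro X Y h
    simp only [List.forall_mem_cons, List.not_mem_nil, false_imp_iff, implies_true, and_true] at h
    push_cast at h ⊢
    obtain ⟨h0, h1, h2, h3, h4, h5⟩ := h
    refine ⟨⟨?_, ?_⟩, ?_, ?_⟩ <;> linarith

theorem TI_rg63 : ROK [.l ⟨0, 480, 0, -418⟩ ⟨0, 480, 0, 418⟩, .l ⟨0, -480, 0, 425⟩ ⟨0, 480, 0, 425⟩, .l ⟨0, 480, 0, -418⟩ ⟨0, -1268, 3794, 2279⟩, .l ⟨0, 480, 0, -425⟩ ⟨0, -1268, 3794, 2279⟩, .l ⟨0, 480, 0, -418⟩ ⟨0, -111, -1997, -1993⟩, .l ⟨0, 480, 0, -425⟩ ⟨0, -111, -1997, -1993⟩, .l ⟨0, 480, 0, -418⟩ ⟨0, 1469, 3720, 4615⟩, .l ⟨0, 480, 0, -425⟩ ⟨0, 1469, 3720, 4615⟩] := by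
  refine rok_dys (s := 1) (nlo := 418) (nhi := 425) (q := 480) (by decide) (by decide) (by decide) (by decide) (z := 3) (by decide) TI_sc (k := 1) (by decide) (Q := [(-1268, 3794, -2279), (-111, -1997, 1993), (1469, 3720, -4615)])
    (P := [⟨-38522880, 480, 0⟩, ⟨39168000, -480, 0⟩, ⟨-210032640, -1268, 3794⟩, ⟨183674880, -111, -1997⟩, ⟨-425318400, 1469, 3720⟩]) rfl rfl
    (List.mem_of_getElem? (i := 63) rfl) TI_fr TI_cov ?_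
  · intro X Y h
    simp only [List.forall_mem_cons, List.not_mem_nil, false_imp_iff, implies_true, and_true] at h
    push_cast at h ⊢
    obtain ⟨h0, h1, h2, h3, h4⟩ := h
    refine ⟨⟨?_, ?_⟩, ?_, ?_⟩ <;> linarith

theorem TI_rg64 : ROK [.l ⟨0, 960, 0, -847⟩ ⟨0, 960, 0, 847⟩, .l ⟨0, -960, 0, 854⟩ ⟨0, 960, 0, 854⟩, .l ⟨0, 960, 0, -847⟩ ⟨0, -1863, 3540, -8153⟩, .l ⟨0, 960, 0, -854⟩ ⟨0, -1863, 3540, -8153⟩, .l ⟨0, 960, 0, -847⟩ ⟨0, 1209, -1593, -436⟩, .l ⟨0, 960, 0, -854⟩ ⟨0, 1209, -1593, -436⟩, .l ⟨0, 960, 0, -847⟩ ⟨0, 1261, 3796, 4497⟩, .l ⟨0, 960, 0, -854⟩ ⟨0, 1261, 3796, 4497⟩] := by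
  refine rok_dys (s := 1) (nlo := 847) (nhi := 854) (q := 960) (by decide) (by decide) (by decide) (by decide) (z := 3) (by decide) TI_sc (k := 1) (by decide) (Q := [(-1863, 3540, 8153), (1209, -1593, 436), (1261, 3796, -4497)])
    (P := [⟨-78059520, 960, 0⟩, ⟨78704640, -960, 0⟩, ⟨751380480, -1863, 3540⟩, ⟨40181760, 1209, -1593⟩, ⟨-414443520, 1261, 3796⟩]) rfl rfl
    (List.mem_of_getElem? (i := 64) rfl) TI_fr TI_cov ?_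
  · intro X Y h
    simp only [List.forall_mem_cons, List.not_mem_nil, false_imp_iff, implies_true, and_true] at h
    push_cast at h ⊢
    obtain ⟨h0, h1, h2, h3, h4⟩ := h
    refine ⟨⟨?_, ?_⟩, ?_, ?_⟩ <;> linarith

theorem TI_rg65 : ROK [.l ⟨0, 480, 0, -429⟩ ⟨0, 480, 0, 429⟩, .l ⟨0, -480, 0, 437⟩ ⟨0, 480, 0, 437⟩, .l ⟨0, 480, 0, -429⟩ ⟨0, 1293, 3785, 4512⟩, .l ⟨0, 480, 0, -437⟩ ⟨0, 1293, 3785, 4512⟩, .l ⟨0, 480, 0, -429⟩ ⟨0, 1394, -3749, -2291⟩, .l ⟨0, 480, 0, -437⟩ ⟨0, 1394, -3749, -2291⟩] := by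
  refine rok_dys (s := 1) (nlo := 429) (nhi := 437) (q := 480) (by decide) (by decide) (by decide) (by decide) (z := 3) (by decide) TI_sc (k := 1) (by decide) (Q := [(1293, 3785, -4512), (1394, -3749, 2291)])
    (P := [⟨-39536640, 480, 0⟩, ⟨40273920, -480, 0⟩, ⟨-415825920, 1293, 3785⟩, ⟨211138560, 1394, -3749⟩]) rfl rfl
    (List.mem_of_getElem? (i := 65) rfl) TI_fr TI_cov ?_
  · intro X Y h
    simp only [List.forall_mem_cons, List.not_mem_nil, false_imp_iff, implies_true, and_true] at h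
    push_cast at h ⊢
    obtain ⟨h0, h1, h2, h3⟩ := h
    refine ⟨⟨?_, ?_⟩, ?_, ?_⟩ <;> linarith

theorem TI_rg66 : ROK [.l ⟨0, 480, 0, -416⟩ ⟨0, 480, 0, 416⟩, .l ⟨0, -480, 0, 427⟩ ⟨0, 480, 0, 427⟩, .l ⟨0, 480, 0, -416⟩ ⟨0, 855, 1023, 1664⟩, .l ⟨0, 480, 0, -427⟩ ⟨0, 855, 1023, 1664⟩, .l ⟨0, 480, 0, -416⟩ ⟨0, -2565, -3069, -5135⟩, .l ⟨0, 480, 0, -427⟩ ⟨0, -2565, -3069, -5135⟩, .l ⟨0, 480, 0, -416⟩ ⟨0, -275, 3991, 3327⟩, .l ⟨0, 480, 0, -427⟩ ⟨0, -275, 3991, 3327⟩] := by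
  refine rok_dys (s := 1) (nlo := 416) (nhi := 427) (q := 480) (by decide) (by decide) (by decide) (by decide) (z := 3) (by decide) TI_sc (k := 1) (by decide) (Q := [(855, 1023, -1664), (-2565, -3069, 5135), (-275, 3991, -3327)])
    (P := [⟨-38338560, 480, 0⟩, ⟨39352320, -480, 0⟩, ⟨-153354240, 855, 1023⟩, ⟨473241600, -2565, -3069⟩, ⟨-306616320, -275, 3991⟩]) rfl rfl
    (List.mem_of_getElem? (i := 66) rfl) TI_fr TI_cov ?_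
  · intro X Y h
    simp only [List.forall_mem_cons, List.not_mem_nil, false_imp_iff, implies_true, and_true] at h
    push_cast at h ⊢
    obtain ⟨h0, h1, h2, h3, h4⟩ := h
    refine ⟨⟨?_, ?_⟩, ?_, ?_⟩ <;> linarith

theorem TI_rg67 : ROK [.l ⟨0, 480, 0, -426⟩ ⟨0, 480, 0, 426⟩, .l ⟨0, -480, 0, 433⟩ ⟨0, 480, 0, 433⟩, .l ⟨0, 480, 0, -426⟩ ⟨0, 2373, 3220, 4980⟩, .l ⟨0, 480, 0, -433⟩ ⟨0, 2373, 3220, 4980⟩, .l ⟨0, 480, 0, -426⟩ ⟨0, -2373, -3220, -5160⟩, .l ⟨0, 480, 0, -433⟩ ⟨0, -2373, -3220, -5160⟩, .l ⟨0, 480, 0, -426⟩ ⟨0, 120, 3998, 3645⟩, .l ⟨0, 480, 0, -433⟩ ⟨0, 120, 3998, 3645⟩] := by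
  refine rok_dys (s := 1) (nlo := 426) (nhi := 433) (q := 480) (by decide) (by decide) (by decide) (by decide) (z := 3) (by decide) TI_sc (k := 1) (by decide) (Q := [(2373, 3220, -4980), (-2373, -3220, 5160), (120, 3998, -3645)])
    (P := [⟨-39260160, 480, 0⟩, ⟨39905280, -480, 0⟩, ⟨-458956800, 2373, 3220⟩, ⟨475545600, -2373, -3220⟩, ⟨-335923200, 120, 3998⟩]) rfl rfl
    (List.mem_of_getElem? (i := 67) rfl) TI_fr TI_cov ?_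
  · intro X Y h
    simp only [List.forall_mem_cons, List.not_mem_nil, false_imp_iff, implies_true, and_true] at h
    push_cast at h ⊢
    obtain ⟨h0, h1, h2, h3, h4⟩ := h
    refine ⟨⟨?_, ?_⟩, ?_, ?_⟩ <;> linarith

theorem TI_rg68 : ROK [.l ⟨0, 480, 0, -416⟩ ⟨0, 480, 0, 416⟩, .l ⟨0, -480, 0, 425⟩ ⟨0, 480, 0, 425⟩, .l ⟨0, 480, 0, -416⟩ ⟨0, 190, 3995, 3746⟩, .l ⟨0, 480, 0, -425⟩ ⟨0, 190, 3995, 3746⟩, .l ⟨0, 480, 0, -416⟩ ⟨0, -38, -799, -3150⟩, .l ⟨0, 480, 0, -425⟩ ⟨0, -38, -799, -3150⟩, .l ⟨0, 480, 0, -416⟩ ⟨0, 3477, 1977, 4802⟩, .l ⟨0, 480, 0, -425⟩ ⟨0, 3477, 1977, 4802⟩, .l ⟨0, 480, 0, -416⟩ ⟨0, -821, -3915, -4429⟩, .l ⟨0, 480, 0, -425⟩ ⟨0, -821, -3915, -4429⟩] := by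
  refine rok_dys (s := 1) (nlo := 416) (nhi := 425) (q := 480) (by decide) (by decide) (by decide) (by decide) (z := 3) (by decide) TI_sc (k := 1) (by decide) (Q := [(190, 3995, -3746), (-38, -799, 3150), (3477, 1977, -4802), (-821, -3915, 4429)])
    (P := [⟨-38338560, 480, 0⟩, ⟨39168000, -480, 0⟩, ⟨-345231360, 190, 3995⟩, ⟨290304000, -38, -799⟩, ⟨-442552320, 3477, 1977⟩, ⟨408176640, -821, -3915⟩]) rfl rfl
    (List.mem_of_getElem? (i := 68) rfl) TI_fr TI_cov ?_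
  · intro X Y h
    simp only [List.forall_mem_cons, List.not_mem_nil, false_imp_iff, implies_true, and_true] at h
    push_cast at h ⊢
    obtain ⟨h0, h1, h2, h3, h4, h5⟩ := h
    refine ⟨⟨?_, ?_⟩, ?_, ?_⟩ <;> linarith

theorem TI_rg69 : ROK [.l ⟨0, 80, 0, -69⟩ ⟨0, 80, 0, 69⟩, .l ⟨0, -80, 0, 72⟩ ⟨0, 80, 0, 72⟩, .l ⟨0, 80, 0, -69⟩ ⟨0, 2271, 3293, 4940⟩, .l ⟨0, 80, 0, -72⟩ ⟨0, 2271, 3293, 4940⟩, .l ⟨0, 80, 0, -69⟩ ⟨0, -2271, -3293, -5082⟩, .l ⟨0, 80, 0, -72⟩ ⟨0, -2271, -3293, -5082⟩, .l ⟨0, 80, 0, -69⟩ ⟨0, -107, 3999, 3470⟩, .l ⟨0, 80, 0, -72⟩ ⟨0, -107, 3999, 3470⟩] := by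
  refine rok_dys (s := 1) (nlo := 69) (nhi := 72) (q := 80) (by decide) (by decide) (by decide) (by decide) (z := 3) (by decide) TI_sc (k := 1) (by decide) (Q := [(2271, 3293, -4940), (-2271, -3293, 5082), (-107, 3999, -3470)])
    (P := [⟨-6359040, 80, 0⟩, ⟨6635520, -80, 0⟩, ⟨-455270400, 2271, 3293⟩, ⟨468357120, -2271, -3293⟩, ⟨-319795200, -107, 3999⟩]) rfl rfl
    (List.mem_of_getElem? (i := 69) rfl) TI_fr TI_cov ?_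
  · intro X Y h
    simp only [List.forall_mem_cons, List.not_mem_nil, false_imp_iff, implies_true, and_true] at h
    push_cast at h ⊢
    obtain ⟨h0, h1, h2, h3, h4⟩ := h
    refine ⟨⟨?_, ?_⟩, ?_, ?_⟩ <;> linarith

theorem TI_rg70 : ROK [.l ⟨0, 240, 0, -209⟩ ⟨0, 240, 0, 209⟩, .l ⟨0, -240, 0, 214⟩ ⟨0, 240, 0, 214⟩, .l ⟨0, 240, 0, -209⟩ ⟨0, 0, 800, 713⟩, .l ⟨0, 240, 0, -214⟩ ⟨0, 0, 800, 713⟩, .l ⟨0, 240, 0, -209⟩ ⟨0, -2285, -3283, -5106⟩, .l ⟨0, 240, 0, -214⟩ ⟨0, -2285, -3283, -5106⟩, .l ⟨0, 240, 0, -209⟩ ⟨0, 2285, 3283, 4944⟩, .l ⟨0, 240, 0, -214⟩ ⟨0, 2285, 3283, 4944⟩] := by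
  refine rok_dys (s := 1) (nlo := 209) (nhi := 214) (q := 240) (by decide) (by decide) (by decide) (by decide) (z := 3) (by decide) TI_sc (k := 1) (by decide) (Q := [(0, 800, -713), (-2285, -3283, 5106), (2285, 3283, -4944)])
    (P := [⟨-19261440, 240, 0⟩, ⟨19722240, -240, 0⟩, ⟨-65710080, 0, 800⟩, ⟨470568960, -2285, -3283⟩, ⟨-455639040, 2285, 3283⟩]) rfl rfl
    (List.mem_of_getElem? (i := 70) rfl) TI_fr TI_cov ?_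
  · intro X Y h
    simp only [List.forall_mem_cons, List.not_mem_nil, false_imp_iff, implies_true, and_true] at h
    push_cast at h ⊢
    obtain ⟨h0, h1, h2, h3, h4⟩ := h
    refine ⟨⟨?_, ?_⟩, ?_, ?_⟩ <;> linarith

theorem TI_rg71 : ROK [.l ⟨0, 480, 0, -419⟩ ⟨0, 480, 0, 419⟩, .l ⟨0, -480, 0, 427⟩ ⟨0, 480, 0, 427⟩, .l ⟨0, 480, 0, -419⟩ ⟨0, 1449, 3728, 4604⟩, .l ⟨0, 480, 0, -427⟩ ⟨0, 1449, 3728, 4604⟩, .l ⟨0, 480, 0, -419⟩ ⟨0, -1449, -3728, -4804⟩, .l ⟨0, 480, 0, -427⟩ ⟨0, -1449, -3728, -4804⟩, .l ⟨0, 480, 0, -419⟩ ⟨0, 2038, 3442, 4867⟩, .l ⟨0, 480, 0, -427⟩ ⟨0, 2038, 3442, 4867⟩] := by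
  refine rok_dys (s := 1) (nlo := 419) (nhi := 427) (q := 480) (by decide) (by decide) (by decide) (by decide) (z := 3) (by decide) TI_sc (k := 1) (by decide) (Q := [(1449, 3728, -4604), (-1449, -3728, 4804), (2038, 3442, -4867)])
    (P := [⟨-38615040, 480, 0⟩, ⟨39352320, -480, 0⟩, ⟨-424304640, 1449, 3728⟩, ⟨442736640, -1449, -3728⟩, ⟨-448542720, 2038, 3442⟩]) rfl rfl
    (List.mem_of_getElem? (i := 71) rfl) TI_fr TI_cov ?_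
  · intro X Y h
    simp only [List.forall_mem_cons, List.not_mem_nil, false_imp_iff, implies_true, and_true] at h
    push_cast at h ⊢
    obtain ⟨h0, h1, h2, h3, h4⟩ := h
    refine ⟨⟨?_, ?_⟩, ?_, ?_⟩ <;> linarith

end Pool.Agent.TET
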