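import Pool.Agent.Helper38_TET.TI_C

/-!
# MP_c7c9bf_co: certificates, family TI
-/

set_option autoImplicit false
set_option maxRecDepth 100000

namespace Pool.Agent.TET

theorem TI_rg72 : ROK [.l ⟨0, 240, 0, -212⟩ ⟨0, 240, 0, 212⟩, .l ⟨0, -240, 0, 217⟩ ⟨0, 240, 0, 217⟩, .l ⟨0, 240, 0, -212⟩ ⟨0, 1682, 3629, 4724⟩, .l ⟨0, 240, 0, -217⟩ ⟨0, 1682, 3629, 4724⟩, .l ⟨0, 240, 0, -212⟩ ⟨0, 2305, -3269, -1019⟩, .l ⟨0, 240, 0, -217⟩ ⟨0, 2305, -3269, -1019⟩] := by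
  refine rok_dys (s := 1) (nlo := 212) (nhi := 217) (q := 240) (by decide) (by decide) (by decide) (by decide) (z := 3) (by decide) TI_sc (k := 1) (by decide) (Q := [(1682, 3629, -4724), (2305, -3269, 1019)])
    (P := [⟨-19537920, 240, 0⟩, ⟨19998720, -240, 0⟩, ⟨-435363840, 1682, 3629⟩, ⟨93911040, 2305, -3269⟩]) rfl rfl
    (List.mem_of_getElem? (i := 72) rfl) TI_fr TI_cov ?_
  · intro X Y h
    simp only [List.forall_mem_cons, List.not_mem_nil, false_imp_iff, implies_true, and_true] at h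
    push_cast at h ⊢
    obtain ⟨h0, h1, h2, h3⟩ := h
    refine ⟨⟨?_, ?_⟩, ?_, ?_⟩ <;> linarith

theorem TI_rg73 : ROK [.l ⟨0, 960, 0, -851⟩ ⟨0, 960, 0, 851⟩, .l ⟨0, -960, 0, 861⟩ ⟨0, 960, 0, 861⟩, .l ⟨0, 960, 0, -851⟩ ⟨0, 1804, 3570, 4779⟩, .l ⟨0, 960, 0, -861⟩ ⟨0, 1804, 3570, 4779⟩, .l ⟨0, 960, 0, -851⟩ ⟨0, -1804, -3570, -4989⟩, .l ⟨0, 960, 0, -861⟩ ⟨0, -1804, -3570, -4989⟩] := by
  refine rok_dys (s := 1) (nlo := 851) (nhi := 861) (q := 960) (by decide) (by decide) (by decide) (by decide) (z := 3) (by decide) TI_sc (k := 1) (by decide) (Q := [(1804, 3570, -4779), (-1804, -3570, 4989)])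
    (P := [⟨-78428160, 960, 0⟩, ⟨79349760, -960, 0⟩, ⟨-440432640, 1804, 3570⟩, ⟨459786240, -1804, -3570⟩]) rfl rfl
    (List.mem_of_getElem? (i := 73) rfl) TI_fr TI_cov ?_
  · intro X Y h
    simp only [List.forall_mem_cons, List.not_mem_nil, false_imp_iff, implies_true, and_true] at h
    push_cast at h ⊢
    obtain ⟨h0, h1, h2, h3⟩ := h
    refine ⟨⟨?_, ?_⟩, ?_, ?_⟩ <;> linarith

theorem TI_rg74 : ROK [.l ⟨0, 960, 0, -862⟩ ⟨0, 960, 0, 862⟩, .l ⟨0, -960, 0, 871⟩ ⟨0, 960, 0, 871⟩, .l ⟨0, 960, 0, -862⟩ ⟨0, -1109, 3843, 2384⟩, .l ⟨0, 960, 0, -871⟩ ⟨0, -1109, 3843, 2384⟩, .l ⟨0, 960, 0, -862⟩ ⟨0, 1109, -3843, -2643⟩, .l ⟨0, 960, 0, -871⟩ ⟨0, 1109, -3843, -2643⟩, .l ⟨0, 960, 0, -862⟩ ⟨0, 2720, 2933, 5047⟩, .l ⟨0, 960, 0, -871⟩ ⟨0, 2720, 2933, 5047⟩] := by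
  refine rok_dys (s := 1) (nlo := 862) (nhi := 871) (q := 960) (by decide) (by decide) (by decide) (by decide) (z := 3) (by decide) TI_sc (k := 1) (by decide) (Q := [(-1109, 3843, -2384), (1109, -3843, 2643), (2720, 2933, -5047)])
    (P := [⟨-79441920, 960, 0⟩, ⟨80271360, -960, 0⟩, ⟨-219709440, -1109, 3843⟩, ⟨243578880, 1109, -3843⟩, ⟨-465131520, 2720, 2933⟩]) rfl rfl
    (List.mem_of_getElem? (i := 74) rfl) TI_fr TI_cov ?_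
  · intro X Y h
    simp only [List.forall_mem_cons, List.not_mem_nil, false_imp_iff, implies_true, and_true] at h
    push_cast at h ⊢
    obtain ⟨h0, h1, h2, h3, h4⟩ := h
    refine ⟨⟨?_, ?_⟩, ?_, ?_⟩ <;> linarith

theorem TI_rg75 : ROK [.l ⟨0, 960, 0, -860⟩ ⟨0, 960, 0, 860⟩, .l ⟨0, -960, 0, 869⟩ ⟨0, 960, 0, 869⟩, .l ⟨0, 960, 0, -860⟩ ⟨0, -2341, 3244, 751⟩, .l ⟨0, 960, 0, -869⟩ ⟨0, -2341, 3244, 751⟩, .l ⟨0, 960, 0, -860⟩ ⟨0, 2341, -3244, -959⟩, .l ⟨0, 960, 0, -869⟩ ⟨0, 2341, -3244, -959⟩, .l ⟨0, 960, 0, -860⟩ ⟨0, 2464, 3151, 5005⟩, .l ⟨0, 960, 0, -869⟩ ⟨0, 2464, 3151, 5005⟩] := by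
  refine rok_dys (s := 1) (nlo := 860) (nhi := 869) (q := 960) (by decide) (by decide) (by decide) (by decide) (z := 3) (by decide) TI_sc (k := 1) (by decide) (Q := [(-2341, 3244, -751), (2341, -3244, 959), (2464, 3151, -5005)])
    (P := [⟨-79257600, 960, 0⟩, ⟨80087040, -960, 0⟩, ⟨-69212160, -2341, 3244⟩, ⟨88381440, 2341, -3244⟩, ⟨-461260800, 2464, 3151⟩]) rfl rfl
    (List.mem_of_getElem? (i := 75) rfl) TI_fr TI_cov ?_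
  · intro X Y h
    simp only [List.forall_mem_cons, List.not_mem_nil, false_imp_iff, implies_true, and_true] at h
    push_cast at h ⊢
    obtain ⟨h0, h1, h2, h3, h4⟩ := h
    refine ⟨⟨?_, ?_⟩, ?_, ?_⟩ <;> linarith

theorem TI_rg76 : ROK [.l ⟨0, 960, 0, -836⟩ ⟨0, 960, 0, 836⟩, .l ⟨0, -960, 0, 843⟩ ⟨0, 960, 0, 843⟩, .l ⟨0, 960, 0, -836⟩ ⟨0, 0, 2000, 1791⟩, .l ⟨0, 960, 0, -843⟩ ⟨0, 0, 2000, 1791⟩, .l ⟨0, 960, 0, -836⟩ ⟨0, 2409, -3193, -913⟩, .l ⟨0, 960, 0, -843⟩ ⟨0, 2409, -3193, -913⟩, .l ⟨0, 960, 0, -836⟩ ⟨0, 2843, 2814, 5001⟩, .l ⟨0, 960, 0, -843⟩ ⟨0, 2843, 2814, 5001⟩] := by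
  refine rok_dys (s := 1) (nlo := 836) (nhi := 843) (q := 960) (by decide) (by decide) (by decide) (by decide) (z := 3) (by decide) TI_sc (k := 1) (by decide) (Q := [(0, 2000, -1791), (2409, -3193, 913), (2843, 2814, -5001)])
    (P := [⟨-77045760, 960, 0⟩, ⟨77690880, -960, 0⟩, ⟨-165058560, 0, 2000⟩, ⟨84142080, 2409, -3193⟩, ⟨-460892160, 2843, 2814⟩]) rfl rfl
    (List.mem_of_getElem? (i := 76) rfl) TI_fr TI_cov ?_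
  · intro X Y h
    simp only [List.forall_mem_cons, List.not_mem_nil, false_imp_iff, implies_true, and_true] at h
    push_cast at h ⊢
    obtain ⟨h0, h1, h2, h3, h4⟩ := h
    refine ⟨⟨?_, ?_⟩, ?_, ?_⟩ <;> linarith

theorem TI_rg77 : ROK [.l ⟨0, 80, 0, -69⟩ ⟨0, 80, 0, 69⟩, .l ⟨0, -80, 0, 72⟩ ⟨0, 80, 0, 72⟩, .l ⟨0, 80, 0, -69⟩ ⟨0, 0, 4000, 3561⟩, .l ⟨0, 80, 0, -72⟩ ⟨0, 0, 4000, 3561⟩, .l ⟨0, 80, 0, -69⟩ ⟨0, 0, -4000, -3799⟩, .l ⟨0, 80, 0, -72⟩ ⟨0, 0, -4000, -3799⟩, .l ⟨0, 80, 0, -69⟩ ⟨0, 2630, 3014, 5011⟩, .l ⟨0, 80, 0, -72⟩ ⟨0, 2630, 3014, 5011⟩] := by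
  refine rok_dys (s := 1) (nlo := 69) (nhi := 72) (q := 80) (by decide) (by decide) (by decide) (by decide) (z := 3) (by decide) TI_sc (k := 1) (by decide) (Q := [(0, 4000, -3561), (0, -4000, 3799), (2630, 3014, -5011)])
    (P := [⟨-6359040, 80, 0⟩, ⟨6635520, -80, 0⟩, ⟨-328181760, 0, 4000⟩, ⟨350115840, 0, -4000⟩, ⟨-461813760, 2630, 3014⟩]) rfl rfl
    (List.mem_of_getElem? (i := 77) rfl) TI_fr TI_cov ?_
  · intro X Y h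
    simp only [List.forall_mem_cons, List.not_mem_nil, false_imp_iff, implies_true, and_true] at h
    push_cast at h ⊢
    obtain ⟨h0, h1, h2, h3, h4⟩ := h
    refine ⟨⟨?_, ?_⟩, ?_, ?_⟩ <;> linarith

theorem TI_rg78 : ROK [.l ⟨0, 40, 0, -35⟩ ⟨0, 40, 0, 35⟩, .l ⟨0, -40, 0, 37⟩ ⟨0, 40, 0, 37⟩, .l ⟨0, 40, 0, -35⟩ ⟨0, 1728, 3608, 4747⟩, .l ⟨0, 40, 0, -37⟩ ⟨0, 1728, 3608, 4747⟩, .l ⟨0, 40, 0, -35⟩ ⟨0, -1149, -3831, -4642⟩, .l ⟨0, 40, 0, -37⟩ ⟨0, -1149, -3831, -4642⟩] := by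
  refine rok_dys (s := 1) (nlo := 35) (nhi := 37) (q := 40) (by decide) (by decide) (by decide) (by decide) (z := 3) (by decide) TI_sc (k := 1) (by decide) (Q := [(1728, 3608, -4747), (-1149, -3831, 4642)])
    (P := [⟨-3225600, 40, 0⟩, ⟨3409920, -40, 0⟩, ⟨-437483520, 1728, 3608⟩, ⟨427806720, -1149, -3831⟩]) rfl rfl
    (List.mem_of_getElem? (i := 78) rfl) TI_fr TI_cov ?_
  · intro X Y h
    simp only [List.forall_mem_cons, List.not_mem_nil, false_imp_iff, implies_true, and_true] at h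
    push_cast at h ⊢
    obtain ⟨h0, h1, h2, h3⟩ := h
    refine ⟨⟨?_, ?_⟩, ?_, ?_⟩ <;> linarith

theorem TI_rg79 : ROK [.l ⟨0, 960, 0, -846⟩ ⟨0, 960, 0, 846⟩, .l ⟨0, -960, 0, 853⟩ ⟨0, 960, 0, 853⟩, .l ⟨0, 960, 0, -846⟩ ⟨0, 0, 4000, 3201⟩, .l ⟨0, 960, 0, -853⟩ ⟨0, 0, 4000, 3201⟩, .l ⟨0, 960, 0, -846⟩ ⟨0, -31, -2000, -1702⟩, .l ⟨0, 960, 0, -853⟩ ⟨0, -31, -2000, -1702⟩] := by
  refine rok_dys (s := 1) (nlo := 846) (nhi := 853) (q := 960) (by decide) (by decide) (by decide) (by decide) (z := 3) (by decide) TI_sc (k := 1) (by decide) (Q := [(0, 4000, -3201), (-31, -2000, 1702)])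
    (P := [⟨-77967360, 960, 0⟩, ⟨78612480, -960, 0⟩, ⟨-295004160, 0, 4000⟩, ⟨156856320, -31, -2000⟩]) rfl rfl
    (List.mem_of_getElem? (i := 79) rfl) TI_fr TI_cov ?_
  · intro X Y h
    simp only [List.forall_mem_cons, List.not_mem_nil, false_imp_iff, implies_true, and_true] at h
    push_cast at h ⊢
    obtain ⟨h0, h1, h2, h3⟩ := h
    refine ⟨⟨?_, ?_⟩, ?_, ?_⟩ <;> linarith

theorem TI_rg80 : ROK [.l ⟨0, 960, 0, -841⟩ ⟨0, 960, 0, 841⟩, .l ⟨0, -960, 0, 851⟩ ⟨0, 960, 0, 851⟩, .l ⟨0, 960, 0, -841⟩ ⟨0, 0, 250, 223⟩, .l ⟨0, 960, 0, -851⟩ ⟨0, 0, 250, 223⟩, .l ⟨0, 960, 0, -841⟩ ⟨0, 0, -4000, -3799⟩, .l ⟨0, 960, 0, -851⟩ ⟨0, 0, -4000, -3799⟩, .l ⟨0, 960, 0, -841⟩ ⟨0, 3140, 2478, 4979⟩, .l ⟨0, 960, 0, -851⟩ ⟨0, 3140, 2478, 4979⟩] := by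
  refine rok_dys (s := 1) (nlo := 841) (nhi := 851) (q := 960) (by decide) (by decide) (by decide) (by decide) (z := 3) (by decide) TI_sc (k := 1) (by decide) (Q := [(0, 250, -223), (0, -4000, 3799), (3140, 2478, -4979)])
    (P := [⟨-77506560, 960, 0⟩, ⟨78428160, -960, 0⟩, ⟨-20551680, 0, 250⟩, ⟨350115840, 0, -4000⟩, ⟨-458864640, 3140, 2478⟩]) rfl rfl
    (List.mem_of_getElem? (i := 80) rfl) TI_fr TI_cov ?_
  · intro X Y h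
    simp only [List.forall_mem_cons, List.not_mem_nil, false_imp_iff, implies_true, and_true] at h
    push_cast at h ⊢
    obtain ⟨h0, h1, h2, h3, h4⟩ := h
    refine ⟨⟨?_, ?_⟩, ?_, ?_⟩ <;> linarith

theorem TI_rg81 : ROK [.l ⟨0, 320, 0, -284⟩ ⟨0, 320, 0, 284⟩, .l ⟨0, -320, 0, 287⟩ ⟨0, 320, 0, 287⟩, .l ⟨0, 320, 0, -284⟩ ⟨0, 0, 4000, 3551⟩, .l ⟨0, 320, 0, -287⟩ ⟨0, 0, 4000, 3551⟩, .l ⟨0, 320, 0, -284⟩ ⟨0, -148, -3997, -3927⟩, .l ⟨0, 320, 0, -287⟩ ⟨0, -148, -3997, -3927⟩, .l ⟨0, 320, 0, -284⟩ ⟨0, 2393, 3205, 4978⟩, .l ⟨0, 320, 0, -287⟩ ⟨0, 2393, 3205, 4978⟩] := by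
  refine rok_dys (s := 1) (nlo := 284) (nhi := 287) (q := 320) (by decide) (by decide) (by decide) (by decide) (z := 3) (by decide) TI_sc (k := 1) (by decide) (Q := [(0, 4000, -3551), (-148, -3997, 3927), (2393, 3205, -4978)])
    (P := [⟨-26173440, 320, 0⟩, ⟨26449920, -320, 0⟩, ⟨-327260160, 0, 4000⟩, ⟨361912320, -148, -3997⟩, ⟨-458772480, 2393, 3205⟩]) rfl rfl
    (List.mem_of_getElem? (i := 81) rfl) TI_fr TI_cov ?_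
  · intro X Y h
    simp only [List.forall_mem_cons, List.not_mem_nil, false_imp_iff, implies_true, and_true] at h
    push_cast at h ⊢
    obtain ⟨h0, h1, h2, h3, h4⟩ := h
    refine ⟨⟨?_, ?_⟩, ?_, ?_⟩ <;> linarith

theorem TI_rg82 : ROK [.l ⟨0, 480, 0, -424⟩ ⟨0, 480, 0, 424⟩, .l ⟨0, -480, 0, 429⟩ ⟨0, 480, 0, 429⟩, .l ⟨0, 480, 0, -424⟩ ⟨0, 27, 1333, 1091⟩, .l ⟨0, 480, 0, -429⟩ ⟨0, 27, 1333, 1091⟩, .l ⟨0, 480, 0, -424⟩ ⟨0, -27, -1333, -1140⟩, .l ⟨0, 480, 0, -429⟩ ⟨0, -27, -1333, -1140⟩] := by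
  refine rok_dys (s := 1) (nlo := 424) (nhi := 429) (q := 480) (by decide) (by decide) (by decide) (by decide) (z := 3) (by decide) TI_sc (k := 1) (by decide) (Q := [(27, 1333, -1091), (-27, -1333, 1140)])
    (P := [⟨-39075840, 480, 0⟩, ⟨39536640, -480, 0⟩, ⟨-100546560, 27, 1333⟩, ⟨105062400, -27, -1333⟩]) rfl rfl
    (List.mem_of_getElem? (i := 82) rfl) TI_fr TI_cov ?_
  · intro X Y h
    simp only [List.forall_mem_cons, List.not_mem_nil, false_imp_iff, implies_true, and_true] at h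
    push_cast at h ⊢
    obtain ⟨h0, h1, h2, h3⟩ := h
    refine ⟨⟨?_, ?_⟩, ?_, ?_⟩ <;> linarith

theorem TI_rg83 : ROK [.l ⟨0, 480, 0, -421⟩ ⟨0, 480, 0, 421⟩, .l ⟨0, -480, 0, 428⟩ ⟨0, 480, 0, 428⟩, .l ⟨0, 480, 0, -421⟩ ⟨0, 0, 100, 89⟩, .l ⟨0, 480, 0, -428⟩ ⟨0, 0, 100, 89⟩, .l ⟨0, 480, 0, -421⟩ ⟨0, -2403, -3198, -5143⟩, .l ⟨0, 480, 0, -428⟩ ⟨0, -2403, -3198, -5143⟩, .l ⟨0, 480, 0, -421⟩ ⟨0, 2063, 3427, 4878⟩, .l ⟨0, 480, 0, -428⟩ ⟨0, 2063, 3427, 4878⟩] := by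
  refine rok_dys (s := 1) (nlo := 421) (nhi := 428) (q := 480) (by decide) (by decide) (by decide) (by decide) (z := 3) (by decide) TI_sc (k := 1) (by decide) (Q := [(0, 100, -89), (-2403, -3198, 5143), (2063, 3427, -4878)])
    (P := [⟨-38799360, 480, 0⟩, ⟨39444480, -480, 0⟩, ⟨-8202240, 0, 100⟩, ⟨473978880, -2403, -3198⟩, ⟨-449556480, 2063, 3427⟩]) rfl rfl
    (List.mem_of_getElem? (i := 83) rfl) TI_fr TI_cov ?_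
  · intro X Y h
    simp only [List.forall_mem_cons, List.not_mem_nil, false_imp_iff, implies_true, and_true] at h
    push_cast at h ⊢
    obtain ⟨h0, h1, h2, h3, h4⟩ := h
    refine ⟨⟨?_, ?_⟩, ?_, ?_⟩ <;> linarith

theorem TI_rg84 : ROK [.l ⟨0, 960, 0, -831⟩ ⟨0, 960, 0, 831⟩, .l ⟨0, -960, 0, 838⟩ ⟨0, 960, 0, 838⟩, .l ⟨0, 960, 0, -831⟩ ⟨0, -2409, 3193, 474⟩, .l ⟨0, 960, 0, -838⟩ ⟨0, -2409, 3193, 474⟩, .l ⟨0, 960, 0, -831⟩ ⟨0, 2409, -3193, -579⟩, .l ⟨0, 960, 0, -838⟩ ⟨0, 2409, -3193, -579⟩, .l ⟨0, 960, 0, -831⟩ ⟨0, -2583, -3054, -4802⟩, .l ⟨0, 960, 0, -838⟩ ⟨0, -2583, -3054, -4802⟩] := by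
  refine rok_dys (s := 1) (nlo := 831) (nhi := 838) (q := 960) (by decide) (by decide) (by decide) (by decide) (z := 3) (by decide) TI_sc (k := 1) (by decide) (Q := [(-2409, 3193, -474), (2409, -3193, 579), (-2583, -3054, 4802)])
    (P := [⟨-76584960, 960, 0⟩, ⟨77230080, -960, 0⟩, ⟨-43683840, -2409, 3193⟩, ⟨53360640, 2409, -3193⟩, ⟨442552320, -2583, -3054⟩]) rfl rfl
    (List.mem_of_getElem? (i := 84) rfl) TI_fr TI_cov ?_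
  · intro X Y h
    simp only [List.forall_mem_cons, List.not_mem_nil, false_imp_iff, implies_true, and_true] at h
    push_cast at h ⊢
    obtain ⟨h0, h1, h2, h3, h4⟩ := h
    refine ⟨⟨?_, ?_⟩, ?_, ?_⟩ <;> linarith

theorem TI_rg85 : ROK [.l ⟨0, 160, 0, -143⟩ ⟨0, 160, 0, 143⟩, .l ⟨0, -160, 0, 145⟩ ⟨0, 160, 0, 145⟩, .l ⟨0, 160, 0, -143⟩ ⟨0, 1261, 3796, 4493⟩, .l ⟨0, 160, 0, -145⟩ ⟨0, 1261, 3796, 4493⟩, .l ⟨0, 160, 0, -143⟩ ⟨0, -1261, -3796, -4730⟩, .l ⟨0, 160, 0, -145⟩ ⟨0, -1261, -3796, -4730⟩] := by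
  refine rok_dys (s := 1) (nlo := 143) (nhi := 145) (q := 160) (by decide) (by decide) (by decide) (by decide) (z := 3) (by decide) TI_sc (k := 1) (by decide) (Q := [(1261, 3796, -4493), (-1261, -3796, 4730)])
    (P := [⟨-13178880, 160, 0⟩, ⟨13363200, -160, 0⟩, ⟨-414074880, 1261, 3796⟩, ⟨435916800, -1261, -3796⟩]) rfl rfl
    (List.mem_of_getElem? (i := 85) rfl) TI_fr TI_cov ?_
  · intro X Y h
    simp only [List.forall_mem_cons, List.not_mem_nil, false_imp_iff, implies_true, and_true] at h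
    push_cast at h ⊢
    obtain ⟨h0, h1, h2, h3⟩ := h
    refine ⟨⟨?_, ?_⟩, ?_, ?_⟩ <;> linarith

theorem TI_rg86 : ROK [.l ⟨0, 60, 0, -54⟩ ⟨0, 60, 0, 54⟩, .l ⟨0, -60, 0, 55⟩ ⟨0, 60, 0, 55⟩, .l ⟨0, 60, 0, -54⟩ ⟨0, 1836, 3554, 4797⟩, .l ⟨0, 60, 0, -55⟩ ⟨0, 1836, 3554, 4797⟩, .l ⟨0, 60, 0, -54⟩ ⟨0, -1836, -3554, -5025⟩, .l ⟨0, 60, 0, -55⟩ ⟨0, -1836, -3554, -5025⟩] := by
  refine rok_dys (s := 1) (nlo := 54) (nhi := 55) (q := 60) (by decide) (by decide) (by decide) (by decide) (z := 3) (by decide) TI_sc (k := 1) (by decide) (Q := [(1836, 3554, -4797), (-1836, -3554, 5025)])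
    (P := [⟨-4976640, 60, 0⟩, ⟨5068800, -60, 0⟩, ⟨-442091520, 1836, 3554⟩, ⟨463104000, -1836, -3554⟩]) rfl rfl
    (List.mem_of_getElem? (i := 86) rfl) TI_fr TI_cov ?_
  · intro X Y h
    simp only [List.forall_mem_cons, List.not_mem_nil, false_imp_iff, implies_true, and_true] at h
    push_cast at h ⊢
    obtain ⟨h0, h1, h2, h3⟩ := h
    refine ⟨⟨?_, ?_⟩, ?_, ?_⟩ <;> linarith

theorem TI_rg87 : ROK [.l ⟨0, 960, 0, -853⟩ ⟨0, 960, 0, 853⟩, .l ⟨0, -960, 0, 864⟩ ⟨0, 960, 0, 864⟩, .l ⟨0, 960, 0, -853⟩ ⟨0, 0, 800, 709⟩, .l ⟨0, 960, 0, -864⟩ ⟨0, 0, 800, 709⟩, .l ⟨0, 960, 0, -853⟩ ⟨0, 0, -4000, -3799⟩, .l ⟨0, 960, 0, -864⟩ ⟨0, 0, -4000, -3799⟩, .l ⟨0, 960, 0, -853⟩ ⟨0, 3259, 2319, 4971⟩, .l ⟨0, 960, 0, -864⟩ ⟨0, 3259, 2319, 4971⟩] := by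
  refine rok_dys (s := 1) (nlo := 853) (nhi := 864) (q := 960) (by decide) (by decide) (by decide) (by decide) (z := 3) (by decide) TI_sc (k := 1) (by decide) (Q := [(0, 800, -709), (0, -4000, 3799), (3259, 2319, -4971)])
    (P := [⟨-78612480, 960, 0⟩, ⟨79626240, -960, 0⟩, ⟨-65341440, 0, 800⟩, ⟨350115840, 0, -4000⟩, ⟨-458127360, 3259, 2319⟩]) rfl rfl
    (List.mem_of_getElem? (i := 87) rfl) TI_fr TI_cov ?_
  · intro X Y h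
    simp only [List.forall_mem_cons, List.not_mem_nil, false_imp_iff, implies_true, and_true] at h
    push_cast at h ⊢
    obtain ⟨h0, h1, h2, h3, h4⟩ := h
    refine ⟨⟨?_, ?_⟩, ?_, ?_⟩ <;> linarith

theorem TI_rg88 : ROK [.l ⟨0, 80, 0, -70⟩ ⟨0, 80, 0, 70⟩, .l ⟨0, -80, 0, 73⟩ ⟨0, 80, 0, 73⟩, .l ⟨0, 80, 0, -70⟩ ⟨0, 2057, 3430, 4877⟩, .l ⟨0, 80, 0, -73⟩ ⟨0, 2057, 3430, 4877⟩, .l ⟨0, 80, 0, -70⟩ ⟨0, -2057, -3430, -5054⟩, .l ⟨0, 80, 0, -73⟩ ⟨0, -2057, -3430, -5054⟩, .l ⟨0, 80, 0, -70⟩ ⟨0, 1101, 3845, 4398⟩, .l ⟨0, 80, 0, -73⟩ ⟨0, 1101, 3845, 4398⟩] := by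
  refine rok_dys (s := 1) (nlo := 70) (nhi := 73) (q := 80) (by decide) (by decide) (by decide) (by decide) (z := 3) (by decide) TI_sc (k := 1) (by decide) (Q := [(2057, 3430, -4877), (-2057, -3430, 5054), (1101, 3845, -4398)])
    (P := [⟨-6451200, 80, 0⟩, ⟨6727680, -80, 0⟩, ⟨-449464320, 2057, 3430⟩, ⟨465776640, -2057, -3430⟩, ⟨-405319680, 1101, 3845⟩]) rfl rfl
    (List.mem_of_getElem? (i := 88) rfl) TI_fr TI_cov ?_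
  · intro X Y h
    simp only [List.forall_mem_cons, List.not_mem_nil, false_imp_iff, implies_true, and_true] at h
    push_cast at h ⊢
    obtain ⟨h0, h1, h2, h3, h4⟩ := h
    refine ⟨⟨?_, ?_⟩, ?_, ?_⟩ <;> linarith

theorem TI_rg89 : ROK [.l ⟨0, 80, 0, -69⟩ ⟨0, 80, 0, 69⟩, .l ⟨0, -80, 0, 72⟩ ⟨0, 80, 0, 72⟩, .l ⟨0, 80, 0, -69⟩ ⟨0, 0, 4000, 3201⟩, .l ⟨0, 80, 0, -72⟩ ⟨0, 0, 4000, 3201⟩, .l ⟨0, 80, 0, -69⟩ ⟨0, -202, -3995, -3520⟩, .l ⟨0, 80, 0, -72⟩ ⟨0, -202, -3995, -3520⟩, .l ⟨0, 80, 0, -69⟩ ⟨0, 1975, -3479, -1194⟩, .l ⟨0, 80, 0, -72⟩ ⟨0, 1975, -3479, -1194⟩] := by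
  refine rok_dys (s := 1) (nlo := 69) (nhi := 72) (q := 80) (by decide) (by decide) (by decide) (by decide) (z := 3) (by decide) TI_sc (k := 1) (by decide) (Q := [(0, 4000, -3201), (-202, -3995, 3520), (1975, -3479, 1194)])
    (P := [⟨-6359040, 80, 0⟩, ⟨6635520, -80, 0⟩, ⟨-295004160, 0, 4000⟩, ⟨324403200, -202, -3995⟩, ⟨110039040, 1975, -3479⟩]) rfl rfl
    (List.mem_of_getElem? (i := 89) rfl) TI_fr TI_cov ?_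
  · intro X Y h
    simp only [List.forall_mem_cons, List.not_mem_nil, false_imp_iff, implies_true, and_true] at h
    push_cast at h ⊢
    obtain ⟨h0, h1, h2, h3, h4⟩ := h
    refine ⟨⟨?_, ?_⟩, ?_, ?_⟩ <;> linarith

theorem TI_rg90 : ROK [.l ⟨0, 480, 0, -430⟩ ⟨0, 480, 0, 430⟩, .l ⟨0, -480, 0, 439⟩ ⟨0, 480, 0, 439⟩, .l ⟨0, 480, 0, -430⟩ ⟨0, 0, 4000, 3201⟩, .l ⟨0, 480, 0, -439⟩ ⟨0, 0, 4000, 3201⟩, .l ⟨0, 480, 0, -430⟩ ⟨0, 0, -4000, -3349⟩, .l ⟨0, 480, 0, -439⟩ ⟨0, 0, -4000, -3349⟩] := by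
  refine rok_dys (s := 1) (nlo := 430) (nhi := 439) (q := 480) (by decide) (by decide) (by decide) (by decide) (z := 3) (by decide) TI_sc (k := 1) (by decide) (Q := [(0, 4000, -3201), (0, -4000, 3349)])
    (P := [⟨-39628800, 480, 0⟩, ⟨40458240, -480, 0⟩, ⟨-295004160, 0, 4000⟩, ⟨308643840, 0, -4000⟩]) rfl rfl
    (List.mem_of_getElem? (i := 90) rfl) TI_fr TI_cov ?_
  · intro X Y h
    simp only [List.forall_mem_cons, List.not_mem_nil, false_imp_iff, implies_true, and_true] at h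
    push_cast at h ⊢
    obtain ⟨h0, h1, h2, h3⟩ := h
    refine ⟨⟨?_, ?_⟩, ?_, ?_⟩ <;> linarith

theorem TI_rg91 : ROK [.l ⟨0, 960, 0, -849⟩ ⟨0, 960, 0, 849⟩, .l ⟨0, -960, 0, 857⟩ ⟨0, 960, 0, 857⟩, .l ⟨0, 960, 0, -849⟩ ⟨0, 1560, 3683, 4662⟩, .l ⟨0, 960, 0, -857⟩ ⟨0, 1560, 3683, 4662⟩, .l ⟨0, 960, 0, -849⟩ ⟨0, 1487, -3713, -2197⟩, .l ⟨0, 960, 0, -857⟩ ⟨0, 1487, -3713, -2197⟩] := by
  refine rok_dys (s := 1) (nlo := 849) (nhi := 857) (q := 960) (by decide) (by decide) (by decide) (by decide) (z := 3) (by decide) TI_sc (k := 1) (by decide) (Q := [(1560, 3683, -4662), (1487, -3713, 2197)])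
    (P := [⟨-78243840, 960, 0⟩, ⟨78981120, -960, 0⟩, ⟨-429649920, 1560, 3683⟩, ⟨202475520, 1487, -3713⟩]) rfl rfl
    (List.mem_of_getElem? (i := 91) rfl) TI_fr TI_cov ?_
  · intro X Y h
    simp only [List.forall_mem_cons, List.not_mem_nil, false_imp_iff, implies_true, and_true] at h
    push_cast at h ⊢
    obtain ⟨h0, h1, h2, h3⟩ := h
    refine ⟨⟨?_, ?_⟩, ?_, ?_⟩ <;> linarith

theorem TI_rg92 : ROK [.l ⟨0, 960, 0, -849⟩ ⟨0, 960, 0, 849⟩, .l ⟨0, -960, 0, 860⟩ ⟨0, 960, 0, 860⟩, .l ⟨0, 960, 0, -849⟩ ⟨0, 0, 4000, 3201⟩, .l ⟨0, 960, 0, -860⟩ ⟨0, 0, 4000, 3201⟩, .l ⟨0, 960, 0, -849⟩ ⟨0, 0, -4000, -3349⟩, .l ⟨0, 960, 0, -860⟩ ⟨0, 0, -4000, -3349⟩] := by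
  refine rok_dys (s := 1) (nlo := 849) (nhi := 860) (q := 960) (by decide) (by decide) (by decide) (by decide) (z := 3) (by decide) TI_sc (k := 1) (by decide) (Q := [(0, 4000, -3201), (0, -4000, 3349)])
    (P := [⟨-78243840, 960, 0⟩, ⟨79257600, -960, 0⟩, ⟨-295004160, 0, 4000⟩, ⟨308643840, 0, -4000⟩]) rfl rfl
    (List.mem_of_getElem? (i := 92) rfl) TI_fr TI_cov ?_
  · intro X Y h
    simp only [List.forall_mem_cons, List.not_mem_nil, false_imp_iff, implies_true, and_true] at h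
    push_cast at h ⊢
    obtain ⟨h0, h1, h2, h3⟩ := h
    refine ⟨⟨?_, ?_⟩, ?_, ?_⟩ <;> linarith

theorem TI_rg93 : ROK [.l ⟨0, 20, 0, -17⟩ ⟨0, 20, 0, 17⟩, .l ⟨0, -20, 0, 18⟩ ⟨0, 20, 0, 18⟩, .l ⟨0, 20, 0, -17⟩ ⟨0, 0, 4000, 3539⟩, .l ⟨0, 20, 0, -18⟩ ⟨0, 0, 4000, 3539⟩, .l ⟨0, 20, 0, -17⟩ ⟨0, 1329, -3773, -2234⟩, .l ⟨0, 20, 0, -18⟩ ⟨0, 1329, -3773, -2234⟩, .l ⟨0, 20, 0, -17⟩ ⟨0, 1688, 3627, 4726⟩, .l ⟨0, 20, 0, -18⟩ ⟨0, 1688, 3627, 4726⟩] := by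
  refine rok_dys (s := 1) (nlo := 17) (nhi := 18) (q := 20) (by decide) (by decide) (by decide) (by decide) (z := 3) (by decide) TI_sc (k := 1) (by decide) (Q := [(0, 4000, -3539), (1329, -3773, 2234), (1688, 3627, -4726)])
    (P := [⟨-1566720, 20, 0⟩, ⟨1658880, -20, 0⟩, ⟨-326154240, 0, 4000⟩, ⟨205885440, 1329, -3773⟩, ⟨-435548160, 1688, 3627⟩]) rfl rfl
    (List.mem_of_getElem? (i := 93) rfl) TI_fr TI_cov ?_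
  · intro X Y h
    simp only [List.forall_mem_cons, List.not_mem_nil, false_imp_iff, implies_true, and_true] at h
    push_cast at h ⊢
    obtain ⟨h0, h1, h2, h3, h4⟩ := h
    refine ⟨⟨?_, ?_⟩, ?_, ?_⟩ <;> linarith

theorem TI_rg94 : ROK [.l ⟨0, 960, 0, -842⟩ ⟨0, 960, 0, 842⟩, .l ⟨0, -960, 0, 851⟩ ⟨0, 960, 0, 851⟩, .l ⟨0, 960, 0, -842⟩ ⟨0, 1096, 1673, 2458⟩, .l ⟨0, 960, 0, -851⟩ ⟨0, 1096, 1673, 2458⟩, .l ⟨0, 960, 0, -842⟩ ⟨0, 2302, -3271, -1063⟩, .l ⟨0, 960, 0, -851⟩ ⟨0, 2302, -3271, -1063⟩, .l ⟨0, 960, 0, -842⟩ ⟨0, -232, 3993, 3359⟩, .l ⟨0, 960, 0, -851⟩ ⟨0, -232, 3993, 3359⟩] := by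
  refine rok_dys (s := 1) (nlo := 842) (nhi := 851) (q := 960) (by decide) (by decide) (by decide) (by decide) (z := 3) (by decide) TI_sc (k := 1) (by decide) (Q := [(1096, 1673, -2458), (2302, -3271, 1063), (-232, 3993, -3359)])
    (P := [⟨-77598720, 960, 0⟩, ⟨78428160, -960, 0⟩, ⟨-226529280, 1096, 1673⟩, ⟨97966080, 2302, -3271⟩, ⟨-309565440, -232, 3993⟩]) rfl rfl
    (List.mem_of_getElem? (i := 94) rfl) TI_fr TI_cov ?_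
  · intro X Y h
    simp only [List.forall_mem_cons, List.not_mem_nil, false_imp_iff, implies_true, and_true] at h
    push_cast at h ⊢
    obtain ⟨h0, h1, h2, h3, h4⟩ := h
    refine ⟨⟨?_, ?_⟩, ?_, ?_⟩ <;> linarith

theorem TI_rg95 : ROK [.l ⟨0, 960, 0, -858⟩ ⟨0, 960, 0, 858⟩, .l ⟨0, -960, 0, 865⟩ ⟨0, 960, 0, 865⟩, .l ⟨0, 960, 0, -858⟩ ⟨0, 1783, 3581, 4770⟩, .l ⟨0, 960, 0, -865⟩ ⟨0, 1783, 3581, 4770⟩, .l ⟨0, 960, 0, -858⟩ ⟨0, -1783, -3581, -4992⟩, .l ⟨0, 960, 0, -865⟩ ⟨0, -1783, -3581, -4992⟩, .l ⟨0, 960, 0, -858⟩ ⟨0, -1199, 3816, 2297⟩, .l ⟨0, 960, 0, -865⟩ ⟨0, -1199, 3816, 2297⟩] := by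
  refine rok_dys (s := 1) (nlo := 858) (nhi := 865) (q := 960) (by decide) (by decide) (by decide) (by decide) (z := 3) (by decide) TI_sc (k := 1) (by decide) (Q := [(1783, 3581, -4770), (-1783, -3581, 4992), (-1199, 3816, -2297)])
    (P := [⟨-79073280, 960, 0⟩, ⟨79718400, -960, 0⟩, ⟨-439603200, 1783, 3581⟩, ⟨460062720, -1783, -3581⟩, ⟨-211691520, -1199, 3816⟩]) rfl rfl
    (List.mem_of_getElem? (i := 95) rfl) TI_fr TI_cov ?_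
  · intro X Y h
    simp only [List.forall_mem_cons, List.not_mem_nil, false_imp_iff, implies_true, and_true] at h
    push_cast at h ⊢
    obtain ⟨h0, h1, h2, h3, h4⟩ := h
    refine ⟨⟨?_, ?_⟩, ?_, ?_⟩ <;> linarith

end Pool.Agent.TET
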