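import Pool.Agent.Helper38_TET.TI_C

/-!
# MP_c7c9bf_co: certificates, family TI
-/

set_option autoImplicit false
set_option maxRecDepth 100000

namespace Pool.Agent.TET

theorem TI_rg96 : ROK [.l ⟨0, 480, 0, -429⟩ ⟨0, 480, 0, 429⟩, .l ⟨0, -480, 0, 433⟩ ⟨0, 480, 0, 433⟩, .l ⟨0, 480, 0, -429⟩ ⟨0, 0, 4000, -7309⟩, .l ⟨0, 480, 0, -433⟩ ⟨0, 0, 4000, -7309⟩, .l ⟨0, 480, 0, -429⟩ ⟨0, -972, -1748, -7063⟩, .l ⟨0, 480, 0, -433⟩ ⟨0, -972, -1748, -7063⟩, .l ⟨0, 480, 0, -429⟩ ⟨0, 952, 3885, 4295⟩, .l ⟨0, 480, 0, -433⟩ ⟨0, 952, 3885, 4295⟩, .l ⟨0, 480, 0, -429⟩ ⟨0, -960, -3883, -4544⟩, .l ⟨0, 480, 0, -433⟩ ⟨0, -960, -3883, -4544⟩] := by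
  refine rok_dys (s := 1) (nlo := 429) (nhi := 433) (q := 480) (by decide) (by decide) (by decide) (by decide) (z := 3) (by decide) TI_sc (k := 1) (by decide) (Q := [(0, 4000, 7309), (-972, -1748, 7063), (952, 3885, -4295), (-960, -3883, 4544)])
    (P := [⟨-39536640, 480, 0⟩, ⟨39905280, -480, 0⟩, ⟨673597440, 0, 4000⟩, ⟨650926080, -972, -1748⟩, ⟨-395827200, 952, 3885⟩, ⟨418775040, -960, -3883⟩]) rfl rfl
    (List.mem_of_getElem? (i := 96) rfl) TI_fr TI_cov ?_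
  · intro X Y h
    simp only [List.forall_mem_cons, List.not_mem_nil, false_imp_iff, implies_true, and_true] at h
    push_cast at h ⊢
    obtain ⟨h0, h1, h2, h3, h4, h5⟩ := h
    refine ⟨⟨?_, ?_⟩, ?_, ?_⟩ <;> linarith

theorem TI_rg97 : ROK [.l ⟨0, 60, 0, -52⟩ ⟨0, 60, 0, 52⟩, .l ⟨0, -60, 0, 53⟩ ⟨0, 60, 0, 53⟩, .l ⟨0, 60, 0, -52⟩ ⟨0, 2412, 3191, -7022⟩, .l ⟨0, 60, 0, -53⟩ ⟨0, 2412, 3191, -7022⟩, .l ⟨0, 60, 0, -52⟩ ⟨0, -893, -3899, -4476⟩, .l ⟨0, 60, 0, -53⟩ ⟨0, -893, -3899, -4476⟩, .l ⟨0, 60, 0, -52⟩ ⟨0, 1248, 3800, 4505⟩, .l ⟨0, 60, 0, -53⟩ ⟨0, 1248, 3800, 4505⟩] := by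
  refine rok_dys (s := 1) (nlo := 52) (nhi := 53) (q := 60) (by decide) (by decide) (by decide) (by decide) (z := 3) (by decide) TI_sc (k := 1) (by decide) (Q := [(2412, 3191, 7022), (-893, -3899, 4476), (1248, 3800, -4505)])
    (P := [⟨-4792320, 60, 0⟩, ⟨4884480, -60, 0⟩, ⟨647147520, 2412, 3191⟩, ⟨412508160, -893, -3899⟩, ⟨-415180800, 1248, 3800⟩]) rfl rfl
    (List.mem_of_getElem? (i := 97) rfl) TI_fr TI_cov ?_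
  · intro X Y h
    simp only [List.forall_mem_cons, List.not_mem_nil, false_imp_iff, implies_true, and_true] at h
    push_cast at h ⊢
    obtain ⟨h0, h1, h2, h3, h4⟩ := h
    refine ⟨⟨?_, ?_⟩, ?_, ?_⟩ <;> linarith

theorem TI_rg98 : ROK [.l ⟨0, 80, 0, -71⟩ ⟨0, 80, 0, 71⟩, .l ⟨0, -80, 0, 75⟩ ⟨0, 80, 0, 75⟩, .l ⟨0, 80, 0, -71⟩ ⟨0, 1727, 3608, 4746⟩, .l ⟨0, 80, 0, -75⟩ ⟨0, 1727, 3608, 4746⟩, .l ⟨0, 80, 0, -71⟩ ⟨0, -1727, -3608, -4957⟩, .l ⟨0, 80, 0, -75⟩ ⟨0, -1727, -3608, -4957⟩, .l ⟨0, 80, 0, -71⟩ ⟨0, -753, 1853, 923⟩, .l ⟨0, 80, 0, -75⟩ ⟨0, -753, 1853, 923⟩] := by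
  refine rok_dys (s := 1) (nlo := 71) (nhi := 75) (q := 80) (by decide) (by decide) (by decide) (by decide) (z := 3) (by decide) TI_sc (k := 1) (by decide) (Q := [(1727, 3608, -4746), (-1727, -3608, 4957), (-753, 1853, -923)])
    (P := [⟨-6543360, 80, 0⟩, ⟨6912000, -80, 0⟩, ⟨-437391360, 1727, 3608⟩, ⟨456837120, -1727, -3608⟩, ⟨-85063680, -753, 1853⟩]) rfl rfl
    (List.mem_of_getElem? (i := 98) rfl) TI_fr TI_cov ?_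
  · intro X Y h
    simp only [List.forall_mem_cons, List.not_mem_nil, false_imp_iff, implies_true, and_true] at h
    push_cast at h ⊢
    obtain ⟨h0, h1, h2, h3, h4⟩ := h
    refine ⟨⟨?_, ?_⟩, ?_, ?_⟩ <;> linarith

theorem TI_rg99 : ROK [.l ⟨0, 480, 0, -427⟩ ⟨0, 480, 0, 427⟩, .l ⟨0, -480, 0, 434⟩ ⟨0, 480, 0, 434⟩, .l ⟨0, 480, 0, -427⟩ ⟨0, -959, 3883, 2572⟩, .l ⟨0, 480, 0, -434⟩ ⟨0, -959, 3883, 2572⟩, .l ⟨0, 480, 0, -427⟩ ⟨0, 959, -3883, -2820⟩, .l ⟨0, 480, 0, -434⟩ ⟨0, 959, -3883, -2820⟩, .l ⟨0, 480, 0, -427⟩ ⟨0, 1811, 3567, 4783⟩, .l ⟨0, 480, 0, -434⟩ ⟨0, 1811, 3567, 4783⟩] := by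
  refine rok_dys (s := 1) (nlo := 427) (nhi := 434) (q := 480) (by decide) (by decide) (by decide) (by decide) (z := 3) (by decide) TI_sc (k := 1) (by decide) (Q := [(-959, 3883, -2572), (959, -3883, 2820), (1811, 3567, -4783)])
    (P := [⟨-39352320, 480, 0⟩, ⟨39997440, -480, 0⟩, ⟨-237035520, -959, 3883⟩, ⟨259891200, 959, -3883⟩, ⟨-440801280, 1811, 3567⟩]) rfl rfl
    (List.mem_of_getElem? (i := 99) rfl) TI_fr TI_cov ?_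
  · intro X Y h
    simp only [List.forall_mem_cons, List.not_mem_nil, false_imp_iff, implies_true, and_true] at h
    push_cast at h ⊢
    obtain ⟨h0, h1, h2, h3, h4⟩ := h
    refine ⟨⟨?_, ?_⟩, ?_, ?_⟩ <;> linarith

theorem TI_rg100 : ROK [.l ⟨0, 960, 0, -853⟩ ⟨0, 960, 0, 853⟩, .l ⟨0, -960, 0, 863⟩ ⟨0, 960, 0, 863⟩, .l ⟨0, 960, 0, -853⟩ ⟨0, 0, 800, 709⟩, .l ⟨0, 960, 0, -863⟩ ⟨0, 0, 800, 709⟩, .l ⟨0, 960, 0, -853⟩ ⟨0, 0, -4000, -3799⟩, .l ⟨0, 960, 0, -863⟩ ⟨0, 0, -4000, -3799⟩, .l ⟨0, 960, 0, -853⟩ ⟨0, 3260, 2318, 4971⟩, .l ⟨0, 960, 0, -863⟩ ⟨0, 3260, 2318, 4971⟩] := by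
  refine rok_dys (s := 1) (nlo := 853) (nhi := 863) (q := 960) (by decide) (by decide) (by decide) (by decide) (z := 3) (by decide) TI_sc (k := 1) (by decide) (Q := [(0, 800, -709), (0, -4000, 3799), (3260, 2318, -4971)])
    (P := [⟨-78612480, 960, 0⟩, ⟨79534080, -960, 0⟩, ⟨-65341440, 0, 800⟩, ⟨350115840, 0, -4000⟩, ⟨-458127360, 3260, 2318⟩]) rfl rfl
    (List.mem_of_getElem? (i := 100) rfl) TI_fr TI_cov ?_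
  · intro X Y h
    simp only [List.forall_mem_cons, List.not_mem_nil, false_imp_iff, implies_true, and_true] at h
    push_cast at h ⊢
    obtain ⟨h0, h1, h2, h3, h4⟩ := h
    refine ⟨⟨?_, ?_⟩, ?_, ?_⟩ <;> linarith

theorem TI_rg101 : ROK [.l ⟨0, 960, 0, -834⟩ ⟨0, 960, 0, 834⟩, .l ⟨0, -960, 0, 841⟩ ⟨0, 960, 0, 841⟩, .l ⟨0, 960, 0, -834⟩ ⟨0, -2002, 3463, -8848⟩, .l ⟨0, 960, 0, -841⟩ ⟨0, -2002, 3463, -8848⟩, .l ⟨0, 960, 0, -834⟩ ⟨0, 85, -3999, -3273⟩, .l ⟨0, 960, 0, -841⟩ ⟨0, 85, -3999, -3273⟩, .l ⟨0, 960, 0, -834⟩ ⟨0, 2196, 3343, 4600⟩, .l ⟨0, 960, 0, -841⟩ ⟨0, 2196, 3343, 4600⟩] := by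
  refine rok_dys (s := 1) (nlo := 834) (nhi := 841) (q := 960) (by decide) (by decide) (by decide) (by decide) (z := 3) (by decide) TI_sc (k := 1) (by decide) (Q := [(-2002, 3463, 8848), (85, -3999, 3273), (2196, 3343, -4600)])
    (P := [⟨-76861440, 960, 0⟩, ⟨77506560, -960, 0⟩, ⟨815431680, -2002, 3463⟩, ⟨301639680, 85, -3999⟩, ⟨-423936000, 2196, 3343⟩]) rfl rfl
    (List.mem_of_getElem? (i := 101) rfl) TI_fr TI_cov ?_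
  · intro X Y h
    simp only [List.forall_mem_cons, List.not_mem_nil, false_imp_iff, implies_true, and_true] at h
    push_cast at h ⊢
    obtain ⟨h0, h1, h2, h3, h4⟩ := h
    refine ⟨⟨?_, ?_⟩, ?_, ?_⟩ <;> linarith

theorem TI_rg102 : ROK [.l ⟨0, 480, 0, -427⟩ ⟨0, 480, 0, 427⟩, .l ⟨0, -480, 0, 431⟩ ⟨0, 480, 0, 431⟩, .l ⟨0, 480, 0, -427⟩ ⟨0, 936, 3889, 4285⟩, .l ⟨0, 480, 0, -431⟩ ⟨0, 936, 3889, 4285⟩, .l ⟨0, 480, 0, -427⟩ ⟨0, -936, -3889, -4526⟩, .l ⟨0, 480, 0, -431⟩ ⟨0, -936, -3889, -4526⟩, .l ⟨0, 480, 0, -427⟩ ⟨0, 2960, 2691, 5030⟩, .l ⟨0, 480, 0, -431⟩ ⟨0, 2960, 2691, 5030⟩] := by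
  refine rok_dys (s := 1) (nlo := 427) (nhi := 431) (q := 480) (by decide) (by decide) (by decide) (by decide) (z := 3) (by decide) TI_sc (k := 1) (by decide) (Q := [(936, 3889, -4285), (-936, -3889, 4526), (2960, 2691, -5030)])
    (P := [⟨-39352320, 480, 0⟩, ⟨39720960, -480, 0⟩, ⟨-394905600, 936, 3889⟩, ⟨417116160, -936, -3889⟩, ⟨-463564800, 2960, 2691⟩]) rfl rfl
    (List.mem_of_getElem? (i := 102) rfl) TI_fr TI_cov ?_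
  · intro X Y h
    simp only [List.forall_mem_cons, List.not_mem_nil, false_imp_iff, implies_true, and_true] at h
    push_cast at h ⊢
    obtain ⟨h0, h1, h2, h3, h4⟩ := h
    refine ⟨⟨?_, ?_⟩, ?_, ?_⟩ <;> linarith

theorem TI_rg103 : ROK [.l ⟨0, 960, 0, -843⟩ ⟨0, 960, 0, 843⟩, .l ⟨0, -960, 0, 850⟩ ⟨0, 960, 0, 850⟩, .l ⟨0, 960, 0, -843⟩ ⟨0, 0, 4000, 3201⟩, .l ⟨0, 960, 0, -850⟩ ⟨0, 0, 4000, 3201⟩, .l ⟨0, 960, 0, -843⟩ ⟨0, 0, -4000, -3349⟩, .l ⟨0, 960, 0, -850⟩ ⟨0, 0, -4000, -3349⟩] := by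
  refine rok_dys (s := 1) (nlo := 843) (nhi := 850) (q := 960) (by decide) (by decide) (by decide) (by decide) (z := 3) (by decide) TI_sc (k := 1) (by decide) (Q := [(0, 4000, -3201), (0, -4000, 3349)])
    (P := [⟨-77690880, 960, 0⟩, ⟨78336000, -960, 0⟩, ⟨-295004160, 0, 4000⟩, ⟨308643840, 0, -4000⟩]) rfl rfl
    (List.mem_of_getElem? (i := 103) rfl) TI_fr TI_cov ?_
  · intro X Y h
    simp only [List.forall_mem_cons, List.not_mem_nil, false_imp_iff, implies_true, and_true] at h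
    push_cast at h ⊢
    obtain ⟨h0, h1, h2, h3⟩ := h
    refine ⟨⟨?_, ?_⟩, ?_, ?_⟩ <;> linarith

theorem TI_rg104 : ROK [.l ⟨0, 960, 0, -861⟩ ⟨0, 960, 0, 861⟩, .l ⟨0, -960, 0, 871⟩ ⟨0, 960, 0, 871⟩, .l ⟨0, 960, 0, -861⟩ ⟨0, 0, 1000, 883⟩, .l ⟨0, 960, 0, -871⟩ ⟨0, 0, 1000, 883⟩, .l ⟨0, 960, 0, -861⟩ ⟨0, 1378, -3755, -2315⟩, .l ⟨0, 960, 0, -871⟩ ⟨0, 1378, -3755, -2315⟩, .l ⟨0, 960, 0, -861⟩ ⟨0, 3021, 2622, 5039⟩, .l ⟨0, 960, 0, -871⟩ ⟨0, 3021, 2622, 5039⟩] := by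
  refine rok_dys (s := 1) (nlo := 861) (nhi := 871) (q := 960) (by decide) (by decide) (by decide) (by decide) (z := 3) (by decide) TI_sc (k := 1) (by decide) (Q := [(0, 1000, -883), (1378, -3755, 2315), (3021, 2622, -5039)])
    (P := [⟨-79349760, 960, 0⟩, ⟨80271360, -960, 0⟩, ⟨-81377280, 0, 1000⟩, ⟨213350400, 1378, -3755⟩, ⟨-464394240, 3021, 2622⟩]) rfl rfl
    (List.mem_of_getElem? (i := 104) rfl) TI_fr TI_cov ?_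
  · intro X Y h
    simp only [List.forall_mem_cons, List.not_mem_nil, false_imp_iff, implies_true, and_true] at h
    push_cast at h ⊢
    obtain ⟨h0, h1, h2, h3, h4⟩ := h
    refine ⟨⟨?_, ?_⟩, ?_, ?_⟩ <;> linarith

theorem TI_rg105 : ROK [.l ⟨0, 240, 0, -209⟩ ⟨0, 240, 0, 209⟩, .l ⟨0, -240, 0, 214⟩ ⟨0, 240, 0, 214⟩, .l ⟨0, 240, 0, -209⟩ ⟨0, 2254, 3305, 4936⟩, .l ⟨0, 240, 0, -214⟩ ⟨0, 2254, 3305, 4936⟩, .l ⟨0, 240, 0, -209⟩ ⟨0, -1298, -1522, -2575⟩, .l ⟨0, 240, 0, -214⟩ ⟨0, -1298, -1522, -2575⟩, .l ⟨0, 240, 0, -209⟩ ⟨0, 1306, 3781, 4524⟩, .l ⟨0, 240, 0, -214⟩ ⟨0, 1306, 3781, 4524⟩] := by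
  refine rok_dys (s := 1) (nlo := 209) (nhi := 214) (q := 240) (by decide) (by decide) (by decide) (by decide) (z := 3) (by decide) TI_sc (k := 1) (by decide) (Q := [(2254, 3305, -4936), (-1298, -1522, 2575), (1306, 3781, -4524)])
    (P := [⟨-19261440, 240, 0⟩, ⟨19722240, -240, 0⟩, ⟨-454901760, 2254, 3305⟩, ⟨237312000, -1298, -1522⟩, ⟨-416931840, 1306, 3781⟩]) rfl rfl
    (List.mem_of_getElem? (i := 105) rfl) TI_fr TI_cov ?_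
  · intro X Y h
    simp only [List.forall_mem_cons, List.not_mem_nil, false_imp_iff, implies_true, and_true] at h
    push_cast at h ⊢
    obtain ⟨h0, h1, h2, h3, h4⟩ := h
    refine ⟨⟨?_, ?_⟩, ?_, ?_⟩ <;> linarith

theorem TI_rg106 : ROK [.l ⟨0, 240, 0, -207⟩ ⟨0, 240, 0, 207⟩, .l ⟨0, -240, 0, 212⟩ ⟨0, 240, 0, 212⟩, .l ⟨0, 240, 0, -207⟩ ⟨0, 0, 4000, 3201⟩, .l ⟨0, 240, 0, -212⟩ ⟨0, 0, 4000, 3201⟩, .l ⟨0, 240, 0, -207⟩ ⟨0, 25, -1333, -1094⟩, .l ⟨0, 240, 0, -212⟩ ⟨0, 25, -1333, -1094⟩, .l ⟨0, 240, 0, -207⟩ ⟨0, 1549, -3688, -1739⟩, .l ⟨0, 240, 0, -212⟩ ⟨0, 1549, -3688, -1739⟩] := by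
  refine rok_dys (s := 1) (nlo := 207) (nhi := 212) (q := 240) (by decide) (by decide) (by decide) (by decide) (z := 3) (by decide) TI_sc (k := 1) (by decide) (Q := [(0, 4000, -3201), (25, -1333, 1094), (1549, -3688, 1739)])
    (P := [⟨-19077120, 240, 0⟩, ⟨19537920, -240, 0⟩, ⟨-295004160, 0, 4000⟩, ⟨100823040, 25, -1333⟩, ⟨160266240, 1549, -3688⟩]) rfl rfl
    (List.mem_of_getElem? (i := 106) rfl) TI_fr TI_cov ?_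
  · intro X Y h
    simp only [List.forall_mem_cons, List.not_mem_nil, false_imp_iff, implies_true, and_true] at h
    push_cast at h ⊢
    obtain ⟨h0, h1, h2, h3, h4⟩ := h
    refine ⟨⟨?_, ?_⟩, ?_, ?_⟩ <;> linarith

theorem TI_rg107 : ROK [.l ⟨0, 80, 0, -69⟩ ⟨0, 80, 0, 69⟩, .l ⟨0, -80, 0, 73⟩ ⟨0, 80, 0, 73⟩, .l ⟨0, 80, 0, -69⟩ ⟨0, 0, 4000, 3201⟩, .l ⟨0, 80, 0, -73⟩ ⟨0, 0, 4000, 3201⟩, .l ⟨0, 80, 0, -69⟩ ⟨0, 0, -4000, -3349⟩, .l ⟨0, 80, 0, -73⟩ ⟨0, 0, -4000, -3349⟩, .l ⟨0, 80, 0, -69⟩ ⟨0, 3589, -1766, 1641⟩, .l ⟨0, 80, 0, -73⟩ ⟨0, 3589, -1766, 1641⟩] := by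
  refine rok_dys (s := 1) (nlo := 69) (nhi := 73) (q := 80) (by decide) (by decide) (by decide) (by decide) (z := 3) (by decide) TI_sc (k := 1) (by decide) (Q := [(0, 4000, -3201), (0, -4000, 3349), (3589, -1766, -1641)])
    (P := [⟨-6359040, 80, 0⟩, ⟨6727680, -80, 0⟩, ⟨-295004160, 0, 4000⟩, ⟨308643840, 0, -4000⟩, ⟨-151234560, 3589, -1766⟩]) rfl rfl
    (List.mem_of_getElem? (i := 107) rfl) TI_fr TI_cov ?_
  · intro X Y h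
    simp only [List.forall_mem_cons, List.not_mem_nil, false_imp_iff, implies_true, and_true] at h
    push_cast at h ⊢
    obtain ⟨h0, h1, h2, h3, h4⟩ := h
    refine ⟨⟨?_, ?_⟩, ?_, ?_⟩ <;> linarith

theorem TI_rg108 : ROK [.l ⟨0, 480, 0, -431⟩ ⟨0, 480, 0, 431⟩, .l ⟨0, -480, 0, 440⟩ ⟨0, 480, 0, 440⟩, .l ⟨0, 480, 0, -431⟩ ⟨0, 1793, 3576, 4777⟩, .l ⟨0, 480, 0, -440⟩ ⟨0, 1793, 3576, 4777⟩, .l ⟨0, 480, 0, -431⟩ ⟨0, -359, -715, -1001⟩, .l ⟨0, 480, 0, -440⟩ ⟨0, -359, -715, -1001⟩] := by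
  refine rok_dys (s := 1) (nlo := 431) (nhi := 440) (q := 480) (by decide) (by decide) (by decide) (by decide) (z := 3) (by decide) TI_sc (k := 1) (by decide) (Q := [(1793, 3576, -4777), (-359, -715, 1001)])
    (P := [⟨-39720960, 480, 0⟩, ⟨40550400, -480, 0⟩, ⟨-440248320, 1793, 3576⟩, ⟨92252160, -359, -715⟩]) rfl rfl
    (List.mem_of_getElem? (i := 108) rfl) TI_fr TI_cov ?_
  · intro X Y h
    simp only [List.forall_mem_cons, List.not_mem_nil, false_imp_iff, implies_true, and_true] at h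
    push_cast at h ⊢
    obtain ⟨h0, h1, h2, h3⟩ := h
    refine ⟨⟨?_, ?_⟩, ?_, ?_⟩ <;> linarith

theorem TI_rg109 : ROK [.l ⟨0, 960, 0, -834⟩ ⟨0, 960, 0, 834⟩, .l ⟨0, -960, 0, 841⟩ ⟨0, 960, 0, 841⟩, .l ⟨0, 960, 0, -834⟩ ⟨0, 0, 100, -187⟩, .l ⟨0, 960, 0, -841⟩ ⟨0, 0, 100, -187⟩, .l ⟨0, 960, 0, -834⟩ ⟨0, 0, -1000, -837⟩, .l ⟨0, 960, 0, -841⟩ ⟨0, 0, -1000, -837⟩, .l ⟨0, 960, 0, -834⟩ ⟨0, 3719, 1472, 4439⟩, .l ⟨0, 960, 0, -841⟩ ⟨0, 3719, 1472, 4439⟩] := by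
  refine rok_dys (s := 1) (nlo := 834) (nhi := 841) (q := 960) (by decide) (by decide) (by decide) (by decide) (z := 3) (by decide) TI_sc (k := 1) (by decide) (Q := [(0, 100, 187), (0, -1000, 837), (3719, 1472, -4439)])
    (P := [⟨-76861440, 960, 0⟩, ⟨77506560, -960, 0⟩, ⟨17233920, 0, 100⟩, ⟨77137920, 0, -1000⟩, ⟨-409098240, 3719, 1472⟩]) rfl rfl
    (List.mem_of_getElem? (i := 109) rfl) TI_fr TI_cov ?_
  · intro X Y h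
    simp only [List.forall_mem_cons, List.not_mem_nil, false_imp_iff, implies_true, and_true] at h
    push_cast at h ⊢
    obtain ⟨h0, h1, h2, h3, h4⟩ := h
    refine ⟨⟨?_, ?_⟩, ?_, ?_⟩ <;> linarith

theorem TI_rg110 : ROK [.l ⟨0, 960, 0, -863⟩ ⟨0, 960, 0, 863⟩, .l ⟨0, -960, 0, 872⟩ ⟨0, 960, 0, 872⟩, .l ⟨0, 960, 0, -863⟩ ⟨0, 0, 2000, 1763⟩, .l ⟨0, 960, 0, -872⟩ ⟨0, 0, 2000, 1763⟩, .l ⟨0, 960, 0, -863⟩ ⟨0, -1687, -3627, -4960⟩, .l ⟨0, 960, 0, -872⟩ ⟨0, -1687, -3627, -4960⟩, .l ⟨0, 960, 0, -863⟩ ⟨0, 3211, 2386, 5009⟩, .l ⟨0, 960, 0, -872⟩ ⟨0, 3211, 2386, 5009⟩] := by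
  refine rok_dys (s := 1) (nlo := 863) (nhi := 872) (q := 960) (by decide) (by decide) (by decide) (by decide) (z := 3) (by decide) TI_sc (k := 1) (by decide) (Q := [(0, 2000, -1763), (-1687, -3627, 4960), (3211, 2386, -5009)])
    (P := [⟨-79534080, 960, 0⟩, ⟨80363520, -960, 0⟩, ⟨-162478080, 0, 2000⟩, ⟨457113600, -1687, -3627⟩, ⟨-461629440, 3211, 2386⟩]) rfl rfl
    (List.mem_of_getElem? (i := 110) rfl) TI_fr TI_cov ?_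
  · intro X Y h
    simp only [List.forall_mem_cons, List.not_mem_nil, false_imp_iff, implies_true, and_true] at h
    push_cast at h ⊢
    obtain ⟨h0, h1, h2, h3, h4⟩ := h
    refine ⟨⟨?_, ?_⟩, ?_, ?_⟩ <;> linarith

theorem TI_rg111 : ROK [.l ⟨0, 960, 0, -858⟩ ⟨0, 960, 0, 858⟩, .l ⟨0, -960, 0, 865⟩ ⟨0, 960, 0, 865⟩, .l ⟨0, 960, 0, -858⟩ ⟨0, 3, 1000, 803⟩, .l ⟨0, 960, 0, -865⟩ ⟨0, 3, 1000, 803⟩, .l ⟨0, 960, 0, -858⟩ ⟨0, -3, -1000, -840⟩, .l ⟨0, 960, 0, -865⟩ ⟨0, -3, -1000, -840⟩] := by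
  refine rok_dys (s := 1) (nlo := 858) (nhi := 865) (q := 960) (by decide) (by decide) (by decide) (by decide) (z := 3) (by decide) TI_sc (k := 1) (by decide) (Q := [(3, 1000, -803), (-3, -1000, 840)])
    (P := [⟨-79073280, 960, 0⟩, ⟨79718400, -960, 0⟩, ⟨-74004480, 3, 1000⟩, ⟨77414400, -3, -1000⟩]) rfl rfl
    (List.mem_of_getElem? (i := 111) rfl) TI_fr TI_cov ?_
  · intro X Y h
    simp only [List.forall_mem_cons, List.not_mem_nil, false_imp_iff, implies_true, and_true] at h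
    push_cast at h ⊢
    obtain ⟨h0, h1, h2, h3⟩ := h
    refine ⟨⟨?_, ?_⟩, ?_, ?_⟩ <;> linarith

theorem TI_rg112 : ROK [.l ⟨0, 320, 0, -281⟩ ⟨0, 320, 0, 281⟩, .l ⟨0, -320, 0, 284⟩ ⟨0, 320, 0, 284⟩, .l ⟨0, 320, 0, -281⟩ ⟨0, 0, 800, 713⟩, .l ⟨0, 320, 0, -284⟩ ⟨0, 0, 800, 713⟩, .l ⟨0, 320, 0, -281⟩ ⟨0, 0, -4000, -3799⟩, .l ⟨0, 320, 0, -284⟩ ⟨0, 0, -4000, -3799⟩, .l ⟨0, 320, 0, -281⟩ ⟨0, 3269, 2304, 4939⟩, .l ⟨0, 320, 0, -284⟩ ⟨0, 3269, 2304, 4939⟩] := by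
  refine rok_dys (s := 1) (nlo := 281) (nhi := 284) (q := 320) (by decide) (by decide) (by decide) (by decide) (z := 3) (by decide) TI_sc (k := 1) (by decide) (Q := [(0, 800, -713), (0, -4000, 3799), (3269, 2304, -4939)])
    (P := [⟨-25896960, 320, 0⟩, ⟨26173440, -320, 0⟩, ⟨-65710080, 0, 800⟩, ⟨350115840, 0, -4000⟩, ⟨-455178240, 3269, 2304⟩]) rfl rfl
    (List.mem_of_getElem? (i := 112) rfl) TI_fr TI_cov ?_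
  · intro X Y h
    simp only [List.forall_mem_cons, List.not_mem_nil, false_imp_iff, implies_true, and_true] at h
    push_cast at h ⊢
    obtain ⟨h0, h1, h2, h3, h4⟩ := h
    refine ⟨⟨?_, ?_⟩, ?_, ?_⟩ <;> linarith

theorem TI_rg113 : ROK [.l ⟨0, 80, 0, -70⟩ ⟨0, 80, 0, 70⟩, .l ⟨0, -80, 0, 73⟩ ⟨0, 80, 0, 73⟩, .l ⟨0, 80, 0, -70⟩ ⟨0, 224, 447, 597⟩, .l ⟨0, 80, 0, -73⟩ ⟨0, 224, 447, 597⟩, .l ⟨0, 80, 0, -70⟩ ⟨0, 165, -1993, -1742⟩, .l ⟨0, 80, 0, -73⟩ ⟨0, 165, -1993, -1742⟩] := by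
  refine rok_dys (s := 1) (nlo := 70) (nhi := 73) (q := 80) (by decide) (by decide) (by decide) (by decide) (z := 3) (by decide) TI_sc (k := 1) (by decide) (Q := [(224, 447, -597), (165, -1993, 1742)])
    (P := [⟨-6451200, 80, 0⟩, ⟨6727680, -80, 0⟩, ⟨-55019520, 224, 447⟩, ⟨160542720, 165, -1993⟩]) rfl rfl
    (List.mem_of_getElem? (i := 113) rfl) TI_fr TI_cov ?_
  · intro X Y h
    simp only [List.forall_mem_cons, List.not_mem_nil, false_imp_iff, implies_true, and_true] at h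
    push_cast at h ⊢
    obtain ⟨h0, h1, h2, h3⟩ := h
    refine ⟨⟨?_, ?_⟩, ?_, ?_⟩ <;> linarith

theorem TI_rg114 : ROK [.l ⟨0, 80, 0, -69⟩ ⟨0, 80, 0, 69⟩, .l ⟨0, -80, 0, 73⟩ ⟨0, 80, 0, 73⟩, .l ⟨0, 80, 0, -69⟩ ⟨0, 0, 400, 357⟩, .l ⟨0, 80, 0, -73⟩ ⟨0, 0, 400, 357⟩, .l ⟨0, 80, 0, -69⟩ ⟨0, -1672, -3634, -4891⟩, .l ⟨0, 80, 0, -73⟩ ⟨0, -1672, -3634, -4891⟩, .l ⟨0, 80, 0, -69⟩ ⟨0, 3142, 2475, 4973⟩, .l ⟨0, 80, 0, -73⟩ ⟨0, 3142, 2475, 4973⟩] := by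
  refine rok_dys (s := 1) (nlo := 69) (nhi := 73) (q := 80) (by decide) (by decide) (by decide) (by decide) (z := 3) (by decide) TI_sc (k := 1) (by decide) (Q := [(0, 400, -357), (-1672, -3634, 4891), (3142, 2475, -4973)])
    (P := [⟨-6359040, 80, 0⟩, ⟨6727680, -80, 0⟩, ⟨-32901120, 0, 400⟩, ⟨450754560, -1672, -3634⟩, ⟨-458311680, 3142, 2475⟩]) rfl rfl
    (List.mem_of_getElem? (i := 114) rfl) TI_fr TI_cov ?_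
  · intro X Y h
    simp only [List.forall_mem_cons, List.not_mem_nil, false_imp_iff, implies_true, and_true] at h
    push_cast at h ⊢
    obtain ⟨h0, h1, h2, h3, h4⟩ := h
    refine ⟨⟨?_, ?_⟩, ?_, ?_⟩ <;> linarith

theorem TI_rg115 : ROK [.l ⟨0, 960, 0, -828⟩ ⟨0, 960, 0, 828⟩, .l ⟨0, -960, 0, 835⟩ ⟨0, 960, 0, 835⟩, .l ⟨0, 960, 0, -828⟩ ⟨0, 0, 4000, 3201⟩, .l ⟨0, 960, 0, -835⟩ ⟨0, 0, 4000, 3201⟩, .l ⟨0, 960, 0, -828⟩ ⟨0, -361, -3984, -3641⟩, .l ⟨0, 960, 0, -835⟩ ⟨0, -361, -3984, -3641⟩] := by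
  refine rok_dys (s := 1) (nlo := 828) (nhi := 835) (q := 960) (by decide) (by decide) (by decide) (by decide) (z := 3) (by decide) TI_sc (k := 1) (by decide) (Q := [(0, 4000, -3201), (-361, -3984, 3641)])
    (P := [⟨-76308480, 960, 0⟩, ⟨76953600, -960, 0⟩, ⟨-295004160, 0, 4000⟩, ⟨335554560, -361, -3984⟩]) rfl rfl
    (List.mem_of_getElem? (i := 115) rfl) TI_fr TI_cov ?_
  · intro X Y h
    simp only [List.forall_mem_cons, List.not_mem_nil, false_imp_iff, implies_true, and_true] at h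
    push_cast at h ⊢
    obtain ⟨h0, h1, h2, h3⟩ := h
    refine ⟨⟨?_, ?_⟩, ?_, ?_⟩ <;> linarith

theorem TI_rg116 : ROK [.l ⟨0, 60, 0, -52⟩ ⟨0, 60, 0, 52⟩, .l ⟨0, -60, 0, 53⟩ ⟨0, 60, 0, 53⟩, .l ⟨0, 60, 0, -52⟩ ⟨0, 2531, 3098, 4988⟩, .l ⟨0, 60, 0, -53⟩ ⟨0, 2531, 3098, 4988⟩, .l ⟨0, 60, 0, -52⟩ ⟨0, -2531, -3098, -5133⟩, .l ⟨0, 60, 0, -53⟩ ⟨0, -2531, -3098, -5133⟩, .l ⟨0, 60, 0, -52⟩ ⟨0, 1542, 3691, 4654⟩, .l ⟨0, 60, 0, -53⟩ ⟨0, 1542, 3691, 4654⟩] := by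
  refine rok_dys (s := 1) (nlo := 52) (nhi := 53) (q := 60) (by decide) (by decide) (by decide) (by decide) (z := 3) (by decide) TI_sc (k := 1) (by decide) (Q := [(2531, 3098, -4988), (-2531, -3098, 5133), (1542, 3691, -4654)])
    (P := [⟨-4792320, 60, 0⟩, ⟨4884480, -60, 0⟩, ⟨-459694080, 2531, 3098⟩, ⟨473057280, -2531, -3098⟩, ⟨-428912640, 1542, 3691⟩]) rfl rfl
    (List.mem_of_getElem? (i := 116) rfl) TI_fr TI_cov ?_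
  · intro X Y h
    simp only [List.forall_mem_cons, List.not_mem_nil, false_imp_iff, implies_true, and_true] at h
    push_cast at h ⊢
    obtain ⟨h0, h1, h2, h3, h4⟩ := h
    refine ⟨⟨?_, ?_⟩, ?_, ?_⟩ <;> linarith

theorem TI_rg117 : ROK [.l ⟨0, 960, 0, -858⟩ ⟨0, 960, 0, 858⟩, .l ⟨0, -960, 0, 865⟩ ⟨0, 960, 0, 865⟩, .l ⟨0, 960, 0, -858⟩ ⟨0, -207, 3995, -8645⟩, .l ⟨0, 960, 0, -865⟩ ⟨0, -207, 3995, -8645⟩, .l ⟨0, 960, 0, -858⟩ ⟨0, 2113, -3396, -1320⟩, .l ⟨0, 960, 0, -865⟩ ⟨0, 2113, -3396, -1320⟩, .l ⟨0, 960, 0, -858⟩ ⟨0, 751, 3929, 4154⟩, .l ⟨0, 960, 0, -865⟩ ⟨0, 751, 3929, 4154⟩] := by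
  refine rok_dys (s := 1) (nlo := 858) (nhi := 865) (q := 960) (by decide) (by decide) (by decide) (by decide) (z := 3) (by decide) TI_sc (k := 1) (by decide) (Q := [(-207, 3995, 8645), (2113, -3396, 1320), (751, 3929, -4154)])
    (P := [⟨-79073280, 960, 0⟩, ⟨79718400, -960, 0⟩, ⟨796723200, -207, 3995⟩, ⟨121651200, 2113, -3396⟩, ⟨-382832640, 751, 3929⟩]) rfl rfl
    (List.mem_of_getElem? (i := 117) rfl) TI_fr TI_cov ?_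
  · intro X Y h
    simp only [List.forall_mem_cons, List.not_mem_nil, false_imp_iff, implies_true, and_true] at h
    push_cast at h ⊢
    obtain ⟨h0, h1, h2, h3, h4⟩ := h
    refine ⟨⟨?_, ?_⟩, ?_, ?_⟩ <;> linarith

theorem TI_rg118 : ROK [.l ⟨0, 960, 0, -842⟩ ⟨0, 960, 0, 842⟩, .l ⟨0, -960, 0, 853⟩ ⟨0, 960, 0, 853⟩, .l ⟨0, 960, 0, -842⟩ ⟨0, 493, 870, 1211⟩, .l ⟨0, 960, 0, -853⟩ ⟨0, 493, 870, 1211⟩, .l ⟨0, 960, 0, -842⟩ ⟨0, 1540, -3692, -2137⟩, .l ⟨0, 960, 0, -853⟩ ⟨0, 1540, -3692, -2137⟩, .l ⟨0, 960, 0, -842⟩ ⟨0, -2308, 3267, 864⟩, .l ⟨0, 960, 0, -853⟩ ⟨0, -2308, 3267, 864⟩] := by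
  refine rok_dys (s := 1) (nlo := 842) (nhi := 853) (q := 960) (by decide) (by decide) (by decide) (by decide) (z := 3) (by decide) TI_sc (k := 1) (by decide) (Q := [(493, 870, -1211), (1540, -3692, 2137), (-2308, 3267, -864)])
    (P := [⟨-77598720, 960, 0⟩, ⟨78612480, -960, 0⟩, ⟨-111605760, 493, 870⟩, ⟨196945920, 1540, -3692⟩, ⟨-79626240, -2308, 3267⟩]) rfl rfl
    (List.mem_of_getElem? (i := 118) rfl) TI_fr TI_cov ?_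
  · intro X Y h
    simp only [List.forall_mem_cons, List.not_mem_nil, false_imp_iff, implies_true, and_true] at h
    push_cast at h ⊢
    obtain ⟨h0, h1, h2, h3, h4⟩ := h
    refine ⟨⟨?_, ?_⟩, ?_, ?_⟩ <;> linarith

theorem TI_rg119 : ROK [.l ⟨0, 480, 0, -427⟩ ⟨0, 480, 0, 427⟩, .l ⟨0, -480, 0, 435⟩ ⟨0, 480, 0, 435⟩, .l ⟨0, 480, 0, -427⟩ ⟨0, 2156, 3369, 4916⟩, .l ⟨0, 480, 0, -435⟩ ⟨0, 2156, 3369, 4916⟩, .l ⟨0, 480, 0, -427⟩ ⟨0, 1625, -3655, -1996⟩, .l ⟨0, 480, 0, -435⟩ ⟨0, 1625, -3655, -1996⟩, .l ⟨0, 480, 0, -427⟩ ⟨0, 723, 3934, 4131⟩, .l ⟨0, 480, 0, -435⟩ ⟨0, 723, 3934, 4131⟩] := by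
  refine rok_dys (s := 1) (nlo := 427) (nhi := 435) (q := 480) (by decide) (by decide) (by decide) (by decide) (z := 3) (by decide) TI_sc (k := 1) (by decide) (Q := [(2156, 3369, -4916), (1625, -3655, 1996), (723, 3934, -4131)])
    (P := [⟨-39352320, 480, 0⟩, ⟨40089600, -480, 0⟩, ⟨-453058560, 2156, 3369⟩, ⟨183951360, 1625, -3655⟩, ⟨-380712960, 723, 3934⟩]) rfl rfl
    (List.mem_of_getElem? (i := 119) rfl) TI_fr TI_cov ?_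
  · intro X Y h
    simp only [List.forall_mem_cons, List.not_mem_nil, false_imp_iff, implies_true, and_true] at h
    push_cast at h ⊢
    obtain ⟨h0, h1, h2, h3, h4⟩ := h
    refine ⟨⟨?_, ?_⟩, ?_, ?_⟩ <;> linarith

end Pool.Agent.TET
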