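import Pool.Agent.Helper38_TET.TI_C

/-!
# MP_c7c9bf_co: certificates, family TI
-/

set_option autoImplicit false
set_option maxRecDepth 100000

namespace Pool.Agent.TET

theorem TI_rg120 : ROK [.l ⟨0, 160, 0, -142⟩ ⟨0, 160, 0, 142⟩, .l ⟨0, -160, 0, 145⟩ ⟨0, 160, 0, 145⟩, .l ⟨0, 160, 0, -142⟩ ⟨0, 927, 1772, 2402⟩, .l ⟨0, 160, 0, -145⟩ ⟨0, 927, 1772, 2402⟩, .l ⟨0, 160, 0, -142⟩ ⟨0, -927, -1772, -2504⟩, .l ⟨0, 160, 0, -145⟩ ⟨0, -927, -1772, -2504⟩] := by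
  refine rok_dys (s := 1) (nlo := 142) (nhi := 145) (q := 160) (by decide) (by decide) (by decide) (by decide) (z := 3) (by decide) TI_sc (k := 1) (by decide) (Q := [(927, 1772, -2402), (-927, -1772, 2504)])
    (P := [⟨-13086720, 160, 0⟩, ⟨13363200, -160, 0⟩, ⟨-221368320, 927, 1772⟩, ⟨230768640, -927, -1772⟩]) rfl rfl
    (List.mem_of_getElem? (i := 120) rfl) TI_fr TI_cov ?_
  · intro X Y h
    simp only [List.forall_mem_cons, List.not_mem_nil, false_imp_iff, implies_true, and_true] at h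
    push_cast at h ⊢
    obtain ⟨h0, h1, h2, h3⟩ := h
    refine ⟨⟨?_, ?_⟩, ?_, ?_⟩ <;> linarith

theorem TI_rg121 : ROK [.l ⟨0, 160, 0, -139⟩ ⟨0, 160, 0, 139⟩, .l ⟨0, -160, 0, 142⟩ ⟨0, 160, 0, 142⟩, .l ⟨0, 160, 0, -139⟩ ⟨0, 2716, 2936, 4765⟩, .l ⟨0, 160, 0, -142⟩ ⟨0, 2716, 2936, 4765⟩, .l ⟨0, 160, 0, -139⟩ ⟨0, -373, -3983, -3658⟩, .l ⟨0, 160, 0, -142⟩ ⟨0, -373, -3983, -3658⟩] := by
  refine rok_dys (s := 1) (nlo := 139) (nhi := 142) (q := 160) (by decide) (by decide) (by decide) (by decide) (z := 3) (by decide) TI_sc (k := 1) (by decide) (Q := [(2716, 2936, -4765), (-373, -3983, 3658)])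
    (P := [⟨-12810240, 160, 0⟩, ⟨13086720, -160, 0⟩, ⟨-439142400, 2716, 2936⟩, ⟨337121280, -373, -3983⟩]) rfl rfl
    (List.mem_of_getElem? (i := 121) rfl) TI_fr TI_cov ?_
  · intro X Y h
    simp only [List.forall_mem_cons, List.not_mem_nil, false_imp_iff, implies_true, and_true] at h
    push_cast at h ⊢
    obtain ⟨h0, h1, h2, h3⟩ := h
    refine ⟨⟨?_, ?_⟩, ?_, ?_⟩ <;> linarith

theorem TI_rg122 : ROK [.l ⟨0, 480, 0, -422⟩ ⟨0, 480, 0, 422⟩, .l ⟨0, -480, 0, 427⟩ ⟨0, 480, 0, 427⟩, .l ⟨0, 480, 0, -422⟩ ⟨0, 2007, 3460, 4858⟩, .l ⟨0, 480, 0, -427⟩ ⟨0, 2007, 3460, 4858⟩, .l ⟨0, 480, 0, -422⟩ ⟨0, -1795, -3575, -4971⟩, .l ⟨0, 480, 0, -427⟩ ⟨0, -1795, -3575, -4971⟩, .l ⟨0, 480, 0, -422⟩ ⟨0, -363, 3984, 3224⟩, .l ⟨0, 480, 0, -427⟩ ⟨0, -363, 3984, 3224⟩] := by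
  refine rok_dys (s := 1) (nlo := 422) (nhi := 427) (q := 480) (by decide) (by decide) (by decide) (by decide) (z := 3) (by decide) TI_sc (k := 1) (by decide) (Q := [(2007, 3460, -4858), (-1795, -3575, 4971), (-363, 3984, -3224)])
    (P := [⟨-38891520, 480, 0⟩, ⟨39352320, -480, 0⟩, ⟨-447713280, 2007, 3460⟩, ⟨458127360, -1795, -3575⟩, ⟨-297123840, -363, 3984⟩]) rfl rfl
    (List.mem_of_getElem? (i := 122) rfl) TI_fr TI_cov ?_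
  · intro X Y h
    simp only [List.forall_mem_cons, List.not_mem_nil, false_imp_iff, implies_true, and_true] at h
    push_cast at h ⊢
    obtain ⟨h0, h1, h2, h3, h4⟩ := h
    refine ⟨⟨?_, ?_⟩, ?_, ?_⟩ <;> linarith

theorem TI_rg123 : ROK [.l ⟨0, 160, 0, -139⟩ ⟨0, 160, 0, 139⟩, .l ⟨0, -160, 0, 142⟩ ⟨0, 160, 0, 142⟩, .l ⟨0, 160, 0, -139⟩ ⟨0, 0, 4000, 3201⟩, .l ⟨0, 160, 0, -142⟩ ⟨0, 0, 4000, 3201⟩, .l ⟨0, 160, 0, -139⟩ ⟨0, 0, -4000, -3349⟩, .l ⟨0, 160, 0, -142⟩ ⟨0, 0, -4000, -3349⟩, .l ⟨0, 160, 0, -139⟩ ⟨0, 2122, -3390, -993⟩, .l ⟨0, 160, 0, -142⟩ ⟨0, 2122, -3390, -993⟩] := by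
  refine rok_dys (s := 1) (nlo := 139) (nhi := 142) (q := 160) (by decide) (by decide) (by decide) (by decide) (z := 3) (by decide) TI_sc (k := 1) (by decide) (Q := [(0, 4000, -3201), (0, -4000, 3349), (2122, -3390, 993)])
    (P := [⟨-12810240, 160, 0⟩, ⟨13086720, -160, 0⟩, ⟨-295004160, 0, 4000⟩, ⟨308643840, 0, -4000⟩, ⟨91514880, 2122, -3390⟩]) rfl rfl
    (List.mem_of_getElem? (i := 123) rfl) TI_fr TI_cov ?_
  · intro X Y h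
    simp only [List.forall_mem_cons, List.not_mem_nil, false_imp_iff, implies_true, and_true] at h
    push_cast at h ⊢
    obtain ⟨h0, h1, h2, h3, h4⟩ := h
    refine ⟨⟨?_, ?_⟩, ?_, ?_⟩ <;> linarith

theorem TI_rg124 : ROK [.l ⟨0, 960, 0, -843⟩ ⟨0, 960, 0, 843⟩, .l ⟨0, -960, 0, 854⟩ ⟨0, 960, 0, 854⟩, .l ⟨0, 960, 0, -843⟩ ⟨0, 0, 4000, 3201⟩, .l ⟨0, 960, 0, -854⟩ ⟨0, 0, 4000, 3201⟩, .l ⟨0, 960, 0, -843⟩ ⟨0, -30, -2000, -1701⟩, .l ⟨0, 960, 0, -854⟩ ⟨0, -30, -2000, -1701⟩] := by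
  refine rok_dys (s := 1) (nlo := 843) (nhi := 854) (q := 960) (by decide) (by decide) (by decide) (by decide) (z := 3) (by decide) TI_sc (k := 1) (by decide) (Q := [(0, 4000, -3201), (-30, -2000, 1701)])
    (P := [⟨-77690880, 960, 0⟩, ⟨78704640, -960, 0⟩, ⟨-295004160, 0, 4000⟩, ⟨156764160, -30, -2000⟩]) rfl rfl
    (List.mem_of_getElem? (i := 124) rfl) TI_fr TI_cov ?_
  · intro X Y h
    simp only [List.forall_mem_cons, List.not_mem_nil, false_imp_iff, implies_true, and_true] at h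
    push_cast at h ⊢
    obtain ⟨h0, h1, h2, h3⟩ := h
    refine ⟨⟨?_, ?_⟩, ?_, ?_⟩ <;> linarith

theorem TI_rg125 : ROK [.l ⟨0, 960, 0, -857⟩ ⟨0, 960, 0, 857⟩, .l ⟨0, -960, 0, 867⟩ ⟨0, 960, 0, 867⟩, .l ⟨0, 960, 0, -857⟩ ⟨0, 1887, 3527, 4815⟩, .l ⟨0, 960, 0, -867⟩ ⟨0, 1887, 3527, 4815⟩, .l ⟨0, 960, 0, -857⟩ ⟨0, -1887, -3527, -5033⟩, .l ⟨0, 960, 0, -867⟩ ⟨0, -1887, -3527, -5033⟩, .l ⟨0, 960, 0, -857⟩ ⟨0, 363, 1967, 2067⟩, .l ⟨0, 960, 0, -867⟩ ⟨0, 363, 1967, 2067⟩] := by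
  refine rok_dys (s := 1) (nlo := 857) (nhi := 867) (q := 960) (by decide) (by decide) (by decide) (by decide) (z := 3) (by decide) TI_sc (k := 1) (by decide) (Q := [(1887, 3527, -4815), (-1887, -3527, 5033), (363, 1967, -2067)])
    (P := [⟨-78981120, 960, 0⟩, ⟨79902720, -960, 0⟩, ⟨-443750400, 1887, 3527⟩, ⟨463841280, -1887, -3527⟩, ⟨-190494720, 363, 1967⟩]) rfl rfl
    (List.mem_of_getElem? (i := 125) rfl) TI_fr TI_cov ?_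
  · intro X Y h
    simp only [List.forall_mem_cons, List.not_mem_nil, false_imp_iff, implies_true, and_true] at h
    push_cast at h ⊢
    obtain ⟨h0, h1, h2, h3, h4⟩ := h
    refine ⟨⟨?_, ?_⟩, ?_, ?_⟩ <;> linarith

theorem TI_rg126 : ROK [.l ⟨0, 80, 0, -69⟩ ⟨0, 80, 0, 69⟩, .l ⟨0, -80, 0, 73⟩ ⟨0, 80, 0, 73⟩, .l ⟨0, 80, 0, -69⟩ ⟨0, 1539, 3692, 4652⟩, .l ⟨0, 80, 0, -73⟩ ⟨0, 1539, 3692, 4652⟩, .l ⟨0, 80, 0, -69⟩ ⟨0, -583, -3957, -4260⟩, .l ⟨0, 80, 0, -73⟩ ⟨0, -583, -3957, -4260⟩, .l ⟨0, 80, 0, -69⟩ ⟨0, 3393, 2118, 4855⟩, .l ⟨0, 80, 0, -73⟩ ⟨0, 3393, 2118, 4855⟩] := by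
  refine rok_dys (s := 1) (nlo := 69) (nhi := 73) (q := 80) (by decide) (by decide) (by decide) (by decide) (z := 3) (by decide) TI_sc (k := 1) (by decide) (Q := [(1539, 3692, -4652), (-583, -3957, 4260), (3393, 2118, -4855)])
    (P := [⟨-6359040, 80, 0⟩, ⟨6727680, -80, 0⟩, ⟨-428728320, 1539, 3692⟩, ⟨392601600, -583, -3957⟩, ⟨-447436800, 3393, 2118⟩]) rfl rfl
    (List.mem_of_getElem? (i := 126) rfl) TI_fr TI_cov ?_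
  · intro X Y h
    simp only [List.forall_mem_cons, List.not_mem_nil, false_imp_iff, implies_true, and_true] at h
    push_cast at h ⊢
    obtain ⟨h0, h1, h2, h3, h4⟩ := h
    refine ⟨⟨?_, ?_⟩, ?_, ?_⟩ <;> linarith

theorem TI_rg127 : ROK [.l ⟨0, 320, 0, -286⟩ ⟨0, 320, 0, 286⟩, .l ⟨0, -320, 0, 289⟩ ⟨0, 320, 0, 289⟩, .l ⟨0, 320, 0, -286⟩ ⟨0, 1278, 3790, -6975⟩, .l ⟨0, 320, 0, -289⟩ ⟨0, 1278, 3790, -6975⟩, .l ⟨0, 320, 0, -286⟩ ⟨0, -1278, -3790, -4319⟩, .l ⟨0, 320, 0, -289⟩ ⟨0, -1278, -3790, -4319⟩, .l ⟨0, 320, 0, -286⟩ ⟨0, -3637, 1666, -1911⟩, .l ⟨0, 320, 0, -289⟩ ⟨0, -3637, 1666, -1911⟩, .l ⟨0, 320, 0, -286⟩ ⟨0, 1605, -3664, -1631⟩, .l ⟨0, 320, 0, -289⟩ ⟨0, 1605, -3664, -1631⟩] := by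
  refine rok_dys (s := 1) (nlo := 286) (nhi := 289) (q := 320) (by decide) (by decide) (by decide) (by decide) (z := 3) (by decide) TI_sc (k := 1) (by decide) (Q := [(1278, 3790, 6975), (-1278, -3790, 4319), (-3637, 1666, 1911), (1605, -3664, 1631)])
    (P := [⟨-26357760, 320, 0⟩, ⟨26634240, -320, 0⟩, ⟨642816000, 1278, 3790⟩, ⟨398039040, -1278, -3790⟩, ⟨176117760, -3637, 1666⟩, ⟨150312960, 1605, -3664⟩]) rfl rfl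
    (List.mem_of_getElem? (i := 127) rfl) TI_fr TI_cov ?_
  · intro X Y h
    simp only [List.forall_mem_cons, List.not_mem_nil, false_imp_iff, implies_true, and_true] at h
    push_cast at h ⊢
    obtain ⟨h0, h1, h2, h3, h4, h5⟩ := h
    refine ⟨⟨?_, ?_⟩, ?_, ?_⟩ <;> linarith

theorem TI_rg128 : ROK [.l ⟨0, 40, 0, -33⟩ ⟨0, 40, 0, 33⟩, .l ⟨0, -40, 0, 36⟩ ⟨0, 40, 0, 36⟩, .l ⟨0, 40, 0, -33⟩ ⟨0, 2007, 3460, 4864⟩, .l ⟨0, 40, 0, -36⟩ ⟨0, 2007, 3460, 4864⟩, .l ⟨0, 40, 0, -33⟩ ⟨0, 541, -841, -297⟩, .l ⟨0, 40, 0, -36⟩ ⟨0, 541, -841, -297⟩, .l ⟨0, 40, 0, -33⟩ ⟨0, -669, 3944, 2887⟩, .l ⟨0, 40, 0, -36⟩ ⟨0, -669, 3944, 2887⟩] := by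
  refine rok_dys (s := 1) (nlo := 33) (nhi := 36) (q := 40) (by decide) (by decide) (by decide) (by decide) (z := 3) (by decide) TI_sc (k := 1) (by decide) (Q := [(2007, 3460, -4864), (541, -841, 297), (-669, 3944, -2887)])
    (P := [⟨-3041280, 40, 0⟩, ⟨3317760, -40, 0⟩, ⟨-448266240, 2007, 3460⟩, ⟨27371520, 541, -841⟩, ⟨-266065920, -669, 3944⟩]) rfl rfl
    (List.mem_of_getElem? (i := 128) rfl) TI_fr TI_cov ?_
  · intro X Y h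
    simp only [List.forall_mem_cons, List.not_mem_nil, false_imp_iff, implies_true, and_true] at h
    push_cast at h ⊢
    obtain ⟨h0, h1, h2, h3, h4⟩ := h
    refine ⟨⟨?_, ?_⟩, ?_, ?_⟩ <;> linarith

theorem TI_rg129 : ROK [.l ⟨0, 320, 0, -283⟩ ⟨0, 320, 0, 283⟩, .l ⟨0, -320, 0, 286⟩ ⟨0, 320, 0, 286⟩, .l ⟨0, 320, 0, -283⟩ ⟨0, 72, 3999, 3265⟩, .l ⟨0, 320, 0, -286⟩ ⟨0, 72, 3999, 3265⟩, .l ⟨0, 320, 0, -283⟩ ⟨0, -72, -3999, -3412⟩, .l ⟨0, 320, 0, -286⟩ ⟨0, -72, -3999, -3412⟩] := by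
  refine rok_dys (s := 1) (nlo := 283) (nhi := 286) (q := 320) (by decide) (by decide) (by decide) (by decide) (z := 3) (by decide) TI_sc (k := 1) (by decide) (Q := [(72, 3999, -3265), (-72, -3999, 3412)])
    (P := [⟨-26081280, 320, 0⟩, ⟨26357760, -320, 0⟩, ⟨-300902400, 72, 3999⟩, ⟨314449920, -72, -3999⟩]) rfl rfl
    (List.mem_of_getElem? (i := 129) rfl) TI_fr TI_cov ?_
  · intro X Y h
    simp only [List.forall_mem_cons, List.not_mem_nil, false_imp_iff, implies_true, and_true] at h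
    push_cast at h ⊢
    obtain ⟨h0, h1, h2, h3⟩ := h
    refine ⟨⟨?_, ?_⟩, ?_, ?_⟩ <;> linarith

theorem TI_rg130 : ROK [.l ⟨0, 960, 0, -842⟩ ⟨0, 960, 0, 842⟩, .l ⟨0, -960, 0, 851⟩ ⟨0, 960, 0, 851⟩, .l ⟨0, 960, 0, -842⟩ ⟨0, 2176, 3356, 4913⟩, .l ⟨0, 960, 0, -851⟩ ⟨0, 2176, 3356, 4913⟩, .l ⟨0, 960, 0, -842⟩ ⟨0, 204, -3995, -3613⟩, .l ⟨0, 960, 0, -851⟩ ⟨0, 204, -3995, -3613⟩, .l ⟨0, 960, 0, -842⟩ ⟨0, 426, 3977, 3921⟩, .l ⟨0, 960, 0, -851⟩ ⟨0, 426, 3977, 3921⟩] := by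
  refine rok_dys (s := 1) (nlo := 842) (nhi := 851) (q := 960) (by decide) (by decide) (by decide) (by decide) (z := 3) (by decide) TI_sc (k := 1) (by decide) (Q := [(2176, 3356, -4913), (204, -3995, 3613), (426, 3977, -3921)])
    (P := [⟨-77598720, 960, 0⟩, ⟨78428160, -960, 0⟩, ⟨-452782080, 2176, 3356⟩, ⟨332974080, 204, -3995⟩, ⟨-361359360, 426, 3977⟩]) rfl rfl
    (List.mem_of_getElem? (i := 130) rfl) TI_fr TI_cov ?_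
  · intro X Y h
    simp only [List.forall_mem_cons, List.not_mem_nil, false_imp_iff, implies_true, and_true] at h
    push_cast at h ⊢
    obtain ⟨h0, h1, h2, h3, h4⟩ := h
    refine ⟨⟨?_, ?_⟩, ?_, ?_⟩ <;> linarith

theorem TI_rg131 : ROK [.l ⟨0, 960, 0, -827⟩ ⟨0, 960, 0, 827⟩, .l ⟨0, -960, 0, 835⟩ ⟨0, 960, 0, 835⟩, .l ⟨0, 960, 0, -827⟩ ⟨0, 0, 4000, 3201⟩, .l ⟨0, 960, 0, -835⟩ ⟨0, 0, 4000, 3201⟩, .l ⟨0, 960, 0, -827⟩ ⟨0, 409, -3979, -2971⟩, .l ⟨0, 960, 0, -835⟩ ⟨0, 409, -3979, -2971⟩] := by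
  refine rok_dys (s := 1) (nlo := 827) (nhi := 835) (q := 960) (by decide) (by decide) (by decide) (by decide) (z := 3) (by decide) TI_sc (k := 1) (by decide) (Q := [(0, 4000, -3201), (409, -3979, 2971)])
    (P := [⟨-76216320, 960, 0⟩, ⟨76953600, -960, 0⟩, ⟨-295004160, 0, 4000⟩, ⟨273807360, 409, -3979⟩]) rfl rfl
    (List.mem_of_getElem? (i := 131) rfl) TI_fr TI_cov ?_
  · intro X Y h
    simp only [List.forall_mem_cons, List.not_mem_nil, false_imp_iff, implies_true, and_true] at h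
    push_cast at h ⊢
    obtain ⟨h0, h1, h2, h3⟩ := h
    refine ⟨⟨?_, ?_⟩, ?_, ?_⟩ <;> linarith

theorem TI_rg132 : ROK [.l ⟨0, 480, 0, -411⟩ ⟨0, 480, 0, 411⟩, .l ⟨0, -480, 0, 422⟩ ⟨0, 480, 0, 422⟩, .l ⟨0, 480, 0, -411⟩ ⟨0, 2243, 3312, 4624⟩, .l ⟨0, 480, 0, -422⟩ ⟨0, 2243, 3312, 4624⟩, .l ⟨0, 480, 0, -411⟩ ⟨0, 490, -3970, -2893⟩, .l ⟨0, 480, 0, -422⟩ ⟨0, 490, -3970, -2893⟩] := by
  refine rok_dys (s := 1) (nlo := 411) (nhi := 422) (q := 480) (by decide) (by decide) (by decide) (by decide) (z := 3) (by decide) TI_sc (k := 1) (by decide) (Q := [(2243, 3312, -4624), (490, -3970, 2893)])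
    (P := [⟨-37877760, 480, 0⟩, ⟨38891520, -480, 0⟩, ⟨-426147840, 2243, 3312⟩, ⟨266618880, 490, -3970⟩]) rfl rfl
    (List.mem_of_getElem? (i := 132) rfl) TI_fr TI_cov ?_
  · intro X Y h
    simp only [List.forall_mem_cons, List.not_mem_nil, false_imp_iff, implies_true, and_true] at h
    push_cast at h ⊢
    obtain ⟨h0, h1, h2, h3⟩ := h
    refine ⟨⟨?_, ?_⟩, ?_, ?_⟩ <;> linarith

theorem TI_rg133 : ROK [.l ⟨0, 192, 0, -169⟩ ⟨0, 192, 0, 169⟩, .l ⟨0, -192, 0, 171⟩ ⟨0, 192, 0, 171⟩, .l ⟨0, 192, 0, -169⟩ ⟨0, 1883, 3529, 4809⟩, .l ⟨0, 192, 0, -171⟩ ⟨0, 1883, 3529, 4809⟩, .l ⟨0, 192, 0, -169⟩ ⟨0, 54, -4000, -3751⟩, .l ⟨0, 192, 0, -171⟩ ⟨0, 54, -4000, -3751⟩, .l ⟨0, 192, 0, -169⟩ ⟨0, 575, 3958, 4033⟩, .l ⟨0, 192, 0, -171⟩ ⟨0, 575, 3958, 4033⟩] := by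
  refine rok_dys (s := 1) (nlo := 169) (nhi := 171) (q := 192) (by decide) (by decide) (by decide) (by decide) (z := 3) (by decide) TI_sc (k := 1) (by decide) (Q := [(1883, 3529, -4809), (54, -4000, 3751), (575, 3958, -4033)])
    (P := [⟨-15575040, 192, 0⟩, ⟨15759360, -192, 0⟩, ⟨-443197440, 1883, 3529⟩, ⟨345692160, 54, -4000⟩, ⟨-371681280, 575, 3958⟩]) rfl rfl
    (List.mem_of_getElem? (i := 133) rfl) TI_fr TI_cov ?_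
  · intro X Y h
    simp only [List.forall_mem_cons, List.not_mem_nil, false_imp_iff, implies_true, and_true] at h
    push_cast at h ⊢
    obtain ⟨h0, h1, h2, h3, h4⟩ := h
    refine ⟨⟨?_, ?_⟩, ?_, ?_⟩ <;> linarith

theorem TI_rg134 : ROK [.l ⟨0, 120, 0, -103⟩ ⟨0, 120, 0, 103⟩, .l ⟨0, -120, 0, 105⟩ ⟨0, 120, 0, 105⟩, .l ⟨0, 120, 0, -103⟩ ⟨0, 1136, 3835, 4065⟩, .l ⟨0, 120, 0, -105⟩ ⟨0, 1136, 3835, 4065⟩, .l ⟨0, 120, 0, -103⟩ ⟨0, -1136, -3835, -4185⟩, .l ⟨0, 120, 0, -105⟩ ⟨0, -1136, -3835, -4185⟩, .l ⟨0, 120, 0, -103⟩ ⟨0, 1132, -1649, -402⟩, .l ⟨0, 120, 0, -105⟩ ⟨0, 1132, -1649, -402⟩] := by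
  refine rok_dys (s := 1) (nlo := 103) (nhi := 105) (q := 120) (by decide) (by decide) (by decide) (by decide) (z := 3) (by decide) TI_sc (k := 1) (by decide) (Q := [(1136, 3835, -4065), (-1136, -3835, 4185), (1132, -1649, 402)])
    (P := [⟨-9492480, 120, 0⟩, ⟨9676800, -120, 0⟩, ⟨-374630400, 1136, 3835⟩, ⟨385689600, -1136, -3835⟩, ⟨37048320, 1132, -1649⟩]) rfl rfl
    (List.mem_of_getElem? (i := 134) rfl) TI_fr TI_cov ?_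
  · intro X Y h
    simp only [List.forall_mem_cons, List.not_mem_nil, false_imp_iff, implies_true, and_true] at h
    push_cast at h ⊢
    obtain ⟨h0, h1, h2, h3, h4⟩ := h
    refine ⟨⟨?_, ?_⟩, ?_, ?_⟩ <;> linarith

theorem TI_rg135 : ROK [.l ⟨0, 960, 0, -866⟩ ⟨0, 960, 0, 866⟩, .l ⟨0, -960, 0, 873⟩ ⟨0, 960, 0, 873⟩, .l ⟨0, 960, 0, -866⟩ ⟨0, 0, 2000, 1763⟩, .l ⟨0, 960, 0, -873⟩ ⟨0, 0, 2000, 1763⟩, .l ⟨0, 960, 0, -866⟩ ⟨0, -1437, -3733, -4841⟩, .l ⟨0, 960, 0, -873⟩ ⟨0, -1437, -3733, -4841⟩, .l ⟨0, 960, 0, -866⟩ ⟨0, 2957, 2693, 5049⟩, .l ⟨0, 960, 0, -873⟩ ⟨0, 2957, 2693, 5049⟩] := by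
  refine rok_dys (s := 1) (nlo := 866) (nhi := 873) (q := 960) (by decide) (by decide) (by decide) (by decide) (z := 3) (by decide) TI_sc (k := 1) (by decide) (Q := [(0, 2000, -1763), (-1437, -3733, 4841), (2957, 2693, -5049)])
    (P := [⟨-79810560, 960, 0⟩, ⟨80455680, -960, 0⟩, ⟨-162478080, 0, 2000⟩, ⟨446146560, -1437, -3733⟩, ⟨-465315840, 2957, 2693⟩]) rfl rfl
    (List.mem_of_getElem? (i := 135) rfl) TI_fr TI_cov ?_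
  · intro X Y h
    simp only [List.forall_mem_cons, List.not_mem_nil, false_imp_iff, implies_true, and_true] at h
    push_cast at h ⊢
    obtain ⟨h0, h1, h2, h3, h4⟩ := h
    refine ⟨⟨?_, ?_⟩, ?_, ?_⟩ <;> linarith

theorem TI_rg136 : ROK [.l ⟨0, 960, 0, -819⟩ ⟨0, 960, 0, 819⟩, .l ⟨0, -960, 0, 829⟩ ⟨0, 960, 0, 829⟩, .l ⟨0, 960, 0, -819⟩ ⟨0, 0, 4000, 3201⟩, .l ⟨0, 960, 0, -829⟩ ⟨0, 0, 4000, 3201⟩, .l ⟨0, 960, 0, -819⟩ ⟨0, -396, -3980, -3661⟩, .l ⟨0, 960, 0, -829⟩ ⟨0, -396, -3980, -3661⟩] := by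
  refine rok_dys (s := 1) (nlo := 819) (nhi := 829) (q := 960) (by decide) (by decide) (by decide) (by decide) (z := 3) (by decide) TI_sc (k := 1) (by decide) (Q := [(0, 4000, -3201), (-396, -3980, 3661)])
    (P := [⟨-75479040, 960, 0⟩, ⟨76400640, -960, 0⟩, ⟨-295004160, 0, 4000⟩, ⟨337397760, -396, -3980⟩]) rfl rfl
    (List.mem_of_getElem? (i := 136) rfl) TI_fr TI_cov ?_
  · intro X Y h
    simp only [List.forall_mem_cons, List.not_mem_nil, false_imp_iff, implies_true, and_true] at h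
    push_cast at h ⊢
    obtain ⟨h0, h1, h2, h3⟩ := h
    refine ⟨⟨?_, ?_⟩, ?_, ?_⟩ <;> linarith

theorem TI_rg137 : ROK [.l ⟨0, 240, 0, -211⟩ ⟨0, 240, 0, 211⟩, .l ⟨0, -240, 0, 214⟩ ⟨0, 240, 0, 214⟩, .l ⟨0, 240, 0, -211⟩ ⟨0, -1053, 1700, 576⟩, .l ⟨0, 240, 0, -214⟩ ⟨0, -1053, 1700, 576⟩, .l ⟨0, 240, 0, -211⟩ ⟨0, 1053, -1700, -675⟩, .l ⟨0, 240, 0, -214⟩ ⟨0, 1053, -1700, -675⟩, .l ⟨0, 240, 0, -211⟩ ⟨0, 1933, 3502, 4831⟩, .l ⟨0, 240, 0, -214⟩ ⟨0, 1933, 3502, 4831⟩] := by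
  refine rok_dys (s := 1) (nlo := 211) (nhi := 214) (q := 240) (by decide) (by decide) (by decide) (by decide) (z := 3) (by decide) TI_sc (k := 1) (by decide) (Q := [(-1053, 1700, -576), (1053, -1700, 675), (1933, 3502, -4831)])
    (P := [⟨-19445760, 240, 0⟩, ⟨19722240, -240, 0⟩, ⟨-53084160, -1053, 1700⟩, ⟨62208000, 1053, -1700⟩, ⟨-445224960, 1933, 3502⟩]) rfl rfl
    (List.mem_of_getElem? (i := 137) rfl) TI_fr TI_cov ?_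
  · intro X Y h
    simp only [List.forall_mem_cons, List.not_mem_nil, false_imp_iff, implies_true, and_true] at h
    push_cast at h ⊢
    obtain ⟨h0, h1, h2, h3, h4⟩ := h
    refine ⟨⟨?_, ?_⟩, ?_, ?_⟩ <;> linarith

theorem TI_rg138 : ROK [.l ⟨0, 960, 0, -822⟩ ⟨0, 960, 0, 822⟩, .l ⟨0, -960, 0, 829⟩ ⟨0, 960, 0, 829⟩, .l ⟨0, 960, 0, -822⟩ ⟨0, 1637, 3650, 4336⟩, .l ⟨0, 960, 0, -829⟩ ⟨0, 1637, 3650, 4336⟩, .l ⟨0, 960, 0, -822⟩ ⟨0, -693, -1139, -1547⟩, .l ⟨0, 960, 0, -829⟩ ⟨0, -693, -1139, -1547⟩, .l ⟨0, 960, 0, -822⟩ ⟨0, 711, -1128, -332⟩, .l ⟨0, 960, 0, -829⟩ ⟨0, 711, -1128, -332⟩] := by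
  refine rok_dys (s := 1) (nlo := 822) (nhi := 829) (q := 960) (by decide) (by decide) (by decide) (by decide) (z := 3) (by decide) TI_sc (k := 1) (by decide) (Q := [(1637, 3650, -4336), (-693, -1139, 1547), (711, -1128, 332)])
    (P := [⟨-75755520, 960, 0⟩, ⟨76400640, -960, 0⟩, ⟨-399605760, 1637, 3650⟩, ⟨142571520, -693, -1139⟩, ⟨30597120, 711, -1128⟩]) rfl rfl
    (List.mem_of_getElem? (i := 138) rfl) TI_fr TI_cov ?_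
  · intro X Y h
    simp only [List.forall_mem_cons, List.not_mem_nil, false_imp_iff, implies_true, and_true] at h
    push_cast at h ⊢
    obtain ⟨h0, h1, h2, h3, h4⟩ := h
    refine ⟨⟨?_, ?_⟩, ?_, ?_⟩ <;> linarith

theorem TI_rg139 : ROK [.l ⟨0, 480, 0, -417⟩ ⟨0, 480, 0, 417⟩, .l ⟨0, -480, 0, 424⟩ ⟨0, 480, 0, 424⟩, .l ⟨0, 480, 0, -417⟩ ⟨0, 376, 3982, -6997⟩, .l ⟨0, 480, 0, -424⟩ ⟨0, 376, 3982, -6997⟩, .l ⟨0, 480, 0, -417⟩ ⟨0, -188, -1991, -1830⟩, .l ⟨0, 480, 0, -424⟩ ⟨0, -188, -1991, -1830⟩, .l ⟨0, 480, 0, -417⟩ ⟨0, 2483, 3136, 4706⟩, .l ⟨0, 480, 0, -424⟩ ⟨0, 2483, 3136, 4706⟩] := by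
  refine rok_dys (s := 1) (nlo := 417) (nhi := 424) (q := 480) (by decide) (by decide) (by decide) (by decide) (z := 3) (by decide) TI_sc (k := 1) (by decide) (Q := [(376, 3982, 6997), (-188, -1991, 1830), (2483, 3136, -4706)])
    (P := [⟨-38430720, 480, 0⟩, ⟨39075840, -480, 0⟩, ⟨644843520, 376, 3982⟩, ⟨168652800, -188, -1991⟩, ⟨-433704960, 2483, 3136⟩]) rfl rfl
    (List.mem_of_getElem? (i := 139) rfl) TI_fr TI_cov ?_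
  · intro X Y h
    simp only [List.forall_mem_cons, List.not_mem_nil, false_imp_iff, implies_true, and_true] at h
    push_cast at h ⊢
    obtain ⟨h0, h1, h2, h3, h4⟩ := h
    refine ⟨⟨?_, ?_⟩, ?_, ?_⟩ <;> linarith

theorem TI_rg140 : ROK [.l ⟨0, 960, 0, -849⟩ ⟨0, 960, 0, 849⟩, .l ⟨0, -960, 0, 856⟩ ⟨0, 960, 0, 856⟩, .l ⟨0, 960, 0, -849⟩ ⟨0, 0, 4000, 3557⟩, .l ⟨0, 960, 0, -856⟩ ⟨0, 0, 4000, 3557⟩, .l ⟨0, 960, 0, -849⟩ ⟨0, 602, -1907, -1274⟩, .l ⟨0, 960, 0, -856⟩ ⟨0, 602, -1907, -1274⟩, .l ⟨0, 960, 0, -849⟩ ⟨0, 2637, 3008, 5016⟩, .l ⟨0, 960, 0, -856⟩ ⟨0, 2637, 3008, 5016⟩] := by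
  refine rok_dys (s := 1) (nlo := 849) (nhi := 856) (q := 960) (by decide) (by decide) (by decide) (by decide) (z := 3) (by decide) TI_sc (k := 1) (by decide) (Q := [(0, 4000, -3557), (602, -1907, 1274), (2637, 3008, -5016)])
    (P := [⟨-78243840, 960, 0⟩, ⟨78888960, -960, 0⟩, ⟨-327813120, 0, 4000⟩, ⟨117411840, 602, -1907⟩, ⟨-462274560, 2637, 3008⟩]) rfl rfl
    (List.mem_of_getElem? (i := 140) rfl) TI_fr TI_cov ?_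
  · intro X Y h
    simp only [List.forall_mem_cons, List.not_mem_nil, false_imp_iff, implies_true, and_true] at h
    push_cast at h ⊢
    obtain ⟨h0, h1, h2, h3, h4⟩ := h
    refine ⟨⟨?_, ?_⟩, ?_, ?_⟩ <;> linarith

theorem TI_rg141 : ROK [.l ⟨0, 320, 0, -282⟩ ⟨0, 320, 0, 282⟩, .l ⟨0, -320, 0, 285⟩ ⟨0, 320, 0, 285⟩, .l ⟨0, 320, 0, -282⟩ ⟨0, 0, 4000, 3557⟩, .l ⟨0, 320, 0, -285⟩ ⟨0, 0, 4000, 3557⟩, .l ⟨0, 320, 0, -282⟩ ⟨0, 0, -4000, -3799⟩, .l ⟨0, 320, 0, -285⟩ ⟨0, 0, -4000, -3799⟩, .l ⟨0, 320, 0, -282⟩ ⟨0, 2011, 3458, 4861⟩, .l ⟨0, 320, 0, -285⟩ ⟨0, 2011, 3458, 4861⟩] := by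
  refine rok_dys (s := 1) (nlo := 282) (nhi := 285) (q := 320) (by decide) (by decide) (by decide) (by decide) (z := 3) (by decide) TI_sc (k := 1) (by decide) (Q := [(0, 4000, -3557), (0, -4000, 3799), (2011, 3458, -4861)])
    (P := [⟨-25989120, 320, 0⟩, ⟨26265600, -320, 0⟩, ⟨-327813120, 0, 4000⟩, ⟨350115840, 0, -4000⟩, ⟨-447989760, 2011, 3458⟩]) rfl rfl
    (List.mem_of_getElem? (i := 141) rfl) TI_fr TI_cov ?_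
  · intro X Y h
    simp only [List.forall_mem_cons, List.not_mem_nil, false_imp_iff, implies_true, and_true] at h
    push_cast at h ⊢
    obtain ⟨h0, h1, h2, h3, h4⟩ := h
    refine ⟨⟨?_, ?_⟩, ?_, ?_⟩ <;> linarith

theorem TI_rg142 : ROK [.l ⟨0, 480, 0, -409⟩ ⟨0, 480, 0, 409⟩, .l ⟨0, -480, 0, 414⟩ ⟨0, 480, 0, 414⟩, .l ⟨0, 480, 0, -409⟩ ⟨0, 1150, 3831, 4060⟩, .l ⟨0, 480, 0, -414⟩ ⟨0, 1150, 3831, 4060⟩, .l ⟨0, 480, 0, -409⟩ ⟨0, -1150, -3831, -4188⟩, .l ⟨0, 480, 0, -414⟩ ⟨0, -1150, -3831, -4188⟩, .l ⟨0, 480, 0, -409⟩ ⟨0, 812, -3917, -2576⟩, .l ⟨0, 480, 0, -414⟩ ⟨0, 812, -3917, -2576⟩] := by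
  refine rok_dys (s := 1) (nlo := 409) (nhi := 414) (q := 480) (by decide) (by decide) (by decide) (by decide) (z := 3) (by decide) TI_sc (k := 1) (by decide) (Q := [(1150, 3831, -4060), (-1150, -3831, 4188), (812, -3917, 2576)])
    (P := [⟨-37693440, 480, 0⟩, ⟨38154240, -480, 0⟩, ⟨-374169600, 1150, 3831⟩, ⟨385966080, -1150, -3831⟩, ⟨237404160, 812, -3917⟩]) rfl rfl
    (List.mem_of_getElem? (i := 142) rfl) TI_fr TI_cov ?_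
  · intro X Y h
    simp only [List.forall_mem_cons, List.not_mem_nil, false_imp_iff, implies_true, and_true] at h
    push_cast at h ⊢
    obtain ⟨h0, h1, h2, h3, h4⟩ := h
    refine ⟨⟨?_, ?_⟩, ?_, ?_⟩ <;> linarith

theorem TI_rg143 : ROK [.l ⟨0, 240, 0, -211⟩ ⟨0, 240, 0, 211⟩, .l ⟨0, -240, 0, 215⟩ ⟨0, 240, 0, 215⟩, .l ⟨0, 240, 0, -211⟩ ⟨0, 2347, 3239, 4967⟩, .l ⟨0, 240, 0, -215⟩ ⟨0, 2347, 3239, 4967⟩, .l ⟨0, 240, 0, -211⟩ ⟨0, -2347, -3239, -5137⟩, .l ⟨0, 240, 0, -215⟩ ⟨0, -2347, -3239, -5137⟩, .l ⟨0, 240, 0, -211⟩ ⟨0, 536, 3964, 3997⟩, .l ⟨0, 240, 0, -215⟩ ⟨0, 536, 3964, 3997⟩] := by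
  refine rok_dys (s := 1) (nlo := 211) (nhi := 215) (q := 240) (by decide) (by decide) (by decide) (by decide) (z := 3) (by decide) TI_sc (k := 1) (by decide) (Q := [(2347, 3239, -4967), (-2347, -3239, 5137), (536, 3964, -3997)])
    (P := [⟨-19445760, 240, 0⟩, ⟨19814400, -240, 0⟩, ⟨-457758720, 2347, 3239⟩, ⟨473425920, -2347, -3239⟩, ⟨-368363520, 536, 3964⟩]) rfl rfl
    (List.mem_of_getElem? (i := 143) rfl) TI_fr TI_cov ?_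
  · intro X Y h
    simp only [List.forall_mem_cons, List.not_mem_nil, false_imp_iff, implies_true, and_true] at h
    push_cast at h ⊢
    obtain ⟨h0, h1, h2, h3, h4⟩ := h
    refine ⟨⟨?_, ?_⟩, ?_, ?_⟩ <;> linarith

end Pool.Agent.TET
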