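import Pool.Agent.Helper38_TET.TI_C

/-!
# MP_c7c9bf_co: certificates, family TI
-/

set_option autoImplicit false
set_option maxRecDepth 100000

namespace Pool.Agent.TET

theorem TI_rg144 : ROK [.l ⟨0, 960, 0, -849⟩ ⟨0, 960, 0, 849⟩, .l ⟨0, -960, 0, 859⟩ ⟨0, 960, 0, 859⟩, .l ⟨0, 960, 0, -849⟩ ⟨0, 0, 4000, 3557⟩, .l ⟨0, 960, 0, -859⟩ ⟨0, 0, 4000, 3557⟩, .l ⟨0, 960, 0, -849⟩ ⟨0, 0, -4000, -3799⟩, .l ⟨0, 960, 0, -859⟩ ⟨0, 0, -4000, -3799⟩, .l ⟨0, 960, 0, -849⟩ ⟨0, 2347, 3239, 4964⟩, .l ⟨0, 960, 0, -859⟩ ⟨0, 2347, 3239, 4964⟩] := by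
  refine rok_dys (s := 1) (nlo := 849) (nhi := 859) (q := 960) (by decide) (by decide) (by decide) (by decide) (z := 3) (by decide) TI_sc (k := 1) (by decide) (Q := [(0, 4000, -3557), (0, -4000, 3799), (2347, 3239, -4964)])
    (P := [⟨-78243840, 960, 0⟩, ⟨79165440, -960, 0⟩, ⟨-327813120, 0, 4000⟩, ⟨350115840, 0, -4000⟩, ⟨-457482240, 2347, 3239⟩]) rfl rfl
    (List.mem_of_getElem? (i := 144) rfl) TI_fr TI_cov ?_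
  · intro X Y h
    simp only [List.forall_mem_cons, List.not_mem_nil, false_imp_iff, implies_true, and_true] at h
    push_cast at h ⊢
    obtain ⟨h0, h1, h2, h3, h4⟩ := h
    refine ⟨⟨?_, ?_⟩, ?_, ?_⟩ <;> linarith

theorem TI_rg145 : ROK [.l ⟨0, 960, 0, -835⟩ ⟨0, 960, 0, 835⟩, .l ⟨0, -960, 0, 843⟩ ⟨0, 960, 0, 843⟩, .l ⟨0, 960, 0, -835⟩ ⟨0, 0, 1000, -2171⟩, .l ⟨0, 960, 0, -843⟩ ⟨0, 0, 1000, -2171⟩, .l ⟨0, 960, 0, -835⟩ ⟨0, 0, -4000, -3349⟩, .l ⟨0, 960, 0, -843⟩ ⟨0, 0, -4000, -3349⟩, .l ⟨0, 960, 0, -835⟩ ⟨0, -2070, 3423, 941⟩, .l ⟨0, 960, 0, -843⟩ ⟨0, -2070, 3423, 941⟩] := by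
  refine rok_dys (s := 1) (nlo := 835) (nhi := 843) (q := 960) (by decide) (by decide) (by decide) (by decide) (z := 3) (by decide) TI_sc (k := 1) (by decide) (Q := [(0, 1000, 2171), (0, -4000, 3349), (-2070, 3423, -941)])
    (P := [⟨-76953600, 960, 0⟩, ⟨77690880, -960, 0⟩, ⟨200079360, 0, 1000⟩, ⟨308643840, 0, -4000⟩, ⟨-86722560, -2070, 3423⟩]) rfl rfl
    (List.mem_of_getElem? (i := 145) rfl) TI_fr TI_cov ?_
  · intro X Y h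
    simp only [List.forall_mem_cons, List.not_mem_nil, false_imp_iff, implies_true, and_true] at h
    push_cast at h ⊢
    obtain ⟨h0, h1, h2, h3, h4⟩ := h
    refine ⟨⟨?_, ?_⟩, ?_, ?_⟩ <;> linarith

theorem TI_rg146 : ROK [.l ⟨0, 480, 0, -425⟩ ⟨0, 480, 0, 425⟩, .l ⟨0, -480, 0, 432⟩ ⟨0, 480, 0, 432⟩, .l ⟨0, 480, 0, -425⟩ ⟨0, -2248, 3309, 912⟩, .l ⟨0, 480, 0, -432⟩ ⟨0, -2248, 3309, 912⟩, .l ⟨0, 480, 0, -425⟩ ⟨0, 347, -938, -578⟩, .l ⟨0, 480, 0, -432⟩ ⟨0, 347, -938, -578⟩, .l ⟨0, 480, 0, -425⟩ ⟨0, 2224, 3325, 4938⟩, .l ⟨0, 480, 0, -432⟩ ⟨0, 2224, 3325, 4938⟩] := by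
  refine rok_dys (s := 1) (nlo := 425) (nhi := 432) (q := 480) (by decide) (by decide) (by decide) (by decide) (z := 3) (by decide) TI_sc (k := 1) (by decide) (Q := [(-2248, 3309, -912), (347, -938, 578), (2224, 3325, -4938)])
    (P := [⟨-39168000, 480, 0⟩, ⟨39813120, -480, 0⟩, ⟨-84049920, -2248, 3309⟩, ⟨53268480, 347, -938⟩, ⟨-455086080, 2224, 3325⟩]) rfl rfl
    (List.mem_of_getElem? (i := 146) rfl) TI_fr TI_cov ?_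
  · intro X Y h
    simp only [List.forall_mem_cons, List.not_mem_nil, false_imp_iff, implies_true, and_true] at h
    push_cast at h ⊢
    obtain ⟨h0, h1, h2, h3, h4⟩ := h
    refine ⟨⟨?_, ?_⟩, ?_, ?_⟩ <;> linarith

theorem TI_rg147 : ROK [.l ⟨0, 480, 0, -423⟩ ⟨0, 480, 0, 423⟩, .l ⟨0, -480, 0, 427⟩ ⟨0, 480, 0, 427⟩, .l ⟨0, 480, 0, -423⟩ ⟨0, 0, 100, 89⟩, .l ⟨0, 480, 0, -427⟩ ⟨0, 0, 100, 89⟩, .l ⟨0, 480, 0, -423⟩ ⟨0, 0, -4000, -3799⟩, .l ⟨0, 480, 0, -427⟩ ⟨0, 0, -4000, -3799⟩, .l ⟨0, 480, 0, -423⟩ ⟨0, 3046, 2593, 5006⟩, .l ⟨0, 480, 0, -427⟩ ⟨0, 3046, 2593, 5006⟩] := by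
  refine rok_dys (s := 1) (nlo := 423) (nhi := 427) (q := 480) (by decide) (by decide) (by decide) (by decide) (z := 3) (by decide) TI_sc (k := 1) (by decide) (Q := [(0, 100, -89), (0, -4000, 3799), (3046, 2593, -5006)])
    (P := [⟨-38983680, 480, 0⟩, ⟨39352320, -480, 0⟩, ⟨-8202240, 0, 100⟩, ⟨350115840, 0, -4000⟩, ⟨-461352960, 3046, 2593⟩]) rfl rfl
    (List.mem_of_getElem? (i := 147) rfl) TI_fr TI_cov ?_
  · intro X Y h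
    simp only [List.forall_mem_cons, List.not_mem_nil, false_imp_iff, implies_true, and_true] at h
    push_cast at h ⊢
    obtain ⟨h0, h1, h2, h3, h4⟩ := h
    refine ⟨⟨?_, ?_⟩, ?_, ?_⟩ <;> linarith

theorem TI_rg148 : ROK [.l ⟨0, 480, 0, -421⟩ ⟨0, 480, 0, 421⟩, .l ⟨0, -480, 0, 429⟩ ⟨0, 480, 0, 429⟩, .l ⟨0, 480, 0, -421⟩ ⟨0, 0, 100, 89⟩, .l ⟨0, 480, 0, -429⟩ ⟨0, 0, 100, 89⟩, .l ⟨0, 480, 0, -421⟩ ⟨0, 589, -3956, -3230⟩, .l ⟨0, 480, 0, -429⟩ ⟨0, 589, -3956, -3230⟩, .l ⟨0, 480, 0, -421⟩ ⟨0, 1782, 3581, 4766⟩, .l ⟨0, 480, 0, -429⟩ ⟨0, 1782, 3581, 4766⟩] := by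
  refine rok_dys (s := 1) (nlo := 421) (nhi := 429) (q := 480) (by decide) (by decide) (by decide) (by decide) (z := 3) (by decide) TI_sc (k := 1) (by decide) (Q := [(0, 100, -89), (589, -3956, 3230), (1782, 3581, -4766)])
    (P := [⟨-38799360, 480, 0⟩, ⟨39536640, -480, 0⟩, ⟨-8202240, 0, 100⟩, ⟨297676800, 589, -3956⟩, ⟨-439234560, 1782, 3581⟩]) rfl rfl
    (List.mem_of_getElem? (i := 148) rfl) TI_fr TI_cov ?_
  · intro X Y h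
    simp only [List.forall_mem_cons, List.not_mem_nil, false_imp_iff, implies_true, and_true] at h
    push_cast at h ⊢
    obtain ⟨h0, h1, h2, h3, h4⟩ := h
    refine ⟨⟨?_, ?_⟩, ?_, ?_⟩ <;> linarith

theorem TI_rg149 : ROK [.l ⟨0, 960, 0, -829⟩ ⟨0, 960, 0, 829⟩, .l ⟨0, -960, 0, 840⟩ ⟨0, 960, 0, 840⟩, .l ⟨0, 960, 0, -829⟩ ⟨0, 0, 4000, 3201⟩, .l ⟨0, 960, 0, -840⟩ ⟨0, 0, 4000, 3201⟩, .l ⟨0, 960, 0, -829⟩ ⟨0, 0, -4000, -3343⟩, .l ⟨0, 960, 0, -840⟩ ⟨0, 0, -4000, -3343⟩] := by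
  refine rok_dys (s := 1) (nlo := 829) (nhi := 840) (q := 960) (by decide) (by decide) (by decide) (by decide) (z := 3) (by decide) TI_sc (k := 1) (by decide) (Q := [(0, 4000, -3201), (0, -4000, 3343)])
    (P := [⟨-76400640, 960, 0⟩, ⟨77414400, -960, 0⟩, ⟨-295004160, 0, 4000⟩, ⟨308090880, 0, -4000⟩]) rfl rfl
    (List.mem_of_getElem? (i := 149) rfl) TI_fr TI_cov ?_
  · intro X Y h
    simp only [List.forall_mem_cons, List.not_mem_nil, false_imp_iff, implies_true, and_true] at h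
    push_cast at h ⊢
    obtain ⟨h0, h1, h2, h3⟩ := h
    refine ⟨⟨?_, ?_⟩, ?_, ?_⟩ <;> linarith

theorem TI_rg150 : ROK [.l ⟨0, 480, 0, -422⟩ ⟨0, 480, 0, 422⟩, .l ⟨0, -480, 0, 431⟩ ⟨0, 480, 0, 431⟩, .l ⟨0, 480, 0, -422⟩ ⟨0, 1873, 3534, 4809⟩, .l ⟨0, 480, 0, -431⟩ ⟨0, 1873, 3534, 4809⟩, .l ⟨0, 480, 0, -422⟩ ⟨0, -875, -3903, -4475⟩, .l ⟨0, 480, 0, -431⟩ ⟨0, -875, -3903, -4475⟩] := by
  refine rok_dys (s := 1) (nlo := 422) (nhi := 431) (q := 480) (by decide) (by decide) (by decide) (by decide) (z := 3) (by decide) TI_sc (k := 1) (by decide) (Q := [(1873, 3534, -4809), (-875, -3903, 4475)])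
    (P := [⟨-38891520, 480, 0⟩, ⟨39720960, -480, 0⟩, ⟨-443197440, 1873, 3534⟩, ⟨412416000, -875, -3903⟩]) rfl rfl
    (List.mem_of_getElem? (i := 150) rfl) TI_fr TI_cov ?_
  · intro X Y h
    simp only [List.forall_mem_cons, List.not_mem_nil, false_imp_iff, implies_true, and_true] at h
    push_cast at h ⊢
    obtain ⟨h0, h1, h2, h3⟩ := h
    refine ⟨⟨?_, ?_⟩, ?_, ?_⟩ <;> linarith

theorem TI_rg151 : ROK [.l ⟨0, 960, 0, -847⟩ ⟨0, 960, 0, 847⟩, .l ⟨0, -960, 0, 858⟩ ⟨0, 960, 0, 858⟩, .l ⟨0, 960, 0, -847⟩ ⟨0, 2617, 3025, -6981⟩, .l ⟨0, 960, 0, -858⟩ ⟨0, 2617, 3025, -6981⟩, .l ⟨0, 960, 0, -847⟩ ⟨0, 2599, -3041, -561⟩, .l ⟨0, 960, 0, -858⟩ ⟨0, 2599, -3041, -561⟩, .l ⟨0, 960, 0, -847⟩ ⟨0, 2017, 3454, 4866⟩, .l ⟨0, 960, 0, -858⟩ ⟨0, 2017, 3454, 4866⟩] := by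
  refine rok_dys (s := 1) (nlo := 847) (nhi := 858) (q := 960) (by decide) (by decide) (by decide) (by decide) (z := 3) (by decide) TI_sc (k := 1) (by decide) (Q := [(2617, 3025, 6981), (2599, -3041, 561), (2017, 3454, -4866)])
    (P := [⟨-78059520, 960, 0⟩, ⟨79073280, -960, 0⟩, ⟨643368960, 2617, 3025⟩, ⟨51701760, 2599, -3041⟩, ⟨-448450560, 2017, 3454⟩]) rfl rfl
    (List.mem_of_getElem? (i := 151) rfl) TI_fr TI_cov ?_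
  · intro X Y h
    simp only [List.forall_mem_cons, List.not_mem_nil, false_imp_iff, implies_true, and_true] at h
    push_cast at h ⊢
    obtain ⟨h0, h1, h2, h3, h4⟩ := h
    refine ⟨⟨?_, ?_⟩, ?_, ?_⟩ <;> linarith

theorem TI_rg152 : ROK [.l ⟨0, 960, 0, -851⟩ ⟨0, 960, 0, 851⟩, .l ⟨0, -960, 0, 859⟩ ⟨0, 960, 0, 859⟩, .l ⟨0, 960, 0, -851⟩ ⟨0, 2559, 3074, -6985⟩, .l ⟨0, 960, 0, -859⟩ ⟨0, 2559, 3074, -6985⟩, .l ⟨0, 960, 0, -851⟩ ⟨0, -2700, -2951, -5194⟩, .l ⟨0, 960, 0, -859⟩ ⟨0, -2700, -2951, -5194⟩, .l ⟨0, 960, 0, -851⟩ ⟨0, 1762, 3591, 4760⟩, .l ⟨0, 960, 0, -859⟩ ⟨0, 1762, 3591, 4760⟩] := by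
  refine rok_dys (s := 1) (nlo := 851) (nhi := 859) (q := 960) (by decide) (by decide) (by decide) (by decide) (z := 3) (by decide) TI_sc (k := 1) (by decide) (Q := [(2559, 3074, 6985), (-2700, -2951, 5194), (1762, 3591, -4760)])
    (P := [⟨-78428160, 960, 0⟩, ⟨79165440, -960, 0⟩, ⟨643737600, 2559, 3074⟩, ⟨478679040, -2700, -2951⟩, ⟨-438681600, 1762, 3591⟩]) rfl rfl
    (List.mem_of_getElem? (i := 152) rfl) TI_fr TI_cov ?_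
  · intro X Y h
    simp only [List.forall_mem_cons, List.not_mem_nil, false_imp_iff, implies_true, and_true] at h
    push_cast at h ⊢
    obtain ⟨h0, h1, h2, h3, h4⟩ := h
    refine ⟨⟨?_, ?_⟩, ?_, ?_⟩ <;> linarith

theorem TI_rg153 : ROK [.l ⟨0, 960, 0, -851⟩ ⟨0, 960, 0, 851⟩, .l ⟨0, -960, 0, 859⟩ ⟨0, 960, 0, 859⟩, .l ⟨0, 960, 0, -851⟩ ⟨0, 1926, 3506, 4831⟩, .l ⟨0, 960, 0, -859⟩ ⟨0, 1926, 3506, 4831⟩, .l ⟨0, 960, 0, -851⟩ ⟨0, 888, -3900, -2909⟩, .l ⟨0, 960, 0, -859⟩ ⟨0, 888, -3900, -2909⟩] := by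
  refine rok_dys (s := 1) (nlo := 851) (nhi := 859) (q := 960) (by decide) (by decide) (by decide) (by decide) (z := 3) (by decide) TI_sc (k := 1) (by decide) (Q := [(1926, 3506, -4831), (888, -3900, 2909)])
    (P := [⟨-78428160, 960, 0⟩, ⟨79165440, -960, 0⟩, ⟨-445224960, 1926, 3506⟩, ⟨268093440, 888, -3900⟩]) rfl rfl
    (List.mem_of_getElem? (i := 153) rfl) TI_fr TI_cov ?_
  · intro X Y h
    simp only [List.forall_mem_cons, List.not_mem_nil, false_imp_iff, implies_true, and_true] at h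
    push_cast at h ⊢
    obtain ⟨h0, h1, h2, h3⟩ := h
    refine ⟨⟨?_, ?_⟩, ?_, ?_⟩ <;> linarith

theorem TI_rg154 : ROK [.l ⟨0, 480, 0, -421⟩ ⟨0, 480, 0, 421⟩, .l ⟨0, -480, 0, 431⟩ ⟨0, 480, 0, 431⟩, .l ⟨0, 480, 0, -421⟩ ⟨0, 1849, 3547, 4799⟩, .l ⟨0, 480, 0, -431⟩ ⟨0, 1849, 3547, 4799⟩, .l ⟨0, 480, 0, -421⟩ ⟨0, -1849, -3547, -4989⟩, .l ⟨0, 480, 0, -431⟩ ⟨0, -1849, -3547, -4989⟩] := by
  refine rok_dys (s := 1) (nlo := 421) (nhi := 431) (q := 480) (by decide) (by decide) (by decide) (by decide) (z := 3) (by decide) TI_sc (k := 1) (by decide) (Q := [(1849, 3547, -4799), (-1849, -3547, 4989)])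
    (P := [⟨-38799360, 480, 0⟩, ⟨39720960, -480, 0⟩, ⟨-442275840, 1849, 3547⟩, ⟨459786240, -1849, -3547⟩]) rfl rfl
    (List.mem_of_getElem? (i := 154) rfl) TI_fr TI_cov ?_
  · intro X Y h
    simp only [List.forall_mem_cons, List.not_mem_nil, false_imp_iff, implies_true, and_true] at h
    push_cast at h ⊢
    obtain ⟨h0, h1, h2, h3⟩ := h
    refine ⟨⟨?_, ?_⟩, ?_, ?_⟩ <;> linarith

theorem TI_rg155 : ROK [.l ⟨0, 960, 0, -848⟩ ⟨0, 960, 0, 848⟩, .l ⟨0, -960, 0, 855⟩ ⟨0, 960, 0, 855⟩, .l ⟨0, 960, 0, -848⟩ ⟨0, 1549, 3688, 4657⟩, .l ⟨0, 960, 0, -855⟩ ⟨0, 1549, 3688, 4657⟩, .l ⟨0, 960, 0, -848⟩ ⟨0, -1549, -3688, -4870⟩, .l ⟨0, 960, 0, -855⟩ ⟨0, -1549, -3688, -4870⟩] := by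
  refine rok_dys (s := 1) (nlo := 848) (nhi := 855) (q := 960) (by decide) (by decide) (by decide) (by decide) (z := 3) (by decide) TI_sc (k := 1) (by decide) (Q := [(1549, 3688, -4657), (-1549, -3688, 4870)])
    (P := [⟨-78151680, 960, 0⟩, ⟨78796800, -960, 0⟩, ⟨-429189120, 1549, 3688⟩, ⟨448819200, -1549, -3688⟩]) rfl rfl
    (List.mem_of_getElem? (i := 155) rfl) TI_fr TI_cov ?_
  · intro X Y h
    simp only [List.forall_mem_cons, List.not_mem_nil, false_imp_iff, implies_true, and_true] at h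
    push_cast at h ⊢
    obtain ⟨h0, h1, h2, h3⟩ := h
    refine ⟨⟨?_, ?_⟩, ?_, ?_⟩ <;> linarith

theorem TI_rg156 : ROK [.l ⟨0, 120, 0, -107⟩ ⟨0, 120, 0, 107⟩, .l ⟨0, -120, 0, 108⟩ ⟨0, 120, 0, 108⟩, .l ⟨0, 120, 0, -107⟩ ⟨0, 0, 800, 709⟩, .l ⟨0, 120, 0, -108⟩ ⟨0, 0, 800, 709⟩, .l ⟨0, 120, 0, -107⟩ ⟨0, 1478, -3717, -2198⟩, .l ⟨0, 120, 0, -108⟩ ⟨0, 1478, -3717, -2198⟩, .l ⟨0, 120, 0, -107⟩ ⟨0, 2299, 3274, 4958⟩, .l ⟨0, 120, 0, -108⟩ ⟨0, 2299, 3274, 4958⟩] := by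
  refine rok_dys (s := 1) (nlo := 107) (nhi := 108) (q := 120) (by decide) (by decide) (by decide) (by decide) (z := 3) (by decide) TI_sc (k := 1) (by decide) (Q := [(0, 800, -709), (1478, -3717, 2198), (2299, 3274, -4958)])
    (P := [⟨-9861120, 120, 0⟩, ⟨9953280, -120, 0⟩, ⟨-65341440, 0, 800⟩, ⟨202567680, 1478, -3717⟩, ⟨-456929280, 2299, 3274⟩]) rfl rfl
    (List.mem_of_getElem? (i := 156) rfl) TI_fr TI_cov ?_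
  · intro X Y h
    simp only [List.forall_mem_cons, List.not_mem_nil, false_imp_iff, implies_true, and_true] at h
    push_cast at h ⊢
    obtain ⟨h0, h1, h2, h3, h4⟩ := h
    refine ⟨⟨?_, ?_⟩, ?_, ?_⟩ <;> linarith

theorem TI_rg157 : ROK [.l ⟨0, 960, 0, -849⟩ ⟨0, 960, 0, 849⟩, .l ⟨0, -960, 0, 856⟩ ⟨0, 960, 0, 856⟩, .l ⟨0, 960, 0, -849⟩ ⟨0, 0, 1000, -1649⟩, .l ⟨0, 960, 0, -856⟩ ⟨0, 0, 1000, -1649⟩, .l ⟨0, 960, 0, -849⟩ ⟨0, 0, -4000, -15167⟩, .l ⟨0, 960, 0, -856⟩ ⟨0, 0, -4000, -15167⟩, .l ⟨0, 960, 0, -849⟩ ⟨0, 1917, 3510, 4826⟩, .l ⟨0, 960, 0, -856⟩ ⟨0, 1917, 3510, 4826⟩, .l ⟨0, 960, 0, -849⟩ ⟨0, 1801, -3572, -1785⟩, .l ⟨0, 960, 0, -856⟩ ⟨0, 1801, -3572, -1785⟩] := by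
  refine rok_dys (s := 1) (nlo := 849) (nhi := 856) (q := 960) (by decide) (by decide) (by decide) (by decide) (z := 3) (by decide) TI_sc (k := 1) (by decide) (Q := [(0, 1000, 1649), (0, -4000, 15167), (1917, 3510, -4826), (1801, -3572, 1785)])
    (P := [⟨-78243840, 960, 0⟩, ⟨78888960, -960, 0⟩, ⟨151971840, 0, 1000⟩, ⟨1397790720, 0, -4000⟩, ⟨-444764160, 1917, 3510⟩, ⟨164505600, 1801, -3572⟩]) rfl rfl
    (List.mem_of_getElem? (i := 157) rfl) TI_fr TI_cov ?_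
  · intro X Y h
    simp only [List.forall_mem_cons, List.not_mem_nil, false_imp_iff, implies_true, and_true] at h
    push_cast at h ⊢
    obtain ⟨h0, h1, h2, h3, h4, h5⟩ := h
    refine ⟨⟨?_, ?_⟩, ?_, ?_⟩ <;> linarith

theorem TI_rg158 : ROK [.l ⟨0, 960, 0, -849⟩ ⟨0, 960, 0, 849⟩, .l ⟨0, -960, 0, 859⟩ ⟨0, 960, 0, 859⟩, .l ⟨0, 960, 0, -849⟩ ⟨0, -622, 3951, 2953⟩, .l ⟨0, 960, 0, -859⟩ ⟨0, -622, 3951, 2953⟩, .l ⟨0, 960, 0, -849⟩ ⟨0, -2713, -2939, -5186⟩, .l ⟨0, 960, 0, -859⟩ ⟨0, -2713, -2939, -5186⟩, .l ⟨0, 960, 0, -849⟩ ⟨0, 527, 602, 1004⟩, .l ⟨0, 960, 0, -859⟩ ⟨0, 527, 602, 1004⟩] := by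
  refine rok_dys (s := 1) (nlo := 849) (nhi := 859) (q := 960) (by decide) (by decide) (by decide) (by decide) (z := 3) (by decide) TI_sc (k := 1) (by decide) (Q := [(-622, 3951, -2953), (-2713, -2939, 5186), (527, 602, -1004)])
    (P := [⟨-78243840, 960, 0⟩, ⟨79165440, -960, 0⟩, ⟨-272148480, -622, 3951⟩, ⟨477941760, -2713, -2939⟩, ⟨-92528640, 527, 602⟩]) rfl rfl
    (List.mem_of_getElem? (i := 158) rfl) TI_fr TI_cov ?_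
  · intro X Y h
    simp only [List.forall_mem_cons, List.not_mem_nil, false_imp_iff, implies_true, and_true] at h
    push_cast at h ⊢
    obtain ⟨h0, h1, h2, h3, h4⟩ := h
    refine ⟨⟨?_, ?_⟩, ?_, ?_⟩ <;> linarith

theorem TI_rg159 : ROK [.l ⟨0, 960, 0, -853⟩ ⟨0, 960, 0, 853⟩, .l ⟨0, -960, 0, 860⟩ ⟨0, 960, 0, 860⟩, .l ⟨0, 960, 0, -853⟩ ⟨0, -129, 340, 186⟩, .l ⟨0, 960, 0, -860⟩ ⟨0, -129, 340, 186⟩, .l ⟨0, 960, 0, -853⟩ ⟨0, 1419, -3740, -2279⟩, .l ⟨0, 960, 0, -860⟩ ⟨0, 1419, -3740, -2279⟩, .l ⟨0, 960, 0, -853⟩ ⟨0, 2355, 3234, 4972⟩, .l ⟨0, 960, 0, -860⟩ ⟨0, 2355, 3234, 4972⟩] := by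
  refine rok_dys (s := 1) (nlo := 853) (nhi := 860) (q := 960) (by decide) (by decide) (by decide) (by decide) (z := 3) (by decide) TI_sc (k := 1) (by decide) (Q := [(-129, 340, -186), (1419, -3740, 2279), (2355, 3234, -4972)])
    (P := [⟨-78612480, 960, 0⟩, ⟨79257600, -960, 0⟩, ⟨-17141760, -129, 340⟩, ⟨210032640, 1419, -3740⟩, ⟨-458219520, 2355, 3234⟩]) rfl rfl
    (List.mem_of_getElem? (i := 159) rfl) TI_fr TI_cov ?_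
  · intro X Y h
    simp only [List.forall_mem_cons, List.not_mem_nil, false_imp_iff, implies_true, and_true] at h
    push_cast at h ⊢
    obtain ⟨h0, h1, h2, h3, h4⟩ := h
    refine ⟨⟨?_, ?_⟩, ?_, ?_⟩ <;> linarith

theorem TI_rg160 : ROK [.l ⟨0, 960, 0, -854⟩ ⟨0, 960, 0, 854⟩, .l ⟨0, -960, 0, 861⟩ ⟨0, 960, 0, 861⟩, .l ⟨0, 960, 0, -854⟩ ⟨0, 0, 2000, 1773⟩, .l ⟨0, 960, 0, -861⟩ ⟨0, 0, 2000, 1773⟩, .l ⟨0, 960, 0, -854⟩ ⟨0, 0, -4000, -3799⟩, .l ⟨0, 960, 0, -861⟩ ⟨0, 0, -4000, -3799⟩, .l ⟨0, 960, 0, -854⟩ ⟨0, 3073, 2561, 5016⟩, .l ⟨0, 960, 0, -861⟩ ⟨0, 3073, 2561, 5016⟩] := by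
  refine rok_dys (s := 1) (nlo := 854) (nhi := 861) (q := 960) (by decide) (by decide) (by decide) (by decide) (z := 3) (by decide) TI_sc (k := 1) (by decide) (Q := [(0, 2000, -1773), (0, -4000, 3799), (3073, 2561, -5016)])
    (P := [⟨-78704640, 960, 0⟩, ⟨79349760, -960, 0⟩, ⟨-163399680, 0, 2000⟩, ⟨350115840, 0, -4000⟩, ⟨-462274560, 3073, 2561⟩]) rfl rfl
    (List.mem_of_getElem? (i := 160) rfl) TI_fr TI_cov ?_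
  · intro X Y h
    simp only [List.forall_mem_cons, List.not_mem_nil, false_imp_iff, implies_true, and_true] at h
    push_cast at h ⊢
    obtain ⟨h0, h1, h2, h3, h4⟩ := h
    refine ⟨⟨?_, ?_⟩, ?_, ?_⟩ <;> linarith

theorem TI_rg161 : ROK [.l ⟨0, 480, 0, -422⟩ ⟨0, 480, 0, 422⟩, .l ⟨0, -480, 0, 431⟩ ⟨0, 480, 0, 431⟩, .l ⟨0, 480, 0, -422⟩ ⟨0, 1783, 3581, 4770⟩, .l ⟨0, 480, 0, -431⟩ ⟨0, 1783, 3581, 4770⟩, .l ⟨0, 480, 0, -422⟩ ⟨0, 1974, -3479, -1530⟩, .l ⟨0, 480, 0, -431⟩ ⟨0, 1974, -3479, -1530⟩] := by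
  refine rok_dys (s := 1) (nlo := 422) (nhi := 431) (q := 480) (by decide) (by decide) (by decide) (by decide) (z := 3) (by decide) TI_sc (k := 1) (by decide) (Q := [(1783, 3581, -4770), (1974, -3479, 1530)])
    (P := [⟨-38891520, 480, 0⟩, ⟨39720960, -480, 0⟩, ⟨-439603200, 1783, 3581⟩, ⟨141004800, 1974, -3479⟩]) rfl rfl
    (List.mem_of_getElem? (i := 161) rfl) TI_fr TI_cov ?_
  · intro X Y h
    simp only [List.forall_mem_cons, List.not_mem_nil, false_imp_iff, implies_true, and_true] at h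
    push_cast at h ⊢
    obtain ⟨h0, h1, h2, h3⟩ := h
    refine ⟨⟨?_, ?_⟩, ?_, ?_⟩ <;> linarith

theorem TI_rg162 : ROK [.l ⟨0, 960, 0, -850⟩ ⟨0, 960, 0, 850⟩, .l ⟨0, -960, 0, 859⟩ ⟨0, 960, 0, 859⟩, .l ⟨0, 960, 0, -850⟩ ⟨0, 1860, 3541, 4803⟩, .l ⟨0, 960, 0, -859⟩ ⟨0, 1860, 3541, 4803⟩, .l ⟨0, 960, 0, -850⟩ ⟨0, -1863, -3539, -5009⟩, .l ⟨0, 960, 0, -859⟩ ⟨0, -1863, -3539, -5009⟩] := by
  refine rok_dys (s := 1) (nlo := 850) (nhi := 859) (q := 960) (by decide) (by decide) (by decide) (by decide) (z := 3) (by decide) TI_sc (k := 1) (by decide) (Q := [(1860, 3541, -4803), (-1863, -3539, 5009)])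
    (P := [⟨-78336000, 960, 0⟩, ⟨79165440, -960, 0⟩, ⟨-442644480, 1860, 3541⟩, ⟨461629440, -1863, -3539⟩]) rfl rfl
    (List.mem_of_getElem? (i := 162) rfl) TI_fr TI_cov ?_
  · intro X Y h
    simp only [List.forall_mem_cons, List.not_mem_nil, false_imp_iff, implies_true, and_true] at h
    push_cast at h ⊢
    obtain ⟨h0, h1, h2, h3⟩ := h
    refine ⟨⟨?_, ?_⟩, ?_, ?_⟩ <;> linarith

theorem TI_rg163 : ROK [.l ⟨0, 960, 0, -849⟩ ⟨0, 960, 0, 849⟩, .l ⟨0, -960, 0, 859⟩ ⟨0, 960, 0, 859⟩, .l ⟨0, 960, 0, -849⟩ ⟨0, 0, 800, 709⟩, .l ⟨0, 960, 0, -859⟩ ⟨0, 0, 800, 709⟩, .l ⟨0, 960, 0, -849⟩ ⟨0, 0, -4000, -3799⟩, .l ⟨0, 960, 0, -859⟩ ⟨0, 0, -4000, -3799⟩, .l ⟨0, 960, 0, -849⟩ ⟨0, 1943, 3496, 4837⟩, .l ⟨0, 960, 0, -859⟩ ⟨0, 1943, 3496, 4837⟩] := by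
  refine rok_dys (s := 1) (nlo := 849) (nhi := 859) (q := 960) (by decide) (by decide) (by decide) (by decide) (z := 3) (by decide) TI_sc (k := 1) (by decide) (Q := [(0, 800, -709), (0, -4000, 3799), (1943, 3496, -4837)])
    (P := [⟨-78243840, 960, 0⟩, ⟨79165440, -960, 0⟩, ⟨-65341440, 0, 800⟩, ⟨350115840, 0, -4000⟩, ⟨-445777920, 1943, 3496⟩]) rfl rfl
    (List.mem_of_getElem? (i := 163) rfl) TI_fr TI_cov ?_
  · intro X Y h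
    simp only [List.forall_mem_cons, List.not_mem_nil, false_imp_iff, implies_true, and_true] at h
    push_cast at h ⊢
    obtain ⟨h0, h1, h2, h3, h4⟩ := h
    refine ⟨⟨?_, ?_⟩, ?_, ?_⟩ <;> linarith

theorem TI_rg164 : ROK [.l ⟨0, 960, 0, -855⟩ ⟨0, 960, 0, 855⟩, .l ⟨0, -960, 0, 862⟩ ⟨0, 960, 0, 862⟩, .l ⟨0, 960, 0, -855⟩ ⟨0, -593, 3956, 2975⟩, .l ⟨0, 960, 0, -862⟩ ⟨0, -593, 3956, 2975⟩, .l ⟨0, 960, 0, -855⟩ ⟨0, 1826, -3559, -1739⟩, .l ⟨0, 960, 0, -862⟩ ⟨0, 1826, -3559, -1739⟩, .l ⟨0, 960, 0, -855⟩ ⟨0, 2331, 3250, 4966⟩, .l ⟨0, 960, 0, -862⟩ ⟨0, 2331, 3250, 4966⟩] := by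
  refine rok_dys (s := 1) (nlo := 855) (nhi := 862) (q := 960) (by decide) (by decide) (by decide) (by decide) (z := 3) (by decide) TI_sc (k := 1) (by decide) (Q := [(-593, 3956, -2975), (1826, -3559, 1739), (2331, 3250, -4966)])
    (P := [⟨-78796800, 960, 0⟩, ⟨79441920, -960, 0⟩, ⟨-274176000, -593, 3956⟩, ⟨160266240, 1826, -3559⟩, ⟨-457666560, 2331, 3250⟩]) rfl rfl
    (List.mem_of_getElem? (i := 164) rfl) TI_fr TI_cov ?_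
  · intro X Y h
    simp only [List.forall_mem_cons, List.not_mem_nil, false_imp_iff, implies_true, and_true] at h
    push_cast at h ⊢
    obtain ⟨h0, h1, h2, h3, h4⟩ := h
    refine ⟨⟨?_, ?_⟩, ?_, ?_⟩ <;> linarith

theorem TI_rg165 : ROK [.l ⟨0, 480, 0, -427⟩ ⟨0, 480, 0, 427⟩, .l ⟨0, -480, 0, 434⟩ ⟨0, 480, 0, 434⟩, .l ⟨0, 480, 0, -427⟩ ⟨0, -85, 3999, 3461⟩, .l ⟨0, 480, 0, -434⟩ ⟨0, -85, 3999, 3461⟩, .l ⟨0, 480, 0, -427⟩ ⟨0, 85, -3999, -15472⟩, .l ⟨0, 480, 0, -434⟩ ⟨0, 85, -3999, -15472⟩, .l ⟨0, 480, 0, -427⟩ ⟨0, 349, 568, 816⟩, .l ⟨0, 480, 0, -434⟩ ⟨0, 349, 568, 816⟩, .l ⟨0, 480, 0, -427⟩ ⟨0, -2631, -3013, -5200⟩, .l ⟨0, 480, 0, -434⟩ ⟨0, -2631, -3013, -5200⟩] := by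
  refine rok_dys (s := 1) (nlo := 427) (nhi := 434) (q := 480) (by decide) (by decide) (by decide) (by decide) (z := 3) (by decide) TI_sc (k := 1) (by decide) (Q := [(-85, 3999, -3461), (85, -3999, 15472), (349, 568, -816), (-2631, -3013, 5200)])
    (P := [⟨-39352320, 480, 0⟩, ⟨39997440, -480, 0⟩, ⟨-318965760, -85, 3999⟩, ⟨1425899520, 85, -3999⟩, ⟨-75202560, 349, 568⟩, ⟨479232000, -2631, -3013⟩]) rfl rfl
    (List.mem_of_getElem? (i := 165) rfl) TI_fr TI_cov ?_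
  · intro X Y h
    simp only [List.forall_mem_cons, List.not_mem_nil, false_imp_iff, implies_true, and_true] at h
    push_cast at h ⊢
    obtain ⟨h0, h1, h2, h3, h4, h5⟩ := h
    refine ⟨⟨?_, ?_⟩, ?_, ?_⟩ <;> linarith

theorem TI_rg166 : ROK [.l ⟨0, 960, 0, -849⟩ ⟨0, 960, 0, 849⟩, .l ⟨0, -960, 0, 856⟩ ⟨0, 960, 0, 856⟩, .l ⟨0, 960, 0, -849⟩ ⟨0, -394, 1961, 1392⟩, .l ⟨0, 960, 0, -856⟩ ⟨0, -394, 1961, 1392⟩, .l ⟨0, 960, 0, -849⟩ ⟨0, 394, -1961, -1511⟩, .l ⟨0, 960, 0, -856⟩ ⟨0, 394, -1961, -1511⟩, .l ⟨0, 960, 0, -849⟩ ⟨0, 3459, 2009, 4862⟩, .l ⟨0, 960, 0, -856⟩ ⟨0, 3459, 2009, 4862⟩] := by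
  refine rok_dys (s := 1) (nlo := 849) (nhi := 856) (q := 960) (by decide) (by decide) (by decide) (by decide) (z := 3) (by decide) TI_sc (k := 1) (by decide) (Q := [(-394, 1961, -1392), (394, -1961, 1511), (3459, 2009, -4862)])
    (P := [⟨-78243840, 960, 0⟩, ⟨78888960, -960, 0⟩, ⟨-128286720, -394, 1961⟩, ⟨139253760, 394, -1961⟩, ⟨-448081920, 3459, 2009⟩]) rfl rfl
    (List.mem_of_getElem? (i := 166) rfl) TI_fr TI_cov ?_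
  · intro X Y h
    simp only [List.forall_mem_cons, List.not_mem_nil, false_imp_iff, implies_true, and_true] at h
    push_cast at h ⊢
    obtain ⟨h0, h1, h2, h3, h4⟩ := h
    refine ⟨⟨?_, ?_⟩, ?_, ?_⟩ <;> linarith

theorem TI_rg167 : ROK [.l ⟨0, 960, 0, -850⟩ ⟨0, 960, 0, 850⟩, .l ⟨0, -960, 0, 861⟩ ⟨0, 960, 0, 861⟩, .l ⟨0, 960, 0, -850⟩ ⟨0, 2009, 3459, 4863⟩, .l ⟨0, 960, 0, -861⟩ ⟨0, 2009, 3459, 4863⟩, .l ⟨0, 960, 0, -850⟩ ⟨0, -2009, -3459, -5062⟩, .l ⟨0, 960, 0, -861⟩ ⟨0, -2009, -3459, -5062⟩, .l ⟨0, 960, 0, -850⟩ ⟨0, 397, 3980, 3883⟩, .l ⟨0, 960, 0, -861⟩ ⟨0, 397, 3980, 3883⟩] := by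
  refine rok_dys (s := 1) (nlo := 850) (nhi := 861) (q := 960) (by decide) (by decide) (by decide) (by decide) (z := 3) (by decide) TI_sc (k := 1) (by decide) (Q := [(2009, 3459, -4863), (-2009, -3459, 5062), (397, 3980, -3883)])
    (P := [⟨-78336000, 960, 0⟩, ⟨79349760, -960, 0⟩, ⟨-448174080, 2009, 3459⟩, ⟨466513920, -2009, -3459⟩, ⟨-357857280, 397, 3980⟩]) rfl rfl
    (List.mem_of_getElem? (i := 167) rfl) TI_fr TI_cov ?_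
  · intro X Y h
    simp only [List.forall_mem_cons, List.not_mem_nil, false_imp_iff, implies_true, and_true] at h
    push_cast at h ⊢
    obtain ⟨h0, h1, h2, h3, h4⟩ := h
    refine ⟨⟨?_, ?_⟩, ?_, ?_⟩ <;> linarith

end Pool.Agent.TET
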