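import Pool.Agent.Helper38_TET.TI_C

/-!
# MP_c7c9bf_co: certificates, family TI
-/

set_option autoImplicit false
set_option maxRecDepth 100000

namespace Pool.Agent.TET

theorem TI_rg168 : ROK [.l ⟨0, 960, 0, -850⟩ ⟨0, 960, 0, 850⟩, .l ⟨0, -960, 0, 857⟩ ⟨0, 960, 0, 857⟩, .l ⟨0, 960, 0, -850⟩ ⟨0, 0, 2000, 1777⟩, .l ⟨0, 960, 0, -857⟩ ⟨0, 0, 2000, 1777⟩, .l ⟨0, 960, 0, -850⟩ ⟨0, -939, -3888, -4523⟩, .l ⟨0, 960, 0, -857⟩ ⟨0, -939, -3888, -4523⟩, .l ⟨0, 960, 0, -850⟩ ⟨0, 3027, 2615, 5017⟩, .l ⟨0, 960, 0, -857⟩ ⟨0, 3027, 2615, 5017⟩] := by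
  refine rok_dys (s := 1) (nlo := 850) (nhi := 857) (q := 960) (by decide) (by decide) (by decide) (by decide) (z := 3) (by decide) TI_sc (k := 1) (by decide) (Q := [(0, 2000, -1777), (-939, -3888, 4523), (3027, 2615, -5017)])
    (P := [⟨-78336000, 960, 0⟩, ⟨78981120, -960, 0⟩, ⟨-163768320, 0, 2000⟩, ⟨416839680, -939, -3888⟩, ⟨-462366720, 3027, 2615⟩]) rfl rfl
    (List.mem_of_getElem? (i := 168) rfl) TI_fr TI_cov ?_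
  · intro X Y h
    simp only [List.forall_mem_cons, List.not_mem_nil, false_imp_iff, implies_true, and_true] at h
    push_cast at h ⊢
    obtain ⟨h0, h1, h2, h3, h4⟩ := h
    refine ⟨⟨?_, ?_⟩, ?_, ?_⟩ <;> linarith

theorem TI_rg169 : ROK [.l ⟨0, 480, 0, -425⟩ ⟨0, 480, 0, 425⟩, .l ⟨0, -480, 0, 429⟩ ⟨0, 480, 0, 429⟩, .l ⟨0, 480, 0, -425⟩ ⟨0, 2631, 3013, 5020⟩, .l ⟨0, 480, 0, -429⟩ ⟨0, 2631, 3013, 5020⟩, .l ⟨0, 480, 0, -425⟩ ⟨0, -2631, -3013, -5188⟩, .l ⟨0, 480, 0, -429⟩ ⟨0, -2631, -3013, -5188⟩, .l ⟨0, 480, 0, -425⟩ ⟨0, -47, 4000, 3509⟩, .l ⟨0, 480, 0, -429⟩ ⟨0, -47, 4000, 3509⟩] := by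
  refine rok_dys (s := 1) (nlo := 425) (nhi := 429) (q := 480) (by decide) (by decide) (by decide) (by decide) (z := 3) (by decide) TI_sc (k := 1) (by decide) (Q := [(2631, 3013, -5020), (-2631, -3013, 5188), (-47, 4000, -3509)])
    (P := [⟨-39168000, 480, 0⟩, ⟨39536640, -480, 0⟩, ⟨-462643200, 2631, 3013⟩, ⟨478126080, -2631, -3013⟩, ⟨-323389440, -47, 4000⟩]) rfl rfl
    (List.mem_of_getElem? (i := 169) rfl) TI_fr TI_cov ?_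
  · intro X Y h
    simp only [List.forall_mem_cons, List.not_mem_nil, false_imp_iff, implies_true, and_true] at h
    push_cast at h ⊢
    obtain ⟨h0, h1, h2, h3, h4⟩ := h
    refine ⟨⟨?_, ?_⟩, ?_, ?_⟩ <;> linarith

theorem TI_rg170 : ROK [.l ⟨0, 480, 0, -423⟩ ⟨0, 480, 0, 423⟩, .l ⟨0, -480, 0, 431⟩ ⟨0, 480, 0, 431⟩, .l ⟨0, 480, 0, -423⟩ ⟨0, 1779, 3583, 4768⟩, .l ⟨0, 480, 0, -431⟩ ⟨0, 1779, 3583, 4768⟩, .l ⟨0, 480, 0, -423⟩ ⟨0, -1779, -3583, -4968⟩, .l ⟨0, 480, 0, -431⟩ ⟨0, -1779, -3583, -4968⟩] := by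
  refine rok_dys (s := 1) (nlo := 423) (nhi := 431) (q := 480) (by decide) (by decide) (by decide) (by decide) (z := 3) (by decide) TI_sc (k := 1) (by decide) (Q := [(1779, 3583, -4768), (-1779, -3583, 4968)])
    (P := [⟨-38983680, 480, 0⟩, ⟨39720960, -480, 0⟩, ⟨-439418880, 1779, 3583⟩, ⟨457850880, -1779, -3583⟩]) rfl rfl
    (List.mem_of_getElem? (i := 170) rfl) TI_fr TI_cov ?_
  · intro X Y h
    simp only [List.forall_mem_cons, List.not_mem_nil, false_imp_iff, implies_true, and_true] at h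
    push_cast at h ⊢
    obtain ⟨h0, h1, h2, h3⟩ := h
    refine ⟨⟨?_, ?_⟩, ?_, ?_⟩ <;> linarith

theorem TI_rg171 : ROK [.l ⟨0, 480, 0, -424⟩ ⟨0, 480, 0, 424⟩, .l ⟨0, -480, 0, 431⟩ ⟨0, 480, 0, 431⟩, .l ⟨0, 480, 0, -424⟩ ⟨0, 0, 800, 709⟩, .l ⟨0, 480, 0, -431⟩ ⟨0, 0, 800, 709⟩, .l ⟨0, 480, 0, -424⟩ ⟨0, 0, -4000, -3799⟩, .l ⟨0, 480, 0, -431⟩ ⟨0, 0, -4000, -3799⟩, .l ⟨0, 480, 0, -424⟩ ⟨0, 2288, 3281, 4955⟩, .l ⟨0, 480, 0, -431⟩ ⟨0, 2288, 3281, 4955⟩] := by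
  refine rok_dys (s := 1) (nlo := 424) (nhi := 431) (q := 480) (by decide) (by decide) (by decide) (by decide) (z := 3) (by decide) TI_sc (k := 1) (by decide) (Q := [(0, 800, -709), (0, -4000, 3799), (2288, 3281, -4955)])
    (P := [⟨-39075840, 480, 0⟩, ⟨39720960, -480, 0⟩, ⟨-65341440, 0, 800⟩, ⟨350115840, 0, -4000⟩, ⟨-456652800, 2288, 3281⟩]) rfl rfl
    (List.mem_of_getElem? (i := 171) rfl) TI_fr TI_cov ?_
  · intro X Y h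
    simp only [List.forall_mem_cons, List.not_mem_nil, false_imp_iff, implies_true, and_true] at h
    push_cast at h ⊢
    obtain ⟨h0, h1, h2, h3, h4⟩ := h
    refine ⟨⟨?_, ?_⟩, ?_, ?_⟩ <;> linarith

theorem TI_rg172 : ROK [.l ⟨0, 960, 0, -850⟩ ⟨0, 960, 0, 850⟩, .l ⟨0, -960, 0, 857⟩ ⟨0, 960, 0, 857⟩, .l ⟨0, 960, 0, -850⟩ ⟨0, 2290, 3280, 4953⟩, .l ⟨0, 960, 0, -857⟩ ⟨0, 2290, 3280, 4953⟩, .l ⟨0, 960, 0, -850⟩ ⟨0, -1984, -3473, -5053⟩, .l ⟨0, 960, 0, -857⟩ ⟨0, -1984, -3473, -5053⟩, .l ⟨0, 960, 0, -850⟩ ⟨0, 22, 2000, 1795⟩, .l ⟨0, 960, 0, -857⟩ ⟨0, 22, 2000, 1795⟩] := by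
  refine rok_dys (s := 1) (nlo := 850) (nhi := 857) (q := 960) (by decide) (by decide) (by decide) (by decide) (z := 3) (by decide) TI_sc (k := 1) (by decide) (Q := [(2290, 3280, -4953), (-1984, -3473, 5053), (22, 2000, -1795)])
    (P := [⟨-78336000, 960, 0⟩, ⟨78981120, -960, 0⟩, ⟨-456468480, 2290, 3280⟩, ⟨465684480, -1984, -3473⟩, ⟨-165427200, 22, 2000⟩]) rfl rfl
    (List.mem_of_getElem? (i := 172) rfl) TI_fr TI_cov ?_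
  · intro X Y h
    simp only [List.forall_mem_cons, List.not_mem_nil, false_imp_iff, implies_true, and_true] at h
    push_cast at h ⊢
    obtain ⟨h0, h1, h2, h3, h4⟩ := h
    refine ⟨⟨?_, ?_⟩, ?_, ?_⟩ <;> linarith

theorem TI_rg173 : ROK [.l ⟨0, 160, 0, -141⟩ ⟨0, 160, 0, 141⟩, .l ⟨0, -160, 0, 143⟩ ⟨0, 160, 0, 143⟩, .l ⟨0, 160, 0, -141⟩ ⟨0, 2139, 3380, -3426⟩, .l ⟨0, 160, 0, -143⟩ ⟨0, 2139, 3380, -3426⟩, .l ⟨0, 160, 0, -141⟩ ⟨0, -2139, -3380, -5092⟩, .l ⟨0, 160, 0, -143⟩ ⟨0, -2139, -3380, -5092⟩, .l ⟨0, 160, 0, -141⟩ ⟨0, 1859, 3542, 4803⟩, .l ⟨0, 160, 0, -143⟩ ⟨0, 1859, 3542, 4803⟩] := by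
  refine rok_dys (s := 1) (nlo := 141) (nhi := 143) (q := 160) (by decide) (by decide) (by decide) (by decide) (z := 3) (by decide) TI_sc (k := 1) (by decide) (Q := [(2139, 3380, 3426), (-2139, -3380, 5092), (1859, 3542, -4803)])
    (P := [⟨-12994560, 160, 0⟩, ⟨13178880, -160, 0⟩, ⟨315740160, 2139, 3380⟩, ⟨469278720, -2139, -3380⟩, ⟨-442644480, 1859, 3542⟩]) rfl rfl
    (List.mem_of_getElem? (i := 173) rfl) TI_fr TI_cov ?_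
  · intro X Y h
    simp only [List.forall_mem_cons, List.not_mem_nil, false_imp_iff, implies_true, and_true] at h
    push_cast at h ⊢
    obtain ⟨h0, h1, h2, h3, h4⟩ := h
    refine ⟨⟨?_, ?_⟩, ?_, ?_⟩ <;> linarith

theorem TI_rg174 : ROK [.l ⟨0, 160, 0, -142⟩ ⟨0, 160, 0, 142⟩, .l ⟨0, -160, 0, 143⟩ ⟨0, 160, 0, 143⟩, .l ⟨0, 160, 0, -142⟩ ⟨0, -1750, 3597, -10359⟩, .l ⟨0, 160, 0, -143⟩ ⟨0, -1750, 3597, -10359⟩, .l ⟨0, 160, 0, -142⟩ ⟨0, 1750, -3597, -1849⟩, .l ⟨0, 160, 0, -143⟩ ⟨0, 1750, -3597, -1849⟩, .l ⟨0, 160, 0, -142⟩ ⟨0, 1760, 3592, 4759⟩, .l ⟨0, 160, 0, -143⟩ ⟨0, 1760, 3592, 4759⟩] := by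
  refine rok_dys (s := 1) (nlo := 142) (nhi := 143) (q := 160) (by decide) (by decide) (by decide) (by decide) (z := 3) (by decide) TI_sc (k := 1) (by decide) (Q := [(-1750, 3597, 10359), (1750, -3597, 1849), (1760, 3592, -4759)])
    (P := [⟨-13086720, 160, 0⟩, ⟨13178880, -160, 0⟩, ⟨954685440, -1750, 3597⟩, ⟨170403840, 1750, -3597⟩, ⟨-438589440, 1760, 3592⟩]) rfl rfl
    (List.mem_of_getElem? (i := 174) rfl) TI_fr TI_cov ?_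
  · intro X Y h
    simp only [List.forall_mem_cons, List.not_mem_nil, false_imp_iff, implies_true, and_true] at h
    push_cast at h ⊢
    obtain ⟨h0, h1, h2, h3, h4⟩ := h
    refine ⟨⟨?_, ?_⟩, ?_, ?_⟩ <;> linarith

theorem TI_rg175 : ROK [.l ⟨0, 480, 0, -424⟩ ⟨0, 480, 0, 424⟩, .l ⟨0, -480, 0, 431⟩ ⟨0, 480, 0, 431⟩, .l ⟨0, 480, 0, -424⟩ ⟨0, 1863, 3540, 4805⟩, .l ⟨0, 480, 0, -431⟩ ⟨0, 1863, 3540, 4805⟩, .l ⟨0, 480, 0, -424⟩ ⟨0, -621, -1180, -1669⟩, .l ⟨0, 480, 0, -431⟩ ⟨0, -621, -1180, -1669⟩, .l ⟨0, 480, 0, -424⟩ ⟨0, 462, 3973, 3932⟩, .l ⟨0, 480, 0, -431⟩ ⟨0, 462, 3973, 3932⟩] := by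
  refine rok_dys (s := 1) (nlo := 424) (nhi := 431) (q := 480) (by decide) (by decide) (by decide) (by decide) (z := 3) (by decide) TI_sc (k := 1) (by decide) (Q := [(1863, 3540, -4805), (-621, -1180, 1669), (462, 3973, -3932)])
    (P := [⟨-39075840, 480, 0⟩, ⟨39720960, -480, 0⟩, ⟨-442828800, 1863, 3540⟩, ⟨153815040, -621, -1180⟩, ⟨-362373120, 462, 3973⟩]) rfl rfl
    (List.mem_of_getElem? (i := 175) rfl) TI_fr TI_cov ?_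
  · intro X Y h
    simp only [List.forall_mem_cons, List.not_mem_nil, false_imp_iff, implies_true, and_true] at h
    push_cast at h ⊢
    obtain ⟨h0, h1, h2, h3, h4⟩ := h
    refine ⟨⟨?_, ?_⟩, ?_, ?_⟩ <;> linarith

theorem TI_rg176 : ROK [.l ⟨0, 960, 0, -850⟩ ⟨0, 960, 0, 850⟩, .l ⟨0, -960, 0, 857⟩ ⟨0, 960, 0, 857⟩, .l ⟨0, 960, 0, -850⟩ ⟨0, 0, 4000, 3551⟩, .l ⟨0, 960, 0, -857⟩ ⟨0, 0, 4000, 3551⟩, .l ⟨0, 960, 0, -850⟩ ⟨0, -902, -1785, -2493⟩, .l ⟨0, 960, 0, -857⟩ ⟨0, -902, -1785, -2493⟩, .l ⟨0, 960, 0, -850⟩ ⟨0, 528, 601, 1004⟩, .l ⟨0, 960, 0, -857⟩ ⟨0, 528, 601, 1004⟩] := by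
  refine rok_dys (s := 1) (nlo := 850) (nhi := 857) (q := 960) (by decide) (by decide) (by decide) (by decide) (z := 3) (by decide) TI_sc (k := 1) (by decide) (Q := [(0, 4000, -3551), (-902, -1785, 2493), (528, 601, -1004)])
    (P := [⟨-78336000, 960, 0⟩, ⟨78981120, -960, 0⟩, ⟨-327260160, 0, 4000⟩, ⟨229754880, -902, -1785⟩, ⟨-92528640, 528, 601⟩]) rfl rfl
    (List.mem_of_getElem? (i := 176) rfl) TI_fr TI_cov ?_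
  · intro X Y h
    simp only [List.forall_mem_cons, List.not_mem_nil, false_imp_iff, implies_true, and_true] at h
    push_cast at h ⊢
    obtain ⟨h0, h1, h2, h3, h4⟩ := h
    refine ⟨⟨?_, ?_⟩, ?_, ?_⟩ <;> linarith

theorem TI_rg177 : ROK [.l ⟨0, 960, 0, -847⟩ ⟨0, 960, 0, 847⟩, .l ⟨0, -960, 0, 857⟩ ⟨0, 960, 0, 857⟩, .l ⟨0, 960, 0, -847⟩ ⟨0, -529, 3965, 3050⟩, .l ⟨0, 960, 0, -857⟩ ⟨0, -529, 3965, 3050⟩, .l ⟨0, 960, 0, -847⟩ ⟨0, -1003, -3872, -4561⟩, .l ⟨0, 960, 0, -857⟩ ⟨0, -1003, -3872, -4561⟩, .l ⟨0, 960, 0, -847⟩ ⟨0, 3010, 2634, 5019⟩, .l ⟨0, 960, 0, -857⟩ ⟨0, 3010, 2634, 5019⟩] := by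
  refine rok_dys (s := 1) (nlo := 847) (nhi := 857) (q := 960) (by decide) (by decide) (by decide) (by decide) (z := 3) (by decide) TI_sc (k := 1) (by decide) (Q := [(-529, 3965, -3050), (-1003, -3872, 4561), (3010, 2634, -5019)])
    (P := [⟨-78059520, 960, 0⟩, ⟨78981120, -960, 0⟩, ⟨-281088000, -529, 3965⟩, ⟨420341760, -1003, -3872⟩, ⟨-462551040, 3010, 2634⟩]) rfl rfl
    (List.mem_of_getElem? (i := 177) rfl) TI_fr TI_cov ?_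
  · intro X Y h
    simp only [List.forall_mem_cons, List.not_mem_nil, false_imp_iff, implies_true, and_true] at h
    push_cast at h ⊢
    obtain ⟨h0, h1, h2, h3, h4⟩ := h
    refine ⟨⟨?_, ?_⟩, ?_, ?_⟩ <;> linarith

theorem TI_rg178 : ROK [.l ⟨0, 960, 0, -849⟩ ⟨0, 960, 0, 849⟩, .l ⟨0, -960, 0, 856⟩ ⟨0, 960, 0, 856⟩, .l ⟨0, 960, 0, -849⟩ ⟨0, -2308, 3267, 846⟩, .l ⟨0, 960, 0, -856⟩ ⟨0, -2308, 3267, 846⟩, .l ⟨0, 960, 0, -849⟩ ⟨0, 2308, -3267, -1043⟩, .l ⟨0, 960, 0, -856⟩ ⟨0, 2308, -3267, -1043⟩, .l ⟨0, 960, 0, -849⟩ ⟨0, 2618, 3025, 5018⟩, .l ⟨0, 960, 0, -856⟩ ⟨0, 2618, 3025, 5018⟩] := by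
  refine rok_dys (s := 1) (nlo := 849) (nhi := 856) (q := 960) (by decide) (by decide) (by decide) (by decide) (z := 3) (by decide) TI_sc (k := 1) (by decide) (Q := [(-2308, 3267, -846), (2308, -3267, 1043), (2618, 3025, -5018)])
    (P := [⟨-78243840, 960, 0⟩, ⟨78888960, -960, 0⟩, ⟨-77967360, -2308, 3267⟩, ⟨96122880, 2308, -3267⟩, ⟨-462458880, 2618, 3025⟩]) rfl rfl
    (List.mem_of_getElem? (i := 178) rfl) TI_fr TI_cov ?_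
  · intro X Y h
    simp only [List.forall_mem_cons, List.not_mem_nil, false_imp_iff, implies_true, and_true] at h
    push_cast at h ⊢
    obtain ⟨h0, h1, h2, h3, h4⟩ := h
    refine ⟨⟨?_, ?_⟩, ?_, ?_⟩ <;> linarith

theorem TI_rg179 : ROK [.l ⟨0, 960, 0, -851⟩ ⟨0, 960, 0, 851⟩, .l ⟨0, -960, 0, 857⟩ ⟨0, 960, 0, 857⟩, .l ⟨0, 960, 0, -851⟩ ⟨0, 0, 2000, 1777⟩, .l ⟨0, 960, 0, -857⟩ ⟨0, 0, 2000, 1777⟩, .l ⟨0, 960, 0, -851⟩ ⟨0, 0, -4000, -3799⟩, .l ⟨0, 960, 0, -857⟩ ⟨0, 0, -4000, -3799⟩, .l ⟨0, 960, 0, -851⟩ ⟨0, 2979, 2670, 5023⟩, .l ⟨0, 960, 0, -857⟩ ⟨0, 2979, 2670, 5023⟩] := by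
  refine rok_dys (s := 1) (nlo := 851) (nhi := 857) (q := 960) (by decide) (by decide) (by decide) (by decide) (z := 3) (by decide) TI_sc (k := 1) (by decide) (Q := [(0, 2000, -1777), (0, -4000, 3799), (2979, 2670, -5023)])
    (P := [⟨-78428160, 960, 0⟩, ⟨78981120, -960, 0⟩, ⟨-163768320, 0, 2000⟩, ⟨350115840, 0, -4000⟩, ⟨-462919680, 2979, 2670⟩]) rfl rfl
    (List.mem_of_getElem? (i := 179) rfl) TI_fr TI_cov ?_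
  · intro X Y h
    simp only [List.forall_mem_cons, List.not_mem_nil, false_imp_iff, implies_true, and_true] at h
    push_cast at h ⊢
    obtain ⟨h0, h1, h2, h3, h4⟩ := h
    refine ⟨⟨?_, ?_⟩, ?_, ?_⟩ <;> linarith

theorem TI_rg180 : ROK [.l ⟨0, 960, 0, -851⟩ ⟨0, 960, 0, 851⟩, .l ⟨0, -960, 0, 857⟩ ⟨0, 960, 0, 857⟩, .l ⟨0, 960, 0, -851⟩ ⟨0, 0, 2000, 1777⟩, .l ⟨0, 960, 0, -857⟩ ⟨0, 0, 2000, 1777⟩, .l ⟨0, 960, 0, -851⟩ ⟨0, 0, -4000, -3799⟩, .l ⟨0, 960, 0, -857⟩ ⟨0, 0, -4000, -3799⟩, .l ⟨0, 960, 0, -851⟩ ⟨0, 1729, 1005, 2431⟩, .l ⟨0, 960, 0, -857⟩ ⟨0, 1729, 1005, 2431⟩] := by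
  refine rok_dys (s := 1) (nlo := 851) (nhi := 857) (q := 960) (by decide) (by decide) (by decide) (by decide) (z := 3) (by decide) TI_sc (k := 1) (by decide) (Q := [(0, 2000, -1777), (0, -4000, 3799), (1729, 1005, -2431)])
    (P := [⟨-78428160, 960, 0⟩, ⟨78981120, -960, 0⟩, ⟨-163768320, 0, 2000⟩, ⟨350115840, 0, -4000⟩, ⟨-224040960, 1729, 1005⟩]) rfl rfl
    (List.mem_of_getElem? (i := 180) rfl) TI_fr TI_cov ?_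
  · intro X Y h
    simp only [List.forall_mem_cons, List.not_mem_nil, false_imp_iff, implies_true, and_true] at h
    push_cast at h ⊢
    obtain ⟨h0, h1, h2, h3, h4⟩ := h
    refine ⟨⟨?_, ?_⟩, ?_, ?_⟩ <;> linarith

theorem TI_rg181 : ROK [.l ⟨0, 480, 0, -425⟩ ⟨0, 480, 0, 425⟩, .l ⟨0, -480, 0, 429⟩ ⟨0, 480, 0, 429⟩, .l ⟨0, 480, 0, -425⟩ ⟨0, 2083, 3415, 4890⟩, .l ⟨0, 480, 0, -429⟩ ⟨0, 2083, 3415, 4890⟩, .l ⟨0, 480, 0, -425⟩ ⟨0, -2083, -3415, -5085⟩, .l ⟨0, 480, 0, -429⟩ ⟨0, -2083, -3415, -5085⟩] := by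
  refine rok_dys (s := 1) (nlo := 425) (nhi := 429) (q := 480) (by decide) (by decide) (by decide) (by decide) (z := 3) (by decide) TI_sc (k := 1) (by decide) (Q := [(2083, 3415, -4890), (-2083, -3415, 5085)])
    (P := [⟨-39168000, 480, 0⟩, ⟨39536640, -480, 0⟩, ⟨-450662400, 2083, 3415⟩, ⟨468633600, -2083, -3415⟩]) rfl rfl
    (List.mem_of_getElem? (i := 181) rfl) TI_fr TI_cov ?_
  · intro X Y h
    simp only [List.forall_mem_cons, List.not_mem_nil, false_imp_iff, implies_true, and_true] at h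
    push_cast at h ⊢
    obtain ⟨h0, h1, h2, h3⟩ := h
    refine ⟨⟨?_, ?_⟩, ?_, ?_⟩ <;> linarith

theorem TI_rg182 : ROK [.l ⟨0, 960, 0, -849⟩ ⟨0, 960, 0, 849⟩, .l ⟨0, -960, 0, 859⟩ ⟨0, 960, 0, 859⟩, .l ⟨0, 960, 0, -849⟩ ⟨0, 1794, 3575, 4774⟩, .l ⟨0, 960, 0, -859⟩ ⟨0, 1794, 3575, 4774⟩, .l ⟨0, 960, 0, -849⟩ ⟨0, -1617, -3659, -4902⟩, .l ⟨0, 960, 0, -859⟩ ⟨0, -1617, -3659, -4902⟩] := by
  refine rok_dys (s := 1) (nlo := 849) (nhi := 859) (q := 960) (by decide) (by decide) (by decide) (by decide) (z := 3) (by decide) TI_sc (k := 1) (by decide) (Q := [(1794, 3575, -4774), (-1617, -3659, 4902)])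
    (P := [⟨-78243840, 960, 0⟩, ⟨79165440, -960, 0⟩, ⟨-439971840, 1794, 3575⟩, ⟨451768320, -1617, -3659⟩]) rfl rfl
    (List.mem_of_getElem? (i := 182) rfl) TI_fr TI_cov ?_
  · intro X Y h
    simp only [List.forall_mem_cons, List.not_mem_nil, false_imp_iff, implies_true, and_true] at h
    push_cast at h ⊢
    obtain ⟨h0, h1, h2, h3⟩ := h
    refine ⟨⟨?_, ?_⟩, ?_, ?_⟩ <;> linarith

theorem TI_rg183 : ROK [.l ⟨0, 960, 0, -861⟩ ⟨0, 960, 0, 861⟩, .l ⟨0, -960, 0, 868⟩ ⟨0, 960, 0, 868⟩, .l ⟨0, 960, 0, -861⟩ ⟨0, 0, 4000, 3201⟩, .l ⟨0, 960, 0, -868⟩ ⟨0, 0, 4000, 3201⟩, .l ⟨0, 960, 0, -861⟩ ⟨0, 0, -4000, -3349⟩, .l ⟨0, 960, 0, -868⟩ ⟨0, 0, -4000, -3349⟩] := by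
  refine rok_dys (s := 1) (nlo := 861) (nhi := 868) (q := 960) (by decide) (by decide) (by decide) (by decide) (z := 3) (by decide) TI_sc (k := 1) (by decide) (Q := [(0, 4000, -3201), (0, -4000, 3349)])
    (P := [⟨-79349760, 960, 0⟩, ⟨79994880, -960, 0⟩, ⟨-295004160, 0, 4000⟩, ⟨308643840, 0, -4000⟩]) rfl rfl
    (List.mem_of_getElem? (i := 183) rfl) TI_fr TI_cov ?_
  · intro X Y h
    simp only [List.forall_mem_cons, List.not_mem_nil, false_imp_iff, implies_true, and_true] at h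
    push_cast at h ⊢
    obtain ⟨h0, h1, h2, h3⟩ := h
    refine ⟨⟨?_, ?_⟩, ?_, ?_⟩ <;> linarith

theorem TI_rg184 : ROK [.l ⟨0, 960, 0, -851⟩ ⟨0, 960, 0, 851⟩, .l ⟨0, -960, 0, 861⟩ ⟨0, 960, 0, 861⟩, .l ⟨0, 960, 0, -851⟩ ⟨0, 578, 3958, 4025⟩, .l ⟨0, 960, 0, -861⟩ ⟨0, 578, 3958, 4025⟩, .l ⟨0, 960, 0, -851⟩ ⟨0, -1967, -3483, -5050⟩, .l ⟨0, 960, 0, -861⟩ ⟨0, -1967, -3483, -5050⟩, .l ⟨0, 960, 0, -851⟩ ⟨0, 3002, 2644, 5027⟩, .l ⟨0, 960, 0, -861⟩ ⟨0, 3002, 2644, 5027⟩] := by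
  refine rok_dys (s := 1) (nlo := 851) (nhi := 861) (q := 960) (by decide) (by decide) (by decide) (by decide) (z := 3) (by decide) TI_sc (k := 1) (by decide) (Q := [(578, 3958, -4025), (-1967, -3483, 5050), (3002, 2644, -5027)])
    (P := [⟨-78428160, 960, 0⟩, ⟨79349760, -960, 0⟩, ⟨-370944000, 578, 3958⟩, ⟨465408000, -1967, -3483⟩, ⟨-463288320, 3002, 2644⟩]) rfl rfl
    (List.mem_of_getElem? (i := 184) rfl) TI_fr TI_cov ?_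
  · intro X Y h
    simp only [List.forall_mem_cons, List.not_mem_nil, false_imp_iff, implies_true, and_true] at h
    push_cast at h ⊢
    obtain ⟨h0, h1, h2, h3, h4⟩ := h
    refine ⟨⟨?_, ?_⟩, ?_, ?_⟩ <;> linarith

theorem TI_rg185 : ROK [.l ⟨0, 960, 0, -849⟩ ⟨0, 960, 0, 849⟩, .l ⟨0, -960, 0, 856⟩ ⟨0, 960, 0, 856⟩, .l ⟨0, 960, 0, -849⟩ ⟨0, 1759, 3592, 4758⟩, .l ⟨0, 960, 0, -856⟩ ⟨0, 1759, 3592, 4758⟩, .l ⟨0, 960, 0, -849⟩ ⟨0, 112, -3998, -3697⟩, .l ⟨0, 960, 0, -856⟩ ⟨0, 112, -3998, -3697⟩] := by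
  refine rok_dys (s := 1) (nlo := 849) (nhi := 856) (q := 960) (by decide) (by decide) (by decide) (by decide) (z := 3) (by decide) TI_sc (k := 1) (by decide) (Q := [(1759, 3592, -4758), (112, -3998, 3697)])
    (P := [⟨-78243840, 960, 0⟩, ⟨78888960, -960, 0⟩, ⟨-438497280, 1759, 3592⟩, ⟨340715520, 112, -3998⟩]) rfl rfl
    (List.mem_of_getElem? (i := 185) rfl) TI_fr TI_cov ?_
  · intro X Y h
    simp only [List.forall_mem_cons, List.not_mem_nil, false_imp_iff, implies_true, and_true] at h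
    push_cast at h ⊢
    obtain ⟨h0, h1, h2, h3⟩ := h
    refine ⟨⟨?_, ?_⟩, ?_, ?_⟩ <;> linarith

theorem TI_rg186 : ROK [.l ⟨0, 320, 0, -283⟩ ⟨0, 320, 0, 283⟩, .l ⟨0, -320, 0, 286⟩ ⟨0, 320, 0, 286⟩, .l ⟨0, 320, 0, -283⟩ ⟨0, 1813, 3566, 4783⟩, .l ⟨0, 320, 0, -286⟩ ⟨0, 1813, 3566, 4783⟩, .l ⟨0, 320, 0, -283⟩ ⟨0, 291, -3989, -3528⟩, .l ⟨0, 320, 0, -286⟩ ⟨0, 291, -3989, -3528⟩] := by
  refine rok_dys (s := 1) (nlo := 283) (nhi := 286) (q := 320) (by decide) (by decide) (by decide) (by decide) (z := 3) (by decide) TI_sc (k := 1) (by decide) (Q := [(1813, 3566, -4783), (291, -3989, 3528)])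
    (P := [⟨-26081280, 320, 0⟩, ⟨26357760, -320, 0⟩, ⟨-440801280, 1813, 3566⟩, ⟨325140480, 291, -3989⟩]) rfl rfl
    (List.mem_of_getElem? (i := 186) rfl) TI_fr TI_cov ?_
  · intro X Y h
    simp only [List.forall_mem_cons, List.not_mem_nil, false_imp_iff, implies_true, and_true] at h
    push_cast at h ⊢
    obtain ⟨h0, h1, h2, h3⟩ := h
    refine ⟨⟨?_, ?_⟩, ?_, ?_⟩ <;> linarith

theorem TI_rg187 : ROK [.l ⟨0, 480, 0, -421⟩ ⟨0, 480, 0, 421⟩, .l ⟨0, -480, 0, 431⟩ ⟨0, 480, 0, 431⟩, .l ⟨0, 480, 0, -421⟩ ⟨0, -2172, 3359, 1024⟩, .l ⟨0, 480, 0, -431⟩ ⟨0, -2172, 3359, 1024⟩, .l ⟨0, 480, 0, -421⟩ ⟨0, -1981, -3475, -5037⟩, .l ⟨0, 480, 0, -431⟩ ⟨0, -1981, -3475, -5037⟩, .l ⟨0, 480, 0, -421⟩ ⟨0, 1838, 3553, 4794⟩, .l ⟨0, 480, 0, -431⟩ ⟨0, 1838, 3553, 4794⟩] := by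
  refine rok_dys (s := 1) (nlo := 421) (nhi := 431) (q := 480) (by decide) (by decide) (by decide) (by decide) (z := 3) (by decide) TI_sc (k := 1) (by decide) (Q := [(-2172, 3359, -1024), (-1981, -3475, 5037), (1838, 3553, -4794)])
    (P := [⟨-38799360, 480, 0⟩, ⟨39720960, -480, 0⟩, ⟨-94371840, -2172, 3359⟩, ⟨464209920, -1981, -3475⟩, ⟨-441815040, 1838, 3553⟩]) rfl rfl
    (List.mem_of_getElem? (i := 187) rfl) TI_fr TI_cov ?_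
  · intro X Y h
    simp only [List.forall_mem_cons, List.not_mem_nil, false_imp_iff, implies_true, and_true] at h
    push_cast at h ⊢
    obtain ⟨h0, h1, h2, h3, h4⟩ := h
    refine ⟨⟨?_, ?_⟩, ?_, ?_⟩ <;> linarith

theorem TI_rg188 : ROK [.l ⟨0, 480, 0, -422⟩ ⟨0, 480, 0, 422⟩, .l ⟨0, -480, 0, 429⟩ ⟨0, 480, 0, 429⟩, .l ⟨0, 480, 0, -422⟩ ⟨0, -2352, 3236, -9645⟩, .l ⟨0, 480, 0, -429⟩ ⟨0, -2352, 3236, -9645⟩, .l ⟨0, 480, 0, -422⟩ ⟨0, -1144, -3833, -4645⟩, .l ⟨0, 480, 0, -429⟩ ⟨0, -1144, -3833, -4645⟩, .l ⟨0, 480, 0, -422⟩ ⟨0, 2030, 3447, 4871⟩, .l ⟨0, 480, 0, -429⟩ ⟨0, 2030, 3447, 4871⟩] := by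
  refine rok_dys (s := 1) (nlo := 422) (nhi := 429) (q := 480) (by decide) (by decide) (by decide) (by decide) (z := 3) (by decide) TI_sc (k := 1) (by decide) (Q := [(-2352, 3236, 9645), (-1144, -3833, 4645), (2030, 3447, -4871)])
    (P := [⟨-38891520, 480, 0⟩, ⟨39536640, -480, 0⟩, ⟨888883200, -2352, 3236⟩, ⟨428083200, -1144, -3833⟩, ⟨-448911360, 2030, 3447⟩]) rfl rfl
    (List.mem_of_getElem? (i := 188) rfl) TI_fr TI_cov ?_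
  · intro X Y h
    simp only [List.forall_mem_cons, List.not_mem_nil, false_imp_iff, implies_true, and_true] at h
    push_cast at h ⊢
    obtain ⟨h0, h1, h2, h3, h4⟩ := h
    refine ⟨⟨?_, ?_⟩, ?_, ?_⟩ <;> linarith

theorem TI_rg189 : ROK [.l ⟨0, 960, 0, -850⟩ ⟨0, 960, 0, 850⟩, .l ⟨0, -960, 0, 857⟩ ⟨0, 960, 0, 857⟩, .l ⟨0, 960, 0, -850⟩ ⟨0, 2388, 3209, 4977⟩, .l ⟨0, 960, 0, -857⟩ ⟨0, 2388, 3209, 4977⟩, .l ⟨0, 960, 0, -850⟩ ⟨0, 587, -3957, -3233⟩, .l ⟨0, 960, 0, -857⟩ ⟨0, 587, -3957, -3233⟩, .l ⟨0, 960, 0, -850⟩ ⟨0, -20, 4000, 3533⟩, .l ⟨0, 960, 0, -857⟩ ⟨0, -20, 4000, 3533⟩] := by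
  refine rok_dys (s := 1) (nlo := 850) (nhi := 857) (q := 960) (by decide) (by decide) (by decide) (by decide) (z := 3) (by decide) TI_sc (k := 1) (by decide) (Q := [(2388, 3209, -4977), (587, -3957, 3233), (-20, 4000, -3533)])
    (P := [⟨-78336000, 960, 0⟩, ⟨78981120, -960, 0⟩, ⟨-458680320, 2388, 3209⟩, ⟨297953280, 587, -3957⟩, ⟨-325601280, -20, 4000⟩]) rfl rfl
    (List.mem_of_getElem? (i := 189) rfl) TI_fr TI_cov ?_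
  · intro X Y h
    simp only [List.forall_mem_cons, List.not_mem_nil, false_imp_iff, implies_true, and_true] at h
    push_cast at h ⊢
    obtain ⟨h0, h1, h2, h3, h4⟩ := h
    refine ⟨⟨?_, ?_⟩, ?_, ?_⟩ <;> linarith

theorem TI_rg190 : ROK [.l ⟨0, 320, 0, -287⟩ ⟨0, 320, 0, 287⟩, .l ⟨0, -320, 0, 289⟩ ⟨0, 320, 0, 289⟩, .l ⟨0, 320, 0, -287⟩ ⟨0, 601, 3955, -7960⟩, .l ⟨0, 320, 0, -289⟩ ⟨0, 601, 3955, -7960⟩, .l ⟨0, 320, 0, -287⟩ ⟨0, 9, -4000, -3791⟩, .l ⟨0, 320, 0, -289⟩ ⟨0, 9, -4000, -3791⟩, .l ⟨0, 320, 0, -287⟩ ⟨0, 536, 1927, 2187⟩, .l ⟨0, 320, 0, -289⟩ ⟨0, 536, 1927, 2187⟩] := by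
  refine rok_dys (s := 1) (nlo := 287) (nhi := 289) (q := 320) (by decide) (by decide) (by decide) (by decide) (z := 3) (by decide) TI_sc (k := 1) (by decide) (Q := [(601, 3955, 7960), (9, -4000, 3791), (536, 1927, -2187)])
    (P := [⟨-26449920, 320, 0⟩, ⟨26634240, -320, 0⟩, ⟨733593600, 601, 3955⟩, ⟨349378560, 9, -4000⟩, ⟨-201553920, 536, 1927⟩]) rfl rfl
    (List.mem_of_getElem? (i := 190) rfl) TI_fr TI_cov ?_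
  · intro X Y h
    simp only [List.forall_mem_cons, List.not_mem_nil, false_imp_iff, implies_true, and_true] at h
    push_cast at h ⊢
    obtain ⟨h0, h1, h2, h3, h4⟩ := h
    refine ⟨⟨?_, ?_⟩, ?_, ?_⟩ <;> linarith

theorem TI_rg191 : ROK [.l ⟨0, 480, 0, -424⟩ ⟨0, 480, 0, 424⟩, .l ⟨0, -480, 0, 431⟩ ⟨0, 480, 0, 431⟩, .l ⟨0, 480, 0, -424⟩ ⟨0, 2080, 3417, 4889⟩, .l ⟨0, 480, 0, -431⟩ ⟨0, 2080, 3417, 4889⟩, .l ⟨0, 480, 0, -424⟩ ⟨0, -2080, -3417, -5081⟩, .l ⟨0, 480, 0, -431⟩ ⟨0, -2080, -3417, -5081⟩, .l ⟨0, 480, 0, -424⟩ ⟨0, 837, 3911, 4215⟩, .l ⟨0, 480, 0, -431⟩ ⟨0, 837, 3911, 4215⟩] := by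
  refine rok_dys (s := 1) (nlo := 424) (nhi := 431) (q := 480) (by decide) (by decide) (by decide) (by decide) (z := 3) (by decide) TI_sc (k := 1) (by decide) (Q := [(2080, 3417, -4889), (-2080, -3417, 5081), (837, 3911, -4215)])
    (P := [⟨-39075840, 480, 0⟩, ⟨39720960, -480, 0⟩, ⟨-450570240, 2080, 3417⟩, ⟨468264960, -2080, -3417⟩, ⟨-388454400, 837, 3911⟩]) rfl rfl
    (List.mem_of_getElem? (i := 191) rfl) TI_fr TI_cov ?_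
  · intro X Y h
    simp only [List.forall_mem_cons, List.not_mem_nil, false_imp_iff, implies_true, and_true] at h
    push_cast at h ⊢
    obtain ⟨h0, h1, h2, h3, h4⟩ := h
    refine ⟨⟨?_, ?_⟩, ?_, ?_⟩ <;> linarith

end Pool.Agent.TET
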