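import Pool.Agent.Helper38_TET.TI_C

/-!
# MP_c7c9bf_co: certificates, family TI
-/

set_option autoImplicit false
set_option maxRecDepth 100000

namespace Pool.Agent.TET

theorem TI_rg192 : ROK [.l ⟨0, 960, 0, -851⟩ ⟨0, 960, 0, 851⟩, .l ⟨0, -960, 0, 858⟩ ⟨0, 960, 0, 858⟩, .l ⟨0, 960, 0, -851⟩ ⟨0, 0, 4000, 3551⟩, .l ⟨0, 960, 0, -858⟩ ⟨0, 0, 4000, 3551⟩, .l ⟨0, 960, 0, -851⟩ ⟨0, -445, -3975, -4169⟩, .l ⟨0, 960, 0, -858⟩ ⟨0, -445, -3975, -4169⟩, .l ⟨0, 960, 0, -851⟩ ⟨0, 2433, 3175, 4987⟩, .l ⟨0, 960, 0, -858⟩ ⟨0, 2433, 3175, 4987⟩] := by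
  refine rok_dys (s := 1) (nlo := 851) (nhi := 858) (q := 960) (by decide) (by decide) (by decide) (by decide) (z := 3) (by decide) TI_sc (k := 1) (by decide) (Q := [(0, 4000, -3551), (-445, -3975, 4169), (2433, 3175, -4987)])
    (P := [⟨-78428160, 960, 0⟩, ⟨79073280, -960, 0⟩, ⟨-327260160, 0, 4000⟩, ⟨384215040, -445, -3975⟩, ⟨-459601920, 2433, 3175⟩]) rfl rfl
    (List.mem_of_getElem? (i := 192) rfl) TI_fr TI_cov ?_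
  · intro X Y h
    simp only [List.forall_mem_cons, List.not_mem_nil, false_imp_iff, implies_true, and_true] at h
    push_cast at h ⊢
    obtain ⟨h0, h1, h2, h3, h4⟩ := h
    refine ⟨⟨?_, ?_⟩, ?_, ?_⟩ <;> linarith

theorem TI_rg193 : ROK [.l ⟨0, 960, 0, -851⟩ ⟨0, 960, 0, 851⟩, .l ⟨0, -960, 0, 859⟩ ⟨0, 960, 0, 859⟩, .l ⟨0, 960, 0, -851⟩ ⟨0, 0, 2000, 1773⟩, .l ⟨0, 960, 0, -859⟩ ⟨0, 0, 2000, 1773⟩, .l ⟨0, 960, 0, -851⟩ ⟨0, 0, -4000, -3799⟩, .l ⟨0, 960, 0, -859⟩ ⟨0, 0, -4000, -3799⟩, .l ⟨0, 960, 0, -851⟩ ⟨0, 1439, 1389, 2517⟩, .l ⟨0, 960, 0, -859⟩ ⟨0, 1439, 1389, 2517⟩] := by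
  refine rok_dys (s := 1) (nlo := 851) (nhi := 859) (q := 960) (by decide) (by decide) (by decide) (by decide) (z := 3) (by decide) TI_sc (k := 1) (by decide) (Q := [(0, 2000, -1773), (0, -4000, 3799), (1439, 1389, -2517)])
    (P := [⟨-78428160, 960, 0⟩, ⟨79165440, -960, 0⟩, ⟨-163399680, 0, 2000⟩, ⟨350115840, 0, -4000⟩, ⟨-231966720, 1439, 1389⟩]) rfl rfl
    (List.mem_of_getElem? (i := 193) rfl) TI_fr TI_cov ?_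
  · intro X Y h
    simp only [List.forall_mem_cons, List.not_mem_nil, false_imp_iff, implies_true, and_true] at h
    push_cast at h ⊢
    obtain ⟨h0, h1, h2, h3, h4⟩ := h
    refine ⟨⟨?_, ?_⟩, ?_, ?_⟩ <;> linarith

theorem TI_rg194 : ROK [.l ⟨0, 320, 0, -283⟩ ⟨0, 320, 0, 283⟩, .l ⟨0, -320, 0, 286⟩ ⟨0, 320, 0, 286⟩, .l ⟨0, 320, 0, -283⟩ ⟨0, 1793, 3576, 4774⟩, .l ⟨0, 320, 0, -286⟩ ⟨0, 1793, 3576, 4774⟩, .l ⟨0, 320, 0, -283⟩ ⟨0, -2262, -3299, -5130⟩, .l ⟨0, 320, 0, -286⟩ ⟨0, -2262, -3299, -5130⟩] := by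
  refine rok_dys (s := 1) (nlo := 283) (nhi := 286) (q := 320) (by decide) (by decide) (by decide) (by decide) (z := 3) (by decide) TI_sc (k := 1) (by decide) (Q := [(1793, 3576, -4774), (-2262, -3299, 5130)])
    (P := [⟨-26081280, 320, 0⟩, ⟨26357760, -320, 0⟩, ⟨-439971840, 1793, 3576⟩, ⟨472780800, -2262, -3299⟩]) rfl rfl
    (List.mem_of_getElem? (i := 194) rfl) TI_fr TI_cov ?_
  · intro X Y h
    simp only [List.forall_mem_cons, List.not_mem_nil, false_imp_iff, implies_true, and_true] at h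
    push_cast at h ⊢
    obtain ⟨h0, h1, h2, h3⟩ := h
    refine ⟨⟨?_, ?_⟩, ?_, ?_⟩ <;> linarith

theorem TI_rg195 : ROK [.l ⟨0, 960, 0, -860⟩ ⟨0, 960, 0, 860⟩, .l ⟨0, -960, 0, 867⟩ ⟨0, 960, 0, 867⟩, .l ⟨0, 960, 0, -860⟩ ⟨0, 0, 500, -1057⟩, .l ⟨0, 960, 0, -867⟩ ⟨0, 0, 500, -1057⟩, .l ⟨0, 960, 0, -860⟩ ⟨0, 0, -4000, -3799⟩, .l ⟨0, 960, 0, -867⟩ ⟨0, 0, -4000, -3799⟩, .l ⟨0, 960, 0, -860⟩ ⟨0, 1239, 3803, 4479⟩, .l ⟨0, 960, 0, -867⟩ ⟨0, 1239, 3803, 4479⟩] := by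
  refine rok_dys (s := 1) (nlo := 860) (nhi := 867) (q := 960) (by decide) (by decide) (by decide) (by decide) (z := 3) (by decide) TI_sc (k := 1) (by decide) (Q := [(0, 500, 1057), (0, -4000, 3799), (1239, 3803, -4479)])
    (P := [⟨-79257600, 960, 0⟩, ⟨79902720, -960, 0⟩, ⟨97413120, 0, 500⟩, ⟨350115840, 0, -4000⟩, ⟨-412784640, 1239, 3803⟩]) rfl rfl
    (List.mem_of_getElem? (i := 195) rfl) TI_fr TI_cov ?_
  · intro X Y h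
    simp only [List.forall_mem_cons, List.not_mem_nil, false_imp_iff, implies_true, and_true] at h
    push_cast at h ⊢
    obtain ⟨h0, h1, h2, h3, h4⟩ := h
    refine ⟨⟨?_, ?_⟩, ?_, ?_⟩ <;> linarith

theorem TI_rg196 : ROK [.l ⟨0, 960, 0, -847⟩ ⟨0, 960, 0, 847⟩, .l ⟨0, -960, 0, 858⟩ ⟨0, 960, 0, 858⟩, .l ⟨0, 960, 0, -847⟩ ⟨0, 2349, 3237, 4967⟩, .l ⟨0, 960, 0, -858⟩ ⟨0, 2349, 3237, 4967⟩, .l ⟨0, 960, 0, -847⟩ ⟨0, -2349, -3237, -5144⟩, .l ⟨0, 960, 0, -858⟩ ⟨0, -2349, -3237, -5144⟩, .l ⟨0, 960, 0, -847⟩ ⟨0, -155, 3997, 3410⟩, .l ⟨0, 960, 0, -858⟩ ⟨0, -155, 3997, 3410⟩] := by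
  refine rok_dys (s := 1) (nlo := 847) (nhi := 858) (q := 960) (by decide) (by decide) (by decide) (by decide) (z := 3) (by decide) TI_sc (k := 1) (by decide) (Q := [(2349, 3237, -4967), (-2349, -3237, 5144), (-155, 3997, -3410)])
    (P := [⟨-78059520, 960, 0⟩, ⟨79073280, -960, 0⟩, ⟨-457758720, 2349, 3237⟩, ⟨474071040, -2349, -3237⟩, ⟨-314265600, -155, 3997⟩]) rfl rfl
    (List.mem_of_getElem? (i := 196) rfl) TI_fr TI_cov ?_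
  · intro X Y h
    simp only [List.forall_mem_cons, List.not_mem_nil, false_imp_iff, implies_true, and_true] at h
    push_cast at h ⊢
    obtain ⟨h0, h1, h2, h3, h4⟩ := h
    refine ⟨⟨?_, ?_⟩, ?_, ?_⟩ <;> linarith

theorem TI_rg197 : ROK [.l ⟨0, 480, 0, -425⟩ ⟨0, 480, 0, 425⟩, .l ⟨0, -480, 0, 433⟩ ⟨0, 480, 0, 433⟩, .l ⟨0, 480, 0, -425⟩ ⟨0, -697, 3939, 2857⟩, .l ⟨0, 480, 0, -433⟩ ⟨0, -697, 3939, 2857⟩, .l ⟨0, 480, 0, -425⟩ ⟨0, 697, -3939, -3111⟩, .l ⟨0, 480, 0, -433⟩ ⟨0, 697, -3939, -3111⟩, .l ⟨0, 480, 0, -425⟩ ⟨0, 1785, 3580, 4771⟩, .l ⟨0, 480, 0, -433⟩ ⟨0, 1785, 3580, 4771⟩] := by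
  refine rok_dys (s := 1) (nlo := 425) (nhi := 433) (q := 480) (by decide) (by decide) (by decide) (by decide) (z := 3) (by decide) TI_sc (k := 1) (by decide) (Q := [(-697, 3939, -2857), (697, -3939, 3111), (1785, 3580, -4771)])
    (P := [⟨-39168000, 480, 0⟩, ⟨39905280, -480, 0⟩, ⟨-263301120, -697, 3939⟩, ⟨286709760, 697, -3939⟩, ⟨-439695360, 1785, 3580⟩]) rfl rfl
    (List.mem_of_getElem? (i := 197) rfl) TI_fr TI_cov ?_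
  · intro X Y h
    simp only [List.forall_mem_cons, List.not_mem_nil, false_imp_iff, implies_true, and_true] at h
    push_cast at h ⊢
    obtain ⟨h0, h1, h2, h3, h4⟩ := h
    refine ⟨⟨?_, ?_⟩, ?_, ?_⟩ <;> linarith

theorem TI_rg198 : ROK [.l ⟨0, 960, 0, -849⟩ ⟨0, 960, 0, 849⟩, .l ⟨0, -960, 0, 856⟩ ⟨0, 960, 0, 856⟩, .l ⟨0, 960, 0, -849⟩ ⟨0, 0, 2000, 1777⟩, .l ⟨0, 960, 0, -856⟩ ⟨0, 0, 2000, 1777⟩, .l ⟨0, 960, 0, -849⟩ ⟨0, -2244, -3311, -5125⟩, .l ⟨0, 960, 0, -856⟩ ⟨0, -2244, -3311, -5125⟩, .l ⟨0, 960, 0, -849⟩ ⟨0, 2971, 2678, 5023⟩, .l ⟨0, 960, 0, -856⟩ ⟨0, 2971, 2678, 5023⟩] := by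
  refine rok_dys (s := 1) (nlo := 849) (nhi := 856) (q := 960) (by decide) (by decide) (by decide) (by decide) (z := 3) (by decide) TI_sc (k := 1) (by decide) (Q := [(0, 2000, -1777), (-2244, -3311, 5125), (2971, 2678, -5023)])
    (P := [⟨-78243840, 960, 0⟩, ⟨78888960, -960, 0⟩, ⟨-163768320, 0, 2000⟩, ⟨472320000, -2244, -3311⟩, ⟨-462919680, 2971, 2678⟩]) rfl rfl
    (List.mem_of_getElem? (i := 198) rfl) TI_fr TI_cov ?_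
  · intro X Y h
    simp only [List.forall_mem_cons, List.not_mem_nil, false_imp_iff, implies_true, and_true] at h
    push_cast at h ⊢
    obtain ⟨h0, h1, h2, h3, h4⟩ := h
    refine ⟨⟨?_, ?_⟩, ?_, ?_⟩ <;> linarith

theorem TI_rg199 : ROK [.l ⟨0, 480, 0, -425⟩ ⟨0, 480, 0, 425⟩, .l ⟨0, -480, 0, 428⟩ ⟨0, 480, 0, 428⟩, .l ⟨0, 480, 0, -425⟩ ⟨0, 544, 3963, 4005⟩, .l ⟨0, 480, 0, -428⟩ ⟨0, 544, 3963, 4005⟩, .l ⟨0, 480, 0, -425⟩ ⟨0, 882, -3902, -2919⟩, .l ⟨0, 480, 0, -428⟩ ⟨0, 882, -3902, -2919⟩, .l ⟨0, 480, 0, -425⟩ ⟨0, 3405, 2099, 4894⟩, .l ⟨0, 480, 0, -428⟩ ⟨0, 3405, 2099, 4894⟩] := by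
  refine rok_dys (s := 1) (nlo := 425) (nhi := 428) (q := 480) (by decide) (by decide) (by decide) (by decide) (z := 3) (by decide) TI_sc (k := 1) (by decide) (Q := [(544, 3963, -4005), (882, -3902, 2919), (3405, 2099, -4894)])
    (P := [⟨-39168000, 480, 0⟩, ⟨39444480, -480, 0⟩, ⟨-369100800, 544, 3963⟩, ⟨269015040, 882, -3902⟩, ⟨-451031040, 3405, 2099⟩]) rfl rfl
    (List.mem_of_getElem? (i := 199) rfl) TI_fr TI_cov ?_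
  · intro X Y h
    simp only [List.forall_mem_cons, List.not_mem_nil, false_imp_iff, implies_true, and_true] at h
    push_cast at h ⊢
    obtain ⟨h0, h1, h2, h3, h4⟩ := h
    refine ⟨⟨?_, ?_⟩, ?_, ?_⟩ <;> linarith

theorem TI_rg200 : ROK [.l ⟨0, 960, 0, -851⟩ ⟨0, 960, 0, 851⟩, .l ⟨0, -960, 0, 858⟩ ⟨0, 960, 0, 858⟩, .l ⟨0, 960, 0, -851⟩ ⟨0, 377, 3982, 3871⟩, .l ⟨0, 960, 0, -858⟩ ⟨0, 377, 3982, 3871⟩, .l ⟨0, 960, 0, -851⟩ ⟨0, -836, -1817, -2466⟩, .l ⟨0, 960, 0, -858⟩ ⟨0, -836, -1817, -2466⟩, .l ⟨0, 960, 0, -851⟩ ⟨0, 2353, 3235, 4969⟩, .l ⟨0, 960, 0, -858⟩ ⟨0, 2353, 3235, 4969⟩] := by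
  refine rok_dys (s := 1) (nlo := 851) (nhi := 858) (q := 960) (by decide) (by decide) (by decide) (by decide) (z := 3) (by decide) TI_sc (k := 1) (by decide) (Q := [(377, 3982, -3871), (-836, -1817, 2466), (2353, 3235, -4969)])
    (P := [⟨-78428160, 960, 0⟩, ⟨79073280, -960, 0⟩, ⟨-356751360, 377, 3982⟩, ⟨227266560, -836, -1817⟩, ⟨-457943040, 2353, 3235⟩]) rfl rfl
    (List.mem_of_getElem? (i := 200) rfl) TI_fr TI_cov ?_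
  · intro X Y h
    simp only [List.forall_mem_cons, List.not_mem_nil, false_imp_iff, implies_true, and_true] at h
    push_cast at h ⊢
    obtain ⟨h0, h1, h2, h3, h4⟩ := h
    refine ⟨⟨?_, ?_⟩, ?_, ?_⟩ <;> linarith

end Pool.Agent.TET
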