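import Pool.Agent.Helper38_TET.TM_C

/-!
# MP_c7c9bf_co: certificates, family TM
-/

set_option autoImplicit false
set_option maxRecDepth 100000

namespace Pool.Agent.TET

theorem TM_rg24 : ROK [.q ⟨-19, -16, 11, 24⟩ ⟨-7520, 3272, 12216, -7968⟩, .q ⟨-19, -16, 11, 24⟩ ⟨600, -5748, 5340, -192⟩, .q ⟨-19, -16, 11, 24⟩ ⟨7308, -3084, -12192, 7968⟩, .q ⟨-19, -16, 11, 24⟩ ⟨-1432, 11708, -10564, 288⟩] := by
  refine rok_w (v := ⟨-19, -16, 11, 24⟩) (q := 4) (by decide) (by decide) (by decide) TM_sc (k := 1) (by decide) (Q := [(-510, 3967, -332), (-1469, 1357, -8), (557, -3961, 332), (2975, -2674, 12)])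
    (P := [⟨-10199040, -510, 3967⟩, ⟨-245760, -1469, 1357⟩, ⟨10199040, 557, -3961⟩, ⟨368640, 2975, -2674⟩]) rfl rfl
    (List.mem_of_getElem? (i := 24) rfl) TM_fr TM_cov ?_
  · intro X Y h
    simp only [List.forall_mem_cons, List.not_mem_nil, false_imp_iff, implies_true, and_true] at h
    push_cast at h ⊢
    obtain ⟨h0, h1, h2, h3⟩ := h
    refine ⟨⟨?_, ?_⟩, ?_, ?_⟩ <;> linarith

theorem TM_rg25 : ROK [.q ⟨-19, -16, 11, 24⟩ ⟨2840, 5088, -12056, 4128⟩, .q ⟨-19, -16, 11, 24⟩ ⟨-4428, 3008, 5932, -4512⟩, .q ⟨-19, -16, 11, 24⟩ ⟨5940, -17692, 7624, 4128⟩, .q ⟨-19, -16, 11, 24⟩ ⟨8688, -5988, -11820, 9120⟩] := by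
  refine rok_w (v := ⟨-19, -16, 11, 24⟩) (q := 4) (by decide) (by decide) (by decide) TM_sc (k := 1) (by decide) (Q := [(1960, -3487, 172), (0, 2000, -188), (-3735, 1433, 172), (23, -4000, 380)])
    (P := [⟨5283840, 1960, -3487⟩, ⟨-5775360, 0, 2000⟩, ⟨5283840, -3735, 1433⟩, ⟨11673600, 23, -4000⟩]) rfl rfl
    (List.mem_of_getElem? (i := 25) rfl) TM_fr TM_cov ?_
  · intro X Y h
    simp only [List.forall_mem_cons, List.not_mem_nil, false_imp_iff, implies_true, and_true] at h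
    push_cast at h ⊢
    obtain ⟨h0, h1, h2, h3⟩ := h
    refine ⟨⟨?_, ?_⟩, ?_, ?_⟩ <;> linarith

theorem TM_rg26 : ROK [.q ⟨-19, -16, 11, 24⟩ ⟨-2448, 13152, -10032, -672⟩, .q ⟨-19, -16, 11, 24⟩ ⟨-5908, 148, 12384, -6624⟩, .q ⟨-19, -16, 11, 24⟩ ⟨6316, -18212, 7288, 4608⟩, .q ⟨-19, -16, 11, 24⟩ ⟨7184, -2844, -12212, 7872⟩] := by
  refine rok_w (v := ⟨-19, -16, 11, 24⟩) (q := 4) (by decide) (by decide) (by decide) TM_sc (k := 1) (by decide) (Q := [(3176, -2431, -28), (-1067, 3855, -276), (-3785, 1294, 192), (601, -3955, 328)])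
    (P := [⟨-860160, 3176, -2431⟩, ⟨-8478720, -1067, 3855⟩, ⟨5898240, -3785, 1294⟩, ⟨10076160, 601, -3955⟩]) rfl rfl
    (List.mem_of_getElem? (i := 26) rfl) TM_fr TM_cov ?_
  · intro X Y h
    simp only [List.forall_mem_cons, List.not_mem_nil, false_imp_iff, implies_true, and_true] at h
    push_cast at h ⊢
    obtain ⟨h0, h1, h2, h3⟩ := h
    refine ⟨⟨?_, ?_⟩, ?_, ?_⟩ <;> linarith

theorem TM_rg27 : ROK [.q ⟨-19, -16, 11, 24⟩ ⟨508, -10548, 11000, -960⟩, .q ⟨-19, -16, 11, 24⟩ ⟨7864, -4244, -12068, 8448⟩, .q ⟨-19, -16, 11, 24⟩ ⟨-10556, 21748, -2456, -8736⟩] := by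
  refine rok_w (v := ⟨-19, -16, 11, 24⟩) (q := 4) (by decide) (by decide) (by decide) TM_sc (k := 1) (by decide) (Q := [(-2797, 2860, -40), (347, -3985, 352), (3981, 387, -364)])
    (P := [⟨-1228800, -2797, 2860⟩, ⟨10813440, 347, -3985⟩, ⟨-11182080, 3981, 387⟩]) rfl rfl
    (List.mem_of_getElem? (i := 27) rfl) TM_fr TM_cov ?_
  · intro X Y h
    simp only [List.forall_mem_cons, List.not_mem_nil, false_imp_iff, implies_true, and_true] at h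
    push_cast at h ⊢
    obtain ⟨h0, h1, h2⟩ := h
    refine ⟨⟨?_, ?_⟩, ?_, ?_⟩ <;> linarith

theorem TM_rg28 : ROK [.q ⟨-19, -16, 11, 24⟩ ⟨-3592, -4028, 12228, -4608⟩, .q ⟨-19, -16, 11, 24⟩ ⟨5404, -10992, 980, 4608⟩, .q ⟨-19, -16, 11, 24⟩ ⟨4180, 2812, -12272, 5280⟩, .q ⟨-19, -16, 11, 24⟩ ⟨-12568, 21820, 1500, -10752⟩] := by
  refine rok_w (v := ⟨-19, -16, 11, 24⟩) (q := 4) (by decide) (by decide) (by decide) TM_sc (k := 1) (by decide) (Q := [(-1775, 3585, -192), (-1980, -283, 192), (1583, -3673, 220), (3663, 1607, -448)])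
    (P := [⟨-5898240, -1775, 3585⟩, ⟨5898240, -1980, -283⟩, ⟨6758400, 1583, -3673⟩, ⟨-13762560, 3663, 1607⟩]) rfl rfl
    (List.mem_of_getElem? (i := 28) rfl) TM_fr TM_cov ?_
  · intro X Y h
    simp only [List.forall_mem_cons, List.not_mem_nil, false_imp_iff, implies_true, and_true] at h
    push_cast at h ⊢
    obtain ⟨h0, h1, h2, h3⟩ := h
    refine ⟨⟨?_, ?_⟩, ?_, ?_⟩ <;> linarith

theorem TM_rg29 : ROK [.q ⟨-19, -16, 11, 24⟩ ⟨-9636, 7984, 11444, -9792⟩, .q ⟨-19, -16, 11, 24⟩ ⟨7176, -19144, 6496, 5472⟩, .q ⟨-19, -16, 11, 24⟩ ⟨3248, -748, -6148, 3648⟩, .q ⟨-19, -16, 11, 24⟩ ⟨-3688, 14800, -9288, -1824⟩] := by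
  refine rok_w (v := ⟨-19, -16, 11, 24⟩) (q := 4) (by decide) (by decide) (by decide) TM_sc (k := 1) (by decide) (Q := [(364, 3983, -408), (-3874, 997, 228), (421, -1955, 152), (3396, -2113, -76)])
    (P := [⟨-12533760, 364, 3983⟩, ⟨7004160, -3874, 997⟩, ⟨4669440, 421, -1955⟩, ⟨-2334720, 3396, -2113⟩]) rfl rfl
    (List.mem_of_getElem? (i := 29) rfl) TM_fr TM_cov ?_
  · intro X Y h
    simp only [List.forall_mem_cons, List.not_mem_nil, false_imp_iff, implies_true, and_true] at h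
    push_cast at h ⊢
    obtain ⟨h0, h1, h2, h3⟩ := h
    refine ⟨⟨?_, ?_⟩, ?_, ?_⟩ <;> linarith

theorem TM_rg30 : ROK [.q ⟨-19, -16, 11, 24⟩ ⟨-4884, 10624, -1804, -3936⟩, .q ⟨-19, -16, 11, 24⟩ ⟨-1160, -7972, 11628, -2496⟩, .q ⟨-19, -16, 11, 24⟩ ⟨7748, -4004, -12096, 8352⟩] := by
  refine rok_w (v := ⟨-19, -16, 11, 24⟩) (q := 4) (by decide) (by decide) (by decide) TM_sc (k := 1) (by decide) (Q := [(2000, 0, -164), (-2409, 3193, -104), (391, -3981, 348)])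
    (P := [⟨-5038080, 2000, 0⟩, ⟨-3194880, -2409, 3193⟩, ⟨10690560, 391, -3981⟩]) rfl rfl
    (List.mem_of_getElem? (i := 30) rfl) TM_fr TM_cov ?_
  · intro X Y h
    simp only [List.forall_mem_cons, List.not_mem_nil, false_imp_iff, implies_true, and_true] at h
    push_cast at h ⊢
    obtain ⟨h0, h1, h2⟩ := h
    refine ⟨⟨?_, ?_⟩, ?_, ?_⟩ <;> linarith

theorem TM_rg31 : ROK [.q ⟨-19, -16, 11, 24⟩ ⟨-708, 10648, -10900, 960⟩, .q ⟨-19, -16, 11, 24⟩ ⟨-10692, 10304, 10852, -10464⟩, .q ⟨-19, -16, 11, 24⟩ ⟨836, -6060, 5224, 0⟩, .q ⟨-19, -16, 11, 24⟩ ⟨11672, -15000, -7712, 11040⟩] := by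
  refine rok_w (v := ⟨-19, -16, 11, 24⟩) (q := 4) (by decide) (by decide) (by decide) TM_sc (k := 1) (by decide) (Q := [(2822, -2835, 40), (832, 3912, -436), (-1515, 1306, 0), (-1910, -3193, 460)])
    (P := [⟨1228800, 2822, -2835⟩, ⟨-13393920, 832, 3912⟩, ⟨0, -1515, 1306⟩, ⟨14131200, -1910, -3193⟩]) rfl rfl
    (List.mem_of_getElem? (i := 31) rfl) TM_fr TM_cov ?_
  · intro X Y h
    simp only [List.forall_mem_cons, List.not_mem_nil, false_imp_iff, implies_true, and_true] at h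
    push_cast at h ⊢
    obtain ⟨h0, h1, h2, h3⟩ := h
    refine ⟨⟨?_, ?_⟩, ?_, ?_⟩ <;> linarith

theorem TM_rg32 : ROK [.q ⟨-19, -16, 11, 24⟩ ⟨-12728, 21668, 2100, -11040⟩, .q ⟨-19, -16, 11, 24⟩ ⟨3788, -15024, 9220, 2016⟩, .q ⟨-19, -16, 11, 24⟩ ⟨9576, -7916, -11452, 9792⟩, .q ⟨-19, -16, 11, 24⟩ ⟨-1332, 11560, -10612, 384⟩] := by
  refine rok_w (v := ⟨-19, -16, 11, 24⟩) (q := 4) (by decide) (by decide) (by decide) TM_sc (k := 1) (by decide) (Q := [(3577, 1790, -460), (-3420, 2074, 84), (-347, -3985, 408), (2954, -2697, 16)])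
    (P := [⟨-14131200, 3577, 1790⟩, ⟨2580480, -3420, 2074⟩, ⟨12533760, -347, -3985⟩, ⟨491520, 2954, -2697⟩]) rfl rfl
    (List.mem_of_getElem? (i := 32) rfl) TM_fr TM_cov ?_
  · intro X Y h
    simp only [List.forall_mem_cons, List.not_mem_nil, false_imp_iff, implies_true, and_true] at h
    push_cast at h ⊢
    obtain ⟨h0, h1, h2, h3⟩ := h
    refine ⟨⟨?_, ?_⟩, ?_, ?_⟩ <;> linarith

theorem TM_rg33 : ROK [.q ⟨-19, -16, 11, 24⟩ ⟨-2328, 13004, -10100, -576⟩, .q ⟨-19, -16, 11, 24⟩ ⟨-12268, 14896, 8988, -11616⟩, .q ⟨-19, -16, 11, 24⟩ ⟨-1316, -7776, 11684, -2592⟩, .q ⟨-19, -16, 11, 24⟩ ⟨11036, -11580, -10400, 10944⟩] := by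
  refine rok_w (v := ⟨-19, -16, 11, 24⟩) (q := 4) (by decide) (by decide) (by decide) TM_sc (k := 1) (by decide) (Q := [(3155, -2459, -24), (1788, 3578, -484), (-2376, 3218, -108), (-1071, -3854, 456)])
    (P := [⟨-737280, 3155, -2459⟩, ⟨-14868480, 1788, 3578⟩, ⟨-3317760, -2376, 3218⟩, ⟨14008320, -1071, -3854⟩]) rfl rfl
    (List.mem_of_getElem? (i := 33) rfl) TM_fr TM_cov ?_
  · intro X Y h
    simp only [List.forall_mem_cons, List.not_mem_nil, false_imp_iff, implies_true, and_true] at h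
    push_cast at h ⊢
    obtain ⟨h0, h1, h2, h3⟩ := h
    refine ⟨⟨?_, ?_⟩, ?_, ?_⟩ <;> linarith

theorem TM_rg34 : ROK [.q ⟨-19, -16, 11, 24⟩ ⟨4164, 2824, -12268, 5280⟩, .q ⟨-19, -16, 11, 24⟩ ⟨-12152, 19384, 3616, -10848⟩, .q ⟨-19, -16, 11, 24⟩ ⟨-1828, -6932, 11832, -3072⟩, .q ⟨-19, -16, 11, 24⟩ ⟨11272, -12260, -10148, 11136⟩] := by
  refine rok_w (v := ⟨-19, -16, 11, 24⟩) (q := 4) (by decide) (by decide) (by decide) TM_sc (k := 1) (by decide) (Q := [(1586, -3672, 220), (3038, 2147, -452), (-2245, 3310, -128), (-1209, -3813, 464)])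
    (P := [⟨6758400, 1586, -3672⟩, ⟨-13885440, 3038, 2147⟩, ⟨-3932160, -2245, 3310⟩, ⟨14254080, -1209, -3813⟩]) rfl rfl
    (List.mem_of_getElem? (i := 34) rfl) TM_fr TM_cov ?_
  · intro X Y h
    simp only [List.forall_mem_cons, List.not_mem_nil, false_imp_iff, implies_true, and_true] at h
    push_cast at h ⊢
    obtain ⟨h0, h1, h2, h3⟩ := h
    refine ⟨⟨?_, ?_⟩, ?_, ?_⟩ <;> linarith

theorem TM_rg35 : ROK [.q ⟨-19, -16, 11, 24⟩ ⟨6020, -9852, -1544, 5376⟩, .q ⟨-19, -16, 11, 24⟩ ⟨628, 1408, -2996, 960⟩, .q ⟨-19, -16, 11, 24⟩ ⟨-9492, 7240, 11660, -9408⟩, .q ⟨-19, -16, 11, 24⟩ ⟨-4684, -2104, 12356, -5568⟩] := by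
  refine rok_w (v := ⟨-19, -16, 11, 24⟩) (q := 4) (by decide) (by decide) (by decide) TM_sc (k := 1) (by decide) (Q := [(-1567, -1002, 224), (512, -859, 40), (242, 3993, -392), (-1454, 3727, -232)])
    (P := [⟨6881280, -1567, -1002⟩, ⟨1228800, 512, -859⟩, ⟨-12042240, 242, 3993⟩, ⟨-7127040, -1454, 3727⟩]) rfl rfl
    (List.mem_of_getElem? (i := 35) rfl) TM_fr TM_cov ?_
  · intro X Y h
    simp only [List.forall_mem_cons, List.not_mem_nil, false_imp_iff, implies_true, and_true] at h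
    push_cast at h ⊢
    obtain ⟨h0, h1, h2, h3⟩ := h
    refine ⟨⟨?_, ?_⟩, ?_, ?_⟩ <;> linarith

theorem TM_rg36 : ROK [.q ⟨-19, -16, 11, 24⟩ ⟨-12100, 22028, 344, -10272⟩, .q ⟨-19, -16, 11, 24⟩ ⟨-4428, 3008, 5932, -4512⟩, .q ⟨-19, -16, 11, 24⟩ ⟨-2300, -6208, 11964, -3456⟩, .q ⟨-19, -16, 11, 24⟩ ⟨5528, 392, -12352, 6432⟩] := by
  refine rok_w (v := ⟨-19, -16, 11, 24⟩) (q := 4) (by decide) (by decide) (by decide) TM_sc (k := 1) (by decide) (Q := [(3795, 1263, -428), (0, 2000, -188), (-2128, 3387, -144), (1170, -3825, 268)])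
    (P := [⟨-13148160, 3795, 1263⟩, ⟨-5775360, 0, 2000⟩, ⟨-4423680, -2128, 3387⟩, ⟨8232960, 1170, -3825⟩]) rfl rfl
    (List.mem_of_getElem? (i := 36) rfl) TM_fr TM_cov ?_
  · intro X Y h
    simp only [List.forall_mem_cons, List.not_mem_nil, false_imp_iff, implies_true, and_true] at h
    push_cast at h ⊢
    obtain ⟨h0, h1, h2, h3⟩ := h
    refine ⟨⟨?_, ?_⟩, ?_, ?_⟩ <;> linarith

theorem TM_rg37 : ROK [.q ⟨-19, -16, 11, 24⟩ ⟨-2848, -5308, 12092, -3936⟩, .q ⟨-19, -16, 11, 24⟩ ⟨7420, -3312, -12172, 8064⟩, .q ⟨-19, -16, 11, 24⟩ ⟨-4884, 10624, -1804, -3936⟩, .q ⟨-19, -16, 11, 24⟩ ⟨-11948, 13888, 9484, -11424⟩] := by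
  refine rok_w (v := ⟨-19, -16, 11, 24⟩) (q := 4) (by decide) (by decide) (by decide) TM_sc (k := 1) (by decide) (Q := [(-1983, 3474, -164), (516, -3967, 336), (2000, 0, -164), (1568, 3680, -476)])
    (P := [⟨-5038080, -1983, 3474⟩, ⟨10321920, 516, -3967⟩, ⟨-5038080, 2000, 0⟩, ⟨-14622720, 1568, 3680⟩]) rfl rfl
    (List.mem_of_getElem? (i := 37) rfl) TM_fr TM_cov ?_
  · intro X Y h
    simp only [List.forall_mem_cons, List.not_mem_nil, false_imp_iff, implies_true, and_true] at h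
    push_cast at h ⊢
    obtain ⟨h0, h1, h2, h3⟩ := h
    refine ⟨⟨?_, ?_⟩, ?_, ?_⟩ <;> linarith

theorem TM_rg38 : ROK [.q ⟨-19, -16, 11, 24⟩ ⟨-1528, -764, 4116, -1824⟩, .q ⟨-19, -16, 11, 24⟩ ⟨5628, -17432, 7868, 3936⟩, .q ⟨-19, -16, 11, 24⟩ ⟨7980, -4484, -12040, 8544⟩, .q ⟨-19, -16, 11, 24⟩ ⟨-3840, 15044, -9188, -2016⟩] := by
  refine rok_w (v := ⟨-19, -16, 11, 24⟩) (q := 4) (by decide) (by decide) (by decide) TM_sc (k := 1) (by decide) (Q := [(-495, 1238, -76), (-3702, 1516, 164), (303, -3989, 356), (3425, -2066, -84)])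
    (P := [⟨-2334720, -495, 1238⟩, ⟨5038080, -3702, 1516⟩, ⟨10936320, 303, -3989⟩, ⟨-2580480, 3425, -2066⟩]) rfl rfl
    (List.mem_of_getElem? (i := 38) rfl) TM_fr TM_cov ?_
  · intro X Y h
    simp only [List.forall_mem_cons, List.not_mem_nil, false_imp_iff, implies_true, and_true] at h
    push_cast at h ⊢
    obtain ⟨h0, h1, h2, h3⟩ := h
    refine ⟨⟨?_, ?_⟩, ?_, ?_⟩ <;> linarith

theorem TM_rg39 : ROK [.q ⟨-19, -16, 11, 24⟩ ⟨5604, 212, -12344, 6528⟩, .q ⟨-19, -16, 11, 24⟩ ⟨-4320, 15588, -8868, -2400⟩, .q ⟨-19, -16, 11, 24⟩ ⟨-5660, -292, 12384, -6432⟩, .q ⟨-19, -16, 11, 24⟩ ⟨7556, -19532, 6120, 5856⟩] := by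
  refine rok_w (v := ⟨-19, -16, 11, 24⟩) (q := 4) (by decide) (by decide) (by decide) TM_sc (k := 1) (by decide) (Q := [(1141, -3834, 272), (3497, -1942, -100), (-1145, 3833, -268), (-3907, 859, 244)])
    (P := [⟨8355840, 1141, -3834⟩, ⟨-3072000, 3497, -1942⟩, ⟨-8232960, -1145, 3833⟩, ⟨7495680, -3907, 859⟩]) rfl rfl
    (List.mem_of_getElem? (i := 39) rfl) TM_fr TM_cov ?_
  · intro X Y h
    simp only [List.forall_mem_cons, List.not_mem_nil, false_imp_iff, implies_true, and_true] at h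
    push_cast at h ⊢
    obtain ⟨h0, h1, h2, h3⟩ := h
    refine ⟨⟨?_, ?_⟩, ?_, ?_⟩ <;> linarith

theorem TM_rg40 : ROK [.q ⟨-19, -16, 11, 24⟩ ⟨3248, -748, -6148, 3648⟩, .q ⟨-19, -16, 11, 24⟩ ⟨-12204, 18416, 4924, -11136⟩, .q ⟨-19, -16, 11, 24⟩ ⟨-492, -9088, 11404, -1824⟩] := by
  refine rok_w (v := ⟨-19, -16, 11, 24⟩) (q := 4) (by decide) (by decide) (by decide) TM_sc (k := 1) (by decide) (Q := [(421, -1955, 152), (2748, 2507, -464), (-2576, 3060, -76)])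
    (P := [⟨4669440, 421, -1955⟩, ⟨-14254080, 2748, 2507⟩, ⟨-2334720, -2576, 3060⟩]) rfl rfl
    (List.mem_of_getElem? (i := 40) rfl) TM_fr TM_cov ?_
  · intro X Y h
    simp only [List.forall_mem_cons, List.not_mem_nil, false_imp_iff, implies_true, and_true] at h
    push_cast at h ⊢
    obtain ⟨h0, h1, h2⟩ := h
    refine ⟨⟨?_, ?_⟩, ?_, ?_⟩ <;> linarith

theorem TM_rg41 : ROK [.q ⟨-19, -16, 11, 24⟩ ⟨-4036, -3264, 12292, -4992⟩, .q ⟨-19, -16, 11, 24⟩ ⟨9692, -21312, 3652, 7968⟩, .q ⟨-19, -16, 11, 24⟩ ⟨11712, -13488, -9648, 11424⟩, .q ⟨-19, -16, 11, 24⟩ ⟨612, 3860, -5816, 1344⟩, .q ⟨-19, -16, 11, 24⟩ ⟨-12300, 17904, 5436, -11040⟩] := by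
  refine rok_w (v := ⟨-19, -16, 11, 24⟩) (q := 4) (by decide) (by decide) (by decide) TM_sc (k := 1) (by decide) (Q := [(-1648, 3645, -208), (-4000, 0, 332), (-1468, -3721, 476), (1189, -1608, 56), (2636, 2624, -460)])
    (P := [⟨-6389760, -1648, 3645⟩, ⟨10199040, -4000, 0⟩, ⟨14622720, -1468, -3721⟩, ⟨1720320, 1189, -1608⟩, ⟨-14131200, 2636, 2624⟩]) rfl rfl
    (List.mem_of_getElem? (i := 41) rfl) TM_fr TM_cov ?_
  · intro X Y h
    simp only [List.forall_mem_cons, List.not_mem_nil, false_imp_iff, implies_true, and_true] at h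
    push_cast at h ⊢
    obtain ⟨h0, h1, h2, h3, h4⟩ := h
    refine ⟨⟨?_, ?_⟩, ?_, ?_⟩ <;> linarith

theorem TM_rg42 : ROK [.q ⟨-19, -16, 11, 24⟩ ⟨4884, -10624, 1804, 3936⟩, .q ⟨-19, -16, 11, 24⟩ ⟨4412, -3132, -5888, 4608⟩, .q ⟨-19, -16, 11, 24⟩ ⟨-788, 4340, -3360, -192⟩, .q ⟨-19, -16, 11, 24⟩ ⟨-12008, 16308, 6836, -11136⟩] := by
  refine rok_w (v := ⟨-19, -16, 11, 24⟩) (q := 4) (by decide) (by decide) (by decide) TM_sc (k := 1) (by decide) (Q := [(-2000, 0, 164), (-15, -2000, 192), (1053, -818, -8), (2221, 2985, -464)])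
    (P := [⟨5038080, -2000, 0⟩, ⟨5898240, -15, -2000⟩, ⟨-245760, 1053, -818⟩, ⟨-14254080, 2221, 2985⟩]) rfl rfl
    (List.mem_of_getElem? (i := 42) rfl) TM_fr TM_cov ?_
  · intro X Y h
    simp only [List.forall_mem_cons, List.not_mem_nil, false_imp_iff, implies_true, and_true] at h
    push_cast at h ⊢
    obtain ⟨h0, h1, h2, h3⟩ := h
    refine ⟨⟨?_, ?_⟩, ?_, ?_⟩ <;> linarith

theorem TM_rg43 : ROK [.q ⟨-19, -16, 11, 24⟩ ⟨-5308, -924, 12376, -6144⟩, .q ⟨-19, -16, 11, 24⟩ ⟨2404, -5344, 924, 2016⟩, .q ⟨-19, -16, 11, 24⟩ ⟨4520, -3384, -5840, 4704⟩, .q ⟨-19, -16, 11, 24⟩ ⟨-4064, 15312, -9040, -2208⟩] := by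
  refine rok_w (v := ⟨-19, -16, 11, 24⟩) (q := 4) (by decide) (by decide) (by decide) TM_sc (k := 1) (by decide) (Q := [(-1255, 3798, -256), (-1000, 0, 84), (-62, -1999, 196), (3460, -2007, -92)])
    (P := [⟨-7864320, -1255, 3798⟩, ⟨2580480, -1000, 0⟩, ⟨6021120, -62, -1999⟩, ⟨-2826240, 3460, -2007⟩]) rfl rfl
    (List.mem_of_getElem? (i := 43) rfl) TM_fr TM_cov ?_
  · intro X Y h
    simp only [List.forall_mem_cons, List.not_mem_nil, false_imp_iff, implies_true, and_true] at h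
    push_cast at h ⊢
    obtain ⟨h0, h1, h2, h3⟩ := h
    refine ⟨⟨?_, ?_⟩, ?_, ?_⟩ <;> linarith

theorem TM_rg44 : ROK [.q ⟨-19, -16, 11, 24⟩ ⟨12248, -15292, -8764, 11808⟩, .q ⟨-19, -16, 11, 24⟩ ⟨528, 4016, -5792, 1248⟩, .q ⟨-19, -16, 11, 24⟩ ⟨-9788, 8300, 11376, -9888⟩, .q ⟨-19, -16, 11, 24⟩ ⟨9692, -21312, 3652, 7968⟩] := by
  refine rok_w (v := ⟨-19, -16, 11, 24⟩) (q := 4) (by decide) (by decide) (by decide) TM_sc (k := 1) (by decide) (Q := [(-1855, -3544, 492), (1212, -1591, 52), (427, 3977, -412), (-4000, 0, 332)])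
    (P := [⟨15114240, -1855, -3544⟩, ⟨1597440, 1212, -1591⟩, ⟨-12656640, 427, 3977⟩, ⟨10199040, -4000, 0⟩]) rfl rfl
    (List.mem_of_getElem? (i := 44) rfl) TM_fr TM_cov ?_
  · intro X Y h
    simp only [List.forall_mem_cons, List.not_mem_nil, false_imp_iff, implies_true, and_true] at h
    push_cast at h ⊢
    obtain ⟨h0, h1, h2, h3⟩ := h
    refine ⟨⟨?_, ?_⟩, ?_, ?_⟩ <;> linarith

theorem TM_rg45 : ROK [.q ⟨-19, -16, 11, 24⟩ ⟨8156, -20008, 5516, 6336⟩, .q ⟨-19, -16, 11, 24⟩ ⟨8584, -5748, -11860, 9024⟩, .q ⟨-19, -16, 11, 24⟩ ⟨-1848, 12300, -10356, -96⟩, .q ⟨-19, -16, 11, 24⟩ ⟨-7388, 3024, 12236, -7872⟩] := by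
  refine rok_w (v := ⟨-19, -16, 11, 24⟩) (q := 4) (by decide) (by decide) (by decide) TM_sc (k := 1) (by decide) (Q := [(-3946, 653, 264), (67, -3999, 376), (3059, -2578, -4), (-556, 3961, -328)])
    (P := [⟨8110080, -3946, 653⟩, ⟨11550720, 67, -3999⟩, ⟨-122880, 3059, -2578⟩, ⟨-10076160, -556, 3961⟩]) rfl rfl
    (List.mem_of_getElem? (i := 45) rfl) TM_fr TM_cov ?_
  · intro X Y h
    simp only [List.forall_mem_cons, List.not_mem_nil, false_imp_iff, implies_true, and_true] at h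
    push_cast at h ⊢
    obtain ⟨h0, h1, h2, h3⟩ := h
    refine ⟨⟨?_, ?_⟩, ?_, ?_⟩ <;> linarith

theorem TM_rg46 : ROK [.q ⟨-19, -16, 11, 24⟩ ⟨-1756, 1216, 2364, -1824⟩, .q ⟨-19, -16, 11, 24⟩ ⟨8944, -20748, 4604, 7200⟩, .q ⟨-19, -16, 11, 24⟩ ⟨7288, -3068, -12188, 7968⟩, .q ⟨-19, -16, 11, 24⟩ ⟨-328, 10148, -11068, 1248⟩] := by
  refine rok_w (v := ⟨-19, -16, 11, 24⟩) (q := 4) (by decide) (by decide) (by decide) TM_sc (k := 1) (by decide) (Q := [(0, 800, -76), (-3987, 326, 300), (561, -3960, 332), (2745, -2910, 52)])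
    (P := [⟨-2334720, 0, 800⟩, ⟨9216000, -3987, 326⟩, ⟨10199040, 561, -3960⟩, ⟨1597440, 2745, -2910⟩]) rfl rfl
    (List.mem_of_getElem? (i := 46) rfl) TM_fr TM_cov ?_
  · intro X Y h
    simp only [List.forall_mem_cons, List.not_mem_nil, false_imp_iff, implies_true, and_true] at h
    push_cast at h ⊢
    obtain ⟨h0, h1, h2, h3⟩ := h
    refine ⟨⟨?_, ?_⟩, ?_, ?_⟩ <;> linarith

theorem TM_rg47 : ROK [.q ⟨-19, -16, 11, 24⟩ ⟨5264, 836, -12340, 6240⟩, .q ⟨-19, -16, 11, 24⟩ ⟨352, 9060, -11332, 1920⟩, .q ⟨-19, -16, 11, 24⟩ ⟨-10896, 10892, 10660, -10656⟩, .q ⟨-19, -16, 11, 24⟩ ⟨-3040, -4960, 12128, -4128⟩, .q ⟨-19, -16, 11, 24⟩ ⟨12796, -21500, -2720, 11424⟩] := by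
  refine rok_w (v := ⟨-19, -16, 11, 24⟩) (q := 4) (by decide) (by decide) (by decide) TM_sc (k := 1) (by decide) (Q := [(1249, -3800, 260), (2585, -3053, 80), (947, 3886, -444), (-1928, 3505, -172), (-3471, -1989, 476)])
    (P := [⟨7987200, 1249, -3800⟩, ⟨2457600, 2585, -3053⟩, ⟨-13639680, 947, 3886⟩, ⟨-5283840, -1928, 3505⟩, ⟨14622720, -3471, -1989⟩]) rfl rfl
    (List.mem_of_getElem? (i := 47) rfl) TM_fr TM_cov ?_
  · intro X Y h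
    simp only [List.forall_mem_cons, List.not_mem_nil, false_imp_iff, implies_true, and_true] at h
    push_cast at h ⊢
    obtain ⟨h0, h1, h2, h3, h4⟩ := h
    refine ⟨⟨?_, ?_⟩, ?_, ?_⟩ <;> linarith

end Pool.Agent.TET
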