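import Pool.Agent.Helper38_TET.TM_C

/-!
# MP_c7c9bf_co: certificates, family TM
-/

set_option autoImplicit false
set_option maxRecDepth 100000

namespace Pool.Agent.TET

theorem TM_rg48 : ROK [.q ⟨-19, -16, 11, 24⟩ ⟨2360, -13212, 10084, 768⟩, .q ⟨-19, -16, 11, 24⟩ ⟨1108, -788, -1472, 1152⟩, .q ⟨-19, -16, 11, 24⟩ ⟨-1748, 12152, -10404, 0⟩, .q ⟨-19, -16, 11, 24⟩ ⟨-4428, 3008, 5932, -4512⟩] := by
  refine rok_w (v := ⟨-19, -16, 11, 24⟩) (q := 4) (by decide) (by decide) (by decide) TM_sc (k := 1) (by decide) (Q := [(-3175, 2433, 32), (-5, -500, 48), (3038, -2601, 0), (0, 2000, -188)])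
    (P := [⟨983040, -3175, 2433⟩, ⟨1474560, -5, -500⟩, ⟨0, 3038, -2601⟩, ⟨-5775360, 0, 2000⟩]) rfl rfl
    (List.mem_of_getElem? (i := 48) rfl) TM_fr TM_cov ?_
  · intro X Y h
    simp only [List.forall_mem_cons, List.not_mem_nil, false_imp_iff, implies_true, and_true] at h
    push_cast at h ⊢
    obtain ⟨h0, h1, h2, h3⟩ := h
    refine ⟨⟨?_, ?_⟩, ?_, ?_⟩ <;> linarith

theorem TM_rg49 : ROK [.q ⟨-19, -16, 11, 24⟩ ⟨7060, -2608, -12228, 7776⟩, .q ⟨-19, -16, 11, 24⟩ ⟨-12052, 16936, 6348, -11232⟩, .q ⟨-19, -16, 11, 24⟩ ⟨9692, -21312, 3652, 7968⟩] := by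
  refine rok_w (v := ⟨-19, -16, 11, 24⟩) (q := 4) (by decide) (by decide) (by decide) TM_sc (k := 1) (by decide) (Q := [(644, -3948, 324), (2362, 2874, -468), (-4000, 0, 332)])
    (P := [⟨9953280, 644, -3948⟩, ⟨-14376960, 2362, 2874⟩, ⟨10199040, -4000, 0⟩]) rfl rfl
    (List.mem_of_getElem? (i := 49) rfl) TM_fr TM_cov ?_
  · intro X Y h
    simp only [List.forall_mem_cons, List.not_mem_nil, false_imp_iff, implies_true, and_true] at h
    push_cast at h ⊢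
    obtain ⟨h0, h1, h2⟩ := h
    refine ⟨⟨?_, ?_⟩, ?_, ?_⟩ <;> linarith

theorem TM_rg50 : ROK [.q ⟨-19, -16, 11, 24⟩ ⟨11856, -22144, 16, 10272⟩, .q ⟨-19, -16, 11, 24⟩ ⟨4820, 1648, -12324, 5856⟩, .q ⟨-19, -16, 11, 24⟩ ⟨-11696, 15064, 7672, -11040⟩, .q ⟨-19, -16, 11, 24⟩ ⟨-1316, -7776, 11684, -2592⟩] := by
  refine rok_w (v := ⟨-19, -16, 11, 24⟩) (q := 4) (by decide) (by decide) (by decide) TM_sc (k := 1) (by decide) (Q := [(-3824, -1173, 428), (1388, -3752, 244), (1926, 3183, -460), (-2376, 3218, -108)])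
    (P := [⟨13148160, -3824, -1173⟩, ⟨7495680, 1388, -3752⟩, ⟨-14131200, 1926, 3183⟩, ⟨-3317760, -2376, 3218⟩]) rfl rfl
    (List.mem_of_getElem? (i := 50) rfl) TM_fr TM_cov ?_
  · intro X Y h
    simp only [List.forall_mem_cons, List.not_mem_nil, false_imp_iff, implies_true, and_true] at h
    push_cast at h ⊢
    obtain ⟨h0, h1, h2, h3⟩ := h
    refine ⟨⟨?_, ?_⟩, ?_, ?_⟩ <;> linarith

theorem TM_rg51 : ROK [.q ⟨-19, -16, 11, 24⟩ ⟨-456, 5476, -5404, 384⟩, .q ⟨-19, -16, 11, 24⟩ ⟨-12264, 18504, 4800, -11040⟩, .q ⟨-19, -16, 11, 24⟩ ⟨740, -10868, 10896, -768⟩, .q ⟨-19, -16, 11, 24⟩ ⟨6388, -1280, -12308, 7200⟩] := by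
  refine rok_w (v := ⟨-19, -16, 11, 24⟩) (q := 4) (by decide) (by decide) (by decide) TM_sc (k := 1) (by decide) (Q := [(1433, -1395, 16), (2786, 2465, -460), (-2845, 2812, -32), (880, -3902, 300)])
    (P := [⟨491520, 1433, -1395⟩, ⟨-14131200, 2786, 2465⟩, ⟨-983040, -2845, 2812⟩, ⟨9216000, 880, -3902⟩]) rfl rfl
    (List.mem_of_getElem? (i := 51) rfl) TM_fr TM_cov ?_
  · intro X Y h
    simp only [List.forall_mem_cons, List.not_mem_nil, false_imp_iff, implies_true, and_true] at h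
    push_cast at h ⊢
    obtain ⟨h0, h1, h2, h3⟩ := h
    refine ⟨⟨?_, ?_⟩, ?_, ?_⟩ <;> linarith

theorem TM_rg52 : ROK [.q ⟨-19, -16, 11, 24⟩ ⟨6836, -2160, -12260, 7584⟩, .q ⟨-19, -16, 11, 24⟩ ⟨-2700, 8464, -4036, -1728⟩, .q ⟨-19, -16, 11, 24⟩ ⟨-11740, 15188, 7592, -11040⟩, .q ⟨-19, -16, 11, 24⟩ ⟨724, -10860, 10904, -768⟩] := by
  refine rok_w (v := ⟨-19, -16, 11, 24⟩) (q := 4) (by decide) (by decide) (by decide) TM_sc (k := 1) (by decide) (Q := [(724, -3934, 316), (1828, -811, -72), (1957, 3163, -460), (-2843, 2814, -32)])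
    (P := [⟨9707520, 724, -3934⟩, ⟨-2211840, 1828, -811⟩, ⟨-14131200, 1957, 3163⟩, ⟨-983040, -2843, 2814⟩]) rfl rfl
    (List.mem_of_getElem? (i := 52) rfl) TM_fr TM_cov ?_
  · intro X Y h
    simp only [List.forall_mem_cons, List.not_mem_nil, false_imp_iff, implies_true, and_true] at h
    push_cast at h ⊢
    obtain ⟨h0, h1, h2, h3⟩ := h
    refine ⟨⟨?_, ?_⟩, ?_, ?_⟩ <;> linarith

end Pool.Agent.TET
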