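import Pool.Agent.Helper38_TET.TM_R0
import Pool.Agent.Helper38_TET.TM_R1
import Pool.Agent.Helper38_TET.TM_R2

/-!
# MP_c7c9bf_co: certificates, family TM
-/

set_option autoImplicit false
set_option maxRecDepth 100000

namespace Pool.Agent.TET

end Pool.Agent.TET
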