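import Pool.Agent.Helper38_TET.TQ_C

/-!
# MP_c7c9bf_co: certificates, family TQ
-/

set_option autoImplicit false
set_option maxRecDepth 100000

namespace Pool.Agent.TET

theorem TQ_rg24 : ROK [.q ⟨17, -19, -28, 30⟩ ⟨-2793, -1349, 2012, 2130⟩, .q ⟨17, -19, -28, 30⟩ ⟨4839, -1987, -1412, -1440⟩, .q ⟨17, -19, -28, 30⟩ ⟨185, 3266, -1771, -1680⟩] := by
  refine rok_w (v := ⟨17, -19, -28, 30⟩) (q := 1) (by decide) (by decide) (by decide) TQ_sc (k := 1) (by decide) (Q := [(0, 4000, 71), (-2899, -2756, -48), (2202, -3339, -56)])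
    (P := [⟨2181120, 0, 4000⟩, ⟨-1474560, -2899, -2756⟩, ⟨-1720320, 2202, -3339⟩]) rfl rfl
    (List.mem_of_getElem? (i := 24) rfl) TQ_fr TQ_cov ?_
  · intro X Y h
    simp only [List.forall_mem_cons, List.not_mem_nil, false_imp_iff, implies_true, and_true] at h
    push_cast at h ⊢
    obtain ⟨h0, h1, h2⟩ := h
    refine ⟨⟨?_, ?_⟩, ?_, ?_⟩ <;> linarith

theorem TQ_rg25 : ROK [.q ⟨17, -19, -28, 30⟩ ⟨1531, -1174, -177, -180⟩, .q ⟨17, -19, -28, 30⟩ ⟨2954, 1182, -2066, -2070⟩, .q ⟨17, -19, -28, 30⟩ ⟨-4771, 2636, 875, 1260⟩, .q ⟨17, -19, -28, 30⟩ ⟨-1261, -2647, 1838, 2070⟩] := by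
  refine rok_w (v := ⟨17, -19, -28, 30⟩) (q := 1) (by decide) (by decide) (by decide) TQ_sc (k := 1) (by decide) (Q := [(-1288, -345, -6), (-129, -3998, -69), (3434, 2051, 42), (-1336, 3770, 69)])
    (P := [⟨-184320, -1288, -345⟩, ⟨-2119680, -129, -3998⟩, ⟨1290240, 3434, 2051⟩, ⟨2119680, -1336, 3770⟩]) rfl rfl
    (List.mem_of_getElem? (i := 25) rfl) TQ_fr TQ_cov ?_
  · intro X Y h
    simp only [List.forall_mem_cons, List.not_mem_nil, false_imp_iff, implies_true, and_true] at h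
    push_cast at h ⊢
    obtain ⟨h0, h1, h2, h3⟩ := h
    refine ⟨⟨?_, ?_⟩, ?_, ?_⟩ <;> linarith

theorem TQ_rg26 : ROK [.q ⟨17, -19, -28, 30⟩ ⟨582, 3044, -1856, -1770⟩, .q ⟨17, -19, -28, 30⟩ ⟨-1857, 4041, -1164, -1020⟩, .q ⟨17, -19, -28, 30⟩ ⟨-112, -1630, 872, 870⟩, .q ⟨17, -19, -28, 30⟩ ⟨4410, -802, -1778, -1830⟩] := by
  refine rok_w (v := ⟨17, -19, -28, 30⟩) (q := 1) (by decide) (by decide) (by decide) TQ_sc (k := 1) (by decide) (Q := [(1923, -3508, -59), (3395, -2116, -34), (-1079, 1684, 29), (-1961, -3486, -61)])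
    (P := [⟨-1812480, 1923, -3508⟩, ⟨-1044480, 3395, -2116⟩, ⟨890880, -1079, 1684⟩, ⟨-1873920, -1961, -3486⟩]) rfl rfl
    (List.mem_of_getElem? (i := 26) rfl) TQ_fr TQ_cov ?_
  · intro X Y h
    simp only [List.forall_mem_cons, List.not_mem_nil, false_imp_iff, implies_true, and_true] at h
    push_cast at h ⊢
    obtain ⟨h0, h1, h2, h3⟩ := h
    refine ⟨⟨?_, ?_⟩, ?_, ?_⟩ <;> linarith

theorem TQ_rg27 : ROK [.q ⟨17, -19, -28, 30⟩ ⟨4897, -2664, -1123, -1110⟩, .q ⟨17, -19, -28, 30⟩ ⟨861, 2874, -1905, -1830⟩, .q ⟨17, -19, -28, 30⟩ ⟨-2526, -1605, 2031, 2100⟩] := by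
  refine rok_w (v := ⟨17, -19, -28, 30⟩) (q := 1) (by decide) (by decide) (by decide) TQ_sc (k := 1) (by decide) (Q := [(-3367, -2159, -37), (1715, -3613, -61), (-275, 3991, 70)])
    (P := [⟨-1136640, -3367, -2159⟩, ⟨-1873920, 1715, -3613⟩, ⟨2150400, -275, 3991⟩]) rfl rfl
    (List.mem_of_getElem? (i := 27) rfl) TQ_fr TQ_cov ?_
  · intro X Y h
    simp only [List.forall_mem_cons, List.not_mem_nil, false_imp_iff, implies_true, and_true] at h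
    push_cast at h ⊢
    obtain ⟨h0, h1, h2⟩ := h
    refine ⟨⟨?_, ?_⟩, ?_, ?_⟩ <;> linarith

theorem TQ_rg28 : ROK [.q ⟨17, -19, -28, 30⟩ ⟨2305, 1799, -2064, -2040⟩, .q ⟨17, -19, -28, 30⟩ ⟨-3881, 3867, -196, 210⟩, .q ⟨17, -19, -28, 30⟩ ⟨-2793, -1349, 2012, 2130⟩, .q ⟨17, -19, -28, 30⟩ ⟨3451, -4184, 343, 390⟩] := by
  refine rok_w (v := ⟨17, -19, -28, 30⟩) (q := 1) (by decide) (by decide) (by decide) TQ_sc (k := 1) (by decide) (Q := [(507, -3968, -68), (4000, 0, 7), (0, 4000, 71), (-3937, 707, 13)])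
    (P := [⟨-2088960, 507, -3968⟩, ⟨215040, 4000, 0⟩, ⟨2181120, 0, 4000⟩, ⟨399360, -3937, 707⟩]) rfl rfl
    (List.mem_of_getElem? (i := 28) rfl) TQ_fr TQ_cov ?_
  · intro X Y h
    simp only [List.forall_mem_cons, List.not_mem_nil, false_imp_iff, implies_true, and_true] at h
    push_cast at h ⊢
    obtain ⟨h0, h1, h2, h3⟩ := h
    refine ⟨⟨?_, ?_⟩, ?_, ?_⟩ <;> linarith

theorem TQ_rg29 : ROK [.q ⟨17, -19, -28, 30⟩ ⟨-2110, 1852, 48, 210⟩, .q ⟨17, -19, -28, 30⟩ ⟨119, -537, 208, 210⟩, .q ⟨17, -19, -28, 30⟩ ⟨4778, -1670, -1578, -1530⟩, .q ⟨17, -19, -28, 30⟩ ⟨179, 741, -470, -450⟩] := by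
  refine rok_w (v := ⟨17, -19, -28, 30⟩) (q := 1) (by decide) (by decide) (by decide) TQ_sc (k := 1) (by decide) (Q := [(1985, 244, 7), (-404, 404, 7), (-2639, -3006, -51), (456, -890, -15)])
    (P := [⟨215040, 1985, 244⟩, ⟨215040, -404, 404⟩, ⟨-1566720, -2639, -3006⟩, ⟨-460800, 456, -890⟩]) rfl rfl
    (List.mem_of_getElem? (i := 29) rfl) TQ_fr TQ_cov ?_
  · intro X Y h
    simp only [List.forall_mem_cons, List.not_mem_nil, false_imp_iff, implies_true, and_true] at h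
    push_cast at h ⊢
    obtain ⟨h0, h1, h2, h3⟩ := h
    refine ⟨⟨?_, ?_⟩, ?_, ?_⟩ <;> linarith

theorem TQ_rg30 : ROK [.q ⟨17, -19, -28, 30⟩ ⟨-248, 1798, -800, -750⟩, .q ⟨17, -19, -28, 30⟩ ⟨-952, -429, 661, 720⟩, .q ⟨17, -19, -28, 30⟩ ⟨4161, -3957, -144, -60⟩, .q ⟨17, -19, -28, 30⟩ ⟨1919, 67, -996, -990⟩] := by
  refine rok_w (v := ⟨17, -19, -28, 30⟩) (q := 1) (by decide) (by decide) (by decide) TQ_sc (k := 1) (by decide) (Q := [(1323, -1500, -25), (27, 1333, 24), (-3995, -200, -2), (-560, -1920, -33)])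
    (P := [⟨-768000, 1323, -1500⟩, ⟨737280, 27, 1333⟩, ⟨-61440, -3995, -200⟩, ⟨-1013760, -560, -1920⟩]) rfl rfl
    (List.mem_of_getElem? (i := 30) rfl) TQ_fr TQ_cov ?_
  · intro X Y h
    simp only [List.forall_mem_cons, List.not_mem_nil, false_imp_iff, implies_true, and_true] at h
    push_cast at h ⊢
    obtain ⟨h0, h1, h2, h3⟩ := h
    refine ⟨⟨?_, ?_⟩, ?_, ?_⟩ <;> linarith

theorem TQ_rg31 : ROK [.q ⟨17, -19, -28, 30⟩ ⟨867, -3797, 1400, 1530⟩, .q ⟨17, -19, -28, 30⟩ ⟨4859, -3040, -949, -870⟩, .q ⟨17, -19, -28, 30⟩ ⟨2246, 1851, -2057, -2040⟩, .q ⟨17, -19, -28, 30⟩ ⟨-4774, 2873, 821, 1080⟩] := by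
  refine rok_w (v := ⟨17, -19, -28, 30⟩) (q := 1) (by decide) (by decide) (by decide) TQ_sc (k := 1) (by decide) (Q := [(-2828, 2828, 51), (-3591, -1761, -29), (559, -3961, -68), (3557, 1829, 36)])
    (P := [⟨1566720, -2828, 2828⟩, ⟨-890880, -3591, -1761⟩, ⟨-2088960, 559, -3961⟩, ⟨1105920, 3557, 1829⟩]) rfl rfl
    (List.mem_of_getElem? (i := 31) rfl) TQ_fr TQ_cov ?_
  · intro X Y h
    simp only [List.forall_mem_cons, List.not_mem_nil, false_imp_iff, implies_true, and_true] at h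
    push_cast at h ⊢
    obtain ⟨h0, h1, h2, h3⟩ := h
    refine ⟨⟨?_, ?_⟩, ?_, ?_⟩ <;> linarith

theorem TQ_rg32 : ROK [.q ⟨17, -19, -28, 30⟩ ⟨-2964, -1177, 1921, 2220⟩, .q ⟨17, -19, -28, 30⟩ ⟨3300, -4207, 427, 480⟩, .q ⟨17, -19, -28, 30⟩ ⟨2307, 1797, -2064, -2040⟩, .q ⟨17, -19, -28, 30⟩ ⟨-2236, 1732, 174, 330⟩] := by
  refine rok_w (v := ⟨17, -19, -28, 30⟩) (q := 1) (by decide) (by decide) (by decide) TQ_sc (k := 1) (by decide) (Q := [(229, 3993, 74), (-3903, 875, 16), (505, -3968, -68), (1941, 482, 11)])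
    (P := [⟨2273280, 229, 3993⟩, ⟨491520, -3903, 875⟩, ⟨-2088960, 505, -3968⟩, ⟨337920, 1941, 482⟩]) rfl rfl
    (List.mem_of_getElem? (i := 32) rfl) TQ_fr TQ_cov ?_
  · intro X Y h
    simp only [List.forall_mem_cons, List.not_mem_nil, false_imp_iff, implies_true, and_true] at h
    push_cast at h ⊢
    obtain ⟨h0, h1, h2, h3⟩ := h
    refine ⟨⟨?_, ?_⟩, ?_, ?_⟩ <;> linarith

theorem TQ_rg33 : ROK [.q ⟨17, -19, -28, 30⟩ ⟨-2197, 4047, -1100, -750⟩, .q ⟨17, -19, -28, 30⟩ ⟨-4721, 1783, 1288, 1650⟩, .q ⟨17, -19, -28, 30⟩ ⟨425, -1889, 714, 750⟩, .q ⟨17, -19, -28, 30⟩ ⟨4886, -2939, -1017, -930⟩, .q ⟨17, -19, -28, 30⟩ ⟨2253, 1845, -2058, -2040⟩] := by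
  refine rok_w (v := ⟨17, -19, -28, 30⟩) (q := 1) (by decide) (by decide) (by decide) TQ_sc (k := 1) (by decide) (Q := [(3572, -1800, -25), (2828, 2828, 55), (-1414, 1414, 25), (-3528, -1885, -31), (553, -3962, -68)])
    (P := [⟨-768000, 3572, -1800⟩, ⟨1689600, 2828, 2828⟩, ⟨768000, -1414, 1414⟩, ⟨-952320, -3528, -1885⟩, ⟨-2088960, 553, -3962⟩]) rfl rfl
    (List.mem_of_getElem? (i := 33) rfl) TQ_fr TQ_cov ?_
  · intro X Y h
    simp only [List.forall_mem_cons, List.not_mem_nil, false_imp_iff, implies_true, and_true] at h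
    push_cast at h ⊢
    obtain ⟨h0, h1, h2, h3, h4⟩ := h
    refine ⟨⟨?_, ?_⟩, ?_, ?_⟩ <;> linarith

theorem TQ_rg34 : ROK [.q ⟨17, -19, -28, 30⟩ ⟨4539, -3614, -475, -450⟩, .q ⟨17, -19, -28, 30⟩ ⟨1029, 2766, -1935, -1860⟩, .q ⟨17, -19, -28, 30⟩ ⟨-2807, 4159, -752, -600⟩, .q ⟨17, -19, -28, 30⟩ ⟨-413, -3176, 1729, 1860⟩] := by
  refine rok_w (v := ⟨17, -19, -28, 30⟩) (q := 1) (by decide) (by decide) (by decide) TQ_sc (k := 1) (by decide) (Q := [(-3899, -895, -15), (1588, -3671, -62), (3779, -1312, -20), (-1998, 3465, 62)])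
    (P := [⟨-460800, -3899, -895⟩, ⟨-1904640, 1588, -3671⟩, ⟨-614400, 3779, -1312⟩, ⟨1904640, -1998, 3465⟩]) rfl rfl
    (List.mem_of_getElem? (i := 34) rfl) TQ_fr TQ_cov ?_
  · intro X Y h
    simp only [List.forall_mem_cons, List.not_mem_nil, false_imp_iff, implies_true, and_true] at h
    push_cast at h ⊢
    obtain ⟨h0, h1, h2, h3⟩ := h
    refine ⟨⟨?_, ?_⟩, ?_, ?_⟩ <;> linarith

theorem TQ_rg35 : ROK [.q ⟨17, -19, -28, 30⟩ ⟨-4721, 1783, 1288, 1650⟩, .q ⟨17, -19, -28, 30⟩ ⟨-158, -3309, 1697, 1770⟩, .q ⟨17, -19, -28, 30⟩ ⟨4719, -1483, -1646, -1590⟩, .q ⟨17, -19, -28, 30⟩ ⟨1009, 2780, -1929, -1860⟩] := by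
  refine rok_w (v := ⟨17, -19, -28, 30⟩) (q := 1) (by decide) (by decide) (by decide) TQ_sc (k := 1) (by decide) (Q := [(2828, 2828, 55), (-2188, 3349, 59), (-2490, -3130, -53), (1602, -3665, -62)])
    (P := [⟨1689600, 2828, 2828⟩, ⟨1812480, -2188, 3349⟩, ⟨-1628160, -2490, -3130⟩, ⟨-1904640, 1602, -3665⟩]) rfl rfl
    (List.mem_of_getElem? (i := 35) rfl) TQ_fr TQ_cov ?_
  · intro X Y h
    simp only [List.forall_mem_cons, List.not_mem_nil, false_imp_iff, implies_true, and_true] at h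
    push_cast at h ⊢
    obtain ⟨h0, h1, h2, h3⟩ := h
    refine ⟨⟨?_, ?_⟩, ?_, ?_⟩ <;> linarith

theorem TQ_rg36 : ROK [.q ⟨17, -19, -28, 30⟩ ⟨-2070, 1857, 3, 210⟩, .q ⟨17, -19, -28, 30⟩ ⟨-4522, 1135, 1527, 1860⟩, .q ⟨17, -19, -28, 30⟩ ⟨1637, -4038, 1171, 1230⟩, .q ⟨17, -19, -28, 30⟩ ⟨3986, -85, -1921, -1980⟩] := by
  refine rok_w (v := ⟨17, -19, -28, 30⟩) (q := 1) (by decide) (by decide) (by decide) TQ_sc (k := 1) (by decide) (Q := [(1990, 199, 7), (2313, 3263, 62), (-3259, 2319, 41), (-1339, -3769, -66)])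
    (P := [⟨215040, 1990, 199⟩, ⟨1904640, 2313, 3263⟩, ⟨1259520, -3259, 2319⟩, ⟨-2027520, -1339, -3769⟩]) rfl rfl
    (List.mem_of_getElem? (i := 36) rfl) TQ_fr TQ_cov ?_
  · intro X Y h
    simp only [List.forall_mem_cons, List.not_mem_nil, false_imp_iff, implies_true, and_true] at h
    push_cast at h ⊢
    obtain ⟨h0, h1, h2, h3⟩ := h
    refine ⟨⟨?_, ?_⟩, ?_, ?_⟩ <;> linarith

theorem TQ_rg37 : ROK [.q ⟨17, -19, -28, 30⟩ ⟨4916, -2517, -1229, -1170⟩, .q ⟨17, -19, -28, 30⟩ ⟨1164, 2678, -1952, -1890⟩, .q ⟨17, -19, -28, 30⟩ ⟨-4755, 1821, 1344, 1590⟩, .q ⟨17, -19, -28, 30⟩ ⟨221, -954, 343, 390⟩] := by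
  refine rok_w (v := ⟨17, -19, -28, 30⟩) (q := 1) (by decide) (by decide) (by decide) TQ_sc (k := 1) (by decide) (Q := [(-3258, -2321, -39), (1481, -3716, -63), (2828, 2828, 53), (-707, 707, 13)])
    (P := [⟨-1198080, -3258, -2321⟩, ⟨-1935360, 1481, -3716⟩, ⟨1628160, 2828, 2828⟩, ⟨399360, -707, 707⟩]) rfl rfl
    (List.mem_of_getElem? (i := 37) rfl) TQ_fr TQ_cov ?_
  · intro X Y h
    simp only [List.forall_mem_cons, List.not_mem_nil, false_imp_iff, implies_true, and_true] at h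
    push_cast at h ⊢
    obtain ⟨h0, h1, h2, h3⟩ := h
    refine ⟨⟨?_, ?_⟩, ?_, ?_⟩ <;> linarith

theorem TQ_rg38 : ROK [.q ⟨17, -19, -28, 30⟩ ⟨-4739, 2800, 769, 1170⟩, .q ⟨17, -19, -28, 30⟩ ⟨-726, -1255, 931, 1050⟩, .q ⟨17, -19, -28, 30⟩ ⟨1808, -2078, 120, 150⟩, .q ⟨17, -19, -28, 30⟩ ⟨2827, 1311, -2068, -2070⟩] := by
  refine rok_w (v := ⟨17, -19, -28, 30⟩) (q := 1) (by decide) (by decide) (by decide) TQ_sc (k := 1) (by decide) (Q := [(3541, 1861, 39), (-590, 1911, 35), (-1983, 260, 5), (0, -4000, -69)])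
    (P := [⟨1198080, 3541, 1861⟩, ⟨1075200, -590, 1911⟩, ⟨153600, -1983, 260⟩, ⟨-2119680, 0, -4000⟩]) rfl rfl
    (List.mem_of_getElem? (i := 38) rfl) TQ_fr TQ_cov ?_
  · intro X Y h
    simp only [List.forall_mem_cons, List.not_mem_nil, false_imp_iff, implies_true, and_true] at h
    push_cast at h ⊢
    obtain ⟨h0, h1, h2, h3⟩ := h
    refine ⟨⟨?_, ?_⟩, ?_, ?_⟩ <;> linarith

theorem TQ_rg39 : ROK [.q ⟨17, -19, -28, 30⟩ ⟨4900, -2270, -1340, -1290⟩, .q ⟨17, -19, -28, 30⟩ ⟨220, 1563, -913, -870⟩, .q ⟨17, -19, -28, 30⟩ ⟨-4565, 1250, 1485, 1830⟩, .q ⟨17, -19, -28, 30⟩ ⟨1873, -4084, 1101, 1110⟩] := by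
  refine rok_w (v := ⟨17, -19, -28, 30⟩) (q := 1) (by decide) (by decide) (by decide) TQ_sc (k := 1) (by decide) (Q := [(-3087, -2544, -43), (1012, -1725, -29), (2409, 3193, 61), (-3381, 2137, 37)])
    (P := [⟨-1320960, -3087, -2544⟩, ⟨-890880, 1012, -1725⟩, ⟨1873920, 2409, 3193⟩, ⟨1136640, -3381, 2137⟩]) rfl rfl
    (List.mem_of_getElem? (i := 39) rfl) TQ_fr TQ_cov ?_
  · intro X Y h
    simp only [List.forall_mem_cons, List.not_mem_nil, false_imp_iff, implies_true, and_true] at h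
    push_cast at h ⊢
    obtain ⟨h0, h1, h2, h3⟩ := h
    refine ⟨⟨?_, ?_⟩, ?_, ?_⟩ <;> linarith

theorem TQ_rg40 : ROK [.q ⟨17, -19, -28, 30⟩ ⟨-4146, 361, 1775, 2010⟩, .q ⟨17, -19, -28, 30⟩ ⟨1, -1, 0, 0⟩, .q ⟨17, -19, -28, 30⟩ ⟨179, 741, -470, -450⟩] := by
  refine rok_w (v := ⟨17, -19, -28, 30⟩) (q := 1) (by decide) (by decide) (by decide) TQ_sc (k := 1) (by decide) (Q := [(1634, 3651, 67), (-1, 0, 0), (456, -890, -15)])
    (P := [⟨2058240, 1634, 3651⟩, ⟨0, -1, 0⟩, ⟨-460800, 456, -890⟩]) rfl rfl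
    (List.mem_of_getElem? (i := 40) rfl) TQ_fr TQ_cov ?_
  · intro X Y h
    simp only [List.forall_mem_cons, List.not_mem_nil, false_imp_iff, implies_true, and_true] at h
    push_cast at h ⊢
    obtain ⟨h0, h1, h2⟩ := h
    refine ⟨⟨?_, ?_⟩, ?_, ?_⟩ <;> linarith

theorem TQ_rg41 : ROK [.q ⟨17, -19, -28, 30⟩ ⟨-783, 781, -28, 30⟩, .q ⟨17, -19, -28, 30⟩ ⟨547, -3643, 1536, 1560⟩, .q ⟨17, -19, -28, 30⟩ ⟨3032, 1101, -2063, -2070⟩] := by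
  refine rok_w (v := ⟨17, -19, -28, 30⟩) (q := 1) (by decide) (by decide) (by decide) TQ_sc (k := 1) (by decide) (Q := [(800, 0, 1), (-2655, 2992, 52), (-210, -3995, -69)])
    (P := [⟨30720, 800, 0⟩, ⟨1597440, -2655, 2992⟩, ⟨-2119680, -210, -3995⟩]) rfl rfl
    (List.mem_of_getElem? (i := 41) rfl) TQ_fr TQ_cov ?_
  · intro X Y h
    simp only [List.forall_mem_cons, List.not_mem_nil, false_imp_iff, implies_true, and_true] at h
    push_cast at h ⊢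
    obtain ⟨h0, h1, h2⟩ := h
    refine ⟨⟨?_, ?_⟩, ?_, ?_⟩ <;> linarith

theorem TQ_rg42 : ROK [.q ⟨17, -19, -28, 30⟩ ⟨2085, -4164, 969, 1110⟩, .q ⟨17, -19, -28, 30⟩ ⟨1210, -479, -371, -360⟩, .q ⟨17, -19, -28, 30⟩ ⟨423, 3137, -1820, -1740⟩, .q ⟨17, -19, -28, 30⟩ ⟨-4831, 2193, 1228, 1410⟩] := by
  refine rok_w (v := ⟨17, -19, -28, 30⟩) (q := 1) (by decide) (by decide) (by decide) TQ_sc (k := 1) (by decide) (Q := [(-3461, 2005, 37), (-707, -707, -12), (2035, -3444, -58), (3086, 2544, 47)])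
    (P := [⟨1136640, -3461, 2005⟩, ⟨-368640, -707, -707⟩, ⟨-1781760, 2035, -3444⟩, ⟨1443840, 3086, 2544⟩]) rfl rfl
    (List.mem_of_getElem? (i := 42) rfl) TQ_fr TQ_cov ?_
  · intro X Y h
    simp only [List.forall_mem_cons, List.not_mem_nil, false_imp_iff, implies_true, and_true] at h
    push_cast at h ⊢
    obtain ⟨h0, h1, h2, h3⟩ := h
    refine ⟨⟨?_, ?_⟩, ?_, ?_⟩ <;> linarith

theorem TQ_rg43 : ROK [.q ⟨17, -19, -28, 30⟩ ⟨-4787, 1938, 1319, 1530⟩, .q ⟨17, -19, -28, 30⟩ ⟨4482, -3582, -390, -510⟩, .q ⟨17, -19, -28, 30⟩ ⟨1004, 374, -688, -690⟩] := by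
  refine rok_w (v := ⟨17, -19, -28, 30⟩) (q := 1) (by decide) (by decide) (by decide) TQ_sc (k := 1) (by decide) (Q := [(2907, 2747, 51), (-3905, -866, -17), (-63, -1332, -23)])
    (P := [⟨1566720, 2907, 2747⟩, ⟨-522240, -3905, -866⟩, ⟨-706560, -63, -1332⟩]) rfl rfl
    (List.mem_of_getElem? (i := 43) rfl) TQ_fr TQ_cov ?_
  · intro X Y h
    simp only [List.forall_mem_cons, List.not_mem_nil, false_imp_iff, implies_true, and_true] at h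
    push_cast at h ⊢
    obtain ⟨h0, h1, h2⟩ := h
    refine ⟨⟨?_, ?_⟩, ?_, ?_⟩ <;> linarith

theorem TQ_rg44 : ROK [.q ⟨17, -19, -28, 30⟩ ⟨1155, 897, -1032, -1020⟩, .q ⟨17, -19, -28, 30⟩ ⟨-4483, 3436, 357, 690⟩, .q ⟨17, -19, -28, 30⟩ ⟨1035, -3826, 1411, 1380⟩] := by
  refine rok_w (v := ⟨17, -19, -28, 30⟩) (q := 1) (by decide) (by decide) (by decide) TQ_sc (k := 1) (by decide) (Q := [(251, -1984, -34), (3873, 1001, 23), (-2952, 2699, 46)])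
    (P := [⟨-1044480, 251, -1984⟩, ⟨706560, 3873, 1001⟩, ⟨1413120, -2952, 2699⟩]) rfl rfl
    (List.mem_of_getElem? (i := 44) rfl) TQ_fr TQ_cov ?_
  · intro X Y h
    simp only [List.forall_mem_cons, List.not_mem_nil, false_imp_iff, implies_true, and_true] at h
    push_cast at h ⊢
    obtain ⟨h0, h1, h2⟩ := h
    refine ⟨⟨?_, ?_⟩, ?_, ?_⟩ <;> linarith

theorem TQ_rg45 : ROK [.q ⟨17, -19, -28, 30⟩ ⟨4841, -1891, -1510, -1440⟩, .q ⟨17, -19, -28, 30⟩ ⟨571, 3051, -1852, -1770⟩, .q ⟨17, -19, -28, 30⟩ ⟨-4721, 1783, 1288, 1650⟩, .q ⟨17, -19, -28, 30⟩ ⟨-793, -2943, 1816, 1920⟩] := by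
  refine rok_w (v := ⟨17, -19, -28, 30⟩) (q := 1) (by decide) (by decide) (by decide) TQ_sc (k := 1) (by decide) (Q := [(-2803, -2854, -48), (1930, -3504, -59), (2828, 2828, 55), (-1727, 3608, 64)])
    (P := [⟨-1474560, -2803, -2854⟩, ⟨-1812480, 1930, -3504⟩, ⟨1689600, 2828, 2828⟩, ⟨1966080, -1727, 3608⟩]) rfl rfl
    (List.mem_of_getElem? (i := 45) rfl) TQ_fr TQ_cov ?_
  · intro X Y h
    simp only [List.forall_mem_cons, List.not_mem_nil, false_imp_iff, implies_true, and_true] at h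
    push_cast at h ⊢
    obtain ⟨h0, h1, h2, h3⟩ := h
    refine ⟨⟨?_, ?_⟩, ?_, ?_⟩ <;> linarith

theorem TQ_rg46 : ROK [.q ⟨17, -19, -28, 30⟩ ⟨1971, -4109, 1058, 1080⟩, .q ⟨17, -19, -28, 30⟩ ⟨4165, -360, -1885, -1920⟩, .q ⟨17, -19, -28, 30⟩ ⟨195, 3260, -1775, -1680⟩, .q ⟨17, -19, -28, 30⟩ ⟨-2369, 901, 658, 810⟩] := by
  refine rok_w (v := ⟨17, -19, -28, 30⟩) (q := 1) (by decide) (by decide) (by decide) TQ_sc (k := 1) (by decide) (Q := [(-3425, 2066, 36), (-1576, -3677, -64), (2196, -3343, -56), (1414, 1414, 27)])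
    (P := [⟨1105920, -3425, 2066⟩, ⟨-1966080, -1576, -3677⟩, ⟨-1720320, 2196, -3343⟩, ⟨829440, 1414, 1414⟩]) rfl rfl
    (List.mem_of_getElem? (i := 46) rfl) TQ_fr TQ_cov ?_
  · intro X Y h
    simp only [List.forall_mem_cons, List.not_mem_nil, false_imp_iff, implies_true, and_true] at h
    push_cast at h ⊢
    obtain ⟨h0, h1, h2, h3⟩ := h
    refine ⟨⟨?_, ?_⟩, ?_, ?_⟩ <;> linarith

theorem TQ_rg47 : ROK [.q ⟨17, -19, -28, 30⟩ ⟨-3926, 7, 1879, 2040⟩, .q ⟨17, -19, -28, 30⟩ ⟨2484, -4221, 807, 930⟩, .q ⟨17, -19, -28, 30⟩ ⟨4721, -1491, -1640, -1590⟩, .q ⟨17, -19, -28, 30⟩ ⟨2311, 1793, -2064, -2040⟩] := by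
  refine rok_w (v := ⟨17, -19, -28, 30⟩) (q := 1) (by decide) (by decide) (by decide) TQ_sc (k := 1) (by decide) (Q := [(1299, 3783, 68), (-3632, 1675, 31), (-2498, -3124, -53), (501, -3968, -68)])
    (P := [⟨2088960, 1299, 3783⟩, ⟨952320, -3632, 1675⟩, ⟨-1628160, -2498, -3124⟩, ⟨-2088960, 501, -3968⟩]) rfl rfl
    (List.mem_of_getElem? (i := 47) rfl) TQ_fr TQ_cov ?_
  · intro X Y h
    simp only [List.forall_mem_cons, List.not_mem_nil, false_imp_iff, implies_true, and_true] at h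
    push_cast at h ⊢
    obtain ⟨h0, h1, h2, h3⟩ := h
    refine ⟨⟨?_, ?_⟩, ?_, ?_⟩ <;> linarith

end Pool.Agent.TET
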