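import Pool.Agent.Helper38_TET.TQ_C

/-!
# MP_c7c9bf_co: certificates, family TQ
-/

set_option autoImplicit false
set_option maxRecDepth 100000

namespace Pool.Agent.TET

theorem TQ_rg48 : ROK [.q ⟨17, -19, -28, 30⟩ ⟨-4785, 2210, 1105, 1470⟩, .q ⟨17, -19, -28, 30⟩ ⟨-1047, -2789, 1826, 2010⟩, .q ⟨17, -19, -28, 30⟩ ⟨4062, -4019, -73, 30⟩, .q ⟨17, -19, -28, 30⟩ ⟨2420, -939, -761, -720⟩, .q ⟨17, -19, -28, 30⟩ ⟨1193, 2664, -1937, -1920⟩] := by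
  refine rok_w (v := ⟨17, -19, -28, 30⟩) (q := 1) (by decide) (by decide) (by decide) TQ_sc (k := 1) (by decide) (Q := [(3141, 2477, 49), (-1516, 3702, 67), (-4000, -45, 1), (-1395, -1433, -24), (1448, -3729, -64)])
    (P := [⟨1505280, 3141, 2477⟩, ⟨2058240, -1516, 3702⟩, ⟨30720, -4000, -45⟩, ⟨-737280, -1395, -1433⟩, ⟨-1966080, 1448, -3729⟩]) rfl rfl
    (List.mem_of_getElem? (i := 48) rfl) TQ_fr TQ_cov ?_
  · intro X Y h
    simp only [List.forall_mem_cons, List.not_mem_nil, false_imp_iff, implies_true, and_true] at h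
    push_cast at h ⊢
    obtain ⟨h0, h1, h2, h3, h4⟩ := h
    refine ⟨⟨?_, ?_⟩, ?_, ?_⟩ <;> linarith

theorem TQ_rg49 : ROK [.q ⟨17, -19, -28, 30⟩ ⟨4866, -2962, -974, -930⟩, .q ⟨17, -19, -28, 30⟩ ⟨708, 2969, -1877, -1800⟩, .q ⟨17, -19, -28, 30⟩ ⟨-4755, 1821, 1344, 1590⟩, .q ⟨17, -19, -28, 30⟩ ⟨221, -954, 343, 390⟩] := by
  refine rok_w (v := ⟨17, -19, -28, 30⟩) (q := 1) (by decide) (by decide) (by decide) TQ_sc (k := 1) (by decide) (Q := [(-3551, -1842, -31), (1829, -3557, -60), (2828, 2828, 53), (-707, 707, 13)])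
    (P := [⟨-952320, -3551, -1842⟩, ⟨-1843200, 1829, -3557⟩, ⟨1628160, 2828, 2828⟩, ⟨399360, -707, 707⟩]) rfl rfl
    (List.mem_of_getElem? (i := 49) rfl) TQ_fr TQ_cov ?_
  · intro X Y h
    simp only [List.forall_mem_cons, List.not_mem_nil, false_imp_iff, implies_true, and_true] at h
    push_cast at h ⊢
    obtain ⟨h0, h1, h2, h3⟩ := h
    refine ⟨⟨?_, ?_⟩, ?_, ?_⟩ <;> linarith

theorem TQ_rg50 : ROK [.q ⟨17, -19, -28, 30⟩ ⟨445, 3123, -1828, -1740⟩, .q ⟨17, -19, -28, 30⟩ ⟨-4547, 3334, 433, 780⟩, .q ⟨17, -19, -28, 30⟩ ⟨-853, -2917, 1790, 1980⟩, .q ⟨17, -19, -28, 30⟩ ⟨3983, -3981, 28, -30⟩] := by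
  refine rok_w (v := ⟨17, -19, -28, 30⟩) (q := 1) (by decide) (by decide) (by decide) TQ_sc (k := 1) (by decide) (Q := [(2021, -3452, -58), (3828, 1161, 26), (-1663, 3638, 66), (-4000, 0, -1)])
    (P := [⟨-1781760, 2021, -3452⟩, ⟨798720, 3828, 1161⟩, ⟨2027520, -1663, 3638⟩, ⟨-30720, -4000, 0⟩]) rfl rfl
    (List.mem_of_getElem? (i := 50) rfl) TQ_fr TQ_cov ?_
  · intro X Y h
    simp only [List.forall_mem_cons, List.not_mem_nil, false_imp_iff, implies_true, and_true] at h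
    push_cast at h ⊢
    obtain ⟨h0, h1, h2, h3⟩ := h
    refine ⟨⟨?_, ?_⟩, ?_, ?_⟩ <;> linarith

theorem TQ_rg51 : ROK [.q ⟨17, -19, -28, 30⟩ ⟨4435, -818, -1847, -1770⟩, .q ⟨17, -19, -28, 30⟩ ⟨571, 3051, -1852, -1770⟩, .q ⟨17, -19, -28, 30⟩ ⟨-4780, 2477, 953, 1350⟩, .q ⟨17, -19, -28, 30⟩ ⟨-779, -595, 654, 720⟩, .q ⟨17, -19, -28, 30⟩ ⟨4017, -4019, -28, 30⟩] := by
  refine rok_w (v := ⟨17, -19, -28, 30⟩) (q := 1) (by decide) (by decide) (by decide) TQ_sc (k := 1) (by decide) (Q := [(-1939, -3499, -59), (1930, -3504, -59), (3332, 2213, 45), (-139, 1326, 24), (-4000, 0, 1)])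
    (P := [⟨-1812480, -1939, -3499⟩, ⟨-1812480, 1930, -3504⟩, ⟨1382400, 3332, 2213⟩, ⟨737280, -139, 1326⟩, ⟨30720, -4000, 0⟩]) rfl rfl
    (List.mem_of_getElem? (i := 51) rfl) TQ_fr TQ_cov ?_
  · intro X Y h
    simp only [List.forall_mem_cons, List.not_mem_nil, false_imp_iff, implies_true, and_true] at h
    push_cast at h ⊢
    obtain ⟨h0, h1, h2, h3, h4⟩ := h
    refine ⟨⟨?_, ?_⟩, ?_, ?_⟩ <;> linarith

theorem TQ_rg52 : ROK [.q ⟨17, -19, -28, 30⟩ ⟨-4134, 339, 1785, 2010⟩, .q ⟨17, -19, -28, 30⟩ ⟨2033, -4094, 1071, 990⟩, .q ⟨17, -19, -28, 30⟩ ⟨1014, 2777, -1931, -1860⟩] := by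
  refine rok_w (v := ⟨17, -19, -28, 30⟩) (q := 1) (by decide) (by decide) (by decide) TQ_sc (k := 1) (by decide) (Q := [(1612, 3661, 67), (-3467, 1995, 33), (1599, -3667, -62)])
    (P := [⟨2058240, 1612, 3661⟩, ⟨1013760, -3467, 1995⟩, ⟨-1904640, 1599, -3667⟩]) rfl rfl
    (List.mem_of_getElem? (i := 52) rfl) TQ_fr TQ_cov ?_
  · intro X Y h
    simp only [List.forall_mem_cons, List.not_mem_nil, false_imp_iff, implies_true, and_true] at h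
    push_cast at h ⊢
    obtain ⟨h0, h1, h2⟩ := h
    refine ⟨⟨?_, ?_⟩, ?_, ?_⟩ <;> linarith

theorem TQ_rg53 : ROK [.q ⟨17, -19, -28, 30⟩ ⟨-837, 1972, -655, -480⟩, .q ⟨17, -19, -28, 30⟩ ⟨-4759, 2026, 1173, 1560⟩, .q ⟨17, -19, -28, 30⟩ ⟨-3252, -859, 1921, 2190⟩, .q ⟨17, -19, -28, 30⟩ ⟨4555, -3511, -474, -570⟩, .q ⟨17, -19, -28, 30⟩ ⟨3995, -99, -1916, -1980⟩] := by
  refine rok_w (v := ⟨17, -19, -28, 30⟩) (q := 1) (by decide) (by decide) (by decide) TQ_sc (k := 1) (by decide) (Q := [(1668, -1103, -16), (3014, 2629, 52), (528, 3965, 73), (-3872, -1006, -19), (-1353, -3764, -66)])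
    (P := [⟨-491520, 1668, -1103⟩, ⟨1597440, 3014, 2629⟩, ⟨2242560, 528, 3965⟩, ⟨-583680, -3872, -1006⟩, ⟨-2027520, -1353, -3764⟩]) rfl rfl
    (List.mem_of_getElem? (i := 53) rfl) TQ_fr TQ_cov ?_
  · intro X Y h
    simp only [List.forall_mem_cons, List.not_mem_nil, false_imp_iff, implies_true, and_true] at h
    push_cast at h ⊢
    obtain ⟨h0, h1, h2, h3, h4⟩ := h
    refine ⟨⟨?_, ?_⟩, ?_, ?_⟩ <;> linarith

theorem TQ_rg54 : ROK [.q ⟨17, -19, -28, 30⟩ ⟨866, 2871, -1907, -1830⟩, .q ⟨17, -19, -28, 30⟩ ⟨-3362, 4121, -459, -300⟩, .q ⟨17, -19, -28, 30⟩ ⟨-3341, -755, 1906, 2190⟩, .q ⟨17, -19, -28, 30⟩ ⟨776, -2019, 583, 660⟩, .q ⟨17, -19, -28, 30⟩ ⟨4857, -1982, -1465, -1410⟩] := by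
  refine rok_w (v := ⟨17, -19, -28, 30⟩) (q := 1) (by decide) (by decide) (by decide) TQ_sc (k := 1) (by decide) (Q := [(1712, -3615, -61), (3931, -739, -10), (632, 3950, 73), (-1601, 1199, 22), (-2875, -2781, -47)])
    (P := [⟨-1873920, 1712, -3615⟩, ⟨-307200, 3931, -739⟩, ⟨2242560, 632, 3950⟩, ⟨675840, -1601, 1199⟩, ⟨-1443840, -2875, -2781⟩]) rfl rfl
    (List.mem_of_getElem? (i := 54) rfl) TQ_fr TQ_cov ?_
  · intro X Y h
    simp only [List.forall_mem_cons, List.not_mem_nil, false_imp_iff, implies_true, and_true] at h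
    push_cast at h ⊢
    obtain ⟨h0, h1, h2, h3, h4⟩ := h
    refine ⟨⟨?_, ?_⟩, ?_, ?_⟩ <;> linarith

theorem TQ_rg55 : ROK [.q ⟨17, -19, -28, 30⟩ ⟨-2793, -1349, 2012, 2130⟩, .q ⟨17, -19, -28, 30⟩ ⟨4293, -3885, -258, -150⟩, .q ⟨17, -19, -28, 30⟩ ⟨3013, 1121, -2064, -2070⟩, .q ⟨17, -19, -28, 30⟩ ⟨-1144, 3822, -1448, -1230⟩] := by
  refine rok_w (v := ⟨17, -19, -28, 30⟩) (q := 1) (by decide) (by decide) (by decide) TQ_sc (k := 1) (by decide) (Q := [(0, 4000, 71), (-3980, -398, -5), (-190, -3996, -69), (3043, -2596, -41)])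
    (P := [⟨2181120, 0, 4000⟩, ⟨-153600, -3980, -398⟩, ⟨-2119680, -190, -3996⟩, ⟨-1259520, 3043, -2596⟩]) rfl rfl
    (List.mem_of_getElem? (i := 55) rfl) TQ_fr TQ_cov ?_
  · intro X Y h
    simp only [List.forall_mem_cons, List.not_mem_nil, false_imp_iff, implies_true, and_true] at h
    push_cast at h ⊢
    obtain ⟨h0, h1, h2, h3⟩ := h
    refine ⟨⟨?_, ?_⟩, ?_, ?_⟩ <;> linarith

theorem TQ_rg56 : ROK [.q ⟨17, -19, -28, 30⟩ ⟨1542, 2411, -2003, -1950⟩, .q ⟨17, -19, -28, 30⟩ ⟨-1755, -277, 982, 1050⟩, .q ⟨17, -19, -28, 30⟩ ⟨4883, -2475, -1178, -1230⟩] := by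
  refine rok_w (v := ⟨17, -19, -28, 30⟩) (q := 1) (by decide) (by decide) (by decide) TQ_sc (k := 1) (by decide) (Q := [(1176, -3823, -65), (388, 1962, 35), (-3254, -2326, -41)])
    (P := [⟨-1996800, 1176, -3823⟩, ⟨1075200, 388, 1962⟩, ⟨-1259520, -3254, -2326⟩]) rfl rfl
    (List.mem_of_getElem? (i := 56) rfl) TQ_fr TQ_cov ?_
  · intro X Y h
    simp only [List.forall_mem_cons, List.not_mem_nil, false_imp_iff, implies_true, and_true] at h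
    push_cast at h ⊢
    obtain ⟨h0, h1, h2⟩ := h
    refine ⟨⟨?_, ?_⟩, ?_, ?_⟩ <;> linarith

theorem TQ_rg57 : ROK [.q ⟨17, -19, -28, 30⟩ ⟨-4179, 3731, 58, 390⟩, .q ⟨17, -19, -28, 30⟩ ⟨-2759, -1387, 1956, 2190⟩, .q ⟨17, -19, -28, 30⟩ ⟨4868, -2511, -1127, -1230⟩, .q ⟨17, -19, -28, 30⟩ ⟨1014, 2777, -1931, -1860⟩] := by
  refine rok_w (v := ⟨17, -19, -28, 30⟩) (q := 1) (by decide) (by decide) (by decide) TQ_sc (k := 1) (by decide) (Q := [(3978, 422, 13), (0, 4000, 73), (-3290, -2275, -41), (1599, -3667, -62)])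
    (P := [⟨399360, 3978, 422⟩, ⟨2242560, 0, 4000⟩, ⟨-1259520, -3290, -2275⟩, ⟨-1904640, 1599, -3667⟩]) rfl rfl
    (List.mem_of_getElem? (i := 57) rfl) TQ_fr TQ_cov ?_
  · intro X Y h
    simp only [List.forall_mem_cons, List.not_mem_nil, false_imp_iff, implies_true, and_true] at h
    push_cast at h ⊢
    obtain ⟨h0, h1, h2, h3⟩ := h
    refine ⟨⟨?_, ?_⟩, ?_, ?_⟩ <;> linarith

theorem TQ_rg58 : ROK [.q ⟨17, -19, -28, 30⟩ ⟨577, 3047, -1854, -1770⟩, .q ⟨17, -19, -28, 30⟩ ⟨-3027, -1108, 2005, 2130⟩, .q ⟨17, -19, -28, 30⟩ ⟨2054, -4165, 971, 1140⟩, .q ⟨17, -19, -28, 30⟩ ⟨4869, -2078, -1411, -1380⟩] := by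
  refine rok_w (v := ⟨17, -19, -28, 30⟩) (q := 1) (by decide) (by decide) (by decide) TQ_sc (k := 1) (by decide) (Q := [(1926, -3506, -59), (241, 3993, 71), (-3443, 2035, 38), (-2952, -2699, -46)])
    (P := [⟨-1812480, 1926, -3506⟩, ⟨2181120, 241, 3993⟩, ⟨1167360, -3443, 2035⟩, ⟨-1413120, -2952, -2699⟩]) rfl rfl
    (List.mem_of_getElem? (i := 58) rfl) TQ_fr TQ_cov ?_
  · intro X Y h
    simp only [List.forall_mem_cons, List.not_mem_nil, false_imp_iff, implies_true, and_true] at h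
    push_cast at h ⊢
    obtain ⟨h0, h1, h2, h3⟩ := h
    refine ⟨⟨?_, ?_⟩, ?_, ?_⟩ <;> linarith

theorem TQ_rg59 : ROK [.q ⟨17, -19, -28, 30⟩ ⟨-4348, 3547, 201, 600⟩, .q ⟨17, -19, -28, 30⟩ ⟨-1432, -2501, 1953, 1980⟩, .q ⟨17, -19, -28, 30⟩ ⟨3171, -4198, 517, 510⟩, .q ⟨17, -19, -28, 30⟩ ⟨1015, 2776, -1931, -1860⟩] := by
  refine rok_w (v := ⟨17, -19, -28, 30⟩) (q := 1) (by decide) (by decide) (by decide) TQ_sc (k := 1) (by decide) (Q := [(3927, 761, 20), (-1247, 3801, 66), (-3875, 993, 17), (1598, -3667, -62)])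
    (P := [⟨614400, 3927, 761⟩, ⟨2027520, -1247, 3801⟩, ⟨522240, -3875, 993⟩, ⟨-1904640, 1598, -3667⟩]) rfl rfl
    (List.mem_of_getElem? (i := 59) rfl) TQ_fr TQ_cov ?_
  · intro X Y h
    simp only [List.forall_mem_cons, List.not_mem_nil, false_imp_iff, implies_true, and_true] at h
    push_cast at h ⊢
    obtain ⟨h0, h1, h2, h3⟩ := h
    refine ⟨⟨?_, ?_⟩, ?_, ?_⟩ <;> linarith

theorem TQ_rg60 : ROK [.q ⟨17, -19, -28, 30⟩ ⟨4111, -278, -1883, -1950⟩, .q ⟨17, -19, -28, 30⟩ ⟨-799, 3700, -1551, -1350⟩, .q ⟨17, -19, -28, 30⟩ ⟨-4791, 2453, 988, 1350⟩, .q ⟨17, -19, -28, 30⟩ ⟨-1220, -2664, 1874, 2010⟩] := by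
  refine rok_w (v := ⟨17, -19, -28, 30⟩) (q := 1) (by decide) (by decide) (by decide) TQ_sc (k := 1) (by decide) (Q := [(-1513, -3703, -65), (2845, -2811, -45), (3308, 2248, 45), (-1391, 3750, 67)])
    (P := [⟨-1996800, -1513, -3703⟩, ⟨-1382400, 2845, -2811⟩, ⟨1382400, 3308, 2248⟩, ⟨2058240, -1391, 3750⟩]) rfl rfl
    (List.mem_of_getElem? (i := 60) rfl) TQ_fr TQ_cov ?_
  · intro X Y h
    simp only [List.forall_mem_cons, List.not_mem_nil, false_imp_iff, implies_true, and_true] at h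
    push_cast at h ⊢
    obtain ⟨h0, h1, h2, h3⟩ := h
    refine ⟨⟨?_, ?_⟩, ?_, ?_⟩ <;> linarith

theorem TQ_rg61 : ROK [.q ⟨17, -19, -28, 30⟩ ⟨221, -954, 343, 390⟩, .q ⟨17, -19, -28, 30⟩ ⟨2323, -664, -819, -840⟩, .q ⟨17, -19, -28, 30⟩ ⟨223, 1561, -914, -870⟩, .q ⟨17, -19, -28, 30⟩ ⟨-783, 781, -28, 30⟩, .q ⟨17, -19, -28, 30⟩ ⟨-3829, -119, 1818, 2130⟩] := by
  refine rok_w (v := ⟨17, -19, -28, 30⟩) (q := 1) (by decide) (by decide) (by decide) TQ_sc (k := 1) (by decide) (Q := [(-707, 707, 13), (-1196, -1603, -28), (1010, -1726, -29), (800, 0, 1), (1230, 3806, 71)])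
    (P := [⟨399360, -707, 707⟩, ⟨-860160, -1196, -1603⟩, ⟨-890880, 1010, -1726⟩, ⟨30720, 800, 0⟩, ⟨2181120, 1230, 3806⟩]) rfl rfl
    (List.mem_of_getElem? (i := 61) rfl) TQ_fr TQ_cov ?_
  · intro X Y h
    simp only [List.forall_mem_cons, List.not_mem_nil, false_imp_iff, implies_true, and_true] at h
    push_cast at h ⊢
    obtain ⟨h0, h1, h2, h3, h4⟩ := h
    refine ⟨⟨?_, ?_⟩, ?_, ?_⟩ <;> linarith

theorem TQ_rg62 : ROK [.q ⟨17, -19, -28, 30⟩ ⟨1540, 2413, -2003, -1950⟩, .q ⟨17, -19, -28, 30⟩ ⟨-4639, 3175, 564, 900⟩, .q ⟨17, -19, -28, 30⟩ ⟨-1101, -2750, 1841, 2010⟩, .q ⟨17, -19, -28, 30⟩ ⟨4718, -3361, -697, -660⟩] := by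
  refine rok_w (v := ⟨17, -19, -28, 30⟩) (q := 1) (by decide) (by decide) (by decide) TQ_sc (k := 1) (by decide) (Q := [(1178, -3823, -65), (3745, 1404, 30), (-1477, 3717, 67), (-3779, -1313, -22)])
    (P := [⟨-1996800, 1178, -3823⟩, ⟨921600, 3745, 1404⟩, ⟨2058240, -1477, 3717⟩, ⟨-675840, -3779, -1313⟩]) rfl rfl
    (List.mem_of_getElem? (i := 62) rfl) TQ_fr TQ_cov ?_
  · intro X Y h
    simp only [List.forall_mem_cons, List.not_mem_nil, false_imp_iff, implies_true, and_true] at h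
    push_cast at h ⊢
    obtain ⟨h0, h1, h2, h3⟩ := h
    refine ⟨⟨?_, ?_⟩, ?_, ?_⟩ <;> linarith

theorem TQ_rg63 : ROK [.q ⟨17, -19, -28, 30⟩ ⟨-4540, 1156, 1554, 1830⟩, .q ⟨17, -19, -28, 30⟩ ⟨221, -954, 343, 390⟩, .q ⟨17, -19, -28, 30⟩ ⟨4878, -2161, -1367, -1350⟩, .q ⟨17, -19, -28, 30⟩ ⟨577, 3047, -1854, -1770⟩] := by
  refine rok_w (v := ⟨17, -19, -28, 30⟩) (q := 1) (by decide) (by decide) (by decide) TQ_sc (k := 1) (by decide) (Q := [(2315, 3262, 61), (-707, 707, 13), (-3016, -2627, -45), (1926, -3506, -59)])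
    (P := [⟨1873920, 2315, 3262⟩, ⟨399360, -707, 707⟩, ⟨-1382400, -3016, -2627⟩, ⟨-1812480, 1926, -3506⟩]) rfl rfl
    (List.mem_of_getElem? (i := 63) rfl) TQ_fr TQ_cov ?_
  · intro X Y h
    simp only [List.forall_mem_cons, List.not_mem_nil, false_imp_iff, implies_true, and_true] at h
    push_cast at h ⊢
    obtain ⟨h0, h1, h2, h3⟩ := h
    refine ⟨⟨?_, ?_⟩, ?_, ?_⟩ <;> linarith

theorem TQ_rg64 : ROK [.q ⟨17, -19, -28, 30⟩ ⟨1983, -1981, 28, -30⟩, .q ⟨17, -19, -28, 30⟩ ⟨4113, -281, -1882, -1950⟩, .q ⟨17, -19, -28, 30⟩ ⟨-4227, 3638, 79, 510⟩, .q ⟨17, -19, -28, 30⟩ ⟨-4593, 1316, 1477, 1800⟩] := by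
  refine rok_w (v := ⟨17, -19, -28, 30⟩) (q := 1) (by decide) (by decide) (by decide) TQ_sc (k := 1) (by decide) (Q := [(-2000, 0, -1), (-1516, -3702, -65), (3961, 555, 17), (2456, 3157, 60)])
    (P := [⟨-30720, -2000, 0⟩, ⟨-1996800, -1516, -3702⟩, ⟨522240, 3961, 555⟩, ⟨1843200, 2456, 3157⟩]) rfl rfl
    (List.mem_of_getElem? (i := 64) rfl) TQ_fr TQ_cov ?_
  · intro X Y h
    simp only [List.forall_mem_cons, List.not_mem_nil, false_imp_iff, implies_true, and_true] at h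
    push_cast at h ⊢
    obtain ⟨h0, h1, h2, h3⟩ := h
    refine ⟨⟨?_, ?_⟩, ?_, ?_⟩ <;> linarith

theorem TQ_rg65 : ROK [.q ⟨17, -19, -28, 30⟩ ⟨-4828, 2364, 1114, 1350⟩, .q ⟨17, -19, -28, 30⟩ ⟨3245, -4181, 486, 450⟩, .q ⟨17, -19, -28, 30⟩ ⟨1543, 2410, -2003, -1950⟩] := by
  refine rok_w (v := ⟨17, -19, -28, 30⟩) (q := 1) (by decide) (by decide) (by decide) TQ_sc (k := 1) (by decide) (Q := [(3219, 2374, 45), (-3896, 906, 15), (1175, -3823, -65)])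
    (P := [⟨1382400, 3219, 2374⟩, ⟨460800, -3896, 906⟩, ⟨-1996800, 1175, -3823⟩]) rfl rfl
    (List.mem_of_getElem? (i := 65) rfl) TQ_fr TQ_cov ?_
  · intro X Y h
    simp only [List.forall_mem_cons, List.not_mem_nil, false_imp_iff, implies_true, and_true] at h
    push_cast at h ⊢
    obtain ⟨h0, h1, h2⟩ := h
    refine ⟨⟨?_, ?_⟩, ?_, ?_⟩ <;> linarith

theorem TQ_rg66 : ROK [.q ⟨17, -19, -28, 30⟩ ⟨1251, -3916, 1315, 1350⟩, .q ⟨17, -19, -28, 30⟩ ⟨3215, 902, -2077, -2040⟩, .q ⟨17, -19, -28, 30⟩ ⟨1015, 2776, -1931, -1860⟩, .q ⟨17, -19, -28, 30⟩ ⟨-4156, 379, 1767, 2010⟩] := by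
  refine rok_w (v := ⟨17, -19, -28, 30⟩) (q := 1) (by decide) (by decide) (by decide) TQ_sc (k := 1) (by decide) (Q := [(-3061, 2575, 45), (-390, -3981, -68), (1598, -3667, -62), (1652, 3643, 67)])
    (P := [⟨1382400, -3061, 2575⟩, ⟨-2088960, -390, -3981⟩, ⟨-1904640, 1598, -3667⟩, ⟨2058240, 1652, 3643⟩]) rfl rfl
    (List.mem_of_getElem? (i := 66) rfl) TQ_fr TQ_cov ?_
  · intro X Y h
    simp only [List.forall_mem_cons, List.not_mem_nil, false_imp_iff, implies_true, and_true] at h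
    push_cast at h ⊢
    obtain ⟨h0, h1, h2, h3⟩ := h
    refine ⟨⟨?_, ?_⟩, ?_, ?_⟩ <;> linarith

theorem TQ_rg67 : ROK [.q ⟨17, -19, -28, 30⟩ ⟨867, -3797, 1400, 1530⟩, .q ⟨17, -19, -28, 30⟩ ⟨4858, -1965, -1483, -1410⟩, .q ⟨17, -19, -28, 30⟩ ⟨832, 2894, -1896, -1830⟩, .q ⟨17, -19, -28, 30⟩ ⟨-4628, 1426, 1432, 1770⟩] := by
  refine rok_w (v := ⟨17, -19, -28, 30⟩) (q := 1) (by decide) (by decide) (by decide) TQ_sc (k := 1) (by decide) (Q := [(-2828, 2828, 51), (-2858, -2799, -47), (1735, -3604, -61), (2547, 3084, 59)])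
    (P := [⟨1566720, -2828, 2828⟩, ⟨-1443840, -2858, -2799⟩, ⟨-1873920, 1735, -3604⟩, ⟨1812480, 2547, 3084⟩]) rfl rfl
    (List.mem_of_getElem? (i := 67) rfl) TQ_fr TQ_cov ?_
  · intro X Y h
    simp only [List.forall_mem_cons, List.not_mem_nil, false_imp_iff, implies_true, and_true] at h
    push_cast at h ⊢
    obtain ⟨h0, h1, h2, h3⟩ := h
    refine ⟨⟨?_, ?_⟩, ?_, ?_⟩ <;> linarith

theorem TQ_rg68 : ROK [.q ⟨17, -19, -28, 30⟩ ⟨-2703, -1438, 2011, 2130⟩, .q ⟨17, -19, -28, 30⟩ ⟨4792, -3133, -819, -840⟩, .q ⟨17, -19, -28, 30⟩ ⟨222, 1562, -914, -870⟩] := by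
  refine rok_w (v := ⟨17, -19, -28, 30⟩) (q := 1) (by decide) (by decide) (by decide) TQ_sc (k := 1) (by decide) (Q := [(-89, 3999, 71), (-3665, -1603, -28), (1011, -1726, -29)])
    (P := [⟨2181120, -89, 3999⟩, ⟨-860160, -3665, -1603⟩, ⟨-890880, 1011, -1726⟩]) rfl rfl
    (List.mem_of_getElem? (i := 68) rfl) TQ_fr TQ_cov ?_
  · intro X Y h
    simp only [List.forall_mem_cons, List.not_mem_nil, false_imp_iff, implies_true, and_true] at h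
    push_cast at h ⊢
    obtain ⟨h0, h1, h2⟩ := h
    refine ⟨⟨?_, ?_⟩, ?_, ?_⟩ <;> linarith

theorem TQ_rg69 : ROK [.q ⟨17, -19, -28, 30⟩ ⟨-4721, 1783, 1288, 1650⟩, .q ⟨17, -19, -28, 30⟩ ⟨387, -3586, 1549, 1650⟩, .q ⟨17, -19, -28, 30⟩ ⟨3740, 265, -1995, -2010⟩, .q ⟨17, -19, -28, 30⟩ ⟨319, 3193, -1802, -1710⟩] := by
  refine rok_w (v := ⟨17, -19, -28, 30⟩) (q := 1) (by decide) (by decide) (by decide) TQ_sc (k := 1) (by decide) (Q := [(2828, 2828, 55), (-2541, 3089, 55), (-1008, -3871, -67), (2110, -3398, -57)])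
    (P := [⟨1689600, 2828, 2828⟩, ⟨1689600, -2541, 3089⟩, ⟨-2058240, -1008, -3871⟩, ⟨-1751040, 2110, -3398⟩]) rfl rfl
    (List.mem_of_getElem? (i := 69) rfl) TQ_fr TQ_cov ?_
  · intro X Y h
    simp only [List.forall_mem_cons, List.not_mem_nil, false_imp_iff, implies_true, and_true] at h
    push_cast at h ⊢
    obtain ⟨h0, h1, h2, h3⟩ := h
    refine ⟨⟨?_, ?_⟩, ?_, ?_⟩ <;> linarith

theorem TQ_rg70 : ROK [.q ⟨17, -19, -28, 30⟩ ⟨-212, -3293, 1675, 1830⟩, .q ⟨17, -19, -28, 30⟩ ⟨4909, -2324, -1325, -1260⟩, .q ⟨17, -19, -28, 30⟩ ⟨572, 3050, -1852, -1770⟩, .q ⟨17, -19, -28, 30⟩ ⟨-4794, 2329, 1055, 1410⟩] := by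
  refine rok_w (v := ⟨17, -19, -28, 30⟩) (q := 1) (by decide) (by decide) (by decide) TQ_sc (k := 1) (by decide) (Q := [(-2134, 3383, 61), (-3122, -2501, -42), (1929, -3504, -59), (3222, 2371, 47)])
    (P := [⟨1873920, -2134, 3383⟩, ⟨-1290240, -3122, -2501⟩, ⟨-1812480, 1929, -3504⟩, ⟨1443840, 3222, 2371⟩]) rfl rfl
    (List.mem_of_getElem? (i := 70) rfl) TQ_fr TQ_cov ?_
  · intro X Y h
    simp only [List.forall_mem_cons, List.not_mem_nil, false_imp_iff, implies_true, and_true] at h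
    push_cast at h ⊢
    obtain ⟨h0, h1, h2, h3⟩ := h
    refine ⟨⟨?_, ?_⟩, ?_, ?_⟩ <;> linarith

theorem TQ_rg71 : ROK [.q ⟨17, -19, -28, 30⟩ ⟨220, 1563, -913, -870⟩, .q ⟨17, -19, -28, 30⟩ ⟨-4721, 1783, 1288, 1650⟩, .q ⟨17, -19, -28, 30⟩ ⟨161, -3488, 1587, 1740⟩, .q ⟨17, -19, -28, 30⟩ ⟨1210, -479, -371, -360⟩] := by
  refine rok_w (v := ⟨17, -19, -28, 30⟩) (q := 1) (by decide) (by decide) (by decide) TQ_sc (k := 1) (by decide) (Q := [(1012, -1725, -29), (2828, 2828, 55), (-2386, 3211, 58), (-707, -707, -12)])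
    (P := [⟨-890880, 1012, -1725⟩, ⟨1689600, 2828, 2828⟩, ⟨1781760, -2386, 3211⟩, ⟨-368640, -707, -707⟩]) rfl rfl
    (List.mem_of_getElem? (i := 71) rfl) TQ_fr TQ_cov ?_
  · intro X Y h
    simp only [List.forall_mem_cons, List.not_mem_nil, false_imp_iff, implies_true, and_true] at h
    push_cast at h ⊢
    obtain ⟨h0, h1, h2, h3⟩ := h
    refine ⟨⟨?_, ?_⟩, ?_, ?_⟩ <;> linarith

end Pool.Agent.TET
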