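import Pool.Agent.Helper38_TET.TQ_C

/-!
# MP_c7c9bf_co: certificates, family TQ
-/

set_option autoImplicit false
set_option maxRecDepth 100000

namespace Pool.Agent.TET

theorem TQ_rg72 : ROK [.q ⟨17, -19, -28, 30⟩ ⟨-134, -3341, 1645, 1830⟩, .q ⟨17, -19, -28, 30⟩ ⟨4878, -2948, -1000, -930⟩, .q ⟨17, -19, -28, 30⟩ ⟨711, 323, -524, -510⟩, .q ⟨17, -19, -28, 30⟩ ⟨443, 3124, -1827, -1740⟩, .q ⟨17, -19, -28, 30⟩ ⟨-4357, 760, 1647, 1950⟩] := by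
  refine rok_w (v := ⟨17, -19, -28, 30⟩) (q := 1) (by decide) (by decide) (by decide) TQ_sc (k := 1) (by decide) (Q := [(-2182, 3353, 61), (-3537, -1868, -31), (0, -1000, -17), (2022, -3451, -58), (1995, 3467, 65)])
    (P := [⟨1873920, -2182, 3353⟩, ⟨-952320, -3537, -1868⟩, ⟨-522240, 0, -1000⟩, ⟨-1781760, 2022, -3451⟩, ⟨1996800, 1995, 3467⟩]) rfl rfl
    (List.mem_of_getElem? (i := 72) rfl) TQ_fr TQ_cov ?_
  · intro X Y h
    simp only [List.forall_mem_cons, List.not_mem_nil, false_imp_iff, implies_true, and_true] at h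
    push_cast at h ⊢
    obtain ⟨h0, h1, h2, h3, h4⟩ := h
    refine ⟨⟨?_, ?_⟩, ?_, ?_⟩ <;> linarith

theorem TQ_rg73 : ROK [.q ⟨17, -19, -28, 30⟩ ⟨1526, 2423, -1999, -1950⟩, .q ⟨17, -19, -28, 30⟩ ⟨-2396, 1038, 608, 750⟩, .q ⟨17, -19, -28, 30⟩ ⟨867, -3797, 1400, 1530⟩, .q ⟨17, -19, -28, 30⟩ ⟨1637, -770, -447, -420⟩] := by
  refine rok_w (v := ⟨17, -19, -28, 30⟩) (q := 1) (by decide) (by decide) (by decide) TQ_sc (k := 1) (by decide) (Q := [(1188, -3819, -65), (1513, 1308, 25), (-2828, 2828, 51), (-1036, -839, -14)])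
    (P := [⟨-1996800, 1188, -3819⟩, ⟨768000, 1513, 1308⟩, ⟨1566720, -2828, 2828⟩, ⟨-430080, -1036, -839⟩]) rfl rfl
    (List.mem_of_getElem? (i := 73) rfl) TQ_fr TQ_cov ?_
  · intro X Y h
    simp only [List.forall_mem_cons, List.not_mem_nil, false_imp_iff, implies_true, and_true] at h
    push_cast at h ⊢
    obtain ⟨h0, h1, h2, h3⟩ := h
    refine ⟨⟨?_, ?_⟩, ?_, ?_⟩ <;> linarith

theorem TQ_rg74 : ROK [.q ⟨17, -19, -28, 30⟩ ⟨1021, 2772, -1933, -1860⟩, .q ⟨17, -19, -28, 30⟩ ⟨-1301, 3893, -1362, -1230⟩, .q ⟨17, -19, -28, 30⟩ ⟨-1699, -2306, 1965, 2040⟩, .q ⟨17, -19, -28, 30⟩ ⟨1, -1, 0, 0⟩] := by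
  refine rok_w (v := ⟨17, -19, -28, 30⟩) (q := 1) (by decide) (by decide) (by decide) TQ_sc (k := 1) (by decide) (Q := [(1594, -3669, -62), (3114, -2510, -41), (-1014, 3869, 68), (-1, 0, 0)])
    (P := [⟨-1904640, 1594, -3669⟩, ⟨-1259520, 3114, -2510⟩, ⟨2088960, -1014, 3869⟩, ⟨0, -1, 0⟩]) rfl rfl
    (List.mem_of_getElem? (i := 74) rfl) TQ_fr TQ_cov ?_
  · intro X Y h
    simp only [List.forall_mem_cons, List.not_mem_nil, false_imp_iff, implies_true, and_true] at h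
    push_cast at h ⊢
    obtain ⟨h0, h1, h2, h3⟩ := h
    refine ⟨⟨?_, ?_⟩, ?_, ?_⟩ <;> linarith

end Pool.Agent.TET
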