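import Pool.Agent.Helper38_TET.TU_C

/-!
# MP_c7c9bf_co: certificates, family TU
-/

set_option autoImplicit false
set_option maxRecDepth 100000

namespace Pool.Agent.TET

theorem TU_rg24 : ROK [.q ⟨11, -13, -18, 20⟩ ⟨1967, -1961, 54, -60⟩, .q ⟨11, -13, -18, 20⟩ ⟨4615, -1221, -1614, -1780⟩, .q ⟨11, -13, -18, 20⟩ ⟨-3521, 3950, -469, 40⟩, .q ⟨11, -13, -18, 20⟩ ⟨-4225, 432, 1733, 2060⟩] := by
  refine rok_w (v := ⟨11, -13, -18, 20⟩) (q := 1) (by decide) (by decide) (by decide) TU_sc (k := 1) (by decide) (Q := [(-2000, 0, -3), (-2378, -3216, -89), (3976, -433, 2), (1771, 3587, 103)])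
    (P := [⟨-92160, -2000, 0⟩, ⟨-2734080, -2378, -3216⟩, ⟨61440, 3976, -433⟩, ⟨3164160, 1771, 3587⟩]) rfl rfl
    (List.mem_of_getElem? (i := 24) rfl) TU_fr TU_cov ?_
  · intro X Y h
    simp only [List.forall_mem_cons, List.not_mem_nil, false_imp_iff, implies_true, and_true] at h
    push_cast at h ⊢
    obtain ⟨h0, h1, h2, h3⟩ := h
    refine ⟨⟨?_, ?_⟩, ?_, ?_⟩ <;> linarith

theorem TU_rg25 : ROK [.q ⟨11, -13, -18, 20⟩ ⟨-4581, 1241, 1460, 1880⟩, .q ⟨11, -13, -18, 20⟩ ⟨2923, -4117, 754, 440⟩, .q ⟨11, -13, -18, 20⟩ ⟨1363, 740, -1063, -1040⟩, .q ⟨11, -13, -18, 20⟩ ⟨-4114, 3654, -40, 500⟩] := by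
  refine rok_w (v := ⟨11, -13, -18, 20⟩) (q := 1) (by decide) (by decide) (by decide) TU_sc (k := 1) (by decide) (Q := [(2463, 3152, 94), (-3831, 1150, 22), (64, -1999, -52), (3979, 410, 25)])
    (P := [⟨2887680, 2463, 3152⟩, ⟨675840, -3831, 1150⟩, ⟨-1597440, 64, -1999⟩, ⟨768000, 3979, 410⟩]) rfl rfl
    (List.mem_of_getElem? (i := 25) rfl) TU_fr TU_cov ?_
  · intro X Y h
    simp only [List.forall_mem_cons, List.not_mem_nil, false_imp_iff, implies_true, and_true] at h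
    push_cast at h ⊢
    obtain ⟨h0, h1, h2, h3⟩ := h
    refine ⟨⟨?_, ?_⟩, ?_, ?_⟩ <;> linarith

theorem TU_rg26 : ROK [.q ⟨11, -13, -18, 20⟩ ⟨-3552, 3929, -457, 80⟩, .q ⟨11, -13, -18, 20⟩ ⟨-4757, 2015, 1142, 1600⟩, .q ⟨11, -13, -18, 20⟩ ⟨1181, -3897, 1416, 1300⟩, .q ⟨11, -13, -18, 20⟩ ⟨4667, -1378, -1549, -1740⟩, .q ⟨11, -13, -18, 20⟩ ⟨2468, 1711, -2179, -2000⟩] := by
  refine rok_w (v := ⟨11, -13, -18, 20⟩) (q := 1) (by decide) (by decide) (by decide) TU_sc (k := 1) (by decide) (Q := [(3981, -385, 4), (3055, 2582, 80), (-3052, 2586, 65), (-2509, -3115, -87), (411, -3979, -100)])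
    (P := [⟨122880, 3981, -385⟩, ⟨2457600, 3055, 2582⟩, ⟨1996800, -3052, 2586⟩, ⟨-2672640, -2509, -3115⟩, ⟨-3072000, 411, -3979⟩]) rfl rfl
    (List.mem_of_getElem? (i := 26) rfl) TU_fr TU_cov ?_
  · intro X Y h
    simp only [List.forall_mem_cons, List.not_mem_nil, false_imp_iff, implies_true, and_true] at h
    push_cast at h ⊢
    obtain ⟨h0, h1, h2, h3, h4⟩ := h
    refine ⟨⟨?_, ?_⟩, ?_, ?_⟩ <;> linarith

theorem TU_rg27 : ROK [.q ⟨11, -13, -18, 20⟩ ⟨-173, -91, 124, 140⟩, .q ⟨11, -13, -18, 20⟩ ⟨4459, -3526, -353, -580⟩, .q ⟨11, -13, -18, 20⟩ ⟨4563, -1089, -1654, -1820⟩, .q ⟨11, -13, -18, 20⟩ ⟨-3466, 3957, -511, 20⟩, .q ⟨11, -13, -18, 20⟩ ⟨-4681, 2845, 656, 1180⟩] := by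
  refine rok_w (v := ⟨11, -13, -18, 20⟩) (q := 1) (by decide) (by decide) (by decide) TU_sc (k := 1) (by decide) (Q := [(0, 250, 7), (-3903, -875, -29), (-2272, -3292, -91), (3970, -493, 1), (3612, 1718, 59)])
    (P := [⟨215040, 0, 250⟩, ⟨-890880, -3903, -875⟩, ⟨-2795520, -2272, -3292⟩, ⟨30720, 3970, -493⟩, ⟨1812480, 3612, 1718⟩]) rfl rfl
    (List.mem_of_getElem? (i := 27) rfl) TU_fr TU_cov ?_
  · intro X Y h
    simp only [List.forall_mem_cons, List.not_mem_nil, false_imp_iff, implies_true, and_true] at h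
    push_cast at h ⊢
    obtain ⟨h0, h1, h2, h3, h4⟩ := h
    refine ⟨⟨?_, ?_⟩, ?_, ?_⟩ <;> linarith

theorem TU_rg28 : ROK [.q ⟨11, -13, -18, 20⟩ ⟨2483, 1697, -2180, -2000⟩, .q ⟨11, -13, -18, 20⟩ ⟨-3863, 3805, -242, 300⟩, .q ⟨11, -13, -18, 20⟩ ⟨-703, -351, 514, 540⟩, .q ⟨11, -13, -18, 20⟩ ⟨4612, -3222, -530, -860⟩] := by
  refine rok_w (v := ⟨11, -13, -18, 20⟩) (q := 1) (by decide) (by decide) (by decide) TU_sc (k := 1) (by decide) (Q := [(397, -3980, -100), (4000, 28, 15), (0, 1000, 27), (-3781, -1304, -43)])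
    (P := [⟨-3072000, 397, -3980⟩, ⟨460800, 4000, 28⟩, ⟨829440, 0, 1000⟩, ⟨-1320960, -3781, -1304⟩]) rfl rfl
    (List.mem_of_getElem? (i := 28) rfl) TU_fr TU_cov ?_
  · intro X Y h
    simp only [List.forall_mem_cons, List.not_mem_nil, false_imp_iff, implies_true, and_true] at h
    push_cast at h ⊢
    obtain ⟨h0, h1, h2, h3⟩ := h
    refine ⟨⟨?_, ?_⟩, ?_, ?_⟩ <;> linarith

theorem TU_rg29 : ROK [.q ⟨11, -13, -18, 20⟩ ⟨-569, -3127, 1836, 1860⟩, .q ⟨11, -13, -18, 20⟩ ⟨4804, -1948, -1316, -1540⟩, .q ⟨11, -13, -18, 20⟩ ⟨1141, 2719, -2080, -1780⟩, .q ⟨11, -13, -18, 20⟩ ⟨-3807, 3831, -284, 260⟩, .q ⟨11, -13, -18, 20⟩ ⟨-2230, 459, 791, 980⟩] := by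
  refine rok_w (v := ⟨11, -13, -18, 20⟩) (q := 1) (by decide) (by decide) (by decide) TU_sc (k := 1) (by decide) (Q := [(-1918, 3510, 93), (-2949, -2702, -77), (1562, -3682, -89), (4000, -50, 13), (1096, 1673, 49)])
    (P := [⟨2856960, -1918, 3510⟩, ⟨-2365440, -2949, -2702⟩, ⟨-2734080, 1562, -3682⟩, ⟨399360, 4000, -50⟩, ⟨1505280, 1096, 1673⟩]) rfl rfl
    (List.mem_of_getElem? (i := 29) rfl) TU_fr TU_cov ?_
  · intro X Y h
    simp only [List.forall_mem_cons, List.not_mem_nil, false_imp_iff, implies_true, and_true] at h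
    push_cast at h ⊢
    obtain ⟨h0, h1, h2, h3, h4⟩ := h
    refine ⟨⟨?_, ?_⟩, ?_, ?_⟩ <;> linarith

theorem TU_rg30 : ROK [.q ⟨11, -13, -18, 20⟩ ⟨4751, -1651, -1460, -1640⟩, .q ⟨11, -13, -18, 20⟩ ⟨1439, 2520, -2119, -1840⟩, .q ⟨11, -13, -18, 20⟩ ⟨-1923, 1909, -126, 140⟩, .q ⟨11, -13, -18, 20⟩ ⟨-688, -366, 514, 540⟩, .q ⟨11, -13, -18, 20⟩ ⟨-874, -2936, 1910, 1900⟩] := by
  refine rok_w (v := ⟨11, -13, -18, 20⟩) (q := 1) (by decide) (by decide) (by decide) TU_sc (k := 1) (by decide) (Q := [(-2717, -2936, -82), (1324, -3775, -92), (2000, 0, 7), (-15, 1000, 27), (-1701, 3620, 95)])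
    (P := [⟨-2519040, -2717, -2936⟩, ⟨-2826240, 1324, -3775⟩, ⟨215040, 2000, 0⟩, ⟨829440, -15, 1000⟩, ⟨2918400, -1701, 3620⟩]) rfl rfl
    (List.mem_of_getElem? (i := 30) rfl) TU_fr TU_cov ?_
  · intro X Y h
    simp only [List.forall_mem_cons, List.not_mem_nil, false_imp_iff, implies_true, and_true] at h
    push_cast at h ⊢
    obtain ⟨h0, h1, h2, h3, h4⟩ := h
    refine ⟨⟨?_, ?_⟩, ?_, ?_⟩ <;> linarith

theorem TU_rg31 : ROK [.q ⟨11, -13, -18, 20⟩ ⟨2406, -999, -647, -760⟩, .q ⟨11, -13, -18, 20⟩ ⟨-161, 3431, -1830, -1440⟩, .q ⟨11, -13, -18, 20⟩ ⟨-4248, 3545, 83, 620⟩, .q ⟨11, -13, -18, 20⟩ ⟨-677, -703, 680, 700⟩] := by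
  refine rok_w (v := ⟨11, -13, -18, 20⟩) (q := 1) (by decide) (by decide) (by decide) TU_sc (k := 1) (by decide) (Q := [(-1493, -1331, -38), (2495, -3126, -72), (3948, 641, 31), (-248, 1310, 35)])
    (P := [⟨-1167360, -1493, -1331⟩, ⟨-2211840, 2495, -3126⟩, ⟨952320, 3948, 641⟩, ⟨1075200, -248, 1310⟩]) rfl rfl
    (List.mem_of_getElem? (i := 31) rfl) TU_fr TU_cov ?_
  · intro X Y h
    simp only [List.forall_mem_cons, List.not_mem_nil, false_imp_iff, implies_true, and_true] at h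
    push_cast at h ⊢
    obtain ⟨h0, h1, h2, h3⟩ := h
    refine ⟨⟨?_, ?_⟩, ?_, ?_⟩ <;> linarith

theorem TU_rg32 : ROK [.q ⟨11, -13, -18, 20⟩ ⟨967, -961, 54, -60⟩, .q ⟨11, -13, -18, 20⟩ ⟨2965, 1238, -2163, -2040⟩, .q ⟨11, -13, -18, 20⟩ ⟨-3670, 3889, -379, 160⟩, .q ⟨11, -13, -18, 20⟩ ⟨-1582, 667, 375, 540⟩] := by
  refine rok_w (v := ⟨11, -13, -18, 20⟩) (q := 1) (by decide) (by decide) (by decide) TU_sc (k := 1) (by decide) (Q := [(-1000, 0, -3), (-88, -3999, -102), (3993, -235, 8), (1018, 861, 27)])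
    (P := [⟨-92160, -1000, 0⟩, ⟨-3133440, -88, -3999⟩, ⟨245760, 3993, -235⟩, ⟨829440, 1018, 861⟩]) rfl rfl
    (List.mem_of_getElem? (i := 32) rfl) TU_fr TU_cov ?_
  · intro X Y h
    simp only [List.forall_mem_cons, List.not_mem_nil, false_imp_iff, implies_true, and_true] at h
    push_cast at h ⊢
    obtain ⟨h0, h1, h2, h3⟩ := h
    refine ⟨⟨?_, ?_⟩, ?_, ?_⟩ <;> linarith

theorem TU_rg33 : ROK [.q ⟨11, -13, -18, 20⟩ ⟨4765, -1775, -1370, -1620⟩, .q ⟨11, -13, -18, 20⟩ ⟨-2919, 4043, -824, -300⟩, .q ⟨11, -13, -18, 20⟩ ⟨-4453, 3311, 302, 840⟩, .q ⟨11, -13, -18, 20⟩ ⟨-2801, -1417, 2038, 2180⟩] := by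
  refine rok_w (v := ⟨11, -13, -18, 20⟩) (q := 1) (by decide) (by decide) (by decide) TU_sc (k := 1) (by decide) (Q := [(-2828, -2828, -81), (3848, -1094, -15), (3857, 1058, 42), (0, 4000, 109)])
    (P := [⟨-2488320, -2828, -2828⟩, ⟨-460800, 3848, -1094⟩, ⟨1290240, 3857, 1058⟩, ⟨3348480, 0, 4000⟩]) rfl rfl
    (List.mem_of_getElem? (i := 33) rfl) TU_fr TU_cov ?_
  · intro X Y h
    simp only [List.forall_mem_cons, List.not_mem_nil, false_imp_iff, implies_true, and_true] at h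
    push_cast at h ⊢
    obtain ⟨h0, h1, h2, h3⟩ := h
    refine ⟨⟨?_, ?_⟩, ?_, ?_⟩ <;> linarith

theorem TU_rg34 : ROK [.q ⟨11, -13, -18, 20⟩ ⟨3561, -4026, 385, 80⟩, .q ⟨11, -13, -18, 20⟩ ⟨3589, 535, -2044, -2080⟩, .q ⟨11, -13, -18, 20⟩ ⟨-4010, 3719, -129, 420⟩, .q ⟨11, -13, -18, 20⟩ ⟨-2262, 539, 763, 960⟩] := by
  refine rok_w (v := ⟨11, -13, -18, 20⟩) (q := 1) (by decide) (by decide) (by decide) TU_sc (k := 1) (by decide) (Q := [(-3974, 457, 4), (-817, -3916, -104), (3992, 249, 21), (1163, 1627, 48)])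
    (P := [⟨122880, -3974, 457⟩, ⟨-3194880, -817, -3916⟩, ⟨645120, 3992, 249⟩, ⟨1474560, 1163, 1627⟩]) rfl rfl
    (List.mem_of_getElem? (i := 34) rfl) TU_fr TU_cov ?_
  · intro X Y h
    simp only [List.forall_mem_cons, List.not_mem_nil, false_imp_iff, implies_true, and_true] at h
    push_cast at h ⊢
    obtain ⟨h0, h1, h2, h3⟩ := h
    refine ⟨⟨?_, ?_⟩, ?_, ?_⟩ <;> linarith

theorem TU_rg35 : ROK [.q ⟨11, -13, -18, 20⟩ ⟨-703, -351, 514, 540⟩, .q ⟨11, -13, -18, 20⟩ ⟨4766, -1739, -1407, -1620⟩, .q ⟨11, -13, -18, 20⟩ ⟨2005, 2104, -2149, -1960⟩, .q ⟨11, -13, -18, 20⟩ ⟨-4062, 3688, -86, 460⟩] := by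
  refine rok_w (v := ⟨11, -13, -18, 20⟩) (q := 1) (by decide) (by decide) (by decide) TU_sc (k := 1) (by decide) (Q := [(0, 1000, 27), (-2792, -2865, -81), (830, -3913, -98), (3987, 328, 23)])
    (P := [⟨829440, 0, 1000⟩, ⟨-2488320, -2792, -2865⟩, ⟨-3010560, 830, -3913⟩, ⟨706560, 3987, 328⟩]) rfl rfl
    (List.mem_of_getElem? (i := 35) rfl) TU_fr TU_cov ?_
  · intro X Y h
    simp only [List.forall_mem_cons, List.not_mem_nil, false_imp_iff, implies_true, and_true] at h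
    push_cast at h ⊢
    obtain ⟨h0, h1, h2, h3⟩ := h
    refine ⟨⟨?_, ?_⟩, ?_, ?_⟩ <;> linarith

theorem TU_rg36 : ROK [.q ⟨11, -13, -18, 20⟩ ⟨-1725, -2342, 2047, 2020⟩, .q ⟨11, -13, -18, 20⟩ ⟨4765, -1726, -1419, -1620⟩, .q ⟨11, -13, -18, 20⟩ ⟨-245, 1783, -878, -660⟩, .q ⟨11, -13, -18, 20⟩ ⟨-3959, 3749, -170, 380⟩] := by
  refine rok_w (v := ⟨11, -13, -18, 20⟩) (q := 1) (by decide) (by decide) (by decide) TU_sc (k := 1) (by decide) (Q := [(-1029, 3865, 101), (-2779, -2877, -81), (1354, -1472, -33), (3996, 172, 19)])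
    (P := [⟨3102720, -1029, 3865⟩, ⟨-2488320, -2779, -2877⟩, ⟨-1013760, 1354, -1472⟩, ⟨583680, 3996, 172⟩]) rfl rfl
    (List.mem_of_getElem? (i := 36) rfl) TU_fr TU_cov ?_
  · intro X Y h
    simp only [List.forall_mem_cons, List.not_mem_nil, false_imp_iff, implies_true, and_true] at h
    push_cast at h ⊢
    obtain ⟨h0, h1, h2, h3⟩ := h
    refine ⟨⟨?_, ?_⟩, ?_, ?_⟩ <;> linarith

theorem TU_rg37 : ROK [.q ⟨11, -13, -18, 20⟩ ⟨-3094, 4025, -731, -200⟩, .q ⟨11, -13, -18, 20⟩ ⟨-4322, 3467, 155, 700⟩, .q ⟨11, -13, -18, 20⟩ ⟨-1739, -2331, 2050, 2020⟩, .q ⟨11, -13, -18, 20⟩ ⟨4765, -1775, -1370, -1620⟩] := by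
  refine rok_w (v := ⟨11, -13, -18, 20⟩) (q := 1) (by decide) (by decide) (by decide) TU_sc (k := 1) (by decide) (Q := [(3895, -911, -10), (3922, 785, 35), (-1018, 3868, 101), (-2828, -2828, -81)])
    (P := [⟨-307200, 3895, -911⟩, ⟨1075200, 3922, 785⟩, ⟨3102720, -1018, 3868⟩, ⟨-2488320, -2828, -2828⟩]) rfl rfl
    (List.mem_of_getElem? (i := 37) rfl) TU_fr TU_cov ?_
  · intro X Y h
    simp only [List.forall_mem_cons, List.not_mem_nil, false_imp_iff, implies_true, and_true] at h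
    push_cast at h ⊢
    obtain ⟨h0, h1, h2, h3⟩ := h
    refine ⟨⟨?_, ?_⟩, ?_, ?_⟩ <;> linarith

theorem TU_rg38 : ROK [.q ⟨11, -13, -18, 20⟩ ⟨-4642, 1441, 1381, 1820⟩, .q ⟨11, -13, -18, 20⟩ ⟨198, -941, 383, 360⟩, .q ⟨11, -13, -18, 20⟩ ⟨4701, -1473, -1528, -1700⟩, .q ⟨11, -13, -18, 20⟩ ⟨-2690, 4070, -920, -460⟩] := by
  refine rok_w (v := ⟨11, -13, -18, 20⟩) (q := 1) (by decide) (by decide) (by decide) TU_sc (k := 1) (by decide) (Q := [(2624, 3019, 91), (-707, 707, 18), (-2578, -3058, -85), (3771, -1334, -23)])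
    (P := [⟨2795520, 2624, 3019⟩, ⟨552960, -707, 707⟩, ⟨-2611200, -2578, -3058⟩, ⟨-706560, 3771, -1334⟩]) rfl rfl
    (List.mem_of_getElem? (i := 38) rfl) TU_fr TU_cov ?_
  · intro X Y h
    simp only [List.forall_mem_cons, List.not_mem_nil, false_imp_iff, implies_true, and_true] at h
    push_cast at h ⊢
    obtain ⟨h0, h1, h2, h3⟩ := h
    refine ⟨⟨?_, ?_⟩, ?_, ?_⟩ <;> linarith

theorem TU_rg39 : ROK [.q ⟨11, -13, -18, 20⟩ ⟨-99, 521, -242, -180⟩, .q ⟨11, -13, -18, 20⟩ ⟨-3827, 3818, -271, 280⟩, .q ⟨11, -13, -18, 20⟩ ⟨-2956, -1256, 2072, 2140⟩, .q ⟨11, -13, -18, 20⟩ ⟨1516, -1091, -145, -280⟩] := by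
  refine rok_w (v := ⟨11, -13, -18, 20⟩) (q := 1) (by decide) (by decide) (by decide) TU_sc (k := 1) (by decide) (Q := [(404, -404, -9), (4000, -19, 14), (135, 3998, 107), (-1273, -397, -14)])
    (P := [⟨-276480, 404, -404⟩, ⟨430080, 4000, -19⟩, ⟨3287040, 135, 3998⟩, ⟨-430080, -1273, -397⟩]) rfl rfl
    (List.mem_of_getElem? (i := 39) rfl) TU_fr TU_cov ?_
  · intro X Y h
    simp only [List.forall_mem_cons, List.not_mem_nil, false_imp_iff, implies_true, and_true] at h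
    push_cast at h ⊢
    obtain ⟨h0, h1, h2, h3⟩ := h
    refine ⟨⟨?_, ?_⟩, ?_, ?_⟩ <;> linarith

theorem TU_rg40 : ROK [.q ⟨11, -13, -18, 20⟩ ⟨4615, -1222, -1613, -1780⟩, .q ⟨11, -13, -18, 20⟩ ⟨-4389, 3465, 244, 680⟩, .q ⟨11, -13, -18, 20⟩ ⟨-250, -3303, 1773, 1780⟩, .q ⟨11, -13, -18, 20⟩ ⟨3014, -4169, 655, 500⟩] := by
  refine rok_w (v := ⟨11, -13, -18, 20⟩) (q := 1) (by decide) (by decide) (by decide) TU_sc (k := 1) (by decide) (Q := [(-2379, -3215, -89), (3907, 856, 34), (-2146, 3375, 89), (-3844, 1105, 25)])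
    (P := [⟨-2734080, -2379, -3215⟩, ⟨1044480, 3907, 856⟩, ⟨2734080, -2146, 3375⟩, ⟨768000, -3844, 1105⟩]) rfl rfl
    (List.mem_of_getElem? (i := 40) rfl) TU_fr TU_cov ?_
  · intro X Y h
    simp only [List.forall_mem_cons, List.not_mem_nil, false_imp_iff, implies_true, and_true] at h
    push_cast at h ⊢
    obtain ⟨h0, h1, h2, h3⟩ := h
    refine ⟨⟨?_, ?_⟩, ?_, ?_⟩ <;> linarith

theorem TU_rg41 : ROK [.q ⟨11, -13, -18, 20⟩ ⟨29, -1727, 858, 840⟩, .q ⟨11, -13, -18, 20⟩ ⟨4820, -2572, -988, -1260⟩, .q ⟨11, -13, -18, 20⟩ ⟨898, 2887, -2005, -1780⟩, .q ⟨11, -13, -18, 20⟩ ⟨-4057, 3688, -91, 460⟩, .q ⟨11, -13, -18, 20⟩ ⟨-4711, 1738, 1253, 1720⟩] := by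
  refine rok_w (v := ⟨11, -13, -18, 20⟩) (q := 1) (by decide) (by decide) (by decide) TU_sc (k := 1) (by decide) (Q := [(-1181, 1614, 42), (-3391, -2122, -63), (1730, -3607, -89), (3987, 323, 23), (2856, 2801, 86)])
    (P := [⟨1290240, -1181, 1614⟩, ⟨-1935360, -3391, -2122⟩, ⟨-2734080, 1730, -3607⟩, ⟨706560, 3987, 323⟩, ⟨2641920, 2856, 2801⟩]) rfl rfl
    (List.mem_of_getElem? (i := 41) rfl) TU_fr TU_cov ?_
  · intro X Y h
    simp only [List.forall_mem_cons, List.not_mem_nil, false_imp_iff, implies_true, and_true] at h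
    push_cast at h ⊢
    obtain ⟨h0, h1, h2, h3, h4⟩ := h
    refine ⟨⟨?_, ?_⟩, ?_, ?_⟩ <;> linarith

theorem TU_rg42 : ROK [.q ⟨11, -13, -18, 20⟩ ⟨4762, -1883, -1259, -1620⟩, .q ⟨11, -13, -18, 20⟩ ⟨-3909, 3778, -209, 340⟩, .q ⟨11, -13, -18, 20⟩ ⟨-3916, -76, 1852, 2140⟩] := by
  refine rok_w (v := ⟨11, -13, -18, 20⟩) (q := 1) (by decide) (by decide) (by decide) TU_sc (k := 1) (by decide) (Q := [(-2936, -2717, -81), (3999, 97, 17), (1315, 3778, 107)])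
    (P := [⟨-2488320, -2936, -2717⟩, ⟨522240, 3999, 97⟩, ⟨3287040, 1315, 3778⟩]) rfl rfl
    (List.mem_of_getElem? (i := 42) rfl) TU_fr TU_cov ?_
  · intro X Y h
    simp only [List.forall_mem_cons, List.not_mem_nil, false_imp_iff, implies_true, and_true] at h
    push_cast at h ⊢
    obtain ⟨h0, h1, h2⟩ := h
    refine ⟨⟨?_, ?_⟩, ?_, ?_⟩ <;> linarith

theorem TU_rg43 : ROK [.q ⟨11, -13, -18, 20⟩ ⟨-913, -492, 685, 720⟩, .q ⟨11, -13, -18, 20⟩ ⟨4478, -915, -1663, -1900⟩, .q ⟨11, -13, -18, 20⟩ ⟨-3959, 3749, -170, 380⟩] := by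
  refine rok_w (v := ⟨11, -13, -18, 20⟩) (q := 1) (by decide) (by decide) (by decide) TU_sc (k := 1) (by decide) (Q := [(-24, 1333, 36), (-2150, -3373, -95), (3996, 172, 19)])
    (P := [⟨1105920, -24, 1333⟩, ⟨-2918400, -2150, -3373⟩, ⟨583680, 3996, 172⟩]) rfl rfl
    (List.mem_of_getElem? (i := 43) rfl) TU_fr TU_cov ?_
  · intro X Y h
    simp only [List.forall_mem_cons, List.not_mem_nil, false_imp_iff, implies_true, and_true] at h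
    push_cast at h ⊢
    obtain ⟨h0, h1, h2⟩ := h
    refine ⟨⟨?_, ?_⟩, ?_, ?_⟩ <;> linarith

theorem TU_rg44 : ROK [.q ⟨11, -13, -18, 20⟩ ⟨3999, -3761, 122, -360⟩, .q ⟨11, -13, -18, 20⟩ ⟨1440, 2514, -2134, -1820⟩, .q ⟨11, -13, -18, 20⟩ ⟨-3360, 3979, -579, -40⟩, .q ⟨11, -13, -18, 20⟩ ⟨-4547, 3163, 424, 960⟩, .q ⟨11, -13, -18, 20⟩ ⟨-1236, -2693, 1989, 1940⟩] := by
  refine rok_w (v := ⟨11, -13, -18, 20⟩) (q := 1) (by decide) (by decide) (by decide) TU_sc (k := 1) (by decide) (Q := [(-3995, -202, -18), (1331, -3772, -91), (3953, -615, -2), (3787, 1288, 48), (-1432, 3735, 97)])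
    (P := [⟨-552960, -3995, -202⟩, ⟨-2795520, 1331, -3772⟩, ⟨-61440, 3953, -615⟩, ⟨1474560, 3787, 1288⟩, ⟨2979840, -1432, 3735⟩]) rfl rfl
    (List.mem_of_getElem? (i := 44) rfl) TU_fr TU_cov ?_
  · intro X Y h
    simp only [List.forall_mem_cons, List.not_mem_nil, false_imp_iff, implies_true, and_true] at h
    push_cast at h ⊢
    obtain ⟨h0, h1, h2, h3, h4⟩ := h
    refine ⟨⟨?_, ?_⟩, ?_, ?_⟩ <;> linarith

theorem TU_rg45 : ROK [.q ⟨11, -13, -18, 20⟩ ⟨3504, 641, -2105, -2040⟩, .q ⟨11, -13, -18, 20⟩ ⟨-1595, 3909, -1414, -900⟩, .q ⟨11, -13, -18, 20⟩ ⟨-4182, 3601, 21, 560⟩, .q ⟨11, -13, -18, 20⟩ ⟨-2801, -1417, 2038, 2180⟩, .q ⟨11, -13, -18, 20⟩ ⟨537, -558, 41, -20⟩] := by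
  refine rok_w (v := ⟨11, -13, -18, 20⟩) (q := 1) (by decide) (by decide) (by decide) TU_sc (k := 1) (by decide) (Q := [(-685, -3941, -102), (3324, -2224, -45), (3965, 525, 28), (0, 4000, 109), (-571, 23, -1)])
    (P := [⟨-3133440, -685, -3941⟩, ⟨-1382400, 3324, -2224⟩, ⟨860160, 3965, 525⟩, ⟨3348480, 0, 4000⟩, ⟨-30720, -571, 23⟩]) rfl rfl
    (List.mem_of_getElem? (i := 45) rfl) TU_fr TU_cov ?_
  · intro X Y h
    simp only [List.forall_mem_cons, List.not_mem_nil, false_imp_iff, implies_true, and_true] at h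
    push_cast at h ⊢
    obtain ⟨h0, h1, h2, h3, h4⟩ := h
    refine ⟨⟨?_, ?_⟩, ?_, ?_⟩ <;> linarith

theorem TU_rg46 : ROK [.q ⟨11, -13, -18, 20⟩ ⟨-3854, 3805, -251, 300⟩, .q ⟨11, -13, -18, 20⟩ ⟨-4243, 459, 1744, 2040⟩, .q ⟨11, -13, -18, 20⟩ ⟨4724, -3032, -712, -980⟩, .q ⟨11, -13, -18, 20⟩ ⟨4108, -206, -1882, -2020⟩] := by
  refine rok_w (v := ⟨11, -13, -18, 20⟩) (q := 1) (by decide) (by decide) (by decide) TU_sc (k := 1) (by decide) (Q := [(4000, 19, 15), (1785, 3580, 102), (-3669, -1594, -49), (-1519, -3700, -101)])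
    (P := [⟨460800, 4000, 19⟩, ⟨3133440, 1785, 3580⟩, ⟨-1505280, -3669, -1594⟩, ⟨-3102720, -1519, -3700⟩]) rfl rfl
    (List.mem_of_getElem? (i := 46) rfl) TU_fr TU_cov ?_
  · intro X Y h
    simp only [List.forall_mem_cons, List.not_mem_nil, false_imp_iff, implies_true, and_true] at h
    push_cast at h ⊢
    obtain ⟨h0, h1, h2, h3⟩ := h
    refine ⟨⟨?_, ?_⟩, ?_, ?_⟩ <;> linarith

theorem TU_rg47 : ROK [.q ⟨11, -13, -18, 20⟩ ⟨-3188, -1009, 2017, 2180⟩, .q ⟨11, -13, -18, 20⟩ ⟨4742, -1667, -1415, -1660⟩, .q ⟨11, -13, -18, 20⟩ ⟨-765, 3691, -1646, -1280⟩, .q ⟨11, -13, -18, 20⟩ ⟨-4237, 3548, 69, 620⟩] := by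
  refine rok_w (v := ⟨11, -13, -18, 20⟩) (q := 1) (by decide) (by decide) (by decide) TU_sc (k := 1) (by decide) (Q := [(408, 3979, 109), (-2746, -2909, -83), (2859, -2798, -64), (3951, 627, 31)])
    (P := [⟨3348480, 408, 3979⟩, ⟨-2549760, -2746, -2909⟩, ⟨-1966080, 2859, -2798⟩, ⟨952320, 3951, 627⟩]) rfl rfl
    (List.mem_of_getElem? (i := 47) rfl) TU_fr TU_cov ?_
  · intro X Y h
    simp only [List.forall_mem_cons, List.not_mem_nil, false_imp_iff, implies_true, and_true] at h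
    push_cast at h ⊢
    obtain ⟨h0, h1, h2, h3⟩ := h
    refine ⟨⟨?_, ?_⟩, ?_, ?_⟩ <;> linarith

end Pool.Agent.TET
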