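import Pool.Agent.Helper38_TET.TU_C

/-!
# MP_c7c9bf_co: certificates, family TU
-/

set_option autoImplicit false
set_option maxRecDepth 100000

namespace Pool.Agent.TET

theorem TU_rg48 : ROK [.q ⟨11, -13, -18, 20⟩ ⟨-4049, 3702, -93, 440⟩, .q ⟨11, -13, -18, 20⟩ ⟨-2801, -1417, 2038, 2180⟩, .q ⟨11, -13, -18, 20⟩ ⟨4830, -2521, -1029, -1280⟩, .q ⟨11, -13, -18, 20⟩ ⟨977, 1073, -1070, -980⟩] := by
  refine rok_w (v := ⟨11, -13, -18, 20⟩) (q := 1) (by decide) (by decide) (by decide) TU_sc (k := 1) (by decide) (Q := [(3988, 303, 22), (0, 4000, 109), (-3353, -2181, -64), (436, -1952, -49)])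
    (P := [⟨675840, 3988, 303⟩, ⟨3348480, 0, 4000⟩, ⟨-1966080, -3353, -2181⟩, ⟨-1505280, 436, -1952⟩]) rfl rfl
    (List.mem_of_getElem? (i := 48) rfl) TU_fr TU_cov ?_
  · intro X Y h
    simp only [List.forall_mem_cons, List.not_mem_nil, false_imp_iff, implies_true, and_true] at h
    push_cast at h ⊢
    obtain ⟨h0, h1, h2, h3⟩ := h
    refine ⟨⟨?_, ?_⟩, ?_, ?_⟩ <;> linarith

theorem TU_rg49 : ROK [.q ⟨11, -13, -18, 20⟩ ⟨4813, -1982, -1311, -1520⟩, .q ⟨11, -13, -18, 20⟩ ⟨3762, 311, -2033, -2040⟩, .q ⟨11, -13, -18, 20⟩ ⟨-3715, 3879, -344, 180⟩, .q ⟨11, -13, -18, 20⟩ ⟨-4673, 1542, 1351, 1780⟩, .q ⟨11, -13, -18, 20⟩ ⟨513, -1924, 731, 680⟩] := by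
  refine rok_w (v := ⟨11, -13, -18, 20⟩) (q := 1) (by decide) (by decide) (by decide) TU_sc (k := 1) (by decide) (Q := [(-2970, -2679, -76), (-1015, -3869, -102), (3996, -182, 9), (2699, 2953, 89), (-1482, 1343, 34)])
    (P := [⟨-2334720, -2970, -2679⟩, ⟨-3133440, -1015, -3869⟩, ⟨276480, 3996, -182⟩, ⟨2734080, 2699, 2953⟩, ⟨1044480, -1482, 1343⟩]) rfl rfl
    (List.mem_of_getElem? (i := 49) rfl) TU_fr TU_cov ?_
  · intro X Y h
    simp only [List.forall_mem_cons, List.not_mem_nil, false_imp_iff, implies_true, and_true] at h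
    push_cast at h ⊢
    obtain ⟨h0, h1, h2, h3, h4⟩ := h
    refine ⟨⟨?_, ?_⟩, ?_, ?_⟩ <;> linarith

theorem TU_rg50 : ROK [.q ⟨11, -13, -18, 20⟩ ⟨2352, -787, -705, -860⟩, .q ⟨11, -13, -18, 20⟩ ⟨-3745, 3855, -330, 220⟩, .q ⟨11, -13, -18, 20⟩ ⟨-4766, 2331, 975, 1460⟩, .q ⟨11, -13, -18, 20⟩ ⟨943, -3808, 1505, 1360⟩] := by
  refine rok_w (v := ⟨11, -13, -18, 20⟩) (q := 1) (by decide) (by decide) (by decide) TU_sc (k := 1) (by decide) (Q := [(-1346, -1479, -43), (3998, -132, 11), (3280, 2289, 73), (-2924, 2729, 68)])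
    (P := [⟨-1320960, -1346, -1479⟩, ⟨337920, 3998, -132⟩, ⟨2242560, 3280, 2289⟩, ⟨2088960, -2924, 2729⟩]) rfl rfl
    (List.mem_of_getElem? (i := 50) rfl) TU_fr TU_cov ?_
  · intro X Y h
    simp only [List.forall_mem_cons, List.not_mem_nil, false_imp_iff, implies_true, and_true] at h
    push_cast at h ⊢
    obtain ⟨h0, h1, h2, h3⟩ := h
    refine ⟨⟨?_, ?_⟩, ?_, ?_⟩ <;> linarith

theorem TU_rg51 : ROK [.q ⟨11, -13, -18, 20⟩ ⟨-1966, 1882, -96, 180⟩, .q ⟨11, -13, -18, 20⟩ ⟨-4763, 2410, 933, 1420⟩, .q ⟨11, -13, -18, 20⟩ ⟨1026, -3840, 1474, 1340⟩, .q ⟨11, -13, -18, 20⟩ ⟨4778, -2796, -842, -1140⟩, .q ⟨11, -13, -18, 20⟩ ⟨-176, 915, -419, -320⟩] := by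
  refine rok_w (v := ⟨11, -13, -18, 20⟩) (q := 1) (by decide) (by decide) (by decide) TU_sc (k := 1) (by decide) (Q := [(1999, 66, 9), (3333, 2211, 71), (-2969, 2680, 67), (-3537, -1868, -57), (707, -707, -16)])
    (P := [⟨276480, 1999, 66⟩, ⟨2181120, 3333, 2211⟩, ⟨2058240, -2969, 2680⟩, ⟨-1751040, -3537, -1868⟩, ⟨-491520, 707, -707⟩]) rfl rfl
    (List.mem_of_getElem? (i := 51) rfl) TU_fr TU_cov ?_
  · intro X Y h
    simp only [List.forall_mem_cons, List.not_mem_nil, false_imp_iff, implies_true, and_true] at h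
    push_cast at h ⊢
    obtain ⟨h0, h1, h2, h3, h4⟩ := h
    refine ⟨⟨?_, ?_⟩, ?_, ?_⟩ <;> linarith

theorem TU_rg52 : ROK [.q ⟨11, -13, -18, 20⟩ ⟨-4132, 3637, -25, 520⟩, .q ⟨11, -13, -18, 20⟩ ⟨-4444, 889, 1575, 1980⟩, .q ⟨11, -13, -18, 20⟩ ⟨803, -3777, 1514, 1460⟩, .q ⟨11, -13, -18, 20⟩ ⟨1194, -447, -347, -400⟩, .q ⟨11, -13, -18, 20⟩ ⟨49, 395, -244, -200⟩] := by
  refine rok_w (v := ⟨11, -13, -18, 20⟩) (q := 1) (by decide) (by decide) (by decide) TU_sc (k := 1) (by decide) (Q := [(3975, 443, 26), (2176, 3357, 99), (-2828, 2828, 73), (-707, -707, -20), (265, -424, -10)])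
    (P := [⟨798720, 3975, 443⟩, ⟨3041280, 2176, 3357⟩, ⟨2242560, -2828, 2828⟩, ⟨-614400, -707, -707⟩, ⟨-307200, 265, -424⟩]) rfl rfl
    (List.mem_of_getElem? (i := 52) rfl) TU_fr TU_cov ?_
  · intro X Y h
    simp only [List.forall_mem_cons, List.not_mem_nil, false_imp_iff, implies_true, and_true] at h
    push_cast at h ⊢
    obtain ⟨h0, h1, h2, h3, h4⟩ := h
    refine ⟨⟨?_, ?_⟩, ?_, ?_⟩ <;> linarith

theorem TU_rg53 : ROK [.q ⟨11, -13, -18, 20⟩ ⟨1604, -861, -323, -420⟩, .q ⟨11, -13, -18, 20⟩ ⟨2549, 1637, -2186, -2000⟩, .q ⟨11, -13, -18, 20⟩ ⟨-3781, 3843, -302, 240⟩, .q ⟨11, -13, -18, 20⟩ ⟨-4659, 1514, 1345, 1800⟩, .q ⟨11, -13, -18, 20⟩ ⟨-173, -91, 124, 140⟩] := by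
  refine rok_w (v := ⟨11, -13, -18, 20⟩) (q := 1) (by decide) (by decide) (by decide) TU_sc (k := 1) (by decide) (Q := [(-1134, -701, -21), (337, -3986, -100), (3999, -86, 12), (2684, 2965, 90), (0, 250, 7)])
    (P := [⟨-645120, -1134, -701⟩, ⟨-3072000, 337, -3986⟩, ⟨368640, 3999, -86⟩, ⟨2764800, 2684, 2965⟩, ⟨215040, 0, 250⟩]) rfl rfl
    (List.mem_of_getElem? (i := 53) rfl) TU_fr TU_cov ?_
  · intro X Y h
    simp only [List.forall_mem_cons, List.not_mem_nil, false_imp_iff, implies_true, and_true] at h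
    push_cast at h ⊢
    obtain ⟨h0, h1, h2, h3, h4⟩ := h
    refine ⟨⟨?_, ?_⟩, ?_, ?_⟩ <;> linarith

theorem TU_rg54 : ROK [.q ⟨11, -13, -18, 20⟩ ⟨2510, -4100, 970, 620⟩, .q ⟨11, -13, -18, 20⟩ ⟨2793, 1412, -2145, -2060⟩, .q ⟨11, -13, -18, 20⟩ ⟨-3831, 3818, -267, 280⟩, .q ⟨11, -13, -18, 20⟩ ⟨-3907, -89, 1856, 2140⟩] := by
  refine rok_w (v := ⟨11, -13, -18, 20⟩) (q := 1) (by decide) (by decide) (by decide) TU_sc (k := 1) (by decide) (Q := [(-3697, 1528, 31), (73, -3999, -103), (4000, -15, 14), (1302, 3782, 107)])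
    (P := [⟨952320, -3697, 1528⟩, ⟨-3164160, 73, -3999⟩, ⟨430080, 4000, -15⟩, ⟨3287040, 1302, 3782⟩]) rfl rfl
    (List.mem_of_getElem? (i := 54) rfl) TU_fr TU_cov ?_
  · intro X Y h
    simp only [List.forall_mem_cons, List.not_mem_nil, false_imp_iff, implies_true, and_true] at h
    push_cast at h ⊢
    obtain ⟨h0, h1, h2, h3⟩ := h
    refine ⟨⟨?_, ?_⟩, ?_, ?_⟩ <;> linarith

theorem TU_rg55 : ROK [.q ⟨11, -13, -18, 20⟩ ⟨-4759, 2348, 951, 1460⟩, .q ⟨11, -13, -18, 20⟩ ⟨-171, -93, 124, 140⟩, .q ⟨11, -13, -18, 20⟩ ⟨4492, -3483, -389, -620⟩, .q ⟨11, -13, -18, 20⟩ ⟨2072, 2071, -2063, -2080⟩] := by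
  refine rok_w (v := ⟨11, -13, -18, 20⟩) (q := 1) (by decide) (by decide) (by decide) TU_sc (k := 1) (by decide) (Q := [(3297, 2265, 73), (-2, 250, 7), (-3886, -947, -31), (719, -3935, -104)])
    (P := [⟨2242560, 3297, 2265⟩, ⟨215040, -2, 250⟩, ⟨-952320, -3886, -947⟩, ⟨-3194880, 719, -3935⟩]) rfl rfl
    (List.mem_of_getElem? (i := 55) rfl) TU_fr TU_cov ?_
  · intro X Y h
    simp only [List.forall_mem_cons, List.not_mem_nil, false_imp_iff, implies_true, and_true] at h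
    push_cast at h ⊢
    obtain ⟨h0, h1, h2, h3⟩ := h
    refine ⟨⟨?_, ?_⟩, ?_, ?_⟩ <;> linarith

theorem TU_rg56 : ROK [.q ⟨11, -13, -18, 20⟩ ⟨4756, -2637, -839, -1280⟩, .q ⟨11, -13, -18, 20⟩ ⟨-971, 948, -57, 80⟩, .q ⟨11, -13, -18, 20⟩ ⟨-4185, 363, 1742, 2080⟩] := by
  refine rok_w (v := ⟨11, -13, -18, 20⟩) (q := 1) (by decide) (by decide) (by decide) TU_sc (k := 1) (by decide) (Q := [(-3469, -1991, -64), (1000, 15, 4), (1715, 3614, 104)])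
    (P := [⟨-1966080, -3469, -1991⟩, ⟨122880, 1000, 15⟩, ⟨3194880, 1715, 3614⟩]) rfl rfl
    (List.mem_of_getElem? (i := 56) rfl) TU_fr TU_cov ?_
  · intro X Y h
    simp only [List.forall_mem_cons, List.not_mem_nil, false_imp_iff, implies_true, and_true] at h
    push_cast at h ⊢
    obtain ⟨h0, h1, h2⟩ := h
    refine ⟨⟨?_, ?_⟩, ?_, ?_⟩ <;> linarith

theorem TU_rg57 : ROK [.q ⟨11, -13, -18, 20⟩ ⟨-4464, 3307, 317, 840⟩, .q ⟨11, -13, -18, 20⟩ ⟨-3875, -131, 1826, 2180⟩, .q ⟨11, -13, -18, 20⟩ ⟨1349, -3948, 1359, 1240⟩, .q ⟨11, -13, -18, 20⟩ ⟨4797, -1882, -1355, -1560⟩, .q ⟨11, -13, -18, 20⟩ ⟨-176, 915, -419, -320⟩] := by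
  refine rok_w (v := ⟨11, -13, -18, 20⟩) (q := 1) (by decide) (by decide) (by decide) TU_sc (k := 1) (by decide) (Q := [(3853, 1073, 42), (1286, 3788, 109), (-3142, 2475, 62), (-2896, -2759, -78), (707, -707, -16)])
    (P := [⟨1290240, 3853, 1073⟩, ⟨3348480, 1286, 3788⟩, ⟨1904640, -3142, 2475⟩, ⟨-2396160, -2896, -2759⟩, ⟨-491520, 707, -707⟩]) rfl rfl
    (List.mem_of_getElem? (i := 57) rfl) TU_fr TU_cov ?_
  · intro X Y h
    simp only [List.forall_mem_cons, List.not_mem_nil, false_imp_iff, implies_true, and_true] at h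
    push_cast at h ⊢
    obtain ⟨h0, h1, h2, h3, h4⟩ := h
    refine ⟨⟨?_, ?_⟩, ?_, ?_⟩ <;> linarith

theorem TU_rg58 : ROK [.q ⟨11, -13, -18, 20⟩ ⟨-4505, 1038, 1527, 1940⟩, .q ⟨11, -13, -18, 20⟩ ⟨-1464, -2549, 1973, 2040⟩, .q ⟨11, -13, -18, 20⟩ ⟨4673, -1410, -1523, -1740⟩, .q ⟨11, -13, -18, 20⟩ ⟨317, 3212, -1909, -1620⟩, .q ⟨11, -13, -18, 20⟩ ⟨-821, 731, -10, 100⟩] := by
  refine rok_w (v := ⟨11, -13, -18, 20⟩) (q := 1) (by decide) (by decide) (by decide) TU_sc (k := 1) (by decide) (Q := [(2299, 3273, 97), (-1223, 3809, 102), (-2541, -3089, -87), (2159, -3367, -81), (796, 80, 5)])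
    (P := [⟨2979840, 2299, 3273⟩, ⟨3133440, -1223, 3809⟩, ⟨-2672640, -2541, -3089⟩, ⟨-2488320, 2159, -3367⟩, ⟨153600, 796, 80⟩]) rfl rfl
    (List.mem_of_getElem? (i := 58) rfl) TU_fr TU_cov ?_
  · intro X Y h
    simp only [List.forall_mem_cons, List.not_mem_nil, false_imp_iff, implies_true, and_true] at h
    push_cast at h ⊢
    obtain ⟨h0, h1, h2, h3, h4⟩ := h
    refine ⟨⟨?_, ?_⟩, ?_, ?_⟩ <;> linarith

theorem TU_rg59 : ROK [.q ⟨11, -13, -18, 20⟩ ⟨4765, -1775, -1370, -1620⟩, .q ⟨11, -13, -18, 20⟩ ⟨1855, 2218, -2153, -1920⟩, .q ⟨11, -13, -18, 20⟩ ⟨-3858, 3805, -247, 300⟩, .q ⟨11, -13, -18, 20⟩ ⟨-1582, 667, 375, 540⟩, .q ⟨11, -13, -18, 20⟩ ⟨-2197, -1974, 2031, 2140⟩] := by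
  refine rok_w (v := ⟨11, -13, -18, 20⟩) (q := 1) (by decide) (by decide) (by decide) TU_sc (k := 1) (by decide) (Q := [(-2828, -2828, -81), (970, -3881, -96), (4000, 23, 15), (1018, 861, 27), (-583, 3957, 107)])
    (P := [⟨-2488320, -2828, -2828⟩, ⟨-2949120, 970, -3881⟩, ⟨460800, 4000, 23⟩, ⟨829440, 1018, 861⟩, ⟨3287040, -583, 3957⟩]) rfl rfl
    (List.mem_of_getElem? (i := 59) rfl) TU_fr TU_cov ?_
  · intro X Y h
    simp only [List.forall_mem_cons, List.not_mem_nil, false_imp_iff, implies_true, and_true] at h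
    push_cast at h ⊢
    obtain ⟨h0, h1, h2, h3, h4⟩ := h
    refine ⟨⟨?_, ?_⟩, ?_, ?_⟩ <;> linarith

theorem TU_rg60 : ROK [.q ⟨11, -13, -18, 20⟩ ⟨-3909, 3778, -209, 340⟩, .q ⟨11, -13, -18, 20⟩ ⟨-2154, 298, 836, 1020⟩, .q ⟨11, -13, -18, 20⟩ ⟨4675, -2919, -636, -1120⟩] := by
  refine rok_w (v := ⟨11, -13, -18, 20⟩) (q := 1) (by decide) (by decide) (by decide) TU_sc (k := 1) (by decide) (Q := [(3999, 97, 17), (961, 1754, 51), (-3647, -1644, -56)])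
    (P := [⟨522240, 3999, 97⟩, ⟨1566720, 961, 1754⟩, ⟨-1720320, -3647, -1644⟩]) rfl rfl
    (List.mem_of_getElem? (i := 60) rfl) TU_fr TU_cov ?_
  · intro X Y h
    simp only [List.forall_mem_cons, List.not_mem_nil, false_imp_iff, implies_true, and_true] at h
    push_cast at h ⊢
    obtain ⟨h0, h1, h2⟩ := h
    refine ⟨⟨?_, ?_⟩, ?_, ?_⟩ <;> linarith

theorem TU_rg61 : ROK [.q ⟨11, -13, -18, 20⟩ ⟨-2207, 4044, -1137, -700⟩, .q ⟨11, -13, -18, 20⟩ ⟨-4428, 848, 1600, 1980⟩, .q ⟨11, -13, -18, 20⟩ ⟨803, -3777, 1514, 1460⟩, .q ⟨11, -13, -18, 20⟩ ⟨4765, -1713, -1432, -1620⟩] := by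
  refine rok_w (v := ⟨11, -13, -18, 20⟩) (q := 1) (by decide) (by decide) (by decide) TU_sc (k := 1) (by decide) (Q := [(3589, -1767, -35), (2135, 3382, 99), (-2828, 2828, 73), (-2766, -2890, -81)])
    (P := [⟨-1075200, 3589, -1767⟩, ⟨3041280, 2135, 3382⟩, ⟨2242560, -2828, 2828⟩, ⟨-2488320, -2766, -2890⟩]) rfl rfl
    (List.mem_of_getElem? (i := 61) rfl) TU_fr TU_cov ?_
  · intro X Y h
    simp only [List.forall_mem_cons, List.not_mem_nil, false_imp_iff, implies_true, and_true] at h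
    push_cast at h ⊢
    obtain ⟨h0, h1, h2, h3⟩ := h
    refine ⟨⟨?_, ?_⟩, ?_, ?_⟩ <;> linarith

theorem TU_rg62 : ROK [.q ⟨11, -13, -18, 20⟩ ⟨4583, -3274, -489, -820⟩, .q ⟨11, -13, -18, 20⟩ ⟨2833, 1373, -2146, -2060⟩, .q ⟨11, -13, -18, 20⟩ ⟨-3854, 3805, -251, 300⟩, .q ⟨11, -13, -18, 20⟩ ⟨-2219, 429, 810, 980⟩] := by
  refine rok_w (v := ⟨11, -13, -18, 20⟩) (q := 1) (by decide) (by decide) (by decide) TU_sc (k := 1) (by decide) (Q := [(-3807, -1227, -41), (34, -4000, -103), (4000, 19, 15), (1066, 1692, 49)])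
    (P := [⟨-1259520, -3807, -1227⟩, ⟨-3164160, 34, -4000⟩, ⟨460800, 4000, 19⟩, ⟨1505280, 1066, 1692⟩]) rfl rfl
    (List.mem_of_getElem? (i := 62) rfl) TU_fr TU_cov ?_
  · intro X Y h
    simp only [List.forall_mem_cons, List.not_mem_nil, false_imp_iff, implies_true, and_true] at h
    push_cast at h ⊢
    obtain ⟨h0, h1, h2, h3⟩ := h
    refine ⟨⟨?_, ?_⟩, ?_, ?_⟩ <;> linarith

theorem TU_rg63 : ROK [.q ⟨11, -13, -18, 20⟩ ⟨197, -374, 97, 80⟩, .q ⟨11, -13, -18, 20⟩ ⟨4830, -2128, -1242, -1460⟩, .q ⟨11, -13, -18, 20⟩ ⟨2867, 1339, -2146, -2060⟩, .q ⟨11, -13, -18, 20⟩ ⟨-3853, 3805, -252, 300⟩, .q ⟨11, -13, -18, 20⟩ ⟨-4741, 1837, 1244, 1660⟩] := by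
  refine rok_w (v := ⟨11, -13, -18, 20⟩) (q := 1) (by decide) (by decide) (by decide) TU_sc (k := 1) (by decide) (Q := [(-322, 169, 4), (-3077, -2556, -73), (0, -4000, -103), (4000, 18, 15), (2916, 2738, 83)])
    (P := [⟨122880, -322, 169⟩, ⟨-2242560, -3077, -2556⟩, ⟨-3164160, 0, -4000⟩, ⟨460800, 4000, 18⟩, ⟨2549760, 2916, 2738⟩]) rfl rfl
    (List.mem_of_getElem? (i := 63) rfl) TU_fr TU_cov ?_
  · intro X Y h
    simp only [List.forall_mem_cons, List.not_mem_nil, false_imp_iff, implies_true, and_true] at h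
    push_cast at h ⊢
    obtain ⟨h0, h1, h2, h3, h4⟩ := h
    refine ⟨⟨?_, ?_⟩, ?_, ?_⟩ <;> linarith

theorem TU_rg64 : ROK [.q ⟨11, -13, -18, 20⟩ ⟨1439, 663, -1082, -1020⟩, .q ⟨11, -13, -18, 20⟩ ⟨-541, 3585, -1744, -1300⟩, .q ⟨11, -13, -18, 20⟩ ⟨-4290, 3506, 124, 660⟩, .q ⟨11, -13, -18, 20⟩ ⟨1835, -3994, 1279, 880⟩] := by
  refine rok_w (v := ⟨11, -13, -18, 20⟩) (q := 1) (by decide) (by decide) (by decide) TU_sc (k := 1) (by decide) (Q := [(0, -2000, -51), (2740, -2914, -65), (3935, 718, 33), (-3422, 2071, 44)])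
    (P := [⟨-1566720, 0, -2000⟩, ⟨-1996800, 2740, -2914⟩, ⟨1013760, 3935, 718⟩, ⟨1351680, -3422, 2071⟩]) rfl rfl
    (List.mem_of_getElem? (i := 64) rfl) TU_fr TU_cov ?_
  · intro X Y h
    simp only [List.forall_mem_cons, List.not_mem_nil, false_imp_iff, implies_true, and_true] at h
    push_cast at h ⊢
    obtain ⟨h0, h1, h2, h3⟩ := h
    refine ⟨⟨?_, ?_⟩, ?_, ?_⟩ <;> linarith

theorem TU_rg65 : ROK [.q ⟨11, -13, -18, 20⟩ ⟨1194, -447, -347, -400⟩, .q ⟨11, -13, -18, 20⟩ ⟨-1768, 3960, -1332, -860⟩, .q ⟨11, -13, -18, 20⟩ ⟨-4057, 3688, -91, 460⟩, .q ⟨11, -13, -18, 20⟩ ⟨-705, -349, 514, 540⟩] := by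
  refine rok_w (v := ⟨11, -13, -18, 20⟩) (q := 1) (by decide) (by decide) (by decide) TU_sc (k := 1) (by decide) (Q := [(-707, -707, -20), (3401, -2106, -43), (3987, 323, 23), (2, 1000, 27)])
    (P := [⟨-614400, -707, -707⟩, ⟨-1320960, 3401, -2106⟩, ⟨706560, 3987, 323⟩, ⟨829440, 2, 1000⟩]) rfl rfl
    (List.mem_of_getElem? (i := 65) rfl) TU_fr TU_cov ?_
  · intro X Y h
    simp only [List.forall_mem_cons, List.not_mem_nil, false_imp_iff, implies_true, and_true] at h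
    push_cast at h ⊢
    obtain ⟨h0, h1, h2, h3⟩ := h
    refine ⟨⟨?_, ?_⟩, ?_, ?_⟩ <;> linarith

theorem TU_rg66 : ROK [.q ⟨11, -13, -18, 20⟩ ⟨4504, -952, -1692, -1860⟩, .q ⟨11, -13, -18, 20⟩ ⟨-912, 3739, -1607, -1220⟩, .q ⟨11, -13, -18, 20⟩ ⟨-4194, 3585, 29, 580⟩, .q ⟨11, -13, -18, 20⟩ ⟨-1616, -2423, 2039, 2000⟩] := by
  refine rok_w (v := ⟨11, -13, -18, 20⟩) (q := 1) (by decide) (by decide) (by decide) TU_sc (k := 1) (by decide) (Q := [(-2161, -3366, -93), (2946, -2705, -61), (3962, 551, 29), (-1123, 3839, 100)])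
    (P := [⟨-2856960, -2161, -3366⟩, ⟨-1873920, 2946, -2705⟩, ⟨890880, 3962, 551⟩, ⟨3072000, -1123, 3839⟩]) rfl rfl
    (List.mem_of_getElem? (i := 66) rfl) TU_fr TU_cov ?_
  · intro X Y h
    simp only [List.forall_mem_cons, List.not_mem_nil, false_imp_iff, implies_true, and_true] at h
    push_cast at h ⊢
    obtain ⟨h0, h1, h2, h3⟩ := h
    refine ⟨⟨?_, ?_⟩, ?_, ?_⟩ <;> linarith

theorem TU_rg67 : ROK [.q ⟨11, -13, -18, 20⟩ ⟨3467, -4027, 460, 100⟩, .q ⟨11, -13, -18, 20⟩ ⟨846, 551, -717, -680⟩, .q ⟨11, -13, -18, 20⟩ ⟨-3805, 3831, -286, 260⟩, .q ⟨11, -13, -18, 20⟩ ⟨-3550, -579, 1949, 2180⟩] := by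
  refine rok_w (v := ⟨11, -13, -18, 20⟩) (q := 1) (by decide) (by decide) (by decide) TU_sc (k := 1) (by decide) (Q := [(-3962, 550, 5), (109, -1329, -34), (4000, -52, 13), (838, 3911, 109)])
    (P := [⟨153600, -3962, 550⟩, ⟨-1044480, 109, -1329⟩, ⟨399360, 4000, -52⟩, ⟨3348480, 838, 3911⟩]) rfl rfl
    (List.mem_of_getElem? (i := 67) rfl) TU_fr TU_cov ?_
  · intro X Y h
    simp only [List.forall_mem_cons, List.not_mem_nil, false_imp_iff, implies_true, and_true] at h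
    push_cast at h ⊢
    obtain ⟨h0, h1, h2, h3⟩ := h
    refine ⟨⟨?_, ?_⟩, ?_, ?_⟩ <;> linarith

theorem TU_rg68 : ROK [.q ⟨11, -13, -18, 20⟩ ⟨4701, -1474, -1527, -1700⟩, .q ⟨11, -13, -18, 20⟩ ⟨-3981, 3802, -121, 300⟩, .q ⟨11, -13, -18, 20⟩ ⟨-172, -92, 124, 140⟩, .q ⟨11, -13, -18, 20⟩ ⟨4197, -3773, -104, -320⟩] := by
  refine rok_w (v := ⟨11, -13, -18, 20⟩) (q := 1) (by decide) (by decide) (by decide) TU_sc (k := 1) (by decide) (Q := [(-2579, -3057, -85), (3997, 149, 15), (-1, 250, 7), (-3981, -392, -16)])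
    (P := [⟨-2611200, -2579, -3057⟩, ⟨460800, 3997, 149⟩, ⟨215040, -1, 250⟩, ⟨-491520, -3981, -392⟩]) rfl rfl
    (List.mem_of_getElem? (i := 68) rfl) TU_fr TU_cov ?_
  · intro X Y h
    simp only [List.forall_mem_cons, List.not_mem_nil, false_imp_iff, implies_true, and_true] at h
    push_cast at h ⊢
    obtain ⟨h0, h1, h2, h3⟩ := h
    refine ⟨⟨?_, ?_⟩, ?_, ?_⟩ <;> linarith

theorem TU_rg69 : ROK [.q ⟨11, -13, -18, 20⟩ ⟨-3745, 3855, -330, 220⟩, .q ⟨11, -13, -18, 20⟩ ⟨-4759, 2451, 908, 1400⟩, .q ⟨11, -13, -18, 20⟩ ⟨781, -3751, 1550, 1420⟩, .q ⟨11, -13, -18, 20⟩ ⟨4464, -878, -1686, -1900⟩] := by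
  refine rok_w (v := ⟨11, -13, -18, 20⟩) (q := 1) (by decide) (by decide) (by decide) TU_sc (k := 1) (by decide) (Q := [(3998, -132, 11), (3361, 2168, 70), (-2828, 2828, 71), (-2113, -3396, -95)])
    (P := [⟨337920, 3998, -132⟩, ⟨2150400, 3361, 2168⟩, ⟨2181120, -2828, 2828⟩, ⟨-2918400, -2113, -3396⟩]) rfl rfl
    (List.mem_of_getElem? (i := 69) rfl) TU_fr TU_cov ?_
  · intro X Y h
    simp only [List.forall_mem_cons, List.not_mem_nil, false_imp_iff, implies_true, and_true] at h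
    push_cast at h ⊢
    obtain ⟨h0, h1, h2, h3⟩ := h
    refine ⟨⟨?_, ?_⟩, ?_, ?_⟩ <;> linarith

theorem TU_rg70 : ROK [.q ⟨11, -13, -18, 20⟩ ⟨4721, -1685, -1336, -1700⟩, .q ⟨11, -13, -18, 20⟩ ⟨-3857, 3805, -248, 300⟩, .q ⟨11, -13, -18, 20⟩ ⟨-1040, 79, 441, 520⟩] := by
  refine rok_w (v := ⟨11, -13, -18, 20⟩) (q := 1) (by decide) (by decide) (by decide) TU_sc (k := 1) (by decide) (Q := [(-2790, -2866, -85), (4000, 22, 15), (417, 909, 26)])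
    (P := [⟨-2611200, -2790, -2866⟩, ⟨460800, 4000, 22⟩, ⟨798720, 417, 909⟩]) rfl rfl
    (List.mem_of_getElem? (i := 70) rfl) TU_fr TU_cov ?_
  · intro X Y h
    simp only [List.forall_mem_cons, List.not_mem_nil, false_imp_iff, implies_true, and_true] at h
    push_cast at h ⊢
    obtain ⟨h0, h1, h2⟩ := h
    refine ⟨⟨?_, ?_⟩, ?_, ?_⟩ <;> linarith

theorem TU_rg71 : ROK [.q ⟨11, -13, -18, 20⟩ ⟨-4480, 3319, 341, 820⟩, .q ⟨11, -13, -18, 20⟩ ⟨-173, -91, 124, 140⟩, .q ⟨11, -13, -18, 20⟩ ⟨2243, -4149, 1006, 900⟩, .q ⟨11, -13, -18, 20⟩ ⟨4776, -1763, -1413, -1600⟩, .q ⟨11, -13, -18, 20⟩ ⟨3032, 1169, -2161, -2040⟩] := by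
  refine rok_w (v := ⟨11, -13, -18, 20⟩) (q := 1) (by decide) (by decide) (by decide) TU_sc (k := 1) (by decide) (Q := [(3852, 1079, 41), (0, 250, 7), (-3564, 1816, 45), (-2803, -2853, -80), (-157, -3997, -102)])
    (P := [⟨1259520, 3852, 1079⟩, ⟨215040, 0, 250⟩, ⟨1382400, -3564, 1816⟩, ⟨-2457600, -2803, -2853⟩, ⟨-3133440, -157, -3997⟩]) rfl rfl
    (List.mem_of_getElem? (i := 71) rfl) TU_fr TU_cov ?_
  · intro X Y h
    simp only [List.forall_mem_cons, List.not_mem_nil, false_imp_iff, implies_true, and_true] at h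
    push_cast at h ⊢
    obtain ⟨h0, h1, h2, h3, h4⟩ := h
    refine ⟨⟨?_, ?_⟩, ?_, ?_⟩ <;> linarith

end Pool.Agent.TET
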