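import Pool.Agent.Helper38_TET.TU_C

/-!
# MP_c7c9bf_co: certificates, family TU
-/

set_option autoImplicit false
set_option maxRecDepth 100000

namespace Pool.Agent.TET

theorem TU_rg72 : ROK [.q ⟨11, -13, -18, 20⟩ ⟨590, -831, 141, 100⟩, .q ⟨11, -13, -18, 20⟩ ⟨4681, -1407, -1554, -1720⟩, .q ⟨11, -13, -18, 20⟩ ⟨-103, 3406, -1843, -1460⟩, .q ⟨11, -13, -18, 20⟩ ⟨-4372, 3422, 210, 740⟩, .q ⟨11, -13, -18, 20⟩ ⟨-4129, 267, 1762, 2100⟩] := by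
  refine rok_w (v := ⟨11, -13, -18, 20⟩) (q := 1) (by decide) (by decide) (by decide) TU_sc (k := 1) (by decide) (Q := [(-766, 231, 5), (-2525, -3102, -86), (2457, -3157, -73), (3903, 876, 37), (1632, 3652, 105)])
    (P := [⟨153600, -766, 231⟩, ⟨-2641920, -2525, -3102⟩, ⟨-2242560, 2457, -3157⟩, ⟨1136640, 3903, 876⟩, ⟨3225600, 1632, 3652⟩]) rfl rfl
    (List.mem_of_getElem? (i := 72) rfl) TU_fr TU_cov ?_
  · intro X Y h
    simp only [List.forall_mem_cons, List.not_mem_nil, false_imp_iff, implies_true, and_true] at h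
    push_cast at h ⊢
    obtain ⟨h0, h1, h2, h3, h4⟩ := h
    refine ⟨⟨?_, ?_⟩, ?_, ?_⟩ <;> linarith

theorem TU_rg73 : ROK [.q ⟨11, -13, -18, 20⟩ ⟨-4583, 1250, 1453, 1880⟩, .q ⟨11, -13, -18, 20⟩ ⟨530, -3652, 1622, 1500⟩, .q ⟨11, -13, -18, 20⟩ ⟨4681, -1408, -1553, -1720⟩, .q ⟨11, -13, -18, 20⟩ ⟨1007, 2818, -2025, -1800⟩, .q ⟨11, -13, -18, 20⟩ ⟨-4033, 3704, -111, 440⟩] := by
  refine rok_w (v := ⟨11, -13, -18, 20⟩) (q := 1) (by decide) (by decide) (by decide) TU_sc (k := 1) (by decide) (Q := [(2472, 3145, 94), (-2677, 2972, 75), (-2526, -3101, -86), (1648, -3645, -90), (3990, 285, 22)])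
    (P := [⟨2887680, 2472, 3145⟩, ⟨2304000, -2677, 2972⟩, ⟨-2641920, -2526, -3101⟩, ⟨-2764800, 1648, -3645⟩, ⟨675840, 3990, 285⟩]) rfl rfl
    (List.mem_of_getElem? (i := 73) rfl) TU_fr TU_cov ?_
  · intro X Y h
    simp only [List.forall_mem_cons, List.not_mem_nil, false_imp_iff, implies_true, and_true] at h
    push_cast at h ⊢
    obtain ⟨h0, h1, h2, h3, h4⟩ := h
    refine ⟨⟨?_, ?_⟩, ?_, ?_⟩ <;> linarith

theorem TU_rg74 : ROK [.q ⟨11, -13, -18, 20⟩ ⟨1450, -1164, -66, -220⟩, .q ⟨11, -13, -18, 20⟩ ⟨1027, -50, -477, -500⟩, .q ⟨11, -13, -18, 20⟩ ⟨-3779, 3843, -304, 240⟩, .q ⟨11, -13, -18, 20⟩ ⟨-4644, 1459, 1365, 1820⟩] := by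
  refine rok_w (v := ⟨11, -13, -18, 20⟩) (q := 1) (by decide) (by decide) (by decide) TU_sc (k := 1) (by decide) (Q := [(-1307, -264, -11), (-375, -927, -25), (3999, -88, 12), (2642, 3003, 91)])
    (P := [⟨-337920, -1307, -264⟩, ⟨-768000, -375, -927⟩, ⟨368640, 3999, -88⟩, ⟨2795520, 2642, 3003⟩]) rfl rfl
    (List.mem_of_getElem? (i := 74) rfl) TU_fr TU_cov ?_
  · intro X Y h
    simp only [List.forall_mem_cons, List.not_mem_nil, false_imp_iff, implies_true, and_true] at h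
    push_cast at h ⊢
    obtain ⟨h0, h1, h2, h3⟩ := h
    refine ⟨⟨?_, ?_⟩, ?_, ?_⟩ <;> linarith

theorem TU_rg75 : ROK [.q ⟨11, -13, -18, 20⟩ ⟨-3907, 3778, -211, 340⟩, .q ⟨11, -13, -18, 20⟩ ⟨-1153, 328, 365, 460⟩, .q ⟨11, -13, -18, 20⟩ ⟨803, -3777, 1514, 1460⟩, .q ⟨11, -13, -18, 20⟩ ⟨1194, -447, -347, -400⟩, .q ⟨11, -13, -18, 20⟩ ⟨826, 2912, -2038, -1700⟩] := by
  refine rok_w (v := ⟨11, -13, -18, 20⟩) (q := 1) (by decide) (by decide) (by decide) TU_sc (k := 1) (by decide) (Q := [(3999, 95, 17), (627, 779, 23), (-2828, 2828, 73), (-707, -707, -20), (1807, -3568, -85)])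
    (P := [⟨522240, 3999, 95⟩, ⟨706560, 627, 779⟩, ⟨2242560, -2828, 2828⟩, ⟨-614400, -707, -707⟩, ⟨-2611200, 1807, -3568⟩]) rfl rfl
    (List.mem_of_getElem? (i := 75) rfl) TU_fr TU_cov ?_
  · intro X Y h
    simp only [List.forall_mem_cons, List.not_mem_nil, false_imp_iff, implies_true, and_true] at h
    push_cast at h ⊢
    obtain ⟨h0, h1, h2, h3, h4⟩ := h
    refine ⟨⟨?_, ?_⟩, ?_, ?_⟩ <;> linarith

theorem TU_rg76 : ROK [.q ⟨11, -13, -18, 20⟩ ⟨-1077, 1335, -218, -40⟩, .q ⟨11, -13, -18, 20⟩ ⟨-4484, 3265, 339, 880⟩, .q ⟨11, -13, -18, 20⟩ ⟨-3598, -517, 1935, 2180⟩, .q ⟨11, -13, -18, 20⟩ ⟨3047, -4177, 630, 500⟩, .q ⟨11, -13, -18, 20⟩ ⟨4765, -1775, -1370, -1620⟩] := by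
  refine rok_w (v := ⟨11, -13, -18, 20⟩) (q := 1) (by decide) (by decide) (by decide) TU_sc (k := 1) (by decide) (Q := [(1309, -254, -2), (3837, 1131, 44), (900, 3897, 109), (-3852, 1080, 25), (-2828, -2828, -81)])
    (P := [⟨-61440, 1309, -254⟩, ⟨1351680, 3837, 1131⟩, ⟨3348480, 900, 3897⟩, ⟨768000, -3852, 1080⟩, ⟨-2488320, -2828, -2828⟩]) rfl rfl
    (List.mem_of_getElem? (i := 76) rfl) TU_fr TU_cov ?_
  · intro X Y h
    simp only [List.forall_mem_cons, List.not_mem_nil, false_imp_iff, implies_true, and_true] at h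
    push_cast at h ⊢
    obtain ⟨h0, h1, h2, h3, h4⟩ := h
    refine ⟨⟨?_, ?_⟩, ?_, ?_⟩ <;> linarith

theorem TU_rg77 : ROK [.q ⟨11, -13, -18, 20⟩ ⟨-4638, 3011, 567, 1060⟩, .q ⟨11, -13, -18, 20⟩ ⟨-2694, -1529, 1983, 2240⟩, .q ⟨11, -13, -18, 20⟩ ⟨1209, -1352, 103, 40⟩, .q ⟨11, -13, -18, 20⟩ ⟨3537, 598, -2015, -2120⟩] := by
  refine rok_w (v := ⟨11, -13, -18, 20⟩) (q := 1) (by decide) (by decide) (by decide) TU_sc (k := 1) (by decide) (Q := [(3700, 1521, 53), (-73, 3999, 112), (-1326, 139, 2), (-780, -3923, -106)])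
    (P := [⟨1628160, 3700, 1521⟩, ⟨3440640, -73, 3999⟩, ⟨61440, -1326, 139⟩, ⟨-3256320, -780, -3923⟩]) rfl rfl
    (List.mem_of_getElem? (i := 77) rfl) TU_fr TU_cov ?_
  · intro X Y h
    simp only [List.forall_mem_cons, List.not_mem_nil, false_imp_iff, implies_true, and_true] at h
    push_cast at h ⊢
    obtain ⟨h0, h1, h2, h3⟩ := h
    refine ⟨⟨?_, ?_⟩, ?_, ?_⟩ <;> linarith

theorem TU_rg78 : ROK [.q ⟨11, -13, -18, 20⟩ ⟨-825, 52, 353, 420⟩, .q ⟨11, -13, -18, 20⟩ ⟨3939, -3909, 110, -140⟩, .q ⟨11, -13, -18, 20⟩ ⟨3997, -30, -1927, -2040⟩, .q ⟨11, -13, -18, 20⟩ ⟨-3857, 3805, -248, 300⟩] := by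
  refine rok_w (v := ⟨11, -13, -18, 20⟩) (q := 1) (by decide) (by decide) (by decide) TU_sc (k := 1) (by decide) (Q := [(325, 731, 21), (-4000, -16, -7), (-1356, -3763, -102), (4000, 22, 15)])
    (P := [⟨645120, 325, 731⟩, ⟨-215040, -4000, -16⟩, ⟨-3133440, -1356, -3763⟩, ⟨460800, 4000, 22⟩]) rfl rfl
    (List.mem_of_getElem? (i := 78) rfl) TU_fr TU_cov ?_
  · intro X Y h
    simp only [List.forall_mem_cons, List.not_mem_nil, false_imp_iff, implies_true, and_true] at h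
    push_cast at h ⊢
    obtain ⟨h0, h1, h2, h3⟩ := h
    refine ⟨⟨?_, ?_⟩, ?_, ?_⟩ <;> linarith

end Pool.Agent.TET
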