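import Pool.Agent.Helper38_TET.RegZ

/-!
# MP_c7c9bf_co: from the covers of the charts to the theorem
-/

set_option autoImplicit false

namespace Pool.Agent.TET

open MeasureTheory Set Filter Pool.Agent.UL3 Pool.Agent.UL3.H88
open scoped ENNReal Topology RealInnerProductSpace Matrix
open Cvr (V4 Cd)

theorem vR_vc (v : V4) (i : Fin 4) : Cvr.vR v i = ((vc v i : ℤ) : ℝ) := by
  fin_cases i <;> rfl

/-- the vectors of the quadratic conditions have the sum zero -/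
def zc : Cd → Bool
  | Cd.l _ _ => true
  | Cd.q v w => Bool.and (decide (v.a + v.b + v.c + v.d = 0)) (decide (w.a + w.b + w.c + w.d = 0))

theorem Dual.perm {n d e s q r : Fin 4 → ℝ} (h : Dual n d e s q r) (σ : Equiv.Perm (Fin 4)) :
    Dual (n ∘ σ) (d ∘ σ) (e ∘ σ) (s ∘ σ) (q ∘ σ) (r ∘ σ) := by
  have key : ∀ a b : Fin 4 → ℝ, ∑ x, (a ∘ σ) x * (b ∘ σ) x = ∑ x, a x * b x := fun a b =>
    Equiv.sum_comp σ (fun x => a x * b x)
  refine ⟨by rw [key, h.ns], by rw [key, h.nq], by rw [key, h.nr], by rw [key, h.ds],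
    by rw [key, h.dq], by rw [key, h.dr], by rw [key, h.es], by rw [key, h.eq],
    by rw [key, h.er], ?_⟩
  intro v hv x
  have hv' : ∑ x, (v ∘ σ.symm) x = 0 := by
    rw [← hv]
    exact Equiv.sum_comp σ.symm v
  have h1 := h.ex (v ∘ σ.symm) hv' (σ x)
  have key2 : ∀ b : Fin 4 → ℝ, ∑ y, (v ∘ σ.symm) y * b y = ∑ y, v y * (b ∘ σ) y := by
    intro b
    rw [← Equiv.sum_comp σ (fun y => (v ∘ σ.symm) y * b y)]
    refine Finset.sum_congr rfl fun y _ => ?_
    show v (σ.symm (σ y)) * b (σ y) = v y * b (σ y)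
    rw [Equiv.symm_apply_apply]
  rw [key2, key2, key2] at h1
  have h2 : (v ∘ σ.symm) (σ x) = v x := congrArg v (Equiv.symm_apply_apply σ x)
  rw [h2] at h1
  exact h1

/-- a covered tetrahedron is good, general chart -/
theorem glue {p G : Fin 4 → E3} (h : Grad p G) {n d e s q r : Fin 4 → ℝ} {k al be ga : ℝ}
    (hk : 0 < k) (hg : ga ^ 2 < al * be)
    (hm : ∀ x y, ⟪G x, G y⟫ = LM n d e k al be ga x y) (hD : Dual n d e s q r) {ch : ℕ}
    {x y : ℝ} (hn' : Cvr.nR ch x y = n) (hd' : Cvr.dR = d) (he' : Cvr.eR ch = e)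
    (hs' : Cvr.sR ch = s) (hq' : Cvr.pR ch x = q) (hr' : Cvr.qR ch y = r)
    {T : List (List Cd)} (hT : ∀ R ∈ T, ROK R) (hz : ∀ R ∈ T, ∀ c ∈ R, zc c = true)
    (hc : Cvr.Cvd ch T x y k al be ga) : Dense (convexHull ℝ (Set.range p)) := by
  obtain ⟨R, hR, σ, hσ, hh⟩ := hc
  let τ : Equiv.Perm (Fin 4) := Equiv.ofBijective σ ((Finite.injective_iff_bijective).1 hσ)
  have hτ : ∀ i, τ i = σ i := fun i => rfl
  have hG := h.perm τ
  rw [← range_perm p τ]
  refine hT R hR _ _ hG fun c hc' => ?_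
  obtain ⟨c, hcR, rfl⟩ := List.mem_map.1 hc'
  have h1 := hh c hcR
  have hm' : ∀ x y, ⟪(G ∘ τ) x, (G ∘ τ) y⟫ = LM (n ∘ τ) (d ∘ τ) (e ∘ τ) k al be ga x y :=
    fun x y => hm (τ x) (τ y)
  have dot : ∀ (v : V4) (a : Fin 4 → ℝ), Cvr.vR v ⬝ᵥ (a ∘ σ) =
      ∑ i, ((vc v i : ℤ) : ℝ) * (a ∘ τ) i := by
    intro v a
    unfold dotProduct
    refine Finset.sum_congr rfl fun i _ => ?_
    rw [vR_vc]
    rfl
  cases c with
  | l m f =>
    show 0 ≤ lform (G ∘ τ) (vc m) (vc f)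
    rw [lform_chart hm']
    unfold Cvr.Hold at h1
    rw [hn', hd', he'] at h1
    simp only [dot] at h1
    linarith
  | q v w =>
    show 0 ≤ qform (p ∘ τ) (vc v) (vc w)
    have hz1 := hz R hR _ hcR
    obtain ⟨hz1, hz2⟩ := bAnd.1 hz1
    have hv : ∑ i, vc v i = 0 := by
      rw [Fin.sum_univ_four]
      exact of_decide_eq_true hz1
    have hw : ∑ i, vc w i = 0 := by
      rw [Fin.sum_univ_four]
      exact of_decide_eq_true hz2
    have h2 := qform_chart hG hm' (hD.perm τ) (vc v) (vc w) hv hw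
    unfold Cvr.Hold at h1
    rw [hs', hq', hr'] at h1
    simp only [dot] at h1
    have h3 : 0 < k * (al * be - ga ^ 2) := mul_pos hk (by linarith)
    have h4 : 0 ≤ k * (al * be - ga ^ 2) * qform (p ∘ τ) (vc v) (vc w) := by
      rw [h2]
      linarith
    exact (mul_nonneg_iff_of_pos_left h3).1 h4

theorem glueN {p G : Fin 4 → E3} (h : Grad p G) {a c k al be ga : ℝ}
    (hC : ChartN G a c k al be ga) {T : List (List Cd)} (hT : ∀ R ∈ T, ROK R)
    (hz : ∀ R ∈ T, ∀ c ∈ R, zc c = true) (hc : Cvr.Cvd 0 T a c k al be ga) :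
    Dense (convexHull ℝ (Set.range p)) :=
  glue h hC.k0 hC.ga1 hC.mat (dualN a c) rfl rfl rfl rfl rfl rfl hT hz hc

theorem glueS {p G : Fin 4 → E3} (h : Grad p G) {v w k al be ga : ℝ}
    (hC : ChartS G v w k al be ga) {T : List (List Cd)} (hT : ∀ R ∈ T, ROK R)
    (hz : ∀ R ∈ T, ∀ c ∈ R, zc c = true) (hc : Cvr.Cvd 1 T v w k al be ga) :
    Dense (convexHull ℝ (Set.range p)) := by
  have e : Cvr.nR 1 v w = nS v w := by
    have e1 : v + w - 1 = -(1 - v - w) := by ring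
    unfold Cvr.nR nS
    rw [e1]
  exact glue h hC.k0 hC.ga1 hC.mat (dualS v w) e rfl rfl rfl rfl rfl hT hz hc

/-- no obtuse dihedral angle, as a region -/
def noR : List Cd :=
  [.l ⟨1, 0, 0, 0⟩ ⟨0, -1, 0, 0⟩, .l ⟨1, 0, 0, 0⟩ ⟨0, 0, -1, 0⟩, .l ⟨1, 0, 0, 0⟩ ⟨0, 0, 0, -1⟩,
   .l ⟨0, 1, 0, 0⟩ ⟨0, 0, -1, 0⟩, .l ⟨0, 1, 0, 0⟩ ⟨0, 0, 0, -1⟩, .l ⟨0, 0, 1, 0⟩ ⟨0, 0, 0, -1⟩]

theorem noR_ok : ROK noR := by
  intro p G h hc
  have key : ∀ (m f : V4) (i j : Fin 4), Cd.l m f ∈ noR → (∀ x, vc m x = if x = i then 1 else 0) →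
      (∀ x, vc f x = if x = j then -1 else 0) → ⟪G i, G j⟫ ≤ 0 := by
    intro m f i j hmem hm hf
    have h1 : 0 ≤ lform G (vc m) (vc f) := hc _ (List.mem_map_of_mem (f := cdc) hmem)
    unfold lform at h1
    have e1 : ∑ x, ((vc m x : ℤ) : ℝ) • G x = G i := by
      simp [hm]
    have e2 : ∑ x, ((vc f x : ℤ) : ℝ) • G x = -G j := by
      simp [hf]
    rw [e1, e2, inner_neg_right] at h1
    linarith
  have h01 := key _ _ 0 1 (List.mem_of_getElem? (i := 0) rfl) (by decide) (by decide)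
  have h02 := key _ _ 0 2 (List.mem_of_getElem? (i := 1) rfl) (by decide) (by decide)
  have h03 := key _ _ 0 3 (List.mem_of_getElem? (i := 2) rfl) (by decide) (by decide)
  have h12 := key _ _ 1 2 (List.mem_of_getElem? (i := 3) rfl) (by decide) (by decide)
  have h13 := key _ _ 1 3 (List.mem_of_getElem? (i := 4) rfl) (by decide) (by decide)
  have h23 := key _ _ 2 3 (List.mem_of_getElem? (i := 5) rfl) (by decide) (by decide)
  refine region_nonobtuse h fun i j hij => ?_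
  fin_cases i <;> fin_cases j
  · exact absurd rfl hij
  · exact h01
  · exact h02
  · exact h03
  · rw [real_inner_comm]; exact h01
  · exact absurd rfl hij
  · exact h12
  · exact h13
  · rw [real_inner_comm]; exact h02
  · rw [real_inner_comm]; exact h12
  · exact absurd rfl hij
  · exact h23
  · rw [real_inner_comm]; exact h03
  · rw [real_inner_comm]; exact h13
  · rw [real_inner_comm]; exact h23
  · exact absurd rfl hij

end Pool.Agent.TET
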