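import Pool.Agent.Helper38_TET.TP_C

/-!
# MP_c7c9bf_co: certificates, family TP
-/

set_option autoImplicit false
set_option maxRecDepth 100000

namespace Pool.Agent.TET

theorem TP_rg24 : ROK [.q ⟨-1, 1, 0, 0⟩ ⟨-327, 7, 320, 0⟩, .q ⟨-1, 1, 0, 0⟩ ⟨627, 13, -640, 0⟩, .l ⟨0, 0, -1920, -1883⟩ ⟨0, 0, 0, 1⟩, .l ⟨0, 0, 60, 61⟩ ⟨0, 0, 0, 1⟩] := by
  refine rok_p (k := 1) (by decide) (Q := [(320, 0, 7), (-640, 0, 13), (0, 1920, -1883), (0, -60, 61)])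
    (P := [⟨215040, 320, 0⟩, ⟨399360, -640, 0⟩, ⟨-57845760, 0, 1920⟩, ⟨1873920, 0, -60⟩]) (by decide) rfl rfl
    (List.mem_of_getElem? (i := 24) rfl) TP_fr TP_cov ?_
  · intro X Y h
    simp only [List.forall_mem_cons, List.not_mem_nil, false_imp_iff, implies_true, and_true] at h
    push_cast at h ⊢
    obtain ⟨h0, h1, h2, h3⟩ := h
    refine ⟨⟨?_, ?_⟩, ?_, ?_⟩ <;> linarith

theorem TP_rg25 : ROK [.q ⟨-1, 1, 0, 0⟩ ⟨-609, -31, 640, 0⟩, .q ⟨-1, 1, 0, 0⟩ ⟨961, 959, -1920, 0⟩, .l ⟨0, 0, -1920, 19⟩ ⟨0, 0, 0, 1⟩, .l ⟨0, 0, 128, 7⟩ ⟨0, 0, 0, 1⟩] := by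
  refine rok_p (k := 1) (by decide) (Q := [(640, 0, -31), (-1920, 0, 959), (0, 1920, 19), (0, -128, 7)])
    (P := [⟨-952320, 640, 0⟩, ⟨29460480, -1920, 0⟩, ⟨583680, 0, 1920⟩, ⟨215040, 0, -128⟩]) (by decide) rfl rfl
    (List.mem_of_getElem? (i := 25) rfl) TP_fr TP_cov ?_
  · intro X Y h
    simp only [List.forall_mem_cons, List.not_mem_nil, false_imp_iff, implies_true, and_true] at h
    push_cast at h ⊢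
    obtain ⟨h0, h1, h2, h3⟩ := h
    refine ⟨⟨?_, ?_⟩, ?_, ?_⟩ <;> linarith

theorem TP_rg26 : ROK [.q ⟨-1, 1, 0, 0⟩ ⟨-229, -11, 240, 0⟩, .q ⟨-1, 1, 0, 0⟩ ⟨961, 959, -1920, 0⟩, .l ⟨0, 0, -1920, 19⟩ ⟨0, 0, 0, 1⟩, .l ⟨0, 0, 240, 13⟩ ⟨0, 0, 0, 1⟩] := by
  refine rok_p (k := 1) (by decide) (Q := [(240, 0, -11), (-1920, 0, 959), (0, 1920, 19), (0, -240, 13)])
    (P := [⟨-337920, 240, 0⟩, ⟨29460480, -1920, 0⟩, ⟨583680, 0, 1920⟩, ⟨399360, 0, -240⟩]) (by decide) rfl rfl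
    (List.mem_of_getElem? (i := 26) rfl) TP_fr TP_cov ?_
  · intro X Y h
    simp only [List.forall_mem_cons, List.not_mem_nil, false_imp_iff, implies_true, and_true] at h
    push_cast at h ⊢
    obtain ⟨h0, h1, h2, h3⟩ := h
    refine ⟨⟨?_, ?_⟩, ?_, ?_⟩ <;> linarith

theorem TP_rg27 : ROK [.q ⟨-1, 1, 0, 0⟩ ⟨-359, -25, 384, 0⟩, .q ⟨-1, 1, 0, 0⟩ ⟨1781, 139, -1920, 0⟩, .l ⟨0, 0, -1920, 19⟩ ⟨0, 0, 0, 1⟩, .l ⟨0, 0, 640, 41⟩ ⟨0, 0, 0, 1⟩] := by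
  refine rok_p (k := 1) (by decide) (Q := [(384, 0, -25), (-1920, 0, 139), (0, 1920, 19), (0, -640, 41)])
    (P := [⟨-768000, 384, 0⟩, ⟨4270080, -1920, 0⟩, ⟨583680, 0, 1920⟩, ⟨1259520, 0, -640⟩]) (by decide) rfl rfl
    (List.mem_of_getElem? (i := 27) rfl) TP_fr TP_cov ?_
  · intro X Y h
    simp only [List.forall_mem_cons, List.not_mem_nil, false_imp_iff, implies_true, and_true] at h
    push_cast at h ⊢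
    obtain ⟨h0, h1, h2, h3⟩ := h
    refine ⟨⟨?_, ?_⟩, ?_, ?_⟩ <;> linarith

theorem TP_rg28 : ROK [.q ⟨-1, 1, 0, 0⟩ ⟨-1823, -97, 1920, 0⟩, .q ⟨-1, 1, 0, 0⟩ ⟨1781, 139, -1920, 0⟩, .l ⟨0, 0, -1920, 19⟩ ⟨0, 0, 0, 1⟩, .l ⟨0, 0, 192, 11⟩ ⟨0, 0, 0, 1⟩] := by
  refine rok_p (k := 1) (by decide) (Q := [(1920, 0, -97), (-1920, 0, 139), (0, 1920, 19), (0, -192, 11)])
    (P := [⟨-2979840, 1920, 0⟩, ⟨4270080, -1920, 0⟩, ⟨583680, 0, 1920⟩, ⟨337920, 0, -192⟩]) (by decide) rfl rfl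
    (List.mem_of_getElem? (i := 28) rfl) TP_fr TP_cov ?_
  · intro X Y h
    simp only [List.forall_mem_cons, List.not_mem_nil, false_imp_iff, implies_true, and_true] at h
    push_cast at h ⊢
    obtain ⟨h0, h1, h2, h3⟩ := h
    refine ⟨⟨?_, ?_⟩, ?_, ?_⟩ <;> linarith

theorem TP_rg29 : ROK [.q ⟨-1, 1, 0, 0⟩ ⟨-1939, 19, 1920, 0⟩, .q ⟨-1, 1, 0, 0⟩ ⟨311, 9, -320, 0⟩, .l ⟨0, 0, -1920, -1051⟩ ⟨0, 0, 0, 1⟩, .l ⟨0, 0, 1920, 1529⟩ ⟨0, 0, 0, 1⟩] := by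
  refine rok_p (k := 1) (by decide) (Q := [(1920, 0, 19), (-320, 0, 9), (0, 1920, -1051), (0, -1920, 1529)])
    (P := [⟨583680, 1920, 0⟩, ⟨276480, -320, 0⟩, ⟨-32286720, 0, 1920⟩, ⟨46970880, 0, -1920⟩]) (by decide) rfl rfl
    (List.mem_of_getElem? (i := 29) rfl) TP_fr TP_cov ?_
  · intro X Y h
    simp only [List.forall_mem_cons, List.not_mem_nil, false_imp_iff, implies_true, and_true] at h
    push_cast at h ⊢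
    obtain ⟨h0, h1, h2, h3⟩ := h
    refine ⟨⟨?_, ?_⟩, ?_, ?_⟩ <;> linarith

theorem TP_rg30 : ROK [.q ⟨-1, 1, 0, 0⟩ ⟨-2069, 149, 1920, 0⟩, .q ⟨-1, 1, 0, 0⟩ ⟨1781, 139, -1920, 0⟩, .l ⟨0, 0, -320, -221⟩ ⟨0, 0, 0, 1⟩, .l ⟨0, 0, 1920, 1369⟩ ⟨0, 0, 0, 1⟩] := by
  refine rok_p (k := 1) (by decide) (Q := [(1920, 0, 149), (-1920, 0, 139), (0, 320, -221), (0, -1920, 1369)])
    (P := [⟨4577280, 1920, 0⟩, ⟨4270080, -1920, 0⟩, ⟨-6789120, 0, 320⟩, ⟨42055680, 0, -1920⟩]) (by decide) rfl rfl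
    (List.mem_of_getElem? (i := 30) rfl) TP_fr TP_cov ?_
  · intro X Y h
    simp only [List.forall_mem_cons, List.not_mem_nil, false_imp_iff, implies_true, and_true] at h
    push_cast at h ⊢
    obtain ⟨h0, h1, h2, h3⟩ := h
    refine ⟨⟨?_, ?_⟩, ?_, ?_⟩ <;> linarith

theorem TP_rg31 : ROK [.q ⟨-1, 1, 0, 0⟩ ⟨-1957, 37, 1920, 0⟩, .q ⟨-1, 1, 0, 0⟩ ⟨627, 13, -640, 0⟩, .l ⟨0, 0, -1920, -1861⟩ ⟨0, 0, 0, 1⟩, .l ⟨0, 0, 1920, 1967⟩ ⟨0, 0, 0, 1⟩] := by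
  refine rok_p (k := 1) (by decide) (Q := [(1920, 0, 37), (-640, 0, 13), (0, 1920, -1861), (0, -1920, 1967)])
    (P := [⟨1136640, 1920, 0⟩, ⟨399360, -640, 0⟩, ⟨-57169920, 0, 1920⟩, ⟨60426240, 0, -1920⟩]) (by decide) rfl rfl
    (List.mem_of_getElem? (i := 31) rfl) TP_fr TP_cov ?_
  · intro X Y h
    simp only [List.forall_mem_cons, List.not_mem_nil, false_imp_iff, implies_true, and_true] at h
    push_cast at h ⊢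
    obtain ⟨h0, h1, h2, h3⟩ := h
    refine ⟨⟨?_, ?_⟩, ?_, ?_⟩ <;> linarith

theorem TP_rg32 : ROK [.q ⟨-1, 1, 0, 0⟩ ⟨-1853, -67, 1920, 0⟩, .q ⟨-1, 1, 0, 0⟩ ⟨961, 959, -1920, 0⟩, .l ⟨0, 0, -640, 3⟩ ⟨0, 0, 0, 1⟩, .l ⟨0, 0, 960, 47⟩ ⟨0, 0, 0, 1⟩] := by
  refine rok_p (k := 1) (by decide) (Q := [(1920, 0, -67), (-1920, 0, 959), (0, 640, 3), (0, -960, 47)])
    (P := [⟨-2058240, 1920, 0⟩, ⟨29460480, -1920, 0⟩, ⟨92160, 0, 640⟩, ⟨1443840, 0, -960⟩]) (by decide) rfl rfl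
    (List.mem_of_getElem? (i := 32) rfl) TP_fr TP_cov ?_
  · intro X Y h
    simp only [List.forall_mem_cons, List.not_mem_nil, false_imp_iff, implies_true, and_true] at h
    push_cast at h ⊢
    obtain ⟨h0, h1, h2, h3⟩ := h
    refine ⟨⟨?_, ?_⟩, ?_, ?_⟩ <;> linarith

theorem TP_rg33 : ROK [.q ⟨-1, 1, 0, 0⟩ ⟨-539, -101, 640, 0⟩, .q ⟨-1, 1, 0, 0⟩ ⟨961, 959, -1920, 0⟩, .l ⟨0, 0, -640, 23⟩ ⟨0, 0, 0, 1⟩, .l ⟨0, 0, 12, 1⟩ ⟨0, 0, 0, 1⟩] := by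
  refine rok_p (k := 1) (by decide) (Q := [(640, 0, -101), (-1920, 0, 959), (0, 640, 23), (0, -12, 1)])
    (P := [⟨-3102720, 640, 0⟩, ⟨29460480, -1920, 0⟩, ⟨706560, 0, 640⟩, ⟨30720, 0, -12⟩]) (by decide) rfl rfl
    (List.mem_of_getElem? (i := 33) rfl) TP_fr TP_cov ?_
  · intro X Y h
    simp only [List.forall_mem_cons, List.not_mem_nil, false_imp_iff, implies_true, and_true] at h
    push_cast at h ⊢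
    obtain ⟨h0, h1, h2, h3⟩ := h
    refine ⟨⟨?_, ?_⟩, ?_, ?_⟩ <;> linarith

theorem TP_rg34 : ROK [.q ⟨-1, 1, 0, 0⟩ ⟨-529, -111, 640, 0⟩, .q ⟨-1, 1, 0, 0⟩ ⟨961, 959, -1920, 0⟩, .l ⟨0, 0, -960, -113⟩ ⟨0, 0, 0, 1⟩, .l ⟨0, 0, 960, 199⟩ ⟨0, 0, 0, 1⟩] := by
  refine rok_p (k := 1) (by decide) (Q := [(640, 0, -111), (-1920, 0, 959), (0, 960, -113), (0, -960, 199)])
    (P := [⟨-3409920, 640, 0⟩, ⟨29460480, -1920, 0⟩, ⟨-3471360, 0, 960⟩, ⟨6113280, 0, -960⟩]) (by decide) rfl rfl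
    (List.mem_of_getElem? (i := 34) rfl) TP_fr TP_cov ?_
  · intro X Y h
    simp only [List.forall_mem_cons, List.not_mem_nil, false_imp_iff, implies_true, and_true] at h
    push_cast at h ⊢
    obtain ⟨h0, h1, h2, h3⟩ := h
    refine ⟨⟨?_, ?_⟩, ?_, ?_⟩ <;> linarith

theorem TP_rg35 : ROK [.q ⟨-1, 1, 0, 0⟩ ⟨-607, -353, 960, 0⟩, .q ⟨-1, 1, 0, 0⟩ ⟨961, 959, -1920, 0⟩, .l ⟨0, 0, -640, 93⟩ ⟨0, 0, 0, 1⟩, .l ⟨0, 0, 480, 331⟩ ⟨0, 0, 0, 1⟩] := by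
  refine rok_p (k := 1) (by decide) (Q := [(960, 0, -353), (-1920, 0, 959), (0, 640, 93), (0, -480, 331)])
    (P := [⟨-10844160, 960, 0⟩, ⟨29460480, -1920, 0⟩, ⟨2856960, 0, 640⟩, ⟨10168320, 0, -480⟩]) (by decide) rfl rfl
    (List.mem_of_getElem? (i := 35) rfl) TP_fr TP_cov ?_
  · intro X Y h
    simp only [List.forall_mem_cons, List.not_mem_nil, false_imp_iff, implies_true, and_true] at h
    push_cast at h ⊢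
    obtain ⟨h0, h1, h2, h3⟩ := h
    refine ⟨⟨?_, ?_⟩, ?_, ?_⟩ <;> linarith

theorem TP_rg36 : ROK [.q ⟨-1, 1, 0, 0⟩ ⟨-1789, -131, 1920, 0⟩, .q ⟨-1, 1, 0, 0⟩ ⟨1781, 139, -1920, 0⟩, .l ⟨0, 0, -1920, 29⟩ ⟨0, 0, 0, 1⟩, .l ⟨0, 0, 384, 25⟩ ⟨0, 0, 0, 1⟩] := by
  refine rok_p (k := 1) (by decide) (Q := [(1920, 0, -131), (-1920, 0, 139), (0, 1920, 29), (0, -384, 25)])
    (P := [⟨-4024320, 1920, 0⟩, ⟨4270080, -1920, 0⟩, ⟨890880, 0, 1920⟩, ⟨768000, 0, -384⟩]) (by decide) rfl rfl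
    (List.mem_of_getElem? (i := 36) rfl) TP_fr TP_cov ?_
  · intro X Y h
    simp only [List.forall_mem_cons, List.not_mem_nil, false_imp_iff, implies_true, and_true] at h
    push_cast at h ⊢
    obtain ⟨h0, h1, h2, h3⟩ := h
    refine ⟨⟨?_, ?_⟩, ?_, ?_⟩ <;> linarith

theorem TP_rg37 : ROK [.q ⟨-1, 1, 0, 0⟩ ⟨-1787, -133, 1920, 0⟩, .q ⟨-1, 1, 0, 0⟩ ⟨1781, 139, -1920, 0⟩, .l ⟨0, 0, -960, 17⟩ ⟨0, 0, 0, 1⟩, .l ⟨0, 0, 320, 21⟩ ⟨0, 0, 0, 1⟩] := by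
  refine rok_p (k := 1) (by decide) (Q := [(1920, 0, -133), (-1920, 0, 139), (0, 960, 17), (0, -320, 21)])
    (P := [⟨-4085760, 1920, 0⟩, ⟨4270080, -1920, 0⟩, ⟨522240, 0, 960⟩, ⟨645120, 0, -320⟩]) (by decide) rfl rfl
    (List.mem_of_getElem? (i := 37) rfl) TP_fr TP_cov ?_
  · intro X Y h
    simp only [List.forall_mem_cons, List.not_mem_nil, false_imp_iff, implies_true, and_true] at h
    push_cast at h ⊢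
    obtain ⟨h0, h1, h2, h3⟩ := h
    refine ⟨⟨?_, ?_⟩, ?_, ?_⟩ <;> linarith

theorem TP_rg38 : ROK [.q ⟨-1, 1, 0, 0⟩ ⟨-41, -39, 80, 0⟩, .q ⟨-1, 1, 0, 0⟩ ⟨961, 959, -1920, 0⟩, .l ⟨0, 0, -1920, -1891⟩ ⟨0, 0, 0, 1⟩, .l ⟨0, 0, 480, 481⟩ ⟨0, 0, 0, 1⟩] := by
  refine rok_p (k := 1) (by decide) (Q := [(80, 0, -39), (-1920, 0, 959), (0, 1920, -1891), (0, -480, 481)])
    (P := [⟨-1198080, 80, 0⟩, ⟨29460480, -1920, 0⟩, ⟨-58091520, 0, 1920⟩, ⟨14776320, 0, -480⟩]) (by decide) rfl rfl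
    (List.mem_of_getElem? (i := 38) rfl) TP_fr TP_cov ?_
  · intro X Y h
    simp only [List.forall_mem_cons, List.not_mem_nil, false_imp_iff, implies_true, and_true] at h
    push_cast at h ⊢
    obtain ⟨h0, h1, h2, h3⟩ := h
    refine ⟨⟨?_, ?_⟩, ?_, ?_⟩ <;> linarith

theorem TP_rg39 : ROK [.q ⟨-1, 1, 0, 0⟩ ⟨-613, -27, 640, 0⟩, .q ⟨-1, 1, 0, 0⟩ ⟨961, 959, -1920, 0⟩, .l ⟨0, 0, -1920, 19⟩ ⟨0, 0, 0, 1⟩, .l ⟨0, 0, 96, 5⟩ ⟨0, 0, 0, 1⟩] := by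
  refine rok_p (k := 1) (by decide) (Q := [(640, 0, -27), (-1920, 0, 959), (0, 1920, 19), (0, -96, 5)])
    (P := [⟨-829440, 640, 0⟩, ⟨29460480, -1920, 0⟩, ⟨583680, 0, 1920⟩, ⟨153600, 0, -96⟩]) (by decide) rfl rfl
    (List.mem_of_getElem? (i := 39) rfl) TP_fr TP_cov ?_
  · intro X Y h
    simp only [List.forall_mem_cons, List.not_mem_nil, false_imp_iff, implies_true, and_true] at h
    push_cast at h ⊢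
    obtain ⟨h0, h1, h2, h3⟩ := h
    refine ⟨⟨?_, ?_⟩, ?_, ?_⟩ <;> linarith

theorem TP_rg40 : ROK [.q ⟨-1, 1, 0, 0⟩ ⟨-1847, -73, 1920, 0⟩, .q ⟨-1, 1, 0, 0⟩ ⟨961, 959, -1920, 0⟩, .l ⟨0, 0, -160, 1⟩ ⟨0, 0, 0, 1⟩, .l ⟨0, 0, 384, 19⟩ ⟨0, 0, 0, 1⟩] := by
  refine rok_p (k := 1) (by decide) (Q := [(1920, 0, -73), (-1920, 0, 959), (0, 160, 1), (0, -384, 19)])
    (P := [⟨-2242560, 1920, 0⟩, ⟨29460480, -1920, 0⟩, ⟨30720, 0, 160⟩, ⟨583680, 0, -384⟩]) (by decide) rfl rfl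
    (List.mem_of_getElem? (i := 40) rfl) TP_fr TP_cov ?_
  · intro X Y h
    simp only [List.forall_mem_cons, List.not_mem_nil, false_imp_iff, implies_true, and_true] at h
    push_cast at h ⊢
    obtain ⟨h0, h1, h2, h3⟩ := h
    refine ⟨⟨?_, ?_⟩, ?_, ?_⟩ <;> linarith

theorem TP_rg41 : ROK [.q ⟨-1, 1, 0, 0⟩ ⟨-23, -1, 24, 0⟩, .q ⟨-1, 1, 0, 0⟩ ⟨961, 959, -1920, 0⟩, .l ⟨0, 0, -1920, 17⟩ ⟨0, 0, 0, 1⟩, .l ⟨0, 0, 96, 5⟩ ⟨0, 0, 0, 1⟩] := by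
  refine rok_p (k := 1) (by decide) (Q := [(24, 0, -1), (-1920, 0, 959), (0, 1920, 17), (0, -96, 5)])
    (P := [⟨-30720, 24, 0⟩, ⟨29460480, -1920, 0⟩, ⟨522240, 0, 1920⟩, ⟨153600, 0, -96⟩]) (by decide) rfl rfl
    (List.mem_of_getElem? (i := 41) rfl) TP_fr TP_cov ?_
  · intro X Y h
    simp only [List.forall_mem_cons, List.not_mem_nil, false_imp_iff, implies_true, and_true] at h
    push_cast at h ⊢
    obtain ⟨h0, h1, h2, h3⟩ := h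
    refine ⟨⟨?_, ?_⟩, ?_, ?_⟩ <;> linarith

theorem TP_rg42 : ROK [.q ⟨-1, 1, 0, 0⟩ ⟨-1589, -331, 1920, 0⟩, .q ⟨-1, 1, 0, 0⟩ ⟨961, 959, -1920, 0⟩, .l ⟨0, 0, -480, -59⟩ ⟨0, 0, 0, 1⟩, .l ⟨0, 0, 5, 1⟩ ⟨0, 0, 0, 1⟩] := by
  refine rok_p (k := 1) (by decide) (Q := [(1920, 0, -331), (-1920, 0, 959), (0, 480, -59), (0, -5, 1)])
    (P := [⟨-10168320, 1920, 0⟩, ⟨29460480, -1920, 0⟩, ⟨-1812480, 0, 480⟩, ⟨30720, 0, -5⟩]) (by decide) rfl rfl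
    (List.mem_of_getElem? (i := 42) rfl) TP_fr TP_cov ?_
  · intro X Y h
    simp only [List.forall_mem_cons, List.not_mem_nil, false_imp_iff, implies_true, and_true] at h
    push_cast at h ⊢
    obtain ⟨h0, h1, h2, h3⟩ := h
    refine ⟨⟨?_, ?_⟩, ?_, ?_⟩ <;> linarith

theorem TP_rg43 : ROK [.q ⟨-1, 1, 0, 0⟩ ⟨-1843, -77, 1920, 0⟩, .q ⟨-1, 1, 0, 0⟩ ⟨961, 959, -1920, 0⟩, .l ⟨0, 0, -960, 7⟩ ⟨0, 0, 0, 1⟩, .l ⟨0, 0, 960, 49⟩ ⟨0, 0, 0, 1⟩] := by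
  refine rok_p (k := 1) (by decide) (Q := [(1920, 0, -77), (-1920, 0, 959), (0, 960, 7), (0, -960, 49)])
    (P := [⟨-2365440, 1920, 0⟩, ⟨29460480, -1920, 0⟩, ⟨215040, 0, 960⟩, ⟨1505280, 0, -960⟩]) (by decide) rfl rfl
    (List.mem_of_getElem? (i := 43) rfl) TP_fr TP_cov ?_
  · intro X Y h
    simp only [List.forall_mem_cons, List.not_mem_nil, false_imp_iff, implies_true, and_true] at h
    push_cast at h ⊢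
    obtain ⟨h0, h1, h2, h3⟩ := h
    refine ⟨⟨?_, ?_⟩, ?_, ?_⟩ <;> linarith

theorem TP_rg44 : ROK [.q ⟨-1, 1, 0, 0⟩ ⟨-643, 3, 640, 0⟩, .q ⟨-1, 1, 0, 0⟩ ⟨1891, 29, -1920, 0⟩, .l ⟨0, 0, -1920, -931⟩ ⟨0, 0, 0, 1⟩, .l ⟨0, 0, 640, 513⟩ ⟨0, 0, 0, 1⟩] := by
  refine rok_p (k := 1) (by decide) (Q := [(640, 0, 3), (-1920, 0, 29), (0, 1920, -931), (0, -640, 513)])
    (P := [⟨92160, 640, 0⟩, ⟨890880, -1920, 0⟩, ⟨-28600320, 0, 1920⟩, ⟨15759360, 0, -640⟩]) (by decide) rfl rfl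
    (List.mem_of_getElem? (i := 44) rfl) TP_fr TP_cov ?_
  · intro X Y h
    simp only [List.forall_mem_cons, List.not_mem_nil, false_imp_iff, implies_true, and_true] at h
    push_cast at h ⊢
    obtain ⟨h0, h1, h2, h3⟩ := h
    refine ⟨⟨?_, ?_⟩, ?_, ?_⟩ <;> linarith

theorem TP_rg45 : ROK [.q ⟨-1, 1, 0, 0⟩ ⟨-1577, -343, 1920, 0⟩, .q ⟨-1, 1, 0, 0⟩ ⟨961, 959, -1920, 0⟩, .l ⟨0, 0, -1920, -193⟩ ⟨0, 0, 0, 1⟩, .l ⟨0, 0, 640, 149⟩ ⟨0, 0, 0, 1⟩] := by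
  refine rok_p (k := 1) (by decide) (Q := [(1920, 0, -343), (-1920, 0, 959), (0, 1920, -193), (0, -640, 149)])
    (P := [⟨-10536960, 1920, 0⟩, ⟨29460480, -1920, 0⟩, ⟨-5928960, 0, 1920⟩, ⟨4577280, 0, -640⟩]) (by decide) rfl rfl
    (List.mem_of_getElem? (i := 45) rfl) TP_fr TP_cov ?_
  · intro X Y h
    simp only [List.forall_mem_cons, List.not_mem_nil, false_imp_iff, implies_true, and_true] at h
    push_cast at h ⊢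
    obtain ⟨h0, h1, h2, h3⟩ := h
    refine ⟨⟨?_, ?_⟩, ?_, ?_⟩ <;> linarith

theorem TP_rg46 : ROK [.q ⟨-1, 1, 0, 0⟩ ⟨-1609, -311, 1920, 0⟩, .q ⟨-1, 1, 0, 0⟩ ⟨961, 959, -1920, 0⟩, .l ⟨0, 0, -640, 23⟩ ⟨0, 0, 0, 1⟩, .l ⟨0, 0, 480, 41⟩ ⟨0, 0, 0, 1⟩] := by
  refine rok_p (k := 1) (by decide) (Q := [(1920, 0, -311), (-1920, 0, 959), (0, 640, 23), (0, -480, 41)])
    (P := [⟨-9553920, 1920, 0⟩, ⟨29460480, -1920, 0⟩, ⟨706560, 0, 640⟩, ⟨1259520, 0, -480⟩]) (by decide) rfl rfl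
    (List.mem_of_getElem? (i := 46) rfl) TP_fr TP_cov ?_
  · intro X Y h
    simp only [List.forall_mem_cons, List.not_mem_nil, false_imp_iff, implies_true, and_true] at h
    push_cast at h ⊢
    obtain ⟨h0, h1, h2, h3⟩ := h
    refine ⟨⟨?_, ?_⟩, ?_, ?_⟩ <;> linarith

theorem TP_rg47 : ROK [.q ⟨-1, 1, 0, 0⟩ ⟨-797, -163, 960, 0⟩, .q ⟨-1, 1, 0, 0⟩ ⟨961, 959, -1920, 0⟩, .l ⟨0, 0, -320, -43⟩ ⟨0, 0, 0, 1⟩, .l ⟨0, 0, 192, 35⟩ ⟨0, 0, 0, 1⟩] := by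
  refine rok_p (k := 1) (by decide) (Q := [(960, 0, -163), (-1920, 0, 959), (0, 320, -43), (0, -192, 35)])
    (P := [⟨-5007360, 960, 0⟩, ⟨29460480, -1920, 0⟩, ⟨-1320960, 0, 320⟩, ⟨1075200, 0, -192⟩]) (by decide) rfl rfl
    (List.mem_of_getElem? (i := 47) rfl) TP_fr TP_cov ?_
  · intro X Y h
    simp only [List.forall_mem_cons, List.not_mem_nil, false_imp_iff, implies_true, and_true] at h
    push_cast at h ⊢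
    obtain ⟨h0, h1, h2, h3⟩ := h
    refine ⟨⟨?_, ?_⟩, ?_, ?_⟩ <;> linarith

end Pool.Agent.TET
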