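import Pool.Agent.Helper38_TET.TP_C

/-!
# MP_c7c9bf_co: certificates, family TP
-/

set_option autoImplicit false
set_option maxRecDepth 100000

namespace Pool.Agent.TET

theorem TP_rg48 : ROK [.q ⟨-1, 1, 0, 0⟩ ⟨-1909, -11, 1920, 0⟩, .q ⟨-1, 1, 0, 0⟩ ⟨59, 1, -60, 0⟩, .l ⟨0, 0, -640, -307⟩ ⟨0, 0, 0, 1⟩, .l ⟨0, 0, 1920, 979⟩ ⟨0, 0, 0, 1⟩] := by
  refine rok_p (k := 1) (by decide) (Q := [(1920, 0, -11), (-60, 0, 1), (0, 640, -307), (0, -1920, 979)])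
    (P := [⟨-337920, 1920, 0⟩, ⟨30720, -60, 0⟩, ⟨-9431040, 0, 640⟩, ⟨30074880, 0, -1920⟩]) (by decide) rfl rfl
    (List.mem_of_getElem? (i := 48) rfl) TP_fr TP_cov ?_
  · intro X Y h
    simp only [List.forall_mem_cons, List.not_mem_nil, false_imp_iff, implies_true, and_true] at h
    push_cast at h ⊢
    obtain ⟨h0, h1, h2, h3⟩ := h
    refine ⟨⟨?_, ?_⟩, ?_, ?_⟩ <;> linarith

theorem TP_rg49 : ROK [.q ⟨-1, 1, 0, 0⟩ ⟨-649, 9, 640, 0⟩, .q ⟨-1, 1, 0, 0⟩ ⟨943, 17, -960, 0⟩, .l ⟨0, 0, -1920, -1813⟩ ⟨0, 0, 0, 1⟩, .l ⟨0, 0, 80, 83⟩ ⟨0, 0, 0, 1⟩] := by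
  refine rok_p (k := 1) (by decide) (Q := [(640, 0, 9), (-960, 0, 17), (0, 1920, -1813), (0, -80, 83)])
    (P := [⟨276480, 640, 0⟩, ⟨522240, -960, 0⟩, ⟨-55695360, 0, 1920⟩, ⟨2549760, 0, -80⟩]) (by decide) rfl rfl
    (List.mem_of_getElem? (i := 49) rfl) TP_fr TP_cov ?_
  · intro X Y h
    simp only [List.forall_mem_cons, List.not_mem_nil, false_imp_iff, implies_true, and_true] at h
    push_cast at h ⊢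
    obtain ⟨h0, h1, h2, h3⟩ := h
    refine ⟨⟨?_, ?_⟩, ?_, ?_⟩ <;> linarith

theorem TP_rg50 : ROK [.q ⟨-1, 1, 0, 0⟩ ⟨-127, 7, 120, 0⟩, .q ⟨-1, 1, 0, 0⟩ ⟨301, 19, -320, 0⟩, .l ⟨0, 0, -1920, -1231⟩ ⟨0, 0, 0, 1⟩, .l ⟨0, 0, 1920, 1417⟩ ⟨0, 0, 0, 1⟩] := by
  refine rok_p (k := 1) (by decide) (Q := [(120, 0, 7), (-320, 0, 19), (0, 1920, -1231), (0, -1920, 1417)])
    (P := [⟨215040, 120, 0⟩, ⟨583680, -320, 0⟩, ⟨-37816320, 0, 1920⟩, ⟨43530240, 0, -1920⟩]) (by decide) rfl rfl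
    (List.mem_of_getElem? (i := 50) rfl) TP_fr TP_cov ?_
  · intro X Y h
    simp only [List.forall_mem_cons, List.not_mem_nil, false_imp_iff, implies_true, and_true] at h
    push_cast at h ⊢
    obtain ⟨h0, h1, h2, h3⟩ := h
    refine ⟨⟨?_, ?_⟩, ?_, ?_⟩ <;> linarith

theorem TP_rg51 : ROK [.q ⟨-1, 1, 0, 0⟩ ⟨-679, 39, 640, 0⟩, .q ⟨-1, 1, 0, 0⟩ ⟨601, 39, -640, 0⟩, .l ⟨0, 0, -1920, -1241⟩ ⟨0, 0, 0, 1⟩, .l ⟨0, 0, 480, 353⟩ ⟨0, 0, 0, 1⟩] := by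
  refine rok_p (k := 1) (by decide) (Q := [(640, 0, 39), (-640, 0, 39), (0, 1920, -1241), (0, -480, 353)])
    (P := [⟨1198080, 640, 0⟩, ⟨1198080, -640, 0⟩, ⟨-38123520, 0, 1920⟩, ⟨10844160, 0, -480⟩]) (by decide) rfl rfl
    (List.mem_of_getElem? (i := 51) rfl) TP_fr TP_cov ?_
  · intro X Y h
    simp only [List.forall_mem_cons, List.not_mem_nil, false_imp_iff, implies_true, and_true] at h
    push_cast at h ⊢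
    obtain ⟨h0, h1, h2, h3⟩ := h
    refine ⟨⟨?_, ?_⟩, ?_, ?_⟩ <;> linarith

theorem TP_rg52 : ROK [.q ⟨-1, 1, 0, 0⟩ ⟨-327, 7, 320, 0⟩, .q ⟨-1, 1, 0, 0⟩ ⟨467, 13, -480, 0⟩, .l ⟨0, 0, -1920, -1043⟩ ⟨0, 0, 0, 1⟩, .l ⟨0, 0, 1920, 1507⟩ ⟨0, 0, 0, 1⟩] := by
  refine rok_p (k := 1) (by decide) (Q := [(320, 0, 7), (-480, 0, 13), (0, 1920, -1043), (0, -1920, 1507)])
    (P := [⟨215040, 320, 0⟩, ⟨399360, -480, 0⟩, ⟨-32040960, 0, 1920⟩, ⟨46295040, 0, -1920⟩]) (by decide) rfl rfl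
    (List.mem_of_getElem? (i := 52) rfl) TP_fr TP_cov ?_
  · intro X Y h
    simp only [List.forall_mem_cons, List.not_mem_nil, false_imp_iff, implies_true, and_true] at h
    push_cast at h ⊢
    obtain ⟨h0, h1, h2, h3⟩ := h
    refine ⟨⟨?_, ?_⟩, ?_, ?_⟩ <;> linarith

theorem TP_rg53 : ROK [.q ⟨-1, 1, 0, 0⟩ ⟨-491, 11, 480, 0⟩, .q ⟨-1, 1, 0, 0⟩ ⟨467, 13, -480, 0⟩, .l ⟨0, 0, -960, -523⟩ ⟨0, 0, 0, 1⟩, .l ⟨0, 0, 60, 47⟩ ⟨0, 0, 0, 1⟩] := by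
  refine rok_p (k := 1) (by decide) (Q := [(480, 0, 11), (-480, 0, 13), (0, 960, -523), (0, -60, 47)])
    (P := [⟨337920, 480, 0⟩, ⟨399360, -480, 0⟩, ⟨-16066560, 0, 960⟩, ⟨1443840, 0, -60⟩]) (by decide) rfl rfl
    (List.mem_of_getElem? (i := 53) rfl) TP_fr TP_cov ?_
  · intro X Y h
    simp only [List.forall_mem_cons, List.not_mem_nil, false_imp_iff, implies_true, and_true] at h
    push_cast at h ⊢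
    obtain ⟨h0, h1, h2, h3⟩ := h
    refine ⟨⟨?_, ?_⟩, ?_, ?_⟩ <;> linarith

theorem TP_rg54 : ROK [.q ⟨-1, 1, 0, 0⟩ ⟨-1969, 49, 1920, 0⟩, .q ⟨-1, 1, 0, 0⟩ ⟨311, 9, -320, 0⟩, .l ⟨0, 0, -1920, -1051⟩ ⟨0, 0, 0, 1⟩, .l ⟨0, 0, 640, 499⟩ ⟨0, 0, 0, 1⟩] := by
  refine rok_p (k := 1) (by decide) (Q := [(1920, 0, 49), (-320, 0, 9), (0, 1920, -1051), (0, -640, 499)])
    (P := [⟨1505280, 1920, 0⟩, ⟨276480, -320, 0⟩, ⟨-32286720, 0, 1920⟩, ⟨15329280, 0, -640⟩]) (by decide) rfl rfl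
    (List.mem_of_getElem? (i := 54) rfl) TP_fr TP_cov ?_
  · intro X Y h
    simp only [List.forall_mem_cons, List.not_mem_nil, false_imp_iff, implies_true, and_true] at h
    push_cast at h ⊢
    obtain ⟨h0, h1, h2, h3⟩ := h
    refine ⟨⟨?_, ?_⟩, ?_, ?_⟩ <;> linarith

theorem TP_rg55 : ROK [.q ⟨-1, 1, 0, 0⟩ ⟨-653, 13, 640, 0⟩, .q ⟨-1, 1, 0, 0⟩ ⟨627, 13, -640, 0⟩, .l ⟨0, 0, -960, -509⟩ ⟨0, 0, 0, 1⟩, .l ⟨0, 0, 80, 63⟩ ⟨0, 0, 0, 1⟩] := by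
  refine rok_p (k := 1) (by decide) (Q := [(640, 0, 13), (-640, 0, 13), (0, 960, -509), (0, -80, 63)])
    (P := [⟨399360, 640, 0⟩, ⟨399360, -640, 0⟩, ⟨-15636480, 0, 960⟩, ⟨1935360, 0, -80⟩]) (by decide) rfl rfl
    (List.mem_of_getElem? (i := 55) rfl) TP_fr TP_cov ?_
  · intro X Y h
    simp only [List.forall_mem_cons, List.not_mem_nil, false_imp_iff, implies_true, and_true] at h
    push_cast at h ⊢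
    obtain ⟨h0, h1, h2, h3⟩ := h
    refine ⟨⟨?_, ?_⟩, ?_, ?_⟩ <;> linarith

theorem TP_rg56 : ROK [.q ⟨-1, 1, 0, 0⟩ ⟨-1967, 47, 1920, 0⟩, .q ⟨-1, 1, 0, 0⟩ ⟨467, 13, -480, 0⟩, .l ⟨0, 0, -240, -131⟩ ⟨0, 0, 0, 1⟩, .l ⟨0, 0, 960, 751⟩ ⟨0, 0, 0, 1⟩] := by
  refine rok_p (k := 1) (by decide) (Q := [(1920, 0, 47), (-480, 0, 13), (0, 240, -131), (0, -960, 751)])
    (P := [⟨1443840, 1920, 0⟩, ⟨399360, -480, 0⟩, ⟨-4024320, 0, 240⟩, ⟨23070720, 0, -960⟩]) (by decide) rfl rfl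
    (List.mem_of_getElem? (i := 56) rfl) TP_fr TP_cov ?_
  · intro X Y h
    simp only [List.forall_mem_cons, List.not_mem_nil, false_imp_iff, implies_true, and_true] at h
    push_cast at h ⊢
    obtain ⟨h0, h1, h2, h3⟩ := h
    refine ⟨⟨?_, ?_⟩, ?_, ?_⟩ <;> linarith

theorem TP_rg57 : ROK [.q ⟨-1, 1, 0, 0⟩ ⟨-329, 9, 320, 0⟩, .q ⟨-1, 1, 0, 0⟩ ⟨1861, 59, -1920, 0⟩, .l ⟨0, 0, -160, -89⟩ ⟨0, 0, 0, 1⟩, .l ⟨0, 0, 480, 373⟩ ⟨0, 0, 0, 1⟩] := by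
  refine rok_p (k := 1) (by decide) (Q := [(320, 0, 9), (-1920, 0, 59), (0, 160, -89), (0, -480, 373)])
    (P := [⟨276480, 320, 0⟩, ⟨1812480, -1920, 0⟩, ⟨-2734080, 0, 160⟩, ⟨11458560, 0, -480⟩]) (by decide) rfl rfl
    (List.mem_of_getElem? (i := 57) rfl) TP_fr TP_cov ?_
  · intro X Y h
    simp only [List.forall_mem_cons, List.not_mem_nil, false_imp_iff, implies_true, and_true] at h
    push_cast at h ⊢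
    obtain ⟨h0, h1, h2, h3⟩ := h
    refine ⟨⟨?_, ?_⟩, ?_, ?_⟩ <;> linarith

theorem TP_rg58 : ROK [.q ⟨-1, 1, 0, 0⟩ ⟨-327, 7, 320, 0⟩, .q ⟨-1, 1, 0, 0⟩ ⟨313, 7, -320, 0⟩, .l ⟨0, 0, -640, -341⟩ ⟨0, 0, 0, 1⟩, .l ⟨0, 0, 1920, 1037⟩ ⟨0, 0, 0, 1⟩] := by
  refine rok_p (k := 1) (by decide) (Q := [(320, 0, 7), (-320, 0, 7), (0, 640, -341), (0, -1920, 1037)])
    (P := [⟨215040, 320, 0⟩, ⟨215040, -320, 0⟩, ⟨-10475520, 0, 640⟩, ⟨31856640, 0, -1920⟩]) (by decide) rfl rfl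
    (List.mem_of_getElem? (i := 58) rfl) TP_fr TP_cov ?_
  · intro X Y h
    simp only [List.forall_mem_cons, List.not_mem_nil, false_imp_iff, implies_true, and_true] at h
    push_cast at h ⊢
    obtain ⟨h0, h1, h2, h3⟩ := h
    refine ⟨⟨?_, ?_⟩, ?_, ?_⟩ <;> linarith

theorem TP_rg59 : ROK [.q ⟨-1, 1, 0, 0⟩ ⟨-1999, 79, 1920, 0⟩, .q ⟨-1, 1, 0, 0⟩ ⟨1841, 79, -1920, 0⟩, .l ⟨0, 0, -1920, -1127⟩ ⟨0, 0, 0, 1⟩, .l ⟨0, 0, 1920, 1459⟩ ⟨0, 0, 0, 1⟩] := by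
  refine rok_p (k := 1) (by decide) (Q := [(1920, 0, 79), (-1920, 0, 79), (0, 1920, -1127), (0, -1920, 1459)])
    (P := [⟨2426880, 1920, 0⟩, ⟨2426880, -1920, 0⟩, ⟨-34621440, 0, 1920⟩, ⟨44820480, 0, -1920⟩]) (by decide) rfl rfl
    (List.mem_of_getElem? (i := 59) rfl) TP_fr TP_cov ?_
  · intro X Y h
    simp only [List.forall_mem_cons, List.not_mem_nil, false_imp_iff, implies_true, and_true] at h
    push_cast at h ⊢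
    obtain ⟨h0, h1, h2, h3⟩ := h
    refine ⟨⟨?_, ?_⟩, ?_, ?_⟩ <;> linarith

theorem TP_rg60 : ROK [.q ⟨-1, 1, 0, 0⟩ ⟨-503, 23, 480, 0⟩, .q ⟨-1, 1, 0, 0⟩ ⟨457, 23, -480, 0⟩, .l ⟨0, 0, -384, -233⟩ ⟨0, 0, 0, 1⟩, .l ⟨0, 0, 1920, 1439⟩ ⟨0, 0, 0, 1⟩] := by
  refine rok_p (k := 1) (by decide) (Q := [(480, 0, 23), (-480, 0, 23), (0, 384, -233), (0, -1920, 1439)])
    (P := [⟨706560, 480, 0⟩, ⟨706560, -480, 0⟩, ⟨-7157760, 0, 384⟩, ⟨44206080, 0, -1920⟩]) (by decide) rfl rfl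
    (List.mem_of_getElem? (i := 60) rfl) TP_fr TP_cov ?_
  · intro X Y h
    simp only [List.forall_mem_cons, List.not_mem_nil, false_imp_iff, implies_true, and_true] at h
    push_cast at h ⊢
    obtain ⟨h0, h1, h2, h3⟩ := h
    refine ⟨⟨?_, ?_⟩, ?_, ?_⟩ <;> linarith

theorem TP_rg61 : ROK [.q ⟨-1, 1, 0, 0⟩ ⟨-979, -941, 1920, 0⟩, .q ⟨-1, 1, 0, 0⟩ ⟨961, 959, -1920, 0⟩, .l ⟨0, 0, -1920, -1871⟩ ⟨0, 0, 0, 1⟩, .l ⟨0, 0, 640, 643⟩ ⟨0, 0, 0, 1⟩] := by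
  refine rok_p (k := 1) (by decide) (Q := [(1920, 0, -941), (-1920, 0, 959), (0, 1920, -1871), (0, -640, 643)])
    (P := [⟨-28907520, 1920, 0⟩, ⟨29460480, -1920, 0⟩, ⟨-57477120, 0, 1920⟩, ⟨19752960, 0, -640⟩]) (by decide) rfl rfl
    (List.mem_of_getElem? (i := 61) rfl) TP_fr TP_cov ?_
  · intro X Y h
    simp only [List.forall_mem_cons, List.not_mem_nil, false_imp_iff, implies_true, and_true] at h
    push_cast at h ⊢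
    obtain ⟨h0, h1, h2, h3⟩ := h
    refine ⟨⟨?_, ?_⟩, ?_, ?_⟩ <;> linarith

theorem TP_rg62 : ROK [.q ⟨-1, 1, 0, 0⟩ ⟨-1957, 37, 1920, 0⟩, .q ⟨-1, 1, 0, 0⟩ ⟨943, 17, -960, 0⟩, .l ⟨0, 0, -30, -29⟩ ⟨0, 0, 0, 1⟩, .l ⟨0, 0, 1920, 1967⟩ ⟨0, 0, 0, 1⟩] := by
  refine rok_p (k := 1) (by decide) (Q := [(1920, 0, 37), (-960, 0, 17), (0, 30, -29), (0, -1920, 1967)])
    (P := [⟨1136640, 1920, 0⟩, ⟨522240, -960, 0⟩, ⟨-890880, 0, 30⟩, ⟨60426240, 0, -1920⟩]) (by decide) rfl rfl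
    (List.mem_of_getElem? (i := 62) rfl) TP_fr TP_cov ?_
  · intro X Y h
    simp only [List.forall_mem_cons, List.not_mem_nil, false_imp_iff, implies_true, and_true] at h
    push_cast at h ⊢
    obtain ⟨h0, h1, h2, h3⟩ := h
    refine ⟨⟨?_, ?_⟩, ?_, ?_⟩ <;> linarith

theorem TP_rg63 : ROK [.q ⟨-1, 1, 0, 0⟩ ⟨-643, 3, 640, 0⟩, .q ⟨-1, 1, 0, 0⟩ ⟨79, 1, -80, 0⟩, .l ⟨0, 0, -1920, -1781⟩ ⟨0, 0, 0, 1⟩, .l ⟨0, 0, 640, 673⟩ ⟨0, 0, 0, 1⟩] := by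
  refine rok_p (k := 1) (by decide) (Q := [(640, 0, 3), (-80, 0, 1), (0, 1920, -1781), (0, -640, 673)])
    (P := [⟨92160, 640, 0⟩, ⟨30720, -80, 0⟩, ⟨-54712320, 0, 1920⟩, ⟨20674560, 0, -640⟩]) (by decide) rfl rfl
    (List.mem_of_getElem? (i := 63) rfl) TP_fr TP_cov ?_
  · intro X Y h
    simp only [List.forall_mem_cons, List.not_mem_nil, false_imp_iff, implies_true, and_true] at h
    push_cast at h ⊢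
    obtain ⟨h0, h1, h2, h3⟩ := h
    refine ⟨⟨?_, ?_⟩, ?_, ?_⟩ <;> linarith

theorem TP_rg64 : ROK [.q ⟨-1, 1, 0, 0⟩ ⟨-653, 13, 640, 0⟩, .q ⟨-1, 1, 0, 0⟩ ⟨627, 13, -640, 0⟩, .l ⟨0, 0, -320, -311⟩ ⟨0, 0, 0, 1⟩, .l ⟨0, 0, 640, 653⟩ ⟨0, 0, 0, 1⟩] := by
  refine rok_p (k := 1) (by decide) (Q := [(640, 0, 13), (-640, 0, 13), (0, 320, -311), (0, -640, 653)])
    (P := [⟨399360, 640, 0⟩, ⟨399360, -640, 0⟩, ⟨-9553920, 0, 320⟩, ⟨20060160, 0, -640⟩]) (by decide) rfl rfl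
    (List.mem_of_getElem? (i := 64) rfl) TP_fr TP_cov ?_
  · intro X Y h
    simp only [List.forall_mem_cons, List.not_mem_nil, false_imp_iff, implies_true, and_true] at h
    push_cast at h ⊢
    obtain ⟨h0, h1, h2, h3⟩ := h
    refine ⟨⟨?_, ?_⟩, ?_, ?_⟩ <;> linarith

theorem TP_rg65 : ROK [.q ⟨-1, 1, 0, 0⟩ ⟨-67, 3, 64, 0⟩, .q ⟨-1, 1, 0, 0⟩ ⟨1831, 89, -1920, 0⟩, .l ⟨0, 0, -640, -387⟩ ⟨0, 0, 0, 1⟩, .l ⟨0, 0, 1920, 1439⟩ ⟨0, 0, 0, 1⟩] := by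
  refine rok_p (k := 1) (by decide) (Q := [(64, 0, 3), (-1920, 0, 89), (0, 640, -387), (0, -1920, 1439)])
    (P := [⟨92160, 64, 0⟩, ⟨2734080, -1920, 0⟩, ⟨-11888640, 0, 640⟩, ⟨44206080, 0, -1920⟩]) (by decide) rfl rfl
    (List.mem_of_getElem? (i := 65) rfl) TP_fr TP_cov ?_
  · intro X Y h
    simp only [List.forall_mem_cons, List.not_mem_nil, false_imp_iff, implies_true, and_true] at h
    push_cast at h ⊢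
    obtain ⟨h0, h1, h2, h3⟩ := h
    refine ⟨⟨?_, ?_⟩, ?_, ?_⟩ <;> linarith

theorem TP_rg66 : ROK [.q ⟨-1, 1, 0, 0⟩ ⟨-61, 1, 60, 0⟩, .q ⟨-1, 1, 0, 0⟩ ⟨943, 17, -960, 0⟩, .l ⟨0, 0, -160, -153⟩ ⟨0, 0, 0, 1⟩, .l ⟨0, 0, 1920, 1979⟩ ⟨0, 0, 0, 1⟩] := by
  refine rok_p (k := 1) (by decide) (Q := [(60, 0, 1), (-960, 0, 17), (0, 160, -153), (0, -1920, 1979)])
    (P := [⟨30720, 60, 0⟩, ⟨522240, -960, 0⟩, ⟨-4700160, 0, 160⟩, ⟨60794880, 0, -1920⟩]) (by decide) rfl rfl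
    (List.mem_of_getElem? (i := 66) rfl) TP_fr TP_cov ?_
  · intro X Y h
    simp only [List.forall_mem_cons, List.not_mem_nil, false_imp_iff, implies_true, and_true] at h
    push_cast at h ⊢
    obtain ⟨h0, h1, h2, h3⟩ := h
    refine ⟨⟨?_, ?_⟩, ?_, ?_⟩ <;> linarith

theorem TP_rg67 : ROK [.q ⟨-1, 1, 0, 0⟩ ⟨-491, -469, 960, 0⟩, .q ⟨-1, 1, 0, 0⟩ ⟨961, 959, -1920, 0⟩, .l ⟨0, 0, -1920, -1891⟩ ⟨0, 0, 0, 1⟩, .l ⟨0, 0, 1920, 1927⟩ ⟨0, 0, 0, 1⟩] := by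
  refine rok_p (k := 1) (by decide) (Q := [(960, 0, -469), (-1920, 0, 959), (0, 1920, -1891), (0, -1920, 1927)])
    (P := [⟨-14407680, 960, 0⟩, ⟨29460480, -1920, 0⟩, ⟨-58091520, 0, 1920⟩, ⟨59197440, 0, -1920⟩]) (by decide) rfl rfl
    (List.mem_of_getElem? (i := 67) rfl) TP_fr TP_cov ?_
  · intro X Y h
    simp only [List.forall_mem_cons, List.not_mem_nil, false_imp_iff, implies_true, and_true] at h
    push_cast at h ⊢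
    obtain ⟨h0, h1, h2, h3⟩ := h
    refine ⟨⟨?_, ?_⟩, ?_, ?_⟩ <;> linarith

theorem TP_rg68 : ROK [.q ⟨-1, 1, 0, 0⟩ ⟨-1969, 49, 1920, 0⟩, .q ⟨-1, 1, 0, 0⟩ ⟨361, 23, -384, 0⟩, .l ⟨0, 0, -160, -103⟩ ⟨0, 0, 0, 1⟩, .l ⟨0, 0, 640, 499⟩ ⟨0, 0, 0, 1⟩] := by
  refine rok_p (k := 1) (by decide) (Q := [(1920, 0, 49), (-384, 0, 23), (0, 160, -103), (0, -640, 499)])
    (P := [⟨1505280, 1920, 0⟩, ⟨706560, -384, 0⟩, ⟨-3164160, 0, 160⟩, ⟨15329280, 0, -640⟩]) (by decide) rfl rfl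
    (List.mem_of_getElem? (i := 68) rfl) TP_fr TP_cov ?_
  · intro X Y h
    simp only [List.forall_mem_cons, List.not_mem_nil, false_imp_iff, implies_true, and_true] at h
    push_cast at h ⊢
    obtain ⟨h0, h1, h2, h3⟩ := h
    refine ⟨⟨?_, ?_⟩, ?_, ?_⟩ <;> linarith

theorem TP_rg69 : ROK [.q ⟨-1, 1, 0, 0⟩ ⟨-589, -51, 640, 0⟩, .q ⟨-1, 1, 0, 0⟩ ⟨961, 959, -1920, 0⟩, .l ⟨0, 0, -640, 13⟩ ⟨0, 0, 0, 1⟩, .l ⟨0, 0, 120, 7⟩ ⟨0, 0, 0, 1⟩] := by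
  refine rok_p (k := 1) (by decide) (Q := [(640, 0, -51), (-1920, 0, 959), (0, 640, 13), (0, -120, 7)])
    (P := [⟨-1566720, 640, 0⟩, ⟨29460480, -1920, 0⟩, ⟨399360, 0, 640⟩, ⟨215040, 0, -120⟩]) (by decide) rfl rfl
    (List.mem_of_getElem? (i := 69) rfl) TP_fr TP_cov ?_
  · intro X Y h
    simp only [List.forall_mem_cons, List.not_mem_nil, false_imp_iff, implies_true, and_true] at h
    push_cast at h ⊢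
    obtain ⟨h0, h1, h2, h3⟩ := h
    refine ⟨⟨?_, ?_⟩, ?_, ?_⟩ <;> linarith

theorem TP_rg70 : ROK [.q ⟨-1, 1, 0, 0⟩ ⟨-1999, 79, 1920, 0⟩, .q ⟨-1, 1, 0, 0⟩ ⟨919, 41, -960, 0⟩, .l ⟨0, 0, -1920, -1133⟩ ⟨0, 0, 0, 1⟩, .l ⟨0, 0, 1920, 1157⟩ ⟨0, 0, 0, 1⟩] := by
  refine rok_p (k := 1) (by decide) (Q := [(1920, 0, 79), (-960, 0, 41), (0, 1920, -1133), (0, -1920, 1157)])
    (P := [⟨2426880, 1920, 0⟩, ⟨1259520, -960, 0⟩, ⟨-34805760, 0, 1920⟩, ⟨35543040, 0, -1920⟩]) (by decide) rfl rfl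
    (List.mem_of_getElem? (i := 70) rfl) TP_fr TP_cov ?_
  · intro X Y h
    simp only [List.forall_mem_cons, List.not_mem_nil, false_imp_iff, implies_true, and_true] at h
    push_cast at h ⊢
    obtain ⟨h0, h1, h2, h3⟩ := h
    refine ⟨⟨?_, ?_⟩, ?_, ?_⟩ <;> linarith

theorem TP_rg71 : ROK [.q ⟨-1, 1, 0, 0⟩ ⟨-1007, 47, 960, 0⟩, .q ⟨-1, 1, 0, 0⟩ ⟨457, 23, -480, 0⟩, .l ⟨0, 0, -1920, -1171⟩ ⟨0, 0, 0, 1⟩, .l ⟨0, 0, 1920, 1439⟩ ⟨0, 0, 0, 1⟩] := by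
  refine rok_p (k := 1) (by decide) (Q := [(960, 0, 47), (-480, 0, 23), (0, 1920, -1171), (0, -1920, 1439)])
    (P := [⟨1443840, 960, 0⟩, ⟨706560, -480, 0⟩, ⟨-35973120, 0, 1920⟩, ⟨44206080, 0, -1920⟩]) (by decide) rfl rfl
    (List.mem_of_getElem? (i := 71) rfl) TP_fr TP_cov ?_
  · intro X Y h
    simp only [List.forall_mem_cons, List.not_mem_nil, false_imp_iff, implies_true, and_true] at h
    push_cast at h ⊢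
    obtain ⟨h0, h1, h2, h3⟩ := h
    refine ⟨⟨?_, ?_⟩, ?_, ?_⟩ <;> linarith

end Pool.Agent.TET
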