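import Pool.Agent.Helper38_TET.TP_C

/-!
# MP_c7c9bf_co: certificates, family TP
-/

set_option autoImplicit false
set_option maxRecDepth 100000

namespace Pool.Agent.TET

theorem TP_rg72 : ROK [.q ⟨-1, 1, 0, 0⟩ ⟨-2027, 107, 1920, 0⟩, .q ⟨-1, 1, 0, 0⟩ ⟨1813, 107, -1920, 0⟩, .l ⟨0, 0, -30, -19⟩ ⟨0, 0, 0, 1⟩, .l ⟨0, 0, 120, 89⟩ ⟨0, 0, 0, 1⟩] := by
  refine rok_p (k := 1) (by decide) (Q := [(1920, 0, 107), (-1920, 0, 107), (0, 30, -19), (0, -120, 89)])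
    (P := [⟨3287040, 1920, 0⟩, ⟨3287040, -1920, 0⟩, ⟨-583680, 0, 30⟩, ⟨2734080, 0, -120⟩]) (by decide) rfl rfl
    (List.mem_of_getElem? (i := 72) rfl) TP_fr TP_cov ?_
  · intro X Y h
    simp only [List.forall_mem_cons, List.not_mem_nil, false_imp_iff, implies_true, and_true] at h
    push_cast at h ⊢
    obtain ⟨h0, h1, h2, h3⟩ := h
    refine ⟨⟨?_, ?_⟩, ?_, ?_⟩ <;> linarith

theorem TP_rg73 : ROK [.q ⟨-1, 1, 0, 0⟩ ⟨-643, 3, 640, 0⟩, .q ⟨-1, 1, 0, 0⟩ ⟨1891, 29, -1920, 0⟩, .l ⟨0, 0, -1920, -1801⟩ ⟨0, 0, 0, 1⟩, .l ⟨0, 0, 640, 673⟩ ⟨0, 0, 0, 1⟩] := by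
  refine rok_p (k := 1) (by decide) (Q := [(640, 0, 3), (-1920, 0, 29), (0, 1920, -1801), (0, -640, 673)])
    (P := [⟨92160, 640, 0⟩, ⟨890880, -1920, 0⟩, ⟨-55326720, 0, 1920⟩, ⟨20674560, 0, -640⟩]) (by decide) rfl rfl
    (List.mem_of_getElem? (i := 73) rfl) TP_fr TP_cov ?_
  · intro X Y h
    simp only [List.forall_mem_cons, List.not_mem_nil, false_imp_iff, implies_true, and_true] at h
    push_cast at h ⊢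
    obtain ⟨h0, h1, h2, h3⟩ := h
    refine ⟨⟨?_, ?_⟩, ?_, ?_⟩ <;> linarith

theorem TP_rg74 : ROK [.q ⟨-1, 1, 0, 0⟩ ⟨-1987, 67, 1920, 0⟩, .q ⟨-1, 1, 0, 0⟩ ⟨77, 3, -80, 0⟩, .l ⟨0, 0, -1920, -1103⟩ ⟨0, 0, 0, 1⟩, .l ⟨0, 0, 960, 737⟩ ⟨0, 0, 0, 1⟩] := by
  refine rok_p (k := 1) (by decide) (Q := [(1920, 0, 67), (-80, 0, 3), (0, 1920, -1103), (0, -960, 737)])
    (P := [⟨2058240, 1920, 0⟩, ⟨92160, -80, 0⟩, ⟨-33884160, 0, 1920⟩, ⟨22640640, 0, -960⟩]) (by decide) rfl rfl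
    (List.mem_of_getElem? (i := 74) rfl) TP_fr TP_cov ?_
  · intro X Y h
    simp only [List.forall_mem_cons, List.not_mem_nil, false_imp_iff, implies_true, and_true] at h
    push_cast at h ⊢
    obtain ⟨h0, h1, h2, h3⟩ := h
    refine ⟨⟨?_, ?_⟩, ?_, ?_⟩ <;> linarith

theorem TP_rg75 : ROK [.q ⟨-1, 1, 0, 0⟩ ⟨-671, 31, 640, 0⟩, .q ⟨-1, 1, 0, 0⟩ ⟨457, 23, -480, 0⟩, .l ⟨0, 0, -120, -73⟩ ⟨0, 0, 0, 1⟩, .l ⟨0, 0, 1920, 1439⟩ ⟨0, 0, 0, 1⟩] := by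
  refine rok_p (k := 1) (by decide) (Q := [(640, 0, 31), (-480, 0, 23), (0, 120, -73), (0, -1920, 1439)])
    (P := [⟨952320, 640, 0⟩, ⟨706560, -480, 0⟩, ⟨-2242560, 0, 120⟩, ⟨44206080, 0, -1920⟩]) (by decide) rfl rfl
    (List.mem_of_getElem? (i := 75) rfl) TP_fr TP_cov ?_
  · intro X Y h
    simp only [List.forall_mem_cons, List.not_mem_nil, false_imp_iff, implies_true, and_true] at h
    push_cast at h ⊢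
    obtain ⟨h0, h1, h2, h3⟩ := h
    refine ⟨⟨?_, ?_⟩, ?_, ?_⟩ <;> linarith

theorem TP_rg76 : ROK [.q ⟨-1, 1, 0, 0⟩ ⟨-333, 13, 320, 0⟩, .q ⟨-1, 1, 0, 0⟩ ⟨1841, 79, -1920, 0⟩, .l ⟨0, 0, -960, -563⟩ ⟨0, 0, 0, 1⟩, .l ⟨0, 0, 1920, 1459⟩ ⟨0, 0, 0, 1⟩] := by
  refine rok_p (k := 1) (by decide) (Q := [(320, 0, 13), (-1920, 0, 79), (0, 960, -563), (0, -1920, 1459)])
    (P := [⟨399360, 320, 0⟩, ⟨2426880, -1920, 0⟩, ⟨-17295360, 0, 960⟩, ⟨44820480, 0, -1920⟩]) (by decide) rfl rfl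
    (List.mem_of_getElem? (i := 76) rfl) TP_fr TP_cov ?_
  · intro X Y h
    simp only [List.forall_mem_cons, List.not_mem_nil, false_imp_iff, implies_true, and_true] at h
    push_cast at h ⊢
    obtain ⟨h0, h1, h2, h3⟩ := h
    refine ⟨⟨?_, ?_⟩, ?_, ?_⟩ <;> linarith

theorem TP_rg77 : ROK [.q ⟨-1, 1, 0, 0⟩ ⟨-119, -9, 128, 0⟩, .q ⟨-1, 1, 0, 0⟩ ⟨961, 959, -1920, 0⟩, .l ⟨0, 0, -1920, 37⟩ ⟨0, 0, 0, 1⟩, .l ⟨0, 0, 160, 9⟩ ⟨0, 0, 0, 1⟩] := by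
  refine rok_p (k := 1) (by decide) (Q := [(128, 0, -9), (-1920, 0, 959), (0, 1920, 37), (0, -160, 9)])
    (P := [⟨-276480, 128, 0⟩, ⟨29460480, -1920, 0⟩, ⟨1136640, 0, 1920⟩, ⟨276480, 0, -160⟩]) (by decide) rfl rfl
    (List.mem_of_getElem? (i := 77) rfl) TP_fr TP_cov ?_
  · intro X Y h
    simp only [List.forall_mem_cons, List.not_mem_nil, false_imp_iff, implies_true, and_true] at h
    push_cast at h ⊢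
    obtain ⟨h0, h1, h2, h3⟩ := h
    refine ⟨⟨?_, ?_⟩, ?_, ?_⟩ <;> linarith

theorem TP_rg78 : ROK [.q ⟨-1, 1, 0, 0⟩ ⟨-1939, 19, 1920, 0⟩, .q ⟨-1, 1, 0, 0⟩ ⟨621, 19, -640, 0⟩, .l ⟨0, 0, -960, -529⟩ ⟨0, 0, 0, 1⟩, .l ⟨0, 0, 960, 761⟩ ⟨0, 0, 0, 1⟩] := by
  refine rok_p (k := 1) (by decide) (Q := [(1920, 0, 19), (-640, 0, 19), (0, 960, -529), (0, -960, 761)])
    (P := [⟨583680, 1920, 0⟩, ⟨583680, -640, 0⟩, ⟨-16250880, 0, 960⟩, ⟨23377920, 0, -960⟩]) (by decide) rfl rfl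
    (List.mem_of_getElem? (i := 78) rfl) TP_fr TP_cov ?_
  · intro X Y h
    simp only [List.forall_mem_cons, List.not_mem_nil, false_imp_iff, implies_true, and_true] at h
    push_cast at h ⊢
    obtain ⟨h0, h1, h2, h3⟩ := h
    refine ⟨⟨?_, ?_⟩, ?_, ?_⟩ <;> linarith

theorem TP_rg79 : ROK [.q ⟨-1, 1, 0, 0⟩ ⟨-1717, -203, 1920, 0⟩, .q ⟨-1, 1, 0, 0⟩ ⟨961, 959, -1920, 0⟩, .l ⟨0, 0, -320, 7⟩ ⟨0, 0, 0, 1⟩, .l ⟨0, 0, 1920, 127⟩ ⟨0, 0, 0, 1⟩] := by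
  refine rok_p (k := 1) (by decide) (Q := [(1920, 0, -203), (-1920, 0, 959), (0, 320, 7), (0, -1920, 127)])
    (P := [⟨-6236160, 1920, 0⟩, ⟨29460480, -1920, 0⟩, ⟨215040, 0, 320⟩, ⟨3901440, 0, -1920⟩]) (by decide) rfl rfl
    (List.mem_of_getElem? (i := 79) rfl) TP_fr TP_cov ?_
  · intro X Y h
    simp only [List.forall_mem_cons, List.not_mem_nil, false_imp_iff, implies_true, and_true] at h
    push_cast at h ⊢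
    obtain ⟨h0, h1, h2, h3⟩ := h
    refine ⟨⟨?_, ?_⟩, ?_, ?_⟩ <;> linarith

theorem TP_rg80 : ROK [.q ⟨-1, 1, 0, 0⟩ ⟨-977, 17, 960, 0⟩, .q ⟨-1, 1, 0, 0⟩ ⟨943, 17, -960, 0⟩, .l ⟨0, 0, -960, -923⟩ ⟨0, 0, 0, 1⟩, .l ⟨0, 0, 480, 493⟩ ⟨0, 0, 0, 1⟩] := by
  refine rok_p (k := 1) (by decide) (Q := [(960, 0, 17), (-960, 0, 17), (0, 960, -923), (0, -480, 493)])
    (P := [⟨522240, 960, 0⟩, ⟨522240, -960, 0⟩, ⟨-28354560, 0, 960⟩, ⟨15144960, 0, -480⟩]) (by decide) rfl rfl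
    (List.mem_of_getElem? (i := 80) rfl) TP_fr TP_cov ?_
  · intro X Y h
    simp only [List.forall_mem_cons, List.not_mem_nil, false_imp_iff, implies_true, and_true] at h
    push_cast at h ⊢
    obtain ⟨h0, h1, h2, h3⟩ := h
    refine ⟨⟨?_, ?_⟩, ?_, ?_⟩ <;> linarith

theorem TP_rg81 : ROK [.q ⟨-1, 1, 0, 0⟩ ⟨-683, 43, 640, 0⟩, .q ⟨-1, 1, 0, 0⟩ ⟨1801, 119, -1920, 0⟩, .l ⟨0, 0, -640, -427⟩ ⟨0, 0, 0, 1⟩, .l ⟨0, 0, 1920, 1397⟩ ⟨0, 0, 0, 1⟩] := by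
  refine rok_p (k := 1) (by decide) (Q := [(640, 0, 43), (-1920, 0, 119), (0, 640, -427), (0, -1920, 1397)])
    (P := [⟨1320960, 640, 0⟩, ⟨3655680, -1920, 0⟩, ⟨-13117440, 0, 640⟩, ⟨42915840, 0, -1920⟩]) (by decide) rfl rfl
    (List.mem_of_getElem? (i := 81) rfl) TP_fr TP_cov ?_
  · intro X Y h
    simp only [List.forall_mem_cons, List.not_mem_nil, false_imp_iff, implies_true, and_true] at h
    push_cast at h ⊢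
    obtain ⟨h0, h1, h2, h3⟩ := h
    refine ⟨⟨?_, ?_⟩, ?_, ?_⟩ <;> linarith

theorem TP_rg82 : ROK [.q ⟨-1, 1, 0, 0⟩ ⟨-1997, 77, 1920, 0⟩, .q ⟨-1, 1, 0, 0⟩ ⟨1843, 77, -1920, 0⟩, .l ⟨0, 0, -320, -187⟩ ⟨0, 0, 0, 1⟩, .l ⟨0, 0, 960, 731⟩ ⟨0, 0, 0, 1⟩] := by
  refine rok_p (k := 1) (by decide) (Q := [(1920, 0, 77), (-1920, 0, 77), (0, 320, -187), (0, -960, 731)])
    (P := [⟨2365440, 1920, 0⟩, ⟨2365440, -1920, 0⟩, ⟨-5744640, 0, 320⟩, ⟨22456320, 0, -960⟩]) (by decide) rfl rfl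
    (List.mem_of_getElem? (i := 82) rfl) TP_fr TP_cov ?_
  · intro X Y h
    simp only [List.forall_mem_cons, List.not_mem_nil, false_imp_iff, implies_true, and_true] at h
    push_cast at h ⊢
    obtain ⟨h0, h1, h2, h3⟩ := h
    refine ⟨⟨?_, ?_⟩, ?_, ?_⟩ <;> linarith

theorem TP_rg83 : ROK [.q ⟨-1, 1, 0, 0⟩ ⟨-1459, -461, 1920, 0⟩, .q ⟨-1, 1, 0, 0⟩ ⟨961, 959, -1920, 0⟩, .l ⟨0, 0, -640, 33⟩ ⟨0, 0, 0, 1⟩, .l ⟨0, 0, 1920, 1019⟩ ⟨0, 0, 0, 1⟩] := by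
  refine rok_p (k := 1) (by decide) (Q := [(1920, 0, -461), (-1920, 0, 959), (0, 640, 33), (0, -1920, 1019)])
    (P := [⟨-14161920, 1920, 0⟩, ⟨29460480, -1920, 0⟩, ⟨1013760, 0, 640⟩, ⟨31303680, 0, -1920⟩]) (by decide) rfl rfl
    (List.mem_of_getElem? (i := 83) rfl) TP_fr TP_cov ?_
  · intro X Y h
    simp only [List.forall_mem_cons, List.not_mem_nil, false_imp_iff, implies_true, and_true] at h
    push_cast at h ⊢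
    obtain ⟨h0, h1, h2, h3⟩ := h
    refine ⟨⟨?_, ?_⟩, ?_, ?_⟩ <;> linarith

theorem TP_rg84 : ROK [.q ⟨-1, 1, 0, 0⟩ ⟨-659, 19, 640, 0⟩, .q ⟨-1, 1, 0, 0⟩ ⟨119, 9, -128, 0⟩, .l ⟨0, 0, -192, -131⟩ ⟨0, 0, 0, 1⟩, .l ⟨0, 0, 1920, 1487⟩ ⟨0, 0, 0, 1⟩] := by
  refine rok_p (k := 1) (by decide) (Q := [(640, 0, 19), (-128, 0, 9), (0, 192, -131), (0, -1920, 1487)])
    (P := [⟨583680, 640, 0⟩, ⟨276480, -128, 0⟩, ⟨-4024320, 0, 192⟩, ⟨45680640, 0, -1920⟩]) (by decide) rfl rfl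
    (List.mem_of_getElem? (i := 84) rfl) TP_fr TP_cov ?_
  · intro X Y h
    simp only [List.forall_mem_cons, List.not_mem_nil, false_imp_iff, implies_true, and_true] at h
    push_cast at h ⊢
    obtain ⟨h0, h1, h2, h3⟩ := h
    refine ⟨⟨?_, ?_⟩, ?_, ?_⟩ <;> linarith

theorem TP_rg85 : ROK [.q ⟨-1, 1, 0, 0⟩ ⟨-493, 13, 480, 0⟩, .q ⟨-1, 1, 0, 0⟩ ⟨1861, 59, -1920, 0⟩, .l ⟨0, 0, -1920, -1063⟩ ⟨0, 0, 0, 1⟩, .l ⟨0, 0, 320, 249⟩ ⟨0, 0, 0, 1⟩] := by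
  refine rok_p (k := 1) (by decide) (Q := [(480, 0, 13), (-1920, 0, 59), (0, 1920, -1063), (0, -320, 249)])
    (P := [⟨399360, 480, 0⟩, ⟨1812480, -1920, 0⟩, ⟨-32655360, 0, 1920⟩, ⟨7649280, 0, -320⟩]) (by decide) rfl rfl
    (List.mem_of_getElem? (i := 85) rfl) TP_fr TP_cov ?_
  · intro X Y h
    simp only [List.forall_mem_cons, List.not_mem_nil, false_imp_iff, implies_true, and_true] at h
    push_cast at h ⊢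
    obtain ⟨h0, h1, h2, h3⟩ := h
    refine ⟨⟨?_, ?_⟩, ?_, ?_⟩ <;> linarith

theorem TP_rg86 : ROK [.q ⟨-1, 1, 0, 0⟩ ⟨-1949, 29, 1920, 0⟩, .q ⟨-1, 1, 0, 0⟩ ⟨929, 31, -960, 0⟩, .l ⟨0, 0, -1920, -1073⟩ ⟨0, 0, 0, 1⟩, .l ⟨0, 0, 1920, 1519⟩ ⟨0, 0, 0, 1⟩] := by
  refine rok_p (k := 1) (by decide) (Q := [(1920, 0, 29), (-960, 0, 31), (0, 1920, -1073), (0, -1920, 1519)])
    (P := [⟨890880, 1920, 0⟩, ⟨952320, -960, 0⟩, ⟨-32962560, 0, 1920⟩, ⟨46663680, 0, -1920⟩]) (by decide) rfl rfl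
    (List.mem_of_getElem? (i := 86) rfl) TP_fr TP_cov ?_
  · intro X Y h
    simp only [List.forall_mem_cons, List.not_mem_nil, false_imp_iff, implies_true, and_true] at h
    push_cast at h ⊢
    obtain ⟨h0, h1, h2, h3⟩ := h
    refine ⟨⟨?_, ?_⟩, ?_, ?_⟩ <;> linarith

theorem TP_rg87 : ROK [.q ⟨-1, 1, 0, 0⟩ ⟨-2059, 139, 1920, 0⟩, .q ⟨-1, 1, 0, 0⟩ ⟨893, 67, -960, 0⟩, .l ⟨0, 0, -1920, -1303⟩ ⟨0, 0, 0, 1⟩, .l ⟨0, 0, 320, 231⟩ ⟨0, 0, 0, 1⟩] := by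
  refine rok_p (k := 1) (by decide) (Q := [(1920, 0, 139), (-960, 0, 67), (0, 1920, -1303), (0, -320, 231)])
    (P := [⟨4270080, 1920, 0⟩, ⟨2058240, -960, 0⟩, ⟨-40028160, 0, 1920⟩, ⟨7096320, 0, -320⟩]) (by decide) rfl rfl
    (List.mem_of_getElem? (i := 87) rfl) TP_fr TP_cov ?_
  · intro X Y h
    simp only [List.forall_mem_cons, List.not_mem_nil, false_imp_iff, implies_true, and_true] at h
    push_cast at h ⊢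
    obtain ⟨h0, h1, h2, h3⟩ := h
    refine ⟨⟨?_, ?_⟩, ?_, ?_⟩ <;> linarith

theorem TP_rg88 : ROK [.q ⟨-1, 1, 0, 0⟩ ⟨-1949, 29, 1920, 0⟩, .q ⟨-1, 1, 0, 0⟩ ⟨943, 17, -960, 0⟩, .l ⟨0, 0, -960, -913⟩ ⟨0, 0, 0, 1⟩, .l ⟨0, 0, 30, 31⟩ ⟨0, 0, 0, 1⟩] := by
  refine rok_p (k := 1) (by decide) (Q := [(1920, 0, 29), (-960, 0, 17), (0, 960, -913), (0, -30, 31)])
    (P := [⟨890880, 1920, 0⟩, ⟨522240, -960, 0⟩, ⟨-28047360, 0, 960⟩, ⟨952320, 0, -30⟩]) (by decide) rfl rfl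
    (List.mem_of_getElem? (i := 88) rfl) TP_fr TP_cov ?_
  · intro X Y h
    simp only [List.forall_mem_cons, List.not_mem_nil, false_imp_iff, implies_true, and_true] at h
    push_cast at h ⊢
    obtain ⟨h0, h1, h2, h3⟩ := h
    refine ⟨⟨?_, ?_⟩, ?_, ?_⟩ <;> linarith

theorem TP_rg89 : ROK [.q ⟨-1, 1, 0, 0⟩ ⟨-643, 3, 640, 0⟩, .q ⟨-1, 1, 0, 0⟩ ⟨627, 13, -640, 0⟩, .l ⟨0, 0, -40, -21⟩ ⟨0, 0, 0, 1⟩, .l ⟨0, 0, 640, 513⟩ ⟨0, 0, 0, 1⟩] := by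
  refine rok_p (k := 1) (by decide) (Q := [(640, 0, 3), (-640, 0, 13), (0, 40, -21), (0, -640, 513)])
    (P := [⟨92160, 640, 0⟩, ⟨399360, -640, 0⟩, ⟨-645120, 0, 40⟩, ⟨15759360, 0, -640⟩]) (by decide) rfl rfl
    (List.mem_of_getElem? (i := 89) rfl) TP_fr TP_cov ?_
  · intro X Y h
    simp only [List.forall_mem_cons, List.not_mem_nil, false_imp_iff, implies_true, and_true] at h
    push_cast at h ⊢
    obtain ⟨h0, h1, h2, h3⟩ := h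
    refine ⟨⟨?_, ?_⟩, ?_, ?_⟩ <;> linarith

theorem TP_rg90 : ROK [.q ⟨-1, 1, 0, 0⟩ ⟨-643, 3, 640, 0⟩, .q ⟨-1, 1, 0, 0⟩ ⟨943, 17, -960, 0⟩, .l ⟨0, 0, -1920, -1811⟩ ⟨0, 0, 0, 1⟩, .l ⟨0, 0, 1920, 2009⟩ ⟨0, 0, 0, 1⟩] := by
  refine rok_p (k := 1) (by decide) (Q := [(640, 0, 3), (-960, 0, 17), (0, 1920, -1811), (0, -1920, 2009)])
    (P := [⟨92160, 640, 0⟩, ⟨522240, -960, 0⟩, ⟨-55633920, 0, 1920⟩, ⟨61716480, 0, -1920⟩]) (by decide) rfl rfl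
    (List.mem_of_getElem? (i := 90) rfl) TP_fr TP_cov ?_
  · intro X Y h
    simp only [List.forall_mem_cons, List.not_mem_nil, false_imp_iff, implies_true, and_true] at h
    push_cast at h ⊢
    obtain ⟨h0, h1, h2, h3⟩ := h
    refine ⟨⟨?_, ?_⟩, ?_, ?_⟩ <;> linarith

theorem TP_rg91 : ROK [.q ⟨-1, 1, 0, 0⟩ ⟨-1727, -193, 1920, 0⟩, .q ⟨-1, 1, 0, 0⟩ ⟨961, 959, -1920, 0⟩, .l ⟨0, 0, -640, 13⟩ ⟨0, 0, 0, 1⟩, .l ⟨0, 0, 480, 31⟩ ⟨0, 0, 0, 1⟩] := by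
  refine rok_p (k := 1) (by decide) (Q := [(1920, 0, -193), (-1920, 0, 959), (0, 640, 13), (0, -480, 31)])
    (P := [⟨-5928960, 1920, 0⟩, ⟨29460480, -1920, 0⟩, ⟨399360, 0, 640⟩, ⟨952320, 0, -480⟩]) (by decide) rfl rfl
    (List.mem_of_getElem? (i := 91) rfl) TP_fr TP_cov ?_
  · intro X Y h
    simp only [List.forall_mem_cons, List.not_mem_nil, false_imp_iff, implies_true, and_true] at h
    push_cast at h ⊢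
    obtain ⟨h0, h1, h2, h3⟩ := h
    refine ⟨⟨?_, ?_⟩, ?_, ?_⟩ <;> linarith

theorem TP_rg92 : ROK [.q ⟨-1, 1, 0, 0⟩ ⟨-1957, 37, 1920, 0⟩, .q ⟨-1, 1, 0, 0⟩ ⟨1883, 37, -1920, 0⟩, .l ⟨0, 0, -320, -167⟩ ⟨0, 0, 0, 1⟩, .l ⟨0, 0, 960, 757⟩ ⟨0, 0, 0, 1⟩] := by
  refine rok_p (k := 1) (by decide) (Q := [(1920, 0, 37), (-1920, 0, 37), (0, 320, -167), (0, -960, 757)])
    (P := [⟨1136640, 1920, 0⟩, ⟨1136640, -1920, 0⟩, ⟨-5130240, 0, 320⟩, ⟨23255040, 0, -960⟩]) (by decide) rfl rfl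
    (List.mem_of_getElem? (i := 92) rfl) TP_fr TP_cov ?_
  · intro X Y h
    simp only [List.forall_mem_cons, List.not_mem_nil, false_imp_iff, implies_true, and_true] at h
    push_cast at h ⊢
    obtain ⟨h0, h1, h2, h3⟩ := h
    refine ⟨⟨?_, ?_⟩, ?_, ?_⟩ <;> linarith

theorem TP_rg93 : ROK [.q ⟨-1, 1, 0, 0⟩ ⟨-253, 13, 240, 0⟩, .q ⟨-1, 1, 0, 0⟩ ⟨1813, 107, -1920, 0⟩, .l ⟨0, 0, -240, -151⟩ ⟨0, 0, 0, 1⟩, .l ⟨0, 0, 1920, 1427⟩ ⟨0, 0, 0, 1⟩] := by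
  refine rok_p (k := 1) (by decide) (Q := [(240, 0, 13), (-1920, 0, 107), (0, 240, -151), (0, -1920, 1427)])
    (P := [⟨399360, 240, 0⟩, ⟨3287040, -1920, 0⟩, ⟨-4638720, 0, 240⟩, ⟨43837440, 0, -1920⟩]) (by decide) rfl rfl
    (List.mem_of_getElem? (i := 93) rfl) TP_fr TP_cov ?_
  · intro X Y h
    simp only [List.forall_mem_cons, List.not_mem_nil, false_imp_iff, implies_true, and_true] at h
    push_cast at h ⊢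
    obtain ⟨h0, h1, h2, h3⟩ := h
    refine ⟨⟨?_, ?_⟩, ?_, ?_⟩ <;> linarith

theorem TP_rg94 : ROK [.q ⟨-1, 1, 0, 0⟩ ⟨-2017, 97, 1920, 0⟩, .q ⟨-1, 1, 0, 0⟩ ⟨607, 33, -640, 0⟩, .l ⟨0, 0, -960, -593⟩ ⟨0, 0, 0, 1⟩, .l ⟨0, 0, 640, 479⟩ ⟨0, 0, 0, 1⟩] := by
  refine rok_p (k := 1) (by decide) (Q := [(1920, 0, 97), (-640, 0, 33), (0, 960, -593), (0, -640, 479)])
    (P := [⟨2979840, 1920, 0⟩, ⟨1013760, -640, 0⟩, ⟨-18216960, 0, 960⟩, ⟨14714880, 0, -640⟩]) (by decide) rfl rfl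
    (List.mem_of_getElem? (i := 94) rfl) TP_fr TP_cov ?_
  · intro X Y h
    simp only [List.forall_mem_cons, List.not_mem_nil, false_imp_iff, implies_true, and_true] at h
    push_cast at h ⊢
    obtain ⟨h0, h1, h2, h3⟩ := h
    refine ⟨⟨?_, ?_⟩, ?_, ?_⟩ <;> linarith

theorem TP_rg95 : ROK [.q ⟨-1, 1, 0, 0⟩ ⟨-167, 7, 160, 0⟩, .q ⟨-1, 1, 0, 0⟩ ⟨153, 7, -160, 0⟩, .l ⟨0, 0, -640, -381⟩ ⟨0, 0, 0, 1⟩, .l ⟨0, 0, 960, 577⟩ ⟨0, 0, 0, 1⟩] := by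
  refine rok_p (k := 1) (by decide) (Q := [(160, 0, 7), (-160, 0, 7), (0, 640, -381), (0, -960, 577)])
    (P := [⟨215040, 160, 0⟩, ⟨215040, -160, 0⟩, ⟨-11704320, 0, 640⟩, ⟨17725440, 0, -960⟩]) (by decide) rfl rfl
    (List.mem_of_getElem? (i := 95) rfl) TP_fr TP_cov ?_
  · intro X Y h
    simp only [List.forall_mem_cons, List.not_mem_nil, false_imp_iff, implies_true, and_true] at h
    push_cast at h ⊢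
    obtain ⟨h0, h1, h2, h3⟩ := h
    refine ⟨⟨?_, ?_⟩, ?_, ?_⟩ <;> linarith

end Pool.Agent.TET
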