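import Pool.Agent.Helper38_TET.TP_C

/-!
# MP_c7c9bf_co: certificates, family TP
-/

set_option autoImplicit false
set_option maxRecDepth 100000

namespace Pool.Agent.TET

theorem TP_rg96 : ROK [.q ⟨-1, 1, 0, 0⟩ ⟨-1987, 67, 1920, 0⟩, .q ⟨-1, 1, 0, 0⟩ ⟨617, 23, -640, 0⟩, .l ⟨0, 0, -640, -367⟩ ⟨0, 0, 0, 1⟩, .l ⟨0, 0, 960, 737⟩ ⟨0, 0, 0, 1⟩] := by
  refine rok_p (k := 1) (by decide) (Q := [(1920, 0, 67), (-640, 0, 23), (0, 640, -367), (0, -960, 737)])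
    (P := [⟨2058240, 1920, 0⟩, ⟨706560, -640, 0⟩, ⟨-11274240, 0, 640⟩, ⟨22640640, 0, -960⟩]) (by decide) rfl rfl
    (List.mem_of_getElem? (i := 96) rfl) TP_fr TP_cov ?_
  · intro X Y h
    simp only [List.forall_mem_cons, List.not_mem_nil, false_imp_iff, implies_true, and_true] at h
    push_cast at h ⊢
    obtain ⟨h0, h1, h2, h3⟩ := h
    refine ⟨⟨?_, ?_⟩, ?_, ?_⟩ <;> linarith

theorem TP_rg97 : ROK [.q ⟨-1, 1, 0, 0⟩ ⟨-991, 31, 960, 0⟩, .q ⟨-1, 1, 0, 0⟩ ⟨1853, 67, -1920, 0⟩, .l ⟨0, 0, -30, -17⟩ ⟨0, 0, 0, 1⟩, .l ⟨0, 0, 320, 247⟩ ⟨0, 0, 0, 1⟩] := by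
  refine rok_p (k := 1) (by decide) (Q := [(960, 0, 31), (-1920, 0, 67), (0, 30, -17), (0, -320, 247)])
    (P := [⟨952320, 960, 0⟩, ⟨2058240, -1920, 0⟩, ⟨-522240, 0, 30⟩, ⟨7587840, 0, -320⟩]) (by decide) rfl rfl
    (List.mem_of_getElem? (i := 97) rfl) TP_fr TP_cov ?_
  · intro X Y h
    simp only [List.forall_mem_cons, List.not_mem_nil, false_imp_iff, implies_true, and_true] at h
    push_cast at h ⊢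
    obtain ⟨h0, h1, h2, h3⟩ := h
    refine ⟨⟨?_, ?_⟩, ?_, ?_⟩ <;> linarith

theorem TP_rg98 : ROK [.q ⟨-1, 1, 0, 0⟩ ⟨-171, 11, 160, 0⟩, .q ⟨-1, 1, 0, 0⟩ ⟨1801, 119, -1920, 0⟩, .l ⟨0, 0, -640, -427⟩ ⟨0, 0, 0, 1⟩, .l ⟨0, 0, 40, 29⟩ ⟨0, 0, 0, 1⟩] := by
  refine rok_p (k := 1) (by decide) (Q := [(160, 0, 11), (-1920, 0, 119), (0, 640, -427), (0, -40, 29)])
    (P := [⟨337920, 160, 0⟩, ⟨3655680, -1920, 0⟩, ⟨-13117440, 0, 640⟩, ⟨890880, 0, -40⟩]) (by decide) rfl rfl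
    (List.mem_of_getElem? (i := 98) rfl) TP_fr TP_cov ?_
  · intro X Y h
    simp only [List.forall_mem_cons, List.not_mem_nil, false_imp_iff, implies_true, and_true] at h
    push_cast at h ⊢
    obtain ⟨h0, h1, h2, h3⟩ := h
    refine ⟨⟨?_, ?_⟩, ?_, ?_⟩ <;> linarith

theorem TP_rg99 : ROK [.q ⟨-1, 1, 0, 0⟩ ⟨-659, 19, 640, 0⟩, .q ⟨-1, 1, 0, 0⟩ ⟨29, 1, -30, 0⟩, .l ⟨0, 0, -960, -539⟩ ⟨0, 0, 0, 1⟩, .l ⟨0, 0, 1920, 1487⟩ ⟨0, 0, 0, 1⟩] := by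
  refine rok_p (k := 1) (by decide) (Q := [(640, 0, 19), (-30, 0, 1), (0, 960, -539), (0, -1920, 1487)])
    (P := [⟨583680, 640, 0⟩, ⟨30720, -30, 0⟩, ⟨-16558080, 0, 960⟩, ⟨45680640, 0, -1920⟩]) (by decide) rfl rfl
    (List.mem_of_getElem? (i := 99) rfl) TP_fr TP_cov ?_
  · intro X Y h
    simp only [List.forall_mem_cons, List.not_mem_nil, false_imp_iff, implies_true, and_true] at h
    push_cast at h ⊢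
    obtain ⟨h0, h1, h2, h3⟩ := h
    refine ⟨⟨?_, ?_⟩, ?_, ?_⟩ <;> linarith

theorem TP_rg100 : ROK [.q ⟨-1, 1, 0, 0⟩ ⟨-259, 19, 240, 0⟩, .q ⟨-1, 1, 0, 0⟩ ⟨1781, 139, -1920, 0⟩, .l ⟨0, 0, -320, -223⟩ ⟨0, 0, 0, 1⟩, .l ⟨0, 0, 1920, 1367⟩ ⟨0, 0, 0, 1⟩] := by
  refine rok_p (k := 1) (by decide) (Q := [(240, 0, 19), (-1920, 0, 139), (0, 320, -223), (0, -1920, 1367)])
    (P := [⟨583680, 240, 0⟩, ⟨4270080, -1920, 0⟩, ⟨-6850560, 0, 320⟩, ⟨41994240, 0, -1920⟩]) (by decide) rfl rfl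
    (List.mem_of_getElem? (i := 100) rfl) TP_fr TP_cov ?_
  · intro X Y h
    simp only [List.forall_mem_cons, List.not_mem_nil, false_imp_iff, implies_true, and_true] at h
    push_cast at h ⊢
    obtain ⟨h0, h1, h2, h3⟩ := h
    refine ⟨⟨?_, ?_⟩, ?_, ?_⟩ <;> linarith

theorem TP_rg101 : ROK [.q ⟨-1, 1, 0, 0⟩ ⟨-2029, 109, 1920, 0⟩, .q ⟨-1, 1, 0, 0⟩ ⟨1813, 107, -1920, 0⟩, .l ⟨0, 0, -640, -407⟩ ⟨0, 0, 0, 1⟩, .l ⟨0, 0, 640, 473⟩ ⟨0, 0, 0, 1⟩] := by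
  refine rok_p (k := 1) (by decide) (Q := [(1920, 0, 109), (-1920, 0, 107), (0, 640, -407), (0, -640, 473)])
    (P := [⟨3348480, 1920, 0⟩, ⟨3287040, -1920, 0⟩, ⟨-12503040, 0, 640⟩, ⟨14530560, 0, -640⟩]) (by decide) rfl rfl
    (List.mem_of_getElem? (i := 101) rfl) TP_fr TP_cov ?_
  · intro X Y h
    simp only [List.forall_mem_cons, List.not_mem_nil, false_imp_iff, implies_true, and_true] at h
    push_cast at h ⊢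
    obtain ⟨h0, h1, h2, h3⟩ := h
    refine ⟨⟨?_, ?_⟩, ?_, ?_⟩ <;> linarith

theorem TP_rg102 : ROK [.q ⟨-1, 1, 0, 0⟩ ⟨-339, 19, 320, 0⟩, .q ⟨-1, 1, 0, 0⟩ ⟨1801, 119, -1920, 0⟩, .l ⟨0, 0, -240, -157⟩ ⟨0, 0, 0, 1⟩, .l ⟨0, 0, 960, 707⟩ ⟨0, 0, 0, 1⟩] := by
  refine rok_p (k := 1) (by decide) (Q := [(320, 0, 19), (-1920, 0, 119), (0, 240, -157), (0, -960, 707)])
    (P := [⟨583680, 320, 0⟩, ⟨3655680, -1920, 0⟩, ⟨-4823040, 0, 240⟩, ⟨21719040, 0, -960⟩]) (by decide) rfl rfl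
    (List.mem_of_getElem? (i := 102) rfl) TP_fr TP_cov ?_
  · intro X Y h
    simp only [List.forall_mem_cons, List.not_mem_nil, false_imp_iff, implies_true, and_true] at h
    push_cast at h ⊢
    obtain ⟨h0, h1, h2, h3⟩ := h
    refine ⟨⟨?_, ?_⟩, ?_, ?_⟩ <;> linarith

theorem TP_rg103 : ROK [.q ⟨-1, 1, 0, 0⟩ ⟨-877, -83, 960, 0⟩, .q ⟨-1, 1, 0, 0⟩ ⟨961, 959, -1920, 0⟩, .l ⟨0, 0, -640, 13⟩ ⟨0, 0, 0, 1⟩, .l ⟨0, 0, 640, 39⟩ ⟨0, 0, 0, 1⟩] := by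
  refine rok_p (k := 1) (by decide) (Q := [(960, 0, -83), (-1920, 0, 959), (0, 640, 13), (0, -640, 39)])
    (P := [⟨-2549760, 960, 0⟩, ⟨29460480, -1920, 0⟩, ⟨399360, 0, 640⟩, ⟨1198080, 0, -640⟩]) (by decide) rfl rfl
    (List.mem_of_getElem? (i := 103) rfl) TP_fr TP_cov ?_
  · intro X Y h
    simp only [List.forall_mem_cons, List.not_mem_nil, false_imp_iff, implies_true, and_true] at h
    push_cast at h ⊢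
    obtain ⟨h0, h1, h2, h3⟩ := h
    refine ⟨⟨?_, ?_⟩, ?_, ?_⟩ <;> linarith

theorem TP_rg104 : ROK [.q ⟨-1, 1, 0, 0⟩ ⟨-289, -31, 320, 0⟩, .q ⟨-1, 1, 0, 0⟩ ⟨961, 959, -1920, 0⟩, .l ⟨0, 0, -640, 13⟩ ⟨0, 0, 0, 1⟩, .l ⟨0, 0, 960, 61⟩ ⟨0, 0, 0, 1⟩] := by
  refine rok_p (k := 1) (by decide) (Q := [(320, 0, -31), (-1920, 0, 959), (0, 640, 13), (0, -960, 61)])
    (P := [⟨-952320, 320, 0⟩, ⟨29460480, -1920, 0⟩, ⟨399360, 0, 640⟩, ⟨1873920, 0, -960⟩]) (by decide) rfl rfl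
    (List.mem_of_getElem? (i := 104) rfl) TP_fr TP_cov ?_
  · intro X Y h
    simp only [List.forall_mem_cons, List.not_mem_nil, false_imp_iff, implies_true, and_true] at h
    push_cast at h ⊢
    obtain ⟨h0, h1, h2, h3⟩ := h
    refine ⟨⟨?_, ?_⟩, ?_, ?_⟩ <;> linarith

theorem TP_rg105 : ROK [.q ⟨-1, 1, 0, 0⟩ ⟨-1919, -1, 1920, 0⟩, .q ⟨-1, 1, 0, 0⟩ ⟨1901, 19, -1920, 0⟩, .l ⟨0, 0, -1920, -931⟩ ⟨0, 0, 0, 1⟩, .l ⟨0, 0, 1920, 1549⟩ ⟨0, 0, 0, 1⟩] := by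
  refine rok_p (k := 1) (by decide) (Q := [(1920, 0, -1), (-1920, 0, 19), (0, 1920, -931), (0, -1920, 1549)])
    (P := [⟨-30720, 1920, 0⟩, ⟨583680, -1920, 0⟩, ⟨-28600320, 0, 1920⟩, ⟨47585280, 0, -1920⟩]) (by decide) rfl rfl
    (List.mem_of_getElem? (i := 105) rfl) TP_fr TP_cov ?_
  · intro X Y h
    simp only [List.forall_mem_cons, List.not_mem_nil, false_imp_iff, implies_true, and_true] at h
    push_cast at h ⊢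
    obtain ⟨h0, h1, h2, h3⟩ := h
    refine ⟨⟨?_, ?_⟩, ?_, ?_⟩ <;> linarith

theorem TP_rg106 : ROK [.q ⟨-1, 1, 0, 0⟩ ⟨-1099, -821, 1920, 0⟩, .q ⟨-1, 1, 0, 0⟩ ⟨961, 959, -1920, 0⟩, .l ⟨0, 0, -960, 157⟩ ⟨0, 0, 0, 1⟩, .l ⟨0, 0, 640, 463⟩ ⟨0, 0, 0, 1⟩] := by
  refine rok_p (k := 1) (by decide) (Q := [(1920, 0, -821), (-1920, 0, 959), (0, 960, 157), (0, -640, 463)])
    (P := [⟨-25221120, 1920, 0⟩, ⟨29460480, -1920, 0⟩, ⟨4823040, 0, 960⟩, ⟨14223360, 0, -640⟩]) (by decide) rfl rfl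
    (List.mem_of_getElem? (i := 106) rfl) TP_fr TP_cov ?_
  · intro X Y h
    simp only [List.forall_mem_cons, List.not_mem_nil, false_imp_iff, implies_true, and_true] at h
    push_cast at h ⊢
    obtain ⟨h0, h1, h2, h3⟩ := h
    refine ⟨⟨?_, ?_⟩, ?_, ?_⟩ <;> linarith

theorem TP_rg107 : ROK [.q ⟨-1, 1, 0, 0⟩ ⟨-401, 17, 384, 0⟩, .q ⟨-1, 1, 0, 0⟩ ⟨153, 7, -160, 0⟩, .l ⟨0, 0, -384, -229⟩ ⟨0, 0, 0, 1⟩, .l ⟨0, 0, 1920, 1153⟩ ⟨0, 0, 0, 1⟩] := by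
  refine rok_p (k := 1) (by decide) (Q := [(384, 0, 17), (-160, 0, 7), (0, 384, -229), (0, -1920, 1153)])
    (P := [⟨522240, 384, 0⟩, ⟨215040, -160, 0⟩, ⟨-7034880, 0, 384⟩, ⟨35420160, 0, -1920⟩]) (by decide) rfl rfl
    (List.mem_of_getElem? (i := 107) rfl) TP_fr TP_cov ?_
  · intro X Y h
    simp only [List.forall_mem_cons, List.not_mem_nil, false_imp_iff, implies_true, and_true] at h
    push_cast at h ⊢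
    obtain ⟨h0, h1, h2, h3⟩ := h
    refine ⟨⟨?_, ?_⟩, ?_, ?_⟩ <;> linarith

theorem TP_rg108 : ROK [.q ⟨-1, 1, 0, 0⟩ ⟨-383, -257, 640, 0⟩, .q ⟨-1, 1, 0, 0⟩ ⟨961, 959, -1920, 0⟩, .l ⟨0, 0, -1920, 299⟩ ⟨0, 0, 0, 1⟩, .l ⟨0, 0, 640, 453⟩ ⟨0, 0, 0, 1⟩] := by
  refine rok_p (k := 1) (by decide) (Q := [(640, 0, -257), (-1920, 0, 959), (0, 1920, 299), (0, -640, 453)])
    (P := [⟨-7895040, 640, 0⟩, ⟨29460480, -1920, 0⟩, ⟨9185280, 0, 1920⟩, ⟨13916160, 0, -640⟩]) (by decide) rfl rfl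
    (List.mem_of_getElem? (i := 108) rfl) TP_fr TP_cov ?_
  · intro X Y h
    simp only [List.forall_mem_cons, List.not_mem_nil, false_imp_iff, implies_true, and_true] at h
    push_cast at h ⊢
    obtain ⟨h0, h1, h2, h3⟩ := h
    refine ⟨⟨?_, ?_⟩, ?_, ?_⟩ <;> linarith

theorem TP_rg109 : ROK [.q ⟨-1, 1, 0, 0⟩ ⟨-161, 1, 160, 0⟩, .q ⟨-1, 1, 0, 0⟩ ⟨627, 13, -640, 0⟩, .l ⟨0, 0, -1920, -931⟩ ⟨0, 0, 0, 1⟩, .l ⟨0, 0, 240, 119⟩ ⟨0, 0, 0, 1⟩] := by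
  refine rok_p (k := 1) (by decide) (Q := [(160, 0, 1), (-640, 0, 13), (0, 1920, -931), (0, -240, 119)])
    (P := [⟨30720, 160, 0⟩, ⟨399360, -640, 0⟩, ⟨-28600320, 0, 1920⟩, ⟨3655680, 0, -240⟩]) (by decide) rfl rfl
    (List.mem_of_getElem? (i := 109) rfl) TP_fr TP_cov ?_
  · intro X Y h
    simp only [List.forall_mem_cons, List.not_mem_nil, false_imp_iff, implies_true, and_true] at h
    push_cast at h ⊢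
    obtain ⟨h0, h1, h2, h3⟩ := h
    refine ⟨⟨?_, ?_⟩, ?_, ?_⟩ <;> linarith

theorem TP_rg110 : ROK [.q ⟨-1, 1, 0, 0⟩ ⟨-85, -11, 96, 0⟩, .q ⟨-1, 1, 0, 0⟩ ⟨961, 959, -1920, 0⟩, .l ⟨0, 0, -480, 13⟩ ⟨0, 0, 0, 1⟩, .l ⟨0, 0, 1920, 133⟩ ⟨0, 0, 0, 1⟩] := by
  refine rok_p (k := 1) (by decide) (Q := [(96, 0, -11), (-1920, 0, 959), (0, 480, 13), (0, -1920, 133)])
    (P := [⟨-337920, 96, 0⟩, ⟨29460480, -1920, 0⟩, ⟨399360, 0, 480⟩, ⟨4085760, 0, -1920⟩]) (by decide) rfl rfl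
    (List.mem_of_getElem? (i := 110) rfl) TP_fr TP_cov ?_
  · intro X Y h
    simp only [List.forall_mem_cons, List.not_mem_nil, false_imp_iff, implies_true, and_true] at h
    push_cast at h ⊢
    obtain ⟨h0, h1, h2, h3⟩ := h
    refine ⟨⟨?_, ?_⟩, ?_, ?_⟩ <;> linarith

theorem TP_rg111 : ROK [.q ⟨-1, 1, 0, 0⟩ ⟨-407, -73, 480, 0⟩, .q ⟨-1, 1, 0, 0⟩ ⟨961, 959, -1920, 0⟩, .l ⟨0, 0, -384, 13⟩ ⟨0, 0, 0, 1⟩, .l ⟨0, 0, 960, 79⟩ ⟨0, 0, 0, 1⟩] := by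
  refine rok_p (k := 1) (by decide) (Q := [(480, 0, -73), (-1920, 0, 959), (0, 384, 13), (0, -960, 79)])
    (P := [⟨-2242560, 480, 0⟩, ⟨29460480, -1920, 0⟩, ⟨399360, 0, 384⟩, ⟨2426880, 0, -960⟩]) (by decide) rfl rfl
    (List.mem_of_getElem? (i := 111) rfl) TP_fr TP_cov ?_
  · intro X Y h
    simp only [List.forall_mem_cons, List.not_mem_nil, false_imp_iff, implies_true, and_true] at h
    push_cast at h ⊢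
    obtain ⟨h0, h1, h2, h3⟩ := h
    refine ⟨⟨?_, ?_⟩, ?_, ?_⟩ <;> linarith

theorem TP_rg112 : ROK [.q ⟨-1, 1, 0, 0⟩ ⟨-559, -81, 640, 0⟩, .q ⟨-1, 1, 0, 0⟩ ⟨961, 959, -1920, 0⟩, .l ⟨0, 0, -640, 19⟩ ⟨0, 0, 0, 1⟩, .l ⟨0, 0, 96, 7⟩ ⟨0, 0, 0, 1⟩] := by
  refine rok_p (k := 1) (by decide) (Q := [(640, 0, -81), (-1920, 0, 959), (0, 640, 19), (0, -96, 7)])
    (P := [⟨-2488320, 640, 0⟩, ⟨29460480, -1920, 0⟩, ⟨583680, 0, 640⟩, ⟨215040, 0, -96⟩]) (by decide) rfl rfl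
    (List.mem_of_getElem? (i := 112) rfl) TP_fr TP_cov ?_
  · intro X Y h
    simp only [List.forall_mem_cons, List.not_mem_nil, false_imp_iff, implies_true, and_true] at h
    push_cast at h ⊢
    obtain ⟨h0, h1, h2, h3⟩ := h
    refine ⟨⟨?_, ?_⟩, ?_, ?_⟩ <;> linarith

theorem TP_rg113 : ROK [.q ⟨-1, 1, 0, 0⟩ ⟨-1709, -211, 1920, 0⟩, .q ⟨-1, 1, 0, 0⟩ ⟨961, 959, -1920, 0⟩, .l ⟨0, 0, -1920, 49⟩ ⟨0, 0, 0, 1⟩, .l ⟨0, 0, 192, 13⟩ ⟨0, 0, 0, 1⟩] := by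
  refine rok_p (k := 1) (by decide) (Q := [(1920, 0, -211), (-1920, 0, 959), (0, 1920, 49), (0, -192, 13)])
    (P := [⟨-6481920, 1920, 0⟩, ⟨29460480, -1920, 0⟩, ⟨1505280, 0, 1920⟩, ⟨399360, 0, -192⟩]) (by decide) rfl rfl
    (List.mem_of_getElem? (i := 113) rfl) TP_fr TP_cov ?_
  · intro X Y h
    simp only [List.forall_mem_cons, List.not_mem_nil, false_imp_iff, implies_true, and_true] at h
    push_cast at h ⊢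
    obtain ⟨h0, h1, h2, h3⟩ := h
    refine ⟨⟨?_, ?_⟩, ?_, ?_⟩ <;> linarith

theorem TP_rg114 : ROK [.q ⟨-1, 1, 0, 0⟩ ⟨-111, -17, 128, 0⟩, .q ⟨-1, 1, 0, 0⟩ ⟨961, 959, -1920, 0⟩, .l ⟨0, 0, -640, 19⟩ ⟨0, 0, 0, 1⟩, .l ⟨0, 0, 384, 29⟩ ⟨0, 0, 0, 1⟩] := by
  refine rok_p (k := 1) (by decide) (Q := [(128, 0, -17), (-1920, 0, 959), (0, 640, 19), (0, -384, 29)])
    (P := [⟨-522240, 128, 0⟩, ⟨29460480, -1920, 0⟩, ⟨583680, 0, 640⟩, ⟨890880, 0, -384⟩]) (by decide) rfl rfl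
    (List.mem_of_getElem? (i := 114) rfl) TP_fr TP_cov ?_
  · intro X Y h
    simp only [List.forall_mem_cons, List.not_mem_nil, false_imp_iff, implies_true, and_true] at h
    push_cast at h ⊢
    obtain ⟨h0, h1, h2, h3⟩ := h
    refine ⟨⟨?_, ?_⟩, ?_, ?_⟩ <;> linarith

theorem TP_rg115 : ROK [.q ⟨-1, 1, 0, 0⟩ ⟨-1669, -251, 1920, 0⟩, .q ⟨-1, 1, 0, 0⟩ ⟨961, 959, -1920, 0⟩, .l ⟨0, 0, -640, 19⟩ ⟨0, 0, 0, 1⟩, .l ⟨0, 0, 40, 3⟩ ⟨0, 0, 0, 1⟩] := by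
  refine rok_p (k := 1) (by decide) (Q := [(1920, 0, -251), (-1920, 0, 959), (0, 640, 19), (0, -40, 3)])
    (P := [⟨-7710720, 1920, 0⟩, ⟨29460480, -1920, 0⟩, ⟨583680, 0, 640⟩, ⟨92160, 0, -40⟩]) (by decide) rfl rfl
    (List.mem_of_getElem? (i := 115) rfl) TP_fr TP_cov ?_
  · intro X Y h
    simp only [List.forall_mem_cons, List.not_mem_nil, false_imp_iff, implies_true, and_true] at h
    push_cast at h ⊢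
    obtain ⟨h0, h1, h2, h3⟩ := h
    refine ⟨⟨?_, ?_⟩, ?_, ?_⟩ <;> linarith

theorem TP_rg116 : ROK [.q ⟨-1, 1, 0, 0⟩ ⟨-1789, -131, 1920, 0⟩, .q ⟨-1, 1, 0, 0⟩ ⟨961, 959, -1920, 0⟩, .l ⟨0, 0, -1920, 29⟩ ⟨0, 0, 0, 1⟩, .l ⟨0, 0, 160, 9⟩ ⟨0, 0, 0, 1⟩] := by
  refine rok_p (k := 1) (by decide) (Q := [(1920, 0, -131), (-1920, 0, 959), (0, 1920, 29), (0, -160, 9)])
    (P := [⟨-4024320, 1920, 0⟩, ⟨29460480, -1920, 0⟩, ⟨890880, 0, 1920⟩, ⟨276480, 0, -160⟩]) (by decide) rfl rfl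
    (List.mem_of_getElem? (i := 116) rfl) TP_fr TP_cov ?_
  · intro X Y h
    simp only [List.forall_mem_cons, List.not_mem_nil, false_imp_iff, implies_true, and_true] at h
    push_cast at h ⊢
    obtain ⟨h0, h1, h2, h3⟩ := h
    refine ⟨⟨?_, ?_⟩, ?_, ?_⟩ <;> linarith

theorem TP_rg117 : ROK [.q ⟨-1, 1, 0, 0⟩ ⟨-17, -3, 20, 0⟩, .q ⟨-1, 1, 0, 0⟩ ⟨961, 959, -1920, 0⟩, .l ⟨0, 0, -30, 1⟩ ⟨0, 0, 0, 1⟩, .l ⟨0, 0, 1920, 157⟩ ⟨0, 0, 0, 1⟩] := by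
  refine rok_p (k := 1) (by decide) (Q := [(20, 0, -3), (-1920, 0, 959), (0, 30, 1), (0, -1920, 157)])
    (P := [⟨-92160, 20, 0⟩, ⟨29460480, -1920, 0⟩, ⟨30720, 0, 30⟩, ⟨4823040, 0, -1920⟩]) (by decide) rfl rfl
    (List.mem_of_getElem? (i := 117) rfl) TP_fr TP_cov ?_
  · intro X Y h
    simp only [List.forall_mem_cons, List.not_mem_nil, false_imp_iff, implies_true, and_true] at h
    push_cast at h ⊢
    obtain ⟨h0, h1, h2, h3⟩ := h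
    refine ⟨⟨?_, ?_⟩, ?_, ?_⟩ <;> linarith

theorem TP_rg118 : ROK [.q ⟨-1, 1, 0, 0⟩ ⟨-277, -43, 320, 0⟩, .q ⟨-1, 1, 0, 0⟩ ⟨961, 959, -1920, 0⟩, .l ⟨0, 0, -1920, 59⟩ ⟨0, 0, 0, 1⟩, .l ⟨0, 0, 640, 49⟩ ⟨0, 0, 0, 1⟩] := by
  refine rok_p (k := 1) (by decide) (Q := [(320, 0, -43), (-1920, 0, 959), (0, 1920, 59), (0, -640, 49)])
    (P := [⟨-1320960, 320, 0⟩, ⟨29460480, -1920, 0⟩, ⟨1812480, 0, 1920⟩, ⟨1505280, 0, -640⟩]) (by decide) rfl rfl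
    (List.mem_of_getElem? (i := 118) rfl) TP_fr TP_cov ?_
  · intro X Y h
    simp only [List.forall_mem_cons, List.not_mem_nil, false_imp_iff, implies_true, and_true] at h
    push_cast at h ⊢
    obtain ⟨h0, h1, h2, h3⟩ := h
    refine ⟨⟨?_, ?_⟩, ?_, ?_⟩ <;> linarith

theorem TP_rg119 : ROK [.q ⟨-1, 1, 0, 0⟩ ⟨-1027, 67, 960, 0⟩, .q ⟨-1, 1, 0, 0⟩ ⟨1793, 127, -1920, 0⟩, .l ⟨0, 0, -240, -161⟩ ⟨0, 0, 0, 1⟩, .l ⟨0, 0, 40, 29⟩ ⟨0, 0, 0, 1⟩] := by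
  refine rok_p (k := 1) (by decide) (Q := [(960, 0, 67), (-1920, 0, 127), (0, 240, -161), (0, -40, 29)])
    (P := [⟨2058240, 960, 0⟩, ⟨3901440, -1920, 0⟩, ⟨-4945920, 0, 240⟩, ⟨890880, 0, -40⟩]) (by decide) rfl rfl
    (List.mem_of_getElem? (i := 119) rfl) TP_fr TP_cov ?_
  · intro X Y h
    simp only [List.forall_mem_cons, List.not_mem_nil, false_imp_iff, implies_true, and_true] at h
    push_cast at h ⊢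
    obtain ⟨h0, h1, h2, h3⟩ := h
    refine ⟨⟨?_, ?_⟩, ?_, ?_⟩ <;> linarith

end Pool.Agent.TET
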