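import Pool.Agent.Helper38_TET.TP_C

/-!
# MP_c7c9bf_co: certificates, family TP
-/

set_option autoImplicit false
set_option maxRecDepth 100000

namespace Pool.Agent.TET

theorem TP_rg120 : ROK [.q ⟨-1, 1, 0, 0⟩ ⟨-1037, 77, 960, 0⟩, .q ⟨-1, 1, 0, 0⟩ ⟨37, 3, -40, 0⟩, .l ⟨0, 0, -960, -673⟩ ⟨0, 0, 0, 1⟩, .l ⟨0, 0, 480, 341⟩ ⟨0, 0, 0, 1⟩] := by
  refine rok_p (k := 1) (by decide) (Q := [(960, 0, 77), (-40, 0, 3), (0, 960, -673), (0, -480, 341)])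
    (P := [⟨2365440, 960, 0⟩, ⟨92160, -40, 0⟩, ⟨-20674560, 0, 960⟩, ⟨10475520, 0, -480⟩]) (by decide) rfl rfl
    (List.mem_of_getElem? (i := 120) rfl) TP_fr TP_cov ?_
  · intro X Y h
    simp only [List.forall_mem_cons, List.not_mem_nil, false_imp_iff, implies_true, and_true] at h
    push_cast at h ⊢
    obtain ⟨h0, h1, h2, h3⟩ := h
    refine ⟨⟨?_, ?_⟩, ?_, ?_⟩ <;> linarith

theorem TP_rg121 : ROK [.q ⟨-1, 1, 0, 0⟩ ⟨-549, -91, 640, 0⟩, .q ⟨-1, 1, 0, 0⟩ ⟨961, 959, -1920, 0⟩, .l ⟨0, 0, -960, 31⟩ ⟨0, 0, 0, 1⟩, .l ⟨0, 0, 240, 19⟩ ⟨0, 0, 0, 1⟩] := by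
  refine rok_p (k := 1) (by decide) (Q := [(640, 0, -91), (-1920, 0, 959), (0, 960, 31), (0, -240, 19)])
    (P := [⟨-2795520, 640, 0⟩, ⟨29460480, -1920, 0⟩, ⟨952320, 0, 960⟩, ⟨583680, 0, -240⟩]) (by decide) rfl rfl
    (List.mem_of_getElem? (i := 121) rfl) TP_fr TP_cov ?_
  · intro X Y h
    simp only [List.forall_mem_cons, List.not_mem_nil, false_imp_iff, implies_true, and_true] at h
    push_cast at h ⊢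
    obtain ⟨h0, h1, h2, h3⟩ := h
    refine ⟨⟨?_, ?_⟩, ?_, ?_⟩ <;> linarith

theorem TP_rg122 : ROK [.q ⟨-1, 1, 0, 0⟩ ⟨-279, -41, 320, 0⟩, .q ⟨-1, 1, 0, 0⟩ ⟨961, 959, -1920, 0⟩, .l ⟨0, 0, -640, 19⟩ ⟨0, 0, 0, 1⟩, .l ⟨0, 0, 1920, 143⟩ ⟨0, 0, 0, 1⟩] := by
  refine rok_p (k := 1) (by decide) (Q := [(320, 0, -41), (-1920, 0, 959), (0, 640, 19), (0, -1920, 143)])
    (P := [⟨-1259520, 320, 0⟩, ⟨29460480, -1920, 0⟩, ⟨583680, 0, 640⟩, ⟨4392960, 0, -1920⟩]) (by decide) rfl rfl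
    (List.mem_of_getElem? (i := 122) rfl) TP_fr TP_cov ?_
  · intro X Y h
    simp only [List.forall_mem_cons, List.not_mem_nil, false_imp_iff, implies_true, and_true] at h
    push_cast at h ⊢
    obtain ⟨h0, h1, h2, h3⟩ := h
    refine ⟨⟨?_, ?_⟩, ?_, ?_⟩ <;> linarith

theorem TP_rg123 : ROK [.q ⟨-1, 1, 0, 0⟩ ⟨-1567, -353, 1920, 0⟩, .q ⟨-1, 1, 0, 0⟩ ⟨961, 959, -1920, 0⟩, .l ⟨0, 0, -640, 23⟩ ⟨0, 0, 0, 1⟩, .l ⟨0, 0, 1920, 479⟩ ⟨0, 0, 0, 1⟩] := by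
  refine rok_p (k := 1) (by decide) (Q := [(1920, 0, -353), (-1920, 0, 959), (0, 640, 23), (0, -1920, 479)])
    (P := [⟨-10844160, 1920, 0⟩, ⟨29460480, -1920, 0⟩, ⟨706560, 0, 640⟩, ⟨14714880, 0, -1920⟩]) (by decide) rfl rfl
    (List.mem_of_getElem? (i := 123) rfl) TP_fr TP_cov ?_
  · intro X Y h
    simp only [List.forall_mem_cons, List.not_mem_nil, false_imp_iff, implies_true, and_true] at h
    push_cast at h ⊢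
    obtain ⟨h0, h1, h2, h3⟩ := h
    refine ⟨⟨?_, ?_⟩, ?_, ?_⟩ <;> linarith

theorem TP_rg124 : ROK [.q ⟨-1, 1, 0, 0⟩ ⟨-33, -7, 40, 0⟩, .q ⟨-1, 1, 0, 0⟩ ⟨961, 959, -1920, 0⟩, .l ⟨0, 0, -960, -109⟩ ⟨0, 0, 0, 1⟩, .l ⟨0, 0, 192, 41⟩ ⟨0, 0, 0, 1⟩] := by
  refine rok_p (k := 1) (by decide) (Q := [(40, 0, -7), (-1920, 0, 959), (0, 960, -109), (0, -192, 41)])
    (P := [⟨-215040, 40, 0⟩, ⟨29460480, -1920, 0⟩, ⟨-3348480, 0, 960⟩, ⟨1259520, 0, -192⟩]) (by decide) rfl rfl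
    (List.mem_of_getElem? (i := 124) rfl) TP_fr TP_cov ?_
  · intro X Y h
    simp only [List.forall_mem_cons, List.not_mem_nil, false_imp_iff, implies_true, and_true] at h
    push_cast at h ⊢
    obtain ⟨h0, h1, h2, h3⟩ := h
    refine ⟨⟨?_, ?_⟩, ?_, ?_⟩ <;> linarith

theorem TP_rg125 : ROK [.q ⟨-1, 1, 0, 0⟩ ⟨-199, -41, 240, 0⟩, .q ⟨-1, 1, 0, 0⟩ ⟨961, 959, -1920, 0⟩, .l ⟨0, 0, -320, -41⟩ ⟨0, 0, 0, 1⟩, .l ⟨0, 0, 1920, 367⟩ ⟨0, 0, 0, 1⟩] := by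
  refine rok_p (k := 1) (by decide) (Q := [(240, 0, -41), (-1920, 0, 959), (0, 320, -41), (0, -1920, 367)])
    (P := [⟨-1259520, 240, 0⟩, ⟨29460480, -1920, 0⟩, ⟨-1259520, 0, 320⟩, ⟨11274240, 0, -1920⟩]) (by decide) rfl rfl
    (List.mem_of_getElem? (i := 125) rfl) TP_fr TP_cov ?_
  · intro X Y h
    simp only [List.forall_mem_cons, List.not_mem_nil, false_imp_iff, implies_true, and_true] at h
    push_cast at h ⊢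
    obtain ⟨h0, h1, h2, h3⟩ := h
    refine ⟨⟨?_, ?_⟩, ?_, ?_⟩ <;> linarith

theorem TP_rg126 : ROK [.q ⟨-1, 1, 0, 0⟩ ⟨-389, 5, 384, 0⟩, .q ⟨-1, 1, 0, 0⟩ ⟨1891, 29, -1920, 0⟩, .l ⟨0, 0, -1920, -953⟩ ⟨0, 0, 0, 1⟩, .l ⟨0, 0, 1920, 1519⟩ ⟨0, 0, 0, 1⟩] := by
  refine rok_p (k := 1) (by decide) (Q := [(384, 0, 5), (-1920, 0, 29), (0, 1920, -953), (0, -1920, 1519)])
    (P := [⟨153600, 384, 0⟩, ⟨890880, -1920, 0⟩, ⟨-29276160, 0, 1920⟩, ⟨46663680, 0, -1920⟩]) (by decide) rfl rfl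
    (List.mem_of_getElem? (i := 126) rfl) TP_fr TP_cov ?_
  · intro X Y h
    simp only [List.forall_mem_cons, List.not_mem_nil, false_imp_iff, implies_true, and_true] at h
    push_cast at h ⊢
    obtain ⟨h0, h1, h2, h3⟩ := h
    refine ⟨⟨?_, ?_⟩, ?_, ?_⟩ <;> linarith

theorem TP_rg127 : ROK [.q ⟨-1, 1, 0, 0⟩ ⟨-997, 37, 960, 0⟩, .q ⟨-1, 1, 0, 0⟩ ⟨1781, 139, -1920, 0⟩, .l ⟨0, 0, -320, -221⟩ ⟨0, 0, 0, 1⟩, .l ⟨0, 0, 80, 61⟩ ⟨0, 0, 0, 1⟩] := by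
  refine rok_p (k := 1) (by decide) (Q := [(960, 0, 37), (-1920, 0, 139), (0, 320, -221), (0, -80, 61)])
    (P := [⟨1136640, 960, 0⟩, ⟨4270080, -1920, 0⟩, ⟨-6789120, 0, 320⟩, ⟨1873920, 0, -80⟩]) (by decide) rfl rfl
    (List.mem_of_getElem? (i := 127) rfl) TP_fr TP_cov ?_
  · intro X Y h
    simp only [List.forall_mem_cons, List.not_mem_nil, false_imp_iff, implies_true, and_true] at h
    push_cast at h ⊢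
    obtain ⟨h0, h1, h2, h3⟩ := h
    refine ⟨⟨?_, ?_⟩, ?_, ?_⟩ <;> linarith

theorem TP_rg128 : ROK [.q ⟨-1, 1, 0, 0⟩ ⟨-797, -163, 960, 0⟩, .q ⟨-1, 1, 0, 0⟩ ⟨961, 959, -1920, 0⟩, .l ⟨0, 0, -640, 23⟩ ⟨0, 0, 0, 1⟩, .l ⟨0, 0, 1920, 169⟩ ⟨0, 0, 0, 1⟩] := by
  refine rok_p (k := 1) (by decide) (Q := [(960, 0, -163), (-1920, 0, 959), (0, 640, 23), (0, -1920, 169)])
    (P := [⟨-5007360, 960, 0⟩, ⟨29460480, -1920, 0⟩, ⟨706560, 0, 640⟩, ⟨5191680, 0, -1920⟩]) (by decide) rfl rfl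
    (List.mem_of_getElem? (i := 128) rfl) TP_fr TP_cov ?_
  · intro X Y h
    simp only [List.forall_mem_cons, List.not_mem_nil, false_imp_iff, implies_true, and_true] at h
    push_cast at h ⊢
    obtain ⟨h0, h1, h2, h3⟩ := h
    refine ⟨⟨?_, ?_⟩, ?_, ?_⟩ <;> linarith

theorem TP_rg129 : ROK [.q ⟨-1, 1, 0, 0⟩ ⟨-1949, 29, 1920, 0⟩, .q ⟨-1, 1, 0, 0⟩ ⟨153, 7, -160, 0⟩, .l ⟨0, 0, -640, -387⟩ ⟨0, 0, 0, 1⟩, .l ⟨0, 0, 1920, 1519⟩ ⟨0, 0, 0, 1⟩] := by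
  refine rok_p (k := 1) (by decide) (Q := [(1920, 0, 29), (-160, 0, 7), (0, 640, -387), (0, -1920, 1519)])
    (P := [⟨890880, 1920, 0⟩, ⟨215040, -160, 0⟩, ⟨-11888640, 0, 640⟩, ⟨46663680, 0, -1920⟩]) (by decide) rfl rfl
    (List.mem_of_getElem? (i := 129) rfl) TP_fr TP_cov ?_
  · intro X Y h
    simp only [List.forall_mem_cons, List.not_mem_nil, false_imp_iff, implies_true, and_true] at h
    push_cast at h ⊢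
    obtain ⟨h0, h1, h2, h3⟩ := h
    refine ⟨⟨?_, ?_⟩, ?_, ?_⟩ <;> linarith

theorem TP_rg130 : ROK [.q ⟨-1, 1, 0, 0⟩ ⟨-1639, -281, 1920, 0⟩, .q ⟨-1, 1, 0, 0⟩ ⟨961, 959, -1920, 0⟩, .l ⟨0, 0, -640, 21⟩ ⟨0, 0, 0, 1⟩, .l ⟨0, 0, 960, 77⟩ ⟨0, 0, 0, 1⟩] := by
  refine rok_p (k := 1) (by decide) (Q := [(1920, 0, -281), (-1920, 0, 959), (0, 640, 21), (0, -960, 77)])
    (P := [⟨-8632320, 1920, 0⟩, ⟨29460480, -1920, 0⟩, ⟨645120, 0, 640⟩, ⟨2365440, 0, -960⟩]) (by decide) rfl rfl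
    (List.mem_of_getElem? (i := 130) rfl) TP_fr TP_cov ?_
  · intro X Y h
    simp only [List.forall_mem_cons, List.not_mem_nil, false_imp_iff, implies_true, and_true] at h
    push_cast at h ⊢
    obtain ⟨h0, h1, h2, h3⟩ := h
    refine ⟨⟨?_, ?_⟩, ?_, ?_⟩ <;> linarith

theorem TP_rg131 : ROK [.q ⟨-1, 1, 0, 0⟩ ⟨-827, -133, 960, 0⟩, .q ⟨-1, 1, 0, 0⟩ ⟨961, 959, -1920, 0⟩, .l ⟨0, 0, -1920, 59⟩ ⟨0, 0, 0, 1⟩, .l ⟨0, 0, 1920, 149⟩ ⟨0, 0, 0, 1⟩] := by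
  refine rok_p (k := 1) (by decide) (Q := [(960, 0, -133), (-1920, 0, 959), (0, 1920, 59), (0, -1920, 149)])
    (P := [⟨-4085760, 960, 0⟩, ⟨29460480, -1920, 0⟩, ⟨1812480, 0, 1920⟩, ⟨4577280, 0, -1920⟩]) (by decide) rfl rfl
    (List.mem_of_getElem? (i := 131) rfl) TP_fr TP_cov ?_
  · intro X Y h
    simp only [List.forall_mem_cons, List.not_mem_nil, false_imp_iff, implies_true, and_true] at h
    push_cast at h ⊢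
    obtain ⟨h0, h1, h2, h3⟩ := h
    refine ⟨⟨?_, ?_⟩, ?_, ?_⟩ <;> linarith

theorem TP_rg132 : ROK [.q ⟨-1, 1, 0, 0⟩ ⟨-563, -77, 640, 0⟩, .q ⟨-1, 1, 0, 0⟩ ⟨961, 959, -1920, 0⟩, .l ⟨0, 0, -320, 9⟩ ⟨0, 0, 0, 1⟩, .l ⟨0, 0, 320, 23⟩ ⟨0, 0, 0, 1⟩] := by
  refine rok_p (k := 1) (by decide) (Q := [(640, 0, -77), (-1920, 0, 959), (0, 320, 9), (0, -320, 23)])
    (P := [⟨-2365440, 640, 0⟩, ⟨29460480, -1920, 0⟩, ⟨276480, 0, 320⟩, ⟨706560, 0, -320⟩]) (by decide) rfl rfl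
    (List.mem_of_getElem? (i := 132) rfl) TP_fr TP_cov ?_
  · intro X Y h
    simp only [List.forall_mem_cons, List.not_mem_nil, false_imp_iff, implies_true, and_true] at h
    push_cast at h ⊢
    obtain ⟨h0, h1, h2, h3⟩ := h
    refine ⟨⟨?_, ?_⟩, ?_, ?_⟩ <;> linarith

theorem TP_rg133 : ROK [.q ⟨-1, 1, 0, 0⟩ ⟨-791, -169, 960, 0⟩, .q ⟨-1, 1, 0, 0⟩ ⟨961, 959, -1920, 0⟩, .l ⟨0, 0, -480, -53⟩ ⟨0, 0, 0, 1⟩, .l ⟨0, 0, 640, 141⟩ ⟨0, 0, 0, 1⟩] := by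
  refine rok_p (k := 1) (by decide) (Q := [(960, 0, -169), (-1920, 0, 959), (0, 480, -53), (0, -640, 141)])
    (P := [⟨-5191680, 960, 0⟩, ⟨29460480, -1920, 0⟩, ⟨-1628160, 0, 480⟩, ⟨4331520, 0, -640⟩]) (by decide) rfl rfl
    (List.mem_of_getElem? (i := 133) rfl) TP_fr TP_cov ?_
  · intro X Y h
    simp only [List.forall_mem_cons, List.not_mem_nil, false_imp_iff, implies_true, and_true] at h
    push_cast at h ⊢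
    obtain ⟨h0, h1, h2, h3⟩ := h
    refine ⟨⟨?_, ?_⟩, ?_, ?_⟩ <;> linarith

theorem TP_rg134 : ROK [.q ⟨-1, 1, 0, 0⟩ ⟨-81, 1, 80, 0⟩, .q ⟨-1, 1, 0, 0⟩ ⟨627, 13, -640, 0⟩, .l ⟨0, 0, -1920, -1861⟩ ⟨0, 0, 0, 1⟩, .l ⟨0, 0, 1920, 1997⟩ ⟨0, 0, 0, 1⟩] := by
  refine rok_p (k := 1) (by decide) (Q := [(80, 0, 1), (-640, 0, 13), (0, 1920, -1861), (0, -1920, 1997)])
    (P := [⟨30720, 80, 0⟩, ⟨399360, -640, 0⟩, ⟨-57169920, 0, 1920⟩, ⟨61347840, 0, -1920⟩]) (by decide) rfl rfl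
    (List.mem_of_getElem? (i := 134) rfl) TP_fr TP_cov ?_
  · intro X Y h
    simp only [List.forall_mem_cons, List.not_mem_nil, false_imp_iff, implies_true, and_true] at h
    push_cast at h ⊢
    obtain ⟨h0, h1, h2, h3⟩ := h
    refine ⟨⟨?_, ?_⟩, ?_, ?_⟩ <;> linarith

theorem TP_rg135 : ROK [.q ⟨-1, 1, 0, 0⟩ ⟨-137, -23, 160, 0⟩, .q ⟨-1, 1, 0, 0⟩ ⟨961, 959, -1920, 0⟩, .l ⟨0, 0, -960, 31⟩ ⟨0, 0, 0, 1⟩, .l ⟨0, 0, 640, 51⟩ ⟨0, 0, 0, 1⟩] := by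
  refine rok_p (k := 1) (by decide) (Q := [(160, 0, -23), (-1920, 0, 959), (0, 960, 31), (0, -640, 51)])
    (P := [⟨-706560, 160, 0⟩, ⟨29460480, -1920, 0⟩, ⟨952320, 0, 960⟩, ⟨1566720, 0, -640⟩]) (by decide) rfl rfl
    (List.mem_of_getElem? (i := 135) rfl) TP_fr TP_cov ?_
  · intro X Y h
    simp only [List.forall_mem_cons, List.not_mem_nil, false_imp_iff, implies_true, and_true] at h
    push_cast at h ⊢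
    obtain ⟨h0, h1, h2, h3⟩ := h
    refine ⟨⟨?_, ?_⟩, ?_, ?_⟩ <;> linarith

theorem TP_rg136 : ROK [.q ⟨-1, 1, 0, 0⟩ ⟨-1579, -341, 1920, 0⟩, .q ⟨-1, 1, 0, 0⟩ ⟨961, 959, -1920, 0⟩, .l ⟨0, 0, -640, 23⟩ ⟨0, 0, 0, 1⟩, .l ⟨0, 0, 320, 29⟩ ⟨0, 0, 0, 1⟩] := by
  refine rok_p (k := 1) (by decide) (Q := [(1920, 0, -341), (-1920, 0, 959), (0, 640, 23), (0, -320, 29)])
    (P := [⟨-10475520, 1920, 0⟩, ⟨29460480, -1920, 0⟩, ⟨706560, 0, 640⟩, ⟨890880, 0, -320⟩]) (by decide) rfl rfl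
    (List.mem_of_getElem? (i := 136) rfl) TP_fr TP_cov ?_
  · intro X Y h
    simp only [List.forall_mem_cons, List.not_mem_nil, false_imp_iff, implies_true, and_true] at h
    push_cast at h ⊢
    obtain ⟨h0, h1, h2, h3⟩ := h
    refine ⟨⟨?_, ?_⟩, ?_, ?_⟩ <;> linarith

theorem TP_rg137 : ROK [.q ⟨-1, 1, 0, 0⟩ ⟨-647, 7, 640, 0⟩, .q ⟨-1, 1, 0, 0⟩ ⟨1891, 29, -1920, 0⟩, .l ⟨0, 0, -1920, -943⟩ ⟨0, 0, 0, 1⟩, .l ⟨0, 0, 1920, 1519⟩ ⟨0, 0, 0, 1⟩] := by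
  refine rok_p (k := 1) (by decide) (Q := [(640, 0, 7), (-1920, 0, 29), (0, 1920, -943), (0, -1920, 1519)])
    (P := [⟨215040, 640, 0⟩, ⟨890880, -1920, 0⟩, ⟨-28968960, 0, 1920⟩, ⟨46663680, 0, -1920⟩]) (by decide) rfl rfl
    (List.mem_of_getElem? (i := 137) rfl) TP_fr TP_cov ?_
  · intro X Y h
    simp only [List.forall_mem_cons, List.not_mem_nil, false_imp_iff, implies_true, and_true] at h
    push_cast at h ⊢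
    obtain ⟨h0, h1, h2, h3⟩ := h
    refine ⟨⟨?_, ?_⟩, ?_, ?_⟩ <;> linarith

theorem TP_rg138 : ROK [.q ⟨-1, 1, 0, 0⟩ ⟨-83, 3, 80, 0⟩, .q ⟨-1, 1, 0, 0⟩ ⟨597, 43, -640, 0⟩, .l ⟨0, 0, -1920, -1291⟩ ⟨0, 0, 0, 1⟩, .l ⟨0, 0, 1920, 1469⟩ ⟨0, 0, 0, 1⟩] := by
  refine rok_p (k := 1) (by decide) (Q := [(80, 0, 3), (-640, 0, 43), (0, 1920, -1291), (0, -1920, 1469)])
    (P := [⟨92160, 80, 0⟩, ⟨1320960, -640, 0⟩, ⟨-39659520, 0, 1920⟩, ⟨45127680, 0, -1920⟩]) (by decide) rfl rfl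
    (List.mem_of_getElem? (i := 138) rfl) TP_fr TP_cov ?_
  · intro X Y h
    simp only [List.forall_mem_cons, List.not_mem_nil, false_imp_iff, implies_true, and_true] at h
    push_cast at h ⊢
    obtain ⟨h0, h1, h2, h3⟩ := h
    refine ⟨⟨?_, ?_⟩, ?_, ?_⟩ <;> linarith

theorem TP_rg139 : ROK [.q ⟨-1, 1, 0, 0⟩ ⟨-81, 1, 80, 0⟩, .q ⟨-1, 1, 0, 0⟩ ⟨1891, 29, -1920, 0⟩, .l ⟨0, 0, -320, -301⟩ ⟨0, 0, 0, 1⟩, .l ⟨0, 0, 1920, 1997⟩ ⟨0, 0, 0, 1⟩] := by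
  refine rok_p (k := 1) (by decide) (Q := [(80, 0, 1), (-1920, 0, 29), (0, 320, -301), (0, -1920, 1997)])
    (P := [⟨30720, 80, 0⟩, ⟨890880, -1920, 0⟩, ⟨-9246720, 0, 320⟩, ⟨61347840, 0, -1920⟩]) (by decide) rfl rfl
    (List.mem_of_getElem? (i := 139) rfl) TP_fr TP_cov ?_
  · intro X Y h
    simp only [List.forall_mem_cons, List.not_mem_nil, false_imp_iff, implies_true, and_true] at h
    push_cast at h ⊢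
    obtain ⟨h0, h1, h2, h3⟩ := h
    refine ⟨⟨?_, ?_⟩, ?_, ?_⟩ <;> linarith

theorem TP_rg140 : ROK [.q ⟨-1, 1, 0, 0⟩ ⟨-1109, -811, 1920, 0⟩, .q ⟨-1, 1, 0, 0⟩ ⟨961, 959, -1920, 0⟩, .l ⟨0, 0, -640, 103⟩ ⟨0, 0, 0, 1⟩, .l ⟨0, 0, 1920, 1379⟩ ⟨0, 0, 0, 1⟩] := by
  refine rok_p (k := 1) (by decide) (Q := [(1920, 0, -811), (-1920, 0, 959), (0, 640, 103), (0, -1920, 1379)])
    (P := [⟨-24913920, 1920, 0⟩, ⟨29460480, -1920, 0⟩, ⟨3164160, 0, 640⟩, ⟨42362880, 0, -1920⟩]) (by decide) rfl rfl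
    (List.mem_of_getElem? (i := 140) rfl) TP_fr TP_cov ?_
  · intro X Y h
    simp only [List.forall_mem_cons, List.not_mem_nil, false_imp_iff, implies_true, and_true] at h
    push_cast at h ⊢
    obtain ⟨h0, h1, h2, h3⟩ := h
    refine ⟨⟨?_, ?_⟩, ?_, ?_⟩ <;> linarith

end Pool.Agent.TET
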