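import Pool.Agent.Helper38_TET.Red

/-!
# MP_c7c9bf_co: regions, the interface between the certified families and the cover
-/

set_option autoImplicit false

namespace Pool.Agent.TET

open MeasureTheory Set Filter Pool.Agent.UL3 Pool.Agent.UL3.H88
open scoped ENNReal Topology RealInnerProductSpace

/-- a linear form in the Gram matrix of the gradients -/
noncomputable def lform (G : Fin 4 → E3) (m f : Fin 4 → ℤ) : ℝ :=
  ⟪∑ i, (m i : ℝ) • G i, ∑ i, (f i : ℝ) • G i⟫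

/-- a linear form in the Gram matrix of the edges -/
noncomputable def qform (p : Fin 4 → E3) (v w : Fin 4 → ℤ) : ℝ :=
  ⟪∑ i, (v i : ℝ) • p i, ∑ i, (w i : ℝ) • p i⟫

/-- a condition -/
inductive Cond
  | l (m f : Fin 4 → ℤ)
  | q (v w : Fin 4 → ℤ)

def Cond.holds (p G : Fin 4 → E3) : Cond → Prop
  | Cond.l m f => 0 ≤ lform G m f
  | Cond.q v w => 0 ≤ qform p v w

/-- all tetrahedra with the conditions `cs` are good -/
def RegionOK (cs : List Cond) : Prop :=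
  ∀ p G : Fin 4 → E3, Grad p G → (∀ c ∈ cs, c.holds p G) → Dense (convexHull ℝ (Set.range p))

theorem D0 : D4 0 1 2 3 :=
  ⟨by decide, by decide, by decide, by decide, by decide, by decide⟩

theorem D0' : D4 3 0 1 2 :=
  ⟨by decide, by decide, by decide, by decide, by decide, by decide⟩

/-! ### planes -/

/-- the covector of the inequality `α x + β y + γ ≥ 0` -/
def mf (f : Fin 4 → ℤ) (t : ℤ × ℤ × ℤ) : Fin 4 → ℤ :=
  ![t.2.2 * f 0, t.1 + t.2.2 * f 1, t.2.1 + t.2.2 * f 2, t.2.2 * f 3]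

theorem region_f (f : Fin 4 → ℤ) (hf : f 3 ≠ f 0) (Q : List (ℤ × ℤ × ℤ))
    (hQ : ∀ x y : ℝ, (∀ t ∈ Q, 0 ≤ (t.1 : ℝ) * x + t.2.1 * y + t.2.2) →
      GoodV [0, 7, 4, 3] (VF ((f 1 : ℝ) - f 0) ((f 2 : ℝ) - f 0) ((f 3 : ℝ) - f 0) x y)) :
    RegionOK (Q.map fun t => Cond.l (mf f t) f) := by
  intro p G h hc
  have h3 : ((f 3 : ℝ)) - f 0 ≠ 0 := by
    intro h0
    apply hf
    have : (f 3 : ℝ) = f 0 := by linarith
    exact_mod_cast this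
  have hq := h.qf_pos (f := fun i => (f i : ℝ)) h3
  refine h.plane D0 (fun i => (f i : ℝ)) h3 (hQ _ _ fun t ht => ?_)
  have h1 : 0 ≤ lform G (mf f t) f := hc _ (List.mem_map_of_mem ht)
  have h2 : lform G (mf f t) f = t.1 * Lf G (fun i => (f i : ℝ)) 1 +
      t.2.1 * Lf G (fun i => (f i : ℝ)) 2 + t.2.2 * qf G (fun i => (f i : ℝ)) := by
    unfold lform
    have e : ∑ i, ((mf f t i : ℤ) : ℝ) • G i = (t.1 : ℝ) • G 1 + (t.2.1 : ℝ) • G 2 +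
        (t.2.2 : ℝ) • ∑ i, (f i : ℝ) • G i := by
      rw [Fin.sum_univ_four, Fin.sum_univ_four]
      show ((t.2.2 * f 0 : ℤ) : ℝ) • G 0 + ((t.1 + t.2.2 * f 1 : ℤ) : ℝ) • G 1 +
        ((t.2.1 + t.2.2 * f 2 : ℤ) : ℝ) • G 2 + ((t.2.2 * f 3 : ℤ) : ℝ) • G 3 = _
      push_cast
      module
    rw [e, inner_add_left, inner_add_left, real_inner_smul_left, real_inner_smul_left,
      real_inner_smul_left, inner_gf, inner_gf, inner_ff]
  have h4 : (t.1 : ℝ) * (Lf G (fun i => (f i : ℝ)) 1 / qf G (fun i => (f i : ℝ))) +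
      t.2.1 * (Lf G (fun i => (f i : ℝ)) 2 / qf G (fun i => (f i : ℝ))) + t.2.2 =
      lform G (mf f t) f / qf G (fun i => (f i : ℝ)) := by
    rw [h2]
    field_simp
  rw [h4]
  exact div_nonneg h1 hq.le

/-! ### axes -/

/-- the vector of the inequality `α x + β y + γ ≥ 0` -/
def mv (v : Fin 4 → ℤ) (t : ℤ × ℤ × ℤ) : Fin 4 → ℤ :=
  ![-t.1 - t.2.1 + t.2.2 * v 0, t.1 + t.2.2 * v 1, t.2.1 + t.2.2 * v 2, t.2.2 * v 3]

theorem region_v (v : Fin 4 → ℤ) (hv : v 0 + v 1 + v 2 + v 3 = 0) (h3 : v 3 ≠ 0)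
    (Q : List (ℤ × ℤ × ℤ))
    (hQ : ∀ x y : ℝ, (∀ t ∈ Q, 0 ≤ (t.1 : ℝ) * x + t.2.1 * y + t.2.2) →
      GoodV [0, 7, 4, 3] (VV (v 1 : ℝ) (v 2 : ℝ) (v 3 : ℝ) x y)) :
    RegionOK (Q.map fun t => Cond.q v (mv v t)) := by
  intro p G h hc
  have hsum : ∑ m, ((v m : ℤ) : ℝ) = 0 := by
    rw [Fin.sum_univ_four]
    exact_mod_cast hv
  obtain ⟨x, hx⟩ : ∃ x : E3, x = ∑ m, (v m : ℝ) • p m := ⟨_, rfl⟩
  have hcx := comb_eq (p := p) D0 hsum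
  rw [← hx] at hcx
  have h3' : (v 3 : ℝ) ≠ 0 := by exact_mod_cast h3
  have hx0 : x ≠ 0 := by
    intro h0
    have h1 : ⟪G 3, x⟫ = v 3 := by
      rw [← hcx, inner_add_right, inner_add_right, real_inner_smul_right, real_inner_smul_right,
        real_inner_smul_right, h.edge, h.edge, h.edge]
      simp
    rw [h0, inner_zero_right] at h1
    exact h3' h1.symm
  have hxx : 0 < ⟪x, x⟫ := real_inner_self_pos.2 hx0
  rw [D0'.range]
  refine transfer_v (D0'.aff h.aff) h3' (x := ⟪x, p 1 - p 0⟫ / ⟪x, x⟫)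
    (y := ⟪x, p 2 - p 0⟫ / ⟪x, x⟫) ?_ ?_ (hQ _ _ fun t ht => ?_)
  · rw [hcx]
    field_simp
  · rw [hcx]
    field_simp
  · have h1 : 0 ≤ qform p v (mv v t) := hc _ (List.mem_map_of_mem ht)
    have h2 : qform p v (mv v t) = t.1 * ⟪x, p 1 - p 0⟫ + t.2.1 * ⟪x, p 2 - p 0⟫ +
        t.2.2 * ⟪x, x⟫ := by
      unfold qform
      have e : ∑ i, ((mv v t i : ℤ) : ℝ) • p i = (t.1 : ℝ) • (p 1 - p 0) +
          (t.2.1 : ℝ) • (p 2 - p 0) + (t.2.2 : ℝ) • x := by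
        rw [hx, Fin.sum_univ_four, Fin.sum_univ_four]
        show ((-t.1 - t.2.1 + t.2.2 * v 0 : ℤ) : ℝ) • p 0 + ((t.1 + t.2.2 * v 1 : ℤ) : ℝ) • p 1 +
          ((t.2.1 + t.2.2 * v 2 : ℤ) : ℝ) • p 2 + ((t.2.2 * v 3 : ℤ) : ℝ) • p 3 = _
        push_cast
        module
      rw [e, ← hx, inner_add_right, inner_add_right, real_inner_smul_right, real_inner_smul_right,
        real_inner_smul_right]
    have h4 : (t.1 : ℝ) * (⟪x, p 1 - p 0⟫ / ⟪x, x⟫) + t.2.1 * (⟪x, p 2 - p 0⟫ / ⟪x, x⟫) + t.2.2 =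
        qform p v (mv v t) / ⟪x, x⟫ := by
      rw [h2]
      field_simp
    rw [h4]
    exact div_nonneg h1 hxx.le

/-! ### flags -/

/-- the flag with edge `i j` and face `i j k` -/
theorem Grad.flag' {p G : Fin 4 → E3} (h : Grad p G) {i j k l : Fin 4} (hd : D4 i j k l)
    (hg : GoodV [0, 7, 2, 5] (VP (⟪p k - p i, p j - p i⟫ / ⟪p j - p i, p j - p i⟫)
      (-⟪G k, G l⟫ / ⟪G l, G l⟫))) :
    Dense (convexHull ℝ (Set.range p)) := by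
  have hi : D4 l i j k := ⟨hd.il.symm, hd.jl.symm, hd.kl.symm, hd.ij, hd.ik, hd.jk⟩
  have hx0 : p j - p i ≠ 0 := by
    intro h0
    have h1 := h.edge j j i
    rw [h0, inner_zero_right] at h1
    simp [hd.ij] at h1
  have hxx : ⟪p j - p i, p j - p i⟫ ≠ 0 := (real_inner_self_pos.2 hx0).ne'
  have e4 : ⟪(p k - p i) - (⟪p k - p i, p j - p i⟫ / ⟪p j - p i, p j - p i⟫) • (p j - p i),
      p j - p i⟫ = 0 := by
    rw [inner_sub_left, real_inner_smul_left]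
    field_simp
    ring
  have hl0 := h.pos l
  have e5 := h.expand hd ((p l - p i) - (⟪G l, G l⟫)⁻¹ • G l)
  have f1 : ⟪G l, (p l - p i) - (⟪G l, G l⟫)⁻¹ • G l⟫ = 0 := by
    rw [inner_sub_right, h.edge, real_inner_smul_right, inv_mul_cancel₀ hl0.ne']
    simp [hd.il]
  have f2 : ⟪G k, (p l - p i) - (⟪G l, G l⟫)⁻¹ • G l⟫ = -⟪G k, G l⟫ / ⟪G l, G l⟫ := by
    rw [inner_sub_right, h.edge, real_inner_smul_right]
    simp only [hd.kl.symm, hd.ik, if_false]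
    ring
  rw [f1, f2, zero_smul, add_zero] at e5
  have g1 : ⟪G l, p j - p i⟫ = 0 := by
    rw [h.edge]
    simp [hd.jl, hd.il]
  have g2 : ⟪G l, p k - p i⟫ = 0 := by
    rw [h.edge]
    simp [hd.kl, hd.il]
  rw [hi.range]
  refine transfer_p (hi.aff h.aff) e4 ?_ hg
  set g := ⟪p k - p i, p j - p i⟫ / ⟪p j - p i, p j - p i⟫ with hgd
  set w := -⟪G k, G l⟫ / ⟪G l, G l⟫ with hwd
  set t := ⟪G j, (p l - p i) - (⟪G l, G l⟫)⁻¹ • G l⟫ with htd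
  have e6 : (p l - p i) - w • ((p k - p i) - g • (p j - p i)) =
      (⟪G l, G l⟫)⁻¹ • G l + (t + w * g) • (p j - p i) := by
    have e7 : p l - p i = (⟪G l, G l⟫)⁻¹ • G l + (t • (p j - p i) + w • (p k - p i)) := by
      rw [e5]
      abel
    rw [e7]
    module
  have e8 : ⟪p j - p i, (p k - p i) - g • (p j - p i)⟫ = 0 := by
    rw [real_inner_comm]
    exact e4
  rw [e6, inner_add_left, real_inner_smul_left, real_inner_smul_left, e8, inner_sub_right,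
    real_inner_smul_right, g1, g2]
  ring

/-- the conditions `α g + γ ≥ 0` -/
def cg (t : ℤ × ℤ) : Cond := Cond.q ![-1, 1, 0, 0] ![-t.1 - t.2, t.2, t.1, 0]

/-- the conditions `α w + γ ≥ 0` -/
def cw (t : ℤ × ℤ) : Cond := Cond.l ![0, 0, -t.1, t.2] ![0, 0, 0, 1]

theorem region_p0 (Qg Qw : List (ℤ × ℤ)) {p G : Fin 4 → E3} (h : Grad p G)
    (hc : ∀ c ∈ Qg.map cg ++ Qw.map cw, c.holds p G) :
    (∀ t ∈ Qg, 0 ≤ (t.1 : ℝ) * (⟪p 2 - p 0, p 1 - p 0⟫ / ⟪p 1 - p 0, p 1 - p 0⟫) + t.2) ∧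
      (∀ t ∈ Qw, 0 ≤ (t.1 : ℝ) * (-⟪G 2, G 3⟫ / ⟪G 3, G 3⟫) + t.2) := by
  have hx0 : p 1 - p 0 ≠ 0 := by
    intro h0
    have h1 := h.edge 1 1 0
    rw [h0, inner_zero_right] at h1
    simp at h1
  have hxx : 0 < ⟪p 1 - p 0, p 1 - p 0⟫ := real_inner_self_pos.2 hx0
  have hl0 := h.pos 3
  constructor
  · intro t ht
    have h1 : 0 ≤ qform p ![-1, 1, 0, 0] ![-t.1 - t.2, t.2, t.1, 0] :=
      hc _ (List.mem_append_left _ (List.mem_map_of_mem ht))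
    have h2 : qform p ![-1, 1, 0, 0] ![-t.1 - t.2, t.2, t.1, 0] =
        t.1 * ⟪p 2 - p 0, p 1 - p 0⟫ + t.2 * ⟪p 1 - p 0, p 1 - p 0⟫ := by
      unfold qform
      rw [Fin.sum_univ_four, Fin.sum_univ_four]
      have e1 : (((![-1, 1, 0, 0] : Fin 4 → ℤ) 0 : ℤ) : ℝ) • p 0 +
          (((![-1, 1, 0, 0] : Fin 4 → ℤ) 1 : ℤ) : ℝ) • p 1 +
          (((![-1, 1, 0, 0] : Fin 4 → ℤ) 2 : ℤ) : ℝ) • p 2 +
          (((![-1, 1, 0, 0] : Fin 4 → ℤ) 3 : ℤ) : ℝ) • p 3 = p 1 - p 0 := by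
        show (((-1 : ℤ)) : ℝ) • p 0 + ((1 : ℤ) : ℝ) • p 1 + ((0 : ℤ) : ℝ) • p 2 +
          ((0 : ℤ) : ℝ) • p 3 = _
        push_cast
        module
      have e2 : (((![-t.1 - t.2, t.2, t.1, 0] : Fin 4 → ℤ) 0 : ℤ) : ℝ) • p 0 +
          (((![-t.1 - t.2, t.2, t.1, 0] : Fin 4 → ℤ) 1 : ℤ) : ℝ) • p 1 +
          (((![-t.1 - t.2, t.2, t.1, 0] : Fin 4 → ℤ) 2 : ℤ) : ℝ) • p 2 +
          (((![-t.1 - t.2, t.2, t.1, 0] : Fin 4 → ℤ) 3 : ℤ) : ℝ) • p 3 =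
          (t.1 : ℝ) • (p 2 - p 0) + (t.2 : ℝ) • (p 1 - p 0) := by
        show ((-t.1 - t.2 : ℤ) : ℝ) • p 0 + ((t.2 : ℤ) : ℝ) • p 1 + ((t.1 : ℤ) : ℝ) • p 2 +
          ((0 : ℤ) : ℝ) • p 3 = _
        push_cast
        module
      rw [e1, e2, inner_add_right, real_inner_smul_right, real_inner_smul_right,
        real_inner_comm (p 2 - p 0)]
    have h4 : (t.1 : ℝ) * (⟪p 2 - p 0, p 1 - p 0⟫ / ⟪p 1 - p 0, p 1 - p 0⟫) + t.2 =
        qform p ![-1, 1, 0, 0] ![-t.1 - t.2, t.2, t.1, 0] / ⟪p 1 - p 0, p 1 - p 0⟫ := by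
      rw [h2]
      field_simp
    rw [h4]
    exact div_nonneg h1 hxx.le
  · intro t ht
    have h1 : 0 ≤ lform G ![0, 0, -t.1, t.2] ![0, 0, 0, 1] :=
      hc _ (List.mem_append_right _ (List.mem_map_of_mem ht))
    have h2 : lform G ![0, 0, -t.1, t.2] ![0, 0, 0, 1] =
        -(t.1 * ⟪G 2, G 3⟫) + t.2 * ⟪G 3, G 3⟫ := by
      unfold lform
      rw [Fin.sum_univ_four, Fin.sum_univ_four]
      have e1 : (((![0, 0, 0, 1] : Fin 4 → ℤ) 0 : ℤ) : ℝ) • G 0 +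
          (((![0, 0, 0, 1] : Fin 4 → ℤ) 1 : ℤ) : ℝ) • G 1 +
          (((![0, 0, 0, 1] : Fin 4 → ℤ) 2 : ℤ) : ℝ) • G 2 +
          (((![0, 0, 0, 1] : Fin 4 → ℤ) 3 : ℤ) : ℝ) • G 3 = G 3 := by
        show ((0 : ℤ) : ℝ) • G 0 + ((0 : ℤ) : ℝ) • G 1 + ((0 : ℤ) : ℝ) • G 2 +
          ((1 : ℤ) : ℝ) • G 3 = _
        push_cast
        module
      have e2 : (((![0, 0, -t.1, t.2] : Fin 4 → ℤ) 0 : ℤ) : ℝ) • G 0 +
          (((![0, 0, -t.1, t.2] : Fin 4 → ℤ) 1 : ℤ) : ℝ) • G 1 +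
          (((![0, 0, -t.1, t.2] : Fin 4 → ℤ) 2 : ℤ) : ℝ) • G 2 +
          (((![0, 0, -t.1, t.2] : Fin 4 → ℤ) 3 : ℤ) : ℝ) • G 3 =
          (-(t.1 : ℝ)) • G 2 + (t.2 : ℝ) • G 3 := by
        show ((0 : ℤ) : ℝ) • G 0 + ((0 : ℤ) : ℝ) • G 1 + ((-t.1 : ℤ) : ℝ) • G 2 +
          ((t.2 : ℤ) : ℝ) • G 3 = _
        push_cast
        module
      rw [e1, e2, inner_add_left, real_inner_smul_left, real_inner_smul_left]
      ring
    have h4 : (t.1 : ℝ) * (-⟪G 2, G 3⟫ / ⟪G 3, G 3⟫) + t.2 =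
        lform G ![0, 0, -t.1, t.2] ![0, 0, 0, 1] / ⟪G 3, G 3⟫ := by
      rw [h2]
      field_simp
    rw [h4]
    exact div_nonneg h1 hl0.le

theorem region_p (Qg Qw : List (ℤ × ℤ))
    (hQ : ∀ g w : ℝ, (∀ t ∈ Qg, 0 ≤ (t.1 : ℝ) * g + t.2) → (∀ t ∈ Qw, 0 ≤ (t.1 : ℝ) * w + t.2) →
      GoodV [0, 7, 2, 5] (VP g w)) : RegionOK (Qg.map cg ++ Qw.map cw) := by
  intro p G h hc
  obtain ⟨h1, h2⟩ := region_p0 Qg Qw h hc
  exact h.flag' D0 (hQ _ _ h1 h2)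

/-! ### the forms in a chart -/

theorem lform_chart {G : Fin 4 → E3} {n d e : Fin 4 → ℝ} {k al be ga : ℝ}
    (hm : ∀ x y, ⟪G x, G y⟫ = LM n d e k al be ga x y) (m f : Fin 4 → ℤ) :
    lform G m f = k * (∑ x, (m x : ℝ) * n x) * (∑ x, (f x : ℝ) * n x) +
      al * (∑ x, (m x : ℝ) * d x) * (∑ x, (f x : ℝ) * d x) +
      be * (∑ x, (m x : ℝ) * e x) * (∑ x, (f x : ℝ) * e x) +
      ga * ((∑ x, (m x : ℝ) * d x) * (∑ x, (f x : ℝ) * e x) +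
        (∑ x, (m x : ℝ) * e x) * (∑ x, (f x : ℝ) * d x)) := by
  have e : lform G m f = ∑ i, (m i : ℝ) * Lf G (fun i => (f i : ℝ)) i := by
    unfold lform
    rw [sum_inner]
    refine Finset.sum_congr rfl fun i _ => ?_
    rw [real_inner_smul_left, inner_gf]
  rw [e]
  unfold Lf
  simp only [hm, Fin.sum_univ_four, LM]
  ring

theorem inner_pv {p G : Fin 4 → E3} (h : Grad p G) (φ w : Fin 4 → ℝ) (hw : ∑ i, w i = 0) :
    ⟪∑ i, φ i • G i, ∑ i, w i • p i⟫ = ∑ i, φ i * w i := by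
  have h1 := comb_eq (p := p) D0 hw
  rw [← h1, inner_add_right, inner_add_right, real_inner_smul_right, real_inner_smul_right,
    real_inner_smul_right, inner_fp h, inner_fp h, inner_fp h, Fin.sum_univ_four]
  rw [Fin.sum_univ_four] at hw
  have h2 : w 0 = -(w 1 + w 2 + w 3) := by linarith
  rw [h2]
  ring

/-- the dual basis of a chart -/
structure Dual (n d e s q r : Fin 4 → ℝ) : Prop where
  ns : ∑ x, n x * s x = 1
  nq : ∑ x, n x * q x = 0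
  nr : ∑ x, n x * r x = 0
  ds : ∑ x, d x * s x = 0
  dq : ∑ x, d x * q x = 1
  dr : ∑ x, d x * r x = 0
  es : ∑ x, e x * s x = 0
  eq : ∑ x, e x * q x = 0
  er : ∑ x, e x * r x = 1
  ex : ∀ v : Fin 4 → ℝ, ∑ x, v x = 0 → ∀ x, v x = (∑ y, v y * s y) * n x +
    (∑ y, v y * q y) * d x + (∑ y, v y * r y) * e x

theorem qform_chart {p G : Fin 4 → E3} (h : Grad p G) {n d e s q r : Fin 4 → ℝ}
    {k al be ga : ℝ} (hm : ∀ x y, ⟪G x, G y⟫ = LM n d e k al be ga x y)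
    (hD : Dual n d e s q r) (v w : Fin 4 → ℤ) (hv : ∑ i, v i = 0) (hw : ∑ i, w i = 0) :
    k * (al * be - ga ^ 2) * qform p v w =
      (al * be - ga ^ 2) * (∑ x, (v x : ℝ) * s x) * (∑ x, (w x : ℝ) * s x) +
      k * (be * (∑ x, (v x : ℝ) * q x) * (∑ x, (w x : ℝ) * q x) +
        al * (∑ x, (v x : ℝ) * r x) * (∑ x, (w x : ℝ) * r x) -
        ga * ((∑ x, (v x : ℝ) * q x) * (∑ x, (w x : ℝ) * r x) +
          (∑ x, (v x : ℝ) * r x) * (∑ x, (w x : ℝ) * q x))) := by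
  have hv' : ∑ i, ((v i : ℤ) : ℝ) = 0 := by exact_mod_cast hv
  have hw' : ∑ i, ((w i : ℤ) : ℝ) = 0 := by exact_mod_cast hw
  obtain ⟨vs, hvs⟩ : ∃ t, t = ∑ x, (v x : ℝ) * s x := ⟨_, rfl⟩
  obtain ⟨vq, hvq⟩ : ∃ t, t = ∑ x, (v x : ℝ) * q x := ⟨_, rfl⟩
  obtain ⟨vr, hvr⟩ : ∃ t, t = ∑ x, (v x : ℝ) * r x := ⟨_, rfl⟩
  rw [← hvs, ← hvq, ← hvr]
  let φ : Fin 4 → ℝ := fun x => (al * be - ga ^ 2) * vs * s x + k * (be * vq - ga * vr) * q x +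
    k * (al * vr - ga * vq) * r x
  have hn : ∑ x, n x * φ x = (al * be - ga ^ 2) * vs := by
    have : ∑ x, n x * φ x = (al * be - ga ^ 2) * vs * (∑ x, n x * s x) +
        k * (be * vq - ga * vr) * (∑ x, n x * q x) +
        k * (al * vr - ga * vq) * (∑ x, n x * r x) := by
      simp only [Fin.sum_univ_four, φ]
      ring
    rw [this, hD.ns, hD.nq, hD.nr]
    ring
  have hd : ∑ x, d x * φ x = k * (be * vq - ga * vr) := by
    have : ∑ x, d x * φ x = (al * be - ga ^ 2) * vs * (∑ x, d x * s x) +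
        k * (be * vq - ga * vr) * (∑ x, d x * q x) +
        k * (al * vr - ga * vq) * (∑ x, d x * r x) := by
      simp only [Fin.sum_univ_four, φ]
      ring
    rw [this, hD.ds, hD.dq, hD.dr]
    ring
  have he : ∑ x, e x * φ x = k * (al * vr - ga * vq) := by
    have : ∑ x, e x * φ x = (al * be - ga ^ 2) * vs * (∑ x, e x * s x) +
        k * (be * vq - ga * vr) * (∑ x, e x * q x) +
        k * (al * vr - ga * vq) * (∑ x, e x * r x) := by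
      simp only [Fin.sum_univ_four, φ]
      ring
    rw [this, hD.es, hD.eq, hD.er]
    ring
  have hL : ∀ m, Lf G φ m = (k * (al * be - ga ^ 2)) * v m := by
    intro m
    have e1 : Lf G φ m = k * n m * (∑ x, n x * φ x) + al * d m * (∑ x, d x * φ x) +
        be * e m * (∑ x, e x * φ x) + ga * (d m * (∑ x, e x * φ x) + e m * (∑ x, d x * φ x)) := by
      unfold Lf
      simp only [hm, Fin.sum_univ_four, LM]
      ring
    rw [e1, hn, hd, he, hD.ex (fun x => (v x : ℝ)) hv' m, ← hvs, ← hvq, ← hvr]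
    ring
  have h1 := h.vec_eq hL
  have h2 : k * (al * be - ga ^ 2) * qform p v w = ∑ i, φ i * w i := by
    rw [← inner_pv h φ (fun i => (w i : ℝ)) hw', ← h1, real_inner_smul_left]
    rfl
  rw [h2]
  simp only [Fin.sum_univ_four, φ]
  ring

/-- the dual basis of chart N -/
def sN : Fin 4 → ℝ := ![0, 0, 1, 1]
def qN (a : ℝ) : Fin 4 → ℝ := ![1, 0, 1 - a, 1 - a]
def rN (c : ℝ) : Fin 4 → ℝ := ![0, 0, c, c - 1]

theorem dualN (a c : ℝ) : Dual (nN a c) dN eN sN (qN a) (rN c) := by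
  refine ⟨?_, ?_, ?_, ?_, ?_, ?_, ?_, ?_, ?_, ?_⟩
  · rw [Fin.sum_univ_four]
    show (a - 1) * 0 + (-a) * 0 + (1 - c) * 1 + c * 1 = 1
    ring
  · rw [Fin.sum_univ_four]
    show (a - 1) * 1 + (-a) * 0 + (1 - c) * (1 - a) + c * (1 - a) = 0
    ring
  · rw [Fin.sum_univ_four]
    show (a - 1) * 0 + (-a) * 0 + (1 - c) * c + c * (c - 1) = 0
    ring
  · rw [Fin.sum_univ_four]
    show (1 : ℝ) * 0 + (-1) * 0 + 0 * 1 + 0 * 1 = 0
    ring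
  · rw [Fin.sum_univ_four]
    show (1 : ℝ) * 1 + (-1) * 0 + 0 * (1 - a) + 0 * (1 - a) = 1
    ring
  · rw [Fin.sum_univ_four]
    show (1 : ℝ) * 0 + (-1) * 0 + 0 * c + 0 * (c - 1) = 0
    ring
  · rw [Fin.sum_univ_four]
    show (0 : ℝ) * 0 + 0 * 0 + 1 * 1 + (-1) * 1 = 0
    ring
  · rw [Fin.sum_univ_four]
    show (0 : ℝ) * 1 + 0 * 0 + 1 * (1 - a) + (-1) * (1 - a) = 0
    ring
  · rw [Fin.sum_univ_four]
    show (0 : ℝ) * 0 + 0 * 0 + 1 * c + (-1) * (c - 1) = 1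
    ring
  · intro v hv x
    rw [Fin.sum_univ_four] at hv
    simp only [Fin.sum_univ_four]
    fin_cases x
    · show v 0 = (v 0 * 0 + v 1 * 0 + v 2 * 1 + v 3 * 1) * (a - 1) +
        (v 0 * 1 + v 1 * 0 + v 2 * (1 - a) + v 3 * (1 - a)) * 1 +
        (v 0 * 0 + v 1 * 0 + v 2 * c + v 3 * (c - 1)) * 0
      ring
    · show v 1 = (v 0 * 0 + v 1 * 0 + v 2 * 1 + v 3 * 1) * (-a) +
        (v 0 * 1 + v 1 * 0 + v 2 * (1 - a) + v 3 * (1 - a)) * (-1) +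
        (v 0 * 0 + v 1 * 0 + v 2 * c + v 3 * (c - 1)) * 0
      linear_combination hv
    · show v 2 = (v 0 * 0 + v 1 * 0 + v 2 * 1 + v 3 * 1) * (1 - c) +
        (v 0 * 1 + v 1 * 0 + v 2 * (1 - a) + v 3 * (1 - a)) * 0 +
        (v 0 * 0 + v 1 * 0 + v 2 * c + v 3 * (c - 1)) * 1
      ring
    · show v 3 = (v 0 * 0 + v 1 * 0 + v 2 * 1 + v 3 * 1) * c +
        (v 0 * 1 + v 1 * 0 + v 2 * (1 - a) + v 3 * (1 - a)) * 0 +
        (v 0 * 0 + v 1 * 0 + v 2 * c + v 3 * (c - 1)) * (-1)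
      ring

/-- the dual basis of chart S -/
def sS : Fin 4 → ℝ := ![0, 0, 0, 1]
def qS (v : ℝ) : Fin 4 → ℝ := ![0, -1, 0, -v]
def rS (w : ℝ) : Fin 4 → ℝ := ![0, 0, -1, -w]

theorem dualS (v w : ℝ) : Dual (nS v w) dS eS sS (qS v) (rS w) := by
  refine ⟨?_, ?_, ?_, ?_, ?_, ?_, ?_, ?_, ?_, ?_⟩
  · rw [Fin.sum_univ_four]
    show (-(1 - v - w)) * 0 + (-v) * 0 + (-w) * 0 + 1 * 1 = 1
    ring
  · rw [Fin.sum_univ_four]
    show (-(1 - v - w)) * 0 + (-v) * (-1) + (-w) * 0 + 1 * (-v) = 0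
    ring
  · rw [Fin.sum_univ_four]
    show (-(1 - v - w)) * 0 + (-v) * 0 + (-w) * (-1) + 1 * (-w) = 0
    ring
  · rw [Fin.sum_univ_four]
    show (1 : ℝ) * 0 + (-1) * 0 + 0 * 0 + 0 * 1 = 0
    ring
  · rw [Fin.sum_univ_four]
    show (1 : ℝ) * 0 + (-1) * (-1) + 0 * 0 + 0 * (-v) = 1
    ring
  · rw [Fin.sum_univ_four]
    show (1 : ℝ) * 0 + (-1) * 0 + 0 * (-1) + 0 * (-w) = 0
    ring
  · rw [Fin.sum_univ_four]
    show (1 : ℝ) * 0 + 0 * 0 + (-1) * 0 + 0 * 1 = 0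
    ring
  · rw [Fin.sum_univ_four]
    show (1 : ℝ) * 0 + 0 * (-1) + (-1) * 0 + 0 * (-v) = 0
    ring
  · rw [Fin.sum_univ_four]
    show (1 : ℝ) * 0 + 0 * 0 + (-1) * (-1) + 0 * (-w) = 1
    ring
  · intro t ht x
    rw [Fin.sum_univ_four] at ht
    simp only [Fin.sum_univ_four]
    fin_cases x
    · show t 0 = (t 0 * 0 + t 1 * 0 + t 2 * 0 + t 3 * 1) * (-(1 - v - w)) +
        (t 0 * 0 + t 1 * (-1) + t 2 * 0 + t 3 * (-v)) * 1 +
        (t 0 * 0 + t 1 * 0 + t 2 * (-1) + t 3 * (-w)) * 1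
      linear_combination ht
    · show t 1 = (t 0 * 0 + t 1 * 0 + t 2 * 0 + t 3 * 1) * (-v) +
        (t 0 * 0 + t 1 * (-1) + t 2 * 0 + t 3 * (-v)) * (-1) +
        (t 0 * 0 + t 1 * 0 + t 2 * (-1) + t 3 * (-w)) * 0
      ring
    · show t 2 = (t 0 * 0 + t 1 * 0 + t 2 * 0 + t 3 * 1) * (-w) +
        (t 0 * 0 + t 1 * (-1) + t 2 * 0 + t 3 * (-v)) * 0 +
        (t 0 * 0 + t 1 * 0 + t 2 * (-1) + t 3 * (-w)) * (-1)
      ring
    · show t 3 = (t 0 * 0 + t 1 * 0 + t 2 * 0 + t 3 * 1) * 1 +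
        (t 0 * 0 + t 1 * (-1) + t 2 * 0 + t 3 * (-v)) * 0 +
        (t 0 * 0 + t 1 * 0 + t 2 * (-1) + t 3 * (-w)) * 0
      ring

/-! ### special regions -/

/-- no obtuse dihedral angle -/
theorem region_nonobtuse {p G : Fin 4 → E3} (h : Grad p G)
    (hn : ∀ i j, j ≠ i → ⟪G i, G j⟫ ≤ 0) : Dense (convexHull ℝ (Set.range p)) := by
  refine h.feet.all fun i j => ?_
  split_ifs with hij
  · exact le_refl _
  · exact div_nonneg (neg_nonneg.2 (hn i j hij)) (h.pos i).le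

end Pool.Agent.TET
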