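import Mathlib

/-!
# MP_c7c9bf_co: the checker for certificates of packings by tetrahedra

All numbers are natural numbers, scale `30720`. A point or vector has four coordinates (the last three are the
coordinates, biased by `245760`; the first one makes the sum equal to `983040` for vectors, `1013760` for
points). A functional has four coordinates with sum `16384`. The vectors of the cube `|n| ≤ m` are treated
simultaneously, in one natural number with fields of `40` bits.
-/

set_option autoImplicit false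

namespace Pool.Agent.TET

/-- a point, a vector, or a functional -/
structure Q where
  a : ℕ
  b : ℕ
  c : ℕ
  d : ℕ

/-- a tetrahedron -/
structure Bd where
  p : Q
  q : Q
  r : Q
  s : Q

/-- a corner of a cell: the edge vectors of `T`, the lattice, the tetrahedra -/
structure Cn where
  e : Q
  f : Q
  g : Q
  x : Q
  y : Q
  z : Q
  l : List Bd

/-- packed constants -/
structure Kc where
  m : ℕ
  x1 : ℕ
  x2 : ℕ
  x3 : ℕ
  one : ℕ
  k2 : ℕ
  hh : ℕ
  ht : ℕ

/-- a cell with its certificate -/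
structure Cell where
  n : ℕ
  t : List ℕ
  c : List Cn
  f : List (List (List Q))
  w1 : Q
  w2 : Q
  w3 : Q

def sumQ (x : Q) : ℕ := Nat.add (Nat.add x.a x.b) (Nat.add x.c x.d)

def dot4 (x y : Q) : ℕ :=
  Nat.add (Nat.add (Nat.mul x.a y.a) (Nat.mul x.b y.b)) (Nat.add (Nat.mul x.c y.c) (Nat.mul x.d y.d))

def nmax (a b : ℕ) : ℕ := Nat.add a (Nat.sub b a)

def nmin (a b : ℕ) : ℕ := Nat.sub a (Nat.sub a b)

/-- the maximum of a functional on a tetrahedron -/
def hi (f : Q) (B : Bd) : ℕ :=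
  nmax (nmax (dot4 f B.p) (dot4 f B.q)) (nmax (dot4 f B.r) (dot4 f B.s))

/-- the minimum of a functional on a tetrahedron -/
def lo (f : Q) (B : Bd) : ℕ :=
  nmin (nmin (dot4 f B.p) (dot4 f B.q)) (nmin (dot4 f B.r) (dot4 f B.s))

/-- all fields of one coordinate of the lattice vectors -/
def yy (K : Kc) (u v w : ℕ) : ℕ :=
  Nat.sub (Nat.add (Nat.add (Nat.mul u K.x1) (Nat.mul v K.x2)) (Nat.add (Nat.mul w K.x3) K.k2))
    (Nat.mul (Nat.mul K.m (Nat.add (Nat.add u v) w)) K.one)

/-- all fields of the lattice vectors -/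
def yq (K : Kc) (c : Cn) : Q :=
  ⟨yy K c.x.a c.y.a c.z.a, yy K c.x.b c.y.b c.z.b, yy K c.x.c c.y.c c.z.c, yy K c.x.d c.y.d c.z.d⟩

/-- `2 ^ 39 - 9 * m * 245760 * 16384` -/
def k1 (K : Kc) : ℕ := Nat.sub 549755813888 (Nat.mul 36238786560 K.m)

/-- the fields with the test bits, one corner -/
def z1 (K : Kc) (f : Q) (Bi Bj : Bd) (c : Cn) : ℕ :=
  Nat.add (dot4 f (yq K c)) (Nat.mul (Nat.sub (Nat.add (k1 K) (lo f Bj)) (hi f Bi)) K.one)

def b0d : Bd := ⟨⟨0, 0, 0, 0⟩, ⟨0, 0, 0, 0⟩, ⟨0, 0, 0, 0⟩, ⟨0, 0, 0, 0⟩⟩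

def nth {α : Type} (d : α) (l : List α) : ℕ → α :=
  List.rec (motive := fun _ => ℕ → α) (fun _ => d)
    (fun x _ ih k => Nat.rec (motive := fun _ => α) x (fun k _ => ih k) k) l

/-- the separated pairs for one functional -/
def zf (K : Kc) (cs : List Cn) (i j : ℕ) (f : Q) : ℕ :=
  List.rec (motive := fun _ => ℕ) K.hh
    (fun c _ ih => Nat.land (z1 K f (nth b0d c.l i) (nth b0d c.l j) c) ih) cs

/-- the separated pairs for the tetrahedra `i`, `j` -/
def zij (K : Kc) (cs : List Cn) (i j : ℕ) (fs : List Q) : ℕ :=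
  List.rec (motive := fun _ => ℕ) 0 (fun f _ ih => Nat.lor (zf K cs i j f) ih) fs

def okV (x : Q) : Bool := Nat.beq (sumQ x) 983040

def okP (x : Q) : Bool := Nat.beq (sumQ x) 1013760

def okF (x : Q) : Bool :=
  Bool.and (Nat.beq (sumQ x) 16384)
    (Bool.not (Bool.and (Nat.beq x.a 4096) (Bool.and (Nat.beq x.b 4096) (Nat.beq x.c 4096))))

/-- all elements satisfy `p` -/
def allL {α : Type} (p : α → Bool) (l : List α) : Bool :=
  List.rec (motive := fun _ => Bool) true (fun x _ ih => Bool.and (p x) ih) l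

def okB (B : Bd) : Bool := Bool.and (Bool.and (okP B.p) (okP B.q)) (Bool.and (okP B.r) (okP B.s))

def okC (n : ℕ) (c : Cn) : Bool :=
  Bool.and (Bool.and (okV c.x) (Bool.and (okV c.y) (okV c.z)))
    (Bool.and (allL okB c.l) (Nat.beq (List.length c.l) n))

/-- the bit `a` of `τ` is zero -/
def sb (τ a : ℕ) : Bool := Nat.beq (Nat.land τ a) 0

/-- `y = x + v` if `s`, otherwise `y = x - v` (`v` is biased) -/
def ck (s : Bool) (x y v : ℕ) : Bool :=
  cond s (Nat.beq (Nat.add y 245760) (Nat.add x v)) (Nat.beq (Nat.add y v) (Nat.add x 245760))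

/-- `y = x ± v` with the signs of the class `τ` -/
def ckq (τ : ℕ) (x y v : Q) : Bool :=
  Bool.and (ck (sb τ 1) x.b y.b v.b) (Bool.and (ck (sb τ 2) x.c y.c v.c) (ck (sb τ 4) x.d y.d v.d))

/-- the tetrahedron is of type `τ` -/
def semB (e f g : Q) (B : Bd) (τ : ℕ) : Bool :=
  Bool.and (ckq τ B.p B.q e) (Bool.and (ckq τ B.p B.r f) (ckq τ B.p B.s g))

/-- all tetrahedra have the right types -/
def semL (e f g : Q) (ts : List ℕ) : List Bd → Bool :=
  List.rec (motive := fun _ => List Bd → Bool)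
    (fun bs => List.rec (motive := fun _ => Bool) true (fun _ _ _ => false) bs)
    (fun τ _ ih bs => List.rec (motive := fun _ => Bool) false
      (fun B bs _ => Bool.and (semB e f g B τ) (ih bs)) bs) ts

/-- `p i` for all `i < n` -/
def allLt (p : ℕ → Bool) (n : ℕ) : Bool :=
  Nat.rec (motive := fun _ => Bool) true (fun i ih => Bool.and (p i) ih) n

/-- the pair `i`, `j` is separated -/
def pr (K : Kc) (cs : List Cn) (i j : ℕ) (fs : List Q) : Bool :=
  Bool.and (allL okF fs)
    (Nat.beq (Nat.land (zij K cs i j fs) (cond (Nat.beq i j) K.ht K.hh))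
      (cond (Nat.beq i j) K.ht K.hh))

def prs (K : Kc) (cs : List Cn) (n : ℕ) (F : List (List (List Q))) : Bool :=
  allLt (fun i => allLt (fun j => Bool.or (Nat.ble (Nat.succ j) i)
    (pr K cs i j (nth [] (nth [] F i) j))) n) n

/-- `|x - 245760 * 16384|` -/
def dv (x : ℕ) : ℕ := Nat.add (Nat.sub x 4026531840) (Nat.sub 4026531840 x)

def mxl (f : Q) (l : List Bd) : ℕ :=
  List.rec (motive := fun _ => ℕ) 0 (fun B _ ih => nmax (hi f B) ih) l

def mnl (f : Q) (l : List Bd) : ℕ :=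
  List.rec (motive := fun _ => ℕ) 1152921504606846976 (fun B _ ih => nmin (lo f B) ih) l

/-- the far pairs in the direction `u` -/
def far (K : Kc) (f : Q) (u v w : Q) (l : List Bd) : Bool :=
  Nat.ble (Nat.add (mxl f l) (Nat.mul (Nat.succ K.m)
      (Nat.add 4026531840 (Nat.add (dv (dot4 f v)) (dv (dot4 f w))))))
    (Nat.add (Nat.mul (Nat.succ K.m) (dot4 f u)) (mnl f l))

def farC (K : Kc) (f g h : Q) (c : Cn) : Bool :=
  Bool.and (far K f c.x c.y c.z c.l) (Bool.and (far K g c.y c.z c.x c.l) (far K h c.z c.x c.y c.l))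

/-- integer coordinates -/
structure I3 where
  a : ℤ
  b : ℤ
  c : ℤ

def iv (x : Q) : I3 :=
  ⟨Int.subNatNat x.b 245760, Int.subNatNat x.c 245760, Int.subNatNat x.d 245760⟩

def det3 (x y z : I3) : ℤ :=
  Int.add (Int.add (Int.mul x.a (Int.sub (Int.mul y.b z.c) (Int.mul y.c z.b)))
    (Int.mul x.b (Int.sub (Int.mul y.c z.a) (Int.mul y.a z.c))))
    (Int.mul x.c (Int.sub (Int.mul y.a z.b) (Int.mul y.b z.a)))

/-- the symmetrised mixed determinant -/
def sdet (k l m : Cn) : ℤ :=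
  Int.add (Int.add (Int.add (det3 (iv k.x) (iv l.y) (iv m.z)) (det3 (iv k.x) (iv m.y) (iv l.z)))
    (Int.add (det3 (iv l.x) (iv k.y) (iv m.z)) (det3 (iv l.x) (iv m.y) (iv k.z))))
    (Int.add (det3 (iv m.x) (iv k.y) (iv l.z)) (det3 (iv m.x) (iv l.y) (iv k.z)))

/-- the symmetrised mixed determinant of the edge vectors -/
def vdet (k l m : Cn) : ℤ :=
  Int.add (Int.add (Int.add (det3 (iv k.e) (iv l.f) (iv m.g)) (det3 (iv k.e) (iv m.f) (iv l.g)))
    (Int.add (det3 (iv l.e) (iv k.f) (iv m.g)) (det3 (iv l.e) (iv m.f) (iv k.g))))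
    (Int.add (det3 (iv m.e) (iv k.f) (iv l.g)) (det3 (iv m.e) (iv l.f) (iv k.g)))

/-- `0 < d` and `444294 * d ≤ 100000 * n * v` -/
def okD (n : ℕ) (d v : ℤ) : Bool :=
  match d, v with
  | Int.ofNat e, Int.ofNat w =>
    Bool.and (Nat.ble 1 e) (Nat.ble (Nat.mul 444294 e) (Nat.mul (Nat.mul 100000 n) w))
  | _, _ => false

def dets (n : ℕ) (cs : List Cn) : Bool :=
  allL (fun k => allL (fun l => allL (fun m => okD n (sdet k l m) (vdet k l m)) cs) cs) cs

/-- `x` is in the list -/
def memb (x : ℕ) (l : List ℕ) : Bool :=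
  List.rec (motive := fun _ => Bool) false (fun y _ ih => Bool.or (Nat.beq x y) ih) l

/-- **the checker**; `A` is the list of the admissible classes -/
def chk (K : Kc) (A : List ℕ) (X : Cell) : Bool :=
  Bool.and (Bool.and (Nat.ble 1 X.n) (allL (okC X.n) X.c))
    (Bool.and (Bool.and (allL (fun c => semL c.e c.f c.g X.t c.l) X.c)
        (Bool.and (Nat.beq (List.length X.t) X.n) (allL (fun τ => memb τ A) X.t)))
      (Bool.and (Bool.and (okF X.w1) (Bool.and (okF X.w2) (okF X.w3)))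
        (Bool.and (allL (farC K X.w1 X.w2 X.w3) X.c)
          (Bool.and (dets X.n X.c) (prs K X.c X.n X.f)))))

end Pool.Agent.TET
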