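import Pool.Agent.Helper38_TET.Cov
import Pool.Agent.Helper38_TET.Regn

/-!
# MP_c7c9bf_co: three-parameter cells, full flags with the eight sign classes
-/

set_option autoImplicit false
set_option maxRecDepth 100000

namespace Pool.Agent.TET

open MeasureTheory Set Filter Pool.Agent.UL3 Pool.Agent.UL3.H88
open scoped ENNReal Topology RealInnerProductSpace

/-- the edge vectors of the four corners -/
def cs4 (cs : List Cn) (a b c d : QV) : Bool :=
  match cs with
  | [t, u, v, w] => Bool.and (eqC t a) (Bool.and (eqC u b) (Bool.and (eqC v c) (eqC w d)))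
  | _ => false

/-- the check of a simplex -/
def chk4 (K : Kc) (A : List ℕ) (X : Cell) (a b c d : QV) : Bool :=
  Bool.and (chk K A X) (cs4 X.c a b c d)

theorem cov4_leaf {K : Kc} (hK : K.Ok) {A : List ℕ} {X : Cell} {a b c d : QV}
    (h : chk4 K A X a b c d = true) : Cov4 A (vq a) (vq b) (vq c) (vq d) := by
  obtain ⟨h1, h2⟩ := bAnd.1 h
  obtain ⟨n, t, cs, F, w1, w2, w3⟩ := X
  match cs, h1, h2 with
  | [t, u, v, w], h1, h2 =>
    obtain ⟨g1, g2⟩ := bAnd.1 h2
    obtain ⟨g3, g4⟩ := bAnd.1 g2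
    obtain ⟨g5, g6⟩ := bAnd.1 g4
    rw [← eqC_vm g1, ← eqC_vm g3, ← eqC_vm g5, ← eqC_vm g6]
    intro x y z r hx hy hz hr hs
    have h3 := chk_sound hK h1 ![x, y, z, r] (fun k => by fin_cases k <;> assumption)
      ((Fin.sum_univ_four _).trans hs)
    have e : ∑ k : Fin 4, (![x, y, z, r] : Fin 4 → ℝ) k • vm (([t, u, v, w] : List Cn).get k) =
        x • vm t + y • vm u + z • vm v + r • vm w := Fin.sum_univ_four _
    rw [← e]
    exact h3

theorem Cov4.mid01 {A : List ℕ} {a b c d m : QV} (h : midV a b m = true)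
    (h1 : Cov4 A (vq a) (vq m) (vq c) (vq d))
    (h2 : Cov4 A (vq m) (vq b) (vq c) (vq d)) : Cov4 A (vq a) (vq b) (vq c) (vq d) := by
  intro x y z w hx hy hz hw hs
  rcases le_total y x with hc | hc
  · have h3 := h1 (x - y) (2 * y) z w (by linarith) (by linarith) hz hw (by linarith)
    have e : x • vq a + y • vq b + z • vq c + w • vq d = (x - y) • vq a + (2 * y) • vq m + z • vq c + w • vq d := by
      rw [midV_vq h]
      module
    rw [e]
    exact h3
  · have h3 := h2 (2 * x) (y - x) z w (by linarith) (by linarith) hz hw (by linarith)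
    have e : x • vq a + y • vq b + z • vq c + w • vq d = (2 * x) • vq m + (y - x) • vq b + z • vq c + w • vq d := by
      rw [midV_vq h]
      module
    rw [e]
    exact h3

theorem Cov4.mid02 {A : List ℕ} {a b c d m : QV} (h : midV a c m = true)
    (h1 : Cov4 A (vq a) (vq b) (vq m) (vq d))
    (h2 : Cov4 A (vq m) (vq b) (vq c) (vq d)) : Cov4 A (vq a) (vq b) (vq c) (vq d) := by
  intro x y z w hx hy hz hw hs
  rcases le_total z x with hc | hc
  · have h3 := h1 (x - z) y (2 * z) w (by linarith) hy (by linarith) hw (by linarith)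
    have e : x • vq a + y • vq b + z • vq c + w • vq d = (x - z) • vq a + y • vq b + (2 * z) • vq m + w • vq d := by
      rw [midV_vq h]
      module
    rw [e]
    exact h3
  · have h3 := h2 (2 * x) y (z - x) w (by linarith) hy (by linarith) hw (by linarith)
    have e : x • vq a + y • vq b + z • vq c + w • vq d = (2 * x) • vq m + y • vq b + (z - x) • vq c + w • vq d := by
      rw [midV_vq h]
      module
    rw [e]
    exact h3

theorem Cov4.mid03 {A : List ℕ} {a b c d m : QV} (h : midV a d m = true)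
    (h1 : Cov4 A (vq a) (vq b) (vq c) (vq m))
    (h2 : Cov4 A (vq m) (vq b) (vq c) (vq d)) : Cov4 A (vq a) (vq b) (vq c) (vq d) := by
  intro x y z w hx hy hz hw hs
  rcases le_total w x with hc | hc
  · have h3 := h1 (x - w) y z (2 * w) (by linarith) hy hz (by linarith) (by linarith)
    have e : x • vq a + y • vq b + z • vq c + w • vq d = (x - w) • vq a + y • vq b + z • vq c + (2 * w) • vq m := by
      rw [midV_vq h]
      module
    rw [e]
    exact h3
  · have h3 := h2 (2 * x) y z (w - x) (by linarith) hy hz (by linarith) (by linarith)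
    have e : x • vq a + y • vq b + z • vq c + w • vq d = (2 * x) • vq m + y • vq b + z • vq c + (w - x) • vq d := by
      rw [midV_vq h]
      module
    rw [e]
    exact h3

theorem Cov4.mid12 {A : List ℕ} {a b c d m : QV} (h : midV b c m = true)
    (h1 : Cov4 A (vq a) (vq b) (vq m) (vq d))
    (h2 : Cov4 A (vq a) (vq m) (vq c) (vq d)) : Cov4 A (vq a) (vq b) (vq c) (vq d) := by
  intro x y z w hx hy hz hw hs
  rcases le_total z y with hc | hc
  · have h3 := h1 x (y - z) (2 * z) w hx (by linarith) (by linarith) hw (by linarith)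
    have e : x • vq a + y • vq b + z • vq c + w • vq d = x • vq a + (y - z) • vq b + (2 * z) • vq m + w • vq d := by
      rw [midV_vq h]
      module
    rw [e]
    exact h3
  · have h3 := h2 x (2 * y) (z - y) w hx (by linarith) (by linarith) hw (by linarith)
    have e : x • vq a + y • vq b + z • vq c + w • vq d = x • vq a + (2 * y) • vq m + (z - y) • vq c + w • vq d := by
      rw [midV_vq h]
      module
    rw [e]
    exact h3

theorem Cov4.mid13 {A : List ℕ} {a b c d m : QV} (h : midV b d m = true)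
    (h1 : Cov4 A (vq a) (vq b) (vq c) (vq m))
    (h2 : Cov4 A (vq a) (vq m) (vq c) (vq d)) : Cov4 A (vq a) (vq b) (vq c) (vq d) := by
  intro x y z w hx hy hz hw hs
  rcases le_total w y with hc | hc
  · have h3 := h1 x (y - w) z (2 * w) hx (by linarith) hz (by linarith) (by linarith)
    have e : x • vq a + y • vq b + z • vq c + w • vq d = x • vq a + (y - w) • vq b + z • vq c + (2 * w) • vq m := by
      rw [midV_vq h]
      module
    rw [e]
    exact h3
  · have h3 := h2 x (2 * y) z (w - y) hx (by linarith) hz (by linarith) (by linarith)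
    have e : x • vq a + y • vq b + z • vq c + w • vq d = x • vq a + (2 * y) • vq m + z • vq c + (w - y) • vq d := by
      rw [midV_vq h]
      module
    rw [e]
    exact h3

theorem Cov4.mid23 {A : List ℕ} {a b c d m : QV} (h : midV c d m = true)
    (h1 : Cov4 A (vq a) (vq b) (vq c) (vq m))
    (h2 : Cov4 A (vq a) (vq b) (vq m) (vq d)) : Cov4 A (vq a) (vq b) (vq c) (vq d) := by
  intro x y z w hx hy hz hw hs
  rcases le_total w z with hc | hc
  · have h3 := h1 x y (z - w) (2 * w) hx hy (by linarith) (by linarith) (by linarith)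
    have e : x • vq a + y • vq b + z • vq c + w • vq d = x • vq a + y • vq b + (z - w) • vq c + (2 * w) • vq m := by
      rw [midV_vq h]
      module
    rw [e]
    exact h3
  · have h3 := h2 x y (2 * z) (w - z) hx hy (by linarith) (by linarith) (by linarith)
    have e : x • vq a + y • vq b + z • vq c + w • vq d = x • vq a + y • vq b + (2 * z) • vq m + (w - z) • vq d := by
      rw [midV_vq h]
      module
    rw [e]
    exact h3

/-! ### full flags -/

/-- the edge vectors in the orthogonal frame of a flag -/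
def famO (g d w : ℝ) : Fin 3 → Fin 3 → ℝ := ![![1, 0, 0], ![g, 1, 0], ![d, w, 1]]

/-- the eight classes are good -/
def GO (g d w : ℝ) : Prop := GoodV [0, 1, 2, 3, 4, 5, 6, 7] (famO g d w)

theorem transfer_o {A B C D : E3} (h : AffineIndependent ℝ ![A, B, C, D]) {g d w : ℝ}
    (h1 : ⟪(C - A) - g • (B - A), B - A⟫ = 0)
    (h2 : ⟪(D - A) - d • (B - A) - w • ((C - A) - g • (B - A)), B - A⟫ = 0)
    (h3 : ⟪(D - A) - d • (B - A) - w • ((C - A) - g • (B - A)), (C - A) - g • (B - A)⟫ = 0)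
    (hg : GO g d w) : Dense (convexHull ℝ {A, B, C, D}) := by
  obtain ⟨e0, he0⟩ : ∃ e0, e0 = B - A := ⟨_, rfl⟩
  obtain ⟨e1, he1⟩ : ∃ e1, e1 = (C - A) - g • (B - A) := ⟨_, rfl⟩
  obtain ⟨e2, he2⟩ : ∃ e2, e2 = (D - A) - d • (B - A) - w • ((C - A) - g • (B - A)) := ⟨_, rfl⟩
  rw [← he1, ← he0] at h1
  rw [← he2, ← he0] at h2
  rw [← he2, ← he1] at h3
  refine frame_transfer h hg ![e0, e1, e2] ?_ ?_ ?_ ?_
  · unfold Qm famO
    rw [Fin.sum_univ_three]
    show (1 : ℝ) • e0 + (0 : ℝ) • e1 + (0 : ℝ) • e2 = B - A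
    rw [he0]
    module
  · unfold Qm famO
    rw [Fin.sum_univ_three]
    show g • e0 + (1 : ℝ) • e1 + (0 : ℝ) • e2 = C - A
    rw [he0, he1]
    module
  · unfold Qm famO
    rw [Fin.sum_univ_three]
    show d • e0 + w • e1 + (1 : ℝ) • e2 = D - A
    rw [he0, he1, he2]
    module
  · intro τ _ a b hab
    have s01 : ⟪e0, e1⟫ = 0 := by rw [real_inner_comm]; exact h1
    have s02 : ⟪e0, e2⟫ = 0 := by rw [real_inner_comm]; exact h2
    have s12 : ⟪e1, e2⟫ = 0 := by rw [real_inner_comm]; exact h3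
    fin_cases a <;> fin_cases b
    · exact absurd rfl hab
    · exact s01
    · exact s02
    · exact h1
    · exact absurd rfl hab
    · exact s12
    · exact h2
    · exact h3
    · exact absurd rfl hab

/-- the flag with edge `i j` and face `i j k` -/
theorem Grad.flag8 {p G : Fin 4 → E3} (h : Grad p G) {i j k l : Fin 4} (hd : D4 i j k l)
    {g v w : ℝ} (hg : g = ⟪p k - p i, p j - p i⟫ / ⟪p j - p i, p j - p i⟫)
    (hv : v = -⟪G j, G l⟫ / ⟪G l, G l⟫) (hw : w = -⟪G k, G l⟫ / ⟪G l, G l⟫)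
    (hG : GO g (v + w * g) w) : Dense (convexHull ℝ (Set.range p)) := by
  have hi : D4 l i j k := ⟨hd.il.symm, hd.jl.symm, hd.kl.symm, hd.ij, hd.ik, hd.jk⟩
  have hx0 : p j - p i ≠ 0 := by
    intro h0
    have h1 := h.edge j j i
    rw [h0, inner_zero_right] at h1
    simp [hd.ij] at h1
  have hxx : ⟪p j - p i, p j - p i⟫ ≠ 0 := (real_inner_self_pos.2 hx0).ne'
  have e4 : ⟪(p k - p i) - g • (p j - p i), p j - p i⟫ = 0 := by
    rw [inner_sub_left, real_inner_smul_left, hg]
    field_simp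
    ring
  have hl0 := h.pos l
  have e5 := h.expand hd ((p l - p i) - (⟪G l, G l⟫)⁻¹ • G l)
  have f1 : ⟪G l, (p l - p i) - (⟪G l, G l⟫)⁻¹ • G l⟫ = 0 := by
    rw [inner_sub_right, h.edge, real_inner_smul_right, inv_mul_cancel₀ hl0.ne']
    simp [hd.il]
  have f2 : ⟪G k, (p l - p i) - (⟪G l, G l⟫)⁻¹ • G l⟫ = w := by
    rw [inner_sub_right, h.edge, real_inner_smul_right, hw]
    simp only [hd.kl.symm, hd.ik, if_false]
    ring
  have f3 : ⟪G j, (p l - p i) - (⟪G l, G l⟫)⁻¹ • G l⟫ = v := by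
    rw [inner_sub_right, h.edge, real_inner_smul_right, hv]
    simp only [hd.jl.symm, hd.ij, if_false]
    ring
  rw [f1, f2, f3, zero_smul, add_zero] at e5
  have g1 : ⟪G l, p j - p i⟫ = 0 := by
    rw [h.edge]
    simp [hd.jl, hd.il]
  have g2 : ⟪G l, p k - p i⟫ = 0 := by
    rw [h.edge]
    simp [hd.kl, hd.il]
  have e6 : (p l - p i) - (v + w * g) • (p j - p i) - w • ((p k - p i) - g • (p j - p i)) =
      (⟪G l, G l⟫)⁻¹ • G l := by
    have e7 : p l - p i = (⟪G l, G l⟫)⁻¹ • G l + (v • (p j - p i) + w • (p k - p i)) := by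
      rw [e5]
      abel
    rw [e7]
    module
  rw [hi.range]
  refine transfer_o (hi.aff h.aff) e4 ?_ ?_ hG
  · rw [e6, real_inner_smul_left, g1, mul_zero]
  · rw [e6, real_inner_smul_left, inner_sub_right, real_inner_smul_right, g1, g2]
    ring

theorem famO_comb (a1 a2 a3 b1 b2 b3 c1 c2 c3 d1 d2 d3 x y z r g d w : ℝ) (hs : x + y + z + r = 1)
    (hg : g = x * a1 + y * b1 + z * c1 + r * d1) (hd : d = x * a2 + y * b2 + z * c2 + r * d2)
    (hw : w = x * a3 + y * b3 + z * c3 + r * d3) :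
    x • famO a1 a2 a3 + y • famO b1 b2 b3 + z • famO c1 c2 c3 + r • famO d1 d2 d3 =
      famO g d w := by
  funext i j
  fin_cases i <;> fin_cases j
  · show x * 1 + y * 1 + z * 1 + r * 1 = 1
    linarith
  · show x * 0 + y * 0 + z * 0 + r * 0 = 0
    ring
  · show x * 0 + y * 0 + z * 0 + r * 0 = 0
    ring
  · exact hg.symm
  · show x * 1 + y * 1 + z * 1 + r * 1 = 1
    linarith
  · show x * 0 + y * 0 + z * 0 + r * 0 = 0
    ring
  · exact hd.symm
  · exact hw.symm
  · show x * 1 + y * 1 + z * 1 + r * 1 = 1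
    linarith

/-- the edge vectors with parameters `(p, q, r) / 30720` -/
theorem vq_famO (a b c p q r : ℕ) :
    vq ⟨⟨a, 276480, 245760, 245760⟩, ⟨b, p, 276480, 245760⟩, ⟨c, q, r, 276480⟩⟩ =
      famO (((p : ℝ) - 245760) / 30720) (((q : ℝ) - 245760) / 30720)
        (((r : ℝ) - 245760) / 30720) := by
  funext i j
  fin_cases i <;> fin_cases j
  · show (((276480 : ℕ) : ℝ) - 245760) / 30720 = 1
    norm_num
  · show (((245760 : ℕ) : ℝ) - 245760) / 30720 = 0
    norm_num
  · show (((245760 : ℕ) : ℝ) - 245760) / 30720 = 0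
    norm_num
  · rfl
  · show (((276480 : ℕ) : ℝ) - 245760) / 30720 = 1
    norm_num
  · show (((245760 : ℕ) : ℝ) - 245760) / 30720 = 0
    norm_num
  · rfl
  · rfl
  · show (((276480 : ℕ) : ℝ) - 245760) / 30720 = 1
    norm_num

/-- all points of a simplex are good, real corners -/
def SimO (a1 a2 a3 b1 b2 b3 c1 c2 c3 d1 d2 d3 : ℝ) : Prop :=
  Cov4 [0, 1, 2, 3, 4, 5, 6, 7] (famO a1 a2 a3) (famO b1 b2 b3) (famO c1 c2 c3) (famO d1 d2 d3)

theorem SimO.good {a1 a2 a3 b1 b2 b3 c1 c2 c3 d1 d2 d3 : ℝ}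
    (h : SimO a1 a2 a3 b1 b2 b3 c1 c2 c3 d1 d2 d3) {x y z r g d w : ℝ} (hx : 0 ≤ x) (hy : 0 ≤ y)
    (hz : 0 ≤ z) (hr : 0 ≤ r) (hs : x + y + z + r = 1)
    (hg : g = x * a1 + y * b1 + z * c1 + r * d1) (hd : d = x * a2 + y * b2 + z * c2 + r * d2)
    (hw : w = x * a3 + y * b3 + z * c3 + r * d3) : GO g d w := by
  have h1 := h x y z r hx hy hz hr hs
  rw [famO_comb _ _ _ _ _ _ _ _ _ _ _ _ _ _ _ _ g d w hs hg hd hw] at h1
  exact h1

/-- a box from its six simplices -/
theorem box_good {g0 g1 d0 d1 w0 w1 : ℝ} (hg : g0 < g1) (hd : d0 < d1) (hw : w0 < w1)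
    (s0 : SimO g0 d0 w0 g1 d0 w0 g1 d1 w0 g1 d1 w1)
    (s1 : SimO g0 d0 w0 g1 d0 w0 g1 d0 w1 g1 d1 w1)
    (s2 : SimO g0 d0 w0 g0 d1 w0 g1 d1 w0 g1 d1 w1)
    (s3 : SimO g0 d0 w0 g0 d1 w0 g0 d1 w1 g1 d1 w1)
    (s4 : SimO g0 d0 w0 g0 d0 w1 g1 d0 w1 g1 d1 w1)
    (s5 : SimO g0 d0 w0 g0 d0 w1 g0 d1 w1 g1 d1 w1) {g d w : ℝ} (a1 : g0 ≤ g) (a2 : g ≤ g1)
    (b1 : d0 ≤ d) (b2 : d ≤ d1) (c1 : w0 ≤ w) (c2 : w ≤ w1) : GO g d w := by
  obtain ⟨x, hx⟩ : ∃ x, x = (g - g0) / (g1 - g0) := ⟨_, rfl⟩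
  obtain ⟨y, hy⟩ : ∃ y, y = (d - d0) / (d1 - d0) := ⟨_, rfl⟩
  obtain ⟨z, hz⟩ : ∃ z, z = (w - w0) / (w1 - w0) := ⟨_, rfl⟩
  have ex : g = g0 + x * (g1 - g0) := by
    rw [hx, div_mul_cancel₀ _ (sub_ne_zero.2 hg.ne')]
    ring
  have ey : d = d0 + y * (d1 - d0) := by
    rw [hy, div_mul_cancel₀ _ (sub_ne_zero.2 hd.ne')]
    ring
  have ez : w = w0 + z * (w1 - w0) := by
    rw [hz, div_mul_cancel₀ _ (sub_ne_zero.2 hw.ne')]
    ring
  have x0 : 0 ≤ x := by rw [hx]; exact div_nonneg (by linarith) (by linarith)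
  have x1 : x ≤ 1 := by rw [hx]; exact (div_le_one (by linarith)).2 (by linarith)
  have y0 : 0 ≤ y := by rw [hy]; exact div_nonneg (by linarith) (by linarith)
  have y1 : y ≤ 1 := by rw [hy]; exact (div_le_one (by linarith)).2 (by linarith)
  have z0 : 0 ≤ z := by rw [hz]; exact div_nonneg (by linarith) (by linarith)
  have z1 : z ≤ 1 := by rw [hz]; exact (div_le_one (by linarith)).2 (by linarith)
  rcases le_total y x with h1 | h1
  · rcases le_total z y with h2 | h2
    · -- z ≤ y ≤ x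
      exact s0.good (x := 1 - x) (y := x - y) (z := y - z) (r := z) (by linarith) (by linarith)
        (by linarith) z0 (by ring) (by rw [ex]; ring) (by rw [ey]; ring) (by rw [ez]; ring)
    · rcases le_total z x with h3 | h3
      · -- y ≤ z ≤ x
        exact s1.good (x := 1 - x) (y := x - z) (z := z - y) (r := y) (by linarith) (by linarith)
          (by linarith) y0 (by ring) (by rw [ex]; ring) (by rw [ey]; ring) (by rw [ez]; ring)
      · -- y ≤ x ≤ z
        exact s4.good (x := 1 - z) (y := z - x) (z := x - y) (r := y) (by linarith) (by linarith)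
          (by linarith) y0 (by ring) (by rw [ex]; ring) (by rw [ey]; ring) (by rw [ez]; ring)
  · rcases le_total z x with h2 | h2
    · -- z ≤ x ≤ y
      exact s2.good (x := 1 - y) (y := y - x) (z := x - z) (r := z) (by linarith) (by linarith)
        (by linarith) z0 (by ring) (by rw [ex]; ring) (by rw [ey]; ring) (by rw [ez]; ring)
    · rcases le_total z y with h3 | h3
      · -- x ≤ z ≤ y
        exact s3.good (x := 1 - y) (y := y - z) (z := z - x) (r := x) (by linarith) (by linarith)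
          (by linarith) x0 (by ring) (by rw [ex]; ring) (by rw [ey]; ring) (by rw [ez]; ring)
      · -- x ≤ y ≤ z
        exact s5.good (x := 1 - z) (y := z - y) (z := y - x) (r := x) (by linarith) (by linarith)
          (by linarith) x0 (by ring) (by rw [ex]; ring) (by rw [ey]; ring) (by rw [ez]; ring)

end Pool.Agent.TET
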