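import Pool.Agent.Helper38_TET.CovZ

/-!
# MP_c7c9bf_co: fast tests for triangles outside of the polygons

The edges of the polygons in natural numbers, sublists by masks.
-/

set_option autoImplicit false

namespace Pool.Agent.TET

/-- an edge of a polygon in the coordinates `X + 131072` -/
structure N6 where
  ap : ℕ
  am : ℕ
  bp : ℕ
  bm : ℕ
  cp : ℕ
  cm : ℕ

/-- the edge in the original coordinates -/
def N6.z (t : N6) : Z3 :=
  ⟨(t.cp : ℤ) - t.cm + 131072 * ((t.ap : ℤ) - t.am + ((t.bp : ℤ) - t.bm)),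
    (t.ap : ℤ) - t.am, (t.bp : ℤ) - t.bm⟩

def nz (z : ℤ) : ℕ := Int.toNat (z + 131072)

def N6.neg (t : N6) (x y : ℕ) : Bool :=
  Nat.ble (Nat.succ (Nat.add (Nat.add (Nat.mul t.ap x) (Nat.mul t.bp y)) t.cp))
    (Nat.add (Nat.add (Nat.mul t.am x) (Nat.mul t.bm y)) t.cm)

def outE (p q r : ℤ × ℤ) (t : N6) : Bool :=
  Bool.and (t.neg (nz p.1) (nz p.2)) (Bool.and (t.neg (nz q.1) (nz q.2)) (t.neg (nz r.1) (nz r.2)))

/-- one edge separates the triangle from the polygon -/
def outQ (p q r : ℤ × ℤ) (Q : List N6) : Bool :=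
  List.rec (motive := fun _ => Bool) false (fun t _ ih => Bool.or (outE p q r t) ih) Q

def okc (p : ℤ × ℤ) : Bool := Bool.and (Nat.ble 1 (nz p.1)) (Nat.ble 1 (nz p.2))

def okc3 (p q r : ℤ × ℤ) : Bool := Bool.and (okc p) (Bool.and (okc q) (okc r))

def bit1 (m : ℕ) : Bool := Nat.beq (Nat.mod m 2) 1

/-- the sublist given by a mask -/
def selN (L : List (List N6)) : ℕ → List (List N6) :=
  List.rec (motive := fun _ => ℕ → List (List N6)) (fun _ => [])
    (fun Q _ ih m => cond (bit1 m) (Q :: ih (Nat.div m 2)) (ih (Nat.div m 2))) L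

def toL (L : List (List N6)) : List (List Z3) := L.map (List.map N6.z)

def badM (p q r : ℤ × ℤ) (L : List (List N6)) : ℕ → Bool :=
  List.rec (motive := fun _ => ℕ → Bool) (fun _ => true)
    (fun Q _ ih m => Bool.and (cond (bit1 m) (outQ p q r Q) true) (ih (Nat.div m 2))) L

def subM (p q r : ℤ × ℤ) (L : List (List N6)) : ℕ → ℕ → Bool :=
  List.rec (motive := fun _ => ℕ → ℕ → Bool) (fun _ _ => true)
    (fun Q _ ih m n => Bool.and (cond (bit1 m) (Bool.or (bit1 n) (outQ p q r Q)) true)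
      (ih (Nat.div m 2) (Nat.div n 2))) L

def topM (p q r : ℤ × ℤ) (L : List (List N6)) : ℕ → Bool :=
  List.rec (motive := fun _ => ℕ → Bool) (fun _ => true)
    (fun Q _ ih n => Bool.and (Bool.or (bit1 n) (outQ p q r Q)) (ih (Nat.div n 2))) L

theorem bOr {a b : Bool} (h : Bool.or a b = true) : a = true ∨ b = true := by
  cases a
  · right
    exact h
  · left
    rfl

theorem nz_eq {z : ℤ} (h : Nat.ble 1 (nz z) = true) : ((nz z : ℕ) : ℤ) = z + 131072 := by
  have h1 : 1 ≤ nz z := Nat.le_of_ble_eq_true h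
  unfold nz at h1 ⊢
  omega

theorem N6.neg_z {t : N6} {p : ℤ × ℤ} (hp : okc p = true) (h : t.neg (nz p.1) (nz p.2) = true) :
    t.z.neg p = true := by
  obtain ⟨h1, h2⟩ := bAnd.1 hp
  have e1 := nz_eq h1
  have e2 := nz_eq h2
  have h3 : Nat.succ (Nat.add (Nat.add (Nat.mul t.ap (nz p.1)) (Nat.mul t.bp (nz p.2))) t.cp) ≤
      Nat.add (Nat.add (Nat.mul t.am (nz p.1)) (Nat.mul t.bm (nz p.2))) t.cm :=
    Nat.le_of_ble_eq_true h
  have h4 : t.ap * nz p.1 + t.bp * nz p.2 + t.cp + 1 ≤ t.am * nz p.1 + t.bm * nz p.2 + t.cm := h3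
  have h5 : ((t.ap : ℤ)) * (nz p.1 : ℕ) + t.bp * (nz p.2 : ℕ) + t.cp + 1 ≤
      t.am * (nz p.1 : ℕ) + t.bm * (nz p.2 : ℕ) + t.cm := by exact_mod_cast h4
  rw [e1, e2] at h5
  refine decide_eq_true ?_
  show (t.cp : ℤ) - t.cm + 131072 * ((t.ap : ℤ) - t.am + ((t.bp : ℤ) - t.bm)) +
    ((t.ap : ℤ) - t.am) * p.1 + ((t.bp : ℤ) - t.bm) * p.2 < 0
  nlinarith [h5]

/-- the point is outside -/
theorem out_pt {L : List (List Z3)} {p q r : ℤ × ℤ} (h : outT L p q r = true) {x y z : ℝ}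
    (hx : 0 ≤ x) (hy : 0 ≤ y) (hz : 0 ≤ z) (hs : x + y + z = 1) :
    Out L (x * p.1 + y * q.1 + z * r.1) (x * p.2 + y * q.2 + z * r.2) := by
  intro Q hQ
  have h1 := List.all_eq_true.1 h Q hQ
  obtain ⟨t, ht, h2⟩ := List.any_eq_true.1 h1
  obtain ⟨h3, h4⟩ := bAnd.1 h2
  obtain ⟨h4, h5⟩ := bAnd.1 h4
  have g3 := Z3.neg_real h3
  have g4 := Z3.neg_real h4
  have g5 := Z3.neg_real h5
  refine ⟨t, ht, ?_⟩
  have e : (t.c : ℝ) + t.a * (x * p.1 + y * q.1 + z * r.1) + t.b * (x * p.2 + y * q.2 + z * r.2) =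
      x * ((t.c : ℝ) + t.a * p.1 + t.b * p.2) + y * ((t.c : ℝ) + t.a * q.1 + t.b * q.2) +
        z * ((t.c : ℝ) + t.a * r.1 + t.b * r.2) := by
    linear_combination (t.c : ℝ) * (-hs)
  rw [e]
  have k1 := mul_nonneg hx (neg_nonneg.2 g3.le)
  have k2 := mul_nonneg hy (neg_nonneg.2 g4.le)
  have k3 := mul_nonneg hz (neg_nonneg.2 g5.le)
  rcases hx.lt_or_eq with h0 | h0
  · have := mul_pos h0 (neg_pos.2 g3)
    linarith
  · rcases hy.lt_or_eq with h0' | h0'
    · have := mul_pos h0' (neg_pos.2 g4)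
      linarith
    · have h0'' : 0 < z := by linarith
      have := mul_pos h0'' (neg_pos.2 g5)
      linarith

theorem outQ_sound {p q r : ℤ × ℤ} (hc : okc3 p q r = true) {Q : List N6}
    (h : outQ p q r Q = true) :
    ((Q.map N6.z).any fun t => Bool.and (t.neg p) (Bool.and (t.neg q) (t.neg r))) = true := by
  obtain ⟨c1, c2⟩ := bAnd.1 hc
  obtain ⟨c2, c3⟩ := bAnd.1 c2
  induction Q with
  | nil => exact absurd h Bool.false_ne_true
  | cons t Q ih =>
    rw [List.map_cons, List.any_cons]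
    have h1 : Bool.or (outE p q r t) (outQ p q r Q) = true := h
    rcases bOr h1 with h2 | h2
    · obtain ⟨g1, g2⟩ := bAnd.1 h2
      obtain ⟨g2, g3⟩ := bAnd.1 g2
      have k1 := N6.neg_z c1 g1
      have k2 := N6.neg_z c2 g2
      have k3 := N6.neg_z c3 g3
      rw [k1, k2, k3]
      rfl
    · rw [ih h2, Bool.or_true]

theorem mem_selN_out {p q r : ℤ × ℤ} {L : List (List N6)} : ∀ {m n : ℕ},
    subM p q r L m n = true → ∀ Q ∈ selN L m, Q ∈ selN L n ∨ outQ p q r Q = true := by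
  induction L with
  | nil =>
    intro m n _ Q hQ
    exact absurd hQ List.not_mem_nil
  | cons P L ih =>
    intro m n h Q hQ
    have h1 : Bool.and (cond (bit1 m) (Bool.or (bit1 n) (outQ p q r P)) true)
      (subM p q r L (Nat.div m 2) (Nat.div n 2)) = true := h
    obtain ⟨h2, h3⟩ := bAnd.1 h1
    have hQ' : Q ∈ cond (bit1 m) (P :: selN L (Nat.div m 2)) (selN L (Nat.div m 2)) := hQ
    have hn : ∀ Q, Q ∈ selN L (Nat.div n 2) → Q ∈ selN (P :: L) n := by
      intro Q hQ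
      show Q ∈ cond (bit1 n) (P :: selN L (Nat.div n 2)) (selN L (Nat.div n 2))
      cases bit1 n
      · exact hQ
      · exact List.mem_cons_of_mem _ hQ
    cases hb : bit1 m with
    | false =>
      rw [hb] at hQ'
      rcases ih h3 Q hQ' with h4 | h4
      · exact Or.inl (hn Q h4)
      · exact Or.inr h4
    | true =>
      rw [hb] at hQ' h2
      rcases List.mem_cons.1 hQ' with h4 | h4
      · rcases bOr h2 with h5 | h5
        · left
          show Q ∈ cond (bit1 n) (P :: selN L (Nat.div n 2)) (selN L (Nat.div n 2))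
          rw [h5, h4]
          exact List.mem_cons_self
        · right
          rw [h4]
          exact h5
      · rcases ih h3 Q h4 with h5 | h5
        · exact Or.inl (hn Q h5)
        · exact Or.inr h5

theorem mem_top_out {p q r : ℤ × ℤ} {L : List (List N6)} : ∀ {n : ℕ},
    topM p q r L n = true → ∀ Q ∈ L, Q ∈ selN L n ∨ outQ p q r Q = true := by
  induction L with
  | nil =>
    intro n _ Q hQ
    exact absurd hQ List.not_mem_nil
  | cons P L ih =>
    intro n h Q hQ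
    have h1 : Bool.and (Bool.or (bit1 n) (outQ p q r P)) (topM p q r L (Nat.div n 2)) = true := h
    obtain ⟨h2, h3⟩ := bAnd.1 h1
    have hn : ∀ Q, Q ∈ selN L (Nat.div n 2) → Q ∈ selN (P :: L) n := by
      intro Q hQ
      show Q ∈ cond (bit1 n) (P :: selN L (Nat.div n 2)) (selN L (Nat.div n 2))
      cases bit1 n
      · exact hQ
      · exact List.mem_cons_of_mem _ hQ
    rcases List.mem_cons.1 hQ with h4 | h4
    · rcases bOr h2 with h5 | h5
      · left
        show Q ∈ cond (bit1 n) (P :: selN L (Nat.div n 2)) (selN L (Nat.div n 2))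
        rw [h5, h4]
        exact List.mem_cons_self
      · right
        rw [h4]
        exact h5
    · rcases ih h3 Q h4 with h5 | h5
      · exact Or.inl (hn Q h5)
      · exact Or.inr h5

theorem bad_all {p q r : ℤ × ℤ} {L : List (List N6)} : ∀ {m : ℕ},
    badM p q r L m = true → ∀ Q ∈ selN L m, outQ p q r Q = true := by
  induction L with
  | nil =>
    intro m _ Q hQ
    exact absurd hQ List.not_mem_nil
  | cons P L ih =>
    intro m h Q hQ
    have h1 : Bool.and (cond (bit1 m) (outQ p q r P) true) (badM p q r L (Nat.div m 2)) = true := h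
    obtain ⟨h2, h3⟩ := bAnd.1 h1
    have hQ' : Q ∈ cond (bit1 m) (P :: selN L (Nat.div m 2)) (selN L (Nat.div m 2)) := hQ
    cases hb : bit1 m with
    | false =>
      rw [hb] at hQ'
      exact ih h3 Q hQ'
    | true =>
      rw [hb] at hQ' h2
      rcases List.mem_cons.1 hQ' with h4 | h4
      · rw [h4]
        exact h2
      · exact ih h3 Q h4

theorem CovZ.badM {M : FM} {LN : List (List N6)} {m : ℕ} {A : List ℕ} {p q r : ℤ × ℤ}
    (h : Bool.and (okc3 p q r) (badM p q r LN m) = true) :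
    CovZ M (toL (selN LN m)) A p q r := by
  obtain ⟨h1, h2⟩ := bAnd.1 h
  refine CovZ.bad ?_
  unfold outT
  refine List.all_eq_true.2 fun Q hQ => ?_
  obtain ⟨P, hP, rfl⟩ := List.mem_map.1 hQ
  exact outQ_sound h1 (bad_all h2 P hP)

theorem out_of {LN LM : List (List N6)} {p q r : ℤ × ℤ} (hc : okc3 p q r = true)
    (h : ∀ Q ∈ LN, Q ∈ LM ∨ outQ p q r Q = true) {x y z : ℝ} (hx : 0 ≤ x) (hy : 0 ≤ y)
    (hz : 0 ≤ z) (hs : x + y + z = 1)
    (ho : Out (toL LM) (x * p.1 + y * q.1 + z * r.1) (x * p.2 + y * q.2 + z * r.2)) :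
    Out (toL LN) (x * p.1 + y * q.1 + z * r.1) (x * p.2 + y * q.2 + z * r.2) := by
  intro Q hQ
  obtain ⟨P, hP, rfl⟩ := List.mem_map.1 hQ
  rcases h P hP with h1 | h1
  · exact ho _ (List.mem_map_of_mem h1)
  · have h2 : outT [P.map N6.z] p q r = true := by
      unfold outT
      refine List.all_eq_true.2 fun Q hQ => ?_
      rw [List.mem_singleton.1 hQ]
      exact outQ_sound hc h1
    exact out_pt h2 hx hy hz hs _ (List.mem_singleton.2 rfl)

theorem CovZ.subM {M : FM} {LN : List (List N6)} {m : ℕ} {A : List ℕ} {p q r : ℤ × ℤ} (n : ℕ)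
    (h : Bool.and (okc3 p q r) (subM p q r LN m n) = true)
    (h1 : CovZ M (toL (selN LN n)) A p q r) : CovZ M (toL (selN LN m)) A p q r := by
  obtain ⟨h2, h3⟩ := bAnd.1 h
  intro x y z hx hy hz hs
  rcases h1 x y z hx hy hz hs with h4 | h4
  · exact Or.inl (out_of h2 (mem_selN_out h3) hx hy hz hs h4)
  · exact Or.inr h4

theorem CovZ.topM {M : FM} {LN : List (List N6)} {L : List (List Z3)} (hL : toL LN = L)
    {A : List ℕ} {p q r : ℤ × ℤ} (n : ℕ)
    (h : Bool.and (okc3 p q r) (topM p q r LN n) = true)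
    (h1 : CovZ M (toL (selN LN n)) A p q r) : CovZ M L A p q r := by
  obtain ⟨h2, h3⟩ := bAnd.1 h
  rw [← hL]
  intro x y z hx hy hz hs
  rcases h1 x y z hx hy hz hs with h4 | h4
  · exact Or.inl (out_of h2 (mem_top_out h3) hx hy hz hs h4)
  · exact Or.inr h4

/-- equality of lists of edges -/
def eqZ (a b : Z3) : Bool := Bool.and (decide (a.c = b.c)) (Bool.and (decide (a.a = b.a)) (decide (a.b = b.b)))

def eqLZ : List Z3 → List Z3 → Bool
  | [], [] => true
  | a :: l, b :: k => Bool.and (eqZ a b) (eqLZ l k)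
  | _, _ => false

def eqLL : List (List Z3) → List (List Z3) → Bool
  | [], [] => true
  | a :: l, b :: k => Bool.and (eqLZ a b) (eqLL l k)
  | _, _ => false

theorem eqZ_eq {a b : Z3} (h : eqZ a b = true) : a = b := by
  obtain ⟨h1, h2⟩ := bAnd.1 h
  obtain ⟨h2, h3⟩ := bAnd.1 h2
  obtain ⟨c, x, y⟩ := a
  obtain ⟨c', x', y'⟩ := b
  have e1 : c = c' := of_decide_eq_true h1
  have e2 : x = x' := of_decide_eq_true h2
  have e3 : y = y' := of_decide_eq_true h3
  rw [e1, e2, e3]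

theorem eqLZ_eq : ∀ {a b : List Z3}, eqLZ a b = true → a = b
  | [], [], _ => rfl
  | _ :: _, _ :: _, h => by
    obtain ⟨h1, h2⟩ := bAnd.1 h
    rw [eqZ_eq h1, eqLZ_eq h2]
  | [], _ :: _, h => absurd h Bool.false_ne_true
  | _ :: _, [], h => absurd h Bool.false_ne_true

theorem eqLL_eq : ∀ {a b : List (List Z3)}, eqLL a b = true → a = b
  | [], [], _ => rfl
  | _ :: _, _ :: _, h => by
    obtain ⟨h1, h2⟩ := bAnd.1 h
    rw [eqLZ_eq h1, eqLL_eq h2]
  | [], _ :: _, h => absurd h Bool.false_ne_true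
  | _ :: _, [], h => absurd h Bool.false_ne_true

end Pool.Agent.TET
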