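import Pool.Agent.Helper38_TET.Cov

/-!
# MP_c7c9bf_co: covers outside of a convex exceptional set
-/

set_option autoImplicit false
set_option maxRecDepth 100000

namespace Pool.Agent.TET

/-- all tetrahedra of the triangle with corners `a`, `b`, `c` are good or exceptional -/
def CovS (S : (Fin 3 → Fin 3 → ℝ) → Prop) (A : List ℕ) (a b c : Fin 3 → Fin 3 → ℝ) : Prop :=
  ∀ x y z : ℝ, 0 ≤ x → 0 ≤ y → 0 ≤ z → x + y + z = 1 →
    S (x • a + y • b + z • c) ∨ GoodV A (x • a + y • b + z • c)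

theorem CovS.of {S : (Fin 3 → Fin 3 → ℝ) → Prop} {A : List ℕ} {a b c : Fin 3 → Fin 3 → ℝ}
    (h : Cov A a b c) : CovS S A a b c := fun x y z hx hy hz hs => Or.inr (h x y z hx hy hz hs)

theorem CovS.cyc {S : (Fin 3 → Fin 3 → ℝ) → Prop} {A : List ℕ} {a b c : Fin 3 → Fin 3 → ℝ}
    (h : CovS S A a b c) : CovS S A b c a := by
  intro x y z hx hy hz hs
  have h1 := h z x y hz hx hy (by linarith)
  have e : x • b + y • c + z • a = z • a + x • b + y • c := by abel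
  rw [e]
  exact h1

theorem CovS.split {S : (Fin 3 → Fin 3 → ℝ) → Prop} {A : List ℕ} {a b c m : Fin 3 → Fin 3 → ℝ}
    (hm : m = (1 / 2 : ℝ) • a + (1 / 2 : ℝ) • b) (h1 : CovS S A a m c)
    (h2 : CovS S A m b c) : CovS S A a b c := by
  intro x y z hx hy hz hs
  rcases le_total y x with h | h
  · have h3 := h1 (x - y) (2 * y) z (by linarith) (by linarith) hz (by linarith)
    have e : x • a + y • b + z • c = (x - y) • a + (2 * y) • m + z • c := by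
      rw [hm]
      module
    rw [e]
    exact h3
  · have h3 := h2 (2 * x) (y - x) z (by linarith) (by linarith) hz (by linarith)
    have e : x • a + y • b + z • c = (2 * x) • m + (y - x) • b + z • c := by
      rw [hm]
      module
    rw [e]
    exact h3

theorem CovS.mid {S : (Fin 3 → Fin 3 → ℝ) → Prop} {A : List ℕ} {a b c m : QV}
    (h : midV a b m = true) (h1 : CovS S A (vq a) (vq m) (vq c))
    (h2 : CovS S A (vq m) (vq b) (vq c)) : CovS S A (vq a) (vq b) (vq c) :=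
  CovS.split (midV_vq h) h1 h2

/-- an exceptional set for the third edge vector -/
def InS (l h t : ℕ) (V : Fin 3 → Fin 3 → ℝ) : Prop :=
  (((l : ℝ) - 245760) / 30720 ≤ V 2 0 ∧ V 2 0 ≤ ((h : ℝ) - 245760) / 30720) ∧
    (((l : ℝ) - 245760) / 30720 ≤ V 2 1 ∧ V 2 1 ≤ ((h : ℝ) - 245760) / 30720) ∧
    V 2 0 + V 2 1 ≤ ((t : ℝ) - 491520) / 30720

/-- the corner lies in the exceptional set -/
def inbQ (l h t : ℕ) (x : QV) : Bool :=
  Bool.and (Bool.and (Nat.ble l x.g.b) (Nat.ble x.g.b h))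
    (Bool.and (Bool.and (Nat.ble l x.g.c) (Nat.ble x.g.c h)) (Nat.ble (Nat.add x.g.b x.g.c) t))

theorem inbQ_vq {l h t : ℕ} {x : QV} (hx : inbQ l h t x = true) : InS l h t (vq x) := by
  obtain ⟨h1, h2⟩ := bAnd.1 hx
  obtain ⟨h3, h4⟩ := bAnd.1 h1
  obtain ⟨h2, h7⟩ := bAnd.1 h2
  obtain ⟨h5, h6⟩ := bAnd.1 h2
  have g3 : (l : ℝ) ≤ x.g.b := by exact_mod_cast Nat.le_of_ble_eq_true h3
  have g4 : (x.g.b : ℝ) ≤ h := by exact_mod_cast Nat.le_of_ble_eq_true h4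
  have g5 : (l : ℝ) ≤ x.g.c := by exact_mod_cast Nat.le_of_ble_eq_true h5
  have g6 : (x.g.c : ℝ) ≤ h := by exact_mod_cast Nat.le_of_ble_eq_true h6
  have g7' : x.g.b + x.g.c ≤ t := Nat.le_of_ble_eq_true h7
  have g7 : (x.g.b : ℝ) + x.g.c ≤ t := by exact_mod_cast g7'
  refine ⟨⟨?_, ?_⟩, ⟨?_, ?_⟩, ?_⟩
  · show ((l : ℝ) - 245760) / 30720 ≤ ((x.g.b : ℝ) - 245760) / 30720
    linarith
  · show ((x.g.b : ℝ) - 245760) / 30720 ≤ ((h : ℝ) - 245760) / 30720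
    linarith
  · show ((l : ℝ) - 245760) / 30720 ≤ ((x.g.c : ℝ) - 245760) / 30720
    linarith
  · show ((x.g.c : ℝ) - 245760) / 30720 ≤ ((h : ℝ) - 245760) / 30720
    linarith
  · show ((x.g.b : ℝ) - 245760) / 30720 + ((x.g.c : ℝ) - 245760) / 30720 ≤
      ((t : ℝ) - 491520) / 30720
    linarith

theorem conv2 {h p q r x y z : ℝ} (hp' : p ≤ h) (hq' : q ≤ h)
    (hr' : r ≤ h) (hx : 0 ≤ x) (hy : 0 ≤ y) (hz : 0 ≤ z) (hs : x + y + z = 1) :
    x * p + y * q + z * r ≤ h := by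
  have e2 : h = x * h + y * h + z * h := by
    rw [← add_mul, ← add_mul, hs, one_mul]
  conv_rhs => rw [e2]
  exact add_le_add (add_le_add (mul_le_mul_of_nonneg_left hp' hx)
      (mul_le_mul_of_nonneg_left hq' hy)) (mul_le_mul_of_nonneg_left hr' hz)

theorem conv3 {l h p q r x y z : ℝ} (hp : l ≤ p) (hp' : p ≤ h) (hq : l ≤ q) (hq' : q ≤ h)
    (hr : l ≤ r) (hr' : r ≤ h) (hx : 0 ≤ x) (hy : 0 ≤ y) (hz : 0 ≤ z) (hs : x + y + z = 1) :
    l ≤ x * p + y * q + z * r ∧ x * p + y * q + z * r ≤ h := by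
  refine ⟨?_, conv2 hp' hq' hr' hx hy hz hs⟩
  have h1 := conv2 (neg_le_neg hp) (neg_le_neg hq) (neg_le_neg hr) hx hy hz hs
  linarith

/-- all three corners lie in the exceptional set -/
def inb3 (l h t : ℕ) (a b c : QV) : Bool :=
  Bool.and (inbQ l h t a) (Bool.and (inbQ l h t b) (inbQ l h t c))

theorem CovS.bad {l h t : ℕ} {A : List ℕ} {a b c : QV} (hb : inb3 l h t a b c = true) :
    CovS (InS l h t) A (vq a) (vq b) (vq c) := by
  obtain ⟨h1, h2⟩ := bAnd.1 hb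
  obtain ⟨h3, h4⟩ := bAnd.1 h2
  obtain ⟨⟨a1, a2⟩, ⟨a3, a4⟩, a5⟩ := inbQ_vq h1
  obtain ⟨⟨b1, b2⟩, ⟨b3, b4⟩, b5⟩ := inbQ_vq h3
  obtain ⟨⟨c1, c2⟩, ⟨c3, c4⟩, c5⟩ := inbQ_vq h4
  intro x y z hx hy hz hs
  left
  refine ⟨conv3 a1 a2 b1 b2 c1 c2 hx hy hz hs, conv3 a3 a4 b3 b4 c3 c4 hx hy hz hs, ?_⟩
  have h5 := conv2 a5 b5 c5 hx hy hz hs
  show x * vq a 2 0 + y * vq b 2 0 + z * vq c 2 0 +
    (x * vq a 2 1 + y * vq b 2 1 + z * vq c 2 1) ≤ _
  linarith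

/-- an exceptional set for the third edge vector: large second coordinate -/
def InW (l : ℕ) (V : Fin 3 → Fin 3 → ℝ) : Prop := ((l : ℝ) - 245760) / 30720 ≤ V 2 1

/-- all three corners lie in the exceptional set -/
def inw3 (l : ℕ) (a b c : QV) : Bool :=
  Bool.and (Nat.ble l a.g.c) (Bool.and (Nat.ble l b.g.c) (Nat.ble l c.g.c))

theorem inw_vq {l : ℕ} {x : QV} (hx : Nat.ble l x.g.c = true) : InW l (vq x) := by
  have g5 : (l : ℝ) ≤ x.g.c := by exact_mod_cast Nat.le_of_ble_eq_true hx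
  show ((l : ℝ) - 245760) / 30720 ≤ ((x.g.c : ℝ) - 245760) / 30720
  linarith

theorem CovS.badW {l : ℕ} {A : List ℕ} {a b c : QV} (hb : inw3 l a b c = true) :
    CovS (InW l) A (vq a) (vq b) (vq c) := by
  obtain ⟨h1, h2⟩ := bAnd.1 hb
  obtain ⟨h3, h4⟩ := bAnd.1 h2
  have a1 := inw_vq h1
  have a2 := inw_vq h3
  have a3 := inw_vq h4
  intro x y z hx hy hz hs
  left
  have h5 := conv2 (neg_le_neg a1) (neg_le_neg a2) (neg_le_neg a3) hx hy hz hs
  show _ ≤ x * vq a 2 1 + y * vq b 2 1 + z * vq c 2 1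
  linarith

end Pool.Agent.TET
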