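import Pool.Agent.Helper38_TET.CovS

/-!
# MP_c7c9bf_co: covers of polygons by certified cells, for affine two-parameter families
-/

set_option autoImplicit false
set_option maxRecDepth 100000

namespace Pool.Agent.TET

/-- `c + a X + b Y` -/
structure Z3 where
  c : ℤ
  a : ℤ
  b : ℤ

/-- the nine entries of the edge vectors (times `30720`) -/
structure FM where
  e0 : Z3
  e1 : Z3
  e2 : Z3
  f0 : Z3
  f1 : Z3
  f2 : Z3
  g0 : Z3
  g1 : Z3
  g2 : Z3

/-- the value -/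
noncomputable def Z3.ev (z : Z3) (X Y : ℝ) : ℝ := ((z.c : ℝ) + z.a * X + z.b * Y) / 30720

/-- the edge vectors -/
noncomputable def FM.v (M : FM) (X Y : ℝ) : Fin 3 → Fin 3 → ℝ :=
  ![![M.e0.ev X Y, M.e1.ev X Y, M.e2.ev X Y], ![M.f0.ev X Y, M.f1.ev X Y, M.f2.ev X Y],
    ![M.g0.ev X Y, M.g1.ev X Y, M.g2.ev X Y]]

/-- a half-plane `c + a X + b Y < 0` -/
def Z3.neg (z : Z3) (p : ℤ × ℤ) : Bool := decide (z.c + z.a * p.1 + z.b * p.2 < 0)

/-- outside of all polygons -/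
def Out (L : List (List Z3)) (X Y : ℝ) : Prop :=
  ∀ Q ∈ L, ∃ t ∈ Q, (t.c : ℝ) + t.a * X + t.b * Y < 0

/-- the triangle is outside of all polygons -/
def outT (L : List (List Z3)) (p q r : ℤ × ℤ) : Bool :=
  L.all fun Q => Q.any fun t => Bool.and (t.neg p) (Bool.and (t.neg q) (t.neg r))

/-- all parameters of the triangle are good or outside -/
def CovZ (M : FM) (L : List (List Z3)) (A : List ℕ) (p q r : ℤ × ℤ) : Prop :=
  ∀ x y z : ℝ, 0 ≤ x → 0 ≤ y → 0 ≤ z → x + y + z = 1 →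
    Out L (x * p.1 + y * q.1 + z * r.1) (x * p.2 + y * q.2 + z * r.2) ∨
    GoodV A (M.v (x * p.1 + y * q.1 + z * r.1) (x * p.2 + y * q.2 + z * r.2))

theorem Z3.neg_real {t : Z3} {p : ℤ × ℤ} (h : t.neg p = true) :
    (t.c : ℝ) + t.a * p.1 + t.b * p.2 < 0 := by
  have h1 : t.c + t.a * p.1 + t.b * p.2 < 0 := of_decide_eq_true h
  exact_mod_cast h1

theorem CovZ.bad {M : FM} {L : List (List Z3)} {A : List ℕ} {p q r : ℤ × ℤ}
    (h : outT L p q r = true) : CovZ M L A p q r := by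
  intro x y z hx hy hz hs
  left
  intro Q hQ
  have h1 := List.all_eq_true.1 h Q hQ
  obtain ⟨t, ht, h2⟩ := List.any_eq_true.1 h1
  obtain ⟨h3, h4⟩ := bAnd.1 h2
  obtain ⟨h4, h5⟩ := bAnd.1 h4
  have g3 := Z3.neg_real h3
  have g4 := Z3.neg_real h4
  have g5 := Z3.neg_real h5
  refine ⟨t, ht, ?_⟩
  have e : (t.c : ℝ) + t.a * (x * p.1 + y * q.1 + z * r.1) + t.b * (x * p.2 + y * q.2 + z * r.2) =
      x * ((t.c : ℝ) + t.a * p.1 + t.b * p.2) + y * ((t.c : ℝ) + t.a * q.1 + t.b * q.2) +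
        z * ((t.c : ℝ) + t.a * r.1 + t.b * r.2) := by
    linear_combination (t.c : ℝ) * (1 - x - y - z) - (t.c : ℝ) * (1 - x - y - z) +
      (t.c : ℝ) * (-hs)
  rw [e]
  have k1 := mul_nonneg hx (neg_nonneg.2 g3.le)
  have k2 := mul_nonneg hy (neg_nonneg.2 g4.le)
  have k3 := mul_nonneg hz (neg_nonneg.2 g5.le)
  rcases hx.lt_or_eq with h0 | h0
  · have := mul_pos h0 (neg_pos.2 g3)
    linarith
  · rcases hy.lt_or_eq with h0' | h0'
    · have := mul_pos h0' (neg_pos.2 g4)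
      linarith
    · have h0'' : 0 < z := by linarith
      have := mul_pos h0'' (neg_pos.2 g5)
      linarith

/-- the natural number is the biased value -/
def okZ (z : Z3) (p : ℤ × ℤ) (n : ℕ) : Bool :=
  decide ((n : ℤ) = 245760 + (z.c + z.a * p.1 + z.b * p.2))

def okQ (z0 z1 z2 : Z3) (p : ℤ × ℤ) (x : Q) : Bool :=
  Bool.and (okZ z0 p x.b) (Bool.and (okZ z1 p x.c) (okZ z2 p x.d))

def okMC (M : FM) (p : ℤ × ℤ) (c : Cn) : Bool :=
  Bool.and (okQ M.e0 M.e1 M.e2 p c.e)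
    (Bool.and (okQ M.f0 M.f1 M.f2 p c.f) (okQ M.g0 M.g1 M.g2 p c.g))

def okMs (M : FM) (p q r : ℤ × ℤ) (cs : List Cn) : Bool :=
  match cs with
  | [u, v, w] => Bool.and (okMC M p u) (Bool.and (okMC M q v) (okMC M r w))
  | _ => false

/-- the check of a triangle -/
def chkZ (K : Kc) (A : List ℕ) (X : Cell) (M : FM) (p q r : ℤ × ℤ) : Bool :=
  Bool.and (chk K A X) (okMs M p q r X.c)

theorem okZ_ev {z : Z3} {p : ℤ × ℤ} {n : ℕ} (h : okZ z p n = true) :
    ((n : ℝ) - 245760) / 30720 = z.ev p.1 p.2 := by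
  have h1 : (n : ℤ) = 245760 + (z.c + z.a * p.1 + z.b * p.2) := of_decide_eq_true h
  have h2 : (n : ℝ) = 245760 + (z.c + z.a * p.1 + z.b * p.2) := by exact_mod_cast h1
  unfold Z3.ev
  rw [h2]
  ring

theorem okQ_vec {z0 z1 z2 : Z3} {p : ℤ × ℤ} {x : Q} (h : okQ z0 z1 z2 p x = true) :
    vec x = ![z0.ev p.1 p.2, z1.ev p.1 p.2, z2.ev p.1 p.2] := by
  obtain ⟨h1, h2⟩ := bAnd.1 h
  obtain ⟨h2, h3⟩ := bAnd.1 h2
  funext i
  fin_cases i
  · exact okZ_ev h1
  · exact okZ_ev h2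
  · exact okZ_ev h3

theorem okMC_vm {M : FM} {p : ℤ × ℤ} {c : Cn} (h : okMC M p c = true) : vm c = M.v p.1 p.2 := by
  obtain ⟨h1, h2⟩ := bAnd.1 h
  obtain ⟨h2, h3⟩ := bAnd.1 h2
  funext i
  fin_cases i
  · exact okQ_vec h1
  · exact okQ_vec h2
  · exact okQ_vec h3

theorem Z3.ev_bary (z : Z3) {x y w : ℝ} (hs : x + y + w = 1) (a b c a' b' c' : ℝ) :
    x * z.ev a a' + y * z.ev b b' + w * z.ev c c' =
      z.ev (x * a + y * b + w * c) (x * a' + y * b' + w * c') := by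
  unfold Z3.ev
  linear_combination (z.c : ℝ) / 30720 * hs

theorem FM.v_bary (M : FM) {x y w : ℝ} (hs : x + y + w = 1) (a b c a' b' c' : ℝ) :
    x • M.v a a' + y • M.v b b' + w • M.v c c' =
      M.v (x * a + y * b + w * c) (x * a' + y * b' + w * c') := by
  funext i j
  fin_cases i <;> fin_cases j
  · exact Z3.ev_bary M.e0 hs a b c a' b' c'
  · exact Z3.ev_bary M.e1 hs a b c a' b' c'
  · exact Z3.ev_bary M.e2 hs a b c a' b' c'
  · exact Z3.ev_bary M.f0 hs a b c a' b' c'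
  · exact Z3.ev_bary M.f1 hs a b c a' b' c'
  · exact Z3.ev_bary M.f2 hs a b c a' b' c'
  · exact Z3.ev_bary M.g0 hs a b c a' b' c'
  · exact Z3.ev_bary M.g1 hs a b c a' b' c'
  · exact Z3.ev_bary M.g2 hs a b c a' b' c'

theorem CovZ.leaf {K : Kc} (hK : K.Ok) {A : List ℕ} {X : Cell} {M : FM} {p q r : ℤ × ℤ}
    (h : chkZ K A X M p q r = true) (L : List (List Z3)) : CovZ M L A p q r := by
  obtain ⟨h1, h2⟩ := bAnd.1 h
  obtain ⟨n, t, cs, F, w1, w2, w3⟩ := X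
  match cs, h1, h2 with
  | [u, v, w], h1, h2 =>
    obtain ⟨g1, g2⟩ := bAnd.1 h2
    obtain ⟨g3, g4⟩ := bAnd.1 g2
    intro x y z hx hy hz hs
    right
    have h3 := chk_sound hK h1 ![x, y, z] (fun k => by fin_cases k <;> assumption)
      ((Fin.sum_univ_three _).trans hs)
    have e : ∑ k : Fin 3, (![x, y, z] : Fin 3 → ℝ) k • vm (([u, v, w] : List Cn).get k) =
        x • vm u + y • vm v + z • vm w := Fin.sum_univ_three _
    rw [← M.v_bary hs, ← okMC_vm g1, ← okMC_vm g3, ← okMC_vm g4, ← e]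
    exact h3

theorem CovZ.cyc {M : FM} {L : List (List Z3)} {A : List ℕ} {p q r : ℤ × ℤ}
    (h : CovZ M L A p q r) : CovZ M L A q r p := by
  intro x y z hx hy hz hs
  have h1 := h z x y hz hx hy (by linarith)
  have e1 : x * (q.1 : ℝ) + y * r.1 + z * p.1 = z * p.1 + x * q.1 + y * r.1 := by ring
  have e2 : x * (q.2 : ℝ) + y * r.2 + z * p.2 = z * p.2 + x * q.2 + y * r.2 := by ring
  rw [e1, e2]
  exact h1

/-- `2 m = p + q` -/
def midZ (p q m : ℤ × ℤ) : Bool :=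
  Bool.and (decide (2 * m.1 = p.1 + q.1)) (decide (2 * m.2 = p.2 + q.2))

theorem CovZ.mid {M : FM} {L : List (List Z3)} {A : List ℕ} {p q r m : ℤ × ℤ}
    (hm : midZ p q m = true) (h1 : CovZ M L A p m r) (h2 : CovZ M L A m q r) :
    CovZ M L A p q r := by
  obtain ⟨g1, g2⟩ := bAnd.1 hm
  have e1 : 2 * m.1 = p.1 + q.1 := of_decide_eq_true g1
  have e2 : 2 * m.2 = p.2 + q.2 := of_decide_eq_true g2
  have f1 : 2 * (m.1 : ℝ) = p.1 + q.1 := by exact_mod_cast e1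
  have f2 : 2 * (m.2 : ℝ) = p.2 + q.2 := by exact_mod_cast e2
  intro x y z hx hy hz hs
  rcases le_total y x with h | h
  · have h3 := h1 (x - y) (2 * y) z (by linarith) (by linarith) hz (by linarith)
    have k1 : x * (p.1 : ℝ) + y * q.1 + z * r.1 = (x - y) * p.1 + 2 * y * m.1 + z * r.1 := by
      linear_combination (-y) * f1
    have k2 : x * (p.2 : ℝ) + y * q.2 + z * r.2 = (x - y) * p.2 + 2 * y * m.2 + z * r.2 := by
      linear_combination (-y) * f2
    rw [k1, k2]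
    exact h3
  · have h3 := h2 (2 * x) (y - x) z (by linarith) (by linarith) hz (by linarith)
    have k1 : x * (p.1 : ℝ) + y * q.1 + z * r.1 = 2 * x * m.1 + (y - x) * q.1 + z * r.1 := by
      linear_combination (-x) * f1
    have k2 : x * (p.2 : ℝ) + y * q.2 + z * r.2 = 2 * x * m.2 + (y - x) * q.2 + z * r.2 := by
      linear_combination (-x) * f2
    rw [k1, k2]
    exact h3

/-- subdivision of the edge `p q` -/
theorem CovZ.n0 {M : FM} {L : List (List Z3)} {A : List ℕ} {p q r : ℤ × ℤ} (m : ℤ × ℤ)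
    (hm : midZ p q m = true) (h1 : CovZ M L A p m r) (h2 : CovZ M L A m q r) :
    CovZ M L A p q r := CovZ.mid hm h1 h2

/-- subdivision of the edge `q r` -/
theorem CovZ.n1 {M : FM} {L : List (List Z3)} {A : List ℕ} {p q r : ℤ × ℤ} (m : ℤ × ℤ)
    (hm : midZ q r m = true) (h1 : CovZ M L A q m p) (h2 : CovZ M L A m r p) :
    CovZ M L A p q r := (CovZ.mid hm h1 h2).cyc.cyc

/-- subdivision of the edge `r p` -/
theorem CovZ.n2 {M : FM} {L : List (List Z3)} {A : List ℕ} {p q r : ℤ × ℤ} (m : ℤ × ℤ)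
    (hm : midZ r p m = true) (h1 : CovZ M L A r m q) (h2 : CovZ M L A m p q) :
    CovZ M L A p q r := (CovZ.mid hm h1 h2).cyc

/-- the grid square `(i, j)` of size `h` at `(x0, y0)`, divided by its diagonal -/
def SqZ (M : FM) (L : List (List Z3)) (A : List ℕ) (x0 y0 h : ℤ) (i j : ℕ) : Prop :=
  CovZ M L A (x0 + h * i, y0 + h * j) (x0 + h * (i + 1), y0 + h * j)
    (x0 + h * (i + 1), y0 + h * (j + 1)) ∧
  CovZ M L A (x0 + h * i, y0 + h * j) (x0 + h * (i + 1), y0 + h * (j + 1))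
    (x0 + h * i, y0 + h * (j + 1))

/-- the checked version of a grid square -/
theorem SqZ.mk {M : FM} {L : List (List Z3)} {A : List ℕ} {x0 y0 h : ℤ} {i j : ℕ}
    {a b c d : ℤ} (ha : x0 + h * i = a) (hb : x0 + h * (i + 1) = b) (hc : y0 + h * j = c)
    (hd : y0 + h * (j + 1) = d) (h1 : CovZ M L A (a, c) (b, c) (b, d))
    (h2 : CovZ M L A (a, c) (b, d) (a, d)) : SqZ M L A x0 y0 h i j := by
  unfold SqZ
  rw [ha, hb, hc, hd]
  exact ⟨h1, h2⟩

theorem cell_exists {h : ℝ} {n : ℕ} {x : ℝ} (h0 : 0 ≤ x) (h1 : x ≤ h * n)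
    (hn : 0 < n) : ∃ i : ℕ, i < n ∧ h * i ≤ x ∧ x ≤ h * (i + 1) := by
  by_contra hc
  push Not at hc
  have key : ∀ i : ℕ, i < n → h * (i + 1 : ℕ) < x := by
    intro i
    induction i with
    | zero =>
      intro hi
      have := hc 0 hi (by simpa using h0)
      simpa using this
    | succ k ih =>
      intro hi
      have h2 := ih (by omega)
      have h3 := hc (k + 1) hi h2.le
      push_cast at h3 ⊢
      exact h3
  have h2 := key (n - 1) (by omega)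
  have h3 : n - 1 + 1 = n := by omega
  rw [h3] at h2
  linarith

/-- a grid of squares covers a rectangle -/
theorem gridZ {M : FM} {L : List (List Z3)} {A : List ℕ} {x0 y0 h : ℤ} {nx ny : ℕ} (hh : 0 < h)
    (hx : 0 < nx) (hy : 0 < ny) (H : ∀ j < ny, ∀ i < nx, SqZ M L A x0 y0 h i j) {X Y : ℝ}
    (h1 : (x0 : ℝ) ≤ X) (h2 : X ≤ x0 + h * nx) (h3 : (y0 : ℝ) ≤ Y) (h4 : Y ≤ y0 + h * ny) :
    Out L X Y ∨ GoodV A (M.v X Y) := by
  have hh' : (0 : ℝ) < h := by exact_mod_cast hh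
  obtain ⟨i, hi, hi1, hi2⟩ := cell_exists (h := (h : ℝ)) (x := X - x0) (n := nx) (by linarith)
    (by linarith) hx
  obtain ⟨j, hj, hj1, hj2⟩ := cell_exists (h := (h : ℝ)) (x := Y - y0) (n := ny) (by linarith)
    (by linarith) hy
  obtain ⟨s1, s2⟩ := H j hj i hi
  obtain ⟨u, hu⟩ : ∃ u, u = (X - x0 - h * i) / h := ⟨_, rfl⟩
  obtain ⟨v, hv⟩ : ∃ v, v = (Y - y0 - h * j) / h := ⟨_, rfl⟩
  have hu0 : 0 ≤ u := by
    rw [hu]
    exact div_nonneg (by linarith) hh'.le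
  have hv0 : 0 ≤ v := by
    rw [hv]
    exact div_nonneg (by linarith) hh'.le
  have hu1 : u ≤ 1 := by
    rw [hu, div_le_one hh']
    linarith
  have hv1 : v ≤ 1 := by
    rw [hv, div_le_one hh']
    linarith
  have eX : X = x0 + h * i + h * u := by
    rw [hu]
    field_simp
    ring
  have eY : Y = y0 + h * j + h * v := by
    rw [hv]
    field_simp
    ring
  rcases le_total v u with hc | hc
  · have h5 := s1 (1 - u) (u - v) v (by linarith) (by linarith) hv0 (by ring)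
    have k1 : (1 - u) * (((x0 + h * i, y0 + h * j) : ℤ × ℤ).1 : ℝ) +
        (u - v) * (((x0 + h * (i + 1), y0 + h * j) : ℤ × ℤ).1 : ℝ) +
        v * (((x0 + h * (i + 1), y0 + h * (j + 1)) : ℤ × ℤ).1 : ℝ) = X := by
      rw [eX]
      push_cast
      ring
    have k2 : (1 - u) * (((x0 + h * i, y0 + h * j) : ℤ × ℤ).2 : ℝ) +
        (u - v) * (((x0 + h * (i + 1), y0 + h * j) : ℤ × ℤ).2 : ℝ) +
        v * (((x0 + h * (i + 1), y0 + h * (j + 1)) : ℤ × ℤ).2 : ℝ) = Y := by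
      rw [eY]
      push_cast
      ring
    rw [k1, k2] at h5
    exact h5
  · have h5 := s2 (1 - v) u (v - u) (by linarith) hu0 (by linarith) (by ring)
    have k1 : (1 - v) * (((x0 + h * i, y0 + h * j) : ℤ × ℤ).1 : ℝ) +
        u * (((x0 + h * (i + 1), y0 + h * (j + 1)) : ℤ × ℤ).1 : ℝ) +
        (v - u) * (((x0 + h * i, y0 + h * (j + 1)) : ℤ × ℤ).1 : ℝ) = X := by
      rw [eX]
      push_cast
      ring
    have k2 : (1 - v) * (((x0 + h * i, y0 + h * j) : ℤ × ℤ).2 : ℝ) +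
        u * (((x0 + h * (i + 1), y0 + h * (j + 1)) : ℤ × ℤ).2 : ℝ) +
        (v - u) * (((x0 + h * i, y0 + h * (j + 1)) : ℤ × ℤ).2 : ℝ) = Y := by
      rw [eY]
      push_cast
      ring
    rw [k1, k2] at h5
    exact h5

end Pool.Agent.TET
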