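import Pool.Agent.Helper38_TET.Foot
import Pool.Agent.Helper38_TET.FrameP
import Pool.Agent.Helper38_TET.CaseA

/-!
# MP_c7c9bf_co: the feet of the four altitudes
-/

set_option autoImplicit false

namespace Pool.Agent.TET

open MeasureTheory Set Filter Pool.Agent.UL3 Pool.Agent.UL3.H88
open scoped ENNReal Topology RealInnerProductSpace

/-- `b i j` are the barycentric coordinates of the foot of the altitude from `p i` in the
opposite face -/
structure Feet (p : Fin 4 → E3) (b : Fin 4 → Fin 4 → ℝ) : Prop where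
  aff : AffineIndependent ℝ p
  zero : ∀ i, b i i = 0
  sum : ∀ i, ∑ j, b i j = 1
  orth : ∀ i j k, j ≠ i → k ≠ i → ⟪p i - ∑ l, b i l • p l, p j - p k⟫ = 0

/-- four distinct indices -/
structure D4 (i j k l : Fin 4) : Prop where
  ij : i ≠ j
  ik : i ≠ k
  il : i ≠ l
  jk : j ≠ k
  jl : j ≠ l
  kl : k ≠ l

theorem D4.univ {i j k l : Fin 4} (h : D4 i j k l) : (Finset.univ : Finset (Fin 4)) = {i, j, k, l} := by
  obtain ⟨h1, h2, h3, h4, h5, h6⟩ := h
  revert h1 h2 h3 h4 h5 h6
  revert i j k l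
  decide

theorem D4.sum {M : Type*} [AddCommMonoid M] {i j k l : Fin 4} (h : D4 i j k l) (f : Fin 4 → M) :
    ∑ m, f m = f i + (f j + (f k + f l)) := by
  rw [h.univ, Finset.sum_insert, Finset.sum_insert, Finset.sum_insert, Finset.sum_singleton]
  · simp [h.kl]
  · simp [h.jk, h.jl]
  · simp [h.ij, h.ik, h.il]

theorem D4.range {p : Fin 4 → E3} {i j k l : Fin 4} (h : D4 i j k l) :
    Set.range p = {p j, p k, p l, p i} := by
  ext x
  constructor
  · rintro ⟨m, rfl⟩
    have h1 : m ∈ ({i, j, k, l} : Finset (Fin 4)) := by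
      rw [← h.univ]
      exact Finset.mem_univ m
    simp only [Finset.mem_insert, Finset.mem_singleton] at h1
    rcases h1 with rfl | rfl | rfl | rfl <;> simp
  · rintro (rfl | rfl | rfl | rfl)
    · exact ⟨j, rfl⟩
    · exact ⟨k, rfl⟩
    · exact ⟨l, rfl⟩
    · exact ⟨i, rfl⟩

theorem D4.aff {p : Fin 4 → E3} {i j k l : Fin 4} (h : D4 i j k l) (hp : AffineIndependent ℝ p) :
    AffineIndependent ℝ ![p j, p k, p l, p i] := by
  have hinj : Function.Injective ![j, k, l, i] := by
    intro x y hxy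
    fin_cases x <;> fin_cases y
    · rfl
    · exact absurd hxy h.jk
    · exact absurd hxy h.jl
    · exact absurd hxy.symm h.ij
    · exact absurd hxy.symm h.jk
    · rfl
    · exact absurd hxy h.kl
    · exact absurd hxy.symm h.ik
    · exact absurd hxy.symm h.jl
    · exact absurd hxy.symm h.kl
    · rfl
    · exact absurd hxy.symm h.il
    · exact absurd hxy h.ij
    · exact absurd hxy h.ik
    · exact absurd hxy h.il
    · rfl
  have h1 := hp.comp_embedding ⟨![j, k, l, i], hinj⟩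
  have e : p ∘ (⟨![j, k, l, i], hinj⟩ : Fin 4 ↪ Fin 4) = ![p j, p k, p l, p i] := by
    funext m
    fin_cases m <;> rfl
  rwa [e] at h1

theorem D4.ex (i : Fin 4) : ∃ j k l, D4 i j k l := by
  have h : ∃ j k l, i ≠ j ∧ i ≠ k ∧ i ≠ l ∧ j ≠ k ∧ j ≠ l ∧ k ≠ l := by
    revert i
    decide
  obtain ⟨j, k, l, h1, h2, h3, h4, h5, h6⟩ := h
  exact ⟨j, k, l, h1, h2, h3, h4, h5, h6⟩

theorem D4.swap34 {i j k l : Fin 4} (h : D4 i j k l) : D4 i j l k :=
  ⟨h.ij, h.il, h.ik, h.jl, h.jk, h.kl.symm⟩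

theorem D4.swap23 {i j k l : Fin 4} (h : D4 i j k l) : D4 i k j l :=
  ⟨h.ik, h.ij, h.il, h.jk.symm, h.kl, h.jl⟩

theorem D4.swap12 {i j k l : Fin 4} (h : D4 i j k l) : D4 j i k l :=
  ⟨h.ij.symm, h.jk, h.jl, h.ik, h.il, h.kl⟩

/-- sorting the coordinates of a foot -/
theorem D4.sorted (i : Fin 4) (f : Fin 4 → ℝ) : ∃ j k l, D4 i j k l ∧ f l ≤ f k ∧ f k ≤ f j := by
  obtain ⟨j, k, l, h⟩ := D4.ex i
  rcases le_total (f l) (f k) with h1 | h1
  · rcases le_total (f k) (f j) with h2 | h2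
    · exact ⟨j, k, l, h, h1, h2⟩
    · rcases le_total (f l) (f j) with h3 | h3
      · exact ⟨k, j, l, h.swap23, h3, h2⟩
      · exact ⟨k, l, j, h.swap23.swap34, h3, h1⟩
  · rcases le_total (f l) (f j) with h2 | h2
    · exact ⟨j, l, k, h.swap34, h1, h2⟩
    · rcases le_total (f k) (f j) with h3 | h3
      · exact ⟨l, j, k, h.swap34.swap23, h3, h2⟩
      · exact ⟨l, k, j, h.swap34.swap23.swap34, h3, h1⟩

theorem Feet.s4 {p : Fin 4 → E3} {b : Fin 4 → Fin 4 → ℝ} (h : Feet p b) {i j k l : Fin 4}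
    (hd : D4 i j k l) : b i j + (b i k + b i l) = 1 := by
  have h1 := h.sum i
  rw [hd.sum, h.zero, zero_add] at h1
  exact h1

theorem Feet.c4 {p : Fin 4 → E3} {b : Fin 4 → Fin 4 → ℝ} (h : Feet p b) {i j k l : Fin 4}
    (hd : D4 i j k l) :
    ∑ m, b i m • p m = b i j • p j + b i k • p k + b i l • p l := by
  rw [hd.sum, h.zero, zero_smul, zero_add, add_assoc]

theorem Feet.foot {p : Fin 4 → E3} {b : Fin 4 → Fin 4 → ℝ} (h : Feet p b) {i j k l : Fin 4}
    (hd : D4 i j k l) : Foot (p j) (p k) (p l) (p i) (b i j) (b i k) (b i l) := by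
  refine ⟨hd.aff h.aff, ?_, ?_, ?_⟩
  · have := h.s4 hd
    linarith
  · have := h.orth i k j hd.ik.symm hd.ij.symm
    rwa [h.c4 hd] at this
  · have := h.orth i l j hd.il.symm hd.ij.symm
    rwa [h.c4 hd] at this

/-- the altitude -/
noncomputable def alt (p : Fin 4 → E3) (b : Fin 4 → Fin 4 → ℝ) (i : Fin 4) : E3 :=
  p i - ∑ l, b i l • p l

theorem Feet.alt_ne {p : Fin 4 → E3} {b : Fin 4 → Fin 4 → ℝ} (h : Feet p b) (i : Fin 4) :
    alt p b i ≠ 0 := by
  intro h0
  have h1 := affineIndependent_iff.1 h.aff Finset.univ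
    (fun m => b i m - if m = i then 1 else 0) ?_ ?_ i (Finset.mem_univ _)
  · rw [h.zero] at h1
    simp at h1
  · rw [Finset.sum_sub_distrib, h.sum]
    simp
  · have h2 : ∑ m, (b i m - if m = i then (1 : ℝ) else 0) • p m = -alt p b i := by
      unfold alt
      rw [neg_sub]
      simp [sub_smul, Finset.sum_sub_distrib]
    rw [h2, h0, neg_zero]

theorem Feet.alt_pos {p : Fin 4 → E3} {b : Fin 4 → Fin 4 → ℝ} (h : Feet p b) (i : Fin 4) :
    0 < ⟪alt p b i, alt p b i⟫ := real_inner_self_pos.2 (h.alt_ne i)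

/-- the altitude against an edge at its vertex -/
theorem Feet.alt_edge {p : Fin 4 → E3} {b : Fin 4 → Fin 4 → ℝ} (h : Feet p b) {i j : Fin 4}
    (hij : j ≠ i) : ⟪alt p b i, p i - p j⟫ = ⟪alt p b i, alt p b i⟫ := by
  obtain ⟨j', k, l, hd⟩ := D4.ex i
  have e : p i - p j = alt p b i + (b i j' • (p j' - p j) + b i k • (p k - p j) +
      b i l • (p l - p j)) := by
    unfold alt
    rw [h.c4 hd]
    have h1 : b i j' = 1 - b i k - b i l := by
      have := h.s4 hd
      linarith
    rw [h1]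
    module
  have h1 : ⟪alt p b i, p j' - p j⟫ = 0 := h.orth i j' j hd.ij.symm hij
  have h2 : ⟪alt p b i, p k - p j⟫ = 0 := h.orth i k j hd.ik.symm hij
  have h3 : ⟪alt p b i, p l - p j⟫ = 0 := h.orth i l j hd.il.symm hij
  rw [e, inner_add_right, inner_add_right, inner_add_right, inner_smul_right, inner_smul_right,
    inner_smul_right, h1, h2, h3]
  ring

/-- symmetry of the conductances -/
theorem Feet.symm {p : Fin 4 → E3} {b : Fin 4 → Fin 4 → ℝ} (h : Feet p b) {i j : Fin 4}
    (hij : i ≠ j) : b i j * ⟪alt p b j, alt p b j⟫ = b j i * ⟪alt p b i, alt p b i⟫ := by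
  have key : ∀ i j : Fin 4, i ≠ j → ⟪alt p b j, alt p b i⟫ =
      -(b i j * ⟪alt p b j, alt p b j⟫) := by
    intro i j hij
    obtain ⟨k, l, hd⟩ : ∃ k l, D4 i j k l := by
      obtain ⟨a, c, d, hd⟩ := D4.ex i
      by_cases h1 : a = j
      · exact ⟨c, d, h1 ▸ hd⟩
      · by_cases h2 : c = j
        · exact ⟨a, d, h2 ▸ hd.swap23⟩
        · have h3 : j = d := by
            have h4 : j ∈ ({i, a, c, d} : Finset (Fin 4)) := by
              rw [← hd.univ]
              exact Finset.mem_univ j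
            simp only [Finset.mem_insert, Finset.mem_singleton] at h4
            rcases h4 with h4 | h4 | h4 | h4
            · exact absurd h4.symm hij
            · exact absurd h4.symm h1
            · exact absurd h4.symm h2
            · exact h4
          exact ⟨a, c, h3 ▸ hd.swap34.swap23⟩
    have e : alt p b i = b i j • (p i - p j) + b i k • (p i - p k) + b i l • (p i - p l) := by
      unfold alt
      rw [h.c4 hd]
      have h1 : b i j = 1 - b i k - b i l := by
        have := h.s4 hd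
        linarith
      rw [h1]
      module
    have h1 : ⟪alt p b j, p i - p k⟫ = 0 := h.orth j i k hd.ij hd.jk.symm
    have h2 : ⟪alt p b j, p i - p l⟫ = 0 := h.orth j i l hd.ij hd.jl.symm
    have h3 : ⟪alt p b j, p i - p j⟫ = -⟪alt p b j, alt p b j⟫ := by
      rw [← neg_sub (p j) (p i), inner_neg_right, h.alt_edge hij]
    rw [e, inner_add_right, inner_add_right, inner_smul_right, inner_smul_right, inner_smul_right,
      h1, h2, h3]
    ring
  have h1 := key i j hij
  have h2 := key j i hij.symm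
  rw [real_inner_comm] at h2
  linarith

end Pool.Agent.TET
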