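import Pool.Agent.Helper38_TET.FrameF

/-!
# MP_c7c9bf_co: the foot of an altitude, relabelling the vertices
-/

set_option autoImplicit false

namespace Pool.Agent.TET

open MeasureTheory Set Filter Pool.Agent.UL3 Pool.Agent.UL3.H88
open scoped ENNReal Topology RealInnerProductSpace

/-- the foot of the altitude from `D` is `u A + v B + w C` -/
structure Foot (A B C D : E3) (u v w : ℝ) : Prop where
  aff : AffineIndependent ℝ ![A, B, C, D]
  sum : u + v + w = 1
  o1 : ⟪D - (u • A + v • B + w • C), B - A⟫ = 0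
  o2 : ⟪D - (u • A + v • B + w • C), C - A⟫ = 0

theorem aff_swap01 {A B C D : E3} (h : AffineIndependent ℝ ![A, B, C, D]) :
    AffineIndependent ℝ ![B, A, C, D] := by
  have h1 := (affineIndependent_equiv (k := ℝ) (Equiv.swap (0 : Fin 4) 1)
    (p := ![A, B, C, D])).2 h
  have e : ![A, B, C, D] ∘ (Equiv.swap (0 : Fin 4) 1) = ![B, A, C, D] := by
    funext i
    fin_cases i <;> rfl
  rwa [e] at h1

theorem aff_swap12 {A B C D : E3} (h : AffineIndependent ℝ ![A, B, C, D]) :
    AffineIndependent ℝ ![A, C, B, D] := by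
  have h1 := (affineIndependent_equiv (k := ℝ) (Equiv.swap (1 : Fin 4) 2)
    (p := ![A, B, C, D])).2 h
  have e : ![A, B, C, D] ∘ (Equiv.swap (1 : Fin 4) 2) = ![A, C, B, D] := by
    funext i
    fin_cases i <;> rfl
  rwa [e] at h1

theorem aff_swap23 {A B C D : E3} (h : AffineIndependent ℝ ![A, B, C, D]) :
    AffineIndependent ℝ ![A, B, D, C] := by
  have h1 := (affineIndependent_equiv (k := ℝ) (Equiv.swap (2 : Fin 4) 3)
    (p := ![A, B, C, D])).2 h
  have e : ![A, B, C, D] ∘ (Equiv.swap (2 : Fin 4) 3) = ![A, B, D, C] := by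
    funext i
    fin_cases i <;> rfl
  rwa [e] at h1

theorem Foot.swap12 {A B C D : E3} {u v w : ℝ} (h : Foot A B C D u v w) : Foot B A C D v u w := by
  have e : v • B + u • A + w • C = u • A + v • B + w • C := by
    rw [add_comm (v • B)]
  refine ⟨aff_swap01 h.aff, ?_, ?_, ?_⟩
  · have := h.sum
    linarith
  · rw [e, ← neg_sub B A, inner_neg_right, h.o1, neg_zero]
  · rw [e, ← sub_sub_sub_cancel_right C B A, inner_sub_right, h.o2, h.o1, sub_zero]

theorem Foot.swap23 {A B C D : E3} {u v w : ℝ} (h : Foot A B C D u v w) : Foot A C B D u w v := by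
  have e : u • A + w • C + v • B = u • A + v • B + w • C := by
    rw [add_right_comm]
  refine ⟨aff_swap12 h.aff, ?_, ?_, ?_⟩
  · have := h.sum
    linarith
  · rw [e, h.o2]
  · rw [e, h.o1]

theorem Foot.dense {A B C D : E3} {u v w : ℝ} (h : Foot A B C D u v w) (hg : GF v w) :
    Dense (convexHull ℝ {A, B, C, D}) := by
  have e : A + v • (B - A) + w • (C - A) = u • A + v • B + w • C := by
    have h1 : u = 1 - v - w := by
      have := h.sum
      linarith
    rw [h1]
    module
  refine transferF h.aff ?_ ?_ hg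
  · rw [e]
    exact h.o1
  · rw [e]
    exact h.o2

theorem set_swap01 (A B C D : E3) : ({A, B, C, D} : Set E3) = {B, A, C, D} :=
  Set.insert_comm _ _ _

theorem set_swap12 (A B C D : E3) : ({A, B, C, D} : Set E3) = {A, C, B, D} := by
  rw [Set.insert_comm B C]

/-- a sorted region is enough -/
theorem Foot.sorted {P : ℝ → ℝ → ℝ → Prop} (hP1 : ∀ u v w, P u v w → P v u w)
    (hP2 : ∀ u v w, P u v w → P u w v)
    (hP : ∀ u v w, u + v + w = 1 → w ≤ v → v ≤ u → P u v w → GF v w) {A B C D : E3} {u v w : ℝ}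
    (h : Foot A B C D u v w) (hp : P u v w) : Dense (convexHull ℝ {A, B, C, D}) := by
  rcases le_total w v with h1 | h1
  · rcases le_total v u with h2 | h2
    · exact h.dense (hP _ _ _ h.sum h1 h2 hp)
    · rcases le_total w u with h3 | h3
      · rw [set_swap01]
        exact h.swap12.dense (hP _ _ _ h.swap12.sum h3 h2 (hP1 _ _ _ hp))
      · -- u ≤ w ≤ v
        rw [set_swap01, set_swap12]
        exact h.swap12.swap23.dense (hP _ _ _ h.swap12.swap23.sum h3 h1
          (hP2 _ _ _ (hP1 _ _ _ hp)))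
  · rcases le_total w u with h2 | h2
    · -- v ≤ w ≤ u
      rw [set_swap12]
      exact h.swap23.dense (hP _ _ _ h.swap23.sum h1 h2 (hP2 _ _ _ hp))
    · rcases le_total v u with h3 | h3
      · -- v ≤ u ≤ w
        rw [set_swap12, set_swap01]
        exact h.swap23.swap12.dense (hP _ _ _ h.swap23.swap12.sum h3 h2
          (hP1 _ _ _ (hP2 _ _ _ hp)))
      · -- u ≤ v ≤ w
        rw [set_swap12, set_swap01, set_swap12]
        exact h.swap23.swap12.swap23.dense (hP _ _ _ h.swap23.swap12.swap23.sum h3 h1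
          (hP2 _ _ _ (hP1 _ _ _ (hP2 _ _ _ hp))))

end Pool.Agent.TET
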