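import Pool.Agent.Helper38_TET.Foot
import Pool.Agent.Helper38_TET.FamF1
import Pool.Agent.Helper38_TET.FamF2

/-!
# MP_c7c9bf_co: feet with all barycentric coordinates at most 4/5
-/

set_option autoImplicit false

namespace Pool.Agent.TET

open MeasureTheory Set Filter Pool.Agent.UL3 Pool.Agent.UL3.H88
open scoped ENNReal Topology RealInnerProductSpace

/-- the first root triangle -/
theorem covF1 : Cov [0, 7, 4, 3] (famF (1 / 3) (1 / 3)) (famF (1 / 2) 0) (famF (1 / 5) 0) := by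
  have h := FamF1_root
  simp only [vq_famF] at h
  norm_num at h
  exact h

/-- the second root triangle -/
theorem covF2 : Cov [0, 7, 4, 3] (famF (1 / 3) (1 / 3)) (famF (1 / 5) 0) (famF (1 / 10) (1 / 10)) := by
  have h := FamF2_root
  simp only [vq_famF] at h
  norm_num at h
  exact h

theorem GF_sorted {u v w : ℝ} (hs : u + v + w = 1) (hw : 0 ≤ w) (h1 : w ≤ v) (h2 : v ≤ u)
    (hu : u ≤ 4 / 5) : GF v w := by
  rcases le_total 1 (5 * v - 2 * w) with h3 | h3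
  · refine CovF covF1 (x := 3 * w) (y := 10 / 3 * (v - 2 / 5 * w - 1 / 5))
      (z := 1 - 3 * w - 10 / 3 * (v - 2 / 5 * w - 1 / 5)) ?_ ?_ ?_ ?_ ?_ ?_ <;> linarith
  · refine CovF covF2 (x := 15 / 7 * (v + w - 1 / 5)) (y := 5 * (v - w))
      (z := 1 - 15 / 7 * (v + w - 1 / 5) - 5 * (v - w)) ?_ ?_ ?_ ?_ ?_ ?_ <;> linarith

theorem foot45 {A B C D : E3} {u v w : ℝ} (h : Foot A B C D u v w) (hu : 0 ≤ u) (hv : 0 ≤ v)
    (hw : 0 ≤ w) (hu' : u ≤ 4 / 5) (hv' : v ≤ 4 / 5) (hw' : w ≤ 4 / 5) :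
    Dense (convexHull ℝ {A, B, C, D}) :=
  Foot.sorted (P := fun u v w => 0 ≤ u ∧ 0 ≤ v ∧ 0 ≤ w ∧ u ≤ 4 / 5 ∧ v ≤ 4 / 5 ∧ w ≤ 4 / 5)
    (fun _ _ _ ⟨a, b, c, d, e, f⟩ => ⟨b, a, c, e, d, f⟩)
    (fun _ _ _ ⟨a, b, c, d, e, f⟩ => ⟨a, c, b, d, f, e⟩)
    (fun _ _ _ hs h1 h2 ⟨_, _, c, d, _, _⟩ => GF_sorted hs c h1 h2 d) h
    ⟨hu, hv, hw, hu', hv', hw'⟩

end Pool.Agent.TET
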