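import Pool.Agent.Helper38_TET.Cov

/-!
# MP_c7c9bf_co: tetrahedra and frames
-/

set_option autoImplicit false

namespace Pool.Agent.TET

open MeasureTheory Set Filter Pool.Agent.UL3 Pool.Agent.UL3.H88
open scoped ENNReal Topology RealInnerProductSpace

theorem det_ne_of_affine {A B C D : E3} (h : AffineIndependent ℝ ![A, B, C, D]) :
    (Bm ![B - A, C - A, D - A]).det ≠ 0 := by
  intro h0
  obtain ⟨c, hc0, hc⟩ := Matrix.exists_vecMul_eq_zero_iff.2 h0
  have h1 : c 0 • (B - A) + c 1 • (C - A) + c 2 • (D - A) = 0 := by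
    ext j
    have h2 := congrFun hc j
    unfold Matrix.vecMul dotProduct at h2
    rw [Fin.sum_univ_three] at h2
    exact h2
  have h3 := affineIndependent_iff.1 h Finset.univ ![-(c 0 + c 1 + c 2), c 0, c 1, c 2] ?_ ?_
  · apply hc0
    funext i
    fin_cases i
    · exact h3 1 (Finset.mem_univ _)
    · exact h3 2 (Finset.mem_univ _)
    · exact h3 3 (Finset.mem_univ _)
  · rw [Fin.sum_univ_four]
    show -(c 0 + c 1 + c 2) + c 0 + c 1 + c 2 = 0
    ring
  · rw [Fin.sum_univ_four]
    show (-(c 0 + c 1 + c 2)) • A + c 0 • B + c 1 • C + c 2 • D = 0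
    rw [← h1]
    module

theorem Tet_eq (A B C D : E3) : Tet A ![B - A, C - A, D - A] = convexHull ℝ {A, B, C, D} := by
  unfold Tet
  congr 1
  obtain ⟨h0, h1, h2, h3⟩ := Qm_std ![B - A, C - A, D - A]
  ext x
  simp only [mem_range, mem_insert_iff, mem_singleton_iff]
  constructor
  · rintro ⟨m, rfl⟩
    fin_cases m
    · left
      exact (congrArg (A + ·) h0).trans (add_zero A)
    · right; left
      exact (congrArg (A + ·) h1).trans (add_sub_cancel A B)
    · right; right; left
      exact (congrArg (A + ·) h2).trans (add_sub_cancel A C)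
    · right; right; right
      exact (congrArg (A + ·) h3).trans (add_sub_cancel A D)
  · rintro (rfl | rfl | rfl | rfl)
    · exact ⟨0, (congrArg (x + ·) h0).trans (add_zero x)⟩
    · exact ⟨1, (congrArg (A + ·) h1).trans (add_sub_cancel A x)⟩
    · exact ⟨2, (congrArg (A + ·) h2).trans (add_sub_cancel A x)⟩
    · exact ⟨3, (congrArg (A + ·) h3).trans (add_sub_cancel A x)⟩

/-- a tetrahedron in a frame -/
theorem frame_transfer {A B C D : E3} (h : AffineIndependent ℝ ![A, B, C, D]) {L : List ℕ}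
    {V : Fin 3 → Fin 3 → ℝ} (hg : GoodV L V) (e : Fin 3 → E3) (hB : Qm e (V 0) = B - A)
    (hC : Qm e (V 1) = C - A) (hD : Qm e (V 2) = D - A)
    (ho : ∀ τ ∈ L, ∀ a b, sgn τ a ≠ sgn τ b → ⟪e a, e b⟫ = 0) :
    Dense (convexHull ℝ {A, B, C, D}) := by
  have h1 : (fun i => Qm e (V i)) = ![B - A, C - A, D - A] := by
    funext i
    fin_cases i
    · exact hB
    · exact hC
    · exact hD
  have h2 := det_ne_of_affine h
  rw [← h1, Bm_Q] at h2
  have h3 := sign_transfer hg A e (right_ne_zero_of_mul h2) ho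
  rw [h1, Tet_eq] at h3
  exact h3

/-! ### Family F: reflection in a face -/

/-- foot `(v, w)` -/
def famF (v w : ℝ) : Fin 3 → Fin 3 → ℝ := ![![1, 0, 0], ![0, 1, 0], ![v, w, 1]]

/-- the reflection in the face is good at the foot `(v, w)` -/
def GF (v w : ℝ) : Prop := GoodV [0, 7, 4, 3] (famF v w)

theorem transferF {A B C D : E3} (h : AffineIndependent ℝ ![A, B, C, D]) {v w : ℝ}
    (h0 : ⟪D - (A + v • (B - A) + w • (C - A)), B - A⟫ = 0)
    (h1 : ⟪D - (A + v • (B - A) + w • (C - A)), C - A⟫ = 0) (hg : GF v w) :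
    Dense (convexHull ℝ {A, B, C, D}) := by
  refine frame_transfer h hg ![B - A, C - A, D - (A + v • (B - A) + w • (C - A))] ?_ ?_ ?_ ?_
  · unfold Qm famF
    simp [Fin.sum_univ_three]
  · unfold Qm famF
    simp [Fin.sum_univ_three]
  · unfold Qm famF
    rw [Fin.sum_univ_three]
    show v • (B - A) + w • (C - A) + (1 : ℝ) • (D - (A + v • (B - A) + w • (C - A))) = D - A
    module
  · have h0' := h0
    have h1' := h1
    rw [real_inner_comm] at h0' h1'
    intro τ hτ a b hab
    simp only [List.mem_cons, List.not_mem_nil, or_false] at hτ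
    have e0 : ∀ a b : Fin 3, (a = 2 ∧ b ≠ 2) ∨ (a ≠ 2 ∧ b = 2) →
        ⟪(![B - A, C - A, D - (A + v • (B - A) + w • (C - A))] : Fin 3 → E3) a,
          (![B - A, C - A, D - (A + v • (B - A) + w • (C - A))] : Fin 3 → E3) b⟫ = 0 := by
      intro a b hab
      fin_cases a <;> fin_cases b
      · exact absurd hab (by decide)
      · exact absurd hab (by decide)
      · exact h0'
      · exact absurd hab (by decide)
      · exact absurd hab (by decide)
      · exact h1'
      · exact h0
      · exact h1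
      · exact absurd hab (by decide)
    have e1 : ∀ τ : ℕ, τ = 0 ∨ τ = 7 ∨ τ = 4 ∨ τ = 3 → sgn τ 0 = sgn τ 1 := by
      rintro τ (rfl | rfl | rfl | rfl) <;> simp [sgn, sb]
    refine e0 a b ?_
    have e2 := e1 τ hτ
    fin_cases a <;> fin_cases b
    · exact absurd rfl hab
    · exact absurd e2 hab
    · exact Or.inr ⟨by decide, rfl⟩
    · exact absurd e2.symm hab
    · exact absurd rfl hab
    · exact Or.inr ⟨by decide, rfl⟩
    · exact Or.inl ⟨rfl, by decide⟩
    · exact Or.inl ⟨rfl, by decide⟩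
    · exact absurd rfl hab

/-- a triangle of the parameter plane -/
theorem CovF {a1 a2 b1 b2 c1 c2 : ℝ}
    (h : Cov [0, 7, 4, 3] (famF a1 a2) (famF b1 b2) (famF c1 c2)) {x y z v w : ℝ} (hx : 0 ≤ x)
    (hy : 0 ≤ y) (hz : 0 ≤ z) (hs : x + y + z = 1) (hv : v = x * a1 + y * b1 + z * c1)
    (hw : w = x * a2 + y * b2 + z * c2) : GF v w := by
  have h1 := h x y z hx hy hz hs
  have e : x • famF a1 a2 + y • famF b1 b2 + z • famF c1 c2 = famF v w := by
    funext i j
    fin_cases i <;> fin_cases j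
    · show x * 1 + y * 1 + z * 1 = 1
      linarith
    · show x * 0 + y * 0 + z * 0 = 0
      ring
    · show x * 0 + y * 0 + z * 0 = 0
      ring
    · show x * 0 + y * 0 + z * 0 = 0
      ring
    · show x * 1 + y * 1 + z * 1 = 1
      linarith
    · show x * 0 + y * 0 + z * 0 = 0
      ring
    · exact hv.symm
    · exact hw.symm
    · show x * 1 + y * 1 + z * 1 = 1
      linarith
  rw [e] at h1
  exact h1

/-- the edge vectors with foot `(x, y) / 30720` -/
theorem vq_famF (a b c p q : ℕ) :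
    vq ⟨⟨a, 276480, 245760, 245760⟩, ⟨b, 245760, 276480, 245760⟩, ⟨c, p, q, 276480⟩⟩ =
      famF (((p : ℝ) - 245760) / 30720) (((q : ℝ) - 245760) / 30720) := by
  funext i j
  fin_cases i <;> fin_cases j
  · show (((276480 : ℕ) : ℝ) - 245760) / 30720 = 1
    norm_num
  · show (((245760 : ℕ) : ℝ) - 245760) / 30720 = 0
    norm_num
  · show (((245760 : ℕ) : ℝ) - 245760) / 30720 = 0
    norm_num
  · show (((245760 : ℕ) : ℝ) - 245760) / 30720 = 0
    norm_num
  · show (((276480 : ℕ) : ℝ) - 245760) / 30720 = 1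
    norm_num
  · show (((245760 : ℕ) : ℝ) - 245760) / 30720 = 0
    norm_num
  · rfl
  · rfl
  · show (((276480 : ℕ) : ℝ) - 245760) / 30720 = 1
    norm_num

end Pool.Agent.TET
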