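import Pool.Agent.Helper38_TET.Vol

/-!
# MP_c7c9bf_co: from a certificate in affine coordinates to a packing of a tetrahedron
-/

set_option autoImplicit false

namespace Pool.Agent.TET

open MeasureTheory Set Filter Pool.Agent.UL3 Pool.Agent.UL3.H88
open scoped ENNReal Topology

/-- the point with coordinates `x` with respect to `b` -/
noncomputable def Qm (b : Fin 3 → E3) (x : Fin 3 → ℝ) : E3 := ∑ m, x m • b m

/-- the vertices of the standard simplex -/
def std : Fin 4 → Fin 3 → ℝ := ![![0, 0, 0], ![1, 0, 0], ![0, 1, 0], ![0, 0, 1]]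

theorem Qm_add (b : Fin 3 → E3) (x y : Fin 3 → ℝ) : Qm b (x + y) = Qm b x + Qm b y := by
  unfold Qm
  rw [← Finset.sum_add_distrib]
  exact Finset.sum_congr rfl fun m _ => by rw [Pi.add_apply, add_smul]

theorem Qm_smul (b : Fin 3 → E3) (r : ℝ) (x : Fin 3 → ℝ) : Qm b (r • x) = r • Qm b x := by
  unfold Qm
  rw [Finset.smul_sum]
  exact Finset.sum_congr rfl fun m _ => by rw [Pi.smul_apply, smul_eq_mul, mul_smul]

theorem Qm_neg (b : Fin 3 → E3) (x : Fin 3 → ℝ) : Qm b (-x) = -Qm b x := by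
  have h := Qm_smul b (-1) x
  rwa [neg_one_smul, neg_one_smul] at h

theorem Qm_sum (b : Fin 3 → E3) {α : Type*} (s : Finset α) (F : α → Fin 3 → ℝ) :
    Qm b (∑ a ∈ s, F a) = ∑ a ∈ s, Qm b (F a) := by
  classical
  induction s using Finset.induction_on with
  | empty =>
    rw [Finset.sum_empty, Finset.sum_empty]
    unfold Qm
    simp
  | insert a s ha ih => rw [Finset.sum_insert ha, Finset.sum_insert ha, Qm_add, ih]

/-- the matrix of `b` -/
def Bm (b : Fin 3 → E3) : Matrix (Fin 3) (Fin 3) ℝ := Matrix.of fun i j => b i j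

theorem Qm_apply (b : Fin 3 → E3) (x : Fin 3 → ℝ) (j : Fin 3) :
    Qm b x j = ∑ m, x m * b m j := by
  unfold Qm
  simp [Finset.sum_apply]

theorem Qm_toLin (b : Fin 3 → E3) (x : E3) :
    Matrix.toLin b0 b0 (Bm b).transpose x = Qm b (fun m => x m) := by
  ext i
  rw [toLin_apply', Qm_apply]
  refine Finset.sum_congr rfl fun j _ => ?_
  rw [Matrix.transpose_apply]
  unfold Bm
  rw [Matrix.of_apply, mul_comm]

theorem dt_Q (b : Fin 3 → E3) (U : Fin 3 → Fin 3 → ℝ) :
    dt (fun a => Qm b (U a)) = |(Matrix.of U).det| * |(Bm b).det| := by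
  unfold dt
  have h1 : (Matrix.of fun i j => (Qm b (U i)) j) = (Matrix.of U) * (Bm b) := by
    ext i j
    rw [Matrix.of_apply, Qm_apply, Matrix.mul_apply]
    rfl
  rw [h1, Matrix.det_mul, abs_mul]

/-- the tetrahedron -/
def Tet (A : E3) (b : Fin 3 → E3) : Set E3 := convexHull ℝ (range fun m : Fin 4 => A + Qm b (std m))

theorem Tet_compact (A : E3) (b : Fin 3 → E3) : IsCompact (Tet A b) :=
  (Set.finite_range _).isCompact_convexHull ℝ

theorem Tet_convex (A : E3) (b : Fin 3 → E3) : Convex ℝ (Tet A b) := convex_convexHull ℝ _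

theorem Qm_std (b : Fin 3 → E3) : Qm b (std 0) = 0 ∧ Qm b (std 1) = b 0 ∧ Qm b (std 2) = b 1 ∧
    Qm b (std 3) = b 2 := by
  unfold Qm std
  refine ⟨?_, ?_, ?_, ?_⟩ <;> simp [Fin.sum_univ_three]

theorem sub_Tet (A : E3) (b : Fin 3 → E3) :
    (fun x => x + A) '' (Matrix.toLin b0 b0 (Bm b).transpose '' T0) ⊆ Tet A b := by
  rintro _ ⟨_, ⟨x, ⟨hx1, hx2⟩, rfl⟩, rfl⟩
  rw [Qm_toLin]
  obtain ⟨h0, h1, h2, h3⟩ := Qm_std b
  have hc := Tet_convex A b
  have hm : ∀ m : Fin 4, A + Qm b (std m) ∈ Tet A b := fun m =>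
    subset_convexHull ℝ _ ⟨m, rfl⟩
  have key := hc.sum_mem (t := Finset.univ) (w := ![1 - (x 0 + x 1 + x 2), x 0, x 1, x 2])
    (z := fun m : Fin 4 => A + Qm b (std m)) (fun i _ => by
      fin_cases i
      · exact sub_nonneg.2 hx2
      · exact hx1 0
      · exact hx1 1
      · exact hx1 2) (by
      rw [Fin.sum_univ_four]
      show 1 - (x 0 + x 1 + x 2) + x 0 + x 1 + x 2 = 1
      ring) (fun i _ => hm i)
  rw [Fin.sum_univ_four, h0, h1, h2, h3] at key
  have e : Qm b (fun m => x m) + A = (1 - (x 0 + x 1 + x 2)) • (A + 0) + x 0 • (A + b 0) +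
      x 1 • (A + b 1) + x 2 • (A + b 2) := by
    unfold Qm
    rw [Fin.sum_univ_three]
    module
  show Qm b (fun m => x m) + A ∈ Tet A b
  rw [e]
  exact key

theorem vol_Tet (A : E3) (b : Fin 3 → E3) : |(Bm b).det| / 6 ≤ V (Tet A b) := by
  have h1 := measure_mono (μ := (volume : Measure E3)) (sub_Tet A b)
  rw [meas_shift, Measure.addHaar_image_linearMap, LinearMap.det_toLin, Matrix.det_transpose] at h1
  have h2 : ENNReal.ofReal (|(Bm b).det| / 6) ≤ (volume : Measure E3) (Tet A b) := by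
    refine le_trans ?_ h1
    rw [div_eq_mul_one_div, ENNReal.ofReal_mul (abs_nonneg _)]
    exact mul_le_mul_right vol_T0 _
  have h3 : (volume : Measure E3) (Tet A b) ≠ ⊤ := (Tet_compact A b).measure_lt_top.ne
  unfold V Measure.real
  exact (ENNReal.ofReal_le_iff_le_toReal h3).1 h2

theorem map_combo (F : E3 →L[ℝ] ℝ) (r s : ℝ) (x y : E3) :
    F (r • x + s • y) = r * F x + s * F y := by
  rw [map_add, map_smul, map_smul, smul_eq_mul, smul_eq_mul]

theorem exists_fun (b : Fin 3 → E3) (hb : (Bm b).det ≠ 0) (f : Fin 3 → ℝ) (hf : f ≠ 0) :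
    ∃ F : E3 →L[ℝ] ℝ, (∀ x, F (Qm b x) = f ⬝ᵥ x) ∧ ∃ e, 0 < F e := by
  have hdt : 0 < dt (fun i => (1 / 2 : ℝ) • b i) := by
    have h1 : (Matrix.of fun i j => ((1 / 2 : ℝ) • b i) j) = (1 / 2 : ℝ) • Bm b := by
      ext i j
      rfl
    unfold dt
    rw [h1, Matrix.det_smul]
    exact abs_pos.2 (mul_ne_zero (by norm_num) hb)
  obtain ⟨β, hβ, _⟩ := exists_basis _ hdt
  have hβ' : ∀ i, β i = b i := by
    intro i
    rw [hβ i, smul_smul]
    norm_num
  refine ⟨LinearMap.toContinuousLinearMap (β.constr ℝ f), ?_, ?_⟩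
  · intro x
    show β.constr ℝ f (Qm b x) = _
    unfold Qm
    rw [map_sum]
    unfold dotProduct
    refine Finset.sum_congr rfl fun m _ => ?_
    rw [map_smul, ← hβ' m, Module.Basis.constr_basis, smul_eq_mul, mul_comm]
  · obtain ⟨m, hm⟩ : ∃ m, f m ≠ 0 := by
      by_contra h
      push Not at h
      exact hf (funext h)
    refine ⟨f m • β m, ?_⟩
    show 0 < β.constr ℝ f (f m • β m)
    rw [map_smul, Module.Basis.constr_basis, smul_eq_mul]
    exact mul_self_pos.2 hm

/-- the vertices `0`, `V 0`, `V 1`, `V 2` -/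
def Vx (V : Fin 3 → Fin 3 → ℝ) : Fin 4 → Fin 3 → ℝ := ![0, V 0, V 1, V 2]

theorem Qm_zero (b : Fin 3 → E3) : Qm b 0 = 0 := by
  unfold Qm
  simp

theorem Qm_Vx (e : Fin 3 → E3) (V : Fin 3 → Fin 3 → ℝ) (m : Fin 4) :
    Qm (fun a => Qm e (V a)) (std m) = Qm e (Vx V m) := by
  obtain ⟨h0, h1, h2, h3⟩ := Qm_std (fun a => Qm e (V a))
  fin_cases m
  · exact h0.trans (Qm_zero e).symm
  · exact h1
  · exact h2
  · exact h3

theorem Bm_Q (e : Fin 3 → E3) (V : Fin 3 → Fin 3 → ℝ) :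
    (Bm (fun a => Qm e (V a))).det = (Matrix.of V).det * (Bm e).det := by
  have h1 : Bm (fun a => Qm e (V a)) = (Matrix.of V) * (Bm e) := by
    ext i j
    unfold Bm
    rw [Matrix.of_apply, Qm_apply, Matrix.mul_apply]
    rfl
  rw [h1, Matrix.det_mul]

/-- the general transfer: `e` is a frame, `V` are the edge vectors of the tetrahedron in this frame -/
theorem gen (A : E3) (e : Fin 3 → E3) (he : (Bm e).det ≠ 0) (V : Fin 3 → Fin 3 → ℝ) {N : ℕ}
    (hN : 0 < N) (L : Fin N → (E3 ≃ₗᵢ[ℝ] E3)) (W : Fin N → Fin 4 → Fin 3 → ℝ)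
    (hW : ∀ i m, L i (Qm e (Vx V m)) = Qm e (W i m)) (U : Fin 3 → Fin 3 → ℝ)
    (t : Fin N → Fin 3 → ℝ) (hU : 0 < |(Matrix.of U).det|)
    (hd : Real.pi / (3 * Real.sqrt 2) ≤ N * |(Matrix.of V).det| / (6 * |(Matrix.of U).det|))
    (hs : ∀ (i j : Fin N) (n : Fin 3 → ℤ), (i = j → n ≠ 0) → ∃ f : Fin 3 → ℝ, f ≠ 0 ∧
      ∀ m m', f ⬝ᵥ (W i m + t i) ≤ f ⬝ᵥ (W j m' + (t j + ∑ a, (n a : ℝ) • U a))) :
    Dense (Tet A (fun a => Qm e (V a))) := by
  have hB : 0 < |(Bm e).det| := abs_pos.2 he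
  obtain ⟨b, hb⟩ : ∃ b : Fin 3 → E3, b = fun a => Qm e (V a) := ⟨_, rfl⟩
  have hQ : ∀ m, Qm b (std m) = Qm e (Vx V m) := by
    intro m
    rw [hb]
    exact Qm_Vx e V m
  rw [← hb]
  refine pdn (Tet_compact A b) (Tet_convex A b) hN (v := fun a => Qm e (U a)) (L := L)
    (c := fun i => Qm e (t i) - L i A) (by rw [dt_Q]; positivity) ?_ ?_
  · intro i j n hn x hx y hy hxy
    obtain ⟨f, hf0, hf⟩ := hs i j n hn
    obtain ⟨F, hF, g, hg⟩ := exists_fun e he f hf0
    have hc : ∀ a : Fin N, ∀ m, L a (A + Qm b (std m)) + (Qm e (t a) - L a A) =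
        Qm e (W a m + t a) := by
      intro a m
      rw [map_add, hQ, hW, Qm_add]
      abel
    have hsum : ∑ a, (n a : ℝ) • Qm e (U a) = Qm e (∑ a, (n a : ℝ) • U a) := by
      rw [Qm_sum]
      exact Finset.sum_congr rfl fun a _ => (Qm_smul e _ _).symm
    have k1 : ∀ m', ∀ x ∈ Tet A b, F (L i x + (Qm e (t i) - L i A)) ≤
        f ⬝ᵥ (W j m' + (t j + ∑ a, (n a : ℝ) • U a)) := by
      intro m'
      have hcv : Convex ℝ {x : E3 | F (L i x + (Qm e (t i) - L i A)) ≤
          f ⬝ᵥ (W j m' + (t j + ∑ a, (n a : ℝ) • U a))} := by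
        intro x hx y hy r s hr hs' hrs
        have hx' : F (L i x + (Qm e (t i) - L i A)) ≤
          f ⬝ᵥ (W j m' + (t j + ∑ a, (n a : ℝ) • U a)) := hx
        have hy' : F (L i y + (Qm e (t i) - L i A)) ≤
          f ⬝ᵥ (W j m' + (t j + ∑ a, (n a : ℝ) • U a)) := hy
        show F (L i (r • x + s • y) + (Qm e (t i) - L i A)) ≤ _
        have e1 : L i (r • x + s • y) + (Qm e (t i) - L i A) =
            r • (L i x + (Qm e (t i) - L i A)) + s • (L i y + (Qm e (t i) - L i A)) := by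
          rw [map_add, map_smul, map_smul]
          have : (Qm e (t i) - L i A) = (r + s) • (Qm e (t i) - L i A) := by rw [hrs, one_smul]
          conv_lhs => rw [this]
          module
        rw [e1, map_combo]
        calc r * F (L i x + (Qm e (t i) - L i A)) + s * F (L i y + (Qm e (t i) - L i A))
            ≤ r * (f ⬝ᵥ (W j m' + (t j + ∑ a, (n a : ℝ) • U a))) +
              s * (f ⬝ᵥ (W j m' + (t j + ∑ a, (n a : ℝ) • U a))) := by gcongr
          _ = _ := by rw [← add_mul, hrs, one_mul]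
      refine fun x hx => (convexHull_min ?_ hcv) hx
      rintro _ ⟨m, rfl⟩
      show F (L i (A + Qm b (std m)) + (Qm e (t i) - L i A)) ≤ _
      rw [hc, hF]
      exact hf m m'
    have k2 : ∀ x ∈ Tet A b, ∀ y ∈ Tet A b, F (L i x + (Qm e (t i) - L i A)) ≤
        F (L j y + (Qm e (t j) - L j A + ∑ a, (n a : ℝ) • Qm e (U a))) := by
      intro x hx
      have hcv : Convex ℝ {y : E3 | F (L i x + (Qm e (t i) - L i A)) ≤
          F (L j y + (Qm e (t j) - L j A + ∑ a, (n a : ℝ) • Qm e (U a)))} := by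
        intro y hy z hz r s hr hs' hrs
        have hy' : F (L i x + (Qm e (t i) - L i A)) ≤
          F (L j y + (Qm e (t j) - L j A + ∑ a, (n a : ℝ) • Qm e (U a))) := hy
        have hz' : F (L i x + (Qm e (t i) - L i A)) ≤
          F (L j z + (Qm e (t j) - L j A + ∑ a, (n a : ℝ) • Qm e (U a))) := hz
        show F (L i x + (Qm e (t i) - L i A)) ≤ F (L j (r • y + s • z) +
          (Qm e (t j) - L j A + ∑ a, (n a : ℝ) • Qm e (U a)))
        have e1 : L j (r • y + s • z) +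
            (Qm e (t j) - L j A + ∑ a, (n a : ℝ) • Qm e (U a)) =
            r • (L j y + (Qm e (t j) - L j A + ∑ a, (n a : ℝ) • Qm e (U a))) +
            s • (L j z + (Qm e (t j) - L j A + ∑ a, (n a : ℝ) • Qm e (U a))) := by
          rw [map_add, map_smul, map_smul]
          have : (Qm e (t j) - L j A + ∑ a, (n a : ℝ) • Qm e (U a)) =
            (r + s) • (Qm e (t j) - L j A + ∑ a, (n a : ℝ) • Qm e (U a)) := by
            rw [hrs, one_smul]
          conv_lhs => rw [this]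
          module
        rw [e1, map_combo]
        calc F (L i x + (Qm e (t i) - L i A))
            = r * F (L i x + (Qm e (t i) - L i A)) + s * F (L i x + (Qm e (t i) - L i A)) := by
              rw [← add_mul, hrs, one_mul]
          _ ≤ _ := by gcongr
      refine fun y hy => (convexHull_min ?_ hcv) hy
      rintro _ ⟨m', rfl⟩
      show F (L i x + (Qm e (t i) - L i A)) ≤ F (L j (A + Qm b (std m')) +
        (Qm e (t j) - L j A + ∑ a, (n a : ℝ) • Qm e (U a)))
      rw [← add_assoc, hc, hsum, ← Qm_add, hF, add_assoc]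
      exact k1 m' x hx
    -- move a little
    have hopen : ∃ ε : ℝ, 0 < ε ∧ x + ε • (L i).symm g ∈ Tet A b := by
      have h1 : Tendsto (fun ε : ℝ => x + ε • (L i).symm g) (𝓝[>] 0) (𝓝 (x + (0 : ℝ) • (L i).symm g)) :=
        ((continuous_const.add (continuous_id.smul continuous_const)).tendsto 0).mono_left
          nhdsWithin_le_nhds
      rw [zero_smul, add_zero] at h1
      have h2 : ∀ᶠ ε : ℝ in 𝓝[>] 0, x + ε • (L i).symm g ∈ interior (Tet A b) :=
        h1 (isOpen_interior.mem_nhds hx)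
      obtain ⟨ε, h3, h4⟩ := (h2.and self_mem_nhdsWithin).exists
      exact ⟨ε, h4, interior_subset h3⟩
    obtain ⟨ε, hε, hmem⟩ := hopen
    have h5 := k2 _ hmem y (interior_subset hy)
    have h6 : L i (x + ε • (L i).symm g) + (Qm e (t i) - L i A) =
        (L i x + (Qm e (t i) - L i A)) + ε • g := by
      rw [map_add, map_smul, LinearIsometryEquiv.apply_symm_apply]
      abel
    rw [h6, hxy, map_add, map_smul, smul_eq_mul] at h5
    have h7 : 0 < ε * F g := mul_pos hε hg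
    linarith
  · refine hd.trans ?_
    rw [dt_Q, div_le_div_iff₀ (by positivity) (by positivity)]
    have h1 := vol_Tet A b
    have h2 : (0 : ℝ) ≤ N := Nat.cast_nonneg N
    have h3 : |(Matrix.of V).det| * |(Bm e).det| ≤ 6 * UL3.V (Tet A b) := by
      rw [← abs_mul, ← Bm_Q, ← hb]
      linarith
    calc (N : ℝ) * |(Matrix.of V).det| * (|(Matrix.of U).det| * |(Bm e).det|)
        = N * |(Matrix.of U).det| * (|(Matrix.of V).det| * |(Bm e).det|) := by ring
      _ ≤ N * |(Matrix.of U).det| * (6 * UL3.V (Tet A b)) := by gcongr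
      _ = N * UL3.V (Tet A b) * (6 * |(Matrix.of U).det|) := by ring

end Pool.Agent.TET
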