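import Pool.Agent.Helper38_TET.CovZ

/-!
# MP_c7c9bf_co: grids of squares which are divided by the other diagonal
-/

set_option autoImplicit false

namespace Pool.Agent.TET

open MeasureTheory Set Filter Pool.Agent.UL3 Pool.Agent.UL3.H88
open scoped ENNReal Topology RealInnerProductSpace Matrix

/-- the grid square `(i, j)` of size `h` at `(x0, y0)`, divided by the falling diagonal -/
def SqY (M : FM) (L : List (List Z3)) (A : List ℕ) (x0 y0 h : ℤ) (i j : ℕ) : Prop :=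
  CovZ M L A (x0 + h * i, y0 + h * j) (x0 + h * (i + 1), y0 + h * j)
    (x0 + h * i, y0 + h * (j + 1)) ∧
  CovZ M L A (x0 + h * (i + 1), y0 + h * (j + 1)) (x0 + h * i, y0 + h * (j + 1))
    (x0 + h * (i + 1), y0 + h * j)

/-- the checked version of a grid square -/
theorem SqY.mk {M : FM} {L : List (List Z3)} {A : List ℕ} {x0 y0 h : ℤ} {i j : ℕ}
    {a b c d : ℤ} (ha : x0 + h * i = a) (hb : x0 + h * (i + 1) = b) (hc : y0 + h * j = c)
    (hd : y0 + h * (j + 1) = d) (h1 : CovZ M L A (a, c) (b, c) (a, d))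
    (h2 : CovZ M L A (b, d) (a, d) (b, c)) : SqY M L A x0 y0 h i j := by
  unfold SqY
  rw [ha, hb, hc, hd]
  exact ⟨h1, h2⟩

/-- a grid of squares covers a rectangle -/
theorem gridY {M : FM} {L : List (List Z3)} {A : List ℕ} {x0 y0 h : ℤ} {nx ny : ℕ} (hh : 0 < h)
    (hx : 0 < nx) (hy : 0 < ny) (H : ∀ j < ny, ∀ i < nx, SqY M L A x0 y0 h i j) {X Y : ℝ}
    (h1 : (x0 : ℝ) ≤ X) (h2 : X ≤ x0 + h * nx) (h3 : (y0 : ℝ) ≤ Y) (h4 : Y ≤ y0 + h * ny) :
    Out L X Y ∨ GoodV A (M.v X Y) := by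
  have hh' : (0 : ℝ) < h := by exact_mod_cast hh
  obtain ⟨i, hi, hi1, hi2⟩ := cell_exists (h := (h : ℝ)) (x := X - x0) (n := nx) (by linarith)
    (by linarith) hx
  obtain ⟨j, hj, hj1, hj2⟩ := cell_exists (h := (h : ℝ)) (x := Y - y0) (n := ny) (by linarith)
    (by linarith) hy
  obtain ⟨s1, s2⟩ := H j hj i hi
  obtain ⟨u, hu⟩ : ∃ u, u = (X - x0 - h * i) / h := ⟨_, rfl⟩
  obtain ⟨v, hv⟩ : ∃ v, v = (Y - y0 - h * j) / h := ⟨_, rfl⟩
  have hu0 : 0 ≤ u := by
    rw [hu]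
    exact div_nonneg (by linarith) hh'.le
  have hv0 : 0 ≤ v := by
    rw [hv]
    exact div_nonneg (by linarith) hh'.le
  have hu1 : u ≤ 1 := by
    rw [hu, div_le_one hh']
    linarith
  have hv1 : v ≤ 1 := by
    rw [hv, div_le_one hh']
    linarith
  have eX : X = x0 + h * i + h * u := by
    rw [hu]
    field_simp
    ring
  have eY : Y = y0 + h * j + h * v := by
    rw [hv]
    field_simp
    ring
  rcases le_total (u + v) 1 with hc | hc
  · have h5 := s1 (1 - u - v) u v (by linarith) hu0 hv0 (by ring)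
    have k1 : (1 - u - v) * (((x0 + h * i, y0 + h * j) : ℤ × ℤ).1 : ℝ) +
        u * (((x0 + h * (i + 1), y0 + h * j) : ℤ × ℤ).1 : ℝ) +
        v * (((x0 + h * i, y0 + h * (j + 1)) : ℤ × ℤ).1 : ℝ) = X := by
      rw [eX]
      push_cast
      ring
    have k2 : (1 - u - v) * (((x0 + h * i, y0 + h * j) : ℤ × ℤ).2 : ℝ) +
        u * (((x0 + h * (i + 1), y0 + h * j) : ℤ × ℤ).2 : ℝ) +
        v * (((x0 + h * i, y0 + h * (j + 1)) : ℤ × ℤ).2 : ℝ) = Y := by
      rw [eY]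
      push_cast
      ring
    rw [k1, k2] at h5
    exact h5
  · have h5 := s2 (u + v - 1) (1 - u) (1 - v) (by linarith) (by linarith) (by linarith) (by ring)
    have k1 : (u + v - 1) * (((x0 + h * (i + 1), y0 + h * (j + 1)) : ℤ × ℤ).1 : ℝ) +
        (1 - u) * (((x0 + h * i, y0 + h * (j + 1)) : ℤ × ℤ).1 : ℝ) +
        (1 - v) * (((x0 + h * (i + 1), y0 + h * j) : ℤ × ℤ).1 : ℝ) = X := by
      rw [eX]
      push_cast
      ring
    have k2 : (u + v - 1) * (((x0 + h * (i + 1), y0 + h * (j + 1)) : ℤ × ℤ).2 : ℝ) +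
        (1 - u) * (((x0 + h * i, y0 + h * (j + 1)) : ℤ × ℤ).2 : ℝ) +
        (1 - v) * (((x0 + h * (i + 1), y0 + h * j) : ℤ × ℤ).2 : ℝ) = Y := by
      rw [eY]
      push_cast
      ring
    rw [k1, k2] at h5
    exact h5

end Pool.Agent.TET
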