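import Pool.Agent.Helper38_TET.Feet
import Pool.Agent.Helper37_TET.Frames

/-!
# MP_c7c9bf_co: the Gram matrix of the gradients of the barycentric coordinates
-/

set_option autoImplicit false

namespace Pool.Agent.TET

open MeasureTheory Set Filter Pool.Agent.UL3 Pool.Agent.UL3.H88
open scoped ENNReal Topology RealInnerProductSpace

/-- `G i` is the gradient of the `i`-th barycentric coordinate -/
structure Grad (p G : Fin 4 → E3) : Prop where
  aff : AffineIndependent ℝ p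
  sum : ∑ i, G i = 0
  edge : ∀ i j k, ⟪G i, p j - p k⟫ = (if j = i then 1 else 0) - (if k = i then (1 : ℝ) else 0)
  exp : ∀ x : E3, ∑ i, ⟪G i, x⟫ • p i = x

theorem exists_grad {p : Fin 4 → E3} (hp : AffineIndependent ℝ p) : ∃ G, Grad p G := by
  have hd : D4 2 3 0 1 := ⟨by decide, by decide, by decide, by decide, by decide, by decide⟩
  have hdet := det_ne_of_affine (hd.aff hp)
  set e : Fin 3 → E3 := ![p 0 - p 3, p 1 - p 3, p 2 - p 3] with he
  set M := Bm e with hM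
  have hu : IsUnit M.det := isUnit_iff_ne_zero.2 hdet
  have h1 : M * M⁻¹ = 1 := Matrix.mul_nonsing_inv M hu
  have h2 : M⁻¹ * M = 1 := Matrix.nonsing_inv_mul M hu
  let g : Fin 3 → E3 := fun i => WithLp.toLp 2 fun k => M⁻¹ k i
  have hg : ∀ i j : Fin 3, ⟪g i, e j⟫ = if j = i then 1 else 0 := by
    intro i j
    have h3 := congrFun (congrFun h1 j) i
    rw [Matrix.one_apply, Matrix.mul_apply] at h3
    rw [← h3, PiLp.inner_apply]
    rfl
  have hx : ∀ x : E3, ∑ i, ⟪g i, x⟫ • e i = x := by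
    intro x
    ext l
    have h3 : ∀ k, ∑ i, M⁻¹ k i * M i l = if k = l then 1 else 0 := by
      intro k
      have h4 := congrFun (congrFun h2 k) l
      rw [Matrix.one_apply, Matrix.mul_apply] at h4
      exact h4
    have h5 : (∑ i, ⟪g i, x⟫ • e i) l = ∑ i, ⟪g i, x⟫ * M i l := by
      rw [WithLp.ofLp_sum, Finset.sum_apply]
      rfl
    rw [h5]
    have h6 : ∀ i, ⟪g i, x⟫ = ∑ k, x k * M⁻¹ k i := by
      intro i
      rw [PiLp.inner_apply]
      rfl
    simp only [h6, Finset.sum_mul]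
    rw [Finset.sum_comm]
    have h7 : ∀ k, ∑ i, x k * M⁻¹ k i * M i l = x k * if k = l then 1 else 0 := by
      intro k
      rw [← h3 k, Finset.mul_sum]
      exact Finset.sum_congr rfl fun i _ => mul_assoc _ _ _
    simp only [h7]
    simp
  refine ⟨![g 0, g 1, g 2, -(g 0 + g 1 + g 2)], hp, ?_, ?_, ?_⟩
  · rw [Fin.sum_univ_four]
    show g 0 + g 1 + g 2 + -(g 0 + g 1 + g 2) = 0
    abel
  · have h3 : ∀ i j, ⟪(![g 0, g 1, g 2, -(g 0 + g 1 + g 2)] : Fin 4 → E3) i, p j - p 3⟫ =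
        (if j = i then 1 else 0) - (if (3 : Fin 4) = i then (1 : ℝ) else 0) := by
      have h00 : ⟪g 0, p 0 - p 3⟫ = 1 := hg 0 0
      have h01 : ⟪g 0, p 1 - p 3⟫ = 0 := hg 0 1
      have h02 : ⟪g 0, p 2 - p 3⟫ = 0 := hg 0 2
      have h10 : ⟪g 1, p 0 - p 3⟫ = 0 := hg 1 0
      have h11 : ⟪g 1, p 1 - p 3⟫ = 1 := hg 1 1
      have h12 : ⟪g 1, p 2 - p 3⟫ = 0 := hg 1 2
      have h20 : ⟪g 2, p 0 - p 3⟫ = 0 := hg 2 0
      have h21 : ⟪g 2, p 1 - p 3⟫ = 0 := hg 2 1
      have h22 : ⟪g 2, p 2 - p 3⟫ = 1 := hg 2 2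
      intro i j
      fin_cases i <;> fin_cases j <;>
        simp [h00, h01, h02, h10, h11, h12, h20, h21, h22, inner_neg_left, inner_add_left]
    intro i j k
    have e1 : p j - p k = (p j - p 3) - (p k - p 3) := by abel
    rw [e1, inner_sub_right, h3, h3]
    ring
  · intro x
    have h3 := hx x
    rw [Fin.sum_univ_three] at h3
    conv_rhs => rw [← h3]
    rw [Fin.sum_univ_four]
    show ⟪g 0, x⟫ • p 0 + ⟪g 1, x⟫ • p 1 + ⟪g 2, x⟫ • p 2 + ⟪-(g 0 + g 1 + g 2), x⟫ • p 3 =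
      ⟪g 0, x⟫ • (p 0 - p 3) + ⟪g 1, x⟫ • (p 1 - p 3) + ⟪g 2, x⟫ • (p 2 - p 3)
    rw [inner_neg_left, inner_add_left, inner_add_left]
    module

/-! ### Functionals -/

/-- `L f` for the Gram matrix `L` of the gradients -/
noncomputable def Lf (G : Fin 4 → E3) (f : Fin 4 → ℝ) (i : Fin 4) : ℝ := ∑ j, f j * ⟪G i, G j⟫

/-- `fᵀ L f` -/
noncomputable def qf (G : Fin 4 → E3) (f : Fin 4 → ℝ) : ℝ := ∑ i, f i * Lf G f i

theorem inner_gf (G : Fin 4 → E3) (f : Fin 4 → ℝ) (i : Fin 4) : ⟪G i, ∑ j, f j • G j⟫ = Lf G f i := by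
  unfold Lf
  rw [inner_sum]
  exact Finset.sum_congr rfl fun j _ => real_inner_smul_right _ _ _

theorem inner_ff (G : Fin 4 → E3) (f : Fin 4 → ℝ) :
    ⟪∑ j, f j • G j, ∑ j, f j • G j⟫ = qf G f := by
  unfold qf
  rw [sum_inner]
  refine Finset.sum_congr rfl fun i _ => ?_
  rw [real_inner_smul_left, inner_gf]

theorem inner_fp {p G : Fin 4 → E3} (h : Grad p G) (f : Fin 4 → ℝ) (j k : Fin 4) :
    ⟪∑ i, f i • G i, p j - p k⟫ = f j - f k := by
  rw [sum_inner]
  have h1 : ∀ i, ⟪f i • G i, p j - p k⟫ =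
      (if j = i then f i else 0) - (if k = i then f i else 0) := by
    intro i
    rw [real_inner_smul_left, h.edge]
    split_ifs <;> ring
  simp only [h1, Finset.sum_sub_distrib]
  simp

theorem Grad.sumL {p G : Fin 4 → E3} (h : Grad p G) (f : Fin 4 → ℝ) : ∑ i, Lf G f i = 0 := by
  have h1 : ∑ i, Lf G f i = ⟪∑ i, G i, ∑ j, f j • G j⟫ := by
    rw [sum_inner]
    exact Finset.sum_congr rfl fun i _ => (inner_gf G f i).symm
  rw [h1, h.sum, inner_zero_left]

/-- a vector through its barycentric coordinates -/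
theorem Grad.expand {p G : Fin 4 → E3} (h : Grad p G) {i j k l : Fin 4} (hd : D4 i j k l) (x : E3) :
    ⟪G j, x⟫ • (p j - p i) + ⟪G k, x⟫ • (p k - p i) + ⟪G l, x⟫ • (p l - p i) = x := by
  have h1 := h.exp x
  rw [hd.sum] at h1
  have h2 : ⟪G i, x⟫ = -(⟪G j, x⟫ + (⟪G k, x⟫ + ⟪G l, x⟫)) := by
    have h3 : ⟪∑ m, G m, x⟫ = 0 := by rw [h.sum, inner_zero_left]
    rw [hd.sum, inner_add_left, inner_add_left, inner_add_left] at h3
    linarith
  rw [h2] at h1
  conv_rhs => rw [← h1]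
  module

/-- a combination of the vertices with sum zero -/
theorem comb_eq {p : Fin 4 → E3} {i j k l : Fin 4} (hd : D4 i j k l) {v : Fin 4 → ℝ}
    (hv : ∑ m, v m = 0) :
    v j • (p j - p i) + v k • (p k - p i) + v l • (p l - p i) = ∑ m, v m • p m := by
  rw [hd.sum]
  rw [hd.sum] at hv
  have h1 : v i = -(v j + (v k + v l)) := by linarith
  rw [h1]
  module

theorem Grad.gf_eq {p G : Fin 4 → E3} (h : Grad p G) (f : Fin 4 → ℝ) :
    ∑ m, Lf G f m • p m = ∑ j, f j • G j := by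
  rw [← h.exp (∑ j, f j • G j)]
  exact Finset.sum_congr rfl fun i _ => by rw [inner_gf]

theorem Grad.qf_pos {p G : Fin 4 → E3} (h : Grad p G) {f : Fin 4 → ℝ} {i l : Fin 4}
    (h3 : f l - f i ≠ 0) : 0 < qf G f := by
  rw [← inner_ff]
  refine real_inner_self_pos.2 ?_
  intro h0
  have h1 := inner_fp h f l i
  rw [h0, inner_zero_left] at h1
  exact h3 h1.symm

/-! ### The three kinds of structures -/

/-- reflection in a plane with rational covector -/
theorem Grad.plane {p G : Fin 4 → E3} (h : Grad p G) {i j k l : Fin 4} (hd : D4 i j k l)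
    (f : Fin 4 → ℝ) (h3 : f l - f i ≠ 0)
    (hg : GoodV [0, 7, 4, 3] (VF (f j - f i) (f k - f i) (f l - f i) (Lf G f j / qf G f)
      (Lf G f k / qf G f))) : Dense (convexHull ℝ (Set.range p)) := by
  have hq := h.qf_pos h3
  have hi : D4 l i j k := ⟨hd.il.symm, hd.jl.symm, hd.kl.symm, hd.ij, hd.ik, hd.jk⟩
  have hn : (Lf G f j / qf G f) • (p j - p i) + (Lf G f k / qf G f) • (p k - p i) +
      (Lf G f l / qf G f) • (p l - p i) = (qf G f)⁻¹ • ∑ m, f m • G m := by
    rw [← h.gf_eq f, ← comb_eq hd (h.sumL f)]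
    module
  have hb : ∀ m, ⟪(Lf G f j / qf G f) • (p j - p i) + (Lf G f k / qf G f) • (p k - p i) +
      (Lf G f l / qf G f) • (p l - p i), p m - p i⟫ = (qf G f)⁻¹ * (f m - f i) := by
    intro m
    rw [hn, real_inner_smul_left, inner_fp h]
  rw [hi.range]
  refine transfer_f (hi.aff h.aff) h3 (z := Lf G f l / qf G f) (μ := (qf G f)⁻¹) ?_ (hb j) (hb k)
    (hb l) hg
  have h1 : (f j - f i) * (Lf G f j / qf G f) + (f k - f i) * (Lf G f k / qf G f) +
      (f l - f i) * (Lf G f l / qf G f) = qf G f / qf G f := by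
    have h2 := h.sumL f
    rw [hd.sum] at h2
    have h4 : qf G f = f i * Lf G f i + (f j * Lf G f j + (f k * Lf G f k + f l * Lf G f l)) := by
      unfold qf
      rw [hd.sum]
    have h5 : qf G f = (f j - f i) * Lf G f j + (f k - f i) * Lf G f k +
        (f l - f i) * Lf G f l := by
      linear_combination h4 + f i * h2
    conv_rhs => rw [show qf G f / qf G f = ((f j - f i) * Lf G f j + (f k - f i) * Lf G f k +
      (f l - f i) * Lf G f l) / qf G f by rw [← h5]]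
    ring
  rw [h1, div_self hq.ne']

/-- the vector of a combination is the gradient of `φ` up to a factor -/
theorem Grad.vec_eq {p G : Fin 4 → E3} (h : Grad p G) {v φ : Fin 4 → ℝ} {δ : ℝ}
    (hφ : ∀ m, Lf G φ m = δ * v m) : δ • ∑ m, v m • p m = ∑ m, φ m • G m := by
  rw [← h.gf_eq φ, Finset.smul_sum]
  exact Finset.sum_congr rfl fun m _ => by rw [hφ, smul_smul]

/-- half turn about an axis with rational direction -/
theorem Grad.axis {p G : Fin 4 → E3} (h : Grad p G) {i j k l : Fin 4} (hd : D4 i j k l)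
    {v φ : Fin 4 → ℝ} {δ : ℝ} (hv : ∑ m, v m = 0) (hδ : δ ≠ 0)
    (hφ : ∀ m, Lf G φ m = δ * v m) (h3 : v l ≠ 0)
    (hg : GoodV [0, 7, 4, 3] (VV (v j) (v k) (v l) ((φ j - φ i) / ∑ m, v m * φ m)
      ((φ k - φ i) / ∑ m, v m * φ m))) : Dense (convexHull ℝ (Set.range p)) := by
  have hi : D4 l i j k := ⟨hd.il.symm, hd.jl.symm, hd.kl.symm, hd.ij, hd.ik, hd.jk⟩
  obtain ⟨x, hx⟩ : ∃ x : E3, x = ∑ m, v m • p m := ⟨_, rfl⟩
  have hc := comb_eq (p := p) hd hv
  rw [← hx] at hc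
  have hxg : ∀ m, ⟪x, p m - p i⟫ = (φ m - φ i) / δ := by
    intro m
    rw [eq_div_iff hδ, ← inner_fp h φ m i, ← h.vec_eq hφ, ← hx, real_inner_smul_left, mul_comm]
  have hxx : ⟪x, x⟫ = (∑ m, v m * φ m) / δ := by
    have h1 : ⟪x, x⟫ = ⟪x, v j • (p j - p i) + v k • (p k - p i) + v l • (p l - p i)⟫ := by
      rw [hc]
    rw [h1, inner_add_right, inner_add_right, real_inner_smul_right, real_inner_smul_right,
      real_inner_smul_right, hxg, hxg, hxg, hd.sum]
    rw [hd.sum] at hv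
    have h2 : v i = -(v j + (v k + v l)) := by linarith
    rw [h2]
    ring
  have hx0 : x ≠ 0 := by
    intro h0
    have h1 : ⟪G l, x⟫ = v l := by
      rw [← hc, inner_add_right, inner_add_right, real_inner_smul_right, real_inner_smul_right,
        real_inner_smul_right, h.edge, h.edge, h.edge]
      simp [hd.jl, hd.kl, hd.il]
    rw [h0, inner_zero_right] at h1
    exact h3 h1.symm
  have hs0 : (∑ m, v m * φ m) ≠ 0 := by
    intro h0
    rw [h0, zero_div] at hxx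
    exact hx0 (inner_self_eq_zero.1 hxx)
  rw [hi.range]
  refine transfer_v (hi.aff h.aff) h3 ?_ ?_ hg
  · rw [hc, hxx, hxg]
    field_simp
  · rw [hc, hxx, hxg]
    field_simp

/-- the flag with edge `i j` and face `i j k` -/
theorem Grad.flag {p G : Fin 4 → E3} (h : Grad p G) {i j k l : Fin 4} (hd : D4 i j k l)
    {φ : Fin 4 → ℝ} {δ : ℝ} (hδ : δ ≠ 0)
    (hφ : ∀ m, Lf G φ m = δ * ((if m = j then 1 else 0) - (if m = i then 1 else 0)))
    (hg : GoodV [0, 7, 2, 5] (VP ((φ k - φ i) / (φ j - φ i)) (-⟪G k, G l⟫ / ⟪G l, G l⟫))) :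
    Dense (convexHull ℝ (Set.range p)) := by
  have hi : D4 l i j k := ⟨hd.il.symm, hd.jl.symm, hd.kl.symm, hd.ij, hd.ik, hd.jk⟩
  have hx0 : p j - p i ≠ 0 := by
    intro h0
    have h1 := h.edge j j i
    rw [h0, inner_zero_right] at h1
    simp [hd.ij] at h1
  have hvec : δ • (p j - p i) = ∑ m, φ m • G m := by
    rw [← h.vec_eq hφ]
    congr 1
    simp [sub_smul, Finset.sum_sub_distrib]
  have hxg : ∀ m, ⟪p j - p i, p m - p i⟫ = (φ m - φ i) / δ := by
    intro m
    rw [eq_div_iff hδ, ← inner_fp h φ m i, ← hvec, real_inner_smul_left, mul_comm]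
  have hj0 : φ j - φ i ≠ 0 := by
    intro h0
    have h1 := hxg j
    rw [h0, zero_div] at h1
    exact hx0 (inner_self_eq_zero.1 h1)
  have e4 : ⟪(p k - p i) - ((φ k - φ i) / (φ j - φ i)) • (p j - p i), p j - p i⟫ = 0 := by
    rw [inner_sub_left, real_inner_smul_left, real_inner_comm, hxg, hxg]
    field_simp
    ring
  have hl0 : 0 < ⟪G l, G l⟫ := by
    refine real_inner_self_pos.2 ?_
    intro h0
    have h1 := h.edge l l i
    rw [h0, inner_zero_left] at h1
    simp [hd.il] at h1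
  have e5 := h.expand hd ((p l - p i) - (⟪G l, G l⟫)⁻¹ • G l)
  have f1 : ⟪G l, (p l - p i) - (⟪G l, G l⟫)⁻¹ • G l⟫ = 0 := by
    rw [inner_sub_right, h.edge, real_inner_smul_right, inv_mul_cancel₀ hl0.ne']
    simp [hd.il]
  have f2 : ⟪G k, (p l - p i) - (⟪G l, G l⟫)⁻¹ • G l⟫ = -⟪G k, G l⟫ / ⟪G l, G l⟫ := by
    rw [inner_sub_right, h.edge, real_inner_smul_right]
    simp only [hd.kl.symm, hd.ik, if_false]
    ring
  rw [f1, f2, zero_smul, add_zero] at e5
  have g1 : ⟪G l, p j - p i⟫ = 0 := by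
    rw [h.edge]
    simp [hd.jl, hd.il]
  have g2 : ⟪G l, p k - p i⟫ = 0 := by
    rw [h.edge]
    simp [hd.kl, hd.il]
  rw [hi.range]
  refine transfer_p (hi.aff h.aff) e4 ?_ hg
  set g := (φ k - φ i) / (φ j - φ i) with hgd
  set w := -⟪G k, G l⟫ / ⟪G l, G l⟫ with hwd
  set t := ⟪G j, (p l - p i) - (⟪G l, G l⟫)⁻¹ • G l⟫ with htd
  have e6 : (p l - p i) - w • ((p k - p i) - g • (p j - p i)) =
      (⟪G l, G l⟫)⁻¹ • G l + (t + w * g) • (p j - p i) := by
    have e7 : p l - p i = (⟪G l, G l⟫)⁻¹ • G l + (t • (p j - p i) + w • (p k - p i)) := by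
      rw [e5]
      abel
    rw [e7]
    module
  have e8 : ⟪p j - p i, (p k - p i) - g • (p j - p i)⟫ = 0 := by
    rw [real_inner_comm]
    exact e4
  rw [e6, inner_add_left, real_inner_smul_left, real_inner_smul_left, e8, inner_sub_right,
    real_inner_smul_right, g1, g2]
  ring

end Pool.Agent.TET
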