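import Pool.Agent.Helper38_TET.Foot
import Pool.Agent.Helper38_TET.FrameP
import Pool.Agent.Helper38_TET.FamG
import Pool.Agent.Helper38_TET.FamPa
import Pool.Agent.Helper38_TET.FamPb

/-!
# MP_c7c9bf_co: the certified regions of the families F and P
-/

set_option autoImplicit false

namespace Pool.Agent.TET

open MeasureTheory Set Filter Pool.Agent.UL3 Pool.Agent.UL3.H88
open scoped ENNReal Topology RealInnerProductSpace

theorem covG : CovS (InS 246313 248360 496540) [0, 7, 4, 3] (famF (1 / 3) (1 / 3))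
    (famF (1 / 2) 0) (famF 0 0) := by
  have h := FamG_root
  simp only [vq_famF] at h
  norm_num at h
  exact h

theorem famF_bary (a1 a2 b1 b2 c1 c2 x y z v w : ℝ) (hs : x + y + z = 1)
    (hv : v = x * a1 + y * b1 + z * c1) (hw : w = x * a2 + y * b2 + z * c2) :
    x • famF a1 a2 + y • famF b1 b2 + z • famF c1 c2 = famF v w := by
  funext i j
  fin_cases i <;> fin_cases j
  · show x * 1 + y * 1 + z * 1 = 1
    linarith
  · show x * 0 + y * 0 + z * 0 = 0
    ring
  · show x * 0 + y * 0 + z * 0 = 0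
    ring
  · show x * 0 + y * 0 + z * 0 = 0
    ring
  · show x * 1 + y * 1 + z * 1 = 1
    linarith
  · show x * 0 + y * 0 + z * 0 = 0
    ring
  · exact hv.symm
  · exact hw.symm
  · show x * 1 + y * 1 + z * 1 = 1
    linarith

/-- family F on the whole closed face: good or in the spot near a vertex -/
theorem GF_or {u v w : ℝ} (hs : u + v + w = 1) (hw : 0 ≤ w) (h1 : w ≤ v) (h2 : v ≤ u) :
    GF v w ∨ (9 / 500 ≤ w ∧ v ≤ 847 / 10000 ∧ v + w ≤ 1635 / 10000) := by
  have h := covG (3 * w) (2 * (v - w)) (1 - w - 2 * v) (by linarith) (by linarith)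
    (by linarith) (by linarith)
  rw [famF_bary _ _ _ _ _ _ _ _ _ v w (by linarith) (by linarith) (by linarith)] at h
  rcases h with h | h
  · right
    obtain ⟨⟨h3, h4⟩, ⟨h5, h6⟩, h7⟩ := h
    have e1 : famF v w 2 0 = v := rfl
    have e2 : famF v w 2 1 = w := rfl
    rw [e1] at h3 h4 h7
    rw [e2] at h5 h6 h7
    norm_num at h3 h4 h5 h6 h7
    refine ⟨?_, ?_, ?_⟩ <;> linarith
  · left
    exact h

theorem covPa : Cov [0, 7, 2, 5] (famP (1 / 60) (1 / 60)) (famP (1 / 6) (1 / 60))
    (famP (1 / 6) (1 / 12)) := by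
  have h := FamPa_root
  simp only [vq_famP] at h
  norm_num at h
  exact h

theorem covPb : CovS (InW 248280) [0, 7, 2, 5] (famP (1 / 60) (1 / 60)) (famP (1 / 6) (1 / 12))
    (famP (3 / 20) (1 / 12)) := by
  have h := FamPb_root
  simp only [vq_famP] at h
  norm_num at h
  exact h

/-- family P on the quadrilateral of the non-obtuse case -/
theorem GP_quad {g w : ℝ} (hw : 1 / 60 ≤ w) (hw' : w ≤ 41 / 500) (hg : 2 * w - 1 / 60 ≤ g)
    (hg' : g ≤ 1 / 6) : GP g w := by
  rcases le_total (9 / 4 * w - 1 / 48) g with h | h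
  · have h1 := covPa (1 - 20 / 3 * (g - 1 / 60)) (20 / 3 * (g - 1 / 60) - (15 * w - 1 / 4))
      (15 * w - 1 / 4) (by linarith) (by linarith) (by linarith) (by linarith)
    rw [famP_bary _ _ _ _ _ _ _ _ _ g w (by linarith) (by linarith) (by linarith)] at h1
    exact h1
  · have h1 := covPb (5 / 4 - 15 * w) (60 * g - 120 * w + 1) (135 * w - 60 * g - 5 / 4)
      (by linarith) (by linarith) (by linarith) (by linarith)
    rw [famP_bary _ _ _ _ _ _ _ _ _ g w (by linarith) (by linarith) (by linarith)] at h1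
    rcases h1 with h1 | h1
    · exfalso
      have e2 : famP g w 2 1 = w := rfl
      unfold InW at h1
      rw [e2] at h1
      norm_num at h1
      linarith
    · exact h1

end Pool.Agent.TET
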