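import Pool.Agent.Helper38_TET.Feet
import Pool.Agent.Helper38_TET.Region

/-!
# MP_c7c9bf_co: feet outside of the spots, and tetrahedra without obtuse dihedral angle
-/

set_option autoImplicit false

namespace Pool.Agent.TET

open MeasureTheory Set Filter Pool.Agent.UL3 Pool.Agent.UL3.H88
open scoped ENNReal Topology RealInnerProductSpace

/-- a foot in the face: good, or in the spot near the vertex `j` -/
theorem Feet.face {p : Fin 4 → E3} {b : Fin 4 → Fin 4 → ℝ} (h : Feet p b) (i : Fin 4)
    (hb : ∀ j, 0 ≤ b i j) : Dense (convexHull ℝ (Set.range p)) ∨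
      ∃ j k l, D4 i j k l ∧ 9 / 500 ≤ b i l ∧ b i l ≤ b i k ∧ b i k ≤ 847 / 10000 ∧
        b i k + b i l ≤ 1635 / 10000 := by
  obtain ⟨j, k, l, hd, h1, h2⟩ := D4.sorted i (b i)
  have hf := h.foot hd
  rcases GF_or hf.sum (hb l) h1 h2 with h3 | ⟨h3, h4, h5⟩
  · left
    rw [hd.range]
    exact hf.dense h3
  · right
    exact ⟨j, k, l, hd, h3, h1, h4, h5⟩

/-- one foot in the face, outside of the spots near the vertices -/
theorem Feet.one {p : Fin 4 → E3} {b : Fin 4 → Fin 4 → ℝ} (h : Feet p b) (i : Fin 4)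
    (hb : ∀ j, 0 ≤ b i j)
    (hn : ∀ j k, j ≠ k → 9 / 500 ≤ b i j → b i j ≤ 17 / 200 → 9 / 500 ≤ b i k →
      b i k ≤ 17 / 200 → False) : Dense (convexHull ℝ (Set.range p)) := by
  rcases h.face i hb with h1 | ⟨j, k, l, hd, h1, h2, h3, h4⟩
  · exact h1
  · exact (hn k l hd.kl (by linarith) (by linarith) (by linarith) (by linarith)).elim

/-- the flag with edge `k j`, face `j k l` -/
theorem Feet.flag {p : Fin 4 → E3} {b : Fin 4 → Fin 4 → ℝ} (h : Feet p b) {i j k l : Fin 4}
    (hd : D4 i j k l) {g : ℝ} (hg : g * (1 - b l i * b i l) = b l j + b l i * b i j)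
    (hc : 1 - b l i * b i l ≠ 0) (hG : GP g (b i l)) : Dense (convexHull ℝ (Set.range p)) := by
  have hd2 : D4 i k j l := hd.swap23
  rw [hd2.range]
  have o1 : ⟪alt p b l, p j - p k⟫ = 0 := h.orth l j k hd.jl hd.kl
  have o2 : ⟪alt p b i, p j - p k⟫ = 0 := h.orth i j k hd.ij.symm hd.ik.symm
  have o3 : ⟪alt p b i, p l - p k⟫ = 0 := h.orth i l k hd.il.symm hd.ik.symm
  -- the altitude from `l`
  have hdl : D4 l i j k := ⟨hd.il.symm, hd.jl.symm, hd.kl.symm, hd.ij, hd.ik, hd.jk⟩
  have e1 : alt p b l = (p l - p k) - b l j • (p j - p k) - b l i • (p i - p k) := by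
    unfold alt
    rw [h.c4 hdl]
    have h1 : b l k = 1 - b l i - b l j := by
      have := h.s4 hdl
      linarith
    rw [h1]
    module
  have e2 : p i - p k = alt p b i + b i j • (p j - p k) + b i l • (p l - p k) := by
    unfold alt
    rw [h.c4 hd]
    have h1 : b i k = 1 - b i j - b i l := by
      have := h.s4 hd
      linarith
    rw [h1]
    module
  have e3 : (1 - b l i * b i l) * ⟪p l - p k, p j - p k⟫ =
      (b l j + b l i * b i j) * ⟪p j - p k, p j - p k⟫ := by
    have h1 := o1
    rw [e1, e2, inner_sub_left, inner_sub_left, inner_smul_left, inner_smul_left, inner_add_left,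
      inner_add_left, inner_smul_left, inner_smul_left, o2] at h1
    simp only [conj_trivial] at h1
    linear_combination h1
  have e4 : ⟪p l - p k - g • (p j - p k), p j - p k⟫ = 0 := by
    rw [inner_sub_left, inner_smul_left]
    simp only [conj_trivial]
    have h1 : (1 - b l i * b i l) * (⟪p l - p k, p j - p k⟫ - g * ⟪p j - p k, p j - p k⟫) = 0 := by
      linear_combination e3 - ⟪p j - p k, p j - p k⟫ * hg
    exact (mul_eq_zero.1 h1).resolve_left hc
  refine transferP (hd2.aff h.aff) e4 ?_ hG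
  have e5 : p i - p k - b i l • (p l - p k - g • (p j - p k)) =
      alt p b i + (b i j + b i l * g) • (p j - p k) := by
    rw [e2]
    module
  have e6 : ⟪p j - p k, p l - p k - g • (p j - p k)⟫ = 0 := by
    rw [real_inner_comm]
    exact e4
  rw [e5, inner_add_left, inner_smul_left, e6, mul_zero, add_zero, inner_sub_right,
    inner_smul_right, o3, o2]
  ring

/-- no obtuse dihedral angle -/
theorem Feet.all {p : Fin 4 → E3} {b : Fin 4 → Fin 4 → ℝ} (h : Feet p b)
    (hb : ∀ i j, 0 ≤ b i j) : Dense (convexHull ℝ (Set.range p)) := by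
  by_cases hD : Dense (convexHull ℝ (Set.range p))
  · exact hD
  have hN : ∀ i, 0 < ⟪alt p b i, alt p b i⟫ := h.alt_pos
  set N : Fin 4 → ℝ := fun i => ⟪alt p b i, alt p b i⟫ with hNd
  have hpos : ∀ i, 0 < (N i)⁻¹ := fun i => inv_pos.2 (hN i)
  have hsym : ∀ i j, b i j * (N i)⁻¹ = b j i * (N j)⁻¹ := by
    intro i j
    by_cases hij : i = j
    · rw [hij]
    · have h1 := h.symm hij
      have h2 := (hN i).ne'
      have h3 := (hN j).ne'
      change N i ≠ 0 at h2
      change N j ≠ 0 at h3
      change b i j * N j = b j i * N i at h1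
      field_simp
      linarith
  have hdiv : ∀ i j, b i j * (N i)⁻¹ / (N i)⁻¹ = b i j := fun i j =>
    mul_div_cancel_right₀ _ (hpos i).ne'
  obtain ⟨i, j, k, l, h1, h2, h3, h4, h5, h6, h7, h8, h9, h10, h11⟩ :=
    CA.caseA (c := fun i j => b i j * (N i)⁻¹) (h := fun i => (N i)⁻¹) hsym
      (fun i j _ => mul_nonneg (hb i j) (hpos i).le)
      (by
        intro i j k l h1 h2 h3 h4 h5 h6
        have := h.s4 ⟨h1, h2, h3, h4, h5, h6⟩
        have e : (N i)⁻¹ = (b i j + (b i k + b i l)) * (N i)⁻¹ := by rw [this, one_mul]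
        show (N i)⁻¹ = b i j * (N i)⁻¹ + b i k * (N i)⁻¹ + b i l * (N i)⁻¹
        rw [e]
        rw [this]
        ring_nf
        have e2 : b i j = 1 - (b i k + b i l) := by linarith
        rw [e2]
        ring)
      hpos
      (by
        intro i
        rcases h.face i (hb i) with g1 | ⟨j, k, l, hd, g1, g2, g3, g4⟩
        · exact absurd g1 hD
        · refine ⟨j, hd.ij.symm, ?_, ?_, ?_⟩
          · have := h.s4 hd
            exact mul_le_mul_of_nonneg_right (by linarith) (hpos i).le
          · intro m hmi hmj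
            have h4 : m ∈ ({i, j, k, l} : Finset (Fin 4)) := by
              rw [← hd.univ]
              exact Finset.mem_univ m
            simp only [Finset.mem_insert, Finset.mem_singleton] at h4
            rcases h4 with h4 | h4 | h4 | h4
            · exact absurd h4 hmi
            · exact absurd h4 hmj
            · exact mul_le_mul_of_nonneg_right (by rw [h4]; linarith) (hpos i).le
            · exact mul_le_mul_of_nonneg_right (by rw [h4]; linarith) (hpos i).le
          · intro m hmi hmj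
            have h4 : m ∈ ({i, j, k, l} : Finset (Fin 4)) := by
              rw [← hd.univ]
              exact Finset.mem_univ m
            simp only [Finset.mem_insert, Finset.mem_singleton] at h4
            rcases h4 with h4 | h4 | h4 | h4
            · exact absurd h4 hmi
            · exact absurd h4 hmj
            · exact mul_le_mul_of_nonneg_right (by rw [h4]; linarith) (hpos i).le
            · exact mul_le_mul_of_nonneg_right (by rw [h4]; linarith) (hpos i).le)
  have hd : D4 i j k l := ⟨h1, h2, h3, h4, h5, h6⟩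
  simp only [hdiv] at h8 h9 h10
  -- the formula for g
  have pi := hpos i
  have pl := hpos l
  have q1 : (N l)⁻¹ * (N i)⁻¹ - (b l i * (N l)⁻¹) ^ 2 =
      (N l)⁻¹ * (N i)⁻¹ * (1 - b l i * b i l) := by
    have : (b l i * (N l)⁻¹) ^ 2 = (b l i * (N l)⁻¹) * (b i l * (N i)⁻¹) := by
      rw [sq, hsym i l]
    rw [this]
    ring
  simp only [q1] at h7 h10 h11
  have q2 : 0 < 1 - b l i * b i l := by
    by_contra hcon
    push Not at hcon
    have := mul_nonpos_of_nonneg_of_nonpos (mul_pos pl pi).le hcon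
    linarith
  refine h.flag hd (g := (b l j * (N l)⁻¹ * (N i)⁻¹ + b l i * (N l)⁻¹ * (b i j * (N i)⁻¹)) /
    ((N l)⁻¹ * (N i)⁻¹ * (1 - b l i * b i l))) ?_ q2.ne' (GP_quad h8 h9 h10 h11)
  have q3 : (N l)⁻¹ * (N i)⁻¹ ≠ 0 := (mul_pos pl pi).ne'
  have q4 : (1 - b l i * b i l) ≠ 0 := q2.ne'
  rw [div_mul_eq_mul_div, div_eq_iff (mul_ne_zero q3 q4)]
  ring

end Pool.Agent.TET
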