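import Pool.Agent.Helper88_UL3.LPD

/-!
# MP_c7c9bf_co: the density of a periodic packing with `N` copies per cell
-/

set_option autoImplicit false

namespace Pool.Agent.TET

open MeasureTheory Set Filter Pool.Agent.UL3 Pool.Agent.UL3.H88
open scoped ENNReal Topology

/-- the copies -/
noncomputable def g {N : ℕ} (v : Fin 3 → E3) (L : Fin N → (E3 ≃ₗᵢ[ℝ] E3)) (c : Fin N → E3)
    (p : (Fin 3 → ℤ) × Fin N) : E3 ≃ᵢ E3 :=
  (L p.2).toIsometryEquiv.trans (IsometryEquiv.addRight (c p.2 + lam v p.1))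

section

variable {K : Set E3} {v : Fin 3 → E3} {N : ℕ} {L : Fin N → (E3 ≃ₗᵢ[ℝ] E3)} {c : Fin N → E3}

theorem g_apply (v : Fin 3 → E3) (L : Fin N → (E3 ≃ₗᵢ[ℝ] E3)) (c : Fin N → E3)
    (p : (Fin 3 → ℤ) × Fin N) (x : E3) : g v L c p x = L p.2 x + (c p.2 + lam v p.1) := rfl

theorem g_int (v : Fin 3 → E3) (L : Fin N → (E3 ≃ₗᵢ[ℝ] E3)) (c : Fin N → E3)
    (p : (Fin 3 → ℤ) × Fin N) (K : Set E3) :
    interior ((g v L c p) '' K) = (g v L c p) '' interior K :=
  ((g v L c p).toHomeomorph.image_interior K).symm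

/-- disjointness of the copies -/
def Dis (K : Set E3) (v : Fin 3 → E3) (L : Fin N → (E3 ≃ₗᵢ[ℝ] E3)) (c : Fin N → E3) : Prop :=
  ∀ (i j : Fin N) (n : Fin 3 → ℤ), (i = j → n ≠ 0) → ∀ x ∈ interior K, ∀ y ∈ interior K,
    L i x + c i ≠ L j y + (c j + lam v n)

theorem disj (h : Dis K v L c) {p q : (Fin 3 → ℤ) × Fin N} (hpq : p ≠ q) :
    Disjoint ((g v L c p) '' interior K) ((g v L c q) '' interior K) := by
  rw [Set.disjoint_left]
  rintro _ ⟨x, hx, rfl⟩ ⟨y, hy, hxy⟩
  obtain ⟨m, i⟩ := p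
  obtain ⟨n, j⟩ := q
  rw [g_apply, g_apply] at hxy
  refine h i j (n - m) ?_ x hx y hy ?_
  · rintro rfl h0
    exact hpq (by rw [sub_eq_zero.1 h0])
  · rw [lam_sub]
    have h1 : L i x + c i = L i x + (c i + lam v m) - lam v m := by abel
    rw [h1]
    have h2 : L i x + (c i + lam v m) = L j y + (c j + lam v n) := hxy.symm
    rw [h2]
    abel

theorem g_meas (v : Fin 3 → E3) (L : Fin N → (E3 ≃ₗᵢ[ℝ] E3)) (c : Fin N → E3)
    (p : (Fin 3 → ℤ) × Fin N) (S : Set E3) :
    (volume : Measure E3) ((g v L c p) '' S) = volume S := by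
  have h1 : (g v L c p) '' S = (fun x => x + (c p.2 + lam v p.1)) '' ((L p.2) '' S) := by
    rw [image_image]
    rfl
  rw [h1, meas_shift]
  have h2 : (L p.2) '' S = (L p.2).symm ⁻¹' S := by
    ext y
    constructor
    · rintro ⟨x, hx, rfl⟩
      show (L p.2).symm (L p.2 x) ∈ S
      rwa [LinearIsometryEquiv.symm_apply_apply]
    · intro hy
      exact ⟨(L p.2).symm y, hy, LinearIsometryEquiv.apply_symm_apply _ _⟩
  rw [h2]
  exact ((L p.2).symm.measurePreserving).measure_preimage_equiv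
    (f := ((L p.2).symm.toHomeomorph).toMeasurableEquiv) S

/-- the packing -/
theorem packN (hcv : Convex ℝ K) (h : Dis K v L c)
    {ρ D : ℝ} (hρ : ∀ x ∈ K, ‖x‖ ≤ ρ) (hD : ∀ i, ‖c i‖ ≤ D) (s : ℝ) (A : Set E3)
    (hA : ∀ p, (g v L c p) '' K ⊆ A) :
    N * num v s * volume K ≤ (volume : Measure E3) (A ∩ Metric.ball 0 (s + (ρ + D))) := by
  have h1 : (⋃ q : Near v s × Fin N, (g v L c (q.1.1, q.2)) '' interior K) ⊆
      A ∩ Metric.ball 0 (s + (ρ + D)) := by
    refine iUnion_subset fun q => ?_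
    rintro _ ⟨x, hx, rfl⟩
    refine ⟨hA _ ⟨x, interior_subset hx, rfl⟩, ?_⟩
    rw [Metric.mem_ball, dist_zero_right]
    have h2 := hρ x (interior_subset hx)
    have h3 := q.1.2
    obtain ⟨⟨n, hn⟩, b⟩ := q
    have h4 := hD b
    rw [g_apply]
    have h5 : ‖L b x + (c b + lam v n)‖ ≤ ‖x‖ + (‖c b‖ + ‖lam v n‖) := by
      refine (norm_add_le _ _).trans ?_
      rw [LinearIsometryEquiv.norm_map]
      exact add_le_add_right (norm_add_le _ _) _
    exact lt_of_le_of_lt h5 (by linarith)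
  have h2 : (volume : Measure E3) K = volume (interior K) :=
    (measure_congr (interior_ae_eq_of_null_frontier (hcv.addHaar_frontier volume))).symm
  refine le_trans (le_of_eq ?_) (measure_mono h1)
  rw [measure_iUnion]
  · have h3 : ∑' q : Near v s × Fin N, (volume : Measure E3) ((g v L c (q.1.1, q.2)) '' interior K)
        = ∑' _ : Near v s × Fin N, volume K := by
      refine tsum_congr fun q => ?_
      rw [g_meas, h2]
    have h5 : ∑' _ : Near v s × Fin N, (volume : Measure E3) K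
        = ∑' _ : Near v s, ∑' _ : Fin N, (volume : Measure E3) K :=
      ENNReal.tsum_prod (f := fun (_ : Near v s) (_ : Fin N) => (volume : Measure E3) K)
    rw [h3, h5]
    have h4 : ∀ _ : Near v s, ∑' _ : Fin N, (volume : Measure E3) K = N * volume K := by
      intro _
      rw [tsum_fintype, Finset.sum_const, Finset.card_univ, Fintype.card_fin, nsmul_eq_mul]
    rw [tsum_congr h4]
    unfold num
    rw [mul_assoc, ← ENNReal.tsum_mul_right, ← ENNReal.tsum_mul_left]
    refine tsum_congr fun n => ?_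
    rw [one_mul]
  · intro p q hpq
    refine disj h ?_
    intro h
    apply hpq
    obtain ⟨⟨m, hm⟩, a⟩ := p
    obtain ⟨⟨n, hn⟩, b⟩ := q
    have e1 : m = n := congrArg Prod.fst h
    have e2 : a = b := congrArg Prod.snd h
    subst e1
    subst e2
    rfl
  · intro q
    have h3 : IsOpen ((g v L c (q.1.1, q.2)) '' interior K) :=
      (g v L c (q.1.1, q.2)).toHomeomorph.isOpenMap _ isOpen_interior
    exact h3.measurableSet

end

/-- the conclusion of the frozen statement for the body `K` -/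
def Dense (K : Set E3) : Prop :=
  ∃ f : ℕ → (E3 ≃ᵢ E3),
    (∀ i j : ℕ, i ≠ j → Disjoint (interior ((f i) '' K)) (interior ((f j) '' K))) ∧
    ENNReal.ofReal (Real.pi / (3 * Real.sqrt 2)) ≤ Filter.limsup
      (fun R : ℝ => volume ((⋃ i : ℕ, (f i) '' K) ∩ Metric.ball (0 : E3) R) /
        volume (Metric.ball (0 : E3) R)) Filter.atTop

/-- a periodic packing with `N` copies per cell -/
theorem pdn0 {K : Set E3} (hK : IsCompact K) (hcv : Convex ℝ K) {v : Fin 3 → E3} {N : ℕ}
    (hN : 0 < N) {L : Fin N → (E3 ≃ₗᵢ[ℝ] E3)} {c : Fin N → E3} (hdt : 0 < dt v)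
    (h : Dis K v L c) (hd : Real.pi / (3 * Real.sqrt 2) ≤ N * V K / (8 * dt v)) : Dense K := by
  obtain ⟨b, hb, hF⟩ := exists_basis v hdt
  have : Nonempty (Fin N) := ⟨⟨0, hN⟩⟩
  obtain ⟨e⟩ : Nonempty (ℕ ≃ (Fin 3 → ℤ) × Fin N) := nonempty_equiv_of_countable
  refine ⟨fun i => g v L c (e i), ?_, ?_⟩
  · intro i j hij
    rw [g_int, g_int]
    exact disj h fun h => hij (e.injective h)
  · refine (ENNReal.ofReal_le_ofReal hd).trans ?_
    obtain ⟨d, hd⟩ := (ZSpan.fundamentalDomain_isBounded b).exists_norm_le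
    obtain ⟨ρ₀, hρ₀⟩ := hK.isBounded.exists_norm_le
    obtain ⟨D₀, hD₀⟩ : ∃ D : ℝ, ∀ i, ‖c i‖ ≤ D := by
      refine ⟨∑ i, ‖c i‖, fun i => ?_⟩
      exact Finset.single_le_sum (f := fun i => ‖c i‖) (fun _ _ => norm_nonneg _)
        (Finset.mem_univ i)
    obtain ⟨ρ, hρe⟩ : ∃ ρ : ℝ, ρ = ρ₀ + D₀ := ⟨_, rfl⟩
    obtain ⟨D, hD⟩ : ∃ D : ℝ, D = max (d + ρ) 0 := ⟨_, rfl⟩
    have hD0 : 0 ≤ D := by rw [hD]; exact le_max_right _ _
    have hD1 : d + ρ ≤ D := by rw [hD]; exact le_max_left _ _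
    rw [← (lower_tendsto (N * V K / (8 * dt v)) D).limsup_eq]
    refine limsup_le_limsup ?_
    filter_upwards [eventually_gt_atTop D] with R hR
    have hR0 : 0 < R := lt_of_le_of_lt hD0 hR
    have hBall : ∀ r : ℝ, 0 ≤ r → (volume : Measure E3) (Metric.ball 0 r) =
        ENNReal.ofReal (r ^ 3) * volume (Metric.ball (0 : E3) 1) := by
      intro r hr
      have h := Measure.addHaar_ball (volume : Measure E3) 0 hr
      rwa [finrank_euclideanSpace, Fintype.card_fin] at h
    have hβ0 : (volume : Measure E3) (Metric.ball 0 R) ≠ 0 :=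
      (Metric.measure_ball_pos volume _ hR0).ne'
    have hβt : (volume : Measure E3) (Metric.ball 0 R) ≠ ⊤ := measure_ball_lt_top.ne
    have hVK : (volume : Measure E3) K = ENNReal.ofReal (V K) :=
      (ofReal_measureReal hK.measure_lt_top.ne).symm
    have h1 := cover hb hd (R - D)
    have h2 := packN hcv h hρ₀ hD₀ (R - D + d)
      (⋃ i : ℕ, (g v L c (e i)) '' K) (by
        intro p
        refine subset_iUnion_of_subset (e.symm p) ?_
        rw [Equiv.apply_symm_apply])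
    rw [← hρe] at h2
    have h3 : (volume : Measure E3) ((⋃ i : ℕ, (g v L c (e i)) '' K) ∩
        Metric.ball 0 (R - D + d + ρ)) ≤
        (volume : Measure E3) ((⋃ i : ℕ, (g v L c (e i)) '' K) ∩ Metric.ball 0 R) :=
      measure_mono (inter_subset_inter_right _ (Metric.ball_subset_ball (by linarith)))
    have h4 := h2.trans h3
    rw [hF] at h1
    rw [hVK] at h4
    rw [hBall _ (by linarith)] at h1
    rw [ENNReal.le_div_iff_mul_le (Or.inl hβ0) (Or.inl hβt), hBall R hR0.le]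
    have h8 : 0 < 8 * dt v := by positivity
    have hV0 : 0 ≤ V K := measureReal_nonneg
    have hRD : 0 ≤ R - D := by linarith
    have h5 : ENNReal.ofReal (N * V K / (8 * dt v) * ((R - D) / R) ^ 3) *
        (ENNReal.ofReal (R ^ 3) * volume (Metric.ball (0 : E3) 1)) =
        ENNReal.ofReal ((R - D) ^ 3) * volume (Metric.ball (0 : E3) 1) *
          (N * ENNReal.ofReal (V K)) / ENNReal.ofReal (8 * dt v) := by
      have e1 : N * V K / (8 * dt v) * ((R - D) / R) ^ 3 * R ^ 3 =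
          (R - D) ^ 3 * (N * V K) / (8 * dt v) := by
        field_simp
      rw [← mul_assoc, ← ENNReal.ofReal_mul (by positivity), e1,
        ENNReal.ofReal_div_of_pos h8, ENNReal.ofReal_mul (by positivity),
        ENNReal.ofReal_mul (by positivity), ENNReal.ofReal_natCast]
      simp only [div_eq_mul_inv]
      ring
    rw [h5]
    refine ENNReal.div_le_of_le_mul' ?_
    calc ENNReal.ofReal ((R - D) ^ 3) * volume (Metric.ball (0 : E3) 1) *
          (N * ENNReal.ofReal (V K))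
        ≤ num v (R - D + d) * ENNReal.ofReal (8 * dt v) * (N * ENNReal.ofReal (V K)) :=
          mul_le_mul_left h1 _
      _ = ENNReal.ofReal (8 * dt v) * (N * num v (R - D + d) * ENNReal.ofReal (V K)) := by ring
      _ ≤ _ := mul_le_mul_right h4 _

/-- a periodic packing with `N` copies per cell, lattice generated by `v` -/
theorem pdn {K : Set E3} (hK : IsCompact K) (hcv : Convex ℝ K) {v : Fin 3 → E3} {N : ℕ}
    (hN : 0 < N) {L : Fin N → (E3 ≃ₗᵢ[ℝ] E3)} {c : Fin N → E3} (hdt : 0 < dt v)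
    (h : ∀ (i j : Fin N) (n : Fin 3 → ℤ), (i = j → n ≠ 0) → ∀ x ∈ interior K, ∀ y ∈ interior K,
      L i x + c i ≠ L j y + (c j + ∑ a, (n a : ℝ) • v a))
    (hd : Real.pi / (3 * Real.sqrt 2) ≤ N * V K / dt v) : Dense K := by
  have h1 : 8 * dt (fun a => (1 / 2 : ℝ) • v a) = dt v := by
    unfold dt
    have h2 : (Matrix.of fun i j => ((1 / 2 : ℝ) • v i) j) =
        (1 / 2 : ℝ) • (Matrix.of fun i j => v i j) := by
      ext i j
      rfl
    rw [h2, Matrix.det_smul, Fintype.card_fin, abs_mul]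
    norm_num
    ring
  refine pdn0 hK hcv hN (v := fun a => (1 / 2 : ℝ) • v a) (by linarith) (L := L) (c := c) ?_
    (by rw [h1]; exact hd)
  intro i j n hn x hx y hy hxy
  apply h i j n hn x hx y hy
  rw [hxy]
  congr 2
  unfold lam
  rw [Finset.smul_sum]
  refine Finset.sum_congr rfl fun a _ => ?_
  rw [smul_smul, smul_smul]
  congr 1
  ring

end Pool.Agent.TET
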