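import Pool.Agent.Helper38_TET.Chk

/-!
# MP_c7c9bf_co: packed numbers
-/

set_option autoImplicit false

namespace Pool.Agent.TET

/-- packed numbers, fields of 40 bits -/
def pack : List ℕ → ℕ
  | [] => 0
  | z :: l => z + 2 ^ 40 * pack l

theorem pack_add {α : Type} (L : List α) (g h : α → ℕ) :
    pack (L.map fun x => g x + h x) = pack (L.map g) + pack (L.map h) := by
  induction L with
  | nil => rfl
  | cons a L ih =>
    simp only [List.map_cons, pack, ih]
    ring

theorem pack_mul {α : Type} (L : List α) (k : ℕ) (g : α → ℕ) :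
    pack (L.map fun x => k * g x) = k * pack (L.map g) := by
  induction L with
  | nil => rfl
  | cons a L ih =>
    simp only [List.map_cons, pack, ih]
    ring

theorem pack_sub {α : Type} (L : List α) (g h : α → ℕ) (hle : ∀ x ∈ L, h x ≤ g x) :
    pack (L.map fun x => g x - h x) = pack (L.map g) - pack (L.map h) := by
  have h1 : pack (L.map g) = pack (L.map fun x => g x - h x) + pack (L.map h) := by
    rw [← pack_add]
    congr 1
    exact List.map_congr_left fun x hx => (Nat.sub_add_cancel (hle x hx)).symm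
  rw [h1, Nat.add_sub_cancel]

theorem pack_testBit (l : List ℕ) (hl : ∀ z ∈ l, z < 2 ^ 40) (p : ℕ) (hp : p < l.length) :
    (pack l).testBit (40 * p + 39) = (l[p]).testBit 39 := by
  induction l generalizing p with
  | nil => exact absurd hp (Nat.not_lt_zero _)
  | cons z l ih =>
    have hz : z < 2 ^ 40 := hl z (List.mem_cons_self ..)
    show (z + 2 ^ 40 * pack l).testBit (40 * p + 39) = _
    rw [add_comm, Nat.testBit_two_pow_mul_add _ hz]
    cases p with
    | zero => simp
    | succ p =>
      have h1 : ¬ 40 * (p + 1) + 39 < 40 := by omega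
      have h2 : 40 * (p + 1) + 39 - 40 = 40 * p + 39 := by omega
      rw [if_neg h1, h2, List.getElem_cons_succ]
      exact ih (fun z hz => hl z (List.mem_cons_of_mem _ hz)) p _

theorem testBit_39 (z : ℕ) (hz : z < 2 ^ 40) : z.testBit 39 = decide (549755813888 ≤ z) := by
  rw [Nat.testBit_eq_decide_div_mod_eq, decide_eq_decide]
  omega

/-- the vectors with coordinates in `[0, 2 m]` -/
def cube (m : ℕ) : List (ℕ × ℕ × ℕ) :=
  (List.range (2 * m + 1)).flatMap fun a => (List.range (2 * m + 1)).flatMap fun b =>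
    (List.range (2 * m + 1)).map fun c => (a, b, c)

theorem mem_cube {m : ℕ} {n : ℕ × ℕ × ℕ} :
    n ∈ cube m ↔ n.1 ≤ 2 * m ∧ n.2.1 ≤ 2 * m ∧ n.2.2 ≤ 2 * m := by
  unfold cube
  simp only [List.mem_flatMap, List.mem_range, List.mem_map]
  constructor
  · rintro ⟨a, ha, b, hb, c, hc, rfl⟩
    refine ⟨?_, ?_, ?_⟩
    · show a ≤ 2 * m
      omega
    · show b ≤ 2 * m
      omega
    · show c ≤ 2 * m
      omega
  · rintro ⟨h1, h2, h3⟩
    exact ⟨n.1, by omega, n.2.1, by omega, n.2.2, by omega, rfl⟩

/-- `n > (m, m, m)` in the lexicographic order -/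
def lex (m : ℕ) (n : ℕ × ℕ × ℕ) : Bool :=
  decide (m < n.1) || (decide (n.1 = m) && (decide (m < n.2.1) || (decide (n.2.1 = m) &&
    decide (m < n.2.2))))

/-- the constants are right -/
structure Kc.Ok (K : Kc) : Prop where
  m : K.m ≤ 10
  x1 : K.x1 = pack ((cube K.m).map fun n => n.1)
  x2 : K.x2 = pack ((cube K.m).map fun n => n.2.1)
  x3 : K.x3 = pack ((cube K.m).map fun n => n.2.2)
  one : K.one = pack ((cube K.m).map fun _ => 1)
  k2 : K.k2 = pack ((cube K.m).map fun n => 2949120 * K.m - 245760 * (n.1 + n.2.1 + n.2.2))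
  hh : K.hh = pack ((cube K.m).map fun _ => 549755813888)
  ht : K.ht = pack ((cube K.m).map fun n => if lex K.m n then 549755813888 else 0)

end Pool.Agent.TET
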