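import Pool.Agent.Helper38_TET.Lap
import Pool.Agent.Helper38_TET.NonObt

/-!
# MP_c7c9bf_co: the reduction of a general tetrahedron to two charts
-/

set_option autoImplicit false

namespace Pool.Agent.TET

open MeasureTheory Set Filter Pool.Agent.UL3 Pool.Agent.UL3.H88
open scoped ENNReal Topology RealInnerProductSpace

theorem Grad.pos {p G : Fin 4 → E3} (h : Grad p G) (i : Fin 4) : 0 < ⟪G i, G i⟫ := by
  obtain ⟨j, k, l, hd⟩ := D4.ex i
  refine real_inner_self_pos.2 ?_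
  intro h0
  have h1 := h.edge i i j
  rw [h0, inner_zero_left] at h1
  simp [hd.ij.symm] at h1

theorem Grad.row {p G : Fin 4 → E3} (h : Grad p G) {i j k l : Fin 4} (hd : D4 i j k l) (x : Fin 4) :
    ⟪G x, G i⟫ + (⟪G x, G j⟫ + (⟪G x, G k⟫ + ⟪G x, G l⟫)) = 0 := by
  rw [← hd.sum (fun m => ⟪G x, G m⟫), ← inner_sum, h.sum, inner_zero_right]

/-- the feet of the altitudes -/
theorem Grad.feet {p G : Fin 4 → E3} (h : Grad p G) :
    Feet p (fun i j => if j = i then 0 else -⟪G i, G j⟫ / ⟪G i, G i⟫) := by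
  have key : ∀ i, ∑ l, (if l = i then (0 : ℝ) else -⟪G i, G l⟫ / ⟪G i, G i⟫) • p l =
      p i - (⟪G i, G i⟫)⁻¹ • G i := by
    intro i
    have h1 := h.exp ((⟪G i, G i⟫)⁻¹ • G i)
    have h2 : ∑ l, (if l = i then (0 : ℝ) else -⟪G i, G l⟫ / ⟪G i, G i⟫) • p l =
        ∑ l, ((if l = i then (1 : ℝ) else 0) • p l - ⟪G l, (⟪G i, G i⟫)⁻¹ • G i⟫ • p l) := by
      refine Finset.sum_congr rfl fun l _ => ?_
      rw [← sub_smul, real_inner_smul_right]
      congr 1
      split_ifs with hl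
      · rw [hl, inv_mul_cancel₀ (h.pos i).ne', sub_self]
      · rw [real_inner_comm (G i) (G l)]
        ring
    rw [h2, Finset.sum_sub_distrib, h1]
    simp
  refine ⟨h.aff, fun i => by simp, ?_, ?_⟩
  · intro i
    obtain ⟨j, k, l, hd⟩ := D4.ex i
    rw [hd.sum]
    simp only [hd.ij.symm, hd.ik.symm, hd.il.symm, if_true, if_false]
    have h1 := h.row hd i
    have h2 := (h.pos i).ne'
    field_simp
    linarith
  · intro i j k hj hk
    rw [key i, sub_sub_cancel, real_inner_smul_left, h.edge]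
    simp [hj, hk]

/-- relabelling -/
theorem Grad.perm {p G : Fin 4 → E3} (h : Grad p G) (σ : Equiv.Perm (Fin 4)) :
    Grad (p ∘ σ) (G ∘ σ) := by
  refine ⟨(affineIndependent_equiv (k := ℝ) σ (p := p)).2 h.aff, ?_, ?_, ?_⟩
  · have h1 := Equiv.sum_comp σ G
    rw [← h.sum, ← h1]
    rfl
  · intro i j k
    have h1 := h.edge (σ i) (σ j) (σ k)
    simp only [σ.injective.eq_iff] at h1
    exact h1
  · intro x
    have h1 := Equiv.sum_comp σ (fun i => ⟪G i, x⟫ • p i)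
    rw [← h.exp x]
    conv_rhs => rw [← h1]
    refine Finset.sum_congr rfl fun i _ => ?_
    show ⟪G (σ i), ∑ i, ⟪G i, x⟫ • p i⟫ • p (σ i) = ⟪G (σ i), x⟫ • p (σ i)
    rw [h.exp x]

theorem range_perm (p : Fin 4 → E3) (σ : Equiv.Perm (Fin 4)) : Set.range (p ∘ σ) = Set.range p :=
  σ.surjective.range_comp p

/-- four distinct indices form a permutation -/
theorem D4.perm {i j k l : Fin 4} (h : D4 i j k l) : ∃ σ : Equiv.Perm (Fin 4),
    σ 0 = i ∧ σ 1 = j ∧ σ 2 = k ∧ σ 3 = l := by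
  have hinj : Function.Injective (![i, j, k, l] : Fin 4 → Fin 4) := by
    intro x y hxy
    fin_cases x <;> fin_cases y
    · rfl
    · exact absurd hxy h.ij
    · exact absurd hxy h.ik
    · exact absurd hxy h.il
    · exact absurd hxy.symm h.ij
    · rfl
    · exact absurd hxy h.jk
    · exact absurd hxy h.jl
    · exact absurd hxy.symm h.ik
    · exact absurd hxy.symm h.jk
    · rfl
    · exact absurd hxy h.kl
    · exact absurd hxy.symm h.il
    · exact absurd hxy.symm h.jl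
    · exact absurd hxy.symm h.kl
    · rfl
  exact ⟨Equiv.ofBijective _ ((Finite.injective_iff_bijective).1 hinj), rfl, rfl, rfl, rfl⟩

/-- the quadratic form -/
theorem Grad.form_pos {p G : Fin 4 → E3} (h : Grad p G) (f : Fin 4 → ℝ) {i l : Fin 4}
    (h3 : f l ≠ f i) : 0 < ∑ x, ∑ y, f x * f y * ⟪G x, G y⟫ := by
  have h1 := h.qf_pos (sub_ne_zero.2 h3)
  unfold qf Lf at h1
  simp only [Finset.mul_sum] at h1
  have h2 : ∀ x y, f x * (f y * ⟪G x, G y⟫) = f x * f y * ⟪G x, G y⟫ := fun x y => by ring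
  simp only [h2] at h1
  exact h1

/-- the matrix of the charts -/
def LM (n d e : Fin 4 → ℝ) (k al be ga : ℝ) (x y : Fin 4) : ℝ :=
  k * n x * n y + al * d x * d y + be * e x * e y + ga * (d x * e y + e x * d y)

theorem form_LM (n d e f : Fin 4 → ℝ) (k al be ga : ℝ) :
    ∑ x, ∑ y, f x * f y * LM n d e k al be ga x y = k * (∑ x, n x * f x) ^ 2 +
      al * (∑ x, d x * f x) ^ 2 + be * (∑ x, e x * f x) ^ 2 +
      2 * ga * (∑ x, d x * f x) * (∑ x, e x * f x) := by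
  simp only [Fin.sum_univ_four, LM]
  ring

/-- chart N -/
def nN (a c : ℝ) : Fin 4 → ℝ := ![a - 1, -a, 1 - c, c]
def dN : Fin 4 → ℝ := ![1, -1, 0, 0]
def eN : Fin 4 → ℝ := ![0, 0, 1, -1]

structure ChartN (G : Fin 4 → E3) (a c k al be ga : ℝ) : Prop where
  k0 : 0 < k
  a0 : 0 < a
  a1 : a ≤ 1 / 2
  ac : a ≤ c
  c1 : c ≤ 1 / 2
  al0 : 0 < al
  al1 : al < k * a * (1 - a)
  be0 : 0 < be
  be1 : be < k * c * (1 - c)
  ga1 : ga ^ 2 < al * be
  mat : ∀ x y, ⟪G x, G y⟫ = LM (nN a c) dN eN k al be ga x y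

/-- the parameters of chart N -/
theorem Grad.chartN {p G : Fin 4 → E3} (h : Grad p G) (h01 : 0 < ⟪G 0, G 1⟫)
    (h23 : 0 < ⟪G 2, G 3⟫) :
    ∃ a c k al be ga : ℝ, 0 < k ∧ 0 < a ∧ a < 1 ∧ 0 < c ∧ c < 1 ∧ 0 < al ∧ al < k * a * (1 - a) ∧
      0 < be ∧ be < k * c * (1 - c) ∧ ga ^ 2 < al * be ∧
      k * (1 - a) = ⟪G 0, G 0⟫ + ⟪G 0, G 1⟫ ∧ k * a = ⟪G 1, G 1⟫ + ⟪G 0, G 1⟫ ∧
      k * (1 - c) = ⟪G 2, G 2⟫ + ⟪G 2, G 3⟫ ∧ k * c = ⟪G 3, G 3⟫ + ⟪G 2, G 3⟫ ∧
      ∀ x y, ⟪G x, G y⟫ = LM (nN a c) dN eN k al be ga x y := by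
  have hd : D4 0 1 2 3 := ⟨by decide, by decide, by decide, by decide, by decide, by decide⟩
  have r0 := h.row hd 0
  have r1 := h.row hd 1
  have r2 := h.row hd 2
  have r3 := h.row hd 3
  have p0 := h.pos 0
  have p1 := h.pos 1
  have p2 := h.pos 2
  have p3 := h.pos 3
  have s10 : ⟪G 1, G 0⟫ = ⟪G 0, G 1⟫ := real_inner_comm _ _
  have s20 : ⟪G 2, G 0⟫ = ⟪G 0, G 2⟫ := real_inner_comm _ _
  have s30 : ⟪G 3, G 0⟫ = ⟪G 0, G 3⟫ := real_inner_comm _ _
  have s21 : ⟪G 2, G 1⟫ = ⟪G 1, G 2⟫ := real_inner_comm _ _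
  have s31 : ⟪G 3, G 1⟫ = ⟪G 1, G 3⟫ := real_inner_comm _ _
  have s32 : ⟪G 3, G 2⟫ = ⟪G 2, G 3⟫ := real_inner_comm _ _
  rw [s10] at r1
  rw [s20, s21] at r2
  rw [s30, s31, s32] at r3
  have hq := fun (f : Fin 4 → ℝ) (i l : Fin 4) (hil : f l ≠ f i) => h.form_pos f hil
  simp only [Fin.sum_univ_four] at hq
  rw [s10, s20, s30, s21, s31, s32] at hq
  generalize hA : ⟪G 0, G 0⟫ = A at *
  generalize hB : ⟪G 1, G 1⟫ = B at *
  generalize hC : ⟪G 2, G 2⟫ = C at *
  generalize hD : ⟪G 3, G 3⟫ = D at *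
  generalize hE : ⟪G 0, G 1⟫ = E at *
  generalize hF : ⟪G 2, G 3⟫ = F at *
  generalize hI : ⟪G 0, G 2⟫ = I at *
  generalize hJ : ⟪G 0, G 3⟫ = J at *
  generalize hK : ⟪G 1, G 2⟫ = K at *
  generalize hM : ⟪G 1, G 3⟫ = M at *
  have hk : 0 < C + D + 2 * F := by linarith
  obtain ⟨k, hkd⟩ : ∃ k, k = C + D + 2 * F := ⟨_, rfl⟩
  have hk0 : 0 < k := by rw [hkd]; exact hk
  obtain ⟨a, ha⟩ : ∃ a, a = (B + E) / k := ⟨_, rfl⟩
  obtain ⟨c, hc⟩ : ∃ c, c = (D + F) / k := ⟨_, rfl⟩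
  have ka : k * a = B + E := by
    rw [ha]
    field_simp
  have kc : k * c = D + F := by
    rw [hc]
    field_simp
  have ka' : k * (1 - a) = A + E := by linarith
  have kc' : k * (1 - c) = C + F := by linarith
  have ha0 : 0 < a := by
    rw [ha]
    exact div_pos (by linarith) hk0
  have hc0 : 0 < c := by
    rw [hc]
    exact div_pos (by linarith) hk0
  have ha1 : a < 1 := by
    have : 0 < k * (1 - a) := by rw [ka']; linarith
    have := (mul_pos_iff_of_pos_left hk0).1 this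
    linarith
  have hc1 : c < 1 := by
    have : 0 < k * (1 - c) := by rw [kc']; linarith
    have := (mul_pos_iff_of_pos_left hk0).1 this
    linarith
  obtain ⟨al, hal⟩ : ∃ al, al = k * a * (1 - a) - E := ⟨_, rfl⟩
  obtain ⟨be, hbe⟩ : ∃ be, be = k * c * (1 - c) - F := ⟨_, rfl⟩
  obtain ⟨ga, hga⟩ : ∃ ga, ga = I + k * (1 - a) * (1 - c) := ⟨_, rfl⟩
  have mat : ∀ x y, ⟪G x, G y⟫ = LM (nN a c) dN eN k al be ga x y := by
    have m00 : A = k * (a - 1) * (a - 1) + al * 1 * 1 + be * 0 * 0 + ga * (1 * 0 + 0 * 1) := by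
      linear_combination (-1) * ka' + (-1) * hal
    have m01 : E = k * (a - 1) * (-a) + al * 1 * (-1) + be * 0 * 0 + ga * (1 * 0 + 0 * (-1)) := by
      linear_combination hal
    have m02 : I = k * (a - 1) * (1 - c) + al * 1 * 0 + be * 0 * 1 + ga * (1 * 1 + 0 * 0) := by
      linear_combination (-1) * hga
    have m03 : J = k * (a - 1) * c + al * 1 * 0 + be * 0 * (-1) + ga * (1 * (-1) + 0 * 0) := by
      linear_combination r0 + ka' + hga
    have m11 : B = k * (-a) * (-a) + al * (-1) * (-1) + be * 0 * 0 +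
        ga * ((-1) * 0 + 0 * (-1)) := by
      linear_combination (-1) * ka + (-1) * hal
    have m12 : K = k * (-a) * (1 - c) + al * (-1) * 0 + be * 0 * 1 + ga * ((-1) * 1 + 0 * 0) := by
      linear_combination r2 + kc' + hga
    have m13 : M = k * (-a) * c + al * (-1) * 0 + be * 0 * (-1) +
        ga * ((-1) * (-1) + 0 * 0) := by
      linear_combination r3 - r0 + kc - ka' - hga
    have m22 : C = k * (1 - c) * (1 - c) + al * 0 * 0 + be * 1 * 1 + ga * (0 * 1 + 1 * 0) := by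
      linear_combination (-1) * kc' + (-1) * hbe
    have m23 : F = k * (1 - c) * c + al * 0 * 0 + be * 1 * (-1) + ga * (0 * (-1) + 1 * 0) := by
      linear_combination hbe
    have m33 : D = k * c * c + al * 0 * 0 + be * (-1) * (-1) + ga * (0 * (-1) + (-1) * 0) := by
      linear_combination (-1) * kc + (-1) * hbe
    have sw : ∀ x y, LM (nN a c) dN eN k al be ga x y = LM (nN a c) dN eN k al be ga y x := by
      intro x y
      unfold LM
      ring
    intro x y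
    fin_cases x <;> fin_cases y
    · exact hA.trans m00
    · exact hE.trans m01
    · exact hI.trans m02
    · exact hJ.trans m03
    · exact (s10.trans m01).trans (sw 0 1)
    · exact hB.trans m11
    · exact hK.trans m12
    · exact hM.trans m13
    · exact (s20.trans m02).trans (sw 0 2)
    · exact (s21.trans m12).trans (sw 1 2)
    · exact hC.trans m22
    · exact hF.trans m23
    · exact (s30.trans m03).trans (sw 0 3)
    · exact (s31.trans m13).trans (sw 1 3)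
    · exact (s32.trans m23).trans (sw 2 3)
    · exact hD.trans m33
  have hp2 : ∀ f : Fin 4 → ℝ, ∀ i l, f l ≠ f i → 0 < k * (∑ x, nN a c x * f x) ^ 2 +
      al * (∑ x, dN x * f x) ^ 2 + be * (∑ x, eN x * f x) ^ 2 +
      2 * ga * (∑ x, dN x * f x) * (∑ x, eN x * f x) := by
    intro f i l hil
    have h1 := h.form_pos f hil
    simp only [mat] at h1
    rwa [form_LM] at h1
  have hxy : ∀ x y : ℝ, x ≠ 0 ∨ y ≠ 0 → 0 < al * x ^ 2 + be * y ^ 2 + 2 * ga * x * y := by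
    intro x y hxy
    obtain ⟨i, l, hil⟩ : ∃ i l : Fin 4, (![x, 0, x * (1 - a) + y * c, x * (1 - a) + y * (c - 1)] :
        Fin 4 → ℝ) l ≠ (![x, 0, x * (1 - a) + y * c, x * (1 - a) + y * (c - 1)] : Fin 4 → ℝ) i := by
      rcases hxy with hx | hy
      · exact ⟨1, 0, hx⟩
      · refine ⟨3, 2, ?_⟩
        show x * (1 - a) + y * c ≠ x * (1 - a) + y * (c - 1)
        intro h0
        apply hy
        linarith
    have h1 := hp2 _ i l hil
    have e1 : ∑ m, nN a c m * (![x, 0, x * (1 - a) + y * c, x * (1 - a) + y * (c - 1)] :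
        Fin 4 → ℝ) m = 0 := by
      rw [Fin.sum_univ_four]
      show (a - 1) * x + (-a) * 0 + (1 - c) * (x * (1 - a) + y * c) +
        c * (x * (1 - a) + y * (c - 1)) = 0
      ring
    have e2 : ∑ m, dN m * (![x, 0, x * (1 - a) + y * c, x * (1 - a) + y * (c - 1)] :
        Fin 4 → ℝ) m = x := by
      rw [Fin.sum_univ_four]
      show 1 * x + (-1) * 0 + 0 * (x * (1 - a) + y * c) + 0 * (x * (1 - a) + y * (c - 1)) = x
      ring
    have e3 : ∑ m, eN m * (![x, 0, x * (1 - a) + y * c, x * (1 - a) + y * (c - 1)] :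
        Fin 4 → ℝ) m = y := by
      rw [Fin.sum_univ_four]
      show 0 * x + 0 * 0 + 1 * (x * (1 - a) + y * c) + (-1) * (x * (1 - a) + y * (c - 1)) = y
      ring
    rw [e1, e2, e3] at h1
    linarith
  have al0 : 0 < al := by
    have := hxy 1 0 (Or.inl one_ne_zero)
    linarith
  have be0 : 0 < be := by
    have := hxy 0 1 (Or.inr one_ne_zero)
    linarith
  have g0 : ga ^ 2 < al * be := by
    have h1 := hxy ga (-al) (Or.inr (neg_ne_zero.2 al0.ne'))
    have h2 : 0 < al * (al * be - ga ^ 2) := by linarith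
    have := (mul_pos_iff_of_pos_left al0).1 h2
    linarith
  exact ⟨a, c, k, al, be, ga, hk0, ha0, ha1, hc0, hc1, al0, by linarith, be0, by linarith, g0,
    ka', ka, kc', kc, mat⟩

/-- chart S -/
def nS (v w : ℝ) : Fin 4 → ℝ := ![-(1 - v - w), -v, -w, 1]
def dS : Fin 4 → ℝ := ![1, -1, 0, 0]
def eS : Fin 4 → ℝ := ![1, 0, -1, 0]

structure ChartS (G : Fin 4 → E3) (v w k al be ga : ℝ) : Prop where
  k0 : 0 < k
  w0 : 9 / 500 ≤ w
  wv : w ≤ v
  v1 : v ≤ 847 / 10000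
  vw : v + w ≤ 1635 / 10000
  al0 : 0 < al
  be0 : 0 < be
  ga1 : ga ^ 2 < al * be
  neg : al + ga < k * (1 - v - w) * v ∨ be + ga < k * (1 - v - w) * w ∨ -ga < k * v * w
  mat : ∀ x y, ⟪G x, G y⟫ = LM (nS v w) dS eS k al be ga x y

/-- the parameters of chart S -/
theorem Grad.chartS {p G : Fin 4 → E3} (h : Grad p G) {v w : ℝ}
    (hv : v = -⟪G 3, G 1⟫ / ⟪G 3, G 3⟫) (hw : w = -⟪G 3, G 2⟫ / ⟪G 3, G 3⟫)
    (hn : 0 < ⟪G 0, G 1⟫ ∨ 0 < ⟪G 0, G 2⟫ ∨ 0 < ⟪G 1, G 2⟫) :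
    ∃ k al be ga : ℝ, 0 < k ∧ 0 < al ∧ 0 < be ∧ ga ^ 2 < al * be ∧
      (al + ga < k * (1 - v - w) * v ∨ be + ga < k * (1 - v - w) * w ∨ -ga < k * v * w) ∧
      ∀ x y, ⟪G x, G y⟫ = LM (nS v w) dS eS k al be ga x y := by
  have hd : D4 0 1 2 3 := ⟨by decide, by decide, by decide, by decide, by decide, by decide⟩
  have r0 := h.row hd 0
  have r1 := h.row hd 1
  have r2 := h.row hd 2
  have r3 := h.row hd 3
  have p3 := h.pos 3
  have s10 : ⟪G 1, G 0⟫ = ⟪G 0, G 1⟫ := real_inner_comm _ _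
  have s20 : ⟪G 2, G 0⟫ = ⟪G 0, G 2⟫ := real_inner_comm _ _
  have s30 : ⟪G 3, G 0⟫ = ⟪G 0, G 3⟫ := real_inner_comm _ _
  have s21 : ⟪G 2, G 1⟫ = ⟪G 1, G 2⟫ := real_inner_comm _ _
  have s31 : ⟪G 3, G 1⟫ = ⟪G 1, G 3⟫ := real_inner_comm _ _
  have s32 : ⟪G 3, G 2⟫ = ⟪G 2, G 3⟫ := real_inner_comm _ _
  rw [s10] at r1
  rw [s20, s21] at r2
  rw [s30, s31, s32] at r3
  rw [s31] at hv
  rw [s32] at hw
  generalize hA : ⟪G 0, G 0⟫ = A at *
  generalize hB : ⟪G 1, G 1⟫ = B at *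
  generalize hC : ⟪G 2, G 2⟫ = C at *
  generalize hD : ⟪G 3, G 3⟫ = D at *
  generalize hE : ⟪G 0, G 1⟫ = E at *
  generalize hF : ⟪G 2, G 3⟫ = F at *
  generalize hI : ⟪G 0, G 2⟫ = I at *
  generalize hJ : ⟪G 0, G 3⟫ = J at *
  generalize hK : ⟪G 1, G 2⟫ = K at *
  generalize hM : ⟪G 1, G 3⟫ = M at *
  have kv : D * v = -M := by
    rw [hv]
    field_simp
  have kw : D * w = -F := by
    rw [hw]
    field_simp
  obtain ⟨al, hal⟩ : ∃ al, al = B - D * v * v := ⟨_, rfl⟩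
  obtain ⟨be, hbe⟩ : ∃ be, be = C - D * w * w := ⟨_, rfl⟩
  obtain ⟨ga, hga⟩ : ∃ ga, ga = K - D * v * w := ⟨_, rfl⟩
  have m00 : A = D * (-(1 - v - w)) * (-(1 - v - w)) + al * 1 * 1 + be * 1 * 1 +
      ga * (1 * 1 + 1 * 1) := by
    linear_combination r0 - r1 - r2 - r3 + 2 * kv + 2 * kw - hal - hbe - 2 * hga
  have m01 : E = D * (-(1 - v - w)) * (-v) + al * 1 * (-1) + be * 1 * 0 +
      ga * (1 * 0 + 1 * (-1)) := by
    linear_combination r1 - kv + hal + hga
  have m02 : I = D * (-(1 - v - w)) * (-w) + al * 1 * 0 + be * 1 * (-1) +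
      ga * (1 * (-1) + 1 * 0) := by
    linear_combination r2 - kw + hbe + hga
  have m03 : J = D * (-(1 - v - w)) * 1 + al * 1 * 0 + be * 1 * 0 + ga * (1 * 0 + 1 * 0) := by
    linear_combination r3 - kv - kw
  have m11 : B = D * (-v) * (-v) + al * (-1) * (-1) + be * 0 * 0 + ga * ((-1) * 0 + 0 * (-1)) := by
    linear_combination (-1) * hal
  have m12 : K = D * (-v) * (-w) + al * (-1) * 0 + be * 0 * (-1) +
      ga * ((-1) * (-1) + 0 * 0) := by
    linear_combination (-1) * hga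
  have m13 : M = D * (-v) * 1 + al * (-1) * 0 + be * 0 * 0 + ga * ((-1) * 0 + 0 * 0) := by
    linear_combination kv
  have m22 : C = D * (-w) * (-w) + al * 0 * 0 + be * (-1) * (-1) +
      ga * (0 * (-1) + (-1) * 0) := by
    linear_combination (-1) * hbe
  have m23 : F = D * (-w) * 1 + al * 0 * 0 + be * (-1) * 0 + ga * (0 * 0 + (-1) * 0) := by
    linear_combination kw
  have m33 : D = D * 1 * 1 + al * 0 * 0 + be * 0 * 0 + ga * (0 * 0 + 0 * 0) := by
    ring
  have mat : ∀ x y, ⟪G x, G y⟫ = LM (nS v w) dS eS D al be ga x y := by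
    have sw : ∀ x y, LM (nS v w) dS eS D al be ga x y = LM (nS v w) dS eS D al be ga y x := by
      intro x y
      unfold LM
      ring
    intro x y
    fin_cases x <;> fin_cases y
    · exact hA.trans m00
    · exact hE.trans m01
    · exact hI.trans m02
    · exact hJ.trans m03
    · exact (s10.trans m01).trans (sw 0 1)
    · exact hB.trans m11
    · exact hK.trans m12
    · exact hM.trans m13
    · exact (s20.trans m02).trans (sw 0 2)
    · exact (s21.trans m12).trans (sw 1 2)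
    · exact hC.trans m22
    · exact hF.trans m23
    · exact (s30.trans m03).trans (sw 0 3)
    · exact (s31.trans m13).trans (sw 1 3)
    · exact (s32.trans m23).trans (sw 2 3)
    · exact hD.trans m33
  have hp2 : ∀ f : Fin 4 → ℝ, ∀ i l, f l ≠ f i → 0 < D * (∑ x, nS v w x * f x) ^ 2 +
      al * (∑ x, dS x * f x) ^ 2 + be * (∑ x, eS x * f x) ^ 2 +
      2 * ga * (∑ x, dS x * f x) * (∑ x, eS x * f x) := by
    intro f i l hil
    have h1 := h.form_pos f hil
    simp only [mat] at h1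
    rwa [form_LM] at h1
  have hxy : ∀ x y : ℝ, x ≠ 0 ∨ y ≠ 0 → 0 < al * x ^ 2 + be * y ^ 2 + 2 * ga * x * y := by
    intro x y hxy
    obtain ⟨l, hil⟩ : ∃ l : Fin 4, (![0, -x, -y, -(v * x + w * y)] : Fin 4 → ℝ) l ≠
        (![0, -x, -y, -(v * x + w * y)] : Fin 4 → ℝ) 0 := by
      rcases hxy with hx | hy
      · exact ⟨1, neg_ne_zero.2 hx⟩
      · exact ⟨2, neg_ne_zero.2 hy⟩
    have h1 := hp2 _ 0 l hil
    have e1 : ∑ m, nS v w m * (![0, -x, -y, -(v * x + w * y)] : Fin 4 → ℝ) m = 0 := by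
      rw [Fin.sum_univ_four]
      show (-(1 - v - w)) * 0 + (-v) * (-x) + (-w) * (-y) + 1 * (-(v * x + w * y)) = 0
      ring
    have e2 : ∑ m, dS m * (![0, -x, -y, -(v * x + w * y)] : Fin 4 → ℝ) m = x := by
      rw [Fin.sum_univ_four]
      show 1 * 0 + (-1) * (-x) + 0 * (-y) + 0 * (-(v * x + w * y)) = x
      ring
    have e3 : ∑ m, eS m * (![0, -x, -y, -(v * x + w * y)] : Fin 4 → ℝ) m = y := by
      rw [Fin.sum_univ_four]
      show 1 * 0 + 0 * (-x) + (-1) * (-y) + 0 * (-(v * x + w * y)) = y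
      ring
    rw [e1, e2, e3] at h1
    linarith
  have al0 : 0 < al := by
    have := hxy 1 0 (Or.inl one_ne_zero)
    linarith
  have be0 : 0 < be := by
    have := hxy 0 1 (Or.inr one_ne_zero)
    linarith
  have g0 : ga ^ 2 < al * be := by
    have h1 := hxy ga (-al) (Or.inr (neg_ne_zero.2 al0.ne'))
    have h2 : 0 < al * (al * be - ga ^ 2) := by linarith
    have := (mul_pos_iff_of_pos_left al0).1 h2
    linarith
  refine ⟨D, al, be, ga, p3, al0, be0, g0, ?_, mat⟩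
  rcases hn with hn | hn | hn
  · left
    linarith
  · right; left
    linarith
  · right; right
    linarith

/-- a perfect matching of obtuse dihedral angles, sorted -/
theorem Grad.matching {p G : Fin 4 → E3} (h : Grad p G)
    (hn : ∀ i, ∃ j, j ≠ i ∧ 0 < ⟪G i, G j⟫) :
    ∃ i j k l, D4 i j k l ∧ 0 < ⟪G i, G j⟫ ∧ 0 < ⟪G k, G l⟫ ∧ ⟪G j, G j⟫ ≤ ⟪G i, G i⟫ ∧
      ⟪G l, G l⟫ ≤ ⟪G k, G k⟫ ∧ ⟪G j, G j⟫ + ⟪G i, G j⟫ ≤ ⟪G l, G l⟫ + ⟪G k, G l⟫ := by
  have hsym : ∀ x y, ⟪G x, G y⟫ = ⟪G y, G x⟫ := fun x y => real_inner_comm _ _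
  -- a matching
  have h1 : ∃ i j k l, D4 i j k l ∧ 0 < ⟪G i, G j⟫ ∧ 0 < ⟪G k, G l⟫ := by
    obtain ⟨j, hj0, hj⟩ := hn 0
    obtain ⟨k, l, hd⟩ : ∃ k l, D4 0 j k l := by
      obtain ⟨a, b, c, hd⟩ := D4.ex 0
      by_cases h1 : a = j
      · exact ⟨b, c, h1 ▸ hd⟩
      · by_cases h2 : b = j
        · exact ⟨a, c, h2 ▸ hd.swap23⟩
        · have h4 : j ∈ ({0, a, b, c} : Finset (Fin 4)) := by
            rw [← hd.univ]
            exact Finset.mem_univ j
          simp only [Finset.mem_insert, Finset.mem_singleton] at h4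
          rcases h4 with h4 | h4 | h4 | h4
          · exact absurd h4 hj0
          · exact absurd h4.symm h1
          · exact absurd h4.symm h2
          · exact ⟨a, b, h4 ▸ hd.swap34.swap23⟩
    by_cases hkl : 0 < ⟪G k, G l⟫
    · exact ⟨0, j, k, l, hd, hj, hkl⟩
    · have hk : 0 < ⟪G k, G 0⟫ ∨ 0 < ⟪G k, G j⟫ := by
        obtain ⟨m, hm0, hm⟩ := hn k
        have h4 : m ∈ ({0, j, k, l} : Finset (Fin 4)) := by
          rw [← hd.univ]
          exact Finset.mem_univ m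
        simp only [Finset.mem_insert, Finset.mem_singleton] at h4
        rcases h4 with h4 | h4 | h4 | h4
        · exact Or.inl (h4 ▸ hm)
        · exact Or.inr (h4 ▸ hm)
        · exact absurd h4 hm0
        · rw [h4] at hm
          exact absurd hm hkl
      have hl : 0 < ⟪G l, G 0⟫ ∨ 0 < ⟪G l, G j⟫ := by
        obtain ⟨m, hm0, hm⟩ := hn l
        have h4 : m ∈ ({0, j, k, l} : Finset (Fin 4)) := by
          rw [← hd.univ]
          exact Finset.mem_univ m
        simp only [Finset.mem_insert, Finset.mem_singleton] at h4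
        rcases h4 with h4 | h4 | h4 | h4
        · exact Or.inl (h4 ▸ hm)
        · exact Or.inr (h4 ▸ hm)
        · rw [h4, hsym] at hm
          exact absurd hm hkl
        · exact absurd h4 hm0
      have hd2 : D4 k 0 l j := ⟨hd.ik.symm, hd.kl, hd.jk.symm, hd.il, hd.ij, hd.jl.symm⟩
      have hd3 : D4 k j l 0 := ⟨hd.jk.symm, hd.kl, hd.ik.symm, hd.jl, hd.ij.symm, hd.il.symm⟩
      rcases hk with hk | hk
      · rcases hl with hl | hl
        · exfalso
          have r := h.row hd 0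
          rw [hsym k 0] at hk
          rw [hsym l 0] at hl
          have := h.pos 0
          linarith
        · exact ⟨k, 0, l, j, hd2, hk, hl⟩
      · rcases hl with hl | hl
        · exact ⟨k, j, l, 0, hd3, hk, hl⟩
        · exfalso
          have r := h.row hd j
          rw [hsym k j] at hk
          rw [hsym l j] at hl
          rw [hsym 0 j] at hj
          have := h.pos j
          linarith
  obtain ⟨i, j, k, l, hd, hij, hkl⟩ := h1
  -- sort inside the pairs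
  have h2 : ∃ i j k l, D4 i j k l ∧ 0 < ⟪G i, G j⟫ ∧ 0 < ⟪G k, G l⟫ ∧
      ⟪G j, G j⟫ ≤ ⟪G i, G i⟫ := by
    rcases le_total ⟪G j, G j⟫ ⟪G i, G i⟫ with g1 | g1
    · exact ⟨i, j, k, l, hd, hij, hkl, g1⟩
    · exact ⟨j, i, k, l, hd.swap12, by rw [hsym]; exact hij, hkl, g1⟩
  obtain ⟨i, j, k, l, hd, hij, hkl, g1⟩ := h2
  have h3 : ∃ i j k l, D4 i j k l ∧ 0 < ⟪G i, G j⟫ ∧ 0 < ⟪G k, G l⟫ ∧
      ⟪G j, G j⟫ ≤ ⟪G i, G i⟫ ∧ ⟪G l, G l⟫ ≤ ⟪G k, G k⟫ := by
    rcases le_total ⟪G l, G l⟫ ⟪G k, G k⟫ with g2 | g2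
    · exact ⟨i, j, k, l, hd, hij, hkl, g1, g2⟩
    · exact ⟨i, j, l, k, hd.swap34, hij, by rw [hsym]; exact hkl, g1, g2⟩
  obtain ⟨i, j, k, l, hd, hij, hkl, g1, g2⟩ := h3
  rcases le_total (⟪G j, G j⟫ + ⟪G i, G j⟫) (⟪G l, G l⟫ + ⟪G k, G l⟫) with g3 | g3
  · exact ⟨i, j, k, l, hd, hij, hkl, g1, g2, g3⟩
  · exact ⟨k, l, i, j, ⟨hd.kl, hd.ik.symm, hd.jk.symm, hd.il.symm, hd.jl.symm, hd.ij⟩, hkl, hij,
      g2, g1, g3⟩

/-- the reduction -/
theorem reduction {p : Fin 4 → E3} (hp : AffineIndependent ℝ p) :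
    Dense (convexHull ℝ (Set.range p)) ∨
    (∃ (q G : Fin 4 → E3) (a c k al be ga : ℝ), Grad q G ∧ Set.range q = Set.range p ∧
      ChartN G a c k al be ga) ∨
    ∃ (q G : Fin 4 → E3) (v w k al be ga : ℝ), Grad q G ∧ Set.range q = Set.range p ∧
      ChartS G v w k al be ga := by
  obtain ⟨G, h⟩ := exists_grad hp
  have hf := h.feet
  have hsym : ∀ x y, ⟪G x, G y⟫ = ⟪G y, G x⟫ := fun x y => real_inner_comm _ _
  by_cases hall : ∀ i j, j ≠ i → ⟪G i, G j⟫ ≤ 0
  · left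
    refine hf.all fun i j => ?_
    split_ifs with hij
    · exact le_refl _
    · exact div_nonneg (neg_nonneg.2 (hall i j hij)) (h.pos i).le
  by_cases hone : ∃ i, ∀ j, j ≠ i → ⟪G i, G j⟫ ≤ 0
  · obtain ⟨i, hi⟩ := hone
    have hb : ∀ j, 0 ≤ (if j = i then (0 : ℝ) else -⟪G i, G j⟫ / ⟪G i, G i⟫) := by
      intro j
      split_ifs with hij
      · exact le_refl _
      · exact div_nonneg (neg_nonneg.2 (hi j hij)) (h.pos i).le
    rcases hf.face i hb with h1 | ⟨j, k, l, hd, g1, g2, g3, g4⟩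
    · exact Or.inl h1
    · right; right
      simp only [hd.ik.symm, hd.il.symm, if_false] at g1 g2 g3 g4
      have hd2 : D4 j k l i := ⟨hd.jk, hd.jl, hd.ij.symm, hd.kl, hd.ik.symm, hd.il.symm⟩
      obtain ⟨σ, s0, s1, s2, s3⟩ := hd2.perm
      have hG := h.perm σ
      have t0 : (G ∘ σ) 0 = G j := congrArg G s0
      have t1 : (G ∘ σ) 1 = G k := congrArg G s1
      have t2 : (G ∘ σ) 2 = G l := congrArg G s2
      have t3 : (G ∘ σ) 3 = G i := congrArg G s3
      have hn : 0 < ⟪(G ∘ σ) 0, (G ∘ σ) 1⟫ ∨ 0 < ⟪(G ∘ σ) 0, (G ∘ σ) 2⟫ ∨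
          0 < ⟪(G ∘ σ) 1, (G ∘ σ) 2⟫ := by
        rw [t0, t1, t2]
        by_contra hcon
        push Not at hcon
        obtain ⟨c1, c2, c3⟩ := hcon
        apply hall
        intro x y hxy
        have hmem : ∀ x : Fin 4, x = i ∨ x = j ∨ x = k ∨ x = l := by
          intro x
          have h4 : x ∈ ({i, j, k, l} : Finset (Fin 4)) := by
            rw [← hd.univ]
            exact Finset.mem_univ x
          simpa only [Finset.mem_insert, Finset.mem_singleton] using h4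
        rcases hmem x with hx | hx | hx | hx
        · rw [hx]
          exact hi y (hx ▸ hxy)
        · rcases hmem y with hy | hy | hy | hy
          · rw [hy, hsym]
            exact hi x (hy ▸ hxy.symm)
          · exact absurd (hy.trans hx.symm) hxy
          · rw [hx, hy]
            exact c1
          · rw [hx, hy]
            exact c2
        · rcases hmem y with hy | hy | hy | hy
          · rw [hy, hsym]
            exact hi x (hy ▸ hxy.symm)
          · rw [hx, hy, hsym]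
            exact c1
          · exact absurd (hy.trans hx.symm) hxy
          · rw [hx, hy]
            exact c3
        · rcases hmem y with hy | hy | hy | hy
          · rw [hy, hsym]
            exact hi x (hy ▸ hxy.symm)
          · rw [hx, hy, hsym]
            exact c2
          · rw [hx, hy, hsym]
            exact c3
          · exact absurd (hy.trans hx.symm) hxy
      obtain ⟨κ, al, be, ga, q1, q2, q3, q4, q5, q6⟩ := hG.chartS
        (v := -⟪G i, G k⟫ / ⟪G i, G i⟫) (w := -⟪G i, G l⟫ / ⟪G i, G i⟫)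
        (by rw [t1, t3]) (by rw [t2, t3]) hn
      exact ⟨_, _, _, _, κ, al, be, ga, hG, range_perm p σ,
        ⟨q1, g1, g2, g3, g4, q2, q3, q4, q5, q6⟩⟩
  · right; left
    push Not at hone
    obtain ⟨i, j, k, l, hd, hij, hkl, g1, g2, g3⟩ := h.matching hone
    obtain ⟨σ, s0, s1, s2, s3⟩ := hd.perm
    have hG := h.perm σ
    have t0 : (G ∘ σ) 0 = G i := congrArg G s0
    have t1 : (G ∘ σ) 1 = G j := congrArg G s1
    have t2 : (G ∘ σ) 2 = G k := congrArg G s2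
    have t3 : (G ∘ σ) 3 = G l := congrArg G s3
    obtain ⟨a, c, κ, al, be, ga, q1, q2, q3, q4, q5, q6, q7, q8, q9, q10, q11, q12, q13, q14,
      q15⟩ := hG.chartN (by rw [t0, t1]; exact hij) (by rw [t2, t3]; exact hkl)
    rw [t0, t1] at q11 q12
    rw [t2, t3] at q13 q14
    refine ⟨_, _, a, c, κ, al, be, ga, hG, range_perm p σ, ⟨q1, q2, ?_, ?_, ?_, q6, q7, q8, q9,
      q10, q15⟩⟩
    · have h1 : κ * a ≤ κ * (1 - a) := by linarith
      have h2 := le_of_mul_le_mul_left h1 q1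
      linarith
    · exact le_of_mul_le_mul_left (by linarith) q1
    · have h1 : κ * c ≤ κ * (1 - c) := by linarith
      have h2 := le_of_mul_le_mul_left h1 q1
      linarith

end Pool.Agent.TET
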