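import Pool.Agent.Helper38_TET.RegZ

/-!
# MP_c7c9bf_co: the bisector families

* `b`: reflection in the plane which is orthogonal to a face and contains a bisector of the angle of the face at
  a vertex;
* `d`: reflection in a bisector plane of the dihedral angle at an edge.
-/

set_option autoImplicit false
set_option maxRecDepth 100000

namespace Pool.Agent.TET

open MeasureTheory Set Filter Pool.Agent.UL3 Pool.Agent.UL3.H88
open scoped ENNReal Topology RealInnerProductSpace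
open Cvr (V4 Cd)

/-- the bisector frame of a face angle; rows: the two edges, the third edge -/
def VB (t m : ℝ) : Fin 3 → Fin 3 → ℝ := ![![1, 1, 0], ![-t, t, 0], ![m, 0, 1]]

theorem transfer_b {A B C D : E3} (h : AffineIndependent ℝ ![A, B, C, D]) {t m : ℝ} (ht : t ≠ 0)
    (h1 : ⟪t • (B - A) - (C - A), t • (B - A) + (C - A)⟫ = 0)
    (h2 : 2 * t * ⟪t • (B - A) - (C - A), D - A⟫ =
      m * ⟪t • (B - A) - (C - A), t • (B - A) - (C - A)⟫)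
    (hg : GoodV [0, 7, 6, 1] (VB t m)) : Dense (convexHull ℝ {A, B, C, D}) := by
  have h2t : 2 * t ≠ 0 := mul_ne_zero two_ne_zero ht
  refine transferX h hg ![(2 * t)⁻¹ • (t • (B - A) - (C - A)),
    (2 * t)⁻¹ • (t • (B - A) + (C - A)),
    (D - A) - (m * (2 * t)⁻¹) • (t • (B - A) - (C - A))] ?_ ?_ ?_ ?_ ?_
  · unfold Qm VB
    rw [Fin.sum_univ_three]
    show (1 : ℝ) • ((2 * t)⁻¹ • (t • (B - A) - (C - A))) +
      (1 : ℝ) • ((2 * t)⁻¹ • (t • (B - A) + (C - A))) +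
      (0 : ℝ) • ((D - A) - (m * (2 * t)⁻¹) • (t • (B - A) - (C - A))) = B - A
    have e : (1 : ℝ) • ((2 * t)⁻¹ • (t • (B - A) - (C - A))) +
      (1 : ℝ) • ((2 * t)⁻¹ • (t • (B - A) + (C - A))) +
      (0 : ℝ) • ((D - A) - (m * (2 * t)⁻¹) • (t • (B - A) - (C - A))) =
        ((2 * t)⁻¹ * (2 * t)) • (B - A) := by module
    rw [e, inv_mul_cancel₀ h2t, one_smul]
  · unfold Qm VB
    rw [Fin.sum_univ_three]
    show (-t) • ((2 * t)⁻¹ • (t • (B - A) - (C - A))) +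
      t • ((2 * t)⁻¹ • (t • (B - A) + (C - A))) +
      (0 : ℝ) • ((D - A) - (m * (2 * t)⁻¹) • (t • (B - A) - (C - A))) = C - A
    have e : (-t) • ((2 * t)⁻¹ • (t • (B - A) - (C - A))) +
      t • ((2 * t)⁻¹ • (t • (B - A) + (C - A))) +
      (0 : ℝ) • ((D - A) - (m * (2 * t)⁻¹) • (t • (B - A) - (C - A))) =
        ((2 * t)⁻¹ * (2 * t)) • (C - A) := by module
    rw [e, inv_mul_cancel₀ h2t, one_smul]
  · unfold Qm VB
    rw [Fin.sum_univ_three]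
    show m • ((2 * t)⁻¹ • (t • (B - A) - (C - A))) +
      (0 : ℝ) • ((2 * t)⁻¹ • (t • (B - A) + (C - A))) +
      (1 : ℝ) • ((D - A) - (m * (2 * t)⁻¹) • (t • (B - A) - (C - A))) = D - A
    module
  · show ⟪(2 * t)⁻¹ • (t • (B - A) - (C - A)), (2 * t)⁻¹ • (t • (B - A) + (C - A))⟫ = 0
    rw [real_inner_smul_left, real_inner_smul_right, h1]
    ring
  · show ⟪(2 * t)⁻¹ • (t • (B - A) - (C - A)),
      (D - A) - (m * (2 * t)⁻¹) • (t • (B - A) - (C - A))⟫ = 0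
    rw [real_inner_smul_left, inner_sub_right, real_inner_smul_right]
    have e : ⟪t • (B - A) - (C - A), D - A⟫ = m * (2 * t)⁻¹ *
        ⟪t • (B - A) - (C - A), t • (B - A) - (C - A)⟫ := by
      field_simp
      linarith
    rw [e]
    ring

/-- the elementary part of the region proof -/
theorem slab_aux {s : ℝ} (hs : s = 1 ∨ s = -1) {nlo nhi q : ℝ} (hl : 0 < nlo) (hlh : nlo < nhi)
    (hq : 0 < q) {aa dd : ℝ} (haa : 0 < aa) (hdd : 0 < dd) (h1 : nlo ^ 2 * aa ≤ q ^ 2 * dd)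
    (h2 : q ^ 2 * dd ≤ nhi ^ 2 * aa) : ∃ t : ℝ, t ≠ 0 ∧ t ^ 2 * aa = dd ∧ 0 < s * t ∧
      nlo ≤ q * (s * t) ∧ q * (s * t) ≤ nhi := by
  have hT : 0 < Real.sqrt (dd / aa) := Real.sqrt_pos.2 (div_pos hdd haa)
  obtain ⟨T, hTd⟩ : ∃ T, T = Real.sqrt (dd / aa) := ⟨_, rfl⟩
  rw [← hTd] at hT
  have hT2 : T ^ 2 * aa = dd := by
    rw [hTd, Real.sq_sqrt (div_pos hdd haa).le]
    field_simp
  have hss : s * s = 1 := by rcases hs with rfl | rfl <;> norm_num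
  have e1 : s * (s * T) = T := by rw [← mul_assoc, hss, one_mul]
  refine ⟨s * T, ?_, ?_, ?_, ?_, ?_⟩
  · intro h0
    rw [h0, mul_zero] at e1
    exact hT.ne e1
  · have : (s * T) ^ 2 = T ^ 2 := by
      have : (s * T) ^ 2 = (s * s) * T ^ 2 := by ring
      rw [this, hss, one_mul]
    rw [this, hT2]
  · rw [e1]
    exact hT
  · rw [e1]
    have h3 : nlo ^ 2 ≤ (q * T) ^ 2 := by
      have : nlo ^ 2 * aa ≤ (q * T) ^ 2 * aa := by
        have e : (q * T) ^ 2 * aa = q ^ 2 * (T ^ 2 * aa) := by ring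
        rw [e, hT2]
        exact h1
      exact le_of_mul_le_mul_right this haa
    exact le_of_sq_le_sq_aux hl.le (mul_pos hq hT).le h3
  · rw [e1]
    have h3 : (q * T) ^ 2 ≤ nhi ^ 2 := by
      have : (q * T) ^ 2 * aa ≤ nhi ^ 2 * aa := by
        have e : (q * T) ^ 2 * aa = q ^ 2 * (T ^ 2 * aa) := by ring
        rw [e, hT2]
        exact h2
      exact le_of_mul_le_mul_right this haa
    exact le_of_sq_le_sq_aux (mul_pos hq hT).le (hl.le.trans hlh.le) h3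
where
  le_of_sq_le_sq_aux {x y : ℝ} (hx : 0 ≤ x) (hy : 0 ≤ y) (h : x ^ 2 ≤ y ^ 2) : x ≤ y := by
    exact (sq_le_sq₀ hx hy).1 h

/-- linear interpolation -/
theorem slab_lin {s nlo nhi q t F0 F1 : ℝ} (hlh : nlo < nhi) (hq : 0 < q) (hss : s * s = 1)
    (h1 : nlo ≤ q * (s * t)) (h2 : q * (s * t) ≤ nhi)
    (e1 : 0 ≤ s * (s * nlo * F1 + q * F0)) (e2 : 0 ≤ s * (s * nhi * F1 + q * F0)) :
    0 ≤ s * (t * F1 + F0) := by
  have k1 := mul_nonneg (sub_nonneg.2 h2) e1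
  have k2 := mul_nonneg (sub_nonneg.2 h1) e2
  have k3 : (nhi - q * (s * t)) * (s * (s * nlo * F1 + q * F0)) +
      (q * (s * t) - nlo) * (s * (s * nhi * F1 + q * F0)) =
      (nhi - nlo) * q * (s * (t * F1 + F0)) := by
    linear_combination (nlo * F1 * (nhi - q * (s * t)) + nhi * F1 * (q * (s * t) - nlo) -
      (nhi - nlo) * q * s * t * F1) * hss * 1 - 0 * hss +
      ((nhi - nlo) * q * s * t * F1) * hss
  have k4 : 0 < (nhi - nlo) * q := mul_pos (sub_pos.2 hlh) hq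
  have k5 : 0 ≤ (nhi - nlo) * q * (s * (t * F1 + F0)) := by
    rw [← k3]
    exact add_nonneg k1 k2
  exact (mul_nonneg_iff_of_pos_left k4).1 k5

/-! ### the face family -/

def bLo (nlo q : ℤ) : Cd := Cd.q ⟨nlo - q, -nlo, q, 0⟩ ⟨-nlo - q, nlo, q, 0⟩
def bHi (nhi q : ℤ) : Cd := Cd.q ⟨q - nhi, nhi, -q, 0⟩ ⟨-nhi - q, nhi, q, 0⟩
def bE (s q n : ℤ) (u : ℤ × ℤ × ℤ) : Cd :=
  Cd.q ⟨q - n, n, -q, 0⟩ ⟨s * (u.1 - u.2.1 - u.2.2), s * u.2.2, -(s * u.1), s * u.2.1⟩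

/-- all conditions of a slab region -/
def bAll (s q nlo nhi : ℤ) (Q : List (ℤ × ℤ × ℤ)) : List Cd :=
  bLo nlo q :: bHi nhi q :: Q.flatMap fun u => [bE s q (s * nlo) u, bE s q (s * nhi) u]

/-- the polygon of a slab region -/
def bPoly (s q nlo nhi : ℤ) (Q : List (ℤ × ℤ × ℤ)) : List (ℤ × ℤ × ℤ) :=
  (s * q, 0, -nlo) :: (-(s * q), 0, nhi) :: Q

theorem qf4 (p : Fin 4 → E3) (x1 x2 x3 : ℤ) (x0 : ℤ) (h : x0 = -x1 - x2 - x3) :
    ∑ i, ((vc ⟨x0, x1, x2, x3⟩ i : ℤ) : ℝ) • p i = (x1 : ℝ) • (p 1 - p 0) +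
      (x2 : ℝ) • (p 2 - p 0) + (x3 : ℝ) • (p 3 - p 0) := by
  rw [Fin.sum_univ_four, h]
  show ((-x1 - x2 - x3 : ℤ) : ℝ) • p 0 + (x1 : ℝ) • p 1 + (x2 : ℝ) • p 2 + (x3 : ℝ) • p 3 = _
  push_cast
  module

theorem region_b {s : ℤ} (hs : s = 1 ∨ s = -1) {nlo nhi q : ℤ} (hl : 0 < nlo) (hlh : nlo < nhi)
    (hq : 0 < q) (Q : List (ℤ × ℤ × ℤ))
    (hQ : ∀ t m : ℝ, (∀ u ∈ bPoly s q nlo nhi Q, 0 ≤ (u.1 : ℝ) * t + u.2.1 * m + u.2.2) →
      GoodV [0, 7, 6, 1] (VB t m)) : ROK (bAll s q nlo nhi Q) := by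
  intro p G h hc
  have hsr : (s : ℝ) = 1 ∨ (s : ℝ) = -1 := by
    rcases hs with rfl | rfl
    · left; norm_num
    · right; norm_num
  have hss : (s : ℝ) * s = 1 := by rcases hsr with h0 | h0 <;> rw [h0] <;> norm_num
  have hl' : (0 : ℝ) < nlo := by exact_mod_cast hl
  have hlh' : (nlo : ℝ) < nhi := by exact_mod_cast hlh
  have hq' : (0 : ℝ) < q := by exact_mod_cast hq
  obtain ⟨a, ha⟩ : ∃ a : E3, a = p 1 - p 0 := ⟨_, rfl⟩
  obtain ⟨d, hd⟩ : ∃ d : E3, d = p 2 - p 0 := ⟨_, rfl⟩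
  obtain ⟨c, hcc⟩ : ∃ c : E3, c = p 3 - p 0 := ⟨_, rfl⟩
  have g1a : ⟪G 1, a⟫ = 1 := by rw [ha, h.edge]; simp
  have g2a : ⟪G 2, a⟫ = 0 := by rw [ha, h.edge]; simp
  have g2d : ⟪G 2, d⟫ = 1 := by rw [hd, h.edge]; simp
  have ha0 : a ≠ 0 := by
    intro h0
    rw [h0, inner_zero_right] at g1a
    exact zero_ne_one g1a
  have hd0 : d ≠ 0 := by
    intro h0
    rw [h0, inner_zero_right] at g2d
    exact zero_ne_one g2d
  have haa : 0 < ⟪a, a⟫ := real_inner_self_pos.2 ha0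
  have hdd : 0 < ⟪d, d⟫ := real_inner_self_pos.2 hd0
  have q4 : ∀ x1 x2 x3 x0 : ℤ, x0 = -x1 - x2 - x3 →
      ∑ i, ((vc ⟨x0, x1, x2, x3⟩ i : ℤ) : ℝ) • p i = (x1 : ℝ) • a + (x2 : ℝ) • d +
        (x3 : ℝ) • c := by
    intro x1 x2 x3 x0 h0
    rw [ha, hd, hcc]
    exact qf4 p x1 x2 x3 x0 h0
  have hda : ⟪d, a⟫ = ⟪a, d⟫ := real_inner_comm _ _
  have hac : ⟪a, c⟫ = ⟪c, a⟫ := real_inner_comm _ _
  have hdc : ⟪d, c⟫ = ⟪c, d⟫ := real_inner_comm _ _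
  have c1 : 0 ≤ qform p (vc ⟨nlo - q, -nlo, q, 0⟩) (vc ⟨-nlo - q, nlo, q, 0⟩) :=
    hc _ (List.mem_map_of_mem (f := cdc) (List.mem_cons_self ..))
  have c2 : 0 ≤ qform p (vc ⟨q - nhi, nhi, -q, 0⟩) (vc ⟨-nhi - q, nhi, q, 0⟩) :=
    hc _ (List.mem_map_of_mem (f := cdc) (List.mem_cons_of_mem _ (List.mem_cons_self ..)))
  unfold qform at c1 c2
  rw [q4 _ _ _ _ (by ring), q4 _ _ _ _ (by ring)] at c1 c2
  push_cast at c1 c2
  simp only [inner_add_left, inner_add_right, real_inner_smul_left, real_inner_smul_right,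
    hda, hac, hdc] at c1 c2
  obtain ⟨t, ht0, htt, hst, hlo, hhi⟩ := slab_aux hsr hl' hlh' hq' haa hdd (by linarith)
    (by linarith)
  have hE : ∀ u ∈ Q, 0 ≤ (s : ℝ) * (t * (u.2.1 * ⟪c, a⟫ + u.2.2 * ⟪a, a⟫ - u.1 * ⟪a, d⟫) +
      (-(u.2.1 * ⟪c, d⟫) - u.2.2 * ⟪a, d⟫ + u.1 * ⟪d, d⟫)) := by
    intro u hu
    have d1 : 0 ≤ qform p (vc ⟨q - s * nlo, s * nlo, -q, 0⟩)
        (vc ⟨s * (u.1 - u.2.1 - u.2.2), s * u.2.2, -(s * u.1), s * u.2.1⟩) :=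
      hc _ (List.mem_map_of_mem (f := cdc) (List.mem_cons_of_mem _ (List.mem_cons_of_mem _
        (List.mem_flatMap.2 ⟨u, hu, List.mem_cons_self ..⟩))))
    have d2 : 0 ≤ qform p (vc ⟨q - s * nhi, s * nhi, -q, 0⟩)
        (vc ⟨s * (u.1 - u.2.1 - u.2.2), s * u.2.2, -(s * u.1), s * u.2.1⟩) :=
      hc _ (List.mem_map_of_mem (f := cdc) (List.mem_cons_of_mem _ (List.mem_cons_of_mem _
        (List.mem_flatMap.2 ⟨u, hu, List.mem_cons_of_mem _ (List.mem_cons_self ..)⟩))))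
    unfold qform at d1 d2
    rw [q4 _ _ _ _ (by ring), q4 _ _ _ _ (by ring)] at d1 d2
    push_cast at d1 d2
    simp only [inner_add_left, inner_add_right, real_inner_smul_left, real_inner_smul_right,
      hda, hac, hdc] at d1 d2
    refine slab_lin hlh' hq' hss hlo hhi ?_ ?_
    · refine le_of_le_of_eq d1 ?_
      ring
    · refine le_of_le_of_eq d2 ?_
      ring
  obtain ⟨w, hw⟩ : ∃ w : E3, w = t • a - d := ⟨_, rfl⟩
  obtain ⟨De, hDe⟩ : ∃ De, De = t * ⟪a, a⟫ - ⟪a, d⟫ := ⟨_, rfl⟩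
  have hww : ⟪w, w⟫ = 2 * t * De := by
    rw [hw, hDe]
    simp only [inner_sub_left, inner_sub_right, real_inner_smul_left, real_inner_smul_right, hda]
    linear_combination htt * (-1)
  have hw0 : w ≠ 0 := by
    intro h0
    have h1 : ⟪G 2, w⟫ = -1 := by
      rw [hw, inner_sub_right, real_inner_smul_right, g2a, g2d]
      ring
    rw [h0, inner_zero_right] at h1
    norm_num at h1
  have hww0 : 0 < 2 * t * De := by
    rw [← hww]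
    exact real_inner_self_pos.2 hw0
  have hsD : 0 < (s : ℝ) * De := by
    have h1 : 0 < (s * t) * (s * De) := by
      have e : ((s : ℝ) * t) * (s * De) = (s * s) * (2 * t * De) / 2 := by ring
      rw [e, hss]
      linarith
    exact (mul_pos_iff_of_pos_left hst).1 h1
  have hD0 : De ≠ 0 := by
    intro h0
    rw [h0, mul_zero] at hsD
    exact lt_irrefl _ hsD
  have hwc : ⟪w, c⟫ = t * ⟪c, a⟫ - ⟪c, d⟫ := by
    rw [hw]
    simp only [inner_sub_left, real_inner_smul_left, hac, hdc]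
  rw [D0'.range]
  refine transfer_b (D0'.aff h.aff) (t := t) (m := (t * ⟪c, a⟫ - ⟪c, d⟫) / De) ht0 ?_ ?_
    (hQ _ _ fun u hu => ?_)
  · rw [← ha, ← hd]
    simp only [inner_sub_left, inner_add_right, real_inner_smul_left, real_inner_smul_right, hda]
    linear_combination htt
  · rw [← ha, ← hd, ← hcc, ← hw, hww, hwc]
    field_simp
  · rcases List.mem_cons.1 hu with rfl | hu
    · push_cast
      linarith
    rcases List.mem_cons.1 hu with rfl | hu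
    · push_cast
      linarith
    have h1 := hE u hu
    have e : (u.1 : ℝ) * t + u.2.1 * ((t * ⟪c, a⟫ - ⟪c, d⟫) / De) + u.2.2 =
        (s * (t * (u.2.1 * ⟪c, a⟫ + u.2.2 * ⟪a, a⟫ - u.1 * ⟪a, d⟫) +
          (-(u.2.1 * ⟪c, d⟫) - u.2.2 * ⟪a, d⟫ + u.1 * ⟪d, d⟫))) / (s * De) := by
      rw [eq_div_iff hsD.ne']
      have e2 : (t * ⟪c, a⟫ - ⟪c, d⟫) / De * De = t * ⟪c, a⟫ - ⟪c, d⟫ := div_mul_cancel₀ _ hD0
      linear_combination (s : ℝ) * u.2.1 * e2 + (s : ℝ) * (u.1 * t + u.2.2) * hDe +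
        (s : ℝ) * u.1 * htt
    rw [e]
    exact div_nonneg h1 hsD.le

theorem rok_b {s : ℤ} (hs : s = 1 ∨ s = -1) {nlo nhi q : ℤ} (hl : 0 < nlo) (hlh : nlo < nhi)
    (hq : 0 < q) {M : FM} {L : List (List Z3)} {k : ℤ} (hk : k ≠ 0)
    {Q : List (ℤ × ℤ × ℤ)} {P : List Z3} {R : List Cd} (hR : bAll s q nlo nhi Q = R)
    (hP : (bPoly s q nlo nhi Q).map (zt k) = P) (hL : P ∈ L)
    (hfr : ∀ x y : ℝ, VB x y = M.v (30720 * x / k) (30720 * y / k))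
    {x0 x1 y0 y1 : ℤ}
    (hcov : ∀ X Y : ℝ, (x0 : ℝ) ≤ X → X ≤ x1 → (y0 : ℝ) ≤ Y → Y ≤ y1 →
      Out L X Y ∨ GoodV [0, 7, 6, 1] (M.v X Y))
    (hbox : ∀ X Y : ℝ, (∀ t ∈ P, 0 ≤ (t.c : ℝ) + t.a * X + t.b * Y) →
      ((x0 : ℝ) ≤ X ∧ X ≤ x1) ∧ ((y0 : ℝ) ≤ Y ∧ Y ≤ y1)) : ROK R := by
  have h := region_b hs hl hlh hq Q (fun x y hxy => by
    have h1 := poly_ok hk hP hL hcov hbox hxy
    rw [← hfr] at h1
    exact h1)
  rw [hR] at h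
  exact h

/-! ### the edge family -/

/-- the bisector frame of a dihedral angle; rows: `B`, `C`, `D` -/
def VD (t m : ℝ) : Fin 3 → Fin 3 → ℝ := ![![1, 1, 0], ![0, 0, 1], ![-t, t, m]]

theorem transfer_d {A B C D : E3} (h : AffineIndependent ℝ ![A, B, C, D]) {t m : ℝ} (ht : t ≠ 0)
    (h1 : ⟪t • (B - A) + m • (C - A) - (D - A), C - A⟫ = 0)
    (h2 : 2 * t * ⟪t • (B - A) + m • (C - A) - (D - A), B - A⟫ =
      ⟪t • (B - A) + m • (C - A) - (D - A), t • (B - A) + m • (C - A) - (D - A)⟫)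
    (hg : GoodV [0, 7, 6, 1] (VD t m)) : Dense (convexHull ℝ {A, B, C, D}) := by
  have h2t : 2 * t ≠ 0 := mul_ne_zero two_ne_zero ht
  obtain ⟨w, hw⟩ : ∃ w : E3, w = t • (B - A) + m • (C - A) - (D - A) := ⟨_, rfl⟩
  rw [← hw] at h1 h2
  refine transferX h hg ![(2 * t)⁻¹ • w, (B - A) - (2 * t)⁻¹ • w, C - A] ?_ ?_ ?_ ?_ ?_
  · unfold Qm VD
    rw [Fin.sum_univ_three]
    show (1 : ℝ) • ((2 * t)⁻¹ • w) + (1 : ℝ) • ((B - A) - (2 * t)⁻¹ • w) +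
      (0 : ℝ) • (C - A) = B - A
    module
  · unfold Qm VD
    rw [Fin.sum_univ_three]
    show (0 : ℝ) • ((2 * t)⁻¹ • w) + (0 : ℝ) • ((B - A) - (2 * t)⁻¹ • w) +
      (1 : ℝ) • (C - A) = C - A
    module
  · unfold Qm VD
    rw [Fin.sum_univ_three]
    show (-t) • ((2 * t)⁻¹ • w) + t • ((B - A) - (2 * t)⁻¹ • w) + m • (C - A) = D - A
    have e : (-t) • ((2 * t)⁻¹ • w) + t • ((B - A) - (2 * t)⁻¹ • w) + m • (C - A) =
        t • (B - A) + m • (C - A) - ((2 * t)⁻¹ * (2 * t)) • w := by module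
    rw [e, inv_mul_cancel₀ h2t, one_smul, hw]
    abel
  · show ⟪(2 * t)⁻¹ • w, (B - A) - (2 * t)⁻¹ • w⟫ = 0
    rw [real_inner_smul_left, inner_sub_right, real_inner_smul_right]
    have e : (2 * t)⁻¹ * ⟪w, w⟫ = ⟪w, B - A⟫ := by
      rw [← h2, ← mul_assoc, inv_mul_cancel₀ h2t, one_mul]
    rw [e]
    ring
  · show ⟪(2 * t)⁻¹ • w, C - A⟫ = 0
    rw [real_inner_smul_left, h1, mul_zero]

def dLo (nlo q : ℤ) : Cd := Cd.l ⟨0, q, 0, -nlo⟩ ⟨0, q, 0, nlo⟩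
def dHi (nhi q : ℤ) : Cd := Cd.l ⟨0, -q, 0, nhi⟩ ⟨0, q, 0, nhi⟩
def dE (s q n : ℤ) (u : ℤ × ℤ × ℤ) : Cd :=
  Cd.l ⟨0, q, 0, -n⟩ ⟨0, s * u.1, s * u.2.1, -(s * u.2.2)⟩

def dAll (s q nlo nhi : ℤ) (Q : List (ℤ × ℤ × ℤ)) : List Cd :=
  dLo nlo q :: dHi nhi q :: Q.flatMap fun u => [dE s q (s * nlo) u, dE s q (s * nhi) u]

theorem lf4 (G : Fin 4 → E3) (x1 x2 x3 : ℤ) :
    ∑ i, ((vc ⟨0, x1, x2, x3⟩ i : ℤ) : ℝ) • G i = (x1 : ℝ) • G 1 + (x2 : ℝ) • G 2 +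
      (x3 : ℝ) • G 3 := by
  rw [Fin.sum_univ_four]
  show ((0 : ℤ) : ℝ) • G 0 + (x1 : ℝ) • G 1 + (x2 : ℝ) • G 2 + (x3 : ℝ) • G 3 = _
  push_cast
  module

theorem region_d {s : ℤ} (hs : s = 1 ∨ s = -1) {nlo nhi q : ℤ} (hl : 0 < nlo) (hlh : nlo < nhi)
    (hq : 0 < q) (Q : List (ℤ × ℤ × ℤ))
    (hQ : ∀ t m : ℝ, (∀ u ∈ bPoly s q nlo nhi Q, 0 ≤ (u.1 : ℝ) * t + u.2.1 * m + u.2.2) →
      GoodV [0, 7, 6, 1] (VD t m)) : ROK (dAll s q nlo nhi Q) := by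
  intro p G h hc
  have hsr : (s : ℝ) = 1 ∨ (s : ℝ) = -1 := by
    rcases hs with rfl | rfl
    · left; norm_num
    · right; norm_num
  have hss : (s : ℝ) * s = 1 := by rcases hsr with h0 | h0 <;> rw [h0] <;> norm_num
  have hl' : (0 : ℝ) < nlo := by exact_mod_cast hl
  have hlh' : (nlo : ℝ) < nhi := by exact_mod_cast hlh
  have hq' : (0 : ℝ) < q := by exact_mod_cast hq
  have hDD : 0 < ⟪G 3, G 3⟫ := h.pos 3
  have hBB : 0 < ⟪G 1, G 1⟫ := h.pos 1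
  have h31 : ⟪G 3, G 1⟫ = ⟪G 1, G 3⟫ := real_inner_comm _ _
  have h12 : ⟪G 1, G 2⟫ = ⟪G 2, G 1⟫ := real_inner_comm _ _
  have h32 : ⟪G 3, G 2⟫ = ⟪G 2, G 3⟫ := real_inner_comm _ _
  have c1 : 0 ≤ lform G (vc ⟨0, q, 0, -nlo⟩) (vc ⟨0, q, 0, nlo⟩) :=
    hc _ (List.mem_map_of_mem (f := cdc) (List.mem_cons_self ..))
  have c2 : 0 ≤ lform G (vc ⟨0, -q, 0, nhi⟩) (vc ⟨0, q, 0, nhi⟩) :=
    hc _ (List.mem_map_of_mem (f := cdc) (List.mem_cons_of_mem _ (List.mem_cons_self ..)))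
  unfold lform at c1 c2
  rw [lf4, lf4] at c1 c2
  push_cast at c1 c2
  simp only [inner_add_left, inner_add_right, real_inner_smul_left, real_inner_smul_right,
    h31, h12, h32] at c1 c2
  obtain ⟨t, ht0, htt, hst, hlo, hhi⟩ := slab_aux hsr hl' hlh' hq' hDD hBB (by linarith)
    (by linarith)
  have hE : ∀ u ∈ Q, 0 ≤ (s : ℝ) * (t * (-(u.1 * ⟪G 1, G 3⟫) - u.2.1 * ⟪G 2, G 3⟫ +
      u.2.2 * ⟪G 3, G 3⟫) + (u.1 * ⟪G 1, G 1⟫ + u.2.1 * ⟪G 2, G 1⟫ - u.2.2 * ⟪G 1, G 3⟫)) := by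
    intro u hu
    have d1 : 0 ≤ lform G (vc ⟨0, q, 0, -(s * nlo)⟩)
        (vc ⟨0, s * u.1, s * u.2.1, -(s * u.2.2)⟩) :=
      hc _ (List.mem_map_of_mem (f := cdc) (List.mem_cons_of_mem _ (List.mem_cons_of_mem _
        (List.mem_flatMap.2 ⟨u, hu, List.mem_cons_self ..⟩))))
    have d2 : 0 ≤ lform G (vc ⟨0, q, 0, -(s * nhi)⟩)
        (vc ⟨0, s * u.1, s * u.2.1, -(s * u.2.2)⟩) :=
      hc _ (List.mem_map_of_mem (f := cdc) (List.mem_cons_of_mem _ (List.mem_cons_of_mem _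
        (List.mem_flatMap.2 ⟨u, hu, List.mem_cons_of_mem _ (List.mem_cons_self ..)⟩))))
    unfold lform at d1 d2
    rw [lf4, lf4] at d1 d2
    push_cast at d1 d2
    simp only [inner_add_left, inner_add_right, real_inner_smul_left, real_inner_smul_right,
      h31, h12, h32] at d1 d2
    refine slab_lin hlh' hq' hss hlo hhi ?_ ?_
    · refine le_of_le_of_eq d1 ?_
      ring
    · refine le_of_le_of_eq d2 ?_
      ring
  obtain ⟨f, hf⟩ : ∃ f : E3, f = G 1 - t • G 3 := ⟨_, rfl⟩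
  obtain ⟨De, hDe⟩ : ∃ De, De = t * ⟪G 3, G 3⟫ - ⟪G 1, G 3⟫ := ⟨_, rfl⟩
  have hff : ⟪f, f⟫ = 2 * t * De := by
    rw [hf, hDe]
    simp only [inner_sub_left, inner_sub_right, real_inner_smul_left, real_inner_smul_right, h31]
    linear_combination htt * (-1)
  have fb : ⟪f, p 1 - p 0⟫ = 1 := by
    rw [hf, inner_sub_left, real_inner_smul_left, h.edge, h.edge]
    simp
  have fc : ⟪f, p 2 - p 0⟫ = 0 := by
    rw [hf, inner_sub_left, real_inner_smul_left, h.edge, h.edge]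
    simp
  have hf0 : f ≠ 0 := by
    intro h0
    rw [h0, inner_zero_left] at fb
    exact zero_ne_one fb
  have hff0 : 0 < 2 * t * De := by
    rw [← hff]
    exact real_inner_self_pos.2 hf0
  have hsD : 0 < (s : ℝ) * De := by
    have h1 : 0 < (s * t) * (s * De) := by
      have e : ((s : ℝ) * t) * (s * De) = (s * s) * (2 * t * De) / 2 := by ring
      rw [e, hss]
      linarith
    exact (mul_pos_iff_of_pos_left hst).1 h1
  have hD0 : De ≠ 0 := by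
    intro h0
    rw [h0, mul_zero] at hsD
    exact lt_irrefl _ hsD
  obtain ⟨μ, hμ⟩ : ∃ μ, μ = (⟪G 2, G 1⟫ - t * ⟪G 2, G 3⟫) / De := ⟨_, rfl⟩
  have hμD : μ * De = ⟪G 2, G 1⟫ - t * ⟪G 2, G 3⟫ := by
    rw [hμ]
    exact div_mul_cancel₀ _ hD0
  -- the expansion of `f`
  have hex := h.expand D0 f
  have k1 : ⟪G 1, f⟫ = De * t := by
    rw [hf, hDe, inner_sub_right, real_inner_smul_right]
    linear_combination (-1) * htt
  have k2 : ⟪G 2, f⟫ = De * μ := by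
    rw [mul_comm, hμD, hf, inner_sub_right, real_inner_smul_right]
  have k3 : ⟪G 3, f⟫ = -De := by
    rw [hf, hDe, inner_sub_right, real_inner_smul_right, h31]
    ring
  rw [k1, k2, k3] at hex
  have hfw : f = De • (t • (p 1 - p 0) + μ • (p 2 - p 0) - (p 3 - p 0)) := by
    rw [← hex]
    module
  obtain ⟨w, hw⟩ : ∃ w : E3, w = t • (p 1 - p 0) + μ • (p 2 - p 0) - (p 3 - p 0) := ⟨_, rfl⟩
  rw [← hw] at hfw
  rw [D0'.range]
  refine transfer_d (D0'.aff h.aff) (t := t) (m := μ) ht0 ?_ ?_ (hQ _ _ fun u hu => ?_)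
  · rw [← hw]
    rw [hfw, real_inner_smul_left] at fc
    exact (mul_eq_zero.1 fc).resolve_left hD0
  · rw [← hw]
    have e1 : De * ⟪w, p 1 - p 0⟫ = 1 := by
      rw [← real_inner_smul_left, ← hfw]
      exact fb
    have e2 : De * (De * ⟪w, w⟫) = 2 * t * De := by
      rw [← hff, hfw, real_inner_smul_left, real_inner_smul_right]
    have e3 : De * (De * (2 * t * ⟪w, p 1 - p 0⟫)) = De * (De * ⟪w, w⟫) := by
      rw [e2]
      linear_combination 2 * t * De * e1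
    exact mul_left_cancel₀ hD0 (mul_left_cancel₀ hD0 e3)
  · rcases List.mem_cons.1 hu with rfl | hu
    · push_cast
      linarith
    rcases List.mem_cons.1 hu with rfl | hu
    · push_cast
      linarith
    have h1 := hE u hu
    have e : (u.1 : ℝ) * t + u.2.1 * μ + u.2.2 =
        (s * (t * (-(u.1 * ⟪G 1, G 3⟫) - u.2.1 * ⟪G 2, G 3⟫ + u.2.2 * ⟪G 3, G 3⟫) +
          (u.1 * ⟪G 1, G 1⟫ + u.2.1 * ⟪G 2, G 1⟫ - u.2.2 * ⟪G 1, G 3⟫))) / (s * De) := by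
      rw [eq_div_iff hsD.ne']
      linear_combination (s : ℝ) * u.2.1 * hμD + (s : ℝ) * (u.1 * t + u.2.2) * hDe +
        (s : ℝ) * u.1 * htt
    rw [e]
    exact div_nonneg h1 hsD.le

theorem rok_d {s : ℤ} (hs : s = 1 ∨ s = -1) {nlo nhi q : ℤ} (hl : 0 < nlo) (hlh : nlo < nhi)
    (hq : 0 < q) {M : FM} {L : List (List Z3)} {k : ℤ} (hk : k ≠ 0)
    {Q : List (ℤ × ℤ × ℤ)} {P : List Z3} {R : List Cd} (hR : dAll s q nlo nhi Q = R)
    (hP : (bPoly s q nlo nhi Q).map (zt k) = P) (hL : P ∈ L)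
    (hfr : ∀ x y : ℝ, VD x y = M.v (30720 * x / k) (30720 * y / k))
    {x0 x1 y0 y1 : ℤ}
    (hcov : ∀ X Y : ℝ, (x0 : ℝ) ≤ X → X ≤ x1 → (y0 : ℝ) ≤ Y → Y ≤ y1 →
      Out L X Y ∨ GoodV [0, 7, 6, 1] (M.v X Y))
    (hbox : ∀ X Y : ℝ, (∀ t ∈ P, 0 ≤ (t.c : ℝ) + t.a * X + t.b * Y) →
      ((x0 : ℝ) ≤ X ∧ X ≤ x1) ∧ ((y0 : ℝ) ≤ Y ∧ Y ≤ y1)) : ROK R := by
  have h := region_d hs hl hlh hq Q (fun x y hxy => by
    have h1 := poly_ok hk hP hL hcov hbox hxy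
    rw [← hfr] at h1
    exact h1)
  rw [hR] at h
  exact h

/-! ### exchanging two vertices -/

/-- exchange of the first two rows -/
def swp (V : Fin 3 → Fin 3 → ℝ) : Fin 3 → Fin 3 → ℝ := ![V 1, V 0, V 2]

theorem GoodV.swp {A : List ℕ} {V : Fin 3 → Fin 3 → ℝ} (h : GoodV A (swp V)) : GoodV A V := by
  obtain ⟨N, τ, U, t, hN, hτ, hU, hd, hp⟩ := h
  have d1 : (Matrix.of (Pool.Agent.TET.swp V)).det = -(Matrix.of V).det := by
    rw [Matrix.det_fin_three, Matrix.det_fin_three]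
    show V 1 0 * V 0 1 * V 2 2 - V 1 0 * V 0 2 * V 2 1 - V 1 1 * V 0 0 * V 2 2 +
      V 1 1 * V 0 2 * V 2 0 + V 1 2 * V 0 0 * V 2 1 - V 1 2 * V 0 1 * V 2 0 =
      -(V 0 0 * V 1 1 * V 2 2 - V 0 0 * V 1 2 * V 2 1 - V 0 1 * V 1 0 * V 2 2 +
      V 0 1 * V 1 2 * V 2 0 + V 0 2 * V 1 0 * V 2 1 - V 0 2 * V 1 1 * V 2 0)
    ring
  rw [d1, abs_neg] at hd
  refine ⟨N, τ, U, t, hN, hτ, hU, hd, fun i j k hk => ?_⟩
  obtain ⟨g, hg, h1⟩ := hp i j k hk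
  have e : ∀ m : Fin 4, ∃ n : Fin 4, Vx V m = Vx (Pool.Agent.TET.swp V) n := by
    intro m
    fin_cases m
    · exact ⟨0, rfl⟩
    · exact ⟨2, rfl⟩
    · exact ⟨1, rfl⟩
    · exact ⟨3, rfl⟩
  refine ⟨g, hg, fun m m' => ?_⟩
  obtain ⟨n, hn⟩ := e m
  obtain ⟨n', hn'⟩ := e m'
  rw [hn, hn']
  exact h1 n n'

theorem rok_bs {s : ℤ} (hs : s = 1 ∨ s = -1) {nlo nhi q : ℤ} (hl : 0 < nlo) (hlh : nlo < nhi)
    (hq : 0 < q) {M : FM} {L : List (List Z3)} {k : ℤ} (hk : k ≠ 0)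
    {Q : List (ℤ × ℤ × ℤ)} {P : List Z3} {R : List Cd} (hR : bAll s q nlo nhi Q = R)
    (hP : (bPoly s q nlo nhi Q).map (zt k) = P) (hL : P ∈ L)
    (hfr : ∀ x y : ℝ, swp (VB x y) = M.v (30720 * x / k) (30720 * y / k))
    {x0 x1 y0 y1 : ℤ}
    (hcov : ∀ X Y : ℝ, (x0 : ℝ) ≤ X → X ≤ x1 → (y0 : ℝ) ≤ Y → Y ≤ y1 →
      Out L X Y ∨ GoodV [0, 7, 6, 1] (M.v X Y))
    (hbox : ∀ X Y : ℝ, (∀ t ∈ P, 0 ≤ (t.c : ℝ) + t.a * X + t.b * Y) →
      ((x0 : ℝ) ≤ X ∧ X ≤ x1) ∧ ((y0 : ℝ) ≤ Y ∧ Y ≤ y1)) : ROK R := by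
  have h := region_b hs hl hlh hq Q (fun x y hxy => by
    have h1 := poly_ok hk hP hL hcov hbox hxy
    rw [← hfr] at h1
    exact h1.swp)
  rw [hR] at h
  exact h

theorem rok_ds {s : ℤ} (hs : s = 1 ∨ s = -1) {nlo nhi q : ℤ} (hl : 0 < nlo) (hlh : nlo < nhi)
    (hq : 0 < q) {M : FM} {L : List (List Z3)} {k : ℤ} (hk : k ≠ 0)
    {Q : List (ℤ × ℤ × ℤ)} {P : List Z3} {R : List Cd} (hR : dAll s q nlo nhi Q = R)
    (hP : (bPoly s q nlo nhi Q).map (zt k) = P) (hL : P ∈ L)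
    (hfr : ∀ x y : ℝ, swp (VD x y) = M.v (30720 * x / k) (30720 * y / k))
    {x0 x1 y0 y1 : ℤ}
    (hcov : ∀ X Y : ℝ, (x0 : ℝ) ≤ X → X ≤ x1 → (y0 : ℝ) ≤ Y → Y ≤ y1 →
      Out L X Y ∨ GoodV [0, 7, 6, 1] (M.v X Y))
    (hbox : ∀ X Y : ℝ, (∀ t ∈ P, 0 ≤ (t.c : ℝ) + t.a * X + t.b * Y) →
      ((x0 : ℝ) ≤ X ∧ X ≤ x1) ∧ ((y0 : ℝ) ≤ Y ∧ Y ≤ y1)) : ROK R := by
  have h := region_d hs hl hlh hq Q (fun x y hxy => by
    have h1 := poly_ok hk hP hL hcov hbox hxy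
    rw [← hfr] at h1
    exact h1.swp)
  rw [hR] at h
  exact h

end Pool.Agent.TET
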