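import Pool.Agent.Helper38_TET.RegS

/-!
# MP_c7c9bf_co: regions for planes, frame with the plane first and the vertex `C` as pivot
-/

set_option autoImplicit false
set_option maxRecDepth 100000

namespace Pool.Agent.TET

open MeasureTheory Set Filter Pool.Agent.UL3 Pool.Agent.UL3.H88
open scoped ENNReal Topology RealInnerProductSpace Matrix
open Cvr (V4 Cd)

/-- first coordinate the functional, the two others in the plane -/
def VC (f1 f2 f3 x y : ℝ) : Fin 3 → Fin 3 → ℝ := ![![f1, 1, 0], ![f2, x, y], ![f3, 0, 1]]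

theorem transfer_c {A B C D g : E3} (h : AffineIndependent ℝ ![A, B, C, D])
    {f1 f2 f3 x y q : ℝ} (hq : ⟪g, g⟫ = q) (hq0 : q ≠ 0) (hB : ⟪g, B - A⟫ = f1)
    (hD : ⟪g, D - A⟫ = f3)
    (hc : (C - A) - (f2 / q) • g = x • ((B - A) - (f1 / q) • g) + y • ((D - A) - (f3 / q) • g))
    (hg : GoodV [0, 7, 6, 1] (VC f1 f2 f3 x y)) : Dense (convexHull ℝ {A, B, C, D}) := by
  refine transferX h hg ![q⁻¹ • g, (B - A) - (f1 / q) • g, (D - A) - (f3 / q) • g] ?_ ?_ ?_ ?_ ?_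
  · unfold Qm VC
    rw [Fin.sum_univ_three]
    show f1 • (q⁻¹ • g) + (1 : ℝ) • ((B - A) - (f1 / q) • g) +
      (0 : ℝ) • ((D - A) - (f3 / q) • g) = B - A
    rw [smul_smul, ← div_eq_mul_inv]
    module
  · unfold Qm VC
    rw [Fin.sum_univ_three]
    show f2 • (q⁻¹ • g) + x • ((B - A) - (f1 / q) • g) +
      y • ((D - A) - (f3 / q) • g) = C - A
    rw [add_assoc, ← hc, smul_smul, ← div_eq_mul_inv]
    module
  · unfold Qm VC
    rw [Fin.sum_univ_three]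
    show f3 • (q⁻¹ • g) + (0 : ℝ) • ((B - A) - (f1 / q) • g) +
      (1 : ℝ) • ((D - A) - (f3 / q) • g) = D - A
    rw [smul_smul, ← div_eq_mul_inv]
    module
  · show ⟪q⁻¹ • g, (B - A) - (f1 / q) • g⟫ = 0
    rw [real_inner_smul_left, inner_sub_right, real_inner_smul_right, hB, hq]
    field_simp
    ring
  · show ⟪q⁻¹ • g, (D - A) - (f3 / q) • g⟫ = 0
    rw [real_inner_smul_left, inner_sub_right, real_inner_smul_right, hD, hq]
    field_simp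
    ring

theorem region_c (f : Fin 4 → ℤ) (hf : f 3 ≠ f 0) (Q : List (ℤ × ℤ × ℤ))
    (hs : ∀ b c d : ℝ, (∀ t ∈ Q, 0 ≤ (t.1 : ℝ) * b + t.2.1 * d - t.2.2 * c) →
      c ≤ 0 ∧ (c = 0 → b = 0 ∧ d = 0))
    (hQ : ∀ x y : ℝ, (∀ t ∈ Q, 0 ≤ (t.1 : ℝ) * x + t.2.1 * y + t.2.2) →
      GoodV [0, 7, 6, 1] (VC ((f 1 : ℝ) - f 0) ((f 2 : ℝ) - f 0) ((f 3 : ℝ) - f 0) x y)) :
    RegionOK (Q.map fun t => Cond.l ![0, t.1, -t.2.2, t.2.1] f) := by
  intro p G h hc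
  obtain ⟨F, hF⟩ : ∃ F : Fin 4 → ℝ, F = fun i => (f i : ℝ) := ⟨_, rfl⟩
  have hFi : ∀ i, F i = f i := fun i => by rw [hF]
  have h3 : F 3 - F 0 ≠ 0 := by
    rw [hFi, hFi]
    intro h0
    apply hf
    have : (f 3 : ℝ) = f 0 := by linarith
    exact_mod_cast this
  have hqf := h.qf_pos (f := F) h3
  obtain ⟨g, hg⟩ : ∃ g : E3, g = ∑ m, F m • G m := ⟨_, rfl⟩
  have hgg : ⟪g, g⟫ = qf G F := by rw [hg]; exact inner_ff G F
  have hgp : ∀ m, ⟪g, p m - p 0⟫ = F m - F 0 := by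
    intro m
    rw [hg]
    exact inner_fp h F m 0
  have hge : g = (Lf G F 1) • (p 1 - p 0) + (Lf G F 2) • (p 2 - p 0) + (Lf G F 3) • (p 3 - p 0) := by
    rw [hg, ← h.gf_eq F, ← comb_eq D0 (h.sumL F)]
  have hform : ∀ t ∈ Q, 0 ≤ (t.1 : ℝ) * Lf G F 1 + t.2.1 * Lf G F 3 - t.2.2 * Lf G F 2 := by
    intro t ht
    have h1 : 0 ≤ lform G ![0, t.1, -t.2.2, t.2.1] f :=
      hc _ (List.mem_map_of_mem (f := fun t : ℤ × ℤ × ℤ =>
        Cond.l ![0, t.1, -t.2.2, t.2.1] f) ht)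
    have h2 : lform G ![0, t.1, -t.2.2, t.2.1] f =
        t.1 * Lf G F 1 + t.2.1 * Lf G F 3 - t.2.2 * Lf G F 2 := by
      unfold lform
      have e : ∑ i, (((![0, t.1, -t.2.2, t.2.1] : Fin 4 → ℤ) i : ℤ) : ℝ) • G i =
          (t.1 : ℝ) • G 1 + (-t.2.2 : ℝ) • G 2 + (t.2.1 : ℝ) • G 3 := by
        rw [Fin.sum_univ_four]
        show ((0 : ℤ) : ℝ) • G 0 + ((t.1 : ℤ) : ℝ) • G 1 + ((-t.2.2 : ℤ) : ℝ) • G 2 +
          ((t.2.1 : ℤ) : ℝ) • G 3 = _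
        push_cast
        module
      have e' : ∑ i, (f i : ℝ) • G i = ∑ i, F i • G i :=
        Finset.sum_congr rfl fun i _ => by rw [hFi]
      rw [e, e', inner_add_left, inner_add_left, real_inner_smul_left,
        real_inner_smul_left, real_inner_smul_left, inner_gf, inner_gf, inner_gf]
      ring
    rw [← h2]
    exact h1
  obtain ⟨s1, s2⟩ := hs _ _ _ hform
  have hn : Lf G F 2 ≠ 0 := by
    intro h0
    obtain ⟨h4, h5⟩ := s2 h0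
    have h6 : g = 0 := by
      rw [hge, h0, h4, h5]
      module
    rw [h6, inner_zero_left] at hgg
    exact hqf.ne hgg
  have hneg : Lf G F 2 < 0 := lt_of_le_of_ne s1 hn
  have hD : D4 3 0 1 2 := D0'
  rw [hD.range]
  have hc2 : F 2 - F 0 = (qf G F - Lf G F 1 * (F 1 - F 0) - Lf G F 3 * (F 3 - F 0)) / Lf G F 2 := by
    have h7 : ⟪g, g⟫ = Lf G F 1 * (F 1 - F 0) + Lf G F 2 * (F 2 - F 0) +
        Lf G F 3 * (F 3 - F 0) := by
      have h8 : ⟪g, g⟫ = ⟪g, (Lf G F 1) • (p 1 - p 0) + (Lf G F 2) • (p 2 - p 0) +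
          (Lf G F 3) • (p 3 - p 0)⟫ := by rw [← hge]
      rw [h8, inner_add_right, inner_add_right, real_inner_smul_right, real_inner_smul_right,
        real_inner_smul_right, hgp, hgp, hgp]
    rw [hgg] at h7
    rw [h7]
    field_simp
    ring
  refine transfer_c (hD.aff h.aff) (g := g) (q := qf G F) (f1 := F 1 - F 0) (f2 := F 2 - F 0)
    (f3 := F 3 - F 0) (x := -(Lf G F 1) / Lf G F 2) (y := -(Lf G F 3) / Lf G F 2) hgg hqf.ne'
    (hgp 1) (hgp 3) ?_ ?_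
  · have h8 : p 2 - p 0 = (Lf G F 2)⁻¹ • (g - (Lf G F 1) • (p 1 - p 0) -
        (Lf G F 3) • (p 3 - p 0)) := by
      rw [eq_inv_smul_iff₀ hn]
      conv_rhs => rw [hge]
      module
    rw [h8, hc2]
    match_scalars <;> field_simp <;> ring
  · have h9 := hQ (-(Lf G F 1) / Lf G F 2) (-(Lf G F 3) / Lf G F 2) fun t ht => by
      have h10 := hform t ht
      have h11 : (t.1 : ℝ) * (-(Lf G F 1) / Lf G F 2) + t.2.1 * (-(Lf G F 3) / Lf G F 2) + t.2.2 =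
          (t.1 * Lf G F 1 + t.2.1 * Lf G F 3 - t.2.2 * Lf G F 2) / (-(Lf G F 2)) := by
        field_simp
        ring
      rw [h11]
      exact div_nonneg h10 (by linarith)
    rw [hFi, hFi, hFi, hFi]
    exact h9

/-- the condition of an edge -/
def cCd (f : V4) (t : ℤ × ℤ × ℤ) : Cd := Cd.l ⟨0, t.1, -t.2.2, t.2.1⟩ f

theorem rok_c {f : V4} (hf : f.d ≠ f.a) {M : FM} {L : List (List Z3)} {k : ℤ} (hk : k ≠ 0)
    {Q : List (ℤ × ℤ × ℤ)} {P : List Z3} {R : List Cd} (hR : Q.map (cCd f) = R)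
    (hP : Q.map (zt k) = P) (hL : P ∈ L)
    {s : Fin 3 → ℝ} (hsc : ∀ a, s a ≠ 0)
    (hfr : ∀ x y : ℝ, scl s (VC ((f.b : ℝ) - f.a) ((f.c : ℝ) - f.a) ((f.d : ℝ) - f.a) x y) =
      M.v (30720 * x / k) (30720 * y / k))
    {x0 x1 y0 y1 : ℤ}
    (hcov : ∀ X Y : ℝ, (x0 : ℝ) ≤ X → X ≤ x1 → (y0 : ℝ) ≤ Y → Y ≤ y1 →
      Out L X Y ∨ GoodV [0, 7, 6, 1] (M.v X Y))
    (hbox : ∀ X Y : ℝ, (∀ t ∈ P, 0 ≤ (t.c : ℝ) + t.a * X + t.b * Y) →
      ((x0 : ℝ) ≤ X ∧ X ≤ x1) ∧ ((y0 : ℝ) ≤ Y ∧ Y ≤ y1))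
    (hs : ∀ b c d : ℝ, (∀ t ∈ Q, 0 ≤ (t.1 : ℝ) * b + t.2.1 * d - t.2.2 * c) →
      c ≤ 0 ∧ (c = 0 → b = 0 ∧ d = 0)) : ROK R := by
  have h := region_c (vc f) hf Q hs (fun x y hxy => by
    have h1 := poly_ok hk hP hL hcov hbox hxy
    rw [← hfr] at h1
    exact GoodV.scale s hsc h1)
  have e : (Q.map fun t => Cond.l ![0, t.1, -t.2.2, t.2.1] (vc f)) = R.map cdc := by
    rw [← hR, List.map_map]
    rfl
  rw [e] at h
  exact h

end Pool.Agent.TET
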