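import Pool.Agent.Helper38_TET.RegS

/-!
# MP_c7c9bf_co: implied conditions
-/

set_option autoImplicit false
set_option maxRecDepth 100000

namespace Pool.Agent.TET

open MeasureTheory Set Filter Pool.Agent.UL3 Pool.Agent.UL3.H88
open scoped ENNReal Topology RealInnerProductSpace Matrix
open Cvr (V4 Cd)

/-- a condition which is implied by two others may be dropped -/
theorem ROK.drop_l {R : List Cd} {f m1 m2 m : V4} {a b : ℤ} (ha : 0 ≤ a) (hb : 0 ≤ b)
    (h1 : Cd.l m1 f ∈ R) (h2 : Cd.l m2 f ∈ R)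
    (e : m = ⟨a * m1.a + b * m2.a, a * m1.b + b * m2.b, a * m1.c + b * m2.c,
      a * m1.d + b * m2.d⟩) (h : ROK (R ++ [Cd.l m f])) : ROK R := by
  intro p G hg hc
  refine h p G hg fun c hcm => ?_
  rw [List.map_append, List.mem_append] at hcm
  rcases hcm with hcm | hcm
  · exact hc c hcm
  · have hc' : c = cdc (Cd.l m f) := by simpa using hcm
    rw [hc']
    show 0 ≤ lform G (vc m) (vc f)
    have k1 : 0 ≤ lform G (vc m1) (vc f) := hc _ (List.mem_map_of_mem (f := cdc) h1)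
    have k2 : 0 ≤ lform G (vc m2) (vc f) := hc _ (List.mem_map_of_mem (f := cdc) h2)
    have e2 : lform G (vc m) (vc f) =
        (a : ℝ) * lform G (vc m1) (vc f) + (b : ℝ) * lform G (vc m2) (vc f) := by
      unfold lform
      have e3 : ∑ i, ((vc m i : ℤ) : ℝ) • G i =
          (a : ℝ) • (∑ i, ((vc m1 i : ℤ) : ℝ) • G i) +
            (b : ℝ) • (∑ i, ((vc m2 i : ℤ) : ℝ) • G i) := by
        rw [e, Fin.sum_univ_four, Fin.sum_univ_four, Fin.sum_univ_four]
        show ((a * m1.a + b * m2.a : ℤ) : ℝ) • G 0 + ((a * m1.b + b * m2.b : ℤ) : ℝ) • G 1 +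
          ((a * m1.c + b * m2.c : ℤ) : ℝ) • G 2 + ((a * m1.d + b * m2.d : ℤ) : ℝ) • G 3 =
          (a : ℝ) • ((m1.a : ℝ) • G 0 + (m1.b : ℝ) • G 1 + (m1.c : ℝ) • G 2 + (m1.d : ℝ) • G 3) +
          (b : ℝ) • ((m2.a : ℝ) • G 0 + (m2.b : ℝ) • G 1 + (m2.c : ℝ) • G 2 + (m2.d : ℝ) • G 3)
        push_cast
        module
      rw [e3, inner_add_left, real_inner_smul_left, real_inner_smul_left]
    rw [e2]
    have ha' : (0 : ℝ) ≤ a := by exact_mod_cast ha
    have hb' : (0 : ℝ) ≤ b := by exact_mod_cast hb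
    exact add_nonneg (mul_nonneg ha' k1) (mul_nonneg hb' k2)

end Pool.Agent.TET
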