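import Pool.Agent.Helper38_TET.RegZ
import Pool.Agent.Helper38_TET.Cov4
import Pool.Agent.Helper38_TET.BoxO

/-!
# MP_c7c9bf_co: regions of full flags, eight classes
-/

set_option autoImplicit false
set_option maxRecDepth 100000

namespace Pool.Agent.TET

open MeasureTheory Set Filter Pool.Agent.UL3 Pool.Agent.UL3.H88
open scoped ENNReal Topology RealInnerProductSpace
open Cvr (V4 Cd)

/-- `α g + γ ≥ 0` -/
def og (t : ℤ × ℤ) : Cd := Cd.q ⟨-1, 1, 0, 0⟩ ⟨-t.1 - t.2, t.2, t.1, 0⟩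
/-- `α d + γ ≥ 0` -/
def od (t : ℤ × ℤ) : Cd := Cd.q ⟨-1, 1, 0, 0⟩ ⟨-t.1 - t.2, t.2, 0, t.1⟩
/-- `α w + γ ≥ 0` -/
def ow (t : ℤ × ℤ) : Cd := Cd.l ⟨0, 0, -t.1, t.2⟩ ⟨0, 0, 0, 1⟩

theorem region_o (Qg Qd Qw : List (ℤ × ℤ))
    (hQ : ∀ g d w : ℝ, (∀ t ∈ Qg, 0 ≤ (t.1 : ℝ) * g + t.2) → (∀ t ∈ Qd, 0 ≤ (t.1 : ℝ) * d + t.2) →
      (∀ t ∈ Qw, 0 ≤ (t.1 : ℝ) * w + t.2) → GO g d w) :
    ROK (Qg.map og ++ Qd.map od ++ Qw.map ow) := by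
  intro p G h hc
  obtain ⟨x, hx⟩ : ∃ x : E3, x = p 1 - p 0 := ⟨_, rfl⟩
  have hx0 : x ≠ 0 := by
    intro h0
    have h1 := h.edge 1 1 0
    rw [← hx, h0, inner_zero_right] at h1
    simp at h1
  have hxx : 0 < ⟪x, x⟫ := real_inner_self_pos.2 hx0
  have hl0 := h.pos 3
  obtain ⟨v, hv⟩ : ∃ v, v = -⟪G 1, G 3⟫ / ⟪G 3, G 3⟫ := ⟨_, rfl⟩
  obtain ⟨w, hw⟩ : ∃ w, w = -⟪G 2, G 3⟫ / ⟪G 3, G 3⟫ := ⟨_, rfl⟩
  obtain ⟨g, hg⟩ : ∃ g, g = ⟪p 2 - p 0, p 1 - p 0⟫ / ⟪p 1 - p 0, p 1 - p 0⟫ := ⟨_, rfl⟩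
  have e5 := h.expand D0 ((p 3 - p 0) - (⟪G 3, G 3⟫)⁻¹ • G 3)
  have f1 : ⟪G 3, (p 3 - p 0) - (⟪G 3, G 3⟫)⁻¹ • G 3⟫ = 0 := by
    rw [inner_sub_right, h.edge, real_inner_smul_right, inv_mul_cancel₀ hl0.ne']
    simp
  have f2 : ⟪G 2, (p 3 - p 0) - (⟪G 3, G 3⟫)⁻¹ • G 3⟫ = w := by
    rw [inner_sub_right, h.edge, real_inner_smul_right, hw]
    simp
    ring
  have f3 : ⟪G 1, (p 3 - p 0) - (⟪G 3, G 3⟫)⁻¹ • G 3⟫ = v := by
    rw [inner_sub_right, h.edge, real_inner_smul_right, hv]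
    simp
    ring
  rw [f1, f2, f3, zero_smul, add_zero] at e5
  have g1 : ⟪G 3, x⟫ = 0 := by
    rw [hx, h.edge]
    simp
  have e7 : p 3 - p 0 = (⟪G 3, G 3⟫)⁻¹ • G 3 + (v • (p 1 - p 0) + w • (p 2 - p 0)) := by
    rw [e5]
    abel
  have hgx : ⟪p 2 - p 0, x⟫ = g * ⟪x, x⟫ := by
    rw [hg, ← hx]
    field_simp
  have hdx : ⟪p 3 - p 0, x⟫ = (v + w * g) * ⟪x, x⟫ := by
    rw [e7, inner_add_left, real_inner_smul_left, g1, inner_add_left, real_inner_smul_left,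
      real_inner_smul_left, hgx, ← hx]
    ring
  have em : ∀ a b c d : ℤ, ∑ i, (((![a, b, c, d] : Fin 4 → ℤ) i : ℤ) : ℝ) • p i =
      (a : ℝ) • p 0 + (b : ℝ) • p 1 + (c : ℝ) • p 2 + (d : ℝ) • p 3 := by
    intro a b c d
    rw [Fin.sum_univ_four]
    rfl
  have eG : ∀ a b c d : ℤ, ∑ i, (((![a, b, c, d] : Fin 4 → ℤ) i : ℤ) : ℝ) • G i =
      (a : ℝ) • G 0 + (b : ℝ) • G 1 + (c : ℝ) • G 2 + (d : ℝ) • G 3 := by
    intro a b c d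
    rw [Fin.sum_univ_four]
    rfl
  have ex : ∑ i, (((![-1, 1, 0, 0] : Fin 4 → ℤ) i : ℤ) : ℝ) • p i = x := by
    rw [em, hx]
    push_cast
    module
  have hpos : ∀ r : ℝ, 0 ≤ r * ⟪x, x⟫ → 0 ≤ r := fun r hr =>
    (mul_nonneg_iff_of_pos_right hxx).1 hr
  refine h.flag8 D0 hg hv hw (hQ g (v + w * g) w ?_ ?_ ?_)
  · intro t ht
    have h1 : 0 ≤ qform p ![-1, 1, 0, 0] ![-t.1 - t.2, t.2, t.1, 0] :=
      hc _ (List.mem_map_of_mem (f := cdc) (List.mem_append_left _ (List.mem_append_left _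
        (List.mem_map_of_mem (f := og) ht))))
    refine hpos _ ?_
    unfold qform at h1
    rw [ex, em] at h1
    have e : ((-t.1 - t.2 : ℤ) : ℝ) • p 0 + (t.2 : ℝ) • p 1 + (t.1 : ℝ) • p 2 +
        ((0 : ℤ) : ℝ) • p 3 = (t.1 : ℝ) • (p 2 - p 0) + (t.2 : ℝ) • x := by
      rw [hx]
      push_cast
      module
    rw [e, inner_add_right, real_inner_smul_right, real_inner_smul_right,
      real_inner_comm, hgx] at h1
    linarith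
  · intro t ht
    have h1 : 0 ≤ qform p ![-1, 1, 0, 0] ![-t.1 - t.2, t.2, 0, t.1] :=
      hc _ (List.mem_map_of_mem (f := cdc) (List.mem_append_left _ (List.mem_append_right _
        (List.mem_map_of_mem (f := od) ht))))
    refine hpos _ ?_
    unfold qform at h1
    rw [ex, em] at h1
    have e : ((-t.1 - t.2 : ℤ) : ℝ) • p 0 + (t.2 : ℝ) • p 1 + ((0 : ℤ) : ℝ) • p 2 +
        (t.1 : ℝ) • p 3 = (t.1 : ℝ) • (p 3 - p 0) + (t.2 : ℝ) • x := by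
      rw [hx]
      push_cast
      module
    rw [e, inner_add_right, real_inner_smul_right, real_inner_smul_right,
      real_inner_comm, hdx] at h1
    linarith
  · intro t ht
    have h1 : 0 ≤ lform G ![0, 0, -t.1, t.2] ![0, 0, 0, 1] :=
      hc _ (List.mem_map_of_mem (f := cdc) (List.mem_append_right _
        (List.mem_map_of_mem (f := ow) ht)))
    unfold lform at h1
    rw [eG, eG] at h1
    have e1 : ((0 : ℤ) : ℝ) • G 0 + ((0 : ℤ) : ℝ) • G 1 + ((-t.1 : ℤ) : ℝ) • G 2 +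
        (t.2 : ℝ) • G 3 = (-(t.1 : ℝ)) • G 2 + (t.2 : ℝ) • G 3 := by
      push_cast
      module
    have e2 : ((0 : ℤ) : ℝ) • G 0 + ((0 : ℤ) : ℝ) • G 1 + ((0 : ℤ) : ℝ) • G 2 +
        ((1 : ℤ) : ℝ) • G 3 = G 3 := by
      push_cast
      module
    rw [e1, e2, inner_add_left, real_inner_smul_left, real_inner_smul_left] at h1
    have h2 : (t.1 : ℝ) * w + t.2 = (-(t.1 : ℝ) * ⟪G 2, G 3⟫ + t.2 * ⟪G 3, G 3⟫) / ⟪G 3, G 3⟫ := by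
      rw [hw]
      field_simp
    rw [h2]
    exact div_nonneg h1 hl0.le

/-- the box `0 ≤ g ≤ 1/4`, `1/60 ≤ d ≤ 7/60`, `1/60 ≤ w ≤ 11/120` -/
def boxR : List Cd :=
  [.q ⟨-1, 1, 0, 0⟩ ⟨-1, 0, 1, 0⟩, .q ⟨-1, 1, 0, 0⟩ ⟨3, 1, -4, 0⟩,
   .q ⟨-1, 1, 0, 0⟩ ⟨-59, -1, 0, 60⟩, .q ⟨-1, 1, 0, 0⟩ ⟨53, 7, 0, -60⟩,
   .l ⟨0, 0, -60, -1⟩ ⟨0, 0, 0, 1⟩, .l ⟨0, 0, 120, 11⟩ ⟨0, 0, 0, 1⟩]

theorem boxR_ok : ROK boxR := by
  have h := region_o [(1, 0), (-4, 1)] [(60, -1), (-60, 7)] [(60, -1), (-120, 11)]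
    (fun g d w hg hd hw => by
      simp only [List.forall_mem_cons, List.not_mem_nil, false_imp_iff, implies_true, and_true]
        at hg hd hw
      push_cast at hg hd hw
      obtain ⟨g1, g2⟩ := hg
      obtain ⟨d1, d2⟩ := hd
      obtain ⟨w1, w2⟩ := hw
      exact BoxO_box (by linarith) (by linarith) (by linarith) (by linarith) (by linarith)
        (by linarith))
  exact h

end Pool.Agent.TET
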