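import Pool.Agent.Helper38_TET.RegZ

/-!
# MP_c7c9bf_co: regions for planes and axes with rational coordinates, scaled frames
-/

set_option autoImplicit false
set_option maxRecDepth 100000

namespace Pool.Agent.TET

open MeasureTheory Set Filter Pool.Agent.UL3 Pool.Agent.UL3.H88
open scoped ENNReal Topology RealInnerProductSpace Matrix
open Cvr (V4 Cd)

/-- scaled coordinates -/
def scl (s : Fin 3 → ℝ) (V : Fin 3 → Fin 3 → ℝ) : Fin 3 → Fin 3 → ℝ := fun i a => s a * V i a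

theorem Vx_scl (s : Fin 3 → ℝ) (V : Fin 3 → Fin 3 → ℝ) (m : Fin 4) (a : Fin 3) :
    Vx (scl s V) m a = s a * Vx V m a := by
  fin_cases m
  · show (0 : ℝ) = s a * 0
    ring
  · rfl
  · rfl
  · rfl

theorem GoodV.scale {A : List ℕ} {V : Fin 3 → Fin 3 → ℝ} (s : Fin 3 → ℝ) (hs : ∀ a, s a ≠ 0)
    (h : GoodV A (scl s V)) : GoodV A V := by
  obtain ⟨N, τ, U, t, hN, hτ, hU, hd, hp⟩ := h
  have hP : (∏ a, s a) ≠ 0 := Finset.prod_ne_zero_iff.2 fun a _ => hs a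
  have hP' : 0 < |∏ a, s a| := abs_pos.2 hP
  have d1 : (Matrix.of (scl s V)).det = (∏ a, s a) * (Matrix.of V).det :=
    Matrix.det_mul_row s (Matrix.of V)
  have d2 : (Matrix.of (fun i a => (s a)⁻¹ * U i a)).det = (∏ a, (s a)⁻¹) * (Matrix.of U).det :=
    Matrix.det_mul_row (fun a => (s a)⁻¹) (Matrix.of U)
  have d3 : (∏ a, (s a)⁻¹) = (∏ a, s a)⁻¹ := Finset.prod_inv_distrib _
  refine ⟨N, τ, fun i a => (s a)⁻¹ * U i a, fun i a => (s a)⁻¹ * t i a, hN, hτ, ?_, ?_, ?_⟩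
  · rw [d2, d3, abs_mul, abs_inv]
    positivity
  · rw [d2, d3, abs_mul, abs_inv]
    rw [d1, abs_mul] at hd
    refine hd.trans (le_of_eq ?_)
    field_simp
  · intro i j k hk
    obtain ⟨g, hg, h1⟩ := hp i j k hk
    refine ⟨fun a => g a * s a, ?_, fun m m' => ?_⟩
    · intro h0
      apply hg
      funext a
      have := congrFun h0 a
      exact (mul_eq_zero.1 this).resolve_right (hs a)
    · have e1 : ∀ (i : Fin N) (m : Fin 4) (w : Fin 3 → ℝ), (fun a => g a * s a) ⬝ᵥ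
          (dg (τ i) (Vx V m) + fun a => (s a)⁻¹ * w a) = g ⬝ᵥ (dg (τ i) (Vx (scl s V) m) + w) := by
        intro i m w
        unfold dotProduct
        refine Finset.sum_congr rfl fun a _ => ?_
        show g a * s a * (sgn (τ i) a * Vx V m a + (s a)⁻¹ * w a) =
          g a * (sgn (τ i) a * Vx (scl s V) m a + w a)
        rw [Vx_scl]
        have := hs a
        field_simp
      have e2 : ((fun a => (s a)⁻¹ * t j a) + ∑ b, (k b : ℝ) • fun a => (s a)⁻¹ * U b a) =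
          fun a => (s a)⁻¹ * (t j + ∑ b, (k b : ℝ) • U b) a := by
        funext a
        rw [Pi.add_apply, Finset.sum_apply, Pi.add_apply, Finset.sum_apply, mul_add,
          Finset.mul_sum]
        congr 1
        refine Finset.sum_congr rfl fun b _ => ?_
        show (k b : ℝ) * ((s a)⁻¹ * U b a) = (s a)⁻¹ * ((k b : ℝ) * U b a)
        ring
      have h2 := h1 m m'
      rw [← e1, ← e1] at h2
      rw [e2]
      exact h2

/-! ### planes with rational coordinates -/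

theorem region_g (f : Fin 4 → ℤ) (q : ℤ) (hq0 : 0 < q) (hf : f 3 ≠ f 0) (s : Fin 3 → ℝ)
    (hs : ∀ a, s a ≠ 0) (Q : List (ℤ × ℤ × ℤ))
    (hQ : ∀ x y : ℝ, (∀ t ∈ Q, 0 ≤ (t.1 : ℝ) * x + t.2.1 * y + t.2.2) →
      GoodV [0, 7, 4, 3] (scl s (VF (((f 1 : ℝ) - f 0) / q) (((f 2 : ℝ) - f 0) / q)
        (((f 3 : ℝ) - f 0) / q) x y))) :
    RegionOK (Q.map fun t => Cond.l (mf f (q * t.1, q * t.2.1, t.2.2)) f) := by
  intro p G h hc
  have hq' : (0 : ℝ) < q := by exact_mod_cast hq0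
  have h3 : ((f 3 : ℝ)) - f 0 ≠ 0 := by
    intro h0
    apply hf
    have : (f 3 : ℝ) = f 0 := by linarith
    exact_mod_cast this
  have h3' : (fun i => (f i : ℝ) / q) 3 - (fun i => (f i : ℝ) / q) 0 ≠ 0 := by
    show (f 3 : ℝ) / q - (f 0 : ℝ) / q ≠ 0
    rw [← sub_div]
    exact div_ne_zero h3 hq'.ne'
  have hqf := h.qf_pos (f := fun i => (f i : ℝ)) h3
  have hL : ∀ m, Lf G (fun i => (f i : ℝ) / q) m = Lf G (fun i => (f i : ℝ)) m / q := by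
    intro m
    unfold Lf
    rw [Finset.sum_div]
    refine Finset.sum_congr rfl fun x _ => ?_
    ring
  have hqq : qf G (fun i => (f i : ℝ) / q) = qf G (fun i => (f i : ℝ)) / (q * q) := by
    unfold qf
    rw [Finset.sum_div]
    refine Finset.sum_congr rfl fun x _ => ?_
    rw [hL]
    field_simp
  have hval : ∀ m, Lf G (fun i => (f i : ℝ) / q) m / qf G (fun i => (f i : ℝ) / q) =
      q * (Lf G (fun i => (f i : ℝ)) m / qf G (fun i => (f i : ℝ))) := by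
    intro m
    rw [hL, hqq]
    field_simp
  refine h.plane D0 (fun i => (f i : ℝ) / q) h3' ?_
  rw [hval, hval]
  refine GoodV.scale s hs ?_
  have e : ∀ i j : Fin 4, (fun i => (f i : ℝ) / q) i - (fun i => (f i : ℝ) / q) j =
      ((f i : ℝ) - f j) / q := fun i j => (sub_div _ _ _).symm
  rw [e, e, e]
  refine hQ _ _ fun t ht => ?_
  have h1 : 0 ≤ lform G (mf f (q * t.1, q * t.2.1, t.2.2)) f :=
    hc _ (List.mem_map_of_mem (f := fun t : ℤ × ℤ × ℤ =>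
      Cond.l (mf f (q * t.1, q * t.2.1, t.2.2)) f) ht)
  have h2 : lform G (mf f (q * t.1, q * t.2.1, t.2.2)) f =
      q * t.1 * Lf G (fun i => (f i : ℝ)) 1 +
      q * t.2.1 * Lf G (fun i => (f i : ℝ)) 2 + t.2.2 * qf G (fun i => (f i : ℝ)) := by
    unfold lform
    have e : ∑ i, ((mf f (q * t.1, q * t.2.1, t.2.2) i : ℤ) : ℝ) • G i =
        (q * t.1 : ℝ) • G 1 + (q * t.2.1 : ℝ) • G 2 + (t.2.2 : ℝ) • ∑ i, (f i : ℝ) • G i := by
      rw [Fin.sum_univ_four, Fin.sum_univ_four]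
      show ((t.2.2 * f 0 : ℤ) : ℝ) • G 0 + ((q * t.1 + t.2.2 * f 1 : ℤ) : ℝ) • G 1 +
        ((q * t.2.1 + t.2.2 * f 2 : ℤ) : ℝ) • G 2 + ((t.2.2 * f 3 : ℤ) : ℝ) • G 3 = _
      push_cast
      module
    rw [e, inner_add_left, inner_add_left, real_inner_smul_left, real_inner_smul_left,
      real_inner_smul_left, inner_gf, inner_gf, inner_ff]
  have h4 : (t.1 : ℝ) * (q * (Lf G (fun i => (f i : ℝ)) 1 / qf G (fun i => (f i : ℝ)))) +
      t.2.1 * (q * (Lf G (fun i => (f i : ℝ)) 2 / qf G (fun i => (f i : ℝ)))) + t.2.2 =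
      lform G (mf f (q * t.1, q * t.2.1, t.2.2)) f / qf G (fun i => (f i : ℝ)) := by
    rw [h2]
    field_simp
  rw [h4]
  exact div_nonneg h1 hqf.le

def gCd (f : V4) (q : ℤ) (t : ℤ × ℤ × ℤ) : Cd :=
  Cd.l ⟨t.2.2 * f.a, q * t.1 + t.2.2 * f.b, q * t.2.1 + t.2.2 * f.c, t.2.2 * f.d⟩ f

theorem rok_g {f : V4} {q : ℤ} (hq : 0 < q) (hf : f.d ≠ f.a) {s : Fin 3 → ℝ}
    (hs : ∀ a, s a ≠ 0) {M : FM} {L : List (List Z3)} {k : ℤ}
    (hk : k ≠ 0) {Q : List (ℤ × ℤ × ℤ)} {P : List Z3} {R : List Cd} (hR : Q.map (gCd f q) = R)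
    (hP : Q.map (zt k) = P) (hL : P ∈ L)
    (hfr : ∀ x y : ℝ, scl s (VF (((f.b : ℝ) - f.a) / q) (((f.c : ℝ) - f.a) / q)
      (((f.d : ℝ) - f.a) / q) x y) = M.v (30720 * x / k) (30720 * y / k))
    {x0 x1 y0 y1 : ℤ}
    (hcov : ∀ X Y : ℝ, (x0 : ℝ) ≤ X → X ≤ x1 → (y0 : ℝ) ≤ Y → Y ≤ y1 →
      Out L X Y ∨ GoodV [0, 7, 4, 3] (M.v X Y))
    (hbox : ∀ X Y : ℝ, (∀ t ∈ P, 0 ≤ (t.c : ℝ) + t.a * X + t.b * Y) →
      ((x0 : ℝ) ≤ X ∧ X ≤ x1) ∧ ((y0 : ℝ) ≤ Y ∧ Y ≤ y1)) : ROK R := by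
  have h := region_g (vc f) q hq hf s hs Q (fun x y hxy => by
    have h1 := poly_ok hk hP hL hcov hbox hxy
    rw [← hfr] at h1
    exact h1)
  have e : (Q.map fun t => Cond.l (mf (vc f) (q * t.1, q * t.2.1, t.2.2)) (vc f)) =
      R.map cdc := by
    rw [← hR, List.map_map]
    rfl
  rw [e] at h
  exact h

/-! ### axes, scaled frame: `w = v / q`, `x`, `y` the values of `⟨w, .⟩ / ⟨w, w⟩` -/

def wCd (v : V4) (q : ℤ) (t : ℤ × ℤ × ℤ) : Cd :=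
  Cd.q v ⟨-(q * t.1) - q * t.2.1 + t.2.2 * v.a, q * t.1 + t.2.2 * v.b, q * t.2.1 + t.2.2 * v.c,
    t.2.2 * v.d⟩

theorem rok_w {v : V4} {q : ℤ} (hq : 0 < q) (hv : v.a + v.b + v.c + v.d = 0) (h3 : v.d ≠ 0)
    {s : Fin 3 → ℝ} (hs : ∀ a, s a ≠ 0) {M : FM}
    {L : List (List Z3)} {k : ℤ} (hk : k ≠ 0)
    {Q : List (ℤ × ℤ × ℤ)} {P : List Z3} {R : List Cd} (hR : Q.map (wCd v q) = R)
    (hP : Q.map (zt k) = P) (hL : P ∈ L)
    (hfr : ∀ x y : ℝ, scl s (VV (v.b : ℝ) (v.c : ℝ) (v.d : ℝ) (x / q) (y / q)) =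
      M.v (30720 * x / k) (30720 * y / k))
    {x0 x1 y0 y1 : ℤ}
    (hcov : ∀ X Y : ℝ, (x0 : ℝ) ≤ X → X ≤ x1 → (y0 : ℝ) ≤ Y → Y ≤ y1 →
      Out L X Y ∨ GoodV [0, 7, 4, 3] (M.v X Y))
    (hbox : ∀ X Y : ℝ, (∀ t ∈ P, 0 ≤ (t.c : ℝ) + t.a * X + t.b * Y) →
      ((x0 : ℝ) ≤ X ∧ X ≤ x1) ∧ ((y0 : ℝ) ≤ Y ∧ Y ≤ y1)) : ROK R := by
  have hq' : (q : ℝ) ≠ 0 := by
    have : (0 : ℝ) < q := by exact_mod_cast hq
    exact this.ne'
  have h := region_v (vc v) hv h3 (Q.map fun t => (q * t.1, q * t.2.1, t.2.2))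
    (fun x y hxy => by
      have h1 : ∀ t ∈ Q, 0 ≤ (t.1 : ℝ) * (q * x) + t.2.1 * (q * y) + t.2.2 := by
        intro t ht
        have h2 := hxy _ (List.mem_map_of_mem (f := fun t : ℤ × ℤ × ℤ =>
          (q * t.1, q * t.2.1, t.2.2)) ht)
        push_cast at h2
        linarith
      have h2 := poly_ok hk hP hL hcov hbox h1
      rw [← hfr, mul_div_cancel_left₀ _ hq', mul_div_cancel_left₀ _ hq'] at h2
      exact GoodV.scale s hs h2)
  have e : ((Q.map fun t => (q * t.1, q * t.2.1, t.2.2)).map fun t => Cond.q (vc v) (mv (vc v) t)) =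
      R.map cdc := by
    rw [← hR, List.map_map, List.map_map]
    rfl
  rw [e] at h
  exact h

end Pool.Agent.TET
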