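import Pool.Agent.Helper38_TET.RegB
import Pool.Agent.Helper38_TET.RegS

/-!
# MP_c7c9bf_co: the bisector families in stretched frames
-/

set_option autoImplicit false
set_option maxRecDepth 100000

namespace Pool.Agent.TET

open MeasureTheory Set Filter Pool.Agent.UL3 Pool.Agent.UL3.H88
open scoped ENNReal Topology RealInnerProductSpace Matrix
open Cvr (V4 Cd)

/-- a line in coordinates multiplied by `z` -/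
def ty (z : ℤ) (t : ℤ × ℤ × ℤ) : ℤ × ℤ × ℤ := (t.1, t.2.1, z * t.2.2)

theorem poly_oky {M : FM} {L : List (List Z3)} {A : List ℕ} {k : ℤ} (hk : k ≠ 0) {z : ℤ}
    (hz : 0 < z) {Q : List (ℤ × ℤ × ℤ)} {P : List Z3} (hP : (Q.map (ty z)).map (zt k) = P)
    (hL : P ∈ L) {x0 x1 y0 y1 : ℤ}
    (hcov : ∀ X Y : ℝ, (x0 : ℝ) ≤ X → X ≤ x1 → (y0 : ℝ) ≤ Y → Y ≤ y1 →
      Out L X Y ∨ GoodV A (M.v X Y))
    (hbox : ∀ X Y : ℝ, (∀ t ∈ P, 0 ≤ (t.c : ℝ) + t.a * X + t.b * Y) →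
      ((x0 : ℝ) ≤ X ∧ X ≤ x1) ∧ ((y0 : ℝ) ≤ Y ∧ Y ≤ y1)) {x y : ℝ}
    (h : ∀ t ∈ Q, 0 ≤ (t.1 : ℝ) * x + t.2.1 * y + t.2.2) :
    GoodV A (M.v (30720 * (z * x) / k) (30720 * (z * y) / k)) := by
  refine poly_ok hk hP hL hcov hbox fun t ht => ?_
  obtain ⟨u, hu, rfl⟩ := List.mem_map.1 ht
  have h1 := h u hu
  have hz' : (0 : ℝ) < z := by exact_mod_cast hz
  have h2 := mul_nonneg hz'.le h1
  show 0 ≤ (u.1 : ℝ) * (z * x) + u.2.1 * (z * y) + ((z * u.2.2 : ℤ) : ℝ)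
  push_cast
  linarith

theorem rok_by {s : ℤ} (hs : s = 1 ∨ s = -1) {nlo nhi q : ℤ} (hl : 0 < nlo) (hlh : nlo < nhi)
    (hq : 0 < q) {z : ℤ} (hz : 0 < z) {sc : Fin 3 → ℝ} (hsc : ∀ a, sc a ≠ 0)
    {M : FM} {L : List (List Z3)} {k : ℤ} (hk : k ≠ 0)
    {Q : List (ℤ × ℤ × ℤ)} {P : List Z3} {R : List Cd} (hR : bAll s q nlo nhi Q = R)
    (hP : ((bPoly s q nlo nhi Q).map (ty z)).map (zt k) = P) (hL : P ∈ L)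
    (hfr : ∀ x y : ℝ, scl sc (VB x y) = M.v (30720 * (z * x) / k) (30720 * (z * y) / k))
    {x0 x1 y0 y1 : ℤ}
    (hcov : ∀ X Y : ℝ, (x0 : ℝ) ≤ X → X ≤ x1 → (y0 : ℝ) ≤ Y → Y ≤ y1 →
      Out L X Y ∨ GoodV [0, 7, 6, 1] (M.v X Y))
    (hbox : ∀ X Y : ℝ, (∀ t ∈ P, 0 ≤ (t.c : ℝ) + t.a * X + t.b * Y) →
      ((x0 : ℝ) ≤ X ∧ X ≤ x1) ∧ ((y0 : ℝ) ≤ Y ∧ Y ≤ y1)) : ROK R := by
  have h := region_b hs hl hlh hq Q (fun x y hxy => by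
    have h1 := poly_oky hk hz hP hL hcov hbox hxy
    rw [← hfr] at h1
    exact GoodV.scale sc hsc h1)
  rw [hR] at h
  exact h

theorem rok_bys {s : ℤ} (hs : s = 1 ∨ s = -1) {nlo nhi q : ℤ} (hl : 0 < nlo) (hlh : nlo < nhi)
    (hq : 0 < q) {z : ℤ} (hz : 0 < z) {sc : Fin 3 → ℝ} (hsc : ∀ a, sc a ≠ 0)
    {M : FM} {L : List (List Z3)} {k : ℤ} (hk : k ≠ 0)
    {Q : List (ℤ × ℤ × ℤ)} {P : List Z3} {R : List Cd} (hR : bAll s q nlo nhi Q = R)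
    (hP : ((bPoly s q nlo nhi Q).map (ty z)).map (zt k) = P) (hL : P ∈ L)
    (hfr : ∀ x y : ℝ, scl sc (swp (VB x y)) = M.v (30720 * (z * x) / k) (30720 * (z * y) / k))
    {x0 x1 y0 y1 : ℤ}
    (hcov : ∀ X Y : ℝ, (x0 : ℝ) ≤ X → X ≤ x1 → (y0 : ℝ) ≤ Y → Y ≤ y1 →
      Out L X Y ∨ GoodV [0, 7, 6, 1] (M.v X Y))
    (hbox : ∀ X Y : ℝ, (∀ t ∈ P, 0 ≤ (t.c : ℝ) + t.a * X + t.b * Y) →
      ((x0 : ℝ) ≤ X ∧ X ≤ x1) ∧ ((y0 : ℝ) ≤ Y ∧ Y ≤ y1)) : ROK R := by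
  have h := region_b hs hl hlh hq Q (fun x y hxy => by
    have h1 := poly_oky hk hz hP hL hcov hbox hxy
    rw [← hfr] at h1
    exact (GoodV.scale sc hsc h1).swp)
  rw [hR] at h
  exact h

theorem rok_dy {s : ℤ} (hs : s = 1 ∨ s = -1) {nlo nhi q : ℤ} (hl : 0 < nlo) (hlh : nlo < nhi)
    (hq : 0 < q) {z : ℤ} (hz : 0 < z) {sc : Fin 3 → ℝ} (hsc : ∀ a, sc a ≠ 0)
    {M : FM} {L : List (List Z3)} {k : ℤ} (hk : k ≠ 0)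
    {Q : List (ℤ × ℤ × ℤ)} {P : List Z3} {R : List Cd} (hR : dAll s q nlo nhi Q = R)
    (hP : ((bPoly s q nlo nhi Q).map (ty z)).map (zt k) = P) (hL : P ∈ L)
    (hfr : ∀ x y : ℝ, scl sc (VD x y) = M.v (30720 * (z * x) / k) (30720 * (z * y) / k))
    {x0 x1 y0 y1 : ℤ}
    (hcov : ∀ X Y : ℝ, (x0 : ℝ) ≤ X → X ≤ x1 → (y0 : ℝ) ≤ Y → Y ≤ y1 →
      Out L X Y ∨ GoodV [0, 7, 6, 1] (M.v X Y))
    (hbox : ∀ X Y : ℝ, (∀ t ∈ P, 0 ≤ (t.c : ℝ) + t.a * X + t.b * Y) →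
      ((x0 : ℝ) ≤ X ∧ X ≤ x1) ∧ ((y0 : ℝ) ≤ Y ∧ Y ≤ y1)) : ROK R := by
  have h := region_d hs hl hlh hq Q (fun x y hxy => by
    have h1 := poly_oky hk hz hP hL hcov hbox hxy
    rw [← hfr] at h1
    exact GoodV.scale sc hsc h1)
  rw [hR] at h
  exact h

theorem rok_dys {s : ℤ} (hs : s = 1 ∨ s = -1) {nlo nhi q : ℤ} (hl : 0 < nlo) (hlh : nlo < nhi)
    (hq : 0 < q) {z : ℤ} (hz : 0 < z) {sc : Fin 3 → ℝ} (hsc : ∀ a, sc a ≠ 0)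
    {M : FM} {L : List (List Z3)} {k : ℤ} (hk : k ≠ 0)
    {Q : List (ℤ × ℤ × ℤ)} {P : List Z3} {R : List Cd} (hR : dAll s q nlo nhi Q = R)
    (hP : ((bPoly s q nlo nhi Q).map (ty z)).map (zt k) = P) (hL : P ∈ L)
    (hfr : ∀ x y : ℝ, scl sc (swp (VD x y)) = M.v (30720 * (z * x) / k) (30720 * (z * y) / k))
    {x0 x1 y0 y1 : ℤ}
    (hcov : ∀ X Y : ℝ, (x0 : ℝ) ≤ X → X ≤ x1 → (y0 : ℝ) ≤ Y → Y ≤ y1 →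
      Out L X Y ∨ GoodV [0, 7, 6, 1] (M.v X Y))
    (hbox : ∀ X Y : ℝ, (∀ t ∈ P, 0 ≤ (t.c : ℝ) + t.a * X + t.b * Y) →
      ((x0 : ℝ) ≤ X ∧ X ≤ x1) ∧ ((y0 : ℝ) ≤ Y ∧ Y ≤ y1)) : ROK R := by
  have h := region_d hs hl hlh hq Q (fun x y hxy => by
    have h1 := poly_oky hk hz hP hL hcov hbox hxy
    rw [← hfr] at h1
    exact (GoodV.scale sc hsc h1).swp)
  rw [hR] at h
  exact h

end Pool.Agent.TET
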