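import Pool.Agent.Helper38_TET.CovZ
import Pool.Agent.Helper38_TET.Regn
import Pool.Agent.Helper37_TET.CovTop

/-!
# MP_c7c9bf_co: certified regions, in the form of the cover
-/

set_option autoImplicit false
set_option maxRecDepth 100000

namespace Pool.Agent.TET

open MeasureTheory Set Filter Pool.Agent.UL3 Pool.Agent.UL3.H88
open scoped ENNReal Topology RealInnerProductSpace
open Cvr (V4 Cd)

/-- the entries -/
def vc (v : V4) : Fin 4 → ℤ := ![v.a, v.b, v.c, v.d]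

/-- the condition -/
def cdc : Cd → Cond
  | Cd.l m f => Cond.l (vc m) (vc f)
  | Cd.q v w => Cond.q (vc v) (vc w)

/-- all tetrahedra with the conditions `R` are good -/
def ROK (R : List Cd) : Prop := RegionOK (R.map cdc)

/-- `30720 (α x + β y + γ)` at `(X, Y) = (30720 x / k, 30720 y / k)` -/
def zt (k : ℤ) (t : ℤ × ℤ × ℤ) : Z3 := ⟨30720 * t.2.2, k * t.1, k * t.2.1⟩

/-- the tetrahedra of a polygon are good -/
theorem poly_ok {M : FM} {L : List (List Z3)} {A : List ℕ} {k : ℤ} (hk : k ≠ 0)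
    {Q : List (ℤ × ℤ × ℤ)} {P : List Z3} (hP : Q.map (zt k) = P) (hL : P ∈ L)
    {x0 x1 y0 y1 : ℤ}
    (hcov : ∀ X Y : ℝ, (x0 : ℝ) ≤ X → X ≤ x1 → (y0 : ℝ) ≤ Y → Y ≤ y1 →
      Out L X Y ∨ GoodV A (M.v X Y))
    (hbox : ∀ X Y : ℝ, (∀ t ∈ P, 0 ≤ (t.c : ℝ) + t.a * X + t.b * Y) →
      ((x0 : ℝ) ≤ X ∧ X ≤ x1) ∧ ((y0 : ℝ) ≤ Y ∧ Y ≤ y1)) {x y : ℝ}
    (h : ∀ t ∈ Q, 0 ≤ (t.1 : ℝ) * x + t.2.1 * y + t.2.2) :
    GoodV A (M.v (30720 * x / k) (30720 * y / k)) := by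
  have hk' : (k : ℝ) ≠ 0 := by exact_mod_cast hk
  have h1 : ∀ t ∈ P, 0 ≤ (t.c : ℝ) + t.a * (30720 * x / k) + t.b * (30720 * y / k) := by
    intro t ht
    rw [← hP] at ht
    obtain ⟨s, hs, rfl⟩ := List.mem_map.1 ht
    have h2 := h s hs
    have e : (((zt k s).c : ℤ) : ℝ) + (zt k s).a * (30720 * x / k) +
        (zt k s).b * (30720 * y / k) = 30720 * ((s.1 : ℝ) * x + s.2.1 * y + s.2.2) := by
      unfold zt
      push_cast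
      field_simp
      ring
    rw [e]
    positivity
  obtain ⟨⟨a1, a2⟩, a3, a4⟩ := hbox _ _ h1
  rcases hcov _ _ a1 a2 a3 a4 with h2 | h2
  · obtain ⟨t, ht, h3⟩ := h2 P hL
    exact absurd h3 (not_lt.2 (h1 t ht))
  · exact h2

/-! ### planes -/

def fCd (f : V4) (t : ℤ × ℤ × ℤ) : Cd :=
  Cd.l ⟨t.2.2 * f.a, t.1 + t.2.2 * f.b, t.2.1 + t.2.2 * f.c, t.2.2 * f.d⟩ f

theorem rok_f {f : V4} (hf : f.d ≠ f.a) {M : FM} {L : List (List Z3)} {k : ℤ} (hk : k ≠ 0)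
    {Q : List (ℤ × ℤ × ℤ)} {P : List Z3} {R : List Cd} (hR : Q.map (fCd f) = R)
    (hP : Q.map (zt k) = P) (hL : P ∈ L)
    (hfr : ∀ x y : ℝ, VF ((f.b : ℝ) - f.a) ((f.c : ℝ) - f.a) ((f.d : ℝ) - f.a) x y =
      M.v (30720 * x / k) (30720 * y / k))
    {x0 x1 y0 y1 : ℤ}
    (hcov : ∀ X Y : ℝ, (x0 : ℝ) ≤ X → X ≤ x1 → (y0 : ℝ) ≤ Y → Y ≤ y1 →
      Out L X Y ∨ GoodV [0, 7, 4, 3] (M.v X Y))
    (hbox : ∀ X Y : ℝ, (∀ t ∈ P, 0 ≤ (t.c : ℝ) + t.a * X + t.b * Y) →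
      ((x0 : ℝ) ≤ X ∧ X ≤ x1) ∧ ((y0 : ℝ) ≤ Y ∧ Y ≤ y1)) : ROK R := by
  have h := region_f (vc f) hf Q (fun x y hxy => by
    have h1 := poly_ok hk hP hL hcov hbox hxy
    rw [← hfr] at h1
    exact h1)
  have e : (Q.map fun t => Cond.l (mf (vc f) t) (vc f)) = R.map cdc := by
    rw [← hR, List.map_map]
    rfl
  rw [e] at h
  exact h

/-! ### axes -/

def vCd (v : V4) (t : ℤ × ℤ × ℤ) : Cd :=
  Cd.q v ⟨-t.1 - t.2.1 + t.2.2 * v.a, t.1 + t.2.2 * v.b, t.2.1 + t.2.2 * v.c, t.2.2 * v.d⟩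

theorem rok_v {v : V4} (hv : v.a + v.b + v.c + v.d = 0) (h3 : v.d ≠ 0) {M : FM}
    {L : List (List Z3)} {k : ℤ} (hk : k ≠ 0)
    {Q : List (ℤ × ℤ × ℤ)} {P : List Z3} {R : List Cd} (hR : Q.map (vCd v) = R)
    (hP : Q.map (zt k) = P) (hL : P ∈ L)
    (hfr : ∀ x y : ℝ, VV (v.b : ℝ) (v.c : ℝ) (v.d : ℝ) x y =
      M.v (30720 * x / k) (30720 * y / k))
    {x0 x1 y0 y1 : ℤ}
    (hcov : ∀ X Y : ℝ, (x0 : ℝ) ≤ X → X ≤ x1 → (y0 : ℝ) ≤ Y → Y ≤ y1 →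
      Out L X Y ∨ GoodV [0, 7, 4, 3] (M.v X Y))
    (hbox : ∀ X Y : ℝ, (∀ t ∈ P, 0 ≤ (t.c : ℝ) + t.a * X + t.b * Y) →
      ((x0 : ℝ) ≤ X ∧ X ≤ x1) ∧ ((y0 : ℝ) ≤ Y ∧ Y ≤ y1)) : ROK R := by
  have h := region_v (vc v) hv h3 Q (fun x y hxy => by
    have h1 := poly_ok hk hP hL hcov hbox hxy
    rw [← hfr] at h1
    exact h1)
  have e : (Q.map fun t => Cond.q (vc v) (mv (vc v) t)) = R.map cdc := by
    rw [← hR, List.map_map]
    rfl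
  rw [e] at h
  exact h

/-! ### an edge as axis, frame with the edge first -/

/-- frames with `e 0` orthogonal to `e 1` and `e 2` -/
theorem transferX {A B C D : E3} (h : AffineIndependent ℝ ![A, B, C, D])
    {V : Fin 3 → Fin 3 → ℝ} (hg : GoodV [0, 7, 6, 1] V) (e : Fin 3 → E3) (hB : Qm e (V 0) = B - A)
    (hC : Qm e (V 1) = C - A) (hD : Qm e (V 2) = D - A) (h01 : ⟪e 0, e 1⟫ = 0)
    (h02 : ⟪e 0, e 2⟫ = 0) : Dense (convexHull ℝ {A, B, C, D}) := by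
  refine frame_transfer h hg e hB hC hD ?_
  have h10 : ⟪e 1, e 0⟫ = 0 := by rw [real_inner_comm]; exact h01
  have h20 : ⟪e 2, e 0⟫ = 0 := by rw [real_inner_comm]; exact h02
  intro τ hτ a b hab
  simp only [List.mem_cons, List.not_mem_nil, or_false] at hτ
  have e1 : ∀ τ : ℕ, τ = 0 ∨ τ = 7 ∨ τ = 6 ∨ τ = 1 → sgn τ 1 = sgn τ 2 := by
    rintro τ (rfl | rfl | rfl | rfl) <;> simp [sgn, sb]
  have e2 := e1 τ hτ
  fin_cases a <;> fin_cases b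
  · exact absurd rfl hab
  · exact h01
  · exact h02
  · exact h10
  · exact absurd rfl hab
  · exact absurd e2 hab
  · exact h20
  · exact absurd e2.symm hab
  · exact absurd rfl hab

/-- the axis `A B`, `x`, `y` = feet of `C`, `D` -/
def VE (x y : ℝ) : Fin 3 → Fin 3 → ℝ := ![![1, 0, 0], ![x, 1, 0], ![y, 0, 1]]

theorem transfer_e {A B C D : E3} (h : AffineIndependent ℝ ![A, B, C, D]) {x y : ℝ}
    (h1 : ⟪B - A, (C - A) - x • (B - A)⟫ = 0) (h2 : ⟪B - A, (D - A) - y • (B - A)⟫ = 0)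
    (hg : GoodV [0, 7, 6, 1] (VE x y)) : Dense (convexHull ℝ {A, B, C, D}) := by
  refine transferX h hg ![B - A, (C - A) - x • (B - A), (D - A) - y • (B - A)] ?_ ?_ ?_ h1 h2
  · unfold Qm VE
    rw [Fin.sum_univ_three]
    show (1 : ℝ) • (B - A) + (0 : ℝ) • ((C - A) - x • (B - A)) +
      (0 : ℝ) • ((D - A) - y • (B - A)) = B - A
    module
  · unfold Qm VE
    rw [Fin.sum_univ_three]
    show x • (B - A) + (1 : ℝ) • ((C - A) - x • (B - A)) +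
      (0 : ℝ) • ((D - A) - y • (B - A)) = C - A
    module
  · unfold Qm VE
    rw [Fin.sum_univ_three]
    show y • (B - A) + (0 : ℝ) • ((C - A) - x • (B - A)) +
      (1 : ℝ) • ((D - A) - y • (B - A)) = D - A
    module

theorem region_e (Q : List (ℤ × ℤ × ℤ))
    (hQ : ∀ x y : ℝ, (∀ t ∈ Q, 0 ≤ (t.1 : ℝ) * x + t.2.1 * y + t.2.2) →
      GoodV [0, 7, 6, 1] (VE x y)) :
    RegionOK (Q.map fun t => Cond.q ![-1, 0, 0, 1] (mv ![-1, 0, 0, 1] t)) := by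
  intro p G h hc
  obtain ⟨x, hx⟩ : ∃ x : E3, x = p 3 - p 0 := ⟨_, rfl⟩
  have hx0 : x ≠ 0 := by
    intro h0
    have h1 := h.edge 3 3 0
    rw [← hx, h0, inner_zero_right] at h1
    simp at h1
  have hxx : 0 < ⟪x, x⟫ := real_inner_self_pos.2 hx0
  have hD : D4 2 0 3 1 := ⟨by decide, by decide, by decide, by decide, by decide, by decide⟩
  rw [hD.range]
  refine transfer_e (hD.aff h.aff) (x := ⟪x, p 1 - p 0⟫ / ⟪x, x⟫)
    (y := ⟪x, p 2 - p 0⟫ / ⟪x, x⟫) ?_ ?_ (hQ _ _ fun t ht => ?_)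
  · rw [← hx, inner_sub_right, real_inner_smul_right]
    field_simp
    ring
  · rw [← hx, inner_sub_right, real_inner_smul_right]
    field_simp
    ring
  · have h1 : 0 ≤ qform p ![-1, 0, 0, 1] (mv ![-1, 0, 0, 1] t) := hc _ (List.mem_map_of_mem ht)
    have h2 : qform p ![-1, 0, 0, 1] (mv ![-1, 0, 0, 1] t) = t.1 * ⟪x, p 1 - p 0⟫ +
        t.2.1 * ⟪x, p 2 - p 0⟫ + t.2.2 * ⟪x, x⟫ := by
      unfold qform
      have e : ∑ i, ((mv ![-1, 0, 0, 1] t i : ℤ) : ℝ) • p i = (t.1 : ℝ) • (p 1 - p 0) +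
          (t.2.1 : ℝ) • (p 2 - p 0) + (t.2.2 : ℝ) • x := by
        rw [hx, Fin.sum_univ_four]
        show ((-t.1 - t.2.1 + t.2.2 * (-1) : ℤ) : ℝ) • p 0 + ((t.1 + t.2.2 * 0 : ℤ) : ℝ) • p 1 +
          ((t.2.1 + t.2.2 * 0 : ℤ) : ℝ) • p 2 + ((t.2.2 * 1 : ℤ) : ℝ) • p 3 = _
        push_cast
        module
      have e' : ∑ i, (((![-1, 0, 0, 1] : Fin 4 → ℤ) i : ℤ) : ℝ) • p i = x := by
        rw [hx, Fin.sum_univ_four]
        show (((-1 : ℤ)) : ℝ) • p 0 + ((0 : ℤ) : ℝ) • p 1 + ((0 : ℤ) : ℝ) • p 2 +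
          ((1 : ℤ) : ℝ) • p 3 = _
        push_cast
        module
      rw [e, e', inner_add_right, inner_add_right, real_inner_smul_right, real_inner_smul_right,
        real_inner_smul_right]
    have h4 : (t.1 : ℝ) * (⟪x, p 1 - p 0⟫ / ⟪x, x⟫) + t.2.1 * (⟪x, p 2 - p 0⟫ / ⟪x, x⟫) + t.2.2 =
        qform p ![-1, 0, 0, 1] (mv ![-1, 0, 0, 1] t) / ⟪x, x⟫ := by
      rw [h2]
      field_simp
    rw [h4]
    exact div_nonneg h1 hxx.le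

theorem rok_e {M : FM} {L : List (List Z3)} {k : ℤ} (hk : k ≠ 0)
    {Q : List (ℤ × ℤ × ℤ)} {P : List Z3} {R : List Cd} (hR : Q.map (vCd ⟨-1, 0, 0, 1⟩) = R)
    (hP : Q.map (zt k) = P) (hL : P ∈ L)
    (hfr : ∀ x y : ℝ, VE x y = M.v (30720 * x / k) (30720 * y / k))
    {x0 x1 y0 y1 : ℤ}
    (hcov : ∀ X Y : ℝ, (x0 : ℝ) ≤ X → X ≤ x1 → (y0 : ℝ) ≤ Y → Y ≤ y1 →
      Out L X Y ∨ GoodV [0, 7, 6, 1] (M.v X Y))
    (hbox : ∀ X Y : ℝ, (∀ t ∈ P, 0 ≤ (t.c : ℝ) + t.a * X + t.b * Y) →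
      ((x0 : ℝ) ≤ X ∧ X ≤ x1) ∧ ((y0 : ℝ) ≤ Y ∧ Y ≤ y1)) : ROK R := by
  have h := region_e Q (fun x y hxy => by
    have h1 := poly_ok hk hP hL hcov hbox hxy
    rw [← hfr] at h1
    exact h1)
  have e : (Q.map fun t => Cond.q ![-1, 0, 0, 1] (mv ![-1, 0, 0, 1] t)) = R.map cdc := by
    rw [← hR, List.map_map]
    rfl
  rw [e] at h
  exact h

/-! ### flags -/

/-- a condition on `(g, w)`: one of the two coefficients is zero -/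
def pCd (t : ℤ × ℤ × ℤ) : Cd :=
  if t.2.1 = 0 then Cd.q ⟨-1, 1, 0, 0⟩ ⟨-t.1 - t.2.2, t.2.2, t.1, 0⟩
  else Cd.l ⟨0, 0, -t.2.1, t.2.2⟩ ⟨0, 0, 0, 1⟩

theorem region_p' (Q : List (ℤ × ℤ × ℤ)) (h0 : ∀ t ∈ Q, t.2.1 = 0 ∨ t.1 = 0)
    (hQ : ∀ g w : ℝ, (∀ t ∈ Q, 0 ≤ (t.1 : ℝ) * g + t.2.1 * w + t.2.2) →
      GoodV [0, 7, 2, 5] (VP g w)) : ROK (Q.map pCd) := by
  have h := region_p ((Q.filter fun t => t.2.1 = 0).map fun t => (t.1, t.2.2))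
    ((Q.filter fun t => t.2.1 ≠ 0).map fun t => (t.2.1, t.2.2)) (fun g w hg hw => by
      refine hQ g w fun t ht => ?_
      by_cases h1 : t.2.1 = 0
      · have h2 := hg (t.1, t.2.2) (List.mem_map.2 ⟨t, List.mem_filter.2 ⟨ht, by simpa using h1⟩,
          rfl⟩)
        rw [h1]
        push_cast
        linarith
      · have h3 : t.1 = 0 := (h0 t ht).resolve_left h1
        have h2 := hw (t.2.1, t.2.2) (List.mem_map.2 ⟨t, List.mem_filter.2 ⟨ht, by simpa using h1⟩,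
          rfl⟩)
        rw [h3]
        push_cast
        linarith)
  intro p G hG hc
  refine h p G hG fun c hc' => ?_
  rcases List.mem_append.1 hc' with h1 | h1
  · obtain ⟨s, hs, rfl⟩ := List.mem_map.1 h1
    obtain ⟨t, ht, rfl⟩ := List.mem_map.1 hs
    obtain ⟨ht, h2⟩ := List.mem_filter.1 ht
    have h2' : t.2.1 = 0 := by simpa using h2
    have h3 := hc _ (List.mem_map_of_mem (f := cdc) (List.mem_map_of_mem (f := pCd) ht))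
    unfold pCd at h3
    rw [if_pos h2'] at h3
    exact h3
  · obtain ⟨s, hs, rfl⟩ := List.mem_map.1 h1
    obtain ⟨t, ht, rfl⟩ := List.mem_map.1 hs
    obtain ⟨ht, h2⟩ := List.mem_filter.1 ht
    have h2' : t.2.1 ≠ 0 := by simpa using h2
    have h3 := hc _ (List.mem_map_of_mem (f := cdc) (List.mem_map_of_mem (f := pCd) ht))
    unfold pCd at h3
    rw [if_neg h2'] at h3
    exact h3

theorem rok_p {M : FM} {L : List (List Z3)} {k : ℤ} (hk : k ≠ 0)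
    {Q : List (ℤ × ℤ × ℤ)} (h0 : ∀ t ∈ Q, t.2.1 = 0 ∨ t.1 = 0) {P : List Z3} {R : List Cd}
    (hR : Q.map pCd = R) (hP : Q.map (zt k) = P) (hL : P ∈ L)
    (hfr : ∀ x y : ℝ, VP x y = M.v (30720 * x / k) (30720 * y / k))
    {x0 x1 y0 y1 : ℤ}
    (hcov : ∀ X Y : ℝ, (x0 : ℝ) ≤ X → X ≤ x1 → (y0 : ℝ) ≤ Y → Y ≤ y1 →
      Out L X Y ∨ GoodV [0, 7, 2, 5] (M.v X Y))
    (hbox : ∀ X Y : ℝ, (∀ t ∈ P, 0 ≤ (t.c : ℝ) + t.a * X + t.b * Y) →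
      ((x0 : ℝ) ≤ X ∧ X ≤ x1) ∧ ((y0 : ℝ) ≤ Y ∧ Y ≤ y1)) : ROK R := by
  have h := region_p' Q h0 (fun x y hxy => by
    have h1 := poly_ok hk hP hL hcov hbox hxy
    rw [← hfr] at h1
    exact h1)
  rw [hR] at h
  exact h

end Pool.Agent.TET
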