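import Pool.Agent.Helper38_TET.Gen
import Pool.Agent.Helper38_TET.Chk

/-!
# MP_c7c9bf_co: packings by the images of a tetrahedron under diagonal sign matrices
-/

set_option autoImplicit false

namespace Pool.Agent.TET

open MeasureTheory Set Filter Pool.Agent.UL3 Pool.Agent.UL3.H88
open scoped ENNReal Topology RealInnerProductSpace

/-- the signs of the class `τ` -/
def sgn (τ : ℕ) : Fin 3 → ℝ :=
  ![if sb τ 1 = true then 1 else -1, if sb τ 2 = true then 1 else -1,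
    if sb τ 4 = true then 1 else -1]

/-- the diagonal matrix of the class `τ` -/
def dg (τ : ℕ) (x : Fin 3 → ℝ) : Fin 3 → ℝ := fun a => sgn τ a * x a

/-- there is a good periodic packing by the images of the tetrahedron `0, V 0, V 1, V 2` under the diagonal
sign matrices of the classes in `A` -/
def GoodV (A : List ℕ) (V : Fin 3 → Fin 3 → ℝ) : Prop :=
  ∃ (N : ℕ) (τ : Fin N → ℕ) (U : Fin 3 → Fin 3 → ℝ) (t : Fin N → Fin 3 → ℝ), 0 < N ∧
    (∀ i, τ i ∈ A) ∧ 0 < |(Matrix.of U).det| ∧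
    Real.pi / (3 * Real.sqrt 2) ≤ N * |(Matrix.of V).det| / (6 * |(Matrix.of U).det|) ∧
    ∀ (i j : Fin N) (k : Fin 3 → ℤ), (i = j → k ≠ 0) → ∃ g : Fin 3 → ℝ, g ≠ 0 ∧
      ∀ m m', g ⬝ᵥ (dg (τ i) (Vx V m) + t i) ≤
        g ⬝ᵥ (dg (τ j) (Vx V m') + (t j + ∑ a, (k a : ℝ) • U a))

theorem sgn_sq (τ : ℕ) (a : Fin 3) : sgn τ a * sgn τ a = 1 := by
  unfold sgn
  fin_cases a
  · show (if sb τ 1 = true then (1 : ℝ) else -1) * (if sb τ 1 = true then (1 : ℝ) else -1) = 1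
    split_ifs <;> norm_num
  · show (if sb τ 2 = true then (1 : ℝ) else -1) * (if sb τ 2 = true then (1 : ℝ) else -1) = 1
    split_ifs <;> norm_num
  · show (if sb τ 4 = true then (1 : ℝ) else -1) * (if sb τ 4 = true then (1 : ℝ) else -1) = 1
    split_ifs <;> norm_num

theorem sgn_mul_eq (τ : ℕ) (a b : Fin 3) : sgn τ a * sgn τ b = 1 ∨ sgn τ a ≠ sgn τ b := by
  by_cases h : sgn τ a = sgn τ b
  · left
    rw [h]
    exact sgn_sq τ b
  · exact Or.inr h

theorem inner_Qm (e : Fin 3 → E3) (x y : Fin 3 → ℝ) :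
    ⟪Qm e x, Qm e y⟫ = ∑ a, ∑ b, x a * y b * ⟪e a, e b⟫ := by
  unfold Qm
  rw [sum_inner]
  refine Finset.sum_congr rfl fun a _ => ?_
  rw [inner_sum]
  refine Finset.sum_congr rfl fun b _ => ?_
  rw [real_inner_smul_left, real_inner_smul_right]
  ring

theorem exists_iso (e : Fin 3 → E3) (he : (Bm e).det ≠ 0) (τ : ℕ)
    (h : ∀ a b, sgn τ a ≠ sgn τ b → ⟪e a, e b⟫ = 0) :
    ∃ L : E3 ≃ₗᵢ[ℝ] E3, ∀ x, L (Qm e x) = Qm e (dg τ x) := by
  have hdt : 0 < dt (fun i => (1 / 2 : ℝ) • e i) := by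
    have h1 : (Matrix.of fun i j => ((1 / 2 : ℝ) • e i) j) = (1 / 2 : ℝ) • Bm e := by
      ext i j
      rfl
    unfold dt
    rw [h1, Matrix.det_smul]
    exact abs_pos.2 (mul_ne_zero (by norm_num) he)
  obtain ⟨β, hβ, _⟩ := exists_basis _ hdt
  have hβ' : ∀ i, β i = e i := by
    intro i
    rw [hβ i, smul_smul]
    norm_num
  have hF : ∀ x, β.constr ℝ (fun a => sgn τ a • e a) (Qm e x) = Qm e (dg τ x) := by
    intro x
    unfold Qm
    rw [map_sum]
    refine Finset.sum_congr rfl fun m _ => ?_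
    rw [map_smul, ← hβ' m, Module.Basis.constr_basis, hβ' m, smul_smul]
    congr 1
    exact mul_comm _ _
  obtain ⟨F, hFe⟩ : ∃ F : E3 →ₗ[ℝ] E3, F = β.constr ℝ (fun a => sgn τ a • e a) := ⟨_, rfl⟩
  rw [← hFe] at hF
  have hsurj : ∀ y : E3, ∃ x : Fin 3 → ℝ, y = Qm e x := by
    intro y
    refine ⟨fun a => β.repr y a, ?_⟩
    unfold Qm
    have h1 := β.sum_repr y
    rw [← h1]
    refine Finset.sum_congr rfl fun a _ => ?_
    rw [hβ' a, h1]
  have hdd : ∀ x, dg τ (dg τ x) = x := by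
    intro x
    funext a
    unfold dg
    rw [← mul_assoc, sgn_sq, one_mul]
  have hinv : F.comp F = LinearMap.id := by
    refine LinearMap.ext fun y => ?_
    obtain ⟨x, rfl⟩ := hsurj y
    show F (F (Qm e x)) = Qm e x
    rw [hF, hF, hdd]
  have hiso : ∀ y z : E3, ⟪F y, F z⟫ = ⟪y, z⟫ := by
    intro y z
    obtain ⟨x, rfl⟩ := hsurj y
    obtain ⟨w, rfl⟩ := hsurj z
    rw [hF, hF, inner_Qm, inner_Qm]
    refine Finset.sum_congr rfl fun a _ => Finset.sum_congr rfl fun b _ => ?_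
    unfold dg
    rcases sgn_mul_eq τ a b with h1 | h1
    · calc sgn τ a * x a * (sgn τ b * w b) * ⟪e a, e b⟫ =
          (sgn τ a * sgn τ b) * (x a * w b * ⟪e a, e b⟫) := by ring
        _ = x a * w b * ⟪e a, e b⟫ := by rw [h1, one_mul]
    · rw [h a b h1, mul_zero, mul_zero]
  refine ⟨LinearEquiv.isometryOfInner (LinearEquiv.ofLinearMap F F hinv hinv) ?_, ?_⟩
  · intro y z
    exact hiso y z
  · intro x
    exact hF x

/-- **The transfer.** -/
theorem sign_transfer {A : List ℕ} {V : Fin 3 → Fin 3 → ℝ} (hg : GoodV A V) (a : E3)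
    (e : Fin 3 → E3) (he : (Bm e).det ≠ 0)
    (h : ∀ τ ∈ A, ∀ a b, sgn τ a ≠ sgn τ b → ⟪e a, e b⟫ = 0) :
    Dense (Tet a (fun i => Qm e (V i))) := by
  obtain ⟨N, τ, U, t, hN, hτ, hU, hd, hs⟩ := hg
  choose L hL using fun i => exists_iso e he (τ i) (h (τ i) (hτ i))
  exact gen a e he V hN L (fun i m => dg (τ i) (Vx V m)) (fun i m => hL i _) U t hU hd hs

end Pool.Agent.TET
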