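import Pool.Agent.Helper38_TET.Pack

/-!
# MP_c7c9bf_co: soundness of the packed comparisons
-/

set_option autoImplicit false

namespace Pool.Agent.TET

/-- one field of `yy` -/
def fld (m u v w : ℕ) (n : ℕ × ℕ × ℕ) : ℕ :=
  ((u * n.1 + v * n.2.1) + (w * n.2.2 + (2949120 * m - 245760 * (n.1 + n.2.1 + n.2.2)))) -
    m * ((u + v) + w)

theorem fld_aux {m u v w a b c : ℕ} (ha : a ≤ 2 * m) (hb : b ≤ 2 * m) (hc : c ≤ 2 * m)
    (hu : u ≤ 983040) (hv : v ≤ 983040) (hw : w ≤ 983040) :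
    m * ((u + v) + w) ≤ (u * a + v * b) + (w * c + (2949120 * m - 245760 * (a + b + c))) ∧
    (((((u * a + v * b) + (w * c + (2949120 * m - 245760 * (a + b + c)))) -
      m * ((u + v) + w) : ℕ) : ℤ) = ((u : ℤ) - 245760) * ((a : ℤ) - m) +
        ((v : ℤ) - 245760) * ((b : ℤ) - m) + ((w : ℤ) - 245760) * ((c : ℤ) - m) + 2211840 * m) ∧
    (|((u : ℤ) - 245760) * ((a : ℤ) - m) +
        ((v : ℤ) - 245760) * ((b : ℤ) - m) + ((w : ℤ) - 245760) * ((c : ℤ) - m)| ≤ 2211840 * m) := by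
  have h1 : 245760 * (a + b + c) ≤ 2949120 * m := by omega
  have h2 : (((2949120 * m - 245760 * (a + b + c) : ℕ)) : ℤ) =
      2949120 * m - 245760 * (a + b + c) := by
    push_cast [Nat.cast_sub h1]
    ring
  have k1 : ∀ x t : ℕ, x ≤ 983040 → t ≤ 2 * m →
      |((x : ℤ) - 245760) * ((t : ℤ) - m)| ≤ 737280 * m := by
    intro x t hx ht
    rw [abs_mul]
    have e1 : |(x : ℤ) - 245760| ≤ 737280 := by
      rw [abs_le]
      constructor <;> omega
    have e2 : |(t : ℤ) - m| ≤ m := by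
      rw [abs_le]
      constructor <;> omega
    exact mul_le_mul e1 e2 (abs_nonneg _) (by norm_num)
  have k2 := k1 u a hu ha
  have k3 := k1 v b hv hb
  have k4 := k1 w c hw hc
  have k5 : |((u : ℤ) - 245760) * ((a : ℤ) - m) +
        ((v : ℤ) - 245760) * ((b : ℤ) - m) + ((w : ℤ) - 245760) * ((c : ℤ) - m)| ≤
        2211840 * m := by
    refine (abs_add_three _ _ _).trans ?_
    linarith
  have h3 : m * ((u + v) + w) ≤
      (u * a + v * b) + (w * c + (2949120 * m - 245760 * (a + b + c))) := by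
    have h4 : ((m * ((u + v) + w) : ℕ) : ℤ) ≤
        (((u * a + v * b) + (w * c + (2949120 * m - 245760 * (a + b + c))) : ℕ) : ℤ) := by
      rw [Nat.cast_add, Nat.cast_add (w * c), h2]
      push_cast
      have := (abs_le.1 k5).1
      nlinarith
    exact_mod_cast h4
  refine ⟨h3, ?_, k5⟩
  rw [Nat.cast_sub h3, Nat.cast_add, Nat.cast_add (w * c), h2]
  push_cast
  ring

/-- the value of a functional on a lattice vector (scaled) -/
def val (f : Q) (c : Cn) (m : ℕ) (n : ℕ × ℕ × ℕ) : ℤ :=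
  f.a * (((c.x.a : ℤ) - 245760) * ((n.1 : ℤ) - m) + ((c.y.a : ℤ) - 245760) * ((n.2.1 : ℤ) - m) +
    ((c.z.a : ℤ) - 245760) * ((n.2.2 : ℤ) - m)) +
  f.b * (((c.x.b : ℤ) - 245760) * ((n.1 : ℤ) - m) + ((c.y.b : ℤ) - 245760) * ((n.2.1 : ℤ) - m) +
    ((c.z.b : ℤ) - 245760) * ((n.2.2 : ℤ) - m)) +
  f.c * (((c.x.c : ℤ) - 245760) * ((n.1 : ℤ) - m) + ((c.y.c : ℤ) - 245760) * ((n.2.1 : ℤ) - m) +
    ((c.z.c : ℤ) - 245760) * ((n.2.2 : ℤ) - m)) +
  f.d * (((c.x.d : ℤ) - 245760) * ((n.1 : ℤ) - m) + ((c.y.d : ℤ) - 245760) * ((n.2.1 : ℤ) - m) +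
    ((c.z.d : ℤ) - 245760) * ((n.2.2 : ℤ) - m))

theorem yy_eq {K : Kc} (hK : K.Ok) {u v w : ℕ} (hu : u ≤ 983040) (hv : v ≤ 983040)
    (hw : w ≤ 983040) : yy K u v w = pack ((cube K.m).map (fld K.m u v w)) := by
  have h1 : yy K u v w = (u * K.x1 + v * K.x2 + (w * K.x3 + K.k2)) -
      (K.m * ((u + v) + w)) * K.one := rfl
  rw [h1, hK.x1, hK.x2, hK.x3, hK.k2, hK.one, ← pack_mul, ← pack_mul, ← pack_mul, ← pack_mul,
    ← pack_add, ← pack_add, ← pack_add, ← pack_sub]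
  · congr 1
    refine List.map_congr_left fun n _ => ?_
    unfold fld
    rw [mul_one]
  · intro n hn
    obtain ⟨ha, hb, hc⟩ := mem_cube.1 hn
    rw [mul_one]
    exact (fld_aux ha hb hc hu hv hw).1

/-- one field of `z1` -/
def zfl (K : Kc) (f : Q) (Bi Bj : Bd) (c : Cn) (n : ℕ × ℕ × ℕ) : ℕ :=
  ((f.a * fld K.m c.x.a c.y.a c.z.a n + f.b * fld K.m c.x.b c.y.b c.z.b n) +
    (f.c * fld K.m c.x.c c.y.c c.z.c n + f.d * fld K.m c.x.d c.y.d c.z.d n)) +
    (k1 K + lo f Bj - hi f Bi)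

theorem le_sum (x : Q) : x.a ≤ sumQ x ∧ x.b ≤ sumQ x ∧ x.c ≤ sumQ x ∧ x.d ≤ sumQ x := by
  have h : sumQ x = (x.a + x.b) + (x.c + x.d) := rfl
  rw [h]
  omega

theorem z1_eq {K : Kc} (hK : K.Ok) (f : Q) (Bi Bj : Bd) {c : Cn} (hx : sumQ c.x = 983040)
    (hy : sumQ c.y = 983040) (hz : sumQ c.z = 983040) :
    z1 K f Bi Bj c = pack ((cube K.m).map (zfl K f Bi Bj c)) := by
  obtain ⟨x1, x2, x3, x4⟩ := le_sum c.x
  obtain ⟨y1, y2, y3, y4⟩ := le_sum c.y
  obtain ⟨w1, w2, w3, w4⟩ := le_sum c.z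
  rw [hx] at x1 x2 x3 x4
  rw [hy] at y1 y2 y3 y4
  rw [hz] at w1 w2 w3 w4
  have h1 : z1 K f Bi Bj c =
      ((f.a * yy K c.x.a c.y.a c.z.a + f.b * yy K c.x.b c.y.b c.z.b) +
      (f.c * yy K c.x.c c.y.c c.z.c + f.d * yy K c.x.d c.y.d c.z.d)) +
      (k1 K + lo f Bj - hi f Bi) * K.one := rfl
  rw [h1, yy_eq hK x1 y1 w1, yy_eq hK x2 y2 w2, yy_eq hK x3 y3 w3, yy_eq hK x4 y4 w4, hK.one,
    ← pack_mul, ← pack_mul, ← pack_mul, ← pack_mul, ← pack_mul, ← pack_add, ← pack_add,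
    ← pack_add, ← pack_add]
  congr 1
  refine List.map_congr_left fun n _ => ?_
  unfold zfl
  rw [mul_one]

theorem nmax_eq (a b : ℕ) : nmax a b = max a b := by
  have h : nmax a b = a + (b - a) := rfl
  rw [h]
  omega

theorem nmin_eq (a b : ℕ) : nmin a b = min a b := by
  have h : nmin a b = a - (a - b) := rfl
  rw [h]
  omega

theorem dot4_eq (x y : Q) : dot4 x y = (x.a * y.a + x.b * y.b) + (x.c * y.c + x.d * y.d) := rfl

theorem dot4_le {f x : Q} {s : ℕ} (hf : sumQ f = 16384) (hx : sumQ x ≤ s) :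
    dot4 f x ≤ 16384 * s := by
  obtain ⟨x1, x2, x3, x4⟩ := le_sum x
  rw [dot4_eq]
  have h : (f.a + f.b) + (f.c + f.d) = 16384 := hf
  calc (f.a * x.a + f.b * x.b) + (f.c * x.c + f.d * x.d)
      ≤ (f.a * s + f.b * s) + (f.c * s + f.d * s) := by
        have := x1.trans hx
        have := x2.trans hx
        have := x3.trans hx
        have := x4.trans hx
        gcongr
    _ = ((f.a + f.b) + (f.c + f.d)) * s := by ring
    _ = 16384 * s := by rw [h]

theorem hi_le {f : Q} {B : Bd} (hf : sumQ f = 16384) (h1 : sumQ B.p = 1013760)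
    (h2 : sumQ B.q = 1013760) (h3 : sumQ B.r = 1013760) (h4 : sumQ B.s = 1013760) :
    hi f B ≤ 16609443840 ∧ lo f B ≤ 16609443840 := by
  have e1 := dot4_le hf h1.le
  have e2 := dot4_le hf h2.le
  have e3 := dot4_le hf h3.le
  have e4 := dot4_le hf h4.le
  unfold hi lo
  simp only [nmax_eq, nmin_eq]
  constructor
  · omega
  · omega

theorem bit_z1 {K : Kc} (hK : K.Ok) {f : Q} (hf : sumQ f = 16384) {Bi Bj : Bd} {c : Cn}
    (hx : sumQ c.x = 983040) (hy : sumQ c.y = 983040) (hz : sumQ c.z = 983040)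
    (hi1 : hi f Bi ≤ 16609443840) (hj1 : lo f Bj ≤ 16609443840) (p : ℕ)
    (hp : p < (cube K.m).length) (hb : (z1 K f Bi Bj c).testBit (40 * p + 39) = true) :
    (hi f Bi : ℤ) ≤ lo f Bj + val f c K.m ((cube K.m)[p]) := by
  have key : ∀ n ∈ cube K.m, zfl K f Bi Bj c n < 2 ^ 40 ∧
      ((zfl K f Bi Bj c n : ℕ) : ℤ) = val f c K.m n + 549755813888 + lo f Bj - hi f Bi := by
    intro n hn
    obtain ⟨ha, hb, hc⟩ := mem_cube.1 hn
    obtain ⟨x1, x2, x3, x4⟩ := le_sum c.x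
    obtain ⟨y1, y2, y3, y4⟩ := le_sum c.y
    obtain ⟨w1, w2, w3, w4⟩ := le_sum c.z
    rw [hx] at x1 x2 x3 x4
    rw [hy] at y1 y2 y3 y4
    rw [hz] at w1 w2 w3 w4
    obtain ⟨-, a2, a3⟩ := fld_aux ha hb hc x1 y1 w1
    obtain ⟨-, b2, b3⟩ := fld_aux ha hb hc x2 y2 w2
    obtain ⟨-, c2, c3⟩ := fld_aux ha hb hc x3 y3 w3
    obtain ⟨-, d2, d3⟩ := fld_aux ha hb hc x4 y4 w4
    have hm := hK.m
    have hk1 : k1 K = 549755813888 - 36238786560 * K.m := rfl
    have hk2 : ((k1 K : ℕ) : ℤ) = 549755813888 - 36238786560 * K.m := by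
      rw [hk1]
      push_cast [Nat.cast_sub (show 36238786560 * K.m ≤ 549755813888 by omega)]
      ring
    have hk3 : hi f Bi ≤ k1 K + lo f Bj := by
      rw [hk1]
      omega
    have hs : (f.a : ℤ) + f.b + (f.c + f.d) = 16384 := by
      have h : (f.a + f.b) + (f.c + f.d) = 16384 := hf
      exact_mod_cast h
    have e1 : ((zfl K f Bi Bj c n : ℕ) : ℤ) = val f c K.m n + 549755813888 + lo f Bj - hi f Bi := by
      unfold zfl fld val
      rw [Nat.cast_add, Nat.cast_sub hk3, Nat.cast_add (k1 K), hk2]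
      rw [Nat.cast_add, Nat.cast_add, Nat.cast_add, Nat.cast_mul, Nat.cast_mul, Nat.cast_mul,
        Nat.cast_mul, a2, b2, c2, d2]
      linear_combination (2211840 * (K.m : ℤ)) * hs
    refine ⟨?_, e1⟩
    have e2 : ((zfl K f Bi Bj c n : ℕ) : ℤ) < 2 ^ 40 := by
      rw [e1]
      have g1 : val f c K.m n ≤ 36238786560 * K.m := by
        unfold val
        have p1 := (abs_le.1 a3).2
        have p2 := (abs_le.1 b3).2
        have p3 := (abs_le.1 c3).2
        have p4 := (abs_le.1 d3).2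
        have q1 := mul_le_mul_of_nonneg_left p1 (Int.natCast_nonneg f.a)
        have q2 := mul_le_mul_of_nonneg_left p2 (Int.natCast_nonneg f.b)
        have q3 := mul_le_mul_of_nonneg_left p3 (Int.natCast_nonneg f.c)
        have q4 := mul_le_mul_of_nonneg_left p4 (Int.natCast_nonneg f.d)
        have q5 : (f.a : ℤ) * (2211840 * K.m) + f.b * (2211840 * K.m) + f.c * (2211840 * K.m) +
            f.d * (2211840 * K.m) = 36238786560 * K.m := by
          linear_combination (2211840 * (K.m : ℤ)) * hs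
        linarith
      have g2 : (K.m : ℤ) ≤ 10 := by exact_mod_cast hm
      have g3 : (lo f Bj : ℤ) ≤ 16609443840 := by exact_mod_cast hj1
      have g4 : (0 : ℤ) ≤ hi f Bi := Int.natCast_nonneg _
      norm_num
      linarith
    exact_mod_cast e2
  rw [z1_eq hK f Bi Bj hx hy hz, pack_testBit _ _ p (by rw [List.length_map]; exact hp),
    List.getElem_map] at hb
  · obtain ⟨h1, h2⟩ := key _ (List.getElem_mem hp)
    rw [testBit_39 _ h1, decide_eq_true_eq] at hb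
    have h3 : (549755813888 : ℤ) ≤ ((zfl K f Bi Bj c ((cube K.m)[p]) : ℕ) : ℤ) := by
      exact_mod_cast hb
    rw [h2] at h3
    linarith
  · intro z hz
    obtain ⟨n, hn, rfl⟩ := List.mem_map.1 hz
    exact (key n hn).1

end Pool.Agent.TET
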