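import Pool.Agent.Helper38_TET.Sound1

/-!
# MP_c7c9bf_co: soundness of the separation part of the checker
-/

set_option autoImplicit false

namespace Pool.Agent.TET

/-! ### Booleans -/

theorem bAnd {a b : Bool} : Bool.and a b = true ↔ a = true ∧ b = true := by
  cases a <;> cases b <;> decide

theorem nbeq {a b : ℕ} : Nat.beq a b = true ↔ a = b := by
  constructor
  · exact Nat.eq_of_beq_eq_true
  · rintro rfl
    exact Nat.beq_refl a

theorem nble {a b : ℕ} : Nat.ble a b = true ↔ a ≤ b :=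
  ⟨Nat.le_of_ble_eq_true, Nat.ble_eq_true_of_le⟩

theorem allL_iff {α : Type} (p : α → Bool) (l : List α) :
    allL p l = true ↔ ∀ x ∈ l, p x = true := by
  induction l with
  | nil => exact ⟨fun _ x hx => absurd hx (List.not_mem_nil), fun _ => rfl⟩
  | cons a l ih =>
    have h : allL p (a :: l) = Bool.and (p a) (allL p l) := rfl
    rw [h, bAnd, ih]
    constructor
    · rintro ⟨h1, h2⟩ x hx
      rcases List.mem_cons.1 hx with rfl | hx
      · exact h1
      · exact h2 x hx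
    · intro h1
      exact ⟨h1 a (List.mem_cons_self ..), fun x hx => h1 x (List.mem_cons_of_mem _ hx)⟩

theorem allLt_iff (p : ℕ → Bool) (n : ℕ) : allLt p n = true ↔ ∀ i < n, p i = true := by
  induction n with
  | zero => exact ⟨fun _ i hi => absurd hi (Nat.not_lt_zero _), fun _ => rfl⟩
  | succ n ih =>
    have h : allLt p (n + 1) = Bool.and (p n) (allLt p n) := rfl
    rw [h, bAnd, ih]
    constructor
    · rintro ⟨h1, h2⟩ i hi
      rcases Nat.lt_succ_iff_lt_or_eq.1 hi with hi | rfl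
      · exact h2 i hi
      · exact h1
    · intro h1
      exact ⟨h1 n (Nat.lt_succ_self n), fun i hi => h1 i (Nat.lt_succ_of_lt hi)⟩

theorem okF_iff {f : Q} (h : okF f = true) :
    sumQ f = 16384 ∧ ¬(f.a = 4096 ∧ f.b = 4096 ∧ f.c = 4096) := by
  unfold okF at h
  obtain ⟨h1, h2⟩ := bAnd.1 h
  refine ⟨nbeq.1 h1, ?_⟩
  rintro ⟨e1, e2, e3⟩
  rw [nbeq.2 e1, nbeq.2 e2, nbeq.2 e3] at h2
  exact absurd h2 (by decide)

theorem okB_iff {B : Bd} (h : okB B = true) : sumQ B.p = 1013760 ∧ sumQ B.q = 1013760 ∧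
    sumQ B.r = 1013760 ∧ sumQ B.s = 1013760 := by
  unfold okB okP at h
  obtain ⟨h1, h2⟩ := bAnd.1 h
  obtain ⟨h3, h4⟩ := bAnd.1 h1
  obtain ⟨h5, h6⟩ := bAnd.1 h2
  exact ⟨nbeq.1 h3, nbeq.1 h4, nbeq.1 h5, nbeq.1 h6⟩

theorem okC_iff {n : ℕ} {c : Cn} (h : okC n c = true) : sumQ c.x = 983040 ∧
    sumQ c.y = 983040 ∧ sumQ c.z = 983040 ∧ (∀ B ∈ c.l, okB B = true) ∧ c.l.length = n := by
  unfold okC okV at h
  obtain ⟨h1, h2⟩ := bAnd.1 h
  obtain ⟨h3, h4⟩ := bAnd.1 h1
  obtain ⟨h5, h6⟩ := bAnd.1 h4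
  obtain ⟨h7, h8⟩ := bAnd.1 h2
  exact ⟨nbeq.1 h3, nbeq.1 h5, nbeq.1 h6, (allL_iff _ _).1 h7, nbeq.1 h8⟩

/-! ### Real coordinates -/

/-- the real vector -/
noncomputable def vec (x : Q) : Fin 3 → ℝ :=
  ![((x.b : ℝ) - 245760) / 30720, ((x.c : ℝ) - 245760) / 30720, ((x.d : ℝ) - 245760) / 30720]

/-- the functional -/
def fn (f : Q) : Fin 3 → ℝ := ![(f.b : ℝ) - f.a, (f.c : ℝ) - f.a, (f.d : ℝ) - f.a]

theorem fn_ne {f : Q} (h : okF f = true) : fn f ≠ 0 := by
  obtain ⟨h1, h2⟩ := okF_iff h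
  intro h0
  apply h2
  have e1 : (f.b : ℝ) - f.a = 0 := congrFun h0 0
  have e2 : (f.c : ℝ) - f.a = 0 := congrFun h0 1
  have e3 : (f.d : ℝ) - f.a = 0 := congrFun h0 2
  have g1 : f.b = f.a := by exact_mod_cast sub_eq_zero.1 e1
  have g2 : f.c = f.a := by exact_mod_cast sub_eq_zero.1 e2
  have g3 : f.d = f.a := by exact_mod_cast sub_eq_zero.1 e3
  have h3 : (f.a + f.b) + (f.c + f.d) = 16384 := h1
  omega

theorem dot4_real {f x : Q} {s : ℕ} (hf : sumQ f = 16384) (hx : sumQ x = s) :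
    (dot4 f x : ℝ) = 30720 * (fn f ⬝ᵥ vec x) + f.a * ((s : ℝ) - 983040) + 4026531840 := by
  have h1 : (f.a : ℝ) + f.b + (f.c + f.d) = 16384 := by
    have h : (f.a + f.b) + (f.c + f.d) = 16384 := hf
    exact_mod_cast h
  have h2 : (x.a : ℝ) + x.b + (x.c + x.d) = s := by
    have h : (x.a + x.b) + (x.c + x.d) = s := hx
    exact_mod_cast h
  rw [dot4_eq]
  unfold fn vec dotProduct
  rw [Fin.sum_univ_three]
  simp only [Matrix.cons_val_zero, Matrix.cons_val_one, Matrix.cons_val]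
  push_cast
  linear_combination (f.a : ℝ) * h2 + 245760 * h1

/-- the vertices of a tetrahedron -/
def vx (B : Bd) : Fin 4 → Q := ![B.p, B.q, B.r, B.s]

/-- the lattice vectors -/
def ux (c : Cn) : Fin 3 → Q := ![c.x, c.y, c.z]

theorem okB_vx {B : Bd} (h : okB B = true) (m : Fin 4) : sumQ (vx B m) = 1013760 := by
  obtain ⟨h1, h2, h3, h4⟩ := okB_iff h
  fin_cases m
  · exact h1
  · exact h2
  · exact h3
  · exact h4

theorem le_hi (f : Q) (B : Bd) (m : Fin 4) : dot4 f (vx B m) ≤ hi f B := by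
  unfold hi
  simp only [nmax_eq]
  fin_cases m
  · exact le_max_of_le_left (le_max_left _ _)
  · exact le_max_of_le_left (le_max_right _ _)
  · exact le_max_of_le_right (le_max_left _ _)
  · exact le_max_of_le_right (le_max_right _ _)

theorem lo_le (f : Q) (B : Bd) (m : Fin 4) : lo f B ≤ dot4 f (vx B m) := by
  unfold lo
  simp only [nmin_eq]
  fin_cases m
  · exact min_le_of_left_le (min_le_left _ _)
  · exact min_le_of_left_le (min_le_right _ _)
  · exact min_le_of_right_le (min_le_left _ _)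
  · exact min_le_of_right_le (min_le_right _ _)

/-- the tetrahedra `i` and `j + n` are separated at all corners by a common functional -/
def Sep (cs : List Cn) (i j : ℕ) (n : Fin 3 → ℤ) : Prop :=
  ∃ f : Fin 3 → ℝ, f ≠ 0 ∧ ∀ c ∈ cs, ∀ m m' : Fin 4,
    f ⬝ᵥ vec (vx (nth b0d c.l i) m) ≤
      f ⬝ᵥ (vec (vx (nth b0d c.l j) m') + ∑ a, (n a : ℝ) • vec (ux c a))

theorem Sep.symm {cs : List Cn} {i j : ℕ} {n : Fin 3 → ℤ} (h : Sep cs j i (-n)) :
    Sep cs i j n := by
  obtain ⟨f, hf, h1⟩ := h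
  refine ⟨-f, neg_ne_zero.2 hf, fun c hc m m' => ?_⟩
  have h2 := h1 c hc m' m
  rw [neg_dotProduct, neg_dotProduct, neg_le_neg_iff]
  have h4 : ∑ a, (((-n) a : ℤ) : ℝ) • vec (ux c a) = -∑ a, (n a : ℝ) • vec (ux c a) := by
    rw [← Finset.sum_neg_distrib]
    refine Finset.sum_congr rfl fun a _ => ?_
    rw [Pi.neg_apply, Int.cast_neg, neg_smul]
  rw [h4, dotProduct_add, dotProduct_neg] at h2
  rw [dotProduct_add]
  linarith

theorem val_real {f : Q} (hf : sumQ f = 16384) {c : Cn} (hx : sumQ c.x = 983040)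
    (hy : sumQ c.y = 983040) (hz : sumQ c.z = 983040) (m : ℕ) (n : ℕ × ℕ × ℕ)
    (k : Fin 3 → ℤ) (h0 : k 0 = (n.1 : ℤ) - m) (h1 : k 1 = (n.2.1 : ℤ) - m)
    (h2 : k 2 = (n.2.2 : ℤ) - m) :
    ((val f c m n : ℤ) : ℝ) = 30720 * (fn f ⬝ᵥ ∑ a, (k a : ℝ) • vec (ux c a)) := by
  have g1 := dot4_real hf hx
  have g2 := dot4_real hf hy
  have g3 := dot4_real hf hz
  have hs : (f.a : ℝ) + f.b + (f.c + f.d) = 16384 := by
    have h : (f.a + f.b) + (f.c + f.d) = 16384 := hf
    exact_mod_cast h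
  rw [dot4_eq] at g1 g2 g3
  push_cast at g1 g2 g3
  rw [Fin.sum_univ_three, dotProduct_add, dotProduct_add, dotProduct_smul, dotProduct_smul,
    dotProduct_smul, h0, h1, h2]
  show _ = 30720 * ((((n.1 : ℤ) - m : ℤ) : ℝ) • (fn f ⬝ᵥ vec c.x) +
    (((n.2.1 : ℤ) - m : ℤ) : ℝ) • (fn f ⬝ᵥ vec c.y) +
    (((n.2.2 : ℤ) - m : ℤ) : ℝ) • (fn f ⬝ᵥ vec c.z))
  unfold val
  simp only [smul_eq_mul]
  push_cast
  linear_combination ((n.1 : ℝ) - m) * g1 + ((n.2.1 : ℝ) - m) * g2 + ((n.2.2 : ℝ) - m) * g3 -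
    245760 * (((n.1 : ℝ) - m) + ((n.2.1 : ℝ) - m) + ((n.2.2 : ℝ) - m)) * hs

/-! ### Near pairs -/

theorem nth_mem {α : Type} (d : α) : ∀ (l : List α) (i : ℕ), i < l.length → nth d l i ∈ l := by
  intro l
  induction l with
  | nil => intro i hi; exact absurd hi (Nat.not_lt_zero _)
  | cons x l ih =>
    intro i hi
    cases i with
    | zero => exact List.mem_cons_self ..
    | succ i =>
      have h : nth d (x :: l) (i + 1) = nth d l i := rfl
      rw [h]
      exact List.mem_cons_of_mem _ (ih i (Nat.lt_of_succ_lt_succ hi))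

theorem zf_bit {K : Kc} {cs : List Cn} {i j : ℕ} {f : Q} {q : ℕ}
    (h : (zf K cs i j f).testBit q = true) :
    ∀ c ∈ cs, (z1 K f (nth b0d c.l i) (nth b0d c.l j) c).testBit q = true := by
  induction cs with
  | nil => intro c hc; exact absurd hc (List.not_mem_nil)
  | cons a cs ih =>
    have h1 : zf K (a :: cs) i j f =
      (z1 K f (nth b0d a.l i) (nth b0d a.l j) a) &&& (zf K cs i j f) := rfl
    rw [h1, Nat.testBit_and, Bool.and_eq_true] at h
    intro c hc
    rcases List.mem_cons.1 hc with rfl | hc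
    · exact h.1
    · exact ih h.2 c hc

theorem zij_bit {K : Kc} {cs : List Cn} {i j : ℕ} {fs : List Q} {q : ℕ}
    (h : (zij K cs i j fs).testBit q = true) : ∃ f ∈ fs, (zf K cs i j f).testBit q = true := by
  induction fs with
  | nil =>
    have h1 : zij K cs i j [] = 0 := rfl
    rw [h1, Nat.zero_testBit] at h
    exact absurd h (by decide)
  | cons f fs ih =>
    have h1 : zij K cs i j (f :: fs) = (zf K cs i j f) ||| (zij K cs i j fs) := rfl
    rw [h1, Nat.testBit_or, Bool.or_eq_true] at h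
    rcases h with h | h
    · exact ⟨f, List.mem_cons_self .., h⟩
    · obtain ⟨g, hg, h2⟩ := ih h
      exact ⟨g, List.mem_cons_of_mem _ hg, h2⟩

theorem near {K : Kc} (hK : K.Ok) {cs : List Cn} {N : ℕ} (hc : ∀ c ∈ cs, okC N c = true)
    {i j : ℕ} (hi1 : i < N) (hj1 : j < N) {fs : List Q} (hp : pr K cs i j fs = true)
    (n : ℕ × ℕ × ℕ) (hn : n ∈ cube K.m) (hl : i = j → lex K.m n = true) (k : Fin 3 → ℤ)
    (h0 : k 0 = (n.1 : ℤ) - K.m) (h1 : k 1 = (n.2.1 : ℤ) - K.m)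
    (h2 : k 2 = (n.2.2 : ℤ) - K.m) : Sep cs i j k := by
  unfold pr at hp
  obtain ⟨hf, hp⟩ := bAnd.1 hp
  have hf' := (allL_iff _ _).1 hf
  have hp' := nbeq.1 hp
  obtain ⟨p, hp1, hp2⟩ := List.mem_iff_getElem.1 hn
  have hfull : (cond (Nat.beq i j) K.ht K.hh).testBit (40 * p + 39) = true := by
    by_cases hij : i = j
    · rw [nbeq.2 hij, cond_true, hK.ht, pack_testBit _ _ p (by rw [List.length_map]; exact hp1),
        List.getElem_map, hp2, hl hij, if_pos rfl]
      · decide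
      · intro z hz
        obtain ⟨t, -, rfl⟩ := List.mem_map.1 hz
        split_ifs <;> norm_num
    · have h3 : Nat.beq i j = false := by
        by_contra h
        exact hij (nbeq.1 (by simpa using h))
      rw [h3, cond_false, hK.hh, pack_testBit _ _ p (by rw [List.length_map]; exact hp1),
        List.getElem_map]
      · decide
      · intro z hz
        obtain ⟨t, -, rfl⟩ := List.mem_map.1 hz
        norm_num
  have h4 : (zij K cs i j fs).testBit (40 * p + 39) = true := by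
    have h5 : ((zij K cs i j fs) &&& (cond (Nat.beq i j) K.ht K.hh)).testBit (40 * p + 39) =
        true := by
      have h6 : (zij K cs i j fs) &&& (cond (Nat.beq i j) K.ht K.hh) =
        cond (Nat.beq i j) K.ht K.hh := hp'
      rw [h6]
      exact hfull
    rw [Nat.testBit_and, Bool.and_eq_true] at h5
    exact h5.1
  obtain ⟨f, hfm, h5⟩ := zij_bit h4
  have h6 := zf_bit h5
  have hfo := hf' f hfm
  obtain ⟨hs, -⟩ := okF_iff hfo
  refine ⟨fn f, fn_ne hfo, fun c hcm m m' => ?_⟩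
  obtain ⟨hx, hy, hz, hB, hlen⟩ := okC_iff (hc c hcm)
  have hBi := hB _ (nth_mem b0d c.l i (by rw [hlen]; exact hi1))
  have hBj := hB _ (nth_mem b0d c.l j (by rw [hlen]; exact hj1))
  obtain ⟨a1, a2, a3, a4⟩ := okB_iff hBi
  obtain ⟨b1, b2, b3, b4⟩ := okB_iff hBj
  have h7 := bit_z1 hK hs hx hy hz (hi_le hs a1 a2 a3 a4).1 (hi_le hs b1 b2 b3 b4).2 p hp1
    (h6 c hcm)
  rw [hp2] at h7
  have h8 : (dot4 f (vx (nth b0d c.l i) m) : ℝ) ≤ dot4 f (vx (nth b0d c.l j) m') +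
      ((val f c K.m n : ℤ) : ℝ) := by
    have e1 : (dot4 f (vx (nth b0d c.l i) m) : ℤ) ≤ hi f (nth b0d c.l i) := by
      exact_mod_cast le_hi _ _ _
    have e2 : (lo f (nth b0d c.l j) : ℤ) ≤ dot4 f (vx (nth b0d c.l j) m') := by
      exact_mod_cast lo_le _ _ _
    have e3 : (dot4 f (vx (nth b0d c.l i) m) : ℤ) ≤ dot4 f (vx (nth b0d c.l j) m') +
      val f c K.m n := by linarith
    exact_mod_cast e3
  rw [dot4_real hs (okB_vx hBi m), dot4_real hs (okB_vx hBj m'),
    val_real hs hx hy hz K.m n k h0 h1 h2] at h8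
  rw [dotProduct_add]
  linarith

/-! ### Far pairs -/

theorem le_mxl (f : Q) (l : List Bd) (B : Bd) (hB : B ∈ l) : hi f B ≤ mxl f l := by
  induction l with
  | nil => exact absurd hB (List.not_mem_nil)
  | cons x l ih =>
    have h : mxl f (x :: l) = nmax (hi f x) (mxl f l) := rfl
    rw [h, nmax_eq]
    rcases List.mem_cons.1 hB with rfl | hB
    · exact le_max_left _ _
    · exact le_max_of_le_right (ih hB)

theorem mnl_le (f : Q) (l : List Bd) (B : Bd) (hB : B ∈ l) : mnl f l ≤ lo f B := by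
  induction l with
  | nil => exact absurd hB (List.not_mem_nil)
  | cons x l ih =>
    have h : mnl f (x :: l) = nmin (lo f x) (mnl f l) := rfl
    rw [h, nmin_eq]
    rcases List.mem_cons.1 hB with rfl | hB
    · exact min_le_left _ _
    · exact min_le_of_right_le (ih hB)

theorem dv_real {f x : Q} (hf : sumQ f = 16384) (hx : sumQ x = 983040) :
    (dv (dot4 f x) : ℝ) = |30720 * (fn f ⬝ᵥ vec x)| := by
  have h1 := dot4_real hf hx
  have h2 : (30720 : ℝ) * (fn f ⬝ᵥ vec x) = dot4 f x - 4026531840 := by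
    rw [h1]
    push_cast
    ring
  have h3 : dv (dot4 f x) = (dot4 f x - 4026531840) + (4026531840 - dot4 f x) := rfl
  rw [h2, h3]
  rcases le_total 4026531840 (dot4 f x) with h | h
  · rw [Nat.sub_eq_zero_of_le h, add_zero, Nat.cast_sub h, abs_of_nonneg]
    · push_cast
      ring
    · have : (4026531840 : ℝ) ≤ dot4 f x := by exact_mod_cast h
      linarith
  · rw [Nat.sub_eq_zero_of_le h, zero_add, Nat.cast_sub h, abs_of_nonpos]
    · push_cast
      ring
    · have : (dot4 f x : ℝ) ≤ 4026531840 := by exact_mod_cast h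
      linarith

/-- the numerical core of the far estimate -/
theorem far_num {m A B C H : ℝ} {x y z : ℤ} (hm : 0 ≤ m) (hH : 0 ≤ H)
    (h : H ≤ (m + 1) * (A - |B| - |C|)) (hx : m + 1 ≤ |(x : ℝ)|) (hy : |(y : ℝ)| ≤ |(x : ℝ)|)
    (hz : |(z : ℝ)| ≤ |(x : ℝ)|) : ∃ s : ℝ, (s = 1 ∨ s = -1) ∧ H ≤ s * (x * A + y * B + z * C) := by
  have hD : 0 ≤ A - |B| - |C| := by
    by_contra hneg
    push Not at hneg
    have : (m + 1) * (A - |B| - |C|) < 0 := mul_neg_of_pos_of_neg (by linarith) hneg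
    linarith
  have h1 : H ≤ |(x : ℝ)| * (A - |B| - |C|) :=
    h.trans (mul_le_mul_of_nonneg_right hx hD)
  have h2 : |(y : ℝ) * B| ≤ |(x : ℝ)| * |B| := by
    rw [abs_mul]
    exact mul_le_mul_of_nonneg_right hy (abs_nonneg _)
  have h3 : |(z : ℝ) * C| ≤ |(x : ℝ)| * |C| := by
    rw [abs_mul]
    exact mul_le_mul_of_nonneg_right hz (abs_nonneg _)
  rcases le_total 0 (x : ℝ) with hx0 | hx0
  · refine ⟨1, Or.inl rfl, ?_⟩
    rw [abs_of_nonneg hx0] at h1 h2 h3
    have := (abs_le.1 h2).1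
    have := (abs_le.1 h3).1
    linarith
  · refine ⟨-1, Or.inr rfl, ?_⟩
    rw [abs_of_nonpos hx0] at h1 h2 h3
    have := (abs_le.1 h2).2
    have := (abs_le.1 h3).2
    linarith

theorem far_corner {K : Kc} {f u v w : Q} (hf : sumQ f = 16384) (hu : sumQ u = 983040)
    (hv : sumQ v = 983040) (hw : sumQ w = 983040) {l : List Bd} (h : far K f u v w l = true) :
    (mxl f l : ℝ) - mnl f l ≤ ((K.m : ℝ) + 1) * (30720 * (fn f ⬝ᵥ vec u) -
      |30720 * (fn f ⬝ᵥ vec v)| - |30720 * (fn f ⬝ᵥ vec w)|) := by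
  unfold far at h
  have h1 : mxl f l + (K.m + 1) * (4026531840 + (dv (dot4 f v) + dv (dot4 f w))) ≤
    (K.m + 1) * dot4 f u + mnl f l := nble.1 h
  have h2 : ((mxl f l + (K.m + 1) * (4026531840 + (dv (dot4 f v) + dv (dot4 f w))) : ℕ) : ℝ) ≤
    (((K.m + 1) * dot4 f u + mnl f l : ℕ) : ℝ) := by exact_mod_cast h1
  push_cast at h2
  rw [dv_real hf hv, dv_real hf hw, dot4_real hf hu] at h2
  push_cast at h2
  linarith

end Pool.Agent.TET
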