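import Pool.Agent.Helper38_TET.Sound2
import Pool.Agent.Helper38_TET.Sign

/-!
# MP_c7c9bf_co: soundness of the checker
-/

set_option autoImplicit false

namespace Pool.Agent.TET

/-! ### Far pairs, conclusion -/

theorem far_num' {m A B C H s : ℝ} {x y z : ℤ} (hm : 0 ≤ m) (hH : 0 ≤ H)
    (h : H ≤ (m + 1) * (A - |B| - |C|)) (hx : m + 1 ≤ |(x : ℝ)|) (hy : |(y : ℝ)| ≤ |(x : ℝ)|)
    (hz : |(z : ℝ)| ≤ |(x : ℝ)|) (hs : (s = 1 ∧ 0 ≤ (x : ℝ)) ∨ (s = -1 ∧ (x : ℝ) ≤ 0)) :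
    H ≤ s * (x * A + y * B + z * C) := by
  have hD : 0 ≤ A - |B| - |C| := by
    by_contra hneg
    push Not at hneg
    have : (m + 1) * (A - |B| - |C|) < 0 := mul_neg_of_pos_of_neg (by linarith) hneg
    linarith
  have h1 : H ≤ |(x : ℝ)| * (A - |B| - |C|) :=
    h.trans (mul_le_mul_of_nonneg_right hx hD)
  have h2 : |(y : ℝ) * B| ≤ |(x : ℝ)| * |B| := by
    rw [abs_mul]
    exact mul_le_mul_of_nonneg_right hy (abs_nonneg _)
  have h3 : |(z : ℝ) * C| ≤ |(x : ℝ)| * |C| := by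
    rw [abs_mul]
    exact mul_le_mul_of_nonneg_right hz (abs_nonneg _)
  rcases hs with ⟨rfl, hx0⟩ | ⟨rfl, hx0⟩
  · rw [abs_of_nonneg hx0] at h1 h2 h3
    have := (abs_le.1 h2).1
    have := (abs_le.1 h3).1
    linarith
  · rw [abs_of_nonpos hx0] at h1 h2 h3
    have := (abs_le.1 h2).2
    have := (abs_le.1 h3).2
    linarith

theorem far_sep {K : Kc} {f : Q} (hf : okF f = true) {cs : List Cn} {N : ℕ}
    (hc : ∀ c ∈ cs, okC N c = true) {i j : ℕ} (hi1 : i < N) (hj1 : j < N) (n : Fin 3 → ℤ)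
    (u v w : Cn → Q) (x y z : ℤ)
    (hval : ∀ c ∈ cs, ∑ a, (n a : ℝ) • vec (ux c a) =
      (x : ℝ) • vec (u c) + (y : ℝ) • vec (v c) + (z : ℝ) • vec (w c))
    (hsum : ∀ c ∈ cs, sumQ (u c) = 983040 ∧ sumQ (v c) = 983040 ∧ sumQ (w c) = 983040)
    (hfar : ∀ c ∈ cs, far K f (u c) (v c) (w c) c.l = true)
    (hx : (K.m : ℝ) + 1 ≤ |(x : ℝ)|) (hy : |(y : ℝ)| ≤ |(x : ℝ)|) (hz : |(z : ℝ)| ≤ |(x : ℝ)|) :
    Sep cs i j n := by
  obtain ⟨s, hs⟩ : ∃ s : ℝ, (s = 1 ∧ 0 ≤ (x : ℝ)) ∨ (s = -1 ∧ (x : ℝ) ≤ 0) := by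
    rcases le_total 0 (x : ℝ) with h | h
    · exact ⟨1, Or.inl ⟨rfl, h⟩⟩
    · exact ⟨-1, Or.inr ⟨rfl, h⟩⟩
  have hs0 : s ≠ 0 := by
    rcases hs with ⟨rfl, _⟩ | ⟨rfl, _⟩ <;> norm_num
  refine ⟨s • fn f, smul_ne_zero hs0 (fn_ne hf), fun c hcm m m' => ?_⟩
  obtain ⟨-, -, -, hB, hlen⟩ := okC_iff (hc c hcm)
  obtain ⟨hsf, -⟩ := okF_iff hf
  obtain ⟨hu, hv, hw⟩ := hsum c hcm
  have hmi := nth_mem b0d c.l i (by rw [hlen]; exact hi1)
  have hmj := nth_mem b0d c.l j (by rw [hlen]; exact hj1)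
  have hBi := hB _ hmi
  have hBj := hB _ hmj
  have h1 := far_corner hsf hu hv hw (hfar c hcm)
  have bound : ∀ B ∈ c.l, ∀ m, (mnl f c.l : ℝ) ≤ dot4 f (vx B m) ∧
      (dot4 f (vx B m) : ℝ) ≤ mxl f c.l := by
    intro B hBm m
    constructor
    · exact_mod_cast (mnl_le f c.l B hBm).trans (lo_le f B m)
    · exact_mod_cast (le_hi f B m).trans (le_mxl f c.l B hBm)
  obtain ⟨b1, b2⟩ := bound _ hmi m
  obtain ⟨b3, b4⟩ := bound _ hmj m'
  have hH : (0 : ℝ) ≤ (mxl f c.l : ℝ) - mnl f c.l := by linarith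
  have h2 := far_num' (s := s) (x := x) (y := y) (z := z) (Nat.cast_nonneg K.m) hH h1 hx hy hz hs
  have r1 := dot4_real hsf (okB_vx hBi m)
  have r2 := dot4_real hsf (okB_vx hBj m')
  rw [smul_dotProduct, smul_dotProduct, dotProduct_add, hval c hcm, dotProduct_add,
    dotProduct_add, dotProduct_smul, dotProduct_smul, dotProduct_smul]
  simp only [smul_eq_mul]
  have h3 : s * ((dot4 f (vx (nth b0d c.l i) m) : ℝ) - dot4 f (vx (nth b0d c.l j) m')) ≤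
      (mxl f c.l : ℝ) - mnl f c.l := by
    rcases hs with ⟨rfl, _⟩ | ⟨rfl, _⟩ <;> linarith
  rw [r1, r2] at h3
  have h4 := h3.trans h2
  linarith

/-! ### All pairs -/

theorem prs_iff {K : Kc} {cs : List Cn} {n : ℕ} {F : List (List (List Q))}
    (h : prs K cs n F = true) {i j : ℕ} (hi1 : i < n) (hj1 : j < n) (hij : i ≤ j) :
    pr K cs i j (nth [] (nth [] F i) j) = true := by
  have h1 := (allLt_iff _ _).1 h i hi1
  have h2 := (allLt_iff _ _).1 h1 j hj1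
  have h3 : Nat.ble (Nat.succ j) i = false := by
    by_contra hb
    have : Nat.succ j ≤ i := nble.1 (by simpa using hb)
    omega
  rw [h3] at h2
  exact h2

theorem near' {K : Kc} (hK : K.Ok) {cs : List Cn} {N : ℕ} (hc : ∀ c ∈ cs, okC N c = true)
    {F : List (List (List Q))} (hp : prs K cs N F = true) {i j : ℕ} (hi1 : i < N) (hj1 : j < N)
    (hij : i ≤ j) (n : Fin 3 → ℤ) (hn : ∀ a, |n a| ≤ K.m)
    (hl : i = j → lex K.m ((n 0 + K.m).toNat, (n 1 + K.m).toNat, (n 2 + K.m).toNat) = true) :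
    Sep cs i j n := by
  have hp' := prs_iff hp hi1 hj1 hij
  have e : ∀ a, ((n a + K.m).toNat : ℤ) = n a + K.m := fun a =>
    Int.toNat_of_nonneg (by have := (abs_le.1 (hn a)).1; linarith)
  have e2 : ∀ a, (n a + K.m).toNat ≤ 2 * K.m := by
    intro a
    have h1 := (abs_le.1 (hn a)).2
    have h2 := e a
    omega
  refine near hK hc hi1 hj1 hp' ((n 0 + K.m).toNat, (n 1 + K.m).toNat, (n 2 + K.m).toNat)
    (mem_cube.2 ⟨e2 0, e2 1, e2 2⟩) hl n ?_ ?_ ?_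
  · show n 0 = (((n 0 + K.m).toNat : ℕ) : ℤ) - K.m
    rw [e 0]
    ring
  · show n 1 = (((n 1 + K.m).toNat : ℕ) : ℤ) - K.m
    rw [e 1]
    ring
  · show n 2 = (((n 2 + K.m).toNat : ℕ) : ℤ) - K.m
    rw [e 2]
    ring

theorem lex_or {m : ℕ} {n : Fin 3 → ℤ} (hn : ∀ a, |n a| ≤ m) (h0 : n ≠ 0) :
    lex m ((n 0 + m).toNat, (n 1 + m).toNat, (n 2 + m).toNat) = true ∨
    lex m (((-n) 0 + m).toNat, ((-n) 1 + m).toNat, ((-n) 2 + m).toNat) = true := by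
  have h1 : n 0 ≠ 0 ∨ n 1 ≠ 0 ∨ n 2 ≠ 0 := by
    by_contra h
    push Not at h
    apply h0
    funext a
    fin_cases a
    · exact h.1
    · exact h.2.1
    · exact h.2.2
  have g0 := abs_le.1 (hn 0)
  have g1 := abs_le.1 (hn 1)
  have g2 := abs_le.1 (hn 2)
  unfold lex
  simp only [Bool.or_eq_true, Bool.and_eq_true, decide_eq_true_eq, Pi.neg_apply]
  omega

theorem sep_all {K : Kc} (hK : K.Ok) {cs : List Cn} {N : ℕ} (hc : ∀ c ∈ cs, okC N c = true)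
    {F : List (List (List Q))} (hp : prs K cs N F = true) {w1 w2 w3 : Q} (hw1 : okF w1 = true)
    (hw2 : okF w2 = true) (hw3 : okF w3 = true) (hfar : ∀ c ∈ cs, farC K w1 w2 w3 c = true)
    {i j : ℕ} (hi1 : i < N) (hj1 : j < N) (n : Fin 3 → ℤ) (hn : i = j → n ≠ 0) :
    Sep cs i j n := by
  by_cases hfr : ∃ a, (K.m : ℤ) + 1 ≤ |n a|
  · obtain ⟨a, ha⟩ := Finite.exists_max (fun a => |n a|)
    have ha1 : (K.m : ℤ) + 1 ≤ |n a| := by
      obtain ⟨b, hb⟩ := hfr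
      exact hb.trans (ha b)
    have hsum : ∀ c ∈ cs, sumQ c.x = 983040 ∧ sumQ c.y = 983040 ∧ sumQ c.z = 983040 := by
      intro c hcm
      obtain ⟨h1, h2, h3, -, -⟩ := okC_iff (hc c hcm)
      exact ⟨h1, h2, h3⟩
    have hR : ∀ b, |((n b : ℤ) : ℝ)| ≤ |((n a : ℤ) : ℝ)| := by
      intro b
      have := ha b
      exact_mod_cast this
    have hR1 : (K.m : ℝ) + 1 ≤ |((n a : ℤ) : ℝ)| := by exact_mod_cast ha1
    have hf3 : ∀ c ∈ cs, far K w1 c.x c.y c.z c.l = true ∧ far K w2 c.y c.z c.x c.l = true ∧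
        far K w3 c.z c.x c.y c.l = true := by
      intro c hcm
      have h := hfar c hcm
      unfold farC at h
      obtain ⟨h1, h2⟩ := bAnd.1 h
      obtain ⟨h3, h4⟩ := bAnd.1 h2
      exact ⟨h1, h3, h4⟩
    fin_cases a
    · refine far_sep hw1 hc hi1 hj1 n (fun c => c.x) (fun c => c.y) (fun c => c.z) (n 0) (n 1)
        (n 2) ?_ hsum (fun c h => (hf3 c h).1) hR1 (hR 1) (hR 2)
      intro c _
      rw [Fin.sum_univ_three]
      rfl
    · refine far_sep hw2 hc hi1 hj1 n (fun c => c.y) (fun c => c.z) (fun c => c.x) (n 1) (n 2)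
        (n 0) ?_ (fun c h => ⟨(hsum c h).2.1, (hsum c h).2.2, (hsum c h).1⟩)
        (fun c h => (hf3 c h).2.1) hR1 (hR 2) (hR 0)
      intro c _
      rw [Fin.sum_univ_three]
      show (n 0 : ℝ) • vec c.x + (n 1 : ℝ) • vec c.y + (n 2 : ℝ) • vec c.z = _
      abel
    · refine far_sep hw3 hc hi1 hj1 n (fun c => c.z) (fun c => c.x) (fun c => c.y) (n 2) (n 0)
        (n 1) ?_ (fun c h => ⟨(hsum c h).2.2, (hsum c h).1, (hsum c h).2.1⟩)
        (fun c h => (hf3 c h).2.2) hR1 (hR 0) (hR 1)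
      intro c _
      rw [Fin.sum_univ_three]
      show (n 0 : ℝ) • vec c.x + (n 1 : ℝ) • vec c.y + (n 2 : ℝ) • vec c.z = _
      abel
  · push Not at hfr
    have hn1 : ∀ a, |n a| ≤ K.m := fun a => by
      have := hfr a
      omega
    have hn2 : ∀ a, |(-n) a| ≤ K.m := fun a => by
      rw [Pi.neg_apply, abs_neg]
      exact hn1 a
    rcases lt_trichotomy i j with h | h | h
    · exact near' hK hc hp hi1 hj1 h.le n hn1 (fun h' => absurd h' h.ne)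
    · rcases lex_or hn1 (hn h) with h1 | h1
      · exact near' hK hc hp hi1 hj1 h.le n hn1 (fun _ => h1)
      · refine Sep.symm (near' hK hc hp hj1 hi1 h.ge (-n) hn2 (fun _ => h1))
    · exact Sep.symm (near' hK hc hp hj1 hi1 h.le (-n) hn2 (fun h' => absurd h' h.ne))

/-! ### Determinants -/

/-- the determinant -/
def d3 (x y z : Fin 3 → ℝ) : ℝ :=
  x 0 * (y 1 * z 2 - y 2 * z 1) + x 1 * (y 2 * z 0 - y 0 * z 2) + x 2 * (y 0 * z 1 - y 1 * z 0)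

theorem d3_det (U : Fin 3 → Fin 3 → ℝ) : (Matrix.of U).det = d3 (U 0) (U 1) (U 2) := by
  rw [Matrix.det_fin_three]
  unfold d3
  simp only [Matrix.of_apply]
  ring

theorem det3_real (x y z : Q) : ((det3 (iv x) (iv y) (iv z) : ℤ) : ℝ) =
    30720 ^ 3 * d3 (vec x) (vec y) (vec z) := by
  have h : det3 (iv x) (iv y) (iv z) =
      ((x.b : ℤ) - 245760) * (((y.c : ℤ) - 245760) * ((z.d : ℤ) - 245760) -
        ((y.d : ℤ) - 245760) * ((z.c : ℤ) - 245760)) +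
      ((x.c : ℤ) - 245760) * (((y.d : ℤ) - 245760) * ((z.b : ℤ) - 245760) -
        ((y.b : ℤ) - 245760) * ((z.d : ℤ) - 245760)) +
      ((x.d : ℤ) - 245760) * (((y.b : ℤ) - 245760) * ((z.c : ℤ) - 245760) -
        ((y.c : ℤ) - 245760) * ((z.b : ℤ) - 245760)) := by
    unfold det3 iv
    simp only [Int.subNatNat_eq_coe]
    rfl
  rw [h]
  unfold d3 vec
  simp only [Matrix.cons_val_zero, Matrix.cons_val_one, Matrix.cons_val]
  push_cast
  ring

theorem d3_sum_left {ι : Type} [Fintype ι] (l : ι → ℝ) (X : ι → Fin 3 → ℝ) (y z : Fin 3 → ℝ) :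
    d3 (∑ k, l k • X k) y z = ∑ k, l k * d3 (X k) y z := by
  unfold d3
  simp only [Finset.sum_apply, Pi.smul_apply, smul_eq_mul, Finset.sum_mul]
  rw [← Finset.sum_add_distrib, ← Finset.sum_add_distrib]
  exact Finset.sum_congr rfl fun k _ => by ring

theorem d3_cyc (x y z : Fin 3 → ℝ) : d3 x y z = d3 y z x := by
  unfold d3
  ring

theorem d3_sum {ι : Type} [Fintype ι] (l : ι → ℝ) (X Y Z : ι → Fin 3 → ℝ) :
    d3 (∑ k, l k • X k) (∑ k, l k • Y k) (∑ k, l k • Z k) =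
      ∑ a, ∑ b, ∑ c, l a * l b * l c * d3 (X a) (Y b) (Z c) := by
  rw [d3_sum_left]
  refine Finset.sum_congr rfl fun a _ => ?_
  rw [d3_cyc, d3_sum_left, Finset.mul_sum]
  refine Finset.sum_congr rfl fun b _ => ?_
  rw [d3_cyc, d3_sum_left, Finset.mul_sum, Finset.mul_sum]
  refine Finset.sum_congr rfl fun c _ => ?_
  rw [d3_cyc]
  ring

theorem sym_sum {ι : Type} [Fintype ι] (l : ι → ℝ) (D : ι → ι → ι → ℝ) :
    ∑ a, ∑ b, ∑ c, l a * l b * l c * (D a b c + D a c b + D b a c + D b c a + D c a b + D c b a) =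
      6 * ∑ a, ∑ b, ∑ c, l a * l b * l c * D a b c := by
  obtain ⟨g, hg⟩ : ∃ g : ι → ι → ι → ℝ, g = fun a b c => l a * l b * l c * D a b c := ⟨_, rfl⟩
  have e : ∀ a b c, l a * l b * l c *
      (D a b c + D a c b + D b a c + D b c a + D c a b + D c b a) =
      g a b c + g a c b + g b a c + g b c a + g c a b + g c b a := by
    intro a b c
    rw [hg]
    ring
  have s1 : ∑ a, ∑ b, ∑ c, g a c b = ∑ a, ∑ b, ∑ c, g a b c :=
    Finset.sum_congr rfl fun a _ => Finset.sum_comm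
  have s2 : ∑ a, ∑ b, ∑ c, g b a c = ∑ a, ∑ b, ∑ c, g a b c := Finset.sum_comm
  have s3 : ∑ a, ∑ b, ∑ c, g b c a = ∑ a, ∑ b, ∑ c, g a b c := by
    rw [Finset.sum_comm]
    exact Finset.sum_congr rfl fun a _ => Finset.sum_comm
  have s4 : ∑ a, ∑ b, ∑ c, g c a b = ∑ a, ∑ b, ∑ c, g a b c := by
    have h1 : ∑ a, ∑ b, ∑ c, g c a b = ∑ a, ∑ c, ∑ b, g c a b :=
      Finset.sum_congr rfl fun a _ => Finset.sum_comm
    rw [h1, Finset.sum_comm]
  have s5 : ∑ a, ∑ b, ∑ c, g c b a = ∑ a, ∑ b, ∑ c, g a b c := by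
    rw [Finset.sum_comm]
    have h1 : ∑ b, ∑ a, ∑ c, g c b a = ∑ b, ∑ c, ∑ a, g c b a :=
      Finset.sum_congr rfl fun a _ => Finset.sum_comm
    rw [h1, Finset.sum_comm]
  have h0 : ∑ a, ∑ b, ∑ c, l a * l b * l c * D a b c = ∑ a, ∑ b, ∑ c, g a b c := by
    rw [hg]
  simp only [e, Finset.sum_add_distrib]
  rw [s1, s2, s3, s4, s5, h0]
  ring

end Pool.Agent.TET
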