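import Pool.Agent.Helper38_TET.Sound3

/-!
# MP_c7c9bf_co: soundness of the checker, conclusion
-/

set_option autoImplicit false

namespace Pool.Agent.TET

/-- the edge vectors of a corner -/
noncomputable def vm (c : Cn) : Fin 3 → Fin 3 → ℝ := ![vec c.e, vec c.f, vec c.g]

theorem dg_add (τ : ℕ) (x y : Fin 3 → ℝ) : dg τ (x + y) = dg τ x + dg τ y := by
  funext a
  show sgn τ a * (x a + y a) = sgn τ a * x a + sgn τ a * y a
  ring

theorem dg_smul (τ : ℕ) (r : ℝ) (x : Fin 3 → ℝ) : dg τ (r • x) = r • dg τ x := by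
  funext a
  show sgn τ a * (r * x a) = r * (sgn τ a * x a)
  ring

theorem dg_zero (τ : ℕ) : dg τ 0 = 0 := by
  funext a
  show sgn τ a * 0 = 0
  ring

theorem dg_sum {ι : Type} [Fintype ι] (τ : ℕ) (l : ι → ℝ) (X : ι → Fin 3 → ℝ) :
    dg τ (∑ k, l k • X k) = ∑ k, l k • dg τ (X k) := by
  funext a
  show sgn τ a * (∑ k, l k • X k) a = (∑ k, l k • dg τ (X k)) a
  rw [Finset.sum_apply, Finset.sum_apply, Finset.mul_sum]
  refine Finset.sum_congr rfl fun k _ => ?_
  show sgn τ a * (l k * X k a) = l k * (sgn τ a * X k a)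
  ring

theorem Vx_sum {ι : Type} [Fintype ι] (l : ι → ℝ) (X : ι → Fin 3 → Fin 3 → ℝ) (m : Fin 4) :
    Vx (∑ k, l k • X k) m = ∑ k, l k • Vx (X k) m := by
  fin_cases m
  · show (0 : Fin 3 → ℝ) = ∑ k, l k • (0 : Fin 3 → ℝ)
    simp
  · show (∑ k, l k • X k) 0 = ∑ k, l k • X k 0
    rw [Finset.sum_apply]
    rfl
  · show (∑ k, l k • X k) 1 = ∑ k, l k • X k 1
    rw [Finset.sum_apply]
    rfl
  · show (∑ k, l k • X k) 2 = ∑ k, l k • X k 2
    rw [Finset.sum_apply]
    rfl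

theorem ck_real {s : Bool} {x y v : ℕ} (h : ck s x y v = true) :
    ((y : ℝ) - 245760) / 30720 = ((x : ℝ) - 245760) / 30720 +
      (if s = true then 1 else -1) * (((v : ℝ) - 245760) / 30720) := by
  cases s
  · have h1 : y + v = x + 245760 := nbeq.1 h
    have h2 : (y : ℝ) + v = x + 245760 := by exact_mod_cast h1
    rw [if_neg (by decide)]
    linear_combination h2 / 30720
  · have h1 : y + 245760 = x + v := nbeq.1 h
    have h2 : (y : ℝ) + 245760 = x + v := by exact_mod_cast h1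
    rw [if_pos rfl]
    linear_combination h2 / 30720

theorem ckq_real {τ : ℕ} {x y v : Q} (h : ckq τ x y v = true) : vec y = vec x + dg τ (vec v) := by
  obtain ⟨h1, h2⟩ := bAnd.1 h
  obtain ⟨h3, h4⟩ := bAnd.1 h2
  funext i
  fin_cases i
  · exact ck_real h1
  · exact ck_real h3
  · exact ck_real h4

theorem semB_real {e f g : Q} {B : Bd} {τ : ℕ} (h : semB e f g B τ = true) (m : Fin 4) :
    vec (vx B m) = vec B.p + dg τ (Vx ![vec e, vec f, vec g] m) := by
  obtain ⟨h1, h2⟩ := bAnd.1 h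
  obtain ⟨h3, h4⟩ := bAnd.1 h2
  fin_cases m
  · show vec B.p = vec B.p + dg τ 0
    rw [dg_zero, add_zero]
  · exact ckq_real h1
  · exact ckq_real h3
  · exact ckq_real h4

theorem semL_nth {e f g : Q} : ∀ (ts : List ℕ) (l : List Bd), semL e f g ts l = true →
    ∀ i < ts.length, semB e f g (nth b0d l i) (nth 0 ts i) = true := by
  intro ts
  induction ts with
  | nil => intro l _ i hi; exact absurd hi (Nat.not_lt_zero _)
  | cons t ts ih =>
    intro l h i hi
    cases l with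
    | nil => exact absurd h (by
        show ¬ (false = true)
        decide)
    | cons B l =>
      have h1 : Bool.and (semB e f g B t) (semL e f g ts l) = true := h
      obtain ⟨h2, h3⟩ := bAnd.1 h1
      cases i with
      | zero => exact h2
      | succ i => exact ih l h3 i (Nat.lt_of_succ_lt_succ hi)

theorem dot_sum {ι : Type} [Fintype ι] (g : Fin 3 → ℝ) (l : ι → ℝ) (X : ι → Fin 3 → ℝ) :
    g ⬝ᵥ ∑ k, l k • X k = ∑ k, l k * (g ⬝ᵥ X k) := by
  unfold dotProduct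
  simp only [Finset.sum_apply, Pi.smul_apply, smul_eq_mul, Finset.mul_sum]
  rw [Finset.sum_comm]
  exact Finset.sum_congr rfl fun k _ => Finset.sum_congr rfl fun i _ => by ring

theorem okD_iff {n : ℕ} {d v : ℤ} (h : okD n d v = true) :
    1 ≤ d ∧ 444294 * d ≤ 100000 * n * v := by
  match d, v, h with
  | Int.ofNat e, Int.ofNat w, h =>
    obtain ⟨h1, h2⟩ := bAnd.1 h
    have e1 : 1 ≤ e := nble.1 h1
    have e2 : 444294 * e ≤ 100000 * n * w := nble.1 h2
    constructor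
    · show (1 : ℤ) ≤ (e : ℤ)
      exact_mod_cast e1
    · show (444294 : ℤ) * (e : ℤ) ≤ 100000 * (n : ℤ) * (w : ℤ)
      exact_mod_cast e2
  | Int.negSucc e, _, h => exact absurd h (by
      show ¬ (false = true)
      decide)
  | Int.ofNat e, Int.negSucc _, h => exact absurd h (by
      show ¬ (false = true)
      decide)

theorem pi_bound : Real.pi / (3 * Real.sqrt 2) ≤ 74049 / 100000 := by
  have h1 : Real.pi < 3.1416 := Real.pi_lt_d4
  have h2 : (1.41421 : ℝ) ≤ Real.sqrt 2 := by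
    apply Real.le_sqrt_of_sq_le
    norm_num
  rw [div_le_div_iff₀ (by positivity) (by norm_num)]
  nlinarith

theorem memb_iff {x : ℕ} {l : List ℕ} (h : memb x l = true) : x ∈ l := by
  induction l with
  | nil => exact absurd h (by
      show ¬ (false = true)
      decide)
  | cons y l ih =>
    have h1 : Bool.or (Nat.beq x y) (memb x l) = true := h
    by_cases h2 : Nat.beq x y = true
    · rw [nbeq.1 h2]
      exact List.mem_cons_self ..
    · have h3 : Nat.beq x y = false := Bool.eq_false_iff.2 h2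
      rw [h3] at h1
      exact List.mem_cons_of_mem _ (ih h1)

theorem get_sum {X Y Z : Cn → Q} {a b c : Cn} :
    d3 (vec (X a)) (vec (Y b)) (vec (Z c)) + d3 (vec (X a)) (vec (Y c)) (vec (Z b)) +
      d3 (vec (X b)) (vec (Y a)) (vec (Z c)) + d3 (vec (X b)) (vec (Y c)) (vec (Z a)) +
      d3 (vec (X c)) (vec (Y a)) (vec (Z b)) + d3 (vec (X c)) (vec (Y b)) (vec (Z a)) =
    ((((det3 (iv (X a)) (iv (Y b)) (iv (Z c)) + det3 (iv (X a)) (iv (Y c)) (iv (Z b))) +
      (det3 (iv (X b)) (iv (Y a)) (iv (Z c)) + det3 (iv (X b)) (iv (Y c)) (iv (Z a)))) +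
      (det3 (iv (X c)) (iv (Y a)) (iv (Z b)) + det3 (iv (X c)) (iv (Y b)) (iv (Z a))) : ℤ) : ℝ) /
      30720 ^ 3 := by
  push_cast
  simp only [det3_real]
  field_simp
  ring

/-- **Soundness of the checker.** -/
theorem chk_sound {K : Kc} (hK : K.Ok) {A : List ℕ} {X : Cell} (h : chk K A X = true)
    (l : Fin X.c.length → ℝ) (hl : ∀ k, 0 ≤ l k) (hl1 : ∑ k, l k = 1) :
    GoodV A (∑ k, l k • vm (X.c.get k)) := by
  unfold chk at h
  obtain ⟨h12, h3⟩ := bAnd.1 h
  obtain ⟨h1, h2⟩ := bAnd.1 h12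
  obtain ⟨h45, h6⟩ := bAnd.1 h3
  obtain ⟨h4, h5'⟩ := bAnd.1 h45
  obtain ⟨h5, hmb⟩ := bAnd.1 h5'
  obtain ⟨h7, h8⟩ := bAnd.1 h6
  obtain ⟨h9, h10⟩ := bAnd.1 h8
  obtain ⟨h11, hprs⟩ := bAnd.1 h10
  obtain ⟨hw1, h7'⟩ := bAnd.1 h7
  obtain ⟨hw2, hw3⟩ := bAnd.1 h7'
  have hN : 1 ≤ X.n := nble.1 h1
  have hC : ∀ c ∈ X.c, okC X.n c = true := (allL_iff _ _).1 h2
  have hS : ∀ c ∈ X.c, semL c.e c.f c.g X.t c.l = true := (allL_iff _ _).1 h4
  have hT : X.t.length = X.n := nbeq.1 h5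
  have hM : ∀ τ ∈ X.t, τ ∈ A := fun τ hτ => memb_iff ((allL_iff _ _).1 hmb τ hτ)
  have hF : ∀ c ∈ X.c, farC K X.w1 X.w2 X.w3 c = true := (allL_iff _ _).1 h9
  have hD : ∀ a ∈ X.c, ∀ b ∈ X.c, ∀ c ∈ X.c, okD X.n (sdet a b c) (vdet a b c) = true := by
    intro a ha b hb c hc
    exact (allL_iff _ _).1 ((allL_iff _ _).1 ((allL_iff _ _).1 h11 a ha) b hb) c hc
  have hmem : ∀ k : Fin X.c.length, X.c.get k ∈ X.c := fun k => List.get_mem _ _
  have hvx : ∀ (i : Fin X.n) (c : Cn), c ∈ X.c → ∀ m, vec (vx (nth b0d c.l i) m) =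
      vec (nth b0d c.l i).p + dg (nth 0 X.t i) (Vx (vm c) m) := by
    intro i c hc m
    exact semB_real (semL_nth X.t c.l (hS _ hc) i (by rw [hT]; exact i.2)) m
  obtain ⟨U, hU⟩ : ∃ U : Fin 3 → Fin 3 → ℝ, U = fun a => ∑ k, l k • vec (ux (X.c.get k) a) :=
    ⟨_, rfl⟩
  obtain ⟨V, hV⟩ : ∃ V : Fin 3 → Fin 3 → ℝ, V = ∑ k, l k • vm (X.c.get k) := ⟨_, rfl⟩
  obtain ⟨t, ht⟩ : ∃ t : Fin X.n → Fin 3 → ℝ,
      t = fun (i : Fin X.n) => ∑ k, l k • vec (nth b0d (X.c.get k).l (i : ℕ)).p := ⟨_, rfl⟩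
  -- determinants
  have hdet : (Matrix.of U).det = ∑ a, ∑ b, ∑ c, l a * l b * l c *
      d3 (vec (X.c.get a).x) (vec (X.c.get b).y) (vec (X.c.get c).z) := by
    rw [d3_det, hU]
    exact d3_sum l (fun k => vec (X.c.get k).x) (fun k => vec (X.c.get k).y)
      (fun k => vec (X.c.get k).z)
  have hdetV : (Matrix.of V).det = ∑ a, ∑ b, ∑ c, l a * l b * l c *
      d3 (vec (X.c.get a).e) (vec (X.c.get b).f) (vec (X.c.get c).g) := by
    rw [d3_det, hV, Finset.sum_apply, Finset.sum_apply, Finset.sum_apply]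
    exact d3_sum l (fun k => vec (X.c.get k).e) (fun k => vec (X.c.get k).f)
      (fun k => vec (X.c.get k).g)
  have hsym := sym_sum l (fun a b c => d3 (vec (X.c.get a).x) (vec (X.c.get b).y)
    (vec (X.c.get c).z))
  have hsymV := sym_sum l (fun a b c => d3 (vec (X.c.get a).e) (vec (X.c.get b).f)
    (vec (X.c.get c).g))
  rw [← hdet] at hsym
  rw [← hdetV] at hsymV
  have hone : ∑ a, ∑ b, ∑ c, l a * l b * l c = 1 := by
    have e1 : ∀ a b, ∑ c, l a * l b * l c = l a * l b := by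
      intro a b
      rw [← Finset.mul_sum, hl1, mul_one]
    have e2 : ∀ a, ∑ b, ∑ c, l a * l b * l c = l a := by
      intro a
      rw [Finset.sum_congr rfl fun b _ => e1 a b, ← Finset.mul_sum, hl1, mul_one]
    rw [Finset.sum_congr rfl fun a _ => e2 a, hl1]
  obtain ⟨S1, hS1⟩ : ∃ S1 : Fin X.c.length → Fin X.c.length → Fin X.c.length → ℝ,
      S1 = fun a b c => d3 (vec (X.c.get a).x) (vec (X.c.get b).y) (vec (X.c.get c).z) +
      d3 (vec (X.c.get a).x) (vec (X.c.get c).y) (vec (X.c.get b).z) +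
      d3 (vec (X.c.get b).x) (vec (X.c.get a).y) (vec (X.c.get c).z) +
      d3 (vec (X.c.get b).x) (vec (X.c.get c).y) (vec (X.c.get a).z) +
      d3 (vec (X.c.get c).x) (vec (X.c.get a).y) (vec (X.c.get b).z) +
      d3 (vec (X.c.get c).x) (vec (X.c.get b).y) (vec (X.c.get a).z) := ⟨_, rfl⟩
  obtain ⟨S2, hS2⟩ : ∃ S2 : Fin X.c.length → Fin X.c.length → Fin X.c.length → ℝ,
      S2 = fun a b c => d3 (vec (X.c.get a).e) (vec (X.c.get b).f) (vec (X.c.get c).g) +
      d3 (vec (X.c.get a).e) (vec (X.c.get c).f) (vec (X.c.get b).g) +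
      d3 (vec (X.c.get b).e) (vec (X.c.get a).f) (vec (X.c.get c).g) +
      d3 (vec (X.c.get b).e) (vec (X.c.get c).f) (vec (X.c.get a).g) +
      d3 (vec (X.c.get c).e) (vec (X.c.get a).f) (vec (X.c.get b).g) +
      d3 (vec (X.c.get c).e) (vec (X.c.get b).f) (vec (X.c.get a).g) := ⟨_, rfl⟩
  have hsd : ∀ a b c, (1 : ℝ) / 30720 ^ 3 ≤ S1 a b c ∧
      444294 * S1 a b c ≤ 100000 * X.n * S2 a b c := by
    intro a b c
    obtain ⟨g1, g2⟩ := okD_iff (hD _ (hmem a) _ (hmem b) _ (hmem c))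
    have e1 : S1 a b c = ((sdet (X.c.get a) (X.c.get b) (X.c.get c) : ℤ) : ℝ) / 30720 ^ 3 := by
      rw [hS1]
      exact get_sum (X := Cn.x) (Y := Cn.y) (Z := Cn.z)
    have e2 : S2 a b c = ((vdet (X.c.get a) (X.c.get b) (X.c.get c) : ℤ) : ℝ) / 30720 ^ 3 := by
      rw [hS2]
      exact get_sum (X := Cn.e) (Y := Cn.f) (Z := Cn.g)
    have g1' : (1 : ℝ) ≤ ((sdet (X.c.get a) (X.c.get b) (X.c.get c) : ℤ) : ℝ) := by
      exact_mod_cast g1
    have g2' : (444294 : ℝ) * ((sdet (X.c.get a) (X.c.get b) (X.c.get c) : ℤ) : ℝ) ≤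
        100000 * X.n * ((vdet (X.c.get a) (X.c.get b) (X.c.get c) : ℤ) : ℝ) := by
      exact_mod_cast g2
    rw [e1, e2]
    constructor
    · exact div_le_div_of_nonneg_right g1' (by norm_num)
    · rw [← mul_div_assoc, ← mul_div_assoc]
      exact div_le_div_of_nonneg_right g2' (by norm_num)
  have hl3 : ∀ a b c, 0 ≤ l a * l b * l c := fun a b c =>
    mul_nonneg (mul_nonneg (hl a) (hl b)) (hl c)
  have hlow : (1 : ℝ) / 30720 ^ 3 ≤ 6 * (Matrix.of U).det := by
    rw [← hsym]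
    calc (1 : ℝ) / 30720 ^ 3 = ∑ a, ∑ b, ∑ c, l a * l b * l c * (1 / 30720 ^ 3) := by
          simp only [← Finset.sum_mul]
          rw [hone, one_mul]
      _ ≤ ∑ a, ∑ b, ∑ c, l a * l b * l c * S1 a b c :=
          Finset.sum_le_sum fun a _ => Finset.sum_le_sum fun b _ =>
          Finset.sum_le_sum fun c _ => mul_le_mul_of_nonneg_left (hsd a b c).1 (hl3 a b c)
      _ = _ := by rw [hS1]
  have hupp : 444294 * (6 * (Matrix.of U).det) ≤ 100000 * X.n * (6 * (Matrix.of V).det) := by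
    rw [← hsym, ← hsymV]
    simp only [Finset.mul_sum]
    refine Finset.sum_le_sum fun a _ => Finset.sum_le_sum fun b _ =>
      Finset.sum_le_sum fun c _ => ?_
    have h0 := mul_le_mul_of_nonneg_left (hsd a b c).2 (hl3 a b c)
    rw [hS1, hS2] at h0
    linarith
  have hdpos : 0 < (Matrix.of U).det := by
    have : (0 : ℝ) < 1 / 30720 ^ 3 := by norm_num
    linarith
  have hNpos : (0 : ℝ) < X.n := by exact_mod_cast hN
  have hVpos : 0 < (Matrix.of V).det := by
    by_contra hneg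
    push Not at hneg
    have h0 : 100000 * (X.n : ℝ) * (6 * (Matrix.of V).det) ≤ 0 :=
      mul_nonpos_of_nonneg_of_nonpos (by positivity) (by linarith)
    linarith
  rw [← hV]
  refine ⟨X.n, fun i => nth 0 X.t i, U, t, hN, ?_, abs_pos.2 hdpos.ne', ?_, ?_⟩
  · intro i
    exact hM _ (nth_mem 0 X.t i (by rw [hT]; exact i.2))
  · rw [abs_of_pos hdpos, abs_of_pos hVpos]
    refine pi_bound.trans ?_
    rw [div_le_div_iff₀ (by norm_num) (by positivity)]
    linarith
  · intro i j k hk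
    obtain ⟨g, hg0, hg⟩ := sep_all hK hC hprs hw1 hw2 hw3 hF i.2 j.2 k
      (fun h => hk (Fin.ext h))
    refine ⟨g, hg0, fun m m' => ?_⟩
    have e1 : ∀ (i : Fin X.n) (m : Fin 4), dg (nth 0 X.t i) (Vx V m) +
        t i = ∑ k, l k • vec (vx (nth b0d (X.c.get k).l i) m) := by
      intro i m
      rw [hV, Vx_sum, dg_sum, ht]
      show (∑ k, l k • dg (nth 0 X.t i) (Vx (vm (X.c.get k)) m)) +
        ∑ k, l k • vec (nth b0d (X.c.get k).l i).p = _
      rw [← Finset.sum_add_distrib]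
      refine Finset.sum_congr rfl fun k _ => ?_
      rw [hvx i _ (hmem k) m, smul_add, add_comm]
    have e2 : ∑ a, (k a : ℝ) • U a = ∑ r, l r • ∑ a, (k a : ℝ) • vec (ux (X.c.get r) a) := by
      rw [hU]
      simp only [Finset.smul_sum]
      rw [Finset.sum_comm]
      exact Finset.sum_congr rfl fun r _ => Finset.sum_congr rfl fun a _ => smul_comm _ _ _
    rw [e1 i m, ← add_assoc, e1 j m', e2, ← Finset.sum_add_distrib]
    simp only [← smul_add]
    rw [dot_sum, dot_sum]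
    exact Finset.sum_le_sum fun r _ =>
      mul_le_mul_of_nonneg_left (hg _ (hmem r) m m') (hl r)

end Pool.Agent.TET
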