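import Pool.Agent.Helper38_TET.GridY
import Pool.Agent.Helper38_TET.TA_M
import Pool.Agent.Helper38_TET.TA_L
import Pool.Agent.Helper38_TET.TA_0
import Pool.Agent.Helper38_TET.TA_1
import Pool.Agent.Helper38_TET.TA_2
import Pool.Agent.Helper38_TET.TA_3
import Pool.Agent.Helper38_TET.TA_4
import Pool.Agent.Helper38_TET.TA_5
import Pool.Agent.Helper38_TET.TA_10

/-!
# MP_c7c9bf_co: certificates, family TA
-/

set_option autoImplicit false
set_option maxRecDepth 100000

namespace Pool.Agent.TET

theorem TA_u0 : CovZ TA_M (toL (selN TA_LN 1240277039010882)) [0, 7, 4, 3] (1664, 2048) (1728, 2048) (1728, 2112) :=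
    (CovZ.subM 1125899912418306 (by decide +kernel)
       (CovZ.n2 (1696, 2080) (by decide +kernel)
        (CovZ.n2 (1728, 2080) (by decide +kernel)
         (CovZ.subM 1125899906847744 (by decide +kernel)
          (CovZ.n2 (1712, 2064) (by decide +kernel)
           (CovZ.n2 (1712, 2080) (by decide +kernel)
            (CovZ.n2 (1720, 2072) (by decide +kernel)
             (CovZ.n2 (1712, 2072) (by decide +kernel)
              (CovZ.badM (by decide +kernel))
              (CovZ.leaf K2_ok TA_l1375 _))
             (CovZ.badM (by decide +kernel)))
            (CovZ.n1 (1704, 2072) (by decide +kernel)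
             (CovZ.badM (by decide +kernel))
             (CovZ.n1 (1712, 2072) (by decide +kernel)
              (CovZ.n2 (1708, 2068) (by decide +kernel)
               (CovZ.badM (by decide +kernel))
               (CovZ.leaf K2_ok TA_l1376 _))
              (CovZ.badM (by decide +kernel)))))
           (CovZ.n1 (1728, 2064) (by decide +kernel)
            (CovZ.n2 (1720, 2056) (by decide +kernel)
             (CovZ.n2 (1720, 2064) (by decide +kernel)
              (CovZ.badM (by decide +kernel))
              (CovZ.n1 (1716, 2060) (by decide +kernel)
               (CovZ.n2 (1716, 2064) (by decide +kernel)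
                (CovZ.leaf K2_ok TA_l0 _)
                (CovZ.n1 (1714, 2062) (by decide +kernel)
                 (CovZ.badM (by decide +kernel))
                 (CovZ.leaf K2_ok TA_l1 _)))
               (CovZ.badM (by decide +kernel))))
             (CovZ.badM (by decide +kernel)))
            (CovZ.n1 (1720, 2072) (by decide +kernel)
             (CovZ.n2 (1728, 2072) (by decide +kernel)
              (CovZ.n2 (1724, 2068) (by decide +kernel)
               (CovZ.leaf K2_ok TA_l2 _)
               (CovZ.n1 (1728, 2068) (by decide +kernel)
                (CovZ.n2 (1726, 2066) (by decide +kernel)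
                 (CovZ.leaf K2_ok TA_l3 _)
                 (CovZ.badM (by decide +kernel)))
                (CovZ.leaf K2_ok TA_l4 _)))
              (CovZ.leaf K2_ok TA_l5 _))
             (CovZ.n1 (1720, 2064) (by decide +kernel)
              (CovZ.n2 (1716, 2068) (by decide +kernel)
               (CovZ.leaf K2_ok TA_l6 _)
               (CovZ.leaf K2_ok TA_l7 _))
              (CovZ.n1 (1724, 2068) (by decide +kernel)
               (CovZ.n2 (1724, 2064) (by decide +kernel)
                (CovZ.leaf K2_ok TA_l8 _)
                (CovZ.n1 (1726, 2066) (by decide +kernel)
                 (CovZ.badM (by decide +kernel))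
                 (CovZ.leaf K2_ok TA_l9 _)))
               (CovZ.n1 (1720, 2068) (by decide +kernel)
                (CovZ.leaf K2_ok TA_l10 _)
                (CovZ.leaf K2_ok TA_l11 _))))))))
         (CovZ.subM 5505026 (by decide +kernel)
          (CovZ.n1 (1712, 2096) (by decide +kernel)
           (CovZ.n2 (1728, 2096) (by decide +kernel)
            (CovZ.n2 (1720, 2088) (by decide +kernel)
             (CovZ.badM (by decide +kernel))
             (CovZ.n1 (1728, 2088) (by decide +kernel)
              (CovZ.badM (by decide +kernel))
              (CovZ.badM (by decide +kernel))))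
            (CovZ.badM (by decide +kernel)))
           (CovZ.n1 (1712, 2080) (by decide +kernel)
            (CovZ.badM (by decide +kernel))
            (CovZ.n1 (1720, 2088) (by decide +kernel)
             (CovZ.badM (by decide +kernel))
             (CovZ.badM (by decide +kernel)))))))
        (CovZ.subM 1125899906847744 (by decide +kernel)
         (CovZ.n1 (1696, 2048) (by decide +kernel)
          (CovZ.n2 (1680, 2064) (by decide +kernel)
           (CovZ.n2 (1696, 2064) (by decide +kernel)
            (CovZ.n2 (1688, 2056) (by decide +kernel)
             (CovZ.badM (by decide +kernel))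
             (CovZ.n1 (1696, 2056) (by decide +kernel)
              (CovZ.n2 (1692, 2052) (by decide +kernel)
               (CovZ.badM (by decide +kernel))
               (CovZ.badM (by decide +kernel)))
              (CovZ.badM (by decide +kernel))))
            (CovZ.badM (by decide +kernel)))
           (CovZ.n1 (1680, 2048) (by decide +kernel)
            (CovZ.badM (by decide +kernel))
            (CovZ.n1 (1688, 2056) (by decide +kernel)
             (CovZ.n2 (1688, 2048) (by decide +kernel)
              (CovZ.badM (by decide +kernel))
              (CovZ.n1 (1692, 2052) (by decide +kernel)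
               (CovZ.badM (by decide +kernel))
               (CovZ.badM (by decide +kernel))))
             (CovZ.badM (by decide +kernel)))))
          (CovZ.n1 (1712, 2064) (by decide +kernel)
           (CovZ.n2 (1712, 2048) (by decide +kernel)
            (CovZ.n2 (1704, 2056) (by decide +kernel)
             (CovZ.n2 (1712, 2056) (by decide +kernel)
              (CovZ.badM (by decide +kernel))
              (CovZ.n1 (1708, 2060) (by decide +kernel)
               (CovZ.n2 (1712, 2060) (by decide +kernel)
                (CovZ.n2 (1710, 2058) (by decide +kernel)
                 (CovZ.badM (by decide +kernel))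
                 (CovZ.badM (by decide +kernel)))
                (CovZ.badM (by decide +kernel)))
               (CovZ.n1 (1708, 2056) (by decide +kernel)
                (CovZ.badM (by decide +kernel))
                (CovZ.n1 (1710, 2058) (by decide +kernel)
                 (CovZ.badM (by decide +kernel))
                 (CovZ.badM (by decide +kernel))))))
             (CovZ.badM (by decide +kernel)))
            (CovZ.n1 (1720, 2056) (by decide +kernel)
             (CovZ.badM (by decide +kernel))
             (CovZ.n1 (1712, 2056) (by decide +kernel)
              (CovZ.n2 (1716, 2060) (by decide +kernel)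
               (CovZ.badM (by decide +kernel))
               (CovZ.n1 (1712, 2060) (by decide +kernel)
                (CovZ.n2 (1714, 2062) (by decide +kernel)
                 (CovZ.badM (by decide +kernel))
                 (CovZ.badM (by decide +kernel)))
                (CovZ.badM (by decide +kernel))))
              (CovZ.badM (by decide +kernel)))))
           (CovZ.n1 (1696, 2064) (by decide +kernel)
            (CovZ.n2 (1704, 2072) (by decide +kernel)
             (CovZ.n2 (1704, 2064) (by decide +kernel)
              (CovZ.badM (by decide +kernel))
              (CovZ.n1 (1708, 2068) (by decide +kernel)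
               (CovZ.leaf K2_ok TA_l1377 _)
               (CovZ.badM (by decide +kernel))))
             (CovZ.badM (by decide +kernel)))
            (CovZ.n1 (1704, 2056) (by decide +kernel)
             (CovZ.n2 (1696, 2056) (by decide +kernel)
              (CovZ.n2 (1700, 2060) (by decide +kernel)
               (CovZ.n2 (1700, 2056) (by decide +kernel)
                (CovZ.badM (by decide +kernel))
                (CovZ.n1 (1702, 2058) (by decide +kernel)
                 (CovZ.badM (by decide +kernel))
                 (CovZ.badM (by decide +kernel))))
               (CovZ.badM (by decide +kernel)))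
              (CovZ.badM (by decide +kernel)))
             (CovZ.n1 (1704, 2064) (by decide +kernel)
              (CovZ.n2 (1708, 2060) (by decide +kernel)
               (CovZ.n2 (1704, 2060) (by decide +kernel)
                (CovZ.n2 (1706, 2062) (by decide +kernel)
                 (CovZ.leaf K2_ok TA_l1378 _)
                 (CovZ.badM (by decide +kernel)))
                (CovZ.badM (by decide +kernel)))
               (CovZ.n1 (1708, 2064) (by decide +kernel)
                (CovZ.leaf K2_ok TA_l1379 _)
                (CovZ.n1 (1706, 2062) (by decide +kernel)
                 (CovZ.badM (by decide +kernel))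
                 (CovZ.leaf K2_ok TA_l1380 _))))
              (CovZ.n1 (1700, 2060) (by decide +kernel)
               (CovZ.badM (by decide +kernel))
               (CovZ.n1 (1704, 2060) (by decide +kernel)
                (CovZ.n2 (1702, 2058) (by decide +kernel)
                 (CovZ.badM (by decide +kernel))
                 (CovZ.badM (by decide +kernel)))
                (CovZ.badM (by decide +kernel))))))))))))

theorem TA_u1 : CovZ TA_M (toL (selN TA_LN 1240277039010882)) [0, 7, 4, 3] (1728, 2048) (1792, 2048) (1728, 2112) :=
    (CovZ.n1 (1760, 2080) (by decide +kernel)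
       (CovZ.subM 17179869184 (by decide +kernel)
        (CovZ.n2 (1760, 2048) (by decide +kernel)
         (CovZ.badM (by decide +kernel))
         (CovZ.n1 (1776, 2064) (by decide +kernel)
          (CovZ.badM (by decide +kernel))
          (CovZ.n1 (1760, 2064) (by decide +kernel)
           (CovZ.n2 (1768, 2072) (by decide +kernel)
            (CovZ.badM (by decide +kernel))
            (CovZ.badM (by decide +kernel)))
           (CovZ.badM (by decide +kernel))))))
       (CovZ.subM 1161084284507138 (by decide +kernel)
        (CovZ.n1 (1728, 2080) (by decide +kernel)
         (CovZ.n2 (1744, 2096) (by decide +kernel)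
          (CovZ.n2 (1744, 2080) (by decide +kernel)
           (CovZ.subM 1125899908157440 (by decide +kernel)
            (CovZ.n2 (1736, 2088) (by decide +kernel)
             (CovZ.n2 (1744, 2088) (by decide +kernel)
              (CovZ.n2 (1740, 2084) (by decide +kernel)
               (CovZ.leaf K2_ok TA_l12 _)
               (CovZ.leaf K2_ok TA_l13 _))
              (CovZ.leaf K2_ok TA_l14 _))
             (CovZ.n1 (1736, 2080) (by decide +kernel)
              (CovZ.leaf K2_ok TA_l15 _)
              (CovZ.leaf K2_ok TA_l16 _))))
           (CovZ.n1 (1752, 2088) (by decide +kernel)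
            (CovZ.subM 1125899906846720 (by decide +kernel)
             (CovZ.n2 (1752, 2080) (by decide +kernel)
              (CovZ.leaf K2_ok TA_l17 _)
              (CovZ.n1 (1756, 2084) (by decide +kernel)
               (CovZ.n2 (1756, 2080) (by decide +kernel)
                (CovZ.leaf K2_ok TA_l18 _)
                (CovZ.leaf K2_ok TA_l19 _))
               (CovZ.leaf K2_ok TA_l20 _))))
            (CovZ.n1 (1744, 2088) (by decide +kernel)
             (CovZ.n2 (1748, 2092) (by decide +kernel)
              (CovZ.leaf K2_ok TA_l21 _)
              (CovZ.leaf K2_ok TA_l22 _))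
             (CovZ.leaf K2_ok TA_l23 _))))
          (CovZ.subM 5505026 (by decide +kernel)
           (CovZ.n1 (1728, 2096) (by decide +kernel)
            (CovZ.n2 (1736, 2104) (by decide +kernel)
             (CovZ.n2 (1736, 2096) (by decide +kernel)
              (CovZ.n2 (1732, 2100) (by decide +kernel)
               (CovZ.n2 (1736, 2100) (by decide +kernel)
                (CovZ.n2 (1734, 2098) (by decide +kernel)
                 (CovZ.badM (by decide +kernel))
                 (CovZ.leaf K2_ok TA_l24 _))
                (CovZ.badM (by decide +kernel)))
               (CovZ.n1 (1732, 2096) (by decide +kernel)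
                (CovZ.badM (by decide +kernel))
                (CovZ.n1 (1734, 2098) (by decide +kernel)
                 (CovZ.badM (by decide +kernel))
                 (CovZ.badM (by decide +kernel)))))
              (CovZ.n1 (1740, 2100) (by decide +kernel)
               (CovZ.leaf K2_ok TA_l25 _)
               (CovZ.n1 (1736, 2100) (by decide +kernel)
                (CovZ.badM (by decide +kernel))
                (CovZ.leaf K2_ok TA_l26 _))))
             (CovZ.badM (by decide +kernel)))
            (CovZ.n1 (1736, 2088) (by decide +kernel)
             (CovZ.n2 (1728, 2088) (by decide +kernel)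
              (CovZ.n2 (1732, 2092) (by decide +kernel)
               (CovZ.leaf K2_ok TA_l27 _)
               (CovZ.n1 (1728, 2092) (by decide +kernel)
                (CovZ.badM (by decide +kernel))
                (CovZ.leaf K2_ok TA_l28 _)))
              (CovZ.leaf K2_ok TA_l29 _))
             (CovZ.n1 (1736, 2096) (by decide +kernel)
              (CovZ.leaf K2_ok TA_l30 _)
              (CovZ.n1 (1732, 2092) (by decide +kernel)
               (CovZ.badM (by decide +kernel))
               (CovZ.leaf K2_ok TA_l31 _)))))))
         (CovZ.subM 1125899906846720 (by decide +kernel)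
          (CovZ.n1 (1744, 2064) (by decide +kernel)
           (CovZ.n2 (1728, 2064) (by decide +kernel)
            (CovZ.n2 (1736, 2072) (by decide +kernel)
             (CovZ.n2 (1736, 2064) (by decide +kernel)
              (CovZ.n2 (1732, 2068) (by decide +kernel)
               (CovZ.n2 (1736, 2068) (by decide +kernel)
                (CovZ.badM (by decide +kernel))
                (CovZ.n1 (1734, 2070) (by decide +kernel)
                 (CovZ.n2 (1736, 2070) (by decide +kernel)
                  (CovZ.badM (by decide +kernel))
                  (CovZ.leaf K2_ok TA_l32 _))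
                 (CovZ.badM (by decide +kernel))))
               (CovZ.badM (by decide +kernel)))
              (CovZ.n1 (1740, 2068) (by decide +kernel)
               (CovZ.badM (by decide +kernel))
               (CovZ.n1 (1736, 2068) (by decide +kernel)
                (CovZ.n2 (1738, 2070) (by decide +kernel)
                 (CovZ.badM (by decide +kernel))
                 (CovZ.leaf K2_ok TA_l33 _))
                (CovZ.badM (by decide +kernel)))))
             (CovZ.n1 (1728, 2072) (by decide +kernel)
              (CovZ.n2 (1732, 2076) (by decide +kernel)
               (CovZ.leaf K2_ok TA_l34 _)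
               (CovZ.leaf K2_ok TA_l35 _))
              (CovZ.n1 (1732, 2068) (by decide +kernel)
               (CovZ.n2 (1728, 2068) (by decide +kernel)
                (CovZ.n2 (1730, 2070) (by decide +kernel)
                 (CovZ.leaf K2_ok TA_l36 _)
                 (CovZ.leaf K2_ok TA_l37 _))
                (CovZ.badM (by decide +kernel)))
               (CovZ.n1 (1732, 2072) (by decide +kernel)
                (CovZ.leaf K2_ok TA_l38 _)
                (CovZ.n1 (1730, 2070) (by decide +kernel)
                 (CovZ.leaf K2_ok TA_l39 _)
                 (CovZ.leaf K2_ok TA_l40 _))))))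
            (CovZ.badM (by decide +kernel)))
           (CovZ.n1 (1744, 2080) (by decide +kernel)
            (CovZ.n2 (1752, 2072) (by decide +kernel)
             (CovZ.n2 (1744, 2072) (by decide +kernel)
              (CovZ.n2 (1748, 2076) (by decide +kernel)
               (CovZ.badM (by decide +kernel))
               (CovZ.n1 (1744, 2076) (by decide +kernel)
                (CovZ.leaf K2_ok TA_l41 _)
                (CovZ.n1 (1746, 2074) (by decide +kernel)
                 (CovZ.n2 (1744, 2074) (by decide +kernel)
                  (CovZ.leaf K2_ok TA_l42 _)
                  (CovZ.badM (by decide +kernel)))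
                 (CovZ.leaf K2_ok TA_l43 _))))
              (CovZ.badM (by decide +kernel)))
             (CovZ.n1 (1752, 2080) (by decide +kernel)
              (CovZ.n2 (1756, 2076) (by decide +kernel)
               (CovZ.n2 (1752, 2076) (by decide +kernel)
                (CovZ.n2 (1754, 2078) (by decide +kernel)
                 (CovZ.badM (by decide +kernel))
                 (CovZ.leaf K2_ok TA_l44 _))
                (CovZ.badM (by decide +kernel)))
               (CovZ.n1 (1756, 2080) (by decide +kernel)
                (CovZ.badM (by decide +kernel))
                (CovZ.n1 (1754, 2078) (by decide +kernel)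
                 (CovZ.leaf K2_ok TA_l45 _)
                 (CovZ.badM (by decide +kernel)))))
              (CovZ.n1 (1748, 2076) (by decide +kernel)
               (CovZ.n2 (1748, 2080) (by decide +kernel)
                (CovZ.leaf K2_ok TA_l46 _)
                (CovZ.leaf K2_ok TA_l47 _))
               (CovZ.n1 (1752, 2076) (by decide +kernel)
                (CovZ.badM (by decide +kernel))
                (CovZ.leaf K2_ok TA_l48 _)))))
            (CovZ.n1 (1736, 2072) (by decide +kernel)
             (CovZ.n2 (1736, 2080) (by decide +kernel)
              (CovZ.n2 (1740, 2076) (by decide +kernel)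
               (CovZ.n2 (1736, 2076) (by decide +kernel)
                (CovZ.leaf K2_ok TA_l49 _)
                (CovZ.leaf K2_ok TA_l50 _))
               (CovZ.leaf K2_ok TA_l51 _))
              (CovZ.n1 (1732, 2076) (by decide +kernel)
               (CovZ.leaf K2_ok TA_l52 _)
               (CovZ.n1 (1736, 2076) (by decide +kernel)
                (CovZ.leaf K2_ok TA_l53 _)
                (CovZ.leaf K2_ok TA_l54 _))))
             (CovZ.n1 (1744, 2072) (by decide +kernel)
              (CovZ.n2 (1740, 2068) (by decide +kernel)
               (CovZ.n2 (1740, 2072) (by decide +kernel)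
                (CovZ.badM (by decide +kernel))
                (CovZ.n1 (1738, 2070) (by decide +kernel)
                 (CovZ.leaf K2_ok TA_l55 _)
                 (CovZ.badM (by decide +kernel))))
               (CovZ.badM (by decide +kernel)))
              (CovZ.n1 (1740, 2076) (by decide +kernel)
               (CovZ.n2 (1744, 2076) (by decide +kernel)
                (CovZ.n2 (1742, 2074) (by decide +kernel)
                 (CovZ.leaf K2_ok TA_l56 _)
                 (CovZ.n1 (1744, 2074) (by decide +kernel)
                  (CovZ.badM (by decide +kernel))
                  (CovZ.leaf K2_ok TA_l57 _)))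
                (CovZ.leaf K2_ok TA_l58 _))
               (CovZ.n1 (1740, 2072) (by decide +kernel)
                (CovZ.leaf K2_ok TA_l59 _)
                (CovZ.n1 (1742, 2074) (by decide +kernel)
                 (CovZ.badM (by decide +kernel))
                 (CovZ.leaf K2_ok TA_l60 _))))))))))))

theorem TA_u2 : CovZ TA_M (toL (selN TA_LN 37271274163360834)) [0, 7, 4, 3] (1728, 2112) (1760, 2080) (1792, 2112) :=
    (CovZ.n2 (1760, 2112) (by decide +kernel)
        (CovZ.n2 (1776, 2096) (by decide +kernel)
         (CovZ.subM 1172081548268546 (by decide +kernel)
          (CovZ.n2 (1760, 2096) (by decide +kernel)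
           (CovZ.n2 (1768, 2104) (by decide +kernel)
            (CovZ.leaf K2_ok TA_l61 _)
            (CovZ.n1 (1760, 2104) (by decide +kernel)
             (CovZ.n2 (1764, 2108) (by decide +kernel)
              (CovZ.leaf K2_ok TA_l62 _)
              (CovZ.leaf K2_ok TA_l63 _))
             (CovZ.leaf K2_ok TA_l64 _)))
           (CovZ.n1 (1768, 2088) (by decide +kernel)
            (CovZ.subM 1161086427730944 (by decide +kernel)
             (CovZ.n2 (1760, 2088) (by decide +kernel)
              (CovZ.n2 (1764, 2092) (by decide +kernel)
               (CovZ.leaf K2_ok TA_l65 _)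
               (CovZ.leaf K2_ok TA_l66 _))
              (CovZ.n1 (1764, 2084) (by decide +kernel)
               (CovZ.n2 (1760, 2084) (by decide +kernel)
                (CovZ.leaf K2_ok TA_l67 _)
                (CovZ.leaf K2_ok TA_l68 _))
               (CovZ.leaf K2_ok TA_l69 _))))
            (CovZ.n1 (1768, 2096) (by decide +kernel)
             (CovZ.leaf K2_ok TA_l70 _)
             (CovZ.n1 (1764, 2092) (by decide +kernel)
              (CovZ.leaf K2_ok TA_l71 _)
              (CovZ.leaf K2_ok TA_l72 _))))))
         (CovZ.n1 (1776, 2112) (by decide +kernel)
          (CovZ.n2 (1784, 2104) (by decide +kernel)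
           (CovZ.n2 (1776, 2104) (by decide +kernel)
            (CovZ.leaf K2_ok TA_l73 _)
            (CovZ.leaf K2_ok TA_l74 _))
           (CovZ.n1 (1784, 2112) (by decide +kernel)
            (CovZ.leaf K2_ok TA_l75 _)
            (CovZ.n1 (1780, 2108) (by decide +kernel)
             (CovZ.leaf K2_ok TA_l76 _)
             (CovZ.leaf K2_ok TA_l77 _))))
          (CovZ.n1 (1768, 2104) (by decide +kernel)
           (CovZ.n2 (1768, 2112) (by decide +kernel)
            (CovZ.leaf K2_ok TA_l78 _)
            (CovZ.n1 (1764, 2108) (by decide +kernel)
             (CovZ.leaf K2_ok TA_l79 _)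
             (CovZ.leaf K2_ok TA_l80 _)))
           (CovZ.n1 (1776, 2104) (by decide +kernel)
            (CovZ.leaf K2_ok TA_l81 _)
            (CovZ.leaf K2_ok TA_l82 _)))))
        (CovZ.subM 1163283307762690 (by decide +kernel)
         (CovZ.n1 (1744, 2096) (by decide +kernel)
          (CovZ.subM 35184377593856 (by decide +kernel)
           (CovZ.n2 (1744, 2112) (by decide +kernel)
            (CovZ.n2 (1752, 2104) (by decide +kernel)
             (CovZ.n2 (1744, 2104) (by decide +kernel)
              (CovZ.n2 (1748, 2108) (by decide +kernel)
               (CovZ.n2 (1748, 2104) (by decide +kernel)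
                (CovZ.leaf K2_ok TA_l83 _)
                (CovZ.leaf K2_ok TA_l84 _))
               (CovZ.badM (by decide +kernel)))
              (CovZ.n1 (1748, 2100) (by decide +kernel)
               (CovZ.leaf K2_ok TA_l85 _)
               (CovZ.n1 (1748, 2104) (by decide +kernel)
                (CovZ.leaf K2_ok TA_l86 _)
                (CovZ.leaf K2_ok TA_l87 _))))
             (CovZ.n1 (1752, 2112) (by decide +kernel)
              (CovZ.n2 (1756, 2108) (by decide +kernel)
               (CovZ.n2 (1752, 2108) (by decide +kernel)
                (CovZ.n2 (1754, 2110) (by decide +kernel)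
                 (CovZ.leaf K2_ok TA_l88 _)
                 (CovZ.badM (by decide +kernel)))
                (CovZ.leaf K2_ok TA_l89 _))
               (CovZ.n1 (1756, 2112) (by decide +kernel)
                (CovZ.leaf K2_ok TA_l90 _)
                (CovZ.leaf K2_ok TA_l91 _)))
              (CovZ.n1 (1748, 2108) (by decide +kernel)
               (CovZ.badM (by decide +kernel))
               (CovZ.n1 (1752, 2108) (by decide +kernel)
                (CovZ.leaf K2_ok TA_l92 _)
                (CovZ.badM (by decide +kernel))))))
            (CovZ.n1 (1736, 2104) (by decide +kernel)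
             (CovZ.badM (by decide +kernel))
             (CovZ.n1 (1744, 2104) (by decide +kernel)
              (CovZ.n2 (1740, 2100) (by decide +kernel)
               (CovZ.badM (by decide +kernel))
               (CovZ.leaf K2_ok TA_l93 _))
              (CovZ.badM (by decide +kernel))))))
          (CovZ.n1 (1760, 2096) (by decide +kernel)
           (CovZ.subM 1161084280247296 (by decide +kernel)
            (CovZ.n2 (1752, 2088) (by decide +kernel)
             (CovZ.n2 (1752, 2096) (by decide +kernel)
              (CovZ.leaf K2_ok TA_l94 _)
              (CovZ.n1 (1748, 2092) (by decide +kernel)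
               (CovZ.leaf K2_ok TA_l95 _)
               (CovZ.leaf K2_ok TA_l96 _)))
             (CovZ.n1 (1760, 2088) (by decide +kernel)
              (CovZ.n2 (1756, 2084) (by decide +kernel)
               (CovZ.leaf K2_ok TA_l97 _)
               (CovZ.n1 (1760, 2084) (by decide +kernel)
                (CovZ.leaf K2_ok TA_l98 _)
                (CovZ.leaf K2_ok TA_l99 _)))
              (CovZ.leaf K2_ok TA_l100 _))))
           (CovZ.n1 (1752, 2104) (by decide +kernel)
            (CovZ.n2 (1760, 2104) (by decide +kernel)
             (CovZ.n2 (1756, 2100) (by decide +kernel)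
              (CovZ.leaf K2_ok TA_l101 _)
              (CovZ.leaf K2_ok TA_l102 _))
             (CovZ.leaf K2_ok TA_l103 _))
            (CovZ.n1 (1752, 2096) (by decide +kernel)
             (CovZ.leaf K2_ok TA_l104 _)
             (CovZ.n1 (1756, 2100) (by decide +kernel)
              (CovZ.leaf K2_ok TA_l105 _)
              (CovZ.leaf K2_ok TA_l106 _))))))))

theorem TA_u3 : CovZ TA_M (toL (selN TA_LN 37271274163360834)) [0, 7, 4, 3] (1760, 2080) (1792, 2048) (1792, 2112) :=
    (CovZ.n1 (1792, 2080) (by decide +kernel)
        (CovZ.subM 17179869184 (by decide +kernel)
         (CovZ.n2 (1776, 2064) (by decide +kernel)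
          (CovZ.n2 (1776, 2080) (by decide +kernel)
           (CovZ.badM (by decide +kernel))
           (CovZ.n1 (1768, 2072) (by decide +kernel)
            (CovZ.n2 (1768, 2080) (by decide +kernel)
             (CovZ.badM (by decide +kernel))
             (CovZ.badM (by decide +kernel)))
            (CovZ.badM (by decide +kernel))))
          (CovZ.badM (by decide +kernel))))
        (CovZ.n1 (1776, 2096) (by decide +kernel)
         (CovZ.n2 (1792, 2096) (by decide +kernel)
          (CovZ.subM 37233889688686592 (by decide +kernel)
           (CovZ.n2 (1784, 2088) (by decide +kernel)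
            (CovZ.n2 (1784, 2096) (by decide +kernel)
             (CovZ.n2 (1788, 2092) (by decide +kernel)
              (CovZ.n2 (1784, 2092) (by decide +kernel)
               (CovZ.leaf K2_ok TA_l107 _)
               (CovZ.leaf K2_ok TA_l108 _))
              (CovZ.leaf K2_ok TA_l109 _))
             (CovZ.n1 (1780, 2092) (by decide +kernel)
              (CovZ.leaf K2_ok TA_l110 _)
              (CovZ.n1 (1784, 2092) (by decide +kernel)
               (CovZ.n2 (1782, 2090) (by decide +kernel)
                (CovZ.leaf K2_ok TA_l111 _)
                (CovZ.leaf K2_ok TA_l112 _))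
               (CovZ.leaf K2_ok TA_l113 _))))
            (CovZ.subM 70388071534592 (by decide +kernel)
             (CovZ.n1 (1792, 2088) (by decide +kernel)
              (CovZ.n2 (1788, 2084) (by decide +kernel)
               (CovZ.n2 (1788, 2088) (by decide +kernel)
                (CovZ.badM (by decide +kernel))
                (CovZ.n1 (1786, 2086) (by decide +kernel)
                 (CovZ.n2 (1786, 2088) (by decide +kernel)
                  (CovZ.badM (by decide +kernel))
                  (CovZ.leaf K2_ok TA_l114 _))
                 (CovZ.badM (by decide +kernel))))
               (CovZ.badM (by decide +kernel)))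
              (CovZ.n1 (1788, 2092) (by decide +kernel)
               (CovZ.n2 (1792, 2092) (by decide +kernel)
                (CovZ.n2 (1790, 2090) (by decide +kernel)
                 (CovZ.leaf K2_ok TA_l115 _)
                 (CovZ.n1 (1792, 2090) (by decide +kernel)
                  (CovZ.badM (by decide +kernel))
                  (CovZ.leaf K2_ok TA_l116 _)))
                (CovZ.leaf K2_ok TA_l117 _))
               (CovZ.n1 (1788, 2088) (by decide +kernel)
                (CovZ.n2 (1786, 2090) (by decide +kernel)
                 (CovZ.n2 (1788, 2090) (by decide +kernel)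
                  (CovZ.n2 (1787, 2089) (by decide +kernel)
                   (CovZ.leaf K2_ok TA_l118 _)
                   (CovZ.leaf K2_ok TA_l119 _))
                  (CovZ.leaf K2_ok TA_l120 _))
                 (CovZ.n1 (1786, 2088) (by decide +kernel)
                  (CovZ.leaf K2_ok TA_l121 _)
                  (CovZ.leaf K2_ok TA_l122 _)))
                (CovZ.n1 (1790, 2090) (by decide +kernel)
                 (CovZ.badM (by decide +kernel))
                 (CovZ.n1 (1788, 2090) (by decide +kernel)
                  (CovZ.leaf K2_ok TA_l123 _)
                  (CovZ.leaf K2_ok TA_l124 _)))))))))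
          (CovZ.n1 (1784, 2104) (by decide +kernel)
           (CovZ.n2 (1792, 2104) (by decide +kernel)
            (CovZ.n2 (1788, 2100) (by decide +kernel)
             (CovZ.leaf K2_ok TA_l125 _)
             (CovZ.leaf K2_ok TA_l126 _))
            (CovZ.leaf K2_ok TA_l127 _))
           (CovZ.n1 (1784, 2096) (by decide +kernel)
            (CovZ.leaf K2_ok TA_l128 _)
            (CovZ.n1 (1788, 2100) (by decide +kernel)
             (CovZ.leaf K2_ok TA_l129 _)
             (CovZ.leaf K2_ok TA_l130 _)))))
         (CovZ.subM 1205092661334016 (by decide +kernel)
          (CovZ.n1 (1776, 2080) (by decide +kernel)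
           (CovZ.n2 (1768, 2088) (by decide +kernel)
            (CovZ.n2 (1776, 2088) (by decide +kernel)
             (CovZ.subM 8815420379136 (by decide +kernel)
              (CovZ.n2 (1772, 2084) (by decide +kernel)
               (CovZ.n2 (1772, 2088) (by decide +kernel)
                (CovZ.leaf K2_ok TA_l131 _)
                (CovZ.n1 (1770, 2086) (by decide +kernel)
                 (CovZ.leaf K2_ok TA_l132 _)
                 (CovZ.leaf K2_ok TA_l133 _)))
               (CovZ.n1 (1776, 2084) (by decide +kernel)
                (CovZ.n2 (1774, 2082) (by decide +kernel)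
                 (CovZ.n2 (1774, 2084) (by decide +kernel)
                  (CovZ.n2 (1775, 2083) (by decide +kernel)
                   (CovZ.n2 (1774, 2083) (by decide +kernel)
                    (CovZ.leaf K2_ok TA_l134 _)
                    (CovZ.badM (by decide +kernel)))
                   (CovZ.leaf K2_ok TA_l135 _))
                  (CovZ.n1 (1773, 2083) (by decide +kernel)
                   (CovZ.leaf K2_ok TA_l136 _)
                   (CovZ.leaf K2_ok TA_l137 _)))
                 (CovZ.badM (by decide +kernel)))
                (CovZ.n1 (1774, 2086) (by decide +kernel)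
                 (CovZ.leaf K2_ok TA_l138 _)
                 (CovZ.leaf K2_ok TA_l139 _)))))
             (CovZ.n1 (1772, 2092) (by decide +kernel)
              (CovZ.leaf K2_ok TA_l140 _)
              (CovZ.leaf K2_ok TA_l141 _)))
            (CovZ.subM 8815420379136 (by decide +kernel)
             (CovZ.n1 (1768, 2080) (by decide +kernel)
              (CovZ.n2 (1764, 2084) (by decide +kernel)
               (CovZ.n2 (1768, 2084) (by decide +kernel)
                (CovZ.n2 (1766, 2082) (by decide +kernel)
                 (CovZ.leaf K2_ok TA_l142 _)
                 (CovZ.n1 (1768, 2082) (by decide +kernel)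
                  (CovZ.badM (by decide +kernel))
                  (CovZ.leaf K2_ok TA_l143 _)))
                (CovZ.leaf K2_ok TA_l144 _))
               (CovZ.n1 (1764, 2080) (by decide +kernel)
                (CovZ.n2 (1762, 2082) (by decide +kernel)
                 (CovZ.leaf K2_ok TA_l145 _)
                 (CovZ.badM (by decide +kernel)))
                (CovZ.n1 (1766, 2082) (by decide +kernel)
                 (CovZ.badM (by decide +kernel))
                 (CovZ.n1 (1764, 2082) (by decide +kernel)
                  (CovZ.leaf K2_ok TA_l146 _)
                  (CovZ.leaf K2_ok TA_l147 _)))))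
              (CovZ.n1 (1772, 2084) (by decide +kernel)
               (CovZ.n2 (1772, 2080) (by decide +kernel)
                (CovZ.badM (by decide +kernel))
                (CovZ.n1 (1774, 2082) (by decide +kernel)
                 (CovZ.badM (by decide +kernel))
                 (CovZ.n1 (1772, 2082) (by decide +kernel)
                  (CovZ.n2 (1773, 2083) (by decide +kernel)
                   (CovZ.badM (by decide +kernel))
                   (CovZ.badM (by decide +kernel)))
                  (CovZ.badM (by decide +kernel)))))
               (CovZ.n1 (1768, 2084) (by decide +kernel)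
                (CovZ.n2 (1770, 2086) (by decide +kernel)
                 (CovZ.leaf K2_ok TA_l148 _)
                 (CovZ.leaf K2_ok TA_l149 _))
                (CovZ.n1 (1770, 2082) (by decide +kernel)
                 (CovZ.n2 (1768, 2082) (by decide +kernel)
                  (CovZ.leaf K2_ok TA_l150 _)
                  (CovZ.badM (by decide +kernel)))
                 (CovZ.leaf K2_ok TA_l151 _)))))))
           (CovZ.n1 (1784, 2088) (by decide +kernel)
            (CovZ.subM 17179869184 (by decide +kernel)
             (CovZ.n2 (1784, 2080) (by decide +kernel)
              (CovZ.n2 (1780, 2084) (by decide +kernel)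
               (CovZ.n2 (1784, 2084) (by decide +kernel)
                (CovZ.badM (by decide +kernel))
                (CovZ.n1 (1782, 2086) (by decide +kernel)
                 (CovZ.n2 (1784, 2086) (by decide +kernel)
                  (CovZ.badM (by decide +kernel))
                  (CovZ.leaf K2_ok TA_l152 _))
                 (CovZ.badM (by decide +kernel))))
               (CovZ.badM (by decide +kernel)))
              (CovZ.n1 (1788, 2084) (by decide +kernel)
               (CovZ.badM (by decide +kernel))
               (CovZ.n1 (1784, 2084) (by decide +kernel)
                (CovZ.n2 (1786, 2086) (by decide +kernel)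
                 (CovZ.badM (by decide +kernel))
                 (CovZ.n1 (1784, 2086) (by decide +kernel)
                  (CovZ.n2 (1785, 2087) (by decide +kernel)
                   (CovZ.badM (by decide +kernel))
                   (CovZ.leaf K2_ok TA_l153 _))
                  (CovZ.badM (by decide +kernel))))
                (CovZ.badM (by decide +kernel))))))
            (CovZ.n1 (1776, 2088) (by decide +kernel)
             (CovZ.n2 (1780, 2092) (by decide +kernel)
              (CovZ.n2 (1780, 2088) (by decide +kernel)
               (CovZ.leaf K2_ok TA_l154 _)
               (CovZ.n1 (1782, 2090) (by decide +kernel)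
                (CovZ.leaf K2_ok TA_l155 _)
                (CovZ.leaf K2_ok TA_l156 _)))
              (CovZ.n1 (1776, 2092) (by decide +kernel)
               (CovZ.leaf K2_ok TA_l157 _)
               (CovZ.leaf K2_ok TA_l158 _)))
             (CovZ.subM 70388071530496 (by decide +kernel)
              (CovZ.n1 (1780, 2084) (by decide +kernel)
               (CovZ.n2 (1776, 2084) (by decide +kernel)
                (CovZ.n2 (1778, 2086) (by decide +kernel)
                 (CovZ.leaf K2_ok TA_l159 _)
                 (CovZ.n1 (1776, 2086) (by decide +kernel)
                  (CovZ.leaf K2_ok TA_l160 _)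
                  (CovZ.leaf K2_ok TA_l161 _)))
                (CovZ.badM (by decide +kernel)))
               (CovZ.n1 (1780, 2088) (by decide +kernel)
                (CovZ.n2 (1782, 2086) (by decide +kernel)
                 (CovZ.n2 (1780, 2086) (by decide +kernel)
                  (CovZ.leaf K2_ok TA_l162 _)
                  (CovZ.badM (by decide +kernel)))
                 (CovZ.leaf K2_ok TA_l163 _))
                (CovZ.n1 (1778, 2086) (by decide +kernel)
                 (CovZ.leaf K2_ok TA_l164 _)
                 (CovZ.n1 (1780, 2086) (by decide +kernel)
                  (CovZ.leaf K2_ok TA_l165 _)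
                  (CovZ.leaf K2_ok TA_l166 _))))))))))))

theorem TA_u4 : CovZ TA_M (toL (selN TA_LN 71630325809116902)) [0, 7, 4, 3] (1792, 2176) (1760, 2144) (1792, 2112) :=
    (CovZ.n2 (1792, 2144) (by decide +kernel)
       (CovZ.n2 (1776, 2128) (by decide +kernel)
        (CovZ.subM 2251799813685248 (by decide +kernel)
         (CovZ.n2 (1776, 2144) (by decide +kernel)
          (CovZ.n2 (1784, 2136) (by decide +kernel)
           (CovZ.n2 (1776, 2136) (by decide +kernel)
            (CovZ.badM (by decide +kernel))
            (CovZ.n1 (1780, 2132) (by decide +kernel)
             (CovZ.n2 (1776, 2132) (by decide +kernel)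
              (CovZ.badM (by decide +kernel))
              (CovZ.n1 (1778, 2130) (by decide +kernel)
               (CovZ.badM (by decide +kernel))
               (CovZ.badM (by decide +kernel))))
             (CovZ.badM (by decide +kernel))))
           (CovZ.badM (by decide +kernel)))
          (CovZ.n1 (1768, 2136) (by decide +kernel)
           (CovZ.badM (by decide +kernel))
           (CovZ.n1 (1776, 2136) (by decide +kernel)
            (CovZ.n2 (1772, 2132) (by decide +kernel)
             (CovZ.badM (by decide +kernel))
             (CovZ.n1 (1776, 2132) (by decide +kernel)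
              (CovZ.badM (by decide +kernel))
              (CovZ.badM (by decide +kernel))))
            (CovZ.badM (by decide +kernel))))))
        (CovZ.n1 (1792, 2128) (by decide +kernel)
         (CovZ.subM 71628804918154370 (by decide +kernel)
          (CovZ.n2 (1784, 2120) (by decide +kernel)
           (CovZ.n2 (1784, 2128) (by decide +kernel)
            (CovZ.n2 (1788, 2124) (by decide +kernel)
             (CovZ.n2 (1784, 2124) (by decide +kernel)
              (CovZ.n2 (1786, 2126) (by decide +kernel)
               (CovZ.leaf K2_ok TA_l167 _)
               (CovZ.leaf K2_ok TA_l168 _))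
              (CovZ.leaf K2_ok TA_l169 _))
             (CovZ.n1 (1788, 2128) (by decide +kernel)
              (CovZ.leaf K2_ok TA_l170 _)
              (CovZ.n1 (1786, 2126) (by decide +kernel)
               (CovZ.leaf K2_ok TA_l171 _)
               (CovZ.leaf K2_ok TA_l172 _))))
            (CovZ.n1 (1780, 2124) (by decide +kernel)
             (CovZ.subM 68222500710908032 (by decide +kernel)
              (CovZ.n2 (1780, 2128) (by decide +kernel)
               (CovZ.n2 (1782, 2126) (by decide +kernel)
                (CovZ.leaf K2_ok TA_l173 _)
                (CovZ.leaf K2_ok TA_l174 _))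
               (CovZ.n1 (1778, 2126) (by decide +kernel)
                (CovZ.leaf K2_ok TA_l175 _)
                (CovZ.leaf K2_ok TA_l176 _))))
             (CovZ.n1 (1784, 2124) (by decide +kernel)
              (CovZ.leaf K2_ok TA_l177 _)
              (CovZ.leaf K2_ok TA_l178 _))))
           (CovZ.n1 (1792, 2120) (by decide +kernel)
            (CovZ.n2 (1788, 2116) (by decide +kernel)
             (CovZ.leaf K2_ok TA_l179 _)
             (CovZ.leaf K2_ok TA_l180 _))
            (CovZ.leaf K2_ok TA_l181 _))))
         (CovZ.subM 71602554346147968 (by decide +kernel)
          (CovZ.n1 (1784, 2136) (by decide +kernel)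
           (CovZ.n2 (1792, 2136) (by decide +kernel)
            (CovZ.n2 (1788, 2132) (by decide +kernel)
             (CovZ.subM 65935513303908352 (by decide +kernel)
              (CovZ.n2 (1788, 2136) (by decide +kernel)
               (CovZ.n2 (1790, 2134) (by decide +kernel)
                (CovZ.n2 (1788, 2134) (by decide +kernel)
                 (CovZ.n2 (1789, 2135) (by decide +kernel)
                  (CovZ.leaf K2_ok TA_l182 _)
                  (CovZ.leaf K2_ok TA_l1381 _))
                 (CovZ.leaf K2_ok TA_l183 _))
                (CovZ.n1 (1790, 2136) (by decide +kernel)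
                 (CovZ.leaf K2_ok TA_l184 _)
                 (CovZ.n1 (1789, 2135) (by decide +kernel)
                  (CovZ.badM (by decide +kernel))
                  (CovZ.leaf K2_ok TA_l185 _))))
               (CovZ.n1 (1786, 2134) (by decide +kernel)
                (CovZ.badM (by decide +kernel))
                (CovZ.n1 (1788, 2134) (by decide +kernel)
                 (CovZ.leaf K2_ok TA_l186 _)
                 (CovZ.leaf K2_ok TA_l1382 _)))))
             (CovZ.n1 (1792, 2132) (by decide +kernel)
              (CovZ.n2 (1790, 2130) (by decide +kernel)
               (CovZ.leaf K2_ok TA_l187 _)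
               (CovZ.leaf K2_ok TA_l188 _))
              (CovZ.leaf K2_ok TA_l189 _)))
            (CovZ.subM 65865144550293504 (by decide +kernel)
             (CovZ.n1 (1788, 2140) (by decide +kernel)
              (CovZ.n2 (1792, 2140) (by decide +kernel)
               (CovZ.n2 (1790, 2138) (by decide +kernel)
                (CovZ.badM (by decide +kernel))
                (CovZ.n1 (1792, 2138) (by decide +kernel)
                 (CovZ.leaf K2_ok TA_l1383 _)
                 (CovZ.badM (by decide +kernel))))
               (CovZ.badM (by decide +kernel)))
              (CovZ.n1 (1788, 2136) (by decide +kernel)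
               (CovZ.badM (by decide +kernel))
               (CovZ.n1 (1790, 2138) (by decide +kernel)
                (CovZ.leaf K2_ok TA_l1384 _)
                (CovZ.badM (by decide +kernel)))))))
           (CovZ.n1 (1784, 2128) (by decide +kernel)
            (CovZ.subM 70474298377109632 (by decide +kernel)
             (CovZ.n2 (1780, 2132) (by decide +kernel)
              (CovZ.n2 (1784, 2132) (by decide +kernel)
               (CovZ.n2 (1782, 2130) (by decide +kernel)
                (CovZ.n2 (1782, 2132) (by decide +kernel)
                 (CovZ.leaf K2_ok TA_l190 _)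
                 (CovZ.leaf K2_ok TA_l191 _))
                (CovZ.leaf K2_ok TA_l192 _))
               (CovZ.subM 2251799813685248 (by decide +kernel)
                (CovZ.n1 (1782, 2134) (by decide +kernel)
                 (CovZ.n2 (1784, 2134) (by decide +kernel)
                  (CovZ.n2 (1783, 2133) (by decide +kernel)
                   (CovZ.badM (by decide +kernel))
                   (CovZ.leaf K2_ok TA_l1385 _))
                  (CovZ.badM (by decide +kernel)))
                 (CovZ.n1 (1782, 2132) (by decide +kernel)
                  (CovZ.badM (by decide +kernel))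
                  (CovZ.n1 (1783, 2133) (by decide +kernel)
                   (CovZ.leaf K2_ok TA_l1386 _)
                   (CovZ.badM (by decide +kernel)))))))
              (CovZ.n1 (1780, 2128) (by decide +kernel)
               (CovZ.n2 (1778, 2130) (by decide +kernel)
                (CovZ.n2 (1780, 2130) (by decide +kernel)
                 (CovZ.leaf K2_ok TA_l193 _)
                 (CovZ.leaf K2_ok TA_l1387 _))
                (CovZ.leaf K2_ok TA_l194 _))
               (CovZ.n1 (1782, 2130) (by decide +kernel)
                (CovZ.leaf K2_ok TA_l195 _)
                (CovZ.n1 (1780, 2130) (by decide +kernel)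
                 (CovZ.leaf K2_ok TA_l196 _)
                 (CovZ.leaf K2_ok TA_l197 _))))))
            (CovZ.n1 (1788, 2132) (by decide +kernel)
             (CovZ.n2 (1788, 2128) (by decide +kernel)
              (CovZ.leaf K2_ok TA_l198 _)
              (CovZ.n1 (1790, 2130) (by decide +kernel)
               (CovZ.leaf K2_ok TA_l199 _)
               (CovZ.n1 (1788, 2130) (by decide +kernel)
                (CovZ.leaf K2_ok TA_l200 _)
                (CovZ.leaf K2_ok TA_l201 _))))
             (CovZ.n1 (1784, 2132) (by decide +kernel)
              (CovZ.n2 (1786, 2134) (by decide +kernel)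
               (CovZ.leaf K2_ok TA_l202 _)
               (CovZ.n1 (1784, 2134) (by decide +kernel)
                (CovZ.badM (by decide +kernel))
                (CovZ.leaf K2_ok TA_l1388 _)))
              (CovZ.n1 (1786, 2130) (by decide +kernel)
               (CovZ.n2 (1784, 2130) (by decide +kernel)
                (CovZ.leaf K2_ok TA_l203 _)
                (CovZ.leaf K2_ok TA_l204 _))
               (CovZ.leaf K2_ok TA_l205 _)))))))))
       (CovZ.badM (by decide +kernel)))

theorem TA_u5 : CovZ TA_M (toL (selN TA_LN 71630325809116902)) [0, 7, 4, 3] (1760, 2144) (1728, 2112) (1792, 2112) :=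
    (CovZ.subM 51362744168158338 (by decide +kernel)
       (CovZ.n1 (1760, 2112) (by decide +kernel)
        (CovZ.subM 41130669493977216 (by decide +kernel)
         (CovZ.n2 (1744, 2128) (by decide +kernel)
          (CovZ.n2 (1760, 2128) (by decide +kernel)
           (CovZ.n2 (1752, 2120) (by decide +kernel)
            (CovZ.badM (by decide +kernel))
            (CovZ.n1 (1760, 2120) (by decide +kernel)
             (CovZ.subM 40567581027860480 (by decide +kernel)
              (CovZ.n2 (1756, 2116) (by decide +kernel)
               (CovZ.badM (by decide +kernel))
               (CovZ.n1 (1760, 2116) (by decide +kernel)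
                (CovZ.n2 (1758, 2114) (by decide +kernel)
                 (CovZ.leaf K2_ok TA_l1389 _)
                 (CovZ.leaf K2_ok TA_l206 _))
                (CovZ.n1 (1758, 2118) (by decide +kernel)
                 (CovZ.n2 (1760, 2118) (by decide +kernel)
                  (CovZ.leaf K2_ok TA_l207 _)
                  (CovZ.badM (by decide +kernel)))
                 (CovZ.leaf K2_ok TA_l1390 _)))))
             (CovZ.badM (by decide +kernel))))
           (CovZ.badM (by decide +kernel)))
          (CovZ.subM 4538785074249728 (by decide +kernel)
           (CovZ.n1 (1744, 2112) (by decide +kernel)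
            (CovZ.badM (by decide +kernel))
            (CovZ.n1 (1752, 2120) (by decide +kernel)
             (CovZ.n2 (1752, 2112) (by decide +kernel)
              (CovZ.badM (by decide +kernel))
              (CovZ.n1 (1756, 2116) (by decide +kernel)
               (CovZ.n2 (1756, 2112) (by decide +kernel)
                (CovZ.n2 (1754, 2114) (by decide +kernel)
                 (CovZ.leaf K2_ok TA_l1391 _)
                 (CovZ.leaf K2_ok TA_l1392 _))
                (CovZ.n1 (1758, 2114) (by decide +kernel)
                 (CovZ.leaf K2_ok TA_l208 _)
                 (CovZ.leaf K2_ok TA_l1393 _)))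
               (CovZ.badM (by decide +kernel))))
             (CovZ.badM (by decide +kernel)))))))
        (CovZ.n1 (1776, 2128) (by decide +kernel)
         (CovZ.n2 (1776, 2112) (by decide +kernel)
          (CovZ.n2 (1768, 2120) (by decide +kernel)
           (CovZ.n2 (1776, 2120) (by decide +kernel)
            (CovZ.subM 41695683183644802 (by decide +kernel)
             (CovZ.n2 (1772, 2116) (by decide +kernel)
              (CovZ.n2 (1772, 2120) (by decide +kernel)
               (CovZ.leaf K2_ok TA_l209 _)
               (CovZ.n1 (1770, 2118) (by decide +kernel)
                (CovZ.leaf K2_ok TA_l210 _)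
                (CovZ.leaf K2_ok TA_l211 _)))
              (CovZ.leaf K2_ok TA_l212 _)))
            (CovZ.subM 42256434109350016 (by decide +kernel)
             (CovZ.n1 (1772, 2124) (by decide +kernel)
              (CovZ.n2 (1776, 2124) (by decide +kernel)
               (CovZ.n2 (1774, 2122) (by decide +kernel)
                (CovZ.leaf K2_ok TA_l213 _)
                (CovZ.leaf K2_ok TA_l214 _))
               (CovZ.leaf K2_ok TA_l215 _))
              (CovZ.n1 (1772, 2120) (by decide +kernel)
               (CovZ.leaf K2_ok TA_l216 _)
               (CovZ.n1 (1774, 2122) (by decide +kernel)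
                (CovZ.leaf K2_ok TA_l217 _)
                (CovZ.leaf K2_ok TA_l218 _))))))
           (CovZ.subM 41695683183644674 (by decide +kernel)
            (CovZ.n1 (1768, 2112) (by decide +kernel)
             (CovZ.n2 (1764, 2116) (by decide +kernel)
              (CovZ.n2 (1768, 2116) (by decide +kernel)
               (CovZ.leaf K2_ok TA_l219 _)
               (CovZ.leaf K2_ok TA_l220 _))
              (CovZ.n1 (1764, 2112) (by decide +kernel)
               (CovZ.leaf K2_ok TA_l221 _)
               (CovZ.n1 (1766, 2114) (by decide +kernel)
                (CovZ.leaf K2_ok TA_l222 _)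
                (CovZ.leaf K2_ok TA_l223 _))))
             (CovZ.n1 (1772, 2116) (by decide +kernel)
              (CovZ.leaf K2_ok TA_l224 _)
              (CovZ.n1 (1768, 2116) (by decide +kernel)
               (CovZ.n2 (1770, 2118) (by decide +kernel)
                (CovZ.leaf K2_ok TA_l225 _)
                (CovZ.leaf K2_ok TA_l226 _))
               (CovZ.leaf K2_ok TA_l227 _))))))
          (CovZ.n1 (1784, 2120) (by decide +kernel)
           (CovZ.n2 (1784, 2112) (by decide +kernel)
            (CovZ.leaf K2_ok TA_l228 _)
            (CovZ.n1 (1788, 2116) (by decide +kernel)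
             (CovZ.leaf K2_ok TA_l229 _)
             (CovZ.leaf K2_ok TA_l230 _)))
           (CovZ.n1 (1776, 2120) (by decide +kernel)
            (CovZ.n2 (1780, 2124) (by decide +kernel)
             (CovZ.leaf K2_ok TA_l231 _)
             (CovZ.n1 (1776, 2124) (by decide +kernel)
              (CovZ.n2 (1778, 2126) (by decide +kernel)
               (CovZ.leaf K2_ok TA_l232 _)
               (CovZ.leaf K2_ok TA_l233 _))
              (CovZ.leaf K2_ok TA_l234 _)))
            (CovZ.n1 (1780, 2116) (by decide +kernel)
             (CovZ.leaf K2_ok TA_l235 _)
             (CovZ.leaf K2_ok TA_l236 _)))))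
         (CovZ.subM 41130671641460864 (by decide +kernel)
          (CovZ.n1 (1760, 2128) (by decide +kernel)
           (CovZ.badM (by decide +kernel))
           (CovZ.n1 (1768, 2120) (by decide +kernel)
            (CovZ.n2 (1760, 2120) (by decide +kernel)
             (CovZ.subM 36063981399441536 (by decide +kernel)
              (CovZ.n2 (1764, 2124) (by decide +kernel)
               (CovZ.n2 (1764, 2120) (by decide +kernel)
                (CovZ.badM (by decide +kernel))
                (CovZ.n1 (1766, 2122) (by decide +kernel)
                 (CovZ.leaf K2_ok TA_l237 _)
                 (CovZ.badM (by decide +kernel))))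
               (CovZ.badM (by decide +kernel))))
             (CovZ.n1 (1764, 2116) (by decide +kernel)
              (CovZ.subM 40567581027860480 (by decide +kernel)
               (CovZ.n2 (1760, 2116) (by decide +kernel)
                (CovZ.n2 (1762, 2118) (by decide +kernel)
                 (CovZ.leaf K2_ok TA_l238 _)
                 (CovZ.n1 (1760, 2118) (by decide +kernel)
                  (CovZ.leaf K2_ok TA_l239 _)
                  (CovZ.leaf K2_ok TA_l240 _)))
                (CovZ.leaf K2_ok TA_l241 _)))
              (CovZ.subM 36063984620666880 (by decide +kernel)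
               (CovZ.n1 (1764, 2120) (by decide +kernel)
                (CovZ.n2 (1766, 2118) (by decide +kernel)
                 (CovZ.leaf K2_ok TA_l242 _)
                 (CovZ.leaf K2_ok TA_l243 _))
                (CovZ.n1 (1762, 2118) (by decide +kernel)
                 (CovZ.n2 (1762, 2120) (by decide +kernel)
                  (CovZ.leaf K2_ok TA_l244 _)
                  (CovZ.n1 (1761, 2119) (by decide +kernel)
                   (CovZ.badM (by decide +kernel))
                   (CovZ.leaf K2_ok TA_l245 _)))
                 (CovZ.leaf K2_ok TA_l246 _))))))
            (CovZ.subM 36626931352862848 (by decide +kernel)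
             (CovZ.n1 (1768, 2128) (by decide +kernel)
              (CovZ.n2 (1772, 2124) (by decide +kernel)
               (CovZ.n2 (1768, 2124) (by decide +kernel)
                (CovZ.n2 (1770, 2126) (by decide +kernel)
                 (CovZ.n2 (1770, 2124) (by decide +kernel)
                  (CovZ.badM (by decide +kernel))
                  (CovZ.n1 (1771, 2125) (by decide +kernel)
                   (CovZ.leaf K2_ok TA_l247 _)
                   (CovZ.badM (by decide +kernel))))
                 (CovZ.badM (by decide +kernel)))
                (CovZ.n1 (1770, 2122) (by decide +kernel)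
                 (CovZ.leaf K2_ok TA_l248 _)
                 (CovZ.leaf K2_ok TA_l249 _)))
               (CovZ.n1 (1772, 2128) (by decide +kernel)
                (CovZ.n2 (1774, 2126) (by decide +kernel)
                 (CovZ.n2 (1772, 2126) (by decide +kernel)
                  (CovZ.badM (by decide +kernel))
                  (CovZ.leaf K2_ok TA_l250 _))
                 (CovZ.badM (by decide +kernel)))
                (CovZ.n1 (1770, 2126) (by decide +kernel)
                 (CovZ.badM (by decide +kernel))
                 (CovZ.n1 (1772, 2126) (by decide +kernel)
                  (CovZ.n2 (1771, 2125) (by decide +kernel)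
                   (CovZ.badM (by decide +kernel))
                   (CovZ.leaf K2_ok TA_l251 _))
                  (CovZ.badM (by decide +kernel))))))
              (CovZ.n1 (1764, 2124) (by decide +kernel)
               (CovZ.badM (by decide +kernel))
               (CovZ.n1 (1768, 2124) (by decide +kernel)
                (CovZ.n2 (1766, 2122) (by decide +kernel)
                 (CovZ.badM (by decide +kernel))
                 (CovZ.n1 (1768, 2122) (by decide +kernel)
                  (CovZ.leaf K2_ok TA_l252 _)
                  (CovZ.leaf K2_ok TA_l253 _)))
                (CovZ.badM (by decide +kernel))))))))))))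

theorem TA_u6 : CovZ TA_M (toL (selN TA_LN 143692975577235455)) [0, 7, 4, 3] (1856, 2112) (1824, 2144) (1792, 2112) :=
    (CovZ.n2 (1824, 2112) (by decide +kernel)
       (CovZ.n2 (1808, 2128) (by decide +kernel)
        (CovZ.n2 (1824, 2128) (by decide +kernel)
         (CovZ.n2 (1816, 2120) (by decide +kernel)
          (CovZ.n2 (1816, 2128) (by decide +kernel)
           (CovZ.leaf K2_ok TA_l254 _)
           (CovZ.leaf K2_ok TA_l255 _))
          (CovZ.n1 (1824, 2120) (by decide +kernel)
           (CovZ.leaf K2_ok TA_l256 _)
           (CovZ.leaf K2_ok TA_l257 _)))
         (CovZ.n1 (1816, 2136) (by decide +kernel)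
          (CovZ.n2 (1824, 2136) (by decide +kernel)
           (CovZ.leaf K2_ok TA_l258 _)
           (CovZ.leaf K2_ok TA_l259 _))
          (CovZ.leaf K2_ok TA_l260 _)))
        (CovZ.n1 (1808, 2112) (by decide +kernel)
         (CovZ.n2 (1800, 2120) (by decide +kernel)
          (CovZ.n2 (1808, 2120) (by decide +kernel)
           (CovZ.leaf K2_ok TA_l261 _)
           (CovZ.leaf K2_ok TA_l262 _))
          (CovZ.leaf K2_ok TA_l263 _))
         (CovZ.n1 (1816, 2120) (by decide +kernel)
          (CovZ.leaf K2_ok TA_l264 _)
          (CovZ.n1 (1808, 2120) (by decide +kernel)
           (CovZ.leaf K2_ok TA_l265 _)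
           (CovZ.leaf K2_ok TA_l266 _)))))
       (CovZ.n1 (1840, 2128) (by decide +kernel)
        (CovZ.n2 (1840, 2112) (by decide +kernel)
         (CovZ.n2 (1832, 2120) (by decide +kernel)
          (CovZ.n2 (1840, 2120) (by decide +kernel)
           (CovZ.n2 (1836, 2116) (by decide +kernel)
            (CovZ.leaf K2_ok TA_l267 _)
            (CovZ.leaf K2_ok TA_l268 _))
           (CovZ.leaf K2_ok TA_l269 _))
          (CovZ.n1 (1832, 2112) (by decide +kernel)
           (CovZ.leaf K2_ok TA_l270 _)
           (CovZ.n1 (1836, 2116) (by decide +kernel)
            (CovZ.leaf K2_ok TA_l271 _)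
            (CovZ.leaf K2_ok TA_l272 _))))
         (CovZ.n1 (1848, 2120) (by decide +kernel)
          (CovZ.subM 4633099400928959 (by decide +kernel)
           (CovZ.n2 (1848, 2112) (by decide +kernel)
            (CovZ.n2 (1844, 2116) (by decide +kernel)
             (CovZ.n2 (1848, 2116) (by decide +kernel)
              (CovZ.n2 (1846, 2114) (by decide +kernel)
               (CovZ.leaf K2_ok TA_l273 _)
               (CovZ.leaf K2_ok TA_l274 _))
              (CovZ.leaf K2_ok TA_l275 _))
             (CovZ.n1 (1844, 2112) (by decide +kernel)
              (CovZ.leaf K2_ok TA_l276 _)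
              (CovZ.leaf K2_ok TA_l277 _)))
            (CovZ.n1 (1852, 2116) (by decide +kernel)
             (CovZ.subM 109968342666917 (by decide +kernel)
              (CovZ.n2 (1852, 2112) (by decide +kernel)
               (CovZ.n2 (1850, 2114) (by decide +kernel)
                (CovZ.n2 (1852, 2114) (by decide +kernel)
                 (CovZ.leaf K2_ok TA_l278 _)
                 (CovZ.leaf K2_ok TA_l279 _))
                (CovZ.n1 (1850, 2112) (by decide +kernel)
                 (CovZ.leaf K2_ok TA_l280 _)
                 (CovZ.leaf K2_ok TA_l281 _)))
               (CovZ.n1 (1854, 2114) (by decide +kernel)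
                (CovZ.n2 (1854, 2112) (by decide +kernel)
                 (CovZ.leaf K2_ok TA_l282 _)
                 (CovZ.n1 (1855, 2113) (by decide +kernel)
                  (CovZ.badM (by decide +kernel))
                  (CovZ.leaf K2_ok TA_l283 _)))
                (CovZ.n1 (1852, 2114) (by decide +kernel)
                 (CovZ.leaf K2_ok TA_l284 _)
                 (CovZ.leaf K2_ok TA_l285 _)))))
             (CovZ.n1 (1848, 2116) (by decide +kernel)
              (CovZ.leaf K2_ok TA_l286 _)
              (CovZ.leaf K2_ok TA_l287 _)))))
          (CovZ.n1 (1840, 2120) (by decide +kernel)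
           (CovZ.n2 (1844, 2124) (by decide +kernel)
            (CovZ.leaf K2_ok TA_l288 _)
            (CovZ.leaf K2_ok TA_l289 _))
           (CovZ.leaf K2_ok TA_l290 _))))
        (CovZ.n1 (1824, 2128) (by decide +kernel)
         (CovZ.n2 (1832, 2136) (by decide +kernel)
          (CovZ.leaf K2_ok TA_l291 _)
          (CovZ.n1 (1824, 2136) (by decide +kernel)
           (CovZ.n2 (1828, 2140) (by decide +kernel)
            (CovZ.leaf K2_ok TA_l292 _)
            (CovZ.leaf K2_ok TA_l293 _))
           (CovZ.leaf K2_ok TA_l294 _)))
         (CovZ.n1 (1832, 2120) (by decide +kernel)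
          (CovZ.n2 (1824, 2120) (by decide +kernel)
           (CovZ.leaf K2_ok TA_l295 _)
           (CovZ.leaf K2_ok TA_l296 _))
          (CovZ.leaf K2_ok TA_l297 _)))))

theorem TA_u7 : CovZ TA_M (toL (selN TA_LN 143692975577235455)) [0, 7, 4, 3] (1824, 2144) (1792, 2176) (1792, 2112) :=
    (CovZ.n1 (1792, 2144) (by decide +kernel)
       (CovZ.n2 (1808, 2160) (by decide +kernel)
        (CovZ.n2 (1808, 2144) (by decide +kernel)
         (CovZ.subM 53578103461122049 (by decide +kernel)
          (CovZ.n2 (1800, 2152) (by decide +kernel)
           (CovZ.n2 (1808, 2152) (by decide +kernel)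
            (CovZ.n2 (1804, 2148) (by decide +kernel)
             (CovZ.badM (by decide +kernel))
             (CovZ.n1 (1808, 2148) (by decide +kernel)
              (CovZ.n2 (1806, 2146) (by decide +kernel)
               (CovZ.badM (by decide +kernel))
               (CovZ.n1 (1808, 2146) (by decide +kernel)
                (CovZ.leaf K2_ok TA_l298 _)
                (CovZ.badM (by decide +kernel))))
              (CovZ.badM (by decide +kernel))))
            (CovZ.badM (by decide +kernel)))
           (CovZ.n1 (1800, 2144) (by decide +kernel)
            (CovZ.badM (by decide +kernel))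
            (CovZ.n1 (1804, 2148) (by decide +kernel)
             (CovZ.n2 (1804, 2144) (by decide +kernel)
              (CovZ.badM (by decide +kernel))
              (CovZ.n1 (1806, 2146) (by decide +kernel)
               (CovZ.n2 (1806, 2144) (by decide +kernel)
                (CovZ.leaf K2_ok TA_l299 _)
                (CovZ.leaf K2_ok TA_l300 _))
               (CovZ.badM (by decide +kernel))))
             (CovZ.badM (by decide +kernel))))))
         (CovZ.n1 (1816, 2152) (by decide +kernel)
          (CovZ.n2 (1816, 2144) (by decide +kernel)
           (CovZ.subM 87955434082344073 (by decide +kernel)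
            (CovZ.n2 (1812, 2148) (by decide +kernel)
             (CovZ.n2 (1816, 2148) (by decide +kernel)
              (CovZ.n2 (1814, 2146) (by decide +kernel)
               (CovZ.leaf K2_ok TA_l301 _)
               (CovZ.leaf K2_ok TA_l302 _))
              (CovZ.n1 (1814, 2150) (by decide +kernel)
               (CovZ.leaf K2_ok TA_l303 _)
               (CovZ.leaf K2_ok TA_l304 _)))
             (CovZ.n1 (1812, 2144) (by decide +kernel)
              (CovZ.leaf K2_ok TA_l305 _)
              (CovZ.n1 (1814, 2146) (by decide +kernel)
               (CovZ.leaf K2_ok TA_l306 _)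
               (CovZ.leaf K2_ok TA_l307 _)))))
           (CovZ.n1 (1820, 2148) (by decide +kernel)
            (CovZ.leaf K2_ok TA_l308 _)
            (CovZ.subM 87955434082352265 (by decide +kernel)
             (CovZ.n1 (1816, 2148) (by decide +kernel)
              (CovZ.n2 (1818, 2150) (by decide +kernel)
               (CovZ.leaf K2_ok TA_l309 _)
               (CovZ.n1 (1816, 2150) (by decide +kernel)
                (CovZ.leaf K2_ok TA_l310 _)
                (CovZ.leaf K2_ok TA_l311 _)))
              (CovZ.leaf K2_ok TA_l312 _)))))
          (CovZ.subM 87918050619824129 (by decide +kernel)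
           (CovZ.n1 (1808, 2152) (by decide +kernel)
            (CovZ.badM (by decide +kernel))
            (CovZ.n1 (1812, 2148) (by decide +kernel)
             (CovZ.n2 (1808, 2148) (by decide +kernel)
              (CovZ.n2 (1810, 2150) (by decide +kernel)
               (CovZ.leaf K2_ok TA_l313 _)
               (CovZ.badM (by decide +kernel)))
              (CovZ.n1 (1810, 2146) (by decide +kernel)
               (CovZ.n2 (1808, 2146) (by decide +kernel)
                (CovZ.n2 (1809, 2147) (by decide +kernel)
                 (CovZ.leaf K2_ok TA_l314 _)
                 (CovZ.badM (by decide +kernel)))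
                (CovZ.leaf K2_ok TA_l315 _))
               (CovZ.leaf K2_ok TA_l316 _)))
             (CovZ.subM 76587582212937728 (by decide +kernel)
              (CovZ.n1 (1812, 2152) (by decide +kernel)
               (CovZ.n2 (1814, 2150) (by decide +kernel)
                (CovZ.n2 (1812, 2150) (by decide +kernel)
                 (CovZ.leaf K2_ok TA_l317 _)
                 (CovZ.leaf K2_ok TA_l318 _))
                (CovZ.n1 (1814, 2152) (by decide +kernel)
                 (CovZ.leaf K2_ok TA_l319 _)
                 (CovZ.n1 (1813, 2151) (by decide +kernel)
                  (CovZ.badM (by decide +kernel))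
                  (CovZ.leaf K2_ok TA_l320 _))))
               (CovZ.n1 (1810, 2150) (by decide +kernel)
                (CovZ.badM (by decide +kernel))
                (CovZ.n1 (1812, 2150) (by decide +kernel)
                 (CovZ.n2 (1811, 2149) (by decide +kernel)
                  (CovZ.leaf K2_ok TA_l321 _)
                  (CovZ.leaf K2_ok TA_l322 _))
                 (CovZ.leaf K2_ok TA_l323 _))))))))))
        (CovZ.badM (by decide +kernel)))
       (CovZ.n1 (1808, 2128) (by decide +kernel)
        (CovZ.subM 71630042338498186 (by decide +kernel)
         (CovZ.n2 (1792, 2128) (by decide +kernel)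
          (CovZ.n2 (1800, 2136) (by decide +kernel)
           (CovZ.n2 (1800, 2128) (by decide +kernel)
            (CovZ.n2 (1796, 2132) (by decide +kernel)
             (CovZ.leaf K2_ok TA_l324 _)
             (CovZ.leaf K2_ok TA_l325 _))
            (CovZ.n1 (1804, 2132) (by decide +kernel)
             (CovZ.leaf K2_ok TA_l326 _)
             (CovZ.n1 (1800, 2132) (by decide +kernel)
              (CovZ.leaf K2_ok TA_l327 _)
              (CovZ.leaf K2_ok TA_l328 _))))
           (CovZ.n1 (1792, 2136) (by decide +kernel)
            (CovZ.subM 71600198552391808 (by decide +kernel)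
             (CovZ.n2 (1796, 2140) (by decide +kernel)
              (CovZ.n2 (1796, 2136) (by decide +kernel)
               (CovZ.n2 (1794, 2138) (by decide +kernel)
                (CovZ.leaf K2_ok TA_l329 _)
                (CovZ.leaf K2_ok TA_l330 _))
               (CovZ.n1 (1798, 2138) (by decide +kernel)
                (CovZ.leaf K2_ok TA_l331 _)
                (CovZ.n1 (1796, 2138) (by decide +kernel)
                 (CovZ.leaf K2_ok TA_l332 _)
                 (CovZ.leaf K2_ok TA_l333 _))))
              (CovZ.subM 65865144550293504 (by decide +kernel)
               (CovZ.n1 (1792, 2140) (by decide +kernel)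
                (CovZ.badM (by decide +kernel))
                (CovZ.n1 (1794, 2138) (by decide +kernel)
                 (CovZ.n2 (1792, 2138) (by decide +kernel)
                  (CovZ.badM (by decide +kernel))
                  (CovZ.leaf K2_ok TA_l1394 _))
                 (CovZ.badM (by decide +kernel)))))))
            (CovZ.n1 (1796, 2132) (by decide +kernel)
             (CovZ.n2 (1792, 2132) (by decide +kernel)
              (CovZ.n2 (1794, 2134) (by decide +kernel)
               (CovZ.leaf K2_ok TA_l334 _)
               (CovZ.leaf K2_ok TA_l335 _))
              (CovZ.leaf K2_ok TA_l336 _))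
             (CovZ.n1 (1796, 2136) (by decide +kernel)
              (CovZ.leaf K2_ok TA_l337 _)
              (CovZ.n1 (1794, 2134) (by decide +kernel)
               (CovZ.leaf K2_ok TA_l338 _)
               (CovZ.leaf K2_ok TA_l339 _))))))
          (CovZ.n1 (1800, 2120) (by decide +kernel)
           (CovZ.n2 (1792, 2120) (by decide +kernel)
            (CovZ.n2 (1796, 2124) (by decide +kernel)
             (CovZ.leaf K2_ok TA_l340 _)
             (CovZ.n1 (1792, 2124) (by decide +kernel)
              (CovZ.leaf K2_ok TA_l341 _)
              (CovZ.leaf K2_ok TA_l342 _)))
            (CovZ.leaf K2_ok TA_l343 _))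
           (CovZ.n1 (1800, 2128) (by decide +kernel)
            (CovZ.leaf K2_ok TA_l344 _)
            (CovZ.n1 (1796, 2124) (by decide +kernel)
             (CovZ.leaf K2_ok TA_l345 _)
             (CovZ.leaf K2_ok TA_l346 _))))))
        (CovZ.n1 (1808, 2144) (by decide +kernel)
         (CovZ.n2 (1816, 2136) (by decide +kernel)
          (CovZ.subM 89081490760474522 (by decide +kernel)
           (CovZ.n2 (1808, 2136) (by decide +kernel)
            (CovZ.n2 (1812, 2140) (by decide +kernel)
             (CovZ.leaf K2_ok TA_l347 _)
             (CovZ.n1 (1808, 2140) (by decide +kernel)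
              (CovZ.n2 (1810, 2142) (by decide +kernel)
               (CovZ.leaf K2_ok TA_l348 _)
               (CovZ.leaf K2_ok TA_l349 _))
              (CovZ.leaf K2_ok TA_l350 _)))
            (CovZ.n1 (1812, 2132) (by decide +kernel)
             (CovZ.leaf K2_ok TA_l351 _)
             (CovZ.leaf K2_ok TA_l352 _))))
          (CovZ.n1 (1816, 2144) (by decide +kernel)
           (CovZ.n2 (1820, 2140) (by decide +kernel)
            (CovZ.n2 (1816, 2140) (by decide +kernel)
             (CovZ.leaf K2_ok TA_l353 _)
             (CovZ.leaf K2_ok TA_l354 _))
            (CovZ.leaf K2_ok TA_l355 _))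
           (CovZ.n1 (1812, 2140) (by decide +kernel)
            (CovZ.n2 (1812, 2144) (by decide +kernel)
             (CovZ.leaf K2_ok TA_l356 _)
             (CovZ.n1 (1810, 2142) (by decide +kernel)
              (CovZ.leaf K2_ok TA_l357 _)
              (CovZ.leaf K2_ok TA_l358 _)))
            (CovZ.leaf K2_ok TA_l359 _))))
         (CovZ.subM 53615643694929562 (by decide +kernel)
          (CovZ.n1 (1800, 2136) (by decide +kernel)
           (CovZ.n2 (1800, 2144) (by decide +kernel)
            (CovZ.subM 17584490814771336 (by decide +kernel)
             (CovZ.n2 (1804, 2140) (by decide +kernel)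
              (CovZ.n2 (1800, 2140) (by decide +kernel)
               (CovZ.n2 (1802, 2142) (by decide +kernel)
                (CovZ.leaf K2_ok TA_l360 _)
                (CovZ.n1 (1800, 2142) (by decide +kernel)
                 (CovZ.leaf K2_ok TA_l361 _)
                 (CovZ.leaf K2_ok TA_l362 _)))
               (CovZ.leaf K2_ok TA_l363 _))
              (CovZ.n1 (1804, 2144) (by decide +kernel)
               (CovZ.n2 (1806, 2142) (by decide +kernel)
                (CovZ.n2 (1804, 2142) (by decide +kernel)
                 (CovZ.leaf K2_ok TA_l364 _)
                 (CovZ.leaf K2_ok TA_l365 _))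
                (CovZ.leaf K2_ok TA_l366 _))
               (CovZ.n1 (1802, 2142) (by decide +kernel)
                (CovZ.leaf K2_ok TA_l367 _)
                (CovZ.leaf K2_ok TA_l368 _)))))
            (CovZ.subM 53586899554537600 (by decide +kernel)
             (CovZ.n1 (1796, 2140) (by decide +kernel)
              (CovZ.n2 (1796, 2144) (by decide +kernel)
               (CovZ.n2 (1798, 2142) (by decide +kernel)
                (CovZ.badM (by decide +kernel))
                (CovZ.badM (by decide +kernel)))
               (CovZ.badM (by decide +kernel)))
              (CovZ.n1 (1800, 2140) (by decide +kernel)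
               (CovZ.n2 (1798, 2138) (by decide +kernel)
                (CovZ.leaf K2_ok TA_l369 _)
                (CovZ.leaf K2_ok TA_l370 _))
               (CovZ.n1 (1798, 2142) (by decide +kernel)
                (CovZ.leaf K2_ok TA_l371 _)
                (CovZ.leaf K2_ok TA_l372 _))))))
           (CovZ.n1 (1808, 2136) (by decide +kernel)
            (CovZ.n2 (1804, 2132) (by decide +kernel)
             (CovZ.leaf K2_ok TA_l373 _)
             (CovZ.leaf K2_ok TA_l374 _))
            (CovZ.n1 (1804, 2140) (by decide +kernel)
             (CovZ.n2 (1808, 2140) (by decide +kernel)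
              (CovZ.leaf K2_ok TA_l375 _)
              (CovZ.leaf K2_ok TA_l376 _))
             (CovZ.n1 (1804, 2136) (by decide +kernel)
              (CovZ.leaf K2_ok TA_l377 _)
              (CovZ.leaf K2_ok TA_l378 _)))))))))

theorem TA_u8 : CovZ TA_M (toL (selN TA_LN 143692975577235455)) [0, 7, 4, 3] (1856, 2112) (1824, 2112) (1824, 2080) :=
    (CovZ.subM 72170876283551421 (by decide +kernel)
        (CovZ.n2 (1840, 2096) (by decide +kernel)
         (CovZ.n2 (1824, 2096) (by decide +kernel)
          (CovZ.n2 (1832, 2104) (by decide +kernel)
           (CovZ.subM 4398046511629 (by decide +kernel)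
            (CovZ.n2 (1832, 2096) (by decide +kernel)
             (CovZ.n2 (1828, 2100) (by decide +kernel)
              (CovZ.n2 (1832, 2100) (by decide +kernel)
               (CovZ.badM (by decide +kernel))
               (CovZ.n1 (1830, 2102) (by decide +kernel)
                (CovZ.n2 (1832, 2102) (by decide +kernel)
                 (CovZ.badM (by decide +kernel))
                 (CovZ.leaf K2_ok TA_l405 _))
                (CovZ.badM (by decide +kernel))))
              (CovZ.badM (by decide +kernel)))
             (CovZ.n1 (1836, 2100) (by decide +kernel)
              (CovZ.badM (by decide +kernel))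
              (CovZ.n1 (1832, 2100) (by decide +kernel)
               (CovZ.n2 (1834, 2102) (by decide +kernel)
                (CovZ.badM (by decide +kernel))
                (CovZ.n1 (1832, 2102) (by decide +kernel)
                 (CovZ.leaf K2_ok TA_l406 _)
                 (CovZ.badM (by decide +kernel))))
               (CovZ.badM (by decide +kernel))))))
           (CovZ.n1 (1824, 2104) (by decide +kernel)
            (CovZ.n2 (1828, 2108) (by decide +kernel)
             (CovZ.n2 (1828, 2104) (by decide +kernel)
              (CovZ.leaf K2_ok TA_l407 _)
              (CovZ.n1 (1830, 2106) (by decide +kernel)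
               (CovZ.leaf K2_ok TA_l408 _)
               (CovZ.leaf K2_ok TA_l409 _)))
             (CovZ.n1 (1824, 2108) (by decide +kernel)
              (CovZ.leaf K2_ok TA_l410 _)
              (CovZ.leaf K2_ok TA_l411 _)))
            (CovZ.subM 67109528 (by decide +kernel)
             (CovZ.n1 (1828, 2100) (by decide +kernel)
              (CovZ.n2 (1824, 2100) (by decide +kernel)
               (CovZ.n2 (1826, 2102) (by decide +kernel)
                (CovZ.leaf K2_ok TA_l412 _)
                (CovZ.n1 (1824, 2102) (by decide +kernel)
                 (CovZ.leaf K2_ok TA_l413 _)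
                 (CovZ.leaf K2_ok TA_l414 _)))
               (CovZ.n1 (1826, 2098) (by decide +kernel)
                (CovZ.badM (by decide +kernel))
                (CovZ.n1 (1826, 2100) (by decide +kernel)
                 (CovZ.badM (by decide +kernel))
                 (CovZ.n1 (1825, 2099) (by decide +kernel)
                  (CovZ.leaf K2_ok TA_l415 _)
                  (CovZ.badM (by decide +kernel))))))
              (CovZ.n1 (1828, 2104) (by decide +kernel)
               (CovZ.n2 (1830, 2102) (by decide +kernel)
                (CovZ.n2 (1828, 2102) (by decide +kernel)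
                 (CovZ.leaf K2_ok TA_l416 _)
                 (CovZ.leaf K2_ok TA_l417 _))
                (CovZ.n1 (1830, 2104) (by decide +kernel)
                 (CovZ.leaf K2_ok TA_l418 _)
                 (CovZ.leaf K2_ok TA_l419 _)))
               (CovZ.n1 (1826, 2102) (by decide +kernel)
                (CovZ.leaf K2_ok TA_l420 _)
                (CovZ.n1 (1828, 2102) (by decide +kernel)
                 (CovZ.leaf K2_ok TA_l421 _)
                 (CovZ.leaf K2_ok TA_l422 _))))))))
          (CovZ.badM (by decide +kernel)))
         (CovZ.n1 (1840, 2112) (by decide +kernel)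
          (CovZ.subM 109968409774781 (by decide +kernel)
           (CovZ.n2 (1848, 2104) (by decide +kernel)
            (CovZ.n2 (1840, 2104) (by decide +kernel)
             (CovZ.n2 (1844, 2108) (by decide +kernel)
              (CovZ.badM (by decide +kernel))
              (CovZ.n1 (1840, 2108) (by decide +kernel)
               (CovZ.n2 (1842, 2110) (by decide +kernel)
                (CovZ.leaf K2_ok TA_l423 _)
                (CovZ.leaf K2_ok TA_l424 _))
               (CovZ.n1 (1842, 2106) (by decide +kernel)
                (CovZ.n2 (1840, 2106) (by decide +kernel)
                 (CovZ.leaf K2_ok TA_l425 _)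
                 (CovZ.badM (by decide +kernel)))
                (CovZ.leaf K2_ok TA_l426 _))))
             (CovZ.badM (by decide +kernel)))
            (CovZ.n1 (1848, 2112) (by decide +kernel)
             (CovZ.subM 39582418616997 (by decide +kernel)
              (CovZ.n2 (1852, 2108) (by decide +kernel)
               (CovZ.n2 (1848, 2108) (by decide +kernel)
                (CovZ.n2 (1850, 2110) (by decide +kernel)
                 (CovZ.badM (by decide +kernel))
                 (CovZ.n1 (1848, 2110) (by decide +kernel)
                  (CovZ.leaf K2_ok TA_l427 _)
                  (CovZ.leaf K2_ok TA_l1395 _)))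
                (CovZ.badM (by decide +kernel)))
               (CovZ.n1 (1852, 2112) (by decide +kernel)
                (CovZ.badM (by decide +kernel))
                (CovZ.n1 (1850, 2110) (by decide +kernel)
                 (CovZ.n2 (1850, 2112) (by decide +kernel)
                  (CovZ.n2 (1851, 2111) (by decide +kernel)
                   (CovZ.n2 (1850, 2111) (by decide +kernel)
                    (CovZ.leaf K2_ok TA_l428 _)
                    (CovZ.leaf K2_ok TA_l1396 _))
                   (CovZ.leaf K2_ok TA_l429 _))
                  (CovZ.n1 (1849, 2111) (by decide +kernel)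
                   (CovZ.leaf K2_ok TA_l430 _)
                   (CovZ.leaf K2_ok TA_l431 _)))
                 (CovZ.badM (by decide +kernel))))))
             (CovZ.n1 (1844, 2108) (by decide +kernel)
              (CovZ.n2 (1844, 2112) (by decide +kernel)
               (CovZ.n2 (1846, 2110) (by decide +kernel)
                (CovZ.n2 (1844, 2110) (by decide +kernel)
                 (CovZ.leaf K2_ok TA_l432 _)
                 (CovZ.leaf K2_ok TA_l433 _))
                (CovZ.leaf K2_ok TA_l434 _))
               (CovZ.n1 (1842, 2110) (by decide +kernel)
                (CovZ.leaf K2_ok TA_l435 _)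
                (CovZ.leaf K2_ok TA_l436 _)))
              (CovZ.subM 39582418616965 (by decide +kernel)
               (CovZ.n1 (1848, 2108) (by decide +kernel)
                (CovZ.badM (by decide +kernel))
                (CovZ.n1 (1846, 2110) (by decide +kernel)
                 (CovZ.n2 (1848, 2110) (by decide +kernel)
                  (CovZ.n2 (1847, 2109) (by decide +kernel)
                   (CovZ.leaf K2_ok TA_l437 _)
                   (CovZ.leaf K2_ok TA_l1397 _))
                  (CovZ.leaf K2_ok TA_l438 _))
                 (CovZ.n1 (1846, 2108) (by decide +kernel)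
                  (CovZ.leaf K2_ok TA_l439 _)
                  (CovZ.n1 (1847, 2109) (by decide +kernel)
                   (CovZ.badM (by decide +kernel))
                   (CovZ.leaf K2_ok TA_l440 _))))))))))
          (CovZ.n1 (1832, 2104) (by decide +kernel)
           (CovZ.n2 (1832, 2112) (by decide +kernel)
            (CovZ.n2 (1836, 2108) (by decide +kernel)
             (CovZ.n2 (1832, 2108) (by decide +kernel)
              (CovZ.leaf K2_ok TA_l441 _)
              (CovZ.n1 (1834, 2106) (by decide +kernel)
               (CovZ.leaf K2_ok TA_l442 _)
               (CovZ.leaf K2_ok TA_l443 _)))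
             (CovZ.leaf K2_ok TA_l444 _))
            (CovZ.n1 (1828, 2108) (by decide +kernel)
             (CovZ.leaf K2_ok TA_l445 _)
             (CovZ.n1 (1832, 2108) (by decide +kernel)
              (CovZ.n2 (1830, 2106) (by decide +kernel)
               (CovZ.leaf K2_ok TA_l446 _)
               (CovZ.leaf K2_ok TA_l447 _))
              (CovZ.leaf K2_ok TA_l448 _))))
           (CovZ.subM 109968409774749 (by decide +kernel)
            (CovZ.n1 (1840, 2104) (by decide +kernel)
             (CovZ.subM 4398046511629 (by decide +kernel)
              (CovZ.n2 (1836, 2100) (by decide +kernel)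
               (CovZ.n2 (1836, 2104) (by decide +kernel)
                (CovZ.badM (by decide +kernel))
                (CovZ.n1 (1834, 2102) (by decide +kernel)
                 (CovZ.leaf K2_ok TA_l449 _)
                 (CovZ.badM (by decide +kernel))))
               (CovZ.badM (by decide +kernel))))
             (CovZ.n1 (1836, 2108) (by decide +kernel)
              (CovZ.n2 (1840, 2108) (by decide +kernel)
               (CovZ.n2 (1838, 2106) (by decide +kernel)
                (CovZ.leaf K2_ok TA_l450 _)
                (CovZ.n1 (1840, 2106) (by decide +kernel)
                 (CovZ.leaf K2_ok TA_l451 _)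
                 (CovZ.leaf K2_ok TA_l452 _)))
               (CovZ.leaf K2_ok TA_l453 _))
              (CovZ.n1 (1836, 2104) (by decide +kernel)
               (CovZ.leaf K2_ok TA_l454 _)
               (CovZ.n1 (1838, 2106) (by decide +kernel)
                (CovZ.leaf K2_ok TA_l455 _)
                (CovZ.leaf K2_ok TA_l456 _))))))))))

theorem TA_u9 : CovZ TA_M (toL (selN TA_LN 143692975577235455)) [0, 7, 4, 3] (1824, 2112) (1792, 2112) (1824, 2080) :=
    (CovZ.subM 55849790924611290 (by decide +kernel)
        (CovZ.n1 (1808, 2096) (by decide +kernel)
         (CovZ.n2 (1808, 2112) (by decide +kernel)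
          (CovZ.n2 (1816, 2104) (by decide +kernel)
           (CovZ.n2 (1808, 2104) (by decide +kernel)
            (CovZ.n2 (1812, 2108) (by decide +kernel)
             (CovZ.leaf K2_ok TA_l457 _)
             (CovZ.leaf K2_ok TA_l458 _))
            (CovZ.n1 (1812, 2100) (by decide +kernel)
             (CovZ.n2 (1808, 2100) (by decide +kernel)
              (CovZ.leaf K2_ok TA_l459 _)
              (CovZ.leaf K2_ok TA_l460 _))
             (CovZ.leaf K2_ok TA_l461 _)))
           (CovZ.n1 (1816, 2112) (by decide +kernel)
            (CovZ.leaf K2_ok TA_l462 _)
            (CovZ.n1 (1812, 2108) (by decide +kernel)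
             (CovZ.leaf K2_ok TA_l463 _)
             (CovZ.leaf K2_ok TA_l464 _))))
          (CovZ.n1 (1800, 2104) (by decide +kernel)
           (CovZ.leaf K2_ok TA_l465 _)
           (CovZ.subM 37271274153661578 (by decide +kernel)
            (CovZ.n1 (1808, 2104) (by decide +kernel)
             (CovZ.n2 (1804, 2100) (by decide +kernel)
              (CovZ.leaf K2_ok TA_l466 _)
              (CovZ.n1 (1808, 2100) (by decide +kernel)
               (CovZ.n2 (1806, 2098) (by decide +kernel)
                (CovZ.leaf K2_ok TA_l467 _)
                (CovZ.leaf K2_ok TA_l468 _))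
               (CovZ.leaf K2_ok TA_l469 _)))
             (CovZ.leaf K2_ok TA_l470 _)))))
         (CovZ.n1 (1824, 2096) (by decide +kernel)
          (CovZ.subM 2199023256072 (by decide +kernel)
           (CovZ.n2 (1816, 2088) (by decide +kernel)
            (CovZ.n2 (1816, 2096) (by decide +kernel)
             (CovZ.badM (by decide +kernel))
             (CovZ.n1 (1812, 2092) (by decide +kernel)
              (CovZ.n2 (1812, 2096) (by decide +kernel)
               (CovZ.n2 (1814, 2094) (by decide +kernel)
                (CovZ.n2 (1812, 2094) (by decide +kernel)
                 (CovZ.n2 (1813, 2095) (by decide +kernel)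
                  (CovZ.badM (by decide +kernel))
                  (CovZ.n1 (1812, 2095) (by decide +kernel)
                   (CovZ.leaf K2_ok TA_l471 _)
                   (CovZ.badM (by decide +kernel))))
                 (CovZ.badM (by decide +kernel)))
                (CovZ.n1 (1814, 2096) (by decide +kernel)
                 (CovZ.badM (by decide +kernel))
                 (CovZ.n1 (1813, 2095) (by decide +kernel)
                  (CovZ.leaf K2_ok TA_l472 _)
                  (CovZ.badM (by decide +kernel)))))
               (CovZ.n1 (1810, 2094) (by decide +kernel)
                (CovZ.n2 (1810, 2096) (by decide +kernel)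
                 (CovZ.leaf K2_ok TA_l473 _)
                 (CovZ.leaf K2_ok TA_l474 _))
                (CovZ.n1 (1812, 2094) (by decide +kernel)
                 (CovZ.badM (by decide +kernel))
                 (CovZ.n1 (1811, 2095) (by decide +kernel)
                  (CovZ.leaf K2_ok TA_l475 _)
                  (CovZ.badM (by decide +kernel))))))
              (CovZ.badM (by decide +kernel))))
            (CovZ.badM (by decide +kernel))))
          (CovZ.n1 (1816, 2104) (by decide +kernel)
           (CovZ.subM 108879635701400 (by decide +kernel)
            (CovZ.n2 (1824, 2104) (by decide +kernel)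
             (CovZ.n2 (1820, 2100) (by decide +kernel)
              (CovZ.n2 (1820, 2104) (by decide +kernel)
               (CovZ.leaf K2_ok TA_l476 _)
               (CovZ.n1 (1818, 2102) (by decide +kernel)
                (CovZ.leaf K2_ok TA_l477 _)
                (CovZ.leaf K2_ok TA_l478 _)))
              (CovZ.subM 67109528 (by decide +kernel)
               (CovZ.n1 (1824, 2100) (by decide +kernel)
                (CovZ.n2 (1822, 2098) (by decide +kernel)
                 (CovZ.n2 (1822, 2100) (by decide +kernel)
                  (CovZ.n2 (1823, 2099) (by decide +kernel)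
                   (CovZ.leaf K2_ok TA_l479 _)
                   (CovZ.leaf K2_ok TA_l480 _))
                  (CovZ.n1 (1821, 2099) (by decide +kernel)
                   (CovZ.leaf K2_ok TA_l481 _)
                   (CovZ.leaf K2_ok TA_l482 _)))
                 (CovZ.badM (by decide +kernel)))
                (CovZ.n1 (1822, 2102) (by decide +kernel)
                 (CovZ.n2 (1824, 2102) (by decide +kernel)
                  (CovZ.leaf K2_ok TA_l483 _)
                  (CovZ.leaf K2_ok TA_l484 _))
                 (CovZ.leaf K2_ok TA_l485 _)))))
             (CovZ.n1 (1820, 2108) (by decide +kernel)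
              (CovZ.n2 (1824, 2108) (by decide +kernel)
               (CovZ.leaf K2_ok TA_l486 _)
               (CovZ.leaf K2_ok TA_l487 _))
              (CovZ.leaf K2_ok TA_l488 _))))
           (CovZ.subM 108872052247176 (by decide +kernel)
            (CovZ.n1 (1816, 2096) (by decide +kernel)
             (CovZ.n2 (1812, 2100) (by decide +kernel)
              (CovZ.n2 (1816, 2100) (by decide +kernel)
               (CovZ.n2 (1814, 2098) (by decide +kernel)
                (CovZ.leaf K2_ok TA_l489 _)
                (CovZ.n1 (1816, 2098) (by decide +kernel)
                 (CovZ.leaf K2_ok TA_l490 _)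
                 (CovZ.leaf K2_ok TA_l491 _)))
               (CovZ.leaf K2_ok TA_l492 _))
              (CovZ.subM 2216203124744 (by decide +kernel)
               (CovZ.n1 (1812, 2096) (by decide +kernel)
                (CovZ.n2 (1810, 2098) (by decide +kernel)
                 (CovZ.leaf K2_ok TA_l493 _)
                 (CovZ.leaf K2_ok TA_l494 _))
                (CovZ.n1 (1814, 2098) (by decide +kernel)
                 (CovZ.n2 (1814, 2096) (by decide +kernel)
                  (CovZ.leaf K2_ok TA_l495 _)
                  (CovZ.n1 (1815, 2097) (by decide +kernel)
                   (CovZ.leaf K2_ok TA_l496 _)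
                   (CovZ.leaf K2_ok TA_l497 _)))
                 (CovZ.n1 (1812, 2098) (by decide +kernel)
                  (CovZ.leaf K2_ok TA_l498 _)
                  (CovZ.leaf K2_ok TA_l499 _))))))
             (CovZ.n1 (1820, 2100) (by decide +kernel)
              (CovZ.subM 520 (by decide +kernel)
               (CovZ.n2 (1820, 2096) (by decide +kernel)
                (CovZ.n2 (1818, 2098) (by decide +kernel)
                 (CovZ.n2 (1820, 2098) (by decide +kernel)
                  (CovZ.n2 (1819, 2097) (by decide +kernel)
                   (CovZ.n2 (1819, 2098) (by decide +kernel)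
                    (CovZ.badM (by decide +kernel))
                    (CovZ.leaf K2_ok TA_l500 _))
                   (CovZ.badM (by decide +kernel)))
                  (CovZ.leaf K2_ok TA_l501 _))
                 (CovZ.n1 (1818, 2096) (by decide +kernel)
                  (CovZ.leaf K2_ok TA_l502 _)
                  (CovZ.n1 (1819, 2097) (by decide +kernel)
                   (CovZ.badM (by decide +kernel))
                   (CovZ.n1 (1818, 2097) (by decide +kernel)
                    (CovZ.leaf K2_ok TA_l503 _)
                    (CovZ.badM (by decide +kernel))))))
                (CovZ.n1 (1822, 2098) (by decide +kernel)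
                 (CovZ.badM (by decide +kernel))
                 (CovZ.n1 (1820, 2098) (by decide +kernel)
                  (CovZ.n2 (1821, 2099) (by decide +kernel)
                   (CovZ.badM (by decide +kernel))
                   (CovZ.leaf K2_ok TA_l504 _))
                  (CovZ.badM (by decide +kernel))))))
              (CovZ.n1 (1816, 2100) (by decide +kernel)
               (CovZ.leaf K2_ok TA_l505 _)
               (CovZ.n1 (1818, 2098) (by decide +kernel)
                (CovZ.n2 (1816, 2098) (by decide +kernel)
                 (CovZ.leaf K2_ok TA_l506 _)
                 (CovZ.leaf K2_ok TA_l507 _))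
                (CovZ.leaf K2_ok TA_l508 _))))))))))

theorem TA_u10 : CovZ TA_M (toL (selN TA_LN 89509042593988607)) [0, 7, 4, 3] (1856, 2112) (1888, 2144) (1856, 2176) :=
    (CovZ.n2 (1856, 2144) (by decide +kernel)
       (CovZ.n2 (1872, 2160) (by decide +kernel)
        (CovZ.n2 (1872, 2144) (by decide +kernel)
         (CovZ.n2 (1864, 2152) (by decide +kernel)
          (CovZ.n2 (1872, 2152) (by decide +kernel)
           (CovZ.n2 (1868, 2148) (by decide +kernel)
            (CovZ.leaf K2_ok TA_l509 _)
            (CovZ.leaf K2_ok TA_l510 _))
           (CovZ.leaf K2_ok TA_l511 _))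
          (CovZ.n1 (1864, 2144) (by decide +kernel)
           (CovZ.leaf K2_ok TA_l512 _)
           (CovZ.n1 (1868, 2148) (by decide +kernel)
            (CovZ.leaf K2_ok TA_l513 _)
            (CovZ.leaf K2_ok TA_l514 _))))
         (CovZ.n1 (1880, 2152) (by decide +kernel)
          (CovZ.n2 (1880, 2144) (by decide +kernel)
           (CovZ.leaf K2_ok TA_l515 _)
           (CovZ.leaf K2_ok TA_l516 _))
          (CovZ.n1 (1872, 2152) (by decide +kernel)
           (CovZ.n2 (1876, 2156) (by decide +kernel)
            (CovZ.leaf K2_ok TA_l517 _)
            (CovZ.leaf K2_ok TA_l518 _))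
           (CovZ.leaf K2_ok TA_l519 _))))
        (CovZ.n1 (1856, 2160) (by decide +kernel)
         (CovZ.subM 424341348010875 (by decide +kernel)
          (CovZ.n2 (1864, 2168) (by decide +kernel)
           (CovZ.n2 (1864, 2160) (by decide +kernel)
            (CovZ.n2 (1860, 2164) (by decide +kernel)
             (CovZ.n2 (1864, 2164) (by decide +kernel)
              (CovZ.n2 (1862, 2162) (by decide +kernel)
               (CovZ.leaf K2_ok TA_l520 _)
               (CovZ.leaf K2_ok TA_l521 _))
              (CovZ.n1 (1862, 2166) (by decide +kernel)
               (CovZ.n2 (1864, 2166) (by decide +kernel)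
                (CovZ.leaf K2_ok TA_l522 _)
                (CovZ.leaf K2_ok TA_l523 _))
               (CovZ.leaf K2_ok TA_l524 _)))
             (CovZ.n1 (1860, 2160) (by decide +kernel)
              (CovZ.leaf K2_ok TA_l525 _)
              (CovZ.n1 (1862, 2162) (by decide +kernel)
               (CovZ.leaf K2_ok TA_l526 _)
               (CovZ.n1 (1860, 2162) (by decide +kernel)
                (CovZ.leaf K2_ok TA_l527 _)
                (CovZ.leaf K2_ok TA_l528 _)))))
            (CovZ.n1 (1868, 2164) (by decide +kernel)
             (CovZ.n2 (1868, 2160) (by decide +kernel)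
              (CovZ.leaf K2_ok TA_l529 _)
              (CovZ.n1 (1870, 2162) (by decide +kernel)
               (CovZ.leaf K2_ok TA_l530 _)
               (CovZ.leaf K2_ok TA_l531 _)))
             (CovZ.n1 (1864, 2164) (by decide +kernel)
              (CovZ.subM 422391428433921 (by decide +kernel)
               (CovZ.n2 (1866, 2166) (by decide +kernel)
                (CovZ.leaf K2_ok TA_l532 _)
                (CovZ.n1 (1864, 2166) (by decide +kernel)
                 (CovZ.n2 (1865, 2167) (by decide +kernel)
                  (CovZ.leaf K2_ok TA_l533 _)
                  (CovZ.leaf K2_ok TA_l534 _))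
                 (CovZ.leaf K2_ok TA_l535 _))))
              (CovZ.leaf K2_ok TA_l536 _))))
           (CovZ.subM 423181538773003 (by decide +kernel)
            (CovZ.n1 (1856, 2168) (by decide +kernel)
             (CovZ.n2 (1860, 2172) (by decide +kernel)
              (CovZ.n2 (1860, 2168) (by decide +kernel)
               (CovZ.badM (by decide +kernel))
               (CovZ.badM (by decide +kernel)))
              (CovZ.badM (by decide +kernel)))
             (CovZ.n1 (1860, 2164) (by decide +kernel)
              (CovZ.n2 (1856, 2164) (by decide +kernel)
               (CovZ.n2 (1858, 2166) (by decide +kernel)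
                (CovZ.leaf K2_ok TA_l537 _)
                (CovZ.badM (by decide +kernel)))
               (CovZ.n1 (1858, 2162) (by decide +kernel)
                (CovZ.leaf K2_ok TA_l538 _)
                (CovZ.leaf K2_ok TA_l539 _)))
              (CovZ.subM 422354215766026 (by decide +kernel)
               (CovZ.n1 (1860, 2168) (by decide +kernel)
                (CovZ.n2 (1862, 2166) (by decide +kernel)
                 (CovZ.n2 (1860, 2166) (by decide +kernel)
                  (CovZ.n2 (1861, 2167) (by decide +kernel)
                   (CovZ.leaf K2_ok TA_l540 _)
                   (CovZ.leaf K2_ok TA_l541 _))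
                  (CovZ.n1 (1861, 2165) (by decide +kernel)
                   (CovZ.leaf K2_ok TA_l542 _)
                   (CovZ.leaf K2_ok TA_l543 _)))
                 (CovZ.n1 (1862, 2168) (by decide +kernel)
                  (CovZ.leaf K2_ok TA_l544 _)
                  (CovZ.leaf K2_ok TA_l545 _)))
                (CovZ.n1 (1858, 2166) (by decide +kernel)
                 (CovZ.badM (by decide +kernel))
                 (CovZ.n1 (1860, 2166) (by decide +kernel)
                  (CovZ.n2 (1859, 2165) (by decide +kernel)
                   (CovZ.leaf K2_ok TA_l546 _)
                   (CovZ.leaf K2_ok TA_l547 _))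
                  (CovZ.leaf K2_ok TA_l548 _))))))))))
         (CovZ.n1 (1864, 2152) (by decide +kernel)
          (CovZ.n2 (1856, 2152) (by decide +kernel)
           (CovZ.n2 (1860, 2156) (by decide +kernel)
            (CovZ.leaf K2_ok TA_l549 _)
            (CovZ.n1 (1856, 2156) (by decide +kernel)
             (CovZ.leaf K2_ok TA_l550 _)
             (CovZ.leaf K2_ok TA_l551 _)))
           (CovZ.n1 (1860, 2148) (by decide +kernel)
            (CovZ.leaf K2_ok TA_l552 _)
            (CovZ.leaf K2_ok TA_l553 _)))
          (CovZ.n1 (1864, 2160) (by decide +kernel)
           (CovZ.n2 (1868, 2156) (by decide +kernel)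
            (CovZ.n2 (1864, 2156) (by decide +kernel)
             (CovZ.leaf K2_ok TA_l554 _)
             (CovZ.leaf K2_ok TA_l555 _))
            (CovZ.n1 (1868, 2160) (by decide +kernel)
             (CovZ.leaf K2_ok TA_l556 _)
             (CovZ.leaf K2_ok TA_l557 _)))
           (CovZ.n1 (1860, 2156) (by decide +kernel)
            (CovZ.n2 (1860, 2160) (by decide +kernel)
             (CovZ.leaf K2_ok TA_l558 _)
             (CovZ.n1 (1858, 2158) (by decide +kernel)
              (CovZ.leaf K2_ok TA_l559 _)
              (CovZ.leaf K2_ok TA_l560 _)))
            (CovZ.leaf K2_ok TA_l561 _))))))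
       (CovZ.n1 (1872, 2128) (by decide +kernel)
        (CovZ.n2 (1856, 2128) (by decide +kernel)
         (CovZ.n2 (1864, 2136) (by decide +kernel)
          (CovZ.n2 (1864, 2128) (by decide +kernel)
           (CovZ.leaf K2_ok TA_l562 _)
           (CovZ.n1 (1868, 2132) (by decide +kernel)
            (CovZ.leaf K2_ok TA_l563 _)
            (CovZ.leaf K2_ok TA_l564 _)))
          (CovZ.n1 (1856, 2136) (by decide +kernel)
           (CovZ.leaf K2_ok TA_l565 _)
           (CovZ.leaf K2_ok TA_l566 _)))
         (CovZ.subM 395616535043831 (by decide +kernel)
          (CovZ.n1 (1864, 2120) (by decide +kernel)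
           (CovZ.n2 (1856, 2120) (by decide +kernel)
            (CovZ.n2 (1860, 2124) (by decide +kernel)
             (CovZ.n2 (1860, 2120) (by decide +kernel)
              (CovZ.leaf K2_ok TA_l567 _)
              (CovZ.n1 (1862, 2122) (by decide +kernel)
               (CovZ.leaf K2_ok TA_l568 _)
               (CovZ.leaf K2_ok TA_l569 _)))
             (CovZ.n1 (1856, 2124) (by decide +kernel)
              (CovZ.leaf K2_ok TA_l570 _)
              (CovZ.leaf K2_ok TA_l571 _)))
            (CovZ.n1 (1860, 2116) (by decide +kernel)
             (CovZ.n2 (1856, 2116) (by decide +kernel)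
              (CovZ.n2 (1858, 2118) (by decide +kernel)
               (CovZ.leaf K2_ok TA_l572 _)
               (CovZ.n1 (1856, 2118) (by decide +kernel)
                (CovZ.leaf K2_ok TA_l573 _)
                (CovZ.leaf K2_ok TA_l574 _)))
              (CovZ.subM 4398047035525 (by decide +kernel)
               (CovZ.n1 (1858, 2114) (by decide +kernel)
                (CovZ.n2 (1856, 2114) (by decide +kernel)
                 (CovZ.n2 (1857, 2115) (by decide +kernel)
                  (CovZ.badM (by decide +kernel))
                  (CovZ.leaf K2_ok TA_l575 _))
                 (CovZ.badM (by decide +kernel)))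
                (CovZ.n1 (1858, 2116) (by decide +kernel)
                 (CovZ.n2 (1859, 2115) (by decide +kernel)
                  (CovZ.leaf K2_ok TA_l576 _)
                  (CovZ.leaf K2_ok TA_l577 _))
                 (CovZ.n1 (1857, 2115) (by decide +kernel)
                  (CovZ.leaf K2_ok TA_l578 _)
                  (CovZ.leaf K2_ok TA_l579 _))))))
             (CovZ.n1 (1860, 2120) (by decide +kernel)
              (CovZ.n2 (1862, 2118) (by decide +kernel)
               (CovZ.n2 (1860, 2118) (by decide +kernel)
                (CovZ.leaf K2_ok TA_l580 _)
                (CovZ.leaf K2_ok TA_l581 _))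
               (CovZ.leaf K2_ok TA_l582 _))
              (CovZ.n1 (1858, 2118) (by decide +kernel)
               (CovZ.leaf K2_ok TA_l583 _)
               (CovZ.leaf K2_ok TA_l584 _)))))
           (CovZ.n1 (1864, 2128) (by decide +kernel)
            (CovZ.n2 (1868, 2124) (by decide +kernel)
             (CovZ.n2 (1864, 2124) (by decide +kernel)
              (CovZ.leaf K2_ok TA_l585 _)
              (CovZ.leaf K2_ok TA_l586 _))
             (CovZ.leaf K2_ok TA_l587 _))
            (CovZ.n1 (1860, 2124) (by decide +kernel)
             (CovZ.leaf K2_ok TA_l588 _)
             (CovZ.n1 (1864, 2124) (by decide +kernel)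
              (CovZ.n2 (1862, 2122) (by decide +kernel)
               (CovZ.leaf K2_ok TA_l589 _)
               (CovZ.leaf K2_ok TA_l590 _))
              (CovZ.leaf K2_ok TA_l591 _)))))))
        (CovZ.n1 (1872, 2144) (by decide +kernel)
         (CovZ.n2 (1880, 2136) (by decide +kernel)
          (CovZ.n2 (1872, 2136) (by decide +kernel)
           (CovZ.n2 (1876, 2140) (by decide +kernel)
            (CovZ.leaf K2_ok TA_l592 _)
            (CovZ.leaf K2_ok TA_l593 _))
           (CovZ.leaf K2_ok TA_l594 _))
          (CovZ.n1 (1880, 2144) (by decide +kernel)
           (CovZ.leaf K2_ok TA_l595 _)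
           (CovZ.n1 (1876, 2140) (by decide +kernel)
            (CovZ.leaf K2_ok TA_l596 _)
            (CovZ.leaf K2_ok TA_l597 _))))
         (CovZ.n1 (1864, 2136) (by decide +kernel)
          (CovZ.n2 (1864, 2144) (by decide +kernel)
           (CovZ.leaf K2_ok TA_l598 _)
           (CovZ.leaf K2_ok TA_l599 _))
          (CovZ.n1 (1872, 2136) (by decide +kernel)
           (CovZ.n2 (1868, 2132) (by decide +kernel)
            (CovZ.leaf K2_ok TA_l600 _)
            (CovZ.n1 (1872, 2132) (by decide +kernel)
             (CovZ.leaf K2_ok TA_l601 _)
             (CovZ.leaf K2_ok TA_l602 _)))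
           (CovZ.leaf K2_ok TA_l603 _))))))

theorem TA_u11 : CovZ TA_M (toL (selN TA_LN 89509042593988607)) [0, 7, 4, 3] (1888, 2144) (1920, 2176) (1856, 2176) :=
    (CovZ.n1 (1888, 2176) (by decide +kernel)
       (CovZ.n2 (1904, 2160) (by decide +kernel)
        (CovZ.n2 (1888, 2160) (by decide +kernel)
         (CovZ.subM 426265491063665 (by decide +kernel)
          (CovZ.n2 (1896, 2168) (by decide +kernel)
           (CovZ.n2 (1896, 2160) (by decide +kernel)
            (CovZ.leaf K2_ok TA_l604 _)
            (CovZ.n1 (1900, 2164) (by decide +kernel)
             (CovZ.leaf K2_ok TA_l605 _)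
             (CovZ.leaf K2_ok TA_l606 _)))
           (CovZ.n1 (1888, 2168) (by decide +kernel)
            (CovZ.n2 (1892, 2172) (by decide +kernel)
             (CovZ.leaf K2_ok TA_l607 _)
             (CovZ.n1 (1888, 2172) (by decide +kernel)
              (CovZ.n2 (1890, 2174) (by decide +kernel)
               (CovZ.leaf K2_ok TA_l608 _)
               (CovZ.leaf K2_ok TA_l609 _))
              (CovZ.leaf K2_ok TA_l610 _)))
            (CovZ.n1 (1892, 2164) (by decide +kernel)
             (CovZ.leaf K2_ok TA_l611 _)
             (CovZ.n1 (1892, 2168) (by decide +kernel)
              (CovZ.leaf K2_ok TA_l612 _)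
              (CovZ.leaf K2_ok TA_l613 _))))))
         (CovZ.n1 (1896, 2152) (by decide +kernel)
          (CovZ.n2 (1888, 2152) (by decide +kernel)
           (CovZ.leaf K2_ok TA_l614 _)
           (CovZ.leaf K2_ok TA_l615 _))
          (CovZ.n1 (1896, 2160) (by decide +kernel)
           (CovZ.leaf K2_ok TA_l616 _)
           (CovZ.leaf K2_ok TA_l617 _))))
        (CovZ.subM 426128052110193 (by decide +kernel)
         (CovZ.n1 (1904, 2176) (by decide +kernel)
          (CovZ.n2 (1912, 2168) (by decide +kernel)
           (CovZ.n2 (1904, 2168) (by decide +kernel)
            (CovZ.n2 (1908, 2172) (by decide +kernel)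
             (CovZ.leaf K2_ok TA_l618 _)
             (CovZ.leaf K2_ok TA_l619 _))
            (CovZ.leaf K2_ok TA_l620 _))
           (CovZ.n1 (1912, 2176) (by decide +kernel)
            (CovZ.leaf K2_ok TA_l621 _)
            (CovZ.n1 (1908, 2172) (by decide +kernel)
             (CovZ.leaf K2_ok TA_l622 _)
             (CovZ.leaf K2_ok TA_l623 _))))
          (CovZ.n1 (1896, 2168) (by decide +kernel)
           (CovZ.n2 (1896, 2176) (by decide +kernel)
            (CovZ.n2 (1900, 2172) (by decide +kernel)
             (CovZ.n2 (1896, 2172) (by decide +kernel)
              (CovZ.leaf K2_ok TA_l624 _)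
              (CovZ.leaf K2_ok TA_l625 _))
             (CovZ.n1 (1900, 2176) (by decide +kernel)
              (CovZ.leaf K2_ok TA_l626 _)
              (CovZ.leaf K2_ok TA_l627 _)))
            (CovZ.n1 (1892, 2172) (by decide +kernel)
             (CovZ.n2 (1892, 2176) (by decide +kernel)
              (CovZ.leaf K2_ok TA_l628 _)
              (CovZ.n1 (1890, 2174) (by decide +kernel)
               (CovZ.leaf K2_ok TA_l629 _)
               (CovZ.leaf K2_ok TA_l630 _)))
             (CovZ.n1 (1896, 2172) (by decide +kernel)
              (CovZ.leaf K2_ok TA_l631 _)
              (CovZ.leaf K2_ok TA_l632 _))))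
           (CovZ.n1 (1904, 2168) (by decide +kernel)
            (CovZ.n2 (1900, 2164) (by decide +kernel)
             (CovZ.leaf K2_ok TA_l633 _)
             (CovZ.leaf K2_ok TA_l634 _))
            (CovZ.leaf K2_ok TA_l635 _))))))
       (CovZ.n1 (1872, 2160) (by decide +kernel)
        (CovZ.subM 424341343816571 (by decide +kernel)
         (CovZ.n2 (1872, 2176) (by decide +kernel)
          (CovZ.n2 (1880, 2168) (by decide +kernel)
           (CovZ.n2 (1872, 2168) (by decide +kernel)
            (CovZ.subM 422253989480961 (by decide +kernel)
             (CovZ.n2 (1876, 2172) (by decide +kernel)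
              (CovZ.n2 (1876, 2168) (by decide +kernel)
               (CovZ.n2 (1874, 2170) (by decide +kernel)
                (CovZ.n2 (1876, 2170) (by decide +kernel)
                 (CovZ.leaf K2_ok TA_l636 _)
                 (CovZ.leaf K2_ok TA_l637 _))
                (CovZ.leaf K2_ok TA_l638 _))
               (CovZ.n1 (1878, 2170) (by decide +kernel)
                (CovZ.leaf K2_ok TA_l639 _)
                (CovZ.leaf K2_ok TA_l640 _)))
              (CovZ.subM 422217296906240 (by decide +kernel)
               (CovZ.n1 (1872, 2172) (by decide +kernel)
                (CovZ.badM (by decide +kernel))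
                (CovZ.n1 (1874, 2170) (by decide +kernel)
                 (CovZ.n2 (1872, 2170) (by decide +kernel)
                  (CovZ.badM (by decide +kernel))
                  (CovZ.leaf K2_ok TA_l641 _))
                 (CovZ.badM (by decide +kernel)))))))
            (CovZ.n1 (1876, 2164) (by decide +kernel)
             (CovZ.n2 (1872, 2164) (by decide +kernel)
              (CovZ.n2 (1874, 2166) (by decide +kernel)
               (CovZ.leaf K2_ok TA_l642 _)
               (CovZ.n1 (1872, 2166) (by decide +kernel)
                (CovZ.leaf K2_ok TA_l643 _)
                (CovZ.leaf K2_ok TA_l644 _)))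
              (CovZ.leaf K2_ok TA_l645 _))
             (CovZ.n1 (1876, 2168) (by decide +kernel)
              (CovZ.leaf K2_ok TA_l646 _)
              (CovZ.n1 (1874, 2166) (by decide +kernel)
               (CovZ.n2 (1874, 2168) (by decide +kernel)
                (CovZ.leaf K2_ok TA_l647 _)
                (CovZ.leaf K2_ok TA_l648 _))
               (CovZ.leaf K2_ok TA_l649 _)))))
           (CovZ.subM 422253989480961 (by decide +kernel)
            (CovZ.n1 (1880, 2176) (by decide +kernel)
             (CovZ.n2 (1884, 2172) (by decide +kernel)
              (CovZ.n2 (1880, 2172) (by decide +kernel)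
               (CovZ.subM 422249677717504 (by decide +kernel)
                (CovZ.n2 (1882, 2174) (by decide +kernel)
                 (CovZ.leaf K2_ok TA_l650 _)
                 (CovZ.subM 34493956096 (by decide +kernel)
                  (CovZ.n1 (1880, 2174) (by decide +kernel)
                   (CovZ.n2 (1881, 2175) (by decide +kernel)
                    (CovZ.leaf K2_ok TA_l651 _)
                    (CovZ.badM (by decide +kernel)))
                   (CovZ.n1 (1881, 2173) (by decide +kernel)
                    (CovZ.leaf K2_ok TA_l652 _)
                    (CovZ.leaf K2_ok TA_l653 _))))))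
               (CovZ.n1 (1882, 2170) (by decide +kernel)
                (CovZ.leaf K2_ok TA_l654 _)
                (CovZ.n1 (1882, 2172) (by decide +kernel)
                 (CovZ.leaf K2_ok TA_l655 _)
                 (CovZ.leaf K2_ok TA_l656 _))))
              (CovZ.subM 422249677717504 (by decide +kernel)
               (CovZ.n1 (1884, 2176) (by decide +kernel)
                (CovZ.n2 (1886, 2174) (by decide +kernel)
                 (CovZ.n2 (1884, 2174) (by decide +kernel)
                  (CovZ.leaf K2_ok TA_l657 _)
                  (CovZ.leaf K2_ok TA_l658 _))
                 (CovZ.leaf K2_ok TA_l659 _))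
                (CovZ.n1 (1882, 2174) (by decide +kernel)
                 (CovZ.n2 (1882, 2176) (by decide +kernel)
                  (CovZ.leaf K2_ok TA_l660 _)
                  (CovZ.n1 (1881, 2175) (by decide +kernel)
                   (CovZ.badM (by decide +kernel))
                   (CovZ.leaf K2_ok TA_l661 _)))
                 (CovZ.n1 (1884, 2174) (by decide +kernel)
                  (CovZ.leaf K2_ok TA_l662 _)
                  (CovZ.leaf K2_ok TA_l663 _))))))
             (CovZ.n1 (1876, 2172) (by decide +kernel)
              (CovZ.badM (by decide +kernel))
              (CovZ.n1 (1880, 2172) (by decide +kernel)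
               (CovZ.n2 (1878, 2170) (by decide +kernel)
                (CovZ.leaf K2_ok TA_l664 _)
                (CovZ.leaf K2_ok TA_l665 _))
               (CovZ.subM 34493956096 (by decide +kernel)
                (CovZ.n1 (1878, 2174) (by decide +kernel)
                 (CovZ.n2 (1880, 2174) (by decide +kernel)
                  (CovZ.n2 (1879, 2173) (by decide +kernel)
                   (CovZ.badM (by decide +kernel))
                   (CovZ.leaf K2_ok TA_l666 _))
                  (CovZ.badM (by decide +kernel)))
                 (CovZ.n1 (1878, 2172) (by decide +kernel)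
                  (CovZ.badM (by decide +kernel))
                  (CovZ.n1 (1879, 2173) (by decide +kernel)
                   (CovZ.leaf K2_ok TA_l667 _)
                   (CovZ.badM (by decide +kernel)))))))))))
          (CovZ.n1 (1864, 2168) (by decide +kernel)
           (CovZ.badM (by decide +kernel))
           (CovZ.n1 (1872, 2168) (by decide +kernel)
            (CovZ.n2 (1868, 2164) (by decide +kernel)
             (CovZ.subM 422391428433921 (by decide +kernel)
              (CovZ.n2 (1868, 2168) (by decide +kernel)
               (CovZ.n2 (1870, 2166) (by decide +kernel)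
                (CovZ.leaf K2_ok TA_l668 _)
                (CovZ.leaf K2_ok TA_l669 _))
               (CovZ.n1 (1866, 2166) (by decide +kernel)
                (CovZ.n2 (1866, 2168) (by decide +kernel)
                 (CovZ.leaf K2_ok TA_l670 _)
                 (CovZ.n1 (1865, 2167) (by decide +kernel)
                  (CovZ.badM (by decide +kernel))
                  (CovZ.leaf K2_ok TA_l671 _)))
                (CovZ.leaf K2_ok TA_l672 _))))
             (CovZ.n1 (1872, 2164) (by decide +kernel)
              (CovZ.leaf K2_ok TA_l673 _)
              (CovZ.n1 (1870, 2166) (by decide +kernel)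
               (CovZ.leaf K2_ok TA_l674 _)
               (CovZ.leaf K2_ok TA_l675 _))))
            (CovZ.subM 422217296906240 (by decide +kernel)
             (CovZ.n1 (1868, 2172) (by decide +kernel)
              (CovZ.n2 (1872, 2172) (by decide +kernel)
               (CovZ.n2 (1870, 2170) (by decide +kernel)
                (CovZ.badM (by decide +kernel))
                (CovZ.n1 (1872, 2170) (by decide +kernel)
                 (CovZ.leaf K2_ok TA_l676 _)
                 (CovZ.badM (by decide +kernel))))
               (CovZ.badM (by decide +kernel)))
              (CovZ.n1 (1868, 2168) (by decide +kernel)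
               (CovZ.badM (by decide +kernel))
               (CovZ.n1 (1870, 2170) (by decide +kernel)
                (CovZ.leaf K2_ok TA_l677 _)
                (CovZ.badM (by decide +kernel))))))))))
        (CovZ.n1 (1888, 2160) (by decide +kernel)
         (CovZ.n2 (1880, 2152) (by decide +kernel)
          (CovZ.n2 (1880, 2160) (by decide +kernel)
           (CovZ.leaf K2_ok TA_l678 _)
           (CovZ.n1 (1876, 2156) (by decide +kernel)
            (CovZ.leaf K2_ok TA_l679 _)
            (CovZ.leaf K2_ok TA_l680 _)))
          (CovZ.n1 (1888, 2152) (by decide +kernel)
           (CovZ.leaf K2_ok TA_l681 _)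
           (CovZ.leaf K2_ok TA_l682 _)))
         (CovZ.subM 426540369038195 (by decide +kernel)
          (CovZ.n1 (1880, 2168) (by decide +kernel)
           (CovZ.n2 (1888, 2168) (by decide +kernel)
            (CovZ.n2 (1884, 2164) (by decide +kernel)
             (CovZ.n2 (1884, 2168) (by decide +kernel)
              (CovZ.leaf K2_ok TA_l683 _)
              (CovZ.leaf K2_ok TA_l684 _))
             (CovZ.leaf K2_ok TA_l685 _))
            (CovZ.subM 423370680975873 (by decide +kernel)
             (CovZ.n1 (1884, 2172) (by decide +kernel)
              (CovZ.n2 (1888, 2172) (by decide +kernel)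
               (CovZ.n2 (1886, 2170) (by decide +kernel)
                (CovZ.leaf K2_ok TA_l686 _)
                (CovZ.leaf K2_ok TA_l687 _))
               (CovZ.leaf K2_ok TA_l688 _))
              (CovZ.n1 (1884, 2168) (by decide +kernel)
               (CovZ.leaf K2_ok TA_l689 _)
               (CovZ.n1 (1886, 2170) (by decide +kernel)
                (CovZ.leaf K2_ok TA_l690 _)
                (CovZ.leaf K2_ok TA_l691 _))))))
           (CovZ.n1 (1880, 2160) (by decide +kernel)
            (CovZ.n2 (1876, 2164) (by decide +kernel)
             (CovZ.leaf K2_ok TA_l692 _)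
             (CovZ.leaf K2_ok TA_l693 _))
            (CovZ.n1 (1884, 2164) (by decide +kernel)
             (CovZ.leaf K2_ok TA_l694 _)
             (CovZ.n1 (1880, 2164) (by decide +kernel)
              (CovZ.leaf K2_ok TA_l695 _)
              (CovZ.leaf K2_ok TA_l696 _)))))))))

theorem TA_u12 : CovZ TA_M (toL (selN TA_LN 89509042593988607)) [0, 7, 4, 3] (1792, 2176) (1824, 2144) (1856, 2176) :=
    (CovZ.n2 (1824, 2176) (by decide +kernel)
       (CovZ.n2 (1840, 2160) (by decide +kernel)
        (CovZ.n2 (1824, 2160) (by decide +kernel)
         (CovZ.subM 9011598374993920 (by decide +kernel)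
          (CovZ.n2 (1832, 2168) (by decide +kernel)
           (CovZ.n2 (1832, 2160) (by decide +kernel)
            (CovZ.n2 (1828, 2164) (by decide +kernel)
             (CovZ.badM (by decide +kernel))
             (CovZ.n1 (1828, 2160) (by decide +kernel)
              (CovZ.badM (by decide +kernel))
              (CovZ.badM (by decide +kernel))))
            (CovZ.n1 (1836, 2164) (by decide +kernel)
             (CovZ.n2 (1836, 2160) (by decide +kernel)
              (CovZ.badM (by decide +kernel))
              (CovZ.badM (by decide +kernel)))
             (CovZ.badM (by decide +kernel))))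
           (CovZ.badM (by decide +kernel))))
         (CovZ.n1 (1832, 2152) (by decide +kernel)
          (CovZ.n2 (1824, 2152) (by decide +kernel)
           (CovZ.subM 74629146735246349 (by decide +kernel)
            (CovZ.n2 (1828, 2156) (by decide +kernel)
             (CovZ.n2 (1828, 2152) (by decide +kernel)
              (CovZ.leaf K2_ok TA_l697 _)
              (CovZ.n1 (1830, 2154) (by decide +kernel)
               (CovZ.leaf K2_ok TA_l698 _)
               (CovZ.n1 (1828, 2154) (by decide +kernel)
                (CovZ.leaf K2_ok TA_l699 _)
                (CovZ.leaf K2_ok TA_l700 _))))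
             (CovZ.n1 (1824, 2156) (by decide +kernel)
              (CovZ.subM 894427029504 (by decide +kernel)
               (CovZ.n2 (1826, 2158) (by decide +kernel)
                (CovZ.leaf K2_ok TA_l701 _)
                (CovZ.subM 68719484928 (by decide +kernel)
                 (CovZ.n1 (1824, 2158) (by decide +kernel)
                  (CovZ.n2 (1825, 2159) (by decide +kernel)
                   (CovZ.n2 (1825, 2158) (by decide +kernel)
                    (CovZ.badM (by decide +kernel))
                    (CovZ.leaf K2_ok TA_l702 _))
                   (CovZ.badM (by decide +kernel)))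
                  (CovZ.n1 (1825, 2157) (by decide +kernel)
                   (CovZ.n2 (1824, 2157) (by decide +kernel)
                    (CovZ.leaf K2_ok TA_l703 _)
                    (CovZ.leaf K2_ok TA_l704 _))
                   (CovZ.n1 (1825, 2158) (by decide +kernel)
                    (CovZ.leaf K2_ok TA_l705 _)
                    (CovZ.leaf K2_ok TA_l706 _)))))))
              (CovZ.n1 (1826, 2154) (by decide +kernel)
               (CovZ.n2 (1824, 2154) (by decide +kernel)
                (CovZ.n2 (1825, 2155) (by decide +kernel)
                 (CovZ.leaf K2_ok TA_l707 _)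
                 (CovZ.leaf K2_ok TA_l708 _))
                (CovZ.leaf K2_ok TA_l709 _))
               (CovZ.n1 (1826, 2156) (by decide +kernel)
                (CovZ.leaf K2_ok TA_l710 _)
                (CovZ.leaf K2_ok TA_l711 _))))))
           (CovZ.n1 (1828, 2148) (by decide +kernel)
            (CovZ.n2 (1824, 2148) (by decide +kernel)
             (CovZ.leaf K2_ok TA_l712 _)
             (CovZ.leaf K2_ok TA_l713 _))
            (CovZ.n1 (1828, 2152) (by decide +kernel)
             (CovZ.leaf K2_ok TA_l714 _)
             (CovZ.leaf K2_ok TA_l715 _))))
          (CovZ.subM 74633544781756429 (by decide +kernel)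
           (CovZ.n1 (1832, 2160) (by decide +kernel)
            (CovZ.n2 (1836, 2156) (by decide +kernel)
             (CovZ.n2 (1832, 2156) (by decide +kernel)
              (CovZ.subM 2536367183849476 (by decide +kernel)
               (CovZ.n2 (1834, 2158) (by decide +kernel)
                (CovZ.leaf K2_ok TA_l716 _)
                (CovZ.n1 (1832, 2158) (by decide +kernel)
                 (CovZ.leaf K2_ok TA_l717 _)
                 (CovZ.n1 (1833, 2157) (by decide +kernel)
                  (CovZ.leaf K2_ok TA_l718 _)
                  (CovZ.n1 (1833, 2158) (by decide +kernel)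
                   (CovZ.leaf K2_ok TA_l719 _)
                   (CovZ.leaf K2_ok TA_l720 _))))))
              (CovZ.n1 (1834, 2154) (by decide +kernel)
               (CovZ.leaf K2_ok TA_l721 _)
               (CovZ.leaf K2_ok TA_l722 _)))
             (CovZ.n1 (1836, 2160) (by decide +kernel)
              (CovZ.n2 (1838, 2158) (by decide +kernel)
               (CovZ.n2 (1836, 2158) (by decide +kernel)
                (CovZ.leaf K2_ok TA_l723 _)
                (CovZ.leaf K2_ok TA_l724 _))
               (CovZ.leaf K2_ok TA_l725 _))
              (CovZ.subM 2536367183849476 (by decide +kernel)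
               (CovZ.n1 (1834, 2158) (by decide +kernel)
                (CovZ.n2 (1834, 2160) (by decide +kernel)
                 (CovZ.leaf K2_ok TA_l726 _)
                 (CovZ.leaf K2_ok TA_l727 _))
                (CovZ.n1 (1836, 2158) (by decide +kernel)
                 (CovZ.leaf K2_ok TA_l728 _)
                 (CovZ.leaf K2_ok TA_l729 _))))))
            (CovZ.n1 (1828, 2156) (by decide +kernel)
             (CovZ.subM 894427029508 (by decide +kernel)
              (CovZ.n2 (1828, 2160) (by decide +kernel)
               (CovZ.n2 (1830, 2158) (by decide +kernel)
                (CovZ.n2 (1828, 2158) (by decide +kernel)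
                 (CovZ.n2 (1829, 2159) (by decide +kernel)
                  (CovZ.leaf K2_ok TA_l730 _)
                  (CovZ.leaf K2_ok TA_l731 _))
                 (CovZ.leaf K2_ok TA_l732 _))
                (CovZ.subM 893353197568 (by decide +kernel)
                 (CovZ.n1 (1830, 2160) (by decide +kernel)
                  (CovZ.n2 (1831, 2159) (by decide +kernel)
                   (CovZ.leaf K2_ok TA_l733 _)
                   (CovZ.badM (by decide +kernel)))
                  (CovZ.n1 (1829, 2159) (by decide +kernel)
                   (CovZ.badM (by decide +kernel))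
                   (CovZ.leaf K2_ok TA_l734 _)))))
               (CovZ.n1 (1826, 2158) (by decide +kernel)
                (CovZ.n2 (1826, 2160) (by decide +kernel)
                 (CovZ.leaf K2_ok TA_l735 _)
                 (CovZ.n1 (1825, 2159) (by decide +kernel)
                  (CovZ.badM (by decide +kernel))
                  (CovZ.leaf K2_ok TA_l736 _)))
                (CovZ.n1 (1828, 2158) (by decide +kernel)
                 (CovZ.leaf K2_ok TA_l737 _)
                 (CovZ.leaf K2_ok TA_l738 _)))))
             (CovZ.n1 (1832, 2156) (by decide +kernel)
              (CovZ.n2 (1830, 2154) (by decide +kernel)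
               (CovZ.leaf K2_ok TA_l739 _)
               (CovZ.leaf K2_ok TA_l740 _))
              (CovZ.n1 (1830, 2158) (by decide +kernel)
               (CovZ.leaf K2_ok TA_l741 _)
               (CovZ.leaf K2_ok TA_l742 _))))))))
        (CovZ.n1 (1840, 2176) (by decide +kernel)
         (CovZ.badM (by decide +kernel))
         (CovZ.n1 (1832, 2168) (by decide +kernel)
          (CovZ.badM (by decide +kernel))
          (CovZ.badM (by decide +kernel)))))
       (CovZ.n1 (1808, 2160) (by decide +kernel)
        (CovZ.badM (by decide +kernel))
        (CovZ.n1 (1824, 2160) (by decide +kernel)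
         (CovZ.n2 (1816, 2152) (by decide +kernel)
          (CovZ.badM (by decide +kernel))
          (CovZ.n1 (1824, 2152) (by decide +kernel)
           (CovZ.n2 (1820, 2148) (by decide +kernel)
            (CovZ.subM 83695994755824649 (by decide +kernel)
             (CovZ.n2 (1820, 2152) (by decide +kernel)
              (CovZ.leaf K2_ok TA_l743 _)
              (CovZ.n1 (1818, 2150) (by decide +kernel)
               (CovZ.n2 (1818, 2152) (by decide +kernel)
                (CovZ.leaf K2_ok TA_l744 _)
                (CovZ.leaf K2_ok TA_l745 _))
               (CovZ.leaf K2_ok TA_l746 _))))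
            (CovZ.n1 (1824, 2148) (by decide +kernel)
             (CovZ.leaf K2_ok TA_l747 _)
             (CovZ.leaf K2_ok TA_l748 _)))
           (CovZ.subM 81346338129918976 (by decide +kernel)
            (CovZ.n1 (1820, 2156) (by decide +kernel)
             (CovZ.n2 (1824, 2156) (by decide +kernel)
              (CovZ.n2 (1822, 2154) (by decide +kernel)
               (CovZ.n2 (1822, 2156) (by decide +kernel)
                (CovZ.leaf K2_ok TA_l749 _)
                (CovZ.n1 (1821, 2155) (by decide +kernel)
                 (CovZ.badM (by decide +kernel))
                 (CovZ.leaf K2_ok TA_l750 _)))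
               (CovZ.leaf K2_ok TA_l751 _))
              (CovZ.subM 8192 (by decide +kernel)
               (CovZ.n1 (1822, 2158) (by decide +kernel)
                (CovZ.n2 (1824, 2158) (by decide +kernel)
                 (CovZ.n2 (1823, 2157) (by decide +kernel)
                  (CovZ.leaf K2_ok TA_l752 _)
                  (CovZ.leaf K2_ok TA_l753 _))
                 (CovZ.badM (by decide +kernel)))
                (CovZ.n1 (1822, 2156) (by decide +kernel)
                 (CovZ.badM (by decide +kernel))
                 (CovZ.n1 (1823, 2157) (by decide +kernel)
                  (CovZ.leaf K2_ok TA_l754 _)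
                  (CovZ.badM (by decide +kernel)))))))
             (CovZ.n1 (1820, 2152) (by decide +kernel)
              (CovZ.n2 (1818, 2154) (by decide +kernel)
               (CovZ.n2 (1820, 2154) (by decide +kernel)
                (CovZ.leaf K2_ok TA_l755 _)
                (CovZ.badM (by decide +kernel)))
               (CovZ.leaf K2_ok TA_l756 _))
              (CovZ.n1 (1822, 2154) (by decide +kernel)
               (CovZ.leaf K2_ok TA_l757 _)
               (CovZ.n1 (1820, 2154) (by decide +kernel)
                (CovZ.n2 (1821, 2155) (by decide +kernel)
                 (CovZ.leaf K2_ok TA_l758 _)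
                 (CovZ.badM (by decide +kernel)))
                (CovZ.leaf K2_ok TA_l759 _))))))))
         (CovZ.badM (by decide +kernel)))))

theorem TA_u13 : CovZ TA_M (toL (selN TA_LN 89509042593988607)) [0, 7, 4, 3] (1824, 2144) (1856, 2112) (1856, 2176) :=
    (CovZ.n1 (1856, 2144) (by decide +kernel)
       (CovZ.n2 (1840, 2128) (by decide +kernel)
        (CovZ.n2 (1840, 2144) (by decide +kernel)
         (CovZ.n2 (1848, 2136) (by decide +kernel)
          (CovZ.n2 (1840, 2136) (by decide +kernel)
           (CovZ.n2 (1844, 2140) (by decide +kernel)
            (CovZ.leaf K2_ok TA_l760 _)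
            (CovZ.leaf K2_ok TA_l761 _))
           (CovZ.leaf K2_ok TA_l762 _))
          (CovZ.n1 (1848, 2144) (by decide +kernel)
           (CovZ.leaf K2_ok TA_l763 _)
           (CovZ.n1 (1844, 2140) (by decide +kernel)
            (CovZ.leaf K2_ok TA_l764 _)
            (CovZ.leaf K2_ok TA_l765 _))))
         (CovZ.n1 (1832, 2136) (by decide +kernel)
          (CovZ.n2 (1832, 2144) (by decide +kernel)
           (CovZ.n2 (1836, 2140) (by decide +kernel)
            (CovZ.leaf K2_ok TA_l766 _)
            (CovZ.leaf K2_ok TA_l767 _))
           (CovZ.n1 (1828, 2140) (by decide +kernel)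
            (CovZ.leaf K2_ok TA_l768 _)
            (CovZ.leaf K2_ok TA_l769 _)))
          (CovZ.n1 (1840, 2136) (by decide +kernel)
           (CovZ.leaf K2_ok TA_l770 _)
           (CovZ.leaf K2_ok TA_l771 _))))
        (CovZ.n1 (1856, 2128) (by decide +kernel)
         (CovZ.n2 (1848, 2120) (by decide +kernel)
          (CovZ.n2 (1848, 2128) (by decide +kernel)
           (CovZ.leaf K2_ok TA_l772 _)
           (CovZ.n1 (1844, 2124) (by decide +kernel)
            (CovZ.leaf K2_ok TA_l773 _)
            (CovZ.leaf K2_ok TA_l774 _)))
          (CovZ.subM 413173824478967 (by decide +kernel)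
           (CovZ.n1 (1856, 2120) (by decide +kernel)
            (CovZ.n2 (1852, 2116) (by decide +kernel)
             (CovZ.n2 (1852, 2120) (by decide +kernel)
              (CovZ.leaf K2_ok TA_l775 _)
              (CovZ.n1 (1850, 2118) (by decide +kernel)
               (CovZ.leaf K2_ok TA_l776 _)
               (CovZ.leaf K2_ok TA_l777 _)))
             (CovZ.n1 (1856, 2116) (by decide +kernel)
              (CovZ.subM 391443352932005 (by decide +kernel)
               (CovZ.n2 (1854, 2114) (by decide +kernel)
                (CovZ.leaf K2_ok TA_l778 _)
                (CovZ.n1 (1856, 2114) (by decide +kernel)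
                 (CovZ.n2 (1855, 2113) (by decide +kernel)
                  (CovZ.leaf K2_ok TA_l779 _)
                  (CovZ.badM (by decide +kernel)))
                 (CovZ.leaf K2_ok TA_l780 _))))
              (CovZ.n1 (1854, 2118) (by decide +kernel)
               (CovZ.leaf K2_ok TA_l781 _)
               (CovZ.leaf K2_ok TA_l782 _))))
            (CovZ.n1 (1852, 2124) (by decide +kernel)
             (CovZ.n2 (1856, 2124) (by decide +kernel)
              (CovZ.leaf K2_ok TA_l783 _)
              (CovZ.leaf K2_ok TA_l784 _))
             (CovZ.leaf K2_ok TA_l785 _)))))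
         (CovZ.n1 (1848, 2136) (by decide +kernel)
          (CovZ.n2 (1856, 2136) (by decide +kernel)
           (CovZ.leaf K2_ok TA_l786 _)
           (CovZ.leaf K2_ok TA_l787 _))
          (CovZ.n1 (1848, 2128) (by decide +kernel)
           (CovZ.leaf K2_ok TA_l788 _)
           (CovZ.leaf K2_ok TA_l789 _)))))
       (CovZ.n1 (1840, 2160) (by decide +kernel)
        (CovZ.n2 (1856, 2160) (by decide +kernel)
         (CovZ.n2 (1848, 2152) (by decide +kernel)
          (CovZ.n2 (1848, 2160) (by decide +kernel)
           (CovZ.n2 (1852, 2156) (by decide +kernel)
            (CovZ.n2 (1848, 2156) (by decide +kernel)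
             (CovZ.n2 (1850, 2158) (by decide +kernel)
              (CovZ.leaf K2_ok TA_l790 _)
              (CovZ.n1 (1848, 2158) (by decide +kernel)
               (CovZ.leaf K2_ok TA_l791 _)
               (CovZ.leaf K2_ok TA_l792 _)))
             (CovZ.leaf K2_ok TA_l793 _))
            (CovZ.n1 (1852, 2160) (by decide +kernel)
             (CovZ.leaf K2_ok TA_l794 _)
             (CovZ.n1 (1850, 2158) (by decide +kernel)
              (CovZ.leaf K2_ok TA_l795 _)
              (CovZ.leaf K2_ok TA_l796 _))))
           (CovZ.n1 (1844, 2156) (by decide +kernel)
            (CovZ.subM 465029015750797 (by decide +kernel)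
             (CovZ.n2 (1844, 2160) (by decide +kernel)
              (CovZ.n2 (1846, 2158) (by decide +kernel)
               (CovZ.n2 (1844, 2158) (by decide +kernel)
                (CovZ.leaf K2_ok TA_l797 _)
                (CovZ.leaf K2_ok TA_l798 _))
               (CovZ.leaf K2_ok TA_l799 _))
              (CovZ.n1 (1842, 2158) (by decide +kernel)
               (CovZ.n2 (1842, 2160) (by decide +kernel)
                (CovZ.leaf K2_ok TA_l800 _)
                (CovZ.leaf K2_ok TA_l801 _))
               (CovZ.leaf K2_ok TA_l802 _))))
            (CovZ.n1 (1848, 2156) (by decide +kernel)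
             (CovZ.n2 (1846, 2154) (by decide +kernel)
              (CovZ.leaf K2_ok TA_l803 _)
              (CovZ.leaf K2_ok TA_l804 _))
             (CovZ.leaf K2_ok TA_l805 _))))
          (CovZ.n1 (1856, 2152) (by decide +kernel)
           (CovZ.n2 (1852, 2148) (by decide +kernel)
            (CovZ.n2 (1852, 2152) (by decide +kernel)
             (CovZ.leaf K2_ok TA_l806 _)
             (CovZ.leaf K2_ok TA_l807 _))
            (CovZ.leaf K2_ok TA_l808 _))
           (CovZ.n1 (1852, 2156) (by decide +kernel)
            (CovZ.n2 (1856, 2156) (by decide +kernel)
             (CovZ.leaf K2_ok TA_l809 _)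
             (CovZ.leaf K2_ok TA_l810 _))
            (CovZ.leaf K2_ok TA_l811 _))))
         (CovZ.subM 458365910861963 (by decide +kernel)
          (CovZ.n1 (1848, 2168) (by decide +kernel)
           (CovZ.n2 (1856, 2168) (by decide +kernel)
            (CovZ.n2 (1852, 2164) (by decide +kernel)
             (CovZ.badM (by decide +kernel))
             (CovZ.n1 (1856, 2164) (by decide +kernel)
              (CovZ.n2 (1854, 2162) (by decide +kernel)
               (CovZ.n2 (1854, 2164) (by decide +kernel)
                (CovZ.leaf K2_ok TA_l812 _)
                (CovZ.leaf K2_ok TA_l813 _))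
               (CovZ.leaf K2_ok TA_l814 _))
              (CovZ.badM (by decide +kernel))))
            (CovZ.badM (by decide +kernel)))
           (CovZ.n1 (1848, 2160) (by decide +kernel)
            (CovZ.subM 457950908925952 (by decide +kernel)
             (CovZ.n2 (1844, 2164) (by decide +kernel)
              (CovZ.n2 (1848, 2164) (by decide +kernel)
               (CovZ.n2 (1846, 2162) (by decide +kernel)
                (CovZ.badM (by decide +kernel))
                (CovZ.n1 (1848, 2162) (by decide +kernel)
                 (CovZ.leaf K2_ok TA_l815 _)
                 (CovZ.badM (by decide +kernel))))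
               (CovZ.badM (by decide +kernel)))
              (CovZ.n1 (1844, 2160) (by decide +kernel)
               (CovZ.subM 281479271694336 (by decide +kernel)
                (CovZ.n2 (1842, 2162) (by decide +kernel)
                 (CovZ.n2 (1844, 2162) (by decide +kernel)
                  (CovZ.n2 (1843, 2161) (by decide +kernel)
                   (CovZ.badM (by decide +kernel))
                   (CovZ.leaf K2_ok TA_l816 _))
                  (CovZ.badM (by decide +kernel)))
                 (CovZ.n1 (1842, 2160) (by decide +kernel)
                  (CovZ.badM (by decide +kernel))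
                  (CovZ.n1 (1843, 2161) (by decide +kernel)
                   (CovZ.leaf K2_ok TA_l817 _)
                   (CovZ.badM (by decide +kernel))))))
               (CovZ.n1 (1846, 2162) (by decide +kernel)
                (CovZ.leaf K2_ok TA_l818 _)
                (CovZ.n1 (1844, 2162) (by decide +kernel)
                 (CovZ.badM (by decide +kernel))
                 (CovZ.n1 (1845, 2161) (by decide +kernel)
                  (CovZ.leaf K2_ok TA_l819 _)
                  (CovZ.badM (by decide +kernel))))))))
            (CovZ.n1 (1852, 2164) (by decide +kernel)
             (CovZ.n2 (1852, 2160) (by decide +kernel)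
              (CovZ.n2 (1850, 2162) (by decide +kernel)
               (CovZ.leaf K2_ok TA_l820 _)
               (CovZ.leaf K2_ok TA_l821 _))
              (CovZ.n1 (1854, 2162) (by decide +kernel)
               (CovZ.leaf K2_ok TA_l822 _)
               (CovZ.leaf K2_ok TA_l823 _)))
             (CovZ.subM 422766536837120 (by decide +kernel)
              (CovZ.n1 (1848, 2164) (by decide +kernel)
               (CovZ.badM (by decide +kernel))
               (CovZ.n1 (1850, 2162) (by decide +kernel)
                (CovZ.n2 (1848, 2162) (by decide +kernel)
                 (CovZ.leaf K2_ok TA_l824 _)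
                 (CovZ.leaf K2_ok TA_l825 _))
                (CovZ.n1 (1850, 2164) (by decide +kernel)
                 (CovZ.n2 (1851, 2163) (by decide +kernel)
                  (CovZ.leaf K2_ok TA_l826 _)
                  (CovZ.badM (by decide +kernel)))
                 (CovZ.leaf K2_ok TA_l827 _))))))))))
        (CovZ.n1 (1840, 2144) (by decide +kernel)
         (CovZ.n2 (1832, 2152) (by decide +kernel)
          (CovZ.n2 (1840, 2152) (by decide +kernel)
           (CovZ.n2 (1836, 2148) (by decide +kernel)
            (CovZ.n2 (1836, 2152) (by decide +kernel)
             (CovZ.leaf K2_ok TA_l828 _)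
             (CovZ.leaf K2_ok TA_l829 _))
            (CovZ.leaf K2_ok TA_l830 _))
           (CovZ.subM 2577188772346511 (by decide +kernel)
            (CovZ.n1 (1836, 2156) (by decide +kernel)
             (CovZ.n2 (1840, 2156) (by decide +kernel)
              (CovZ.n2 (1838, 2154) (by decide +kernel)
               (CovZ.leaf K2_ok TA_l831 _)
               (CovZ.leaf K2_ok TA_l832 _))
              (CovZ.leaf K2_ok TA_l833 _))
             (CovZ.n1 (1836, 2152) (by decide +kernel)
              (CovZ.leaf K2_ok TA_l834 _)
              (CovZ.n1 (1838, 2154) (by decide +kernel)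
               (CovZ.leaf K2_ok TA_l835 _)
               (CovZ.leaf K2_ok TA_l836 _))))))
          (CovZ.n1 (1832, 2144) (by decide +kernel)
           (CovZ.n2 (1828, 2148) (by decide +kernel)
            (CovZ.n2 (1832, 2148) (by decide +kernel)
             (CovZ.leaf K2_ok TA_l837 _)
             (CovZ.leaf K2_ok TA_l838 _))
            (CovZ.leaf K2_ok TA_l839 _))
           (CovZ.n1 (1836, 2148) (by decide +kernel)
            (CovZ.leaf K2_ok TA_l840 _)
            (CovZ.n1 (1832, 2148) (by decide +kernel)
             (CovZ.leaf K2_ok TA_l841 _)
             (CovZ.leaf K2_ok TA_l842 _)))))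
         (CovZ.n1 (1848, 2152) (by decide +kernel)
          (CovZ.n2 (1848, 2144) (by decide +kernel)
           (CovZ.leaf K2_ok TA_l843 _)
           (CovZ.n1 (1852, 2148) (by decide +kernel)
            (CovZ.leaf K2_ok TA_l844 _)
            (CovZ.leaf K2_ok TA_l845 _)))
          (CovZ.n1 (1840, 2152) (by decide +kernel)
           (CovZ.n2 (1844, 2156) (by decide +kernel)
            (CovZ.n2 (1844, 2152) (by decide +kernel)
             (CovZ.leaf K2_ok TA_l846 _)
             (CovZ.n1 (1846, 2154) (by decide +kernel)
              (CovZ.leaf K2_ok TA_l847 _)
              (CovZ.leaf K2_ok TA_l848 _)))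
            (CovZ.subM 325393253620367 (by decide +kernel)
             (CovZ.n1 (1840, 2156) (by decide +kernel)
              (CovZ.n2 (1842, 2158) (by decide +kernel)
               (CovZ.leaf K2_ok TA_l849 _)
               (CovZ.n1 (1840, 2158) (by decide +kernel)
                (CovZ.n2 (1841, 2159) (by decide +kernel)
                 (CovZ.leaf K2_ok TA_l850 _)
                 (CovZ.leaf K2_ok TA_l851 _))
                (CovZ.leaf K2_ok TA_l852 _)))
              (CovZ.n1 (1842, 2154) (by decide +kernel)
               (CovZ.leaf K2_ok TA_l853 _)
               (CovZ.leaf K2_ok TA_l854 _)))))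
           (CovZ.n1 (1844, 2148) (by decide +kernel)
            (CovZ.leaf K2_ok TA_l855 _)
            (CovZ.n1 (1844, 2152) (by decide +kernel)
             (CovZ.leaf K2_ok TA_l856 _)
             (CovZ.leaf K2_ok TA_l857 _))))))))

end Pool.Agent.TET
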