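import Pool.Agent.Helper38_TET.GridY
import Pool.Agent.Helper38_TET.TA_M
import Pool.Agent.Helper38_TET.TA_L
import Pool.Agent.Helper38_TET.TA_6
import Pool.Agent.Helper38_TET.TA_7
import Pool.Agent.Helper38_TET.TA_8

/-!
# MP_c7c9bf_co: certificates, family TA
-/

set_option autoImplicit false
set_option maxRecDepth 100000

namespace Pool.Agent.TET

theorem TA_u14 : CovZ TA_M (toL (selN TA_LN 5857818102831575)) [0, 7, 4, 3] (1856, 2112) (1888, 2112) (1888, 2144) :=
    (CovZ.n2 (1872, 2128) (by decide +kernel)
         (CovZ.n2 (1888, 2128) (by decide +kernel)
          (CovZ.subM 216636104214679 (by decide +kernel)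
           (CovZ.n2 (1880, 2120) (by decide +kernel)
            (CovZ.n2 (1880, 2128) (by decide +kernel)
             (CovZ.subM 74792560525441 (by decide +kernel)
              (CovZ.n2 (1884, 2124) (by decide +kernel)
               (CovZ.n2 (1880, 2124) (by decide +kernel)
                (CovZ.n2 (1882, 2126) (by decide +kernel)
                 (CovZ.badM (by decide +kernel))
                 (CovZ.n1 (1880, 2126) (by decide +kernel)
                  (CovZ.leaf K2_ok TA_l933 _)
                  (CovZ.leaf K2_ok TA_l934 _)))
                (CovZ.badM (by decide +kernel)))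
               (CovZ.n1 (1884, 2128) (by decide +kernel)
                (CovZ.badM (by decide +kernel))
                (CovZ.n1 (1882, 2126) (by decide +kernel)
                 (CovZ.n2 (1882, 2128) (by decide +kernel)
                  (CovZ.leaf K2_ok TA_l935 _)
                  (CovZ.n1 (1881, 2127) (by decide +kernel)
                   (CovZ.leaf K2_ok TA_l936 _)
                   (CovZ.leaf K2_ok TA_l937 _)))
                 (CovZ.badM (by decide +kernel))))))
             (CovZ.n1 (1876, 2124) (by decide +kernel)
              (CovZ.n2 (1876, 2128) (by decide +kernel)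
               (CovZ.n2 (1878, 2126) (by decide +kernel)
                (CovZ.n2 (1876, 2126) (by decide +kernel)
                 (CovZ.leaf K2_ok TA_l938 _)
                 (CovZ.leaf K2_ok TA_l939 _))
                (CovZ.leaf K2_ok TA_l940 _))
               (CovZ.n1 (1874, 2126) (by decide +kernel)
                (CovZ.leaf K2_ok TA_l941 _)
                (CovZ.n1 (1876, 2126) (by decide +kernel)
                 (CovZ.leaf K2_ok TA_l942 _)
                 (CovZ.leaf K2_ok TA_l943 _))))
              (CovZ.subM 74792560525441 (by decide +kernel)
               (CovZ.n1 (1880, 2124) (by decide +kernel)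
                (CovZ.badM (by decide +kernel))
                (CovZ.n1 (1878, 2126) (by decide +kernel)
                 (CovZ.n2 (1880, 2126) (by decide +kernel)
                  (CovZ.n2 (1879, 2125) (by decide +kernel)
                   (CovZ.leaf K2_ok TA_l944 _)
                   (CovZ.leaf K2_ok TA_l945 _))
                  (CovZ.leaf K2_ok TA_l946 _))
                 (CovZ.n1 (1878, 2124) (by decide +kernel)
                  (CovZ.leaf K2_ok TA_l947 _)
                  (CovZ.n1 (1879, 2125) (by decide +kernel)
                   (CovZ.badM (by decide +kernel))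
                   (CovZ.leaf K2_ok TA_l948 _))))))))
            (CovZ.badM (by decide +kernel))))
          (CovZ.n1 (1880, 2136) (by decide +kernel)
           (CovZ.n2 (1888, 2136) (by decide +kernel)
            (CovZ.n2 (1884, 2132) (by decide +kernel)
             (CovZ.leaf K2_ok TA_l949 _)
             (CovZ.subM 75898565001413 (by decide +kernel)
              (CovZ.n1 (1888, 2132) (by decide +kernel)
               (CovZ.n2 (1886, 2130) (by decide +kernel)
                (CovZ.leaf K2_ok TA_l950 _)
                (CovZ.n1 (1888, 2130) (by decide +kernel)
                 (CovZ.n2 (1887, 2129) (by decide +kernel)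
                  (CovZ.leaf K2_ok TA_l951 _)
                  (CovZ.leaf K2_ok TA_l952 _))
                 (CovZ.leaf K2_ok TA_l953 _)))
               (CovZ.leaf K2_ok TA_l954 _))))
            (CovZ.n1 (1884, 2140) (by decide +kernel)
             (CovZ.leaf K2_ok TA_l955 _)
             (CovZ.leaf K2_ok TA_l956 _)))
           (CovZ.n1 (1880, 2128) (by decide +kernel)
            (CovZ.n2 (1876, 2132) (by decide +kernel)
             (CovZ.n2 (1880, 2132) (by decide +kernel)
              (CovZ.n2 (1878, 2130) (by decide +kernel)
               (CovZ.leaf K2_ok TA_l957 _)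
               (CovZ.leaf K2_ok TA_l958 _))
              (CovZ.leaf K2_ok TA_l959 _))
             (CovZ.n1 (1876, 2128) (by decide +kernel)
              (CovZ.leaf K2_ok TA_l960 _)
              (CovZ.leaf K2_ok TA_l961 _)))
            (CovZ.n1 (1884, 2132) (by decide +kernel)
             (CovZ.subM 75896367186053 (by decide +kernel)
              (CovZ.n2 (1884, 2128) (by decide +kernel)
               (CovZ.n2 (1882, 2130) (by decide +kernel)
                (CovZ.n2 (1884, 2130) (by decide +kernel)
                 (CovZ.leaf K2_ok TA_l962 _)
                 (CovZ.leaf K2_ok TA_l963 _))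
                (CovZ.leaf K2_ok TA_l964 _))
               (CovZ.n1 (1886, 2130) (by decide +kernel)
                (CovZ.n2 (1886, 2128) (by decide +kernel)
                 (CovZ.leaf K2_ok TA_l965 _)
                 (CovZ.n1 (1887, 2129) (by decide +kernel)
                  (CovZ.badM (by decide +kernel))
                  (CovZ.leaf K2_ok TA_l966 _)))
                (CovZ.n1 (1884, 2130) (by decide +kernel)
                 (CovZ.leaf K2_ok TA_l967 _)
                 (CovZ.leaf K2_ok TA_l968 _)))))
             (CovZ.n1 (1880, 2132) (by decide +kernel)
              (CovZ.leaf K2_ok TA_l969 _)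
              (CovZ.leaf K2_ok TA_l970 _))))))
         (CovZ.subM 75898615859351 (by decide +kernel)
          (CovZ.n1 (1872, 2112) (by decide +kernel)
           (CovZ.n2 (1864, 2120) (by decide +kernel)
            (CovZ.n2 (1872, 2120) (by decide +kernel)
             (CovZ.subM 4398047037573 (by decide +kernel)
              (CovZ.n2 (1868, 2116) (by decide +kernel)
               (CovZ.n2 (1868, 2120) (by decide +kernel)
                (CovZ.badM (by decide +kernel))
                (CovZ.n1 (1866, 2118) (by decide +kernel)
                 (CovZ.n2 (1866, 2120) (by decide +kernel)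
                  (CovZ.leaf K2_ok TA_l971 _)
                  (CovZ.n1 (1865, 2119) (by decide +kernel)
                   (CovZ.leaf K2_ok TA_l972 _)
                   (CovZ.leaf K2_ok TA_l973 _)))
                 (CovZ.badM (by decide +kernel))))
               (CovZ.badM (by decide +kernel))))
             (CovZ.n1 (1868, 2124) (by decide +kernel)
              (CovZ.n2 (1872, 2124) (by decide +kernel)
               (CovZ.n2 (1870, 2122) (by decide +kernel)
                (CovZ.leaf K2_ok TA_l974 _)
                (CovZ.n1 (1872, 2122) (by decide +kernel)
                 (CovZ.n2 (1871, 2121) (by decide +kernel)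
                  (CovZ.leaf K2_ok TA_l975 _)
                  (CovZ.badM (by decide +kernel)))
                 (CovZ.leaf K2_ok TA_l976 _)))
               (CovZ.leaf K2_ok TA_l977 _))
              (CovZ.n1 (1868, 2120) (by decide +kernel)
               (CovZ.n2 (1866, 2122) (by decide +kernel)
                (CovZ.leaf K2_ok TA_l978 _)
                (CovZ.n1 (1866, 2120) (by decide +kernel)
                 (CovZ.leaf K2_ok TA_l979 _)
                 (CovZ.leaf K2_ok TA_l980 _)))
               (CovZ.n1 (1870, 2122) (by decide +kernel)
                (CovZ.subM 4398046513280 (by decide +kernel)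
                 (CovZ.n2 (1870, 2120) (by decide +kernel)
                  (CovZ.n2 (1869, 2121) (by decide +kernel)
                   (CovZ.n2 (1870, 2121) (by decide +kernel)
                    (CovZ.badM (by decide +kernel))
                    (CovZ.leaf K2_ok TA_l981 _))
                   (CovZ.badM (by decide +kernel)))
                  (CovZ.n1 (1871, 2121) (by decide +kernel)
                   (CovZ.badM (by decide +kernel))
                   (CovZ.n1 (1870, 2121) (by decide +kernel)
                    (CovZ.leaf K2_ok TA_l982 _)
                    (CovZ.badM (by decide +kernel))))))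
                (CovZ.leaf K2_ok TA_l983 _)))))
            (CovZ.subM 4398047037573 (by decide +kernel)
             (CovZ.n1 (1864, 2112) (by decide +kernel)
              (CovZ.n2 (1860, 2116) (by decide +kernel)
               (CovZ.n2 (1864, 2116) (by decide +kernel)
                (CovZ.badM (by decide +kernel))
                (CovZ.n1 (1862, 2118) (by decide +kernel)
                 (CovZ.n2 (1864, 2118) (by decide +kernel)
                  (CovZ.n2 (1863, 2117) (by decide +kernel)
                   (CovZ.leaf K2_ok TA_l984 _)
                   (CovZ.badM (by decide +kernel)))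
                  (CovZ.leaf K2_ok TA_l985 _))
                 (CovZ.n1 (1862, 2116) (by decide +kernel)
                  (CovZ.leaf K2_ok TA_l986 _)
                  (CovZ.n1 (1863, 2117) (by decide +kernel)
                   (CovZ.badM (by decide +kernel))
                   (CovZ.leaf K2_ok TA_l987 _)))))
               (CovZ.badM (by decide +kernel)))
              (CovZ.n1 (1868, 2116) (by decide +kernel)
               (CovZ.badM (by decide +kernel))
               (CovZ.n1 (1864, 2116) (by decide +kernel)
                (CovZ.n2 (1866, 2118) (by decide +kernel)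
                 (CovZ.badM (by decide +kernel))
                 (CovZ.n1 (1864, 2118) (by decide +kernel)
                  (CovZ.n2 (1865, 2119) (by decide +kernel)
                   (CovZ.badM (by decide +kernel))
                   (CovZ.leaf K2_ok TA_l988 _))
                  (CovZ.badM (by decide +kernel))))
                (CovZ.badM (by decide +kernel)))))))
           (CovZ.n1 (1880, 2120) (by decide +kernel)
            (CovZ.badM (by decide +kernel))
            (CovZ.n1 (1872, 2120) (by decide +kernel)
             (CovZ.n2 (1876, 2124) (by decide +kernel)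
              (CovZ.badM (by decide +kernel))
              (CovZ.n1 (1872, 2124) (by decide +kernel)
               (CovZ.n2 (1874, 2126) (by decide +kernel)
                (CovZ.leaf K2_ok TA_l989 _)
                (CovZ.leaf K2_ok TA_l990 _))
               (CovZ.subM 74783970560129 (by decide +kernel)
                (CovZ.n1 (1874, 2122) (by decide +kernel)
                 (CovZ.n2 (1872, 2122) (by decide +kernel)
                  (CovZ.n2 (1873, 2123) (by decide +kernel)
                   (CovZ.badM (by decide +kernel))
                   (CovZ.leaf K2_ok TA_l991 _))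
                  (CovZ.badM (by decide +kernel)))
                 (CovZ.n1 (1874, 2124) (by decide +kernel)
                  (CovZ.leaf K2_ok TA_l992 _)
                  (CovZ.n1 (1873, 2123) (by decide +kernel)
                   (CovZ.leaf K2_ok TA_l993 _)
                   (CovZ.leaf K2_ok TA_l994 _)))))))
             (CovZ.badM (by decide +kernel)))))))

theorem TA_u15 : CovZ TA_M (toL (selN TA_LN 5857818102831575)) [0, 7, 4, 3] (1888, 2112) (1920, 2112) (1888, 2144) :=
    (CovZ.n1 (1904, 2128) (by decide +kernel)
         (CovZ.badM (by decide +kernel))
         (CovZ.n1 (1888, 2128) (by decide +kernel)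
          (CovZ.n2 (1896, 2136) (by decide +kernel)
           (CovZ.subM 74796872302721 (by decide +kernel)
            (CovZ.n2 (1896, 2128) (by decide +kernel)
             (CovZ.n2 (1892, 2132) (by decide +kernel)
              (CovZ.n2 (1896, 2132) (by decide +kernel)
               (CovZ.subM 70394513981568 (by decide +kernel)
                (CovZ.n2 (1894, 2130) (by decide +kernel)
                 (CovZ.n2 (1894, 2132) (by decide +kernel)
                  (CovZ.leaf K2_ok TA_l995 _)
                  (CovZ.n1 (1893, 2131) (by decide +kernel)
                   (CovZ.leaf K2_ok TA_l996 _)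
                   (CovZ.leaf K2_ok TA_l997 _)))
                 (CovZ.badM (by decide +kernel))))
               (CovZ.n1 (1894, 2134) (by decide +kernel)
                (CovZ.leaf K2_ok TA_l998 _)
                (CovZ.n1 (1894, 2132) (by decide +kernel)
                 (CovZ.leaf K2_ok TA_l999 _)
                 (CovZ.n1 (1895, 2133) (by decide +kernel)
                  (CovZ.leaf K2_ok TA_l1000 _)
                  (CovZ.leaf K2_ok TA_l1001 _)))))
              (CovZ.subM 70394513981568 (by decide +kernel)
               (CovZ.n1 (1892, 2128) (by decide +kernel)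
                (CovZ.n2 (1890, 2130) (by decide +kernel)
                 (CovZ.n2 (1892, 2130) (by decide +kernel)
                  (CovZ.badM (by decide +kernel))
                  (CovZ.leaf K2_ok TA_l1002 _))
                 (CovZ.badM (by decide +kernel)))
                (CovZ.n1 (1894, 2130) (by decide +kernel)
                 (CovZ.badM (by decide +kernel))
                 (CovZ.n1 (1892, 2130) (by decide +kernel)
                  (CovZ.n2 (1893, 2131) (by decide +kernel)
                   (CovZ.badM (by decide +kernel))
                   (CovZ.n1 (1892, 2131) (by decide +kernel)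
                    (CovZ.leaf K2_ok TA_l1003 _)
                    (CovZ.leaf K2_ok TA_l1004 _)))
                  (CovZ.badM (by decide +kernel)))))))
             (CovZ.n1 (1900, 2132) (by decide +kernel)
              (CovZ.badM (by decide +kernel))
              (CovZ.n1 (1896, 2132) (by decide +kernel)
               (CovZ.n2 (1898, 2134) (by decide +kernel)
                (CovZ.n2 (1898, 2132) (by decide +kernel)
                 (CovZ.leaf K2_ok TA_l1005 _)
                 (CovZ.leaf K2_ok TA_l1006 _))
                (CovZ.n1 (1896, 2134) (by decide +kernel)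
                 (CovZ.leaf K2_ok TA_l1007 _)
                 (CovZ.leaf K2_ok TA_l1008 _)))
               (CovZ.badM (by decide +kernel))))))
           (CovZ.n1 (1888, 2136) (by decide +kernel)
            (CovZ.n2 (1892, 2140) (by decide +kernel)
             (CovZ.leaf K2_ok TA_l1009 _)
             (CovZ.leaf K2_ok TA_l1010 _))
            (CovZ.subM 75898564968645 (by decide +kernel)
             (CovZ.n1 (1892, 2132) (by decide +kernel)
              (CovZ.n2 (1888, 2132) (by decide +kernel)
               (CovZ.n2 (1890, 2134) (by decide +kernel)
                (CovZ.leaf K2_ok TA_l1011 _)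
                (CovZ.leaf K2_ok TA_l1012 _))
               (CovZ.n1 (1890, 2130) (by decide +kernel)
                (CovZ.n2 (1888, 2130) (by decide +kernel)
                 (CovZ.leaf K2_ok TA_l1013 _)
                 (CovZ.leaf K2_ok TA_l1014 _))
                (CovZ.leaf K2_ok TA_l1015 _)))
              (CovZ.n1 (1892, 2136) (by decide +kernel)
               (CovZ.leaf K2_ok TA_l1016 _)
               (CovZ.n1 (1890, 2134) (by decide +kernel)
                (CovZ.leaf K2_ok TA_l1017 _)
                (CovZ.leaf K2_ok TA_l1018 _)))))))
          (CovZ.badM (by decide +kernel))))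

theorem TA_u16 : CovZ TA_M (toL (selN TA_LN 1673058320721)) [0, 7, 4, 3] (1920, 2176) (1984, 2176) (1984, 2240) :=
    (CovZ.n2 (1952, 2208) (by decide +kernel)
       (CovZ.n2 (1984, 2208) (by decide +kernel)
        (CovZ.n2 (1968, 2192) (by decide +kernel)
         (CovZ.n2 (1968, 2208) (by decide +kernel)
          (CovZ.n2 (1976, 2200) (by decide +kernel)
           (CovZ.leaf K2_ok TA_l1188 _)
           (CovZ.n1 (1976, 2208) (by decide +kernel)
            (CovZ.leaf K2_ok TA_l1189 _)
            (CovZ.leaf K2_ok TA_l1190 _)))
          (CovZ.n1 (1960, 2200) (by decide +kernel)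
           (CovZ.n2 (1960, 2208) (by decide +kernel)
            (CovZ.leaf K2_ok TA_l1191 _)
            (CovZ.n1 (1956, 2204) (by decide +kernel)
             (CovZ.leaf K2_ok TA_l1192 _)
             (CovZ.leaf K2_ok TA_l1193 _)))
           (CovZ.leaf K2_ok TA_l1194 _)))
         (CovZ.n1 (1984, 2192) (by decide +kernel)
          (CovZ.n2 (1976, 2184) (by decide +kernel)
           (CovZ.leaf K2_ok TA_l1195 _)
           (CovZ.n1 (1984, 2184) (by decide +kernel)
            (CovZ.n2 (1980, 2180) (by decide +kernel)
             (CovZ.leaf K2_ok TA_l1196 _)
             (CovZ.leaf K2_ok TA_l1197 _))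
            (CovZ.leaf K2_ok TA_l1198 _)))
          (CovZ.n1 (1976, 2200) (by decide +kernel)
           (CovZ.leaf K2_ok TA_l1199 _)
           (CovZ.leaf K2_ok TA_l1200 _))))
        (CovZ.subM 2181300224 (by decide +kernel)
         (CovZ.n1 (1968, 2224) (by decide +kernel)
          (CovZ.n2 (1984, 2224) (by decide +kernel)
           (CovZ.n2 (1976, 2216) (by decide +kernel)
            (CovZ.n2 (1976, 2224) (by decide +kernel)
             (CovZ.leaf K2_ok TA_l1201 _)
             (CovZ.n1 (1972, 2220) (by decide +kernel)
              (CovZ.leaf K2_ok TA_l1202 _)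
              (CovZ.leaf K2_ok TA_l1203 _)))
            (CovZ.n1 (1984, 2216) (by decide +kernel)
             (CovZ.leaf K2_ok TA_l1204 _)
             (CovZ.leaf K2_ok TA_l1205 _)))
           (CovZ.n1 (1976, 2232) (by decide +kernel)
            (CovZ.n2 (1984, 2232) (by decide +kernel)
             (CovZ.n2 (1980, 2228) (by decide +kernel)
              (CovZ.badM (by decide +kernel))
              (CovZ.leaf K2_ok TA_l1206 _))
             (CovZ.badM (by decide +kernel)))
            (CovZ.n1 (1976, 2224) (by decide +kernel)
             (CovZ.badM (by decide +kernel))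
             (CovZ.n1 (1980, 2228) (by decide +kernel)
              (CovZ.leaf K2_ok TA_l1207 _)
              (CovZ.badM (by decide +kernel))))))
          (CovZ.n1 (1968, 2208) (by decide +kernel)
           (CovZ.n2 (1960, 2216) (by decide +kernel)
            (CovZ.n2 (1968, 2216) (by decide +kernel)
             (CovZ.n2 (1964, 2212) (by decide +kernel)
              (CovZ.leaf K2_ok TA_l1208 _)
              (CovZ.leaf K2_ok TA_l1209 _))
             (CovZ.n1 (1964, 2220) (by decide +kernel)
              (CovZ.leaf K2_ok TA_l1210 _)
              (CovZ.leaf K2_ok TA_l1211 _)))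
            (CovZ.n1 (1960, 2208) (by decide +kernel)
             (CovZ.leaf K2_ok TA_l1212 _)
             (CovZ.n1 (1964, 2212) (by decide +kernel)
              (CovZ.leaf K2_ok TA_l1213 _)
              (CovZ.leaf K2_ok TA_l1214 _))))
           (CovZ.n1 (1976, 2216) (by decide +kernel)
            (CovZ.leaf K2_ok TA_l1215 _)
            (CovZ.n1 (1968, 2216) (by decide +kernel)
             (CovZ.n2 (1972, 2220) (by decide +kernel)
              (CovZ.leaf K2_ok TA_l1216 _)
              (CovZ.leaf K2_ok TA_l1217 _))
             (CovZ.leaf K2_ok TA_l1218 _)))))))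
       (CovZ.n1 (1952, 2176) (by decide +kernel)
        (CovZ.n2 (1936, 2192) (by decide +kernel)
         (CovZ.n2 (1952, 2192) (by decide +kernel)
          (CovZ.n2 (1944, 2184) (by decide +kernel)
           (CovZ.n2 (1944, 2192) (by decide +kernel)
            (CovZ.leaf K2_ok TA_l1219 _)
            (CovZ.n1 (1940, 2188) (by decide +kernel)
             (CovZ.leaf K2_ok TA_l1220 _)
             (CovZ.leaf K2_ok TA_l1221 _)))
           (CovZ.leaf K2_ok TA_l1222 _))
          (CovZ.subM 19361693696 (by decide +kernel)
           (CovZ.n1 (1944, 2200) (by decide +kernel)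
            (CovZ.n2 (1952, 2200) (by decide +kernel)
             (CovZ.n2 (1948, 2196) (by decide +kernel)
              (CovZ.leaf K2_ok TA_l1223 _)
              (CovZ.leaf K2_ok TA_l1224 _))
             (CovZ.leaf K2_ok TA_l1225 _))
            (CovZ.n1 (1944, 2192) (by decide +kernel)
             (CovZ.leaf K2_ok TA_l1226 _)
             (CovZ.n1 (1948, 2196) (by decide +kernel)
              (CovZ.leaf K2_ok TA_l1227 _)
              (CovZ.leaf K2_ok TA_l1228 _))))))
         (CovZ.n1 (1936, 2176) (by decide +kernel)
          (CovZ.n2 (1928, 2184) (by decide +kernel)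
           (CovZ.n2 (1936, 2184) (by decide +kernel)
            (CovZ.leaf K2_ok TA_l1229 _)
            (CovZ.leaf K2_ok TA_l1230 _))
           (CovZ.n1 (1928, 2176) (by decide +kernel)
            (CovZ.leaf K2_ok TA_l1231 _)
            (CovZ.leaf K2_ok TA_l1232 _)))
          (CovZ.n1 (1944, 2184) (by decide +kernel)
           (CovZ.leaf K2_ok TA_l1233 _)
           (CovZ.n1 (1936, 2184) (by decide +kernel)
            (CovZ.n2 (1940, 2188) (by decide +kernel)
             (CovZ.leaf K2_ok TA_l1234 _)
             (CovZ.leaf K2_ok TA_l1235 _))
            (CovZ.leaf K2_ok TA_l1236 _)))))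
        (CovZ.n1 (1968, 2192) (by decide +kernel)
         (CovZ.n2 (1968, 2176) (by decide +kernel)
          (CovZ.leaf K2_ok TA_l1237 _)
          (CovZ.n1 (1976, 2184) (by decide +kernel)
           (CovZ.leaf K2_ok TA_l1238 _)
           (CovZ.leaf K2_ok TA_l1239 _)))
         (CovZ.n1 (1952, 2192) (by decide +kernel)
          (CovZ.n2 (1960, 2200) (by decide +kernel)
           (CovZ.leaf K2_ok TA_l1240 _)
           (CovZ.n1 (1952, 2200) (by decide +kernel)
            (CovZ.n2 (1956, 2204) (by decide +kernel)
             (CovZ.leaf K2_ok TA_l1241 _)
             (CovZ.leaf K2_ok TA_l1242 _))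
            (CovZ.leaf K2_ok TA_l1243 _)))
          (CovZ.leaf K2_ok TA_l1244 _)))))

theorem TA_u17 : CovZ TA_M (toL (selN TA_LN 1673058320721)) [0, 7, 4, 3] (1984, 2176) (2048, 2176) (1984, 2240) :=
    (CovZ.n1 (2016, 2208) (by decide +kernel)
       (CovZ.subM 33816849 (by decide +kernel)
        (CovZ.n2 (2016, 2176) (by decide +kernel)
         (CovZ.n2 (2000, 2192) (by decide +kernel)
          (CovZ.n2 (2016, 2192) (by decide +kernel)
           (CovZ.n2 (2008, 2184) (by decide +kernel)
            (CovZ.n2 (2008, 2192) (by decide +kernel)
             (CovZ.n2 (2012, 2188) (by decide +kernel)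
              (CovZ.n2 (2008, 2188) (by decide +kernel)
               (CovZ.leaf K2_ok TA_l1245 _)
               (CovZ.badM (by decide +kernel)))
              (CovZ.leaf K2_ok TA_l1246 _))
             (CovZ.n1 (2004, 2188) (by decide +kernel)
              (CovZ.leaf K2_ok TA_l1247 _)
              (CovZ.n1 (2008, 2188) (by decide +kernel)
               (CovZ.badM (by decide +kernel))
               (CovZ.leaf K2_ok TA_l1248 _))))
            (CovZ.badM (by decide +kernel)))
           (CovZ.n1 (2008, 2200) (by decide +kernel)
            (CovZ.n2 (2016, 2200) (by decide +kernel)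
             (CovZ.badM (by decide +kernel))
             (CovZ.n1 (2012, 2204) (by decide +kernel)
              (CovZ.leaf K2_ok TA_l1249 _)
              (CovZ.leaf K2_ok TA_l1250 _)))
            (CovZ.n1 (2008, 2192) (by decide +kernel)
             (CovZ.leaf K2_ok TA_l1251 _)
             (CovZ.n1 (2012, 2196) (by decide +kernel)
              (CovZ.leaf K2_ok TA_l1252 _)
              (CovZ.leaf K2_ok TA_l1253 _)))))
          (CovZ.n1 (2000, 2176) (by decide +kernel)
           (CovZ.n2 (1992, 2184) (by decide +kernel)
            (CovZ.n2 (2000, 2184) (by decide +kernel)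
             (CovZ.n2 (1996, 2180) (by decide +kernel)
              (CovZ.leaf K2_ok TA_l1254 _)
              (CovZ.badM (by decide +kernel)))
             (CovZ.leaf K2_ok TA_l1255 _))
            (CovZ.n1 (1992, 2176) (by decide +kernel)
             (CovZ.n2 (1988, 2180) (by decide +kernel)
              (CovZ.leaf K2_ok TA_l1256 _)
              (CovZ.badM (by decide +kernel)))
             (CovZ.n1 (1996, 2180) (by decide +kernel)
              (CovZ.badM (by decide +kernel))
              (CovZ.leaf K2_ok TA_l1257 _))))
           (CovZ.n1 (2008, 2184) (by decide +kernel)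
            (CovZ.badM (by decide +kernel))
            (CovZ.n1 (2000, 2184) (by decide +kernel)
             (CovZ.n2 (2004, 2188) (by decide +kernel)
              (CovZ.leaf K2_ok TA_l1258 _)
              (CovZ.leaf K2_ok TA_l1259 _))
             (CovZ.badM (by decide +kernel))))))
         (CovZ.n1 (2032, 2192) (by decide +kernel)
          (CovZ.badM (by decide +kernel))
          (CovZ.n1 (2016, 2192) (by decide +kernel)
           (CovZ.n2 (2024, 2200) (by decide +kernel)
            (CovZ.badM (by decide +kernel))
            (CovZ.n1 (2016, 2200) (by decide +kernel)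
             (CovZ.n2 (2020, 2204) (by decide +kernel)
              (CovZ.badM (by decide +kernel))
              (CovZ.leaf K2_ok TA_l1260 _))
             (CovZ.badM (by decide +kernel))))
           (CovZ.badM (by decide +kernel))))))
       (CovZ.n1 (1984, 2208) (by decide +kernel)
        (CovZ.subM 1101693452305 (by decide +kernel)
         (CovZ.n2 (2000, 2224) (by decide +kernel)
          (CovZ.n2 (2000, 2208) (by decide +kernel)
           (CovZ.subM 2181300224 (by decide +kernel)
            (CovZ.n2 (1992, 2216) (by decide +kernel)
             (CovZ.n2 (2000, 2216) (by decide +kernel)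
              (CovZ.n2 (1996, 2212) (by decide +kernel)
               (CovZ.leaf K2_ok TA_l1261 _)
               (CovZ.leaf K2_ok TA_l1262 _))
              (CovZ.n1 (1996, 2220) (by decide +kernel)
               (CovZ.leaf K2_ok TA_l1263 _)
               (CovZ.leaf K2_ok TA_l1264 _)))
             (CovZ.n1 (1992, 2208) (by decide +kernel)
              (CovZ.leaf K2_ok TA_l1265 _)
              (CovZ.n1 (1996, 2212) (by decide +kernel)
               (CovZ.leaf K2_ok TA_l1266 _)
               (CovZ.leaf K2_ok TA_l1267 _)))))
           (CovZ.subM 1099511627792 (by decide +kernel)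
            (CovZ.n1 (2008, 2216) (by decide +kernel)
             (CovZ.n2 (2008, 2208) (by decide +kernel)
              (CovZ.leaf K2_ok TA_l1268 _)
              (CovZ.n1 (2012, 2212) (by decide +kernel)
               (CovZ.leaf K2_ok TA_l1269 _)
               (CovZ.leaf K2_ok TA_l1270 _)))
             (CovZ.badM (by decide +kernel)))))
          (CovZ.subM 2181300224 (by decide +kernel)
           (CovZ.n1 (1984, 2224) (by decide +kernel)
            (CovZ.n2 (1992, 2232) (by decide +kernel)
             (CovZ.n2 (1992, 2224) (by decide +kernel)
              (CovZ.n2 (1988, 2228) (by decide +kernel)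
               (CovZ.leaf K2_ok TA_l1271 _)
               (CovZ.leaf K2_ok TA_l1272 _))
              (CovZ.n1 (1996, 2228) (by decide +kernel)
               (CovZ.leaf K2_ok TA_l1273 _)
               (CovZ.n1 (1992, 2228) (by decide +kernel)
                (CovZ.leaf K2_ok TA_l1274 _)
                (CovZ.leaf K2_ok TA_l1275 _))))
             (CovZ.n1 (1984, 2232) (by decide +kernel)
              (CovZ.badM (by decide +kernel))
              (CovZ.n1 (1988, 2228) (by decide +kernel)
               (CovZ.n2 (1984, 2228) (by decide +kernel)
                (CovZ.leaf K2_ok TA_l1276 _)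
                (CovZ.leaf K2_ok TA_l1277 _))
               (CovZ.n1 (1988, 2232) (by decide +kernel)
                (CovZ.leaf K2_ok TA_l1278 _)
                (CovZ.leaf K2_ok TA_l1279 _)))))
            (CovZ.n1 (1992, 2216) (by decide +kernel)
             (CovZ.n2 (1984, 2216) (by decide +kernel)
              (CovZ.n2 (1988, 2220) (by decide +kernel)
               (CovZ.leaf K2_ok TA_l1280 _)
               (CovZ.leaf K2_ok TA_l1281 _))
              (CovZ.leaf K2_ok TA_l1282 _))
             (CovZ.n1 (1992, 2224) (by decide +kernel)
              (CovZ.n2 (1996, 2220) (by decide +kernel)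
               (CovZ.leaf K2_ok TA_l1283 _)
               (CovZ.leaf K2_ok TA_l1284 _))
              (CovZ.n1 (1988, 2220) (by decide +kernel)
               (CovZ.leaf K2_ok TA_l1285 _)
               (CovZ.leaf K2_ok TA_l1286 _))))))))
        (CovZ.n1 (2000, 2192) (by decide +kernel)
         (CovZ.n2 (1984, 2192) (by decide +kernel)
          (CovZ.n2 (1992, 2200) (by decide +kernel)
           (CovZ.leaf K2_ok TA_l1287 _)
           (CovZ.n1 (1984, 2200) (by decide +kernel)
            (CovZ.leaf K2_ok TA_l1288 _)
            (CovZ.leaf K2_ok TA_l1289 _)))
          (CovZ.n1 (1992, 2184) (by decide +kernel)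
           (CovZ.n2 (1984, 2184) (by decide +kernel)
            (CovZ.leaf K2_ok TA_l1290 _)
            (CovZ.leaf K2_ok TA_l1291 _))
           (CovZ.leaf K2_ok TA_l1292 _)))
         (CovZ.subM 1101692928273 (by decide +kernel)
          (CovZ.n1 (2000, 2208) (by decide +kernel)
           (CovZ.subM 33554705 (by decide +kernel)
            (CovZ.n2 (2008, 2200) (by decide +kernel)
             (CovZ.n2 (2000, 2200) (by decide +kernel)
              (CovZ.leaf K2_ok TA_l1293 _)
              (CovZ.leaf K2_ok TA_l1294 _))
             (CovZ.n1 (2008, 2208) (by decide +kernel)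
              (CovZ.leaf K2_ok TA_l1295 _)
              (CovZ.leaf K2_ok TA_l1296 _))))
           (CovZ.n1 (1992, 2200) (by decide +kernel)
            (CovZ.n2 (1992, 2208) (by decide +kernel)
             (CovZ.leaf K2_ok TA_l1297 _)
             (CovZ.leaf K2_ok TA_l1298 _))
            (CovZ.n1 (2000, 2200) (by decide +kernel)
             (CovZ.leaf K2_ok TA_l1299 _)
             (CovZ.leaf K2_ok TA_l1300 _))))))))

end Pool.Agent.TET
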