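import Pool.Agent.Helper38_TET.GridY
import Pool.Agent.Helper38_TET.TA_M
import Pool.Agent.Helper38_TET.TA_L
import Pool.Agent.Helper38_TET.TA_2
import Pool.Agent.Helper38_TET.TA_5
import Pool.Agent.Helper38_TET.TA_6
import Pool.Agent.Helper38_TET.TA_7
import Pool.Agent.Helper38_TET.TA_8
import Pool.Agent.Helper38_TET.TA_9
import Pool.Agent.Helper38_TET.TA_10
import Pool.Agent.Helper38_TET.TA_U0
import Pool.Agent.Helper38_TET.TA_U1

/-!
# MP_c7c9bf_co: certificates, family TA
-/

set_option autoImplicit false
set_option maxRecDepth 100000

namespace Pool.Agent.TET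

theorem TA_s0_0 : SqY TA_M TA_L [0, 7, 4, 3] 1408 1792 128 0 0 :=
  SqY.mk (a := 1408) (b := 1536) (c := 1792) (d := 1920) (by norm_num) (by norm_num) (by norm_num) (by norm_num)
    (CovZ.topM TA_LL 1125899906842624 (by decide +kernel) (CovZ.n1 (1472, 1856) (by decide +kernel)
    (CovZ.badM (by decide +kernel))
    (CovZ.n1 (1408, 1856) (by decide +kernel)
     (CovZ.badM (by decide +kernel))
     (CovZ.badM (by decide +kernel)))))
    (CovZ.topM TA_LL 1125899906842624 (by decide +kernel) (CovZ.n1 (1472, 1856) (by decide +kernel)
    (CovZ.badM (by decide +kernel))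
    (CovZ.badM (by decide +kernel))))

theorem TA_s1_0 : SqY TA_M TA_L [0, 7, 4, 3] 1408 1792 128 1 0 :=
  SqY.mk (a := 1536) (b := 1664) (c := 1792) (d := 1920) (by norm_num) (by norm_num) (by norm_num) (by norm_num)
    (CovZ.topM TA_LL 0 (by decide +kernel) (CovZ.badM (by decide +kernel)))
    (CovZ.topM TA_LL 0 (by decide +kernel) (CovZ.badM (by decide +kernel)))

theorem TA_s2_0 : SqY TA_M TA_L [0, 7, 4, 3] 1408 1792 128 2 0 :=
  SqY.mk (a := 1664) (b := 1792) (c := 1792) (d := 1920) (by norm_num) (by norm_num) (by norm_num) (by norm_num)
    (CovZ.topM TA_LL 0 (by decide +kernel) (CovZ.badM (by decide +kernel)))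
    (CovZ.topM TA_LL 0 (by decide +kernel) (CovZ.badM (by decide +kernel)))

theorem TA_s3_0 : SqY TA_M TA_L [0, 7, 4, 3] 1408 1792 128 3 0 :=
  SqY.mk (a := 1792) (b := 1920) (c := 1792) (d := 1920) (by norm_num) (by norm_num) (by norm_num) (by norm_num)
    (CovZ.topM TA_LL 0 (by decide +kernel) (CovZ.badM (by decide +kernel)))
    (CovZ.topM TA_LL 0 (by decide +kernel) (CovZ.badM (by decide +kernel)))

theorem TA_s4_0 : SqY TA_M TA_L [0, 7, 4, 3] 1408 1792 128 4 0 :=
  SqY.mk (a := 1920) (b := 2048) (c := 1792) (d := 1920) (by norm_num) (by norm_num) (by norm_num) (by norm_num)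
    (CovZ.topM TA_LL 0 (by decide +kernel) (CovZ.badM (by decide +kernel)))
    (CovZ.topM TA_LL 0 (by decide +kernel) (CovZ.badM (by decide +kernel)))

theorem TA_s5_0 : SqY TA_M TA_L [0, 7, 4, 3] 1408 1792 128 5 0 :=
  SqY.mk (a := 2048) (b := 2176) (c := 1792) (d := 1920) (by norm_num) (by norm_num) (by norm_num) (by norm_num)
    (CovZ.topM TA_LL 0 (by decide +kernel) (CovZ.badM (by decide +kernel)))
    (CovZ.topM TA_LL 0 (by decide +kernel) (CovZ.badM (by decide +kernel)))

theorem TA_s6_0 : SqY TA_M TA_L [0, 7, 4, 3] 1408 1792 128 6 0 :=
  SqY.mk (a := 2176) (b := 2304) (c := 1792) (d := 1920) (by norm_num) (by norm_num) (by norm_num) (by norm_num)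
    (CovZ.topM TA_LL 0 (by decide +kernel) (CovZ.badM (by decide +kernel)))
    (CovZ.topM TA_LL 0 (by decide +kernel) (CovZ.badM (by decide +kernel)))

theorem TA_s0_1 : SqY TA_M TA_L [0, 7, 4, 3] 1408 1792 128 0 1 :=
  SqY.mk (a := 1408) (b := 1536) (c := 1920) (d := 2048) (by norm_num) (by norm_num) (by norm_num) (by norm_num)
    (CovZ.topM TA_LL 2 (by decide +kernel) (CovZ.n1 (1472, 1984) (by decide +kernel)
    (CovZ.badM (by decide +kernel))
    (CovZ.badM (by decide +kernel))))
    (CovZ.topM TA_LL 2 (by decide +kernel) (CovZ.n1 (1472, 1984) (by decide +kernel)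
    (CovZ.badM (by decide +kernel))
    (CovZ.badM (by decide +kernel))))

theorem TA_s1_1 : SqY TA_M TA_L [0, 7, 4, 3] 1408 1792 128 1 1 :=
  SqY.mk (a := 1536) (b := 1664) (c := 1920) (d := 2048) (by norm_num) (by norm_num) (by norm_num) (by norm_num)
    (CovZ.topM TA_LL 1134704589870080 (by decide +kernel) (CovZ.n1 (1600, 1984) (by decide +kernel)
    (CovZ.badM (by decide +kernel))
    (CovZ.badM (by decide +kernel))))
    (CovZ.topM TA_LL 1134704589870080 (by decide +kernel) (CovZ.n1 (1600, 1984) (by decide +kernel)
    (CovZ.badM (by decide +kernel))
    (CovZ.subM 1134695999868928 (by decide +kernel)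
     (CovZ.n1 (1664, 1984) (by decide +kernel)
      (CovZ.badM (by decide +kernel))
      (CovZ.n1 (1632, 2016) (by decide +kernel)
       (CovZ.n2 (1664, 2016) (by decide +kernel)
        (CovZ.badM (by decide +kernel))
        (CovZ.n1 (1648, 2032) (by decide +kernel)
         (CovZ.n2 (1664, 2032) (by decide +kernel)
          (CovZ.badM (by decide +kernel))
          (CovZ.badM (by decide +kernel)))
         (CovZ.badM (by decide +kernel))))
       (CovZ.badM (by decide +kernel)))))))

theorem TA_s2_1 : SqY TA_M TA_L [0, 7, 4, 3] 1408 1792 128 2 1 :=
  SqY.mk (a := 1664) (b := 1792) (c := 1920) (d := 2048) (by norm_num) (by norm_num) (by norm_num) (by norm_num)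
    (CovZ.topM TA_LL 1205152790876160 (by decide +kernel) (CovZ.n1 (1728, 1984) (by decide +kernel)
    (CovZ.badM (by decide +kernel))
    (CovZ.subM 1134695999868928 (by decide +kernel)
     (CovZ.n1 (1664, 1984) (by decide +kernel)
      (CovZ.n2 (1696, 2016) (by decide +kernel)
       (CovZ.badM (by decide +kernel))
       (CovZ.n1 (1664, 2016) (by decide +kernel)
        (CovZ.n2 (1680, 2032) (by decide +kernel)
         (CovZ.badM (by decide +kernel))
         (CovZ.n1 (1664, 2032) (by decide +kernel)
          (CovZ.n2 (1672, 2040) (by decide +kernel)
           (CovZ.badM (by decide +kernel))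
           (CovZ.badM (by decide +kernel)))
          (CovZ.badM (by decide +kernel))))
        (CovZ.badM (by decide +kernel))))
      (CovZ.badM (by decide +kernel))))))
    (CovZ.topM TA_LL 1205152790876160 (by decide +kernel) (CovZ.n1 (1728, 1984) (by decide +kernel)
    (CovZ.n2 (1728, 2048) (by decide +kernel)
     (CovZ.badM (by decide +kernel))
     (CovZ.subM 1134695999868928 (by decide +kernel)
      (CovZ.n1 (1696, 2016) (by decide +kernel)
       (CovZ.n2 (1696, 2048) (by decide +kernel)
        (CovZ.badM (by decide +kernel))
        (CovZ.n1 (1680, 2032) (by decide +kernel)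
         (CovZ.n2 (1680, 2048) (by decide +kernel)
          (CovZ.badM (by decide +kernel))
          (CovZ.n1 (1672, 2040) (by decide +kernel)
           (CovZ.badM (by decide +kernel))
           (CovZ.badM (by decide +kernel))))
         (CovZ.badM (by decide +kernel))))
       (CovZ.badM (by decide +kernel)))))
    (CovZ.badM (by decide +kernel))))

theorem TA_s3_1 : SqY TA_M TA_L [0, 7, 4, 3] 1408 1792 128 3 1 :=
  SqY.mk (a := 1792) (b := 1920) (c := 1920) (d := 2048) (by norm_num) (by norm_num) (by norm_num) (by norm_num)
    (CovZ.topM TA_LL 0 (by decide +kernel) (CovZ.badM (by decide +kernel)))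
    (CovZ.topM TA_LL 536870912 (by decide +kernel) (CovZ.n1 (1856, 1984) (by decide +kernel)
    (CovZ.n2 (1856, 2048) (by decide +kernel)
     (CovZ.badM (by decide +kernel))
     (CovZ.badM (by decide +kernel)))
    (CovZ.badM (by decide +kernel))))

theorem TA_s4_1 : SqY TA_M TA_L [0, 7, 4, 3] 1408 1792 128 4 1 :=
  SqY.mk (a := 1920) (b := 2048) (c := 1920) (d := 2048) (by norm_num) (by norm_num) (by norm_num) (by norm_num)
    (CovZ.topM TA_LL 0 (by decide +kernel) (CovZ.badM (by decide +kernel)))
    (CovZ.topM TA_LL 0 (by decide +kernel) (CovZ.badM (by decide +kernel)))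

theorem TA_s5_1 : SqY TA_M TA_L [0, 7, 4, 3] 1408 1792 128 5 1 :=
  SqY.mk (a := 2048) (b := 2176) (c := 1920) (d := 2048) (by norm_num) (by norm_num) (by norm_num) (by norm_num)
    (CovZ.topM TA_LL 0 (by decide +kernel) (CovZ.badM (by decide +kernel)))
    (CovZ.topM TA_LL 0 (by decide +kernel) (CovZ.badM (by decide +kernel)))

theorem TA_s6_1 : SqY TA_M TA_L [0, 7, 4, 3] 1408 1792 128 6 1 :=
  SqY.mk (a := 2176) (b := 2304) (c := 1920) (d := 2048) (by norm_num) (by norm_num) (by norm_num) (by norm_num)
    (CovZ.topM TA_LL 0 (by decide +kernel) (CovZ.badM (by decide +kernel)))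
    (CovZ.topM TA_LL 0 (by decide +kernel) (CovZ.badM (by decide +kernel)))

theorem TA_s0_2 : SqY TA_M TA_L [0, 7, 4, 3] 1408 1792 128 0 2 :=
  SqY.mk (a := 1408) (b := 1536) (c := 2048) (d := 2176) (by norm_num) (by norm_num) (by norm_num) (by norm_num)
    (CovZ.topM TA_LL 0 (by decide +kernel) (CovZ.badM (by decide +kernel)))
    (CovZ.topM TA_LL 0 (by decide +kernel) (CovZ.badM (by decide +kernel)))

theorem TA_s1_2 : SqY TA_M TA_L [0, 7, 4, 3] 1408 1792 128 1 2 :=
  SqY.mk (a := 1536) (b := 1664) (c := 2048) (d := 2176) (by norm_num) (by norm_num) (by norm_num) (by norm_num)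
    (CovZ.topM TA_LL 137445244928 (by decide +kernel) (CovZ.n1 (1600, 2112) (by decide +kernel)
    (CovZ.badM (by decide +kernel))
    (CovZ.badM (by decide +kernel))))
    (CovZ.topM TA_LL 563088473718912 (by decide +kernel) (CovZ.n1 (1600, 2112) (by decide +kernel)
    (CovZ.badM (by decide +kernel))
    (CovZ.n1 (1664, 2112) (by decide +kernel)
     (CovZ.badM (by decide +kernel))
     (CovZ.badM (by decide +kernel)))))

theorem TA_s2_2 : SqY TA_M TA_L [0, 7, 4, 3] 1408 1792 128 2 2 :=
  SqY.mk (a := 1664) (b := 1792) (c := 2048) (d := 2176) (by norm_num) (by norm_num) (by norm_num) (by norm_num)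
    (CovZ.topM TA_LL 15334230610760898 (by decide +kernel) (CovZ.n1 (1728, 2112) (by decide +kernel)
    (CovZ.subM 1240277039010882 (by decide +kernel)
     (CovZ.n2 (1728, 2048) (by decide +kernel)
      TA_u0
      TA_u1))
    (CovZ.n1 (1664, 2112) (by decide +kernel)
     (CovZ.badM (by decide +kernel))
     (CovZ.n1 (1696, 2080) (by decide +kernel)
      (CovZ.badM (by decide +kernel))
      (CovZ.badM (by decide +kernel))))))
    (CovZ.topM TA_LL 71630325809116902 (by decide +kernel) (CovZ.n1 (1728, 2112) (by decide +kernel)
    (CovZ.n2 (1728, 2176) (by decide +kernel)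
     (CovZ.n2 (1760, 2144) (by decide +kernel)
      (CovZ.badM (by decide +kernel))
      (CovZ.badM (by decide +kernel)))
     (CovZ.badM (by decide +kernel)))
    (CovZ.n1 (1792, 2112) (by decide +kernel)
     (CovZ.subM 37271274163360834 (by decide +kernel)
      (CovZ.n2 (1760, 2080) (by decide +kernel)
       TA_u2
       TA_u3))
     (CovZ.n1 (1760, 2144) (by decide +kernel)
      TA_u4
      TA_u5))))

theorem TA_s3_2 : SqY TA_M TA_L [0, 7, 4, 3] 1408 1792 128 3 2 :=
  SqY.mk (a := 1792) (b := 1920) (c := 2048) (d := 2176) (by norm_num) (by norm_num) (by norm_num) (by norm_num)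
    (CovZ.topM TA_LL 143692975577235455 (by decide +kernel) (CovZ.n1 (1856, 2112) (by decide +kernel)
    (CovZ.subM 72620544528228352 (by decide +kernel)
     (CovZ.n2 (1856, 2048) (by decide +kernel)
      (CovZ.n2 (1824, 2080) (by decide +kernel)
       (CovZ.n2 (1856, 2080) (by decide +kernel)
        (CovZ.badM (by decide +kernel))
        (CovZ.n1 (1840, 2096) (by decide +kernel)
         (CovZ.badM (by decide +kernel))
         (CovZ.badM (by decide +kernel))))
       (CovZ.badM (by decide +kernel)))
      (CovZ.badM (by decide +kernel))))
    (CovZ.n1 (1792, 2112) (by decide +kernel)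
     (CovZ.n2 (1824, 2144) (by decide +kernel)
      TA_u6
      TA_u7)
     (CovZ.n1 (1824, 2080) (by decide +kernel)
      (CovZ.subM 37271342882840138 (by decide +kernel)
       (CovZ.n2 (1792, 2080) (by decide +kernel)
        (CovZ.n2 (1808, 2096) (by decide +kernel)
         (CovZ.subM 2199023256072 (by decide +kernel)
          (CovZ.n2 (1808, 2080) (by decide +kernel)
           (CovZ.n2 (1800, 2088) (by decide +kernel)
            (CovZ.n2 (1808, 2088) (by decide +kernel)
             (CovZ.badM (by decide +kernel))
             (CovZ.n1 (1804, 2092) (by decide +kernel)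
              (CovZ.n2 (1808, 2092) (by decide +kernel)
               (CovZ.badM (by decide +kernel))
               (CovZ.n1 (1806, 2094) (by decide +kernel)
                (CovZ.n2 (1808, 2094) (by decide +kernel)
                 (CovZ.badM (by decide +kernel))
                 (CovZ.leaf K2_ok TA_l379 _))
                (CovZ.badM (by decide +kernel))))
              (CovZ.badM (by decide +kernel))))
            (CovZ.badM (by decide +kernel)))
           (CovZ.n1 (1816, 2088) (by decide +kernel)
            (CovZ.badM (by decide +kernel))
            (CovZ.n1 (1808, 2088) (by decide +kernel)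
             (CovZ.n2 (1812, 2092) (by decide +kernel)
              (CovZ.badM (by decide +kernel))
              (CovZ.n1 (1808, 2092) (by decide +kernel)
               (CovZ.n2 (1810, 2094) (by decide +kernel)
                (CovZ.badM (by decide +kernel))
                (CovZ.n1 (1808, 2094) (by decide +kernel)
                 (CovZ.n2 (1809, 2095) (by decide +kernel)
                  (CovZ.badM (by decide +kernel))
                  (CovZ.leaf K2_ok TA_l380 _))
                 (CovZ.badM (by decide +kernel))))
               (CovZ.badM (by decide +kernel))))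
             (CovZ.badM (by decide +kernel))))))
         (CovZ.n1 (1792, 2096) (by decide +kernel)
          (CovZ.n2 (1800, 2104) (by decide +kernel)
           (CovZ.subM 36145373172995072 (by decide +kernel)
            (CovZ.n2 (1800, 2096) (by decide +kernel)
             (CovZ.n2 (1796, 2100) (by decide +kernel)
              (CovZ.n2 (1800, 2100) (by decide +kernel)
               (CovZ.leaf K2_ok TA_l381 _)
               (CovZ.leaf K2_ok TA_l382 _))
              (CovZ.leaf K2_ok TA_l383 _))
             (CovZ.n1 (1804, 2100) (by decide +kernel)
              (CovZ.n2 (1804, 2096) (by decide +kernel)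
               (CovZ.leaf K2_ok TA_l384 _)
               (CovZ.n1 (1806, 2098) (by decide +kernel)
                (CovZ.leaf K2_ok TA_l385 _)
                (CovZ.leaf K2_ok TA_l386 _)))
              (CovZ.n1 (1800, 2100) (by decide +kernel)
               (CovZ.leaf K2_ok TA_l387 _)
               (CovZ.leaf K2_ok TA_l388 _)))))
           (CovZ.n1 (1792, 2104) (by decide +kernel)
            (CovZ.leaf K2_ok TA_l389 _)
            (CovZ.leaf K2_ok TA_l390 _)))
          (CovZ.subM 72587098984448 (by decide +kernel)
           (CovZ.n1 (1800, 2088) (by decide +kernel)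
            (CovZ.n2 (1792, 2088) (by decide +kernel)
             (CovZ.n2 (1796, 2092) (by decide +kernel)
              (CovZ.badM (by decide +kernel))
              (CovZ.n1 (1792, 2092) (by decide +kernel)
               (CovZ.n2 (1794, 2094) (by decide +kernel)
                (CovZ.leaf K2_ok TA_l391 _)
                (CovZ.leaf K2_ok TA_l392 _))
               (CovZ.n1 (1794, 2090) (by decide +kernel)
                (CovZ.n2 (1792, 2090) (by decide +kernel)
                 (CovZ.leaf K2_ok TA_l393 _)
                 (CovZ.badM (by decide +kernel)))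
                (CovZ.leaf K2_ok TA_l394 _))))
             (CovZ.badM (by decide +kernel)))
            (CovZ.n1 (1800, 2096) (by decide +kernel)
             (CovZ.subM 2216203124736 (by decide +kernel)
              (CovZ.n2 (1804, 2092) (by decide +kernel)
               (CovZ.n2 (1800, 2092) (by decide +kernel)
                (CovZ.n2 (1802, 2094) (by decide +kernel)
                 (CovZ.badM (by decide +kernel))
                 (CovZ.n1 (1800, 2094) (by decide +kernel)
                  (CovZ.leaf K2_ok TA_l395 _)
                  (CovZ.badM (by decide +kernel))))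
                (CovZ.badM (by decide +kernel)))
               (CovZ.n1 (1804, 2096) (by decide +kernel)
                (CovZ.n2 (1806, 2094) (by decide +kernel)
                 (CovZ.badM (by decide +kernel))
                 (CovZ.leaf K2_ok TA_l396 _))
                (CovZ.n1 (1802, 2094) (by decide +kernel)
                 (CovZ.leaf K2_ok TA_l397 _)
                 (CovZ.badM (by decide +kernel))))))
             (CovZ.n1 (1796, 2092) (by decide +kernel)
              (CovZ.n2 (1796, 2096) (by decide +kernel)
               (CovZ.n2 (1798, 2094) (by decide +kernel)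
                (CovZ.leaf K2_ok TA_l398 _)
                (CovZ.leaf K2_ok TA_l399 _))
               (CovZ.n1 (1794, 2094) (by decide +kernel)
                (CovZ.leaf K2_ok TA_l400 _)
                (CovZ.leaf K2_ok TA_l401 _)))
              (CovZ.subM 17179869184 (by decide +kernel)
               (CovZ.n1 (1800, 2092) (by decide +kernel)
                (CovZ.badM (by decide +kernel))
                (CovZ.n1 (1798, 2094) (by decide +kernel)
                 (CovZ.n2 (1800, 2094) (by decide +kernel)
                  (CovZ.leaf K2_ok TA_l402 _)
                  (CovZ.leaf K2_ok TA_l403 _))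
                 (CovZ.leaf K2_ok TA_l404 _))))))))))
        (CovZ.badM (by decide +kernel))))
      (CovZ.n1 (1824, 2112) (by decide +kernel)
       TA_u8
       TA_u9)))))
    (CovZ.topM TA_LL 89509042593988607 (by decide +kernel) (CovZ.n1 (1856, 2112) (by decide +kernel)
    (CovZ.n2 (1856, 2176) (by decide +kernel)
     (CovZ.n2 (1888, 2144) (by decide +kernel)
      TA_u10
      TA_u11)
     (CovZ.n1 (1824, 2144) (by decide +kernel)
      TA_u12
      TA_u13))
    (CovZ.subM 5857818102831575 (by decide +kernel)
     (CovZ.n1 (1920, 2112) (by decide +kernel)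
      (CovZ.n2 (1888, 2080) (by decide +kernel)
       (CovZ.n2 (1888, 2112) (by decide +kernel)
        (CovZ.badM (by decide +kernel))
        (CovZ.badM (by decide +kernel)))
       (CovZ.badM (by decide +kernel)))
      (CovZ.n1 (1888, 2144) (by decide +kernel)
       (CovZ.n2 (1920, 2144) (by decide +kernel)
        (CovZ.n2 (1904, 2128) (by decide +kernel)
         (CovZ.n2 (1904, 2144) (by decide +kernel)
          (CovZ.subM 75890111287365 (by decide +kernel)
           (CovZ.n2 (1912, 2136) (by decide +kernel)
            (CovZ.n2 (1904, 2136) (by decide +kernel)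
             (CovZ.n2 (1908, 2140) (by decide +kernel)
              (CovZ.subM 70390235791360 (by decide +kernel)
               (CovZ.n2 (1908, 2136) (by decide +kernel)
                (CovZ.n2 (1906, 2138) (by decide +kernel)
                 (CovZ.leaf K2_ok TA_l858 _)
                 (CovZ.leaf K2_ok TA_l859 _))
                (CovZ.n1 (1910, 2138) (by decide +kernel)
                 (CovZ.n2 (1910, 2136) (by decide +kernel)
                  (CovZ.leaf K2_ok TA_l860 _)
                  (CovZ.leaf K2_ok TA_l861 _))
                 (CovZ.n1 (1908, 2138) (by decide +kernel)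
                  (CovZ.leaf K2_ok TA_l862 _)
                  (CovZ.leaf K2_ok TA_l863 _)))))
              (CovZ.n1 (1904, 2140) (by decide +kernel)
               (CovZ.leaf K2_ok TA_l864 _)
               (CovZ.leaf K2_ok TA_l865 _)))
             (CovZ.subM 70368744177664 (by decide +kernel)
              (CovZ.n1 (1908, 2132) (by decide +kernel)
               (CovZ.n2 (1904, 2132) (by decide +kernel)
                (CovZ.n2 (1906, 2134) (by decide +kernel)
                 (CovZ.badM (by decide +kernel))
                 (CovZ.n1 (1904, 2134) (by decide +kernel)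
                  (CovZ.n2 (1905, 2135) (by decide +kernel)
                   (CovZ.badM (by decide +kernel))
                   (CovZ.leaf K2_ok TA_l1398 _))
                  (CovZ.badM (by decide +kernel))))
                (CovZ.badM (by decide +kernel)))
               (CovZ.n1 (1908, 2136) (by decide +kernel)
                (CovZ.badM (by decide +kernel))
                (CovZ.n1 (1906, 2134) (by decide +kernel)
                 (CovZ.n2 (1906, 2136) (by decide +kernel)
                  (CovZ.badM (by decide +kernel))
                  (CovZ.n1 (1905, 2135) (by decide +kernel)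
                   (CovZ.leaf K2_ok TA_l1399 _)
                   (CovZ.badM (by decide +kernel))))
                 (CovZ.badM (by decide +kernel)))))))
            (CovZ.n1 (1912, 2144) (by decide +kernel)
             (CovZ.n2 (1916, 2140) (by decide +kernel)
              (CovZ.n2 (1912, 2140) (by decide +kernel)
               (CovZ.n2 (1914, 2142) (by decide +kernel)
                (CovZ.leaf K2_ok TA_l866 _)
                (CovZ.leaf K2_ok TA_l867 _))
               (CovZ.subM 70373055922176 (by decide +kernel)
                (CovZ.n1 (1914, 2138) (by decide +kernel)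
                 (CovZ.n2 (1912, 2138) (by decide +kernel)
                  (CovZ.leaf K2_ok TA_l868 _)
                  (CovZ.leaf K2_ok TA_l869 _))
                 (CovZ.n1 (1914, 2140) (by decide +kernel)
                  (CovZ.n2 (1915, 2139) (by decide +kernel)
                   (CovZ.leaf K2_ok TA_l870 _)
                   (CovZ.leaf K2_ok TA_l871 _))
                  (CovZ.n1 (1913, 2139) (by decide +kernel)
                   (CovZ.leaf K2_ok TA_l872 _)
                   (CovZ.leaf K2_ok TA_l873 _))))))
              (CovZ.n1 (1916, 2144) (by decide +kernel)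
               (CovZ.n2 (1918, 2142) (by decide +kernel)
                (CovZ.n2 (1916, 2142) (by decide +kernel)
                 (CovZ.leaf K2_ok TA_l874 _)
                 (CovZ.leaf K2_ok TA_l875 _))
                (CovZ.leaf K2_ok TA_l876 _))
               (CovZ.n1 (1914, 2142) (by decide +kernel)
                (CovZ.leaf K2_ok TA_l877 _)
                (CovZ.leaf K2_ok TA_l878 _))))
             (CovZ.n1 (1908, 2140) (by decide +kernel)
              (CovZ.leaf K2_ok TA_l879 _)
              (CovZ.n1 (1912, 2140) (by decide +kernel)
               (CovZ.n2 (1910, 2138) (by decide +kernel)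
                (CovZ.leaf K2_ok TA_l880 _)
                (CovZ.n1 (1912, 2138) (by decide +kernel)
                 (CovZ.leaf K2_ok TA_l881 _)
                 (CovZ.leaf K2_ok TA_l882 _)))
               (CovZ.leaf K2_ok TA_l883 _))))))
          (CovZ.n1 (1896, 2136) (by decide +kernel)
           (CovZ.n2 (1896, 2144) (by decide +kernel)
            (CovZ.n2 (1900, 2140) (by decide +kernel)
             (CovZ.n2 (1896, 2140) (by decide +kernel)
              (CovZ.leaf K2_ok TA_l884 _)
              (CovZ.leaf K2_ok TA_l885 _))
             (CovZ.leaf K2_ok TA_l886 _))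
            (CovZ.n1 (1892, 2140) (by decide +kernel)
             (CovZ.leaf K2_ok TA_l887 _)
             (CovZ.n1 (1896, 2140) (by decide +kernel)
              (CovZ.leaf K2_ok TA_l888 _)
              (CovZ.leaf K2_ok TA_l889 _))))
           (CovZ.subM 75898701221957 (by decide +kernel)
            (CovZ.n1 (1904, 2136) (by decide +kernel)
             (CovZ.subM 74796872237057 (by decide +kernel)
              (CovZ.n2 (1900, 2132) (by decide +kernel)
               (CovZ.n2 (1900, 2136) (by decide +kernel)
                (CovZ.n2 (1902, 2134) (by decide +kernel)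
                 (CovZ.n2 (1900, 2134) (by decide +kernel)
                  (CovZ.leaf K2_ok TA_l890 _)
                  (CovZ.leaf K2_ok TA_l891 _))
                 (CovZ.leaf K2_ok TA_l892 _))
                (CovZ.n1 (1898, 2134) (by decide +kernel)
                 (CovZ.leaf K2_ok TA_l893 _)
                 (CovZ.n1 (1900, 2134) (by decide +kernel)
                  (CovZ.leaf K2_ok TA_l894 _)
                  (CovZ.leaf K2_ok TA_l895 _))))
               (CovZ.subM 70377334112256 (by decide +kernel)
                (CovZ.n1 (1904, 2132) (by decide +kernel)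
                 (CovZ.badM (by decide +kernel))
                 (CovZ.n1 (1902, 2134) (by decide +kernel)
                  (CovZ.n2 (1904, 2134) (by decide +kernel)
                   (CovZ.badM (by decide +kernel))
                   (CovZ.leaf K2_ok TA_l1400 _))
                  (CovZ.badM (by decide +kernel)))))))
             (CovZ.n1 (1900, 2140) (by decide +kernel)
              (CovZ.n2 (1904, 2140) (by decide +kernel)
               (CovZ.n2 (1902, 2138) (by decide +kernel)
                (CovZ.leaf K2_ok TA_l896 _)
                (CovZ.leaf K2_ok TA_l897 _))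
               (CovZ.leaf K2_ok TA_l898 _))
              (CovZ.n1 (1900, 2136) (by decide +kernel)
               (CovZ.leaf K2_ok TA_l899 _)
               (CovZ.n1 (1902, 2138) (by decide +kernel)
                (CovZ.leaf K2_ok TA_l900 _)
                (CovZ.leaf K2_ok TA_l901 _))))))))
         (CovZ.subM 70390372106240 (by decide +kernel)
          (CovZ.n1 (1920, 2128) (by decide +kernel)
           (CovZ.badM (by decide +kernel))
           (CovZ.n1 (1912, 2136) (by decide +kernel)
            (CovZ.n2 (1920, 2136) (by decide +kernel)
             (CovZ.badM (by decide +kernel))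
             (CovZ.n1 (1916, 2140) (by decide +kernel)
              (CovZ.n2 (1920, 2140) (by decide +kernel)
               (CovZ.subM 16777216 (by decide +kernel)
                (CovZ.n2 (1918, 2138) (by decide +kernel)
                 (CovZ.n2 (1918, 2140) (by decide +kernel)
                  (CovZ.n2 (1919, 2139) (by decide +kernel)
                   (CovZ.leaf K2_ok TA_l902 _)
                   (CovZ.leaf K2_ok TA_l903 _))
                  (CovZ.leaf K2_ok TA_l904 _))
                 (CovZ.n1 (1920, 2138) (by decide +kernel)
                  (CovZ.badM (by decide +kernel))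
                  (CovZ.leaf K2_ok TA_l905 _))))
               (CovZ.leaf K2_ok TA_l906 _))
              (CovZ.subM 16777216 (by decide +kernel)
               (CovZ.n1 (1916, 2136) (by decide +kernel)
                (CovZ.n2 (1914, 2138) (by decide +kernel)
                 (CovZ.n2 (1916, 2138) (by decide +kernel)
                  (CovZ.badM (by decide +kernel))
                  (CovZ.n1 (1915, 2139) (by decide +kernel)
                   (CovZ.leaf K2_ok TA_l907 _)
                   (CovZ.leaf K2_ok TA_l908 _)))
                 (CovZ.badM (by decide +kernel)))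
                (CovZ.n1 (1918, 2138) (by decide +kernel)
                 (CovZ.badM (by decide +kernel))
                 (CovZ.n1 (1916, 2138) (by decide +kernel)
                  (CovZ.n2 (1917, 2139) (by decide +kernel)
                   (CovZ.leaf K2_ok TA_l909 _)
                   (CovZ.n1 (1916, 2139) (by decide +kernel)
                    (CovZ.leaf K2_ok TA_l910 _)
                    (CovZ.leaf K2_ok TA_l911 _)))
                  (CovZ.badM (by decide +kernel))))))))
            (CovZ.badM (by decide +kernel))))))
        (CovZ.n1 (1904, 2160) (by decide +kernel)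
         (CovZ.n2 (1920, 2160) (by decide +kernel)
          (CovZ.n2 (1912, 2152) (by decide +kernel)
           (CovZ.leaf K2_ok TA_l912 _)
           (CovZ.n1 (1920, 2152) (by decide +kernel)
            (CovZ.n2 (1916, 2148) (by decide +kernel)
             (CovZ.leaf K2_ok TA_l913 _)
             (CovZ.n1 (1920, 2148) (by decide +kernel)
              (CovZ.leaf K2_ok TA_l914 _)
              (CovZ.leaf K2_ok TA_l915 _)))
            (CovZ.leaf K2_ok TA_l916 _)))
          (CovZ.n1 (1912, 2168) (by decide +kernel)
           (CovZ.n2 (1920, 2168) (by decide +kernel)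
            (CovZ.leaf K2_ok TA_l917 _)
            (CovZ.leaf K2_ok TA_l918 _))
           (CovZ.leaf K2_ok TA_l919 _)))
         (CovZ.n1 (1904, 2144) (by decide +kernel)
          (CovZ.n2 (1896, 2152) (by decide +kernel)
           (CovZ.n2 (1904, 2152) (by decide +kernel)
            (CovZ.n2 (1900, 2148) (by decide +kernel)
             (CovZ.leaf K2_ok TA_l920 _)
             (CovZ.leaf K2_ok TA_l921 _))
            (CovZ.leaf K2_ok TA_l922 _))
           (CovZ.n1 (1896, 2144) (by decide +kernel)
            (CovZ.leaf K2_ok TA_l923 _)
            (CovZ.n1 (1900, 2148) (by decide +kernel)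
             (CovZ.leaf K2_ok TA_l924 _)
             (CovZ.leaf K2_ok TA_l925 _))))
          (CovZ.n1 (1912, 2152) (by decide +kernel)
           (CovZ.subM 76027617349717 (by decide +kernel)
            (CovZ.n2 (1912, 2144) (by decide +kernel)
             (CovZ.n2 (1908, 2148) (by decide +kernel)
              (CovZ.leaf K2_ok TA_l926 _)
              (CovZ.leaf K2_ok TA_l927 _))
             (CovZ.n1 (1916, 2148) (by decide +kernel)
              (CovZ.n2 (1916, 2144) (by decide +kernel)
               (CovZ.leaf K2_ok TA_l928 _)
               (CovZ.leaf K2_ok TA_l929 _))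
              (CovZ.leaf K2_ok TA_l930 _))))
           (CovZ.n1 (1904, 2152) (by decide +kernel)
            (CovZ.leaf K2_ok TA_l931 _)
            (CovZ.leaf K2_ok TA_l932 _))))))
       (CovZ.n1 (1888, 2112) (by decide +kernel)
        TA_u14
        TA_u15))))))

theorem TA_s4_2 : SqY TA_M TA_L [0, 7, 4, 3] 1408 1792 128 4 2 :=
  SqY.mk (a := 1920) (b := 2048) (c := 2048) (d := 2176) (by norm_num) (by norm_num) (by norm_num) (by norm_num)
    (CovZ.topM TA_LL 5717072024506837 (by decide +kernel) (CovZ.n1 (1984, 2112) (by decide +kernel)
    (CovZ.badM (by decide +kernel))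
    (CovZ.n1 (1920, 2112) (by decide +kernel)
     (CovZ.n2 (1952, 2144) (by decide +kernel)
      (CovZ.n2 (1952, 2112) (by decide +kernel)
       (CovZ.n2 (1936, 2128) (by decide +kernel)
        (CovZ.badM (by decide +kernel))
        (CovZ.badM (by decide +kernel)))
       (CovZ.badM (by decide +kernel)))
      (CovZ.n1 (1920, 2144) (by decide +kernel)
       (CovZ.n2 (1936, 2160) (by decide +kernel)
        (CovZ.subM 76027497812037 (by decide +kernel)
         (CovZ.n2 (1936, 2144) (by decide +kernel)
          (CovZ.n2 (1928, 2152) (by decide +kernel)
           (CovZ.n2 (1936, 2152) (by decide +kernel)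
            (CovZ.n2 (1932, 2148) (by decide +kernel)
             (CovZ.leaf K2_ok TA_l1088 _)
             (CovZ.n1 (1936, 2148) (by decide +kernel)
              (CovZ.n2 (1934, 2146) (by decide +kernel)
               (CovZ.leaf K2_ok TA_l1089 _)
               (CovZ.leaf K2_ok TA_l1090 _))
              (CovZ.leaf K2_ok TA_l1091 _)))
            (CovZ.leaf K2_ok TA_l1092 _))
           (CovZ.n1 (1928, 2144) (by decide +kernel)
            (CovZ.n2 (1924, 2148) (by decide +kernel)
             (CovZ.n2 (1928, 2148) (by decide +kernel)
              (CovZ.n2 (1926, 2146) (by decide +kernel)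
               (CovZ.leaf K2_ok TA_l1093 _)
               (CovZ.leaf K2_ok TA_l1094 _))
              (CovZ.leaf K2_ok TA_l1095 _))
             (CovZ.n1 (1924, 2144) (by decide +kernel)
              (CovZ.leaf K2_ok TA_l1096 _)
              (CovZ.n1 (1926, 2146) (by decide +kernel)
               (CovZ.leaf K2_ok TA_l1097 _)
               (CovZ.leaf K2_ok TA_l1098 _))))
            (CovZ.n1 (1932, 2148) (by decide +kernel)
             (CovZ.subM 70510478098432 (by decide +kernel)
              (CovZ.n2 (1932, 2144) (by decide +kernel)
               (CovZ.n2 (1930, 2146) (by decide +kernel)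
                (CovZ.leaf K2_ok TA_l1099 _)
                (CovZ.leaf K2_ok TA_l1100 _))
               (CovZ.n1 (1934, 2146) (by decide +kernel)
                (CovZ.badM (by decide +kernel))
                (CovZ.n1 (1932, 2146) (by decide +kernel)
                 (CovZ.leaf K2_ok TA_l1101 _)
                 (CovZ.badM (by decide +kernel))))))
             (CovZ.n1 (1928, 2148) (by decide +kernel)
              (CovZ.leaf K2_ok TA_l1102 _)
              (CovZ.leaf K2_ok TA_l1103 _)))))
          (CovZ.n1 (1944, 2152) (by decide +kernel)
           (CovZ.subM 70510478098496 (by decide +kernel)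
            (CovZ.n2 (1944, 2144) (by decide +kernel)
             (CovZ.n2 (1940, 2148) (by decide +kernel)
              (CovZ.n2 (1944, 2148) (by decide +kernel)
               (CovZ.n2 (1942, 2146) (by decide +kernel)
                (CovZ.leaf K2_ok TA_l1104 _)
                (CovZ.n1 (1944, 2146) (by decide +kernel)
                 (CovZ.badM (by decide +kernel))
                 (CovZ.leaf K2_ok TA_l1105 _)))
               (CovZ.leaf K2_ok TA_l1106 _))
              (CovZ.n1 (1940, 2144) (by decide +kernel)
               (CovZ.n2 (1938, 2146) (by decide +kernel)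
                (CovZ.n2 (1940, 2146) (by decide +kernel)
                 (CovZ.badM (by decide +kernel))
                 (CovZ.leaf K2_ok TA_l1107 _))
                (CovZ.badM (by decide +kernel)))
               (CovZ.n1 (1942, 2146) (by decide +kernel)
                (CovZ.badM (by decide +kernel))
                (CovZ.n1 (1940, 2146) (by decide +kernel)
                 (CovZ.leaf K2_ok TA_l1108 _)
                 (CovZ.badM (by decide +kernel))))))
             (CovZ.n1 (1948, 2148) (by decide +kernel)
              (CovZ.n2 (1948, 2144) (by decide +kernel)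
               (CovZ.n2 (1946, 2146) (by decide +kernel)
                (CovZ.badM (by decide +kernel))
                (CovZ.badM (by decide +kernel)))
               (CovZ.badM (by decide +kernel)))
              (CovZ.n1 (1944, 2148) (by decide +kernel)
               (CovZ.n2 (1946, 2150) (by decide +kernel)
                (CovZ.leaf K2_ok TA_l1109 _)
                (CovZ.leaf K2_ok TA_l1110 _))
               (CovZ.n1 (1946, 2146) (by decide +kernel)
                (CovZ.n2 (1944, 2146) (by decide +kernel)
                 (CovZ.leaf K2_ok TA_l1111 _)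
                 (CovZ.badM (by decide +kernel)))
                (CovZ.leaf K2_ok TA_l1112 _))))))
           (CovZ.n1 (1936, 2152) (by decide +kernel)
            (CovZ.n2 (1940, 2156) (by decide +kernel)
             (CovZ.leaf K2_ok TA_l1113 _)
             (CovZ.leaf K2_ok TA_l1114 _))
            (CovZ.subM 70527657967680 (by decide +kernel)
             (CovZ.n1 (1940, 2148) (by decide +kernel)
              (CovZ.n2 (1936, 2148) (by decide +kernel)
               (CovZ.leaf K2_ok TA_l1115 _)
               (CovZ.leaf K2_ok TA_l1116 _))
              (CovZ.n1 (1940, 2152) (by decide +kernel)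
               (CovZ.leaf K2_ok TA_l1117 _)
               (CovZ.n1 (1938, 2150) (by decide +kernel)
                (CovZ.leaf K2_ok TA_l1118 _)
                (CovZ.leaf K2_ok TA_l1119 _)))))))))
        (CovZ.n1 (1920, 2160) (by decide +kernel)
         (CovZ.n2 (1928, 2168) (by decide +kernel)
          (CovZ.leaf K2_ok TA_l1120 _)
          (CovZ.n1 (1920, 2168) (by decide +kernel)
           (CovZ.leaf K2_ok TA_l1121 _)
           (CovZ.leaf K2_ok TA_l1122 _)))
         (CovZ.n1 (1928, 2152) (by decide +kernel)
          (CovZ.n2 (1920, 2152) (by decide +kernel)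
           (CovZ.n2 (1924, 2156) (by decide +kernel)
            (CovZ.leaf K2_ok TA_l1123 _)
            (CovZ.leaf K2_ok TA_l1124 _))
           (CovZ.n1 (1924, 2148) (by decide +kernel)
            (CovZ.n2 (1920, 2148) (by decide +kernel)
             (CovZ.leaf K2_ok TA_l1125 _)
             (CovZ.leaf K2_ok TA_l1126 _))
            (CovZ.leaf K2_ok TA_l1127 _)))
          (CovZ.n1 (1928, 2160) (by decide +kernel)
           (CovZ.leaf K2_ok TA_l1128 _)
           (CovZ.n1 (1924, 2156) (by decide +kernel)
            (CovZ.leaf K2_ok TA_l1129 _)
            (CovZ.leaf K2_ok TA_l1130 _))))))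
       (CovZ.subM 70390372106240 (by decide +kernel)
        (CovZ.n1 (1936, 2128) (by decide +kernel)
         (CovZ.n2 (1920, 2128) (by decide +kernel)
          (CovZ.n2 (1928, 2136) (by decide +kernel)
           (CovZ.badM (by decide +kernel))
           (CovZ.n1 (1920, 2136) (by decide +kernel)
            (CovZ.n2 (1924, 2140) (by decide +kernel)
             (CovZ.badM (by decide +kernel))
             (CovZ.n1 (1920, 2140) (by decide +kernel)
              (CovZ.n2 (1922, 2142) (by decide +kernel)
               (CovZ.badM (by decide +kernel))
               (CovZ.leaf K2_ok TA_l1131 _))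
              (CovZ.subM 16777216 (by decide +kernel)
               (CovZ.n1 (1922, 2138) (by decide +kernel)
                (CovZ.n2 (1920, 2138) (by decide +kernel)
                 (CovZ.n2 (1921, 2139) (by decide +kernel)
                  (CovZ.badM (by decide +kernel))
                  (CovZ.leaf K2_ok TA_l1132 _))
                 (CovZ.badM (by decide +kernel)))
                (CovZ.badM (by decide +kernel))))))
            (CovZ.badM (by decide +kernel))))
          (CovZ.badM (by decide +kernel)))
         (CovZ.n1 (1936, 2144) (by decide +kernel)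
          (CovZ.badM (by decide +kernel))
          (CovZ.n1 (1928, 2136) (by decide +kernel)
           (CovZ.n2 (1928, 2144) (by decide +kernel)
            (CovZ.badM (by decide +kernel))
            (CovZ.n1 (1924, 2140) (by decide +kernel)
             (CovZ.n2 (1924, 2144) (by decide +kernel)
              (CovZ.n2 (1926, 2142) (by decide +kernel)
               (CovZ.n2 (1924, 2142) (by decide +kernel)
                (CovZ.leaf K2_ok TA_l1133 _)
                (CovZ.badM (by decide +kernel)))
               (CovZ.leaf K2_ok TA_l1134 _))
              (CovZ.n1 (1922, 2142) (by decide +kernel)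
               (CovZ.leaf K2_ok TA_l1135 _)
               (CovZ.n1 (1924, 2142) (by decide +kernel)
                (CovZ.badM (by decide +kernel))
                (CovZ.leaf K2_ok TA_l1136 _))))
             (CovZ.badM (by decide +kernel))))
           (CovZ.badM (by decide +kernel))))))))
     (CovZ.badM (by decide +kernel)))))
    (CovZ.topM TA_LL 1213472378196309 (by decide +kernel) (CovZ.n1 (1984, 2112) (by decide +kernel)
    (CovZ.n2 (1984, 2176) (by decide +kernel)
     (CovZ.n2 (2016, 2144) (by decide +kernel)
      (CovZ.n2 (1984, 2144) (by decide +kernel)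
       (CovZ.badM (by decide +kernel))
       (CovZ.badM (by decide +kernel)))
      (CovZ.badM (by decide +kernel)))
     (CovZ.n1 (1952, 2144) (by decide +kernel)
      (CovZ.n2 (1952, 2176) (by decide +kernel)
       (CovZ.subM 71487684088149 (by decide +kernel)
        (CovZ.n2 (1968, 2160) (by decide +kernel)
         (CovZ.n2 (1952, 2160) (by decide +kernel)
          (CovZ.n2 (1960, 2168) (by decide +kernel)
           (CovZ.n2 (1960, 2160) (by decide +kernel)
            (CovZ.leaf K2_ok TA_l1137 _)
            (CovZ.n1 (1964, 2164) (by decide +kernel)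
             (CovZ.leaf K2_ok TA_l1138 _)
             (CovZ.leaf K2_ok TA_l1139 _)))
           (CovZ.n1 (1952, 2168) (by decide +kernel)
            (CovZ.leaf K2_ok TA_l1140 _)
            (CovZ.leaf K2_ok TA_l1141 _)))
          (CovZ.subM 71485435674688 (by decide +kernel)
           (CovZ.n1 (1960, 2152) (by decide +kernel)
            (CovZ.n2 (1952, 2152) (by decide +kernel)
             (CovZ.n2 (1956, 2156) (by decide +kernel)
              (CovZ.n2 (1956, 2152) (by decide +kernel)
               (CovZ.leaf K2_ok TA_l1142 _)
               (CovZ.n1 (1958, 2154) (by decide +kernel)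
                (CovZ.badM (by decide +kernel))
                (CovZ.leaf K2_ok TA_l1143 _)))
              (CovZ.n1 (1952, 2156) (by decide +kernel)
               (CovZ.leaf K2_ok TA_l1144 _)
               (CovZ.leaf K2_ok TA_l1145 _)))
             (CovZ.badM (by decide +kernel)))
            (CovZ.n1 (1960, 2160) (by decide +kernel)
             (CovZ.n2 (1964, 2156) (by decide +kernel)
              (CovZ.n2 (1960, 2156) (by decide +kernel)
               (CovZ.leaf K2_ok TA_l1146 _)
               (CovZ.leaf K2_ok TA_l1147 _))
              (CovZ.n1 (1964, 2160) (by decide +kernel)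
               (CovZ.badM (by decide +kernel))
               (CovZ.n1 (1962, 2158) (by decide +kernel)
                (CovZ.leaf K2_ok TA_l1148 _)
                (CovZ.badM (by decide +kernel)))))
             (CovZ.n1 (1956, 2156) (by decide +kernel)
              (CovZ.leaf K2_ok TA_l1149 _)
              (CovZ.n1 (1960, 2156) (by decide +kernel)
               (CovZ.n2 (1958, 2154) (by decide +kernel)
                (CovZ.leaf K2_ok TA_l1150 _)
                (CovZ.leaf K2_ok TA_l1151 _))
               (CovZ.leaf K2_ok TA_l1152 _)))))))
         (CovZ.n1 (1968, 2176) (by decide +kernel)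
          (CovZ.subM 1118838984961 (by decide +kernel)
           (CovZ.n2 (1976, 2168) (by decide +kernel)
            (CovZ.n2 (1968, 2168) (by decide +kernel)
             (CovZ.n2 (1972, 2172) (by decide +kernel)
              (CovZ.leaf K2_ok TA_l1153 _)
              (CovZ.leaf K2_ok TA_l1154 _))
             (CovZ.leaf K2_ok TA_l1155 _))
            (CovZ.n1 (1976, 2176) (by decide +kernel)
             (CovZ.leaf K2_ok TA_l1156 _)
             (CovZ.n1 (1972, 2172) (by decide +kernel)
              (CovZ.leaf K2_ok TA_l1157 _)
              (CovZ.leaf K2_ok TA_l1158 _)))))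
          (CovZ.n1 (1960, 2168) (by decide +kernel)
           (CovZ.leaf K2_ok TA_l1159 _)
           (CovZ.subM 1118838984961 (by decide +kernel)
            (CovZ.n1 (1968, 2168) (by decide +kernel)
             (CovZ.n2 (1964, 2164) (by decide +kernel)
              (CovZ.leaf K2_ok TA_l1160 _)
              (CovZ.n1 (1968, 2164) (by decide +kernel)
               (CovZ.leaf K2_ok TA_l1161 _)
               (CovZ.leaf K2_ok TA_l1162 _)))
             (CovZ.leaf K2_ok TA_l1163 _)))))))
       (CovZ.n1 (1936, 2160) (by decide +kernel)
        (CovZ.n2 (1936, 2176) (by decide +kernel)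
         (CovZ.n2 (1944, 2168) (by decide +kernel)
          (CovZ.n2 (1936, 2168) (by decide +kernel)
           (CovZ.leaf K2_ok TA_l1164 _)
           (CovZ.leaf K2_ok TA_l1165 _))
          (CovZ.leaf K2_ok TA_l1166 _))
         (CovZ.n1 (1928, 2168) (by decide +kernel)
          (CovZ.leaf K2_ok TA_l1167 _)
          (CovZ.n1 (1936, 2168) (by decide +kernel)
           (CovZ.leaf K2_ok TA_l1168 _)
           (CovZ.leaf K2_ok TA_l1169 _))))
        (CovZ.n1 (1952, 2160) (by decide +kernel)
         (CovZ.subM 71629451300933 (by decide +kernel)
          (CovZ.n2 (1944, 2152) (by decide +kernel)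
           (CovZ.n2 (1944, 2160) (by decide +kernel)
            (CovZ.leaf K2_ok TA_l1170 _)
            (CovZ.n1 (1940, 2156) (by decide +kernel)
             (CovZ.leaf K2_ok TA_l1171 _)
             (CovZ.leaf K2_ok TA_l1172 _)))
           (CovZ.subM 71489730641984 (by decide +kernel)
            (CovZ.n1 (1952, 2152) (by decide +kernel)
             (CovZ.n2 (1948, 2148) (by decide +kernel)
              (CovZ.n2 (1948, 2152) (by decide +kernel)
               (CovZ.leaf K2_ok TA_l1173 _)
               (CovZ.n1 (1946, 2150) (by decide +kernel)
                (CovZ.leaf K2_ok TA_l1174 _)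
                (CovZ.leaf K2_ok TA_l1175 _)))
              (CovZ.badM (by decide +kernel)))
             (CovZ.n1 (1948, 2156) (by decide +kernel)
              (CovZ.n2 (1952, 2156) (by decide +kernel)
               (CovZ.leaf K2_ok TA_l1176 _)
               (CovZ.leaf K2_ok TA_l1177 _))
              (CovZ.leaf K2_ok TA_l1178 _))))))
         (CovZ.subM 1123301982545 (by decide +kernel)
          (CovZ.n1 (1944, 2168) (by decide +kernel)
           (CovZ.n2 (1952, 2168) (by decide +kernel)
            (CovZ.leaf K2_ok TA_l1179 _)
            (CovZ.leaf K2_ok TA_l1180 _))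
           (CovZ.n1 (1944, 2160) (by decide +kernel)
            (CovZ.leaf K2_ok TA_l1181 _)
            (CovZ.leaf K2_ok TA_l1182 _)))))))
      (CovZ.subM 71487583158336 (by decide +kernel)
       (CovZ.n1 (1984, 2144) (by decide +kernel)
        (CovZ.badM (by decide +kernel))
        (CovZ.n1 (1968, 2160) (by decide +kernel)
         (CovZ.n2 (1984, 2160) (by decide +kernel)
          (CovZ.badM (by decide +kernel))
          (CovZ.n1 (1976, 2168) (by decide +kernel)
           (CovZ.n2 (1984, 2168) (by decide +kernel)
            (CovZ.n2 (1980, 2164) (by decide +kernel)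
             (CovZ.n2 (1980, 2168) (by decide +kernel)
              (CovZ.badM (by decide +kernel))
              (CovZ.n1 (1978, 2166) (by decide +kernel)
               (CovZ.leaf K2_ok TA_l1183 _)
               (CovZ.leaf K2_ok TA_l1184 _)))
             (CovZ.badM (by decide +kernel)))
            (CovZ.n1 (1980, 2172) (by decide +kernel)
             (CovZ.badM (by decide +kernel))
             (CovZ.n1 (1980, 2168) (by decide +kernel)
              (CovZ.leaf K2_ok TA_l1185 _)
              (CovZ.badM (by decide +kernel)))))
           (CovZ.n1 (1976, 2160) (by decide +kernel)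
            (CovZ.n2 (1972, 2164) (by decide +kernel)
             (CovZ.n2 (1976, 2164) (by decide +kernel)
              (CovZ.badM (by decide +kernel))
              (CovZ.leaf K2_ok TA_l1186 _))
             (CovZ.badM (by decide +kernel)))
            (CovZ.n1 (1980, 2164) (by decide +kernel)
             (CovZ.badM (by decide +kernel))
             (CovZ.n1 (1976, 2164) (by decide +kernel)
              (CovZ.n2 (1978, 2166) (by decide +kernel)
               (CovZ.badM (by decide +kernel))
               (CovZ.leaf K2_ok TA_l1187 _))
              (CovZ.badM (by decide +kernel)))))))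
         (CovZ.n1 (1968, 2144) (by decide +kernel)
          (CovZ.n2 (1960, 2152) (by decide +kernel)
           (CovZ.n2 (1968, 2152) (by decide +kernel)
            (CovZ.badM (by decide +kernel))
            (CovZ.n1 (1964, 2156) (by decide +kernel)
             (CovZ.badM (by decide +kernel))
             (CovZ.badM (by decide +kernel))))
           (CovZ.badM (by decide +kernel)))
          (CovZ.badM (by decide +kernel))))))))
    (CovZ.badM (by decide +kernel))))

theorem TA_s5_2 : SqY TA_M TA_L [0, 7, 4, 3] 1408 1792 128 5 2 :=
  SqY.mk (a := 2048) (b := 2176) (c := 2048) (d := 2176) (by norm_num) (by norm_num) (by norm_num) (by norm_num)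
    (CovZ.topM TA_LL 0 (by decide +kernel) (CovZ.badM (by decide +kernel)))
    (CovZ.topM TA_LL 0 (by decide +kernel) (CovZ.badM (by decide +kernel)))

theorem TA_s6_2 : SqY TA_M TA_L [0, 7, 4, 3] 1408 1792 128 6 2 :=
  SqY.mk (a := 2176) (b := 2304) (c := 2048) (d := 2176) (by norm_num) (by norm_num) (by norm_num) (by norm_num)
    (CovZ.topM TA_LL 0 (by decide +kernel) (CovZ.badM (by decide +kernel)))
    (CovZ.topM TA_LL 0 (by decide +kernel) (CovZ.badM (by decide +kernel)))

theorem TA_s0_3 : SqY TA_M TA_L [0, 7, 4, 3] 1408 1792 128 0 3 :=
  SqY.mk (a := 1408) (b := 1536) (c := 2176) (d := 2304) (by norm_num) (by norm_num) (by norm_num) (by norm_num)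
    (CovZ.topM TA_LL 0 (by decide +kernel) (CovZ.badM (by decide +kernel)))
    (CovZ.topM TA_LL 0 (by decide +kernel) (CovZ.badM (by decide +kernel)))

theorem TA_s1_3 : SqY TA_M TA_L [0, 7, 4, 3] 1408 1792 128 1 3 :=
  SqY.mk (a := 1536) (b := 1664) (c := 2176) (d := 2304) (by norm_num) (by norm_num) (by norm_num) (by norm_num)
    (CovZ.topM TA_LL 0 (by decide +kernel) (CovZ.badM (by decide +kernel)))
    (CovZ.topM TA_LL 0 (by decide +kernel) (CovZ.badM (by decide +kernel)))

theorem TA_s2_3 : SqY TA_M TA_L [0, 7, 4, 3] 1408 1792 128 2 3 :=
  SqY.mk (a := 1664) (b := 1792) (c := 2176) (d := 2304) (by norm_num) (by norm_num) (by norm_num) (by norm_num)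
    (CovZ.topM TA_LL 0 (by decide +kernel) (CovZ.badM (by decide +kernel)))
    (CovZ.topM TA_LL 0 (by decide +kernel) (CovZ.badM (by decide +kernel)))

theorem TA_s3_3 : SqY TA_M TA_L [0, 7, 4, 3] 1408 1792 128 3 3 :=
  SqY.mk (a := 1792) (b := 1920) (c := 2176) (d := 2304) (by norm_num) (by norm_num) (by norm_num) (by norm_num)
    (CovZ.topM TA_LL 83775286678407835 (by decide +kernel) (CovZ.n1 (1856, 2240) (by decide +kernel)
    (CovZ.n2 (1856, 2176) (by decide +kernel)
     (CovZ.badM (by decide +kernel))
     (CovZ.n1 (1888, 2208) (by decide +kernel)
      (CovZ.n2 (1888, 2176) (by decide +kernel)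
       (CovZ.subM 34393292808 (by decide +kernel)
        (CovZ.n2 (1872, 2192) (by decide +kernel)
         (CovZ.n2 (1888, 2192) (by decide +kernel)
          (CovZ.n2 (1880, 2184) (by decide +kernel)
           (CovZ.badM (by decide +kernel))
           (CovZ.n1 (1888, 2184) (by decide +kernel)
            (CovZ.n2 (1884, 2180) (by decide +kernel)
             (CovZ.badM (by decide +kernel))
             (CovZ.n1 (1888, 2180) (by decide +kernel)
              (CovZ.n2 (1886, 2178) (by decide +kernel)
               (CovZ.badM (by decide +kernel))
               (CovZ.n1 (1888, 2178) (by decide +kernel)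
                (CovZ.n2 (1887, 2177) (by decide +kernel)
                 (CovZ.n2 (1887, 2178) (by decide +kernel)
                  (CovZ.leaf K2_ok TA_l1019 _)
                  (CovZ.leaf K2_ok TA_l1020 _))
                 (CovZ.leaf K2_ok TA_l1021 _))
                (CovZ.badM (by decide +kernel))))
              (CovZ.badM (by decide +kernel))))
            (CovZ.badM (by decide +kernel))))
          (CovZ.badM (by decide +kernel)))
         (CovZ.n1 (1872, 2176) (by decide +kernel)
          (CovZ.badM (by decide +kernel))
          (CovZ.n1 (1880, 2184) (by decide +kernel)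
           (CovZ.n2 (1880, 2176) (by decide +kernel)
            (CovZ.badM (by decide +kernel))
            (CovZ.n1 (1884, 2180) (by decide +kernel)
             (CovZ.n2 (1884, 2176) (by decide +kernel)
              (CovZ.n2 (1882, 2178) (by decide +kernel)
               (CovZ.n2 (1884, 2178) (by decide +kernel)
                (CovZ.n2 (1883, 2177) (by decide +kernel)
                 (CovZ.badM (by decide +kernel))
                 (CovZ.leaf K2_ok TA_l1022 _))
                (CovZ.badM (by decide +kernel)))
               (CovZ.n1 (1882, 2176) (by decide +kernel)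
                (CovZ.badM (by decide +kernel))
                (CovZ.n1 (1883, 2177) (by decide +kernel)
                 (CovZ.leaf K2_ok TA_l1023 _)
                 (CovZ.badM (by decide +kernel)))))
              (CovZ.n1 (1886, 2178) (by decide +kernel)
               (CovZ.n2 (1886, 2176) (by decide +kernel)
                (CovZ.leaf K2_ok TA_l1024 _)
                (CovZ.n1 (1887, 2177) (by decide +kernel)
                 (CovZ.leaf K2_ok TA_l1025 _)
                 (CovZ.leaf K2_ok TA_l1026 _)))
               (CovZ.n1 (1884, 2178) (by decide +kernel)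
                (CovZ.badM (by decide +kernel))
                (CovZ.leaf K2_ok TA_l1027 _))))
             (CovZ.badM (by decide +kernel))))
           (CovZ.badM (by decide +kernel))))))
       (CovZ.n1 (1904, 2192) (by decide +kernel)
        (CovZ.n2 (1904, 2176) (by decide +kernel)
         (CovZ.subM 422253989462529 (by decide +kernel)
          (CovZ.n2 (1896, 2184) (by decide +kernel)
           (CovZ.n2 (1904, 2184) (by decide +kernel)
            (CovZ.n2 (1900, 2180) (by decide +kernel)
             (CovZ.subM 2718171136 (by decide +kernel)
              (CovZ.n2 (1900, 2184) (by decide +kernel)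
               (CovZ.n2 (1902, 2182) (by decide +kernel)
                (CovZ.n2 (1900, 2182) (by decide +kernel)
                 (CovZ.n2 (1901, 2183) (by decide +kernel)
                  (CovZ.leaf K2_ok TA_l1028 _)
                  (CovZ.leaf K2_ok TA_l1029 _))
                 (CovZ.leaf K2_ok TA_l1030 _))
                (CovZ.n1 (1902, 2184) (by decide +kernel)
                 (CovZ.leaf K2_ok TA_l1031 _)
                 (CovZ.n1 (1901, 2183) (by decide +kernel)
                  (CovZ.badM (by decide +kernel))
                  (CovZ.leaf K2_ok TA_l1032 _))))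
               (CovZ.n1 (1898, 2182) (by decide +kernel)
                (CovZ.badM (by decide +kernel))
                (CovZ.n1 (1900, 2182) (by decide +kernel)
                 (CovZ.leaf K2_ok TA_l1033 _)
                 (CovZ.leaf K2_ok TA_l1034 _)))))
             (CovZ.n1 (1904, 2180) (by decide +kernel)
              (CovZ.leaf K2_ok TA_l1035 _)
              (CovZ.leaf K2_ok TA_l1036 _)))
            (CovZ.subM 33816576 (by decide +kernel)
             (CovZ.n1 (1900, 2188) (by decide +kernel)
              (CovZ.n2 (1904, 2188) (by decide +kernel)
               (CovZ.n2 (1902, 2186) (by decide +kernel)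
                (CovZ.badM (by decide +kernel))
                (CovZ.n1 (1904, 2186) (by decide +kernel)
                 (CovZ.leaf K2_ok TA_l1037 _)
                 (CovZ.badM (by decide +kernel))))
               (CovZ.badM (by decide +kernel)))
              (CovZ.n1 (1900, 2184) (by decide +kernel)
               (CovZ.badM (by decide +kernel))
               (CovZ.n1 (1902, 2186) (by decide +kernel)
                (CovZ.n2 (1902, 2184) (by decide +kernel)
                 (CovZ.badM (by decide +kernel))
                 (CovZ.n1 (1903, 2185) (by decide +kernel)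
                  (CovZ.leaf K2_ok TA_l1038 _)
                  (CovZ.badM (by decide +kernel))))
                (CovZ.badM (by decide +kernel)))))))
           (CovZ.n1 (1896, 2176) (by decide +kernel)
            (CovZ.n2 (1892, 2180) (by decide +kernel)
             (CovZ.subM 140740341268480 (by decide +kernel)
              (CovZ.n2 (1896, 2180) (by decide +kernel)
               (CovZ.n2 (1894, 2178) (by decide +kernel)
                (CovZ.n2 (1894, 2180) (by decide +kernel)
                 (CovZ.leaf K2_ok TA_l1039 _)
                 (CovZ.n1 (1893, 2179) (by decide +kernel)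
                  (CovZ.badM (by decide +kernel))
                  (CovZ.leaf K2_ok TA_l1040 _)))
                (CovZ.leaf K2_ok TA_l1041 _))
               (CovZ.subM 33554432 (by decide +kernel)
                (CovZ.n1 (1894, 2182) (by decide +kernel)
                 (CovZ.n2 (1896, 2182) (by decide +kernel)
                  (CovZ.leaf K2_ok TA_l1042 _)
                  (CovZ.badM (by decide +kernel)))
                 (CovZ.n1 (1894, 2180) (by decide +kernel)
                  (CovZ.badM (by decide +kernel))
                  (CovZ.leaf K2_ok TA_l1043 _))))))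
             (CovZ.n1 (1892, 2176) (by decide +kernel)
              (CovZ.n2 (1890, 2178) (by decide +kernel)
               (CovZ.n2 (1892, 2178) (by decide +kernel)
                (CovZ.leaf K2_ok TA_l1044 _)
                (CovZ.leaf K2_ok TA_l1045 _))
               (CovZ.leaf K2_ok TA_l1046 _))
              (CovZ.n1 (1894, 2178) (by decide +kernel)
               (CovZ.leaf K2_ok TA_l1047 _)
               (CovZ.n1 (1892, 2178) (by decide +kernel)
                (CovZ.leaf K2_ok TA_l1048 _)
                (CovZ.leaf K2_ok TA_l1049 _)))))
            (CovZ.n1 (1900, 2180) (by decide +kernel)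
             (CovZ.leaf K2_ok TA_l1050 _)
             (CovZ.subM 140740341268480 (by decide +kernel)
              (CovZ.n1 (1896, 2180) (by decide +kernel)
               (CovZ.n2 (1898, 2182) (by decide +kernel)
                (CovZ.leaf K2_ok TA_l1051 _)
                (CovZ.n1 (1896, 2182) (by decide +kernel)
                 (CovZ.badM (by decide +kernel))
                 (CovZ.leaf K2_ok TA_l1052 _)))
               (CovZ.n1 (1898, 2178) (by decide +kernel)
                (CovZ.leaf K2_ok TA_l1053 _)
                (CovZ.n1 (1898, 2180) (by decide +kernel)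
                 (CovZ.leaf K2_ok TA_l1054 _)
                 (CovZ.leaf K2_ok TA_l1055 _)))))))))
         (CovZ.subM 423336306557457 (by decide +kernel)
          (CovZ.n1 (1912, 2184) (by decide +kernel)
           (CovZ.n2 (1912, 2176) (by decide +kernel)
            (CovZ.n2 (1908, 2180) (by decide +kernel)
             (CovZ.leaf K2_ok TA_l1056 _)
             (CovZ.leaf K2_ok TA_l1057 _))
            (CovZ.n1 (1916, 2180) (by decide +kernel)
             (CovZ.leaf K2_ok TA_l1058 _)
             (CovZ.leaf K2_ok TA_l1059 _)))
           (CovZ.n1 (1904, 2184) (by decide +kernel)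
            (CovZ.subM 2718171136 (by decide +kernel)
             (CovZ.n2 (1908, 2188) (by decide +kernel)
              (CovZ.n2 (1908, 2184) (by decide +kernel)
               (CovZ.leaf K2_ok TA_l1060 _)
               (CovZ.n1 (1910, 2186) (by decide +kernel)
                (CovZ.leaf K2_ok TA_l1061 _)
                (CovZ.n1 (1908, 2186) (by decide +kernel)
                 (CovZ.leaf K2_ok TA_l1062 _)
                 (CovZ.leaf K2_ok TA_l1063 _))))
              (CovZ.n1 (1904, 2188) (by decide +kernel)
               (CovZ.badM (by decide +kernel))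
               (CovZ.n1 (1906, 2186) (by decide +kernel)
                (CovZ.n2 (1904, 2186) (by decide +kernel)
                 (CovZ.badM (by decide +kernel))
                 (CovZ.leaf K2_ok TA_l1064 _))
                (CovZ.badM (by decide +kernel))))))
            (CovZ.n1 (1908, 2180) (by decide +kernel)
             (CovZ.n2 (1904, 2180) (by decide +kernel)
              (CovZ.n2 (1906, 2182) (by decide +kernel)
               (CovZ.leaf K2_ok TA_l1065 _)
               (CovZ.leaf K2_ok TA_l1066 _))
              (CovZ.leaf K2_ok TA_l1067 _))
             (CovZ.n1 (1908, 2184) (by decide +kernel)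
              (CovZ.leaf K2_ok TA_l1068 _)
              (CovZ.n1 (1906, 2182) (by decide +kernel)
               (CovZ.leaf K2_ok TA_l1069 _)
               (CovZ.leaf K2_ok TA_l1070 _))))))))
        (CovZ.subM 34393292800 (by decide +kernel)
         (CovZ.n1 (1888, 2192) (by decide +kernel)
          (CovZ.badM (by decide +kernel))
          (CovZ.n1 (1896, 2184) (by decide +kernel)
           (CovZ.n2 (1888, 2184) (by decide +kernel)
            (CovZ.badM (by decide +kernel))
            (CovZ.n1 (1892, 2180) (by decide +kernel)
             (CovZ.n2 (1888, 2180) (by decide +kernel)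
              (CovZ.badM (by decide +kernel))
              (CovZ.n1 (1890, 2178) (by decide +kernel)
               (CovZ.n2 (1888, 2178) (by decide +kernel)
                (CovZ.badM (by decide +kernel))
                (CovZ.n1 (1889, 2177) (by decide +kernel)
                 (CovZ.leaf K2_ok TA_l1071 _)
                 (CovZ.badM (by decide +kernel))))
               (CovZ.badM (by decide +kernel))))
             (CovZ.badM (by decide +kernel))))
           (CovZ.badM (by decide +kernel)))))))
      (CovZ.badM (by decide +kernel))))
    (CovZ.badM (by decide +kernel))))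
    (CovZ.topM TA_LL 83739929429690905 (by decide +kernel) (CovZ.n1 (1856, 2240) (by decide +kernel)
    (CovZ.badM (by decide +kernel))
    (CovZ.n1 (1920, 2240) (by decide +kernel)
     (CovZ.n2 (1888, 2208) (by decide +kernel)
      (CovZ.badM (by decide +kernel))
      (CovZ.n1 (1920, 2208) (by decide +kernel)
       (CovZ.n2 (1904, 2192) (by decide +kernel)
        (CovZ.badM (by decide +kernel))
        (CovZ.n1 (1920, 2192) (by decide +kernel)
         (CovZ.n2 (1912, 2184) (by decide +kernel)
          (CovZ.subM 2718171136 (by decide +kernel)
           (CovZ.n2 (1912, 2192) (by decide +kernel)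
            (CovZ.n2 (1916, 2188) (by decide +kernel)
             (CovZ.n2 (1912, 2188) (by decide +kernel)
              (CovZ.n2 (1914, 2190) (by decide +kernel)
               (CovZ.leaf K2_ok TA_l1072 _)
               (CovZ.n1 (1912, 2190) (by decide +kernel)
                (CovZ.badM (by decide +kernel))
                (CovZ.leaf K2_ok TA_l1073 _)))
              (CovZ.leaf K2_ok TA_l1074 _))
             (CovZ.n1 (1916, 2192) (by decide +kernel)
              (CovZ.leaf K2_ok TA_l1075 _)
              (CovZ.n1 (1914, 2190) (by decide +kernel)
               (CovZ.badM (by decide +kernel))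
               (CovZ.leaf K2_ok TA_l1076 _))))
            (CovZ.n1 (1908, 2188) (by decide +kernel)
             (CovZ.badM (by decide +kernel))
             (CovZ.n1 (1912, 2188) (by decide +kernel)
              (CovZ.n2 (1910, 2186) (by decide +kernel)
               (CovZ.leaf K2_ok TA_l1077 _)
               (CovZ.leaf K2_ok TA_l1078 _))
              (CovZ.n1 (1910, 2190) (by decide +kernel)
               (CovZ.leaf K2_ok TA_l1079 _)
               (CovZ.n1 (1910, 2188) (by decide +kernel)
                (CovZ.badM (by decide +kernel))
                (CovZ.leaf K2_ok TA_l1080 _)))))))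
          (CovZ.n1 (1920, 2184) (by decide +kernel)
           (CovZ.n2 (1916, 2180) (by decide +kernel)
            (CovZ.leaf K2_ok TA_l1081 _)
            (CovZ.leaf K2_ok TA_l1082 _))
           (CovZ.n1 (1916, 2188) (by decide +kernel)
            (CovZ.n2 (1920, 2188) (by decide +kernel)
             (CovZ.leaf K2_ok TA_l1083 _)
             (CovZ.leaf K2_ok TA_l1084 _))
            (CovZ.leaf K2_ok TA_l1085 _))))
         (CovZ.subM 33816576 (by decide +kernel)
          (CovZ.n1 (1912, 2200) (by decide +kernel)
           (CovZ.n2 (1920, 2200) (by decide +kernel)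
            (CovZ.n2 (1916, 2196) (by decide +kernel)
             (CovZ.badM (by decide +kernel))
             (CovZ.n1 (1920, 2196) (by decide +kernel)
              (CovZ.n2 (1918, 2194) (by decide +kernel)
               (CovZ.badM (by decide +kernel))
               (CovZ.leaf K2_ok TA_l1086 _))
              (CovZ.badM (by decide +kernel))))
            (CovZ.badM (by decide +kernel)))
           (CovZ.n1 (1912, 2192) (by decide +kernel)
            (CovZ.badM (by decide +kernel))
            (CovZ.n1 (1916, 2196) (by decide +kernel)
             (CovZ.n2 (1916, 2192) (by decide +kernel)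
              (CovZ.badM (by decide +kernel))
              (CovZ.n1 (1918, 2194) (by decide +kernel)
               (CovZ.leaf K2_ok TA_l1087 _)
               (CovZ.badM (by decide +kernel))))
             (CovZ.badM (by decide +kernel))))))))
       (CovZ.badM (by decide +kernel))))
     (CovZ.badM (by decide +kernel)))))

theorem TA_s4_3 : SqY TA_M TA_L [0, 7, 4, 3] 1408 1792 128 4 3 :=
  SqY.mk (a := 1920) (b := 2048) (c := 2176) (d := 2304) (by norm_num) (by norm_num) (by norm_num) (by norm_num)
    (CovZ.topM TA_LL 424160938345329 (by decide +kernel) (CovZ.n1 (1984, 2240) (by decide +kernel)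
    (CovZ.subM 1673058320721 (by decide +kernel)
     (CovZ.n2 (1984, 2176) (by decide +kernel)
      TA_u16
      TA_u17))
    (CovZ.n1 (1920, 2240) (by decide +kernel)
     (CovZ.badM (by decide +kernel))
     (CovZ.n1 (1952, 2208) (by decide +kernel)
      (CovZ.n2 (1920, 2208) (by decide +kernel)
       (CovZ.subM 33816576 (by decide +kernel)
        (CovZ.n2 (1936, 2224) (by decide +kernel)
         (CovZ.n2 (1936, 2208) (by decide +kernel)
          (CovZ.badM (by decide +kernel))
          (CovZ.n1 (1944, 2216) (by decide +kernel)
           (CovZ.n2 (1944, 2208) (by decide +kernel)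
            (CovZ.badM (by decide +kernel))
            (CovZ.n1 (1948, 2212) (by decide +kernel)
             (CovZ.n2 (1948, 2208) (by decide +kernel)
              (CovZ.leaf K2_ok TA_l1301 _)
              (CovZ.n1 (1950, 2210) (by decide +kernel)
               (CovZ.leaf K2_ok TA_l1302 _)
               (CovZ.leaf K2_ok TA_l1303 _)))
             (CovZ.badM (by decide +kernel))))
           (CovZ.badM (by decide +kernel))))
         (CovZ.badM (by decide +kernel))))
       (CovZ.n1 (1936, 2192) (by decide +kernel)
        (CovZ.n2 (1920, 2192) (by decide +kernel)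
         (CovZ.subM 2718171136 (by decide +kernel)
          (CovZ.n2 (1928, 2200) (by decide +kernel)
           (CovZ.n2 (1928, 2192) (by decide +kernel)
            (CovZ.n2 (1924, 2196) (by decide +kernel)
             (CovZ.n2 (1928, 2196) (by decide +kernel)
              (CovZ.n2 (1926, 2194) (by decide +kernel)
               (CovZ.leaf K2_ok TA_l1304 _)
               (CovZ.leaf K2_ok TA_l1305 _))
              (CovZ.n1 (1926, 2198) (by decide +kernel)
               (CovZ.leaf K2_ok TA_l1306 _)
               (CovZ.leaf K2_ok TA_l1307 _)))
             (CovZ.n1 (1924, 2192) (by decide +kernel)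
              (CovZ.leaf K2_ok TA_l1308 _)
              (CovZ.n1 (1926, 2194) (by decide +kernel)
               (CovZ.leaf K2_ok TA_l1309 _)
               (CovZ.leaf K2_ok TA_l1310 _))))
            (CovZ.n1 (1932, 2196) (by decide +kernel)
             (CovZ.leaf K2_ok TA_l1311 _)
             (CovZ.n1 (1928, 2196) (by decide +kernel)
              (CovZ.n2 (1930, 2198) (by decide +kernel)
               (CovZ.leaf K2_ok TA_l1312 _)
               (CovZ.leaf K2_ok TA_l1313 _))
              (CovZ.leaf K2_ok TA_l1314 _))))
           (CovZ.n1 (1920, 2200) (by decide +kernel)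
            (CovZ.badM (by decide +kernel))
            (CovZ.n1 (1924, 2196) (by decide +kernel)
             (CovZ.n2 (1920, 2196) (by decide +kernel)
              (CovZ.badM (by decide +kernel))
              (CovZ.n1 (1922, 2194) (by decide +kernel)
               (CovZ.n2 (1920, 2194) (by decide +kernel)
                (CovZ.leaf K2_ok TA_l1315 _)
                (CovZ.leaf K2_ok TA_l1316 _))
               (CovZ.leaf K2_ok TA_l1317 _)))
             (CovZ.badM (by decide +kernel))))))
         (CovZ.n1 (1928, 2184) (by decide +kernel)
          (CovZ.n2 (1920, 2184) (by decide +kernel)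
           (CovZ.subM 422232363631104 (by decide +kernel)
            (CovZ.n2 (1924, 2188) (by decide +kernel)
             (CovZ.leaf K2_ok TA_l1318 _)
             (CovZ.n1 (1920, 2188) (by decide +kernel)
              (CovZ.n2 (1922, 2190) (by decide +kernel)
               (CovZ.leaf K2_ok TA_l1319 _)
               (CovZ.leaf K2_ok TA_l1320 _))
              (CovZ.leaf K2_ok TA_l1321 _))))
           (CovZ.leaf K2_ok TA_l1322 _))
          (CovZ.subM 422232363631104 (by decide +kernel)
           (CovZ.n1 (1928, 2192) (by decide +kernel)
            (CovZ.n2 (1932, 2188) (by decide +kernel)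
             (CovZ.n2 (1928, 2188) (by decide +kernel)
              (CovZ.leaf K2_ok TA_l1323 _)
              (CovZ.leaf K2_ok TA_l1324 _))
             (CovZ.leaf K2_ok TA_l1325 _))
            (CovZ.n1 (1924, 2188) (by decide +kernel)
             (CovZ.n2 (1924, 2192) (by decide +kernel)
              (CovZ.leaf K2_ok TA_l1326 _)
              (CovZ.n1 (1922, 2190) (by decide +kernel)
               (CovZ.leaf K2_ok TA_l1327 _)
               (CovZ.leaf K2_ok TA_l1328 _)))
             (CovZ.leaf K2_ok TA_l1329 _))))))
        (CovZ.subM 2718171136 (by decide +kernel)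
         (CovZ.n1 (1936, 2208) (by decide +kernel)
          (CovZ.n2 (1944, 2200) (by decide +kernel)
           (CovZ.n2 (1936, 2200) (by decide +kernel)
            (CovZ.n2 (1940, 2204) (by decide +kernel)
             (CovZ.leaf K2_ok TA_l1330 _)
             (CovZ.n1 (1936, 2204) (by decide +kernel)
              (CovZ.badM (by decide +kernel))
              (CovZ.leaf K2_ok TA_l1331 _)))
            (CovZ.n1 (1940, 2196) (by decide +kernel)
             (CovZ.leaf K2_ok TA_l1332 _)
             (CovZ.leaf K2_ok TA_l1333 _)))
           (CovZ.n1 (1944, 2208) (by decide +kernel)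
            (CovZ.n2 (1948, 2204) (by decide +kernel)
             (CovZ.n2 (1944, 2204) (by decide +kernel)
              (CovZ.leaf K2_ok TA_l1334 _)
              (CovZ.leaf K2_ok TA_l1335 _))
             (CovZ.leaf K2_ok TA_l1336 _))
            (CovZ.n1 (1940, 2204) (by decide +kernel)
             (CovZ.badM (by decide +kernel))
             (CovZ.n1 (1944, 2204) (by decide +kernel)
              (CovZ.leaf K2_ok TA_l1337 _)
              (CovZ.leaf K2_ok TA_l1338 _)))))
          (CovZ.n1 (1928, 2200) (by decide +kernel)
           (CovZ.badM (by decide +kernel))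
           (CovZ.n1 (1936, 2200) (by decide +kernel)
            (CovZ.n2 (1932, 2196) (by decide +kernel)
             (CovZ.n2 (1932, 2200) (by decide +kernel)
              (CovZ.n2 (1934, 2198) (by decide +kernel)
               (CovZ.leaf K2_ok TA_l1339 _)
               (CovZ.leaf K2_ok TA_l1340 _))
              (CovZ.n1 (1930, 2198) (by decide +kernel)
               (CovZ.leaf K2_ok TA_l1341 _)
               (CovZ.leaf K2_ok TA_l1342 _)))
             (CovZ.leaf K2_ok TA_l1343 _))
            (CovZ.n1 (1932, 2204) (by decide +kernel)
             (CovZ.n2 (1936, 2204) (by decide +kernel)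
              (CovZ.n2 (1934, 2202) (by decide +kernel)
               (CovZ.badM (by decide +kernel))
               (CovZ.leaf K2_ok TA_l1344 _))
              (CovZ.badM (by decide +kernel)))
             (CovZ.n1 (1932, 2200) (by decide +kernel)
              (CovZ.badM (by decide +kernel))
              (CovZ.n1 (1934, 2202) (by decide +kernel)
               (CovZ.leaf K2_ok TA_l1345 _)
               (CovZ.badM (by decide +kernel)))))))))))
      (CovZ.subM 33816576 (by decide +kernel)
       (CovZ.n1 (1952, 2240) (by decide +kernel)
        (CovZ.n2 (1968, 2224) (by decide +kernel)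
         (CovZ.n2 (1952, 2224) (by decide +kernel)
          (CovZ.badM (by decide +kernel))
          (CovZ.n1 (1960, 2216) (by decide +kernel)
           (CovZ.n2 (1952, 2216) (by decide +kernel)
            (CovZ.badM (by decide +kernel))
            (CovZ.n1 (1956, 2212) (by decide +kernel)
             (CovZ.n2 (1952, 2212) (by decide +kernel)
              (CovZ.n2 (1954, 2214) (by decide +kernel)
               (CovZ.leaf K2_ok TA_l1346 _)
               (CovZ.badM (by decide +kernel)))
              (CovZ.leaf K2_ok TA_l1347 _))
             (CovZ.n1 (1956, 2216) (by decide +kernel)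
              (CovZ.leaf K2_ok TA_l1348 _)
              (CovZ.n1 (1954, 2214) (by decide +kernel)
               (CovZ.badM (by decide +kernel))
               (CovZ.leaf K2_ok TA_l1349 _)))))
           (CovZ.badM (by decide +kernel))))
         (CovZ.badM (by decide +kernel)))
        (CovZ.n1 (1936, 2224) (by decide +kernel)
         (CovZ.badM (by decide +kernel))
         (CovZ.n1 (1952, 2224) (by decide +kernel)
          (CovZ.n2 (1944, 2216) (by decide +kernel)
           (CovZ.badM (by decide +kernel))
           (CovZ.n1 (1952, 2216) (by decide +kernel)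
            (CovZ.n2 (1948, 2212) (by decide +kernel)
             (CovZ.badM (by decide +kernel))
             (CovZ.n1 (1952, 2212) (by decide +kernel)
              (CovZ.n2 (1950, 2210) (by decide +kernel)
               (CovZ.badM (by decide +kernel))
               (CovZ.leaf K2_ok TA_l1350 _))
              (CovZ.badM (by decide +kernel))))
            (CovZ.badM (by decide +kernel))))
          (CovZ.badM (by decide +kernel))))))))))
    (CovZ.topM TA_LL 424160904790832 (by decide +kernel) (CovZ.n1 (1984, 2240) (by decide +kernel)
    (CovZ.badM (by decide +kernel))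
    (CovZ.subM 1651549929744 (by decide +kernel)
     (CovZ.n1 (2048, 2240) (by decide +kernel)
      (CovZ.n2 (2016, 2208) (by decide +kernel)
       (CovZ.n2 (2016, 2240) (by decide +kernel)
        (CovZ.subM 16 (by decide +kernel)
         (CovZ.n2 (2032, 2224) (by decide +kernel)
          (CovZ.n2 (2016, 2224) (by decide +kernel)
           (CovZ.badM (by decide +kernel))
           (CovZ.n1 (2024, 2216) (by decide +kernel)
            (CovZ.n2 (2016, 2216) (by decide +kernel)
             (CovZ.badM (by decide +kernel))
             (CovZ.n1 (2020, 2212) (by decide +kernel)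
              (CovZ.leaf K2_ok TA_l1351 _)
              (CovZ.n1 (2020, 2216) (by decide +kernel)
               (CovZ.leaf K2_ok TA_l1352 _)
               (CovZ.leaf K2_ok TA_l1353 _))))
            (CovZ.badM (by decide +kernel))))
          (CovZ.badM (by decide +kernel))))
        (CovZ.n1 (2000, 2224) (by decide +kernel)
         (CovZ.subM 2147745792 (by decide +kernel)
          (CovZ.n2 (2000, 2240) (by decide +kernel)
           (CovZ.badM (by decide +kernel))
           (CovZ.n1 (1992, 2232) (by decide +kernel)
            (CovZ.badM (by decide +kernel))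
            (CovZ.n1 (2000, 2232) (by decide +kernel)
             (CovZ.n2 (1996, 2228) (by decide +kernel)
              (CovZ.n2 (1996, 2232) (by decide +kernel)
               (CovZ.leaf K2_ok TA_l1354 _)
               (CovZ.leaf K2_ok TA_l1355 _))
              (CovZ.n1 (2000, 2228) (by decide +kernel)
               (CovZ.leaf K2_ok TA_l1356 _)
               (CovZ.leaf K2_ok TA_l1357 _)))
             (CovZ.n1 (1996, 2236) (by decide +kernel)
              (CovZ.n2 (2000, 2236) (by decide +kernel)
               (CovZ.leaf K2_ok TA_l1358 _)
               (CovZ.leaf K2_ok TA_l1359 _))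
              (CovZ.n1 (1996, 2232) (by decide +kernel)
               (CovZ.leaf K2_ok TA_l1360 _)
               (CovZ.n1 (1998, 2234) (by decide +kernel)
                (CovZ.leaf K2_ok TA_l1361 _)
                (CovZ.leaf K2_ok TA_l1362 _))))))))
         (CovZ.subM 1099511627792 (by decide +kernel)
          (CovZ.n1 (2016, 2224) (by decide +kernel)
           (CovZ.n2 (2008, 2216) (by decide +kernel)
            (CovZ.badM (by decide +kernel))
            (CovZ.n1 (2016, 2216) (by decide +kernel)
             (CovZ.n2 (2012, 2212) (by decide +kernel)
              (CovZ.badM (by decide +kernel))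
              (CovZ.leaf K2_ok TA_l1363 _))
             (CovZ.badM (by decide +kernel))))
           (CovZ.badM (by decide +kernel))))))
       (CovZ.subM 549755813904 (by decide +kernel)
        (CovZ.n1 (2048, 2208) (by decide +kernel)
         (CovZ.n2 (2032, 2192) (by decide +kernel)
          (CovZ.n2 (2032, 2208) (by decide +kernel)
           (CovZ.badM (by decide +kernel))
           (CovZ.n1 (2024, 2200) (by decide +kernel)
            (CovZ.n2 (2024, 2208) (by decide +kernel)
             (CovZ.badM (by decide +kernel))
             (CovZ.n1 (2020, 2204) (by decide +kernel)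
              (CovZ.leaf K2_ok TA_l1364 _)
              (CovZ.badM (by decide +kernel))))
            (CovZ.badM (by decide +kernel))))
          (CovZ.badM (by decide +kernel)))
         (CovZ.n1 (2032, 2224) (by decide +kernel)
          (CovZ.badM (by decide +kernel))
          (CovZ.n1 (2032, 2208) (by decide +kernel)
           (CovZ.n2 (2024, 2216) (by decide +kernel)
            (CovZ.n2 (2032, 2216) (by decide +kernel)
             (CovZ.n2 (2028, 2212) (by decide +kernel)
              (CovZ.n2 (2028, 2216) (by decide +kernel)
               (CovZ.leaf K2_ok TA_l1365 _)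
               (CovZ.leaf K2_ok TA_l1366 _))
              (CovZ.n1 (2032, 2212) (by decide +kernel)
               (CovZ.leaf K2_ok TA_l1367 _)
               (CovZ.leaf K2_ok TA_l1368 _)))
             (CovZ.n1 (2028, 2220) (by decide +kernel)
              (CovZ.badM (by decide +kernel))
              (CovZ.n1 (2028, 2216) (by decide +kernel)
               (CovZ.badM (by decide +kernel))
               (CovZ.badM (by decide +kernel)))))
            (CovZ.n1 (2024, 2208) (by decide +kernel)
             (CovZ.n2 (2020, 2212) (by decide +kernel)
              (CovZ.leaf K2_ok TA_l1369 _)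
              (CovZ.leaf K2_ok TA_l1370 _))
             (CovZ.n1 (2028, 2212) (by decide +kernel)
              (CovZ.n2 (2028, 2208) (by decide +kernel)
               (CovZ.leaf K2_ok TA_l1371 _)
               (CovZ.n1 (2030, 2210) (by decide +kernel)
                (CovZ.badM (by decide +kernel))
                (CovZ.leaf K2_ok TA_l1372 _)))
              (CovZ.n1 (2024, 2212) (by decide +kernel)
               (CovZ.leaf K2_ok TA_l1373 _)
               (CovZ.leaf K2_ok TA_l1374 _)))))
           (CovZ.n1 (2040, 2216) (by decide +kernel)
            (CovZ.badM (by decide +kernel))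
            (CovZ.n1 (2032, 2216) (by decide +kernel)
             (CovZ.badM (by decide +kernel))
             (CovZ.n1 (2036, 2212) (by decide +kernel)
              (CovZ.n2 (2032, 2212) (by decide +kernel)
               (CovZ.badM (by decide +kernel))
               (CovZ.badM (by decide +kernel)))
              (CovZ.badM (by decide +kernel))))))))))
      (CovZ.subM 2147745792 (by decide +kernel)
       (CovZ.n1 (2016, 2272) (by decide +kernel)
        (CovZ.badM (by decide +kernel))
        (CovZ.n1 (2016, 2240) (by decide +kernel)
         (CovZ.n2 (2000, 2256) (by decide +kernel)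
          (CovZ.badM (by decide +kernel))
          (CovZ.n1 (2000, 2240) (by decide +kernel)
           (CovZ.badM (by decide +kernel))
           (CovZ.badM (by decide +kernel))))
         (CovZ.badM (by decide +kernel)))))))))

theorem TA_s5_3 : SqY TA_M TA_L [0, 7, 4, 3] 1408 1792 128 5 3 :=
  SqY.mk (a := 2048) (b := 2176) (c := 2176) (d := 2304) (by norm_num) (by norm_num) (by norm_num) (by norm_num)
    (CovZ.topM TA_LL 3848291221520 (by decide +kernel) (CovZ.n1 (2112, 2240) (by decide +kernel)
    (CovZ.badM (by decide +kernel))
    (CovZ.n1 (2048, 2240) (by decide +kernel)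
     (CovZ.n2 (2080, 2272) (by decide +kernel)
      (CovZ.badM (by decide +kernel))
      (CovZ.badM (by decide +kernel)))
     (CovZ.n1 (2080, 2208) (by decide +kernel)
      (CovZ.n2 (2048, 2208) (by decide +kernel)
       (CovZ.badM (by decide +kernel))
       (CovZ.badM (by decide +kernel)))
      (CovZ.badM (by decide +kernel))))))
    (CovZ.topM TA_LL 3848291221504 (by decide +kernel) (CovZ.n1 (2112, 2240) (by decide +kernel)
    (CovZ.n2 (2112, 2304) (by decide +kernel)
     (CovZ.badM (by decide +kernel))
     (CovZ.n1 (2080, 2272) (by decide +kernel)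
      (CovZ.badM (by decide +kernel))
      (CovZ.badM (by decide +kernel))))
    (CovZ.badM (by decide +kernel))))

theorem TA_s6_3 : SqY TA_M TA_L [0, 7, 4, 3] 1408 1792 128 6 3 :=
  SqY.mk (a := 2176) (b := 2304) (c := 2176) (d := 2304) (by norm_num) (by norm_num) (by norm_num) (by norm_num)
    (CovZ.topM TA_LL 4096 (by decide +kernel) (CovZ.n1 (2240, 2240) (by decide +kernel)
    (CovZ.badM (by decide +kernel))
    (CovZ.badM (by decide +kernel))))
    (CovZ.topM TA_LL 4096 (by decide +kernel) (CovZ.n1 (2240, 2240) (by decide +kernel)
    (CovZ.badM (by decide +kernel))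
    (CovZ.badM (by decide +kernel))))

theorem TA_s0_4 : SqY TA_M TA_L [0, 7, 4, 3] 1408 1792 128 0 4 :=
  SqY.mk (a := 1408) (b := 1536) (c := 2304) (d := 2432) (by norm_num) (by norm_num) (by norm_num) (by norm_num)
    (CovZ.topM TA_LL 0 (by decide +kernel) (CovZ.badM (by decide +kernel)))
    (CovZ.topM TA_LL 0 (by decide +kernel) (CovZ.badM (by decide +kernel)))

theorem TA_s1_4 : SqY TA_M TA_L [0, 7, 4, 3] 1408 1792 128 1 4 :=
  SqY.mk (a := 1536) (b := 1664) (c := 2304) (d := 2432) (by norm_num) (by norm_num) (by norm_num) (by norm_num)
    (CovZ.topM TA_LL 0 (by decide +kernel) (CovZ.badM (by decide +kernel)))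
    (CovZ.topM TA_LL 0 (by decide +kernel) (CovZ.badM (by decide +kernel)))

theorem TA_s2_4 : SqY TA_M TA_L [0, 7, 4, 3] 1408 1792 128 2 4 :=
  SqY.mk (a := 1664) (b := 1792) (c := 2304) (d := 2432) (by norm_num) (by norm_num) (by norm_num) (by norm_num)
    (CovZ.topM TA_LL 0 (by decide +kernel) (CovZ.badM (by decide +kernel)))
    (CovZ.topM TA_LL 0 (by decide +kernel) (CovZ.badM (by decide +kernel)))

theorem TA_s3_4 : SqY TA_M TA_L [0, 7, 4, 3] 1408 1792 128 3 4 :=
  SqY.mk (a := 1792) (b := 1920) (c := 2304) (d := 2432) (by norm_num) (by norm_num) (by norm_num) (by norm_num)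
    (CovZ.topM TA_LL 0 (by decide +kernel) (CovZ.badM (by decide +kernel)))
    (CovZ.topM TA_LL 0 (by decide +kernel) (CovZ.badM (by decide +kernel)))

theorem TA_s4_4 : SqY TA_M TA_L [0, 7, 4, 3] 1408 1792 128 4 4 :=
  SqY.mk (a := 1920) (b := 2048) (c := 2304) (d := 2432) (by norm_num) (by norm_num) (by norm_num) (by norm_num)
    (CovZ.topM TA_LL 0 (by decide +kernel) (CovZ.badM (by decide +kernel)))
    (CovZ.topM TA_LL 0 (by decide +kernel) (CovZ.badM (by decide +kernel)))

theorem TA_s5_4 : SqY TA_M TA_L [0, 7, 4, 3] 1408 1792 128 5 4 :=
  SqY.mk (a := 2048) (b := 2176) (c := 2304) (d := 2432) (by norm_num) (by norm_num) (by norm_num) (by norm_num)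
    (CovZ.topM TA_LL 2684354560 (by decide +kernel) (CovZ.n1 (2112, 2368) (by decide +kernel)
    (CovZ.badM (by decide +kernel))
    (CovZ.badM (by decide +kernel))))
    (CovZ.topM TA_LL 2684354560 (by decide +kernel) (CovZ.n1 (2112, 2368) (by decide +kernel)
    (CovZ.badM (by decide +kernel))
    (CovZ.badM (by decide +kernel))))

theorem TA_s6_4 : SqY TA_M TA_L [0, 7, 4, 3] 1408 1792 128 6 4 :=
  SqY.mk (a := 2176) (b := 2304) (c := 2304) (d := 2432) (by norm_num) (by norm_num) (by norm_num) (by norm_num)
    (CovZ.topM TA_LL 524288 (by decide +kernel) (CovZ.n1 (2240, 2368) (by decide +kernel)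
    (CovZ.badM (by decide +kernel))
    (CovZ.badM (by decide +kernel))))
    (CovZ.topM TA_LL 524288 (by decide +kernel) (CovZ.n1 (2240, 2368) (by decide +kernel)
    (CovZ.badM (by decide +kernel))
    (CovZ.badM (by decide +kernel))))

end Pool.Agent.TET
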