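import Pool.Agent.Helper38_TET.GridY
import Pool.Agent.Helper38_TET.RegS
import Pool.Agent.Helper38_TET.TA_S0

/-!
# MP_c7c9bf_co: certificates, family TA
-/

set_option autoImplicit false
set_option maxRecDepth 100000

namespace Pool.Agent.TET

theorem TA_r0 : ∀ i < 7, SqY TA_M TA_L [0, 7, 4, 3] 1408 1792 128 i 0
  | 0, _ => TA_s0_0
  | 1, _ => TA_s1_0
  | 2, _ => TA_s2_0
  | 3, _ => TA_s3_0
  | 4, _ => TA_s4_0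
  | 5, _ => TA_s5_0
  | 6, _ => TA_s6_0
  | n + 7, h => absurd h (by omega)

theorem TA_r1 : ∀ i < 7, SqY TA_M TA_L [0, 7, 4, 3] 1408 1792 128 i 1
  | 0, _ => TA_s0_1
  | 1, _ => TA_s1_1
  | 2, _ => TA_s2_1
  | 3, _ => TA_s3_1
  | 4, _ => TA_s4_1
  | 5, _ => TA_s5_1
  | 6, _ => TA_s6_1
  | n + 7, h => absurd h (by omega)

theorem TA_r2 : ∀ i < 7, SqY TA_M TA_L [0, 7, 4, 3] 1408 1792 128 i 2
  | 0, _ => TA_s0_2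
  | 1, _ => TA_s1_2
  | 2, _ => TA_s2_2
  | 3, _ => TA_s3_2
  | 4, _ => TA_s4_2
  | 5, _ => TA_s5_2
  | 6, _ => TA_s6_2
  | n + 7, h => absurd h (by omega)

theorem TA_r3 : ∀ i < 7, SqY TA_M TA_L [0, 7, 4, 3] 1408 1792 128 i 3
  | 0, _ => TA_s0_3
  | 1, _ => TA_s1_3
  | 2, _ => TA_s2_3
  | 3, _ => TA_s3_3
  | 4, _ => TA_s4_3
  | 5, _ => TA_s5_3
  | 6, _ => TA_s6_3
  | n + 7, h => absurd h (by omega)

theorem TA_r4 : ∀ i < 7, SqY TA_M TA_L [0, 7, 4, 3] 1408 1792 128 i 4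
  | 0, _ => TA_s0_4
  | 1, _ => TA_s1_4
  | 2, _ => TA_s2_4
  | 3, _ => TA_s3_4
  | 4, _ => TA_s4_4
  | 5, _ => TA_s5_4
  | 6, _ => TA_s6_4
  | n + 7, h => absurd h (by omega)

theorem TA_rows : ∀ j < 5, ∀ i < 7, SqY TA_M TA_L [0, 7, 4, 3] 1408 1792 128 i j
  | 0, _ => TA_r0
  | 1, _ => TA_r1
  | 2, _ => TA_r2
  | 3, _ => TA_r3
  | 4, _ => TA_r4
  | n + 5, h => absurd h (by omega)

theorem TA_cov (X Y : ℝ) (h1 : ((1408 : ℤ) : ℝ) ≤ X) (h2 : X ≤ (2304 : ℤ)) (h3 : ((1792 : ℤ) : ℝ) ≤ Y)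
    (h4 : Y ≤ (2432 : ℤ)) : Out TA_L X Y ∨ GoodV [0, 7, 4, 3] (TA_M.v X Y) := by
  push_cast at h1 h2 h3 h4
  refine gridY (by norm_num) (by norm_num) (by norm_num) TA_rows ?_ ?_ ?_ ?_ <;> push_cast <;> linarith

theorem TA_sc : ∀ a : Fin 3, (![1, 1, 128] : Fin 3 → ℝ) a ≠ 0 := by
  intro a
  fin_cases a <;> simp

theorem TA_fr (x y : ℝ) : scl ![1, 1, 128] (VV ((-21 : ℤ) : ℝ) ((15 : ℤ) : ℝ) ((32 : ℤ) : ℝ) (x / (4 : ℤ)) (y / (4 : ℤ))) =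
    TA_M.v (30720 * x / (1 : ℤ)) (30720 * y / (1 : ℤ)) := by
  funext i j
  fin_cases i <;> fin_cases j <;> simp [scl, VV, FM.v, Z3.ev, TA_M] <;> ring

end Pool.Agent.TET
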