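import Pool.Agent.Helper38_TET.TA_C

/-!
# MP_c7c9bf_co: certificates, family TA
-/

set_option autoImplicit false
set_option maxRecDepth 100000

namespace Pool.Agent.TET

theorem TA_rg0 : ROK [.q ⟨-26, -21, 15, 32⟩ ⟨1168, -1808, -512, 1152⟩, .q ⟨-26, -21, 15, 32⟩ ⟨5372, 680, -12324, 6272⟩, .q ⟨-26, -21, 15, 32⟩ ⟨-12624, 21480, 1768, -10624⟩, .q ⟨-26, -21, 15, 32⟩ ⟨-3624, -4144, 12248, -4480⟩] := by
  refine rok_w (v := ⟨-26, -21, 15, 32⟩) (q := 4) (by decide) (by decide) (by decide) TA_sc (k := 1) (by decide) (Q := [(-263, -263, 36), (1199, -3816, 196), (3627, 1687, -332), (-1771, 3587, -140)])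
    (P := [⟨1105920, -263, -263⟩, ⟨6021120, 1199, -3816⟩, ⟨-10199040, 3627, 1687⟩, ⟨-4300800, -1771, 3587⟩]) rfl rfl
    (List.mem_of_getElem? (i := 0) rfl) TA_fr TA_cov ?_
  · intro X Y h
    simp only [List.forall_mem_cons, List.not_mem_nil, false_imp_iff, implies_true, and_true] at h
    push_cast at h ⊢
    obtain ⟨h0, h1, h2, h3⟩ := h
    refine ⟨⟨?_, ?_⟩, ?_, ?_⟩ <;> linarith

theorem TA_rg1 : ROK [.q ⟨-26, -21, 15, 32⟩ ⟨3252, -14472, 9556, 1664⟩, .q ⟨-26, -21, 15, 32⟩ ⟨10890, -11183, -10427, 10720⟩, .q ⟨-26, -21, 15, 32⟩ ⟨2408, 5836, -11956, 3712⟩, .q ⟨-26, -21, 15, 32⟩ ⟨-6620, 1308, 12352, -7040⟩] := by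
  refine rok_w (v := ⟨-26, -21, 15, 32⟩) (q := 4) (by decide) (by decide) (by decide) TA_sc (k := 1) (by decide) (Q := [(-3345, 2194, 52), (-1037, -3863, 335), (2068, -3424, 116), (-828, 3913, -220)])
    (P := [⟨1597440, -3345, 2194⟩, ⟨10291200, -1037, -3863⟩, ⟨3563520, 2068, -3424⟩, ⟨-6758400, -828, 3913⟩]) rfl rfl
    (List.mem_of_getElem? (i := 1) rfl) TA_fr TA_cov ?_
  · intro X Y h
    simp only [List.forall_mem_cons, List.not_mem_nil, false_imp_iff, implies_true, and_true] at h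
    push_cast at h ⊢
    obtain ⟨h0, h1, h2, h3⟩ := h
    refine ⟨⟨?_, ?_⟩, ?_, ?_⟩ <;> linarith

theorem TA_rg2 : ROK [.q ⟨-26, -21, 15, 32⟩ ⟨-3324, -4648, 12196, -4224⟩, .q ⟨-26, -21, 15, 32⟩ ⟨4328, -2908, -5900, 4480⟩, .q ⟨-26, -21, 15, 32⟩ ⟨-4900, 16168, -8452, -2816⟩, .q ⟨-26, -21, 15, 32⟩ ⟨-12268, 18664, 4228, -10624⟩] := by
  refine rok_w (v := ⟨-26, -21, 15, 32⟩) (q := 4) (by decide) (by decide) (by decide) TA_sc (k := 1) (by decide) (Q := [(-1855, 3544, -132), (8, -2000, 140), (3580, -1783, -88), (2923, 2302, -332)])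
    (P := [⟨-4055040, -1855, 3544⟩, ⟨4300800, 8, -2000⟩, ⟨-2703360, 3580, -1783⟩, ⟨-10199040, 2923, 2302⟩]) rfl rfl
    (List.mem_of_getElem? (i := 2) rfl) TA_fr TA_cov ?_
  · intro X Y h
    simp only [List.forall_mem_cons, List.not_mem_nil, false_imp_iff, implies_true, and_true] at h
    push_cast at h ⊢
    obtain ⟨h0, h1, h2, h3⟩ := h
    refine ⟨⟨?_, ?_⟩, ?_, ?_⟩ <;> linarith

theorem TA_rg3 : ROK [.q ⟨-26, -21, 15, 32⟩ ⟨-4848, -2036, 12388, -5504⟩, .q ⟨-26, -21, 15, 32⟩ ⟨6304, -17964, 7308, 4352⟩, .q ⟨-26, -21, 15, 32⟩ ⟨4308, 2584, -12268, 5376⟩, .q ⟨-26, -21, 15, 32⟩ ⟨-11284, 21632, -1388, -8960⟩] := by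
  refine rok_w (v := ⟨-26, -21, 15, 32⟩) (q := 4) (by decide) (by decide) (by decide) TA_sc (k := 1) (by decide) (Q := [(-1412, 3742, -172), (-3777, 1317, 136), (1528, -3697, 168), (3938, 703, -280)])
    (P := [⟨-5283840, -1412, 3742⟩, ⟨4177920, -3777, 1317⟩, ⟨5160960, 1528, -3697⟩, ⟨-8601600, 3938, 703⟩]) rfl rfl
    (List.mem_of_getElem? (i := 3) rfl) TA_fr TA_cov ?_
  · intro X Y h
    simp only [List.forall_mem_cons, List.not_mem_nil, false_imp_iff, implies_true, and_true] at h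
    push_cast at h ⊢
    obtain ⟨h0, h1, h2, h3⟩ := h
    refine ⟨⟨?_, ?_⟩, ?_, ?_⟩ <;> linarith

theorem TA_rg4 : ROK [.q ⟨-26, -21, 15, 32⟩ ⟨-12260, 21692, 680, -10112⟩, .q ⟨-26, -21, 15, 32⟩ ⟨-788, -1228, 3040, -1024⟩, .q ⟨-26, -21, 15, 32⟩ ⟨11332, -15984, -6868, 11520⟩, .q ⟨-26, -21, 15, 32⟩ ⟨4934, 1533, -12323, 5856⟩] := by
  refine rok_w (v := ⟨-26, -21, 15, 32⟩) (q := 4) (by decide) (by decide) (by decide) TA_sc (k := 1) (by decide) (Q := [(3764, 1355, -316), (-475, 880, -32), (-2106, -3067, 360), (1344, -3767, 183)])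
    (P := [⟨-9707520, 3764, 1355⟩, ⟨-983040, -475, 880⟩, ⟨11059200, -2106, -3067⟩, ⟨5621760, 1344, -3767⟩]) rfl rfl
    (List.mem_of_getElem? (i := 4) rfl) TA_fr TA_cov ?_
  · intro X Y h
    simp only [List.forall_mem_cons, List.not_mem_nil, false_imp_iff, implies_true, and_true] at h
    push_cast at h ⊢
    obtain ⟨h0, h1, h2, h3⟩ := h
    refine ⟨⟨?_, ?_⟩, ?_, ?_⟩ <;> linarith

theorem TA_rg5 : ROK [.q ⟨-26, -21, 15, 32⟩ ⟨312, -5404, 5476, -384⟩, .q ⟨-26, -21, 15, 32⟩ ⟨5526, 441, -12335, 6368⟩, .q ⟨-26, -21, 15, 32⟩ ⟨-2440, 3484, 1132, -2176⟩] := by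
  refine rok_w (v := ⟨-26, -21, 15, 32⟩) (q := 4) (by decide) (by decide) (by decide) TA_sc (k := 1) (by decide) (Q := [(-1414, 1414, -12), (1155, -3830, 199), (514, 538, -68)])
    (P := [⟨-368640, -1414, 1414⟩, ⟨6113280, 1155, -3830⟩, ⟨-2088960, 514, 538⟩]) rfl rfl
    (List.mem_of_getElem? (i := 5) rfl) TA_fr TA_cov ?_
  · intro X Y h
    simp only [List.forall_mem_cons, List.not_mem_nil, false_imp_iff, implies_true, and_true] at h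
    push_cast at h ⊢
    obtain ⟨h0, h1, h2⟩ := h
    refine ⟨⟨?_, ?_⟩, ?_, ?_⟩ <;> linarith

theorem TA_rg6 : ROK [.q ⟨-26, -21, 15, 32⟩ ⟨-4484, 15668, -8752, -2432⟩, .q ⟨-26, -21, 15, 32⟩ ⟨-5800, -188, 12388, -6400⟩, .q ⟨-26, -21, 15, 32⟩ ⟨11856, -18976, -4016, 11136⟩, .q ⟨-26, -21, 15, 32⟩ ⟨5526, 441, -12335, 6368⟩] := by
  refine rok_w (v := ⟨-26, -21, 15, 32⟩) (q := 4) (by decide) (by decide) (by decide) TA_sc (k := 1) (by decide) (Q := [(3518, -1903, -76), (-1097, 3847, -200), (-2917, -2309, 348), (1155, -3830, 199)])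
    (P := [⟨-2334720, 3518, -1903⟩, ⟨-6144000, -1097, 3847⟩, ⟨10690560, -2917, -2309⟩, ⟨6113280, 1155, -3830⟩]) rfl rfl
    (List.mem_of_getElem? (i := 6) rfl) TA_fr TA_cov ?_
  · intro X Y h
    simp only [List.forall_mem_cons, List.not_mem_nil, false_imp_iff, implies_true, and_true] at h
    push_cast at h ⊢
    obtain ⟨h0, h1, h2, h3⟩ := h
    refine ⟨⟨?_, ?_⟩, ?_, ?_⟩ <;> linarith

theorem TA_rg7 : ROK [.q ⟨-26, -21, 15, 32⟩ ⟨-12004, 13420, 9592, -11008⟩, .q ⟨-26, -21, 15, 32⟩ ⟨-2036, -1688, 6156, -2432⟩, .q ⟨-26, -21, 15, 32⟩ ⟨11888, -16156, -6740, 11008⟩, .q ⟨-26, -21, 15, 32⟩ ⟨3716, 3620, -12200, 4864⟩] := by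
  refine rok_w (v := ⟨-26, -21, 15, 32⟩) (q := 4) (by decide) (by decide) (by decide) TA_sc (k := 1) (by decide) (Q := [(1549, 3688, -344), (-821, 1824, -76), (-2233, -2975, 344), (1703, -3620, 152)])
    (P := [⟨-10567680, 1549, 3688⟩, ⟨-2334720, -821, 1824⟩, ⟨10567680, -2233, -2975⟩, ⟨4669440, 1703, -3620⟩]) rfl rfl
    (List.mem_of_getElem? (i := 7) rfl) TA_fr TA_cov ?_
  · intro X Y h
    simp only [List.forall_mem_cons, List.not_mem_nil, false_imp_iff, implies_true, and_true] at h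
    push_cast at h ⊢
    obtain ⟨h0, h1, h2, h3⟩ := h
    refine ⟨⟨?_, ?_⟩, ?_, ?_⟩ <;> linarith

theorem TA_rg8 : ROK [.q ⟨-26, -21, 15, 32⟩ ⟨-9864, 20956, -3540, -7552⟩, .q ⟨-26, -21, 15, 32⟩ ⟨-5248, -1100, 12364, -6016⟩, .q ⟨-26, -21, 15, 32⟩ ⟨11088, -22292, 836, 10368⟩, .q ⟨-26, -21, 15, 32⟩ ⟨5526, 441, -12335, 6368⟩] := by
  refine rok_w (v := ⟨-26, -21, 15, 32⟩) (q := 4) (by decide) (by decide) (by decide) TA_sc (k := 1) (by decide) (Q := [(4000, 0, -236), (-1262, 3796, -188), (-3872, -1006, 324), (1155, -3830, 199)])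
    (P := [⟨-7249920, 4000, 0⟩, ⟨-5775360, -1262, 3796⟩, ⟨9953280, -3872, -1006⟩, ⟨6113280, 1155, -3830⟩]) rfl rfl
    (List.mem_of_getElem? (i := 8) rfl) TA_fr TA_cov ?_
  · intro X Y h
    simp only [List.forall_mem_cons, List.not_mem_nil, false_imp_iff, implies_true, and_true] at h
    push_cast at h ⊢
    obtain ⟨h0, h1, h2, h3⟩ := h
    refine ⟨⟨?_, ?_⟩, ?_, ?_⟩ <;> linarith

theorem TA_rg9 : ROK [.q ⟨-26, -21, 15, 32⟩ ⟨312, -5404, 5476, -384⟩, .q ⟨-26, -21, 15, 32⟩ ⟨4340, 2560, -12276, 5376⟩, .q ⟨-26, -21, 15, 32⟩ ⟨-6324, 10732, 840, -5248⟩, .q ⟨-26, -21, 15, 32⟩ ⟨-4384, -2844, 12348, -5120⟩] := by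
  refine rok_w (v := ⟨-26, -21, 15, 32⟩) (q := 4) (by decide) (by decide) (by decide) TA_sc (k := 1) (by decide) (Q := [(-1414, 1414, -12), (1522, -3699, 168), (1822, 825, -164), (-1551, 3687, -160)])
    (P := [⟨-368640, -1414, 1414⟩, ⟨5160960, 1522, -3699⟩, ⟨-5038080, 1822, 825⟩, ⟨-4915200, -1551, 3687⟩]) rfl rfl
    (List.mem_of_getElem? (i := 9) rfl) TA_fr TA_cov ?_
  · intro X Y h
    simp only [List.forall_mem_cons, List.not_mem_nil, false_imp_iff, implies_true, and_true] at h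
    push_cast at h ⊢
    obtain ⟨h0, h1, h2, h3⟩ := h
    refine ⟨⟨?_, ?_⟩, ?_, ?_⟩ <;> linarith

theorem TA_rg10 : ROK [.q ⟨-26, -21, 15, 32⟩ ⟨-512, 5504, -5376, 384⟩, .q ⟨-26, -21, 15, 32⟩ ⟨-6340, 740, 12384, -6784⟩, .q ⟨-26, -21, 15, 32⟩ ⟨6892, -18652, 6768, 4992⟩, .q ⟨-26, -21, 15, 32⟩ ⟨12078, -14303, -9135, 11360⟩] := by
  refine rok_w (v := ⟨-26, -21, 15, 32⟩) (q := 4) (by decide) (by decide) (by decide) TA_sc (k := 1) (by decide) (Q := [(1439, -1389, 12), (-928, 3891, -212), (-3844, 1107, 156), (-1712, -3615, 355)])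
    (P := [⟨368640, 1439, -1389⟩, ⟨-6512640, -928, 3891⟩, ⟨4792320, -3844, 1107⟩, ⟨10905600, -1712, -3615⟩]) rfl rfl
    (List.mem_of_getElem? (i := 10) rfl) TA_fr TA_cov ?_
  · intro X Y h
    simp only [List.forall_mem_cons, List.not_mem_nil, false_imp_iff, implies_true, and_true] at h
    push_cast at h ⊢
    obtain ⟨h0, h1, h2, h3⟩ := h
    refine ⟨⟨?_, ?_⟩, ?_, ?_⟩ <;> linarith

theorem TA_rg11 : ROK [.q ⟨-26, -21, 15, 32⟩ ⟨9656, -21124, 3660, 7808⟩, .q ⟨-26, -21, 15, 32⟩ ⟨2752, 208, -6160, 3200⟩, .q ⟨-26, -21, 15, 32⟩ ⟨-9864, 20956, -3540, -7552⟩, .q ⟨-26, -21, 15, 32⟩ ⟨-2632, -624, 6200, -2944⟩] := by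
  refine rok_w (v := ⟨-26, -21, 15, 32⟩) (q := 4) (by decide) (by decide) (by decide) TA_sc (k := 1) (by decide) (Q := [(-4000, 0, 244), (577, -1915, 100), (4000, 0, -236), (-639, 1895, -92)])
    (P := [⟨7495680, -4000, 0⟩, ⟨3072000, 577, -1915⟩, ⟨-7249920, 4000, 0⟩, ⟨-2826240, -639, 1895⟩]) rfl rfl
    (List.mem_of_getElem? (i := 11) rfl) TA_fr TA_cov ?_
  · intro X Y h
    simp only [List.forall_mem_cons, List.not_mem_nil, false_imp_iff, implies_true, and_true] at h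
    push_cast at h ⊢
    obtain ⟨h0, h1, h2, h3⟩ := h
    refine ⟨⟨?_, ?_⟩, ?_, ?_⟩ <;> linarith

theorem TA_rg12 : ROK [.q ⟨-26, -21, 15, 32⟩ ⟨8204, -4820, -11960, 8576⟩, .q ⟨-26, -21, 15, 32⟩ ⟨-44, 9548, -11168, 1664⟩, .q ⟨-26, -21, 15, 32⟩ ⟨-4316, -2892, 12328, -5120⟩] := by
  refine rok_w (v := ⟨-26, -21, 15, 32⟩) (q := 4) (by decide) (by decide) (by decide) TA_sc (k := 1) (by decide) (Q := [(202, -3995, 268), (2660, -2987, 52), (-1563, 3682, -160)])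
    (P := [⟨8232960, 202, -3995⟩, ⟨1597440, 2660, -2987⟩, ⟨-4915200, -1563, 3682⟩]) rfl rfl
    (List.mem_of_getElem? (i := 12) rfl) TA_fr TA_cov ?_
  · intro X Y h
    simp only [List.forall_mem_cons, List.not_mem_nil, false_imp_iff, implies_true, and_true] at h
    push_cast at h ⊢
    obtain ⟨h0, h1, h2⟩ := h
    refine ⟨⟨?_, ?_⟩, ?_, ?_⟩ <;> linarith

theorem TA_rg13 : ROK [.q ⟨-26, -21, 15, 32⟩ ⟨-12140, 16796, 6224, -10880⟩, .q ⟨-26, -21, 15, 32⟩ ⟨6844, -18424, 6844, 4736⟩, .q ⟨-26, -21, 15, 32⟩ ⟨4328, -2908, -5900, 4480⟩, .q ⟨-26, -21, 15, 32⟩ ⟨-5484, 16824, -8012, -3328⟩] := by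
  refine rok_w (v := ⟨-26, -21, 15, 32⟩) (q := 4) (by decide) (by decide) (by decide) TA_sc (k := 1) (by decide) (Q := [(2414, 2831, -340), (-3829, 1156, 148), (8, -2000, 140), (3660, -1613, -104)])
    (P := [⟨-10444800, 2414, 2831⟩, ⟨4546560, -3829, 1156⟩, ⟨4300800, 8, -2000⟩, ⟨-3194880, 3660, -1613⟩]) rfl rfl
    (List.mem_of_getElem? (i := 13) rfl) TA_fr TA_cov ?_
  · intro X Y h
    simp only [List.forall_mem_cons, List.not_mem_nil, false_imp_iff, implies_true, and_true] at h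
    push_cast at h ⊢
    obtain ⟨h0, h1, h2, h3⟩ := h
    refine ⟨⟨?_, ?_⟩, ?_, ?_⟩ <;> linarith

theorem TA_rg14 : ROK [.q ⟨-26, -21, 15, 32⟩ ⟨6420, -1312, -12276, 7168⟩, .q ⟨-26, -21, 15, 32⟩ ⟨-4908, 16172, -8448, -2816⟩, .q ⟨-26, -21, 15, 32⟩ ⟨-8572, 5176, 11972, -8576⟩, .q ⟨-26, -21, 15, 32⟩ ⟨312, -5404, 5476, -384⟩] := by
  refine rok_w (v := ⟨-26, -21, 15, 32⟩) (q := 4) (by decide) (by decide) (by decide) TA_sc (k := 1) (by decide) (Q := [(848, -3909, 224), (3581, -1782, -88), (-113, 3998, -268), (-1414, 1414, -12)])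
    (P := [⟨6881280, 848, -3909⟩, ⟨-2703360, 3581, -1782⟩, ⟨-8232960, -113, 3998⟩, ⟨-368640, -1414, 1414⟩]) rfl rfl
    (List.mem_of_getElem? (i := 14) rfl) TA_fr TA_cov ?_
  · intro X Y h
    simp only [List.forall_mem_cons, List.not_mem_nil, false_imp_iff, implies_true, and_true] at h
    push_cast at h ⊢
    obtain ⟨h0, h1, h2, h3⟩ := h
    refine ⟨⟨?_, ?_⟩, ?_, ?_⟩ <;> linarith

theorem TA_rg15 : ROK [.q ⟨-26, -21, 15, 32⟩ ⟨2076, -7836, 4480, 1280⟩, .q ⟨-26, -21, 15, 32⟩ ⟨5526, 441, -12335, 6368⟩, .q ⟨-26, -21, 15, 32⟩ ⟨-10888, 21572, -1980, -8704⟩, .q ⟨-26, -21, 15, 32⟩ ⟨-6916, 1896, 12316, -7296⟩] := by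
  refine rok_w (v := ⟨-26, -21, 15, 32⟩) (q := 4) (by decide) (by decide) (by decide) TA_sc (k := 1) (by decide) (Q := [(-1749, 970, 40), (1155, -3830, 199), (3965, 525, -272), (-723, 3934, -228)])
    (P := [⟨1228800, -1749, 970⟩, ⟨6113280, 1155, -3830⟩, ⟨-8355840, 3965, 525⟩, ⟨-7004160, -723, 3934⟩]) rfl rfl
    (List.mem_of_getElem? (i := 15) rfl) TA_fr TA_cov ?_
  · intro X Y h
    simp only [List.forall_mem_cons, List.not_mem_nil, false_imp_iff, implies_true, and_true] at h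
    push_cast at h ⊢
    obtain ⟨h0, h1, h2, h3⟩ := h
    refine ⟨⟨?_, ?_⟩, ?_, ?_⟩ <;> linarith

theorem TA_rg16 : ROK [.q ⟨-26, -21, 15, 32⟩ ⟨-600, 10388, -10940, 1152⟩, .q ⟨-26, -21, 15, 32⟩ ⟨-6284, 696, 12372, -6784⟩, .q ⟨-26, -21, 15, 32⟩ ⟨12604, -21420, -2320, 11136⟩, .q ⟨-26, -21, 15, 32⟩ ⟨7684, -3796, -12080, 8192⟩] := by
  refine rok_w (v := ⟨-26, -21, 15, 32⟩) (q := 4) (by decide) (by decide) (by decide) TA_sc (k := 1) (by decide) (Q := [(2786, -2870, 36), (-939, 3888, -212), (-3528, -1885, 348), (395, -3980, 256)])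
    (P := [⟨1105920, 2786, -2870⟩, ⟨-6512640, -939, 3888⟩, ⟨10690560, -3528, -1885⟩, ⟨7864320, 395, -3980⟩]) rfl rfl
    (List.mem_of_getElem? (i := 16) rfl) TA_fr TA_cov ?_
  · intro X Y h
    simp only [List.forall_mem_cons, List.not_mem_nil, false_imp_iff, implies_true, and_true] at h
    push_cast at h ⊢
    obtain ⟨h0, h1, h2, h3⟩ := h
    refine ⟨⟨?_, ?_⟩, ?_, ?_⟩ <;> linarith

theorem TA_rg17 : ROK [.q ⟨-26, -21, 15, 32⟩ ⟨820, -6052, 5232, 0⟩, .q ⟨-26, -21, 15, 32⟩ ⟨6284, -1032, -12292, 7040⟩, .q ⟨-26, -21, 15, 32⟩ ⟨684, 8452, -11440, 2304⟩, .q ⟨-26, -21, 15, 32⟩ ⟨-12876, 21176, 2580, -10880⟩] := by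
  refine rok_w (v := ⟨-26, -21, 15, 32⟩) (q := 4) (by decide) (by decide) (by decide) TA_sc (k := 1) (by decide) (Q := [(-1513, 1308, 0), (897, -3898, 220), (2491, -3130, 72), (3509, 1920, -340)])
    (P := [⟨0, -1513, 1308⟩, ⟨6758400, 897, -3898⟩, ⟨2211840, 2491, -3130⟩, ⟨-10444800, 3509, 1920⟩]) rfl rfl
    (List.mem_of_getElem? (i := 17) rfl) TA_fr TA_cov ?_
  · intro X Y h
    simp only [List.forall_mem_cons, List.not_mem_nil, false_imp_iff, implies_true, and_true] at h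
    push_cast at h ⊢
    obtain ⟨h0, h1, h2, h3⟩ := h
    refine ⟨⟨?_, ?_⟩, ?_, ?_⟩ <;> linarith

theorem TA_rg18 : ROK [.q ⟨-26, -21, 15, 32⟩ ⟨1848, -4292, 780, 1664⟩, .q ⟨-26, -21, 15, 32⟩ ⟨3016, 4848, -12088, 4224⟩, .q ⟨-26, -21, 15, 32⟩ ⟨-12556, 18116, 4808, -10368⟩, .q ⟨-26, -21, 15, 32⟩ ⟨-4532, -2424, 12332, -5376⟩] := by
  refine rok_w (v := ⟨-26, -21, 15, 32⟩) (q := 4) (by decide) (by decide) (by decide) TA_sc (k := 1) (by decide) (Q := [(-800, 0, 52), (1905, -3517, 132), (2828, 2417, -324), (-1488, 3713, -168)])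
    (P := [⟨1597440, -800, 0⟩, ⟨4055040, 1905, -3517⟩, ⟨-9953280, 2828, 2417⟩, ⟨-5160960, -1488, 3713⟩]) rfl rfl
    (List.mem_of_getElem? (i := 18) rfl) TA_fr TA_cov ?_
  · intro X Y h
    simp only [List.forall_mem_cons, List.not_mem_nil, false_imp_iff, implies_true, and_true] at h
    push_cast at h ⊢
    obtain ⟨h0, h1, h2, h3⟩ := h
    refine ⟨⟨?_, ?_⟩, ?_, ?_⟩ <;> linarith

theorem TA_rg19 : ROK [.q ⟨-26, -21, 15, 32⟩ ⟨5060, 1240, -12316, 6016⟩, .q ⟨-26, -21, 15, 32⟩ ⟨-12008, 16132, 6756, -10880⟩, .q ⟨-26, -21, 15, 32⟩ ⟨-264, -9524, 11324, -1536⟩] := by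
  refine rok_w (v := ⟨-26, -21, 15, 32⟩) (q := 4) (by decide) (by decide) (by decide) TA_sc (k := 1) (by decide) (Q := [(1297, -3784, 188), (2248, 2964, -340), (-2633, 3011, -48)])
    (P := [⟨5775360, 1297, -3784⟩, ⟨-10444800, 2248, 2964⟩, ⟨-1474560, -2633, 3011⟩]) rfl rfl
    (List.mem_of_getElem? (i := 19) rfl) TA_fr TA_cov ?_
  · intro X Y h
    simp only [List.forall_mem_cons, List.not_mem_nil, false_imp_iff, implies_true, and_true] at h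
    push_cast at h ⊢
    obtain ⟨h0, h1, h2⟩ := h
    refine ⟨⟨?_, ?_⟩, ?_, ?_⟩ <;> linarith

theorem TA_rg20 : ROK [.q ⟨-26, -21, 15, 32⟩ ⟨-880, -3484, 5900, -1536⟩, .q ⟨-26, -21, 15, 32⟩ ⟨9300, -7052, -11592, 9344⟩, .q ⟨-26, -21, 15, 32⟩ ⟨1720, 6844, -11764, 3200⟩, .q ⟨-26, -21, 15, 32⟩ ⟨-12164, 13432, 9612, -10880⟩] := by
  refine rok_w (v := ⟨-26, -21, 15, 32⟩) (q := 4) (by decide) (by decide) (by decide) TA_sc (k := 1) (by decide) (Q := [(-1123, 1655, -48), (-230, -3993, 292), (2236, -3316, 100), (1573, 3678, -340)])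
    (P := [⟨-1474560, -1123, 1655⟩, ⟨8970240, -230, -3993⟩, ⟨3072000, 2236, -3316⟩, ⟨-10444800, 1573, 3678⟩]) rfl rfl
    (List.mem_of_getElem? (i := 20) rfl) TA_fr TA_cov ?_
  · intro X Y h
    simp only [List.forall_mem_cons, List.not_mem_nil, false_imp_iff, implies_true, and_true] at h
    push_cast at h ⊢
    obtain ⟨h0, h1, h2, h3⟩ := h
    refine ⟨⟨?_, ?_⟩, ?_, ?_⟩ <;> linarith

theorem TA_rg21 : ROK [.q ⟨-26, -21, 15, 32⟩ ⟨4198, 2857, -12271, 5216⟩, .q ⟨-26, -21, 15, 32⟩ ⟨-9108, 6656, 11668, -9216⟩, .q ⟨-26, -21, 15, 32⟩ ⟨11868, -21988, -376, 10496⟩] := by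
  refine rok_w (v := ⟨-26, -21, 15, 32⟩) (q := 4) (by decide) (by decide) (by decide) TA_sc (k := 1) (by decide) (Q := [(1570, -3679, 163), (152, 3997, -288), (-3775, -1324, 328)])
    (P := [⟨5007360, 1570, -3679⟩, ⟨-8847360, 152, 3997⟩, ⟨10076160, -3775, -1324⟩]) rfl rfl
    (List.mem_of_getElem? (i := 21) rfl) TA_fr TA_cov ?_
  · intro X Y h
    simp only [List.forall_mem_cons, List.not_mem_nil, false_imp_iff, implies_true, and_true] at h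
    push_cast at h ⊢
    obtain ⟨h0, h1, h2⟩ := h
    refine ⟨⟨?_, ?_⟩, ?_, ?_⟩ <;> linarith

theorem TA_rg22 : ROK [.q ⟨-26, -21, 15, 32⟩ ⟨-8, -2412, 2804, -384⟩, .q ⟨-26, -21, 15, 32⟩ ⟨10972, -11352, -10372, 10752⟩, .q ⟨-26, -21, 15, 32⟩ ⟨2676, 5368, -12012, 3968⟩, .q ⟨-26, -21, 15, 32⟩ ⟨-10980, 10464, 10756, -10240⟩] := by
  refine rok_w (v := ⟨-26, -21, 15, 32⟩) (q := 4) (by decide) (by decide) (by decide) TA_sc (k := 1) (by decide) (Q := [(-666, 746, -12), (-1074, -3853, 336), (1993, -3468, 124), (936, 3889, -320)])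
    (P := [⟨-368640, -666, 746⟩, ⟨10321920, -1074, -3853⟩, ⟨3809280, 1993, -3468⟩, ⟨-9830400, 936, 3889⟩]) rfl rfl
    (List.mem_of_getElem? (i := 22) rfl) TA_fr TA_cov ?_
  · intro X Y h
    simp only [List.forall_mem_cons, List.not_mem_nil, false_imp_iff, implies_true, and_true] at h
    push_cast at h ⊢
    obtain ⟨h0, h1, h2, h3⟩ := h
    refine ⟨⟨?_, ?_⟩, ?_, ?_⟩ <;> linarith

theorem TA_rg23 : ROK [.q ⟨-26, -21, 15, 32⟩ ⟨104, -1532, 1556, -128⟩, .q ⟨-26, -21, 15, 32⟩ ⟨872, -588, -1180, 896⟩, .q ⟨-26, -21, 15, 32⟩ ⟨2620, 5404, -11992, 3968⟩, .q ⟨-26, -21, 15, 32⟩ ⟨-12408, 17492, 5540, -10624⟩] := by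
  refine rok_w (v := ⟨-26, -21, 15, 32⟩) (q := 4) (by decide) (by decide) (by decide) TA_sc (k := 1) (by decide) (Q := [(-404, 404, -4), (0, -400, 28), (2002, -3463, 124), (2630, 2630, -332)])
    (P := [⟨-122880, -404, 404⟩, ⟨860160, 0, -400⟩, ⟨3809280, 2002, -3463⟩, ⟨-10199040, 2630, 2630⟩]) rfl rfl
    (List.mem_of_getElem? (i := 23) rfl) TA_fr TA_cov ?_
  · intro X Y h
    simp only [List.forall_mem_cons, List.not_mem_nil, false_imp_iff, implies_true, and_true] at h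
    push_cast at h ⊢
    obtain ⟨h0, h1, h2, h3⟩ := h
    refine ⟨⟨?_, ?_⟩, ?_, ?_⟩ <;> linarith

end Pool.Agent.TET
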