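import Pool.Agent.Helper38_TET.TB_M
import Pool.Agent.Helper38_TET.TB_L
import Pool.Agent.Helper38_TET.TB_0
import Pool.Agent.Helper38_TET.TB_1
import Pool.Agent.Helper38_TET.TB_13
import Pool.Agent.Helper38_TET.TB_14
import Pool.Agent.Helper38_TET.TB_15
import Pool.Agent.Helper38_TET.TB_16
import Pool.Agent.Helper38_TET.TB_35
import Pool.Agent.Helper38_TET.TB_248
import Pool.Agent.Helper38_TET.TB_250
import Pool.Agent.Helper38_TET.TB_251
import Pool.Agent.Helper38_TET.TB_252
import Pool.Agent.Helper38_TET.TB_256
import Pool.Agent.Helper38_TET.TB_323
import Pool.Agent.Helper38_TET.TB_333

/-!
# MP_c7c9bf_co: certificates, family TB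
-/

set_option autoImplicit false
set_option maxRecDepth 100000

namespace Pool.Agent.TET

theorem TB_u0 : CovZ TB_M (toL (selN TB_LN 8196114235863813587958422023729421534651980256563729047684715954798644048310083444053262731917758606152769363872606289403336235105282392838373378)) [0, 7, 6, 1] (-30720, -1536) (-30720, -768) (-31488, -768) :=
    (CovZ.subM 8196114235863813587958422023729421497075298932182397401450042466750792890446230341497502888756052894983588578437404009428136604115006401412071424 (by decide +kernel)
      (CovZ.n2 (-31104, -1152) (by decide +kernel)
       (CovZ.n2 (-31104, -768) (by decide +kernel)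
        (CovZ.n2 (-30912, -960) (by decide +kernel)
         (CovZ.badM (by decide +kernel))
         (CovZ.n1 (-30912, -768) (by decide +kernel)
          (CovZ.n2 (-30816, -864) (by decide +kernel)
           (CovZ.n2 (-30912, -864) (by decide +kernel)
            (CovZ.leaf K2_ok TB_l0 _)
            (CovZ.n1 (-30864, -912) (by decide +kernel)
             (CovZ.badM (by decide +kernel))
             (CovZ.leaf K2_ok TB_l1 _)))
           (CovZ.n1 (-30816, -768) (by decide +kernel)
            (CovZ.n2 (-30768, -816) (by decide +kernel)
             (CovZ.leaf K2_ok TB_l2 _)
             (CovZ.n1 (-30768, -768) (by decide +kernel)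
              (CovZ.leaf K2_ok TB_l3 _)
              (CovZ.leaf K2_ok TB_l4 _)))
            (CovZ.n1 (-30864, -816) (by decide +kernel)
             (CovZ.leaf K2_ok TB_l5 _)
             (CovZ.leaf K2_ok TB_l6 _))))
          (CovZ.badM (by decide +kernel))))
        (CovZ.badM (by decide +kernel)))
       (CovZ.n1 (-30720, -1152) (by decide +kernel)
        (CovZ.n2 (-30912, -1344) (by decide +kernel)
         (CovZ.n2 (-30912, -1152) (by decide +kernel)
          (CovZ.badM (by decide +kernel))
          (CovZ.badM (by decide +kernel)))
         (CovZ.badM (by decide +kernel)))
        (CovZ.n1 (-30912, -960) (by decide +kernel)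
         (CovZ.n2 (-30720, -960) (by decide +kernel)
          (CovZ.n2 (-30816, -1056) (by decide +kernel)
           (CovZ.n2 (-30816, -960) (by decide +kernel)
            (CovZ.n2 (-30768, -1008) (by decide +kernel)
             (CovZ.n2 (-30816, -1008) (by decide +kernel)
              (CovZ.leaf K2_ok TB_l49777 _)
              (CovZ.n1 (-30792, -1032) (by decide +kernel)
               (CovZ.leaf K2_ok TB_l49778 _)
               (CovZ.leaf K2_ok TB_l49779 _)))
             (CovZ.n1 (-30768, -960) (by decide +kernel)
              (CovZ.n2 (-30744, -984) (by decide +kernel)
               (CovZ.leaf K2_ok TB_l49780 _)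
               (CovZ.leaf K2_ok TB_l37153 _))
              (CovZ.n1 (-30792, -984) (by decide +kernel)
               (CovZ.leaf K2_ok TB_l49781 _)
               (CovZ.leaf K2_ok TB_l49782 _))))
            (CovZ.n1 (-30864, -1008) (by decide +kernel)
             (CovZ.n2 (-30864, -960) (by decide +kernel)
              (CovZ.leaf K2_ok TB_l49783 _)
              (CovZ.badM (by decide +kernel)))
             (CovZ.n1 (-30816, -1008) (by decide +kernel)
              (CovZ.n2 (-30840, -1032) (by decide +kernel)
               (CovZ.leaf K2_ok TB_l49784 _)
               (CovZ.leaf K2_ok TB_l49785 _))
              (CovZ.n1 (-30840, -984) (by decide +kernel)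
               (CovZ.leaf K2_ok TB_l49786 _)
               (CovZ.leaf K2_ok TB_l49787 _)))))
           (CovZ.n1 (-30720, -1056) (by decide +kernel)
            (CovZ.badM (by decide +kernel))
            (CovZ.n1 (-30768, -1008) (by decide +kernel)
             (CovZ.n2 (-30720, -1008) (by decide +kernel)
              (CovZ.badM (by decide +kernel))
              (CovZ.n1 (-30744, -984) (by decide +kernel)
               (CovZ.n2 (-30720, -984) (by decide +kernel)
                (CovZ.badM (by decide +kernel))
                (CovZ.leaf K2_ok TB_l37154 _))
               (CovZ.badM (by decide +kernel))))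
             (CovZ.badM (by decide +kernel)))))
          (CovZ.n1 (-30816, -864) (by decide +kernel)
           (CovZ.n2 (-30720, -864) (by decide +kernel)
            (CovZ.n2 (-30768, -912) (by decide +kernel)
             (CovZ.n2 (-30768, -864) (by decide +kernel)
              (CovZ.leaf K2_ok TB_l37155 _)
              (CovZ.leaf K2_ok TB_l37156 _))
             (CovZ.n1 (-30720, -912) (by decide +kernel)
              (CovZ.n2 (-30744, -936) (by decide +kernel)
               (CovZ.leaf K2_ok TB_l37157 _)
               (CovZ.leaf K2_ok TB_l37158 _))
              (CovZ.leaf K2_ok TB_l37159 _)))
            (CovZ.n1 (-30768, -816) (by decide +kernel)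
             (CovZ.n2 (-30720, -816) (by decide +kernel)
              (CovZ.leaf K2_ok TB_l37160 _)
              (CovZ.leaf K2_ok TB_l7 _))
             (CovZ.leaf K2_ok TB_l37161 _)))
           (CovZ.n1 (-30816, -960) (by decide +kernel)
            (CovZ.n2 (-30864, -912) (by decide +kernel)
             (CovZ.leaf K2_ok TB_l37162 _)
             (CovZ.leaf K2_ok TB_l49788 _))
            (CovZ.n1 (-30768, -912) (by decide +kernel)
             (CovZ.n2 (-30768, -960) (by decide +kernel)
              (CovZ.leaf K2_ok TB_l37163 _)
              (CovZ.n1 (-30744, -936) (by decide +kernel)
               (CovZ.leaf K2_ok TB_l37164 _)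
               (CovZ.leaf K2_ok TB_l37165 _)))
             (CovZ.n1 (-30816, -912) (by decide +kernel)
              (CovZ.leaf K2_ok TB_l37166 _)
              (CovZ.leaf K2_ok TB_l37167 _))))))
         (CovZ.n1 (-30912, -1152) (by decide +kernel)
          (CovZ.badM (by decide +kernel))
          (CovZ.n1 (-30816, -1056) (by decide +kernel)
           (CovZ.badM (by decide +kernel))
           (CovZ.n1 (-30912, -1056) (by decide +kernel)
            (CovZ.n2 (-30864, -1008) (by decide +kernel)
             (CovZ.n2 (-30864, -1056) (by decide +kernel)
              (CovZ.badM (by decide +kernel))
              (CovZ.n1 (-30840, -1032) (by decide +kernel)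
               (CovZ.badM (by decide +kernel))
               (CovZ.badM (by decide +kernel))))
             (CovZ.badM (by decide +kernel)))
            (CovZ.n1 (-30864, -1104) (by decide +kernel)
             (CovZ.badM (by decide +kernel))
             (CovZ.n1 (-30864, -1056) (by decide +kernel)
              (CovZ.badM (by decide +kernel))
              (CovZ.badM (by decide +kernel)))))))))))

theorem TB_u1 : CovZ TB_M (toL (selN TB_LN 8196114235863813587958422023729421534651980256563729047684715954798644048310083444053262731917758606152769363872606289403336235105282392838373378)) [0, 7, 6, 1] (-30720, -768) (-30720, 0) (-31488, -768) :=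
    (CovZ.n1 (-31104, -384) (by decide +kernel)
      (CovZ.n2 (-30720, -384) (by decide +kernel)
       (CovZ.subM 8196114235863813587958422023729421497075298932182397401451037113223612463730541105993796530436253807285183276530740928951754668916645588724350978 (by decide +kernel)
        (CovZ.n2 (-30912, -576) (by decide +kernel)
         (CovZ.n2 (-30912, -384) (by decide +kernel)
          (CovZ.n2 (-30816, -480) (by decide +kernel)
           (CovZ.n2 (-30912, -480) (by decide +kernel)
            (CovZ.leaf K2_ok TB_l8 _)
            (CovZ.n1 (-30864, -528) (by decide +kernel)
             (CovZ.badM (by decide +kernel))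
             (CovZ.leaf K2_ok TB_l9 _)))
           (CovZ.n1 (-30816, -384) (by decide +kernel)
            (CovZ.leaf K2_ok TB_l10 _)
            (CovZ.leaf K2_ok TB_l11 _)))
          (CovZ.subM 994646472819573284310764496293641680200912301594695434880927953786318994025066751066114 (by decide +kernel)
           (CovZ.n1 (-31008, -480) (by decide +kernel)
            (CovZ.n2 (-31008, -384) (by decide +kernel)
             (CovZ.n2 (-30960, -432) (by decide +kernel)
              (CovZ.leaf K2_ok TB_l12 _)
              (CovZ.leaf K2_ok TB_l13 _))
             (CovZ.n1 (-31056, -432) (by decide +kernel)
              (CovZ.leaf K2_ok TB_l14 _)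
              (CovZ.leaf K2_ok TB_l15 _)))
            (CovZ.n1 (-30912, -480) (by decide +kernel)
             (CovZ.badM (by decide +kernel))
             (CovZ.n1 (-30960, -432) (by decide +kernel)
              (CovZ.leaf K2_ok TB_l16 _)
              (CovZ.leaf K2_ok TB_l17 _))))))
         (CovZ.n1 (-30720, -576) (by decide +kernel)
          (CovZ.subM 8196114235863813587958422023729421497075298932182397401450042466750792890446230341497502888756052894983588578437404009428136604115006401412071424 (by decide +kernel)
           (CovZ.n2 (-30816, -672) (by decide +kernel)
            (CovZ.n2 (-30816, -576) (by decide +kernel)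
             (CovZ.n2 (-30768, -624) (by decide +kernel)
              (CovZ.leaf K2_ok TB_l18 _)
              (CovZ.leaf K2_ok TB_l19 _))
             (CovZ.n1 (-30864, -624) (by decide +kernel)
              (CovZ.leaf K2_ok TB_l20 _)
              (CovZ.leaf K2_ok TB_l21 _)))
            (CovZ.n1 (-30720, -672) (by decide +kernel)
             (CovZ.n2 (-30768, -720) (by decide +kernel)
              (CovZ.leaf K2_ok TB_l22 _)
              (CovZ.leaf K2_ok TB_l23 _))
             (CovZ.n1 (-30768, -624) (by decide +kernel)
              (CovZ.leaf K2_ok TB_l24 _)
              (CovZ.leaf K2_ok TB_l25 _)))))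
          (CovZ.n1 (-30816, -480) (by decide +kernel)
           (CovZ.n2 (-30720, -480) (by decide +kernel)
            (CovZ.leaf K2_ok TB_l26 _)
            (CovZ.leaf K2_ok TB_l27 _))
           (CovZ.n1 (-30816, -576) (by decide +kernel)
            (CovZ.n2 (-30864, -528) (by decide +kernel)
             (CovZ.leaf K2_ok TB_l28 _)
             (CovZ.leaf K2_ok TB_l29 _))
            (CovZ.leaf K2_ok TB_l30 _))))))
       (CovZ.n1 (-30912, -192) (by decide +kernel)
        (CovZ.n2 (-30720, -192) (by decide +kernel)
         (CovZ.n2 (-30816, -288) (by decide +kernel)
          (CovZ.leaf K2_ok TB_l31 _)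
          (CovZ.leaf K2_ok TB_l32 _))
         (CovZ.n1 (-30816, -96) (by decide +kernel)
          (CovZ.leaf K2_ok TB_l33 _)
          (CovZ.leaf K2_ok TB_l34 _)))
        (CovZ.n1 (-30912, -384) (by decide +kernel)
         (CovZ.subM 994646472819573284310764496293641680200912301594696764108923738702191897832127031410690 (by decide +kernel)
          (CovZ.n2 (-31008, -288) (by decide +kernel)
           (CovZ.n2 (-30912, -288) (by decide +kernel)
            (CovZ.leaf K2_ok TB_l35 _)
            (CovZ.leaf K2_ok TB_l36 _))
           (CovZ.n1 (-31008, -384) (by decide +kernel)
            (CovZ.n2 (-31056, -336) (by decide +kernel)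
             (CovZ.leaf K2_ok TB_l37 _)
             (CovZ.leaf K2_ok TB_l38 _))
            (CovZ.leaf K2_ok TB_l39 _))))
         (CovZ.n1 (-30816, -288) (by decide +kernel)
          (CovZ.n2 (-30816, -384) (by decide +kernel)
           (CovZ.leaf K2_ok TB_l40 _)
           (CovZ.leaf K2_ok TB_l41 _))
          (CovZ.n1 (-30912, -288) (by decide +kernel)
           (CovZ.leaf K2_ok TB_l42 _)
           (CovZ.leaf K2_ok TB_l43 _))))))
      (CovZ.subM 8196114235863813587958422023729421497075298932182397401451037113223612463730541105993796530436253807285183276530740928951754668916645588724350978 (by decide +kernel)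
       (CovZ.n1 (-31104, -768) (by decide +kernel)
        (CovZ.subM 994646472819573284310764496293641680200912301594695434880927953786318994025066751066114 (by decide +kernel)
         (CovZ.n2 (-31296, -576) (by decide +kernel)
          (CovZ.n2 (-31104, -576) (by decide +kernel)
           (CovZ.badM (by decide +kernel))
           (CovZ.n1 (-31200, -480) (by decide +kernel)
            (CovZ.n2 (-31104, -480) (by decide +kernel)
             (CovZ.badM (by decide +kernel))
             (CovZ.n1 (-31152, -432) (by decide +kernel)
              (CovZ.n2 (-31104, -432) (by decide +kernel)
               (CovZ.leaf K2_ok TB_l44 _)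
               (CovZ.n1 (-31128, -408) (by decide +kernel)
                (CovZ.leaf K2_ok TB_l45 _)
                (CovZ.leaf K2_ok TB_l46 _)))
              (CovZ.n1 (-31152, -480) (by decide +kernel)
               (CovZ.n2 (-31176, -456) (by decide +kernel)
                (CovZ.leaf K2_ok TB_l47 _)
                (CovZ.badM (by decide +kernel)))
               (CovZ.n1 (-31128, -456) (by decide +kernel)
                (CovZ.badM (by decide +kernel))
                (CovZ.leaf K2_ok TB_l49 _)))))
            (CovZ.badM (by decide +kernel))))
          (CovZ.badM (by decide +kernel))))
        (CovZ.n1 (-30912, -576) (by decide +kernel)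
         (CovZ.subM 8196114235863813587958422023729421497075298932182397401450042466750792890446230341497502888756052894983588578437404009428136604115006401412071424 (by decide +kernel)
          (CovZ.n2 (-30912, -768) (by decide +kernel)
           (CovZ.badM (by decide +kernel))
           (CovZ.n1 (-30816, -672) (by decide +kernel)
            (CovZ.n2 (-30816, -768) (by decide +kernel)
             (CovZ.n2 (-30864, -720) (by decide +kernel)
              (CovZ.n2 (-30816, -720) (by decide +kernel)
               (CovZ.leaf K2_ok TB_l50 _)
               (CovZ.leaf K2_ok TB_l51 _))
              (CovZ.leaf K2_ok TB_l52 _))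
             (CovZ.n1 (-30768, -720) (by decide +kernel)
              (CovZ.n2 (-30768, -768) (by decide +kernel)
               (CovZ.leaf K2_ok TB_l53 _)
               (CovZ.leaf K2_ok TB_l54 _))
              (CovZ.leaf K2_ok TB_l55 _)))
            (CovZ.n1 (-30912, -672) (by decide +kernel)
             (CovZ.n2 (-30864, -624) (by decide +kernel)
              (CovZ.n2 (-30864, -672) (by decide +kernel)
               (CovZ.badM (by decide +kernel))
               (CovZ.leaf K2_ok TB_l56 _))
              (CovZ.badM (by decide +kernel)))
             (CovZ.n1 (-30864, -720) (by decide +kernel)
              (CovZ.badM (by decide +kernel))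
              (CovZ.leaf K2_ok TB_l57 _))))))
         (CovZ.subM 994646472819573284310764496293641680200912301594695434880927953786318994025066751066114 (by decide +kernel)
          (CovZ.n1 (-31104, -576) (by decide +kernel)
           (CovZ.n2 (-31008, -480) (by decide +kernel)
            (CovZ.badM (by decide +kernel))
            (CovZ.n1 (-31104, -480) (by decide +kernel)
             (CovZ.n2 (-31056, -432) (by decide +kernel)
              (CovZ.n2 (-31056, -480) (by decide +kernel)
               (CovZ.n2 (-31080, -456) (by decide +kernel)
                (CovZ.leaf K2_ok TB_l58 _)
                (CovZ.badM (by decide +kernel)))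
               (CovZ.leaf K2_ok TB_l60 _))
              (CovZ.n1 (-31104, -432) (by decide +kernel)
               (CovZ.leaf K2_ok TB_l61 _)
               (CovZ.leaf K2_ok TB_l62 _)))
             (CovZ.badM (by decide +kernel))))
           (CovZ.badM (by decide +kernel))))))))

theorem TB_u2 : CovZ TB_M (toL (selN TB_LN 8196114235863813587958422023729421534651980256563729047684715954798644048310083444053262731917758606152769363872607557053936463334683889541578754)) [0, 7, 6, 1] (-30720, 0) (-31488, 0) (-31488, -768) :=
    (CovZ.n2 (-31104, -384) (by decide +kernel)
      (CovZ.subM 994646472819573284310764496293641680200912301768921335973711882595667926238689058881538 (by decide +kernel)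
       (CovZ.n2 (-31488, -384) (by decide +kernel)
        (CovZ.n2 (-31296, -192) (by decide +kernel)
         (CovZ.n2 (-31296, -384) (by decide +kernel)
          (CovZ.n2 (-31392, -288) (by decide +kernel)
           (CovZ.n2 (-31296, -288) (by decide +kernel)
            (CovZ.n2 (-31344, -336) (by decide +kernel)
             (CovZ.leaf K2_ok TB_l114 _)
             (CovZ.leaf K2_ok TB_l115 _))
            (CovZ.leaf K2_ok TB_l116 _))
           (CovZ.n1 (-31392, -384) (by decide +kernel)
            (CovZ.n2 (-31440, -336) (by decide +kernel)
             (CovZ.leaf K2_ok TB_l117 _)
             (CovZ.leaf K2_ok TB_l118 _))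
            (CovZ.n1 (-31344, -336) (by decide +kernel)
             (CovZ.leaf K2_ok TB_l119 _)
             (CovZ.leaf K2_ok TB_l120 _))))
          (CovZ.n1 (-31200, -288) (by decide +kernel)
           (CovZ.n2 (-31200, -384) (by decide +kernel)
            (CovZ.n2 (-31248, -336) (by decide +kernel)
             (CovZ.leaf K2_ok TB_l121 _)
             (CovZ.n1 (-31248, -384) (by decide +kernel)
              (CovZ.leaf K2_ok TB_l122 _)
              (CovZ.leaf K2_ok TB_l123 _)))
            (CovZ.n1 (-31152, -336) (by decide +kernel)
             (CovZ.n2 (-31152, -384) (by decide +kernel)
              (CovZ.leaf K2_ok TB_l124 _)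
              (CovZ.leaf K2_ok TB_l125 _))
             (CovZ.leaf K2_ok TB_l126 _)))
           (CovZ.n1 (-31296, -288) (by decide +kernel)
            (CovZ.leaf K2_ok TB_l127 _)
            (CovZ.leaf K2_ok TB_l128 _))))
         (CovZ.n1 (-31488, -192) (by decide +kernel)
          (CovZ.n2 (-31392, -96) (by decide +kernel)
           (CovZ.leaf K2_ok TB_l129 _)
           (CovZ.leaf K2_ok TB_l130 _))
          (CovZ.n1 (-31392, -288) (by decide +kernel)
           (CovZ.n2 (-31488, -288) (by decide +kernel)
            (CovZ.leaf K2_ok TB_l131 _)
            (CovZ.n1 (-31440, -336) (by decide +kernel)
             (CovZ.leaf K2_ok TB_l132 _)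
             (CovZ.leaf K2_ok TB_l133 _)))
           (CovZ.n1 (-31392, -192) (by decide +kernel)
            (CovZ.leaf K2_ok TB_l134 _)
            (CovZ.leaf K2_ok TB_l135 _)))))
        (CovZ.n1 (-31296, -576) (by decide +kernel)
         (CovZ.n2 (-31488, -576) (by decide +kernel)
          (CovZ.n2 (-31392, -480) (by decide +kernel)
           (CovZ.badM (by decide +kernel))
           (CovZ.n1 (-31488, -480) (by decide +kernel)
            (CovZ.n2 (-31440, -432) (by decide +kernel)
             (CovZ.n2 (-31440, -480) (by decide +kernel)
              (CovZ.n2 (-31464, -456) (by decide +kernel)
               (CovZ.leaf K2_ok TB_l136 _)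
               (CovZ.badM (by decide +kernel)))
              (CovZ.n1 (-31416, -456) (by decide +kernel)
               (CovZ.badM (by decide +kernel))
               (CovZ.leaf K2_ok TB_l139 _)))
             (CovZ.n1 (-31488, -432) (by decide +kernel)
              (CovZ.leaf K2_ok TB_l140 _)
              (CovZ.n1 (-31464, -456) (by decide +kernel)
               (CovZ.leaf K2_ok TB_l141 _)
               (CovZ.leaf K2_ok TB_l142 _))))
            (CovZ.badM (by decide +kernel))))
          (CovZ.badM (by decide +kernel)))
         (CovZ.n1 (-31296, -384) (by decide +kernel)
          (CovZ.n2 (-31200, -480) (by decide +kernel)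
           (CovZ.n2 (-31296, -480) (by decide +kernel)
            (CovZ.n2 (-31248, -432) (by decide +kernel)
             (CovZ.n2 (-31248, -480) (by decide +kernel)
              (CovZ.n2 (-31272, -456) (by decide +kernel)
               (CovZ.leaf K2_ok TB_l143 _)
               (CovZ.badM (by decide +kernel)))
              (CovZ.n1 (-31224, -456) (by decide +kernel)
               (CovZ.badM (by decide +kernel))
               (CovZ.leaf K2_ok TB_l144 _)))
             (CovZ.n1 (-31296, -432) (by decide +kernel)
              (CovZ.leaf K2_ok TB_l145 _)
              (CovZ.n1 (-31272, -456) (by decide +kernel)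
               (CovZ.leaf K2_ok TB_l146 _)
               (CovZ.leaf K2_ok TB_l147 _))))
            (CovZ.badM (by decide +kernel)))
           (CovZ.n1 (-31200, -384) (by decide +kernel)
            (CovZ.n2 (-31152, -432) (by decide +kernel)
             (CovZ.n2 (-31200, -432) (by decide +kernel)
              (CovZ.leaf K2_ok TB_l148 _)
              (CovZ.n1 (-31176, -456) (by decide +kernel)
               (CovZ.leaf K2_ok TB_l149 _)
               (CovZ.leaf K2_ok TB_l150 _)))
             (CovZ.n1 (-31152, -384) (by decide +kernel)
              (CovZ.leaf K2_ok TB_l151 _)
              (CovZ.leaf K2_ok TB_l152 _)))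
            (CovZ.n1 (-31248, -432) (by decide +kernel)
             (CovZ.n2 (-31248, -384) (by decide +kernel)
              (CovZ.leaf K2_ok TB_l153 _)
              (CovZ.leaf K2_ok TB_l154 _))
             (CovZ.n1 (-31200, -432) (by decide +kernel)
              (CovZ.n2 (-31224, -456) (by decide +kernel)
               (CovZ.leaf K2_ok TB_l155 _)
               (CovZ.leaf K2_ok TB_l156 _))
              (CovZ.n1 (-31224, -408) (by decide +kernel)
               (CovZ.leaf K2_ok TB_l157 _)
               (CovZ.leaf K2_ok TB_l158 _))))))
          (CovZ.n1 (-31392, -480) (by decide +kernel)
           (CovZ.n2 (-31392, -384) (by decide +kernel)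
            (CovZ.n2 (-31344, -432) (by decide +kernel)
             (CovZ.n2 (-31392, -432) (by decide +kernel)
              (CovZ.leaf K2_ok TB_l159 _)
              (CovZ.n1 (-31368, -456) (by decide +kernel)
               (CovZ.leaf K2_ok TB_l160 _)
               (CovZ.leaf K2_ok TB_l161 _)))
             (CovZ.n1 (-31344, -384) (by decide +kernel)
              (CovZ.leaf K2_ok TB_l162 _)
              (CovZ.leaf K2_ok TB_l163 _)))
            (CovZ.n1 (-31440, -432) (by decide +kernel)
             (CovZ.n2 (-31440, -384) (by decide +kernel)
              (CovZ.leaf K2_ok TB_l164 _)
              (CovZ.leaf K2_ok TB_l165 _))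
             (CovZ.n1 (-31392, -432) (by decide +kernel)
              (CovZ.n2 (-31416, -456) (by decide +kernel)
               (CovZ.leaf K2_ok TB_l166 _)
               (CovZ.leaf K2_ok TB_l167 _))
              (CovZ.leaf K2_ok TB_l168 _))))
           (CovZ.n1 (-31296, -480) (by decide +kernel)
            (CovZ.badM (by decide +kernel))
            (CovZ.n1 (-31344, -432) (by decide +kernel)
             (CovZ.n2 (-31296, -432) (by decide +kernel)
              (CovZ.n2 (-31320, -456) (by decide +kernel)
               (CovZ.leaf K2_ok TB_l169 _)
               (CovZ.leaf K2_ok TB_l170 _))
              (CovZ.leaf K2_ok TB_l171 _))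
             (CovZ.n1 (-31344, -480) (by decide +kernel)
              (CovZ.n2 (-31368, -456) (by decide +kernel)
               (CovZ.leaf K2_ok TB_l172 _)
               (CovZ.badM (by decide +kernel)))
              (CovZ.n1 (-31320, -456) (by decide +kernel)
               (CovZ.badM (by decide +kernel))
               (CovZ.leaf K2_ok TB_l173 _))))))))))
      (CovZ.n1 (-31104, 0) (by decide +kernel)
       (CovZ.n2 (-30912, -192) (by decide +kernel)
        (CovZ.subM 994646472819573284310764496293641680200912301768921335973711882595667926238689058881538 (by decide +kernel)
         (CovZ.n2 (-31104, -192) (by decide +kernel)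
          (CovZ.n2 (-31008, -96) (by decide +kernel)
           (CovZ.leaf K2_ok TB_l174 _)
           (CovZ.leaf K2_ok TB_l175 _))
          (CovZ.n1 (-31008, -288) (by decide +kernel)
           (CovZ.n2 (-31104, -288) (by decide +kernel)
            (CovZ.leaf K2_ok TB_l176 _)
            (CovZ.n1 (-31056, -336) (by decide +kernel)
             (CovZ.leaf K2_ok TB_l177 _)
             (CovZ.leaf K2_ok TB_l178 _)))
           (CovZ.n1 (-31008, -192) (by decide +kernel)
            (CovZ.leaf K2_ok TB_l179 _)
            (CovZ.leaf K2_ok TB_l180 _)))))
        (CovZ.n1 (-30912, 0) (by decide +kernel)
         (CovZ.n2 (-30816, -96) (by decide +kernel)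
          (CovZ.leaf K2_ok TB_l181 _)
          (CovZ.leaf K2_ok TB_l182 _))
         (CovZ.n1 (-31008, -96) (by decide +kernel)
          (CovZ.leaf K2_ok TB_l183 _)
          (CovZ.leaf K2_ok TB_l184 _))))
       (CovZ.subM 994646472819573284310764496293641680200912301768921335973711882595667926238689058881538 (by decide +kernel)
        (CovZ.n1 (-31296, -192) (by decide +kernel)
         (CovZ.n2 (-31296, 0) (by decide +kernel)
          (CovZ.n2 (-31200, -96) (by decide +kernel)
           (CovZ.leaf K2_ok TB_l185 _)
           (CovZ.leaf K2_ok TB_l186 _))
          (CovZ.n1 (-31392, -96) (by decide +kernel)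
           (CovZ.leaf K2_ok TB_l187 _)
           (CovZ.leaf K2_ok TB_l188 _)))
         (CovZ.n1 (-31104, -192) (by decide +kernel)
          (CovZ.n2 (-31200, -288) (by decide +kernel)
           (CovZ.n2 (-31200, -192) (by decide +kernel)
            (CovZ.leaf K2_ok TB_l189 _)
            (CovZ.leaf K2_ok TB_l190 _))
           (CovZ.n1 (-31104, -288) (by decide +kernel)
            (CovZ.n2 (-31152, -336) (by decide +kernel)
             (CovZ.leaf K2_ok TB_l191 _)
             (CovZ.leaf K2_ok TB_l192 _))
            (CovZ.leaf K2_ok TB_l193 _)))
          (CovZ.n1 (-31200, -96) (by decide +kernel)
           (CovZ.leaf K2_ok TB_l194 _)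
           (CovZ.leaf K2_ok TB_l195 _)))))))

theorem TB_u3 : CovZ TB_M (toL (selN TB_LN 8196114235863813587958422023729421534651980256563729047684715954798644048310083444053262731917758606152769363872607557053936463334683889541578754)) [0, 7, 6, 1] (-31488, 0) (-32256, 0) (-31488, -768) :=
    (CovZ.subM 994646472819573284310764496293641680200912301768921335973711882595667926238689058881538 (by decide +kernel)
      (CovZ.n1 (-31872, -384) (by decide +kernel)
       (CovZ.n2 (-31872, 0) (by decide +kernel)
        (CovZ.n2 (-31680, -192) (by decide +kernel)
         (CovZ.n2 (-31872, -192) (by decide +kernel)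
          (CovZ.n2 (-31776, -96) (by decide +kernel)
           (CovZ.leaf K2_ok TB_l196 _)
           (CovZ.leaf K2_ok TB_l197 _))
          (CovZ.badM (by decide +kernel)))
         (CovZ.n1 (-31680, 0) (by decide +kernel)
          (CovZ.n2 (-31584, -96) (by decide +kernel)
           (CovZ.leaf K2_ok TB_l203 _)
           (CovZ.leaf K2_ok TB_l204 _))
          (CovZ.n1 (-31776, -96) (by decide +kernel)
           (CovZ.leaf K2_ok TB_l205 _)
           (CovZ.leaf K2_ok TB_l206 _))))
        (CovZ.n1 (-32064, -192) (by decide +kernel)
         (CovZ.badM (by decide +kernel))
         (CovZ.n1 (-31872, -192) (by decide +kernel)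
          (CovZ.badM (by decide +kernel))
          (CovZ.n1 (-31968, -96) (by decide +kernel)
           (CovZ.leaf K2_ok TB_l214 _)
           (CovZ.leaf K2_ok TB_l215 _)))))
       (CovZ.n1 (-31488, -384) (by decide +kernel)
        (CovZ.n2 (-31680, -576) (by decide +kernel)
         (CovZ.n2 (-31680, -384) (by decide +kernel)
          (CovZ.n2 (-31584, -480) (by decide +kernel)
           (CovZ.badM (by decide +kernel))
           (CovZ.n1 (-31584, -384) (by decide +kernel)
            (CovZ.n2 (-31536, -432) (by decide +kernel)
             (CovZ.badM (by decide +kernel))
             (CovZ.n1 (-31536, -384) (by decide +kernel)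
              (CovZ.leaf K2_ok TB_l224 _)
              (CovZ.badM (by decide +kernel))))
            (CovZ.badM (by decide +kernel))))
          (CovZ.badM (by decide +kernel)))
         (CovZ.n1 (-31488, -576) (by decide +kernel)
          (CovZ.n2 (-31584, -672) (by decide +kernel)
           (CovZ.n2 (-31584, -576) (by decide +kernel)
            (CovZ.badM (by decide +kernel))
            (CovZ.badM (by decide +kernel)))
           (CovZ.badM (by decide +kernel)))
          (CovZ.n1 (-31584, -480) (by decide +kernel)
           (CovZ.n2 (-31488, -480) (by decide +kernel)
            (CovZ.n2 (-31536, -528) (by decide +kernel)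
             (CovZ.n2 (-31536, -480) (by decide +kernel)
              (CovZ.n2 (-31512, -504) (by decide +kernel)
               (CovZ.badM (by decide +kernel))
               (CovZ.n1 (-31512, -480) (by decide +kernel)
                (CovZ.n2 (-31500, -492) (by decide +kernel)
                 (CovZ.badM (by decide +kernel))
                 (CovZ.n1 (-31500, -480) (by decide +kernel)
                  (CovZ.badM (by decide +kernel))
                  (CovZ.badM (by decide +kernel))))
                (CovZ.badM (by decide +kernel))))
              (CovZ.badM (by decide +kernel)))
             (CovZ.badM (by decide +kernel)))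
            (CovZ.n1 (-31536, -432) (by decide +kernel)
             (CovZ.n2 (-31488, -432) (by decide +kernel)
              (CovZ.n2 (-31512, -456) (by decide +kernel)
               (CovZ.leaf K2_ok TB_l249 _)
               (CovZ.leaf K2_ok TB_l250 _))
              (CovZ.leaf K2_ok TB_l251 _))
             (CovZ.n1 (-31536, -480) (by decide +kernel)
              (CovZ.badM (by decide +kernel))
              (CovZ.n1 (-31512, -456) (by decide +kernel)
               (CovZ.leaf K2_ok TB_l253 _)
               (CovZ.badM (by decide +kernel))))))
           (CovZ.n1 (-31584, -576) (by decide +kernel)
            (CovZ.badM (by decide +kernel))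
            (CovZ.n1 (-31536, -528) (by decide +kernel)
             (CovZ.badM (by decide +kernel))
             (CovZ.badM (by decide +kernel)))))))
        (CovZ.n1 (-31680, -192) (by decide +kernel)
         (CovZ.n2 (-31488, -192) (by decide +kernel)
          (CovZ.n2 (-31584, -288) (by decide +kernel)
           (CovZ.n2 (-31584, -192) (by decide +kernel)
            (CovZ.leaf K2_ok TB_l255 _)
            (CovZ.badM (by decide +kernel)))
           (CovZ.n1 (-31488, -288) (by decide +kernel)
            (CovZ.n2 (-31536, -336) (by decide +kernel)
             (CovZ.leaf K2_ok TB_l257 _)
             (CovZ.leaf K2_ok TB_l258 _))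
            (CovZ.leaf K2_ok TB_l259 _)))
          (CovZ.n1 (-31584, -96) (by decide +kernel)
           (CovZ.leaf K2_ok TB_l260 _)
           (CovZ.leaf K2_ok TB_l261 _)))
         (CovZ.n1 (-31680, -384) (by decide +kernel)
          (CovZ.badM (by decide +kernel))
          (CovZ.n1 (-31584, -288) (by decide +kernel)
           (CovZ.n2 (-31584, -384) (by decide +kernel)
            (CovZ.badM (by decide +kernel))
            (CovZ.n1 (-31536, -336) (by decide +kernel)
             (CovZ.n2 (-31536, -384) (by decide +kernel)
              (CovZ.badM (by decide +kernel))
              (CovZ.leaf K2_ok TB_l273 _))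
             (CovZ.badM (by decide +kernel))))
           (CovZ.badM (by decide +kernel))))))))

theorem TB_u4 : CovZ TB_M (toL (selN TB_LN 307865750090656250177576235455861927840989930198232585938754563077243650274939247418262570209895590182788964810754)) [0, 7, 6, 1] (-29184, 0) (-29568, -384) (-29184, -768) :=
    (CovZ.n2 (-29184, -384) (by decide +kernel)
        (CovZ.n2 (-29376, -576) (by decide +kernel)
         (CovZ.n2 (-29376, -384) (by decide +kernel)
          (CovZ.n2 (-29280, -480) (by decide +kernel)
           (CovZ.subM 2983939418458719852932293488880925136383708209076367182358985121378274564865581275152386 (by decide +kernel)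
            (CovZ.n2 (-29376, -480) (by decide +kernel)
             (CovZ.n2 (-29328, -432) (by decide +kernel)
              (CovZ.subM 994646472819573284310764496293641680200912301768922665200440016911312600644252636020738 (by decide +kernel)
               (CovZ.n2 (-29328, -480) (by decide +kernel)
                (CovZ.n2 (-29352, -456) (by decide +kernel)
                 (CovZ.n2 (-29328, -456) (by decide +kernel)
                  (CovZ.badM (by decide +kernel))
                  (CovZ.leaf K2_ok TB_l2003 _))
                 (CovZ.badM (by decide +kernel)))
                (CovZ.n1 (-29304, -456) (by decide +kernel)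
                 (CovZ.badM (by decide +kernel))
                 (CovZ.n1 (-29328, -456) (by decide +kernel)
                  (CovZ.leaf K2_ok TB_l2011 _)
                  (CovZ.badM (by decide +kernel))))))
              (CovZ.n1 (-29376, -432) (by decide +kernel)
               (CovZ.n2 (-29352, -408) (by decide +kernel)
                (CovZ.leaf K2_ok TB_l2013 _)
                (CovZ.leaf K2_ok TB_l2014 _))
               (CovZ.n1 (-29352, -456) (by decide +kernel)
                (CovZ.n2 (-29376, -456) (by decide +kernel)
                 (CovZ.leaf K2_ok TB_l2015 _)
                 (CovZ.leaf K2_ok TB_l2016 _))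
                (CovZ.leaf K2_ok TB_l2017 _))))
             (CovZ.badM (by decide +kernel))))
           (CovZ.n1 (-29280, -384) (by decide +kernel)
            (CovZ.n2 (-29232, -432) (by decide +kernel)
             (CovZ.subM 2983939418458719852932293488880925136383708209076367182358985121378274564865581275152386 (by decide +kernel)
              (CovZ.n2 (-29280, -432) (by decide +kernel)
               (CovZ.n2 (-29256, -408) (by decide +kernel)
                (CovZ.leaf K2_ok TB_l2018 _)
                (CovZ.leaf K2_ok TB_l2019 _))
               (CovZ.n1 (-29256, -456) (by decide +kernel)
                (CovZ.n2 (-29280, -456) (by decide +kernel)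
                 (CovZ.leaf K2_ok TB_l2020 _)
                 (CovZ.leaf K2_ok TB_l2021 _))
                (CovZ.leaf K2_ok TB_l2022 _))))
             (CovZ.n1 (-29232, -384) (by decide +kernel)
              (CovZ.n2 (-29208, -408) (by decide +kernel)
               (CovZ.leaf K2_ok TB_l2023 _)
               (CovZ.leaf K2_ok TB_l2024 _))
              (CovZ.n1 (-29256, -408) (by decide +kernel)
               (CovZ.leaf K2_ok TB_l2025 _)
               (CovZ.leaf K2_ok TB_l2026 _))))
            (CovZ.subM 2983939418458719852932293488880925136383708209076367182358985121378274564865581275152386 (by decide +kernel)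
             (CovZ.n1 (-29328, -432) (by decide +kernel)
              (CovZ.n2 (-29328, -384) (by decide +kernel)
               (CovZ.leaf K2_ok TB_l2027 _)
               (CovZ.n1 (-29352, -408) (by decide +kernel)
                (CovZ.leaf K2_ok TB_l2028 _)
                (CovZ.leaf K2_ok TB_l2029 _)))
              (CovZ.n1 (-29280, -432) (by decide +kernel)
               (CovZ.n2 (-29304, -456) (by decide +kernel)
                (CovZ.leaf K2_ok TB_l2030 _)
                (CovZ.n1 (-29280, -456) (by decide +kernel)
                 (CovZ.badM (by decide +kernel))
                 (CovZ.leaf K2_ok TB_l2033 _)))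
               (CovZ.leaf K2_ok TB_l2034 _))))))
          (CovZ.subM 2983939418458719852932293488880925136383708209076367182358985121378274564865581275152386 (by decide +kernel)
           (CovZ.n1 (-29472, -480) (by decide +kernel)
            (CovZ.n2 (-29472, -384) (by decide +kernel)
             (CovZ.n2 (-29424, -432) (by decide +kernel)
              (CovZ.n2 (-29472, -432) (by decide +kernel)
               (CovZ.n2 (-29448, -408) (by decide +kernel)
                (CovZ.leaf K2_ok TB_l2035 _)
                (CovZ.leaf K2_ok TB_l2036 _))
               (CovZ.n1 (-29448, -456) (by decide +kernel)
                (CovZ.n2 (-29472, -456) (by decide +kernel)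
                 (CovZ.leaf K2_ok TB_l2037 _)
                 (CovZ.leaf K2_ok TB_l2038 _))
                (CovZ.leaf K2_ok TB_l2039 _)))
              (CovZ.n1 (-29424, -384) (by decide +kernel)
               (CovZ.leaf K2_ok TB_l2040 _)
               (CovZ.n1 (-29448, -408) (by decide +kernel)
                (CovZ.leaf K2_ok TB_l2041 _)
                (CovZ.leaf K2_ok TB_l2042 _))))
             (CovZ.n1 (-29520, -432) (by decide +kernel)
              (CovZ.n2 (-29520, -384) (by decide +kernel)
               (CovZ.leaf K2_ok TB_l2043 _)
               (CovZ.n1 (-29544, -408) (by decide +kernel)
                (CovZ.leaf K2_ok TB_l2044 _)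
                (CovZ.leaf K2_ok TB_l2045 _)))
              (CovZ.n1 (-29472, -432) (by decide +kernel)
               (CovZ.subM 994646472819573284310764496293641680200912301594698093336919523618064801639187311755266 (by decide +kernel)
                (CovZ.n2 (-29496, -456) (by decide +kernel)
                 (CovZ.leaf K2_ok TB_l2046 _)
                 (CovZ.n1 (-29472, -456) (by decide +kernel)
                  (CovZ.n2 (-29484, -468) (by decide +kernel)
                   (CovZ.leaf K2_ok TB_l2047 _)
                   (CovZ.leaf K2_ok TB_l2048 _))
                  (CovZ.leaf K2_ok TB_l2049 _))))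
               (CovZ.leaf K2_ok TB_l2050 _))))
            (CovZ.n1 (-29376, -480) (by decide +kernel)
             (CovZ.badM (by decide +kernel))
             (CovZ.n1 (-29424, -432) (by decide +kernel)
              (CovZ.n2 (-29376, -432) (by decide +kernel)
               (CovZ.n2 (-29400, -456) (by decide +kernel)
                (CovZ.leaf K2_ok TB_l2051 _)
                (CovZ.n1 (-29376, -456) (by decide +kernel)
                 (CovZ.leaf K2_ok TB_l2052 _)
                 (CovZ.leaf K2_ok TB_l2053 _)))
               (CovZ.leaf K2_ok TB_l2054 _))
              (CovZ.subM 994646472819573284310764496293641680200912301594698093336919523618064801639187311755266 (by decide +kernel)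
               (CovZ.n1 (-29424, -480) (by decide +kernel)
                (CovZ.n2 (-29448, -456) (by decide +kernel)
                 (CovZ.n2 (-29424, -456) (by decide +kernel)
                  (CovZ.n2 (-29436, -468) (by decide +kernel)
                   (CovZ.leaf K2_ok TB_l2055 _)
                   (CovZ.leaf K2_ok TB_l2056 _))
                  (CovZ.leaf K2_ok TB_l2057 _))
                 (CovZ.n1 (-29448, -480) (by decide +kernel)
                  (CovZ.n2 (-29460, -468) (by decide +kernel)
                   (CovZ.leaf K2_ok TB_l2058 _)
                   (CovZ.badM (by decide +kernel)))
                  (CovZ.n1 (-29436, -468) (by decide +kernel)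
                   (CovZ.badM (by decide +kernel))
                   (CovZ.leaf K2_ok TB_l2060 _))))
                (CovZ.n1 (-29400, -456) (by decide +kernel)
                 (CovZ.n2 (-29400, -480) (by decide +kernel)
                  (CovZ.n2 (-29412, -468) (by decide +kernel)
                   (CovZ.leaf K2_ok TB_l2061 _)
                   (CovZ.badM (by decide +kernel)))
                  (CovZ.n1 (-29388, -468) (by decide +kernel)
                   (CovZ.badM (by decide +kernel))
                   (CovZ.leaf K2_ok TB_l2064 _)))
                 (CovZ.n1 (-29424, -456) (by decide +kernel)
                  (CovZ.leaf K2_ok TB_l2065 _)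
                  (CovZ.leaf K2_ok TB_l2066 _))))))))))
         (CovZ.n1 (-29184, -576) (by decide +kernel)
          (CovZ.badM (by decide +kernel))
          (CovZ.n1 (-29280, -480) (by decide +kernel)
           (CovZ.n2 (-29184, -480) (by decide +kernel)
            (CovZ.badM (by decide +kernel))
            (CovZ.n1 (-29232, -432) (by decide +kernel)
             (CovZ.n2 (-29184, -432) (by decide +kernel)
              (CovZ.subM 994648369957163348499310316080660062543594569744351427055441239384368986292968656732162 (by decide +kernel)
               (CovZ.n2 (-29208, -456) (by decide +kernel)
                (CovZ.leaf K2_ok TB_l2068 _)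
                (CovZ.n1 (-29184, -456) (by decide +kernel)
                 (CovZ.n2 (-29196, -468) (by decide +kernel)
                  (CovZ.leaf K2_ok TB_l2069 _)
                  (CovZ.leaf K2_ok TB_l2070 _))
                 (CovZ.leaf K2_ok TB_l2071 _))))
              (CovZ.leaf K2_ok TB_l2072 _))
             (CovZ.subM 994648369957163348499310316080660062543594569744351427055441239384368986292968656732162 (by decide +kernel)
              (CovZ.n1 (-29232, -480) (by decide +kernel)
               (CovZ.n2 (-29256, -456) (by decide +kernel)
                (CovZ.n2 (-29232, -456) (by decide +kernel)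
                 (CovZ.leaf K2_ok TB_l2073 _)
                 (CovZ.leaf K2_ok TB_l2074 _))
                (CovZ.n1 (-29256, -480) (by decide +kernel)
                 (CovZ.leaf K2_ok TB_l2075 _)
                 (CovZ.leaf K2_ok TB_l2076 _)))
               (CovZ.n1 (-29208, -456) (by decide +kernel)
                (CovZ.n2 (-29208, -480) (by decide +kernel)
                 (CovZ.leaf K2_ok TB_l2077 _)
                 (CovZ.leaf K2_ok TB_l2078 _))
                (CovZ.n1 (-29232, -456) (by decide +kernel)
                 (CovZ.leaf K2_ok TB_l2079 _)
                 (CovZ.leaf K2_ok TB_l2080 _)))))))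
           (CovZ.badM (by decide +kernel)))))
        (CovZ.n1 (-29376, -192) (by decide +kernel)
         (CovZ.n2 (-29184, -192) (by decide +kernel)
          (CovZ.n2 (-29280, -288) (by decide +kernel)
           (CovZ.n2 (-29280, -192) (by decide +kernel)
            (CovZ.leaf K2_ok TB_l2081 _)
            (CovZ.leaf K2_ok TB_l2082 _))
           (CovZ.n1 (-29184, -288) (by decide +kernel)
            (CovZ.n2 (-29232, -336) (by decide +kernel)
             (CovZ.leaf K2_ok TB_l2083 _)
             (CovZ.n1 (-29184, -336) (by decide +kernel)
              (CovZ.leaf K2_ok TB_l2084 _)
              (CovZ.leaf K2_ok TB_l2085 _)))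
            (CovZ.leaf K2_ok TB_l2086 _)))
          (CovZ.n1 (-29280, -96) (by decide +kernel)
           (CovZ.leaf K2_ok TB_l2087 _)
           (CovZ.leaf K2_ok TB_l2088 _)))
         (CovZ.n1 (-29376, -384) (by decide +kernel)
          (CovZ.subM 37576681324381331646234673488047851157863853076227686926118190007993791916835762893663404231925362312704688130 (by decide +kernel)
           (CovZ.n2 (-29472, -288) (by decide +kernel)
            (CovZ.n2 (-29376, -288) (by decide +kernel)
             (CovZ.n2 (-29424, -336) (by decide +kernel)
              (CovZ.leaf K2_ok TB_l2089 _)
              (CovZ.n1 (-29376, -336) (by decide +kernel)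
               (CovZ.leaf K2_ok TB_l2090 _)
               (CovZ.leaf K2_ok TB_l2091 _)))
             (CovZ.leaf K2_ok TB_l2092 _))
            (CovZ.n1 (-29472, -384) (by decide +kernel)
             (CovZ.n2 (-29520, -336) (by decide +kernel)
              (CovZ.leaf K2_ok TB_l2093 _)
              (CovZ.n1 (-29520, -384) (by decide +kernel)
               (CovZ.leaf K2_ok TB_l2094 _)
               (CovZ.leaf K2_ok TB_l2095 _)))
             (CovZ.n1 (-29424, -336) (by decide +kernel)
              (CovZ.n2 (-29424, -384) (by decide +kernel)
               (CovZ.leaf K2_ok TB_l2096 _)
               (CovZ.leaf K2_ok TB_l2097 _))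
              (CovZ.leaf K2_ok TB_l2098 _)))))
          (CovZ.n1 (-29280, -288) (by decide +kernel)
           (CovZ.n2 (-29280, -384) (by decide +kernel)
            (CovZ.n2 (-29328, -336) (by decide +kernel)
             (CovZ.leaf K2_ok TB_l2099 _)
             (CovZ.n1 (-29328, -384) (by decide +kernel)
              (CovZ.leaf K2_ok TB_l2100 _)
              (CovZ.leaf K2_ok TB_l2101 _)))
            (CovZ.n1 (-29232, -336) (by decide +kernel)
             (CovZ.n2 (-29232, -384) (by decide +kernel)
              (CovZ.leaf K2_ok TB_l2102 _)
              (CovZ.leaf K2_ok TB_l2103 _))
             (CovZ.leaf K2_ok TB_l2104 _)))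
           (CovZ.n1 (-29376, -288) (by decide +kernel)
            (CovZ.leaf K2_ok TB_l2105 _)
            (CovZ.n1 (-29328, -336) (by decide +kernel)
             (CovZ.leaf K2_ok TB_l2106 _)
             (CovZ.leaf K2_ok TB_l2107 _)))))))

theorem TB_u5 : CovZ TB_M (toL (selN TB_LN 307865750090656250177576235455861927840989930198232585938754563077243650274939247418262570209895590182788964810754)) [0, 7, 6, 1] (-29568, -384) (-29952, -768) (-29184, -768) :=
    (CovZ.n1 (-29568, -768) (by decide +kernel)
        (CovZ.subM 2983939418458776392038366397179471801903731982468874991071680926100807360071082919329794 (by decide +kernel)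
         (CovZ.n2 (-29760, -576) (by decide +kernel)
          (CovZ.n2 (-29568, -576) (by decide +kernel)
           (CovZ.badM (by decide +kernel))
           (CovZ.n1 (-29664, -480) (by decide +kernel)
            (CovZ.n2 (-29568, -480) (by decide +kernel)
             (CovZ.badM (by decide +kernel))
             (CovZ.n1 (-29616, -432) (by decide +kernel)
              (CovZ.n2 (-29568, -432) (by decide +kernel)
               (CovZ.subM 994646472819573284310764496293641680200912301594698093336919523618064801639187311755266 (by decide +kernel)
                (CovZ.n2 (-29592, -456) (by decide +kernel)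
                 (CovZ.leaf K2_ok TB_l2108 _)
                 (CovZ.n1 (-29568, -456) (by decide +kernel)
                  (CovZ.n2 (-29580, -468) (by decide +kernel)
                   (CovZ.leaf K2_ok TB_l2109 _)
                   (CovZ.leaf K2_ok TB_l2110 _))
                  (CovZ.leaf K2_ok TB_l2111 _))))
               (CovZ.leaf K2_ok TB_l2112 _))
              (CovZ.subM 994646472819573284310764496293641680200912301594698093336919523618064801639187311755266 (by decide +kernel)
               (CovZ.n1 (-29616, -480) (by decide +kernel)
                (CovZ.n2 (-29640, -456) (by decide +kernel)
                 (CovZ.n2 (-29616, -456) (by decide +kernel)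
                  (CovZ.n2 (-29628, -468) (by decide +kernel)
                   (CovZ.leaf K2_ok TB_l2113 _)
                   (CovZ.leaf K2_ok TB_l2114 _))
                  (CovZ.leaf K2_ok TB_l2115 _))
                 (CovZ.n1 (-29640, -480) (by decide +kernel)
                  (CovZ.leaf K2_ok TB_l2116 _)
                  (CovZ.n1 (-29628, -468) (by decide +kernel)
                   (CovZ.badM (by decide +kernel))
                   (CovZ.leaf K2_ok TB_l2118 _))))
                (CovZ.n1 (-29592, -456) (by decide +kernel)
                 (CovZ.n2 (-29592, -480) (by decide +kernel)
                  (CovZ.leaf K2_ok TB_l2119 _)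
                  (CovZ.leaf K2_ok TB_l2120 _))
                 (CovZ.n1 (-29616, -456) (by decide +kernel)
                  (CovZ.leaf K2_ok TB_l2121 _)
                  (CovZ.leaf K2_ok TB_l2122 _)))))))
            (CovZ.subM 56539106072908298546665520023773392506479484700019806659891398441363832832 (by decide +kernel)
             (CovZ.n1 (-29664, -576) (by decide +kernel)
              (CovZ.n2 (-29712, -528) (by decide +kernel)
               (CovZ.n2 (-29664, -528) (by decide +kernel)
                (CovZ.badM (by decide +kernel))
                (CovZ.n1 (-29688, -504) (by decide +kernel)
                 (CovZ.badM (by decide +kernel))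
                 (CovZ.badM (by decide +kernel))))
               (CovZ.badM (by decide +kernel)))
              (CovZ.badM (by decide +kernel))))))
          (CovZ.badM (by decide +kernel))))
        (CovZ.n1 (-29376, -576) (by decide +kernel)
         (CovZ.badM (by decide +kernel))
         (CovZ.subM 2983939418458719852932293488880925136383708209076367182358985121378274564865581275152386 (by decide +kernel)
          (CovZ.n1 (-29568, -576) (by decide +kernel)
           (CovZ.n2 (-29472, -480) (by decide +kernel)
            (CovZ.badM (by decide +kernel))
            (CovZ.n1 (-29568, -480) (by decide +kernel)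
             (CovZ.n2 (-29520, -432) (by decide +kernel)
              (CovZ.subM 994646472819573284310764496293641680200912301594698093336919523618064801639187311755266 (by decide +kernel)
               (CovZ.n2 (-29520, -480) (by decide +kernel)
                (CovZ.n2 (-29544, -456) (by decide +kernel)
                 (CovZ.n2 (-29520, -456) (by decide +kernel)
                  (CovZ.leaf K2_ok TB_l2123 _)
                  (CovZ.leaf K2_ok TB_l2124 _))
                 (CovZ.n1 (-29544, -480) (by decide +kernel)
                  (CovZ.leaf K2_ok TB_l2125 _)
                  (CovZ.leaf K2_ok TB_l2126 _)))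
                (CovZ.n1 (-29496, -456) (by decide +kernel)
                 (CovZ.n2 (-29496, -480) (by decide +kernel)
                  (CovZ.n2 (-29508, -468) (by decide +kernel)
                   (CovZ.leaf K2_ok TB_l2127 _)
                   (CovZ.badM (by decide +kernel)))
                  (CovZ.n1 (-29484, -468) (by decide +kernel)
                   (CovZ.badM (by decide +kernel))
                   (CovZ.leaf K2_ok TB_l2128 _)))
                 (CovZ.n1 (-29520, -456) (by decide +kernel)
                  (CovZ.leaf K2_ok TB_l2129 _)
                  (CovZ.leaf K2_ok TB_l2130 _)))))
              (CovZ.n1 (-29568, -432) (by decide +kernel)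
               (CovZ.n2 (-29544, -408) (by decide +kernel)
                (CovZ.leaf K2_ok TB_l2131 _)
                (CovZ.leaf K2_ok TB_l2132 _))
               (CovZ.n1 (-29544, -456) (by decide +kernel)
                (CovZ.n2 (-29568, -456) (by decide +kernel)
                 (CovZ.leaf K2_ok TB_l2133 _)
                 (CovZ.leaf K2_ok TB_l2134 _))
                (CovZ.leaf K2_ok TB_l2135 _))))
             (CovZ.badM (by decide +kernel))))
           (CovZ.badM (by decide +kernel))))))

theorem TB_u6 : CovZ TB_M (toL (selN TB_LN 58147139623488390108985284610458819475235147474078545401880924882980223477313419194858709104445737549080354717425074988130790349367409078226649090)) [0, 7, 6, 1] (-30720, -768) (-30336, -768) (-30336, -384) :=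
    (CovZ.n2 (-30528, -576) (by decide +kernel)
        (CovZ.n2 (-30336, -576) (by decide +kernel)
         (CovZ.n2 (-30432, -672) (by decide +kernel)
          (CovZ.n2 (-30432, -576) (by decide +kernel)
           (CovZ.n2 (-30384, -624) (by decide +kernel)
            (CovZ.leaf K2_ok TB_l2136 _)
            (CovZ.leaf K2_ok TB_l2137 _))
           (CovZ.n1 (-30480, -624) (by decide +kernel)
            (CovZ.leaf K2_ok TB_l2138 _)
            (CovZ.leaf K2_ok TB_l2139 _)))
          (CovZ.subM 56194522488256537404999849253947805447746407662091339942103683584557525833911738262268076690684517879936460918069214001714430150768079775614369792 (by decide +kernel)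
           (CovZ.n1 (-30336, -672) (by decide +kernel)
            (CovZ.n2 (-30384, -720) (by decide +kernel)
             (CovZ.leaf K2_ok TB_l37582 _)
             (CovZ.leaf K2_ok TB_l37583 _))
            (CovZ.n1 (-30384, -624) (by decide +kernel)
             (CovZ.leaf K2_ok TB_l37584 _)
             (CovZ.n1 (-30384, -672) (by decide +kernel)
              (CovZ.leaf K2_ok TB_l37585 _)
              (CovZ.leaf K2_ok TB_l37586 _))))))
         (CovZ.n1 (-30432, -480) (by decide +kernel)
          (CovZ.n2 (-30336, -480) (by decide +kernel)
           (CovZ.n2 (-30384, -528) (by decide +kernel)
            (CovZ.leaf K2_ok TB_l2140 _)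
            (CovZ.n1 (-30336, -528) (by decide +kernel)
             (CovZ.leaf K2_ok TB_l2141 _)
             (CovZ.leaf K2_ok TB_l2142 _)))
           (CovZ.n1 (-30384, -432) (by decide +kernel)
            (CovZ.leaf K2_ok TB_l2143 _)
            (CovZ.leaf K2_ok TB_l2144 _)))
          (CovZ.n1 (-30432, -576) (by decide +kernel)
           (CovZ.leaf K2_ok TB_l2145 _)
           (CovZ.n1 (-30384, -528) (by decide +kernel)
            (CovZ.leaf K2_ok TB_l2146 _)
            (CovZ.leaf K2_ok TB_l2147 _)))))
        (CovZ.n1 (-30528, -768) (by decide +kernel)
         (CovZ.n2 (-30624, -672) (by decide +kernel)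
          (CovZ.n2 (-30528, -672) (by decide +kernel)
           (CovZ.n2 (-30576, -720) (by decide +kernel)
            (CovZ.leaf K2_ok TB_l2148 _)
            (CovZ.leaf K2_ok TB_l37587 _))
           (CovZ.leaf K2_ok TB_l2149 _))
          (CovZ.subM 8199162818432514233320806439825661559880025119741236633345847761046686594181238712467262975137737656718450224204362940646650976227870674939543552 (by decide +kernel)
           (CovZ.n1 (-30624, -768) (by decide +kernel)
            (CovZ.n2 (-30672, -720) (by decide +kernel)
             (CovZ.leaf K2_ok TB_l2150 _)
             (CovZ.leaf K2_ok TB_l2151 _))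
            (CovZ.n1 (-30576, -720) (by decide +kernel)
             (CovZ.leaf K2_ok TB_l37588 _)
             (CovZ.leaf K2_ok TB_l2152 _)))))
         (CovZ.n1 (-30432, -672) (by decide +kernel)
          (CovZ.subM 56586265348330393982196678230120617596974216701746773783388390578028731456796184625229683091285243070062014438203648008941193899717439369924050944 (by decide +kernel)
           (CovZ.n2 (-30432, -768) (by decide +kernel)
            (CovZ.n2 (-30480, -720) (by decide +kernel)
             (CovZ.leaf K2_ok TB_l37589 _)
             (CovZ.leaf K2_ok TB_l37590 _))
            (CovZ.n1 (-30384, -720) (by decide +kernel)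
             (CovZ.n2 (-30384, -768) (by decide +kernel)
              (CovZ.leaf K2_ok TB_l37591 _)
              (CovZ.leaf K2_ok TB_l37592 _))
             (CovZ.leaf K2_ok TB_l37593 _))))
          (CovZ.n1 (-30528, -672) (by decide +kernel)
           (CovZ.leaf K2_ok TB_l2153 _)
           (CovZ.n1 (-30480, -720) (by decide +kernel)
            (CovZ.leaf K2_ok TB_l37594 _)
            (CovZ.leaf K2_ok TB_l37595 _))))))

theorem TB_u7 : CovZ TB_M (toL (selN TB_LN 58147139623488390108985284610458819475235147474078545401880924882980223477313419194858709104445737549080354717425074988130790349367409078226649090)) [0, 7, 6, 1] (-30336, -768) (-29952, -768) (-30336, -384) :=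
    (CovZ.subM 5807601445497363899850339569767088699940716165093021436857206433440629419938645397673442798216136312952427976711411494979975512066 (by decide +kernel)
        (CovZ.n1 (-30144, -576) (by decide +kernel)
         (CovZ.subM 5720836527481706190740702781757171435421157398998120778633834292925868518838855559003793657962754825457945013195130010882556297216 (by decide +kernel)
          (CovZ.n2 (-30144, -768) (by decide +kernel)
           (CovZ.n2 (-30240, -672) (by decide +kernel)
            (CovZ.badM (by decide +kernel))
            (CovZ.n1 (-30240, -768) (by decide +kernel)
             (CovZ.n2 (-30288, -720) (by decide +kernel)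
              (CovZ.badM (by decide +kernel))
              (CovZ.n1 (-30288, -768) (by decide +kernel)
               (CovZ.n2 (-30312, -744) (by decide +kernel)
                (CovZ.badM (by decide +kernel))
                (CovZ.badM (by decide +kernel)))
               (CovZ.badM (by decide +kernel))))
             (CovZ.badM (by decide +kernel))))
           (CovZ.badM (by decide +kernel))))
         (CovZ.n1 (-30336, -576) (by decide +kernel)
          (CovZ.n2 (-30240, -480) (by decide +kernel)
           (CovZ.n2 (-30240, -576) (by decide +kernel)
            (CovZ.n2 (-30288, -528) (by decide +kernel)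
             (CovZ.subM 267066611391260433976573784445239500090675491917569612590998113290859939659469783735677188874631589789945429465823747468427264 (by decide +kernel)
              (CovZ.n2 (-30240, -528) (by decide +kernel)
               (CovZ.subM 169230328010303641331690318856389386196071598838855992136870091590247882556495704531248437872567112921134466005857808372727808 (by decide +kernel)
                (CovZ.n2 (-30264, -552) (by decide +kernel)
                 (CovZ.n2 (-30264, -528) (by decide +kernel)
                  (CovZ.badM (by decide +kernel))
                  (CovZ.n1 (-30276, -540) (by decide +kernel)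
                   (CovZ.leaf K2_ok TB_l2154 _)
                   (CovZ.badM (by decide +kernel))))
                 (CovZ.badM (by decide +kernel))))
               (CovZ.n1 (-30264, -504) (by decide +kernel)
                (CovZ.n2 (-30240, -504) (by decide +kernel)
                 (CovZ.n2 (-30252, -516) (by decide +kernel)
                  (CovZ.leaf K2_ok TB_l2155 _)
                  (CovZ.leaf K2_ok TB_l2156 _))
                 (CovZ.leaf K2_ok TB_l2157 _))
                (CovZ.n1 (-30264, -528) (by decide +kernel)
                 (CovZ.leaf K2_ok TB_l2158 _)
                 (CovZ.n1 (-30252, -516) (by decide +kernel)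
                  (CovZ.badM (by decide +kernel))
                  (CovZ.leaf K2_ok TB_l2159 _))))))
             (CovZ.subM 5807334378885972639416362995982643460440624494954631047614792018489933967810544425982328015770370691049682779221907719098598424576 (by decide +kernel)
              (CovZ.n1 (-30288, -576) (by decide +kernel)
               (CovZ.n2 (-30312, -552) (by decide +kernel)
                (CovZ.subM 5632667525942775524085164977096953150398566010217556716011879336573508614843541411552382602085430132716798532343169894468001202176 (by decide +kernel)
                 (CovZ.n2 (-30288, -552) (by decide +kernel)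
                  (CovZ.n2 (-30300, -564) (by decide +kernel)
                   (CovZ.leaf K2_ok TB_l37596 _)
                   (CovZ.badM (by decide +kernel)))
                  (CovZ.n1 (-30300, -540) (by decide +kernel)
                   (CovZ.leaf K2_ok TB_l2160 _)
                   (CovZ.leaf K2_ok TB_l2161 _))))
                (CovZ.n1 (-30312, -576) (by decide +kernel)
                 (CovZ.leaf K2_ok TB_l37597 _)
                 (CovZ.n1 (-30300, -564) (by decide +kernel)
                  (CovZ.leaf K2_ok TB_l48376 _)
                  (CovZ.leaf K2_ok TB_l37598 _))))
               (CovZ.subM 151115727451828646838272 (by decide +kernel)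
                (CovZ.n1 (-30264, -552) (by decide +kernel)
                 (CovZ.badM (by decide +kernel))
                 (CovZ.n1 (-30288, -552) (by decide +kernel)
                  (CovZ.n2 (-30276, -540) (by decide +kernel)
                   (CovZ.badM (by decide +kernel))
                   (CovZ.leaf K2_ok TB_l2162 _))
                  (CovZ.badM (by decide +kernel))))))))
            (CovZ.subM 13221119375804971979038306160655420796568093659285680924799048813786662490246250712197038545265620428277063939613219243425792 (by decide +kernel)
             (CovZ.n1 (-30192, -528) (by decide +kernel)
              (CovZ.badM (by decide +kernel))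
              (CovZ.n1 (-30240, -528) (by decide +kernel)
               (CovZ.n2 (-30216, -504) (by decide +kernel)
                (CovZ.badM (by decide +kernel))
                (CovZ.n1 (-30240, -504) (by decide +kernel)
                 (CovZ.leaf K2_ok TB_l2163 _)
                 (CovZ.n1 (-30228, -516) (by decide +kernel)
                  (CovZ.leaf K2_ok TB_l2164 _)
                  (CovZ.leaf K2_ok TB_l2165 _))))
               (CovZ.badM (by decide +kernel))))))
           (CovZ.n1 (-30336, -480) (by decide +kernel)
            (CovZ.n2 (-30288, -432) (by decide +kernel)
             (CovZ.n2 (-30288, -480) (by decide +kernel)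
              (CovZ.n2 (-30312, -456) (by decide +kernel)
               (CovZ.leaf K2_ok TB_l2166 _)
               (CovZ.leaf K2_ok TB_l2167 _))
              (CovZ.n1 (-30264, -456) (by decide +kernel)
               (CovZ.leaf K2_ok TB_l2168 _)
               (CovZ.leaf K2_ok TB_l2169 _)))
             (CovZ.n1 (-30336, -432) (by decide +kernel)
              (CovZ.leaf K2_ok TB_l2170 _)
              (CovZ.n1 (-30312, -456) (by decide +kernel)
               (CovZ.leaf K2_ok TB_l2171 _)
               (CovZ.leaf K2_ok TB_l2172 _))))
            (CovZ.n1 (-30288, -528) (by decide +kernel)
             (CovZ.n2 (-30336, -528) (by decide +kernel)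
              (CovZ.n2 (-30312, -504) (by decide +kernel)
               (CovZ.leaf K2_ok TB_l2173 _)
               (CovZ.leaf K2_ok TB_l2174 _))
              (CovZ.subM 5807429570945478435214612071787000179470359785228977904110369007916453482244482454816126843016674010050700832356439322462194237440 (by decide +kernel)
               (CovZ.n1 (-30312, -552) (by decide +kernel)
                (CovZ.leaf K2_ok TB_l2175 _)
                (CovZ.n1 (-30312, -528) (by decide +kernel)
                 (CovZ.n2 (-30300, -540) (by decide +kernel)
                  (CovZ.leaf K2_ok TB_l2176 _)
                  (CovZ.leaf K2_ok TB_l2177 _))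
                 (CovZ.leaf K2_ok TB_l2178 _)))))
             (CovZ.n1 (-30288, -480) (by decide +kernel)
              (CovZ.subM 267066611391260433976573784445239500090675491917569612590998113290859939659469783735677188874631589789945429465823747468427264 (by decide +kernel)
               (CovZ.n2 (-30264, -504) (by decide +kernel)
                (CovZ.n2 (-30288, -504) (by decide +kernel)
                 (CovZ.leaf K2_ok TB_l2179 _)
                 (CovZ.n1 (-30276, -516) (by decide +kernel)
                  (CovZ.leaf K2_ok TB_l2180 _)
                  (CovZ.leaf K2_ok TB_l2181 _)))
                (CovZ.n1 (-30264, -480) (by decide +kernel)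
                 (CovZ.leaf K2_ok TB_l2182 _)
                 (CovZ.leaf K2_ok TB_l2183 _))))
              (CovZ.n1 (-30312, -504) (by decide +kernel)
               (CovZ.leaf K2_ok TB_l2184 _)
               (CovZ.n1 (-30288, -504) (by decide +kernel)
                (CovZ.leaf K2_ok TB_l2185 _)
                (CovZ.leaf K2_ok TB_l2186 _)))))))
          (CovZ.subM 5807503609213982943057694686301499849826820566553469903606928888581524215693100921686859264208243258162603762572186125078324314112 (by decide +kernel)
           (CovZ.n1 (-30240, -672) (by decide +kernel)
            (CovZ.n2 (-30336, -672) (by decide +kernel)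
             (CovZ.n2 (-30288, -624) (by decide +kernel)
              (CovZ.n2 (-30288, -672) (by decide +kernel)
               (CovZ.n2 (-30312, -648) (by decide +kernel)
                (CovZ.subM 5546021598001500059723339533842481784666177351612062448037801849679301698974615610832383401894675770901254905884898581019698921472 (by decide +kernel)
                 (CovZ.n2 (-30288, -648) (by decide +kernel)
                  (CovZ.n2 (-30300, -660) (by decide +kernel)
                   (CovZ.leaf K2_ok TB_l48377 _)
                   (CovZ.badM (by decide +kernel)))
                  (CovZ.n1 (-30300, -636) (by decide +kernel)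
                   (CovZ.badM (by decide +kernel))
                   (CovZ.leaf K2_ok TB_l48378 _))))
                (CovZ.n1 (-30312, -672) (by decide +kernel)
                 (CovZ.leaf K2_ok TB_l37599 _)
                 (CovZ.leaf K2_ok TB_l48379 _)))
               (CovZ.badM (by decide +kernel)))
              (CovZ.n1 (-30336, -624) (by decide +kernel)
               (CovZ.n2 (-30312, -600) (by decide +kernel)
                (CovZ.n2 (-30312, -624) (by decide +kernel)
                 (CovZ.leaf K2_ok TB_l37600 _)
                 (CovZ.n1 (-30300, -612) (by decide +kernel)
                  (CovZ.leaf K2_ok TB_l48380 _)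
                  (CovZ.leaf K2_ok TB_l48381 _)))
                (CovZ.leaf K2_ok TB_l37601 _))
               (CovZ.n1 (-30312, -648) (by decide +kernel)
                (CovZ.leaf K2_ok TB_l37602 _)
                (CovZ.n1 (-30312, -624) (by decide +kernel)
                 (CovZ.n2 (-30300, -636) (by decide +kernel)
                  (CovZ.leaf K2_ok TB_l48382 _)
                  (CovZ.leaf K2_ok TB_l48383 _))
                 (CovZ.leaf K2_ok TB_l37603 _)))))
             (CovZ.n1 (-30288, -720) (by decide +kernel)
              (CovZ.n2 (-30336, -720) (by decide +kernel)
               (CovZ.n2 (-30312, -696) (by decide +kernel)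
                (CovZ.n2 (-30312, -720) (by decide +kernel)
                 (CovZ.leaf K2_ok TB_l37604 _)
                 (CovZ.leaf K2_ok TB_l48384 _))
                (CovZ.leaf K2_ok TB_l37605 _))
               (CovZ.n1 (-30312, -744) (by decide +kernel)
                (CovZ.leaf K2_ok TB_l37606 _)
                (CovZ.leaf K2_ok TB_l37607 _)))
              (CovZ.n1 (-30288, -672) (by decide +kernel)
               (CovZ.badM (by decide +kernel))
               (CovZ.n1 (-30312, -696) (by decide +kernel)
                (CovZ.n2 (-30312, -672) (by decide +kernel)
                 (CovZ.leaf K2_ok TB_l48385 _)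
                 (CovZ.leaf K2_ok TB_l37608 _))
                (CovZ.n1 (-30288, -696) (by decide +kernel)
                 (CovZ.leaf K2_ok TB_l48386 _)
                 (CovZ.n1 (-30300, -684) (by decide +kernel)
                  (CovZ.badM (by decide +kernel))
                  (CovZ.leaf K2_ok TB_l48387 _)))))))
            (CovZ.n1 (-30240, -576) (by decide +kernel)
             (CovZ.badM (by decide +kernel))
             (CovZ.n1 (-30288, -624) (by decide +kernel)
              (CovZ.n2 (-30288, -576) (by decide +kernel)
               (CovZ.badM (by decide +kernel))
               (CovZ.n1 (-30312, -600) (by decide +kernel)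
                (CovZ.n2 (-30312, -576) (by decide +kernel)
                 (CovZ.n2 (-30300, -588) (by decide +kernel)
                  (CovZ.leaf K2_ok TB_l48388 _)
                  (CovZ.leaf K2_ok TB_l48389 _))
                 (CovZ.leaf K2_ok TB_l37609 _))
                (CovZ.n1 (-30288, -600) (by decide +kernel)
                 (CovZ.leaf K2_ok TB_l48390 _)
                 (CovZ.n1 (-30300, -588) (by decide +kernel)
                  (CovZ.badM (by decide +kernel))
                  (CovZ.leaf K2_ok TB_l48391 _)))))
              (CovZ.badM (by decide +kernel)))))))))

theorem TB_u8 : CovZ TB_M (toL (selN TB_LN 58147139623488390108041296041463567088454574343977777780017538551352940698938864274956079744835302199359110183059874355622226625757049379887251456)) [0, 7, 6, 1] (-30336, -1152) (-30528, -960) (-30720, -1152) :=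
    (CovZ.subM 56191473905687887301692234438010715644664164374256074289053098334374125337220551061214272247693665990807824669345904738760564835434811286771204096 (by decide +kernel)
          (CovZ.n2 (-30528, -1152) (by decide +kernel)
           (CovZ.n2 (-30624, -1056) (by decide +kernel)
            (CovZ.n2 (-30528, -1056) (by decide +kernel)
             (CovZ.subM 22880321115231075491237527412601271889827821324110717562887144340707591779373971367959984109356286942921021170178614872394648518656 (by decide +kernel)
              (CovZ.n2 (-30576, -1104) (by decide +kernel)
               (CovZ.n2 (-30576, -1056) (by decide +kernel)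
                (CovZ.n2 (-30552, -1080) (by decide +kernel)
                 (CovZ.n2 (-30576, -1080) (by decide +kernel)
                  (CovZ.leaf K2_ok TB_l37610 _)
                  (CovZ.leaf K2_ok TB_l37611 _))
                 (CovZ.leaf K2_ok TB_l37612 _))
                (CovZ.n1 (-30600, -1080) (by decide +kernel)
                 (CovZ.n2 (-30600, -1056) (by decide +kernel)
                  (CovZ.leaf K2_ok TB_l37613 _)
                  (CovZ.n1 (-30612, -1068) (by decide +kernel)
                   (CovZ.leaf K2_ok TB_l49789 _)
                   (CovZ.leaf K2_ok TB_l49790 _)))
                 (CovZ.n1 (-30576, -1080) (by decide +kernel)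
                  (CovZ.n2 (-30588, -1092) (by decide +kernel)
                   (CovZ.leaf K2_ok TB_l49791 _)
                   (CovZ.leaf K2_ok TB_l49792 _))
                  (CovZ.leaf K2_ok TB_l37614 _))))
               (CovZ.n1 (-30528, -1104) (by decide +kernel)
                (CovZ.badM (by decide +kernel))
                (CovZ.n1 (-30552, -1080) (by decide +kernel)
                 (CovZ.n2 (-30528, -1080) (by decide +kernel)
                  (CovZ.leaf K2_ok TB_l37615 _)
                  (CovZ.leaf K2_ok TB_l37616 _))
                 (CovZ.n1 (-30552, -1104) (by decide +kernel)
                  (CovZ.leaf K2_ok TB_l37617 _)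
                  (CovZ.leaf K2_ok TB_l37618 _))))))
             (CovZ.n1 (-30576, -1008) (by decide +kernel)
              (CovZ.n2 (-30528, -1008) (by decide +kernel)
               (CovZ.n2 (-30552, -1032) (by decide +kernel)
                (CovZ.leaf K2_ok TB_l37619 _)
                (CovZ.leaf K2_ok TB_l37620 _))
               (CovZ.n1 (-30552, -984) (by decide +kernel)
                (CovZ.leaf K2_ok TB_l37621 _)
                (CovZ.leaf K2_ok TB_l37622 _)))
              (CovZ.subM 27039325661576797536778968161626351779060012296654749313388251533855831622444828784142467494694663105112191719511079684209291296768 (by decide +kernel)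
               (CovZ.n1 (-30576, -1056) (by decide +kernel)
                (CovZ.n2 (-30600, -1032) (by decide +kernel)
                 (CovZ.n2 (-30576, -1032) (by decide +kernel)
                  (CovZ.leaf K2_ok TB_l37623 _)
                  (CovZ.leaf K2_ok TB_l37624 _))
                 (CovZ.n1 (-30600, -1056) (by decide +kernel)
                  (CovZ.leaf K2_ok TB_l37625 _)
                  (CovZ.leaf K2_ok TB_l37626 _)))
                (CovZ.n1 (-30552, -1032) (by decide +kernel)
                 (CovZ.n2 (-30552, -1056) (by decide +kernel)
                  (CovZ.leaf K2_ok TB_l37627 _)
                  (CovZ.leaf K2_ok TB_l37628 _))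
                 (CovZ.leaf K2_ok TB_l37629 _))))))
            (CovZ.subM 796461384989492799972434024407739597458536470985220869993161977308052878266827471413254366792503046073493015166532942832433364992 (by decide +kernel)
             (CovZ.n1 (-30624, -1152) (by decide +kernel)
              (CovZ.n2 (-30672, -1104) (by decide +kernel)
               (CovZ.subM 698921254682554038699881016876888164989775703204475247525273478267723754958327259714056048413702176363661236649816696267923783680 (by decide +kernel)
                (CovZ.n2 (-30624, -1104) (by decide +kernel)
                 (CovZ.badM (by decide +kernel))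
                 (CovZ.n1 (-30648, -1080) (by decide +kernel)
                  (CovZ.n2 (-30624, -1080) (by decide +kernel)
                   (CovZ.badM (by decide +kernel))
                   (CovZ.n1 (-30636, -1068) (by decide +kernel)
                    (CovZ.leaf K2_ok TB_l49793 _)
                    (CovZ.badM (by decide +kernel))))
                  (CovZ.badM (by decide +kernel)))))
               (CovZ.n1 (-30672, -1152) (by decide +kernel)
                (CovZ.badM (by decide +kernel))
                (CovZ.badM (by decide +kernel))))
              (CovZ.subM 698963562264556614610213939456602262336324721104184961523307695790621316928966383640188860523170318141891482487386297762855256064 (by decide +kernel)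
               (CovZ.n1 (-30576, -1104) (by decide +kernel)
                (CovZ.badM (by decide +kernel))
                (CovZ.n1 (-30624, -1104) (by decide +kernel)
                 (CovZ.n2 (-30600, -1080) (by decide +kernel)
                  (CovZ.n2 (-30600, -1104) (by decide +kernel)
                   (CovZ.badM (by decide +kernel))
                   (CovZ.leaf K2_ok TB_l49794 _))
                  (CovZ.n1 (-30624, -1080) (by decide +kernel)
                   (CovZ.n2 (-30612, -1068) (by decide +kernel)
                    (CovZ.badM (by decide +kernel))
                    (CovZ.leaf K2_ok TB_l49795 _))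
                   (CovZ.badM (by decide +kernel))))
                 (CovZ.badM (by decide +kernel))))))))
           (CovZ.n1 (-30432, -1056) (by decide +kernel)
            (CovZ.subM 49947976805055898582088210251745544846841602246198649469175692267045798723986850446336181257874248089478843378484314661506371088926673000097382400 (by decide +kernel)
             (CovZ.n2 (-30432, -1152) (by decide +kernel)
              (CovZ.n2 (-30480, -1104) (by decide +kernel)
               (CovZ.n2 (-30432, -1104) (by decide +kernel)
                (CovZ.badM (by decide +kernel))
                (CovZ.n1 (-30456, -1080) (by decide +kernel)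
                 (CovZ.n2 (-30432, -1080) (by decide +kernel)
                  (CovZ.leaf K2_ok TB_l49796 _)
                  (CovZ.leaf K2_ok TB_l49797 _))
                 (CovZ.n1 (-30456, -1104) (by decide +kernel)
                  (CovZ.leaf K2_ok TB_l37631 _)
                  (CovZ.leaf K2_ok TB_l49798 _))))
               (CovZ.badM (by decide +kernel)))
              (CovZ.n1 (-30384, -1104) (by decide +kernel)
               (CovZ.n2 (-30384, -1152) (by decide +kernel)
                (CovZ.n2 (-30408, -1128) (by decide +kernel)
                 (CovZ.badM (by decide +kernel))
                 (CovZ.badM (by decide +kernel)))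
                (CovZ.badM (by decide +kernel)))
               (CovZ.n1 (-30432, -1104) (by decide +kernel)
                (CovZ.n2 (-30408, -1080) (by decide +kernel)
                 (CovZ.n2 (-30408, -1104) (by decide +kernel)
                  (CovZ.leaf K2_ok TB_l49799 _)
                  (CovZ.badM (by decide +kernel)))
                 (CovZ.n1 (-30432, -1080) (by decide +kernel)
                  (CovZ.leaf K2_ok TB_l49800 _)
                  (CovZ.leaf K2_ok TB_l49801 _)))
                (CovZ.n1 (-30408, -1128) (by decide +kernel)
                 (CovZ.badM (by decide +kernel))
                 (CovZ.n1 (-30408, -1104) (by decide +kernel)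
                  (CovZ.badM (by decide +kernel))
                  (CovZ.n1 (-30420, -1116) (by decide +kernel)
                   (CovZ.leaf K2_ok TB_l49802 _)
                   (CovZ.badM (by decide +kernel)))))))))
            (CovZ.n1 (-30528, -1056) (by decide +kernel)
             (CovZ.n2 (-30480, -1008) (by decide +kernel)
              (CovZ.subM 6243497100632010115415548319955832318594889681916575226728350803298618433266090848872079452329034955715694112817703323890257354884400715510317056 (by decide +kernel)
               (CovZ.n2 (-30480, -1056) (by decide +kernel)
                (CovZ.n2 (-30504, -1032) (by decide +kernel)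
                 (CovZ.leaf K2_ok TB_l37636 _)
                 (CovZ.leaf K2_ok TB_l37637 _))
                (CovZ.n1 (-30456, -1032) (by decide +kernel)
                 (CovZ.leaf K2_ok TB_l37638 _)
                 (CovZ.leaf K2_ok TB_l37639 _))))
              (CovZ.n1 (-30528, -1008) (by decide +kernel)
               (CovZ.leaf K2_ok TB_l37640 _)
               (CovZ.n1 (-30504, -1032) (by decide +kernel)
                (CovZ.leaf K2_ok TB_l37641 _)
                (CovZ.leaf K2_ok TB_l37642 _))))
             (CovZ.subM 22879982654575054883954864031963559111055429180913039850902870600524411283608858376550921612480541808695179203478058060435196739584 (by decide +kernel)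
              (CovZ.n1 (-30480, -1104) (by decide +kernel)
               (CovZ.n2 (-30528, -1104) (by decide +kernel)
                (CovZ.n2 (-30504, -1080) (by decide +kernel)
                 (CovZ.n2 (-30504, -1104) (by decide +kernel)
                  (CovZ.leaf K2_ok TB_l37643 _)
                  (CovZ.leaf K2_ok TB_l37644 _))
                 (CovZ.leaf K2_ok TB_l37645 _))
                (CovZ.badM (by decide +kernel)))
               (CovZ.n1 (-30480, -1056) (by decide +kernel)
                (CovZ.n2 (-30456, -1080) (by decide +kernel)
                 (CovZ.leaf K2_ok TB_l37648 _)
                 (CovZ.leaf K2_ok TB_l37649 _))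
                (CovZ.n1 (-30504, -1080) (by decide +kernel)
                 (CovZ.leaf K2_ok TB_l37650 _)
                 (CovZ.leaf K2_ok TB_l37651 _)))))))))

theorem TB_u9 : CovZ TB_M (toL (selN TB_LN 58147139623488390108041296041463567088454574343977777780017538551352940698938864274956079744835302199359110183059874355622226625757049379887251456)) [0, 7, 6, 1] (-30528, -960) (-30720, -768) (-30720, -1152) :=
    (CovZ.n1 (-30720, -960) (by decide +kernel)
          (CovZ.n2 (-30624, -864) (by decide +kernel)
           (CovZ.n2 (-30624, -960) (by decide +kernel)
            (CovZ.subM 8196114235863840724739598985546493798579449959507831648163239731683869871727930802232023517054384242882376447075357267531422975113962886969425920 (by decide +kernel)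
             (CovZ.n2 (-30672, -912) (by decide +kernel)
              (CovZ.n2 (-30624, -912) (by decide +kernel)
               (CovZ.n2 (-30648, -936) (by decide +kernel)
                (CovZ.leaf K2_ok TB_l37652 _)
                (CovZ.leaf K2_ok TB_l37653 _))
               (CovZ.leaf K2_ok TB_l37654 _))
              (CovZ.n1 (-30672, -960) (by decide +kernel)
               (CovZ.n2 (-30696, -936) (by decide +kernel)
                (CovZ.leaf K2_ok TB_l37655 _)
                (CovZ.n1 (-30696, -960) (by decide +kernel)
                 (CovZ.leaf K2_ok TB_l37656 _)
                 (CovZ.leaf K2_ok TB_l37657 _)))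
               (CovZ.n1 (-30648, -936) (by decide +kernel)
                (CovZ.leaf K2_ok TB_l37658 _)
                (CovZ.leaf K2_ok TB_l37659 _)))))
            (CovZ.n1 (-30576, -912) (by decide +kernel)
             (CovZ.n2 (-30576, -960) (by decide +kernel)
              (CovZ.leaf K2_ok TB_l37660 _)
              (CovZ.leaf K2_ok TB_l37661 _))
             (CovZ.n1 (-30624, -912) (by decide +kernel)
              (CovZ.leaf K2_ok TB_l37662 _)
              (CovZ.leaf K2_ok TB_l37663 _))))
           (CovZ.n1 (-30720, -864) (by decide +kernel)
            (CovZ.n2 (-30672, -816) (by decide +kernel)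
             (CovZ.n2 (-30672, -864) (by decide +kernel)
              (CovZ.leaf K2_ok TB_l37664 _)
              (CovZ.leaf K2_ok TB_l37665 _))
             (CovZ.leaf K2_ok TB_l2212 _))
            (CovZ.n1 (-30672, -912) (by decide +kernel)
             (CovZ.n2 (-30720, -912) (by decide +kernel)
              (CovZ.leaf K2_ok TB_l37666 _)
              (CovZ.n1 (-30696, -936) (by decide +kernel)
               (CovZ.leaf K2_ok TB_l37667 _)
               (CovZ.leaf K2_ok TB_l37668 _)))
             (CovZ.n1 (-30672, -864) (by decide +kernel)
              (CovZ.leaf K2_ok TB_l37669 _)
              (CovZ.leaf K2_ok TB_l37670 _)))))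
          (CovZ.n1 (-30624, -1056) (by decide +kernel)
           (CovZ.subM 1952617135231856261976404525960161187082253674177889346444925812433126394088399561991411310927400300562679028689578141617203711805635050025779200 (by decide +kernel)
            (CovZ.n2 (-30720, -1056) (by decide +kernel)
             (CovZ.n2 (-30672, -1008) (by decide +kernel)
              (CovZ.n2 (-30672, -1056) (by decide +kernel)
               (CovZ.subM 22181357553127909494007747553496780565813196455973034515502603911033875840509919198284687210420345547843946372174525633005776535552 (by decide +kernel)
                (CovZ.n2 (-30696, -1032) (by decide +kernel)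
                 (CovZ.n2 (-30672, -1032) (by decide +kernel)
                  (CovZ.n2 (-30684, -1044) (by decide +kernel)
                   (CovZ.leaf K2_ok TB_l48392 _)
                   (CovZ.leaf K2_ok TB_l48393 _))
                  (CovZ.leaf K2_ok TB_l48394 _))
                 (CovZ.n1 (-30696, -1056) (by decide +kernel)
                  (CovZ.badM (by decide +kernel))
                  (CovZ.n1 (-30684, -1044) (by decide +kernel)
                   (CovZ.leaf K2_ok TB_l48395 _)
                   (CovZ.leaf K2_ok TB_l48396 _)))))
               (CovZ.n1 (-30648, -1032) (by decide +kernel)
                (CovZ.n2 (-30648, -1056) (by decide +kernel)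
                 (CovZ.n2 (-30660, -1044) (by decide +kernel)
                  (CovZ.leaf K2_ok TB_l48397 _)
                  (CovZ.leaf K2_ok TB_l48398 _))
                 (CovZ.leaf K2_ok TB_l48399 _))
                (CovZ.n1 (-30672, -1032) (by decide +kernel)
                 (CovZ.leaf K2_ok TB_l48400 _)
                 (CovZ.leaf K2_ok TB_l48401 _))))
              (CovZ.subM 1952617135231851306552785856552339067142835455471364918951933179946150573857635796451444273843511271033534395830845167859275699088406782071013376 (by decide +kernel)
               (CovZ.n1 (-30720, -1008) (by decide +kernel)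
                (CovZ.n2 (-30696, -984) (by decide +kernel)
                 (CovZ.n2 (-30696, -1008) (by decide +kernel)
                  (CovZ.badM (by decide +kernel))
                  (CovZ.leaf K2_ok TB_l37672 _))
                 (CovZ.n1 (-30720, -984) (by decide +kernel)
                  (CovZ.leaf K2_ok TB_l37673 _)
                  (CovZ.badM (by decide +kernel))))
                (CovZ.n1 (-30696, -1032) (by decide +kernel)
                 (CovZ.badM (by decide +kernel))
                 (CovZ.n1 (-30696, -1008) (by decide +kernel)
                  (CovZ.leaf K2_ok TB_l48402 _)
                  (CovZ.badM (by decide +kernel)))))))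
             (CovZ.n1 (-30672, -1104) (by decide +kernel)
              (CovZ.n2 (-30720, -1104) (by decide +kernel)
               (CovZ.n2 (-30696, -1080) (by decide +kernel)
                (CovZ.badM (by decide +kernel))
                (CovZ.badM (by decide +kernel)))
               (CovZ.badM (by decide +kernel)))
              (CovZ.n1 (-30672, -1056) (by decide +kernel)
               (CovZ.subM 4944592877676748389074711237811897603710944410306800192323471077903764102553468163939529244609014437746814993594899245565497835520 (by decide +kernel)
                (CovZ.n2 (-30648, -1080) (by decide +kernel)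
                 (CovZ.n2 (-30672, -1080) (by decide +kernel)
                  (CovZ.n2 (-30660, -1068) (by decide +kernel)
                   (CovZ.badM (by decide +kernel))
                   (CovZ.badM (by decide +kernel)))
                  (CovZ.badM (by decide +kernel)))
                 (CovZ.n1 (-30648, -1056) (by decide +kernel)
                  (CovZ.leaf K2_ok TB_l49803 _)
                  (CovZ.n1 (-30660, -1068) (by decide +kernel)
                   (CovZ.leaf K2_ok TB_l48403 _)
                   (CovZ.badM (by decide +kernel))))))
               (CovZ.n1 (-30696, -1080) (by decide +kernel)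
                (CovZ.n2 (-30696, -1056) (by decide +kernel)
                 (CovZ.badM (by decide +kernel))
                 (CovZ.badM (by decide +kernel)))
                (CovZ.badM (by decide +kernel)))))))
           (CovZ.n1 (-30624, -960) (by decide +kernel)
            (CovZ.subM 6243497100632011588761226297106252386465922434019351452170752964948414295012127243833810253287198041043582593419038557773550768816390330428424192 (by decide +kernel)
             (CovZ.n2 (-30576, -1008) (by decide +kernel)
              (CovZ.n2 (-30624, -1008) (by decide +kernel)
               (CovZ.n2 (-30600, -984) (by decide +kernel)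
                (CovZ.leaf K2_ok TB_l37675 _)
                (CovZ.leaf K2_ok TB_l37676 _))
               (CovZ.n1 (-30600, -1032) (by decide +kernel)
                (CovZ.leaf K2_ok TB_l37677 _)
                (CovZ.leaf K2_ok TB_l37678 _)))
              (CovZ.n1 (-30576, -960) (by decide +kernel)
               (CovZ.n2 (-30552, -984) (by decide +kernel)
                (CovZ.leaf K2_ok TB_l37679 _)
                (CovZ.leaf K2_ok TB_l37680 _))
               (CovZ.n1 (-30600, -984) (by decide +kernel)
                (CovZ.leaf K2_ok TB_l37681 _)
                (CovZ.leaf K2_ok TB_l37682 _)))))
            (CovZ.subM 1952617135231856261976404525960161187082253674177889346444925812433126394088399561991411310927400300562722584832544021740527023755386316356845568 (by decide +kernel)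
             (CovZ.n1 (-30672, -1008) (by decide +kernel)
              (CovZ.n2 (-30672, -960) (by decide +kernel)
               (CovZ.n2 (-30648, -984) (by decide +kernel)
                (CovZ.leaf K2_ok TB_l37683 _)
                (CovZ.leaf K2_ok TB_l37684 _))
               (CovZ.n1 (-30696, -984) (by decide +kernel)
                (CovZ.n2 (-30696, -960) (by decide +kernel)
                 (CovZ.leaf K2_ok TB_l37685 _)
                 (CovZ.leaf K2_ok TB_l37686 _))
                (CovZ.leaf K2_ok TB_l37687 _)))
              (CovZ.n1 (-30624, -1008) (by decide +kernel)
               (CovZ.n2 (-30648, -1032) (by decide +kernel)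
                (CovZ.n2 (-30648, -1008) (by decide +kernel)
                 (CovZ.leaf K2_ok TB_l37688 _)
                 (CovZ.leaf K2_ok TB_l37689 _))
                (CovZ.n1 (-30624, -1032) (by decide +kernel)
                 (CovZ.leaf K2_ok TB_l37690 _)
                 (CovZ.leaf K2_ok TB_l37691 _)))
               (CovZ.n1 (-30648, -984) (by decide +kernel)
                (CovZ.leaf K2_ok TB_l37692 _)
                (CovZ.n1 (-30648, -1008) (by decide +kernel)
                 (CovZ.leaf K2_ok TB_l37693 _)
                 (CovZ.leaf K2_ok TB_l37694 _)))))))))

theorem TB_u10 : CovZ TB_M (toL (selN TB_LN 58147139623488390108041296041463567088454574343977777780017538551352940698938864274956079744835302199359110183059874355622226625757049379887251456)) [0, 7, 6, 1] (-30336, -1152) (-29952, -768) (-30720, -768) :=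
    (CovZ.n1 (-30336, -768) (by decide +kernel)
        (CovZ.subM 173291855882550928723650887631002353278462434414082178459494734214589749786069581326418721469814612220366799298749983052137496576 (by decide +kernel)
         (CovZ.n2 (-30144, -960) (by decide +kernel)
          (CovZ.badM (by decide +kernel))
          (CovZ.n1 (-30144, -768) (by decide +kernel)
           (CovZ.badM (by decide +kernel))
           (CovZ.n1 (-30240, -864) (by decide +kernel)
            (CovZ.n2 (-30240, -768) (by decide +kernel)
             (CovZ.badM (by decide +kernel))
             (CovZ.n1 (-30288, -816) (by decide +kernel)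
              (CovZ.n2 (-30288, -768) (by decide +kernel)
               (CovZ.badM (by decide +kernel))
               (CovZ.badM (by decide +kernel)))
              (CovZ.badM (by decide +kernel))))
            (CovZ.badM (by decide +kernel))))))
        (CovZ.n1 (-30528, -960) (by decide +kernel)
         (CovZ.n2 (-30528, -768) (by decide +kernel)
          (CovZ.n2 (-30432, -864) (by decide +kernel)
           (CovZ.n2 (-30528, -864) (by decide +kernel)
            (CovZ.n2 (-30480, -816) (by decide +kernel)
             (CovZ.n2 (-30480, -864) (by decide +kernel)
              (CovZ.leaf K2_ok TB_l37695 _)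
              (CovZ.leaf K2_ok TB_l37696 _))
             (CovZ.leaf K2_ok TB_l37697 _))
            (CovZ.n1 (-30480, -912) (by decide +kernel)
             (CovZ.leaf K2_ok TB_l37698 _)
             (CovZ.leaf K2_ok TB_l37699 _)))
           (CovZ.n1 (-30432, -768) (by decide +kernel)
            (CovZ.subM 56194522488256531685691683172163473480213243055516229245229843441060324857604484244409880627975802151233634831073838814846666553394084324791287808 (by decide +kernel)
             (CovZ.n2 (-30384, -816) (by decide +kernel)
              (CovZ.n2 (-30432, -816) (by decide +kernel)
               (CovZ.leaf K2_ok TB_l37700 _)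
               (CovZ.leaf K2_ok TB_l37701 _))
              (CovZ.n1 (-30384, -768) (by decide +kernel)
               (CovZ.n2 (-30360, -792) (by decide +kernel)
                (CovZ.leaf K2_ok TB_l37702 _)
                (CovZ.leaf K2_ok TB_l37703 _))
               (CovZ.leaf K2_ok TB_l37704 _))))
            (CovZ.n1 (-30480, -816) (by decide +kernel)
             (CovZ.leaf K2_ok TB_l37705 _)
             (CovZ.n1 (-30432, -816) (by decide +kernel)
              (CovZ.leaf K2_ok TB_l37706 _)
              (CovZ.leaf K2_ok TB_l37707 _)))))
          (CovZ.n1 (-30624, -864) (by decide +kernel)
           (CovZ.n2 (-30624, -768) (by decide +kernel)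
            (CovZ.n2 (-30576, -816) (by decide +kernel)
             (CovZ.leaf K2_ok TB_l37708 _)
             (CovZ.leaf K2_ok TB_l37709 _))
            (CovZ.n1 (-30672, -816) (by decide +kernel)
             (CovZ.leaf K2_ok TB_l2213 _)
             (CovZ.leaf K2_ok TB_l37710 _)))
           (CovZ.n1 (-30528, -864) (by decide +kernel)
            (CovZ.n2 (-30576, -912) (by decide +kernel)
             (CovZ.n2 (-30576, -864) (by decide +kernel)
              (CovZ.leaf K2_ok TB_l37711 _)
              (CovZ.leaf K2_ok TB_l37712 _))
             (CovZ.n1 (-30528, -912) (by decide +kernel)
              (CovZ.leaf K2_ok TB_l37713 _)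
              (CovZ.leaf K2_ok TB_l37714 _)))
            (CovZ.n1 (-30576, -816) (by decide +kernel)
             (CovZ.leaf K2_ok TB_l37715 _)
             (CovZ.n1 (-30576, -864) (by decide +kernel)
              (CovZ.leaf K2_ok TB_l37716 _)
              (CovZ.leaf K2_ok TB_l37717 _))))))
         (CovZ.subM 56586265348330388174862299263452669490395327292355839217669774550594377816090931359337610388845578899707711335656539669254258561165197975824105472 (by decide +kernel)
          (CovZ.n1 (-30336, -960) (by decide +kernel)
           (CovZ.n2 (-30432, -1056) (by decide +kernel)
            (CovZ.n2 (-30432, -960) (by decide +kernel)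
             (CovZ.n2 (-30384, -1008) (by decide +kernel)
              (CovZ.n2 (-30432, -1008) (by decide +kernel)
               (CovZ.n2 (-30408, -984) (by decide +kernel)
                (CovZ.n2 (-30408, -1008) (by decide +kernel)
                 (CovZ.leaf K2_ok TB_l37718 _)
                 (CovZ.leaf K2_ok TB_l37719 _))
                (CovZ.leaf K2_ok TB_l37720 _))
               (CovZ.n1 (-30408, -1032) (by decide +kernel)
                (CovZ.leaf K2_ok TB_l37721 _)
                (CovZ.leaf K2_ok TB_l37722 _)))
              (CovZ.n1 (-30384, -960) (by decide +kernel)
               (CovZ.subM 3048582568670733875465468448825137811734807842759671144539079391233369177225566486739174774738514649224641634610086248043484444501149430579200 (by decide +kernel)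
                (CovZ.n2 (-30360, -984) (by decide +kernel)
                 (CovZ.n2 (-30384, -984) (by decide +kernel)
                  (CovZ.leaf K2_ok TB_l37723 _)
                  (CovZ.leaf K2_ok TB_l37724 _))
                 (CovZ.n1 (-30360, -960) (by decide +kernel)
                  (CovZ.badM (by decide +kernel))
                  (CovZ.leaf K2_ok TB_l37725 _))))
               (CovZ.n1 (-30408, -984) (by decide +kernel)
                (CovZ.leaf K2_ok TB_l37726 _)
                (CovZ.leaf K2_ok TB_l37727 _))))
             (CovZ.n1 (-30480, -1008) (by decide +kernel)
              (CovZ.n2 (-30480, -960) (by decide +kernel)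
               (CovZ.n2 (-30456, -984) (by decide +kernel)
                (CovZ.leaf K2_ok TB_l37728 _)
                (CovZ.leaf K2_ok TB_l37729 _))
               (CovZ.leaf K2_ok TB_l37730 _))
              (CovZ.n1 (-30432, -1008) (by decide +kernel)
               (CovZ.n2 (-30456, -1032) (by decide +kernel)
                (CovZ.leaf K2_ok TB_l37731 _)
                (CovZ.leaf K2_ok TB_l37732 _))
               (CovZ.n1 (-30456, -984) (by decide +kernel)
                (CovZ.leaf K2_ok TB_l37733 _)
                (CovZ.leaf K2_ok TB_l37734 _)))))
            (CovZ.n1 (-30336, -1056) (by decide +kernel)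
             (CovZ.subM 56194522488256528824657310345944634306272769680576094805923679209332738243117582293964492866911925426884620092619978538073289089016921009401364480 (by decide +kernel)
              (CovZ.n2 (-30384, -1104) (by decide +kernel)
               (CovZ.n2 (-30384, -1056) (by decide +kernel)
                (CovZ.n2 (-30360, -1080) (by decide +kernel)
                 (CovZ.badM (by decide +kernel))
                 (CovZ.n1 (-30360, -1056) (by decide +kernel)
                  (CovZ.badM (by decide +kernel))
                  (CovZ.badM (by decide +kernel))))
                (CovZ.n1 (-30408, -1080) (by decide +kernel)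
                 (CovZ.leaf K2_ok TB_l49804 _)
                 (CovZ.n1 (-30384, -1080) (by decide +kernel)
                  (CovZ.n2 (-30396, -1092) (by decide +kernel)
                   (CovZ.leaf K2_ok TB_l49805 _)
                   (CovZ.badM (by decide +kernel)))
                  (CovZ.leaf K2_ok TB_l49806 _))))
               (CovZ.n1 (-30336, -1104) (by decide +kernel)
                (CovZ.badM (by decide +kernel))
                (CovZ.n1 (-30360, -1080) (by decide +kernel)
                 (CovZ.badM (by decide +kernel))
                 (CovZ.badM (by decide +kernel))))))
             (CovZ.n1 (-30384, -1008) (by decide +kernel)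
              (CovZ.subM 3048582568670733875465468448825137811734807842759671144539079391233369177225566486739174774738514649224641634610086248043484444501149430579200 (by decide +kernel)
               (CovZ.n2 (-30336, -1008) (by decide +kernel)
                (CovZ.n2 (-30360, -1032) (by decide +kernel)
                 (CovZ.n2 (-30360, -1008) (by decide +kernel)
                  (CovZ.badM (by decide +kernel))
                  (CovZ.leaf K2_ok TB_l37735 _))
                 (CovZ.badM (by decide +kernel)))
                (CovZ.n1 (-30360, -984) (by decide +kernel)
                 (CovZ.badM (by decide +kernel))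
                 (CovZ.n1 (-30360, -1008) (by decide +kernel)
                  (CovZ.leaf K2_ok TB_l37736 _)
                  (CovZ.badM (by decide +kernel))))))
              (CovZ.n1 (-30384, -1056) (by decide +kernel)
               (CovZ.n2 (-30408, -1032) (by decide +kernel)
                (CovZ.n2 (-30384, -1032) (by decide +kernel)
                 (CovZ.leaf K2_ok TB_l37737 _)
                 (CovZ.leaf K2_ok TB_l37738 _))
                (CovZ.n1 (-30408, -1056) (by decide +kernel)
                 (CovZ.leaf K2_ok TB_l48404 _)
                 (CovZ.leaf K2_ok TB_l48405 _)))
               (CovZ.subM 3048582568670733875465468448825137811734807842759671144539079391233369177225566486739174774738514649224641634610086248043484444501149430579200 (by decide +kernel)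
                (CovZ.n1 (-30360, -1032) (by decide +kernel)
                 (CovZ.n2 (-30360, -1056) (by decide +kernel)
                  (CovZ.n2 (-30372, -1044) (by decide +kernel)
                   (CovZ.leaf K2_ok TB_l37739 _)
                   (CovZ.leaf K2_ok TB_l48406 _))
                  (CovZ.badM (by decide +kernel)))
                 (CovZ.n1 (-30384, -1032) (by decide +kernel)
                  (CovZ.n2 (-30372, -1020) (by decide +kernel)
                   (CovZ.leaf K2_ok TB_l37740 _)
                   (CovZ.leaf K2_ok TB_l37741 _))
                  (CovZ.n1 (-30372, -1044) (by decide +kernel)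
                   (CovZ.leaf K2_ok TB_l37742 _)
                   (CovZ.leaf K2_ok TB_l37743 _)))))))))
           (CovZ.n1 (-30432, -864) (by decide +kernel)
            (CovZ.n2 (-30336, -864) (by decide +kernel)
             (CovZ.n2 (-30384, -912) (by decide +kernel)
              (CovZ.n2 (-30384, -864) (by decide +kernel)
               (CovZ.n2 (-30360, -888) (by decide +kernel)
                (CovZ.leaf K2_ok TB_l37744 _)
                (CovZ.leaf K2_ok TB_l37745 _))
               (CovZ.leaf K2_ok TB_l37746 _))
              (CovZ.subM 3048582568670733875465468448825137811734807842759671144539079391233369177225566486739174774738514649224641634610086248043484444501149430579200 (by decide +kernel)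
               (CovZ.n1 (-30336, -912) (by decide +kernel)
                (CovZ.n2 (-30360, -936) (by decide +kernel)
                 (CovZ.n2 (-30360, -912) (by decide +kernel)
                  (CovZ.badM (by decide +kernel))
                  (CovZ.leaf K2_ok TB_l37747 _))
                 (CovZ.badM (by decide +kernel)))
                (CovZ.n1 (-30360, -888) (by decide +kernel)
                 (CovZ.badM (by decide +kernel))
                 (CovZ.n1 (-30360, -912) (by decide +kernel)
                  (CovZ.leaf K2_ok TB_l37748 _)
                  (CovZ.badM (by decide +kernel)))))))
             (CovZ.n1 (-30384, -816) (by decide +kernel)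
              (CovZ.subM 3048582568670733875465468448825137811734807842759671144539079391233369177225566486739174774738514649224641634610086248043484444501149430579200 (by decide +kernel)
               (CovZ.n2 (-30336, -816) (by decide +kernel)
                (CovZ.n2 (-30360, -840) (by decide +kernel)
                 (CovZ.leaf K2_ok TB_l37749 _)
                 (CovZ.badM (by decide +kernel)))
                (CovZ.n1 (-30360, -792) (by decide +kernel)
                 (CovZ.badM (by decide +kernel))
                 (CovZ.n1 (-30360, -816) (by decide +kernel)
                  (CovZ.leaf K2_ok TB_l37750 _)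
                  (CovZ.badM (by decide +kernel))))))
              (CovZ.n1 (-30384, -864) (by decide +kernel)
               (CovZ.leaf K2_ok TB_l37751 _)
               (CovZ.n1 (-30360, -840) (by decide +kernel)
                (CovZ.n2 (-30360, -864) (by decide +kernel)
                 (CovZ.leaf K2_ok TB_l37752 _)
                 (CovZ.badM (by decide +kernel)))
                (CovZ.leaf K2_ok TB_l37753 _)))))
            (CovZ.n1 (-30432, -960) (by decide +kernel)
             (CovZ.n2 (-30480, -912) (by decide +kernel)
              (CovZ.n2 (-30432, -912) (by decide +kernel)
               (CovZ.leaf K2_ok TB_l37754 _)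
               (CovZ.leaf K2_ok TB_l37755 _))
              (CovZ.n1 (-30480, -960) (by decide +kernel)
               (CovZ.leaf K2_ok TB_l37756 _)
               (CovZ.leaf K2_ok TB_l37757 _)))
             (CovZ.n1 (-30384, -912) (by decide +kernel)
              (CovZ.n2 (-30384, -960) (by decide +kernel)
               (CovZ.n2 (-30408, -936) (by decide +kernel)
                (CovZ.leaf K2_ok TB_l37758 _)
                (CovZ.leaf K2_ok TB_l37759 _))
               (CovZ.subM 3048582568670733875465468448825137811734807842759671144539079391233369177225566486739174774738514649224641634610086248043484444501149430579200 (by decide +kernel)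
                (CovZ.n1 (-30360, -936) (by decide +kernel)
                 (CovZ.n2 (-30360, -960) (by decide +kernel)
                  (CovZ.leaf K2_ok TB_l37760 _)
                  (CovZ.badM (by decide +kernel)))
                 (CovZ.n1 (-30384, -936) (by decide +kernel)
                  (CovZ.leaf K2_ok TB_l37761 _)
                  (CovZ.leaf K2_ok TB_l37762 _)))))
              (CovZ.n1 (-30432, -912) (by decide +kernel)
               (CovZ.leaf K2_ok TB_l37763 _)
               (CovZ.n1 (-30408, -936) (by decide +kernel)
                (CovZ.leaf K2_ok TB_l37764 _)
                (CovZ.leaf K2_ok TB_l37765 _))))))))))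

theorem TB_u11 : CovZ TB_M (toL (selN TB_LN 2983939418458776392038366397179471801903731982468874991071680926100807360071082919329794)) [0, 7, 6, 1] (-29952, -768) (-29760, -576) (-29952, -384) :=
    (CovZ.n2 (-29952, -576) (by decide +kernel)
           (CovZ.n2 (-29856, -480) (by decide +kernel)
            (CovZ.subM 56539106072908298546665520023773392507808712695804722532795205501644177408 (by decide +kernel)
             (CovZ.n2 (-29856, -576) (by decide +kernel)
              (CovZ.n2 (-29904, -528) (by decide +kernel)
               (CovZ.n2 (-29856, -528) (by decide +kernel)
                (CovZ.badM (by decide +kernel))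
                (CovZ.n1 (-29880, -504) (by decide +kernel)
                 (CovZ.n2 (-29856, -504) (by decide +kernel)
                  (CovZ.badM (by decide +kernel))
                  (CovZ.n1 (-29868, -492) (by decide +kernel)
                   (CovZ.leaf K2_ok TB_l2240 _)
                   (CovZ.leaf K2_ok TB_l37766 _)))
                 (CovZ.badM (by decide +kernel))))
               (CovZ.badM (by decide +kernel)))
              (CovZ.n1 (-29808, -528) (by decide +kernel)
               (CovZ.badM (by decide +kernel))
               (CovZ.n1 (-29856, -528) (by decide +kernel)
                (CovZ.n2 (-29832, -504) (by decide +kernel)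
                 (CovZ.badM (by decide +kernel))
                 (CovZ.n1 (-29856, -504) (by decide +kernel)
                  (CovZ.n2 (-29844, -492) (by decide +kernel)
                   (CovZ.leaf K2_ok TB_l37767 _)
                   (CovZ.leaf K2_ok TB_l2241 _))
                  (CovZ.badM (by decide +kernel))))
                (CovZ.badM (by decide +kernel))))))
            (CovZ.n1 (-29952, -480) (by decide +kernel)
             (CovZ.n2 (-29904, -432) (by decide +kernel)
              (CovZ.subM 994646472819629823416837404592188345720936074987205902049615328340597596844688955932674 (by decide +kernel)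
               (CovZ.n2 (-29904, -480) (by decide +kernel)
                (CovZ.n2 (-29928, -456) (by decide +kernel)
                 (CovZ.n2 (-29904, -456) (by decide +kernel)
                  (CovZ.leaf K2_ok TB_l2242 _)
                  (CovZ.leaf K2_ok TB_l2243 _))
                 (CovZ.n1 (-29928, -480) (by decide +kernel)
                  (CovZ.leaf K2_ok TB_l2244 _)
                  (CovZ.leaf K2_ok TB_l2245 _)))
                (CovZ.n1 (-29880, -456) (by decide +kernel)
                 (CovZ.n2 (-29880, -480) (by decide +kernel)
                  (CovZ.leaf K2_ok TB_l2246 _)
                  (CovZ.leaf K2_ok TB_l2247 _))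
                 (CovZ.leaf K2_ok TB_l2248 _))))
              (CovZ.n1 (-29952, -432) (by decide +kernel)
               (CovZ.leaf K2_ok TB_l2249 _)
               (CovZ.n1 (-29928, -456) (by decide +kernel)
                (CovZ.leaf K2_ok TB_l2250 _)
                (CovZ.leaf K2_ok TB_l2251 _))))
             (CovZ.subM 56539106072908298546665520023773392510467168687374554278602819622204866560 (by decide +kernel)
              (CovZ.n1 (-29904, -528) (by decide +kernel)
               (CovZ.n2 (-29952, -528) (by decide +kernel)
                (CovZ.n2 (-29928, -504) (by decide +kernel)
                 (CovZ.badM (by decide +kernel))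
                 (CovZ.n1 (-29952, -504) (by decide +kernel)
                  (CovZ.n2 (-29940, -492) (by decide +kernel)
                   (CovZ.leaf K2_ok TB_l2252 _)
                   (CovZ.leaf K2_ok TB_l2253 _))
                  (CovZ.badM (by decide +kernel))))
                (CovZ.badM (by decide +kernel)))
               (CovZ.n1 (-29904, -480) (by decide +kernel)
                (CovZ.n2 (-29880, -504) (by decide +kernel)
                 (CovZ.n2 (-29904, -504) (by decide +kernel)
                  (CovZ.leaf K2_ok TB_l2254 _)
                  (CovZ.badM (by decide +kernel)))
                 (CovZ.n1 (-29880, -480) (by decide +kernel)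
                  (CovZ.leaf K2_ok TB_l2255 _)
                  (CovZ.leaf K2_ok TB_l2256 _)))
                (CovZ.n1 (-29928, -504) (by decide +kernel)
                 (CovZ.n2 (-29928, -480) (by decide +kernel)
                  (CovZ.leaf K2_ok TB_l2257 _)
                  (CovZ.leaf K2_ok TB_l2258 _))
                 (CovZ.n1 (-29904, -504) (by decide +kernel)
                  (CovZ.badM (by decide +kernel))
                  (CovZ.n1 (-29916, -492) (by decide +kernel)
                   (CovZ.leaf K2_ok TB_l2259 _)
                   (CovZ.leaf K2_ok TB_l2260 _)))))))))
           (CovZ.badM (by decide +kernel)))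

theorem TB_u12 : CovZ TB_M (toL (selN TB_LN 2983939418458776392038366397179471801903731982468874991071680926100807360071082919329794)) [0, 7, 6, 1] (-29760, -576) (-29568, -384) (-29952, -384) :=
    (CovZ.n1 (-29760, -384) (by decide +kernel)
           (CovZ.n2 (-29664, -480) (by decide +kernel)
            (CovZ.n2 (-29760, -480) (by decide +kernel)
             (CovZ.n2 (-29712, -432) (by decide +kernel)
              (CovZ.subM 994646472819629823416837404592188345720936074987204572821619543424724693037628675588098 (by decide +kernel)
               (CovZ.n2 (-29712, -480) (by decide +kernel)
                (CovZ.n2 (-29736, -456) (by decide +kernel)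
                 (CovZ.n2 (-29712, -456) (by decide +kernel)
                  (CovZ.leaf K2_ok TB_l2261 _)
                  (CovZ.leaf K2_ok TB_l2262 _))
                 (CovZ.n1 (-29736, -480) (by decide +kernel)
                  (CovZ.leaf K2_ok TB_l2263 _)
                  (CovZ.leaf K2_ok TB_l2264 _)))
                (CovZ.n1 (-29688, -456) (by decide +kernel)
                 (CovZ.n2 (-29688, -480) (by decide +kernel)
                  (CovZ.leaf K2_ok TB_l2265 _)
                  (CovZ.leaf K2_ok TB_l2266 _))
                 (CovZ.n1 (-29712, -456) (by decide +kernel)
                  (CovZ.leaf K2_ok TB_l2267 _)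
                  (CovZ.leaf K2_ok TB_l2268 _)))))
              (CovZ.n1 (-29760, -432) (by decide +kernel)
               (CovZ.n2 (-29736, -408) (by decide +kernel)
                (CovZ.leaf K2_ok TB_l2269 _)
                (CovZ.leaf K2_ok TB_l2270 _))
               (CovZ.n1 (-29736, -456) (by decide +kernel)
                (CovZ.leaf K2_ok TB_l2271 _)
                (CovZ.leaf K2_ok TB_l2272 _))))
             (CovZ.subM 56539106072908298546665520023773392506479484700019806659891398441363832832 (by decide +kernel)
              (CovZ.n1 (-29712, -528) (by decide +kernel)
               (CovZ.n2 (-29760, -528) (by decide +kernel)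
                (CovZ.n2 (-29736, -504) (by decide +kernel)
                 (CovZ.badM (by decide +kernel))
                 (CovZ.n1 (-29760, -504) (by decide +kernel)
                  (CovZ.n2 (-29748, -492) (by decide +kernel)
                   (CovZ.leaf K2_ok TB_l37768 _)
                   (CovZ.leaf K2_ok TB_l2273 _))
                  (CovZ.badM (by decide +kernel))))
                (CovZ.badM (by decide +kernel)))
               (CovZ.n1 (-29712, -480) (by decide +kernel)
                (CovZ.n2 (-29688, -504) (by decide +kernel)
                 (CovZ.n2 (-29712, -504) (by decide +kernel)
                  (CovZ.n2 (-29700, -492) (by decide +kernel)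
                   (CovZ.leaf K2_ok TB_l37769 _)
                   (CovZ.leaf K2_ok TB_l37770 _))
                  (CovZ.badM (by decide +kernel)))
                 (CovZ.n1 (-29688, -480) (by decide +kernel)
                  (CovZ.badM (by decide +kernel))
                  (CovZ.n1 (-29700, -492) (by decide +kernel)
                   (CovZ.leaf K2_ok TB_l37771 _)
                   (CovZ.leaf K2_ok TB_l37772 _))))
                (CovZ.n1 (-29736, -504) (by decide +kernel)
                 (CovZ.n2 (-29736, -480) (by decide +kernel)
                  (CovZ.n2 (-29724, -492) (by decide +kernel)
                   (CovZ.leaf K2_ok TB_l37773 _)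
                   (CovZ.leaf K2_ok TB_l37774 _))
                  (CovZ.n1 (-29748, -492) (by decide +kernel)
                   (CovZ.leaf K2_ok TB_l2274 _)
                   (CovZ.leaf K2_ok TB_l37775 _)))
                 (CovZ.n1 (-29712, -504) (by decide +kernel)
                  (CovZ.badM (by decide +kernel))
                  (CovZ.n1 (-29724, -492) (by decide +kernel)
                   (CovZ.leaf K2_ok TB_l37776 _)
                   (CovZ.leaf K2_ok TB_l37777 _))))))))
            (CovZ.n1 (-29664, -384) (by decide +kernel)
             (CovZ.n2 (-29616, -432) (by decide +kernel)
              (CovZ.n2 (-29664, -432) (by decide +kernel)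
               (CovZ.n2 (-29640, -408) (by decide +kernel)
                (CovZ.leaf K2_ok TB_l2275 _)
                (CovZ.leaf K2_ok TB_l2276 _))
               (CovZ.n1 (-29640, -456) (by decide +kernel)
                (CovZ.n2 (-29664, -456) (by decide +kernel)
                 (CovZ.leaf K2_ok TB_l2277 _)
                 (CovZ.leaf K2_ok TB_l2278 _))
                (CovZ.leaf K2_ok TB_l2279 _)))
              (CovZ.n1 (-29616, -384) (by decide +kernel)
               (CovZ.leaf K2_ok TB_l2280 _)
               (CovZ.n1 (-29640, -408) (by decide +kernel)
                (CovZ.leaf K2_ok TB_l2281 _)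
                (CovZ.leaf K2_ok TB_l2282 _))))
             (CovZ.n1 (-29712, -432) (by decide +kernel)
              (CovZ.n2 (-29712, -384) (by decide +kernel)
               (CovZ.leaf K2_ok TB_l2283 _)
               (CovZ.n1 (-29736, -408) (by decide +kernel)
                (CovZ.leaf K2_ok TB_l2284 _)
                (CovZ.leaf K2_ok TB_l2285 _)))
              (CovZ.n1 (-29664, -432) (by decide +kernel)
               (CovZ.n2 (-29688, -456) (by decide +kernel)
                (CovZ.leaf K2_ok TB_l2286 _)
                (CovZ.n1 (-29664, -456) (by decide +kernel)
                 (CovZ.leaf K2_ok TB_l2287 _)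
                 (CovZ.leaf K2_ok TB_l2288 _)))
               (CovZ.n1 (-29688, -408) (by decide +kernel)
                (CovZ.leaf K2_ok TB_l2289 _)
                (CovZ.leaf K2_ok TB_l2290 _))))))
           (CovZ.n1 (-29856, -480) (by decide +kernel)
            (CovZ.n2 (-29856, -384) (by decide +kernel)
             (CovZ.n2 (-29808, -432) (by decide +kernel)
              (CovZ.n2 (-29856, -432) (by decide +kernel)
               (CovZ.n2 (-29832, -408) (by decide +kernel)
                (CovZ.leaf K2_ok TB_l2291 _)
                (CovZ.leaf K2_ok TB_l2292 _))
               (CovZ.n1 (-29832, -456) (by decide +kernel)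
                (CovZ.leaf K2_ok TB_l2293 _)
                (CovZ.leaf K2_ok TB_l2294 _)))
              (CovZ.n1 (-29808, -384) (by decide +kernel)
               (CovZ.leaf K2_ok TB_l2295 _)
               (CovZ.n1 (-29832, -408) (by decide +kernel)
                (CovZ.leaf K2_ok TB_l2296 _)
                (CovZ.leaf K2_ok TB_l2297 _))))
             (CovZ.n1 (-29904, -432) (by decide +kernel)
              (CovZ.n2 (-29904, -384) (by decide +kernel)
               (CovZ.leaf K2_ok TB_l2298 _)
               (CovZ.leaf K2_ok TB_l2299 _))
              (CovZ.n1 (-29856, -432) (by decide +kernel)
               (CovZ.n2 (-29880, -456) (by decide +kernel)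
                (CovZ.leaf K2_ok TB_l2300 _)
                (CovZ.n1 (-29856, -456) (by decide +kernel)
                 (CovZ.leaf K2_ok TB_l2301 _)
                 (CovZ.leaf K2_ok TB_l2302 _)))
               (CovZ.leaf K2_ok TB_l2303 _))))
            (CovZ.n1 (-29760, -480) (by decide +kernel)
             (CovZ.subM 56539106072908298546665520023773392506479484700019806659891398441363832832 (by decide +kernel)
              (CovZ.n2 (-29808, -528) (by decide +kernel)
               (CovZ.n2 (-29808, -480) (by decide +kernel)
                (CovZ.n2 (-29784, -504) (by decide +kernel)
                 (CovZ.n2 (-29808, -504) (by decide +kernel)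
                  (CovZ.n2 (-29796, -492) (by decide +kernel)
                   (CovZ.leaf K2_ok TB_l37778 _)
                   (CovZ.leaf K2_ok TB_l2304 _))
                  (CovZ.badM (by decide +kernel)))
                 (CovZ.n1 (-29784, -480) (by decide +kernel)
                  (CovZ.leaf K2_ok TB_l2305 _)
                  (CovZ.n1 (-29796, -492) (by decide +kernel)
                   (CovZ.leaf K2_ok TB_l2306 _)
                   (CovZ.leaf K2_ok TB_l2307 _))))
                (CovZ.n1 (-29832, -504) (by decide +kernel)
                 (CovZ.n2 (-29832, -480) (by decide +kernel)
                  (CovZ.leaf K2_ok TB_l2308 _)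
                  (CovZ.n1 (-29844, -492) (by decide +kernel)
                   (CovZ.leaf K2_ok TB_l2309 _)
                   (CovZ.leaf K2_ok TB_l2310 _)))
                 (CovZ.n1 (-29808, -504) (by decide +kernel)
                  (CovZ.badM (by decide +kernel))
                  (CovZ.n1 (-29820, -492) (by decide +kernel)
                   (CovZ.leaf K2_ok TB_l2311 _)
                   (CovZ.leaf K2_ok TB_l37779 _)))))
               (CovZ.n1 (-29760, -528) (by decide +kernel)
                (CovZ.badM (by decide +kernel))
                (CovZ.n1 (-29784, -504) (by decide +kernel)
                 (CovZ.n2 (-29760, -504) (by decide +kernel)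
                  (CovZ.badM (by decide +kernel))
                  (CovZ.n1 (-29772, -492) (by decide +kernel)
                   (CovZ.leaf K2_ok TB_l2312 _)
                   (CovZ.leaf K2_ok TB_l37780 _)))
                 (CovZ.badM (by decide +kernel))))))
             (CovZ.n1 (-29808, -432) (by decide +kernel)
              (CovZ.n2 (-29760, -432) (by decide +kernel)
               (CovZ.n2 (-29784, -456) (by decide +kernel)
                (CovZ.leaf K2_ok TB_l2313 _)
                (CovZ.n1 (-29760, -456) (by decide +kernel)
                 (CovZ.leaf K2_ok TB_l2314 _)
                 (CovZ.leaf K2_ok TB_l2315 _)))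
               (CovZ.leaf K2_ok TB_l2316 _))
              (CovZ.subM 994646472819629823416837404592188345720936074987204572821619543424724693037628675588098 (by decide +kernel)
               (CovZ.n1 (-29808, -480) (by decide +kernel)
                (CovZ.n2 (-29832, -456) (by decide +kernel)
                 (CovZ.leaf K2_ok TB_l2317 _)
                 (CovZ.n1 (-29832, -480) (by decide +kernel)
                  (CovZ.leaf K2_ok TB_l2318 _)
                  (CovZ.leaf K2_ok TB_l2319 _)))
                (CovZ.n1 (-29784, -456) (by decide +kernel)
                 (CovZ.n2 (-29784, -480) (by decide +kernel)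
                  (CovZ.leaf K2_ok TB_l2320 _)
                  (CovZ.leaf K2_ok TB_l2321 _))
                 (CovZ.leaf K2_ok TB_l2322 _))))))))

theorem TB_u13 : CovZ TB_M (toL (selN TB_LN 5807601445497363899887916251091470031586949843934596468441785975778688886140126902472310384302148950317094642404696324723809189890)) [0, 7, 6, 1] (-29952, -768) (-29952, -384) (-30336, -384) :=
    (CovZ.n2 (-30144, -576) (by decide +kernel)
         (CovZ.n2 (-30144, -384) (by decide +kernel)
          (CovZ.subM 10576895500643977583230644928524336640238414345887275900592747121569964461684713515497677786243604990520134680920418998026242 (by decide +kernel)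
           (CovZ.n2 (-30048, -480) (by decide +kernel)
            (CovZ.n2 (-30144, -480) (by decide +kernel)
             (CovZ.n2 (-30096, -432) (by decide +kernel)
              (CovZ.n2 (-30096, -480) (by decide +kernel)
               (CovZ.n2 (-30120, -456) (by decide +kernel)
                (CovZ.leaf K2_ok TB_l2368 _)
                (CovZ.n1 (-30120, -480) (by decide +kernel)
                 (CovZ.leaf K2_ok TB_l2369 _)
                 (CovZ.leaf K2_ok TB_l2370 _)))
               (CovZ.n1 (-30072, -456) (by decide +kernel)
                (CovZ.n2 (-30072, -480) (by decide +kernel)
                 (CovZ.leaf K2_ok TB_l2371 _)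
                 (CovZ.leaf K2_ok TB_l2372 _))
                (CovZ.leaf K2_ok TB_l2373 _)))
              (CovZ.n1 (-30144, -432) (by decide +kernel)
               (CovZ.leaf K2_ok TB_l2374 _)
               (CovZ.n1 (-30120, -456) (by decide +kernel)
                (CovZ.leaf K2_ok TB_l2375 _)
                (CovZ.leaf K2_ok TB_l2376 _))))
             (CovZ.subM 56539106072908298546665520023773392509137940691589638405699014760947777536 (by decide +kernel)
              (CovZ.n1 (-30096, -528) (by decide +kernel)
               (CovZ.n2 (-30144, -528) (by decide +kernel)
                (CovZ.n2 (-30120, -504) (by decide +kernel)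
                 (CovZ.badM (by decide +kernel))
                 (CovZ.n1 (-30144, -504) (by decide +kernel)
                  (CovZ.n2 (-30132, -492) (by decide +kernel)
                   (CovZ.leaf K2_ok TB_l37781 _)
                   (CovZ.leaf K2_ok TB_l2377 _))
                  (CovZ.badM (by decide +kernel))))
                (CovZ.badM (by decide +kernel)))
               (CovZ.n1 (-30096, -480) (by decide +kernel)
                (CovZ.n2 (-30072, -504) (by decide +kernel)
                 (CovZ.n2 (-30096, -504) (by decide +kernel)
                  (CovZ.n2 (-30084, -492) (by decide +kernel)
                   (CovZ.leaf K2_ok TB_l37782 _)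
                   (CovZ.leaf K2_ok TB_l2378 _))
                  (CovZ.badM (by decide +kernel)))
                 (CovZ.n1 (-30072, -480) (by decide +kernel)
                  (CovZ.leaf K2_ok TB_l2379 _)
                  (CovZ.n1 (-30084, -492) (by decide +kernel)
                   (CovZ.leaf K2_ok TB_l2380 _)
                   (CovZ.leaf K2_ok TB_l2381 _))))
                (CovZ.n1 (-30120, -504) (by decide +kernel)
                 (CovZ.n2 (-30120, -480) (by decide +kernel)
                  (CovZ.n2 (-30108, -492) (by decide +kernel)
                   (CovZ.leaf K2_ok TB_l2382 _)
                   (CovZ.leaf K2_ok TB_l2383 _))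
                  (CovZ.n1 (-30132, -492) (by decide +kernel)
                   (CovZ.leaf K2_ok TB_l2384 _)
                   (CovZ.leaf K2_ok TB_l2385 _)))
                 (CovZ.n1 (-30096, -504) (by decide +kernel)
                  (CovZ.badM (by decide +kernel))
                  (CovZ.n1 (-30108, -492) (by decide +kernel)
                   (CovZ.leaf K2_ok TB_l2386 _)
                   (CovZ.leaf K2_ok TB_l37783 _))))))))
            (CovZ.n1 (-30048, -384) (by decide +kernel)
             (CovZ.n2 (-30000, -432) (by decide +kernel)
              (CovZ.n2 (-30048, -432) (by decide +kernel)
               (CovZ.leaf K2_ok TB_l2387 _)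
               (CovZ.n1 (-30024, -456) (by decide +kernel)
                (CovZ.leaf K2_ok TB_l2388 _)
                (CovZ.leaf K2_ok TB_l2389 _)))
              (CovZ.leaf K2_ok TB_l2390 _))
             (CovZ.n1 (-30096, -432) (by decide +kernel)
              (CovZ.n2 (-30096, -384) (by decide +kernel)
               (CovZ.leaf K2_ok TB_l2391 _)
               (CovZ.leaf K2_ok TB_l2392 _))
              (CovZ.n1 (-30048, -432) (by decide +kernel)
               (CovZ.n2 (-30072, -456) (by decide +kernel)
                (CovZ.leaf K2_ok TB_l2393 _)
                (CovZ.n1 (-30048, -456) (by decide +kernel)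
                 (CovZ.leaf K2_ok TB_l2394 _)
                 (CovZ.leaf K2_ok TB_l2395 _)))
               (CovZ.leaf K2_ok TB_l2396 _))))))
          (CovZ.n1 (-30240, -480) (by decide +kernel)
           (CovZ.n2 (-30240, -384) (by decide +kernel)
            (CovZ.subM 13221119375804971979038306160655420797562740132105254209109813310080304170447163013791735309374544166979255837447545298616322 (by decide +kernel)
             (CovZ.n2 (-30192, -432) (by decide +kernel)
              (CovZ.n2 (-30240, -432) (by decide +kernel)
               (CovZ.leaf K2_ok TB_l2397 _)
               (CovZ.n1 (-30216, -456) (by decide +kernel)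
                (CovZ.leaf K2_ok TB_l2398 _)
                (CovZ.leaf K2_ok TB_l2399 _)))
              (CovZ.n1 (-30192, -384) (by decide +kernel)
               (CovZ.leaf K2_ok TB_l2400 _)
               (CovZ.leaf K2_ok TB_l2401 _))))
            (CovZ.n1 (-30288, -432) (by decide +kernel)
             (CovZ.leaf K2_ok TB_l2402 _)
             (CovZ.n1 (-30240, -432) (by decide +kernel)
              (CovZ.n2 (-30264, -456) (by decide +kernel)
               (CovZ.leaf K2_ok TB_l2403 _)
               (CovZ.leaf K2_ok TB_l2404 _))
              (CovZ.leaf K2_ok TB_l2405 _))))
           (CovZ.subM 13221119375804971979038306160655420797562740132105254209109813310080304170447163013791735309374544166979255837447545298616322 (by decide +kernel)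
            (CovZ.n1 (-30144, -480) (by decide +kernel)
             (CovZ.subM 13221119375804971979038306160655420796568093659285680924799048813786662490246250712197038545265620428277063939613219243425792 (by decide +kernel)
              (CovZ.n2 (-30192, -528) (by decide +kernel)
               (CovZ.n2 (-30192, -480) (by decide +kernel)
                (CovZ.subM 10576895500643977583230644928524336637254474927428556047660453632689039325301005306595536504976136147199865091412935657390080 (by decide +kernel)
                 (CovZ.n2 (-30168, -504) (by decide +kernel)
                  (CovZ.n2 (-30192, -504) (by decide +kernel)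
                   (CovZ.n2 (-30180, -492) (by decide +kernel)
                    (CovZ.badM (by decide +kernel))
                    (CovZ.leaf K2_ok TB_l2407 _))
                   (CovZ.badM (by decide +kernel)))
                  (CovZ.n1 (-30168, -480) (by decide +kernel)
                   (CovZ.leaf K2_ok TB_l2408 _)
                   (CovZ.n1 (-30180, -492) (by decide +kernel)
                    (CovZ.leaf K2_ok TB_l2409 _)
                    (CovZ.leaf K2_ok TB_l2410 _)))))
                (CovZ.n1 (-30216, -504) (by decide +kernel)
                 (CovZ.n2 (-30216, -480) (by decide +kernel)
                  (CovZ.leaf K2_ok TB_l2411 _)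
                  (CovZ.leaf K2_ok TB_l2412 _))
                 (CovZ.n1 (-30192, -504) (by decide +kernel)
                  (CovZ.badM (by decide +kernel))
                  (CovZ.leaf K2_ok TB_l2413 _))))
               (CovZ.subM 56539106072908298546665520023773392509137940691589638405699012561924521984 (by decide +kernel)
                (CovZ.n1 (-30144, -528) (by decide +kernel)
                 (CovZ.badM (by decide +kernel))
                 (CovZ.n1 (-30168, -504) (by decide +kernel)
                  (CovZ.n2 (-30144, -504) (by decide +kernel)
                   (CovZ.badM (by decide +kernel))
                   (CovZ.n1 (-30156, -492) (by decide +kernel)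
                    (CovZ.leaf K2_ok TB_l2414 _)
                    (CovZ.leaf K2_ok TB_l2415 _)))
                  (CovZ.badM (by decide +kernel)))))))
             (CovZ.n1 (-30192, -432) (by decide +kernel)
              (CovZ.n2 (-30144, -432) (by decide +kernel)
               (CovZ.n2 (-30168, -456) (by decide +kernel)
                (CovZ.leaf K2_ok TB_l2416 _)
                (CovZ.leaf K2_ok TB_l2417 _))
               (CovZ.leaf K2_ok TB_l2418 _))
              (CovZ.n1 (-30192, -480) (by decide +kernel)
               (CovZ.n2 (-30216, -456) (by decide +kernel)
                (CovZ.leaf K2_ok TB_l2419 _)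
                (CovZ.n1 (-30216, -480) (by decide +kernel)
                 (CovZ.leaf K2_ok TB_l2420 _)
                 (CovZ.leaf K2_ok TB_l2421 _)))
               (CovZ.n1 (-30168, -456) (by decide +kernel)
                (CovZ.n2 (-30168, -480) (by decide +kernel)
                 (CovZ.leaf K2_ok TB_l2422 _)
                 (CovZ.leaf K2_ok TB_l2423 _))
                (CovZ.leaf K2_ok TB_l2424 _))))))))
         (CovZ.subM 10576895500643977583230644928524336640238414345887275900592747121569964461684713515497677786243604990369018953468590351187970 (by decide +kernel)
          (CovZ.n1 (-29952, -576) (by decide +kernel)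
           (CovZ.badM (by decide +kernel))
           (CovZ.n1 (-30048, -480) (by decide +kernel)
            (CovZ.n2 (-29952, -480) (by decide +kernel)
             (CovZ.subM 56539106072908298546665520023773392510467168687374554278602821821228122112 (by decide +kernel)
              (CovZ.n2 (-30000, -528) (by decide +kernel)
               (CovZ.n2 (-30000, -480) (by decide +kernel)
                (CovZ.n2 (-29976, -504) (by decide +kernel)
                 (CovZ.n2 (-30000, -504) (by decide +kernel)
                  (CovZ.n2 (-29988, -492) (by decide +kernel)
                   (CovZ.leaf K2_ok TB_l37784 _)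
                   (CovZ.leaf K2_ok TB_l2425 _))
                  (CovZ.badM (by decide +kernel)))
                 (CovZ.n1 (-29976, -480) (by decide +kernel)
                  (CovZ.leaf K2_ok TB_l2426 _)
                  (CovZ.n1 (-29988, -492) (by decide +kernel)
                   (CovZ.leaf K2_ok TB_l2427 _)
                   (CovZ.leaf K2_ok TB_l2428 _))))
                (CovZ.n1 (-30024, -504) (by decide +kernel)
                 (CovZ.n2 (-30024, -480) (by decide +kernel)
                  (CovZ.leaf K2_ok TB_l2429 _)
                  (CovZ.n1 (-30036, -492) (by decide +kernel)
                   (CovZ.leaf K2_ok TB_l2430 _)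
                   (CovZ.leaf K2_ok TB_l2431 _)))
                 (CovZ.n1 (-30000, -504) (by decide +kernel)
                  (CovZ.badM (by decide +kernel))
                  (CovZ.n1 (-30012, -492) (by decide +kernel)
                   (CovZ.leaf K2_ok TB_l2432 _)
                   (CovZ.leaf K2_ok TB_l37785 _)))))
               (CovZ.n1 (-29952, -528) (by decide +kernel)
                (CovZ.badM (by decide +kernel))
                (CovZ.n1 (-29976, -504) (by decide +kernel)
                 (CovZ.n2 (-29952, -504) (by decide +kernel)
                  (CovZ.badM (by decide +kernel))
                  (CovZ.n1 (-29964, -492) (by decide +kernel)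
                   (CovZ.leaf K2_ok TB_l2433 _)
                   (CovZ.leaf K2_ok TB_l2434 _)))
                 (CovZ.badM (by decide +kernel))))))
             (CovZ.n1 (-30000, -432) (by decide +kernel)
              (CovZ.n2 (-29952, -432) (by decide +kernel)
               (CovZ.n2 (-29976, -456) (by decide +kernel)
                (CovZ.leaf K2_ok TB_l2435 _)
                (CovZ.leaf K2_ok TB_l2436 _))
               (CovZ.leaf K2_ok TB_l2437 _))
              (CovZ.subM 994646472819629823416837404592188345720936074987205902049615328340597596846887979188226 (by decide +kernel)
               (CovZ.n1 (-30000, -480) (by decide +kernel)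
                (CovZ.n2 (-30024, -456) (by decide +kernel)
                 (CovZ.leaf K2_ok TB_l2438 _)
                 (CovZ.n1 (-30024, -480) (by decide +kernel)
                  (CovZ.leaf K2_ok TB_l2439 _)
                  (CovZ.leaf K2_ok TB_l2440 _)))
                (CovZ.n1 (-29976, -456) (by decide +kernel)
                 (CovZ.n2 (-29976, -480) (by decide +kernel)
                  (CovZ.leaf K2_ok TB_l2441 _)
                  (CovZ.leaf K2_ok TB_l2442 _))
                 (CovZ.leaf K2_ok TB_l2443 _))))))
            (CovZ.subM 56539106072908298546665520023773392509137940691589638405699014760947777536 (by decide +kernel)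
             (CovZ.n1 (-30048, -576) (by decide +kernel)
              (CovZ.n2 (-30096, -528) (by decide +kernel)
               (CovZ.n2 (-30048, -528) (by decide +kernel)
                (CovZ.badM (by decide +kernel))
                (CovZ.n1 (-30072, -504) (by decide +kernel)
                 (CovZ.n2 (-30048, -504) (by decide +kernel)
                  (CovZ.badM (by decide +kernel))
                  (CovZ.n1 (-30060, -492) (by decide +kernel)
                   (CovZ.leaf K2_ok TB_l2444 _)
                   (CovZ.leaf K2_ok TB_l37786 _)))
                 (CovZ.badM (by decide +kernel))))
               (CovZ.badM (by decide +kernel)))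
              (CovZ.n1 (-30000, -528) (by decide +kernel)
               (CovZ.badM (by decide +kernel))
               (CovZ.n1 (-30048, -528) (by decide +kernel)
                (CovZ.n2 (-30024, -504) (by decide +kernel)
                 (CovZ.badM (by decide +kernel))
                 (CovZ.n1 (-30048, -504) (by decide +kernel)
                  (CovZ.leaf K2_ok TB_l2445 _)
                  (CovZ.badM (by decide +kernel))))
                (CovZ.badM (by decide +kernel))))))))))

theorem TB_u14 : CovZ TB_M (toL (selN TB_LN 5807601445497363899887916251091470031586949843934596468441785975778688886140126902472310384302148950317094642404696324723809189890)) [0, 7, 6, 1] (-29952, -384) (-29952, 0) (-30336, -384) :=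
    (CovZ.n1 (-30144, -192) (by decide +kernel)
         (CovZ.subM 10576895500644015159911969309855982871927962975279713911513556188448882582787687779894372929119113749613189977700029329571842 (by decide +kernel)
          (CovZ.n2 (-29952, -192) (by decide +kernel)
           (CovZ.n2 (-30048, -288) (by decide +kernel)
            (CovZ.n2 (-30048, -192) (by decide +kernel)
             (CovZ.leaf K2_ok TB_l2446 _)
             (CovZ.leaf K2_ok TB_l2447 _))
            (CovZ.n1 (-29952, -288) (by decide +kernel)
             (CovZ.n2 (-30000, -336) (by decide +kernel)
              (CovZ.leaf K2_ok TB_l2448 _)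
              (CovZ.leaf K2_ok TB_l2449 _))
             (CovZ.leaf K2_ok TB_l2450 _)))
           (CovZ.n1 (-30048, -96) (by decide +kernel)
            (CovZ.leaf K2_ok TB_l2451 _)
            (CovZ.leaf K2_ok TB_l2452 _))))
         (CovZ.n1 (-30144, -384) (by decide +kernel)
          (CovZ.n2 (-30240, -288) (by decide +kernel)
           (CovZ.n2 (-30144, -288) (by decide +kernel)
            (CovZ.n2 (-30192, -336) (by decide +kernel)
             (CovZ.leaf K2_ok TB_l2453 _)
             (CovZ.leaf K2_ok TB_l2454 _))
            (CovZ.leaf K2_ok TB_l2455 _))
           (CovZ.n1 (-30240, -384) (by decide +kernel)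
            (CovZ.n2 (-30288, -336) (by decide +kernel)
             (CovZ.leaf K2_ok TB_l2456 _)
             (CovZ.leaf K2_ok TB_l2457 _))
            (CovZ.n1 (-30192, -336) (by decide +kernel)
             (CovZ.n2 (-30192, -384) (by decide +kernel)
              (CovZ.leaf K2_ok TB_l2458 _)
              (CovZ.leaf K2_ok TB_l2459 _))
             (CovZ.leaf K2_ok TB_l2460 _))))
          (CovZ.subM 10576895500644015159911969309855982871927962975279713911513529860375965443491013300387452011511034025839339840422215751827458 (by decide +kernel)
           (CovZ.n1 (-30048, -288) (by decide +kernel)
            (CovZ.n2 (-30048, -384) (by decide +kernel)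
             (CovZ.n2 (-30096, -336) (by decide +kernel)
              (CovZ.leaf K2_ok TB_l2461 _)
              (CovZ.n1 (-30096, -384) (by decide +kernel)
               (CovZ.leaf K2_ok TB_l2462 _)
               (CovZ.leaf K2_ok TB_l2463 _)))
             (CovZ.n1 (-30000, -336) (by decide +kernel)
              (CovZ.n2 (-30000, -384) (by decide +kernel)
               (CovZ.leaf K2_ok TB_l2464 _)
               (CovZ.leaf K2_ok TB_l2465 _))
              (CovZ.leaf K2_ok TB_l2466 _)))
            (CovZ.n1 (-30144, -288) (by decide +kernel)
             (CovZ.leaf K2_ok TB_l2467 _)
             (CovZ.n1 (-30096, -336) (by decide +kernel)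
              (CovZ.leaf K2_ok TB_l2468 _)
              (CovZ.leaf K2_ok TB_l2469 _)))))))

theorem TB_u15 : CovZ TB_M (toL (selN TB_LN 322786472706138835014829274386696385752633586249638118603537648454556321448030263118748964523457614138199877746881462274)) [0, 7, 6, 1] (-27648, -768) (-27648, -384) (-28032, -384) :=
    (CovZ.subM 1020507281112882189702845228863163114409466109336188179800459573141114946204177507946070016 (by decide +kernel)
        (CovZ.n2 (-27840, -576) (by decide +kernel)
         (CovZ.n2 (-27840, -384) (by decide +kernel)
          (CovZ.n2 (-27744, -480) (by decide +kernel)
           (CovZ.subM 842501647658485065907525910443191407430488203546797737549464862720 (by decide +kernel)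
            (CovZ.n2 (-27840, -480) (by decide +kernel)
             (CovZ.n2 (-27792, -432) (by decide +kernel)
              (CovZ.badM (by decide +kernel))
              (CovZ.n1 (-27840, -432) (by decide +kernel)
               (CovZ.n2 (-27816, -408) (by decide +kernel)
                (CovZ.badM (by decide +kernel))
                (CovZ.n1 (-27840, -408) (by decide +kernel)
                 (CovZ.n2 (-27828, -396) (by decide +kernel)
                  (CovZ.leaf K2_ok TB_l5276 _)
                  (CovZ.leaf K2_ok TB_l5277 _))
                 (CovZ.badM (by decide +kernel))))
               (CovZ.badM (by decide +kernel))))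
             (CovZ.badM (by decide +kernel))))
           (CovZ.n1 (-27744, -384) (by decide +kernel)
            (CovZ.n2 (-27696, -432) (by decide +kernel)
             (CovZ.subM 13167250334969454474529221061655981596526669629786374997213708288 (by decide +kernel)
              (CovZ.n2 (-27744, -432) (by decide +kernel)
               (CovZ.n2 (-27720, -408) (by decide +kernel)
                (CovZ.badM (by decide +kernel))
                (CovZ.n1 (-27744, -408) (by decide +kernel)
                 (CovZ.n2 (-27732, -396) (by decide +kernel)
                  (CovZ.leaf K2_ok TB_l38428 _)
                  (CovZ.leaf K2_ok TB_l5278 _))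
                 (CovZ.badM (by decide +kernel))))
               (CovZ.badM (by decide +kernel))))
             (CovZ.n1 (-27696, -384) (by decide +kernel)
              (CovZ.subM 13164239092337579715699489140727790707378274619769870577249026048 (by decide +kernel)
               (CovZ.n2 (-27672, -408) (by decide +kernel)
                (CovZ.n2 (-27696, -408) (by decide +kernel)
                 (CovZ.n2 (-27684, -396) (by decide +kernel)
                  (CovZ.leaf K2_ok TB_l38429 _)
                  (CovZ.leaf K2_ok TB_l38430 _))
                 (CovZ.badM (by decide +kernel)))
                (CovZ.n1 (-27672, -384) (by decide +kernel)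
                 (CovZ.n2 (-27660, -396) (by decide +kernel)
                  (CovZ.n2 (-27672, -396) (by decide +kernel)
                   (CovZ.n2 (-27666, -390) (by decide +kernel)
                    (CovZ.leaf K2_ok TB_l38431 _)
                    (CovZ.leaf K2_ok TB_l38432 _))
                   (CovZ.leaf K2_ok TB_l38433 _))
                  (CovZ.leaf K2_ok TB_l5279 _))
                 (CovZ.n1 (-27684, -396) (by decide +kernel)
                  (CovZ.leaf K2_ok TB_l38434 _)
                  (CovZ.n1 (-27672, -396) (by decide +kernel)
                   (CovZ.n2 (-27678, -402) (by decide +kernel)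
                    (CovZ.leaf K2_ok TB_l38435 _)
                    (CovZ.leaf K2_ok TB_l38436 _))
                   (CovZ.leaf K2_ok TB_l38437 _))))))
              (CovZ.subM 13167251904244888321199412020603337398443273655375236113222336512 (by decide +kernel)
               (CovZ.n1 (-27720, -408) (by decide +kernel)
                (CovZ.n2 (-27720, -384) (by decide +kernel)
                 (CovZ.n2 (-27708, -396) (by decide +kernel)
                  (CovZ.leaf K2_ok TB_l38438 _)
                  (CovZ.leaf K2_ok TB_l38439 _))
                 (CovZ.n1 (-27732, -396) (by decide +kernel)
                  (CovZ.leaf K2_ok TB_l5280 _)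
                  (CovZ.leaf K2_ok TB_l38440 _)))
                (CovZ.n1 (-27696, -408) (by decide +kernel)
                 (CovZ.badM (by decide +kernel))
                 (CovZ.n1 (-27708, -396) (by decide +kernel)
                  (CovZ.n2 (-27696, -396) (by decide +kernel)
                   (CovZ.n2 (-27702, -402) (by decide +kernel)
                    (CovZ.leaf K2_ok TB_l38441 _)
                    (CovZ.leaf K2_ok TB_l38442 _))
                   (CovZ.leaf K2_ok TB_l38443 _))
                  (CovZ.leaf K2_ok TB_l38444 _)))))))
            (CovZ.subM 855665684117054714244765663903650211470350090471866376456253734912 (by decide +kernel)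
             (CovZ.n1 (-27792, -432) (by decide +kernel)
              (CovZ.n2 (-27792, -384) (by decide +kernel)
               (CovZ.n2 (-27768, -408) (by decide +kernel)
                (CovZ.n2 (-27792, -408) (by decide +kernel)
                 (CovZ.n2 (-27780, -396) (by decide +kernel)
                  (CovZ.leaf K2_ok TB_l38445 _)
                  (CovZ.leaf K2_ok TB_l5281 _))
                 (CovZ.badM (by decide +kernel)))
                (CovZ.n1 (-27768, -384) (by decide +kernel)
                 (CovZ.leaf K2_ok TB_l5282 _)
                 (CovZ.n1 (-27780, -396) (by decide +kernel)
                  (CovZ.leaf K2_ok TB_l5283 _)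
                  (CovZ.leaf K2_ok TB_l5284 _))))
               (CovZ.n1 (-27816, -408) (by decide +kernel)
                (CovZ.n2 (-27816, -384) (by decide +kernel)
                 (CovZ.n2 (-27804, -396) (by decide +kernel)
                  (CovZ.leaf K2_ok TB_l5285 _)
                  (CovZ.leaf K2_ok TB_l5286 _))
                 (CovZ.n1 (-27828, -396) (by decide +kernel)
                  (CovZ.leaf K2_ok TB_l5287 _)
                  (CovZ.leaf K2_ok TB_l5288 _)))
                (CovZ.n1 (-27792, -408) (by decide +kernel)
                 (CovZ.badM (by decide +kernel))
                 (CovZ.n1 (-27804, -396) (by decide +kernel)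
                  (CovZ.leaf K2_ok TB_l5289 _)
                  (CovZ.leaf K2_ok TB_l5290 _)))))
              (CovZ.n1 (-27744, -432) (by decide +kernel)
               (CovZ.badM (by decide +kernel))
               (CovZ.n1 (-27768, -408) (by decide +kernel)
                (CovZ.n2 (-27744, -408) (by decide +kernel)
                 (CovZ.badM (by decide +kernel))
                 (CovZ.n1 (-27756, -396) (by decide +kernel)
                  (CovZ.leaf K2_ok TB_l5291 _)
                  (CovZ.leaf K2_ok TB_l38446 _)))
                (CovZ.badM (by decide +kernel))))))))
          (CovZ.n1 (-27936, -480) (by decide +kernel)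
           (CovZ.n2 (-27936, -384) (by decide +kernel)
            (CovZ.subM 842501647658485065907525910443191407430488203546797737549465387008 (by decide +kernel)
             (CovZ.n2 (-27888, -432) (by decide +kernel)
              (CovZ.n2 (-27936, -432) (by decide +kernel)
               (CovZ.n2 (-27912, -408) (by decide +kernel)
                (CovZ.subM 3213876088517980551083924184682325205044405987565585670602752 (by decide +kernel)
                 (CovZ.n2 (-27912, -432) (by decide +kernel)
                  (CovZ.n2 (-27924, -420) (by decide +kernel)
                   (CovZ.leaf K2_ok TB_l5292 _)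
                   (CovZ.badM (by decide +kernel)))
                  (CovZ.n1 (-27900, -420) (by decide +kernel)
                   (CovZ.badM (by decide +kernel))
                   (CovZ.leaf K2_ok TB_l5293 _))))
                (CovZ.n1 (-27936, -408) (by decide +kernel)
                 (CovZ.leaf K2_ok TB_l5294 _)
                 (CovZ.n1 (-27924, -420) (by decide +kernel)
                  (CovZ.leaf K2_ok TB_l5295 _)
                  (CovZ.leaf K2_ok TB_l5296 _))))
               (CovZ.badM (by decide +kernel)))
              (CovZ.n1 (-27888, -384) (by decide +kernel)
               (CovZ.n2 (-27864, -408) (by decide +kernel)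
                (CovZ.n2 (-27888, -408) (by decide +kernel)
                 (CovZ.leaf K2_ok TB_l5297 _)
                 (CovZ.badM (by decide +kernel)))
                (CovZ.n1 (-27864, -384) (by decide +kernel)
                 (CovZ.leaf K2_ok TB_l5298 _)
                 (CovZ.leaf K2_ok TB_l5299 _)))
               (CovZ.n1 (-27912, -408) (by decide +kernel)
                (CovZ.n2 (-27912, -384) (by decide +kernel)
                 (CovZ.leaf K2_ok TB_l5300 _)
                 (CovZ.leaf K2_ok TB_l5301 _))
                (CovZ.n1 (-27888, -408) (by decide +kernel)
                 (CovZ.n2 (-27900, -420) (by decide +kernel)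
                  (CovZ.leaf K2_ok TB_l5302 _)
                  (CovZ.badM (by decide +kernel)))
                 (CovZ.leaf K2_ok TB_l5303 _))))))
            (CovZ.n1 (-27984, -432) (by decide +kernel)
             (CovZ.n2 (-27984, -384) (by decide +kernel)
              (CovZ.subM 842501647658485065907525910443191407430488203546797737549465387008 (by decide +kernel)
               (CovZ.n2 (-27960, -408) (by decide +kernel)
                (CovZ.n2 (-27984, -408) (by decide +kernel)
                 (CovZ.leaf K2_ok TB_l5304 _)
                 (CovZ.n1 (-27972, -420) (by decide +kernel)
                  (CovZ.leaf K2_ok TB_l5305 _)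
                  (CovZ.leaf K2_ok TB_l5306 _)))
                (CovZ.leaf K2_ok TB_l5307 _)))
              (CovZ.n1 (-28008, -408) (by decide +kernel)
               (CovZ.n2 (-28008, -384) (by decide +kernel)
                (CovZ.leaf K2_ok TB_l5308 _)
                (CovZ.leaf K2_ok TB_l5309 _))
               (CovZ.n1 (-27984, -408) (by decide +kernel)
                (CovZ.n2 (-27996, -420) (by decide +kernel)
                 (CovZ.leaf K2_ok TB_l5310 _)
                 (CovZ.leaf K2_ok TB_l5311 _))
                (CovZ.leaf K2_ok TB_l5312 _))))
             (CovZ.subM 842501647658485065907525910443191407430488203546797737549465387008 (by decide +kernel)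
              (CovZ.n1 (-27936, -432) (by decide +kernel)
               (CovZ.badM (by decide +kernel))
               (CovZ.n1 (-27960, -408) (by decide +kernel)
                (CovZ.n2 (-27936, -408) (by decide +kernel)
                 (CovZ.n2 (-27948, -420) (by decide +kernel)
                  (CovZ.leaf K2_ok TB_l5313 _)
                  (CovZ.leaf K2_ok TB_l5314 _))
                 (CovZ.leaf K2_ok TB_l5315 _))
                (CovZ.subM 3314309716284167443305296815453647867702043674677010223333376 (by decide +kernel)
                 (CovZ.n1 (-27960, -432) (by decide +kernel)
                  (CovZ.n2 (-27972, -420) (by decide +kernel)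
                   (CovZ.leaf K2_ok TB_l5316 _)
                   (CovZ.badM (by decide +kernel)))
                  (CovZ.n1 (-27948, -420) (by decide +kernel)
                   (CovZ.badM (by decide +kernel))
                   (CovZ.leaf K2_ok TB_l5317 _)))))))))
           (CovZ.subM 842501647658485065907525910443191407430488203546797737549464862720 (by decide +kernel)
            (CovZ.n1 (-27840, -480) (by decide +kernel)
             (CovZ.badM (by decide +kernel))
             (CovZ.n1 (-27888, -432) (by decide +kernel)
              (CovZ.n2 (-27840, -432) (by decide +kernel)
               (CovZ.badM (by decide +kernel))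
               (CovZ.n1 (-27864, -408) (by decide +kernel)
                (CovZ.n2 (-27840, -408) (by decide +kernel)
                 (CovZ.badM (by decide +kernel))
                 (CovZ.leaf K2_ok TB_l5319 _))
                (CovZ.badM (by decide +kernel))))
              (CovZ.badM (by decide +kernel)))))))
         (CovZ.subM 13164239092337579715699489138069334715808442873962256456688336896 (by decide +kernel)
          (CovZ.n1 (-27648, -576) (by decide +kernel)
           (CovZ.badM (by decide +kernel))
           (CovZ.n1 (-27744, -480) (by decide +kernel)
            (CovZ.n2 (-27648, -480) (by decide +kernel)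
             (CovZ.badM (by decide +kernel))
             (CovZ.n1 (-27696, -432) (by decide +kernel)
              (CovZ.n2 (-27648, -432) (by decide +kernel)
               (CovZ.badM (by decide +kernel))
               (CovZ.n1 (-27672, -408) (by decide +kernel)
                (CovZ.n2 (-27648, -408) (by decide +kernel)
                 (CovZ.badM (by decide +kernel))
                 (CovZ.n1 (-27660, -396) (by decide +kernel)
                  (CovZ.leaf K2_ok TB_l38455 _)
                  (CovZ.subM 311288156738383674354039239889906552922556384193544192 (by decide +kernel)
                   (CovZ.n1 (-27660, -408) (by decide +kernel)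
                    (CovZ.n2 (-27666, -402) (by decide +kernel)
                     (CovZ.leaf K2_ok TB_l38456 _)
                     (CovZ.badM (by decide +kernel)))
                    (CovZ.n1 (-27654, -402) (by decide +kernel)
                     (CovZ.badM (by decide +kernel))
                     (CovZ.n1 (-27660, -402) (by decide +kernel)
                      (CovZ.leaf K2_ok TB_l38457 _)
                      (CovZ.badM (by decide +kernel))))))))
                (CovZ.badM (by decide +kernel))))
              (CovZ.badM (by decide +kernel))))
            (CovZ.badM (by decide +kernel)))))))

end Pool.Agent.TET
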