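import Pool.Agent.Helper38_TET.TB_M
import Pool.Agent.Helper38_TET.TB_L
import Pool.Agent.Helper38_TET.TB_35
import Pool.Agent.Helper38_TET.TB_36
import Pool.Agent.Helper38_TET.TB_37
import Pool.Agent.Helper38_TET.TB_38
import Pool.Agent.Helper38_TET.TB_57
import Pool.Agent.Helper38_TET.TB_58
import Pool.Agent.Helper38_TET.TB_59
import Pool.Agent.Helper38_TET.TB_256
import Pool.Agent.Helper38_TET.TB_261
import Pool.Agent.Helper38_TET.TB_262
import Pool.Agent.Helper38_TET.TB_323
import Pool.Agent.Helper38_TET.TB_324

/-!
# MP_c7c9bf_co: certificates, family TB
-/

set_option autoImplicit false
set_option maxRecDepth 100000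

namespace Pool.Agent.TET

theorem TB_u16 : CovZ TB_M (toL (selN TB_LN 322786472706138835014829274386696385752633586249638118603537648454556321448030263118748964523457614138199877746881462274)) [0, 7, 6, 1] (-27648, -384) (-27648, 0) (-28032, -384) :=
    (CovZ.n1 (-27840, -192) (by decide +kernel)
        (CovZ.n2 (-27648, -192) (by decide +kernel)
         (CovZ.n2 (-27744, -288) (by decide +kernel)
          (CovZ.n2 (-27744, -192) (by decide +kernel)
           (CovZ.n2 (-27696, -240) (by decide +kernel)
            (CovZ.leaf K2_ok TB_l5320 _)
            (CovZ.leaf K2_ok TB_l5321 _))
           (CovZ.n1 (-27792, -240) (by decide +kernel)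
            (CovZ.leaf K2_ok TB_l5322 _)
            (CovZ.leaf K2_ok TB_l5323 _)))
          (CovZ.n1 (-27648, -288) (by decide +kernel)
           (CovZ.n2 (-27696, -336) (by decide +kernel)
            (CovZ.n2 (-27696, -288) (by decide +kernel)
             (CovZ.leaf K2_ok TB_l5324 _)
             (CovZ.n1 (-27720, -312) (by decide +kernel)
              (CovZ.leaf K2_ok TB_l5325 _)
              (CovZ.leaf K2_ok TB_l5326 _)))
            (CovZ.n1 (-27648, -336) (by decide +kernel)
             (CovZ.n2 (-27672, -360) (by decide +kernel)
              (CovZ.leaf K2_ok TB_l5327 _)
              (CovZ.n1 (-27648, -360) (by decide +kernel)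
               (CovZ.leaf K2_ok TB_l5328 _)
               (CovZ.leaf K2_ok TB_l5329 _)))
             (CovZ.leaf K2_ok TB_l5330 _)))
           (CovZ.n1 (-27696, -240) (by decide +kernel)
            (CovZ.leaf K2_ok TB_l5331 _)
            (CovZ.n1 (-27696, -288) (by decide +kernel)
             (CovZ.leaf K2_ok TB_l5332 _)
             (CovZ.leaf K2_ok TB_l5333 _)))))
         (CovZ.n1 (-27744, -96) (by decide +kernel)
          (CovZ.n2 (-27648, -96) (by decide +kernel)
           (CovZ.leaf K2_ok TB_l5334 _)
           (CovZ.leaf K2_ok TB_l5335 _))
          (CovZ.n1 (-27744, -192) (by decide +kernel)
           (CovZ.leaf K2_ok TB_l5336 _)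
           (CovZ.leaf K2_ok TB_l5337 _))))
        (CovZ.n1 (-27840, -384) (by decide +kernel)
         (CovZ.subM 322781542645402005025430739908893514339892680294303456741063910224333423441748946693327949119711606487844714206263246848 (by decide +kernel)
          (CovZ.n2 (-27936, -288) (by decide +kernel)
           (CovZ.n2 (-27840, -288) (by decide +kernel)
            (CovZ.n2 (-27888, -336) (by decide +kernel)
             (CovZ.n2 (-27888, -288) (by decide +kernel)
              (CovZ.leaf K2_ok TB_l5338 _)
              (CovZ.leaf K2_ok TB_l5339 _))
             (CovZ.n1 (-27840, -336) (by decide +kernel)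
              (CovZ.n2 (-27864, -360) (by decide +kernel)
               (CovZ.leaf K2_ok TB_l5340 _)
               (CovZ.leaf K2_ok TB_l5341 _))
              (CovZ.leaf K2_ok TB_l5342 _)))
            (CovZ.n1 (-27888, -240) (by decide +kernel)
             (CovZ.leaf K2_ok TB_l5343 _)
             (CovZ.leaf K2_ok TB_l5344 _)))
           (CovZ.n1 (-27936, -384) (by decide +kernel)
            (CovZ.n2 (-27984, -336) (by decide +kernel)
             (CovZ.n2 (-27936, -336) (by decide +kernel)
              (CovZ.n2 (-27960, -360) (by decide +kernel)
               (CovZ.leaf K2_ok TB_l5345 _)
               (CovZ.leaf K2_ok TB_l5346 _))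
              (CovZ.leaf K2_ok TB_l5347 _))
             (CovZ.subM 322781542589036983038858742431397836111610647292213292799434242306981730590055382207269345404264896753881571617126481920 (by decide +kernel)
              (CovZ.n1 (-27984, -384) (by decide +kernel)
               (CovZ.n2 (-28008, -360) (by decide +kernel)
                (CovZ.leaf K2_ok TB_l5348 _)
                (CovZ.leaf K2_ok TB_l5349 _))
               (CovZ.n1 (-27960, -360) (by decide +kernel)
                (CovZ.leaf K2_ok TB_l5350 _)
                (CovZ.leaf K2_ok TB_l5351 _)))))
            (CovZ.n1 (-27888, -336) (by decide +kernel)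
             (CovZ.subM 322781542589036983038858742431397836111610647292213292799434242306981730590055382207269345404264896753881571617126481920 (by decide +kernel)
              (CovZ.n2 (-27888, -384) (by decide +kernel)
               (CovZ.n2 (-27912, -360) (by decide +kernel)
                (CovZ.leaf K2_ok TB_l5352 _)
                (CovZ.leaf K2_ok TB_l5353 _))
               (CovZ.n1 (-27864, -360) (by decide +kernel)
                (CovZ.n2 (-27864, -384) (by decide +kernel)
                 (CovZ.leaf K2_ok TB_l5354 _)
                 (CovZ.leaf K2_ok TB_l5355 _))
                (CovZ.leaf K2_ok TB_l5356 _))))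
             (CovZ.n1 (-27936, -336) (by decide +kernel)
              (CovZ.leaf K2_ok TB_l5357 _)
              (CovZ.n1 (-27912, -360) (by decide +kernel)
               (CovZ.leaf K2_ok TB_l5358 _)
               (CovZ.leaf K2_ok TB_l5359 _)))))))
         (CovZ.n1 (-27744, -288) (by decide +kernel)
          (CovZ.subM 322781542626760734961990437421457724162543591253807954550529692996902397970408573461906949844071039273174865770080370688 (by decide +kernel)
           (CovZ.n2 (-27744, -384) (by decide +kernel)
            (CovZ.n2 (-27792, -336) (by decide +kernel)
             (CovZ.n2 (-27744, -336) (by decide +kernel)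
              (CovZ.n2 (-27768, -360) (by decide +kernel)
               (CovZ.leaf K2_ok TB_l5360 _)
               (CovZ.leaf K2_ok TB_l5361 _))
              (CovZ.leaf K2_ok TB_l5362 _))
             (CovZ.n1 (-27792, -384) (by decide +kernel)
              (CovZ.n2 (-27816, -360) (by decide +kernel)
               (CovZ.n2 (-27792, -360) (by decide +kernel)
                (CovZ.leaf K2_ok TB_l5363 _)
                (CovZ.leaf K2_ok TB_l5364 _))
               (CovZ.n1 (-27816, -384) (by decide +kernel)
                (CovZ.leaf K2_ok TB_l5365 _)
                (CovZ.leaf K2_ok TB_l5366 _)))
              (CovZ.n1 (-27768, -360) (by decide +kernel)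
               (CovZ.n2 (-27768, -384) (by decide +kernel)
                (CovZ.leaf K2_ok TB_l5367 _)
                (CovZ.leaf K2_ok TB_l5368 _))
               (CovZ.leaf K2_ok TB_l5369 _))))
            (CovZ.n1 (-27696, -336) (by decide +kernel)
             (CovZ.n2 (-27696, -384) (by decide +kernel)
              (CovZ.n2 (-27720, -360) (by decide +kernel)
               (CovZ.n2 (-27696, -360) (by decide +kernel)
                (CovZ.leaf K2_ok TB_l5370 _)
                (CovZ.leaf K2_ok TB_l5371 _))
               (CovZ.n1 (-27720, -384) (by decide +kernel)
                (CovZ.leaf K2_ok TB_l5372 _)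
                (CovZ.leaf K2_ok TB_l5373 _)))
              (CovZ.n1 (-27672, -360) (by decide +kernel)
               (CovZ.n2 (-27672, -384) (by decide +kernel)
                (CovZ.leaf K2_ok TB_l5374 _)
                (CovZ.leaf K2_ok TB_l5375 _))
               (CovZ.n1 (-27696, -360) (by decide +kernel)
                (CovZ.leaf K2_ok TB_l5376 _)
                (CovZ.leaf K2_ok TB_l5377 _))))
             (CovZ.n1 (-27744, -336) (by decide +kernel)
              (CovZ.n2 (-27720, -312) (by decide +kernel)
               (CovZ.leaf K2_ok TB_l5378 _)
               (CovZ.leaf K2_ok TB_l5379 _))
              (CovZ.n1 (-27720, -360) (by decide +kernel)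
               (CovZ.leaf K2_ok TB_l5380 _)
               (CovZ.leaf K2_ok TB_l5381 _))))))
          (CovZ.subM 322781542645402005025430739908893514339892680294303456741063910224333423441748946693327949119711606487844714206263246848 (by decide +kernel)
           (CovZ.n1 (-27840, -288) (by decide +kernel)
            (CovZ.n2 (-27792, -240) (by decide +kernel)
             (CovZ.leaf K2_ok TB_l5382 _)
             (CovZ.leaf K2_ok TB_l5383 _))
            (CovZ.n1 (-27792, -336) (by decide +kernel)
             (CovZ.n2 (-27840, -336) (by decide +kernel)
              (CovZ.leaf K2_ok TB_l5384 _)
              (CovZ.n1 (-27816, -360) (by decide +kernel)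
               (CovZ.leaf K2_ok TB_l5385 _)
               (CovZ.leaf K2_ok TB_l5386 _)))
             (CovZ.n1 (-27792, -288) (by decide +kernel)
              (CovZ.leaf K2_ok TB_l5387 _)
              (CovZ.leaf K2_ok TB_l5388 _))))))))

theorem TB_u17 : CovZ TB_M (toL (selN TB_LN 307865750090656250177577254036015499635199855585269984433268146400578150406285863589653091920794823452173313507330)) [0, 7, 6, 1] (-28416, -768) (-28800, -384) (-29184, -768) :=
    (CovZ.n2 (-28800, -768) (by decide +kernel)
        (CovZ.subM 307828173409331868845930003766313298448495380171350610761289776454245612657238608758210991979848300343288134107138 (by decide +kernel)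
         (CovZ.n2 (-28992, -576) (by decide +kernel)
          (CovZ.n2 (-28800, -576) (by decide +kernel)
           (CovZ.badM (by decide +kernel))
           (CovZ.n1 (-28896, -480) (by decide +kernel)
            (CovZ.n2 (-28800, -480) (by decide +kernel)
             (CovZ.badM (by decide +kernel))
             (CovZ.n1 (-28848, -432) (by decide +kernel)
              (CovZ.n2 (-28800, -432) (by decide +kernel)
               (CovZ.subM 994648369957163348499310316080660062543594569570126855191920746091121187287903332466688 (by decide +kernel)
                (CovZ.n2 (-28824, -456) (by decide +kernel)
                 (CovZ.n2 (-28824, -432) (by decide +kernel)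
                  (CovZ.leaf K2_ok TB_l5399 _)
                  (CovZ.leaf K2_ok TB_l5400 _))
                 (CovZ.n1 (-28800, -456) (by decide +kernel)
                  (CovZ.badM (by decide +kernel))
                  (CovZ.leaf K2_ok TB_l5402 _))))
               (CovZ.n1 (-28824, -408) (by decide +kernel)
                (CovZ.leaf K2_ok TB_l5403 _)
                (CovZ.leaf K2_ok TB_l5404 _)))
              (CovZ.subM 994648369957163348499310316080660062543594569570126855191920746091121187287903332466688 (by decide +kernel)
               (CovZ.n1 (-28848, -480) (by decide +kernel)
                (CovZ.n2 (-28872, -456) (by decide +kernel)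
                 (CovZ.n2 (-28848, -456) (by decide +kernel)
                  (CovZ.badM (by decide +kernel))
                  (CovZ.leaf K2_ok TB_l5406 _))
                 (CovZ.badM (by decide +kernel)))
                (CovZ.n1 (-28824, -456) (by decide +kernel)
                 (CovZ.badM (by decide +kernel))
                 (CovZ.n1 (-28848, -456) (by decide +kernel)
                  (CovZ.leaf K2_ok TB_l5409 _)
                  (CovZ.badM (by decide +kernel))))))))
            (CovZ.badM (by decide +kernel))))
          (CovZ.badM (by decide +kernel))))
        (CovZ.subM 307828173409331868845931022284301465691538514395037313783718759682025789672608718423466336640454775896610389360640 (by decide +kernel)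
         (CovZ.n1 (-28608, -576) (by decide +kernel)
          (CovZ.badM (by decide +kernel))
          (CovZ.n1 (-28800, -576) (by decide +kernel)
           (CovZ.n2 (-28704, -480) (by decide +kernel)
            (CovZ.badM (by decide +kernel))
            (CovZ.n1 (-28800, -480) (by decide +kernel)
             (CovZ.n2 (-28752, -432) (by decide +kernel)
              (CovZ.subM 994648369957163348499310316080660062543594569570124196735929176259375379673782771777536 (by decide +kernel)
               (CovZ.n2 (-28752, -480) (by decide +kernel)
                (CovZ.n2 (-28776, -456) (by decide +kernel)
                 (CovZ.n2 (-28752, -456) (by decide +kernel)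
                  (CovZ.badM (by decide +kernel))
                  (CovZ.leaf K2_ok TB_l5410 _))
                 (CovZ.badM (by decide +kernel)))
                (CovZ.n1 (-28728, -456) (by decide +kernel)
                 (CovZ.badM (by decide +kernel))
                 (CovZ.n1 (-28752, -456) (by decide +kernel)
                  (CovZ.leaf K2_ok TB_l5411 _)
                  (CovZ.badM (by decide +kernel))))))
              (CovZ.n1 (-28800, -432) (by decide +kernel)
               (CovZ.n2 (-28776, -408) (by decide +kernel)
                (CovZ.leaf K2_ok TB_l5412 _)
                (CovZ.leaf K2_ok TB_l5413 _))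
               (CovZ.subM 994648369957163348499310316080660062543594569570124196735929176259375379673782771777536 (by decide +kernel)
                (CovZ.n1 (-28776, -456) (by decide +kernel)
                 (CovZ.n2 (-28800, -456) (by decide +kernel)
                  (CovZ.leaf K2_ok TB_l5414 _)
                  (CovZ.badM (by decide +kernel)))
                 (CovZ.n1 (-28776, -432) (by decide +kernel)
                  (CovZ.leaf K2_ok TB_l5415 _)
                  (CovZ.leaf K2_ok TB_l5416 _))))))
             (CovZ.badM (by decide +kernel))))
           (CovZ.badM (by decide +kernel))))))

theorem TB_u18 : CovZ TB_M (toL (selN TB_LN 307865750090656250177577254036015499635199855585269984433268146400578150406285863589653091920794823452173313507330)) [0, 7, 6, 1] (-28800, -384) (-29184, 0) (-29184, -768) :=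
    (CovZ.n1 (-29184, -384) (by decide +kernel)
        (CovZ.n2 (-28992, -192) (by decide +kernel)
         (CovZ.n2 (-28992, -384) (by decide +kernel)
          (CovZ.n2 (-29088, -288) (by decide +kernel)
           (CovZ.n2 (-28992, -288) (by decide +kernel)
            (CovZ.n2 (-29040, -336) (by decide +kernel)
             (CovZ.leaf K2_ok TB_l5417 _)
             (CovZ.n1 (-28992, -336) (by decide +kernel)
              (CovZ.leaf K2_ok TB_l5418 _)
              (CovZ.leaf K2_ok TB_l5419 _)))
            (CovZ.leaf K2_ok TB_l5420 _))
           (CovZ.subM 307865750090656250177576235455861927840933391092133143879221093109790128001640442493306411163822456642536645066754 (by decide +kernel)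
            (CovZ.n1 (-29088, -384) (by decide +kernel)
             (CovZ.n2 (-29136, -336) (by decide +kernel)
              (CovZ.leaf K2_ok TB_l5421 _)
              (CovZ.n1 (-29136, -384) (by decide +kernel)
               (CovZ.leaf K2_ok TB_l5422 _)
               (CovZ.leaf K2_ok TB_l5423 _)))
             (CovZ.n1 (-29040, -336) (by decide +kernel)
              (CovZ.n2 (-29040, -384) (by decide +kernel)
               (CovZ.leaf K2_ok TB_l5424 _)
               (CovZ.leaf K2_ok TB_l5425 _))
              (CovZ.leaf K2_ok TB_l5426 _)))))
          (CovZ.n1 (-28896, -288) (by decide +kernel)
           (CovZ.subM 307865750090656250177576235455861927840933391092133143879221093109790127827415870629785917870574657637471320801280 (by decide +kernel)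
            (CovZ.n2 (-28896, -384) (by decide +kernel)
             (CovZ.n2 (-28944, -336) (by decide +kernel)
              (CovZ.n2 (-28896, -336) (by decide +kernel)
               (CovZ.leaf K2_ok TB_l5427 _)
               (CovZ.leaf K2_ok TB_l5428 _))
              (CovZ.n1 (-28944, -384) (by decide +kernel)
               (CovZ.leaf K2_ok TB_l5429 _)
               (CovZ.leaf K2_ok TB_l5430 _)))
             (CovZ.n1 (-28848, -336) (by decide +kernel)
              (CovZ.n2 (-28848, -384) (by decide +kernel)
               (CovZ.leaf K2_ok TB_l5431 _)
               (CovZ.leaf K2_ok TB_l5432 _))
              (CovZ.leaf K2_ok TB_l5433 _))))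
           (CovZ.n1 (-28992, -288) (by decide +kernel)
            (CovZ.leaf K2_ok TB_l5434 _)
            (CovZ.n1 (-28944, -336) (by decide +kernel)
             (CovZ.leaf K2_ok TB_l5435 _)
             (CovZ.leaf K2_ok TB_l5436 _)))))
         (CovZ.n1 (-29184, -192) (by decide +kernel)
          (CovZ.n2 (-29088, -96) (by decide +kernel)
           (CovZ.leaf K2_ok TB_l5437 _)
           (CovZ.leaf K2_ok TB_l5438 _))
          (CovZ.n1 (-29088, -288) (by decide +kernel)
           (CovZ.n2 (-29184, -288) (by decide +kernel)
            (CovZ.leaf K2_ok TB_l5439 _)
            (CovZ.n1 (-29136, -336) (by decide +kernel)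
             (CovZ.leaf K2_ok TB_l5440 _)
             (CovZ.leaf K2_ok TB_l5441 _)))
           (CovZ.n1 (-29088, -192) (by decide +kernel)
            (CovZ.leaf K2_ok TB_l5442 _)
            (CovZ.leaf K2_ok TB_l5443 _)))))
        (CovZ.subM 307828173409331868845930003766313298448495380171350610761289776454245612657238608758210991979848300343288134107138 (by decide +kernel)
         (CovZ.n1 (-28992, -576) (by decide +kernel)
          (CovZ.n2 (-29184, -576) (by decide +kernel)
           (CovZ.n2 (-29088, -480) (by decide +kernel)
            (CovZ.n2 (-29088, -576) (by decide +kernel)
             (CovZ.n2 (-29136, -528) (by decide +kernel)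
              (CovZ.badM (by decide +kernel))
              (CovZ.badM (by decide +kernel)))
             (CovZ.badM (by decide +kernel)))
            (CovZ.n1 (-29184, -480) (by decide +kernel)
             (CovZ.n2 (-29136, -432) (by decide +kernel)
              (CovZ.subM 994648369957163348499310316080660062543594569744351427055441239384368986292968656732162 (by decide +kernel)
               (CovZ.n2 (-29136, -480) (by decide +kernel)
                (CovZ.n2 (-29160, -456) (by decide +kernel)
                 (CovZ.n2 (-29136, -456) (by decide +kernel)
                  (CovZ.n2 (-29148, -468) (by decide +kernel)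
                   (CovZ.leaf K2_ok TB_l5444 _)
                   (CovZ.leaf K2_ok TB_l5445 _))
                  (CovZ.leaf K2_ok TB_l5446 _))
                 (CovZ.n1 (-29160, -480) (by decide +kernel)
                  (CovZ.leaf K2_ok TB_l5447 _)
                  (CovZ.leaf K2_ok TB_l5448 _)))
                (CovZ.n1 (-29112, -456) (by decide +kernel)
                 (CovZ.n2 (-29112, -480) (by decide +kernel)
                  (CovZ.leaf K2_ok TB_l5449 _)
                  (CovZ.n1 (-29100, -468) (by decide +kernel)
                   (CovZ.badM (by decide +kernel))
                   (CovZ.leaf K2_ok TB_l5450 _)))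
                 (CovZ.n1 (-29136, -456) (by decide +kernel)
                  (CovZ.leaf K2_ok TB_l5451 _)
                  (CovZ.leaf K2_ok TB_l5452 _)))))
              (CovZ.n1 (-29184, -432) (by decide +kernel)
               (CovZ.n2 (-29160, -408) (by decide +kernel)
                (CovZ.leaf K2_ok TB_l5453 _)
                (CovZ.leaf K2_ok TB_l5454 _))
               (CovZ.n1 (-29160, -456) (by decide +kernel)
                (CovZ.n2 (-29184, -456) (by decide +kernel)
                 (CovZ.leaf K2_ok TB_l5455 _)
                 (CovZ.leaf K2_ok TB_l5456 _))
                (CovZ.leaf K2_ok TB_l5457 _))))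
             (CovZ.n1 (-29136, -528) (by decide +kernel)
              (CovZ.badM (by decide +kernel))
              (CovZ.n1 (-29136, -480) (by decide +kernel)
               (CovZ.badM (by decide +kernel))
               (CovZ.badM (by decide +kernel))))))
           (CovZ.badM (by decide +kernel)))
          (CovZ.n1 (-28992, -384) (by decide +kernel)
           (CovZ.n2 (-28896, -480) (by decide +kernel)
            (CovZ.n2 (-28992, -480) (by decide +kernel)
             (CovZ.n2 (-28944, -432) (by decide +kernel)
              (CovZ.subM 994648369957163348499310316080660062543594569570126855191920746091121187287903332466688 (by decide +kernel)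
               (CovZ.n2 (-28944, -480) (by decide +kernel)
                (CovZ.n2 (-28968, -456) (by decide +kernel)
                 (CovZ.n2 (-28944, -456) (by decide +kernel)
                  (CovZ.badM (by decide +kernel))
                  (CovZ.leaf K2_ok TB_l5460 _))
                 (CovZ.badM (by decide +kernel)))
                (CovZ.n1 (-28920, -456) (by decide +kernel)
                 (CovZ.badM (by decide +kernel))
                 (CovZ.n1 (-28944, -456) (by decide +kernel)
                  (CovZ.leaf K2_ok TB_l5465 _)
                  (CovZ.badM (by decide +kernel))))))
              (CovZ.n1 (-28992, -432) (by decide +kernel)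
               (CovZ.n2 (-28968, -408) (by decide +kernel)
                (CovZ.leaf K2_ok TB_l5468 _)
                (CovZ.leaf K2_ok TB_l5469 _))
               (CovZ.n1 (-28968, -456) (by decide +kernel)
                (CovZ.n2 (-28992, -456) (by decide +kernel)
                 (CovZ.leaf K2_ok TB_l5470 _)
                 (CovZ.badM (by decide +kernel)))
                (CovZ.leaf K2_ok TB_l5472 _))))
             (CovZ.badM (by decide +kernel)))
            (CovZ.n1 (-28896, -384) (by decide +kernel)
             (CovZ.n2 (-28848, -432) (by decide +kernel)
              (CovZ.n2 (-28896, -432) (by decide +kernel)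
               (CovZ.n2 (-28872, -408) (by decide +kernel)
                (CovZ.leaf K2_ok TB_l5473 _)
                (CovZ.leaf K2_ok TB_l5474 _))
               (CovZ.n1 (-28872, -456) (by decide +kernel)
                (CovZ.n2 (-28896, -456) (by decide +kernel)
                 (CovZ.leaf K2_ok TB_l5475 _)
                 (CovZ.badM (by decide +kernel)))
                (CovZ.leaf K2_ok TB_l5478 _)))
              (CovZ.n1 (-28848, -384) (by decide +kernel)
               (CovZ.leaf K2_ok TB_l5479 _)
               (CovZ.n1 (-28872, -408) (by decide +kernel)
                (CovZ.leaf K2_ok TB_l5480 _)
                (CovZ.leaf K2_ok TB_l5481 _))))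
             (CovZ.n1 (-28944, -432) (by decide +kernel)
              (CovZ.n2 (-28944, -384) (by decide +kernel)
               (CovZ.leaf K2_ok TB_l5482 _)
               (CovZ.n1 (-28968, -408) (by decide +kernel)
                (CovZ.leaf K2_ok TB_l5483 _)
                (CovZ.leaf K2_ok TB_l5484 _)))
              (CovZ.n1 (-28896, -432) (by decide +kernel)
               (CovZ.subM 994648369957163348499310316080660062543594569570126855191920746091121187287903332466688 (by decide +kernel)
                (CovZ.n2 (-28920, -456) (by decide +kernel)
                 (CovZ.n2 (-28920, -432) (by decide +kernel)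
                  (CovZ.leaf K2_ok TB_l5485 _)
                  (CovZ.leaf K2_ok TB_l5486 _))
                 (CovZ.n1 (-28896, -456) (by decide +kernel)
                  (CovZ.badM (by decide +kernel))
                  (CovZ.leaf K2_ok TB_l5489 _))))
               (CovZ.n1 (-28920, -408) (by decide +kernel)
                (CovZ.leaf K2_ok TB_l5490 _)
                (CovZ.leaf K2_ok TB_l5491 _))))))
           (CovZ.n1 (-29088, -480) (by decide +kernel)
            (CovZ.n2 (-29088, -384) (by decide +kernel)
             (CovZ.n2 (-29040, -432) (by decide +kernel)
              (CovZ.n2 (-29088, -432) (by decide +kernel)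
               (CovZ.n2 (-29064, -408) (by decide +kernel)
                (CovZ.leaf K2_ok TB_l5492 _)
                (CovZ.leaf K2_ok TB_l5493 _))
               (CovZ.subM 994648369957163348499310316080660062543594569570126855191920746091121187287903332466688 (by decide +kernel)
                (CovZ.n1 (-29064, -456) (by decide +kernel)
                 (CovZ.n2 (-29088, -456) (by decide +kernel)
                  (CovZ.leaf K2_ok TB_l5494 _)
                  (CovZ.leaf K2_ok TB_l5495 _))
                 (CovZ.n1 (-29064, -432) (by decide +kernel)
                  (CovZ.leaf K2_ok TB_l5496 _)
                  (CovZ.leaf K2_ok TB_l5497 _)))))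
              (CovZ.n1 (-29040, -384) (by decide +kernel)
               (CovZ.leaf K2_ok TB_l5498 _)
               (CovZ.n1 (-29064, -408) (by decide +kernel)
                (CovZ.leaf K2_ok TB_l5499 _)
                (CovZ.leaf K2_ok TB_l5500 _))))
             (CovZ.n1 (-29136, -432) (by decide +kernel)
              (CovZ.n2 (-29136, -384) (by decide +kernel)
               (CovZ.leaf K2_ok TB_l5501 _)
               (CovZ.n1 (-29160, -408) (by decide +kernel)
                (CovZ.leaf K2_ok TB_l5502 _)
                (CovZ.leaf K2_ok TB_l5503 _)))
              (CovZ.n1 (-29088, -432) (by decide +kernel)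
               (CovZ.subM 994648369957163348499310316080660062543594569570126855191920746091121187287903332466688 (by decide +kernel)
                (CovZ.n2 (-29112, -456) (by decide +kernel)
                 (CovZ.leaf K2_ok TB_l5504 _)
                 (CovZ.n1 (-29088, -456) (by decide +kernel)
                  (CovZ.n2 (-29100, -468) (by decide +kernel)
                   (CovZ.leaf K2_ok TB_l5505 _)
                   (CovZ.leaf K2_ok TB_l5506 _))
                  (CovZ.leaf K2_ok TB_l5507 _))))
               (CovZ.leaf K2_ok TB_l5508 _))))
            (CovZ.n1 (-28992, -480) (by decide +kernel)
             (CovZ.badM (by decide +kernel))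
             (CovZ.n1 (-29040, -432) (by decide +kernel)
              (CovZ.n2 (-28992, -432) (by decide +kernel)
               (CovZ.n2 (-29016, -456) (by decide +kernel)
                (CovZ.leaf K2_ok TB_l5509 _)
                (CovZ.n1 (-28992, -456) (by decide +kernel)
                 (CovZ.leaf K2_ok TB_l5510 _)
                 (CovZ.leaf K2_ok TB_l5511 _)))
               (CovZ.leaf K2_ok TB_l5512 _))
              (CovZ.subM 994648369957163348499310316080660062543594569570126855191920746091121187287903332466688 (by decide +kernel)
               (CovZ.n1 (-29040, -480) (by decide +kernel)
                (CovZ.n2 (-29064, -456) (by decide +kernel)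
                 (CovZ.n2 (-29040, -456) (by decide +kernel)
                  (CovZ.n2 (-29052, -468) (by decide +kernel)
                   (CovZ.leaf K2_ok TB_l5513 _)
                   (CovZ.leaf K2_ok TB_l5514 _))
                  (CovZ.leaf K2_ok TB_l5515 _))
                 (CovZ.n1 (-29064, -480) (by decide +kernel)
                  (CovZ.leaf K2_ok TB_l5516 _)
                  (CovZ.n1 (-29052, -468) (by decide +kernel)
                   (CovZ.badM (by decide +kernel))
                   (CovZ.leaf K2_ok TB_l5517 _))))
                (CovZ.n1 (-29016, -456) (by decide +kernel)
                 (CovZ.n2 (-29016, -480) (by decide +kernel)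
                  (CovZ.n2 (-29028, -468) (by decide +kernel)
                   (CovZ.leaf K2_ok TB_l5518 _)
                   (CovZ.badM (by decide +kernel)))
                  (CovZ.leaf K2_ok TB_l5519 _))
                 (CovZ.n1 (-29040, -456) (by decide +kernel)
                  (CovZ.leaf K2_ok TB_l5520 _)
                  (CovZ.leaf K2_ok TB_l5521 _))))))))))))

theorem TB_u19 : CovZ TB_M (toL (selN TB_LN 1021501929482839353051344526015004682433745523531638083575975440249226210047129818830995456)) [0, 7, 6, 1] (-28224, -576) (-28032, -384) (-28416, -384) :=
    (CovZ.n1 (-28224, -384) (by decide +kernel)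
           (CovZ.n2 (-28128, -480) (by decide +kernel)
            (CovZ.n2 (-28224, -480) (by decide +kernel)
             (CovZ.n2 (-28176, -432) (by decide +kernel)
              (CovZ.subM 1989292945639146568621528992587283360401824603189390869761855907572637988050133502132224 (by decide +kernel)
               (CovZ.n2 (-28176, -480) (by decide +kernel)
                (CovZ.n2 (-28200, -456) (by decide +kernel)
                 (CovZ.n2 (-28176, -456) (by decide +kernel)
                  (CovZ.badM (by decide +kernel))
                  (CovZ.n1 (-28188, -444) (by decide +kernel)
                   (CovZ.n2 (-28176, -444) (by decide +kernel)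
                    (CovZ.badM (by decide +kernel))
                    (CovZ.leaf K2_ok TB_l38460 _))
                   (CovZ.badM (by decide +kernel))))
                 (CovZ.badM (by decide +kernel)))
                (CovZ.n1 (-28152, -456) (by decide +kernel)
                 (CovZ.badM (by decide +kernel))
                 (CovZ.n1 (-28176, -456) (by decide +kernel)
                  (CovZ.n2 (-28164, -444) (by decide +kernel)
                   (CovZ.badM (by decide +kernel))
                   (CovZ.leaf K2_ok TB_l38461 _))
                  (CovZ.badM (by decide +kernel))))))
              (CovZ.n1 (-28224, -432) (by decide +kernel)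
               (CovZ.n2 (-28200, -408) (by decide +kernel)
                (CovZ.n2 (-28200, -432) (by decide +kernel)
                 (CovZ.leaf K2_ok TB_l5573 _)
                 (CovZ.leaf K2_ok TB_l5574 _))
                (CovZ.n1 (-28224, -408) (by decide +kernel)
                 (CovZ.leaf K2_ok TB_l5575 _)
                 (CovZ.leaf K2_ok TB_l5576 _)))
               (CovZ.subM 1989292945639146568621528992587283360401824603189390869761855907572637988050133502132224 (by decide +kernel)
                (CovZ.n1 (-28200, -456) (by decide +kernel)
                 (CovZ.n2 (-28224, -456) (by decide +kernel)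
                  (CovZ.n2 (-28212, -444) (by decide +kernel)
                   (CovZ.badM (by decide +kernel))
                   (CovZ.n1 (-28224, -444) (by decide +kernel)
                    (CovZ.leaf K2_ok TB_l38462 _)
                    (CovZ.badM (by decide +kernel))))
                  (CovZ.badM (by decide +kernel)))
                 (CovZ.n1 (-28200, -432) (by decide +kernel)
                  (CovZ.n2 (-28188, -444) (by decide +kernel)
                   (CovZ.n2 (-28200, -444) (by decide +kernel)
                    (CovZ.leaf K2_ok TB_l38463 _)
                    (CovZ.badM (by decide +kernel)))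
                   (CovZ.leaf K2_ok TB_l38464 _))
                  (CovZ.n1 (-28212, -444) (by decide +kernel)
                   (CovZ.leaf K2_ok TB_l38465 _)
                   (CovZ.leaf K2_ok TB_l38466 _)))))))
             (CovZ.badM (by decide +kernel)))
            (CovZ.n1 (-28128, -384) (by decide +kernel)
             (CovZ.n2 (-28080, -432) (by decide +kernel)
              (CovZ.n2 (-28128, -432) (by decide +kernel)
               (CovZ.n2 (-28104, -408) (by decide +kernel)
                (CovZ.subM 1989292945639146568621528995801159448919805154273315054444181112617043975615719173259264 (by decide +kernel)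
                 (CovZ.n2 (-28104, -432) (by decide +kernel)
                  (CovZ.n2 (-28116, -420) (by decide +kernel)
                   (CovZ.leaf K2_ok TB_l5577 _)
                   (CovZ.leaf K2_ok TB_l38467 _))
                  (CovZ.n1 (-28092, -420) (by decide +kernel)
                   (CovZ.leaf K2_ok TB_l38468 _)
                   (CovZ.leaf K2_ok TB_l5578 _))))
                (CovZ.n1 (-28128, -408) (by decide +kernel)
                 (CovZ.leaf K2_ok TB_l5579 _)
                 (CovZ.leaf K2_ok TB_l5580 _)))
               (CovZ.subM 1989292945639146568621528995801159448919805154273315054444181112617043975615719172734976 (by decide +kernel)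
                (CovZ.n1 (-28104, -456) (by decide +kernel)
                 (CovZ.n2 (-28128, -456) (by decide +kernel)
                  (CovZ.n2 (-28116, -444) (by decide +kernel)
                   (CovZ.badM (by decide +kernel))
                   (CovZ.n1 (-28128, -444) (by decide +kernel)
                    (CovZ.leaf K2_ok TB_l38469 _)
                    (CovZ.badM (by decide +kernel))))
                  (CovZ.badM (by decide +kernel)))
                 (CovZ.n1 (-28104, -432) (by decide +kernel)
                  (CovZ.n2 (-28092, -444) (by decide +kernel)
                   (CovZ.badM (by decide +kernel))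
                   (CovZ.leaf K2_ok TB_l38470 _))
                  (CovZ.n1 (-28116, -444) (by decide +kernel)
                   (CovZ.leaf K2_ok TB_l38471 _)
                   (CovZ.badM (by decide +kernel)))))))
              (CovZ.n1 (-28080, -384) (by decide +kernel)
               (CovZ.n2 (-28056, -408) (by decide +kernel)
                (CovZ.n2 (-28080, -408) (by decide +kernel)
                 (CovZ.leaf K2_ok TB_l5581 _)
                 (CovZ.leaf K2_ok TB_l5582 _))
                (CovZ.n1 (-28056, -384) (by decide +kernel)
                 (CovZ.leaf K2_ok TB_l5583 _)
                 (CovZ.leaf K2_ok TB_l5584 _)))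
               (CovZ.n1 (-28104, -408) (by decide +kernel)
                (CovZ.leaf K2_ok TB_l5585 _)
                (CovZ.n1 (-28080, -408) (by decide +kernel)
                 (CovZ.leaf K2_ok TB_l5586 _)
                 (CovZ.leaf K2_ok TB_l5587 _)))))
             (CovZ.n1 (-28176, -432) (by decide +kernel)
              (CovZ.n2 (-28176, -384) (by decide +kernel)
               (CovZ.n2 (-28152, -408) (by decide +kernel)
                (CovZ.n2 (-28176, -408) (by decide +kernel)
                 (CovZ.leaf K2_ok TB_l5588 _)
                 (CovZ.leaf K2_ok TB_l5589 _))
                (CovZ.leaf K2_ok TB_l5590 _))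
               (CovZ.n1 (-28200, -408) (by decide +kernel)
                (CovZ.leaf K2_ok TB_l5591 _)
                (CovZ.n1 (-28176, -408) (by decide +kernel)
                 (CovZ.n2 (-28188, -420) (by decide +kernel)
                  (CovZ.leaf K2_ok TB_l5592 _)
                  (CovZ.leaf K2_ok TB_l5593 _))
                 (CovZ.leaf K2_ok TB_l5594 _))))
              (CovZ.n1 (-28128, -432) (by decide +kernel)
               (CovZ.subM 1989292945639146568621528992587283360401824603189390869761855907572637988050133502132224 (by decide +kernel)
                (CovZ.n2 (-28152, -456) (by decide +kernel)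
                 (CovZ.n2 (-28152, -432) (by decide +kernel)
                  (CovZ.n2 (-28140, -444) (by decide +kernel)
                   (CovZ.leaf K2_ok TB_l38472 _)
                   (CovZ.leaf K2_ok TB_l38473 _))
                  (CovZ.n1 (-28164, -444) (by decide +kernel)
                   (CovZ.leaf K2_ok TB_l5595 _)
                   (CovZ.n1 (-28152, -444) (by decide +kernel)
                    (CovZ.badM (by decide +kernel))
                    (CovZ.leaf K2_ok TB_l38474 _))))
                 (CovZ.n1 (-28128, -456) (by decide +kernel)
                  (CovZ.badM (by decide +kernel))
                  (CovZ.n1 (-28140, -444) (by decide +kernel)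
                   (CovZ.n2 (-28128, -444) (by decide +kernel)
                    (CovZ.badM (by decide +kernel))
                    (CovZ.leaf K2_ok TB_l38475 _))
                   (CovZ.badM (by decide +kernel))))))
               (CovZ.n1 (-28152, -408) (by decide +kernel)
                (CovZ.n2 (-28128, -408) (by decide +kernel)
                 (CovZ.n2 (-28140, -420) (by decide +kernel)
                  (CovZ.leaf K2_ok TB_l5596 _)
                  (CovZ.leaf K2_ok TB_l5597 _))
                 (CovZ.leaf K2_ok TB_l5598 _))
                (CovZ.n1 (-28152, -432) (by decide +kernel)
                 (CovZ.leaf K2_ok TB_l5599 _)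
                 (CovZ.n1 (-28140, -420) (by decide +kernel)
                  (CovZ.leaf K2_ok TB_l38476 _)
                  (CovZ.leaf K2_ok TB_l5600 _))))))))
           (CovZ.n1 (-28320, -480) (by decide +kernel)
            (CovZ.n2 (-28320, -384) (by decide +kernel)
             (CovZ.n2 (-28272, -432) (by decide +kernel)
              (CovZ.n2 (-28320, -432) (by decide +kernel)
               (CovZ.n2 (-28296, -408) (by decide +kernel)
                (CovZ.n2 (-28296, -432) (by decide +kernel)
                 (CovZ.leaf K2_ok TB_l5601 _)
                 (CovZ.leaf K2_ok TB_l5602 _))
                (CovZ.leaf K2_ok TB_l5603 _))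
               (CovZ.subM 1989292945639146568621528992587283360401824603189390869761855907572637988050133502132224 (by decide +kernel)
                (CovZ.n1 (-28296, -456) (by decide +kernel)
                 (CovZ.n2 (-28320, -456) (by decide +kernel)
                  (CovZ.n2 (-28308, -444) (by decide +kernel)
                   (CovZ.badM (by decide +kernel))
                   (CovZ.leaf K2_ok TB_l38477 _))
                  (CovZ.badM (by decide +kernel)))
                 (CovZ.n1 (-28296, -432) (by decide +kernel)
                  (CovZ.leaf K2_ok TB_l5604 _)
                  (CovZ.n1 (-28308, -444) (by decide +kernel)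
                   (CovZ.leaf K2_ok TB_l38478 _)
                   (CovZ.leaf K2_ok TB_l38479 _))))))
              (CovZ.n1 (-28272, -384) (by decide +kernel)
               (CovZ.n2 (-28248, -408) (by decide +kernel)
                (CovZ.n2 (-28272, -408) (by decide +kernel)
                 (CovZ.leaf K2_ok TB_l5605 _)
                 (CovZ.leaf K2_ok TB_l5606 _))
                (CovZ.leaf K2_ok TB_l5607 _))
               (CovZ.n1 (-28296, -408) (by decide +kernel)
                (CovZ.leaf K2_ok TB_l5608 _)
                (CovZ.n1 (-28272, -408) (by decide +kernel)
                 (CovZ.leaf K2_ok TB_l5609 _)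
                 (CovZ.leaf K2_ok TB_l5610 _)))))
             (CovZ.n1 (-28368, -432) (by decide +kernel)
              (CovZ.n2 (-28368, -384) (by decide +kernel)
               (CovZ.n2 (-28344, -408) (by decide +kernel)
                (CovZ.leaf K2_ok TB_l5611 _)
                (CovZ.leaf K2_ok TB_l5612 _))
               (CovZ.n1 (-28392, -408) (by decide +kernel)
                (CovZ.leaf K2_ok TB_l5613 _)
                (CovZ.n1 (-28368, -408) (by decide +kernel)
                 (CovZ.leaf K2_ok TB_l5614 _)
                 (CovZ.leaf K2_ok TB_l5615 _))))
              (CovZ.n1 (-28320, -432) (by decide +kernel)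
               (CovZ.subM 1989292945639146568621528992587283360401824603189390869761855907572637988050133502132224 (by decide +kernel)
                (CovZ.n2 (-28344, -456) (by decide +kernel)
                 (CovZ.n2 (-28344, -432) (by decide +kernel)
                  (CovZ.leaf K2_ok TB_l5616 _)
                  (CovZ.badM (by decide +kernel)))
                 (CovZ.n1 (-28320, -456) (by decide +kernel)
                  (CovZ.badM (by decide +kernel))
                  (CovZ.n1 (-28332, -444) (by decide +kernel)
                   (CovZ.leaf K2_ok TB_l38480 _)
                   (CovZ.badM (by decide +kernel))))))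
               (CovZ.n1 (-28344, -408) (by decide +kernel)
                (CovZ.n2 (-28320, -408) (by decide +kernel)
                 (CovZ.leaf K2_ok TB_l5619 _)
                 (CovZ.leaf K2_ok TB_l5620 _))
                (CovZ.n1 (-28344, -432) (by decide +kernel)
                 (CovZ.leaf K2_ok TB_l5621 _)
                 (CovZ.leaf K2_ok TB_l5622 _))))))
            (CovZ.n1 (-28224, -480) (by decide +kernel)
             (CovZ.badM (by decide +kernel))
             (CovZ.n1 (-28272, -432) (by decide +kernel)
              (CovZ.n2 (-28224, -432) (by decide +kernel)
               (CovZ.subM 1989292945639146568621528992587283360401824603189390869761855907572637988050133502132224 (by decide +kernel)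
                (CovZ.n2 (-28248, -456) (by decide +kernel)
                 (CovZ.n2 (-28248, -432) (by decide +kernel)
                  (CovZ.n2 (-28236, -444) (by decide +kernel)
                   (CovZ.leaf K2_ok TB_l38481 _)
                   (CovZ.leaf K2_ok TB_l38482 _))
                  (CovZ.n1 (-28260, -444) (by decide +kernel)
                   (CovZ.leaf K2_ok TB_l38483 _)
                   (CovZ.leaf K2_ok TB_l38484 _)))
                 (CovZ.n1 (-28224, -456) (by decide +kernel)
                  (CovZ.badM (by decide +kernel))
                  (CovZ.n1 (-28236, -444) (by decide +kernel)
                   (CovZ.n2 (-28224, -444) (by decide +kernel)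
                    (CovZ.badM (by decide +kernel))
                    (CovZ.leaf K2_ok TB_l38485 _))
                   (CovZ.badM (by decide +kernel))))))
               (CovZ.n1 (-28248, -408) (by decide +kernel)
                (CovZ.n2 (-28224, -408) (by decide +kernel)
                 (CovZ.leaf K2_ok TB_l5623 _)
                 (CovZ.leaf K2_ok TB_l5624 _))
                (CovZ.n1 (-28248, -432) (by decide +kernel)
                 (CovZ.leaf K2_ok TB_l5625 _)
                 (CovZ.leaf K2_ok TB_l5626 _))))
              (CovZ.subM 1989292945639146568621528992587283360401824603189390869761855907572637988050133502132224 (by decide +kernel)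
               (CovZ.n1 (-28272, -480) (by decide +kernel)
                (CovZ.n2 (-28296, -456) (by decide +kernel)
                 (CovZ.n2 (-28272, -456) (by decide +kernel)
                  (CovZ.badM (by decide +kernel))
                  (CovZ.n1 (-28284, -444) (by decide +kernel)
                   (CovZ.leaf K2_ok TB_l38486 _)
                   (CovZ.badM (by decide +kernel))))
                 (CovZ.badM (by decide +kernel)))
                (CovZ.n1 (-28248, -456) (by decide +kernel)
                 (CovZ.badM (by decide +kernel))
                 (CovZ.n1 (-28272, -456) (by decide +kernel)
                  (CovZ.n2 (-28260, -444) (by decide +kernel)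
                   (CovZ.badM (by decide +kernel))
                   (CovZ.leaf K2_ok TB_l38487 _))
                  (CovZ.badM (by decide +kernel))))))))))

theorem TB_u20 : CovZ TB_M (toL (selN TB_LN 307884538431318440843400369880789814331418861045661254206109893246330959162410965139526006557187889167383239589890)) [0, 7, 6, 1] (-29184, 0) (-28800, -384) (-28416, 0) :=
    (CovZ.n2 (-28800, 0) (by decide +kernel)
        (CovZ.n2 (-28608, -192) (by decide +kernel)
         (CovZ.n2 (-28800, -192) (by decide +kernel)
          (CovZ.n2 (-28704, -96) (by decide +kernel)
           (CovZ.n2 (-28704, -192) (by decide +kernel)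
            (CovZ.leaf K2_ok TB_l5667 _)
            (CovZ.leaf K2_ok TB_l5668 _))
           (CovZ.leaf K2_ok TB_l5669 _))
          (CovZ.subM 307865750090656250177576235455861927840933391092133349567290758260545397201285949233966548420264858694408418623488 (by decide +kernel)
           (CovZ.n1 (-28704, -288) (by decide +kernel)
            (CovZ.n2 (-28800, -288) (by decide +kernel)
             (CovZ.leaf K2_ok TB_l5670 _)
             (CovZ.n1 (-28752, -336) (by decide +kernel)
              (CovZ.leaf K2_ok TB_l5671 _)
              (CovZ.leaf K2_ok TB_l5672 _)))
            (CovZ.n1 (-28704, -192) (by decide +kernel)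
             (CovZ.leaf K2_ok TB_l5673 _)
             (CovZ.leaf K2_ok TB_l5674 _)))))
         (CovZ.n1 (-28608, 0) (by decide +kernel)
          (CovZ.n2 (-28512, -96) (by decide +kernel)
           (CovZ.leaf K2_ok TB_l5675 _)
           (CovZ.leaf K2_ok TB_l5676 _))
          (CovZ.n1 (-28704, -96) (by decide +kernel)
           (CovZ.leaf K2_ok TB_l5677 _)
           (CovZ.leaf K2_ok TB_l5678 _))))
        (CovZ.n1 (-28992, -192) (by decide +kernel)
         (CovZ.n2 (-28992, 0) (by decide +kernel)
          (CovZ.n2 (-28896, -96) (by decide +kernel)
           (CovZ.leaf K2_ok TB_l5679 _)
           (CovZ.leaf K2_ok TB_l5680 _))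
          (CovZ.n1 (-29088, -96) (by decide +kernel)
           (CovZ.leaf K2_ok TB_l5681 _)
           (CovZ.leaf K2_ok TB_l5682 _)))
         (CovZ.n1 (-28800, -192) (by decide +kernel)
          (CovZ.subM 307865750090656250177576235455861927840933391092133349567290758260545397201285949233966548420264858694408418623488 (by decide +kernel)
           (CovZ.n2 (-28896, -288) (by decide +kernel)
            (CovZ.n2 (-28896, -192) (by decide +kernel)
             (CovZ.leaf K2_ok TB_l5683 _)
             (CovZ.leaf K2_ok TB_l5684 _))
            (CovZ.n1 (-28800, -288) (by decide +kernel)
             (CovZ.n2 (-28848, -336) (by decide +kernel)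
              (CovZ.leaf K2_ok TB_l5685 _)
              (CovZ.n1 (-28800, -336) (by decide +kernel)
               (CovZ.leaf K2_ok TB_l5686 _)
               (CovZ.leaf K2_ok TB_l5687 _)))
             (CovZ.leaf K2_ok TB_l5688 _))))
          (CovZ.n1 (-28896, -96) (by decide +kernel)
           (CovZ.leaf K2_ok TB_l5689 _)
           (CovZ.n1 (-28896, -192) (by decide +kernel)
            (CovZ.leaf K2_ok TB_l5690 _)
            (CovZ.leaf K2_ok TB_l5691 _))))))

theorem TB_u21 : CovZ TB_M (toL (selN TB_LN 307884538431318440843400369880789814331418861045661254206109893246330959162410965139526006557187889167383239589890)) [0, 7, 6, 1] (-28800, -384) (-28416, -768) (-28416, 0) :=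
    (CovZ.n1 (-28416, -384) (by decide +kernel)
        (CovZ.subM 307828173409331868845931022284301465691538514395037313783718759682025789672608718423466336640454775896610389360640 (by decide +kernel)
         (CovZ.n2 (-28608, -576) (by decide +kernel)
          (CovZ.n2 (-28608, -384) (by decide +kernel)
           (CovZ.n2 (-28512, -480) (by decide +kernel)
            (CovZ.n2 (-28608, -480) (by decide +kernel)
             (CovZ.n2 (-28560, -432) (by decide +kernel)
              (CovZ.subM 994646472819573284310764496293641680200912301594695434880927953786318994025066751066112 (by decide +kernel)
               (CovZ.n2 (-28560, -480) (by decide +kernel)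
                (CovZ.n2 (-28584, -456) (by decide +kernel)
                 (CovZ.n2 (-28560, -456) (by decide +kernel)
                  (CovZ.badM (by decide +kernel))
                  (CovZ.leaf K2_ok TB_l5692 _))
                 (CovZ.badM (by decide +kernel)))
                (CovZ.n1 (-28536, -456) (by decide +kernel)
                 (CovZ.badM (by decide +kernel))
                 (CovZ.n1 (-28560, -456) (by decide +kernel)
                  (CovZ.n2 (-28548, -444) (by decide +kernel)
                   (CovZ.leaf K2_ok TB_l5693 _)
                   (CovZ.leaf K2_ok TB_l5694 _))
                  (CovZ.badM (by decide +kernel))))))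
              (CovZ.n1 (-28608, -432) (by decide +kernel)
               (CovZ.n2 (-28584, -408) (by decide +kernel)
                (CovZ.leaf K2_ok TB_l5695 _)
                (CovZ.leaf K2_ok TB_l5696 _))
               (CovZ.subM 994646472819573284310764496293641680200912301594695434880927953786318994025066751066112 (by decide +kernel)
                (CovZ.n1 (-28584, -456) (by decide +kernel)
                 (CovZ.n2 (-28608, -456) (by decide +kernel)
                  (CovZ.leaf K2_ok TB_l5697 _)
                  (CovZ.badM (by decide +kernel)))
                 (CovZ.n1 (-28584, -432) (by decide +kernel)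
                  (CovZ.leaf K2_ok TB_l5698 _)
                  (CovZ.leaf K2_ok TB_l5699 _))))))
             (CovZ.badM (by decide +kernel)))
            (CovZ.n1 (-28512, -384) (by decide +kernel)
             (CovZ.n2 (-28464, -432) (by decide +kernel)
              (CovZ.n2 (-28512, -432) (by decide +kernel)
               (CovZ.n2 (-28488, -408) (by decide +kernel)
                (CovZ.leaf K2_ok TB_l5700 _)
                (CovZ.leaf K2_ok TB_l5701 _))
               (CovZ.subM 994646472819573284310764496293641680200912301594695434880927953786318994025066751066112 (by decide +kernel)
                (CovZ.n1 (-28488, -456) (by decide +kernel)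
                 (CovZ.n2 (-28512, -456) (by decide +kernel)
                  (CovZ.n2 (-28500, -444) (by decide +kernel)
                   (CovZ.leaf K2_ok TB_l5702 _)
                   (CovZ.leaf K2_ok TB_l5703 _))
                  (CovZ.badM (by decide +kernel)))
                 (CovZ.n1 (-28488, -432) (by decide +kernel)
                  (CovZ.leaf K2_ok TB_l5704 _)
                  (CovZ.leaf K2_ok TB_l5705 _)))))
              (CovZ.n1 (-28464, -384) (by decide +kernel)
               (CovZ.n2 (-28440, -408) (by decide +kernel)
                (CovZ.leaf K2_ok TB_l5706 _)
                (CovZ.leaf K2_ok TB_l5707 _))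
               (CovZ.n1 (-28488, -408) (by decide +kernel)
                (CovZ.leaf K2_ok TB_l5708 _)
                (CovZ.leaf K2_ok TB_l5709 _))))
             (CovZ.n1 (-28560, -432) (by decide +kernel)
              (CovZ.n2 (-28560, -384) (by decide +kernel)
               (CovZ.n2 (-28536, -408) (by decide +kernel)
                (CovZ.leaf K2_ok TB_l5710 _)
                (CovZ.leaf K2_ok TB_l5711 _))
               (CovZ.n1 (-28584, -408) (by decide +kernel)
                (CovZ.leaf K2_ok TB_l5712 _)
                (CovZ.leaf K2_ok TB_l5713 _)))
              (CovZ.n1 (-28512, -432) (by decide +kernel)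
               (CovZ.subM 994646472819573284310764496293641680200912301594695434880927953786318994025066751066112 (by decide +kernel)
                (CovZ.n2 (-28536, -456) (by decide +kernel)
                 (CovZ.n2 (-28536, -432) (by decide +kernel)
                  (CovZ.leaf K2_ok TB_l5714 _)
                  (CovZ.leaf K2_ok TB_l5715 _))
                 (CovZ.n1 (-28512, -456) (by decide +kernel)
                  (CovZ.badM (by decide +kernel))
                  (CovZ.leaf K2_ok TB_l5716 _))))
               (CovZ.n1 (-28536, -408) (by decide +kernel)
                (CovZ.leaf K2_ok TB_l5717 _)
                (CovZ.n1 (-28536, -432) (by decide +kernel)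
                 (CovZ.leaf K2_ok TB_l5718 _)
                 (CovZ.leaf K2_ok TB_l5719 _)))))))
           (CovZ.n1 (-28704, -480) (by decide +kernel)
            (CovZ.n2 (-28704, -384) (by decide +kernel)
             (CovZ.n2 (-28656, -432) (by decide +kernel)
              (CovZ.n2 (-28704, -432) (by decide +kernel)
               (CovZ.n2 (-28680, -408) (by decide +kernel)
                (CovZ.n2 (-28680, -432) (by decide +kernel)
                 (CovZ.leaf K2_ok TB_l5720 _)
                 (CovZ.leaf K2_ok TB_l5721 _))
                (CovZ.leaf K2_ok TB_l5722 _))
               (CovZ.subM 994646472819573284310764496293641680200912301594695434880927953786318994025066751066112 (by decide +kernel)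
                (CovZ.n1 (-28680, -456) (by decide +kernel)
                 (CovZ.n2 (-28704, -456) (by decide +kernel)
                  (CovZ.leaf K2_ok TB_l5723 _)
                  (CovZ.badM (by decide +kernel)))
                 (CovZ.n1 (-28680, -432) (by decide +kernel)
                  (CovZ.leaf K2_ok TB_l5724 _)
                  (CovZ.leaf K2_ok TB_l5725 _)))))
              (CovZ.n1 (-28656, -384) (by decide +kernel)
               (CovZ.n2 (-28632, -408) (by decide +kernel)
                (CovZ.leaf K2_ok TB_l5726 _)
                (CovZ.leaf K2_ok TB_l5727 _))
               (CovZ.n1 (-28680, -408) (by decide +kernel)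
                (CovZ.leaf K2_ok TB_l5728 _)
                (CovZ.leaf K2_ok TB_l5729 _))))
             (CovZ.n1 (-28752, -432) (by decide +kernel)
              (CovZ.n2 (-28752, -384) (by decide +kernel)
               (CovZ.leaf K2_ok TB_l5730 _)
               (CovZ.n1 (-28776, -408) (by decide +kernel)
                (CovZ.leaf K2_ok TB_l5731 _)
                (CovZ.leaf K2_ok TB_l5732 _)))
              (CovZ.n1 (-28704, -432) (by decide +kernel)
               (CovZ.subM 994648369957163348499310316080660062543594569570124196735929176259375379673782771777536 (by decide +kernel)
                (CovZ.n2 (-28728, -456) (by decide +kernel)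
                 (CovZ.n2 (-28728, -432) (by decide +kernel)
                  (CovZ.leaf K2_ok TB_l5733 _)
                  (CovZ.leaf K2_ok TB_l5734 _))
                 (CovZ.n1 (-28704, -456) (by decide +kernel)
                  (CovZ.badM (by decide +kernel))
                  (CovZ.leaf K2_ok TB_l5735 _))))
               (CovZ.n1 (-28728, -408) (by decide +kernel)
                (CovZ.leaf K2_ok TB_l5736 _)
                (CovZ.leaf K2_ok TB_l5737 _)))))
            (CovZ.n1 (-28608, -480) (by decide +kernel)
             (CovZ.badM (by decide +kernel))
             (CovZ.n1 (-28656, -432) (by decide +kernel)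
              (CovZ.n2 (-28608, -432) (by decide +kernel)
               (CovZ.subM 994646472819573284310764496293641680200912301594695434880927953786318994025066751066112 (by decide +kernel)
                (CovZ.n2 (-28632, -456) (by decide +kernel)
                 (CovZ.n2 (-28632, -432) (by decide +kernel)
                  (CovZ.leaf K2_ok TB_l5738 _)
                  (CovZ.leaf K2_ok TB_l5739 _))
                 (CovZ.n1 (-28608, -456) (by decide +kernel)
                  (CovZ.badM (by decide +kernel))
                  (CovZ.leaf K2_ok TB_l5740 _))))
               (CovZ.n1 (-28632, -408) (by decide +kernel)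
                (CovZ.leaf K2_ok TB_l5741 _)
                (CovZ.n1 (-28632, -432) (by decide +kernel)
                 (CovZ.leaf K2_ok TB_l5742 _)
                 (CovZ.leaf K2_ok TB_l5743 _))))
              (CovZ.subM 994646472819573284310764496293641680200912301594695434880927953786318994025066751066112 (by decide +kernel)
               (CovZ.n1 (-28656, -480) (by decide +kernel)
                (CovZ.n2 (-28680, -456) (by decide +kernel)
                 (CovZ.n2 (-28656, -456) (by decide +kernel)
                  (CovZ.badM (by decide +kernel))
                  (CovZ.leaf K2_ok TB_l5745 _))
                 (CovZ.badM (by decide +kernel)))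
                (CovZ.n1 (-28632, -456) (by decide +kernel)
                 (CovZ.badM (by decide +kernel))
                 (CovZ.n1 (-28656, -456) (by decide +kernel)
                  (CovZ.leaf K2_ok TB_l5747 _)
                  (CovZ.badM (by decide +kernel))))))))))
          (CovZ.n1 (-28416, -576) (by decide +kernel)
           (CovZ.badM (by decide +kernel))
           (CovZ.n1 (-28512, -480) (by decide +kernel)
            (CovZ.n2 (-28416, -480) (by decide +kernel)
             (CovZ.badM (by decide +kernel))
             (CovZ.n1 (-28464, -432) (by decide +kernel)
              (CovZ.n2 (-28416, -432) (by decide +kernel)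
               (CovZ.subM 1019512634640062616418534451199316070663428692478784290116409703791740173268583454330585088 (by decide +kernel)
                (CovZ.n2 (-28440, -456) (by decide +kernel)
                 (CovZ.n2 (-28440, -432) (by decide +kernel)
                  (CovZ.leaf K2_ok TB_l5748 _)
                  (CovZ.leaf K2_ok TB_l5749 _))
                 (CovZ.n1 (-28416, -456) (by decide +kernel)
                  (CovZ.badM (by decide +kernel))
                  (CovZ.n1 (-28428, -444) (by decide +kernel)
                   (CovZ.leaf K2_ok TB_l5750 _)
                   (CovZ.leaf K2_ok TB_l5751 _)))))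
               (CovZ.n1 (-28440, -408) (by decide +kernel)
                (CovZ.leaf K2_ok TB_l5752 _)
                (CovZ.n1 (-28440, -432) (by decide +kernel)
                 (CovZ.leaf K2_ok TB_l5753 _)
                 (CovZ.leaf K2_ok TB_l5754 _))))
              (CovZ.subM 1019512634640062616418534451199316070663428692478784290116409703791740173268583454330585088 (by decide +kernel)
               (CovZ.n1 (-28464, -480) (by decide +kernel)
                (CovZ.n2 (-28488, -456) (by decide +kernel)
                 (CovZ.n2 (-28464, -456) (by decide +kernel)
                  (CovZ.badM (by decide +kernel))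
                  (CovZ.n1 (-28476, -444) (by decide +kernel)
                   (CovZ.leaf K2_ok TB_l5755 _)
                   (CovZ.leaf K2_ok TB_l5756 _)))
                 (CovZ.badM (by decide +kernel)))
                (CovZ.n1 (-28440, -456) (by decide +kernel)
                 (CovZ.badM (by decide +kernel))
                 (CovZ.n1 (-28464, -456) (by decide +kernel)
                  (CovZ.leaf K2_ok TB_l5757 _)
                  (CovZ.badM (by decide +kernel))))))))
            (CovZ.badM (by decide +kernel))))))
        (CovZ.n1 (-28608, -192) (by decide +kernel)
         (CovZ.n2 (-28416, -192) (by decide +kernel)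
          (CovZ.n2 (-28512, -288) (by decide +kernel)
           (CovZ.n2 (-28512, -192) (by decide +kernel)
            (CovZ.leaf K2_ok TB_l5758 _)
            (CovZ.leaf K2_ok TB_l5759 _))
           (CovZ.n1 (-28416, -288) (by decide +kernel)
            (CovZ.n2 (-28464, -336) (by decide +kernel)
             (CovZ.leaf K2_ok TB_l5760 _)
             (CovZ.n1 (-28416, -336) (by decide +kernel)
              (CovZ.leaf K2_ok TB_l5761 _)
              (CovZ.leaf K2_ok TB_l5762 _)))
            (CovZ.leaf K2_ok TB_l5763 _)))
          (CovZ.n1 (-28512, -96) (by decide +kernel)
           (CovZ.leaf K2_ok TB_l5764 _)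
           (CovZ.n1 (-28512, -192) (by decide +kernel)
            (CovZ.leaf K2_ok TB_l5765 _)
            (CovZ.leaf K2_ok TB_l5766 _))))
         (CovZ.n1 (-28608, -384) (by decide +kernel)
          (CovZ.subM 307865750090656250177576235455861927840933391092133349567290758260545397201285949233966548420264858694408418623488 (by decide +kernel)
           (CovZ.n2 (-28704, -288) (by decide +kernel)
            (CovZ.n2 (-28608, -288) (by decide +kernel)
             (CovZ.n2 (-28656, -336) (by decide +kernel)
              (CovZ.leaf K2_ok TB_l5767 _)
              (CovZ.n1 (-28608, -336) (by decide +kernel)
               (CovZ.leaf K2_ok TB_l5768 _)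
               (CovZ.leaf K2_ok TB_l5769 _)))
             (CovZ.leaf K2_ok TB_l5770 _))
            (CovZ.n1 (-28704, -384) (by decide +kernel)
             (CovZ.n2 (-28752, -336) (by decide +kernel)
              (CovZ.n2 (-28704, -336) (by decide +kernel)
               (CovZ.leaf K2_ok TB_l5771 _)
               (CovZ.leaf K2_ok TB_l5772 _))
              (CovZ.n1 (-28752, -384) (by decide +kernel)
               (CovZ.leaf K2_ok TB_l5773 _)
               (CovZ.leaf K2_ok TB_l5774 _)))
             (CovZ.n1 (-28656, -336) (by decide +kernel)
              (CovZ.n2 (-28656, -384) (by decide +kernel)
               (CovZ.leaf K2_ok TB_l5775 _)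
               (CovZ.leaf K2_ok TB_l5776 _))
              (CovZ.leaf K2_ok TB_l5777 _)))))
          (CovZ.n1 (-28512, -288) (by decide +kernel)
           (CovZ.n2 (-28512, -384) (by decide +kernel)
            (CovZ.subM 307865750090656250177576235455861927840933391092133143879221093109790127827415870629785917870574657637471320801280 (by decide +kernel)
             (CovZ.n2 (-28560, -336) (by decide +kernel)
              (CovZ.n2 (-28512, -336) (by decide +kernel)
               (CovZ.leaf K2_ok TB_l5778 _)
               (CovZ.leaf K2_ok TB_l5779 _))
              (CovZ.n1 (-28560, -384) (by decide +kernel)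
               (CovZ.leaf K2_ok TB_l5780 _)
               (CovZ.leaf K2_ok TB_l5781 _))))
            (CovZ.n1 (-28464, -336) (by decide +kernel)
             (CovZ.n2 (-28464, -384) (by decide +kernel)
              (CovZ.leaf K2_ok TB_l5782 _)
              (CovZ.leaf K2_ok TB_l5783 _))
             (CovZ.n1 (-28512, -336) (by decide +kernel)
              (CovZ.leaf K2_ok TB_l5784 _)
              (CovZ.leaf K2_ok TB_l5785 _))))
           (CovZ.n1 (-28608, -288) (by decide +kernel)
            (CovZ.leaf K2_ok TB_l5786 _)
            (CovZ.n1 (-28560, -336) (by decide +kernel)
             (CovZ.leaf K2_ok TB_l5787 _)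
             (CovZ.leaf K2_ok TB_l5788 _)))))))

theorem TB_u22 : CovZ TB_M (toL (selN TB_LN 10370770953930916297759216503674656615715813901421313187863655288596802989585187558791593703150458911272407662942073405440)) [0, 7, 6, 1] (-26112, -384) (-26112, -192) (-26304, -192) :=
    (CovZ.subM 10330265301947147040477319843337061784163443306654034267343455194305197447652708081355741732103169001327414403654827900928 (by decide +kernel)
          (CovZ.n2 (-26208, -288) (by decide +kernel)
           (CovZ.n2 (-26208, -192) (by decide +kernel)
            (CovZ.subM 10330260376696372491167418308456921951463196766292098904788661543925665448806776045337088703270507285251980433907492323328 (by decide +kernel)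
             (CovZ.n2 (-26160, -240) (by decide +kernel)
              (CovZ.n2 (-26208, -240) (by decide +kernel)
               (CovZ.n2 (-26184, -216) (by decide +kernel)
                (CovZ.badM (by decide +kernel))
                (CovZ.n1 (-26208, -216) (by decide +kernel)
                 (CovZ.n2 (-26196, -204) (by decide +kernel)
                  (CovZ.badM (by decide +kernel))
                  (CovZ.n1 (-26208, -204) (by decide +kernel)
                   (CovZ.n2 (-26202, -198) (by decide +kernel)
                    (CovZ.leaf K2_ok TB_l39206 _)
                    (CovZ.leaf K2_ok TB_l39207 _))
                   (CovZ.n1 (-26202, -210) (by decide +kernel)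
                    (CovZ.n2 (-26208, -210) (by decide +kernel)
                     (CovZ.leaf K2_ok TB_l48521 _)
                     (CovZ.badM (by decide +kernel)))
                    (CovZ.leaf K2_ok TB_l48522 _))))
                 (CovZ.badM (by decide +kernel))))
               (CovZ.badM (by decide +kernel)))
              (CovZ.n1 (-26160, -192) (by decide +kernel)
               (CovZ.badM (by decide +kernel))
               (CovZ.n1 (-26184, -216) (by decide +kernel)
                (CovZ.n2 (-26184, -192) (by decide +kernel)
                 (CovZ.subM 1260864348591348632318255868131361606955690311614861522603611082506858636048755290140011184663073754944594927811559424 (by decide +kernel)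
                  (CovZ.n2 (-26172, -204) (by decide +kernel)
                   (CovZ.n2 (-26184, -204) (by decide +kernel)
                    (CovZ.n2 (-26178, -198) (by decide +kernel)
                     (CovZ.leaf K2_ok TB_l39208 _)
                     (CovZ.leaf K2_ok TB_l39209 _))
                    (CovZ.badM (by decide +kernel)))
                   (CovZ.n1 (-26172, -192) (by decide +kernel)
                    (CovZ.n2 (-26166, -198) (by decide +kernel)
                     (CovZ.n2 (-26172, -198) (by decide +kernel)
                      (CovZ.leaf K2_ok TB_l39210 _)
                      (CovZ.badM (by decide +kernel)))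
                     (CovZ.leaf K2_ok TB_l39211 _))
                    (CovZ.n1 (-26178, -198) (by decide +kernel)
                     (CovZ.leaf K2_ok TB_l39212 _)
                     (CovZ.n1 (-26172, -198) (by decide +kernel)
                      (CovZ.leaf K2_ok TB_l39213 _)
                      (CovZ.leaf K2_ok TB_l39214 _))))))
                 (CovZ.n1 (-26196, -204) (by decide +kernel)
                  (CovZ.leaf K2_ok TB_l39215 _)
                  (CovZ.subM 1260864348591348632318255868131361606955690311614861522603611082506858636048755290140011184663073754944594927811559424 (by decide +kernel)
                   (CovZ.n1 (-26184, -204) (by decide +kernel)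
                    (CovZ.badM (by decide +kernel))
                    (CovZ.n1 (-26190, -198) (by decide +kernel)
                     (CovZ.n2 (-26184, -198) (by decide +kernel)
                      (CovZ.leaf K2_ok TB_l39216 _)
                      (CovZ.leaf K2_ok TB_l39217 _))
                     (CovZ.leaf K2_ok TB_l39218 _))))))
                (CovZ.badM (by decide +kernel))))))
            (CovZ.n1 (-26256, -240) (by decide +kernel)
             (CovZ.n2 (-26256, -192) (by decide +kernel)
              (CovZ.n2 (-26232, -216) (by decide +kernel)
               (CovZ.n2 (-26256, -216) (by decide +kernel)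
                (CovZ.n2 (-26244, -204) (by decide +kernel)
                 (CovZ.badM (by decide +kernel))
                 (CovZ.n1 (-26256, -204) (by decide +kernel)
                  (CovZ.leaf K2_ok TB_l39219 _)
                  (CovZ.n1 (-26250, -210) (by decide +kernel)
                   (CovZ.n2 (-26256, -210) (by decide +kernel)
                    (CovZ.leaf K2_ok TB_l48523 _)
                    (CovZ.badM (by decide +kernel)))
                   (CovZ.leaf K2_ok TB_l48524 _))))
                (CovZ.badM (by decide +kernel)))
               (CovZ.n1 (-26232, -192) (by decide +kernel)
                (CovZ.n2 (-26220, -204) (by decide +kernel)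
                 (CovZ.n2 (-26232, -204) (by decide +kernel)
                  (CovZ.leaf K2_ok TB_l39220 _)
                  (CovZ.badM (by decide +kernel)))
                 (CovZ.leaf K2_ok TB_l39221 _))
                (CovZ.n1 (-26244, -204) (by decide +kernel)
                 (CovZ.leaf K2_ok TB_l39222 _)
                 (CovZ.n1 (-26232, -204) (by decide +kernel)
                  (CovZ.badM (by decide +kernel))
                  (CovZ.leaf K2_ok TB_l39223 _)))))
              (CovZ.n1 (-26280, -216) (by decide +kernel)
               (CovZ.n2 (-26280, -192) (by decide +kernel)
                (CovZ.n2 (-26268, -204) (by decide +kernel)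
                 (CovZ.n2 (-26280, -204) (by decide +kernel)
                  (CovZ.leaf K2_ok TB_l39224 _)
                  (CovZ.n1 (-26274, -210) (by decide +kernel)
                   (CovZ.n2 (-26280, -210) (by decide +kernel)
                    (CovZ.leaf K2_ok TB_l39225 _)
                    (CovZ.leaf K2_ok TB_l39226 _))
                   (CovZ.leaf K2_ok TB_l39227 _)))
                 (CovZ.leaf K2_ok TB_l39228 _))
                (CovZ.n1 (-26292, -204) (by decide +kernel)
                 (CovZ.leaf K2_ok TB_l39229 _)
                 (CovZ.n1 (-26280, -204) (by decide +kernel)
                  (CovZ.n2 (-26286, -210) (by decide +kernel)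
                   (CovZ.leaf K2_ok TB_l39230 _)
                   (CovZ.n1 (-26280, -210) (by decide +kernel)
                    (CovZ.leaf K2_ok TB_l39231 _)
                    (CovZ.leaf K2_ok TB_l39232 _)))
                  (CovZ.leaf K2_ok TB_l39233 _))))
               (CovZ.n1 (-26256, -216) (by decide +kernel)
                (CovZ.badM (by decide +kernel))
                (CovZ.n1 (-26268, -204) (by decide +kernel)
                 (CovZ.n2 (-26256, -204) (by decide +kernel)
                  (CovZ.n2 (-26262, -210) (by decide +kernel)
                   (CovZ.leaf K2_ok TB_l39234 _)
                   (CovZ.n1 (-26256, -210) (by decide +kernel)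
                    (CovZ.badM (by decide +kernel))
                    (CovZ.leaf K2_ok TB_l48525 _)))
                  (CovZ.leaf K2_ok TB_l39235 _))
                 (CovZ.subM 1260864198284623334792929283204595641762551656654894293375952326980122086963452701657597682758839503499594888525119488 (by decide +kernel)
                  (CovZ.n1 (-26268, -216) (by decide +kernel)
                   (CovZ.n2 (-26274, -210) (by decide +kernel)
                    (CovZ.leaf K2_ok TB_l39236 _)
                    (CovZ.badM (by decide +kernel)))
                   (CovZ.n1 (-26262, -210) (by decide +kernel)
                    (CovZ.badM (by decide +kernel))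
                    (CovZ.n1 (-26268, -210) (by decide +kernel)
                     (CovZ.leaf K2_ok TB_l39237 _)
                     (CovZ.badM (by decide +kernel))))))))))
             (CovZ.subM 10330260376696372491167418308456921951463196766292098904788661543925665448806776045337088703270507285251980433907492323328 (by decide +kernel)
              (CovZ.n1 (-26208, -240) (by decide +kernel)
               (CovZ.badM (by decide +kernel))
               (CovZ.n1 (-26232, -216) (by decide +kernel)
                (CovZ.n2 (-26208, -216) (by decide +kernel)
                 (CovZ.badM (by decide +kernel))
                 (CovZ.n1 (-26220, -204) (by decide +kernel)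
                  (CovZ.n2 (-26208, -204) (by decide +kernel)
                   (CovZ.n2 (-26214, -210) (by decide +kernel)
                    (CovZ.leaf K2_ok TB_l48526 _)
                    (CovZ.n1 (-26208, -210) (by decide +kernel)
                     (CovZ.badM (by decide +kernel))
                     (CovZ.leaf K2_ok TB_l48527 _)))
                   (CovZ.n1 (-26214, -198) (by decide +kernel)
                    (CovZ.leaf K2_ok TB_l39238 _)
                    (CovZ.leaf K2_ok TB_l39239 _)))
                  (CovZ.badM (by decide +kernel))))
                (CovZ.badM (by decide +kernel)))))))
           (CovZ.badM (by decide +kernel))))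

theorem TB_u23 : CovZ TB_M (toL (selN TB_LN 10370770953930916297759216503674656615715813901421313187863655288596802989585187558791593703150458911272407662942073405440)) [0, 7, 6, 1] (-26112, -192) (-26112, 0) (-26304, -192) :=
    (CovZ.n1 (-26208, -96) (by decide +kernel)
          (CovZ.n2 (-26112, -96) (by decide +kernel)
           (CovZ.n2 (-26160, -144) (by decide +kernel)
            (CovZ.n2 (-26160, -96) (by decide +kernel)
             (CovZ.n2 (-26136, -120) (by decide +kernel)
              (CovZ.leaf K2_ok TB_l8599 _)
              (CovZ.leaf K2_ok TB_l8600 _))
             (CovZ.n1 (-26184, -120) (by decide +kernel)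
              (CovZ.leaf K2_ok TB_l8601 _)
              (CovZ.leaf K2_ok TB_l8602 _)))
            (CovZ.n1 (-26112, -144) (by decide +kernel)
             (CovZ.subM 10370770569126856061315680146037623150721355235288504523396409831407668005874042623918063965896962642493944818390871851008 (by decide +kernel)
              (CovZ.n2 (-26136, -168) (by decide +kernel)
               (CovZ.leaf K2_ok TB_l8603 _)
               (CovZ.n1 (-26112, -168) (by decide +kernel)
                (CovZ.n2 (-26124, -180) (by decide +kernel)
                 (CovZ.leaf K2_ok TB_l8604 _)
                 (CovZ.n1 (-26112, -180) (by decide +kernel)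
                  (CovZ.leaf K2_ok TB_l39240 _)
                  (CovZ.leaf K2_ok TB_l39241 _)))
                (CovZ.leaf K2_ok TB_l8605 _))))
             (CovZ.n1 (-26136, -120) (by decide +kernel)
              (CovZ.leaf K2_ok TB_l8606 _)
              (CovZ.n1 (-26136, -144) (by decide +kernel)
               (CovZ.leaf K2_ok TB_l8607 _)
               (CovZ.leaf K2_ok TB_l8608 _)))))
           (CovZ.n1 (-26160, -48) (by decide +kernel)
            (CovZ.n2 (-26112, -48) (by decide +kernel)
             (CovZ.leaf K2_ok TB_l8609 _)
             (CovZ.leaf K2_ok TB_l8610 _))
            (CovZ.n1 (-26160, -96) (by decide +kernel)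
             (CovZ.leaf K2_ok TB_l8611 _)
             (CovZ.leaf K2_ok TB_l8612 _))))
          (CovZ.n1 (-26208, -192) (by decide +kernel)
           (CovZ.n2 (-26256, -144) (by decide +kernel)
            (CovZ.n2 (-26208, -144) (by decide +kernel)
             (CovZ.subM 10370770569126856132987511895735506032464846157823795206042704862498703255238633141724040746622132942084071732699868446720 (by decide +kernel)
              (CovZ.n2 (-26232, -168) (by decide +kernel)
               (CovZ.leaf K2_ok TB_l8613 _)
               (CovZ.n1 (-26208, -168) (by decide +kernel)
                (CovZ.n2 (-26220, -180) (by decide +kernel)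
                 (CovZ.leaf K2_ok TB_l8614 _)
                 (CovZ.leaf K2_ok TB_l8615 _))
                (CovZ.leaf K2_ok TB_l8616 _))))
             (CovZ.n1 (-26232, -120) (by decide +kernel)
              (CovZ.leaf K2_ok TB_l8617 _)
              (CovZ.leaf K2_ok TB_l8618 _)))
            (CovZ.subM 10370770569126856132987511895735506032464846157823795206042704862498703255238633141724040746622132942084071732699868446720 (by decide +kernel)
             (CovZ.n1 (-26256, -192) (by decide +kernel)
              (CovZ.n2 (-26280, -168) (by decide +kernel)
               (CovZ.n2 (-26256, -168) (by decide +kernel)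
                (CovZ.leaf K2_ok TB_l8619 _)
                (CovZ.leaf K2_ok TB_l8620 _))
               (CovZ.n1 (-26280, -192) (by decide +kernel)
                (CovZ.leaf K2_ok TB_l8621 _)
                (CovZ.leaf K2_ok TB_l8622 _)))
              (CovZ.n1 (-26232, -168) (by decide +kernel)
               (CovZ.n2 (-26232, -192) (by decide +kernel)
                (CovZ.n2 (-26244, -180) (by decide +kernel)
                 (CovZ.leaf K2_ok TB_l8623 _)
                 (CovZ.leaf K2_ok TB_l8624 _))
                (CovZ.n1 (-26220, -180) (by decide +kernel)
                 (CovZ.leaf K2_ok TB_l8625 _)
                 (CovZ.leaf K2_ok TB_l8626 _)))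
               (CovZ.n1 (-26256, -168) (by decide +kernel)
                (CovZ.leaf K2_ok TB_l8627 _)
                (CovZ.leaf K2_ok TB_l8628 _))))))
           (CovZ.n1 (-26160, -144) (by decide +kernel)
            (CovZ.subM 10370770569126856061315680146037623150721355235288504523396409831407668005874042623918063965896962642493944818390871851008 (by decide +kernel)
             (CovZ.n2 (-26160, -192) (by decide +kernel)
              (CovZ.n2 (-26184, -168) (by decide +kernel)
               (CovZ.n2 (-26160, -168) (by decide +kernel)
                (CovZ.n2 (-26172, -180) (by decide +kernel)
                 (CovZ.leaf K2_ok TB_l8629 _)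
                 (CovZ.leaf K2_ok TB_l8630 _))
                (CovZ.leaf K2_ok TB_l8631 _))
               (CovZ.n1 (-26184, -192) (by decide +kernel)
                (CovZ.n2 (-26196, -180) (by decide +kernel)
                 (CovZ.leaf K2_ok TB_l8632 _)
                 (CovZ.leaf K2_ok TB_l8633 _))
                (CovZ.n1 (-26172, -180) (by decide +kernel)
                 (CovZ.subM 10330260376696372491167418308457049266211717671686625459188948166551457525390856835293372152761768816856904190207570477056 (by decide +kernel)
                  (CovZ.n2 (-26172, -192) (by decide +kernel)
                   (CovZ.n2 (-26178, -186) (by decide +kernel)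
                    (CovZ.leaf K2_ok TB_l39242 _)
                    (CovZ.leaf K2_ok TB_l39243 _))
                   (CovZ.n1 (-26166, -186) (by decide +kernel)
                    (CovZ.leaf K2_ok TB_l39244 _)
                    (CovZ.leaf K2_ok TB_l39245 _))))
                 (CovZ.leaf K2_ok TB_l8634 _))))
              (CovZ.n1 (-26136, -168) (by decide +kernel)
               (CovZ.n2 (-26136, -192) (by decide +kernel)
                (CovZ.n2 (-26148, -180) (by decide +kernel)
                 (CovZ.leaf K2_ok TB_l8635 _)
                 (CovZ.n1 (-26148, -192) (by decide +kernel)
                  (CovZ.n2 (-26154, -186) (by decide +kernel)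
                   (CovZ.leaf K2_ok TB_l39246 _)
                   (CovZ.leaf K2_ok TB_l39247 _))
                  (CovZ.leaf K2_ok TB_l39248 _)))
                (CovZ.n1 (-26124, -180) (by decide +kernel)
                 (CovZ.subM 10330260376546065765869892981872122500246524533031665491959513011920965846722442176849716186638813903143886987043425746944 (by decide +kernel)
                  (CovZ.n2 (-26124, -192) (by decide +kernel)
                   (CovZ.n2 (-26130, -186) (by decide +kernel)
                    (CovZ.n2 (-26124, -186) (by decide +kernel)
                     (CovZ.leaf K2_ok TB_l39249 _)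
                     (CovZ.leaf K2_ok TB_l39250 _))
                    (CovZ.leaf K2_ok TB_l39251 _))
                   (CovZ.leaf K2_ok TB_l39252 _)))
                 (CovZ.leaf K2_ok TB_l8636 _)))
               (CovZ.n1 (-26160, -168) (by decide +kernel)
                (CovZ.leaf K2_ok TB_l8637 _)
                (CovZ.n1 (-26148, -180) (by decide +kernel)
                 (CovZ.leaf K2_ok TB_l8638 _)
                 (CovZ.leaf K2_ok TB_l8639 _))))))
            (CovZ.n1 (-26208, -144) (by decide +kernel)
             (CovZ.n2 (-26184, -120) (by decide +kernel)
              (CovZ.leaf K2_ok TB_l8640 _)
              (CovZ.leaf K2_ok TB_l8641 _))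
             (CovZ.subM 10370770569126856132987511895727357888559508213478721423289067349854497381663969396721496184824715416885018385875134857216 (by decide +kernel)
              (CovZ.n1 (-26184, -168) (by decide +kernel)
               (CovZ.n2 (-26208, -168) (by decide +kernel)
                (CovZ.leaf K2_ok TB_l8642 _)
                (CovZ.n1 (-26196, -180) (by decide +kernel)
                 (CovZ.leaf K2_ok TB_l8643 _)
                 (CovZ.leaf K2_ok TB_l8644 _)))
               (CovZ.leaf K2_ok TB_l8645 _)))))))

theorem TB_u24 : CovZ TB_M (toL (selN TB_LN 322786467896323625494018823669164454276465397962725070930023167624904010072382732482203885940269532020366110507041030144)) [0, 7, 6, 1] (-27648, -384) (-27456, -384) (-27456, -192) :=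
    (CovZ.n2 (-27552, -288) (by decide +kernel)
           (CovZ.n2 (-27456, -288) (by decide +kernel)
            (CovZ.n2 (-27504, -336) (by decide +kernel)
             (CovZ.n2 (-27504, -288) (by decide +kernel)
              (CovZ.n2 (-27480, -312) (by decide +kernel)
               (CovZ.leaf K2_ok TB_l8646 _)
               (CovZ.leaf K2_ok TB_l8647 _))
              (CovZ.n1 (-27528, -312) (by decide +kernel)
               (CovZ.leaf K2_ok TB_l8648 _)
               (CovZ.leaf K2_ok TB_l8649 _)))
             (CovZ.n1 (-27456, -336) (by decide +kernel)
              (CovZ.subM 322786160011638123016891431388537208313681354639465800316750230417651645343278606765010698737147682109850647808543031296 (by decide +kernel)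
               (CovZ.n2 (-27480, -360) (by decide +kernel)
                (CovZ.n2 (-27480, -336) (by decide +kernel)
                 (CovZ.leaf K2_ok TB_l8650 _)
                 (CovZ.leaf K2_ok TB_l8651 _))
                (CovZ.n1 (-27456, -360) (by decide +kernel)
                 (CovZ.n2 (-27468, -372) (by decide +kernel)
                  (CovZ.leaf K2_ok TB_l39270 _)
                  (CovZ.n1 (-27456, -372) (by decide +kernel)
                   (CovZ.badM (by decide +kernel))
                   (CovZ.leaf K2_ok TB_l39271 _)))
                 (CovZ.leaf K2_ok TB_l8652 _))))
              (CovZ.n1 (-27480, -312) (by decide +kernel)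
               (CovZ.leaf K2_ok TB_l8653 _)
               (CovZ.leaf K2_ok TB_l8654 _))))
            (CovZ.n1 (-27504, -240) (by decide +kernel)
             (CovZ.n2 (-27456, -240) (by decide +kernel)
              (CovZ.leaf K2_ok TB_l8655 _)
              (CovZ.leaf K2_ok TB_l8656 _))
             (CovZ.n1 (-27504, -288) (by decide +kernel)
              (CovZ.leaf K2_ok TB_l8657 _)
              (CovZ.leaf K2_ok TB_l8658 _))))
           (CovZ.n1 (-27552, -384) (by decide +kernel)
            (CovZ.n2 (-27600, -336) (by decide +kernel)
             (CovZ.n2 (-27552, -336) (by decide +kernel)
              (CovZ.subM 322786160011638123016891431388537208315578492229529988862570117869853316155047039673698118439426601451875750339388899328 (by decide +kernel)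
               (CovZ.n2 (-27576, -360) (by decide +kernel)
                (CovZ.leaf K2_ok TB_l8659 _)
                (CovZ.n1 (-27552, -360) (by decide +kernel)
                 (CovZ.n2 (-27564, -372) (by decide +kernel)
                  (CovZ.leaf K2_ok TB_l8660 _)
                  (CovZ.leaf K2_ok TB_l8661 _))
                 (CovZ.leaf K2_ok TB_l8662 _))))
              (CovZ.n1 (-27576, -312) (by decide +kernel)
               (CovZ.leaf K2_ok TB_l8663 _)
               (CovZ.leaf K2_ok TB_l8664 _)))
             (CovZ.subM 322786160011638123016891431388537208315578492229529988862570117869973042369177187243415820292492551102653578453870182400 (by decide +kernel)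
              (CovZ.n1 (-27600, -384) (by decide +kernel)
               (CovZ.n2 (-27624, -360) (by decide +kernel)
                (CovZ.n2 (-27600, -360) (by decide +kernel)
                 (CovZ.leaf K2_ok TB_l8665 _)
                 (CovZ.leaf K2_ok TB_l8666 _))
                (CovZ.n1 (-27624, -384) (by decide +kernel)
                 (CovZ.leaf K2_ok TB_l8667 _)
                 (CovZ.n1 (-27612, -372) (by decide +kernel)
                  (CovZ.leaf K2_ok TB_l8668 _)
                  (CovZ.leaf K2_ok TB_l8669 _))))
               (CovZ.n1 (-27576, -360) (by decide +kernel)
                (CovZ.subM 8148206070742495568404053032084317313574751197147241635567471586092769423362971474331697152 (by decide +kernel)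
                 (CovZ.n2 (-27576, -384) (by decide +kernel)
                  (CovZ.n2 (-27588, -372) (by decide +kernel)
                   (CovZ.leaf K2_ok TB_l8670 _)
                   (CovZ.leaf K2_ok TB_l8671 _))
                  (CovZ.n1 (-27564, -372) (by decide +kernel)
                   (CovZ.leaf K2_ok TB_l8672 _)
                   (CovZ.leaf K2_ok TB_l8673 _))))
                (CovZ.n1 (-27600, -360) (by decide +kernel)
                 (CovZ.leaf K2_ok TB_l8674 _)
                 (CovZ.leaf K2_ok TB_l8675 _))))))
            (CovZ.n1 (-27504, -336) (by decide +kernel)
             (CovZ.subM 322786160011638123016891431388537208313681354639465800316750230417651645343278606765010698737147682109850647808543031296 (by decide +kernel)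
              (CovZ.n2 (-27504, -384) (by decide +kernel)
               (CovZ.n2 (-27528, -360) (by decide +kernel)
                (CovZ.n2 (-27504, -360) (by decide +kernel)
                 (CovZ.n2 (-27516, -372) (by decide +kernel)
                  (CovZ.leaf K2_ok TB_l8676 _)
                  (CovZ.leaf K2_ok TB_l8677 _))
                 (CovZ.leaf K2_ok TB_l8678 _))
                (CovZ.n1 (-27528, -384) (by decide +kernel)
                 (CovZ.n2 (-27540, -372) (by decide +kernel)
                  (CovZ.leaf K2_ok TB_l8679 _)
                  (CovZ.leaf K2_ok TB_l8680 _))
                 (CovZ.n1 (-27516, -372) (by decide +kernel)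
                  (CovZ.leaf K2_ok TB_l8681 _)
                  (CovZ.leaf K2_ok TB_l8682 _))))
               (CovZ.n1 (-27480, -360) (by decide +kernel)
                (CovZ.n2 (-27480, -384) (by decide +kernel)
                 (CovZ.n2 (-27492, -372) (by decide +kernel)
                  (CovZ.leaf K2_ok TB_l39272 _)
                  (CovZ.leaf K2_ok TB_l48528 _))
                 (CovZ.n1 (-27468, -372) (by decide +kernel)
                  (CovZ.badM (by decide +kernel))
                  (CovZ.n1 (-27480, -372) (by decide +kernel)
                   (CovZ.leaf K2_ok TB_l39273 _)
                   (CovZ.badM (by decide +kernel)))))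
                (CovZ.n1 (-27504, -360) (by decide +kernel)
                 (CovZ.leaf K2_ok TB_l8683 _)
                 (CovZ.n1 (-27492, -372) (by decide +kernel)
                  (CovZ.leaf K2_ok TB_l8684 _)
                  (CovZ.leaf K2_ok TB_l8685 _))))))
             (CovZ.n1 (-27552, -336) (by decide +kernel)
              (CovZ.n2 (-27528, -312) (by decide +kernel)
               (CovZ.leaf K2_ok TB_l8686 _)
               (CovZ.leaf K2_ok TB_l8687 _))
              (CovZ.n1 (-27528, -360) (by decide +kernel)
               (CovZ.n2 (-27552, -360) (by decide +kernel)
                (CovZ.leaf K2_ok TB_l8688 _)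
                (CovZ.leaf K2_ok TB_l8689 _))
               (CovZ.leaf K2_ok TB_l8690 _))))))

theorem TB_u25 : CovZ TB_M (toL (selN TB_LN 322786467896323625494018823669164454276465397962725070930023167624904010072382732482203885940269532020366110507041030144)) [0, 7, 6, 1] (-27456, -384) (-27264, -384) (-27456, -192) :=
    (CovZ.n1 (-27360, -288) (by decide +kernel)
           (CovZ.subM 322786467896323338246755639365774388119088363836416131984750667246245205320129647118978316603089282009956888929900691456 (by decide +kernel)
            (CovZ.n2 (-27360, -384) (by decide +kernel)
             (CovZ.n2 (-27408, -336) (by decide +kernel)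
              (CovZ.n2 (-27360, -336) (by decide +kernel)
               (CovZ.subM 322786160011638123016891431388537146148276803416135530893969212065046632786259757096546018679150570464913521241871089664 (by decide +kernel)
                (CovZ.n2 (-27384, -360) (by decide +kernel)
                 (CovZ.n2 (-27384, -336) (by decide +kernel)
                  (CovZ.leaf K2_ok TB_l8691 _)
                  (CovZ.n1 (-27396, -348) (by decide +kernel)
                   (CovZ.leaf K2_ok TB_l8692 _)
                   (CovZ.leaf K2_ok TB_l8693 _)))
                 (CovZ.n1 (-27360, -360) (by decide +kernel)
                  (CovZ.badM (by decide +kernel))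
                  (CovZ.n1 (-27372, -348) (by decide +kernel)
                   (CovZ.leaf K2_ok TB_l8694 _)
                   (CovZ.leaf K2_ok TB_l39274 _)))))
               (CovZ.n1 (-27384, -312) (by decide +kernel)
                (CovZ.n2 (-27360, -312) (by decide +kernel)
                 (CovZ.leaf K2_ok TB_l8695 _)
                 (CovZ.leaf K2_ok TB_l8696 _))
                (CovZ.n1 (-27384, -336) (by decide +kernel)
                 (CovZ.leaf K2_ok TB_l8697 _)
                 (CovZ.leaf K2_ok TB_l8698 _))))
              (CovZ.subM 322786160011638123016891431388537146148276803416135530893969212065046632786259757096546018679150570464913521241871089664 (by decide +kernel)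
               (CovZ.n1 (-27408, -384) (by decide +kernel)
                (CovZ.n2 (-27432, -360) (by decide +kernel)
                 (CovZ.n2 (-27408, -360) (by decide +kernel)
                  (CovZ.subM 4925250774549309901534880012517951725634967408809036495863540628349637072130380196282363119240838924606970368360448 (by decide +kernel)
                   (CovZ.n2 (-27420, -372) (by decide +kernel)
                    (CovZ.leaf K2_ok TB_l39275 _)
                    (CovZ.n1 (-27408, -372) (by decide +kernel)
                     (CovZ.badM (by decide +kernel))
                     (CovZ.n1 (-27414, -366) (by decide +kernel)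
                      (CovZ.leaf K2_ok TB_l48529 _)
                      (CovZ.badM (by decide +kernel))))))
                  (CovZ.n1 (-27420, -348) (by decide +kernel)
                   (CovZ.n2 (-27408, -348) (by decide +kernel)
                    (CovZ.leaf K2_ok TB_l39276 _)
                    (CovZ.leaf K2_ok TB_l39277 _))
                   (CovZ.leaf K2_ok TB_l39278 _)))
                 (CovZ.subM 4925250774549309901534880012517951725634967408809036495863540628349637072130380196282363119240838924606970368360448 (by decide +kernel)
                  (CovZ.n1 (-27432, -384) (by decide +kernel)
                   (CovZ.n2 (-27444, -372) (by decide +kernel)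
                    (CovZ.n2 (-27432, -372) (by decide +kernel)
                     (CovZ.badM (by decide +kernel))
                     (CovZ.leaf K2_ok TB_l39279 _))
                    (CovZ.badM (by decide +kernel)))
                   (CovZ.n1 (-27420, -372) (by decide +kernel)
                    (CovZ.badM (by decide +kernel))
                    (CovZ.n1 (-27432, -372) (by decide +kernel)
                     (CovZ.leaf K2_ok TB_l39280 _)
                     (CovZ.badM (by decide +kernel)))))))
                (CovZ.n1 (-27384, -360) (by decide +kernel)
                 (CovZ.badM (by decide +kernel))
                 (CovZ.n1 (-27408, -360) (by decide +kernel)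
                  (CovZ.n2 (-27396, -348) (by decide +kernel)
                   (CovZ.leaf K2_ok TB_l8699 _)
                   (CovZ.leaf K2_ok TB_l39281 _))
                  (CovZ.subM 4925250774549309901534880012517951725634967408808180833493536675530715221437151326426783281860614455100828498788352 (by decide +kernel)
                   (CovZ.n1 (-27396, -372) (by decide +kernel)
                    (CovZ.n2 (-27408, -372) (by decide +kernel)
                     (CovZ.n2 (-27402, -366) (by decide +kernel)
                      (CovZ.badM (by decide +kernel))
                      (CovZ.leaf K2_ok TB_l48530 _))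
                     (CovZ.badM (by decide +kernel)))
                    (CovZ.leaf K2_ok TB_l48531 _))))))))
             (CovZ.n1 (-27312, -336) (by decide +kernel)
              (CovZ.subM 322786160011638123016891431388537146148276803416135530893965998188946142184295658415655411767795914268428934256808427520 (by decide +kernel)
               (CovZ.n2 (-27312, -384) (by decide +kernel)
                (CovZ.n2 (-27336, -360) (by decide +kernel)
                 (CovZ.n2 (-27312, -360) (by decide +kernel)
                  (CovZ.badM (by decide +kernel))
                  (CovZ.n1 (-27324, -348) (by decide +kernel)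
                   (CovZ.leaf K2_ok TB_l39282 _)
                   (CovZ.leaf K2_ok TB_l39283 _)))
                 (CovZ.badM (by decide +kernel)))
                (CovZ.n1 (-27288, -360) (by decide +kernel)
                 (CovZ.badM (by decide +kernel))
                 (CovZ.n1 (-27312, -360) (by decide +kernel)
                  (CovZ.n2 (-27300, -348) (by decide +kernel)
                   (CovZ.n2 (-27300, -360) (by decide +kernel)
                    (CovZ.leaf K2_ok TB_l39284 _)
                    (CovZ.leaf K2_ok TB_l39285 _))
                   (CovZ.leaf K2_ok TB_l39286 _))
                  (CovZ.badM (by decide +kernel))))))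
              (CovZ.n1 (-27360, -336) (by decide +kernel)
               (CovZ.n2 (-27336, -312) (by decide +kernel)
                (CovZ.n2 (-27336, -336) (by decide +kernel)
                 (CovZ.leaf K2_ok TB_l8700 _)
                 (CovZ.leaf K2_ok TB_l8701 _))
                (CovZ.leaf K2_ok TB_l8702 _))
               (CovZ.subM 322786160011638123016891431388537146148276803416135530893969212065034660164846742339840094093000958674416499842479030272 (by decide +kernel)
                (CovZ.n1 (-27336, -360) (by decide +kernel)
                 (CovZ.n2 (-27360, -360) (by decide +kernel)
                  (CovZ.n2 (-27348, -348) (by decide +kernel)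
                   (CovZ.leaf K2_ok TB_l39287 _)
                   (CovZ.leaf K2_ok TB_l8703 _))
                  (CovZ.badM (by decide +kernel)))
                 (CovZ.n1 (-27336, -336) (by decide +kernel)
                  (CovZ.n2 (-27324, -348) (by decide +kernel)
                   (CovZ.leaf K2_ok TB_l39288 _)
                   (CovZ.leaf K2_ok TB_l39289 _))
                  (CovZ.n1 (-27348, -348) (by decide +kernel)
                   (CovZ.leaf K2_ok TB_l8704 _)
                   (CovZ.leaf K2_ok TB_l39290 _)))))))))
           (CovZ.n1 (-27456, -288) (by decide +kernel)
            (CovZ.n2 (-27408, -240) (by decide +kernel)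
             (CovZ.n2 (-27408, -288) (by decide +kernel)
              (CovZ.leaf K2_ok TB_l8705 _)
              (CovZ.n1 (-27384, -264) (by decide +kernel)
               (CovZ.leaf K2_ok TB_l8706 _)
               (CovZ.leaf K2_ok TB_l8707 _)))
             (CovZ.n1 (-27456, -240) (by decide +kernel)
              (CovZ.leaf K2_ok TB_l8708 _)
              (CovZ.leaf K2_ok TB_l8709 _)))
            (CovZ.n1 (-27408, -336) (by decide +kernel)
             (CovZ.n2 (-27456, -336) (by decide +kernel)
              (CovZ.n2 (-27432, -312) (by decide +kernel)
               (CovZ.n2 (-27432, -336) (by decide +kernel)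
                (CovZ.leaf K2_ok TB_l8710 _)
                (CovZ.leaf K2_ok TB_l8711 _))
               (CovZ.leaf K2_ok TB_l8712 _))
              (CovZ.subM 322786160011638123016891431388537208313681354639465800316750230417651645343278606765010698737147682109850647808543031296 (by decide +kernel)
               (CovZ.n1 (-27432, -360) (by decide +kernel)
                (CovZ.n2 (-27456, -360) (by decide +kernel)
                 (CovZ.leaf K2_ok TB_l8713 _)
                 (CovZ.n1 (-27444, -372) (by decide +kernel)
                  (CovZ.n2 (-27456, -372) (by decide +kernel)
                   (CovZ.leaf K2_ok TB_l39291 _)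
                   (CovZ.badM (by decide +kernel)))
                  (CovZ.leaf K2_ok TB_l39292 _)))
                (CovZ.n1 (-27432, -336) (by decide +kernel)
                 (CovZ.leaf K2_ok TB_l39293 _)
                 (CovZ.leaf K2_ok TB_l8714 _)))))
             (CovZ.n1 (-27408, -288) (by decide +kernel)
              (CovZ.n2 (-27384, -312) (by decide +kernel)
               (CovZ.leaf K2_ok TB_l8715 _)
               (CovZ.leaf K2_ok TB_l8716 _))
              (CovZ.n1 (-27432, -312) (by decide +kernel)
               (CovZ.leaf K2_ok TB_l8717 _)
               (CovZ.leaf K2_ok TB_l8718 _))))))

theorem TB_u26 : CovZ TB_M (toL (selN TB_LN 10693552188729356552790587731821266841014006708332875938701794431731881531140877455849397537499971682418187577823936921600)) [0, 7, 6, 1] (-26496, -384) (-26688, -192) (-26880, -384) :=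
    (CovZ.subM 1423705302165302163994539288329228792797383754081855130920353837741757062178135262034538443519735815243557556109459456 (by decide +kernel)
         (CovZ.n2 (-26688, -384) (by decide +kernel)
          (CovZ.n2 (-26784, -288) (by decide +kernel)
           (CovZ.n2 (-26688, -288) (by decide +kernel)
            (CovZ.badM (by decide +kernel))
            (CovZ.n1 (-26736, -240) (by decide +kernel)
             (CovZ.n2 (-26688, -240) (by decide +kernel)
              (CovZ.subM 4925250921333221324899456882925237664445011390577979985477055443116191591807603140549361988498368785740509342613504 (by decide +kernel)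
               (CovZ.n2 (-26712, -264) (by decide +kernel)
                (CovZ.n2 (-26712, -240) (by decide +kernel)
                 (CovZ.n2 (-26700, -252) (by decide +kernel)
                  (CovZ.leaf K2_ok TB_l8741 _)
                  (CovZ.leaf K2_ok TB_l8742 _))
                 (CovZ.n1 (-26724, -252) (by decide +kernel)
                  (CovZ.leaf K2_ok TB_l8743 _)
                  (CovZ.leaf K2_ok TB_l8744 _)))
                (CovZ.n1 (-26688, -264) (by decide +kernel)
                 (CovZ.badM (by decide +kernel))
                 (CovZ.n1 (-26700, -252) (by decide +kernel)
                  (CovZ.leaf K2_ok TB_l8745 _)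
                  (CovZ.leaf K2_ok TB_l8746 _)))))
              (CovZ.n1 (-26712, -216) (by decide +kernel)
               (CovZ.n2 (-26688, -216) (by decide +kernel)
                (CovZ.leaf K2_ok TB_l8747 _)
                (CovZ.leaf K2_ok TB_l8748 _))
               (CovZ.n1 (-26712, -240) (by decide +kernel)
                (CovZ.leaf K2_ok TB_l8749 _)
                (CovZ.leaf K2_ok TB_l8750 _))))
             (CovZ.subM 4925250921333221324899456882925237664445011390577979985477055443116191591807603140549361988498368785740509342613504 (by decide +kernel)
              (CovZ.n1 (-26736, -288) (by decide +kernel)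
               (CovZ.n2 (-26760, -264) (by decide +kernel)
                (CovZ.n2 (-26736, -264) (by decide +kernel)
                 (CovZ.n2 (-26748, -276) (by decide +kernel)
                  (CovZ.leaf K2_ok TB_l39313 _)
                  (CovZ.badM (by decide +kernel)))
                 (CovZ.n1 (-26748, -252) (by decide +kernel)
                  (CovZ.leaf K2_ok TB_l8751 _)
                  (CovZ.leaf K2_ok TB_l8752 _)))
                (CovZ.subM 200868021780144217387174440716158900469867183592410196213760 (by decide +kernel)
                 (CovZ.n1 (-26760, -288) (by decide +kernel)
                  (CovZ.n2 (-26772, -276) (by decide +kernel)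
                   (CovZ.n2 (-26760, -276) (by decide +kernel)
                    (CovZ.badM (by decide +kernel))
                    (CovZ.n1 (-26766, -270) (by decide +kernel)
                     (CovZ.n2 (-26760, -270) (by decide +kernel)
                      (CovZ.badM (by decide +kernel))
                      (CovZ.leaf K2_ok TB_l39314 _))
                     (CovZ.badM (by decide +kernel))))
                   (CovZ.badM (by decide +kernel)))
                  (CovZ.n1 (-26748, -276) (by decide +kernel)
                   (CovZ.badM (by decide +kernel))
                   (CovZ.n1 (-26760, -276) (by decide +kernel)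
                    (CovZ.n2 (-26754, -270) (by decide +kernel)
                     (CovZ.badM (by decide +kernel))
                     (CovZ.n1 (-26760, -270) (by decide +kernel)
                      (CovZ.leaf K2_ok TB_l39315 _)
                      (CovZ.badM (by decide +kernel))))
                    (CovZ.badM (by decide +kernel)))))))
               (CovZ.n1 (-26712, -264) (by decide +kernel)
                (CovZ.badM (by decide +kernel))
                (CovZ.n1 (-26736, -264) (by decide +kernel)
                 (CovZ.n2 (-26724, -252) (by decide +kernel)
                  (CovZ.leaf K2_ok TB_l8753 _)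
                  (CovZ.leaf K2_ok TB_l8754 _))
                 (CovZ.badM (by decide +kernel))))))))
           (CovZ.badM (by decide +kernel)))
          (CovZ.n1 (-26592, -288) (by decide +kernel)
           (CovZ.badM (by decide +kernel))
           (CovZ.n1 (-26688, -288) (by decide +kernel)
            (CovZ.n2 (-26640, -240) (by decide +kernel)
             (CovZ.subM 4925250774549309901534880012517951725634967408808181039382670533863466954984100161155816694359758538519760506716160 (by decide +kernel)
              (CovZ.n2 (-26640, -288) (by decide +kernel)
               (CovZ.n2 (-26664, -264) (by decide +kernel)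
                (CovZ.n2 (-26640, -264) (by decide +kernel)
                 (CovZ.badM (by decide +kernel))
                 (CovZ.n1 (-26652, -252) (by decide +kernel)
                  (CovZ.n2 (-26640, -252) (by decide +kernel)
                   (CovZ.n2 (-26646, -258) (by decide +kernel)
                    (CovZ.leaf K2_ok TB_l39316 _)
                    (CovZ.badM (by decide +kernel)))
                   (CovZ.leaf K2_ok TB_l39317 _))
                  (CovZ.subM 205688069665150755269371147819668813122841983204197482918576128 (by decide +kernel)
                   (CovZ.n1 (-26652, -264) (by decide +kernel)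
                    (CovZ.n2 (-26658, -258) (by decide +kernel)
                     (CovZ.n2 (-26652, -258) (by decide +kernel)
                      (CovZ.badM (by decide +kernel))
                      (CovZ.leaf K2_ok TB_l39318 _))
                     (CovZ.badM (by decide +kernel)))
                    (CovZ.n1 (-26646, -258) (by decide +kernel)
                     (CovZ.badM (by decide +kernel))
                     (CovZ.n1 (-26652, -258) (by decide +kernel)
                      (CovZ.leaf K2_ok TB_l39319 _)
                      (CovZ.badM (by decide +kernel))))))))
                (CovZ.badM (by decide +kernel)))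
               (CovZ.n1 (-26616, -264) (by decide +kernel)
                (CovZ.badM (by decide +kernel))
                (CovZ.n1 (-26640, -264) (by decide +kernel)
                 (CovZ.n2 (-26628, -252) (by decide +kernel)
                  (CovZ.badM (by decide +kernel))
                  (CovZ.leaf K2_ok TB_l39320 _))
                 (CovZ.badM (by decide +kernel))))))
             (CovZ.n1 (-26688, -240) (by decide +kernel)
              (CovZ.n2 (-26664, -216) (by decide +kernel)
               (CovZ.n2 (-26664, -240) (by decide +kernel)
                (CovZ.leaf K2_ok TB_l8755 _)
                (CovZ.n1 (-26652, -228) (by decide +kernel)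
                 (CovZ.leaf K2_ok TB_l8756 _)
                 (CovZ.leaf K2_ok TB_l8757 _)))
               (CovZ.n1 (-26688, -216) (by decide +kernel)
                (CovZ.leaf K2_ok TB_l8758 _)
                (CovZ.leaf K2_ok TB_l8759 _)))
              (CovZ.subM 4925250774549309901534880012517951844206066787819965153119359182759884596732564458771754270764324562622805258010624 (by decide +kernel)
               (CovZ.n1 (-26664, -264) (by decide +kernel)
                (CovZ.n2 (-26688, -264) (by decide +kernel)
                 (CovZ.n2 (-26676, -252) (by decide +kernel)
                  (CovZ.leaf K2_ok TB_l8760 _)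
                  (CovZ.leaf K2_ok TB_l8761 _))
                 (CovZ.badM (by decide +kernel)))
                (CovZ.n1 (-26664, -240) (by decide +kernel)
                 (CovZ.n2 (-26652, -252) (by decide +kernel)
                  (CovZ.leaf K2_ok TB_l8762 _)
                  (CovZ.leaf K2_ok TB_l8763 _))
                 (CovZ.n1 (-26676, -252) (by decide +kernel)
                  (CovZ.leaf K2_ok TB_l8764 _)
                  (CovZ.leaf K2_ok TB_l8765 _)))))))
            (CovZ.badM (by decide +kernel))))))

theorem TB_u27 : CovZ TB_M (toL (selN TB_LN 10693552188729356552790587731821266841014006708332875938701794431731881531140877455849397537499971682418187577823936921600)) [0, 7, 6, 1] (-26688, -192) (-26880, 0) (-26880, -384) :=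
    (CovZ.n1 (-26880, -192) (by decide +kernel)
         (CovZ.n2 (-26784, -96) (by decide +kernel)
          (CovZ.subM 364552599387047026952989051831667953675722753726951841921282450226615430724691793596210465623782134038137594216462696448 (by decide +kernel)
           (CovZ.n2 (-26784, -192) (by decide +kernel)
            (CovZ.n2 (-26832, -144) (by decide +kernel)
             (CovZ.n2 (-26784, -144) (by decide +kernel)
              (CovZ.leaf K2_ok TB_l8766 _)
              (CovZ.leaf K2_ok TB_l8767 _))
             (CovZ.n1 (-26832, -192) (by decide +kernel)
              (CovZ.leaf K2_ok TB_l8768 _)
              (CovZ.leaf K2_ok TB_l8769 _)))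
            (CovZ.n1 (-26736, -144) (by decide +kernel)
             (CovZ.n2 (-26736, -192) (by decide +kernel)
              (CovZ.leaf K2_ok TB_l8770 _)
              (CovZ.n1 (-26712, -168) (by decide +kernel)
               (CovZ.leaf K2_ok TB_l8771 _)
               (CovZ.leaf K2_ok TB_l8772 _)))
             (CovZ.n1 (-26784, -144) (by decide +kernel)
              (CovZ.leaf K2_ok TB_l8773 _)
              (CovZ.leaf K2_ok TB_l8774 _)))))
          (CovZ.n1 (-26880, -96) (by decide +kernel)
           (CovZ.n2 (-26832, -48) (by decide +kernel)
            (CovZ.leaf K2_ok TB_l8775 _)
            (CovZ.leaf K2_ok TB_l8776 _))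
           (CovZ.n1 (-26832, -144) (by decide +kernel)
            (CovZ.leaf K2_ok TB_l8777 _)
            (CovZ.leaf K2_ok TB_l8778 _))))
         (CovZ.subM 324204940081817144861343351922086820020172325872388578215959199032832633522601193005824288469564547833622696306799558656 (by decide +kernel)
          (CovZ.n1 (-26784, -288) (by decide +kernel)
           (CovZ.n2 (-26880, -288) (by decide +kernel)
            (CovZ.n2 (-26832, -240) (by decide +kernel)
             (CovZ.n2 (-26832, -288) (by decide +kernel)
              (CovZ.n2 (-26856, -264) (by decide +kernel)
               (CovZ.subM 4925250921333221324899465031069143002389356464360734445741978309592787333037196963786411897391500655877265750507520 (by decide +kernel)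
                (CovZ.n2 (-26832, -264) (by decide +kernel)
                 (CovZ.n2 (-26844, -276) (by decide +kernel)
                  (CovZ.leaf K2_ok TB_l8779 _)
                  (CovZ.n1 (-26832, -276) (by decide +kernel)
                   (CovZ.leaf K2_ok TB_l39321 _)
                   (CovZ.leaf K2_ok TB_l39322 _)))
                 (CovZ.leaf K2_ok TB_l8780 _)))
               (CovZ.subM 5233078947958641770380810013300325605624742936047251945579147887479249193443860189696465731718116582129789711679488 (by decide +kernel)
                (CovZ.n1 (-26856, -288) (by decide +kernel)
                 (CovZ.n2 (-26868, -276) (by decide +kernel)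
                  (CovZ.leaf K2_ok TB_l8781 _)
                  (CovZ.leaf K2_ok TB_l8782 _))
                 (CovZ.subM 4925250774549309901534880012517951725634967408808181656448448804749579433288502567518057979489733739973325271072768 (by decide +kernel)
                  (CovZ.n1 (-26844, -276) (by decide +kernel)
                   (CovZ.n2 (-26844, -288) (by decide +kernel)
                    (CovZ.n2 (-26850, -282) (by decide +kernel)
                     (CovZ.leaf K2_ok TB_l39323 _)
                     (CovZ.badM (by decide +kernel)))
                    (CovZ.leaf K2_ok TB_l39324 _))
                   (CovZ.leaf K2_ok TB_l8783 _))))))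
              (CovZ.subM 4925250921333221324899465031069143002389356464360733622989699648989766255552605685111159406023567839087334076203008 (by decide +kernel)
               (CovZ.n1 (-26808, -264) (by decide +kernel)
                (CovZ.subM 4925250774549309901534880012517951725634967408808180833694600868712711685612952341487003571517775334322277588140032 (by decide +kernel)
                 (CovZ.n2 (-26808, -288) (by decide +kernel)
                  (CovZ.n2 (-26820, -276) (by decide +kernel)
                   (CovZ.n2 (-26808, -276) (by decide +kernel)
                    (CovZ.badM (by decide +kernel))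
                    (CovZ.n1 (-26814, -270) (by decide +kernel)
                     (CovZ.leaf K2_ok TB_l39325 _)
                     (CovZ.leaf K2_ok TB_l39326 _)))
                   (CovZ.badM (by decide +kernel)))
                  (CovZ.n1 (-26796, -276) (by decide +kernel)
                   (CovZ.badM (by decide +kernel))
                   (CovZ.n1 (-26808, -276) (by decide +kernel)
                    (CovZ.leaf K2_ok TB_l39327 _)
                    (CovZ.badM (by decide +kernel))))))
                (CovZ.n1 (-26832, -264) (by decide +kernel)
                 (CovZ.leaf K2_ok TB_l8784 _)
                 (CovZ.n1 (-26820, -276) (by decide +kernel)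
                  (CovZ.leaf K2_ok TB_l39328 _)
                  (CovZ.leaf K2_ok TB_l39329 _))))))
             (CovZ.n1 (-26880, -240) (by decide +kernel)
              (CovZ.n2 (-26856, -216) (by decide +kernel)
               (CovZ.leaf K2_ok TB_l8785 _)
               (CovZ.leaf K2_ok TB_l8786 _))
              (CovZ.n1 (-26856, -264) (by decide +kernel)
               (CovZ.n2 (-26880, -264) (by decide +kernel)
                (CovZ.leaf K2_ok TB_l8787 _)
                (CovZ.n1 (-26868, -276) (by decide +kernel)
                 (CovZ.leaf K2_ok TB_l8788 _)
                 (CovZ.leaf K2_ok TB_l8789 _)))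
               (CovZ.n1 (-26856, -240) (by decide +kernel)
                (CovZ.leaf K2_ok TB_l8790 _)
                (CovZ.n1 (-26868, -252) (by decide +kernel)
                 (CovZ.leaf K2_ok TB_l8791 _)
                 (CovZ.leaf K2_ok TB_l8792 _))))))
            (CovZ.badM (by decide +kernel)))
           (CovZ.n1 (-26784, -192) (by decide +kernel)
            (CovZ.n2 (-26736, -240) (by decide +kernel)
             (CovZ.n2 (-26784, -240) (by decide +kernel)
              (CovZ.n2 (-26760, -216) (by decide +kernel)
               (CovZ.n2 (-26760, -240) (by decide +kernel)
                (CovZ.leaf K2_ok TB_l8794 _)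
                (CovZ.leaf K2_ok TB_l8795 _))
               (CovZ.leaf K2_ok TB_l8796 _))
              (CovZ.subM 4925250921333221324899465031069143002389356464360733622989699648989766255552605685111159406023567839087334076203008 (by decide +kernel)
               (CovZ.n1 (-26760, -264) (by decide +kernel)
                (CovZ.n2 (-26784, -264) (by decide +kernel)
                 (CovZ.n2 (-26772, -252) (by decide +kernel)
                  (CovZ.leaf K2_ok TB_l8797 _)
                  (CovZ.leaf K2_ok TB_l8798 _))
                 (CovZ.subM 4925250774549309901534880012517951725634967408808180833694600868712711685612952341487003571517775334322277588140032 (by decide +kernel)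
                  (CovZ.n1 (-26772, -276) (by decide +kernel)
                   (CovZ.n2 (-26784, -276) (by decide +kernel)
                    (CovZ.n2 (-26778, -270) (by decide +kernel)
                     (CovZ.badM (by decide +kernel))
                     (CovZ.n1 (-26784, -270) (by decide +kernel)
                      (CovZ.leaf K2_ok TB_l39330 _)
                      (CovZ.badM (by decide +kernel))))
                    (CovZ.badM (by decide +kernel)))
                   (CovZ.leaf K2_ok TB_l39331 _))))
                (CovZ.n1 (-26760, -240) (by decide +kernel)
                 (CovZ.n2 (-26748, -252) (by decide +kernel)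
                  (CovZ.leaf K2_ok TB_l8799 _)
                  (CovZ.leaf K2_ok TB_l8800 _))
                 (CovZ.n1 (-26772, -252) (by decide +kernel)
                  (CovZ.leaf K2_ok TB_l8801 _)
                  (CovZ.leaf K2_ok TB_l8802 _))))))
             (CovZ.n1 (-26736, -192) (by decide +kernel)
              (CovZ.n2 (-26712, -216) (by decide +kernel)
               (CovZ.n2 (-26736, -216) (by decide +kernel)
                (CovZ.leaf K2_ok TB_l8803 _)
                (CovZ.leaf K2_ok TB_l8804 _))
               (CovZ.leaf K2_ok TB_l8805 _))
              (CovZ.n1 (-26760, -216) (by decide +kernel)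
               (CovZ.leaf K2_ok TB_l8806 _)
               (CovZ.n1 (-26736, -216) (by decide +kernel)
                (CovZ.leaf K2_ok TB_l8807 _)
                (CovZ.leaf K2_ok TB_l8808 _)))))
            (CovZ.n1 (-26832, -240) (by decide +kernel)
             (CovZ.n2 (-26832, -192) (by decide +kernel)
              (CovZ.n2 (-26808, -216) (by decide +kernel)
               (CovZ.leaf K2_ok TB_l8809 _)
               (CovZ.leaf K2_ok TB_l8810 _))
              (CovZ.n1 (-26856, -216) (by decide +kernel)
               (CovZ.leaf K2_ok TB_l8811 _)
               (CovZ.leaf K2_ok TB_l8812 _)))
             (CovZ.n1 (-26784, -240) (by decide +kernel)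
              (CovZ.subM 4925250921333221324899465031069143002389356464360733622989699648989766255552605685111159406023567839087334076203008 (by decide +kernel)
               (CovZ.n2 (-26808, -264) (by decide +kernel)
                (CovZ.n2 (-26808, -240) (by decide +kernel)
                 (CovZ.leaf K2_ok TB_l8813 _)
                 (CovZ.leaf K2_ok TB_l8814 _))
                (CovZ.n1 (-26784, -264) (by decide +kernel)
                 (CovZ.subM 4925250774549309901534880012517951725634967408808180833694600868712711685612952341487003571517775334322277588140032 (by decide +kernel)
                  (CovZ.n2 (-26796, -276) (by decide +kernel)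
                   (CovZ.leaf K2_ok TB_l39332 _)
                   (CovZ.n1 (-26784, -276) (by decide +kernel)
                    (CovZ.badM (by decide +kernel))
                    (CovZ.n1 (-26790, -270) (by decide +kernel)
                     (CovZ.n2 (-26784, -270) (by decide +kernel)
                      (CovZ.leaf K2_ok TB_l39333 _)
                      (CovZ.leaf K2_ok TB_l39334 _))
                     (CovZ.leaf K2_ok TB_l39335 _)))))
                 (CovZ.n1 (-26796, -252) (by decide +kernel)
                  (CovZ.leaf K2_ok TB_l8815 _)
                  (CovZ.leaf K2_ok TB_l8816 _)))))
              (CovZ.n1 (-26808, -216) (by decide +kernel)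
               (CovZ.n2 (-26784, -216) (by decide +kernel)
                (CovZ.leaf K2_ok TB_l8817 _)
                (CovZ.leaf K2_ok TB_l8818 _))
               (CovZ.leaf K2_ok TB_l8819 _))))))))

theorem TB_u28 : CovZ TB_M (toL (selN TB_LN 10693552188729356552790587731821266841014006708332875938701794431731881531140877455849397537499971682418187577823936921600)) [0, 7, 6, 1] (-26496, -384) (-26304, -192) (-26496, 0) :=
    (CovZ.n2 (-26496, -192) (by decide +kernel)
         (CovZ.n2 (-26400, -96) (by decide +kernel)
          (CovZ.subM 10370770569126892829525303922424142862184577748690471195921391037089666629857510717126518448778677813489815016711028490240 (by decide +kernel)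
           (CovZ.n2 (-26400, -192) (by decide +kernel)
            (CovZ.n2 (-26448, -144) (by decide +kernel)
             (CovZ.n2 (-26400, -144) (by decide +kernel)
              (CovZ.n2 (-26424, -168) (by decide +kernel)
               (CovZ.leaf K2_ok TB_l8820 _)
               (CovZ.n1 (-26400, -168) (by decide +kernel)
                (CovZ.leaf K2_ok TB_l8821 _)
                (CovZ.leaf K2_ok TB_l8822 _)))
              (CovZ.leaf K2_ok TB_l8823 _))
             (CovZ.n1 (-26448, -192) (by decide +kernel)
              (CovZ.n2 (-26472, -168) (by decide +kernel)
               (CovZ.n2 (-26448, -168) (by decide +kernel)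
                (CovZ.leaf K2_ok TB_l8824 _)
                (CovZ.leaf K2_ok TB_l8825 _))
               (CovZ.n1 (-26472, -192) (by decide +kernel)
                (CovZ.leaf K2_ok TB_l8826 _)
                (CovZ.leaf K2_ok TB_l8827 _)))
              (CovZ.n1 (-26424, -168) (by decide +kernel)
               (CovZ.n2 (-26424, -192) (by decide +kernel)
                (CovZ.leaf K2_ok TB_l8828 _)
                (CovZ.leaf K2_ok TB_l8829 _))
               (CovZ.leaf K2_ok TB_l8830 _))))
            (CovZ.n1 (-26352, -144) (by decide +kernel)
             (CovZ.n2 (-26352, -192) (by decide +kernel)
              (CovZ.n2 (-26376, -168) (by decide +kernel)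
               (CovZ.n2 (-26352, -168) (by decide +kernel)
                (CovZ.leaf K2_ok TB_l8831 _)
                (CovZ.leaf K2_ok TB_l8832 _))
               (CovZ.n1 (-26376, -192) (by decide +kernel)
                (CovZ.leaf K2_ok TB_l8833 _)
                (CovZ.leaf K2_ok TB_l8834 _)))
              (CovZ.n1 (-26328, -168) (by decide +kernel)
               (CovZ.n2 (-26328, -192) (by decide +kernel)
                (CovZ.leaf K2_ok TB_l8835 _)
                (CovZ.leaf K2_ok TB_l8836 _))
               (CovZ.n1 (-26352, -168) (by decide +kernel)
                (CovZ.leaf K2_ok TB_l8837 _)
                (CovZ.leaf K2_ok TB_l8838 _))))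
             (CovZ.n1 (-26400, -144) (by decide +kernel)
              (CovZ.n2 (-26376, -120) (by decide +kernel)
               (CovZ.leaf K2_ok TB_l8839 _)
               (CovZ.leaf K2_ok TB_l8840 _))
              (CovZ.n1 (-26376, -168) (by decide +kernel)
               (CovZ.leaf K2_ok TB_l8841 _)
               (CovZ.leaf K2_ok TB_l8842 _))))))
          (CovZ.n1 (-26496, -96) (by decide +kernel)
           (CovZ.n2 (-26448, -48) (by decide +kernel)
            (CovZ.leaf K2_ok TB_l8843 _)
            (CovZ.leaf K2_ok TB_l8844 _))
           (CovZ.subM 41771056798046811563817900235211209639120704797550510713819267268900886136959684729358274695259371473820494359586422784 (by decide +kernel)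
            (CovZ.n1 (-26448, -144) (by decide +kernel)
             (CovZ.n2 (-26496, -144) (by decide +kernel)
              (CovZ.leaf K2_ok TB_l8845 _)
              (CovZ.n1 (-26472, -168) (by decide +kernel)
               (CovZ.leaf K2_ok TB_l8846 _)
               (CovZ.leaf K2_ok TB_l8847 _)))
             (CovZ.n1 (-26448, -96) (by decide +kernel)
              (CovZ.leaf K2_ok TB_l8848 _)
              (CovZ.leaf K2_ok TB_l8849 _))))))
         (CovZ.subM 10330422909971969601059351799400587075334924802860120190062729700287912738520731076913062030509589063221688799446603677696 (by decide +kernel)
          (CovZ.n1 (-26400, -288) (by decide +kernel)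
           (CovZ.n2 (-26496, -288) (by decide +kernel)
            (CovZ.n2 (-26448, -240) (by decide +kernel)
             (CovZ.badM (by decide +kernel))
             (CovZ.n1 (-26496, -240) (by decide +kernel)
              (CovZ.n2 (-26472, -216) (by decide +kernel)
               (CovZ.subM 4925250958029199180740601068698371989278402443323019812167984147483766351807410210609317001014640046641404318842880 (by decide +kernel)
                (CovZ.n2 (-26472, -240) (by decide +kernel)
                 (CovZ.n2 (-26484, -228) (by decide +kernel)
                  (CovZ.n2 (-26472, -228) (by decide +kernel)
                   (CovZ.n2 (-26478, -234) (by decide +kernel)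
                    (CovZ.leaf K2_ok TB_l39336 _)
                    (CovZ.n1 (-26472, -234) (by decide +kernel)
                     (CovZ.leaf K2_ok TB_l48532 _)
                     (CovZ.leaf K2_ok TB_l48533 _)))
                   (CovZ.leaf K2_ok TB_l39337 _))
                  (CovZ.subM 36695977855841144185773134324833391052745040032380567656924798112576670543009156201574070550980893295509504 (by decide +kernel)
                   (CovZ.n1 (-26484, -240) (by decide +kernel)
                    (CovZ.n2 (-26490, -234) (by decide +kernel)
                     (CovZ.leaf K2_ok TB_l39338 _)
                     (CovZ.badM (by decide +kernel)))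
                    (CovZ.n1 (-26478, -234) (by decide +kernel)
                     (CovZ.n2 (-26478, -240) (by decide +kernel)
                      (CovZ.leaf K2_ok TB_l48534 _)
                      (CovZ.leaf K2_ok TB_l48535 _))
                     (CovZ.leaf K2_ok TB_l39339 _)))))
                 (CovZ.n1 (-26460, -228) (by decide +kernel)
                  (CovZ.badM (by decide +kernel))
                  (CovZ.leaf K2_ok TB_l39340 _))))
               (CovZ.n1 (-26496, -216) (by decide +kernel)
                (CovZ.n2 (-26484, -204) (by decide +kernel)
                 (CovZ.leaf K2_ok TB_l8850 _)
                 (CovZ.leaf K2_ok TB_l8851 _))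
                (CovZ.n1 (-26484, -228) (by decide +kernel)
                 (CovZ.leaf K2_ok TB_l8852 _)
                 (CovZ.leaf K2_ok TB_l8853 _))))
              (CovZ.subM 36695977855841144185773134324833391052745039826692497979801421430190766017415756929120296849762010984873984 (by decide +kernel)
               (CovZ.n1 (-26472, -264) (by decide +kernel)
                (CovZ.badM (by decide +kernel))
                (CovZ.n1 (-26472, -240) (by decide +kernel)
                 (CovZ.badM (by decide +kernel))
                 (CovZ.n1 (-26484, -252) (by decide +kernel)
                  (CovZ.n2 (-26484, -240) (by decide +kernel)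
                   (CovZ.n2 (-26478, -246) (by decide +kernel)
                    (CovZ.badM (by decide +kernel))
                    (CovZ.leaf K2_ok TB_l48536 _))
                   (CovZ.badM (by decide +kernel)))
                  (CovZ.badM (by decide +kernel))))))))
            (CovZ.badM (by decide +kernel)))
           (CovZ.n1 (-26400, -192) (by decide +kernel)
            (CovZ.n2 (-26352, -240) (by decide +kernel)
             (CovZ.n2 (-26400, -240) (by decide +kernel)
              (CovZ.n2 (-26376, -216) (by decide +kernel)
               (CovZ.subM 10328999512347634358623676688012047497318823171316894051322637426162590499759377877165804758750029987473876845138450317312 (by decide +kernel)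
                (CovZ.n2 (-26376, -240) (by decide +kernel)
                 (CovZ.n2 (-26388, -228) (by decide +kernel)
                  (CovZ.n2 (-26376, -228) (by decide +kernel)
                   (CovZ.badM (by decide +kernel))
                   (CovZ.n1 (-26382, -222) (by decide +kernel)
                    (CovZ.leaf K2_ok TB_l39341 _)
                    (CovZ.badM (by decide +kernel))))
                  (CovZ.badM (by decide +kernel)))
                 (CovZ.n1 (-26364, -228) (by decide +kernel)
                  (CovZ.badM (by decide +kernel))
                  (CovZ.n1 (-26376, -228) (by decide +kernel)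
                   (CovZ.n2 (-26370, -222) (by decide +kernel)
                    (CovZ.badM (by decide +kernel))
                    (CovZ.leaf K2_ok TB_l39342 _))
                   (CovZ.badM (by decide +kernel))))))
               (CovZ.n1 (-26400, -216) (by decide +kernel)
                (CovZ.n2 (-26388, -204) (by decide +kernel)
                 (CovZ.leaf K2_ok TB_l8854 _)
                 (CovZ.leaf K2_ok TB_l8855 _))
                (CovZ.subM 205888936920694821066912540304557087926818988842577579483332608 (by decide +kernel)
                 (CovZ.n1 (-26388, -228) (by decide +kernel)
                  (CovZ.n2 (-26400, -228) (by decide +kernel)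
                   (CovZ.n2 (-26394, -222) (by decide +kernel)
                    (CovZ.badM (by decide +kernel))
                    (CovZ.leaf K2_ok TB_l39343 _))
                   (CovZ.badM (by decide +kernel)))
                  (CovZ.leaf K2_ok TB_l8856 _)))))
              (CovZ.badM (by decide +kernel)))
             (CovZ.n1 (-26352, -192) (by decide +kernel)
              (CovZ.n2 (-26328, -216) (by decide +kernel)
               (CovZ.n2 (-26352, -216) (by decide +kernel)
                (CovZ.n2 (-26340, -204) (by decide +kernel)
                 (CovZ.leaf K2_ok TB_l8857 _)
                 (CovZ.leaf K2_ok TB_l8858 _))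
                (CovZ.badM (by decide +kernel)))
               (CovZ.n1 (-26328, -192) (by decide +kernel)
                (CovZ.n2 (-26316, -204) (by decide +kernel)
                 (CovZ.leaf K2_ok TB_l8859 _)
                 (CovZ.leaf K2_ok TB_l8860 _))
                (CovZ.n1 (-26340, -204) (by decide +kernel)
                 (CovZ.leaf K2_ok TB_l8861 _)
                 (CovZ.leaf K2_ok TB_l8862 _))))
              (CovZ.n1 (-26376, -216) (by decide +kernel)
               (CovZ.n2 (-26376, -192) (by decide +kernel)
                (CovZ.n2 (-26364, -204) (by decide +kernel)
                 (CovZ.leaf K2_ok TB_l8863 _)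
                 (CovZ.leaf K2_ok TB_l8864 _))
                (CovZ.n1 (-26388, -204) (by decide +kernel)
                 (CovZ.leaf K2_ok TB_l8865 _)
                 (CovZ.leaf K2_ok TB_l8866 _)))
               (CovZ.n1 (-26352, -216) (by decide +kernel)
                (CovZ.subM 10328999512347634358623676688012047497318823171316894051322637426162590499759377877165804758750029987473876845138450317312 (by decide +kernel)
                 (CovZ.n2 (-26364, -228) (by decide +kernel)
                  (CovZ.n2 (-26364, -216) (by decide +kernel)
                   (CovZ.n2 (-26358, -222) (by decide +kernel)
                    (CovZ.n2 (-26364, -222) (by decide +kernel)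
                     (CovZ.leaf K2_ok TB_l48537 _)
                     (CovZ.badM (by decide +kernel)))
                    (CovZ.leaf K2_ok TB_l48538 _))
                   (CovZ.n1 (-26370, -222) (by decide +kernel)
                    (CovZ.leaf K2_ok TB_l39344 _)
                    (CovZ.leaf K2_ok TB_l48539 _)))
                  (CovZ.badM (by decide +kernel))))
                (CovZ.n1 (-26364, -204) (by decide +kernel)
                 (CovZ.leaf K2_ok TB_l8867 _)
                 (CovZ.leaf K2_ok TB_l8868 _))))))
            (CovZ.n1 (-26448, -240) (by decide +kernel)
             (CovZ.n2 (-26448, -192) (by decide +kernel)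
              (CovZ.n2 (-26424, -216) (by decide +kernel)
               (CovZ.n2 (-26448, -216) (by decide +kernel)
                (CovZ.n2 (-26436, -204) (by decide +kernel)
                 (CovZ.leaf K2_ok TB_l8869 _)
                 (CovZ.leaf K2_ok TB_l8870 _))
                (CovZ.n1 (-26436, -228) (by decide +kernel)
                 (CovZ.n2 (-26448, -228) (by decide +kernel)
                  (CovZ.leaf K2_ok TB_l39345 _)
                  (CovZ.badM (by decide +kernel)))
                 (CovZ.leaf K2_ok TB_l39346 _)))
               (CovZ.n1 (-26424, -192) (by decide +kernel)
                (CovZ.n2 (-26412, -204) (by decide +kernel)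
                 (CovZ.leaf K2_ok TB_l8871 _)
                 (CovZ.leaf K2_ok TB_l8872 _))
                (CovZ.n1 (-26436, -204) (by decide +kernel)
                 (CovZ.leaf K2_ok TB_l8873 _)
                 (CovZ.leaf K2_ok TB_l8874 _))))
              (CovZ.n1 (-26472, -216) (by decide +kernel)
               (CovZ.n2 (-26472, -192) (by decide +kernel)
                (CovZ.leaf K2_ok TB_l8875 _)
                (CovZ.n1 (-26484, -204) (by decide +kernel)
                 (CovZ.leaf K2_ok TB_l8876 _)
                 (CovZ.leaf K2_ok TB_l8877 _)))
               (CovZ.n1 (-26448, -216) (by decide +kernel)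
                (CovZ.n2 (-26460, -228) (by decide +kernel)
                 (CovZ.leaf K2_ok TB_l39347 _)
                 (CovZ.n1 (-26448, -228) (by decide +kernel)
                  (CovZ.badM (by decide +kernel))
                  (CovZ.leaf K2_ok TB_l39348 _)))
                (CovZ.n1 (-26460, -204) (by decide +kernel)
                 (CovZ.leaf K2_ok TB_l8878 _)
                 (CovZ.leaf K2_ok TB_l8879 _)))))
             (CovZ.n1 (-26400, -240) (by decide +kernel)
              (CovZ.badM (by decide +kernel))
              (CovZ.n1 (-26424, -216) (by decide +kernel)
               (CovZ.n2 (-26400, -216) (by decide +kernel)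
                (CovZ.subM 205888936920683129053813893081211458448157258578420332022988800 (by decide +kernel)
                 (CovZ.n2 (-26412, -228) (by decide +kernel)
                  (CovZ.leaf K2_ok TB_l39349 _)
                  (CovZ.n1 (-26400, -228) (by decide +kernel)
                   (CovZ.badM (by decide +kernel))
                   (CovZ.n1 (-26406, -222) (by decide +kernel)
                    (CovZ.leaf K2_ok TB_l39350 _)
                    (CovZ.badM (by decide +kernel))))))
                (CovZ.n1 (-26412, -204) (by decide +kernel)
                 (CovZ.leaf K2_ok TB_l8880 _)
                 (CovZ.leaf K2_ok TB_l8881 _)))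
               (CovZ.subM 205888936920683129053813893081211458448157258578420332022988800 (by decide +kernel)
                (CovZ.n1 (-26424, -240) (by decide +kernel)
                 (CovZ.n2 (-26436, -228) (by decide +kernel)
                  (CovZ.n2 (-26424, -228) (by decide +kernel)
                   (CovZ.badM (by decide +kernel))
                   (CovZ.n1 (-26430, -222) (by decide +kernel)
                    (CovZ.leaf K2_ok TB_l39351 _)
                    (CovZ.badM (by decide +kernel))))
                  (CovZ.badM (by decide +kernel)))
                 (CovZ.n1 (-26412, -228) (by decide +kernel)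
                  (CovZ.badM (by decide +kernel))
                  (CovZ.n1 (-26424, -228) (by decide +kernel)
                   (CovZ.leaf K2_ok TB_l39352 _)
                   (CovZ.badM (by decide +kernel)))))))))))))

theorem TB_u29 : CovZ TB_M (toL (selN TB_LN 10693552188729356552790587731821266841014006708332875938701794431731881531140877455849397537499971682418187577823936921600)) [0, 7, 6, 1] (-26304, -192) (-26112, 0) (-26496, 0) :=
    (CovZ.n1 (-26304, 0) (by decide +kernel)
         (CovZ.n2 (-26208, -96) (by decide +kernel)
          (CovZ.subM 10370770646102687826542605958605943489180908185427474130784750108069964408733684715464752911059103453229784129951542296576 (by decide +kernel)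
           (CovZ.n2 (-26304, -96) (by decide +kernel)
            (CovZ.n2 (-26256, -48) (by decide +kernel)
             (CovZ.n2 (-26256, -96) (by decide +kernel)
              (CovZ.leaf K2_ok TB_l8882 _)
              (CovZ.leaf K2_ok TB_l8883 _))
             (CovZ.leaf K2_ok TB_l8884 _))
            (CovZ.n1 (-26256, -144) (by decide +kernel)
             (CovZ.n2 (-26304, -144) (by decide +kernel)
              (CovZ.n2 (-26280, -120) (by decide +kernel)
               (CovZ.leaf K2_ok TB_l8885 _)
               (CovZ.leaf K2_ok TB_l8886 _))
              (CovZ.n1 (-26280, -168) (by decide +kernel)
               (CovZ.n2 (-26304, -168) (by decide +kernel)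
                (CovZ.leaf K2_ok TB_l8887 _)
                (CovZ.leaf K2_ok TB_l8888 _))
               (CovZ.leaf K2_ok TB_l8889 _)))
             (CovZ.n1 (-26256, -96) (by decide +kernel)
              (CovZ.n2 (-26232, -120) (by decide +kernel)
               (CovZ.leaf K2_ok TB_l8890 _)
               (CovZ.leaf K2_ok TB_l8891 _))
              (CovZ.n1 (-26280, -120) (by decide +kernel)
               (CovZ.leaf K2_ok TB_l8892 _)
               (CovZ.leaf K2_ok TB_l8893 _))))))
          (CovZ.n1 (-26208, 0) (by decide +kernel)
           (CovZ.n2 (-26160, -48) (by decide +kernel)
            (CovZ.leaf K2_ok TB_l8894 _)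
            (CovZ.leaf K2_ok TB_l8895 _))
           (CovZ.n1 (-26256, -48) (by decide +kernel)
            (CovZ.leaf K2_ok TB_l8896 _)
            (CovZ.n1 (-26208, -48) (by decide +kernel)
             (CovZ.leaf K2_ok TB_l8897 _)
             (CovZ.leaf K2_ok TB_l8898 _)))))
         (CovZ.n1 (-26400, -96) (by decide +kernel)
          (CovZ.n2 (-26400, 0) (by decide +kernel)
           (CovZ.n2 (-26352, -48) (by decide +kernel)
            (CovZ.leaf K2_ok TB_l8899 _)
            (CovZ.leaf K2_ok TB_l8900 _))
           (CovZ.n1 (-26448, -48) (by decide +kernel)
            (CovZ.leaf K2_ok TB_l8901 _)
            (CovZ.leaf K2_ok TB_l8902 _)))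
          (CovZ.subM 10370770646102724522520461799729758902551888157955842418940483018957429526218455543724408922322488760529000524900693196800 (by decide +kernel)
           (CovZ.n1 (-26304, -96) (by decide +kernel)
            (CovZ.n2 (-26352, -144) (by decide +kernel)
             (CovZ.n2 (-26352, -96) (by decide +kernel)
              (CovZ.leaf K2_ok TB_l8903 _)
              (CovZ.n1 (-26376, -120) (by decide +kernel)
               (CovZ.leaf K2_ok TB_l8904 _)
               (CovZ.leaf K2_ok TB_l8905 _)))
             (CovZ.n1 (-26304, -144) (by decide +kernel)
              (CovZ.n2 (-26328, -168) (by decide +kernel)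
               (CovZ.leaf K2_ok TB_l8906 _)
               (CovZ.n1 (-26304, -168) (by decide +kernel)
                (CovZ.leaf K2_ok TB_l8907 _)
                (CovZ.leaf K2_ok TB_l8908 _)))
              (CovZ.n1 (-26328, -120) (by decide +kernel)
               (CovZ.leaf K2_ok TB_l8909 _)
               (CovZ.leaf K2_ok TB_l8910 _))))
            (CovZ.n1 (-26352, -48) (by decide +kernel)
             (CovZ.leaf K2_ok TB_l8911 _)
             (CovZ.n1 (-26352, -96) (by decide +kernel)
              (CovZ.leaf K2_ok TB_l8912 _)
              (CovZ.leaf K2_ok TB_l8913 _)))))))

theorem TB_u30 : CovZ TB_M (toL (selN TB_LN 10693552188729356552790587731821266841014006708332875938701794431731881531140877455849397537499971682418187577823936921600)) [0, 7, 6, 1] (-26496, -384) (-26112, 0) (-26880, 0) :=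
    (CovZ.n1 (-26496, 0) (by decide +kernel)
       (CovZ.n2 (-26304, -192) (by decide +kernel)
        TB_u28
        TB_u29)
       (CovZ.n1 (-26688, -192) (by decide +kernel)
        (CovZ.n2 (-26688, 0) (by decide +kernel)
         (CovZ.n2 (-26592, -96) (by decide +kernel)
          (CovZ.subM 364552291558910313598976047045852952206843166245393631567844887040927537716924799269108458357195958705209707899627520000 (by decide +kernel)
           (CovZ.n2 (-26688, -96) (by decide +kernel)
            (CovZ.n2 (-26640, -48) (by decide +kernel)
             (CovZ.leaf K2_ok TB_l8914 _)
             (CovZ.leaf K2_ok TB_l8915 _))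
            (CovZ.n1 (-26640, -144) (by decide +kernel)
             (CovZ.n2 (-26688, -144) (by decide +kernel)
              (CovZ.leaf K2_ok TB_l8916 _)
              (CovZ.leaf K2_ok TB_l8917 _))
             (CovZ.n1 (-26640, -96) (by decide +kernel)
              (CovZ.leaf K2_ok TB_l8918 _)
              (CovZ.leaf K2_ok TB_l8919 _)))))
          (CovZ.n1 (-26592, 0) (by decide +kernel)
           (CovZ.n2 (-26544, -48) (by decide +kernel)
            (CovZ.leaf K2_ok TB_l8920 _)
            (CovZ.leaf K2_ok TB_l8921 _))
           (CovZ.n1 (-26640, -48) (by decide +kernel)
            (CovZ.leaf K2_ok TB_l8922 _)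
            (CovZ.leaf K2_ok TB_l8923 _))))
         (CovZ.n1 (-26784, -96) (by decide +kernel)
          (CovZ.n2 (-26784, 0) (by decide +kernel)
           (CovZ.leaf K2_ok TB_l8924 _)
           (CovZ.n1 (-26832, -48) (by decide +kernel)
            (CovZ.leaf K2_ok TB_l8925 _)
            (CovZ.leaf K2_ok TB_l8926 _)))
          (CovZ.subM 364552291558910313598976047045852952206843166245393631568667639319588140738002283860387133609687326638026497831301824512 (by decide +kernel)
           (CovZ.n1 (-26688, -96) (by decide +kernel)
            (CovZ.n2 (-26736, -144) (by decide +kernel)
             (CovZ.leaf K2_ok TB_l8927 _)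
             (CovZ.n1 (-26688, -144) (by decide +kernel)
              (CovZ.n2 (-26712, -168) (by decide +kernel)
               (CovZ.leaf K2_ok TB_l8928 _)
               (CovZ.leaf K2_ok TB_l8929 _))
              (CovZ.leaf K2_ok TB_l8930 _)))
            (CovZ.n1 (-26736, -48) (by decide +kernel)
             (CovZ.leaf K2_ok TB_l8931 _)
             (CovZ.leaf K2_ok TB_l8932 _))))))
        (CovZ.n1 (-26496, -192) (by decide +kernel)
         (CovZ.subM 1423397624335314107506861087440977747759797121651044230590387361905450991909548277764716174373363625876360096697565184 (by decide +kernel)
          (CovZ.n2 (-26592, -288) (by decide +kernel)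
           (CovZ.n2 (-26592, -192) (by decide +kernel)
            (CovZ.n2 (-26544, -240) (by decide +kernel)
             (CovZ.n2 (-26592, -240) (by decide +kernel)
              (CovZ.n2 (-26568, -216) (by decide +kernel)
               (CovZ.subM 4925250921333221324899456882925237664445011390577979985477055443116191591807603140549361988498368785740509342613504 (by decide +kernel)
                (CovZ.n2 (-26568, -240) (by decide +kernel)
                 (CovZ.n2 (-26580, -228) (by decide +kernel)
                  (CovZ.leaf K2_ok TB_l8933 _)
                  (CovZ.leaf K2_ok TB_l8934 _))
                 (CovZ.n1 (-26556, -228) (by decide +kernel)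
                  (CovZ.leaf K2_ok TB_l8935 _)
                  (CovZ.leaf K2_ok TB_l8936 _))))
               (CovZ.n1 (-26592, -216) (by decide +kernel)
                (CovZ.leaf K2_ok TB_l8937 _)
                (CovZ.n1 (-26580, -228) (by decide +kernel)
                 (CovZ.leaf K2_ok TB_l8938 _)
                 (CovZ.leaf K2_ok TB_l8939 _))))
              (CovZ.subM 205888937698903520899773078966309558172923640884811292506849280 (by decide +kernel)
               (CovZ.n1 (-26568, -264) (by decide +kernel)
                (CovZ.n2 (-26592, -264) (by decide +kernel)
                 (CovZ.n2 (-26580, -252) (by decide +kernel)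
                  (CovZ.badM (by decide +kernel))
                  (CovZ.n1 (-26592, -252) (by decide +kernel)
                   (CovZ.leaf K2_ok TB_l39353 _)
                   (CovZ.badM (by decide +kernel))))
                 (CovZ.badM (by decide +kernel)))
                (CovZ.n1 (-26568, -240) (by decide +kernel)
                 (CovZ.n2 (-26556, -252) (by decide +kernel)
                  (CovZ.n2 (-26568, -252) (by decide +kernel)
                   (CovZ.n2 (-26562, -246) (by decide +kernel)
                    (CovZ.badM (by decide +kernel))
                    (CovZ.leaf K2_ok TB_l39354 _))
                   (CovZ.badM (by decide +kernel)))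
                  (CovZ.n1 (-26556, -240) (by decide +kernel)
                   (CovZ.badM (by decide +kernel))
                   (CovZ.n1 (-26562, -246) (by decide +kernel)
                    (CovZ.leaf K2_ok TB_l39355 _)
                    (CovZ.badM (by decide +kernel)))))
                 (CovZ.n1 (-26580, -252) (by decide +kernel)
                  (CovZ.n2 (-26580, -240) (by decide +kernel)
                   (CovZ.leaf K2_ok TB_l39356 _)
                   (CovZ.n1 (-26586, -246) (by decide +kernel)
                    (CovZ.leaf K2_ok TB_l39357 _)
                    (CovZ.leaf K2_ok TB_l39358 _)))
                  (CovZ.n1 (-26568, -252) (by decide +kernel)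
                   (CovZ.badM (by decide +kernel))
                   (CovZ.n1 (-26574, -246) (by decide +kernel)
                    (CovZ.leaf K2_ok TB_l39359 _)
                    (CovZ.badM (by decide +kernel)))))))))
             (CovZ.n1 (-26544, -192) (by decide +kernel)
              (CovZ.n2 (-26520, -216) (by decide +kernel)
               (CovZ.n2 (-26544, -216) (by decide +kernel)
                (CovZ.n2 (-26532, -204) (by decide +kernel)
                 (CovZ.leaf K2_ok TB_l8940 _)
                 (CovZ.leaf K2_ok TB_l8941 _))
                (CovZ.n1 (-26532, -228) (by decide +kernel)
                 (CovZ.leaf K2_ok TB_l8942 _)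
                 (CovZ.leaf K2_ok TB_l8943 _)))
               (CovZ.n1 (-26520, -192) (by decide +kernel)
                (CovZ.leaf K2_ok TB_l8944 _)
                (CovZ.n1 (-26532, -204) (by decide +kernel)
                 (CovZ.leaf K2_ok TB_l8945 _)
                 (CovZ.leaf K2_ok TB_l8946 _))))
              (CovZ.n1 (-26568, -216) (by decide +kernel)
               (CovZ.n2 (-26568, -192) (by decide +kernel)
                (CovZ.leaf K2_ok TB_l8947 _)
                (CovZ.leaf K2_ok TB_l8948 _))
               (CovZ.n1 (-26544, -216) (by decide +kernel)
                (CovZ.n2 (-26556, -228) (by decide +kernel)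
                 (CovZ.leaf K2_ok TB_l8949 _)
                 (CovZ.leaf K2_ok TB_l8950 _))
                (CovZ.leaf K2_ok TB_l8951 _)))))
            (CovZ.n1 (-26640, -240) (by decide +kernel)
             (CovZ.n2 (-26640, -192) (by decide +kernel)
              (CovZ.n2 (-26616, -216) (by decide +kernel)
               (CovZ.n2 (-26640, -216) (by decide +kernel)
                (CovZ.leaf K2_ok TB_l8952 _)
                (CovZ.leaf K2_ok TB_l8953 _))
               (CovZ.n1 (-26616, -192) (by decide +kernel)
                (CovZ.leaf K2_ok TB_l8954 _)
                (CovZ.leaf K2_ok TB_l8955 _)))
              (CovZ.n1 (-26664, -216) (by decide +kernel)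
               (CovZ.leaf K2_ok TB_l8956 _)
               (CovZ.n1 (-26640, -216) (by decide +kernel)
                (CovZ.n2 (-26652, -228) (by decide +kernel)
                 (CovZ.leaf K2_ok TB_l8957 _)
                 (CovZ.leaf K2_ok TB_l8958 _))
                (CovZ.leaf K2_ok TB_l8959 _))))
             (CovZ.n1 (-26592, -240) (by decide +kernel)
              (CovZ.subM 4925250774549309901534880012517951725634967408808181039382670533863466954984100161155816694359758538519760506716160 (by decide +kernel)
               (CovZ.n2 (-26616, -264) (by decide +kernel)
                (CovZ.n2 (-26616, -240) (by decide +kernel)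
                 (CovZ.n2 (-26604, -252) (by decide +kernel)
                  (CovZ.n2 (-26616, -252) (by decide +kernel)
                   (CovZ.leaf K2_ok TB_l39360 _)
                   (CovZ.badM (by decide +kernel)))
                  (CovZ.n1 (-26604, -240) (by decide +kernel)
                   (CovZ.leaf K2_ok TB_l39361 _)
                   (CovZ.n1 (-26610, -246) (by decide +kernel)
                    (CovZ.leaf K2_ok TB_l39362 _)
                    (CovZ.leaf K2_ok TB_l39363 _))))
                 (CovZ.n1 (-26628, -252) (by decide +kernel)
                  (CovZ.n2 (-26628, -240) (by decide +kernel)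
                   (CovZ.leaf K2_ok TB_l39364 _)
                   (CovZ.leaf K2_ok TB_l39365 _))
                  (CovZ.n1 (-26616, -252) (by decide +kernel)
                   (CovZ.badM (by decide +kernel))
                   (CovZ.leaf K2_ok TB_l39366 _))))
                (CovZ.n1 (-26592, -264) (by decide +kernel)
                 (CovZ.badM (by decide +kernel))
                 (CovZ.n1 (-26604, -252) (by decide +kernel)
                  (CovZ.n2 (-26592, -252) (by decide +kernel)
                   (CovZ.badM (by decide +kernel))
                   (CovZ.n1 (-26598, -246) (by decide +kernel)
                    (CovZ.leaf K2_ok TB_l39367 _)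
                    (CovZ.badM (by decide +kernel))))
                  (CovZ.badM (by decide +kernel))))))
              (CovZ.n1 (-26616, -216) (by decide +kernel)
               (CovZ.n2 (-26592, -216) (by decide +kernel)
                (CovZ.n2 (-26604, -228) (by decide +kernel)
                 (CovZ.leaf K2_ok TB_l8960 _)
                 (CovZ.leaf K2_ok TB_l8961 _))
                (CovZ.leaf K2_ok TB_l8962 _))
               (CovZ.subM 162533275706911138174015617283499692884763968472439766657270229060099078677796445586206427008038031348967021303840768 (by decide +kernel)
                (CovZ.n1 (-26616, -240) (by decide +kernel)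
                 (CovZ.n2 (-26628, -228) (by decide +kernel)
                  (CovZ.leaf K2_ok TB_l8963 _)
                  (CovZ.leaf K2_ok TB_l8964 _))
                 (CovZ.n1 (-26604, -228) (by decide +kernel)
                  (CovZ.leaf K2_ok TB_l8965 _)
                  (CovZ.leaf K2_ok TB_l8966 _))))))))
           (CovZ.n1 (-26496, -288) (by decide +kernel)
            (CovZ.badM (by decide +kernel))
            (CovZ.n1 (-26544, -240) (by decide +kernel)
             (CovZ.n2 (-26496, -240) (by decide +kernel)
              (CovZ.badM (by decide +kernel))
              (CovZ.n1 (-26520, -216) (by decide +kernel)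
               (CovZ.n2 (-26496, -216) (by decide +kernel)
                (CovZ.n2 (-26508, -228) (by decide +kernel)
                 (CovZ.leaf K2_ok TB_l8967 _)
                 (CovZ.leaf K2_ok TB_l8968 _))
                (CovZ.leaf K2_ok TB_l8969 _))
               (CovZ.subM 4925250921333221324899456882925237664445011390577979985475486167682344921616644193193560071894343196879393333968896 (by decide +kernel)
                (CovZ.n1 (-26520, -240) (by decide +kernel)
                 (CovZ.n2 (-26532, -228) (by decide +kernel)
                  (CovZ.leaf K2_ok TB_l8970 _)
                  (CovZ.leaf K2_ok TB_l8971 _))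
                 (CovZ.n1 (-26508, -228) (by decide +kernel)
                  (CovZ.n2 (-26508, -240) (by decide +kernel)
                   (CovZ.n2 (-26514, -234) (by decide +kernel)
                    (CovZ.leaf K2_ok TB_l39368 _)
                    (CovZ.badM (by decide +kernel)))
                   (CovZ.leaf K2_ok TB_l39369 _))
                  (CovZ.leaf K2_ok TB_l8972 _))))))
             (CovZ.badM (by decide +kernel))))))
         (CovZ.n1 (-26592, -96) (by decide +kernel)
          (CovZ.n2 (-26496, -96) (by decide +kernel)
           (CovZ.subM 364552291558910385270807796735587686159658359998287166139804059542406212319437477849505858848026961447691250035345866752 (by decide +kernel)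
            (CovZ.n2 (-26544, -144) (by decide +kernel)
             (CovZ.n2 (-26544, -96) (by decide +kernel)
              (CovZ.leaf K2_ok TB_l8973 _)
              (CovZ.leaf K2_ok TB_l8974 _))
             (CovZ.n1 (-26496, -144) (by decide +kernel)
              (CovZ.n2 (-26520, -168) (by decide +kernel)
               (CovZ.leaf K2_ok TB_l8975 _)
               (CovZ.leaf K2_ok TB_l8976 _))
              (CovZ.leaf K2_ok TB_l8977 _))))
           (CovZ.n1 (-26544, -48) (by decide +kernel)
            (CovZ.leaf K2_ok TB_l8978 _)
            (CovZ.leaf K2_ok TB_l8979 _)))
          (CovZ.subM 364552291558910385270807796735587686159658359998287166139804059542406212319437477849505858848026961447691250035345866752 (by decide +kernel)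
           (CovZ.n1 (-26592, -192) (by decide +kernel)
            (CovZ.n2 (-26640, -144) (by decide +kernel)
             (CovZ.n2 (-26592, -144) (by decide +kernel)
              (CovZ.n2 (-26616, -168) (by decide +kernel)
               (CovZ.leaf K2_ok TB_l8980 _)
               (CovZ.leaf K2_ok TB_l8981 _))
              (CovZ.leaf K2_ok TB_l8982 _))
             (CovZ.n1 (-26640, -192) (by decide +kernel)
              (CovZ.n2 (-26664, -168) (by decide +kernel)
               (CovZ.leaf K2_ok TB_l8983 _)
               (CovZ.leaf K2_ok TB_l8984 _))
              (CovZ.n1 (-26616, -168) (by decide +kernel)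
               (CovZ.leaf K2_ok TB_l8985 _)
               (CovZ.leaf K2_ok TB_l8986 _))))
            (CovZ.n1 (-26544, -144) (by decide +kernel)
             (CovZ.n2 (-26544, -192) (by decide +kernel)
              (CovZ.n2 (-26568, -168) (by decide +kernel)
               (CovZ.leaf K2_ok TB_l8987 _)
               (CovZ.leaf K2_ok TB_l8988 _))
              (CovZ.n1 (-26520, -168) (by decide +kernel)
               (CovZ.leaf K2_ok TB_l8989 _)
               (CovZ.leaf K2_ok TB_l8990 _)))
             (CovZ.n1 (-26592, -144) (by decide +kernel)
              (CovZ.leaf K2_ok TB_l8991 _)
              (CovZ.n1 (-26568, -168) (by decide +kernel)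
               (CovZ.leaf K2_ok TB_l8992 _)
               (CovZ.leaf K2_ok TB_l8993 _))))))))))

end Pool.Agent.TET
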