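import Pool.Agent.Helper38_TET.TB_M
import Pool.Agent.Helper38_TET.TB_L
import Pool.Agent.Helper38_TET.TB_17
import Pool.Agent.Helper38_TET.TB_18
import Pool.Agent.Helper38_TET.TB_38
import Pool.Agent.Helper38_TET.TB_39
import Pool.Agent.Helper38_TET.TB_40
import Pool.Agent.Helper38_TET.TB_59
import Pool.Agent.Helper38_TET.TB_60
import Pool.Agent.Helper38_TET.TB_78
import Pool.Agent.Helper38_TET.TB_79
import Pool.Agent.Helper38_TET.TB_80
import Pool.Agent.Helper38_TET.TB_262
import Pool.Agent.Helper38_TET.TB_263
import Pool.Agent.Helper38_TET.TB_264
import Pool.Agent.Helper38_TET.TB_265
import Pool.Agent.Helper38_TET.TB_324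

/-!
# MP_c7c9bf_co: certificates, family TB
-/

set_option autoImplicit false
set_option maxRecDepth 100000

namespace Pool.Agent.TET

theorem TB_u31 : CovZ TB_M (toL (selN TB_LN 324204940119393826745660869112769562208162288452510569371402024621269166375458034117969449911184731357391258907767226368)) [0, 7, 6, 1] (-27264, -384) (-27072, -384) (-27072, -192) :=
    (CovZ.n2 (-27168, -288) (by decide +kernel)
           (CovZ.n2 (-27072, -288) (by decide +kernel)
            (CovZ.subM 322786467896176554335332274787885462845100881848679150283215188256649288892735352071931594698787540499360962529693007872 (by decide +kernel)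
             (CovZ.n2 (-27120, -336) (by decide +kernel)
              (CovZ.n2 (-27120, -288) (by decide +kernel)
               (CovZ.n2 (-27096, -312) (by decide +kernel)
                (CovZ.n2 (-27120, -312) (by decide +kernel)
                 (CovZ.n2 (-27108, -300) (by decide +kernel)
                  (CovZ.leaf K2_ok TB_l39400 _)
                  (CovZ.leaf K2_ok TB_l9115 _))
                 (CovZ.n1 (-27108, -324) (by decide +kernel)
                  (CovZ.n2 (-27120, -324) (by decide +kernel)
                   (CovZ.leaf K2_ok TB_l39401 _)
                   (CovZ.badM (by decide +kernel)))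
                  (CovZ.leaf K2_ok TB_l39402 _)))
                (CovZ.n1 (-27096, -288) (by decide +kernel)
                 (CovZ.n2 (-27084, -300) (by decide +kernel)
                  (CovZ.leaf K2_ok TB_l9116 _)
                  (CovZ.leaf K2_ok TB_l9117 _))
                 (CovZ.n1 (-27108, -300) (by decide +kernel)
                  (CovZ.leaf K2_ok TB_l9118 _)
                  (CovZ.leaf K2_ok TB_l9119 _))))
               (CovZ.n1 (-27144, -312) (by decide +kernel)
                (CovZ.leaf K2_ok TB_l9120 _)
                (CovZ.n1 (-27120, -312) (by decide +kernel)
                 (CovZ.n2 (-27132, -324) (by decide +kernel)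
                  (CovZ.leaf K2_ok TB_l39403 _)
                  (CovZ.leaf K2_ok TB_l39404 _))
                 (CovZ.leaf K2_ok TB_l9121 _))))
              (CovZ.n1 (-27072, -336) (by decide +kernel)
               (CovZ.badM (by decide +kernel))
               (CovZ.n1 (-27096, -312) (by decide +kernel)
                (CovZ.n2 (-27072, -312) (by decide +kernel)
                 (CovZ.subM 4925288351230634282866526244207500355027405419728976530647927328082367409479442798139432138086105489408544890421248 (by decide +kernel)
                  (CovZ.n2 (-27084, -324) (by decide +kernel)
                   (CovZ.leaf K2_ok TB_l39405 _)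
                   (CovZ.n1 (-27072, -324) (by decide +kernel)
                    (CovZ.badM (by decide +kernel))
                    (CovZ.n1 (-27078, -318) (by decide +kernel)
                     (CovZ.leaf K2_ok TB_l48543 _)
                     (CovZ.badM (by decide +kernel))))))
                 (CovZ.n1 (-27084, -300) (by decide +kernel)
                  (CovZ.leaf K2_ok TB_l9122 _)
                  (CovZ.leaf K2_ok TB_l9123 _)))
                (CovZ.subM 4925288351230634282866526244207500355027405419728976530647927328082367409479442798139432138086105489408544890421248 (by decide +kernel)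
                 (CovZ.n1 (-27096, -336) (by decide +kernel)
                  (CovZ.n2 (-27108, -324) (by decide +kernel)
                   (CovZ.n2 (-27096, -324) (by decide +kernel)
                    (CovZ.badM (by decide +kernel))
                    (CovZ.leaf K2_ok TB_l39406 _))
                   (CovZ.badM (by decide +kernel)))
                  (CovZ.n1 (-27084, -324) (by decide +kernel)
                   (CovZ.badM (by decide +kernel))
                   (CovZ.n1 (-27096, -324) (by decide +kernel)
                    (CovZ.n2 (-27090, -318) (by decide +kernel)
                     (CovZ.badM (by decide +kernel))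
                     (CovZ.n1 (-27096, -318) (by decide +kernel)
                      (CovZ.leaf K2_ok TB_l39407 _)
                      (CovZ.badM (by decide +kernel))))
                    (CovZ.badM (by decide +kernel))))))))))
            (CovZ.n1 (-27120, -240) (by decide +kernel)
             (CovZ.n2 (-27072, -240) (by decide +kernel)
              (CovZ.n2 (-27096, -264) (by decide +kernel)
               (CovZ.leaf K2_ok TB_l9124 _)
               (CovZ.n1 (-27072, -264) (by decide +kernel)
                (CovZ.leaf K2_ok TB_l9125 _)
                (CovZ.leaf K2_ok TB_l9126 _)))
              (CovZ.leaf K2_ok TB_l9127 _))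
             (CovZ.n1 (-27120, -288) (by decide +kernel)
              (CovZ.n2 (-27144, -264) (by decide +kernel)
               (CovZ.leaf K2_ok TB_l9128 _)
               (CovZ.n1 (-27144, -288) (by decide +kernel)
                (CovZ.leaf K2_ok TB_l9129 _)
                (CovZ.leaf K2_ok TB_l9130 _)))
              (CovZ.n1 (-27096, -264) (by decide +kernel)
               (CovZ.n2 (-27096, -288) (by decide +kernel)
                (CovZ.leaf K2_ok TB_l9131 _)
                (CovZ.leaf K2_ok TB_l9132 _))
               (CovZ.leaf K2_ok TB_l9133 _)))))
           (CovZ.subM 322786467896176554335332274787885462845100881848679151125713521605106782476079573541295053249948303703753852564180828160 (by decide +kernel)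
            (CovZ.n1 (-27168, -384) (by decide +kernel)
             (CovZ.n2 (-27216, -336) (by decide +kernel)
              (CovZ.n2 (-27168, -336) (by decide +kernel)
               (CovZ.subM 18788340662190665823115844774314696219005460391266558965658327772257672200916867547709591987078149624255479808 (by decide +kernel)
                (CovZ.n2 (-27192, -360) (by decide +kernel)
                 (CovZ.n2 (-27192, -336) (by decide +kernel)
                  (CovZ.n2 (-27180, -348) (by decide +kernel)
                   (CovZ.n2 (-27192, -348) (by decide +kernel)
                    (CovZ.leaf K2_ok TB_l48544 _)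
                    (CovZ.badM (by decide +kernel)))
                   (CovZ.leaf K2_ok TB_l48545 _))
                  (CovZ.n1 (-27204, -348) (by decide +kernel)
                   (CovZ.leaf K2_ok TB_l48546 _)
                   (CovZ.n1 (-27192, -348) (by decide +kernel)
                    (CovZ.badM (by decide +kernel))
                    (CovZ.n1 (-27198, -342) (by decide +kernel)
                     (CovZ.n2 (-27192, -342) (by decide +kernel)
                      (CovZ.badM (by decide +kernel))
                      (CovZ.leaf K2_ok TB_l48547 _))
                     (CovZ.badM (by decide +kernel))))))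
                 (CovZ.badM (by decide +kernel))))
               (CovZ.n1 (-27192, -312) (by decide +kernel)
                (CovZ.n2 (-27168, -312) (by decide +kernel)
                 (CovZ.n2 (-27180, -324) (by decide +kernel)
                  (CovZ.leaf K2_ok TB_l9134 _)
                  (CovZ.leaf K2_ok TB_l39408 _))
                 (CovZ.leaf K2_ok TB_l9135 _))
                (CovZ.n1 (-27192, -336) (by decide +kernel)
                 (CovZ.n2 (-27204, -324) (by decide +kernel)
                  (CovZ.leaf K2_ok TB_l39409 _)
                  (CovZ.n1 (-27204, -336) (by decide +kernel)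
                   (CovZ.leaf K2_ok TB_l39410 _)
                   (CovZ.leaf K2_ok TB_l39411 _)))
                 (CovZ.n1 (-27180, -324) (by decide +kernel)
                  (CovZ.n2 (-27180, -336) (by decide +kernel)
                   (CovZ.n2 (-27186, -330) (by decide +kernel)
                    (CovZ.leaf K2_ok TB_l39412 _)
                    (CovZ.leaf K2_ok TB_l48548 _))
                   (CovZ.leaf K2_ok TB_l39413 _))
                  (CovZ.leaf K2_ok TB_l39414 _)))))
              (CovZ.subM 18788340662190665823115844774314696219005461233764892314115821355601893670280326098870355191471039658743300096 (by decide +kernel)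
               (CovZ.n1 (-27216, -384) (by decide +kernel)
                (CovZ.n2 (-27240, -360) (by decide +kernel)
                 (CovZ.n2 (-27216, -360) (by decide +kernel)
                  (CovZ.badM (by decide +kernel))
                  (CovZ.n1 (-27228, -348) (by decide +kernel)
                   (CovZ.n2 (-27216, -348) (by decide +kernel)
                    (CovZ.badM (by decide +kernel))
                    (CovZ.n1 (-27222, -342) (by decide +kernel)
                     (CovZ.leaf K2_ok TB_l48549 _)
                     (CovZ.badM (by decide +kernel))))
                   (CovZ.badM (by decide +kernel))))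
                 (CovZ.badM (by decide +kernel)))
                (CovZ.n1 (-27192, -360) (by decide +kernel)
                 (CovZ.badM (by decide +kernel))
                 (CovZ.n1 (-27216, -360) (by decide +kernel)
                  (CovZ.n2 (-27204, -348) (by decide +kernel)
                   (CovZ.badM (by decide +kernel))
                   (CovZ.n1 (-27216, -348) (by decide +kernel)
                    (CovZ.leaf K2_ok TB_l48550 _)
                    (CovZ.badM (by decide +kernel))))
                  (CovZ.badM (by decide +kernel)))))))
             (CovZ.n1 (-27120, -336) (by decide +kernel)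
              (CovZ.badM (by decide +kernel))
              (CovZ.n1 (-27168, -336) (by decide +kernel)
               (CovZ.n2 (-27144, -312) (by decide +kernel)
                (CovZ.subM 4925307139571296473532349360052274669723624425189367797407956401371744285368258844969100412568871140388657751392256 (by decide +kernel)
                 (CovZ.n2 (-27144, -336) (by decide +kernel)
                  (CovZ.n2 (-27156, -324) (by decide +kernel)
                   (CovZ.leaf K2_ok TB_l39415 _)
                   (CovZ.subM 18788340662190665823115844774314696219005460391266558965658327772257672200916867547709591987078149624255479808 (by decide +kernel)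
                    (CovZ.n1 (-27156, -336) (by decide +kernel)
                     (CovZ.n2 (-27162, -330) (by decide +kernel)
                      (CovZ.n2 (-27156, -330) (by decide +kernel)
                       (CovZ.badM (by decide +kernel))
                       (CovZ.leaf K2_ok TB_l48551 _))
                      (CovZ.badM (by decide +kernel)))
                     (CovZ.n1 (-27150, -330) (by decide +kernel)
                      (CovZ.badM (by decide +kernel))
                      (CovZ.n1 (-27156, -330) (by decide +kernel)
                       (CovZ.leaf K2_ok TB_l48552 _)
                       (CovZ.badM (by decide +kernel)))))))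
                  (CovZ.n1 (-27132, -324) (by decide +kernel)
                   (CovZ.badM (by decide +kernel))
                   (CovZ.n1 (-27144, -324) (by decide +kernel)
                    (CovZ.leaf K2_ok TB_l39416 _)
                    (CovZ.badM (by decide +kernel))))))
                (CovZ.n1 (-27168, -312) (by decide +kernel)
                 (CovZ.leaf K2_ok TB_l9136 _)
                 (CovZ.n1 (-27156, -324) (by decide +kernel)
                  (CovZ.leaf K2_ok TB_l39417 _)
                  (CovZ.leaf K2_ok TB_l39418 _))))
               (CovZ.badM (by decide +kernel)))))))

theorem TB_u32 : CovZ TB_M (toL (selN TB_LN 324204940119393826745660869112769562208162288452510569371402024621269166375458034117969449911184731357391258907767226368)) [0, 7, 6, 1] (-27072, -384) (-26880, -384) (-27072, -192) :=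
    (CovZ.n1 (-26976, -288) (by decide +kernel)
           (CovZ.subM 4925250774549309901534880012517951725634967408808194000944935514906408063435580279048782488837315893505370655555584 (by decide +kernel)
            (CovZ.n2 (-26976, -384) (by decide +kernel)
             (CovZ.n2 (-27024, -336) (by decide +kernel)
              (CovZ.n2 (-26976, -336) (by decide +kernel)
               (CovZ.badM (by decide +kernel))
               (CovZ.n1 (-27000, -312) (by decide +kernel)
                (CovZ.n2 (-26976, -312) (by decide +kernel)
                 (CovZ.badM (by decide +kernel))
                 (CovZ.n1 (-26988, -300) (by decide +kernel)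
                  (CovZ.leaf K2_ok TB_l39419 _)
                  (CovZ.badM (by decide +kernel))))
                (CovZ.badM (by decide +kernel))))
              (CovZ.badM (by decide +kernel)))
             (CovZ.n1 (-26928, -336) (by decide +kernel)
              (CovZ.badM (by decide +kernel))
              (CovZ.n1 (-26976, -336) (by decide +kernel)
               (CovZ.n2 (-26952, -312) (by decide +kernel)
                (CovZ.badM (by decide +kernel))
                (CovZ.n1 (-26976, -312) (by decide +kernel)
                 (CovZ.n2 (-26964, -300) (by decide +kernel)
                  (CovZ.badM (by decide +kernel))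
                  (CovZ.leaf K2_ok TB_l39420 _))
                 (CovZ.badM (by decide +kernel))))
               (CovZ.badM (by decide +kernel))))))
           (CovZ.n1 (-27072, -288) (by decide +kernel)
            (CovZ.n2 (-27024, -240) (by decide +kernel)
             (CovZ.n2 (-27024, -288) (by decide +kernel)
              (CovZ.n2 (-27048, -264) (by decide +kernel)
               (CovZ.leaf K2_ok TB_l9137 _)
               (CovZ.n1 (-27048, -288) (by decide +kernel)
                (CovZ.leaf K2_ok TB_l9138 _)
                (CovZ.leaf K2_ok TB_l9139 _)))
              (CovZ.n1 (-27000, -264) (by decide +kernel)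
               (CovZ.n2 (-27000, -288) (by decide +kernel)
                (CovZ.leaf K2_ok TB_l9140 _)
                (CovZ.leaf K2_ok TB_l9141 _))
               (CovZ.leaf K2_ok TB_l9142 _)))
             (CovZ.n1 (-27072, -240) (by decide +kernel)
              (CovZ.leaf K2_ok TB_l9143 _)
              (CovZ.n1 (-27048, -264) (by decide +kernel)
               (CovZ.leaf K2_ok TB_l9144 _)
               (CovZ.leaf K2_ok TB_l9145 _))))
            (CovZ.subM 5233135312980628342378287508978553887657745026211179382768689068336140630202743225925538770311569873066033032462336 (by decide +kernel)
             (CovZ.n1 (-27024, -336) (by decide +kernel)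
              (CovZ.n2 (-27072, -336) (by decide +kernel)
               (CovZ.n2 (-27048, -312) (by decide +kernel)
                (CovZ.badM (by decide +kernel))
                (CovZ.n1 (-27072, -312) (by decide +kernel)
                 (CovZ.n2 (-27060, -300) (by decide +kernel)
                  (CovZ.leaf K2_ok TB_l39421 _)
                  (CovZ.leaf K2_ok TB_l9146 _))
                 (CovZ.subM 37576681324381331646231689548629392438010920782533117931316655544515344401833735095419183974156299248510959616 (by decide +kernel)
                  (CovZ.n1 (-27060, -324) (by decide +kernel)
                   (CovZ.n2 (-27072, -324) (by decide +kernel)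
                    (CovZ.n2 (-27066, -318) (by decide +kernel)
                     (CovZ.badM (by decide +kernel))
                     (CovZ.n1 (-27072, -318) (by decide +kernel)
                      (CovZ.leaf K2_ok TB_l48553 _)
                      (CovZ.badM (by decide +kernel))))
                    (CovZ.badM (by decide +kernel)))
                   (CovZ.leaf K2_ok TB_l48554 _)))))
               (CovZ.badM (by decide +kernel)))
              (CovZ.n1 (-27024, -288) (by decide +kernel)
               (CovZ.n2 (-27000, -312) (by decide +kernel)
                (CovZ.n2 (-27024, -312) (by decide +kernel)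
                 (CovZ.n2 (-27012, -300) (by decide +kernel)
                  (CovZ.leaf K2_ok TB_l39422 _)
                  (CovZ.leaf K2_ok TB_l39423 _))
                 (CovZ.badM (by decide +kernel)))
                (CovZ.n1 (-27000, -288) (by decide +kernel)
                 (CovZ.n2 (-26988, -300) (by decide +kernel)
                  (CovZ.leaf K2_ok TB_l39424 _)
                  (CovZ.leaf K2_ok TB_l39425 _))
                 (CovZ.n1 (-27012, -300) (by decide +kernel)
                  (CovZ.leaf K2_ok TB_l9147 _)
                  (CovZ.leaf K2_ok TB_l9148 _))))
               (CovZ.n1 (-27048, -312) (by decide +kernel)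
                (CovZ.n2 (-27048, -288) (by decide +kernel)
                 (CovZ.leaf K2_ok TB_l39426 _)
                 (CovZ.n1 (-27060, -300) (by decide +kernel)
                  (CovZ.leaf K2_ok TB_l9149 _)
                  (CovZ.n1 (-27048, -300) (by decide +kernel)
                   (CovZ.leaf K2_ok TB_l39427 _)
                   (CovZ.leaf K2_ok TB_l39428 _))))
                (CovZ.n1 (-27024, -312) (by decide +kernel)
                 (CovZ.badM (by decide +kernel))
                 (CovZ.n1 (-27036, -300) (by decide +kernel)
                  (CovZ.leaf K2_ok TB_l39429 _)
                  (CovZ.leaf K2_ok TB_l39430 _)))))))))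

theorem TB_u33 : CovZ TB_M (toL (selN TB_LN 10693552188729356552790587731821266841014006708332875938701794431731881531140877455849397537499971682418187577823936921600)) [0, 7, 6, 1] (-27648, 0) (-27264, -384) (-26880, 0) :=
    (CovZ.n2 (-27264, 0) (by decide +kernel)
       (CovZ.n2 (-27072, -192) (by decide +kernel)
        (CovZ.subM 322786472706138835014829274386822705854681672056745586115816107622050857887874578379371006275609615354060673061705220096 (by decide +kernel)
         (CovZ.n2 (-27264, -192) (by decide +kernel)
          (CovZ.n2 (-27168, -96) (by decide +kernel)
           (CovZ.n2 (-27168, -192) (by decide +kernel)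
            (CovZ.leaf K2_ok TB_l8994 _)
            (CovZ.n1 (-27120, -144) (by decide +kernel)
             (CovZ.leaf K2_ok TB_l8995 _)
             (CovZ.leaf K2_ok TB_l8996 _)))
           (CovZ.n1 (-27264, -96) (by decide +kernel)
            (CovZ.leaf K2_ok TB_l8997 _)
            (CovZ.n1 (-27216, -144) (by decide +kernel)
             (CovZ.leaf K2_ok TB_l8998 _)
             (CovZ.leaf K2_ok TB_l8999 _))))
          (CovZ.n1 (-27168, -288) (by decide +kernel)
           (CovZ.n2 (-27264, -288) (by decide +kernel)
            (CovZ.n2 (-27216, -240) (by decide +kernel)
             (CovZ.n2 (-27216, -288) (by decide +kernel)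
              (CovZ.n2 (-27240, -264) (by decide +kernel)
               (CovZ.leaf K2_ok TB_l9000 _)
               (CovZ.leaf K2_ok TB_l9001 _))
              (CovZ.n1 (-27192, -264) (by decide +kernel)
               (CovZ.leaf K2_ok TB_l9002 _)
               (CovZ.leaf K2_ok TB_l9003 _)))
             (CovZ.n1 (-27264, -240) (by decide +kernel)
              (CovZ.leaf K2_ok TB_l9004 _)
              (CovZ.leaf K2_ok TB_l9005 _)))
            (CovZ.subM 322786467896323338246755639364755870130921120793281909140545877732091704936404457621029475055749433722388109152256786432 (by decide +kernel)
             (CovZ.n1 (-27216, -336) (by decide +kernel)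
              (CovZ.n2 (-27264, -336) (by decide +kernel)
               (CovZ.n2 (-27240, -312) (by decide +kernel)
                (CovZ.n2 (-27240, -336) (by decide +kernel)
                 (CovZ.n2 (-27252, -324) (by decide +kernel)
                  (CovZ.leaf K2_ok TB_l39370 _)
                  (CovZ.leaf K2_ok TB_l9006 _))
                 (CovZ.n1 (-27228, -324) (by decide +kernel)
                  (CovZ.leaf K2_ok TB_l39371 _)
                  (CovZ.leaf K2_ok TB_l39372 _)))
                (CovZ.n1 (-27264, -312) (by decide +kernel)
                 (CovZ.leaf K2_ok TB_l9007 _)
                 (CovZ.leaf K2_ok TB_l9008 _)))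
               (CovZ.subM 322786160030426463679082097203504847017253555290067208531594842073867630161434951909818819070846061755490653091217276928 (by decide +kernel)
                (CovZ.n1 (-27240, -360) (by decide +kernel)
                 (CovZ.n2 (-27264, -360) (by decide +kernel)
                  (CovZ.n2 (-27252, -348) (by decide +kernel)
                   (CovZ.badM (by decide +kernel))
                   (CovZ.n1 (-27264, -348) (by decide +kernel)
                    (CovZ.leaf K2_ok TB_l39373 _)
                    (CovZ.subM 322781234760863573706989896500376484291213224103652939946330752916038446335449370798069127711177992133880786531081256960 (by decide +kernel)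
                     (CovZ.n1 (-27258, -354) (by decide +kernel)
                      (CovZ.n2 (-27264, -354) (by decide +kernel)
                       (CovZ.leaf K2_ok TB_l39374 _)
                       (CovZ.badM (by decide +kernel)))
                      (CovZ.n1 (-27258, -348) (by decide +kernel)
                       (CovZ.badM (by decide +kernel))
                       (CovZ.leaf K2_ok TB_l39375 _))))))
                  (CovZ.badM (by decide +kernel)))
                 (CovZ.n1 (-27240, -336) (by decide +kernel)
                  (CovZ.n2 (-27228, -348) (by decide +kernel)
                   (CovZ.n2 (-27240, -348) (by decide +kernel)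
                    (CovZ.leaf K2_ok TB_l48540 _)
                    (CovZ.badM (by decide +kernel)))
                   (CovZ.leaf K2_ok TB_l48541 _))
                  (CovZ.n1 (-27252, -348) (by decide +kernel)
                   (CovZ.leaf K2_ok TB_l9009 _)
                   (CovZ.n1 (-27240, -348) (by decide +kernel)
                    (CovZ.badM (by decide +kernel))
                    (CovZ.leaf K2_ok TB_l48542 _)))))))
              (CovZ.n1 (-27216, -288) (by decide +kernel)
               (CovZ.n2 (-27192, -312) (by decide +kernel)
                (CovZ.n2 (-27216, -312) (by decide +kernel)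
                 (CovZ.leaf K2_ok TB_l9010 _)
                 (CovZ.leaf K2_ok TB_l39376 _))
                (CovZ.leaf K2_ok TB_l9011 _))
               (CovZ.n1 (-27240, -312) (by decide +kernel)
                (CovZ.leaf K2_ok TB_l9012 _)
                (CovZ.n1 (-27216, -312) (by decide +kernel)
                 (CovZ.n2 (-27228, -324) (by decide +kernel)
                  (CovZ.leaf K2_ok TB_l39377 _)
                  (CovZ.leaf K2_ok TB_l39378 _))
                 (CovZ.n1 (-27228, -300) (by decide +kernel)
                  (CovZ.leaf K2_ok TB_l9013 _)
                  (CovZ.n1 (-27228, -312) (by decide +kernel)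
                   (CovZ.leaf K2_ok TB_l39379 _)
                   (CovZ.leaf K2_ok TB_l39380 _)))))))))
           (CovZ.n1 (-27168, -192) (by decide +kernel)
            (CovZ.n2 (-27120, -240) (by decide +kernel)
             (CovZ.n2 (-27168, -240) (by decide +kernel)
              (CovZ.leaf K2_ok TB_l9014 _)
              (CovZ.n1 (-27144, -264) (by decide +kernel)
               (CovZ.leaf K2_ok TB_l9015 _)
               (CovZ.leaf K2_ok TB_l9016 _)))
             (CovZ.n1 (-27120, -192) (by decide +kernel)
              (CovZ.leaf K2_ok TB_l9017 _)
              (CovZ.leaf K2_ok TB_l9018 _)))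
            (CovZ.n1 (-27216, -240) (by decide +kernel)
             (CovZ.n2 (-27216, -192) (by decide +kernel)
              (CovZ.leaf K2_ok TB_l9019 _)
              (CovZ.leaf K2_ok TB_l9020 _))
             (CovZ.n1 (-27168, -240) (by decide +kernel)
              (CovZ.n2 (-27192, -264) (by decide +kernel)
               (CovZ.leaf K2_ok TB_l9021 _)
               (CovZ.leaf K2_ok TB_l9022 _))
              (CovZ.leaf K2_ok TB_l9023 _)))))))
        (CovZ.n1 (-27072, 0) (by decide +kernel)
         (CovZ.n2 (-26976, -96) (by decide +kernel)
          (CovZ.n2 (-27072, -96) (by decide +kernel)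
           (CovZ.leaf K2_ok TB_l9024 _)
           (CovZ.n1 (-27024, -144) (by decide +kernel)
            (CovZ.leaf K2_ok TB_l9025 _)
            (CovZ.leaf K2_ok TB_l9026 _)))
          (CovZ.n1 (-26976, 0) (by decide +kernel)
           (CovZ.leaf K2_ok TB_l9027 _)
           (CovZ.leaf K2_ok TB_l9028 _)))
         (CovZ.subM 322786472706138835014829274386822705854681672056745586115816107622050857887874578379371006275609615354060673061705220096 (by decide +kernel)
          (CovZ.n1 (-27168, -96) (by decide +kernel)
           (CovZ.n2 (-27168, 0) (by decide +kernel)
            (CovZ.leaf K2_ok TB_l9029 _)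
            (CovZ.leaf K2_ok TB_l9030 _))
           (CovZ.n1 (-27072, -96) (by decide +kernel)
            (CovZ.n2 (-27120, -144) (by decide +kernel)
             (CovZ.leaf K2_ok TB_l9031 _)
             (CovZ.leaf K2_ok TB_l9032 _))
            (CovZ.leaf K2_ok TB_l9033 _))))))
       (CovZ.n1 (-27456, -192) (by decide +kernel)
        (CovZ.n2 (-27456, 0) (by decide +kernel)
         (CovZ.n2 (-27360, -96) (by decide +kernel)
          (CovZ.n2 (-27456, -96) (by decide +kernel)
           (CovZ.leaf K2_ok TB_l9034 _)
           (CovZ.leaf K2_ok TB_l9035 _))
          (CovZ.leaf K2_ok TB_l9036 _))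
         (CovZ.subM 322786472706138835014829274386695391106160766676353807839041354812876120535728494198742220075010534571406847614806130688 (by decide +kernel)
          (CovZ.n1 (-27552, -96) (by decide +kernel)
           (CovZ.leaf K2_ok TB_l9037 _)
           (CovZ.n1 (-27456, -96) (by decide +kernel)
            (CovZ.n2 (-27504, -144) (by decide +kernel)
             (CovZ.leaf K2_ok TB_l9038 _)
             (CovZ.leaf K2_ok TB_l9039 _))
            (CovZ.leaf K2_ok TB_l9040 _)))))
        (CovZ.subM 322786472706138835014829274386822705854681672056745586115816107622050857887874578379371006275609615354060673061705220096 (by decide +kernel)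
         (CovZ.n1 (-27264, -192) (by decide +kernel)
          (CovZ.n2 (-27360, -288) (by decide +kernel)
           (CovZ.n2 (-27360, -192) (by decide +kernel)
            (CovZ.n2 (-27312, -240) (by decide +kernel)
             (CovZ.n2 (-27360, -240) (by decide +kernel)
              (CovZ.leaf K2_ok TB_l9041 _)
              (CovZ.leaf K2_ok TB_l9042 _))
             (CovZ.leaf K2_ok TB_l9043 _))
            (CovZ.n1 (-27408, -240) (by decide +kernel)
             (CovZ.leaf K2_ok TB_l9044 _)
             (CovZ.n1 (-27360, -240) (by decide +kernel)
              (CovZ.leaf K2_ok TB_l9045 _)
              (CovZ.leaf K2_ok TB_l9046 _))))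
           (CovZ.n1 (-27264, -288) (by decide +kernel)
            (CovZ.subM 322786467896323338246755639365774388119088363836416131984750667246245205320129647118978316603089282009956888929900691456 (by decide +kernel)
             (CovZ.n2 (-27312, -336) (by decide +kernel)
              (CovZ.n2 (-27312, -288) (by decide +kernel)
               (CovZ.n2 (-27288, -312) (by decide +kernel)
                (CovZ.n2 (-27312, -312) (by decide +kernel)
                 (CovZ.leaf K2_ok TB_l9047 _)
                 (CovZ.leaf K2_ok TB_l9048 _))
                (CovZ.leaf K2_ok TB_l9049 _))
               (CovZ.n1 (-27336, -312) (by decide +kernel)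
                (CovZ.leaf K2_ok TB_l9050 _)
                (CovZ.n1 (-27312, -312) (by decide +kernel)
                 (CovZ.leaf K2_ok TB_l9051 _)
                 (CovZ.leaf K2_ok TB_l9052 _))))
              (CovZ.n1 (-27264, -336) (by decide +kernel)
               (CovZ.subM 322786160011638123016891431388537146148276803416135530893965998188946142184295658415655411767795914268428934256808427520 (by decide +kernel)
                (CovZ.n2 (-27288, -360) (by decide +kernel)
                 (CovZ.n2 (-27288, -336) (by decide +kernel)
                  (CovZ.n2 (-27276, -348) (by decide +kernel)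
                   (CovZ.leaf K2_ok TB_l39381 _)
                   (CovZ.leaf K2_ok TB_l39382 _))
                  (CovZ.n1 (-27300, -348) (by decide +kernel)
                   (CovZ.leaf K2_ok TB_l39383 _)
                   (CovZ.leaf K2_ok TB_l39384 _)))
                 (CovZ.n1 (-27264, -360) (by decide +kernel)
                  (CovZ.badM (by decide +kernel))
                  (CovZ.n1 (-27276, -348) (by decide +kernel)
                   (CovZ.n2 (-27264, -348) (by decide +kernel)
                    (CovZ.n2 (-27270, -354) (by decide +kernel)
                     (CovZ.leaf K2_ok TB_l39385 _)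
                     (CovZ.leaf K2_ok TB_l39386 _))
                    (CovZ.n1 (-27270, -342) (by decide +kernel)
                     (CovZ.leaf K2_ok TB_l39387 _)
                     (CovZ.leaf K2_ok TB_l39388 _)))
                   (CovZ.subM 322781234760863573706989896500376484291213224103652939946330752916038446335449370798069127711177992133880786531081256960 (by decide +kernel)
                    (CovZ.n1 (-27276, -360) (by decide +kernel)
                     (CovZ.n2 (-27282, -354) (by decide +kernel)
                      (CovZ.leaf K2_ok TB_l39389 _)
                      (CovZ.badM (by decide +kernel)))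
                     (CovZ.n1 (-27270, -354) (by decide +kernel)
                      (CovZ.badM (by decide +kernel))
                      (CovZ.leaf K2_ok TB_l39390 _))))))))
               (CovZ.n1 (-27288, -312) (by decide +kernel)
                (CovZ.n2 (-27264, -312) (by decide +kernel)
                 (CovZ.n2 (-27276, -324) (by decide +kernel)
                  (CovZ.leaf K2_ok TB_l9053 _)
                  (CovZ.leaf K2_ok TB_l9054 _))
                 (CovZ.leaf K2_ok TB_l9055 _))
                (CovZ.n1 (-27288, -336) (by decide +kernel)
                 (CovZ.leaf K2_ok TB_l9056 _)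
                 (CovZ.n1 (-27276, -324) (by decide +kernel)
                  (CovZ.leaf K2_ok TB_l9057 _)
                  (CovZ.leaf K2_ok TB_l9058 _)))))))
            (CovZ.n1 (-27312, -240) (by decide +kernel)
             (CovZ.n2 (-27264, -240) (by decide +kernel)
              (CovZ.n2 (-27288, -264) (by decide +kernel)
               (CovZ.leaf K2_ok TB_l9059 _)
               (CovZ.leaf K2_ok TB_l9060 _))
              (CovZ.leaf K2_ok TB_l9061 _))
             (CovZ.n1 (-27312, -288) (by decide +kernel)
              (CovZ.leaf K2_ok TB_l9062 _)
              (CovZ.n1 (-27288, -264) (by decide +kernel)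
               (CovZ.leaf K2_ok TB_l9063 _)
               (CovZ.leaf K2_ok TB_l9064 _))))))
          (CovZ.n1 (-27360, -96) (by decide +kernel)
           (CovZ.n2 (-27264, -96) (by decide +kernel)
            (CovZ.n2 (-27312, -144) (by decide +kernel)
             (CovZ.leaf K2_ok TB_l9065 _)
             (CovZ.leaf K2_ok TB_l9066 _))
            (CovZ.leaf K2_ok TB_l9067 _))
           (CovZ.n1 (-27360, -192) (by decide +kernel)
            (CovZ.leaf K2_ok TB_l9068 _)
            (CovZ.n1 (-27312, -144) (by decide +kernel)
             (CovZ.leaf K2_ok TB_l9069 _)
             (CovZ.leaf K2_ok TB_l9070 _))))))))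

theorem TB_u34 : CovZ TB_M (toL (selN TB_LN 10693552188729356552790587731821266841014006708332875938701794431731881531140877455849397537499971682418187577823936921600)) [0, 7, 6, 1] (-27264, -384) (-26880, -768) (-26880, 0) :=
    (CovZ.n1 (-26880, -384) (by decide +kernel)
       (CovZ.badM (by decide +kernel))
       (CovZ.n1 (-27072, -192) (by decide +kernel)
        (CovZ.n2 (-26880, -192) (by decide +kernel)
         (CovZ.subM 324204940119393826745660869112769562208162288452510568528903691272811672792113812648605991360023968152998368873279406080 (by decide +kernel)
          (CovZ.n2 (-26976, -288) (by decide +kernel)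
           (CovZ.n2 (-26976, -192) (by decide +kernel)
            (CovZ.n2 (-26928, -240) (by decide +kernel)
             (CovZ.n2 (-26976, -240) (by decide +kernel)
              (CovZ.n2 (-26952, -216) (by decide +kernel)
               (CovZ.leaf K2_ok TB_l9071 _)
               (CovZ.leaf K2_ok TB_l9072 _))
              (CovZ.n1 (-26952, -264) (by decide +kernel)
               (CovZ.n2 (-26976, -264) (by decide +kernel)
                (CovZ.leaf K2_ok TB_l9073 _)
                (CovZ.leaf K2_ok TB_l9074 _))
               (CovZ.leaf K2_ok TB_l9075 _)))
             (CovZ.n1 (-26928, -192) (by decide +kernel)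
              (CovZ.leaf K2_ok TB_l9076 _)
              (CovZ.n1 (-26952, -216) (by decide +kernel)
               (CovZ.leaf K2_ok TB_l9077 _)
               (CovZ.leaf K2_ok TB_l9078 _))))
            (CovZ.n1 (-27024, -240) (by decide +kernel)
             (CovZ.n2 (-27024, -192) (by decide +kernel)
              (CovZ.leaf K2_ok TB_l9079 _)
              (CovZ.leaf K2_ok TB_l9080 _))
             (CovZ.n1 (-26976, -240) (by decide +kernel)
              (CovZ.n2 (-27000, -264) (by decide +kernel)
               (CovZ.leaf K2_ok TB_l9081 _)
               (CovZ.n1 (-26976, -264) (by decide +kernel)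
                (CovZ.leaf K2_ok TB_l9082 _)
                (CovZ.leaf K2_ok TB_l9083 _)))
              (CovZ.leaf K2_ok TB_l9084 _))))
           (CovZ.n1 (-26880, -288) (by decide +kernel)
            (CovZ.subM 4925250774549309901534880012517951725634967408808194000944935514906408063435580279048782488837315893505370655555584 (by decide +kernel)
             (CovZ.n2 (-26928, -336) (by decide +kernel)
              (CovZ.n2 (-26928, -288) (by decide +kernel)
               (CovZ.subM 13164237326591428481457140634899520198762356792252231316985085952 (by decide +kernel)
                (CovZ.n2 (-26904, -312) (by decide +kernel)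
                 (CovZ.n2 (-26928, -312) (by decide +kernel)
                  (CovZ.n2 (-26916, -300) (by decide +kernel)
                   (CovZ.badM (by decide +kernel))
                   (CovZ.n1 (-26928, -300) (by decide +kernel)
                    (CovZ.leaf K2_ok TB_l39391 _)
                    (CovZ.badM (by decide +kernel))))
                  (CovZ.badM (by decide +kernel)))
                 (CovZ.n1 (-26904, -288) (by decide +kernel)
                  (CovZ.badM (by decide +kernel))
                  (CovZ.n1 (-26916, -300) (by decide +kernel)
                   (CovZ.leaf K2_ok TB_l39392 _)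
                   (CovZ.badM (by decide +kernel))))))
               (CovZ.n1 (-26952, -312) (by decide +kernel)
                (CovZ.n2 (-26952, -288) (by decide +kernel)
                 (CovZ.n2 (-26940, -300) (by decide +kernel)
                  (CovZ.leaf K2_ok TB_l39393 _)
                  (CovZ.leaf K2_ok TB_l39394 _))
                 (CovZ.n1 (-26964, -300) (by decide +kernel)
                  (CovZ.leaf K2_ok TB_l39395 _)
                  (CovZ.n1 (-26952, -300) (by decide +kernel)
                   (CovZ.badM (by decide +kernel))
                   (CovZ.n1 (-26958, -294) (by decide +kernel)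
                    (CovZ.leaf K2_ok TB_l39396 _)
                    (CovZ.n1 (-26958, -300) (by decide +kernel)
                     (CovZ.leaf K2_ok TB_l39397 _)
                     (CovZ.leaf K2_ok TB_l39398 _))))))
                (CovZ.subM 13164237326591428481457140634899520198762356792252231316985085952 (by decide +kernel)
                 (CovZ.n1 (-26928, -312) (by decide +kernel)
                  (CovZ.badM (by decide +kernel))
                  (CovZ.n1 (-26940, -300) (by decide +kernel)
                   (CovZ.n2 (-26928, -300) (by decide +kernel)
                    (CovZ.badM (by decide +kernel))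
                    (CovZ.n1 (-26934, -294) (by decide +kernel)
                     (CovZ.leaf K2_ok TB_l39399 _)
                     (CovZ.badM (by decide +kernel))))
                   (CovZ.badM (by decide +kernel)))))))
              (CovZ.badM (by decide +kernel))))
            (CovZ.n1 (-26928, -240) (by decide +kernel)
             (CovZ.n2 (-26880, -240) (by decide +kernel)
              (CovZ.n2 (-26904, -264) (by decide +kernel)
               (CovZ.n2 (-26904, -240) (by decide +kernel)
                (CovZ.leaf K2_ok TB_l9086 _)
                (CovZ.leaf K2_ok TB_l9087 _))
               (CovZ.n1 (-26880, -264) (by decide +kernel)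
                (CovZ.n2 (-26892, -276) (by decide +kernel)
                 (CovZ.leaf K2_ok TB_l9088 _)
                 (CovZ.leaf K2_ok TB_l9089 _))
                (CovZ.leaf K2_ok TB_l9090 _)))
              (CovZ.n1 (-26904, -216) (by decide +kernel)
               (CovZ.leaf K2_ok TB_l9091 _)
               (CovZ.leaf K2_ok TB_l9092 _)))
             (CovZ.n1 (-26928, -288) (by decide +kernel)
              (CovZ.subM 5233097883083215384411219166214279245747294752271256092384034927488008542084416523286654459997954433748662786981888 (by decide +kernel)
               (CovZ.n2 (-26952, -264) (by decide +kernel)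
                (CovZ.n2 (-26928, -264) (by decide +kernel)
                 (CovZ.n2 (-26940, -276) (by decide +kernel)
                  (CovZ.leaf K2_ok TB_l9093 _)
                  (CovZ.leaf K2_ok TB_l9094 _))
                 (CovZ.leaf K2_ok TB_l9095 _))
                (CovZ.n1 (-26952, -288) (by decide +kernel)
                 (CovZ.leaf K2_ok TB_l9096 _)
                 (CovZ.n1 (-26940, -276) (by decide +kernel)
                  (CovZ.leaf K2_ok TB_l9097 _)
                  (CovZ.leaf K2_ok TB_l9098 _)))))
              (CovZ.n1 (-26904, -264) (by decide +kernel)
               (CovZ.subM 5233078947958641770380818161444231062140187388841789696828480742249241498937327031874200725647881659579659196579840 (by decide +kernel)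
                (CovZ.n2 (-26904, -288) (by decide +kernel)
                 (CovZ.n2 (-26916, -276) (by decide +kernel)
                  (CovZ.leaf K2_ok TB_l9099 _)
                  (CovZ.leaf K2_ok TB_l9100 _))
                 (CovZ.n1 (-26892, -276) (by decide +kernel)
                  (CovZ.leaf K2_ok TB_l9101 _)
                  (CovZ.leaf K2_ok TB_l9102 _))))
               (CovZ.n1 (-26928, -264) (by decide +kernel)
                (CovZ.leaf K2_ok TB_l9103 _)
                (CovZ.leaf K2_ok TB_l9104 _))))))))
         (CovZ.n1 (-26976, -96) (by decide +kernel)
          (CovZ.n2 (-26880, -96) (by decide +kernel)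
           (CovZ.n2 (-26928, -144) (by decide +kernel)
            (CovZ.leaf K2_ok TB_l9105 _)
            (CovZ.n1 (-26880, -144) (by decide +kernel)
             (CovZ.leaf K2_ok TB_l9106 _)
             (CovZ.leaf K2_ok TB_l9107 _)))
           (CovZ.leaf K2_ok TB_l9108 _))
          (CovZ.n1 (-26976, -192) (by decide +kernel)
           (CovZ.n2 (-27024, -144) (by decide +kernel)
            (CovZ.leaf K2_ok TB_l9109 _)
            (CovZ.n1 (-27024, -192) (by decide +kernel)
             (CovZ.leaf K2_ok TB_l9110 _)
             (CovZ.leaf K2_ok TB_l9111 _)))
           (CovZ.n1 (-26928, -144) (by decide +kernel)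
            (CovZ.n2 (-26928, -192) (by decide +kernel)
             (CovZ.leaf K2_ok TB_l9112 _)
             (CovZ.leaf K2_ok TB_l9113 _))
            (CovZ.leaf K2_ok TB_l9114 _)))))
        (CovZ.subM 324204940119393826745660869112769562208162288452510569371402024621269166375458034117969449911184731357391258907767226368 (by decide +kernel)
         (CovZ.n1 (-27072, -384) (by decide +kernel)
          TB_u31
          TB_u32))))

theorem TB_u35 : CovZ TB_M (toL (selN TB_LN 10370810048108902586928704095640570203821414157994003668356886227631907963946521177417691254102013743577274268208288776192)) [0, 7, 6, 1] (-25728, -384) (-25536, -192) (-25728, 0) :=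
    (CovZ.n2 (-25728, -192) (by decide +kernel)
         (CovZ.n2 (-25632, -96) (by decide +kernel)
          (CovZ.subM 10330299855509177076759577028410315678559550764994482130836946659218349532947844448793688412630100629268692685298667094016 (by decide +kernel)
           (CovZ.n2 (-25632, -192) (by decide +kernel)
            (CovZ.n2 (-25680, -144) (by decide +kernel)
             (CovZ.subM 1300266204499365802933128911693913695062908458685425506373944184423426225995637518296332444766502370585999498417274880 (by decide +kernel)
              (CovZ.n2 (-25632, -144) (by decide +kernel)
               (CovZ.badM (by decide +kernel))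
               (CovZ.n1 (-25656, -120) (by decide +kernel)
                (CovZ.n2 (-25632, -120) (by decide +kernel)
                 (CovZ.badM (by decide +kernel))
                 (CovZ.n1 (-25644, -108) (by decide +kernel)
                  (CovZ.leaf K2_ok TB_l11899 _)
                  (CovZ.leaf K2_ok TB_l11900 _)))
                (CovZ.badM (by decide +kernel)))))
             (CovZ.badM (by decide +kernel)))
            (CovZ.subM 1300266204499365802933128895397625883438450973505765726189025386820507735534159798826281349320215444286481490939740160 (by decide +kernel)
             (CovZ.n1 (-25584, -144) (by decide +kernel)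
              (CovZ.badM (by decide +kernel))
              (CovZ.n1 (-25632, -144) (by decide +kernel)
               (CovZ.n2 (-25608, -120) (by decide +kernel)
                (CovZ.badM (by decide +kernel))
                (CovZ.n1 (-25632, -120) (by decide +kernel)
                 (CovZ.n2 (-25620, -108) (by decide +kernel)
                  (CovZ.leaf K2_ok TB_l11901 _)
                  (CovZ.leaf K2_ok TB_l11902 _))
                 (CovZ.badM (by decide +kernel))))
               (CovZ.badM (by decide +kernel)))))))
          (CovZ.n1 (-25728, -96) (by decide +kernel)
           (CovZ.n2 (-25680, -48) (by decide +kernel)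
            (CovZ.subM 10370805122688885901060336205007539054598124546361258806410991677584671687341427511104536153912642884326087258460741713920 (by decide +kernel)
             (CovZ.n2 (-25680, -96) (by decide +kernel)
              (CovZ.n2 (-25704, -72) (by decide +kernel)
               (CovZ.leaf K2_ok TB_l11903 _)
               (CovZ.n1 (-25704, -96) (by decide +kernel)
                (CovZ.leaf K2_ok TB_l11904 _)
                (CovZ.leaf K2_ok TB_l11905 _)))
              (CovZ.n1 (-25656, -72) (by decide +kernel)
               (CovZ.n2 (-25656, -96) (by decide +kernel)
                (CovZ.leaf K2_ok TB_l11906 _)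
                (CovZ.leaf K2_ok TB_l11907 _))
               (CovZ.leaf K2_ok TB_l11908 _))))
            (CovZ.n1 (-25728, -48) (by decide +kernel)
             (CovZ.leaf K2_ok TB_l11909 _)
             (CovZ.n1 (-25704, -72) (by decide +kernel)
              (CovZ.leaf K2_ok TB_l11910 _)
              (CovZ.leaf K2_ok TB_l11911 _))))
           (CovZ.subM 10370805122688885828828568269773353264120610998028930836987924391767224186816779005022248308352452395792788100451412230144 (by decide +kernel)
            (CovZ.n1 (-25680, -144) (by decide +kernel)
             (CovZ.n2 (-25728, -144) (by decide +kernel)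
              (CovZ.n2 (-25704, -120) (by decide +kernel)
               (CovZ.subM 10328999589304677710956643899498621764864487856535796705330572915901181639095633254020653622830659442173480908649354231808 (by decide +kernel)
                (CovZ.n2 (-25704, -144) (by decide +kernel)
                 (CovZ.n2 (-25716, -132) (by decide +kernel)
                  (CovZ.n2 (-25704, -132) (by decide +kernel)
                   (CovZ.badM (by decide +kernel))
                   (CovZ.leaf K2_ok TB_l39733 _))
                  (CovZ.badM (by decide +kernel)))
                 (CovZ.subM 4074071952668972172536891376818957189358469161116315246533823544034077874900896261471207424 (by decide +kernel)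
                  (CovZ.n1 (-25692, -132) (by decide +kernel)
                   (CovZ.badM (by decide +kernel))
                   (CovZ.n1 (-25704, -132) (by decide +kernel)
                    (CovZ.n2 (-25698, -126) (by decide +kernel)
                     (CovZ.badM (by decide +kernel))
                     (CovZ.leaf K2_ok TB_l39734 _))
                    (CovZ.badM (by decide +kernel)))))))
               (CovZ.n1 (-25728, -120) (by decide +kernel)
                (CovZ.leaf K2_ok TB_l11912 _)
                (CovZ.n1 (-25716, -132) (by decide +kernel)
                 (CovZ.n2 (-25728, -132) (by decide +kernel)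
                  (CovZ.leaf K2_ok TB_l39735 _)
                  (CovZ.badM (by decide +kernel)))
                 (CovZ.leaf K2_ok TB_l39736 _))))
              (CovZ.badM (by decide +kernel)))
             (CovZ.n1 (-25680, -96) (by decide +kernel)
              (CovZ.n2 (-25656, -120) (by decide +kernel)
               (CovZ.n2 (-25680, -120) (by decide +kernel)
                (CovZ.n2 (-25668, -108) (by decide +kernel)
                 (CovZ.leaf K2_ok TB_l11913 _)
                 (CovZ.leaf K2_ok TB_l11914 _))
                (CovZ.subM 4074071952668972172536891376818756322102936787331872501272280898708762599526673412366794752 (by decide +kernel)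
                 (CovZ.n1 (-25668, -132) (by decide +kernel)
                  (CovZ.n2 (-25680, -132) (by decide +kernel)
                   (CovZ.n2 (-25674, -126) (by decide +kernel)
                    (CovZ.badM (by decide +kernel))
                    (CovZ.leaf K2_ok TB_l39737 _))
                   (CovZ.badM (by decide +kernel)))
                  (CovZ.leaf K2_ok TB_l39738 _))))
               (CovZ.n1 (-25656, -96) (by decide +kernel)
                (CovZ.n2 (-25644, -108) (by decide +kernel)
                 (CovZ.leaf K2_ok TB_l11915 _)
                 (CovZ.leaf K2_ok TB_l11916 _))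
                (CovZ.n1 (-25668, -108) (by decide +kernel)
                 (CovZ.leaf K2_ok TB_l11917 _)
                 (CovZ.leaf K2_ok TB_l11918 _))))
              (CovZ.n1 (-25704, -120) (by decide +kernel)
               (CovZ.n2 (-25704, -96) (by decide +kernel)
                (CovZ.leaf K2_ok TB_l11919 _)
                (CovZ.leaf K2_ok TB_l11920 _))
               (CovZ.n1 (-25680, -120) (by decide +kernel)
                (CovZ.subM 4074071952668972172536891376818957189358469161116315246533823544034077874900896261471207424 (by decide +kernel)
                 (CovZ.n2 (-25692, -132) (by decide +kernel)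
                  (CovZ.leaf K2_ok TB_l39739 _)
                  (CovZ.n1 (-25680, -132) (by decide +kernel)
                   (CovZ.badM (by decide +kernel))
                   (CovZ.n1 (-25686, -126) (by decide +kernel)
                    (CovZ.leaf K2_ok TB_l39740 _)
                    (CovZ.badM (by decide +kernel))))))
                (CovZ.leaf K2_ok TB_l11921 _))))))))
         (CovZ.badM (by decide +kernel)))

theorem TB_u36 : CovZ TB_M (toL (selN TB_LN 10370810048108902586928704095640570203821414157994003668356886227631907963946521177417691254102013743577274268208288776192)) [0, 7, 6, 1] (-25536, -192) (-25344, 0) (-25728, 0) :=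
    (CovZ.n1 (-25536, 0) (by decide +kernel)
         (CovZ.subM 1418477032885500922178368817880907319305530025249318739140730259349976808403042071066393862856553962884140592753803264 (by decide +kernel)
          (CovZ.n2 (-25440, -96) (by decide +kernel)
           (CovZ.n2 (-25536, -96) (by decide +kernel)
            (CovZ.n2 (-25488, -48) (by decide +kernel)
             (CovZ.n2 (-25488, -96) (by decide +kernel)
              (CovZ.n2 (-25512, -72) (by decide +kernel)
               (CovZ.n2 (-25488, -72) (by decide +kernel)
                (CovZ.n2 (-25500, -84) (by decide +kernel)
                 (CovZ.leaf K2_ok TB_l11922 _)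
                 (CovZ.leaf K2_ok TB_l11923 _))
                (CovZ.leaf K2_ok TB_l11924 _))
               (CovZ.n1 (-25512, -96) (by decide +kernel)
                (CovZ.leaf K2_ok TB_l11925 _)
                (CovZ.n1 (-25500, -84) (by decide +kernel)
                 (CovZ.leaf K2_ok TB_l11926 _)
                 (CovZ.leaf K2_ok TB_l11927 _))))
              (CovZ.n1 (-25464, -72) (by decide +kernel)
               (CovZ.subM 200867255532373784442745261542645325315275374222849104412672 (by decide +kernel)
                (CovZ.n2 (-25464, -96) (by decide +kernel)
                 (CovZ.n2 (-25476, -84) (by decide +kernel)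
                  (CovZ.leaf K2_ok TB_l11928 _)
                  (CovZ.leaf K2_ok TB_l11929 _))
                 (CovZ.n1 (-25452, -84) (by decide +kernel)
                  (CovZ.leaf K2_ok TB_l39741 _)
                  (CovZ.leaf K2_ok TB_l39742 _))))
               (CovZ.n1 (-25488, -72) (by decide +kernel)
                (CovZ.leaf K2_ok TB_l11930 _)
                (CovZ.leaf K2_ok TB_l11931 _))))
             (CovZ.n1 (-25536, -48) (by decide +kernel)
              (CovZ.n2 (-25512, -24) (by decide +kernel)
               (CovZ.leaf K2_ok TB_l11932 _)
               (CovZ.leaf K2_ok TB_l11933 _))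
              (CovZ.n1 (-25512, -72) (by decide +kernel)
               (CovZ.n2 (-25536, -72) (by decide +kernel)
                (CovZ.leaf K2_ok TB_l11934 _)
                (CovZ.leaf K2_ok TB_l11935 _))
               (CovZ.leaf K2_ok TB_l11936 _))))
            (CovZ.subM 60708402882054033466233385455490498206359656465640902684444453079714981761767178240 (by decide +kernel)
             (CovZ.n1 (-25488, -144) (by decide +kernel)
              (CovZ.n2 (-25536, -144) (by decide +kernel)
               (CovZ.n2 (-25512, -120) (by decide +kernel)
                (CovZ.badM (by decide +kernel))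
                (CovZ.n1 (-25536, -120) (by decide +kernel)
                 (CovZ.n2 (-25524, -108) (by decide +kernel)
                  (CovZ.badM (by decide +kernel))
                  (CovZ.leaf K2_ok TB_l39743 _))
                 (CovZ.badM (by decide +kernel))))
               (CovZ.badM (by decide +kernel)))
              (CovZ.n1 (-25488, -96) (by decide +kernel)
               (CovZ.badM (by decide +kernel))
               (CovZ.n1 (-25512, -120) (by decide +kernel)
                (CovZ.n2 (-25512, -96) (by decide +kernel)
                 (CovZ.badM (by decide +kernel))
                 (CovZ.n1 (-25524, -108) (by decide +kernel)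
                  (CovZ.leaf K2_ok TB_l39744 _)
                  (CovZ.badM (by decide +kernel))))
                (CovZ.badM (by decide +kernel)))))))
           (CovZ.n1 (-25440, 0) (by decide +kernel)
            (CovZ.n2 (-25392, -48) (by decide +kernel)
             (CovZ.n2 (-25440, -48) (by decide +kernel)
              (CovZ.n2 (-25416, -24) (by decide +kernel)
               (CovZ.leaf K2_ok TB_l11937 _)
               (CovZ.leaf K2_ok TB_l11938 _))
              (CovZ.subM 1260864198284695566560864517390386119276331573161338348832679411769839179446966821540636055308477001357944094808080384 (by decide +kernel)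
               (CovZ.n1 (-25416, -72) (by decide +kernel)
                (CovZ.n2 (-25440, -72) (by decide +kernel)
                 (CovZ.leaf K2_ok TB_l11939 _)
                 (CovZ.n1 (-25428, -84) (by decide +kernel)
                  (CovZ.leaf K2_ok TB_l39745 _)
                  (CovZ.badM (by decide +kernel))))
                (CovZ.n1 (-25416, -48) (by decide +kernel)
                 (CovZ.leaf K2_ok TB_l11940 _)
                 (CovZ.leaf K2_ok TB_l11941 _)))))
             (CovZ.n1 (-25392, 0) (by decide +kernel)
              (CovZ.n2 (-25368, -24) (by decide +kernel)
               (CovZ.leaf K2_ok TB_l11942 _)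
               (CovZ.leaf K2_ok TB_l11943 _))
              (CovZ.n1 (-25416, -24) (by decide +kernel)
               (CovZ.leaf K2_ok TB_l11944 _)
               (CovZ.leaf K2_ok TB_l11945 _))))
            (CovZ.n1 (-25488, -48) (by decide +kernel)
             (CovZ.n2 (-25488, 0) (by decide +kernel)
              (CovZ.leaf K2_ok TB_l11946 _)
              (CovZ.n1 (-25512, -24) (by decide +kernel)
               (CovZ.leaf K2_ok TB_l11947 _)
               (CovZ.leaf K2_ok TB_l11948 _)))
             (CovZ.n1 (-25440, -48) (by decide +kernel)
              (CovZ.n2 (-25464, -72) (by decide +kernel)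
               (CovZ.n2 (-25464, -48) (by decide +kernel)
                (CovZ.leaf K2_ok TB_l11949 _)
                (CovZ.leaf K2_ok TB_l11950 _))
               (CovZ.n1 (-25440, -72) (by decide +kernel)
                (CovZ.n2 (-25452, -84) (by decide +kernel)
                 (CovZ.leaf K2_ok TB_l39746 _)
                 (CovZ.leaf K2_ok TB_l39747 _))
                (CovZ.leaf K2_ok TB_l11951 _)))
              (CovZ.n1 (-25464, -24) (by decide +kernel)
               (CovZ.leaf K2_ok TB_l11952 _)
               (CovZ.leaf K2_ok TB_l11953 _)))))))
         (CovZ.n1 (-25632, -96) (by decide +kernel)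
          (CovZ.n2 (-25632, 0) (by decide +kernel)
           (CovZ.subM 1457879039100243390318568434148013338279783084041189921464594774332988279983435201544120220997776767427235073933443072 (by decide +kernel)
            (CovZ.n2 (-25584, -48) (by decide +kernel)
             (CovZ.n2 (-25632, -48) (by decide +kernel)
              (CovZ.n2 (-25608, -24) (by decide +kernel)
               (CovZ.leaf K2_ok TB_l11954 _)
               (CovZ.leaf K2_ok TB_l11955 _))
              (CovZ.n1 (-25608, -72) (by decide +kernel)
               (CovZ.leaf K2_ok TB_l11956 _)
               (CovZ.leaf K2_ok TB_l11957 _)))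
             (CovZ.n1 (-25584, 0) (by decide +kernel)
              (CovZ.leaf K2_ok TB_l11958 _)
              (CovZ.n1 (-25608, -24) (by decide +kernel)
               (CovZ.leaf K2_ok TB_l11959 _)
               (CovZ.leaf K2_ok TB_l11960 _)))))
           (CovZ.n1 (-25680, -48) (by decide +kernel)
            (CovZ.n2 (-25680, 0) (by decide +kernel)
             (CovZ.leaf K2_ok TB_l11961 _)
             (CovZ.leaf K2_ok TB_l11962 _))
            (CovZ.subM 1457879039100243390318568450444301149904240569220849701649513571935906770444912921014171316444063693726753081410977792 (by decide +kernel)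
             (CovZ.n1 (-25632, -48) (by decide +kernel)
              (CovZ.n2 (-25656, -72) (by decide +kernel)
               (CovZ.leaf K2_ok TB_l11963 _)
               (CovZ.n1 (-25632, -72) (by decide +kernel)
                (CovZ.leaf K2_ok TB_l11964 _)
                (CovZ.leaf K2_ok TB_l11965 _)))
              (CovZ.leaf K2_ok TB_l11966 _)))))
          (CovZ.subM 1457879039100243390318568430073937500273026460046156705722024802127247126106106879276102764363576322854513006782447616 (by decide +kernel)
           (CovZ.n1 (-25536, -96) (by decide +kernel)
            (CovZ.subM 1300266204499365802933128895397625883438450973505765726189025386820507735534159798826281349320215444286481490939740160 (by decide +kernel)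
             (CovZ.n2 (-25584, -144) (by decide +kernel)
              (CovZ.n2 (-25584, -96) (by decide +kernel)
               (CovZ.n2 (-25560, -120) (by decide +kernel)
                (CovZ.n2 (-25584, -120) (by decide +kernel)
                 (CovZ.n2 (-25572, -108) (by decide +kernel)
                  (CovZ.leaf K2_ok TB_l39748 _)
                  (CovZ.leaf K2_ok TB_l39749 _))
                 (CovZ.badM (by decide +kernel)))
                (CovZ.n1 (-25560, -96) (by decide +kernel)
                 (CovZ.n2 (-25548, -108) (by decide +kernel)
                  (CovZ.leaf K2_ok TB_l39750 _)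
                  (CovZ.leaf K2_ok TB_l39751 _))
                 (CovZ.n1 (-25572, -108) (by decide +kernel)
                  (CovZ.leaf K2_ok TB_l39752 _)
                  (CovZ.n1 (-25560, -108) (by decide +kernel)
                   (CovZ.n2 (-25566, -114) (by decide +kernel)
                    (CovZ.leaf K2_ok TB_l39753 _)
                    (CovZ.leaf K2_ok TB_l39754 _))
                   (CovZ.leaf K2_ok TB_l39755 _)))))
               (CovZ.n1 (-25608, -120) (by decide +kernel)
                (CovZ.n2 (-25608, -96) (by decide +kernel)
                 (CovZ.leaf K2_ok TB_l11967 _)
                 (CovZ.n1 (-25620, -108) (by decide +kernel)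
                  (CovZ.leaf K2_ok TB_l11968 _)
                  (CovZ.leaf K2_ok TB_l11969 _)))
                (CovZ.n1 (-25584, -120) (by decide +kernel)
                 (CovZ.badM (by decide +kernel))
                 (CovZ.n1 (-25596, -108) (by decide +kernel)
                  (CovZ.leaf K2_ok TB_l39756 _)
                  (CovZ.leaf K2_ok TB_l11970 _)))))
              (CovZ.n1 (-25536, -144) (by decide +kernel)
               (CovZ.badM (by decide +kernel))
               (CovZ.n1 (-25560, -120) (by decide +kernel)
                (CovZ.n2 (-25536, -120) (by decide +kernel)
                 (CovZ.badM (by decide +kernel))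
                 (CovZ.n1 (-25548, -108) (by decide +kernel)
                  (CovZ.n2 (-25536, -108) (by decide +kernel)
                   (CovZ.badM (by decide +kernel))
                   (CovZ.n1 (-25542, -102) (by decide +kernel)
                    (CovZ.leaf K2_ok TB_l39757 _)
                    (CovZ.badM (by decide +kernel))))
                  (CovZ.n1 (-25548, -120) (by decide +kernel)
                   (CovZ.n2 (-25554, -114) (by decide +kernel)
                    (CovZ.badM (by decide +kernel))
                    (CovZ.leaf K2_ok TB_l39758 _))
                   (CovZ.badM (by decide +kernel)))))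
                (CovZ.badM (by decide +kernel))))))
            (CovZ.n1 (-25584, -48) (by decide +kernel)
             (CovZ.n2 (-25536, -48) (by decide +kernel)
              (CovZ.n2 (-25560, -72) (by decide +kernel)
               (CovZ.leaf K2_ok TB_l11971 _)
               (CovZ.n1 (-25536, -72) (by decide +kernel)
                (CovZ.n2 (-25548, -84) (by decide +kernel)
                 (CovZ.leaf K2_ok TB_l11972 _)
                 (CovZ.leaf K2_ok TB_l11973 _))
                (CovZ.leaf K2_ok TB_l11974 _)))
              (CovZ.leaf K2_ok TB_l11975 _))
             (CovZ.n1 (-25584, -96) (by decide +kernel)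
              (CovZ.n2 (-25608, -72) (by decide +kernel)
               (CovZ.n2 (-25584, -72) (by decide +kernel)
                (CovZ.leaf K2_ok TB_l11976 _)
                (CovZ.leaf K2_ok TB_l11977 _))
               (CovZ.n1 (-25608, -96) (by decide +kernel)
                (CovZ.leaf K2_ok TB_l11978 _)
                (CovZ.leaf K2_ok TB_l11979 _)))
              (CovZ.n1 (-25560, -72) (by decide +kernel)
               (CovZ.n2 (-25560, -96) (by decide +kernel)
                (CovZ.leaf K2_ok TB_l11980 _)
                (CovZ.n1 (-25548, -84) (by decide +kernel)
                 (CovZ.leaf K2_ok TB_l11981 _)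
                 (CovZ.leaf K2_ok TB_l11982 _)))
               (CovZ.n1 (-25584, -72) (by decide +kernel)
                (CovZ.leaf K2_ok TB_l11983 _)
                (CovZ.leaf K2_ok TB_l11984 _)))))))))

theorem TB_u37 : CovZ TB_M (toL (selN TB_LN 10370810048108902586928704095640570203821414157994003668356886227631907963946521177417691254102013743577274268208288776192)) [0, 7, 6, 1] (-26112, 0) (-25920, -192) (-25728, 0) :=
    (CovZ.n2 (-25920, 0) (by decide +kernel)
         (CovZ.n2 (-25824, -96) (by decide +kernel)
          (CovZ.n2 (-25920, -96) (by decide +kernel)
           (CovZ.n2 (-25872, -48) (by decide +kernel)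
            (CovZ.n2 (-25872, -96) (by decide +kernel)
             (CovZ.leaf K2_ok TB_l11985 _)
             (CovZ.n1 (-25848, -72) (by decide +kernel)
              (CovZ.leaf K2_ok TB_l11986 _)
              (CovZ.leaf K2_ok TB_l11987 _)))
            (CovZ.n1 (-25920, -48) (by decide +kernel)
             (CovZ.leaf K2_ok TB_l11988 _)
             (CovZ.leaf K2_ok TB_l11989 _)))
           (CovZ.n1 (-25872, -144) (by decide +kernel)
            (CovZ.n2 (-25920, -144) (by decide +kernel)
             (CovZ.n2 (-25896, -120) (by decide +kernel)
              (CovZ.n2 (-25896, -144) (by decide +kernel)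
               (CovZ.leaf K2_ok TB_l11990 _)
               (CovZ.n1 (-25884, -132) (by decide +kernel)
                (CovZ.leaf K2_ok TB_l11991 _)
                (CovZ.leaf K2_ok TB_l11992 _)))
              (CovZ.n1 (-25920, -120) (by decide +kernel)
               (CovZ.leaf K2_ok TB_l11993 _)
               (CovZ.leaf K2_ok TB_l11994 _)))
             (CovZ.subM 10370765643725646350785757840566887828097492825260411351318348799043649546011979231185303838033743902856139375048273166336 (by decide +kernel)
              (CovZ.n1 (-25896, -168) (by decide +kernel)
               (CovZ.n2 (-25920, -168) (by decide +kernel)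
                (CovZ.n2 (-25908, -156) (by decide +kernel)
                 (CovZ.subM 4809815209520810450717656262225510800860429954437148988717723081039098071149099019714266785220199128167413186560 (by decide +kernel)
                  (CovZ.n2 (-25908, -168) (by decide +kernel)
                   (CovZ.n2 (-25914, -162) (by decide +kernel)
                    (CovZ.leaf K2_ok TB_l39759 _)
                    (CovZ.badM (by decide +kernel)))
                   (CovZ.n1 (-25902, -162) (by decide +kernel)
                    (CovZ.badM (by decide +kernel))
                    (CovZ.leaf K2_ok TB_l39760 _))))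
                 (CovZ.n1 (-25920, -156) (by decide +kernel)
                  (CovZ.leaf K2_ok TB_l39761 _)
                  (CovZ.n1 (-25914, -162) (by decide +kernel)
                   (CovZ.n2 (-25920, -162) (by decide +kernel)
                    (CovZ.leaf K2_ok TB_l39762 _)
                    (CovZ.badM (by decide +kernel)))
                   (CovZ.leaf K2_ok TB_l39763 _))))
                (CovZ.badM (by decide +kernel)))
               (CovZ.n1 (-25896, -144) (by decide +kernel)
                (CovZ.n2 (-25884, -156) (by decide +kernel)
                 (CovZ.n2 (-25896, -156) (by decide +kernel)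
                  (CovZ.leaf K2_ok TB_l39764 _)
                  (CovZ.badM (by decide +kernel)))
                 (CovZ.leaf K2_ok TB_l39765 _))
                (CovZ.n1 (-25908, -156) (by decide +kernel)
                 (CovZ.leaf K2_ok TB_l39766 _)
                 (CovZ.n1 (-25896, -156) (by decide +kernel)
                  (CovZ.n2 (-25902, -162) (by decide +kernel)
                   (CovZ.leaf K2_ok TB_l39767 _)
                   (CovZ.badM (by decide +kernel)))
                  (CovZ.n1 (-25902, -150) (by decide +kernel)
                   (CovZ.leaf K2_ok TB_l39768 _)
                   (CovZ.leaf K2_ok TB_l39769 _))))))))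
            (CovZ.n1 (-25872, -96) (by decide +kernel)
             (CovZ.n2 (-25848, -120) (by decide +kernel)
              (CovZ.n2 (-25872, -120) (by decide +kernel)
               (CovZ.leaf K2_ok TB_l11995 _)
               (CovZ.leaf K2_ok TB_l11996 _))
              (CovZ.leaf K2_ok TB_l11997 _))
             (CovZ.n1 (-25896, -120) (by decide +kernel)
              (CovZ.leaf K2_ok TB_l11998 _)
              (CovZ.n1 (-25872, -120) (by decide +kernel)
               (CovZ.n2 (-25884, -132) (by decide +kernel)
                (CovZ.leaf K2_ok TB_l11999 _)
                (CovZ.leaf K2_ok TB_l12000 _))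
               (CovZ.leaf K2_ok TB_l12001 _))))))
          (CovZ.n1 (-25824, 0) (by decide +kernel)
           (CovZ.n2 (-25776, -48) (by decide +kernel)
            (CovZ.n2 (-25824, -48) (by decide +kernel)
             (CovZ.leaf K2_ok TB_l12002 _)
             (CovZ.leaf K2_ok TB_l12003 _))
            (CovZ.n1 (-25776, 0) (by decide +kernel)
             (CovZ.leaf K2_ok TB_l12004 _)
             (CovZ.leaf K2_ok TB_l12005 _)))
           (CovZ.n1 (-25872, -48) (by decide +kernel)
            (CovZ.n2 (-25872, 0) (by decide +kernel)
             (CovZ.leaf K2_ok TB_l12006 _)
             (CovZ.leaf K2_ok TB_l12007 _))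
            (CovZ.n1 (-25824, -48) (by decide +kernel)
             (CovZ.n2 (-25848, -72) (by decide +kernel)
              (CovZ.leaf K2_ok TB_l12008 _)
              (CovZ.leaf K2_ok TB_l12009 _))
             (CovZ.leaf K2_ok TB_l12010 _)))))
         (CovZ.n1 (-26016, -96) (by decide +kernel)
          (CovZ.n2 (-26016, 0) (by decide +kernel)
           (CovZ.n2 (-25968, -48) (by decide +kernel)
            (CovZ.n2 (-26016, -48) (by decide +kernel)
             (CovZ.leaf K2_ok TB_l12011 _)
             (CovZ.leaf K2_ok TB_l12012 _))
            (CovZ.leaf K2_ok TB_l12013 _))
           (CovZ.n1 (-26064, -48) (by decide +kernel)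
            (CovZ.leaf K2_ok TB_l12014 _)
            (CovZ.n1 (-26016, -48) (by decide +kernel)
             (CovZ.leaf K2_ok TB_l12015 _)
             (CovZ.leaf K2_ok TB_l12016 _))))
          (CovZ.n1 (-25920, -96) (by decide +kernel)
           (CovZ.n2 (-25968, -144) (by decide +kernel)
            (CovZ.n2 (-25968, -96) (by decide +kernel)
             (CovZ.n2 (-25944, -120) (by decide +kernel)
              (CovZ.n2 (-25968, -120) (by decide +kernel)
               (CovZ.leaf K2_ok TB_l12017 _)
               (CovZ.leaf K2_ok TB_l12018 _))
              (CovZ.leaf K2_ok TB_l12019 _))
             (CovZ.n1 (-25992, -120) (by decide +kernel)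
              (CovZ.leaf K2_ok TB_l12020 _)
              (CovZ.n1 (-25968, -120) (by decide +kernel)
               (CovZ.leaf K2_ok TB_l12021 _)
               (CovZ.leaf K2_ok TB_l12022 _))))
            (CovZ.n1 (-25920, -144) (by decide +kernel)
             (CovZ.subM 10370805045731842745264970119606987971711297904999681816765016747533213220964584502265783671775238363274978789315764551680 (by decide +kernel)
              (CovZ.n2 (-25944, -168) (by decide +kernel)
               (CovZ.n2 (-25944, -144) (by decide +kernel)
                (CovZ.n2 (-25932, -156) (by decide +kernel)
                 (CovZ.leaf K2_ok TB_l39770 _)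
                 (CovZ.leaf K2_ok TB_l39771 _))
                (CovZ.n1 (-25956, -156) (by decide +kernel)
                 (CovZ.leaf K2_ok TB_l39772 _)
                 (CovZ.leaf K2_ok TB_l39773 _)))
               (CovZ.n1 (-25920, -168) (by decide +kernel)
                (CovZ.badM (by decide +kernel))
                (CovZ.n1 (-25932, -156) (by decide +kernel)
                 (CovZ.leaf K2_ok TB_l39774 _)
                 (CovZ.subM 40347659154923442921511186539142274114524366634254171395751687201877654991124542741851674047439267429753859914489397248 (by decide +kernel)
                  (CovZ.n1 (-25932, -168) (by decide +kernel)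
                   (CovZ.n2 (-25938, -162) (by decide +kernel)
                    (CovZ.leaf K2_ok TB_l39775 _)
                    (CovZ.n1 (-25938, -168) (by decide +kernel)
                     (CovZ.leaf K2_ok TB_l39776 _)
                     (CovZ.leaf K2_ok TB_l39777 _)))
                   (CovZ.n1 (-25926, -162) (by decide +kernel)
                    (CovZ.badM (by decide +kernel))
                    (CovZ.leaf K2_ok TB_l39778 _))))))))
             (CovZ.n1 (-25944, -120) (by decide +kernel)
              (CovZ.n2 (-25920, -120) (by decide +kernel)
               (CovZ.leaf K2_ok TB_l12023 _)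
               (CovZ.leaf K2_ok TB_l12024 _))
              (CovZ.n1 (-25944, -144) (by decide +kernel)
               (CovZ.leaf K2_ok TB_l12025 _)
               (CovZ.leaf K2_ok TB_l12026 _)))))
           (CovZ.n1 (-25968, -48) (by decide +kernel)
            (CovZ.n2 (-25920, -48) (by decide +kernel)
             (CovZ.n2 (-25944, -72) (by decide +kernel)
              (CovZ.leaf K2_ok TB_l12027 _)
              (CovZ.leaf K2_ok TB_l12028 _))
             (CovZ.leaf K2_ok TB_l12029 _))
            (CovZ.n1 (-25968, -96) (by decide +kernel)
             (CovZ.leaf K2_ok TB_l12030 _)
             (CovZ.n1 (-25944, -72) (by decide +kernel)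
              (CovZ.leaf K2_ok TB_l12031 _)
              (CovZ.leaf K2_ok TB_l12032 _)))))))

theorem TB_u38 : CovZ TB_M (toL (selN TB_LN 10370810048108902586928704095640570203821414157994003668356886227631907963946521177417691254102013743577274268208288776192)) [0, 7, 6, 1] (-25920, -192) (-25728, -384) (-25728, 0) :=
    (CovZ.n1 (-25728, -192) (by decide +kernel)
         (CovZ.badM (by decide +kernel))
         (CovZ.n1 (-25824, -96) (by decide +kernel)
          (CovZ.n2 (-25728, -96) (by decide +kernel)
           (CovZ.subM 10370805122688886187187727018222026953311375888980015336451203949314214761896766936945664391232504275100424502152917958656 (by decide +kernel)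
            (CovZ.n2 (-25776, -144) (by decide +kernel)
             (CovZ.n2 (-25776, -96) (by decide +kernel)
              (CovZ.n2 (-25752, -120) (by decide +kernel)
               (CovZ.n2 (-25776, -120) (by decide +kernel)
                (CovZ.leaf K2_ok TB_l12033 _)
                (CovZ.n1 (-25764, -132) (by decide +kernel)
                 (CovZ.leaf K2_ok TB_l12034 _)
                 (CovZ.leaf K2_ok TB_l12035 _)))
               (CovZ.n1 (-25752, -96) (by decide +kernel)
                (CovZ.leaf K2_ok TB_l12036 _)
                (CovZ.leaf K2_ok TB_l12037 _)))
              (CovZ.n1 (-25800, -120) (by decide +kernel)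
               (CovZ.leaf K2_ok TB_l12038 _)
               (CovZ.n1 (-25776, -120) (by decide +kernel)
                (CovZ.n2 (-25788, -132) (by decide +kernel)
                 (CovZ.leaf K2_ok TB_l12039 _)
                 (CovZ.leaf K2_ok TB_l12040 _))
                (CovZ.leaf K2_ok TB_l12041 _))))
             (CovZ.n1 (-25728, -144) (by decide +kernel)
              (CovZ.badM (by decide +kernel))
              (CovZ.n1 (-25752, -120) (by decide +kernel)
               (CovZ.n2 (-25728, -120) (by decide +kernel)
                (CovZ.n2 (-25740, -132) (by decide +kernel)
                 (CovZ.leaf K2_ok TB_l12042 _)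
                 (CovZ.n1 (-25728, -132) (by decide +kernel)
                  (CovZ.badM (by decide +kernel))
                  (CovZ.leaf K2_ok TB_l39779 _)))
                (CovZ.leaf K2_ok TB_l12043 _))
               (CovZ.subM 10329196522378634696926623941211148862253504556675354103540998165314492097547952054631050372445955833406343076332169068544 (by decide +kernel)
                (CovZ.n1 (-25752, -144) (by decide +kernel)
                 (CovZ.n2 (-25764, -132) (by decide +kernel)
                  (CovZ.leaf K2_ok TB_l12044 _)
                  (CovZ.subM 157608024803943823734974154927149367258764651620601118672930946840976093945551581716055936862770091412585191789559808 (by decide +kernel)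
                   (CovZ.n1 (-25764, -144) (by decide +kernel)
                    (CovZ.n2 (-25770, -138) (by decide +kernel)
                     (CovZ.leaf K2_ok TB_l39780 _)
                     (CovZ.leaf K2_ok TB_l39781 _))
                    (CovZ.n1 (-25758, -138) (by decide +kernel)
                     (CovZ.leaf K2_ok TB_l39782 _)
                     (CovZ.leaf K2_ok TB_l39783 _)))))
                 (CovZ.n1 (-25740, -132) (by decide +kernel)
                  (CovZ.badM (by decide +kernel))
                  (CovZ.leaf K2_ok TB_l12045 _))))))))
           (CovZ.n1 (-25776, -48) (by decide +kernel)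
            (CovZ.n2 (-25728, -48) (by decide +kernel)
             (CovZ.n2 (-25752, -72) (by decide +kernel)
              (CovZ.leaf K2_ok TB_l12046 _)
              (CovZ.leaf K2_ok TB_l12047 _))
             (CovZ.leaf K2_ok TB_l12048 _))
            (CovZ.n1 (-25776, -96) (by decide +kernel)
             (CovZ.n2 (-25800, -72) (by decide +kernel)
              (CovZ.leaf K2_ok TB_l12049 _)
              (CovZ.leaf K2_ok TB_l12050 _))
             (CovZ.n1 (-25752, -72) (by decide +kernel)
              (CovZ.n2 (-25752, -96) (by decide +kernel)
               (CovZ.leaf K2_ok TB_l12051 _)
               (CovZ.leaf K2_ok TB_l12052 _))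
              (CovZ.leaf K2_ok TB_l12053 _)))))
          (CovZ.subM 10370805122688886187187727018222026953311375888980015336451203949314214761896766936945664391232504275100424502152917958656 (by decide +kernel)
           (CovZ.n1 (-25824, -192) (by decide +kernel)
            (CovZ.n2 (-25872, -144) (by decide +kernel)
             (CovZ.n2 (-25824, -144) (by decide +kernel)
              (CovZ.subM 10329157125182253798655549111643569856378866865138354064610159379082897351939459206773268648255572376619230043818998890496 (by decide +kernel)
               (CovZ.n2 (-25848, -168) (by decide +kernel)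
                (CovZ.n2 (-25848, -144) (by decide +kernel)
                 (CovZ.subM 157608024804230511061972913866096835481461756062153123282656844517925222669275230119359702771485434424701594577666048 (by decide +kernel)
                  (CovZ.n2 (-25836, -156) (by decide +kernel)
                   (CovZ.n2 (-25848, -156) (by decide +kernel)
                    (CovZ.n2 (-25842, -150) (by decide +kernel)
                     (CovZ.n2 (-25842, -156) (by decide +kernel)
                      (CovZ.leaf K2_ok TB_l39784 _)
                      (CovZ.leaf K2_ok TB_l39785 _))
                     (CovZ.leaf K2_ok TB_l39786 _))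
                    (CovZ.badM (by decide +kernel)))
                   (CovZ.leaf K2_ok TB_l39787 _)))
                 (CovZ.n1 (-25860, -156) (by decide +kernel)
                  (CovZ.leaf K2_ok TB_l39788 _)
                  (CovZ.n1 (-25848, -156) (by decide +kernel)
                   (CovZ.badM (by decide +kernel))
                   (CovZ.n1 (-25854, -150) (by decide +kernel)
                    (CovZ.leaf K2_ok TB_l39789 _)
                    (CovZ.leaf K2_ok TB_l39790 _)))))
                (CovZ.subM 18652594212856753465522379312574003948197063700970161709770994449298673292775137140709243668650724606083072 (by decide +kernel)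
                 (CovZ.n1 (-25824, -168) (by decide +kernel)
                  (CovZ.badM (by decide +kernel))
                  (CovZ.n1 (-25836, -156) (by decide +kernel)
                   (CovZ.n2 (-25824, -156) (by decide +kernel)
                    (CovZ.badM (by decide +kernel))
                    (CovZ.n1 (-25830, -150) (by decide +kernel)
                     (CovZ.leaf K2_ok TB_l39791 _)
                     (CovZ.badM (by decide +kernel))))
                   (CovZ.badM (by decide +kernel)))))))
              (CovZ.n1 (-25848, -120) (by decide +kernel)
               (CovZ.n2 (-25824, -120) (by decide +kernel)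
                (CovZ.n2 (-25836, -132) (by decide +kernel)
                 (CovZ.leaf K2_ok TB_l12054 _)
                 (CovZ.leaf K2_ok TB_l12055 _))
                (CovZ.leaf K2_ok TB_l12056 _))
               (CovZ.n1 (-25848, -144) (by decide +kernel)
                (CovZ.n2 (-25860, -132) (by decide +kernel)
                 (CovZ.leaf K2_ok TB_l12057 _)
                 (CovZ.leaf K2_ok TB_l12058 _))
                (CovZ.n1 (-25836, -132) (by decide +kernel)
                 (CovZ.leaf K2_ok TB_l12059 _)
                 (CovZ.leaf K2_ok TB_l12060 _)))))
             (CovZ.subM 10329157125182253780737591174221136171919328620590799839636995401205701072739546399062933678814284813572210097646141964288 (by decide +kernel)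
              (CovZ.n1 (-25872, -192) (by decide +kernel)
               (CovZ.n2 (-25896, -168) (by decide +kernel)
                (CovZ.n2 (-25872, -168) (by decide +kernel)
                 (CovZ.badM (by decide +kernel))
                 (CovZ.n1 (-25884, -156) (by decide +kernel)
                  (CovZ.n2 (-25872, -156) (by decide +kernel)
                   (CovZ.badM (by decide +kernel))
                   (CovZ.n1 (-25878, -150) (by decide +kernel)
                    (CovZ.leaf K2_ok TB_l39792 _)
                    (CovZ.leaf K2_ok TB_l39793 _)))
                  (CovZ.badM (by decide +kernel))))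
                (CovZ.badM (by decide +kernel)))
               (CovZ.n1 (-25848, -168) (by decide +kernel)
                (CovZ.badM (by decide +kernel))
                (CovZ.n1 (-25872, -168) (by decide +kernel)
                 (CovZ.n2 (-25860, -156) (by decide +kernel)
                  (CovZ.badM (by decide +kernel))
                  (CovZ.n1 (-25872, -156) (by decide +kernel)
                   (CovZ.leaf K2_ok TB_l39794 _)
                   (CovZ.n1 (-25866, -162) (by decide +kernel)
                    (CovZ.badM (by decide +kernel))
                    (CovZ.leaf K2_ok TB_l48617 _))))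
                 (CovZ.badM (by decide +kernel)))))))
            (CovZ.n1 (-25776, -144) (by decide +kernel)
             (CovZ.n2 (-25776, -192) (by decide +kernel)
              (CovZ.n2 (-25800, -168) (by decide +kernel)
               (CovZ.badM (by decide +kernel))
               (CovZ.badM (by decide +kernel)))
              (CovZ.badM (by decide +kernel)))
             (CovZ.n1 (-25824, -144) (by decide +kernel)
              (CovZ.n2 (-25800, -120) (by decide +kernel)
               (CovZ.n2 (-25800, -144) (by decide +kernel)
                (CovZ.n2 (-25812, -132) (by decide +kernel)
                 (CovZ.leaf K2_ok TB_l12061 _)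
                 (CovZ.leaf K2_ok TB_l12062 _))
                (CovZ.n1 (-25788, -132) (by decide +kernel)
                 (CovZ.leaf K2_ok TB_l12063 _)
                 (CovZ.leaf K2_ok TB_l12064 _)))
               (CovZ.n1 (-25824, -120) (by decide +kernel)
                (CovZ.leaf K2_ok TB_l12065 _)
                (CovZ.leaf K2_ok TB_l12066 _)))
              (CovZ.subM 18652594212856753465522379312574003948197063700970161709771005867280214940454185606996999264611815668056064 (by decide +kernel)
               (CovZ.n1 (-25800, -168) (by decide +kernel)
                (CovZ.n2 (-25824, -168) (by decide +kernel)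
                 (CovZ.n2 (-25812, -156) (by decide +kernel)
                  (CovZ.badM (by decide +kernel))
                  (CovZ.n1 (-25824, -156) (by decide +kernel)
                   (CovZ.n2 (-25818, -150) (by decide +kernel)
                    (CovZ.n2 (-25818, -156) (by decide +kernel)
                     (CovZ.leaf K2_ok TB_l48618 _)
                     (CovZ.leaf K2_ok TB_l48619 _))
                    (CovZ.leaf K2_ok TB_l39795 _))
                   (CovZ.badM (by decide +kernel))))
                 (CovZ.badM (by decide +kernel)))
                (CovZ.n1 (-25800, -144) (by decide +kernel)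
                 (CovZ.n2 (-25788, -156) (by decide +kernel)
                  (CovZ.n2 (-25800, -156) (by decide +kernel)
                   (CovZ.n2 (-25794, -150) (by decide +kernel)
                    (CovZ.badM (by decide +kernel))
                    (CovZ.leaf K2_ok TB_l39796 _))
                   (CovZ.badM (by decide +kernel)))
                  (CovZ.leaf K2_ok TB_l39797 _))
                 (CovZ.n1 (-25812, -156) (by decide +kernel)
                  (CovZ.leaf K2_ok TB_l39798 _)
                  (CovZ.n1 (-25800, -156) (by decide +kernel)
                   (CovZ.badM (by decide +kernel))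
                   (CovZ.n1 (-25806, -150) (by decide +kernel)
                    (CovZ.leaf K2_ok TB_l39799 _)
                    (CovZ.n1 (-25806, -156) (by decide +kernel)
                     (CovZ.n2 (-25809, -153) (by decide +kernel)
                      (CovZ.leaf K2_ok TB_l48620 _)
                      (CovZ.badM (by decide +kernel)))
                     (CovZ.leaf K2_ok TB_l48621 _))))))))))))))

theorem TB_u39 : CovZ TB_M (toL (selN TB_LN 10370810048108902586928704095640570203821414157994003668356886227631907963946521177417691254102013743577274268208288776192)) [0, 7, 6, 1] (-26112, -1536) (-25344, -768) (-26112, 0) :=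
    (CovZ.n2 (-26112, -768) (by decide +kernel)
     (CovZ.n2 (-25728, -384) (by decide +kernel)
      (CovZ.badM (by decide +kernel))
      (CovZ.n1 (-26112, -384) (by decide +kernel)
       (CovZ.n2 (-25920, -192) (by decide +kernel)
        (CovZ.badM (by decide +kernel))
        (CovZ.n1 (-26112, -192) (by decide +kernel)
         (CovZ.n2 (-26016, -96) (by decide +kernel)
          (CovZ.n2 (-26016, -192) (by decide +kernel)
           (CovZ.n2 (-26064, -144) (by decide +kernel)
            (CovZ.n2 (-26016, -144) (by decide +kernel)
             (CovZ.subM 10370805045731824397276042199034895085144254059417669232547444212707618311292871390408626660746974947109150164785114923008 (by decide +kernel)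
              (CovZ.n2 (-26040, -168) (by decide +kernel)
               (CovZ.n2 (-26040, -144) (by decide +kernel)
                (CovZ.leaf K2_ok TB_l11834 _)
                (CovZ.n1 (-26052, -156) (by decide +kernel)
                 (CovZ.leaf K2_ok TB_l11835 _)
                 (CovZ.leaf K2_ok TB_l11836 _)))
               (CovZ.n1 (-26016, -168) (by decide +kernel)
                (CovZ.subM 10370608035700842138192653805075455415722498176846935517441139812718263538956572308634638832627545901721553221135458369536 (by decide +kernel)
                 (CovZ.n2 (-26028, -180) (by decide +kernel)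
                  (CovZ.n2 (-26028, -168) (by decide +kernel)
                   (CovZ.n2 (-26022, -174) (by decide +kernel)
                    (CovZ.leaf K2_ok TB_l39684 _)
                    (CovZ.leaf K2_ok TB_l39685 _))
                   (CovZ.leaf K2_ok TB_l39686 _))
                  (CovZ.n1 (-26016, -180) (by decide +kernel)
                   (CovZ.badM (by decide +kernel))
                   (CovZ.n1 (-26022, -174) (by decide +kernel)
                    (CovZ.leaf K2_ok TB_l39687 _)
                    (CovZ.leaf K2_ok TB_l48608 _)))))
                (CovZ.n1 (-26028, -156) (by decide +kernel)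
                 (CovZ.leaf K2_ok TB_l11837 _)
                 (CovZ.leaf K2_ok TB_l11838 _)))))
             (CovZ.n1 (-26040, -120) (by decide +kernel)
              (CovZ.n2 (-26016, -120) (by decide +kernel)
               (CovZ.leaf K2_ok TB_l11839 _)
               (CovZ.leaf K2_ok TB_l11840 _))
              (CovZ.n1 (-26040, -144) (by decide +kernel)
               (CovZ.leaf K2_ok TB_l11841 _)
               (CovZ.leaf K2_ok TB_l11842 _))))
            (CovZ.subM 10370809970982745730497367098491778010381799933329680798769643823358083211898166589708424786228904553575580997498185990144 (by decide +kernel)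
             (CovZ.n1 (-26064, -192) (by decide +kernel)
              (CovZ.n2 (-26088, -168) (by decide +kernel)
               (CovZ.n2 (-26064, -168) (by decide +kernel)
                (CovZ.n2 (-26076, -180) (by decide +kernel)
                 (CovZ.leaf K2_ok TB_l39688 _)
                 (CovZ.n1 (-26064, -180) (by decide +kernel)
                  (CovZ.badM (by decide +kernel))
                  (CovZ.leaf K2_ok TB_l39689 _)))
                (CovZ.n1 (-26076, -156) (by decide +kernel)
                 (CovZ.leaf K2_ok TB_l11843 _)
                 (CovZ.leaf K2_ok TB_l11844 _)))
               (CovZ.n1 (-26088, -192) (by decide +kernel)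
                (CovZ.n2 (-26100, -180) (by decide +kernel)
                 (CovZ.n2 (-26088, -180) (by decide +kernel)
                  (CovZ.n2 (-26094, -186) (by decide +kernel)
                   (CovZ.leaf K2_ok TB_l39690 _)
                   (CovZ.badM (by decide +kernel)))
                  (CovZ.leaf K2_ok TB_l39691 _))
                 (CovZ.subM 146783911423364576870407285938810058116546343501240369439495558389487591569516998106260099768487056745955328 (by decide +kernel)
                  (CovZ.n1 (-26100, -192) (by decide +kernel)
                   (CovZ.n2 (-26106, -186) (by decide +kernel)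
                    (CovZ.leaf K2_ok TB_l39692 _)
                    (CovZ.badM (by decide +kernel)))
                   (CovZ.n1 (-26094, -186) (by decide +kernel)
                    (CovZ.badM (by decide +kernel))
                    (CovZ.leaf K2_ok TB_l39693 _)))))
                (CovZ.n1 (-26076, -180) (by decide +kernel)
                 (CovZ.badM (by decide +kernel))
                 (CovZ.leaf K2_ok TB_l39694 _))))
              (CovZ.n1 (-26040, -168) (by decide +kernel)
               (CovZ.subM 10370608035700842138192653805075455415722498176846935517441139812718263538956572308634638832627545901721553221135458369536 (by decide +kernel)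
                (CovZ.n2 (-26040, -192) (by decide +kernel)
                 (CovZ.n2 (-26052, -180) (by decide +kernel)
                  (CovZ.n2 (-26040, -180) (by decide +kernel)
                   (CovZ.badM (by decide +kernel))
                   (CovZ.n1 (-26046, -174) (by decide +kernel)
                    (CovZ.leaf K2_ok TB_l39695 _)
                    (CovZ.badM (by decide +kernel))))
                  (CovZ.badM (by decide +kernel)))
                 (CovZ.n1 (-26028, -180) (by decide +kernel)
                  (CovZ.badM (by decide +kernel))
                  (CovZ.n1 (-26040, -180) (by decide +kernel)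
                   (CovZ.leaf K2_ok TB_l39696 _)
                   (CovZ.badM (by decide +kernel))))))
               (CovZ.n1 (-26064, -168) (by decide +kernel)
                (CovZ.n2 (-26052, -156) (by decide +kernel)
                 (CovZ.leaf K2_ok TB_l11845 _)
                 (CovZ.leaf K2_ok TB_l11846 _))
                (CovZ.subM 10370608035700842138192653805075455415722498176846935517441140013585519071330356751379900375272871216996927443984562782208 (by decide +kernel)
                 (CovZ.n1 (-26052, -180) (by decide +kernel)
                  (CovZ.n2 (-26064, -180) (by decide +kernel)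
                   (CovZ.leaf K2_ok TB_l39697 _)
                   (CovZ.badM (by decide +kernel)))
                  (CovZ.n1 (-26052, -168) (by decide +kernel)
                   (CovZ.n2 (-26046, -174) (by decide +kernel)
                    (CovZ.leaf K2_ok TB_l39698 _)
                    (CovZ.leaf K2_ok TB_l39699 _))
                   (CovZ.leaf K2_ok TB_l39700 _)))))))))
           (CovZ.n1 (-25968, -144) (by decide +kernel)
            (CovZ.subM 10370805045731824397276042199034895085144135488304155444245103401284223320253869406882774963896773803126553908310272114688 (by decide +kernel)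
             (CovZ.n2 (-25968, -192) (by decide +kernel)
              (CovZ.n2 (-25992, -168) (by decide +kernel)
               (CovZ.n2 (-25968, -168) (by decide +kernel)
                (CovZ.subM 40347659154923156234184187780203322761912453873386571825128041166737187792519619376492162986838258677434721148778577920 (by decide +kernel)
                 (CovZ.n2 (-25980, -180) (by decide +kernel)
                  (CovZ.n2 (-25980, -168) (by decide +kernel)
                   (CovZ.n2 (-25974, -174) (by decide +kernel)
                    (CovZ.leaf K2_ok TB_l39701 _)
                    (CovZ.n1 (-25974, -168) (by decide +kernel)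
                     (CovZ.leaf K2_ok TB_l39702 _)
                     (CovZ.leaf K2_ok TB_l39703 _)))
                   (CovZ.n1 (-25986, -174) (by decide +kernel)
                    (CovZ.leaf K2_ok TB_l39704 _)
                    (CovZ.leaf K2_ok TB_l39705 _)))
                  (CovZ.n1 (-25968, -180) (by decide +kernel)
                   (CovZ.badM (by decide +kernel))
                   (CovZ.n1 (-25974, -174) (by decide +kernel)
                    (CovZ.n2 (-25968, -174) (by decide +kernel)
                     (CovZ.badM (by decide +kernel))
                     (CovZ.leaf K2_ok TB_l39706 _))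
                    (CovZ.badM (by decide +kernel))))))
                (CovZ.n1 (-25980, -156) (by decide +kernel)
                 (CovZ.n2 (-25968, -156) (by decide +kernel)
                  (CovZ.leaf K2_ok TB_l39707 _)
                  (CovZ.leaf K2_ok TB_l39708 _))
                 (CovZ.n1 (-25980, -168) (by decide +kernel)
                  (CovZ.n2 (-25986, -162) (by decide +kernel)
                   (CovZ.leaf K2_ok TB_l39709 _)
                   (CovZ.leaf K2_ok TB_l39710 _))
                  (CovZ.leaf K2_ok TB_l39711 _))))
               (CovZ.subM 40347659154923156234184187780203322761912453873386571825128041166737187792519619376492162986838258677434721148778577920 (by decide +kernel)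
                (CovZ.n1 (-25992, -192) (by decide +kernel)
                 (CovZ.n2 (-26004, -180) (by decide +kernel)
                  (CovZ.n2 (-25992, -180) (by decide +kernel)
                   (CovZ.badM (by decide +kernel))
                   (CovZ.n1 (-25998, -174) (by decide +kernel)
                    (CovZ.leaf K2_ok TB_l39712 _)
                    (CovZ.n1 (-25998, -180) (by decide +kernel)
                     (CovZ.leaf K2_ok TB_l48609 _)
                     (CovZ.leaf K2_ok TB_l48610 _))))
                  (CovZ.badM (by decide +kernel)))
                 (CovZ.n1 (-25980, -180) (by decide +kernel)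
                  (CovZ.badM (by decide +kernel))
                  (CovZ.n1 (-25992, -180) (by decide +kernel)
                   (CovZ.leaf K2_ok TB_l39713 _)
                   (CovZ.badM (by decide +kernel)))))))
              (CovZ.n1 (-25944, -168) (by decide +kernel)
               (CovZ.badM (by decide +kernel))
               (CovZ.n1 (-25968, -168) (by decide +kernel)
                (CovZ.n2 (-25956, -156) (by decide +kernel)
                 (CovZ.n2 (-25956, -168) (by decide +kernel)
                  (CovZ.n2 (-25962, -162) (by decide +kernel)
                   (CovZ.leaf K2_ok TB_l39714 _)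
                   (CovZ.n1 (-25962, -168) (by decide +kernel)
                    (CovZ.leaf K2_ok TB_l39715 _)
                    (CovZ.leaf K2_ok TB_l39716 _)))
                  (CovZ.leaf K2_ok TB_l39717 _))
                 (CovZ.leaf K2_ok TB_l39718 _))
                (CovZ.subM 40347659154923156234184187780203322761912453873386571825128041166735691214842992531903922413569557203622593473854570496 (by decide +kernel)
                 (CovZ.n1 (-25956, -180) (by decide +kernel)
                  (CovZ.n2 (-25968, -180) (by decide +kernel)
                   (CovZ.n2 (-25962, -174) (by decide +kernel)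
                    (CovZ.badM (by decide +kernel))
                    (CovZ.leaf K2_ok TB_l39719 _))
                   (CovZ.badM (by decide +kernel)))
                  (CovZ.n1 (-25956, -168) (by decide +kernel)
                   (CovZ.n2 (-25950, -174) (by decide +kernel)
                    (CovZ.n2 (-25956, -174) (by decide +kernel)
                     (CovZ.leaf K2_ok TB_l39720 _)
                     (CovZ.badM (by decide +kernel)))
                    (CovZ.n1 (-25950, -168) (by decide +kernel)
                     (CovZ.leaf K2_ok TB_l39721 _)
                     (CovZ.leaf K2_ok TB_l39722 _)))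
                   (CovZ.n1 (-25962, -174) (by decide +kernel)
                    (CovZ.leaf K2_ok TB_l39723 _)
                    (CovZ.n1 (-25956, -174) (by decide +kernel)
                     (CovZ.badM (by decide +kernel))
                     (CovZ.leaf K2_ok TB_l39724 _))))))))))
            (CovZ.n1 (-26016, -144) (by decide +kernel)
             (CovZ.n2 (-25992, -120) (by decide +kernel)
              (CovZ.n2 (-25992, -144) (by decide +kernel)
               (CovZ.leaf K2_ok TB_l11847 _)
               (CovZ.leaf K2_ok TB_l11848 _))
              (CovZ.leaf K2_ok TB_l11849 _))
             (CovZ.subM 10370805045731824397276042199034895085144135488318290220763330475920889700259812755009394835071778754791526757920613072896 (by decide +kernel)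
              (CovZ.n1 (-25992, -168) (by decide +kernel)
               (CovZ.n2 (-26016, -168) (by decide +kernel)
                (CovZ.n2 (-26004, -156) (by decide +kernel)
                 (CovZ.n2 (-26004, -168) (by decide +kernel)
                  (CovZ.leaf K2_ok TB_l39725 _)
                  (CovZ.leaf K2_ok TB_l39726 _))
                 (CovZ.leaf K2_ok TB_l11850 _))
                (CovZ.subM 40347659154923156234184187780203322761912453873386571825128041166737187792519619376492162986838258677434721148778577920 (by decide +kernel)
                 (CovZ.n1 (-26004, -180) (by decide +kernel)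
                  (CovZ.n2 (-26016, -180) (by decide +kernel)
                   (CovZ.leaf K2_ok TB_l39727 _)
                   (CovZ.badM (by decide +kernel)))
                  (CovZ.n1 (-26004, -168) (by decide +kernel)
                   (CovZ.n2 (-25998, -174) (by decide +kernel)
                    (CovZ.leaf K2_ok TB_l39728 _)
                    (CovZ.leaf K2_ok TB_l39729 _))
                   (CovZ.leaf K2_ok TB_l39730 _)))))
               (CovZ.n1 (-25992, -144) (by decide +kernel)
                (CovZ.leaf K2_ok TB_l11851 _)
                (CovZ.n1 (-26004, -156) (by decide +kernel)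
                 (CovZ.leaf K2_ok TB_l11852 _)
                 (CovZ.leaf K2_ok TB_l11853 _))))))))
          (CovZ.n1 (-26112, -96) (by decide +kernel)
           (CovZ.n2 (-26064, -48) (by decide +kernel)
            (CovZ.n2 (-26064, -96) (by decide +kernel)
             (CovZ.leaf K2_ok TB_l11854 _)
             (CovZ.leaf K2_ok TB_l11855 _))
            (CovZ.n1 (-26112, -48) (by decide +kernel)
             (CovZ.leaf K2_ok TB_l11856 _)
             (CovZ.leaf K2_ok TB_l11857 _)))
           (CovZ.n1 (-26064, -144) (by decide +kernel)
            (CovZ.n2 (-26112, -144) (by decide +kernel)
             (CovZ.n2 (-26088, -120) (by decide +kernel)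
              (CovZ.n2 (-26088, -144) (by decide +kernel)
               (CovZ.leaf K2_ok TB_l11858 _)
               (CovZ.leaf K2_ok TB_l11859 _))
              (CovZ.leaf K2_ok TB_l11860 _))
             (CovZ.subM 10370770569126856061315680146036604632733187992245370300130955975652913524885537545058064166396705070241866705020536242176 (by decide +kernel)
              (CovZ.n1 (-26088, -168) (by decide +kernel)
               (CovZ.n2 (-26112, -168) (by decide +kernel)
                (CovZ.leaf K2_ok TB_l11861 _)
                (CovZ.n1 (-26100, -180) (by decide +kernel)
                 (CovZ.leaf K2_ok TB_l39731 _)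
                 (CovZ.leaf K2_ok TB_l11862 _)))
               (CovZ.n1 (-26088, -144) (by decide +kernel)
                (CovZ.leaf K2_ok TB_l11863 _)
                (CovZ.leaf K2_ok TB_l11864 _)))))
            (CovZ.n1 (-26064, -96) (by decide +kernel)
             (CovZ.n2 (-26040, -120) (by decide +kernel)
              (CovZ.leaf K2_ok TB_l11865 _)
              (CovZ.leaf K2_ok TB_l11866 _))
             (CovZ.n1 (-26088, -120) (by decide +kernel)
              (CovZ.leaf K2_ok TB_l11867 _)
              (CovZ.n1 (-26064, -120) (by decide +kernel)
               (CovZ.leaf K2_ok TB_l11868 _)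
               (CovZ.leaf K2_ok TB_l11869 _)))))))
         (CovZ.badM (by decide +kernel))))
       (CovZ.badM (by decide +kernel))))
     (CovZ.badM (by decide +kernel)))

theorem TB_u40 : CovZ TB_M (toL (selN TB_LN 10370810048108902586928704095640570203821414157994003668356886227631907963946521177417691254102013743577274268208288776192)) [0, 7, 6, 1] (-25344, -768) (-24576, 0) (-26112, 0) :=
    (CovZ.n1 (-25344, 0) (by decide +kernel)
     (CovZ.subM 1260869008099923005329252657480332864085211068167456952468937085732993909899071686973057749370726544724952989730603008 (by decide +kernel)
      (CovZ.n2 (-24960, -384) (by decide +kernel)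
       (CovZ.n2 (-25344, -384) (by decide +kernel)
        (CovZ.n2 (-25152, -192) (by decide +kernel)
         (CovZ.badM (by decide +kernel))
         (CovZ.n1 (-25344, -192) (by decide +kernel)
          (CovZ.n2 (-25248, -96) (by decide +kernel)
           (CovZ.badM (by decide +kernel))
           (CovZ.n1 (-25344, -96) (by decide +kernel)
            (CovZ.n2 (-25296, -48) (by decide +kernel)
             (CovZ.n2 (-25296, -96) (by decide +kernel)
              (CovZ.n2 (-25320, -72) (by decide +kernel)
               (CovZ.badM (by decide +kernel))
               (CovZ.badM (by decide +kernel)))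
              (CovZ.badM (by decide +kernel)))
             (CovZ.n1 (-25344, -48) (by decide +kernel)
              (CovZ.n2 (-25320, -24) (by decide +kernel)
               (CovZ.n2 (-25320, -48) (by decide +kernel)
                (CovZ.leaf K2_ok TB_l11870 _)
                (CovZ.leaf K2_ok TB_l11871 _))
               (CovZ.leaf K2_ok TB_l11872 _))
              (CovZ.subM 1260864198284695006624678972939333479915761431050268818421104235850426502988621990742885041674223906952220252877881344 (by decide +kernel)
               (CovZ.n1 (-25320, -72) (by decide +kernel)
                (CovZ.n2 (-25344, -72) (by decide +kernel)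
                 (CovZ.n2 (-25332, -60) (by decide +kernel)
                  (CovZ.leaf K2_ok TB_l39732 _)
                  (CovZ.leaf K2_ok TB_l11873 _))
                 (CovZ.badM (by decide +kernel)))
                (CovZ.n1 (-25320, -48) (by decide +kernel)
                 (CovZ.badM (by decide +kernel))
                 (CovZ.n1 (-25332, -60) (by decide +kernel)
                  (CovZ.leaf K2_ok TB_l11874 _)
                  (CovZ.badM (by decide +kernel))))))))
            (CovZ.badM (by decide +kernel))))
          (CovZ.badM (by decide +kernel))))
        (CovZ.badM (by decide +kernel)))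
       (CovZ.n1 (-24960, 0) (by decide +kernel)
        (CovZ.n2 (-24768, -192) (by decide +kernel)
         (CovZ.n2 (-24960, -192) (by decide +kernel)
          (CovZ.badM (by decide +kernel))
          (CovZ.badM (by decide +kernel)))
         (CovZ.badM (by decide +kernel)))
        (CovZ.n1 (-25152, -192) (by decide +kernel)
         (CovZ.n2 (-25152, 0) (by decide +kernel)
          (CovZ.subM 1260864198284623894729114827655648281123121798765963823785719697598246821685185980513224315196553645725185413591597056 (by decide +kernel)
           (CovZ.n2 (-25056, -96) (by decide +kernel)
            (CovZ.n2 (-25152, -96) (by decide +kernel)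
             (CovZ.n2 (-25104, -48) (by decide +kernel)
              (CovZ.badM (by decide +kernel))
              (CovZ.n1 (-25152, -48) (by decide +kernel)
               (CovZ.n2 (-25128, -24) (by decide +kernel)
                (CovZ.badM (by decide +kernel))
                (CovZ.n1 (-25152, -24) (by decide +kernel)
                 (CovZ.leaf K2_ok TB_l11875 _)
                 (CovZ.badM (by decide +kernel))))
               (CovZ.badM (by decide +kernel))))
             (CovZ.badM (by decide +kernel)))
            (CovZ.n1 (-25056, 0) (by decide +kernel)
             (CovZ.badM (by decide +kernel))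
             (CovZ.n1 (-25104, -48) (by decide +kernel)
              (CovZ.n2 (-25104, 0) (by decide +kernel)
               (CovZ.n2 (-25080, -24) (by decide +kernel)
                (CovZ.n2 (-25104, -24) (by decide +kernel)
                 (CovZ.leaf K2_ok TB_l48611 _)
                 (CovZ.badM (by decide +kernel)))
                (CovZ.n1 (-25080, 0) (by decide +kernel)
                 (CovZ.leaf K2_ok TB_l48612 _)
                 (CovZ.leaf K2_ok TB_l48613 _)))
               (CovZ.n1 (-25128, -24) (by decide +kernel)
                (CovZ.n2 (-25128, 0) (by decide +kernel)
                 (CovZ.leaf K2_ok TB_l48614 _)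
                 (CovZ.leaf K2_ok TB_l48615 _))
                (CovZ.n1 (-25104, -24) (by decide +kernel)
                 (CovZ.badM (by decide +kernel))
                 (CovZ.leaf K2_ok TB_l48616 _))))
              (CovZ.badM (by decide +kernel))))))
          (CovZ.n1 (-25248, -96) (by decide +kernel)
           (CovZ.n2 (-25248, 0) (by decide +kernel)
            (CovZ.subM 1260864198284623894729114827655648281123121798765963823785719697599743399361812825101464888465255119537313088515604480 (by decide +kernel)
             (CovZ.n2 (-25200, -48) (by decide +kernel)
              (CovZ.n2 (-25248, -48) (by decide +kernel)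
               (CovZ.n2 (-25224, -24) (by decide +kernel)
                (CovZ.n2 (-25224, -48) (by decide +kernel)
                 (CovZ.leaf K2_ok TB_l11876 _)
                 (CovZ.leaf K2_ok TB_l11877 _))
                (CovZ.n1 (-25248, -24) (by decide +kernel)
                 (CovZ.leaf K2_ok TB_l11878 _)
                 (CovZ.leaf K2_ok TB_l11879 _)))
               (CovZ.badM (by decide +kernel)))
              (CovZ.n1 (-25200, 0) (by decide +kernel)
               (CovZ.n2 (-25176, -24) (by decide +kernel)
                (CovZ.n2 (-25200, -24) (by decide +kernel)
                 (CovZ.leaf K2_ok TB_l11880 _)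
                 (CovZ.badM (by decide +kernel)))
                (CovZ.leaf K2_ok TB_l11882 _))
               (CovZ.n1 (-25224, -24) (by decide +kernel)
                (CovZ.leaf K2_ok TB_l11883 _)
                (CovZ.n1 (-25200, -24) (by decide +kernel)
                 (CovZ.leaf K2_ok TB_l11884 _)
                 (CovZ.leaf K2_ok TB_l11885 _))))))
            (CovZ.n1 (-25296, -48) (by decide +kernel)
             (CovZ.n2 (-25296, 0) (by decide +kernel)
              (CovZ.n2 (-25272, -24) (by decide +kernel)
               (CovZ.leaf K2_ok TB_l11886 _)
               (CovZ.leaf K2_ok TB_l11887 _))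
              (CovZ.n1 (-25320, -24) (by decide +kernel)
               (CovZ.leaf K2_ok TB_l11888 _)
               (CovZ.n1 (-25296, -24) (by decide +kernel)
                (CovZ.leaf K2_ok TB_l11889 _)
                (CovZ.leaf K2_ok TB_l11890 _))))
             (CovZ.subM 1260864198284623894729114827655648281123121798765963823785719697599743399361812825101464888465255119537313088515604480 (by decide +kernel)
              (CovZ.n1 (-25248, -48) (by decide +kernel)
               (CovZ.badM (by decide +kernel))
               (CovZ.n1 (-25272, -24) (by decide +kernel)
                (CovZ.n2 (-25248, -24) (by decide +kernel)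
                 (CovZ.leaf K2_ok TB_l11891 _)
                 (CovZ.leaf K2_ok TB_l11892 _))
                (CovZ.n1 (-25272, -48) (by decide +kernel)
                 (CovZ.leaf K2_ok TB_l11893 _)
                 (CovZ.leaf K2_ok TB_l11894 _)))))))
           (CovZ.subM 1260864198284623894729114827655648281123121798765963823785719697598246821685185980513224315196553645725185413591597056 (by decide +kernel)
            (CovZ.n1 (-25152, -96) (by decide +kernel)
             (CovZ.badM (by decide +kernel))
             (CovZ.n1 (-25200, -48) (by decide +kernel)
              (CovZ.n2 (-25152, -48) (by decide +kernel)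
               (CovZ.badM (by decide +kernel))
               (CovZ.n1 (-25176, -24) (by decide +kernel)
                (CovZ.n2 (-25152, -24) (by decide +kernel)
                 (CovZ.badM (by decide +kernel))
                 (CovZ.leaf K2_ok TB_l11896 _))
                (CovZ.badM (by decide +kernel))))
              (CovZ.badM (by decide +kernel)))))))
         (CovZ.n1 (-24960, -192) (by decide +kernel)
          (CovZ.badM (by decide +kernel))
          (CovZ.n1 (-25056, -96) (by decide +kernel)
           (CovZ.badM (by decide +kernel))
           (CovZ.badM (by decide +kernel))))))))
     (CovZ.n1 (-25728, -384) (by decide +kernel)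
      (CovZ.n2 (-25728, 0) (by decide +kernel)
       (CovZ.n2 (-25536, -192) (by decide +kernel)
        TB_u35
        TB_u36)
       (CovZ.n1 (-25920, -192) (by decide +kernel)
        TB_u37
        TB_u38))
      (CovZ.subM 10330299860318992376430113351780517343768496049351403768652989109137553228767364080774183030276161822833670171018573922304 (by decide +kernel)
       (CovZ.n1 (-25344, -384) (by decide +kernel)
        (CovZ.badM (by decide +kernel))
        (CovZ.n1 (-25536, -192) (by decide +kernel)
         (CovZ.subM 1260869008099923005329252657480332864085211068167456952468937085732993909899071686973057749370726544724952989730603008 (by decide +kernel)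
          (CovZ.n2 (-25344, -192) (by decide +kernel)
           (CovZ.badM (by decide +kernel))
           (CovZ.n1 (-25440, -96) (by decide +kernel)
            (CovZ.n2 (-25344, -96) (by decide +kernel)
             (CovZ.badM (by decide +kernel))
             (CovZ.n1 (-25392, -48) (by decide +kernel)
              (CovZ.n2 (-25344, -48) (by decide +kernel)
               (CovZ.subM 1260864198284695006624678972939333479915761431050268818421104235850426502988621990742885041674223906952220252877881344 (by decide +kernel)
                (CovZ.n2 (-25368, -72) (by decide +kernel)
                 (CovZ.n2 (-25368, -48) (by decide +kernel)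
                  (CovZ.leaf K2_ok TB_l12067 _)
                  (CovZ.leaf K2_ok TB_l12068 _))
                 (CovZ.n1 (-25344, -72) (by decide +kernel)
                  (CovZ.badM (by decide +kernel))
                  (CovZ.n1 (-25356, -60) (by decide +kernel)
                   (CovZ.leaf K2_ok TB_l12069 _)
                   (CovZ.leaf K2_ok TB_l39800 _)))))
               (CovZ.n1 (-25368, -24) (by decide +kernel)
                (CovZ.leaf K2_ok TB_l12070 _)
                (CovZ.n1 (-25368, -48) (by decide +kernel)
                 (CovZ.leaf K2_ok TB_l12071 _)
                 (CovZ.leaf K2_ok TB_l12072 _))))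
              (CovZ.subM 1260864198284695006624678972939333479915761431050268818421305103105958876773064736004427686999539182326443101982294016 (by decide +kernel)
               (CovZ.n1 (-25392, -96) (by decide +kernel)
                (CovZ.n2 (-25416, -72) (by decide +kernel)
                 (CovZ.n2 (-25392, -72) (by decide +kernel)
                  (CovZ.badM (by decide +kernel))
                  (CovZ.leaf K2_ok TB_l12073 _))
                 (CovZ.n1 (-25416, -96) (by decide +kernel)
                  (CovZ.n2 (-25428, -84) (by decide +kernel)
                   (CovZ.badM (by decide +kernel))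
                   (CovZ.badM (by decide +kernel)))
                  (CovZ.badM (by decide +kernel))))
                (CovZ.n1 (-25368, -72) (by decide +kernel)
                 (CovZ.badM (by decide +kernel))
                 (CovZ.n1 (-25392, -72) (by decide +kernel)
                  (CovZ.leaf K2_ok TB_l12074 _)
                  (CovZ.badM (by decide +kernel))))))))
            (CovZ.n1 (-25440, -192) (by decide +kernel)
             (CovZ.n2 (-25488, -144) (by decide +kernel)
              (CovZ.badM (by decide +kernel))
              (CovZ.badM (by decide +kernel)))
             (CovZ.badM (by decide +kernel))))))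
         (CovZ.badM (by decide +kernel)))))))

theorem TB_u41 : CovZ TB_M (toL (selN TB_LN 58147139623488390111692969858626140361929467230731543021024329440264736835207744724394564521912089331932816261263793501555929070718005552894967810)) [0, 7, 6, 1] (-29184, 1536) (-29952, 1536) (-29952, 768) :=
    (CovZ.subM 307865750090656250177576235455861927840989930198206261081282787732396392042901461849577618684705258733173769502722 (by decide +kernel)
      (CovZ.n2 (-29568, 1152) (by decide +kernel)
       (CovZ.n2 (-29952, 1152) (by decide +kernel)
        (CovZ.n2 (-29760, 1344) (by decide +kernel)
         (CovZ.n2 (-29760, 1152) (by decide +kernel)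
          (CovZ.n2 (-29856, 1248) (by decide +kernel)
           (CovZ.n2 (-29760, 1248) (by decide +kernel)
            (CovZ.leaf K2_ok TB_l2658 _)
            (CovZ.leaf K2_ok TB_l2659 _))
           (CovZ.n1 (-29856, 1152) (by decide +kernel)
            (CovZ.leaf K2_ok TB_l2660 _)
            (CovZ.leaf K2_ok TB_l2661 _)))
          (CovZ.subM 37576681324381331646234673488047851214402959149135987042059143878437375382262604663250415145635023366780354562 (by decide +kernel)
           (CovZ.n1 (-29664, 1248) (by decide +kernel)
            (CovZ.n2 (-29664, 1152) (by decide +kernel)
             (CovZ.leaf K2_ok TB_l2662 _)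
             (CovZ.leaf K2_ok TB_l2663 _))
            (CovZ.n1 (-29760, 1248) (by decide +kernel)
             (CovZ.leaf K2_ok TB_l2664 _)
             (CovZ.leaf K2_ok TB_l2665 _)))))
         (CovZ.n1 (-29952, 1344) (by decide +kernel)
          (CovZ.subM 37576681324381331646234673488047851214402959148930298972393993123168004235772163845912489035334632944142123010 (by decide +kernel)
           (CovZ.n2 (-29856, 1440) (by decide +kernel)
            (CovZ.n2 (-29856, 1344) (by decide +kernel)
             (CovZ.n2 (-29904, 1392) (by decide +kernel)
              (CovZ.leaf K2_ok TB_l2666 _)
              (CovZ.leaf K2_ok TB_l2667 _))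
             (CovZ.leaf K2_ok TB_l2668 _))
            (CovZ.n1 (-29952, 1440) (by decide +kernel)
             (CovZ.n2 (-29904, 1488) (by decide +kernel)
              (CovZ.leaf K2_ok TB_l2669 _)
              (CovZ.leaf K2_ok TB_l2670 _))
             (CovZ.n1 (-29904, 1392) (by decide +kernel)
              (CovZ.leaf K2_ok TB_l2671 _)
              (CovZ.leaf K2_ok TB_l2672 _)))))
          (CovZ.n1 (-29856, 1248) (by decide +kernel)
           (CovZ.n2 (-29952, 1248) (by decide +kernel)
            (CovZ.leaf K2_ok TB_l2673 _)
            (CovZ.leaf K2_ok TB_l2674 _))
           (CovZ.n1 (-29856, 1344) (by decide +kernel)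
            (CovZ.leaf K2_ok TB_l2675 _)
            (CovZ.leaf K2_ok TB_l2676 _)))))
        (CovZ.n1 (-29760, 960) (by decide +kernel)
         (CovZ.n2 (-29952, 960) (by decide +kernel)
          (CovZ.n2 (-29856, 1056) (by decide +kernel)
           (CovZ.n2 (-29856, 960) (by decide +kernel)
            (CovZ.leaf K2_ok TB_l2677 _)
            (CovZ.leaf K2_ok TB_l2678 _))
           (CovZ.leaf K2_ok TB_l2679 _))
          (CovZ.n1 (-29856, 864) (by decide +kernel)
           (CovZ.leaf K2_ok TB_l2680 _)
           (CovZ.n1 (-29856, 960) (by decide +kernel)
            (CovZ.leaf K2_ok TB_l2681 _)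
            (CovZ.leaf K2_ok TB_l2682 _))))
         (CovZ.n1 (-29760, 1152) (by decide +kernel)
          (CovZ.n2 (-29664, 1056) (by decide +kernel)
           (CovZ.leaf K2_ok TB_l2683 _)
           (CovZ.n1 (-29664, 1152) (by decide +kernel)
            (CovZ.leaf K2_ok TB_l2684 _)
            (CovZ.leaf K2_ok TB_l2685 _)))
          (CovZ.n1 (-29856, 1056) (by decide +kernel)
           (CovZ.n2 (-29856, 1152) (by decide +kernel)
            (CovZ.leaf K2_ok TB_l2686 _)
            (CovZ.leaf K2_ok TB_l2687 _))
           (CovZ.leaf K2_ok TB_l2688 _)))))
       (CovZ.n1 (-29568, 1536) (by decide +kernel)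
        (CovZ.n2 (-29376, 1344) (by decide +kernel)
         (CovZ.subM 37576681324381331646234673488047851157863853076227688495393623854663982875783119963230608485743624925416521730 (by decide +kernel)
          (CovZ.n2 (-29568, 1344) (by decide +kernel)
           (CovZ.n2 (-29472, 1440) (by decide +kernel)
            (CovZ.n2 (-29472, 1344) (by decide +kernel)
             (CovZ.leaf K2_ok TB_l2689 _)
             (CovZ.leaf K2_ok TB_l2690 _))
            (CovZ.n1 (-29568, 1440) (by decide +kernel)
             (CovZ.n2 (-29520, 1488) (by decide +kernel)
              (CovZ.leaf K2_ok TB_l2691 _)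
              (CovZ.leaf K2_ok TB_l2692 _))
             (CovZ.leaf K2_ok TB_l2693 _)))
           (CovZ.n1 (-29472, 1248) (by decide +kernel)
            (CovZ.n2 (-29568, 1248) (by decide +kernel)
             (CovZ.leaf K2_ok TB_l2694 _)
             (CovZ.leaf K2_ok TB_l2695 _))
            (CovZ.n1 (-29472, 1344) (by decide +kernel)
             (CovZ.leaf K2_ok TB_l2696 _)
             (CovZ.leaf K2_ok TB_l2697 _)))))
         (CovZ.n1 (-29376, 1536) (by decide +kernel)
          (CovZ.n2 (-29280, 1440) (by decide +kernel)
           (CovZ.n2 (-29376, 1440) (by decide +kernel)
            (CovZ.n2 (-29328, 1488) (by decide +kernel)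
             (CovZ.leaf K2_ok TB_l2698 _)
             (CovZ.leaf K2_ok TB_l2699 _))
            (CovZ.leaf K2_ok TB_l2700 _))
           (CovZ.n1 (-29280, 1536) (by decide +kernel)
            (CovZ.n2 (-29232, 1488) (by decide +kernel)
             (CovZ.leaf K2_ok TB_l2701 _)
             (CovZ.leaf K2_ok TB_l2702 _))
            (CovZ.n1 (-29328, 1488) (by decide +kernel)
             (CovZ.leaf K2_ok TB_l2703 _)
             (CovZ.leaf K2_ok TB_l2704 _))))
          (CovZ.subM 37576681324381331646234673488047851157863853076022000425728473099394611727963451150107766502539427442497945602 (by decide +kernel)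
           (CovZ.n1 (-29472, 1440) (by decide +kernel)
            (CovZ.n2 (-29472, 1536) (by decide +kernel)
             (CovZ.n2 (-29424, 1488) (by decide +kernel)
              (CovZ.leaf K2_ok TB_l2705 _)
              (CovZ.leaf K2_ok TB_l2706 _))
             (CovZ.n1 (-29520, 1488) (by decide +kernel)
              (CovZ.leaf K2_ok TB_l2707 _)
              (CovZ.leaf K2_ok TB_l2708 _)))
            (CovZ.n1 (-29376, 1440) (by decide +kernel)
             (CovZ.n2 (-29424, 1392) (by decide +kernel)
              (CovZ.leaf K2_ok TB_l2709 _)
              (CovZ.leaf K2_ok TB_l2710 _))
             (CovZ.n1 (-29424, 1488) (by decide +kernel)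
              (CovZ.leaf K2_ok TB_l2711 _)
              (CovZ.leaf K2_ok TB_l2712 _)))))))
        (CovZ.n1 (-29760, 1344) (by decide +kernel)
         (CovZ.subM 37576681324381331646234673488047851214402959148930298972393993123168004235772163845912489035334632944142123010 (by decide +kernel)
          (CovZ.n2 (-29760, 1536) (by decide +kernel)
           (CovZ.n2 (-29664, 1440) (by decide +kernel)
            (CovZ.n2 (-29760, 1440) (by decide +kernel)
             (CovZ.n2 (-29712, 1488) (by decide +kernel)
              (CovZ.leaf K2_ok TB_l2713 _)
              (CovZ.leaf K2_ok TB_l2714 _))
             (CovZ.n1 (-29712, 1392) (by decide +kernel)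
              (CovZ.leaf K2_ok TB_l2715 _)
              (CovZ.leaf K2_ok TB_l2716 _)))
            (CovZ.n1 (-29664, 1536) (by decide +kernel)
             (CovZ.n2 (-29616, 1488) (by decide +kernel)
              (CovZ.leaf K2_ok TB_l2717 _)
              (CovZ.leaf K2_ok TB_l2718 _))
             (CovZ.n1 (-29712, 1488) (by decide +kernel)
              (CovZ.n2 (-29712, 1536) (by decide +kernel)
               (CovZ.leaf K2_ok TB_l2719 _)
               (CovZ.leaf K2_ok TB_l2720 _))
              (CovZ.leaf K2_ok TB_l2721 _))))
           (CovZ.n1 (-29856, 1440) (by decide +kernel)
            (CovZ.n2 (-29856, 1536) (by decide +kernel)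
             (CovZ.n2 (-29808, 1488) (by decide +kernel)
              (CovZ.leaf K2_ok TB_l2722 _)
              (CovZ.leaf K2_ok TB_l2723 _))
             (CovZ.n1 (-29904, 1488) (by decide +kernel)
              (CovZ.leaf K2_ok TB_l2724 _)
              (CovZ.leaf K2_ok TB_l2725 _)))
            (CovZ.n1 (-29760, 1440) (by decide +kernel)
             (CovZ.leaf K2_ok TB_l2726 _)
             (CovZ.n1 (-29808, 1488) (by decide +kernel)
              (CovZ.leaf K2_ok TB_l2727 _)
              (CovZ.leaf K2_ok TB_l2728 _))))))
         (CovZ.subM 37576681324381331646234673488047851214402959149135987042059143878437375382262604663250415145635023366780354562 (by decide +kernel)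
          (CovZ.n1 (-29568, 1344) (by decide +kernel)
           (CovZ.n2 (-29664, 1248) (by decide +kernel)
            (CovZ.n2 (-29664, 1344) (by decide +kernel)
             (CovZ.leaf K2_ok TB_l2729 _)
             (CovZ.leaf K2_ok TB_l2730 _))
            (CovZ.n1 (-29568, 1248) (by decide +kernel)
             (CovZ.leaf K2_ok TB_l2731 _)
             (CovZ.leaf K2_ok TB_l2732 _)))
           (CovZ.n1 (-29664, 1440) (by decide +kernel)
            (CovZ.n2 (-29568, 1440) (by decide +kernel)
             (CovZ.leaf K2_ok TB_l2733 _)
             (CovZ.n1 (-29616, 1488) (by decide +kernel)
              (CovZ.leaf K2_ok TB_l2734 _)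
              (CovZ.leaf K2_ok TB_l2735 _)))
            (CovZ.n1 (-29664, 1344) (by decide +kernel)
             (CovZ.n2 (-29712, 1392) (by decide +kernel)
              (CovZ.leaf K2_ok TB_l2736 _)
              (CovZ.leaf K2_ok TB_l2737 _))
             (CovZ.leaf K2_ok TB_l2738 _)))))))))

theorem TB_u42 : CovZ TB_M (toL (selN TB_LN 58147139623488390111692969858626140361929467230731543021024329440264736835207744724394564521912089331932816261263793501555929070718005552894967810)) [0, 7, 6, 1] (-29952, 1536) (-30720, 1536) (-29952, 768) :=
    (CovZ.n1 (-30336, 1152) (by decide +kernel)
      (CovZ.n2 (-30336, 1536) (by decide +kernel)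
       (CovZ.subM 5818432186490023332933144431498278952303498426260283251938545661614136679275878764734500968364022994533881007226195292225400209410 (by decide +kernel)
        (CovZ.n2 (-30144, 1344) (by decide +kernel)
         (CovZ.n2 (-30336, 1344) (by decide +kernel)
          (CovZ.n2 (-30240, 1440) (by decide +kernel)
           (CovZ.n2 (-30240, 1344) (by decide +kernel)
            (CovZ.leaf K2_ok TB_l2739 _)
            (CovZ.leaf K2_ok TB_l2740 _))
           (CovZ.n1 (-30336, 1440) (by decide +kernel)
            (CovZ.n2 (-30288, 1488) (by decide +kernel)
             (CovZ.leaf K2_ok TB_l2741 _)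
             (CovZ.leaf K2_ok TB_l2742 _))
            (CovZ.leaf K2_ok TB_l2743 _)))
          (CovZ.n1 (-30240, 1248) (by decide +kernel)
           (CovZ.n2 (-30336, 1248) (by decide +kernel)
            (CovZ.leaf K2_ok TB_l2744 _)
            (CovZ.leaf K2_ok TB_l2745 _))
           (CovZ.n1 (-30240, 1344) (by decide +kernel)
            (CovZ.leaf K2_ok TB_l2746 _)
            (CovZ.leaf K2_ok TB_l2747 _))))
         (CovZ.n1 (-30144, 1536) (by decide +kernel)
          (CovZ.subM 10576895500644015159911969309855982871927962975279713911513529860377534718924859970578410958868103593043593658684828463661058 (by decide +kernel)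
           (CovZ.n2 (-30048, 1440) (by decide +kernel)
            (CovZ.n2 (-30144, 1440) (by decide +kernel)
             (CovZ.n2 (-30096, 1488) (by decide +kernel)
              (CovZ.leaf K2_ok TB_l2748 _)
              (CovZ.leaf K2_ok TB_l2749 _))
             (CovZ.leaf K2_ok TB_l2750 _))
            (CovZ.n1 (-30048, 1536) (by decide +kernel)
             (CovZ.n2 (-30000, 1488) (by decide +kernel)
              (CovZ.leaf K2_ok TB_l2751 _)
              (CovZ.leaf K2_ok TB_l2752 _))
             (CovZ.n1 (-30096, 1488) (by decide +kernel)
              (CovZ.leaf K2_ok TB_l2753 _)
              (CovZ.leaf K2_ok TB_l2754 _)))))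
          (CovZ.n1 (-30240, 1440) (by decide +kernel)
           (CovZ.n2 (-30240, 1536) (by decide +kernel)
            (CovZ.n2 (-30192, 1488) (by decide +kernel)
             (CovZ.leaf K2_ok TB_l2755 _)
             (CovZ.leaf K2_ok TB_l2756 _))
            (CovZ.n1 (-30288, 1488) (by decide +kernel)
             (CovZ.leaf K2_ok TB_l2757 _)
             (CovZ.leaf K2_ok TB_l2758 _)))
           (CovZ.n1 (-30144, 1440) (by decide +kernel)
            (CovZ.leaf K2_ok TB_l2759 _)
            (CovZ.n1 (-30192, 1488) (by decide +kernel)
             (CovZ.leaf K2_ok TB_l2760 _)
             (CovZ.leaf K2_ok TB_l2761 _)))))))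
       (CovZ.n1 (-30528, 1344) (by decide +kernel)
        (CovZ.n2 (-30528, 1536) (by decide +kernel)
         (CovZ.n2 (-30432, 1440) (by decide +kernel)
          (CovZ.n2 (-30528, 1440) (by decide +kernel)
           (CovZ.leaf K2_ok TB_l2762 _)
           (CovZ.leaf K2_ok TB_l2763 _))
          (CovZ.n1 (-30432, 1536) (by decide +kernel)
           (CovZ.n2 (-30384, 1488) (by decide +kernel)
            (CovZ.leaf K2_ok TB_l2764 _)
            (CovZ.leaf K2_ok TB_l2765 _))
           (CovZ.n1 (-30480, 1488) (by decide +kernel)
            (CovZ.leaf K2_ok TB_l2766 _)
            (CovZ.leaf K2_ok TB_l2767 _))))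
         (CovZ.n1 (-30624, 1440) (by decide +kernel)
          (CovZ.n2 (-30624, 1536) (by decide +kernel)
           (CovZ.n2 (-30576, 1488) (by decide +kernel)
            (CovZ.leaf K3_ok TB_l2768 _)
            (CovZ.leaf K3_ok TB_l2769 _))
           (CovZ.n1 (-30672, 1488) (by decide +kernel)
            (CovZ.leaf K2_ok TB_l2770 _)
            (CovZ.leaf K3_ok TB_l2771 _)))
          (CovZ.n1 (-30528, 1440) (by decide +kernel)
           (CovZ.n2 (-30576, 1392) (by decide +kernel)
            (CovZ.leaf K2_ok TB_l2772 _)
            (CovZ.leaf K2_ok TB_l2773 _))
           (CovZ.n1 (-30576, 1488) (by decide +kernel)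
            (CovZ.leaf K3_ok TB_l2774 _)
            (CovZ.leaf K3_ok TB_l2775 _)))))
        (CovZ.n1 (-30336, 1344) (by decide +kernel)
         (CovZ.n2 (-30432, 1248) (by decide +kernel)
          (CovZ.n2 (-30432, 1344) (by decide +kernel)
           (CovZ.leaf K2_ok TB_l2776 _)
           (CovZ.leaf K2_ok TB_l2777 _))
          (CovZ.n1 (-30336, 1248) (by decide +kernel)
           (CovZ.leaf K2_ok TB_l2778 _)
           (CovZ.leaf K2_ok TB_l2779 _)))
         (CovZ.n1 (-30432, 1440) (by decide +kernel)
          (CovZ.n2 (-30336, 1440) (by decide +kernel)
           (CovZ.n2 (-30384, 1392) (by decide +kernel)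
            (CovZ.leaf K2_ok TB_l2780 _)
            (CovZ.leaf K2_ok TB_l2781 _))
           (CovZ.n1 (-30384, 1488) (by decide +kernel)
            (CovZ.leaf K2_ok TB_l2782 _)
            (CovZ.leaf K2_ok TB_l2783 _)))
          (CovZ.n1 (-30432, 1344) (by decide +kernel)
           (CovZ.leaf K2_ok TB_l2784 _)
           (CovZ.leaf K2_ok TB_l2785 _))))))
      (CovZ.subM 5818432186490023332933144431498278952303498426260283251938545661614136679275878764734500968364022994533881007226195292225400209410 (by decide +kernel)
       (CovZ.n1 (-29952, 1152) (by decide +kernel)
        (CovZ.n2 (-30144, 960) (by decide +kernel)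
         (CovZ.n2 (-30144, 1152) (by decide +kernel)
          (CovZ.n2 (-30048, 1056) (by decide +kernel)
           (CovZ.leaf K2_ok TB_l2786 _)
           (CovZ.n1 (-30048, 1152) (by decide +kernel)
            (CovZ.leaf K2_ok TB_l2787 _)
            (CovZ.leaf K2_ok TB_l2788 _)))
          (CovZ.n1 (-30240, 1056) (by decide +kernel)
           (CovZ.n2 (-30240, 1152) (by decide +kernel)
            (CovZ.leaf K2_ok TB_l2789 _)
            (CovZ.leaf K2_ok TB_l2790 _))
           (CovZ.leaf K2_ok TB_l2791 _)))
         (CovZ.subM 10576895500644015159911969309855982871927962975279713911513529860377534718924859970578410958868103593043593658684828463661058 (by decide +kernel)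
          (CovZ.n1 (-29952, 960) (by decide +kernel)
           (CovZ.n2 (-30048, 864) (by decide +kernel)
            (CovZ.n2 (-30048, 960) (by decide +kernel)
             (CovZ.leaf K2_ok TB_l2792 _)
             (CovZ.leaf K2_ok TB_l2793 _))
            (CovZ.leaf K2_ok TB_l2794 _))
           (CovZ.n1 (-30048, 1056) (by decide +kernel)
            (CovZ.leaf K2_ok TB_l2795 _)
            (CovZ.n1 (-30048, 960) (by decide +kernel)
             (CovZ.leaf K2_ok TB_l2796 _)
             (CovZ.leaf K2_ok TB_l2797 _))))))
        (CovZ.n1 (-30144, 1344) (by decide +kernel)
         (CovZ.subM 10576895500644015159911969309855982871927962975279713911513529860377534718924859970578410958868103593043593658684828463661058 (by decide +kernel)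
          (CovZ.n2 (-29952, 1344) (by decide +kernel)
           (CovZ.n2 (-30048, 1248) (by decide +kernel)
            (CovZ.n2 (-30048, 1344) (by decide +kernel)
             (CovZ.leaf K2_ok TB_l2798 _)
             (CovZ.leaf K2_ok TB_l2799 _))
            (CovZ.n1 (-29952, 1248) (by decide +kernel)
             (CovZ.leaf K2_ok TB_l2800 _)
             (CovZ.leaf K2_ok TB_l2801 _)))
           (CovZ.n1 (-30048, 1440) (by decide +kernel)
            (CovZ.n2 (-29952, 1440) (by decide +kernel)
             (CovZ.leaf K2_ok TB_l2802 _)
             (CovZ.n1 (-30000, 1488) (by decide +kernel)
              (CovZ.leaf K2_ok TB_l2803 _)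
              (CovZ.leaf K2_ok TB_l2804 _)))
            (CovZ.n1 (-30048, 1344) (by decide +kernel)
             (CovZ.leaf K2_ok TB_l2805 _)
             (CovZ.leaf K2_ok TB_l2806 _)))))
         (CovZ.n1 (-30144, 1152) (by decide +kernel)
          (CovZ.n2 (-30240, 1248) (by decide +kernel)
           (CovZ.n2 (-30144, 1248) (by decide +kernel)
            (CovZ.leaf K2_ok TB_l2807 _)
            (CovZ.leaf K2_ok TB_l2808 _))
           (CovZ.n1 (-30240, 1152) (by decide +kernel)
            (CovZ.leaf K2_ok TB_l2809 _)
            (CovZ.leaf K2_ok TB_l2810 _)))
          (CovZ.subM 10576895500644015159911969309855982871927962975279713911513529860377534718924859970578410958868103593043593658684828463661058 (by decide +kernel)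
           (CovZ.n1 (-30048, 1248) (by decide +kernel)
            (CovZ.n2 (-30048, 1152) (by decide +kernel)
             (CovZ.leaf K2_ok TB_l2811 _)
             (CovZ.leaf K2_ok TB_l2812 _))
            (CovZ.n1 (-30144, 1248) (by decide +kernel)
             (CovZ.leaf K2_ok TB_l2813 _)
             (CovZ.leaf K2_ok TB_l2814 _)))))))))

theorem TB_u43 : CovZ TB_M (toL (selN TB_LN 322786472706175530992685115530882158886958651224869338275755188094506140245276160424735711561514813350217655584125616130)) [0, 7, 6, 1] (-27648, 0) (-27648, 768) (-28416, 768) :=
    (CovZ.n2 (-28032, 384) (by decide +kernel)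
      (CovZ.n2 (-28032, 768) (by decide +kernel)
       (CovZ.n2 (-27840, 576) (by decide +kernel)
        (CovZ.n2 (-28032, 576) (by decide +kernel)
         (CovZ.n2 (-27936, 672) (by decide +kernel)
          (CovZ.leaf K2_ok TB_l5789 _)
          (CovZ.leaf K2_ok TB_l5790 _))
         (CovZ.n1 (-27936, 480) (by decide +kernel)
          (CovZ.leaf K2_ok TB_l5791 _)
          (CovZ.leaf K2_ok TB_l5792 _)))
        (CovZ.n1 (-27840, 768) (by decide +kernel)
         (CovZ.n2 (-27744, 672) (by decide +kernel)
          (CovZ.n2 (-27840, 672) (by decide +kernel)
           (CovZ.leaf K2_ok TB_l5793 _)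
           (CovZ.leaf K2_ok TB_l5794 _))
          (CovZ.n1 (-27744, 768) (by decide +kernel)
           (CovZ.leaf K2_ok TB_l5795 _)
           (CovZ.leaf K2_ok TB_l5796 _)))
         (CovZ.n1 (-27936, 672) (by decide +kernel)
          (CovZ.n2 (-27936, 768) (by decide +kernel)
           (CovZ.leaf K2_ok TB_l5797 _)
           (CovZ.leaf K2_ok TB_l5798 _))
          (CovZ.leaf K2_ok TB_l5799 _))))
       (CovZ.n1 (-28224, 576) (by decide +kernel)
        (CovZ.n2 (-28224, 768) (by decide +kernel)
         (CovZ.n2 (-28128, 672) (by decide +kernel)
          (CovZ.leaf K2_ok TB_l5800 _)
          (CovZ.n1 (-28128, 768) (by decide +kernel)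
           (CovZ.leaf K2_ok TB_l5801 _)
           (CovZ.leaf K2_ok TB_l5802 _)))
         (CovZ.n1 (-28320, 672) (by decide +kernel)
          (CovZ.leaf K2_ok TB_l5803 _)
          (CovZ.leaf K2_ok TB_l5804 _)))
        (CovZ.n1 (-28032, 576) (by decide +kernel)
         (CovZ.n2 (-28128, 480) (by decide +kernel)
          (CovZ.leaf K2_ok TB_l5805 _)
          (CovZ.leaf K2_ok TB_l5806 _))
         (CovZ.n1 (-28128, 672) (by decide +kernel)
          (CovZ.leaf K2_ok TB_l5807 _)
          (CovZ.leaf K2_ok TB_l5808 _)))))
      (CovZ.n1 (-27648, 384) (by decide +kernel)
       (CovZ.n2 (-27840, 192) (by decide +kernel)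
        (CovZ.n2 (-27840, 384) (by decide +kernel)
         (CovZ.n2 (-27744, 288) (by decide +kernel)
          (CovZ.leaf K2_ok TB_l5809 _)
          (CovZ.leaf K2_ok TB_l5810 _))
         (CovZ.n1 (-27936, 288) (by decide +kernel)
          (CovZ.leaf K2_ok TB_l5811 _)
          (CovZ.leaf K2_ok TB_l5812 _)))
        (CovZ.n1 (-27648, 192) (by decide +kernel)
         (CovZ.n2 (-27744, 96) (by decide +kernel)
          (CovZ.leaf K2_ok TB_l5813 _)
          (CovZ.leaf K2_ok TB_l5814 _))
         (CovZ.n1 (-27744, 288) (by decide +kernel)
          (CovZ.leaf K2_ok TB_l5815 _)
          (CovZ.leaf K2_ok TB_l5816 _))))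
       (CovZ.n1 (-27840, 576) (by decide +kernel)
        (CovZ.n2 (-27648, 576) (by decide +kernel)
         (CovZ.n2 (-27744, 480) (by decide +kernel)
          (CovZ.n2 (-27744, 576) (by decide +kernel)
           (CovZ.leaf K2_ok TB_l5817 _)
           (CovZ.leaf K2_ok TB_l5818 _))
          (CovZ.leaf K2_ok TB_l5819 _))
         (CovZ.n1 (-27744, 672) (by decide +kernel)
          (CovZ.leaf K2_ok TB_l5820 _)
          (CovZ.n1 (-27744, 576) (by decide +kernel)
           (CovZ.leaf K2_ok TB_l5821 _)
           (CovZ.leaf K2_ok TB_l5822 _))))
        (CovZ.n1 (-27840, 384) (by decide +kernel)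
         (CovZ.n2 (-27936, 480) (by decide +kernel)
          (CovZ.leaf K2_ok TB_l5823 _)
          (CovZ.leaf K2_ok TB_l5824 _))
         (CovZ.n1 (-27744, 480) (by decide +kernel)
          (CovZ.leaf K2_ok TB_l5825 _)
          (CovZ.leaf K2_ok TB_l5826 _))))))

theorem TB_u44 : CovZ TB_M (toL (selN TB_LN 322786472706175530992685115530882158886958651224869338275755188094506140245276160424735711561514813350217655584125616130)) [0, 7, 6, 1] (-27648, 768) (-27648, 1536) (-28416, 768) :=
    (CovZ.n1 (-28032, 1152) (by decide +kernel)
      (CovZ.n2 (-27648, 1152) (by decide +kernel)
       (CovZ.n2 (-27840, 960) (by decide +kernel)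
        (CovZ.n2 (-27840, 1152) (by decide +kernel)
         (CovZ.n2 (-27744, 1056) (by decide +kernel)
          (CovZ.subM 322781542626650360341095915229963442699902817466350741415746428604129043010131601031526436595532066664549406923651809280 (by decide +kernel)
           (CovZ.n2 (-27840, 1056) (by decide +kernel)
            (CovZ.n2 (-27792, 1104) (by decide +kernel)
             (CovZ.leaf K2_ok TB_l5827 _)
             (CovZ.leaf K2_ok TB_l5828 _))
            (CovZ.n1 (-27792, 1008) (by decide +kernel)
             (CovZ.leaf K2_ok TB_l5829 _)
             (CovZ.leaf K2_ok TB_l5830 _))))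
          (CovZ.n1 (-27744, 1152) (by decide +kernel)
           (CovZ.n2 (-27696, 1104) (by decide +kernel)
            (CovZ.leaf K2_ok TB_l5831 _)
            (CovZ.leaf K2_ok TB_l5832 _))
           (CovZ.n1 (-27792, 1104) (by decide +kernel)
            (CovZ.leaf K2_ok TB_l5833 _)
            (CovZ.leaf K2_ok TB_l5834 _))))
         (CovZ.subM 322781542626650360341095915229963442699902817466350741415746428604129043010131601031526436595532066664549406923651809280 (by decide +kernel)
          (CovZ.n1 (-27936, 1056) (by decide +kernel)
           (CovZ.n2 (-27936, 1152) (by decide +kernel)
            (CovZ.n2 (-27888, 1104) (by decide +kernel)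
             (CovZ.leaf K2_ok TB_l5835 _)
             (CovZ.leaf K2_ok TB_l5836 _))
            (CovZ.n1 (-27984, 1104) (by decide +kernel)
             (CovZ.leaf K2_ok TB_l5837 _)
             (CovZ.leaf K2_ok TB_l5838 _)))
           (CovZ.n1 (-27840, 1056) (by decide +kernel)
            (CovZ.leaf K2_ok TB_l5839 _)
            (CovZ.n1 (-27888, 1104) (by decide +kernel)
             (CovZ.leaf K2_ok TB_l5840 _)
             (CovZ.leaf K2_ok TB_l5841 _))))))
        (CovZ.n1 (-27648, 960) (by decide +kernel)
         (CovZ.n2 (-27744, 864) (by decide +kernel)
          (CovZ.n2 (-27744, 960) (by decide +kernel)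
           (CovZ.leaf K2_ok TB_l5842 _)
           (CovZ.leaf K2_ok TB_l5843 _))
          (CovZ.n1 (-27648, 864) (by decide +kernel)
           (CovZ.leaf K2_ok TB_l5844 _)
           (CovZ.leaf K2_ok TB_l5845 _)))
         (CovZ.n1 (-27744, 1056) (by decide +kernel)
          (CovZ.n2 (-27648, 1056) (by decide +kernel)
           (CovZ.n2 (-27696, 1008) (by decide +kernel)
            (CovZ.leaf K2_ok TB_l5846 _)
            (CovZ.leaf K2_ok TB_l5847 _))
           (CovZ.n1 (-27696, 1104) (by decide +kernel)
            (CovZ.leaf K2_ok TB_l5848 _)
            (CovZ.leaf K2_ok TB_l5849 _)))
          (CovZ.n1 (-27744, 960) (by decide +kernel)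
           (CovZ.n2 (-27792, 1008) (by decide +kernel)
            (CovZ.leaf K2_ok TB_l5850 _)
            (CovZ.leaf K2_ok TB_l5851 _))
           (CovZ.n1 (-27696, 1008) (by decide +kernel)
            (CovZ.leaf K2_ok TB_l5852 _)
            (CovZ.leaf K2_ok TB_l5853 _))))))
       (CovZ.n1 (-27840, 1344) (by decide +kernel)
        (CovZ.n2 (-27648, 1344) (by decide +kernel)
         (CovZ.n2 (-27744, 1248) (by decide +kernel)
          (CovZ.subM 322786467877571693562420814686717063895982146851401908187403801710457010483987104408967978536773174888295124428635766784 (by decide +kernel)
           (CovZ.n2 (-27744, 1344) (by decide +kernel)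
            (CovZ.n2 (-27696, 1296) (by decide +kernel)
             (CovZ.n2 (-27744, 1296) (by decide +kernel)
              (CovZ.leaf K2_ok TB_l5854 _)
              (CovZ.leaf K2_ok TB_l5855 _))
             (CovZ.n1 (-27696, 1344) (by decide +kernel)
              (CovZ.leaf K2_ok TB_l5856 _)
              (CovZ.leaf K2_ok TB_l5857 _)))
            (CovZ.n1 (-27792, 1296) (by decide +kernel)
             (CovZ.n2 (-27792, 1344) (by decide +kernel)
              (CovZ.leaf K2_ok TB_l5858 _)
              (CovZ.leaf K2_ok TB_l5859 _))
             (CovZ.leaf K2_ok TB_l5860 _))))
          (CovZ.n1 (-27648, 1248) (by decide +kernel)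
           (CovZ.n2 (-27696, 1200) (by decide +kernel)
            (CovZ.n2 (-27696, 1248) (by decide +kernel)
             (CovZ.leaf K2_ok TB_l5861 _)
             (CovZ.leaf K2_ok TB_l5862 _))
            (CovZ.leaf K2_ok TB_l5863 _))
           (CovZ.n1 (-27696, 1296) (by decide +kernel)
            (CovZ.n2 (-27648, 1296) (by decide +kernel)
             (CovZ.leaf K2_ok TB_l5864 _)
             (CovZ.leaf K2_ok TB_l5865 _))
            (CovZ.n1 (-27696, 1248) (by decide +kernel)
             (CovZ.leaf K2_ok TB_l5866 _)
             (CovZ.leaf K2_ok TB_l5867 _)))))
         (CovZ.subM 322786467877571693562420814686717063895982146851401908187400587834164957939414769620782578247024730043858195053300154368 (by decide +kernel)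
          (CovZ.n1 (-27744, 1440) (by decide +kernel)
           (CovZ.n2 (-27648, 1440) (by decide +kernel)
            (CovZ.n2 (-27696, 1392) (by decide +kernel)
             (CovZ.n2 (-27696, 1440) (by decide +kernel)
              (CovZ.n2 (-27672, 1416) (by decide +kernel)
               (CovZ.leaf K2_ok TB_l5868 _)
               (CovZ.leaf K2_ok TB_l5869 _))
              (CovZ.n1 (-27720, 1416) (by decide +kernel)
               (CovZ.leaf K2_ok TB_l5870 _)
               (CovZ.leaf K2_ok TB_l5871 _)))
             (CovZ.n1 (-27648, 1392) (by decide +kernel)
              (CovZ.leaf K2_ok TB_l5872 _)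
              (CovZ.n1 (-27672, 1416) (by decide +kernel)
               (CovZ.leaf K2_ok TB_l5873 _)
               (CovZ.leaf K2_ok TB_l5874 _))))
            (CovZ.n1 (-27696, 1488) (by decide +kernel)
             (CovZ.n2 (-27648, 1488) (by decide +kernel)
              (CovZ.n2 (-27672, 1464) (by decide +kernel)
               (CovZ.leaf K2_ok TB_l5875 _)
               (CovZ.leaf K2_ok TB_l5876 _))
              (CovZ.n1 (-27672, 1512) (by decide +kernel)
               (CovZ.leaf K2_ok TB_l5877 _)
               (CovZ.leaf K2_ok TB_l5878 _)))
             (CovZ.n1 (-27696, 1440) (by decide +kernel)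
              (CovZ.n2 (-27720, 1464) (by decide +kernel)
               (CovZ.leaf K2_ok TB_l5879 _)
               (CovZ.leaf K2_ok TB_l5880 _))
              (CovZ.n1 (-27672, 1464) (by decide +kernel)
               (CovZ.leaf K2_ok TB_l5881 _)
               (CovZ.leaf K2_ok TB_l5882 _)))))
           (CovZ.n1 (-27744, 1344) (by decide +kernel)
            (CovZ.n2 (-27792, 1392) (by decide +kernel)
             (CovZ.n2 (-27744, 1392) (by decide +kernel)
              (CovZ.leaf K2_ok TB_l5883 _)
              (CovZ.leaf K2_ok TB_l5884 _))
             (CovZ.n1 (-27792, 1344) (by decide +kernel)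
              (CovZ.leaf K2_ok TB_l5885 _)
              (CovZ.leaf K2_ok TB_l5886 _)))
            (CovZ.n1 (-27696, 1392) (by decide +kernel)
             (CovZ.n2 (-27696, 1344) (by decide +kernel)
              (CovZ.leaf K2_ok TB_l5887 _)
              (CovZ.leaf K2_ok TB_l5888 _))
             (CovZ.n1 (-27744, 1392) (by decide +kernel)
              (CovZ.n2 (-27720, 1416) (by decide +kernel)
               (CovZ.leaf K2_ok TB_l5889 _)
               (CovZ.leaf K2_ok TB_l5890 _))
              (CovZ.leaf K2_ok TB_l5891 _)))))))
        (CovZ.n1 (-27840, 1152) (by decide +kernel)
         (CovZ.subM 322781542626650360341095915229963442699902817466350741402582390576283960826221656612120276753753575713891906900853784576 (by decide +kernel)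
          (CovZ.n2 (-27936, 1248) (by decide +kernel)
           (CovZ.n2 (-27840, 1248) (by decide +kernel)
            (CovZ.n2 (-27888, 1200) (by decide +kernel)
             (CovZ.leaf K2_ok TB_l5892 _)
             (CovZ.leaf K2_ok TB_l5893 _))
            (CovZ.n1 (-27888, 1296) (by decide +kernel)
             (CovZ.leaf K2_ok TB_l5894 _)
             (CovZ.leaf K2_ok TB_l5895 _)))
           (CovZ.n1 (-27936, 1152) (by decide +kernel)
            (CovZ.n2 (-27984, 1200) (by decide +kernel)
             (CovZ.leaf K2_ok TB_l5896 _)
             (CovZ.leaf K2_ok TB_l5897 _))
            (CovZ.n1 (-27888, 1200) (by decide +kernel)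
             (CovZ.leaf K2_ok TB_l5898 _)
             (CovZ.leaf K2_ok TB_l5899 _)))))
         (CovZ.n1 (-27744, 1248) (by decide +kernel)
          (CovZ.n2 (-27744, 1152) (by decide +kernel)
           (CovZ.n2 (-27792, 1200) (by decide +kernel)
            (CovZ.leaf K2_ok TB_l5900 _)
            (CovZ.leaf K2_ok TB_l5901 _))
           (CovZ.n1 (-27696, 1200) (by decide +kernel)
            (CovZ.leaf K2_ok TB_l5902 _)
            (CovZ.leaf K2_ok TB_l5903 _)))
          (CovZ.subM 322781542626650360341095915229963442699902817466350741402582390576283960826221656612120276753753575713891906900853784576 (by decide +kernel)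
           (CovZ.n1 (-27840, 1248) (by decide +kernel)
            (CovZ.n2 (-27792, 1296) (by decide +kernel)
             (CovZ.n2 (-27792, 1248) (by decide +kernel)
              (CovZ.leaf K2_ok TB_l5904 _)
              (CovZ.leaf K2_ok TB_l5905 _))
             (CovZ.n1 (-27840, 1296) (by decide +kernel)
              (CovZ.leaf K2_ok TB_l5906 _)
              (CovZ.leaf K2_ok TB_l5907 _)))
            (CovZ.n1 (-27792, 1200) (by decide +kernel)
             (CovZ.leaf K2_ok TB_l5908 _)
             (CovZ.n1 (-27792, 1248) (by decide +kernel)
              (CovZ.leaf K2_ok TB_l5909 _)
              (CovZ.leaf K2_ok TB_l5910 _)))))))))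
      (CovZ.n1 (-28032, 768) (by decide +kernel)
       (CovZ.n2 (-28224, 960) (by decide +kernel)
        (CovZ.subM 322781542626650360341095915229963442699902817466350741415952116673794193765400972179346105408654908647753604406570385408 (by decide +kernel)
         (CovZ.n2 (-28032, 960) (by decide +kernel)
          (CovZ.n2 (-28128, 864) (by decide +kernel)
           (CovZ.n2 (-28128, 960) (by decide +kernel)
            (CovZ.leaf K2_ok TB_l5911 _)
            (CovZ.leaf K2_ok TB_l5912 _))
           (CovZ.n1 (-28032, 864) (by decide +kernel)
            (CovZ.leaf K2_ok TB_l5913 _)
            (CovZ.leaf K2_ok TB_l5914 _)))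
          (CovZ.n1 (-28128, 1056) (by decide +kernel)
           (CovZ.n2 (-28032, 1056) (by decide +kernel)
            (CovZ.leaf K2_ok TB_l5915 _)
            (CovZ.leaf K2_ok TB_l5916 _))
           (CovZ.n1 (-28128, 960) (by decide +kernel)
            (CovZ.leaf K2_ok TB_l5917 _)
            (CovZ.leaf K2_ok TB_l5918 _)))))
        (CovZ.n1 (-28224, 768) (by decide +kernel)
         (CovZ.n2 (-28320, 864) (by decide +kernel)
          (CovZ.leaf K2_ok TB_l5919 _)
          (CovZ.n1 (-28320, 768) (by decide +kernel)
           (CovZ.leaf K2_ok TB_l5920 _)
           (CovZ.leaf K2_ok TB_l5921 _)))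
         (CovZ.subM 322781542626650360341095915229963442699902817466350741415952116673794193765400972179346105408654908647753604406570385408 (by decide +kernel)
          (CovZ.n1 (-28128, 864) (by decide +kernel)
           (CovZ.n2 (-28128, 768) (by decide +kernel)
            (CovZ.leaf K2_ok TB_l5922 _)
            (CovZ.leaf K2_ok TB_l5923 _))
           (CovZ.n1 (-28224, 864) (by decide +kernel)
            (CovZ.leaf K2_ok TB_l5924 _)
            (CovZ.leaf K2_ok TB_l5925 _))))))
       (CovZ.n1 (-27840, 960) (by decide +kernel)
        (CovZ.n2 (-27840, 768) (by decide +kernel)
         (CovZ.subM 322781542626650360341095915229963442699902817466350741415952116673794193765400972179346105408654908647753604406570385408 (by decide +kernel)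
          (CovZ.n2 (-27936, 864) (by decide +kernel)
           (CovZ.n2 (-27840, 864) (by decide +kernel)
            (CovZ.leaf K2_ok TB_l5926 _)
            (CovZ.leaf K2_ok TB_l5927 _))
           (CovZ.n1 (-27936, 768) (by decide +kernel)
            (CovZ.leaf K2_ok TB_l5928 _)
            (CovZ.leaf K2_ok TB_l5929 _))))
         (CovZ.n1 (-27744, 864) (by decide +kernel)
          (CovZ.n2 (-27744, 768) (by decide +kernel)
           (CovZ.leaf K2_ok TB_l5930 _)
           (CovZ.leaf K2_ok TB_l5931 _))
          (CovZ.n1 (-27840, 864) (by decide +kernel)
           (CovZ.leaf K2_ok TB_l5932 _)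
           (CovZ.leaf K2_ok TB_l5933 _))))
        (CovZ.subM 322781542626650360341095915229963442699902817466350741415952116673794193765400972179346105408654908647753604406570385408 (by decide +kernel)
         (CovZ.n1 (-28032, 960) (by decide +kernel)
          (CovZ.n2 (-27936, 1056) (by decide +kernel)
           (CovZ.n2 (-27936, 960) (by decide +kernel)
            (CovZ.leaf K2_ok TB_l5934 _)
            (CovZ.leaf K2_ok TB_l5935 _))
           (CovZ.n1 (-28032, 1056) (by decide +kernel)
            (CovZ.n2 (-27984, 1104) (by decide +kernel)
             (CovZ.leaf K2_ok TB_l5936 _)
             (CovZ.leaf K2_ok TB_l5937 _))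
            (CovZ.n1 (-27984, 1008) (by decide +kernel)
             (CovZ.leaf K2_ok TB_l5938 _)
             (CovZ.leaf K2_ok TB_l5939 _))))
          (CovZ.n1 (-27936, 864) (by decide +kernel)
           (CovZ.n2 (-28032, 864) (by decide +kernel)
            (CovZ.leaf K2_ok TB_l5940 _)
            (CovZ.leaf K2_ok TB_l5941 _))
           (CovZ.n1 (-27936, 960) (by decide +kernel)
            (CovZ.leaf K2_ok TB_l5942 _)
            (CovZ.leaf K2_ok TB_l5943 _))))))))

theorem TB_u45 : CovZ TB_M (toL (selN TB_LN 322786472706175530992685115530882158886958651224869338275755188094506140245276160424735711561514813350217655584125616130)) [0, 7, 6, 1] (-28416, 768) (-28032, 1152) (-28416, 1536) :=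
    (CovZ.n2 (-28416, 1152) (by decide +kernel)
       (CovZ.subM 322781542626650360341095915229964437346375637039635052140750612870100298910713935345584905403900192208337515270036258816 (by decide +kernel)
        (CovZ.n2 (-28224, 1344) (by decide +kernel)
         (CovZ.n2 (-28224, 1152) (by decide +kernel)
          (CovZ.n2 (-28320, 1248) (by decide +kernel)
           (CovZ.n2 (-28224, 1248) (by decide +kernel)
            (CovZ.n2 (-28272, 1200) (by decide +kernel)
             (CovZ.leaf K2_ok TB_l6074 _)
             (CovZ.leaf K2_ok TB_l6075 _))
            (CovZ.n1 (-28272, 1296) (by decide +kernel)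
             (CovZ.leaf K2_ok TB_l6076 _)
             (CovZ.leaf K2_ok TB_l6077 _)))
           (CovZ.n1 (-28320, 1152) (by decide +kernel)
            (CovZ.leaf K2_ok TB_l6078 _)
            (CovZ.leaf K2_ok TB_l6079 _)))
          (CovZ.n1 (-28128, 1248) (by decide +kernel)
           (CovZ.n2 (-28128, 1152) (by decide +kernel)
            (CovZ.n2 (-28176, 1200) (by decide +kernel)
             (CovZ.leaf K2_ok TB_l6080 _)
             (CovZ.leaf K2_ok TB_l6081 _))
            (CovZ.n1 (-28080, 1200) (by decide +kernel)
             (CovZ.leaf K2_ok TB_l6082 _)
             (CovZ.leaf K2_ok TB_l6083 _)))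
           (CovZ.n1 (-28224, 1248) (by decide +kernel)
            (CovZ.n2 (-28176, 1296) (by decide +kernel)
             (CovZ.leaf K2_ok TB_l6084 _)
             (CovZ.leaf K2_ok TB_l6085 _))
            (CovZ.n1 (-28176, 1200) (by decide +kernel)
             (CovZ.leaf K2_ok TB_l6086 _)
             (CovZ.leaf K2_ok TB_l6087 _)))))
         (CovZ.n1 (-28416, 1344) (by decide +kernel)
          (CovZ.n2 (-28320, 1440) (by decide +kernel)
           (CovZ.n2 (-28320, 1344) (by decide +kernel)
            (CovZ.n2 (-28368, 1392) (by decide +kernel)
             (CovZ.leaf K2_ok TB_l6088 _)
             (CovZ.leaf K2_ok TB_l6089 _))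
            (CovZ.n1 (-28272, 1392) (by decide +kernel)
             (CovZ.leaf K2_ok TB_l6090 _)
             (CovZ.leaf K2_ok TB_l6091 _)))
           (CovZ.n1 (-28416, 1440) (by decide +kernel)
            (CovZ.n2 (-28368, 1488) (by decide +kernel)
             (CovZ.leaf K2_ok TB_l6092 _)
             (CovZ.leaf K2_ok TB_l6093 _))
            (CovZ.n1 (-28368, 1392) (by decide +kernel)
             (CovZ.leaf K2_ok TB_l6094 _)
             (CovZ.n1 (-28368, 1440) (by decide +kernel)
              (CovZ.leaf K2_ok TB_l6095 _)
              (CovZ.leaf K2_ok TB_l6096 _)))))
          (CovZ.n1 (-28320, 1248) (by decide +kernel)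
           (CovZ.n2 (-28416, 1248) (by decide +kernel)
            (CovZ.n2 (-28368, 1296) (by decide +kernel)
             (CovZ.leaf K2_ok TB_l6097 _)
             (CovZ.leaf K2_ok TB_l6098 _))
            (CovZ.leaf K2_ok TB_l6099 _))
           (CovZ.n1 (-28320, 1344) (by decide +kernel)
            (CovZ.n2 (-28272, 1296) (by decide +kernel)
             (CovZ.leaf K2_ok TB_l6100 _)
             (CovZ.leaf K2_ok TB_l6101 _))
            (CovZ.n1 (-28368, 1296) (by decide +kernel)
             (CovZ.leaf K2_ok TB_l6102 _)
             (CovZ.leaf K2_ok TB_l6103 _)))))))
       (CovZ.n1 (-28224, 960) (by decide +kernel)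
        (CovZ.subM 307865786786634106018729587953055162412935982113063451853855696027401465442712985741814066921474503982645386936320 (by decide +kernel)
         (CovZ.n2 (-28416, 960) (by decide +kernel)
          (CovZ.n2 (-28320, 1056) (by decide +kernel)
           (CovZ.n2 (-28320, 960) (by decide +kernel)
            (CovZ.leaf K2_ok TB_l6104 _)
            (CovZ.leaf K2_ok TB_l6105 _))
           (CovZ.n1 (-28416, 1056) (by decide +kernel)
            (CovZ.leaf K2_ok TB_l6106 _)
            (CovZ.leaf K2_ok TB_l6107 _)))
          (CovZ.n1 (-28320, 864) (by decide +kernel)
           (CovZ.leaf K2_ok TB_l6108 _)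
           (CovZ.n1 (-28320, 960) (by decide +kernel)
            (CovZ.leaf K2_ok TB_l6109 _)
            (CovZ.leaf K2_ok TB_l6110 _)))))
        (CovZ.subM 322781542626650360341095915229964437346375637039635052140750612870100298910713935345584905403900192208337515270036258816 (by decide +kernel)
         (CovZ.n1 (-28224, 1152) (by decide +kernel)
          (CovZ.n2 (-28128, 1056) (by decide +kernel)
           (CovZ.n2 (-28224, 1056) (by decide +kernel)
            (CovZ.leaf K2_ok TB_l6111 _)
            (CovZ.leaf K2_ok TB_l6112 _))
           (CovZ.n1 (-28128, 1152) (by decide +kernel)
            (CovZ.leaf K2_ok TB_l6113 _)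
            (CovZ.leaf K2_ok TB_l6114 _)))
          (CovZ.n1 (-28320, 1056) (by decide +kernel)
           (CovZ.n2 (-28320, 1152) (by decide +kernel)
            (CovZ.leaf K2_ok TB_l6115 _)
            (CovZ.leaf K2_ok TB_l6116 _))
           (CovZ.n1 (-28224, 1056) (by decide +kernel)
            (CovZ.leaf K2_ok TB_l6117 _)
            (CovZ.leaf K2_ok TB_l6118 _)))))))

end Pool.Agent.TET
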