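import Pool.Agent.Helper38_TET.TB_M
import Pool.Agent.Helper38_TET.TB_L
import Pool.Agent.Helper38_TET.TB_39
import Pool.Agent.Helper38_TET.TB_40
import Pool.Agent.Helper38_TET.TB_41
import Pool.Agent.Helper38_TET.TB_42
import Pool.Agent.Helper38_TET.TB_61
import Pool.Agent.Helper38_TET.TB_62
import Pool.Agent.Helper38_TET.TB_63
import Pool.Agent.Helper38_TET.TB_64
import Pool.Agent.Helper38_TET.TB_65
import Pool.Agent.Helper38_TET.TB_263
import Pool.Agent.Helper38_TET.TB_324
import Pool.Agent.Helper38_TET.TB_U2

/-!
# MP_c7c9bf_co: certificates, family TB
-/

set_option autoImplicit false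
set_option maxRecDepth 100000

namespace Pool.Agent.TET

theorem TB_u46 : CovZ TB_M (toL (selN TB_LN 322786472706175530992685115530882158886958651224869338275755188094506140245276160424735711561514813350217655584125616130)) [0, 7, 6, 1] (-28032, 1152) (-27648, 1536) (-28416, 1536) :=
    (CovZ.n1 (-28032, 1536) (by decide +kernel)
       (CovZ.n2 (-27840, 1344) (by decide +kernel)
        (CovZ.subM 322781542626650360341095915229963442699902817466350741376254317659144664151742149691202668674029801863754629087276040192 (by decide +kernel)
         (CovZ.n2 (-28032, 1344) (by decide +kernel)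
          (CovZ.n2 (-27936, 1440) (by decide +kernel)
           (CovZ.n2 (-27936, 1344) (by decide +kernel)
            (CovZ.n2 (-27984, 1392) (by decide +kernel)
             (CovZ.leaf K2_ok TB_l6119 _)
             (CovZ.n1 (-27984, 1344) (by decide +kernel)
              (CovZ.leaf K2_ok TB_l6120 _)
              (CovZ.leaf K2_ok TB_l6121 _)))
            (CovZ.n1 (-27888, 1392) (by decide +kernel)
             (CovZ.n2 (-27888, 1344) (by decide +kernel)
              (CovZ.leaf K2_ok TB_l6122 _)
              (CovZ.leaf K2_ok TB_l6123 _))
             (CovZ.n1 (-27936, 1392) (by decide +kernel)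
              (CovZ.leaf K2_ok TB_l6124 _)
              (CovZ.leaf K2_ok TB_l6125 _))))
           (CovZ.n1 (-28032, 1440) (by decide +kernel)
            (CovZ.n2 (-27984, 1488) (by decide +kernel)
             (CovZ.n2 (-27984, 1440) (by decide +kernel)
              (CovZ.leaf K2_ok TB_l6126 _)
              (CovZ.leaf K2_ok TB_l6127 _))
             (CovZ.n1 (-28032, 1488) (by decide +kernel)
              (CovZ.leaf K2_ok TB_l6128 _)
              (CovZ.leaf K2_ok TB_l6129 _)))
            (CovZ.n1 (-27984, 1392) (by decide +kernel)
             (CovZ.n2 (-28032, 1392) (by decide +kernel)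
              (CovZ.leaf K2_ok TB_l6130 _)
              (CovZ.leaf K2_ok TB_l6131 _))
             (CovZ.n1 (-27984, 1440) (by decide +kernel)
              (CovZ.leaf K2_ok TB_l6132 _)
              (CovZ.leaf K2_ok TB_l6133 _)))))
          (CovZ.n1 (-27936, 1248) (by decide +kernel)
           (CovZ.n2 (-28032, 1248) (by decide +kernel)
            (CovZ.n2 (-27984, 1296) (by decide +kernel)
             (CovZ.leaf K2_ok TB_l6134 _)
             (CovZ.leaf K2_ok TB_l6135 _))
            (CovZ.n1 (-27984, 1200) (by decide +kernel)
             (CovZ.leaf K2_ok TB_l6136 _)
             (CovZ.leaf K2_ok TB_l6137 _)))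
           (CovZ.n1 (-27936, 1344) (by decide +kernel)
            (CovZ.n2 (-27888, 1296) (by decide +kernel)
             (CovZ.leaf K2_ok TB_l6138 _)
             (CovZ.n1 (-27888, 1344) (by decide +kernel)
              (CovZ.leaf K2_ok TB_l6139 _)
              (CovZ.leaf K2_ok TB_l6140 _)))
            (CovZ.n1 (-27984, 1296) (by decide +kernel)
             (CovZ.n2 (-27984, 1344) (by decide +kernel)
              (CovZ.leaf K2_ok TB_l6141 _)
              (CovZ.leaf K2_ok TB_l6142 _))
             (CovZ.leaf K2_ok TB_l6143 _))))))
        (CovZ.subM 322786467877571693562420814686717063895982146851401908187400587834164957939414769620782578247024730043858195053300154368 (by decide +kernel)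
         (CovZ.n1 (-27840, 1536) (by decide +kernel)
          (CovZ.n2 (-27744, 1440) (by decide +kernel)
           (CovZ.n2 (-27840, 1440) (by decide +kernel)
            (CovZ.n2 (-27792, 1488) (by decide +kernel)
             (CovZ.n2 (-27792, 1440) (by decide +kernel)
              (CovZ.n2 (-27816, 1464) (by decide +kernel)
               (CovZ.leaf K2_ok TB_l6144 _)
               (CovZ.leaf K2_ok TB_l6145 _))
              (CovZ.n1 (-27768, 1464) (by decide +kernel)
               (CovZ.leaf K2_ok TB_l6146 _)
               (CovZ.leaf K2_ok TB_l6147 _)))
             (CovZ.n1 (-27840, 1488) (by decide +kernel)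
              (CovZ.n2 (-27816, 1512) (by decide +kernel)
               (CovZ.leaf K2_ok TB_l6148 _)
               (CovZ.leaf K2_ok TB_l6149 _))
              (CovZ.n1 (-27816, 1464) (by decide +kernel)
               (CovZ.leaf K2_ok TB_l6150 _)
               (CovZ.leaf K2_ok TB_l6151 _))))
            (CovZ.n1 (-27792, 1392) (by decide +kernel)
             (CovZ.n2 (-27840, 1392) (by decide +kernel)
              (CovZ.leaf K2_ok TB_l6152 _)
              (CovZ.leaf K2_ok TB_l6153 _))
             (CovZ.n1 (-27792, 1440) (by decide +kernel)
              (CovZ.leaf K2_ok TB_l6154 _)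
              (CovZ.leaf K2_ok TB_l6155 _))))
           (CovZ.n1 (-27744, 1536) (by decide +kernel)
            (CovZ.n2 (-27696, 1488) (by decide +kernel)
             (CovZ.n2 (-27744, 1488) (by decide +kernel)
              (CovZ.n2 (-27720, 1512) (by decide +kernel)
               (CovZ.leaf K2_ok TB_l6156 _)
               (CovZ.leaf K2_ok TB_l6157 _))
              (CovZ.n1 (-27720, 1464) (by decide +kernel)
               (CovZ.leaf K2_ok TB_l6158 _)
               (CovZ.leaf K2_ok TB_l6159 _)))
             (CovZ.subM 146783911423364576743092537299333564210980160131430510369394999487518943076954972647932604860969373141041152 (by decide +kernel)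
              (CovZ.n1 (-27696, 1536) (by decide +kernel)
               (CovZ.n2 (-27672, 1512) (by decide +kernel)
                (CovZ.leaf K2_ok TB_l6160 _)
                (CovZ.n1 (-27672, 1536) (by decide +kernel)
                 (CovZ.leaf K2_ok TB_l6161 _)
                 (CovZ.leaf K2_ok TB_l6162 _)))
               (CovZ.n1 (-27720, 1512) (by decide +kernel)
                (CovZ.n2 (-27720, 1536) (by decide +kernel)
                 (CovZ.leaf K2_ok TB_l6163 _)
                 (CovZ.leaf K2_ok TB_l6164 _))
                (CovZ.leaf K2_ok TB_l6165 _)))))
            (CovZ.n1 (-27792, 1488) (by decide +kernel)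
             (CovZ.subM 322781542589073679016714583583729701691026097068376740253626259848718732794007219787017853236424640710960663613354803200 (by decide +kernel)
              (CovZ.n2 (-27792, 1536) (by decide +kernel)
               (CovZ.n2 (-27768, 1512) (by decide +kernel)
                (CovZ.leaf K2_ok TB_l6166 _)
                (CovZ.leaf K2_ok TB_l6167 _))
               (CovZ.n1 (-27816, 1512) (by decide +kernel)
                (CovZ.leaf K2_ok TB_l6168 _)
                (CovZ.leaf K2_ok TB_l6169 _))))
             (CovZ.n1 (-27744, 1488) (by decide +kernel)
              (CovZ.n2 (-27768, 1464) (by decide +kernel)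
               (CovZ.leaf K2_ok TB_l6170 _)
               (CovZ.leaf K2_ok TB_l6171 _))
              (CovZ.n1 (-27768, 1512) (by decide +kernel)
               (CovZ.leaf K2_ok TB_l6172 _)
               (CovZ.leaf K2_ok TB_l6173 _))))))
          (CovZ.n1 (-27936, 1440) (by decide +kernel)
           (CovZ.n2 (-27936, 1536) (by decide +kernel)
            (CovZ.n2 (-27888, 1488) (by decide +kernel)
             (CovZ.n2 (-27936, 1488) (by decide +kernel)
              (CovZ.leaf K2_ok TB_l6174 _)
              (CovZ.leaf K2_ok TB_l6175 _))
             (CovZ.n1 (-27888, 1536) (by decide +kernel)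
              (CovZ.n2 (-27864, 1512) (by decide +kernel)
               (CovZ.leaf K2_ok TB_l6176 _)
               (CovZ.leaf K2_ok TB_l6177 _))
              (CovZ.leaf K2_ok TB_l6178 _)))
            (CovZ.n1 (-27984, 1488) (by decide +kernel)
             (CovZ.n2 (-27984, 1536) (by decide +kernel)
              (CovZ.leaf K2_ok TB_l6179 _)
              (CovZ.leaf K2_ok TB_l6180 _))
             (CovZ.n1 (-27936, 1488) (by decide +kernel)
              (CovZ.leaf K2_ok TB_l6181 _)
              (CovZ.leaf K2_ok TB_l6182 _))))
           (CovZ.n1 (-27840, 1440) (by decide +kernel)
            (CovZ.n2 (-27888, 1392) (by decide +kernel)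
             (CovZ.n2 (-27888, 1440) (by decide +kernel)
              (CovZ.leaf K2_ok TB_l6183 _)
              (CovZ.leaf K2_ok TB_l6184 _))
             (CovZ.n1 (-27840, 1392) (by decide +kernel)
              (CovZ.leaf K2_ok TB_l6185 _)
              (CovZ.leaf K2_ok TB_l6186 _)))
            (CovZ.n1 (-27888, 1488) (by decide +kernel)
             (CovZ.n2 (-27840, 1488) (by decide +kernel)
              (CovZ.leaf K2_ok TB_l6187 _)
              (CovZ.n1 (-27864, 1512) (by decide +kernel)
               (CovZ.leaf K2_ok TB_l6188 _)
               (CovZ.leaf K2_ok TB_l6189 _)))
             (CovZ.n1 (-27888, 1440) (by decide +kernel)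
              (CovZ.leaf K2_ok TB_l6190 _)
              (CovZ.leaf K2_ok TB_l6191 _))))))))
       (CovZ.subM 322781542626650360341095915229964437346375637039635052140750611300824865064043744386637549601983588182748654154027106304 (by decide +kernel)
        (CovZ.n1 (-28224, 1344) (by decide +kernel)
         (CovZ.n2 (-28224, 1536) (by decide +kernel)
          (CovZ.n2 (-28128, 1440) (by decide +kernel)
           (CovZ.n2 (-28224, 1440) (by decide +kernel)
            (CovZ.n2 (-28176, 1488) (by decide +kernel)
             (CovZ.n2 (-28176, 1440) (by decide +kernel)
              (CovZ.leaf K2_ok TB_l6192 _)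
              (CovZ.leaf K2_ok TB_l6193 _))
             (CovZ.leaf K2_ok TB_l6194 _))
            (CovZ.n1 (-28176, 1392) (by decide +kernel)
             (CovZ.leaf K2_ok TB_l6195 _)
             (CovZ.n1 (-28176, 1440) (by decide +kernel)
              (CovZ.leaf K2_ok TB_l6196 _)
              (CovZ.leaf K2_ok TB_l6197 _))))
           (CovZ.n1 (-28128, 1536) (by decide +kernel)
            (CovZ.n2 (-28080, 1488) (by decide +kernel)
             (CovZ.n2 (-28128, 1488) (by decide +kernel)
              (CovZ.leaf K2_ok TB_l6198 _)
              (CovZ.leaf K2_ok TB_l6199 _))
             (CovZ.n1 (-28080, 1536) (by decide +kernel)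
              (CovZ.leaf K2_ok TB_l6200 _)
              (CovZ.leaf K2_ok TB_l6201 _)))
            (CovZ.n1 (-28176, 1488) (by decide +kernel)
             (CovZ.n2 (-28176, 1536) (by decide +kernel)
              (CovZ.leaf K2_ok TB_l6202 _)
              (CovZ.leaf K2_ok TB_l6203 _))
             (CovZ.leaf K2_ok TB_l6204 _))))
          (CovZ.n1 (-28320, 1440) (by decide +kernel)
           (CovZ.n2 (-28320, 1536) (by decide +kernel)
            (CovZ.n2 (-28272, 1488) (by decide +kernel)
             (CovZ.leaf K2_ok TB_l6205 _)
             (CovZ.n1 (-28272, 1536) (by decide +kernel)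
              (CovZ.leaf K2_ok TB_l6206 _)
              (CovZ.leaf K2_ok TB_l6207 _)))
            (CovZ.n1 (-28368, 1488) (by decide +kernel)
             (CovZ.n2 (-28368, 1536) (by decide +kernel)
              (CovZ.leaf K2_ok TB_l6208 _)
              (CovZ.leaf K2_ok TB_l6209 _))
             (CovZ.leaf K2_ok TB_l6210 _)))
           (CovZ.n1 (-28224, 1440) (by decide +kernel)
            (CovZ.n2 (-28272, 1392) (by decide +kernel)
             (CovZ.n2 (-28272, 1440) (by decide +kernel)
              (CovZ.leaf K2_ok TB_l6211 _)
              (CovZ.leaf K2_ok TB_l6212 _))
             (CovZ.leaf K2_ok TB_l6213 _))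
            (CovZ.n1 (-28272, 1488) (by decide +kernel)
             (CovZ.leaf K2_ok TB_l6214 _)
             (CovZ.n1 (-28272, 1440) (by decide +kernel)
              (CovZ.leaf K2_ok TB_l6215 _)
              (CovZ.leaf K2_ok TB_l6216 _))))))
         (CovZ.n1 (-28032, 1344) (by decide +kernel)
          (CovZ.n2 (-28128, 1248) (by decide +kernel)
           (CovZ.n2 (-28128, 1344) (by decide +kernel)
            (CovZ.n2 (-28080, 1296) (by decide +kernel)
             (CovZ.leaf K2_ok TB_l6217 _)
             (CovZ.n1 (-28080, 1344) (by decide +kernel)
              (CovZ.leaf K2_ok TB_l6218 _)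
              (CovZ.leaf K2_ok TB_l6219 _)))
            (CovZ.n1 (-28176, 1296) (by decide +kernel)
             (CovZ.leaf K2_ok TB_l6220 _)
             (CovZ.leaf K2_ok TB_l6221 _)))
           (CovZ.n1 (-28032, 1248) (by decide +kernel)
            (CovZ.n2 (-28080, 1200) (by decide +kernel)
             (CovZ.leaf K2_ok TB_l6222 _)
             (CovZ.leaf K2_ok TB_l6223 _))
            (CovZ.n1 (-28080, 1296) (by decide +kernel)
             (CovZ.leaf K2_ok TB_l6224 _)
             (CovZ.leaf K2_ok TB_l6225 _))))
          (CovZ.n1 (-28128, 1440) (by decide +kernel)
           (CovZ.n2 (-28032, 1440) (by decide +kernel)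
            (CovZ.n2 (-28080, 1392) (by decide +kernel)
             (CovZ.n2 (-28080, 1440) (by decide +kernel)
              (CovZ.leaf K2_ok TB_l6226 _)
              (CovZ.leaf K2_ok TB_l6227 _))
             (CovZ.leaf K2_ok TB_l6228 _))
            (CovZ.n1 (-28080, 1488) (by decide +kernel)
             (CovZ.n2 (-28032, 1488) (by decide +kernel)
              (CovZ.leaf K2_ok TB_l6229 _)
              (CovZ.leaf K2_ok TB_l6230 _))
             (CovZ.n1 (-28080, 1440) (by decide +kernel)
              (CovZ.leaf K2_ok TB_l6231 _)
              (CovZ.leaf K2_ok TB_l6232 _))))
           (CovZ.n1 (-28128, 1344) (by decide +kernel)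
            (CovZ.n2 (-28176, 1392) (by decide +kernel)
             (CovZ.leaf K2_ok TB_l6233 _)
             (CovZ.leaf K2_ok TB_l6234 _))
            (CovZ.n1 (-28080, 1392) (by decide +kernel)
             (CovZ.leaf K2_ok TB_l6235 _)
             (CovZ.leaf K2_ok TB_l6236 _))))))))

theorem TB_u47 : CovZ TB_M (toL (selN TB_LN 322786472706175530992685115530882158886958651224869338275755188094506140245276160424735711561514813350217655584125616130)) [0, 7, 6, 1] (-29184, 0) (-28416, 768) (-29184, 1536) :=
    (CovZ.n2 (-29184, 768) (by decide +kernel)
     (CovZ.subM 307865786786634106018729587953055162412935982113063451853855696027401465616937557605334560214722302987710711201794 (by decide +kernel)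
      (CovZ.n2 (-28800, 1152) (by decide +kernel)
       (CovZ.n2 (-28800, 768) (by decide +kernel)
        (CovZ.n2 (-28992, 960) (by decide +kernel)
         (CovZ.subM 307865750090656250177576235455861927840933391092133352782736122212372618476169081272093670068696435121110097854464 (by decide +kernel)
          (CovZ.n2 (-28800, 960) (by decide +kernel)
           (CovZ.n2 (-28896, 864) (by decide +kernel)
            (CovZ.n2 (-28896, 960) (by decide +kernel)
             (CovZ.leaf K2_ok TB_l5990 _)
             (CovZ.leaf K2_ok TB_l5991 _))
            (CovZ.leaf K2_ok TB_l5992 _))
           (CovZ.n1 (-28896, 1056) (by decide +kernel)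
            (CovZ.leaf K2_ok TB_l5993 _)
            (CovZ.n1 (-28896, 960) (by decide +kernel)
             (CovZ.leaf K2_ok TB_l5994 _)
             (CovZ.leaf K2_ok TB_l5995 _)))))
         (CovZ.n1 (-28992, 768) (by decide +kernel)
          (CovZ.n2 (-29088, 864) (by decide +kernel)
           (CovZ.leaf K2_ok TB_l5996 _)
           (CovZ.leaf K2_ok TB_l5997 _))
          (CovZ.n1 (-28896, 864) (by decide +kernel)
           (CovZ.leaf K2_ok TB_l5998 _)
           (CovZ.leaf K2_ok TB_l5999 _))))
        (CovZ.n1 (-28608, 960) (by decide +kernel)
         (CovZ.n2 (-28608, 768) (by decide +kernel)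
          (CovZ.n2 (-28704, 864) (by decide +kernel)
           (CovZ.leaf K2_ok TB_l6000 _)
           (CovZ.leaf K2_ok TB_l6001 _))
          (CovZ.n1 (-28512, 864) (by decide +kernel)
           (CovZ.n2 (-28512, 768) (by decide +kernel)
            (CovZ.leaf K2_ok TB_l6002 _)
            (CovZ.leaf K2_ok TB_l6003 _))
           (CovZ.leaf K2_ok TB_l6004 _)))
         (CovZ.subM 307865750090656250177576235455861927840933391092133352782736122212372618476169081272093670068696435121110097854464 (by decide +kernel)
          (CovZ.n1 (-28800, 960) (by decide +kernel)
           (CovZ.n2 (-28704, 1056) (by decide +kernel)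
            (CovZ.n2 (-28704, 960) (by decide +kernel)
             (CovZ.leaf K2_ok TB_l6005 _)
             (CovZ.leaf K2_ok TB_l6006 _))
            (CovZ.n1 (-28800, 1056) (by decide +kernel)
             (CovZ.leaf K2_ok TB_l6007 _)
             (CovZ.leaf K2_ok TB_l6008 _)))
           (CovZ.n1 (-28704, 864) (by decide +kernel)
            (CovZ.leaf K2_ok TB_l6009 _)
            (CovZ.n1 (-28704, 960) (by decide +kernel)
             (CovZ.leaf K2_ok TB_l6010 _)
             (CovZ.leaf K2_ok TB_l6011 _)))))))
       (CovZ.n1 (-29184, 1152) (by decide +kernel)
        (CovZ.n2 (-28992, 1344) (by decide +kernel)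
         (CovZ.n2 (-28992, 1152) (by decide +kernel)
          (CovZ.n2 (-29088, 1248) (by decide +kernel)
           (CovZ.n2 (-28992, 1248) (by decide +kernel)
            (CovZ.leaf K2_ok TB_l6012 _)
            (CovZ.leaf K2_ok TB_l6013 _))
           (CovZ.n1 (-29088, 1152) (by decide +kernel)
            (CovZ.leaf K2_ok TB_l6014 _)
            (CovZ.leaf K2_ok TB_l6015 _)))
          (CovZ.subM 307865750090656250177576235455861927840933391092133147094666457061617349105021261603280547226713230923627179278336 (by decide +kernel)
           (CovZ.n1 (-28896, 1248) (by decide +kernel)
            (CovZ.n2 (-28896, 1152) (by decide +kernel)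
             (CovZ.leaf K2_ok TB_l6016 _)
             (CovZ.leaf K2_ok TB_l6017 _))
            (CovZ.n1 (-28992, 1248) (by decide +kernel)
             (CovZ.leaf K2_ok TB_l6018 _)
             (CovZ.leaf K2_ok TB_l6019 _)))))
         (CovZ.n1 (-29184, 1344) (by decide +kernel)
          (CovZ.n2 (-29088, 1440) (by decide +kernel)
           (CovZ.n2 (-29088, 1344) (by decide +kernel)
            (CovZ.n2 (-29136, 1392) (by decide +kernel)
             (CovZ.leaf K2_ok TB_l6020 _)
             (CovZ.leaf K2_ok TB_l6021 _))
            (CovZ.n1 (-29040, 1392) (by decide +kernel)
             (CovZ.leaf K2_ok TB_l6022 _)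
             (CovZ.leaf K2_ok TB_l6023 _)))
           (CovZ.n1 (-29184, 1440) (by decide +kernel)
            (CovZ.n2 (-29136, 1488) (by decide +kernel)
             (CovZ.n2 (-29136, 1440) (by decide +kernel)
              (CovZ.leaf K2_ok TB_l6024 _)
              (CovZ.leaf K2_ok TB_l6025 _))
             (CovZ.leaf K2_ok TB_l6026 _))
            (CovZ.n1 (-29136, 1392) (by decide +kernel)
             (CovZ.leaf K2_ok TB_l6027 _)
             (CovZ.n1 (-29136, 1440) (by decide +kernel)
              (CovZ.leaf K2_ok TB_l6028 _)
              (CovZ.leaf K2_ok TB_l6029 _)))))
          (CovZ.n1 (-29088, 1248) (by decide +kernel)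
           (CovZ.n2 (-29184, 1248) (by decide +kernel)
            (CovZ.n2 (-29136, 1296) (by decide +kernel)
             (CovZ.leaf K2_ok TB_l6030 _)
             (CovZ.leaf K2_ok TB_l6031 _))
            (CovZ.leaf K2_ok TB_l6032 _))
           (CovZ.n1 (-29088, 1344) (by decide +kernel)
            (CovZ.leaf K2_ok TB_l6033 _)
            (CovZ.n1 (-29136, 1296) (by decide +kernel)
             (CovZ.leaf K2_ok TB_l6034 _)
             (CovZ.leaf K2_ok TB_l6035 _))))))
        (CovZ.n1 (-28992, 960) (by decide +kernel)
         (CovZ.n2 (-29184, 960) (by decide +kernel)
          (CovZ.n2 (-29088, 1056) (by decide +kernel)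
           (CovZ.leaf K2_ok TB_l6036 _)
           (CovZ.leaf K2_ok TB_l6037 _))
          (CovZ.n1 (-29088, 864) (by decide +kernel)
           (CovZ.leaf K2_ok TB_l6038 _)
           (CovZ.n1 (-29088, 960) (by decide +kernel)
            (CovZ.leaf K2_ok TB_l6039 _)
            (CovZ.leaf K2_ok TB_l6040 _))))
         (CovZ.n1 (-28992, 1152) (by decide +kernel)
          (CovZ.n2 (-28896, 1056) (by decide +kernel)
           (CovZ.leaf K2_ok TB_l6041 _)
           (CovZ.n1 (-28896, 1152) (by decide +kernel)
            (CovZ.leaf K2_ok TB_l6042 _)
            (CovZ.leaf K2_ok TB_l6043 _)))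
          (CovZ.n1 (-29088, 1056) (by decide +kernel)
           (CovZ.n2 (-29088, 1152) (by decide +kernel)
            (CovZ.leaf K2_ok TB_l6044 _)
            (CovZ.leaf K2_ok TB_l6045 _))
           (CovZ.leaf K2_ok TB_l6046 _)))))))
     (CovZ.subM 307884538431318440843408518024695152275763934828414891720323374553752293098372457057125340686412531375323981807618 (by decide +kernel)
      (CovZ.n1 (-28800, 384) (by decide +kernel)
       (CovZ.n2 (-29184, 384) (by decide +kernel)
        (CovZ.n2 (-28992, 576) (by decide +kernel)
         (CovZ.n2 (-28992, 384) (by decide +kernel)
          (CovZ.leaf K2_ok TB_l6047 _)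
          (CovZ.n1 (-28896, 480) (by decide +kernel)
           (CovZ.leaf K2_ok TB_l6048 _)
           (CovZ.leaf K2_ok TB_l6049 _)))
         (CovZ.n1 (-29184, 576) (by decide +kernel)
          (CovZ.n2 (-29088, 672) (by decide +kernel)
           (CovZ.leaf K2_ok TB_l6050 _)
           (CovZ.leaf K2_ok TB_l6051 _))
          (CovZ.n1 (-29088, 480) (by decide +kernel)
           (CovZ.leaf K2_ok TB_l6052 _)
           (CovZ.leaf K2_ok TB_l6053 _))))
        (CovZ.n1 (-28992, 192) (by decide +kernel)
         (CovZ.n2 (-29184, 192) (by decide +kernel)
          (CovZ.leaf K2_ok TB_l6054 _)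
          (CovZ.leaf K2_ok TB_l6055 _))
         (CovZ.n1 (-28992, 384) (by decide +kernel)
          (CovZ.leaf K2_ok TB_l6056 _)
          (CovZ.leaf K2_ok TB_l6057 _))))
       (CovZ.n1 (-28800, 768) (by decide +kernel)
        (CovZ.n2 (-28608, 576) (by decide +kernel)
         (CovZ.n2 (-28800, 576) (by decide +kernel)
          (CovZ.n2 (-28704, 672) (by decide +kernel)
           (CovZ.leaf K2_ok TB_l6058 _)
           (CovZ.leaf K2_ok TB_l6059 _))
          (CovZ.n1 (-28704, 480) (by decide +kernel)
           (CovZ.leaf K2_ok TB_l6060 _)
           (CovZ.leaf K2_ok TB_l6061 _)))
         (CovZ.n1 (-28608, 768) (by decide +kernel)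
          (CovZ.n2 (-28512, 672) (by decide +kernel)
           (CovZ.leaf K2_ok TB_l6062 _)
           (CovZ.leaf K2_ok TB_l6063 _))
          (CovZ.n1 (-28704, 672) (by decide +kernel)
           (CovZ.leaf K2_ok TB_l6064 _)
           (CovZ.leaf K2_ok TB_l6065 _))))
        (CovZ.n1 (-28992, 576) (by decide +kernel)
         (CovZ.n2 (-28992, 768) (by decide +kernel)
          (CovZ.n2 (-28896, 672) (by decide +kernel)
           (CovZ.leaf K2_ok TB_l6066 _)
           (CovZ.leaf K2_ok TB_l6067 _))
          (CovZ.n1 (-29088, 672) (by decide +kernel)
           (CovZ.leaf K2_ok TB_l6068 _)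
           (CovZ.leaf K2_ok TB_l6069 _)))
         (CovZ.n1 (-28800, 576) (by decide +kernel)
          (CovZ.n2 (-28896, 480) (by decide +kernel)
           (CovZ.leaf K2_ok TB_l6070 _)
           (CovZ.leaf K2_ok TB_l6071 _))
          (CovZ.n1 (-28896, 672) (by decide +kernel)
           (CovZ.leaf K2_ok TB_l6072 _)
           (CovZ.leaf K2_ok TB_l6073 _))))))))

theorem TB_u48 : CovZ TB_M (toL (selN TB_LN 322786472706175530992685115530882158886958651224869338275755188094506140245276160424735711561514813350217655584125616130)) [0, 7, 6, 1] (-28416, 768) (-27648, 1536) (-29184, 1536) :=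
    (CovZ.n1 (-28416, 1536) (by decide +kernel)
     (CovZ.n2 (-28032, 1152) (by decide +kernel)
      TB_u45
      TB_u46)
     (CovZ.subM 307865786786634106018729587953055162412935982113063451853855696027401465616937557605334560214722302987710711201794 (by decide +kernel)
      (CovZ.n1 (-28800, 1152) (by decide +kernel)
       (CovZ.n2 (-28800, 1536) (by decide +kernel)
        (CovZ.n2 (-28608, 1344) (by decide +kernel)
         (CovZ.subM 307865750090656250177576235455861927840933391092133147094666457061617349105021261603280547226713230923627179278336 (by decide +kernel)
          (CovZ.n2 (-28800, 1344) (by decide +kernel)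
           (CovZ.n2 (-28704, 1440) (by decide +kernel)
            (CovZ.n2 (-28704, 1344) (by decide +kernel)
             (CovZ.n2 (-28752, 1392) (by decide +kernel)
              (CovZ.leaf K2_ok TB_l6237 _)
              (CovZ.leaf K2_ok TB_l6238 _))
             (CovZ.n1 (-28656, 1392) (by decide +kernel)
              (CovZ.leaf K2_ok TB_l6239 _)
              (CovZ.leaf K2_ok TB_l6240 _)))
            (CovZ.n1 (-28800, 1440) (by decide +kernel)
             (CovZ.n2 (-28752, 1488) (by decide +kernel)
              (CovZ.leaf K2_ok TB_l6241 _)
              (CovZ.leaf K2_ok TB_l6242 _))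
             (CovZ.n1 (-28752, 1392) (by decide +kernel)
              (CovZ.leaf K2_ok TB_l6243 _)
              (CovZ.leaf K2_ok TB_l6244 _))))
           (CovZ.n1 (-28704, 1248) (by decide +kernel)
            (CovZ.n2 (-28800, 1248) (by decide +kernel)
             (CovZ.leaf K2_ok TB_l6245 _)
             (CovZ.leaf K2_ok TB_l6246 _))
            (CovZ.n1 (-28704, 1344) (by decide +kernel)
             (CovZ.n2 (-28656, 1296) (by decide +kernel)
              (CovZ.leaf K2_ok TB_l6247 _)
              (CovZ.leaf K2_ok TB_l6248 _))
             (CovZ.leaf K2_ok TB_l6249 _)))))
         (CovZ.n1 (-28608, 1536) (by decide +kernel)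
          (CovZ.n2 (-28512, 1440) (by decide +kernel)
           (CovZ.subM 307865750090656250177576235455861927840933391092133147093097181627770678914062314247478630622687642062511170125824 (by decide +kernel)
            (CovZ.n2 (-28608, 1440) (by decide +kernel)
             (CovZ.n2 (-28560, 1488) (by decide +kernel)
              (CovZ.leaf K2_ok TB_l6250 _)
              (CovZ.leaf K2_ok TB_l6251 _))
             (CovZ.n1 (-28560, 1392) (by decide +kernel)
              (CovZ.leaf K2_ok TB_l6252 _)
              (CovZ.leaf K2_ok TB_l6253 _))))
           (CovZ.n1 (-28512, 1536) (by decide +kernel)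
            (CovZ.n2 (-28464, 1488) (by decide +kernel)
             (CovZ.leaf K2_ok TB_l6254 _)
             (CovZ.n1 (-28464, 1536) (by decide +kernel)
              (CovZ.leaf K2_ok TB_l6255 _)
              (CovZ.leaf K2_ok TB_l6256 _)))
            (CovZ.n1 (-28560, 1488) (by decide +kernel)
             (CovZ.n2 (-28560, 1536) (by decide +kernel)
              (CovZ.leaf K2_ok TB_l6257 _)
              (CovZ.leaf K2_ok TB_l6258 _))
             (CovZ.leaf K2_ok TB_l6259 _))))
          (CovZ.subM 307865750090656250177576235455861927840933391092133147093097181627770678914062314247478630622687642062511170125824 (by decide +kernel)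
           (CovZ.n1 (-28704, 1440) (by decide +kernel)
            (CovZ.n2 (-28704, 1536) (by decide +kernel)
             (CovZ.n2 (-28656, 1488) (by decide +kernel)
              (CovZ.leaf K2_ok TB_l6260 _)
              (CovZ.n1 (-28656, 1536) (by decide +kernel)
               (CovZ.leaf K2_ok TB_l6261 _)
               (CovZ.leaf K2_ok TB_l6262 _)))
             (CovZ.n1 (-28752, 1488) (by decide +kernel)
              (CovZ.n2 (-28752, 1536) (by decide +kernel)
               (CovZ.leaf K2_ok TB_l6263 _)
               (CovZ.leaf K2_ok TB_l6264 _))
              (CovZ.leaf K2_ok TB_l6265 _)))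
            (CovZ.n1 (-28608, 1440) (by decide +kernel)
             (CovZ.n2 (-28656, 1392) (by decide +kernel)
              (CovZ.leaf K2_ok TB_l6266 _)
              (CovZ.leaf K2_ok TB_l6267 _))
             (CovZ.n1 (-28656, 1488) (by decide +kernel)
              (CovZ.leaf K2_ok TB_l6268 _)
              (CovZ.leaf K2_ok TB_l6269 _)))))))
        (CovZ.n1 (-28992, 1344) (by decide +kernel)
         (CovZ.n2 (-28992, 1536) (by decide +kernel)
          (CovZ.subM 307865750090656250177576235455861927840933391092133147094666457061617349105021261603280547226713230923627179278336 (by decide +kernel)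
           (CovZ.n2 (-28896, 1440) (by decide +kernel)
            (CovZ.n2 (-28992, 1440) (by decide +kernel)
             (CovZ.n2 (-28944, 1488) (by decide +kernel)
              (CovZ.n2 (-28944, 1440) (by decide +kernel)
               (CovZ.leaf K2_ok TB_l6270 _)
               (CovZ.leaf K2_ok TB_l6271 _))
              (CovZ.leaf K2_ok TB_l6272 _))
             (CovZ.n1 (-28944, 1392) (by decide +kernel)
              (CovZ.leaf K2_ok TB_l6273 _)
              (CovZ.leaf K2_ok TB_l6274 _)))
            (CovZ.n1 (-28896, 1536) (by decide +kernel)
             (CovZ.n2 (-28848, 1488) (by decide +kernel)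
              (CovZ.leaf K2_ok TB_l6275 _)
              (CovZ.n1 (-28848, 1536) (by decide +kernel)
               (CovZ.leaf K2_ok TB_l6276 _)
               (CovZ.leaf K2_ok TB_l6277 _)))
             (CovZ.n1 (-28944, 1488) (by decide +kernel)
              (CovZ.n2 (-28944, 1536) (by decide +kernel)
               (CovZ.leaf K2_ok TB_l6278 _)
               (CovZ.leaf K2_ok TB_l6279 _))
              (CovZ.leaf K2_ok TB_l6280 _)))))
          (CovZ.n1 (-29088, 1440) (by decide +kernel)
           (CovZ.subM 307865750090656250177576235455861927840933391092133147094666457061617349279245833466801040519961029928692503019522 (by decide +kernel)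
            (CovZ.n2 (-29088, 1536) (by decide +kernel)
             (CovZ.n2 (-29040, 1488) (by decide +kernel)
              (CovZ.leaf K2_ok TB_l6281 _)
              (CovZ.n1 (-29040, 1536) (by decide +kernel)
               (CovZ.leaf K2_ok TB_l6282 _)
               (CovZ.leaf K2_ok TB_l6283 _)))
             (CovZ.n1 (-29136, 1488) (by decide +kernel)
              (CovZ.n2 (-29136, 1536) (by decide +kernel)
               (CovZ.leaf K2_ok TB_l6284 _)
               (CovZ.leaf K2_ok TB_l6285 _))
              (CovZ.leaf K2_ok TB_l6286 _))))
           (CovZ.subM 307865750090656250177576235455861927840933391092133147094666457061617349105021261603280547226713230923627179278336 (by decide +kernel)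
            (CovZ.n1 (-28992, 1440) (by decide +kernel)
             (CovZ.n2 (-29040, 1392) (by decide +kernel)
              (CovZ.leaf K2_ok TB_l6287 _)
              (CovZ.leaf K2_ok TB_l6288 _))
             (CovZ.n1 (-29040, 1488) (by decide +kernel)
              (CovZ.leaf K2_ok TB_l6289 _)
              (CovZ.n1 (-29040, 1440) (by decide +kernel)
               (CovZ.leaf K2_ok TB_l6290 _)
               (CovZ.leaf K2_ok TB_l6291 _)))))))
         (CovZ.subM 307865750090656250177576235455861927840933391092133147094666457061617349105021261603280547226713230923627179278336 (by decide +kernel)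
          (CovZ.n1 (-28800, 1344) (by decide +kernel)
           (CovZ.n2 (-28896, 1248) (by decide +kernel)
            (CovZ.n2 (-28896, 1344) (by decide +kernel)
             (CovZ.leaf K2_ok TB_l6292 _)
             (CovZ.leaf K2_ok TB_l6293 _))
            (CovZ.n1 (-28800, 1248) (by decide +kernel)
             (CovZ.leaf K2_ok TB_l6294 _)
             (CovZ.leaf K2_ok TB_l6295 _)))
           (CovZ.n1 (-28896, 1440) (by decide +kernel)
            (CovZ.n2 (-28800, 1440) (by decide +kernel)
             (CovZ.n2 (-28848, 1392) (by decide +kernel)
              (CovZ.leaf K2_ok TB_l6296 _)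
              (CovZ.leaf K2_ok TB_l6297 _))
             (CovZ.n1 (-28848, 1488) (by decide +kernel)
              (CovZ.leaf K2_ok TB_l6298 _)
              (CovZ.leaf K2_ok TB_l6299 _)))
            (CovZ.n1 (-28896, 1344) (by decide +kernel)
             (CovZ.n2 (-28944, 1392) (by decide +kernel)
              (CovZ.leaf K2_ok TB_l6300 _)
              (CovZ.leaf K2_ok TB_l6301 _))
             (CovZ.n1 (-28848, 1392) (by decide +kernel)
              (CovZ.leaf K2_ok TB_l6302 _)
              (CovZ.leaf K2_ok TB_l6303 _))))))))
       (CovZ.n1 (-28416, 1152) (by decide +kernel)
        (CovZ.n2 (-28608, 960) (by decide +kernel)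
         (CovZ.n2 (-28608, 1152) (by decide +kernel)
          (CovZ.n2 (-28512, 1056) (by decide +kernel)
           (CovZ.n2 (-28608, 1056) (by decide +kernel)
            (CovZ.leaf K2_ok TB_l6304 _)
            (CovZ.leaf K2_ok TB_l6305 _))
           (CovZ.n1 (-28512, 1152) (by decide +kernel)
            (CovZ.leaf K2_ok TB_l6306 _)
            (CovZ.leaf K2_ok TB_l6307 _)))
          (CovZ.n1 (-28704, 1056) (by decide +kernel)
           (CovZ.n2 (-28704, 1152) (by decide +kernel)
            (CovZ.leaf K2_ok TB_l6308 _)
            (CovZ.leaf K2_ok TB_l6309 _))
           (CovZ.leaf K2_ok TB_l6310 _)))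
         (CovZ.n1 (-28416, 960) (by decide +kernel)
          (CovZ.n2 (-28512, 864) (by decide +kernel)
           (CovZ.n2 (-28512, 960) (by decide +kernel)
            (CovZ.leaf K2_ok TB_l6311 _)
            (CovZ.leaf K2_ok TB_l6312 _))
           (CovZ.leaf K2_ok TB_l6313 _))
          (CovZ.n1 (-28512, 1056) (by decide +kernel)
           (CovZ.n2 (-28416, 1056) (by decide +kernel)
            (CovZ.leaf K2_ok TB_l6314 _)
            (CovZ.leaf K2_ok TB_l6315 _))
           (CovZ.n1 (-28512, 960) (by decide +kernel)
            (CovZ.leaf K2_ok TB_l6316 _)
            (CovZ.leaf K2_ok TB_l6317 _)))))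
        (CovZ.n1 (-28608, 1344) (by decide +kernel)
         (CovZ.n2 (-28416, 1344) (by decide +kernel)
          (CovZ.n2 (-28512, 1248) (by decide +kernel)
           (CovZ.n2 (-28512, 1344) (by decide +kernel)
            (CovZ.n2 (-28464, 1296) (by decide +kernel)
             (CovZ.leaf K2_ok TB_l6318 _)
             (CovZ.leaf K2_ok TB_l6319 _))
            (CovZ.leaf K2_ok TB_l6320 _))
           (CovZ.n1 (-28416, 1248) (by decide +kernel)
            (CovZ.leaf K2_ok TB_l6321 _)
            (CovZ.leaf K2_ok TB_l6322 _)))
          (CovZ.n1 (-28512, 1440) (by decide +kernel)
           (CovZ.n2 (-28416, 1440) (by decide +kernel)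
            (CovZ.n2 (-28464, 1392) (by decide +kernel)
             (CovZ.leaf K2_ok TB_l6323 _)
             (CovZ.leaf K2_ok TB_l6324 _))
            (CovZ.n1 (-28464, 1488) (by decide +kernel)
             (CovZ.leaf K2_ok TB_l6325 _)
             (CovZ.leaf K2_ok TB_l6326 _)))
           (CovZ.n1 (-28512, 1344) (by decide +kernel)
            (CovZ.n2 (-28560, 1392) (by decide +kernel)
             (CovZ.leaf K2_ok TB_l6327 _)
             (CovZ.leaf K2_ok TB_l6328 _))
            (CovZ.n1 (-28464, 1392) (by decide +kernel)
             (CovZ.leaf K2_ok TB_l6329 _)
             (CovZ.leaf K2_ok TB_l6330 _)))))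
         (CovZ.n1 (-28608, 1152) (by decide +kernel)
          (CovZ.subM 307865750090656250177576235455861927840933391092133147094666457061617349105021261603280547226713230923627179278336 (by decide +kernel)
           (CovZ.n2 (-28704, 1248) (by decide +kernel)
            (CovZ.n2 (-28608, 1248) (by decide +kernel)
             (CovZ.leaf K2_ok TB_l6331 _)
             (CovZ.leaf K2_ok TB_l6332 _))
            (CovZ.n1 (-28704, 1152) (by decide +kernel)
             (CovZ.leaf K2_ok TB_l6333 _)
             (CovZ.leaf K2_ok TB_l6334 _))))
          (CovZ.n1 (-28512, 1248) (by decide +kernel)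
           (CovZ.n2 (-28512, 1152) (by decide +kernel)
            (CovZ.leaf K2_ok TB_l6335 _)
            (CovZ.leaf K2_ok TB_l6336 _))
           (CovZ.n1 (-28608, 1248) (by decide +kernel)
            (CovZ.n2 (-28560, 1296) (by decide +kernel)
             (CovZ.leaf K2_ok TB_l6337 _)
             (CovZ.leaf K2_ok TB_l6338 _))
            (CovZ.leaf K2_ok TB_l6339 _)))))))))

theorem TB_u49 : CovZ TB_M (toL (selN TB_LN 322786160068186624892742634579959441105764732656704952232496479323274034919558846546720123306554868550327836189751508992)) [0, 7, 6, 1] (-26112, 768) (-26304, 768) (-26304, 576) :=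
    (CovZ.n2 (-26208, 672) (by decide +kernel)
           (CovZ.n2 (-26304, 672) (by decide +kernel)
            (CovZ.badM (by decide +kernel))
            (CovZ.n1 (-26256, 624) (by decide +kernel)
             (CovZ.n2 (-26304, 624) (by decide +kernel)
              (CovZ.subM 36695977855841144185773134324833391052745040649444776640416134520774004519436638899149959930709190119522304 (by decide +kernel)
               (CovZ.n2 (-26280, 648) (by decide +kernel)
                (CovZ.n2 (-26280, 624) (by decide +kernel)
                 (CovZ.n2 (-26292, 636) (by decide +kernel)
                  (CovZ.badM (by decide +kernel))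
                  (CovZ.leaf K2_ok TB_l9231 _))
                 (CovZ.badM (by decide +kernel)))
                (CovZ.n1 (-26304, 648) (by decide +kernel)
                 (CovZ.n2 (-26292, 660) (by decide +kernel)
                  (CovZ.badM (by decide +kernel))
                  (CovZ.n1 (-26304, 660) (by decide +kernel)
                   (CovZ.n2 (-26298, 666) (by decide +kernel)
                    (CovZ.leaf K2_ok TB_l39431 _)
                    (CovZ.leaf K2_ok TB_l39432 _))
                   (CovZ.n1 (-26298, 654) (by decide +kernel)
                    (CovZ.leaf K2_ok TB_l39433 _)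
                    (CovZ.leaf K2_ok TB_l39434 _))))
                 (CovZ.n1 (-26292, 636) (by decide +kernel)
                  (CovZ.leaf K2_ok TB_l9232 _)
                  (CovZ.badM (by decide +kernel))))))
              (CovZ.n1 (-26280, 600) (by decide +kernel)
               (CovZ.n2 (-26304, 600) (by decide +kernel)
                (CovZ.n2 (-26292, 612) (by decide +kernel)
                 (CovZ.leaf K2_ok TB_l9233 _)
                 (CovZ.leaf K2_ok TB_l9234 _))
                (CovZ.leaf K2_ok TB_l9235 _))
               (CovZ.subM 36695977855841144185835299729384614383014462607710850584825670462139081705441444404893672051045825117159424 (by decide +kernel)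
                (CovZ.n1 (-26280, 624) (by decide +kernel)
                 (CovZ.n2 (-26268, 612) (by decide +kernel)
                  (CovZ.leaf K2_ok TB_l9236 _)
                  (CovZ.badM (by decide +kernel)))
                 (CovZ.n1 (-26292, 612) (by decide +kernel)
                  (CovZ.leaf K2_ok TB_l9237 _)
                  (CovZ.leaf K2_ok TB_l9238 _))))))
             (CovZ.n1 (-26256, 672) (by decide +kernel)
              (CovZ.badM (by decide +kernel))
              (CovZ.n1 (-26280, 648) (by decide +kernel)
               (CovZ.badM (by decide +kernel))
               (CovZ.badM (by decide +kernel))))))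
           (CovZ.badM (by decide +kernel)))

theorem TB_u50 : CovZ TB_M (toL (selN TB_LN 322786160068186624892742634579959441105764732656704952232496479323274034919558846546720123306554868550327836189751508992)) [0, 7, 6, 1] (-26304, 768) (-26496, 768) (-26304, 576) :=
    (CovZ.n1 (-26400, 672) (by decide +kernel)
           (CovZ.n2 (-26400, 768) (by decide +kernel)
            (CovZ.subM 56548501875851203190276462220799780817043421494461070886391523410401983180080695699741216576199917461733113856 (by decide +kernel)
             (CovZ.n2 (-26352, 720) (by decide +kernel)
              (CovZ.n2 (-26400, 720) (by decide +kernel)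
               (CovZ.subM 36695977855841144185773134324833391052745040649444776640404442507675357296091009420488229666551942659178496 (by decide +kernel)
                (CovZ.n2 (-26376, 744) (by decide +kernel)
                 (CovZ.n2 (-26376, 720) (by decide +kernel)
                  (CovZ.n2 (-26388, 732) (by decide +kernel)
                   (CovZ.badM (by decide +kernel))
                   (CovZ.n1 (-26388, 720) (by decide +kernel)
                    (CovZ.n2 (-26394, 726) (by decide +kernel)
                     (CovZ.leaf K2_ok TB_l48555 _)
                     (CovZ.leaf K2_ok TB_l39435 _))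
                    (CovZ.leaf K2_ok TB_l48556 _)))
                  (CovZ.badM (by decide +kernel)))
                 (CovZ.n1 (-26400, 744) (by decide +kernel)
                  (CovZ.badM (by decide +kernel))
                  (CovZ.n1 (-26388, 732) (by decide +kernel)
                   (CovZ.leaf K2_ok TB_l39436 _)
                   (CovZ.badM (by decide +kernel))))))
               (CovZ.n1 (-26376, 696) (by decide +kernel)
                (CovZ.n2 (-26400, 696) (by decide +kernel)
                 (CovZ.n2 (-26388, 708) (by decide +kernel)
                  (CovZ.leaf K2_ok TB_l9239 _)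
                  (CovZ.leaf K2_ok TB_l9240 _))
                 (CovZ.n1 (-26388, 684) (by decide +kernel)
                  (CovZ.leaf K2_ok TB_l9241 _)
                  (CovZ.leaf K2_ok TB_l9242 _)))
                (CovZ.subM 37613377302237172790417462682954225829063665823182562707957059987023019759129826104839672203822851191170138112 (by decide +kernel)
                 (CovZ.n1 (-26376, 720) (by decide +kernel)
                  (CovZ.n2 (-26364, 708) (by decide +kernel)
                   (CovZ.leaf K2_ok TB_l39437 _)
                   (CovZ.badM (by decide +kernel)))
                  (CovZ.n1 (-26388, 708) (by decide +kernel)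
                   (CovZ.leaf K2_ok TB_l39438 _)
                   (CovZ.leaf K2_ok TB_l39439 _))))))
              (CovZ.badM (by decide +kernel))))
            (CovZ.n1 (-26448, 720) (by decide +kernel)
             (CovZ.n2 (-26448, 768) (by decide +kernel)
              (CovZ.subM 56401717964427838613533369683500447252832441335154300894472317724681220116011032672024735388800869417793617920 (by decide +kernel)
               (CovZ.n2 (-26424, 744) (by decide +kernel)
                (CovZ.n2 (-26448, 744) (by decide +kernel)
                 (CovZ.subM 18825036640046506967301617969347932492112238898149188330533709739353659925815664225727879751349617727037767680 (by decide +kernel)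
                  (CovZ.n2 (-26436, 756) (by decide +kernel)
                   (CovZ.n2 (-26436, 744) (by decide +kernel)
                    (CovZ.n2 (-26442, 750) (by decide +kernel)
                     (CovZ.leaf K2_ok TB_l39440 _)
                     (CovZ.leaf K2_ok TB_l39441 _))
                    (CovZ.n1 (-26430, 750) (by decide +kernel)
                     (CovZ.leaf K2_ok TB_l39442 _)
                     (CovZ.leaf K2_ok TB_l39443 _)))
                   (CovZ.leaf K2_ok TB_l39444 _)))
                 (CovZ.n1 (-26436, 732) (by decide +kernel)
                  (CovZ.leaf K2_ok TB_l9243 _)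
                  (CovZ.leaf K2_ok TB_l9244 _)))
                (CovZ.subM 36695977855841144185773134324833391052745039826692497979801421430190766017415756929120296849762010984873984 (by decide +kernel)
                 (CovZ.n1 (-26424, 768) (by decide +kernel)
                  (CovZ.n2 (-26412, 756) (by decide +kernel)
                   (CovZ.leaf K2_ok TB_l48557 _)
                   (CovZ.badM (by decide +kernel)))
                  (CovZ.n1 (-26436, 756) (by decide +kernel)
                   (CovZ.n2 (-26436, 768) (by decide +kernel)
                    (CovZ.n2 (-26430, 762) (by decide +kernel)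
                     (CovZ.leaf K2_ok TB_l48558 _)
                     (CovZ.n1 (-26430, 768) (by decide +kernel)
                      (CovZ.leaf K2_ok TB_l48559 _)
                      (CovZ.leaf K2_ok TB_l48560 _)))
                    (CovZ.n1 (-26442, 762) (by decide +kernel)
                     (CovZ.leaf K2_ok TB_l48561 _)
                     (CovZ.leaf K2_ok TB_l48562 _)))
                   (CovZ.leaf K2_ok TB_l48563 _))))))
              (CovZ.n1 (-26472, 744) (by decide +kernel)
               (CovZ.n2 (-26472, 768) (by decide +kernel)
                (CovZ.n2 (-26460, 756) (by decide +kernel)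
                 (CovZ.leaf K2_ok TB_l9245 _)
                 (CovZ.leaf K2_ok TB_l39445 _))
                (CovZ.leaf K2_ok TB_l9246 _))
               (CovZ.n1 (-26448, 744) (by decide +kernel)
                (CovZ.leaf K2_ok TB_l9247 _)
                (CovZ.leaf K2_ok TB_l9248 _))))
             (CovZ.subM 56548501875851203190276462220799780817043421494461070886391523410401983180080695699741216576199917461733113856 (by decide +kernel)
              (CovZ.n1 (-26400, 720) (by decide +kernel)
               (CovZ.n2 (-26424, 696) (by decide +kernel)
                (CovZ.n2 (-26424, 720) (by decide +kernel)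
                 (CovZ.n2 (-26412, 708) (by decide +kernel)
                  (CovZ.leaf K2_ok TB_l9249 _)
                  (CovZ.leaf K2_ok TB_l9250 _))
                 (CovZ.leaf K2_ok TB_l9251 _))
                (CovZ.n1 (-26400, 696) (by decide +kernel)
                 (CovZ.leaf K2_ok TB_l9252 _)
                 (CovZ.leaf K2_ok TB_l9253 _)))
               (CovZ.n1 (-26424, 744) (by decide +kernel)
                (CovZ.subM 36695977855841144185773134324833391052745040649444776640404442507675357296091009420488229666551942659178496 (by decide +kernel)
                 (CovZ.n2 (-26400, 744) (by decide +kernel)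
                  (CovZ.n2 (-26412, 732) (by decide +kernel)
                   (CovZ.leaf K2_ok TB_l39446 _)
                   (CovZ.leaf K2_ok TB_l39447 _))
                  (CovZ.n1 (-26412, 756) (by decide +kernel)
                   (CovZ.badM (by decide +kernel))
                   (CovZ.n1 (-26412, 744) (by decide +kernel)
                    (CovZ.n2 (-26418, 750) (by decide +kernel)
                     (CovZ.n2 (-26412, 750) (by decide +kernel)
                      (CovZ.leaf K2_ok TB_l48564 _)
                      (CovZ.leaf K2_ok TB_l48565 _))
                     (CovZ.leaf K2_ok TB_l48566 _))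
                    (CovZ.n1 (-26406, 750) (by decide +kernel)
                     (CovZ.n2 (-26406, 744) (by decide +kernel)
                      (CovZ.leaf K2_ok TB_l48567 _)
                      (CovZ.leaf K2_ok TB_l48568 _))
                     (CovZ.leaf K2_ok TB_l48569 _))))))
                (CovZ.n1 (-26424, 720) (by decide +kernel)
                 (CovZ.leaf K2_ok TB_l9254 _)
                 (CovZ.n1 (-26412, 732) (by decide +kernel)
                  (CovZ.leaf K2_ok TB_l9255 _)
                  (CovZ.leaf K2_ok TB_l9256 _))))))))
           (CovZ.n1 (-26304, 672) (by decide +kernel)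
            (CovZ.n2 (-26352, 624) (by decide +kernel)
             (CovZ.subM 56548501875851203190403776969320686197435199349988263959501499175281646157837795640428387610428908798704877568 (by decide +kernel)
              (CovZ.n2 (-26352, 672) (by decide +kernel)
               (CovZ.n2 (-26328, 648) (by decide +kernel)
                (CovZ.n2 (-26352, 648) (by decide +kernel)
                 (CovZ.n2 (-26340, 660) (by decide +kernel)
                  (CovZ.leaf K2_ok TB_l9257 _)
                  (CovZ.leaf K2_ok TB_l9258 _))
                 (CovZ.n1 (-26340, 636) (by decide +kernel)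
                  (CovZ.leaf K2_ok TB_l9259 _)
                  (CovZ.leaf K2_ok TB_l9260 _)))
                (CovZ.subM 37613377302237172790417462682954225829063665823182562707957071679036118406353171734318333934087008438630481920 (by decide +kernel)
                 (CovZ.n1 (-26328, 672) (by decide +kernel)
                  (CovZ.n2 (-26316, 660) (by decide +kernel)
                   (CovZ.leaf K2_ok TB_l9261 _)
                   (CovZ.leaf K2_ok TB_l9262 _))
                  (CovZ.n1 (-26340, 660) (by decide +kernel)
                   (CovZ.leaf K2_ok TB_l9263 _)
                   (CovZ.leaf K2_ok TB_l9264 _)))))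
               (CovZ.n1 (-26376, 648) (by decide +kernel)
                (CovZ.n2 (-26376, 672) (by decide +kernel)
                 (CovZ.n2 (-26364, 660) (by decide +kernel)
                  (CovZ.leaf K2_ok TB_l9265 _)
                  (CovZ.leaf K2_ok TB_l9266 _))
                 (CovZ.n1 (-26388, 660) (by decide +kernel)
                  (CovZ.leaf K2_ok TB_l9267 _)
                  (CovZ.leaf K2_ok TB_l9268 _)))
                (CovZ.n1 (-26352, 648) (by decide +kernel)
                 (CovZ.leaf K2_ok TB_l9269 _)
                 (CovZ.leaf K2_ok TB_l9270 _)))))
             (CovZ.n1 (-26304, 624) (by decide +kernel)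
              (CovZ.n2 (-26328, 600) (by decide +kernel)
               (CovZ.n2 (-26328, 624) (by decide +kernel)
                (CovZ.leaf K2_ok TB_l9271 _)
                (CovZ.leaf K2_ok TB_l9272 _))
               (CovZ.n1 (-26304, 600) (by decide +kernel)
                (CovZ.leaf K2_ok TB_l9273 _)
                (CovZ.leaf K2_ok TB_l9274 _)))
              (CovZ.subM 18971820551469871544172087420691293759424278567455146028184843630766301756004060545009203636272609550193917952 (by decide +kernel)
               (CovZ.n1 (-26328, 648) (by decide +kernel)
                (CovZ.subM 36695977855841144185773134324833391052745040649444776640416134520774004519436638899149959930709190119522304 (by decide +kernel)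
                 (CovZ.n2 (-26304, 648) (by decide +kernel)
                  (CovZ.n2 (-26316, 636) (by decide +kernel)
                   (CovZ.leaf K2_ok TB_l9275 _)
                   (CovZ.leaf K2_ok TB_l9276 _))
                  (CovZ.n1 (-26316, 660) (by decide +kernel)
                   (CovZ.leaf K2_ok TB_l39448 _)
                   (CovZ.leaf K2_ok TB_l9277 _))))
                (CovZ.n1 (-26328, 624) (by decide +kernel)
                 (CovZ.n2 (-26340, 636) (by decide +kernel)
                  (CovZ.leaf K2_ok TB_l9278 _)
                  (CovZ.leaf K2_ok TB_l9279 _))
                 (CovZ.n1 (-26316, 636) (by decide +kernel)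
                  (CovZ.leaf K2_ok TB_l9280 _)
                  (CovZ.leaf K2_ok TB_l9281 _)))))))
            (CovZ.subM 56548501875851203190276462220799780817043421494461070886391523410401983180080695699741216576199917461733113856 (by decide +kernel)
             (CovZ.n1 (-26352, 720) (by decide +kernel)
              (CovZ.badM (by decide +kernel))
              (CovZ.n1 (-26352, 672) (by decide +kernel)
               (CovZ.n2 (-26376, 696) (by decide +kernel)
                (CovZ.subM 37613377302237172790417462682954225829063665823182562707957071679036118406353171734318333934087008438630481920 (by decide +kernel)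
                 (CovZ.n2 (-26352, 696) (by decide +kernel)
                  (CovZ.n2 (-26364, 684) (by decide +kernel)
                   (CovZ.leaf K2_ok TB_l9282 _)
                   (CovZ.leaf K2_ok TB_l9283 _))
                  (CovZ.n1 (-26364, 708) (by decide +kernel)
                   (CovZ.badM (by decide +kernel))
                   (CovZ.n1 (-26364, 696) (by decide +kernel)
                    (CovZ.n2 (-26370, 702) (by decide +kernel)
                     (CovZ.leaf K2_ok TB_l39449 _)
                     (CovZ.n1 (-26370, 696) (by decide +kernel)
                      (CovZ.leaf K2_ok TB_l39450 _)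
                      (CovZ.leaf K2_ok TB_l39451 _)))
                    (CovZ.leaf K2_ok TB_l39452 _)))))
                (CovZ.n1 (-26376, 672) (by decide +kernel)
                 (CovZ.n2 (-26388, 684) (by decide +kernel)
                  (CovZ.leaf K2_ok TB_l9284 _)
                  (CovZ.leaf K2_ok TB_l9285 _))
                 (CovZ.n1 (-26364, 684) (by decide +kernel)
                  (CovZ.leaf K2_ok TB_l9286 _)
                  (CovZ.leaf K2_ok TB_l9287 _))))
               (CovZ.subM 37613377302237172790417462682954225829063665823182562707957071679036118406353171734318333934087008438630481920 (by decide +kernel)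
                (CovZ.n1 (-26328, 696) (by decide +kernel)
                 (CovZ.n2 (-26328, 672) (by decide +kernel)
                  (CovZ.n2 (-26340, 684) (by decide +kernel)
                   (CovZ.leaf K2_ok TB_l39453 _)
                   (CovZ.leaf K2_ok TB_l9288 _))
                  (CovZ.n1 (-26316, 684) (by decide +kernel)
                   (CovZ.leaf K2_ok TB_l39454 _)
                   (CovZ.leaf K2_ok TB_l39455 _)))
                 (CovZ.n1 (-26352, 696) (by decide +kernel)
                  (CovZ.badM (by decide +kernel))
                  (CovZ.n1 (-26340, 684) (by decide +kernel)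
                   (CovZ.leaf K2_ok TB_l9289 _)
                   (CovZ.leaf K2_ok TB_l9290 _))))))))))

theorem TB_u51 : CovZ TB_M (toL (selN TB_LN 10693552188729356552790587731821266841014006708332875938701794431731881531140877455849397537499971682418187577823936921600)) [0, 7, 6, 1] (-26112, 768) (-26496, 768) (-26496, 384) :=
    (CovZ.n2 (-26304, 576) (by decide +kernel)
        (CovZ.n2 (-26496, 576) (by decide +kernel)
         (CovZ.subM 10651785677225636497642514709491035836461300293361553464781387900110848149983418093399478556914643071847397455353354403840 (by decide +kernel)
          (CovZ.n2 (-26400, 672) (by decide +kernel)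
           (CovZ.n2 (-26400, 576) (by decide +kernel)
            (CovZ.n2 (-26448, 624) (by decide +kernel)
             (CovZ.n2 (-26400, 624) (by decide +kernel)
              (CovZ.n2 (-26424, 600) (by decide +kernel)
               (CovZ.n2 (-26424, 624) (by decide +kernel)
                (CovZ.leaf K2_ok TB_l9150 _)
                (CovZ.leaf K2_ok TB_l9151 _))
               (CovZ.leaf K2_ok TB_l9152 _))
              (CovZ.n1 (-26424, 648) (by decide +kernel)
               (CovZ.n2 (-26400, 648) (by decide +kernel)
                (CovZ.leaf K2_ok TB_l9153 _)
                (CovZ.leaf K2_ok TB_l9154 _))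
               (CovZ.n1 (-26424, 624) (by decide +kernel)
                (CovZ.leaf K2_ok TB_l9155 _)
                (CovZ.leaf K2_ok TB_l9156 _))))
             (CovZ.n1 (-26448, 576) (by decide +kernel)
              (CovZ.n2 (-26472, 600) (by decide +kernel)
               (CovZ.leaf K2_ok TB_l9157 _)
               (CovZ.leaf K2_ok TB_l9158 _))
              (CovZ.n1 (-26424, 600) (by decide +kernel)
               (CovZ.leaf K2_ok TB_l9159 _)
               (CovZ.n1 (-26448, 600) (by decide +kernel)
                (CovZ.leaf K2_ok TB_l9160 _)
                (CovZ.leaf K2_ok TB_l9161 _)))))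
            (CovZ.n1 (-26352, 624) (by decide +kernel)
             (CovZ.n2 (-26352, 576) (by decide +kernel)
              (CovZ.n2 (-26376, 600) (by decide +kernel)
               (CovZ.n2 (-26352, 600) (by decide +kernel)
                (CovZ.leaf K2_ok TB_l9162 _)
                (CovZ.leaf K2_ok TB_l9163 _))
               (CovZ.n1 (-26376, 576) (by decide +kernel)
                (CovZ.leaf K2_ok TB_l9164 _)
                (CovZ.leaf K2_ok TB_l9165 _)))
              (CovZ.subM 4925269746369861371406433351267265922116115041092346130841390736687814633116686844023142306186218499507620635738112 (by decide +kernel)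
               (CovZ.n1 (-26328, 600) (by decide +kernel)
                (CovZ.n2 (-26328, 576) (by decide +kernel)
                 (CovZ.leaf K2_ok TB_l9166 _)
                 (CovZ.leaf K2_ok TB_l9167 _))
                (CovZ.n1 (-26352, 600) (by decide +kernel)
                 (CovZ.leaf K2_ok TB_l9168 _)
                 (CovZ.leaf K2_ok TB_l9169 _)))))
             (CovZ.n1 (-26400, 624) (by decide +kernel)
              (CovZ.subM 4925307323051185752738079582956814551508553052013128663959322053343359148461088677758237725370192655806869146697728 (by decide +kernel)
               (CovZ.n2 (-26376, 648) (by decide +kernel)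
                (CovZ.n2 (-26376, 624) (by decide +kernel)
                 (CovZ.leaf K2_ok TB_l9170 _)
                 (CovZ.leaf K2_ok TB_l9171 _))
                (CovZ.n1 (-26400, 648) (by decide +kernel)
                 (CovZ.leaf K2_ok TB_l9172 _)
                 (CovZ.leaf K2_ok TB_l9173 _))))
              (CovZ.n1 (-26376, 600) (by decide +kernel)
               (CovZ.leaf K2_ok TB_l9174 _)
               (CovZ.n1 (-26376, 624) (by decide +kernel)
                (CovZ.leaf K2_ok TB_l9175 _)
                (CovZ.leaf K2_ok TB_l9176 _))))))
           (CovZ.n1 (-26496, 672) (by decide +kernel)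
            (CovZ.n2 (-26448, 720) (by decide +kernel)
             (CovZ.n2 (-26448, 672) (by decide +kernel)
              (CovZ.n2 (-26472, 696) (by decide +kernel)
               (CovZ.n2 (-26448, 696) (by decide +kernel)
                (CovZ.leaf K2_ok TB_l9177 _)
                (CovZ.leaf K2_ok TB_l9178 _))
               (CovZ.n1 (-26472, 672) (by decide +kernel)
                (CovZ.leaf K2_ok TB_l9179 _)
                (CovZ.leaf K2_ok TB_l9180 _)))
              (CovZ.subM 56548501875851203198551920874658630542508982103625776704852078447094055812033261229766318928319037687556210688 (by decide +kernel)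
               (CovZ.n1 (-26424, 696) (by decide +kernel)
                (CovZ.n2 (-26424, 672) (by decide +kernel)
                 (CovZ.leaf K2_ok TB_l9181 _)
                 (CovZ.leaf K2_ok TB_l9182 _))
                (CovZ.n1 (-26448, 696) (by decide +kernel)
                 (CovZ.leaf K2_ok TB_l9183 _)
                 (CovZ.leaf K2_ok TB_l9184 _)))))
             (CovZ.n1 (-26496, 720) (by decide +kernel)
              (CovZ.subM 322781234817412075582841099690780261260533910301088138453820783960722190735692031615880160709257885968100938119309688832 (by decide +kernel)
               (CovZ.n2 (-26472, 744) (by decide +kernel)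
                (CovZ.n2 (-26472, 720) (by decide +kernel)
                 (CovZ.leaf K2_ok TB_l9185 _)
                 (CovZ.leaf K2_ok TB_l9186 _))
                (CovZ.n1 (-26496, 744) (by decide +kernel)
                 (CovZ.leaf K2_ok TB_l9187 _)
                 (CovZ.leaf K2_ok TB_l9188 _))))
              (CovZ.n1 (-26472, 696) (by decide +kernel)
               (CovZ.leaf K2_ok TB_l9189 _)
               (CovZ.n1 (-26472, 720) (by decide +kernel)
                (CovZ.leaf K2_ok TB_l9190 _)
                (CovZ.leaf K2_ok TB_l9191 _)))))
            (CovZ.n1 (-26448, 624) (by decide +kernel)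
             (CovZ.n2 (-26496, 624) (by decide +kernel)
              (CovZ.n2 (-26472, 648) (by decide +kernel)
               (CovZ.n2 (-26472, 624) (by decide +kernel)
                (CovZ.leaf K2_ok TB_l9192 _)
                (CovZ.leaf K2_ok TB_l9193 _))
               (CovZ.leaf K2_ok TB_l9194 _))
              (CovZ.n1 (-26472, 600) (by decide +kernel)
               (CovZ.leaf K2_ok TB_l9195 _)
               (CovZ.leaf K2_ok TB_l9196 _)))
             (CovZ.n1 (-26448, 672) (by decide +kernel)
              (CovZ.n2 (-26424, 648) (by decide +kernel)
               (CovZ.leaf K2_ok TB_l9197 _)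
               (CovZ.n1 (-26424, 672) (by decide +kernel)
                (CovZ.leaf K2_ok TB_l9198 _)
                (CovZ.leaf K2_ok TB_l9199 _)))
              (CovZ.n1 (-26472, 648) (by decide +kernel)
               (CovZ.n2 (-26472, 672) (by decide +kernel)
                (CovZ.leaf K2_ok TB_l9200 _)
                (CovZ.leaf K2_ok TB_l9201 _))
               (CovZ.leaf K2_ok TB_l9202 _)))))))
         (CovZ.n1 (-26400, 480) (by decide +kernel)
          (CovZ.n2 (-26496, 480) (by decide +kernel)
           (CovZ.n2 (-26448, 528) (by decide +kernel)
            (CovZ.n2 (-26448, 480) (by decide +kernel)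
             (CovZ.leaf K2_ok TB_l9203 _)
             (CovZ.n1 (-26424, 504) (by decide +kernel)
              (CovZ.leaf K2_ok TB_l9204 _)
              (CovZ.leaf K2_ok TB_l9205 _)))
            (CovZ.n1 (-26496, 528) (by decide +kernel)
             (CovZ.n2 (-26472, 552) (by decide +kernel)
              (CovZ.leaf K2_ok TB_l9206 _)
              (CovZ.leaf K2_ok TB_l9207 _))
             (CovZ.leaf K2_ok TB_l9208 _)))
           (CovZ.n1 (-26448, 432) (by decide +kernel)
            (CovZ.n2 (-26496, 432) (by decide +kernel)
             (CovZ.leaf K2_ok TB_l9209 _)
             (CovZ.leaf K2_ok TB_l9210 _))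
            (CovZ.n1 (-26448, 480) (by decide +kernel)
             (CovZ.leaf K2_ok TB_l9211 _)
             (CovZ.leaf K2_ok TB_l9212 _))))
          (CovZ.n1 (-26400, 576) (by decide +kernel)
           (CovZ.n2 (-26352, 528) (by decide +kernel)
            (CovZ.n2 (-26400, 528) (by decide +kernel)
             (CovZ.n2 (-26376, 552) (by decide +kernel)
              (CovZ.leaf K2_ok TB_l9213 _)
              (CovZ.n1 (-26400, 552) (by decide +kernel)
               (CovZ.leaf K2_ok TB_l9214 _)
               (CovZ.leaf K2_ok TB_l9215 _)))
             (CovZ.n1 (-26376, 504) (by decide +kernel)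
              (CovZ.leaf K2_ok TB_l9216 _)
              (CovZ.leaf K2_ok TB_l9217 _)))
            (CovZ.subM 10329004437654957714414714362273003089945524837178367888995089210264427672141423649535509987883884371658934144938081796096 (by decide +kernel)
             (CovZ.n1 (-26352, 576) (by decide +kernel)
              (CovZ.n2 (-26328, 552) (by decide +kernel)
               (CovZ.leaf K2_ok TB_l9218 _)
               (CovZ.n1 (-26328, 576) (by decide +kernel)
                (CovZ.leaf K2_ok TB_l9219 _)
                (CovZ.leaf K2_ok TB_l9220 _)))
              (CovZ.n1 (-26376, 552) (by decide +kernel)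
               (CovZ.leaf K2_ok TB_l9221 _)
               (CovZ.leaf K2_ok TB_l9222 _)))))
           (CovZ.n1 (-26448, 528) (by decide +kernel)
            (CovZ.n2 (-26448, 576) (by decide +kernel)
             (CovZ.n2 (-26424, 552) (by decide +kernel)
              (CovZ.leaf K2_ok TB_l9223 _)
              (CovZ.leaf K2_ok TB_l9224 _))
             (CovZ.n1 (-26472, 552) (by decide +kernel)
              (CovZ.leaf K2_ok TB_l9225 _)
              (CovZ.leaf K2_ok TB_l9226 _)))
            (CovZ.subM 1423402490515491861015497007143794798777691661161339082073695011069892216110558443320883341734608306820312304196272128 (by decide +kernel)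
             (CovZ.n1 (-26400, 528) (by decide +kernel)
              (CovZ.n2 (-26424, 504) (by decide +kernel)
               (CovZ.leaf K2_ok TB_l9227 _)
               (CovZ.leaf K2_ok TB_l9228 _))
              (CovZ.n1 (-26424, 552) (by decide +kernel)
               (CovZ.leaf K2_ok TB_l9229 _)
               (CovZ.leaf K2_ok TB_l9230 _))))))))
        (CovZ.subM 322786160068186624892742634579959441105764732656704952232496479323274034919558846546720123306554868550327836189751508992 (by decide +kernel)
         (CovZ.n1 (-26304, 768) (by decide +kernel)
          TB_u49
          TB_u50)))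

theorem TB_u52 : CovZ TB_M (toL (selN TB_LN 10693552188729356552790587731821266841014006708332875938701794431731881531140877455849397537499971682418187577823936921600)) [0, 7, 6, 1] (-26496, 768) (-26880, 768) (-26496, 384) :=
    (CovZ.n1 (-26688, 576) (by decide +kernel)
        (CovZ.n2 (-26688, 768) (by decide +kernel)
         (CovZ.n2 (-26592, 672) (by decide +kernel)
          (CovZ.subM 324204637251379047650047456085088580038060525898235756384583936131685522028722521634282433092253726745441547320321130496 (by decide +kernel)
           (CovZ.n2 (-26688, 672) (by decide +kernel)
            (CovZ.n2 (-26640, 720) (by decide +kernel)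
             (CovZ.n2 (-26640, 672) (by decide +kernel)
              (CovZ.leaf K2_ok TB_l9291 _)
              (CovZ.n1 (-26616, 696) (by decide +kernel)
               (CovZ.leaf K2_ok TB_l9292 _)
               (CovZ.leaf K2_ok TB_l9293 _)))
             (CovZ.n1 (-26688, 720) (by decide +kernel)
              (CovZ.n2 (-26664, 744) (by decide +kernel)
               (CovZ.leaf K2_ok TB_l9294 _)
               (CovZ.leaf K2_ok TB_l9295 _))
              (CovZ.n1 (-26664, 696) (by decide +kernel)
               (CovZ.leaf K2_ok TB_l9296 _)
               (CovZ.leaf K2_ok TB_l9297 _))))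
            (CovZ.n1 (-26640, 624) (by decide +kernel)
             (CovZ.n2 (-26688, 624) (by decide +kernel)
              (CovZ.n2 (-26664, 648) (by decide +kernel)
               (CovZ.leaf K2_ok TB_l9298 _)
               (CovZ.leaf K2_ok TB_l9299 _))
              (CovZ.leaf K2_ok TB_l9300 _))
             (CovZ.n1 (-26640, 672) (by decide +kernel)
              (CovZ.n2 (-26616, 648) (by decide +kernel)
               (CovZ.leaf K2_ok TB_l9301 _)
               (CovZ.leaf K2_ok TB_l9302 _))
              (CovZ.leaf K2_ok TB_l9303 _)))))
          (CovZ.subM 322786160068186624892742634579959441105764732656704952232496680190721129235951525399276459330273972473654401429128888320 (by decide +kernel)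
           (CovZ.n1 (-26592, 768) (by decide +kernel)
            (CovZ.n2 (-26544, 720) (by decide +kernel)
             (CovZ.n2 (-26592, 720) (by decide +kernel)
              (CovZ.n2 (-26568, 744) (by decide +kernel)
               (CovZ.leaf K2_ok TB_l9304 _)
               (CovZ.leaf K2_ok TB_l9305 _))
              (CovZ.n1 (-26568, 696) (by decide +kernel)
               (CovZ.leaf K2_ok TB_l9306 _)
               (CovZ.leaf K2_ok TB_l9307 _)))
             (CovZ.n1 (-26544, 768) (by decide +kernel)
              (CovZ.n2 (-26520, 744) (by decide +kernel)
               (CovZ.n2 (-26544, 744) (by decide +kernel)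
                (CovZ.leaf K2_ok TB_l9308 _)
                (CovZ.leaf K2_ok TB_l9309 _))
               (CovZ.n1 (-26520, 768) (by decide +kernel)
                (CovZ.leaf K2_ok TB_l9310 _)
                (CovZ.leaf K2_ok TB_l9311 _)))
              (CovZ.n1 (-26568, 744) (by decide +kernel)
               (CovZ.n2 (-26568, 768) (by decide +kernel)
                (CovZ.leaf K2_ok TB_l9312 _)
                (CovZ.leaf K2_ok TB_l9313 _))
               (CovZ.leaf K2_ok TB_l9314 _))))
            (CovZ.n1 (-26640, 720) (by decide +kernel)
             (CovZ.n2 (-26640, 768) (by decide +kernel)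
              (CovZ.n2 (-26616, 744) (by decide +kernel)
               (CovZ.leaf K2_ok TB_l9315 _)
               (CovZ.leaf K2_ok TB_l9316 _))
              (CovZ.n1 (-26664, 744) (by decide +kernel)
               (CovZ.leaf K2_ok TB_l9317 _)
               (CovZ.leaf K2_ok TB_l9318 _)))
             (CovZ.n1 (-26592, 720) (by decide +kernel)
              (CovZ.n2 (-26616, 696) (by decide +kernel)
               (CovZ.leaf K2_ok TB_l9319 _)
               (CovZ.leaf K2_ok TB_l9320 _))
              (CovZ.n1 (-26616, 744) (by decide +kernel)
               (CovZ.leaf K2_ok TB_l9321 _)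
               (CovZ.n1 (-26616, 720) (by decide +kernel)
                (CovZ.leaf K2_ok TB_l9322 _)
                (CovZ.leaf K2_ok TB_l9323 _))))))))
         (CovZ.n1 (-26784, 672) (by decide +kernel)
          (CovZ.subM 322786472706175530432748929986555444827494436161413934715496179620647797098686666763274292013740055866212398359575019520 (by decide +kernel)
           (CovZ.n2 (-26784, 768) (by decide +kernel)
            (CovZ.n2 (-26736, 720) (by decide +kernel)
             (CovZ.n2 (-26784, 720) (by decide +kernel)
              (CovZ.leaf K2_ok TB_l9324 _)
              (CovZ.leaf K2_ok TB_l9325 _))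
             (CovZ.n1 (-26736, 768) (by decide +kernel)
              (CovZ.n2 (-26712, 744) (by decide +kernel)
               (CovZ.leaf K2_ok TB_l9326 _)
               (CovZ.leaf K2_ok TB_l9327 _))
              (CovZ.leaf K2_ok TB_l9328 _)))
            (CovZ.n1 (-26832, 720) (by decide +kernel)
             (CovZ.n2 (-26832, 768) (by decide +kernel)
              (CovZ.leaf K2_ok TB_l9329 _)
              (CovZ.leaf K2_ok TB_l9330 _))
             (CovZ.n1 (-26784, 720) (by decide +kernel)
              (CovZ.leaf K2_ok TB_l9331 _)
              (CovZ.leaf K2_ok TB_l9332 _)))))
          (CovZ.subM 324204637251379047650047456085088580038060525898235756384583936131685522028722521634282433092253726745441547320321130496 (by decide +kernel)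
           (CovZ.n1 (-26688, 672) (by decide +kernel)
            (CovZ.n2 (-26736, 624) (by decide +kernel)
             (CovZ.n2 (-26736, 672) (by decide +kernel)
              (CovZ.leaf K2_ok TB_l9333 _)
              (CovZ.leaf K2_ok TB_l9334 _))
             (CovZ.n1 (-26688, 624) (by decide +kernel)
              (CovZ.leaf K2_ok TB_l9335 _)
              (CovZ.leaf K2_ok TB_l9336 _)))
            (CovZ.n1 (-26736, 720) (by decide +kernel)
             (CovZ.n2 (-26688, 720) (by decide +kernel)
              (CovZ.leaf K2_ok TB_l9337 _)
              (CovZ.n1 (-26712, 744) (by decide +kernel)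
               (CovZ.leaf K2_ok TB_l9338 _)
               (CovZ.leaf K2_ok TB_l9339 _)))
             (CovZ.n1 (-26736, 672) (by decide +kernel)
              (CovZ.leaf K2_ok TB_l9340 _)
              (CovZ.leaf K2_ok TB_l9341 _)))))))
        (CovZ.n1 (-26496, 576) (by decide +kernel)
         (CovZ.n2 (-26592, 480) (by decide +kernel)
          (CovZ.n2 (-26592, 576) (by decide +kernel)
           (CovZ.n2 (-26544, 528) (by decide +kernel)
            (CovZ.n2 (-26592, 528) (by decide +kernel)
             (CovZ.leaf K2_ok TB_l9342 _)
             (CovZ.leaf K2_ok TB_l9343 _))
            (CovZ.n1 (-26544, 576) (by decide +kernel)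
             (CovZ.leaf K2_ok TB_l9344 _)
             (CovZ.leaf K2_ok TB_l9345 _)))
           (CovZ.subM 324204637251379047650047456085088580038060525898235756384583936131685522028722521634282433092253726745441547320321130496 (by decide +kernel)
            (CovZ.n1 (-26640, 528) (by decide +kernel)
             (CovZ.n2 (-26640, 576) (by decide +kernel)
              (CovZ.leaf K2_ok TB_l9346 _)
              (CovZ.leaf K2_ok TB_l9347 _))
             (CovZ.n1 (-26592, 528) (by decide +kernel)
              (CovZ.leaf K2_ok TB_l9348 _)
              (CovZ.leaf K2_ok TB_l9349 _)))))
          (CovZ.n1 (-26496, 480) (by decide +kernel)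
           (CovZ.n2 (-26544, 432) (by decide +kernel)
            (CovZ.n2 (-26544, 480) (by decide +kernel)
             (CovZ.leaf K2_ok TB_l9350 _)
             (CovZ.leaf K2_ok TB_l9351 _))
            (CovZ.n1 (-26496, 432) (by decide +kernel)
             (CovZ.leaf K2_ok TB_l9352 _)
             (CovZ.leaf K2_ok TB_l9353 _)))
           (CovZ.n1 (-26544, 528) (by decide +kernel)
            (CovZ.n2 (-26496, 528) (by decide +kernel)
             (CovZ.leaf K2_ok TB_l9354 _)
             (CovZ.leaf K2_ok TB_l9355 _))
            (CovZ.n1 (-26544, 480) (by decide +kernel)
             (CovZ.leaf K2_ok TB_l9356 _)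
             (CovZ.leaf K2_ok TB_l9357 _)))))
         (CovZ.n1 (-26592, 672) (by decide +kernel)
          (CovZ.subM 322786164878002139018838021478988339142477122044659413458750473948257661916053314880897143794091746103784767462364430336 (by decide +kernel)
           (CovZ.n2 (-26496, 672) (by decide +kernel)
            (CovZ.n2 (-26544, 624) (by decide +kernel)
             (CovZ.n2 (-26544, 672) (by decide +kernel)
              (CovZ.n2 (-26520, 648) (by decide +kernel)
               (CovZ.leaf K2_ok TB_l9358 _)
               (CovZ.leaf K2_ok TB_l9359 _))
              (CovZ.n1 (-26568, 648) (by decide +kernel)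
               (CovZ.leaf K2_ok TB_l9360 _)
               (CovZ.leaf K2_ok TB_l9361 _)))
             (CovZ.n1 (-26496, 624) (by decide +kernel)
              (CovZ.n2 (-26520, 600) (by decide +kernel)
               (CovZ.leaf K2_ok TB_l9362 _)
               (CovZ.leaf K2_ok TB_l9363 _))
              (CovZ.n1 (-26520, 648) (by decide +kernel)
               (CovZ.leaf K2_ok TB_l9364 _)
               (CovZ.leaf K2_ok TB_l9365 _))))
            (CovZ.n1 (-26544, 720) (by decide +kernel)
             (CovZ.n2 (-26496, 720) (by decide +kernel)
              (CovZ.n2 (-26520, 696) (by decide +kernel)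
               (CovZ.n2 (-26520, 720) (by decide +kernel)
                (CovZ.leaf K2_ok TB_l9366 _)
                (CovZ.leaf K2_ok TB_l9367 _))
               (CovZ.leaf K2_ok TB_l9368 _))
              (CovZ.n1 (-26520, 744) (by decide +kernel)
               (CovZ.n2 (-26496, 744) (by decide +kernel)
                (CovZ.leaf K2_ok TB_l9369 _)
                (CovZ.leaf K2_ok TB_l9370 _))
               (CovZ.n1 (-26520, 720) (by decide +kernel)
                (CovZ.leaf K2_ok TB_l9371 _)
                (CovZ.leaf K2_ok TB_l9372 _))))
             (CovZ.n1 (-26544, 672) (by decide +kernel)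
              (CovZ.n2 (-26568, 696) (by decide +kernel)
               (CovZ.leaf K2_ok TB_l9373 _)
               (CovZ.leaf K2_ok TB_l9374 _))
              (CovZ.n1 (-26520, 696) (by decide +kernel)
               (CovZ.leaf K2_ok TB_l9375 _)
               (CovZ.leaf K2_ok TB_l9376 _))))))
          (CovZ.n1 (-26592, 576) (by decide +kernel)
           (CovZ.subM 324204637251379047650047456085088580038060525898235756384583936131685522028722521634282433092253726745441547320321130496 (by decide +kernel)
            (CovZ.n2 (-26640, 624) (by decide +kernel)
             (CovZ.n2 (-26592, 624) (by decide +kernel)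
              (CovZ.leaf K2_ok TB_l9377 _)
              (CovZ.leaf K2_ok TB_l9378 _))
             (CovZ.n1 (-26640, 576) (by decide +kernel)
              (CovZ.leaf K2_ok TB_l9379 _)
              (CovZ.leaf K2_ok TB_l9380 _))))
           (CovZ.n1 (-26544, 624) (by decide +kernel)
            (CovZ.n2 (-26544, 576) (by decide +kernel)
             (CovZ.leaf K2_ok TB_l9381 _)
             (CovZ.n1 (-26520, 600) (by decide +kernel)
              (CovZ.leaf K2_ok TB_l9382 _)
              (CovZ.leaf K2_ok TB_l9383 _)))
            (CovZ.subM 324047029226593469733198339924686016289894567794585273068713867605042986561763972253147345358203772461686073191939194880 (by decide +kernel)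
             (CovZ.n1 (-26592, 624) (by decide +kernel)
              (CovZ.n2 (-26568, 648) (by decide +kernel)
               (CovZ.leaf K2_ok TB_l9384 _)
               (CovZ.leaf K2_ok TB_l9385 _))
              (CovZ.n1 (-26568, 600) (by decide +kernel)
               (CovZ.leaf K2_ok TB_l9386 _)
               (CovZ.leaf K2_ok TB_l9387 _)))))))))

theorem TB_u53 : CovZ TB_M (toL (selN TB_LN 10693552188729356552790587731821266841014006708332875938701794431731881531140877455849397537499971682418187577823936921600)) [0, 7, 6, 1] (-26112, 768) (-26304, 576) (-26112, 384) :=
    (CovZ.n2 (-26112, 576) (by decide +kernel)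
         (CovZ.n2 (-26208, 480) (by decide +kernel)
          (CovZ.subM 10329004437617381033090333030626771400396895444740356968211938827256668470014707512837660910325377557811838688001437745152 (by decide +kernel)
           (CovZ.n2 (-26208, 576) (by decide +kernel)
            (CovZ.n2 (-26160, 528) (by decide +kernel)
             (CovZ.n2 (-26208, 528) (by decide +kernel)
              (CovZ.subM 36695977855841144185835299847955713762026694298687130601765554255505201602394737285453690408871700690108416 (by decide +kernel)
               (CovZ.n2 (-26184, 552) (by decide +kernel)
                (CovZ.n2 (-26184, 528) (by decide +kernel)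
                 (CovZ.n2 (-26196, 540) (by decide +kernel)
                  (CovZ.badM (by decide +kernel))
                  (CovZ.leaf K2_ok TB_l9455 _))
                 (CovZ.badM (by decide +kernel)))
                (CovZ.n1 (-26208, 552) (by decide +kernel)
                 (CovZ.badM (by decide +kernel))
                 (CovZ.n1 (-26196, 540) (by decide +kernel)
                  (CovZ.leaf K2_ok TB_l9457 _)
                  (CovZ.badM (by decide +kernel))))))
              (CovZ.n1 (-26184, 504) (by decide +kernel)
               (CovZ.n2 (-26208, 504) (by decide +kernel)
                (CovZ.n2 (-26196, 516) (by decide +kernel)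
                 (CovZ.leaf K2_ok TB_l9459 _)
                 (CovZ.leaf K2_ok TB_l9460 _))
                (CovZ.leaf K2_ok TB_l9461 _))
               (CovZ.subM 4925250958029199180740609216904442731773970847375643602049438468092304465571435207805123785969522551575941998444544 (by decide +kernel)
                (CovZ.n1 (-26184, 528) (by decide +kernel)
                 (CovZ.n2 (-26172, 516) (by decide +kernel)
                  (CovZ.leaf K2_ok TB_l9462 _)
                  (CovZ.badM (by decide +kernel)))
                 (CovZ.n1 (-26196, 516) (by decide +kernel)
                  (CovZ.leaf K2_ok TB_l9463 _)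
                  (CovZ.leaf K2_ok TB_l9464 _))))))
             (CovZ.badM (by decide +kernel)))
            (CovZ.n1 (-26256, 528) (by decide +kernel)
             (CovZ.n2 (-26256, 576) (by decide +kernel)
              (CovZ.n2 (-26232, 552) (by decide +kernel)
               (CovZ.n2 (-26256, 552) (by decide +kernel)
                (CovZ.n2 (-26244, 564) (by decide +kernel)
                 (CovZ.leaf K2_ok TB_l9465 _)
                 (CovZ.leaf K2_ok TB_l9466 _))
                (CovZ.n1 (-26244, 540) (by decide +kernel)
                 (CovZ.leaf K2_ok TB_l9467 _)
                 (CovZ.leaf K2_ok TB_l9468 _)))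
               (CovZ.subM 36695977855841144185835299847955713762026667970614213462468879775998280684786657561679840271593887112364032 (by decide +kernel)
                (CovZ.n1 (-26232, 576) (by decide +kernel)
                 (CovZ.n2 (-26220, 564) (by decide +kernel)
                  (CovZ.leaf K2_ok TB_l9469 _)
                  (CovZ.badM (by decide +kernel)))
                 (CovZ.n1 (-26244, 564) (by decide +kernel)
                  (CovZ.leaf K2_ok TB_l9470 _)
                  (CovZ.leaf K2_ok TB_l9471 _)))))
              (CovZ.n1 (-26280, 552) (by decide +kernel)
               (CovZ.n2 (-26280, 576) (by decide +kernel)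
                (CovZ.leaf K2_ok TB_l9472 _)
                (CovZ.leaf K2_ok TB_l9473 _))
               (CovZ.n1 (-26256, 552) (by decide +kernel)
                (CovZ.leaf K2_ok TB_l9474 _)
                (CovZ.leaf K2_ok TB_l9475 _))))
             (CovZ.n1 (-26208, 528) (by decide +kernel)
              (CovZ.n2 (-26232, 504) (by decide +kernel)
               (CovZ.n2 (-26232, 528) (by decide +kernel)
                (CovZ.n2 (-26220, 516) (by decide +kernel)
                 (CovZ.leaf K2_ok TB_l9476 _)
                 (CovZ.leaf K2_ok TB_l9477 _))
                (CovZ.n1 (-26244, 516) (by decide +kernel)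
                 (CovZ.leaf K2_ok TB_l9478 _)
                 (CovZ.leaf K2_ok TB_l9479 _)))
               (CovZ.n1 (-26208, 504) (by decide +kernel)
                (CovZ.leaf K2_ok TB_l9480 _)
                (CovZ.n1 (-26220, 516) (by decide +kernel)
                 (CovZ.leaf K2_ok TB_l9481 _)
                 (CovZ.leaf K2_ok TB_l9482 _))))
              (CovZ.n1 (-26232, 552) (by decide +kernel)
               (CovZ.subM 36695977855841144185835299847955713762026694298687130601765554255505201602394737285453690408871700690108416 (by decide +kernel)
                (CovZ.n2 (-26208, 552) (by decide +kernel)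
                 (CovZ.n2 (-26220, 540) (by decide +kernel)
                  (CovZ.leaf K2_ok TB_l9483 _)
                  (CovZ.leaf K2_ok TB_l9484 _))
                 (CovZ.n1 (-26220, 564) (by decide +kernel)
                  (CovZ.badM (by decide +kernel))
                  (CovZ.leaf K2_ok TB_l9485 _))))
               (CovZ.n1 (-26232, 528) (by decide +kernel)
                (CovZ.n2 (-26244, 540) (by decide +kernel)
                 (CovZ.leaf K2_ok TB_l9486 _)
                 (CovZ.leaf K2_ok TB_l9487 _))
                (CovZ.n1 (-26220, 540) (by decide +kernel)
                 (CovZ.leaf K2_ok TB_l9488 _)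
                 (CovZ.leaf K2_ok TB_l9489 _))))))))
          (CovZ.n1 (-26112, 480) (by decide +kernel)
           (CovZ.n2 (-26160, 432) (by decide +kernel)
            (CovZ.subM 10330265306775787591243461737212558965948346600359632338415193448552103538358087607822994250001324202567226717663065030656 (by decide +kernel)
             (CovZ.n2 (-26160, 480) (by decide +kernel)
              (CovZ.n2 (-26136, 456) (by decide +kernel)
               (CovZ.n2 (-26160, 456) (by decide +kernel)
                (CovZ.n2 (-26148, 468) (by decide +kernel)
                 (CovZ.leaf K2_ok TB_l9490 _)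
                 (CovZ.leaf K2_ok TB_l9491 _))
                (CovZ.n1 (-26148, 444) (by decide +kernel)
                 (CovZ.leaf K2_ok TB_l9492 _)
                 (CovZ.leaf K2_ok TB_l9493 _)))
               (CovZ.subM 4925250958029199180740610235360265494465790651329065233015275242929386973267653624109058111818832530880068289822720 (by decide +kernel)
                (CovZ.n1 (-26136, 480) (by decide +kernel)
                 (CovZ.n2 (-26124, 468) (by decide +kernel)
                  (CovZ.leaf K2_ok TB_l9494 _)
                  (CovZ.subM 4925250774549309901534888160661857063579312482590934471006180881404289885182153870988580699385813508447653232377856 (by decide +kernel)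
                   (CovZ.n1 (-26124, 480) (by decide +kernel)
                    (CovZ.n2 (-26118, 474) (by decide +kernel)
                     (CovZ.leaf K2_ok TB_l39456 _)
                     (CovZ.badM (by decide +kernel)))
                    (CovZ.n1 (-26130, 474) (by decide +kernel)
                     (CovZ.n2 (-26130, 480) (by decide +kernel)
                      (CovZ.leaf K2_ok TB_l39457 _)
                      (CovZ.leaf K2_ok TB_l39458 _))
                     (CovZ.leaf K2_ok TB_l39459 _)))))
                 (CovZ.n1 (-26148, 468) (by decide +kernel)
                  (CovZ.leaf K2_ok TB_l9495 _)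
                  (CovZ.leaf K2_ok TB_l9496 _)))))
              (CovZ.n1 (-26184, 456) (by decide +kernel)
               (CovZ.n2 (-26184, 480) (by decide +kernel)
                (CovZ.n2 (-26172, 468) (by decide +kernel)
                 (CovZ.leaf K2_ok TB_l9497 _)
                 (CovZ.leaf K2_ok TB_l9498 _))
                (CovZ.leaf K2_ok TB_l9499 _))
               (CovZ.n1 (-26160, 456) (by decide +kernel)
                (CovZ.leaf K2_ok TB_l9500 _)
                (CovZ.n1 (-26172, 468) (by decide +kernel)
                 (CovZ.leaf K2_ok TB_l9501 _)
                 (CovZ.leaf K2_ok TB_l9502 _))))))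
            (CovZ.n1 (-26112, 432) (by decide +kernel)
             (CovZ.n2 (-26136, 408) (by decide +kernel)
              (CovZ.n2 (-26136, 432) (by decide +kernel)
               (CovZ.leaf K2_ok TB_l9503 _)
               (CovZ.leaf K2_ok TB_l9504 _))
              (CovZ.n1 (-26112, 408) (by decide +kernel)
               (CovZ.leaf K2_ok TB_l9505 _)
               (CovZ.leaf K2_ok TB_l9506 _)))
             (CovZ.subM 10330265306775787591243461737212558965948346600359632338415193448552103538358087607822994250001324202567226717663065030656 (by decide +kernel)
              (CovZ.n1 (-26136, 456) (by decide +kernel)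
               (CovZ.subM 10329004437598592692428142364803655493396467794415967204931658066919445597699525968206847358482468320401071514013856710656 (by decide +kernel)
                (CovZ.n2 (-26112, 456) (by decide +kernel)
                 (CovZ.n2 (-26124, 444) (by decide +kernel)
                  (CovZ.leaf K2_ok TB_l9507 _)
                  (CovZ.leaf K2_ok TB_l9508 _))
                 (CovZ.n1 (-26124, 468) (by decide +kernel)
                  (CovZ.leaf K2_ok TB_l39460 _)
                  (CovZ.leaf K2_ok TB_l9509 _))))
               (CovZ.n1 (-26136, 432) (by decide +kernel)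
                (CovZ.leaf K2_ok TB_l9510 _)
                (CovZ.leaf K2_ok TB_l9511 _))))))
           (CovZ.subM 10329004437617381033090333030626771400396895444740356968211938827256668470014707512837660910325377557811838688001437745152 (by decide +kernel)
            (CovZ.n1 (-26160, 528) (by decide +kernel)
             (CovZ.badM (by decide +kernel))
             (CovZ.n1 (-26160, 480) (by decide +kernel)
              (CovZ.n2 (-26184, 504) (by decide +kernel)
               (CovZ.n2 (-26160, 504) (by decide +kernel)
                (CovZ.n2 (-26172, 492) (by decide +kernel)
                 (CovZ.leaf K2_ok TB_l9512 _)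
                 (CovZ.leaf K2_ok TB_l9513 _))
                (CovZ.n1 (-26172, 516) (by decide +kernel)
                 (CovZ.badM (by decide +kernel))
                 (CovZ.leaf K2_ok TB_l9514 _)))
               (CovZ.n1 (-26184, 480) (by decide +kernel)
                (CovZ.n2 (-26196, 492) (by decide +kernel)
                 (CovZ.leaf K2_ok TB_l9515 _)
                 (CovZ.leaf K2_ok TB_l9516 _))
                (CovZ.n1 (-26172, 492) (by decide +kernel)
                 (CovZ.leaf K2_ok TB_l9517 _)
                 (CovZ.leaf K2_ok TB_l9518 _))))
              (CovZ.n1 (-26136, 504) (by decide +kernel)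
               (CovZ.n2 (-26136, 480) (by decide +kernel)
                (CovZ.n2 (-26148, 492) (by decide +kernel)
                 (CovZ.badM (by decide +kernel))
                 (CovZ.leaf K2_ok TB_l9519 _))
                (CovZ.badM (by decide +kernel)))
               (CovZ.n1 (-26160, 504) (by decide +kernel)
                (CovZ.badM (by decide +kernel))
                (CovZ.n1 (-26148, 492) (by decide +kernel)
                 (CovZ.leaf K2_ok TB_l9520 _)
                 (CovZ.badM (by decide +kernel))))))))))
         (CovZ.subM 4925269746369861371406433351267265922116115041092345308089112076084793555632095565347889814818285682717688961433600 (by decide +kernel)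
          (CovZ.n1 (-26208, 672) (by decide +kernel)
           (CovZ.badM (by decide +kernel))
           (CovZ.n1 (-26208, 576) (by decide +kernel)
            (CovZ.n2 (-26256, 624) (by decide +kernel)
             (CovZ.badM (by decide +kernel))
             (CovZ.n1 (-26256, 576) (by decide +kernel)
              (CovZ.n2 (-26280, 600) (by decide +kernel)
               (CovZ.subM 36695977855841144185835299847955713762026246721447539233722088103887546003057381981298238075148869868453888 (by decide +kernel)
                (CovZ.n2 (-26256, 600) (by decide +kernel)
                 (CovZ.n2 (-26268, 588) (by decide +kernel)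
                  (CovZ.leaf K2_ok TB_l9521 _)
                  (CovZ.leaf K2_ok TB_l9522 _))
                 (CovZ.n1 (-26268, 612) (by decide +kernel)
                  (CovZ.badM (by decide +kernel))
                  (CovZ.leaf K2_ok TB_l9523 _))))
               (CovZ.n1 (-26280, 576) (by decide +kernel)
                (CovZ.leaf K2_ok TB_l9524 _)
                (CovZ.n1 (-26268, 588) (by decide +kernel)
                 (CovZ.leaf K2_ok TB_l9525 _)
                 (CovZ.leaf K2_ok TB_l9526 _))))
              (CovZ.subM 36695977855841144185835299847955713762026246721447539233722088103887546003057381981298238075148869868453888 (by decide +kernel)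
               (CovZ.n1 (-26232, 600) (by decide +kernel)
                (CovZ.n2 (-26232, 576) (by decide +kernel)
                 (CovZ.n2 (-26244, 588) (by decide +kernel)
                  (CovZ.badM (by decide +kernel))
                  (CovZ.leaf K2_ok TB_l9527 _))
                 (CovZ.badM (by decide +kernel)))
                (CovZ.n1 (-26256, 600) (by decide +kernel)
                 (CovZ.badM (by decide +kernel))
                 (CovZ.n1 (-26244, 588) (by decide +kernel)
                  (CovZ.leaf K2_ok TB_l9528 _)
                  (CovZ.badM (by decide +kernel))))))))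
            (CovZ.badM (by decide +kernel))))))

theorem TB_u54 : CovZ TB_M (toL (selN TB_LN 10693552188729356552790587731821266841014006708332875938701794431731881531140877455849397537499971682418187577823936921600)) [0, 7, 6, 1] (-26304, 576) (-26496, 384) (-26112, 384) :=
    (CovZ.n1 (-26304, 384) (by decide +kernel)
         (CovZ.n2 (-26400, 480) (by decide +kernel)
          (CovZ.n2 (-26304, 480) (by decide +kernel)
           (CovZ.n2 (-26352, 432) (by decide +kernel)
            (CovZ.subM 10330422914800573169160310853372959602568971470540044469624646260078325533802192446333904587124340853874727070741698199552 (by decide +kernel)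
             (CovZ.n2 (-26352, 480) (by decide +kernel)
              (CovZ.n2 (-26328, 456) (by decide +kernel)
               (CovZ.leaf K2_ok TB_l9529 _)
               (CovZ.leaf K2_ok TB_l9530 _))
              (CovZ.n1 (-26376, 456) (by decide +kernel)
               (CovZ.leaf K2_ok TB_l9531 _)
               (CovZ.leaf K2_ok TB_l9532 _))))
            (CovZ.n1 (-26304, 432) (by decide +kernel)
             (CovZ.n2 (-26328, 408) (by decide +kernel)
              (CovZ.leaf K2_ok TB_l9533 _)
              (CovZ.leaf K2_ok TB_l9534 _))
             (CovZ.n1 (-26328, 456) (by decide +kernel)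
              (CovZ.leaf K2_ok TB_l9535 _)
              (CovZ.leaf K2_ok TB_l9536 _))))
           (CovZ.subM 10330422914800573169160310853372959602568971470540044469624646260078325533802192446333904587124340853874727070741698199552 (by decide +kernel)
            (CovZ.n1 (-26352, 528) (by decide +kernel)
             (CovZ.n2 (-26304, 528) (by decide +kernel)
              (CovZ.n2 (-26328, 504) (by decide +kernel)
               (CovZ.n2 (-26328, 528) (by decide +kernel)
                (CovZ.leaf K2_ok TB_l9537 _)
                (CovZ.leaf K2_ok TB_l9538 _))
               (CovZ.leaf K2_ok TB_l9539 _))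
              (CovZ.n1 (-26328, 552) (by decide +kernel)
               (CovZ.n2 (-26304, 552) (by decide +kernel)
                (CovZ.leaf K2_ok TB_l9540 _)
                (CovZ.leaf K2_ok TB_l9541 _))
               (CovZ.n1 (-26328, 528) (by decide +kernel)
                (CovZ.leaf K2_ok TB_l9542 _)
                (CovZ.leaf K2_ok TB_l9543 _))))
             (CovZ.n1 (-26352, 480) (by decide +kernel)
              (CovZ.n2 (-26376, 504) (by decide +kernel)
               (CovZ.leaf K2_ok TB_l9544 _)
               (CovZ.leaf K2_ok TB_l9545 _))
              (CovZ.n1 (-26328, 504) (by decide +kernel)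
               (CovZ.n2 (-26328, 480) (by decide +kernel)
                (CovZ.leaf K2_ok TB_l9546 _)
                (CovZ.leaf K2_ok TB_l9547 _))
               (CovZ.leaf K2_ok TB_l9548 _))))))
          (CovZ.n1 (-26400, 384) (by decide +kernel)
           (CovZ.n2 (-26448, 432) (by decide +kernel)
            (CovZ.n2 (-26400, 432) (by decide +kernel)
             (CovZ.leaf K2_ok TB_l9549 _)
             (CovZ.leaf K2_ok TB_l9550 _))
            (CovZ.n1 (-26448, 384) (by decide +kernel)
             (CovZ.leaf K2_ok TB_l9551 _)
             (CovZ.leaf K2_ok TB_l9552 _)))
           (CovZ.n1 (-26352, 432) (by decide +kernel)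
            (CovZ.n2 (-26352, 384) (by decide +kernel)
             (CovZ.leaf K2_ok TB_l9553 _)
             (CovZ.n1 (-26328, 408) (by decide +kernel)
              (CovZ.leaf K2_ok TB_l9554 _)
              (CovZ.leaf K2_ok TB_l9555 _)))
            (CovZ.n1 (-26400, 432) (by decide +kernel)
             (CovZ.n2 (-26376, 456) (by decide +kernel)
              (CovZ.leaf K2_ok TB_l9556 _)
              (CovZ.leaf K2_ok TB_l9557 _))
             (CovZ.leaf K2_ok TB_l9558 _)))))
         (CovZ.n1 (-26208, 480) (by decide +kernel)
          (CovZ.n2 (-26208, 384) (by decide +kernel)
           (CovZ.n2 (-26256, 432) (by decide +kernel)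
            (CovZ.n2 (-26208, 432) (by decide +kernel)
             (CovZ.n2 (-26232, 408) (by decide +kernel)
              (CovZ.leaf K2_ok TB_l9559 _)
              (CovZ.leaf K2_ok TB_l9560 _))
             (CovZ.subM 10330422914800573169160310853372959540403566919316714200201865241725720521245173596665439907066343742229789944175026257920 (by decide +kernel)
              (CovZ.n1 (-26232, 456) (by decide +kernel)
               (CovZ.n2 (-26208, 456) (by decide +kernel)
                (CovZ.leaf K2_ok TB_l9561 _)
                (CovZ.leaf K2_ok TB_l9562 _))
               (CovZ.n1 (-26232, 432) (by decide +kernel)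
                (CovZ.leaf K2_ok TB_l9563 _)
                (CovZ.leaf K2_ok TB_l9564 _)))))
            (CovZ.n1 (-26256, 384) (by decide +kernel)
             (CovZ.n2 (-26280, 408) (by decide +kernel)
              (CovZ.leaf K2_ok TB_l9565 _)
              (CovZ.leaf K2_ok TB_l9566 _))
             (CovZ.n1 (-26232, 408) (by decide +kernel)
              (CovZ.leaf K2_ok TB_l9567 _)
              (CovZ.leaf K2_ok TB_l9568 _))))
           (CovZ.n1 (-26160, 432) (by decide +kernel)
            (CovZ.n2 (-26160, 384) (by decide +kernel)
             (CovZ.n2 (-26184, 408) (by decide +kernel)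
              (CovZ.n2 (-26160, 408) (by decide +kernel)
               (CovZ.leaf K2_ok TB_l9569 _)
               (CovZ.leaf K2_ok TB_l9570 _))
              (CovZ.n1 (-26184, 384) (by decide +kernel)
               (CovZ.leaf K2_ok TB_l9571 _)
               (CovZ.leaf K2_ok TB_l9572 _)))
             (CovZ.n1 (-26136, 408) (by decide +kernel)
              (CovZ.n2 (-26136, 384) (by decide +kernel)
               (CovZ.leaf K2_ok TB_l9573 _)
               (CovZ.n1 (-26124, 396) (by decide +kernel)
                (CovZ.leaf K2_ok TB_l9574 _)
                (CovZ.leaf K2_ok TB_l9575 _)))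
              (CovZ.n1 (-26160, 408) (by decide +kernel)
               (CovZ.leaf K2_ok TB_l9576 _)
               (CovZ.leaf K2_ok TB_l9577 _))))
            (CovZ.n1 (-26208, 432) (by decide +kernel)
             (CovZ.subM 10330422914800573169160310853372959540403566919316714200201865241725720521245173596665439907066343742229789944175026257920 (by decide +kernel)
              (CovZ.n2 (-26184, 456) (by decide +kernel)
               (CovZ.n2 (-26184, 432) (by decide +kernel)
                (CovZ.leaf K2_ok TB_l9578 _)
                (CovZ.leaf K2_ok TB_l9579 _))
               (CovZ.n1 (-26208, 456) (by decide +kernel)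
                (CovZ.leaf K2_ok TB_l9580 _)
                (CovZ.leaf K2_ok TB_l9581 _))))
             (CovZ.n1 (-26184, 408) (by decide +kernel)
              (CovZ.leaf K2_ok TB_l9582 _)
              (CovZ.n1 (-26184, 432) (by decide +kernel)
               (CovZ.leaf K2_ok TB_l9583 _)
               (CovZ.leaf K2_ok TB_l9584 _))))))
          (CovZ.n1 (-26304, 480) (by decide +kernel)
           (CovZ.subM 10330265306775787591243461737212559028113751151582962607837974466904708550915106457491458930059321314212163844229736972288 (by decide +kernel)
            (CovZ.n2 (-26256, 528) (by decide +kernel)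
             (CovZ.n2 (-26256, 480) (by decide +kernel)
              (CovZ.n2 (-26280, 504) (by decide +kernel)
               (CovZ.n2 (-26256, 504) (by decide +kernel)
                (CovZ.leaf K2_ok TB_l9585 _)
                (CovZ.leaf K2_ok TB_l9586 _))
               (CovZ.n1 (-26280, 480) (by decide +kernel)
                (CovZ.leaf K2_ok TB_l9587 _)
                (CovZ.leaf K2_ok TB_l9588 _)))
              (CovZ.n1 (-26232, 504) (by decide +kernel)
               (CovZ.n2 (-26232, 480) (by decide +kernel)
                (CovZ.leaf K2_ok TB_l9589 _)
                (CovZ.leaf K2_ok TB_l9590 _))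
               (CovZ.n1 (-26256, 504) (by decide +kernel)
                (CovZ.n2 (-26244, 516) (by decide +kernel)
                 (CovZ.leaf K2_ok TB_l9591 _)
                 (CovZ.leaf K2_ok TB_l9592 _))
                (CovZ.leaf K2_ok TB_l9593 _))))
             (CovZ.n1 (-26304, 528) (by decide +kernel)
              (CovZ.subM 10329004437617380728485048094445398764584745287431935143667945716141922105234704853359408303655691459304669628429055836160 (by decide +kernel)
               (CovZ.n2 (-26280, 552) (by decide +kernel)
                (CovZ.n2 (-26280, 528) (by decide +kernel)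
                 (CovZ.leaf K2_ok TB_l9594 _)
                 (CovZ.leaf K2_ok TB_l9595 _))
                (CovZ.n1 (-26304, 552) (by decide +kernel)
                 (CovZ.leaf K2_ok TB_l9596 _)
                 (CovZ.leaf K2_ok TB_l9597 _))))
              (CovZ.n1 (-26280, 504) (by decide +kernel)
               (CovZ.n2 (-26304, 504) (by decide +kernel)
                (CovZ.leaf K2_ok TB_l9598 _)
                (CovZ.leaf K2_ok TB_l9599 _))
               (CovZ.n1 (-26280, 528) (by decide +kernel)
                (CovZ.leaf K2_ok TB_l9600 _)
                (CovZ.leaf K2_ok TB_l9601 _))))))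
           (CovZ.n1 (-26256, 432) (by decide +kernel)
            (CovZ.n2 (-26304, 432) (by decide +kernel)
             (CovZ.n2 (-26280, 456) (by decide +kernel)
              (CovZ.leaf K2_ok TB_l9602 _)
              (CovZ.leaf K2_ok TB_l9603 _))
             (CovZ.n1 (-26280, 408) (by decide +kernel)
              (CovZ.leaf K2_ok TB_l9604 _)
              (CovZ.leaf K2_ok TB_l9605 _)))
            (CovZ.subM 10330422914800573169160310853372959602568971470540044469624646260078325533802192446333904587124340853874727070741698199552 (by decide +kernel)
             (CovZ.n1 (-26256, 480) (by decide +kernel)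
              (CovZ.n2 (-26232, 456) (by decide +kernel)
               (CovZ.n2 (-26256, 456) (by decide +kernel)
                (CovZ.leaf K2_ok TB_l9606 _)
                (CovZ.leaf K2_ok TB_l9607 _))
               (CovZ.n1 (-26232, 480) (by decide +kernel)
                (CovZ.leaf K2_ok TB_l9608 _)
                (CovZ.leaf K2_ok TB_l9609 _)))
              (CovZ.n1 (-26280, 456) (by decide +kernel)
               (CovZ.n2 (-26280, 480) (by decide +kernel)
                (CovZ.leaf K2_ok TB_l9610 _)
                (CovZ.leaf K2_ok TB_l9611 _))
               (CovZ.leaf K2_ok TB_l9612 _))))))))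

theorem TB_u55 : CovZ TB_M (toL (selN TB_LN 322781234779688610347036403467678164426084278918474459656453702964376353740576261172219662645435049772316599489887469568)) [0, 7, 6, 1] (-26496, 768) (-26496, 960) (-26688, 960) :=
    (CovZ.n2 (-26592, 864) (by decide +kernel)
            (CovZ.subM 322781234779651914369180562323492329126236323204712432961332263555113996857256370026561938285136889879355095104916291584 (by decide +kernel)
             (CovZ.n2 (-26592, 960) (by decide +kernel)
              (CovZ.n2 (-26544, 912) (by decide +kernel)
               (CovZ.n2 (-26592, 912) (by decide +kernel)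
                (CovZ.subM 18788340662190665823115844774314696219005460391266558965658327772257672200916867547709591987078149624255479808 (by decide +kernel)
                 (CovZ.n2 (-26568, 936) (by decide +kernel)
                  (CovZ.n2 (-26568, 912) (by decide +kernel)
                   (CovZ.n2 (-26580, 924) (by decide +kernel)
                    (CovZ.badM (by decide +kernel))
                    (CovZ.n1 (-26580, 912) (by decide +kernel)
                     (CovZ.n2 (-26586, 918) (by decide +kernel)
                      (CovZ.badM (by decide +kernel))
                      (CovZ.n1 (-26586, 912) (by decide +kernel)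
                       (CovZ.leaf K2_ok TB_l48570 _)
                       (CovZ.badM (by decide +kernel))))
                     (CovZ.badM (by decide +kernel))))
                   (CovZ.badM (by decide +kernel)))
                  (CovZ.n1 (-26592, 936) (by decide +kernel)
                   (CovZ.badM (by decide +kernel))
                   (CovZ.n1 (-26580, 924) (by decide +kernel)
                    (CovZ.leaf K2_ok TB_l48571 _)
                    (CovZ.badM (by decide +kernel))))))
                (CovZ.n1 (-26568, 888) (by decide +kernel)
                 (CovZ.n2 (-26592, 888) (by decide +kernel)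
                  (CovZ.n2 (-26580, 900) (by decide +kernel)
                   (CovZ.leaf K2_ok TB_l9613 _)
                   (CovZ.leaf K2_ok TB_l9614 _))
                  (CovZ.n1 (-26580, 876) (by decide +kernel)
                   (CovZ.leaf K2_ok TB_l9615 _)
                   (CovZ.leaf K2_ok TB_l9616 _)))
                 (CovZ.subM 18788340662190665823115844774314696219005460391266558965658327772257672200916867547709591987078149624255479808 (by decide +kernel)
                  (CovZ.n1 (-26568, 912) (by decide +kernel)
                   (CovZ.n2 (-26556, 900) (by decide +kernel)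
                    (CovZ.leaf K2_ok TB_l48572 _)
                    (CovZ.badM (by decide +kernel)))
                   (CovZ.n1 (-26580, 900) (by decide +kernel)
                    (CovZ.n2 (-26580, 912) (by decide +kernel)
                     (CovZ.n2 (-26574, 906) (by decide +kernel)
                      (CovZ.n2 (-26580, 906) (by decide +kernel)
                       (CovZ.badM (by decide +kernel))
                       (CovZ.leaf K2_ok TB_l48573 _))
                      (CovZ.badM (by decide +kernel)))
                     (CovZ.n1 (-26586, 906) (by decide +kernel)
                      (CovZ.leaf K2_ok TB_l48574 _)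
                      (CovZ.n1 (-26580, 906) (by decide +kernel)
                       (CovZ.leaf K2_ok TB_l48575 _)
                       (CovZ.leaf K2_ok TB_l48576 _))))
                    (CovZ.leaf K2_ok TB_l48577 _))))))
               (CovZ.badM (by decide +kernel)))
              (CovZ.n1 (-26640, 912) (by decide +kernel)
               (CovZ.n2 (-26640, 960) (by decide +kernel)
                (CovZ.n2 (-26616, 936) (by decide +kernel)
                 (CovZ.n2 (-26640, 936) (by decide +kernel)
                  (CovZ.n2 (-26628, 948) (by decide +kernel)
                   (CovZ.leaf K2_ok TB_l9617 _)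
                   (CovZ.leaf K2_ok TB_l9618 _))
                  (CovZ.n1 (-26628, 924) (by decide +kernel)
                   (CovZ.leaf K2_ok TB_l9619 _)
                   (CovZ.leaf K2_ok TB_l9620 _)))
                 (CovZ.subM 18788340662190665823115844774314696219005460391266558965658327772257672200916867547709591987078149624255479808 (by decide +kernel)
                  (CovZ.n1 (-26616, 960) (by decide +kernel)
                   (CovZ.n2 (-26604, 948) (by decide +kernel)
                    (CovZ.leaf K2_ok TB_l48578 _)
                    (CovZ.badM (by decide +kernel)))
                   (CovZ.n1 (-26628, 948) (by decide +kernel)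
                    (CovZ.n2 (-26628, 960) (by decide +kernel)
                     (CovZ.n2 (-26622, 954) (by decide +kernel)
                      (CovZ.leaf K2_ok TB_l48579 _)
                      (CovZ.badM (by decide +kernel)))
                     (CovZ.n1 (-26634, 954) (by decide +kernel)
                      (CovZ.leaf K2_ok TB_l48580 _)
                      (CovZ.leaf K2_ok TB_l48581 _)))
                    (CovZ.leaf K2_ok TB_l9621 _)))))
                (CovZ.n1 (-26664, 936) (by decide +kernel)
                 (CovZ.n2 (-26664, 960) (by decide +kernel)
                  (CovZ.n2 (-26652, 948) (by decide +kernel)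
                   (CovZ.leaf K2_ok TB_l9622 _)
                   (CovZ.leaf K2_ok TB_l9623 _))
                  (CovZ.leaf K2_ok TB_l9624 _))
                 (CovZ.n1 (-26640, 936) (by decide +kernel)
                  (CovZ.n2 (-26652, 924) (by decide +kernel)
                   (CovZ.leaf K2_ok TB_l9625 _)
                   (CovZ.leaf K2_ok TB_l9626 _))
                  (CovZ.n1 (-26652, 948) (by decide +kernel)
                   (CovZ.leaf K2_ok TB_l9627 _)
                   (CovZ.leaf K2_ok TB_l9628 _)))))
               (CovZ.n1 (-26592, 912) (by decide +kernel)
                (CovZ.n2 (-26616, 888) (by decide +kernel)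
                 (CovZ.n2 (-26616, 912) (by decide +kernel)
                  (CovZ.n2 (-26604, 900) (by decide +kernel)
                   (CovZ.leaf K2_ok TB_l9629 _)
                   (CovZ.leaf K2_ok TB_l9630 _))
                  (CovZ.leaf K2_ok TB_l9631 _))
                 (CovZ.n1 (-26592, 888) (by decide +kernel)
                  (CovZ.n2 (-26604, 876) (by decide +kernel)
                   (CovZ.leaf K2_ok TB_l9632 _)
                   (CovZ.leaf K2_ok TB_l9633 _))
                  (CovZ.n1 (-26604, 900) (by decide +kernel)
                   (CovZ.leaf K2_ok TB_l9634 _)
                   (CovZ.leaf K2_ok TB_l9635 _))))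
                (CovZ.n1 (-26616, 936) (by decide +kernel)
                 (CovZ.subM 18788340662190665823115844774314696219005460391266558965658327772257672200916867547709591987078149624255479808 (by decide +kernel)
                  (CovZ.n2 (-26592, 936) (by decide +kernel)
                   (CovZ.n2 (-26604, 924) (by decide +kernel)
                    (CovZ.leaf K2_ok TB_l48582 _)
                    (CovZ.leaf K2_ok TB_l48583 _))
                   (CovZ.n1 (-26604, 948) (by decide +kernel)
                    (CovZ.badM (by decide +kernel))
                    (CovZ.n1 (-26604, 936) (by decide +kernel)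
                     (CovZ.n2 (-26610, 942) (by decide +kernel)
                      (CovZ.badM (by decide +kernel))
                      (CovZ.n1 (-26610, 936) (by decide +kernel)
                       (CovZ.leaf K2_ok TB_l48584 _)
                       (CovZ.badM (by decide +kernel))))
                     (CovZ.badM (by decide +kernel))))))
                 (CovZ.n1 (-26616, 912) (by decide +kernel)
                  (CovZ.n2 (-26628, 924) (by decide +kernel)
                   (CovZ.leaf K2_ok TB_l9636 _)
                   (CovZ.leaf K2_ok TB_l9637 _))
                  (CovZ.n1 (-26604, 924) (by decide +kernel)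
                   (CovZ.leaf K2_ok TB_l9638 _)
                   (CovZ.leaf K2_ok TB_l9639 _))))))))
            (CovZ.n1 (-26496, 864) (by decide +kernel)
             (CovZ.n2 (-26544, 816) (by decide +kernel)
              (CovZ.n2 (-26544, 864) (by decide +kernel)
               (CovZ.n2 (-26520, 840) (by decide +kernel)
                (CovZ.n2 (-26544, 840) (by decide +kernel)
                 (CovZ.n2 (-26532, 852) (by decide +kernel)
                  (CovZ.leaf K2_ok TB_l9640 _)
                  (CovZ.leaf K2_ok TB_l9641 _))
                 (CovZ.n1 (-26532, 828) (by decide +kernel)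
                  (CovZ.leaf K2_ok TB_l9642 _)
                  (CovZ.leaf K2_ok TB_l9643 _)))
                (CovZ.subM 322781234779651914369180562323492329065527920322658399495099078966867046711255042902253308030389478554253157545401122816 (by decide +kernel)
                 (CovZ.n1 (-26520, 864) (by decide +kernel)
                  (CovZ.n2 (-26508, 852) (by decide +kernel)
                   (CovZ.leaf K2_ok TB_l39461 _)
                   (CovZ.badM (by decide +kernel)))
                  (CovZ.n1 (-26532, 852) (by decide +kernel)
                   (CovZ.n2 (-26532, 864) (by decide +kernel)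
                    (CovZ.n2 (-26526, 858) (by decide +kernel)
                     (CovZ.n2 (-26532, 858) (by decide +kernel)
                      (CovZ.badM (by decide +kernel))
                      (CovZ.leaf K2_ok TB_l48585 _))
                     (CovZ.badM (by decide +kernel)))
                    (CovZ.n1 (-26538, 858) (by decide +kernel)
                     (CovZ.leaf K2_ok TB_l48586 _)
                     (CovZ.leaf K2_ok TB_l48587 _)))
                   (CovZ.leaf K2_ok TB_l39462 _)))))
               (CovZ.n1 (-26568, 840) (by decide +kernel)
                (CovZ.n2 (-26568, 864) (by decide +kernel)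
                 (CovZ.n2 (-26556, 852) (by decide +kernel)
                  (CovZ.leaf K2_ok TB_l9644 _)
                  (CovZ.leaf K2_ok TB_l9645 _))
                 (CovZ.n1 (-26580, 852) (by decide +kernel)
                  (CovZ.leaf K2_ok TB_l9646 _)
                  (CovZ.leaf K2_ok TB_l9647 _)))
                (CovZ.n1 (-26544, 840) (by decide +kernel)
                 (CovZ.leaf K2_ok TB_l9648 _)
                 (CovZ.n1 (-26556, 852) (by decide +kernel)
                  (CovZ.leaf K2_ok TB_l9649 _)
                  (CovZ.leaf K2_ok TB_l9650 _)))))
              (CovZ.n1 (-26496, 816) (by decide +kernel)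
               (CovZ.n2 (-26520, 792) (by decide +kernel)
                (CovZ.n2 (-26520, 816) (by decide +kernel)
                 (CovZ.leaf K2_ok TB_l9651 _)
                 (CovZ.leaf K2_ok TB_l9652 _))
                (CovZ.n1 (-26496, 792) (by decide +kernel)
                 (CovZ.leaf K2_ok TB_l9653 _)
                 (CovZ.n1 (-26508, 804) (by decide +kernel)
                  (CovZ.leaf K2_ok TB_l9654 _)
                  (CovZ.leaf K2_ok TB_l9655 _))))
               (CovZ.n1 (-26520, 840) (by decide +kernel)
                (CovZ.subM 322781234760863573706989896500376484291213224103652939103832520001220691560410385458042365068829498357672029320537702400 (by decide +kernel)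
                 (CovZ.n2 (-26496, 840) (by decide +kernel)
                  (CovZ.n2 (-26508, 828) (by decide +kernel)
                   (CovZ.n2 (-26508, 840) (by decide +kernel)
                    (CovZ.n2 (-26502, 834) (by decide +kernel)
                     (CovZ.leaf K2_ok TB_l39463 _)
                     (CovZ.badM (by decide +kernel)))
                    (CovZ.n1 (-26514, 834) (by decide +kernel)
                     (CovZ.n2 (-26514, 840) (by decide +kernel)
                      (CovZ.leaf K2_ok TB_l39464 _)
                      (CovZ.leaf K2_ok TB_l39465 _))
                     (CovZ.n1 (-26508, 834) (by decide +kernel)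
                      (CovZ.leaf K2_ok TB_l39466 _)
                      (CovZ.leaf K2_ok TB_l39467 _))))
                   (CovZ.leaf K2_ok TB_l39468 _))
                  (CovZ.n1 (-26508, 852) (by decide +kernel)
                   (CovZ.badM (by decide +kernel))
                   (CovZ.n1 (-26508, 840) (by decide +kernel)
                    (CovZ.n2 (-26514, 846) (by decide +kernel)
                     (CovZ.badM (by decide +kernel))
                     (CovZ.n1 (-26514, 840) (by decide +kernel)
                      (CovZ.leaf K2_ok TB_l39469 _)
                      (CovZ.badM (by decide +kernel))))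
                    (CovZ.badM (by decide +kernel))))))
                (CovZ.n1 (-26520, 816) (by decide +kernel)
                 (CovZ.n2 (-26532, 828) (by decide +kernel)
                  (CovZ.leaf K2_ok TB_l9656 _)
                  (CovZ.leaf K2_ok TB_l9657 _))
                 (CovZ.n1 (-26508, 828) (by decide +kernel)
                  (CovZ.leaf K2_ok TB_l9658 _)
                  (CovZ.leaf K2_ok TB_l9659 _))))))
             (CovZ.subM 322781234779651914369180562323492329126236323204712432961332263555113996857256370026561938285136889879355095104916291584 (by decide +kernel)
              (CovZ.n1 (-26544, 912) (by decide +kernel)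
               (CovZ.badM (by decide +kernel))
               (CovZ.n1 (-26544, 864) (by decide +kernel)
                (CovZ.n2 (-26568, 888) (by decide +kernel)
                 (CovZ.subM 18788340662190665823115844774314696219005460391266558965658327772257672200916867547709591987078149624255479808 (by decide +kernel)
                  (CovZ.n2 (-26544, 888) (by decide +kernel)
                   (CovZ.n2 (-26556, 876) (by decide +kernel)
                    (CovZ.leaf K2_ok TB_l9660 _)
                    (CovZ.leaf K2_ok TB_l48588 _))
                   (CovZ.n1 (-26556, 900) (by decide +kernel)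
                    (CovZ.badM (by decide +kernel))
                    (CovZ.n1 (-26556, 888) (by decide +kernel)
                     (CovZ.n2 (-26562, 894) (by decide +kernel)
                      (CovZ.badM (by decide +kernel))
                      (CovZ.leaf K2_ok TB_l48589 _))
                     (CovZ.badM (by decide +kernel))))))
                 (CovZ.n1 (-26568, 864) (by decide +kernel)
                  (CovZ.leaf K2_ok TB_l9661 _)
                  (CovZ.n1 (-26556, 876) (by decide +kernel)
                   (CovZ.leaf K2_ok TB_l9662 _)
                   (CovZ.leaf K2_ok TB_l9663 _))))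
                (CovZ.subM 18788340662190665823115844774314696219005460391266558965658327772257672200916867547709591987078149624255479808 (by decide +kernel)
                 (CovZ.n1 (-26520, 888) (by decide +kernel)
                  (CovZ.n2 (-26520, 864) (by decide +kernel)
                   (CovZ.n2 (-26532, 876) (by decide +kernel)
                    (CovZ.badM (by decide +kernel))
                    (CovZ.leaf K2_ok TB_l48590 _))
                   (CovZ.badM (by decide +kernel)))
                  (CovZ.n1 (-26544, 888) (by decide +kernel)
                   (CovZ.badM (by decide +kernel))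
                   (CovZ.n1 (-26532, 876) (by decide +kernel)
                    (CovZ.leaf K2_ok TB_l48591 _)
                    (CovZ.badM (by decide +kernel)))))))))))

theorem TB_u56 : CovZ TB_M (toL (selN TB_LN 322781234779688610347036403467678164426084278918474459656453702964376353740576261172219662645435049772316599489887469568)) [0, 7, 6, 1] (-26496, 960) (-26496, 1152) (-26688, 960) :=
    (CovZ.subM 18788340662190665823115844835023099101059493857499743553893305296845984568519573216307391521683065784378589184 (by decide +kernel)
            (CovZ.n1 (-26592, 1056) (by decide +kernel)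
             (CovZ.badM (by decide +kernel))
             (CovZ.n1 (-26592, 960) (by decide +kernel)
              (CovZ.n2 (-26640, 1008) (by decide +kernel)
               (CovZ.badM (by decide +kernel))
               (CovZ.n1 (-26640, 960) (by decide +kernel)
                (CovZ.n2 (-26664, 984) (by decide +kernel)
                 (CovZ.n2 (-26640, 984) (by decide +kernel)
                  (CovZ.n2 (-26652, 972) (by decide +kernel)
                   (CovZ.n2 (-26652, 984) (by decide +kernel)
                    (CovZ.n2 (-26646, 978) (by decide +kernel)
                     (CovZ.n2 (-26652, 978) (by decide +kernel)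
                      (CovZ.badM (by decide +kernel))
                      (CovZ.leaf K2_ok TB_l48592 _))
                     (CovZ.badM (by decide +kernel)))
                    (CovZ.n1 (-26658, 978) (by decide +kernel)
                     (CovZ.n2 (-26658, 984) (by decide +kernel)
                      (CovZ.leaf K2_ok TB_l48593 _)
                      (CovZ.n1 (-26661, 981) (by decide +kernel)
                       (CovZ.badM (by decide +kernel))
                       (CovZ.leaf K2_ok TB_l48594 _)))
                     (CovZ.n1 (-26652, 978) (by decide +kernel)
                      (CovZ.n2 (-26655, 975) (by decide +kernel)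
                       (CovZ.n2 (-26655, 978) (by decide +kernel)
                        (CovZ.leaf K2_ok TB_l48595 _)
                        (CovZ.leaf K2_ok TB_l48596 _))
                       (CovZ.leaf K2_ok TB_l48597 _))
                      (CovZ.leaf K2_ok TB_l48598 _))))
                   (CovZ.n1 (-26640, 972) (by decide +kernel)
                    (CovZ.n2 (-26646, 966) (by decide +kernel)
                     (CovZ.leaf K2_ok TB_l48599 _)
                     (CovZ.leaf K2_ok TB_l48600 _))
                    (CovZ.n1 (-26646, 978) (by decide +kernel)
                     (CovZ.badM (by decide +kernel))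
                     (CovZ.n1 (-26646, 972) (by decide +kernel)
                      (CovZ.leaf K2_ok TB_l48601 _)
                      (CovZ.badM (by decide +kernel))))))
                  (CovZ.badM (by decide +kernel)))
                 (CovZ.n1 (-26664, 960) (by decide +kernel)
                  (CovZ.n2 (-26676, 972) (by decide +kernel)
                   (CovZ.leaf K2_ok TB_l39470 _)
                   (CovZ.n1 (-26676, 960) (by decide +kernel)
                    (CovZ.n2 (-26682, 966) (by decide +kernel)
                     (CovZ.n2 (-26676, 966) (by decide +kernel)
                      (CovZ.leaf K2_ok TB_l39471 _)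
                      (CovZ.leaf K2_ok TB_l39472 _))
                     (CovZ.leaf K2_ok TB_l39473 _))
                    (CovZ.leaf K2_ok TB_l39474 _)))
                  (CovZ.n1 (-26652, 972) (by decide +kernel)
                   (CovZ.leaf K2_ok TB_l39475 _)
                   (CovZ.leaf K2_ok TB_l39476 _))))
                (CovZ.n1 (-26616, 984) (by decide +kernel)
                 (CovZ.n2 (-26616, 960) (by decide +kernel)
                  (CovZ.n2 (-26628, 972) (by decide +kernel)
                   (CovZ.badM (by decide +kernel))
                   (CovZ.n1 (-26628, 960) (by decide +kernel)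
                    (CovZ.n2 (-26634, 966) (by decide +kernel)
                     (CovZ.badM (by decide +kernel))
                     (CovZ.leaf K2_ok TB_l48602 _))
                    (CovZ.badM (by decide +kernel))))
                  (CovZ.badM (by decide +kernel)))
                 (CovZ.n1 (-26640, 984) (by decide +kernel)
                  (CovZ.badM (by decide +kernel))
                  (CovZ.n1 (-26628, 972) (by decide +kernel)
                   (CovZ.leaf K2_ok TB_l48603 _)
                   (CovZ.badM (by decide +kernel)))))))
              (CovZ.badM (by decide +kernel)))))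

theorem TB_u57 : CovZ TB_M (toL (selN TB_LN 10651785980243994697453573104703380356610618051057548067169210860964731093371594190351174531360466098399448330723127214080)) [0, 7, 6, 1] (-26880, 768) (-26496, 768) (-26496, 1152) :=
    (CovZ.n2 (-26688, 960) (by decide +kernel)
         (CovZ.subM 322781234779688610347036403467678164426084278918474459656453702964376353740576261172219662645435049772316599489887469568 (by decide +kernel)
          (CovZ.n2 (-26496, 960) (by decide +kernel)
           TB_u55
           TB_u56))
         (CovZ.n1 (-26688, 768) (by decide +kernel)
          (CovZ.n2 (-26784, 864) (by decide +kernel)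
           (CovZ.n2 (-26688, 864) (by decide +kernel)
            (CovZ.n2 (-26736, 816) (by decide +kernel)
             (CovZ.n2 (-26736, 864) (by decide +kernel)
              (CovZ.n2 (-26712, 840) (by decide +kernel)
               (CovZ.leaf K2_ok TB_l9664 _)
               (CovZ.n1 (-26712, 864) (by decide +kernel)
                (CovZ.leaf K2_ok TB_l9665 _)
                (CovZ.leaf K2_ok TB_l9666 _)))
              (CovZ.n1 (-26760, 840) (by decide +kernel)
               (CovZ.leaf K2_ok TB_l9667 _)
               (CovZ.leaf K2_ok TB_l9668 _)))
             (CovZ.n1 (-26688, 816) (by decide +kernel)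
              (CovZ.n2 (-26712, 792) (by decide +kernel)
               (CovZ.leaf K2_ok TB_l9669 _)
               (CovZ.leaf K2_ok TB_l9670 _))
              (CovZ.n1 (-26712, 840) (by decide +kernel)
               (CovZ.leaf K2_ok TB_l9671 _)
               (CovZ.leaf K2_ok TB_l9672 _))))
            (CovZ.n1 (-26736, 912) (by decide +kernel)
             (CovZ.subM 322781234817412075582841099690780261260533910301088138453820783960722190735692031615880160709257885968100938119309688832 (by decide +kernel)
              (CovZ.n2 (-26688, 912) (by decide +kernel)
               (CovZ.n2 (-26712, 888) (by decide +kernel)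
                (CovZ.n2 (-26712, 912) (by decide +kernel)
                 (CovZ.leaf K2_ok TB_l9673 _)
                 (CovZ.leaf K2_ok TB_l9674 _))
                (CovZ.leaf K2_ok TB_l9675 _))
               (CovZ.n1 (-26712, 936) (by decide +kernel)
                (CovZ.n2 (-26688, 936) (by decide +kernel)
                 (CovZ.leaf K2_ok TB_l9676 _)
                 (CovZ.n1 (-26700, 948) (by decide +kernel)
                  (CovZ.leaf K2_ok TB_l9677 _)
                  (CovZ.leaf K2_ok TB_l9678 _)))
                (CovZ.n1 (-26712, 912) (by decide +kernel)
                 (CovZ.leaf K2_ok TB_l9679 _)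
                 (CovZ.leaf K2_ok TB_l9680 _)))))
             (CovZ.n1 (-26736, 864) (by decide +kernel)
              (CovZ.n2 (-26760, 888) (by decide +kernel)
               (CovZ.leaf K2_ok TB_l9681 _)
               (CovZ.n1 (-26760, 864) (by decide +kernel)
                (CovZ.leaf K2_ok TB_l9682 _)
                (CovZ.leaf K2_ok TB_l9683 _)))
              (CovZ.n1 (-26712, 888) (by decide +kernel)
               (CovZ.n2 (-26712, 864) (by decide +kernel)
                (CovZ.leaf K2_ok TB_l9684 _)
                (CovZ.leaf K2_ok TB_l9685 _))
               (CovZ.leaf K2_ok TB_l9686 _)))))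
           (CovZ.n1 (-26784, 768) (by decide +kernel)
            (CovZ.n2 (-26832, 816) (by decide +kernel)
             (CovZ.n2 (-26784, 816) (by decide +kernel)
              (CovZ.leaf K2_ok TB_l9687 _)
              (CovZ.n1 (-26808, 840) (by decide +kernel)
               (CovZ.leaf K2_ok TB_l9688 _)
               (CovZ.leaf K2_ok TB_l9689 _)))
             (CovZ.n1 (-26832, 768) (by decide +kernel)
              (CovZ.leaf K2_ok TB_l9690 _)
              (CovZ.leaf K2_ok TB_l9691 _)))
            (CovZ.n1 (-26736, 816) (by decide +kernel)
             (CovZ.n2 (-26736, 768) (by decide +kernel)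
              (CovZ.leaf K2_ok TB_l9692 _)
              (CovZ.n1 (-26712, 792) (by decide +kernel)
               (CovZ.leaf K2_ok TB_l9693 _)
               (CovZ.leaf K2_ok TB_l9694 _)))
             (CovZ.n1 (-26784, 816) (by decide +kernel)
              (CovZ.n2 (-26760, 840) (by decide +kernel)
               (CovZ.leaf K2_ok TB_l9695 _)
               (CovZ.leaf K2_ok TB_l9696 _))
              (CovZ.n1 (-26760, 792) (by decide +kernel)
               (CovZ.leaf K2_ok TB_l9697 _)
               (CovZ.leaf K2_ok TB_l9698 _))))))
          (CovZ.n1 (-26592, 864) (by decide +kernel)
           (CovZ.n2 (-26592, 768) (by decide +kernel)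
            (CovZ.n2 (-26640, 816) (by decide +kernel)
             (CovZ.subM 322781234817412075582841099698928405165871854646161921207458296703007778925772663553358932244295198918753588763793817600 (by decide +kernel)
              (CovZ.n2 (-26592, 816) (by decide +kernel)
               (CovZ.n2 (-26616, 792) (by decide +kernel)
                (CovZ.n2 (-26616, 816) (by decide +kernel)
                 (CovZ.leaf K2_ok TB_l9699 _)
                 (CovZ.leaf K2_ok TB_l9700 _))
                (CovZ.n1 (-26592, 792) (by decide +kernel)
                 (CovZ.leaf K2_ok TB_l9701 _)
                 (CovZ.leaf K2_ok TB_l9702 _)))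
               (CovZ.n1 (-26616, 840) (by decide +kernel)
                (CovZ.n2 (-26592, 840) (by decide +kernel)
                 (CovZ.leaf K2_ok TB_l9703 _)
                 (CovZ.leaf K2_ok TB_l9704 _))
                (CovZ.n1 (-26616, 816) (by decide +kernel)
                 (CovZ.leaf K2_ok TB_l9705 _)
                 (CovZ.leaf K2_ok TB_l9706 _)))))
             (CovZ.n1 (-26640, 768) (by decide +kernel)
              (CovZ.n2 (-26664, 792) (by decide +kernel)
               (CovZ.leaf K2_ok TB_l9707 _)
               (CovZ.leaf K2_ok TB_l9708 _))
              (CovZ.n1 (-26616, 792) (by decide +kernel)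
               (CovZ.n2 (-26616, 768) (by decide +kernel)
                (CovZ.leaf K2_ok TB_l9709 _)
                (CovZ.leaf K2_ok TB_l9710 _))
               (CovZ.leaf K2_ok TB_l9711 _))))
            (CovZ.subM 322781234817412075582841099698928405165871854646161921207458296706072770007504441270075626298595817285991067008161021952 (by decide +kernel)
             (CovZ.n1 (-26544, 816) (by decide +kernel)
              (CovZ.n2 (-26544, 768) (by decide +kernel)
               (CovZ.n2 (-26568, 792) (by decide +kernel)
                (CovZ.n2 (-26544, 792) (by decide +kernel)
                 (CovZ.leaf K2_ok TB_l9712 _)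
                 (CovZ.leaf K2_ok TB_l9713 _))
                (CovZ.n1 (-26568, 768) (by decide +kernel)
                 (CovZ.leaf K2_ok TB_l9714 _)
                 (CovZ.leaf K2_ok TB_l9715 _)))
               (CovZ.n1 (-26520, 792) (by decide +kernel)
                (CovZ.n2 (-26520, 768) (by decide +kernel)
                 (CovZ.leaf K2_ok TB_l9716 _)
                 (CovZ.leaf K2_ok TB_l9717 _))
                (CovZ.n1 (-26544, 792) (by decide +kernel)
                 (CovZ.leaf K2_ok TB_l9718 _)
                 (CovZ.leaf K2_ok TB_l9719 _))))
              (CovZ.n1 (-26592, 816) (by decide +kernel)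
               (CovZ.n2 (-26568, 840) (by decide +kernel)
                (CovZ.n2 (-26568, 816) (by decide +kernel)
                 (CovZ.leaf K2_ok TB_l9720 _)
                 (CovZ.leaf K2_ok TB_l9721 _))
                (CovZ.n1 (-26592, 840) (by decide +kernel)
                 (CovZ.leaf K2_ok TB_l9722 _)
                 (CovZ.leaf K2_ok TB_l9723 _)))
               (CovZ.n1 (-26568, 792) (by decide +kernel)
                (CovZ.n2 (-26592, 792) (by decide +kernel)
                 (CovZ.leaf K2_ok TB_l9724 _)
                 (CovZ.leaf K2_ok TB_l9725 _))
                (CovZ.n1 (-26568, 816) (by decide +kernel)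
                 (CovZ.leaf K2_ok TB_l9726 _)
                 (CovZ.leaf K2_ok TB_l9727 _)))))))
           (CovZ.n1 (-26688, 864) (by decide +kernel)
            (CovZ.subM 322781234817412075582841099690780261260533910301088138453820783960722190735692031615880160709257885968100938119309688832 (by decide +kernel)
             (CovZ.n2 (-26640, 912) (by decide +kernel)
              (CovZ.n2 (-26640, 864) (by decide +kernel)
               (CovZ.n2 (-26664, 888) (by decide +kernel)
                (CovZ.n2 (-26640, 888) (by decide +kernel)
                 (CovZ.leaf K2_ok TB_l9728 _)
                 (CovZ.leaf K2_ok TB_l9729 _))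
                (CovZ.n1 (-26664, 864) (by decide +kernel)
                 (CovZ.leaf K2_ok TB_l9730 _)
                 (CovZ.leaf K2_ok TB_l9731 _)))
               (CovZ.n1 (-26616, 888) (by decide +kernel)
                (CovZ.n2 (-26616, 864) (by decide +kernel)
                 (CovZ.leaf K2_ok TB_l9732 _)
                 (CovZ.leaf K2_ok TB_l9733 _))
                (CovZ.n1 (-26640, 888) (by decide +kernel)
                 (CovZ.leaf K2_ok TB_l9734 _)
                 (CovZ.leaf K2_ok TB_l9735 _))))
              (CovZ.n1 (-26688, 912) (by decide +kernel)
               (CovZ.n2 (-26664, 936) (by decide +kernel)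
                (CovZ.n2 (-26664, 912) (by decide +kernel)
                 (CovZ.leaf K2_ok TB_l9736 _)
                 (CovZ.leaf K2_ok TB_l9737 _))
                (CovZ.n1 (-26688, 936) (by decide +kernel)
                 (CovZ.leaf K2_ok TB_l9738 _)
                 (CovZ.leaf K2_ok TB_l9739 _)))
               (CovZ.n1 (-26664, 888) (by decide +kernel)
                (CovZ.n2 (-26688, 888) (by decide +kernel)
                 (CovZ.leaf K2_ok TB_l9740 _)
                 (CovZ.leaf K2_ok TB_l9741 _))
                (CovZ.n1 (-26664, 912) (by decide +kernel)
                 (CovZ.leaf K2_ok TB_l9742 _)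
                 (CovZ.leaf K2_ok TB_l9743 _))))))
            (CovZ.n1 (-26640, 816) (by decide +kernel)
             (CovZ.n2 (-26688, 816) (by decide +kernel)
              (CovZ.n2 (-26664, 840) (by decide +kernel)
               (CovZ.n2 (-26664, 816) (by decide +kernel)
                (CovZ.leaf K2_ok TB_l9744 _)
                (CovZ.leaf K2_ok TB_l9745 _))
               (CovZ.leaf K2_ok TB_l9746 _))
              (CovZ.n1 (-26664, 792) (by decide +kernel)
               (CovZ.leaf K2_ok TB_l9747 _)
               (CovZ.leaf K2_ok TB_l9748 _)))
             (CovZ.subM 322781234817412075582841099690780261260533910301088138453820784058801905351108918550814370446877673719700241939060228096 (by decide +kernel)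
              (CovZ.n1 (-26640, 864) (by decide +kernel)
               (CovZ.n2 (-26616, 840) (by decide +kernel)
                (CovZ.leaf K2_ok TB_l9749 _)
                (CovZ.n1 (-26616, 864) (by decide +kernel)
                 (CovZ.leaf K2_ok TB_l9750 _)
                 (CovZ.leaf K2_ok TB_l9751 _)))
               (CovZ.n1 (-26664, 840) (by decide +kernel)
                (CovZ.n2 (-26664, 864) (by decide +kernel)
                 (CovZ.leaf K2_ok TB_l9752 _)
                 (CovZ.leaf K2_ok TB_l9753 _))
                (CovZ.leaf K2_ok TB_l9754 _)))))))))

theorem TB_u58 : CovZ TB_M (toL (selN TB_LN 10651785980243994697453573104703380356610618051057548067169210860964731093371594190351174531360466098399448330723127214080)) [0, 7, 6, 1] (-26496, 768) (-26112, 768) (-26496, 1152) :=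
    (CovZ.subM 322781234779688610347036403467678164426084278918474459656453702964376353740576261172219662645435049772316599489887469568 (by decide +kernel)
         (CovZ.n1 (-26304, 960) (by decide +kernel)
          (CovZ.n2 (-26304, 768) (by decide +kernel)
           (CovZ.n2 (-26400, 864) (by decide +kernel)
            (CovZ.badM (by decide +kernel))
            (CovZ.n1 (-26400, 768) (by decide +kernel)
             (CovZ.n2 (-26448, 816) (by decide +kernel)
              (CovZ.badM (by decide +kernel))
              (CovZ.n1 (-26448, 768) (by decide +kernel)
               (CovZ.n2 (-26472, 792) (by decide +kernel)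
                (CovZ.n2 (-26448, 792) (by decide +kernel)
                 (CovZ.n2 (-26460, 780) (by decide +kernel)
                  (CovZ.leaf K2_ok TB_l48604 _)
                  (CovZ.leaf K2_ok TB_l48605 _))
                 (CovZ.badM (by decide +kernel)))
                (CovZ.n1 (-26472, 768) (by decide +kernel)
                 (CovZ.n2 (-26484, 780) (by decide +kernel)
                  (CovZ.leaf K2_ok TB_l9755 _)
                  (CovZ.leaf K2_ok TB_l9756 _))
                 (CovZ.n1 (-26460, 780) (by decide +kernel)
                  (CovZ.leaf K2_ok TB_l39477 _)
                  (CovZ.leaf K2_ok TB_l39478 _))))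
               (CovZ.subM 36695977855841144185773134324833391052745039826692497979801421430190766017415756929120296849762010984873984 (by decide +kernel)
                (CovZ.n1 (-26424, 792) (by decide +kernel)
                 (CovZ.n2 (-26424, 768) (by decide +kernel)
                  (CovZ.n2 (-26436, 780) (by decide +kernel)
                   (CovZ.badM (by decide +kernel))
                   (CovZ.leaf K2_ok TB_l48606 _))
                  (CovZ.badM (by decide +kernel)))
                 (CovZ.n1 (-26448, 792) (by decide +kernel)
                  (CovZ.badM (by decide +kernel))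
                  (CovZ.n1 (-26436, 780) (by decide +kernel)
                   (CovZ.leaf K2_ok TB_l48607 _)
                   (CovZ.badM (by decide +kernel))))))))
             (CovZ.badM (by decide +kernel))))
           (CovZ.badM (by decide +kernel)))
          (CovZ.n1 (-26496, 960) (by decide +kernel)
           (CovZ.badM (by decide +kernel))
           (CovZ.n1 (-26400, 864) (by decide +kernel)
            (CovZ.n2 (-26496, 864) (by decide +kernel)
             (CovZ.badM (by decide +kernel))
             (CovZ.n1 (-26448, 816) (by decide +kernel)
              (CovZ.n2 (-26496, 816) (by decide +kernel)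
               (CovZ.subM 322781234760863573706989896500376484291213224103652939103832520001220691560410385458042365068829498357672029320537702400 (by decide +kernel)
                (CovZ.n2 (-26472, 840) (by decide +kernel)
                 (CovZ.n2 (-26472, 816) (by decide +kernel)
                  (CovZ.n2 (-26484, 828) (by decide +kernel)
                   (CovZ.badM (by decide +kernel))
                   (CovZ.n1 (-26484, 816) (by decide +kernel)
                    (CovZ.leaf K2_ok TB_l39479 _)
                    (CovZ.badM (by decide +kernel))))
                  (CovZ.badM (by decide +kernel)))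
                 (CovZ.n1 (-26496, 840) (by decide +kernel)
                  (CovZ.badM (by decide +kernel))
                  (CovZ.n1 (-26484, 828) (by decide +kernel)
                   (CovZ.leaf K2_ok TB_l39480 _)
                   (CovZ.badM (by decide +kernel))))))
               (CovZ.n1 (-26472, 792) (by decide +kernel)
                (CovZ.n2 (-26496, 792) (by decide +kernel)
                 (CovZ.n2 (-26484, 804) (by decide +kernel)
                  (CovZ.leaf K2_ok TB_l9757 _)
                  (CovZ.leaf K2_ok TB_l9758 _))
                 (CovZ.n1 (-26484, 780) (by decide +kernel)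
                  (CovZ.leaf K2_ok TB_l9759 _)
                  (CovZ.leaf K2_ok TB_l9760 _)))
                (CovZ.n1 (-26472, 816) (by decide +kernel)
                 (CovZ.badM (by decide +kernel))
                 (CovZ.n1 (-26484, 804) (by decide +kernel)
                  (CovZ.leaf K2_ok TB_l9762 _)
                  (CovZ.badM (by decide +kernel))))))
              (CovZ.badM (by decide +kernel))))
            (CovZ.badM (by decide +kernel))))))

theorem TB_u59 : CovZ TB_M (toL (selN TB_LN 10693552188729356552790587731821266841014006708332875938701794431731881531140877455849397537499971682418187577823936921600)) [0, 7, 6, 1] (-27648, 0) (-26880, 0) (-26880, 768) :=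
    (CovZ.n2 (-27264, 384) (by decide +kernel)
      (CovZ.n2 (-26880, 384) (by decide +kernel)
       (CovZ.n2 (-27072, 192) (by decide +kernel)
        (CovZ.n2 (-27072, 384) (by decide +kernel)
         (CovZ.n2 (-26976, 288) (by decide +kernel)
          (CovZ.n2 (-27072, 288) (by decide +kernel)
           (CovZ.leaf K2_ok TB_l9764 _)
           (CovZ.leaf K2_ok TB_l9765 _))
          (CovZ.n1 (-26976, 384) (by decide +kernel)
           (CovZ.leaf K2_ok TB_l9766 _)
           (CovZ.leaf K2_ok TB_l9767 _)))
         (CovZ.n1 (-27168, 288) (by decide +kernel)
          (CovZ.n2 (-27168, 384) (by decide +kernel)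
           (CovZ.leaf K2_ok TB_l9768 _)
           (CovZ.leaf K2_ok TB_l9769 _))
          (CovZ.leaf K2_ok TB_l9770 _)))
        (CovZ.n1 (-26880, 192) (by decide +kernel)
         (CovZ.n2 (-26976, 96) (by decide +kernel)
          (CovZ.n2 (-26976, 192) (by decide +kernel)
           (CovZ.leaf K2_ok TB_l9771 _)
           (CovZ.leaf K2_ok TB_l9772 _))
          (CovZ.leaf K2_ok TB_l9773 _))
         (CovZ.n1 (-26976, 288) (by decide +kernel)
          (CovZ.n2 (-26880, 288) (by decide +kernel)
           (CovZ.leaf K2_ok TB_l9774 _)
           (CovZ.leaf K2_ok TB_l9775 _))
          (CovZ.n1 (-26976, 192) (by decide +kernel)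
           (CovZ.leaf K2_ok TB_l9776 _)
           (CovZ.leaf K2_ok TB_l9777 _)))))
       (CovZ.n1 (-27072, 576) (by decide +kernel)
        (CovZ.n2 (-26880, 576) (by decide +kernel)
         (CovZ.n2 (-26976, 480) (by decide +kernel)
          (CovZ.n2 (-26976, 576) (by decide +kernel)
           (CovZ.n2 (-26928, 528) (by decide +kernel)
            (CovZ.leaf K2_ok TB_l9778 _)
            (CovZ.leaf K2_ok TB_l9779 _))
           (CovZ.n1 (-27024, 528) (by decide +kernel)
            (CovZ.leaf K2_ok TB_l9780 _)
            (CovZ.leaf K2_ok TB_l9781 _)))
          (CovZ.n1 (-26880, 480) (by decide +kernel)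
           (CovZ.leaf K2_ok TB_l9782 _)
           (CovZ.n1 (-26928, 528) (by decide +kernel)
            (CovZ.leaf K2_ok TB_l9783 _)
            (CovZ.leaf K2_ok TB_l9784 _))))
         (CovZ.n1 (-26976, 672) (by decide +kernel)
          (CovZ.n2 (-26880, 672) (by decide +kernel)
           (CovZ.n2 (-26928, 624) (by decide +kernel)
            (CovZ.n2 (-26928, 672) (by decide +kernel)
             (CovZ.leaf K2_ok TB_l9785 _)
             (CovZ.leaf K2_ok TB_l9786 _))
            (CovZ.leaf K2_ok TB_l9787 _))
           (CovZ.n1 (-26928, 720) (by decide +kernel)
            (CovZ.leaf K2_ok TB_l9788 _)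
            (CovZ.n1 (-26928, 672) (by decide +kernel)
             (CovZ.leaf K2_ok TB_l9789 _)
             (CovZ.leaf K2_ok TB_l9790 _))))
          (CovZ.n1 (-26976, 576) (by decide +kernel)
           (CovZ.n2 (-27024, 624) (by decide +kernel)
            (CovZ.leaf K2_ok TB_l9791 _)
            (CovZ.leaf K2_ok TB_l9792 _))
           (CovZ.n1 (-26928, 624) (by decide +kernel)
            (CovZ.leaf K2_ok TB_l9793 _)
            (CovZ.leaf K2_ok TB_l9794 _)))))
        (CovZ.n1 (-27072, 384) (by decide +kernel)
         (CovZ.n2 (-27168, 480) (by decide +kernel)
          (CovZ.n2 (-27072, 480) (by decide +kernel)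
           (CovZ.leaf K2_ok TB_l9795 _)
           (CovZ.leaf K2_ok TB_l9796 _))
          (CovZ.n1 (-27168, 384) (by decide +kernel)
           (CovZ.leaf K2_ok TB_l9797 _)
           (CovZ.leaf K2_ok TB_l9798 _)))
         (CovZ.n1 (-26976, 480) (by decide +kernel)
          (CovZ.n2 (-26976, 384) (by decide +kernel)
           (CovZ.leaf K2_ok TB_l9799 _)
           (CovZ.leaf K2_ok TB_l9800 _))
          (CovZ.n1 (-27072, 480) (by decide +kernel)
           (CovZ.n2 (-27024, 528) (by decide +kernel)
            (CovZ.leaf K2_ok TB_l9801 _)
            (CovZ.leaf K2_ok TB_l9802 _))
           (CovZ.leaf K2_ok TB_l9803 _))))))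
      (CovZ.n1 (-27264, 0) (by decide +kernel)
       (CovZ.n2 (-27456, 192) (by decide +kernel)
        (CovZ.n2 (-27264, 192) (by decide +kernel)
         (CovZ.n2 (-27360, 96) (by decide +kernel)
          (CovZ.leaf K2_ok TB_l9804 _)
          (CovZ.leaf K2_ok TB_l9805 _))
         (CovZ.n1 (-27360, 288) (by decide +kernel)
          (CovZ.leaf K2_ok TB_l9806 _)
          (CovZ.leaf K2_ok TB_l9807 _)))
        (CovZ.n1 (-27456, 0) (by decide +kernel)
         (CovZ.n2 (-27552, 96) (by decide +kernel)
          (CovZ.leaf K2_ok TB_l9808 _)
          (CovZ.leaf K2_ok TB_l9809 _))
         (CovZ.n1 (-27360, 96) (by decide +kernel)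
          (CovZ.leaf K2_ok TB_l9810 _)
          (CovZ.leaf K2_ok TB_l9811 _))))
       (CovZ.n1 (-27072, 192) (by decide +kernel)
        (CovZ.n2 (-27072, 0) (by decide +kernel)
         (CovZ.n2 (-27168, 96) (by decide +kernel)
          (CovZ.leaf K2_ok TB_l9812 _)
          (CovZ.leaf K2_ok TB_l9813 _))
         (CovZ.n1 (-26976, 96) (by decide +kernel)
          (CovZ.n2 (-26976, 0) (by decide +kernel)
           (CovZ.leaf K2_ok TB_l9814 _)
           (CovZ.leaf K2_ok TB_l9815 _))
          (CovZ.leaf K2_ok TB_l9816 _)))
        (CovZ.n1 (-27264, 192) (by decide +kernel)
         (CovZ.n2 (-27168, 288) (by decide +kernel)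
          (CovZ.n2 (-27168, 192) (by decide +kernel)
           (CovZ.leaf K2_ok TB_l9817 _)
           (CovZ.leaf K2_ok TB_l9818 _))
          (CovZ.leaf K2_ok TB_l9819 _))
         (CovZ.n1 (-27168, 96) (by decide +kernel)
          (CovZ.leaf K2_ok TB_l9820 _)
          (CovZ.leaf K2_ok TB_l9821 _))))))

end Pool.Agent.TET
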