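import Pool.Agent.Helper38_TET.TB_M
import Pool.Agent.Helper38_TET.TB_L
import Pool.Agent.Helper38_TET.TB_1
import Pool.Agent.Helper38_TET.TB_2
import Pool.Agent.Helper38_TET.TB_3
import Pool.Agent.Helper38_TET.TB_14
import Pool.Agent.Helper38_TET.TB_15
import Pool.Agent.Helper38_TET.TB_16
import Pool.Agent.Helper38_TET.TB_17
import Pool.Agent.Helper38_TET.TB_35
import Pool.Agent.Helper38_TET.TB_36
import Pool.Agent.Helper38_TET.TB_37
import Pool.Agent.Helper38_TET.TB_39
import Pool.Agent.Helper38_TET.TB_58
import Pool.Agent.Helper38_TET.TB_256
import Pool.Agent.Helper38_TET.TB_262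
import Pool.Agent.Helper38_TET.TB_U0
import Pool.Agent.Helper38_TET.TB_U1
import Pool.Agent.Helper38_TET.TB_U2
import Pool.Agent.Helper38_TET.TB_U3

/-!
# MP_c7c9bf_co: certificates, family TB
-/

set_option autoImplicit false
set_option maxRecDepth 100000

namespace Pool.Agent.TET

theorem TB_s0_0 : SqZ TB_M TB_L [0, 7, 6, 1] (-32256) (-4608) 1536 0 0 :=
  SqZ.mk (a := (-32256)) (b := (-30720)) (c := (-4608)) (d := (-3072)) (by norm_num) (by norm_num) (by norm_num) (by norm_num)
    (CovZ.topM TB_LL 0 (by decide +kernel) (CovZ.badM (by decide +kernel)))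
    (CovZ.topM TB_LL 0 (by decide +kernel) (CovZ.badM (by decide +kernel)))

theorem TB_s1_0 : SqZ TB_M TB_L [0, 7, 6, 1] (-32256) (-4608) 1536 1 0 :=
  SqZ.mk (a := (-30720)) (b := (-29184)) (c := (-4608)) (d := (-3072)) (by norm_num) (by norm_num) (by norm_num) (by norm_num)
    (CovZ.topM TB_LL 49947976805055875702105555676690660891977570282639538413746511354005947821116249921924897649015871538557230897942505966327167610868612564900642816 (by decide +kernel) (CovZ.n2 (-29952, -3840) (by decide +kernel)
    (CovZ.badM (by decide +kernel))
    (CovZ.badM (by decide +kernel))))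
    (CovZ.topM TB_LL 49947976805055875702105555676690660891977570282639538413746511354005947821116249921924897649015871538557230897942505966327167610868612564900642816 (by decide +kernel) (CovZ.n0 (-29952, -3840) (by decide +kernel)
    (CovZ.badM (by decide +kernel))
    (CovZ.n1 (-29952, -3072) (by decide +kernel)
     (CovZ.badM (by decide +kernel))
     (CovZ.badM (by decide +kernel)))))

theorem TB_s2_0 : SqZ TB_M TB_L [0, 7, 6, 1] (-32256) (-4608) 1536 2 0 :=
  SqZ.mk (a := (-29184)) (b := (-27648)) (c := (-4608)) (d := (-3072)) (by norm_num) (by norm_num) (by norm_num) (by norm_num)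
    (CovZ.topM TB_LL 0 (by decide +kernel) (CovZ.badM (by decide +kernel)))
    (CovZ.topM TB_LL 0 (by decide +kernel) (CovZ.badM (by decide +kernel)))

theorem TB_s3_0 : SqZ TB_M TB_L [0, 7, 6, 1] (-32256) (-4608) 1536 3 0 :=
  SqZ.mk (a := (-27648)) (b := (-26112)) (c := (-4608)) (d := (-3072)) (by norm_num) (by norm_num) (by norm_num) (by norm_num)
    (CovZ.topM TB_LL 0 (by decide +kernel) (CovZ.badM (by decide +kernel)))
    (CovZ.topM TB_LL 0 (by decide +kernel) (CovZ.badM (by decide +kernel)))

theorem TB_s4_0 : SqZ TB_M TB_L [0, 7, 6, 1] (-32256) (-4608) 1536 4 0 :=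
  SqZ.mk (a := (-26112)) (b := (-24576)) (c := (-4608)) (d := (-3072)) (by norm_num) (by norm_num) (by norm_num) (by norm_num)
    (CovZ.topM TB_LL 0 (by decide +kernel) (CovZ.badM (by decide +kernel)))
    (CovZ.topM TB_LL 0 (by decide +kernel) (CovZ.badM (by decide +kernel)))

theorem TB_s5_0 : SqZ TB_M TB_L [0, 7, 6, 1] (-32256) (-4608) 1536 5 0 :=
  SqZ.mk (a := (-24576)) (b := (-23040)) (c := (-4608)) (d := (-3072)) (by norm_num) (by norm_num) (by norm_num) (by norm_num)
    (CovZ.topM TB_LL 0 (by decide +kernel) (CovZ.badM (by decide +kernel)))
    (CovZ.topM TB_LL 0 (by decide +kernel) (CovZ.badM (by decide +kernel)))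

theorem TB_s6_0 : SqZ TB_M TB_L [0, 7, 6, 1] (-32256) (-4608) 1536 6 0 :=
  SqZ.mk (a := (-23040)) (b := (-21504)) (c := (-4608)) (d := (-3072)) (by norm_num) (by norm_num) (by norm_num) (by norm_num)
    (CovZ.topM TB_LL 0 (by decide +kernel) (CovZ.badM (by decide +kernel)))
    (CovZ.topM TB_LL 0 (by decide +kernel) (CovZ.badM (by decide +kernel)))

theorem TB_s7_0 : SqZ TB_M TB_L [0, 7, 6, 1] (-32256) (-4608) 1536 7 0 :=
  SqZ.mk (a := (-21504)) (b := (-19968)) (c := (-4608)) (d := (-3072)) (by norm_num) (by norm_num) (by norm_num) (by norm_num)
    (CovZ.topM TB_LL 0 (by decide +kernel) (CovZ.badM (by decide +kernel)))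
    (CovZ.topM TB_LL 0 (by decide +kernel) (CovZ.badM (by decide +kernel)))

theorem TB_s8_0 : SqZ TB_M TB_L [0, 7, 6, 1] (-32256) (-4608) 1536 8 0 :=
  SqZ.mk (a := (-19968)) (b := (-18432)) (c := (-4608)) (d := (-3072)) (by norm_num) (by norm_num) (by norm_num) (by norm_num)
    (CovZ.topM TB_LL 0 (by decide +kernel) (CovZ.badM (by decide +kernel)))
    (CovZ.topM TB_LL 0 (by decide +kernel) (CovZ.badM (by decide +kernel)))

theorem TB_s9_0 : SqZ TB_M TB_L [0, 7, 6, 1] (-32256) (-4608) 1536 9 0 :=
  SqZ.mk (a := (-18432)) (b := (-16896)) (c := (-4608)) (d := (-3072)) (by norm_num) (by norm_num) (by norm_num) (by norm_num)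
    (CovZ.topM TB_LL 0 (by decide +kernel) (CovZ.badM (by decide +kernel)))
    (CovZ.topM TB_LL 0 (by decide +kernel) (CovZ.badM (by decide +kernel)))

theorem TB_s10_0 : SqZ TB_M TB_L [0, 7, 6, 1] (-32256) (-4608) 1536 10 0 :=
  SqZ.mk (a := (-16896)) (b := (-15360)) (c := (-4608)) (d := (-3072)) (by norm_num) (by norm_num) (by norm_num) (by norm_num)
    (CovZ.topM TB_LL 0 (by decide +kernel) (CovZ.badM (by decide +kernel)))
    (CovZ.topM TB_LL 0 (by decide +kernel) (CovZ.badM (by decide +kernel)))

theorem TB_s11_0 : SqZ TB_M TB_L [0, 7, 6, 1] (-32256) (-4608) 1536 11 0 :=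
  SqZ.mk (a := (-15360)) (b := (-13824)) (c := (-4608)) (d := (-3072)) (by norm_num) (by norm_num) (by norm_num) (by norm_num)
    (CovZ.topM TB_LL 0 (by decide +kernel) (CovZ.badM (by decide +kernel)))
    (CovZ.topM TB_LL 0 (by decide +kernel) (CovZ.badM (by decide +kernel)))

theorem TB_s12_0 : SqZ TB_M TB_L [0, 7, 6, 1] (-32256) (-4608) 1536 12 0 :=
  SqZ.mk (a := (-13824)) (b := (-12288)) (c := (-4608)) (d := (-3072)) (by norm_num) (by norm_num) (by norm_num) (by norm_num)
    (CovZ.topM TB_LL 0 (by decide +kernel) (CovZ.badM (by decide +kernel)))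
    (CovZ.topM TB_LL 0 (by decide +kernel) (CovZ.badM (by decide +kernel)))

theorem TB_s0_1 : SqZ TB_M TB_L [0, 7, 6, 1] (-32256) (-4608) 1536 0 1 :=
  SqZ.mk (a := (-32256)) (b := (-30720)) (c := (-3072)) (d := (-1536)) (by norm_num) (by norm_num) (by norm_num) (by norm_num)
    (CovZ.topM TB_LL 0 (by decide +kernel) (CovZ.badM (by decide +kernel)))
    (CovZ.topM TB_LL 1951092843947495144613498268620728941092873839165606969286973099765857336762353512575191314414682481974891831950879139309654984799555178316431360 (by decide +kernel) (CovZ.n0 (-31488, -2304) (by decide +kernel)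
    (CovZ.badM (by decide +kernel))
    (CovZ.n1 (-31488, -1536) (by decide +kernel)
     (CovZ.badM (by decide +kernel))
     (CovZ.badM (by decide +kernel)))))

theorem TB_s1_1 : SqZ TB_M TB_L [0, 7, 6, 1] (-32256) (-4608) 1536 1 1 :=
  SqZ.mk (a := (-30720)) (b := (-29184)) (c := (-3072)) (d := (-1536)) (by norm_num) (by norm_num) (by norm_num) (by norm_num)
    (CovZ.topM TB_LL 56194522488256528126032208737408626978722210861686611241991101302825488704083626686523671703058533195758256445194794622023773302187435205997887488 (by decide +kernel) (CovZ.n2 (-29952, -2304) (by decide +kernel)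
    (CovZ.badM (by decide +kernel))
    (CovZ.n1 (-29952, -3072) (by decide +kernel)
     (CovZ.badM (by decide +kernel))
     (CovZ.badM (by decide +kernel)))))
    (CovZ.topM TB_LL 56194522488256528126032208737408626978722210861686611241991101302825488704083626686523671703058533195758256445194794622023773302187435205997887488 (by decide +kernel) (CovZ.n0 (-29952, -2304) (by decide +kernel)
    (CovZ.badM (by decide +kernel))
    (CovZ.n1 (-29952, -1536) (by decide +kernel)
     (CovZ.badM (by decide +kernel))
     (CovZ.n1 (-30336, -1920) (by decide +kernel)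
      (CovZ.n2 (-30336, -1536) (by decide +kernel)
       (CovZ.badM (by decide +kernel))
       (CovZ.badM (by decide +kernel)))
      (CovZ.badM (by decide +kernel))))))

theorem TB_s2_1 : SqZ TB_M TB_L [0, 7, 6, 1] (-32256) (-4608) 1536 2 1 :=
  SqZ.mk (a := (-29184)) (b := (-27648)) (c := (-3072)) (d := (-1536)) (by norm_num) (by norm_num) (by norm_num) (by norm_num)
    (CovZ.topM TB_LL 0 (by decide +kernel) (CovZ.badM (by decide +kernel)))
    (CovZ.topM TB_LL 0 (by decide +kernel) (CovZ.badM (by decide +kernel)))

theorem TB_s3_1 : SqZ TB_M TB_L [0, 7, 6, 1] (-32256) (-4608) 1536 3 1 :=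
  SqZ.mk (a := (-27648)) (b := (-26112)) (c := (-3072)) (d := (-1536)) (by norm_num) (by norm_num) (by norm_num) (by norm_num)
    (CovZ.topM TB_LL 0 (by decide +kernel) (CovZ.badM (by decide +kernel)))
    (CovZ.topM TB_LL 0 (by decide +kernel) (CovZ.badM (by decide +kernel)))

theorem TB_s4_1 : SqZ TB_M TB_L [0, 7, 6, 1] (-32256) (-4608) 1536 4 1 :=
  SqZ.mk (a := (-26112)) (b := (-24576)) (c := (-3072)) (d := (-1536)) (by norm_num) (by norm_num) (by norm_num) (by norm_num)
    (CovZ.topM TB_LL 0 (by decide +kernel) (CovZ.badM (by decide +kernel)))
    (CovZ.topM TB_LL 0 (by decide +kernel) (CovZ.badM (by decide +kernel)))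

theorem TB_s5_1 : SqZ TB_M TB_L [0, 7, 6, 1] (-32256) (-4608) 1536 5 1 :=
  SqZ.mk (a := (-24576)) (b := (-23040)) (c := (-3072)) (d := (-1536)) (by norm_num) (by norm_num) (by norm_num) (by norm_num)
    (CovZ.topM TB_LL 0 (by decide +kernel) (CovZ.badM (by decide +kernel)))
    (CovZ.topM TB_LL 0 (by decide +kernel) (CovZ.badM (by decide +kernel)))

theorem TB_s6_1 : SqZ TB_M TB_L [0, 7, 6, 1] (-32256) (-4608) 1536 6 1 :=
  SqZ.mk (a := (-23040)) (b := (-21504)) (c := (-3072)) (d := (-1536)) (by norm_num) (by norm_num) (by norm_num) (by norm_num)
    (CovZ.topM TB_LL 0 (by decide +kernel) (CovZ.badM (by decide +kernel)))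
    (CovZ.topM TB_LL 0 (by decide +kernel) (CovZ.badM (by decide +kernel)))

theorem TB_s7_1 : SqZ TB_M TB_L [0, 7, 6, 1] (-32256) (-4608) 1536 7 1 :=
  SqZ.mk (a := (-21504)) (b := (-19968)) (c := (-3072)) (d := (-1536)) (by norm_num) (by norm_num) (by norm_num) (by norm_num)
    (CovZ.topM TB_LL 0 (by decide +kernel) (CovZ.badM (by decide +kernel)))
    (CovZ.topM TB_LL 0 (by decide +kernel) (CovZ.badM (by decide +kernel)))

theorem TB_s8_1 : SqZ TB_M TB_L [0, 7, 6, 1] (-32256) (-4608) 1536 8 1 :=
  SqZ.mk (a := (-19968)) (b := (-18432)) (c := (-3072)) (d := (-1536)) (by norm_num) (by norm_num) (by norm_num) (by norm_num)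
    (CovZ.topM TB_LL 0 (by decide +kernel) (CovZ.badM (by decide +kernel)))
    (CovZ.topM TB_LL 0 (by decide +kernel) (CovZ.badM (by decide +kernel)))

theorem TB_s9_1 : SqZ TB_M TB_L [0, 7, 6, 1] (-32256) (-4608) 1536 9 1 :=
  SqZ.mk (a := (-18432)) (b := (-16896)) (c := (-3072)) (d := (-1536)) (by norm_num) (by norm_num) (by norm_num) (by norm_num)
    (CovZ.topM TB_LL 0 (by decide +kernel) (CovZ.badM (by decide +kernel)))
    (CovZ.topM TB_LL 0 (by decide +kernel) (CovZ.badM (by decide +kernel)))

theorem TB_s10_1 : SqZ TB_M TB_L [0, 7, 6, 1] (-32256) (-4608) 1536 10 1 :=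
  SqZ.mk (a := (-16896)) (b := (-15360)) (c := (-3072)) (d := (-1536)) (by norm_num) (by norm_num) (by norm_num) (by norm_num)
    (CovZ.topM TB_LL 0 (by decide +kernel) (CovZ.badM (by decide +kernel)))
    (CovZ.topM TB_LL 0 (by decide +kernel) (CovZ.badM (by decide +kernel)))

theorem TB_s11_1 : SqZ TB_M TB_L [0, 7, 6, 1] (-32256) (-4608) 1536 11 1 :=
  SqZ.mk (a := (-15360)) (b := (-13824)) (c := (-3072)) (d := (-1536)) (by norm_num) (by norm_num) (by norm_num) (by norm_num)
    (CovZ.topM TB_LL 0 (by decide +kernel) (CovZ.badM (by decide +kernel)))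
    (CovZ.topM TB_LL 0 (by decide +kernel) (CovZ.badM (by decide +kernel)))

theorem TB_s12_1 : SqZ TB_M TB_L [0, 7, 6, 1] (-32256) (-4608) 1536 12 1 :=
  SqZ.mk (a := (-13824)) (b := (-12288)) (c := (-3072)) (d := (-1536)) (by norm_num) (by norm_num) (by norm_num) (by norm_num)
    (CovZ.topM TB_LL 0 (by decide +kernel) (CovZ.badM (by decide +kernel)))
    (CovZ.topM TB_LL 0 (by decide +kernel) (CovZ.badM (by decide +kernel)))

theorem TB_s0_2 : SqZ TB_M TB_L [0, 7, 6, 1] (-32256) (-4608) 1536 0 2 :=
  SqZ.mk (a := (-32256)) (b := (-30720)) (c := (-1536)) (d := 0) (by norm_num) (by norm_num) (by norm_num) (by norm_num)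
    (CovZ.topM TB_LL 8196114235863813587958422023729421534651980256563729047684715954798644048310083444053262731917758606152769363872606289403336235105282392838373378 (by decide +kernel) (CovZ.n2 (-31488, -768) (by decide +kernel)
    (CovZ.n2 (-30720, -768) (by decide +kernel)
     TB_u0
     TB_u1)
    (CovZ.subM 1952617135231829125195227564143088885578102646852455099731728547500049412806699101256890682629068952663934716194590763637240652756429830799491072 (by decide +kernel)
     (CovZ.n1 (-31488, -1536) (by decide +kernel)
      (CovZ.badM (by decide +kernel))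
      (CovZ.n1 (-31104, -1152) (by decide +kernel)
       (CovZ.n2 (-31104, -1536) (by decide +kernel)
        (CovZ.badM (by decide +kernel))
        (CovZ.n1 (-30912, -1344) (by decide +kernel)
         (CovZ.badM (by decide +kernel))
         (CovZ.badM (by decide +kernel))))
       (CovZ.badM (by decide +kernel)))))))
    (CovZ.topM TB_LL 8196114235863813587958422023729421534651980256563729047684715954798644048310083444053262731917758606152769363872607557053936463334683889541578754 (by decide +kernel) (CovZ.n0 (-31488, -768) (by decide +kernel)
    (CovZ.subM 994646472819573284310764496293641680200912301594696764110191389302420127233623734616066 (by decide +kernel)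
     (CovZ.n2 (-32256, -768) (by decide +kernel)
      (CovZ.n2 (-31872, -384) (by decide +kernel)
       (CovZ.n2 (-31872, -768) (by decide +kernel)
        (CovZ.badM (by decide +kernel))
        (CovZ.n1 (-31680, -576) (by decide +kernel)
         (CovZ.n2 (-31680, -768) (by decide +kernel)
          (CovZ.badM (by decide +kernel))
          (CovZ.n1 (-31584, -672) (by decide +kernel)
           (CovZ.badM (by decide +kernel))
           (CovZ.badM (by decide +kernel))))
         (CovZ.badM (by decide +kernel))))
       (CovZ.n1 (-32256, -384) (by decide +kernel)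
        (CovZ.n2 (-32064, -192) (by decide +kernel)
         (CovZ.badM (by decide +kernel))
         (CovZ.badM (by decide +kernel)))
        (CovZ.badM (by decide +kernel))))
      (CovZ.n1 (-31872, -1152) (by decide +kernel)
       (CovZ.badM (by decide +kernel))
       (CovZ.n1 (-31872, -768) (by decide +kernel)
        (CovZ.n2 (-31680, -960) (by decide +kernel)
         (CovZ.badM (by decide +kernel))
         (CovZ.n1 (-31680, -768) (by decide +kernel)
          (CovZ.badM (by decide +kernel))
          (CovZ.badM (by decide +kernel))))
        (CovZ.badM (by decide +kernel))))))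
    (CovZ.n1 (-31488, 0) (by decide +kernel)
     TB_u2
     TB_u3)))

theorem TB_s1_2 : SqZ TB_M TB_L [0, 7, 6, 1] (-32256) (-4608) 1536 1 2 :=
  SqZ.mk (a := (-30720)) (b := (-29184)) (c := (-1536)) (d := 0) (by norm_num) (by norm_num) (by norm_num) (by norm_num)
    (CovZ.topM TB_LL 58147139623488390011482173195686386053575766920234525736068184546070682679965156159190637844569044721169384937879577464237404127681189620690190338 (by decide +kernel) (CovZ.n2 (-29952, -768) (by decide +kernel)
    (CovZ.subM 307865750090656250177576235455861927840989930198232585938754563077243650274939247418262570209895590182788964810754 (by decide +kernel)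
     (CovZ.n2 (-29184, -768) (by decide +kernel)
      (CovZ.badM (by decide +kernel))
      (CovZ.n1 (-29568, -384) (by decide +kernel)
       TB_u4
       TB_u5)))
    (CovZ.subM 56196046779540887932558147775851415353956020696962445575908328048689734195249266098426588103544552006262061049828008544817519672420117055516180480 (by decide +kernel)
     (CovZ.n1 (-29952, -1536) (by decide +kernel)
      (CovZ.n2 (-30336, -1152) (by decide +kernel)
       (CovZ.n2 (-29952, -1152) (by decide +kernel)
        (CovZ.badM (by decide +kernel))
        (CovZ.n1 (-30144, -960) (by decide +kernel)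
         (CovZ.badM (by decide +kernel))
         (CovZ.badM (by decide +kernel))))
       (CovZ.subM 49947976805055875702105555676690660891977570282639538413746511354005947821116249921924897649015871538557230897942505966327167610868612564900642816 (by decide +kernel)
        (CovZ.n1 (-30336, -1536) (by decide +kernel)
         (CovZ.n2 (-30528, -1344) (by decide +kernel)
          (CovZ.n2 (-30336, -1344) (by decide +kernel)
           (CovZ.badM (by decide +kernel))
           (CovZ.n1 (-30432, -1248) (by decide +kernel)
            (CovZ.n2 (-30336, -1248) (by decide +kernel)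
             (CovZ.badM (by decide +kernel))
             (CovZ.n1 (-30384, -1200) (by decide +kernel)
              (CovZ.badM (by decide +kernel))
              (CovZ.badM (by decide +kernel))))
            (CovZ.badM (by decide +kernel))))
          (CovZ.badM (by decide +kernel)))
         (CovZ.badM (by decide +kernel)))))
      (CovZ.badM (by decide +kernel))))))
    (CovZ.topM TB_LL 58147139623488390108985284610458819475235147474078545401880924882980223477313419194858709104445737549080354717425074988130790349367409078226649090 (by decide +kernel) (CovZ.n0 (-29952, -768) (by decide +kernel)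
    (CovZ.n2 (-30720, -768) (by decide +kernel)
     (CovZ.n2 (-30336, -384) (by decide +kernel)
      (CovZ.n2 (-30336, -768) (by decide +kernel)
       TB_u6
       TB_u7)
      (CovZ.n1 (-30720, -384) (by decide +kernel)
       (CovZ.n2 (-30528, -192) (by decide +kernel)
        (CovZ.n2 (-30528, -384) (by decide +kernel)
         (CovZ.n2 (-30624, -288) (by decide +kernel)
          (CovZ.leaf K2_ok TB_l2187 _)
          (CovZ.leaf K2_ok TB_l2188 _))
         (CovZ.n1 (-30432, -288) (by decide +kernel)
          (CovZ.n2 (-30432, -384) (by decide +kernel)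
           (CovZ.leaf K2_ok TB_l2189 _)
           (CovZ.n1 (-30384, -336) (by decide +kernel)
            (CovZ.leaf K2_ok TB_l2190 _)
            (CovZ.leaf K2_ok TB_l2191 _)))
          (CovZ.leaf K2_ok TB_l2192 _)))
        (CovZ.n1 (-30720, -192) (by decide +kernel)
         (CovZ.leaf K2_ok TB_l2193 _)
         (CovZ.n1 (-30624, -288) (by decide +kernel)
          (CovZ.leaf K2_ok TB_l2194 _)
          (CovZ.leaf K2_ok TB_l2195 _))))
       (CovZ.n1 (-30528, -576) (by decide +kernel)
        (CovZ.n2 (-30720, -576) (by decide +kernel)
         (CovZ.n2 (-30624, -480) (by decide +kernel)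
          (CovZ.n2 (-30624, -576) (by decide +kernel)
           (CovZ.leaf K2_ok TB_l2196 _)
           (CovZ.leaf K2_ok TB_l2197 _))
          (CovZ.n1 (-30720, -480) (by decide +kernel)
           (CovZ.leaf K2_ok TB_l2198 _)
           (CovZ.leaf K2_ok TB_l2199 _)))
         (CovZ.n1 (-30624, -672) (by decide +kernel)
          (CovZ.n2 (-30720, -672) (by decide +kernel)
           (CovZ.leaf K2_ok TB_l2200 _)
           (CovZ.n1 (-30672, -720) (by decide +kernel)
            (CovZ.leaf K2_ok TB_l2201 _)
            (CovZ.leaf K2_ok TB_l2202 _)))
          (CovZ.n1 (-30624, -576) (by decide +kernel)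
           (CovZ.leaf K2_ok TB_l2203 _)
           (CovZ.leaf K2_ok TB_l2204 _))))
        (CovZ.n1 (-30528, -384) (by decide +kernel)
         (CovZ.n2 (-30432, -480) (by decide +kernel)
          (CovZ.n2 (-30528, -480) (by decide +kernel)
           (CovZ.leaf K2_ok TB_l2205 _)
           (CovZ.leaf K2_ok TB_l2206 _))
          (CovZ.n1 (-30432, -384) (by decide +kernel)
           (CovZ.n2 (-30384, -432) (by decide +kernel)
            (CovZ.leaf K2_ok TB_l2207 _)
            (CovZ.leaf K2_ok TB_l2208 _))
           (CovZ.leaf K2_ok TB_l2209 _)))
         (CovZ.n1 (-30624, -480) (by decide +kernel)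
          (CovZ.leaf K2_ok TB_l2210 _)
          (CovZ.leaf K2_ok TB_l2211 _))))))
     (CovZ.subM 58147139623488390108041296041463567088454574343977777780017538551352940698938864274956079744835302199359110183059874355622226625757049379887251456 (by decide +kernel)
      (CovZ.n1 (-30336, -1152) (by decide +kernel)
       (CovZ.n2 (-30720, -1152) (by decide +kernel)
        (CovZ.n2 (-30528, -960) (by decide +kernel)
         TB_u8
         TB_u9)
        (CovZ.subM 49947976805055875799603378401626846254197655233776873535958261235041856290970531439356458986876959311622737167275233897928700290015257634478751744 (by decide +kernel)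
         (CovZ.n1 (-30528, -1344) (by decide +kernel)
          (CovZ.n2 (-30720, -1344) (by decide +kernel)
           (CovZ.n2 (-30624, -1248) (by decide +kernel)
            (CovZ.badM (by decide +kernel))
            (CovZ.n1 (-30720, -1248) (by decide +kernel)
             (CovZ.n2 (-30672, -1200) (by decide +kernel)
              (CovZ.badM (by decide +kernel))
              (CovZ.badM (by decide +kernel)))
             (CovZ.badM (by decide +kernel))))
           (CovZ.badM (by decide +kernel)))
          (CovZ.n1 (-30528, -1152) (by decide +kernel)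
           (CovZ.n2 (-30432, -1248) (by decide +kernel)
            (CovZ.badM (by decide +kernel))
            (CovZ.n1 (-30432, -1152) (by decide +kernel)
             (CovZ.n2 (-30384, -1200) (by decide +kernel)
              (CovZ.badM (by decide +kernel))
              (CovZ.n1 (-30384, -1152) (by decide +kernel)
               (CovZ.badM (by decide +kernel))
               (CovZ.badM (by decide +kernel))))
             (CovZ.badM (by decide +kernel))))
           (CovZ.n1 (-30624, -1248) (by decide +kernel)
            (CovZ.n2 (-30624, -1152) (by decide +kernel)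
             (CovZ.badM (by decide +kernel))
             (CovZ.n1 (-30672, -1200) (by decide +kernel)
              (CovZ.n2 (-30672, -1152) (by decide +kernel)
               (CovZ.badM (by decide +kernel))
               (CovZ.badM (by decide +kernel)))
              (CovZ.badM (by decide +kernel))))
            (CovZ.badM (by decide +kernel)))))))
       TB_u10)))
    (CovZ.n1 (-29952, 0) (by decide +kernel)
     (CovZ.subM 307865750090656250177576235455861927840989930198232585938754563077243650274939247418262570209895590182788964810754 (by decide +kernel)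
      (CovZ.n2 (-29568, -384) (by decide +kernel)
       (CovZ.n2 (-29952, -384) (by decide +kernel)
        (CovZ.n2 (-29760, -192) (by decide +kernel)
         (CovZ.n2 (-29760, -384) (by decide +kernel)
          (CovZ.n2 (-29856, -288) (by decide +kernel)
           (CovZ.n2 (-29760, -288) (by decide +kernel)
            (CovZ.n2 (-29808, -336) (by decide +kernel)
             (CovZ.leaf K2_ok TB_l2214 _)
             (CovZ.leaf K2_ok TB_l2215 _))
            (CovZ.leaf K2_ok TB_l2216 _))
           (CovZ.subM 37576681324381331646234673488047851214402959148930297403118559276497813276824806776345284781516370331430289410 (by decide +kernel)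
            (CovZ.n1 (-29856, -384) (by decide +kernel)
             (CovZ.n2 (-29904, -336) (by decide +kernel)
              (CovZ.n2 (-29856, -336) (by decide +kernel)
               (CovZ.leaf K2_ok TB_l2217 _)
               (CovZ.leaf K2_ok TB_l2218 _))
              (CovZ.n1 (-29904, -384) (by decide +kernel)
               (CovZ.leaf K2_ok TB_l2219 _)
               (CovZ.leaf K2_ok TB_l2220 _)))
             (CovZ.n1 (-29808, -336) (by decide +kernel)
              (CovZ.n2 (-29808, -384) (by decide +kernel)
               (CovZ.leaf K2_ok TB_l2221 _)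
               (CovZ.leaf K2_ok TB_l2222 _))
              (CovZ.leaf K2_ok TB_l2223 _)))))
          (CovZ.subM 37576681324381331646234673488047851214402959149135985472783710031767184423315247593683210891816760754068520962 (by decide +kernel)
           (CovZ.n1 (-29664, -288) (by decide +kernel)
            (CovZ.n2 (-29664, -384) (by decide +kernel)
             (CovZ.n2 (-29712, -336) (by decide +kernel)
              (CovZ.leaf K2_ok TB_l2224 _)
              (CovZ.n1 (-29712, -384) (by decide +kernel)
               (CovZ.leaf K2_ok TB_l2225 _)
               (CovZ.leaf K2_ok TB_l2226 _)))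
             (CovZ.n1 (-29616, -336) (by decide +kernel)
              (CovZ.n2 (-29616, -384) (by decide +kernel)
               (CovZ.leaf K2_ok TB_l2227 _)
               (CovZ.leaf K2_ok TB_l2228 _))
              (CovZ.leaf K2_ok TB_l2229 _)))
            (CovZ.n1 (-29760, -288) (by decide +kernel)
             (CovZ.leaf K2_ok TB_l2230 _)
             (CovZ.n1 (-29712, -336) (by decide +kernel)
              (CovZ.leaf K2_ok TB_l2231 _)
              (CovZ.leaf K2_ok TB_l2232 _))))))
         (CovZ.n1 (-29952, -192) (by decide +kernel)
          (CovZ.n2 (-29856, -96) (by decide +kernel)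
           (CovZ.leaf K2_ok TB_l2233 _)
           (CovZ.leaf K2_ok TB_l2234 _))
          (CovZ.n1 (-29856, -288) (by decide +kernel)
           (CovZ.n2 (-29952, -288) (by decide +kernel)
            (CovZ.leaf K2_ok TB_l2235 _)
            (CovZ.n1 (-29904, -336) (by decide +kernel)
             (CovZ.leaf K2_ok TB_l2236 _)
             (CovZ.leaf K2_ok TB_l2237 _)))
           (CovZ.n1 (-29856, -192) (by decide +kernel)
            (CovZ.leaf K2_ok TB_l2238 _)
            (CovZ.leaf K2_ok TB_l2239 _)))))
        (CovZ.subM 2983939418458776392038366397179471801903731982468874991071680926100807360071082919329794 (by decide +kernel)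
         (CovZ.n1 (-29760, -576) (by decide +kernel)
          TB_u11
          TB_u12)))
       (CovZ.n1 (-29568, 0) (by decide +kernel)
        (CovZ.n2 (-29376, -192) (by decide +kernel)
         (CovZ.subM 37576681324381331646234673488047851157863853102555759843257486682473298837753370973387178082062640126282432514 (by decide +kernel)
          (CovZ.n2 (-29568, -192) (by decide +kernel)
           (CovZ.n2 (-29472, -96) (by decide +kernel)
            (CovZ.leaf K2_ok TB_l2323 _)
            (CovZ.leaf K2_ok TB_l2324 _))
           (CovZ.n1 (-29472, -288) (by decide +kernel)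
            (CovZ.n2 (-29568, -288) (by decide +kernel)
             (CovZ.leaf K2_ok TB_l2325 _)
             (CovZ.n1 (-29520, -336) (by decide +kernel)
              (CovZ.leaf K2_ok TB_l2326 _)
              (CovZ.leaf K2_ok TB_l2327 _)))
            (CovZ.n1 (-29472, -192) (by decide +kernel)
             (CovZ.leaf K2_ok TB_l2328 _)
             (CovZ.leaf K2_ok TB_l2329 _)))))
         (CovZ.n1 (-29376, 0) (by decide +kernel)
          (CovZ.n2 (-29280, -96) (by decide +kernel)
           (CovZ.leaf K2_ok TB_l2330 _)
           (CovZ.leaf K2_ok TB_l2331 _))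
          (CovZ.n1 (-29472, -96) (by decide +kernel)
           (CovZ.leaf K2_ok TB_l2332 _)
           (CovZ.leaf K2_ok TB_l2333 _))))
        (CovZ.n1 (-29760, -192) (by decide +kernel)
         (CovZ.n2 (-29760, 0) (by decide +kernel)
          (CovZ.n2 (-29664, -96) (by decide +kernel)
           (CovZ.leaf K2_ok TB_l2334 _)
           (CovZ.leaf K2_ok TB_l2335 _))
          (CovZ.n1 (-29856, -96) (by decide +kernel)
           (CovZ.leaf K2_ok TB_l2336 _)
           (CovZ.leaf K2_ok TB_l2337 _)))
         (CovZ.n1 (-29568, -192) (by decide +kernel)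
          (CovZ.subM 37576681324381331646234673488047851214402959149135985472783710031767184423315247593683210891816760754068520962 (by decide +kernel)
           (CovZ.n2 (-29664, -288) (by decide +kernel)
            (CovZ.n2 (-29664, -192) (by decide +kernel)
             (CovZ.leaf K2_ok TB_l2338 _)
             (CovZ.leaf K2_ok TB_l2339 _))
            (CovZ.n1 (-29568, -288) (by decide +kernel)
             (CovZ.n2 (-29616, -336) (by decide +kernel)
              (CovZ.leaf K2_ok TB_l2340 _)
              (CovZ.n1 (-29568, -336) (by decide +kernel)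
               (CovZ.leaf K2_ok TB_l2341 _)
               (CovZ.leaf K2_ok TB_l2342 _)))
             (CovZ.leaf K2_ok TB_l2343 _))))
          (CovZ.n1 (-29664, -96) (by decide +kernel)
           (CovZ.leaf K2_ok TB_l2344 _)
           (CovZ.leaf K2_ok TB_l2345 _)))))))
     (CovZ.n1 (-30336, -384) (by decide +kernel)
      (CovZ.n2 (-30336, 0) (by decide +kernel)
       (CovZ.subM 5818432186490023332933144431498278952303498426260283251938545661640464750623742627562310284325993245544037576822514307426266120194 (by decide +kernel)
        (CovZ.n2 (-30144, -192) (by decide +kernel)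
         (CovZ.n2 (-30336, -192) (by decide +kernel)
          (CovZ.n2 (-30240, -96) (by decide +kernel)
           (CovZ.leaf K2_ok TB_l2346 _)
           (CovZ.leaf K2_ok TB_l2347 _))
          (CovZ.n1 (-30240, -288) (by decide +kernel)
           (CovZ.n2 (-30336, -288) (by decide +kernel)
            (CovZ.leaf K2_ok TB_l2348 _)
            (CovZ.n1 (-30288, -336) (by decide +kernel)
             (CovZ.leaf K2_ok TB_l2349 _)
             (CovZ.leaf K2_ok TB_l2350 _)))
           (CovZ.n1 (-30240, -192) (by decide +kernel)
            (CovZ.leaf K2_ok TB_l2351 _)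
            (CovZ.leaf K2_ok TB_l2352 _))))
         (CovZ.n1 (-30144, 0) (by decide +kernel)
          (CovZ.n2 (-30048, -96) (by decide +kernel)
           (CovZ.leaf K2_ok TB_l2353 _)
           (CovZ.leaf K2_ok TB_l2354 _))
          (CovZ.n1 (-30240, -96) (by decide +kernel)
           (CovZ.leaf K2_ok TB_l2355 _)
           (CovZ.leaf K2_ok TB_l2356 _)))))
       (CovZ.n1 (-30528, -192) (by decide +kernel)
        (CovZ.n2 (-30528, 0) (by decide +kernel)
         (CovZ.n2 (-30432, -96) (by decide +kernel)
          (CovZ.leaf K2_ok TB_l2357 _)
          (CovZ.leaf K2_ok TB_l2358 _))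
         (CovZ.leaf K2_ok TB_l2359 _))
        (CovZ.n1 (-30336, -192) (by decide +kernel)
         (CovZ.n2 (-30432, -288) (by decide +kernel)
          (CovZ.n2 (-30432, -192) (by decide +kernel)
           (CovZ.leaf K2_ok TB_l2360 _)
           (CovZ.leaf K2_ok TB_l2361 _))
          (CovZ.n1 (-30336, -288) (by decide +kernel)
           (CovZ.n2 (-30384, -336) (by decide +kernel)
            (CovZ.leaf K2_ok TB_l2362 _)
            (CovZ.leaf K2_ok TB_l2363 _))
           (CovZ.leaf K2_ok TB_l2364 _)))
         (CovZ.n1 (-30432, -96) (by decide +kernel)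
          (CovZ.leaf K2_ok TB_l2365 _)
          (CovZ.n1 (-30432, -192) (by decide +kernel)
           (CovZ.leaf K2_ok TB_l2366 _)
           (CovZ.leaf K2_ok TB_l2367 _))))))
      (CovZ.subM 5807601445497363899887916251091470031586949843934596468441785975778688886140126902472310384302148950317094642404696324723809189890 (by decide +kernel)
       (CovZ.n1 (-29952, -384) (by decide +kernel)
        TB_u13
        TB_u14))))))

theorem TB_s2_2 : SqZ TB_M TB_L [0, 7, 6, 1] (-32256) (-4608) 1536 2 2 :=
  SqZ.mk (a := (-29184)) (b := (-27648)) (c := (-1536)) (d := 0) (by norm_num) (by norm_num) (by norm_num) (by norm_num)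
    (CovZ.topM TB_LL 322786472706138835014829274386696385752633586249638118603537648454556321448030263118748964523457614138199877746881462274 (by decide +kernel) (CovZ.n2 (-28416, -768) (by decide +kernel)
    (CovZ.n2 (-27648, -768) (by decide +kernel)
     (CovZ.badM (by decide +kernel))
     (CovZ.n1 (-28032, -384) (by decide +kernel)
      (CovZ.n2 (-27648, -384) (by decide +kernel)
       TB_u15
       TB_u16)
      (CovZ.subM 1021501927585701762987155980195418728244584837727838455829180659316410314540702551899635712 (by decide +kernel)
       (CovZ.n1 (-28032, -768) (by decide +kernel)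
        (CovZ.n2 (-28224, -576) (by decide +kernel)
         (CovZ.n2 (-28032, -576) (by decide +kernel)
          (CovZ.badM (by decide +kernel))
          (CovZ.n1 (-28128, -480) (by decide +kernel)
           (CovZ.n2 (-28032, -480) (by decide +kernel)
            (CovZ.badM (by decide +kernel))
            (CovZ.n1 (-28080, -432) (by decide +kernel)
             (CovZ.n2 (-28032, -432) (by decide +kernel)
              (CovZ.n2 (-28056, -456) (by decide +kernel)
               (CovZ.n2 (-28056, -432) (by decide +kernel)
                (CovZ.badM (by decide +kernel))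
                (CovZ.badM (by decide +kernel)))
               (CovZ.badM (by decide +kernel)))
              (CovZ.n1 (-28056, -408) (by decide +kernel)
               (CovZ.n2 (-28032, -408) (by decide +kernel)
                (CovZ.n2 (-28044, -420) (by decide +kernel)
                 (CovZ.leaf K2_ok TB_l5389 _)
                 (CovZ.leaf K2_ok TB_l5390 _))
                (CovZ.leaf K2_ok TB_l5391 _))
               (CovZ.n1 (-28056, -432) (by decide +kernel)
                (CovZ.n2 (-28068, -420) (by decide +kernel)
                 (CovZ.leaf K2_ok TB_l5392 _)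
                 (CovZ.leaf K2_ok TB_l38458 _))
                (CovZ.leaf K2_ok TB_l5393 _))))
             (CovZ.n1 (-28080, -480) (by decide +kernel)
              (CovZ.badM (by decide +kernel))
              (CovZ.n1 (-28056, -456) (by decide +kernel)
               (CovZ.badM (by decide +kernel))
               (CovZ.badM (by decide +kernel))))))
           (CovZ.badM (by decide +kernel))))
         (CovZ.badM (by decide +kernel)))
        (CovZ.n1 (-27840, -576) (by decide +kernel)
         (CovZ.badM (by decide +kernel))
         (CovZ.n1 (-28032, -576) (by decide +kernel)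
          (CovZ.n2 (-27936, -480) (by decide +kernel)
           (CovZ.badM (by decide +kernel))
           (CovZ.n1 (-28032, -480) (by decide +kernel)
            (CovZ.n2 (-27984, -432) (by decide +kernel)
             (CovZ.badM (by decide +kernel))
             (CovZ.n1 (-28032, -432) (by decide +kernel)
              (CovZ.n2 (-28008, -408) (by decide +kernel)
               (CovZ.subM 3314309716284167443305296815453647867702043674677010223333376 (by decide +kernel)
                (CovZ.n2 (-28008, -432) (by decide +kernel)
                 (CovZ.n2 (-28020, -420) (by decide +kernel)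
                  (CovZ.leaf K2_ok TB_l5394 _)
                  (CovZ.leaf K2_ok TB_l5395 _))
                 (CovZ.n1 (-27996, -420) (by decide +kernel)
                  (CovZ.leaf K2_ok TB_l38459 _)
                  (CovZ.leaf K2_ok TB_l5396 _))))
               (CovZ.n1 (-28032, -408) (by decide +kernel)
                (CovZ.leaf K2_ok TB_l5397 _)
                (CovZ.leaf K2_ok TB_l5398 _)))
              (CovZ.badM (by decide +kernel))))
            (CovZ.badM (by decide +kernel))))
          (CovZ.badM (by decide +kernel))))))))
    (CovZ.badM (by decide +kernel))))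
    (CovZ.topM TB_LL 322786472706138835014829274386696385752633586249638118603537648454556321448030263118748964523457614138199877746881462274 (by decide +kernel) (CovZ.n0 (-28416, -768) (by decide +kernel)
    (CovZ.subM 307865750090656250177577254036015499635199855585269984433268146400578150406285863589653091920794823452173313507330 (by decide +kernel)
     (CovZ.n2 (-29184, -768) (by decide +kernel)
      (CovZ.n2 (-28800, -384) (by decide +kernel)
       TB_u17
       TB_u18)
      (CovZ.badM (by decide +kernel))))
    (CovZ.n1 (-28416, 0) (by decide +kernel)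
     (CovZ.n2 (-28032, -384) (by decide +kernel)
      (CovZ.subM 322781542645402005025430739900746365081027555522513984765086726111101965269956358887729716488193150507265170239060967424 (by decide +kernel)
       (CovZ.n2 (-28416, -384) (by decide +kernel)
        (CovZ.n2 (-28224, -192) (by decide +kernel)
         (CovZ.n2 (-28224, -384) (by decide +kernel)
          (CovZ.n2 (-28320, -288) (by decide +kernel)
           (CovZ.n2 (-28224, -288) (by decide +kernel)
            (CovZ.n2 (-28272, -336) (by decide +kernel)
             (CovZ.leaf K2_ok TB_l5522 _)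
             (CovZ.n1 (-28224, -336) (by decide +kernel)
              (CovZ.n2 (-28248, -360) (by decide +kernel)
               (CovZ.leaf K2_ok TB_l5523 _)
               (CovZ.leaf K2_ok TB_l5524 _))
              (CovZ.leaf K2_ok TB_l5525 _)))
            (CovZ.leaf K2_ok TB_l5526 _))
           (CovZ.n1 (-28320, -384) (by decide +kernel)
            (CovZ.n2 (-28368, -336) (by decide +kernel)
             (CovZ.n2 (-28320, -336) (by decide +kernel)
              (CovZ.n2 (-28344, -360) (by decide +kernel)
               (CovZ.leaf K2_ok TB_l5527 _)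
               (CovZ.leaf K2_ok TB_l5528 _))
              (CovZ.leaf K2_ok TB_l5529 _))
             (CovZ.n1 (-28368, -384) (by decide +kernel)
              (CovZ.leaf K2_ok TB_l5530 _)
              (CovZ.leaf K2_ok TB_l5531 _)))
            (CovZ.n1 (-28272, -336) (by decide +kernel)
             (CovZ.n2 (-28272, -384) (by decide +kernel)
              (CovZ.leaf K2_ok TB_l5532 _)
              (CovZ.n1 (-28248, -360) (by decide +kernel)
               (CovZ.leaf K2_ok TB_l5533 _)
               (CovZ.leaf K2_ok TB_l5534 _)))
             (CovZ.n1 (-28320, -336) (by decide +kernel)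
              (CovZ.leaf K2_ok TB_l5535 _)
              (CovZ.leaf K2_ok TB_l5536 _)))))
          (CovZ.n1 (-28128, -288) (by decide +kernel)
           (CovZ.n2 (-28128, -384) (by decide +kernel)
            (CovZ.n2 (-28176, -336) (by decide +kernel)
             (CovZ.n2 (-28128, -336) (by decide +kernel)
              (CovZ.n2 (-28152, -360) (by decide +kernel)
               (CovZ.leaf K2_ok TB_l5537 _)
               (CovZ.leaf K2_ok TB_l5538 _))
              (CovZ.leaf K2_ok TB_l5539 _))
             (CovZ.n1 (-28176, -384) (by decide +kernel)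
              (CovZ.leaf K2_ok TB_l5540 _)
              (CovZ.leaf K2_ok TB_l5541 _)))
            (CovZ.n1 (-28080, -336) (by decide +kernel)
             (CovZ.n2 (-28080, -384) (by decide +kernel)
              (CovZ.leaf K2_ok TB_l5542 _)
              (CovZ.n1 (-28056, -360) (by decide +kernel)
               (CovZ.leaf K2_ok TB_l5543 _)
               (CovZ.leaf K2_ok TB_l5544 _)))
             (CovZ.n1 (-28128, -336) (by decide +kernel)
              (CovZ.leaf K2_ok TB_l5545 _)
              (CovZ.leaf K2_ok TB_l5546 _))))
           (CovZ.n1 (-28224, -288) (by decide +kernel)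
            (CovZ.n2 (-28176, -240) (by decide +kernel)
             (CovZ.leaf K2_ok TB_l5547 _)
             (CovZ.leaf K2_ok TB_l5548 _))
            (CovZ.n1 (-28176, -336) (by decide +kernel)
             (CovZ.n2 (-28224, -336) (by decide +kernel)
              (CovZ.leaf K2_ok TB_l5549 _)
              (CovZ.leaf K2_ok TB_l5550 _))
             (CovZ.leaf K2_ok TB_l5551 _)))))
         (CovZ.n1 (-28416, -192) (by decide +kernel)
          (CovZ.n2 (-28320, -96) (by decide +kernel)
           (CovZ.n2 (-28320, -192) (by decide +kernel)
            (CovZ.leaf K2_ok TB_l5552 _)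
            (CovZ.leaf K2_ok TB_l5553 _))
           (CovZ.leaf K2_ok TB_l5554 _))
          (CovZ.n1 (-28320, -288) (by decide +kernel)
           (CovZ.n2 (-28416, -288) (by decide +kernel)
            (CovZ.n2 (-28368, -240) (by decide +kernel)
             (CovZ.leaf K2_ok TB_l5555 _)
             (CovZ.leaf K2_ok TB_l5556 _))
            (CovZ.n1 (-28368, -336) (by decide +kernel)
             (CovZ.n2 (-28416, -336) (by decide +kernel)
              (CovZ.leaf K2_ok TB_l5557 _)
              (CovZ.leaf K2_ok TB_l5558 _))
             (CovZ.leaf K2_ok TB_l5559 _)))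
           (CovZ.n1 (-28320, -192) (by decide +kernel)
            (CovZ.leaf K2_ok TB_l5560 _)
            (CovZ.n1 (-28368, -240) (by decide +kernel)
             (CovZ.leaf K2_ok TB_l5561 _)
             (CovZ.leaf K2_ok TB_l5562 _))))))
        (CovZ.subM 1021501929482839353051344526015004682433745523531638083575975440249226210047129818830995456 (by decide +kernel)
         (CovZ.n1 (-28224, -576) (by decide +kernel)
          (CovZ.n2 (-28416, -576) (by decide +kernel)
           (CovZ.n2 (-28320, -480) (by decide +kernel)
            (CovZ.badM (by decide +kernel))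
            (CovZ.n1 (-28416, -480) (by decide +kernel)
             (CovZ.n2 (-28368, -432) (by decide +kernel)
              (CovZ.n2 (-28368, -480) (by decide +kernel)
               (CovZ.n2 (-28392, -456) (by decide +kernel)
                (CovZ.badM (by decide +kernel))
                (CovZ.badM (by decide +kernel)))
               (CovZ.badM (by decide +kernel)))
              (CovZ.n1 (-28416, -432) (by decide +kernel)
               (CovZ.n2 (-28392, -408) (by decide +kernel)
                (CovZ.n2 (-28392, -432) (by decide +kernel)
                 (CovZ.leaf K2_ok TB_l5565 _)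
                 (CovZ.leaf K2_ok TB_l5566 _))
                (CovZ.leaf K2_ok TB_l5567 _))
               (CovZ.subM 1019512634640062616418533608700982722205935109134562820752951152630976968875693419842764800 (by decide +kernel)
                (CovZ.n1 (-28392, -456) (by decide +kernel)
                 (CovZ.n2 (-28416, -456) (by decide +kernel)
                  (CovZ.n2 (-28404, -444) (by decide +kernel)
                   (CovZ.leaf K2_ok TB_l5568 _)
                   (CovZ.leaf K2_ok TB_l5569 _))
                  (CovZ.badM (by decide +kernel)))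
                 (CovZ.n1 (-28392, -432) (by decide +kernel)
                  (CovZ.leaf K2_ok TB_l5570 _)
                  (CovZ.n1 (-28404, -444) (by decide +kernel)
                   (CovZ.leaf K2_ok TB_l5571 _)
                   (CovZ.leaf K2_ok TB_l5572 _)))))))
             (CovZ.badM (by decide +kernel))))
           (CovZ.badM (by decide +kernel)))
          TB_u19))))
      (CovZ.n1 (-28032, 0) (by decide +kernel)
       (CovZ.n2 (-27840, -192) (by decide +kernel)
        (CovZ.n2 (-28032, -192) (by decide +kernel)
         (CovZ.n2 (-27936, -96) (by decide +kernel)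
          (CovZ.n2 (-27936, -192) (by decide +kernel)
           (CovZ.leaf K2_ok TB_l5627 _)
           (CovZ.leaf K2_ok TB_l5628 _))
          (CovZ.n1 (-28032, -96) (by decide +kernel)
           (CovZ.leaf K2_ok TB_l5629 _)
           (CovZ.leaf K2_ok TB_l5630 _)))
         (CovZ.subM 322781542645402005025430739908893514339892680294303456741063910224333423441748946693327949119711606487844714206263246848 (by decide +kernel)
          (CovZ.n1 (-27936, -288) (by decide +kernel)
           (CovZ.n2 (-28032, -288) (by decide +kernel)
            (CovZ.n2 (-27984, -240) (by decide +kernel)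
             (CovZ.leaf K2_ok TB_l5631 _)
             (CovZ.leaf K2_ok TB_l5632 _))
            (CovZ.n1 (-27984, -336) (by decide +kernel)
             (CovZ.n2 (-28032, -336) (by decide +kernel)
              (CovZ.leaf K2_ok TB_l5633 _)
              (CovZ.n1 (-28008, -360) (by decide +kernel)
               (CovZ.leaf K2_ok TB_l5634 _)
               (CovZ.leaf K2_ok TB_l5635 _)))
             (CovZ.n1 (-27984, -288) (by decide +kernel)
              (CovZ.leaf K2_ok TB_l5636 _)
              (CovZ.leaf K2_ok TB_l5637 _))))
           (CovZ.n1 (-27936, -192) (by decide +kernel)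
            (CovZ.n2 (-27888, -240) (by decide +kernel)
             (CovZ.leaf K2_ok TB_l5638 _)
             (CovZ.leaf K2_ok TB_l5639 _))
            (CovZ.n1 (-27984, -240) (by decide +kernel)
             (CovZ.leaf K2_ok TB_l5640 _)
             (CovZ.leaf K2_ok TB_l5641 _))))))
        (CovZ.n1 (-27840, 0) (by decide +kernel)
         (CovZ.n2 (-27744, -96) (by decide +kernel)
          (CovZ.n2 (-27840, -96) (by decide +kernel)
           (CovZ.leaf K2_ok TB_l5642 _)
           (CovZ.leaf K2_ok TB_l5643 _))
          (CovZ.leaf K2_ok TB_l5644 _))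
         (CovZ.n1 (-27936, -96) (by decide +kernel)
          (CovZ.leaf K2_ok TB_l5645 _)
          (CovZ.n1 (-27840, -96) (by decide +kernel)
           (CovZ.leaf K2_ok TB_l5646 _)
           (CovZ.leaf K2_ok TB_l5647 _)))))
       (CovZ.n1 (-28224, -192) (by decide +kernel)
        (CovZ.n2 (-28224, 0) (by decide +kernel)
         (CovZ.n2 (-28128, -96) (by decide +kernel)
          (CovZ.leaf K2_ok TB_l5648 _)
          (CovZ.leaf K2_ok TB_l5649 _))
         (CovZ.n1 (-28320, -96) (by decide +kernel)
          (CovZ.leaf K2_ok TB_l5650 _)
          (CovZ.n1 (-28224, -96) (by decide +kernel)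
           (CovZ.leaf K2_ok TB_l5651 _)
           (CovZ.leaf K2_ok TB_l5652 _))))
        (CovZ.n1 (-28032, -192) (by decide +kernel)
         (CovZ.subM 322781542645402005025430739900745370434554735949229673974262361121557901529845448230324583282432194363722728474740785152 (by decide +kernel)
          (CovZ.n2 (-28128, -288) (by decide +kernel)
           (CovZ.n2 (-28128, -192) (by decide +kernel)
            (CovZ.leaf K2_ok TB_l5653 _)
            (CovZ.n1 (-28176, -240) (by decide +kernel)
             (CovZ.leaf K2_ok TB_l5654 _)
             (CovZ.leaf K2_ok TB_l5655 _)))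
           (CovZ.n1 (-28032, -288) (by decide +kernel)
            (CovZ.n2 (-28080, -336) (by decide +kernel)
             (CovZ.n2 (-28080, -288) (by decide +kernel)
              (CovZ.leaf K2_ok TB_l5656 _)
              (CovZ.leaf K2_ok TB_l5657 _))
             (CovZ.n1 (-28032, -336) (by decide +kernel)
              (CovZ.n2 (-28056, -360) (by decide +kernel)
               (CovZ.leaf K2_ok TB_l5658 _)
               (CovZ.leaf K2_ok TB_l5659 _))
              (CovZ.leaf K2_ok TB_l5660 _)))
            (CovZ.n1 (-28080, -240) (by decide +kernel)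
             (CovZ.leaf K2_ok TB_l5661 _)
             (CovZ.leaf K2_ok TB_l5662 _)))))
         (CovZ.n1 (-28128, -96) (by decide +kernel)
          (CovZ.n2 (-28032, -96) (by decide +kernel)
           (CovZ.leaf K2_ok TB_l5663 _)
           (CovZ.leaf K2_ok TB_l5664 _))
          (CovZ.n1 (-28128, -192) (by decide +kernel)
           (CovZ.leaf K2_ok TB_l5665 _)
           (CovZ.leaf K2_ok TB_l5666 _)))))))
     (CovZ.subM 307884538431318440843400369880789814331418861045661254206109893246330959162410965139526006557187889167383239589890 (by decide +kernel)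
      (CovZ.n1 (-28800, -384) (by decide +kernel)
       TB_u20
       TB_u21)))))

theorem TB_s3_2 : SqZ TB_M TB_L [0, 7, 6, 1] (-32256) (-4608) 1536 3 2 :=
  SqZ.mk (a := (-27648)) (b := (-26112)) (c := (-1536)) (d := 0) (by norm_num) (by norm_num) (by norm_num) (by norm_num)
    (CovZ.topM TB_LL 10370770953930916297759216503674656615715813901421313187863655288596802989585187558791593703150458911272407662942073405440 (by decide +kernel) (CovZ.n2 (-26880, -768) (by decide +kernel)
    (CovZ.n2 (-26112, -768) (by decide +kernel)
     (CovZ.badM (by decide +kernel))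
     (CovZ.n1 (-26496, -384) (by decide +kernel)
      (CovZ.n2 (-26112, -384) (by decide +kernel)
       (CovZ.badM (by decide +kernel))
       (CovZ.n1 (-26304, -192) (by decide +kernel)
        (CovZ.n2 (-26112, -192) (by decide +kernel)
         TB_u22
         TB_u23)
        (CovZ.subM 10330265301947147040477319843337061776392767737751117983665607567011900041474926684333068745195644128754103653794477768704 (by decide +kernel)
         (CovZ.n1 (-26304, -384) (by decide +kernel)
          (CovZ.n2 (-26400, -288) (by decide +kernel)
           (CovZ.n2 (-26304, -288) (by decide +kernel)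
            (CovZ.badM (by decide +kernel))
            (CovZ.n1 (-26352, -240) (by decide +kernel)
             (CovZ.n2 (-26304, -240) (by decide +kernel)
              (CovZ.badM (by decide +kernel))
              (CovZ.n1 (-26328, -216) (by decide +kernel)
               (CovZ.n2 (-26304, -216) (by decide +kernel)
                (CovZ.badM (by decide +kernel))
                (CovZ.n1 (-26316, -204) (by decide +kernel)
                 (CovZ.n2 (-26304, -204) (by decide +kernel)
                  (CovZ.n2 (-26310, -210) (by decide +kernel)
                   (CovZ.leaf K2_ok TB_l39253 _)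
                   (CovZ.n1 (-26304, -210) (by decide +kernel)
                    (CovZ.leaf K2_ok TB_l39254 _)
                    (CovZ.leaf K2_ok TB_l39255 _)))
                  (CovZ.leaf K2_ok TB_l39256 _))
                 (CovZ.subM 10330260376545918981958469617295252092960585722973548945616013579356826142528112673965500553448635480522486505628619505664 (by decide +kernel)
                  (CovZ.n1 (-26316, -216) (by decide +kernel)
                   (CovZ.n2 (-26322, -210) (by decide +kernel)
                    (CovZ.leaf K2_ok TB_l39257 _)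
                    (CovZ.leaf K2_ok TB_l39258 _))
                   (CovZ.n1 (-26310, -210) (by decide +kernel)
                    (CovZ.leaf K2_ok TB_l39259 _)
                    (CovZ.leaf K2_ok TB_l39260 _))))))
               (CovZ.badM (by decide +kernel))))
             (CovZ.badM (by decide +kernel))))
           (CovZ.badM (by decide +kernel)))
          (CovZ.n1 (-26208, -288) (by decide +kernel)
           (CovZ.badM (by decide +kernel))
           (CovZ.n1 (-26304, -288) (by decide +kernel)
            (CovZ.n2 (-26256, -240) (by decide +kernel)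
             (CovZ.badM (by decide +kernel))
             (CovZ.n1 (-26304, -240) (by decide +kernel)
              (CovZ.n2 (-26280, -216) (by decide +kernel)
               (CovZ.badM (by decide +kernel))
               (CovZ.n1 (-26304, -216) (by decide +kernel)
                (CovZ.n2 (-26292, -204) (by decide +kernel)
                 (CovZ.subM 10330260376545918981958469617295252092960585722973548945616013378489570610154328231220239010803310165247112282779515092992 (by decide +kernel)
                  (CovZ.n2 (-26292, -216) (by decide +kernel)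
                   (CovZ.n2 (-26298, -210) (by decide +kernel)
                    (CovZ.leaf K2_ok TB_l39261 _)
                    (CovZ.leaf K2_ok TB_l39262 _))
                   (CovZ.n1 (-26286, -210) (by decide +kernel)
                    (CovZ.n2 (-26286, -216) (by decide +kernel)
                     (CovZ.leaf K2_ok TB_l39263 _)
                     (CovZ.leaf K2_ok TB_l39264 _))
                    (CovZ.leaf K2_ok TB_l39265 _))))
                 (CovZ.n1 (-26304, -204) (by decide +kernel)
                  (CovZ.leaf K2_ok TB_l39266 _)
                  (CovZ.n1 (-26298, -210) (by decide +kernel)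
                   (CovZ.n2 (-26304, -210) (by decide +kernel)
                    (CovZ.leaf K2_ok TB_l39267 _)
                    (CovZ.leaf K2_ok TB_l39268 _))
                   (CovZ.leaf K2_ok TB_l39269 _))))
                (CovZ.badM (by decide +kernel))))
              (CovZ.badM (by decide +kernel))))
            (CovZ.badM (by decide +kernel))))))))
      (CovZ.badM (by decide +kernel))))
    (CovZ.badM (by decide +kernel))))
    (CovZ.topM TB_LL 10693552188729356552790587731821266841014006708332875938701794431731881531140877455849397537499971682418187577823936921600 (by decide +kernel) (CovZ.n0 (-26880, -768) (by decide +kernel)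
    (CovZ.n2 (-27648, -768) (by decide +kernel)
     (CovZ.n2 (-27264, -384) (by decide +kernel)
      (CovZ.n2 (-27264, -768) (by decide +kernel)
       (CovZ.n2 (-27456, -576) (by decide +kernel)
        (CovZ.badM (by decide +kernel))
        (CovZ.badM (by decide +kernel)))
       (CovZ.badM (by decide +kernel)))
      (CovZ.n1 (-27648, -384) (by decide +kernel)
       (CovZ.n2 (-27456, -192) (by decide +kernel)
        (CovZ.subM 322786467896323625494018823669164454276465397962725070930023167624904010072382732482203885940269532020366110507041030144 (by decide +kernel)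
         (CovZ.n2 (-27456, -384) (by decide +kernel)
          TB_u24
          TB_u25))
        (CovZ.subM 322786472706138835014829274386695391106160766676353807839041354812876120535728494198742220075010534571406847614806130688 (by decide +kernel)
         (CovZ.n1 (-27648, -192) (by decide +kernel)
          (CovZ.n2 (-27552, -96) (by decide +kernel)
           (CovZ.n2 (-27552, -192) (by decide +kernel)
            (CovZ.leaf K2_ok TB_l8719 _)
            (CovZ.leaf K2_ok TB_l8720 _))
           (CovZ.n1 (-27648, -96) (by decide +kernel)
            (CovZ.leaf K2_ok TB_l8721 _)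
            (CovZ.leaf K2_ok TB_l8722 _)))
          (CovZ.n1 (-27552, -288) (by decide +kernel)
           (CovZ.n2 (-27648, -288) (by decide +kernel)
            (CovZ.n2 (-27600, -240) (by decide +kernel)
             (CovZ.n2 (-27600, -288) (by decide +kernel)
              (CovZ.leaf K2_ok TB_l8723 _)
              (CovZ.leaf K2_ok TB_l8724 _))
             (CovZ.leaf K2_ok TB_l8725 _))
            (CovZ.n1 (-27600, -336) (by decide +kernel)
             (CovZ.n2 (-27648, -336) (by decide +kernel)
              (CovZ.n2 (-27624, -312) (by decide +kernel)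
               (CovZ.leaf K2_ok TB_l8726 _)
               (CovZ.leaf K2_ok TB_l8727 _))
              (CovZ.n1 (-27624, -360) (by decide +kernel)
               (CovZ.n2 (-27648, -360) (by decide +kernel)
                (CovZ.leaf K2_ok TB_l8728 _)
                (CovZ.leaf K2_ok TB_l8729 _))
               (CovZ.leaf K2_ok TB_l8730 _)))
             (CovZ.n1 (-27600, -288) (by decide +kernel)
              (CovZ.n2 (-27576, -312) (by decide +kernel)
               (CovZ.leaf K2_ok TB_l8731 _)
               (CovZ.leaf K2_ok TB_l8732 _))
              (CovZ.n1 (-27624, -312) (by decide +kernel)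
               (CovZ.leaf K2_ok TB_l8733 _)
               (CovZ.leaf K2_ok TB_l8734 _)))))
           (CovZ.n1 (-27552, -192) (by decide +kernel)
            (CovZ.n2 (-27504, -240) (by decide +kernel)
             (CovZ.leaf K2_ok TB_l8735 _)
             (CovZ.leaf K2_ok TB_l8736 _))
            (CovZ.n1 (-27600, -240) (by decide +kernel)
             (CovZ.leaf K2_ok TB_l8737 _)
             (CovZ.n1 (-27552, -240) (by decide +kernel)
              (CovZ.leaf K2_ok TB_l8738 _)
              (CovZ.leaf K2_ok TB_l8739 _))))))))
       (CovZ.subM 4925250774549309901534888160661857063579312482590947635245273218984005584671291940323296507828687470704109920714752 (by decide +kernel)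
        (CovZ.n1 (-27456, -576) (by decide +kernel)
         (CovZ.n2 (-27648, -576) (by decide +kernel)
          (CovZ.n2 (-27552, -480) (by decide +kernel)
           (CovZ.badM (by decide +kernel))
           (CovZ.n1 (-27648, -480) (by decide +kernel)
            (CovZ.n2 (-27600, -432) (by decide +kernel)
             (CovZ.badM (by decide +kernel))
             (CovZ.n1 (-27648, -432) (by decide +kernel)
              (CovZ.n2 (-27624, -408) (by decide +kernel)
               (CovZ.badM (by decide +kernel))
               (CovZ.n1 (-27648, -408) (by decide +kernel)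
                (CovZ.n2 (-27636, -396) (by decide +kernel)
                 (CovZ.subM 119726214130147567059245861496117904970213993920593920 (by decide +kernel)
                  (CovZ.n2 (-27636, -408) (by decide +kernel)
                   (CovZ.n2 (-27642, -402) (by decide +kernel)
                    (CovZ.leaf K2_ok TB_l39294 _)
                    (CovZ.badM (by decide +kernel)))
                   (CovZ.n1 (-27630, -402) (by decide +kernel)
                    (CovZ.badM (by decide +kernel))
                    (CovZ.n1 (-27636, -402) (by decide +kernel)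
                     (CovZ.leaf K2_ok TB_l39295 _)
                     (CovZ.badM (by decide +kernel))))))
                 (CovZ.n1 (-27648, -396) (by decide +kernel)
                  (CovZ.n2 (-27642, -390) (by decide +kernel)
                   (CovZ.leaf K2_ok TB_l39296 _)
                   (CovZ.leaf K2_ok TB_l39297 _))
                  (CovZ.n1 (-27642, -402) (by decide +kernel)
                   (CovZ.leaf K2_ok TB_l39298 _)
                   (CovZ.leaf K2_ok TB_l39299 _))))
                (CovZ.badM (by decide +kernel))))
              (CovZ.badM (by decide +kernel))))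
            (CovZ.badM (by decide +kernel))))
          (CovZ.badM (by decide +kernel)))
         (CovZ.n1 (-27456, -384) (by decide +kernel)
          (CovZ.badM (by decide +kernel))
          (CovZ.n1 (-27552, -480) (by decide +kernel)
           (CovZ.n2 (-27552, -384) (by decide +kernel)
            (CovZ.badM (by decide +kernel))
            (CovZ.n1 (-27600, -432) (by decide +kernel)
             (CovZ.n2 (-27600, -384) (by decide +kernel)
              (CovZ.subM 8148143905337944345073782766801550868976632759840407720998314628010746244718824048123969536 (by decide +kernel)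
               (CovZ.n2 (-27576, -408) (by decide +kernel)
                (CovZ.n2 (-27600, -408) (by decide +kernel)
                 (CovZ.n2 (-27588, -396) (by decide +kernel)
                  (CovZ.badM (by decide +kernel))
                  (CovZ.n1 (-27600, -396) (by decide +kernel)
                   (CovZ.n2 (-27594, -390) (by decide +kernel)
                    (CovZ.badM (by decide +kernel))
                    (CovZ.leaf K2_ok TB_l39300 _))
                   (CovZ.badM (by decide +kernel))))
                 (CovZ.badM (by decide +kernel)))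
                (CovZ.n1 (-27576, -384) (by decide +kernel)
                 (CovZ.n2 (-27564, -396) (by decide +kernel)
                  (CovZ.n2 (-27576, -396) (by decide +kernel)
                   (CovZ.n2 (-27570, -390) (by decide +kernel)
                    (CovZ.badM (by decide +kernel))
                    (CovZ.leaf K2_ok TB_l39301 _))
                   (CovZ.badM (by decide +kernel)))
                  (CovZ.leaf K2_ok TB_l39302 _))
                 (CovZ.n1 (-27588, -396) (by decide +kernel)
                  (CovZ.leaf K2_ok TB_l39303 _)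
                  (CovZ.n1 (-27576, -396) (by decide +kernel)
                   (CovZ.badM (by decide +kernel))
                   (CovZ.n1 (-27582, -390) (by decide +kernel)
                    (CovZ.leaf K2_ok TB_l39304 _)
                    (CovZ.badM (by decide +kernel))))))))
              (CovZ.n1 (-27624, -408) (by decide +kernel)
               (CovZ.n2 (-27624, -384) (by decide +kernel)
                (CovZ.subM 8148143905337944345073782766801550869168194702448643828293108006404534892671166438396919808 (by decide +kernel)
                 (CovZ.n2 (-27612, -396) (by decide +kernel)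
                  (CovZ.n2 (-27624, -396) (by decide +kernel)
                   (CovZ.n2 (-27618, -390) (by decide +kernel)
                    (CovZ.leaf K2_ok TB_l39305 _)
                    (CovZ.leaf K2_ok TB_l39306 _))
                   (CovZ.badM (by decide +kernel)))
                  (CovZ.leaf K2_ok TB_l39307 _)))
                (CovZ.n1 (-27636, -396) (by decide +kernel)
                 (CovZ.leaf K2_ok TB_l8740 _)
                 (CovZ.n1 (-27624, -396) (by decide +kernel)
                  (CovZ.n2 (-27630, -402) (by decide +kernel)
                   (CovZ.leaf K2_ok TB_l39308 _)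
                   (CovZ.badM (by decide +kernel)))
                  (CovZ.n1 (-27630, -390) (by decide +kernel)
                   (CovZ.leaf K2_ok TB_l39309 _)
                   (CovZ.leaf K2_ok TB_l39310 _)))))
               (CovZ.subM 8148143905337944345073782766801550868976632759840407720998314628010746244718824048123969536 (by decide +kernel)
                (CovZ.n1 (-27600, -408) (by decide +kernel)
                 (CovZ.badM (by decide +kernel))
                 (CovZ.n1 (-27612, -396) (by decide +kernel)
                  (CovZ.n2 (-27600, -396) (by decide +kernel)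
                   (CovZ.badM (by decide +kernel))
                   (CovZ.n1 (-27606, -390) (by decide +kernel)
                    (CovZ.leaf K2_ok TB_l39311 _)
                    (CovZ.leaf K2_ok TB_l39312 _)))
                  (CovZ.badM (by decide +kernel)))))))
             (CovZ.badM (by decide +kernel))))
           (CovZ.badM (by decide +kernel))))))))
     (CovZ.badM (by decide +kernel)))
    (CovZ.n1 (-26880, 0) (by decide +kernel)
     (CovZ.n2 (-26496, -384) (by decide +kernel)
      (CovZ.n2 (-26880, -384) (by decide +kernel)
       (CovZ.n2 (-26688, -192) (by decide +kernel)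
        TB_u26
        TB_u27)
       (CovZ.badM (by decide +kernel)))
      TB_u30)
     (CovZ.n1 (-27264, -384) (by decide +kernel)
      TB_u33
      TB_u34))))

theorem TB_s4_2 : SqZ TB_M TB_L [0, 7, 6, 1] (-32256) (-4608) 1536 4 2 :=
  SqZ.mk (a := (-26112)) (b := (-24576)) (c := (-1536)) (d := 0) (by norm_num) (by norm_num) (by norm_num) (by norm_num)
    (CovZ.topM TB_LL 76957190136244390576075666890750200475147348594278176018611973631359674961521628230966681209541354327286935977984 (by decide +kernel) (CovZ.n2 (-25344, -768) (by decide +kernel)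
    (CovZ.n2 (-24576, -768) (by decide +kernel)
     (CovZ.badM (by decide +kernel))
     (CovZ.n1 (-24960, -384) (by decide +kernel)
      (CovZ.badM (by decide +kernel))
      (CovZ.badM (by decide +kernel))))
    (CovZ.badM (by decide +kernel))))
    (CovZ.topM TB_LL 10370810048108902586928704095640570203821414157994003668356886227631907963946521177417691254102013743577274268208288776192 (by decide +kernel) (CovZ.n0 (-25344, -768) (by decide +kernel)
    TB_u39
    TB_u40))

theorem TB_s5_2 : SqZ TB_M TB_L [0, 7, 6, 1] (-32256) (-4608) 1536 5 2 :=
  SqZ.mk (a := (-24576)) (b := (-23040)) (c := (-1536)) (d := 0) (by norm_num) (by norm_num) (by norm_num) (by norm_num)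
    (CovZ.topM TB_LL 0 (by decide +kernel) (CovZ.badM (by decide +kernel)))
    (CovZ.topM TB_LL 0 (by decide +kernel) (CovZ.badM (by decide +kernel)))

theorem TB_s6_2 : SqZ TB_M TB_L [0, 7, 6, 1] (-32256) (-4608) 1536 6 2 :=
  SqZ.mk (a := (-23040)) (b := (-21504)) (c := (-1536)) (d := 0) (by norm_num) (by norm_num) (by norm_num) (by norm_num)
    (CovZ.topM TB_LL 0 (by decide +kernel) (CovZ.badM (by decide +kernel)))
    (CovZ.topM TB_LL 0 (by decide +kernel) (CovZ.badM (by decide +kernel)))

theorem TB_s7_2 : SqZ TB_M TB_L [0, 7, 6, 1] (-32256) (-4608) 1536 7 2 :=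
  SqZ.mk (a := (-21504)) (b := (-19968)) (c := (-1536)) (d := 0) (by norm_num) (by norm_num) (by norm_num) (by norm_num)
    (CovZ.topM TB_LL 0 (by decide +kernel) (CovZ.badM (by decide +kernel)))
    (CovZ.topM TB_LL 0 (by decide +kernel) (CovZ.badM (by decide +kernel)))

theorem TB_s8_2 : SqZ TB_M TB_L [0, 7, 6, 1] (-32256) (-4608) 1536 8 2 :=
  SqZ.mk (a := (-19968)) (b := (-18432)) (c := (-1536)) (d := 0) (by norm_num) (by norm_num) (by norm_num) (by norm_num)
    (CovZ.topM TB_LL 0 (by decide +kernel) (CovZ.badM (by decide +kernel)))
    (CovZ.topM TB_LL 0 (by decide +kernel) (CovZ.badM (by decide +kernel)))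

theorem TB_s9_2 : SqZ TB_M TB_L [0, 7, 6, 1] (-32256) (-4608) 1536 9 2 :=
  SqZ.mk (a := (-18432)) (b := (-16896)) (c := (-1536)) (d := 0) (by norm_num) (by norm_num) (by norm_num) (by norm_num)
    (CovZ.topM TB_LL 0 (by decide +kernel) (CovZ.badM (by decide +kernel)))
    (CovZ.topM TB_LL 0 (by decide +kernel) (CovZ.badM (by decide +kernel)))

theorem TB_s10_2 : SqZ TB_M TB_L [0, 7, 6, 1] (-32256) (-4608) 1536 10 2 :=
  SqZ.mk (a := (-16896)) (b := (-15360)) (c := (-1536)) (d := 0) (by norm_num) (by norm_num) (by norm_num) (by norm_num)
    (CovZ.topM TB_LL 0 (by decide +kernel) (CovZ.badM (by decide +kernel)))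
    (CovZ.topM TB_LL 0 (by decide +kernel) (CovZ.badM (by decide +kernel)))

theorem TB_s11_2 : SqZ TB_M TB_L [0, 7, 6, 1] (-32256) (-4608) 1536 11 2 :=
  SqZ.mk (a := (-15360)) (b := (-13824)) (c := (-1536)) (d := 0) (by norm_num) (by norm_num) (by norm_num) (by norm_num)
    (CovZ.topM TB_LL 0 (by decide +kernel) (CovZ.badM (by decide +kernel)))
    (CovZ.topM TB_LL 0 (by decide +kernel) (CovZ.badM (by decide +kernel)))

theorem TB_s12_2 : SqZ TB_M TB_L [0, 7, 6, 1] (-32256) (-4608) 1536 12 2 :=
  SqZ.mk (a := (-13824)) (b := (-12288)) (c := (-1536)) (d := 0) (by norm_num) (by norm_num) (by norm_num) (by norm_num)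
    (CovZ.topM TB_LL 0 (by decide +kernel) (CovZ.badM (by decide +kernel)))
    (CovZ.topM TB_LL 0 (by decide +kernel) (CovZ.badM (by decide +kernel)))

theorem TB_s0_3 : SqZ TB_M TB_L [0, 7, 6, 1] (-32256) (-4608) 1536 0 3 :=
  SqZ.mk (a := (-32256)) (b := (-30720)) (c := 0) (d := 1536) (by norm_num) (by norm_num) (by norm_num) (by norm_num)
    (CovZ.topM TB_LL 8196114235863813587958422023729421534651980256563729047684715954798644048310083417725191384053895778343453401902355279246766638786267191972462594 (by decide +kernel) (CovZ.n2 (-31488, 768) (by decide +kernel)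
    (CovZ.n2 (-30720, 768) (by decide +kernel)
     (CovZ.n2 (-31104, 384) (by decide +kernel)
      (CovZ.n2 (-31104, 768) (by decide +kernel)
       (CovZ.n2 (-30912, 576) (by decide +kernel)
        (CovZ.n2 (-31104, 576) (by decide +kernel)
         (CovZ.n2 (-31008, 672) (by decide +kernel)
          (CovZ.leaf K2_ok TB_l278 _)
          (CovZ.leaf K2_ok TB_l279 _))
         (CovZ.leaf K2_ok TB_l280 _))
        (CovZ.n1 (-30912, 768) (by decide +kernel)
         (CovZ.n2 (-30816, 672) (by decide +kernel)
          (CovZ.leaf K2_ok TB_l281 _)
          (CovZ.leaf K2_ok TB_l282 _))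
         (CovZ.n1 (-31008, 672) (by decide +kernel)
          (CovZ.leaf K2_ok TB_l283 _)
          (CovZ.leaf K2_ok TB_l284 _))))
       (CovZ.subM 994646472819573284310764496293641680200912301768921335973711882595667926238689058881538 (by decide +kernel)
        (CovZ.n1 (-31296, 576) (by decide +kernel)
         (CovZ.n2 (-31296, 768) (by decide +kernel)
          (CovZ.n2 (-31200, 672) (by decide +kernel)
           (CovZ.leaf K2_ok TB_l285 _)
           (CovZ.leaf K2_ok TB_l286 _))
          (CovZ.n1 (-31392, 672) (by decide +kernel)
           (CovZ.leaf K2_ok TB_l287 _)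
           (CovZ.leaf K2_ok TB_l288 _)))
         (CovZ.n1 (-31104, 576) (by decide +kernel)
          (CovZ.leaf K2_ok TB_l289 _)
          (CovZ.n1 (-31200, 672) (by decide +kernel)
           (CovZ.leaf K2_ok TB_l290 _)
           (CovZ.leaf K2_ok TB_l291 _))))))
      (CovZ.n1 (-30720, 384) (by decide +kernel)
       (CovZ.n2 (-30912, 192) (by decide +kernel)
        (CovZ.n2 (-30912, 384) (by decide +kernel)
         (CovZ.leaf K2_ok TB_l292 _)
         (CovZ.leaf K2_ok TB_l293 _))
        (CovZ.n1 (-30720, 192) (by decide +kernel)
         (CovZ.leaf K2_ok TB_l294 _)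
         (CovZ.leaf K3_ok TB_l295 _)))
       (CovZ.n1 (-30912, 576) (by decide +kernel)
        (CovZ.n2 (-30720, 576) (by decide +kernel)
         (CovZ.leaf K2_ok TB_l296 _)
         (CovZ.n1 (-30816, 672) (by decide +kernel)
          (CovZ.leaf K2_ok TB_l297 _)
          (CovZ.leaf K2_ok TB_l298 _)))
        (CovZ.n1 (-30912, 384) (by decide +kernel)
         (CovZ.n2 (-31008, 480) (by decide +kernel)
          (CovZ.leaf K2_ok TB_l299 _)
          (CovZ.leaf K2_ok TB_l300 _))
         (CovZ.leaf K2_ok TB_l301 _)))))
     (CovZ.n1 (-31104, 1152) (by decide +kernel)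
      (CovZ.n2 (-30720, 1152) (by decide +kernel)
       (CovZ.n2 (-30912, 960) (by decide +kernel)
        (CovZ.n2 (-30912, 1152) (by decide +kernel)
         (CovZ.n2 (-30816, 1056) (by decide +kernel)
          (CovZ.leaf K2_ok TB_l302 _)
          (CovZ.leaf K2_ok TB_l303 _))
         (CovZ.subM 994646472819573284310764496293641680200912301768921335973711882595667926238689058881538 (by decide +kernel)
          (CovZ.n1 (-31008, 1056) (by decide +kernel)
           (CovZ.n2 (-31008, 1152) (by decide +kernel)
            (CovZ.leaf K2_ok TB_l304 _)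
            (CovZ.leaf K2_ok TB_l305 _))
           (CovZ.n1 (-30912, 1056) (by decide +kernel)
            (CovZ.leaf K2_ok TB_l306 _)
            (CovZ.leaf K2_ok TB_l307 _)))))
        (CovZ.n1 (-30720, 960) (by decide +kernel)
         (CovZ.n2 (-30816, 864) (by decide +kernel)
          (CovZ.leaf K2_ok TB_l308 _)
          (CovZ.leaf K2_ok TB_l309 _))
         (CovZ.n1 (-30816, 1056) (by decide +kernel)
          (CovZ.leaf K2_ok TB_l310 _)
          (CovZ.n1 (-30816, 960) (by decide +kernel)
           (CovZ.leaf K2_ok TB_l311 _)
           (CovZ.leaf K2_ok TB_l312 _)))))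
       (CovZ.n1 (-30912, 1344) (by decide +kernel)
        (CovZ.n2 (-30720, 1344) (by decide +kernel)
         (CovZ.n2 (-30816, 1248) (by decide +kernel)
          (CovZ.n2 (-30816, 1344) (by decide +kernel)
           (CovZ.leaf K2_ok TB_l313 _)
           (CovZ.leaf K2_ok TB_l314 _))
          (CovZ.n1 (-30720, 1248) (by decide +kernel)
           (CovZ.leaf K2_ok TB_l315 _)
           (CovZ.n1 (-30768, 1296) (by decide +kernel)
            (CovZ.leaf K2_ok TB_l316 _)
            (CovZ.leaf K2_ok TB_l317 _))))
         (CovZ.n1 (-30816, 1440) (by decide +kernel)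
          (CovZ.n2 (-30720, 1440) (by decide +kernel)
           (CovZ.n2 (-30768, 1392) (by decide +kernel)
            (CovZ.leaf K2_ok TB_l318 _)
            (CovZ.leaf K2_ok TB_l319 _))
           (CovZ.n1 (-30768, 1488) (by decide +kernel)
            (CovZ.leaf K2_ok TB_l320 _)
            (CovZ.leaf K3_ok TB_l321 _)))
          (CovZ.n1 (-30816, 1344) (by decide +kernel)
           (CovZ.n2 (-30864, 1392) (by decide +kernel)
            (CovZ.leaf K2_ok TB_l322 _)
            (CovZ.leaf K2_ok TB_l323 _))
           (CovZ.n1 (-30768, 1392) (by decide +kernel)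
            (CovZ.leaf K2_ok TB_l324 _)
            (CovZ.leaf K2_ok TB_l325 _)))))
        (CovZ.n1 (-30912, 1152) (by decide +kernel)
         (CovZ.subM 994646472819573284310764496293641680200912301768921335973711882595667926238689058881538 (by decide +kernel)
          (CovZ.n2 (-31008, 1248) (by decide +kernel)
           (CovZ.n2 (-30912, 1248) (by decide +kernel)
            (CovZ.leaf K2_ok TB_l326 _)
            (CovZ.n1 (-30960, 1296) (by decide +kernel)
             (CovZ.leaf K2_ok TB_l327 _)
             (CovZ.leaf K2_ok TB_l328 _)))
           (CovZ.n1 (-31008, 1152) (by decide +kernel)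
            (CovZ.leaf K2_ok TB_l329 _)
            (CovZ.leaf K2_ok TB_l330 _))))
         (CovZ.n1 (-30816, 1248) (by decide +kernel)
          (CovZ.n2 (-30816, 1152) (by decide +kernel)
           (CovZ.leaf K2_ok TB_l331 _)
           (CovZ.leaf K2_ok TB_l332 _))
          (CovZ.n1 (-30912, 1248) (by decide +kernel)
           (CovZ.leaf K2_ok TB_l333 _)
           (CovZ.leaf K2_ok TB_l334 _))))))
      (CovZ.n1 (-31104, 768) (by decide +kernel)
       (CovZ.subM 994646472819573284310764496293641680200912301768921335973711882595667926238689058881538 (by decide +kernel)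
        (CovZ.n2 (-31296, 960) (by decide +kernel)
         (CovZ.n2 (-31104, 960) (by decide +kernel)
          (CovZ.n2 (-31200, 864) (by decide +kernel)
           (CovZ.leaf K2_ok TB_l335 _)
           (CovZ.leaf K2_ok TB_l336 _))
          (CovZ.n1 (-31200, 1056) (by decide +kernel)
           (CovZ.leaf K2_ok TB_l337 _)
           (CovZ.n1 (-31200, 960) (by decide +kernel)
            (CovZ.leaf K2_ok TB_l338 _)
            (CovZ.leaf K2_ok TB_l339 _))))
         (CovZ.n1 (-31296, 768) (by decide +kernel)
          (CovZ.n2 (-31392, 864) (by decide +kernel)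
           (CovZ.leaf K2_ok TB_l340 _)
           (CovZ.leaf K2_ok TB_l341 _))
          (CovZ.n1 (-31200, 864) (by decide +kernel)
           (CovZ.leaf K2_ok TB_l342 _)
           (CovZ.leaf K2_ok TB_l343 _)))))
       (CovZ.n1 (-30912, 960) (by decide +kernel)
        (CovZ.n2 (-30912, 768) (by decide +kernel)
         (CovZ.n2 (-31008, 864) (by decide +kernel)
          (CovZ.leaf K2_ok TB_l344 _)
          (CovZ.leaf K2_ok TB_l345 _))
         (CovZ.n1 (-30816, 864) (by decide +kernel)
          (CovZ.leaf K2_ok TB_l346 _)
          (CovZ.leaf K2_ok TB_l347 _)))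
        (CovZ.subM 994646472819573284310764496293641680200912301768921335973711882595667926238689058881538 (by decide +kernel)
         (CovZ.n1 (-31104, 960) (by decide +kernel)
          (CovZ.n2 (-31008, 1056) (by decide +kernel)
           (CovZ.n2 (-31008, 960) (by decide +kernel)
            (CovZ.leaf K2_ok TB_l348 _)
            (CovZ.leaf K2_ok TB_l349 _))
           (CovZ.leaf K2_ok TB_l350 _))
          (CovZ.n1 (-31008, 864) (by decide +kernel)
           (CovZ.leaf K2_ok TB_l351 _)
           (CovZ.leaf K2_ok TB_l352 _))))))))
    (CovZ.n1 (-31488, 0) (by decide +kernel)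
     (CovZ.subM 994646472819573284310764496293641680200912301768921335973711882595667926238689058881538 (by decide +kernel)
      (CovZ.n2 (-31872, 384) (by decide +kernel)
       (CovZ.n2 (-31488, 384) (by decide +kernel)
        (CovZ.n2 (-31680, 192) (by decide +kernel)
         (CovZ.n2 (-31680, 384) (by decide +kernel)
          (CovZ.leaf K2_ok TB_l353 _)
          (CovZ.leaf K2_ok TB_l354 _))
         (CovZ.leaf K2_ok TB_l355 _))
        (CovZ.n1 (-31680, 576) (by decide +kernel)
         (CovZ.n2 (-31488, 576) (by decide +kernel)
          (CovZ.leaf K2_ok TB_l356 _)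
          (CovZ.n1 (-31584, 672) (by decide +kernel)
           (CovZ.leaf K2_ok TB_l357 _)
           (CovZ.leaf K2_ok TB_l358 _)))
         (CovZ.n1 (-31680, 384) (by decide +kernel)
          (CovZ.badM (by decide +kernel))
          (CovZ.leaf K2_ok TB_l361 _))))
       (CovZ.n1 (-31872, 0) (by decide +kernel)
        (CovZ.badM (by decide +kernel))
        (CovZ.n1 (-31680, 192) (by decide +kernel)
         (CovZ.n2 (-31680, 0) (by decide +kernel)
          (CovZ.leaf K2_ok TB_l365 _)
          (CovZ.leaf K2_ok TB_l366 _))
         (CovZ.n1 (-31872, 192) (by decide +kernel)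
          (CovZ.leaf K2_ok TB_l367 _)
          (CovZ.leaf K2_ok TB_l368 _))))))
     (CovZ.n1 (-31104, 384) (by decide +kernel)
      (CovZ.n2 (-31104, 0) (by decide +kernel)
       (CovZ.subM 994646472819573284310764496293641680200912301768921335973711882595667926238689058881538 (by decide +kernel)
        (CovZ.n2 (-31296, 192) (by decide +kernel)
         (CovZ.n2 (-31104, 192) (by decide +kernel)
          (CovZ.leaf K2_ok TB_l369 _)
          (CovZ.n1 (-31200, 288) (by decide +kernel)
           (CovZ.leaf K2_ok TB_l370 _)
           (CovZ.leaf K2_ok TB_l371 _)))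
         (CovZ.n1 (-31296, 0) (by decide +kernel)
          (CovZ.leaf K2_ok TB_l372 _)
          (CovZ.leaf K2_ok TB_l373 _))))
       (CovZ.n1 (-30912, 192) (by decide +kernel)
        (CovZ.n2 (-30912, 0) (by decide +kernel)
         (CovZ.n2 (-31008, 96) (by decide +kernel)
          (CovZ.leaf K2_ok TB_l374 _)
          (CovZ.leaf K2_ok TB_l375 _))
         (CovZ.leaf K2_ok TB_l376 _))
        (CovZ.n1 (-31104, 192) (by decide +kernel)
         (CovZ.leaf K2_ok TB_l377 _)
         (CovZ.leaf K2_ok TB_l378 _))))
      (CovZ.subM 994646472819573284310764496293641680200912301768921335973711882595667926238689058881538 (by decide +kernel)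
       (CovZ.n1 (-31488, 384) (by decide +kernel)
        (CovZ.n2 (-31296, 576) (by decide +kernel)
         (CovZ.n2 (-31296, 384) (by decide +kernel)
          (CovZ.n2 (-31392, 480) (by decide +kernel)
           (CovZ.leaf K2_ok TB_l379 _)
           (CovZ.leaf K2_ok TB_l380 _))
          (CovZ.leaf K2_ok TB_l381 _))
         (CovZ.n1 (-31488, 576) (by decide +kernel)
          (CovZ.n2 (-31392, 672) (by decide +kernel)
           (CovZ.leaf K2_ok TB_l382 _)
           (CovZ.leaf K2_ok TB_l383 _))
          (CovZ.leaf K2_ok TB_l384 _)))
        (CovZ.n1 (-31296, 192) (by decide +kernel)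
         (CovZ.n2 (-31488, 192) (by decide +kernel)
          (CovZ.leaf K2_ok TB_l385 _)
          (CovZ.leaf K2_ok TB_l386 _))
         (CovZ.n1 (-31296, 384) (by decide +kernel)
          (CovZ.leaf K2_ok TB_l387 _)
          (CovZ.leaf K2_ok TB_l388 _)))))))))
    (CovZ.topM TB_LL 8196114235863813587958422023729421534651980256563729047684715954798644048310083417725191384053895778343453401902355279246766638786267191972462594 (by decide +kernel) (CovZ.n0 (-31488, 768) (by decide +kernel)
    (CovZ.subM 994646472819573284310764496293641680200912301768920006745716097679795022431628778536962 (by decide +kernel)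
     (CovZ.n2 (-32256, 768) (by decide +kernel)
      (CovZ.n2 (-31872, 1152) (by decide +kernel)
       (CovZ.n2 (-31872, 768) (by decide +kernel)
        (CovZ.badM (by decide +kernel))
        (CovZ.n1 (-31680, 960) (by decide +kernel)
         (CovZ.n2 (-31680, 768) (by decide +kernel)
          (CovZ.badM (by decide +kernel))
          (CovZ.n1 (-31584, 864) (by decide +kernel)
           (CovZ.leaf K2_ok TB_l399 _)
           (CovZ.badM (by decide +kernel))))
         (CovZ.badM (by decide +kernel))))
       (CovZ.badM (by decide +kernel)))
      (CovZ.n1 (-31872, 384) (by decide +kernel)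
       (CovZ.badM (by decide +kernel))
       (CovZ.n1 (-31872, 768) (by decide +kernel)
        (CovZ.n2 (-31680, 576) (by decide +kernel)
         (CovZ.badM (by decide +kernel))
         (CovZ.n1 (-31680, 768) (by decide +kernel)
          (CovZ.n2 (-31584, 672) (by decide +kernel)
           (CovZ.badM (by decide +kernel))
           (CovZ.leaf K2_ok TB_l435 _))
          (CovZ.badM (by decide +kernel))))
        (CovZ.badM (by decide +kernel))))))
    (CovZ.n1 (-31488, 1536) (by decide +kernel)
     (CovZ.n2 (-31104, 1152) (by decide +kernel)
      (CovZ.subM 994646472819573284310764496293641680200912301768921335973711882595667926238689058881538 (by decide +kernel)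
       (CovZ.n2 (-31488, 1152) (by decide +kernel)
        (CovZ.n2 (-31296, 1344) (by decide +kernel)
         (CovZ.n2 (-31296, 1152) (by decide +kernel)
          (CovZ.n2 (-31392, 1248) (by decide +kernel)
           (CovZ.n2 (-31296, 1248) (by decide +kernel)
            (CovZ.leaf K2_ok TB_l443 _)
            (CovZ.leaf K2_ok TB_l444 _))
           (CovZ.n1 (-31392, 1152) (by decide +kernel)
            (CovZ.leaf K2_ok TB_l445 _)
            (CovZ.leaf K2_ok TB_l446 _)))
          (CovZ.n1 (-31200, 1248) (by decide +kernel)
           (CovZ.n2 (-31200, 1152) (by decide +kernel)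
            (CovZ.leaf K2_ok TB_l447 _)
            (CovZ.leaf K2_ok TB_l448 _))
           (CovZ.n1 (-31296, 1248) (by decide +kernel)
            (CovZ.leaf K2_ok TB_l449 _)
            (CovZ.leaf K2_ok TB_l450 _))))
         (CovZ.n1 (-31488, 1344) (by decide +kernel)
          (CovZ.n2 (-31392, 1440) (by decide +kernel)
           (CovZ.n2 (-31392, 1344) (by decide +kernel)
            (CovZ.n2 (-31440, 1392) (by decide +kernel)
             (CovZ.leaf K2_ok TB_l451 _)
             (CovZ.leaf K2_ok TB_l452 _))
            (CovZ.leaf K2_ok TB_l453 _))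
           (CovZ.n1 (-31488, 1440) (by decide +kernel)
            (CovZ.n2 (-31440, 1488) (by decide +kernel)
             (CovZ.leaf K2_ok TB_l454 _)
             (CovZ.leaf K2_ok TB_l455 _))
            (CovZ.leaf K2_ok TB_l456 _)))
          (CovZ.n1 (-31392, 1248) (by decide +kernel)
           (CovZ.n2 (-31488, 1248) (by decide +kernel)
            (CovZ.leaf K2_ok TB_l457 _)
            (CovZ.leaf K2_ok TB_l458 _))
           (CovZ.n1 (-31392, 1344) (by decide +kernel)
            (CovZ.leaf K2_ok TB_l459 _)
            (CovZ.leaf K2_ok TB_l460 _)))))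
        (CovZ.n1 (-31296, 960) (by decide +kernel)
         (CovZ.n2 (-31488, 960) (by decide +kernel)
          (CovZ.n2 (-31392, 1056) (by decide +kernel)
           (CovZ.n2 (-31392, 960) (by decide +kernel)
            (CovZ.leaf K2_ok TB_l461 _)
            (CovZ.leaf K2_ok TB_l462 _))
           (CovZ.leaf K2_ok TB_l463 _))
          (CovZ.n1 (-31392, 864) (by decide +kernel)
           (CovZ.leaf K2_ok TB_l464 _)
           (CovZ.leaf K2_ok TB_l465 _)))
         (CovZ.n1 (-31296, 1152) (by decide +kernel)
          (CovZ.n2 (-31200, 1056) (by decide +kernel)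
           (CovZ.leaf K2_ok TB_l466 _)
           (CovZ.n1 (-31200, 1152) (by decide +kernel)
            (CovZ.leaf K2_ok TB_l467 _)
            (CovZ.leaf K2_ok TB_l468 _)))
          (CovZ.n1 (-31392, 1056) (by decide +kernel)
           (CovZ.n2 (-31392, 1152) (by decide +kernel)
            (CovZ.leaf K2_ok TB_l469 _)
            (CovZ.leaf K2_ok TB_l470 _))
           (CovZ.leaf K2_ok TB_l471 _))))))
      (CovZ.n1 (-31104, 1536) (by decide +kernel)
       (CovZ.n2 (-30912, 1344) (by decide +kernel)
        (CovZ.subM 994646472819573284310764496293641680200912301768921335973711882595667926238689058881538 (by decide +kernel)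
         (CovZ.n2 (-31104, 1344) (by decide +kernel)
          (CovZ.n2 (-31008, 1440) (by decide +kernel)
           (CovZ.n2 (-31008, 1344) (by decide +kernel)
            (CovZ.n2 (-31056, 1392) (by decide +kernel)
             (CovZ.leaf K2_ok TB_l472 _)
             (CovZ.leaf K2_ok TB_l473 _))
            (CovZ.leaf K2_ok TB_l474 _))
           (CovZ.n1 (-31104, 1440) (by decide +kernel)
            (CovZ.n2 (-31056, 1488) (by decide +kernel)
             (CovZ.leaf K2_ok TB_l475 _)
             (CovZ.leaf K2_ok TB_l476 _))
            (CovZ.leaf K2_ok TB_l477 _)))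
          (CovZ.n1 (-31008, 1248) (by decide +kernel)
           (CovZ.n2 (-31104, 1248) (by decide +kernel)
            (CovZ.leaf K2_ok TB_l478 _)
            (CovZ.leaf K2_ok TB_l479 _))
           (CovZ.n1 (-31008, 1344) (by decide +kernel)
            (CovZ.leaf K2_ok TB_l480 _)
            (CovZ.leaf K2_ok TB_l481 _)))))
        (CovZ.n1 (-30912, 1536) (by decide +kernel)
         (CovZ.n2 (-30816, 1440) (by decide +kernel)
          (CovZ.n2 (-30912, 1440) (by decide +kernel)
           (CovZ.leaf K3_ok TB_l482 _)
           (CovZ.leaf K2_ok TB_l483 _))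
          (CovZ.n1 (-30816, 1536) (by decide +kernel)
           (CovZ.n2 (-30768, 1488) (by decide +kernel)
            (CovZ.leaf K3_ok TB_l484 _)
            (CovZ.leaf K3_ok TB_l485 _))
           (CovZ.n1 (-30864, 1488) (by decide +kernel)
            (CovZ.leaf K3_ok TB_l486 _)
            (CovZ.leaf K3_ok TB_l487 _))))
         (CovZ.subM 994646472819573284310764496293641680200912301768921335973711882595667926238689058881538 (by decide +kernel)
          (CovZ.n1 (-31008, 1440) (by decide +kernel)
           (CovZ.n2 (-31008, 1536) (by decide +kernel)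
            (CovZ.n2 (-30960, 1488) (by decide +kernel)
             (CovZ.leaf K3_ok TB_l488 _)
             (CovZ.leaf K3_ok TB_l489 _))
            (CovZ.leaf K2_ok TB_l490 _))
           (CovZ.n1 (-30912, 1440) (by decide +kernel)
            (CovZ.leaf K2_ok TB_l491 _)
            (CovZ.n1 (-30960, 1488) (by decide +kernel)
             (CovZ.leaf K3_ok TB_l492 _)
             (CovZ.leaf K2_ok TB_l493 _)))))))
       (CovZ.subM 994646472819573284310764496293641680200912301768921335973711882595667926238689058881538 (by decide +kernel)
        (CovZ.n1 (-31296, 1344) (by decide +kernel)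
         (CovZ.n2 (-31296, 1536) (by decide +kernel)
          (CovZ.n2 (-31200, 1440) (by decide +kernel)
           (CovZ.n2 (-31296, 1440) (by decide +kernel)
            (CovZ.n2 (-31248, 1488) (by decide +kernel)
             (CovZ.leaf K2_ok TB_l494 _)
             (CovZ.leaf K2_ok TB_l495 _))
            (CovZ.leaf K2_ok TB_l496 _))
           (CovZ.n1 (-31200, 1536) (by decide +kernel)
            (CovZ.n2 (-31152, 1488) (by decide +kernel)
             (CovZ.leaf K2_ok TB_l497 _)
             (CovZ.leaf K2_ok TB_l498 _))
            (CovZ.n1 (-31248, 1488) (by decide +kernel)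
             (CovZ.leaf K2_ok TB_l499 _)
             (CovZ.leaf K2_ok TB_l500 _))))
          (CovZ.n1 (-31392, 1440) (by decide +kernel)
           (CovZ.n2 (-31392, 1536) (by decide +kernel)
            (CovZ.n2 (-31344, 1488) (by decide +kernel)
             (CovZ.leaf K2_ok TB_l501 _)
             (CovZ.leaf K2_ok TB_l502 _))
            (CovZ.leaf K2_ok TB_l503 _))
           (CovZ.n1 (-31296, 1440) (by decide +kernel)
            (CovZ.leaf K2_ok TB_l504 _)
            (CovZ.n1 (-31344, 1488) (by decide +kernel)
             (CovZ.leaf K2_ok TB_l505 _)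
             (CovZ.leaf K2_ok TB_l506 _)))))
         (CovZ.n1 (-31104, 1344) (by decide +kernel)
          (CovZ.n2 (-31200, 1248) (by decide +kernel)
           (CovZ.n2 (-31200, 1344) (by decide +kernel)
            (CovZ.leaf K2_ok TB_l507 _)
            (CovZ.leaf K2_ok TB_l508 _))
           (CovZ.n1 (-31104, 1248) (by decide +kernel)
            (CovZ.leaf K2_ok TB_l509 _)
            (CovZ.n1 (-31152, 1296) (by decide +kernel)
             (CovZ.leaf K2_ok TB_l510 _)
             (CovZ.leaf K2_ok TB_l511 _))))
          (CovZ.n1 (-31200, 1440) (by decide +kernel)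
           (CovZ.n2 (-31104, 1440) (by decide +kernel)
            (CovZ.leaf K2_ok TB_l512 _)
            (CovZ.n1 (-31152, 1488) (by decide +kernel)
             (CovZ.leaf K2_ok TB_l513 _)
             (CovZ.leaf K2_ok TB_l514 _)))
           (CovZ.n1 (-31200, 1344) (by decide +kernel)
            (CovZ.n2 (-31248, 1392) (by decide +kernel)
             (CovZ.leaf K2_ok TB_l515 _)
             (CovZ.leaf K2_ok TB_l516 _))
            (CovZ.leaf K2_ok TB_l517 _))))))))
     (CovZ.subM 994646472819573284310764496293641680200912301768920006745716097679795022431628778536962 (by decide +kernel)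
      (CovZ.n1 (-31872, 1152) (by decide +kernel)
       (CovZ.n2 (-31872, 1536) (by decide +kernel)
        (CovZ.n2 (-31680, 1344) (by decide +kernel)
         (CovZ.badM (by decide +kernel))
         (CovZ.n1 (-31680, 1536) (by decide +kernel)
          (CovZ.n2 (-31584, 1440) (by decide +kernel)
           (CovZ.badM (by decide +kernel))
           (CovZ.n1 (-31584, 1536) (by decide +kernel)
            (CovZ.n2 (-31536, 1488) (by decide +kernel)
             (CovZ.badM (by decide +kernel))
             (CovZ.leaf K2_ok TB_l531 _))
            (CovZ.badM (by decide +kernel))))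
          (CovZ.badM (by decide +kernel))))
        (CovZ.badM (by decide +kernel)))
       (CovZ.n1 (-31488, 1152) (by decide +kernel)
        (CovZ.n2 (-31680, 960) (by decide +kernel)
         (CovZ.n2 (-31680, 1152) (by decide +kernel)
          (CovZ.n2 (-31584, 1056) (by decide +kernel)
           (CovZ.badM (by decide +kernel))
           (CovZ.leaf K2_ok TB_l558 _))
          (CovZ.badM (by decide +kernel)))
         (CovZ.n1 (-31488, 960) (by decide +kernel)
          (CovZ.n2 (-31584, 864) (by decide +kernel)
           (CovZ.leaf K2_ok TB_l561 _)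
           (CovZ.leaf K2_ok TB_l562 _))
          (CovZ.n1 (-31584, 1056) (by decide +kernel)
           (CovZ.leaf K2_ok TB_l563 _)
           (CovZ.n1 (-31584, 960) (by decide +kernel)
            (CovZ.badM (by decide +kernel))
            (CovZ.leaf K2_ok TB_l565 _)))))
        (CovZ.n1 (-31680, 1344) (by decide +kernel)
         (CovZ.n2 (-31488, 1344) (by decide +kernel)
          (CovZ.n2 (-31584, 1248) (by decide +kernel)
           (CovZ.n2 (-31584, 1344) (by decide +kernel)
            (CovZ.leaf K2_ok TB_l566 _)
            (CovZ.badM (by decide +kernel)))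
           (CovZ.n1 (-31488, 1248) (by decide +kernel)
            (CovZ.leaf K2_ok TB_l568 _)
            (CovZ.n1 (-31536, 1296) (by decide +kernel)
             (CovZ.leaf K2_ok TB_l569 _)
             (CovZ.leaf K2_ok TB_l570 _))))
          (CovZ.n1 (-31584, 1440) (by decide +kernel)
           (CovZ.n2 (-31488, 1440) (by decide +kernel)
            (CovZ.leaf K2_ok TB_l571 _)
            (CovZ.n1 (-31536, 1488) (by decide +kernel)
             (CovZ.leaf K2_ok TB_l572 _)
             (CovZ.leaf K2_ok TB_l573 _)))
           (CovZ.n1 (-31584, 1344) (by decide +kernel)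
            (CovZ.badM (by decide +kernel))
            (CovZ.leaf K2_ok TB_l576 _))))
         (CovZ.n1 (-31680, 1152) (by decide +kernel)
          (CovZ.badM (by decide +kernel))
          (CovZ.n1 (-31584, 1248) (by decide +kernel)
           (CovZ.n2 (-31584, 1152) (by decide +kernel)
            (CovZ.badM (by decide +kernel))
            (CovZ.leaf K2_ok TB_l582 _))
           (CovZ.badM (by decide +kernel)))))))))))

theorem TB_s1_3 : SqZ TB_M TB_L [0, 7, 6, 1] (-32256) (-4608) 1536 1 3 :=
  SqZ.mk (a := (-30720)) (b := (-29184)) (c := 0) (d := 1536) (by norm_num) (by norm_num) (by norm_num) (by norm_num)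
    (CovZ.topM TB_LL 58147139623488390111692969858626140380717807892922208844140174214579433054213205141989196404709713778669995383098267861338694679704031494024986626 (by decide +kernel) (CovZ.n2 (-29952, 768) (by decide +kernel)
    (CovZ.subM 307884538431318440843399351300636242537208935658623855713165585356843129222023296323937401450314244759114899521538 (by decide +kernel)
     (CovZ.n2 (-29184, 768) (by decide +kernel)
      (CovZ.n2 (-29568, 384) (by decide +kernel)
       (CovZ.n2 (-29568, 768) (by decide +kernel)
        (CovZ.n2 (-29376, 576) (by decide +kernel)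
         (CovZ.n2 (-29568, 576) (by decide +kernel)
          (CovZ.n2 (-29472, 672) (by decide +kernel)
           (CovZ.leaf K2_ok TB_l2470 _)
           (CovZ.leaf K2_ok TB_l2471 _))
          (CovZ.leaf K2_ok TB_l2472 _))
         (CovZ.n1 (-29376, 768) (by decide +kernel)
          (CovZ.n2 (-29280, 672) (by decide +kernel)
           (CovZ.leaf K2_ok TB_l2473 _)
           (CovZ.leaf K2_ok TB_l2474 _))
          (CovZ.n1 (-29472, 672) (by decide +kernel)
           (CovZ.leaf K2_ok TB_l2475 _)
           (CovZ.leaf K2_ok TB_l2476 _))))
        (CovZ.subM 37576681324381331646234673488047851214402959149135987042059143878437375383591831391384730790309428930357493762 (by decide +kernel)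
         (CovZ.n1 (-29760, 576) (by decide +kernel)
          (CovZ.n2 (-29760, 768) (by decide +kernel)
           (CovZ.n2 (-29664, 672) (by decide +kernel)
            (CovZ.leaf K2_ok TB_l2477 _)
            (CovZ.leaf K2_ok TB_l2478 _))
           (CovZ.n1 (-29856, 672) (by decide +kernel)
            (CovZ.leaf K2_ok TB_l2479 _)
            (CovZ.leaf K2_ok TB_l2480 _)))
          (CovZ.n1 (-29568, 576) (by decide +kernel)
           (CovZ.leaf K2_ok TB_l2481 _)
           (CovZ.n1 (-29664, 672) (by decide +kernel)
            (CovZ.leaf K2_ok TB_l2482 _)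
            (CovZ.leaf K2_ok TB_l2483 _))))))
       (CovZ.n1 (-29184, 384) (by decide +kernel)
        (CovZ.n2 (-29376, 192) (by decide +kernel)
         (CovZ.n2 (-29376, 384) (by decide +kernel)
          (CovZ.leaf K2_ok TB_l2484 _)
          (CovZ.leaf K2_ok TB_l2485 _))
         (CovZ.n1 (-29184, 192) (by decide +kernel)
          (CovZ.leaf K2_ok TB_l2486 _)
          (CovZ.leaf K2_ok TB_l2487 _)))
        (CovZ.n1 (-29376, 576) (by decide +kernel)
         (CovZ.n2 (-29184, 576) (by decide +kernel)
          (CovZ.leaf K2_ok TB_l2488 _)
          (CovZ.n1 (-29280, 672) (by decide +kernel)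
           (CovZ.leaf K2_ok TB_l2489 _)
           (CovZ.leaf K2_ok TB_l2490 _)))
         (CovZ.n1 (-29376, 384) (by decide +kernel)
          (CovZ.leaf K2_ok TB_l2491 _)
          (CovZ.leaf K2_ok TB_l2492 _)))))
      (CovZ.n1 (-29568, 1152) (by decide +kernel)
       (CovZ.n2 (-29184, 1152) (by decide +kernel)
        (CovZ.n2 (-29376, 960) (by decide +kernel)
         (CovZ.n2 (-29376, 1152) (by decide +kernel)
          (CovZ.n2 (-29280, 1056) (by decide +kernel)
           (CovZ.n2 (-29376, 1056) (by decide +kernel)
            (CovZ.leaf K2_ok TB_l2493 _)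
            (CovZ.leaf K2_ok TB_l2494 _))
           (CovZ.n1 (-29280, 1152) (by decide +kernel)
            (CovZ.leaf K2_ok TB_l2495 _)
            (CovZ.leaf K2_ok TB_l2496 _)))
          (CovZ.subM 37576681324381331646234673488047851157863853076227688495393623854663982875783118695580008257514223428713316354 (by decide +kernel)
           (CovZ.n1 (-29472, 1056) (by decide +kernel)
            (CovZ.n2 (-29472, 1152) (by decide +kernel)
             (CovZ.leaf K2_ok TB_l2497 _)
             (CovZ.leaf K2_ok TB_l2498 _))
            (CovZ.n1 (-29376, 1056) (by decide +kernel)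
             (CovZ.leaf K2_ok TB_l2499 _)
             (CovZ.leaf K2_ok TB_l2500 _)))))
         (CovZ.n1 (-29184, 960) (by decide +kernel)
          (CovZ.n2 (-29280, 864) (by decide +kernel)
           (CovZ.n2 (-29280, 960) (by decide +kernel)
            (CovZ.leaf K2_ok TB_l2501 _)
            (CovZ.leaf K2_ok TB_l2502 _))
           (CovZ.leaf K2_ok TB_l2503 _))
          (CovZ.n1 (-29280, 1056) (by decide +kernel)
           (CovZ.n2 (-29184, 1056) (by decide +kernel)
            (CovZ.leaf K2_ok TB_l2504 _)
            (CovZ.leaf K2_ok TB_l2505 _))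
           (CovZ.n1 (-29280, 960) (by decide +kernel)
            (CovZ.leaf K2_ok TB_l2506 _)
            (CovZ.leaf K2_ok TB_l2507 _)))))
        (CovZ.n1 (-29376, 1344) (by decide +kernel)
         (CovZ.n2 (-29184, 1344) (by decide +kernel)
          (CovZ.n2 (-29280, 1248) (by decide +kernel)
           (CovZ.n2 (-29280, 1344) (by decide +kernel)
            (CovZ.n2 (-29232, 1296) (by decide +kernel)
             (CovZ.leaf K2_ok TB_l2508 _)
             (CovZ.leaf K2_ok TB_l2509 _))
            (CovZ.leaf K2_ok TB_l2510 _))
           (CovZ.n1 (-29184, 1248) (by decide +kernel)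
            (CovZ.leaf K2_ok TB_l2511 _)
            (CovZ.n1 (-29232, 1296) (by decide +kernel)
             (CovZ.leaf K2_ok TB_l2512 _)
             (CovZ.leaf K2_ok TB_l2513 _))))
          (CovZ.n1 (-29280, 1440) (by decide +kernel)
           (CovZ.n2 (-29184, 1440) (by decide +kernel)
            (CovZ.n2 (-29232, 1392) (by decide +kernel)
             (CovZ.leaf K2_ok TB_l2514 _)
             (CovZ.leaf K2_ok TB_l2515 _))
            (CovZ.n1 (-29232, 1488) (by decide +kernel)
             (CovZ.leaf K2_ok TB_l2516 _)
             (CovZ.leaf K2_ok TB_l2517 _)))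
           (CovZ.n1 (-29280, 1344) (by decide +kernel)
            (CovZ.leaf K2_ok TB_l2518 _)
            (CovZ.n1 (-29232, 1392) (by decide +kernel)
             (CovZ.leaf K2_ok TB_l2519 _)
             (CovZ.leaf K2_ok TB_l2520 _)))))
         (CovZ.n1 (-29376, 1152) (by decide +kernel)
          (CovZ.subM 37576681324381331646234673488047851157863853076227688495393623854663982875783118695580008257514223428713316354 (by decide +kernel)
           (CovZ.n2 (-29472, 1248) (by decide +kernel)
            (CovZ.n2 (-29376, 1248) (by decide +kernel)
             (CovZ.leaf K2_ok TB_l2521 _)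
             (CovZ.leaf K2_ok TB_l2522 _))
            (CovZ.n1 (-29472, 1152) (by decide +kernel)
             (CovZ.leaf K2_ok TB_l2523 _)
             (CovZ.leaf K2_ok TB_l2524 _))))
          (CovZ.n1 (-29280, 1248) (by decide +kernel)
           (CovZ.n2 (-29280, 1152) (by decide +kernel)
            (CovZ.leaf K2_ok TB_l2525 _)
            (CovZ.leaf K2_ok TB_l2526 _))
           (CovZ.n1 (-29376, 1248) (by decide +kernel)
            (CovZ.leaf K2_ok TB_l2527 _)
            (CovZ.leaf K2_ok TB_l2528 _))))))
       (CovZ.n1 (-29568, 768) (by decide +kernel)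
        (CovZ.subM 37576681324381331646234673488047851214402959149135987042059143878437375383591831391384730790309428930357493762 (by decide +kernel)
         (CovZ.n2 (-29760, 960) (by decide +kernel)
          (CovZ.n2 (-29568, 960) (by decide +kernel)
           (CovZ.n2 (-29664, 864) (by decide +kernel)
            (CovZ.n2 (-29664, 960) (by decide +kernel)
             (CovZ.leaf K2_ok TB_l2529 _)
             (CovZ.leaf K2_ok TB_l2530 _))
            (CovZ.leaf K2_ok TB_l2531 _))
           (CovZ.n1 (-29664, 1056) (by decide +kernel)
            (CovZ.leaf K2_ok TB_l2532 _)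
            (CovZ.n1 (-29664, 960) (by decide +kernel)
             (CovZ.leaf K2_ok TB_l2533 _)
             (CovZ.leaf K2_ok TB_l2534 _))))
          (CovZ.n1 (-29760, 768) (by decide +kernel)
           (CovZ.n2 (-29856, 864) (by decide +kernel)
            (CovZ.leaf K2_ok TB_l2535 _)
            (CovZ.leaf K2_ok TB_l2536 _))
           (CovZ.n1 (-29664, 864) (by decide +kernel)
            (CovZ.n2 (-29664, 768) (by decide +kernel)
             (CovZ.leaf K2_ok TB_l2537 _)
             (CovZ.leaf K2_ok TB_l2538 _))
            (CovZ.leaf K2_ok TB_l2539 _)))))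
        (CovZ.n1 (-29376, 960) (by decide +kernel)
         (CovZ.n2 (-29376, 768) (by decide +kernel)
          (CovZ.n2 (-29472, 864) (by decide +kernel)
           (CovZ.leaf K2_ok TB_l2540 _)
           (CovZ.leaf K2_ok TB_l2541 _))
          (CovZ.n1 (-29280, 864) (by decide +kernel)
           (CovZ.leaf K2_ok TB_l2542 _)
           (CovZ.leaf K2_ok TB_l2543 _)))
         (CovZ.subM 37576681324381331646234673488047851157863853076227688495393623854663982875783118695580008257514223428713316354 (by decide +kernel)
          (CovZ.n1 (-29568, 960) (by decide +kernel)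
           (CovZ.n2 (-29472, 1056) (by decide +kernel)
            (CovZ.n2 (-29472, 960) (by decide +kernel)
             (CovZ.leaf K2_ok TB_l2544 _)
             (CovZ.leaf K2_ok TB_l2545 _))
            (CovZ.leaf K2_ok TB_l2546 _))
           (CovZ.n1 (-29472, 864) (by decide +kernel)
            (CovZ.leaf K2_ok TB_l2547 _)
            (CovZ.n1 (-29472, 960) (by decide +kernel)
             (CovZ.leaf K2_ok TB_l2548 _)
             (CovZ.leaf K2_ok TB_l2549 _))))))))))
    (CovZ.n1 (-29952, 0) (by decide +kernel)
     (CovZ.n2 (-30336, 384) (by decide +kernel)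
      (CovZ.subM 5818432186490023332951932772160469618126614271034597948157551122005403236672261658660088449605992505012023394959455179236943855618 (by decide +kernel)
       (CovZ.n2 (-29952, 384) (by decide +kernel)
        (CovZ.n2 (-30144, 192) (by decide +kernel)
         (CovZ.n2 (-30144, 384) (by decide +kernel)
          (CovZ.leaf K2_ok TB_l2550 _)
          (CovZ.leaf K2_ok TB_l2551 _))
         (CovZ.n1 (-29952, 192) (by decide +kernel)
          (CovZ.leaf K2_ok TB_l2552 _)
          (CovZ.leaf K2_ok TB_l2553 _)))
        (CovZ.n1 (-30144, 576) (by decide +kernel)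
         (CovZ.subM 10576895500644015159911969309855982871927962975279713911513529860375965443491013300387452011511034025839339840422215751827458 (by decide +kernel)
          (CovZ.n2 (-29952, 576) (by decide +kernel)
           (CovZ.n2 (-30048, 480) (by decide +kernel)
            (CovZ.leaf K2_ok TB_l2554 _)
            (CovZ.leaf K2_ok TB_l2555 _))
           (CovZ.n1 (-30048, 672) (by decide +kernel)
            (CovZ.leaf K2_ok TB_l2556 _)
            (CovZ.leaf K2_ok TB_l2557 _))))
         (CovZ.n1 (-30144, 384) (by decide +kernel)
          (CovZ.leaf K2_ok TB_l2558 _)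
          (CovZ.leaf K2_ok TB_l2559 _)))))
      (CovZ.n1 (-30336, 0) (by decide +kernel)
       (CovZ.n2 (-30528, 192) (by decide +kernel)
        (CovZ.n2 (-30336, 192) (by decide +kernel)
         (CovZ.leaf K2_ok TB_l2560 _)
         (CovZ.leaf K2_ok TB_l2561 _))
        (CovZ.n1 (-30528, 0) (by decide +kernel)
         (CovZ.leaf K2_ok TB_l2562 _)
         (CovZ.leaf K2_ok TB_l2563 _)))
       (CovZ.subM 5818432186490023332951932772160469618126614271034597948157551122005403236672261658660088449605992505012023394959455179236943855618 (by decide +kernel)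
        (CovZ.n1 (-30144, 192) (by decide +kernel)
         (CovZ.n2 (-30144, 0) (by decide +kernel)
          (CovZ.leaf K2_ok TB_l2564 _)
          (CovZ.leaf K2_ok TB_l2565 _))
         (CovZ.n1 (-30336, 192) (by decide +kernel)
          (CovZ.leaf K2_ok TB_l2566 _)
          (CovZ.leaf K2_ok TB_l2567 _))))))
     (CovZ.subM 307884538431318440843399351300636242537208935658623855711596309922996459031064348968135484846288655897998890893314 (by decide +kernel)
      (CovZ.n1 (-29568, 384) (by decide +kernel)
       (CovZ.n2 (-29568, 0) (by decide +kernel)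
        (CovZ.n2 (-29760, 192) (by decide +kernel)
         (CovZ.n2 (-29568, 192) (by decide +kernel)
          (CovZ.leaf K2_ok TB_l2568 _)
          (CovZ.leaf K2_ok TB_l2569 _))
         (CovZ.n1 (-29760, 0) (by decide +kernel)
          (CovZ.leaf K2_ok TB_l2570 _)
          (CovZ.leaf K2_ok TB_l2571 _)))
        (CovZ.n1 (-29376, 192) (by decide +kernel)
         (CovZ.n2 (-29376, 0) (by decide +kernel)
          (CovZ.leaf K2_ok TB_l2572 _)
          (CovZ.leaf K2_ok TB_l2573 _))
         (CovZ.n1 (-29568, 192) (by decide +kernel)
          (CovZ.leaf K2_ok TB_l2574 _)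
          (CovZ.leaf K2_ok TB_l2575 _))))
       (CovZ.subM 56365021986571997469350518262362547433408419540402544438442037804024856625561343137177718751798717438604345346 (by decide +kernel)
        (CovZ.n1 (-29952, 384) (by decide +kernel)
         (CovZ.n2 (-29760, 576) (by decide +kernel)
          (CovZ.n2 (-29760, 384) (by decide +kernel)
           (CovZ.leaf K2_ok TB_l2576 _)
           (CovZ.leaf K2_ok TB_l2577 _))
          (CovZ.n1 (-29952, 576) (by decide +kernel)
           (CovZ.n2 (-29856, 672) (by decide +kernel)
            (CovZ.leaf K2_ok TB_l2578 _)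
            (CovZ.leaf K2_ok TB_l2579 _))
           (CovZ.leaf K2_ok TB_l2580 _)))
         (CovZ.n1 (-29760, 192) (by decide +kernel)
          (CovZ.n2 (-29952, 192) (by decide +kernel)
           (CovZ.leaf K2_ok TB_l2581 _)
           (CovZ.leaf K2_ok TB_l2582 _))
          (CovZ.n1 (-29760, 384) (by decide +kernel)
           (CovZ.leaf K2_ok TB_l2583 _)
           (CovZ.leaf K2_ok TB_l2584 _))))))))))
    (CovZ.topM TB_LL 58147139623488390111692969858626140361929467230731543021024329440264736835207744724394564521912089331932816261263793501555929070718005552894967810 (by decide +kernel) (CovZ.n0 (-29952, 768) (by decide +kernel)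
    (CovZ.n2 (-30720, 768) (by decide +kernel)
     (CovZ.n2 (-30336, 1152) (by decide +kernel)
      (CovZ.n2 (-30336, 768) (by decide +kernel)
       (CovZ.n2 (-30528, 960) (by decide +kernel)
        (CovZ.n2 (-30336, 960) (by decide +kernel)
         (CovZ.n2 (-30432, 864) (by decide +kernel)
          (CovZ.leaf K2_ok TB_l2585 _)
          (CovZ.leaf K2_ok TB_l2586 _))
         (CovZ.n1 (-30432, 1056) (by decide +kernel)
          (CovZ.leaf K2_ok TB_l2587 _)
          (CovZ.n1 (-30432, 960) (by decide +kernel)
           (CovZ.leaf K2_ok TB_l2588 _)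
           (CovZ.leaf K2_ok TB_l2589 _))))
        (CovZ.n1 (-30528, 768) (by decide +kernel)
         (CovZ.n2 (-30624, 864) (by decide +kernel)
          (CovZ.leaf K2_ok TB_l2590 _)
          (CovZ.leaf K2_ok TB_l2591 _))
         (CovZ.n1 (-30432, 864) (by decide +kernel)
          (CovZ.leaf K2_ok TB_l2592 _)
          (CovZ.leaf K2_ok TB_l2593 _))))
       (CovZ.subM 5818432186490023332933144431498278952303498426260283251938545661614136677706603330887830777405075638731964403200606431109391581186 (by decide +kernel)
        (CovZ.n1 (-30144, 960) (by decide +kernel)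
         (CovZ.n2 (-30144, 768) (by decide +kernel)
          (CovZ.n2 (-30240, 864) (by decide +kernel)
           (CovZ.leaf K2_ok TB_l2594 _)
           (CovZ.leaf K2_ok TB_l2595 _))
          (CovZ.n1 (-30048, 864) (by decide +kernel)
           (CovZ.leaf K2_ok TB_l2596 _)
           (CovZ.leaf K2_ok TB_l2597 _)))
         (CovZ.n1 (-30336, 960) (by decide +kernel)
          (CovZ.n2 (-30240, 1056) (by decide +kernel)
           (CovZ.n2 (-30240, 960) (by decide +kernel)
            (CovZ.leaf K2_ok TB_l2598 _)
            (CovZ.leaf K2_ok TB_l2599 _))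
           (CovZ.leaf K2_ok TB_l2600 _))
          (CovZ.n1 (-30240, 864) (by decide +kernel)
           (CovZ.leaf K2_ok TB_l2601 _)
           (CovZ.n1 (-30240, 960) (by decide +kernel)
            (CovZ.leaf K2_ok TB_l2602 _)
            (CovZ.leaf K2_ok TB_l2603 _)))))))
      (CovZ.n1 (-30720, 1152) (by decide +kernel)
       (CovZ.n2 (-30528, 1344) (by decide +kernel)
        (CovZ.n2 (-30528, 1152) (by decide +kernel)
         (CovZ.n2 (-30624, 1248) (by decide +kernel)
          (CovZ.n2 (-30528, 1248) (by decide +kernel)
           (CovZ.leaf K2_ok TB_l2604 _)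
           (CovZ.leaf K2_ok TB_l2605 _))
          (CovZ.n1 (-30624, 1152) (by decide +kernel)
           (CovZ.leaf K2_ok TB_l2606 _)
           (CovZ.leaf K2_ok TB_l2607 _)))
         (CovZ.n1 (-30432, 1248) (by decide +kernel)
          (CovZ.n2 (-30432, 1152) (by decide +kernel)
           (CovZ.leaf K2_ok TB_l2608 _)
           (CovZ.leaf K2_ok TB_l2609 _))
          (CovZ.n1 (-30528, 1248) (by decide +kernel)
           (CovZ.leaf K2_ok TB_l2610 _)
           (CovZ.leaf K2_ok TB_l2611 _))))
        (CovZ.n1 (-30720, 1344) (by decide +kernel)
         (CovZ.n2 (-30624, 1440) (by decide +kernel)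
          (CovZ.n2 (-30624, 1344) (by decide +kernel)
           (CovZ.leaf K2_ok TB_l2612 _)
           (CovZ.leaf K3_ok TB_l2613 _))
          (CovZ.n1 (-30720, 1440) (by decide +kernel)
           (CovZ.n2 (-30672, 1488) (by decide +kernel)
            (CovZ.leaf K2_ok TB_l2614 _)
            (CovZ.leaf K3_ok TB_l2615 _))
           (CovZ.leaf K2_ok TB_l2616 _)))
         (CovZ.n1 (-30624, 1248) (by decide +kernel)
          (CovZ.n2 (-30720, 1248) (by decide +kernel)
           (CovZ.leaf K2_ok TB_l2617 _)
           (CovZ.leaf K2_ok TB_l2618 _))
          (CovZ.n1 (-30624, 1344) (by decide +kernel)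
           (CovZ.leaf K2_ok TB_l2619 _)
           (CovZ.leaf K2_ok TB_l2620 _)))))
       (CovZ.n1 (-30528, 960) (by decide +kernel)
        (CovZ.n2 (-30720, 960) (by decide +kernel)
         (CovZ.n2 (-30624, 1056) (by decide +kernel)
          (CovZ.n2 (-30624, 960) (by decide +kernel)
           (CovZ.leaf K2_ok TB_l2621 _)
           (CovZ.leaf K2_ok TB_l2622 _))
          (CovZ.leaf K2_ok TB_l2623 _))
         (CovZ.n1 (-30624, 864) (by decide +kernel)
          (CovZ.leaf K2_ok TB_l2624 _)
          (CovZ.n1 (-30624, 960) (by decide +kernel)
           (CovZ.leaf K2_ok TB_l2625 _)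
           (CovZ.leaf K2_ok TB_l2626 _))))
        (CovZ.n1 (-30528, 1152) (by decide +kernel)
         (CovZ.n2 (-30432, 1056) (by decide +kernel)
          (CovZ.leaf K2_ok TB_l2627 _)
          (CovZ.n1 (-30432, 1152) (by decide +kernel)
           (CovZ.leaf K2_ok TB_l2628 _)
           (CovZ.leaf K2_ok TB_l2629 _)))
         (CovZ.n1 (-30624, 1056) (by decide +kernel)
          (CovZ.n2 (-30624, 1152) (by decide +kernel)
           (CovZ.leaf K2_ok TB_l2630 _)
           (CovZ.leaf K2_ok TB_l2631 _))
          (CovZ.n1 (-30528, 1056) (by decide +kernel)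
           (CovZ.leaf K2_ok TB_l2632 _)
           (CovZ.leaf K2_ok TB_l2633 _)))))))
     (CovZ.n1 (-30336, 384) (by decide +kernel)
      (CovZ.n2 (-30720, 384) (by decide +kernel)
       (CovZ.n2 (-30528, 576) (by decide +kernel)
        (CovZ.n2 (-30528, 384) (by decide +kernel)
         (CovZ.n2 (-30624, 480) (by decide +kernel)
          (CovZ.leaf K2_ok TB_l2634 _)
          (CovZ.leaf K2_ok TB_l2635 _))
         (CovZ.leaf K2_ok TB_l2636 _))
        (CovZ.n1 (-30720, 576) (by decide +kernel)
         (CovZ.n2 (-30624, 672) (by decide +kernel)
          (CovZ.leaf K2_ok TB_l2637 _)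
          (CovZ.leaf K2_ok TB_l2638 _))
         (CovZ.leaf K2_ok TB_l2639 _)))
       (CovZ.n1 (-30528, 192) (by decide +kernel)
        (CovZ.n2 (-30720, 192) (by decide +kernel)
         (CovZ.leaf K2_ok TB_l2640 _)
         (CovZ.leaf K2_ok TB_l2641 _))
        (CovZ.n1 (-30528, 384) (by decide +kernel)
         (CovZ.leaf K2_ok TB_l2642 _)
         (CovZ.leaf K2_ok TB_l2643 _))))
      (CovZ.n1 (-30336, 768) (by decide +kernel)
       (CovZ.subM 5818432186490023332933144431498278952303498426260283251938545661614136677706603330887830777405075638731964403200606431109391581186 (by decide +kernel)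
        (CovZ.n2 (-30144, 576) (by decide +kernel)
         (CovZ.n2 (-30336, 576) (by decide +kernel)
          (CovZ.n2 (-30240, 672) (by decide +kernel)
           (CovZ.leaf K2_ok TB_l2644 _)
           (CovZ.leaf K2_ok TB_l2645 _))
          (CovZ.leaf K2_ok TB_l2646 _))
         (CovZ.n1 (-30144, 768) (by decide +kernel)
          (CovZ.n2 (-30048, 672) (by decide +kernel)
           (CovZ.leaf K2_ok TB_l2647 _)
           (CovZ.leaf K2_ok TB_l2648 _))
          (CovZ.n1 (-30240, 672) (by decide +kernel)
           (CovZ.leaf K2_ok TB_l2649 _)
           (CovZ.leaf K2_ok TB_l2650 _)))))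
       (CovZ.n1 (-30528, 576) (by decide +kernel)
        (CovZ.n2 (-30528, 768) (by decide +kernel)
         (CovZ.n2 (-30432, 672) (by decide +kernel)
          (CovZ.leaf K2_ok TB_l2651 _)
          (CovZ.leaf K2_ok TB_l2652 _))
         (CovZ.n1 (-30624, 672) (by decide +kernel)
          (CovZ.leaf K2_ok TB_l2653 _)
          (CovZ.leaf K2_ok TB_l2654 _)))
        (CovZ.n1 (-30336, 576) (by decide +kernel)
         (CovZ.leaf K2_ok TB_l2655 _)
         (CovZ.n1 (-30432, 672) (by decide +kernel)
          (CovZ.leaf K2_ok TB_l2656 _)
          (CovZ.leaf K2_ok TB_l2657 _)))))))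
    (CovZ.n1 (-29952, 1536) (by decide +kernel)
     TB_u41
     TB_u42)))

theorem TB_s2_3 : SqZ TB_M TB_L [0, 7, 6, 1] (-32256) (-4608) 1536 2 3 :=
  SqZ.mk (a := (-29184)) (b := (-27648)) (c := 0) (d := 1536) (by norm_num) (by norm_num) (by norm_num) (by norm_num)
    (CovZ.topM TB_LL 322786472706175530992685115530882158886958651224869338275755188094506140245276160424735711561514813350217655584125616130 (by decide +kernel) (CovZ.n2 (-28416, 768) (by decide +kernel)
    (CovZ.n2 (-27648, 768) (by decide +kernel)
     TB_u43
     TB_u44)
    (CovZ.n1 (-28416, 0) (by decide +kernel)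
     (CovZ.subM 307884538431318440843408518024695152275763934828414891720323374553752293098372457057125340686412531375323981807618 (by decide +kernel)
      (CovZ.n2 (-28800, 384) (by decide +kernel)
       (CovZ.n2 (-28416, 384) (by decide +kernel)
        (CovZ.n2 (-28608, 192) (by decide +kernel)
         (CovZ.n2 (-28608, 384) (by decide +kernel)
          (CovZ.leaf K2_ok TB_l5944 _)
          (CovZ.leaf K2_ok TB_l5945 _))
         (CovZ.n1 (-28416, 192) (by decide +kernel)
          (CovZ.leaf K2_ok TB_l5946 _)
          (CovZ.leaf K2_ok TB_l5947 _)))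
        (CovZ.n1 (-28608, 576) (by decide +kernel)
         (CovZ.n2 (-28416, 576) (by decide +kernel)
          (CovZ.n2 (-28512, 480) (by decide +kernel)
           (CovZ.leaf K2_ok TB_l5948 _)
           (CovZ.leaf K2_ok TB_l5949 _))
          (CovZ.n1 (-28512, 672) (by decide +kernel)
           (CovZ.leaf K2_ok TB_l5950 _)
           (CovZ.leaf K2_ok TB_l5951 _)))
         (CovZ.n1 (-28608, 384) (by decide +kernel)
          (CovZ.n2 (-28704, 480) (by decide +kernel)
           (CovZ.leaf K2_ok TB_l5952 _)
           (CovZ.leaf K2_ok TB_l5953 _))
          (CovZ.n1 (-28512, 480) (by decide +kernel)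
           (CovZ.leaf K2_ok TB_l5954 _)
           (CovZ.leaf K2_ok TB_l5955 _)))))
       (CovZ.n1 (-28800, 0) (by decide +kernel)
        (CovZ.n2 (-28992, 192) (by decide +kernel)
         (CovZ.n2 (-28800, 192) (by decide +kernel)
          (CovZ.leaf K2_ok TB_l5956 _)
          (CovZ.leaf K2_ok TB_l5957 _))
         (CovZ.n1 (-28992, 0) (by decide +kernel)
          (CovZ.leaf K2_ok TB_l5958 _)
          (CovZ.leaf K2_ok TB_l5959 _)))
        (CovZ.n1 (-28608, 192) (by decide +kernel)
         (CovZ.n2 (-28608, 0) (by decide +kernel)
          (CovZ.leaf K2_ok TB_l5960 _)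
          (CovZ.leaf K2_ok TB_l5961 _))
         (CovZ.n1 (-28800, 192) (by decide +kernel)
          (CovZ.leaf K2_ok TB_l5962 _)
          (CovZ.leaf K2_ok TB_l5963 _))))))
     (CovZ.n1 (-28032, 384) (by decide +kernel)
      (CovZ.n2 (-28032, 0) (by decide +kernel)
       (CovZ.n2 (-28224, 192) (by decide +kernel)
        (CovZ.n2 (-28032, 192) (by decide +kernel)
         (CovZ.leaf K2_ok TB_l5964 _)
         (CovZ.n1 (-28128, 288) (by decide +kernel)
          (CovZ.leaf K2_ok TB_l5965 _)
          (CovZ.leaf K2_ok TB_l5966 _)))
        (CovZ.n1 (-28224, 0) (by decide +kernel)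
         (CovZ.leaf K2_ok TB_l5967 _)
         (CovZ.leaf K2_ok TB_l5968 _)))
       (CovZ.n1 (-27840, 192) (by decide +kernel)
        (CovZ.n2 (-27840, 0) (by decide +kernel)
         (CovZ.leaf K2_ok TB_l5969 _)
         (CovZ.n1 (-27744, 96) (by decide +kernel)
          (CovZ.leaf K2_ok TB_l5970 _)
          (CovZ.leaf K2_ok TB_l5971 _)))
        (CovZ.n1 (-28032, 192) (by decide +kernel)
         (CovZ.n2 (-27936, 288) (by decide +kernel)
          (CovZ.leaf K2_ok TB_l5972 _)
          (CovZ.leaf K2_ok TB_l5973 _))
         (CovZ.leaf K2_ok TB_l5974 _))))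
      (CovZ.n1 (-28416, 384) (by decide +kernel)
       (CovZ.n2 (-28224, 576) (by decide +kernel)
        (CovZ.n2 (-28224, 384) (by decide +kernel)
         (CovZ.n2 (-28320, 480) (by decide +kernel)
          (CovZ.leaf K2_ok TB_l5975 _)
          (CovZ.leaf K2_ok TB_l5976 _))
         (CovZ.n1 (-28128, 480) (by decide +kernel)
          (CovZ.leaf K2_ok TB_l5977 _)
          (CovZ.leaf K2_ok TB_l5978 _)))
        (CovZ.subM 307884538431318440843408518024695152275763934828414891720323374553752292924147885193604847393164732370258657542144 (by decide +kernel)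
         (CovZ.n1 (-28416, 576) (by decide +kernel)
          (CovZ.n2 (-28320, 672) (by decide +kernel)
           (CovZ.leaf K2_ok TB_l5979 _)
           (CovZ.leaf K2_ok TB_l5980 _))
          (CovZ.n1 (-28320, 480) (by decide +kernel)
           (CovZ.leaf K2_ok TB_l5981 _)
           (CovZ.leaf K2_ok TB_l5982 _)))))
       (CovZ.n1 (-28224, 192) (by decide +kernel)
        (CovZ.n2 (-28416, 192) (by decide +kernel)
         (CovZ.n2 (-28320, 288) (by decide +kernel)
          (CovZ.leaf K2_ok TB_l5983 _)
          (CovZ.leaf K2_ok TB_l5984 _))
         (CovZ.leaf K2_ok TB_l5985 _))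
        (CovZ.n1 (-28224, 384) (by decide +kernel)
         (CovZ.n2 (-28128, 288) (by decide +kernel)
          (CovZ.leaf K2_ok TB_l5986 _)
          (CovZ.leaf K2_ok TB_l5987 _))
         (CovZ.n1 (-28320, 288) (by decide +kernel)
          (CovZ.leaf K2_ok TB_l5988 _)
          (CovZ.leaf K2_ok TB_l5989 _)))))))))
    (CovZ.topM TB_LL 322786472706175530992685115530882158886958651224869338275755188094506140245276160424735711561514813350217655584125616130 (by decide +kernel) (CovZ.n0 (-28416, 768) (by decide +kernel)
    TB_u47
    TB_u48))

end Pool.Agent.TET
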