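import Pool.Agent.Helper38_TET.TB_M
import Pool.Agent.Helper38_TET.TB_L
import Pool.Agent.Helper38_TET.TB_31
import Pool.Agent.Helper38_TET.TB_32
import Pool.Agent.Helper38_TET.TB_49
import Pool.Agent.Helper38_TET.TB_50
import Pool.Agent.Helper38_TET.TB_51
import Pool.Agent.Helper38_TET.TB_255
import Pool.Agent.Helper38_TET.TB_256
import Pool.Agent.Helper38_TET.TB_257
import Pool.Agent.Helper38_TET.TB_258
import Pool.Agent.Helper38_TET.TB_259
import Pool.Agent.Helper38_TET.TB_323

/-!
# MP_c7c9bf_co: certificates, family TB
-/

set_option autoImplicit false
set_option maxRecDepth 100000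

namespace Pool.Agent.TET

theorem TB_u147 : CovZ TB_M (toL (selN TB_LN 5043457396718524389246931701604430553163522199506415261489068479864498082825964416475102425241764397900246224068411392)) [0, 7, 6, 1] (-30720, 4608) (-30528, 4800) (-30720, 4992) :=
    (CovZ.n2 (-30720, 4800) (by decide +kernel)
         (CovZ.n2 (-30624, 4896) (by decide +kernel)
          (CovZ.subM 2353129859973906143138229043927449328745078226614380834530192657696479429734137344217436501155714815772065792 (by decide +kernel)
           (CovZ.n2 (-30624, 4800) (by decide +kernel)
            (CovZ.n2 (-30672, 4848) (by decide +kernel)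
             (CovZ.n2 (-30624, 4848) (by decide +kernel)
              (CovZ.n2 (-30648, 4824) (by decide +kernel)
               (CovZ.n2 (-30648, 4848) (by decide +kernel)
                (CovZ.n2 (-30636, 4836) (by decide +kernel)
                 (CovZ.leaf K2_ok TB_l38313 _)
                 (CovZ.leaf K2_ok TB_l38314 _))
                (CovZ.leaf K2_ok TB_l38315 _))
               (CovZ.n1 (-30624, 4824) (by decide +kernel)
                (CovZ.n2 (-30636, 4812) (by decide +kernel)
                 (CovZ.leaf K2_ok TB_l38316 _)
                 (CovZ.leaf K2_ok TB_l38317 _))
                (CovZ.n1 (-30636, 4836) (by decide +kernel)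
                 (CovZ.leaf K2_ok TB_l38318 _)
                 (CovZ.leaf K2_ok TB_l38319 _))))
              (CovZ.n1 (-30648, 4872) (by decide +kernel)
               (CovZ.n2 (-30624, 4872) (by decide +kernel)
                (CovZ.leaf K2_ok TB_l38320 _)
                (CovZ.leaf K2_ok TB_l38321 _))
               (CovZ.n1 (-30648, 4848) (by decide +kernel)
                (CovZ.n2 (-30660, 4860) (by decide +kernel)
                 (CovZ.leaf K2_ok TB_l38322 _)
                 (CovZ.leaf K2_ok TB_l38323 _))
                (CovZ.leaf K2_ok TB_l38324 _))))
             (CovZ.n1 (-30672, 4800) (by decide +kernel)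
              (CovZ.n2 (-30696, 4824) (by decide +kernel)
               (CovZ.n2 (-30672, 4824) (by decide +kernel)
                (CovZ.n2 (-30684, 4812) (by decide +kernel)
                 (CovZ.leaf K2_ok TB_l38325 _)
                 (CovZ.n1 (-30672, 4812) (by decide +kernel)
                  (CovZ.leaf K2_ok TB_l38326 _)
                  (CovZ.leaf K2_ok TB_l38327 _)))
                (CovZ.n1 (-30684, 4836) (by decide +kernel)
                 (CovZ.leaf K2_ok TB_l38328 _)
                 (CovZ.leaf K2_ok TB_l38329 _)))
               (CovZ.subM 2353129580005813370912702724247164257689543461408681099943009368008139705996806126610270727637276860074688512 (by decide +kernel)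
                (CovZ.n1 (-30696, 4800) (by decide +kernel)
                 (CovZ.n2 (-30708, 4812) (by decide +kernel)
                  (CovZ.leaf K2_ok TB_l38330 _)
                  (CovZ.leaf K2_ok TB_l38331 _))
                 (CovZ.n1 (-30684, 4812) (by decide +kernel)
                  (CovZ.n2 (-30684, 4800) (by decide +kernel)
                   (CovZ.leaf K2_ok TB_l38332 _)
                   (CovZ.leaf K2_ok TB_l38333 _))
                  (CovZ.leaf K2_ok TB_l38334 _)))))
              (CovZ.n1 (-30648, 4824) (by decide +kernel)
               (CovZ.subM 2353129580005813370912702724247164257689543461408681099943009368008139705996806126610270727637276860073639936 (by decide +kernel)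
                (CovZ.n2 (-30648, 4800) (by decide +kernel)
                 (CovZ.n2 (-30660, 4812) (by decide +kernel)
                  (CovZ.leaf K2_ok TB_l38335 _)
                  (CovZ.n1 (-30660, 4800) (by decide +kernel)
                   (CovZ.leaf K2_ok TB_l38336 _)
                   (CovZ.leaf K2_ok TB_l38337 _)))
                 (CovZ.n1 (-30636, 4812) (by decide +kernel)
                  (CovZ.n2 (-30636, 4800) (by decide +kernel)
                   (CovZ.leaf K2_ok TB_l48478 _)
                   (CovZ.leaf K2_ok TB_l48479 _))
                  (CovZ.leaf K2_ok TB_l38338 _))))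
               (CovZ.n1 (-30672, 4824) (by decide +kernel)
                (CovZ.n2 (-30660, 4836) (by decide +kernel)
                 (CovZ.leaf K2_ok TB_l38339 _)
                 (CovZ.leaf K2_ok TB_l38340 _))
                (CovZ.n1 (-30660, 4812) (by decide +kernel)
                 (CovZ.leaf K2_ok TB_l38341 _)
                 (CovZ.leaf K2_ok TB_l38342 _))))))
            (CovZ.n1 (-30576, 4848) (by decide +kernel)
             (CovZ.n2 (-30576, 4800) (by decide +kernel)
              (CovZ.n2 (-30600, 4824) (by decide +kernel)
               (CovZ.n2 (-30576, 4824) (by decide +kernel)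
                (CovZ.n2 (-30588, 4812) (by decide +kernel)
                 (CovZ.leaf K2_ok TB_l38343 _)
                 (CovZ.badM (by decide +kernel)))
                (CovZ.n1 (-30588, 4836) (by decide +kernel)
                 (CovZ.leaf K2_ok TB_l38344 _)
                 (CovZ.n1 (-30588, 4824) (by decide +kernel)
                  (CovZ.leaf K2_ok TB_l38345 _)
                  (CovZ.leaf K2_ok TB_l38346 _))))
               (CovZ.subM 2353129580005813370912702238579941201257275731543204001744424245738882203225086863178017286513990279769358336 (by decide +kernel)
                (CovZ.n1 (-30600, 4800) (by decide +kernel)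
                 (CovZ.n2 (-30612, 4812) (by decide +kernel)
                  (CovZ.leaf K2_ok TB_l38347 _)
                  (CovZ.n1 (-30612, 4800) (by decide +kernel)
                   (CovZ.leaf K2_ok TB_l48480 _)
                   (CovZ.leaf K2_ok TB_l48481 _)))
                 (CovZ.n1 (-30588, 4812) (by decide +kernel)
                  (CovZ.badM (by decide +kernel))
                  (CovZ.n1 (-30600, 4812) (by decide +kernel)
                   (CovZ.leaf K2_ok TB_l38348 _)
                   (CovZ.badM (by decide +kernel)))))))
              (CovZ.n1 (-30552, 4824) (by decide +kernel)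
               (CovZ.badM (by decide +kernel))
               (CovZ.n1 (-30576, 4824) (by decide +kernel)
                (CovZ.n2 (-30564, 4836) (by decide +kernel)
                 (CovZ.leaf K2_ok TB_l38349 _)
                 (CovZ.leaf K2_ok TB_l38350 _))
                (CovZ.badM (by decide +kernel)))))
             (CovZ.n1 (-30624, 4848) (by decide +kernel)
              (CovZ.n2 (-30600, 4872) (by decide +kernel)
               (CovZ.n2 (-30600, 4848) (by decide +kernel)
                (CovZ.n2 (-30612, 4860) (by decide +kernel)
                 (CovZ.leaf K2_ok TB_l38351 _)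
                 (CovZ.leaf K2_ok TB_l38352 _))
                (CovZ.leaf K2_ok TB_l38353 _))
               (CovZ.n1 (-30624, 4872) (by decide +kernel)
                (CovZ.leaf K2_ok TB_l38354 _)
                (CovZ.leaf K2_ok TB_l38355 _)))
              (CovZ.n1 (-30600, 4824) (by decide +kernel)
               (CovZ.n2 (-30624, 4824) (by decide +kernel)
                (CovZ.n2 (-30612, 4836) (by decide +kernel)
                 (CovZ.n2 (-30612, 4824) (by decide +kernel)
                  (CovZ.leaf K2_ok TB_l38356 _)
                  (CovZ.leaf K2_ok TB_l38357 _))
                 (CovZ.leaf K2_ok TB_l38358 _))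
                (CovZ.n1 (-30612, 4812) (by decide +kernel)
                 (CovZ.leaf K2_ok TB_l38359 _)
                 (CovZ.n1 (-30612, 4824) (by decide +kernel)
                  (CovZ.leaf K2_ok TB_l38360 _)
                  (CovZ.leaf K2_ok TB_l38361 _))))
               (CovZ.n1 (-30600, 4848) (by decide +kernel)
                (CovZ.n2 (-30588, 4836) (by decide +kernel)
                 (CovZ.leaf K2_ok TB_l38362 _)
                 (CovZ.leaf K2_ok TB_l38363 _))
                (CovZ.n1 (-30612, 4836) (by decide +kernel)
                 (CovZ.leaf K2_ok TB_l38364 _)
                 (CovZ.leaf K2_ok TB_l38365 _))))))))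
          (CovZ.n1 (-30720, 4896) (by decide +kernel)
           (CovZ.n2 (-30672, 4944) (by decide +kernel)
            (CovZ.n2 (-30672, 4896) (by decide +kernel)
             (CovZ.n2 (-30696, 4920) (by decide +kernel)
              (CovZ.leaf K2_ok TB_l4744 _)
              (CovZ.leaf K2_ok TB_l4745 _))
             (CovZ.n1 (-30648, 4920) (by decide +kernel)
              (CovZ.leaf K2_ok TB_l4746 _)
              (CovZ.leaf K2_ok TB_l4747 _)))
            (CovZ.n1 (-30720, 4944) (by decide +kernel)
             (CovZ.leaf K2_ok TB_l4748 _)
             (CovZ.n1 (-30696, 4920) (by decide +kernel)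
              (CovZ.leaf K2_ok TB_l4749 _)
              (CovZ.leaf K2_ok TB_l4750 _))))
           (CovZ.subM 2353129859973908229063068810441201667633463157817617751233827771615200081141957483103887458812501947570978816 (by decide +kernel)
            (CovZ.n1 (-30672, 4848) (by decide +kernel)
             (CovZ.n2 (-30720, 4848) (by decide +kernel)
              (CovZ.n2 (-30696, 4872) (by decide +kernel)
               (CovZ.n2 (-30696, 4848) (by decide +kernel)
                (CovZ.leaf K2_ok TB_l4751 _)
                (CovZ.leaf K2_ok TB_l4752 _))
               (CovZ.leaf K2_ok TB_l4753 _))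
              (CovZ.n1 (-30696, 4824) (by decide +kernel)
               (CovZ.n2 (-30720, 4824) (by decide +kernel)
                (CovZ.leaf K2_ok TB_l38366 _)
                (CovZ.leaf K2_ok TB_l38367 _))
               (CovZ.n1 (-30696, 4848) (by decide +kernel)
                (CovZ.leaf K2_ok TB_l38368 _)
                (CovZ.leaf K2_ok TB_l38369 _))))
             (CovZ.n1 (-30672, 4896) (by decide +kernel)
              (CovZ.n2 (-30648, 4872) (by decide +kernel)
               (CovZ.leaf K2_ok TB_l4754 _)
               (CovZ.leaf K2_ok TB_l4755 _))
              (CovZ.n1 (-30696, 4872) (by decide +kernel)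
               (CovZ.n2 (-30696, 4896) (by decide +kernel)
                (CovZ.leaf K2_ok TB_l4756 _)
                (CovZ.leaf K2_ok TB_l4757 _))
               (CovZ.n1 (-30672, 4872) (by decide +kernel)
                (CovZ.leaf K2_ok TB_l4758 _)
                (CovZ.leaf K2_ok TB_l4759 _))))))))
         (CovZ.subM 2353129580005813370912702238579941201257275731543204394063282707406429942961925813657168292911205558771515392 (by decide +kernel)
          (CovZ.n1 (-30624, 4704) (by decide +kernel)
           (CovZ.n2 (-30720, 4704) (by decide +kernel)
            (CovZ.n2 (-30672, 4752) (by decide +kernel)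
             (CovZ.badM (by decide +kernel))
             (CovZ.n1 (-30720, 4752) (by decide +kernel)
              (CovZ.n2 (-30696, 4776) (by decide +kernel)
               (CovZ.badM (by decide +kernel))
               (CovZ.n1 (-30720, 4776) (by decide +kernel)
                (CovZ.n2 (-30708, 4788) (by decide +kernel)
                 (CovZ.badM (by decide +kernel))
                 (CovZ.leaf K2_ok TB_l38370 _))
                (CovZ.badM (by decide +kernel))))
              (CovZ.badM (by decide +kernel))))
            (CovZ.badM (by decide +kernel)))
           (CovZ.n1 (-30624, 4800) (by decide +kernel)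
            (CovZ.badM (by decide +kernel))
            (CovZ.n1 (-30672, 4752) (by decide +kernel)
             (CovZ.n2 (-30672, 4800) (by decide +kernel)
              (CovZ.n2 (-30648, 4776) (by decide +kernel)
               (CovZ.n2 (-30672, 4776) (by decide +kernel)
                (CovZ.n2 (-30660, 4788) (by decide +kernel)
                 (CovZ.badM (by decide +kernel))
                 (CovZ.n1 (-30672, 4788) (by decide +kernel)
                  (CovZ.leaf K2_ok TB_l48482 _)
                  (CovZ.badM (by decide +kernel))))
                (CovZ.badM (by decide +kernel)))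
               (CovZ.n1 (-30648, 4800) (by decide +kernel)
                (CovZ.n2 (-30636, 4788) (by decide +kernel)
                 (CovZ.n2 (-30648, 4788) (by decide +kernel)
                  (CovZ.leaf K2_ok TB_l48483 _)
                  (CovZ.badM (by decide +kernel)))
                 (CovZ.n1 (-30636, 4800) (by decide +kernel)
                  (CovZ.badM (by decide +kernel))
                  (CovZ.leaf K2_ok TB_l48484 _)))
                (CovZ.n1 (-30660, 4788) (by decide +kernel)
                 (CovZ.n2 (-30660, 4800) (by decide +kernel)
                  (CovZ.leaf K2_ok TB_l48485 _)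
                  (CovZ.leaf K2_ok TB_l48486 _))
                 (CovZ.n1 (-30648, 4788) (by decide +kernel)
                  (CovZ.badM (by decide +kernel))
                  (CovZ.leaf K2_ok TB_l48487 _)))))
              (CovZ.n1 (-30696, 4776) (by decide +kernel)
               (CovZ.n2 (-30696, 4800) (by decide +kernel)
                (CovZ.n2 (-30684, 4788) (by decide +kernel)
                 (CovZ.n2 (-30696, 4788) (by decide +kernel)
                  (CovZ.leaf K2_ok TB_l38371 _)
                  (CovZ.badM (by decide +kernel)))
                 (CovZ.n1 (-30684, 4800) (by decide +kernel)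
                  (CovZ.leaf K2_ok TB_l38372 _)
                  (CovZ.leaf K2_ok TB_l38373 _)))
                (CovZ.n1 (-30708, 4788) (by decide +kernel)
                 (CovZ.leaf K2_ok TB_l38374 _)
                 (CovZ.leaf K2_ok TB_l38375 _)))
               (CovZ.n1 (-30672, 4776) (by decide +kernel)
                (CovZ.badM (by decide +kernel))
                (CovZ.n1 (-30684, 4788) (by decide +kernel)
                 (CovZ.n2 (-30672, 4788) (by decide +kernel)
                  (CovZ.badM (by decide +kernel))
                  (CovZ.n1 (-30678, 4794) (by decide +kernel)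
                   (CovZ.leaf K2_ok TB_l48488 _)
                   (CovZ.leaf K2_ok TB_l48489 _)))
                 (CovZ.badM (by decide +kernel))))))
             (CovZ.badM (by decide +kernel)))))))

theorem TB_u148 : CovZ TB_M (toL (selN TB_LN 5043457396718524389246931701604430553163522199506415261489068479864498082825964416475102425241764397900246224068411392)) [0, 7, 6, 1] (-30528, 4800) (-30336, 4992) (-30720, 4992) :=
    (CovZ.n1 (-30528, 4992) (by decide +kernel)
         (CovZ.subM 2353129859973908229063100864477923392163133328939067832599678364809071378973969564335400638203231693133840384 (by decide +kernel)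
          (CovZ.n2 (-30432, 4896) (by decide +kernel)
           (CovZ.n2 (-30528, 4896) (by decide +kernel)
            (CovZ.n2 (-30480, 4944) (by decide +kernel)
             (CovZ.n2 (-30480, 4896) (by decide +kernel)
              (CovZ.n2 (-30504, 4920) (by decide +kernel)
               (CovZ.leaf K2_ok TB_l4760 _)
               (CovZ.n1 (-30504, 4896) (by decide +kernel)
                (CovZ.leaf K2_ok TB_l4761 _)
                (CovZ.leaf K2_ok TB_l4762 _)))
              (CovZ.n1 (-30456, 4920) (by decide +kernel)
               (CovZ.n2 (-30456, 4896) (by decide +kernel)
                (CovZ.leaf K2_ok TB_l4763 _)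
                (CovZ.leaf K2_ok TB_l4764 _))
               (CovZ.leaf K2_ok TB_l4765 _)))
             (CovZ.n1 (-30528, 4944) (by decide +kernel)
              (CovZ.n2 (-30504, 4968) (by decide +kernel)
               (CovZ.leaf K2_ok TB_l4766 _)
               (CovZ.leaf K2_ok TB_l4767 _))
              (CovZ.n1 (-30504, 4920) (by decide +kernel)
               (CovZ.leaf K2_ok TB_l4768 _)
               (CovZ.leaf K2_ok TB_l4769 _))))
            (CovZ.n1 (-30480, 4848) (by decide +kernel)
             (CovZ.n2 (-30528, 4848) (by decide +kernel)
              (CovZ.n2 (-30504, 4872) (by decide +kernel)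
               (CovZ.n2 (-30504, 4848) (by decide +kernel)
                (CovZ.n2 (-30516, 4860) (by decide +kernel)
                 (CovZ.leaf K2_ok TB_l38376 _)
                 (CovZ.leaf K2_ok TB_l38377 _))
                (CovZ.n1 (-30492, 4860) (by decide +kernel)
                 (CovZ.leaf K2_ok TB_l38378 _)
                 (CovZ.leaf K2_ok TB_l38379 _)))
               (CovZ.n1 (-30528, 4872) (by decide +kernel)
                (CovZ.leaf K2_ok TB_l38380 _)
                (CovZ.n1 (-30516, 4860) (by decide +kernel)
                 (CovZ.leaf K2_ok TB_l38381 _)
                 (CovZ.leaf K2_ok TB_l38382 _))))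
              (CovZ.subM 2353129859973906143138229043927449328745078226614367886475364958798240498254268543885478673862832174642757632 (by decide +kernel)
               (CovZ.n1 (-30504, 4824) (by decide +kernel)
                (CovZ.n2 (-30528, 4824) (by decide +kernel)
                 (CovZ.n2 (-30516, 4836) (by decide +kernel)
                  (CovZ.n2 (-30516, 4824) (by decide +kernel)
                   (CovZ.leaf K2_ok TB_l38383 _)
                   (CovZ.leaf K2_ok TB_l38384 _))
                  (CovZ.leaf K2_ok TB_l38385 _))
                 (CovZ.badM (by decide +kernel)))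
                (CovZ.n1 (-30504, 4848) (by decide +kernel)
                 (CovZ.n2 (-30492, 4836) (by decide +kernel)
                  (CovZ.leaf K2_ok TB_l38386 _)
                  (CovZ.leaf K2_ok TB_l38387 _))
                 (CovZ.n1 (-30516, 4836) (by decide +kernel)
                  (CovZ.leaf K2_ok TB_l38388 _)
                  (CovZ.n1 (-30504, 4836) (by decide +kernel)
                   (CovZ.leaf K2_ok TB_l38389 _)
                   (CovZ.leaf K2_ok TB_l38390 _)))))))
             (CovZ.n1 (-30480, 4896) (by decide +kernel)
              (CovZ.n2 (-30456, 4872) (by decide +kernel)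
               (CovZ.n2 (-30480, 4872) (by decide +kernel)
                (CovZ.leaf K2_ok TB_l38391 _)
                (CovZ.n1 (-30468, 4860) (by decide +kernel)
                 (CovZ.leaf K2_ok TB_l38392 _)
                 (CovZ.leaf K2_ok TB_l38393 _)))
               (CovZ.n1 (-30456, 4896) (by decide +kernel)
                (CovZ.leaf K2_ok TB_l38394 _)
                (CovZ.leaf K2_ok TB_l38395 _)))
              (CovZ.n1 (-30504, 4872) (by decide +kernel)
               (CovZ.n2 (-30504, 4896) (by decide +kernel)
                (CovZ.leaf K2_ok TB_l38396 _)
                (CovZ.leaf K2_ok TB_l38397 _))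
               (CovZ.n1 (-30480, 4872) (by decide +kernel)
                (CovZ.n2 (-30492, 4860) (by decide +kernel)
                 (CovZ.leaf K2_ok TB_l38398 _)
                 (CovZ.leaf K2_ok TB_l38399 _))
                (CovZ.n1 (-30492, 4884) (by decide +kernel)
                 (CovZ.leaf K2_ok TB_l38400 _)
                 (CovZ.leaf K2_ok TB_l38401 _)))))))
           (CovZ.n1 (-30432, 4992) (by decide +kernel)
            (CovZ.n2 (-30384, 4944) (by decide +kernel)
             (CovZ.n2 (-30432, 4944) (by decide +kernel)
              (CovZ.n2 (-30408, 4968) (by decide +kernel)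
               (CovZ.n2 (-30408, 4944) (by decide +kernel)
                (CovZ.leaf K2_ok TB_l4770 _)
                (CovZ.leaf K2_ok TB_l4771 _))
               (CovZ.leaf K2_ok TB_l4772 _))
              (CovZ.n1 (-30408, 4920) (by decide +kernel)
               (CovZ.leaf K2_ok TB_l4773 _)
               (CovZ.n1 (-30408, 4944) (by decide +kernel)
                (CovZ.leaf K2_ok TB_l4774 _)
                (CovZ.leaf K2_ok TB_l4775 _))))
             (CovZ.n1 (-30384, 4992) (by decide +kernel)
              (CovZ.n2 (-30360, 4968) (by decide +kernel)
               (CovZ.leaf K2_ok TB_l4776 _)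
               (CovZ.leaf K2_ok TB_l4777 _))
              (CovZ.n1 (-30408, 4968) (by decide +kernel)
               (CovZ.leaf K2_ok TB_l4778 _)
               (CovZ.leaf K2_ok TB_l4779 _))))
            (CovZ.n1 (-30480, 4944) (by decide +kernel)
             (CovZ.n2 (-30480, 4992) (by decide +kernel)
              (CovZ.n2 (-30456, 4968) (by decide +kernel)
               (CovZ.leaf K2_ok TB_l4780 _)
               (CovZ.leaf K2_ok TB_l4781 _))
              (CovZ.n1 (-30504, 4968) (by decide +kernel)
               (CovZ.leaf K2_ok TB_l4782 _)
               (CovZ.leaf K2_ok TB_l4783 _)))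
             (CovZ.n1 (-30432, 4944) (by decide +kernel)
              (CovZ.n2 (-30456, 4920) (by decide +kernel)
               (CovZ.n2 (-30456, 4944) (by decide +kernel)
                (CovZ.leaf K2_ok TB_l4784 _)
                (CovZ.leaf K2_ok TB_l4785 _))
               (CovZ.leaf K2_ok TB_l4786 _))
              (CovZ.n1 (-30456, 4968) (by decide +kernel)
               (CovZ.leaf K2_ok TB_l4787 _)
               (CovZ.n1 (-30456, 4944) (by decide +kernel)
                (CovZ.leaf K2_ok TB_l4788 _)
                (CovZ.leaf K2_ok TB_l4789 _))))))))
         (CovZ.n1 (-30624, 4896) (by decide +kernel)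
          (CovZ.n2 (-30624, 4992) (by decide +kernel)
           (CovZ.subM 2353129859973908229063100864477923392163133328939080337763291830462155583085711110858338967114468711327596544 (by decide +kernel)
            (CovZ.n2 (-30576, 4944) (by decide +kernel)
             (CovZ.n2 (-30624, 4944) (by decide +kernel)
              (CovZ.n2 (-30600, 4968) (by decide +kernel)
               (CovZ.leaf K2_ok TB_l4790 _)
               (CovZ.leaf K2_ok TB_l4791 _))
              (CovZ.n1 (-30600, 4920) (by decide +kernel)
               (CovZ.leaf K2_ok TB_l4792 _)
               (CovZ.leaf K2_ok TB_l4793 _)))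
             (CovZ.n1 (-30576, 4992) (by decide +kernel)
              (CovZ.n2 (-30552, 4968) (by decide +kernel)
               (CovZ.leaf K2_ok TB_l4794 _)
               (CovZ.leaf K2_ok TB_l4795 _))
              (CovZ.leaf K2_ok TB_l4796 _))))
           (CovZ.n1 (-30672, 4944) (by decide +kernel)
            (CovZ.n2 (-30672, 4992) (by decide +kernel)
             (CovZ.leaf K2_ok TB_l4797 _)
             (CovZ.leaf K2_ok TB_l4798 _))
            (CovZ.n1 (-30624, 4944) (by decide +kernel)
             (CovZ.n2 (-30648, 4920) (by decide +kernel)
              (CovZ.leaf K2_ok TB_l4799 _)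
              (CovZ.leaf K2_ok TB_l4800 _))
             (CovZ.leaf K2_ok TB_l4801 _))))
          (CovZ.subM 2353129859973908229063100864477923392163133328939080337763291830462155583085711110858338967114468711327596544 (by decide +kernel)
           (CovZ.n1 (-30528, 4896) (by decide +kernel)
            (CovZ.n2 (-30576, 4848) (by decide +kernel)
             (CovZ.n2 (-30576, 4896) (by decide +kernel)
              (CovZ.n2 (-30552, 4872) (by decide +kernel)
               (CovZ.n2 (-30576, 4872) (by decide +kernel)
                (CovZ.leaf K2_ok TB_l38402 _)
                (CovZ.leaf K2_ok TB_l38403 _))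
               (CovZ.n1 (-30552, 4896) (by decide +kernel)
                (CovZ.leaf K2_ok TB_l38404 _)
                (CovZ.leaf K2_ok TB_l38405 _)))
              (CovZ.n1 (-30600, 4872) (by decide +kernel)
               (CovZ.n2 (-30600, 4896) (by decide +kernel)
                (CovZ.leaf K2_ok TB_l38406 _)
                (CovZ.leaf K2_ok TB_l38407 _))
               (CovZ.n1 (-30576, 4872) (by decide +kernel)
                (CovZ.leaf K2_ok TB_l38408 _)
                (CovZ.leaf K2_ok TB_l38409 _))))
             (CovZ.n1 (-30528, 4848) (by decide +kernel)
              (CovZ.n2 (-30552, 4824) (by decide +kernel)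
               (CovZ.n2 (-30552, 4848) (by decide +kernel)
                (CovZ.n2 (-30540, 4836) (by decide +kernel)
                 (CovZ.leaf K2_ok TB_l38410 _)
                 (CovZ.leaf K2_ok TB_l38411 _))
                (CovZ.n1 (-30564, 4836) (by decide +kernel)
                 (CovZ.leaf K2_ok TB_l38412 _)
                 (CovZ.leaf K2_ok TB_l38413 _)))
               (CovZ.subM 2353129859973906143138229043927449328745078226614367886475364958798240498254268543885478673862832174642757632 (by decide +kernel)
                (CovZ.n1 (-30528, 4824) (by decide +kernel)
                 (CovZ.n2 (-30540, 4812) (by decide +kernel)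
                  (CovZ.n2 (-30540, 4824) (by decide +kernel)
                   (CovZ.badM (by decide +kernel))
                   (CovZ.badM (by decide +kernel)))
                  (CovZ.badM (by decide +kernel)))
                 (CovZ.n1 (-30540, 4836) (by decide +kernel)
                  (CovZ.leaf K2_ok TB_l38414 _)
                  (CovZ.n1 (-30540, 4824) (by decide +kernel)
                   (CovZ.leaf K2_ok TB_l38415 _)
                   (CovZ.leaf K2_ok TB_l38416 _))))))
              (CovZ.n1 (-30552, 4872) (by decide +kernel)
               (CovZ.n2 (-30528, 4872) (by decide +kernel)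
                (CovZ.n2 (-30540, 4860) (by decide +kernel)
                 (CovZ.leaf K2_ok TB_l38417 _)
                 (CovZ.leaf K2_ok TB_l38418 _))
                (CovZ.n1 (-30540, 4884) (by decide +kernel)
                 (CovZ.leaf K2_ok TB_l38419 _)
                 (CovZ.leaf K2_ok TB_l38420 _)))
               (CovZ.n1 (-30552, 4848) (by decide +kernel)
                (CovZ.n2 (-30564, 4860) (by decide +kernel)
                 (CovZ.leaf K2_ok TB_l38421 _)
                 (CovZ.leaf K2_ok TB_l38422 _))
                (CovZ.n1 (-30540, 4860) (by decide +kernel)
                 (CovZ.leaf K2_ok TB_l38423 _)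
                 (CovZ.leaf K2_ok TB_l38424 _))))))
            (CovZ.n1 (-30576, 4944) (by decide +kernel)
             (CovZ.n2 (-30528, 4944) (by decide +kernel)
              (CovZ.n2 (-30552, 4920) (by decide +kernel)
               (CovZ.leaf K2_ok TB_l4802 _)
               (CovZ.leaf K2_ok TB_l4803 _))
              (CovZ.n1 (-30552, 4968) (by decide +kernel)
               (CovZ.leaf K2_ok TB_l4804 _)
               (CovZ.leaf K2_ok TB_l4805 _)))
             (CovZ.n1 (-30576, 4896) (by decide +kernel)
              (CovZ.n2 (-30600, 4920) (by decide +kernel)
               (CovZ.leaf K2_ok TB_l4806 _)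
               (CovZ.n1 (-30600, 4896) (by decide +kernel)
                (CovZ.leaf K2_ok TB_l4807 _)
                (CovZ.leaf K2_ok TB_l4808 _)))
              (CovZ.n1 (-30552, 4920) (by decide +kernel)
               (CovZ.n2 (-30552, 4896) (by decide +kernel)
                (CovZ.leaf K2_ok TB_l4809 _)
                (CovZ.leaf K2_ok TB_l4810 _))
               (CovZ.leaf K2_ok TB_l4811 _))))))))

theorem TB_u149 : CovZ TB_M (toL (selN TB_LN 5043457396718524389246931701604430553163522199506415261489068479864498082825964416475102425241764397900246224068411392)) [0, 7, 6, 1] (-30720, 4608) (-29952, 5376) (-30720, 6144) :=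
    (CovZ.n2 (-30720, 5376) (by decide +kernel)
     (CovZ.n2 (-30336, 5760) (by decide +kernel)
      (CovZ.n2 (-30336, 5376) (by decide +kernel)
       (CovZ.n2 (-30528, 5568) (by decide +kernel)
        (CovZ.n2 (-30336, 5568) (by decide +kernel)
         (CovZ.n2 (-30432, 5472) (by decide +kernel)
          (CovZ.leaf K2_ok TB_l4679 _)
          (CovZ.leaf K2_ok TB_l4680 _))
         (CovZ.n1 (-30432, 5664) (by decide +kernel)
          (CovZ.leaf K2_ok TB_l4681 _)
          (CovZ.leaf K2_ok TB_l4682 _)))
        (CovZ.n1 (-30528, 5376) (by decide +kernel)
         (CovZ.n2 (-30624, 5472) (by decide +kernel)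
          (CovZ.leaf K2_ok TB_l4683 _)
          (CovZ.n1 (-30624, 5376) (by decide +kernel)
           (CovZ.leaf K2_ok TB_l4684 _)
           (CovZ.leaf K2_ok TB_l4685 _)))
         (CovZ.n1 (-30432, 5472) (by decide +kernel)
          (CovZ.n2 (-30432, 5376) (by decide +kernel)
           (CovZ.leaf K2_ok TB_l4686 _)
           (CovZ.leaf K2_ok TB_l4687 _))
          (CovZ.leaf K2_ok TB_l4688 _))))
       (CovZ.n1 (-30144, 5568) (by decide +kernel)
        (CovZ.n2 (-30144, 5376) (by decide +kernel)
         (CovZ.n2 (-30240, 5472) (by decide +kernel)
          (CovZ.leaf K2_ok TB_l4689 _)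
          (CovZ.n1 (-30240, 5376) (by decide +kernel)
           (CovZ.leaf K2_ok TB_l4690 _)
           (CovZ.leaf K2_ok TB_l4691 _)))
         (CovZ.n1 (-30048, 5472) (by decide +kernel)
          (CovZ.n2 (-30048, 5376) (by decide +kernel)
           (CovZ.leaf K2_ok TB_l4692 _)
           (CovZ.leaf K2_ok TB_l4693 _))
          (CovZ.leaf K2_ok TB_l4694 _)))
        (CovZ.n1 (-30336, 5568) (by decide +kernel)
         (CovZ.n2 (-30240, 5664) (by decide +kernel)
          (CovZ.leaf K2_ok TB_l4695 _)
          (CovZ.leaf K2_ok TB_l4696 _))
         (CovZ.n1 (-30240, 5472) (by decide +kernel)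
          (CovZ.leaf K2_ok TB_l4697 _)
          (CovZ.leaf K2_ok TB_l4698 _)))))
      (CovZ.n1 (-30720, 5760) (by decide +kernel)
       (CovZ.n2 (-30528, 5952) (by decide +kernel)
        (CovZ.n2 (-30528, 5760) (by decide +kernel)
         (CovZ.leaf K2_ok TB_l4699 _)
         (CovZ.leaf K2_ok TB_l4700 _))
        (CovZ.leaf K2_ok TB_l4701 _))
       (CovZ.n1 (-30528, 5568) (by decide +kernel)
        (CovZ.n2 (-30720, 5568) (by decide +kernel)
         (CovZ.leaf K2_ok TB_l4702 _)
         (CovZ.n1 (-30624, 5472) (by decide +kernel)
          (CovZ.leaf K2_ok TB_l4703 _)
          (CovZ.leaf K2_ok TB_l4704 _)))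
        (CovZ.n1 (-30528, 5760) (by decide +kernel)
         (CovZ.n2 (-30432, 5664) (by decide +kernel)
          (CovZ.leaf K2_ok TB_l4705 _)
          (CovZ.leaf K2_ok TB_l4706 _))
         (CovZ.leaf K2_ok TB_l4707 _)))))
     (CovZ.n1 (-30336, 4992) (by decide +kernel)
      (CovZ.n2 (-30720, 4992) (by decide +kernel)
       (CovZ.n2 (-30528, 5184) (by decide +kernel)
        (CovZ.n2 (-30528, 4992) (by decide +kernel)
         (CovZ.n2 (-30624, 5088) (by decide +kernel)
          (CovZ.n2 (-30528, 5088) (by decide +kernel)
           (CovZ.n2 (-30576, 5040) (by decide +kernel)
            (CovZ.n2 (-30576, 5088) (by decide +kernel)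
             (CovZ.leaf K2_ok TB_l4708 _)
             (CovZ.leaf K2_ok TB_l4709 _))
            (CovZ.leaf K2_ok TB_l4710 _))
           (CovZ.n1 (-30576, 5136) (by decide +kernel)
            (CovZ.leaf K2_ok TB_l4711 _)
            (CovZ.leaf K2_ok TB_l4712 _)))
          (CovZ.n1 (-30624, 4992) (by decide +kernel)
           (CovZ.n2 (-30672, 5040) (by decide +kernel)
            (CovZ.leaf K2_ok TB_l4713 _)
            (CovZ.n1 (-30672, 4992) (by decide +kernel)
             (CovZ.leaf K2_ok TB_l4714 _)
             (CovZ.leaf K2_ok TB_l4715 _)))
           (CovZ.n1 (-30576, 5040) (by decide +kernel)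
            (CovZ.n2 (-30576, 4992) (by decide +kernel)
             (CovZ.leaf K2_ok TB_l4716 _)
             (CovZ.leaf K2_ok TB_l4717 _))
            (CovZ.leaf K2_ok TB_l4718 _))))
         (CovZ.n1 (-30432, 5088) (by decide +kernel)
          (CovZ.n2 (-30432, 4992) (by decide +kernel)
           (CovZ.n2 (-30480, 5040) (by decide +kernel)
            (CovZ.leaf K2_ok TB_l4719 _)
            (CovZ.n1 (-30480, 4992) (by decide +kernel)
             (CovZ.leaf K2_ok TB_l4720 _)
             (CovZ.leaf K2_ok TB_l4721 _)))
           (CovZ.subM 603580030770107121796544607322867917329282331084263267554815046560701722454106194759117279114194507055420669952 (by decide +kernel)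
            (CovZ.n1 (-30384, 5040) (by decide +kernel)
             (CovZ.n2 (-30384, 4992) (by decide +kernel)
              (CovZ.n2 (-30408, 5016) (by decide +kernel)
               (CovZ.leaf K2_ok TB_l4722 _)
               (CovZ.leaf K2_ok TB_l4723 _))
              (CovZ.n1 (-30360, 5016) (by decide +kernel)
               (CovZ.leaf K2_ok TB_l4724 _)
               (CovZ.leaf K2_ok TB_l4725 _)))
             (CovZ.n1 (-30432, 5040) (by decide +kernel)
              (CovZ.leaf K2_ok TB_l4726 _)
              (CovZ.leaf K2_ok TB_l4727 _)))))
          (CovZ.n1 (-30528, 5088) (by decide +kernel)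
           (CovZ.n2 (-30480, 5136) (by decide +kernel)
            (CovZ.leaf K2_ok TB_l4728 _)
            (CovZ.leaf K2_ok TB_l4729 _))
           (CovZ.n1 (-30480, 5040) (by decide +kernel)
            (CovZ.leaf K2_ok TB_l4730 _)
            (CovZ.n1 (-30480, 5088) (by decide +kernel)
             (CovZ.leaf K2_ok TB_l4731 _)
             (CovZ.leaf K2_ok TB_l4732 _))))))
        (CovZ.n1 (-30720, 5184) (by decide +kernel)
         (CovZ.n2 (-30624, 5280) (by decide +kernel)
          (CovZ.n2 (-30624, 5184) (by decide +kernel)
           (CovZ.leaf K2_ok TB_l4733 _)
           (CovZ.leaf K2_ok TB_l4734 _))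
          (CovZ.n1 (-30720, 5280) (by decide +kernel)
           (CovZ.leaf K2_ok TB_l4735 _)
           (CovZ.leaf K2_ok TB_l4736 _)))
         (CovZ.n1 (-30624, 5088) (by decide +kernel)
          (CovZ.n2 (-30720, 5088) (by decide +kernel)
           (CovZ.n2 (-30672, 5136) (by decide +kernel)
            (CovZ.leaf K2_ok TB_l4737 _)
            (CovZ.leaf K2_ok TB_l4738 _))
           (CovZ.n1 (-30672, 5040) (by decide +kernel)
            (CovZ.leaf K2_ok TB_l4739 _)
            (CovZ.leaf K2_ok TB_l4740 _)))
          (CovZ.n1 (-30624, 5184) (by decide +kernel)
           (CovZ.n2 (-30576, 5136) (by decide +kernel)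
            (CovZ.leaf K2_ok TB_l4741 _)
            (CovZ.leaf K2_ok TB_l4742 _))
           (CovZ.leaf K2_ok TB_l4743 _)))))
       (CovZ.n1 (-30528, 4800) (by decide +kernel)
        TB_u147
        TB_u148))
      (CovZ.n1 (-30336, 5376) (by decide +kernel)
       (CovZ.n2 (-30144, 5184) (by decide +kernel)
        (CovZ.n2 (-30336, 5184) (by decide +kernel)
         (CovZ.n2 (-30240, 5280) (by decide +kernel)
          (CovZ.n2 (-30240, 5184) (by decide +kernel)
           (CovZ.n2 (-30288, 5232) (by decide +kernel)
            (CovZ.leaf K2_ok TB_l4812 _)
            (CovZ.leaf K2_ok TB_l4813 _))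
           (CovZ.n1 (-30192, 5232) (by decide +kernel)
            (CovZ.leaf K2_ok TB_l4814 _)
            (CovZ.leaf K2_ok TB_l4815 _)))
          (CovZ.n1 (-30336, 5280) (by decide +kernel)
           (CovZ.leaf K2_ok TB_l4816 _)
           (CovZ.n1 (-30288, 5232) (by decide +kernel)
            (CovZ.leaf K2_ok TB_l4817 _)
            (CovZ.leaf K2_ok TB_l4818 _))))
         (CovZ.n1 (-30240, 5088) (by decide +kernel)
          (CovZ.n2 (-30336, 5088) (by decide +kernel)
           (CovZ.n2 (-30288, 5136) (by decide +kernel)
            (CovZ.n2 (-30288, 5088) (by decide +kernel)
             (CovZ.leaf K2_ok TB_l4819 _)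
             (CovZ.leaf K2_ok TB_l4820 _))
            (CovZ.leaf K2_ok TB_l4821 _))
           (CovZ.subM 603580030770107121796544607322867917329282331084263267554815046560701722454106194759117279114194507055420669952 (by decide +kernel)
            (CovZ.n1 (-30288, 5040) (by decide +kernel)
             (CovZ.n2 (-30336, 5040) (by decide +kernel)
              (CovZ.leaf K2_ok TB_l4822 _)
              (CovZ.n1 (-30312, 5016) (by decide +kernel)
               (CovZ.leaf K2_ok TB_l4823 _)
               (CovZ.leaf K2_ok TB_l4824 _)))
             (CovZ.n1 (-30288, 5088) (by decide +kernel)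
              (CovZ.leaf K2_ok TB_l4825 _)
              (CovZ.leaf K2_ok TB_l4826 _)))))
          (CovZ.n1 (-30240, 5184) (by decide +kernel)
           (CovZ.n2 (-30192, 5136) (by decide +kernel)
            (CovZ.leaf K2_ok TB_l4827 _)
            (CovZ.n1 (-30192, 5184) (by decide +kernel)
             (CovZ.leaf K2_ok TB_l4828 _)
             (CovZ.leaf K2_ok TB_l4829 _)))
           (CovZ.n1 (-30288, 5136) (by decide +kernel)
            (CovZ.leaf K2_ok TB_l4830 _)
            (CovZ.leaf K2_ok TB_l4831 _)))))
        (CovZ.n1 (-30144, 5376) (by decide +kernel)
         (CovZ.n2 (-30048, 5280) (by decide +kernel)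
          (CovZ.n2 (-30144, 5280) (by decide +kernel)
           (CovZ.leaf K2_ok TB_l4832 _)
           (CovZ.n1 (-30096, 5232) (by decide +kernel)
            (CovZ.leaf K2_ok TB_l4833 _)
            (CovZ.leaf K2_ok TB_l4834 _)))
          (CovZ.n1 (-30048, 5376) (by decide +kernel)
           (CovZ.leaf K2_ok TB_l4835 _)
           (CovZ.leaf K2_ok TB_l4836 _)))
         (CovZ.n1 (-30240, 5280) (by decide +kernel)
          (CovZ.n2 (-30240, 5376) (by decide +kernel)
           (CovZ.leaf K2_ok TB_l4837 _)
           (CovZ.leaf K2_ok TB_l4838 _))
          (CovZ.n1 (-30144, 5280) (by decide +kernel)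
           (CovZ.n2 (-30192, 5232) (by decide +kernel)
            (CovZ.leaf K2_ok TB_l4839 _)
            (CovZ.leaf K2_ok TB_l4840 _))
           (CovZ.leaf K2_ok TB_l4841 _)))))
       (CovZ.n1 (-30528, 5184) (by decide +kernel)
        (CovZ.n2 (-30528, 5376) (by decide +kernel)
         (CovZ.n2 (-30432, 5280) (by decide +kernel)
          (CovZ.n2 (-30528, 5280) (by decide +kernel)
           (CovZ.leaf K2_ok TB_l4842 _)
           (CovZ.leaf K2_ok TB_l4843 _))
          (CovZ.n1 (-30432, 5376) (by decide +kernel)
           (CovZ.leaf K2_ok TB_l4844 _)
           (CovZ.leaf K2_ok TB_l4845 _)))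
         (CovZ.n1 (-30624, 5280) (by decide +kernel)
          (CovZ.n2 (-30624, 5376) (by decide +kernel)
           (CovZ.leaf K2_ok TB_l4846 _)
           (CovZ.leaf K2_ok TB_l4847 _))
          (CovZ.n1 (-30528, 5280) (by decide +kernel)
           (CovZ.leaf K2_ok TB_l4848 _)
           (CovZ.leaf K2_ok TB_l4849 _))))
        (CovZ.n1 (-30336, 5184) (by decide +kernel)
         (CovZ.n2 (-30432, 5088) (by decide +kernel)
          (CovZ.n2 (-30432, 5184) (by decide +kernel)
           (CovZ.n2 (-30384, 5136) (by decide +kernel)
            (CovZ.leaf K2_ok TB_l4850 _)
            (CovZ.leaf K2_ok TB_l4851 _))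
           (CovZ.n1 (-30480, 5136) (by decide +kernel)
            (CovZ.leaf K2_ok TB_l4852 _)
            (CovZ.leaf K2_ok TB_l4853 _)))
          (CovZ.n1 (-30336, 5088) (by decide +kernel)
           (CovZ.subM 603580030770107121796544607322867917329282331084263267554815046560701722454106194759117279114194507055420669952 (by decide +kernel)
            (CovZ.n2 (-30384, 5040) (by decide +kernel)
             (CovZ.n2 (-30384, 5088) (by decide +kernel)
              (CovZ.leaf K2_ok TB_l4854 _)
              (CovZ.leaf K2_ok TB_l4855 _))
             (CovZ.n1 (-30336, 5040) (by decide +kernel)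
              (CovZ.n2 (-30360, 5016) (by decide +kernel)
               (CovZ.leaf K2_ok TB_l4856 _)
               (CovZ.leaf K2_ok TB_l4857 _))
              (CovZ.leaf K2_ok TB_l4858 _))))
           (CovZ.n1 (-30384, 5136) (by decide +kernel)
            (CovZ.leaf K2_ok TB_l4859 _)
            (CovZ.n1 (-30384, 5088) (by decide +kernel)
             (CovZ.leaf K2_ok TB_l4860 _)
             (CovZ.leaf K2_ok TB_l4861 _)))))
         (CovZ.n1 (-30432, 5280) (by decide +kernel)
          (CovZ.n2 (-30336, 5280) (by decide +kernel)
           (CovZ.leaf K2_ok TB_l4862 _)
           (CovZ.leaf K2_ok TB_l4863 _))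
          (CovZ.n1 (-30432, 5184) (by decide +kernel)
           (CovZ.leaf K2_ok TB_l4864 _)
           (CovZ.leaf K2_ok TB_l4865 _))))))))

theorem TB_u150 : CovZ TB_M (toL (selN TB_LN 5043457396718524389246931701604430553163522199506415261489068479864498082825964416475102425241764397900246224068411392)) [0, 7, 6, 1] (-29952, 5376) (-29184, 6144) (-30720, 6144) :=
    (CovZ.n1 (-29952, 6144) (by decide +kernel)
     (CovZ.n2 (-29568, 5760) (by decide +kernel)
      (CovZ.n2 (-29952, 5760) (by decide +kernel)
       (CovZ.n2 (-29760, 5952) (by decide +kernel)
        (CovZ.n2 (-29760, 5760) (by decide +kernel)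
         (CovZ.leaf K2_ok TB_l4866 _)
         (CovZ.n1 (-29664, 5856) (by decide +kernel)
          (CovZ.leaf K2_ok TB_l4867 _)
          (CovZ.leaf K2_ok TB_l4868 _)))
        (CovZ.n1 (-29952, 5952) (by decide +kernel)
         (CovZ.leaf K2_ok TB_l4869 _)
         (CovZ.leaf K2_ok TB_l4870 _)))
       (CovZ.n1 (-29760, 5568) (by decide +kernel)
        (CovZ.n2 (-29952, 5568) (by decide +kernel)
         (CovZ.n2 (-29856, 5664) (by decide +kernel)
          (CovZ.n2 (-29856, 5568) (by decide +kernel)
           (CovZ.leaf K2_ok TB_l4871 _)
           (CovZ.leaf K2_ok TB_l4872 _))
          (CovZ.leaf K2_ok TB_l4873 _))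
         (CovZ.n1 (-29856, 5472) (by decide +kernel)
          (CovZ.n2 (-29952, 5472) (by decide +kernel)
           (CovZ.leaf K2_ok TB_l4874 _)
           (CovZ.leaf K2_ok TB_l4875 _))
          (CovZ.n1 (-29856, 5568) (by decide +kernel)
           (CovZ.leaf K2_ok TB_l4876 _)
           (CovZ.leaf K2_ok TB_l4877 _))))
        (CovZ.n1 (-29760, 5760) (by decide +kernel)
         (CovZ.n2 (-29664, 5664) (by decide +kernel)
          (CovZ.leaf K2_ok TB_l4878 _)
          (CovZ.leaf K2_ok TB_l4879 _))
         (CovZ.n1 (-29856, 5664) (by decide +kernel)
          (CovZ.leaf K2_ok TB_l4880 _)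
          (CovZ.leaf K2_ok TB_l4881 _)))))
      (CovZ.n1 (-29568, 6144) (by decide +kernel)
       (CovZ.n2 (-29376, 5952) (by decide +kernel)
        (CovZ.n2 (-29568, 5952) (by decide +kernel)
         (CovZ.leaf K2_ok TB_l4882 _)
         (CovZ.n1 (-29472, 5856) (by decide +kernel)
          (CovZ.leaf K2_ok TB_l4883 _)
          (CovZ.leaf K2_ok TB_l4884 _)))
        (CovZ.n1 (-29376, 6144) (by decide +kernel)
         (CovZ.leaf K2_ok TB_l4885 _)
         (CovZ.leaf K2_ok TB_l4886 _)))
       (CovZ.n1 (-29760, 5952) (by decide +kernel)
        (CovZ.n2 (-29760, 6144) (by decide +kernel)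
         (CovZ.leaf K2_ok TB_l4887 _)
         (CovZ.leaf K2_ok TB_l4888 _))
        (CovZ.n1 (-29568, 5952) (by decide +kernel)
         (CovZ.leaf K2_ok TB_l4889 _)
         (CovZ.leaf K2_ok TB_l4890 _)))))
     (CovZ.n1 (-30336, 5760) (by decide +kernel)
      (CovZ.n2 (-30336, 6144) (by decide +kernel)
       (CovZ.n2 (-30144, 5952) (by decide +kernel)
        (CovZ.n2 (-30336, 5952) (by decide +kernel)
         (CovZ.leaf K2_ok TB_l4891 _)
         (CovZ.leaf K2_ok TB_l4892 _))
        (CovZ.n1 (-30144, 6144) (by decide +kernel)
         (CovZ.leaf K2_ok TB_l4893 _)
         (CovZ.leaf K2_ok TB_l4894 _)))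
       (CovZ.n1 (-30528, 5952) (by decide +kernel)
        (CovZ.n2 (-30528, 6144) (by decide +kernel)
         (CovZ.leaf K2_ok TB_l4895 _)
         (CovZ.leaf K2_ok TB_l4896 _))
        (CovZ.n1 (-30336, 5952) (by decide +kernel)
         (CovZ.leaf K2_ok TB_l4897 _)
         (CovZ.leaf K2_ok TB_l4898 _))))
      (CovZ.n1 (-29952, 5760) (by decide +kernel)
       (CovZ.n2 (-30144, 5568) (by decide +kernel)
        (CovZ.n2 (-30144, 5760) (by decide +kernel)
         (CovZ.n2 (-30048, 5664) (by decide +kernel)
          (CovZ.leaf K2_ok TB_l4899 _)
          (CovZ.leaf K2_ok TB_l4900 _))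
         (CovZ.leaf K2_ok TB_l4901 _))
        (CovZ.n1 (-29952, 5568) (by decide +kernel)
         (CovZ.n2 (-30048, 5472) (by decide +kernel)
          (CovZ.n2 (-30048, 5568) (by decide +kernel)
           (CovZ.leaf K2_ok TB_l4902 _)
           (CovZ.leaf K2_ok TB_l4903 _))
          (CovZ.leaf K2_ok TB_l4904 _))
         (CovZ.n1 (-30048, 5664) (by decide +kernel)
          (CovZ.leaf K2_ok TB_l4905 _)
          (CovZ.leaf K2_ok TB_l4906 _))))
       (CovZ.n1 (-30144, 5952) (by decide +kernel)
        (CovZ.n2 (-29952, 5952) (by decide +kernel)
         (CovZ.leaf K2_ok TB_l4907 _)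
         (CovZ.leaf K2_ok TB_l4908 _))
        (CovZ.n1 (-30144, 5760) (by decide +kernel)
         (CovZ.leaf K2_ok TB_l4909 _)
         (CovZ.leaf K2_ok TB_l4910 _))))))

theorem TB_u151 : CovZ TB_M (toL (selN TB_LN 5043456793138493339171717132834296910615319799168549412020101190462358845626619740723539552682754284440341568458588160)) [0, 7, 6, 1] (-27648, 5376) (-27648, 5760) (-28032, 5760) :=
    (CovZ.n2 (-27840, 5568) (by decide +kernel)
         (CovZ.n2 (-27840, 5760) (by decide +kernel)
          (CovZ.subM 5043456793138493339171717132834296910615319799168549412020098051911491152197034815449821022031427475369101528253071360 (by decide +kernel)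
           (CovZ.n2 (-27744, 5664) (by decide +kernel)
            (CovZ.n2 (-27840, 5664) (by decide +kernel)
             (CovZ.n2 (-27792, 5712) (by decide +kernel)
              (CovZ.badM (by decide +kernel))
              (CovZ.n1 (-27840, 5712) (by decide +kernel)
               (CovZ.n2 (-27816, 5736) (by decide +kernel)
                (CovZ.badM (by decide +kernel))
                (CovZ.n1 (-27840, 5736) (by decide +kernel)
                 (CovZ.leaf K2_ok TB_l7505 _)
                 (CovZ.leaf K2_ok TB_l38592 _)))
               (CovZ.badM (by decide +kernel))))
             (CovZ.badM (by decide +kernel)))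
            (CovZ.n1 (-27744, 5760) (by decide +kernel)
             (CovZ.badM (by decide +kernel))
             (CovZ.n1 (-27792, 5712) (by decide +kernel)
              (CovZ.n2 (-27792, 5760) (by decide +kernel)
               (CovZ.badM (by decide +kernel))
               (CovZ.n1 (-27816, 5736) (by decide +kernel)
                (CovZ.n2 (-27816, 5760) (by decide +kernel)
                 (CovZ.n2 (-27804, 5748) (by decide +kernel)
                  (CovZ.leaf K2_ok TB_l38593 _)
                  (CovZ.leaf K2_ok TB_l38594 _))
                 (CovZ.leaf K2_ok TB_l7506 _))
                (CovZ.badM (by decide +kernel))))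
              (CovZ.badM (by decide +kernel))))))
          (CovZ.n1 (-27936, 5664) (by decide +kernel)
           (CovZ.n2 (-27936, 5760) (by decide +kernel)
            (CovZ.n2 (-27888, 5712) (by decide +kernel)
             (CovZ.n2 (-27936, 5712) (by decide +kernel)
              (CovZ.n2 (-27912, 5736) (by decide +kernel)
               (CovZ.leaf K2_ok TB_l7507 _)
               (CovZ.leaf K2_ok TB_l7508 _))
              (CovZ.n1 (-27912, 5688) (by decide +kernel)
               (CovZ.leaf K2_ok TB_l7509 _)
               (CovZ.n1 (-27912, 5712) (by decide +kernel)
                (CovZ.leaf K2_ok TB_l7510 _)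
                (CovZ.leaf K2_ok TB_l7511 _))))
             (CovZ.n1 (-27888, 5760) (by decide +kernel)
              (CovZ.n2 (-27864, 5736) (by decide +kernel)
               (CovZ.leaf K2_ok TB_l7512 _)
               (CovZ.leaf K2_ok TB_l7513 _))
              (CovZ.leaf K2_ok TB_l7514 _)))
            (CovZ.n1 (-27984, 5712) (by decide +kernel)
             (CovZ.leaf K2_ok TB_l7515 _)
             (CovZ.leaf K2_ok TB_l7516 _)))
           (CovZ.subM 5043456793138493339171717132834296910615319799168549412020098051911491152286237796243943514597570348459694974276993024 (by decide +kernel)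
            (CovZ.n1 (-27840, 5664) (by decide +kernel)
             (CovZ.n2 (-27888, 5616) (by decide +kernel)
              (CovZ.n2 (-27888, 5664) (by decide +kernel)
               (CovZ.badM (by decide +kernel))
               (CovZ.n1 (-27912, 5640) (by decide +kernel)
                (CovZ.n2 (-27912, 5664) (by decide +kernel)
                 (CovZ.n2 (-27900, 5652) (by decide +kernel)
                  (CovZ.leaf K2_ok TB_l48500 _)
                  (CovZ.leaf K2_ok TB_l48501 _))
                 (CovZ.leaf K2_ok TB_l7517 _))
                (CovZ.badM (by decide +kernel))))
              (CovZ.badM (by decide +kernel)))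
             (CovZ.n1 (-27888, 5712) (by decide +kernel)
              (CovZ.n2 (-27840, 5712) (by decide +kernel)
               (CovZ.n2 (-27864, 5688) (by decide +kernel)
                (CovZ.n2 (-27864, 5712) (by decide +kernel)
                 (CovZ.n2 (-27852, 5700) (by decide +kernel)
                  (CovZ.leaf K2_ok TB_l38595 _)
                  (CovZ.leaf K2_ok TB_l38596 _))
                 (CovZ.leaf K2_ok TB_l7518 _))
                (CovZ.badM (by decide +kernel)))
               (CovZ.n1 (-27864, 5736) (by decide +kernel)
                (CovZ.leaf K2_ok TB_l7519 _)
                (CovZ.n1 (-27864, 5712) (by decide +kernel)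
                 (CovZ.leaf K2_ok TB_l7520 _)
                 (CovZ.leaf K2_ok TB_l7521 _))))
              (CovZ.n1 (-27888, 5664) (by decide +kernel)
               (CovZ.n2 (-27912, 5688) (by decide +kernel)
                (CovZ.n2 (-27888, 5688) (by decide +kernel)
                 (CovZ.leaf K2_ok TB_l7522 _)
                 (CovZ.leaf K2_ok TB_l7523 _))
                (CovZ.n1 (-27912, 5664) (by decide +kernel)
                 (CovZ.leaf K2_ok TB_l7524 _)
                 (CovZ.leaf K2_ok TB_l7525 _)))
               (CovZ.n1 (-27864, 5688) (by decide +kernel)
                (CovZ.badM (by decide +kernel))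
                (CovZ.n1 (-27888, 5688) (by decide +kernel)
                 (CovZ.leaf K2_ok TB_l7526 _)
                 (CovZ.n1 (-27876, 5676) (by decide +kernel)
                  (CovZ.leaf K2_ok TB_l38597 _)
                  (CovZ.leaf K2_ok TB_l38598 _))))))))))
         (CovZ.badM (by decide +kernel)))

theorem TB_u152 : CovZ TB_M (toL (selN TB_LN 5043456793138493339171717132834296910615319799168549412020101190462358845626619740723539552682754284440341568458588160)) [0, 7, 6, 1] (-27648, 5760) (-27648, 6144) (-28032, 5760) :=
    (CovZ.n1 (-27840, 5952) (by decide +kernel)
         (CovZ.n2 (-27648, 5952) (by decide +kernel)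
          (CovZ.n2 (-27744, 5856) (by decide +kernel)
           (CovZ.n2 (-27744, 5952) (by decide +kernel)
            (CovZ.n2 (-27696, 5904) (by decide +kernel)
             (CovZ.n2 (-27744, 5904) (by decide +kernel)
              (CovZ.leaf K2_ok TB_l7527 _)
              (CovZ.n1 (-27720, 5880) (by decide +kernel)
               (CovZ.leaf K2_ok TB_l7528 _)
               (CovZ.leaf K2_ok TB_l7529 _)))
             (CovZ.n1 (-27696, 5952) (by decide +kernel)
              (CovZ.n2 (-27672, 5928) (by decide +kernel)
               (CovZ.leaf K2_ok TB_l7530 _)
               (CovZ.leaf K2_ok TB_l7531 _))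
              (CovZ.leaf K2_ok TB_l7532 _)))
            (CovZ.n1 (-27792, 5904) (by decide +kernel)
             (CovZ.leaf K2_ok TB_l7533 _)
             (CovZ.leaf K2_ok TB_l7534 _)))
           (CovZ.subM 5043456793138493339171717132834296910615319799168549412020098051911491152197034820767057523724749393711112925395025920 (by decide +kernel)
            (CovZ.n1 (-27648, 5856) (by decide +kernel)
             (CovZ.n2 (-27696, 5808) (by decide +kernel)
              (CovZ.n2 (-27696, 5856) (by decide +kernel)
               (CovZ.subM 5043456793138493339171717132818382567050206626619577180079399785028276555371519688491726174770846371464700460236013568 (by decide +kernel)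
                (CovZ.n2 (-27672, 5832) (by decide +kernel)
                 (CovZ.n2 (-27696, 5832) (by decide +kernel)
                  (CovZ.n2 (-27684, 5844) (by decide +kernel)
                   (CovZ.badM (by decide +kernel))
                   (CovZ.leaf K2_ok TB_l38599 _))
                  (CovZ.badM (by decide +kernel)))
                 (CovZ.n1 (-27672, 5856) (by decide +kernel)
                  (CovZ.badM (by decide +kernel))
                  (CovZ.n1 (-27684, 5844) (by decide +kernel)
                   (CovZ.leaf K2_ok TB_l38600 _)
                   (CovZ.badM (by decide +kernel))))))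
               (CovZ.n1 (-27720, 5832) (by decide +kernel)
                (CovZ.n2 (-27720, 5856) (by decide +kernel)
                 (CovZ.leaf K2_ok TB_l38601 _)
                 (CovZ.leaf K2_ok TB_l7535 _))
                (CovZ.n1 (-27696, 5832) (by decide +kernel)
                 (CovZ.n2 (-27708, 5820) (by decide +kernel)
                  (CovZ.leaf K2_ok TB_l38602 _)
                  (CovZ.badM (by decide +kernel)))
                 (CovZ.leaf K2_ok TB_l38603 _))))
              (CovZ.badM (by decide +kernel)))
             (CovZ.n1 (-27696, 5904) (by decide +kernel)
              (CovZ.n2 (-27648, 5904) (by decide +kernel)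
               (CovZ.n2 (-27672, 5880) (by decide +kernel)
                (CovZ.leaf K2_ok TB_l7536 _)
                (CovZ.n1 (-27648, 5880) (by decide +kernel)
                 (CovZ.leaf K2_ok TB_l38604 _)
                 (CovZ.leaf K2_ok TB_l38605 _)))
               (CovZ.n1 (-27672, 5928) (by decide +kernel)
                (CovZ.leaf K2_ok TB_l7537 _)
                (CovZ.leaf K2_ok TB_l7538 _)))
              (CovZ.n1 (-27696, 5856) (by decide +kernel)
               (CovZ.n2 (-27720, 5880) (by decide +kernel)
                (CovZ.leaf K2_ok TB_l7539 _)
                (CovZ.n1 (-27720, 5856) (by decide +kernel)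
                 (CovZ.leaf K2_ok TB_l7540 _)
                 (CovZ.leaf K2_ok TB_l7541 _)))
               (CovZ.n1 (-27672, 5880) (by decide +kernel)
                (CovZ.n2 (-27672, 5856) (by decide +kernel)
                 (CovZ.leaf K2_ok TB_l38606 _)
                 (CovZ.n1 (-27660, 5868) (by decide +kernel)
                  (CovZ.badM (by decide +kernel))
                  (CovZ.leaf K2_ok TB_l38607 _)))
                (CovZ.n1 (-27696, 5880) (by decide +kernel)
                 (CovZ.leaf K2_ok TB_l7542 _)
                 (CovZ.leaf K2_ok TB_l38608 _))))))))
          (CovZ.n1 (-27744, 6048) (by decide +kernel)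
           (CovZ.n2 (-27648, 6048) (by decide +kernel)
            (CovZ.n2 (-27696, 6000) (by decide +kernel)
             (CovZ.leaf K2_ok TB_l7543 _)
             (CovZ.leaf K2_ok TB_l7544 _))
            (CovZ.leaf K2_ok TB_l7545 _))
           (CovZ.n1 (-27744, 5952) (by decide +kernel)
            (CovZ.leaf K2_ok TB_l7546 _)
            (CovZ.n1 (-27696, 6000) (by decide +kernel)
             (CovZ.n2 (-27696, 5952) (by decide +kernel)
              (CovZ.leaf K2_ok TB_l7547 _)
              (CovZ.leaf K2_ok TB_l7548 _))
             (CovZ.leaf K2_ok TB_l7549 _)))))
         (CovZ.n1 (-27840, 5760) (by decide +kernel)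
          (CovZ.n2 (-27936, 5856) (by decide +kernel)
           (CovZ.n2 (-27840, 5856) (by decide +kernel)
            (CovZ.n2 (-27888, 5808) (by decide +kernel)
             (CovZ.leaf K2_ok TB_l7550 _)
             (CovZ.leaf K2_ok TB_l7551 _))
            (CovZ.n1 (-27888, 5904) (by decide +kernel)
             (CovZ.leaf K2_ok TB_l7552 _)
             (CovZ.leaf K2_ok TB_l7553 _)))
           (CovZ.n1 (-27936, 5760) (by decide +kernel)
            (CovZ.n2 (-27984, 5808) (by decide +kernel)
             (CovZ.leaf K2_ok TB_l7554 _)
             (CovZ.leaf K2_ok TB_l7555 _))
            (CovZ.n1 (-27888, 5808) (by decide +kernel)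
             (CovZ.n2 (-27888, 5760) (by decide +kernel)
              (CovZ.leaf K2_ok TB_l7556 _)
              (CovZ.leaf K2_ok TB_l7557 _))
             (CovZ.leaf K2_ok TB_l7558 _))))
          (CovZ.n1 (-27744, 5856) (by decide +kernel)
           (CovZ.subM 5043456793138493339171717132834296910615319799168549412020098051911491152197034815450145540585085902095884684273647616 (by decide +kernel)
            (CovZ.n2 (-27744, 5760) (by decide +kernel)
             (CovZ.n2 (-27792, 5808) (by decide +kernel)
              (CovZ.n2 (-27744, 5808) (by decide +kernel)
               (CovZ.n2 (-27768, 5784) (by decide +kernel)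
                (CovZ.n2 (-27768, 5808) (by decide +kernel)
                 (CovZ.leaf K2_ok TB_l38609 _)
                 (CovZ.leaf K2_ok TB_l7559 _))
                (CovZ.badM (by decide +kernel)))
               (CovZ.n1 (-27768, 5832) (by decide +kernel)
                (CovZ.leaf K2_ok TB_l7560 _)
                (CovZ.n1 (-27768, 5808) (by decide +kernel)
                 (CovZ.leaf K2_ok TB_l7561 _)
                 (CovZ.leaf K2_ok TB_l7562 _))))
              (CovZ.n1 (-27792, 5760) (by decide +kernel)
               (CovZ.n2 (-27816, 5784) (by decide +kernel)
                (CovZ.leaf K2_ok TB_l7563 _)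
                (CovZ.n1 (-27816, 5760) (by decide +kernel)
                 (CovZ.leaf K2_ok TB_l7564 _)
                 (CovZ.leaf K2_ok TB_l7565 _)))
               (CovZ.n1 (-27768, 5784) (by decide +kernel)
                (CovZ.badM (by decide +kernel))
                (CovZ.n1 (-27792, 5784) (by decide +kernel)
                 (CovZ.leaf K2_ok TB_l7566 _)
                 (CovZ.n1 (-27780, 5772) (by decide +kernel)
                  (CovZ.leaf K2_ok TB_l38610 _)
                  (CovZ.leaf K2_ok TB_l38611 _))))))
             (CovZ.n1 (-27696, 5808) (by decide +kernel)
              (CovZ.badM (by decide +kernel))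
              (CovZ.n1 (-27744, 5808) (by decide +kernel)
               (CovZ.n2 (-27720, 5832) (by decide +kernel)
                (CovZ.n2 (-27720, 5808) (by decide +kernel)
                 (CovZ.leaf K2_ok TB_l38612 _)
                 (CovZ.n1 (-27708, 5820) (by decide +kernel)
                  (CovZ.badM (by decide +kernel))
                  (CovZ.leaf K2_ok TB_l38613 _)))
                (CovZ.n1 (-27744, 5832) (by decide +kernel)
                 (CovZ.leaf K2_ok TB_l7567 _)
                 (CovZ.n1 (-27732, 5820) (by decide +kernel)
                  (CovZ.leaf K2_ok TB_l38614 _)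
                  (CovZ.leaf K2_ok TB_l38615 _))))
               (CovZ.badM (by decide +kernel))))))
           (CovZ.n1 (-27840, 5856) (by decide +kernel)
            (CovZ.n2 (-27792, 5904) (by decide +kernel)
             (CovZ.n2 (-27792, 5856) (by decide +kernel)
              (CovZ.leaf K2_ok TB_l7568 _)
              (CovZ.leaf K2_ok TB_l7569 _))
             (CovZ.leaf K2_ok TB_l7570 _))
            (CovZ.n1 (-27792, 5808) (by decide +kernel)
             (CovZ.n2 (-27840, 5808) (by decide +kernel)
              (CovZ.n2 (-27816, 5832) (by decide +kernel)
               (CovZ.leaf K2_ok TB_l7571 _)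
               (CovZ.leaf K2_ok TB_l7572 _))
              (CovZ.n1 (-27816, 5784) (by decide +kernel)
               (CovZ.leaf K2_ok TB_l7573 _)
               (CovZ.leaf K2_ok TB_l7574 _)))
             (CovZ.n1 (-27792, 5856) (by decide +kernel)
              (CovZ.n2 (-27768, 5832) (by decide +kernel)
               (CovZ.leaf K2_ok TB_l7575 _)
               (CovZ.leaf K2_ok TB_l7576 _))
              (CovZ.leaf K2_ok TB_l7577 _)))))))

theorem TB_u153 : CovZ TB_M (toL (selN TB_LN 5043457394365394529273023472541361742722320531872952156327596513869502811658601535404892151680296402947766973017096192)) [0, 7, 6, 1] (-28032, 5760) (-28224, 5568) (-28032, 5376) :=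
    (CovZ.subM 5043456793138493339171717132834296910615319799168549412020101190462358845626619735406627569543090792825113326808727552 (by decide +kernel)
         (CovZ.n2 (-28032, 5568) (by decide +kernel)
          (CovZ.n2 (-28128, 5472) (by decide +kernel)
           (CovZ.n2 (-28128, 5568) (by decide +kernel)
            (CovZ.n2 (-28080, 5520) (by decide +kernel)
             (CovZ.n2 (-28128, 5520) (by decide +kernel)
              (CovZ.n2 (-28104, 5544) (by decide +kernel)
               (CovZ.leaf K2_ok TB_l7578 _)
               (CovZ.leaf K2_ok TB_l7579 _))
              (CovZ.n1 (-28104, 5496) (by decide +kernel)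
               (CovZ.leaf K2_ok TB_l7580 _)
               (CovZ.n1 (-28104, 5520) (by decide +kernel)
                (CovZ.leaf K2_ok TB_l7581 _)
                (CovZ.leaf K2_ok TB_l7582 _))))
             (CovZ.n1 (-28080, 5568) (by decide +kernel)
              (CovZ.n2 (-28056, 5544) (by decide +kernel)
               (CovZ.leaf K2_ok TB_l7583 _)
               (CovZ.leaf K2_ok TB_l7584 _))
              (CovZ.leaf K2_ok TB_l7585 _)))
            (CovZ.n1 (-28176, 5520) (by decide +kernel)
             (CovZ.n2 (-28176, 5568) (by decide +kernel)
              (CovZ.leaf K2_ok TB_l7586 _)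
              (CovZ.leaf K2_ok TB_l7587 _))
             (CovZ.n1 (-28128, 5520) (by decide +kernel)
              (CovZ.n2 (-28152, 5496) (by decide +kernel)
               (CovZ.leaf K2_ok TB_l7588 _)
               (CovZ.leaf K2_ok TB_l7589 _))
              (CovZ.leaf K2_ok TB_l7590 _))))
           (CovZ.subM 5043456793138493339171717132834296910615319799168549412020098051911491152286237817510293372941590608013475314680201216 (by decide +kernel)
            (CovZ.n1 (-28032, 5472) (by decide +kernel)
             (CovZ.n2 (-28080, 5424) (by decide +kernel)
              (CovZ.n2 (-28080, 5472) (by decide +kernel)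
               (CovZ.n2 (-28056, 5448) (by decide +kernel)
                (CovZ.badM (by decide +kernel))
                (CovZ.n1 (-28056, 5472) (by decide +kernel)
                 (CovZ.badM (by decide +kernel))
                 (CovZ.n1 (-28068, 5460) (by decide +kernel)
                  (CovZ.n2 (-28068, 5472) (by decide +kernel)
                   (CovZ.badM (by decide +kernel))
                   (CovZ.badM (by decide +kernel)))
                  (CovZ.badM (by decide +kernel)))))
               (CovZ.n1 (-28104, 5448) (by decide +kernel)
                (CovZ.n2 (-28104, 5472) (by decide +kernel)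
                 (CovZ.n2 (-28092, 5460) (by decide +kernel)
                  (CovZ.leaf K2_ok TB_l38616 _)
                  (CovZ.n1 (-28092, 5472) (by decide +kernel)
                   (CovZ.badM (by decide +kernel))
                   (CovZ.leaf K2_ok TB_l38618 _)))
                 (CovZ.n1 (-28116, 5460) (by decide +kernel)
                  (CovZ.leaf K2_ok TB_l38619 _)
                  (CovZ.leaf K2_ok TB_l38620 _)))
                (CovZ.badM (by decide +kernel))))
              (CovZ.badM (by decide +kernel)))
             (CovZ.n1 (-28080, 5520) (by decide +kernel)
              (CovZ.n2 (-28032, 5520) (by decide +kernel)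
               (CovZ.n2 (-28056, 5496) (by decide +kernel)
                (CovZ.n2 (-28056, 5520) (by decide +kernel)
                 (CovZ.n2 (-28044, 5508) (by decide +kernel)
                  (CovZ.leaf K2_ok TB_l38625 _)
                  (CovZ.leaf K2_ok TB_l38626 _))
                 (CovZ.leaf K2_ok TB_l38627 _))
                (CovZ.badM (by decide +kernel)))
               (CovZ.n1 (-28056, 5544) (by decide +kernel)
                (CovZ.leaf K2_ok TB_l7591 _)
                (CovZ.n1 (-28056, 5520) (by decide +kernel)
                 (CovZ.leaf K2_ok TB_l7592 _)
                 (CovZ.leaf K2_ok TB_l7593 _))))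
              (CovZ.n1 (-28080, 5472) (by decide +kernel)
               (CovZ.n2 (-28104, 5496) (by decide +kernel)
                (CovZ.n2 (-28080, 5496) (by decide +kernel)
                 (CovZ.n2 (-28092, 5484) (by decide +kernel)
                  (CovZ.leaf K2_ok TB_l38628 _)
                  (CovZ.leaf K2_ok TB_l38629 _))
                 (CovZ.leaf K2_ok TB_l38630 _))
                (CovZ.n1 (-28104, 5472) (by decide +kernel)
                 (CovZ.leaf K2_ok TB_l38631 _)
                 (CovZ.n1 (-28092, 5484) (by decide +kernel)
                  (CovZ.leaf K2_ok TB_l38632 _)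
                  (CovZ.leaf K2_ok TB_l38633 _))))
               (CovZ.n1 (-28056, 5496) (by decide +kernel)
                (CovZ.n2 (-28056, 5472) (by decide +kernel)
                 (CovZ.n2 (-28068, 5484) (by decide +kernel)
                  (CovZ.n2 (-28056, 5484) (by decide +kernel)
                   (CovZ.leaf K2_ok TB_l38634 _)
                   (CovZ.leaf K2_ok TB_l38635 _))
                  (CovZ.n1 (-28068, 5472) (by decide +kernel)
                   (CovZ.leaf K2_ok TB_l38636 _)
                   (CovZ.leaf K2_ok TB_l38637 _)))
                 (CovZ.badM (by decide +kernel)))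
                (CovZ.n1 (-28080, 5496) (by decide +kernel)
                 (CovZ.n2 (-28068, 5508) (by decide +kernel)
                  (CovZ.leaf K2_ok TB_l38638 _)
                  (CovZ.leaf K2_ok TB_l38639 _))
                 (CovZ.n1 (-28068, 5484) (by decide +kernel)
                  (CovZ.leaf K2_ok TB_l38640 _)
                  (CovZ.leaf K2_ok TB_l38641 _)))))))))
          (CovZ.n1 (-28128, 5664) (by decide +kernel)
           (CovZ.n2 (-28032, 5664) (by decide +kernel)
            (CovZ.n2 (-28080, 5616) (by decide +kernel)
             (CovZ.n2 (-28080, 5664) (by decide +kernel)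
              (CovZ.leaf K2_ok TB_l7594 _)
              (CovZ.leaf K2_ok TB_l7595 _))
             (CovZ.n1 (-28032, 5616) (by decide +kernel)
              (CovZ.leaf K2_ok TB_l7596 _)
              (CovZ.leaf K2_ok TB_l7597 _)))
            (CovZ.n1 (-28080, 5712) (by decide +kernel)
             (CovZ.leaf K2_ok TB_l7598 _)
             (CovZ.leaf K2_ok TB_l7599 _)))
           (CovZ.n1 (-28128, 5568) (by decide +kernel)
            (CovZ.n2 (-28176, 5616) (by decide +kernel)
             (CovZ.leaf K2_ok TB_l7600 _)
             (CovZ.n1 (-28176, 5568) (by decide +kernel)
              (CovZ.leaf K2_ok TB_l7601 _)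
              (CovZ.leaf K2_ok TB_l7602 _)))
            (CovZ.n1 (-28080, 5616) (by decide +kernel)
             (CovZ.n2 (-28080, 5568) (by decide +kernel)
              (CovZ.leaf K2_ok TB_l7603 _)
              (CovZ.n1 (-28056, 5592) (by decide +kernel)
               (CovZ.leaf K2_ok TB_l7604 _)
               (CovZ.leaf K2_ok TB_l7605 _)))
             (CovZ.leaf K2_ok TB_l7606 _))))))

theorem TB_u154 : CovZ TB_M (toL (selN TB_LN 5043457394365394529273023472541361742722320531872952156327596513869502811658601535404892151680296402947766973017096192)) [0, 7, 6, 1] (-28224, 5568) (-28416, 5376) (-28032, 5376) :=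
    (CovZ.n1 (-28224, 5376) (by decide +kernel)
         (CovZ.n2 (-28320, 5472) (by decide +kernel)
          (CovZ.subM 5043456793138493339171717132834296910615319799168549412020101190462358845537416754612505076976947919734519880784805888 (by decide +kernel)
           (CovZ.n2 (-28224, 5472) (by decide +kernel)
            (CovZ.n2 (-28272, 5424) (by decide +kernel)
             (CovZ.n2 (-28272, 5472) (by decide +kernel)
              (CovZ.n2 (-28248, 5448) (by decide +kernel)
               (CovZ.leaf K2_ok TB_l7607 _)
               (CovZ.leaf K2_ok TB_l7608 _))
              (CovZ.leaf K2_ok TB_l7609 _))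
             (CovZ.n1 (-28224, 5424) (by decide +kernel)
              (CovZ.n2 (-28248, 5400) (by decide +kernel)
               (CovZ.n2 (-28248, 5424) (by decide +kernel)
                (CovZ.leaf K2_ok TB_l7610 _)
                (CovZ.leaf K2_ok TB_l7611 _))
               (CovZ.n1 (-28224, 5400) (by decide +kernel)
                (CovZ.leaf K2_ok TB_l7612 _)
                (CovZ.leaf K2_ok TB_l7613 _)))
              (CovZ.n1 (-28248, 5448) (by decide +kernel)
               (CovZ.leaf K2_ok TB_l7614 _)
               (CovZ.leaf K2_ok TB_l7615 _))))
            (CovZ.n1 (-28272, 5520) (by decide +kernel)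
             (CovZ.leaf K2_ok TB_l7616 _)
             (CovZ.n1 (-28272, 5472) (by decide +kernel)
              (CovZ.leaf K2_ok TB_l7617 _)
              (CovZ.leaf K2_ok TB_l7618 _)))))
          (CovZ.n1 (-28320, 5376) (by decide +kernel)
           (CovZ.n2 (-28368, 5424) (by decide +kernel)
            (CovZ.leaf K2_ok TB_l7619 _)
            (CovZ.n1 (-28368, 5376) (by decide +kernel)
             (CovZ.leaf K2_ok TB_l7620 _)
             (CovZ.leaf K2_ok TB_l7621 _)))
           (CovZ.subM 5043456793138493339171717132834296910615319799168549412020101190462358845537416754612505076976947919734519880784805888 (by decide +kernel)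
            (CovZ.n1 (-28272, 5424) (by decide +kernel)
             (CovZ.n2 (-28272, 5376) (by decide +kernel)
              (CovZ.n2 (-28296, 5400) (by decide +kernel)
               (CovZ.leaf K2_ok TB_l7622 _)
               (CovZ.leaf K2_ok TB_l7623 _))
              (CovZ.n1 (-28248, 5400) (by decide +kernel)
               (CovZ.n2 (-28248, 5376) (by decide +kernel)
                (CovZ.leaf K2_ok TB_l7624 _)
                (CovZ.leaf K2_ok TB_l7625 _))
               (CovZ.leaf K2_ok TB_l7626 _)))
             (CovZ.n1 (-28320, 5424) (by decide +kernel)
              (CovZ.leaf K2_ok TB_l7627 _)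
              (CovZ.n1 (-28296, 5400) (by decide +kernel)
               (CovZ.leaf K2_ok TB_l7628 _)
               (CovZ.leaf K2_ok TB_l7629 _)))))))
         (CovZ.subM 5043456793138493339171717132834296910615319799168549412020101190462358845537416754612505076976947919734519880784805888 (by decide +kernel)
          (CovZ.n1 (-28128, 5472) (by decide +kernel)
           (CovZ.subM 5043456793138493339171717132818382567050206626619577173497381555743452386751642979528674013183923168484161347244785664 (by decide +kernel)
            (CovZ.n2 (-28128, 5376) (by decide +kernel)
             (CovZ.n2 (-28176, 5424) (by decide +kernel)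
              (CovZ.n2 (-28128, 5424) (by decide +kernel)
               (CovZ.n2 (-28152, 5400) (by decide +kernel)
                (CovZ.n2 (-28152, 5424) (by decide +kernel)
                 (CovZ.badM (by decide +kernel))
                 (CovZ.n1 (-28164, 5412) (by decide +kernel)
                  (CovZ.leaf K2_ok TB_l38642 _)
                  (CovZ.badM (by decide +kernel))))
                (CovZ.badM (by decide +kernel)))
               (CovZ.n1 (-28152, 5448) (by decide +kernel)
                (CovZ.n2 (-28128, 5448) (by decide +kernel)
                 (CovZ.leaf K2_ok TB_l38643 _)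
                 (CovZ.leaf K2_ok TB_l38644 _))
                (CovZ.n1 (-28152, 5424) (by decide +kernel)
                 (CovZ.leaf K2_ok TB_l38645 _)
                 (CovZ.n1 (-28140, 5436) (by decide +kernel)
                  (CovZ.leaf K2_ok TB_l38646 _)
                  (CovZ.leaf K2_ok TB_l38647 _)))))
              (CovZ.n1 (-28176, 5376) (by decide +kernel)
               (CovZ.n2 (-28200, 5400) (by decide +kernel)
                (CovZ.n2 (-28176, 5400) (by decide +kernel)
                 (CovZ.n2 (-28188, 5388) (by decide +kernel)
                  (CovZ.leaf K2_ok TB_l38648 _)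
                  (CovZ.badM (by decide +kernel)))
                 (CovZ.leaf K2_ok TB_l38649 _))
                (CovZ.n1 (-28200, 5376) (by decide +kernel)
                 (CovZ.n2 (-28212, 5388) (by decide +kernel)
                  (CovZ.leaf K2_ok TB_l38650 _)
                  (CovZ.leaf K2_ok TB_l38651 _))
                 (CovZ.n1 (-28188, 5388) (by decide +kernel)
                  (CovZ.badM (by decide +kernel))
                  (CovZ.leaf K2_ok TB_l38652 _))))
               (CovZ.n1 (-28152, 5400) (by decide +kernel)
                (CovZ.badM (by decide +kernel))
                (CovZ.n1 (-28176, 5400) (by decide +kernel)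
                 (CovZ.n2 (-28164, 5412) (by decide +kernel)
                  (CovZ.badM (by decide +kernel))
                  (CovZ.leaf K2_ok TB_l38653 _))
                 (CovZ.badM (by decide +kernel))))))
             (CovZ.n1 (-28080, 5424) (by decide +kernel)
              (CovZ.badM (by decide +kernel))
              (CovZ.n1 (-28128, 5424) (by decide +kernel)
               (CovZ.n2 (-28104, 5448) (by decide +kernel)
                (CovZ.badM (by decide +kernel))
                (CovZ.n1 (-28128, 5448) (by decide +kernel)
                 (CovZ.n2 (-28116, 5460) (by decide +kernel)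
                  (CovZ.leaf K2_ok TB_l38654 _)
                  (CovZ.leaf K2_ok TB_l38655 _))
                 (CovZ.n1 (-28116, 5436) (by decide +kernel)
                  (CovZ.n2 (-28128, 5436) (by decide +kernel)
                   (CovZ.leaf K2_ok TB_l38656 _)
                   (CovZ.badM (by decide +kernel)))
                  (CovZ.n1 (-28116, 5448) (by decide +kernel)
                   (CovZ.badM (by decide +kernel))
                   (CovZ.leaf K2_ok TB_l38657 _)))))
               (CovZ.badM (by decide +kernel))))))
           (CovZ.n1 (-28224, 5472) (by decide +kernel)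
            (CovZ.n2 (-28176, 5520) (by decide +kernel)
             (CovZ.n2 (-28176, 5472) (by decide +kernel)
              (CovZ.leaf K2_ok TB_l7630 _)
              (CovZ.n1 (-28152, 5496) (by decide +kernel)
               (CovZ.leaf K2_ok TB_l7631 _)
               (CovZ.leaf K2_ok TB_l7632 _)))
             (CovZ.leaf K2_ok TB_l7633 _))
            (CovZ.n1 (-28176, 5424) (by decide +kernel)
             (CovZ.n2 (-28224, 5424) (by decide +kernel)
              (CovZ.n2 (-28200, 5448) (by decide +kernel)
               (CovZ.n2 (-28200, 5424) (by decide +kernel)
                (CovZ.leaf K2_ok TB_l7634 _)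
                (CovZ.leaf K2_ok TB_l7635 _))
               (CovZ.leaf K2_ok TB_l7636 _))
              (CovZ.subM 5043456793138493339171717132834296910615319799168549412020098051911491152197034836716170880375447734922881868656279552 (by decide +kernel)
               (CovZ.n1 (-28200, 5400) (by decide +kernel)
                (CovZ.n2 (-28224, 5400) (by decide +kernel)
                 (CovZ.leaf K2_ok TB_l7637 _)
                 (CovZ.leaf K2_ok TB_l38658 _))
                (CovZ.n1 (-28200, 5424) (by decide +kernel)
                 (CovZ.leaf K2_ok TB_l7638 _)
                 (CovZ.leaf K2_ok TB_l7639 _)))))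
             (CovZ.n1 (-28176, 5472) (by decide +kernel)
              (CovZ.n2 (-28152, 5448) (by decide +kernel)
               (CovZ.leaf K2_ok TB_l7640 _)
               (CovZ.n1 (-28152, 5472) (by decide +kernel)
                (CovZ.leaf K2_ok TB_l38659 _)
                (CovZ.leaf K2_ok TB_l7641 _)))
              (CovZ.n1 (-28200, 5448) (by decide +kernel)
               (CovZ.leaf K2_ok TB_l7642 _)
               (CovZ.leaf K2_ok TB_l7643 _))))))))

theorem TB_u155 : CovZ TB_M (toL (selN TB_LN 5043457394365394529273023472541361742722320531872952156327596513869502811658601535404892151680296402947766973017096192)) [0, 7, 6, 1] (-27648, 4608) (-27648, 5376) (-28416, 5376) :=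
    (CovZ.n2 (-28032, 4992) (by decide +kernel)
      (CovZ.n2 (-28032, 5376) (by decide +kernel)
       (CovZ.badM (by decide +kernel))
       (CovZ.n1 (-28224, 5184) (by decide +kernel)
        (CovZ.n2 (-28224, 5376) (by decide +kernel)
         (CovZ.subM 5043456793138493339171717132818382567050206626619577173497381555743452386751642979528674013183923168484161347244785664 (by decide +kernel)
          (CovZ.n2 (-28128, 5280) (by decide +kernel)
           (CovZ.n2 (-28224, 5280) (by decide +kernel)
            (CovZ.n2 (-28176, 5328) (by decide +kernel)
             (CovZ.badM (by decide +kernel))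
             (CovZ.n1 (-28224, 5328) (by decide +kernel)
              (CovZ.n2 (-28200, 5352) (by decide +kernel)
               (CovZ.badM (by decide +kernel))
               (CovZ.n1 (-28224, 5352) (by decide +kernel)
                (CovZ.n2 (-28212, 5364) (by decide +kernel)
                 (CovZ.badM (by decide +kernel))
                 (CovZ.leaf K2_ok TB_l38562 _))
                (CovZ.badM (by decide +kernel))))
              (CovZ.badM (by decide +kernel))))
            (CovZ.badM (by decide +kernel)))
           (CovZ.n1 (-28128, 5376) (by decide +kernel)
            (CovZ.badM (by decide +kernel))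
            (CovZ.n1 (-28176, 5328) (by decide +kernel)
             (CovZ.n2 (-28176, 5376) (by decide +kernel)
              (CovZ.badM (by decide +kernel))
              (CovZ.n1 (-28200, 5352) (by decide +kernel)
               (CovZ.n2 (-28200, 5376) (by decide +kernel)
                (CovZ.badM (by decide +kernel))
                (CovZ.n1 (-28212, 5364) (by decide +kernel)
                 (CovZ.n2 (-28212, 5376) (by decide +kernel)
                  (CovZ.leaf K2_ok TB_l38563 _)
                  (CovZ.leaf K2_ok TB_l38564 _))
                 (CovZ.badM (by decide +kernel))))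
               (CovZ.badM (by decide +kernel))))
             (CovZ.badM (by decide +kernel))))))
         (CovZ.n1 (-28320, 5280) (by decide +kernel)
          (CovZ.n2 (-28320, 5376) (by decide +kernel)
           (CovZ.subM 5043456793138493339171717132834296910615319799168549412020101190462358845537416754612180558423289493007736724755841024 (by decide +kernel)
            (CovZ.n2 (-28272, 5328) (by decide +kernel)
             (CovZ.n2 (-28320, 5328) (by decide +kernel)
              (CovZ.n2 (-28296, 5352) (by decide +kernel)
               (CovZ.n2 (-28296, 5328) (by decide +kernel)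
                (CovZ.leaf K2_ok TB_l7484 _)
                (CovZ.leaf K2_ok TB_l7485 _))
               (CovZ.n1 (-28320, 5352) (by decide +kernel)
                (CovZ.leaf K2_ok TB_l7486 _)
                (CovZ.leaf K2_ok TB_l7487 _)))
              (CovZ.n1 (-28296, 5304) (by decide +kernel)
               (CovZ.n2 (-28320, 5304) (by decide +kernel)
                (CovZ.leaf K2_ok TB_l7488 _)
                (CovZ.n1 (-28308, 5292) (by decide +kernel)
                 (CovZ.leaf K2_ok TB_l38565 _)
                 (CovZ.leaf K2_ok TB_l38566 _)))
               (CovZ.n1 (-28296, 5328) (by decide +kernel)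
                (CovZ.n2 (-28284, 5316) (by decide +kernel)
                 (CovZ.leaf K2_ok TB_l38567 _)
                 (CovZ.leaf K2_ok TB_l38568 _))
                (CovZ.leaf K2_ok TB_l7489 _))))
             (CovZ.n1 (-28272, 5376) (by decide +kernel)
              (CovZ.n2 (-28248, 5352) (by decide +kernel)
               (CovZ.n2 (-28272, 5352) (by decide +kernel)
                (CovZ.leaf K2_ok TB_l7490 _)
                (CovZ.n1 (-28260, 5340) (by decide +kernel)
                 (CovZ.leaf K2_ok TB_l38569 _)
                 (CovZ.n1 (-28260, 5352) (by decide +kernel)
                  (CovZ.leaf K2_ok TB_l38570 _)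
                  (CovZ.leaf K2_ok TB_l38571 _))))
               (CovZ.n1 (-28248, 5376) (by decide +kernel)
                (CovZ.n2 (-28236, 5364) (by decide +kernel)
                 (CovZ.leaf K2_ok TB_l38572 _)
                 (CovZ.leaf K2_ok TB_l38573 _))
                (CovZ.leaf K2_ok TB_l7491 _)))
              (CovZ.n1 (-28296, 5352) (by decide +kernel)
               (CovZ.n2 (-28296, 5376) (by decide +kernel)
                (CovZ.leaf K2_ok TB_l7492 _)
                (CovZ.leaf K2_ok TB_l7493 _))
               (CovZ.leaf K2_ok TB_l7494 _)))))
           (CovZ.n1 (-28368, 5328) (by decide +kernel)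
            (CovZ.n2 (-28368, 5376) (by decide +kernel)
             (CovZ.n2 (-28344, 5352) (by decide +kernel)
              (CovZ.leaf K2_ok TB_l7495 _)
              (CovZ.leaf K2_ok TB_l7496 _))
             (CovZ.n1 (-28392, 5352) (by decide +kernel)
              (CovZ.leaf K2_ok TB_l7497 _)
              (CovZ.leaf K2_ok TB_l7498 _)))
            (CovZ.subM 5043456793138493339171717132834296910615319799168549412020101190462358845537416754612180558423289493007736724764229632 (by decide +kernel)
             (CovZ.n1 (-28320, 5328) (by decide +kernel)
              (CovZ.n2 (-28344, 5304) (by decide +kernel)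
               (CovZ.n2 (-28344, 5328) (by decide +kernel)
                (CovZ.leaf K2_ok TB_l7499 _)
                (CovZ.leaf K2_ok TB_l7500 _))
               (CovZ.n1 (-28320, 5304) (by decide +kernel)
                (CovZ.leaf K2_ok TB_l7501 _)
                (CovZ.leaf K2_ok TB_l7502 _)))
              (CovZ.n1 (-28344, 5352) (by decide +kernel)
               (CovZ.leaf K2_ok TB_l7503 _)
               (CovZ.leaf K2_ok TB_l7504 _))))))
          (CovZ.subM 5043456793138493339171717132818382567050206626619577173497381555743452386751642979528674013183923168484161347244785664 (by decide +kernel)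
           (CovZ.n1 (-28224, 5280) (by decide +kernel)
            (CovZ.n2 (-28272, 5232) (by decide +kernel)
             (CovZ.n2 (-28272, 5280) (by decide +kernel)
              (CovZ.badM (by decide +kernel))
              (CovZ.n1 (-28296, 5256) (by decide +kernel)
               (CovZ.n2 (-28296, 5280) (by decide +kernel)
                (CovZ.badM (by decide +kernel))
                (CovZ.n1 (-28308, 5268) (by decide +kernel)
                 (CovZ.n2 (-28308, 5280) (by decide +kernel)
                  (CovZ.badM (by decide +kernel))
                  (CovZ.leaf K2_ok TB_l38574 _))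
                 (CovZ.badM (by decide +kernel))))
               (CovZ.badM (by decide +kernel))))
             (CovZ.badM (by decide +kernel)))
            (CovZ.n1 (-28272, 5328) (by decide +kernel)
             (CovZ.n2 (-28224, 5328) (by decide +kernel)
              (CovZ.n2 (-28248, 5304) (by decide +kernel)
               (CovZ.n2 (-28248, 5328) (by decide +kernel)
                (CovZ.badM (by decide +kernel))
                (CovZ.n1 (-28260, 5316) (by decide +kernel)
                 (CovZ.n2 (-28260, 5328) (by decide +kernel)
                  (CovZ.leaf K2_ok TB_l48497 _)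
                  (CovZ.leaf K2_ok TB_l38575 _))
                 (CovZ.badM (by decide +kernel))))
               (CovZ.badM (by decide +kernel)))
              (CovZ.n1 (-28248, 5352) (by decide +kernel)
               (CovZ.n2 (-28224, 5352) (by decide +kernel)
                (CovZ.n2 (-28236, 5340) (by decide +kernel)
                 (CovZ.leaf K2_ok TB_l38576 _)
                 (CovZ.badM (by decide +kernel)))
                (CovZ.n1 (-28236, 5364) (by decide +kernel)
                 (CovZ.leaf K2_ok TB_l38577 _)
                 (CovZ.leaf K2_ok TB_l38578 _)))
               (CovZ.n1 (-28248, 5328) (by decide +kernel)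
                (CovZ.n2 (-28260, 5340) (by decide +kernel)
                 (CovZ.leaf K2_ok TB_l38579 _)
                 (CovZ.n1 (-28260, 5328) (by decide +kernel)
                  (CovZ.leaf K2_ok TB_l38580 _)
                  (CovZ.leaf K2_ok TB_l38581 _)))
                (CovZ.n1 (-28236, 5340) (by decide +kernel)
                 (CovZ.badM (by decide +kernel))
                 (CovZ.leaf K2_ok TB_l38582 _)))))
             (CovZ.n1 (-28272, 5280) (by decide +kernel)
              (CovZ.n2 (-28296, 5304) (by decide +kernel)
               (CovZ.n2 (-28272, 5304) (by decide +kernel)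
                (CovZ.n2 (-28284, 5292) (by decide +kernel)
                 (CovZ.n2 (-28284, 5304) (by decide +kernel)
                  (CovZ.leaf K2_ok TB_l48498 _)
                  (CovZ.leaf K2_ok TB_l38583 _))
                 (CovZ.badM (by decide +kernel)))
                (CovZ.n1 (-28284, 5316) (by decide +kernel)
                 (CovZ.leaf K2_ok TB_l38584 _)
                 (CovZ.n1 (-28284, 5304) (by decide +kernel)
                  (CovZ.leaf K2_ok TB_l38585 _)
                  (CovZ.leaf K2_ok TB_l38586 _))))
               (CovZ.n1 (-28296, 5280) (by decide +kernel)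
                (CovZ.n2 (-28308, 5292) (by decide +kernel)
                 (CovZ.leaf K2_ok TB_l38587 _)
                 (CovZ.n1 (-28308, 5280) (by decide +kernel)
                  (CovZ.leaf K2_ok TB_l38588 _)
                  (CovZ.leaf K2_ok TB_l38589 _)))
                (CovZ.n1 (-28284, 5292) (by decide +kernel)
                 (CovZ.badM (by decide +kernel))
                 (CovZ.n1 (-28296, 5292) (by decide +kernel)
                  (CovZ.leaf K2_ok TB_l38590 _)
                  (CovZ.leaf K2_ok TB_l48499 _)))))
              (CovZ.n1 (-28248, 5304) (by decide +kernel)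
               (CovZ.badM (by decide +kernel))
               (CovZ.n1 (-28272, 5304) (by decide +kernel)
                (CovZ.n2 (-28260, 5316) (by decide +kernel)
                 (CovZ.badM (by decide +kernel))
                 (CovZ.leaf K2_ok TB_l38591 _))
                (CovZ.badM (by decide +kernel))))))))))
        (CovZ.badM (by decide +kernel))))
      (CovZ.badM (by decide +kernel)))

theorem TB_u156 : CovZ TB_M (toL (selN TB_LN 5043457394365394529273023472541361742722320531872952156327596513869502811658601535404892151680296402947766973017096192)) [0, 7, 6, 1] (-27648, 5376) (-27648, 6144) (-28416, 5376) :=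
    (CovZ.n1 (-28032, 5760) (by decide +kernel)
      (CovZ.subM 5043456793138493339171717132834296910615319799168549412020101190462358845626619740723539552682754284440341568458588160 (by decide +kernel)
       (CovZ.n2 (-27648, 5760) (by decide +kernel)
        TB_u151
        TB_u152))
      (CovZ.n1 (-28032, 5376) (by decide +kernel)
       (CovZ.n2 (-28224, 5568) (by decide +kernel)
        TB_u153
        TB_u154)
       (CovZ.subM 5043456793138493339171717132834296910615319799168549412020101190462358845626619735406627569543090792825113326800338944 (by decide +kernel)
        (CovZ.n1 (-27840, 5568) (by decide +kernel)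
         (CovZ.badM (by decide +kernel))
         (CovZ.n1 (-28032, 5568) (by decide +kernel)
          (CovZ.n2 (-27936, 5664) (by decide +kernel)
           (CovZ.n2 (-27936, 5568) (by decide +kernel)
            (CovZ.n2 (-27984, 5616) (by decide +kernel)
             (CovZ.n2 (-27936, 5616) (by decide +kernel)
              (CovZ.subM 5043456793138493339171717132834296910615319799168549412020098051911491152286237796242645440382936641552562350194688000 (by decide +kernel)
               (CovZ.n2 (-27960, 5592) (by decide +kernel)
                (CovZ.n2 (-27960, 5616) (by decide +kernel)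
                 (CovZ.n2 (-27948, 5604) (by decide +kernel)
                  (CovZ.leaf K2_ok TB_l48502 _)
                  (CovZ.leaf K2_ok TB_l48503 _))
                 (CovZ.leaf K2_ok TB_l7644 _))
                (CovZ.badM (by decide +kernel))))
              (CovZ.n1 (-27960, 5640) (by decide +kernel)
               (CovZ.leaf K2_ok TB_l7645 _)
               (CovZ.n1 (-27960, 5616) (by decide +kernel)
                (CovZ.leaf K2_ok TB_l7646 _)
                (CovZ.leaf K2_ok TB_l7647 _))))
             (CovZ.n1 (-27984, 5568) (by decide +kernel)
              (CovZ.n2 (-28008, 5592) (by decide +kernel)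
               (CovZ.leaf K2_ok TB_l7648 _)
               (CovZ.n1 (-28008, 5568) (by decide +kernel)
                (CovZ.leaf K2_ok TB_l7649 _)
                (CovZ.leaf K2_ok TB_l7650 _)))
              (CovZ.subM 5043456793138493339171717132834296910615319799168549412020098051911491152286237796242645440382936641552562350194688000 (by decide +kernel)
               (CovZ.n1 (-27960, 5592) (by decide +kernel)
                (CovZ.badM (by decide +kernel))
                (CovZ.n1 (-27984, 5592) (by decide +kernel)
                 (CovZ.leaf K2_ok TB_l7651 _)
                 (CovZ.n1 (-27972, 5580) (by decide +kernel)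
                  (CovZ.leaf K2_ok TB_l38660 _)
                  (CovZ.leaf K2_ok TB_l38661 _)))))))
            (CovZ.n1 (-27888, 5616) (by decide +kernel)
             (CovZ.badM (by decide +kernel))
             (CovZ.n1 (-27936, 5616) (by decide +kernel)
              (CovZ.n2 (-27912, 5640) (by decide +kernel)
               (CovZ.badM (by decide +kernel))
               (CovZ.n1 (-27936, 5640) (by decide +kernel)
                (CovZ.leaf K2_ok TB_l7652 _)
                (CovZ.n1 (-27924, 5628) (by decide +kernel)
                 (CovZ.leaf K2_ok TB_l48504 _)
                 (CovZ.leaf K2_ok TB_l48505 _))))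
              (CovZ.badM (by decide +kernel)))))
           (CovZ.n1 (-28032, 5664) (by decide +kernel)
            (CovZ.n2 (-27984, 5712) (by decide +kernel)
             (CovZ.n2 (-27984, 5664) (by decide +kernel)
              (CovZ.leaf K2_ok TB_l7653 _)
              (CovZ.n1 (-27960, 5688) (by decide +kernel)
               (CovZ.leaf K2_ok TB_l7654 _)
               (CovZ.leaf K2_ok TB_l7655 _)))
             (CovZ.leaf K2_ok TB_l7656 _))
            (CovZ.n1 (-27984, 5616) (by decide +kernel)
             (CovZ.n2 (-28032, 5616) (by decide +kernel)
              (CovZ.leaf K2_ok TB_l7657 _)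
              (CovZ.n1 (-28008, 5592) (by decide +kernel)
               (CovZ.leaf K2_ok TB_l7658 _)
               (CovZ.n1 (-28008, 5616) (by decide +kernel)
                (CovZ.leaf K2_ok TB_l7659 _)
                (CovZ.leaf K2_ok TB_l7660 _))))
             (CovZ.n1 (-27984, 5664) (by decide +kernel)
              (CovZ.n2 (-27960, 5640) (by decide +kernel)
               (CovZ.leaf K2_ok TB_l7661 _)
               (CovZ.n1 (-27960, 5664) (by decide +kernel)
                (CovZ.leaf K2_ok TB_l7662 _)
                (CovZ.leaf K2_ok TB_l7663 _)))
              (CovZ.leaf K2_ok TB_l7664 _)))))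
          (CovZ.n1 (-27936, 5472) (by decide +kernel)
           (CovZ.n2 (-28032, 5472) (by decide +kernel)
            (CovZ.n2 (-27984, 5520) (by decide +kernel)
             (CovZ.badM (by decide +kernel))
             (CovZ.n1 (-28032, 5520) (by decide +kernel)
              (CovZ.n2 (-28008, 5544) (by decide +kernel)
               (CovZ.badM (by decide +kernel))
               (CovZ.n1 (-28032, 5544) (by decide +kernel)
                (CovZ.leaf K2_ok TB_l7665 _)
                (CovZ.n1 (-28020, 5532) (by decide +kernel)
                 (CovZ.leaf K2_ok TB_l38662 _)
                 (CovZ.leaf K2_ok TB_l38663 _))))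
              (CovZ.badM (by decide +kernel))))
            (CovZ.badM (by decide +kernel)))
           (CovZ.n1 (-27936, 5568) (by decide +kernel)
            (CovZ.badM (by decide +kernel))
            (CovZ.n1 (-27984, 5520) (by decide +kernel)
             (CovZ.n2 (-27984, 5568) (by decide +kernel)
              (CovZ.badM (by decide +kernel))
              (CovZ.n1 (-28008, 5544) (by decide +kernel)
               (CovZ.n2 (-28008, 5568) (by decide +kernel)
                (CovZ.n2 (-27996, 5556) (by decide +kernel)
                 (CovZ.leaf K2_ok TB_l38664 _)
                 (CovZ.leaf K2_ok TB_l38665 _))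
                (CovZ.leaf K2_ok TB_l7666 _))
               (CovZ.badM (by decide +kernel))))
             (CovZ.badM (by decide +kernel))))))))))

theorem TB_u157 : CovZ TB_M (toL (selN TB_LN 5043457394365394529273023472541361742722320531872952156327596513869502811658601535404892151680296402947766973017096192)) [0, 7, 6, 1] (-28416, 4992) (-28416, 5184) (-28608, 5184) :=
    (CovZ.subM 15945426267388784214106949913228811021412737295198630583819025350234540179834781361504256 (by decide +kernel)
          (CovZ.n2 (-28512, 5088) (by decide +kernel)
           (CovZ.n2 (-28512, 5184) (by decide +kernel)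
            (CovZ.n2 (-28464, 5136) (by decide +kernel)
             (CovZ.n2 (-28512, 5136) (by decide +kernel)
              (CovZ.n2 (-28488, 5160) (by decide +kernel)
               (CovZ.badM (by decide +kernel))
               (CovZ.n1 (-28512, 5160) (by decide +kernel)
                (CovZ.n2 (-28500, 5172) (by decide +kernel)
                 (CovZ.n2 (-28500, 5160) (by decide +kernel)
                  (CovZ.leaf K2_ok TB_l38666 _)
                  (CovZ.leaf K2_ok TB_l38667 _))
                 (CovZ.leaf K2_ok TB_l38668 _))
                (CovZ.subM 6582021367835691861960258648124113623764151513712041685411692544 (by decide +kernel)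
                 (CovZ.n1 (-28500, 5148) (by decide +kernel)
                  (CovZ.n2 (-28512, 5148) (by decide +kernel)
                   (CovZ.leaf K2_ok TB_l38669 _)
                   (CovZ.badM (by decide +kernel)))
                  (CovZ.n1 (-28500, 5160) (by decide +kernel)
                   (CovZ.badM (by decide +kernel))
                   (CovZ.leaf K2_ok TB_l38670 _))))))
              (CovZ.badM (by decide +kernel)))
             (CovZ.n1 (-28464, 5184) (by decide +kernel)
              (CovZ.subM 15914343565113172548972231940698266883214596825515148225742779819235070365314032510959616 (by decide +kernel)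
               (CovZ.n2 (-28440, 5160) (by decide +kernel)
                (CovZ.n2 (-28464, 5160) (by decide +kernel)
                 (CovZ.n2 (-28452, 5172) (by decide +kernel)
                  (CovZ.badM (by decide +kernel))
                  (CovZ.n1 (-28464, 5172) (by decide +kernel)
                   (CovZ.leaf K2_ok TB_l38671 _)
                   (CovZ.leaf K2_ok TB_l38672 _)))
                 (CovZ.badM (by decide +kernel)))
                (CovZ.n1 (-28440, 5184) (by decide +kernel)
                 (CovZ.n2 (-28428, 5172) (by decide +kernel)
                  (CovZ.n2 (-28440, 5172) (by decide +kernel)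
                   (CovZ.leaf K2_ok TB_l38673 _)
                   (CovZ.badM (by decide +kernel)))
                  (CovZ.n1 (-28428, 5184) (by decide +kernel)
                   (CovZ.badM (by decide +kernel))
                   (CovZ.n1 (-28434, 5178) (by decide +kernel)
                    (CovZ.leaf K2_ok TB_l38674 _)
                    (CovZ.badM (by decide +kernel)))))
                 (CovZ.n1 (-28452, 5172) (by decide +kernel)
                  (CovZ.n2 (-28452, 5184) (by decide +kernel)
                   (CovZ.leaf K2_ok TB_l38675 _)
                   (CovZ.leaf K2_ok TB_l38676 _))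
                  (CovZ.n1 (-28440, 5172) (by decide +kernel)
                   (CovZ.badM (by decide +kernel))
                   (CovZ.n1 (-28446, 5178) (by decide +kernel)
                    (CovZ.leaf K2_ok TB_l38677 _)
                    (CovZ.badM (by decide +kernel))))))))
              (CovZ.n1 (-28488, 5160) (by decide +kernel)
               (CovZ.n2 (-28488, 5184) (by decide +kernel)
                (CovZ.n2 (-28476, 5172) (by decide +kernel)
                 (CovZ.leaf K2_ok TB_l38678 _)
                 (CovZ.n1 (-28476, 5184) (by decide +kernel)
                  (CovZ.leaf K2_ok TB_l38679 _)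
                  (CovZ.leaf K2_ok TB_l38680 _)))
                (CovZ.n1 (-28500, 5172) (by decide +kernel)
                 (CovZ.n2 (-28500, 5184) (by decide +kernel)
                  (CovZ.leaf K2_ok TB_l38681 _)
                  (CovZ.leaf K2_ok TB_l38682 _))
                 (CovZ.leaf K2_ok TB_l38683 _)))
               (CovZ.subM 15914343565113172548972231940698266883214596825515148225742779819235070365314032510959616 (by decide +kernel)
                (CovZ.n1 (-28464, 5160) (by decide +kernel)
                 (CovZ.badM (by decide +kernel))
                 (CovZ.n1 (-28476, 5172) (by decide +kernel)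
                  (CovZ.n2 (-28464, 5172) (by decide +kernel)
                   (CovZ.n2 (-28470, 5166) (by decide +kernel)
                    (CovZ.leaf K2_ok TB_l38684 _)
                    (CovZ.leaf K2_ok TB_l38685 _))
                   (CovZ.leaf K2_ok TB_l38686 _))
                  (CovZ.n1 (-28476, 5160) (by decide +kernel)
                   (CovZ.leaf K2_ok TB_l38687 _)
                   (CovZ.leaf K2_ok TB_l38688 _))))))))
            (CovZ.n1 (-28560, 5136) (by decide +kernel)
             (CovZ.n2 (-28560, 5184) (by decide +kernel)
              (CovZ.n2 (-28536, 5160) (by decide +kernel)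
               (CovZ.n2 (-28560, 5160) (by decide +kernel)
                (CovZ.n2 (-28548, 5172) (by decide +kernel)
                 (CovZ.n2 (-28548, 5160) (by decide +kernel)
                  (CovZ.leaf K2_ok TB_l38689 _)
                  (CovZ.leaf K2_ok TB_l38690 _))
                 (CovZ.leaf K2_ok TB_l38691 _))
                (CovZ.subM 31082702275611665134717972530544138198140469683482356453652762707336180604968747663360 (by decide +kernel)
                 (CovZ.n1 (-28548, 5148) (by decide +kernel)
                  (CovZ.n2 (-28560, 5148) (by decide +kernel)
                   (CovZ.leaf K2_ok TB_l38692 _)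
                   (CovZ.n1 (-28554, 5142) (by decide +kernel)
                    (CovZ.leaf K2_ok TB_l38693 _)
                    (CovZ.leaf K2_ok TB_l38694 _)))
                  (CovZ.n1 (-28548, 5160) (by decide +kernel)
                   (CovZ.leaf K2_ok TB_l38695 _)
                   (CovZ.leaf K2_ok TB_l38696 _)))))
               (CovZ.n1 (-28536, 5184) (by decide +kernel)
                (CovZ.n2 (-28524, 5172) (by decide +kernel)
                 (CovZ.leaf K2_ok TB_l38697 _)
                 (CovZ.n1 (-28524, 5184) (by decide +kernel)
                  (CovZ.leaf K2_ok TB_l38698 _)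
                  (CovZ.leaf K2_ok TB_l38699 _)))
                (CovZ.n1 (-28548, 5172) (by decide +kernel)
                 (CovZ.leaf K2_ok TB_l38700 _)
                 (CovZ.leaf K2_ok TB_l38701 _))))
              (CovZ.n1 (-28584, 5160) (by decide +kernel)
               (CovZ.n2 (-28584, 5184) (by decide +kernel)
                (CovZ.leaf K2_ok TB_l38702 _)
                (CovZ.leaf K2_ok TB_l38703 _))
               (CovZ.n1 (-28560, 5160) (by decide +kernel)
                (CovZ.n2 (-28572, 5148) (by decide +kernel)
                 (CovZ.leaf K2_ok TB_l38704 _)
                 (CovZ.leaf K2_ok TB_l38705 _))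
                (CovZ.n1 (-28572, 5172) (by decide +kernel)
                 (CovZ.leaf K2_ok TB_l38706 _)
                 (CovZ.leaf K2_ok TB_l38707 _)))))
             (CovZ.n1 (-28512, 5136) (by decide +kernel)
              (CovZ.subM 31082702275611665134711390512314853373971849806752127051632831763873646285515353227264 (by decide +kernel)
               (CovZ.n2 (-28536, 5112) (by decide +kernel)
                (CovZ.n2 (-28536, 5136) (by decide +kernel)
                 (CovZ.n2 (-28524, 5124) (by decide +kernel)
                  (CovZ.n2 (-28536, 5124) (by decide +kernel)
                   (CovZ.leaf K2_ok TB_l38708 _)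
                   (CovZ.badM (by decide +kernel)))
                  (CovZ.n1 (-28524, 5136) (by decide +kernel)
                   (CovZ.badM (by decide +kernel))
                   (CovZ.n1 (-28530, 5130) (by decide +kernel)
                    (CovZ.leaf K2_ok TB_l38709 _)
                    (CovZ.badM (by decide +kernel)))))
                 (CovZ.n1 (-28548, 5124) (by decide +kernel)
                  (CovZ.n2 (-28548, 5136) (by decide +kernel)
                   (CovZ.leaf K2_ok TB_l38710 _)
                   (CovZ.n1 (-28554, 5130) (by decide +kernel)
                    (CovZ.leaf K2_ok TB_l38711 _)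
                    (CovZ.leaf K2_ok TB_l38712 _)))
                  (CovZ.n1 (-28536, 5124) (by decide +kernel)
                   (CovZ.n2 (-28542, 5118) (by decide +kernel)
                    (CovZ.leaf K2_ok TB_l38713 _)
                    (CovZ.badM (by decide +kernel)))
                   (CovZ.n1 (-28542, 5130) (by decide +kernel)
                    (CovZ.leaf K2_ok TB_l38714 _)
                    (CovZ.leaf K2_ok TB_l38715 _)))))
                (CovZ.badM (by decide +kernel))))
              (CovZ.n1 (-28536, 5160) (by decide +kernel)
               (CovZ.n2 (-28512, 5160) (by decide +kernel)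
                (CovZ.subM 31082702275611665134717972530544138198140469683482356453652762707336180604968747663360 (by decide +kernel)
                 (CovZ.n2 (-28524, 5148) (by decide +kernel)
                  (CovZ.n2 (-28524, 5160) (by decide +kernel)
                   (CovZ.leaf K2_ok TB_l38716 _)
                   (CovZ.leaf K2_ok TB_l38717 _))
                  (CovZ.n1 (-28512, 5148) (by decide +kernel)
                   (CovZ.n2 (-28518, 5142) (by decide +kernel)
                    (CovZ.leaf K2_ok TB_l38718 _)
                    (CovZ.badM (by decide +kernel)))
                   (CovZ.leaf K2_ok TB_l38719 _))))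
                (CovZ.n1 (-28524, 5172) (by decide +kernel)
                 (CovZ.leaf K2_ok TB_l38720 _)
                 (CovZ.n1 (-28524, 5160) (by decide +kernel)
                  (CovZ.leaf K2_ok TB_l38721 _)
                  (CovZ.leaf K2_ok TB_l38722 _))))
               (CovZ.subM 31082702275611665134717972530544138198140469683482356453652762707336180604968747663360 (by decide +kernel)
                (CovZ.n1 (-28536, 5136) (by decide +kernel)
                 (CovZ.n2 (-28548, 5148) (by decide +kernel)
                  (CovZ.n2 (-28536, 5148) (by decide +kernel)
                   (CovZ.leaf K2_ok TB_l38723 _)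
                   (CovZ.leaf K2_ok TB_l38724 _))
                  (CovZ.n1 (-28548, 5136) (by decide +kernel)
                   (CovZ.leaf K2_ok TB_l38725 _)
                   (CovZ.leaf K2_ok TB_l38726 _)))
                 (CovZ.n1 (-28524, 5148) (by decide +kernel)
                  (CovZ.n2 (-28524, 5136) (by decide +kernel)
                   (CovZ.n2 (-28530, 5142) (by decide +kernel)
                    (CovZ.leaf K2_ok TB_l38727 _)
                    (CovZ.leaf K2_ok TB_l38728 _))
                   (CovZ.leaf K2_ok TB_l38729 _))
                  (CovZ.n1 (-28536, 5148) (by decide +kernel)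
                   (CovZ.leaf K2_ok TB_l38730 _)
                   (CovZ.n1 (-28530, 5142) (by decide +kernel)
                    (CovZ.leaf K2_ok TB_l38731 _)
                    (CovZ.leaf K2_ok TB_l38732 _))))))))))
           (CovZ.badM (by decide +kernel))))

theorem TB_u158 : CovZ TB_M (toL (selN TB_LN 5043457394365394529273023472541361742722320531872952156327596513869502811658601535404892151680296402947766973017096192)) [0, 7, 6, 1] (-28416, 5184) (-28416, 5376) (-28608, 5184) :=
    (CovZ.n1 (-28512, 5280) (by decide +kernel)
          (CovZ.n2 (-28416, 5280) (by decide +kernel)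
           (CovZ.subM 5043456793138493339171717132834327993317595410833684123410610366764870970053390912456517920714834607335161787851997184 (by decide +kernel)
            (CovZ.n2 (-28464, 5232) (by decide +kernel)
             (CovZ.n2 (-28464, 5280) (by decide +kernel)
              (CovZ.n2 (-28440, 5256) (by decide +kernel)
               (CovZ.leaf K2_ok TB_l7667 _)
               (CovZ.n1 (-28440, 5280) (by decide +kernel)
                (CovZ.leaf K2_ok TB_l7668 _)
                (CovZ.leaf K2_ok TB_l7669 _)))
              (CovZ.n1 (-28488, 5256) (by decide +kernel)
               (CovZ.n2 (-28488, 5280) (by decide +kernel)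
                (CovZ.leaf K2_ok TB_l7670 _)
                (CovZ.leaf K2_ok TB_l7671 _))
               (CovZ.leaf K2_ok TB_l7672 _)))
             (CovZ.n1 (-28416, 5232) (by decide +kernel)
              (CovZ.n2 (-28440, 5208) (by decide +kernel)
               (CovZ.n2 (-28440, 5232) (by decide +kernel)
                (CovZ.n2 (-28428, 5220) (by decide +kernel)
                 (CovZ.leaf K2_ok TB_l38733 _)
                 (CovZ.leaf K2_ok TB_l38734 _))
                (CovZ.n1 (-28452, 5220) (by decide +kernel)
                 (CovZ.leaf K2_ok TB_l38735 _)
                 (CovZ.leaf K2_ok TB_l38736 _)))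
               (CovZ.subM 15914343565113172548972231940698266883220442832064471837415594558565935497392656242180096 (by decide +kernel)
                (CovZ.n1 (-28416, 5208) (by decide +kernel)
                 (CovZ.n2 (-28428, 5196) (by decide +kernel)
                  (CovZ.leaf K2_ok TB_l38737 _)
                  (CovZ.n1 (-28416, 5196) (by decide +kernel)
                   (CovZ.leaf K2_ok TB_l38738 _)
                   (CovZ.leaf K2_ok TB_l38739 _)))
                 (CovZ.n1 (-28428, 5220) (by decide +kernel)
                  (CovZ.leaf K2_ok TB_l38740 _)
                  (CovZ.leaf K2_ok TB_l38741 _)))))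
              (CovZ.n1 (-28440, 5256) (by decide +kernel)
               (CovZ.n2 (-28416, 5256) (by decide +kernel)
                (CovZ.leaf K2_ok TB_l7673 _)
                (CovZ.leaf K2_ok TB_l7674 _))
               (CovZ.n1 (-28440, 5232) (by decide +kernel)
                (CovZ.leaf K2_ok TB_l7675 _)
                (CovZ.leaf K2_ok TB_l7676 _))))))
           (CovZ.n1 (-28464, 5328) (by decide +kernel)
            (CovZ.n2 (-28416, 5328) (by decide +kernel)
             (CovZ.n2 (-28440, 5304) (by decide +kernel)
              (CovZ.leaf K2_ok TB_l7677 _)
              (CovZ.leaf K2_ok TB_l7678 _))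
             (CovZ.leaf K2_ok TB_l7679 _))
            (CovZ.subM 5043456793138493339171717132834327993317595410833684123410610366764870970053390912456517920714834607335161787851997184 (by decide +kernel)
             (CovZ.n1 (-28464, 5280) (by decide +kernel)
              (CovZ.n2 (-28488, 5304) (by decide +kernel)
               (CovZ.leaf K2_ok TB_l7680 _)
               (CovZ.leaf K2_ok TB_l7681 _))
              (CovZ.n1 (-28440, 5304) (by decide +kernel)
               (CovZ.leaf K2_ok TB_l7682 _)
               (CovZ.leaf K2_ok TB_l7683 _))))))
          (CovZ.subM 5043456793138493339171717132834327993317595410833684123410610366764870970053390912456517920714834607335161787851997184 (by decide +kernel)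
           (CovZ.n1 (-28512, 5184) (by decide +kernel)
            (CovZ.n2 (-28560, 5232) (by decide +kernel)
             (CovZ.n2 (-28512, 5232) (by decide +kernel)
              (CovZ.n2 (-28536, 5208) (by decide +kernel)
               (CovZ.n2 (-28536, 5232) (by decide +kernel)
                (CovZ.leaf K2_ok TB_l7684 _)
                (CovZ.leaf K2_ok TB_l7685 _))
               (CovZ.n1 (-28512, 5208) (by decide +kernel)
                (CovZ.leaf K2_ok TB_l38742 _)
                (CovZ.leaf K2_ok TB_l7686 _)))
              (CovZ.n1 (-28536, 5256) (by decide +kernel)
               (CovZ.leaf K2_ok TB_l7687 _)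
               (CovZ.n1 (-28536, 5232) (by decide +kernel)
                (CovZ.leaf K2_ok TB_l7688 _)
                (CovZ.leaf K2_ok TB_l7689 _))))
             (CovZ.n1 (-28560, 5184) (by decide +kernel)
              (CovZ.n2 (-28584, 5208) (by decide +kernel)
               (CovZ.n2 (-28560, 5208) (by decide +kernel)
                (CovZ.leaf K2_ok TB_l7690 _)
                (CovZ.leaf K2_ok TB_l7691 _))
               (CovZ.n1 (-28584, 5184) (by decide +kernel)
                (CovZ.leaf K2_ok TB_l7692 _)
                (CovZ.leaf K2_ok TB_l7693 _)))
              (CovZ.n1 (-28536, 5208) (by decide +kernel)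
               (CovZ.n2 (-28536, 5184) (by decide +kernel)
                (CovZ.n2 (-28548, 5196) (by decide +kernel)
                 (CovZ.leaf K2_ok TB_l38743 _)
                 (CovZ.leaf K2_ok TB_l38744 _))
                (CovZ.n1 (-28524, 5196) (by decide +kernel)
                 (CovZ.leaf K2_ok TB_l38745 _)
                 (CovZ.leaf K2_ok TB_l38746 _)))
               (CovZ.n1 (-28560, 5208) (by decide +kernel)
                (CovZ.leaf K2_ok TB_l7694 _)
                (CovZ.n1 (-28548, 5196) (by decide +kernel)
                 (CovZ.leaf K2_ok TB_l38747 _)
                 (CovZ.leaf K2_ok TB_l38748 _))))))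
            (CovZ.n1 (-28464, 5232) (by decide +kernel)
             (CovZ.n2 (-28464, 5184) (by decide +kernel)
              (CovZ.n2 (-28488, 5208) (by decide +kernel)
               (CovZ.n2 (-28464, 5208) (by decide +kernel)
                (CovZ.n2 (-28476, 5196) (by decide +kernel)
                 (CovZ.leaf K2_ok TB_l38749 _)
                 (CovZ.leaf K2_ok TB_l38750 _))
                (CovZ.leaf K2_ok TB_l38751 _))
               (CovZ.n1 (-28488, 5184) (by decide +kernel)
                (CovZ.n2 (-28500, 5196) (by decide +kernel)
                 (CovZ.leaf K2_ok TB_l38752 _)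
                 (CovZ.leaf K2_ok TB_l38753 _))
                (CovZ.n1 (-28476, 5196) (by decide +kernel)
                 (CovZ.leaf K2_ok TB_l38754 _)
                 (CovZ.leaf K2_ok TB_l38755 _))))
              (CovZ.n1 (-28440, 5208) (by decide +kernel)
               (CovZ.subM 15914343565113172548972231940698266883220442832064471837415594558565935497392656241131520 (by decide +kernel)
                (CovZ.n2 (-28440, 5184) (by decide +kernel)
                 (CovZ.n2 (-28452, 5196) (by decide +kernel)
                  (CovZ.leaf K2_ok TB_l38756 _)
                  (CovZ.n1 (-28452, 5184) (by decide +kernel)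
                   (CovZ.leaf K2_ok TB_l38757 _)
                   (CovZ.leaf K2_ok TB_l38758 _)))
                 (CovZ.n1 (-28428, 5196) (by decide +kernel)
                  (CovZ.n2 (-28428, 5184) (by decide +kernel)
                   (CovZ.n2 (-28434, 5190) (by decide +kernel)
                    (CovZ.leaf K2_ok TB_l38759 _)
                    (CovZ.leaf K2_ok TB_l38760 _))
                   (CovZ.leaf K2_ok TB_l38761 _))
                  (CovZ.leaf K2_ok TB_l38762 _))))
               (CovZ.n1 (-28464, 5208) (by decide +kernel)
                (CovZ.n2 (-28452, 5220) (by decide +kernel)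
                 (CovZ.leaf K2_ok TB_l38763 _)
                 (CovZ.leaf K2_ok TB_l38764 _))
                (CovZ.n1 (-28452, 5196) (by decide +kernel)
                 (CovZ.leaf K2_ok TB_l38765 _)
                 (CovZ.leaf K2_ok TB_l38766 _)))))
             (CovZ.n1 (-28512, 5232) (by decide +kernel)
              (CovZ.n2 (-28488, 5256) (by decide +kernel)
               (CovZ.n2 (-28488, 5232) (by decide +kernel)
                (CovZ.leaf K2_ok TB_l7695 _)
                (CovZ.leaf K2_ok TB_l7696 _))
               (CovZ.leaf K2_ok TB_l7697 _))
              (CovZ.n1 (-28488, 5208) (by decide +kernel)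
               (CovZ.n2 (-28512, 5208) (by decide +kernel)
                (CovZ.leaf K2_ok TB_l7698 _)
                (CovZ.n1 (-28500, 5196) (by decide +kernel)
                 (CovZ.leaf K2_ok TB_l38767 _)
                 (CovZ.leaf K2_ok TB_l38768 _)))
               (CovZ.n1 (-28488, 5232) (by decide +kernel)
                (CovZ.leaf K2_ok TB_l7699 _)
                (CovZ.leaf K2_ok TB_l7700 _))))))))

theorem TB_u159 : CovZ TB_M (toL (selN TB_LN 5043457394365394529273023472541361742722320531872952156327596513869502811658601535404892151680296402947766973017096192)) [0, 7, 6, 1] (-29184, 4608) (-28416, 4608) (-28416, 5376) :=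
    (CovZ.n2 (-28800, 4992) (by decide +kernel)
      (CovZ.n2 (-28416, 4992) (by decide +kernel)
       (CovZ.badM (by decide +kernel))
       (CovZ.n1 (-28608, 5184) (by decide +kernel)
        (CovZ.n2 (-28416, 5184) (by decide +kernel)
         TB_u157
         TB_u158)
        (CovZ.subM 15945426267388784214106949913228811021412737295198630583819025350234540179834781361504256 (by decide +kernel)
         (CovZ.n1 (-28608, 4992) (by decide +kernel)
          (CovZ.n2 (-28704, 5088) (by decide +kernel)
           (CovZ.n2 (-28608, 5088) (by decide +kernel)
            (CovZ.badM (by decide +kernel))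
            (CovZ.n1 (-28656, 5136) (by decide +kernel)
             (CovZ.n2 (-28608, 5136) (by decide +kernel)
              (CovZ.subM 31082702275611665134711390512314853373971849806752128349707046397580553418139435532288 (by decide +kernel)
               (CovZ.n2 (-28632, 5112) (by decide +kernel)
                (CovZ.n2 (-28632, 5136) (by decide +kernel)
                 (CovZ.n2 (-28620, 5124) (by decide +kernel)
                  (CovZ.n2 (-28632, 5124) (by decide +kernel)
                   (CovZ.leaf K2_ok TB_l38769 _)
                   (CovZ.leaf K2_ok TB_l38770 _))
                  (CovZ.leaf K2_ok TB_l38771 _))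
                 (CovZ.n1 (-28644, 5124) (by decide +kernel)
                  (CovZ.leaf K2_ok TB_l38772 _)
                  (CovZ.leaf K2_ok TB_l38773 _)))
                (CovZ.n1 (-28608, 5112) (by decide +kernel)
                 (CovZ.n2 (-28620, 5100) (by decide +kernel)
                  (CovZ.n2 (-28620, 5112) (by decide +kernel)
                   (CovZ.badM (by decide +kernel))
                   (CovZ.n1 (-28626, 5106) (by decide +kernel)
                    (CovZ.leaf K2_ok TB_l38774 _)
                    (CovZ.badM (by decide +kernel))))
                  (CovZ.badM (by decide +kernel)))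
                 (CovZ.n1 (-28620, 5124) (by decide +kernel)
                  (CovZ.leaf K2_ok TB_l38775 _)
                  (CovZ.n1 (-28620, 5112) (by decide +kernel)
                   (CovZ.leaf K2_ok TB_l38776 _)
                   (CovZ.leaf K2_ok TB_l38777 _))))))
              (CovZ.n1 (-28632, 5160) (by decide +kernel)
               (CovZ.n2 (-28608, 5160) (by decide +kernel)
                (CovZ.n2 (-28620, 5148) (by decide +kernel)
                 (CovZ.leaf K2_ok TB_l38778 _)
                 (CovZ.leaf K2_ok TB_l38779 _))
                (CovZ.leaf K2_ok TB_l38780 _))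
               (CovZ.n1 (-28632, 5136) (by decide +kernel)
                (CovZ.n2 (-28644, 5148) (by decide +kernel)
                 (CovZ.leaf K2_ok TB_l38781 _)
                 (CovZ.n1 (-28644, 5136) (by decide +kernel)
                  (CovZ.leaf K2_ok TB_l38782 _)
                  (CovZ.leaf K2_ok TB_l38783 _)))
                (CovZ.leaf K2_ok TB_l38784 _))))
             (CovZ.subM 31082702275611665134711390512314853373971849806752128349707046397580553418139435532288 (by decide +kernel)
              (CovZ.n1 (-28656, 5088) (by decide +kernel)
               (CovZ.n2 (-28680, 5112) (by decide +kernel)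
                (CovZ.n2 (-28656, 5112) (by decide +kernel)
                 (CovZ.n2 (-28668, 5100) (by decide +kernel)
                  (CovZ.n2 (-28668, 5112) (by decide +kernel)
                   (CovZ.leaf K2_ok TB_l38785 _)
                   (CovZ.leaf K2_ok TB_l38786 _))
                  (CovZ.leaf K2_ok TB_l38787 _))
                 (CovZ.n1 (-28668, 5124) (by decide +kernel)
                  (CovZ.leaf K2_ok TB_l38788 _)
                  (CovZ.n1 (-28668, 5112) (by decide +kernel)
                   (CovZ.leaf K2_ok TB_l38789 _)
                   (CovZ.leaf K2_ok TB_l38790 _))))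
                (CovZ.n1 (-28680, 5088) (by decide +kernel)
                 (CovZ.n2 (-28692, 5100) (by decide +kernel)
                  (CovZ.leaf K2_ok TB_l38791 _)
                  (CovZ.n1 (-28692, 5088) (by decide +kernel)
                   (CovZ.n2 (-28698, 5094) (by decide +kernel)
                    (CovZ.leaf K2_ok TB_l38792 _)
                    (CovZ.leaf K2_ok TB_l38793 _))
                   (CovZ.leaf K2_ok TB_l38794 _)))
                 (CovZ.n1 (-28668, 5100) (by decide +kernel)
                  (CovZ.n2 (-28668, 5088) (by decide +kernel)
                   (CovZ.leaf K2_ok TB_l38795 _)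
                   (CovZ.leaf K2_ok TB_l38796 _))
                  (CovZ.n1 (-28680, 5100) (by decide +kernel)
                   (CovZ.leaf K2_ok TB_l38797 _)
                   (CovZ.leaf K2_ok TB_l38798 _)))))
               (CovZ.n1 (-28632, 5112) (by decide +kernel)
                (CovZ.n2 (-28632, 5088) (by decide +kernel)
                 (CovZ.n2 (-28644, 5100) (by decide +kernel)
                  (CovZ.leaf K2_ok TB_l38799 _)
                  (CovZ.n1 (-28644, 5088) (by decide +kernel)
                   (CovZ.n2 (-28650, 5094) (by decide +kernel)
                    (CovZ.leaf K2_ok TB_l38800 _)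
                    (CovZ.leaf K2_ok TB_l38801 _))
                   (CovZ.n1 (-28638, 5094) (by decide +kernel)
                    (CovZ.badM (by decide +kernel))
                    (CovZ.leaf K2_ok TB_l38802 _))))
                 (CovZ.n1 (-28620, 5100) (by decide +kernel)
                  (CovZ.badM (by decide +kernel))
                  (CovZ.n1 (-28632, 5100) (by decide +kernel)
                   (CovZ.leaf K2_ok TB_l38803 _)
                   (CovZ.badM (by decide +kernel)))))
                (CovZ.n1 (-28656, 5112) (by decide +kernel)
                 (CovZ.n2 (-28644, 5124) (by decide +kernel)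
                  (CovZ.n2 (-28644, 5112) (by decide +kernel)
                   (CovZ.leaf K2_ok TB_l38804 _)
                   (CovZ.leaf K2_ok TB_l38805 _))
                  (CovZ.leaf K2_ok TB_l38806 _))
                 (CovZ.n1 (-28644, 5100) (by decide +kernel)
                  (CovZ.n2 (-28656, 5100) (by decide +kernel)
                   (CovZ.leaf K2_ok TB_l38807 _)
                   (CovZ.n1 (-28650, 5094) (by decide +kernel)
                    (CovZ.leaf K2_ok TB_l38808 _)
                    (CovZ.leaf K2_ok TB_l38809 _)))
                  (CovZ.n1 (-28644, 5112) (by decide +kernel)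
                   (CovZ.leaf K2_ok TB_l38810 _)
                   (CovZ.leaf K2_ok TB_l38811 _)))))))))
           (CovZ.badM (by decide +kernel)))
          (CovZ.n1 (-28512, 5088) (by decide +kernel)
           (CovZ.badM (by decide +kernel))
           (CovZ.n1 (-28608, 5088) (by decide +kernel)
            (CovZ.n2 (-28560, 5136) (by decide +kernel)
             (CovZ.subM 31082702275611665134711390512314853373971849806752127051632831763873646285515353227264 (by decide +kernel)
              (CovZ.n2 (-28560, 5088) (by decide +kernel)
               (CovZ.n2 (-28584, 5112) (by decide +kernel)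
                (CovZ.n2 (-28560, 5112) (by decide +kernel)
                 (CovZ.badM (by decide +kernel))
                 (CovZ.n1 (-28572, 5124) (by decide +kernel)
                  (CovZ.n2 (-28560, 5124) (by decide +kernel)
                   (CovZ.leaf K2_ok TB_l38812 _)
                   (CovZ.leaf K2_ok TB_l38813 _))
                  (CovZ.n1 (-28572, 5112) (by decide +kernel)
                   (CovZ.leaf K2_ok TB_l38814 _)
                   (CovZ.n1 (-28566, 5118) (by decide +kernel)
                    (CovZ.leaf K2_ok TB_l38815 _)
                    (CovZ.leaf K2_ok TB_l38816 _)))))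
                (CovZ.badM (by decide +kernel)))
               (CovZ.n1 (-28536, 5112) (by decide +kernel)
                (CovZ.badM (by decide +kernel))
                (CovZ.n1 (-28560, 5112) (by decide +kernel)
                 (CovZ.n2 (-28548, 5124) (by decide +kernel)
                  (CovZ.n2 (-28548, 5112) (by decide +kernel)
                   (CovZ.n2 (-28554, 5118) (by decide +kernel)
                    (CovZ.leaf K2_ok TB_l38817 _)
                    (CovZ.leaf K2_ok TB_l38818 _))
                   (CovZ.n1 (-28542, 5118) (by decide +kernel)
                    (CovZ.badM (by decide +kernel))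
                    (CovZ.leaf K2_ok TB_l38819 _)))
                  (CovZ.n1 (-28560, 5124) (by decide +kernel)
                   (CovZ.n2 (-28554, 5130) (by decide +kernel)
                    (CovZ.n2 (-28554, 5124) (by decide +kernel)
                     (CovZ.leaf K2_ok TB_l38820 _)
                     (CovZ.leaf K2_ok TB_l38821 _))
                    (CovZ.leaf K2_ok TB_l38822 _))
                   (CovZ.n1 (-28554, 5118) (by decide +kernel)
                    (CovZ.leaf K2_ok TB_l38823 _)
                    (CovZ.n1 (-28554, 5124) (by decide +kernel)
                     (CovZ.leaf K2_ok TB_l38824 _)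
                     (CovZ.leaf K2_ok TB_l38825 _)))))
                 (CovZ.badM (by decide +kernel))))))
             (CovZ.n1 (-28608, 5136) (by decide +kernel)
              (CovZ.n2 (-28584, 5160) (by decide +kernel)
               (CovZ.subM 31082702275611665134717972530544138198140469683482357751726977341043087737592829968384 (by decide +kernel)
                (CovZ.n2 (-28584, 5136) (by decide +kernel)
                 (CovZ.n2 (-28596, 5148) (by decide +kernel)
                  (CovZ.leaf K2_ok TB_l38826 _)
                  (CovZ.leaf K2_ok TB_l38827 _))
                 (CovZ.n1 (-28572, 5148) (by decide +kernel)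
                  (CovZ.n2 (-28572, 5136) (by decide +kernel)
                   (CovZ.leaf K2_ok TB_l38828 _)
                   (CovZ.leaf K2_ok TB_l38829 _))
                  (CovZ.leaf K2_ok TB_l38830 _))))
               (CovZ.n1 (-28608, 5160) (by decide +kernel)
                (CovZ.leaf K2_ok TB_l38831 _)
                (CovZ.n1 (-28596, 5148) (by decide +kernel)
                 (CovZ.leaf K2_ok TB_l38832 _)
                 (CovZ.leaf K2_ok TB_l38833 _))))
              (CovZ.subM 31082702275611665134711390512314853373971849806752128349707046397580553418139435532288 (by decide +kernel)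
               (CovZ.n1 (-28584, 5112) (by decide +kernel)
                (CovZ.n2 (-28608, 5112) (by decide +kernel)
                 (CovZ.n2 (-28596, 5124) (by decide +kernel)
                  (CovZ.n2 (-28596, 5112) (by decide +kernel)
                   (CovZ.leaf K2_ok TB_l38834 _)
                   (CovZ.n1 (-28590, 5118) (by decide +kernel)
                    (CovZ.leaf K2_ok TB_l38835 _)
                    (CovZ.leaf K2_ok TB_l38836 _)))
                  (CovZ.n1 (-28608, 5124) (by decide +kernel)
                   (CovZ.leaf K2_ok TB_l38837 _)
                   (CovZ.leaf K2_ok TB_l38838 _)))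
                 (CovZ.badM (by decide +kernel)))
                (CovZ.n1 (-28584, 5136) (by decide +kernel)
                 (CovZ.n2 (-28572, 5124) (by decide +kernel)
                  (CovZ.n2 (-28584, 5124) (by decide +kernel)
                   (CovZ.leaf K2_ok TB_l38839 _)
                   (CovZ.leaf K2_ok TB_l38840 _))
                  (CovZ.n1 (-28572, 5136) (by decide +kernel)
                   (CovZ.leaf K2_ok TB_l38841 _)
                   (CovZ.leaf K2_ok TB_l38842 _)))
                 (CovZ.n1 (-28596, 5124) (by decide +kernel)
                  (CovZ.n2 (-28596, 5136) (by decide +kernel)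
                   (CovZ.leaf K2_ok TB_l38843 _)
                   (CovZ.n1 (-28602, 5130) (by decide +kernel)
                    (CovZ.leaf K2_ok TB_l38844 _)
                    (CovZ.leaf K2_ok TB_l38845 _)))
                  (CovZ.n1 (-28584, 5124) (by decide +kernel)
                   (CovZ.leaf K2_ok TB_l38846 _)
                   (CovZ.n1 (-28590, 5130) (by decide +kernel)
                    (CovZ.leaf K2_ok TB_l38847 _)
                    (CovZ.leaf K2_ok TB_l38848 _)))))))))
            (CovZ.badM (by decide +kernel))))))))
      (CovZ.badM (by decide +kernel)))

theorem TB_u160 : CovZ TB_M (toL (selN TB_LN 5043457394365394529273023472541361742722320531872952156327596513869502811658601535404892151680296402947766973017096192)) [0, 7, 6, 1] (-28416, 4608) (-27648, 4608) (-28416, 5376) :=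
    (CovZ.n1 (-28032, 4992) (by decide +kernel)
      (CovZ.badM (by decide +kernel))
      (CovZ.n1 (-28416, 4992) (by decide +kernel)
       (CovZ.n2 (-28224, 5184) (by decide +kernel)
        (CovZ.badM (by decide +kernel))
        (CovZ.n1 (-28416, 5184) (by decide +kernel)
         (CovZ.n2 (-28320, 5280) (by decide +kernel)
          (CovZ.subM 5043456793138493339171717132818382567050206626619577173497381555743458232758192303140346827923254033616239970976006144 (by decide +kernel)
           (CovZ.n2 (-28320, 5184) (by decide +kernel)
            (CovZ.n2 (-28368, 5232) (by decide +kernel)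
             (CovZ.n2 (-28320, 5232) (by decide +kernel)
              (CovZ.badM (by decide +kernel))
              (CovZ.n1 (-28344, 5256) (by decide +kernel)
               (CovZ.n2 (-28320, 5256) (by decide +kernel)
                (CovZ.badM (by decide +kernel))
                (CovZ.n1 (-28332, 5268) (by decide +kernel)
                 (CovZ.leaf K2_ok TB_l38849 _)
                 (CovZ.badM (by decide +kernel))))
               (CovZ.badM (by decide +kernel))))
             (CovZ.n1 (-28368, 5184) (by decide +kernel)
              (CovZ.n2 (-28392, 5208) (by decide +kernel)
               (CovZ.badM (by decide +kernel))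
               (CovZ.n1 (-28392, 5184) (by decide +kernel)
                (CovZ.n2 (-28404, 5196) (by decide +kernel)
                 (CovZ.badM (by decide +kernel))
                 (CovZ.badM (by decide +kernel)))
                (CovZ.badM (by decide +kernel))))
              (CovZ.badM (by decide +kernel))))
            (CovZ.n1 (-28272, 5232) (by decide +kernel)
             (CovZ.badM (by decide +kernel))
             (CovZ.n1 (-28320, 5232) (by decide +kernel)
              (CovZ.n2 (-28296, 5256) (by decide +kernel)
               (CovZ.badM (by decide +kernel))
               (CovZ.n1 (-28320, 5256) (by decide +kernel)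
                (CovZ.n2 (-28308, 5268) (by decide +kernel)
                 (CovZ.badM (by decide +kernel))
                 (CovZ.leaf K2_ok TB_l38850 _))
                (CovZ.badM (by decide +kernel))))
              (CovZ.badM (by decide +kernel))))))
          (CovZ.n1 (-28416, 5280) (by decide +kernel)
           (CovZ.n2 (-28368, 5328) (by decide +kernel)
            (CovZ.subM 5043456793138493339171717132834296910615319799168549412020101190462364691543966078223853373162620358139815348495450112 (by decide +kernel)
             (CovZ.n2 (-28368, 5280) (by decide +kernel)
              (CovZ.n2 (-28392, 5304) (by decide +kernel)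
               (CovZ.leaf K2_ok TB_l7701 _)
               (CovZ.n1 (-28392, 5280) (by decide +kernel)
                (CovZ.leaf K2_ok TB_l7702 _)
                (CovZ.leaf K2_ok TB_l7703 _)))
              (CovZ.n1 (-28344, 5304) (by decide +kernel)
               (CovZ.n2 (-28344, 5280) (by decide +kernel)
                (CovZ.leaf K2_ok TB_l7704 _)
                (CovZ.leaf K2_ok TB_l7705 _))
               (CovZ.n1 (-28368, 5304) (by decide +kernel)
                (CovZ.leaf K2_ok TB_l7706 _)
                (CovZ.leaf K2_ok TB_l7707 _)))))
            (CovZ.n1 (-28416, 5328) (by decide +kernel)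
             (CovZ.n2 (-28392, 5352) (by decide +kernel)
              (CovZ.leaf K2_ok TB_l7708 _)
              (CovZ.leaf K2_ok TB_l7709 _))
             (CovZ.n1 (-28392, 5304) (by decide +kernel)
              (CovZ.leaf K2_ok TB_l7710 _)
              (CovZ.n1 (-28392, 5328) (by decide +kernel)
               (CovZ.leaf K2_ok TB_l7711 _)
               (CovZ.leaf K2_ok TB_l7712 _)))))
           (CovZ.subM 5043456793138493339171717132834296910615319799168549412020101190462364691543966078223853373162620358139815348495450112 (by decide +kernel)
            (CovZ.n1 (-28368, 5232) (by decide +kernel)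
             (CovZ.n2 (-28416, 5232) (by decide +kernel)
              (CovZ.n2 (-28392, 5256) (by decide +kernel)
               (CovZ.subM 15914343565113172548972238522716496168044611451941202066817614489509398031712109628227584 (by decide +kernel)
                (CovZ.n2 (-28392, 5232) (by decide +kernel)
                 (CovZ.n2 (-28404, 5244) (by decide +kernel)
                  (CovZ.leaf K2_ok TB_l38851 _)
                  (CovZ.leaf K2_ok TB_l38852 _))
                 (CovZ.n1 (-28380, 5244) (by decide +kernel)
                  (CovZ.n2 (-28380, 5232) (by decide +kernel)
                   (CovZ.leaf K2_ok TB_l38853 _)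
                   (CovZ.leaf K2_ok TB_l38854 _))
                  (CovZ.leaf K2_ok TB_l38855 _))))
               (CovZ.n1 (-28416, 5256) (by decide +kernel)
                (CovZ.leaf K2_ok TB_l7713 _)
                (CovZ.n1 (-28404, 5244) (by decide +kernel)
                 (CovZ.leaf K2_ok TB_l38856 _)
                 (CovZ.leaf K2_ok TB_l38857 _))))
              (CovZ.subM 15914343565113172548972231940698266883220442832064471837415594558565935497392656233791488 (by decide +kernel)
               (CovZ.n1 (-28392, 5208) (by decide +kernel)
                (CovZ.n2 (-28416, 5208) (by decide +kernel)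
                 (CovZ.n2 (-28404, 5220) (by decide +kernel)
                  (CovZ.n2 (-28404, 5208) (by decide +kernel)
                   (CovZ.leaf K2_ok TB_l38858 _)
                   (CovZ.leaf K2_ok TB_l38859 _))
                  (CovZ.n1 (-28416, 5220) (by decide +kernel)
                   (CovZ.leaf K2_ok TB_l38860 _)
                   (CovZ.leaf K2_ok TB_l38861 _)))
                 (CovZ.n1 (-28404, 5196) (by decide +kernel)
                  (CovZ.n2 (-28416, 5196) (by decide +kernel)
                   (CovZ.leaf K2_ok TB_l38862 _)
                   (CovZ.badM (by decide +kernel)))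
                  (CovZ.n1 (-28404, 5208) (by decide +kernel)
                   (CovZ.n2 (-28398, 5202) (by decide +kernel)
                    (CovZ.leaf K2_ok TB_l38863 _)
                    (CovZ.n1 (-28398, 5208) (by decide +kernel)
                     (CovZ.badM (by decide +kernel))
                     (CovZ.leaf K2_ok TB_l38864 _)))
                   (CovZ.leaf K2_ok TB_l38865 _))))
                (CovZ.n1 (-28392, 5232) (by decide +kernel)
                 (CovZ.n2 (-28380, 5220) (by decide +kernel)
                  (CovZ.n2 (-28392, 5220) (by decide +kernel)
                   (CovZ.leaf K2_ok TB_l38866 _)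
                   (CovZ.leaf K2_ok TB_l38867 _))
                  (CovZ.n1 (-28380, 5232) (by decide +kernel)
                   (CovZ.leaf K2_ok TB_l38868 _)
                   (CovZ.leaf K2_ok TB_l38869 _)))
                 (CovZ.n1 (-28404, 5220) (by decide +kernel)
                  (CovZ.n2 (-28404, 5232) (by decide +kernel)
                   (CovZ.leaf K2_ok TB_l38870 _)
                   (CovZ.leaf K2_ok TB_l38871 _))
                  (CovZ.n1 (-28392, 5220) (by decide +kernel)
                   (CovZ.leaf K2_ok TB_l38872 _)
                   (CovZ.leaf K2_ok TB_l38873 _)))))))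
             (CovZ.n1 (-28368, 5280) (by decide +kernel)
              (CovZ.subM 5043456793138493339171717132834296910615319799168549412020098051911491152197034836716170880375447734922881868656279552 (by decide +kernel)
               (CovZ.n2 (-28344, 5256) (by decide +kernel)
                (CovZ.n2 (-28368, 5256) (by decide +kernel)
                 (CovZ.leaf K2_ok TB_l38874 _)
                 (CovZ.n1 (-28356, 5244) (by decide +kernel)
                  (CovZ.leaf K2_ok TB_l38875 _)
                  (CovZ.leaf K2_ok TB_l38876 _)))
                (CovZ.n1 (-28344, 5280) (by decide +kernel)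
                 (CovZ.n2 (-28332, 5268) (by decide +kernel)
                  (CovZ.leaf K2_ok TB_l38877 _)
                  (CovZ.leaf K2_ok TB_l38878 _))
                 (CovZ.n1 (-28356, 5268) (by decide +kernel)
                  (CovZ.leaf K2_ok TB_l38879 _)
                  (CovZ.leaf K2_ok TB_l38880 _)))))
              (CovZ.n1 (-28392, 5256) (by decide +kernel)
               (CovZ.n2 (-28392, 5280) (by decide +kernel)
                (CovZ.leaf K2_ok TB_l38881 _)
                (CovZ.leaf K2_ok TB_l7714 _))
               (CovZ.subM 5043456793138493339171717132834296910615319799168549412020098051911491152197034836716170880375447734922881868656279552 (by decide +kernel)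
                (CovZ.n1 (-28368, 5256) (by decide +kernel)
                 (CovZ.n2 (-28380, 5244) (by decide +kernel)
                  (CovZ.leaf K2_ok TB_l38882 _)
                  (CovZ.n1 (-28368, 5244) (by decide +kernel)
                   (CovZ.leaf K2_ok TB_l38883 _)
                   (CovZ.leaf K2_ok TB_l38884 _)))
                 (CovZ.n1 (-28380, 5268) (by decide +kernel)
                  (CovZ.leaf K2_ok TB_l38885 _)
                  (CovZ.leaf K2_ok TB_l38886 _))))))))))
         (CovZ.badM (by decide +kernel))))
       (CovZ.badM (by decide +kernel))))

theorem TB_u161 : CovZ TB_M (toL (selN TB_LN 5043457394365394529273023472525447399157207359323979871730752412707595483673531079102108818697736526817651986749456384)) [0, 7, 6, 1] (-29184, 4992) (-28992, 4992) (-28992, 5184) :=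
    (CovZ.n2 (-29088, 5088) (by decide +kernel)
           (CovZ.n2 (-28992, 5088) (by decide +kernel)
            (CovZ.subM 5043456793138493339171717132818413649752482238284711884887890732045958665261067792493690628177483451218594822115819520 (by decide +kernel)
             (CovZ.n2 (-29040, 5040) (by decide +kernel)
              (CovZ.n2 (-29040, 5088) (by decide +kernel)
               (CovZ.n2 (-29016, 5064) (by decide +kernel)
                (CovZ.n2 (-29040, 5064) (by decide +kernel)
                 (CovZ.n2 (-29028, 5076) (by decide +kernel)
                  (CovZ.n2 (-29028, 5064) (by decide +kernel)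
                   (CovZ.leaf K2_ok TB_l38887 _)
                   (CovZ.leaf K2_ok TB_l38888 _))
                  (CovZ.leaf K2_ok TB_l38889 _))
                 (CovZ.badM (by decide +kernel)))
                (CovZ.n1 (-29016, 5088) (by decide +kernel)
                 (CovZ.n2 (-29004, 5076) (by decide +kernel)
                  (CovZ.n2 (-29016, 5076) (by decide +kernel)
                   (CovZ.leaf K2_ok TB_l38890 _)
                   (CovZ.leaf K2_ok TB_l38891 _))
                  (CovZ.n1 (-29004, 5088) (by decide +kernel)
                   (CovZ.leaf K2_ok TB_l38892 _)
                   (CovZ.leaf K2_ok TB_l38893 _)))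
                 (CovZ.n1 (-29028, 5076) (by decide +kernel)
                  (CovZ.n2 (-29028, 5088) (by decide +kernel)
                   (CovZ.n2 (-29022, 5082) (by decide +kernel)
                    (CovZ.leaf K2_ok TB_l38894 _)
                    (CovZ.leaf K2_ok TB_l38895 _))
                   (CovZ.leaf K2_ok TB_l38896 _))
                  (CovZ.leaf K2_ok TB_l38897 _))))
               (CovZ.n1 (-29064, 5064) (by decide +kernel)
                (CovZ.n2 (-29064, 5088) (by decide +kernel)
                 (CovZ.n2 (-29052, 5076) (by decide +kernel)
                  (CovZ.leaf K2_ok TB_l38898 _)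
                  (CovZ.n1 (-29052, 5088) (by decide +kernel)
                   (CovZ.leaf K2_ok TB_l38899 _)
                   (CovZ.leaf K2_ok TB_l38900 _)))
                 (CovZ.n1 (-29076, 5076) (by decide +kernel)
                  (CovZ.n2 (-29076, 5088) (by decide +kernel)
                   (CovZ.leaf K2_ok TB_l38901 _)
                   (CovZ.leaf K2_ok TB_l38902 _))
                  (CovZ.leaf K2_ok TB_l38903 _)))
                (CovZ.n1 (-29040, 5064) (by decide +kernel)
                 (CovZ.badM (by decide +kernel))
                 (CovZ.n1 (-29052, 5076) (by decide +kernel)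
                  (CovZ.leaf K2_ok TB_l38904 _)
                  (CovZ.n1 (-29052, 5064) (by decide +kernel)
                   (CovZ.leaf K2_ok TB_l38905 _)
                   (CovZ.leaf K2_ok TB_l38906 _))))))
              (CovZ.n1 (-28992, 5040) (by decide +kernel)
               (CovZ.badM (by decide +kernel))
               (CovZ.n1 (-29016, 5064) (by decide +kernel)
                (CovZ.n2 (-28992, 5064) (by decide +kernel)
                 (CovZ.badM (by decide +kernel))
                 (CovZ.n1 (-29004, 5076) (by decide +kernel)
                  (CovZ.leaf K2_ok TB_l38907 _)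
                  (CovZ.n1 (-29004, 5064) (by decide +kernel)
                   (CovZ.leaf K2_ok TB_l38908 _)
                   (CovZ.leaf K2_ok TB_l38909 _))))
                (CovZ.badM (by decide +kernel))))))
            (CovZ.n1 (-29040, 5136) (by decide +kernel)
             (CovZ.n2 (-28992, 5136) (by decide +kernel)
              (CovZ.subM 5043456793138493339171717132818413649752482238284711884887893870596826358601449710389700306225325209303449678224818176 (by decide +kernel)
               (CovZ.n2 (-29016, 5112) (by decide +kernel)
                (CovZ.n2 (-29016, 5136) (by decide +kernel)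
                 (CovZ.n2 (-29004, 5124) (by decide +kernel)
                  (CovZ.leaf K2_ok TB_l38910 _)
                  (CovZ.leaf K2_ok TB_l38911 _))
                 (CovZ.n1 (-29028, 5124) (by decide +kernel)
                  (CovZ.leaf K2_ok TB_l38912 _)
                  (CovZ.leaf K2_ok TB_l38913 _)))
                (CovZ.n1 (-28992, 5112) (by decide +kernel)
                 (CovZ.n2 (-29004, 5100) (by decide +kernel)
                  (CovZ.leaf K2_ok TB_l38914 _)
                  (CovZ.leaf K2_ok TB_l38915 _))
                 (CovZ.n1 (-29004, 5124) (by decide +kernel)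
                  (CovZ.leaf K2_ok TB_l38916 _)
                  (CovZ.leaf K2_ok TB_l38917 _)))))
              (CovZ.n1 (-29016, 5160) (by decide +kernel)
               (CovZ.n2 (-28992, 5160) (by decide +kernel)
                (CovZ.leaf K2_ok TB_l7792 _)
                (CovZ.leaf K2_ok TB_l7793 _))
               (CovZ.n1 (-29016, 5136) (by decide +kernel)
                (CovZ.leaf K2_ok TB_l7794 _)
                (CovZ.leaf K2_ok TB_l7795 _))))
             (CovZ.subM 5043456793138493339171717132818413649752482238284711884887893870596826358601449710389700306225325209303449678224818176 (by decide +kernel)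
              (CovZ.n1 (-29040, 5088) (by decide +kernel)
               (CovZ.n2 (-29064, 5112) (by decide +kernel)
                (CovZ.n2 (-29040, 5112) (by decide +kernel)
                 (CovZ.n2 (-29052, 5100) (by decide +kernel)
                  (CovZ.leaf K2_ok TB_l38918 _)
                  (CovZ.leaf K2_ok TB_l38919 _))
                 (CovZ.leaf K2_ok TB_l38920 _))
                (CovZ.n1 (-29064, 5088) (by decide +kernel)
                 (CovZ.n2 (-29076, 5100) (by decide +kernel)
                  (CovZ.leaf K2_ok TB_l38921 _)
                  (CovZ.leaf K2_ok TB_l38922 _))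
                 (CovZ.leaf K2_ok TB_l38923 _)))
               (CovZ.n1 (-29016, 5112) (by decide +kernel)
                (CovZ.n2 (-29016, 5088) (by decide +kernel)
                 (CovZ.n2 (-29028, 5100) (by decide +kernel)
                  (CovZ.leaf K2_ok TB_l38924 _)
                  (CovZ.n1 (-29028, 5088) (by decide +kernel)
                   (CovZ.leaf K2_ok TB_l38925 _)
                   (CovZ.leaf K2_ok TB_l38926 _)))
                 (CovZ.n1 (-29004, 5100) (by decide +kernel)
                  (CovZ.leaf K2_ok TB_l38927 _)
                  (CovZ.leaf K2_ok TB_l38928 _)))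
                (CovZ.n1 (-29040, 5112) (by decide +kernel)
                 (CovZ.n2 (-29028, 5124) (by decide +kernel)
                  (CovZ.leaf K2_ok TB_l38929 _)
                  (CovZ.leaf K2_ok TB_l38930 _))
                 (CovZ.n1 (-29028, 5100) (by decide +kernel)
                  (CovZ.leaf K2_ok TB_l38931 _)
                  (CovZ.n1 (-29028, 5112) (by decide +kernel)
                   (CovZ.leaf K2_ok TB_l38932 _)
                   (CovZ.leaf K2_ok TB_l38933 _)))))))))
           (CovZ.subM 5043457394365394529273023472525446427822761246459444405417777633112447377506578221833452154884427037719382798291173376 (by decide +kernel)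
            (CovZ.n1 (-29088, 4992) (by decide +kernel)
             (CovZ.n2 (-29136, 5040) (by decide +kernel)
              (CovZ.n2 (-29088, 5040) (by decide +kernel)
               (CovZ.badM (by decide +kernel))
               (CovZ.n1 (-29112, 5064) (by decide +kernel)
                (CovZ.n2 (-29088, 5064) (by decide +kernel)
                 (CovZ.n2 (-29100, 5052) (by decide +kernel)
                  (CovZ.n2 (-29100, 5064) (by decide +kernel)
                   (CovZ.leaf K2_ok TB_l38934 _)
                   (CovZ.leaf K2_ok TB_l38935 _))
                  (CovZ.n1 (-29088, 5052) (by decide +kernel)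
                   (CovZ.badM (by decide +kernel))
                   (CovZ.leaf K2_ok TB_l38936 _)))
                 (CovZ.n1 (-29100, 5076) (by decide +kernel)
                  (CovZ.leaf K2_ok TB_l38937 _)
                  (CovZ.n1 (-29100, 5064) (by decide +kernel)
                   (CovZ.leaf K2_ok TB_l38938 _)
                   (CovZ.leaf K2_ok TB_l38939 _))))
                (CovZ.n1 (-29112, 5040) (by decide +kernel)
                 (CovZ.n2 (-29124, 5052) (by decide +kernel)
                  (CovZ.n2 (-29112, 5052) (by decide +kernel)
                   (CovZ.badM (by decide +kernel))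
                   (CovZ.leaf K2_ok TB_l38940 _))
                  (CovZ.badM (by decide +kernel)))
                 (CovZ.n1 (-29100, 5052) (by decide +kernel)
                  (CovZ.badM (by decide +kernel))
                  (CovZ.n1 (-29112, 5052) (by decide +kernel)
                   (CovZ.leaf K2_ok TB_l38941 _)
                   (CovZ.badM (by decide +kernel)))))))
              (CovZ.badM (by decide +kernel)))
             (CovZ.n1 (-29040, 5040) (by decide +kernel)
              (CovZ.badM (by decide +kernel))
              (CovZ.n1 (-29088, 5040) (by decide +kernel)
               (CovZ.n2 (-29064, 5064) (by decide +kernel)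
                (CovZ.badM (by decide +kernel))
                (CovZ.n1 (-29088, 5064) (by decide +kernel)
                 (CovZ.n2 (-29076, 5076) (by decide +kernel)
                  (CovZ.n2 (-29076, 5064) (by decide +kernel)
                   (CovZ.leaf K2_ok TB_l38942 _)
                   (CovZ.leaf K2_ok TB_l38943 _))
                  (CovZ.leaf K2_ok TB_l38944 _))
                 (CovZ.n1 (-29076, 5052) (by decide +kernel)
                  (CovZ.n2 (-29088, 5052) (by decide +kernel)
                   (CovZ.leaf K2_ok TB_l38945 _)
                   (CovZ.badM (by decide +kernel)))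
                  (CovZ.n1 (-29076, 5064) (by decide +kernel)
                   (CovZ.badM (by decide +kernel))
                   (CovZ.n1 (-29082, 5058) (by decide +kernel)
                    (CovZ.leaf K2_ok TB_l38946 _)
                    (CovZ.badM (by decide +kernel)))))))
               (CovZ.badM (by decide +kernel)))))))

end Pool.Agent.TET
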