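import Pool.Agent.Helper38_TET.TB_M
import Pool.Agent.Helper38_TET.TB_L
import Pool.Agent.Helper38_TET.TB_51
import Pool.Agent.Helper38_TET.TB_52
import Pool.Agent.Helper38_TET.TB_53
import Pool.Agent.Helper38_TET.TB_73
import Pool.Agent.Helper38_TET.TB_83
import Pool.Agent.Helper38_TET.TB_84
import Pool.Agent.Helper38_TET.TB_105
import Pool.Agent.Helper38_TET.TB_106
import Pool.Agent.Helper38_TET.TB_259
import Pool.Agent.Helper38_TET.TB_260
import Pool.Agent.Helper38_TET.TB_261
import Pool.Agent.Helper38_TET.TB_264
import Pool.Agent.Helper38_TET.TB_266
import Pool.Agent.Helper38_TET.TB_267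
import Pool.Agent.Helper38_TET.TB_270
import Pool.Agent.Helper38_TET.TB_323
import Pool.Agent.Helper38_TET.TB_325
import Pool.Agent.Helper38_TET.TB_U10

/-!
# MP_c7c9bf_co: certificates, family TB
-/

set_option autoImplicit false
set_option maxRecDepth 100000

namespace Pool.Agent.TET

theorem TB_u162 : CovZ TB_M (toL (selN TB_LN 5043457394365394529273023472525447399157207359323979871730752412707595483673531079102108818697736526817651986749456384)) [0, 7, 6, 1] (-28992, 4992) (-28800, 4992) (-28992, 5184) :=
    (CovZ.n1 (-28896, 5088) (by decide +kernel)
           (CovZ.badM (by decide +kernel))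
           (CovZ.n1 (-28992, 5088) (by decide +kernel)
            (CovZ.n2 (-28944, 5136) (by decide +kernel)
             (CovZ.subM 5043456793138493339171717132818413649752482238284711884887893870596826358601449710389700306225325209303449678224818176 (by decide +kernel)
              (CovZ.n2 (-28944, 5088) (by decide +kernel)
               (CovZ.n2 (-28968, 5112) (by decide +kernel)
                (CovZ.n2 (-28944, 5112) (by decide +kernel)
                 (CovZ.n2 (-28956, 5100) (by decide +kernel)
                  (CovZ.n2 (-28956, 5112) (by decide +kernel)
                   (CovZ.leaf K2_ok TB_l38947 _)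
                   (CovZ.leaf K2_ok TB_l38948 _))
                  (CovZ.leaf K2_ok TB_l38949 _))
                 (CovZ.n1 (-28956, 5124) (by decide +kernel)
                  (CovZ.leaf K2_ok TB_l38950 _)
                  (CovZ.n1 (-28956, 5112) (by decide +kernel)
                   (CovZ.leaf K2_ok TB_l38951 _)
                   (CovZ.leaf K2_ok TB_l38952 _))))
                (CovZ.subM 5043456793138493339171717132818413649752482238284711884887890732045958665261067792494988702392117158125727446198124544 (by decide +kernel)
                 (CovZ.n1 (-28968, 5088) (by decide +kernel)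
                  (CovZ.n2 (-28980, 5100) (by decide +kernel)
                   (CovZ.leaf K2_ok TB_l38953 _)
                   (CovZ.leaf K2_ok TB_l38954 _))
                  (CovZ.n1 (-28956, 5100) (by decide +kernel)
                   (CovZ.n2 (-28956, 5088) (by decide +kernel)
                    (CovZ.leaf K2_ok TB_l38955 _)
                    (CovZ.leaf K2_ok TB_l38956 _))
                   (CovZ.leaf K2_ok TB_l38957 _)))))
               (CovZ.n1 (-28920, 5112) (by decide +kernel)
                (CovZ.subM 5043456793138493339171717132818413649752482238284711884887890732045958665261067792494988702392117158125727446198124544 (by decide +kernel)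
                 (CovZ.n2 (-28920, 5088) (by decide +kernel)
                  (CovZ.n2 (-28932, 5100) (by decide +kernel)
                   (CovZ.leaf K2_ok TB_l38958 _)
                   (CovZ.leaf K2_ok TB_l38959 _))
                  (CovZ.n1 (-28908, 5100) (by decide +kernel)
                   (CovZ.n2 (-28908, 5088) (by decide +kernel)
                    (CovZ.leaf K2_ok TB_l38960 _)
                    (CovZ.leaf K2_ok TB_l38961 _))
                   (CovZ.leaf K2_ok TB_l38962 _))))
                (CovZ.n1 (-28944, 5112) (by decide +kernel)
                 (CovZ.n2 (-28932, 5124) (by decide +kernel)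
                  (CovZ.leaf K2_ok TB_l38963 _)
                  (CovZ.leaf K2_ok TB_l38964 _))
                 (CovZ.n1 (-28932, 5100) (by decide +kernel)
                  (CovZ.leaf K2_ok TB_l38965 _)
                  (CovZ.n1 (-28932, 5112) (by decide +kernel)
                   (CovZ.leaf K2_ok TB_l38966 _)
                   (CovZ.leaf K2_ok TB_l38967 _)))))))
             (CovZ.n1 (-28992, 5136) (by decide +kernel)
              (CovZ.n2 (-28968, 5160) (by decide +kernel)
               (CovZ.n2 (-28968, 5136) (by decide +kernel)
                (CovZ.leaf K2_ok TB_l38968 _)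
                (CovZ.n1 (-28956, 5148) (by decide +kernel)
                 (CovZ.leaf K2_ok TB_l38969 _)
                 (CovZ.leaf K2_ok TB_l38970 _)))
               (CovZ.leaf K2_ok TB_l7796 _))
              (CovZ.subM 5043456793138493339171717132818413649752482238284711884887893870596826358601449710389700306225325209303449678224818176 (by decide +kernel)
               (CovZ.n1 (-28968, 5112) (by decide +kernel)
                (CovZ.n2 (-28992, 5112) (by decide +kernel)
                 (CovZ.leaf K2_ok TB_l38971 _)
                 (CovZ.n1 (-28980, 5100) (by decide +kernel)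
                  (CovZ.leaf K2_ok TB_l38972 _)
                  (CovZ.leaf K2_ok TB_l38973 _)))
                (CovZ.n1 (-28968, 5136) (by decide +kernel)
                 (CovZ.n2 (-28956, 5124) (by decide +kernel)
                  (CovZ.leaf K2_ok TB_l38974 _)
                  (CovZ.leaf K2_ok TB_l38975 _))
                 (CovZ.leaf K2_ok TB_l38976 _))))))
            (CovZ.subM 31082702275611665134711390509176302506278509424834232664547552214249195346439356547072 (by decide +kernel)
             (CovZ.n1 (-28944, 5040) (by decide +kernel)
              (CovZ.n2 (-28992, 5040) (by decide +kernel)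
               (CovZ.n2 (-28968, 5064) (by decide +kernel)
                (CovZ.badM (by decide +kernel))
                (CovZ.n1 (-28992, 5064) (by decide +kernel)
                 (CovZ.n2 (-28980, 5076) (by decide +kernel)
                  (CovZ.badM (by decide +kernel))
                  (CovZ.leaf K2_ok TB_l38977 _))
                 (CovZ.badM (by decide +kernel))))
               (CovZ.badM (by decide +kernel)))
              (CovZ.n1 (-28944, 5088) (by decide +kernel)
               (CovZ.n2 (-28920, 5064) (by decide +kernel)
                (CovZ.n2 (-28944, 5064) (by decide +kernel)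
                 (CovZ.n2 (-28932, 5076) (by decide +kernel)
                  (CovZ.badM (by decide +kernel))
                  (CovZ.leaf K2_ok TB_l38978 _))
                 (CovZ.badM (by decide +kernel)))
                (CovZ.n1 (-28920, 5088) (by decide +kernel)
                 (CovZ.n2 (-28908, 5076) (by decide +kernel)
                  (CovZ.leaf K2_ok TB_l38979 _)
                  (CovZ.n1 (-28908, 5088) (by decide +kernel)
                   (CovZ.leaf K2_ok TB_l38980 _)
                   (CovZ.leaf K2_ok TB_l38981 _)))
                 (CovZ.n1 (-28932, 5076) (by decide +kernel)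
                  (CovZ.n2 (-28932, 5088) (by decide +kernel)
                   (CovZ.leaf K2_ok TB_l38982 _)
                   (CovZ.n1 (-28938, 5082) (by decide +kernel)
                    (CovZ.leaf K2_ok TB_l38983 _)
                    (CovZ.leaf K2_ok TB_l38984 _)))
                  (CovZ.n1 (-28920, 5076) (by decide +kernel)
                   (CovZ.badM (by decide +kernel))
                   (CovZ.n1 (-28926, 5082) (by decide +kernel)
                    (CovZ.leaf K2_ok TB_l38985 _)
                    (CovZ.badM (by decide +kernel)))))))
               (CovZ.n1 (-28968, 5064) (by decide +kernel)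
                (CovZ.n2 (-28968, 5088) (by decide +kernel)
                 (CovZ.n2 (-28956, 5076) (by decide +kernel)
                  (CovZ.leaf K2_ok TB_l38986 _)
                  (CovZ.n1 (-28956, 5088) (by decide +kernel)
                   (CovZ.leaf K2_ok TB_l38987 _)
                   (CovZ.leaf K2_ok TB_l38988 _)))
                 (CovZ.n1 (-28980, 5076) (by decide +kernel)
                  (CovZ.n2 (-28980, 5088) (by decide +kernel)
                   (CovZ.leaf K2_ok TB_l38989 _)
                   (CovZ.leaf K2_ok TB_l38990 _))
                  (CovZ.leaf K2_ok TB_l38991 _)))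
                (CovZ.n1 (-28944, 5064) (by decide +kernel)
                 (CovZ.badM (by decide +kernel))
                 (CovZ.n1 (-28956, 5076) (by decide +kernel)
                  (CovZ.n2 (-28944, 5076) (by decide +kernel)
                   (CovZ.badM (by decide +kernel))
                   (CovZ.n1 (-28950, 5082) (by decide +kernel)
                    (CovZ.leaf K2_ok TB_l38992 _)
                    (CovZ.leaf K2_ok TB_l38993 _)))
                  (CovZ.badM (by decide +kernel))))))))))

theorem TB_u163 : CovZ TB_M (toL (selN TB_LN 5043457394365394529273025558466201509236072870761337087556544488321139080548932433169195523133568423203720972821856256)) [0, 7, 6, 1] (-29184, 5376) (-29184, 5184) (-28992, 5184) :=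
    (CovZ.n2 (-29088, 5280) (by decide +kernel)
          (CovZ.n2 (-29088, 5184) (by decide +kernel)
           (CovZ.n2 (-29136, 5232) (by decide +kernel)
            (CovZ.n2 (-29088, 5232) (by decide +kernel)
             (CovZ.n2 (-29112, 5208) (by decide +kernel)
              (CovZ.leaf K2_ok TB_l7797 _)
              (CovZ.leaf K2_ok TB_l7798 _))
             (CovZ.leaf K2_ok TB_l7799 _))
            (CovZ.subM 5043457394365394529273023472525447399157207359323979924386898246986194678639094244548997792884615092224286237635117056 (by decide +kernel)
             (CovZ.n1 (-29136, 5184) (by decide +kernel)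
              (CovZ.n2 (-29160, 5208) (by decide +kernel)
               (CovZ.leaf K2_ok TB_l7800 _)
               (CovZ.leaf K2_ok TB_l7801 _))
              (CovZ.n1 (-29112, 5208) (by decide +kernel)
               (CovZ.n2 (-29112, 5184) (by decide +kernel)
                (CovZ.leaf K2_ok TB_l7802 _)
                (CovZ.leaf K2_ok TB_l7803 _))
               (CovZ.leaf K2_ok TB_l7804 _)))))
           (CovZ.subM 5043456793138493339171717132834327993317595410833684176066756201043464319012404754291734080162382307609717415007485952 (by decide +kernel)
            (CovZ.n1 (-29040, 5232) (by decide +kernel)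
             (CovZ.n2 (-29040, 5184) (by decide +kernel)
              (CovZ.n2 (-29064, 5208) (by decide +kernel)
               (CovZ.leaf K2_ok TB_l7805 _)
               (CovZ.n1 (-29064, 5184) (by decide +kernel)
                (CovZ.leaf K2_ok TB_l7806 _)
                (CovZ.leaf K2_ok TB_l7807 _)))
              (CovZ.n1 (-29016, 5208) (by decide +kernel)
               (CovZ.n2 (-29016, 5184) (by decide +kernel)
                (CovZ.leaf K2_ok TB_l7808 _)
                (CovZ.leaf K2_ok TB_l7809 _))
               (CovZ.leaf K2_ok TB_l7810 _)))
             (CovZ.n1 (-29088, 5232) (by decide +kernel)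
              (CovZ.n2 (-29064, 5256) (by decide +kernel)
               (CovZ.leaf K2_ok TB_l7811 _)
               (CovZ.leaf K2_ok TB_l7812 _))
              (CovZ.n1 (-29064, 5208) (by decide +kernel)
               (CovZ.leaf K2_ok TB_l7813 _)
               (CovZ.n1 (-29064, 5232) (by decide +kernel)
                (CovZ.leaf K2_ok TB_l7814 _)
                (CovZ.leaf K2_ok TB_l7815 _)))))))
          (CovZ.n1 (-29184, 5280) (by decide +kernel)
           (CovZ.n2 (-29136, 5328) (by decide +kernel)
            (CovZ.n2 (-29136, 5280) (by decide +kernel)
             (CovZ.leaf K2_ok TB_l7816 _)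
             (CovZ.leaf K2_ok TB_l7817 _))
            (CovZ.leaf K2_ok TB_l7818 _))
           (CovZ.n1 (-29136, 5232) (by decide +kernel)
            (CovZ.n2 (-29184, 5232) (by decide +kernel)
             (CovZ.leaf K2_ok TB_l7819 _)
             (CovZ.n1 (-29160, 5208) (by decide +kernel)
              (CovZ.leaf K2_ok TB_l7820 _)
              (CovZ.leaf K2_ok TB_l7821 _)))
            (CovZ.n1 (-29136, 5280) (by decide +kernel)
             (CovZ.leaf K2_ok TB_l7822 _)
             (CovZ.leaf K2_ok TB_l7823 _)))))

theorem TB_u164 : CovZ TB_M (toL (selN TB_LN 5043457394365394529273025558466201509236072870761337087556544488321139080548932433169195523133568423203720972821856256)) [0, 7, 6, 1] (-29184, 5184) (-29184, 4992) (-28992, 5184) :=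
    (CovZ.subM 5043457394365394529273023472525447399157207359323979924386898246986188832632544920937324978145284227092207613904945152 (by decide +kernel)
          (CovZ.n1 (-29088, 5088) (by decide +kernel)
           (CovZ.n2 (-29184, 5088) (by decide +kernel)
            (CovZ.n2 (-29136, 5136) (by decide +kernel)
             (CovZ.n2 (-29136, 5088) (by decide +kernel)
              (CovZ.n2 (-29160, 5112) (by decide +kernel)
               (CovZ.n2 (-29136, 5112) (by decide +kernel)
                (CovZ.leaf K2_ok TB_l38994 _)
                (CovZ.leaf K2_ok TB_l7824 _))
               (CovZ.n1 (-29160, 5088) (by decide +kernel)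
                (CovZ.n2 (-29172, 5100) (by decide +kernel)
                 (CovZ.leaf K2_ok TB_l38995 _)
                 (CovZ.leaf K2_ok TB_l38996 _))
                (CovZ.leaf K2_ok TB_l38997 _)))
              (CovZ.subM 5043456793138493339171717132818413649752482238284711884887893870596826358601449710389700306225325209303449678224818176 (by decide +kernel)
               (CovZ.n1 (-29112, 5112) (by decide +kernel)
                (CovZ.n2 (-29112, 5088) (by decide +kernel)
                 (CovZ.n2 (-29124, 5100) (by decide +kernel)
                  (CovZ.leaf K2_ok TB_l38998 _)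
                  (CovZ.leaf K2_ok TB_l38999 _))
                 (CovZ.n1 (-29100, 5100) (by decide +kernel)
                  (CovZ.leaf K2_ok TB_l39000 _)
                  (CovZ.leaf K2_ok TB_l39001 _)))
                (CovZ.n1 (-29136, 5112) (by decide +kernel)
                 (CovZ.leaf K2_ok TB_l7825 _)
                 (CovZ.leaf K2_ok TB_l39002 _)))))
             (CovZ.n1 (-29184, 5136) (by decide +kernel)
              (CovZ.n2 (-29160, 5160) (by decide +kernel)
               (CovZ.n2 (-29160, 5136) (by decide +kernel)
                (CovZ.leaf K2_ok TB_l7826 _)
                (CovZ.leaf K2_ok TB_l7827 _))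
               (CovZ.leaf K2_ok TB_l7828 _))
              (CovZ.n1 (-29160, 5112) (by decide +kernel)
               (CovZ.n2 (-29184, 5112) (by decide +kernel)
                (CovZ.leaf K2_ok TB_l7829 _)
                (CovZ.leaf K2_ok TB_l39003 _))
               (CovZ.n1 (-29160, 5136) (by decide +kernel)
                (CovZ.leaf K2_ok TB_l7830 _)
                (CovZ.leaf K2_ok TB_l7831 _)))))
            (CovZ.subM 5043457394365394529273023472525446427822761246459444405417777633112450300509852883639288562254092470285422110164647936 (by decide +kernel)
             (CovZ.n1 (-29136, 5040) (by decide +kernel)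
              (CovZ.n2 (-29184, 5040) (by decide +kernel)
               (CovZ.n2 (-29160, 5064) (by decide +kernel)
                (CovZ.subM 5043457394365394529273023472525415345120485634794309694027268456809941098997153387601112125885871215250819514955202560 (by decide +kernel)
                 (CovZ.n2 (-29160, 5040) (by decide +kernel)
                  (CovZ.n2 (-29172, 5052) (by decide +kernel)
                   (CovZ.n2 (-29160, 5052) (by decide +kernel)
                    (CovZ.leaf K2_ok TB_l48506 _)
                    (CovZ.n1 (-29166, 5058) (by decide +kernel)
                     (CovZ.leaf K2_ok TB_l39004 _)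
                     (CovZ.leaf K2_ok TB_l39005 _)))
                   (CovZ.n1 (-29172, 5040) (by decide +kernel)
                    (CovZ.n2 (-29178, 5046) (by decide +kernel)
                     (CovZ.leaf K2_ok TB_l48507 _)
                     (CovZ.leaf K2_ok TB_l48508 _))
                    (CovZ.n1 (-29166, 5046) (by decide +kernel)
                     (CovZ.n2 (-29166, 5040) (by decide +kernel)
                      (CovZ.leaf K2_ok TB_l48509 _)
                      (CovZ.leaf K2_ok TB_l48510 _))
                     (CovZ.leaf K2_ok TB_l48511 _))))
                  (CovZ.n1 (-29148, 5052) (by decide +kernel)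
                   (CovZ.n2 (-29148, 5040) (by decide +kernel)
                    (CovZ.n2 (-29154, 5046) (by decide +kernel)
                     (CovZ.leaf K2_ok TB_l48512 _)
                     (CovZ.leaf K2_ok TB_l48513 _))
                    (CovZ.n1 (-29142, 5046) (by decide +kernel)
                     (CovZ.badM (by decide +kernel))
                     (CovZ.leaf K2_ok TB_l48514 _)))
                   (CovZ.n1 (-29160, 5052) (by decide +kernel)
                    (CovZ.leaf K2_ok TB_l39006 _)
                    (CovZ.leaf K2_ok TB_l48515 _)))))
                (CovZ.n1 (-29184, 5064) (by decide +kernel)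
                 (CovZ.n2 (-29172, 5076) (by decide +kernel)
                  (CovZ.leaf K2_ok TB_l39007 _)
                  (CovZ.leaf K2_ok TB_l39008 _))
                 (CovZ.n1 (-29172, 5052) (by decide +kernel)
                  (CovZ.leaf K2_ok TB_l39009 _)
                  (CovZ.n1 (-29172, 5064) (by decide +kernel)
                   (CovZ.leaf K2_ok TB_l39010 _)
                   (CovZ.leaf K2_ok TB_l39011 _)))))
               (CovZ.subM 5043456793138493339171717132818382567050206626619577173497381555743452386751642958261026080625269202023248382759272448 (by decide +kernel)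
                (CovZ.n1 (-29160, 5016) (by decide +kernel)
                 (CovZ.n2 (-29184, 5016) (by decide +kernel)
                  (CovZ.n2 (-29172, 5028) (by decide +kernel)
                   (CovZ.badM (by decide +kernel))
                   (CovZ.n1 (-29184, 5028) (by decide +kernel)
                    (CovZ.leaf K2_ok TB_l48516 _)
                    (CovZ.badM (by decide +kernel))))
                  (CovZ.badM (by decide +kernel)))
                 (CovZ.n1 (-29160, 5040) (by decide +kernel)
                  (CovZ.badM (by decide +kernel))
                  (CovZ.n1 (-29172, 5028) (by decide +kernel)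
                   (CovZ.n2 (-29172, 5040) (by decide +kernel)
                    (CovZ.badM (by decide +kernel))
                    (CovZ.leaf K2_ok TB_l48517 _))
                   (CovZ.badM (by decide +kernel)))))))
              (CovZ.n1 (-29136, 5088) (by decide +kernel)
               (CovZ.subM 5043456793138493339171717132818413649752482238284711884887890732045958665261067792493690628177483451218594822115819520 (by decide +kernel)
                (CovZ.n2 (-29112, 5064) (by decide +kernel)
                 (CovZ.n2 (-29136, 5064) (by decide +kernel)
                  (CovZ.n2 (-29124, 5076) (by decide +kernel)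
                   (CovZ.leaf K2_ok TB_l39012 _)
                   (CovZ.leaf K2_ok TB_l39013 _))
                  (CovZ.n1 (-29124, 5052) (by decide +kernel)
                   (CovZ.n2 (-29136, 5052) (by decide +kernel)
                    (CovZ.leaf K2_ok TB_l39014 _)
                    (CovZ.leaf K2_ok TB_l48518 _))
                   (CovZ.n1 (-29124, 5064) (by decide +kernel)
                    (CovZ.leaf K2_ok TB_l39015 _)
                    (CovZ.leaf K2_ok TB_l39016 _))))
                 (CovZ.n1 (-29112, 5088) (by decide +kernel)
                  (CovZ.n2 (-29100, 5076) (by decide +kernel)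
                   (CovZ.leaf K2_ok TB_l39017 _)
                   (CovZ.n1 (-29100, 5088) (by decide +kernel)
                    (CovZ.leaf K2_ok TB_l39018 _)
                    (CovZ.leaf K2_ok TB_l39019 _)))
                  (CovZ.n1 (-29124, 5076) (by decide +kernel)
                   (CovZ.leaf K2_ok TB_l39020 _)
                   (CovZ.leaf K2_ok TB_l39021 _)))))
               (CovZ.n1 (-29160, 5064) (by decide +kernel)
                (CovZ.n2 (-29160, 5088) (by decide +kernel)
                 (CovZ.n2 (-29148, 5076) (by decide +kernel)
                  (CovZ.leaf K2_ok TB_l39022 _)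
                  (CovZ.leaf K2_ok TB_l39023 _))
                 (CovZ.leaf K2_ok TB_l39024 _))
                (CovZ.subM 5043456793138493339171717132818413649752482238284711884887890732045958665261067792493690628177483451218594822115819520 (by decide +kernel)
                 (CovZ.n1 (-29136, 5064) (by decide +kernel)
                  (CovZ.n2 (-29148, 5052) (by decide +kernel)
                   (CovZ.leaf K2_ok TB_l39025 _)
                   (CovZ.n1 (-29136, 5052) (by decide +kernel)
                    (CovZ.n2 (-29142, 5046) (by decide +kernel)
                     (CovZ.leaf K2_ok TB_l48519 _)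
                     (CovZ.leaf K2_ok TB_l48520 _))
                    (CovZ.n1 (-29142, 5058) (by decide +kernel)
                     (CovZ.leaf K2_ok TB_l39026 _)
                     (CovZ.leaf K2_ok TB_l39027 _))))
                  (CovZ.n1 (-29148, 5076) (by decide +kernel)
                   (CovZ.leaf K2_ok TB_l39028 _)
                   (CovZ.leaf K2_ok TB_l39029 _)))))))))
           (CovZ.n1 (-29088, 5184) (by decide +kernel)
            (CovZ.n2 (-29040, 5136) (by decide +kernel)
             (CovZ.n2 (-29088, 5136) (by decide +kernel)
              (CovZ.n2 (-29064, 5160) (by decide +kernel)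
               (CovZ.n2 (-29064, 5136) (by decide +kernel)
                (CovZ.leaf K2_ok TB_l7832 _)
                (CovZ.leaf K2_ok TB_l7833 _))
               (CovZ.n1 (-29088, 5160) (by decide +kernel)
                (CovZ.leaf K2_ok TB_l7834 _)
                (CovZ.leaf K2_ok TB_l7835 _)))
              (CovZ.subM 5043456793138493339171717132818413649752482238284711884887893870596826358601449710389700306225325209303449678224818176 (by decide +kernel)
               (CovZ.n1 (-29064, 5112) (by decide +kernel)
                (CovZ.n2 (-29088, 5112) (by decide +kernel)
                 (CovZ.leaf K2_ok TB_l39030 _)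
                 (CovZ.leaf K2_ok TB_l39031 _))
                (CovZ.n1 (-29064, 5136) (by decide +kernel)
                 (CovZ.leaf K2_ok TB_l39032 _)
                 (CovZ.leaf K2_ok TB_l39033 _)))))
             (CovZ.n1 (-29040, 5184) (by decide +kernel)
              (CovZ.n2 (-29016, 5160) (by decide +kernel)
               (CovZ.n2 (-29040, 5160) (by decide +kernel)
                (CovZ.leaf K2_ok TB_l7836 _)
                (CovZ.leaf K2_ok TB_l7837 _))
               (CovZ.n1 (-29016, 5184) (by decide +kernel)
                (CovZ.leaf K2_ok TB_l7838 _)
                (CovZ.leaf K2_ok TB_l7839 _)))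
              (CovZ.n1 (-29064, 5160) (by decide +kernel)
               (CovZ.n2 (-29064, 5184) (by decide +kernel)
                (CovZ.leaf K2_ok TB_l7840 _)
                (CovZ.leaf K2_ok TB_l7841 _))
               (CovZ.leaf K2_ok TB_l7842 _))))
            (CovZ.n1 (-29136, 5136) (by decide +kernel)
             (CovZ.n2 (-29136, 5184) (by decide +kernel)
              (CovZ.n2 (-29112, 5160) (by decide +kernel)
               (CovZ.leaf K2_ok TB_l7843 _)
               (CovZ.n1 (-29112, 5184) (by decide +kernel)
                (CovZ.leaf K2_ok TB_l7844 _)
                (CovZ.leaf K2_ok TB_l7845 _)))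
              (CovZ.n1 (-29160, 5160) (by decide +kernel)
               (CovZ.leaf K2_ok TB_l7846 _)
               (CovZ.leaf K2_ok TB_l7847 _)))
             (CovZ.n1 (-29088, 5136) (by decide +kernel)
              (CovZ.subM 5043456793138493339171717132818413649752482238284711884887893870596826358601449710389700306225325209303449678224818176 (by decide +kernel)
               (CovZ.n2 (-29112, 5112) (by decide +kernel)
                (CovZ.n2 (-29112, 5136) (by decide +kernel)
                 (CovZ.n2 (-29100, 5124) (by decide +kernel)
                  (CovZ.leaf K2_ok TB_l39034 _)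
                  (CovZ.leaf K2_ok TB_l39035 _))
                 (CovZ.leaf K2_ok TB_l7848 _))
                (CovZ.n1 (-29088, 5112) (by decide +kernel)
                 (CovZ.n2 (-29100, 5100) (by decide +kernel)
                  (CovZ.leaf K2_ok TB_l39036 _)
                  (CovZ.leaf K2_ok TB_l39037 _))
                 (CovZ.n1 (-29100, 5124) (by decide +kernel)
                  (CovZ.leaf K2_ok TB_l39038 _)
                  (CovZ.leaf K2_ok TB_l39039 _)))))
              (CovZ.n1 (-29112, 5160) (by decide +kernel)
               (CovZ.n2 (-29088, 5160) (by decide +kernel)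
                (CovZ.leaf K2_ok TB_l7849 _)
                (CovZ.leaf K2_ok TB_l7850 _))
               (CovZ.n1 (-29112, 5136) (by decide +kernel)
                (CovZ.leaf K2_ok TB_l7851 _)
                (CovZ.leaf K2_ok TB_l7852 _))))))))

theorem TB_u165 : CovZ TB_M (toL (selN TB_LN 5043456793138493339171717132834327993317595410833684176066756201043464319012404754291734080162382307609717415007485952)) [0, 7, 6, 1] (-28800, 5376) (-28800, 5184) (-28608, 5184) :=
    (CovZ.n2 (-28704, 5280) (by decide +kernel)
           (CovZ.n2 (-28704, 5184) (by decide +kernel)
            (CovZ.n2 (-28752, 5232) (by decide +kernel)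
             (CovZ.n2 (-28704, 5232) (by decide +kernel)
              (CovZ.n2 (-28728, 5208) (by decide +kernel)
               (CovZ.n2 (-28728, 5232) (by decide +kernel)
                (CovZ.leaf K2_ok TB_l7853 _)
                (CovZ.leaf K2_ok TB_l7854 _))
               (CovZ.n1 (-28704, 5208) (by decide +kernel)
                (CovZ.leaf K2_ok TB_l7855 _)
                (CovZ.leaf K2_ok TB_l7856 _)))
              (CovZ.n1 (-28728, 5256) (by decide +kernel)
               (CovZ.leaf K2_ok TB_l7857 _)
               (CovZ.leaf K2_ok TB_l7858 _)))
             (CovZ.n1 (-28752, 5184) (by decide +kernel)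
              (CovZ.n2 (-28776, 5208) (by decide +kernel)
               (CovZ.leaf K2_ok TB_l7859 _)
               (CovZ.n1 (-28776, 5184) (by decide +kernel)
                (CovZ.leaf K2_ok TB_l7860 _)
                (CovZ.leaf K2_ok TB_l7861 _)))
              (CovZ.n1 (-28728, 5208) (by decide +kernel)
               (CovZ.n2 (-28728, 5184) (by decide +kernel)
                (CovZ.leaf K2_ok TB_l7862 _)
                (CovZ.leaf K2_ok TB_l7863 _))
               (CovZ.leaf K2_ok TB_l7864 _))))
            (CovZ.n1 (-28656, 5232) (by decide +kernel)
             (CovZ.n2 (-28656, 5184) (by decide +kernel)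
              (CovZ.n2 (-28680, 5208) (by decide +kernel)
               (CovZ.n2 (-28656, 5208) (by decide +kernel)
                (CovZ.leaf K2_ok TB_l39040 _)
                (CovZ.leaf K2_ok TB_l7865 _))
               (CovZ.n1 (-28680, 5184) (by decide +kernel)
                (CovZ.leaf K2_ok TB_l39041 _)
                (CovZ.leaf K2_ok TB_l39042 _)))
              (CovZ.n1 (-28632, 5208) (by decide +kernel)
               (CovZ.n2 (-28632, 5184) (by decide +kernel)
                (CovZ.leaf K2_ok TB_l39043 _)
                (CovZ.leaf K2_ok TB_l39044 _))
               (CovZ.n1 (-28656, 5208) (by decide +kernel)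
                (CovZ.leaf K2_ok TB_l7866 _)
                (CovZ.leaf K2_ok TB_l39045 _))))
             (CovZ.n1 (-28704, 5232) (by decide +kernel)
              (CovZ.n2 (-28680, 5256) (by decide +kernel)
               (CovZ.n2 (-28680, 5232) (by decide +kernel)
                (CovZ.leaf K2_ok TB_l7867 _)
                (CovZ.leaf K2_ok TB_l7868 _))
               (CovZ.leaf K2_ok TB_l7869 _))
              (CovZ.n1 (-28680, 5208) (by decide +kernel)
               (CovZ.n2 (-28704, 5208) (by decide +kernel)
                (CovZ.leaf K2_ok TB_l7870 _)
                (CovZ.n1 (-28692, 5196) (by decide +kernel)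
                 (CovZ.leaf K2_ok TB_l39046 _)
                 (CovZ.leaf K2_ok TB_l39047 _)))
               (CovZ.n1 (-28680, 5232) (by decide +kernel)
                (CovZ.leaf K2_ok TB_l7871 _)
                (CovZ.leaf K2_ok TB_l7872 _))))))
           (CovZ.n1 (-28800, 5280) (by decide +kernel)
            (CovZ.n2 (-28752, 5328) (by decide +kernel)
             (CovZ.n2 (-28752, 5280) (by decide +kernel)
              (CovZ.leaf K2_ok TB_l7873 _)
              (CovZ.leaf K2_ok TB_l7874 _))
             (CovZ.n1 (-28800, 5328) (by decide +kernel)
              (CovZ.leaf K2_ok TB_l7875 _)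
              (CovZ.n1 (-28776, 5304) (by decide +kernel)
               (CovZ.leaf K2_ok TB_l7876 _)
               (CovZ.leaf K2_ok TB_l7877 _))))
            (CovZ.n1 (-28752, 5232) (by decide +kernel)
             (CovZ.n2 (-28800, 5232) (by decide +kernel)
              (CovZ.n2 (-28776, 5256) (by decide +kernel)
               (CovZ.leaf K2_ok TB_l7878 _)
               (CovZ.leaf K2_ok TB_l7879 _))
              (CovZ.n1 (-28776, 5208) (by decide +kernel)
               (CovZ.leaf K2_ok TB_l7880 _)
               (CovZ.n1 (-28776, 5232) (by decide +kernel)
                (CovZ.leaf K2_ok TB_l7881 _)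
                (CovZ.leaf K2_ok TB_l7882 _))))
             (CovZ.n1 (-28752, 5280) (by decide +kernel)
              (CovZ.n2 (-28728, 5256) (by decide +kernel)
               (CovZ.leaf K2_ok TB_l7883 _)
               (CovZ.leaf K2_ok TB_l7884 _))
              (CovZ.n1 (-28776, 5256) (by decide +kernel)
               (CovZ.leaf K2_ok TB_l7885 _)
               (CovZ.leaf K2_ok TB_l7886 _))))))

theorem TB_u166 : CovZ TB_M (toL (selN TB_LN 5043456793138493339171717132834327993317595410833684176066756201043464319012404754291734080162382307609717415007485952)) [0, 7, 6, 1] (-28800, 5184) (-28800, 4992) (-28608, 5184) :=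
    (CovZ.n1 (-28704, 5088) (by decide +kernel)
           (CovZ.n2 (-28800, 5088) (by decide +kernel)
            (CovZ.n2 (-28752, 5136) (by decide +kernel)
             (CovZ.subM 31082702275611665134711390512314853373971849806752128674225600056007280201295456108544 (by decide +kernel)
              (CovZ.n2 (-28752, 5088) (by decide +kernel)
               (CovZ.n2 (-28776, 5112) (by decide +kernel)
                (CovZ.n2 (-28752, 5112) (by decide +kernel)
                 (CovZ.n2 (-28764, 5100) (by decide +kernel)
                  (CovZ.n2 (-28764, 5112) (by decide +kernel)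
                   (CovZ.leaf K2_ok TB_l39048 _)
                   (CovZ.leaf K2_ok TB_l39049 _))
                  (CovZ.n1 (-28752, 5100) (by decide +kernel)
                   (CovZ.leaf K2_ok TB_l39050 _)
                   (CovZ.leaf K2_ok TB_l39051 _)))
                 (CovZ.n1 (-28764, 5124) (by decide +kernel)
                  (CovZ.n2 (-28752, 5124) (by decide +kernel)
                   (CovZ.leaf K2_ok TB_l39052 _)
                   (CovZ.leaf K2_ok TB_l39053 _))
                  (CovZ.n1 (-28764, 5112) (by decide +kernel)
                   (CovZ.leaf K2_ok TB_l39054 _)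
                   (CovZ.leaf K2_ok TB_l39055 _))))
                (CovZ.n1 (-28776, 5088) (by decide +kernel)
                 (CovZ.n2 (-28788, 5100) (by decide +kernel)
                  (CovZ.n2 (-28776, 5100) (by decide +kernel)
                   (CovZ.leaf K2_ok TB_l39056 _)
                   (CovZ.leaf K2_ok TB_l39057 _))
                  (CovZ.n1 (-28788, 5088) (by decide +kernel)
                   (CovZ.leaf K2_ok TB_l39058 _)
                   (CovZ.leaf K2_ok TB_l39059 _)))
                 (CovZ.n1 (-28764, 5100) (by decide +kernel)
                  (CovZ.n2 (-28764, 5088) (by decide +kernel)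
                   (CovZ.leaf K2_ok TB_l39060 _)
                   (CovZ.leaf K2_ok TB_l39061 _))
                  (CovZ.leaf K2_ok TB_l39062 _))))
               (CovZ.n1 (-28728, 5112) (by decide +kernel)
                (CovZ.n2 (-28728, 5088) (by decide +kernel)
                 (CovZ.n2 (-28740, 5100) (by decide +kernel)
                  (CovZ.n2 (-28728, 5100) (by decide +kernel)
                   (CovZ.leaf K2_ok TB_l39063 _)
                   (CovZ.leaf K2_ok TB_l39064 _))
                  (CovZ.n1 (-28740, 5088) (by decide +kernel)
                   (CovZ.leaf K2_ok TB_l39065 _)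
                   (CovZ.leaf K2_ok TB_l39066 _)))
                 (CovZ.n1 (-28716, 5100) (by decide +kernel)
                  (CovZ.n2 (-28716, 5088) (by decide +kernel)
                   (CovZ.leaf K2_ok TB_l39067 _)
                   (CovZ.leaf K2_ok TB_l39068 _))
                  (CovZ.leaf K2_ok TB_l39069 _)))
                (CovZ.n1 (-28752, 5112) (by decide +kernel)
                 (CovZ.n2 (-28740, 5124) (by decide +kernel)
                  (CovZ.n2 (-28740, 5112) (by decide +kernel)
                   (CovZ.leaf K2_ok TB_l39070 _)
                   (CovZ.leaf K2_ok TB_l39071 _))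
                  (CovZ.leaf K2_ok TB_l39072 _))
                 (CovZ.n1 (-28740, 5100) (by decide +kernel)
                  (CovZ.leaf K2_ok TB_l39073 _)
                  (CovZ.n1 (-28740, 5112) (by decide +kernel)
                   (CovZ.leaf K2_ok TB_l39074 _)
                   (CovZ.leaf K2_ok TB_l39075 _)))))))
             (CovZ.n1 (-28800, 5136) (by decide +kernel)
              (CovZ.n2 (-28776, 5160) (by decide +kernel)
               (CovZ.n2 (-28776, 5136) (by decide +kernel)
                (CovZ.n2 (-28788, 5148) (by decide +kernel)
                 (CovZ.leaf K2_ok TB_l39076 _)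
                 (CovZ.leaf K2_ok TB_l39077 _))
                (CovZ.leaf K2_ok TB_l39078 _))
               (CovZ.n1 (-28800, 5160) (by decide +kernel)
                (CovZ.leaf K2_ok TB_l7887 _)
                (CovZ.n1 (-28788, 5148) (by decide +kernel)
                 (CovZ.leaf K2_ok TB_l39079 _)
                 (CovZ.leaf K2_ok TB_l39080 _))))
              (CovZ.subM 31082702275611665134711390512314853373971849806752128674225600056007280201295456108544 (by decide +kernel)
               (CovZ.n1 (-28776, 5112) (by decide +kernel)
                (CovZ.n2 (-28800, 5112) (by decide +kernel)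
                 (CovZ.n2 (-28788, 5124) (by decide +kernel)
                  (CovZ.leaf K2_ok TB_l39081 _)
                  (CovZ.leaf K2_ok TB_l39082 _))
                 (CovZ.n1 (-28788, 5100) (by decide +kernel)
                  (CovZ.leaf K2_ok TB_l39083 _)
                  (CovZ.n1 (-28788, 5112) (by decide +kernel)
                   (CovZ.leaf K2_ok TB_l39084 _)
                   (CovZ.leaf K2_ok TB_l39085 _))))
                (CovZ.n1 (-28776, 5136) (by decide +kernel)
                 (CovZ.n2 (-28764, 5124) (by decide +kernel)
                  (CovZ.leaf K2_ok TB_l39086 _)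
                  (CovZ.leaf K2_ok TB_l39087 _))
                 (CovZ.n1 (-28788, 5124) (by decide +kernel)
                  (CovZ.n2 (-28788, 5136) (by decide +kernel)
                   (CovZ.leaf K2_ok TB_l39088 _)
                   (CovZ.leaf K2_ok TB_l39089 _))
                  (CovZ.leaf K2_ok TB_l39090 _)))))))
            (CovZ.badM (by decide +kernel)))
           (CovZ.n1 (-28704, 5184) (by decide +kernel)
            (CovZ.n2 (-28656, 5136) (by decide +kernel)
             (CovZ.n2 (-28704, 5136) (by decide +kernel)
              (CovZ.n2 (-28680, 5160) (by decide +kernel)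
               (CovZ.subM 31082702275611665134717972530544138198140469683482358076245530999469814520748858933248 (by decide +kernel)
                (CovZ.n2 (-28680, 5136) (by decide +kernel)
                 (CovZ.n2 (-28692, 5148) (by decide +kernel)
                  (CovZ.leaf K2_ok TB_l39091 _)
                  (CovZ.n1 (-28692, 5136) (by decide +kernel)
                   (CovZ.leaf K2_ok TB_l39092 _)
                   (CovZ.leaf K2_ok TB_l39093 _)))
                 (CovZ.n1 (-28668, 5148) (by decide +kernel)
                  (CovZ.n2 (-28668, 5136) (by decide +kernel)
                   (CovZ.leaf K2_ok TB_l39094 _)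
                   (CovZ.leaf K2_ok TB_l39095 _))
                  (CovZ.leaf K2_ok TB_l39096 _))))
               (CovZ.n1 (-28704, 5160) (by decide +kernel)
                (CovZ.n2 (-28692, 5172) (by decide +kernel)
                 (CovZ.leaf K2_ok TB_l39097 _)
                 (CovZ.leaf K2_ok TB_l39098 _))
                (CovZ.n1 (-28692, 5148) (by decide +kernel)
                 (CovZ.leaf K2_ok TB_l39099 _)
                 (CovZ.leaf K2_ok TB_l39100 _))))
              (CovZ.subM 31082702275611665134711390512314853373971849806752128674225600056007280201295456108544 (by decide +kernel)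
               (CovZ.n1 (-28680, 5112) (by decide +kernel)
                (CovZ.n2 (-28704, 5112) (by decide +kernel)
                 (CovZ.n2 (-28692, 5124) (by decide +kernel)
                  (CovZ.n2 (-28692, 5112) (by decide +kernel)
                   (CovZ.leaf K2_ok TB_l39101 _)
                   (CovZ.leaf K2_ok TB_l39102 _))
                  (CovZ.leaf K2_ok TB_l39103 _))
                 (CovZ.n1 (-28692, 5100) (by decide +kernel)
                  (CovZ.n2 (-28704, 5100) (by decide +kernel)
                   (CovZ.leaf K2_ok TB_l39104 _)
                   (CovZ.n1 (-28698, 5094) (by decide +kernel)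
                    (CovZ.leaf K2_ok TB_l39105 _)
                    (CovZ.leaf K2_ok TB_l39106 _)))
                  (CovZ.n1 (-28692, 5112) (by decide +kernel)
                   (CovZ.leaf K2_ok TB_l39107 _)
                   (CovZ.leaf K2_ok TB_l39108 _))))
                (CovZ.n1 (-28680, 5136) (by decide +kernel)
                 (CovZ.n2 (-28668, 5124) (by decide +kernel)
                  (CovZ.leaf K2_ok TB_l39109 _)
                  (CovZ.n1 (-28668, 5136) (by decide +kernel)
                   (CovZ.leaf K2_ok TB_l39110 _)
                   (CovZ.leaf K2_ok TB_l39111 _)))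
                 (CovZ.n1 (-28692, 5124) (by decide +kernel)
                  (CovZ.n2 (-28692, 5136) (by decide +kernel)
                   (CovZ.leaf K2_ok TB_l39112 _)
                   (CovZ.leaf K2_ok TB_l39113 _))
                  (CovZ.leaf K2_ok TB_l39114 _))))))
             (CovZ.n1 (-28656, 5184) (by decide +kernel)
              (CovZ.n2 (-28632, 5160) (by decide +kernel)
               (CovZ.n2 (-28656, 5160) (by decide +kernel)
                (CovZ.leaf K2_ok TB_l39115 _)
                (CovZ.n1 (-28644, 5148) (by decide +kernel)
                 (CovZ.leaf K2_ok TB_l39116 _)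
                 (CovZ.leaf K2_ok TB_l39117 _)))
               (CovZ.n1 (-28632, 5184) (by decide +kernel)
                (CovZ.leaf K2_ok TB_l39118 _)
                (CovZ.leaf K2_ok TB_l39119 _)))
              (CovZ.n1 (-28680, 5160) (by decide +kernel)
               (CovZ.n2 (-28680, 5184) (by decide +kernel)
                (CovZ.leaf K2_ok TB_l39120 _)
                (CovZ.leaf K2_ok TB_l39121 _))
               (CovZ.n1 (-28656, 5160) (by decide +kernel)
                (CovZ.n2 (-28668, 5148) (by decide +kernel)
                 (CovZ.leaf K2_ok TB_l39122 _)
                 (CovZ.leaf K2_ok TB_l39123 _))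
                (CovZ.leaf K2_ok TB_l39124 _)))))
            (CovZ.n1 (-28752, 5136) (by decide +kernel)
             (CovZ.n2 (-28752, 5184) (by decide +kernel)
              (CovZ.n2 (-28728, 5160) (by decide +kernel)
               (CovZ.n2 (-28752, 5160) (by decide +kernel)
                (CovZ.leaf K2_ok TB_l7888 _)
                (CovZ.leaf K2_ok TB_l39125 _))
               (CovZ.n1 (-28728, 5184) (by decide +kernel)
                (CovZ.leaf K2_ok TB_l39126 _)
                (CovZ.leaf K2_ok TB_l7889 _)))
              (CovZ.n1 (-28776, 5160) (by decide +kernel)
               (CovZ.n2 (-28776, 5184) (by decide +kernel)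
                (CovZ.leaf K2_ok TB_l7890 _)
                (CovZ.leaf K2_ok TB_l7891 _))
               (CovZ.n1 (-28752, 5160) (by decide +kernel)
                (CovZ.leaf K2_ok TB_l39127 _)
                (CovZ.leaf K2_ok TB_l7892 _))))
             (CovZ.n1 (-28704, 5136) (by decide +kernel)
              (CovZ.subM 31082702275611665134711390512314853373971849806752128674225600056007280201295456108544 (by decide +kernel)
               (CovZ.n2 (-28728, 5112) (by decide +kernel)
                (CovZ.n2 (-28728, 5136) (by decide +kernel)
                 (CovZ.n2 (-28716, 5124) (by decide +kernel)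
                  (CovZ.leaf K2_ok TB_l39128 _)
                  (CovZ.leaf K2_ok TB_l39129 _))
                 (CovZ.n1 (-28740, 5124) (by decide +kernel)
                  (CovZ.leaf K2_ok TB_l39130 _)
                  (CovZ.leaf K2_ok TB_l39131 _)))
                (CovZ.n1 (-28704, 5112) (by decide +kernel)
                 (CovZ.n2 (-28716, 5100) (by decide +kernel)
                  (CovZ.n2 (-28716, 5112) (by decide +kernel)
                   (CovZ.leaf K2_ok TB_l39132 _)
                   (CovZ.leaf K2_ok TB_l39133 _))
                  (CovZ.leaf K2_ok TB_l39134 _))
                 (CovZ.n1 (-28716, 5124) (by decide +kernel)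
                  (CovZ.leaf K2_ok TB_l39135 _)
                  (CovZ.n1 (-28716, 5112) (by decide +kernel)
                   (CovZ.leaf K2_ok TB_l39136 _)
                   (CovZ.leaf K2_ok TB_l39137 _))))))
              (CovZ.n1 (-28728, 5160) (by decide +kernel)
               (CovZ.n2 (-28704, 5160) (by decide +kernel)
                (CovZ.leaf K2_ok TB_l39138 _)
                (CovZ.leaf K2_ok TB_l39139 _))
               (CovZ.n1 (-28728, 5136) (by decide +kernel)
                (CovZ.n2 (-28740, 5148) (by decide +kernel)
                 (CovZ.leaf K2_ok TB_l39140 _)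
                 (CovZ.leaf K2_ok TB_l39141 _))
                (CovZ.leaf K2_ok TB_l39142 _)))))))

theorem TB_u167 : CovZ TB_M (toL (selN TB_LN 5043457394365394529273025558466201509236072870761337087556544488321139080548932433169195523133568423203720972821856256)) [0, 7, 6, 1] (-29184, 5376) (-28992, 5184) (-28800, 5376) :=
    (CovZ.n2 (-28992, 5376) (by decide +kernel)
         (CovZ.subM 5043456793138493339171717132834327993317595410833684176066756201043464319012404754291734080162382307609717415007485952 (by decide +kernel)
          (CovZ.n2 (-28896, 5280) (by decide +kernel)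
           (CovZ.n2 (-28992, 5280) (by decide +kernel)
            (CovZ.n2 (-28944, 5328) (by decide +kernel)
             (CovZ.n2 (-28944, 5280) (by decide +kernel)
              (CovZ.leaf K2_ok TB_l7943 _)
              (CovZ.leaf K2_ok TB_l7944 _))
             (CovZ.leaf K2_ok TB_l7945 _))
            (CovZ.n1 (-28944, 5232) (by decide +kernel)
             (CovZ.n2 (-28992, 5232) (by decide +kernel)
              (CovZ.n2 (-28968, 5256) (by decide +kernel)
               (CovZ.leaf K2_ok TB_l7946 _)
               (CovZ.leaf K2_ok TB_l7947 _))
              (CovZ.n1 (-28968, 5208) (by decide +kernel)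
               (CovZ.leaf K2_ok TB_l7948 _)
               (CovZ.leaf K2_ok TB_l7949 _)))
             (CovZ.n1 (-28944, 5280) (by decide +kernel)
              (CovZ.n2 (-28920, 5256) (by decide +kernel)
               (CovZ.leaf K2_ok TB_l7950 _)
               (CovZ.leaf K2_ok TB_l7951 _))
              (CovZ.leaf K2_ok TB_l7952 _))))
           (CovZ.n1 (-28896, 5376) (by decide +kernel)
            (CovZ.n2 (-28848, 5328) (by decide +kernel)
             (CovZ.leaf K2_ok TB_l7953 _)
             (CovZ.n1 (-28848, 5376) (by decide +kernel)
              (CovZ.leaf K2_ok TB_l7954 _)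
              (CovZ.leaf K2_ok TB_l7955 _)))
            (CovZ.n1 (-28944, 5328) (by decide +kernel)
             (CovZ.n2 (-28944, 5376) (by decide +kernel)
              (CovZ.leaf K2_ok TB_l7956 _)
              (CovZ.leaf K2_ok TB_l7957 _))
             (CovZ.leaf K2_ok TB_l7958 _)))))
         (CovZ.n1 (-29088, 5280) (by decide +kernel)
          (CovZ.n2 (-29088, 5376) (by decide +kernel)
           (CovZ.n2 (-29040, 5328) (by decide +kernel)
            (CovZ.leaf K2_ok TB_l7959 _)
            (CovZ.n1 (-29040, 5376) (by decide +kernel)
             (CovZ.leaf K2_ok TB_l7960 _)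
             (CovZ.leaf K2_ok TB_l7961 _)))
           (CovZ.n1 (-29136, 5328) (by decide +kernel)
            (CovZ.leaf K2_ok TB_l7962 _)
            (CovZ.leaf K2_ok TB_l7963 _)))
          (CovZ.subM 5043456793138493339171717132834327993317595410833684176066756201043464319012404754291734080162382307609717415007485952 (by decide +kernel)
           (CovZ.n1 (-28992, 5280) (by decide +kernel)
            (CovZ.n2 (-29040, 5232) (by decide +kernel)
             (CovZ.n2 (-29040, 5280) (by decide +kernel)
              (CovZ.n2 (-29016, 5256) (by decide +kernel)
               (CovZ.leaf K2_ok TB_l7964 _)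
               (CovZ.leaf K2_ok TB_l7965 _))
              (CovZ.leaf K2_ok TB_l7966 _))
             (CovZ.n1 (-28992, 5232) (by decide +kernel)
              (CovZ.n2 (-29016, 5208) (by decide +kernel)
               (CovZ.leaf K2_ok TB_l7967 _)
               (CovZ.leaf K2_ok TB_l7968 _))
              (CovZ.leaf K2_ok TB_l7969 _)))
            (CovZ.n1 (-29040, 5328) (by decide +kernel)
             (CovZ.leaf K2_ok TB_l7970 _)
             (CovZ.n1 (-29040, 5280) (by decide +kernel)
              (CovZ.leaf K2_ok TB_l7971 _)
              (CovZ.leaf K2_ok TB_l7972 _)))))))

theorem TB_u168 : CovZ TB_M (toL (selN TB_LN 5043457394365394529273025558466201509236072870761337087556544488321139080548932433169195523133568423203720972821856256)) [0, 7, 6, 1] (-28992, 5184) (-28800, 4992) (-28800, 5376) :=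
    (CovZ.subM 5043456793138493339171717132834327993317595410833684176066756201043464319012404754291734080162382307609717415007485952 (by decide +kernel)
         (CovZ.n1 (-28800, 5184) (by decide +kernel)
          (CovZ.n2 (-28896, 5088) (by decide +kernel)
           (CovZ.n2 (-28896, 5184) (by decide +kernel)
            (CovZ.n2 (-28848, 5136) (by decide +kernel)
             (CovZ.n2 (-28896, 5136) (by decide +kernel)
              (CovZ.n2 (-28872, 5160) (by decide +kernel)
               (CovZ.n2 (-28872, 5136) (by decide +kernel)
                (CovZ.leaf K2_ok TB_l7973 _)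
                (CovZ.leaf K2_ok TB_l7974 _))
               (CovZ.n1 (-28896, 5160) (by decide +kernel)
                (CovZ.leaf K2_ok TB_l7975 _)
                (CovZ.leaf K2_ok TB_l7976 _)))
              (CovZ.subM 5043456793138493339171717132818413649752482238284711884887893870596826358601449710389700306225325209303449678223769600 (by decide +kernel)
               (CovZ.n1 (-28872, 5112) (by decide +kernel)
                (CovZ.n2 (-28896, 5112) (by decide +kernel)
                 (CovZ.leaf K2_ok TB_l39143 _)
                 (CovZ.n1 (-28884, 5100) (by decide +kernel)
                  (CovZ.leaf K2_ok TB_l39144 _)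
                  (CovZ.n1 (-28884, 5112) (by decide +kernel)
                   (CovZ.leaf K2_ok TB_l39145 _)
                   (CovZ.leaf K2_ok TB_l39146 _))))
                (CovZ.n1 (-28872, 5136) (by decide +kernel)
                 (CovZ.n2 (-28860, 5124) (by decide +kernel)
                  (CovZ.leaf K2_ok TB_l39147 _)
                  (CovZ.leaf K2_ok TB_l39148 _))
                 (CovZ.leaf K2_ok TB_l39149 _)))))
             (CovZ.n1 (-28848, 5184) (by decide +kernel)
              (CovZ.n2 (-28824, 5160) (by decide +kernel)
               (CovZ.n2 (-28848, 5160) (by decide +kernel)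
                (CovZ.leaf K2_ok TB_l7977 _)
                (CovZ.leaf K2_ok TB_l7978 _))
               (CovZ.n1 (-28824, 5184) (by decide +kernel)
                (CovZ.leaf K2_ok TB_l7979 _)
                (CovZ.leaf K2_ok TB_l7980 _)))
              (CovZ.n1 (-28872, 5160) (by decide +kernel)
               (CovZ.n2 (-28872, 5184) (by decide +kernel)
                (CovZ.leaf K2_ok TB_l7981 _)
                (CovZ.leaf K2_ok TB_l7982 _))
               (CovZ.n1 (-28848, 5160) (by decide +kernel)
                (CovZ.leaf K2_ok TB_l7983 _)
                (CovZ.leaf K2_ok TB_l7984 _)))))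
            (CovZ.n1 (-28944, 5136) (by decide +kernel)
             (CovZ.n2 (-28944, 5184) (by decide +kernel)
              (CovZ.n2 (-28920, 5160) (by decide +kernel)
               (CovZ.n2 (-28944, 5160) (by decide +kernel)
                (CovZ.leaf K2_ok TB_l7985 _)
                (CovZ.n1 (-28932, 5148) (by decide +kernel)
                 (CovZ.leaf K2_ok TB_l39150 _)
                 (CovZ.leaf K2_ok TB_l39151 _)))
               (CovZ.n1 (-28920, 5184) (by decide +kernel)
                (CovZ.leaf K2_ok TB_l7986 _)
                (CovZ.leaf K2_ok TB_l7987 _)))
              (CovZ.n1 (-28968, 5160) (by decide +kernel)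
               (CovZ.n2 (-28968, 5184) (by decide +kernel)
                (CovZ.leaf K2_ok TB_l7988 _)
                (CovZ.leaf K2_ok TB_l7989 _))
               (CovZ.n1 (-28944, 5160) (by decide +kernel)
                (CovZ.n2 (-28956, 5148) (by decide +kernel)
                 (CovZ.leaf K2_ok TB_l39152 _)
                 (CovZ.leaf K2_ok TB_l39153 _))
                (CovZ.leaf K2_ok TB_l7990 _))))
             (CovZ.n1 (-28896, 5136) (by decide +kernel)
              (CovZ.subM 5043456793138493339171717132818413649752482238284711884887893870596826358601449710389700306225325209303449678224818176 (by decide +kernel)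
               (CovZ.n2 (-28920, 5112) (by decide +kernel)
                (CovZ.n2 (-28920, 5136) (by decide +kernel)
                 (CovZ.n2 (-28908, 5124) (by decide +kernel)
                  (CovZ.leaf K2_ok TB_l39154 _)
                  (CovZ.leaf K2_ok TB_l39155 _))
                 (CovZ.n1 (-28932, 5124) (by decide +kernel)
                  (CovZ.leaf K2_ok TB_l39156 _)
                  (CovZ.leaf K2_ok TB_l39157 _)))
                (CovZ.n1 (-28896, 5112) (by decide +kernel)
                 (CovZ.subM 5043456793138493339171717132818413649752482238284711884887890732045958665261067792494988702392117158125727446198124544 (by decide +kernel)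
                  (CovZ.n2 (-28908, 5100) (by decide +kernel)
                   (CovZ.n2 (-28908, 5112) (by decide +kernel)
                    (CovZ.n2 (-28902, 5106) (by decide +kernel)
                     (CovZ.leaf K2_ok TB_l39158 _)
                     (CovZ.leaf K2_ok TB_l39159 _))
                    (CovZ.leaf K2_ok TB_l39160 _))
                   (CovZ.leaf K2_ok TB_l39161 _)))
                 (CovZ.n1 (-28908, 5124) (by decide +kernel)
                  (CovZ.leaf K2_ok TB_l39162 _)
                  (CovZ.n1 (-28908, 5112) (by decide +kernel)
                   (CovZ.leaf K2_ok TB_l39163 _)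
                   (CovZ.leaf K2_ok TB_l39164 _))))))
              (CovZ.n1 (-28920, 5160) (by decide +kernel)
               (CovZ.n2 (-28896, 5160) (by decide +kernel)
                (CovZ.leaf K2_ok TB_l7991 _)
                (CovZ.leaf K2_ok TB_l7992 _))
               (CovZ.n1 (-28920, 5136) (by decide +kernel)
                (CovZ.n2 (-28932, 5148) (by decide +kernel)
                 (CovZ.leaf K2_ok TB_l39165 _)
                 (CovZ.leaf K2_ok TB_l39166 _))
                (CovZ.leaf K2_ok TB_l39167 _))))))
           (CovZ.n1 (-28800, 5088) (by decide +kernel)
            (CovZ.badM (by decide +kernel))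
            (CovZ.n1 (-28848, 5136) (by decide +kernel)
             (CovZ.n2 (-28800, 5136) (by decide +kernel)
              (CovZ.subM 5043456793138493339171717132818413649752482238284711884887893870596826358601449710389700306225325209303449678223769600 (by decide +kernel)
               (CovZ.n2 (-28824, 5112) (by decide +kernel)
                (CovZ.n2 (-28824, 5136) (by decide +kernel)
                 (CovZ.n2 (-28812, 5124) (by decide +kernel)
                  (CovZ.leaf K2_ok TB_l39168 _)
                  (CovZ.leaf K2_ok TB_l39169 _))
                 (CovZ.leaf K2_ok TB_l7993 _))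
                (CovZ.n1 (-28800, 5112) (by decide +kernel)
                 (CovZ.subM 31082702275611665134711390509176302506278509424834233962621766847956102479063438852096 (by decide +kernel)
                  (CovZ.n2 (-28812, 5100) (by decide +kernel)
                   (CovZ.n2 (-28812, 5112) (by decide +kernel)
                    (CovZ.leaf K2_ok TB_l39170 _)
                    (CovZ.leaf K2_ok TB_l39171 _))
                   (CovZ.n1 (-28800, 5100) (by decide +kernel)
                    (CovZ.leaf K2_ok TB_l39172 _)
                    (CovZ.leaf K2_ok TB_l39173 _))))
                 (CovZ.n1 (-28812, 5124) (by decide +kernel)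
                  (CovZ.leaf K2_ok TB_l39174 _)
                  (CovZ.n1 (-28812, 5112) (by decide +kernel)
                   (CovZ.leaf K2_ok TB_l39175 _)
                   (CovZ.leaf K2_ok TB_l39176 _))))))
              (CovZ.n1 (-28824, 5160) (by decide +kernel)
               (CovZ.n2 (-28800, 5160) (by decide +kernel)
                (CovZ.leaf K2_ok TB_l7994 _)
                (CovZ.leaf K2_ok TB_l7995 _))
               (CovZ.n1 (-28824, 5136) (by decide +kernel)
                (CovZ.leaf K2_ok TB_l7996 _)
                (CovZ.leaf K2_ok TB_l7997 _))))
             (CovZ.subM 5043456793138493339171717132818413649752482238284711884887893870596826358601449710389700306225325209303449678223769600 (by decide +kernel)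
              (CovZ.n1 (-28848, 5088) (by decide +kernel)
               (CovZ.n2 (-28872, 5112) (by decide +kernel)
                (CovZ.n2 (-28848, 5112) (by decide +kernel)
                 (CovZ.n2 (-28860, 5100) (by decide +kernel)
                  (CovZ.leaf K2_ok TB_l39177 _)
                  (CovZ.leaf K2_ok TB_l39178 _))
                 (CovZ.n1 (-28860, 5124) (by decide +kernel)
                  (CovZ.leaf K2_ok TB_l39179 _)
                  (CovZ.leaf K2_ok TB_l39180 _)))
                (CovZ.subM 31082702275611665134711390509176302506278509424834233962621766847956102479063438852096 (by decide +kernel)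
                 (CovZ.n1 (-28872, 5088) (by decide +kernel)
                  (CovZ.n2 (-28884, 5100) (by decide +kernel)
                   (CovZ.leaf K2_ok TB_l39181 _)
                   (CovZ.n1 (-28884, 5088) (by decide +kernel)
                    (CovZ.leaf K2_ok TB_l39182 _)
                    (CovZ.leaf K2_ok TB_l39183 _)))
                  (CovZ.n1 (-28860, 5100) (by decide +kernel)
                   (CovZ.n2 (-28860, 5088) (by decide +kernel)
                    (CovZ.leaf K2_ok TB_l39184 _)
                    (CovZ.leaf K2_ok TB_l39185 _))
                   (CovZ.leaf K2_ok TB_l39186 _)))))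
               (CovZ.n1 (-28824, 5112) (by decide +kernel)
                (CovZ.subM 31082702275611665134711390509176302506278509424834233962621766847956102479063438852096 (by decide +kernel)
                 (CovZ.n2 (-28824, 5088) (by decide +kernel)
                  (CovZ.n2 (-28836, 5100) (by decide +kernel)
                   (CovZ.leaf K2_ok TB_l39187 _)
                   (CovZ.n1 (-28836, 5088) (by decide +kernel)
                    (CovZ.leaf K2_ok TB_l39188 _)
                    (CovZ.leaf K2_ok TB_l39189 _)))
                  (CovZ.n1 (-28812, 5100) (by decide +kernel)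
                   (CovZ.n2 (-28812, 5088) (by decide +kernel)
                    (CovZ.leaf K2_ok TB_l39190 _)
                    (CovZ.leaf K2_ok TB_l39191 _))
                   (CovZ.leaf K2_ok TB_l39192 _))))
                (CovZ.n1 (-28848, 5112) (by decide +kernel)
                 (CovZ.leaf K2_ok TB_l39193 _)
                 (CovZ.n1 (-28836, 5100) (by decide +kernel)
                  (CovZ.leaf K2_ok TB_l39194 _)
                  (CovZ.leaf K2_ok TB_l39195 _)))))))))
          (CovZ.n1 (-28896, 5280) (by decide +kernel)
           (CovZ.n2 (-28800, 5280) (by decide +kernel)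
            (CovZ.n2 (-28848, 5232) (by decide +kernel)
             (CovZ.n2 (-28848, 5280) (by decide +kernel)
              (CovZ.n2 (-28824, 5256) (by decide +kernel)
               (CovZ.leaf K2_ok TB_l7998 _)
               (CovZ.leaf K2_ok TB_l7999 _))
              (CovZ.leaf K2_ok TB_l8000 _))
             (CovZ.n1 (-28800, 5232) (by decide +kernel)
              (CovZ.n2 (-28824, 5208) (by decide +kernel)
               (CovZ.n2 (-28824, 5232) (by decide +kernel)
                (CovZ.leaf K2_ok TB_l8001 _)
                (CovZ.leaf K2_ok TB_l8002 _))
               (CovZ.n1 (-28800, 5208) (by decide +kernel)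
                (CovZ.leaf K2_ok TB_l8003 _)
                (CovZ.leaf K2_ok TB_l8004 _)))
              (CovZ.n1 (-28824, 5256) (by decide +kernel)
               (CovZ.leaf K2_ok TB_l8005 _)
               (CovZ.leaf K2_ok TB_l8006 _))))
            (CovZ.n1 (-28848, 5328) (by decide +kernel)
             (CovZ.leaf K2_ok TB_l8007 _)
             (CovZ.n1 (-28848, 5280) (by decide +kernel)
              (CovZ.leaf K2_ok TB_l8008 _)
              (CovZ.leaf K2_ok TB_l8009 _))))
           (CovZ.n1 (-28896, 5184) (by decide +kernel)
            (CovZ.n2 (-28944, 5232) (by decide +kernel)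
             (CovZ.n2 (-28896, 5232) (by decide +kernel)
              (CovZ.n2 (-28920, 5208) (by decide +kernel)
               (CovZ.leaf K2_ok TB_l8010 _)
               (CovZ.leaf K2_ok TB_l8011 _))
              (CovZ.n1 (-28920, 5256) (by decide +kernel)
               (CovZ.leaf K2_ok TB_l8012 _)
               (CovZ.leaf K2_ok TB_l8013 _)))
             (CovZ.n1 (-28944, 5184) (by decide +kernel)
              (CovZ.n2 (-28968, 5208) (by decide +kernel)
               (CovZ.leaf K2_ok TB_l8014 _)
               (CovZ.n1 (-28968, 5184) (by decide +kernel)
                (CovZ.leaf K2_ok TB_l8015 _)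
                (CovZ.leaf K2_ok TB_l8016 _)))
              (CovZ.n1 (-28920, 5208) (by decide +kernel)
               (CovZ.n2 (-28920, 5184) (by decide +kernel)
                (CovZ.leaf K2_ok TB_l8017 _)
                (CovZ.leaf K2_ok TB_l8018 _))
               (CovZ.leaf K2_ok TB_l8019 _))))
            (CovZ.n1 (-28848, 5232) (by decide +kernel)
             (CovZ.n2 (-28848, 5184) (by decide +kernel)
              (CovZ.n2 (-28872, 5208) (by decide +kernel)
               (CovZ.leaf K2_ok TB_l8020 _)
               (CovZ.n1 (-28872, 5184) (by decide +kernel)
                (CovZ.leaf K2_ok TB_l8021 _)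
                (CovZ.leaf K2_ok TB_l8022 _)))
              (CovZ.n1 (-28824, 5208) (by decide +kernel)
               (CovZ.n2 (-28824, 5184) (by decide +kernel)
                (CovZ.leaf K2_ok TB_l8023 _)
                (CovZ.leaf K2_ok TB_l8024 _))
               (CovZ.leaf K2_ok TB_l8025 _)))
             (CovZ.n1 (-28896, 5232) (by decide +kernel)
              (CovZ.n2 (-28872, 5256) (by decide +kernel)
               (CovZ.leaf K2_ok TB_l8026 _)
               (CovZ.leaf K2_ok TB_l8027 _))
              (CovZ.n1 (-28872, 5208) (by decide +kernel)
               (CovZ.leaf K2_ok TB_l8028 _)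
               (CovZ.leaf K2_ok TB_l8029 _))))))))

theorem TB_u169 : CovZ TB_M (toL (selN TB_LN 5043457394365394529273025558466201509236072870761337087556544488321139080548932433169195523133568423203720972821856256)) [0, 7, 6, 1] (-29184, 6144) (-29184, 5376) (-28416, 5376) :=
    (CovZ.n2 (-28800, 5760) (by decide +kernel)
      (CovZ.n2 (-28800, 5376) (by decide +kernel)
       (CovZ.n2 (-28992, 5568) (by decide +kernel)
        (CovZ.subM 5043456793138493339171719218759167759831347749722069107269993117747099432931125405699554219048833265266504546806398976 (by decide +kernel)
         (CovZ.n2 (-28800, 5568) (by decide +kernel)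
          (CovZ.n2 (-28896, 5472) (by decide +kernel)
           (CovZ.n2 (-28896, 5568) (by decide +kernel)
            (CovZ.leaf K2_ok TB_l7715 _)
            (CovZ.leaf K2_ok TB_l7716 _))
           (CovZ.n1 (-28800, 5472) (by decide +kernel)
            (CovZ.n2 (-28848, 5424) (by decide +kernel)
             (CovZ.leaf K2_ok TB_l7717 _)
             (CovZ.leaf K2_ok TB_l7718 _))
            (CovZ.n1 (-28848, 5520) (by decide +kernel)
             (CovZ.leaf K2_ok TB_l7719 _)
             (CovZ.leaf K2_ok TB_l7720 _))))
          (CovZ.n1 (-28896, 5664) (by decide +kernel)
           (CovZ.leaf K2_ok TB_l7721 _)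
           (CovZ.n1 (-28896, 5568) (by decide +kernel)
            (CovZ.leaf K2_ok TB_l7722 _)
            (CovZ.leaf K2_ok TB_l7723 _)))))
        (CovZ.n1 (-28992, 5376) (by decide +kernel)
         (CovZ.n2 (-29088, 5472) (by decide +kernel)
          (CovZ.n2 (-28992, 5472) (by decide +kernel)
           (CovZ.n2 (-29040, 5424) (by decide +kernel)
            (CovZ.leaf K2_ok TB_l7724 _)
            (CovZ.leaf K2_ok TB_l7725 _))
           (CovZ.leaf K2_ok TB_l7726 _))
          (CovZ.n1 (-29088, 5376) (by decide +kernel)
           (CovZ.n2 (-29136, 5424) (by decide +kernel)
            (CovZ.leaf K2_ok TB_l7727 _)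
            (CovZ.leaf K2_ok TB_l7728 _))
           (CovZ.n1 (-29040, 5424) (by decide +kernel)
            (CovZ.leaf K2_ok TB_l7729 _)
            (CovZ.leaf K2_ok TB_l7730 _))))
         (CovZ.subM 5043456793138493339171717132834327993317595410833684176066756201043464319012404754291734080162382307609717415007485952 (by decide +kernel)
          (CovZ.n1 (-28896, 5472) (by decide +kernel)
           (CovZ.n2 (-28896, 5376) (by decide +kernel)
            (CovZ.n2 (-28944, 5424) (by decide +kernel)
             (CovZ.leaf K2_ok TB_l7731 _)
             (CovZ.leaf K2_ok TB_l7732 _))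
            (CovZ.n1 (-28848, 5424) (by decide +kernel)
             (CovZ.n2 (-28848, 5376) (by decide +kernel)
              (CovZ.leaf K2_ok TB_l7733 _)
              (CovZ.leaf K2_ok TB_l7734 _))
             (CovZ.leaf K2_ok TB_l7735 _)))
           (CovZ.n1 (-28992, 5472) (by decide +kernel)
            (CovZ.leaf K2_ok TB_l7736 _)
            (CovZ.n1 (-28944, 5424) (by decide +kernel)
             (CovZ.leaf K2_ok TB_l7737 _)
             (CovZ.leaf K2_ok TB_l7738 _)))))))
       (CovZ.subM 5043456793138493339171719218759167759831347749722069107269993117747099432931125405699554219048833265266504546806398976 (by decide +kernel)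
        (CovZ.n1 (-28608, 5568) (by decide +kernel)
         (CovZ.n2 (-28608, 5376) (by decide +kernel)
          (CovZ.n2 (-28704, 5472) (by decide +kernel)
           (CovZ.n2 (-28608, 5472) (by decide +kernel)
            (CovZ.n2 (-28656, 5424) (by decide +kernel)
             (CovZ.leaf K2_ok TB_l7739 _)
             (CovZ.leaf K2_ok TB_l7740 _))
            (CovZ.n1 (-28656, 5520) (by decide +kernel)
             (CovZ.leaf K2_ok TB_l7741 _)
             (CovZ.leaf K2_ok TB_l7742 _)))
           (CovZ.n1 (-28704, 5376) (by decide +kernel)
            (CovZ.n2 (-28752, 5424) (by decide +kernel)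
             (CovZ.leaf K2_ok TB_l7743 _)
             (CovZ.n1 (-28752, 5376) (by decide +kernel)
              (CovZ.leaf K2_ok TB_l7744 _)
              (CovZ.leaf K2_ok TB_l7745 _)))
            (CovZ.n1 (-28656, 5424) (by decide +kernel)
             (CovZ.n2 (-28656, 5376) (by decide +kernel)
              (CovZ.leaf K2_ok TB_l7746 _)
              (CovZ.leaf K2_ok TB_l7747 _))
             (CovZ.leaf K2_ok TB_l7748 _))))
          (CovZ.n1 (-28512, 5472) (by decide +kernel)
           (CovZ.n2 (-28512, 5376) (by decide +kernel)
            (CovZ.n2 (-28560, 5424) (by decide +kernel)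
             (CovZ.leaf K2_ok TB_l7749 _)
             (CovZ.n1 (-28560, 5376) (by decide +kernel)
              (CovZ.leaf K2_ok TB_l7750 _)
              (CovZ.leaf K2_ok TB_l7751 _)))
            (CovZ.n1 (-28464, 5424) (by decide +kernel)
             (CovZ.n2 (-28464, 5376) (by decide +kernel)
              (CovZ.leaf K2_ok TB_l7752 _)
              (CovZ.leaf K2_ok TB_l7753 _))
             (CovZ.leaf K2_ok TB_l7754 _)))
           (CovZ.n1 (-28608, 5472) (by decide +kernel)
            (CovZ.n2 (-28560, 5520) (by decide +kernel)
             (CovZ.leaf K2_ok TB_l7755 _)
             (CovZ.leaf K2_ok TB_l7756 _))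
            (CovZ.n1 (-28560, 5424) (by decide +kernel)
             (CovZ.leaf K2_ok TB_l7757 _)
             (CovZ.leaf K2_ok TB_l7758 _)))))
         (CovZ.n1 (-28800, 5568) (by decide +kernel)
          (CovZ.n2 (-28704, 5664) (by decide +kernel)
           (CovZ.n2 (-28704, 5568) (by decide +kernel)
            (CovZ.leaf K2_ok TB_l7759 _)
            (CovZ.leaf K2_ok TB_l7760 _))
           (CovZ.n1 (-28800, 5664) (by decide +kernel)
            (CovZ.leaf K2_ok TB_l7761 _)
            (CovZ.leaf K2_ok TB_l7762 _)))
          (CovZ.n1 (-28704, 5472) (by decide +kernel)
           (CovZ.n2 (-28800, 5472) (by decide +kernel)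
            (CovZ.n2 (-28752, 5520) (by decide +kernel)
             (CovZ.leaf K2_ok TB_l7763 _)
             (CovZ.leaf K2_ok TB_l7764 _))
            (CovZ.n1 (-28752, 5424) (by decide +kernel)
             (CovZ.leaf K2_ok TB_l7765 _)
             (CovZ.leaf K2_ok TB_l7766 _)))
           (CovZ.n1 (-28704, 5568) (by decide +kernel)
            (CovZ.n2 (-28656, 5520) (by decide +kernel)
             (CovZ.leaf K2_ok TB_l7767 _)
             (CovZ.leaf K2_ok TB_l7768 _))
            (CovZ.leaf K2_ok TB_l7769 _)))))))
      (CovZ.n1 (-29184, 5760) (by decide +kernel)
       (CovZ.n2 (-28992, 5952) (by decide +kernel)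
        (CovZ.n2 (-28992, 5760) (by decide +kernel)
         (CovZ.n2 (-29088, 5856) (by decide +kernel)
          (CovZ.leaf K2_ok TB_l7770 _)
          (CovZ.leaf K2_ok TB_l7771 _))
         (CovZ.n1 (-28896, 5856) (by decide +kernel)
          (CovZ.n2 (-28896, 5760) (by decide +kernel)
           (CovZ.leaf K2_ok TB_l7772 _)
           (CovZ.leaf K2_ok TB_l7773 _))
          (CovZ.leaf K2_ok TB_l7774 _)))
        (CovZ.n1 (-29184, 5952) (by decide +kernel)
         (CovZ.leaf K2_ok TB_l7775 _)
         (CovZ.n1 (-29088, 5856) (by decide +kernel)
          (CovZ.leaf K2_ok TB_l7776 _)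
          (CovZ.leaf K2_ok TB_l7777 _))))
       (CovZ.n1 (-28992, 5568) (by decide +kernel)
        (CovZ.n2 (-29184, 5568) (by decide +kernel)
         (CovZ.n2 (-29088, 5664) (by decide +kernel)
          (CovZ.n2 (-29088, 5568) (by decide +kernel)
           (CovZ.leaf K2_ok TB_l7778 _)
           (CovZ.leaf K2_ok TB_l7779 _))
          (CovZ.leaf K2_ok TB_l7780 _))
         (CovZ.n1 (-29088, 5472) (by decide +kernel)
          (CovZ.n2 (-29184, 5472) (by decide +kernel)
           (CovZ.leaf K2_ok TB_l7781 _)
           (CovZ.n1 (-29136, 5424) (by decide +kernel)
            (CovZ.leaf K2_ok TB_l7782 _)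
            (CovZ.leaf K2_ok TB_l7783 _)))
          (CovZ.n1 (-29088, 5568) (by decide +kernel)
           (CovZ.leaf K2_ok TB_l7784 _)
           (CovZ.leaf K2_ok TB_l7785 _))))
        (CovZ.n1 (-28992, 5760) (by decide +kernel)
         (CovZ.n2 (-28896, 5664) (by decide +kernel)
          (CovZ.leaf K2_ok TB_l7786 _)
          (CovZ.n1 (-28896, 5760) (by decide +kernel)
           (CovZ.leaf K2_ok TB_l7787 _)
           (CovZ.leaf K2_ok TB_l7788 _)))
         (CovZ.n1 (-29088, 5664) (by decide +kernel)
          (CovZ.n2 (-29088, 5760) (by decide +kernel)
           (CovZ.leaf K2_ok TB_l7789 _)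
           (CovZ.leaf K2_ok TB_l7790 _))
          (CovZ.leaf K2_ok TB_l7791 _))))))

theorem TB_u170 : CovZ TB_M (toL (selN TB_LN 5043457394365394529273025558466201509236072870761337087556544488321139080548932433169195523133568423203720972821856256)) [0, 7, 6, 1] (-29184, 5376) (-29184, 4608) (-28416, 5376) :=
    (CovZ.n1 (-28800, 4992) (by decide +kernel)
      (CovZ.n2 (-29184, 4992) (by decide +kernel)
       (CovZ.n2 (-28992, 5184) (by decide +kernel)
        (CovZ.subM 5043457394365394529273023472525447399157207359323979871730752412707595483673531079102108818697736526817651986749456384 (by decide +kernel)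
         (CovZ.n2 (-28992, 4992) (by decide +kernel)
          TB_u161
          TB_u162))
        (CovZ.n1 (-29184, 5184) (by decide +kernel)
         TB_u163
         TB_u164))
       (CovZ.badM (by decide +kernel)))
      (CovZ.n1 (-28800, 5376) (by decide +kernel)
       (CovZ.subM 5043456793138493339171717132834327993317595410833684176066756201043464319012404754291734080162382307609717415007485952 (by decide +kernel)
        (CovZ.n2 (-28608, 5184) (by decide +kernel)
         (CovZ.n2 (-28800, 5184) (by decide +kernel)
          TB_u165
          TB_u166)
         (CovZ.n1 (-28608, 5376) (by decide +kernel)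
          (CovZ.n2 (-28512, 5280) (by decide +kernel)
           (CovZ.n2 (-28608, 5280) (by decide +kernel)
            (CovZ.n2 (-28560, 5328) (by decide +kernel)
             (CovZ.n2 (-28560, 5280) (by decide +kernel)
              (CovZ.leaf K2_ok TB_l7893 _)
              (CovZ.n1 (-28536, 5304) (by decide +kernel)
               (CovZ.leaf K2_ok TB_l7894 _)
               (CovZ.leaf K2_ok TB_l7895 _)))
             (CovZ.n1 (-28608, 5328) (by decide +kernel)
              (CovZ.leaf K2_ok TB_l7896 _)
              (CovZ.n1 (-28584, 5304) (by decide +kernel)
               (CovZ.leaf K2_ok TB_l7897 _)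
               (CovZ.leaf K2_ok TB_l7898 _))))
            (CovZ.n1 (-28560, 5232) (by decide +kernel)
             (CovZ.n2 (-28608, 5232) (by decide +kernel)
              (CovZ.n2 (-28584, 5256) (by decide +kernel)
               (CovZ.n2 (-28584, 5232) (by decide +kernel)
                (CovZ.leaf K2_ok TB_l7899 _)
                (CovZ.leaf K2_ok TB_l7900 _))
               (CovZ.leaf K2_ok TB_l7901 _))
              (CovZ.n1 (-28584, 5208) (by decide +kernel)
               (CovZ.leaf K2_ok TB_l7902 _)
               (CovZ.n1 (-28584, 5232) (by decide +kernel)
                (CovZ.leaf K2_ok TB_l7903 _)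
                (CovZ.leaf K2_ok TB_l7904 _))))
             (CovZ.n1 (-28560, 5280) (by decide +kernel)
              (CovZ.n2 (-28536, 5256) (by decide +kernel)
               (CovZ.leaf K2_ok TB_l7905 _)
               (CovZ.leaf K2_ok TB_l7906 _))
              (CovZ.n1 (-28584, 5256) (by decide +kernel)
               (CovZ.leaf K2_ok TB_l7907 _)
               (CovZ.leaf K2_ok TB_l7908 _)))))
           (CovZ.n1 (-28512, 5376) (by decide +kernel)
            (CovZ.n2 (-28464, 5328) (by decide +kernel)
             (CovZ.n2 (-28512, 5328) (by decide +kernel)
              (CovZ.leaf K2_ok TB_l7909 _)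
              (CovZ.n1 (-28488, 5304) (by decide +kernel)
               (CovZ.leaf K2_ok TB_l7910 _)
               (CovZ.leaf K2_ok TB_l7911 _)))
             (CovZ.n1 (-28464, 5376) (by decide +kernel)
              (CovZ.leaf K2_ok TB_l7912 _)
              (CovZ.leaf K2_ok TB_l7913 _)))
            (CovZ.n1 (-28560, 5328) (by decide +kernel)
             (CovZ.n2 (-28560, 5376) (by decide +kernel)
              (CovZ.leaf K2_ok TB_l7914 _)
              (CovZ.leaf K2_ok TB_l7915 _))
             (CovZ.n1 (-28512, 5328) (by decide +kernel)
              (CovZ.n2 (-28536, 5304) (by decide +kernel)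
               (CovZ.leaf K2_ok TB_l7916 _)
               (CovZ.leaf K2_ok TB_l7917 _))
              (CovZ.leaf K2_ok TB_l7918 _)))))
          (CovZ.n1 (-28704, 5280) (by decide +kernel)
           (CovZ.n2 (-28704, 5376) (by decide +kernel)
            (CovZ.n2 (-28656, 5328) (by decide +kernel)
             (CovZ.n2 (-28704, 5328) (by decide +kernel)
              (CovZ.leaf K2_ok TB_l7919 _)
              (CovZ.n1 (-28680, 5304) (by decide +kernel)
               (CovZ.leaf K2_ok TB_l7920 _)
               (CovZ.leaf K2_ok TB_l7921 _)))
             (CovZ.n1 (-28656, 5376) (by decide +kernel)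
              (CovZ.leaf K2_ok TB_l7922 _)
              (CovZ.leaf K2_ok TB_l7923 _)))
            (CovZ.n1 (-28752, 5328) (by decide +kernel)
             (CovZ.n2 (-28752, 5376) (by decide +kernel)
              (CovZ.leaf K2_ok TB_l7924 _)
              (CovZ.leaf K2_ok TB_l7925 _))
             (CovZ.leaf K2_ok TB_l7926 _)))
           (CovZ.n1 (-28608, 5280) (by decide +kernel)
            (CovZ.n2 (-28656, 5232) (by decide +kernel)
             (CovZ.n2 (-28656, 5280) (by decide +kernel)
              (CovZ.n2 (-28632, 5256) (by decide +kernel)
               (CovZ.leaf K2_ok TB_l7927 _)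
               (CovZ.leaf K2_ok TB_l7928 _))
              (CovZ.n1 (-28680, 5256) (by decide +kernel)
               (CovZ.leaf K2_ok TB_l7929 _)
               (CovZ.leaf K2_ok TB_l7930 _)))
             (CovZ.n1 (-28608, 5232) (by decide +kernel)
              (CovZ.n2 (-28632, 5208) (by decide +kernel)
               (CovZ.n2 (-28632, 5232) (by decide +kernel)
                (CovZ.leaf K2_ok TB_l7931 _)
                (CovZ.leaf K2_ok TB_l7932 _))
               (CovZ.n1 (-28608, 5208) (by decide +kernel)
                (CovZ.leaf K2_ok TB_l7933 _)
                (CovZ.leaf K2_ok TB_l7934 _)))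
              (CovZ.n1 (-28632, 5256) (by decide +kernel)
               (CovZ.leaf K2_ok TB_l7935 _)
               (CovZ.n1 (-28632, 5232) (by decide +kernel)
                (CovZ.leaf K2_ok TB_l7936 _)
                (CovZ.leaf K2_ok TB_l7937 _)))))
            (CovZ.n1 (-28656, 5328) (by decide +kernel)
             (CovZ.n2 (-28608, 5328) (by decide +kernel)
              (CovZ.leaf K2_ok TB_l7938 _)
              (CovZ.leaf K2_ok TB_l7939 _))
             (CovZ.n1 (-28656, 5280) (by decide +kernel)
              (CovZ.n2 (-28680, 5304) (by decide +kernel)
               (CovZ.leaf K2_ok TB_l7940 _)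
               (CovZ.leaf K2_ok TB_l7941 _))
              (CovZ.leaf K2_ok TB_l7942 _))))))))
       (CovZ.n1 (-28992, 5184) (by decide +kernel)
        TB_u167
        TB_u168)))

theorem TB_u171 : CovZ TB_M (toL (selN TB_LN 5043456793138493339171719218759136677129072138056934343352696619728842679586538891008727766415544485102882922155999232)) [0, 7, 6, 1] (-27648, 6144) (-26880, 6144) (-26880, 6912) :=
    (CovZ.n2 (-27264, 6528) (by decide +kernel)
      (CovZ.subM 15914343565113172548972231966412414142226137518266804536631825970517641699014860209389568 (by decide +kernel)
       (CovZ.n2 (-26880, 6528) (by decide +kernel)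
        (CovZ.n2 (-27072, 6336) (by decide +kernel)
         (CovZ.n2 (-27072, 6528) (by decide +kernel)
          (CovZ.subM 15914343565113172548972231966409275591358441234186520435877967454594778531708909402456064 (by decide +kernel)
           (CovZ.n2 (-26976, 6432) (by decide +kernel)
            (CovZ.n2 (-27072, 6432) (by decide +kernel)
             (CovZ.n2 (-27024, 6480) (by decide +kernel)
              (CovZ.leaf K2_ok TB_l39603 _)
              (CovZ.leaf K2_ok TB_l39604 _))
             (CovZ.n1 (-27024, 6384) (by decide +kernel)
              (CovZ.leaf K2_ok TB_l39605 _)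
              (CovZ.leaf K2_ok TB_l39606 _)))
            (CovZ.n1 (-26976, 6528) (by decide +kernel)
             (CovZ.n2 (-26928, 6480) (by decide +kernel)
              (CovZ.leaf K2_ok TB_l39607 _)
              (CovZ.leaf K2_ok TB_l39608 _))
             (CovZ.leaf K2_ok TB_l39609 _))))
          (CovZ.n1 (-27168, 6432) (by decide +kernel)
           (CovZ.n2 (-27168, 6528) (by decide +kernel)
            (CovZ.leaf K2_ok TB_l11030 _)
            (CovZ.leaf K2_ok TB_l11031 _))
           (CovZ.n1 (-27072, 6432) (by decide +kernel)
            (CovZ.n2 (-27120, 6384) (by decide +kernel)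
             (CovZ.leaf K2_ok TB_l39610 _)
             (CovZ.leaf K2_ok TB_l39611 _))
            (CovZ.leaf K2_ok TB_l39612 _))))
         (CovZ.subM 25711008708143844408671393477783120194013674627307841385398272 (by decide +kernel)
          (CovZ.n1 (-26880, 6336) (by decide +kernel)
           (CovZ.badM (by decide +kernel))
           (CovZ.n1 (-26976, 6432) (by decide +kernel)
            (CovZ.n2 (-26880, 6432) (by decide +kernel)
             (CovZ.n2 (-26928, 6384) (by decide +kernel)
              (CovZ.n2 (-26928, 6432) (by decide +kernel)
               (CovZ.n2 (-26904, 6408) (by decide +kernel)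
                (CovZ.leaf K2_ok TB_l39613 _)
                (CovZ.leaf K2_ok TB_l39614 _))
               (CovZ.leaf K2_ok TB_l39615 _))
              (CovZ.n1 (-26880, 6384) (by decide +kernel)
               (CovZ.n2 (-26904, 6360) (by decide +kernel)
                (CovZ.n2 (-26904, 6384) (by decide +kernel)
                 (CovZ.badM (by decide +kernel))
                 (CovZ.leaf K2_ok TB_l39616 _))
                (CovZ.badM (by decide +kernel)))
               (CovZ.n1 (-26904, 6408) (by decide +kernel)
                (CovZ.leaf K2_ok TB_l39617 _)
                (CovZ.leaf K2_ok TB_l39618 _))))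
             (CovZ.n1 (-26928, 6480) (by decide +kernel)
              (CovZ.leaf K2_ok TB_l39619 _)
              (CovZ.n1 (-26928, 6432) (by decide +kernel)
               (CovZ.leaf K2_ok TB_l39620 _)
               (CovZ.leaf K2_ok TB_l39621 _))))
            (CovZ.n1 (-26976, 6336) (by decide +kernel)
             (CovZ.n2 (-27024, 6384) (by decide +kernel)
              (CovZ.leaf K2_ok TB_l39622 _)
              (CovZ.n1 (-27024, 6336) (by decide +kernel)
               (CovZ.leaf K2_ok TB_l39623 _)
               (CovZ.leaf K2_ok TB_l39624 _)))
             (CovZ.n1 (-26928, 6384) (by decide +kernel)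
              (CovZ.n2 (-26928, 6336) (by decide +kernel)
               (CovZ.n2 (-26952, 6360) (by decide +kernel)
                (CovZ.leaf K2_ok TB_l39625 _)
                (CovZ.badM (by decide +kernel)))
               (CovZ.n1 (-26904, 6360) (by decide +kernel)
                (CovZ.badM (by decide +kernel))
                (CovZ.leaf K2_ok TB_l39626 _)))
              (CovZ.n1 (-26976, 6384) (by decide +kernel)
               (CovZ.leaf K2_ok TB_l39627 _)
               (CovZ.n1 (-26952, 6360) (by decide +kernel)
                (CovZ.leaf K2_ok TB_l39628 _)
                (CovZ.leaf K2_ok TB_l39629 _)))))))))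
        (CovZ.n1 (-27072, 6720) (by decide +kernel)
         (CovZ.n2 (-26880, 6720) (by decide +kernel)
          (CovZ.n2 (-26976, 6624) (by decide +kernel)
           (CovZ.n2 (-26976, 6720) (by decide +kernel)
            (CovZ.leaf K2_ok TB_l11032 _)
            (CovZ.leaf K2_ok TB_l11033 _))
           (CovZ.leaf K2_ok TB_l11034 _))
          (CovZ.n1 (-26976, 6816) (by decide +kernel)
           (CovZ.leaf K2_ok TB_l11035 _)
           (CovZ.leaf K2_ok TB_l11036 _)))
         (CovZ.n1 (-27072, 6528) (by decide +kernel)
          (CovZ.n2 (-27168, 6624) (by decide +kernel)
           (CovZ.leaf K2_ok TB_l11037 _)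
           (CovZ.leaf K2_ok TB_l11038 _))
          (CovZ.n1 (-26976, 6624) (by decide +kernel)
           (CovZ.n2 (-26976, 6528) (by decide +kernel)
            (CovZ.leaf K2_ok TB_l11039 _)
            (CovZ.leaf K2_ok TB_l11040 _))
           (CovZ.leaf K2_ok TB_l11041 _))))))
      (CovZ.n1 (-27264, 6144) (by decide +kernel)
       (CovZ.n2 (-27456, 6336) (by decide +kernel)
        (CovZ.subM 15914343565113172548972231966412414142226134663771419124712063853945702800024587980767232 (by decide +kernel)
         (CovZ.n2 (-27264, 6336) (by decide +kernel)
          (CovZ.n2 (-27360, 6240) (by decide +kernel)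
           (CovZ.n2 (-27360, 6336) (by decide +kernel)
            (CovZ.leaf K2_ok TB_l11042 _)
            (CovZ.leaf K2_ok TB_l11043 _))
           (CovZ.subM 15914343565113172548972231966409275591358441234186520435877967454594778531708909402456064 (by decide +kernel)
            (CovZ.n1 (-27264, 6240) (by decide +kernel)
             (CovZ.n2 (-27312, 6192) (by decide +kernel)
              (CovZ.leaf K2_ok TB_l11044 _)
              (CovZ.leaf K2_ok TB_l39630 _))
             (CovZ.n1 (-27312, 6288) (by decide +kernel)
              (CovZ.leaf K2_ok TB_l11045 _)
              (CovZ.leaf K2_ok TB_l11046 _)))))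
          (CovZ.n1 (-27360, 6432) (by decide +kernel)
           (CovZ.leaf K2_ok TB_l11047 _)
           (CovZ.n1 (-27360, 6336) (by decide +kernel)
            (CovZ.leaf K2_ok TB_l11048 _)
            (CovZ.leaf K2_ok TB_l11049 _)))))
        (CovZ.n1 (-27456, 6144) (by decide +kernel)
         (CovZ.n2 (-27552, 6240) (by decide +kernel)
          (CovZ.leaf K2_ok TB_l11050 _)
          (CovZ.n1 (-27552, 6144) (by decide +kernel)
           (CovZ.leaf K2_ok TB_l11051 _)
           (CovZ.leaf K2_ok TB_l11052 _)))
         (CovZ.subM 15914343565113172548972231966412414142226134663771419124712063853945702800024587980505088 (by decide +kernel)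
          (CovZ.n1 (-27360, 6240) (by decide +kernel)
           (CovZ.subM 15914343565113172548972231940698266883214596825515126958419365814239530631184224574504960 (by decide +kernel)
            (CovZ.n2 (-27360, 6144) (by decide +kernel)
             (CovZ.n2 (-27408, 6192) (by decide +kernel)
              (CovZ.leaf K2_ok TB_l11053 _)
              (CovZ.leaf K2_ok TB_l39631 _))
             (CovZ.n1 (-27312, 6192) (by decide +kernel)
              (CovZ.n2 (-27312, 6144) (by decide +kernel)
               (CovZ.leaf K2_ok TB_l39632 _)
               (CovZ.leaf K2_ok TB_l39633 _))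
              (CovZ.leaf K2_ok TB_l11054 _))))
           (CovZ.n1 (-27456, 6240) (by decide +kernel)
            (CovZ.leaf K2_ok TB_l11055 _)
            (CovZ.n1 (-27408, 6192) (by decide +kernel)
             (CovZ.leaf K2_ok TB_l11056 _)
             (CovZ.leaf K2_ok TB_l11057 _)))))))
       (CovZ.subM 15914343565113172548972231966412414142226134663771419124712063853945702800024587443896320 (by decide +kernel)
        (CovZ.n1 (-27072, 6336) (by decide +kernel)
         (CovZ.badM (by decide +kernel))
         (CovZ.n1 (-27264, 6336) (by decide +kernel)
          (CovZ.n2 (-27168, 6432) (by decide +kernel)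
           (CovZ.n2 (-27168, 6336) (by decide +kernel)
            (CovZ.leaf K2_ok TB_l11058 _)
            (CovZ.n1 (-27120, 6384) (by decide +kernel)
             (CovZ.leaf K2_ok TB_l39634 _)
             (CovZ.leaf K2_ok TB_l39635 _)))
           (CovZ.leaf K2_ok TB_l11059 _))
          (CovZ.subM 15914343565113172548972231966409275591358441234186520435877967454594778531708909402456064 (by decide +kernel)
           (CovZ.n1 (-27168, 6240) (by decide +kernel)
            (CovZ.n2 (-27264, 6240) (by decide +kernel)
             (CovZ.n2 (-27216, 6288) (by decide +kernel)
              (CovZ.n2 (-27216, 6240) (by decide +kernel)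
               (CovZ.leaf K2_ok TB_l39636 _)
               (CovZ.leaf K2_ok TB_l39637 _))
              (CovZ.leaf K2_ok TB_l11060 _))
             (CovZ.n1 (-27216, 6192) (by decide +kernel)
              (CovZ.n2 (-27264, 6192) (by decide +kernel)
               (CovZ.leaf K2_ok TB_l39638 _)
               (CovZ.badM (by decide +kernel)))
              (CovZ.n1 (-27216, 6240) (by decide +kernel)
               (CovZ.n2 (-27192, 6216) (by decide +kernel)
                (CovZ.leaf K2_ok TB_l39639 _)
                (CovZ.leaf K2_ok TB_l39640 _))
               (CovZ.leaf K2_ok TB_l39641 _))))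
            (CovZ.n1 (-27168, 6336) (by decide +kernel)
             (CovZ.n2 (-27120, 6288) (by decide +kernel)
              (CovZ.leaf K2_ok TB_l39642 _)
              (CovZ.n1 (-27120, 6336) (by decide +kernel)
               (CovZ.leaf K2_ok TB_l39643 _)
               (CovZ.leaf K2_ok TB_l39644 _)))
             (CovZ.n1 (-27216, 6288) (by decide +kernel)
              (CovZ.leaf K2_ok TB_l11061 _)
              (CovZ.leaf K2_ok TB_l39645 _))))))))))

theorem TB_u172 : CovZ TB_M (toL (selN TB_LN 5043456793138493339171719218759136677129072138056934343352696619728842679586538891008727766415544485102882922155999232)) [0, 7, 6, 1] (-26880, 6144) (-26112, 6144) (-26880, 6912) :=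
    (CovZ.subM 15914343565113172548972231966412414142226137429063823742509333404374768608421414185467904 (by decide +kernel)
      (CovZ.n1 (-26496, 6528) (by decide +kernel)
       (CovZ.n2 (-26496, 6144) (by decide +kernel)
        (CovZ.n2 (-26688, 6336) (by decide +kernel)
         (CovZ.badM (by decide +kernel))
         (CovZ.badM (by decide +kernel)))
        (CovZ.badM (by decide +kernel)))
       (CovZ.n1 (-26880, 6528) (by decide +kernel)
        (CovZ.n2 (-26688, 6720) (by decide +kernel)
         (CovZ.subM 25711008708143844408671393477783120194013674627307841385398272 (by decide +kernel)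
          (CovZ.n2 (-26688, 6528) (by decide +kernel)
           (CovZ.n2 (-26784, 6624) (by decide +kernel)
            (CovZ.badM (by decide +kernel))
            (CovZ.n1 (-26784, 6528) (by decide +kernel)
             (CovZ.n2 (-26832, 6576) (by decide +kernel)
              (CovZ.badM (by decide +kernel))
              (CovZ.leaf K2_ok TB_l11070 _))
             (CovZ.badM (by decide +kernel))))
           (CovZ.badM (by decide +kernel))))
         (CovZ.n1 (-26880, 6720) (by decide +kernel)
          (CovZ.n2 (-26784, 6816) (by decide +kernel)
           (CovZ.n2 (-26784, 6720) (by decide +kernel)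
            (CovZ.leaf K2_ok TB_l11090 _)
            (CovZ.leaf K2_ok TB_l11091 _))
           (CovZ.leaf K2_ok TB_l11092 _))
          (CovZ.subM 15914343565113172548972231966409275591358441234186520435877967454594778531708909402456064 (by decide +kernel)
           (CovZ.n1 (-26784, 6624) (by decide +kernel)
            (CovZ.n2 (-26880, 6624) (by decide +kernel)
             (CovZ.leaf K2_ok TB_l11093 _)
             (CovZ.n1 (-26832, 6576) (by decide +kernel)
              (CovZ.leaf K2_ok TB_l11094 _)
              (CovZ.leaf K2_ok TB_l11095 _)))
            (CovZ.n1 (-26784, 6720) (by decide +kernel)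
             (CovZ.leaf K2_ok TB_l11096 _)
             (CovZ.leaf K2_ok TB_l11097 _))))))
        (CovZ.subM 25711008708143844408671393477783120194013674627307841385398272 (by decide +kernel)
         (CovZ.n1 (-26688, 6336) (by decide +kernel)
          (CovZ.n2 (-26880, 6336) (by decide +kernel)
           (CovZ.n2 (-26784, 6432) (by decide +kernel)
            (CovZ.n2 (-26784, 6336) (by decide +kernel)
             (CovZ.n2 (-26832, 6384) (by decide +kernel)
              (CovZ.badM (by decide +kernel))
              (CovZ.badM (by decide +kernel)))
             (CovZ.badM (by decide +kernel)))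
            (CovZ.n1 (-26880, 6432) (by decide +kernel)
             (CovZ.n2 (-26832, 6480) (by decide +kernel)
              (CovZ.n2 (-26832, 6432) (by decide +kernel)
               (CovZ.n2 (-26856, 6456) (by decide +kernel)
                (CovZ.badM (by decide +kernel))
                (CovZ.leaf K2_ok TB_l39646 _))
               (CovZ.badM (by decide +kernel)))
              (CovZ.leaf K2_ok TB_l39647 _))
             (CovZ.n1 (-26832, 6384) (by decide +kernel)
              (CovZ.n2 (-26880, 6384) (by decide +kernel)
               (CovZ.n2 (-26856, 6408) (by decide +kernel)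
                (CovZ.n2 (-26856, 6384) (by decide +kernel)
                 (CovZ.leaf K2_ok TB_l39648 _)
                 (CovZ.badM (by decide +kernel)))
                (CovZ.leaf K2_ok TB_l39649 _))
               (CovZ.badM (by decide +kernel)))
              (CovZ.n1 (-26832, 6432) (by decide +kernel)
               (CovZ.badM (by decide +kernel))
               (CovZ.n1 (-26856, 6408) (by decide +kernel)
                (CovZ.n2 (-26856, 6432) (by decide +kernel)
                 (CovZ.badM (by decide +kernel))
                 (CovZ.leaf K2_ok TB_l39650 _))
                (CovZ.badM (by decide +kernel)))))))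
           (CovZ.badM (by decide +kernel)))
          (CovZ.n1 (-26688, 6528) (by decide +kernel)
           (CovZ.badM (by decide +kernel))
           (CovZ.n1 (-26784, 6432) (by decide +kernel)
            (CovZ.n2 (-26784, 6528) (by decide +kernel)
             (CovZ.badM (by decide +kernel))
             (CovZ.n1 (-26832, 6480) (by decide +kernel)
              (CovZ.n2 (-26832, 6528) (by decide +kernel)
               (CovZ.badM (by decide +kernel))
               (CovZ.leaf K2_ok TB_l39651 _))
              (CovZ.badM (by decide +kernel))))
            (CovZ.badM (by decide +kernel)))))))))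

theorem TB_u173 : CovZ TB_M (toL (selN TB_LN 34996011596544105133525148806430914077695059803580186148610753874079611844048441888224476633422364672)) [0, 7, 6, 1] (-25344, 7680) (-25728, 7680) (-25728, 7296) :=
    (CovZ.n2 (-25536, 7488) (by decide +kernel)
        (CovZ.n2 (-25728, 7488) (by decide +kernel)
         (CovZ.n2 (-25632, 7584) (by decide +kernel)
          (CovZ.badM (by decide +kernel))
          (CovZ.n1 (-25728, 7584) (by decide +kernel)
           (CovZ.n2 (-25680, 7632) (by decide +kernel)
            (CovZ.subM 2854495385411919762116571938898990272765755392 (by decide +kernel)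
             (CovZ.n2 (-25680, 7584) (by decide +kernel)
              (CovZ.n2 (-25704, 7608) (by decide +kernel)
               (CovZ.n2 (-25680, 7608) (by decide +kernel)
                (CovZ.leaf K2_ok TB_l12557 _)
                (CovZ.leaf K2_ok TB_l12558 _))
               (CovZ.n1 (-25704, 7584) (by decide +kernel)
                (CovZ.leaf K2_ok TB_l12559 _)
                (CovZ.leaf K2_ok TB_l12560 _)))
              (CovZ.n1 (-25656, 7608) (by decide +kernel)
               (CovZ.badM (by decide +kernel))
               (CovZ.n1 (-25680, 7608) (by decide +kernel)
                (CovZ.leaf K2_ok TB_l12561 _)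
                (CovZ.badM (by decide +kernel))))))
            (CovZ.n1 (-25728, 7632) (by decide +kernel)
             (CovZ.n2 (-25704, 7656) (by decide +kernel)
              (CovZ.n2 (-25704, 7632) (by decide +kernel)
               (CovZ.leaf K2_ok TB_l12563 _)
               (CovZ.leaf K2_ok TB_l12564 _))
              (CovZ.leaf K2_ok TB_l12565 _))
             (CovZ.subM 2854495385411919762116571938898990272765755392 (by decide +kernel)
              (CovZ.n1 (-25704, 7608) (by decide +kernel)
               (CovZ.n2 (-25728, 7608) (by decide +kernel)
                (CovZ.leaf K2_ok TB_l12566 _)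
                (CovZ.leaf K2_ok TB_l12567 _))
               (CovZ.n1 (-25704, 7632) (by decide +kernel)
                (CovZ.leaf K2_ok TB_l12568 _)
                (CovZ.leaf K2_ok TB_l12569 _))))))
           (CovZ.subM 2854495385411919762116571938898990272765755392 (by decide +kernel)
            (CovZ.n1 (-25680, 7536) (by decide +kernel)
             (CovZ.n2 (-25728, 7536) (by decide +kernel)
              (CovZ.n2 (-25704, 7560) (by decide +kernel)
               (CovZ.badM (by decide +kernel))
               (CovZ.leaf K2_ok TB_l12570 _))
              (CovZ.badM (by decide +kernel)))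
             (CovZ.n1 (-25680, 7584) (by decide +kernel)
              (CovZ.badM (by decide +kernel))
              (CovZ.n1 (-25704, 7560) (by decide +kernel)
               (CovZ.n2 (-25704, 7584) (by decide +kernel)
                (CovZ.badM (by decide +kernel))
                (CovZ.leaf K2_ok TB_l12571 _))
               (CovZ.badM (by decide +kernel))))))))
         (CovZ.badM (by decide +kernel)))
        (CovZ.n1 (-25536, 7680) (by decide +kernel)
         (CovZ.subM 103647503854704872778031741255637643648066022667152228253433856 (by decide +kernel)
          (CovZ.n2 (-25440, 7584) (by decide +kernel)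
           (CovZ.n2 (-25536, 7584) (by decide +kernel)
            (CovZ.n2 (-25488, 7632) (by decide +kernel)
             (CovZ.badM (by decide +kernel))
             (CovZ.n1 (-25536, 7632) (by decide +kernel)
              (CovZ.n2 (-25512, 7656) (by decide +kernel)
               (CovZ.n2 (-25512, 7632) (by decide +kernel)
                (CovZ.leaf K2_ok TB_l40000 _)
                (CovZ.leaf K2_ok TB_l40001 _))
               (CovZ.leaf K2_ok TB_l12572 _))
              (CovZ.badM (by decide +kernel))))
            (CovZ.badM (by decide +kernel)))
           (CovZ.n1 (-25440, 7680) (by decide +kernel)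
            (CovZ.n2 (-25392, 7632) (by decide +kernel)
             (CovZ.n2 (-25440, 7632) (by decide +kernel)
              (CovZ.n2 (-25416, 7656) (by decide +kernel)
               (CovZ.n2 (-25416, 7632) (by decide +kernel)
                (CovZ.leaf K2_ok TB_l40002 _)
                (CovZ.leaf K2_ok TB_l40003 _))
               (CovZ.n1 (-25440, 7656) (by decide +kernel)
                (CovZ.leaf K2_ok TB_l40004 _)
                (CovZ.leaf K2_ok TB_l40005 _)))
              (CovZ.badM (by decide +kernel)))
             (CovZ.n1 (-25392, 7680) (by decide +kernel)
              (CovZ.n2 (-25368, 7656) (by decide +kernel)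
               (CovZ.n2 (-25392, 7656) (by decide +kernel)
                (CovZ.leaf K2_ok TB_l40006 _)
                (CovZ.leaf K2_ok TB_l40007 _))
               (CovZ.leaf K2_ok TB_l40008 _))
              (CovZ.n1 (-25416, 7656) (by decide +kernel)
               (CovZ.leaf K2_ok TB_l40009 _)
               (CovZ.leaf K2_ok TB_l40010 _))))
            (CovZ.n1 (-25488, 7632) (by decide +kernel)
             (CovZ.n2 (-25488, 7680) (by decide +kernel)
              (CovZ.n2 (-25464, 7656) (by decide +kernel)
               (CovZ.n2 (-25488, 7656) (by decide +kernel)
                (CovZ.leaf K2_ok TB_l40011 _)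
                (CovZ.leaf K2_ok TB_l40012 _))
               (CovZ.n1 (-25464, 7680) (by decide +kernel)
                (CovZ.leaf K2_ok TB_l40013 _)
                (CovZ.leaf K2_ok TB_l40014 _)))
              (CovZ.n1 (-25512, 7656) (by decide +kernel)
               (CovZ.n2 (-25512, 7680) (by decide +kernel)
                (CovZ.leaf K2_ok TB_l40015 _)
                (CovZ.leaf K2_ok TB_l12573 _))
               (CovZ.n1 (-25488, 7656) (by decide +kernel)
                (CovZ.leaf K2_ok TB_l40016 _)
                (CovZ.leaf K2_ok TB_l40017 _))))
             (CovZ.n1 (-25440, 7632) (by decide +kernel)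
              (CovZ.badM (by decide +kernel))
              (CovZ.n1 (-25464, 7656) (by decide +kernel)
               (CovZ.n2 (-25440, 7656) (by decide +kernel)
                (CovZ.leaf K2_ok TB_l40018 _)
                (CovZ.leaf K2_ok TB_l40019 _))
               (CovZ.n1 (-25464, 7632) (by decide +kernel)
                (CovZ.leaf K2_ok TB_l40020 _)
                (CovZ.leaf K2_ok TB_l40021 _))))))))
         (CovZ.n1 (-25632, 7584) (by decide +kernel)
          (CovZ.n2 (-25632, 7680) (by decide +kernel)
           (CovZ.n2 (-25584, 7632) (by decide +kernel)
            (CovZ.n2 (-25632, 7632) (by decide +kernel)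
             (CovZ.n2 (-25608, 7656) (by decide +kernel)
              (CovZ.n2 (-25608, 7632) (by decide +kernel)
               (CovZ.leaf K2_ok TB_l12574 _)
               (CovZ.leaf K2_ok TB_l12575 _))
              (CovZ.n1 (-25632, 7656) (by decide +kernel)
               (CovZ.leaf K2_ok TB_l12576 _)
               (CovZ.leaf K2_ok TB_l12577 _)))
             (CovZ.badM (by decide +kernel)))
            (CovZ.n1 (-25584, 7680) (by decide +kernel)
             (CovZ.n2 (-25560, 7656) (by decide +kernel)
              (CovZ.leaf K2_ok TB_l12580 _)
              (CovZ.n1 (-25560, 7680) (by decide +kernel)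
               (CovZ.leaf K2_ok TB_l12581 _)
               (CovZ.leaf K2_ok TB_l12582 _)))
             (CovZ.n1 (-25608, 7656) (by decide +kernel)
              (CovZ.n2 (-25608, 7680) (by decide +kernel)
               (CovZ.leaf K2_ok TB_l12583 _)
               (CovZ.leaf K2_ok TB_l12584 _))
              (CovZ.leaf K2_ok TB_l12585 _))))
           (CovZ.n1 (-25680, 7632) (by decide +kernel)
            (CovZ.n2 (-25680, 7680) (by decide +kernel)
             (CovZ.n2 (-25656, 7656) (by decide +kernel)
              (CovZ.n2 (-25680, 7656) (by decide +kernel)
               (CovZ.leaf K2_ok TB_l12586 _)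
               (CovZ.leaf K2_ok TB_l12587 _))
              (CovZ.n1 (-25656, 7680) (by decide +kernel)
               (CovZ.leaf K2_ok TB_l12588 _)
               (CovZ.leaf K2_ok TB_l12589 _)))
             (CovZ.n1 (-25704, 7656) (by decide +kernel)
              (CovZ.n2 (-25704, 7680) (by decide +kernel)
               (CovZ.leaf K2_ok TB_l12590 _)
               (CovZ.leaf K2_ok TB_l12591 _))
              (CovZ.leaf K2_ok TB_l12592 _)))
            (CovZ.n1 (-25632, 7632) (by decide +kernel)
             (CovZ.n2 (-25656, 7608) (by decide +kernel)
              (CovZ.n2 (-25656, 7632) (by decide +kernel)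
               (CovZ.leaf K2_ok TB_l12593 _)
               (CovZ.leaf K2_ok TB_l12594 _))
              (CovZ.badM (by decide +kernel)))
             (CovZ.n1 (-25656, 7656) (by decide +kernel)
              (CovZ.leaf K2_ok TB_l12596 _)
              (CovZ.n1 (-25656, 7632) (by decide +kernel)
               (CovZ.leaf K2_ok TB_l12597 _)
               (CovZ.leaf K2_ok TB_l12598 _))))))
          (CovZ.subM 103647503854704872778031741255637643648066022667152228253433856 (by decide +kernel)
           (CovZ.n1 (-25536, 7584) (by decide +kernel)
            (CovZ.badM (by decide +kernel))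
            (CovZ.n1 (-25584, 7632) (by decide +kernel)
             (CovZ.n2 (-25536, 7632) (by decide +kernel)
              (CovZ.badM (by decide +kernel))
              (CovZ.n1 (-25560, 7656) (by decide +kernel)
               (CovZ.leaf K2_ok TB_l12599 _)
               (CovZ.n1 (-25560, 7632) (by decide +kernel)
                (CovZ.leaf K2_ok TB_l40022 _)
                (CovZ.leaf K2_ok TB_l40023 _))))
             (CovZ.badM (by decide +kernel))))))))

theorem TB_u174 : CovZ TB_M (toL (selN TB_LN 34996011596544105133525148806430914077695059803580186148610753874079611844048441888224476633422364672)) [0, 7, 6, 1] (-25728, 7680) (-26112, 7680) (-25728, 7296) :=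
    (CovZ.n1 (-25920, 7488) (by decide +kernel)
        (CovZ.n2 (-25920, 7680) (by decide +kernel)
         (CovZ.n2 (-25824, 7584) (by decide +kernel)
          (CovZ.n2 (-25920, 7584) (by decide +kernel)
           (CovZ.n2 (-25872, 7632) (by decide +kernel)
            (CovZ.leaf K2_ok TB_l12600 _)
            (CovZ.leaf K2_ok TB_l12601 _))
           (CovZ.n1 (-25872, 7536) (by decide +kernel)
            (CovZ.leaf K2_ok TB_l12602 _)
            (CovZ.n1 (-25872, 7584) (by decide +kernel)
             (CovZ.leaf K2_ok TB_l12603 _)
             (CovZ.leaf K2_ok TB_l12604 _))))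
          (CovZ.n1 (-25824, 7680) (by decide +kernel)
           (CovZ.n2 (-25776, 7632) (by decide +kernel)
            (CovZ.n2 (-25824, 7632) (by decide +kernel)
             (CovZ.n2 (-25800, 7656) (by decide +kernel)
              (CovZ.leaf K2_ok TB_l12605 _)
              (CovZ.leaf K2_ok TB_l12606 _))
             (CovZ.leaf K2_ok TB_l12607 _))
            (CovZ.n1 (-25776, 7680) (by decide +kernel)
             (CovZ.n2 (-25752, 7656) (by decide +kernel)
              (CovZ.leaf K2_ok TB_l12608 _)
              (CovZ.leaf K2_ok TB_l12609 _))
             (CovZ.n1 (-25800, 7656) (by decide +kernel)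
              (CovZ.leaf K2_ok TB_l12610 _)
              (CovZ.leaf K2_ok TB_l12611 _))))
           (CovZ.n1 (-25872, 7632) (by decide +kernel)
            (CovZ.n2 (-25872, 7680) (by decide +kernel)
             (CovZ.leaf K2_ok TB_l12612 _)
             (CovZ.leaf K2_ok TB_l12613 _))
            (CovZ.n1 (-25824, 7632) (by decide +kernel)
             (CovZ.leaf K2_ok TB_l12614 _)
             (CovZ.leaf K2_ok TB_l12615 _)))))
         (CovZ.n1 (-26016, 7584) (by decide +kernel)
          (CovZ.n2 (-26016, 7680) (by decide +kernel)
           (CovZ.n2 (-25968, 7632) (by decide +kernel)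
            (CovZ.leaf K2_ok TB_l12616 _)
            (CovZ.leaf K2_ok TB_l12617 _))
           (CovZ.leaf K2_ok TB_l12618 _))
          (CovZ.n1 (-25920, 7584) (by decide +kernel)
           (CovZ.n2 (-25968, 7536) (by decide +kernel)
            (CovZ.leaf K2_ok TB_l12619 _)
            (CovZ.leaf K2_ok TB_l12620 _))
           (CovZ.n1 (-25968, 7632) (by decide +kernel)
            (CovZ.leaf K2_ok TB_l12621 _)
            (CovZ.leaf K2_ok TB_l12622 _)))))
        (CovZ.n1 (-25728, 7488) (by decide +kernel)
         (CovZ.subM 2854495385411919762116571938898990272765755392 (by decide +kernel)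
          (CovZ.n2 (-25824, 7392) (by decide +kernel)
           (CovZ.n2 (-25824, 7488) (by decide +kernel)
            (CovZ.badM (by decide +kernel))
            (CovZ.n1 (-25872, 7440) (by decide +kernel)
             (CovZ.n2 (-25872, 7488) (by decide +kernel)
              (CovZ.leaf K2_ok TB_l40024 _)
              (CovZ.leaf K2_ok TB_l12623 _))
             (CovZ.badM (by decide +kernel))))
           (CovZ.badM (by decide +kernel))))
         (CovZ.n1 (-25824, 7584) (by decide +kernel)
          (CovZ.n2 (-25728, 7584) (by decide +kernel)
           (CovZ.subM 2854495385411919762116571938898990272765755392 (by decide +kernel)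
            (CovZ.n2 (-25776, 7536) (by decide +kernel)
             (CovZ.n2 (-25776, 7584) (by decide +kernel)
              (CovZ.n2 (-25752, 7560) (by decide +kernel)
               (CovZ.leaf K2_ok TB_l12624 _)
               (CovZ.n1 (-25752, 7584) (by decide +kernel)
                (CovZ.leaf K2_ok TB_l12625 _)
                (CovZ.leaf K2_ok TB_l12626 _)))
              (CovZ.leaf K2_ok TB_l12627 _))
             (CovZ.n1 (-25728, 7536) (by decide +kernel)
              (CovZ.badM (by decide +kernel))
              (CovZ.n1 (-25752, 7560) (by decide +kernel)
               (CovZ.leaf K2_ok TB_l12628 _)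
               (CovZ.badM (by decide +kernel))))))
           (CovZ.n1 (-25776, 7632) (by decide +kernel)
            (CovZ.n2 (-25728, 7632) (by decide +kernel)
             (CovZ.n2 (-25752, 7608) (by decide +kernel)
              (CovZ.n2 (-25752, 7632) (by decide +kernel)
               (CovZ.leaf K2_ok TB_l12629 _)
               (CovZ.leaf K2_ok TB_l12630 _))
              (CovZ.leaf K2_ok TB_l12631 _))
             (CovZ.n1 (-25752, 7656) (by decide +kernel)
              (CovZ.leaf K2_ok TB_l12632 _)
              (CovZ.leaf K2_ok TB_l12633 _)))
            (CovZ.subM 803469022129497992266366458090343417833040395881669183406080 (by decide +kernel)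
             (CovZ.n1 (-25776, 7584) (by decide +kernel)
              (CovZ.n2 (-25800, 7608) (by decide +kernel)
               (CovZ.leaf K2_ok TB_l12634 _)
               (CovZ.leaf K2_ok TB_l12635 _))
              (CovZ.n1 (-25752, 7608) (by decide +kernel)
               (CovZ.leaf K2_ok TB_l12636 _)
               (CovZ.leaf K2_ok TB_l12637 _))))))
          (CovZ.subM 2854495385411919762116571938898990272765755392 (by decide +kernel)
           (CovZ.n1 (-25824, 7488) (by decide +kernel)
            (CovZ.n2 (-25872, 7536) (by decide +kernel)
             (CovZ.n2 (-25824, 7536) (by decide +kernel)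
              (CovZ.leaf K2_ok TB_l12638 _)
              (CovZ.leaf K2_ok TB_l12639 _))
             (CovZ.leaf K2_ok TB_l12640 _))
            (CovZ.n1 (-25776, 7536) (by decide +kernel)
             (CovZ.badM (by decide +kernel))
             (CovZ.n1 (-25824, 7536) (by decide +kernel)
              (CovZ.leaf K2_ok TB_l12641 _)
              (CovZ.n1 (-25800, 7512) (by decide +kernel)
               (CovZ.leaf K2_ok TB_l12642 _)
               (CovZ.leaf K2_ok TB_l12643 _)))))))))

theorem TB_u175 : CovZ TB_M (toL (selN TB_LN 34996011596544105133525148806430914077695059803580186148610753874079611844048441888224476633422364672)) [0, 7, 6, 1] (-26112, 6144) (-25344, 6912) (-26112, 7680) :=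
    (CovZ.n2 (-26112, 6912) (by decide +kernel)
     (CovZ.n2 (-25728, 7296) (by decide +kernel)
      (CovZ.badM (by decide +kernel))
      (CovZ.n1 (-26112, 7296) (by decide +kernel)
       (CovZ.n2 (-25920, 7488) (by decide +kernel)
        (CovZ.subM 2854495385411919762116571938898990272765755392 (by decide +kernel)
         (CovZ.n2 (-25920, 7296) (by decide +kernel)
          (CovZ.n2 (-26016, 7392) (by decide +kernel)
           (CovZ.n2 (-25920, 7392) (by decide +kernel)
            (CovZ.n2 (-25968, 7344) (by decide +kernel)
             (CovZ.leaf K2_ok TB_l39932 _)
             (CovZ.badM (by decide +kernel)))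
            (CovZ.n1 (-25968, 7440) (by decide +kernel)
             (CovZ.leaf K2_ok TB_l12530 _)
             (CovZ.leaf K2_ok TB_l39933 _)))
           (CovZ.n1 (-26016, 7296) (by decide +kernel)
            (CovZ.n2 (-26064, 7344) (by decide +kernel)
             (CovZ.leaf K2_ok TB_l39934 _)
             (CovZ.leaf K2_ok TB_l12531 _))
            (CovZ.n1 (-25968, 7344) (by decide +kernel)
             (CovZ.badM (by decide +kernel))
             (CovZ.leaf K2_ok TB_l39935 _))))
          (CovZ.n1 (-25824, 7392) (by decide +kernel)
           (CovZ.badM (by decide +kernel))
           (CovZ.n1 (-25920, 7392) (by decide +kernel)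
            (CovZ.n2 (-25872, 7440) (by decide +kernel)
             (CovZ.badM (by decide +kernel))
             (CovZ.leaf K2_ok TB_l12532 _))
            (CovZ.badM (by decide +kernel))))))
        (CovZ.n1 (-26112, 7488) (by decide +kernel)
         (CovZ.n2 (-26016, 7584) (by decide +kernel)
          (CovZ.n2 (-26016, 7488) (by decide +kernel)
           (CovZ.leaf K2_ok TB_l12533 _)
           (CovZ.n1 (-25968, 7536) (by decide +kernel)
            (CovZ.leaf K2_ok TB_l12534 _)
            (CovZ.leaf K2_ok TB_l12535 _)))
          (CovZ.n1 (-26112, 7584) (by decide +kernel)
           (CovZ.leaf K2_ok TB_l12536 _)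
           (CovZ.leaf K2_ok TB_l12537 _)))
         (CovZ.subM 15914343565113172548972231940698266883214599680010512370014609377153042803391340782813184 (by decide +kernel)
          (CovZ.n1 (-26016, 7392) (by decide +kernel)
           (CovZ.n2 (-26112, 7392) (by decide +kernel)
            (CovZ.leaf K2_ok TB_l12538 _)
            (CovZ.n1 (-26064, 7344) (by decide +kernel)
             (CovZ.leaf K2_ok TB_l12539 _)
             (CovZ.leaf K2_ok TB_l12540 _)))
           (CovZ.n1 (-26016, 7488) (by decide +kernel)
            (CovZ.n2 (-25968, 7440) (by decide +kernel)
             (CovZ.leaf K2_ok TB_l12541 _)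
             (CovZ.leaf K2_ok TB_l12542 _))
            (CovZ.leaf K2_ok TB_l12543 _))))))
       (CovZ.badM (by decide +kernel))))
     (CovZ.badM (by decide +kernel)))

theorem TB_u176 : CovZ TB_M (toL (selN TB_LN 34996011596544105133525148806430914077695059803580186148610753874079611844048441888224476633422364672)) [0, 7, 6, 1] (-25344, 6912) (-24576, 7680) (-26112, 7680) :=
    (CovZ.n1 (-25344, 7680) (by decide +kernel)
     (CovZ.subM 103647503854704872778031741255637643648066022667152228253433856 (by decide +kernel)
      (CovZ.n2 (-24960, 7296) (by decide +kernel)
       (CovZ.n2 (-25344, 7296) (by decide +kernel)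
        (CovZ.n2 (-25152, 7488) (by decide +kernel)
         (CovZ.badM (by decide +kernel))
         (CovZ.n1 (-25344, 7488) (by decide +kernel)
          (CovZ.n2 (-25248, 7584) (by decide +kernel)
           (CovZ.badM (by decide +kernel))
           (CovZ.n1 (-25344, 7584) (by decide +kernel)
            (CovZ.n2 (-25296, 7632) (by decide +kernel)
             (CovZ.badM (by decide +kernel))
             (CovZ.n1 (-25344, 7632) (by decide +kernel)
              (CovZ.n2 (-25320, 7656) (by decide +kernel)
               (CovZ.n2 (-25320, 7632) (by decide +kernel)
                (CovZ.leaf K2_ok TB_l39936 _)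
                (CovZ.leaf K2_ok TB_l39937 _))
               (CovZ.leaf K2_ok TB_l39938 _))
              (CovZ.badM (by decide +kernel))))
            (CovZ.badM (by decide +kernel))))
          (CovZ.badM (by decide +kernel))))
        (CovZ.badM (by decide +kernel)))
       (CovZ.n1 (-24960, 7680) (by decide +kernel)
        (CovZ.n2 (-24768, 7488) (by decide +kernel)
         (CovZ.n2 (-24960, 7488) (by decide +kernel)
          (CovZ.n2 (-24864, 7584) (by decide +kernel)
           (CovZ.badM (by decide +kernel))
           (CovZ.n1 (-24960, 7584) (by decide +kernel)
            (CovZ.n2 (-24912, 7632) (by decide +kernel)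
             (CovZ.badM (by decide +kernel))
             (CovZ.n1 (-24960, 7632) (by decide +kernel)
              (CovZ.n2 (-24936, 7656) (by decide +kernel)
               (CovZ.leaf K2_ok TB_l39939 _)
               (CovZ.leaf K2_ok TB_l39940 _))
              (CovZ.badM (by decide +kernel))))
            (CovZ.badM (by decide +kernel))))
          (CovZ.badM (by decide +kernel)))
         (CovZ.n1 (-24768, 7680) (by decide +kernel)
          (CovZ.n2 (-24672, 7584) (by decide +kernel)
           (CovZ.n2 (-24768, 7584) (by decide +kernel)
            (CovZ.n2 (-24720, 7632) (by decide +kernel)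
             (CovZ.badM (by decide +kernel))
             (CovZ.n1 (-24768, 7632) (by decide +kernel)
              (CovZ.n2 (-24744, 7656) (by decide +kernel)
               (CovZ.n2 (-24744, 7632) (by decide +kernel)
                (CovZ.leaf K2_ok TB_l39941 _)
                (CovZ.leaf K2_ok TB_l39942 _))
               (CovZ.leaf K2_ok TB_l39943 _))
              (CovZ.badM (by decide +kernel))))
            (CovZ.badM (by decide +kernel)))
           (CovZ.n1 (-24672, 7680) (by decide +kernel)
            (CovZ.n2 (-24624, 7632) (by decide +kernel)
             (CovZ.n2 (-24672, 7632) (by decide +kernel)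
              (CovZ.n2 (-24648, 7656) (by decide +kernel)
               (CovZ.n2 (-24648, 7632) (by decide +kernel)
                (CovZ.leaf K2_ok TB_l39944 _)
                (CovZ.leaf K2_ok TB_l39945 _))
               (CovZ.leaf K2_ok TB_l39946 _))
              (CovZ.badM (by decide +kernel)))
             (CovZ.n1 (-24624, 7680) (by decide +kernel)
              (CovZ.n2 (-24600, 7656) (by decide +kernel)
               (CovZ.leaf K2_ok TB_l39947 _)
               (CovZ.leaf K2_ok TB_l39948 _))
              (CovZ.n1 (-24648, 7656) (by decide +kernel)
               (CovZ.n2 (-24648, 7680) (by decide +kernel)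
                (CovZ.leaf K2_ok TB_l39949 _)
                (CovZ.leaf K2_ok TB_l39950 _))
               (CovZ.leaf K2_ok TB_l39951 _))))
            (CovZ.n1 (-24720, 7632) (by decide +kernel)
             (CovZ.n2 (-24720, 7680) (by decide +kernel)
              (CovZ.n2 (-24696, 7656) (by decide +kernel)
               (CovZ.leaf K2_ok TB_l39952 _)
               (CovZ.leaf K2_ok TB_l39953 _))
              (CovZ.n1 (-24744, 7656) (by decide +kernel)
               (CovZ.leaf K2_ok TB_l39954 _)
               (CovZ.leaf K2_ok TB_l39955 _)))
             (CovZ.n1 (-24672, 7632) (by decide +kernel)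
              (CovZ.badM (by decide +kernel))
              (CovZ.n1 (-24696, 7656) (by decide +kernel)
               (CovZ.leaf K2_ok TB_l39956 _)
               (CovZ.n1 (-24696, 7632) (by decide +kernel)
                (CovZ.leaf K2_ok TB_l39957 _)
                (CovZ.leaf K2_ok TB_l39958 _)))))))
          (CovZ.n1 (-24864, 7584) (by decide +kernel)
           (CovZ.n2 (-24864, 7680) (by decide +kernel)
            (CovZ.n2 (-24816, 7632) (by decide +kernel)
             (CovZ.n2 (-24864, 7632) (by decide +kernel)
              (CovZ.n2 (-24840, 7656) (by decide +kernel)
               (CovZ.n2 (-24840, 7632) (by decide +kernel)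
                (CovZ.leaf K2_ok TB_l39959 _)
                (CovZ.leaf K2_ok TB_l39960 _))
               (CovZ.leaf K2_ok TB_l39961 _))
              (CovZ.badM (by decide +kernel)))
             (CovZ.n1 (-24816, 7680) (by decide +kernel)
              (CovZ.n2 (-24792, 7656) (by decide +kernel)
               (CovZ.leaf K2_ok TB_l39962 _)
               (CovZ.leaf K2_ok TB_l39963 _))
              (CovZ.n1 (-24840, 7656) (by decide +kernel)
               (CovZ.leaf K2_ok TB_l39964 _)
               (CovZ.leaf K2_ok TB_l39965 _))))
            (CovZ.n1 (-24912, 7632) (by decide +kernel)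
             (CovZ.n2 (-24912, 7680) (by decide +kernel)
              (CovZ.n2 (-24888, 7656) (by decide +kernel)
               (CovZ.leaf K2_ok TB_l39966 _)
               (CovZ.leaf K2_ok TB_l39967 _))
              (CovZ.leaf K2_ok TB_l39968 _))
             (CovZ.n1 (-24864, 7632) (by decide +kernel)
              (CovZ.badM (by decide +kernel))
              (CovZ.n1 (-24888, 7656) (by decide +kernel)
               (CovZ.leaf K2_ok TB_l39969 _)
               (CovZ.leaf K2_ok TB_l39970 _)))))
           (CovZ.n1 (-24768, 7584) (by decide +kernel)
            (CovZ.badM (by decide +kernel))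
            (CovZ.n1 (-24816, 7632) (by decide +kernel)
             (CovZ.n2 (-24768, 7632) (by decide +kernel)
              (CovZ.badM (by decide +kernel))
              (CovZ.n1 (-24792, 7656) (by decide +kernel)
               (CovZ.leaf K2_ok TB_l39971 _)
               (CovZ.leaf K2_ok TB_l39972 _)))
             (CovZ.badM (by decide +kernel)))))))
        (CovZ.n1 (-25152, 7488) (by decide +kernel)
         (CovZ.n2 (-25152, 7680) (by decide +kernel)
          (CovZ.n2 (-25056, 7584) (by decide +kernel)
           (CovZ.n2 (-25152, 7584) (by decide +kernel)
            (CovZ.n2 (-25104, 7632) (by decide +kernel)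
             (CovZ.badM (by decide +kernel))
             (CovZ.n1 (-25152, 7632) (by decide +kernel)
              (CovZ.n2 (-25128, 7656) (by decide +kernel)
               (CovZ.leaf K2_ok TB_l39973 _)
               (CovZ.leaf K2_ok TB_l39974 _))
              (CovZ.badM (by decide +kernel))))
            (CovZ.badM (by decide +kernel)))
           (CovZ.n1 (-25056, 7680) (by decide +kernel)
            (CovZ.n2 (-25008, 7632) (by decide +kernel)
             (CovZ.n2 (-25056, 7632) (by decide +kernel)
              (CovZ.leaf K2_ok TB_l39975 _)
              (CovZ.badM (by decide +kernel)))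
             (CovZ.n1 (-25008, 7680) (by decide +kernel)
              (CovZ.leaf K2_ok TB_l39976 _)
              (CovZ.leaf K2_ok TB_l39977 _)))
            (CovZ.n1 (-25104, 7632) (by decide +kernel)
             (CovZ.n2 (-25104, 7680) (by decide +kernel)
              (CovZ.n2 (-25080, 7656) (by decide +kernel)
               (CovZ.leaf K2_ok TB_l39978 _)
               (CovZ.leaf K2_ok TB_l39979 _))
              (CovZ.leaf K2_ok TB_l39980 _))
             (CovZ.n1 (-25056, 7632) (by decide +kernel)
              (CovZ.badM (by decide +kernel))
              (CovZ.n1 (-25080, 7656) (by decide +kernel)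
               (CovZ.leaf K2_ok TB_l39981 _)
               (CovZ.leaf K2_ok TB_l39982 _))))))
          (CovZ.n1 (-25248, 7584) (by decide +kernel)
           (CovZ.n2 (-25248, 7680) (by decide +kernel)
            (CovZ.n2 (-25200, 7632) (by decide +kernel)
             (CovZ.n2 (-25248, 7632) (by decide +kernel)
              (CovZ.n2 (-25224, 7656) (by decide +kernel)
               (CovZ.n2 (-25224, 7632) (by decide +kernel)
                (CovZ.leaf K2_ok TB_l39983 _)
                (CovZ.leaf K2_ok TB_l39984 _))
               (CovZ.leaf K2_ok TB_l39985 _))
              (CovZ.badM (by decide +kernel)))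
             (CovZ.n1 (-25200, 7680) (by decide +kernel)
              (CovZ.n2 (-25176, 7656) (by decide +kernel)
               (CovZ.leaf K2_ok TB_l39986 _)
               (CovZ.leaf K2_ok TB_l39987 _))
              (CovZ.n1 (-25224, 7656) (by decide +kernel)
               (CovZ.leaf K2_ok TB_l39988 _)
               (CovZ.leaf K2_ok TB_l39989 _))))
            (CovZ.n1 (-25296, 7632) (by decide +kernel)
             (CovZ.n2 (-25296, 7680) (by decide +kernel)
              (CovZ.n2 (-25272, 7656) (by decide +kernel)
               (CovZ.leaf K2_ok TB_l39990 _)
               (CovZ.leaf K2_ok TB_l39991 _))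
              (CovZ.n1 (-25320, 7656) (by decide +kernel)
               (CovZ.leaf K2_ok TB_l39992 _)
               (CovZ.leaf K2_ok TB_l39993 _)))
             (CovZ.n1 (-25248, 7632) (by decide +kernel)
              (CovZ.badM (by decide +kernel))
              (CovZ.n1 (-25272, 7656) (by decide +kernel)
               (CovZ.leaf K2_ok TB_l39994 _)
               (CovZ.n1 (-25272, 7632) (by decide +kernel)
                (CovZ.leaf K2_ok TB_l39995 _)
                (CovZ.leaf K2_ok TB_l39996 _))))))
           (CovZ.n1 (-25152, 7584) (by decide +kernel)
            (CovZ.badM (by decide +kernel))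
            (CovZ.n1 (-25200, 7632) (by decide +kernel)
             (CovZ.n2 (-25152, 7632) (by decide +kernel)
              (CovZ.badM (by decide +kernel))
              (CovZ.n1 (-25176, 7656) (by decide +kernel)
               (CovZ.leaf K2_ok TB_l39997 _)
               (CovZ.leaf K2_ok TB_l39998 _)))
             (CovZ.badM (by decide +kernel))))))
         (CovZ.n1 (-24960, 7488) (by decide +kernel)
          (CovZ.badM (by decide +kernel))
          (CovZ.n1 (-25056, 7584) (by decide +kernel)
           (CovZ.n2 (-24960, 7584) (by decide +kernel)
            (CovZ.badM (by decide +kernel))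
            (CovZ.n1 (-25008, 7632) (by decide +kernel)
             (CovZ.n2 (-24960, 7632) (by decide +kernel)
              (CovZ.badM (by decide +kernel))
              (CovZ.leaf K2_ok TB_l39999 _))
             (CovZ.badM (by decide +kernel))))
           (CovZ.badM (by decide +kernel))))))))
     (CovZ.n1 (-25728, 7296) (by decide +kernel)
      (CovZ.n2 (-25728, 7680) (by decide +kernel)
       TB_u173
       TB_u174)
      (CovZ.subM 103647503854704872778031741255637643648066022667152228253433856 (by decide +kernel)
       (CovZ.n1 (-25344, 7296) (by decide +kernel)
        (CovZ.badM (by decide +kernel))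
        (CovZ.n1 (-25536, 7488) (by decide +kernel)
         (CovZ.n2 (-25344, 7488) (by decide +kernel)
          (CovZ.badM (by decide +kernel))
          (CovZ.n1 (-25440, 7584) (by decide +kernel)
           (CovZ.n2 (-25344, 7584) (by decide +kernel)
            (CovZ.badM (by decide +kernel))
            (CovZ.n1 (-25392, 7632) (by decide +kernel)
             (CovZ.n2 (-25344, 7632) (by decide +kernel)
              (CovZ.badM (by decide +kernel))
              (CovZ.n1 (-25368, 7656) (by decide +kernel)
               (CovZ.leaf K2_ok TB_l40025 _)
               (CovZ.n1 (-25368, 7632) (by decide +kernel)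
                (CovZ.leaf K2_ok TB_l40026 _)
                (CovZ.leaf K2_ok TB_l40027 _))))
             (CovZ.badM (by decide +kernel))))
           (CovZ.badM (by decide +kernel))))
         (CovZ.badM (by decide +kernel)))))))

theorem TB_u177 : CovZ TB_M (toL (selN TB_LN 630432099142311751317839183004389138922433852993991157124991474868355746019419336465488187289017730180439327098544128)) [0, 7, 6, 1] (-22272, 6912) (-21888, 7296) (-22272, 7680) :=
    (CovZ.subM 630432099142311737527865160602198316705126940195663975872901075903916121573468671812672990103879606476587289563635712 (by decide +kernel)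
       (CovZ.n2 (-22272, 7296) (by decide +kernel)
        (CovZ.n2 (-22080, 7488) (by decide +kernel)
         (CovZ.n2 (-22080, 7296) (by decide +kernel)
          (CovZ.subM 2669983794901137602993777132711940143259670015019719661391382403753536708441762829762427090903040 (by decide +kernel)
           (CovZ.n2 (-22176, 7392) (by decide +kernel)
            (CovZ.n2 (-22080, 7392) (by decide +kernel)
             (CovZ.subM 374144419156711147060143317175368453031918731001856 (by decide +kernel)
              (CovZ.n2 (-22128, 7344) (by decide +kernel)
               (CovZ.n2 (-22128, 7392) (by decide +kernel)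
                (CovZ.badM (by decide +kernel))
                (CovZ.n1 (-22152, 7368) (by decide +kernel)
                 (CovZ.n2 (-22152, 7392) (by decide +kernel)
                  (CovZ.leaf K2_ok TB_l15897 _)
                  (CovZ.badM (by decide +kernel)))
                 (CovZ.badM (by decide +kernel))))
               (CovZ.badM (by decide +kernel))))
             (CovZ.n1 (-22128, 7440) (by decide +kernel)
              (CovZ.n2 (-22080, 7440) (by decide +kernel)
               (CovZ.n2 (-22104, 7416) (by decide +kernel)
                (CovZ.leaf K2_ok TB_l40489 _)
                (CovZ.leaf K2_ok TB_l40490 _))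
               (CovZ.leaf K2_ok TB_l40491 _))
              (CovZ.n1 (-22128, 7392) (by decide +kernel)
               (CovZ.n2 (-22152, 7416) (by decide +kernel)
                (CovZ.leaf K2_ok TB_l15899 _)
                (CovZ.n1 (-22152, 7392) (by decide +kernel)
                 (CovZ.leaf K2_ok TB_l15900 _)
                 (CovZ.leaf K2_ok TB_l15901 _)))
               (CovZ.n1 (-22104, 7416) (by decide +kernel)
                (CovZ.n2 (-22104, 7392) (by decide +kernel)
                 (CovZ.leaf K2_ok TB_l40492 _)
                 (CovZ.leaf K2_ok TB_l40493 _))
                (CovZ.leaf K2_ok TB_l40494 _)))))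
            (CovZ.subM 374144419156711147060143317175368453031918731001856 (by decide +kernel)
             (CovZ.n1 (-22176, 7296) (by decide +kernel)
              (CovZ.badM (by decide +kernel))
              (CovZ.n1 (-22128, 7344) (by decide +kernel)
               (CovZ.badM (by decide +kernel))
               (CovZ.n1 (-22176, 7344) (by decide +kernel)
                (CovZ.n2 (-22152, 7368) (by decide +kernel)
                 (CovZ.badM (by decide +kernel))
                 (CovZ.badM (by decide +kernel)))
                (CovZ.badM (by decide +kernel))))))))
          (CovZ.n1 (-21984, 7392) (by decide +kernel)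
           (CovZ.subM 23384026197294446691258957323460528314494920687616 (by decide +kernel)
            (CovZ.n2 (-21984, 7296) (by decide +kernel)
             (CovZ.badM (by decide +kernel))
             (CovZ.n1 (-21936, 7344) (by decide +kernel)
              (CovZ.badM (by decide +kernel))
              (CovZ.n1 (-21984, 7344) (by decide +kernel)
               (CovZ.n2 (-21960, 7368) (by decide +kernel)
                (CovZ.badM (by decide +kernel))
                (CovZ.badM (by decide +kernel)))
               (CovZ.badM (by decide +kernel))))))
           (CovZ.subM 2669983794901137602993777132711940143259670015019719661391382403753536708441762829762427090903040 (by decide +kernel)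
            (CovZ.n1 (-22080, 7392) (by decide +kernel)
             (CovZ.n2 (-22032, 7440) (by decide +kernel)
              (CovZ.n2 (-22032, 7392) (by decide +kernel)
               (CovZ.n2 (-22056, 7416) (by decide +kernel)
                (CovZ.leaf K2_ok TB_l40497 _)
                (CovZ.n1 (-22056, 7392) (by decide +kernel)
                 (CovZ.leaf K2_ok TB_l40498 _)
                 (CovZ.leaf K2_ok TB_l40499 _)))
               (CovZ.n1 (-22008, 7416) (by decide +kernel)
                (CovZ.n2 (-22008, 7392) (by decide +kernel)
                 (CovZ.leaf K2_ok TB_l40500 _)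
                 (CovZ.leaf K2_ok TB_l40501 _))
                (CovZ.leaf K2_ok TB_l40502 _)))
              (CovZ.n1 (-22080, 7440) (by decide +kernel)
               (CovZ.leaf K2_ok TB_l40503 _)
               (CovZ.n1 (-22056, 7416) (by decide +kernel)
                (CovZ.leaf K2_ok TB_l40504 _)
                (CovZ.leaf K2_ok TB_l40505 _))))
             (CovZ.badM (by decide +kernel))))))
         (CovZ.n1 (-22272, 7488) (by decide +kernel)
          (CovZ.n2 (-22176, 7584) (by decide +kernel)
           (CovZ.subM 69994693176851282717523065044896595631444681458597817685286050787522249511088471305982184091828625408 (by decide +kernel)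
            (CovZ.n2 (-22176, 7488) (by decide +kernel)
             (CovZ.n2 (-22224, 7536) (by decide +kernel)
              (CovZ.leaf K2_ok TB_l15902 _)
              (CovZ.n1 (-22224, 7488) (by decide +kernel)
               (CovZ.leaf K2_ok TB_l15903 _)
               (CovZ.leaf K2_ok TB_l15904 _)))
             (CovZ.n1 (-22128, 7536) (by decide +kernel)
              (CovZ.n2 (-22128, 7488) (by decide +kernel)
               (CovZ.leaf K2_ok TB_l15905 _)
               (CovZ.leaf K2_ok TB_l15906 _))
              (CovZ.leaf K2_ok TB_l15907 _))))
           (CovZ.n1 (-22272, 7584) (by decide +kernel)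
            (CovZ.n2 (-22224, 7632) (by decide +kernel)
             (CovZ.n2 (-22224, 7584) (by decide +kernel)
              (CovZ.leaf K2_ok TB_l15908 _)
              (CovZ.leaf K2_ok TB_l15909 _))
             (CovZ.leaf K2_ok TB_l15910 _))
            (CovZ.n1 (-22224, 7536) (by decide +kernel)
             (CovZ.leaf K2_ok TB_l15911 _)
             (CovZ.n1 (-22224, 7584) (by decide +kernel)
              (CovZ.leaf K2_ok TB_l15912 _)
              (CovZ.leaf K2_ok TB_l15913 _)))))
          (CovZ.subM 69994693176851282717523065044896595631444681458597817685286050787522249511088471305982184091828625408 (by decide +kernel)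
           (CovZ.n1 (-22176, 7392) (by decide +kernel)
            (CovZ.n2 (-22272, 7392) (by decide +kernel)
             (CovZ.n2 (-22224, 7440) (by decide +kernel)
              (CovZ.n2 (-22224, 7392) (by decide +kernel)
               (CovZ.n2 (-22248, 7416) (by decide +kernel)
                (CovZ.leaf K2_ok TB_l40513 _)
                (CovZ.n1 (-22248, 7392) (by decide +kernel)
                 (CovZ.leaf K2_ok TB_l40514 _)
                 (CovZ.leaf K2_ok TB_l40515 _)))
               (CovZ.n1 (-22200, 7416) (by decide +kernel)
                (CovZ.n2 (-22200, 7392) (by decide +kernel)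
                 (CovZ.leaf K2_ok TB_l40516 _)
                 (CovZ.leaf K2_ok TB_l40517 _))
                (CovZ.leaf K2_ok TB_l40518 _)))
              (CovZ.n1 (-22272, 7440) (by decide +kernel)
               (CovZ.leaf K2_ok TB_l15914 _)
               (CovZ.n1 (-22248, 7416) (by decide +kernel)
                (CovZ.leaf K2_ok TB_l40519 _)
                (CovZ.leaf K2_ok TB_l40520 _))))
             (CovZ.subM 69992023193056381579920071267763883691301421788582797965624659405118495974380029543152421664737722368 (by decide +kernel)
              (CovZ.n1 (-22224, 7344) (by decide +kernel)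
               (CovZ.n2 (-22272, 7344) (by decide +kernel)
                (CovZ.n2 (-22248, 7368) (by decide +kernel)
                 (CovZ.badM (by decide +kernel))
                 (CovZ.n1 (-22272, 7368) (by decide +kernel)
                  (CovZ.leaf K2_ok TB_l48706 _)
                  (CovZ.badM (by decide +kernel))))
                (CovZ.badM (by decide +kernel)))
               (CovZ.n1 (-22224, 7392) (by decide +kernel)
                (CovZ.badM (by decide +kernel))
                (CovZ.n1 (-22248, 7368) (by decide +kernel)
                 (CovZ.n2 (-22248, 7392) (by decide +kernel)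
                  (CovZ.badM (by decide +kernel))
                  (CovZ.leaf K2_ok TB_l48707 _))
                 (CovZ.badM (by decide +kernel)))))))
            (CovZ.n1 (-22176, 7488) (by decide +kernel)
             (CovZ.n2 (-22128, 7440) (by decide +kernel)
              (CovZ.n2 (-22176, 7440) (by decide +kernel)
               (CovZ.leaf K2_ok TB_l15915 _)
               (CovZ.n1 (-22152, 7416) (by decide +kernel)
                (CovZ.leaf K2_ok TB_l15916 _)
                (CovZ.leaf K2_ok TB_l15917 _)))
              (CovZ.n1 (-22128, 7488) (by decide +kernel)
               (CovZ.leaf K2_ok TB_l40522 _)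
               (CovZ.leaf K2_ok TB_l15918 _)))
             (CovZ.n1 (-22224, 7440) (by decide +kernel)
              (CovZ.n2 (-22224, 7488) (by decide +kernel)
               (CovZ.leaf K2_ok TB_l15919 _)
               (CovZ.leaf K2_ok TB_l15920 _))
              (CovZ.n1 (-22176, 7440) (by decide +kernel)
               (CovZ.n2 (-22200, 7416) (by decide +kernel)
                (CovZ.leaf K2_ok TB_l15921 _)
                (CovZ.leaf K2_ok TB_l15922 _))
               (CovZ.leaf K2_ok TB_l15923 _))))))))
        (CovZ.badM (by decide +kernel))))

theorem TB_u178 : CovZ TB_M (toL (selN TB_LN 630432099142311751317839183004389138922433852993991157124991474868355746019419336465488187289017730180439327098544128)) [0, 7, 6, 1] (-21888, 7296) (-21504, 7680) (-22272, 7680) :=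
    (CovZ.n1 (-21888, 7680) (by decide +kernel)
       (CovZ.subM 75052710477911997792634476445106095144136177436095628294517264881855771917504093910570613052767477760 (by decide +kernel)
        (CovZ.n2 (-21696, 7488) (by decide +kernel)
         (CovZ.n2 (-21888, 7488) (by decide +kernel)
          (CovZ.n2 (-21792, 7584) (by decide +kernel)
           (CovZ.n2 (-21792, 7488) (by decide +kernel)
            (CovZ.n2 (-21840, 7536) (by decide +kernel)
             (CovZ.leaf K2_ok TB_l15924 _)
             (CovZ.n1 (-21840, 7488) (by decide +kernel)
              (CovZ.leaf K2_ok TB_l15925 _)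
              (CovZ.leaf K2_ok TB_l15926 _)))
            (CovZ.n1 (-21744, 7536) (by decide +kernel)
             (CovZ.n2 (-21744, 7488) (by decide +kernel)
              (CovZ.leaf K2_ok TB_l15927 _)
              (CovZ.leaf K2_ok TB_l15928 _))
             (CovZ.leaf K2_ok TB_l15929 _)))
           (CovZ.n1 (-21888, 7584) (by decide +kernel)
            (CovZ.n2 (-21840, 7632) (by decide +kernel)
             (CovZ.leaf K2_ok TB_l15930 _)
             (CovZ.leaf K2_ok TB_l15931 _))
            (CovZ.n1 (-21840, 7536) (by decide +kernel)
             (CovZ.leaf K2_ok TB_l15932 _)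
             (CovZ.leaf K2_ok TB_l15933 _))))
          (CovZ.n1 (-21792, 7392) (by decide +kernel)
           (CovZ.subM 139373154093839382876275166327563275477832759445494736545042628604006714798550850106514576844529664 (by decide +kernel)
            (CovZ.n2 (-21888, 7392) (by decide +kernel)
             (CovZ.n2 (-21840, 7440) (by decide +kernel)
              (CovZ.n2 (-21840, 7392) (by decide +kernel)
               (CovZ.n2 (-21864, 7416) (by decide +kernel)
                (CovZ.leaf K2_ok TB_l40523 _)
                (CovZ.n1 (-21864, 7392) (by decide +kernel)
                 (CovZ.leaf K2_ok TB_l40524 _)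
                 (CovZ.leaf K2_ok TB_l40525 _)))
               (CovZ.n1 (-21816, 7416) (by decide +kernel)
                (CovZ.n2 (-21816, 7392) (by decide +kernel)
                 (CovZ.leaf K2_ok TB_l40526 _)
                 (CovZ.leaf K2_ok TB_l40527 _))
                (CovZ.leaf K2_ok TB_l40528 _)))
              (CovZ.n1 (-21888, 7440) (by decide +kernel)
               (CovZ.leaf K2_ok TB_l40529 _)
               (CovZ.n1 (-21864, 7416) (by decide +kernel)
                (CovZ.leaf K2_ok TB_l40530 _)
                (CovZ.n1 (-21864, 7440) (by decide +kernel)
                 (CovZ.leaf K2_ok TB_l40531 _)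
                 (CovZ.leaf K2_ok TB_l40532 _)))))
             (CovZ.badM (by decide +kernel))))
           (CovZ.n1 (-21792, 7488) (by decide +kernel)
            (CovZ.subM 685651838530612136448801967680426228787474441038208682458998519804539409666949670774887130578558976 (by decide +kernel)
             (CovZ.n2 (-21744, 7440) (by decide +kernel)
              (CovZ.n2 (-21792, 7440) (by decide +kernel)
               (CovZ.n2 (-21768, 7464) (by decide +kernel)
                (CovZ.leaf K2_ok TB_l40534 _)
                (CovZ.leaf K2_ok TB_l40535 _))
               (CovZ.n1 (-21768, 7416) (by decide +kernel)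
                (CovZ.leaf K2_ok TB_l40536 _)
                (CovZ.n1 (-21768, 7440) (by decide +kernel)
                 (CovZ.leaf K2_ok TB_l40537 _)
                 (CovZ.leaf K2_ok TB_l40538 _))))
              (CovZ.n1 (-21744, 7488) (by decide +kernel)
               (CovZ.leaf K2_ok TB_l15934 _)
               (CovZ.leaf K2_ok TB_l15935 _))))
            (CovZ.subM 139373154093839382876275166327563275477832759445494736545042628604006714798550850106514576844529664 (by decide +kernel)
             (CovZ.n1 (-21840, 7440) (by decide +kernel)
              (CovZ.n2 (-21840, 7488) (by decide +kernel)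
               (CovZ.leaf K2_ok TB_l40539 _)
               (CovZ.leaf K2_ok TB_l40540 _))
              (CovZ.n1 (-21792, 7440) (by decide +kernel)
               (CovZ.n2 (-21816, 7416) (by decide +kernel)
                (CovZ.leaf K2_ok TB_l40541 _)
                (CovZ.leaf K2_ok TB_l40542 _))
               (CovZ.leaf K2_ok TB_l40543 _)))))))
         (CovZ.n1 (-21696, 7680) (by decide +kernel)
          (CovZ.n2 (-21600, 7584) (by decide +kernel)
           (CovZ.n2 (-21696, 7584) (by decide +kernel)
            (CovZ.leaf K2_ok TB_l15936 _)
            (CovZ.n1 (-21648, 7536) (by decide +kernel)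
             (CovZ.leaf K2_ok TB_l15937 _)
             (CovZ.leaf K2_ok TB_l15938 _)))
           (CovZ.n1 (-21600, 7680) (by decide +kernel)
            (CovZ.n2 (-21552, 7632) (by decide +kernel)
             (CovZ.leaf K2_ok TB_l15939 _)
             (CovZ.leaf K2_ok TB_l15940 _))
            (CovZ.leaf K2_ok TB_l15941 _)))
          (CovZ.n1 (-21792, 7584) (by decide +kernel)
           (CovZ.n2 (-21792, 7680) (by decide +kernel)
            (CovZ.leaf K2_ok TB_l15942 _)
            (CovZ.leaf K2_ok TB_l15943 _))
           (CovZ.n1 (-21696, 7584) (by decide +kernel)
            (CovZ.n2 (-21744, 7536) (by decide +kernel)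
             (CovZ.leaf K2_ok TB_l15944 _)
             (CovZ.leaf K2_ok TB_l15945 _))
            (CovZ.leaf K2_ok TB_l15946 _))))))
       (CovZ.n1 (-22080, 7488) (by decide +kernel)
        (CovZ.n2 (-22080, 7680) (by decide +kernel)
         (CovZ.subM 74505897796716244811541350888326689697485593409815138487492794546582851348809154529215623504200736768 (by decide +kernel)
          (CovZ.n2 (-21984, 7584) (by decide +kernel)
           (CovZ.n2 (-22080, 7584) (by decide +kernel)
            (CovZ.n2 (-22032, 7632) (by decide +kernel)
             (CovZ.leaf K2_ok TB_l15947 _)
             (CovZ.leaf K2_ok TB_l15948 _))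
            (CovZ.n1 (-22032, 7536) (by decide +kernel)
             (CovZ.leaf K2_ok TB_l15949 _)
             (CovZ.leaf K2_ok TB_l15950 _)))
           (CovZ.n1 (-21984, 7680) (by decide +kernel)
            (CovZ.n2 (-21936, 7632) (by decide +kernel)
             (CovZ.leaf K2_ok TB_l15951 _)
             (CovZ.leaf K2_ok TB_l15952 _))
            (CovZ.leaf K2_ok TB_l15953 _))))
         (CovZ.subM 630432099142311741765663439869283920176850005236055371244666848259491833122201927285265667095346997193829575125114880 (by decide +kernel)
          (CovZ.n1 (-22176, 7584) (by decide +kernel)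
           (CovZ.n2 (-22176, 7680) (by decide +kernel)
            (CovZ.n2 (-22128, 7632) (by decide +kernel)
             (CovZ.leaf K2_ok TB_l15954 _)
             (CovZ.leaf K2_ok TB_l15955 _))
            (CovZ.n1 (-22224, 7632) (by decide +kernel)
             (CovZ.leaf K2_ok TB_l15956 _)
             (CovZ.leaf K2_ok TB_l15957 _)))
           (CovZ.n1 (-22080, 7584) (by decide +kernel)
            (CovZ.n2 (-22128, 7536) (by decide +kernel)
             (CovZ.n2 (-22128, 7584) (by decide +kernel)
              (CovZ.leaf K2_ok TB_l15958 _)
              (CovZ.leaf K2_ok TB_l15959 _))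
             (CovZ.leaf K2_ok TB_l15960 _))
            (CovZ.n1 (-22128, 7632) (by decide +kernel)
             (CovZ.leaf K2_ok TB_l15961 _)
             (CovZ.leaf K2_ok TB_l15962 _))))))
        (CovZ.subM 74505897796716244811541350888326689697485593409815138487492794546582851348809154529215623504200736768 (by decide +kernel)
         (CovZ.n1 (-21888, 7488) (by decide +kernel)
          (CovZ.n2 (-21984, 7392) (by decide +kernel)
           (CovZ.n2 (-21984, 7488) (by decide +kernel)
            (CovZ.n2 (-21936, 7440) (by decide +kernel)
             (CovZ.n2 (-21984, 7440) (by decide +kernel)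
              (CovZ.leaf K2_ok TB_l40544 _)
              (CovZ.n1 (-21960, 7416) (by decide +kernel)
               (CovZ.leaf K2_ok TB_l40545 _)
               (CovZ.leaf K2_ok TB_l40546 _)))
             (CovZ.n1 (-21936, 7488) (by decide +kernel)
              (CovZ.leaf K2_ok TB_l40547 _)
              (CovZ.leaf K2_ok TB_l40548 _)))
            (CovZ.n1 (-22032, 7440) (by decide +kernel)
             (CovZ.n2 (-22032, 7488) (by decide +kernel)
              (CovZ.leaf K2_ok TB_l40549 _)
              (CovZ.leaf K2_ok TB_l40550 _))
             (CovZ.n1 (-21984, 7440) (by decide +kernel)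
              (CovZ.n2 (-22008, 7416) (by decide +kernel)
               (CovZ.leaf K2_ok TB_l40551 _)
               (CovZ.leaf K2_ok TB_l40552 _))
              (CovZ.leaf K2_ok TB_l40553 _))))
           (CovZ.n1 (-21888, 7392) (by decide +kernel)
            (CovZ.subM 4374501449566023848745004454235242730706338861786448256877738507266597257356075306975340848966795264 (by decide +kernel)
             (CovZ.n2 (-21936, 7344) (by decide +kernel)
              (CovZ.n2 (-21936, 7392) (by decide +kernel)
               (CovZ.badM (by decide +kernel))
               (CovZ.n1 (-21960, 7368) (by decide +kernel)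
                (CovZ.n2 (-21960, 7392) (by decide +kernel)
                 (CovZ.leaf K2_ok TB_l40554 _)
                 (CovZ.badM (by decide +kernel)))
                (CovZ.n1 (-21936, 7368) (by decide +kernel)
                 (CovZ.badM (by decide +kernel))
                 (CovZ.leaf K2_ok TB_l48708 _))))
              (CovZ.badM (by decide +kernel))))
            (CovZ.n1 (-21936, 7440) (by decide +kernel)
             (CovZ.n2 (-21888, 7440) (by decide +kernel)
              (CovZ.n2 (-21912, 7416) (by decide +kernel)
               (CovZ.leaf K2_ok TB_l40556 _)
               (CovZ.leaf K2_ok TB_l40557 _))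
              (CovZ.leaf K2_ok TB_l40558 _))
             (CovZ.n1 (-21936, 7392) (by decide +kernel)
              (CovZ.n2 (-21960, 7416) (by decide +kernel)
               (CovZ.leaf K2_ok TB_l40559 _)
               (CovZ.n1 (-21960, 7392) (by decide +kernel)
                (CovZ.leaf K2_ok TB_l40560 _)
                (CovZ.leaf K2_ok TB_l40561 _)))
              (CovZ.n1 (-21912, 7416) (by decide +kernel)
               (CovZ.n2 (-21912, 7392) (by decide +kernel)
                (CovZ.leaf K2_ok TB_l40562 _)
                (CovZ.leaf K2_ok TB_l40563 _))
               (CovZ.leaf K2_ok TB_l40564 _))))))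
          (CovZ.n1 (-21984, 7584) (by decide +kernel)
           (CovZ.n2 (-21888, 7584) (by decide +kernel)
            (CovZ.n2 (-21936, 7536) (by decide +kernel)
             (CovZ.leaf K2_ok TB_l15963 _)
             (CovZ.leaf K2_ok TB_l15964 _))
            (CovZ.n1 (-21936, 7632) (by decide +kernel)
             (CovZ.leaf K2_ok TB_l15965 _)
             (CovZ.leaf K2_ok TB_l15966 _)))
           (CovZ.n1 (-21984, 7488) (by decide +kernel)
            (CovZ.n2 (-22032, 7536) (by decide +kernel)
             (CovZ.leaf K2_ok TB_l15967 _)
             (CovZ.n1 (-22032, 7488) (by decide +kernel)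
              (CovZ.leaf K2_ok TB_l15968 _)
              (CovZ.leaf K2_ok TB_l15969 _)))
            (CovZ.n1 (-21936, 7536) (by decide +kernel)
             (CovZ.n2 (-21936, 7488) (by decide +kernel)
              (CovZ.leaf K2_ok TB_l15970 _)
              (CovZ.leaf K2_ok TB_l15971 _))
             (CovZ.leaf K2_ok TB_l15972 _))))))))

end Pool.Agent.TET
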