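import Pool.Agent.Helper38_TET.TB_M
import Pool.Agent.Helper38_TET.TB_L
import Pool.Agent.Helper38_TET.TB_65
import Pool.Agent.Helper38_TET.TB_66
import Pool.Agent.Helper38_TET.TB_67
import Pool.Agent.Helper38_TET.TB_68
import Pool.Agent.Helper38_TET.TB_69
import Pool.Agent.Helper38_TET.TB_70
import Pool.Agent.Helper38_TET.TB_71
import Pool.Agent.Helper38_TET.TB_72
import Pool.Agent.Helper38_TET.TB_81
import Pool.Agent.Helper38_TET.TB_263
import Pool.Agent.Helper38_TET.TB_264

/-!
# MP_c7c9bf_co: certificates, family TB
-/

set_option autoImplicit false
set_option maxRecDepth 100000

namespace Pool.Agent.TET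

theorem TB_u60 : CovZ TB_M (toL (selN TB_LN 10693552188729356552790587731821266841014006708332875938701794431731881531140877455849397537499971682418187577823936921600)) [0, 7, 6, 1] (-26880, 0) (-26112, 0) (-26880, 768) :=
    (CovZ.n1 (-26496, 384) (by decide +kernel)
      (CovZ.n2 (-26496, 0) (by decide +kernel)
       (CovZ.n2 (-26688, 192) (by decide +kernel)
        (CovZ.n2 (-26496, 192) (by decide +kernel)
         (CovZ.n2 (-26592, 96) (by decide +kernel)
          (CovZ.n2 (-26592, 192) (by decide +kernel)
           (CovZ.leaf K2_ok TB_l9822 _)
           (CovZ.leaf K2_ok TB_l9823 _))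
          (CovZ.n1 (-26496, 96) (by decide +kernel)
           (CovZ.leaf K2_ok TB_l9824 _)
           (CovZ.leaf K2_ok TB_l9825 _)))
         (CovZ.n1 (-26592, 288) (by decide +kernel)
          (CovZ.n2 (-26496, 288) (by decide +kernel)
           (CovZ.n2 (-26544, 240) (by decide +kernel)
            (CovZ.leaf K2_ok TB_l9826 _)
            (CovZ.leaf K2_ok TB_l9827 _))
           (CovZ.n1 (-26544, 336) (by decide +kernel)
            (CovZ.leaf K2_ok TB_l9828 _)
            (CovZ.leaf K2_ok TB_l9829 _)))
          (CovZ.n1 (-26592, 192) (by decide +kernel)
           (CovZ.n2 (-26640, 240) (by decide +kernel)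
            (CovZ.leaf K2_ok TB_l9830 _)
            (CovZ.leaf K2_ok TB_l9831 _))
           (CovZ.n1 (-26544, 240) (by decide +kernel)
            (CovZ.leaf K2_ok TB_l9832 _)
            (CovZ.leaf K2_ok TB_l9833 _)))))
        (CovZ.n1 (-26688, 0) (by decide +kernel)
         (CovZ.n2 (-26784, 96) (by decide +kernel)
          (CovZ.leaf K2_ok TB_l9834 _)
          (CovZ.n1 (-26784, 0) (by decide +kernel)
           (CovZ.leaf K2_ok TB_l9835 _)
           (CovZ.leaf K2_ok TB_l9836 _)))
         (CovZ.n1 (-26592, 96) (by decide +kernel)
          (CovZ.n2 (-26592, 0) (by decide +kernel)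
           (CovZ.leaf K2_ok TB_l9837 _)
           (CovZ.leaf K2_ok TB_l9838 _))
          (CovZ.n1 (-26688, 96) (by decide +kernel)
           (CovZ.leaf K2_ok TB_l9839 _)
           (CovZ.leaf K2_ok TB_l9840 _)))))
       (CovZ.n1 (-26304, 192) (by decide +kernel)
        (CovZ.n2 (-26304, 0) (by decide +kernel)
         (CovZ.n2 (-26400, 96) (by decide +kernel)
          (CovZ.n2 (-26304, 96) (by decide +kernel)
           (CovZ.leaf K2_ok TB_l9841 _)
           (CovZ.n1 (-26352, 144) (by decide +kernel)
            (CovZ.leaf K2_ok TB_l9842 _)
            (CovZ.leaf K2_ok TB_l9843 _)))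
          (CovZ.n1 (-26400, 0) (by decide +kernel)
           (CovZ.leaf K2_ok TB_l9844 _)
           (CovZ.leaf K2_ok TB_l9845 _)))
         (CovZ.n1 (-26208, 96) (by decide +kernel)
          (CovZ.n2 (-26208, 0) (by decide +kernel)
           (CovZ.leaf K2_ok TB_l9846 _)
           (CovZ.leaf K2_ok TB_l9847 _))
          (CovZ.n1 (-26304, 96) (by decide +kernel)
           (CovZ.n2 (-26256, 144) (by decide +kernel)
            (CovZ.leaf K2_ok TB_l9848 _)
            (CovZ.leaf K2_ok TB_l9849 _))
           (CovZ.leaf K2_ok TB_l9850 _))))
        (CovZ.n1 (-26496, 192) (by decide +kernel)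
         (CovZ.n2 (-26400, 288) (by decide +kernel)
          (CovZ.n2 (-26400, 192) (by decide +kernel)
           (CovZ.n2 (-26448, 240) (by decide +kernel)
            (CovZ.leaf K2_ok TB_l9851 _)
            (CovZ.leaf K2_ok TB_l9852 _))
           (CovZ.n1 (-26352, 240) (by decide +kernel)
            (CovZ.leaf K2_ok TB_l9853 _)
            (CovZ.leaf K2_ok TB_l9854 _)))
          (CovZ.n1 (-26496, 288) (by decide +kernel)
           (CovZ.n2 (-26448, 336) (by decide +kernel)
            (CovZ.n2 (-26448, 288) (by decide +kernel)
             (CovZ.leaf K2_ok TB_l9855 _)
             (CovZ.leaf K2_ok TB_l9856 _))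
            (CovZ.leaf K2_ok TB_l9857 _))
           (CovZ.n1 (-26448, 240) (by decide +kernel)
            (CovZ.leaf K2_ok TB_l9858 _)
            (CovZ.leaf K2_ok TB_l9859 _))))
         (CovZ.n1 (-26400, 96) (by decide +kernel)
          (CovZ.n2 (-26496, 96) (by decide +kernel)
           (CovZ.leaf K2_ok TB_l9860 _)
           (CovZ.leaf K2_ok TB_l9861 _))
          (CovZ.n1 (-26400, 192) (by decide +kernel)
           (CovZ.n2 (-26352, 144) (by decide +kernel)
            (CovZ.leaf K2_ok TB_l9862 _)
            (CovZ.leaf K2_ok TB_l9863 _))
           (CovZ.n1 (-26448, 144) (by decide +kernel)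
            (CovZ.leaf K2_ok TB_l9864 _)
            (CovZ.leaf K2_ok TB_l9865 _)))))))
      (CovZ.n1 (-26880, 384) (by decide +kernel)
       (CovZ.n2 (-26688, 576) (by decide +kernel)
        (CovZ.n2 (-26688, 384) (by decide +kernel)
         (CovZ.n2 (-26784, 480) (by decide +kernel)
          (CovZ.n2 (-26688, 480) (by decide +kernel)
           (CovZ.n2 (-26736, 432) (by decide +kernel)
            (CovZ.leaf K2_ok TB_l9866 _)
            (CovZ.leaf K2_ok TB_l9867 _))
           (CovZ.n1 (-26736, 528) (by decide +kernel)
            (CovZ.leaf K2_ok TB_l9868 _)
            (CovZ.leaf K2_ok TB_l9869 _)))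
          (CovZ.n1 (-26784, 384) (by decide +kernel)
           (CovZ.n2 (-26832, 432) (by decide +kernel)
            (CovZ.leaf K2_ok TB_l9870 _)
            (CovZ.leaf K2_ok TB_l9871 _))
           (CovZ.n1 (-26736, 432) (by decide +kernel)
            (CovZ.leaf K2_ok TB_l9872 _)
            (CovZ.leaf K2_ok TB_l9873 _))))
         (CovZ.n1 (-26592, 480) (by decide +kernel)
          (CovZ.n2 (-26592, 384) (by decide +kernel)
           (CovZ.n2 (-26640, 432) (by decide +kernel)
            (CovZ.leaf K2_ok TB_l9874 _)
            (CovZ.leaf K2_ok TB_l9875 _))
           (CovZ.n1 (-26544, 432) (by decide +kernel)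
            (CovZ.n2 (-26544, 384) (by decide +kernel)
             (CovZ.leaf K2_ok TB_l9876 _)
             (CovZ.leaf K2_ok TB_l9877 _))
            (CovZ.leaf K2_ok TB_l9878 _)))
          (CovZ.n1 (-26688, 480) (by decide +kernel)
           (CovZ.n2 (-26640, 528) (by decide +kernel)
            (CovZ.n2 (-26640, 480) (by decide +kernel)
             (CovZ.leaf K2_ok TB_l9879 _)
             (CovZ.leaf K2_ok TB_l9880 _))
            (CovZ.leaf K2_ok TB_l9881 _))
           (CovZ.n1 (-26640, 432) (by decide +kernel)
            (CovZ.leaf K2_ok TB_l9882 _)
            (CovZ.n1 (-26640, 480) (by decide +kernel)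
             (CovZ.leaf K2_ok TB_l9883 _)
             (CovZ.leaf K2_ok TB_l9884 _))))))
        (CovZ.n1 (-26880, 576) (by decide +kernel)
         (CovZ.n2 (-26784, 672) (by decide +kernel)
          (CovZ.n2 (-26784, 576) (by decide +kernel)
           (CovZ.n2 (-26832, 624) (by decide +kernel)
            (CovZ.leaf K2_ok TB_l9885 _)
            (CovZ.leaf K2_ok TB_l9886 _))
           (CovZ.subM 324204637251379047650047456085088580038060525898235756384583936131685522028722521634282433092253726745441547320321130496 (by decide +kernel)
            (CovZ.n1 (-26736, 624) (by decide +kernel)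
             (CovZ.n2 (-26736, 576) (by decide +kernel)
              (CovZ.leaf K2_ok TB_l9887 _)
              (CovZ.leaf K2_ok TB_l9888 _))
             (CovZ.n1 (-26784, 624) (by decide +kernel)
              (CovZ.leaf K2_ok TB_l9889 _)
              (CovZ.leaf K2_ok TB_l9890 _)))))
          (CovZ.n1 (-26880, 672) (by decide +kernel)
           (CovZ.n2 (-26832, 720) (by decide +kernel)
            (CovZ.n2 (-26832, 672) (by decide +kernel)
             (CovZ.leaf K2_ok TB_l9891 _)
             (CovZ.leaf K2_ok TB_l9892 _))
            (CovZ.n1 (-26880, 720) (by decide +kernel)
             (CovZ.leaf K2_ok TB_l9893 _)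
             (CovZ.leaf K2_ok TB_l9894 _)))
           (CovZ.n1 (-26832, 624) (by decide +kernel)
            (CovZ.leaf K2_ok TB_l9895 _)
            (CovZ.n1 (-26832, 672) (by decide +kernel)
             (CovZ.leaf K2_ok TB_l9896 _)
             (CovZ.leaf K2_ok TB_l9897 _)))))
         (CovZ.n1 (-26784, 480) (by decide +kernel)
          (CovZ.n2 (-26880, 480) (by decide +kernel)
           (CovZ.n2 (-26832, 528) (by decide +kernel)
            (CovZ.leaf K2_ok TB_l9898 _)
            (CovZ.leaf K2_ok TB_l9899 _))
           (CovZ.n1 (-26832, 432) (by decide +kernel)
            (CovZ.leaf K2_ok TB_l9900 _)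
            (CovZ.leaf K2_ok TB_l9901 _)))
          (CovZ.n1 (-26784, 576) (by decide +kernel)
           (CovZ.n2 (-26736, 528) (by decide +kernel)
            (CovZ.leaf K2_ok TB_l9902 _)
            (CovZ.n1 (-26736, 576) (by decide +kernel)
             (CovZ.leaf K2_ok TB_l9903 _)
             (CovZ.leaf K2_ok TB_l9904 _)))
           (CovZ.n1 (-26832, 528) (by decide +kernel)
            (CovZ.leaf K2_ok TB_l9905 _)
            (CovZ.leaf K2_ok TB_l9906 _))))))
       (CovZ.n1 (-26688, 192) (by decide +kernel)
        (CovZ.n2 (-26880, 192) (by decide +kernel)
         (CovZ.n2 (-26784, 288) (by decide +kernel)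
          (CovZ.n2 (-26784, 192) (by decide +kernel)
           (CovZ.leaf K2_ok TB_l9907 _)
           (CovZ.leaf K2_ok TB_l9908 _))
          (CovZ.n1 (-26880, 288) (by decide +kernel)
           (CovZ.leaf K2_ok TB_l9909 _)
           (CovZ.leaf K2_ok TB_l9910 _)))
         (CovZ.n1 (-26784, 96) (by decide +kernel)
          (CovZ.leaf K2_ok TB_l9911 _)
          (CovZ.n1 (-26784, 192) (by decide +kernel)
           (CovZ.leaf K2_ok TB_l9912 _)
           (CovZ.leaf K2_ok TB_l9913 _))))
        (CovZ.n1 (-26688, 384) (by decide +kernel)
         (CovZ.n2 (-26592, 288) (by decide +kernel)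
          (CovZ.n2 (-26688, 288) (by decide +kernel)
           (CovZ.n2 (-26640, 336) (by decide +kernel)
            (CovZ.leaf K2_ok TB_l9914 _)
            (CovZ.leaf K2_ok TB_l9915 _))
           (CovZ.n1 (-26640, 240) (by decide +kernel)
            (CovZ.leaf K2_ok TB_l9916 _)
            (CovZ.leaf K2_ok TB_l9917 _)))
          (CovZ.n1 (-26592, 384) (by decide +kernel)
           (CovZ.n2 (-26544, 336) (by decide +kernel)
            (CovZ.leaf K2_ok TB_l9918 _)
            (CovZ.leaf K2_ok TB_l9919 _))
           (CovZ.n1 (-26640, 336) (by decide +kernel)
            (CovZ.leaf K2_ok TB_l9920 _)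
            (CovZ.leaf K2_ok TB_l9921 _))))
         (CovZ.n1 (-26784, 288) (by decide +kernel)
          (CovZ.n2 (-26784, 384) (by decide +kernel)
           (CovZ.n2 (-26736, 336) (by decide +kernel)
            (CovZ.leaf K2_ok TB_l9922 _)
            (CovZ.leaf K2_ok TB_l9923 _))
           (CovZ.leaf K2_ok TB_l9924 _))
          (CovZ.n1 (-26688, 288) (by decide +kernel)
           (CovZ.leaf K2_ok TB_l9925 _)
           (CovZ.n1 (-26736, 336) (by decide +kernel)
            (CovZ.leaf K2_ok TB_l9926 _)
            (CovZ.leaf K2_ok TB_l9927 _))))))))

theorem TB_u61 : CovZ TB_M (toL (selN TB_LN 10693552188729356552790587731821266841014006708332875938701794431731881531140877455849397537499971682418187577823936921600)) [0, 7, 6, 1] (-27648, 1536) (-27648, 1152) (-27264, 1152) :=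
    (CovZ.subM 322786467877571980249747813445785319290060604139229907590122860755391651439964054483684693216149222292435401950267179008 (by decide +kernel)
        (CovZ.n2 (-27456, 1344) (by decide +kernel)
         (CovZ.n2 (-27456, 1152) (by decide +kernel)
          (CovZ.n2 (-27552, 1248) (by decide +kernel)
           (CovZ.n2 (-27456, 1248) (by decide +kernel)
            (CovZ.n2 (-27504, 1200) (by decide +kernel)
             (CovZ.n2 (-27504, 1248) (by decide +kernel)
              (CovZ.leaf K2_ok TB_l10020 _)
              (CovZ.leaf K2_ok TB_l10021 _))
             (CovZ.n1 (-27456, 1200) (by decide +kernel)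
              (CovZ.leaf K2_ok TB_l10022 _)
              (CovZ.leaf K2_ok TB_l10023 _)))
            (CovZ.n1 (-27504, 1296) (by decide +kernel)
             (CovZ.n2 (-27456, 1296) (by decide +kernel)
              (CovZ.leaf K2_ok TB_l10024 _)
              (CovZ.n1 (-27480, 1320) (by decide +kernel)
               (CovZ.leaf K2_ok TB_l10025 _)
               (CovZ.leaf K2_ok TB_l10026 _)))
             (CovZ.n1 (-27504, 1248) (by decide +kernel)
              (CovZ.leaf K2_ok TB_l10027 _)
              (CovZ.leaf K2_ok TB_l10028 _))))
           (CovZ.n1 (-27552, 1152) (by decide +kernel)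
            (CovZ.n2 (-27600, 1200) (by decide +kernel)
             (CovZ.leaf K2_ok TB_l10029 _)
             (CovZ.n1 (-27600, 1152) (by decide +kernel)
              (CovZ.leaf K2_ok TB_l10030 _)
              (CovZ.leaf K2_ok TB_l10031 _)))
            (CovZ.n1 (-27504, 1200) (by decide +kernel)
             (CovZ.n2 (-27504, 1152) (by decide +kernel)
              (CovZ.leaf K2_ok TB_l10032 _)
              (CovZ.leaf K2_ok TB_l10033 _))
             (CovZ.n1 (-27552, 1200) (by decide +kernel)
              (CovZ.leaf K2_ok TB_l10034 _)
              (CovZ.leaf K2_ok TB_l10035 _)))))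
          (CovZ.n1 (-27360, 1248) (by decide +kernel)
           (CovZ.n2 (-27360, 1152) (by decide +kernel)
            (CovZ.n2 (-27408, 1200) (by decide +kernel)
             (CovZ.n2 (-27360, 1200) (by decide +kernel)
              (CovZ.leaf K2_ok TB_l10036 _)
              (CovZ.n1 (-27384, 1224) (by decide +kernel)
               (CovZ.leaf K2_ok TB_l10037 _)
               (CovZ.leaf K2_ok TB_l10038 _)))
             (CovZ.n1 (-27408, 1152) (by decide +kernel)
              (CovZ.leaf K2_ok TB_l10039 _)
              (CovZ.leaf K2_ok TB_l10040 _)))
            (CovZ.n1 (-27312, 1200) (by decide +kernel)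
             (CovZ.n2 (-27312, 1152) (by decide +kernel)
              (CovZ.leaf K2_ok TB_l10041 _)
              (CovZ.leaf K2_ok TB_l10042 _))
             (CovZ.n1 (-27360, 1200) (by decide +kernel)
              (CovZ.n2 (-27336, 1224) (by decide +kernel)
               (CovZ.leaf K2_ok TB_l10043 _)
               (CovZ.leaf K2_ok TB_l10044 _))
              (CovZ.leaf K2_ok TB_l10045 _))))
           (CovZ.n1 (-27456, 1248) (by decide +kernel)
            (CovZ.n2 (-27408, 1296) (by decide +kernel)
             (CovZ.n2 (-27408, 1248) (by decide +kernel)
              (CovZ.leaf K2_ok TB_l10046 _)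
              (CovZ.n1 (-27384, 1272) (by decide +kernel)
               (CovZ.leaf K2_ok TB_l10047 _)
               (CovZ.leaf K2_ok TB_l10048 _)))
             (CovZ.n1 (-27456, 1296) (by decide +kernel)
              (CovZ.n2 (-27432, 1320) (by decide +kernel)
               (CovZ.leaf K2_ok TB_l10049 _)
               (CovZ.leaf K2_ok TB_l10050 _))
              (CovZ.leaf K2_ok TB_l10051 _)))
            (CovZ.n1 (-27408, 1200) (by decide +kernel)
             (CovZ.n2 (-27456, 1200) (by decide +kernel)
              (CovZ.leaf K2_ok TB_l10052 _)
              (CovZ.leaf K2_ok TB_l10053 _))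
             (CovZ.n1 (-27408, 1248) (by decide +kernel)
              (CovZ.n2 (-27384, 1224) (by decide +kernel)
               (CovZ.leaf K2_ok TB_l10054 _)
               (CovZ.leaf K2_ok TB_l10055 _))
              (CovZ.leaf K2_ok TB_l10056 _))))))
         (CovZ.n1 (-27648, 1344) (by decide +kernel)
          (CovZ.n2 (-27552, 1440) (by decide +kernel)
           (CovZ.n2 (-27552, 1344) (by decide +kernel)
            (CovZ.n2 (-27600, 1392) (by decide +kernel)
             (CovZ.n2 (-27552, 1392) (by decide +kernel)
              (CovZ.leaf K2_ok TB_l10057 _)
              (CovZ.n1 (-27576, 1416) (by decide +kernel)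
               (CovZ.leaf K2_ok TB_l10058 _)
               (CovZ.leaf K2_ok TB_l10059 _)))
             (CovZ.n1 (-27600, 1344) (by decide +kernel)
              (CovZ.leaf K2_ok TB_l10060 _)
              (CovZ.n1 (-27576, 1368) (by decide +kernel)
               (CovZ.leaf K2_ok TB_l10061 _)
               (CovZ.leaf K2_ok TB_l10062 _))))
            (CovZ.subM 322781542589220462928137948160472856393729981855917990704542262264833944700585401503472316766058260179214638758150275072 (by decide +kernel)
             (CovZ.n1 (-27504, 1392) (by decide +kernel)
              (CovZ.n2 (-27504, 1344) (by decide +kernel)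
               (CovZ.n2 (-27528, 1368) (by decide +kernel)
                (CovZ.leaf K2_ok TB_l10063 _)
                (CovZ.leaf K2_ok TB_l10064 _))
               (CovZ.n1 (-27480, 1368) (by decide +kernel)
                (CovZ.leaf K2_ok TB_l10065 _)
                (CovZ.leaf K2_ok TB_l10066 _)))
              (CovZ.n1 (-27552, 1392) (by decide +kernel)
               (CovZ.n2 (-27528, 1416) (by decide +kernel)
                (CovZ.leaf K2_ok TB_l10067 _)
                (CovZ.leaf K2_ok TB_l10068 _))
               (CovZ.n1 (-27528, 1368) (by decide +kernel)
                (CovZ.leaf K2_ok TB_l10069 _)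
                (CovZ.leaf K2_ok TB_l10070 _))))))
           (CovZ.n1 (-27648, 1440) (by decide +kernel)
            (CovZ.subM 307828356889221148051660096372102516757752265050731883436431728037419134612327379584483623996683986316930404319232 (by decide +kernel)
             (CovZ.n2 (-27600, 1488) (by decide +kernel)
              (CovZ.n2 (-27600, 1440) (by decide +kernel)
               (CovZ.n2 (-27624, 1464) (by decide +kernel)
                (CovZ.leaf K2_ok TB_l10071 _)
                (CovZ.n1 (-27624, 1440) (by decide +kernel)
                 (CovZ.leaf K2_ok TB_l10072 _)
                 (CovZ.leaf K2_ok TB_l10073 _)))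
               (CovZ.n1 (-27576, 1464) (by decide +kernel)
                (CovZ.leaf K2_ok TB_l10074 _)
                (CovZ.leaf K2_ok TB_l10075 _)))
              (CovZ.n1 (-27648, 1488) (by decide +kernel)
               (CovZ.n2 (-27624, 1512) (by decide +kernel)
                (CovZ.leaf K2_ok TB_l10076 _)
                (CovZ.leaf K2_ok TB_l10077 _))
               (CovZ.n1 (-27624, 1464) (by decide +kernel)
                (CovZ.leaf K2_ok TB_l10078 _)
                (CovZ.n1 (-27624, 1488) (by decide +kernel)
                 (CovZ.leaf K2_ok TB_l10079 _)
                 (CovZ.leaf K2_ok TB_l10080 _))))))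
            (CovZ.n1 (-27600, 1392) (by decide +kernel)
             (CovZ.n2 (-27648, 1392) (by decide +kernel)
              (CovZ.n2 (-27624, 1416) (by decide +kernel)
               (CovZ.leaf K2_ok TB_l10081 _)
               (CovZ.leaf K2_ok TB_l10082 _))
              (CovZ.n1 (-27624, 1368) (by decide +kernel)
               (CovZ.leaf K2_ok TB_l10083 _)
               (CovZ.leaf K2_ok TB_l10084 _)))
             (CovZ.n1 (-27600, 1440) (by decide +kernel)
              (CovZ.n2 (-27576, 1416) (by decide +kernel)
               (CovZ.leaf K2_ok TB_l10085 _)
               (CovZ.leaf K2_ok TB_l10086 _))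
              (CovZ.n1 (-27624, 1416) (by decide +kernel)
               (CovZ.leaf K2_ok TB_l10087 _)
               (CovZ.leaf K2_ok TB_l10088 _))))))
          (CovZ.n1 (-27552, 1248) (by decide +kernel)
           (CovZ.n2 (-27648, 1248) (by decide +kernel)
            (CovZ.n2 (-27600, 1296) (by decide +kernel)
             (CovZ.n2 (-27600, 1248) (by decide +kernel)
              (CovZ.leaf K2_ok TB_l10089 _)
              (CovZ.leaf K2_ok TB_l10090 _))
             (CovZ.n1 (-27648, 1296) (by decide +kernel)
              (CovZ.leaf K2_ok TB_l10091 _)
              (CovZ.leaf K2_ok TB_l10092 _)))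
            (CovZ.n1 (-27600, 1200) (by decide +kernel)
             (CovZ.leaf K2_ok TB_l10093 _)
             (CovZ.n1 (-27600, 1248) (by decide +kernel)
              (CovZ.leaf K2_ok TB_l10094 _)
              (CovZ.leaf K2_ok TB_l10095 _))))
           (CovZ.n1 (-27552, 1344) (by decide +kernel)
            (CovZ.n2 (-27504, 1296) (by decide +kernel)
             (CovZ.n2 (-27552, 1296) (by decide +kernel)
              (CovZ.n2 (-27528, 1320) (by decide +kernel)
               (CovZ.leaf K2_ok TB_l10096 _)
               (CovZ.leaf K2_ok TB_l10097 _))
              (CovZ.leaf K2_ok TB_l10098 _))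
             (CovZ.n1 (-27504, 1344) (by decide +kernel)
              (CovZ.n2 (-27480, 1320) (by decide +kernel)
               (CovZ.leaf K2_ok TB_l10099 _)
               (CovZ.leaf K2_ok TB_l10100 _))
              (CovZ.leaf K2_ok TB_l10101 _)))
            (CovZ.n1 (-27600, 1296) (by decide +kernel)
             (CovZ.n2 (-27600, 1344) (by decide +kernel)
              (CovZ.leaf K2_ok TB_l10102 _)
              (CovZ.leaf K2_ok TB_l10103 _))
             (CovZ.n1 (-27552, 1296) (by decide +kernel)
              (CovZ.leaf K2_ok TB_l10104 _)
              (CovZ.leaf K2_ok TB_l10105 _))))))))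

theorem TB_u62 : CovZ TB_M (toL (selN TB_LN 10693552188729356552790587731821266841014006708332875938701794431731881531140877455849397537499971682418187577823936921600)) [0, 7, 6, 1] (-27648, 1152) (-27648, 768) (-27264, 1152) :=
    (CovZ.n1 (-27456, 960) (by decide +kernel)
        (CovZ.subM 322786472687387189770558264163314266826810333706290022957190114036535210459903737522894800489189826535959086683633745920 (by decide +kernel)
         (CovZ.n2 (-27648, 960) (by decide +kernel)
          (CovZ.n2 (-27552, 1056) (by decide +kernel)
           (CovZ.n2 (-27552, 960) (by decide +kernel)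
            (CovZ.n2 (-27600, 1008) (by decide +kernel)
             (CovZ.leaf K2_ok TB_l10106 _)
             (CovZ.leaf K2_ok TB_l10107 _))
            (CovZ.n1 (-27504, 1008) (by decide +kernel)
             (CovZ.leaf K2_ok TB_l10108 _)
             (CovZ.leaf K2_ok TB_l10109 _)))
           (CovZ.n1 (-27648, 1056) (by decide +kernel)
            (CovZ.n2 (-27600, 1104) (by decide +kernel)
             (CovZ.leaf K2_ok TB_l10110 _)
             (CovZ.leaf K2_ok TB_l10111 _))
            (CovZ.n1 (-27600, 1008) (by decide +kernel)
             (CovZ.leaf K2_ok TB_l10112 _)
             (CovZ.leaf K2_ok TB_l10113 _))))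
          (CovZ.n1 (-27552, 864) (by decide +kernel)
           (CovZ.n2 (-27648, 864) (by decide +kernel)
            (CovZ.leaf K2_ok TB_l10114 _)
            (CovZ.leaf K2_ok TB_l10115 _))
           (CovZ.n1 (-27552, 960) (by decide +kernel)
            (CovZ.n2 (-27504, 912) (by decide +kernel)
             (CovZ.leaf K2_ok TB_l10116 _)
             (CovZ.leaf K2_ok TB_l10117 _))
            (CovZ.leaf K2_ok TB_l10118 _)))))
        (CovZ.subM 322786472687387189770558264163441581575331239086681801233759177010729671885419731943829190082054497187663231254045655040 (by decide +kernel)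
         (CovZ.n1 (-27456, 1152) (by decide +kernel)
          (CovZ.n2 (-27360, 1056) (by decide +kernel)
           (CovZ.n2 (-27456, 1056) (by decide +kernel)
            (CovZ.n2 (-27408, 1104) (by decide +kernel)
             (CovZ.n2 (-27408, 1056) (by decide +kernel)
              (CovZ.leaf K2_ok TB_l10119 _)
              (CovZ.leaf K2_ok TB_l10120 _))
             (CovZ.n1 (-27456, 1104) (by decide +kernel)
              (CovZ.leaf K2_ok TB_l10121 _)
              (CovZ.leaf K2_ok TB_l10122 _)))
            (CovZ.n1 (-27408, 1008) (by decide +kernel)
             (CovZ.leaf K2_ok TB_l10123 _)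
             (CovZ.n1 (-27408, 1056) (by decide +kernel)
              (CovZ.leaf K2_ok TB_l10124 _)
              (CovZ.leaf K2_ok TB_l10125 _))))
           (CovZ.n1 (-27360, 1152) (by decide +kernel)
            (CovZ.n2 (-27312, 1104) (by decide +kernel)
             (CovZ.n2 (-27360, 1104) (by decide +kernel)
              (CovZ.leaf K2_ok TB_l10126 _)
              (CovZ.leaf K2_ok TB_l10127 _))
             (CovZ.n1 (-27312, 1152) (by decide +kernel)
              (CovZ.leaf K2_ok TB_l10128 _)
              (CovZ.leaf K2_ok TB_l10129 _)))
            (CovZ.n1 (-27408, 1104) (by decide +kernel)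
             (CovZ.n2 (-27408, 1152) (by decide +kernel)
              (CovZ.leaf K2_ok TB_l10130 _)
              (CovZ.leaf K2_ok TB_l10131 _))
             (CovZ.n1 (-27360, 1104) (by decide +kernel)
              (CovZ.leaf K2_ok TB_l10132 _)
              (CovZ.leaf K2_ok TB_l10133 _)))))
          (CovZ.n1 (-27552, 1056) (by decide +kernel)
           (CovZ.n2 (-27552, 1152) (by decide +kernel)
            (CovZ.n2 (-27504, 1104) (by decide +kernel)
             (CovZ.leaf K2_ok TB_l10134 _)
             (CovZ.n1 (-27504, 1152) (by decide +kernel)
              (CovZ.leaf K2_ok TB_l10135 _)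
              (CovZ.leaf K2_ok TB_l10136 _)))
            (CovZ.n1 (-27600, 1104) (by decide +kernel)
             (CovZ.n2 (-27600, 1152) (by decide +kernel)
              (CovZ.leaf K2_ok TB_l10137 _)
              (CovZ.leaf K2_ok TB_l10138 _))
             (CovZ.leaf K2_ok TB_l10139 _)))
           (CovZ.n1 (-27456, 1056) (by decide +kernel)
            (CovZ.n2 (-27504, 1008) (by decide +kernel)
             (CovZ.leaf K2_ok TB_l10140 _)
             (CovZ.leaf K2_ok TB_l10141 _))
            (CovZ.n1 (-27504, 1104) (by decide +kernel)
             (CovZ.leaf K2_ok TB_l10142 _)
             (CovZ.n1 (-27504, 1056) (by decide +kernel)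
              (CovZ.leaf K2_ok TB_l10143 _)
              (CovZ.leaf K2_ok TB_l10144 _))))))))

theorem TB_u63 : CovZ TB_M (toL (selN TB_LN 10693552188729356552790587731821266841014006708332875938701794431731881531140877455849397537499971682418187577823936921600)) [0, 7, 6, 1] (-27648, 1536) (-27648, 768) (-26880, 768) :=
    (CovZ.n2 (-27264, 1152) (by decide +kernel)
      (CovZ.n2 (-27264, 768) (by decide +kernel)
       (CovZ.n2 (-27456, 960) (by decide +kernel)
        (CovZ.subM 322786472706175530432748929986557426349645935305687261625025737741727081763877250917255980226153542633745064318114201600 (by decide +kernel)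
         (CovZ.n2 (-27264, 960) (by decide +kernel)
          (CovZ.n2 (-27360, 864) (by decide +kernel)
           (CovZ.n2 (-27360, 960) (by decide +kernel)
            (CovZ.n2 (-27312, 912) (by decide +kernel)
             (CovZ.leaf K2_ok TB_l9928 _)
             (CovZ.n1 (-27312, 960) (by decide +kernel)
              (CovZ.leaf K2_ok TB_l9929 _)
              (CovZ.leaf K2_ok TB_l9930 _)))
            (CovZ.n1 (-27408, 912) (by decide +kernel)
             (CovZ.leaf K2_ok TB_l9931 _)
             (CovZ.leaf K2_ok TB_l9932 _)))
           (CovZ.n1 (-27264, 864) (by decide +kernel)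
            (CovZ.n2 (-27312, 816) (by decide +kernel)
             (CovZ.leaf K2_ok TB_l9933 _)
             (CovZ.leaf K2_ok TB_l9934 _))
            (CovZ.n1 (-27312, 912) (by decide +kernel)
             (CovZ.leaf K2_ok TB_l9935 _)
             (CovZ.leaf K2_ok TB_l9936 _))))
          (CovZ.n1 (-27360, 1056) (by decide +kernel)
           (CovZ.n2 (-27264, 1056) (by decide +kernel)
            (CovZ.n2 (-27312, 1008) (by decide +kernel)
             (CovZ.n2 (-27312, 1056) (by decide +kernel)
              (CovZ.leaf K2_ok TB_l9937 _)
              (CovZ.leaf K2_ok TB_l9938 _))
             (CovZ.n1 (-27264, 1008) (by decide +kernel)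
              (CovZ.leaf K2_ok TB_l9939 _)
              (CovZ.leaf K2_ok TB_l9940 _)))
            (CovZ.n1 (-27312, 1104) (by decide +kernel)
             (CovZ.n2 (-27264, 1104) (by decide +kernel)
              (CovZ.leaf K2_ok TB_l9941 _)
              (CovZ.leaf K2_ok TB_l9942 _))
             (CovZ.n1 (-27312, 1056) (by decide +kernel)
              (CovZ.leaf K2_ok TB_l9943 _)
              (CovZ.leaf K2_ok TB_l9944 _))))
           (CovZ.n1 (-27360, 960) (by decide +kernel)
            (CovZ.n2 (-27408, 1008) (by decide +kernel)
             (CovZ.leaf K2_ok TB_l9945 _)
             (CovZ.n1 (-27408, 960) (by decide +kernel)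
              (CovZ.leaf K2_ok TB_l9946 _)
              (CovZ.leaf K2_ok TB_l9947 _)))
            (CovZ.n1 (-27312, 1008) (by decide +kernel)
             (CovZ.n2 (-27312, 960) (by decide +kernel)
              (CovZ.leaf K2_ok TB_l9948 _)
              (CovZ.leaf K2_ok TB_l9949 _))
             (CovZ.leaf K2_ok TB_l9950 _))))))
        (CovZ.n1 (-27456, 768) (by decide +kernel)
         (CovZ.subM 322786472687387189770558264163314266826810333706290022957190114036535210459903737522894800489189826535959086683633745920 (by decide +kernel)
          (CovZ.n2 (-27552, 864) (by decide +kernel)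
           (CovZ.n2 (-27456, 864) (by decide +kernel)
            (CovZ.n2 (-27504, 816) (by decide +kernel)
             (CovZ.leaf K2_ok TB_l9951 _)
             (CovZ.leaf K2_ok TB_l9952 _))
            (CovZ.n1 (-27504, 912) (by decide +kernel)
             (CovZ.leaf K2_ok TB_l9953 _)
             (CovZ.leaf K2_ok TB_l9954 _)))
           (CovZ.n1 (-27552, 768) (by decide +kernel)
            (CovZ.leaf K2_ok TB_l9955 _)
            (CovZ.n1 (-27504, 816) (by decide +kernel)
             (CovZ.leaf K2_ok TB_l9956 _)
             (CovZ.leaf K2_ok TB_l9957 _)))))
         (CovZ.subM 322786472706175530432748929986557426349645935305687261625025737741727081763877250917255980226153542633745064318114201600 (by decide +kernel)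
          (CovZ.n1 (-27360, 864) (by decide +kernel)
           (CovZ.n2 (-27360, 768) (by decide +kernel)
            (CovZ.n2 (-27408, 816) (by decide +kernel)
             (CovZ.leaf K2_ok TB_l9958 _)
             (CovZ.leaf K2_ok TB_l9959 _))
            (CovZ.n1 (-27312, 816) (by decide +kernel)
             (CovZ.leaf K2_ok TB_l9960 _)
             (CovZ.leaf K2_ok TB_l9961 _)))
           (CovZ.n1 (-27456, 864) (by decide +kernel)
            (CovZ.n2 (-27408, 912) (by decide +kernel)
             (CovZ.leaf K2_ok TB_l9962 _)
             (CovZ.leaf K2_ok TB_l9963 _))
            (CovZ.n1 (-27408, 816) (by decide +kernel)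
             (CovZ.leaf K2_ok TB_l9964 _)
             (CovZ.leaf K2_ok TB_l9965 _)))))))
       (CovZ.n1 (-27072, 960) (by decide +kernel)
        (CovZ.n2 (-27072, 768) (by decide +kernel)
         (CovZ.subM 322786472706175530432748929986557426349645935305687261625025737741727081763877250917255980226153542633745064318114201600 (by decide +kernel)
          (CovZ.n2 (-27168, 864) (by decide +kernel)
           (CovZ.n2 (-27072, 864) (by decide +kernel)
            (CovZ.n2 (-27120, 816) (by decide +kernel)
             (CovZ.n2 (-27120, 864) (by decide +kernel)
              (CovZ.leaf K2_ok TB_l9966 _)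
              (CovZ.leaf K2_ok TB_l9967 _))
             (CovZ.leaf K2_ok TB_l9968 _))
            (CovZ.n1 (-27120, 912) (by decide +kernel)
             (CovZ.n2 (-27072, 912) (by decide +kernel)
              (CovZ.leaf K2_ok TB_l9969 _)
              (CovZ.leaf K2_ok TB_l9970 _))
             (CovZ.n1 (-27120, 864) (by decide +kernel)
              (CovZ.leaf K2_ok TB_l9971 _)
              (CovZ.leaf K2_ok TB_l9972 _))))
           (CovZ.n1 (-27168, 768) (by decide +kernel)
            (CovZ.n2 (-27216, 816) (by decide +kernel)
             (CovZ.leaf K2_ok TB_l9973 _)
             (CovZ.leaf K2_ok TB_l9974 _))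
            (CovZ.n1 (-27120, 816) (by decide +kernel)
             (CovZ.n2 (-27120, 768) (by decide +kernel)
              (CovZ.leaf K2_ok TB_l9975 _)
              (CovZ.leaf K2_ok TB_l9976 _))
             (CovZ.leaf K2_ok TB_l9977 _)))))
         (CovZ.n1 (-26976, 864) (by decide +kernel)
          (CovZ.n2 (-26976, 768) (by decide +kernel)
           (CovZ.n2 (-27024, 816) (by decide +kernel)
            (CovZ.leaf K2_ok TB_l9978 _)
            (CovZ.n1 (-27024, 768) (by decide +kernel)
             (CovZ.leaf K2_ok TB_l9979 _)
             (CovZ.leaf K2_ok TB_l9980 _)))
           (CovZ.subM 322786472706175530432748929986555437056818867258497651037648552131178989068658481114026961044825995999206019460331749376 (by decide +kernel)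
            (CovZ.n1 (-26928, 816) (by decide +kernel)
             (CovZ.n2 (-26928, 768) (by decide +kernel)
              (CovZ.leaf K2_ok TB_l9981 _)
              (CovZ.leaf K2_ok TB_l9982 _))
             (CovZ.n1 (-26976, 816) (by decide +kernel)
              (CovZ.leaf K2_ok TB_l9983 _)
              (CovZ.leaf K2_ok TB_l9984 _)))))
          (CovZ.subM 322786472706175530432748929986557426349645935305687260782527404393269588180533029447892521674992779429352174283625857024 (by decide +kernel)
           (CovZ.n1 (-27072, 864) (by decide +kernel)
            (CovZ.n2 (-27024, 912) (by decide +kernel)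
             (CovZ.n2 (-27024, 864) (by decide +kernel)
              (CovZ.leaf K2_ok TB_l9985 _)
              (CovZ.leaf K2_ok TB_l9986 _))
             (CovZ.n1 (-27072, 912) (by decide +kernel)
              (CovZ.leaf K2_ok TB_l9987 _)
              (CovZ.leaf K2_ok TB_l9988 _)))
            (CovZ.n1 (-27024, 816) (by decide +kernel)
             (CovZ.leaf K2_ok TB_l9989 _)
             (CovZ.n1 (-27024, 864) (by decide +kernel)
              (CovZ.leaf K2_ok TB_l9990 _)
              (CovZ.leaf K2_ok TB_l9991 _)))))))
        (CovZ.subM 322786472706175530432748929986557426349645935305687261625025737741727081763877250917255980226153542633745064318114201600 (by decide +kernel)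
         (CovZ.n1 (-27264, 960) (by decide +kernel)
          (CovZ.n2 (-27168, 1056) (by decide +kernel)
           (CovZ.n2 (-27168, 960) (by decide +kernel)
            (CovZ.n2 (-27216, 1008) (by decide +kernel)
             (CovZ.n2 (-27168, 1008) (by decide +kernel)
              (CovZ.leaf K2_ok TB_l9992 _)
              (CovZ.leaf K2_ok TB_l9993 _))
             (CovZ.n1 (-27216, 960) (by decide +kernel)
              (CovZ.leaf K2_ok TB_l9994 _)
              (CovZ.leaf K2_ok TB_l9995 _)))
            (CovZ.n1 (-27120, 1008) (by decide +kernel)
             (CovZ.n2 (-27120, 960) (by decide +kernel)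
              (CovZ.leaf K2_ok TB_l9996 _)
              (CovZ.leaf K2_ok TB_l9997 _))
             (CovZ.n1 (-27168, 1008) (by decide +kernel)
              (CovZ.leaf K2_ok TB_l9998 _)
              (CovZ.leaf K2_ok TB_l9999 _))))
           (CovZ.n1 (-27264, 1056) (by decide +kernel)
            (CovZ.n2 (-27216, 1104) (by decide +kernel)
             (CovZ.n2 (-27216, 1056) (by decide +kernel)
              (CovZ.leaf K2_ok TB_l10000 _)
              (CovZ.leaf K2_ok TB_l10001 _))
             (CovZ.n1 (-27264, 1104) (by decide +kernel)
              (CovZ.n2 (-27240, 1128) (by decide +kernel)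
               (CovZ.leaf K2_ok TB_l10002 _)
               (CovZ.leaf K2_ok TB_l10003 _))
              (CovZ.leaf K2_ok TB_l10004 _)))
            (CovZ.n1 (-27216, 1008) (by decide +kernel)
             (CovZ.n2 (-27264, 1008) (by decide +kernel)
              (CovZ.leaf K2_ok TB_l10005 _)
              (CovZ.leaf K2_ok TB_l10006 _))
             (CovZ.n1 (-27216, 1056) (by decide +kernel)
              (CovZ.n2 (-27192, 1032) (by decide +kernel)
               (CovZ.leaf K2_ok TB_l10007 _)
               (CovZ.leaf K2_ok TB_l10008 _))
              (CovZ.leaf K2_ok TB_l10009 _)))))
          (CovZ.n1 (-27168, 864) (by decide +kernel)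
           (CovZ.n2 (-27264, 864) (by decide +kernel)
            (CovZ.n2 (-27216, 912) (by decide +kernel)
             (CovZ.leaf K2_ok TB_l10010 _)
             (CovZ.leaf K2_ok TB_l10011 _))
            (CovZ.n1 (-27216, 816) (by decide +kernel)
             (CovZ.leaf K2_ok TB_l10012 _)
             (CovZ.leaf K2_ok TB_l10013 _)))
           (CovZ.n1 (-27168, 960) (by decide +kernel)
            (CovZ.n2 (-27120, 912) (by decide +kernel)
             (CovZ.leaf K2_ok TB_l10014 _)
             (CovZ.n1 (-27120, 960) (by decide +kernel)
              (CovZ.leaf K2_ok TB_l10015 _)
              (CovZ.leaf K2_ok TB_l10016 _)))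
            (CovZ.n1 (-27216, 912) (by decide +kernel)
             (CovZ.n2 (-27216, 960) (by decide +kernel)
              (CovZ.leaf K2_ok TB_l10017 _)
              (CovZ.leaf K2_ok TB_l10018 _))
             (CovZ.leaf K2_ok TB_l10019 _))))))))
      (CovZ.n1 (-27648, 1152) (by decide +kernel)
       TB_u61
       TB_u62))

theorem TB_u64 : CovZ TB_M (toL (selN TB_LN 10693552188729356552790587731821266841014006708332875938701794431731881531140877455849397537499971682418187577823936921600)) [0, 7, 6, 1] (-27648, 768) (-27648, 0) (-26880, 768) :=
    (CovZ.n1 (-27264, 384) (by decide +kernel)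
      (CovZ.n2 (-27648, 384) (by decide +kernel)
       (CovZ.n2 (-27456, 576) (by decide +kernel)
        (CovZ.n2 (-27456, 384) (by decide +kernel)
         (CovZ.n2 (-27552, 480) (by decide +kernel)
          (CovZ.leaf K2_ok TB_l10145 _)
          (CovZ.n1 (-27552, 384) (by decide +kernel)
           (CovZ.leaf K2_ok TB_l10146 _)
           (CovZ.leaf K2_ok TB_l10147 _)))
         (CovZ.n1 (-27360, 480) (by decide +kernel)
          (CovZ.n2 (-27360, 384) (by decide +kernel)
           (CovZ.leaf K2_ok TB_l10148 _)
           (CovZ.leaf K2_ok TB_l10149 _))
          (CovZ.n1 (-27456, 480) (by decide +kernel)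
           (CovZ.leaf K2_ok TB_l10150 _)
           (CovZ.leaf K2_ok TB_l10151 _))))
        (CovZ.n1 (-27648, 576) (by decide +kernel)
         (CovZ.subM 322786472706175530432748929986430111601125029925295483348456673002193538232161409723811668036899418523037236307889225728 (by decide +kernel)
          (CovZ.n2 (-27552, 672) (by decide +kernel)
           (CovZ.n2 (-27552, 576) (by decide +kernel)
            (CovZ.leaf K2_ok TB_l10152 _)
            (CovZ.leaf K2_ok TB_l10153 _))
           (CovZ.n1 (-27648, 672) (by decide +kernel)
            (CovZ.leaf K2_ok TB_l10154 _)
            (CovZ.leaf K2_ok TB_l10155 _))))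
         (CovZ.n1 (-27552, 480) (by decide +kernel)
          (CovZ.leaf K2_ok TB_l10156 _)
          (CovZ.n1 (-27552, 576) (by decide +kernel)
           (CovZ.leaf K2_ok TB_l10157 _)
           (CovZ.leaf K2_ok TB_l10158 _)))))
       (CovZ.n1 (-27456, 192) (by decide +kernel)
        (CovZ.n2 (-27648, 192) (by decide +kernel)
         (CovZ.n2 (-27552, 288) (by decide +kernel)
          (CovZ.leaf K2_ok TB_l10159 _)
          (CovZ.leaf K2_ok TB_l10160 _))
         (CovZ.n1 (-27552, 96) (by decide +kernel)
          (CovZ.leaf K2_ok TB_l10161 _)
          (CovZ.leaf K2_ok TB_l10162 _)))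
        (CovZ.n1 (-27456, 384) (by decide +kernel)
         (CovZ.n2 (-27360, 288) (by decide +kernel)
          (CovZ.leaf K2_ok TB_l10163 _)
          (CovZ.n1 (-27360, 384) (by decide +kernel)
           (CovZ.leaf K2_ok TB_l10164 _)
           (CovZ.leaf K2_ok TB_l10165 _)))
         (CovZ.n1 (-27552, 288) (by decide +kernel)
          (CovZ.leaf K2_ok TB_l10166 _)
          (CovZ.leaf K2_ok TB_l10167 _)))))
      (CovZ.n1 (-27264, 768) (by decide +kernel)
       (CovZ.n2 (-27072, 576) (by decide +kernel)
        (CovZ.n2 (-27264, 576) (by decide +kernel)
         (CovZ.n2 (-27168, 672) (by decide +kernel)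
          (CovZ.n2 (-27168, 576) (by decide +kernel)
           (CovZ.leaf K2_ok TB_l10168 _)
           (CovZ.n1 (-27120, 624) (by decide +kernel)
            (CovZ.leaf K2_ok TB_l10169 _)
            (CovZ.leaf K2_ok TB_l10170 _)))
          (CovZ.n1 (-27264, 672) (by decide +kernel)
           (CovZ.n2 (-27216, 720) (by decide +kernel)
            (CovZ.leaf K2_ok TB_l10171 _)
            (CovZ.leaf K2_ok TB_l10172 _))
           (CovZ.leaf K2_ok TB_l10173 _)))
         (CovZ.n1 (-27168, 480) (by decide +kernel)
          (CovZ.n2 (-27264, 480) (by decide +kernel)
           (CovZ.leaf K2_ok TB_l10174 _)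
           (CovZ.leaf K2_ok TB_l10175 _))
          (CovZ.n1 (-27168, 576) (by decide +kernel)
           (CovZ.leaf K2_ok TB_l10176 _)
           (CovZ.leaf K2_ok TB_l10177 _))))
        (CovZ.n1 (-27072, 768) (by decide +kernel)
         (CovZ.n2 (-26976, 672) (by decide +kernel)
          (CovZ.subM 322786472706175530432748929986557426349645935305687260782733092462910793692976371082300341315816397831562328967760838656 (by decide +kernel)
           (CovZ.n2 (-27072, 672) (by decide +kernel)
            (CovZ.n2 (-27024, 720) (by decide +kernel)
             (CovZ.n2 (-27024, 672) (by decide +kernel)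
              (CovZ.leaf K2_ok TB_l10178 _)
              (CovZ.leaf K2_ok TB_l10179 _))
             (CovZ.leaf K2_ok TB_l10180 _))
            (CovZ.n1 (-27024, 624) (by decide +kernel)
             (CovZ.leaf K2_ok TB_l10181 _)
             (CovZ.leaf K2_ok TB_l10182 _))))
          (CovZ.n1 (-26976, 768) (by decide +kernel)
           (CovZ.n2 (-26928, 720) (by decide +kernel)
            (CovZ.leaf K2_ok TB_l10183 _)
            (CovZ.n1 (-26928, 768) (by decide +kernel)
             (CovZ.leaf K2_ok TB_l10184 _)
             (CovZ.leaf K2_ok TB_l10185 _)))
           (CovZ.n1 (-27024, 720) (by decide +kernel)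
            (CovZ.n2 (-27024, 768) (by decide +kernel)
             (CovZ.leaf K2_ok TB_l10186 _)
             (CovZ.leaf K2_ok TB_l10187 _))
            (CovZ.leaf K2_ok TB_l10188 _))))
         (CovZ.n1 (-27168, 672) (by decide +kernel)
          (CovZ.n2 (-27168, 768) (by decide +kernel)
           (CovZ.n2 (-27120, 720) (by decide +kernel)
            (CovZ.leaf K2_ok TB_l10189 _)
            (CovZ.leaf K2_ok TB_l10190 _))
           (CovZ.n1 (-27216, 720) (by decide +kernel)
            (CovZ.leaf K2_ok TB_l10191 _)
            (CovZ.leaf K2_ok TB_l10192 _)))
          (CovZ.subM 322786472706175530432748929986557426349645935305687260782733092462910793692976371082300341315816397831562328967760838656 (by decide +kernel)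
           (CovZ.n1 (-27072, 672) (by decide +kernel)
            (CovZ.n2 (-27120, 624) (by decide +kernel)
             (CovZ.leaf K2_ok TB_l10193 _)
             (CovZ.leaf K2_ok TB_l10194 _))
            (CovZ.n1 (-27120, 720) (by decide +kernel)
             (CovZ.leaf K2_ok TB_l10195 _)
             (CovZ.leaf K2_ok TB_l10196 _)))))))
       (CovZ.n1 (-27456, 576) (by decide +kernel)
        (CovZ.n2 (-27456, 768) (by decide +kernel)
         (CovZ.n2 (-27360, 672) (by decide +kernel)
          (CovZ.n2 (-27456, 672) (by decide +kernel)
           (CovZ.leaf K2_ok TB_l10197 _)
           (CovZ.leaf K2_ok TB_l10198 _))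
          (CovZ.n1 (-27360, 768) (by decide +kernel)
           (CovZ.n2 (-27312, 720) (by decide +kernel)
            (CovZ.leaf K2_ok TB_l10199 _)
            (CovZ.leaf K2_ok TB_l10200 _))
           (CovZ.leaf K2_ok TB_l10201 _)))
         (CovZ.subM 322786472706175530432748929986430111601125029925295483348456673002193538232161409723811668036899418523037236307889225728 (by decide +kernel)
          (CovZ.n1 (-27552, 672) (by decide +kernel)
           (CovZ.n2 (-27552, 768) (by decide +kernel)
            (CovZ.leaf K2_ok TB_l10202 _)
            (CovZ.leaf K2_ok TB_l10203 _))
           (CovZ.n1 (-27456, 672) (by decide +kernel)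
            (CovZ.leaf K2_ok TB_l10204 _)
            (CovZ.leaf K2_ok TB_l10205 _)))))
        (CovZ.n1 (-27264, 576) (by decide +kernel)
         (CovZ.n2 (-27360, 480) (by decide +kernel)
          (CovZ.n2 (-27360, 576) (by decide +kernel)
           (CovZ.leaf K2_ok TB_l10206 _)
           (CovZ.leaf K2_ok TB_l10207 _))
          (CovZ.n1 (-27264, 480) (by decide +kernel)
           (CovZ.leaf K2_ok TB_l10208 _)
           (CovZ.leaf K2_ok TB_l10209 _)))
         (CovZ.n1 (-27360, 672) (by decide +kernel)
          (CovZ.n2 (-27264, 672) (by decide +kernel)
           (CovZ.leaf K2_ok TB_l10210 _)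
           (CovZ.n1 (-27312, 720) (by decide +kernel)
            (CovZ.leaf K2_ok TB_l10211 _)
            (CovZ.leaf K2_ok TB_l10212 _)))
          (CovZ.n1 (-27360, 576) (by decide +kernel)
           (CovZ.leaf K2_ok TB_l10213 _)
           (CovZ.leaf K2_ok TB_l10214 _)))))))

theorem TB_u65 : CovZ TB_M (toL (selN TB_LN 10651785980243994697453573104703380356610618051057548067169210860964755038614420219864586380532765321980442373521911332864)) [0, 7, 6, 1] (-26880, 1152) (-26880, 960) (-26688, 960) :=
    (CovZ.n2 (-26784, 1056) (by decide +kernel)
           (CovZ.n2 (-26784, 960) (by decide +kernel)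
            (CovZ.n2 (-26832, 1008) (by decide +kernel)
             (CovZ.subM 322781234761047053596269102221305412189068916263679979424493913990625259032626337278666533539292327182140476510179426304 (by decide +kernel)
              (CovZ.n2 (-26784, 1008) (by decide +kernel)
               (CovZ.n2 (-26808, 984) (by decide +kernel)
                (CovZ.n2 (-26808, 1008) (by decide +kernel)
                 (CovZ.leaf K2_ok TB_l10215 _)
                 (CovZ.leaf K2_ok TB_l10216 _))
                (CovZ.n1 (-26784, 984) (by decide +kernel)
                 (CovZ.leaf K2_ok TB_l10217 _)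
                 (CovZ.leaf K2_ok TB_l10218 _)))
               (CovZ.n1 (-26808, 1032) (by decide +kernel)
                (CovZ.n2 (-26784, 1032) (by decide +kernel)
                 (CovZ.leaf K2_ok TB_l10219 _)
                 (CovZ.n1 (-26796, 1044) (by decide +kernel)
                  (CovZ.leaf K2_ok TB_l10220 _)
                  (CovZ.leaf K2_ok TB_l10221 _)))
                (CovZ.n1 (-26808, 1008) (by decide +kernel)
                 (CovZ.leaf K2_ok TB_l10222 _)
                 (CovZ.leaf K2_ok TB_l10223 _)))))
             (CovZ.n1 (-26832, 960) (by decide +kernel)
              (CovZ.n2 (-26856, 984) (by decide +kernel)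
               (CovZ.leaf K2_ok TB_l10224 _)
               (CovZ.leaf K2_ok TB_l10225 _))
              (CovZ.subM 322781234761047053596269102221432726937589821644071757280021107063735234797506000256423633479979498216369467847151190016 (by decide +kernel)
               (CovZ.n1 (-26808, 984) (by decide +kernel)
                (CovZ.n2 (-26808, 960) (by decide +kernel)
                 (CovZ.leaf K2_ok TB_l10226 _)
                 (CovZ.leaf K2_ok TB_l10227 _))
                (CovZ.n1 (-26832, 984) (by decide +kernel)
                 (CovZ.leaf K2_ok TB_l10228 _)
                 (CovZ.leaf K2_ok TB_l10229 _))))))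
            (CovZ.subM 322781234779835394258459768044421256963383612482685439815760472956283586804884009479583401087001919169218626134434906112 (by decide +kernel)
             (CovZ.n1 (-26736, 1008) (by decide +kernel)
              (CovZ.n2 (-26736, 960) (by decide +kernel)
               (CovZ.n2 (-26760, 984) (by decide +kernel)
                (CovZ.n2 (-26736, 984) (by decide +kernel)
                 (CovZ.leaf K2_ok TB_l10230 _)
                 (CovZ.leaf K2_ok TB_l10231 _))
                (CovZ.n1 (-26760, 960) (by decide +kernel)
                 (CovZ.leaf K2_ok TB_l10232 _)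
                 (CovZ.leaf K2_ok TB_l10233 _)))
               (CovZ.n1 (-26712, 984) (by decide +kernel)
                (CovZ.n2 (-26712, 960) (by decide +kernel)
                 (CovZ.n2 (-26724, 972) (by decide +kernel)
                  (CovZ.leaf K2_ok TB_l10234 _)
                  (CovZ.leaf K2_ok TB_l10235 _))
                 (CovZ.n1 (-26700, 972) (by decide +kernel)
                  (CovZ.leaf K2_ok TB_l10236 _)
                  (CovZ.leaf K2_ok TB_l10237 _)))
                (CovZ.n1 (-26736, 984) (by decide +kernel)
                 (CovZ.n2 (-26724, 996) (by decide +kernel)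
                  (CovZ.leaf K2_ok TB_l10238 _)
                  (CovZ.leaf K2_ok TB_l10239 _))
                 (CovZ.leaf K2_ok TB_l10240 _))))
              (CovZ.n1 (-26784, 1008) (by decide +kernel)
               (CovZ.subM 62226231525204763314699456112980255949360620638793913381066557747233390535009676296192 (by decide +kernel)
                (CovZ.n2 (-26760, 1032) (by decide +kernel)
                 (CovZ.n2 (-26760, 1008) (by decide +kernel)
                  (CovZ.n2 (-26772, 1020) (by decide +kernel)
                   (CovZ.leaf K2_ok TB_l10241 _)
                   (CovZ.leaf K2_ok TB_l10242 _))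
                  (CovZ.n1 (-26748, 1020) (by decide +kernel)
                   (CovZ.leaf K2_ok TB_l10243 _)
                   (CovZ.leaf K2_ok TB_l10244 _)))
                 (CovZ.n1 (-26784, 1032) (by decide +kernel)
                  (CovZ.leaf K2_ok TB_l10245 _)
                  (CovZ.n1 (-26772, 1020) (by decide +kernel)
                   (CovZ.leaf K2_ok TB_l10246 _)
                   (CovZ.leaf K2_ok TB_l10247 _)))))
               (CovZ.n1 (-26760, 984) (by decide +kernel)
                (CovZ.n2 (-26784, 984) (by decide +kernel)
                 (CovZ.n2 (-26772, 996) (by decide +kernel)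
                  (CovZ.leaf K2_ok TB_l10248 _)
                  (CovZ.leaf K2_ok TB_l10249 _))
                 (CovZ.leaf K2_ok TB_l10250 _))
                (CovZ.subM 62226231525204763315120705279654484696152292749528595110342138128835586980026920206336 (by decide +kernel)
                 (CovZ.n1 (-26760, 1008) (by decide +kernel)
                  (CovZ.n2 (-26748, 996) (by decide +kernel)
                   (CovZ.leaf K2_ok TB_l10251 _)
                   (CovZ.leaf K2_ok TB_l10252 _))
                  (CovZ.n1 (-26772, 996) (by decide +kernel)
                   (CovZ.leaf K2_ok TB_l10253 _)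
                   (CovZ.leaf K2_ok TB_l10254 _)))))))))
           (CovZ.n1 (-26880, 1056) (by decide +kernel)
            (CovZ.subM 307828173409331868845930000844539403112098236520724758011889243942008926607241653246385566175008100811993027444736 (by decide +kernel)
             (CovZ.n2 (-26832, 1104) (by decide +kernel)
              (CovZ.n2 (-26832, 1056) (by decide +kernel)
               (CovZ.n2 (-26856, 1080) (by decide +kernel)
                (CovZ.subM 62165523122322709281233222827958393205649140105053679904075297290061098507425000980480 (by decide +kernel)
                 (CovZ.n2 (-26832, 1080) (by decide +kernel)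
                  (CovZ.leaf K2_ok TB_l10255 _)
                  (CovZ.n1 (-26844, 1092) (by decide +kernel)
                   (CovZ.badM (by decide +kernel))
                   (CovZ.n1 (-26844, 1080) (by decide +kernel)
                    (CovZ.n2 (-26850, 1086) (by decide +kernel)
                     (CovZ.badM (by decide +kernel))
                     (CovZ.leaf K2_ok TB_l39483 _))
                    (CovZ.badM (by decide +kernel))))))
                (CovZ.n1 (-26856, 1056) (by decide +kernel)
                 (CovZ.n2 (-26868, 1068) (by decide +kernel)
                  (CovZ.leaf K2_ok TB_l10256 _)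
                  (CovZ.leaf K2_ok TB_l10257 _))
                 (CovZ.leaf K2_ok TB_l10258 _)))
               (CovZ.subM 62165523122322709281233222827958393205649140105053679904075297290061098507425000980480 (by decide +kernel)
                (CovZ.n1 (-26808, 1080) (by decide +kernel)
                 (CovZ.n2 (-26808, 1056) (by decide +kernel)
                  (CovZ.n2 (-26820, 1068) (by decide +kernel)
                   (CovZ.badM (by decide +kernel))
                   (CovZ.leaf K2_ok TB_l10259 _))
                  (CovZ.badM (by decide +kernel)))
                 (CovZ.n1 (-26832, 1080) (by decide +kernel)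
                  (CovZ.badM (by decide +kernel))
                  (CovZ.n1 (-26820, 1068) (by decide +kernel)
                   (CovZ.leaf K2_ok TB_l10260 _)
                   (CovZ.badM (by decide +kernel)))))))
              (CovZ.n1 (-26880, 1104) (by decide +kernel)
               (CovZ.subM 307828173409331868845930000782373998560874906250854399653511643108106850819897735112020123588542878693923521298432 (by decide +kernel)
                (CovZ.n2 (-26856, 1128) (by decide +kernel)
                 (CovZ.n2 (-26856, 1104) (by decide +kernel)
                  (CovZ.n2 (-26868, 1116) (by decide +kernel)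
                   (CovZ.badM (by decide +kernel))
                   (CovZ.leaf K2_ok TB_l10261 _))
                  (CovZ.badM (by decide +kernel)))
                 (CovZ.n1 (-26880, 1128) (by decide +kernel)
                  (CovZ.subM 1897137590064188558983823476951991019507728889220659041084359981454287622809583616 (by decide +kernel)
                   (CovZ.n2 (-26868, 1140) (by decide +kernel)
                    (CovZ.n2 (-26868, 1128) (by decide +kernel)
                     (CovZ.n2 (-26874, 1134) (by decide +kernel)
                      (CovZ.badM (by decide +kernel))
                      (CovZ.leaf K2_ok TB_l39484 _))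
                     (CovZ.badM (by decide +kernel)))
                    (CovZ.leaf K2_ok TB_l39485 _)))
                  (CovZ.n1 (-26868, 1116) (by decide +kernel)
                   (CovZ.leaf K2_ok TB_l10262 _)
                   (CovZ.leaf K2_ok TB_l10263 _)))))
               (CovZ.n1 (-26856, 1080) (by decide +kernel)
                (CovZ.n2 (-26880, 1080) (by decide +kernel)
                 (CovZ.n2 (-26868, 1092) (by decide +kernel)
                  (CovZ.leaf K2_ok TB_l10264 _)
                  (CovZ.leaf K2_ok TB_l10265 _))
                 (CovZ.leaf K2_ok TB_l10266 _))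
                (CovZ.n1 (-26856, 1104) (by decide +kernel)
                 (CovZ.n2 (-26844, 1092) (by decide +kernel)
                  (CovZ.leaf K2_ok TB_l39486 _)
                  (CovZ.badM (by decide +kernel)))
                 (CovZ.leaf K2_ok TB_l10267 _))))))
            (CovZ.n1 (-26832, 1008) (by decide +kernel)
             (CovZ.n2 (-26880, 1008) (by decide +kernel)
              (CovZ.subM 322781542589220462928137948151433509311469811419598996350307023886729446486715071689861129562526682193224058725921193984 (by decide +kernel)
               (CovZ.n2 (-26856, 1032) (by decide +kernel)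
                (CovZ.n2 (-26856, 1008) (by decide +kernel)
                 (CovZ.leaf K2_ok TB_l10268 _)
                 (CovZ.leaf K2_ok TB_l10269 _))
                (CovZ.n1 (-26880, 1032) (by decide +kernel)
                 (CovZ.leaf K2_ok TB_l10270 _)
                 (CovZ.leaf K2_ok TB_l10271 _))))
              (CovZ.n1 (-26856, 984) (by decide +kernel)
               (CovZ.leaf K2_ok TB_l10272 _)
               (CovZ.n1 (-26856, 1008) (by decide +kernel)
                (CovZ.leaf K2_ok TB_l10273 _)
                (CovZ.leaf K2_ok TB_l10274 _))))
             (CovZ.subM 307828173409331868845930000844600111514980290554191813948756139510862579305553311281677176680745258360837431623680 (by decide +kernel)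
              (CovZ.n1 (-26832, 1056) (by decide +kernel)
               (CovZ.n2 (-26808, 1032) (by decide +kernel)
                (CovZ.n2 (-26832, 1032) (by decide +kernel)
                 (CovZ.leaf K2_ok TB_l10275 _)
                 (CovZ.leaf K2_ok TB_l10276 _))
                (CovZ.n1 (-26808, 1056) (by decide +kernel)
                 (CovZ.n2 (-26796, 1044) (by decide +kernel)
                  (CovZ.leaf K2_ok TB_l10277 _)
                  (CovZ.badM (by decide +kernel)))
                 (CovZ.leaf K2_ok TB_l10278 _)))
               (CovZ.n1 (-26856, 1032) (by decide +kernel)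
                (CovZ.n2 (-26856, 1056) (by decide +kernel)
                 (CovZ.leaf K2_ok TB_l10279 _)
                 (CovZ.leaf K2_ok TB_l10280 _))
                (CovZ.n1 (-26832, 1032) (by decide +kernel)
                 (CovZ.leaf K2_ok TB_l10281 _)
                 (CovZ.leaf K2_ok TB_l10282 _))))))))

theorem TB_u66 : CovZ TB_M (toL (selN TB_LN 10651785980243994697453573104703380356610618051057548067169210860964755038614420219864586380532765321980442373521911332864)) [0, 7, 6, 1] (-26880, 960) (-26880, 768) (-26688, 960) :=
    (CovZ.n1 (-26784, 864) (by decide +kernel)
           (CovZ.n2 (-26880, 864) (by decide +kernel)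
            (CovZ.n2 (-26832, 912) (by decide +kernel)
             (CovZ.n2 (-26832, 864) (by decide +kernel)
              (CovZ.n2 (-26856, 888) (by decide +kernel)
               (CovZ.leaf K2_ok TB_l10283 _)
               (CovZ.leaf K2_ok TB_l10284 _))
              (CovZ.n1 (-26808, 888) (by decide +kernel)
               (CovZ.leaf K2_ok TB_l10285 _)
               (CovZ.leaf K2_ok TB_l10286 _)))
             (CovZ.n1 (-26880, 912) (by decide +kernel)
              (CovZ.n2 (-26856, 936) (by decide +kernel)
               (CovZ.leaf K2_ok TB_l10287 _)
               (CovZ.leaf K2_ok TB_l10288 _))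
              (CovZ.n1 (-26856, 888) (by decide +kernel)
               (CovZ.leaf K2_ok TB_l10289 _)
               (CovZ.leaf K2_ok TB_l10290 _))))
            (CovZ.n1 (-26832, 816) (by decide +kernel)
             (CovZ.n2 (-26880, 816) (by decide +kernel)
              (CovZ.n2 (-26856, 840) (by decide +kernel)
               (CovZ.leaf K2_ok TB_l10291 _)
               (CovZ.leaf K2_ok TB_l10292 _))
              (CovZ.leaf K2_ok TB_l10293 _))
             (CovZ.n1 (-26832, 864) (by decide +kernel)
              (CovZ.n2 (-26808, 840) (by decide +kernel)
               (CovZ.leaf K2_ok TB_l10294 _)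
               (CovZ.leaf K2_ok TB_l10295 _))
              (CovZ.n1 (-26856, 840) (by decide +kernel)
               (CovZ.leaf K2_ok TB_l10296 _)
               (CovZ.leaf K2_ok TB_l10297 _)))))
           (CovZ.n1 (-26784, 960) (by decide +kernel)
            (CovZ.n2 (-26736, 912) (by decide +kernel)
             (CovZ.n2 (-26784, 912) (by decide +kernel)
              (CovZ.n2 (-26760, 936) (by decide +kernel)
               (CovZ.n2 (-26760, 912) (by decide +kernel)
                (CovZ.leaf K2_ok TB_l10298 _)
                (CovZ.leaf K2_ok TB_l10299 _))
               (CovZ.leaf K2_ok TB_l10300 _))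
              (CovZ.n1 (-26760, 888) (by decide +kernel)
               (CovZ.leaf K2_ok TB_l10301 _)
               (CovZ.n1 (-26760, 912) (by decide +kernel)
                (CovZ.leaf K2_ok TB_l10302 _)
                (CovZ.leaf K2_ok TB_l10303 _))))
             (CovZ.subM 322781234779835394258459768044548571711904517863077217671287666029405535191176687214046425613838701993944638870798729216 (by decide +kernel)
              (CovZ.n1 (-26736, 960) (by decide +kernel)
               (CovZ.n2 (-26712, 936) (by decide +kernel)
                (CovZ.n2 (-26736, 936) (by decide +kernel)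
                 (CovZ.leaf K2_ok TB_l10304 _)
                 (CovZ.leaf K2_ok TB_l10305 _))
                (CovZ.n1 (-26712, 960) (by decide +kernel)
                 (CovZ.leaf K2_ok TB_l10306 _)
                 (CovZ.leaf K2_ok TB_l10307 _)))
               (CovZ.n1 (-26760, 936) (by decide +kernel)
                (CovZ.n2 (-26760, 960) (by decide +kernel)
                 (CovZ.leaf K2_ok TB_l10308 _)
                 (CovZ.leaf K2_ok TB_l10309 _))
                (CovZ.n1 (-26736, 936) (by decide +kernel)
                 (CovZ.leaf K2_ok TB_l10310 _)
                 (CovZ.leaf K2_ok TB_l10311 _))))))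
            (CovZ.n1 (-26832, 912) (by decide +kernel)
             (CovZ.n2 (-26832, 960) (by decide +kernel)
              (CovZ.n2 (-26808, 936) (by decide +kernel)
               (CovZ.leaf K2_ok TB_l10312 _)
               (CovZ.n1 (-26808, 960) (by decide +kernel)
                (CovZ.leaf K2_ok TB_l10313 _)
                (CovZ.leaf K2_ok TB_l10314 _)))
              (CovZ.n1 (-26856, 936) (by decide +kernel)
               (CovZ.leaf K2_ok TB_l10315 _)
               (CovZ.leaf K2_ok TB_l10316 _)))
             (CovZ.n1 (-26784, 912) (by decide +kernel)
              (CovZ.n2 (-26808, 888) (by decide +kernel)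
               (CovZ.leaf K2_ok TB_l10317 _)
               (CovZ.leaf K2_ok TB_l10318 _))
              (CovZ.n1 (-26808, 936) (by decide +kernel)
               (CovZ.leaf K2_ok TB_l10319 _)
               (CovZ.leaf K2_ok TB_l10320 _))))))

theorem TB_u67 : CovZ TB_M (toL (selN TB_LN 307828320193243292210506871251823207642353396079239815701283931827293133698087538940561448951607157403949824212992)) [0, 7, 6, 1] (-27264, 1536) (-27456, 1536) (-27456, 1344) :=
    (CovZ.n2 (-27360, 1440) (by decide +kernel)
            (CovZ.n2 (-27456, 1440) (by decide +kernel)
             (CovZ.subM 146783911423364576743154702703884787541249582089495716196243419907378789516390938486480380013928282178191360 (by decide +kernel)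
              (CovZ.n2 (-27408, 1488) (by decide +kernel)
               (CovZ.n2 (-27408, 1440) (by decide +kernel)
                (CovZ.n2 (-27432, 1464) (by decide +kernel)
                 (CovZ.n2 (-27408, 1464) (by decide +kernel)
                  (CovZ.leaf K2_ok TB_l10409 _)
                  (CovZ.n1 (-27420, 1476) (by decide +kernel)
                   (CovZ.leaf K2_ok TB_l10410 _)
                   (CovZ.leaf K2_ok TB_l10411 _)))
                 (CovZ.n1 (-27432, 1440) (by decide +kernel)
                  (CovZ.leaf K2_ok TB_l10412 _)
                  (CovZ.leaf K2_ok TB_l10413 _)))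
                (CovZ.n1 (-27384, 1464) (by decide +kernel)
                 (CovZ.n2 (-27384, 1440) (by decide +kernel)
                  (CovZ.n2 (-27396, 1452) (by decide +kernel)
                   (CovZ.leaf K2_ok TB_l10414 _)
                   (CovZ.leaf K2_ok TB_l10415 _))
                  (CovZ.n1 (-27372, 1452) (by decide +kernel)
                   (CovZ.leaf K2_ok TB_l10416 _)
                   (CovZ.leaf K2_ok TB_l10417 _)))
                 (CovZ.n1 (-27408, 1464) (by decide +kernel)
                  (CovZ.n2 (-27396, 1476) (by decide +kernel)
                   (CovZ.leaf K2_ok TB_l10418 _)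
                   (CovZ.leaf K2_ok TB_l10419 _))
                  (CovZ.leaf K2_ok TB_l10420 _))))
               (CovZ.n1 (-27456, 1488) (by decide +kernel)
                (CovZ.subM 2722258935367507707706996859454179246080 (by decide +kernel)
                 (CovZ.n2 (-27432, 1512) (by decide +kernel)
                  (CovZ.n2 (-27432, 1488) (by decide +kernel)
                   (CovZ.n2 (-27444, 1500) (by decide +kernel)
                    (CovZ.leaf K2_ok TB_l10421 _)
                    (CovZ.leaf K2_ok TB_l10422 _))
                   (CovZ.n1 (-27420, 1500) (by decide +kernel)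
                    (CovZ.leaf K2_ok TB_l10423 _)
                    (CovZ.leaf K2_ok TB_l10424 _)))
                  (CovZ.n1 (-27456, 1512) (by decide +kernel)
                   (CovZ.leaf K2_ok TB_l10425 _)
                   (CovZ.n1 (-27444, 1500) (by decide +kernel)
                    (CovZ.leaf K2_ok TB_l10426 _)
                    (CovZ.leaf K2_ok TB_l10427 _)))))
                (CovZ.n1 (-27432, 1464) (by decide +kernel)
                 (CovZ.n2 (-27456, 1464) (by decide +kernel)
                  (CovZ.leaf K2_ok TB_l10428 _)
                  (CovZ.leaf K2_ok TB_l10429 _))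
                 (CovZ.n1 (-27432, 1488) (by decide +kernel)
                  (CovZ.n2 (-27420, 1476) (by decide +kernel)
                   (CovZ.leaf K2_ok TB_l10430 _)
                   (CovZ.leaf K2_ok TB_l10431 _))
                  (CovZ.leaf K2_ok TB_l10432 _))))))
             (CovZ.n1 (-27408, 1392) (by decide +kernel)
              (CovZ.n2 (-27456, 1392) (by decide +kernel)
               (CovZ.n2 (-27432, 1416) (by decide +kernel)
                (CovZ.n2 (-27432, 1392) (by decide +kernel)
                 (CovZ.leaf K2_ok TB_l10433 _)
                 (CovZ.leaf K2_ok TB_l10434 _))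
                (CovZ.leaf K2_ok TB_l10435 _))
               (CovZ.n1 (-27432, 1368) (by decide +kernel)
                (CovZ.leaf K2_ok TB_l10436 _)
                (CovZ.n1 (-27432, 1392) (by decide +kernel)
                 (CovZ.leaf K2_ok TB_l10437 _)
                 (CovZ.leaf K2_ok TB_l10438 _))))
              (CovZ.subM 146783911423364576743154702703884787541250450915901981793033677731107179797457569371017434544096130310864896 (by decide +kernel)
               (CovZ.n1 (-27408, 1440) (by decide +kernel)
                (CovZ.n2 (-27384, 1416) (by decide +kernel)
                 (CovZ.n2 (-27408, 1416) (by decide +kernel)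
                  (CovZ.leaf K2_ok TB_l10439 _)
                  (CovZ.leaf K2_ok TB_l10440 _))
                 (CovZ.n1 (-27384, 1440) (by decide +kernel)
                  (CovZ.leaf K2_ok TB_l10441 _)
                  (CovZ.leaf K2_ok TB_l10442 _)))
                (CovZ.n1 (-27432, 1416) (by decide +kernel)
                 (CovZ.n2 (-27432, 1440) (by decide +kernel)
                  (CovZ.leaf K2_ok TB_l10443 _)
                  (CovZ.leaf K2_ok TB_l10444 _))
                 (CovZ.n1 (-27408, 1416) (by decide +kernel)
                  (CovZ.leaf K2_ok TB_l10445 _)
                  (CovZ.leaf K2_ok TB_l10446 _)))))))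
            (CovZ.subM 62165404551223330269844030185026833759348690960403146409333577493247133571583949406208 (by decide +kernel)
             (CovZ.n1 (-27360, 1536) (by decide +kernel)
              (CovZ.n2 (-27312, 1488) (by decide +kernel)
               (CovZ.n2 (-27360, 1488) (by decide +kernel)
                (CovZ.badM (by decide +kernel))
                (CovZ.n1 (-27336, 1464) (by decide +kernel)
                 (CovZ.n2 (-27360, 1464) (by decide +kernel)
                  (CovZ.badM (by decide +kernel))
                  (CovZ.leaf K2_ok TB_l10449 _))
                 (CovZ.badM (by decide +kernel))))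
               (CovZ.badM (by decide +kernel)))
              (CovZ.n1 (-27408, 1488) (by decide +kernel)
               (CovZ.n2 (-27408, 1536) (by decide +kernel)
                (CovZ.n2 (-27384, 1512) (by decide +kernel)
                 (CovZ.n2 (-27408, 1512) (by decide +kernel)
                  (CovZ.badM (by decide +kernel))
                  (CovZ.n1 (-27396, 1500) (by decide +kernel)
                   (CovZ.leaf K2_ok TB_l10450 _)
                   (CovZ.badM (by decide +kernel))))
                 (CovZ.badM (by decide +kernel)))
                (CovZ.n1 (-27432, 1512) (by decide +kernel)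
                 (CovZ.badM (by decide +kernel))
                 (CovZ.n1 (-27408, 1512) (by decide +kernel)
                  (CovZ.n2 (-27420, 1500) (by decide +kernel)
                   (CovZ.badM (by decide +kernel))
                   (CovZ.leaf K2_ok TB_l10455 _))
                  (CovZ.badM (by decide +kernel)))))
               (CovZ.n1 (-27360, 1488) (by decide +kernel)
                (CovZ.n2 (-27384, 1464) (by decide +kernel)
                 (CovZ.n2 (-27384, 1488) (by decide +kernel)
                  (CovZ.n2 (-27372, 1476) (by decide +kernel)
                   (CovZ.leaf K2_ok TB_l10457 _)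
                   (CovZ.badM (by decide +kernel)))
                  (CovZ.n1 (-27396, 1476) (by decide +kernel)
                   (CovZ.leaf K2_ok TB_l10459 _)
                   (CovZ.leaf K2_ok TB_l10460 _)))
                 (CovZ.n1 (-27360, 1464) (by decide +kernel)
                  (CovZ.n2 (-27372, 1452) (by decide +kernel)
                   (CovZ.leaf K2_ok TB_l10461 _)
                   (CovZ.leaf K2_ok TB_l10462 _))
                  (CovZ.n1 (-27372, 1476) (by decide +kernel)
                   (CovZ.badM (by decide +kernel))
                   (CovZ.leaf K2_ok TB_l10464 _))))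
                (CovZ.n1 (-27384, 1512) (by decide +kernel)
                 (CovZ.badM (by decide +kernel))
                 (CovZ.n1 (-27384, 1488) (by decide +kernel)
                  (CovZ.n2 (-27396, 1500) (by decide +kernel)
                   (CovZ.badM (by decide +kernel))
                   (CovZ.leaf K2_ok TB_l10466 _))
                  (CovZ.badM (by decide +kernel)))))))))

theorem TB_u68 : CovZ TB_M (toL (selN TB_LN 307828320193243292210506871251823207642353396079239815701283931827293133698087538940561448951607157403949824212992)) [0, 7, 6, 1] (-27456, 1536) (-27648, 1536) (-27456, 1344) :=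
    (CovZ.n1 (-27552, 1440) (by decide +kernel)
            (CovZ.n2 (-27552, 1536) (by decide +kernel)
             (CovZ.subM 146783911423364576743154702703884787541249582089696584218023564124765963957107097386950247197520692441513984 (by decide +kernel)
              (CovZ.n2 (-27504, 1488) (by decide +kernel)
               (CovZ.n2 (-27552, 1488) (by decide +kernel)
                (CovZ.n2 (-27528, 1512) (by decide +kernel)
                 (CovZ.n2 (-27528, 1488) (by decide +kernel)
                  (CovZ.leaf K2_ok TB_l10469 _)
                  (CovZ.leaf K2_ok TB_l10470 _))
                 (CovZ.n1 (-27552, 1512) (by decide +kernel)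
                  (CovZ.leaf K2_ok TB_l10471 _)
                  (CovZ.leaf K2_ok TB_l10472 _)))
                (CovZ.n1 (-27528, 1464) (by decide +kernel)
                 (CovZ.n2 (-27552, 1464) (by decide +kernel)
                  (CovZ.leaf K2_ok TB_l10473 _)
                  (CovZ.leaf K2_ok TB_l10474 _))
                 (CovZ.n1 (-27528, 1488) (by decide +kernel)
                  (CovZ.leaf K2_ok TB_l10475 _)
                  (CovZ.leaf K2_ok TB_l10476 _))))
               (CovZ.subM 146783911423364576743092537299333564210980159308376929963464675996307748420939557826711097389690290954043392 (by decide +kernel)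
                (CovZ.n1 (-27504, 1536) (by decide +kernel)
                 (CovZ.n2 (-27480, 1512) (by decide +kernel)
                  (CovZ.n2 (-27504, 1512) (by decide +kernel)
                   (CovZ.n2 (-27492, 1524) (by decide +kernel)
                    (CovZ.leaf K2_ok TB_l10477 _)
                    (CovZ.leaf K2_ok TB_l10478 _))
                   (CovZ.leaf K2_ok TB_l10479 _))
                  (CovZ.n1 (-27480, 1536) (by decide +kernel)
                   (CovZ.n2 (-27468, 1524) (by decide +kernel)
                    (CovZ.leaf K2_ok TB_l10480 _)
                    (CovZ.leaf K2_ok TB_l39517 _))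
                   (CovZ.n1 (-27492, 1524) (by decide +kernel)
                    (CovZ.leaf K2_ok TB_l10481 _)
                    (CovZ.leaf K2_ok TB_l10482 _))))
                 (CovZ.n1 (-27528, 1512) (by decide +kernel)
                  (CovZ.n2 (-27528, 1536) (by decide +kernel)
                   (CovZ.n2 (-27516, 1524) (by decide +kernel)
                    (CovZ.leaf K2_ok TB_l10483 _)
                    (CovZ.leaf K2_ok TB_l10484 _))
                   (CovZ.leaf K2_ok TB_l10485 _))
                  (CovZ.n1 (-27504, 1512) (by decide +kernel)
                   (CovZ.leaf K2_ok TB_l10486 _)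
                   (CovZ.leaf K2_ok TB_l10487 _)))))))
             (CovZ.n1 (-27600, 1488) (by decide +kernel)
              (CovZ.subM 146783911423364576743092537299333564210980159308477364453259604625591606536737074831249396669956592362323968 (by decide +kernel)
               (CovZ.n2 (-27600, 1536) (by decide +kernel)
                (CovZ.n2 (-27576, 1512) (by decide +kernel)
                 (CovZ.n2 (-27600, 1512) (by decide +kernel)
                  (CovZ.leaf K2_ok TB_l10488 _)
                  (CovZ.leaf K2_ok TB_l10489 _))
                 (CovZ.n1 (-27576, 1536) (by decide +kernel)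
                  (CovZ.leaf K2_ok TB_l10490 _)
                  (CovZ.leaf K2_ok TB_l10491 _)))
                (CovZ.n1 (-27624, 1512) (by decide +kernel)
                 (CovZ.n2 (-27624, 1536) (by decide +kernel)
                  (CovZ.leaf K2_ok TB_l10492 _)
                  (CovZ.leaf K2_ok TB_l10493 _))
                 (CovZ.leaf K2_ok TB_l10494 _))))
              (CovZ.subM 146783911423364576743154702703884787541249582089696584218023564124765963957107097386950247197520692441513984 (by decide +kernel)
               (CovZ.n1 (-27552, 1488) (by decide +kernel)
                (CovZ.n2 (-27576, 1464) (by decide +kernel)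
                 (CovZ.n2 (-27576, 1488) (by decide +kernel)
                  (CovZ.leaf K2_ok TB_l10495 _)
                  (CovZ.leaf K2_ok TB_l10496 _))
                 (CovZ.n1 (-27552, 1464) (by decide +kernel)
                  (CovZ.leaf K2_ok TB_l10497 _)
                  (CovZ.leaf K2_ok TB_l10498 _)))
                (CovZ.n1 (-27576, 1512) (by decide +kernel)
                 (CovZ.n2 (-27552, 1512) (by decide +kernel)
                  (CovZ.leaf K2_ok TB_l10499 _)
                  (CovZ.leaf K2_ok TB_l10500 _))
                 (CovZ.n1 (-27576, 1488) (by decide +kernel)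
                  (CovZ.leaf K2_ok TB_l10501 _)
                  (CovZ.leaf K2_ok TB_l10502 _)))))))
            (CovZ.n1 (-27456, 1440) (by decide +kernel)
             (CovZ.n2 (-27504, 1392) (by decide +kernel)
              (CovZ.n2 (-27504, 1440) (by decide +kernel)
               (CovZ.n2 (-27480, 1416) (by decide +kernel)
                (CovZ.leaf K2_ok TB_l10503 _)
                (CovZ.leaf K2_ok TB_l10504 _))
               (CovZ.n1 (-27528, 1416) (by decide +kernel)
                (CovZ.n2 (-27528, 1440) (by decide +kernel)
                 (CovZ.leaf K2_ok TB_l10505 _)
                 (CovZ.leaf K2_ok TB_l10506 _))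
                (CovZ.leaf K2_ok TB_l10507 _)))
              (CovZ.n1 (-27456, 1392) (by decide +kernel)
               (CovZ.n2 (-27480, 1368) (by decide +kernel)
                (CovZ.n2 (-27480, 1392) (by decide +kernel)
                 (CovZ.leaf K2_ok TB_l10508 _)
                 (CovZ.leaf K2_ok TB_l10509 _))
                (CovZ.leaf K2_ok TB_l10510 _))
               (CovZ.n1 (-27480, 1416) (by decide +kernel)
                (CovZ.leaf K2_ok TB_l10511 _)
                (CovZ.n1 (-27480, 1392) (by decide +kernel)
                 (CovZ.leaf K2_ok TB_l10512 _)
                 (CovZ.leaf K2_ok TB_l10513 _)))))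
             (CovZ.subM 146783911423364576743154702703884787541249582089696584218023564124765963957107097386950247197520692441513984 (by decide +kernel)
              (CovZ.n1 (-27504, 1488) (by decide +kernel)
               (CovZ.n2 (-27456, 1488) (by decide +kernel)
                (CovZ.n2 (-27480, 1464) (by decide +kernel)
                 (CovZ.n2 (-27480, 1488) (by decide +kernel)
                  (CovZ.leaf K2_ok TB_l10514 _)
                  (CovZ.leaf K2_ok TB_l10515 _))
                 (CovZ.n1 (-27456, 1464) (by decide +kernel)
                  (CovZ.leaf K2_ok TB_l10516 _)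
                  (CovZ.leaf K2_ok TB_l10517 _)))
                (CovZ.subM 146783911423364576743092537299333564210980159308376929963464675996307748420939557826711097389690290954043392 (by decide +kernel)
                 (CovZ.n1 (-27480, 1512) (by decide +kernel)
                  (CovZ.n2 (-27456, 1512) (by decide +kernel)
                   (CovZ.n2 (-27468, 1500) (by decide +kernel)
                    (CovZ.leaf K2_ok TB_l10518 _)
                    (CovZ.leaf K2_ok TB_l10519 _))
                   (CovZ.n1 (-27468, 1524) (by decide +kernel)
                    (CovZ.leaf K2_ok TB_l10520 _)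
                    (CovZ.leaf K2_ok TB_l10521 _)))
                  (CovZ.n1 (-27480, 1488) (by decide +kernel)
                   (CovZ.leaf K2_ok TB_l10522 _)
                   (CovZ.n1 (-27468, 1500) (by decide +kernel)
                    (CovZ.leaf K2_ok TB_l10523 _)
                    (CovZ.leaf K2_ok TB_l10524 _))))))
               (CovZ.n1 (-27504, 1440) (by decide +kernel)
                (CovZ.n2 (-27528, 1464) (by decide +kernel)
                 (CovZ.leaf K2_ok TB_l10525 _)
                 (CovZ.n1 (-27528, 1440) (by decide +kernel)
                  (CovZ.leaf K2_ok TB_l10526 _)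
                  (CovZ.leaf K2_ok TB_l10527 _)))
                (CovZ.n1 (-27480, 1464) (by decide +kernel)
                 (CovZ.n2 (-27480, 1440) (by decide +kernel)
                  (CovZ.leaf K2_ok TB_l10528 _)
                  (CovZ.leaf K2_ok TB_l10529 _))
                 (CovZ.leaf K2_ok TB_l10530 _)))))))

theorem TB_u69 : CovZ TB_M (toL (selN TB_LN 322786467896360320911938479268899174832256635193099791715907790271222802590492139873801788662128458688558306124974014464)) [0, 7, 6, 1] (-27264, 1152) (-27264, 1344) (-27456, 1344) :=
    (CovZ.n2 (-27360, 1248) (by decide +kernel)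
           (CovZ.n2 (-27360, 1344) (by decide +kernel)
            (CovZ.n2 (-27312, 1296) (by decide +kernel)
             (CovZ.subM 322781542589220462928137948160472856395627119445982179250362049283216287382853376932234171767280733235600287474170986496 (by decide +kernel)
              (CovZ.n2 (-27360, 1296) (by decide +kernel)
               (CovZ.n2 (-27336, 1320) (by decide +kernel)
                (CovZ.leaf K2_ok TB_l10531 _)
                (CovZ.leaf K2_ok TB_l10532 _))
               (CovZ.n1 (-27336, 1272) (by decide +kernel)
                (CovZ.leaf K2_ok TB_l10533 _)
                (CovZ.n1 (-27336, 1296) (by decide +kernel)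
                 (CovZ.leaf K2_ok TB_l10534 _)
                 (CovZ.leaf K2_ok TB_l10535 _)))))
             (CovZ.subM 307828320193243292210506871251823207642353396079239815500415814266177612192856792371721781755670190026223930834944 (by decide +kernel)
              (CovZ.n1 (-27312, 1344) (by decide +kernel)
               (CovZ.n2 (-27288, 1320) (by decide +kernel)
                (CovZ.leaf K2_ok TB_l10536 _)
                (CovZ.n1 (-27288, 1344) (by decide +kernel)
                 (CovZ.leaf K2_ok TB_l10537 _)
                 (CovZ.leaf K2_ok TB_l10538 _)))
               (CovZ.n1 (-27336, 1320) (by decide +kernel)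
                (CovZ.n2 (-27336, 1344) (by decide +kernel)
                 (CovZ.leaf K2_ok TB_l10539 _)
                 (CovZ.leaf K2_ok TB_l10540 _))
                (CovZ.leaf K2_ok TB_l10541 _)))))
            (CovZ.subM 322781542589220462928137948160472856395627119445982179250362049283216287382853376932234171767280733235600287474170986496 (by decide +kernel)
             (CovZ.n1 (-27408, 1296) (by decide +kernel)
              (CovZ.n2 (-27408, 1344) (by decide +kernel)
               (CovZ.n2 (-27384, 1320) (by decide +kernel)
                (CovZ.leaf K2_ok TB_l10542 _)
                (CovZ.n1 (-27384, 1344) (by decide +kernel)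
                 (CovZ.leaf K2_ok TB_l10543 _)
                 (CovZ.leaf K2_ok TB_l10544 _)))
               (CovZ.n1 (-27432, 1320) (by decide +kernel)
                (CovZ.leaf K2_ok TB_l10545 _)
                (CovZ.leaf K2_ok TB_l10546 _)))
              (CovZ.n1 (-27360, 1296) (by decide +kernel)
               (CovZ.n2 (-27384, 1272) (by decide +kernel)
                (CovZ.leaf K2_ok TB_l10547 _)
                (CovZ.leaf K2_ok TB_l10548 _))
               (CovZ.n1 (-27384, 1320) (by decide +kernel)
                (CovZ.leaf K2_ok TB_l10549 _)
                (CovZ.leaf K2_ok TB_l10550 _))))))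
           (CovZ.n1 (-27264, 1248) (by decide +kernel)
            (CovZ.n2 (-27312, 1200) (by decide +kernel)
             (CovZ.n2 (-27312, 1248) (by decide +kernel)
              (CovZ.n2 (-27288, 1224) (by decide +kernel)
               (CovZ.leaf K2_ok TB_l10551 _)
               (CovZ.leaf K2_ok TB_l10552 _))
              (CovZ.n1 (-27336, 1224) (by decide +kernel)
               (CovZ.leaf K2_ok TB_l10553 _)
               (CovZ.leaf K2_ok TB_l10554 _)))
             (CovZ.n1 (-27264, 1200) (by decide +kernel)
              (CovZ.leaf K2_ok TB_l10555 _)
              (CovZ.n1 (-27288, 1224) (by decide +kernel)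
               (CovZ.leaf K2_ok TB_l10556 _)
               (CovZ.leaf K2_ok TB_l10557 _))))
            (CovZ.n1 (-27312, 1296) (by decide +kernel)
             (CovZ.subM 307828320193243292210506871251825104779943460267785635287434196608859880168285554226723004228726575674939951546368 (by decide +kernel)
              (CovZ.n2 (-27264, 1296) (by decide +kernel)
               (CovZ.n2 (-27288, 1272) (by decide +kernel)
                (CovZ.n2 (-27288, 1296) (by decide +kernel)
                 (CovZ.leaf K2_ok TB_l10558 _)
                 (CovZ.leaf K2_ok TB_l10559 _))
                (CovZ.leaf K2_ok TB_l10560 _))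
               (CovZ.n1 (-27288, 1320) (by decide +kernel)
                (CovZ.leaf K2_ok TB_l10561 _)
                (CovZ.n1 (-27288, 1296) (by decide +kernel)
                 (CovZ.leaf K2_ok TB_l10562 _)
                 (CovZ.leaf K2_ok TB_l10563 _)))))
             (CovZ.n1 (-27312, 1248) (by decide +kernel)
              (CovZ.n2 (-27336, 1272) (by decide +kernel)
               (CovZ.leaf K2_ok TB_l10564 _)
               (CovZ.leaf K2_ok TB_l10565 _))
              (CovZ.n1 (-27288, 1272) (by decide +kernel)
               (CovZ.leaf K2_ok TB_l10566 _)
               (CovZ.leaf K2_ok TB_l10567 _))))))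

theorem TB_u70 : CovZ TB_M (toL (selN TB_LN 322786467896360320911938479268899174832256635193099791715907790271222802590492139873801788662128458688558306124974014464)) [0, 7, 6, 1] (-27264, 1344) (-27264, 1536) (-27456, 1344) :=
    (CovZ.subM 307828320193243292210506871251823207642353396079239815701283836046321829580031233087880682225537373618634127048704 (by decide +kernel)
           (CovZ.n1 (-27360, 1440) (by decide +kernel)
            (CovZ.subM 62165404551223330270712856591292430549606514691515686411331969738008660598886160662528 (by decide +kernel)
             (CovZ.n2 (-27264, 1440) (by decide +kernel)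
              (CovZ.n2 (-27312, 1392) (by decide +kernel)
               (CovZ.n2 (-27312, 1440) (by decide +kernel)
                (CovZ.n2 (-27288, 1416) (by decide +kernel)
                 (CovZ.n2 (-27312, 1416) (by decide +kernel)
                  (CovZ.n2 (-27300, 1428) (by decide +kernel)
                   (CovZ.leaf K2_ok TB_l10568 _)
                   (CovZ.leaf K2_ok TB_l10569 _))
                  (CovZ.leaf K2_ok TB_l10570 _))
                 (CovZ.n1 (-27288, 1440) (by decide +kernel)
                  (CovZ.n2 (-27276, 1428) (by decide +kernel)
                   (CovZ.leaf K2_ok TB_l10571 _)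
                   (CovZ.n1 (-27276, 1440) (by decide +kernel)
                    (CovZ.leaf K2_ok TB_l39518 _)
                    (CovZ.leaf K2_ok TB_l39519 _)))
                  (CovZ.n1 (-27300, 1428) (by decide +kernel)
                   (CovZ.leaf K2_ok TB_l10572 _)
                   (CovZ.leaf K2_ok TB_l10573 _))))
                (CovZ.n1 (-27336, 1416) (by decide +kernel)
                 (CovZ.n2 (-27336, 1440) (by decide +kernel)
                  (CovZ.n2 (-27324, 1428) (by decide +kernel)
                   (CovZ.leaf K2_ok TB_l10574 _)
                   (CovZ.leaf K2_ok TB_l10575 _))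
                  (CovZ.n1 (-27348, 1428) (by decide +kernel)
                   (CovZ.leaf K2_ok TB_l10576 _)
                   (CovZ.leaf K2_ok TB_l10577 _)))
                 (CovZ.n1 (-27312, 1416) (by decide +kernel)
                  (CovZ.n2 (-27324, 1404) (by decide +kernel)
                   (CovZ.leaf K2_ok TB_l10578 _)
                   (CovZ.leaf K2_ok TB_l10579 _))
                  (CovZ.n1 (-27324, 1428) (by decide +kernel)
                   (CovZ.leaf K2_ok TB_l10580 _)
                   (CovZ.leaf K2_ok TB_l10581 _)))))
               (CovZ.n1 (-27264, 1392) (by decide +kernel)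
                (CovZ.n2 (-27288, 1368) (by decide +kernel)
                 (CovZ.n2 (-27288, 1392) (by decide +kernel)
                  (CovZ.leaf K2_ok TB_l10582 _)
                  (CovZ.leaf K2_ok TB_l10583 _))
                 (CovZ.n1 (-27264, 1368) (by decide +kernel)
                  (CovZ.leaf K2_ok TB_l10584 _)
                  (CovZ.leaf K2_ok TB_l10585 _)))
                (CovZ.n1 (-27288, 1416) (by decide +kernel)
                 (CovZ.n2 (-27264, 1416) (by decide +kernel)
                  (CovZ.n2 (-27276, 1404) (by decide +kernel)
                   (CovZ.leaf K2_ok TB_l10586 _)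
                   (CovZ.leaf K2_ok TB_l10587 _))
                  (CovZ.n1 (-27276, 1428) (by decide +kernel)
                   (CovZ.leaf K2_ok TB_l39520 _)
                   (CovZ.leaf K2_ok TB_l10588 _)))
                 (CovZ.n1 (-27288, 1392) (by decide +kernel)
                  (CovZ.n2 (-27300, 1404) (by decide +kernel)
                   (CovZ.leaf K2_ok TB_l10589 _)
                   (CovZ.leaf K2_ok TB_l10590 _))
                  (CovZ.n1 (-27276, 1404) (by decide +kernel)
                   (CovZ.leaf K2_ok TB_l10591 _)
                   (CovZ.leaf K2_ok TB_l10592 _))))))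
              (CovZ.n1 (-27312, 1488) (by decide +kernel)
               (CovZ.badM (by decide +kernel))
               (CovZ.n1 (-27312, 1440) (by decide +kernel)
                (CovZ.subM 62165404551223330269449109091269744309231498356589382288137720885495074404380283240448 (by decide +kernel)
                 (CovZ.n2 (-27336, 1464) (by decide +kernel)
                  (CovZ.n2 (-27312, 1464) (by decide +kernel)
                   (CovZ.n2 (-27324, 1452) (by decide +kernel)
                    (CovZ.n2 (-27324, 1464) (by decide +kernel)
                     (CovZ.leaf K2_ok TB_l39521 _)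
                     (CovZ.n1 (-27330, 1458) (by decide +kernel)
                      (CovZ.n2 (-27330, 1464) (by decide +kernel)
                       (CovZ.leaf K2_ok TB_l39522 _)
                       (CovZ.leaf K2_ok TB_l39523 _))
                      (CovZ.leaf K2_ok TB_l39524 _)))
                    (CovZ.leaf K2_ok TB_l10593 _))
                   (CovZ.badM (by decide +kernel)))
                  (CovZ.n1 (-27336, 1440) (by decide +kernel)
                   (CovZ.n2 (-27348, 1452) (by decide +kernel)
                    (CovZ.leaf K2_ok TB_l39525 _)
                    (CovZ.leaf K2_ok TB_l10594 _))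
                   (CovZ.n1 (-27324, 1452) (by decide +kernel)
                    (CovZ.leaf K2_ok TB_l10595 _)
                    (CovZ.n1 (-27336, 1452) (by decide +kernel)
                     (CovZ.n2 (-27330, 1458) (by decide +kernel)
                      (CovZ.leaf K2_ok TB_l39526 _)
                      (CovZ.leaf K2_ok TB_l39527 _))
                     (CovZ.leaf K2_ok TB_l39528 _))))))
                (CovZ.subM 62165404551223330269870358257943973056023170467324064017413301267097270849397493596160 (by decide +kernel)
                 (CovZ.n1 (-27288, 1464) (by decide +kernel)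
                  (CovZ.n2 (-27288, 1440) (by decide +kernel)
                   (CovZ.n2 (-27300, 1452) (by decide +kernel)
                    (CovZ.leaf K2_ok TB_l39529 _)
                    (CovZ.leaf K2_ok TB_l10596 _))
                   (CovZ.n1 (-27276, 1452) (by decide +kernel)
                    (CovZ.n2 (-27276, 1440) (by decide +kernel)
                     (CovZ.n2 (-27282, 1446) (by decide +kernel)
                      (CovZ.badM (by decide +kernel))
                      (CovZ.n1 (-27282, 1440) (by decide +kernel)
                       (CovZ.leaf K2_ok TB_l39530 _)
                       (CovZ.badM (by decide +kernel))))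
                     (CovZ.badM (by decide +kernel)))
                    (CovZ.n1 (-27288, 1452) (by decide +kernel)
                     (CovZ.badM (by decide +kernel))
                     (CovZ.n1 (-27282, 1446) (by decide +kernel)
                      (CovZ.n2 (-27288, 1446) (by decide +kernel)
                       (CovZ.badM (by decide +kernel))
                       (CovZ.leaf K2_ok TB_l39531 _))
                      (CovZ.badM (by decide +kernel))))))
                  (CovZ.n1 (-27312, 1464) (by decide +kernel)
                   (CovZ.badM (by decide +kernel))
                   (CovZ.n1 (-27300, 1452) (by decide +kernel)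
                    (CovZ.leaf K2_ok TB_l10597 _)
                    (CovZ.n1 (-27300, 1464) (by decide +kernel)
                     (CovZ.n2 (-27294, 1458) (by decide +kernel)
                      (CovZ.leaf K2_ok TB_l39532 _)
                      (CovZ.badM (by decide +kernel)))
                     (CovZ.n1 (-27306, 1458) (by decide +kernel)
                      (CovZ.badM (by decide +kernel))
                      (CovZ.leaf K2_ok TB_l39533 _)))))))))))
            (CovZ.n1 (-27360, 1344) (by decide +kernel)
             (CovZ.n2 (-27408, 1392) (by decide +kernel)
              (CovZ.subM 146783911423364576743154702703884787541250450915901981793033677731107179797457569371017434544096130310864896 (by decide +kernel)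
               (CovZ.n2 (-27360, 1392) (by decide +kernel)
                (CovZ.n2 (-27384, 1368) (by decide +kernel)
                 (CovZ.n2 (-27384, 1392) (by decide +kernel)
                  (CovZ.leaf K2_ok TB_l10598 _)
                  (CovZ.leaf K2_ok TB_l10599 _))
                 (CovZ.leaf K2_ok TB_l10600 _))
                (CovZ.n1 (-27384, 1416) (by decide +kernel)
                 (CovZ.n2 (-27360, 1416) (by decide +kernel)
                  (CovZ.leaf K2_ok TB_l10601 _)
                  (CovZ.leaf K2_ok TB_l10602 _))
                 (CovZ.n1 (-27384, 1392) (by decide +kernel)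
                  (CovZ.leaf K2_ok TB_l10603 _)
                  (CovZ.leaf K2_ok TB_l10604 _)))))
              (CovZ.n1 (-27408, 1344) (by decide +kernel)
               (CovZ.n2 (-27432, 1368) (by decide +kernel)
                (CovZ.leaf K2_ok TB_l10605 _)
                (CovZ.leaf K2_ok TB_l10606 _))
               (CovZ.n1 (-27384, 1368) (by decide +kernel)
                (CovZ.n2 (-27384, 1344) (by decide +kernel)
                 (CovZ.leaf K2_ok TB_l10607 _)
                 (CovZ.leaf K2_ok TB_l10608 _))
                (CovZ.leaf K2_ok TB_l10609 _))))
             (CovZ.n1 (-27312, 1392) (by decide +kernel)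
              (CovZ.n2 (-27312, 1344) (by decide +kernel)
               (CovZ.subM 146783911423364576743154702703884787541250450915901981793033677731107179797457569371017434544096130310864896 (by decide +kernel)
                (CovZ.n2 (-27336, 1368) (by decide +kernel)
                 (CovZ.n2 (-27312, 1368) (by decide +kernel)
                  (CovZ.leaf K2_ok TB_l10610 _)
                  (CovZ.leaf K2_ok TB_l10611 _))
                 (CovZ.n1 (-27336, 1344) (by decide +kernel)
                  (CovZ.leaf K2_ok TB_l10612 _)
                  (CovZ.leaf K2_ok TB_l10613 _))))
               (CovZ.n1 (-27288, 1368) (by decide +kernel)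
                (CovZ.n2 (-27288, 1344) (by decide +kernel)
                 (CovZ.leaf K2_ok TB_l10614 _)
                 (CovZ.leaf K2_ok TB_l10615 _))
                (CovZ.n1 (-27312, 1368) (by decide +kernel)
                 (CovZ.leaf K2_ok TB_l10616 _)
                 (CovZ.leaf K2_ok TB_l10617 _))))
              (CovZ.subM 146783911423364576743154702703884787541250450915901981793033677731107179797457569371017434544096130310864896 (by decide +kernel)
               (CovZ.n1 (-27360, 1392) (by decide +kernel)
                (CovZ.n2 (-27336, 1416) (by decide +kernel)
                 (CovZ.n2 (-27336, 1392) (by decide +kernel)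
                  (CovZ.n2 (-27348, 1404) (by decide +kernel)
                   (CovZ.leaf K2_ok TB_l10618 _)
                   (CovZ.leaf K2_ok TB_l10619 _))
                  (CovZ.n1 (-27324, 1404) (by decide +kernel)
                   (CovZ.leaf K2_ok TB_l10620 _)
                   (CovZ.leaf K2_ok TB_l10621 _)))
                 (CovZ.n1 (-27360, 1416) (by decide +kernel)
                  (CovZ.n2 (-27348, 1428) (by decide +kernel)
                   (CovZ.leaf K2_ok TB_l10622 _)
                   (CovZ.leaf K2_ok TB_l10623 _))
                  (CovZ.leaf K2_ok TB_l10624 _)))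
                (CovZ.n1 (-27336, 1368) (by decide +kernel)
                 (CovZ.n2 (-27360, 1368) (by decide +kernel)
                  (CovZ.leaf K2_ok TB_l10625 _)
                  (CovZ.leaf K2_ok TB_l10626 _))
                 (CovZ.n1 (-27336, 1392) (by decide +kernel)
                  (CovZ.leaf K2_ok TB_l10627 _)
                  (CovZ.leaf K2_ok TB_l10628 _)))))))))

theorem TB_u71 : CovZ TB_M (toL (selN TB_LN 322786467896360320911938479268899174832256635193099791715907790271222802590492139873801788662128458688558306124974014464)) [0, 7, 6, 1] (-27264, 1152) (-27072, 960) (-26880, 1152) :=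
    (CovZ.n2 (-27072, 1152) (by decide +kernel)
          (CovZ.n2 (-26976, 1056) (by decide +kernel)
           (CovZ.n2 (-27072, 1056) (by decide +kernel)
            (CovZ.n2 (-27024, 1104) (by decide +kernel)
             (CovZ.n2 (-27024, 1056) (by decide +kernel)
              (CovZ.n2 (-27048, 1080) (by decide +kernel)
               (CovZ.leaf K2_ok TB_l10629 _)
               (CovZ.leaf K2_ok TB_l10630 _))
              (CovZ.n1 (-27000, 1080) (by decide +kernel)
               (CovZ.n2 (-27000, 1056) (by decide +kernel)
                (CovZ.leaf K2_ok TB_l10631 _)
                (CovZ.leaf K2_ok TB_l10632 _))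
               (CovZ.leaf K2_ok TB_l10633 _)))
             (CovZ.n1 (-27072, 1104) (by decide +kernel)
              (CovZ.n2 (-27048, 1128) (by decide +kernel)
               (CovZ.leaf K2_ok TB_l10634 _)
               (CovZ.leaf K2_ok TB_l10635 _))
              (CovZ.n1 (-27048, 1080) (by decide +kernel)
               (CovZ.leaf K2_ok TB_l10636 _)
               (CovZ.leaf K2_ok TB_l10637 _))))
            (CovZ.n1 (-27024, 1008) (by decide +kernel)
             (CovZ.n2 (-27072, 1008) (by decide +kernel)
              (CovZ.n2 (-27048, 1032) (by decide +kernel)
               (CovZ.leaf K2_ok TB_l10638 _)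
               (CovZ.leaf K2_ok TB_l10639 _))
              (CovZ.leaf K2_ok TB_l10640 _))
             (CovZ.n1 (-27024, 1056) (by decide +kernel)
              (CovZ.n2 (-27000, 1032) (by decide +kernel)
               (CovZ.leaf K2_ok TB_l10641 _)
               (CovZ.n1 (-27000, 1056) (by decide +kernel)
                (CovZ.leaf K2_ok TB_l10642 _)
                (CovZ.leaf K2_ok TB_l10643 _)))
              (CovZ.n1 (-27048, 1032) (by decide +kernel)
               (CovZ.leaf K2_ok TB_l10644 _)
               (CovZ.leaf K2_ok TB_l10645 _)))))
           (CovZ.subM 322781542589220462928137948151433509250761408537544962884073839298518425896965887482893618695706767969877342612042547200 (by decide +kernel)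
            (CovZ.n1 (-26976, 1152) (by decide +kernel)
             (CovZ.n2 (-26928, 1104) (by decide +kernel)
              (CovZ.n2 (-26976, 1104) (by decide +kernel)
               (CovZ.n2 (-26952, 1128) (by decide +kernel)
                (CovZ.n2 (-26952, 1104) (by decide +kernel)
                 (CovZ.leaf K2_ok TB_l10646 _)
                 (CovZ.leaf K2_ok TB_l10647 _))
                (CovZ.n1 (-26976, 1128) (by decide +kernel)
                 (CovZ.leaf K2_ok TB_l10648 _)
                 (CovZ.leaf K2_ok TB_l10649 _)))
               (CovZ.n1 (-26952, 1080) (by decide +kernel)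
                (CovZ.leaf K2_ok TB_l10650 _)
                (CovZ.n1 (-26952, 1104) (by decide +kernel)
                 (CovZ.leaf K2_ok TB_l10651 _)
                 (CovZ.leaf K2_ok TB_l10652 _))))
              (CovZ.subM 307828173409331868845930000844539403112098236520724758011889243930316913508594429900756087513277836654745567100928 (by decide +kernel)
               (CovZ.n1 (-26928, 1152) (by decide +kernel)
                (CovZ.n2 (-26904, 1128) (by decide +kernel)
                 (CovZ.n2 (-26928, 1128) (by decide +kernel)
                  (CovZ.leaf K2_ok TB_l10653 _)
                  (CovZ.leaf K2_ok TB_l10654 _))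
                 (CovZ.subM 1897137590064188558983823476951991019507728889220659041084359981454287622843138048 (by decide +kernel)
                  (CovZ.n1 (-26904, 1152) (by decide +kernel)
                   (CovZ.n2 (-26892, 1140) (by decide +kernel)
                    (CovZ.leaf K2_ok TB_l10655 _)
                    (CovZ.leaf K2_ok TB_l39534 _))
                   (CovZ.n1 (-26916, 1140) (by decide +kernel)
                    (CovZ.leaf K2_ok TB_l10656 _)
                    (CovZ.leaf K2_ok TB_l10657 _)))))
                (CovZ.n1 (-26952, 1128) (by decide +kernel)
                 (CovZ.n2 (-26952, 1152) (by decide +kernel)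
                  (CovZ.leaf K2_ok TB_l10658 _)
                  (CovZ.leaf K2_ok TB_l10659 _))
                 (CovZ.n1 (-26928, 1128) (by decide +kernel)
                  (CovZ.n2 (-26940, 1116) (by decide +kernel)
                   (CovZ.leaf K2_ok TB_l10660 _)
                   (CovZ.leaf K2_ok TB_l10661 _))
                  (CovZ.leaf K2_ok TB_l10662 _))))))
             (CovZ.n1 (-27024, 1104) (by decide +kernel)
              (CovZ.n2 (-27024, 1152) (by decide +kernel)
               (CovZ.n2 (-27000, 1128) (by decide +kernel)
                (CovZ.leaf K2_ok TB_l10663 _)
                (CovZ.n1 (-27000, 1152) (by decide +kernel)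
                 (CovZ.leaf K2_ok TB_l10664 _)
                 (CovZ.leaf K2_ok TB_l10665 _)))
               (CovZ.n1 (-27048, 1128) (by decide +kernel)
                (CovZ.n2 (-27048, 1152) (by decide +kernel)
                 (CovZ.leaf K2_ok TB_l10666 _)
                 (CovZ.leaf K2_ok TB_l10667 _))
                (CovZ.leaf K2_ok TB_l10668 _)))
              (CovZ.n1 (-26976, 1104) (by decide +kernel)
               (CovZ.n2 (-27000, 1080) (by decide +kernel)
                (CovZ.n2 (-27000, 1104) (by decide +kernel)
                 (CovZ.leaf K2_ok TB_l10669 _)
                 (CovZ.leaf K2_ok TB_l10670 _))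
                (CovZ.leaf K2_ok TB_l10671 _))
               (CovZ.n1 (-27000, 1128) (by decide +kernel)
                (CovZ.n2 (-26976, 1128) (by decide +kernel)
                 (CovZ.leaf K2_ok TB_l10672 _)
                 (CovZ.leaf K2_ok TB_l10673 _))
                (CovZ.n1 (-27000, 1104) (by decide +kernel)
                 (CovZ.leaf K2_ok TB_l10674 _)
                 (CovZ.leaf K2_ok TB_l10675 _))))))))
          (CovZ.n1 (-27168, 1056) (by decide +kernel)
           (CovZ.n2 (-27168, 1152) (by decide +kernel)
            (CovZ.n2 (-27120, 1104) (by decide +kernel)
             (CovZ.n2 (-27168, 1104) (by decide +kernel)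
              (CovZ.n2 (-27144, 1128) (by decide +kernel)
               (CovZ.leaf K2_ok TB_l10676 _)
               (CovZ.leaf K2_ok TB_l10677 _))
              (CovZ.n1 (-27144, 1080) (by decide +kernel)
               (CovZ.leaf K2_ok TB_l10678 _)
               (CovZ.leaf K2_ok TB_l10679 _)))
             (CovZ.subM 322781542589220462928137948160600171144148024826373956697802505201856669624605294891720177425550394528162477594220953600 (by decide +kernel)
              (CovZ.n1 (-27120, 1152) (by decide +kernel)
               (CovZ.n2 (-27096, 1128) (by decide +kernel)
                (CovZ.leaf K2_ok TB_l10680 _)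
                (CovZ.n1 (-27096, 1152) (by decide +kernel)
                 (CovZ.leaf K2_ok TB_l10681 _)
                 (CovZ.leaf K2_ok TB_l10682 _)))
               (CovZ.n1 (-27144, 1128) (by decide +kernel)
                (CovZ.leaf K2_ok TB_l10683 _)
                (CovZ.leaf K2_ok TB_l10684 _)))))
            (CovZ.n1 (-27216, 1104) (by decide +kernel)
             (CovZ.n2 (-27216, 1152) (by decide +kernel)
              (CovZ.n2 (-27192, 1128) (by decide +kernel)
               (CovZ.leaf K2_ok TB_l10685 _)
               (CovZ.leaf K2_ok TB_l10686 _))
              (CovZ.n1 (-27240, 1128) (by decide +kernel)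
               (CovZ.leaf K2_ok TB_l10687 _)
               (CovZ.leaf K2_ok TB_l10688 _)))
             (CovZ.n1 (-27168, 1104) (by decide +kernel)
              (CovZ.leaf K2_ok TB_l10689 _)
              (CovZ.leaf K2_ok TB_l10690 _))))
           (CovZ.n1 (-27072, 1056) (by decide +kernel)
            (CovZ.n2 (-27120, 1008) (by decide +kernel)
             (CovZ.n2 (-27120, 1056) (by decide +kernel)
              (CovZ.n2 (-27096, 1032) (by decide +kernel)
               (CovZ.leaf K2_ok TB_l10691 _)
               (CovZ.leaf K2_ok TB_l10692 _))
              (CovZ.leaf K2_ok TB_l10693 _))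
             (CovZ.n1 (-27072, 1008) (by decide +kernel)
              (CovZ.leaf K2_ok TB_l10694 _)
              (CovZ.n1 (-27096, 1032) (by decide +kernel)
               (CovZ.leaf K2_ok TB_l10695 _)
               (CovZ.leaf K2_ok TB_l10696 _))))
            (CovZ.n1 (-27120, 1104) (by decide +kernel)
             (CovZ.n2 (-27072, 1104) (by decide +kernel)
              (CovZ.n2 (-27096, 1080) (by decide +kernel)
               (CovZ.leaf K2_ok TB_l10697 _)
               (CovZ.leaf K2_ok TB_l10698 _))
              (CovZ.n1 (-27096, 1128) (by decide +kernel)
               (CovZ.leaf K2_ok TB_l10699 _)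
               (CovZ.leaf K2_ok TB_l10700 _)))
             (CovZ.n1 (-27120, 1056) (by decide +kernel)
              (CovZ.n2 (-27144, 1080) (by decide +kernel)
               (CovZ.leaf K2_ok TB_l10701 _)
               (CovZ.leaf K2_ok TB_l10702 _))
              (CovZ.n1 (-27096, 1080) (by decide +kernel)
               (CovZ.leaf K2_ok TB_l10703 _)
               (CovZ.leaf K2_ok TB_l10704 _)))))))

theorem TB_u72 : CovZ TB_M (toL (selN TB_LN 322786467896360320911938479268899174832256635193099791715907790271222802590492139873801788662128458688558306124974014464)) [0, 7, 6, 1] (-27072, 960) (-26880, 768) (-26880, 1152) :=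
    (CovZ.n1 (-26880, 960) (by decide +kernel)
          (CovZ.n2 (-26976, 864) (by decide +kernel)
           (CovZ.n2 (-26976, 960) (by decide +kernel)
            (CovZ.n2 (-26928, 912) (by decide +kernel)
             (CovZ.n2 (-26976, 912) (by decide +kernel)
              (CovZ.n2 (-26952, 936) (by decide +kernel)
               (CovZ.leaf K2_ok TB_l10705 _)
               (CovZ.leaf K2_ok TB_l10706 _))
              (CovZ.leaf K2_ok TB_l10707 _))
             (CovZ.n1 (-26928, 960) (by decide +kernel)
              (CovZ.n2 (-26904, 936) (by decide +kernel)
               (CovZ.leaf K2_ok TB_l10708 _)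
               (CovZ.leaf K2_ok TB_l10709 _))
              (CovZ.n1 (-26952, 936) (by decide +kernel)
               (CovZ.leaf K2_ok TB_l10710 _)
               (CovZ.leaf K2_ok TB_l10711 _))))
            (CovZ.n1 (-27024, 912) (by decide +kernel)
             (CovZ.n2 (-27024, 960) (by decide +kernel)
              (CovZ.leaf K2_ok TB_l10712 _)
              (CovZ.leaf K2_ok TB_l10713 _))
             (CovZ.n1 (-26976, 912) (by decide +kernel)
              (CovZ.leaf K2_ok TB_l10714 _)
              (CovZ.leaf K2_ok TB_l10715 _))))
           (CovZ.n1 (-26880, 864) (by decide +kernel)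
            (CovZ.n2 (-26928, 816) (by decide +kernel)
             (CovZ.n2 (-26928, 864) (by decide +kernel)
              (CovZ.leaf K2_ok TB_l10716 _)
              (CovZ.leaf K2_ok TB_l10717 _))
             (CovZ.n1 (-26880, 816) (by decide +kernel)
              (CovZ.leaf K2_ok TB_l10718 _)
              (CovZ.leaf K2_ok TB_l10719 _)))
            (CovZ.n1 (-26928, 912) (by decide +kernel)
             (CovZ.n2 (-26880, 912) (by decide +kernel)
              (CovZ.leaf K2_ok TB_l10720 _)
              (CovZ.n1 (-26904, 936) (by decide +kernel)
               (CovZ.leaf K2_ok TB_l10721 _)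
               (CovZ.leaf K2_ok TB_l10722 _)))
             (CovZ.n1 (-26928, 864) (by decide +kernel)
              (CovZ.leaf K2_ok TB_l10723 _)
              (CovZ.leaf K2_ok TB_l10724 _)))))
          (CovZ.n1 (-26976, 1056) (by decide +kernel)
           (CovZ.n2 (-26880, 1056) (by decide +kernel)
            (CovZ.n2 (-26928, 1008) (by decide +kernel)
             (CovZ.subM 322781542589220462928137948151433509311469811419598996350307023984809161102131958624795339300146469944823362545671733248 (by decide +kernel)
              (CovZ.n2 (-26928, 1056) (by decide +kernel)
               (CovZ.n2 (-26904, 1032) (by decide +kernel)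
                (CovZ.leaf K2_ok TB_l10725 _)
                (CovZ.n1 (-26904, 1056) (by decide +kernel)
                 (CovZ.leaf K2_ok TB_l10726 _)
                 (CovZ.leaf K2_ok TB_l10727 _)))
               (CovZ.n1 (-26952, 1032) (by decide +kernel)
                (CovZ.n2 (-26952, 1056) (by decide +kernel)
                 (CovZ.leaf K2_ok TB_l10728 _)
                 (CovZ.leaf K2_ok TB_l10729 _))
                (CovZ.leaf K2_ok TB_l10730 _))))
             (CovZ.n1 (-26880, 1008) (by decide +kernel)
              (CovZ.n2 (-26904, 984) (by decide +kernel)
               (CovZ.n2 (-26904, 1008) (by decide +kernel)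
                (CovZ.leaf K2_ok TB_l10731 _)
                (CovZ.leaf K2_ok TB_l10732 _))
               (CovZ.leaf K2_ok TB_l10733 _))
              (CovZ.n1 (-26904, 1032) (by decide +kernel)
               (CovZ.leaf K2_ok TB_l10734 _)
               (CovZ.n1 (-26904, 1008) (by decide +kernel)
                (CovZ.leaf K2_ok TB_l10735 _)
                (CovZ.leaf K2_ok TB_l10736 _)))))
            (CovZ.subM 322781542589220462928137948151433509250761408537544962884073839298494480654139857969481769523407544388883299813258428416 (by decide +kernel)
             (CovZ.n1 (-26928, 1104) (by decide +kernel)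
              (CovZ.n2 (-26880, 1104) (by decide +kernel)
               (CovZ.n2 (-26904, 1080) (by decide +kernel)
                (CovZ.n2 (-26904, 1104) (by decide +kernel)
                 (CovZ.n2 (-26892, 1092) (by decide +kernel)
                  (CovZ.leaf K2_ok TB_l10737 _)
                  (CovZ.leaf K2_ok TB_l10738 _))
                 (CovZ.leaf K2_ok TB_l10739 _))
                (CovZ.n1 (-26880, 1080) (by decide +kernel)
                 (CovZ.leaf K2_ok TB_l10740 _)
                 (CovZ.leaf K2_ok TB_l10741 _)))
               (CovZ.subM 307828173409331868845930000844539403112098236520724758011889243930316913508594429900756087513277836654745567100928 (by decide +kernel)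
                (CovZ.n1 (-26904, 1128) (by decide +kernel)
                 (CovZ.subM 307828173409331868845930000782373998560874906250854399653511643108106850819897735112020123588542878693923521298432 (by decide +kernel)
                  (CovZ.n2 (-26880, 1128) (by decide +kernel)
                   (CovZ.n2 (-26892, 1116) (by decide +kernel)
                    (CovZ.leaf K2_ok TB_l10742 _)
                    (CovZ.leaf K2_ok TB_l10743 _))
                   (CovZ.n1 (-26892, 1140) (by decide +kernel)
                    (CovZ.leaf K2_ok TB_l39535 _)
                    (CovZ.leaf K2_ok TB_l10744 _))))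
                 (CovZ.n1 (-26904, 1104) (by decide +kernel)
                  (CovZ.leaf K2_ok TB_l10745 _)
                  (CovZ.n1 (-26892, 1116) (by decide +kernel)
                   (CovZ.leaf K2_ok TB_l10746 _)
                   (CovZ.leaf K2_ok TB_l10747 _))))))
              (CovZ.n1 (-26928, 1056) (by decide +kernel)
               (CovZ.n2 (-26952, 1080) (by decide +kernel)
                (CovZ.n2 (-26928, 1080) (by decide +kernel)
                 (CovZ.leaf K2_ok TB_l10748 _)
                 (CovZ.leaf K2_ok TB_l10749 _))
                (CovZ.n1 (-26952, 1056) (by decide +kernel)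
                 (CovZ.leaf K2_ok TB_l10750 _)
                 (CovZ.leaf K2_ok TB_l10751 _)))
               (CovZ.n1 (-26904, 1080) (by decide +kernel)
                (CovZ.n2 (-26904, 1056) (by decide +kernel)
                 (CovZ.leaf K2_ok TB_l10752 _)
                 (CovZ.leaf K2_ok TB_l10753 _))
                (CovZ.n1 (-26928, 1080) (by decide +kernel)
                 (CovZ.leaf K2_ok TB_l10754 _)
                 (CovZ.leaf K2_ok TB_l10755 _)))))))
           (CovZ.n1 (-26976, 960) (by decide +kernel)
            (CovZ.n2 (-27024, 1008) (by decide +kernel)
             (CovZ.n2 (-26976, 1008) (by decide +kernel)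
              (CovZ.leaf K2_ok TB_l10756 _)
              (CovZ.n1 (-27000, 1032) (by decide +kernel)
               (CovZ.leaf K2_ok TB_l10757 _)
               (CovZ.leaf K2_ok TB_l10758 _)))
             (CovZ.n1 (-27024, 960) (by decide +kernel)
              (CovZ.leaf K2_ok TB_l10759 _)
              (CovZ.leaf K2_ok TB_l10760 _)))
            (CovZ.n1 (-26928, 1008) (by decide +kernel)
             (CovZ.n2 (-26928, 960) (by decide +kernel)
              (CovZ.n2 (-26952, 984) (by decide +kernel)
               (CovZ.leaf K2_ok TB_l10761 _)
               (CovZ.leaf K2_ok TB_l10762 _))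
              (CovZ.n1 (-26904, 984) (by decide +kernel)
               (CovZ.n2 (-26904, 960) (by decide +kernel)
                (CovZ.leaf K2_ok TB_l10763 _)
                (CovZ.leaf K2_ok TB_l10764 _))
               (CovZ.leaf K2_ok TB_l10765 _)))
             (CovZ.n1 (-26976, 1008) (by decide +kernel)
              (CovZ.n2 (-26952, 1032) (by decide +kernel)
               (CovZ.leaf K2_ok TB_l10766 _)
               (CovZ.leaf K2_ok TB_l10767 _))
              (CovZ.n1 (-26952, 984) (by decide +kernel)
               (CovZ.leaf K2_ok TB_l10768 _)
               (CovZ.leaf K2_ok TB_l10769 _)))))))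

theorem TB_u73 : CovZ TB_M (toL (selN TB_LN 322786467896360320911938479268899174832256635193099791715907790271222802590492139873801788662128458688558306124974014464)) [0, 7, 6, 1] (-27264, 1152) (-27072, 1152) (-27072, 1344) :=
    (CovZ.n2 (-27168, 1248) (by decide +kernel)
           (CovZ.subM 307828320193243292210506871251825104779943460266943136954085739115276535946816190768171843465522182784905463726080 (by decide +kernel)
            (CovZ.n2 (-27072, 1248) (by decide +kernel)
             (CovZ.n2 (-27120, 1200) (by decide +kernel)
              (CovZ.n2 (-27120, 1248) (by decide +kernel)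
               (CovZ.n2 (-27096, 1224) (by decide +kernel)
                (CovZ.n2 (-27120, 1224) (by decide +kernel)
                 (CovZ.n2 (-27108, 1236) (by decide +kernel)
                  (CovZ.leaf K2_ok TB_l10770 _)
                  (CovZ.leaf K2_ok TB_l10771 _))
                 (CovZ.leaf K2_ok TB_l10772 _))
                (CovZ.subM 62165404551223330269870358257943997001265996499559734801953108198385261751650456961024 (by decide +kernel)
                 (CovZ.n1 (-27096, 1248) (by decide +kernel)
                  (CovZ.n2 (-27084, 1236) (by decide +kernel)
                   (CovZ.leaf K2_ok TB_l10773 _)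
                   (CovZ.leaf K2_ok TB_l10774 _))
                  (CovZ.n1 (-27108, 1236) (by decide +kernel)
                   (CovZ.leaf K2_ok TB_l10775 _)
                   (CovZ.leaf K2_ok TB_l10776 _)))))
               (CovZ.n1 (-27144, 1224) (by decide +kernel)
                (CovZ.n2 (-27144, 1248) (by decide +kernel)
                 (CovZ.leaf K2_ok TB_l10777 _)
                 (CovZ.leaf K2_ok TB_l10778 _))
                (CovZ.n1 (-27120, 1224) (by decide +kernel)
                 (CovZ.leaf K2_ok TB_l10779 _)
                 (CovZ.leaf K2_ok TB_l10780 _))))
              (CovZ.n1 (-27072, 1200) (by decide +kernel)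
               (CovZ.n2 (-27096, 1176) (by decide +kernel)
                (CovZ.n2 (-27096, 1200) (by decide +kernel)
                 (CovZ.leaf K2_ok TB_l10781 _)
                 (CovZ.leaf K2_ok TB_l10782 _))
                (CovZ.leaf K2_ok TB_l10783 _))
               (CovZ.n1 (-27096, 1224) (by decide +kernel)
                (CovZ.n2 (-27072, 1224) (by decide +kernel)
                 (CovZ.leaf K2_ok TB_l10784 _)
                 (CovZ.n1 (-27084, 1236) (by decide +kernel)
                  (CovZ.leaf K2_ok TB_l10785 _)
                  (CovZ.leaf K2_ok TB_l10786 _)))
                (CovZ.n1 (-27096, 1200) (by decide +kernel)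
                 (CovZ.leaf K2_ok TB_l10787 _)
                 (CovZ.leaf K2_ok TB_l10788 _)))))
             (CovZ.n1 (-27120, 1296) (by decide +kernel)
              (CovZ.subM 62165404551223330269449109091269744309231498356589382288137720885495074404380283240448 (by decide +kernel)
               (CovZ.n2 (-27072, 1296) (by decide +kernel)
                (CovZ.n2 (-27096, 1272) (by decide +kernel)
                 (CovZ.n2 (-27096, 1296) (by decide +kernel)
                  (CovZ.n2 (-27084, 1284) (by decide +kernel)
                   (CovZ.leaf K2_ok TB_l10789 _)
                   (CovZ.badM (by decide +kernel)))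
                  (CovZ.n1 (-27108, 1284) (by decide +kernel)
                   (CovZ.leaf K2_ok TB_l10790 _)
                   (CovZ.leaf K2_ok TB_l10791 _)))
                 (CovZ.n1 (-27072, 1272) (by decide +kernel)
                  (CovZ.n2 (-27084, 1260) (by decide +kernel)
                   (CovZ.leaf K2_ok TB_l10792 _)
                   (CovZ.leaf K2_ok TB_l10793 _))
                  (CovZ.n1 (-27084, 1284) (by decide +kernel)
                   (CovZ.badM (by decide +kernel))
                   (CovZ.leaf K2_ok TB_l10794 _))))
                (CovZ.n1 (-27096, 1320) (by decide +kernel)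
                 (CovZ.badM (by decide +kernel))
                 (CovZ.n1 (-27096, 1296) (by decide +kernel)
                  (CovZ.n2 (-27108, 1308) (by decide +kernel)
                   (CovZ.badM (by decide +kernel))
                   (CovZ.n1 (-27108, 1296) (by decide +kernel)
                    (CovZ.n2 (-27114, 1302) (by decide +kernel)
                     (CovZ.badM (by decide +kernel))
                     (CovZ.leaf K2_ok TB_l39538 _))
                    (CovZ.badM (by decide +kernel))))
                  (CovZ.badM (by decide +kernel))))))
              (CovZ.n1 (-27120, 1248) (by decide +kernel)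
               (CovZ.n2 (-27144, 1272) (by decide +kernel)
                (CovZ.n2 (-27120, 1272) (by decide +kernel)
                 (CovZ.leaf K2_ok TB_l10795 _)
                 (CovZ.leaf K2_ok TB_l10796 _))
                (CovZ.n1 (-27144, 1248) (by decide +kernel)
                 (CovZ.leaf K2_ok TB_l10797 _)
                 (CovZ.leaf K2_ok TB_l10798 _)))
               (CovZ.subM 62165404551223330269870358257943973056023170470046322952780808974804267708851672842240 (by decide +kernel)
                (CovZ.n1 (-27096, 1272) (by decide +kernel)
                 (CovZ.n2 (-27096, 1248) (by decide +kernel)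
                  (CovZ.n2 (-27108, 1260) (by decide +kernel)
                   (CovZ.leaf K2_ok TB_l10799 _)
                   (CovZ.leaf K2_ok TB_l10800 _))
                  (CovZ.leaf K2_ok TB_l10801 _))
                 (CovZ.n1 (-27120, 1272) (by decide +kernel)
                  (CovZ.n2 (-27108, 1284) (by decide +kernel)
                   (CovZ.leaf K2_ok TB_l10802 _)
                   (CovZ.leaf K2_ok TB_l10803 _))
                  (CovZ.n1 (-27108, 1260) (by decide +kernel)
                   (CovZ.leaf K2_ok TB_l10804 _)
                   (CovZ.leaf K2_ok TB_l10805 _)))))))))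
           (CovZ.n1 (-27168, 1152) (by decide +kernel)
            (CovZ.n2 (-27216, 1200) (by decide +kernel)
             (CovZ.subM 322781542589220462928137948151433509250642837438165951086796267018555413515868828303398741363593791754158823509606793216 (by decide +kernel)
              (CovZ.n2 (-27168, 1200) (by decide +kernel)
               (CovZ.n2 (-27192, 1176) (by decide +kernel)
                (CovZ.leaf K2_ok TB_l10806 _)
                (CovZ.leaf K2_ok TB_l10807 _))
               (CovZ.n1 (-27192, 1224) (by decide +kernel)
                (CovZ.n2 (-27168, 1224) (by decide +kernel)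
                 (CovZ.leaf K2_ok TB_l10808 _)
                 (CovZ.leaf K2_ok TB_l10809 _))
                (CovZ.leaf K2_ok TB_l10810 _))))
             (CovZ.n1 (-27216, 1152) (by decide +kernel)
              (CovZ.n2 (-27240, 1176) (by decide +kernel)
               (CovZ.leaf K2_ok TB_l10811 _)
               (CovZ.leaf K2_ok TB_l10812 _))
              (CovZ.n1 (-27192, 1176) (by decide +kernel)
               (CovZ.leaf K2_ok TB_l10813 _)
               (CovZ.leaf K2_ok TB_l10814 _))))
            (CovZ.subM 322781542589220462928137948151433509250642837438165951086796267018555413515868828303398741363593791754158823509606793216 (by decide +kernel)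
             (CovZ.n1 (-27120, 1200) (by decide +kernel)
              (CovZ.n2 (-27120, 1152) (by decide +kernel)
               (CovZ.n2 (-27144, 1176) (by decide +kernel)
                (CovZ.leaf K2_ok TB_l10815 _)
                (CovZ.leaf K2_ok TB_l10816 _))
               (CovZ.n1 (-27096, 1176) (by decide +kernel)
                (CovZ.leaf K2_ok TB_l10817 _)
                (CovZ.leaf K2_ok TB_l10818 _)))
              (CovZ.n1 (-27168, 1200) (by decide +kernel)
               (CovZ.n2 (-27144, 1224) (by decide +kernel)
                (CovZ.leaf K2_ok TB_l10819 _)
                (CovZ.leaf K2_ok TB_l10820 _))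
               (CovZ.n1 (-27144, 1176) (by decide +kernel)
                (CovZ.leaf K2_ok TB_l10821 _)
                (CovZ.n1 (-27144, 1200) (by decide +kernel)
                 (CovZ.leaf K2_ok TB_l10822 _)
                 (CovZ.leaf K2_ok TB_l10823 _))))))))

theorem TB_u74 : CovZ TB_M (toL (selN TB_LN 322786467896360320911938479268899174832256635193099791715907790271222802590492139873801788662128458688558306124974014464)) [0, 7, 6, 1] (-27072, 1152) (-26880, 1152) (-27072, 1344) :=
    (CovZ.subM 307828320193243292210506871251825223351042839278740414727232957660031417448740947188149281757013275526857003892736 (by decide +kernel)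
           (CovZ.n1 (-26976, 1248) (by decide +kernel)
            (CovZ.n2 (-26976, 1152) (by decide +kernel)
             (CovZ.n2 (-27024, 1200) (by decide +kernel)
              (CovZ.subM 62167301688813394458416178044962379343948264474988496656954330671441647400366477672448 (by decide +kernel)
               (CovZ.n2 (-26976, 1200) (by decide +kernel)
                (CovZ.n2 (-27000, 1176) (by decide +kernel)
                 (CovZ.n2 (-27000, 1200) (by decide +kernel)
                  (CovZ.leaf K2_ok TB_l10824 _)
                  (CovZ.n1 (-27012, 1188) (by decide +kernel)
                   (CovZ.leaf K2_ok TB_l10825 _)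
                   (CovZ.leaf K2_ok TB_l10826 _)))
                 (CovZ.n1 (-26976, 1176) (by decide +kernel)
                  (CovZ.leaf K2_ok TB_l10827 _)
                  (CovZ.n1 (-26988, 1188) (by decide +kernel)
                   (CovZ.leaf K2_ok TB_l10828 _)
                   (CovZ.leaf K2_ok TB_l10829 _))))
                (CovZ.n1 (-27000, 1224) (by decide +kernel)
                 (CovZ.badM (by decide +kernel))
                 (CovZ.n1 (-27000, 1200) (by decide +kernel)
                  (CovZ.n2 (-27012, 1212) (by decide +kernel)
                   (CovZ.leaf K2_ok TB_l10830 _)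
                   (CovZ.leaf K2_ok TB_l10831 _))
                  (CovZ.n1 (-26988, 1212) (by decide +kernel)
                   (CovZ.leaf K2_ok TB_l10832 _)
                   (CovZ.leaf K2_ok TB_l10833 _))))))
              (CovZ.n1 (-27024, 1152) (by decide +kernel)
               (CovZ.n2 (-27048, 1176) (by decide +kernel)
                (CovZ.n2 (-27024, 1176) (by decide +kernel)
                 (CovZ.leaf K2_ok TB_l10834 _)
                 (CovZ.n1 (-27036, 1188) (by decide +kernel)
                  (CovZ.leaf K2_ok TB_l10835 _)
                  (CovZ.leaf K2_ok TB_l10836 _)))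
                (CovZ.n1 (-27048, 1152) (by decide +kernel)
                 (CovZ.leaf K2_ok TB_l10837 _)
                 (CovZ.leaf K2_ok TB_l10838 _)))
               (CovZ.subM 307828173409331868845930000844539284540998857508927480238742049330804858036183085329950948445367737955592811053056 (by decide +kernel)
                (CovZ.n1 (-27000, 1176) (by decide +kernel)
                 (CovZ.n2 (-27000, 1152) (by decide +kernel)
                  (CovZ.leaf K2_ok TB_l10839 _)
                  (CovZ.leaf K2_ok TB_l10840 _))
                 (CovZ.n1 (-27024, 1176) (by decide +kernel)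
                  (CovZ.leaf K2_ok TB_l10841 _)
                  (CovZ.leaf K2_ok TB_l10842 _))))))
             (CovZ.subM 62167420259912773470213455818109597888703145976913253076931768962932740142318017839104 (by decide +kernel)
              (CovZ.n1 (-26928, 1200) (by decide +kernel)
               (CovZ.n2 (-26928, 1152) (by decide +kernel)
                (CovZ.n2 (-26952, 1176) (by decide +kernel)
                 (CovZ.n2 (-26928, 1176) (by decide +kernel)
                  (CovZ.n2 (-26940, 1164) (by decide +kernel)
                   (CovZ.leaf K2_ok TB_l39540 _)
                   (CovZ.leaf K2_ok TB_l39541 _))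
                  (CovZ.badM (by decide +kernel)))
                 (CovZ.n1 (-26952, 1152) (by decide +kernel)
                  (CovZ.n2 (-26964, 1164) (by decide +kernel)
                   (CovZ.leaf K2_ok TB_l10843 _)
                   (CovZ.leaf K2_ok TB_l10844 _))
                  (CovZ.leaf K2_ok TB_l10845 _)))
                (CovZ.subM 1897137590064188558983823476951991019507728889220659041084359981454287622809583616 (by decide +kernel)
                 (CovZ.n1 (-26904, 1176) (by decide +kernel)
                  (CovZ.n2 (-26904, 1152) (by decide +kernel)
                   (CovZ.n2 (-26916, 1164) (by decide +kernel)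
                    (CovZ.leaf K2_ok TB_l39542 _)
                    (CovZ.leaf K2_ok TB_l39543 _))
                   (CovZ.n1 (-26892, 1164) (by decide +kernel)
                    (CovZ.n2 (-26892, 1152) (by decide +kernel)
                     (CovZ.leaf K2_ok TB_l39544 _)
                     (CovZ.n1 (-26886, 1158) (by decide +kernel)
                      (CovZ.n2 (-26886, 1152) (by decide +kernel)
                       (CovZ.n2 (-26889, 1155) (by decide +kernel)
                        (CovZ.leaf K2_ok TB_l39545 _)
                        (CovZ.leaf K2_ok TB_l39546 _))
                       (CovZ.leaf K2_ok TB_l39547 _))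
                      (CovZ.n1 (-26892, 1158) (by decide +kernel)
                       (CovZ.leaf K2_ok TB_l39548 _)
                       (CovZ.leaf K2_ok TB_l39549 _))))
                    (CovZ.leaf K2_ok TB_l39550 _)))
                  (CovZ.n1 (-26928, 1176) (by decide +kernel)
                   (CovZ.badM (by decide +kernel))
                   (CovZ.n1 (-26916, 1164) (by decide +kernel)
                    (CovZ.leaf K2_ok TB_l39551 _)
                    (CovZ.leaf K2_ok TB_l39552 _))))))
               (CovZ.n1 (-26976, 1200) (by decide +kernel)
                (CovZ.badM (by decide +kernel))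
                (CovZ.n1 (-26952, 1176) (by decide +kernel)
                 (CovZ.n2 (-26976, 1176) (by decide +kernel)
                  (CovZ.n2 (-26964, 1188) (by decide +kernel)
                   (CovZ.leaf K2_ok TB_l10846 _)
                   (CovZ.leaf K2_ok TB_l10847 _))
                  (CovZ.leaf K2_ok TB_l10848 _))
                 (CovZ.badM (by decide +kernel)))))))
            (CovZ.n1 (-27072, 1248) (by decide +kernel)
             (CovZ.subM 62165404551223330269449109091269744309231498356589382288137720885495074404380283240448 (by decide +kernel)
              (CovZ.n2 (-27024, 1296) (by decide +kernel)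
               (CovZ.n2 (-27024, 1248) (by decide +kernel)
                (CovZ.n2 (-27048, 1272) (by decide +kernel)
                 (CovZ.badM (by decide +kernel))
                 (CovZ.n1 (-27048, 1248) (by decide +kernel)
                  (CovZ.n2 (-27060, 1260) (by decide +kernel)
                   (CovZ.badM (by decide +kernel))
                   (CovZ.leaf K2_ok TB_l10851 _))
                  (CovZ.badM (by decide +kernel))))
                (CovZ.badM (by decide +kernel)))
               (CovZ.n1 (-27072, 1296) (by decide +kernel)
                (CovZ.badM (by decide +kernel))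
                (CovZ.n1 (-27048, 1272) (by decide +kernel)
                 (CovZ.n2 (-27072, 1272) (by decide +kernel)
                  (CovZ.badM (by decide +kernel))
                  (CovZ.n1 (-27060, 1260) (by decide +kernel)
                   (CovZ.leaf K2_ok TB_l10854 _)
                   (CovZ.badM (by decide +kernel))))
                 (CovZ.badM (by decide +kernel))))))
             (CovZ.n1 (-27024, 1200) (by decide +kernel)
              (CovZ.n2 (-27072, 1200) (by decide +kernel)
               (CovZ.subM 62167301688813394458416178145396007110135156696361127428276993329079334511791029878784 (by decide +kernel)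
                (CovZ.n2 (-27048, 1224) (by decide +kernel)
                 (CovZ.n2 (-27048, 1200) (by decide +kernel)
                  (CovZ.n2 (-27060, 1212) (by decide +kernel)
                   (CovZ.leaf K2_ok TB_l10856 _)
                   (CovZ.leaf K2_ok TB_l10857 _))
                  (CovZ.n1 (-27036, 1212) (by decide +kernel)
                   (CovZ.leaf K2_ok TB_l10858 _)
                   (CovZ.leaf K2_ok TB_l10859 _)))
                 (CovZ.n1 (-27072, 1224) (by decide +kernel)
                  (CovZ.n2 (-27060, 1236) (by decide +kernel)
                   (CovZ.leaf K2_ok TB_l10860 _)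
                   (CovZ.leaf K2_ok TB_l10861 _))
                  (CovZ.n1 (-27060, 1212) (by decide +kernel)
                   (CovZ.leaf K2_ok TB_l10862 _)
                   (CovZ.leaf K2_ok TB_l10863 _)))))
               (CovZ.n1 (-27048, 1176) (by decide +kernel)
                (CovZ.n2 (-27072, 1176) (by decide +kernel)
                 (CovZ.leaf K2_ok TB_l10864 _)
                 (CovZ.leaf K2_ok TB_l10865 _))
                (CovZ.n1 (-27048, 1200) (by decide +kernel)
                 (CovZ.leaf K2_ok TB_l10866 _)
                 (CovZ.leaf K2_ok TB_l10867 _))))
              (CovZ.subM 62165404551223330269870358257943997001265996499559734801953108198385261751650456961024 (by decide +kernel)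
               (CovZ.n1 (-27024, 1248) (by decide +kernel)
                (CovZ.n2 (-27000, 1224) (by decide +kernel)
                 (CovZ.n2 (-27024, 1224) (by decide +kernel)
                  (CovZ.badM (by decide +kernel))
                  (CovZ.n1 (-27012, 1212) (by decide +kernel)
                   (CovZ.leaf K2_ok TB_l10868 _)
                   (CovZ.n1 (-27012, 1224) (by decide +kernel)
                    (CovZ.leaf K2_ok TB_l39558 _)
                    (CovZ.leaf K2_ok TB_l39559 _))))
                 (CovZ.badM (by decide +kernel)))
                (CovZ.n1 (-27048, 1224) (by decide +kernel)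
                 (CovZ.n2 (-27048, 1248) (by decide +kernel)
                  (CovZ.n2 (-27036, 1236) (by decide +kernel)
                   (CovZ.leaf K2_ok TB_l10869 _)
                   (CovZ.badM (by decide +kernel)))
                  (CovZ.n1 (-27060, 1236) (by decide +kernel)
                   (CovZ.leaf K2_ok TB_l10871 _)
                   (CovZ.leaf K2_ok TB_l10872 _)))
                 (CovZ.n1 (-27024, 1224) (by decide +kernel)
                  (CovZ.n2 (-27036, 1212) (by decide +kernel)
                   (CovZ.leaf K2_ok TB_l10873 _)
                   (CovZ.leaf K2_ok TB_l10874 _))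
                  (CovZ.n1 (-27036, 1236) (by decide +kernel)
                   (CovZ.badM (by decide +kernel))
                   (CovZ.leaf K2_ok TB_l10875 _))))))))))

theorem TB_u75 : CovZ TB_M (toL (selN TB_LN 322786467896360320911938479268899174832256635193099791715907790271222802590492139873801788662128458688558306124974014464)) [0, 7, 6, 1] (-27648, 1536) (-27264, 1152) (-26880, 1536) :=
    (CovZ.n2 (-27264, 1536) (by decide +kernel)
        (CovZ.n2 (-27072, 1344) (by decide +kernel)
         (CovZ.n2 (-27264, 1344) (by decide +kernel)
          (CovZ.subM 62165404551223330270712856591292430549606514691515686411331969738008660598886160662528 (by decide +kernel)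
           (CovZ.n2 (-27168, 1440) (by decide +kernel)
            (CovZ.n2 (-27168, 1344) (by decide +kernel)
             (CovZ.n2 (-27216, 1392) (by decide +kernel)
              (CovZ.badM (by decide +kernel))
              (CovZ.n1 (-27216, 1344) (by decide +kernel)
               (CovZ.n2 (-27240, 1368) (by decide +kernel)
                (CovZ.n2 (-27216, 1368) (by decide +kernel)
                 (CovZ.n2 (-27228, 1356) (by decide +kernel)
                  (CovZ.leaf K2_ok TB_l10334 _)
                  (CovZ.leaf K2_ok TB_l10335 _))
                 (CovZ.n1 (-27228, 1380) (by decide +kernel)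
                  (CovZ.leaf K2_ok TB_l10336 _)
                  (CovZ.leaf K2_ok TB_l10337 _)))
                (CovZ.n1 (-27240, 1344) (by decide +kernel)
                 (CovZ.leaf K2_ok TB_l10338 _)
                 (CovZ.leaf K2_ok TB_l10339 _)))
               (CovZ.n1 (-27192, 1368) (by decide +kernel)
                (CovZ.n2 (-27192, 1344) (by decide +kernel)
                 (CovZ.n2 (-27204, 1356) (by decide +kernel)
                  (CovZ.leaf K2_ok TB_l10340 _)
                  (CovZ.leaf K2_ok TB_l10341 _))
                 (CovZ.leaf K2_ok TB_l10342 _))
                (CovZ.n1 (-27216, 1368) (by decide +kernel)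
                 (CovZ.n2 (-27204, 1380) (by decide +kernel)
                  (CovZ.leaf K2_ok TB_l10343 _)
                  (CovZ.leaf K2_ok TB_l10344 _))
                 (CovZ.leaf K2_ok TB_l10345 _)))))
             (CovZ.badM (by decide +kernel)))
            (CovZ.n1 (-27264, 1440) (by decide +kernel)
             (CovZ.badM (by decide +kernel))
             (CovZ.n1 (-27216, 1392) (by decide +kernel)
              (CovZ.n2 (-27264, 1392) (by decide +kernel)
               (CovZ.n2 (-27240, 1416) (by decide +kernel)
                (CovZ.n2 (-27240, 1392) (by decide +kernel)
                 (CovZ.n2 (-27252, 1404) (by decide +kernel)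
                  (CovZ.leaf K2_ok TB_l39496 _)
                  (CovZ.leaf K2_ok TB_l10346 _))
                 (CovZ.subM 62165404551223330269449109091269744309231498356589382288137720885495074404380249686016 (by decide +kernel)
                  (CovZ.n1 (-27228, 1404) (by decide +kernel)
                   (CovZ.n2 (-27228, 1392) (by decide +kernel)
                    (CovZ.n2 (-27234, 1398) (by decide +kernel)
                     (CovZ.leaf K2_ok TB_l39497 _)
                     (CovZ.leaf K2_ok TB_l39498 _))
                    (CovZ.leaf K2_ok TB_l39499 _))
                   (CovZ.leaf K2_ok TB_l39500 _))))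
                (CovZ.n1 (-27264, 1416) (by decide +kernel)
                 (CovZ.subM 62165404551223330270291607424618201802814842578058745746688881648699467294414737506304 (by decide +kernel)
                  (CovZ.n2 (-27252, 1428) (by decide +kernel)
                   (CovZ.n2 (-27252, 1416) (by decide +kernel)
                    (CovZ.n2 (-27258, 1422) (by decide +kernel)
                     (CovZ.badM (by decide +kernel))
                     (CovZ.leaf K2_ok TB_l39501 _))
                    (CovZ.badM (by decide +kernel)))
                   (CovZ.leaf K2_ok TB_l39502 _)))
                 (CovZ.n1 (-27252, 1404) (by decide +kernel)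
                  (CovZ.leaf K2_ok TB_l10347 _)
                  (CovZ.leaf K2_ok TB_l39503 _))))
               (CovZ.n1 (-27240, 1368) (by decide +kernel)
                (CovZ.n2 (-27264, 1368) (by decide +kernel)
                 (CovZ.leaf K2_ok TB_l10348 _)
                 (CovZ.leaf K2_ok TB_l10349 _))
                (CovZ.n1 (-27240, 1392) (by decide +kernel)
                 (CovZ.leaf K2_ok TB_l10350 _)
                 (CovZ.n1 (-27252, 1380) (by decide +kernel)
                  (CovZ.leaf K2_ok TB_l10351 _)
                  (CovZ.leaf K2_ok TB_l10352 _)))))
              (CovZ.subM 842498333348457493583344221469363458551160763204392890034487820288 (by decide +kernel)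
               (CovZ.n1 (-27216, 1440) (by decide +kernel)
                (CovZ.badM (by decide +kernel))
                (CovZ.n1 (-27240, 1416) (by decide +kernel)
                 (CovZ.n2 (-27240, 1440) (by decide +kernel)
                  (CovZ.badM (by decide +kernel))
                  (CovZ.n1 (-27252, 1428) (by decide +kernel)
                   (CovZ.n2 (-27252, 1440) (by decide +kernel)
                    (CovZ.badM (by decide +kernel))
                    (CovZ.n1 (-27258, 1434) (by decide +kernel)
                     (CovZ.badM (by decide +kernel))
                     (CovZ.badM (by decide +kernel))))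
                   (CovZ.badM (by decide +kernel))))
                 (CovZ.badM (by decide +kernel)))))))))
          (CovZ.n1 (-27168, 1248) (by decide +kernel)
           (CovZ.n2 (-27264, 1248) (by decide +kernel)
            (CovZ.subM 307828320193243292210506871251825104779943460267785635287434196608859880168285554226723004228726575674939951546368 (by decide +kernel)
             (CovZ.n2 (-27216, 1296) (by decide +kernel)
              (CovZ.n2 (-27216, 1248) (by decide +kernel)
               (CovZ.n2 (-27240, 1272) (by decide +kernel)
                (CovZ.leaf K2_ok TB_l10353 _)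
                (CovZ.n1 (-27240, 1248) (by decide +kernel)
                 (CovZ.leaf K2_ok TB_l10354 _)
                 (CovZ.leaf K2_ok TB_l10355 _)))
               (CovZ.n1 (-27192, 1272) (by decide +kernel)
                (CovZ.n2 (-27192, 1248) (by decide +kernel)
                 (CovZ.leaf K2_ok TB_l10356 _)
                 (CovZ.leaf K2_ok TB_l10357 _))
                (CovZ.n1 (-27216, 1272) (by decide +kernel)
                 (CovZ.leaf K2_ok TB_l10358 _)
                 (CovZ.leaf K2_ok TB_l10359 _))))
              (CovZ.n1 (-27264, 1296) (by decide +kernel)
               (CovZ.n2 (-27240, 1320) (by decide +kernel)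
                (CovZ.n2 (-27240, 1296) (by decide +kernel)
                 (CovZ.leaf K2_ok TB_l10360 _)
                 (CovZ.leaf K2_ok TB_l10361 _))
                (CovZ.leaf K2_ok TB_l10362 _))
               (CovZ.n1 (-27240, 1272) (by decide +kernel)
                (CovZ.leaf K2_ok TB_l10363 _)
                (CovZ.n1 (-27240, 1296) (by decide +kernel)
                 (CovZ.leaf K2_ok TB_l10364 _)
                 (CovZ.leaf K2_ok TB_l10365 _))))))
            (CovZ.n1 (-27216, 1200) (by decide +kernel)
             (CovZ.n2 (-27264, 1200) (by decide +kernel)
              (CovZ.n2 (-27240, 1224) (by decide +kernel)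
               (CovZ.leaf K2_ok TB_l10366 _)
               (CovZ.leaf K2_ok TB_l10367 _))
              (CovZ.n1 (-27240, 1176) (by decide +kernel)
               (CovZ.leaf K2_ok TB_l10368 _)
               (CovZ.leaf K2_ok TB_l10369 _)))
             (CovZ.subM 307828356889221148051651057024959429613334513012825462180799431954347107900444056530754737326029063817047501176832 (by decide +kernel)
              (CovZ.n1 (-27216, 1248) (by decide +kernel)
               (CovZ.n2 (-27192, 1224) (by decide +kernel)
                (CovZ.leaf K2_ok TB_l10370 _)
                (CovZ.n1 (-27192, 1248) (by decide +kernel)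
                 (CovZ.leaf K2_ok TB_l10371 _)
                 (CovZ.leaf K2_ok TB_l10372 _)))
               (CovZ.n1 (-27240, 1224) (by decide +kernel)
                (CovZ.leaf K2_ok TB_l10373 _)
                (CovZ.leaf K2_ok TB_l10374 _))))))
           (CovZ.subM 146783911423364576743154702703884787541250872165068656045725712229247427891036017250622617734583946271784960 (by decide +kernel)
            (CovZ.n1 (-27168, 1344) (by decide +kernel)
             (CovZ.n2 (-27120, 1296) (by decide +kernel)
              (CovZ.n2 (-27168, 1296) (by decide +kernel)
               (CovZ.subM 62165404551223330269870358257943973056023170470046322952780808974804267708851672842240 (by decide +kernel)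
                (CovZ.n2 (-27144, 1320) (by decide +kernel)
                 (CovZ.n2 (-27144, 1296) (by decide +kernel)
                  (CovZ.leaf K2_ok TB_l10375 _)
                  (CovZ.n1 (-27132, 1308) (by decide +kernel)
                   (CovZ.leaf K2_ok TB_l10376 _)
                   (CovZ.leaf K2_ok TB_l10377 _)))
                 (CovZ.n1 (-27168, 1320) (by decide +kernel)
                  (CovZ.n2 (-27156, 1332) (by decide +kernel)
                   (CovZ.leaf K2_ok TB_l10378 _)
                   (CovZ.leaf K2_ok TB_l10379 _))
                  (CovZ.n1 (-27156, 1308) (by decide +kernel)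
                   (CovZ.leaf K2_ok TB_l10380 _)
                   (CovZ.leaf K2_ok TB_l10381 _)))))
               (CovZ.n1 (-27144, 1272) (by decide +kernel)
                (CovZ.n2 (-27168, 1272) (by decide +kernel)
                 (CovZ.leaf K2_ok TB_l10382 _)
                 (CovZ.leaf K2_ok TB_l10383 _))
                (CovZ.n1 (-27144, 1296) (by decide +kernel)
                 (CovZ.n2 (-27132, 1284) (by decide +kernel)
                  (CovZ.leaf K2_ok TB_l10384 _)
                  (CovZ.leaf K2_ok TB_l10385 _))
                 (CovZ.leaf K2_ok TB_l10386 _))))
              (CovZ.subM 62165404551223330269449109091269744309231498356589382288137720885495074404380249686016 (by decide +kernel)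
               (CovZ.n1 (-27120, 1344) (by decide +kernel)
                (CovZ.n2 (-27096, 1320) (by decide +kernel)
                 (CovZ.n2 (-27120, 1320) (by decide +kernel)
                  (CovZ.badM (by decide +kernel))
                  (CovZ.n1 (-27108, 1308) (by decide +kernel)
                   (CovZ.leaf K2_ok TB_l39504 _)
                   (CovZ.badM (by decide +kernel))))
                 (CovZ.badM (by decide +kernel)))
                (CovZ.n1 (-27144, 1320) (by decide +kernel)
                 (CovZ.n2 (-27144, 1344) (by decide +kernel)
                  (CovZ.n2 (-27132, 1332) (by decide +kernel)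
                   (CovZ.leaf K2_ok TB_l39512 _)
                   (CovZ.badM (by decide +kernel)))
                  (CovZ.n1 (-27156, 1332) (by decide +kernel)
                   (CovZ.badM (by decide +kernel))
                   (CovZ.leaf K2_ok TB_l39513 _)))
                 (CovZ.n1 (-27120, 1320) (by decide +kernel)
                  (CovZ.n2 (-27132, 1308) (by decide +kernel)
                   (CovZ.leaf K2_ok TB_l39514 _)
                   (CovZ.leaf K2_ok TB_l39515 _))
                  (CovZ.n1 (-27132, 1332) (by decide +kernel)
                   (CovZ.badM (by decide +kernel))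
                   (CovZ.n1 (-27132, 1320) (by decide +kernel)
                    (CovZ.n2 (-27138, 1326) (by decide +kernel)
                     (CovZ.badM (by decide +kernel))
                     (CovZ.leaf K2_ok TB_l39516 _))
                    (CovZ.badM (by decide +kernel)))))))))
             (CovZ.n1 (-27216, 1296) (by decide +kernel)
              (CovZ.n2 (-27216, 1344) (by decide +kernel)
               (CovZ.n2 (-27192, 1320) (by decide +kernel)
                (CovZ.n2 (-27216, 1320) (by decide +kernel)
                 (CovZ.leaf K2_ok TB_l10387 _)
                 (CovZ.leaf K2_ok TB_l10388 _))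
                (CovZ.n1 (-27192, 1344) (by decide +kernel)
                 (CovZ.n2 (-27180, 1332) (by decide +kernel)
                  (CovZ.leaf K2_ok TB_l10389 _)
                  (CovZ.leaf K2_ok TB_l10390 _))
                 (CovZ.leaf K2_ok TB_l10391 _)))
               (CovZ.n1 (-27240, 1320) (by decide +kernel)
                (CovZ.n2 (-27240, 1344) (by decide +kernel)
                 (CovZ.n2 (-27228, 1332) (by decide +kernel)
                  (CovZ.leaf K2_ok TB_l10392 _)
                  (CovZ.leaf K2_ok TB_l10393 _))
                 (CovZ.leaf K2_ok TB_l10394 _))
                (CovZ.n1 (-27216, 1320) (by decide +kernel)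
                 (CovZ.leaf K2_ok TB_l10395 _)
                 (CovZ.n1 (-27228, 1332) (by decide +kernel)
                  (CovZ.leaf K2_ok TB_l10396 _)
                  (CovZ.leaf K2_ok TB_l10397 _)))))
              (CovZ.n1 (-27168, 1296) (by decide +kernel)
               (CovZ.n2 (-27192, 1272) (by decide +kernel)
                (CovZ.n2 (-27192, 1296) (by decide +kernel)
                 (CovZ.leaf K2_ok TB_l10398 _)
                 (CovZ.leaf K2_ok TB_l10399 _))
                (CovZ.n1 (-27168, 1272) (by decide +kernel)
                 (CovZ.leaf K2_ok TB_l10400 _)
                 (CovZ.leaf K2_ok TB_l10401 _)))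
               (CovZ.n1 (-27192, 1320) (by decide +kernel)
                (CovZ.subM 62165404551223330269870358257943973056023170470046322952780808974804267708851672842240 (by decide +kernel)
                 (CovZ.n2 (-27168, 1320) (by decide +kernel)
                  (CovZ.n2 (-27180, 1308) (by decide +kernel)
                   (CovZ.leaf K2_ok TB_l10402 _)
                   (CovZ.leaf K2_ok TB_l10403 _))
                  (CovZ.n1 (-27180, 1332) (by decide +kernel)
                   (CovZ.leaf K2_ok TB_l10404 _)
                   (CovZ.leaf K2_ok TB_l10405 _))))
                (CovZ.n1 (-27192, 1296) (by decide +kernel)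
                 (CovZ.leaf K2_ok TB_l10406 _)
                 (CovZ.n1 (-27180, 1308) (by decide +kernel)
                  (CovZ.leaf K2_ok TB_l10407 _)
                  (CovZ.leaf K2_ok TB_l10408 _))))))))))
         (CovZ.n1 (-27072, 1536) (by decide +kernel)
          (CovZ.badM (by decide +kernel))
          (CovZ.n1 (-27168, 1440) (by decide +kernel)
           (CovZ.badM (by decide +kernel))
           (CovZ.badM (by decide +kernel)))))
        (CovZ.n1 (-27456, 1344) (by decide +kernel)
         (CovZ.subM 307828320193243292210506871251823207642353396079239815701283931827293133698087538940561448951607157403949824212992 (by decide +kernel)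
          (CovZ.n2 (-27456, 1536) (by decide +kernel)
           TB_u67
           TB_u68))
         (CovZ.n1 (-27264, 1344) (by decide +kernel)
          TB_u69
          TB_u70)))

theorem TB_u76 : CovZ TB_M (toL (selN TB_LN 10370810048108902586928704095640572193114359797140572289885878814915459939405745701563079154965793766593478817979524726784)) [0, 7, 6, 1] (-25344, 0) (-25536, 192) (-25728, 0) :=
    (CovZ.n2 (-25536, 0) (by decide +kernel)
         (CovZ.n2 (-25632, 96) (by decide +kernel)
          (CovZ.subM 1457879039100530077645567193086964630183292962854756025854855353982957272228702101262728597154332440031392077877084160 (by decide +kernel)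
           (CovZ.n2 (-25536, 96) (by decide +kernel)
            (CovZ.n2 (-25584, 48) (by decide +kernel)
             (CovZ.n2 (-25584, 96) (by decide +kernel)
              (CovZ.leaf K2_ok TB_l12220 _)
              (CovZ.leaf K2_ok TB_l12221 _))
             (CovZ.leaf K2_ok TB_l12222 _))
            (CovZ.n1 (-25584, 144) (by decide +kernel)
             (CovZ.n2 (-25536, 144) (by decide +kernel)
              (CovZ.n2 (-25560, 120) (by decide +kernel)
               (CovZ.leaf K2_ok TB_l12223 _)
               (CovZ.leaf K2_ok TB_l12224 _))
              (CovZ.n1 (-25560, 168) (by decide +kernel)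
               (CovZ.leaf K2_ok TB_l12225 _)
               (CovZ.leaf K2_ok TB_l12226 _)))
             (CovZ.n1 (-25584, 96) (by decide +kernel)
              (CovZ.leaf K2_ok TB_l12227 _)
              (CovZ.n1 (-25560, 120) (by decide +kernel)
               (CovZ.leaf K2_ok TB_l12228 _)
               (CovZ.leaf K2_ok TB_l12229 _))))))
          (CovZ.n1 (-25632, 0) (by decide +kernel)
           (CovZ.n2 (-25680, 48) (by decide +kernel)
            (CovZ.leaf K2_ok TB_l12230 _)
            (CovZ.leaf K2_ok TB_l12231 _))
           (CovZ.subM 1457879039100530077645567193086964630183292962854756025855056221238489646013144846524271242479647715405614926981496832 (by decide +kernel)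
            (CovZ.n1 (-25584, 48) (by decide +kernel)
             (CovZ.n2 (-25584, 0) (by decide +kernel)
              (CovZ.leaf K2_ok TB_l12232 _)
              (CovZ.leaf K2_ok TB_l12233 _))
             (CovZ.n1 (-25632, 48) (by decide +kernel)
              (CovZ.leaf K2_ok TB_l12234 _)
              (CovZ.leaf K2_ok TB_l12235 _))))))
         (CovZ.subM 1418477032885787609505367576819862496546824355521026682454804489102750167193764791780738796938547480534346251481645056 (by decide +kernel)
          (CovZ.n1 (-25440, 96) (by decide +kernel)
           (CovZ.n2 (-25440, 0) (by decide +kernel)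
            (CovZ.n2 (-25488, 48) (by decide +kernel)
             (CovZ.n2 (-25440, 48) (by decide +kernel)
              (CovZ.leaf K2_ok TB_l12236 _)
              (CovZ.leaf K2_ok TB_l12237 _))
             (CovZ.n1 (-25488, 0) (by decide +kernel)
              (CovZ.leaf K2_ok TB_l12238 _)
              (CovZ.leaf K2_ok TB_l12239 _)))
            (CovZ.n1 (-25392, 48) (by decide +kernel)
             (CovZ.n2 (-25392, 0) (by decide +kernel)
              (CovZ.leaf K2_ok TB_l12240 _)
              (CovZ.leaf K2_ok TB_l12241 _))
             (CovZ.n1 (-25440, 48) (by decide +kernel)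
              (CovZ.n2 (-25416, 72) (by decide +kernel)
               (CovZ.leaf K2_ok TB_l12242 _)
               (CovZ.leaf K2_ok TB_l12243 _))
              (CovZ.leaf K2_ok TB_l12244 _))))
           (CovZ.n1 (-25536, 96) (by decide +kernel)
            (CovZ.n2 (-25488, 144) (by decide +kernel)
             (CovZ.n2 (-25488, 96) (by decide +kernel)
              (CovZ.n2 (-25512, 120) (by decide +kernel)
               (CovZ.leaf K2_ok TB_l12245 _)
               (CovZ.leaf K2_ok TB_l12246 _))
              (CovZ.n1 (-25464, 120) (by decide +kernel)
               (CovZ.leaf K2_ok TB_l12247 _)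
               (CovZ.leaf K2_ok TB_l12248 _)))
             (CovZ.n1 (-25536, 144) (by decide +kernel)
              (CovZ.n2 (-25512, 168) (by decide +kernel)
               (CovZ.n2 (-25512, 144) (by decide +kernel)
                (CovZ.leaf K2_ok TB_l12249 _)
                (CovZ.leaf K2_ok TB_l12250 _))
               (CovZ.leaf K2_ok TB_l12251 _))
              (CovZ.n1 (-25512, 120) (by decide +kernel)
               (CovZ.leaf K2_ok TB_l12252 _)
               (CovZ.leaf K2_ok TB_l12253 _))))
            (CovZ.n1 (-25488, 48) (by decide +kernel)
             (CovZ.n2 (-25536, 48) (by decide +kernel)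
              (CovZ.leaf K2_ok TB_l12254 _)
              (CovZ.leaf K2_ok TB_l12255 _))
             (CovZ.n1 (-25488, 96) (by decide +kernel)
              (CovZ.leaf K2_ok TB_l12256 _)
              (CovZ.leaf K2_ok TB_l12257 _)))))))

end Pool.Agent.TET
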