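import Pool.Agent.Helper38_TET.TB_M
import Pool.Agent.Helper38_TET.TB_L
import Pool.Agent.Helper38_TET.TB_4
import Pool.Agent.Helper38_TET.TB_5
import Pool.Agent.Helper38_TET.TB_6
import Pool.Agent.Helper38_TET.TB_7
import Pool.Agent.Helper38_TET.TB_80
import Pool.Agent.Helper38_TET.TB_81
import Pool.Agent.Helper38_TET.TB_82
import Pool.Agent.Helper38_TET.TB_83
import Pool.Agent.Helper38_TET.TB_248
import Pool.Agent.Helper38_TET.TB_265
import Pool.Agent.Helper38_TET.TB_266
import Pool.Agent.Helper38_TET.TB_324
import Pool.Agent.Helper38_TET.TB_325
import Pool.Agent.Helper38_TET.TB_U4

/-!
# MP_c7c9bf_co: certificates, family TB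
-/

set_option autoImplicit false
set_option maxRecDepth 100000

namespace Pool.Agent.TET

theorem TB_u77 : CovZ TB_M (toL (selN TB_LN 10370810048108902586928704095640572193114359797140572289885878814915459939405745701563079154965793766593478817979524726784)) [0, 7, 6, 1] (-25536, 192) (-25728, 384) (-25728, 0) :=
    (CovZ.n1 (-25728, 192) (by decide +kernel)
         (CovZ.subM 10370805122839192913045188530351404771855221426493345590473979958864220587847703679551802780396239057679475314896412884992 (by decide +kernel)
          (CovZ.n2 (-25632, 288) (by decide +kernel)
           (CovZ.n2 (-25632, 192) (by decide +kernel)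
            (CovZ.n2 (-25680, 240) (by decide +kernel)
             (CovZ.n2 (-25632, 240) (by decide +kernel)
              (CovZ.n2 (-25656, 216) (by decide +kernel)
               (CovZ.n2 (-25656, 240) (by decide +kernel)
                (CovZ.leaf K2_ok TB_l12258 _)
                (CovZ.leaf K2_ok TB_l12259 _))
               (CovZ.n1 (-25632, 216) (by decide +kernel)
                (CovZ.leaf K2_ok TB_l12260 _)
                (CovZ.leaf K2_ok TB_l12261 _)))
              (CovZ.subM 1457879039100224912424445463189204226951930550638590215356147175037053244968326741042901566699300941733590696424636416 (by decide +kernel)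
               (CovZ.n1 (-25656, 264) (by decide +kernel)
                (CovZ.n2 (-25632, 264) (by decide +kernel)
                 (CovZ.leaf K2_ok TB_l12262 _)
                 (CovZ.n1 (-25644, 276) (by decide +kernel)
                  (CovZ.leaf K2_ok TB_l48624 _)
                  (CovZ.leaf K2_ok TB_l48625 _)))
                (CovZ.n1 (-25656, 240) (by decide +kernel)
                 (CovZ.leaf K2_ok TB_l12263 _)
                 (CovZ.leaf K2_ok TB_l12264 _)))))
             (CovZ.n1 (-25680, 192) (by decide +kernel)
              (CovZ.n2 (-25704, 216) (by decide +kernel)
               (CovZ.n2 (-25680, 216) (by decide +kernel)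
                (CovZ.leaf K2_ok TB_l12265 _)
                (CovZ.leaf K2_ok TB_l12266 _))
               (CovZ.leaf K2_ok TB_l12267 _))
              (CovZ.n1 (-25656, 216) (by decide +kernel)
               (CovZ.n2 (-25656, 192) (by decide +kernel)
                (CovZ.leaf K2_ok TB_l12268 _)
                (CovZ.leaf K2_ok TB_l12269 _))
               (CovZ.n1 (-25680, 216) (by decide +kernel)
                (CovZ.leaf K2_ok TB_l12270 _)
                (CovZ.leaf K2_ok TB_l12271 _)))))
            (CovZ.subM 1457879039100530077645567189012892677514320790317864649036099028815029403165051883273753644144951473267240421143085056 (by decide +kernel)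
             (CovZ.n1 (-25584, 240) (by decide +kernel)
              (CovZ.n2 (-25584, 192) (by decide +kernel)
               (CovZ.n2 (-25608, 216) (by decide +kernel)
                (CovZ.n2 (-25584, 216) (by decide +kernel)
                 (CovZ.leaf K2_ok TB_l12272 _)
                 (CovZ.leaf K2_ok TB_l12273 _))
                (CovZ.n1 (-25608, 192) (by decide +kernel)
                 (CovZ.leaf K2_ok TB_l12274 _)
                 (CovZ.leaf K2_ok TB_l12275 _)))
               (CovZ.subM 1418477032885482444284245850996174045035865320809657975864959123068611586131274218452265164581042053570393924385636352 (by decide +kernel)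
                (CovZ.n1 (-25560, 216) (by decide +kernel)
                 (CovZ.n2 (-25560, 192) (by decide +kernel)
                  (CovZ.leaf K2_ok TB_l12276 _)
                  (CovZ.leaf K2_ok TB_l12277 _))
                 (CovZ.n1 (-25584, 216) (by decide +kernel)
                  (CovZ.leaf K2_ok TB_l12278 _)
                  (CovZ.leaf K2_ok TB_l12279 _)))))
              (CovZ.n1 (-25632, 240) (by decide +kernel)
               (CovZ.subM 1457874229285015391613994745532942001441129690208635778207158457312475628193628747355641279163814247722334854087442432 (by decide +kernel)
                (CovZ.n2 (-25608, 264) (by decide +kernel)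
                 (CovZ.n2 (-25608, 240) (by decide +kernel)
                  (CovZ.n2 (-25620, 252) (by decide +kernel)
                   (CovZ.leaf K2_ok TB_l12280 _)
                   (CovZ.leaf K2_ok TB_l12281 _))
                  (CovZ.n1 (-25596, 252) (by decide +kernel)
                   (CovZ.leaf K2_ok TB_l12282 _)
                   (CovZ.leaf K2_ok TB_l12283 _)))
                 (CovZ.n1 (-25632, 264) (by decide +kernel)
                  (CovZ.n2 (-25620, 276) (by decide +kernel)
                   (CovZ.leaf K2_ok TB_l48626 _)
                   (CovZ.leaf K2_ok TB_l48627 _))
                  (CovZ.n1 (-25620, 252) (by decide +kernel)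
                   (CovZ.leaf K2_ok TB_l12284 _)
                   (CovZ.n1 (-25620, 264) (by decide +kernel)
                    (CovZ.leaf K2_ok TB_l48628 _)
                    (CovZ.n1 (-25626, 258) (by decide +kernel)
                     (CovZ.leaf K2_ok TB_l48629 _)
                     (CovZ.leaf K2_ok TB_l48630 _)))))))
               (CovZ.n1 (-25608, 216) (by decide +kernel)
                (CovZ.leaf K2_ok TB_l12285 _)
                (CovZ.n1 (-25608, 240) (by decide +kernel)
                 (CovZ.leaf K2_ok TB_l12286 _)
                 (CovZ.leaf K2_ok TB_l12287 _)))))))
           (CovZ.n1 (-25728, 288) (by decide +kernel)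
            (CovZ.subM 40387056351304412864417765792381941989308279737476077000212805757328152956569859432420428177018527248099402739502546944 (by decide +kernel)
             (CovZ.n2 (-25680, 336) (by decide +kernel)
              (CovZ.n2 (-25680, 288) (by decide +kernel)
               (CovZ.n2 (-25704, 312) (by decide +kernel)
                (CovZ.n2 (-25680, 312) (by decide +kernel)
                 (CovZ.n2 (-25692, 300) (by decide +kernel)
                  (CovZ.badM (by decide +kernel))
                  (CovZ.n1 (-25680, 300) (by decide +kernel)
                   (CovZ.leaf K2_ok TB_l39807 _)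
                   (CovZ.badM (by decide +kernel))))
                 (CovZ.badM (by decide +kernel)))
                (CovZ.n1 (-25704, 288) (by decide +kernel)
                 (CovZ.n2 (-25716, 300) (by decide +kernel)
                  (CovZ.n2 (-25704, 300) (by decide +kernel)
                   (CovZ.leaf K2_ok TB_l39808 _)
                   (CovZ.badM (by decide +kernel)))
                  (CovZ.leaf K2_ok TB_l39809 _))
                 (CovZ.n1 (-25692, 300) (by decide +kernel)
                  (CovZ.leaf K2_ok TB_l39810 _)
                  (CovZ.leaf K2_ok TB_l39811 _))))
               (CovZ.n1 (-25656, 312) (by decide +kernel)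
                (CovZ.n2 (-25656, 288) (by decide +kernel)
                 (CovZ.n2 (-25668, 300) (by decide +kernel)
                  (CovZ.n2 (-25656, 300) (by decide +kernel)
                   (CovZ.n2 (-25662, 294) (by decide +kernel)
                    (CovZ.leaf K2_ok TB_l48631 _)
                    (CovZ.leaf K2_ok TB_l48632 _))
                   (CovZ.badM (by decide +kernel)))
                  (CovZ.n1 (-25668, 288) (by decide +kernel)
                   (CovZ.n2 (-25674, 294) (by decide +kernel)
                    (CovZ.leaf K2_ok TB_l39812 _)
                    (CovZ.leaf K2_ok TB_l39813 _))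
                   (CovZ.n1 (-25662, 294) (by decide +kernel)
                    (CovZ.leaf K2_ok TB_l39814 _)
                    (CovZ.leaf K2_ok TB_l39815 _))))
                 (CovZ.n1 (-25644, 300) (by decide +kernel)
                  (CovZ.n2 (-25644, 288) (by decide +kernel)
                   (CovZ.n2 (-25650, 294) (by decide +kernel)
                    (CovZ.badM (by decide +kernel))
                    (CovZ.leaf K2_ok TB_l48633 _))
                   (CovZ.badM (by decide +kernel)))
                  (CovZ.leaf K2_ok TB_l48634 _)))
                (CovZ.n1 (-25680, 312) (by decide +kernel)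
                 (CovZ.badM (by decide +kernel))
                 (CovZ.n1 (-25668, 300) (by decide +kernel)
                  (CovZ.leaf K2_ok TB_l39816 _)
                  (CovZ.badM (by decide +kernel))))))
              (CovZ.n1 (-25728, 336) (by decide +kernel)
               (CovZ.badM (by decide +kernel))
               (CovZ.n1 (-25704, 312) (by decide +kernel)
                (CovZ.n2 (-25728, 312) (by decide +kernel)
                 (CovZ.badM (by decide +kernel))
                 (CovZ.n1 (-25716, 300) (by decide +kernel)
                  (CovZ.leaf K2_ok TB_l39817 _)
                  (CovZ.leaf K2_ok TB_l48635 _)))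
                (CovZ.badM (by decide +kernel))))))
            (CovZ.n1 (-25680, 240) (by decide +kernel)
             (CovZ.n2 (-25728, 240) (by decide +kernel)
              (CovZ.n2 (-25704, 264) (by decide +kernel)
               (CovZ.n2 (-25704, 240) (by decide +kernel)
                (CovZ.leaf K2_ok TB_l12288 _)
                (CovZ.leaf K2_ok TB_l12289 _))
               (CovZ.leaf K2_ok TB_l12290 _))
              (CovZ.n1 (-25704, 216) (by decide +kernel)
               (CovZ.leaf K2_ok TB_l12291 _)
               (CovZ.n1 (-25704, 240) (by decide +kernel)
                (CovZ.leaf K2_ok TB_l12292 _)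
                (CovZ.leaf K2_ok TB_l12293 _))))
             (CovZ.n1 (-25680, 288) (by decide +kernel)
              (CovZ.subM 1457879039100224912424445463189204226951930550638590215356147175037053244968326741042901566699300941733590696424636416 (by decide +kernel)
               (CovZ.n2 (-25656, 264) (by decide +kernel)
                (CovZ.n2 (-25680, 264) (by decide +kernel)
                 (CovZ.n2 (-25668, 276) (by decide +kernel)
                  (CovZ.leaf K2_ok TB_l39818 _)
                  (CovZ.leaf K2_ok TB_l39819 _))
                 (CovZ.n1 (-25668, 252) (by decide +kernel)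
                  (CovZ.leaf K2_ok TB_l12294 _)
                  (CovZ.leaf K2_ok TB_l12295 _)))
                (CovZ.subM 39402006196466151044028729834881452906626724519459612233753311380533862556715766332219532016373631913415677428367360 (by decide +kernel)
                 (CovZ.n1 (-25656, 288) (by decide +kernel)
                  (CovZ.n2 (-25644, 276) (by decide +kernel)
                   (CovZ.leaf K2_ok TB_l48636 _)
                   (CovZ.n1 (-25644, 288) (by decide +kernel)
                    (CovZ.n2 (-25638, 282) (by decide +kernel)
                     (CovZ.leaf K2_ok TB_l48637 _)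
                     (CovZ.badM (by decide +kernel)))
                    (CovZ.leaf K2_ok TB_l48638 _)))
                  (CovZ.n1 (-25668, 276) (by decide +kernel)
                   (CovZ.n2 (-25668, 288) (by decide +kernel)
                    (CovZ.leaf K2_ok TB_l39820 _)
                    (CovZ.leaf K2_ok TB_l39821 _))
                   (CovZ.leaf K2_ok TB_l39822 _))))))
              (CovZ.n1 (-25704, 264) (by decide +kernel)
               (CovZ.n2 (-25704, 288) (by decide +kernel)
                (CovZ.leaf K2_ok TB_l12296 _)
                (CovZ.leaf K2_ok TB_l12297 _))
               (CovZ.n1 (-25680, 264) (by decide +kernel)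
                (CovZ.leaf K2_ok TB_l12298 _)
                (CovZ.n1 (-25692, 276) (by decide +kernel)
                 (CovZ.leaf K2_ok TB_l39823 _)
                 (CovZ.leaf K2_ok TB_l12299 _)))))))))
         (CovZ.n1 (-25632, 96) (by decide +kernel)
          (CovZ.n2 (-25728, 96) (by decide +kernel)
           (CovZ.n2 (-25680, 144) (by decide +kernel)
            (CovZ.n2 (-25680, 96) (by decide +kernel)
             (CovZ.leaf K2_ok TB_l12300 _)
             (CovZ.leaf K2_ok TB_l12301 _))
            (CovZ.n1 (-25728, 144) (by decide +kernel)
             (CovZ.n2 (-25704, 168) (by decide +kernel)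
              (CovZ.leaf K2_ok TB_l12302 _)
              (CovZ.leaf K2_ok TB_l12303 _))
             (CovZ.leaf K2_ok TB_l12304 _)))
           (CovZ.n1 (-25680, 48) (by decide +kernel)
            (CovZ.leaf K2_ok TB_l12305 _)
            (CovZ.n1 (-25680, 96) (by decide +kernel)
             (CovZ.leaf K2_ok TB_l12306 _)
             (CovZ.leaf K2_ok TB_l12307 _))))
          (CovZ.n1 (-25632, 192) (by decide +kernel)
           (CovZ.subM 1457879039100530077645567193086964630183292962854756025854855353982957272228702101262728597154332440031392077877084160 (by decide +kernel)
            (CovZ.n2 (-25584, 144) (by decide +kernel)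
             (CovZ.n2 (-25632, 144) (by decide +kernel)
              (CovZ.n2 (-25608, 168) (by decide +kernel)
               (CovZ.leaf K2_ok TB_l12308 _)
               (CovZ.leaf K2_ok TB_l12309 _))
              (CovZ.leaf K2_ok TB_l12310 _))
             (CovZ.n1 (-25584, 192) (by decide +kernel)
              (CovZ.n2 (-25560, 168) (by decide +kernel)
               (CovZ.leaf K2_ok TB_l12311 _)
               (CovZ.n1 (-25560, 192) (by decide +kernel)
                (CovZ.leaf K2_ok TB_l12312 _)
                (CovZ.leaf K2_ok TB_l12313 _)))
              (CovZ.n1 (-25608, 168) (by decide +kernel)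
               (CovZ.n2 (-25608, 192) (by decide +kernel)
                (CovZ.leaf K2_ok TB_l12314 _)
                (CovZ.leaf K2_ok TB_l12315 _))
               (CovZ.leaf K2_ok TB_l12316 _)))))
           (CovZ.n1 (-25680, 144) (by decide +kernel)
            (CovZ.subM 10370805122839192913045188530351404771855221426493345590473979958962300302463120566486736990133858845431074618716163424256 (by decide +kernel)
             (CovZ.n2 (-25680, 192) (by decide +kernel)
              (CovZ.n2 (-25656, 168) (by decide +kernel)
               (CovZ.leaf K2_ok TB_l12317 _)
               (CovZ.leaf K2_ok TB_l12318 _))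
              (CovZ.n1 (-25704, 168) (by decide +kernel)
               (CovZ.leaf K2_ok TB_l12319 _)
               (CovZ.leaf K2_ok TB_l12320 _))))
            (CovZ.n1 (-25632, 144) (by decide +kernel)
             (CovZ.leaf K2_ok TB_l12321 _)
             (CovZ.n1 (-25656, 168) (by decide +kernel)
              (CovZ.leaf K2_ok TB_l12322 _)
              (CovZ.leaf K2_ok TB_l12323 _)))))))

theorem TB_u78 : CovZ TB_M (toL (selN TB_LN 10370810048108902586928704095640572193114359797140572289885878814915459939405745701563079154965793766593478817979524726784)) [0, 7, 6, 1] (-25344, 768) (-25728, 384) (-25344, 0) :=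
    (CovZ.subM 10370805045882149560712221318848534216498880852584295370962060653917195348743618982089951900484206465609741086884133617664 (by decide +kernel)
       (CovZ.n2 (-25344, 384) (by decide +kernel)
        (CovZ.n2 (-25536, 192) (by decide +kernel)
         (CovZ.n2 (-25536, 384) (by decide +kernel)
          (CovZ.subM 1418477032885482444284245850996174045035865320809657975864959123068611586131274218452265164581042053570393924385636352 (by decide +kernel)
           (CovZ.n2 (-25440, 288) (by decide +kernel)
            (CovZ.n2 (-25536, 288) (by decide +kernel)
             (CovZ.badM (by decide +kernel))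
             (CovZ.n1 (-25488, 240) (by decide +kernel)
              (CovZ.n2 (-25536, 240) (by decide +kernel)
               (CovZ.badM (by decide +kernel))
               (CovZ.n1 (-25512, 216) (by decide +kernel)
                (CovZ.n2 (-25536, 216) (by decide +kernel)
                 (CovZ.leaf K2_ok TB_l12075 _)
                 (CovZ.leaf K2_ok TB_l12076 _))
                (CovZ.badM (by decide +kernel))))
              (CovZ.badM (by decide +kernel))))
            (CovZ.badM (by decide +kernel))))
          (CovZ.n1 (-25632, 288) (by decide +kernel)
           (CovZ.n2 (-25632, 384) (by decide +kernel)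
            (CovZ.badM (by decide +kernel))
            (CovZ.n1 (-25680, 336) (by decide +kernel)
             (CovZ.badM (by decide +kernel))
             (CovZ.badM (by decide +kernel))))
           (CovZ.subM 1457879039100224912424445463189204226003361755606495942446253665845881903834339026661974066088064413540766338414280704 (by decide +kernel)
            (CovZ.n1 (-25536, 288) (by decide +kernel)
             (CovZ.n2 (-25584, 240) (by decide +kernel)
              (CovZ.subM 39402006196394479212279040100143613805079739270465446667948293787369606987969425201001023042462211545491408536207360 (by decide +kernel)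
               (CovZ.n2 (-25584, 288) (by decide +kernel)
                (CovZ.badM (by decide +kernel))
                (CovZ.n1 (-25608, 264) (by decide +kernel)
                 (CovZ.badM (by decide +kernel))
                 (CovZ.n1 (-25584, 264) (by decide +kernel)
                  (CovZ.n2 (-25596, 252) (by decide +kernel)
                   (CovZ.badM (by decide +kernel))
                   (CovZ.badM (by decide +kernel)))
                  (CovZ.badM (by decide +kernel))))))
              (CovZ.n1 (-25536, 240) (by decide +kernel)
               (CovZ.n2 (-25560, 216) (by decide +kernel)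
                (CovZ.n2 (-25560, 240) (by decide +kernel)
                 (CovZ.leaf K2_ok TB_l12081 _)
                 (CovZ.n1 (-25572, 228) (by decide +kernel)
                  (CovZ.leaf K2_ok TB_l12082 _)
                  (CovZ.leaf K2_ok TB_l12083 _)))
                (CovZ.n1 (-25536, 216) (by decide +kernel)
                 (CovZ.leaf K2_ok TB_l12084 _)
                 (CovZ.n1 (-25548, 228) (by decide +kernel)
                  (CovZ.leaf K2_ok TB_l12085 _)
                  (CovZ.leaf K2_ok TB_l12086 _))))
               (CovZ.badM (by decide +kernel))))
             (CovZ.badM (by decide +kernel))))))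
         (CovZ.subM 1418477032885787609505367576819862496546824355521026682454804486037759085461987075064044742637929113296868007114440704 (by decide +kernel)
          (CovZ.n1 (-25344, 192) (by decide +kernel)
           (CovZ.n2 (-25440, 96) (by decide +kernel)
            (CovZ.n2 (-25440, 192) (by decide +kernel)
             (CovZ.n2 (-25392, 144) (by decide +kernel)
              (CovZ.n2 (-25440, 144) (by decide +kernel)
               (CovZ.subM 1418477032885410772452496161261432321545102679134616244285233967245681501666365272833344895805970387682038822540935168 (by decide +kernel)
                (CovZ.n2 (-25416, 168) (by decide +kernel)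
                 (CovZ.n2 (-25416, 144) (by decide +kernel)
                  (CovZ.leaf K2_ok TB_l12091 _)
                  (CovZ.leaf K2_ok TB_l12092 _))
                 (CovZ.n1 (-25440, 168) (by decide +kernel)
                  (CovZ.leaf K2_ok TB_l12093 _)
                  (CovZ.leaf K2_ok TB_l12094 _))))
               (CovZ.n1 (-25416, 120) (by decide +kernel)
                (CovZ.leaf K2_ok TB_l12095 _)
                (CovZ.n1 (-25416, 144) (by decide +kernel)
                 (CovZ.leaf K2_ok TB_l12096 _)
                 (CovZ.leaf K2_ok TB_l12097 _))))
              (CovZ.subM 1418472223070201251642045443605170096982870613736756080046138758712275226025654993527012108881720221863607338214096896 (by decide +kernel)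
               (CovZ.n1 (-25392, 192) (by decide +kernel)
                (CovZ.n2 (-25368, 168) (by decide +kernel)
                 (CovZ.n2 (-25392, 168) (by decide +kernel)
                  (CovZ.leaf K2_ok TB_l12098 _)
                  (CovZ.n1 (-25380, 156) (by decide +kernel)
                   (CovZ.leaf K2_ok TB_l12099 _)
                   (CovZ.leaf K2_ok TB_l12100 _)))
                 (CovZ.badM (by decide +kernel)))
                (CovZ.n1 (-25416, 168) (by decide +kernel)
                 (CovZ.n2 (-25416, 192) (by decide +kernel)
                  (CovZ.n2 (-25404, 180) (by decide +kernel)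
                   (CovZ.leaf K2_ok TB_l12101 _)
                   (CovZ.badM (by decide +kernel)))
                  (CovZ.leaf K2_ok TB_l12102 _))
                 (CovZ.n1 (-25392, 168) (by decide +kernel)
                  (CovZ.leaf K2_ok TB_l12103 _)
                  (CovZ.n1 (-25404, 180) (by decide +kernel)
                   (CovZ.leaf K2_ok TB_l12104 _)
                   (CovZ.leaf K2_ok TB_l12105 _)))))))
             (CovZ.n1 (-25488, 144) (by decide +kernel)
              (CovZ.n2 (-25488, 192) (by decide +kernel)
               (CovZ.n2 (-25464, 168) (by decide +kernel)
                (CovZ.leaf K2_ok TB_l12106 _)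
                (CovZ.n1 (-25464, 192) (by decide +kernel)
                 (CovZ.leaf K2_ok TB_l12107 _)
                 (CovZ.leaf K2_ok TB_l12108 _)))
               (CovZ.n1 (-25512, 168) (by decide +kernel)
                (CovZ.n2 (-25512, 192) (by decide +kernel)
                 (CovZ.leaf K2_ok TB_l12109 _)
                 (CovZ.leaf K2_ok TB_l12110 _))
                (CovZ.leaf K2_ok TB_l12111 _)))
              (CovZ.n1 (-25440, 144) (by decide +kernel)
               (CovZ.n2 (-25464, 120) (by decide +kernel)
                (CovZ.n2 (-25464, 144) (by decide +kernel)
                 (CovZ.leaf K2_ok TB_l12112 _)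
                 (CovZ.leaf K2_ok TB_l12113 _))
                (CovZ.leaf K2_ok TB_l12114 _))
               (CovZ.n1 (-25464, 168) (by decide +kernel)
                (CovZ.leaf K2_ok TB_l12115 _)
                (CovZ.n1 (-25464, 144) (by decide +kernel)
                 (CovZ.leaf K2_ok TB_l12116 _)
                 (CovZ.leaf K2_ok TB_l12117 _))))))
            (CovZ.n1 (-25344, 96) (by decide +kernel)
             (CovZ.n2 (-25392, 48) (by decide +kernel)
              (CovZ.n2 (-25392, 96) (by decide +kernel)
               (CovZ.n2 (-25368, 72) (by decide +kernel)
                (CovZ.leaf K2_ok TB_l12118 _)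
                (CovZ.leaf K2_ok TB_l12119 _))
               (CovZ.n1 (-25416, 72) (by decide +kernel)
                (CovZ.leaf K2_ok TB_l12120 _)
                (CovZ.leaf K2_ok TB_l12121 _)))
              (CovZ.n1 (-25344, 48) (by decide +kernel)
               (CovZ.leaf K2_ok TB_l12122 _)
               (CovZ.n1 (-25368, 72) (by decide +kernel)
                (CovZ.leaf K2_ok TB_l12123 _)
                (CovZ.leaf K2_ok TB_l12124 _))))
             (CovZ.n1 (-25392, 144) (by decide +kernel)
              (CovZ.subM 1418477032885410772452496161261432321545102679134616244285233967245681501666365272833344895805970387682038822540935168 (by decide +kernel)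
               (CovZ.n2 (-25344, 144) (by decide +kernel)
                (CovZ.n2 (-25368, 120) (by decide +kernel)
                 (CovZ.n2 (-25368, 144) (by decide +kernel)
                  (CovZ.leaf K2_ok TB_l12125 _)
                  (CovZ.leaf K2_ok TB_l12126 _))
                 (CovZ.n1 (-25344, 120) (by decide +kernel)
                  (CovZ.leaf K2_ok TB_l12127 _)
                  (CovZ.leaf K2_ok TB_l12128 _)))
                (CovZ.n1 (-25368, 168) (by decide +kernel)
                 (CovZ.n2 (-25344, 168) (by decide +kernel)
                  (CovZ.n2 (-25356, 156) (by decide +kernel)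
                   (CovZ.leaf K2_ok TB_l12129 _)
                   (CovZ.leaf K2_ok TB_l12130 _))
                  (CovZ.badM (by decide +kernel)))
                 (CovZ.n1 (-25368, 144) (by decide +kernel)
                  (CovZ.n2 (-25380, 156) (by decide +kernel)
                   (CovZ.leaf K2_ok TB_l12131 _)
                   (CovZ.leaf K2_ok TB_l12132 _))
                  (CovZ.leaf K2_ok TB_l12133 _)))))
              (CovZ.n1 (-25392, 96) (by decide +kernel)
               (CovZ.n2 (-25416, 120) (by decide +kernel)
                (CovZ.leaf K2_ok TB_l12134 _)
                (CovZ.leaf K2_ok TB_l12135 _))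
               (CovZ.n1 (-25368, 120) (by decide +kernel)
                (CovZ.leaf K2_ok TB_l12136 _)
                (CovZ.leaf K2_ok TB_l12137 _))))))
           (CovZ.n1 (-25440, 288) (by decide +kernel)
            (CovZ.badM (by decide +kernel))
            (CovZ.n1 (-25440, 192) (by decide +kernel)
             (CovZ.n2 (-25488, 240) (by decide +kernel)
              (CovZ.badM (by decide +kernel))
              (CovZ.n1 (-25488, 192) (by decide +kernel)
               (CovZ.n2 (-25512, 216) (by decide +kernel)
                (CovZ.n2 (-25488, 216) (by decide +kernel)
                 (CovZ.leaf K2_ok TB_l12138 _)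
                 (CovZ.badM (by decide +kernel)))
                (CovZ.n1 (-25512, 192) (by decide +kernel)
                 (CovZ.leaf K2_ok TB_l12141 _)
                 (CovZ.leaf K2_ok TB_l12142 _)))
               (CovZ.subM 1418472223070201251642045443605173982320655065194897918969952405750088510839333097806054612506539699672177748631093248 (by decide +kernel)
                (CovZ.n1 (-25464, 216) (by decide +kernel)
                 (CovZ.n2 (-25464, 192) (by decide +kernel)
                  (CovZ.n2 (-25476, 204) (by decide +kernel)
                   (CovZ.leaf K2_ok TB_l12143 _)
                   (CovZ.leaf K2_ok TB_l12144 _))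
                  (CovZ.leaf K2_ok TB_l12145 _))
                 (CovZ.n1 (-25488, 216) (by decide +kernel)
                  (CovZ.badM (by decide +kernel))
                  (CovZ.n1 (-25476, 204) (by decide +kernel)
                   (CovZ.leaf K2_ok TB_l12148 _)
                   (CovZ.badM (by decide +kernel))))))))
             (CovZ.badM (by decide +kernel)))))))
        (CovZ.badM (by decide +kernel))))

theorem TB_u79 : CovZ TB_M (toL (selN TB_LN 10370810048108902586928704095640572193114359797140572289885878814915459939405745701563079154965793766593478817979524726784)) [0, 7, 6, 1] (-25728, 384) (-26112, 0) (-25344, 0) :=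
    (CovZ.n1 (-25728, 0) (by decide +kernel)
       (CovZ.n2 (-25920, 192) (by decide +kernel)
        (CovZ.n2 (-25728, 192) (by decide +kernel)
         (CovZ.n2 (-25824, 96) (by decide +kernel)
          (CovZ.n2 (-25824, 192) (by decide +kernel)
           (CovZ.n2 (-25776, 144) (by decide +kernel)
            (CovZ.n2 (-25824, 144) (by decide +kernel)
             (CovZ.leaf K2_ok TB_l12150 _)
             (CovZ.leaf K2_ok TB_l12151 _))
            (CovZ.n1 (-25776, 192) (by decide +kernel)
             (CovZ.n2 (-25752, 168) (by decide +kernel)
              (CovZ.leaf K2_ok TB_l12152 _)
              (CovZ.leaf K2_ok TB_l12153 _))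
             (CovZ.leaf K2_ok TB_l12154 _)))
           (CovZ.n1 (-25872, 144) (by decide +kernel)
            (CovZ.n2 (-25872, 192) (by decide +kernel)
             (CovZ.leaf K2_ok TB_l12155 _)
             (CovZ.leaf K2_ok TB_l12156 _))
            (CovZ.leaf K2_ok TB_l12157 _)))
          (CovZ.n1 (-25728, 96) (by decide +kernel)
           (CovZ.n2 (-25776, 48) (by decide +kernel)
            (CovZ.n2 (-25776, 96) (by decide +kernel)
             (CovZ.leaf K2_ok TB_l12158 _)
             (CovZ.leaf K2_ok TB_l12159 _))
            (CovZ.leaf K2_ok TB_l12160 _))
           (CovZ.n1 (-25776, 144) (by decide +kernel)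
            (CovZ.n2 (-25728, 144) (by decide +kernel)
             (CovZ.leaf K2_ok TB_l12161 _)
             (CovZ.n1 (-25752, 168) (by decide +kernel)
              (CovZ.leaf K2_ok TB_l12162 _)
              (CovZ.leaf K2_ok TB_l12163 _)))
            (CovZ.n1 (-25776, 96) (by decide +kernel)
             (CovZ.leaf K2_ok TB_l12164 _)
             (CovZ.leaf K2_ok TB_l12165 _)))))
         (CovZ.n1 (-25824, 288) (by decide +kernel)
          (CovZ.subM 10370805122839192913045188530351404771855221426493345590473979958864220587847703679551802780396239057679475314896412884992 (by decide +kernel)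
           (CovZ.n2 (-25728, 288) (by decide +kernel)
            (CovZ.n2 (-25776, 240) (by decide +kernel)
             (CovZ.n2 (-25776, 288) (by decide +kernel)
              (CovZ.n2 (-25752, 264) (by decide +kernel)
               (CovZ.leaf K2_ok TB_l12166 _)
               (CovZ.n1 (-25752, 288) (by decide +kernel)
                (CovZ.leaf K2_ok TB_l12167 _)
                (CovZ.leaf K2_ok TB_l12168 _)))
              (CovZ.n1 (-25800, 264) (by decide +kernel)
               (CovZ.n2 (-25800, 288) (by decide +kernel)
                (CovZ.leaf K2_ok TB_l12169 _)
                (CovZ.leaf K2_ok TB_l12170 _))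
               (CovZ.leaf K2_ok TB_l12171 _)))
             (CovZ.n1 (-25728, 240) (by decide +kernel)
              (CovZ.n2 (-25752, 216) (by decide +kernel)
               (CovZ.n2 (-25752, 240) (by decide +kernel)
                (CovZ.leaf K2_ok TB_l12172 _)
                (CovZ.leaf K2_ok TB_l12173 _))
               (CovZ.leaf K2_ok TB_l12174 _))
              (CovZ.n1 (-25752, 264) (by decide +kernel)
               (CovZ.n2 (-25728, 264) (by decide +kernel)
                (CovZ.leaf K2_ok TB_l12175 _)
                (CovZ.leaf K2_ok TB_l12176 _))
               (CovZ.n1 (-25752, 240) (by decide +kernel)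
                (CovZ.leaf K2_ok TB_l12177 _)
                (CovZ.leaf K2_ok TB_l12178 _)))))
            (CovZ.n1 (-25776, 336) (by decide +kernel)
             (CovZ.subM 40387056351304412864417765792381941989308279737476077000212805757328152956569859432420428177018527248099402739502546944 (by decide +kernel)
              (CovZ.n2 (-25728, 336) (by decide +kernel)
               (CovZ.n2 (-25752, 312) (by decide +kernel)
                (CovZ.badM (by decide +kernel))
                (CovZ.n1 (-25728, 312) (by decide +kernel)
                 (CovZ.n2 (-25740, 300) (by decide +kernel)
                  (CovZ.leaf K2_ok TB_l48622 _)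
                  (CovZ.n1 (-25728, 300) (by decide +kernel)
                   (CovZ.leaf K2_ok TB_l39801 _)
                   (CovZ.n1 (-25734, 306) (by decide +kernel)
                    (CovZ.badM (by decide +kernel))
                    (CovZ.leaf K2_ok TB_l48623 _))))
                 (CovZ.badM (by decide +kernel))))
               (CovZ.badM (by decide +kernel))))
             (CovZ.n1 (-25776, 288) (by decide +kernel)
              (CovZ.n2 (-25800, 312) (by decide +kernel)
               (CovZ.n2 (-25776, 312) (by decide +kernel)
                (CovZ.leaf K2_ok TB_l12179 _)
                (CovZ.subM 39402006196394479212279056396443080494553367970931106396270779541862185665666433621697663057944393608387061664972800 (by decide +kernel)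
                 (CovZ.n1 (-25788, 324) (by decide +kernel)
                  (CovZ.badM (by decide +kernel))
                  (CovZ.n1 (-25788, 312) (by decide +kernel)
                   (CovZ.n2 (-25794, 318) (by decide +kernel)
                    (CovZ.leaf K2_ok TB_l39802 _)
                    (CovZ.leaf K2_ok TB_l39803 _))
                   (CovZ.leaf K2_ok TB_l39804 _)))))
               (CovZ.n1 (-25800, 288) (by decide +kernel)
                (CovZ.leaf K2_ok TB_l12180 _)
                (CovZ.leaf K2_ok TB_l12181 _)))
              (CovZ.n1 (-25752, 312) (by decide +kernel)
               (CovZ.n2 (-25752, 288) (by decide +kernel)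
                (CovZ.leaf K2_ok TB_l12182 _)
                (CovZ.n1 (-25740, 300) (by decide +kernel)
                 (CovZ.n2 (-25740, 288) (by decide +kernel)
                  (CovZ.leaf K2_ok TB_l39805 _)
                  (CovZ.leaf K2_ok TB_l39806 _))
                 (CovZ.leaf K2_ok TB_l12183 _)))
               (CovZ.n1 (-25776, 312) (by decide +kernel)
                (CovZ.badM (by decide +kernel))
                (CovZ.n1 (-25764, 300) (by decide +kernel)
                 (CovZ.leaf K2_ok TB_l12184 _)
                 (CovZ.leaf K2_ok TB_l12185 _))))))))
          (CovZ.n1 (-25824, 192) (by decide +kernel)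
           (CovZ.n2 (-25872, 240) (by decide +kernel)
            (CovZ.n2 (-25824, 240) (by decide +kernel)
             (CovZ.n2 (-25848, 216) (by decide +kernel)
              (CovZ.leaf K2_ok TB_l12186 _)
              (CovZ.leaf K2_ok TB_l12187 _))
             (CovZ.n1 (-25848, 264) (by decide +kernel)
              (CovZ.leaf K2_ok TB_l12188 _)
              (CovZ.leaf K2_ok TB_l12189 _)))
            (CovZ.n1 (-25872, 192) (by decide +kernel)
             (CovZ.n2 (-25896, 216) (by decide +kernel)
              (CovZ.leaf K2_ok TB_l12190 _)
              (CovZ.leaf K2_ok TB_l12191 _))
             (CovZ.n1 (-25848, 216) (by decide +kernel)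
              (CovZ.leaf K2_ok TB_l12192 _)
              (CovZ.leaf K2_ok TB_l12193 _))))
           (CovZ.n1 (-25776, 240) (by decide +kernel)
            (CovZ.n2 (-25776, 192) (by decide +kernel)
             (CovZ.n2 (-25800, 216) (by decide +kernel)
              (CovZ.leaf K2_ok TB_l12194 _)
              (CovZ.leaf K2_ok TB_l12195 _))
             (CovZ.n1 (-25752, 216) (by decide +kernel)
              (CovZ.leaf K2_ok TB_l12196 _)
              (CovZ.leaf K2_ok TB_l12197 _)))
            (CovZ.n1 (-25824, 240) (by decide +kernel)
             (CovZ.n2 (-25800, 264) (by decide +kernel)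
              (CovZ.leaf K2_ok TB_l12198 _)
              (CovZ.leaf K2_ok TB_l12199 _))
             (CovZ.n1 (-25800, 216) (by decide +kernel)
              (CovZ.leaf K2_ok TB_l12200 _)
              (CovZ.leaf K2_ok TB_l12201 _)))))))
        (CovZ.n1 (-25920, 0) (by decide +kernel)
         (CovZ.n2 (-26016, 96) (by decide +kernel)
          (CovZ.n2 (-25920, 96) (by decide +kernel)
           (CovZ.n2 (-25968, 48) (by decide +kernel)
            (CovZ.leaf K2_ok TB_l12202 _)
            (CovZ.leaf K2_ok TB_l12203 _))
           (CovZ.n1 (-25968, 144) (by decide +kernel)
            (CovZ.leaf K2_ok TB_l12204 _)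
            (CovZ.n1 (-25968, 96) (by decide +kernel)
             (CovZ.leaf K2_ok TB_l12205 _)
             (CovZ.leaf K2_ok TB_l12206 _))))
          (CovZ.n1 (-26016, 0) (by decide +kernel)
           (CovZ.leaf K2_ok TB_l12207 _)
           (CovZ.n1 (-25968, 48) (by decide +kernel)
            (CovZ.leaf K2_ok TB_l12208 _)
            (CovZ.leaf K2_ok TB_l12209 _))))
         (CovZ.n1 (-25824, 96) (by decide +kernel)
          (CovZ.n2 (-25824, 0) (by decide +kernel)
           (CovZ.n2 (-25872, 48) (by decide +kernel)
            (CovZ.leaf K2_ok TB_l12210 _)
            (CovZ.leaf K2_ok TB_l12211 _))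
           (CovZ.n1 (-25776, 48) (by decide +kernel)
            (CovZ.leaf K2_ok TB_l12212 _)
            (CovZ.leaf K2_ok TB_l12213 _)))
          (CovZ.n1 (-25920, 96) (by decide +kernel)
           (CovZ.n2 (-25872, 144) (by decide +kernel)
            (CovZ.n2 (-25872, 96) (by decide +kernel)
             (CovZ.leaf K2_ok TB_l12214 _)
             (CovZ.leaf K2_ok TB_l12215 _))
            (CovZ.n1 (-25920, 144) (by decide +kernel)
             (CovZ.leaf K2_ok TB_l12216 _)
             (CovZ.leaf K2_ok TB_l12217 _)))
           (CovZ.n1 (-25872, 48) (by decide +kernel)
            (CovZ.leaf K2_ok TB_l12218 _)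
            (CovZ.leaf K2_ok TB_l12219 _))))))
       (CovZ.n1 (-25536, 192) (by decide +kernel)
        TB_u76
        TB_u77))

theorem TB_u80 : CovZ TB_M (toL (selN TB_LN 1418477032885787609505367576819862496546824355521026682454804486037759085461987075064044742637929113296868007114440704)) [0, 7, 6, 1] (-24576, 0) (-24960, 384) (-25344, 0) :=
    (CovZ.n2 (-24960, 0) (by decide +kernel)
        (CovZ.n2 (-25152, 192) (by decide +kernel)
         (CovZ.subM 1260864198284623334792929283204595641762551656654894293374345388935863108105892281212935568622605056101773186751791104 (by decide +kernel)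
          (CovZ.n2 (-24960, 192) (by decide +kernel)
           (CovZ.n2 (-25056, 96) (by decide +kernel)
            (CovZ.badM (by decide +kernel))
            (CovZ.n1 (-24960, 96) (by decide +kernel)
             (CovZ.n2 (-25008, 48) (by decide +kernel)
              (CovZ.badM (by decide +kernel))
              (CovZ.n1 (-24960, 48) (by decide +kernel)
               (CovZ.n2 (-24984, 24) (by decide +kernel)
                (CovZ.n2 (-24984, 48) (by decide +kernel)
                 (CovZ.n2 (-24972, 36) (by decide +kernel)
                  (CovZ.leaf K2_ok TB_l48639 _)
                  (CovZ.badM (by decide +kernel)))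
                 (CovZ.leaf K2_ok TB_l48640 _))
                (CovZ.n1 (-24960, 24) (by decide +kernel)
                 (CovZ.leaf K2_ok TB_l48641 _)
                 (CovZ.n1 (-24972, 36) (by decide +kernel)
                  (CovZ.badM (by decide +kernel))
                  (CovZ.leaf K2_ok TB_l48642 _))))
               (CovZ.badM (by decide +kernel))))
             (CovZ.badM (by decide +kernel))))
           (CovZ.badM (by decide +kernel))))
         (CovZ.n1 (-25152, 0) (by decide +kernel)
          (CovZ.n2 (-25248, 96) (by decide +kernel)
           (CovZ.subM 1260864198284623334792929283204595641762551656654894293374345388937359685782519125801176141891306529913900861675798528 (by decide +kernel)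
            (CovZ.n2 (-25152, 96) (by decide +kernel)
             (CovZ.n2 (-25200, 48) (by decide +kernel)
              (CovZ.n2 (-25200, 96) (by decide +kernel)
               (CovZ.n2 (-25176, 72) (by decide +kernel)
                (CovZ.n2 (-25200, 72) (by decide +kernel)
                 (CovZ.leaf K2_ok TB_l12324 _)
                 (CovZ.leaf K2_ok TB_l39824 _))
                (CovZ.n1 (-25176, 96) (by decide +kernel)
                 (CovZ.leaf K2_ok TB_l39825 _)
                 (CovZ.leaf K2_ok TB_l12325 _)))
               (CovZ.n1 (-25224, 72) (by decide +kernel)
                (CovZ.n2 (-25224, 96) (by decide +kernel)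
                 (CovZ.leaf K2_ok TB_l12326 _)
                 (CovZ.leaf K2_ok TB_l12327 _))
                (CovZ.leaf K2_ok TB_l12328 _)))
              (CovZ.n1 (-25152, 48) (by decide +kernel)
               (CovZ.n2 (-25176, 24) (by decide +kernel)
                (CovZ.leaf K2_ok TB_l39826 _)
                (CovZ.leaf K2_ok TB_l39827 _))
               (CovZ.n1 (-25176, 72) (by decide +kernel)
                (CovZ.n2 (-25152, 72) (by decide +kernel)
                 (CovZ.leaf K2_ok TB_l48643 _)
                 (CovZ.leaf K2_ok TB_l48644 _))
                (CovZ.n1 (-25176, 48) (by decide +kernel)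
                 (CovZ.leaf K2_ok TB_l39828 _)
                 (CovZ.leaf K2_ok TB_l39829 _)))))
             (CovZ.n1 (-25200, 144) (by decide +kernel)
              (CovZ.badM (by decide +kernel))
              (CovZ.n1 (-25200, 96) (by decide +kernel)
               (CovZ.n2 (-25224, 120) (by decide +kernel)
                (CovZ.n2 (-25200, 120) (by decide +kernel)
                 (CovZ.leaf K2_ok TB_l12330 _)
                 (CovZ.badM (by decide +kernel)))
                (CovZ.n1 (-25224, 96) (by decide +kernel)
                 (CovZ.leaf K2_ok TB_l12332 _)
                 (CovZ.leaf K2_ok TB_l12333 _)))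
               (CovZ.n1 (-25176, 120) (by decide +kernel)
                (CovZ.n2 (-25176, 96) (by decide +kernel)
                 (CovZ.n2 (-25188, 108) (by decide +kernel)
                  (CovZ.badM (by decide +kernel))
                  (CovZ.leaf K2_ok TB_l12335 _))
                 (CovZ.badM (by decide +kernel)))
                (CovZ.n1 (-25200, 120) (by decide +kernel)
                 (CovZ.badM (by decide +kernel))
                 (CovZ.n1 (-25188, 108) (by decide +kernel)
                  (CovZ.leaf K2_ok TB_l12337 _)
                  (CovZ.badM (by decide +kernel)))))))))
           (CovZ.n1 (-25248, 0) (by decide +kernel)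
            (CovZ.n2 (-25296, 48) (by decide +kernel)
             (CovZ.n2 (-25248, 48) (by decide +kernel)
              (CovZ.leaf K2_ok TB_l12339 _)
              (CovZ.n1 (-25272, 72) (by decide +kernel)
               (CovZ.leaf K2_ok TB_l12340 _)
               (CovZ.leaf K2_ok TB_l12341 _)))
             (CovZ.n1 (-25296, 0) (by decide +kernel)
              (CovZ.leaf K2_ok TB_l12342 _)
              (CovZ.leaf K2_ok TB_l12343 _)))
            (CovZ.subM 1260864198284641252750866705638280101300796204209119266538323266133638885695326836136145583178869576933847034532724736 (by decide +kernel)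
             (CovZ.n1 (-25200, 48) (by decide +kernel)
              (CovZ.n2 (-25200, 0) (by decide +kernel)
               (CovZ.n2 (-25224, 24) (by decide +kernel)
                (CovZ.leaf K2_ok TB_l12344 _)
                (CovZ.leaf K2_ok TB_l12345 _))
               (CovZ.n1 (-25176, 24) (by decide +kernel)
                (CovZ.leaf K2_ok TB_l12346 _)
                (CovZ.leaf K2_ok TB_l12347 _)))
              (CovZ.n1 (-25248, 48) (by decide +kernel)
               (CovZ.n2 (-25224, 72) (by decide +kernel)
                (CovZ.n2 (-25224, 48) (by decide +kernel)
                 (CovZ.leaf K2_ok TB_l12348 _)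
                 (CovZ.leaf K2_ok TB_l12349 _))
                (CovZ.leaf K2_ok TB_l12350 _))
               (CovZ.n1 (-25224, 24) (by decide +kernel)
                (CovZ.leaf K2_ok TB_l12351 _)
                (CovZ.leaf K2_ok TB_l12352 _)))))))
          (CovZ.subM 1260864198284623334792929283204595641762551656654894293374345388937359685782519125801176141891306529913900861675798528 (by decide +kernel)
           (CovZ.n1 (-25056, 96) (by decide +kernel)
            (CovZ.n2 (-25056, 0) (by decide +kernel)
             (CovZ.n2 (-25104, 48) (by decide +kernel)
              (CovZ.n2 (-25056, 48) (by decide +kernel)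
               (CovZ.n2 (-25080, 24) (by decide +kernel)
                (CovZ.n2 (-25080, 48) (by decide +kernel)
                 (CovZ.leaf K2_ok TB_l48645 _)
                 (CovZ.leaf K2_ok TB_l48646 _))
                (CovZ.leaf K2_ok TB_l39830 _))
               (CovZ.n1 (-25080, 72) (by decide +kernel)
                (CovZ.n2 (-25056, 72) (by decide +kernel)
                 (CovZ.leaf K2_ok TB_l48647 _)
                 (CovZ.badM (by decide +kernel)))
                (CovZ.n1 (-25080, 48) (by decide +kernel)
                 (CovZ.leaf K2_ok TB_l48648 _)
                 (CovZ.leaf K2_ok TB_l48649 _))))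
              (CovZ.n1 (-25104, 0) (by decide +kernel)
               (CovZ.n2 (-25128, 24) (by decide +kernel)
                (CovZ.leaf K2_ok TB_l39831 _)
                (CovZ.leaf K2_ok TB_l39832 _))
               (CovZ.n1 (-25080, 24) (by decide +kernel)
                (CovZ.leaf K2_ok TB_l48650 _)
                (CovZ.leaf K2_ok TB_l39833 _))))
             (CovZ.n1 (-25008, 48) (by decide +kernel)
              (CovZ.n2 (-25008, 0) (by decide +kernel)
               (CovZ.n2 (-25032, 24) (by decide +kernel)
                (CovZ.leaf K2_ok TB_l48651 _)
                (CovZ.n1 (-25032, 0) (by decide +kernel)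
                 (CovZ.leaf K2_ok TB_l48652 _)
                 (CovZ.leaf K2_ok TB_l48653 _)))
               (CovZ.n1 (-24984, 24) (by decide +kernel)
                (CovZ.n2 (-24984, 0) (by decide +kernel)
                 (CovZ.leaf K2_ok TB_l48654 _)
                 (CovZ.leaf K2_ok TB_l48655 _))
                (CovZ.leaf K2_ok TB_l48656 _)))
              (CovZ.n1 (-25056, 48) (by decide +kernel)
               (CovZ.n2 (-25032, 72) (by decide +kernel)
                (CovZ.n2 (-25032, 48) (by decide +kernel)
                 (CovZ.leaf K2_ok TB_l48657 _)
                 (CovZ.badM (by decide +kernel)))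
                (CovZ.n1 (-25056, 72) (by decide +kernel)
                 (CovZ.badM (by decide +kernel))
                 (CovZ.leaf K2_ok TB_l48658 _)))
               (CovZ.n1 (-25032, 24) (by decide +kernel)
                (CovZ.leaf K2_ok TB_l39834 _)
                (CovZ.n1 (-25032, 48) (by decide +kernel)
                 (CovZ.leaf K2_ok TB_l48659 _)
                 (CovZ.leaf K2_ok TB_l48660 _))))))
            (CovZ.n1 (-25152, 96) (by decide +kernel)
             (CovZ.badM (by decide +kernel))
             (CovZ.n1 (-25104, 48) (by decide +kernel)
              (CovZ.n2 (-25152, 48) (by decide +kernel)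
               (CovZ.n2 (-25128, 72) (by decide +kernel)
                (CovZ.n2 (-25128, 48) (by decide +kernel)
                 (CovZ.leaf K2_ok TB_l48661 _)
                 (CovZ.leaf K2_ok TB_l48662 _))
                (CovZ.n1 (-25152, 72) (by decide +kernel)
                 (CovZ.leaf K2_ok TB_l48663 _)
                 (CovZ.leaf K2_ok TB_l48664 _)))
               (CovZ.n1 (-25128, 24) (by decide +kernel)
                (CovZ.leaf K2_ok TB_l39835 _)
                (CovZ.n1 (-25128, 48) (by decide +kernel)
                 (CovZ.leaf K2_ok TB_l39836 _)
                 (CovZ.leaf K2_ok TB_l39837 _))))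
              (CovZ.n1 (-25104, 96) (by decide +kernel)
               (CovZ.n2 (-25080, 72) (by decide +kernel)
                (CovZ.n2 (-25104, 72) (by decide +kernel)
                 (CovZ.badM (by decide +kernel))
                 (CovZ.leaf K2_ok TB_l48665 _))
                (CovZ.badM (by decide +kernel)))
               (CovZ.n1 (-25128, 72) (by decide +kernel)
                (CovZ.n2 (-25128, 96) (by decide +kernel)
                 (CovZ.leaf K2_ok TB_l48666 _)
                 (CovZ.leaf K2_ok TB_l48667 _))
                (CovZ.n1 (-25104, 72) (by decide +kernel)
                 (CovZ.leaf K2_ok TB_l48668 _)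
                 (CovZ.leaf K2_ok TB_l48669 _))))))))))
        (CovZ.subM 1260864198284623334792929283204595641762551656654894293374345388935863108105892281212935568622605056101773186751791104 (by decide +kernel)
         (CovZ.n1 (-24768, 192) (by decide +kernel)
          (CovZ.n2 (-24768, 0) (by decide +kernel)
           (CovZ.n2 (-24864, 96) (by decide +kernel)
            (CovZ.badM (by decide +kernel))
            (CovZ.n1 (-24864, 0) (by decide +kernel)
             (CovZ.n2 (-24912, 48) (by decide +kernel)
              (CovZ.badM (by decide +kernel))
              (CovZ.n1 (-24912, 0) (by decide +kernel)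
               (CovZ.n2 (-24936, 24) (by decide +kernel)
                (CovZ.n2 (-24912, 24) (by decide +kernel)
                 (CovZ.leaf K2_ok TB_l48670 _)
                 (CovZ.badM (by decide +kernel)))
                (CovZ.n1 (-24936, 0) (by decide +kernel)
                 (CovZ.leaf K2_ok TB_l48671 _)
                 (CovZ.leaf K2_ok TB_l48672 _)))
               (CovZ.n1 (-24888, 24) (by decide +kernel)
                (CovZ.badM (by decide +kernel))
                (CovZ.n1 (-24912, 24) (by decide +kernel)
                 (CovZ.badM (by decide +kernel))
                 (CovZ.badM (by decide +kernel))))))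
             (CovZ.badM (by decide +kernel))))
           (CovZ.badM (by decide +kernel)))
          (CovZ.n1 (-24960, 192) (by decide +kernel)
           (CovZ.badM (by decide +kernel))
           (CovZ.n1 (-24864, 96) (by decide +kernel)
            (CovZ.n2 (-24960, 96) (by decide +kernel)
             (CovZ.badM (by decide +kernel))
             (CovZ.n1 (-24912, 48) (by decide +kernel)
              (CovZ.n2 (-24960, 48) (by decide +kernel)
               (CovZ.badM (by decide +kernel))
               (CovZ.n1 (-24936, 24) (by decide +kernel)
                (CovZ.n2 (-24960, 24) (by decide +kernel)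
                 (CovZ.badM (by decide +kernel))
                 (CovZ.leaf K2_ok TB_l48673 _))
                (CovZ.badM (by decide +kernel))))
              (CovZ.badM (by decide +kernel))))
            (CovZ.badM (by decide +kernel)))))))

theorem TB_u81 : CovZ TB_M (toL (selN TB_LN 1418477032885787609505367576819862496546824355521026682454804486037759085461987075064044742637929113296868007114440704)) [0, 7, 6, 1] (-24960, 384) (-25344, 768) (-25344, 0) :=
    (CovZ.n1 (-25344, 384) (by decide +kernel)
        (CovZ.badM (by decide +kernel))
        (CovZ.n1 (-25152, 192) (by decide +kernel)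
         (CovZ.n2 (-25344, 192) (by decide +kernel)
          (CovZ.badM (by decide +kernel))
          (CovZ.n1 (-25248, 96) (by decide +kernel)
           (CovZ.n2 (-25344, 96) (by decide +kernel)
            (CovZ.subM 1418477032885410772452496161261432321545102679134616244285233967245681501666365272833344895805970387682038822540935168 (by decide +kernel)
             (CovZ.n2 (-25296, 144) (by decide +kernel)
              (CovZ.n2 (-25296, 96) (by decide +kernel)
               (CovZ.n2 (-25320, 120) (by decide +kernel)
                (CovZ.n2 (-25296, 120) (by decide +kernel)
                 (CovZ.leaf K2_ok TB_l12356 _)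
                 (CovZ.leaf K2_ok TB_l12357 _))
                (CovZ.n1 (-25320, 96) (by decide +kernel)
                 (CovZ.leaf K2_ok TB_l12358 _)
                 (CovZ.leaf K2_ok TB_l12359 _)))
               (CovZ.subM 1260864198284623334792929283204595641762551656654894293374345388937359685782519125801176141891306529913900861675798528 (by decide +kernel)
                (CovZ.n1 (-25272, 120) (by decide +kernel)
                 (CovZ.n2 (-25272, 96) (by decide +kernel)
                  (CovZ.leaf K2_ok TB_l12360 _)
                  (CovZ.leaf K2_ok TB_l12361 _))
                 (CovZ.n1 (-25296, 120) (by decide +kernel)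
                  (CovZ.leaf K2_ok TB_l12362 _)
                  (CovZ.leaf K2_ok TB_l12363 _)))))
              (CovZ.n1 (-25344, 144) (by decide +kernel)
               (CovZ.subM 1418472223070201251642045443605170096982870613736756080046138562552845983773899582010913585175856963069038607651045376 (by decide +kernel)
                (CovZ.n2 (-25320, 168) (by decide +kernel)
                 (CovZ.n2 (-25320, 144) (by decide +kernel)
                  (CovZ.n2 (-25332, 156) (by decide +kernel)
                   (CovZ.badM (by decide +kernel))
                   (CovZ.leaf K2_ok TB_l12365 _))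
                  (CovZ.badM (by decide +kernel)))
                 (CovZ.n1 (-25344, 168) (by decide +kernel)
                  (CovZ.badM (by decide +kernel))
                  (CovZ.leaf K2_ok TB_l12367 _))))
               (CovZ.n1 (-25320, 120) (by decide +kernel)
                (CovZ.leaf K2_ok TB_l12368 _)
                (CovZ.n1 (-25320, 144) (by decide +kernel)
                 (CovZ.leaf K2_ok TB_l12369 _)
                 (CovZ.leaf K2_ok TB_l12370 _))))))
            (CovZ.n1 (-25296, 48) (by decide +kernel)
             (CovZ.n2 (-25344, 48) (by decide +kernel)
              (CovZ.n2 (-25320, 72) (by decide +kernel)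
               (CovZ.leaf K2_ok TB_l12371 _)
               (CovZ.leaf K2_ok TB_l12372 _))
              (CovZ.leaf K2_ok TB_l12373 _))
             (CovZ.subM 1418477032885428690410433583695116781083347226688841217449211844441960701579172983168314337093533434701984995397861376 (by decide +kernel)
              (CovZ.n1 (-25296, 96) (by decide +kernel)
               (CovZ.n2 (-25272, 72) (by decide +kernel)
                (CovZ.leaf K2_ok TB_l12374 _)
                (CovZ.n1 (-25272, 96) (by decide +kernel)
                 (CovZ.leaf K2_ok TB_l12375 _)
                 (CovZ.leaf K2_ok TB_l12376 _)))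
               (CovZ.n1 (-25320, 72) (by decide +kernel)
                (CovZ.leaf K2_ok TB_l12377 _)
                (CovZ.leaf K2_ok TB_l12378 _))))))
           (CovZ.subM 1418472223070201251642045443605170096982870613736756080046138758712275226025654993527012108881720221863607338214096896 (by decide +kernel)
            (CovZ.n1 (-25248, 192) (by decide +kernel)
             (CovZ.n2 (-25200, 144) (by decide +kernel)
              (CovZ.n2 (-25248, 144) (by decide +kernel)
               (CovZ.badM (by decide +kernel))
               (CovZ.n1 (-25224, 120) (by decide +kernel)
                (CovZ.n2 (-25248, 120) (by decide +kernel)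
                 (CovZ.badM (by decide +kernel))
                 (CovZ.leaf K2_ok TB_l12380 _))
                (CovZ.badM (by decide +kernel))))
              (CovZ.badM (by decide +kernel)))
             (CovZ.n1 (-25296, 144) (by decide +kernel)
              (CovZ.badM (by decide +kernel))
              (CovZ.n1 (-25248, 144) (by decide +kernel)
               (CovZ.n2 (-25272, 120) (by decide +kernel)
                (CovZ.n2 (-25272, 144) (by decide +kernel)
                 (CovZ.leaf K2_ok TB_l12385 _)
                 (CovZ.leaf K2_ok TB_l12386 _))
                (CovZ.n1 (-25248, 120) (by decide +kernel)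
                 (CovZ.leaf K2_ok TB_l12387 _)
                 (CovZ.leaf K2_ok TB_l12388 _)))
               (CovZ.badM (by decide +kernel))))))))
         (CovZ.badM (by decide +kernel))))

theorem TB_u82 : CovZ TB_M (toL (selN TB_LN 10370810048146515964230941268430989717962718574192966225131842395976022011949787570990673661128630550442238795737433915392)) [0, 7, 6, 1] (-25728, 384) (-25920, 384) (-25920, 192) :=
    (CovZ.n2 (-25824, 288) (by decide +kernel)
          (CovZ.n2 (-25920, 288) (by decide +kernel)
           (CovZ.subM 10370805122839192913045188530351404771855339997592724602679344469265904071859225273149935783807131194873621743034815234048 (by decide +kernel)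
            (CovZ.n2 (-25872, 336) (by decide +kernel)
             (CovZ.n2 (-25872, 288) (by decide +kernel)
              (CovZ.n2 (-25896, 312) (by decide +kernel)
               (CovZ.n2 (-25872, 312) (by decide +kernel)
                (CovZ.leaf K2_ok TB_l12446 _)
                (CovZ.n1 (-25884, 324) (by decide +kernel)
                 (CovZ.leaf K2_ok TB_l12447 _)
                 (CovZ.leaf K2_ok TB_l12448 _)))
               (CovZ.n1 (-25896, 288) (by decide +kernel)
                (CovZ.leaf K2_ok TB_l12449 _)
                (CovZ.leaf K2_ok TB_l12450 _)))
              (CovZ.n1 (-25848, 312) (by decide +kernel)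
               (CovZ.n2 (-25848, 288) (by decide +kernel)
                (CovZ.leaf K2_ok TB_l12451 _)
                (CovZ.leaf K2_ok TB_l12452 _))
               (CovZ.n1 (-25872, 312) (by decide +kernel)
                (CovZ.n2 (-25860, 324) (by decide +kernel)
                 (CovZ.leaf K2_ok TB_l12453 _)
                 (CovZ.leaf K2_ok TB_l12454 _))
                (CovZ.leaf K2_ok TB_l12455 _))))
             (CovZ.n1 (-25920, 336) (by decide +kernel)
              (CovZ.n2 (-25896, 360) (by decide +kernel)
               (CovZ.n2 (-25896, 336) (by decide +kernel)
                (CovZ.n2 (-25908, 348) (by decide +kernel)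
                 (CovZ.leaf K2_ok TB_l39868 _)
                 (CovZ.leaf K2_ok TB_l12456 _))
                (CovZ.n1 (-25884, 348) (by decide +kernel)
                 (CovZ.leaf K2_ok TB_l39869 _)
                 (CovZ.leaf K2_ok TB_l39870 _)))
               (CovZ.n1 (-25920, 360) (by decide +kernel)
                (CovZ.n2 (-25908, 372) (by decide +kernel)
                 (CovZ.leaf K2_ok TB_l39871 _)
                 (CovZ.leaf K2_ok TB_l39872 _))
                (CovZ.n1 (-25908, 348) (by decide +kernel)
                 (CovZ.leaf K2_ok TB_l12457 _)
                 (CovZ.leaf K2_ok TB_l39873 _))))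
              (CovZ.n1 (-25896, 312) (by decide +kernel)
               (CovZ.n2 (-25920, 312) (by decide +kernel)
                (CovZ.leaf K2_ok TB_l12458 _)
                (CovZ.leaf K2_ok TB_l12459 _))
               (CovZ.n1 (-25896, 336) (by decide +kernel)
                (CovZ.n2 (-25884, 324) (by decide +kernel)
                 (CovZ.leaf K2_ok TB_l12460 _)
                 (CovZ.n1 (-25884, 336) (by decide +kernel)
                  (CovZ.leaf K2_ok TB_l39874 _)
                  (CovZ.leaf K2_ok TB_l39875 _)))
                (CovZ.leaf K2_ok TB_l12461 _))))))
           (CovZ.n1 (-25872, 240) (by decide +kernel)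
            (CovZ.n2 (-25920, 240) (by decide +kernel)
             (CovZ.n2 (-25896, 264) (by decide +kernel)
              (CovZ.leaf K2_ok TB_l12462 _)
              (CovZ.leaf K2_ok TB_l12463 _))
             (CovZ.n1 (-25896, 216) (by decide +kernel)
              (CovZ.leaf K2_ok TB_l12464 _)
              (CovZ.leaf K2_ok TB_l12465 _)))
            (CovZ.n1 (-25872, 288) (by decide +kernel)
             (CovZ.n2 (-25848, 264) (by decide +kernel)
              (CovZ.leaf K2_ok TB_l12466 _)
              (CovZ.n1 (-25848, 288) (by decide +kernel)
               (CovZ.leaf K2_ok TB_l12467 _)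
               (CovZ.leaf K2_ok TB_l12468 _)))
             (CovZ.n1 (-25896, 264) (by decide +kernel)
              (CovZ.leaf K2_ok TB_l12469 _)
              (CovZ.leaf K2_ok TB_l12470 _)))))
          (CovZ.subM 10370805122839192913045188530351404771855221426493345590473979958863837463962487207337213193639451480383570630115866984448 (by decide +kernel)
           (CovZ.n1 (-25824, 384) (by decide +kernel)
            (CovZ.n2 (-25776, 336) (by decide +kernel)
             (CovZ.n2 (-25824, 336) (by decide +kernel)
              (CovZ.subM 16296287810676120274326040139665872430381764525143196545058454875963129313274709475726458880 (by decide +kernel)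
               (CovZ.n2 (-25800, 360) (by decide +kernel)
                (CovZ.n2 (-25800, 336) (by decide +kernel)
                 (CovZ.n2 (-25812, 348) (by decide +kernel)
                  (CovZ.badM (by decide +kernel))
                  (CovZ.leaf K2_ok TB_l39876 _))
                 (CovZ.badM (by decide +kernel)))
                (CovZ.n1 (-25824, 360) (by decide +kernel)
                 (CovZ.badM (by decide +kernel))
                 (CovZ.n1 (-25812, 348) (by decide +kernel)
                  (CovZ.n2 (-25824, 348) (by decide +kernel)
                   (CovZ.badM (by decide +kernel))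
                   (CovZ.n1 (-25818, 342) (by decide +kernel)
                    (CovZ.leaf K2_ok TB_l39877 _)
                    (CovZ.badM (by decide +kernel))))
                  (CovZ.badM (by decide +kernel))))))
              (CovZ.n1 (-25800, 312) (by decide +kernel)
               (CovZ.n2 (-25824, 312) (by decide +kernel)
                (CovZ.n2 (-25812, 324) (by decide +kernel)
                 (CovZ.leaf K2_ok TB_l39878 _)
                 (CovZ.leaf K2_ok TB_l39879 _))
                (CovZ.leaf K2_ok TB_l12471 _))
               (CovZ.subM 39402006196394479212279056396443080494553367970931106396270779541862185665666433621697663057944393608387061664972800 (by decide +kernel)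
                (CovZ.n1 (-25800, 336) (by decide +kernel)
                 (CovZ.n2 (-25788, 324) (by decide +kernel)
                  (CovZ.leaf K2_ok TB_l39880 _)
                  (CovZ.badM (by decide +kernel)))
                 (CovZ.n1 (-25812, 324) (by decide +kernel)
                  (CovZ.n2 (-25812, 336) (by decide +kernel)
                   (CovZ.n2 (-25806, 330) (by decide +kernel)
                    (CovZ.leaf K2_ok TB_l39881 _)
                    (CovZ.badM (by decide +kernel)))
                   (CovZ.leaf K2_ok TB_l39882 _))
                  (CovZ.leaf K2_ok TB_l39883 _))))))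
             (CovZ.badM (by decide +kernel)))
            (CovZ.n1 (-25872, 336) (by decide +kernel)
             (CovZ.subM 39402006196395039148464604921567672524095682618892013626401606466611940246569587358044880512806597149002522496598016 (by decide +kernel)
              (CovZ.n2 (-25872, 384) (by decide +kernel)
               (CovZ.n2 (-25848, 360) (by decide +kernel)
                (CovZ.n2 (-25872, 360) (by decide +kernel)
                 (CovZ.n2 (-25860, 372) (by decide +kernel)
                  (CovZ.leaf K2_ok TB_l39884 _)
                  (CovZ.n1 (-25872, 372) (by decide +kernel)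
                   (CovZ.badM (by decide +kernel))
                   (CovZ.leaf K2_ok TB_l39885 _)))
                 (CovZ.n1 (-25860, 348) (by decide +kernel)
                  (CovZ.leaf K2_ok TB_l39886 _)
                  (CovZ.subM 559936185560747340450036690416437109670077246739044148250140471786006422671003365658494082793628237824 (by decide +kernel)
                   (CovZ.n1 (-25860, 360) (by decide +kernel)
                    (CovZ.leaf K2_ok TB_l39887 _)
                    (CovZ.n1 (-25866, 354) (by decide +kernel)
                     (CovZ.n2 (-25866, 360) (by decide +kernel)
                      (CovZ.leaf K2_ok TB_l39888 _)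
                      (CovZ.leaf K2_ok TB_l39889 _))
                     (CovZ.leaf K2_ok TB_l39890 _))))))
                (CovZ.badM (by decide +kernel)))
               (CovZ.n1 (-25896, 360) (by decide +kernel)
                (CovZ.subM 559936185548525124592029773898826435539620977772735337888144854282189579974877077859914062556527853568 (by decide +kernel)
                 (CovZ.n2 (-25896, 384) (by decide +kernel)
                  (CovZ.n2 (-25884, 372) (by decide +kernel)
                   (CovZ.leaf K2_ok TB_l39891 _)
                   (CovZ.badM (by decide +kernel)))
                  (CovZ.n1 (-25908, 372) (by decide +kernel)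
                   (CovZ.n2 (-25908, 384) (by decide +kernel)
                    (CovZ.n2 (-25902, 378) (by decide +kernel)
                     (CovZ.leaf K2_ok TB_l39892 _)
                     (CovZ.leaf K2_ok TB_l39893 _))
                    (CovZ.n1 (-25914, 378) (by decide +kernel)
                     (CovZ.leaf K2_ok TB_l39894 _)
                     (CovZ.n1 (-25908, 378) (by decide +kernel)
                      (CovZ.leaf K2_ok TB_l39895 _)
                      (CovZ.n1 (-25911, 381) (by decide +kernel)
                       (CovZ.leaf K2_ok TB_l39896 _)
                       (CovZ.n1 (-25911, 378) (by decide +kernel)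
                        (CovZ.leaf K2_ok TB_l39897 _)
                        (CovZ.leaf K2_ok TB_l39898 _))))))
                   (CovZ.leaf K2_ok TB_l39899 _))))
                (CovZ.n1 (-25872, 360) (by decide +kernel)
                 (CovZ.n2 (-25884, 348) (by decide +kernel)
                  (CovZ.n2 (-25884, 360) (by decide +kernel)
                   (CovZ.leaf K2_ok TB_l39900 _)
                   (CovZ.leaf K2_ok TB_l39901 _))
                  (CovZ.leaf K2_ok TB_l39902 _))
                 (CovZ.subM 559936185548525124592029773898826435539620977772735337888144854282189579974877077859914062556527853568 (by decide +kernel)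
                  (CovZ.n1 (-25884, 372) (by decide +kernel)
                   (CovZ.n2 (-25872, 372) (by decide +kernel)
                    (CovZ.n2 (-25878, 366) (by decide +kernel)
                     (CovZ.badM (by decide +kernel))
                     (CovZ.leaf K2_ok TB_l39903 _))
                    (CovZ.badM (by decide +kernel)))
                   (CovZ.leaf K2_ok TB_l39904 _)))))))
             (CovZ.n1 (-25824, 336) (by decide +kernel)
              (CovZ.n2 (-25848, 312) (by decide +kernel)
               (CovZ.n2 (-25848, 336) (by decide +kernel)
                (CovZ.n2 (-25836, 324) (by decide +kernel)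
                 (CovZ.leaf K2_ok TB_l12472 _)
                 (CovZ.leaf K2_ok TB_l39905 _))
                (CovZ.leaf K2_ok TB_l12473 _))
               (CovZ.n1 (-25824, 312) (by decide +kernel)
                (CovZ.leaf K2_ok TB_l12474 _)
                (CovZ.n1 (-25836, 324) (by decide +kernel)
                 (CovZ.leaf K2_ok TB_l39906 _)
                 (CovZ.leaf K2_ok TB_l12475 _))))
              (CovZ.subM 39402006196395039148464604921567672524095682618892013626401606466611940246569587358044880512806597149002522496598016 (by decide +kernel)
               (CovZ.n1 (-25848, 360) (by decide +kernel)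
                (CovZ.subM 16296287810676120274326040139665872430381764525143196545058454875963129313274709475726458880 (by decide +kernel)
                 (CovZ.n2 (-25824, 360) (by decide +kernel)
                  (CovZ.n2 (-25836, 348) (by decide +kernel)
                   (CovZ.n2 (-25836, 360) (by decide +kernel)
                    (CovZ.n2 (-25830, 354) (by decide +kernel)
                     (CovZ.leaf K2_ok TB_l39907 _)
                     (CovZ.badM (by decide +kernel)))
                    (CovZ.n1 (-25842, 354) (by decide +kernel)
                     (CovZ.badM (by decide +kernel))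
                     (CovZ.leaf K2_ok TB_l39908 _)))
                   (CovZ.leaf K2_ok TB_l39909 _))
                  (CovZ.badM (by decide +kernel))))
                (CovZ.n1 (-25848, 336) (by decide +kernel)
                 (CovZ.n2 (-25860, 348) (by decide +kernel)
                  (CovZ.leaf K2_ok TB_l39910 _)
                  (CovZ.leaf K2_ok TB_l39911 _))
                 (CovZ.n1 (-25836, 348) (by decide +kernel)
                  (CovZ.leaf K2_ok TB_l39912 _)
                  (CovZ.leaf K2_ok TB_l39913 _))))))))))

theorem TB_u83 : CovZ TB_M (toL (selN TB_LN 10370810048146515964230941268430989717962718574192966225131842395976022011949787570990673661128630550442238795737433915392)) [0, 7, 6, 1] (-25920, 384) (-26112, 384) (-25920, 192) :=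
    (CovZ.n1 (-26016, 288) (by decide +kernel)
          (CovZ.n2 (-26016, 384) (by decide +kernel)
           (CovZ.n2 (-25968, 336) (by decide +kernel)
            (CovZ.n2 (-26016, 336) (by decide +kernel)
             (CovZ.subM 10330457468494084894659983043599122973540545200476573024592032796390215130457002124648506129935486690345503905835965759488 (by decide +kernel)
              (CovZ.n2 (-25992, 360) (by decide +kernel)
               (CovZ.n2 (-25992, 336) (by decide +kernel)
                (CovZ.leaf K2_ok TB_l12476 _)
                (CovZ.leaf K2_ok TB_l12477 _))
               (CovZ.n1 (-26016, 360) (by decide +kernel)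
                (CovZ.n2 (-26004, 372) (by decide +kernel)
                 (CovZ.leaf K2_ok TB_l12478 _)
                 (CovZ.leaf K2_ok TB_l12479 _))
                (CovZ.leaf K2_ok TB_l12480 _))))
             (CovZ.n1 (-25992, 312) (by decide +kernel)
              (CovZ.leaf K2_ok TB_l12481 _)
              (CovZ.n1 (-25992, 336) (by decide +kernel)
               (CovZ.leaf K2_ok TB_l12482 _)
               (CovZ.leaf K2_ok TB_l12483 _))))
            (CovZ.subM 10330457468494066546671055123027030086912555809799613606821772528864341367496070067080820446080326587826714162873059262464 (by decide +kernel)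
             (CovZ.n1 (-25968, 384) (by decide +kernel)
              (CovZ.n2 (-25944, 360) (by decide +kernel)
               (CovZ.n2 (-25968, 360) (by decide +kernel)
                (CovZ.n2 (-25956, 372) (by decide +kernel)
                 (CovZ.leaf K2_ok TB_l12484 _)
                 (CovZ.leaf K2_ok TB_l12485 _))
                (CovZ.n1 (-25956, 348) (by decide +kernel)
                 (CovZ.leaf K2_ok TB_l12486 _)
                 (CovZ.leaf K2_ok TB_l12487 _)))
               (CovZ.subM 39483773054956892926126788781737679406152104234949298415994863098826233985124817064729491090785436961601307801550848 (by decide +kernel)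
                (CovZ.n1 (-25944, 384) (by decide +kernel)
                 (CovZ.n2 (-25932, 372) (by decide +kernel)
                  (CovZ.leaf K2_ok TB_l39914 _)
                  (CovZ.subM 76957043352892903397031025320185025255361013723535055653967275875679754482697709724112237778016846907680713867264 (by decide +kernel)
                   (CovZ.n1 (-25932, 384) (by decide +kernel)
                    (CovZ.n2 (-25926, 378) (by decide +kernel)
                     (CovZ.leaf K2_ok TB_l39915 _)
                     (CovZ.leaf K2_ok TB_l39916 _))
                    (CovZ.n1 (-25938, 378) (by decide +kernel)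
                     (CovZ.leaf K2_ok TB_l39917 _)
                     (CovZ.n1 (-25932, 378) (by decide +kernel)
                      (CovZ.leaf K2_ok TB_l39918 _)
                      (CovZ.leaf K2_ok TB_l39919 _))))))
                 (CovZ.n1 (-25956, 372) (by decide +kernel)
                  (CovZ.subM 76957043352892903397031025320185025255361013723535055653967275875679754482697709724112237778016846907680713867264 (by decide +kernel)
                   (CovZ.n2 (-25956, 384) (by decide +kernel)
                    (CovZ.n2 (-25950, 378) (by decide +kernel)
                     (CovZ.leaf K2_ok TB_l39920 _)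
                     (CovZ.leaf K2_ok TB_l39921 _))
                    (CovZ.n1 (-25962, 378) (by decide +kernel)
                     (CovZ.leaf K2_ok TB_l39922 _)
                     (CovZ.n1 (-25956, 378) (by decide +kernel)
                      (CovZ.leaf K2_ok TB_l39923 _)
                      (CovZ.leaf K2_ok TB_l39924 _)))))
                  (CovZ.leaf K2_ok TB_l39925 _)))))
              (CovZ.n1 (-25992, 360) (by decide +kernel)
               (CovZ.n2 (-25992, 384) (by decide +kernel)
                (CovZ.n2 (-25980, 372) (by decide +kernel)
                 (CovZ.leaf K2_ok TB_l12488 _)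
                 (CovZ.leaf K2_ok TB_l12489 _))
                (CovZ.n1 (-26004, 372) (by decide +kernel)
                 (CovZ.leaf K2_ok TB_l12490 _)
                 (CovZ.leaf K2_ok TB_l12491 _)))
               (CovZ.n1 (-25968, 360) (by decide +kernel)
                (CovZ.leaf K2_ok TB_l12492 _)
                (CovZ.n1 (-25980, 372) (by decide +kernel)
                 (CovZ.leaf K2_ok TB_l12493 _)
                 (CovZ.leaf K2_ok TB_l12494 _)))))))
           (CovZ.n1 (-26064, 336) (by decide +kernel)
            (CovZ.n2 (-26064, 384) (by decide +kernel)
             (CovZ.subM 10330457468494084894659983043599122973540545200476573024592032997257470662830786567393767672580812005620878128685070172160 (by decide +kernel)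
              (CovZ.n2 (-26040, 360) (by decide +kernel)
               (CovZ.n2 (-26064, 360) (by decide +kernel)
                (CovZ.leaf K2_ok TB_l12495 _)
                (CovZ.leaf K2_ok TB_l12496 _))
               (CovZ.n1 (-26040, 384) (by decide +kernel)
                (CovZ.n2 (-26028, 372) (by decide +kernel)
                 (CovZ.leaf K2_ok TB_l12497 _)
                 (CovZ.leaf K2_ok TB_l12498 _))
                (CovZ.leaf K2_ok TB_l12499 _))))
             (CovZ.n1 (-26088, 360) (by decide +kernel)
              (CovZ.n2 (-26088, 384) (by decide +kernel)
               (CovZ.leaf K2_ok TB_l12500 _)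
               (CovZ.leaf K2_ok TB_l12501 _))
              (CovZ.leaf K2_ok TB_l12502 _)))
            (CovZ.n1 (-26016, 336) (by decide +kernel)
             (CovZ.n2 (-26040, 312) (by decide +kernel)
              (CovZ.n2 (-26040, 336) (by decide +kernel)
               (CovZ.leaf K2_ok TB_l12503 _)
               (CovZ.leaf K2_ok TB_l12504 _))
              (CovZ.leaf K2_ok TB_l12505 _))
             (CovZ.subM 10330457468494084894659983043599122973540545200476573024592032997257470662830786567393767672580812005620878128685070172160 (by decide +kernel)
              (CovZ.n1 (-26040, 360) (by decide +kernel)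
               (CovZ.n2 (-26016, 360) (by decide +kernel)
                (CovZ.leaf K2_ok TB_l12506 _)
                (CovZ.leaf K2_ok TB_l12507 _))
               (CovZ.n1 (-26040, 336) (by decide +kernel)
                (CovZ.leaf K2_ok TB_l12508 _)
                (CovZ.leaf K2_ok TB_l12509 _)))))))
          (CovZ.n1 (-25920, 288) (by decide +kernel)
           (CovZ.n2 (-25968, 240) (by decide +kernel)
            (CovZ.n2 (-25968, 288) (by decide +kernel)
             (CovZ.n2 (-25944, 264) (by decide +kernel)
              (CovZ.leaf K2_ok TB_l12510 _)
              (CovZ.leaf K2_ok TB_l12511 _))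
             (CovZ.leaf K2_ok TB_l12512 _))
            (CovZ.n1 (-25920, 240) (by decide +kernel)
             (CovZ.leaf K2_ok TB_l12513 _)
             (CovZ.n1 (-25944, 264) (by decide +kernel)
              (CovZ.leaf K2_ok TB_l12514 _)
              (CovZ.leaf K2_ok TB_l12515 _))))
           (CovZ.n1 (-25968, 336) (by decide +kernel)
            (CovZ.subM 10370805122839192913045188530351404771855339997592724602679344469265904071859225273149935783807131194873621743034815234048 (by decide +kernel)
             (CovZ.n2 (-25920, 336) (by decide +kernel)
              (CovZ.n2 (-25944, 312) (by decide +kernel)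
               (CovZ.n2 (-25944, 336) (by decide +kernel)
                (CovZ.n2 (-25932, 324) (by decide +kernel)
                 (CovZ.leaf K2_ok TB_l12516 _)
                 (CovZ.leaf K2_ok TB_l12517 _))
                (CovZ.leaf K2_ok TB_l12518 _))
               (CovZ.n1 (-25920, 312) (by decide +kernel)
                (CovZ.leaf K2_ok TB_l12519 _)
                (CovZ.n1 (-25932, 324) (by decide +kernel)
                 (CovZ.leaf K2_ok TB_l12520 _)
                 (CovZ.leaf K2_ok TB_l12521 _))))
              (CovZ.n1 (-25944, 360) (by decide +kernel)
               (CovZ.n2 (-25920, 360) (by decide +kernel)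
                (CovZ.n2 (-25932, 348) (by decide +kernel)
                 (CovZ.leaf K2_ok TB_l39926 _)
                 (CovZ.leaf K2_ok TB_l12522 _))
                (CovZ.n1 (-25932, 372) (by decide +kernel)
                 (CovZ.leaf K2_ok TB_l39927 _)
                 (CovZ.leaf K2_ok TB_l39928 _)))
               (CovZ.n1 (-25944, 336) (by decide +kernel)
                (CovZ.n2 (-25956, 348) (by decide +kernel)
                 (CovZ.leaf K2_ok TB_l12523 _)
                 (CovZ.leaf K2_ok TB_l12524 _))
                (CovZ.leaf K2_ok TB_l12525 _)))))
            (CovZ.n1 (-25968, 288) (by decide +kernel)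
             (CovZ.n2 (-25992, 312) (by decide +kernel)
              (CovZ.leaf K2_ok TB_l12526 _)
              (CovZ.leaf K2_ok TB_l12527 _))
             (CovZ.n1 (-25944, 312) (by decide +kernel)
              (CovZ.leaf K2_ok TB_l12528 _)
              (CovZ.leaf K2_ok TB_l12529 _))))))

theorem TB_u84 : CovZ TB_M (toL (selN TB_LN 10370810048146515964230941268430989717962718574192966225131842395976022011949787570990673661128630550442238795737433915392)) [0, 7, 6, 1] (-26112, 768) (-26112, 384) (-25728, 384) :=
    (CovZ.n2 (-25920, 576) (by decide +kernel)
        (CovZ.n2 (-25920, 384) (by decide +kernel)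
         (CovZ.n2 (-26016, 480) (by decide +kernel)
          (CovZ.subM 559936185548525124592029542314647960907230130630765320512329147742220248693748998944746046730268573696 (by decide +kernel)
           (CovZ.n2 (-25920, 480) (by decide +kernel)
            (CovZ.n2 (-25968, 432) (by decide +kernel)
             (CovZ.badM (by decide +kernel))
             (CovZ.n1 (-25920, 432) (by decide +kernel)
              (CovZ.n2 (-25944, 408) (by decide +kernel)
               (CovZ.badM (by decide +kernel))
               (CovZ.n1 (-25920, 408) (by decide +kernel)
                (CovZ.n2 (-25932, 396) (by decide +kernel)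
                 (CovZ.badM (by decide +kernel))
                 (CovZ.n1 (-25920, 396) (by decide +kernel)
                  (CovZ.n2 (-25926, 390) (by decide +kernel)
                   (CovZ.badM (by decide +kernel))
                   (CovZ.n1 (-25920, 390) (by decide +kernel)
                    (CovZ.leaf K2_ok TB_l39838 _)
                    (CovZ.badM (by decide +kernel))))
                  (CovZ.badM (by decide +kernel))))
                (CovZ.badM (by decide +kernel))))
              (CovZ.badM (by decide +kernel))))
            (CovZ.badM (by decide +kernel))))
          (CovZ.n1 (-26016, 384) (by decide +kernel)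
           (CovZ.n2 (-26064, 432) (by decide +kernel)
            (CovZ.subM 10329038996270996345419413077567128629004896818911550810180809744157989045508056653605326103389084291626343404915484803072 (by decide +kernel)
             (CovZ.n2 (-26016, 432) (by decide +kernel)
              (CovZ.n2 (-26040, 408) (by decide +kernel)
               (CovZ.badM (by decide +kernel))
               (CovZ.n1 (-26016, 408) (by decide +kernel)
                (CovZ.n2 (-26028, 396) (by decide +kernel)
                 (CovZ.leaf K2_ok TB_l39839 _)
                 (CovZ.leaf K2_ok TB_l12390 _))
                (CovZ.badM (by decide +kernel))))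
              (CovZ.badM (by decide +kernel))))
            (CovZ.n1 (-26064, 384) (by decide +kernel)
             (CovZ.n2 (-26088, 408) (by decide +kernel)
              (CovZ.n2 (-26064, 408) (by decide +kernel)
               (CovZ.leaf K2_ok TB_l12391 _)
               (CovZ.n1 (-26076, 420) (by decide +kernel)
                (CovZ.leaf K2_ok TB_l12392 _)
                (CovZ.leaf K2_ok TB_l12393 _)))
              (CovZ.n1 (-26088, 384) (by decide +kernel)
               (CovZ.leaf K2_ok TB_l12394 _)
               (CovZ.leaf K2_ok TB_l12395 _)))
             (CovZ.subM 10330457468494066546671055123010733799101998260624666578466220393122608499388568619000059607141939863079463556442084098048 (by decide +kernel)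
              (CovZ.n1 (-26040, 408) (by decide +kernel)
               (CovZ.n2 (-26040, 384) (by decide +kernel)
                (CovZ.n2 (-26052, 396) (by decide +kernel)
                 (CovZ.leaf K2_ok TB_l12396 _)
                 (CovZ.leaf K2_ok TB_l12397 _))
                (CovZ.leaf K2_ok TB_l12398 _))
               (CovZ.n1 (-26064, 408) (by decide +kernel)
                (CovZ.n2 (-26052, 420) (by decide +kernel)
                 (CovZ.leaf K2_ok TB_l12399 _)
                 (CovZ.leaf K2_ok TB_l12400 _))
                (CovZ.n1 (-26052, 396) (by decide +kernel)
                 (CovZ.leaf K2_ok TB_l12401 _)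
                 (CovZ.leaf K2_ok TB_l12402 _)))))))
           (CovZ.subM 10329038996270996345419413077567128629004896818911550810180809744157989045508056653605326103389084291626343404915484803072 (by decide +kernel)
            (CovZ.n1 (-25968, 432) (by decide +kernel)
             (CovZ.n2 (-25968, 384) (by decide +kernel)
              (CovZ.n2 (-25992, 408) (by decide +kernel)
               (CovZ.subM 76957043352892903397031025320185025255361013723535055653967275875679754482697709724112237778016846907680713867264 (by decide +kernel)
                (CovZ.n2 (-25968, 408) (by decide +kernel)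
                 (CovZ.n2 (-25980, 396) (by decide +kernel)
                  (CovZ.badM (by decide +kernel))
                  (CovZ.n1 (-25968, 396) (by decide +kernel)
                   (CovZ.n2 (-25974, 390) (by decide +kernel)
                    (CovZ.leaf K2_ok TB_l39840 _)
                    (CovZ.n1 (-25968, 390) (by decide +kernel)
                     (CovZ.leaf K2_ok TB_l39841 _)
                     (CovZ.leaf K2_ok TB_l39842 _)))
                   (CovZ.badM (by decide +kernel))))
                 (CovZ.badM (by decide +kernel))))
               (CovZ.n1 (-25992, 384) (by decide +kernel)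
                (CovZ.n2 (-26004, 396) (by decide +kernel)
                 (CovZ.leaf K2_ok TB_l39843 _)
                 (CovZ.leaf K2_ok TB_l12403 _))
                (CovZ.n1 (-25980, 396) (by decide +kernel)
                 (CovZ.leaf K2_ok TB_l39844 _)
                 (CovZ.leaf K2_ok TB_l39845 _))))
              (CovZ.subM 76957043352892903397031025320185025255361013723535055653967275875679754482697709724112237778016846907680713867264 (by decide +kernel)
               (CovZ.n1 (-25944, 408) (by decide +kernel)
                (CovZ.n2 (-25944, 384) (by decide +kernel)
                 (CovZ.n2 (-25956, 396) (by decide +kernel)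
                  (CovZ.n2 (-25944, 396) (by decide +kernel)
                   (CovZ.n2 (-25950, 390) (by decide +kernel)
                    (CovZ.badM (by decide +kernel))
                    (CovZ.n1 (-25944, 390) (by decide +kernel)
                     (CovZ.leaf K2_ok TB_l39846 _)
                     (CovZ.badM (by decide +kernel))))
                   (CovZ.badM (by decide +kernel)))
                  (CovZ.n1 (-25956, 384) (by decide +kernel)
                   (CovZ.n2 (-25962, 390) (by decide +kernel)
                    (CovZ.leaf K2_ok TB_l39847 _)
                    (CovZ.leaf K2_ok TB_l39848 _))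
                   (CovZ.n1 (-25950, 390) (by decide +kernel)
                    (CovZ.leaf K2_ok TB_l39849 _)
                    (CovZ.leaf K2_ok TB_l39850 _))))
                 (CovZ.n1 (-25932, 396) (by decide +kernel)
                  (CovZ.n2 (-25932, 384) (by decide +kernel)
                   (CovZ.n2 (-25938, 390) (by decide +kernel)
                    (CovZ.leaf K2_ok TB_l39851 _)
                    (CovZ.leaf K2_ok TB_l39852 _))
                   (CovZ.n1 (-25926, 390) (by decide +kernel)
                    (CovZ.leaf K2_ok TB_l39853 _)
                    (CovZ.n1 (-25932, 390) (by decide +kernel)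
                     (CovZ.badM (by decide +kernel))
                     (CovZ.leaf K2_ok TB_l39854 _))))
                  (CovZ.leaf K2_ok TB_l39855 _)))
                (CovZ.n1 (-25968, 408) (by decide +kernel)
                 (CovZ.badM (by decide +kernel))
                 (CovZ.n1 (-25956, 396) (by decide +kernel)
                  (CovZ.leaf K2_ok TB_l39856 _)
                  (CovZ.badM (by decide +kernel)))))))
             (CovZ.n1 (-26016, 432) (by decide +kernel)
              (CovZ.badM (by decide +kernel))
              (CovZ.n1 (-25992, 408) (by decide +kernel)
               (CovZ.n2 (-26016, 408) (by decide +kernel)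
                (CovZ.badM (by decide +kernel))
                (CovZ.n1 (-26004, 396) (by decide +kernel)
                 (CovZ.leaf K2_ok TB_l12404 _)
                 (CovZ.badM (by decide +kernel))))
               (CovZ.badM (by decide +kernel))))))))
         (CovZ.subM 559936185548525124592029542314647960907230130630765320512329147742220248693748998944746046730268573696 (by decide +kernel)
          (CovZ.n1 (-25824, 480) (by decide +kernel)
           (CovZ.n2 (-25824, 384) (by decide +kernel)
            (CovZ.n2 (-25872, 432) (by decide +kernel)
             (CovZ.badM (by decide +kernel))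
             (CovZ.n1 (-25872, 384) (by decide +kernel)
              (CovZ.n2 (-25896, 408) (by decide +kernel)
               (CovZ.badM (by decide +kernel))
               (CovZ.n1 (-25896, 384) (by decide +kernel)
                (CovZ.n2 (-25908, 396) (by decide +kernel)
                 (CovZ.badM (by decide +kernel))
                 (CovZ.n1 (-25908, 384) (by decide +kernel)
                  (CovZ.n2 (-25914, 390) (by decide +kernel)
                   (CovZ.badM (by decide +kernel))
                   (CovZ.leaf K2_ok TB_l39857 _))
                  (CovZ.badM (by decide +kernel))))
                (CovZ.badM (by decide +kernel))))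
              (CovZ.badM (by decide +kernel))))
            (CovZ.badM (by decide +kernel)))
           (CovZ.n1 (-25920, 480) (by decide +kernel)
            (CovZ.badM (by decide +kernel))
            (CovZ.n1 (-25872, 432) (by decide +kernel)
             (CovZ.n2 (-25920, 432) (by decide +kernel)
              (CovZ.badM (by decide +kernel))
              (CovZ.n1 (-25896, 408) (by decide +kernel)
               (CovZ.n2 (-25920, 408) (by decide +kernel)
                (CovZ.badM (by decide +kernel))
                (CovZ.n1 (-25908, 396) (by decide +kernel)
                 (CovZ.n2 (-25920, 396) (by decide +kernel)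
                  (CovZ.badM (by decide +kernel))
                  (CovZ.n1 (-25914, 390) (by decide +kernel)
                   (CovZ.n2 (-25920, 390) (by decide +kernel)
                    (CovZ.badM (by decide +kernel))
                    (CovZ.leaf K2_ok TB_l39858 _))
                   (CovZ.badM (by decide +kernel))))
                 (CovZ.badM (by decide +kernel))))
               (CovZ.badM (by decide +kernel))))
             (CovZ.badM (by decide +kernel)))))))
        (CovZ.n1 (-26112, 576) (by decide +kernel)
         (CovZ.badM (by decide +kernel))
         (CovZ.n1 (-26016, 480) (by decide +kernel)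
          (CovZ.n2 (-26112, 480) (by decide +kernel)
           (CovZ.badM (by decide +kernel))
           (CovZ.n1 (-26064, 432) (by decide +kernel)
            (CovZ.n2 (-26112, 432) (by decide +kernel)
             (CovZ.subM 10329004437598592692428142364803655493396467794415967204931658066919445597699525968206847358482468320401071514013856710656 (by decide +kernel)
              (CovZ.n2 (-26088, 456) (by decide +kernel)
               (CovZ.n2 (-26088, 432) (by decide +kernel)
                (CovZ.n2 (-26100, 444) (by decide +kernel)
                 (CovZ.leaf K2_ok TB_l39859 _)
                 (CovZ.leaf K2_ok TB_l12405 _))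
                (CovZ.subM 118571099379012205362903460957357824730746133913554950776573919819851881745743872 (by decide +kernel)
                 (CovZ.n1 (-26076, 444) (by decide +kernel)
                  (CovZ.n2 (-26076, 432) (by decide +kernel)
                   (CovZ.n2 (-26082, 438) (by decide +kernel)
                    (CovZ.badM (by decide +kernel))
                    (CovZ.n1 (-26082, 432) (by decide +kernel)
                     (CovZ.leaf K2_ok TB_l39860 _)
                     (CovZ.badM (by decide +kernel))))
                   (CovZ.badM (by decide +kernel)))
                  (CovZ.leaf K2_ok TB_l39861 _))))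
               (CovZ.n1 (-26112, 456) (by decide +kernel)
                (CovZ.subM 4925250774549309901534888160661857063579312482590934676694250546555045154553301690657393822227796712645136150953984 (by decide +kernel)
                 (CovZ.n2 (-26100, 468) (by decide +kernel)
                  (CovZ.n2 (-26100, 456) (by decide +kernel)
                   (CovZ.n2 (-26106, 462) (by decide +kernel)
                    (CovZ.badM (by decide +kernel))
                    (CovZ.leaf K2_ok TB_l39862 _))
                   (CovZ.badM (by decide +kernel)))
                  (CovZ.leaf K2_ok TB_l39863 _)))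
                (CovZ.n1 (-26100, 444) (by decide +kernel)
                 (CovZ.leaf K2_ok TB_l12406 _)
                 (CovZ.subM 4925250774549309901534889179179845349393454995825984244286693949932451301380625988072831656204614814861551237857280 (by decide +kernel)
                  (CovZ.n1 (-26100, 456) (by decide +kernel)
                   (CovZ.n2 (-26094, 450) (by decide +kernel)
                    (CovZ.leaf K2_ok TB_l39864 _)
                    (CovZ.badM (by decide +kernel)))
                   (CovZ.n1 (-26106, 450) (by decide +kernel)
                    (CovZ.leaf K2_ok TB_l39865 _)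
                    (CovZ.leaf K2_ok TB_l39866 _))))))))
             (CovZ.n1 (-26088, 408) (by decide +kernel)
              (CovZ.n2 (-26112, 408) (by decide +kernel)
               (CovZ.leaf K2_ok TB_l12407 _)
               (CovZ.leaf K2_ok TB_l12408 _))
              (CovZ.n1 (-26088, 432) (by decide +kernel)
               (CovZ.n2 (-26076, 420) (by decide +kernel)
                (CovZ.leaf K2_ok TB_l12409 _)
                (CovZ.leaf K2_ok TB_l39867 _))
               (CovZ.n1 (-26100, 420) (by decide +kernel)
                (CovZ.leaf K2_ok TB_l12410 _)
                (CovZ.leaf K2_ok TB_l12411 _)))))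
            (CovZ.n1 (-26064, 480) (by decide +kernel)
             (CovZ.badM (by decide +kernel))
             (CovZ.n1 (-26088, 456) (by decide +kernel)
              (CovZ.badM (by decide +kernel))
              (CovZ.badM (by decide +kernel))))))
          (CovZ.badM (by decide +kernel)))))

theorem TB_u85 : CovZ TB_M (toL (selN TB_LN 10370810048146515964230941268430989717962718574192966225131842395976022011949787570990673661128630550442238795737433915392)) [0, 7, 6, 1] (-26112, 384) (-26112, 0) (-25728, 384) :=
    (CovZ.n1 (-25920, 192) (by decide +kernel)
        (CovZ.n2 (-26112, 192) (by decide +kernel)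
         (CovZ.n2 (-26016, 288) (by decide +kernel)
          (CovZ.n2 (-26016, 192) (by decide +kernel)
           (CovZ.n2 (-26064, 240) (by decide +kernel)
            (CovZ.n2 (-26016, 240) (by decide +kernel)
             (CovZ.leaf K2_ok TB_l12412 _)
             (CovZ.leaf K2_ok TB_l12413 _))
            (CovZ.n1 (-26064, 192) (by decide +kernel)
             (CovZ.leaf K2_ok TB_l12414 _)
             (CovZ.leaf K2_ok TB_l12415 _)))
           (CovZ.n1 (-25968, 240) (by decide +kernel)
            (CovZ.n2 (-25968, 192) (by decide +kernel)
             (CovZ.leaf K2_ok TB_l12416 _)
             (CovZ.leaf K2_ok TB_l12417 _))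
            (CovZ.n1 (-26016, 240) (by decide +kernel)
             (CovZ.n2 (-25992, 264) (by decide +kernel)
              (CovZ.leaf K2_ok TB_l12418 _)
              (CovZ.leaf K2_ok TB_l12419 _))
             (CovZ.leaf K2_ok TB_l12420 _))))
          (CovZ.n1 (-26112, 288) (by decide +kernel)
           (CovZ.n2 (-26064, 336) (by decide +kernel)
            (CovZ.n2 (-26064, 288) (by decide +kernel)
             (CovZ.n2 (-26088, 312) (by decide +kernel)
              (CovZ.leaf K2_ok TB_l12421 _)
              (CovZ.leaf K2_ok TB_l12422 _))
             (CovZ.n1 (-26040, 312) (by decide +kernel)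
              (CovZ.leaf K2_ok TB_l12423 _)
              (CovZ.leaf K2_ok TB_l12424 _)))
            (CovZ.n1 (-26112, 336) (by decide +kernel)
             (CovZ.n2 (-26088, 360) (by decide +kernel)
              (CovZ.n2 (-26088, 336) (by decide +kernel)
               (CovZ.leaf K2_ok TB_l12425 _)
               (CovZ.leaf K2_ok TB_l12426 _))
              (CovZ.leaf K2_ok TB_l12427 _))
             (CovZ.n1 (-26088, 312) (by decide +kernel)
              (CovZ.leaf K2_ok TB_l12428 _)
              (CovZ.n1 (-26088, 336) (by decide +kernel)
               (CovZ.leaf K2_ok TB_l12429 _)
               (CovZ.leaf K2_ok TB_l12430 _)))))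
           (CovZ.n1 (-26064, 240) (by decide +kernel)
            (CovZ.n2 (-26112, 240) (by decide +kernel)
             (CovZ.leaf K2_ok TB_l12431 _)
             (CovZ.leaf K2_ok TB_l12432 _))
            (CovZ.n1 (-26064, 288) (by decide +kernel)
             (CovZ.leaf K2_ok TB_l12433 _)
             (CovZ.n1 (-26088, 264) (by decide +kernel)
              (CovZ.leaf K2_ok TB_l12434 _)
              (CovZ.leaf K2_ok TB_l12435 _))))))
         (CovZ.n1 (-26016, 96) (by decide +kernel)
          (CovZ.n2 (-26112, 96) (by decide +kernel)
           (CovZ.n2 (-26064, 144) (by decide +kernel)
            (CovZ.leaf K2_ok TB_l12436 _)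
            (CovZ.leaf K2_ok TB_l12437 _))
           (CovZ.n1 (-26064, 48) (by decide +kernel)
            (CovZ.leaf K2_ok TB_l12438 _)
            (CovZ.leaf K2_ok TB_l12439 _)))
          (CovZ.n1 (-26016, 192) (by decide +kernel)
           (CovZ.n2 (-25968, 144) (by decide +kernel)
            (CovZ.leaf K2_ok TB_l12440 _)
            (CovZ.n1 (-25968, 192) (by decide +kernel)
             (CovZ.leaf K2_ok TB_l12441 _)
             (CovZ.leaf K2_ok TB_l12442 _)))
           (CovZ.n1 (-26064, 144) (by decide +kernel)
            (CovZ.n2 (-26064, 192) (by decide +kernel)
             (CovZ.leaf K2_ok TB_l12443 _)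
             (CovZ.leaf K2_ok TB_l12444 _))
            (CovZ.leaf K2_ok TB_l12445 _)))))
        (CovZ.n1 (-25920, 384) (by decide +kernel)
         TB_u82
         TB_u83))

theorem TB_u86 : CovZ TB_M (toL (selN TB_LN 8196114235863813590666107271896742383769618688835395020596430963453764968193488191052786341978936863938802579034451390634414830504399912764440578)) [0, 7, 6, 1] (-30720, 1536) (-30720, 1920) (-31104, 1920) :=
    (CovZ.n2 (-30912, 1728) (by decide +kernel)
        (CovZ.n2 (-30912, 1920) (by decide +kernel)
         (CovZ.n2 (-30816, 1824) (by decide +kernel)
          (CovZ.subM 7805895667074314559035722370005275708856724164349276007593642493270440996378070403478758267553317310890379133383201893448801275081334054807666690 (by decide +kernel)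
           (CovZ.n2 (-30912, 1824) (by decide +kernel)
            (CovZ.n2 (-30864, 1872) (by decide +kernel)
             (CovZ.n2 (-30864, 1824) (by decide +kernel)
              (CovZ.leaf K2_ok TB_l613 _)
              (CovZ.leaf K3_ok TB_l614 _))
             (CovZ.leaf K2_ok TB_l615 _))
            (CovZ.n1 (-30864, 1776) (by decide +kernel)
             (CovZ.leaf K2_ok TB_l616 _)
             (CovZ.n1 (-30864, 1824) (by decide +kernel)
              (CovZ.leaf K3_ok TB_l617 _)
              (CovZ.leaf K3_ok TB_l618 _)))))
          (CovZ.n1 (-30816, 1920) (by decide +kernel)
           (CovZ.n2 (-30768, 1872) (by decide +kernel)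
            (CovZ.n2 (-30816, 1872) (by decide +kernel)
             (CovZ.leaf K3_ok TB_l619 _)
             (CovZ.leaf K3_ok TB_l620 _))
            (CovZ.n1 (-30768, 1920) (by decide +kernel)
             (CovZ.n2 (-30744, 1896) (by decide +kernel)
              (CovZ.leaf K3_ok TB_l621 _)
              (CovZ.leaf K3_ok TB_l622 _))
             (CovZ.leaf K3_ok TB_l623 _)))
           (CovZ.subM 7805895667074314559035722370005275708856724164349276007593642493270440996378070403478758267553317310890379133383201893448801275081334054807666690 (by decide +kernel)
            (CovZ.n1 (-30864, 1872) (by decide +kernel)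
             (CovZ.n2 (-30864, 1920) (by decide +kernel)
              (CovZ.leaf K3_ok TB_l624 _)
              (CovZ.leaf K2_ok TB_l625 _))
             (CovZ.n1 (-30816, 1872) (by decide +kernel)
              (CovZ.leaf K3_ok TB_l626 _)
              (CovZ.n1 (-30840, 1896) (by decide +kernel)
               (CovZ.leaf K3_ok TB_l627 _)
               (CovZ.leaf K3_ok TB_l628 _)))))))
         (CovZ.subM 994646472819573284310764496293641680200912301768920006745716097679795022431628778536962 (by decide +kernel)
          (CovZ.n1 (-31008, 1824) (by decide +kernel)
           (CovZ.n2 (-31008, 1920) (by decide +kernel)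
            (CovZ.n2 (-30960, 1872) (by decide +kernel)
             (CovZ.n2 (-31008, 1872) (by decide +kernel)
              (CovZ.n2 (-30984, 1896) (by decide +kernel)
               (CovZ.leaf K2_ok TB_l629 _)
               (CovZ.leaf K2_ok TB_l630 _))
              (CovZ.leaf K2_ok TB_l631 _))
             (CovZ.n1 (-30960, 1920) (by decide +kernel)
              (CovZ.leaf K3_ok TB_l632 _)
              (CovZ.leaf K3_ok TB_l633 _)))
            (CovZ.n1 (-31056, 1872) (by decide +kernel)
             (CovZ.n2 (-31056, 1920) (by decide +kernel)
              (CovZ.leaf K3_ok TB_l634 _)
              (CovZ.leaf K3_ok TB_l635 _))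
             (CovZ.n1 (-31008, 1872) (by decide +kernel)
              (CovZ.leaf K3_ok TB_l636 _)
              (CovZ.n1 (-31032, 1896) (by decide +kernel)
               (CovZ.leaf K2_ok TB_l637 _)
               (CovZ.leaf K2_ok TB_l638 _)))))
           (CovZ.n1 (-30912, 1824) (by decide +kernel)
            (CovZ.n2 (-30960, 1776) (by decide +kernel)
             (CovZ.leaf K2_ok TB_l639 _)
             (CovZ.n1 (-30912, 1776) (by decide +kernel)
              (CovZ.leaf K3_ok TB_l640 _)
              (CovZ.leaf K2_ok TB_l641 _)))
            (CovZ.n1 (-30960, 1872) (by decide +kernel)
             (CovZ.n2 (-30912, 1872) (by decide +kernel)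
              (CovZ.leaf K3_ok TB_l642 _)
              (CovZ.n1 (-30936, 1896) (by decide +kernel)
               (CovZ.leaf K2_ok TB_l643 _)
               (CovZ.leaf K2_ok TB_l644 _)))
             (CovZ.n1 (-30960, 1824) (by decide +kernel)
              (CovZ.n2 (-30984, 1848) (by decide +kernel)
               (CovZ.leaf K3_ok TB_l645 _)
               (CovZ.leaf K3_ok TB_l646 _))
              (CovZ.leaf K3_ok TB_l647 _)))))))
        (CovZ.n1 (-30720, 1728) (by decide +kernel)
         (CovZ.n2 (-30816, 1632) (by decide +kernel)
          (CovZ.n2 (-30816, 1728) (by decide +kernel)
           (CovZ.n2 (-30768, 1680) (by decide +kernel)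
            (CovZ.leaf K2_ok TB_l648 _)
            (CovZ.leaf K2_ok TB_l649 _))
           (CovZ.n1 (-30864, 1680) (by decide +kernel)
            (CovZ.leaf K2_ok TB_l650 _)
            (CovZ.leaf K2_ok TB_l651 _)))
          (CovZ.n1 (-30720, 1632) (by decide +kernel)
           (CovZ.n2 (-30768, 1584) (by decide +kernel)
            (CovZ.leaf K2_ok TB_l652 _)
            (CovZ.leaf K2_ok TB_l653 _))
           (CovZ.n1 (-30768, 1680) (by decide +kernel)
            (CovZ.leaf K2_ok TB_l654 _)
            (CovZ.leaf K3_ok TB_l655 _))))
         (CovZ.n1 (-30816, 1824) (by decide +kernel)
          (CovZ.n2 (-30720, 1824) (by decide +kernel)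
           (CovZ.n2 (-30768, 1776) (by decide +kernel)
            (CovZ.n2 (-30768, 1824) (by decide +kernel)
             (CovZ.leaf K3_ok TB_l656 _)
             (CovZ.leaf K3_ok TB_l657 _))
            (CovZ.leaf K2_ok TB_l658 _))
           (CovZ.n1 (-30768, 1872) (by decide +kernel)
            (CovZ.n2 (-30720, 1872) (by decide +kernel)
             (CovZ.leaf K3_ok TB_l659 _)
             (CovZ.n1 (-30744, 1896) (by decide +kernel)
              (CovZ.leaf K3_ok TB_l660 _)
              (CovZ.leaf K3_ok TB_l661 _)))
            (CovZ.n1 (-30768, 1824) (by decide +kernel)
             (CovZ.n2 (-30792, 1848) (by decide +kernel)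
              (CovZ.leaf K3_ok TB_l662 _)
              (CovZ.leaf K3_ok TB_l663 _))
             (CovZ.leaf K3_ok TB_l664 _))))
          (CovZ.n1 (-30816, 1728) (by decide +kernel)
           (CovZ.n2 (-30864, 1776) (by decide +kernel)
            (CovZ.n2 (-30816, 1776) (by decide +kernel)
             (CovZ.leaf K3_ok TB_l665 _)
             (CovZ.leaf K3_ok TB_l666 _))
            (CovZ.leaf K3_ok TB_l667 _))
           (CovZ.n1 (-30768, 1776) (by decide +kernel)
            (CovZ.leaf K2_ok TB_l668 _)
            (CovZ.n1 (-30816, 1776) (by decide +kernel)
             (CovZ.leaf K3_ok TB_l669 _)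
             (CovZ.leaf K3_ok TB_l670 _)))))))

theorem TB_u87 : CovZ TB_M (toL (selN TB_LN 8196114235863813590666107271896742383769618688835395020596430963453764968193488191052786341978936863938802579034451390634414830504399912764440578)) [0, 7, 6, 1] (-30720, 1920) (-30720, 2304) (-31104, 1920) :=
    (CovZ.n1 (-30912, 2112) (by decide +kernel)
        (CovZ.n2 (-30720, 2112) (by decide +kernel)
         (CovZ.n2 (-30816, 2016) (by decide +kernel)
          (CovZ.n2 (-30816, 2112) (by decide +kernel)
           (CovZ.n2 (-30768, 2064) (by decide +kernel)
            (CovZ.badM (by decide +kernel))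
            (CovZ.badM (by decide +kernel)))
           (CovZ.badM (by decide +kernel)))
          (CovZ.n1 (-30720, 2016) (by decide +kernel)
           (CovZ.n2 (-30768, 1968) (by decide +kernel)
            (CovZ.subM 8196114235863813587958422023729421497075298932182397401452031759696432037014851870490091741391888566257143152826386455396206743720324212950302720 (by decide +kernel)
             (CovZ.n2 (-30768, 2016) (by decide +kernel)
              (CovZ.n2 (-30744, 1992) (by decide +kernel)
               (CovZ.leaf K2_ok TB_l691 _)
               (CovZ.n1 (-30744, 2016) (by decide +kernel)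
                (CovZ.leaf K2_ok TB_l692 _)
                (CovZ.leaf K2_ok TB_l693 _)))
              (CovZ.n1 (-30792, 1992) (by decide +kernel)
               (CovZ.n2 (-30792, 2016) (by decide +kernel)
                (CovZ.leaf K2_ok TB_l694 _)
                (CovZ.leaf K2_ok TB_l695 _))
               (CovZ.leaf K2_ok TB_l696 _))))
            (CovZ.n1 (-30720, 1968) (by decide +kernel)
             (CovZ.n2 (-30744, 1944) (by decide +kernel)
              (CovZ.leaf K2_ok TB_l697 _)
              (CovZ.leaf K2_ok TB_l698 _))
             (CovZ.n1 (-30744, 1992) (by decide +kernel)
              (CovZ.n2 (-30720, 1992) (by decide +kernel)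
               (CovZ.leaf K2_ok TB_l699 _)
               (CovZ.leaf K2_ok TB_l700 _))
              (CovZ.leaf K2_ok TB_l701 _))))
           (CovZ.subM 8196114235863813587958422023731884122462573587133164841458290735559249520719255960906838509729653923867861728489599847037137050947874627199696896 (by decide +kernel)
            (CovZ.n1 (-30768, 2064) (by decide +kernel)
             (CovZ.n2 (-30720, 2064) (by decide +kernel)
              (CovZ.n2 (-30744, 2040) (by decide +kernel)
               (CovZ.badM (by decide +kernel))
               (CovZ.n1 (-30720, 2040) (by decide +kernel)
                (CovZ.leaf K2_ok TB_l704 _)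
                (CovZ.badM (by decide +kernel))))
              (CovZ.n1 (-30744, 2088) (by decide +kernel)
               (CovZ.n2 (-30720, 2088) (by decide +kernel)
                (CovZ.leaf K2_ok TB_l706 _)
                (CovZ.badM (by decide +kernel)))
               (CovZ.badM (by decide +kernel))))
             (CovZ.n1 (-30768, 2016) (by decide +kernel)
              (CovZ.n2 (-30792, 2040) (by decide +kernel)
               (CovZ.leaf K3_ok TB_l709 _)
               (CovZ.leaf K2_ok TB_l710 _))
              (CovZ.n1 (-30744, 2040) (by decide +kernel)
               (CovZ.leaf K2_ok TB_l711 _)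
               (CovZ.leaf K3_ok TB_l712 _)))))))
         (CovZ.subM 2707685248164858261307045101702230179137145581421695874189921465443966120903931272499975005961073806735733604454495675614232576 (by decide +kernel)
          (CovZ.n1 (-30816, 2208) (by decide +kernel)
           (CovZ.n2 (-30720, 2208) (by decide +kernel)
            (CovZ.badM (by decide +kernel))
            (CovZ.n1 (-30768, 2256) (by decide +kernel)
             (CovZ.n2 (-30720, 2256) (by decide +kernel)
              (CovZ.badM (by decide +kernel))
              (CovZ.badM (by decide +kernel)))
             (CovZ.badM (by decide +kernel))))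
           (CovZ.badM (by decide +kernel)))))
        (CovZ.n1 (-30912, 1920) (by decide +kernel)
         (CovZ.subM 1267650600228229401496703205378 (by decide +kernel)
          (CovZ.n2 (-31008, 2016) (by decide +kernel)
           (CovZ.n2 (-30912, 2016) (by decide +kernel)
            (CovZ.n2 (-30960, 1968) (by decide +kernel)
             (CovZ.badM (by decide +kernel))
             (CovZ.n1 (-30912, 1968) (by decide +kernel)
              (CovZ.leaf K3_ok TB_l723 _)
              (CovZ.n1 (-30936, 1992) (by decide +kernel)
               (CovZ.leaf K2_ok TB_l724 _)
               (CovZ.leaf K2_ok TB_l725 _))))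
            (CovZ.badM (by decide +kernel)))
           (CovZ.n1 (-31008, 1920) (by decide +kernel)
            (CovZ.n2 (-31056, 1968) (by decide +kernel)
             (CovZ.n2 (-31008, 1968) (by decide +kernel)
              (CovZ.n2 (-31032, 1944) (by decide +kernel)
               (CovZ.leaf K2_ok TB_l735 _)
               (CovZ.leaf K2_ok TB_l736 _))
              (CovZ.badM (by decide +kernel)))
             (CovZ.n1 (-31056, 1920) (by decide +kernel)
              (CovZ.n2 (-31080, 1944) (by decide +kernel)
               (CovZ.leaf K2_ok TB_l739 _)
               (CovZ.leaf K2_ok TB_l740 _))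
              (CovZ.n1 (-31032, 1944) (by decide +kernel)
               (CovZ.leaf K2_ok TB_l741 _)
               (CovZ.leaf K2_ok TB_l742 _))))
            (CovZ.n1 (-30960, 1968) (by decide +kernel)
             (CovZ.n2 (-30960, 1920) (by decide +kernel)
              (CovZ.n2 (-30984, 1944) (by decide +kernel)
               (CovZ.leaf K2_ok TB_l743 _)
               (CovZ.leaf K2_ok TB_l744 _))
              (CovZ.n1 (-30936, 1944) (by decide +kernel)
               (CovZ.leaf K2_ok TB_l745 _)
               (CovZ.leaf K2_ok TB_l746 _)))
             (CovZ.n1 (-31008, 1968) (by decide +kernel)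
              (CovZ.badM (by decide +kernel))
              (CovZ.leaf K3_ok TB_l749 _))))))
         (CovZ.n1 (-30816, 2016) (by decide +kernel)
          (CovZ.n2 (-30816, 1920) (by decide +kernel)
           (CovZ.subM 7805895667074314559035722370005275708856724164349276007592647846797621423093759638982464625873116398588784436619092969710099083183501927776256002 (by decide +kernel)
            (CovZ.n2 (-30864, 1968) (by decide +kernel)
             (CovZ.n2 (-30816, 1968) (by decide +kernel)
              (CovZ.leaf K3_ok TB_l750 _)
              (CovZ.n1 (-30840, 1992) (by decide +kernel)
               (CovZ.leaf K2_ok TB_l751 _)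
               (CovZ.n1 (-30840, 1968) (by decide +kernel)
                (CovZ.leaf K2_ok TB_l752 _)
                (CovZ.leaf K2_ok TB_l753 _))))
             (CovZ.n1 (-30864, 1920) (by decide +kernel)
              (CovZ.n2 (-30888, 1944) (by decide +kernel)
               (CovZ.leaf K2_ok TB_l754 _)
               (CovZ.leaf K2_ok TB_l755 _))
              (CovZ.leaf K3_ok TB_l756 _))))
           (CovZ.n1 (-30768, 1968) (by decide +kernel)
            (CovZ.n2 (-30768, 1920) (by decide +kernel)
             (CovZ.n2 (-30792, 1944) (by decide +kernel)
              (CovZ.leaf K2_ok TB_l757 _)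
              (CovZ.leaf K2_ok TB_l758 _))
             (CovZ.n1 (-30744, 1944) (by decide +kernel)
              (CovZ.leaf K2_ok TB_l759 _)
              (CovZ.leaf K2_ok TB_l760 _)))
            (CovZ.subM 7805895667074314559035722370005275708856724164349276007592647846797621423093759638982464625873116398588784436619092969710099083183501927776256002 (by decide +kernel)
             (CovZ.n1 (-30816, 1968) (by decide +kernel)
              (CovZ.n2 (-30792, 1992) (by decide +kernel)
               (CovZ.leaf K2_ok TB_l761 _)
               (CovZ.leaf K2_ok TB_l762 _))
              (CovZ.n1 (-30792, 1944) (by decide +kernel)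
               (CovZ.leaf K2_ok TB_l763 _)
               (CovZ.leaf K2_ok TB_l764 _))))))
          (CovZ.subM 1524291284333980581729295522359944485228807686848130444755447734192076044345588681699368214386470689042884243712891978185896186276149186265090 (by decide +kernel)
           (CovZ.n1 (-30912, 2016) (by decide +kernel)
            (CovZ.badM (by decide +kernel))
            (CovZ.n1 (-30864, 1968) (by decide +kernel)
             (CovZ.n2 (-30912, 1968) (by decide +kernel)
              (CovZ.n2 (-30888, 1992) (by decide +kernel)
               (CovZ.leaf K2_ok TB_l773 _)
               (CovZ.leaf K2_ok TB_l774 _))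
              (CovZ.leaf K3_ok TB_l775 _))
             (CovZ.n1 (-30864, 2016) (by decide +kernel)
              (CovZ.n2 (-30840, 1992) (by decide +kernel)
               (CovZ.leaf K2_ok TB_l776 _)
               (CovZ.leaf K2_ok TB_l777 _))
              (CovZ.n1 (-30888, 1992) (by decide +kernel)
               (CovZ.badM (by decide +kernel))
               (CovZ.leaf K2_ok TB_l779 _)))))))))

theorem TB_u88 : CovZ TB_M (toL (selN TB_LN 994646472819573284310764496293641680200912301594695434882195604386547223426563454271490)) [0, 7, 6, 1] (-31488, 2304) (-31488, 1920) (-31104, 1920) :=
    (CovZ.n2 (-31296, 2112) (by decide +kernel)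
         (CovZ.n2 (-31296, 1920) (by decide +kernel)
          (CovZ.n2 (-31392, 2016) (by decide +kernel)
           (CovZ.n2 (-31296, 2016) (by decide +kernel)
            (CovZ.n2 (-31344, 1968) (by decide +kernel)
             (CovZ.badM (by decide +kernel))
             (CovZ.n1 (-31296, 1968) (by decide +kernel)
              (CovZ.n2 (-31320, 1944) (by decide +kernel)
               (CovZ.leaf K2_ok TB_l37182 _)
               (CovZ.leaf K2_ok TB_l1002 _))
              (CovZ.badM (by decide +kernel))))
            (CovZ.badM (by decide +kernel)))
           (CovZ.n1 (-31392, 1920) (by decide +kernel)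
            (CovZ.n2 (-31440, 1968) (by decide +kernel)
             (CovZ.n2 (-31392, 1968) (by decide +kernel)
              (CovZ.n2 (-31416, 1944) (by decide +kernel)
               (CovZ.n2 (-31416, 1968) (by decide +kernel)
                (CovZ.leaf K2_ok TB_l37183 _)
                (CovZ.leaf K2_ok TB_l37184 _))
               (CovZ.leaf K2_ok TB_l37185 _))
              (CovZ.badM (by decide +kernel)))
             (CovZ.n1 (-31440, 1920) (by decide +kernel)
              (CovZ.n2 (-31464, 1944) (by decide +kernel)
               (CovZ.leaf K2_ok TB_l37186 _)
               (CovZ.leaf K2_ok TB_l37187 _))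
              (CovZ.n1 (-31416, 1944) (by decide +kernel)
               (CovZ.leaf K2_ok TB_l37188 _)
               (CovZ.leaf K2_ok TB_l37189 _))))
            (CovZ.n1 (-31344, 1968) (by decide +kernel)
             (CovZ.n2 (-31344, 1920) (by decide +kernel)
              (CovZ.n2 (-31368, 1944) (by decide +kernel)
               (CovZ.leaf K2_ok TB_l37190 _)
               (CovZ.leaf K2_ok TB_l37191 _))
              (CovZ.n1 (-31320, 1944) (by decide +kernel)
               (CovZ.leaf K2_ok TB_l1003 _)
               (CovZ.leaf K2_ok TB_l37192 _)))
             (CovZ.n1 (-31392, 1968) (by decide +kernel)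
              (CovZ.badM (by decide +kernel))
              (CovZ.n1 (-31368, 1944) (by decide +kernel)
               (CovZ.leaf K2_ok TB_l37193 _)
               (CovZ.n1 (-31368, 1968) (by decide +kernel)
                (CovZ.leaf K2_ok TB_l37194 _)
                (CovZ.leaf K2_ok TB_l37195 _)))))))
          (CovZ.n1 (-31200, 2016) (by decide +kernel)
           (CovZ.n2 (-31200, 1920) (by decide +kernel)
            (CovZ.n2 (-31248, 1968) (by decide +kernel)
             (CovZ.n2 (-31200, 1968) (by decide +kernel)
              (CovZ.n2 (-31224, 1944) (by decide +kernel)
               (CovZ.leaf K2_ok TB_l1004 _)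
               (CovZ.leaf K2_ok TB_l1005 _))
              (CovZ.badM (by decide +kernel)))
             (CovZ.n1 (-31248, 1920) (by decide +kernel)
              (CovZ.n2 (-31272, 1944) (by decide +kernel)
               (CovZ.leaf K2_ok TB_l1006 _)
               (CovZ.leaf K2_ok TB_l1007 _))
              (CovZ.n1 (-31224, 1944) (by decide +kernel)
               (CovZ.leaf K2_ok TB_l1008 _)
               (CovZ.leaf K2_ok TB_l1009 _))))
            (CovZ.n1 (-31152, 1968) (by decide +kernel)
             (CovZ.n2 (-31152, 1920) (by decide +kernel)
              (CovZ.n2 (-31176, 1944) (by decide +kernel)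
               (CovZ.leaf K2_ok TB_l1010 _)
               (CovZ.leaf K2_ok TB_l1011 _))
              (CovZ.n1 (-31128, 1944) (by decide +kernel)
               (CovZ.leaf K2_ok TB_l1012 _)
               (CovZ.leaf K2_ok TB_l1013 _)))
             (CovZ.n1 (-31200, 1968) (by decide +kernel)
              (CovZ.badM (by decide +kernel))
              (CovZ.n1 (-31176, 1944) (by decide +kernel)
               (CovZ.leaf K2_ok TB_l1015 _)
               (CovZ.leaf K2_ok TB_l1016 _)))))
           (CovZ.n1 (-31296, 2016) (by decide +kernel)
            (CovZ.badM (by decide +kernel))
            (CovZ.n1 (-31248, 1968) (by decide +kernel)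
             (CovZ.n2 (-31296, 1968) (by decide +kernel)
              (CovZ.badM (by decide +kernel))
              (CovZ.n1 (-31272, 1944) (by decide +kernel)
               (CovZ.leaf K2_ok TB_l1017 _)
               (CovZ.n1 (-31272, 1968) (by decide +kernel)
                (CovZ.leaf K2_ok TB_l37196 _)
                (CovZ.leaf K2_ok TB_l37197 _))))
             (CovZ.badM (by decide +kernel))))))
         (CovZ.n1 (-31488, 2112) (by decide +kernel)
          (CovZ.badM (by decide +kernel))
          (CovZ.n1 (-31392, 2016) (by decide +kernel)
           (CovZ.n2 (-31488, 2016) (by decide +kernel)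
            (CovZ.badM (by decide +kernel))
            (CovZ.n1 (-31440, 1968) (by decide +kernel)
             (CovZ.n2 (-31488, 1968) (by decide +kernel)
              (CovZ.badM (by decide +kernel))
              (CovZ.n1 (-31464, 1944) (by decide +kernel)
               (CovZ.leaf K2_ok TB_l37198 _)
               (CovZ.leaf K2_ok TB_l37199 _)))
             (CovZ.badM (by decide +kernel))))
           (CovZ.badM (by decide +kernel)))))

theorem TB_u89 : CovZ TB_M (toL (selN TB_LN 994646472819573284310764496293641680200912301594695434882195604386547223426563454271490)) [0, 7, 6, 1] (-31488, 1920) (-31488, 1536) (-31104, 1920) :=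
    (CovZ.n1 (-31296, 1728) (by decide +kernel)
         (CovZ.n2 (-31488, 1728) (by decide +kernel)
          (CovZ.n2 (-31392, 1824) (by decide +kernel)
           (CovZ.n2 (-31392, 1728) (by decide +kernel)
            (CovZ.n2 (-31440, 1776) (by decide +kernel)
             (CovZ.n2 (-31392, 1776) (by decide +kernel)
              (CovZ.leaf K2_ok TB_l1018 _)
              (CovZ.n1 (-31416, 1800) (by decide +kernel)
               (CovZ.leaf K2_ok TB_l1019 _)
               (CovZ.leaf K2_ok TB_l1020 _)))
             (CovZ.n1 (-31440, 1728) (by decide +kernel)
              (CovZ.leaf K2_ok TB_l1021 _)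
              (CovZ.leaf K2_ok TB_l1022 _)))
            (CovZ.n1 (-31344, 1776) (by decide +kernel)
             (CovZ.n2 (-31344, 1728) (by decide +kernel)
              (CovZ.n2 (-31368, 1752) (by decide +kernel)
               (CovZ.leaf K2_ok TB_l1023 _)
               (CovZ.leaf K2_ok TB_l1024 _))
              (CovZ.leaf K2_ok TB_l1025 _))
             (CovZ.n1 (-31392, 1776) (by decide +kernel)
              (CovZ.leaf K2_ok TB_l1026 _)
              (CovZ.leaf K2_ok TB_l1027 _))))
           (CovZ.n1 (-31488, 1824) (by decide +kernel)
            (CovZ.n2 (-31440, 1872) (by decide +kernel)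
             (CovZ.n2 (-31440, 1824) (by decide +kernel)
              (CovZ.n2 (-31464, 1848) (by decide +kernel)
               (CovZ.leaf K2_ok TB_l1028 _)
               (CovZ.leaf K2_ok TB_l1029 _))
              (CovZ.n1 (-31416, 1848) (by decide +kernel)
               (CovZ.leaf K2_ok TB_l1030 _)
               (CovZ.leaf K2_ok TB_l1031 _)))
             (CovZ.n1 (-31488, 1872) (by decide +kernel)
              (CovZ.n2 (-31464, 1896) (by decide +kernel)
               (CovZ.leaf K2_ok TB_l1032 _)
               (CovZ.leaf K2_ok TB_l37200 _))
              (CovZ.n1 (-31464, 1848) (by decide +kernel)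
               (CovZ.leaf K2_ok TB_l1033 _)
               (CovZ.leaf K2_ok TB_l1034 _))))
            (CovZ.n1 (-31440, 1776) (by decide +kernel)
             (CovZ.n2 (-31488, 1776) (by decide +kernel)
              (CovZ.leaf K2_ok TB_l1035 _)
              (CovZ.leaf K2_ok TB_l1036 _))
             (CovZ.n1 (-31440, 1824) (by decide +kernel)
              (CovZ.leaf K2_ok TB_l1037 _)
              (CovZ.leaf K2_ok TB_l1038 _)))))
          (CovZ.n1 (-31392, 1632) (by decide +kernel)
           (CovZ.n2 (-31488, 1632) (by decide +kernel)
            (CovZ.n2 (-31440, 1680) (by decide +kernel)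
             (CovZ.n2 (-31440, 1632) (by decide +kernel)
              (CovZ.leaf K2_ok TB_l1039 _)
              (CovZ.leaf K2_ok TB_l1040 _))
             (CovZ.leaf K2_ok TB_l1041 _))
            (CovZ.n1 (-31440, 1584) (by decide +kernel)
             (CovZ.leaf K2_ok TB_l1042 _)
             (CovZ.leaf K2_ok TB_l1043 _)))
           (CovZ.n1 (-31392, 1728) (by decide +kernel)
            (CovZ.n2 (-31344, 1680) (by decide +kernel)
             (CovZ.leaf K2_ok TB_l1044 _)
             (CovZ.leaf K2_ok TB_l1045 _))
            (CovZ.n1 (-31440, 1680) (by decide +kernel)
             (CovZ.leaf K2_ok TB_l1046 _)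
             (CovZ.leaf K2_ok TB_l1047 _)))))
         (CovZ.n1 (-31296, 1920) (by decide +kernel)
          (CovZ.n2 (-31200, 1824) (by decide +kernel)
           (CovZ.n2 (-31296, 1824) (by decide +kernel)
            (CovZ.n2 (-31248, 1872) (by decide +kernel)
             (CovZ.n2 (-31248, 1824) (by decide +kernel)
              (CovZ.n2 (-31272, 1848) (by decide +kernel)
               (CovZ.leaf K2_ok TB_l1048 _)
               (CovZ.leaf K2_ok TB_l1049 _))
              (CovZ.n1 (-31224, 1848) (by decide +kernel)
               (CovZ.leaf K2_ok TB_l1050 _)
               (CovZ.leaf K2_ok TB_l1051 _)))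
             (CovZ.n1 (-31296, 1872) (by decide +kernel)
              (CovZ.n2 (-31272, 1896) (by decide +kernel)
               (CovZ.leaf K2_ok TB_l1052 _)
               (CovZ.leaf K2_ok TB_l1053 _))
              (CovZ.n1 (-31272, 1848) (by decide +kernel)
               (CovZ.leaf K2_ok TB_l1054 _)
               (CovZ.leaf K2_ok TB_l1055 _))))
            (CovZ.n1 (-31248, 1776) (by decide +kernel)
             (CovZ.n2 (-31296, 1776) (by decide +kernel)
              (CovZ.leaf K2_ok TB_l1056 _)
              (CovZ.leaf K2_ok TB_l1057 _))
             (CovZ.n1 (-31248, 1824) (by decide +kernel)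
              (CovZ.leaf K2_ok TB_l1058 _)
              (CovZ.leaf K2_ok TB_l1059 _))))
           (CovZ.n1 (-31200, 1920) (by decide +kernel)
            (CovZ.n2 (-31152, 1872) (by decide +kernel)
             (CovZ.n2 (-31200, 1872) (by decide +kernel)
              (CovZ.n2 (-31176, 1896) (by decide +kernel)
               (CovZ.leaf K2_ok TB_l1060 _)
               (CovZ.leaf K2_ok TB_l1061 _))
              (CovZ.n1 (-31176, 1848) (by decide +kernel)
               (CovZ.leaf K2_ok TB_l1062 _)
               (CovZ.leaf K2_ok TB_l1063 _)))
             (CovZ.n1 (-31152, 1920) (by decide +kernel)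
              (CovZ.n2 (-31128, 1896) (by decide +kernel)
               (CovZ.leaf K2_ok TB_l1064 _)
               (CovZ.leaf K2_ok TB_l1065 _))
              (CovZ.n1 (-31176, 1896) (by decide +kernel)
               (CovZ.leaf K2_ok TB_l1066 _)
               (CovZ.leaf K2_ok TB_l1067 _))))
            (CovZ.n1 (-31248, 1872) (by decide +kernel)
             (CovZ.n2 (-31248, 1920) (by decide +kernel)
              (CovZ.n2 (-31224, 1896) (by decide +kernel)
               (CovZ.leaf K2_ok TB_l1068 _)
               (CovZ.leaf K2_ok TB_l1069 _))
              (CovZ.n1 (-31272, 1896) (by decide +kernel)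
               (CovZ.leaf K2_ok TB_l1070 _)
               (CovZ.leaf K2_ok TB_l1071 _)))
             (CovZ.n1 (-31200, 1872) (by decide +kernel)
              (CovZ.n2 (-31224, 1848) (by decide +kernel)
               (CovZ.leaf K2_ok TB_l1072 _)
               (CovZ.leaf K2_ok TB_l1073 _))
              (CovZ.n1 (-31224, 1896) (by decide +kernel)
               (CovZ.leaf K2_ok TB_l1074 _)
               (CovZ.leaf K2_ok TB_l1075 _))))))
          (CovZ.n1 (-31392, 1824) (by decide +kernel)
           (CovZ.n2 (-31392, 1920) (by decide +kernel)
            (CovZ.n2 (-31344, 1872) (by decide +kernel)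
             (CovZ.n2 (-31392, 1872) (by decide +kernel)
              (CovZ.n2 (-31368, 1896) (by decide +kernel)
               (CovZ.leaf K2_ok TB_l1076 _)
               (CovZ.leaf K2_ok TB_l1077 _))
              (CovZ.leaf K2_ok TB_l1078 _))
             (CovZ.n1 (-31344, 1920) (by decide +kernel)
              (CovZ.n2 (-31320, 1896) (by decide +kernel)
               (CovZ.leaf K2_ok TB_l1079 _)
               (CovZ.leaf K2_ok TB_l1080 _))
              (CovZ.n1 (-31368, 1896) (by decide +kernel)
               (CovZ.leaf K2_ok TB_l1081 _)
               (CovZ.leaf K2_ok TB_l1082 _))))
            (CovZ.n1 (-31440, 1872) (by decide +kernel)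
             (CovZ.n2 (-31440, 1920) (by decide +kernel)
              (CovZ.n2 (-31416, 1896) (by decide +kernel)
               (CovZ.leaf K2_ok TB_l1083 _)
               (CovZ.leaf K2_ok TB_l37201 _))
              (CovZ.n1 (-31464, 1896) (by decide +kernel)
               (CovZ.leaf K2_ok TB_l37202 _)
               (CovZ.leaf K2_ok TB_l1084 _)))
             (CovZ.n1 (-31392, 1872) (by decide +kernel)
              (CovZ.n2 (-31416, 1848) (by decide +kernel)
               (CovZ.leaf K2_ok TB_l1085 _)
               (CovZ.leaf K2_ok TB_l1086 _))
              (CovZ.n1 (-31416, 1896) (by decide +kernel)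
               (CovZ.leaf K2_ok TB_l1087 _)
               (CovZ.leaf K2_ok TB_l1088 _)))))
           (CovZ.n1 (-31296, 1824) (by decide +kernel)
            (CovZ.n2 (-31344, 1776) (by decide +kernel)
             (CovZ.n2 (-31344, 1824) (by decide +kernel)
              (CovZ.leaf K2_ok TB_l1089 _)
              (CovZ.leaf K2_ok TB_l1090 _))
             (CovZ.n1 (-31296, 1776) (by decide +kernel)
              (CovZ.leaf K2_ok TB_l1091 _)
              (CovZ.n1 (-31320, 1800) (by decide +kernel)
               (CovZ.leaf K2_ok TB_l1092 _)
               (CovZ.leaf K2_ok TB_l1093 _))))
            (CovZ.n1 (-31344, 1872) (by decide +kernel)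
             (CovZ.n2 (-31296, 1872) (by decide +kernel)
              (CovZ.n2 (-31320, 1848) (by decide +kernel)
               (CovZ.leaf K2_ok TB_l1094 _)
               (CovZ.leaf K2_ok TB_l1095 _))
              (CovZ.n1 (-31320, 1896) (by decide +kernel)
               (CovZ.leaf K2_ok TB_l1096 _)
               (CovZ.leaf K2_ok TB_l1097 _)))
             (CovZ.n1 (-31344, 1824) (by decide +kernel)
              (CovZ.n2 (-31368, 1848) (by decide +kernel)
               (CovZ.leaf K2_ok TB_l1098 _)
               (CovZ.leaf K2_ok TB_l1099 _))
              (CovZ.n1 (-31320, 1848) (by decide +kernel)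
               (CovZ.leaf K2_ok TB_l1100 _)
               (CovZ.leaf K2_ok TB_l1101 _))))))))

theorem TB_u90 : CovZ TB_M (toL (selN TB_LN 8196114235863813590666107271896742383769618688835395020596430963453764968193488191052786341978936863938802579034451390634414830504399912764440578)) [0, 7, 6, 1] (-32256, 1536) (-31488, 1536) (-31488, 2304) :=
    (CovZ.subM 994646472819573284310764496293641680200912301594695434882195604386547223426563454271490 (by decide +kernel)
      (CovZ.n2 (-31872, 1920) (by decide +kernel)
       (CovZ.n2 (-31488, 1920) (by decide +kernel)
        (CovZ.n2 (-31680, 1728) (by decide +kernel)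
         (CovZ.n2 (-31680, 1920) (by decide +kernel)
          (CovZ.n2 (-31584, 1824) (by decide +kernel)
           (CovZ.badM (by decide +kernel))
           (CovZ.n1 (-31584, 1920) (by decide +kernel)
            (CovZ.n2 (-31536, 1872) (by decide +kernel)
             (CovZ.badM (by decide +kernel))
             (CovZ.n1 (-31536, 1920) (by decide +kernel)
              (CovZ.n2 (-31512, 1896) (by decide +kernel)
               (CovZ.badM (by decide +kernel))
               (CovZ.leaf K2_ok TB_l37176 _))
              (CovZ.badM (by decide +kernel))))
            (CovZ.badM (by decide +kernel))))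
          (CovZ.badM (by decide +kernel)))
         (CovZ.n1 (-31488, 1728) (by decide +kernel)
          (CovZ.n2 (-31584, 1632) (by decide +kernel)
           (CovZ.n2 (-31584, 1728) (by decide +kernel)
            (CovZ.n2 (-31536, 1680) (by decide +kernel)
             (CovZ.badM (by decide +kernel))
             (CovZ.n1 (-31536, 1728) (by decide +kernel)
              (CovZ.leaf K2_ok TB_l805 _)
              (CovZ.badM (by decide +kernel))))
            (CovZ.badM (by decide +kernel)))
           (CovZ.n1 (-31488, 1632) (by decide +kernel)
            (CovZ.n2 (-31536, 1584) (by decide +kernel)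
             (CovZ.leaf K2_ok TB_l810 _)
             (CovZ.leaf K2_ok TB_l811 _))
            (CovZ.n1 (-31536, 1680) (by decide +kernel)
             (CovZ.leaf K2_ok TB_l812 _)
             (CovZ.n1 (-31536, 1632) (by decide +kernel)
              (CovZ.badM (by decide +kernel))
              (CovZ.leaf K2_ok TB_l814 _)))))
          (CovZ.n1 (-31584, 1824) (by decide +kernel)
           (CovZ.n2 (-31488, 1824) (by decide +kernel)
            (CovZ.n2 (-31536, 1776) (by decide +kernel)
             (CovZ.n2 (-31536, 1824) (by decide +kernel)
              (CovZ.leaf K2_ok TB_l815 _)
              (CovZ.badM (by decide +kernel)))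
             (CovZ.n1 (-31488, 1776) (by decide +kernel)
              (CovZ.leaf K2_ok TB_l817 _)
              (CovZ.n1 (-31512, 1800) (by decide +kernel)
               (CovZ.leaf K2_ok TB_l818 _)
               (CovZ.leaf K2_ok TB_l819 _))))
            (CovZ.n1 (-31536, 1872) (by decide +kernel)
             (CovZ.n2 (-31488, 1872) (by decide +kernel)
              (CovZ.leaf K2_ok TB_l820 _)
              (CovZ.n1 (-31512, 1896) (by decide +kernel)
               (CovZ.leaf K2_ok TB_l37177 _)
               (CovZ.leaf K2_ok TB_l37178 _)))
             (CovZ.n1 (-31536, 1824) (by decide +kernel)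
              (CovZ.badM (by decide +kernel))
              (CovZ.n1 (-31512, 1848) (by decide +kernel)
               (CovZ.leaf K2_ok TB_l823 _)
               (CovZ.badM (by decide +kernel))))))
           (CovZ.n1 (-31584, 1728) (by decide +kernel)
            (CovZ.badM (by decide +kernel))
            (CovZ.n1 (-31536, 1776) (by decide +kernel)
             (CovZ.n2 (-31536, 1728) (by decide +kernel)
              (CovZ.badM (by decide +kernel))
              (CovZ.leaf K2_ok TB_l831 _))
             (CovZ.badM (by decide +kernel)))))))
        (CovZ.n1 (-31680, 2112) (by decide +kernel)
         (CovZ.n2 (-31488, 2112) (by decide +kernel)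
          (CovZ.n2 (-31584, 2016) (by decide +kernel)
           (CovZ.badM (by decide +kernel))
           (CovZ.n1 (-31488, 2016) (by decide +kernel)
            (CovZ.n2 (-31536, 1968) (by decide +kernel)
             (CovZ.badM (by decide +kernel))
             (CovZ.n1 (-31488, 1968) (by decide +kernel)
              (CovZ.n2 (-31512, 1944) (by decide +kernel)
               (CovZ.n2 (-31512, 1968) (by decide +kernel)
                (CovZ.leaf K2_ok TB_l37179 _)
                (CovZ.badM (by decide +kernel)))
               (CovZ.leaf K2_ok TB_l37180 _))
              (CovZ.badM (by decide +kernel))))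
            (CovZ.badM (by decide +kernel))))
          (CovZ.badM (by decide +kernel)))
         (CovZ.n1 (-31680, 1920) (by decide +kernel)
          (CovZ.badM (by decide +kernel))
          (CovZ.n1 (-31584, 2016) (by decide +kernel)
           (CovZ.n2 (-31584, 1920) (by decide +kernel)
            (CovZ.badM (by decide +kernel))
            (CovZ.n1 (-31536, 1968) (by decide +kernel)
             (CovZ.n2 (-31536, 1920) (by decide +kernel)
              (CovZ.badM (by decide +kernel))
              (CovZ.n1 (-31512, 1944) (by decide +kernel)
               (CovZ.leaf K2_ok TB_l37181 _)
               (CovZ.badM (by decide +kernel))))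
             (CovZ.badM (by decide +kernel))))
           (CovZ.badM (by decide +kernel))))))
       (CovZ.n1 (-31872, 1536) (by decide +kernel)
        (CovZ.badM (by decide +kernel))
        (CovZ.n1 (-31680, 1728) (by decide +kernel)
         (CovZ.n2 (-31680, 1536) (by decide +kernel)
          (CovZ.badM (by decide +kernel))
          (CovZ.n1 (-31584, 1632) (by decide +kernel)
           (CovZ.n2 (-31584, 1536) (by decide +kernel)
            (CovZ.badM (by decide +kernel))
            (CovZ.n1 (-31536, 1584) (by decide +kernel)
             (CovZ.leaf K2_ok TB_l880 _)
             (CovZ.badM (by decide +kernel))))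
           (CovZ.badM (by decide +kernel))))
         (CovZ.badM (by decide +kernel))))))

theorem TB_u91 : CovZ TB_M (toL (selN TB_LN 8196114235863813590666107271896742383769618688835395020596430963453764968193488191052786341978936863938802579034451390634414830504399912764440578)) [0, 7, 6, 1] (-31488, 1536) (-30720, 1536) (-31488, 2304) :=
    (CovZ.n1 (-31104, 1920) (by decide +kernel)
      (CovZ.n2 (-31104, 1536) (by decide +kernel)
       (CovZ.subM 994646472819573284310764496293641680200912301768920006745716097679795022431628778536962 (by decide +kernel)
        (CovZ.n2 (-31296, 1728) (by decide +kernel)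
         (CovZ.n2 (-31104, 1728) (by decide +kernel)
          (CovZ.n2 (-31200, 1632) (by decide +kernel)
           (CovZ.n2 (-31200, 1728) (by decide +kernel)
            (CovZ.n2 (-31152, 1680) (by decide +kernel)
             (CovZ.leaf K2_ok TB_l915 _)
             (CovZ.leaf K3_ok TB_l916 _))
            (CovZ.n1 (-31248, 1680) (by decide +kernel)
             (CovZ.leaf K2_ok TB_l917 _)
             (CovZ.leaf K2_ok TB_l918 _)))
           (CovZ.n1 (-31104, 1632) (by decide +kernel)
            (CovZ.n2 (-31152, 1584) (by decide +kernel)
             (CovZ.leaf K2_ok TB_l919 _)
             (CovZ.leaf K2_ok TB_l920 _))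
            (CovZ.n1 (-31152, 1680) (by decide +kernel)
             (CovZ.leaf K3_ok TB_l921 _)
             (CovZ.leaf K2_ok TB_l922 _))))
          (CovZ.n1 (-31200, 1824) (by decide +kernel)
           (CovZ.n2 (-31104, 1824) (by decide +kernel)
            (CovZ.n2 (-31152, 1776) (by decide +kernel)
             (CovZ.n2 (-31152, 1824) (by decide +kernel)
              (CovZ.leaf K3_ok TB_l923 _)
              (CovZ.leaf K3_ok TB_l924 _))
             (CovZ.n1 (-31104, 1776) (by decide +kernel)
              (CovZ.leaf K3_ok TB_l925 _)
              (CovZ.n1 (-31128, 1800) (by decide +kernel)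
               (CovZ.leaf K3_ok TB_l926 _)
               (CovZ.leaf K3_ok TB_l927 _))))
            (CovZ.n1 (-31152, 1872) (by decide +kernel)
             (CovZ.n2 (-31104, 1872) (by decide +kernel)
              (CovZ.leaf K2_ok TB_l928 _)
              (CovZ.n1 (-31128, 1896) (by decide +kernel)
               (CovZ.leaf K2_ok TB_l929 _)
               (CovZ.leaf K2_ok TB_l930 _)))
             (CovZ.n1 (-31152, 1824) (by decide +kernel)
              (CovZ.n2 (-31176, 1848) (by decide +kernel)
               (CovZ.leaf K2_ok TB_l931 _)
               (CovZ.leaf K2_ok TB_l932 _))
              (CovZ.leaf K2_ok TB_l933 _))))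
           (CovZ.n1 (-31200, 1728) (by decide +kernel)
            (CovZ.n2 (-31248, 1776) (by decide +kernel)
             (CovZ.n2 (-31200, 1776) (by decide +kernel)
              (CovZ.leaf K2_ok TB_l934 _)
              (CovZ.n1 (-31224, 1800) (by decide +kernel)
               (CovZ.leaf K3_ok TB_l935 _)
               (CovZ.leaf K2_ok TB_l936 _)))
             (CovZ.n1 (-31248, 1728) (by decide +kernel)
              (CovZ.n2 (-31272, 1752) (by decide +kernel)
               (CovZ.leaf K2_ok TB_l937 _)
               (CovZ.leaf K2_ok TB_l938 _))
              (CovZ.leaf K2_ok TB_l939 _)))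
            (CovZ.n1 (-31152, 1776) (by decide +kernel)
             (CovZ.n2 (-31152, 1728) (by decide +kernel)
              (CovZ.leaf K3_ok TB_l940 _)
              (CovZ.leaf K3_ok TB_l941 _))
             (CovZ.n1 (-31200, 1776) (by decide +kernel)
              (CovZ.leaf K3_ok TB_l942 _)
              (CovZ.leaf K3_ok TB_l943 _))))))
         (CovZ.n1 (-31296, 1536) (by decide +kernel)
          (CovZ.n2 (-31392, 1632) (by decide +kernel)
           (CovZ.n2 (-31296, 1632) (by decide +kernel)
            (CovZ.n2 (-31344, 1584) (by decide +kernel)
             (CovZ.leaf K2_ok TB_l944 _)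
             (CovZ.leaf K2_ok TB_l945 _))
            (CovZ.n1 (-31344, 1680) (by decide +kernel)
             (CovZ.leaf K2_ok TB_l946 _)
             (CovZ.n1 (-31344, 1632) (by decide +kernel)
              (CovZ.leaf K2_ok TB_l947 _)
              (CovZ.leaf K2_ok TB_l948 _))))
           (CovZ.n1 (-31392, 1536) (by decide +kernel)
            (CovZ.n2 (-31440, 1584) (by decide +kernel)
             (CovZ.leaf K2_ok TB_l949 _)
             (CovZ.leaf K2_ok TB_l950 _))
            (CovZ.n1 (-31344, 1584) (by decide +kernel)
             (CovZ.leaf K2_ok TB_l951 _)
             (CovZ.leaf K2_ok TB_l952 _))))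
          (CovZ.n1 (-31200, 1632) (by decide +kernel)
           (CovZ.n2 (-31200, 1536) (by decide +kernel)
            (CovZ.n2 (-31248, 1584) (by decide +kernel)
             (CovZ.leaf K2_ok TB_l953 _)
             (CovZ.leaf K2_ok TB_l954 _))
            (CovZ.n1 (-31152, 1584) (by decide +kernel)
             (CovZ.leaf K2_ok TB_l955 _)
             (CovZ.leaf K2_ok TB_l956 _)))
           (CovZ.n1 (-31296, 1632) (by decide +kernel)
            (CovZ.n2 (-31248, 1680) (by decide +kernel)
             (CovZ.leaf K2_ok TB_l957 _)
             (CovZ.leaf K2_ok TB_l958 _))
            (CovZ.n1 (-31248, 1584) (by decide +kernel)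
             (CovZ.leaf K2_ok TB_l959 _)
             (CovZ.leaf K2_ok TB_l960 _)))))))
       (CovZ.n1 (-30912, 1728) (by decide +kernel)
        (CovZ.n2 (-30912, 1536) (by decide +kernel)
         (CovZ.subM 994646472819573284310764496293641680200912301768921335973711882595667926238689058881538 (by decide +kernel)
          (CovZ.n2 (-31008, 1632) (by decide +kernel)
           (CovZ.n2 (-30912, 1632) (by decide +kernel)
            (CovZ.n2 (-30960, 1584) (by decide +kernel)
             (CovZ.leaf K3_ok TB_l961 _)
             (CovZ.leaf K3_ok TB_l962 _))
            (CovZ.n1 (-30960, 1680) (by decide +kernel)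
             (CovZ.leaf K3_ok TB_l963 _)
             (CovZ.leaf K3_ok TB_l964 _)))
           (CovZ.n1 (-31008, 1536) (by decide +kernel)
            (CovZ.n2 (-31056, 1584) (by decide +kernel)
             (CovZ.leaf K3_ok TB_l965 _)
             (CovZ.leaf K3_ok TB_l966 _))
            (CovZ.n1 (-30960, 1584) (by decide +kernel)
             (CovZ.leaf K3_ok TB_l967 _)
             (CovZ.leaf K3_ok TB_l968 _)))))
         (CovZ.n1 (-30816, 1632) (by decide +kernel)
          (CovZ.n2 (-30816, 1536) (by decide +kernel)
           (CovZ.n2 (-30864, 1584) (by decide +kernel)
            (CovZ.leaf K3_ok TB_l969 _)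
            (CovZ.leaf K3_ok TB_l970 _))
           (CovZ.n1 (-30768, 1584) (by decide +kernel)
            (CovZ.leaf K3_ok TB_l971 _)
            (CovZ.leaf K3_ok TB_l972 _)))
          (CovZ.subM 7805895667074314559035722370005275708856724164349276007593642493270440996378070403478758267553317310890379133383201893448801275081334054807666690 (by decide +kernel)
           (CovZ.n1 (-30912, 1632) (by decide +kernel)
            (CovZ.n2 (-30864, 1680) (by decide +kernel)
             (CovZ.leaf K3_ok TB_l973 _)
             (CovZ.leaf K3_ok TB_l974 _))
            (CovZ.n1 (-30864, 1584) (by decide +kernel)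
             (CovZ.leaf K3_ok TB_l975 _)
             (CovZ.leaf K3_ok TB_l976 _))))))
        (CovZ.subM 994646472819573284310764496293641680200912301768920006745716097679795022431628778536962 (by decide +kernel)
         (CovZ.n1 (-31104, 1728) (by decide +kernel)
          (CovZ.n2 (-31008, 1824) (by decide +kernel)
           (CovZ.n2 (-31008, 1728) (by decide +kernel)
            (CovZ.n2 (-31056, 1776) (by decide +kernel)
             (CovZ.leaf K3_ok TB_l977 _)
             (CovZ.n1 (-31056, 1728) (by decide +kernel)
              (CovZ.leaf K3_ok TB_l978 _)
              (CovZ.leaf K3_ok TB_l979 _)))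
            (CovZ.n1 (-30960, 1776) (by decide +kernel)
             (CovZ.n2 (-30960, 1728) (by decide +kernel)
              (CovZ.leaf K3_ok TB_l980 _)
              (CovZ.leaf K3_ok TB_l981 _))
             (CovZ.leaf K3_ok TB_l982 _)))
           (CovZ.n1 (-31104, 1824) (by decide +kernel)
            (CovZ.n2 (-31056, 1872) (by decide +kernel)
             (CovZ.n2 (-31056, 1824) (by decide +kernel)
              (CovZ.n2 (-31080, 1848) (by decide +kernel)
               (CovZ.leaf K3_ok TB_l983 _)
               (CovZ.leaf K3_ok TB_l984 _))
              (CovZ.leaf K3_ok TB_l985 _))
             (CovZ.n1 (-31104, 1872) (by decide +kernel)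
              (CovZ.n2 (-31080, 1896) (by decide +kernel)
               (CovZ.leaf K2_ok TB_l986 _)
               (CovZ.leaf K2_ok TB_l987 _))
              (CovZ.n1 (-31080, 1848) (by decide +kernel)
               (CovZ.leaf K2_ok TB_l988 _)
               (CovZ.leaf K2_ok TB_l989 _))))
            (CovZ.n1 (-31056, 1776) (by decide +kernel)
             (CovZ.leaf K3_ok TB_l990 _)
             (CovZ.n1 (-31056, 1824) (by decide +kernel)
              (CovZ.leaf K3_ok TB_l991 _)
              (CovZ.leaf K3_ok TB_l992 _)))))
          (CovZ.n1 (-31008, 1632) (by decide +kernel)
           (CovZ.n2 (-31104, 1632) (by decide +kernel)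
            (CovZ.n2 (-31056, 1680) (by decide +kernel)
             (CovZ.leaf K3_ok TB_l993 _)
             (CovZ.leaf K3_ok TB_l994 _))
            (CovZ.n1 (-31056, 1584) (by decide +kernel)
             (CovZ.leaf K3_ok TB_l995 _)
             (CovZ.leaf K3_ok TB_l996 _)))
           (CovZ.n1 (-31008, 1728) (by decide +kernel)
            (CovZ.n2 (-30960, 1680) (by decide +kernel)
             (CovZ.leaf K3_ok TB_l997 _)
             (CovZ.leaf K3_ok TB_l998 _))
            (CovZ.n1 (-31056, 1680) (by decide +kernel)
             (CovZ.n2 (-31056, 1728) (by decide +kernel)
              (CovZ.leaf K3_ok TB_l999 _)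
              (CovZ.leaf K3_ok TB_l1000 _))
             (CovZ.leaf K3_ok TB_l1001 _))))))))
      (CovZ.subM 994646472819573284310764496293641680200912301594695434882195604386547223426563454271490 (by decide +kernel)
       (CovZ.n1 (-31488, 1920) (by decide +kernel)
        TB_u88
        TB_u89)))

end Pool.Agent.TET
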