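import Pool.Agent.Helper38_TET.TB_M
import Pool.Agent.Helper38_TET.TB_L
import Pool.Agent.Helper38_TET.TB_19
import Pool.Agent.Helper38_TET.TB_20
import Pool.Agent.Helper38_TET.TB_21
import Pool.Agent.Helper38_TET.TB_22
import Pool.Agent.Helper38_TET.TB_23
import Pool.Agent.Helper38_TET.TB_24
import Pool.Agent.Helper38_TET.TB_25
import Pool.Agent.Helper38_TET.TB_26
import Pool.Agent.Helper38_TET.TB_27
import Pool.Agent.Helper38_TET.TB_252
import Pool.Agent.Helper38_TET.TB_323
import Pool.Agent.Helper38_TET.TB_333

/-!
# MP_c7c9bf_co: certificates, family TB
-/

set_option autoImplicit false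
set_option maxRecDepth 100000

namespace Pool.Agent.TET

theorem TB_u92 : CovZ TB_M (toL (selN TB_LN 307865750090656250177576235455861927840989930198206055391643847147794452480794694824962579238696465674574808219650)) [0, 7, 6, 1] (-29184, 1536) (-29184, 1920) (-29568, 1920) :=
    (CovZ.n2 (-29376, 1728) (by decide +kernel)
         (CovZ.n2 (-29376, 1920) (by decide +kernel)
          (CovZ.n2 (-29280, 1824) (by decide +kernel)
           (CovZ.subM 2983939418458719852932293488880925136383708209076364523902993551546528757251460713938946 (by decide +kernel)
            (CovZ.n2 (-29376, 1824) (by decide +kernel)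
             (CovZ.n2 (-29328, 1872) (by decide +kernel)
              (CovZ.n2 (-29328, 1824) (by decide +kernel)
               (CovZ.n2 (-29352, 1848) (by decide +kernel)
                (CovZ.leaf K2_ok TB_l2869 _)
                (CovZ.leaf K2_ok TB_l2870 _))
               (CovZ.n1 (-29304, 1848) (by decide +kernel)
                (CovZ.leaf K2_ok TB_l2871 _)
                (CovZ.leaf K2_ok TB_l2872 _)))
              (CovZ.n1 (-29376, 1872) (by decide +kernel)
               (CovZ.n2 (-29352, 1896) (by decide +kernel)
                (CovZ.leaf K2_ok TB_l2873 _)
                (CovZ.leaf K2_ok TB_l2874 _))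
               (CovZ.n1 (-29352, 1848) (by decide +kernel)
                (CovZ.leaf K2_ok TB_l2875 _)
                (CovZ.leaf K2_ok TB_l2876 _))))
             (CovZ.n1 (-29328, 1776) (by decide +kernel)
              (CovZ.n2 (-29376, 1776) (by decide +kernel)
               (CovZ.leaf K2_ok TB_l2877 _)
               (CovZ.leaf K2_ok TB_l2878 _))
              (CovZ.n1 (-29328, 1824) (by decide +kernel)
               (CovZ.leaf K2_ok TB_l2879 _)
               (CovZ.leaf K2_ok TB_l2880 _)))))
           (CovZ.subM 2983939418458719852932293492094801440408874194425909415227869449603163691202235441610754 (by decide +kernel)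
            (CovZ.n1 (-29280, 1920) (by decide +kernel)
             (CovZ.n2 (-29232, 1872) (by decide +kernel)
              (CovZ.n2 (-29280, 1872) (by decide +kernel)
               (CovZ.n2 (-29256, 1896) (by decide +kernel)
                (CovZ.leaf K2_ok TB_l2881 _)
                (CovZ.leaf K2_ok TB_l2882 _))
               (CovZ.leaf K2_ok TB_l2883 _))
              (CovZ.n1 (-29232, 1920) (by decide +kernel)
               (CovZ.n2 (-29208, 1896) (by decide +kernel)
                (CovZ.leaf K2_ok TB_l2884 _)
                (CovZ.n1 (-29208, 1920) (by decide +kernel)
                 (CovZ.leaf K2_ok TB_l2885 _)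
                 (CovZ.leaf K2_ok TB_l2886 _)))
               (CovZ.n1 (-29256, 1896) (by decide +kernel)
                (CovZ.leaf K2_ok TB_l2887 _)
                (CovZ.leaf K2_ok TB_l2888 _))))
             (CovZ.n1 (-29328, 1872) (by decide +kernel)
              (CovZ.subM 1989292945639146568621528992587283456182795907481669089022065597760209763226393962872834 (by decide +kernel)
               (CovZ.n2 (-29328, 1920) (by decide +kernel)
                (CovZ.n2 (-29304, 1896) (by decide +kernel)
                 (CovZ.leaf K2_ok TB_l2889 _)
                 (CovZ.n1 (-29304, 1920) (by decide +kernel)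
                  (CovZ.leaf K2_ok TB_l2890 _)
                  (CovZ.leaf K2_ok TB_l2891 _)))
                (CovZ.n1 (-29352, 1896) (by decide +kernel)
                 (CovZ.n2 (-29352, 1920) (by decide +kernel)
                  (CovZ.leaf K2_ok TB_l2892 _)
                  (CovZ.leaf K2_ok TB_l2893 _))
                 (CovZ.leaf K2_ok TB_l2894 _))))
              (CovZ.n1 (-29280, 1872) (by decide +kernel)
               (CovZ.n2 (-29304, 1848) (by decide +kernel)
                (CovZ.leaf K2_ok TB_l2895 _)
                (CovZ.leaf K2_ok TB_l2896 _))
               (CovZ.n1 (-29304, 1896) (by decide +kernel)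
                (CovZ.leaf K2_ok TB_l2897 _)
                (CovZ.leaf K2_ok TB_l2898 _)))))))
          (CovZ.subM 2983939418458719852932293488880925136383708209076364523902993551546528757251460713938946 (by decide +kernel)
           (CovZ.n1 (-29472, 1824) (by decide +kernel)
            (CovZ.n2 (-29472, 1920) (by decide +kernel)
             (CovZ.n2 (-29424, 1872) (by decide +kernel)
              (CovZ.n2 (-29472, 1872) (by decide +kernel)
               (CovZ.n2 (-29448, 1896) (by decide +kernel)
                (CovZ.leaf K2_ok TB_l2899 _)
                (CovZ.leaf K2_ok TB_l2900 _))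
               (CovZ.leaf K2_ok TB_l2901 _))
              (CovZ.n1 (-29424, 1920) (by decide +kernel)
               (CovZ.n2 (-29400, 1896) (by decide +kernel)
                (CovZ.leaf K2_ok TB_l2902 _)
                (CovZ.n1 (-29400, 1920) (by decide +kernel)
                 (CovZ.leaf K2_ok TB_l2903 _)
                 (CovZ.leaf K2_ok TB_l2904 _)))
               (CovZ.n1 (-29448, 1896) (by decide +kernel)
                (CovZ.n2 (-29448, 1920) (by decide +kernel)
                 (CovZ.leaf K2_ok TB_l2905 _)
                 (CovZ.leaf K2_ok TB_l2906 _))
                (CovZ.leaf K2_ok TB_l2907 _))))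
             (CovZ.n1 (-29520, 1872) (by decide +kernel)
              (CovZ.n2 (-29520, 1920) (by decide +kernel)
               (CovZ.n2 (-29496, 1896) (by decide +kernel)
                (CovZ.leaf K2_ok TB_l2908 _)
                (CovZ.n1 (-29496, 1920) (by decide +kernel)
                 (CovZ.leaf K2_ok TB_l2909 _)
                 (CovZ.leaf K2_ok TB_l2910 _)))
               (CovZ.n1 (-29544, 1896) (by decide +kernel)
                (CovZ.leaf K2_ok TB_l2911 _)
                (CovZ.leaf K2_ok TB_l2912 _)))
              (CovZ.n1 (-29472, 1872) (by decide +kernel)
               (CovZ.n2 (-29496, 1848) (by decide +kernel)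
                (CovZ.leaf K2_ok TB_l2913 _)
                (CovZ.leaf K2_ok TB_l2914 _))
               (CovZ.n1 (-29496, 1896) (by decide +kernel)
                (CovZ.leaf K2_ok TB_l2915 _)
                (CovZ.leaf K2_ok TB_l2916 _)))))
            (CovZ.n1 (-29376, 1824) (by decide +kernel)
             (CovZ.n2 (-29424, 1776) (by decide +kernel)
              (CovZ.n2 (-29424, 1824) (by decide +kernel)
               (CovZ.leaf K2_ok TB_l2917 _)
               (CovZ.leaf K2_ok TB_l2918 _))
              (CovZ.n1 (-29376, 1776) (by decide +kernel)
               (CovZ.leaf K2_ok TB_l2919 _)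
               (CovZ.leaf K2_ok TB_l2920 _)))
             (CovZ.n1 (-29424, 1872) (by decide +kernel)
              (CovZ.n2 (-29376, 1872) (by decide +kernel)
               (CovZ.n2 (-29400, 1848) (by decide +kernel)
                (CovZ.leaf K2_ok TB_l2921 _)
                (CovZ.leaf K2_ok TB_l2922 _))
               (CovZ.n1 (-29400, 1896) (by decide +kernel)
                (CovZ.leaf K2_ok TB_l2923 _)
                (CovZ.n1 (-29400, 1872) (by decide +kernel)
                 (CovZ.leaf K2_ok TB_l2924 _)
                 (CovZ.leaf K2_ok TB_l2925 _))))
              (CovZ.n1 (-29424, 1824) (by decide +kernel)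
               (CovZ.leaf K2_ok TB_l2926 _)
               (CovZ.n1 (-29400, 1848) (by decide +kernel)
                (CovZ.leaf K2_ok TB_l2927 _)
                (CovZ.leaf K2_ok TB_l2928 _))))))))
         (CovZ.n1 (-29184, 1728) (by decide +kernel)
          (CovZ.n2 (-29280, 1632) (by decide +kernel)
           (CovZ.n2 (-29280, 1728) (by decide +kernel)
            (CovZ.n2 (-29232, 1680) (by decide +kernel)
             (CovZ.leaf K2_ok TB_l2929 _)
             (CovZ.n1 (-29232, 1728) (by decide +kernel)
              (CovZ.leaf K2_ok TB_l2930 _)
              (CovZ.leaf K2_ok TB_l2931 _)))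
            (CovZ.n1 (-29328, 1680) (by decide +kernel)
             (CovZ.n2 (-29328, 1728) (by decide +kernel)
              (CovZ.leaf K2_ok TB_l2932 _)
              (CovZ.leaf K2_ok TB_l2933 _))
             (CovZ.leaf K2_ok TB_l2934 _)))
           (CovZ.n1 (-29184, 1632) (by decide +kernel)
            (CovZ.n2 (-29232, 1584) (by decide +kernel)
             (CovZ.n2 (-29232, 1632) (by decide +kernel)
              (CovZ.leaf K2_ok TB_l2935 _)
              (CovZ.leaf K2_ok TB_l2936 _))
             (CovZ.leaf K2_ok TB_l2937 _))
            (CovZ.n1 (-29232, 1680) (by decide +kernel)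
             (CovZ.leaf K2_ok TB_l2938 _)
             (CovZ.n1 (-29232, 1632) (by decide +kernel)
              (CovZ.leaf K2_ok TB_l2939 _)
              (CovZ.leaf K2_ok TB_l2940 _)))))
          (CovZ.n1 (-29280, 1824) (by decide +kernel)
           (CovZ.n2 (-29184, 1824) (by decide +kernel)
            (CovZ.n2 (-29232, 1776) (by decide +kernel)
             (CovZ.n2 (-29232, 1824) (by decide +kernel)
              (CovZ.leaf K2_ok TB_l2941 _)
              (CovZ.leaf K2_ok TB_l2942 _))
             (CovZ.n1 (-29184, 1776) (by decide +kernel)
              (CovZ.leaf K2_ok TB_l2943 _)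
              (CovZ.leaf K2_ok TB_l2944 _)))
            (CovZ.subM 2983939418458719852932293492094801440408874194425909415227869449603163691202235441610754 (by decide +kernel)
             (CovZ.n1 (-29232, 1872) (by decide +kernel)
              (CovZ.n2 (-29184, 1872) (by decide +kernel)
               (CovZ.n2 (-29208, 1848) (by decide +kernel)
                (CovZ.leaf K2_ok TB_l2945 _)
                (CovZ.leaf K2_ok TB_l2946 _))
               (CovZ.n1 (-29208, 1896) (by decide +kernel)
                (CovZ.leaf K2_ok TB_l2947 _)
                (CovZ.leaf K2_ok TB_l2948 _)))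
              (CovZ.n1 (-29232, 1824) (by decide +kernel)
               (CovZ.leaf K2_ok TB_l2949 _)
               (CovZ.n1 (-29208, 1848) (by decide +kernel)
                (CovZ.leaf K2_ok TB_l2950 _)
                (CovZ.leaf K2_ok TB_l2951 _))))))
           (CovZ.n1 (-29280, 1728) (by decide +kernel)
            (CovZ.subM 2983939418458719852932293488880925136383708209076364523902993551546528757251460713938946 (by decide +kernel)
             (CovZ.n2 (-29328, 1776) (by decide +kernel)
              (CovZ.n2 (-29280, 1776) (by decide +kernel)
               (CovZ.leaf K2_ok TB_l2952 _)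
               (CovZ.leaf K2_ok TB_l2953 _))
              (CovZ.n1 (-29328, 1728) (by decide +kernel)
               (CovZ.leaf K2_ok TB_l2954 _)
               (CovZ.leaf K2_ok TB_l2955 _))))
            (CovZ.n1 (-29232, 1776) (by decide +kernel)
             (CovZ.n2 (-29232, 1728) (by decide +kernel)
              (CovZ.leaf K2_ok TB_l2956 _)
              (CovZ.leaf K2_ok TB_l2957 _))
             (CovZ.n1 (-29280, 1776) (by decide +kernel)
              (CovZ.leaf K2_ok TB_l2958 _)
              (CovZ.leaf K2_ok TB_l2959 _)))))))

theorem TB_u93 : CovZ TB_M (toL (selN TB_LN 307865750090656250177576235455861927840989930198206055391643847147794452480794694824962579238696465674574808219650)) [0, 7, 6, 1] (-29184, 1920) (-29184, 2304) (-29568, 1920) :=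
    (CovZ.subM 1989292945639146568621528995801159760207961892831213980346941495816844697177168690544642 (by decide +kernel)
         (CovZ.n1 (-29376, 2112) (by decide +kernel)
          (CovZ.n2 (-29184, 2112) (by decide +kernel)
           (CovZ.n2 (-29280, 2016) (by decide +kernel)
            (CovZ.n2 (-29280, 2112) (by decide +kernel)
             (CovZ.n2 (-29232, 2064) (by decide +kernel)
              (CovZ.badM (by decide +kernel))
              (CovZ.badM (by decide +kernel)))
             (CovZ.badM (by decide +kernel)))
            (CovZ.n1 (-29184, 2016) (by decide +kernel)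
             (CovZ.n2 (-29232, 1968) (by decide +kernel)
              (CovZ.subM 1989292945639146568621528995801159664426990588538935761086731805629272922000908229804032 (by decide +kernel)
               (CovZ.n2 (-29232, 2016) (by decide +kernel)
                (CovZ.n2 (-29208, 1992) (by decide +kernel)
                 (CovZ.n2 (-29232, 1992) (by decide +kernel)
                  (CovZ.badM (by decide +kernel))
                  (CovZ.leaf K2_ok TB_l2963 _))
                 (CovZ.n1 (-29208, 2016) (by decide +kernel)
                  (CovZ.leaf K2_ok TB_l2964 _)
                  (CovZ.badM (by decide +kernel))))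
                (CovZ.n1 (-29256, 1992) (by decide +kernel)
                 (CovZ.badM (by decide +kernel))
                 (CovZ.n1 (-29232, 1992) (by decide +kernel)
                  (CovZ.leaf K2_ok TB_l2968 _)
                  (CovZ.badM (by decide +kernel))))))
              (CovZ.n1 (-29184, 1968) (by decide +kernel)
               (CovZ.n2 (-29208, 1944) (by decide +kernel)
                (CovZ.n2 (-29208, 1968) (by decide +kernel)
                 (CovZ.leaf K2_ok TB_l2970 _)
                 (CovZ.leaf K2_ok TB_l2971 _))
                (CovZ.leaf K2_ok TB_l2972 _))
               (CovZ.subM 1989292945639146568621528995801159664426990588538935761086731805629272922000908229804032 (by decide +kernel)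
                (CovZ.n1 (-29208, 1992) (by decide +kernel)
                 (CovZ.n2 (-29184, 1992) (by decide +kernel)
                  (CovZ.leaf K2_ok TB_l2973 _)
                  (CovZ.n1 (-29196, 2004) (by decide +kernel)
                   (CovZ.leaf K2_ok TB_l2974 _)
                   (CovZ.leaf K2_ok TB_l2975 _)))
                 (CovZ.n1 (-29208, 1968) (by decide +kernel)
                  (CovZ.leaf K2_ok TB_l2976 _)
                  (CovZ.leaf K2_ok TB_l2977 _))))))
             (CovZ.subM 3213876304025165985349544891324875898056634933950774727671808 (by decide +kernel)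
              (CovZ.n1 (-29232, 2064) (by decide +kernel)
               (CovZ.n2 (-29184, 2064) (by decide +kernel)
                (CovZ.n2 (-29208, 2040) (by decide +kernel)
                 (CovZ.n2 (-29208, 2064) (by decide +kernel)
                  (CovZ.n2 (-29196, 2052) (by decide +kernel)
                   (CovZ.badM (by decide +kernel))
                   (CovZ.badM (by decide +kernel)))
                  (CovZ.badM (by decide +kernel)))
                 (CovZ.n1 (-29184, 2040) (by decide +kernel)
                  (CovZ.n2 (-29196, 2028) (by decide +kernel)
                   (CovZ.leaf K2_ok TB_l37789 _)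
                   (CovZ.leaf K2_ok TB_l2978 _))
                  (CovZ.n1 (-29196, 2052) (by decide +kernel)
                   (CovZ.leaf K2_ok TB_l37790 _)
                   (CovZ.leaf K2_ok TB_l37791 _))))
                (CovZ.badM (by decide +kernel)))
               (CovZ.n1 (-29232, 2016) (by decide +kernel)
                (CovZ.badM (by decide +kernel))
                (CovZ.n1 (-29208, 2040) (by decide +kernel)
                 (CovZ.n2 (-29208, 2016) (by decide +kernel)
                  (CovZ.badM (by decide +kernel))
                  (CovZ.leaf K2_ok TB_l2986 _))
                 (CovZ.badM (by decide +kernel))))))))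
           (CovZ.n1 (-29280, 2208) (by decide +kernel)
            (CovZ.badM (by decide +kernel))
            (CovZ.n1 (-29280, 2112) (by decide +kernel)
             (CovZ.badM (by decide +kernel))
             (CovZ.badM (by decide +kernel)))))
          (CovZ.n1 (-29376, 1920) (by decide +kernel)
           (CovZ.subM 1989292945639146568621528992587283456182795907481669089022065597760209763226393962872834 (by decide +kernel)
            (CovZ.n2 (-29472, 2016) (by decide +kernel)
             (CovZ.n2 (-29376, 2016) (by decide +kernel)
              (CovZ.n2 (-29424, 1968) (by decide +kernel)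
               (CovZ.n2 (-29424, 2016) (by decide +kernel)
                (CovZ.n2 (-29400, 1992) (by decide +kernel)
                 (CovZ.n2 (-29424, 1992) (by decide +kernel)
                  (CovZ.badM (by decide +kernel))
                  (CovZ.leaf K2_ok TB_l2989 _))
                 (CovZ.badM (by decide +kernel)))
                (CovZ.n1 (-29448, 1992) (by decide +kernel)
                 (CovZ.badM (by decide +kernel))
                 (CovZ.n1 (-29424, 1992) (by decide +kernel)
                  (CovZ.leaf K2_ok TB_l2995 _)
                  (CovZ.badM (by decide +kernel)))))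
               (CovZ.n1 (-29376, 1968) (by decide +kernel)
                (CovZ.n2 (-29400, 1944) (by decide +kernel)
                 (CovZ.n2 (-29400, 1968) (by decide +kernel)
                  (CovZ.leaf K2_ok TB_l2997 _)
                  (CovZ.leaf K2_ok TB_l2998 _))
                 (CovZ.leaf K2_ok TB_l2999 _))
                (CovZ.n1 (-29400, 1992) (by decide +kernel)
                 (CovZ.n2 (-29376, 1992) (by decide +kernel)
                  (CovZ.leaf K2_ok TB_l3000 _)
                  (CovZ.badM (by decide +kernel)))
                 (CovZ.n1 (-29400, 1968) (by decide +kernel)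
                  (CovZ.leaf K2_ok TB_l3002 _)
                  (CovZ.leaf K2_ok TB_l3003 _)))))
              (CovZ.badM (by decide +kernel)))
             (CovZ.n1 (-29472, 1920) (by decide +kernel)
              (CovZ.n2 (-29520, 1968) (by decide +kernel)
               (CovZ.n2 (-29472, 1968) (by decide +kernel)
                (CovZ.n2 (-29496, 1944) (by decide +kernel)
                 (CovZ.n2 (-29496, 1968) (by decide +kernel)
                  (CovZ.leaf K2_ok TB_l3012 _)
                  (CovZ.leaf K2_ok TB_l3013 _))
                 (CovZ.leaf K2_ok TB_l3014 _))
                (CovZ.n1 (-29496, 1992) (by decide +kernel)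
                 (CovZ.n2 (-29472, 1992) (by decide +kernel)
                  (CovZ.leaf K2_ok TB_l3015 _)
                  (CovZ.leaf K2_ok TB_l3016 _))
                 (CovZ.n1 (-29496, 1968) (by decide +kernel)
                  (CovZ.leaf K2_ok TB_l3017 _)
                  (CovZ.leaf K2_ok TB_l3018 _))))
               (CovZ.n1 (-29520, 1920) (by decide +kernel)
                (CovZ.n2 (-29544, 1944) (by decide +kernel)
                 (CovZ.n2 (-29520, 1944) (by decide +kernel)
                  (CovZ.leaf K2_ok TB_l3019 _)
                  (CovZ.leaf K2_ok TB_l3020 _))
                 (CovZ.n1 (-29544, 1920) (by decide +kernel)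
                  (CovZ.leaf K2_ok TB_l3021 _)
                  (CovZ.leaf K2_ok TB_l3022 _)))
                (CovZ.n1 (-29496, 1944) (by decide +kernel)
                 (CovZ.n2 (-29496, 1920) (by decide +kernel)
                  (CovZ.leaf K2_ok TB_l3023 _)
                  (CovZ.leaf K2_ok TB_l3024 _))
                 (CovZ.leaf K2_ok TB_l3025 _))))
              (CovZ.n1 (-29424, 1968) (by decide +kernel)
               (CovZ.n2 (-29424, 1920) (by decide +kernel)
                (CovZ.n2 (-29448, 1944) (by decide +kernel)
                 (CovZ.leaf K2_ok TB_l3026 _)
                 (CovZ.n1 (-29448, 1920) (by decide +kernel)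
                  (CovZ.leaf K2_ok TB_l3027 _)
                  (CovZ.leaf K2_ok TB_l3028 _)))
                (CovZ.n1 (-29400, 1944) (by decide +kernel)
                 (CovZ.n2 (-29400, 1920) (by decide +kernel)
                  (CovZ.leaf K2_ok TB_l3029 _)
                  (CovZ.leaf K2_ok TB_l3030 _))
                 (CovZ.leaf K2_ok TB_l3031 _)))
               (CovZ.n1 (-29472, 1968) (by decide +kernel)
                (CovZ.n2 (-29448, 1992) (by decide +kernel)
                 (CovZ.n2 (-29448, 1968) (by decide +kernel)
                  (CovZ.leaf K2_ok TB_l3032 _)
                  (CovZ.leaf K2_ok TB_l3033 _))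
                 (CovZ.n1 (-29472, 1992) (by decide +kernel)
                  (CovZ.badM (by decide +kernel))
                  (CovZ.leaf K2_ok TB_l3035 _)))
                (CovZ.n1 (-29448, 1944) (by decide +kernel)
                 (CovZ.leaf K2_ok TB_l3036 _)
                 (CovZ.n1 (-29448, 1968) (by decide +kernel)
                  (CovZ.leaf K2_ok TB_l3037 _)
                  (CovZ.leaf K2_ok TB_l3038 _))))))))
           (CovZ.n1 (-29280, 2016) (by decide +kernel)
            (CovZ.n2 (-29280, 1920) (by decide +kernel)
             (CovZ.subM 1989292945639146568621528992587283456182795907481669089022065597760209763226393962872834 (by decide +kernel)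
              (CovZ.n2 (-29328, 1968) (by decide +kernel)
               (CovZ.n2 (-29280, 1968) (by decide +kernel)
                (CovZ.n2 (-29304, 1944) (by decide +kernel)
                 (CovZ.n2 (-29304, 1968) (by decide +kernel)
                  (CovZ.leaf K2_ok TB_l3039 _)
                  (CovZ.leaf K2_ok TB_l3040 _))
                 (CovZ.leaf K2_ok TB_l3041 _))
                (CovZ.n1 (-29304, 1992) (by decide +kernel)
                 (CovZ.n2 (-29280, 1992) (by decide +kernel)
                  (CovZ.leaf K2_ok TB_l3042 _)
                  (CovZ.badM (by decide +kernel)))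
                 (CovZ.n1 (-29304, 1968) (by decide +kernel)
                  (CovZ.leaf K2_ok TB_l3044 _)
                  (CovZ.leaf K2_ok TB_l3045 _))))
               (CovZ.n1 (-29328, 1920) (by decide +kernel)
                (CovZ.n2 (-29352, 1944) (by decide +kernel)
                 (CovZ.n2 (-29328, 1944) (by decide +kernel)
                  (CovZ.leaf K2_ok TB_l3046 _)
                  (CovZ.leaf K2_ok TB_l3047 _))
                 (CovZ.n1 (-29352, 1920) (by decide +kernel)
                  (CovZ.leaf K2_ok TB_l3048 _)
                  (CovZ.leaf K2_ok TB_l3049 _)))
                (CovZ.n1 (-29304, 1944) (by decide +kernel)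
                 (CovZ.n2 (-29304, 1920) (by decide +kernel)
                  (CovZ.leaf K2_ok TB_l3050 _)
                  (CovZ.leaf K2_ok TB_l3051 _))
                 (CovZ.leaf K2_ok TB_l3052 _)))))
             (CovZ.n1 (-29232, 1968) (by decide +kernel)
              (CovZ.n2 (-29232, 1920) (by decide +kernel)
               (CovZ.n2 (-29256, 1944) (by decide +kernel)
                (CovZ.leaf K2_ok TB_l3053 _)
                (CovZ.n1 (-29256, 1920) (by decide +kernel)
                 (CovZ.leaf K2_ok TB_l3054 _)
                 (CovZ.leaf K2_ok TB_l3055 _)))
               (CovZ.n1 (-29208, 1944) (by decide +kernel)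
                (CovZ.leaf K2_ok TB_l3056 _)
                (CovZ.leaf K2_ok TB_l3057 _)))
              (CovZ.subM 1989292945639146568621528992587283456182795907481669089022065597760209763226393962872834 (by decide +kernel)
               (CovZ.n1 (-29280, 1968) (by decide +kernel)
                (CovZ.n2 (-29256, 1992) (by decide +kernel)
                 (CovZ.n2 (-29256, 1968) (by decide +kernel)
                  (CovZ.leaf K2_ok TB_l3058 _)
                  (CovZ.leaf K2_ok TB_l3059 _))
                 (CovZ.leaf K2_ok TB_l3060 _))
                (CovZ.n1 (-29256, 1944) (by decide +kernel)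
                 (CovZ.leaf K2_ok TB_l3061 _)
                 (CovZ.n1 (-29256, 1968) (by decide +kernel)
                  (CovZ.leaf K2_ok TB_l3062 _)
                  (CovZ.leaf K2_ok TB_l3063 _)))))))
            (CovZ.subM 1989292945639146568621528992587283456182795907481669089022065597760209763226393962872834 (by decide +kernel)
             (CovZ.n1 (-29376, 2016) (by decide +kernel)
              (CovZ.badM (by decide +kernel))
              (CovZ.n1 (-29328, 1968) (by decide +kernel)
               (CovZ.n2 (-29376, 1968) (by decide +kernel)
                (CovZ.n2 (-29352, 1992) (by decide +kernel)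
                 (CovZ.n2 (-29352, 1968) (by decide +kernel)
                  (CovZ.leaf K2_ok TB_l3073 _)
                  (CovZ.leaf K2_ok TB_l3074 _))
                 (CovZ.n1 (-29376, 1992) (by decide +kernel)
                  (CovZ.badM (by decide +kernel))
                  (CovZ.leaf K2_ok TB_l3076 _)))
                (CovZ.n1 (-29352, 1944) (by decide +kernel)
                 (CovZ.leaf K2_ok TB_l3077 _)
                 (CovZ.n1 (-29352, 1968) (by decide +kernel)
                  (CovZ.leaf K2_ok TB_l3078 _)
                  (CovZ.leaf K2_ok TB_l3079 _))))
               (CovZ.n1 (-29328, 2016) (by decide +kernel)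
                (CovZ.n2 (-29304, 1992) (by decide +kernel)
                 (CovZ.n2 (-29328, 1992) (by decide +kernel)
                  (CovZ.badM (by decide +kernel))
                  (CovZ.leaf K2_ok TB_l3081 _))
                 (CovZ.badM (by decide +kernel)))
                (CovZ.n1 (-29352, 1992) (by decide +kernel)
                 (CovZ.badM (by decide +kernel))
                 (CovZ.n1 (-29328, 1992) (by decide +kernel)
                  (CovZ.leaf K2_ok TB_l3087 _)
                  (CovZ.badM (by decide +kernel))))))))))))

theorem TB_u94 : CovZ TB_M (toL (selN TB_LN 5818432186490023332895567750173897620657266736711653859500534740831397873274896958434716252814369590625338981268834795493970673666)) [0, 7, 6, 1] (-29952, 2304) (-30144, 2112) (-29952, 1920) :=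
    (CovZ.subM 10576895500643977583230644928524336639243767873067702616281982625276322781483801214077204264771473610795545907687793713217538 (by decide +kernel)
          (CovZ.n2 (-29952, 2112) (by decide +kernel)
           (CovZ.n2 (-30048, 2016) (by decide +kernel)
            (CovZ.n2 (-30048, 2112) (by decide +kernel)
             (CovZ.subM 56539106072908298546761300995077684786027972905495061220297835789775011840 (by decide +kernel)
              (CovZ.n2 (-30000, 2064) (by decide +kernel)
               (CovZ.n2 (-30048, 2064) (by decide +kernel)
                (CovZ.n2 (-30024, 2088) (by decide +kernel)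
                 (CovZ.n2 (-30024, 2064) (by decide +kernel)
                  (CovZ.n2 (-30036, 2076) (by decide +kernel)
                   (CovZ.leaf K2_ok TB_l37792 _)
                   (CovZ.leaf K2_ok TB_l37793 _))
                  (CovZ.n1 (-30012, 2076) (by decide +kernel)
                   (CovZ.leaf K2_ok TB_l37794 _)
                   (CovZ.leaf K2_ok TB_l37795 _)))
                 (CovZ.n1 (-30048, 2088) (by decide +kernel)
                  (CovZ.badM (by decide +kernel))
                  (CovZ.n1 (-30036, 2076) (by decide +kernel)
                   (CovZ.leaf K2_ok TB_l37796 _)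
                   (CovZ.leaf K2_ok TB_l37797 _))))
                (CovZ.n1 (-30024, 2040) (by decide +kernel)
                 (CovZ.n2 (-30048, 2040) (by decide +kernel)
                  (CovZ.leaf K2_ok TB_l3173 _)
                  (CovZ.leaf K2_ok TB_l3174 _))
                 (CovZ.n1 (-30024, 2064) (by decide +kernel)
                  (CovZ.leaf K2_ok TB_l37798 _)
                  (CovZ.leaf K2_ok TB_l37799 _))))
               (CovZ.subM 174225901091516278360236430263954251448320 (by decide +kernel)
                (CovZ.n1 (-30000, 2112) (by decide +kernel)
                 (CovZ.n2 (-29976, 2088) (by decide +kernel)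
                  (CovZ.n2 (-30000, 2088) (by decide +kernel)
                   (CovZ.badM (by decide +kernel))
                   (CovZ.n1 (-29988, 2076) (by decide +kernel)
                    (CovZ.leaf K2_ok TB_l37800 _)
                    (CovZ.badM (by decide +kernel))))
                  (CovZ.badM (by decide +kernel)))
                 (CovZ.n1 (-30024, 2088) (by decide +kernel)
                  (CovZ.badM (by decide +kernel))
                  (CovZ.n1 (-30000, 2088) (by decide +kernel)
                   (CovZ.n2 (-30012, 2076) (by decide +kernel)
                    (CovZ.leaf K2_ok TB_l37801 _)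
                    (CovZ.leaf K2_ok TB_l37802 _))
                   (CovZ.badM (by decide +kernel))))))))
             (CovZ.subM 10576895500643977583230644928524336637254474927428556047660453632689039325301005306769759747611660855728355714064968371404800 (by decide +kernel)
              (CovZ.n1 (-30096, 2064) (by decide +kernel)
               (CovZ.n2 (-30096, 2112) (by decide +kernel)
                (CovZ.n2 (-30072, 2088) (by decide +kernel)
                 (CovZ.n2 (-30096, 2088) (by decide +kernel)
                  (CovZ.n2 (-30084, 2100) (by decide +kernel)
                   (CovZ.leaf K2_ok TB_l37803 _)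
                   (CovZ.leaf K2_ok TB_l37804 _))
                  (CovZ.n1 (-30084, 2076) (by decide +kernel)
                   (CovZ.leaf K2_ok TB_l37805 _)
                   (CovZ.leaf K2_ok TB_l37806 _)))
                 (CovZ.badM (by decide +kernel)))
                (CovZ.n1 (-30120, 2088) (by decide +kernel)
                 (CovZ.n2 (-30120, 2112) (by decide +kernel)
                  (CovZ.n2 (-30108, 2100) (by decide +kernel)
                   (CovZ.leaf K2_ok TB_l37807 _)
                   (CovZ.badM (by decide +kernel)))
                  (CovZ.n1 (-30132, 2100) (by decide +kernel)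
                   (CovZ.badM (by decide +kernel))
                   (CovZ.leaf K2_ok TB_l37808 _)))
                 (CovZ.n1 (-30096, 2088) (by decide +kernel)
                  (CovZ.n2 (-30108, 2076) (by decide +kernel)
                   (CovZ.leaf K2_ok TB_l37809 _)
                   (CovZ.leaf K2_ok TB_l37810 _))
                  (CovZ.n1 (-30108, 2100) (by decide +kernel)
                   (CovZ.leaf K2_ok TB_l37811 _)
                   (CovZ.leaf K2_ok TB_l37812 _)))))
               (CovZ.n1 (-30048, 2064) (by decide +kernel)
                (CovZ.n2 (-30072, 2040) (by decide +kernel)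
                 (CovZ.n2 (-30072, 2064) (by decide +kernel)
                  (CovZ.leaf K2_ok TB_l3175 _)
                  (CovZ.leaf K2_ok TB_l3176 _))
                 (CovZ.n1 (-30048, 2040) (by decide +kernel)
                  (CovZ.leaf K2_ok TB_l3177 _)
                  (CovZ.leaf K2_ok TB_l3178 _)))
                (CovZ.n1 (-30072, 2088) (by decide +kernel)
                 (CovZ.n2 (-30048, 2088) (by decide +kernel)
                  (CovZ.n2 (-30060, 2076) (by decide +kernel)
                   (CovZ.leaf K2_ok TB_l37813 _)
                   (CovZ.leaf K2_ok TB_l37814 _))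
                  (CovZ.badM (by decide +kernel)))
                 (CovZ.n1 (-30072, 2064) (by decide +kernel)
                  (CovZ.n2 (-30084, 2076) (by decide +kernel)
                   (CovZ.leaf K2_ok TB_l37815 _)
                   (CovZ.leaf K2_ok TB_l37816 _))
                  (CovZ.leaf K2_ok TB_l37817 _)))))))
            (CovZ.n1 (-29952, 2016) (by decide +kernel)
             (CovZ.n2 (-30000, 1968) (by decide +kernel)
              (CovZ.n2 (-30000, 2016) (by decide +kernel)
               (CovZ.subM 1989292945639203107727601900885830121702819680874176897736029053082970787833392310255616 (by decide +kernel)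
                (CovZ.n2 (-29976, 1992) (by decide +kernel)
                 (CovZ.n2 (-30000, 1992) (by decide +kernel)
                  (CovZ.leaf K2_ok TB_l3179 _)
                  (CovZ.leaf K2_ok TB_l3180 _))
                 (CovZ.n1 (-29976, 2016) (by decide +kernel)
                  (CovZ.leaf K2_ok TB_l3181 _)
                  (CovZ.leaf K2_ok TB_l3182 _))))
               (CovZ.n1 (-30024, 1992) (by decide +kernel)
                (CovZ.n2 (-30024, 2016) (by decide +kernel)
                 (CovZ.leaf K2_ok TB_l3183 _)
                 (CovZ.leaf K2_ok TB_l3184 _))
                (CovZ.n1 (-30000, 1992) (by decide +kernel)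
                 (CovZ.leaf K2_ok TB_l3185 _)
                 (CovZ.leaf K2_ok TB_l3186 _))))
              (CovZ.n1 (-29952, 1968) (by decide +kernel)
               (CovZ.n2 (-29976, 1944) (by decide +kernel)
                (CovZ.n2 (-29976, 1968) (by decide +kernel)
                 (CovZ.leaf K2_ok TB_l3187 _)
                 (CovZ.leaf K2_ok TB_l3188 _))
                (CovZ.leaf K2_ok TB_l3189 _))
               (CovZ.subM 1989292945639203107727601900885830121702819680874176897736029053082970787833392310255616 (by decide +kernel)
                (CovZ.n1 (-29976, 1992) (by decide +kernel)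
                 (CovZ.n2 (-29952, 1992) (by decide +kernel)
                  (CovZ.leaf K2_ok TB_l3190 _)
                  (CovZ.leaf K2_ok TB_l3191 _))
                 (CovZ.n1 (-29976, 1968) (by decide +kernel)
                  (CovZ.leaf K2_ok TB_l3192 _)
                  (CovZ.leaf K2_ok TB_l3193 _))))))
             (CovZ.subM 56539106072908298546761300995077684786027972905495061220297835789775011840 (by decide +kernel)
              (CovZ.n1 (-30000, 2064) (by decide +kernel)
               (CovZ.n2 (-29952, 2064) (by decide +kernel)
                (CovZ.n2 (-29976, 2040) (by decide +kernel)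
                 (CovZ.n2 (-29976, 2064) (by decide +kernel)
                  (CovZ.leaf K2_ok TB_l3194 _)
                  (CovZ.n1 (-29988, 2052) (by decide +kernel)
                   (CovZ.leaf K2_ok TB_l37818 _)
                   (CovZ.leaf K2_ok TB_l37819 _)))
                 (CovZ.n1 (-29952, 2040) (by decide +kernel)
                  (CovZ.leaf K2_ok TB_l3195 _)
                  (CovZ.leaf K2_ok TB_l3196 _)))
                (CovZ.subM 174225901091516278209120702812125604610048 (by decide +kernel)
                 (CovZ.n1 (-29976, 2088) (by decide +kernel)
                  (CovZ.n2 (-29952, 2088) (by decide +kernel)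
                   (CovZ.n2 (-29964, 2076) (by decide +kernel)
                    (CovZ.badM (by decide +kernel))
                    (CovZ.leaf K2_ok TB_l3197 _))
                   (CovZ.badM (by decide +kernel)))
                  (CovZ.n1 (-29976, 2064) (by decide +kernel)
                   (CovZ.n2 (-29988, 2076) (by decide +kernel)
                    (CovZ.leaf K2_ok TB_l37820 _)
                    (CovZ.leaf K2_ok TB_l37821 _))
                   (CovZ.leaf K2_ok TB_l3198 _)))))
               (CovZ.n1 (-30000, 2016) (by decide +kernel)
                (CovZ.n2 (-30024, 2040) (by decide +kernel)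
                 (CovZ.n2 (-30000, 2040) (by decide +kernel)
                  (CovZ.leaf K2_ok TB_l3199 _)
                  (CovZ.leaf K2_ok TB_l37822 _))
                 (CovZ.n1 (-30024, 2016) (by decide +kernel)
                  (CovZ.leaf K2_ok TB_l3200 _)
                  (CovZ.leaf K2_ok TB_l3201 _)))
                (CovZ.n1 (-29976, 2040) (by decide +kernel)
                 (CovZ.n2 (-29976, 2016) (by decide +kernel)
                  (CovZ.n2 (-29988, 2028) (by decide +kernel)
                   (CovZ.leaf K2_ok TB_l3202 _)
                   (CovZ.leaf K2_ok TB_l3203 _))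
                  (CovZ.leaf K2_ok TB_l3204 _))
                 (CovZ.n1 (-30000, 2040) (by decide +kernel)
                  (CovZ.n2 (-29988, 2052) (by decide +kernel)
                   (CovZ.leaf K2_ok TB_l37823 _)
                   (CovZ.leaf K2_ok TB_l37824 _))
                  (CovZ.leaf K2_ok TB_l3205 _))))))))
           (CovZ.badM (by decide +kernel))))

theorem TB_u95 : CovZ TB_M (toL (selN TB_LN 5818432186490023332895567750173897620657266736711653859500534740831397873274896958434716252814369590625338981268834795493970673666)) [0, 7, 6, 1] (-30144, 2112) (-30336, 1920) (-29952, 1920) :=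
    (CovZ.n1 (-30144, 1920) (by decide +kernel)
          (CovZ.n2 (-30240, 2016) (by decide +kernel)
           (CovZ.subM 10841317888160077022811411051737445053187826093559851199375967844401140806301427919932159919660200634498371358022147662539653122 (by decide +kernel)
            (CovZ.n2 (-30144, 2016) (by decide +kernel)
             (CovZ.n2 (-30192, 1968) (by decide +kernel)
              (CovZ.n2 (-30192, 2016) (by decide +kernel)
               (CovZ.n2 (-30168, 1992) (by decide +kernel)
                (CovZ.leaf K2_ok TB_l3206 _)
                (CovZ.n1 (-30168, 2016) (by decide +kernel)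
                 (CovZ.leaf K2_ok TB_l3207 _)
                 (CovZ.leaf K2_ok TB_l3208 _)))
               (CovZ.n1 (-30216, 1992) (by decide +kernel)
                (CovZ.n2 (-30216, 2016) (by decide +kernel)
                 (CovZ.leaf K2_ok TB_l3209 _)
                 (CovZ.leaf K2_ok TB_l3210 _))
                (CovZ.leaf K2_ok TB_l3211 _)))
              (CovZ.n1 (-30144, 1968) (by decide +kernel)
               (CovZ.n2 (-30168, 1944) (by decide +kernel)
                (CovZ.leaf K2_ok TB_l3212 _)
                (CovZ.leaf K2_ok TB_l3213 _))
               (CovZ.n1 (-30168, 1992) (by decide +kernel)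
                (CovZ.leaf K2_ok TB_l3214 _)
                (CovZ.n1 (-30168, 1968) (by decide +kernel)
                 (CovZ.leaf K2_ok TB_l3215 _)
                 (CovZ.leaf K2_ok TB_l3216 _)))))
             (CovZ.n1 (-30192, 2064) (by decide +kernel)
              (CovZ.n2 (-30144, 2064) (by decide +kernel)
               (CovZ.n2 (-30168, 2040) (by decide +kernel)
                (CovZ.n2 (-30168, 2064) (by decide +kernel)
                 (CovZ.leaf K2_ok TB_l3217 _)
                 (CovZ.leaf K2_ok TB_l3218 _))
                (CovZ.n1 (-30144, 2040) (by decide +kernel)
                 (CovZ.leaf K2_ok TB_l3219 _)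
                 (CovZ.leaf K2_ok TB_l3220 _)))
               (CovZ.subM 10576895500643977583230644928524336637254474927428499508554380724390492659780981533377253268128228486521924052068023710777344 (by decide +kernel)
                (CovZ.n1 (-30168, 2088) (by decide +kernel)
                 (CovZ.n2 (-30144, 2088) (by decide +kernel)
                  (CovZ.leaf K2_ok TB_l3221 _)
                  (CovZ.leaf K2_ok TB_l37825 _))
                 (CovZ.n1 (-30168, 2064) (by decide +kernel)
                  (CovZ.leaf K2_ok TB_l3222 _)
                  (CovZ.leaf K2_ok TB_l3223 _)))))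
              (CovZ.n1 (-30192, 2016) (by decide +kernel)
               (CovZ.n2 (-30216, 2040) (by decide +kernel)
                (CovZ.n2 (-30192, 2040) (by decide +kernel)
                 (CovZ.leaf K2_ok TB_l3224 _)
                 (CovZ.leaf K2_ok TB_l3225 _))
                (CovZ.n1 (-30216, 2016) (by decide +kernel)
                 (CovZ.leaf K2_ok TB_l3226 _)
                 (CovZ.leaf K2_ok TB_l3227 _)))
               (CovZ.n1 (-30168, 2040) (by decide +kernel)
                (CovZ.n2 (-30168, 2016) (by decide +kernel)
                 (CovZ.leaf K2_ok TB_l3228 _)
                 (CovZ.leaf K2_ok TB_l3229 _))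
                (CovZ.leaf K2_ok TB_l3230 _))))))
           (CovZ.n1 (-30240, 1920) (by decide +kernel)
            (CovZ.n2 (-30288, 1968) (by decide +kernel)
             (CovZ.subM 11097807604050693479204754191254160216641247110549992255919305504059311706635596698338940826831325464999430088396458284197871618 (by decide +kernel)
              (CovZ.n2 (-30240, 1968) (by decide +kernel)
               (CovZ.n2 (-30264, 1944) (by decide +kernel)
                (CovZ.leaf K2_ok TB_l3231 _)
                (CovZ.leaf K2_ok TB_l3232 _))
               (CovZ.n1 (-30264, 1992) (by decide +kernel)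
                (CovZ.leaf K2_ok TB_l3233 _)
                (CovZ.n1 (-30264, 1968) (by decide +kernel)
                 (CovZ.leaf K2_ok TB_l3234 _)
                 (CovZ.leaf K2_ok TB_l3235 _)))))
             (CovZ.n1 (-30288, 1920) (by decide +kernel)
              (CovZ.n2 (-30312, 1944) (by decide +kernel)
               (CovZ.leaf K2_ok TB_l3236 _)
               (CovZ.leaf K2_ok TB_l3237 _))
              (CovZ.n1 (-30264, 1944) (by decide +kernel)
               (CovZ.leaf K2_ok TB_l3238 _)
               (CovZ.leaf K2_ok TB_l3239 _))))
            (CovZ.subM 10843962112035238017207218712969576137347139712291708324253106439582238429466373165315460676501959495637761722870247755972870146 (by decide +kernel)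
             (CovZ.n1 (-30192, 1968) (by decide +kernel)
              (CovZ.n2 (-30192, 1920) (by decide +kernel)
               (CovZ.n2 (-30216, 1944) (by decide +kernel)
                (CovZ.leaf K2_ok TB_l3240 _)
                (CovZ.n1 (-30216, 1920) (by decide +kernel)
                 (CovZ.leaf K2_ok TB_l3241 _)
                 (CovZ.leaf K2_ok TB_l3242 _)))
               (CovZ.n1 (-30168, 1944) (by decide +kernel)
                (CovZ.leaf K2_ok TB_l3243 _)
                (CovZ.leaf K2_ok TB_l3244 _)))
              (CovZ.n1 (-30240, 1968) (by decide +kernel)
               (CovZ.n2 (-30216, 1992) (by decide +kernel)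
                (CovZ.n2 (-30216, 1968) (by decide +kernel)
                 (CovZ.leaf K2_ok TB_l3245 _)
                 (CovZ.leaf K2_ok TB_l3246 _))
                (CovZ.leaf K2_ok TB_l3247 _))
               (CovZ.n1 (-30216, 1944) (by decide +kernel)
                (CovZ.leaf K2_ok TB_l3248 _)
                (CovZ.n1 (-30216, 1968) (by decide +kernel)
                 (CovZ.leaf K2_ok TB_l3249 _)
                 (CovZ.leaf K2_ok TB_l3250 _))))))))
          (CovZ.subM 10576895500643977583230644928524336639243767873067702616281982625276322781483801214077204264771473610795545907687793713217538 (by decide +kernel)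
           (CovZ.n1 (-30048, 2016) (by decide +kernel)
            (CovZ.n2 (-30048, 1920) (by decide +kernel)
             (CovZ.n2 (-30096, 1968) (by decide +kernel)
              (CovZ.n2 (-30048, 1968) (by decide +kernel)
               (CovZ.n2 (-30072, 1944) (by decide +kernel)
                (CovZ.n2 (-30072, 1968) (by decide +kernel)
                 (CovZ.leaf K2_ok TB_l3251 _)
                 (CovZ.leaf K2_ok TB_l3252 _))
                (CovZ.leaf K2_ok TB_l3253 _))
               (CovZ.n1 (-30072, 1992) (by decide +kernel)
                (CovZ.leaf K2_ok TB_l3254 _)
                (CovZ.n1 (-30072, 1968) (by decide +kernel)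
                 (CovZ.leaf K2_ok TB_l3255 _)
                 (CovZ.leaf K2_ok TB_l3256 _))))
              (CovZ.n1 (-30096, 1920) (by decide +kernel)
               (CovZ.n2 (-30120, 1944) (by decide +kernel)
                (CovZ.leaf K2_ok TB_l3257 _)
                (CovZ.leaf K2_ok TB_l3258 _))
               (CovZ.n1 (-30072, 1944) (by decide +kernel)
                (CovZ.n2 (-30072, 1920) (by decide +kernel)
                 (CovZ.leaf K2_ok TB_l3259 _)
                 (CovZ.leaf K2_ok TB_l3260 _))
                (CovZ.leaf K2_ok TB_l3261 _))))
             (CovZ.n1 (-30000, 1968) (by decide +kernel)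
              (CovZ.n2 (-30000, 1920) (by decide +kernel)
               (CovZ.n2 (-30024, 1944) (by decide +kernel)
                (CovZ.leaf K2_ok TB_l3262 _)
                (CovZ.leaf K2_ok TB_l3263 _))
               (CovZ.n1 (-29976, 1944) (by decide +kernel)
                (CovZ.n2 (-29976, 1920) (by decide +kernel)
                 (CovZ.leaf K2_ok TB_l3264 _)
                 (CovZ.leaf K2_ok TB_l3265 _))
                (CovZ.leaf K2_ok TB_l3266 _)))
              (CovZ.n1 (-30048, 1968) (by decide +kernel)
               (CovZ.n2 (-30024, 1992) (by decide +kernel)
                (CovZ.n2 (-30024, 1968) (by decide +kernel)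
                 (CovZ.leaf K2_ok TB_l3267 _)
                 (CovZ.leaf K2_ok TB_l3268 _))
                (CovZ.leaf K2_ok TB_l3269 _))
               (CovZ.n1 (-30024, 1944) (by decide +kernel)
                (CovZ.leaf K2_ok TB_l3270 _)
                (CovZ.leaf K2_ok TB_l3271 _)))))
            (CovZ.n1 (-30144, 2016) (by decide +kernel)
             (CovZ.n2 (-30096, 2064) (by decide +kernel)
              (CovZ.n2 (-30096, 2016) (by decide +kernel)
               (CovZ.n2 (-30120, 2040) (by decide +kernel)
                (CovZ.n2 (-30096, 2040) (by decide +kernel)
                 (CovZ.leaf K2_ok TB_l3272 _)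
                 (CovZ.leaf K2_ok TB_l3273 _))
                (CovZ.n1 (-30120, 2016) (by decide +kernel)
                 (CovZ.leaf K2_ok TB_l3274 _)
                 (CovZ.leaf K2_ok TB_l3275 _)))
               (CovZ.n1 (-30072, 2040) (by decide +kernel)
                (CovZ.n2 (-30072, 2016) (by decide +kernel)
                 (CovZ.leaf K2_ok TB_l3276 _)
                 (CovZ.leaf K2_ok TB_l3277 _))
                (CovZ.n1 (-30096, 2040) (by decide +kernel)
                 (CovZ.leaf K2_ok TB_l3278 _)
                 (CovZ.leaf K2_ok TB_l3279 _))))
              (CovZ.n1 (-30144, 2064) (by decide +kernel)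
               (CovZ.subM 10576895500643977583230644928524336637254474927428499508554380724390492659780981533377253268126960835921695822666527007571968 (by decide +kernel)
                (CovZ.n2 (-30120, 2088) (by decide +kernel)
                 (CovZ.n2 (-30120, 2064) (by decide +kernel)
                  (CovZ.leaf K2_ok TB_l3280 _)
                  (CovZ.leaf K2_ok TB_l3281 _))
                 (CovZ.n1 (-30144, 2088) (by decide +kernel)
                  (CovZ.n2 (-30132, 2100) (by decide +kernel)
                   (CovZ.leaf K2_ok TB_l37826 _)
                   (CovZ.leaf K2_ok TB_l37827 _))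
                  (CovZ.leaf K2_ok TB_l3282 _))))
               (CovZ.n1 (-30120, 2040) (by decide +kernel)
                (CovZ.n2 (-30144, 2040) (by decide +kernel)
                 (CovZ.leaf K2_ok TB_l3283 _)
                 (CovZ.leaf K2_ok TB_l3284 _))
                (CovZ.n1 (-30120, 2064) (by decide +kernel)
                 (CovZ.leaf K2_ok TB_l3285 _)
                 (CovZ.leaf K2_ok TB_l3286 _)))))
             (CovZ.n1 (-30096, 1968) (by decide +kernel)
              (CovZ.n2 (-30144, 1968) (by decide +kernel)
               (CovZ.n2 (-30120, 1992) (by decide +kernel)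
                (CovZ.n2 (-30120, 1968) (by decide +kernel)
                 (CovZ.leaf K2_ok TB_l3287 _)
                 (CovZ.leaf K2_ok TB_l3288 _))
                (CovZ.leaf K2_ok TB_l3289 _))
               (CovZ.n1 (-30120, 1944) (by decide +kernel)
                (CovZ.leaf K2_ok TB_l3290 _)
                (CovZ.n1 (-30120, 1968) (by decide +kernel)
                 (CovZ.leaf K2_ok TB_l3291 _)
                 (CovZ.leaf K2_ok TB_l3292 _))))
              (CovZ.n1 (-30096, 2016) (by decide +kernel)
               (CovZ.n2 (-30072, 1992) (by decide +kernel)
                (CovZ.leaf K2_ok TB_l3293 _)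
                (CovZ.n1 (-30072, 2016) (by decide +kernel)
                 (CovZ.leaf K2_ok TB_l3294 _)
                 (CovZ.leaf K2_ok TB_l3295 _)))
               (CovZ.n1 (-30120, 1992) (by decide +kernel)
                (CovZ.n2 (-30120, 2016) (by decide +kernel)
                 (CovZ.leaf K2_ok TB_l3296 _)
                 (CovZ.leaf K2_ok TB_l3297 _))
                (CovZ.n1 (-30096, 1992) (by decide +kernel)
                 (CovZ.leaf K2_ok TB_l3298 _)
                 (CovZ.leaf K2_ok TB_l3299 _)))))))))

theorem TB_u96 : CovZ TB_M (toL (selN TB_LN 58147139623488390111692969858626140361929467230731543021024329440264736835207744724188876452246938576663445113444124688433087087513808069942837250)) [0, 7, 6, 1] (-29952, 2304) (-30336, 1920) (-29952, 1536) :=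
    (CovZ.subM 5818432186490023332895567750173897620657266736711653859500534740831397873274896958434716252814369590625338981268834795493970673666 (by decide +kernel)
       (CovZ.n2 (-29952, 1920) (by decide +kernel)
        (CovZ.n2 (-30144, 1728) (by decide +kernel)
         (CovZ.n2 (-30144, 1920) (by decide +kernel)
          (CovZ.subM 10576895500643977583230644928524336640238414345887275900592747121571533737118560185862858647008203481185890490573976473436162 (by decide +kernel)
           (CovZ.n2 (-30048, 1824) (by decide +kernel)
            (CovZ.n2 (-30144, 1824) (by decide +kernel)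
             (CovZ.n2 (-30096, 1872) (by decide +kernel)
              (CovZ.n2 (-30096, 1824) (by decide +kernel)
               (CovZ.n2 (-30120, 1848) (by decide +kernel)
                (CovZ.leaf K2_ok TB_l3089 _)
                (CovZ.leaf K2_ok TB_l3090 _))
               (CovZ.leaf K2_ok TB_l3091 _))
              (CovZ.n1 (-30144, 1872) (by decide +kernel)
               (CovZ.n2 (-30120, 1896) (by decide +kernel)
                (CovZ.leaf K2_ok TB_l3092 _)
                (CovZ.leaf K2_ok TB_l3093 _))
               (CovZ.n1 (-30120, 1848) (by decide +kernel)
                (CovZ.leaf K2_ok TB_l3094 _)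
                (CovZ.leaf K2_ok TB_l3095 _))))
             (CovZ.n1 (-30096, 1776) (by decide +kernel)
              (CovZ.n2 (-30144, 1776) (by decide +kernel)
               (CovZ.leaf K2_ok TB_l3096 _)
               (CovZ.leaf K2_ok TB_l3097 _))
              (CovZ.n1 (-30096, 1824) (by decide +kernel)
               (CovZ.leaf K2_ok TB_l3098 _)
               (CovZ.leaf K2_ok TB_l3099 _))))
            (CovZ.n1 (-30048, 1920) (by decide +kernel)
             (CovZ.n2 (-30000, 1872) (by decide +kernel)
              (CovZ.n2 (-30048, 1872) (by decide +kernel)
               (CovZ.n2 (-30024, 1896) (by decide +kernel)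
                (CovZ.leaf K2_ok TB_l3100 _)
                (CovZ.leaf K2_ok TB_l3101 _))
               (CovZ.n1 (-30024, 1848) (by decide +kernel)
                (CovZ.leaf K2_ok TB_l3102 _)
                (CovZ.leaf K2_ok TB_l3103 _)))
              (CovZ.n1 (-30000, 1920) (by decide +kernel)
               (CovZ.n2 (-29976, 1896) (by decide +kernel)
                (CovZ.leaf K2_ok TB_l3104 _)
                (CovZ.n1 (-29976, 1920) (by decide +kernel)
                 (CovZ.leaf K2_ok TB_l3105 _)
                 (CovZ.leaf K2_ok TB_l3106 _)))
               (CovZ.n1 (-30024, 1896) (by decide +kernel)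
                (CovZ.leaf K2_ok TB_l3107 _)
                (CovZ.leaf K2_ok TB_l3108 _))))
             (CovZ.n1 (-30096, 1872) (by decide +kernel)
              (CovZ.n2 (-30096, 1920) (by decide +kernel)
               (CovZ.n2 (-30072, 1896) (by decide +kernel)
                (CovZ.leaf K2_ok TB_l3109 _)
                (CovZ.leaf K2_ok TB_l3110 _))
               (CovZ.n1 (-30120, 1896) (by decide +kernel)
                (CovZ.leaf K2_ok TB_l3111 _)
                (CovZ.leaf K2_ok TB_l3112 _)))
              (CovZ.n1 (-30048, 1872) (by decide +kernel)
               (CovZ.n2 (-30072, 1848) (by decide +kernel)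
                (CovZ.leaf K2_ok TB_l3113 _)
                (CovZ.leaf K2_ok TB_l3114 _))
               (CovZ.n1 (-30072, 1896) (by decide +kernel)
                (CovZ.leaf K2_ok TB_l3115 _)
                (CovZ.leaf K2_ok TB_l3116 _)))))))
          (CovZ.n1 (-30240, 1824) (by decide +kernel)
           (CovZ.n2 (-30240, 1920) (by decide +kernel)
            (CovZ.subM 10843962112035238017207218712969576137348134358764527897537417204078533640422007924287246330884196225508152067453133938732564482 (by decide +kernel)
             (CovZ.n2 (-30192, 1872) (by decide +kernel)
              (CovZ.n2 (-30240, 1872) (by decide +kernel)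
               (CovZ.n2 (-30216, 1896) (by decide +kernel)
                (CovZ.leaf K2_ok TB_l3117 _)
                (CovZ.leaf K2_ok TB_l3118 _))
               (CovZ.n1 (-30216, 1848) (by decide +kernel)
                (CovZ.leaf K2_ok TB_l3119 _)
                (CovZ.leaf K2_ok TB_l3120 _)))
              (CovZ.n1 (-30192, 1920) (by decide +kernel)
               (CovZ.n2 (-30168, 1896) (by decide +kernel)
                (CovZ.leaf K2_ok TB_l3121 _)
                (CovZ.leaf K2_ok TB_l3122 _))
               (CovZ.n1 (-30216, 1896) (by decide +kernel)
                (CovZ.leaf K2_ok TB_l3123 _)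
                (CovZ.leaf K2_ok TB_l3124 _)))))
            (CovZ.n1 (-30288, 1872) (by decide +kernel)
             (CovZ.n2 (-30288, 1920) (by decide +kernel)
              (CovZ.n2 (-30264, 1896) (by decide +kernel)
               (CovZ.leaf K2_ok TB_l3125 _)
               (CovZ.leaf K2_ok TB_l3126 _))
              (CovZ.n1 (-30312, 1896) (by decide +kernel)
               (CovZ.leaf K2_ok TB_l3127 _)
               (CovZ.leaf K2_ok TB_l3128 _)))
             (CovZ.n1 (-30240, 1872) (by decide +kernel)
              (CovZ.leaf K2_ok TB_l3129 _)
              (CovZ.leaf K2_ok TB_l3130 _))))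
           (CovZ.subM 10843962112035238017207218712969576137348134358764527897537417204078533640422007924287246330884196225508152067453133938733088770 (by decide +kernel)
            (CovZ.n1 (-30144, 1824) (by decide +kernel)
             (CovZ.n2 (-30192, 1776) (by decide +kernel)
              (CovZ.n2 (-30192, 1824) (by decide +kernel)
               (CovZ.leaf K2_ok TB_l3131 _)
               (CovZ.leaf K2_ok TB_l3132 _))
              (CovZ.n1 (-30144, 1776) (by decide +kernel)
               (CovZ.leaf K2_ok TB_l3133 _)
               (CovZ.leaf K2_ok TB_l3134 _)))
             (CovZ.n1 (-30192, 1872) (by decide +kernel)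
              (CovZ.n2 (-30144, 1872) (by decide +kernel)
               (CovZ.leaf K2_ok TB_l3135 _)
               (CovZ.n1 (-30168, 1896) (by decide +kernel)
                (CovZ.leaf K2_ok TB_l3136 _)
                (CovZ.leaf K2_ok TB_l3137 _)))
              (CovZ.n1 (-30192, 1824) (by decide +kernel)
               (CovZ.leaf K2_ok TB_l3138 _)
               (CovZ.leaf K2_ok TB_l3139 _)))))))
         (CovZ.subM 10576895500643977583230644928524336640238414345887275900592747121571533737118560185862861305464195051017636298188097034125314 (by decide +kernel)
          (CovZ.n1 (-29952, 1728) (by decide +kernel)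
           (CovZ.n2 (-30048, 1632) (by decide +kernel)
            (CovZ.n2 (-30048, 1728) (by decide +kernel)
             (CovZ.n2 (-30000, 1680) (by decide +kernel)
              (CovZ.leaf K2_ok TB_l3140 _)
              (CovZ.n1 (-30000, 1728) (by decide +kernel)
               (CovZ.leaf K2_ok TB_l3141 _)
               (CovZ.leaf K2_ok TB_l3142 _)))
             (CovZ.n1 (-30096, 1680) (by decide +kernel)
              (CovZ.n2 (-30096, 1728) (by decide +kernel)
               (CovZ.leaf K2_ok TB_l3143 _)
               (CovZ.leaf K2_ok TB_l3144 _))
              (CovZ.leaf K2_ok TB_l3145 _)))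
            (CovZ.n1 (-29952, 1632) (by decide +kernel)
             (CovZ.n2 (-30000, 1584) (by decide +kernel)
              (CovZ.n2 (-30000, 1632) (by decide +kernel)
               (CovZ.leaf K2_ok TB_l3146 _)
               (CovZ.leaf K2_ok TB_l3147 _))
              (CovZ.leaf K2_ok TB_l3148 _))
             (CovZ.n1 (-30000, 1680) (by decide +kernel)
              (CovZ.leaf K2_ok TB_l3149 _)
              (CovZ.n1 (-30000, 1632) (by decide +kernel)
               (CovZ.leaf K2_ok TB_l3150 _)
               (CovZ.leaf K2_ok TB_l3151 _)))))
           (CovZ.n1 (-30048, 1824) (by decide +kernel)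
            (CovZ.n2 (-29952, 1824) (by decide +kernel)
             (CovZ.n2 (-30000, 1776) (by decide +kernel)
              (CovZ.n2 (-30000, 1824) (by decide +kernel)
               (CovZ.leaf K2_ok TB_l3152 _)
               (CovZ.leaf K2_ok TB_l3153 _))
              (CovZ.n1 (-29952, 1776) (by decide +kernel)
               (CovZ.leaf K2_ok TB_l3154 _)
               (CovZ.leaf K2_ok TB_l3155 _)))
             (CovZ.n1 (-30000, 1872) (by decide +kernel)
              (CovZ.subM 2983939418458776392038366397179471801903731982468872332616957006869289781858459061321730 (by decide +kernel)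
               (CovZ.n2 (-29952, 1872) (by decide +kernel)
                (CovZ.n2 (-29976, 1848) (by decide +kernel)
                 (CovZ.leaf K2_ok TB_l3156 _)
                 (CovZ.leaf K2_ok TB_l3157 _))
                (CovZ.n1 (-29976, 1896) (by decide +kernel)
                 (CovZ.leaf K2_ok TB_l3158 _)
                 (CovZ.n1 (-29976, 1872) (by decide +kernel)
                  (CovZ.leaf K2_ok TB_l3159 _)
                  (CovZ.leaf K2_ok TB_l3160 _)))))
              (CovZ.n1 (-30000, 1824) (by decide +kernel)
               (CovZ.n2 (-30024, 1848) (by decide +kernel)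
                (CovZ.leaf K2_ok TB_l3161 _)
                (CovZ.leaf K2_ok TB_l3162 _))
               (CovZ.n1 (-29976, 1848) (by decide +kernel)
                (CovZ.leaf K2_ok TB_l3163 _)
                (CovZ.leaf K2_ok TB_l3164 _)))))
            (CovZ.n1 (-30048, 1728) (by decide +kernel)
             (CovZ.n2 (-30096, 1776) (by decide +kernel)
              (CovZ.n2 (-30048, 1776) (by decide +kernel)
               (CovZ.leaf K2_ok TB_l3165 _)
               (CovZ.leaf K2_ok TB_l3166 _))
              (CovZ.n1 (-30096, 1728) (by decide +kernel)
               (CovZ.leaf K2_ok TB_l3167 _)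
               (CovZ.leaf K2_ok TB_l3168 _)))
             (CovZ.n1 (-30000, 1776) (by decide +kernel)
              (CovZ.n2 (-30000, 1728) (by decide +kernel)
               (CovZ.leaf K2_ok TB_l3169 _)
               (CovZ.leaf K2_ok TB_l3170 _))
              (CovZ.n1 (-30048, 1776) (by decide +kernel)
               (CovZ.leaf K2_ok TB_l3171 _)
               (CovZ.leaf K2_ok TB_l3172 _))))))))
        (CovZ.n1 (-30144, 2112) (by decide +kernel)
         TB_u94
         TB_u95)))

theorem TB_u97 : CovZ TB_M (toL (selN TB_LN 58147139623488390111692969858626140361929467230731543021024329440264736835207744724188876452246938576663445113444124688433087087513808069942837250)) [0, 7, 6, 1] (-30336, 1920) (-30720, 1536) (-29952, 1536) :=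
    (CovZ.n1 (-30336, 1536) (by decide +kernel)
       (CovZ.n2 (-30528, 1728) (by decide +kernel)
        (CovZ.n2 (-30336, 1728) (by decide +kernel)
         (CovZ.n2 (-30432, 1632) (by decide +kernel)
          (CovZ.n2 (-30432, 1728) (by decide +kernel)
           (CovZ.n2 (-30384, 1680) (by decide +kernel)
            (CovZ.leaf K2_ok TB_l3300 _)
            (CovZ.n1 (-30384, 1728) (by decide +kernel)
             (CovZ.leaf K2_ok TB_l3301 _)
             (CovZ.leaf K2_ok TB_l3302 _)))
           (CovZ.n1 (-30480, 1680) (by decide +kernel)
            (CovZ.leaf K2_ok TB_l3303 _)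
            (CovZ.leaf K2_ok TB_l3304 _)))
          (CovZ.n1 (-30336, 1632) (by decide +kernel)
           (CovZ.n2 (-30384, 1584) (by decide +kernel)
            (CovZ.leaf K2_ok TB_l3305 _)
            (CovZ.leaf K2_ok TB_l3306 _))
           (CovZ.n1 (-30384, 1680) (by decide +kernel)
            (CovZ.leaf K2_ok TB_l3307 _)
            (CovZ.n1 (-30384, 1632) (by decide +kernel)
             (CovZ.leaf K2_ok TB_l3308 _)
             (CovZ.leaf K2_ok TB_l3309 _)))))
         (CovZ.n1 (-30432, 1824) (by decide +kernel)
          (CovZ.n2 (-30336, 1824) (by decide +kernel)
           (CovZ.n2 (-30384, 1776) (by decide +kernel)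
            (CovZ.n2 (-30384, 1824) (by decide +kernel)
             (CovZ.leaf K2_ok TB_l3310 _)
             (CovZ.leaf K2_ok TB_l3311 _))
            (CovZ.n1 (-30336, 1776) (by decide +kernel)
             (CovZ.leaf K2_ok TB_l3312 _)
             (CovZ.leaf K2_ok TB_l3313 _)))
           (CovZ.n1 (-30384, 1872) (by decide +kernel)
            (CovZ.n2 (-30336, 1872) (by decide +kernel)
             (CovZ.leaf K2_ok TB_l3314 _)
             (CovZ.n1 (-30360, 1896) (by decide +kernel)
              (CovZ.leaf K2_ok TB_l3315 _)
              (CovZ.leaf K2_ok TB_l3316 _)))
            (CovZ.n1 (-30384, 1824) (by decide +kernel)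
             (CovZ.leaf K2_ok TB_l3317 _)
             (CovZ.leaf K2_ok TB_l3318 _))))
          (CovZ.n1 (-30432, 1728) (by decide +kernel)
           (CovZ.n2 (-30480, 1776) (by decide +kernel)
            (CovZ.n2 (-30432, 1776) (by decide +kernel)
             (CovZ.leaf K2_ok TB_l3319 _)
             (CovZ.leaf K2_ok TB_l3320 _))
            (CovZ.n1 (-30480, 1728) (by decide +kernel)
             (CovZ.leaf K2_ok TB_l3321 _)
             (CovZ.leaf K2_ok TB_l3322 _)))
           (CovZ.n1 (-30384, 1776) (by decide +kernel)
            (CovZ.n2 (-30384, 1728) (by decide +kernel)
             (CovZ.leaf K2_ok TB_l3323 _)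
             (CovZ.leaf K2_ok TB_l3324 _))
            (CovZ.leaf K2_ok TB_l3325 _)))))
        (CovZ.n1 (-30528, 1536) (by decide +kernel)
         (CovZ.n2 (-30624, 1632) (by decide +kernel)
          (CovZ.n2 (-30528, 1632) (by decide +kernel)
           (CovZ.n2 (-30576, 1584) (by decide +kernel)
            (CovZ.n2 (-30576, 1632) (by decide +kernel)
             (CovZ.leaf K2_ok TB_l3326 _)
             (CovZ.leaf K2_ok TB_l3327 _))
            (CovZ.leaf K2_ok TB_l3328 _))
           (CovZ.n1 (-30576, 1680) (by decide +kernel)
            (CovZ.leaf K2_ok TB_l3329 _)
            (CovZ.n1 (-30576, 1632) (by decide +kernel)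
             (CovZ.leaf K2_ok TB_l3330 _)
             (CovZ.leaf K2_ok TB_l3331 _))))
          (CovZ.n1 (-30624, 1536) (by decide +kernel)
           (CovZ.n2 (-30672, 1584) (by decide +kernel)
            (CovZ.leaf K2_ok TB_l3332 _)
            (CovZ.leaf K3_ok TB_l3333 _))
           (CovZ.n1 (-30576, 1584) (by decide +kernel)
            (CovZ.leaf K2_ok TB_l3334 _)
            (CovZ.leaf K2_ok TB_l3335 _))))
         (CovZ.n1 (-30432, 1632) (by decide +kernel)
          (CovZ.n2 (-30432, 1536) (by decide +kernel)
           (CovZ.n2 (-30480, 1584) (by decide +kernel)
            (CovZ.leaf K2_ok TB_l3336 _)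
            (CovZ.leaf K2_ok TB_l3337 _))
           (CovZ.n1 (-30384, 1584) (by decide +kernel)
            (CovZ.leaf K2_ok TB_l3338 _)
            (CovZ.leaf K2_ok TB_l3339 _)))
          (CovZ.n1 (-30528, 1632) (by decide +kernel)
           (CovZ.n2 (-30480, 1680) (by decide +kernel)
            (CovZ.n2 (-30480, 1632) (by decide +kernel)
             (CovZ.leaf K3_ok TB_l3340 _)
             (CovZ.leaf K2_ok TB_l3341 _))
            (CovZ.leaf K2_ok TB_l3342 _))
           (CovZ.n1 (-30480, 1584) (by decide +kernel)
            (CovZ.leaf K2_ok TB_l3343 _)
            (CovZ.leaf K2_ok TB_l3344 _))))))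
       (CovZ.subM 5818432186490023332895567750173897620657266736711653859500534740831397873274896958434716252814369590625338981268834795493970673666 (by decide +kernel)
        (CovZ.n1 (-30144, 1728) (by decide +kernel)
         (CovZ.n2 (-30144, 1536) (by decide +kernel)
          (CovZ.n2 (-30240, 1632) (by decide +kernel)
           (CovZ.subM 10843962112035238017207218712969576137348134358764527897537417204078533640422007924287246333542652217077983813260748059293777922 (by decide +kernel)
            (CovZ.n2 (-30144, 1632) (by decide +kernel)
             (CovZ.n2 (-30192, 1584) (by decide +kernel)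
              (CovZ.leaf K2_ok TB_l3345 _)
              (CovZ.leaf K2_ok TB_l3346 _))
             (CovZ.n1 (-30192, 1680) (by decide +kernel)
              (CovZ.leaf K2_ok TB_l3347 _)
              (CovZ.n1 (-30192, 1632) (by decide +kernel)
               (CovZ.leaf K2_ok TB_l3348 _)
               (CovZ.leaf K2_ok TB_l3349 _)))))
           (CovZ.n1 (-30240, 1536) (by decide +kernel)
            (CovZ.n2 (-30288, 1584) (by decide +kernel)
             (CovZ.leaf K2_ok TB_l3350 _)
             (CovZ.leaf K2_ok TB_l3351 _))
            (CovZ.n1 (-30192, 1584) (by decide +kernel)
             (CovZ.leaf K2_ok TB_l3352 _)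
             (CovZ.leaf K2_ok TB_l3353 _))))
          (CovZ.subM 10576895500643977583230644928524336640238414345887275900592747121571533737118560185862861305464195051017636298188097034125314 (by decide +kernel)
           (CovZ.n1 (-30048, 1632) (by decide +kernel)
            (CovZ.n2 (-30048, 1536) (by decide +kernel)
             (CovZ.n2 (-30096, 1584) (by decide +kernel)
              (CovZ.leaf K2_ok TB_l3354 _)
              (CovZ.n1 (-30096, 1536) (by decide +kernel)
               (CovZ.leaf K2_ok TB_l3355 _)
               (CovZ.leaf K2_ok TB_l3356 _)))
             (CovZ.n1 (-30000, 1584) (by decide +kernel)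
              (CovZ.n2 (-30000, 1536) (by decide +kernel)
               (CovZ.leaf K2_ok TB_l3357 _)
               (CovZ.leaf K2_ok TB_l3358 _))
              (CovZ.leaf K2_ok TB_l3359 _)))
            (CovZ.n1 (-30144, 1632) (by decide +kernel)
             (CovZ.n2 (-30096, 1680) (by decide +kernel)
              (CovZ.n2 (-30096, 1632) (by decide +kernel)
               (CovZ.leaf K2_ok TB_l3360 _)
               (CovZ.leaf K2_ok TB_l3361 _))
              (CovZ.leaf K2_ok TB_l3362 _))
             (CovZ.n1 (-30096, 1584) (by decide +kernel)
              (CovZ.leaf K2_ok TB_l3363 _)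
              (CovZ.n1 (-30096, 1632) (by decide +kernel)
               (CovZ.leaf K2_ok TB_l3364 _)
               (CovZ.leaf K2_ok TB_l3365 _)))))))
         (CovZ.n1 (-30336, 1728) (by decide +kernel)
          (CovZ.n2 (-30240, 1824) (by decide +kernel)
           (CovZ.n2 (-30240, 1728) (by decide +kernel)
            (CovZ.n2 (-30288, 1776) (by decide +kernel)
             (CovZ.n2 (-30240, 1776) (by decide +kernel)
              (CovZ.leaf K2_ok TB_l3366 _)
              (CovZ.leaf K2_ok TB_l3367 _))
             (CovZ.n1 (-30288, 1728) (by decide +kernel)
              (CovZ.leaf K2_ok TB_l3368 _)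
              (CovZ.leaf K2_ok TB_l3369 _)))
            (CovZ.subM 10843962112035238017207218712969576137348134358764527897537417204078533640422007924287246330884196225508152067453133938733088770 (by decide +kernel)
             (CovZ.n1 (-30192, 1776) (by decide +kernel)
              (CovZ.n2 (-30192, 1728) (by decide +kernel)
               (CovZ.leaf K2_ok TB_l3370 _)
               (CovZ.leaf K2_ok TB_l3371 _))
              (CovZ.n1 (-30240, 1776) (by decide +kernel)
               (CovZ.leaf K2_ok TB_l3372 _)
               (CovZ.leaf K2_ok TB_l3373 _)))))
           (CovZ.n1 (-30336, 1824) (by decide +kernel)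
            (CovZ.n2 (-30288, 1872) (by decide +kernel)
             (CovZ.n2 (-30288, 1824) (by decide +kernel)
              (CovZ.leaf K2_ok TB_l3374 _)
              (CovZ.leaf K2_ok TB_l3375 _))
             (CovZ.n1 (-30336, 1872) (by decide +kernel)
              (CovZ.leaf K2_ok TB_l3376 _)
              (CovZ.leaf K2_ok TB_l3377 _)))
            (CovZ.n1 (-30288, 1776) (by decide +kernel)
             (CovZ.n2 (-30336, 1776) (by decide +kernel)
              (CovZ.leaf K2_ok TB_l3378 _)
              (CovZ.leaf K2_ok TB_l3379 _))
             (CovZ.n1 (-30288, 1824) (by decide +kernel)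
              (CovZ.leaf K2_ok TB_l3380 _)
              (CovZ.leaf K2_ok TB_l3381 _)))))
          (CovZ.n1 (-30240, 1632) (by decide +kernel)
           (CovZ.n2 (-30336, 1632) (by decide +kernel)
            (CovZ.n2 (-30288, 1680) (by decide +kernel)
             (CovZ.n2 (-30288, 1632) (by decide +kernel)
              (CovZ.leaf K2_ok TB_l3382 _)
              (CovZ.leaf K2_ok TB_l3383 _))
             (CovZ.leaf K2_ok TB_l3384 _))
            (CovZ.n1 (-30288, 1584) (by decide +kernel)
             (CovZ.leaf K2_ok TB_l3385 _)
             (CovZ.leaf K2_ok TB_l3386 _)))
           (CovZ.n1 (-30240, 1728) (by decide +kernel)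
            (CovZ.n2 (-30192, 1680) (by decide +kernel)
             (CovZ.leaf K2_ok TB_l3387 _)
             (CovZ.n1 (-30192, 1728) (by decide +kernel)
              (CovZ.leaf K2_ok TB_l3388 _)
              (CovZ.leaf K2_ok TB_l3389 _)))
            (CovZ.n1 (-30288, 1680) (by decide +kernel)
             (CovZ.n2 (-30288, 1728) (by decide +kernel)
              (CovZ.leaf K2_ok TB_l3390 _)
              (CovZ.leaf K2_ok TB_l3391 _))
             (CovZ.leaf K2_ok TB_l3392 _))))))))

theorem TB_u98 : CovZ TB_M (toL (selN TB_LN 1989292945639203107727601900885830121702819680874176897736029053082970787833392310255618)) [0, 7, 6, 1] (-29568, 1920) (-29760, 2112) (-29952, 1920) :=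
    (CovZ.n2 (-29760, 1920) (by decide +kernel)
           (CovZ.n2 (-29856, 2016) (by decide +kernel)
            (CovZ.n2 (-29760, 2016) (by decide +kernel)
             (CovZ.n2 (-29808, 1968) (by decide +kernel)
              (CovZ.subM 1989292945639203107727601900885830121702819680874175568506765617566869654624835326705664 (by decide +kernel)
               (CovZ.n2 (-29808, 2016) (by decide +kernel)
                (CovZ.n2 (-29784, 1992) (by decide +kernel)
                 (CovZ.leaf K2_ok TB_l3502 _)
                 (CovZ.n1 (-29784, 2016) (by decide +kernel)
                  (CovZ.leaf K2_ok TB_l3503 _)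
                  (CovZ.leaf K2_ok TB_l3504 _)))
                (CovZ.n1 (-29832, 1992) (by decide +kernel)
                 (CovZ.n2 (-29832, 2016) (by decide +kernel)
                  (CovZ.leaf K2_ok TB_l3505 _)
                  (CovZ.leaf K2_ok TB_l3506 _))
                 (CovZ.n1 (-29808, 1992) (by decide +kernel)
                  (CovZ.leaf K2_ok TB_l3507 _)
                  (CovZ.leaf K2_ok TB_l3508 _)))))
              (CovZ.n1 (-29760, 1968) (by decide +kernel)
               (CovZ.n2 (-29784, 1944) (by decide +kernel)
                (CovZ.n2 (-29784, 1968) (by decide +kernel)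
                 (CovZ.leaf K2_ok TB_l3509 _)
                 (CovZ.leaf K2_ok TB_l3510 _))
                (CovZ.leaf K2_ok TB_l3511 _))
               (CovZ.subM 1989292945639203107727601900885830121702819680874175568506765617566869654624835326705664 (by decide +kernel)
                (CovZ.n1 (-29784, 1992) (by decide +kernel)
                 (CovZ.n2 (-29760, 1992) (by decide +kernel)
                  (CovZ.leaf K2_ok TB_l3512 _)
                  (CovZ.leaf K2_ok TB_l3513 _))
                 (CovZ.n1 (-29784, 1968) (by decide +kernel)
                  (CovZ.leaf K2_ok TB_l3514 _)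
                  (CovZ.leaf K2_ok TB_l3515 _))))))
             (CovZ.subM 56539106072908298546761300995077684784698744909709994231666574701824573440 (by decide +kernel)
              (CovZ.n1 (-29808, 2064) (by decide +kernel)
               (CovZ.n2 (-29760, 2064) (by decide +kernel)
                (CovZ.n2 (-29784, 2040) (by decide +kernel)
                 (CovZ.n2 (-29784, 2064) (by decide +kernel)
                  (CovZ.leaf K2_ok TB_l37828 _)
                  (CovZ.leaf K2_ok TB_l37829 _))
                 (CovZ.n1 (-29760, 2040) (by decide +kernel)
                  (CovZ.leaf K2_ok TB_l3516 _)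
                  (CovZ.leaf K2_ok TB_l37830 _)))
                (CovZ.badM (by decide +kernel)))
               (CovZ.n1 (-29808, 2016) (by decide +kernel)
                (CovZ.n2 (-29832, 2040) (by decide +kernel)
                 (CovZ.n2 (-29808, 2040) (by decide +kernel)
                  (CovZ.leaf K2_ok TB_l3517 _)
                  (CovZ.n1 (-29820, 2052) (by decide +kernel)
                   (CovZ.leaf K2_ok TB_l3518 _)
                   (CovZ.leaf K2_ok TB_l3519 _)))
                 (CovZ.n1 (-29832, 2016) (by decide +kernel)
                  (CovZ.n2 (-29844, 2028) (by decide +kernel)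
                   (CovZ.leaf K2_ok TB_l3520 _)
                   (CovZ.leaf K2_ok TB_l3521 _))
                  (CovZ.leaf K2_ok TB_l3522 _)))
                (CovZ.n1 (-29784, 2040) (by decide +kernel)
                 (CovZ.n2 (-29784, 2016) (by decide +kernel)
                  (CovZ.leaf K2_ok TB_l3523 _)
                  (CovZ.leaf K2_ok TB_l3524 _))
                 (CovZ.n1 (-29808, 2040) (by decide +kernel)
                  (CovZ.leaf K2_ok TB_l3525 _)
                  (CovZ.n1 (-29796, 2028) (by decide +kernel)
                   (CovZ.leaf K2_ok TB_l3526 _)
                   (CovZ.leaf K2_ok TB_l3527 _))))))))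
            (CovZ.n1 (-29856, 1920) (by decide +kernel)
             (CovZ.n2 (-29904, 1968) (by decide +kernel)
              (CovZ.n2 (-29856, 1968) (by decide +kernel)
               (CovZ.n2 (-29880, 1944) (by decide +kernel)
                (CovZ.n2 (-29880, 1968) (by decide +kernel)
                 (CovZ.leaf K2_ok TB_l3528 _)
                 (CovZ.leaf K2_ok TB_l3529 _))
                (CovZ.leaf K2_ok TB_l3530 _))
               (CovZ.subM 1989292945639203107727601900885830121702819680874175568506765617566869654624835326705664 (by decide +kernel)
                (CovZ.n1 (-29880, 1992) (by decide +kernel)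
                 (CovZ.n2 (-29856, 1992) (by decide +kernel)
                  (CovZ.leaf K2_ok TB_l3531 _)
                  (CovZ.leaf K2_ok TB_l3532 _))
                 (CovZ.n1 (-29880, 1968) (by decide +kernel)
                  (CovZ.leaf K2_ok TB_l3533 _)
                  (CovZ.leaf K2_ok TB_l3534 _)))))
              (CovZ.n1 (-29904, 1920) (by decide +kernel)
               (CovZ.n2 (-29928, 1944) (by decide +kernel)
                (CovZ.leaf K2_ok TB_l3535 _)
                (CovZ.n1 (-29928, 1920) (by decide +kernel)
                 (CovZ.leaf K2_ok TB_l3536 _)
                 (CovZ.leaf K2_ok TB_l3537 _)))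
               (CovZ.n1 (-29880, 1944) (by decide +kernel)
                (CovZ.leaf K2_ok TB_l3538 _)
                (CovZ.leaf K2_ok TB_l3539 _))))
             (CovZ.n1 (-29808, 1968) (by decide +kernel)
              (CovZ.n2 (-29808, 1920) (by decide +kernel)
               (CovZ.n2 (-29832, 1944) (by decide +kernel)
                (CovZ.leaf K2_ok TB_l3540 _)
                (CovZ.n1 (-29832, 1920) (by decide +kernel)
                 (CovZ.leaf K2_ok TB_l3541 _)
                 (CovZ.leaf K2_ok TB_l3542 _)))
               (CovZ.n1 (-29784, 1944) (by decide +kernel)
                (CovZ.n2 (-29784, 1920) (by decide +kernel)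
                 (CovZ.leaf K2_ok TB_l3543 _)
                 (CovZ.leaf K2_ok TB_l3544 _))
                (CovZ.leaf K2_ok TB_l3545 _)))
              (CovZ.n1 (-29856, 1968) (by decide +kernel)
               (CovZ.subM 1989292945639203107727601900885830121702819680874175568506765617566869654624835326705664 (by decide +kernel)
                (CovZ.n2 (-29832, 1992) (by decide +kernel)
                 (CovZ.n2 (-29832, 1968) (by decide +kernel)
                  (CovZ.leaf K2_ok TB_l3546 _)
                  (CovZ.leaf K2_ok TB_l3547 _))
                 (CovZ.n1 (-29856, 1992) (by decide +kernel)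
                  (CovZ.leaf K2_ok TB_l3548 _)
                  (CovZ.leaf K2_ok TB_l3549 _))))
               (CovZ.n1 (-29832, 1944) (by decide +kernel)
                (CovZ.leaf K2_ok TB_l3550 _)
                (CovZ.n1 (-29832, 1968) (by decide +kernel)
                 (CovZ.leaf K2_ok TB_l3551 _)
                 (CovZ.leaf K2_ok TB_l3552 _)))))))
           (CovZ.n1 (-29664, 2016) (by decide +kernel)
            (CovZ.n2 (-29664, 1920) (by decide +kernel)
             (CovZ.n2 (-29712, 1968) (by decide +kernel)
              (CovZ.n2 (-29664, 1968) (by decide +kernel)
               (CovZ.n2 (-29688, 1944) (by decide +kernel)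
                (CovZ.n2 (-29688, 1968) (by decide +kernel)
                 (CovZ.leaf K2_ok TB_l3553 _)
                 (CovZ.leaf K2_ok TB_l3554 _))
                (CovZ.leaf K2_ok TB_l3555 _))
               (CovZ.subM 1989292945639203107727601900885830121702819680874175568506765617566869654624835326705664 (by decide +kernel)
                (CovZ.n1 (-29688, 1992) (by decide +kernel)
                 (CovZ.n2 (-29664, 1992) (by decide +kernel)
                  (CovZ.leaf K2_ok TB_l3556 _)
                  (CovZ.leaf K2_ok TB_l3557 _))
                 (CovZ.n1 (-29688, 1968) (by decide +kernel)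
                  (CovZ.leaf K2_ok TB_l3558 _)
                  (CovZ.leaf K2_ok TB_l3559 _)))))
              (CovZ.n1 (-29712, 1920) (by decide +kernel)
               (CovZ.n2 (-29736, 1944) (by decide +kernel)
                (CovZ.n2 (-29712, 1944) (by decide +kernel)
                 (CovZ.leaf K2_ok TB_l3560 _)
                 (CovZ.leaf K2_ok TB_l3561 _))
                (CovZ.n1 (-29736, 1920) (by decide +kernel)
                 (CovZ.leaf K2_ok TB_l3562 _)
                 (CovZ.leaf K2_ok TB_l3563 _)))
               (CovZ.n1 (-29688, 1944) (by decide +kernel)
                (CovZ.n2 (-29688, 1920) (by decide +kernel)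
                 (CovZ.leaf K2_ok TB_l3564 _)
                 (CovZ.leaf K2_ok TB_l3565 _))
                (CovZ.leaf K2_ok TB_l3566 _))))
             (CovZ.subM 1989292945639146568621528992587283456182795907481669089022065597760209763226393962872834 (by decide +kernel)
              (CovZ.n1 (-29616, 1968) (by decide +kernel)
               (CovZ.n2 (-29616, 1920) (by decide +kernel)
                (CovZ.n2 (-29640, 1944) (by decide +kernel)
                 (CovZ.n2 (-29616, 1944) (by decide +kernel)
                  (CovZ.leaf K2_ok TB_l3567 _)
                  (CovZ.leaf K2_ok TB_l3568 _))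
                 (CovZ.n1 (-29640, 1920) (by decide +kernel)
                  (CovZ.leaf K2_ok TB_l3569 _)
                  (CovZ.leaf K2_ok TB_l3570 _)))
                (CovZ.n1 (-29592, 1944) (by decide +kernel)
                 (CovZ.n2 (-29592, 1920) (by decide +kernel)
                  (CovZ.leaf K2_ok TB_l3571 _)
                  (CovZ.leaf K2_ok TB_l3572 _))
                 (CovZ.leaf K2_ok TB_l3573 _)))
               (CovZ.n1 (-29664, 1968) (by decide +kernel)
                (CovZ.n2 (-29640, 1992) (by decide +kernel)
                 (CovZ.n2 (-29640, 1968) (by decide +kernel)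
                  (CovZ.leaf K2_ok TB_l3574 _)
                  (CovZ.leaf K2_ok TB_l3575 _))
                 (CovZ.n1 (-29664, 1992) (by decide +kernel)
                  (CovZ.leaf K2_ok TB_l3576 _)
                  (CovZ.leaf K2_ok TB_l3577 _)))
                (CovZ.n1 (-29640, 1944) (by decide +kernel)
                 (CovZ.leaf K2_ok TB_l3578 _)
                 (CovZ.n1 (-29640, 1968) (by decide +kernel)
                  (CovZ.leaf K2_ok TB_l3579 _)
                  (CovZ.leaf K2_ok TB_l3580 _)))))))
            (CovZ.n1 (-29760, 2016) (by decide +kernel)
             (CovZ.subM 56539106072908298546665520023773566731051348220513099907690403506688098304 (by decide +kernel)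
              (CovZ.n2 (-29712, 2064) (by decide +kernel)
               (CovZ.n2 (-29712, 2016) (by decide +kernel)
                (CovZ.n2 (-29736, 2040) (by decide +kernel)
                 (CovZ.n2 (-29712, 2040) (by decide +kernel)
                  (CovZ.leaf K2_ok TB_l3581 _)
                  (CovZ.n1 (-29724, 2052) (by decide +kernel)
                   (CovZ.leaf K2_ok TB_l37831 _)
                   (CovZ.leaf K2_ok TB_l37832 _)))
                 (CovZ.n1 (-29736, 2016) (by decide +kernel)
                  (CovZ.n2 (-29748, 2028) (by decide +kernel)
                   (CovZ.leaf K2_ok TB_l3582 _)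
                   (CovZ.leaf K2_ok TB_l3583 _))
                  (CovZ.leaf K2_ok TB_l3584 _)))
                (CovZ.n1 (-29688, 2040) (by decide +kernel)
                 (CovZ.n2 (-29688, 2016) (by decide +kernel)
                  (CovZ.n2 (-29700, 2028) (by decide +kernel)
                   (CovZ.leaf K2_ok TB_l3585 _)
                   (CovZ.leaf K2_ok TB_l3586 _))
                  (CovZ.leaf K2_ok TB_l3587 _))
                 (CovZ.n1 (-29712, 2040) (by decide +kernel)
                  (CovZ.leaf K2_ok TB_l37833 _)
                  (CovZ.n1 (-29700, 2028) (by decide +kernel)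
                   (CovZ.leaf K2_ok TB_l3588 _)
                   (CovZ.leaf K2_ok TB_l37834 _)))))
               (CovZ.n1 (-29760, 2064) (by decide +kernel)
                (CovZ.badM (by decide +kernel))
                (CovZ.n1 (-29736, 2040) (by decide +kernel)
                 (CovZ.n2 (-29760, 2040) (by decide +kernel)
                  (CovZ.n2 (-29748, 2052) (by decide +kernel)
                   (CovZ.leaf K2_ok TB_l37835 _)
                   (CovZ.leaf K2_ok TB_l37836 _))
                  (CovZ.n1 (-29748, 2028) (by decide +kernel)
                   (CovZ.leaf K2_ok TB_l3589 _)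
                   (CovZ.leaf K2_ok TB_l3590 _)))
                 (CovZ.n1 (-29736, 2064) (by decide +kernel)
                  (CovZ.n2 (-29724, 2052) (by decide +kernel)
                   (CovZ.leaf K2_ok TB_l37837 _)
                   (CovZ.leaf K2_ok TB_l37838 _))
                  (CovZ.n1 (-29748, 2052) (by decide +kernel)
                   (CovZ.leaf K2_ok TB_l37839 _)
                   (CovZ.leaf K2_ok TB_l37840 _)))))))
             (CovZ.n1 (-29712, 1968) (by decide +kernel)
              (CovZ.n2 (-29760, 1968) (by decide +kernel)
               (CovZ.subM 1989292945639203107727601900885830121702819680874175568506765617566869654624835326705664 (by decide +kernel)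
                (CovZ.n2 (-29736, 1992) (by decide +kernel)
                 (CovZ.n2 (-29736, 1968) (by decide +kernel)
                  (CovZ.leaf K2_ok TB_l3591 _)
                  (CovZ.leaf K2_ok TB_l3592 _))
                 (CovZ.n1 (-29760, 1992) (by decide +kernel)
                  (CovZ.leaf K2_ok TB_l3593 _)
                  (CovZ.leaf K2_ok TB_l3594 _))))
               (CovZ.n1 (-29736, 1944) (by decide +kernel)
                (CovZ.leaf K2_ok TB_l3595 _)
                (CovZ.n1 (-29736, 1968) (by decide +kernel)
                 (CovZ.leaf K2_ok TB_l3596 _)
                 (CovZ.leaf K2_ok TB_l3597 _))))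
              (CovZ.subM 1989292945639203107727601900885830121702819680874175568506765617566869654624835326705664 (by decide +kernel)
               (CovZ.n1 (-29712, 2016) (by decide +kernel)
                (CovZ.n2 (-29688, 1992) (by decide +kernel)
                 (CovZ.n2 (-29712, 1992) (by decide +kernel)
                  (CovZ.leaf K2_ok TB_l3598 _)
                  (CovZ.leaf K2_ok TB_l3599 _))
                 (CovZ.n1 (-29688, 2016) (by decide +kernel)
                  (CovZ.leaf K2_ok TB_l3600 _)
                  (CovZ.leaf K2_ok TB_l3601 _)))
                (CovZ.n1 (-29736, 1992) (by decide +kernel)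
                 (CovZ.n2 (-29736, 2016) (by decide +kernel)
                  (CovZ.leaf K2_ok TB_l3602 _)
                  (CovZ.leaf K2_ok TB_l3603 _))
                 (CovZ.n1 (-29712, 1992) (by decide +kernel)
                  (CovZ.leaf K2_ok TB_l3604 _)
                  (CovZ.leaf K2_ok TB_l3605 _)))))))))

theorem TB_u99 : CovZ TB_M (toL (selN TB_LN 1989292945639203107727601900885830121702819680874176897736029053082970787833392310255618)) [0, 7, 6, 1] (-29760, 2112) (-29952, 2304) (-29952, 1920) :=
    (CovZ.n1 (-29952, 2112) (by decide +kernel)
           (CovZ.badM (by decide +kernel))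
           (CovZ.n1 (-29856, 2016) (by decide +kernel)
            (CovZ.n2 (-29952, 2016) (by decide +kernel)
             (CovZ.subM 56539106072908298546761300995077684786027972905494910104570381762104918016 (by decide +kernel)
              (CovZ.n2 (-29904, 2064) (by decide +kernel)
               (CovZ.n2 (-29904, 2016) (by decide +kernel)
                (CovZ.n2 (-29928, 2040) (by decide +kernel)
                 (CovZ.n2 (-29904, 2040) (by decide +kernel)
                  (CovZ.leaf K2_ok TB_l3606 _)
                  (CovZ.leaf K2_ok TB_l3607 _))
                 (CovZ.n1 (-29928, 2016) (by decide +kernel)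
                  (CovZ.leaf K2_ok TB_l3608 _)
                  (CovZ.leaf K2_ok TB_l3609 _)))
                (CovZ.n1 (-29880, 2040) (by decide +kernel)
                 (CovZ.n2 (-29880, 2016) (by decide +kernel)
                  (CovZ.leaf K2_ok TB_l3610 _)
                  (CovZ.leaf K2_ok TB_l3611 _))
                 (CovZ.n1 (-29904, 2040) (by decide +kernel)
                  (CovZ.leaf K2_ok TB_l3612 _)
                  (CovZ.leaf K2_ok TB_l3613 _))))
               (CovZ.n1 (-29952, 2064) (by decide +kernel)
                (CovZ.n2 (-29928, 2088) (by decide +kernel)
                 (CovZ.n2 (-29928, 2064) (by decide +kernel)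
                  (CovZ.n2 (-29940, 2076) (by decide +kernel)
                   (CovZ.badM (by decide +kernel))
                   (CovZ.leaf K2_ok TB_l3615 _))
                  (CovZ.badM (by decide +kernel)))
                 (CovZ.n1 (-29952, 2088) (by decide +kernel)
                  (CovZ.badM (by decide +kernel))
                  (CovZ.n1 (-29940, 2076) (by decide +kernel)
                   (CovZ.leaf K2_ok TB_l3618 _)
                   (CovZ.badM (by decide +kernel)))))
                (CovZ.n1 (-29928, 2040) (by decide +kernel)
                 (CovZ.n2 (-29952, 2040) (by decide +kernel)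
                  (CovZ.leaf K2_ok TB_l3619 _)
                  (CovZ.leaf K2_ok TB_l3620 _))
                 (CovZ.n1 (-29928, 2064) (by decide +kernel)
                  (CovZ.leaf K2_ok TB_l3621 _)
                  (CovZ.leaf K2_ok TB_l3622 _))))))
             (CovZ.n1 (-29904, 1968) (by decide +kernel)
              (CovZ.n2 (-29952, 1968) (by decide +kernel)
               (CovZ.n2 (-29928, 1992) (by decide +kernel)
                (CovZ.n2 (-29928, 1968) (by decide +kernel)
                 (CovZ.leaf K2_ok TB_l3623 _)
                 (CovZ.leaf K2_ok TB_l3624 _))
                (CovZ.leaf K2_ok TB_l3625 _))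
               (CovZ.n1 (-29928, 1944) (by decide +kernel)
                (CovZ.leaf K2_ok TB_l3626 _)
                (CovZ.n1 (-29928, 1968) (by decide +kernel)
                 (CovZ.leaf K2_ok TB_l3627 _)
                 (CovZ.leaf K2_ok TB_l3628 _))))
              (CovZ.n1 (-29904, 2016) (by decide +kernel)
               (CovZ.n2 (-29880, 1992) (by decide +kernel)
                (CovZ.leaf K2_ok TB_l3629 _)
                (CovZ.n1 (-29880, 2016) (by decide +kernel)
                 (CovZ.leaf K2_ok TB_l3630 _)
                 (CovZ.leaf K2_ok TB_l3631 _)))
               (CovZ.n1 (-29928, 1992) (by decide +kernel)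
                (CovZ.n2 (-29928, 2016) (by decide +kernel)
                 (CovZ.leaf K2_ok TB_l3632 _)
                 (CovZ.leaf K2_ok TB_l3633 _))
                (CovZ.n1 (-29904, 1992) (by decide +kernel)
                 (CovZ.leaf K2_ok TB_l3634 _)
                 (CovZ.leaf K2_ok TB_l3635 _))))))
            (CovZ.subM 56539106072908298546761300995077684786027972905494910104570381762104918016 (by decide +kernel)
             (CovZ.n1 (-29856, 2112) (by decide +kernel)
              (CovZ.n2 (-29808, 2064) (by decide +kernel)
               (CovZ.n2 (-29856, 2064) (by decide +kernel)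
                (CovZ.badM (by decide +kernel))
                (CovZ.n1 (-29832, 2040) (by decide +kernel)
                 (CovZ.n2 (-29856, 2040) (by decide +kernel)
                  (CovZ.n2 (-29844, 2052) (by decide +kernel)
                   (CovZ.leaf K2_ok TB_l3636 _)
                   (CovZ.leaf K2_ok TB_l3637 _))
                  (CovZ.n1 (-29844, 2028) (by decide +kernel)
                   (CovZ.leaf K2_ok TB_l3638 _)
                   (CovZ.leaf K2_ok TB_l3639 _)))
                 (CovZ.n1 (-29832, 2064) (by decide +kernel)
                  (CovZ.leaf K2_ok TB_l3640 _)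
                  (CovZ.n1 (-29844, 2052) (by decide +kernel)
                   (CovZ.leaf K2_ok TB_l37841 _)
                   (CovZ.leaf K2_ok TB_l3641 _)))))
               (CovZ.badM (by decide +kernel)))
              (CovZ.n1 (-29904, 2064) (by decide +kernel)
               (CovZ.badM (by decide +kernel))
               (CovZ.n1 (-29856, 2064) (by decide +kernel)
                (CovZ.n2 (-29880, 2040) (by decide +kernel)
                 (CovZ.n2 (-29880, 2064) (by decide +kernel)
                  (CovZ.leaf K2_ok TB_l3642 _)
                  (CovZ.n1 (-29892, 2052) (by decide +kernel)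
                   (CovZ.leaf K2_ok TB_l3643 _)
                   (CovZ.leaf K2_ok TB_l3644 _)))
                 (CovZ.n1 (-29856, 2040) (by decide +kernel)
                  (CovZ.leaf K2_ok TB_l3645 _)
                  (CovZ.n1 (-29868, 2052) (by decide +kernel)
                   (CovZ.leaf K2_ok TB_l3646 _)
                   (CovZ.leaf K2_ok TB_l3647 _))))
                (CovZ.badM (by decide +kernel))))))))

theorem TB_u100 : CovZ TB_M (toL (selN TB_LN 307865750090656250177576235455861927840989930198206055393213122581641122671753642180764495842722054535690817372162)) [0, 7, 6, 1] (-29184, 1536) (-29568, 1920) (-29952, 1536) :=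
    (CovZ.n2 (-29568, 1536) (by decide +kernel)
        (CovZ.n2 (-29760, 1728) (by decide +kernel)
         (CovZ.n2 (-29568, 1728) (by decide +kernel)
          (CovZ.n2 (-29664, 1632) (by decide +kernel)
           (CovZ.subM 2983939418458776392038366397181041077337578652659829950744763138557442466912514789605378 (by decide +kernel)
            (CovZ.n2 (-29664, 1728) (by decide +kernel)
             (CovZ.n2 (-29616, 1680) (by decide +kernel)
              (CovZ.leaf K2_ok TB_l3393 _)
              (CovZ.n1 (-29616, 1728) (by decide +kernel)
               (CovZ.leaf K2_ok TB_l3394 _)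
               (CovZ.leaf K2_ok TB_l3395 _)))
             (CovZ.n1 (-29712, 1680) (by decide +kernel)
              (CovZ.n2 (-29712, 1728) (by decide +kernel)
               (CovZ.leaf K2_ok TB_l3396 _)
               (CovZ.leaf K2_ok TB_l3397 _))
              (CovZ.leaf K2_ok TB_l3398 _))))
           (CovZ.subM 37576681324381331646234673488047851157863853076022000425728473099394611727963451150107766502539427442497945602 (by decide +kernel)
            (CovZ.n1 (-29568, 1632) (by decide +kernel)
             (CovZ.n2 (-29616, 1584) (by decide +kernel)
              (CovZ.n2 (-29616, 1632) (by decide +kernel)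
               (CovZ.leaf K2_ok TB_l3399 _)
               (CovZ.leaf K2_ok TB_l3400 _))
              (CovZ.leaf K2_ok TB_l3401 _))
             (CovZ.n1 (-29616, 1680) (by decide +kernel)
              (CovZ.n2 (-29568, 1680) (by decide +kernel)
               (CovZ.leaf K2_ok TB_l3402 _)
               (CovZ.leaf K2_ok TB_l3403 _))
              (CovZ.n1 (-29616, 1632) (by decide +kernel)
               (CovZ.leaf K2_ok TB_l3404 _)
               (CovZ.leaf K2_ok TB_l3405 _))))))
          (CovZ.subM 2983939418458776392038366397179471801903731982468871003388961221953416878051398780977154 (by decide +kernel)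
           (CovZ.n1 (-29664, 1824) (by decide +kernel)
            (CovZ.n2 (-29568, 1824) (by decide +kernel)
             (CovZ.n2 (-29616, 1776) (by decide +kernel)
              (CovZ.n2 (-29616, 1824) (by decide +kernel)
               (CovZ.leaf K2_ok TB_l3406 _)
               (CovZ.leaf K2_ok TB_l3407 _))
              (CovZ.n1 (-29568, 1776) (by decide +kernel)
               (CovZ.leaf K2_ok TB_l3408 _)
               (CovZ.leaf K2_ok TB_l3409 _)))
             (CovZ.n1 (-29616, 1872) (by decide +kernel)
              (CovZ.n2 (-29568, 1872) (by decide +kernel)
               (CovZ.n2 (-29592, 1848) (by decide +kernel)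
                (CovZ.leaf K2_ok TB_l3410 _)
                (CovZ.leaf K2_ok TB_l3411 _))
               (CovZ.n1 (-29592, 1896) (by decide +kernel)
                (CovZ.leaf K2_ok TB_l3412 _)
                (CovZ.leaf K2_ok TB_l3413 _)))
              (CovZ.n1 (-29616, 1824) (by decide +kernel)
               (CovZ.leaf K2_ok TB_l3414 _)
               (CovZ.n1 (-29592, 1848) (by decide +kernel)
                (CovZ.leaf K2_ok TB_l3415 _)
                (CovZ.leaf K2_ok TB_l3416 _)))))
            (CovZ.n1 (-29664, 1728) (by decide +kernel)
             (CovZ.n2 (-29712, 1776) (by decide +kernel)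
              (CovZ.n2 (-29664, 1776) (by decide +kernel)
               (CovZ.leaf K2_ok TB_l3417 _)
               (CovZ.leaf K2_ok TB_l3418 _))
              (CovZ.n1 (-29712, 1728) (by decide +kernel)
               (CovZ.leaf K2_ok TB_l3419 _)
               (CovZ.leaf K2_ok TB_l3420 _)))
             (CovZ.n1 (-29616, 1776) (by decide +kernel)
              (CovZ.n2 (-29616, 1728) (by decide +kernel)
               (CovZ.leaf K2_ok TB_l3421 _)
               (CovZ.leaf K2_ok TB_l3422 _))
              (CovZ.n1 (-29664, 1776) (by decide +kernel)
               (CovZ.leaf K2_ok TB_l3423 _)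
               (CovZ.leaf K2_ok TB_l3424 _)))))))
         (CovZ.n1 (-29760, 1536) (by decide +kernel)
          (CovZ.n2 (-29856, 1632) (by decide +kernel)
           (CovZ.n2 (-29760, 1632) (by decide +kernel)
            (CovZ.n2 (-29808, 1584) (by decide +kernel)
             (CovZ.n2 (-29808, 1632) (by decide +kernel)
              (CovZ.leaf K2_ok TB_l3425 _)
              (CovZ.leaf K2_ok TB_l3426 _))
             (CovZ.leaf K2_ok TB_l3427 _))
            (CovZ.n1 (-29808, 1680) (by decide +kernel)
             (CovZ.leaf K2_ok TB_l3428 _)
             (CovZ.n1 (-29808, 1632) (by decide +kernel)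
              (CovZ.leaf K2_ok TB_l3429 _)
              (CovZ.leaf K2_ok TB_l3430 _))))
           (CovZ.n1 (-29856, 1536) (by decide +kernel)
            (CovZ.n2 (-29904, 1584) (by decide +kernel)
             (CovZ.leaf K2_ok TB_l3431 _)
             (CovZ.n1 (-29904, 1536) (by decide +kernel)
              (CovZ.leaf K2_ok TB_l3432 _)
              (CovZ.leaf K2_ok TB_l3433 _)))
            (CovZ.n1 (-29808, 1584) (by decide +kernel)
             (CovZ.n2 (-29808, 1536) (by decide +kernel)
              (CovZ.leaf K2_ok TB_l3434 _)
              (CovZ.leaf K2_ok TB_l3435 _))
             (CovZ.leaf K2_ok TB_l3436 _))))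
          (CovZ.n1 (-29664, 1632) (by decide +kernel)
           (CovZ.n2 (-29664, 1536) (by decide +kernel)
            (CovZ.n2 (-29712, 1584) (by decide +kernel)
             (CovZ.leaf K2_ok TB_l3437 _)
             (CovZ.n1 (-29712, 1536) (by decide +kernel)
              (CovZ.leaf K2_ok TB_l3438 _)
              (CovZ.leaf K2_ok TB_l3439 _)))
            (CovZ.n1 (-29616, 1584) (by decide +kernel)
             (CovZ.leaf K2_ok TB_l3440 _)
             (CovZ.leaf K2_ok TB_l3441 _)))
           (CovZ.n1 (-29760, 1632) (by decide +kernel)
            (CovZ.n2 (-29712, 1680) (by decide +kernel)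
             (CovZ.n2 (-29712, 1632) (by decide +kernel)
              (CovZ.leaf K2_ok TB_l3442 _)
              (CovZ.leaf K2_ok TB_l3443 _))
             (CovZ.leaf K2_ok TB_l3444 _))
            (CovZ.n1 (-29712, 1584) (by decide +kernel)
             (CovZ.leaf K2_ok TB_l3445 _)
             (CovZ.n1 (-29712, 1632) (by decide +kernel)
              (CovZ.leaf K2_ok TB_l3446 _)
              (CovZ.leaf K2_ok TB_l3447 _)))))))
        (CovZ.n1 (-29376, 1728) (by decide +kernel)
         (CovZ.n2 (-29376, 1536) (by decide +kernel)
          (CovZ.subM 37576681324381331646234673488047851157863853076022000425728473099394611727963451150107766502539427442497945602 (by decide +kernel)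
           (CovZ.n2 (-29472, 1632) (by decide +kernel)
            (CovZ.n2 (-29376, 1632) (by decide +kernel)
             (CovZ.n2 (-29424, 1584) (by decide +kernel)
              (CovZ.n2 (-29424, 1632) (by decide +kernel)
               (CovZ.leaf K2_ok TB_l3448 _)
               (CovZ.leaf K2_ok TB_l3449 _))
              (CovZ.leaf K2_ok TB_l3450 _))
             (CovZ.n1 (-29424, 1680) (by decide +kernel)
              (CovZ.leaf K2_ok TB_l3451 _)
              (CovZ.n1 (-29424, 1632) (by decide +kernel)
               (CovZ.leaf K2_ok TB_l3452 _)
               (CovZ.leaf K2_ok TB_l3453 _))))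
            (CovZ.n1 (-29472, 1536) (by decide +kernel)
             (CovZ.n2 (-29520, 1584) (by decide +kernel)
              (CovZ.leaf K2_ok TB_l3454 _)
              (CovZ.leaf K2_ok TB_l3455 _))
             (CovZ.n1 (-29424, 1584) (by decide +kernel)
              (CovZ.leaf K2_ok TB_l3456 _)
              (CovZ.leaf K2_ok TB_l3457 _)))))
          (CovZ.n1 (-29280, 1632) (by decide +kernel)
           (CovZ.n2 (-29280, 1536) (by decide +kernel)
            (CovZ.n2 (-29328, 1584) (by decide +kernel)
             (CovZ.leaf K2_ok TB_l3458 _)
             (CovZ.leaf K2_ok TB_l3459 _))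
            (CovZ.n1 (-29232, 1584) (by decide +kernel)
             (CovZ.leaf K2_ok TB_l3460 _)
             (CovZ.leaf K2_ok TB_l3461 _)))
           (CovZ.subM 37576681324381331646234673488047851157863853076022000425728473099394611727963451150107766502539427442497421314 (by decide +kernel)
            (CovZ.n1 (-29376, 1632) (by decide +kernel)
             (CovZ.n2 (-29328, 1680) (by decide +kernel)
              (CovZ.n2 (-29328, 1632) (by decide +kernel)
               (CovZ.leaf K2_ok TB_l3462 _)
               (CovZ.leaf K2_ok TB_l3463 _))
              (CovZ.leaf K2_ok TB_l3464 _))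
             (CovZ.n1 (-29328, 1584) (by decide +kernel)
              (CovZ.leaf K2_ok TB_l3465 _)
              (CovZ.n1 (-29328, 1632) (by decide +kernel)
               (CovZ.leaf K2_ok TB_l3466 _)
               (CovZ.leaf K2_ok TB_l3467 _)))))))
         (CovZ.subM 37576681324381331646234673488047851157863853076022000425728473099394611727963451150107766502539427442497945602 (by decide +kernel)
          (CovZ.n1 (-29568, 1728) (by decide +kernel)
           (CovZ.subM 2983939418458719852932293488880925136383708209076364523904261202146756986652957417144322 (by decide +kernel)
            (CovZ.n2 (-29472, 1824) (by decide +kernel)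
             (CovZ.n2 (-29472, 1728) (by decide +kernel)
              (CovZ.n2 (-29520, 1776) (by decide +kernel)
               (CovZ.n2 (-29472, 1776) (by decide +kernel)
                (CovZ.leaf K2_ok TB_l3468 _)
                (CovZ.leaf K2_ok TB_l3469 _))
               (CovZ.n1 (-29520, 1728) (by decide +kernel)
                (CovZ.leaf K2_ok TB_l3470 _)
                (CovZ.leaf K2_ok TB_l3471 _)))
              (CovZ.n1 (-29424, 1776) (by decide +kernel)
               (CovZ.n2 (-29424, 1728) (by decide +kernel)
                (CovZ.leaf K2_ok TB_l3472 _)
                (CovZ.leaf K2_ok TB_l3473 _))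
               (CovZ.n1 (-29472, 1776) (by decide +kernel)
                (CovZ.leaf K2_ok TB_l3474 _)
                (CovZ.leaf K2_ok TB_l3475 _))))
             (CovZ.n1 (-29568, 1824) (by decide +kernel)
              (CovZ.n2 (-29520, 1872) (by decide +kernel)
               (CovZ.n2 (-29520, 1824) (by decide +kernel)
                (CovZ.n2 (-29544, 1848) (by decide +kernel)
                 (CovZ.leaf K2_ok TB_l3476 _)
                 (CovZ.leaf K2_ok TB_l3477 _))
                (CovZ.n1 (-29496, 1848) (by decide +kernel)
                 (CovZ.leaf K2_ok TB_l3478 _)
                 (CovZ.leaf K2_ok TB_l3479 _)))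
               (CovZ.n1 (-29568, 1872) (by decide +kernel)
                (CovZ.n2 (-29544, 1896) (by decide +kernel)
                 (CovZ.n2 (-29544, 1872) (by decide +kernel)
                  (CovZ.leaf K2_ok TB_l3480 _)
                  (CovZ.leaf K2_ok TB_l3481 _))
                 (CovZ.leaf K2_ok TB_l3482 _))
                (CovZ.n1 (-29544, 1848) (by decide +kernel)
                 (CovZ.leaf K2_ok TB_l3483 _)
                 (CovZ.leaf K2_ok TB_l3484 _))))
              (CovZ.n1 (-29520, 1776) (by decide +kernel)
               (CovZ.n2 (-29568, 1776) (by decide +kernel)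
                (CovZ.leaf K2_ok TB_l3485 _)
                (CovZ.leaf K2_ok TB_l3486 _))
               (CovZ.n1 (-29520, 1824) (by decide +kernel)
                (CovZ.n2 (-29496, 1800) (by decide +kernel)
                 (CovZ.leaf K2_ok TB_l3487 _)
                 (CovZ.leaf K2_ok TB_l3488 _))
                (CovZ.leaf K2_ok TB_l3489 _))))))
           (CovZ.n1 (-29472, 1632) (by decide +kernel)
            (CovZ.n2 (-29568, 1632) (by decide +kernel)
             (CovZ.n2 (-29520, 1680) (by decide +kernel)
              (CovZ.n2 (-29520, 1632) (by decide +kernel)
               (CovZ.leaf K2_ok TB_l3490 _)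
               (CovZ.leaf K2_ok TB_l3491 _))
              (CovZ.leaf K2_ok TB_l3492 _))
             (CovZ.n1 (-29520, 1584) (by decide +kernel)
              (CovZ.leaf K2_ok TB_l3493 _)
              (CovZ.n1 (-29520, 1632) (by decide +kernel)
               (CovZ.leaf K2_ok TB_l3494 _)
               (CovZ.leaf K2_ok TB_l3495 _))))
            (CovZ.n1 (-29472, 1728) (by decide +kernel)
             (CovZ.n2 (-29424, 1680) (by decide +kernel)
              (CovZ.leaf K2_ok TB_l3496 _)
              (CovZ.n1 (-29424, 1728) (by decide +kernel)
               (CovZ.leaf K2_ok TB_l3497 _)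
               (CovZ.leaf K2_ok TB_l3498 _)))
             (CovZ.n1 (-29520, 1680) (by decide +kernel)
              (CovZ.n2 (-29520, 1728) (by decide +kernel)
               (CovZ.leaf K2_ok TB_l3499 _)
               (CovZ.leaf K2_ok TB_l3500 _))
              (CovZ.leaf K2_ok TB_l3501 _))))))))

theorem TB_u101 : CovZ TB_M (toL (selN TB_LN 307865750090656250177576235455861927840989930198206055393213122581641122671753642180764495842722054535690817372162)) [0, 7, 6, 1] (-29568, 1920) (-29952, 2304) (-29952, 1536) :=
    (CovZ.n1 (-29952, 1920) (by decide +kernel)
        (CovZ.subM 1989292945639203107727601900885830121702819680874176897736029053082970787833392310255618 (by decide +kernel)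
         (CovZ.n2 (-29760, 2112) (by decide +kernel)
          TB_u98
          TB_u99))
        (CovZ.n1 (-29760, 1728) (by decide +kernel)
         (CovZ.n2 (-29952, 1728) (by decide +kernel)
          (CovZ.subM 2983939418458776392038366397181041077337578652659831279972758923473315370719575069949954 (by decide +kernel)
           (CovZ.n2 (-29856, 1824) (by decide +kernel)
            (CovZ.n2 (-29856, 1728) (by decide +kernel)
             (CovZ.n2 (-29904, 1776) (by decide +kernel)
              (CovZ.n2 (-29856, 1776) (by decide +kernel)
               (CovZ.leaf K2_ok TB_l3648 _)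
               (CovZ.leaf K2_ok TB_l3649 _))
              (CovZ.n1 (-29904, 1728) (by decide +kernel)
               (CovZ.leaf K2_ok TB_l3650 _)
               (CovZ.leaf K2_ok TB_l3651 _)))
             (CovZ.n1 (-29808, 1776) (by decide +kernel)
              (CovZ.n2 (-29808, 1728) (by decide +kernel)
               (CovZ.leaf K2_ok TB_l3652 _)
               (CovZ.leaf K2_ok TB_l3653 _))
              (CovZ.n1 (-29856, 1776) (by decide +kernel)
               (CovZ.leaf K2_ok TB_l3654 _)
               (CovZ.leaf K2_ok TB_l3655 _))))
            (CovZ.n1 (-29952, 1824) (by decide +kernel)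
             (CovZ.n2 (-29904, 1872) (by decide +kernel)
              (CovZ.n2 (-29904, 1824) (by decide +kernel)
               (CovZ.n2 (-29928, 1848) (by decide +kernel)
                (CovZ.leaf K2_ok TB_l3656 _)
                (CovZ.leaf K2_ok TB_l3657 _))
               (CovZ.leaf K2_ok TB_l3658 _))
              (CovZ.n1 (-29952, 1872) (by decide +kernel)
               (CovZ.n2 (-29928, 1896) (by decide +kernel)
                (CovZ.leaf K2_ok TB_l3659 _)
                (CovZ.leaf K2_ok TB_l3660 _))
               (CovZ.n1 (-29928, 1848) (by decide +kernel)
                (CovZ.leaf K2_ok TB_l3661 _)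
                (CovZ.leaf K2_ok TB_l3662 _))))
             (CovZ.n1 (-29904, 1776) (by decide +kernel)
              (CovZ.n2 (-29952, 1776) (by decide +kernel)
               (CovZ.leaf K2_ok TB_l3663 _)
               (CovZ.leaf K2_ok TB_l3664 _))
              (CovZ.n1 (-29904, 1824) (by decide +kernel)
               (CovZ.leaf K2_ok TB_l3665 _)
               (CovZ.leaf K2_ok TB_l3666 _))))))
          (CovZ.n1 (-29856, 1632) (by decide +kernel)
           (CovZ.n2 (-29952, 1632) (by decide +kernel)
            (CovZ.n2 (-29904, 1680) (by decide +kernel)
             (CovZ.n2 (-29904, 1632) (by decide +kernel)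
              (CovZ.leaf K2_ok TB_l3667 _)
              (CovZ.leaf K2_ok TB_l3668 _))
             (CovZ.leaf K2_ok TB_l3669 _))
            (CovZ.n1 (-29904, 1584) (by decide +kernel)
             (CovZ.leaf K2_ok TB_l3670 _)
             (CovZ.n1 (-29904, 1632) (by decide +kernel)
              (CovZ.leaf K2_ok TB_l3671 _)
              (CovZ.leaf K2_ok TB_l3672 _))))
           (CovZ.subM 2983939418458776392038366397181041077337578652659831279972758923473315370719575070474242 (by decide +kernel)
            (CovZ.n1 (-29856, 1728) (by decide +kernel)
             (CovZ.n2 (-29808, 1680) (by decide +kernel)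
              (CovZ.leaf K2_ok TB_l3673 _)
              (CovZ.n1 (-29808, 1728) (by decide +kernel)
               (CovZ.leaf K2_ok TB_l3674 _)
               (CovZ.leaf K2_ok TB_l3675 _)))
             (CovZ.n1 (-29904, 1680) (by decide +kernel)
              (CovZ.n2 (-29904, 1728) (by decide +kernel)
               (CovZ.leaf K2_ok TB_l3676 _)
               (CovZ.leaf K2_ok TB_l3677 _))
              (CovZ.leaf K2_ok TB_l3678 _))))))
         (CovZ.subM 2983939418458776392038366397179471801903731982468872332616957006869289781858459061321730 (by decide +kernel)
          (CovZ.n1 (-29760, 1920) (by decide +kernel)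
           (CovZ.n2 (-29664, 1824) (by decide +kernel)
            (CovZ.n2 (-29760, 1824) (by decide +kernel)
             (CovZ.n2 (-29712, 1872) (by decide +kernel)
              (CovZ.n2 (-29712, 1824) (by decide +kernel)
               (CovZ.n2 (-29736, 1848) (by decide +kernel)
                (CovZ.leaf K2_ok TB_l3679 _)
                (CovZ.leaf K2_ok TB_l3680 _))
               (CovZ.n1 (-29688, 1848) (by decide +kernel)
                (CovZ.leaf K2_ok TB_l3681 _)
                (CovZ.leaf K2_ok TB_l3682 _)))
              (CovZ.n1 (-29760, 1872) (by decide +kernel)
               (CovZ.n2 (-29736, 1896) (by decide +kernel)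
                (CovZ.leaf K2_ok TB_l3683 _)
                (CovZ.leaf K2_ok TB_l3684 _))
               (CovZ.n1 (-29736, 1848) (by decide +kernel)
                (CovZ.leaf K2_ok TB_l3685 _)
                (CovZ.leaf K2_ok TB_l3686 _))))
             (CovZ.n1 (-29712, 1776) (by decide +kernel)
              (CovZ.n2 (-29760, 1776) (by decide +kernel)
               (CovZ.leaf K2_ok TB_l3687 _)
               (CovZ.leaf K2_ok TB_l3688 _))
              (CovZ.n1 (-29712, 1824) (by decide +kernel)
               (CovZ.n2 (-29688, 1800) (by decide +kernel)
                (CovZ.leaf K2_ok TB_l3689 _)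
                (CovZ.leaf K2_ok TB_l3690 _))
               (CovZ.leaf K2_ok TB_l3691 _))))
            (CovZ.n1 (-29664, 1920) (by decide +kernel)
             (CovZ.n2 (-29616, 1872) (by decide +kernel)
              (CovZ.n2 (-29664, 1872) (by decide +kernel)
               (CovZ.n2 (-29640, 1896) (by decide +kernel)
                (CovZ.leaf K2_ok TB_l3692 _)
                (CovZ.leaf K2_ok TB_l3693 _))
               (CovZ.leaf K2_ok TB_l3694 _))
              (CovZ.subM 1989292945639146568621528992587283456182795907481669089022065597760209763226393962872834 (by decide +kernel)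
               (CovZ.n1 (-29616, 1920) (by decide +kernel)
                (CovZ.n2 (-29592, 1896) (by decide +kernel)
                 (CovZ.leaf K2_ok TB_l3695 _)
                 (CovZ.n1 (-29592, 1920) (by decide +kernel)
                  (CovZ.leaf K2_ok TB_l3696 _)
                  (CovZ.leaf K2_ok TB_l3697 _)))
                (CovZ.n1 (-29640, 1896) (by decide +kernel)
                 (CovZ.n2 (-29640, 1920) (by decide +kernel)
                  (CovZ.leaf K2_ok TB_l3698 _)
                  (CovZ.leaf K2_ok TB_l3699 _))
                 (CovZ.leaf K2_ok TB_l3700 _)))))
             (CovZ.n1 (-29712, 1872) (by decide +kernel)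
              (CovZ.n2 (-29712, 1920) (by decide +kernel)
               (CovZ.n2 (-29688, 1896) (by decide +kernel)
                (CovZ.leaf K2_ok TB_l3701 _)
                (CovZ.n1 (-29688, 1920) (by decide +kernel)
                 (CovZ.leaf K2_ok TB_l3702 _)
                 (CovZ.leaf K2_ok TB_l3703 _)))
               (CovZ.n1 (-29736, 1896) (by decide +kernel)
                (CovZ.leaf K2_ok TB_l3704 _)
                (CovZ.leaf K2_ok TB_l3705 _)))
              (CovZ.n1 (-29664, 1872) (by decide +kernel)
               (CovZ.n2 (-29688, 1848) (by decide +kernel)
                (CovZ.leaf K2_ok TB_l3706 _)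
                (CovZ.leaf K2_ok TB_l3707 _))
               (CovZ.n1 (-29688, 1896) (by decide +kernel)
                (CovZ.leaf K2_ok TB_l3708 _)
                (CovZ.leaf K2_ok TB_l3709 _))))))
           (CovZ.n1 (-29856, 1824) (by decide +kernel)
            (CovZ.n2 (-29856, 1920) (by decide +kernel)
             (CovZ.n2 (-29808, 1872) (by decide +kernel)
              (CovZ.n2 (-29856, 1872) (by decide +kernel)
               (CovZ.n2 (-29832, 1896) (by decide +kernel)
                (CovZ.n2 (-29832, 1872) (by decide +kernel)
                 (CovZ.leaf K2_ok TB_l3710 _)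
                 (CovZ.leaf K2_ok TB_l3711 _))
                (CovZ.leaf K2_ok TB_l3712 _))
               (CovZ.n1 (-29832, 1848) (by decide +kernel)
                (CovZ.leaf K2_ok TB_l3713 _)
                (CovZ.leaf K2_ok TB_l3714 _)))
              (CovZ.n1 (-29808, 1920) (by decide +kernel)
               (CovZ.n2 (-29784, 1896) (by decide +kernel)
                (CovZ.leaf K2_ok TB_l3715 _)
                (CovZ.leaf K2_ok TB_l3716 _))
               (CovZ.n1 (-29832, 1896) (by decide +kernel)
                (CovZ.n2 (-29832, 1920) (by decide +kernel)
                 (CovZ.leaf K2_ok TB_l3717 _)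
                 (CovZ.leaf K2_ok TB_l3718 _))
                (CovZ.leaf K2_ok TB_l3719 _))))
             (CovZ.n1 (-29904, 1872) (by decide +kernel)
              (CovZ.n2 (-29904, 1920) (by decide +kernel)
               (CovZ.n2 (-29880, 1896) (by decide +kernel)
                (CovZ.leaf K2_ok TB_l3720 _)
                (CovZ.leaf K2_ok TB_l3721 _))
               (CovZ.n1 (-29928, 1896) (by decide +kernel)
                (CovZ.leaf K2_ok TB_l3722 _)
                (CovZ.leaf K2_ok TB_l3723 _)))
              (CovZ.n1 (-29856, 1872) (by decide +kernel)
               (CovZ.leaf K2_ok TB_l3724 _)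
               (CovZ.n1 (-29880, 1896) (by decide +kernel)
                (CovZ.leaf K2_ok TB_l3725 _)
                (CovZ.leaf K2_ok TB_l3726 _)))))
            (CovZ.n1 (-29760, 1824) (by decide +kernel)
             (CovZ.n2 (-29808, 1776) (by decide +kernel)
              (CovZ.n2 (-29808, 1824) (by decide +kernel)
               (CovZ.leaf K2_ok TB_l3727 _)
               (CovZ.leaf K2_ok TB_l3728 _))
              (CovZ.n1 (-29760, 1776) (by decide +kernel)
               (CovZ.leaf K2_ok TB_l3729 _)
               (CovZ.leaf K2_ok TB_l3730 _)))
             (CovZ.n1 (-29808, 1872) (by decide +kernel)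
              (CovZ.n2 (-29760, 1872) (by decide +kernel)
               (CovZ.n2 (-29784, 1848) (by decide +kernel)
                (CovZ.leaf K2_ok TB_l3731 _)
                (CovZ.leaf K2_ok TB_l3732 _))
               (CovZ.n1 (-29784, 1896) (by decide +kernel)
                (CovZ.leaf K2_ok TB_l3733 _)
                (CovZ.leaf K2_ok TB_l3734 _)))
              (CovZ.n1 (-29808, 1824) (by decide +kernel)
               (CovZ.n2 (-29832, 1848) (by decide +kernel)
                (CovZ.leaf K2_ok TB_l3735 _)
                (CovZ.leaf K2_ok TB_l3736 _))
               (CovZ.n1 (-29784, 1848) (by decide +kernel)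
                (CovZ.leaf K2_ok TB_l3737 _)
                (CovZ.leaf K2_ok TB_l3738 _))))))))))

theorem TB_u102 : CovZ TB_M (toL (selN TB_LN 58147139623488390111692969858625832496179376574481365444791857519652492211733773430350451298799544381895676962809349602283910673158885313419411458)) [0, 7, 6, 1] (-30336, 1920) (-30528, 2112) (-30720, 1920) :=
    (CovZ.n2 (-30528, 1920) (by decide +kernel)
         (CovZ.n2 (-30624, 2016) (by decide +kernel)
          (CovZ.n2 (-30528, 2016) (by decide +kernel)
           (CovZ.n2 (-30576, 1968) (by decide +kernel)
            (CovZ.n2 (-30576, 2016) (by decide +kernel)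
             (CovZ.n2 (-30552, 1992) (by decide +kernel)
              (CovZ.leaf K3_ok TB_l3739 _)
              (CovZ.leaf K3_ok TB_l3740 _))
             (CovZ.n1 (-30600, 1992) (by decide +kernel)
              (CovZ.leaf K3_ok TB_l3741 _)
              (CovZ.leaf K3_ok TB_l3742 _)))
            (CovZ.n1 (-30528, 1968) (by decide +kernel)
             (CovZ.n2 (-30552, 1944) (by decide +kernel)
              (CovZ.leaf K3_ok TB_l3743 _)
              (CovZ.leaf K3_ok TB_l3744 _))
             (CovZ.n1 (-30552, 1992) (by decide +kernel)
              (CovZ.leaf K3_ok TB_l3745 _)
              (CovZ.leaf K3_ok TB_l3746 _))))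
           (CovZ.n1 (-30576, 2064) (by decide +kernel)
            (CovZ.n2 (-30528, 2064) (by decide +kernel)
             (CovZ.n2 (-30552, 2040) (by decide +kernel)
              (CovZ.leaf K3_ok TB_l3747 _)
              (CovZ.leaf K3_ok TB_l3748 _))
             (CovZ.n1 (-30552, 2088) (by decide +kernel)
              (CovZ.n2 (-30528, 2088) (by decide +kernel)
               (CovZ.leaf K3_ok TB_l3749 _)
               (CovZ.leaf K3_ok TB_l3750 _))
              (CovZ.n1 (-30552, 2064) (by decide +kernel)
               (CovZ.leaf K3_ok TB_l3751 _)
               (CovZ.leaf K3_ok TB_l3752 _))))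
            (CovZ.n1 (-30576, 2016) (by decide +kernel)
             (CovZ.n2 (-30600, 2040) (by decide +kernel)
              (CovZ.leaf K3_ok TB_l3753 _)
              (CovZ.n1 (-30600, 2016) (by decide +kernel)
               (CovZ.leaf K3_ok TB_l3754 _)
               (CovZ.leaf K3_ok TB_l3755 _)))
             (CovZ.n1 (-30552, 2040) (by decide +kernel)
              (CovZ.leaf K3_ok TB_l3756 _)
              (CovZ.leaf K3_ok TB_l3757 _)))))
          (CovZ.n1 (-30624, 1920) (by decide +kernel)
           (CovZ.n2 (-30672, 1968) (by decide +kernel)
            (CovZ.n2 (-30624, 1968) (by decide +kernel)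
             (CovZ.n2 (-30648, 1944) (by decide +kernel)
              (CovZ.leaf K3_ok TB_l3758 _)
              (CovZ.leaf K3_ok TB_l3759 _))
             (CovZ.n1 (-30648, 1992) (by decide +kernel)
              (CovZ.leaf K3_ok TB_l3760 _)
              (CovZ.leaf K3_ok TB_l3761 _)))
            (CovZ.n1 (-30672, 1920) (by decide +kernel)
             (CovZ.n2 (-30696, 1944) (by decide +kernel)
              (CovZ.leaf K3_ok TB_l3762 _)
              (CovZ.leaf K3_ok TB_l3763 _))
             (CovZ.leaf K3_ok TB_l3764 _)))
           (CovZ.n1 (-30576, 1968) (by decide +kernel)
            (CovZ.n2 (-30576, 1920) (by decide +kernel)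
             (CovZ.n2 (-30600, 1944) (by decide +kernel)
              (CovZ.leaf K3_ok TB_l3765 _)
              (CovZ.leaf K3_ok TB_l3766 _))
             (CovZ.leaf K3_ok TB_l3767 _))
            (CovZ.n1 (-30624, 1968) (by decide +kernel)
             (CovZ.n2 (-30600, 1992) (by decide +kernel)
              (CovZ.leaf K3_ok TB_l3768 _)
              (CovZ.leaf K3_ok TB_l3769 _))
             (CovZ.n1 (-30600, 1944) (by decide +kernel)
              (CovZ.leaf K3_ok TB_l3770 _)
              (CovZ.leaf K3_ok TB_l3771 _))))))
         (CovZ.n1 (-30432, 2016) (by decide +kernel)
          (CovZ.n2 (-30432, 1920) (by decide +kernel)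
           (CovZ.n2 (-30480, 1968) (by decide +kernel)
            (CovZ.n2 (-30432, 1968) (by decide +kernel)
             (CovZ.n2 (-30456, 1944) (by decide +kernel)
              (CovZ.leaf K3_ok TB_l3772 _)
              (CovZ.leaf K3_ok TB_l3773 _))
             (CovZ.n1 (-30456, 1992) (by decide +kernel)
              (CovZ.leaf K3_ok TB_l3774 _)
              (CovZ.leaf K3_ok TB_l3775 _)))
            (CovZ.n1 (-30480, 1920) (by decide +kernel)
             (CovZ.n2 (-30504, 1944) (by decide +kernel)
              (CovZ.leaf K3_ok TB_l3776 _)
              (CovZ.leaf K3_ok TB_l3777 _))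
             (CovZ.leaf K3_ok TB_l3778 _)))
           (CovZ.n1 (-30384, 1968) (by decide +kernel)
            (CovZ.n2 (-30384, 1920) (by decide +kernel)
             (CovZ.n2 (-30408, 1944) (by decide +kernel)
              (CovZ.leaf K3_ok TB_l3779 _)
              (CovZ.leaf K3_ok TB_l3780 _))
             (CovZ.n1 (-30360, 1944) (by decide +kernel)
              (CovZ.leaf K2_ok TB_l3781 _)
              (CovZ.leaf K3_ok TB_l3782 _)))
            (CovZ.n1 (-30432, 1968) (by decide +kernel)
             (CovZ.n2 (-30408, 1992) (by decide +kernel)
              (CovZ.n2 (-30408, 1968) (by decide +kernel)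
               (CovZ.leaf K3_ok TB_l3783 _)
               (CovZ.leaf K3_ok TB_l3784 _))
              (CovZ.leaf K3_ok TB_l3785 _))
             (CovZ.n1 (-30408, 1944) (by decide +kernel)
              (CovZ.leaf K3_ok TB_l3786 _)
              (CovZ.leaf K3_ok TB_l3787 _)))))
          (CovZ.n1 (-30528, 2016) (by decide +kernel)
           (CovZ.n2 (-30480, 2064) (by decide +kernel)
            (CovZ.n2 (-30480, 2016) (by decide +kernel)
             (CovZ.n2 (-30504, 2040) (by decide +kernel)
              (CovZ.leaf K3_ok TB_l3788 _)
              (CovZ.n1 (-30504, 2016) (by decide +kernel)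
               (CovZ.leaf K3_ok TB_l3789 _)
               (CovZ.leaf K3_ok TB_l3790 _)))
             (CovZ.n1 (-30456, 2040) (by decide +kernel)
              (CovZ.n2 (-30456, 2016) (by decide +kernel)
               (CovZ.leaf K3_ok TB_l3791 _)
               (CovZ.leaf K3_ok TB_l3792 _))
              (CovZ.leaf K3_ok TB_l3793 _)))
            (CovZ.n1 (-30528, 2064) (by decide +kernel)
             (CovZ.n2 (-30504, 2088) (by decide +kernel)
              (CovZ.n2 (-30504, 2064) (by decide +kernel)
               (CovZ.leaf K3_ok TB_l3794 _)
               (CovZ.leaf K3_ok TB_l3795 _))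
              (CovZ.leaf K3_ok TB_l3796 _))
             (CovZ.n1 (-30504, 2040) (by decide +kernel)
              (CovZ.leaf K3_ok TB_l3797 _)
              (CovZ.leaf K3_ok TB_l3798 _))))
           (CovZ.n1 (-30480, 1968) (by decide +kernel)
            (CovZ.n2 (-30528, 1968) (by decide +kernel)
             (CovZ.n2 (-30504, 1992) (by decide +kernel)
              (CovZ.leaf K3_ok TB_l3799 _)
              (CovZ.leaf K3_ok TB_l3800 _))
             (CovZ.n1 (-30504, 1944) (by decide +kernel)
              (CovZ.leaf K3_ok TB_l3801 _)
              (CovZ.leaf K3_ok TB_l3802 _)))
            (CovZ.n1 (-30480, 2016) (by decide +kernel)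
             (CovZ.n2 (-30456, 1992) (by decide +kernel)
              (CovZ.leaf K3_ok TB_l3803 _)
              (CovZ.leaf K3_ok TB_l3804 _))
             (CovZ.n1 (-30504, 1992) (by decide +kernel)
              (CovZ.leaf K3_ok TB_l3805 _)
              (CovZ.leaf K3_ok TB_l3806 _)))))))

theorem TB_u103 : CovZ TB_M (toL (selN TB_LN 58147139623488390111692969858625832496179376574481365444791857519652492211733773430350451298799544381895676962809349602283910673158885313419411458)) [0, 7, 6, 1] (-30528, 2112) (-30720, 2304) (-30720, 1920) :=
    (CovZ.n1 (-30720, 2112) (by decide +kernel)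
         (CovZ.n2 (-30624, 2208) (by decide +kernel)
          (CovZ.n2 (-30624, 2112) (by decide +kernel)
           (CovZ.subM 56191473905687887305132369951849275648314658851789934399522486948712634470053261233328924706525216459682564362233297404899443549094801236949991424 (by decide +kernel)
            (CovZ.n2 (-30672, 2160) (by decide +kernel)
             (CovZ.n2 (-30624, 2160) (by decide +kernel)
              (CovZ.n2 (-30648, 2136) (by decide +kernel)
               (CovZ.n2 (-30648, 2160) (by decide +kernel)
                (CovZ.leaf K3_ok TB_l3807 _)
                (CovZ.leaf K3_ok TB_l3808 _))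
               (CovZ.n1 (-30624, 2136) (by decide +kernel)
                (CovZ.leaf K3_ok TB_l3809 _)
                (CovZ.leaf K3_ok TB_l3810 _)))
              (CovZ.n1 (-30648, 2184) (by decide +kernel)
               (CovZ.n2 (-30624, 2184) (by decide +kernel)
                (CovZ.leaf K3_ok TB_l3811 _)
                (CovZ.leaf K3_ok TB_l3812 _))
               (CovZ.n1 (-30648, 2160) (by decide +kernel)
                (CovZ.leaf K3_ok TB_l3813 _)
                (CovZ.leaf K3_ok TB_l3814 _))))
             (CovZ.n1 (-30672, 2112) (by decide +kernel)
              (CovZ.subM 22181357558292411712806952008583442048348128568887030058928977479846434048976876975125974868737195403385943438043998274001324474368 (by decide +kernel)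
               (CovZ.n2 (-30696, 2136) (by decide +kernel)
                (CovZ.n2 (-30672, 2136) (by decide +kernel)
                 (CovZ.leaf K3_ok TB_l3815 _)
                 (CovZ.n1 (-30684, 2148) (by decide +kernel)
                  (CovZ.leaf K3_ok TB_l3816 _)
                  (CovZ.leaf K3_ok TB_l3817 _)))
                (CovZ.n1 (-30696, 2112) (by decide +kernel)
                 (CovZ.n2 (-30708, 2124) (by decide +kernel)
                  (CovZ.leaf K3_ok TB_l3818 _)
                  (CovZ.leaf K3_ok TB_l3819 _))
                 (CovZ.leaf K3_ok TB_l3820 _))))
              (CovZ.n1 (-30648, 2136) (by decide +kernel)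
               (CovZ.n2 (-30648, 2112) (by decide +kernel)
                (CovZ.leaf K3_ok TB_l3821 _)
                (CovZ.leaf K3_ok TB_l3822 _))
               (CovZ.n1 (-30672, 2136) (by decide +kernel)
                (CovZ.leaf K3_ok TB_l3823 _)
                (CovZ.leaf K3_ok TB_l3824 _))))))
           (CovZ.n1 (-30576, 2160) (by decide +kernel)
            (CovZ.n2 (-30576, 2112) (by decide +kernel)
             (CovZ.n2 (-30600, 2136) (by decide +kernel)
              (CovZ.n2 (-30576, 2136) (by decide +kernel)
               (CovZ.leaf K3_ok TB_l3825 _)
               (CovZ.leaf K3_ok TB_l3826 _))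
              (CovZ.n1 (-30600, 2112) (by decide +kernel)
               (CovZ.leaf K3_ok TB_l3827 _)
               (CovZ.leaf K3_ok TB_l3828 _)))
             (CovZ.n1 (-30552, 2136) (by decide +kernel)
              (CovZ.n2 (-30552, 2112) (by decide +kernel)
               (CovZ.leaf K3_ok TB_l3829 _)
               (CovZ.leaf K3_ok TB_l3830 _))
              (CovZ.n1 (-30576, 2136) (by decide +kernel)
               (CovZ.leaf K3_ok TB_l3831 _)
               (CovZ.leaf K3_ok TB_l3832 _))))
            (CovZ.n1 (-30624, 2160) (by decide +kernel)
             (CovZ.n2 (-30600, 2184) (by decide +kernel)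
              (CovZ.n2 (-30600, 2160) (by decide +kernel)
               (CovZ.n2 (-30612, 2172) (by decide +kernel)
                (CovZ.leaf K3_ok TB_l3833 _)
                (CovZ.leaf K3_ok TB_l3834 _))
               (CovZ.leaf K3_ok TB_l3835 _))
              (CovZ.subM 49947976805055902755638632386982326854326174152560431672317478624548195022267808053086272690194183945097911865727975266611287332254154991494758400 (by decide +kernel)
               (CovZ.n1 (-30624, 2184) (by decide +kernel)
                (CovZ.n2 (-30612, 2196) (by decide +kernel)
                 (CovZ.leaf K3_ok TB_l3836 _)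
                 (CovZ.leaf K3_ok TB_l3837 _))
                (CovZ.n1 (-30612, 2172) (by decide +kernel)
                 (CovZ.leaf K3_ok TB_l3838 _)
                 (CovZ.leaf K3_ok TB_l3839 _)))))
             (CovZ.n1 (-30600, 2136) (by decide +kernel)
              (CovZ.n2 (-30624, 2136) (by decide +kernel)
               (CovZ.leaf K3_ok TB_l3840 _)
               (CovZ.leaf K3_ok TB_l3841 _))
              (CovZ.n1 (-30600, 2160) (by decide +kernel)
               (CovZ.leaf K3_ok TB_l3842 _)
               (CovZ.leaf K3_ok TB_l3843 _))))))
          (CovZ.subM 49947976805055902755723247550987478674992019311988626365415514423967623018336243098881396631472431797363536083335030827286863134489550921077358592 (by decide +kernel)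
           (CovZ.n1 (-30720, 2208) (by decide +kernel)
            (CovZ.subM 24263599244908548211348316631388686583834457405397672384137188888923747770542163679312523183642592260448314290322102141515445829632 (by decide +kernel)
             (CovZ.n2 (-30672, 2256) (by decide +kernel)
              (CovZ.n2 (-30672, 2208) (by decide +kernel)
               (CovZ.subM 22184065243540574108442869485531577521015747844671693635232522200656472100048319403452024738244617175316230171322672109137002758144 (by decide +kernel)
                (CovZ.n2 (-30696, 2232) (by decide +kernel)
                 (CovZ.n2 (-30672, 2232) (by decide +kernel)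
                  (CovZ.n2 (-30684, 2220) (by decide +kernel)
                   (CovZ.leaf K3_ok TB_l37842 _)
                   (CovZ.leaf K3_ok TB_l37843 _))
                  (CovZ.n1 (-30684, 2244) (by decide +kernel)
                   (CovZ.leaf K3_ok TB_l48407 _)
                   (CovZ.leaf K3_ok TB_l48408 _)))
                 (CovZ.n1 (-30696, 2208) (by decide +kernel)
                  (CovZ.badM (by decide +kernel))
                  (CovZ.n1 (-30684, 2220) (by decide +kernel)
                   (CovZ.leaf K3_ok TB_l37844 _)
                   (CovZ.leaf K3_ok TB_l37845 _)))))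
               (CovZ.n1 (-30648, 2232) (by decide +kernel)
                (CovZ.n2 (-30648, 2208) (by decide +kernel)
                 (CovZ.n2 (-30660, 2220) (by decide +kernel)
                  (CovZ.leaf K3_ok TB_l37846 _)
                  (CovZ.leaf K3_ok TB_l37847 _))
                 (CovZ.leaf K3_ok TB_l37848 _))
                (CovZ.subM 2718267469634679805532031992448226665871795292071124073852662378915094113675903993731457466500367513367190845341061311946031104 (by decide +kernel)
                 (CovZ.n1 (-30672, 2232) (by decide +kernel)
                  (CovZ.n2 (-30660, 2244) (by decide +kernel)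
                   (CovZ.leaf K3_ok TB_l37849 _)
                   (CovZ.leaf K3_ok TB_l48409 _))
                  (CovZ.n1 (-30660, 2220) (by decide +kernel)
                   (CovZ.leaf K3_ok TB_l37850 _)
                   (CovZ.leaf K3_ok TB_l37851 _))))))
              (CovZ.n1 (-30720, 2256) (by decide +kernel)
               (CovZ.badM (by decide +kernel))
               (CovZ.n1 (-30696, 2232) (by decide +kernel)
                (CovZ.badM (by decide +kernel))
                (CovZ.badM (by decide +kernel))))))
            (CovZ.n1 (-30672, 2160) (by decide +kernel)
             (CovZ.subM 22181357558292411712806952008583442048348128568887030058928977479846434048976876975125974868737195403385943438043998274001324474368 (by decide +kernel)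
              (CovZ.n2 (-30720, 2160) (by decide +kernel)
               (CovZ.n2 (-30696, 2184) (by decide +kernel)
                (CovZ.n2 (-30696, 2160) (by decide +kernel)
                 (CovZ.badM (by decide +kernel))
                 (CovZ.leaf K3_ok TB_l3844 _))
                (CovZ.badM (by decide +kernel)))
               (CovZ.n1 (-30696, 2136) (by decide +kernel)
                (CovZ.badM (by decide +kernel))
                (CovZ.n1 (-30696, 2160) (by decide +kernel)
                 (CovZ.leaf K3_ok TB_l3847 _)
                 (CovZ.badM (by decide +kernel))))))
             (CovZ.n1 (-30672, 2208) (by decide +kernel)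
              (CovZ.n2 (-30648, 2184) (by decide +kernel)
               (CovZ.n2 (-30672, 2184) (by decide +kernel)
                (CovZ.leaf K3_ok TB_l3849 _)
                (CovZ.leaf K3_ok TB_l3850 _))
               (CovZ.n1 (-30648, 2208) (by decide +kernel)
                (CovZ.leaf K3_ok TB_l3851 _)
                (CovZ.n1 (-30660, 2196) (by decide +kernel)
                 (CovZ.leaf K3_ok TB_l37852 _)
                 (CovZ.leaf K3_ok TB_l3852 _))))
              (CovZ.subM 22181357558292411712806952008583442048348128568887030058928977479846434048976876975125974868737195403385943438043998274001324474368 (by decide +kernel)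
               (CovZ.n1 (-30696, 2184) (by decide +kernel)
                (CovZ.n2 (-30696, 2208) (by decide +kernel)
                 (CovZ.leaf K3_ok TB_l37853 _)
                 (CovZ.badM (by decide +kernel)))
                (CovZ.n1 (-30672, 2184) (by decide +kernel)
                 (CovZ.leaf K3_ok TB_l3853 _)
                 (CovZ.n1 (-30684, 2196) (by decide +kernel)
                  (CovZ.leaf K3_ok TB_l37856 _)
                  (CovZ.leaf K3_ok TB_l37857 _))))))))))
         (CovZ.n1 (-30624, 2016) (by decide +kernel)
          (CovZ.n2 (-30720, 2016) (by decide +kernel)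
           (CovZ.n2 (-30672, 2064) (by decide +kernel)
            (CovZ.n2 (-30672, 2016) (by decide +kernel)
             (CovZ.n2 (-30696, 2040) (by decide +kernel)
              (CovZ.leaf K3_ok TB_l3854 _)
              (CovZ.leaf K3_ok TB_l3855 _))
             (CovZ.n1 (-30648, 2040) (by decide +kernel)
              (CovZ.leaf K3_ok TB_l3856 _)
              (CovZ.leaf K3_ok TB_l3857 _)))
            (CovZ.subM 8196114235863835769315980316141134304027307515624445749580600646726490965992331716924140718268863692232011891351017837124560660622405274555121664 (by decide +kernel)
             (CovZ.n1 (-30720, 2064) (by decide +kernel)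
              (CovZ.subM 6243497100632006644120752751998045418449204868771990649846882806280802406617011086674661183003959068294696825339308148012543116059662697541664768 (by decide +kernel)
               (CovZ.n2 (-30696, 2088) (by decide +kernel)
                (CovZ.n2 (-30696, 2064) (by decide +kernel)
                 (CovZ.leaf K3_ok TB_l3858 _)
                 (CovZ.leaf K3_ok TB_l3859 _))
                (CovZ.n1 (-30720, 2088) (by decide +kernel)
                 (CovZ.leaf K3_ok TB_l3860 _)
                 (CovZ.leaf K3_ok TB_l3861 _))))
              (CovZ.n1 (-30696, 2040) (by decide +kernel)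
               (CovZ.leaf K3_ok TB_l3862 _)
               (CovZ.n1 (-30696, 2064) (by decide +kernel)
                (CovZ.leaf K3_ok TB_l3863 _)
                (CovZ.leaf K3_ok TB_l3864 _))))))
           (CovZ.n1 (-30672, 1968) (by decide +kernel)
            (CovZ.subM 8196114235863835769315980316138671678640032860673678309574341670863673482287927626507393949931098334621293315687804445483630353394854860306251778 (by decide +kernel)
             (CovZ.n2 (-30720, 1968) (by decide +kernel)
              (CovZ.n2 (-30696, 1992) (by decide +kernel)
               (CovZ.leaf K3_ok TB_l3865 _)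
               (CovZ.leaf K3_ok TB_l3866 _))
              (CovZ.n1 (-30696, 1944) (by decide +kernel)
               (CovZ.leaf K3_ok TB_l3867 _)
               (CovZ.leaf K3_ok TB_l3868 _))))
            (CovZ.n1 (-30672, 2016) (by decide +kernel)
             (CovZ.n2 (-30648, 1992) (by decide +kernel)
              (CovZ.leaf K3_ok TB_l3869 _)
              (CovZ.leaf K3_ok TB_l3870 _))
             (CovZ.n1 (-30696, 1992) (by decide +kernel)
              (CovZ.n2 (-30696, 2016) (by decide +kernel)
               (CovZ.leaf K3_ok TB_l3871 _)
               (CovZ.leaf K3_ok TB_l3872 _))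
              (CovZ.leaf K3_ok TB_l3873 _)))))
          (CovZ.n1 (-30624, 2112) (by decide +kernel)
           (CovZ.n2 (-30576, 2064) (by decide +kernel)
            (CovZ.n2 (-30624, 2064) (by decide +kernel)
             (CovZ.n2 (-30600, 2088) (by decide +kernel)
              (CovZ.n2 (-30600, 2064) (by decide +kernel)
               (CovZ.leaf K3_ok TB_l3874 _)
               (CovZ.leaf K3_ok TB_l3875 _))
              (CovZ.leaf K3_ok TB_l3876 _))
             (CovZ.n1 (-30600, 2040) (by decide +kernel)
              (CovZ.leaf K3_ok TB_l3877 _)
              (CovZ.n1 (-30600, 2064) (by decide +kernel)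
               (CovZ.leaf K3_ok TB_l3878 _)
               (CovZ.leaf K3_ok TB_l3879 _))))
            (CovZ.n1 (-30576, 2112) (by decide +kernel)
             (CovZ.n2 (-30552, 2088) (by decide +kernel)
              (CovZ.leaf K3_ok TB_l3880 _)
              (CovZ.n1 (-30552, 2112) (by decide +kernel)
               (CovZ.leaf K3_ok TB_l3881 _)
               (CovZ.leaf K3_ok TB_l3882 _)))
             (CovZ.n1 (-30600, 2088) (by decide +kernel)
              (CovZ.n2 (-30600, 2112) (by decide +kernel)
               (CovZ.leaf K3_ok TB_l3883 _)
               (CovZ.leaf K3_ok TB_l3884 _))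
              (CovZ.leaf K3_ok TB_l3885 _))))
           (CovZ.n1 (-30672, 2064) (by decide +kernel)
            (CovZ.subM 56191473905687887302424684703684417387007613750087704220385341367290938595863339767884958585621285187182589356272223598163709944640305561335758848 (by decide +kernel)
             (CovZ.n2 (-30672, 2112) (by decide +kernel)
              (CovZ.n2 (-30648, 2088) (by decide +kernel)
               (CovZ.leaf K3_ok TB_l3886 _)
               (CovZ.n1 (-30648, 2112) (by decide +kernel)
                (CovZ.leaf K3_ok TB_l3887 _)
                (CovZ.leaf K3_ok TB_l3888 _)))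
              (CovZ.subM 6243497100632006644120752751998045418449204868771990649846882806280802406617011086674661183003959068294696825339308148012543116059662697541664768 (by decide +kernel)
               (CovZ.n1 (-30696, 2088) (by decide +kernel)
                (CovZ.n2 (-30696, 2112) (by decide +kernel)
                 (CovZ.leaf K3_ok TB_l3889 _)
                 (CovZ.leaf K3_ok TB_l3890 _))
                (CovZ.n1 (-30672, 2088) (by decide +kernel)
                 (CovZ.leaf K3_ok TB_l3891 _)
                 (CovZ.leaf K3_ok TB_l3892 _))))))
            (CovZ.n1 (-30624, 2064) (by decide +kernel)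
             (CovZ.n2 (-30648, 2040) (by decide +kernel)
              (CovZ.leaf K3_ok TB_l3893 _)
              (CovZ.leaf K3_ok TB_l3894 _))
             (CovZ.n1 (-30648, 2088) (by decide +kernel)
              (CovZ.leaf K3_ok TB_l3895 _)
              (CovZ.leaf K3_ok TB_l3896 _)))))))

theorem TB_u104 : CovZ TB_M (toL (selN TB_LN 58147139623488390111692969858625832496179376574481365444791857519652492211733773430350451298799544381895676962809349602283910673158885313419411458)) [0, 7, 6, 1] (-30720, 2304) (-30528, 2112) (-30336, 2304) :=
    (CovZ.n2 (-30528, 2304) (by decide +kernel)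
         (CovZ.n2 (-30432, 2208) (by decide +kernel)
          (CovZ.n2 (-30528, 2208) (by decide +kernel)
           (CovZ.subM 49951025387624543760830298365675430008667496718721715816671298980074811440110548901066200679264418142200041099964869813929240382283409181842079744 (by decide +kernel)
            (CovZ.n2 (-30480, 2256) (by decide +kernel)
             (CovZ.n2 (-30480, 2208) (by decide +kernel)
              (CovZ.n2 (-30504, 2232) (by decide +kernel)
               (CovZ.badM (by decide +kernel))
               (CovZ.n1 (-30504, 2208) (by decide +kernel)
                (CovZ.n2 (-30516, 2220) (by decide +kernel)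
                 (CovZ.leaf K3_ok TB_l49808 _)
                 (CovZ.leaf K3_ok TB_l49809 _))
                (CovZ.n1 (-30492, 2220) (by decide +kernel)
                 (CovZ.leaf K3_ok TB_l49810 _)
                 (CovZ.leaf K3_ok TB_l49811 _))))
              (CovZ.badM (by decide +kernel)))
             (CovZ.badM (by decide +kernel))))
           (CovZ.n1 (-30480, 2160) (by decide +kernel)
            (CovZ.n2 (-30528, 2160) (by decide +kernel)
             (CovZ.n2 (-30504, 2184) (by decide +kernel)
              (CovZ.n2 (-30504, 2160) (by decide +kernel)
               (CovZ.leaf K3_ok TB_l4025 _)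
               (CovZ.n1 (-30492, 2172) (by decide +kernel)
                (CovZ.leaf K3_ok TB_l4026 _)
                (CovZ.leaf K3_ok TB_l4027 _)))
              (CovZ.n1 (-30528, 2184) (by decide +kernel)
               (CovZ.leaf K3_ok TB_l4028 _)
               (CovZ.leaf K3_ok TB_l4029 _)))
             (CovZ.n1 (-30504, 2136) (by decide +kernel)
              (CovZ.n2 (-30528, 2136) (by decide +kernel)
               (CovZ.leaf K3_ok TB_l4030 _)
               (CovZ.leaf K3_ok TB_l4031 _))
              (CovZ.n1 (-30504, 2160) (by decide +kernel)
               (CovZ.leaf K3_ok TB_l4032 _)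
               (CovZ.leaf K3_ok TB_l4033 _))))
            (CovZ.n1 (-30480, 2208) (by decide +kernel)
             (CovZ.n2 (-30456, 2184) (by decide +kernel)
              (CovZ.n2 (-30480, 2184) (by decide +kernel)
               (CovZ.n2 (-30468, 2196) (by decide +kernel)
                (CovZ.leaf K3_ok TB_l37883 _)
                (CovZ.leaf K3_ok TB_l37884 _))
               (CovZ.n1 (-30468, 2172) (by decide +kernel)
                (CovZ.leaf K3_ok TB_l4034 _)
                (CovZ.leaf K3_ok TB_l4035 _)))
              (CovZ.n1 (-30456, 2208) (by decide +kernel)
               (CovZ.badM (by decide +kernel))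
               (CovZ.n1 (-30468, 2196) (by decide +kernel)
                (CovZ.badM (by decide +kernel))
                (CovZ.leaf K3_ok TB_l37885 _))))
             (CovZ.n1 (-30504, 2184) (by decide +kernel)
              (CovZ.subM 49951025387624576523562668027726505287678098841022432700466746641389616373043090332681722851069841943377916740218283791608250075538988135815839744 (by decide +kernel)
               (CovZ.n2 (-30504, 2208) (by decide +kernel)
                (CovZ.n2 (-30492, 2196) (by decide +kernel)
                 (CovZ.leaf K3_ok TB_l4036 _)
                 (CovZ.leaf K3_ok TB_l37886 _))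
                (CovZ.n1 (-30516, 2196) (by decide +kernel)
                 (CovZ.leaf K3_ok TB_l37887 _)
                 (CovZ.leaf K3_ok TB_l4037 _))))
              (CovZ.n1 (-30480, 2184) (by decide +kernel)
               (CovZ.n2 (-30492, 2172) (by decide +kernel)
                (CovZ.leaf K3_ok TB_l4038 _)
                (CovZ.leaf K3_ok TB_l4039 _))
               (CovZ.n1 (-30492, 2196) (by decide +kernel)
                (CovZ.leaf K3_ok TB_l37888 _)
                (CovZ.leaf K3_ok TB_l4040 _)))))))
          (CovZ.badM (by decide +kernel)))
         (CovZ.n1 (-30624, 2208) (by decide +kernel)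
          (CovZ.subM 869219854555174121610613418450764369118402511978959449272173092492620261386816116675783740121232383501012961515799293698179596288 (by decide +kernel)
           (CovZ.n2 (-30624, 2304) (by decide +kernel)
            (CovZ.n2 (-30576, 2256) (by decide +kernel)
             (CovZ.n2 (-30624, 2256) (by decide +kernel)
              (CovZ.n2 (-30600, 2280) (by decide +kernel)
               (CovZ.n2 (-30600, 2256) (by decide +kernel)
                (CovZ.badM (by decide +kernel))
                (CovZ.badM (by decide +kernel)))
               (CovZ.badM (by decide +kernel)))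
              (CovZ.n1 (-30600, 2232) (by decide +kernel)
               (CovZ.n2 (-30624, 2232) (by decide +kernel)
                (CovZ.n2 (-30612, 2244) (by decide +kernel)
                 (CovZ.leaf K3_ok TB_l48410 _)
                 (CovZ.leaf K3_ok TB_l48411 _))
                (CovZ.n1 (-30612, 2220) (by decide +kernel)
                 (CovZ.leaf K3_ok TB_l37889 _)
                 (CovZ.leaf K3_ok TB_l37890 _)))
               (CovZ.subM 5245195064864033072738585818131117869732214891684360260437276817973190482221708676591467123850279970104178318069643345920 (by decide +kernel)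
                (CovZ.n1 (-30600, 2256) (by decide +kernel)
                 (CovZ.n2 (-30588, 2244) (by decide +kernel)
                  (CovZ.leaf K3_ok TB_l48412 _)
                  (CovZ.badM (by decide +kernel)))
                 (CovZ.n1 (-30612, 2244) (by decide +kernel)
                  (CovZ.badM (by decide +kernel))
                  (CovZ.leaf K3_ok TB_l48413 _))))))
             (CovZ.badM (by decide +kernel)))
            (CovZ.n1 (-30672, 2256) (by decide +kernel)
             (CovZ.n2 (-30672, 2304) (by decide +kernel)
              (CovZ.n2 (-30648, 2280) (by decide +kernel)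
               (CovZ.badM (by decide +kernel))
               (CovZ.badM (by decide +kernel)))
              (CovZ.badM (by decide +kernel)))
             (CovZ.n1 (-30624, 2256) (by decide +kernel)
              (CovZ.n2 (-30648, 2232) (by decide +kernel)
               (CovZ.subM 5174586669760094165990181778271660513793511998911686180008313476192782148807185675175812758721526201275852840711013531648 (by decide +kernel)
                (CovZ.n2 (-30648, 2256) (by decide +kernel)
                 (CovZ.n2 (-30636, 2244) (by decide +kernel)
                  (CovZ.leaf K3_ok TB_l48414 _)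
                  (CovZ.leaf K3_ok TB_l48415 _))
                 (CovZ.n1 (-30660, 2244) (by decide +kernel)
                  (CovZ.badM (by decide +kernel))
                  (CovZ.leaf K3_ok TB_l48416 _))))
               (CovZ.n1 (-30624, 2232) (by decide +kernel)
                (CovZ.n2 (-30636, 2220) (by decide +kernel)
                 (CovZ.leaf K3_ok TB_l37891 _)
                 (CovZ.leaf K3_ok TB_l37892 _))
                (CovZ.n1 (-30636, 2244) (by decide +kernel)
                 (CovZ.leaf K3_ok TB_l48417 _)
                 (CovZ.leaf K3_ok TB_l48418 _))))
              (CovZ.n1 (-30648, 2280) (by decide +kernel)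
               (CovZ.badM (by decide +kernel))
               (CovZ.n1 (-30648, 2256) (by decide +kernel)
                (CovZ.badM (by decide +kernel))
                (CovZ.badM (by decide +kernel))))))))
          (CovZ.n1 (-30528, 2208) (by decide +kernel)
           (CovZ.n2 (-30576, 2160) (by decide +kernel)
            (CovZ.n2 (-30576, 2208) (by decide +kernel)
             (CovZ.n2 (-30552, 2184) (by decide +kernel)
              (CovZ.n2 (-30576, 2184) (by decide +kernel)
               (CovZ.n2 (-30564, 2196) (by decide +kernel)
                (CovZ.leaf K3_ok TB_l4041 _)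
                (CovZ.leaf K3_ok TB_l4042 _))
               (CovZ.n1 (-30564, 2172) (by decide +kernel)
                (CovZ.leaf K3_ok TB_l4043 _)
                (CovZ.leaf K3_ok TB_l4044 _)))
              (CovZ.subM 56194522488256560899679939801319351987661058038118256702306842231909047857674947745481584413510280955330026381133955475790214201855072984778145792 (by decide +kernel)
               (CovZ.n1 (-30552, 2208) (by decide +kernel)
                (CovZ.n2 (-30540, 2196) (by decide +kernel)
                 (CovZ.leaf K3_ok TB_l4045 _)
                 (CovZ.leaf K3_ok TB_l4046 _))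
                (CovZ.n1 (-30564, 2196) (by decide +kernel)
                 (CovZ.leaf K3_ok TB_l4047 _)
                 (CovZ.leaf K3_ok TB_l4048 _)))))
             (CovZ.n1 (-30600, 2184) (by decide +kernel)
              (CovZ.subM 49947976805055902744847555398010315621374985902751987134513731301287460259155231479565959390175847482402960902500433742209616554711051356203909120 (by decide +kernel)
               (CovZ.n2 (-30600, 2208) (by decide +kernel)
                (CovZ.n2 (-30588, 2196) (by decide +kernel)
                 (CovZ.leaf K3_ok TB_l4049 _)
                 (CovZ.leaf K3_ok TB_l4050 _))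
                (CovZ.n1 (-30612, 2196) (by decide +kernel)
                 (CovZ.leaf K3_ok TB_l4051 _)
                 (CovZ.leaf K3_ok TB_l4052 _))))
              (CovZ.n1 (-30576, 2184) (by decide +kernel)
               (CovZ.leaf K3_ok TB_l4053 _)
               (CovZ.n1 (-30588, 2196) (by decide +kernel)
                (CovZ.leaf K3_ok TB_l4054 _)
                (CovZ.leaf K3_ok TB_l4055 _)))))
            (CovZ.n1 (-30528, 2160) (by decide +kernel)
             (CovZ.n2 (-30552, 2136) (by decide +kernel)
              (CovZ.n2 (-30552, 2160) (by decide +kernel)
               (CovZ.leaf K3_ok TB_l4056 _)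
               (CovZ.n1 (-30564, 2148) (by decide +kernel)
                (CovZ.leaf K3_ok TB_l4057 _)
                (CovZ.leaf K3_ok TB_l4058 _)))
              (CovZ.n1 (-30528, 2136) (by decide +kernel)
               (CovZ.leaf K3_ok TB_l4059 _)
               (CovZ.leaf K3_ok TB_l4060 _)))
             (CovZ.n1 (-30552, 2184) (by decide +kernel)
              (CovZ.n2 (-30528, 2184) (by decide +kernel)
               (CovZ.n2 (-30540, 2172) (by decide +kernel)
                (CovZ.leaf K3_ok TB_l4061 _)
                (CovZ.leaf K3_ok TB_l4062 _))
               (CovZ.n1 (-30540, 2196) (by decide +kernel)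
                (CovZ.leaf K3_ok TB_l4063 _)
                (CovZ.leaf K3_ok TB_l4064 _)))
              (CovZ.n1 (-30552, 2160) (by decide +kernel)
               (CovZ.leaf K3_ok TB_l4065 _)
               (CovZ.leaf K3_ok TB_l4066 _)))))
           (CovZ.subM 6243497100631985331983049014760454222110614736094311420120825898210192749812623732860873592943100618103393983475196746803857467157870268792176640 (by decide +kernel)
            (CovZ.n1 (-30576, 2256) (by decide +kernel)
             (CovZ.badM (by decide +kernel))
             (CovZ.n1 (-30576, 2208) (by decide +kernel)
              (CovZ.n2 (-30600, 2232) (by decide +kernel)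
               (CovZ.subM 693220313262988913232830909908327530055197414534611305635238657732687608540136848693695245166290987360591420239792764444150333440 (by decide +kernel)
                (CovZ.n2 (-30576, 2232) (by decide +kernel)
                 (CovZ.n2 (-30588, 2220) (by decide +kernel)
                  (CovZ.leaf K3_ok TB_l48419 _)
                  (CovZ.leaf K3_ok TB_l37893 _))
                 (CovZ.n1 (-30588, 2244) (by decide +kernel)
                  (CovZ.leaf K3_ok TB_l48420 _)
                  (CovZ.leaf K3_ok TB_l48421 _))))
               (CovZ.n1 (-30600, 2208) (by decide +kernel)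
                (CovZ.n2 (-30612, 2220) (by decide +kernel)
                 (CovZ.leaf K3_ok TB_l4067 _)
                 (CovZ.leaf K3_ok TB_l4068 _))
                (CovZ.n1 (-30588, 2220) (by decide +kernel)
                 (CovZ.leaf K3_ok TB_l4069 _)
                 (CovZ.leaf K3_ok TB_l4070 _))))
              (CovZ.n1 (-30552, 2232) (by decide +kernel)
               (CovZ.n2 (-30552, 2208) (by decide +kernel)
                (CovZ.n2 (-30564, 2220) (by decide +kernel)
                 (CovZ.badM (by decide +kernel))
                 (CovZ.leaf K3_ok TB_l37894 _))
                (CovZ.badM (by decide +kernel)))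
               (CovZ.subM 693220313262988913232830909908327530055197414534611305635238657732687608540136848693695245166290987360591420239792764444150333440 (by decide +kernel)
                (CovZ.n1 (-30576, 2232) (by decide +kernel)
                 (CovZ.n2 (-30564, 2244) (by decide +kernel)
                  (CovZ.leaf K3_ok TB_l48422 _)
                  (CovZ.leaf K3_ok TB_l48423 _))
                 (CovZ.n1 (-30564, 2220) (by decide +kernel)
                  (CovZ.leaf K3_ok TB_l37895 _)
                  (CovZ.leaf K3_ok TB_l48424 _)))))))))))

end Pool.Agent.TET
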