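import Pool.Agent.Helper38_TET.TB_M
import Pool.Agent.Helper38_TET.TB_L
import Pool.Agent.Helper38_TET.TB_25
import Pool.Agent.Helper38_TET.TB_26
import Pool.Agent.Helper38_TET.TB_27
import Pool.Agent.Helper38_TET.TB_42
import Pool.Agent.Helper38_TET.TB_43
import Pool.Agent.Helper38_TET.TB_44
import Pool.Agent.Helper38_TET.TB_45
import Pool.Agent.Helper38_TET.TB_46
import Pool.Agent.Helper38_TET.TB_47
import Pool.Agent.Helper38_TET.TB_48
import Pool.Agent.Helper38_TET.TB_252
import Pool.Agent.Helper38_TET.TB_253
import Pool.Agent.Helper38_TET.TB_256
import Pool.Agent.Helper38_TET.TB_257
import Pool.Agent.Helper38_TET.TB_323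
import Pool.Agent.Helper38_TET.TB_333
import Pool.Agent.Helper38_TET.TB_U6

/-!
# MP_c7c9bf_co: certificates, family TB
-/

set_option autoImplicit false
set_option maxRecDepth 100000

namespace Pool.Agent.TET

theorem TB_u105 : CovZ TB_M (toL (selN TB_LN 58147139623488390111692969858625832496179376574481365444791857519652492211733773430350451298799544381895676962809349602283910673158885313419411458)) [0, 7, 6, 1] (-30528, 2112) (-30336, 1920) (-30336, 2304) :=
    (CovZ.n1 (-30336, 2112) (by decide +kernel)
         (CovZ.n2 (-30432, 2016) (by decide +kernel)
          (CovZ.n2 (-30432, 2112) (by decide +kernel)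
           (CovZ.n2 (-30384, 2064) (by decide +kernel)
            (CovZ.n2 (-30432, 2064) (by decide +kernel)
             (CovZ.n2 (-30408, 2088) (by decide +kernel)
              (CovZ.n2 (-30408, 2064) (by decide +kernel)
               (CovZ.leaf K3_ok TB_l4071 _)
               (CovZ.leaf K3_ok TB_l4072 _))
              (CovZ.n1 (-30432, 2088) (by decide +kernel)
               (CovZ.leaf K3_ok TB_l4073 _)
               (CovZ.leaf K3_ok TB_l4074 _)))
             (CovZ.n1 (-30408, 2040) (by decide +kernel)
              (CovZ.leaf K3_ok TB_l4075 _)
              (CovZ.n1 (-30408, 2064) (by decide +kernel)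
               (CovZ.leaf K3_ok TB_l4076 _)
               (CovZ.leaf K3_ok TB_l4077 _))))
            (CovZ.subM 49951025387624552952995996497198956794144786846667728393520873528881349280693294467053621937867020538192103600238919680534234036582879912204959744 (by decide +kernel)
             (CovZ.n1 (-30384, 2112) (by decide +kernel)
              (CovZ.n2 (-30360, 2088) (by decide +kernel)
               (CovZ.n2 (-30384, 2088) (by decide +kernel)
                (CovZ.n2 (-30372, 2100) (by decide +kernel)
                 (CovZ.leaf K3_ok TB_l4078 _)
                 (CovZ.leaf K3_ok TB_l4079 _))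
                (CovZ.leaf K3_ok TB_l4080 _))
               (CovZ.n1 (-30360, 2112) (by decide +kernel)
                (CovZ.n2 (-30348, 2100) (by decide +kernel)
                 (CovZ.leaf K3_ok TB_l4081 _)
                 (CovZ.leaf K3_ok TB_l4082 _))
                (CovZ.n1 (-30372, 2100) (by decide +kernel)
                 (CovZ.leaf K3_ok TB_l4083 _)
                 (CovZ.leaf K3_ok TB_l4084 _))))
              (CovZ.n1 (-30408, 2088) (by decide +kernel)
               (CovZ.n2 (-30408, 2112) (by decide +kernel)
                (CovZ.leaf K3_ok TB_l4085 _)
                (CovZ.leaf K3_ok TB_l4086 _))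
               (CovZ.n1 (-30384, 2088) (by decide +kernel)
                (CovZ.leaf K3_ok TB_l4087 _)
                (CovZ.leaf K3_ok TB_l4088 _))))))
           (CovZ.n1 (-30480, 2064) (by decide +kernel)
            (CovZ.n2 (-30480, 2112) (by decide +kernel)
             (CovZ.n2 (-30456, 2088) (by decide +kernel)
              (CovZ.leaf K3_ok TB_l4089 _)
              (CovZ.n1 (-30456, 2112) (by decide +kernel)
               (CovZ.leaf K3_ok TB_l4090 _)
               (CovZ.leaf K3_ok TB_l4091 _)))
             (CovZ.n1 (-30504, 2088) (by decide +kernel)
              (CovZ.n2 (-30504, 2112) (by decide +kernel)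
               (CovZ.leaf K3_ok TB_l4092 _)
               (CovZ.leaf K3_ok TB_l4093 _))
              (CovZ.leaf K3_ok TB_l4094 _)))
            (CovZ.n1 (-30432, 2064) (by decide +kernel)
             (CovZ.n2 (-30456, 2040) (by decide +kernel)
              (CovZ.n2 (-30456, 2064) (by decide +kernel)
               (CovZ.leaf K3_ok TB_l4095 _)
               (CovZ.leaf K3_ok TB_l4096 _))
              (CovZ.leaf K3_ok TB_l4097 _))
             (CovZ.n1 (-30456, 2088) (by decide +kernel)
              (CovZ.n2 (-30432, 2088) (by decide +kernel)
               (CovZ.leaf K3_ok TB_l4098 _)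
               (CovZ.leaf K3_ok TB_l4099 _))
              (CovZ.n1 (-30456, 2064) (by decide +kernel)
               (CovZ.leaf K3_ok TB_l4100 _)
               (CovZ.leaf K3_ok TB_l4101 _))))))
          (CovZ.n1 (-30336, 2016) (by decide +kernel)
           (CovZ.n2 (-30384, 1968) (by decide +kernel)
            (CovZ.n2 (-30384, 2016) (by decide +kernel)
             (CovZ.n2 (-30360, 1992) (by decide +kernel)
              (CovZ.leaf K3_ok TB_l4102 _)
              (CovZ.n1 (-30360, 2016) (by decide +kernel)
               (CovZ.leaf K2_ok TB_l4103 _)
               (CovZ.leaf K3_ok TB_l4104 _)))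
             (CovZ.n1 (-30408, 1992) (by decide +kernel)
              (CovZ.leaf K3_ok TB_l4105 _)
              (CovZ.leaf K3_ok TB_l4106 _)))
            (CovZ.subM 3048582568676552307646793972401859562305669902036322386532485160687581441523899161305610659517161633791979545920040654438807214882758085050370 (by decide +kernel)
             (CovZ.n1 (-30336, 1968) (by decide +kernel)
              (CovZ.n2 (-30360, 1944) (by decide +kernel)
               (CovZ.leaf K2_ok TB_l4107 _)
               (CovZ.leaf K2_ok TB_l4108 _))
              (CovZ.n1 (-30360, 1992) (by decide +kernel)
               (CovZ.leaf K2_ok TB_l4109 _)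
               (CovZ.n1 (-30360, 1968) (by decide +kernel)
                (CovZ.leaf K3_ok TB_l4110 _)
                (CovZ.leaf K2_ok TB_l4111 _))))))
           (CovZ.n1 (-30384, 2064) (by decide +kernel)
            (CovZ.subM 3048582568676552307646148409932337835158255922243321633563902734239374135645691496466475497611657423493322134581720619980948239089764898177024 (by decide +kernel)
             (CovZ.n2 (-30336, 2064) (by decide +kernel)
              (CovZ.n2 (-30360, 2040) (by decide +kernel)
               (CovZ.n2 (-30360, 2064) (by decide +kernel)
                (CovZ.leaf K3_ok TB_l4112 _)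
                (CovZ.leaf K3_ok TB_l4113 _))
               (CovZ.n1 (-30336, 2040) (by decide +kernel)
                (CovZ.leaf K2_ok TB_l4114 _)
                (CovZ.leaf K3_ok TB_l4115 _)))
              (CovZ.n1 (-30360, 2088) (by decide +kernel)
               (CovZ.n2 (-30336, 2088) (by decide +kernel)
                (CovZ.leaf K3_ok TB_l4116 _)
                (CovZ.leaf K3_ok TB_l4117 _))
               (CovZ.n1 (-30360, 2064) (by decide +kernel)
                (CovZ.leaf K3_ok TB_l4118 _)
                (CovZ.leaf K3_ok TB_l4119 _)))))
            (CovZ.n1 (-30384, 2016) (by decide +kernel)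
             (CovZ.n2 (-30408, 2040) (by decide +kernel)
              (CovZ.leaf K3_ok TB_l4120 _)
              (CovZ.n1 (-30408, 2016) (by decide +kernel)
               (CovZ.leaf K3_ok TB_l4121 _)
               (CovZ.leaf K3_ok TB_l4122 _)))
             (CovZ.n1 (-30360, 2040) (by decide +kernel)
              (CovZ.n2 (-30360, 2016) (by decide +kernel)
               (CovZ.leaf K3_ok TB_l4123 _)
               (CovZ.leaf K3_ok TB_l4124 _))
              (CovZ.leaf K3_ok TB_l4125 _))))))
         (CovZ.n1 (-30432, 2208) (by decide +kernel)
          (CovZ.subM 6412726790234647138445791359138283506426179901502908861524083328733096595904068340897054134307298396771089452418737369953647722496 (by decide +kernel)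
           (CovZ.n2 (-30336, 2208) (by decide +kernel)
            (CovZ.n2 (-30384, 2160) (by decide +kernel)
             (CovZ.subM 173463730434517659997158448102406577455339248632032226027414317458937820598719299191089006874450588032562883568945792610537046016 (by decide +kernel)
              (CovZ.n2 (-30384, 2208) (by decide +kernel)
               (CovZ.n2 (-30360, 2184) (by decide +kernel)
                (CovZ.n2 (-30384, 2184) (by decide +kernel)
                 (CovZ.badM (by decide +kernel))
                 (CovZ.n1 (-30372, 2172) (by decide +kernel)
                  (CovZ.leaf K3_ok TB_l37896 _)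
                  (CovZ.leaf K3_ok TB_l37897 _)))
                (CovZ.badM (by decide +kernel)))
               (CovZ.n1 (-30408, 2184) (by decide +kernel)
                (CovZ.badM (by decide +kernel))
                (CovZ.n1 (-30384, 2184) (by decide +kernel)
                 (CovZ.n2 (-30396, 2172) (by decide +kernel)
                  (CovZ.leaf K3_ok TB_l37898 _)
                  (CovZ.leaf K3_ok TB_l37899 _))
                 (CovZ.badM (by decide +kernel))))))
             (CovZ.n1 (-30336, 2160) (by decide +kernel)
              (CovZ.n2 (-30360, 2136) (by decide +kernel)
               (CovZ.n2 (-30360, 2160) (by decide +kernel)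
                (CovZ.n2 (-30348, 2148) (by decide +kernel)
                 (CovZ.leaf K3_ok TB_l4126 _)
                 (CovZ.leaf K3_ok TB_l37900 _))
                (CovZ.n1 (-30372, 2148) (by decide +kernel)
                 (CovZ.leaf K3_ok TB_l37901 _)
                 (CovZ.leaf K3_ok TB_l4127 _)))
               (CovZ.n1 (-30336, 2136) (by decide +kernel)
                (CovZ.leaf K3_ok TB_l4128 _)
                (CovZ.n1 (-30348, 2148) (by decide +kernel)
                 (CovZ.leaf K3_ok TB_l37902 _)
                 (CovZ.leaf K3_ok TB_l4129 _))))
              (CovZ.subM 173463730434515197371771173447455810015332989656169408543709913368521073830381533833478288298787374640921953261718242196287651840 (by decide +kernel)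
               (CovZ.n1 (-30360, 2184) (by decide +kernel)
                (CovZ.badM (by decide +kernel))
                (CovZ.n1 (-30360, 2160) (by decide +kernel)
                 (CovZ.n2 (-30372, 2172) (by decide +kernel)
                  (CovZ.leaf K3_ok TB_l37903 _)
                  (CovZ.leaf K3_ok TB_l37904 _))
                 (CovZ.n1 (-30348, 2172) (by decide +kernel)
                  (CovZ.leaf K3_ok TB_l37905 _)
                  (CovZ.leaf K3_ok TB_l37906 _)))))))
            (CovZ.badM (by decide +kernel))))
          (CovZ.n1 (-30432, 2112) (by decide +kernel)
           (CovZ.n2 (-30480, 2160) (by decide +kernel)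
            (CovZ.n2 (-30432, 2160) (by decide +kernel)
             (CovZ.n2 (-30456, 2136) (by decide +kernel)
              (CovZ.n2 (-30456, 2160) (by decide +kernel)
               (CovZ.leaf K3_ok TB_l4130 _)
               (CovZ.leaf K3_ok TB_l4131 _))
              (CovZ.n1 (-30432, 2136) (by decide +kernel)
               (CovZ.leaf K3_ok TB_l4132 _)
               (CovZ.n1 (-30444, 2148) (by decide +kernel)
                (CovZ.leaf K3_ok TB_l4133 _)
                (CovZ.leaf K3_ok TB_l4134 _))))
             (CovZ.n1 (-30456, 2184) (by decide +kernel)
              (CovZ.n2 (-30432, 2184) (by decide +kernel)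
               (CovZ.n2 (-30444, 2172) (by decide +kernel)
                (CovZ.leaf K3_ok TB_l37907 _)
                (CovZ.leaf K3_ok TB_l4135 _))
               (CovZ.badM (by decide +kernel)))
              (CovZ.n1 (-30456, 2160) (by decide +kernel)
               (CovZ.n2 (-30468, 2172) (by decide +kernel)
                (CovZ.leaf K3_ok TB_l4136 _)
                (CovZ.leaf K3_ok TB_l4137 _))
               (CovZ.leaf K3_ok TB_l4138 _))))
            (CovZ.n1 (-30480, 2112) (by decide +kernel)
             (CovZ.n2 (-30504, 2136) (by decide +kernel)
              (CovZ.n2 (-30480, 2136) (by decide +kernel)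
               (CovZ.leaf K3_ok TB_l4139 _)
               (CovZ.leaf K3_ok TB_l4140 _))
              (CovZ.n1 (-30504, 2112) (by decide +kernel)
               (CovZ.leaf K3_ok TB_l4141 _)
               (CovZ.leaf K3_ok TB_l4142 _)))
             (CovZ.n1 (-30456, 2136) (by decide +kernel)
              (CovZ.n2 (-30456, 2112) (by decide +kernel)
               (CovZ.leaf K3_ok TB_l4143 _)
               (CovZ.leaf K3_ok TB_l4144 _))
              (CovZ.n1 (-30480, 2136) (by decide +kernel)
               (CovZ.leaf K3_ok TB_l4145 _)
               (CovZ.leaf K3_ok TB_l4146 _)))))
           (CovZ.subM 49951025387624552952995996497198956794144786846667728393520873528881349280693294467053621937867020538192103600238919680534234036582879912204959744 (by decide +kernel)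
            (CovZ.n1 (-30384, 2160) (by decide +kernel)
             (CovZ.n2 (-30384, 2112) (by decide +kernel)
              (CovZ.n2 (-30408, 2136) (by decide +kernel)
               (CovZ.n2 (-30384, 2136) (by decide +kernel)
                (CovZ.leaf K3_ok TB_l4147 _)
                (CovZ.leaf K3_ok TB_l4148 _))
               (CovZ.n1 (-30408, 2112) (by decide +kernel)
                (CovZ.leaf K3_ok TB_l4149 _)
                (CovZ.leaf K3_ok TB_l4150 _)))
              (CovZ.n1 (-30360, 2136) (by decide +kernel)
               (CovZ.n2 (-30360, 2112) (by decide +kernel)
                (CovZ.leaf K3_ok TB_l4151 _)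
                (CovZ.leaf K3_ok TB_l4152 _))
               (CovZ.n1 (-30384, 2136) (by decide +kernel)
                (CovZ.n2 (-30372, 2148) (by decide +kernel)
                 (CovZ.leaf K3_ok TB_l4153 _)
                 (CovZ.leaf K3_ok TB_l4154 _))
                (CovZ.n1 (-30372, 2124) (by decide +kernel)
                 (CovZ.leaf K3_ok TB_l4155 _)
                 (CovZ.leaf K3_ok TB_l4156 _)))))
             (CovZ.n1 (-30432, 2160) (by decide +kernel)
              (CovZ.n2 (-30408, 2184) (by decide +kernel)
               (CovZ.n2 (-30408, 2160) (by decide +kernel)
                (CovZ.n2 (-30420, 2172) (by decide +kernel)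
                 (CovZ.leaf K3_ok TB_l37908 _)
                 (CovZ.leaf K3_ok TB_l4157 _))
                (CovZ.n1 (-30396, 2172) (by decide +kernel)
                 (CovZ.leaf K3_ok TB_l37909 _)
                 (CovZ.leaf K3_ok TB_l37910 _)))
               (CovZ.n1 (-30432, 2184) (by decide +kernel)
                (CovZ.badM (by decide +kernel))
                (CovZ.n1 (-30420, 2172) (by decide +kernel)
                 (CovZ.leaf K3_ok TB_l4158 _)
                 (CovZ.leaf K3_ok TB_l37911 _))))
              (CovZ.n1 (-30408, 2136) (by decide +kernel)
               (CovZ.n2 (-30432, 2136) (by decide +kernel)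
                (CovZ.n2 (-30420, 2148) (by decide +kernel)
                 (CovZ.leaf K3_ok TB_l4159 _)
                 (CovZ.leaf K3_ok TB_l4160 _))
                (CovZ.leaf K3_ok TB_l4161 _))
               (CovZ.n1 (-30408, 2160) (by decide +kernel)
                (CovZ.n2 (-30396, 2148) (by decide +kernel)
                 (CovZ.leaf K3_ok TB_l4162 _)
                 (CovZ.leaf K3_ok TB_l4163 _))
                (CovZ.n1 (-30420, 2148) (by decide +kernel)
                 (CovZ.leaf K3_ok TB_l4164 _)
                 (CovZ.leaf K3_ok TB_l4165 _))))))))))

theorem TB_u106 : CovZ TB_M (toL (selN TB_LN 58147139623488390111692969858625832496179376574481365444791857519652492211733773430350451298799544381895676962809349602283910673158885313419411458)) [0, 7, 6, 1] (-30720, 1536) (-30336, 1920) (-30720, 2304) :=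
    (CovZ.n2 (-30720, 1920) (by decide +kernel)
       (CovZ.n2 (-30528, 2112) (by decide +kernel)
        TB_u102
        TB_u103)
       (CovZ.n1 (-30528, 1728) (by decide +kernel)
        (CovZ.n2 (-30720, 1728) (by decide +kernel)
         (CovZ.n2 (-30624, 1824) (by decide +kernel)
          (CovZ.n2 (-30624, 1728) (by decide +kernel)
           (CovZ.n2 (-30672, 1776) (by decide +kernel)
            (CovZ.n2 (-30624, 1776) (by decide +kernel)
             (CovZ.leaf K2_ok TB_l3897 _)
             (CovZ.leaf K2_ok TB_l3898 _))
            (CovZ.n1 (-30672, 1728) (by decide +kernel)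
             (CovZ.leaf K2_ok TB_l3899 _)
             (CovZ.leaf K2_ok TB_l3900 _)))
           (CovZ.n1 (-30576, 1776) (by decide +kernel)
            (CovZ.n2 (-30576, 1728) (by decide +kernel)
             (CovZ.leaf K2_ok TB_l3901 _)
             (CovZ.leaf K2_ok TB_l3902 _))
            (CovZ.n1 (-30624, 1776) (by decide +kernel)
             (CovZ.leaf K2_ok TB_l3903 _)
             (CovZ.leaf K2_ok TB_l3904 _))))
          (CovZ.n1 (-30720, 1824) (by decide +kernel)
           (CovZ.n2 (-30672, 1872) (by decide +kernel)
            (CovZ.n2 (-30672, 1824) (by decide +kernel)
             (CovZ.n2 (-30696, 1848) (by decide +kernel)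
              (CovZ.leaf K2_ok TB_l3905 _)
              (CovZ.leaf K2_ok TB_l3906 _))
             (CovZ.leaf K2_ok TB_l3907 _))
            (CovZ.leaf K2_ok TB_l3908 _))
           (CovZ.n1 (-30672, 1776) (by decide +kernel)
            (CovZ.leaf K2_ok TB_l3909 _)
            (CovZ.n1 (-30672, 1824) (by decide +kernel)
             (CovZ.leaf K2_ok TB_l3910 _)
             (CovZ.leaf K2_ok TB_l3911 _)))))
         (CovZ.n1 (-30624, 1632) (by decide +kernel)
          (CovZ.n2 (-30720, 1632) (by decide +kernel)
           (CovZ.n2 (-30672, 1680) (by decide +kernel)
            (CovZ.leaf K2_ok TB_l3912 _)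
            (CovZ.leaf K2_ok TB_l3913 _))
           (CovZ.n1 (-30672, 1584) (by decide +kernel)
            (CovZ.leaf K2_ok TB_l3914 _)
            (CovZ.leaf K2_ok TB_l3915 _)))
          (CovZ.n1 (-30624, 1728) (by decide +kernel)
           (CovZ.n2 (-30576, 1680) (by decide +kernel)
            (CovZ.leaf K2_ok TB_l3916 _)
            (CovZ.n1 (-30576, 1728) (by decide +kernel)
             (CovZ.leaf K2_ok TB_l3917 _)
             (CovZ.leaf K2_ok TB_l3918 _)))
           (CovZ.n1 (-30672, 1680) (by decide +kernel)
            (CovZ.n2 (-30672, 1728) (by decide +kernel)
             (CovZ.leaf K2_ok TB_l3919 _)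
             (CovZ.leaf K2_ok TB_l3920 _))
            (CovZ.n1 (-30624, 1680) (by decide +kernel)
             (CovZ.leaf K2_ok TB_l3921 _)
             (CovZ.leaf K2_ok TB_l3922 _))))))
        (CovZ.n1 (-30528, 1920) (by decide +kernel)
         (CovZ.n2 (-30432, 1824) (by decide +kernel)
          (CovZ.n2 (-30528, 1824) (by decide +kernel)
           (CovZ.n2 (-30480, 1872) (by decide +kernel)
            (CovZ.n2 (-30480, 1824) (by decide +kernel)
             (CovZ.leaf K2_ok TB_l3923 _)
             (CovZ.leaf K2_ok TB_l3924 _))
            (CovZ.n1 (-30528, 1872) (by decide +kernel)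
             (CovZ.leaf K3_ok TB_l3925 _)
             (CovZ.leaf K2_ok TB_l3926 _)))
           (CovZ.n1 (-30480, 1776) (by decide +kernel)
            (CovZ.leaf K2_ok TB_l3927 _)
            (CovZ.n1 (-30480, 1824) (by decide +kernel)
             (CovZ.leaf K2_ok TB_l3928 _)
             (CovZ.leaf K2_ok TB_l3929 _))))
          (CovZ.n1 (-30432, 1920) (by decide +kernel)
           (CovZ.n2 (-30384, 1872) (by decide +kernel)
            (CovZ.n2 (-30432, 1872) (by decide +kernel)
             (CovZ.leaf K3_ok TB_l3930 _)
             (CovZ.leaf K3_ok TB_l3931 _))
            (CovZ.n1 (-30384, 1920) (by decide +kernel)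
             (CovZ.n2 (-30360, 1896) (by decide +kernel)
              (CovZ.leaf K2_ok TB_l3932 _)
              (CovZ.leaf K2_ok TB_l3933 _))
             (CovZ.n1 (-30408, 1896) (by decide +kernel)
              (CovZ.leaf K3_ok TB_l3934 _)
              (CovZ.leaf K3_ok TB_l3935 _))))
           (CovZ.n1 (-30480, 1872) (by decide +kernel)
            (CovZ.n2 (-30480, 1920) (by decide +kernel)
             (CovZ.n2 (-30456, 1896) (by decide +kernel)
              (CovZ.leaf K3_ok TB_l3936 _)
              (CovZ.leaf K3_ok TB_l3937 _))
             (CovZ.leaf K3_ok TB_l3938 _))
            (CovZ.n1 (-30432, 1872) (by decide +kernel)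
             (CovZ.leaf K3_ok TB_l3939 _)
             (CovZ.leaf K3_ok TB_l3940 _)))))
         (CovZ.n1 (-30624, 1824) (by decide +kernel)
          (CovZ.n2 (-30624, 1920) (by decide +kernel)
           (CovZ.n2 (-30576, 1872) (by decide +kernel)
            (CovZ.n2 (-30624, 1872) (by decide +kernel)
             (CovZ.leaf K2_ok TB_l3941 _)
             (CovZ.leaf K2_ok TB_l3942 _))
            (CovZ.n1 (-30576, 1920) (by decide +kernel)
             (CovZ.leaf K3_ok TB_l3943 _)
             (CovZ.leaf K3_ok TB_l3944 _)))
           (CovZ.n1 (-30672, 1872) (by decide +kernel)
            (CovZ.n2 (-30672, 1920) (by decide +kernel)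
             (CovZ.leaf K3_ok TB_l3945 _)
             (CovZ.n1 (-30696, 1896) (by decide +kernel)
              (CovZ.leaf K2_ok TB_l3946 _)
              (CovZ.leaf K2_ok TB_l3947 _)))
            (CovZ.n1 (-30624, 1872) (by decide +kernel)
             (CovZ.leaf K2_ok TB_l3948 _)
             (CovZ.leaf K2_ok TB_l3949 _))))
          (CovZ.n1 (-30528, 1824) (by decide +kernel)
           (CovZ.n2 (-30576, 1776) (by decide +kernel)
            (CovZ.n2 (-30576, 1824) (by decide +kernel)
             (CovZ.leaf K2_ok TB_l3950 _)
             (CovZ.leaf K2_ok TB_l3951 _))
            (CovZ.leaf K2_ok TB_l3952 _))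
           (CovZ.n1 (-30576, 1872) (by decide +kernel)
            (CovZ.n2 (-30528, 1872) (by decide +kernel)
             (CovZ.leaf K2_ok TB_l3953 _)
             (CovZ.leaf K3_ok TB_l3954 _))
            (CovZ.n1 (-30576, 1824) (by decide +kernel)
             (CovZ.leaf K2_ok TB_l3955 _)
             (CovZ.leaf K2_ok TB_l3956 _))))))))

theorem TB_u107 : CovZ TB_M (toL (selN TB_LN 58147139623488390111692969858625832496179376574481365444791857519652492211733773430350451298799544381895676962809349602283910673158885313419411458)) [0, 7, 6, 1] (-30336, 1920) (-29952, 2304) (-30720, 2304) :=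
    (CovZ.n1 (-30336, 2304) (by decide +kernel)
       (CovZ.subM 5818432186490023332895567750173897620657265742065181039927250430066901578063941323675744467157328897903898759178444295190649765890 (by decide +kernel)
        (CovZ.n2 (-30144, 2112) (by decide +kernel)
         (CovZ.n2 (-30336, 2112) (by decide +kernel)
          (CovZ.n2 (-30240, 2208) (by decide +kernel)
           (CovZ.n2 (-30240, 2112) (by decide +kernel)
            (CovZ.n2 (-30288, 2160) (by decide +kernel)
             (CovZ.subM 10576895500643977583230644928524336637254474927428499508554380724390492659780981533377253268126960835770580095214698360733696 (by decide +kernel)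
              (CovZ.n2 (-30240, 2160) (by decide +kernel)
               (CovZ.n2 (-30264, 2136) (by decide +kernel)
                (CovZ.badM (by decide +kernel))
                (CovZ.n1 (-30240, 2136) (by decide +kernel)
                 (CovZ.n2 (-30252, 2124) (by decide +kernel)
                  (CovZ.leaf K2_ok TB_l49807 _)
                  (CovZ.leaf K2_ok TB_l37858 _))
                 (CovZ.badM (by decide +kernel))))
               (CovZ.badM (by decide +kernel))))
             (CovZ.n1 (-30288, 2112) (by decide +kernel)
              (CovZ.n2 (-30312, 2136) (by decide +kernel)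
               (CovZ.subM 5545355253584959489135596003211984751458030319691634452568762923693665097937049408995814086141652161301199030126109673486012121088 (by decide +kernel)
                (CovZ.n2 (-30288, 2136) (by decide +kernel)
                 (CovZ.n2 (-30300, 2124) (by decide +kernel)
                  (CovZ.leaf K2_ok TB_l37859 _)
                  (CovZ.leaf K2_ok TB_l3957 _))
                 (CovZ.n1 (-30300, 2148) (by decide +kernel)
                  (CovZ.badM (by decide +kernel))
                  (CovZ.leaf K2_ok TB_l37861 _))))
               (CovZ.n1 (-30312, 2112) (by decide +kernel)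
                (CovZ.n2 (-30324, 2124) (by decide +kernel)
                 (CovZ.leaf K2_ok TB_l3958 _)
                 (CovZ.leaf K3_ok TB_l3959 _))
                (CovZ.n1 (-30300, 2124) (by decide +kernel)
                 (CovZ.leaf K2_ok TB_l3960 _)
                 (CovZ.leaf K2_ok TB_l3961 _))))
              (CovZ.subM 10576895500643977583230644928524336637254474927428499508554380724390492659780981555677998466658851628057642324716385216757760 (by decide +kernel)
               (CovZ.n1 (-30264, 2136) (by decide +kernel)
                (CovZ.n2 (-30264, 2112) (by decide +kernel)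
                 (CovZ.n2 (-30276, 2124) (by decide +kernel)
                  (CovZ.leaf K2_ok TB_l37862 _)
                  (CovZ.leaf K2_ok TB_l3962 _))
                 (CovZ.n1 (-30252, 2124) (by decide +kernel)
                  (CovZ.leaf K2_ok TB_l37863 _)
                  (CovZ.leaf K2_ok TB_l37864 _)))
                (CovZ.n1 (-30288, 2136) (by decide +kernel)
                 (CovZ.badM (by decide +kernel))
                 (CovZ.n1 (-30276, 2124) (by decide +kernel)
                  (CovZ.leaf K2_ok TB_l3963 _)
                  (CovZ.leaf K2_ok TB_l37867 _)))))))
            (CovZ.subM 10576895500643977583230644928524336637254474927428499508554380724390492659780981533377253268126960835770580095214698360733696 (by decide +kernel)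
             (CovZ.n1 (-30192, 2160) (by decide +kernel)
              (CovZ.n2 (-30192, 2112) (by decide +kernel)
               (CovZ.n2 (-30216, 2136) (by decide +kernel)
                (CovZ.badM (by decide +kernel))
                (CovZ.n1 (-30216, 2112) (by decide +kernel)
                 (CovZ.n2 (-30228, 2124) (by decide +kernel)
                  (CovZ.leaf K2_ok TB_l37868 _)
                  (CovZ.leaf K2_ok TB_l37869 _))
                 (CovZ.n1 (-30204, 2124) (by decide +kernel)
                  (CovZ.leaf K2_ok TB_l37870 _)
                  (CovZ.leaf K2_ok TB_l37871 _))))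
               (CovZ.badM (by decide +kernel)))
              (CovZ.n1 (-30240, 2160) (by decide +kernel)
               (CovZ.badM (by decide +kernel))
               (CovZ.n1 (-30216, 2136) (by decide +kernel)
                (CovZ.n2 (-30240, 2136) (by decide +kernel)
                 (CovZ.badM (by decide +kernel))
                 (CovZ.n1 (-30228, 2124) (by decide +kernel)
                  (CovZ.leaf K2_ok TB_l37872 _)
                  (CovZ.badM (by decide +kernel))))
                (CovZ.badM (by decide +kernel)))))))
           (CovZ.n1 (-30336, 2208) (by decide +kernel)
            (CovZ.badM (by decide +kernel))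
            (CovZ.n1 (-30288, 2160) (by decide +kernel)
             (CovZ.n2 (-30336, 2160) (by decide +kernel)
              (CovZ.badM (by decide +kernel))
              (CovZ.n1 (-30312, 2136) (by decide +kernel)
               (CovZ.n2 (-30336, 2136) (by decide +kernel)
                (CovZ.n2 (-30324, 2148) (by decide +kernel)
                 (CovZ.leaf K3_ok TB_l37873 _)
                 (CovZ.leaf K3_ok TB_l37874 _))
                (CovZ.leaf K3_ok TB_l3964 _))
               (CovZ.subM 173307721225880698702418521434760076049933486150989838175958736252836314063649764355841199343782106598083662933687340751617261568 (by decide +kernel)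
                (CovZ.n1 (-30312, 2160) (by decide +kernel)
                 (CovZ.n2 (-30300, 2148) (by decide +kernel)
                  (CovZ.leaf K2_ok TB_l37875 _)
                  (CovZ.badM (by decide +kernel)))
                 (CovZ.n1 (-30324, 2148) (by decide +kernel)
                  (CovZ.badM (by decide +kernel))
                  (CovZ.leaf K3_ok TB_l37877 _))))))
             (CovZ.badM (by decide +kernel)))))
          (CovZ.n1 (-30240, 2016) (by decide +kernel)
           (CovZ.n2 (-30336, 2016) (by decide +kernel)
            (CovZ.n2 (-30288, 2064) (by decide +kernel)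
             (CovZ.n2 (-30288, 2016) (by decide +kernel)
              (CovZ.n2 (-30312, 2040) (by decide +kernel)
               (CovZ.leaf K2_ok TB_l3965 _)
               (CovZ.n1 (-30312, 2016) (by decide +kernel)
                (CovZ.leaf K2_ok TB_l3966 _)
                (CovZ.leaf K2_ok TB_l3967 _)))
              (CovZ.n1 (-30264, 2040) (by decide +kernel)
               (CovZ.n2 (-30264, 2016) (by decide +kernel)
                (CovZ.leaf K2_ok TB_l3968 _)
                (CovZ.leaf K2_ok TB_l3969 _))
               (CovZ.leaf K2_ok TB_l3970 _)))
             (CovZ.n1 (-30336, 2064) (by decide +kernel)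
              (CovZ.n2 (-30312, 2088) (by decide +kernel)
               (CovZ.n2 (-30312, 2064) (by decide +kernel)
                (CovZ.leaf K2_ok TB_l3971 _)
                (CovZ.leaf K2_ok TB_l3972 _))
               (CovZ.n1 (-30336, 2088) (by decide +kernel)
                (CovZ.leaf K3_ok TB_l3973 _)
                (CovZ.leaf K2_ok TB_l3974 _)))
              (CovZ.n1 (-30312, 2040) (by decide +kernel)
               (CovZ.leaf K2_ok TB_l3975 _)
               (CovZ.n1 (-30312, 2064) (by decide +kernel)
                (CovZ.leaf K2_ok TB_l3976 _)
                (CovZ.leaf K2_ok TB_l3977 _)))))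
            (CovZ.n1 (-30288, 1968) (by decide +kernel)
             (CovZ.n2 (-30336, 1968) (by decide +kernel)
              (CovZ.n2 (-30312, 1992) (by decide +kernel)
               (CovZ.n2 (-30312, 1968) (by decide +kernel)
                (CovZ.leaf K2_ok TB_l3978 _)
                (CovZ.leaf K2_ok TB_l3979 _))
               (CovZ.leaf K2_ok TB_l3980 _))
              (CovZ.n1 (-30312, 1944) (by decide +kernel)
               (CovZ.leaf K2_ok TB_l3981 _)
               (CovZ.leaf K2_ok TB_l3982 _)))
             (CovZ.n1 (-30288, 2016) (by decide +kernel)
              (CovZ.n2 (-30264, 1992) (by decide +kernel)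
               (CovZ.leaf K2_ok TB_l3983 _)
               (CovZ.n1 (-30264, 2016) (by decide +kernel)
                (CovZ.leaf K2_ok TB_l3984 _)
                (CovZ.leaf K2_ok TB_l3985 _)))
              (CovZ.n1 (-30312, 1992) (by decide +kernel)
               (CovZ.leaf K2_ok TB_l3986 _)
               (CovZ.leaf K2_ok TB_l3987 _)))))
           (CovZ.n1 (-30240, 2112) (by decide +kernel)
            (CovZ.subM 10841317888160077022811411051737445053185836800614212052807346315408553522941026095328970528790438778590798720034097529037520896 (by decide +kernel)
             (CovZ.n2 (-30192, 2064) (by decide +kernel)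
              (CovZ.n2 (-30240, 2064) (by decide +kernel)
               (CovZ.n2 (-30216, 2088) (by decide +kernel)
                (CovZ.n2 (-30216, 2064) (by decide +kernel)
                 (CovZ.n2 (-30228, 2076) (by decide +kernel)
                  (CovZ.leaf K2_ok TB_l3988 _)
                  (CovZ.leaf K2_ok TB_l3989 _))
                 (CovZ.leaf K2_ok TB_l3990 _))
                (CovZ.n1 (-30240, 2088) (by decide +kernel)
                 (CovZ.n2 (-30228, 2100) (by decide +kernel)
                  (CovZ.leaf K2_ok TB_l3991 _)
                  (CovZ.leaf K2_ok TB_l3992 _))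
                 (CovZ.n1 (-30228, 2076) (by decide +kernel)
                  (CovZ.leaf K2_ok TB_l3993 _)
                  (CovZ.leaf K2_ok TB_l3994 _))))
               (CovZ.n1 (-30216, 2040) (by decide +kernel)
                (CovZ.n2 (-30240, 2040) (by decide +kernel)
                 (CovZ.leaf K2_ok TB_l3995 _)
                 (CovZ.leaf K2_ok TB_l3996 _))
                (CovZ.n1 (-30216, 2064) (by decide +kernel)
                 (CovZ.leaf K2_ok TB_l3997 _)
                 (CovZ.n1 (-30228, 2052) (by decide +kernel)
                  (CovZ.leaf K2_ok TB_l3998 _)
                  (CovZ.leaf K2_ok TB_l3999 _)))))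
              (CovZ.n1 (-30192, 2112) (by decide +kernel)
               (CovZ.n2 (-30168, 2088) (by decide +kernel)
                (CovZ.n2 (-30192, 2088) (by decide +kernel)
                 (CovZ.n2 (-30180, 2100) (by decide +kernel)
                  (CovZ.leaf K2_ok TB_l4000 _)
                  (CovZ.leaf K2_ok TB_l4001 _))
                 (CovZ.leaf K2_ok TB_l4002 _))
                (CovZ.subM 10576895500643977583230644928524336637254474927428499508554380724390492659780981533377253268126960835921695822666527007571968 (by decide +kernel)
                 (CovZ.n1 (-30168, 2112) (by decide +kernel)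
                  (CovZ.n2 (-30156, 2100) (by decide +kernel)
                   (CovZ.leaf K2_ok TB_l37878 _)
                   (CovZ.leaf K2_ok TB_l37879 _))
                  (CovZ.n1 (-30180, 2100) (by decide +kernel)
                   (CovZ.leaf K2_ok TB_l37880 _)
                   (CovZ.leaf K2_ok TB_l37881 _)))))
               (CovZ.n1 (-30216, 2088) (by decide +kernel)
                (CovZ.subM 10576895500643977583230644928524336637254474927428499508554380724390492659780981533377253268126960835921695822666527007571968 (by decide +kernel)
                 (CovZ.n2 (-30216, 2112) (by decide +kernel)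
                  (CovZ.n2 (-30204, 2100) (by decide +kernel)
                   (CovZ.leaf K2_ok TB_l4003 _)
                   (CovZ.leaf K2_ok TB_l37882 _))
                  (CovZ.n1 (-30228, 2100) (by decide +kernel)
                   (CovZ.leaf K2_ok TB_l4004 _)
                   (CovZ.leaf K2_ok TB_l4005 _))))
                (CovZ.n1 (-30192, 2088) (by decide +kernel)
                 (CovZ.n2 (-30204, 2076) (by decide +kernel)
                  (CovZ.leaf K2_ok TB_l4006 _)
                  (CovZ.leaf K2_ok TB_l4007 _))
                 (CovZ.leaf K2_ok TB_l4008 _))))))
            (CovZ.n1 (-30288, 2064) (by decide +kernel)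
             (CovZ.n2 (-30288, 2112) (by decide +kernel)
              (CovZ.n2 (-30264, 2088) (by decide +kernel)
               (CovZ.leaf K2_ok TB_l4009 _)
               (CovZ.n1 (-30264, 2112) (by decide +kernel)
                (CovZ.leaf K2_ok TB_l4010 _)
                (CovZ.leaf K2_ok TB_l4011 _)))
              (CovZ.n1 (-30312, 2088) (by decide +kernel)
               (CovZ.n2 (-30312, 2112) (by decide +kernel)
                (CovZ.leaf K2_ok TB_l4012 _)
                (CovZ.leaf K2_ok TB_l4013 _))
               (CovZ.n1 (-30288, 2088) (by decide +kernel)
                (CovZ.leaf K2_ok TB_l4014 _)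
                (CovZ.leaf K2_ok TB_l4015 _))))
             (CovZ.subM 11013192440045541658538909031825965523541222018184925113282248929271600481996947021470127217025280052631365775269205160832794624 (by decide +kernel)
              (CovZ.n1 (-30240, 2064) (by decide +kernel)
               (CovZ.n2 (-30264, 2040) (by decide +kernel)
                (CovZ.n2 (-30264, 2064) (by decide +kernel)
                 (CovZ.leaf K2_ok TB_l4016 _)
                 (CovZ.leaf K2_ok TB_l4017 _))
                (CovZ.n1 (-30240, 2040) (by decide +kernel)
                 (CovZ.leaf K2_ok TB_l4018 _)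
                 (CovZ.leaf K2_ok TB_l4019 _)))
               (CovZ.n1 (-30264, 2088) (by decide +kernel)
                (CovZ.n2 (-30240, 2088) (by decide +kernel)
                 (CovZ.leaf K2_ok TB_l4020 _)
                 (CovZ.n1 (-30252, 2100) (by decide +kernel)
                  (CovZ.leaf K2_ok TB_l4021 _)
                  (CovZ.leaf K2_ok TB_l4022 _)))
                (CovZ.n1 (-30264, 2064) (by decide +kernel)
                 (CovZ.leaf K2_ok TB_l4023 _)
                 (CovZ.leaf K2_ok TB_l4024 _)))))))))
         (CovZ.badM (by decide +kernel))))
       (CovZ.n1 (-30528, 2112) (by decide +kernel)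
        TB_u104
        TB_u105))

theorem TB_u108 : CovZ TB_M (toL (selN TB_LN 146783911423364576744087183772153137495290923804771006133460516927186301971618002785035715663981659079835648)) [0, 7, 6, 1] (-27840, 1728) (-27648, 1536) (-27648, 1920) :=
    (CovZ.n1 (-27648, 1728) (by decide +kernel)
          (CovZ.n2 (-27744, 1632) (by decide +kernel)
           (CovZ.n2 (-27744, 1728) (by decide +kernel)
            (CovZ.n2 (-27696, 1680) (by decide +kernel)
             (CovZ.subM 100433723547158196342151195559370937091414467756194395062272 (by decide +kernel)
              (CovZ.n2 (-27744, 1680) (by decide +kernel)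
               (CovZ.n2 (-27720, 1704) (by decide +kernel)
                (CovZ.n2 (-27720, 1680) (by decide +kernel)
                 (CovZ.n2 (-27732, 1692) (by decide +kernel)
                  (CovZ.leaf K2_ok TB_l6340 _)
                  (CovZ.leaf K2_ok TB_l6341 _))
                 (CovZ.n1 (-27708, 1692) (by decide +kernel)
                  (CovZ.leaf K2_ok TB_l6342 _)
                  (CovZ.leaf K2_ok TB_l6343 _)))
                (CovZ.n1 (-27744, 1704) (by decide +kernel)
                 (CovZ.badM (by decide +kernel))
                 (CovZ.n1 (-27732, 1692) (by decide +kernel)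
                  (CovZ.leaf K2_ok TB_l6344 _)
                  (CovZ.badM (by decide +kernel)))))
               (CovZ.n1 (-27720, 1656) (by decide +kernel)
                (CovZ.n2 (-27744, 1656) (by decide +kernel)
                 (CovZ.n2 (-27732, 1668) (by decide +kernel)
                  (CovZ.leaf K2_ok TB_l6346 _)
                  (CovZ.leaf K2_ok TB_l6347 _))
                 (CovZ.leaf K2_ok TB_l6348 _))
                (CovZ.n1 (-27720, 1680) (by decide +kernel)
                 (CovZ.leaf K2_ok TB_l6349 _)
                 (CovZ.n1 (-27732, 1668) (by decide +kernel)
                  (CovZ.leaf K2_ok TB_l6350 _)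
                  (CovZ.leaf K2_ok TB_l6351 _))))))
             (CovZ.n1 (-27696, 1728) (by decide +kernel)
              (CovZ.n2 (-27672, 1704) (by decide +kernel)
               (CovZ.badM (by decide +kernel))
               (CovZ.badM (by decide +kernel)))
              (CovZ.badM (by decide +kernel))))
            (CovZ.subM 100433723547158196342151195559370937091414467756194395062272 (by decide +kernel)
             (CovZ.n1 (-27792, 1680) (by decide +kernel)
              (CovZ.n2 (-27792, 1728) (by decide +kernel)
               (CovZ.n2 (-27768, 1704) (by decide +kernel)
                (CovZ.n2 (-27792, 1704) (by decide +kernel)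
                 (CovZ.n2 (-27780, 1716) (by decide +kernel)
                  (CovZ.leaf K2_ok TB_l6352 _)
                  (CovZ.leaf K2_ok TB_l6353 _))
                 (CovZ.leaf K2_ok TB_l6354 _))
                (CovZ.n1 (-27768, 1728) (by decide +kernel)
                 (CovZ.n2 (-27756, 1716) (by decide +kernel)
                  (CovZ.n2 (-27768, 1716) (by decide +kernel)
                   (CovZ.badM (by decide +kernel))
                   (CovZ.leaf K2_ok TB_l38490 _))
                  (CovZ.badM (by decide +kernel)))
                 (CovZ.n1 (-27780, 1716) (by decide +kernel)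
                  (CovZ.n2 (-27780, 1728) (by decide +kernel)
                   (CovZ.leaf K2_ok TB_l38491 _)
                   (CovZ.n1 (-27786, 1722) (by decide +kernel)
                    (CovZ.n2 (-27786, 1728) (by decide +kernel)
                     (CovZ.leaf K2_ok TB_l38492 _)
                     (CovZ.n1 (-27789, 1725) (by decide +kernel)
                      (CovZ.leaf K2_ok TB_l38493 _)
                      (CovZ.leaf K2_ok TB_l38494 _)))
                    (CovZ.leaf K2_ok TB_l38495 _)))
                  (CovZ.leaf K2_ok TB_l38496 _))))
               (CovZ.n1 (-27816, 1704) (by decide +kernel)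
                (CovZ.n2 (-27816, 1728) (by decide +kernel)
                 (CovZ.n2 (-27804, 1716) (by decide +kernel)
                  (CovZ.leaf K2_ok TB_l6355 _)
                  (CovZ.leaf K2_ok TB_l6356 _))
                 (CovZ.n1 (-27828, 1716) (by decide +kernel)
                  (CovZ.leaf K2_ok TB_l6357 _)
                  (CovZ.leaf K2_ok TB_l6358 _)))
                (CovZ.n1 (-27792, 1704) (by decide +kernel)
                 (CovZ.leaf K2_ok TB_l6359 _)
                 (CovZ.n1 (-27804, 1716) (by decide +kernel)
                  (CovZ.leaf K2_ok TB_l6360 _)
                  (CovZ.leaf K2_ok TB_l6361 _)))))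
              (CovZ.n1 (-27744, 1680) (by decide +kernel)
               (CovZ.n2 (-27768, 1656) (by decide +kernel)
                (CovZ.n2 (-27768, 1680) (by decide +kernel)
                 (CovZ.n2 (-27756, 1668) (by decide +kernel)
                  (CovZ.leaf K2_ok TB_l6362 _)
                  (CovZ.leaf K2_ok TB_l6363 _))
                 (CovZ.leaf K2_ok TB_l6364 _))
                (CovZ.n1 (-27744, 1656) (by decide +kernel)
                 (CovZ.leaf K2_ok TB_l6365 _)
                 (CovZ.n1 (-27756, 1668) (by decide +kernel)
                  (CovZ.leaf K2_ok TB_l6366 _)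
                  (CovZ.leaf K2_ok TB_l6367 _))))
               (CovZ.n1 (-27768, 1704) (by decide +kernel)
                (CovZ.n2 (-27744, 1704) (by decide +kernel)
                 (CovZ.n2 (-27756, 1692) (by decide +kernel)
                  (CovZ.leaf K2_ok TB_l6368 _)
                  (CovZ.leaf K2_ok TB_l6369 _))
                 (CovZ.n1 (-27756, 1716) (by decide +kernel)
                  (CovZ.badM (by decide +kernel))
                  (CovZ.leaf K2_ok TB_l38497 _)))
                (CovZ.n1 (-27768, 1680) (by decide +kernel)
                 (CovZ.n2 (-27780, 1692) (by decide +kernel)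
                  (CovZ.leaf K2_ok TB_l6370 _)
                  (CovZ.leaf K2_ok TB_l6371 _))
                 (CovZ.leaf K2_ok TB_l6372 _)))))))
           (CovZ.n1 (-27648, 1632) (by decide +kernel)
            (CovZ.n2 (-27696, 1584) (by decide +kernel)
             (CovZ.n2 (-27696, 1632) (by decide +kernel)
              (CovZ.n2 (-27672, 1608) (by decide +kernel)
               (CovZ.n2 (-27696, 1608) (by decide +kernel)
                (CovZ.leaf K2_ok TB_l6373 _)
                (CovZ.leaf K2_ok TB_l6374 _))
               (CovZ.n1 (-27672, 1632) (by decide +kernel)
                (CovZ.leaf K2_ok TB_l6375 _)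
                (CovZ.leaf K2_ok TB_l6376 _)))
              (CovZ.subM 100433723547158196342151195559370937091414467756194462171136 (by decide +kernel)
               (CovZ.n1 (-27720, 1608) (by decide +kernel)
                (CovZ.n2 (-27720, 1632) (by decide +kernel)
                 (CovZ.leaf K2_ok TB_l6377 _)
                 (CovZ.leaf K2_ok TB_l6378 _))
                (CovZ.n1 (-27696, 1608) (by decide +kernel)
                 (CovZ.leaf K2_ok TB_l6379 _)
                 (CovZ.leaf K2_ok TB_l6380 _)))))
             (CovZ.n1 (-27648, 1584) (by decide +kernel)
              (CovZ.n2 (-27672, 1560) (by decide +kernel)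
               (CovZ.n2 (-27672, 1584) (by decide +kernel)
                (CovZ.leaf K2_ok TB_l6381 _)
                (CovZ.leaf K2_ok TB_l6382 _))
               (CovZ.n1 (-27648, 1560) (by decide +kernel)
                (CovZ.leaf K2_ok TB_l6383 _)
                (CovZ.leaf K2_ok TB_l6384 _)))
              (CovZ.n1 (-27672, 1608) (by decide +kernel)
               (CovZ.n2 (-27648, 1608) (by decide +kernel)
                (CovZ.leaf K2_ok TB_l6385 _)
                (CovZ.leaf K2_ok TB_l6386 _))
               (CovZ.n1 (-27672, 1584) (by decide +kernel)
                (CovZ.leaf K2_ok TB_l6387 _)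
                (CovZ.leaf K2_ok TB_l6388 _)))))
            (CovZ.n1 (-27696, 1680) (by decide +kernel)
             (CovZ.subM 862028741737065207743961561849588368590014330934657024 (by decide +kernel)
              (CovZ.n2 (-27648, 1680) (by decide +kernel)
               (CovZ.n2 (-27672, 1656) (by decide +kernel)
                (CovZ.n2 (-27672, 1680) (by decide +kernel)
                 (CovZ.n2 (-27660, 1668) (by decide +kernel)
                  (CovZ.leaf K2_ok TB_l38498 _)
                  (CovZ.badM (by decide +kernel)))
                 (CovZ.n1 (-27684, 1668) (by decide +kernel)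
                  (CovZ.leaf K2_ok TB_l38499 _)
                  (CovZ.leaf K2_ok TB_l38500 _)))
                (CovZ.n1 (-27648, 1656) (by decide +kernel)
                 (CovZ.n2 (-27660, 1644) (by decide +kernel)
                  (CovZ.n2 (-27660, 1656) (by decide +kernel)
                   (CovZ.n2 (-27654, 1650) (by decide +kernel)
                    (CovZ.leaf K2_ok TB_l38501 _)
                    (CovZ.leaf K2_ok TB_l38502 _))
                   (CovZ.n1 (-27666, 1650) (by decide +kernel)
                    (CovZ.leaf K2_ok TB_l38503 _)
                    (CovZ.leaf K2_ok TB_l38504 _)))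
                  (CovZ.leaf K2_ok TB_l38505 _))
                 (CovZ.n1 (-27660, 1668) (by decide +kernel)
                  (CovZ.leaf K2_ok TB_l38506 _)
                  (CovZ.leaf K2_ok TB_l38507 _))))
               (CovZ.n1 (-27672, 1704) (by decide +kernel)
                (CovZ.badM (by decide +kernel))
                (CovZ.n1 (-27672, 1680) (by decide +kernel)
                 (CovZ.badM (by decide +kernel))
                 (CovZ.badM (by decide +kernel))))))
             (CovZ.n1 (-27696, 1632) (by decide +kernel)
              (CovZ.subM 100433723547158196342151195559370937091414467756194395062272 (by decide +kernel)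
               (CovZ.n2 (-27720, 1656) (by decide +kernel)
                (CovZ.n2 (-27696, 1656) (by decide +kernel)
                 (CovZ.leaf K2_ok TB_l6389 _)
                 (CovZ.n1 (-27708, 1668) (by decide +kernel)
                  (CovZ.leaf K2_ok TB_l6390 _)
                  (CovZ.leaf K2_ok TB_l6391 _)))
                (CovZ.n1 (-27720, 1632) (by decide +kernel)
                 (CovZ.leaf K2_ok TB_l6392 _)
                 (CovZ.leaf K2_ok TB_l6393 _))))
              (CovZ.n1 (-27672, 1656) (by decide +kernel)
               (CovZ.n2 (-27672, 1632) (by decide +kernel)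
                (CovZ.n2 (-27684, 1644) (by decide +kernel)
                 (CovZ.leaf K2_ok TB_l6394 _)
                 (CovZ.leaf K2_ok TB_l6395 _))
                (CovZ.n1 (-27660, 1644) (by decide +kernel)
                 (CovZ.leaf K2_ok TB_l6396 _)
                 (CovZ.leaf K2_ok TB_l6397 _)))
               (CovZ.n1 (-27696, 1656) (by decide +kernel)
                (CovZ.n2 (-27684, 1668) (by decide +kernel)
                 (CovZ.leaf K2_ok TB_l6398 _)
                 (CovZ.leaf K2_ok TB_l6399 _))
                (CovZ.leaf K2_ok TB_l6400 _)))))))
          (CovZ.subM 146783911423364576743092537299333564210980159308376930729712446429252177600113071401865689199059852012290048 (by decide +kernel)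
           (CovZ.n1 (-27744, 1824) (by decide +kernel)
            (CovZ.badM (by decide +kernel))
            (CovZ.n1 (-27744, 1728) (by decide +kernel)
             (CovZ.n2 (-27792, 1776) (by decide +kernel)
              (CovZ.badM (by decide +kernel))
              (CovZ.n1 (-27792, 1728) (by decide +kernel)
               (CovZ.n2 (-27816, 1752) (by decide +kernel)
                (CovZ.n2 (-27792, 1752) (by decide +kernel)
                 (CovZ.n2 (-27804, 1740) (by decide +kernel)
                  (CovZ.badM (by decide +kernel))
                  (CovZ.leaf K2_ok TB_l38508 _))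
                 (CovZ.badM (by decide +kernel)))
                (CovZ.n1 (-27816, 1728) (by decide +kernel)
                 (CovZ.n2 (-27828, 1740) (by decide +kernel)
                  (CovZ.leaf K2_ok TB_l38509 _)
                  (CovZ.n1 (-27828, 1728) (by decide +kernel)
                   (CovZ.n2 (-27834, 1734) (by decide +kernel)
                    (CovZ.leaf K2_ok TB_l38510 _)
                    (CovZ.leaf K2_ok TB_l38511 _))
                   (CovZ.n1 (-27822, 1734) (by decide +kernel)
                    (CovZ.leaf K2_ok TB_l38512 _)
                    (CovZ.leaf K2_ok TB_l38513 _))))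
                 (CovZ.n1 (-27804, 1740) (by decide +kernel)
                  (CovZ.leaf K2_ok TB_l38514 _)
                  (CovZ.n1 (-27816, 1740) (by decide +kernel)
                   (CovZ.badM (by decide +kernel))
                   (CovZ.n1 (-27810, 1734) (by decide +kernel)
                    (CovZ.leaf K2_ok TB_l38515 _)
                    (CovZ.leaf K2_ok TB_l38516 _))))))
               (CovZ.n1 (-27768, 1752) (by decide +kernel)
                (CovZ.n2 (-27768, 1728) (by decide +kernel)
                 (CovZ.n2 (-27780, 1740) (by decide +kernel)
                  (CovZ.badM (by decide +kernel))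
                  (CovZ.n1 (-27780, 1728) (by decide +kernel)
                   (CovZ.n2 (-27786, 1734) (by decide +kernel)
                    (CovZ.badM (by decide +kernel))
                    (CovZ.leaf K2_ok TB_l38517 _))
                   (CovZ.badM (by decide +kernel))))
                 (CovZ.badM (by decide +kernel)))
                (CovZ.n1 (-27792, 1752) (by decide +kernel)
                 (CovZ.badM (by decide +kernel))
                 (CovZ.n1 (-27780, 1740) (by decide +kernel)
                  (CovZ.leaf K2_ok TB_l38518 _)
                  (CovZ.badM (by decide +kernel)))))))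
             (CovZ.n1 (-27696, 1776) (by decide +kernel)
              (CovZ.n2 (-27696, 1728) (by decide +kernel)
               (CovZ.badM (by decide +kernel))
               (CovZ.badM (by decide +kernel)))
              (CovZ.badM (by decide +kernel)))))))

theorem TB_u109 : CovZ TB_M (toL (selN TB_LN 307865786786634106018729587890889757861712651842771638739598553639984683476772044834030639120014042634697012412418)) [0, 7, 6, 1] (-28800, 1920) (-28608, 1728) (-28416, 1920) :=
    (CovZ.n2 (-28608, 1920) (by decide +kernel)
          (CovZ.n2 (-28512, 1824) (by decide +kernel)
           (CovZ.subM 307865750090656250177576235455860030703343326903587327306078799285088410938630893936485838317885448799674555170816 (by decide +kernel)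
            (CovZ.n2 (-28608, 1824) (by decide +kernel)
             (CovZ.subM 307865750090656250177576233466567085064196758282058331504919039077126518278919226517697328086581553768117043200000 (by decide +kernel)
              (CovZ.n2 (-28560, 1872) (by decide +kernel)
               (CovZ.n2 (-28560, 1824) (by decide +kernel)
                (CovZ.n2 (-28584, 1848) (by decide +kernel)
                 (CovZ.n2 (-28560, 1848) (by decide +kernel)
                  (CovZ.leaf K2_ok TB_l6401 _)
                  (CovZ.leaf K2_ok TB_l6402 _))
                 (CovZ.n1 (-28584, 1824) (by decide +kernel)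
                  (CovZ.leaf K2_ok TB_l6403 _)
                  (CovZ.leaf K2_ok TB_l6404 _)))
                (CovZ.n1 (-28536, 1848) (by decide +kernel)
                 (CovZ.n2 (-28536, 1824) (by decide +kernel)
                  (CovZ.leaf K2_ok TB_l6405 _)
                  (CovZ.leaf K2_ok TB_l6406 _))
                 (CovZ.leaf K2_ok TB_l6407 _)))
               (CovZ.n1 (-28608, 1872) (by decide +kernel)
                (CovZ.n2 (-28584, 1896) (by decide +kernel)
                 (CovZ.n2 (-28584, 1872) (by decide +kernel)
                  (CovZ.n2 (-28596, 1884) (by decide +kernel)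
                   (CovZ.leaf K2_ok TB_l6408 _)
                   (CovZ.leaf K2_ok TB_l6409 _))
                  (CovZ.leaf K2_ok TB_l6410 _))
                 (CovZ.n1 (-28608, 1896) (by decide +kernel)
                  (CovZ.badM (by decide +kernel))
                  (CovZ.n1 (-28596, 1884) (by decide +kernel)
                   (CovZ.leaf K2_ok TB_l48491 _)
                   (CovZ.leaf K2_ok TB_l48492 _))))
                (CovZ.n1 (-28584, 1848) (by decide +kernel)
                 (CovZ.n2 (-28608, 1848) (by decide +kernel)
                  (CovZ.leaf K2_ok TB_l6411 _)
                  (CovZ.leaf K2_ok TB_l6412 _))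
                 (CovZ.n1 (-28584, 1872) (by decide +kernel)
                  (CovZ.leaf K2_ok TB_l6413 _)
                  (CovZ.leaf K2_ok TB_l6414 _))))))
             (CovZ.n1 (-28560, 1776) (by decide +kernel)
              (CovZ.n2 (-28608, 1776) (by decide +kernel)
               (CovZ.n2 (-28584, 1800) (by decide +kernel)
                (CovZ.n2 (-28584, 1776) (by decide +kernel)
                 (CovZ.leaf K2_ok TB_l6415 _)
                 (CovZ.leaf K2_ok TB_l6416 _))
                (CovZ.leaf K2_ok TB_l6417 _))
               (CovZ.n1 (-28584, 1752) (by decide +kernel)
                (CovZ.leaf K2_ok TB_l6418 _)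
                (CovZ.n1 (-28584, 1776) (by decide +kernel)
                 (CovZ.leaf K2_ok TB_l6419 _)
                 (CovZ.leaf K2_ok TB_l6420 _))))
              (CovZ.subM 307865750090656250177576233466567085064196758282058331504919134858097822396972873914386524980905529939312179675136 (by decide +kernel)
               (CovZ.n1 (-28560, 1824) (by decide +kernel)
                (CovZ.n2 (-28536, 1800) (by decide +kernel)
                 (CovZ.leaf K2_ok TB_l6421 _)
                 (CovZ.n1 (-28536, 1824) (by decide +kernel)
                  (CovZ.leaf K2_ok TB_l6422 _)
                  (CovZ.leaf K2_ok TB_l6423 _)))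
                (CovZ.n1 (-28584, 1800) (by decide +kernel)
                 (CovZ.n2 (-28584, 1824) (by decide +kernel)
                  (CovZ.leaf K2_ok TB_l6424 _)
                  (CovZ.leaf K2_ok TB_l6425 _))
                 (CovZ.leaf K2_ok TB_l6426 _)))))))
           (CovZ.subM 307828210105309724687083354212046285692538008111914290033489094433796007323002551505633424106685999035989083815936 (by decide +kernel)
            (CovZ.n1 (-28512, 1920) (by decide +kernel)
             (CovZ.n2 (-28464, 1872) (by decide +kernel)
              (CovZ.subM 307828173409331868845930001777018455671758747361275798386987722421582002934517392782601908902607397468868532240384 (by decide +kernel)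
               (CovZ.n2 (-28512, 1872) (by decide +kernel)
                (CovZ.badM (by decide +kernel))
                (CovZ.n1 (-28488, 1848) (by decide +kernel)
                 (CovZ.leaf K2_ok TB_l6432 _)
                 (CovZ.n1 (-28488, 1872) (by decide +kernel)
                  (CovZ.leaf K2_ok TB_l6433 _)
                  (CovZ.leaf K2_ok TB_l6434 _)))))
              (CovZ.n1 (-28464, 1920) (by decide +kernel)
               (CovZ.n2 (-28440, 1896) (by decide +kernel)
                (CovZ.badM (by decide +kernel))
                (CovZ.n1 (-28440, 1920) (by decide +kernel)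
                 (CovZ.n2 (-28428, 1908) (by decide +kernel)
                  (CovZ.badM (by decide +kernel))
                  (CovZ.leaf K2_ok TB_l6438 _))
                 (CovZ.badM (by decide +kernel))))
               (CovZ.badM (by decide +kernel))))
             (CovZ.subM 307828173409331868845930001777018455671758747361275798386987722421582002934517392782601908902607397468868532240384 (by decide +kernel)
              (CovZ.n1 (-28560, 1872) (by decide +kernel)
               (CovZ.n2 (-28560, 1920) (by decide +kernel)
                (CovZ.n2 (-28536, 1896) (by decide +kernel)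
                 (CovZ.n2 (-28560, 1896) (by decide +kernel)
                  (CovZ.badM (by decide +kernel))
                  (CovZ.leaf K2_ok TB_l6445 _))
                 (CovZ.badM (by decide +kernel)))
                (CovZ.n1 (-28584, 1896) (by decide +kernel)
                 (CovZ.badM (by decide +kernel))
                 (CovZ.n1 (-28560, 1896) (by decide +kernel)
                  (CovZ.n2 (-28572, 1884) (by decide +kernel)
                   (CovZ.leaf K2_ok TB_l48493 _)
                   (CovZ.leaf K2_ok TB_l6446 _))
                  (CovZ.n1 (-28572, 1908) (by decide +kernel)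
                   (CovZ.badM (by decide +kernel))
                   (CovZ.leaf K2_ok TB_l48494 _)))))
               (CovZ.n1 (-28512, 1872) (by decide +kernel)
                (CovZ.n2 (-28536, 1848) (by decide +kernel)
                 (CovZ.n2 (-28536, 1872) (by decide +kernel)
                  (CovZ.leaf K2_ok TB_l6447 _)
                  (CovZ.leaf K2_ok TB_l6448 _))
                 (CovZ.n1 (-28512, 1848) (by decide +kernel)
                  (CovZ.leaf K2_ok TB_l6449 _)
                  (CovZ.leaf K2_ok TB_l6450 _)))
                (CovZ.n1 (-28536, 1896) (by decide +kernel)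
                 (CovZ.badM (by decide +kernel))
                 (CovZ.n1 (-28536, 1872) (by decide +kernel)
                  (CovZ.n2 (-28548, 1884) (by decide +kernel)
                   (CovZ.leaf K2_ok TB_l6455 _)
                   (CovZ.leaf K2_ok TB_l6456 _))
                  (CovZ.leaf K2_ok TB_l6457 _)))))))))
          (CovZ.subM 307865750090656250177576235455860030703343326903587327306078799285088410938630893936485838317885448799674555170816 (by decide +kernel)
           (CovZ.n1 (-28704, 1824) (by decide +kernel)
            (CovZ.subM 37576681324381331646232684195102212011295231547029411573092637428121057150916012712569864617126495510398500864 (by decide +kernel)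
             (CovZ.n2 (-28704, 1920) (by decide +kernel)
              (CovZ.n2 (-28656, 1872) (by decide +kernel)
               (CovZ.n2 (-28704, 1872) (by decide +kernel)
                (CovZ.badM (by decide +kernel))
                (CovZ.n1 (-28680, 1848) (by decide +kernel)
                 (CovZ.n2 (-28704, 1848) (by decide +kernel)
                  (CovZ.n2 (-28692, 1860) (by decide +kernel)
                   (CovZ.leaf K2_ok TB_l6458 _)
                   (CovZ.leaf K2_ok TB_l6459 _))
                  (CovZ.n1 (-28692, 1836) (by decide +kernel)
                   (CovZ.leaf K2_ok TB_l6460 _)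
                   (CovZ.leaf K2_ok TB_l6461 _)))
                 (CovZ.n1 (-28680, 1872) (by decide +kernel)
                  (CovZ.n2 (-28668, 1860) (by decide +kernel)
                   (CovZ.leaf K2_ok TB_l6462 _)
                   (CovZ.badM (by decide +kernel)))
                  (CovZ.n1 (-28692, 1860) (by decide +kernel)
                   (CovZ.badM (by decide +kernel))
                   (CovZ.leaf K2_ok TB_l6463 _)))))
               (CovZ.badM (by decide +kernel)))
              (CovZ.n1 (-28752, 1872) (by decide +kernel)
               (CovZ.badM (by decide +kernel))
               (CovZ.n1 (-28704, 1872) (by decide +kernel)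
                (CovZ.n2 (-28728, 1848) (by decide +kernel)
                 (CovZ.n2 (-28728, 1872) (by decide +kernel)
                  (CovZ.n2 (-28716, 1860) (by decide +kernel)
                   (CovZ.leaf K2_ok TB_l6464 _)
                   (CovZ.badM (by decide +kernel)))
                  (CovZ.n1 (-28740, 1860) (by decide +kernel)
                   (CovZ.badM (by decide +kernel))
                   (CovZ.leaf K2_ok TB_l6465 _)))
                 (CovZ.n1 (-28704, 1848) (by decide +kernel)
                  (CovZ.n2 (-28716, 1836) (by decide +kernel)
                   (CovZ.leaf K2_ok TB_l6466 _)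
                   (CovZ.leaf K2_ok TB_l6467 _))
                  (CovZ.n1 (-28716, 1860) (by decide +kernel)
                   (CovZ.leaf K2_ok TB_l6468 _)
                   (CovZ.leaf K2_ok TB_l6469 _))))
                (CovZ.badM (by decide +kernel))))))
            (CovZ.n1 (-28608, 1824) (by decide +kernel)
             (CovZ.n2 (-28656, 1776) (by decide +kernel)
              (CovZ.subM 307865750090656250177576233466567085064196758282058331504919158803340648426486285763558824204486523982110963793920 (by decide +kernel)
               (CovZ.n2 (-28656, 1824) (by decide +kernel)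
                (CovZ.n2 (-28632, 1800) (by decide +kernel)
                 (CovZ.leaf K2_ok TB_l6470 _)
                 (CovZ.n1 (-28632, 1824) (by decide +kernel)
                  (CovZ.leaf K2_ok TB_l6471 _)
                  (CovZ.leaf K2_ok TB_l6472 _)))
                (CovZ.n1 (-28680, 1800) (by decide +kernel)
                 (CovZ.n2 (-28680, 1824) (by decide +kernel)
                  (CovZ.leaf K2_ok TB_l6473 _)
                  (CovZ.leaf K2_ok TB_l6474 _))
                 (CovZ.n1 (-28656, 1800) (by decide +kernel)
                  (CovZ.leaf K2_ok TB_l6475 _)
                  (CovZ.leaf K2_ok TB_l6476 _)))))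
              (CovZ.n1 (-28608, 1776) (by decide +kernel)
               (CovZ.n2 (-28632, 1752) (by decide +kernel)
                (CovZ.leaf K2_ok TB_l6477 _)
                (CovZ.leaf K2_ok TB_l6478 _))
               (CovZ.subM 307865750090656250177576233466567085064196758282058331504919158803340648426486285763558824204486523982110963793920 (by decide +kernel)
                (CovZ.n1 (-28632, 1800) (by decide +kernel)
                 (CovZ.n2 (-28608, 1800) (by decide +kernel)
                  (CovZ.leaf K2_ok TB_l6479 _)
                  (CovZ.leaf K2_ok TB_l6480 _))
                 (CovZ.n1 (-28632, 1776) (by decide +kernel)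
                  (CovZ.leaf K2_ok TB_l6481 _)
                  (CovZ.leaf K2_ok TB_l6482 _))))))
             (CovZ.subM 307865750090656250177576233466567085064196758282058331504919134858097822396972873914386524980905529939312179675136 (by decide +kernel)
              (CovZ.n1 (-28656, 1872) (by decide +kernel)
               (CovZ.n2 (-28608, 1872) (by decide +kernel)
                (CovZ.n2 (-28632, 1848) (by decide +kernel)
                 (CovZ.n2 (-28632, 1872) (by decide +kernel)
                  (CovZ.leaf K2_ok TB_l6483 _)
                  (CovZ.leaf K2_ok TB_l6484 _))
                 (CovZ.n1 (-28608, 1848) (by decide +kernel)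
                  (CovZ.leaf K2_ok TB_l6485 _)
                  (CovZ.leaf K2_ok TB_l6486 _)))
                (CovZ.n1 (-28632, 1896) (by decide +kernel)
                 (CovZ.n2 (-28608, 1896) (by decide +kernel)
                  (CovZ.n2 (-28620, 1884) (by decide +kernel)
                   (CovZ.badM (by decide +kernel))
                   (CovZ.leaf K2_ok TB_l48495 _))
                  (CovZ.badM (by decide +kernel)))
                 (CovZ.n1 (-28632, 1872) (by decide +kernel)
                  (CovZ.badM (by decide +kernel))
                  (CovZ.n1 (-28620, 1884) (by decide +kernel)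
                   (CovZ.leaf K2_ok TB_l48496 _)
                   (CovZ.badM (by decide +kernel))))))
               (CovZ.n1 (-28656, 1824) (by decide +kernel)
                (CovZ.n2 (-28680, 1848) (by decide +kernel)
                 (CovZ.n2 (-28656, 1848) (by decide +kernel)
                  (CovZ.n2 (-28668, 1836) (by decide +kernel)
                   (CovZ.leaf K2_ok TB_l6487 _)
                   (CovZ.leaf K2_ok TB_l6488 _))
                  (CovZ.n1 (-28668, 1860) (by decide +kernel)
                   (CovZ.leaf K2_ok TB_l6489 _)
                   (CovZ.leaf K2_ok TB_l6490 _)))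
                 (CovZ.n1 (-28680, 1824) (by decide +kernel)
                  (CovZ.n2 (-28692, 1836) (by decide +kernel)
                   (CovZ.leaf K2_ok TB_l6491 _)
                   (CovZ.leaf K2_ok TB_l6492 _))
                  (CovZ.leaf K2_ok TB_l6493 _)))
                (CovZ.n1 (-28632, 1848) (by decide +kernel)
                 (CovZ.n2 (-28632, 1824) (by decide +kernel)
                  (CovZ.leaf K2_ok TB_l6494 _)
                  (CovZ.leaf K2_ok TB_l6495 _))
                 (CovZ.n1 (-28656, 1848) (by decide +kernel)
                  (CovZ.leaf K2_ok TB_l6496 _)
                  (CovZ.leaf K2_ok TB_l6497 _))))))))))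

theorem TB_u110 : CovZ TB_M (toL (selN TB_LN 307865786786634106018729587890889757861712651842771638739598553639984683476772044834030639120014042634697012412418)) [0, 7, 6, 1] (-28608, 1728) (-28416, 1536) (-28416, 1920) :=
    (CovZ.n1 (-28416, 1728) (by decide +kernel)
          (CovZ.n2 (-28512, 1632) (by decide +kernel)
           (CovZ.n2 (-28512, 1728) (by decide +kernel)
            (CovZ.n2 (-28464, 1680) (by decide +kernel)
             (CovZ.n2 (-28512, 1680) (by decide +kernel)
              (CovZ.leaf K2_ok TB_l6498 _)
              (CovZ.leaf K2_ok TB_l6499 _))
             (CovZ.n1 (-28464, 1728) (by decide +kernel)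
              (CovZ.leaf K2_ok TB_l6500 _)
              (CovZ.leaf K2_ok TB_l6501 _)))
            (CovZ.subM 307865750090656250177576235455860030703343326903587327306078799285088410938630893936485838317885448799674555170816 (by decide +kernel)
             (CovZ.n1 (-28560, 1680) (by decide +kernel)
              (CovZ.n2 (-28560, 1728) (by decide +kernel)
               (CovZ.leaf K2_ok TB_l6502 _)
               (CovZ.leaf K2_ok TB_l6503 _))
              (CovZ.n1 (-28512, 1680) (by decide +kernel)
               (CovZ.leaf K2_ok TB_l6504 _)
               (CovZ.leaf K2_ok TB_l6505 _)))))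
           (CovZ.n1 (-28416, 1632) (by decide +kernel)
            (CovZ.n2 (-28464, 1584) (by decide +kernel)
             (CovZ.n2 (-28464, 1632) (by decide +kernel)
              (CovZ.leaf K2_ok TB_l6506 _)
              (CovZ.leaf K2_ok TB_l6507 _))
             (CovZ.leaf K2_ok TB_l6508 _))
            (CovZ.n1 (-28464, 1680) (by decide +kernel)
             (CovZ.n2 (-28416, 1680) (by decide +kernel)
              (CovZ.leaf K2_ok TB_l6509 _)
              (CovZ.leaf K2_ok TB_l6510 _))
             (CovZ.n1 (-28464, 1632) (by decide +kernel)
              (CovZ.leaf K2_ok TB_l6511 _)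
              (CovZ.leaf K2_ok TB_l6512 _)))))
          (CovZ.n1 (-28512, 1824) (by decide +kernel)
           (CovZ.subM 307865786786634106018729585901594915084976019032696823151420506870311826788180291572785547892691128365886876942336 (by decide +kernel)
            (CovZ.n2 (-28416, 1824) (by decide +kernel)
             (CovZ.n2 (-28464, 1776) (by decide +kernel)
              (CovZ.n2 (-28464, 1824) (by decide +kernel)
               (CovZ.n2 (-28440, 1800) (by decide +kernel)
                (CovZ.leaf K2_ok TB_l6513 _)
                (CovZ.leaf K2_ok TB_l6514 _))
               (CovZ.n1 (-28488, 1800) (by decide +kernel)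
                (CovZ.n2 (-28488, 1824) (by decide +kernel)
                 (CovZ.leaf K2_ok TB_l6515 _)
                 (CovZ.leaf K2_ok TB_l6516 _))
                (CovZ.leaf K2_ok TB_l6517 _)))
              (CovZ.n1 (-28416, 1776) (by decide +kernel)
               (CovZ.leaf K2_ok TB_l6518 _)
               (CovZ.n1 (-28440, 1800) (by decide +kernel)
                (CovZ.leaf K2_ok TB_l6519 _)
                (CovZ.leaf K2_ok TB_l6520 _))))
             (CovZ.n1 (-28464, 1872) (by decide +kernel)
              (CovZ.subM 36695977855841153353429674302840352545061402987940143052213126305983180593603959468990397595592187302641664 (by decide +kernel)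
               (CovZ.n2 (-28416, 1872) (by decide +kernel)
                (CovZ.n2 (-28440, 1848) (by decide +kernel)
                 (CovZ.n2 (-28440, 1872) (by decide +kernel)
                  (CovZ.leaf K2_ok TB_l6521 _)
                  (CovZ.leaf K2_ok TB_l6522 _))
                 (CovZ.leaf K2_ok TB_l6523 _))
                (CovZ.n1 (-28440, 1896) (by decide +kernel)
                 (CovZ.n2 (-28416, 1896) (by decide +kernel)
                  (CovZ.leaf K2_ok TB_l6524 _)
                  (CovZ.leaf K2_ok TB_l6525 _))
                 (CovZ.n1 (-28440, 1872) (by decide +kernel)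
                  (CovZ.badM (by decide +kernel))
                  (CovZ.leaf K2_ok TB_l6527 _)))))
              (CovZ.n1 (-28464, 1824) (by decide +kernel)
               (CovZ.subM 307828173409331868845930001777018455671758747361275798386987722421582002934517392782601908902607397468868532240384 (by decide +kernel)
                (CovZ.n2 (-28488, 1848) (by decide +kernel)
                 (CovZ.n2 (-28464, 1848) (by decide +kernel)
                  (CovZ.leaf K2_ok TB_l6528 _)
                  (CovZ.leaf K2_ok TB_l6529 _))
                 (CovZ.n1 (-28488, 1824) (by decide +kernel)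
                  (CovZ.leaf K2_ok TB_l6530 _)
                  (CovZ.leaf K2_ok TB_l6531 _))))
               (CovZ.n1 (-28440, 1848) (by decide +kernel)
                (CovZ.n2 (-28440, 1824) (by decide +kernel)
                 (CovZ.leaf K2_ok TB_l6532 _)
                 (CovZ.leaf K2_ok TB_l6533 _))
                (CovZ.leaf K2_ok TB_l6534 _))))))
           (CovZ.n1 (-28512, 1728) (by decide +kernel)
            (CovZ.subM 307865750090656250177576235455860030703343326903587327306078799285088410938630893936485838317885448799674555170816 (by decide +kernel)
             (CovZ.n2 (-28560, 1776) (by decide +kernel)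
              (CovZ.n2 (-28512, 1776) (by decide +kernel)
               (CovZ.n2 (-28536, 1752) (by decide +kernel)
                (CovZ.leaf K2_ok TB_l6535 _)
                (CovZ.leaf K2_ok TB_l6536 _))
               (CovZ.n1 (-28536, 1800) (by decide +kernel)
                (CovZ.leaf K2_ok TB_l6537 _)
                (CovZ.leaf K2_ok TB_l6538 _)))
              (CovZ.n1 (-28560, 1728) (by decide +kernel)
               (CovZ.n2 (-28584, 1752) (by decide +kernel)
                (CovZ.leaf K2_ok TB_l6539 _)
                (CovZ.leaf K2_ok TB_l6540 _))
               (CovZ.n1 (-28536, 1752) (by decide +kernel)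
                (CovZ.leaf K2_ok TB_l6541 _)
                (CovZ.leaf K2_ok TB_l6542 _)))))
            (CovZ.n1 (-28464, 1776) (by decide +kernel)
             (CovZ.n2 (-28464, 1728) (by decide +kernel)
              (CovZ.n2 (-28488, 1752) (by decide +kernel)
               (CovZ.leaf K2_ok TB_l6543 _)
               (CovZ.leaf K2_ok TB_l6544 _))
              (CovZ.leaf K2_ok TB_l6545 _))
             (CovZ.subM 307865750090656250177576233466567085064196758282058331504919158803340648429208544698926331912193520841565109485568 (by decide +kernel)
              (CovZ.n1 (-28512, 1776) (by decide +kernel)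
               (CovZ.n2 (-28488, 1800) (by decide +kernel)
                (CovZ.leaf K2_ok TB_l6546 _)
                (CovZ.leaf K2_ok TB_l6547 _))
               (CovZ.n1 (-28488, 1752) (by decide +kernel)
                (CovZ.leaf K2_ok TB_l6548 _)
                (CovZ.leaf K2_ok TB_l6549 _))))))))

theorem TB_u111 : CovZ TB_M (toL (selN TB_LN 307865786786634106018729587890889757861712651842771638739598553639984683476772044834030639120014042634697012412418)) [0, 7, 6, 1] (-29184, 1536) (-28800, 1536) (-28800, 1920) :=
    (CovZ.n2 (-28992, 1728) (by decide +kernel)
         (CovZ.n2 (-28800, 1728) (by decide +kernel)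
          (CovZ.n2 (-28896, 1632) (by decide +kernel)
           (CovZ.subM 307865750090656250177576235455861927840933391092133147093097181627770678914059655791487060790941834448390575882240 (by decide +kernel)
            (CovZ.n2 (-28896, 1728) (by decide +kernel)
             (CovZ.n2 (-28848, 1680) (by decide +kernel)
              (CovZ.n2 (-28896, 1680) (by decide +kernel)
               (CovZ.n2 (-28872, 1704) (by decide +kernel)
                (CovZ.leaf K2_ok TB_l6552 _)
                (CovZ.leaf K2_ok TB_l6553 _))
               (CovZ.n1 (-28872, 1656) (by decide +kernel)
                (CovZ.leaf K2_ok TB_l6554 _)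
                (CovZ.leaf K2_ok TB_l6555 _)))
              (CovZ.n1 (-28848, 1728) (by decide +kernel)
               (CovZ.n2 (-28824, 1704) (by decide +kernel)
                (CovZ.leaf K2_ok TB_l6556 _)
                (CovZ.leaf K2_ok TB_l6557 _))
               (CovZ.n1 (-28872, 1704) (by decide +kernel)
                (CovZ.leaf K2_ok TB_l6558 _)
                (CovZ.leaf K2_ok TB_l6559 _))))
             (CovZ.n1 (-28944, 1680) (by decide +kernel)
              (CovZ.n2 (-28944, 1728) (by decide +kernel)
               (CovZ.n2 (-28920, 1704) (by decide +kernel)
                (CovZ.leaf K2_ok TB_l6560 _)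
                (CovZ.leaf K2_ok TB_l6561 _))
               (CovZ.n1 (-28968, 1704) (by decide +kernel)
                (CovZ.leaf K2_ok TB_l6562 _)
                (CovZ.leaf K2_ok TB_l6563 _)))
              (CovZ.n1 (-28896, 1680) (by decide +kernel)
               (CovZ.n2 (-28920, 1656) (by decide +kernel)
                (CovZ.leaf K2_ok TB_l6564 _)
                (CovZ.leaf K2_ok TB_l6565 _))
               (CovZ.n1 (-28920, 1704) (by decide +kernel)
                (CovZ.leaf K2_ok TB_l6566 _)
                (CovZ.n1 (-28920, 1680) (by decide +kernel)
                 (CovZ.leaf K2_ok TB_l6567 _)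
                 (CovZ.leaf K2_ok TB_l6568 _)))))))
           (CovZ.n1 (-28800, 1632) (by decide +kernel)
            (CovZ.n2 (-28848, 1584) (by decide +kernel)
             (CovZ.n2 (-28848, 1632) (by decide +kernel)
              (CovZ.leaf K2_ok TB_l6569 _)
              (CovZ.leaf K2_ok TB_l6570 _))
             (CovZ.n1 (-28800, 1584) (by decide +kernel)
              (CovZ.leaf K2_ok TB_l6571 _)
              (CovZ.leaf K2_ok TB_l6572 _)))
            (CovZ.subM 307865750090656250177576235455861927840933391092133147093097181627770678914059655791487060790941834448390575882240 (by decide +kernel)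
             (CovZ.n1 (-28848, 1680) (by decide +kernel)
              (CovZ.n2 (-28800, 1680) (by decide +kernel)
               (CovZ.leaf K2_ok TB_l6573 _)
               (CovZ.n1 (-28824, 1704) (by decide +kernel)
                (CovZ.leaf K2_ok TB_l6574 _)
                (CovZ.leaf K2_ok TB_l6575 _)))
              (CovZ.n1 (-28848, 1632) (by decide +kernel)
               (CovZ.leaf K2_ok TB_l6576 _)
               (CovZ.leaf K2_ok TB_l6577 _))))))
          (CovZ.subM 307865750090656250177576235455860030703343326903587327306078799285088410938630893936485838317885448799674555170816 (by decide +kernel)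
           (CovZ.n1 (-28896, 1824) (by decide +kernel)
            (CovZ.n2 (-28800, 1824) (by decide +kernel)
             (CovZ.n2 (-28848, 1776) (by decide +kernel)
              (CovZ.n2 (-28848, 1824) (by decide +kernel)
               (CovZ.n2 (-28824, 1800) (by decide +kernel)
                (CovZ.n2 (-28848, 1800) (by decide +kernel)
                 (CovZ.leaf K2_ok TB_l6578 _)
                 (CovZ.leaf K2_ok TB_l6579 _))
                (CovZ.n1 (-28824, 1824) (by decide +kernel)
                 (CovZ.leaf K2_ok TB_l6580 _)
                 (CovZ.leaf K2_ok TB_l6581 _)))
               (CovZ.n1 (-28872, 1800) (by decide +kernel)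
                (CovZ.n2 (-28872, 1824) (by decide +kernel)
                 (CovZ.leaf K2_ok TB_l6582 _)
                 (CovZ.leaf K2_ok TB_l6583 _))
                (CovZ.leaf K2_ok TB_l6584 _)))
              (CovZ.n1 (-28800, 1776) (by decide +kernel)
               (CovZ.n2 (-28824, 1752) (by decide +kernel)
                (CovZ.n2 (-28824, 1776) (by decide +kernel)
                 (CovZ.leaf K2_ok TB_l6585 _)
                 (CovZ.leaf K2_ok TB_l6586 _))
                (CovZ.n1 (-28800, 1752) (by decide +kernel)
                 (CovZ.leaf K2_ok TB_l6587 _)
                 (CovZ.leaf K2_ok TB_l6588 _)))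
               (CovZ.n1 (-28824, 1800) (by decide +kernel)
                (CovZ.n2 (-28800, 1800) (by decide +kernel)
                 (CovZ.leaf K2_ok TB_l6589 _)
                 (CovZ.leaf K2_ok TB_l6590 _))
                (CovZ.n1 (-28824, 1776) (by decide +kernel)
                 (CovZ.leaf K2_ok TB_l6591 _)
                 (CovZ.leaf K2_ok TB_l6592 _)))))
             (CovZ.n1 (-28848, 1872) (by decide +kernel)
              (CovZ.n2 (-28800, 1872) (by decide +kernel)
               (CovZ.n2 (-28824, 1848) (by decide +kernel)
                (CovZ.n2 (-28824, 1872) (by decide +kernel)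
                 (CovZ.leaf K2_ok TB_l6593 _)
                 (CovZ.n1 (-28836, 1860) (by decide +kernel)
                  (CovZ.leaf K2_ok TB_l38521 _)
                  (CovZ.leaf K2_ok TB_l6594 _)))
                (CovZ.n1 (-28800, 1848) (by decide +kernel)
                 (CovZ.leaf K2_ok TB_l6595 _)
                 (CovZ.n1 (-28812, 1860) (by decide +kernel)
                  (CovZ.leaf K2_ok TB_l6596 _)
                  (CovZ.leaf K2_ok TB_l6597 _))))
               (CovZ.n1 (-28824, 1896) (by decide +kernel)
                (CovZ.badM (by decide +kernel))
                (CovZ.n1 (-28824, 1872) (by decide +kernel)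
                 (CovZ.leaf K2_ok TB_l38522 _)
                 (CovZ.badM (by decide +kernel)))))
              (CovZ.n1 (-28848, 1824) (by decide +kernel)
               (CovZ.n2 (-28872, 1848) (by decide +kernel)
                (CovZ.n2 (-28848, 1848) (by decide +kernel)
                 (CovZ.leaf K2_ok TB_l6598 _)
                 (CovZ.leaf K2_ok TB_l6599 _))
                (CovZ.n1 (-28872, 1824) (by decide +kernel)
                 (CovZ.leaf K2_ok TB_l6600 _)
                 (CovZ.leaf K2_ok TB_l6601 _)))
               (CovZ.n1 (-28824, 1848) (by decide +kernel)
                (CovZ.n2 (-28824, 1824) (by decide +kernel)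
                 (CovZ.leaf K2_ok TB_l6602 _)
                 (CovZ.leaf K2_ok TB_l6603 _))
                (CovZ.n1 (-28848, 1848) (by decide +kernel)
                 (CovZ.leaf K2_ok TB_l6604 _)
                 (CovZ.leaf K2_ok TB_l6605 _))))))
            (CovZ.n1 (-28896, 1728) (by decide +kernel)
             (CovZ.n2 (-28944, 1776) (by decide +kernel)
              (CovZ.n2 (-28896, 1776) (by decide +kernel)
               (CovZ.n2 (-28920, 1752) (by decide +kernel)
                (CovZ.leaf K2_ok TB_l6606 _)
                (CovZ.leaf K2_ok TB_l6607 _))
               (CovZ.n1 (-28920, 1800) (by decide +kernel)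
                (CovZ.leaf K2_ok TB_l6608 _)
                (CovZ.n1 (-28920, 1776) (by decide +kernel)
                 (CovZ.leaf K2_ok TB_l6609 _)
                 (CovZ.leaf K2_ok TB_l6610 _))))
              (CovZ.n1 (-28944, 1728) (by decide +kernel)
               (CovZ.n2 (-28968, 1752) (by decide +kernel)
                (CovZ.leaf K2_ok TB_l6611 _)
                (CovZ.leaf K2_ok TB_l6612 _))
               (CovZ.n1 (-28920, 1752) (by decide +kernel)
                (CovZ.leaf K2_ok TB_l6613 _)
                (CovZ.leaf K2_ok TB_l6614 _))))
             (CovZ.n1 (-28848, 1776) (by decide +kernel)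
              (CovZ.n2 (-28848, 1728) (by decide +kernel)
               (CovZ.n2 (-28872, 1752) (by decide +kernel)
                (CovZ.n2 (-28848, 1752) (by decide +kernel)
                 (CovZ.leaf K2_ok TB_l6615 _)
                 (CovZ.leaf K2_ok TB_l6616 _))
                (CovZ.leaf K2_ok TB_l6617 _))
               (CovZ.n1 (-28824, 1752) (by decide +kernel)
                (CovZ.n2 (-28824, 1728) (by decide +kernel)
                 (CovZ.leaf K2_ok TB_l6618 _)
                 (CovZ.leaf K2_ok TB_l6619 _))
                (CovZ.leaf K2_ok TB_l6620 _)))
              (CovZ.n1 (-28896, 1776) (by decide +kernel)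
               (CovZ.n2 (-28872, 1800) (by decide +kernel)
                (CovZ.n2 (-28872, 1776) (by decide +kernel)
                 (CovZ.leaf K2_ok TB_l6621 _)
                 (CovZ.leaf K2_ok TB_l6622 _))
                (CovZ.leaf K2_ok TB_l6623 _))
               (CovZ.n1 (-28872, 1752) (by decide +kernel)
                (CovZ.leaf K2_ok TB_l6624 _)
                (CovZ.n1 (-28872, 1776) (by decide +kernel)
                 (CovZ.leaf K2_ok TB_l6625 _)
                 (CovZ.leaf K2_ok TB_l6626 _)))))))))
         (CovZ.n1 (-28992, 1536) (by decide +kernel)
          (CovZ.n2 (-29088, 1632) (by decide +kernel)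
           (CovZ.n2 (-28992, 1632) (by decide +kernel)
            (CovZ.n2 (-29040, 1584) (by decide +kernel)
             (CovZ.n2 (-29040, 1632) (by decide +kernel)
              (CovZ.leaf K2_ok TB_l6627 _)
              (CovZ.leaf K2_ok TB_l6628 _))
             (CovZ.n1 (-28992, 1584) (by decide +kernel)
              (CovZ.leaf K2_ok TB_l6629 _)
              (CovZ.leaf K2_ok TB_l6630 _)))
            (CovZ.subM 307865750090656250177576235455861927840933391092133147093097181627770678914059655791487060790941834448390575882240 (by decide +kernel)
             (CovZ.n1 (-29040, 1680) (by decide +kernel)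
              (CovZ.n2 (-28992, 1680) (by decide +kernel)
               (CovZ.leaf K2_ok TB_l6631 _)
               (CovZ.leaf K2_ok TB_l6632 _))
              (CovZ.n1 (-29040, 1632) (by decide +kernel)
               (CovZ.leaf K2_ok TB_l6633 _)
               (CovZ.leaf K2_ok TB_l6634 _)))))
           (CovZ.n1 (-29088, 1536) (by decide +kernel)
            (CovZ.n2 (-29136, 1584) (by decide +kernel)
             (CovZ.leaf K2_ok TB_l6635 _)
             (CovZ.n1 (-29136, 1536) (by decide +kernel)
              (CovZ.leaf K2_ok TB_l6636 _)
              (CovZ.leaf K2_ok TB_l6637 _)))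
            (CovZ.n1 (-29040, 1584) (by decide +kernel)
             (CovZ.n2 (-29040, 1536) (by decide +kernel)
              (CovZ.leaf K2_ok TB_l6638 _)
              (CovZ.leaf K2_ok TB_l6639 _))
             (CovZ.n1 (-29088, 1584) (by decide +kernel)
              (CovZ.leaf K2_ok TB_l6640 _)
              (CovZ.leaf K2_ok TB_l6641 _)))))
          (CovZ.n1 (-28896, 1632) (by decide +kernel)
           (CovZ.n2 (-28896, 1536) (by decide +kernel)
            (CovZ.n2 (-28944, 1584) (by decide +kernel)
             (CovZ.n2 (-28896, 1584) (by decide +kernel)
              (CovZ.leaf K2_ok TB_l6642 _)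
              (CovZ.leaf K2_ok TB_l6643 _))
             (CovZ.n1 (-28944, 1536) (by decide +kernel)
              (CovZ.leaf K2_ok TB_l6644 _)
              (CovZ.leaf K2_ok TB_l6645 _)))
            (CovZ.n1 (-28848, 1584) (by decide +kernel)
             (CovZ.n2 (-28848, 1536) (by decide +kernel)
              (CovZ.leaf K2_ok TB_l6646 _)
              (CovZ.leaf K2_ok TB_l6647 _))
             (CovZ.n1 (-28896, 1584) (by decide +kernel)
              (CovZ.leaf K2_ok TB_l6648 _)
              (CovZ.leaf K2_ok TB_l6649 _))))
           (CovZ.n1 (-28992, 1632) (by decide +kernel)
            (CovZ.subM 307865750090656250177576235455861927840933391092133147093097181627770678914059655791487060790941834448390575882240 (by decide +kernel)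
             (CovZ.n2 (-28944, 1680) (by decide +kernel)
              (CovZ.n2 (-28944, 1632) (by decide +kernel)
               (CovZ.leaf K2_ok TB_l6650 _)
               (CovZ.n1 (-28920, 1656) (by decide +kernel)
                (CovZ.leaf K2_ok TB_l6651 _)
                (CovZ.leaf K2_ok TB_l6652 _)))
              (CovZ.n1 (-28992, 1680) (by decide +kernel)
               (CovZ.leaf K2_ok TB_l6653 _)
               (CovZ.n1 (-28968, 1656) (by decide +kernel)
                (CovZ.leaf K2_ok TB_l6654 _)
                (CovZ.leaf K2_ok TB_l6655 _)))))
            (CovZ.n1 (-28944, 1584) (by decide +kernel)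
             (CovZ.n2 (-28992, 1584) (by decide +kernel)
              (CovZ.leaf K2_ok TB_l6656 _)
              (CovZ.leaf K2_ok TB_l6657 _))
             (CovZ.n1 (-28944, 1632) (by decide +kernel)
              (CovZ.leaf K2_ok TB_l6658 _)
              (CovZ.leaf K2_ok TB_l6659 _)))))))

theorem TB_u112 : CovZ TB_M (toL (selN TB_LN 307865786786634106018729587890889757861712651842771638739598553639984683476772044834030639120014042634697012412418)) [0, 7, 6, 1] (-28800, 1536) (-28416, 1536) (-28800, 1920) :=
    (CovZ.n1 (-28608, 1728) (by decide +kernel)
         (CovZ.n2 (-28608, 1536) (by decide +kernel)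
          (CovZ.n2 (-28704, 1632) (by decide +kernel)
           (CovZ.n2 (-28608, 1632) (by decide +kernel)
            (CovZ.n2 (-28656, 1584) (by decide +kernel)
             (CovZ.n2 (-28656, 1632) (by decide +kernel)
              (CovZ.leaf K2_ok TB_l6660 _)
              (CovZ.leaf K2_ok TB_l6661 _))
             (CovZ.leaf K2_ok TB_l6662 _))
            (CovZ.subM 307865750090656250177576235455861927840933391092133147093097181627770678914059655791487060790941834448390575882240 (by decide +kernel)
             (CovZ.n1 (-28656, 1680) (by decide +kernel)
              (CovZ.n2 (-28608, 1680) (by decide +kernel)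
               (CovZ.leaf K2_ok TB_l6663 _)
               (CovZ.leaf K2_ok TB_l6664 _))
              (CovZ.n1 (-28656, 1632) (by decide +kernel)
               (CovZ.leaf K2_ok TB_l6665 _)
               (CovZ.leaf K2_ok TB_l6666 _)))))
           (CovZ.n1 (-28704, 1536) (by decide +kernel)
            (CovZ.n2 (-28752, 1584) (by decide +kernel)
             (CovZ.leaf K2_ok TB_l6667 _)
             (CovZ.n1 (-28752, 1536) (by decide +kernel)
              (CovZ.leaf K2_ok TB_l6668 _)
              (CovZ.leaf K2_ok TB_l6669 _)))
            (CovZ.n1 (-28656, 1584) (by decide +kernel)
             (CovZ.n2 (-28656, 1536) (by decide +kernel)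
              (CovZ.leaf K2_ok TB_l6670 _)
              (CovZ.leaf K2_ok TB_l6671 _))
             (CovZ.leaf K2_ok TB_l6672 _))))
          (CovZ.n1 (-28512, 1632) (by decide +kernel)
           (CovZ.n2 (-28512, 1536) (by decide +kernel)
            (CovZ.n2 (-28560, 1584) (by decide +kernel)
             (CovZ.leaf K2_ok TB_l6673 _)
             (CovZ.n1 (-28560, 1536) (by decide +kernel)
              (CovZ.leaf K2_ok TB_l6674 _)
              (CovZ.leaf K2_ok TB_l6675 _)))
            (CovZ.n1 (-28464, 1584) (by decide +kernel)
             (CovZ.n2 (-28464, 1536) (by decide +kernel)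
              (CovZ.leaf K2_ok TB_l6676 _)
              (CovZ.leaf K2_ok TB_l6677 _))
             (CovZ.leaf K2_ok TB_l6678 _)))
           (CovZ.n1 (-28608, 1632) (by decide +kernel)
            (CovZ.subM 307865750090656250177576235455860030703343326903587327306078799285088410938630893936485838317885448799674555170816 (by decide +kernel)
             (CovZ.n2 (-28560, 1680) (by decide +kernel)
              (CovZ.n2 (-28560, 1632) (by decide +kernel)
               (CovZ.leaf K2_ok TB_l6679 _)
               (CovZ.leaf K2_ok TB_l6680 _))
              (CovZ.n1 (-28608, 1680) (by decide +kernel)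
               (CovZ.leaf K2_ok TB_l6681 _)
               (CovZ.leaf K2_ok TB_l6682 _))))
            (CovZ.n1 (-28560, 1584) (by decide +kernel)
             (CovZ.n2 (-28608, 1584) (by decide +kernel)
              (CovZ.leaf K2_ok TB_l6683 _)
              (CovZ.leaf K2_ok TB_l6684 _))
             (CovZ.n1 (-28560, 1632) (by decide +kernel)
              (CovZ.leaf K2_ok TB_l6685 _)
              (CovZ.leaf K2_ok TB_l6686 _))))))
         (CovZ.n1 (-28800, 1728) (by decide +kernel)
          (CovZ.subM 307865750090656250177576235455860030703343326903587327306078799285088410938630893936485838317885448799674555170816 (by decide +kernel)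
           (CovZ.n2 (-28704, 1824) (by decide +kernel)
            (CovZ.n2 (-28704, 1728) (by decide +kernel)
             (CovZ.n2 (-28752, 1776) (by decide +kernel)
              (CovZ.n2 (-28704, 1776) (by decide +kernel)
               (CovZ.n2 (-28728, 1752) (by decide +kernel)
                (CovZ.n2 (-28728, 1776) (by decide +kernel)
                 (CovZ.leaf K2_ok TB_l6687 _)
                 (CovZ.leaf K2_ok TB_l6688 _))
                (CovZ.leaf K2_ok TB_l6689 _))
               (CovZ.n1 (-28728, 1800) (by decide +kernel)
                (CovZ.n2 (-28704, 1800) (by decide +kernel)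
                 (CovZ.leaf K2_ok TB_l6690 _)
                 (CovZ.leaf K2_ok TB_l6691 _))
                (CovZ.n1 (-28728, 1776) (by decide +kernel)
                 (CovZ.leaf K2_ok TB_l6692 _)
                 (CovZ.leaf K2_ok TB_l6693 _))))
              (CovZ.n1 (-28752, 1728) (by decide +kernel)
               (CovZ.n2 (-28776, 1752) (by decide +kernel)
                (CovZ.leaf K2_ok TB_l6694 _)
                (CovZ.n1 (-28776, 1728) (by decide +kernel)
                 (CovZ.leaf K2_ok TB_l6695 _)
                 (CovZ.leaf K2_ok TB_l6696 _)))
               (CovZ.n1 (-28728, 1752) (by decide +kernel)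
                (CovZ.leaf K2_ok TB_l6697 _)
                (CovZ.leaf K2_ok TB_l6698 _))))
             (CovZ.n1 (-28656, 1776) (by decide +kernel)
              (CovZ.n2 (-28656, 1728) (by decide +kernel)
               (CovZ.n2 (-28680, 1752) (by decide +kernel)
                (CovZ.leaf K2_ok TB_l6699 _)
                (CovZ.leaf K2_ok TB_l6700 _))
               (CovZ.n1 (-28632, 1752) (by decide +kernel)
                (CovZ.leaf K2_ok TB_l6701 _)
                (CovZ.leaf K2_ok TB_l6702 _)))
              (CovZ.n1 (-28704, 1776) (by decide +kernel)
               (CovZ.n2 (-28680, 1800) (by decide +kernel)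
                (CovZ.n2 (-28680, 1776) (by decide +kernel)
                 (CovZ.leaf K2_ok TB_l6703 _)
                 (CovZ.leaf K2_ok TB_l6704 _))
                (CovZ.leaf K2_ok TB_l6705 _))
               (CovZ.n1 (-28680, 1752) (by decide +kernel)
                (CovZ.leaf K2_ok TB_l6706 _)
                (CovZ.n1 (-28680, 1776) (by decide +kernel)
                 (CovZ.leaf K2_ok TB_l6707 _)
                 (CovZ.leaf K2_ok TB_l6708 _))))))
            (CovZ.n1 (-28800, 1824) (by decide +kernel)
             (CovZ.n2 (-28752, 1872) (by decide +kernel)
              (CovZ.n2 (-28752, 1824) (by decide +kernel)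
               (CovZ.n2 (-28776, 1848) (by decide +kernel)
                (CovZ.n2 (-28752, 1848) (by decide +kernel)
                 (CovZ.leaf K2_ok TB_l6709 _)
                 (CovZ.n1 (-28764, 1860) (by decide +kernel)
                  (CovZ.leaf K2_ok TB_l6710 _)
                  (CovZ.leaf K2_ok TB_l6711 _)))
                (CovZ.n1 (-28776, 1824) (by decide +kernel)
                 (CovZ.n2 (-28788, 1836) (by decide +kernel)
                  (CovZ.leaf K2_ok TB_l6712 _)
                  (CovZ.leaf K2_ok TB_l6713 _))
                 (CovZ.leaf K2_ok TB_l6714 _)))
               (CovZ.subM 37576681324381331646232684195102212011295231547032625449205100651498170588512544210074132604108103894853222400 (by decide +kernel)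
                (CovZ.n1 (-28728, 1848) (by decide +kernel)
                 (CovZ.n2 (-28728, 1824) (by decide +kernel)
                  (CovZ.n2 (-28740, 1836) (by decide +kernel)
                   (CovZ.leaf K2_ok TB_l6715 _)
                   (CovZ.leaf K2_ok TB_l6716 _))
                  (CovZ.leaf K2_ok TB_l6717 _))
                 (CovZ.n1 (-28752, 1848) (by decide +kernel)
                  (CovZ.n2 (-28740, 1860) (by decide +kernel)
                   (CovZ.leaf K2_ok TB_l6718 _)
                   (CovZ.leaf K2_ok TB_l6719 _))
                  (CovZ.n1 (-28740, 1836) (by decide +kernel)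
                   (CovZ.leaf K2_ok TB_l6720 _)
                   (CovZ.leaf K2_ok TB_l6721 _))))))
              (CovZ.n1 (-28800, 1872) (by decide +kernel)
               (CovZ.badM (by decide +kernel))
               (CovZ.n1 (-28776, 1848) (by decide +kernel)
                (CovZ.n2 (-28800, 1848) (by decide +kernel)
                 (CovZ.n2 (-28788, 1860) (by decide +kernel)
                  (CovZ.leaf K2_ok TB_l6722 _)
                  (CovZ.leaf K2_ok TB_l6723 _))
                 (CovZ.leaf K2_ok TB_l6724 _))
                (CovZ.subM 994646472819573284310764496293641680200912301594695434880927953786318994025066751066112 (by decide +kernel)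
                 (CovZ.n1 (-28776, 1872) (by decide +kernel)
                  (CovZ.n2 (-28764, 1860) (by decide +kernel)
                   (CovZ.leaf K2_ok TB_l6725 _)
                   (CovZ.badM (by decide +kernel)))
                  (CovZ.n1 (-28788, 1860) (by decide +kernel)
                   (CovZ.badM (by decide +kernel))
                   (CovZ.leaf K2_ok TB_l6726 _)))))))
             (CovZ.n1 (-28752, 1776) (by decide +kernel)
              (CovZ.n2 (-28800, 1776) (by decide +kernel)
               (CovZ.n2 (-28776, 1800) (by decide +kernel)
                (CovZ.n2 (-28776, 1776) (by decide +kernel)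
                 (CovZ.leaf K2_ok TB_l6727 _)
                 (CovZ.leaf K2_ok TB_l6728 _))
                (CovZ.leaf K2_ok TB_l6729 _))
               (CovZ.n1 (-28776, 1752) (by decide +kernel)
                (CovZ.leaf K2_ok TB_l6730 _)
                (CovZ.n1 (-28776, 1776) (by decide +kernel)
                 (CovZ.leaf K2_ok TB_l6731 _)
                 (CovZ.leaf K2_ok TB_l6732 _))))
              (CovZ.n1 (-28752, 1824) (by decide +kernel)
               (CovZ.n2 (-28728, 1800) (by decide +kernel)
                (CovZ.n2 (-28752, 1800) (by decide +kernel)
                 (CovZ.leaf K2_ok TB_l6733 _)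
                 (CovZ.leaf K2_ok TB_l6734 _))
                (CovZ.n1 (-28728, 1824) (by decide +kernel)
                 (CovZ.leaf K2_ok TB_l6735 _)
                 (CovZ.leaf K2_ok TB_l6736 _)))
               (CovZ.n1 (-28776, 1800) (by decide +kernel)
                (CovZ.n2 (-28776, 1824) (by decide +kernel)
                 (CovZ.leaf K2_ok TB_l6737 _)
                 (CovZ.leaf K2_ok TB_l6738 _))
                (CovZ.n1 (-28752, 1800) (by decide +kernel)
                 (CovZ.leaf K2_ok TB_l6739 _)
                 (CovZ.leaf K2_ok TB_l6740 _))))))))
          (CovZ.n1 (-28704, 1632) (by decide +kernel)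
           (CovZ.n2 (-28800, 1632) (by decide +kernel)
            (CovZ.subM 307865750090656250177576235455861927840933391092133147093097181627770678914059655791487060790941834448390575882240 (by decide +kernel)
             (CovZ.n2 (-28752, 1680) (by decide +kernel)
              (CovZ.n2 (-28752, 1632) (by decide +kernel)
               (CovZ.leaf K2_ok TB_l6741 _)
               (CovZ.leaf K2_ok TB_l6742 _))
              (CovZ.n1 (-28800, 1680) (by decide +kernel)
               (CovZ.n2 (-28776, 1704) (by decide +kernel)
                (CovZ.leaf K2_ok TB_l6743 _)
                (CovZ.leaf K2_ok TB_l6744 _))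
               (CovZ.leaf K2_ok TB_l6745 _))))
            (CovZ.n1 (-28752, 1584) (by decide +kernel)
             (CovZ.n2 (-28800, 1584) (by decide +kernel)
              (CovZ.leaf K2_ok TB_l6746 _)
              (CovZ.leaf K2_ok TB_l6747 _))
             (CovZ.n1 (-28752, 1632) (by decide +kernel)
              (CovZ.leaf K2_ok TB_l6748 _)
              (CovZ.leaf K2_ok TB_l6749 _))))
           (CovZ.subM 307865750090656250177576235455861927840933391092133147093097181627770678914059655791487060790941834448390575882240 (by decide +kernel)
            (CovZ.n1 (-28704, 1728) (by decide +kernel)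
             (CovZ.n2 (-28656, 1680) (by decide +kernel)
              (CovZ.n2 (-28704, 1680) (by decide +kernel)
               (CovZ.n2 (-28680, 1704) (by decide +kernel)
                (CovZ.leaf K2_ok TB_l6750 _)
                (CovZ.leaf K2_ok TB_l6751 _))
               (CovZ.leaf K2_ok TB_l6752 _))
              (CovZ.n1 (-28656, 1728) (by decide +kernel)
               (CovZ.leaf K2_ok TB_l6753 _)
               (CovZ.n1 (-28680, 1704) (by decide +kernel)
                (CovZ.leaf K2_ok TB_l6754 _)
                (CovZ.leaf K2_ok TB_l6755 _))))
             (CovZ.n1 (-28752, 1680) (by decide +kernel)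
              (CovZ.n2 (-28752, 1728) (by decide +kernel)
               (CovZ.n2 (-28728, 1704) (by decide +kernel)
                (CovZ.leaf K2_ok TB_l6756 _)
                (CovZ.leaf K2_ok TB_l6757 _))
               (CovZ.n1 (-28776, 1704) (by decide +kernel)
                (CovZ.leaf K2_ok TB_l6758 _)
                (CovZ.leaf K2_ok TB_l6759 _)))
              (CovZ.n1 (-28704, 1680) (by decide +kernel)
               (CovZ.leaf K2_ok TB_l6760 _)
               (CovZ.n1 (-28728, 1704) (by decide +kernel)
                (CovZ.leaf K2_ok TB_l6761 _)
                (CovZ.leaf K2_ok TB_l6762 _)))))))))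

theorem TB_u113 : CovZ TB_M (toL (selN TB_LN 322781542626650360341095915229964375180971085816304781875471259599762358923680673248809410992825713333418637552833789952)) [0, 7, 6, 1] (-28032, 1920) (-28224, 1728) (-28032, 1536) :=
    (CovZ.n2 (-28032, 1728) (by decide +kernel)
          (CovZ.n2 (-28128, 1632) (by decide +kernel)
           (CovZ.n2 (-28128, 1728) (by decide +kernel)
            (CovZ.n2 (-28080, 1680) (by decide +kernel)
             (CovZ.subM 307828210105309724687083353217399812872964723801149793739847510013855009849085681412753744754143785655692175605760 (by decide +kernel)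
              (CovZ.n2 (-28128, 1680) (by decide +kernel)
               (CovZ.n2 (-28104, 1704) (by decide +kernel)
                (CovZ.leaf K2_ok TB_l6763 _)
                (CovZ.leaf K2_ok TB_l6764 _))
               (CovZ.n1 (-28104, 1656) (by decide +kernel)
                (CovZ.leaf K2_ok TB_l6765 _)
                (CovZ.leaf K2_ok TB_l6766 _))))
             (CovZ.subM 36695977855841153352435027830020779260750638491746935095559372200730633695826410882463747261709194385948672 (by decide +kernel)
              (CovZ.n1 (-28080, 1728) (by decide +kernel)
               (CovZ.n2 (-28056, 1704) (by decide +kernel)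
                (CovZ.leaf K2_ok TB_l6767 _)
                (CovZ.n1 (-28056, 1728) (by decide +kernel)
                 (CovZ.leaf K2_ok TB_l6768 _)
                 (CovZ.leaf K2_ok TB_l6769 _)))
               (CovZ.n1 (-28104, 1704) (by decide +kernel)
                (CovZ.n2 (-28104, 1728) (by decide +kernel)
                 (CovZ.leaf K2_ok TB_l6770 _)
                 (CovZ.leaf K2_ok TB_l6771 _))
                (CovZ.leaf K2_ok TB_l6772 _)))))
            (CovZ.subM 307828210105309724687083353217399812872964723801149793739847510013855009849085681412753744754143785655692175605760 (by decide +kernel)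
             (CovZ.n1 (-28176, 1680) (by decide +kernel)
              (CovZ.n2 (-28176, 1728) (by decide +kernel)
               (CovZ.n2 (-28152, 1704) (by decide +kernel)
                (CovZ.leaf K2_ok TB_l6773 _)
                (CovZ.n1 (-28152, 1728) (by decide +kernel)
                 (CovZ.leaf K2_ok TB_l6774 _)
                 (CovZ.leaf K2_ok TB_l6775 _)))
               (CovZ.n1 (-28200, 1704) (by decide +kernel)
                (CovZ.n2 (-28200, 1728) (by decide +kernel)
                 (CovZ.leaf K2_ok TB_l6776 _)
                 (CovZ.leaf K2_ok TB_l6777 _))
                (CovZ.leaf K2_ok TB_l6778 _)))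
              (CovZ.n1 (-28128, 1680) (by decide +kernel)
               (CovZ.n2 (-28152, 1656) (by decide +kernel)
                (CovZ.leaf K2_ok TB_l6779 _)
                (CovZ.leaf K2_ok TB_l6780 _))
               (CovZ.n1 (-28152, 1704) (by decide +kernel)
                (CovZ.leaf K2_ok TB_l6781 _)
                (CovZ.leaf K2_ok TB_l6782 _))))))
           (CovZ.n1 (-28032, 1632) (by decide +kernel)
            (CovZ.n2 (-28080, 1584) (by decide +kernel)
             (CovZ.n2 (-28080, 1632) (by decide +kernel)
              (CovZ.n2 (-28056, 1608) (by decide +kernel)
               (CovZ.leaf K2_ok TB_l6783 _)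
               (CovZ.leaf K2_ok TB_l6784 _))
              (CovZ.n1 (-28104, 1608) (by decide +kernel)
               (CovZ.leaf K2_ok TB_l6785 _)
               (CovZ.leaf K2_ok TB_l6786 _)))
             (CovZ.n1 (-28032, 1584) (by decide +kernel)
              (CovZ.leaf K2_ok TB_l6787 _)
              (CovZ.leaf K2_ok TB_l6788 _)))
            (CovZ.n1 (-28080, 1680) (by decide +kernel)
             (CovZ.subM 307828210105309724687083353217399812872964723801149793840281137780041902070458312184076407411781472767116727812096 (by decide +kernel)
              (CovZ.n2 (-28032, 1680) (by decide +kernel)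
               (CovZ.n2 (-28056, 1656) (by decide +kernel)
                (CovZ.n2 (-28056, 1680) (by decide +kernel)
                 (CovZ.leaf K2_ok TB_l6789 _)
                 (CovZ.leaf K2_ok TB_l6790 _))
                (CovZ.leaf K2_ok TB_l6791 _))
               (CovZ.n1 (-28056, 1704) (by decide +kernel)
                (CovZ.leaf K2_ok TB_l6792 _)
                (CovZ.n1 (-28056, 1680) (by decide +kernel)
                 (CovZ.leaf K2_ok TB_l6793 _)
                 (CovZ.leaf K2_ok TB_l6794 _)))))
             (CovZ.n1 (-28080, 1632) (by decide +kernel)
              (CovZ.n2 (-28104, 1656) (by decide +kernel)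
               (CovZ.leaf K2_ok TB_l6795 _)
               (CovZ.leaf K2_ok TB_l6796 _))
              (CovZ.n1 (-28056, 1656) (by decide +kernel)
               (CovZ.leaf K2_ok TB_l6797 _)
               (CovZ.leaf K2_ok TB_l6798 _))))))
          (CovZ.subM 307828210105309724687083353217399812872964723801149793840281137780041902070455653728084837580035665152996167122944 (by decide +kernel)
           (CovZ.n1 (-28128, 1824) (by decide +kernel)
            (CovZ.subM 100433627766186892224094889706690170365344683970878765006848 (by decide +kernel)
             (CovZ.n2 (-28032, 1824) (by decide +kernel)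
              (CovZ.n2 (-28080, 1776) (by decide +kernel)
               (CovZ.n2 (-28080, 1824) (by decide +kernel)
                (CovZ.n2 (-28056, 1800) (by decide +kernel)
                 (CovZ.n2 (-28080, 1800) (by decide +kernel)
                  (CovZ.leaf K2_ok TB_l6799 _)
                  (CovZ.leaf K2_ok TB_l6800 _))
                 (CovZ.n1 (-28056, 1824) (by decide +kernel)
                  (CovZ.n2 (-28044, 1812) (by decide +kernel)
                   (CovZ.leaf K2_ok TB_l6801 _)
                   (CovZ.leaf K2_ok TB_l6802 _))
                  (CovZ.leaf K2_ok TB_l6803 _)))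
                (CovZ.n1 (-28104, 1800) (by decide +kernel)
                 (CovZ.n2 (-28104, 1824) (by decide +kernel)
                  (CovZ.leaf K2_ok TB_l6804 _)
                  (CovZ.leaf K2_ok TB_l6805 _))
                 (CovZ.n1 (-28080, 1800) (by decide +kernel)
                  (CovZ.leaf K2_ok TB_l6806 _)
                  (CovZ.leaf K2_ok TB_l6807 _))))
               (CovZ.n1 (-28032, 1776) (by decide +kernel)
                (CovZ.n2 (-28056, 1752) (by decide +kernel)
                 (CovZ.n2 (-28056, 1776) (by decide +kernel)
                  (CovZ.leaf K2_ok TB_l6808 _)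
                  (CovZ.leaf K2_ok TB_l6809 _))
                 (CovZ.n1 (-28032, 1752) (by decide +kernel)
                  (CovZ.leaf K2_ok TB_l6810 _)
                  (CovZ.leaf K2_ok TB_l6811 _)))
                (CovZ.n1 (-28056, 1800) (by decide +kernel)
                 (CovZ.n2 (-28032, 1800) (by decide +kernel)
                  (CovZ.leaf K2_ok TB_l6812 _)
                  (CovZ.n1 (-28044, 1812) (by decide +kernel)
                   (CovZ.leaf K2_ok TB_l6813 _)
                   (CovZ.leaf K2_ok TB_l6814 _)))
                 (CovZ.n1 (-28056, 1776) (by decide +kernel)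
                  (CovZ.leaf K2_ok TB_l6815 _)
                  (CovZ.leaf K2_ok TB_l6816 _)))))
              (CovZ.n1 (-28080, 1872) (by decide +kernel)
               (CovZ.n2 (-28032, 1872) (by decide +kernel)
                (CovZ.n2 (-28056, 1848) (by decide +kernel)
                 (CovZ.badM (by decide +kernel))
                 (CovZ.n1 (-28032, 1848) (by decide +kernel)
                  (CovZ.n2 (-28044, 1836) (by decide +kernel)
                   (CovZ.n2 (-28044, 1848) (by decide +kernel)
                    (CovZ.leaf K2_ok TB_l38523 _)
                    (CovZ.badM (by decide +kernel)))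
                   (CovZ.leaf K2_ok TB_l38524 _))
                  (CovZ.badM (by decide +kernel))))
                (CovZ.badM (by decide +kernel)))
               (CovZ.n1 (-28080, 1824) (by decide +kernel)
                (CovZ.n2 (-28104, 1848) (by decide +kernel)
                 (CovZ.n2 (-28080, 1848) (by decide +kernel)
                  (CovZ.n2 (-28092, 1836) (by decide +kernel)
                   (CovZ.leaf K2_ok TB_l6817 _)
                   (CovZ.leaf K2_ok TB_l6818 _))
                  (CovZ.n1 (-28092, 1860) (by decide +kernel)
                   (CovZ.badM (by decide +kernel))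
                   (CovZ.leaf K2_ok TB_l6820 _)))
                 (CovZ.n1 (-28104, 1824) (by decide +kernel)
                  (CovZ.n2 (-28116, 1836) (by decide +kernel)
                   (CovZ.leaf K2_ok TB_l6821 _)
                   (CovZ.leaf K2_ok TB_l6822 _))
                  (CovZ.n1 (-28092, 1836) (by decide +kernel)
                   (CovZ.leaf K2_ok TB_l6823 _)
                   (CovZ.leaf K2_ok TB_l6824 _))))
                (CovZ.n1 (-28056, 1848) (by decide +kernel)
                 (CovZ.n2 (-28056, 1824) (by decide +kernel)
                  (CovZ.n2 (-28068, 1836) (by decide +kernel)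
                   (CovZ.badM (by decide +kernel))
                   (CovZ.leaf K2_ok TB_l6826 _))
                  (CovZ.n1 (-28044, 1836) (by decide +kernel)
                   (CovZ.leaf K2_ok TB_l6827 _)
                   (CovZ.badM (by decide +kernel))))
                 (CovZ.n1 (-28080, 1848) (by decide +kernel)
                  (CovZ.badM (by decide +kernel))
                  (CovZ.n1 (-28068, 1836) (by decide +kernel)
                   (CovZ.leaf K2_ok TB_l6831 _)
                   (CovZ.badM (by decide +kernel)))))))))
            (CovZ.n1 (-28128, 1728) (by decide +kernel)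
             (CovZ.n2 (-28176, 1776) (by decide +kernel)
              (CovZ.n2 (-28128, 1776) (by decide +kernel)
               (CovZ.n2 (-28152, 1752) (by decide +kernel)
                (CovZ.n2 (-28152, 1776) (by decide +kernel)
                 (CovZ.leaf K2_ok TB_l6833 _)
                 (CovZ.leaf K2_ok TB_l6834 _))
                (CovZ.leaf K2_ok TB_l6835 _))
               (CovZ.subM 9166661893505187388208005598664954003392210792574197719141307274586083781751805109566701568 (by decide +kernel)
                (CovZ.n1 (-28152, 1800) (by decide +kernel)
                 (CovZ.n2 (-28128, 1800) (by decide +kernel)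
                  (CovZ.leaf K2_ok TB_l6836 _)
                  (CovZ.leaf K2_ok TB_l6837 _))
                 (CovZ.n1 (-28152, 1776) (by decide +kernel)
                  (CovZ.leaf K2_ok TB_l6838 _)
                  (CovZ.leaf K2_ok TB_l6839 _)))))
              (CovZ.n1 (-28176, 1728) (by decide +kernel)
               (CovZ.n2 (-28200, 1752) (by decide +kernel)
                (CovZ.leaf K2_ok TB_l6840 _)
                (CovZ.n1 (-28200, 1728) (by decide +kernel)
                 (CovZ.leaf K2_ok TB_l6841 _)
                 (CovZ.leaf K2_ok TB_l6842 _)))
               (CovZ.n1 (-28152, 1752) (by decide +kernel)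
                (CovZ.n2 (-28152, 1728) (by decide +kernel)
                 (CovZ.leaf K2_ok TB_l6843 _)
                 (CovZ.leaf K2_ok TB_l6844 _))
                (CovZ.leaf K2_ok TB_l6845 _))))
             (CovZ.n1 (-28080, 1776) (by decide +kernel)
              (CovZ.n2 (-28080, 1728) (by decide +kernel)
               (CovZ.n2 (-28104, 1752) (by decide +kernel)
                (CovZ.n2 (-28080, 1752) (by decide +kernel)
                 (CovZ.leaf K2_ok TB_l6846 _)
                 (CovZ.leaf K2_ok TB_l6847 _))
                (CovZ.n1 (-28104, 1728) (by decide +kernel)
                 (CovZ.leaf K2_ok TB_l6848 _)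
                 (CovZ.leaf K2_ok TB_l6849 _)))
               (CovZ.n1 (-28056, 1752) (by decide +kernel)
                (CovZ.n2 (-28056, 1728) (by decide +kernel)
                 (CovZ.leaf K2_ok TB_l6850 _)
                 (CovZ.leaf K2_ok TB_l6851 _))
                (CovZ.leaf K2_ok TB_l6852 _)))
              (CovZ.n1 (-28128, 1776) (by decide +kernel)
               (CovZ.subM 67108864 (by decide +kernel)
                (CovZ.n2 (-28104, 1800) (by decide +kernel)
                 (CovZ.n2 (-28104, 1776) (by decide +kernel)
                  (CovZ.leaf K2_ok TB_l6853 _)
                  (CovZ.leaf K2_ok TB_l6854 _))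
                 (CovZ.n1 (-28128, 1800) (by decide +kernel)
                  (CovZ.leaf K2_ok TB_l6855 _)
                  (CovZ.leaf K2_ok TB_l6856 _))))
               (CovZ.n1 (-28104, 1752) (by decide +kernel)
                (CovZ.leaf K2_ok TB_l6857 _)
                (CovZ.n1 (-28104, 1776) (by decide +kernel)
                 (CovZ.leaf K2_ok TB_l6858 _)
                 (CovZ.leaf K2_ok TB_l6859 _)))))))))

theorem TB_u114 : CovZ TB_M (toL (selN TB_LN 322781542626650360341095915229964375180971085816304781875471259599762358923680673248809410992825713333418637552833789952)) [0, 7, 6, 1] (-28224, 1728) (-28416, 1536) (-28032, 1536) :=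
    (CovZ.n1 (-28224, 1536) (by decide +kernel)
          (CovZ.n2 (-28320, 1632) (by decide +kernel)
           (CovZ.n2 (-28224, 1632) (by decide +kernel)
            (CovZ.n2 (-28272, 1584) (by decide +kernel)
             (CovZ.n2 (-28272, 1632) (by decide +kernel)
              (CovZ.n2 (-28248, 1608) (by decide +kernel)
               (CovZ.leaf K2_ok TB_l6860 _)
               (CovZ.leaf K2_ok TB_l6861 _))
              (CovZ.leaf K2_ok TB_l6862 _))
             (CovZ.n1 (-28224, 1584) (by decide +kernel)
              (CovZ.leaf K2_ok TB_l6863 _)
              (CovZ.leaf K2_ok TB_l6864 _)))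
            (CovZ.n1 (-28272, 1680) (by decide +kernel)
             (CovZ.n2 (-28224, 1680) (by decide +kernel)
              (CovZ.n2 (-28248, 1656) (by decide +kernel)
               (CovZ.leaf K2_ok TB_l6865 _)
               (CovZ.leaf K2_ok TB_l6866 _))
              (CovZ.n1 (-28248, 1704) (by decide +kernel)
               (CovZ.leaf K2_ok TB_l6867 _)
               (CovZ.leaf K2_ok TB_l6868 _)))
             (CovZ.n1 (-28272, 1632) (by decide +kernel)
              (CovZ.leaf K2_ok TB_l6869 _)
              (CovZ.n1 (-28248, 1656) (by decide +kernel)
               (CovZ.leaf K2_ok TB_l6870 _)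
               (CovZ.leaf K2_ok TB_l6871 _)))))
           (CovZ.n1 (-28320, 1536) (by decide +kernel)
            (CovZ.n2 (-28368, 1584) (by decide +kernel)
             (CovZ.n2 (-28320, 1584) (by decide +kernel)
              (CovZ.leaf K2_ok TB_l6872 _)
              (CovZ.leaf K2_ok TB_l6873 _))
             (CovZ.n1 (-28368, 1536) (by decide +kernel)
              (CovZ.leaf K2_ok TB_l6874 _)
              (CovZ.leaf K2_ok TB_l6875 _)))
            (CovZ.n1 (-28272, 1584) (by decide +kernel)
             (CovZ.n2 (-28272, 1536) (by decide +kernel)
              (CovZ.leaf K2_ok TB_l6876 _)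
              (CovZ.leaf K2_ok TB_l6877 _))
             (CovZ.n1 (-28320, 1584) (by decide +kernel)
              (CovZ.leaf K2_ok TB_l6878 _)
              (CovZ.leaf K2_ok TB_l6879 _)))))
          (CovZ.n1 (-28128, 1632) (by decide +kernel)
           (CovZ.n2 (-28128, 1536) (by decide +kernel)
            (CovZ.n2 (-28176, 1584) (by decide +kernel)
             (CovZ.n2 (-28128, 1584) (by decide +kernel)
              (CovZ.leaf K2_ok TB_l6880 _)
              (CovZ.leaf K2_ok TB_l6881 _))
             (CovZ.n1 (-28176, 1536) (by decide +kernel)
              (CovZ.leaf K2_ok TB_l6882 _)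
              (CovZ.leaf K2_ok TB_l6883 _)))
            (CovZ.n1 (-28080, 1584) (by decide +kernel)
             (CovZ.n2 (-28080, 1536) (by decide +kernel)
              (CovZ.leaf K2_ok TB_l6884 _)
              (CovZ.leaf K2_ok TB_l6885 _))
             (CovZ.n1 (-28128, 1584) (by decide +kernel)
              (CovZ.n2 (-28104, 1608) (by decide +kernel)
               (CovZ.leaf K2_ok TB_l6886 _)
               (CovZ.leaf K2_ok TB_l6887 _))
              (CovZ.n1 (-28104, 1560) (by decide +kernel)
               (CovZ.leaf K2_ok TB_l6888 _)
               (CovZ.leaf K2_ok TB_l6889 _)))))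
           (CovZ.n1 (-28224, 1632) (by decide +kernel)
            (CovZ.n2 (-28176, 1680) (by decide +kernel)
             (CovZ.n2 (-28176, 1632) (by decide +kernel)
              (CovZ.leaf K2_ok TB_l6890 _)
              (CovZ.n1 (-28152, 1656) (by decide +kernel)
               (CovZ.leaf K2_ok TB_l6891 _)
               (CovZ.leaf K2_ok TB_l6892 _)))
             (CovZ.n1 (-28224, 1680) (by decide +kernel)
              (CovZ.n2 (-28200, 1704) (by decide +kernel)
               (CovZ.leaf K2_ok TB_l6893 _)
               (CovZ.leaf K2_ok TB_l6894 _))
              (CovZ.n1 (-28200, 1656) (by decide +kernel)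
               (CovZ.leaf K2_ok TB_l6895 _)
               (CovZ.leaf K2_ok TB_l6896 _))))
            (CovZ.n1 (-28176, 1584) (by decide +kernel)
             (CovZ.n2 (-28224, 1584) (by decide +kernel)
              (CovZ.n2 (-28200, 1608) (by decide +kernel)
               (CovZ.leaf K2_ok TB_l6897 _)
               (CovZ.leaf K2_ok TB_l6898 _))
              (CovZ.leaf K2_ok TB_l6899 _))
             (CovZ.n1 (-28176, 1632) (by decide +kernel)
              (CovZ.n2 (-28152, 1608) (by decide +kernel)
               (CovZ.leaf K2_ok TB_l6900 _)
               (CovZ.leaf K2_ok TB_l6901 _))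
              (CovZ.n1 (-28200, 1608) (by decide +kernel)
               (CovZ.leaf K2_ok TB_l6902 _)
               (CovZ.leaf K2_ok TB_l6903 _)))))))

theorem TB_u115 : CovZ TB_M (toL (selN TB_LN 322786467877571693562420814686717001728680458038007449376301449114720109116783723054192584636644382138142529736086126592)) [0, 7, 6, 1] (-27648, 1536) (-27840, 1728) (-28032, 1536) :=
    (CovZ.n2 (-27840, 1536) (by decide +kernel)
          (CovZ.n2 (-27936, 1632) (by decide +kernel)
           (CovZ.subM 307828210105309724687083353217399812872964723801149793840281137780041902070458312184076407411781472767116727812096 (by decide +kernel)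
            (CovZ.n2 (-27840, 1632) (by decide +kernel)
             (CovZ.n2 (-27888, 1584) (by decide +kernel)
              (CovZ.n2 (-27888, 1632) (by decide +kernel)
               (CovZ.n2 (-27864, 1608) (by decide +kernel)
                (CovZ.leaf K2_ok TB_l6904 _)
                (CovZ.n1 (-27864, 1632) (by decide +kernel)
                 (CovZ.leaf K2_ok TB_l6905 _)
                 (CovZ.leaf K2_ok TB_l6906 _)))
               (CovZ.n1 (-27912, 1608) (by decide +kernel)
                (CovZ.n2 (-27912, 1632) (by decide +kernel)
                 (CovZ.leaf K2_ok TB_l6907 _)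
                 (CovZ.leaf K2_ok TB_l6908 _))
                (CovZ.leaf K2_ok TB_l6909 _)))
              (CovZ.n1 (-27840, 1584) (by decide +kernel)
               (CovZ.n2 (-27864, 1560) (by decide +kernel)
                (CovZ.leaf K2_ok TB_l6910 _)
                (CovZ.leaf K2_ok TB_l6911 _))
               (CovZ.n1 (-27864, 1608) (by decide +kernel)
                (CovZ.leaf K2_ok TB_l6912 _)
                (CovZ.n1 (-27864, 1584) (by decide +kernel)
                 (CovZ.leaf K2_ok TB_l6913 _)
                 (CovZ.leaf K2_ok TB_l6914 _)))))
             (CovZ.subM 822852712384150179273826742474234623428459347284546126136475648 (by decide +kernel)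
              (CovZ.n1 (-27888, 1680) (by decide +kernel)
               (CovZ.n2 (-27840, 1680) (by decide +kernel)
                (CovZ.n2 (-27864, 1656) (by decide +kernel)
                 (CovZ.n2 (-27864, 1680) (by decide +kernel)
                  (CovZ.leaf K2_ok TB_l6915 _)
                  (CovZ.leaf K2_ok TB_l6916 _))
                 (CovZ.leaf K2_ok TB_l6917 _))
                (CovZ.n1 (-27864, 1704) (by decide +kernel)
                 (CovZ.n2 (-27840, 1704) (by decide +kernel)
                  (CovZ.leaf K2_ok TB_l6918 _)
                  (CovZ.leaf K2_ok TB_l6919 _))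
                 (CovZ.n1 (-27864, 1680) (by decide +kernel)
                  (CovZ.leaf K2_ok TB_l6920 _)
                  (CovZ.leaf K2_ok TB_l6921 _))))
               (CovZ.n1 (-27888, 1632) (by decide +kernel)
                (CovZ.n2 (-27912, 1656) (by decide +kernel)
                 (CovZ.leaf K2_ok TB_l6922 _)
                 (CovZ.n1 (-27912, 1632) (by decide +kernel)
                  (CovZ.leaf K2_ok TB_l6923 _)
                  (CovZ.leaf K2_ok TB_l6924 _)))
                (CovZ.n1 (-27864, 1656) (by decide +kernel)
                 (CovZ.n2 (-27864, 1632) (by decide +kernel)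
                  (CovZ.leaf K2_ok TB_l6925 _)
                  (CovZ.leaf K2_ok TB_l6926 _))
                 (CovZ.leaf K2_ok TB_l6927 _)))))))
           (CovZ.n1 (-27936, 1536) (by decide +kernel)
            (CovZ.n2 (-27984, 1584) (by decide +kernel)
             (CovZ.n2 (-27936, 1584) (by decide +kernel)
              (CovZ.n2 (-27960, 1560) (by decide +kernel)
               (CovZ.leaf K2_ok TB_l6928 _)
               (CovZ.leaf K2_ok TB_l6929 _))
              (CovZ.n1 (-27960, 1608) (by decide +kernel)
               (CovZ.leaf K2_ok TB_l6930 _)
               (CovZ.leaf K2_ok TB_l6931 _)))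
             (CovZ.n1 (-27984, 1536) (by decide +kernel)
              (CovZ.leaf K2_ok TB_l6932 _)
              (CovZ.n1 (-27960, 1560) (by decide +kernel)
               (CovZ.leaf K2_ok TB_l6933 _)
               (CovZ.leaf K2_ok TB_l6934 _))))
            (CovZ.n1 (-27888, 1584) (by decide +kernel)
             (CovZ.n2 (-27888, 1536) (by decide +kernel)
              (CovZ.n2 (-27912, 1560) (by decide +kernel)
               (CovZ.leaf K2_ok TB_l6935 _)
               (CovZ.leaf K2_ok TB_l6936 _))
              (CovZ.n1 (-27864, 1560) (by decide +kernel)
               (CovZ.leaf K2_ok TB_l6937 _)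
               (CovZ.leaf K2_ok TB_l6938 _)))
             (CovZ.n1 (-27936, 1584) (by decide +kernel)
              (CovZ.n2 (-27912, 1608) (by decide +kernel)
               (CovZ.leaf K2_ok TB_l6939 _)
               (CovZ.leaf K2_ok TB_l6940 _))
              (CovZ.n1 (-27912, 1560) (by decide +kernel)
               (CovZ.leaf K2_ok TB_l6941 _)
               (CovZ.leaf K2_ok TB_l6942 _))))))
          (CovZ.n1 (-27744, 1632) (by decide +kernel)
           (CovZ.n2 (-27744, 1536) (by decide +kernel)
            (CovZ.subM 307828210105309724687083353217399812872964723801149793840281137780041902070458312184076407411781472767116727812096 (by decide +kernel)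
             (CovZ.n2 (-27792, 1584) (by decide +kernel)
              (CovZ.subM 822852712384150179273826742474234623428459347284546126136475648 (by decide +kernel)
               (CovZ.n2 (-27744, 1584) (by decide +kernel)
                (CovZ.n2 (-27768, 1560) (by decide +kernel)
                 (CovZ.n2 (-27768, 1584) (by decide +kernel)
                  (CovZ.leaf K2_ok TB_l6943 _)
                  (CovZ.leaf K2_ok TB_l6944 _))
                 (CovZ.leaf K2_ok TB_l6945 _))
                (CovZ.n1 (-27768, 1608) (by decide +kernel)
                 (CovZ.leaf K2_ok TB_l6946 _)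
                 (CovZ.n1 (-27768, 1584) (by decide +kernel)
                  (CovZ.leaf K2_ok TB_l6947 _)
                  (CovZ.leaf K2_ok TB_l6948 _)))))
              (CovZ.n1 (-27792, 1536) (by decide +kernel)
               (CovZ.n2 (-27816, 1560) (by decide +kernel)
                (CovZ.leaf K2_ok TB_l6949 _)
                (CovZ.leaf K2_ok TB_l6950 _))
               (CovZ.n1 (-27768, 1560) (by decide +kernel)
                (CovZ.leaf K2_ok TB_l6951 _)
                (CovZ.leaf K2_ok TB_l6952 _)))))
            (CovZ.subM 146783911423364576743092537299333564210980160131430510369394999487518943076954972647932604860969373107486720 (by decide +kernel)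
             (CovZ.n1 (-27696, 1584) (by decide +kernel)
              (CovZ.n2 (-27696, 1536) (by decide +kernel)
               (CovZ.subM 822852712384150179273826742474234623428459347284546126136475648 (by decide +kernel)
                (CovZ.n2 (-27720, 1560) (by decide +kernel)
                 (CovZ.n2 (-27696, 1560) (by decide +kernel)
                  (CovZ.leaf K2_ok TB_l6953 _)
                  (CovZ.leaf K2_ok TB_l6954 _))
                 (CovZ.n1 (-27720, 1536) (by decide +kernel)
                  (CovZ.leaf K2_ok TB_l6955 _)
                  (CovZ.leaf K2_ok TB_l6956 _))))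
               (CovZ.n1 (-27672, 1560) (by decide +kernel)
                (CovZ.n2 (-27672, 1536) (by decide +kernel)
                 (CovZ.leaf K2_ok TB_l6957 _)
                 (CovZ.leaf K2_ok TB_l6958 _))
                (CovZ.n1 (-27696, 1560) (by decide +kernel)
                 (CovZ.leaf K2_ok TB_l6959 _)
                 (CovZ.leaf K2_ok TB_l6960 _))))
              (CovZ.subM 822852712384150179273826742474234623428459347284546126136475648 (by decide +kernel)
               (CovZ.n1 (-27744, 1584) (by decide +kernel)
                (CovZ.n2 (-27720, 1608) (by decide +kernel)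
                 (CovZ.n2 (-27720, 1584) (by decide +kernel)
                  (CovZ.leaf K2_ok TB_l6961 _)
                  (CovZ.leaf K2_ok TB_l6962 _))
                 (CovZ.n1 (-27744, 1608) (by decide +kernel)
                  (CovZ.leaf K2_ok TB_l6963 _)
                  (CovZ.leaf K2_ok TB_l6964 _)))
                (CovZ.n1 (-27720, 1560) (by decide +kernel)
                 (CovZ.leaf K2_ok TB_l6965 _)
                 (CovZ.n1 (-27720, 1584) (by decide +kernel)
                  (CovZ.leaf K2_ok TB_l6966 _)
                  (CovZ.leaf K2_ok TB_l6967 _))))))))
           (CovZ.subM 307828210105309724687083353217399812872964723801149793840281137780041902070458312184076407411781472767116727812096 (by decide +kernel)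
            (CovZ.n1 (-27840, 1632) (by decide +kernel)
             (CovZ.subM 100433723547158196342151195559370937091414467756194462171136 (by decide +kernel)
              (CovZ.n2 (-27792, 1680) (by decide +kernel)
               (CovZ.n2 (-27792, 1632) (by decide +kernel)
                (CovZ.n2 (-27816, 1656) (by decide +kernel)
                 (CovZ.n2 (-27792, 1656) (by decide +kernel)
                  (CovZ.leaf K2_ok TB_l6968 _)
                  (CovZ.leaf K2_ok TB_l6969 _))
                 (CovZ.n1 (-27816, 1632) (by decide +kernel)
                  (CovZ.leaf K2_ok TB_l6970 _)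
                  (CovZ.leaf K2_ok TB_l6971 _)))
                (CovZ.n1 (-27768, 1656) (by decide +kernel)
                 (CovZ.n2 (-27768, 1632) (by decide +kernel)
                  (CovZ.leaf K2_ok TB_l6972 _)
                  (CovZ.leaf K2_ok TB_l6973 _))
                 (CovZ.n1 (-27792, 1656) (by decide +kernel)
                  (CovZ.leaf K2_ok TB_l6974 _)
                  (CovZ.leaf K2_ok TB_l6975 _))))
               (CovZ.n1 (-27840, 1680) (by decide +kernel)
                (CovZ.n2 (-27816, 1704) (by decide +kernel)
                 (CovZ.n2 (-27816, 1680) (by decide +kernel)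
                  (CovZ.n2 (-27828, 1692) (by decide +kernel)
                   (CovZ.leaf K2_ok TB_l6976 _)
                   (CovZ.leaf K2_ok TB_l6977 _))
                  (CovZ.leaf K2_ok TB_l6978 _))
                 (CovZ.n1 (-27840, 1704) (by decide +kernel)
                  (CovZ.leaf K2_ok TB_l6979 _)
                  (CovZ.leaf K2_ok TB_l6980 _)))
                (CovZ.n1 (-27816, 1656) (by decide +kernel)
                 (CovZ.n2 (-27840, 1656) (by decide +kernel)
                  (CovZ.leaf K2_ok TB_l6981 _)
                  (CovZ.leaf K2_ok TB_l6982 _))
                 (CovZ.n1 (-27816, 1680) (by decide +kernel)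
                  (CovZ.leaf K2_ok TB_l6983 _)
                  (CovZ.leaf K2_ok TB_l6984 _))))))
             (CovZ.n1 (-27792, 1584) (by decide +kernel)
              (CovZ.n2 (-27840, 1584) (by decide +kernel)
               (CovZ.n2 (-27816, 1608) (by decide +kernel)
                (CovZ.n2 (-27816, 1584) (by decide +kernel)
                 (CovZ.leaf K2_ok TB_l6985 _)
                 (CovZ.leaf K2_ok TB_l6986 _))
                (CovZ.leaf K2_ok TB_l6987 _))
               (CovZ.n1 (-27816, 1560) (by decide +kernel)
                (CovZ.leaf K2_ok TB_l6988 _)
                (CovZ.leaf K2_ok TB_l6989 _)))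
              (CovZ.subM 100433723547158196342151195559370937091414467756194462171136 (by decide +kernel)
               (CovZ.n1 (-27792, 1632) (by decide +kernel)
                (CovZ.n2 (-27768, 1608) (by decide +kernel)
                 (CovZ.leaf K2_ok TB_l6990 _)
                 (CovZ.n1 (-27768, 1632) (by decide +kernel)
                  (CovZ.leaf K2_ok TB_l6991 _)
                  (CovZ.leaf K2_ok TB_l6992 _)))
                (CovZ.n1 (-27816, 1608) (by decide +kernel)
                 (CovZ.n2 (-27816, 1632) (by decide +kernel)
                  (CovZ.leaf K2_ok TB_l6993 _)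
                  (CovZ.leaf K2_ok TB_l6994 _))
                 (CovZ.leaf K2_ok TB_l6995 _)))))))))

theorem TB_u116 : CovZ TB_M (toL (selN TB_LN 322786467877571693562420814686717001728680458038007449376301449114720109116783723054192584636644382138142529736086126592)) [0, 7, 6, 1] (-27840, 1728) (-28032, 1920) (-28032, 1536) :=
    (CovZ.n1 (-28032, 1728) (by decide +kernel)
          (CovZ.subM 100433627766186892224094889706690170365344683970878765006848 (by decide +kernel)
           (CovZ.n2 (-27936, 1824) (by decide +kernel)
            (CovZ.n2 (-27936, 1728) (by decide +kernel)
             (CovZ.n2 (-27984, 1776) (by decide +kernel)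
              (CovZ.n2 (-27936, 1776) (by decide +kernel)
               (CovZ.n2 (-27960, 1752) (by decide +kernel)
                (CovZ.n2 (-27960, 1776) (by decide +kernel)
                 (CovZ.leaf K2_ok TB_l6996 _)
                 (CovZ.leaf K2_ok TB_l6997 _))
                (CovZ.n1 (-27936, 1752) (by decide +kernel)
                 (CovZ.leaf K2_ok TB_l6998 _)
                 (CovZ.leaf K2_ok TB_l6999 _)))
               (CovZ.n1 (-27960, 1800) (by decide +kernel)
                (CovZ.badM (by decide +kernel))
                (CovZ.n1 (-27960, 1776) (by decide +kernel)
                 (CovZ.n2 (-27972, 1788) (by decide +kernel)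
                  (CovZ.leaf K2_ok TB_l7000 _)
                  (CovZ.leaf K2_ok TB_l7001 _))
                 (CovZ.n1 (-27948, 1788) (by decide +kernel)
                  (CovZ.leaf K2_ok TB_l7002 _)
                  (CovZ.leaf K2_ok TB_l7003 _)))))
              (CovZ.n1 (-27984, 1728) (by decide +kernel)
               (CovZ.n2 (-28008, 1752) (by decide +kernel)
                (CovZ.n2 (-27984, 1752) (by decide +kernel)
                 (CovZ.leaf K2_ok TB_l7004 _)
                 (CovZ.leaf K2_ok TB_l7005 _))
                (CovZ.n1 (-28008, 1728) (by decide +kernel)
                 (CovZ.leaf K2_ok TB_l7006 _)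
                 (CovZ.leaf K2_ok TB_l7007 _)))
               (CovZ.n1 (-27960, 1752) (by decide +kernel)
                (CovZ.n2 (-27960, 1728) (by decide +kernel)
                 (CovZ.leaf K2_ok TB_l7008 _)
                 (CovZ.leaf K2_ok TB_l7009 _))
                (CovZ.n1 (-27984, 1752) (by decide +kernel)
                 (CovZ.leaf K2_ok TB_l7010 _)
                 (CovZ.leaf K2_ok TB_l7011 _)))))
             (CovZ.n1 (-27888, 1776) (by decide +kernel)
              (CovZ.n2 (-27888, 1728) (by decide +kernel)
               (CovZ.n2 (-27912, 1752) (by decide +kernel)
                (CovZ.n2 (-27888, 1752) (by decide +kernel)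
                 (CovZ.n2 (-27900, 1740) (by decide +kernel)
                  (CovZ.leaf K2_ok TB_l7012 _)
                  (CovZ.leaf K2_ok TB_l7013 _))
                 (CovZ.badM (by decide +kernel)))
                (CovZ.n1 (-27912, 1728) (by decide +kernel)
                 (CovZ.leaf K2_ok TB_l7016 _)
                 (CovZ.leaf K2_ok TB_l7017 _)))
               (CovZ.n1 (-27864, 1752) (by decide +kernel)
                (CovZ.n2 (-27864, 1728) (by decide +kernel)
                 (CovZ.n2 (-27876, 1740) (by decide +kernel)
                  (CovZ.leaf K2_ok TB_l7018 _)
                  (CovZ.leaf K2_ok TB_l7019 _))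
                 (CovZ.n1 (-27852, 1740) (by decide +kernel)
                  (CovZ.leaf K2_ok TB_l7020 _)
                  (CovZ.leaf K2_ok TB_l7021 _)))
                (CovZ.n1 (-27888, 1752) (by decide +kernel)
                 (CovZ.badM (by decide +kernel))
                 (CovZ.n1 (-27876, 1740) (by decide +kernel)
                  (CovZ.leaf K2_ok TB_l7024 _)
                  (CovZ.badM (by decide +kernel))))))
              (CovZ.n1 (-27936, 1776) (by decide +kernel)
               (CovZ.badM (by decide +kernel))
               (CovZ.n1 (-27912, 1752) (by decide +kernel)
                (CovZ.n2 (-27936, 1752) (by decide +kernel)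
                 (CovZ.leaf K2_ok TB_l7026 _)
                 (CovZ.leaf K2_ok TB_l7027 _))
                (CovZ.badM (by decide +kernel))))))
            (CovZ.n1 (-28032, 1824) (by decide +kernel)
             (CovZ.n2 (-27984, 1872) (by decide +kernel)
              (CovZ.n2 (-27984, 1824) (by decide +kernel)
               (CovZ.n2 (-28008, 1848) (by decide +kernel)
                (CovZ.badM (by decide +kernel))
                (CovZ.n1 (-28008, 1824) (by decide +kernel)
                 (CovZ.n2 (-28020, 1836) (by decide +kernel)
                  (CovZ.badM (by decide +kernel))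
                  (CovZ.leaf K2_ok TB_l38525 _))
                 (CovZ.badM (by decide +kernel))))
               (CovZ.badM (by decide +kernel)))
              (CovZ.n1 (-28032, 1872) (by decide +kernel)
               (CovZ.badM (by decide +kernel))
               (CovZ.n1 (-28008, 1848) (by decide +kernel)
                (CovZ.n2 (-28032, 1848) (by decide +kernel)
                 (CovZ.badM (by decide +kernel))
                 (CovZ.n1 (-28020, 1836) (by decide +kernel)
                  (CovZ.leaf K2_ok TB_l38526 _)
                  (CovZ.badM (by decide +kernel))))
                (CovZ.badM (by decide +kernel)))))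
             (CovZ.n1 (-27984, 1776) (by decide +kernel)
              (CovZ.n2 (-28032, 1776) (by decide +kernel)
               (CovZ.n2 (-28008, 1800) (by decide +kernel)
                (CovZ.n2 (-28008, 1776) (by decide +kernel)
                 (CovZ.n2 (-28020, 1788) (by decide +kernel)
                  (CovZ.leaf K2_ok TB_l7031 _)
                  (CovZ.leaf K2_ok TB_l7032 _))
                 (CovZ.leaf K2_ok TB_l7033 _))
                (CovZ.n1 (-28032, 1800) (by decide +kernel)
                 (CovZ.leaf K2_ok TB_l7034 _)
                 (CovZ.leaf K2_ok TB_l7035 _)))
               (CovZ.n1 (-28008, 1752) (by decide +kernel)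
                (CovZ.n2 (-28032, 1752) (by decide +kernel)
                 (CovZ.leaf K2_ok TB_l7036 _)
                 (CovZ.leaf K2_ok TB_l7037 _))
                (CovZ.n1 (-28008, 1776) (by decide +kernel)
                 (CovZ.leaf K2_ok TB_l7038 _)
                 (CovZ.leaf K2_ok TB_l7039 _))))
              (CovZ.n1 (-27984, 1824) (by decide +kernel)
               (CovZ.n2 (-27960, 1800) (by decide +kernel)
                (CovZ.n2 (-27984, 1800) (by decide +kernel)
                 (CovZ.badM (by decide +kernel))
                 (CovZ.leaf K2_ok TB_l7040 _))
                (CovZ.badM (by decide +kernel)))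
               (CovZ.n1 (-28008, 1800) (by decide +kernel)
                (CovZ.n2 (-28008, 1824) (by decide +kernel)
                 (CovZ.n2 (-27996, 1812) (by decide +kernel)
                  (CovZ.leaf K2_ok TB_l7041 _)
                  (CovZ.badM (by decide +kernel)))
                 (CovZ.n1 (-28020, 1812) (by decide +kernel)
                  (CovZ.n2 (-28020, 1824) (by decide +kernel)
                   (CovZ.leaf K2_ok TB_l38527 _)
                   (CovZ.n1 (-28026, 1818) (by decide +kernel)
                    (CovZ.n2 (-28026, 1824) (by decide +kernel)
                     (CovZ.leaf K2_ok TB_l38528 _)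
                     (CovZ.leaf K2_ok TB_l38529 _))
                    (CovZ.leaf K2_ok TB_l38530 _)))
                  (CovZ.leaf K2_ok TB_l7042 _)))
                (CovZ.n1 (-27984, 1800) (by decide +kernel)
                 (CovZ.leaf K2_ok TB_l7043 _)
                 (CovZ.n1 (-27996, 1812) (by decide +kernel)
                  (CovZ.badM (by decide +kernel))
                  (CovZ.leaf K2_ok TB_l7044 _)))))))))
          (CovZ.n1 (-27936, 1632) (by decide +kernel)
           (CovZ.n2 (-28032, 1632) (by decide +kernel)
            (CovZ.subM 307828210105309724687083353217399812872964723801149793840281137780041902070458312184076407411781472767116727812096 (by decide +kernel)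
             (CovZ.n2 (-27984, 1680) (by decide +kernel)
              (CovZ.n2 (-27984, 1632) (by decide +kernel)
               (CovZ.n2 (-28008, 1656) (by decide +kernel)
                (CovZ.leaf K2_ok TB_l7045 _)
                (CovZ.leaf K2_ok TB_l7046 _))
               (CovZ.n1 (-27960, 1656) (by decide +kernel)
                (CovZ.leaf K2_ok TB_l7047 _)
                (CovZ.leaf K2_ok TB_l7048 _)))
              (CovZ.n1 (-28032, 1680) (by decide +kernel)
               (CovZ.n2 (-28008, 1704) (by decide +kernel)
                (CovZ.n2 (-28008, 1680) (by decide +kernel)
                 (CovZ.leaf K2_ok TB_l7049 _)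
                 (CovZ.leaf K2_ok TB_l7050 _))
                (CovZ.leaf K2_ok TB_l7051 _))
               (CovZ.n1 (-28008, 1656) (by decide +kernel)
                (CovZ.leaf K2_ok TB_l7052 _)
                (CovZ.n1 (-28008, 1680) (by decide +kernel)
                 (CovZ.leaf K2_ok TB_l7053 _)
                 (CovZ.leaf K2_ok TB_l7054 _))))))
            (CovZ.n1 (-27984, 1584) (by decide +kernel)
             (CovZ.n2 (-28032, 1584) (by decide +kernel)
              (CovZ.n2 (-28008, 1608) (by decide +kernel)
               (CovZ.leaf K2_ok TB_l7055 _)
               (CovZ.leaf K2_ok TB_l7056 _))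
              (CovZ.n1 (-28008, 1560) (by decide +kernel)
               (CovZ.leaf K2_ok TB_l7057 _)
               (CovZ.leaf K2_ok TB_l7058 _)))
             (CovZ.n1 (-27984, 1632) (by decide +kernel)
              (CovZ.n2 (-27960, 1608) (by decide +kernel)
               (CovZ.leaf K2_ok TB_l7059 _)
               (CovZ.leaf K2_ok TB_l7060 _))
              (CovZ.n1 (-28008, 1608) (by decide +kernel)
               (CovZ.leaf K2_ok TB_l7061 _)
               (CovZ.leaf K2_ok TB_l7062 _)))))
           (CovZ.subM 822852712384150179273826742474234623428459347284546126136475648 (by decide +kernel)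
            (CovZ.n1 (-27936, 1728) (by decide +kernel)
             (CovZ.n2 (-27888, 1680) (by decide +kernel)
              (CovZ.n2 (-27936, 1680) (by decide +kernel)
               (CovZ.n2 (-27912, 1704) (by decide +kernel)
                (CovZ.n2 (-27912, 1680) (by decide +kernel)
                 (CovZ.leaf K2_ok TB_l7063 _)
                 (CovZ.leaf K2_ok TB_l7064 _))
                (CovZ.n1 (-27936, 1704) (by decide +kernel)
                 (CovZ.leaf K2_ok TB_l7065 _)
                 (CovZ.leaf K2_ok TB_l7066 _)))
               (CovZ.n1 (-27912, 1656) (by decide +kernel)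
                (CovZ.leaf K2_ok TB_l7067 _)
                (CovZ.n1 (-27912, 1680) (by decide +kernel)
                 (CovZ.leaf K2_ok TB_l7068 _)
                 (CovZ.leaf K2_ok TB_l7069 _))))
              (CovZ.n1 (-27888, 1728) (by decide +kernel)
               (CovZ.n2 (-27864, 1704) (by decide +kernel)
                (CovZ.n2 (-27888, 1704) (by decide +kernel)
                 (CovZ.leaf K2_ok TB_l7070 _)
                 (CovZ.leaf K2_ok TB_l7071 _))
                (CovZ.n1 (-27864, 1728) (by decide +kernel)
                 (CovZ.n2 (-27852, 1716) (by decide +kernel)
                  (CovZ.leaf K2_ok TB_l7072 _)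
                  (CovZ.leaf K2_ok TB_l7073 _))
                 (CovZ.leaf K2_ok TB_l7074 _)))
               (CovZ.n1 (-27912, 1704) (by decide +kernel)
                (CovZ.n2 (-27912, 1728) (by decide +kernel)
                 (CovZ.leaf K2_ok TB_l7075 _)
                 (CovZ.n1 (-27924, 1716) (by decide +kernel)
                  (CovZ.leaf K2_ok TB_l7076 _)
                  (CovZ.leaf K2_ok TB_l7077 _)))
                (CovZ.n1 (-27888, 1704) (by decide +kernel)
                 (CovZ.leaf K2_ok TB_l7078 _)
                 (CovZ.leaf K2_ok TB_l7079 _)))))
             (CovZ.n1 (-27984, 1680) (by decide +kernel)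
              (CovZ.n2 (-27984, 1728) (by decide +kernel)
               (CovZ.n2 (-27960, 1704) (by decide +kernel)
                (CovZ.n2 (-27984, 1704) (by decide +kernel)
                 (CovZ.leaf K2_ok TB_l7080 _)
                 (CovZ.leaf K2_ok TB_l7081 _))
                (CovZ.n1 (-27960, 1728) (by decide +kernel)
                 (CovZ.leaf K2_ok TB_l7082 _)
                 (CovZ.leaf K2_ok TB_l7083 _)))
               (CovZ.n1 (-28008, 1704) (by decide +kernel)
                (CovZ.n2 (-28008, 1728) (by decide +kernel)
                 (CovZ.leaf K2_ok TB_l7084 _)
                 (CovZ.leaf K2_ok TB_l7085 _))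
                (CovZ.n1 (-27984, 1704) (by decide +kernel)
                 (CovZ.leaf K2_ok TB_l7086 _)
                 (CovZ.leaf K2_ok TB_l7087 _))))
              (CovZ.n1 (-27936, 1680) (by decide +kernel)
               (CovZ.n2 (-27960, 1656) (by decide +kernel)
                (CovZ.n2 (-27960, 1680) (by decide +kernel)
                 (CovZ.leaf K2_ok TB_l7088 _)
                 (CovZ.leaf K2_ok TB_l7089 _))
                (CovZ.leaf K2_ok TB_l7090 _))
               (CovZ.n1 (-27960, 1704) (by decide +kernel)
                (CovZ.n2 (-27936, 1704) (by decide +kernel)
                 (CovZ.leaf K2_ok TB_l7091 _)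
                 (CovZ.leaf K2_ok TB_l7092 _))
                (CovZ.n1 (-27960, 1680) (by decide +kernel)
                 (CovZ.leaf K2_ok TB_l7093 _)
                 (CovZ.leaf K2_ok TB_l7094 _)))))))))

theorem TB_u117 : CovZ TB_M (toL (selN TB_LN 307828210105309724687083354212046285692538008111914290133922817980954203665151088609012791366354659178062918189056)) [0, 7, 6, 1] (-28032, 1920) (-28224, 1920) (-28224, 1728) :=
    (CovZ.n2 (-28128, 1824) (by decide +kernel)
            (CovZ.n2 (-28224, 1824) (by decide +kernel)
             (CovZ.subM 822752278660603021077484591278675252491367932816789931741413376 (by decide +kernel)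
              (CovZ.n2 (-28176, 1872) (by decide +kernel)
               (CovZ.n2 (-28176, 1824) (by decide +kernel)
                (CovZ.n2 (-28200, 1848) (by decide +kernel)
                 (CovZ.n2 (-28176, 1848) (by decide +kernel)
                  (CovZ.leaf K2_ok TB_l7173 _)
                  (CovZ.n1 (-28188, 1860) (by decide +kernel)
                   (CovZ.leaf K2_ok TB_l7174 _)
                   (CovZ.leaf K2_ok TB_l7175 _)))
                 (CovZ.n1 (-28200, 1824) (by decide +kernel)
                  (CovZ.leaf K2_ok TB_l7176 _)
                  (CovZ.leaf K2_ok TB_l7177 _)))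
                (CovZ.n1 (-28152, 1848) (by decide +kernel)
                 (CovZ.n2 (-28152, 1824) (by decide +kernel)
                  (CovZ.leaf K2_ok TB_l7178 _)
                  (CovZ.leaf K2_ok TB_l7179 _))
                 (CovZ.n1 (-28176, 1848) (by decide +kernel)
                  (CovZ.n2 (-28164, 1860) (by decide +kernel)
                   (CovZ.leaf K2_ok TB_l7180 _)
                   (CovZ.leaf K2_ok TB_l7181 _))
                  (CovZ.leaf K2_ok TB_l7182 _))))
               (CovZ.n1 (-28224, 1872) (by decide +kernel)
                (CovZ.n2 (-28200, 1896) (by decide +kernel)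
                 (CovZ.n2 (-28200, 1872) (by decide +kernel)
                  (CovZ.n2 (-28212, 1884) (by decide +kernel)
                   (CovZ.leaf K2_ok TB_l7183 _)
                   (CovZ.leaf K2_ok TB_l7184 _))
                  (CovZ.n1 (-28188, 1884) (by decide +kernel)
                   (CovZ.leaf K2_ok TB_l7185 _)
                   (CovZ.leaf K2_ok TB_l7186 _)))
                 (CovZ.n1 (-28224, 1896) (by decide +kernel)
                  (CovZ.n2 (-28212, 1908) (by decide +kernel)
                   (CovZ.leaf K2_ok TB_l38532 _)
                   (CovZ.leaf K2_ok TB_l38533 _))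
                  (CovZ.n1 (-28212, 1884) (by decide +kernel)
                   (CovZ.leaf K2_ok TB_l7187 _)
                   (CovZ.leaf K2_ok TB_l38534 _))))
                (CovZ.n1 (-28200, 1848) (by decide +kernel)
                 (CovZ.n2 (-28224, 1848) (by decide +kernel)
                  (CovZ.leaf K2_ok TB_l7188 _)
                  (CovZ.leaf K2_ok TB_l7189 _))
                 (CovZ.n1 (-28200, 1872) (by decide +kernel)
                  (CovZ.n2 (-28188, 1860) (by decide +kernel)
                   (CovZ.leaf K2_ok TB_l7190 _)
                   (CovZ.leaf K2_ok TB_l7191 _))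
                  (CovZ.leaf K2_ok TB_l7192 _))))))
             (CovZ.n1 (-28176, 1776) (by decide +kernel)
              (CovZ.n2 (-28224, 1776) (by decide +kernel)
               (CovZ.n2 (-28200, 1800) (by decide +kernel)
                (CovZ.n2 (-28200, 1776) (by decide +kernel)
                 (CovZ.leaf K2_ok TB_l7193 _)
                 (CovZ.leaf K2_ok TB_l7194 _))
                (CovZ.leaf K2_ok TB_l7195 _))
               (CovZ.n1 (-28200, 1752) (by decide +kernel)
                (CovZ.leaf K2_ok TB_l7196 _)
                (CovZ.n1 (-28200, 1776) (by decide +kernel)
                 (CovZ.leaf K2_ok TB_l7197 _)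
                 (CovZ.leaf K2_ok TB_l7198 _))))
              (CovZ.subM 9166661893505187388208005598664954003392210792574197719141307274586083781751805109566701568 (by decide +kernel)
               (CovZ.n1 (-28176, 1824) (by decide +kernel)
                (CovZ.n2 (-28152, 1800) (by decide +kernel)
                 (CovZ.leaf K2_ok TB_l7199 _)
                 (CovZ.n1 (-28152, 1824) (by decide +kernel)
                  (CovZ.leaf K2_ok TB_l7200 _)
                  (CovZ.leaf K2_ok TB_l7201 _)))
                (CovZ.n1 (-28200, 1800) (by decide +kernel)
                 (CovZ.n2 (-28200, 1824) (by decide +kernel)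
                  (CovZ.leaf K2_ok TB_l7202 _)
                  (CovZ.leaf K2_ok TB_l7203 _))
                 (CovZ.leaf K2_ok TB_l7204 _))))))
            (CovZ.subM 100433627766186892221372630771322662657637687111424619315200 (by decide +kernel)
             (CovZ.n1 (-28128, 1920) (by decide +kernel)
              (CovZ.n2 (-28080, 1872) (by decide +kernel)
               (CovZ.n2 (-28128, 1872) (by decide +kernel)
                (CovZ.badM (by decide +kernel))
                (CovZ.n1 (-28104, 1848) (by decide +kernel)
                 (CovZ.n2 (-28128, 1848) (by decide +kernel)
                  (CovZ.n2 (-28116, 1860) (by decide +kernel)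
                   (CovZ.leaf K2_ok TB_l7207 _)
                   (CovZ.leaf K2_ok TB_l7208 _))
                  (CovZ.leaf K2_ok TB_l7209 _))
                 (CovZ.n1 (-28104, 1872) (by decide +kernel)
                  (CovZ.n2 (-28092, 1860) (by decide +kernel)
                   (CovZ.leaf K2_ok TB_l7210 _)
                   (CovZ.badM (by decide +kernel)))
                  (CovZ.n1 (-28116, 1860) (by decide +kernel)
                   (CovZ.leaf K2_ok TB_l7211 _)
                   (CovZ.leaf K2_ok TB_l7212 _)))))
               (CovZ.badM (by decide +kernel)))
              (CovZ.n1 (-28176, 1872) (by decide +kernel)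
               (CovZ.n2 (-28176, 1920) (by decide +kernel)
                (CovZ.n2 (-28152, 1896) (by decide +kernel)
                 (CovZ.n2 (-28176, 1896) (by decide +kernel)
                  (CovZ.n2 (-28164, 1908) (by decide +kernel)
                   (CovZ.leaf K2_ok TB_l7213 _)
                   (CovZ.leaf K2_ok TB_l38535 _))
                  (CovZ.n1 (-28164, 1884) (by decide +kernel)
                   (CovZ.leaf K2_ok TB_l7214 _)
                   (CovZ.leaf K2_ok TB_l7215 _)))
                 (CovZ.badM (by decide +kernel)))
                (CovZ.n1 (-28200, 1896) (by decide +kernel)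
                 (CovZ.n2 (-28200, 1920) (by decide +kernel)
                  (CovZ.n2 (-28188, 1908) (by decide +kernel)
                   (CovZ.leaf K2_ok TB_l38536 _)
                   (CovZ.leaf K2_ok TB_l38537 _))
                  (CovZ.n1 (-28212, 1908) (by decide +kernel)
                   (CovZ.leaf K2_ok TB_l38538 _)
                   (CovZ.leaf K2_ok TB_l38539 _)))
                 (CovZ.n1 (-28176, 1896) (by decide +kernel)
                  (CovZ.n2 (-28188, 1884) (by decide +kernel)
                   (CovZ.n2 (-28188, 1896) (by decide +kernel)
                    (CovZ.leaf K2_ok TB_l38540 _)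
                    (CovZ.leaf K2_ok TB_l38541 _))
                   (CovZ.leaf K2_ok TB_l7216 _))
                  (CovZ.n1 (-28188, 1908) (by decide +kernel)
                   (CovZ.leaf K2_ok TB_l38542 _)
                   (CovZ.leaf K2_ok TB_l38543 _)))))
               (CovZ.n1 (-28128, 1872) (by decide +kernel)
                (CovZ.n2 (-28152, 1848) (by decide +kernel)
                 (CovZ.n2 (-28152, 1872) (by decide +kernel)
                  (CovZ.leaf K2_ok TB_l7217 _)
                  (CovZ.n1 (-28164, 1860) (by decide +kernel)
                   (CovZ.leaf K2_ok TB_l7218 _)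
                   (CovZ.leaf K2_ok TB_l7219 _)))
                 (CovZ.n1 (-28128, 1848) (by decide +kernel)
                  (CovZ.n2 (-28140, 1836) (by decide +kernel)
                   (CovZ.leaf K2_ok TB_l7220 _)
                   (CovZ.leaf K2_ok TB_l7221 _))
                  (CovZ.n1 (-28140, 1860) (by decide +kernel)
                   (CovZ.leaf K2_ok TB_l7222 _)
                   (CovZ.leaf K2_ok TB_l7223 _))))
                (CovZ.n1 (-28152, 1896) (by decide +kernel)
                 (CovZ.badM (by decide +kernel))
                 (CovZ.n1 (-28152, 1872) (by decide +kernel)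
                  (CovZ.n2 (-28164, 1884) (by decide +kernel)
                   (CovZ.leaf K2_ok TB_l7226 _)
                   (CovZ.leaf K2_ok TB_l7227 _))
                  (CovZ.n1 (-28140, 1884) (by decide +kernel)
                   (CovZ.leaf K2_ok TB_l7228 _)
                   (CovZ.leaf K2_ok TB_l7229 _)))))))))

end Pool.Agent.TET
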