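import Pool.Agent.Helper38_TET.TB_M
import Pool.Agent.Helper38_TET.TB_L
import Pool.Agent.Helper38_TET.TB_27
import Pool.Agent.Helper38_TET.TB_28
import Pool.Agent.Helper38_TET.TB_29
import Pool.Agent.Helper38_TET.TB_30
import Pool.Agent.Helper38_TET.TB_31
import Pool.Agent.Helper38_TET.TB_253
import Pool.Agent.Helper38_TET.TB_254
import Pool.Agent.Helper38_TET.TB_255
import Pool.Agent.Helper38_TET.TB_323

/-!
# MP_c7c9bf_co: certificates, family TB
-/

set_option autoImplicit false
set_option maxRecDepth 100000

namespace Pool.Agent.TET

theorem TB_u133 : CovZ TB_M (toL (selN TB_LN 5043457396718524389246931701604430553163522199506415261489068479864498082825964416475102425241764397900246224068411392)) [0, 7, 6, 1] (-29184, 5376) (-29568, 5376) (-29568, 4992) :=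
    (CovZ.n2 (-29376, 5184) (by decide +kernel)
        (CovZ.subM 601226901190101308425647818942185866244141759914033451874829685538736476221172679283123359400687787913868476416 (by decide +kernel)
         (CovZ.n2 (-29568, 5184) (by decide +kernel)
          (CovZ.n2 (-29472, 5280) (by decide +kernel)
           (CovZ.n2 (-29472, 5184) (by decide +kernel)
            (CovZ.n2 (-29520, 5232) (by decide +kernel)
             (CovZ.leaf K2_ok TB_l4166 _)
             (CovZ.n1 (-29520, 5184) (by decide +kernel)
              (CovZ.leaf K2_ok TB_l4167 _)
              (CovZ.leaf K2_ok TB_l4168 _)))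
            (CovZ.n1 (-29424, 5232) (by decide +kernel)
             (CovZ.n2 (-29424, 5184) (by decide +kernel)
              (CovZ.n2 (-29448, 5208) (by decide +kernel)
               (CovZ.leaf K2_ok TB_l4169 _)
               (CovZ.leaf K2_ok TB_l4170 _))
              (CovZ.n1 (-29400, 5208) (by decide +kernel)
               (CovZ.leaf K2_ok TB_l4171 _)
               (CovZ.leaf K2_ok TB_l4172 _)))
             (CovZ.n1 (-29472, 5232) (by decide +kernel)
              (CovZ.leaf K2_ok TB_l4173 _)
              (CovZ.n1 (-29448, 5208) (by decide +kernel)
               (CovZ.leaf K2_ok TB_l4174 _)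
               (CovZ.leaf K2_ok TB_l4175 _)))))
           (CovZ.n1 (-29568, 5280) (by decide +kernel)
            (CovZ.n2 (-29520, 5328) (by decide +kernel)
             (CovZ.leaf K2_ok TB_l4176 _)
             (CovZ.leaf K2_ok TB_l4177 _))
            (CovZ.n1 (-29520, 5232) (by decide +kernel)
             (CovZ.leaf K2_ok TB_l4178 _)
             (CovZ.n1 (-29520, 5280) (by decide +kernel)
              (CovZ.leaf K2_ok TB_l4179 _)
              (CovZ.leaf K2_ok TB_l4180 _)))))
          (CovZ.n1 (-29472, 5088) (by decide +kernel)
           (CovZ.n2 (-29568, 5088) (by decide +kernel)
            (CovZ.n2 (-29520, 5136) (by decide +kernel)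
             (CovZ.n2 (-29520, 5088) (by decide +kernel)
              (CovZ.n2 (-29544, 5112) (by decide +kernel)
               (CovZ.leaf K2_ok TB_l4181 _)
               (CovZ.leaf K2_ok TB_l4182 _))
              (CovZ.n1 (-29496, 5112) (by decide +kernel)
               (CovZ.n2 (-29496, 5088) (by decide +kernel)
                (CovZ.leaf K2_ok TB_l4183 _)
                (CovZ.leaf K2_ok TB_l4184 _))
               (CovZ.leaf K2_ok TB_l4185 _)))
             (CovZ.n1 (-29568, 5136) (by decide +kernel)
              (CovZ.n2 (-29544, 5160) (by decide +kernel)
               (CovZ.leaf K2_ok TB_l4186 _)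
               (CovZ.leaf K2_ok TB_l4187 _))
              (CovZ.n1 (-29544, 5112) (by decide +kernel)
               (CovZ.leaf K2_ok TB_l4188 _)
               (CovZ.leaf K2_ok TB_l4189 _))))
            (CovZ.subM 601226901190101306339707064832107000732704402744307495323407044583920643293284212822643551118169221425227890688 (by decide +kernel)
             (CovZ.n1 (-29520, 5040) (by decide +kernel)
              (CovZ.n2 (-29568, 5040) (by decide +kernel)
               (CovZ.n2 (-29544, 5064) (by decide +kernel)
                (CovZ.n2 (-29544, 5040) (by decide +kernel)
                 (CovZ.n2 (-29556, 5052) (by decide +kernel)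
                  (CovZ.leaf K2_ok TB_l37912 _)
                  (CovZ.leaf K2_ok TB_l37913 _))
                 (CovZ.n1 (-29532, 5052) (by decide +kernel)
                  (CovZ.leaf K2_ok TB_l37914 _)
                  (CovZ.leaf K2_ok TB_l37915 _)))
                (CovZ.n1 (-29568, 5064) (by decide +kernel)
                 (CovZ.leaf K2_ok TB_l4190 _)
                 (CovZ.leaf K2_ok TB_l37916 _)))
               (CovZ.subM 31082702275611665134711390509176302509201512699496038176436368221255034602595210493952 (by decide +kernel)
                (CovZ.n1 (-29544, 5016) (by decide +kernel)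
                 (CovZ.n2 (-29568, 5016) (by decide +kernel)
                  (CovZ.n2 (-29556, 5028) (by decide +kernel)
                   (CovZ.leaf K2_ok TB_l37917 _)
                   (CovZ.leaf K2_ok TB_l37918 _))
                  (CovZ.badM (by decide +kernel)))
                 (CovZ.n1 (-29544, 5040) (by decide +kernel)
                  (CovZ.n2 (-29532, 5028) (by decide +kernel)
                   (CovZ.leaf K2_ok TB_l37919 _)
                   (CovZ.leaf K2_ok TB_l37920 _))
                  (CovZ.n1 (-29556, 5028) (by decide +kernel)
                   (CovZ.leaf K2_ok TB_l37921 _)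
                   (CovZ.n1 (-29544, 5028) (by decide +kernel)
                    (CovZ.leaf K2_ok TB_l37922 _)
                    (CovZ.leaf K2_ok TB_l37923 _)))))))
              (CovZ.n1 (-29520, 5088) (by decide +kernel)
               (CovZ.n2 (-29496, 5064) (by decide +kernel)
                (CovZ.n2 (-29520, 5064) (by decide +kernel)
                 (CovZ.leaf K2_ok TB_l4191 _)
                 (CovZ.n1 (-29508, 5052) (by decide +kernel)
                  (CovZ.leaf K2_ok TB_l37924 _)
                  (CovZ.leaf K2_ok TB_l37925 _)))
                (CovZ.n1 (-29496, 5088) (by decide +kernel)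
                 (CovZ.leaf K2_ok TB_l4192 _)
                 (CovZ.leaf K2_ok TB_l4193 _)))
               (CovZ.n1 (-29544, 5064) (by decide +kernel)
                (CovZ.n2 (-29544, 5088) (by decide +kernel)
                 (CovZ.leaf K2_ok TB_l4194 _)
                 (CovZ.leaf K2_ok TB_l4195 _))
                (CovZ.n1 (-29520, 5064) (by decide +kernel)
                 (CovZ.leaf K2_ok TB_l37926 _)
                 (CovZ.leaf K2_ok TB_l4196 _)))))))
           (CovZ.n1 (-29472, 5184) (by decide +kernel)
            (CovZ.n2 (-29424, 5136) (by decide +kernel)
             (CovZ.n2 (-29472, 5136) (by decide +kernel)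
              (CovZ.n2 (-29448, 5160) (by decide +kernel)
               (CovZ.n2 (-29448, 5136) (by decide +kernel)
                (CovZ.leaf K2_ok TB_l4197 _)
                (CovZ.leaf K2_ok TB_l4198 _))
               (CovZ.leaf K2_ok TB_l4199 _))
              (CovZ.n1 (-29448, 5112) (by decide +kernel)
               (CovZ.leaf K2_ok TB_l4200 _)
               (CovZ.n1 (-29448, 5136) (by decide +kernel)
                (CovZ.leaf K2_ok TB_l4201 _)
                (CovZ.leaf K2_ok TB_l4202 _))))
             (CovZ.n1 (-29424, 5184) (by decide +kernel)
              (CovZ.n2 (-29400, 5160) (by decide +kernel)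
               (CovZ.leaf K2_ok TB_l4203 _)
               (CovZ.leaf K2_ok TB_l4204 _))
              (CovZ.n1 (-29448, 5160) (by decide +kernel)
               (CovZ.leaf K2_ok TB_l4205 _)
               (CovZ.leaf K2_ok TB_l4206 _))))
            (CovZ.n1 (-29520, 5136) (by decide +kernel)
             (CovZ.n2 (-29520, 5184) (by decide +kernel)
              (CovZ.n2 (-29496, 5160) (by decide +kernel)
               (CovZ.leaf K2_ok TB_l4207 _)
               (CovZ.leaf K2_ok TB_l4208 _))
              (CovZ.leaf K2_ok TB_l4209 _))
             (CovZ.n1 (-29472, 5136) (by decide +kernel)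
              (CovZ.n2 (-29496, 5112) (by decide +kernel)
               (CovZ.leaf K2_ok TB_l4210 _)
               (CovZ.leaf K2_ok TB_l4211 _))
              (CovZ.n1 (-29496, 5160) (by decide +kernel)
               (CovZ.leaf K2_ok TB_l4212 _)
               (CovZ.leaf K2_ok TB_l4213 _))))))))
        (CovZ.n1 (-29376, 5376) (by decide +kernel)
         (CovZ.subM 5043457394365394529273023472541361742722320531872952156327596513869502811569398549293857675974490038241945285334925312 (by decide +kernel)
          (CovZ.n2 (-29280, 5280) (by decide +kernel)
           (CovZ.n2 (-29376, 5280) (by decide +kernel)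
            (CovZ.n2 (-29328, 5328) (by decide +kernel)
             (CovZ.n2 (-29328, 5280) (by decide +kernel)
              (CovZ.leaf K2_ok TB_l4214 _)
              (CovZ.leaf K2_ok TB_l4215 _))
             (CovZ.leaf K2_ok TB_l4216 _))
            (CovZ.n1 (-29328, 5232) (by decide +kernel)
             (CovZ.n2 (-29376, 5232) (by decide +kernel)
              (CovZ.leaf K2_ok TB_l4217 _)
              (CovZ.n1 (-29352, 5208) (by decide +kernel)
               (CovZ.leaf K2_ok TB_l4218 _)
               (CovZ.leaf K2_ok TB_l4219 _)))
             (CovZ.n1 (-29328, 5280) (by decide +kernel)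
              (CovZ.leaf K2_ok TB_l4220 _)
              (CovZ.leaf K2_ok TB_l4221 _))))
           (CovZ.n1 (-29280, 5376) (by decide +kernel)
            (CovZ.n2 (-29232, 5328) (by decide +kernel)
             (CovZ.leaf K2_ok TB_l4222 _)
             (CovZ.leaf K2_ok TB_l4223 _))
            (CovZ.n1 (-29328, 5328) (by decide +kernel)
             (CovZ.leaf K2_ok TB_l4224 _)
             (CovZ.leaf K2_ok TB_l4225 _)))))
         (CovZ.subM 601226901190101308425647818942185866244141759914033451874829685538736476221172679283123359400687787913868476416 (by decide +kernel)
          (CovZ.n1 (-29472, 5280) (by decide +kernel)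
           (CovZ.n2 (-29472, 5376) (by decide +kernel)
            (CovZ.n2 (-29424, 5328) (by decide +kernel)
             (CovZ.leaf K2_ok TB_l4226 _)
             (CovZ.leaf K2_ok TB_l4227 _))
            (CovZ.n1 (-29520, 5328) (by decide +kernel)
             (CovZ.leaf K2_ok TB_l4228 _)
             (CovZ.leaf K2_ok TB_l4229 _)))
           (CovZ.n1 (-29376, 5280) (by decide +kernel)
            (CovZ.n2 (-29424, 5232) (by decide +kernel)
             (CovZ.n2 (-29424, 5280) (by decide +kernel)
              (CovZ.leaf K2_ok TB_l4230 _)
              (CovZ.leaf K2_ok TB_l4231 _))
             (CovZ.leaf K2_ok TB_l4232 _))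
            (CovZ.n1 (-29424, 5328) (by decide +kernel)
             (CovZ.leaf K2_ok TB_l4233 _)
             (CovZ.n1 (-29424, 5280) (by decide +kernel)
              (CovZ.leaf K2_ok TB_l4234 _)
              (CovZ.leaf K2_ok TB_l4235 _))))))))

theorem TB_u134 : CovZ TB_M (toL (selN TB_LN 5043457396718524389246931701604430553163522199506415261489068479864498082825964416475102425241764397900246224068411392)) [0, 7, 6, 1] (-29568, 5376) (-29952, 5376) (-29568, 4992) :=
    (CovZ.n1 (-29760, 5184) (by decide +kernel)
        (CovZ.n2 (-29760, 5376) (by decide +kernel)
         (CovZ.subM 601226901190101308425647818942185866244141759914033451874829685538736476221172679283123359400687787913868476416 (by decide +kernel)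
          (CovZ.n2 (-29664, 5280) (by decide +kernel)
           (CovZ.n2 (-29760, 5280) (by decide +kernel)
            (CovZ.n2 (-29712, 5328) (by decide +kernel)
             (CovZ.leaf K2_ok TB_l4236 _)
             (CovZ.leaf K2_ok TB_l4237 _))
            (CovZ.n1 (-29712, 5232) (by decide +kernel)
             (CovZ.leaf K2_ok TB_l4238 _)
             (CovZ.leaf K2_ok TB_l4239 _)))
           (CovZ.n1 (-29664, 5376) (by decide +kernel)
            (CovZ.n2 (-29616, 5328) (by decide +kernel)
             (CovZ.leaf K2_ok TB_l4240 _)
             (CovZ.leaf K2_ok TB_l4241 _))
            (CovZ.n1 (-29712, 5328) (by decide +kernel)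
             (CovZ.leaf K2_ok TB_l4242 _)
             (CovZ.leaf K2_ok TB_l4243 _)))))
         (CovZ.n1 (-29856, 5280) (by decide +kernel)
          (CovZ.n2 (-29856, 5376) (by decide +kernel)
           (CovZ.n2 (-29808, 5328) (by decide +kernel)
            (CovZ.leaf K2_ok TB_l4244 _)
            (CovZ.leaf K2_ok TB_l4245 _))
           (CovZ.leaf K2_ok TB_l4246 _))
          (CovZ.subM 601226901190101308425647818942185866244141759914033451874829685538736476221172679283123359400687787913868476416 (by decide +kernel)
           (CovZ.n1 (-29760, 5280) (by decide +kernel)
            (CovZ.n2 (-29808, 5232) (by decide +kernel)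
             (CovZ.leaf K2_ok TB_l4247 _)
             (CovZ.leaf K2_ok TB_l4248 _))
            (CovZ.n1 (-29808, 5328) (by decide +kernel)
             (CovZ.leaf K2_ok TB_l4249 _)
             (CovZ.leaf K2_ok TB_l4250 _))))))
        (CovZ.subM 601226901190101308425647818942185866244141759914033451874829685538736476221172679283123359400687787913868476416 (by decide +kernel)
         (CovZ.n1 (-29568, 5184) (by decide +kernel)
          (CovZ.n2 (-29664, 5088) (by decide +kernel)
           (CovZ.n2 (-29664, 5184) (by decide +kernel)
            (CovZ.n2 (-29616, 5136) (by decide +kernel)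
             (CovZ.n2 (-29664, 5136) (by decide +kernel)
              (CovZ.n2 (-29640, 5160) (by decide +kernel)
               (CovZ.leaf K2_ok TB_l4251 _)
               (CovZ.leaf K2_ok TB_l4252 _))
              (CovZ.n1 (-29640, 5112) (by decide +kernel)
               (CovZ.leaf K2_ok TB_l4253 _)
               (CovZ.leaf K2_ok TB_l4254 _)))
             (CovZ.n1 (-29616, 5184) (by decide +kernel)
              (CovZ.n2 (-29592, 5160) (by decide +kernel)
               (CovZ.leaf K2_ok TB_l4255 _)
               (CovZ.leaf K2_ok TB_l4256 _))
              (CovZ.leaf K2_ok TB_l4257 _)))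
            (CovZ.n1 (-29712, 5136) (by decide +kernel)
             (CovZ.n2 (-29712, 5184) (by decide +kernel)
              (CovZ.n2 (-29688, 5160) (by decide +kernel)
               (CovZ.leaf K2_ok TB_l4258 _)
               (CovZ.leaf K2_ok TB_l4259 _))
              (CovZ.leaf K2_ok TB_l4260 _))
             (CovZ.n1 (-29664, 5136) (by decide +kernel)
              (CovZ.n2 (-29688, 5112) (by decide +kernel)
               (CovZ.leaf K2_ok TB_l4261 _)
               (CovZ.leaf K2_ok TB_l4262 _))
              (CovZ.n1 (-29688, 5160) (by decide +kernel)
               (CovZ.leaf K2_ok TB_l4263 _)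
               (CovZ.leaf K2_ok TB_l4264 _)))))
           (CovZ.n1 (-29568, 5088) (by decide +kernel)
            (CovZ.subM 601226901190101306339707064832107000732704402744307495323407044583920643293284212822643551118169221425227890688 (by decide +kernel)
             (CovZ.n2 (-29616, 5040) (by decide +kernel)
              (CovZ.n2 (-29616, 5088) (by decide +kernel)
               (CovZ.n2 (-29592, 5064) (by decide +kernel)
                (CovZ.n2 (-29616, 5064) (by decide +kernel)
                 (CovZ.leaf K2_ok TB_l4265 _)
                 (CovZ.n1 (-29604, 5052) (by decide +kernel)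
                  (CovZ.leaf K2_ok TB_l37927 _)
                  (CovZ.leaf K2_ok TB_l37928 _)))
                (CovZ.n1 (-29592, 5088) (by decide +kernel)
                 (CovZ.leaf K2_ok TB_l4266 _)
                 (CovZ.leaf K2_ok TB_l4267 _)))
               (CovZ.n1 (-29640, 5064) (by decide +kernel)
                (CovZ.n2 (-29640, 5088) (by decide +kernel)
                 (CovZ.leaf K2_ok TB_l4268 _)
                 (CovZ.leaf K2_ok TB_l4269 _))
                (CovZ.n1 (-29616, 5064) (by decide +kernel)
                 (CovZ.n2 (-29628, 5052) (by decide +kernel)
                  (CovZ.leaf K2_ok TB_l37929 _)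
                  (CovZ.leaf K2_ok TB_l37930 _))
                 (CovZ.leaf K2_ok TB_l4270 _))))
              (CovZ.n1 (-29568, 5040) (by decide +kernel)
               (CovZ.n2 (-29592, 5016) (by decide +kernel)
                (CovZ.n2 (-29592, 5040) (by decide +kernel)
                 (CovZ.n2 (-29580, 5028) (by decide +kernel)
                  (CovZ.leaf K2_ok TB_l37931 _)
                  (CovZ.leaf K2_ok TB_l37932 _))
                 (CovZ.n1 (-29604, 5028) (by decide +kernel)
                  (CovZ.leaf K2_ok TB_l37933 _)
                  (CovZ.leaf K2_ok TB_l37934 _)))
                (CovZ.n1 (-29568, 5016) (by decide +kernel)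
                 (CovZ.badM (by decide +kernel))
                 (CovZ.n1 (-29580, 5028) (by decide +kernel)
                  (CovZ.leaf K2_ok TB_l37935 _)
                  (CovZ.leaf K2_ok TB_l37936 _))))
               (CovZ.n1 (-29592, 5064) (by decide +kernel)
                (CovZ.n2 (-29568, 5064) (by decide +kernel)
                 (CovZ.leaf K2_ok TB_l37937 _)
                 (CovZ.leaf K2_ok TB_l4271 _))
                (CovZ.n1 (-29592, 5040) (by decide +kernel)
                 (CovZ.n2 (-29604, 5052) (by decide +kernel)
                  (CovZ.leaf K2_ok TB_l37938 _)
                  (CovZ.leaf K2_ok TB_l37939 _))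
                 (CovZ.leaf K2_ok TB_l37940 _))))))
            (CovZ.n1 (-29616, 5136) (by decide +kernel)
             (CovZ.n2 (-29568, 5136) (by decide +kernel)
              (CovZ.n2 (-29592, 5112) (by decide +kernel)
               (CovZ.n2 (-29592, 5136) (by decide +kernel)
                (CovZ.leaf K2_ok TB_l4272 _)
                (CovZ.leaf K2_ok TB_l4273 _))
               (CovZ.leaf K2_ok TB_l4274 _))
              (CovZ.n1 (-29592, 5160) (by decide +kernel)
               (CovZ.leaf K2_ok TB_l4275 _)
               (CovZ.leaf K2_ok TB_l4276 _)))
             (CovZ.n1 (-29616, 5088) (by decide +kernel)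
              (CovZ.n2 (-29640, 5112) (by decide +kernel)
               (CovZ.leaf K2_ok TB_l4277 _)
               (CovZ.n1 (-29640, 5088) (by decide +kernel)
                (CovZ.leaf K2_ok TB_l4278 _)
                (CovZ.leaf K2_ok TB_l4279 _)))
              (CovZ.n1 (-29592, 5112) (by decide +kernel)
               (CovZ.n2 (-29592, 5088) (by decide +kernel)
                (CovZ.leaf K2_ok TB_l4280 _)
                (CovZ.leaf K2_ok TB_l4281 _))
               (CovZ.leaf K2_ok TB_l4282 _))))))
          (CovZ.n1 (-29664, 5280) (by decide +kernel)
           (CovZ.n2 (-29568, 5280) (by decide +kernel)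
            (CovZ.n2 (-29616, 5232) (by decide +kernel)
             (CovZ.n2 (-29616, 5280) (by decide +kernel)
              (CovZ.leaf K2_ok TB_l4283 _)
              (CovZ.leaf K2_ok TB_l4284 _))
             (CovZ.leaf K2_ok TB_l4285 _))
            (CovZ.n1 (-29616, 5328) (by decide +kernel)
             (CovZ.leaf K2_ok TB_l4286 _)
             (CovZ.leaf K2_ok TB_l4287 _)))
           (CovZ.n1 (-29664, 5184) (by decide +kernel)
            (CovZ.n2 (-29712, 5232) (by decide +kernel)
             (CovZ.leaf K2_ok TB_l4288 _)
             (CovZ.n1 (-29712, 5184) (by decide +kernel)
              (CovZ.leaf K2_ok TB_l4289 _)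
              (CovZ.leaf K2_ok TB_l4290 _)))
            (CovZ.n1 (-29616, 5232) (by decide +kernel)
             (CovZ.n2 (-29616, 5184) (by decide +kernel)
              (CovZ.leaf K2_ok TB_l4291 _)
              (CovZ.leaf K2_ok TB_l4292 _))
             (CovZ.leaf K2_ok TB_l4293 _)))))))

theorem TB_u135 : CovZ TB_M (toL (selN TB_LN 5043457394365394529273023472541361742722320531872952156327596513869502811569398549293857675974490038241945285334925312)) [0, 7, 6, 1] (-29568, 4992) (-29376, 4992) (-29376, 5184) :=
    (CovZ.n2 (-29472, 5088) (by decide +kernel)
           (CovZ.n2 (-29376, 5088) (by decide +kernel)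
            (CovZ.subM 601226901190101306339707064832107000732704402691651349489128451234961629451448996663196003417894665798072401920 (by decide +kernel)
             (CovZ.n2 (-29424, 5040) (by decide +kernel)
              (CovZ.n2 (-29424, 5088) (by decide +kernel)
               (CovZ.n2 (-29400, 5064) (by decide +kernel)
                (CovZ.n2 (-29424, 5064) (by decide +kernel)
                 (CovZ.leaf K2_ok TB_l4349 _)
                 (CovZ.n1 (-29412, 5052) (by decide +kernel)
                  (CovZ.leaf K2_ok TB_l37972 _)
                  (CovZ.leaf K2_ok TB_l37973 _)))
                (CovZ.n1 (-29400, 5088) (by decide +kernel)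
                 (CovZ.n2 (-29388, 5076) (by decide +kernel)
                  (CovZ.leaf K2_ok TB_l37974 _)
                  (CovZ.leaf K2_ok TB_l37975 _))
                 (CovZ.leaf K2_ok TB_l4350 _)))
               (CovZ.n1 (-29448, 5064) (by decide +kernel)
                (CovZ.n2 (-29448, 5088) (by decide +kernel)
                 (CovZ.leaf K2_ok TB_l4351 _)
                 (CovZ.leaf K2_ok TB_l4352 _))
                (CovZ.n1 (-29424, 5064) (by decide +kernel)
                 (CovZ.n2 (-29436, 5052) (by decide +kernel)
                  (CovZ.leaf K2_ok TB_l37976 _)
                  (CovZ.leaf K2_ok TB_l37977 _))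
                 (CovZ.leaf K2_ok TB_l4353 _))))
              (CovZ.n1 (-29376, 5040) (by decide +kernel)
               (CovZ.badM (by decide +kernel))
               (CovZ.n1 (-29400, 5064) (by decide +kernel)
                (CovZ.n2 (-29376, 5064) (by decide +kernel)
                 (CovZ.n2 (-29388, 5052) (by decide +kernel)
                  (CovZ.n2 (-29388, 5064) (by decide +kernel)
                   (CovZ.leaf K2_ok TB_l37978 _)
                   (CovZ.leaf K2_ok TB_l37979 _))
                  (CovZ.leaf K2_ok TB_l37980 _))
                 (CovZ.leaf K2_ok TB_l37981 _))
                (CovZ.n1 (-29400, 5040) (by decide +kernel)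
                 (CovZ.n2 (-29412, 5052) (by decide +kernel)
                  (CovZ.leaf K2_ok TB_l37982 _)
                  (CovZ.leaf K2_ok TB_l37983 _))
                 (CovZ.n1 (-29388, 5052) (by decide +kernel)
                  (CovZ.leaf K2_ok TB_l37984 _)
                  (CovZ.leaf K2_ok TB_l37985 _)))))))
            (CovZ.n1 (-29424, 5136) (by decide +kernel)
             (CovZ.n2 (-29376, 5136) (by decide +kernel)
              (CovZ.n2 (-29400, 5112) (by decide +kernel)
               (CovZ.n2 (-29400, 5136) (by decide +kernel)
                (CovZ.leaf K2_ok TB_l4354 _)
                (CovZ.leaf K2_ok TB_l4355 _))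
               (CovZ.leaf K2_ok TB_l4356 _))
              (CovZ.n1 (-29400, 5160) (by decide +kernel)
               (CovZ.leaf K2_ok TB_l4357 _)
               (CovZ.n1 (-29400, 5136) (by decide +kernel)
                (CovZ.leaf K2_ok TB_l4358 _)
                (CovZ.leaf K2_ok TB_l4359 _))))
             (CovZ.subM 601226901190101306339707064832107000732704402744307498461957912277261025211178924426476759169346943657245147136 (by decide +kernel)
              (CovZ.n1 (-29424, 5088) (by decide +kernel)
               (CovZ.n2 (-29448, 5112) (by decide +kernel)
                (CovZ.leaf K2_ok TB_l4360 _)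
                (CovZ.n1 (-29448, 5088) (by decide +kernel)
                 (CovZ.leaf K2_ok TB_l4361 _)
                 (CovZ.leaf K2_ok TB_l4362 _)))
               (CovZ.n1 (-29400, 5112) (by decide +kernel)
                (CovZ.n2 (-29400, 5088) (by decide +kernel)
                 (CovZ.leaf K2_ok TB_l4363 _)
                 (CovZ.leaf K2_ok TB_l4364 _))
                (CovZ.leaf K2_ok TB_l4365 _))))))
           (CovZ.subM 601226901190101306339707064832107000732704402691651349489128451234961629451448996663196003417894665798072401920 (by decide +kernel)
            (CovZ.n1 (-29472, 4992) (by decide +kernel)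
             (CovZ.n2 (-29520, 5040) (by decide +kernel)
              (CovZ.n2 (-29472, 5040) (by decide +kernel)
               (CovZ.subM 31082702275611665134711390509176302509201512699496038176436368221255034602595202105344 (by decide +kernel)
                (CovZ.n2 (-29496, 5016) (by decide +kernel)
                 (CovZ.n2 (-29496, 5040) (by decide +kernel)
                  (CovZ.n2 (-29484, 5028) (by decide +kernel)
                   (CovZ.leaf K2_ok TB_l37986 _)
                   (CovZ.n1 (-29484, 5040) (by decide +kernel)
                    (CovZ.leaf K2_ok TB_l37987 _)
                    (CovZ.leaf K2_ok TB_l37988 _)))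
                  (CovZ.n1 (-29508, 5028) (by decide +kernel)
                   (CovZ.leaf K2_ok TB_l37989 _)
                   (CovZ.leaf K2_ok TB_l37990 _)))
                 (CovZ.badM (by decide +kernel))))
               (CovZ.n1 (-29496, 5064) (by decide +kernel)
                (CovZ.n2 (-29472, 5064) (by decide +kernel)
                 (CovZ.n2 (-29484, 5052) (by decide +kernel)
                  (CovZ.leaf K2_ok TB_l37991 _)
                  (CovZ.leaf K2_ok TB_l37992 _))
                 (CovZ.leaf K2_ok TB_l4366 _))
                (CovZ.n1 (-29496, 5040) (by decide +kernel)
                 (CovZ.n2 (-29508, 5052) (by decide +kernel)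
                  (CovZ.leaf K2_ok TB_l37993 _)
                  (CovZ.leaf K2_ok TB_l37994 _))
                 (CovZ.n1 (-29484, 5052) (by decide +kernel)
                  (CovZ.leaf K2_ok TB_l37995 _)
                  (CovZ.leaf K2_ok TB_l37996 _)))))
              (CovZ.subM 31082702275611665134711390509176302509201512699496038176436368221255034602595202105344 (by decide +kernel)
               (CovZ.n1 (-29520, 4992) (by decide +kernel)
                (CovZ.n2 (-29544, 5016) (by decide +kernel)
                 (CovZ.n2 (-29520, 5016) (by decide +kernel)
                  (CovZ.badM (by decide +kernel))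
                  (CovZ.n1 (-29532, 5028) (by decide +kernel)
                   (CovZ.n2 (-29520, 5028) (by decide +kernel)
                    (CovZ.badM (by decide +kernel))
                    (CovZ.leaf K2_ok TB_l37997 _))
                   (CovZ.badM (by decide +kernel))))
                 (CovZ.badM (by decide +kernel)))
                (CovZ.n1 (-29496, 5016) (by decide +kernel)
                 (CovZ.badM (by decide +kernel))
                 (CovZ.n1 (-29520, 5016) (by decide +kernel)
                  (CovZ.n2 (-29508, 5028) (by decide +kernel)
                   (CovZ.badM (by decide +kernel))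
                   (CovZ.leaf K2_ok TB_l37998 _))
                  (CovZ.badM (by decide +kernel)))))))
             (CovZ.n1 (-29424, 5040) (by decide +kernel)
              (CovZ.badM (by decide +kernel))
              (CovZ.n1 (-29472, 5040) (by decide +kernel)
               (CovZ.n2 (-29448, 5064) (by decide +kernel)
                (CovZ.n2 (-29448, 5040) (by decide +kernel)
                 (CovZ.n2 (-29460, 5052) (by decide +kernel)
                  (CovZ.leaf K2_ok TB_l37999 _)
                  (CovZ.leaf K2_ok TB_l38000 _))
                 (CovZ.n1 (-29436, 5052) (by decide +kernel)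
                  (CovZ.leaf K2_ok TB_l38001 _)
                  (CovZ.leaf K2_ok TB_l38002 _)))
                (CovZ.n1 (-29472, 5064) (by decide +kernel)
                 (CovZ.leaf K2_ok TB_l4367 _)
                 (CovZ.n1 (-29460, 5052) (by decide +kernel)
                  (CovZ.leaf K2_ok TB_l38003 _)
                  (CovZ.leaf K2_ok TB_l38004 _))))
               (CovZ.badM (by decide +kernel)))))))

theorem TB_u136 : CovZ TB_M (toL (selN TB_LN 5043457394365394529273023472541361742722320531872952156327596513869502811569398549293857675974490038241945285334925312)) [0, 7, 6, 1] (-29376, 4992) (-29184, 4992) (-29376, 5184) :=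
    (CovZ.n1 (-29280, 5088) (by decide +kernel)
           (CovZ.subM 5043457394365394529273023472525446427822761246459444405417777633112450300509852883640586636468726177192554734248001536 (by decide +kernel)
            (CovZ.n2 (-29280, 4992) (by decide +kernel)
             (CovZ.n2 (-29328, 5040) (by decide +kernel)
              (CovZ.n2 (-29280, 5040) (by decide +kernel)
               (CovZ.badM (by decide +kernel))
               (CovZ.n1 (-29304, 5064) (by decide +kernel)
                (CovZ.n2 (-29280, 5064) (by decide +kernel)
                 (CovZ.subM 601226901190101306339707063860772554619839867231920396077368997913758209925377937963075164841535390571376410624 (by decide +kernel)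
                  (CovZ.n2 (-29292, 5052) (by decide +kernel)
                   (CovZ.n2 (-29292, 5064) (by decide +kernel)
                    (CovZ.leaf K2_ok TB_l38005 _)
                    (CovZ.leaf K2_ok TB_l38006 _))
                   (CovZ.n1 (-29280, 5052) (by decide +kernel)
                    (CovZ.leaf K2_ok TB_l48441 _)
                    (CovZ.leaf K2_ok TB_l38007 _))))
                 (CovZ.n1 (-29292, 5076) (by decide +kernel)
                  (CovZ.leaf K2_ok TB_l38008 _)
                  (CovZ.leaf K2_ok TB_l38009 _)))
                (CovZ.subM 601226901190101306339707063860772554619839867231920396077368997913758209925377937963075164841535390571376410624 (by decide +kernel)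
                 (CovZ.n1 (-29304, 5040) (by decide +kernel)
                  (CovZ.n2 (-29316, 5052) (by decide +kernel)
                   (CovZ.n2 (-29304, 5052) (by decide +kernel)
                    (CovZ.leaf K2_ok TB_l48442 _)
                    (CovZ.leaf K2_ok TB_l38010 _))
                   (CovZ.n1 (-29316, 5040) (by decide +kernel)
                    (CovZ.leaf K2_ok TB_l48443 _)
                    (CovZ.leaf K2_ok TB_l48444 _)))
                  (CovZ.n1 (-29292, 5052) (by decide +kernel)
                   (CovZ.n2 (-29292, 5040) (by decide +kernel)
                    (CovZ.leaf K2_ok TB_l48445 _)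
                    (CovZ.n1 (-29286, 5046) (by decide +kernel)
                     (CovZ.leaf K2_ok TB_l48446 _)
                     (CovZ.leaf K2_ok TB_l48447 _)))
                   (CovZ.leaf K2_ok TB_l38011 _))))))
              (CovZ.badM (by decide +kernel)))
             (CovZ.n1 (-29232, 5040) (by decide +kernel)
              (CovZ.n2 (-29232, 4992) (by decide +kernel)
               (CovZ.badM (by decide +kernel))
               (CovZ.n1 (-29208, 5016) (by decide +kernel)
                (CovZ.badM (by decide +kernel))
                (CovZ.badM (by decide +kernel))))
              (CovZ.n1 (-29280, 5040) (by decide +kernel)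
               (CovZ.n2 (-29256, 5064) (by decide +kernel)
                (CovZ.subM 601226901190101306339707063860772554619839867231920396077368994990754935263572101555705499408969351259511324672 (by decide +kernel)
                 (CovZ.n2 (-29256, 5040) (by decide +kernel)
                  (CovZ.n2 (-29268, 5052) (by decide +kernel)
                   (CovZ.n2 (-29256, 5052) (by decide +kernel)
                    (CovZ.leaf K2_ok TB_l48448 _)
                    (CovZ.leaf K2_ok TB_l38012 _))
                   (CovZ.n1 (-29268, 5040) (by decide +kernel)
                    (CovZ.leaf K2_ok TB_l48449 _)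
                    (CovZ.leaf K2_ok TB_l48450 _)))
                  (CovZ.n1 (-29244, 5052) (by decide +kernel)
                   (CovZ.n2 (-29244, 5040) (by decide +kernel)
                    (CovZ.n2 (-29250, 5046) (by decide +kernel)
                     (CovZ.leaf K2_ok TB_l48451 _)
                     (CovZ.leaf K2_ok TB_l48452 _))
                    (CovZ.leaf K2_ok TB_l48453 _))
                   (CovZ.n1 (-29256, 5052) (by decide +kernel)
                    (CovZ.leaf K2_ok TB_l38013 _)
                    (CovZ.leaf K2_ok TB_l48454 _)))))
                (CovZ.n1 (-29280, 5064) (by decide +kernel)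
                 (CovZ.n2 (-29268, 5076) (by decide +kernel)
                  (CovZ.leaf K2_ok TB_l38014 _)
                  (CovZ.leaf K2_ok TB_l38015 _))
                 (CovZ.n1 (-29268, 5052) (by decide +kernel)
                  (CovZ.leaf K2_ok TB_l38016 _)
                  (CovZ.n1 (-29268, 5064) (by decide +kernel)
                   (CovZ.leaf K2_ok TB_l38017 _)
                   (CovZ.leaf K2_ok TB_l38018 _)))))
               (CovZ.badM (by decide +kernel))))))
           (CovZ.n1 (-29376, 5088) (by decide +kernel)
            (CovZ.n2 (-29328, 5136) (by decide +kernel)
             (CovZ.subM 601226901190101306339707064832107000732704402744307498461957912277261025211178924426476759169346943657245147136 (by decide +kernel)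
              (CovZ.n2 (-29328, 5088) (by decide +kernel)
               (CovZ.n2 (-29352, 5112) (by decide +kernel)
                (CovZ.n2 (-29328, 5112) (by decide +kernel)
                 (CovZ.leaf K2_ok TB_l4368 _)
                 (CovZ.leaf K2_ok TB_l4369 _))
                (CovZ.n1 (-29352, 5088) (by decide +kernel)
                 (CovZ.leaf K2_ok TB_l4370 _)
                 (CovZ.leaf K2_ok TB_l4371 _)))
               (CovZ.n1 (-29304, 5112) (by decide +kernel)
                (CovZ.n2 (-29304, 5088) (by decide +kernel)
                 (CovZ.leaf K2_ok TB_l4372 _)
                 (CovZ.leaf K2_ok TB_l4373 _))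
                (CovZ.n1 (-29328, 5112) (by decide +kernel)
                 (CovZ.leaf K2_ok TB_l4374 _)
                 (CovZ.leaf K2_ok TB_l4375 _)))))
             (CovZ.n1 (-29376, 5136) (by decide +kernel)
              (CovZ.n2 (-29352, 5160) (by decide +kernel)
               (CovZ.n2 (-29352, 5136) (by decide +kernel)
                (CovZ.leaf K2_ok TB_l4376 _)
                (CovZ.leaf K2_ok TB_l4377 _))
               (CovZ.leaf K2_ok TB_l4378 _))
              (CovZ.subM 601226901190101306339707064832107000732704402744307498461957912277261025211178924426476759169346943657245147136 (by decide +kernel)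
               (CovZ.n1 (-29352, 5112) (by decide +kernel)
                (CovZ.n2 (-29376, 5112) (by decide +kernel)
                 (CovZ.leaf K2_ok TB_l4379 _)
                 (CovZ.leaf K2_ok TB_l4380 _))
                (CovZ.n1 (-29352, 5136) (by decide +kernel)
                 (CovZ.leaf K2_ok TB_l4381 _)
                 (CovZ.leaf K2_ok TB_l4382 _))))))
            (CovZ.subM 601226901190101306339707064832107000732704402691651349489128451234961629451448996663196003417894665798072401920 (by decide +kernel)
             (CovZ.n1 (-29328, 5040) (by decide +kernel)
              (CovZ.n2 (-29376, 5040) (by decide +kernel)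
               (CovZ.n2 (-29352, 5064) (by decide +kernel)
                (CovZ.n2 (-29352, 5040) (by decide +kernel)
                 (CovZ.n2 (-29364, 5052) (by decide +kernel)
                  (CovZ.leaf K2_ok TB_l38019 _)
                  (CovZ.n1 (-29364, 5040) (by decide +kernel)
                   (CovZ.leaf K2_ok TB_l38020 _)
                   (CovZ.leaf K2_ok TB_l38021 _)))
                 (CovZ.n1 (-29340, 5052) (by decide +kernel)
                  (CovZ.n2 (-29340, 5040) (by decide +kernel)
                   (CovZ.leaf K2_ok TB_l48455 _)
                   (CovZ.leaf K2_ok TB_l48456 _))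
                  (CovZ.leaf K2_ok TB_l38022 _)))
                (CovZ.n1 (-29376, 5064) (by decide +kernel)
                 (CovZ.n2 (-29364, 5076) (by decide +kernel)
                  (CovZ.leaf K2_ok TB_l38023 _)
                  (CovZ.leaf K2_ok TB_l38024 _))
                 (CovZ.n1 (-29364, 5052) (by decide +kernel)
                  (CovZ.leaf K2_ok TB_l38025 _)
                  (CovZ.n1 (-29364, 5064) (by decide +kernel)
                   (CovZ.leaf K2_ok TB_l38026 _)
                   (CovZ.leaf K2_ok TB_l38027 _)))))
               (CovZ.badM (by decide +kernel)))
              (CovZ.n1 (-29328, 5088) (by decide +kernel)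
               (CovZ.n2 (-29304, 5064) (by decide +kernel)
                (CovZ.n2 (-29328, 5064) (by decide +kernel)
                 (CovZ.leaf K2_ok TB_l38028 _)
                 (CovZ.n1 (-29316, 5052) (by decide +kernel)
                  (CovZ.leaf K2_ok TB_l38029 _)
                  (CovZ.n1 (-29316, 5064) (by decide +kernel)
                   (CovZ.leaf K2_ok TB_l38030 _)
                   (CovZ.leaf K2_ok TB_l38031 _))))
                (CovZ.n1 (-29304, 5088) (by decide +kernel)
                 (CovZ.n2 (-29292, 5076) (by decide +kernel)
                  (CovZ.leaf K2_ok TB_l38032 _)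
                  (CovZ.leaf K2_ok TB_l38033 _))
                 (CovZ.leaf K2_ok TB_l38034 _)))
               (CovZ.n1 (-29352, 5064) (by decide +kernel)
                (CovZ.n2 (-29352, 5088) (by decide +kernel)
                 (CovZ.n2 (-29340, 5076) (by decide +kernel)
                  (CovZ.leaf K2_ok TB_l38035 _)
                  (CovZ.n1 (-29340, 5088) (by decide +kernel)
                   (CovZ.leaf K2_ok TB_l38036 _)
                   (CovZ.leaf K2_ok TB_l38037 _)))
                 (CovZ.n1 (-29364, 5076) (by decide +kernel)
                  (CovZ.leaf K2_ok TB_l38038 _)
                  (CovZ.leaf K2_ok TB_l38039 _)))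
                (CovZ.n1 (-29328, 5064) (by decide +kernel)
                 (CovZ.n2 (-29340, 5052) (by decide +kernel)
                  (CovZ.n2 (-29340, 5064) (by decide +kernel)
                   (CovZ.leaf K2_ok TB_l38040 _)
                   (CovZ.leaf K2_ok TB_l38041 _))
                  (CovZ.leaf K2_ok TB_l38042 _))
                 (CovZ.n1 (-29340, 5076) (by decide +kernel)
                  (CovZ.leaf K2_ok TB_l38043 _)
                  (CovZ.leaf K2_ok TB_l38044 _)))))))))

theorem TB_u137 : CovZ TB_M (toL (selN TB_LN 5043457396718524389246931701604430553163522199506415261489068479864498082825964416475102425241764397900246224068411392)) [0, 7, 6, 1] (-29184, 4608) (-29184, 5376) (-29952, 5376) :=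
    (CovZ.n2 (-29568, 4992) (by decide +kernel)
      (CovZ.n2 (-29568, 5376) (by decide +kernel)
       TB_u133
       TB_u134)
      (CovZ.subM 5043457394365394529273023472541361742722320531872952156327596513869502811569398549293857675974490038241945285334925312 (by decide +kernel)
       (CovZ.n1 (-29184, 4992) (by decide +kernel)
        (CovZ.subM 5043456793138493339171717132818382567050206626619577173497381555743452386751642958261026080625269202023248382759272448 (by decide +kernel)
         (CovZ.n2 (-29376, 4800) (by decide +kernel)
          (CovZ.n2 (-29376, 4992) (by decide +kernel)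
           (CovZ.n2 (-29280, 4896) (by decide +kernel)
            (CovZ.badM (by decide +kernel))
            (CovZ.n1 (-29280, 4992) (by decide +kernel)
             (CovZ.badM (by decide +kernel))
             (CovZ.badM (by decide +kernel))))
           (CovZ.badM (by decide +kernel)))
          (CovZ.badM (by decide +kernel))))
        (CovZ.n1 (-29376, 5184) (by decide +kernel)
         (CovZ.n2 (-29184, 5184) (by decide +kernel)
          (CovZ.n2 (-29280, 5088) (by decide +kernel)
           (CovZ.n2 (-29280, 5184) (by decide +kernel)
            (CovZ.n2 (-29232, 5136) (by decide +kernel)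
             (CovZ.n2 (-29280, 5136) (by decide +kernel)
              (CovZ.n2 (-29256, 5160) (by decide +kernel)
               (CovZ.n2 (-29256, 5136) (by decide +kernel)
                (CovZ.leaf K2_ok TB_l4294 _)
                (CovZ.leaf K2_ok TB_l4295 _))
               (CovZ.leaf K2_ok TB_l4296 _))
              (CovZ.subM 601226901190101306339707064832107000732704402691651352627679318928302011369343708267029211469072388030089658368 (by decide +kernel)
               (CovZ.n1 (-29256, 5112) (by decide +kernel)
                (CovZ.n2 (-29280, 5112) (by decide +kernel)
                 (CovZ.leaf K2_ok TB_l4297 _)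
                 (CovZ.leaf K2_ok TB_l4298 _))
                (CovZ.n1 (-29256, 5136) (by decide +kernel)
                 (CovZ.leaf K2_ok TB_l4299 _)
                 (CovZ.leaf K2_ok TB_l4300 _)))))
             (CovZ.n1 (-29232, 5184) (by decide +kernel)
              (CovZ.n2 (-29208, 5160) (by decide +kernel)
               (CovZ.n2 (-29232, 5160) (by decide +kernel)
                (CovZ.leaf K2_ok TB_l4301 _)
                (CovZ.leaf K2_ok TB_l4302 _))
               (CovZ.leaf K2_ok TB_l4303 _))
              (CovZ.n1 (-29256, 5160) (by decide +kernel)
               (CovZ.leaf K2_ok TB_l4304 _)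
               (CovZ.leaf K2_ok TB_l4305 _))))
            (CovZ.n1 (-29328, 5136) (by decide +kernel)
             (CovZ.n2 (-29328, 5184) (by decide +kernel)
              (CovZ.n2 (-29304, 5160) (by decide +kernel)
               (CovZ.leaf K2_ok TB_l4306 _)
               (CovZ.leaf K2_ok TB_l4307 _))
              (CovZ.n1 (-29352, 5160) (by decide +kernel)
               (CovZ.leaf K2_ok TB_l4308 _)
               (CovZ.leaf K2_ok TB_l4309 _)))
             (CovZ.n1 (-29280, 5136) (by decide +kernel)
              (CovZ.n2 (-29304, 5112) (by decide +kernel)
               (CovZ.n2 (-29304, 5136) (by decide +kernel)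
                (CovZ.leaf K2_ok TB_l4310 _)
                (CovZ.leaf K2_ok TB_l4311 _))
               (CovZ.leaf K2_ok TB_l4312 _))
              (CovZ.n1 (-29304, 5160) (by decide +kernel)
               (CovZ.leaf K2_ok TB_l4313 _)
               (CovZ.n1 (-29304, 5136) (by decide +kernel)
                (CovZ.leaf K2_ok TB_l4314 _)
                (CovZ.leaf K2_ok TB_l4315 _))))))
           (CovZ.n1 (-29184, 5088) (by decide +kernel)
            (CovZ.subM 5043457394365394529273023472525446427822761246459444405417777633112450300509852883640586636468726177192554734248001536 (by decide +kernel)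
             (CovZ.n2 (-29232, 5040) (by decide +kernel)
              (CovZ.n2 (-29232, 5088) (by decide +kernel)
               (CovZ.n2 (-29208, 5064) (by decide +kernel)
                (CovZ.n2 (-29232, 5064) (by decide +kernel)
                 (CovZ.n2 (-29220, 5076) (by decide +kernel)
                  (CovZ.leaf K2_ok TB_l37941 _)
                  (CovZ.leaf K2_ok TB_l37942 _))
                 (CovZ.subM 601226901190101306339707063860772554619839867231920396077368994990754935263572101555705499408969351259511324672 (by decide +kernel)
                  (CovZ.n1 (-29220, 5052) (by decide +kernel)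
                   (CovZ.n2 (-29232, 5052) (by decide +kernel)
                    (CovZ.leaf K2_ok TB_l37943 _)
                    (CovZ.n1 (-29226, 5046) (by decide +kernel)
                     (CovZ.leaf K2_ok TB_l48425 _)
                     (CovZ.leaf K2_ok TB_l48426 _)))
                   (CovZ.n1 (-29220, 5064) (by decide +kernel)
                    (CovZ.leaf K2_ok TB_l48427 _)
                    (CovZ.leaf K2_ok TB_l37944 _)))))
                (CovZ.n1 (-29208, 5088) (by decide +kernel)
                 (CovZ.n2 (-29196, 5076) (by decide +kernel)
                  (CovZ.leaf K2_ok TB_l37945 _)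
                  (CovZ.n1 (-29196, 5088) (by decide +kernel)
                   (CovZ.leaf K2_ok TB_l37946 _)
                   (CovZ.leaf K2_ok TB_l37947 _)))
                 (CovZ.n1 (-29220, 5076) (by decide +kernel)
                  (CovZ.n2 (-29220, 5088) (by decide +kernel)
                   (CovZ.leaf K2_ok TB_l37948 _)
                   (CovZ.leaf K2_ok TB_l37949 _))
                  (CovZ.leaf K2_ok TB_l37950 _))))
               (CovZ.n1 (-29256, 5064) (by decide +kernel)
                (CovZ.n2 (-29256, 5088) (by decide +kernel)
                 (CovZ.n2 (-29244, 5076) (by decide +kernel)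
                  (CovZ.leaf K2_ok TB_l37951 _)
                  (CovZ.leaf K2_ok TB_l37952 _))
                 (CovZ.leaf K2_ok TB_l37953 _))
                (CovZ.n1 (-29232, 5064) (by decide +kernel)
                 (CovZ.n2 (-29244, 5052) (by decide +kernel)
                  (CovZ.leaf K2_ok TB_l37954 _)
                  (CovZ.n1 (-29232, 5052) (by decide +kernel)
                   (CovZ.leaf K2_ok TB_l48428 _)
                   (CovZ.leaf K2_ok TB_l37955 _)))
                 (CovZ.n1 (-29244, 5076) (by decide +kernel)
                  (CovZ.leaf K2_ok TB_l37956 _)
                  (CovZ.leaf K2_ok TB_l37957 _)))))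
              (CovZ.n1 (-29184, 5040) (by decide +kernel)
               (CovZ.subM 5043456793138493339171717132818382567050206626619577173497381555743452386751642958261026080625269202023248382759272448 (by decide +kernel)
                (CovZ.n2 (-29208, 5016) (by decide +kernel)
                 (CovZ.n2 (-29208, 5040) (by decide +kernel)
                  (CovZ.n2 (-29196, 5028) (by decide +kernel)
                   (CovZ.badM (by decide +kernel))
                   (CovZ.n1 (-29196, 5040) (by decide +kernel)
                    (CovZ.n2 (-29190, 5034) (by decide +kernel)
                     (CovZ.badM (by decide +kernel))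
                     (CovZ.leaf K2_ok TB_l48429 _))
                    (CovZ.badM (by decide +kernel))))
                  (CovZ.badM (by decide +kernel)))
                 (CovZ.n1 (-29184, 5016) (by decide +kernel)
                  (CovZ.badM (by decide +kernel))
                  (CovZ.n1 (-29196, 5028) (by decide +kernel)
                   (CovZ.n2 (-29184, 5028) (by decide +kernel)
                    (CovZ.badM (by decide +kernel))
                    (CovZ.n1 (-29190, 5034) (by decide +kernel)
                     (CovZ.leaf K2_ok TB_l48430 _)
                     (CovZ.badM (by decide +kernel))))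
                   (CovZ.badM (by decide +kernel))))))
               (CovZ.n1 (-29208, 5064) (by decide +kernel)
                (CovZ.n2 (-29184, 5064) (by decide +kernel)
                 (CovZ.subM 5043457394365394529273023472525415345120485634794309694027268456809941098997153387601112125885871215250819514955202560 (by decide +kernel)
                  (CovZ.n2 (-29196, 5052) (by decide +kernel)
                   (CovZ.n2 (-29196, 5064) (by decide +kernel)
                    (CovZ.leaf K2_ok TB_l37958 _)
                    (CovZ.leaf K2_ok TB_l48431 _))
                   (CovZ.n1 (-29184, 5052) (by decide +kernel)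
                    (CovZ.leaf K2_ok TB_l37959 _)
                    (CovZ.leaf K2_ok TB_l37960 _))))
                 (CovZ.n1 (-29196, 5076) (by decide +kernel)
                  (CovZ.leaf K2_ok TB_l37961 _)
                  (CovZ.leaf K2_ok TB_l37962 _)))
                (CovZ.subM 5043457394365394529273023472525415345120485634794309694027268456809941098997153387601112125885871215250819514955202560 (by decide +kernel)
                 (CovZ.n1 (-29208, 5040) (by decide +kernel)
                  (CovZ.n2 (-29220, 5052) (by decide +kernel)
                   (CovZ.n2 (-29208, 5052) (by decide +kernel)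
                    (CovZ.leaf K2_ok TB_l48432 _)
                    (CovZ.leaf K2_ok TB_l48433 _))
                   (CovZ.n1 (-29220, 5040) (by decide +kernel)
                    (CovZ.n2 (-29226, 5046) (by decide +kernel)
                     (CovZ.leaf K2_ok TB_l48434 _)
                     (CovZ.leaf K2_ok TB_l48435 _))
                    (CovZ.leaf K2_ok TB_l48436 _)))
                  (CovZ.n1 (-29196, 5052) (by decide +kernel)
                   (CovZ.n2 (-29196, 5040) (by decide +kernel)
                    (CovZ.n2 (-29202, 5046) (by decide +kernel)
                     (CovZ.leaf K2_ok TB_l48437 _)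
                     (CovZ.leaf K2_ok TB_l48438 _))
                    (CovZ.leaf K2_ok TB_l37963 _))
                   (CovZ.n1 (-29208, 5052) (by decide +kernel)
                    (CovZ.leaf K2_ok TB_l48439 _)
                    (CovZ.leaf K2_ok TB_l48440 _)))))))))
            (CovZ.n1 (-29232, 5136) (by decide +kernel)
             (CovZ.n2 (-29184, 5136) (by decide +kernel)
              (CovZ.n2 (-29208, 5112) (by decide +kernel)
               (CovZ.n2 (-29208, 5136) (by decide +kernel)
                (CovZ.leaf K2_ok TB_l4316 _)
                (CovZ.leaf K2_ok TB_l4317 _))
               (CovZ.n1 (-29184, 5112) (by decide +kernel)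
                (CovZ.leaf K2_ok TB_l37964 _)
                (CovZ.leaf K2_ok TB_l4318 _)))
              (CovZ.n1 (-29208, 5160) (by decide +kernel)
               (CovZ.n2 (-29184, 5160) (by decide +kernel)
                (CovZ.leaf K2_ok TB_l4319 _)
                (CovZ.leaf K2_ok TB_l4320 _))
               (CovZ.n1 (-29208, 5136) (by decide +kernel)
                (CovZ.leaf K2_ok TB_l4321 _)
                (CovZ.leaf K2_ok TB_l4322 _))))
             (CovZ.n1 (-29232, 5088) (by decide +kernel)
              (CovZ.subM 601226901190101306339707064832107000732704402691651352627679318928302011369343708267029211469072388030089658368 (by decide +kernel)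
               (CovZ.n2 (-29256, 5112) (by decide +kernel)
                (CovZ.n2 (-29232, 5112) (by decide +kernel)
                 (CovZ.leaf K2_ok TB_l37965 _)
                 (CovZ.leaf K2_ok TB_l4323 _))
                (CovZ.n1 (-29256, 5088) (by decide +kernel)
                 (CovZ.leaf K2_ok TB_l37966 _)
                 (CovZ.leaf K2_ok TB_l37967 _))))
              (CovZ.n1 (-29208, 5112) (by decide +kernel)
               (CovZ.n2 (-29208, 5088) (by decide +kernel)
                (CovZ.leaf K2_ok TB_l37968 _)
                (CovZ.leaf K2_ok TB_l37969 _))
               (CovZ.n1 (-29232, 5112) (by decide +kernel)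
                (CovZ.leaf K2_ok TB_l4324 _)
                (CovZ.n1 (-29220, 5100) (by decide +kernel)
                 (CovZ.leaf K2_ok TB_l37970 _)
                 (CovZ.leaf K2_ok TB_l37971 _))))))))
          (CovZ.n1 (-29280, 5280) (by decide +kernel)
           (CovZ.n2 (-29184, 5280) (by decide +kernel)
            (CovZ.n2 (-29232, 5232) (by decide +kernel)
             (CovZ.n2 (-29232, 5280) (by decide +kernel)
              (CovZ.n2 (-29208, 5256) (by decide +kernel)
               (CovZ.leaf K2_ok TB_l4325 _)
               (CovZ.leaf K2_ok TB_l4326 _))
              (CovZ.leaf K2_ok TB_l4327 _))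
             (CovZ.n1 (-29184, 5232) (by decide +kernel)
              (CovZ.n2 (-29208, 5208) (by decide +kernel)
               (CovZ.leaf K2_ok TB_l4328 _)
               (CovZ.leaf K2_ok TB_l4329 _))
              (CovZ.n1 (-29208, 5256) (by decide +kernel)
               (CovZ.leaf K2_ok TB_l4330 _)
               (CovZ.leaf K2_ok TB_l4331 _))))
            (CovZ.n1 (-29232, 5328) (by decide +kernel)
             (CovZ.leaf K2_ok TB_l4332 _)
             (CovZ.n1 (-29232, 5280) (by decide +kernel)
              (CovZ.leaf K2_ok TB_l4333 _)
              (CovZ.leaf K2_ok TB_l4334 _))))
           (CovZ.n1 (-29280, 5184) (by decide +kernel)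
            (CovZ.n2 (-29328, 5232) (by decide +kernel)
             (CovZ.n2 (-29280, 5232) (by decide +kernel)
              (CovZ.leaf K2_ok TB_l4335 _)
              (CovZ.leaf K2_ok TB_l4336 _))
             (CovZ.n1 (-29328, 5184) (by decide +kernel)
              (CovZ.n2 (-29352, 5208) (by decide +kernel)
               (CovZ.leaf K2_ok TB_l4337 _)
               (CovZ.leaf K2_ok TB_l4338 _))
              (CovZ.n1 (-29304, 5208) (by decide +kernel)
               (CovZ.leaf K2_ok TB_l4339 _)
               (CovZ.leaf K2_ok TB_l4340 _))))
            (CovZ.n1 (-29232, 5232) (by decide +kernel)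
             (CovZ.n2 (-29232, 5184) (by decide +kernel)
              (CovZ.n2 (-29256, 5208) (by decide +kernel)
               (CovZ.leaf K2_ok TB_l4341 _)
               (CovZ.leaf K2_ok TB_l4342 _))
              (CovZ.n1 (-29208, 5208) (by decide +kernel)
               (CovZ.n2 (-29208, 5184) (by decide +kernel)
                (CovZ.leaf K2_ok TB_l4343 _)
                (CovZ.leaf K2_ok TB_l4344 _))
               (CovZ.leaf K2_ok TB_l4345 _)))
             (CovZ.n1 (-29280, 5232) (by decide +kernel)
              (CovZ.leaf K2_ok TB_l4346 _)
              (CovZ.n1 (-29256, 5208) (by decide +kernel)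
               (CovZ.leaf K2_ok TB_l4347 _)
               (CovZ.leaf K2_ok TB_l4348 _)))))))
         (CovZ.n1 (-29376, 4992) (by decide +kernel)
          TB_u135
          TB_u136)))))

theorem TB_u138 : CovZ TB_M (toL (selN TB_LN 5043457396718524389246931701604430553163522199506415261489068479864498082825964416475102425241764397900246224068411392)) [0, 7, 6, 1] (-29184, 5376) (-29184, 6144) (-29952, 5376) :=
    (CovZ.n1 (-29568, 5760) (by decide +kernel)
      (CovZ.n2 (-29184, 5760) (by decide +kernel)
       (CovZ.n2 (-29376, 5568) (by decide +kernel)
        (CovZ.n2 (-29376, 5760) (by decide +kernel)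
         (CovZ.n2 (-29280, 5664) (by decide +kernel)
          (CovZ.leaf K2_ok TB_l4383 _)
          (CovZ.n1 (-29280, 5760) (by decide +kernel)
           (CovZ.leaf K2_ok TB_l4384 _)
           (CovZ.leaf K2_ok TB_l4385 _)))
         (CovZ.n1 (-29472, 5664) (by decide +kernel)
          (CovZ.leaf K2_ok TB_l4386 _)
          (CovZ.leaf K2_ok TB_l4387 _)))
        (CovZ.n1 (-29184, 5568) (by decide +kernel)
         (CovZ.n2 (-29280, 5472) (by decide +kernel)
          (CovZ.n2 (-29280, 5568) (by decide +kernel)
           (CovZ.leaf K2_ok TB_l4388 _)
           (CovZ.leaf K2_ok TB_l4389 _))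
          (CovZ.n1 (-29184, 5472) (by decide +kernel)
           (CovZ.leaf K2_ok TB_l4390 _)
           (CovZ.leaf K2_ok TB_l4391 _)))
         (CovZ.n1 (-29280, 5664) (by decide +kernel)
          (CovZ.leaf K2_ok TB_l4392 _)
          (CovZ.n1 (-29280, 5568) (by decide +kernel)
           (CovZ.leaf K2_ok TB_l4393 _)
           (CovZ.leaf K2_ok TB_l4394 _)))))
       (CovZ.n1 (-29376, 5952) (by decide +kernel)
        (CovZ.n2 (-29184, 5952) (by decide +kernel)
         (CovZ.n2 (-29280, 5856) (by decide +kernel)
          (CovZ.leaf K2_ok TB_l4395 _)
          (CovZ.leaf K2_ok TB_l4396 _))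
         (CovZ.leaf K2_ok TB_l4397 _))
        (CovZ.n1 (-29376, 5760) (by decide +kernel)
         (CovZ.n2 (-29472, 5856) (by decide +kernel)
          (CovZ.leaf K2_ok TB_l4398 _)
          (CovZ.leaf K2_ok TB_l4399 _))
         (CovZ.n1 (-29280, 5856) (by decide +kernel)
          (CovZ.leaf K2_ok TB_l4400 _)
          (CovZ.leaf K2_ok TB_l4401 _)))))
      (CovZ.n1 (-29568, 5376) (by decide +kernel)
       (CovZ.n2 (-29760, 5568) (by decide +kernel)
        (CovZ.subM 601226901190101308425647818942185866244141759914033451923869542846444919688639784151933253276487439823743746048 (by decide +kernel)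
         (CovZ.n2 (-29568, 5568) (by decide +kernel)
          (CovZ.n2 (-29664, 5472) (by decide +kernel)
           (CovZ.n2 (-29664, 5568) (by decide +kernel)
            (CovZ.leaf K2_ok TB_l4402 _)
            (CovZ.leaf K2_ok TB_l4403 _))
           (CovZ.n1 (-29568, 5472) (by decide +kernel)
            (CovZ.leaf K2_ok TB_l4404 _)
            (CovZ.leaf K2_ok TB_l4405 _)))
          (CovZ.n1 (-29664, 5664) (by decide +kernel)
           (CovZ.leaf K2_ok TB_l4406 _)
           (CovZ.n1 (-29664, 5568) (by decide +kernel)
            (CovZ.leaf K2_ok TB_l4407 _)
            (CovZ.leaf K2_ok TB_l4408 _)))))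
        (CovZ.n1 (-29760, 5376) (by decide +kernel)
         (CovZ.n2 (-29856, 5472) (by decide +kernel)
          (CovZ.n2 (-29760, 5472) (by decide +kernel)
           (CovZ.leaf K2_ok TB_l4409 _)
           (CovZ.leaf K2_ok TB_l4410 _))
          (CovZ.n1 (-29856, 5376) (by decide +kernel)
           (CovZ.leaf K2_ok TB_l4411 _)
           (CovZ.leaf K2_ok TB_l4412 _)))
         (CovZ.subM 601226901190101308425647818942185866244141759914033451923869542846444919688639784151933253276487439823743746048 (by decide +kernel)
          (CovZ.n1 (-29664, 5472) (by decide +kernel)
           (CovZ.n2 (-29664, 5376) (by decide +kernel)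
            (CovZ.leaf K2_ok TB_l4413 _)
            (CovZ.leaf K2_ok TB_l4414 _))
           (CovZ.n1 (-29760, 5472) (by decide +kernel)
            (CovZ.leaf K2_ok TB_l4415 _)
            (CovZ.leaf K2_ok TB_l4416 _))))))
       (CovZ.n1 (-29376, 5568) (by decide +kernel)
        (CovZ.n2 (-29376, 5376) (by decide +kernel)
         (CovZ.subM 601226901190101308425647818942185866244141759914033451874829685538736476221172679283123359400687787913868476416 (by decide +kernel)
          (CovZ.n2 (-29472, 5472) (by decide +kernel)
           (CovZ.n2 (-29376, 5472) (by decide +kernel)
            (CovZ.leaf K2_ok TB_l4417 _)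
            (CovZ.leaf K2_ok TB_l4418 _))
           (CovZ.n1 (-29472, 5376) (by decide +kernel)
            (CovZ.leaf K2_ok TB_l4419 _)
            (CovZ.n1 (-29424, 5424) (by decide +kernel)
             (CovZ.leaf K2_ok TB_l4420 _)
             (CovZ.leaf K2_ok TB_l4421 _)))))
         (CovZ.n1 (-29280, 5472) (by decide +kernel)
          (CovZ.subM 5043457394365394529273023472541361742722320531872952156327596513869502811569398549293857675974490038241945285334925312 (by decide +kernel)
           (CovZ.n2 (-29280, 5376) (by decide +kernel)
            (CovZ.n2 (-29328, 5424) (by decide +kernel)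
             (CovZ.leaf K2_ok TB_l4422 _)
             (CovZ.leaf K2_ok TB_l4423 _))
            (CovZ.n1 (-29232, 5424) (by decide +kernel)
             (CovZ.leaf K2_ok TB_l4424 _)
             (CovZ.leaf K2_ok TB_l4425 _))))
          (CovZ.n1 (-29376, 5472) (by decide +kernel)
           (CovZ.leaf K2_ok TB_l4426 _)
           (CovZ.n1 (-29328, 5424) (by decide +kernel)
            (CovZ.leaf K2_ok TB_l4427 _)
            (CovZ.leaf K2_ok TB_l4428 _)))))
        (CovZ.subM 601226901190101308425647818942185866244141759914033451923869542846444919688639784151933253276487439823743746048 (by decide +kernel)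
         (CovZ.n1 (-29568, 5568) (by decide +kernel)
          (CovZ.n2 (-29472, 5664) (by decide +kernel)
           (CovZ.n2 (-29472, 5568) (by decide +kernel)
            (CovZ.leaf K2_ok TB_l4429 _)
            (CovZ.leaf K2_ok TB_l4430 _))
           (CovZ.leaf K2_ok TB_l4431 _))
          (CovZ.n1 (-29472, 5472) (by decide +kernel)
           (CovZ.n2 (-29568, 5472) (by decide +kernel)
            (CovZ.leaf K2_ok TB_l4432 _)
            (CovZ.leaf K2_ok TB_l4433 _))
           (CovZ.n1 (-29472, 5568) (by decide +kernel)
            (CovZ.leaf K2_ok TB_l4434 _)
            (CovZ.leaf K2_ok TB_l4435 _))))))))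

theorem TB_u139 : CovZ TB_M (toL (selN TB_LN 2353129580005813370912734778283885982219213632530143737044922734537491373358613093523884570036931947446403072)) [0, 7, 6, 1] (-29952, 4992) (-30144, 4992) (-30144, 4800) :=
    (CovZ.n2 (-30048, 4896) (by decide +kernel)
           (CovZ.n2 (-30144, 4896) (by decide +kernel)
            (CovZ.n2 (-30096, 4944) (by decide +kernel)
             (CovZ.subM 4586997231980143023223098792273343178396372230912514165248508442916976692034067922995041558989782436020224 (by decide +kernel)
              (CovZ.n2 (-30096, 4896) (by decide +kernel)
               (CovZ.n2 (-30120, 4920) (by decide +kernel)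
                (CovZ.n2 (-30096, 4920) (by decide +kernel)
                 (CovZ.n2 (-30108, 4908) (by decide +kernel)
                  (CovZ.n2 (-30108, 4920) (by decide +kernel)
                   (CovZ.badM (by decide +kernel))
                   (CovZ.leaf K2_ok TB_l48457 _))
                  (CovZ.badM (by decide +kernel)))
                 (CovZ.n1 (-30108, 4932) (by decide +kernel)
                  (CovZ.leaf K2_ok TB_l38045 _)
                  (CovZ.n1 (-30108, 4920) (by decide +kernel)
                   (CovZ.leaf K2_ok TB_l38046 _)
                   (CovZ.leaf K2_ok TB_l38047 _))))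
                (CovZ.n1 (-30120, 4896) (by decide +kernel)
                 (CovZ.n2 (-30132, 4908) (by decide +kernel)
                  (CovZ.leaf K2_ok TB_l48458 _)
                  (CovZ.badM (by decide +kernel)))
                 (CovZ.n1 (-30108, 4908) (by decide +kernel)
                  (CovZ.badM (by decide +kernel))
                  (CovZ.leaf K2_ok TB_l48459 _))))
               (CovZ.n1 (-30072, 4920) (by decide +kernel)
                (CovZ.badM (by decide +kernel))
                (CovZ.n1 (-30096, 4920) (by decide +kernel)
                 (CovZ.n2 (-30084, 4932) (by decide +kernel)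
                  (CovZ.leaf K2_ok TB_l48460 _)
                  (CovZ.leaf K2_ok TB_l38048 _))
                 (CovZ.badM (by decide +kernel))))))
             (CovZ.n1 (-30144, 4944) (by decide +kernel)
              (CovZ.n2 (-30120, 4968) (by decide +kernel)
               (CovZ.n2 (-30120, 4944) (by decide +kernel)
                (CovZ.n2 (-30132, 4956) (by decide +kernel)
                 (CovZ.leaf K2_ok TB_l38049 _)
                 (CovZ.leaf K2_ok TB_l38050 _))
                (CovZ.leaf K2_ok TB_l38051 _))
               (CovZ.n1 (-30144, 4968) (by decide +kernel)
                (CovZ.leaf K2_ok TB_l4436 _)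
                (CovZ.leaf K2_ok TB_l38052 _)))
              (CovZ.subM 4586997231980143023223098792273343178396372230912514165248508442916976692034067922995041558989782436020224 (by decide +kernel)
               (CovZ.n1 (-30120, 4920) (by decide +kernel)
                (CovZ.n2 (-30144, 4920) (by decide +kernel)
                 (CovZ.n2 (-30132, 4932) (by decide +kernel)
                  (CovZ.n2 (-30132, 4920) (by decide +kernel)
                   (CovZ.leaf K2_ok TB_l38053 _)
                   (CovZ.leaf K2_ok TB_l38054 _))
                  (CovZ.leaf K2_ok TB_l38055 _))
                 (CovZ.n1 (-30132, 4908) (by decide +kernel)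
                  (CovZ.leaf K2_ok TB_l48461 _)
                  (CovZ.n1 (-30132, 4920) (by decide +kernel)
                   (CovZ.leaf K2_ok TB_l48462 _)
                   (CovZ.leaf K2_ok TB_l48463 _))))
                (CovZ.n1 (-30120, 4944) (by decide +kernel)
                 (CovZ.n2 (-30108, 4932) (by decide +kernel)
                  (CovZ.leaf K2_ok TB_l38056 _)
                  (CovZ.leaf K2_ok TB_l38057 _))
                 (CovZ.n1 (-30132, 4932) (by decide +kernel)
                  (CovZ.leaf K2_ok TB_l38058 _)
                  (CovZ.leaf K2_ok TB_l38059 _)))))))
            (CovZ.badM (by decide +kernel)))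
           (CovZ.n1 (-30048, 4992) (by decide +kernel)
            (CovZ.n2 (-30000, 4944) (by decide +kernel)
             (CovZ.n2 (-30048, 4944) (by decide +kernel)
              (CovZ.n2 (-30024, 4968) (by decide +kernel)
               (CovZ.subM 4586997231980143023223098792273343178396372230912514165251431446191638497870475292660474125029094301106176 (by decide +kernel)
                (CovZ.n2 (-30024, 4944) (by decide +kernel)
                 (CovZ.n2 (-30036, 4956) (by decide +kernel)
                  (CovZ.leaf K2_ok TB_l38060 _)
                  (CovZ.leaf K2_ok TB_l38061 _))
                 (CovZ.n1 (-30012, 4956) (by decide +kernel)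
                  (CovZ.n2 (-30012, 4944) (by decide +kernel)
                   (CovZ.leaf K2_ok TB_l38062 _)
                   (CovZ.leaf K2_ok TB_l38063 _))
                  (CovZ.leaf K2_ok TB_l38064 _))))
               (CovZ.n1 (-30048, 4968) (by decide +kernel)
                (CovZ.leaf K2_ok TB_l4437 _)
                (CovZ.n1 (-30036, 4956) (by decide +kernel)
                 (CovZ.leaf K2_ok TB_l38065 _)
                 (CovZ.leaf K2_ok TB_l38066 _))))
              (CovZ.subM 4586997231980143023222613125050286746128589709289974006928498882193371821937595522344906558362853978406912 (by decide +kernel)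
               (CovZ.n1 (-30024, 4920) (by decide +kernel)
                (CovZ.n2 (-30048, 4920) (by decide +kernel)
                 (CovZ.n2 (-30036, 4932) (by decide +kernel)
                  (CovZ.badM (by decide +kernel))
                  (CovZ.leaf K2_ok TB_l38067 _))
                 (CovZ.badM (by decide +kernel)))
                (CovZ.n1 (-30024, 4944) (by decide +kernel)
                 (CovZ.n2 (-30012, 4932) (by decide +kernel)
                  (CovZ.leaf K2_ok TB_l38068 _)
                  (CovZ.n1 (-30012, 4944) (by decide +kernel)
                   (CovZ.leaf K2_ok TB_l48464 _)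
                   (CovZ.leaf K2_ok TB_l38069 _)))
                 (CovZ.n1 (-30036, 4932) (by decide +kernel)
                  (CovZ.leaf K2_ok TB_l38070 _)
                  (CovZ.leaf K2_ok TB_l38071 _))))))
             (CovZ.n1 (-30000, 4992) (by decide +kernel)
              (CovZ.n2 (-29976, 4968) (by decide +kernel)
               (CovZ.n2 (-30000, 4968) (by decide +kernel)
                (CovZ.n2 (-29988, 4980) (by decide +kernel)
                 (CovZ.leaf K2_ok TB_l38072 _)
                 (CovZ.leaf K2_ok TB_l38073 _))
                (CovZ.n1 (-29988, 4956) (by decide +kernel)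
                 (CovZ.leaf K2_ok TB_l38074 _)
                 (CovZ.leaf K2_ok TB_l38075 _)))
               (CovZ.n1 (-29976, 4992) (by decide +kernel)
                (CovZ.leaf K2_ok TB_l38076 _)
                (CovZ.leaf K2_ok TB_l38077 _)))
              (CovZ.n1 (-30024, 4968) (by decide +kernel)
               (CovZ.n2 (-30024, 4992) (by decide +kernel)
                (CovZ.n2 (-30012, 4980) (by decide +kernel)
                 (CovZ.leaf K2_ok TB_l38078 _)
                 (CovZ.leaf K2_ok TB_l38079 _))
                (CovZ.leaf K2_ok TB_l4438 _))
               (CovZ.n1 (-30000, 4968) (by decide +kernel)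
                (CovZ.n2 (-30012, 4956) (by decide +kernel)
                 (CovZ.n2 (-30012, 4968) (by decide +kernel)
                  (CovZ.leaf K2_ok TB_l38080 _)
                  (CovZ.leaf K2_ok TB_l38081 _))
                 (CovZ.leaf K2_ok TB_l38082 _))
                (CovZ.n1 (-30012, 4980) (by decide +kernel)
                 (CovZ.leaf K2_ok TB_l38083 _)
                 (CovZ.leaf K2_ok TB_l38084 _))))))
            (CovZ.n1 (-30096, 4944) (by decide +kernel)
             (CovZ.n2 (-30096, 4992) (by decide +kernel)
              (CovZ.n2 (-30072, 4968) (by decide +kernel)
               (CovZ.n2 (-30096, 4968) (by decide +kernel)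
                (CovZ.leaf K2_ok TB_l4439 _)
                (CovZ.leaf K2_ok TB_l38085 _))
               (CovZ.n1 (-30072, 4992) (by decide +kernel)
                (CovZ.leaf K2_ok TB_l4440 _)
                (CovZ.leaf K2_ok TB_l4441 _)))
              (CovZ.n1 (-30120, 4968) (by decide +kernel)
               (CovZ.n2 (-30120, 4992) (by decide +kernel)
                (CovZ.leaf K2_ok TB_l4442 _)
                (CovZ.leaf K2_ok TB_l4443 _))
               (CovZ.n1 (-30096, 4968) (by decide +kernel)
                (CovZ.leaf K2_ok TB_l38086 _)
                (CovZ.leaf K2_ok TB_l4444 _))))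
             (CovZ.n1 (-30048, 4944) (by decide +kernel)
              (CovZ.subM 4586997231980143023223098792273343178396372230912514165248508442916976692034067922995041558989782436020224 (by decide +kernel)
               (CovZ.n2 (-30072, 4920) (by decide +kernel)
                (CovZ.n2 (-30072, 4944) (by decide +kernel)
                 (CovZ.n2 (-30060, 4932) (by decide +kernel)
                  (CovZ.leaf K2_ok TB_l38087 _)
                  (CovZ.leaf K2_ok TB_l38088 _))
                 (CovZ.n1 (-30084, 4932) (by decide +kernel)
                  (CovZ.leaf K2_ok TB_l38089 _)
                  (CovZ.leaf K2_ok TB_l38090 _)))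
                (CovZ.n1 (-30048, 4920) (by decide +kernel)
                 (CovZ.badM (by decide +kernel))
                 (CovZ.n1 (-30060, 4932) (by decide +kernel)
                  (CovZ.leaf K2_ok TB_l38091 _)
                  (CovZ.leaf K2_ok TB_l48465 _)))))
              (CovZ.n1 (-30072, 4968) (by decide +kernel)
               (CovZ.n2 (-30048, 4968) (by decide +kernel)
                (CovZ.leaf K2_ok TB_l38092 _)
                (CovZ.leaf K2_ok TB_l4445 _))
               (CovZ.subM 4586997231980143023223098792273343178396372230912514165251431446191638497870475292660474125029094309494784 (by decide +kernel)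
                (CovZ.n1 (-30072, 4944) (by decide +kernel)
                 (CovZ.n2 (-30084, 4956) (by decide +kernel)
                  (CovZ.leaf K2_ok TB_l38093 _)
                  (CovZ.leaf K2_ok TB_l38094 _))
                 (CovZ.n1 (-30060, 4956) (by decide +kernel)
                  (CovZ.leaf K2_ok TB_l38095 _)
                  (CovZ.leaf K2_ok TB_l38096 _)))))))))

theorem TB_u140 : CovZ TB_M (toL (selN TB_LN 2353129580005813370912734778283885982219213632530143737044922734537491373358613093523884570036931947446403072)) [0, 7, 6, 1] (-30144, 4992) (-30336, 4992) (-30144, 4800) :=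
    (CovZ.n1 (-30240, 4896) (by decide +kernel)
           (CovZ.n2 (-30240, 4992) (by decide +kernel)
            (CovZ.n2 (-30192, 4944) (by decide +kernel)
             (CovZ.n2 (-30240, 4944) (by decide +kernel)
              (CovZ.n2 (-30216, 4968) (by decide +kernel)
               (CovZ.n2 (-30216, 4944) (by decide +kernel)
                (CovZ.leaf K2_ok TB_l4446 _)
                (CovZ.leaf K2_ok TB_l4447 _))
               (CovZ.n1 (-30240, 4968) (by decide +kernel)
                (CovZ.leaf K2_ok TB_l4448 _)
                (CovZ.leaf K2_ok TB_l4449 _)))
              (CovZ.n1 (-30216, 4920) (by decide +kernel)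
               (CovZ.n2 (-30240, 4920) (by decide +kernel)
                (CovZ.n2 (-30228, 4932) (by decide +kernel)
                 (CovZ.leaf K2_ok TB_l38097 _)
                 (CovZ.leaf K2_ok TB_l38098 _))
                (CovZ.n1 (-30228, 4908) (by decide +kernel)
                 (CovZ.leaf K2_ok TB_l38099 _)
                 (CovZ.n1 (-30228, 4920) (by decide +kernel)
                  (CovZ.leaf K2_ok TB_l38100 _)
                  (CovZ.leaf K2_ok TB_l38101 _))))
               (CovZ.n1 (-30216, 4944) (by decide +kernel)
                (CovZ.leaf K2_ok TB_l38102 _)
                (CovZ.leaf K2_ok TB_l38103 _))))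
             (CovZ.n1 (-30192, 4992) (by decide +kernel)
              (CovZ.n2 (-30168, 4968) (by decide +kernel)
               (CovZ.n2 (-30192, 4968) (by decide +kernel)
                (CovZ.leaf K2_ok TB_l4450 _)
                (CovZ.leaf K2_ok TB_l4451 _))
               (CovZ.n1 (-30168, 4992) (by decide +kernel)
                (CovZ.leaf K2_ok TB_l4452 _)
                (CovZ.leaf K2_ok TB_l4453 _)))
              (CovZ.n1 (-30216, 4968) (by decide +kernel)
               (CovZ.n2 (-30216, 4992) (by decide +kernel)
                (CovZ.leaf K2_ok TB_l4454 _)
                (CovZ.leaf K2_ok TB_l4455 _))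
               (CovZ.n1 (-30192, 4968) (by decide +kernel)
                (CovZ.leaf K2_ok TB_l4456 _)
                (CovZ.leaf K2_ok TB_l4457 _)))))
            (CovZ.n1 (-30288, 4944) (by decide +kernel)
             (CovZ.n2 (-30288, 4992) (by decide +kernel)
              (CovZ.n2 (-30264, 4968) (by decide +kernel)
               (CovZ.leaf K2_ok TB_l4458 _)
               (CovZ.leaf K2_ok TB_l4459 _))
              (CovZ.n1 (-30312, 4968) (by decide +kernel)
               (CovZ.n2 (-30312, 4992) (by decide +kernel)
                (CovZ.leaf K2_ok TB_l4460 _)
                (CovZ.leaf K2_ok TB_l4461 _))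
               (CovZ.leaf K2_ok TB_l4462 _)))
             (CovZ.n1 (-30240, 4944) (by decide +kernel)
              (CovZ.n2 (-30264, 4920) (by decide +kernel)
               (CovZ.n2 (-30264, 4944) (by decide +kernel)
                (CovZ.leaf K2_ok TB_l4463 _)
                (CovZ.leaf K2_ok TB_l4464 _))
               (CovZ.n1 (-30240, 4920) (by decide +kernel)
                (CovZ.n2 (-30252, 4908) (by decide +kernel)
                 (CovZ.leaf K2_ok TB_l38104 _)
                 (CovZ.leaf K2_ok TB_l38105 _))
                (CovZ.leaf K2_ok TB_l38106 _)))
              (CovZ.n1 (-30264, 4968) (by decide +kernel)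
               (CovZ.n2 (-30240, 4968) (by decide +kernel)
                (CovZ.leaf K2_ok TB_l4465 _)
                (CovZ.leaf K2_ok TB_l4466 _))
               (CovZ.n1 (-30264, 4944) (by decide +kernel)
                (CovZ.leaf K2_ok TB_l4467 _)
                (CovZ.leaf K2_ok TB_l4468 _))))))
           (CovZ.n1 (-30144, 4896) (by decide +kernel)
            (CovZ.subM 4586997231980143023221641790604173881593129978336562247475177678773845752176969616140037106220251373109248 (by decide +kernel)
             (CovZ.n2 (-30192, 4848) (by decide +kernel)
              (CovZ.n2 (-30192, 4896) (by decide +kernel)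
               (CovZ.badM (by decide +kernel))
               (CovZ.n1 (-30216, 4872) (by decide +kernel)
                (CovZ.n2 (-30216, 4896) (by decide +kernel)
                 (CovZ.badM (by decide +kernel))
                 (CovZ.n1 (-30228, 4884) (by decide +kernel)
                  (CovZ.n2 (-30228, 4896) (by decide +kernel)
                   (CovZ.badM (by decide +kernel))
                   (CovZ.leaf K2_ok TB_l48466 _))
                  (CovZ.badM (by decide +kernel))))
                (CovZ.badM (by decide +kernel))))
              (CovZ.badM (by decide +kernel))))
            (CovZ.n1 (-30192, 4944) (by decide +kernel)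
             (CovZ.n2 (-30144, 4944) (by decide +kernel)
              (CovZ.subM 4586997231980143023223098792273343178396372230912514165251431446191638497870475292660474125029094301106176 (by decide +kernel)
               (CovZ.n2 (-30168, 4920) (by decide +kernel)
                (CovZ.n2 (-30168, 4944) (by decide +kernel)
                 (CovZ.leaf K2_ok TB_l38107 _)
                 (CovZ.leaf K2_ok TB_l38108 _))
                (CovZ.n1 (-30144, 4920) (by decide +kernel)
                 (CovZ.n2 (-30156, 4908) (by decide +kernel)
                  (CovZ.n2 (-30156, 4920) (by decide +kernel)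
                   (CovZ.leaf K2_ok TB_l38109 _)
                   (CovZ.leaf K2_ok TB_l38110 _))
                  (CovZ.leaf K2_ok TB_l48467 _))
                 (CovZ.n1 (-30156, 4932) (by decide +kernel)
                  (CovZ.leaf K2_ok TB_l38111 _)
                  (CovZ.leaf K2_ok TB_l38112 _)))))
              (CovZ.n1 (-30168, 4968) (by decide +kernel)
               (CovZ.n2 (-30144, 4968) (by decide +kernel)
                (CovZ.leaf K2_ok TB_l38113 _)
                (CovZ.leaf K2_ok TB_l4469 _))
               (CovZ.n1 (-30168, 4944) (by decide +kernel)
                (CovZ.leaf K2_ok TB_l38114 _)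
                (CovZ.leaf K2_ok TB_l38115 _))))
             (CovZ.subM 4586997231980143023223098792273343178396372230912514165251431446191638497870475292660474125029094301106176 (by decide +kernel)
              (CovZ.n1 (-30192, 4896) (by decide +kernel)
               (CovZ.n2 (-30216, 4920) (by decide +kernel)
                (CovZ.n2 (-30192, 4920) (by decide +kernel)
                 (CovZ.n2 (-30204, 4908) (by decide +kernel)
                  (CovZ.leaf K2_ok TB_l38116 _)
                  (CovZ.n1 (-30192, 4908) (by decide +kernel)
                   (CovZ.leaf K2_ok TB_l48468 _)
                   (CovZ.leaf K2_ok TB_l38117 _)))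
                 (CovZ.n1 (-30204, 4932) (by decide +kernel)
                  (CovZ.leaf K2_ok TB_l38118 _)
                  (CovZ.leaf K2_ok TB_l38119 _)))
                (CovZ.n1 (-30216, 4896) (by decide +kernel)
                 (CovZ.n2 (-30228, 4908) (by decide +kernel)
                  (CovZ.leaf K2_ok TB_l38120 _)
                  (CovZ.leaf K2_ok TB_l38121 _))
                 (CovZ.n1 (-30204, 4908) (by decide +kernel)
                  (CovZ.leaf K2_ok TB_l48469 _)
                  (CovZ.leaf K2_ok TB_l38122 _))))
               (CovZ.n1 (-30168, 4920) (by decide +kernel)
                (CovZ.subM 4586997231980143023222613125050286746128589709289974006928498882193371821937595522344906558362853978406912 (by decide +kernel)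
                 (CovZ.n2 (-30168, 4896) (by decide +kernel)
                  (CovZ.n2 (-30180, 4908) (by decide +kernel)
                   (CovZ.leaf K2_ok TB_l38123 _)
                   (CovZ.n1 (-30180, 4896) (by decide +kernel)
                    (CovZ.leaf K2_ok TB_l48470 _)
                    (CovZ.leaf K2_ok TB_l48471 _)))
                  (CovZ.n1 (-30156, 4908) (by decide +kernel)
                   (CovZ.badM (by decide +kernel))
                   (CovZ.leaf K2_ok TB_l38124 _))))
                (CovZ.n1 (-30192, 4920) (by decide +kernel)
                 (CovZ.leaf K2_ok TB_l38125 _)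
                 (CovZ.n1 (-30180, 4908) (by decide +kernel)
                  (CovZ.leaf K2_ok TB_l38126 _)
                  (CovZ.leaf K2_ok TB_l38127 _)))))))))

theorem TB_u141 : CovZ TB_M (toL (selN TB_LN 5043457396718524389246931701604430553163522199506415261489068479864498082825964416475102425241764397900246224068411392)) [0, 7, 6, 1] (-30720, 4608) (-30336, 4608) (-30336, 4992) :=
    (CovZ.n2 (-30528, 4800) (by decide +kernel)
        (CovZ.subM 2353129859973906143138261097964171053274748397735830915896043250890350727566149425448949680546444561334927360 (by decide +kernel)
         (CovZ.n2 (-30336, 4800) (by decide +kernel)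
          (CovZ.badM (by decide +kernel))
          (CovZ.n1 (-30432, 4896) (by decide +kernel)
           (CovZ.n2 (-30336, 4896) (by decide +kernel)
            (CovZ.n2 (-30384, 4848) (by decide +kernel)
             (CovZ.n2 (-30384, 4896) (by decide +kernel)
              (CovZ.n2 (-30360, 4872) (by decide +kernel)
               (CovZ.subM 2353129580005813370912703695581610370554078921139634511702556225316348409853331788345769439202677442361688064 (by decide +kernel)
                (CovZ.n2 (-30384, 4872) (by decide +kernel)
                 (CovZ.n2 (-30372, 4884) (by decide +kernel)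
                  (CovZ.leaf K2_ok TB_l38141 _)
                  (CovZ.leaf K2_ok TB_l38142 _))
                 (CovZ.subM 4586997231980143023222613125050286746128589709289974006928498882193371821937595522344906558362853977358336 (by decide +kernel)
                  (CovZ.n1 (-30372, 4860) (by decide +kernel)
                   (CovZ.n2 (-30384, 4860) (by decide +kernel)
                    (CovZ.leaf K2_ok TB_l38143 _)
                    (CovZ.badM (by decide +kernel)))
                   (CovZ.n1 (-30372, 4872) (by decide +kernel)
                    (CovZ.leaf K2_ok TB_l48472 _)
                    (CovZ.leaf K2_ok TB_l38144 _))))))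
               (CovZ.n1 (-30360, 4896) (by decide +kernel)
                (CovZ.n2 (-30348, 4884) (by decide +kernel)
                 (CovZ.leaf K2_ok TB_l38145 _)
                 (CovZ.leaf K2_ok TB_l38146 _))
                (CovZ.n1 (-30372, 4884) (by decide +kernel)
                 (CovZ.leaf K2_ok TB_l38147 _)
                 (CovZ.leaf K2_ok TB_l38148 _))))
              (CovZ.subM 2353129580005813370912703695581610370554078921139634511702556225316348409853331788345769439202677442361688064 (by decide +kernel)
               (CovZ.n1 (-30408, 4872) (by decide +kernel)
                (CovZ.n2 (-30408, 4896) (by decide +kernel)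
                 (CovZ.n2 (-30396, 4884) (by decide +kernel)
                  (CovZ.leaf K2_ok TB_l38149 _)
                  (CovZ.leaf K2_ok TB_l38150 _))
                 (CovZ.n1 (-30420, 4884) (by decide +kernel)
                  (CovZ.leaf K2_ok TB_l38151 _)
                  (CovZ.leaf K2_ok TB_l38152 _)))
                (CovZ.n1 (-30384, 4872) (by decide +kernel)
                 (CovZ.n2 (-30396, 4860) (by decide +kernel)
                  (CovZ.leaf K2_ok TB_l38153 _)
                  (CovZ.leaf K2_ok TB_l38154 _))
                 (CovZ.n1 (-30396, 4884) (by decide +kernel)
                  (CovZ.leaf K2_ok TB_l38155 _)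
                  (CovZ.leaf K2_ok TB_l38156 _))))))
             (CovZ.subM 4586997231980143023223098792273343178396372231314297716170563720245934682224227383519468107087390520115200 (by decide +kernel)
              (CovZ.n1 (-30336, 4848) (by decide +kernel)
               (CovZ.badM (by decide +kernel))
               (CovZ.n1 (-30360, 4872) (by decide +kernel)
                (CovZ.n2 (-30336, 4872) (by decide +kernel)
                 (CovZ.n2 (-30348, 4860) (by decide +kernel)
                  (CovZ.n2 (-30348, 4872) (by decide +kernel)
                   (CovZ.badM (by decide +kernel))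
                   (CovZ.leaf K2_ok TB_l48473 _))
                  (CovZ.badM (by decide +kernel)))
                 (CovZ.n1 (-30348, 4884) (by decide +kernel)
                  (CovZ.leaf K2_ok TB_l38157 _)
                  (CovZ.leaf K2_ok TB_l38158 _)))
                (CovZ.subM 4586997231980143023221641790604173881593129978336562247475177678773845752176969616140037106220251373109248 (by decide +kernel)
                 (CovZ.n1 (-30360, 4848) (by decide +kernel)
                  (CovZ.n2 (-30372, 4860) (by decide +kernel)
                   (CovZ.n2 (-30360, 4860) (by decide +kernel)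
                    (CovZ.badM (by decide +kernel))
                    (CovZ.leaf K2_ok TB_l48474 _))
                   (CovZ.badM (by decide +kernel)))
                  (CovZ.n1 (-30348, 4860) (by decide +kernel)
                   (CovZ.badM (by decide +kernel))
                   (CovZ.n1 (-30360, 4860) (by decide +kernel)
                    (CovZ.leaf K2_ok TB_l48475 _)
                    (CovZ.badM (by decide +kernel))))))))))
            (CovZ.n1 (-30384, 4944) (by decide +kernel)
             (CovZ.n2 (-30336, 4944) (by decide +kernel)
              (CovZ.n2 (-30360, 4920) (by decide +kernel)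
               (CovZ.n2 (-30360, 4944) (by decide +kernel)
                (CovZ.leaf K2_ok TB_l4556 _)
                (CovZ.leaf K2_ok TB_l4557 _))
               (CovZ.n1 (-30336, 4920) (by decide +kernel)
                (CovZ.leaf K2_ok TB_l4558 _)
                (CovZ.leaf K2_ok TB_l4559 _)))
              (CovZ.n1 (-30360, 4968) (by decide +kernel)
               (CovZ.leaf K2_ok TB_l4560 _)
               (CovZ.n1 (-30360, 4944) (by decide +kernel)
                (CovZ.leaf K2_ok TB_l4561 _)
                (CovZ.leaf K2_ok TB_l4562 _))))
             (CovZ.n1 (-30384, 4896) (by decide +kernel)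
              (CovZ.n2 (-30408, 4920) (by decide +kernel)
               (CovZ.n2 (-30384, 4920) (by decide +kernel)
                (CovZ.leaf K2_ok TB_l4563 _)
                (CovZ.leaf K2_ok TB_l4564 _))
               (CovZ.n1 (-30408, 4896) (by decide +kernel)
                (CovZ.leaf K2_ok TB_l4565 _)
                (CovZ.leaf K2_ok TB_l4566 _)))
              (CovZ.n1 (-30360, 4920) (by decide +kernel)
               (CovZ.n2 (-30360, 4896) (by decide +kernel)
                (CovZ.leaf K2_ok TB_l4567 _)
                (CovZ.leaf K2_ok TB_l4568 _))
               (CovZ.n1 (-30384, 4920) (by decide +kernel)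
                (CovZ.leaf K2_ok TB_l4569 _)
                (CovZ.leaf K2_ok TB_l4570 _))))))
           (CovZ.n1 (-30432, 4800) (by decide +kernel)
            (CovZ.n2 (-30480, 4848) (by decide +kernel)
             (CovZ.n2 (-30432, 4848) (by decide +kernel)
              (CovZ.subM 4586997231980143023221641790604173881593129978336586767403831532995579485729404021086975006046206310744064 (by decide +kernel)
               (CovZ.n2 (-30456, 4824) (by decide +kernel)
                (CovZ.n2 (-30456, 4848) (by decide +kernel)
                 (CovZ.badM (by decide +kernel))
                 (CovZ.n1 (-30468, 4836) (by decide +kernel)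
                  (CovZ.leaf K2_ok TB_l38160 _)
                  (CovZ.n1 (-30456, 4836) (by decide +kernel)
                   (CovZ.badM (by decide +kernel))
                   (CovZ.leaf K2_ok TB_l38161 _))))
                (CovZ.badM (by decide +kernel))))
              (CovZ.n1 (-30456, 4872) (by decide +kernel)
               (CovZ.n2 (-30432, 4872) (by decide +kernel)
                (CovZ.n2 (-30444, 4860) (by decide +kernel)
                 (CovZ.leaf K2_ok TB_l38162 _)
                 (CovZ.leaf K2_ok TB_l38163 _))
                (CovZ.leaf K2_ok TB_l38164 _))
               (CovZ.n1 (-30456, 4848) (by decide +kernel)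
                (CovZ.n2 (-30468, 4860) (by decide +kernel)
                 (CovZ.leaf K2_ok TB_l38165 _)
                 (CovZ.n1 (-30468, 4848) (by decide +kernel)
                  (CovZ.leaf K2_ok TB_l38166 _)
                  (CovZ.leaf K2_ok TB_l38167 _)))
                (CovZ.n1 (-30444, 4860) (by decide +kernel)
                 (CovZ.leaf K2_ok TB_l38168 _)
                 (CovZ.leaf K2_ok TB_l38169 _)))))
             (CovZ.subM 4587277200072915248747961470889244937127895184023741098595694031633199959713301541205147615732865261633536 (by decide +kernel)
              (CovZ.n1 (-30480, 4800) (by decide +kernel)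
               (CovZ.n2 (-30504, 4824) (by decide +kernel)
                (CovZ.n2 (-30480, 4824) (by decide +kernel)
                 (CovZ.badM (by decide +kernel))
                 (CovZ.n1 (-30492, 4836) (by decide +kernel)
                  (CovZ.leaf K2_ok TB_l38170 _)
                  (CovZ.badM (by decide +kernel))))
                (CovZ.badM (by decide +kernel)))
               (CovZ.n1 (-30456, 4824) (by decide +kernel)
                (CovZ.badM (by decide +kernel))
                (CovZ.n1 (-30480, 4824) (by decide +kernel)
                 (CovZ.n2 (-30468, 4836) (by decide +kernel)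
                  (CovZ.badM (by decide +kernel))
                  (CovZ.n1 (-30480, 4836) (by decide +kernel)
                   (CovZ.leaf K2_ok TB_l38171 _)
                   (CovZ.badM (by decide +kernel))))
                 (CovZ.badM (by decide +kernel)))))))
            (CovZ.subM 2353129580005813370912703695581610370554078921139634511702556225316348409853331788345769439202677442361688064 (by decide +kernel)
             (CovZ.n1 (-30384, 4848) (by decide +kernel)
              (CovZ.badM (by decide +kernel))
              (CovZ.n1 (-30432, 4848) (by decide +kernel)
               (CovZ.n2 (-30408, 4872) (by decide +kernel)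
                (CovZ.subM 4586997231980143023223098792273343178396372231314248676313256011802467215119358573625592307435480643796992 (by decide +kernel)
                 (CovZ.n2 (-30408, 4848) (by decide +kernel)
                  (CovZ.n2 (-30420, 4860) (by decide +kernel)
                   (CovZ.leaf K2_ok TB_l38172 _)
                   (CovZ.leaf K2_ok TB_l38173 _))
                  (CovZ.n1 (-30396, 4860) (by decide +kernel)
                   (CovZ.badM (by decide +kernel))
                   (CovZ.n1 (-30408, 4860) (by decide +kernel)
                    (CovZ.leaf K2_ok TB_l38174 _)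
                    (CovZ.badM (by decide +kernel))))))
                (CovZ.n1 (-30432, 4872) (by decide +kernel)
                 (CovZ.leaf K2_ok TB_l38175 _)
                 (CovZ.n1 (-30420, 4860) (by decide +kernel)
                  (CovZ.n2 (-30432, 4860) (by decide +kernel)
                   (CovZ.leaf K2_ok TB_l38176 _)
                   (CovZ.leaf K2_ok TB_l38177 _))
                  (CovZ.leaf K2_ok TB_l38178 _))))
               (CovZ.badM (by decide +kernel)))))))))
        (CovZ.badM (by decide +kernel)))

theorem TB_u142 : CovZ TB_M (toL (selN TB_LN 5043457396718524389246931701604430553163522199506415261489068479864498082825964416475102425241764397900246224068411392)) [0, 7, 6, 1] (-30336, 4608) (-29952, 4608) (-30336, 4992) :=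
    (CovZ.subM 2353129580005813370912734778283885982219213632530143737044922734537491373358613093523884570036931947446403072 (by decide +kernel)
        (CovZ.n1 (-30144, 4800) (by decide +kernel)
         (CovZ.badM (by decide +kernel))
         (CovZ.n1 (-30336, 4800) (by decide +kernel)
          (CovZ.n2 (-30240, 4896) (by decide +kernel)
           (CovZ.subM 4586997231980143023221641790604173881593129978336562247475177678773845752176969616140037106220251373109248 (by decide +kernel)
            (CovZ.n2 (-30240, 4800) (by decide +kernel)
             (CovZ.n2 (-30288, 4848) (by decide +kernel)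
              (CovZ.n2 (-30240, 4848) (by decide +kernel)
               (CovZ.badM (by decide +kernel))
               (CovZ.n1 (-30264, 4872) (by decide +kernel)
                (CovZ.n2 (-30240, 4872) (by decide +kernel)
                 (CovZ.badM (by decide +kernel))
                 (CovZ.n1 (-30252, 4884) (by decide +kernel)
                  (CovZ.n2 (-30240, 4884) (by decide +kernel)
                   (CovZ.badM (by decide +kernel))
                   (CovZ.leaf K2_ok TB_l48476 _))
                  (CovZ.badM (by decide +kernel))))
                (CovZ.badM (by decide +kernel))))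
              (CovZ.badM (by decide +kernel)))
             (CovZ.n1 (-30192, 4848) (by decide +kernel)
              (CovZ.badM (by decide +kernel))
              (CovZ.n1 (-30240, 4848) (by decide +kernel)
               (CovZ.n2 (-30216, 4872) (by decide +kernel)
                (CovZ.badM (by decide +kernel))
                (CovZ.n1 (-30240, 4872) (by decide +kernel)
                 (CovZ.n2 (-30228, 4884) (by decide +kernel)
                  (CovZ.badM (by decide +kernel))
                  (CovZ.leaf K2_ok TB_l48477 _))
                 (CovZ.badM (by decide +kernel))))
               (CovZ.badM (by decide +kernel))))))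
           (CovZ.n1 (-30336, 4896) (by decide +kernel)
            (CovZ.n2 (-30288, 4944) (by decide +kernel)
             (CovZ.n2 (-30288, 4896) (by decide +kernel)
              (CovZ.n2 (-30312, 4920) (by decide +kernel)
               (CovZ.n2 (-30288, 4920) (by decide +kernel)
                (CovZ.leaf K2_ok TB_l4571 _)
                (CovZ.leaf K2_ok TB_l4572 _))
               (CovZ.n1 (-30312, 4896) (by decide +kernel)
                (CovZ.leaf K2_ok TB_l4573 _)
                (CovZ.leaf K2_ok TB_l4574 _)))
              (CovZ.n1 (-30264, 4920) (by decide +kernel)
               (CovZ.n2 (-30264, 4896) (by decide +kernel)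
                (CovZ.n2 (-30276, 4908) (by decide +kernel)
                 (CovZ.leaf K2_ok TB_l38179 _)
                 (CovZ.leaf K2_ok TB_l38180 _))
                (CovZ.leaf K2_ok TB_l38181 _))
               (CovZ.n1 (-30288, 4920) (by decide +kernel)
                (CovZ.leaf K2_ok TB_l4575 _)
                (CovZ.leaf K2_ok TB_l4576 _))))
             (CovZ.n1 (-30336, 4944) (by decide +kernel)
              (CovZ.n2 (-30312, 4968) (by decide +kernel)
               (CovZ.n2 (-30312, 4944) (by decide +kernel)
                (CovZ.leaf K2_ok TB_l4577 _)
                (CovZ.leaf K2_ok TB_l4578 _))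
               (CovZ.leaf K2_ok TB_l4579 _))
              (CovZ.n1 (-30312, 4920) (by decide +kernel)
               (CovZ.n2 (-30336, 4920) (by decide +kernel)
                (CovZ.leaf K2_ok TB_l4580 _)
                (CovZ.leaf K2_ok TB_l4581 _))
               (CovZ.n1 (-30312, 4944) (by decide +kernel)
                (CovZ.leaf K2_ok TB_l4582 _)
                (CovZ.leaf K2_ok TB_l4583 _)))))
            (CovZ.subM 4586997231980143023223098792273343178396372231314297716170563720245934682224227383519468107087390520115200 (by decide +kernel)
             (CovZ.n1 (-30288, 4848) (by decide +kernel)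
              (CovZ.n2 (-30336, 4848) (by decide +kernel)
               (CovZ.n2 (-30312, 4872) (by decide +kernel)
                (CovZ.subM 49039857307708443467467104868809893875799651909875269632 (by decide +kernel)
                 (CovZ.n2 (-30312, 4848) (by decide +kernel)
                  (CovZ.n2 (-30324, 4860) (by decide +kernel)
                   (CovZ.n2 (-30312, 4860) (by decide +kernel)
                    (CovZ.badM (by decide +kernel))
                    (CovZ.n1 (-30318, 4866) (by decide +kernel)
                     (CovZ.leaf K2_ok TB_l38182 _)
                     (CovZ.badM (by decide +kernel))))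
                   (CovZ.badM (by decide +kernel)))
                  (CovZ.n1 (-30300, 4860) (by decide +kernel)
                   (CovZ.n2 (-30300, 4848) (by decide +kernel)
                    (CovZ.n2 (-30306, 4854) (by decide +kernel)
                     (CovZ.leaf K2_ok TB_l38183 _)
                     (CovZ.badM (by decide +kernel)))
                    (CovZ.n1 (-30294, 4854) (by decide +kernel)
                     (CovZ.badM (by decide +kernel))
                     (CovZ.leaf K2_ok TB_l38184 _)))
                   (CovZ.n1 (-30312, 4860) (by decide +kernel)
                    (CovZ.leaf K2_ok TB_l38185 _)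
                    (CovZ.leaf K2_ok TB_l38186 _)))))
                (CovZ.n1 (-30336, 4872) (by decide +kernel)
                 (CovZ.n2 (-30324, 4884) (by decide +kernel)
                  (CovZ.n2 (-30324, 4872) (by decide +kernel)
                   (CovZ.leaf K2_ok TB_l38187 _)
                   (CovZ.leaf K2_ok TB_l38188 _))
                  (CovZ.leaf K2_ok TB_l38189 _))
                 (CovZ.n1 (-30324, 4860) (by decide +kernel)
                  (CovZ.badM (by decide +kernel))
                  (CovZ.n1 (-30324, 4872) (by decide +kernel)
                   (CovZ.leaf K2_ok TB_l38190 _)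
                   (CovZ.leaf K2_ok TB_l38191 _)))))
               (CovZ.subM 49039857307708443467467104868809893875799651909875269632 (by decide +kernel)
                (CovZ.n1 (-30312, 4824) (by decide +kernel)
                 (CovZ.badM (by decide +kernel))
                 (CovZ.n1 (-30312, 4848) (by decide +kernel)
                  (CovZ.n2 (-30300, 4836) (by decide +kernel)
                   (CovZ.badM (by decide +kernel))
                   (CovZ.n1 (-30300, 4848) (by decide +kernel)
                    (CovZ.badM (by decide +kernel))
                    (CovZ.badM (by decide +kernel))))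
                  (CovZ.badM (by decide +kernel))))))
              (CovZ.n1 (-30288, 4896) (by decide +kernel)
               (CovZ.n2 (-30264, 4872) (by decide +kernel)
                (CovZ.n2 (-30288, 4872) (by decide +kernel)
                 (CovZ.n2 (-30276, 4884) (by decide +kernel)
                  (CovZ.leaf K2_ok TB_l38192 _)
                  (CovZ.n1 (-30288, 4884) (by decide +kernel)
                   (CovZ.leaf K2_ok TB_l38193 _)
                   (CovZ.leaf K2_ok TB_l38194 _)))
                 (CovZ.subM 49039857307708443467467104868809893875799651909875269632 (by decide +kernel)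
                  (CovZ.n1 (-30276, 4860) (by decide +kernel)
                   (CovZ.n2 (-30288, 4860) (by decide +kernel)
                    (CovZ.leaf K2_ok TB_l38195 _)
                    (CovZ.badM (by decide +kernel)))
                   (CovZ.n1 (-30276, 4872) (by decide +kernel)
                    (CovZ.badM (by decide +kernel))
                    (CovZ.leaf K2_ok TB_l38196 _)))))
                (CovZ.n1 (-30264, 4896) (by decide +kernel)
                 (CovZ.n2 (-30252, 4884) (by decide +kernel)
                  (CovZ.n2 (-30264, 4884) (by decide +kernel)
                   (CovZ.leaf K2_ok TB_l38197 _)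
                   (CovZ.badM (by decide +kernel)))
                  (CovZ.leaf K2_ok TB_l38198 _))
                 (CovZ.n1 (-30276, 4884) (by decide +kernel)
                  (CovZ.leaf K2_ok TB_l38199 _)
                  (CovZ.leaf K2_ok TB_l38200 _))))
               (CovZ.n1 (-30312, 4872) (by decide +kernel)
                (CovZ.n2 (-30312, 4896) (by decide +kernel)
                 (CovZ.n2 (-30300, 4884) (by decide +kernel)
                  (CovZ.leaf K2_ok TB_l38201 _)
                  (CovZ.leaf K2_ok TB_l38202 _))
                 (CovZ.n1 (-30324, 4884) (by decide +kernel)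
                  (CovZ.leaf K2_ok TB_l38203 _)
                  (CovZ.leaf K2_ok TB_l38204 _)))
                (CovZ.n1 (-30288, 4872) (by decide +kernel)
                 (CovZ.subM 49039857307708443467467104868809893875799651909875269632 (by decide +kernel)
                  (CovZ.n2 (-30300, 4860) (by decide +kernel)
                   (CovZ.n2 (-30300, 4872) (by decide +kernel)
                    (CovZ.leaf K2_ok TB_l38205 _)
                    (CovZ.leaf K2_ok TB_l38206 _))
                   (CovZ.n1 (-30288, 4860) (by decide +kernel)
                    (CovZ.n2 (-30294, 4854) (by decide +kernel)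
                     (CovZ.leaf K2_ok TB_l38207 _)
                     (CovZ.badM (by decide +kernel)))
                    (CovZ.leaf K2_ok TB_l38208 _))))
                 (CovZ.n1 (-30300, 4884) (by decide +kernel)
                  (CovZ.leaf K2_ok TB_l38209 _)
                  (CovZ.n1 (-30300, 4872) (by decide +kernel)
                   (CovZ.leaf K2_ok TB_l38210 _)
                   (CovZ.leaf K2_ok TB_l38211 _))))))))))
          (CovZ.badM (by decide +kernel)))))

theorem TB_u143 : CovZ TB_M (toL (selN TB_LN 601231488187333286482730286959564827963018263610733330351688890281933722467718987715285389952224027921999724544)) [0, 7, 6, 1] (-29952, 4992) (-29760, 4992) (-29760, 5184) :=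
    (CovZ.n2 (-29856, 5088) (by decide +kernel)
           (CovZ.n2 (-29760, 5088) (by decide +kernel)
            (CovZ.n2 (-29808, 5040) (by decide +kernel)
             (CovZ.n2 (-29808, 5088) (by decide +kernel)
              (CovZ.n2 (-29784, 5064) (by decide +kernel)
               (CovZ.n2 (-29808, 5064) (by decide +kernel)
                (CovZ.leaf K2_ok TB_l4584 _)
                (CovZ.leaf K2_ok TB_l4585 _))
               (CovZ.leaf K2_ok TB_l4586 _))
              (CovZ.n1 (-29832, 5064) (by decide +kernel)
               (CovZ.leaf K2_ok TB_l4587 _)
               (CovZ.leaf K2_ok TB_l4588 _)))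
             (CovZ.subM 601226901190101306339707064832107000732704402744307495323407044583920643293284212822643551118169221425227890688 (by decide +kernel)
              (CovZ.n1 (-29760, 5040) (by decide +kernel)
               (CovZ.n2 (-29784, 5016) (by decide +kernel)
                (CovZ.n2 (-29784, 5040) (by decide +kernel)
                 (CovZ.leaf K2_ok TB_l4589 _)
                 (CovZ.leaf K2_ok TB_l4590 _))
                (CovZ.n1 (-29760, 5016) (by decide +kernel)
                 (CovZ.leaf K2_ok TB_l38212 _)
                 (CovZ.leaf K2_ok TB_l4591 _)))
               (CovZ.n1 (-29784, 5064) (by decide +kernel)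
                (CovZ.leaf K2_ok TB_l4592 _)
                (CovZ.n1 (-29784, 5040) (by decide +kernel)
                 (CovZ.leaf K2_ok TB_l4593 _)
                 (CovZ.leaf K2_ok TB_l4594 _))))))
            (CovZ.n1 (-29808, 5136) (by decide +kernel)
             (CovZ.n2 (-29760, 5136) (by decide +kernel)
              (CovZ.leaf K2_ok TB_l4595 _)
              (CovZ.n1 (-29784, 5160) (by decide +kernel)
               (CovZ.leaf K2_ok TB_l4596 _)
               (CovZ.leaf K2_ok TB_l4597 _)))
             (CovZ.n1 (-29808, 5088) (by decide +kernel)
              (CovZ.leaf K2_ok TB_l4598 _)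
              (CovZ.n1 (-29784, 5112) (by decide +kernel)
               (CovZ.leaf K2_ok TB_l4599 _)
               (CovZ.leaf K2_ok TB_l4600 _)))))
           (CovZ.n1 (-29856, 4992) (by decide +kernel)
            (CovZ.n2 (-29904, 5040) (by decide +kernel)
             (CovZ.n2 (-29856, 5040) (by decide +kernel)
              (CovZ.subM 32054036721724529670223777608422340555871675132863943153221721973824761300824970231808 (by decide +kernel)
               (CovZ.n2 (-29880, 5016) (by decide +kernel)
                (CovZ.n2 (-29880, 5040) (by decide +kernel)
                 (CovZ.leaf K2_ok TB_l4601 _)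
                 (CovZ.leaf K2_ok TB_l4602 _))
                (CovZ.n1 (-29856, 5016) (by decide +kernel)
                 (CovZ.n2 (-29868, 5004) (by decide +kernel)
                  (CovZ.leaf K2_ok TB_l38213 _)
                  (CovZ.leaf K2_ok TB_l38214 _))
                 (CovZ.leaf K2_ok TB_l4603 _))))
              (CovZ.n1 (-29880, 5064) (by decide +kernel)
               (CovZ.leaf K2_ok TB_l4604 _)
               (CovZ.n1 (-29880, 5040) (by decide +kernel)
                (CovZ.leaf K2_ok TB_l4605 _)
                (CovZ.leaf K2_ok TB_l4606 _))))
             (CovZ.subM 4586997231980143023254181494548954843531083621421690467757709955616472730210504291216296593592377645465600 (by decide +kernel)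
              (CovZ.n1 (-29904, 4992) (by decide +kernel)
               (CovZ.n2 (-29928, 5016) (by decide +kernel)
                (CovZ.n2 (-29904, 5016) (by decide +kernel)
                 (CovZ.leaf K2_ok TB_l4607 _)
                 (CovZ.leaf K2_ok TB_l4608 _))
                (CovZ.n1 (-29928, 4992) (by decide +kernel)
                 (CovZ.leaf K2_ok TB_l4609 _)
                 (CovZ.leaf K2_ok TB_l4610 _)))
               (CovZ.n1 (-29880, 5016) (by decide +kernel)
                (CovZ.n2 (-29880, 4992) (by decide +kernel)
                 (CovZ.leaf K2_ok TB_l38215 _)
                 (CovZ.n1 (-29868, 5004) (by decide +kernel)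
                  (CovZ.leaf K2_ok TB_l38216 _)
                  (CovZ.leaf K2_ok TB_l38217 _)))
                (CovZ.n1 (-29904, 5016) (by decide +kernel)
                 (CovZ.leaf K2_ok TB_l4611 _)
                 (CovZ.leaf K2_ok TB_l38218 _))))))
            (CovZ.n1 (-29808, 5040) (by decide +kernel)
             (CovZ.subM 32054036721724529670223777608422340555871675132863943153221721973824761300824970231808 (by decide +kernel)
              (CovZ.n2 (-29808, 4992) (by decide +kernel)
               (CovZ.n2 (-29832, 5016) (by decide +kernel)
                (CovZ.n2 (-29808, 5016) (by decide +kernel)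
                 (CovZ.leaf K2_ok TB_l38219 _)
                 (CovZ.leaf K2_ok TB_l4612 _))
                (CovZ.n1 (-29832, 4992) (by decide +kernel)
                 (CovZ.n2 (-29844, 5004) (by decide +kernel)
                  (CovZ.leaf K2_ok TB_l38220 _)
                  (CovZ.leaf K2_ok TB_l38221 _))
                 (CovZ.n1 (-29820, 5004) (by decide +kernel)
                  (CovZ.leaf K2_ok TB_l38222 _)
                  (CovZ.leaf K2_ok TB_l38223 _))))
               (CovZ.n1 (-29784, 5016) (by decide +kernel)
                (CovZ.n2 (-29784, 4992) (by decide +kernel)
                 (CovZ.n2 (-29796, 5004) (by decide +kernel)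
                  (CovZ.leaf K2_ok TB_l38224 _)
                  (CovZ.leaf K2_ok TB_l38225 _))
                 (CovZ.leaf K2_ok TB_l38226 _))
                (CovZ.n1 (-29808, 5016) (by decide +kernel)
                 (CovZ.leaf K2_ok TB_l4613 _)
                 (CovZ.n1 (-29796, 5004) (by decide +kernel)
                  (CovZ.leaf K2_ok TB_l38227 _)
                  (CovZ.leaf K2_ok TB_l38228 _))))))
             (CovZ.n1 (-29856, 5040) (by decide +kernel)
              (CovZ.n2 (-29832, 5064) (by decide +kernel)
               (CovZ.n2 (-29832, 5040) (by decide +kernel)
                (CovZ.leaf K2_ok TB_l4614 _)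
                (CovZ.leaf K2_ok TB_l4615 _))
               (CovZ.leaf K2_ok TB_l4616 _))
              (CovZ.subM 32054036721724529670223777608422340555871675132863943153221721973824761300824970231808 (by decide +kernel)
               (CovZ.n1 (-29832, 5016) (by decide +kernel)
                (CovZ.n2 (-29856, 5016) (by decide +kernel)
                 (CovZ.leaf K2_ok TB_l4617 _)
                 (CovZ.n1 (-29844, 5004) (by decide +kernel)
                  (CovZ.leaf K2_ok TB_l38229 _)
                  (CovZ.leaf K2_ok TB_l38230 _)))
                (CovZ.n1 (-29832, 5040) (by decide +kernel)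
                 (CovZ.leaf K2_ok TB_l4618 _)
                 (CovZ.leaf K2_ok TB_l4619 _))))))))

theorem TB_u144 : CovZ TB_M (toL (selN TB_LN 601231488187333286482730286959564827963018263610733330351688890281933722467718987715285389952224027921999724544)) [0, 7, 6, 1] (-29760, 4992) (-29568, 4992) (-29760, 5184) :=
    (CovZ.n1 (-29664, 5088) (by decide +kernel)
           (CovZ.subM 601226901190101306339707064832107000732704402744307495323407044583920643293284212822643551118169221425227890688 (by decide +kernel)
            (CovZ.n2 (-29664, 4992) (by decide +kernel)
             (CovZ.n2 (-29712, 5040) (by decide +kernel)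
              (CovZ.n2 (-29664, 5040) (by decide +kernel)
               (CovZ.n2 (-29688, 5016) (by decide +kernel)
                (CovZ.n2 (-29688, 5040) (by decide +kernel)
                 (CovZ.leaf K2_ok TB_l38231 _)
                 (CovZ.leaf K2_ok TB_l38232 _))
                (CovZ.n1 (-29664, 5016) (by decide +kernel)
                 (CovZ.n2 (-29676, 5004) (by decide +kernel)
                  (CovZ.leaf K2_ok TB_l38233 _)
                  (CovZ.leaf K2_ok TB_l38234 _))
                 (CovZ.n1 (-29676, 5028) (by decide +kernel)
                  (CovZ.leaf K2_ok TB_l38235 _)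
                  (CovZ.leaf K2_ok TB_l38236 _))))
               (CovZ.n1 (-29688, 5064) (by decide +kernel)
                (CovZ.leaf K2_ok TB_l4620 _)
                (CovZ.n1 (-29688, 5040) (by decide +kernel)
                 (CovZ.leaf K2_ok TB_l4621 _)
                 (CovZ.leaf K2_ok TB_l4622 _))))
              (CovZ.n1 (-29712, 4992) (by decide +kernel)
               (CovZ.n2 (-29736, 5016) (by decide +kernel)
                (CovZ.n2 (-29712, 5016) (by decide +kernel)
                 (CovZ.n2 (-29724, 5004) (by decide +kernel)
                  (CovZ.leaf K2_ok TB_l38237 _)
                  (CovZ.leaf K2_ok TB_l38238 _))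
                 (CovZ.n1 (-29724, 5028) (by decide +kernel)
                  (CovZ.leaf K2_ok TB_l38239 _)
                  (CovZ.leaf K2_ok TB_l38240 _)))
                (CovZ.n1 (-29736, 4992) (by decide +kernel)
                 (CovZ.n2 (-29748, 5004) (by decide +kernel)
                  (CovZ.leaf K2_ok TB_l38241 _)
                  (CovZ.leaf K2_ok TB_l38242 _))
                 (CovZ.n1 (-29724, 5004) (by decide +kernel)
                  (CovZ.leaf K2_ok TB_l38243 _)
                  (CovZ.leaf K2_ok TB_l38244 _))))
               (CovZ.n1 (-29688, 5016) (by decide +kernel)
                (CovZ.subM 2923003274661805836407369665432566039311866134528 (by decide +kernel)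
                 (CovZ.n2 (-29688, 4992) (by decide +kernel)
                  (CovZ.n2 (-29700, 5004) (by decide +kernel)
                   (CovZ.n2 (-29688, 5004) (by decide +kernel)
                    (CovZ.leaf K2_ok TB_l38245 _)
                    (CovZ.leaf K2_ok TB_l38246 _))
                   (CovZ.leaf K2_ok TB_l38247 _))
                  (CovZ.n1 (-29676, 5004) (by decide +kernel)
                   (CovZ.badM (by decide +kernel))
                   (CovZ.leaf K2_ok TB_l38248 _))))
                (CovZ.n1 (-29712, 5016) (by decide +kernel)
                 (CovZ.leaf K2_ok TB_l38249 _)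
                 (CovZ.n1 (-29700, 5004) (by decide +kernel)
                  (CovZ.leaf K2_ok TB_l38250 _)
                  (CovZ.leaf K2_ok TB_l38251 _))))))
             (CovZ.n1 (-29616, 5040) (by decide +kernel)
              (CovZ.n2 (-29616, 4992) (by decide +kernel)
               (CovZ.n2 (-29640, 5016) (by decide +kernel)
                (CovZ.n2 (-29616, 5016) (by decide +kernel)
                 (CovZ.n2 (-29628, 5004) (by decide +kernel)
                  (CovZ.n2 (-29628, 5016) (by decide +kernel)
                   (CovZ.leaf K2_ok TB_l38252 _)
                   (CovZ.leaf K2_ok TB_l38253 _))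
                  (CovZ.leaf K2_ok TB_l38254 _))
                 (CovZ.n1 (-29628, 5028) (by decide +kernel)
                  (CovZ.leaf K2_ok TB_l38255 _)
                  (CovZ.n1 (-29628, 5016) (by decide +kernel)
                   (CovZ.leaf K2_ok TB_l38256 _)
                   (CovZ.leaf K2_ok TB_l38257 _))))
                (CovZ.subM 1048576 (by decide +kernel)
                 (CovZ.n1 (-29640, 4992) (by decide +kernel)
                  (CovZ.n2 (-29652, 5004) (by decide +kernel)
                   (CovZ.leaf K2_ok TB_l38258 _)
                   (CovZ.badM (by decide +kernel)))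
                  (CovZ.n1 (-29628, 5004) (by decide +kernel)
                   (CovZ.badM (by decide +kernel))
                   (CovZ.n1 (-29640, 5004) (by decide +kernel)
                    (CovZ.leaf K2_ok TB_l38259 _)
                    (CovZ.badM (by decide +kernel)))))))
               (CovZ.n1 (-29592, 5016) (by decide +kernel)
                (CovZ.badM (by decide +kernel))
                (CovZ.n1 (-29616, 5016) (by decide +kernel)
                 (CovZ.n2 (-29604, 5028) (by decide +kernel)
                  (CovZ.n2 (-29604, 5016) (by decide +kernel)
                   (CovZ.leaf K2_ok TB_l38260 _)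
                   (CovZ.leaf K2_ok TB_l38261 _))
                  (CovZ.leaf K2_ok TB_l38262 _))
                 (CovZ.subM 1048576 (by decide +kernel)
                  (CovZ.n1 (-29604, 5004) (by decide +kernel)
                   (CovZ.n2 (-29616, 5004) (by decide +kernel)
                    (CovZ.leaf K2_ok TB_l38263 _)
                    (CovZ.badM (by decide +kernel)))
                   (CovZ.n1 (-29604, 5016) (by decide +kernel)
                    (CovZ.badM (by decide +kernel))
                    (CovZ.leaf K2_ok TB_l38264 _)))))))
              (CovZ.n1 (-29664, 5040) (by decide +kernel)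
               (CovZ.n2 (-29640, 5064) (by decide +kernel)
                (CovZ.n2 (-29640, 5040) (by decide +kernel)
                 (CovZ.leaf K2_ok TB_l38265 _)
                 (CovZ.leaf K2_ok TB_l38266 _))
                (CovZ.n1 (-29664, 5064) (by decide +kernel)
                 (CovZ.leaf K2_ok TB_l4623 _)
                 (CovZ.leaf K2_ok TB_l38267 _)))
               (CovZ.n1 (-29640, 5016) (by decide +kernel)
                (CovZ.n2 (-29664, 5016) (by decide +kernel)
                 (CovZ.leaf K2_ok TB_l38268 _)
                 (CovZ.n1 (-29652, 5004) (by decide +kernel)
                  (CovZ.leaf K2_ok TB_l38269 _)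
                  (CovZ.leaf K2_ok TB_l38270 _)))
                (CovZ.n1 (-29640, 5040) (by decide +kernel)
                 (CovZ.n2 (-29628, 5028) (by decide +kernel)
                  (CovZ.leaf K2_ok TB_l38271 _)
                  (CovZ.leaf K2_ok TB_l38272 _))
                 (CovZ.n1 (-29652, 5028) (by decide +kernel)
                  (CovZ.leaf K2_ok TB_l38273 _)
                  (CovZ.leaf K2_ok TB_l38274 _))))))))
           (CovZ.n1 (-29760, 5088) (by decide +kernel)
            (CovZ.n2 (-29712, 5136) (by decide +kernel)
             (CovZ.n2 (-29712, 5088) (by decide +kernel)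
              (CovZ.n2 (-29736, 5112) (by decide +kernel)
               (CovZ.leaf K2_ok TB_l4624 _)
               (CovZ.leaf K2_ok TB_l4625 _))
              (CovZ.n1 (-29688, 5112) (by decide +kernel)
               (CovZ.n2 (-29688, 5088) (by decide +kernel)
                (CovZ.leaf K2_ok TB_l4626 _)
                (CovZ.leaf K2_ok TB_l4627 _))
               (CovZ.leaf K2_ok TB_l4628 _)))
             (CovZ.n1 (-29760, 5136) (by decide +kernel)
              (CovZ.n2 (-29736, 5160) (by decide +kernel)
               (CovZ.leaf K2_ok TB_l4629 _)
               (CovZ.leaf K2_ok TB_l4630 _))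
              (CovZ.n1 (-29736, 5112) (by decide +kernel)
               (CovZ.leaf K2_ok TB_l4631 _)
               (CovZ.leaf K2_ok TB_l4632 _))))
            (CovZ.subM 601226901190101306339707064832107000732704402744307495323407044583920643293284212822643551118169221425227890688 (by decide +kernel)
             (CovZ.n1 (-29712, 5040) (by decide +kernel)
              (CovZ.n2 (-29760, 5040) (by decide +kernel)
               (CovZ.n2 (-29736, 5064) (by decide +kernel)
                (CovZ.n2 (-29736, 5040) (by decide +kernel)
                 (CovZ.leaf K2_ok TB_l4633 _)
                 (CovZ.leaf K2_ok TB_l4634 _))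
                (CovZ.n1 (-29760, 5064) (by decide +kernel)
                 (CovZ.leaf K2_ok TB_l4635 _)
                 (CovZ.leaf K2_ok TB_l4636 _)))
               (CovZ.n1 (-29736, 5016) (by decide +kernel)
                (CovZ.n2 (-29760, 5016) (by decide +kernel)
                 (CovZ.leaf K2_ok TB_l4637 _)
                 (CovZ.n1 (-29748, 5004) (by decide +kernel)
                  (CovZ.leaf K2_ok TB_l38275 _)
                  (CovZ.leaf K2_ok TB_l38276 _)))
                (CovZ.n1 (-29736, 5040) (by decide +kernel)
                 (CovZ.leaf K2_ok TB_l4638 _)
                 (CovZ.leaf K2_ok TB_l4639 _))))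
              (CovZ.n1 (-29712, 5088) (by decide +kernel)
               (CovZ.n2 (-29688, 5064) (by decide +kernel)
                (CovZ.n2 (-29712, 5064) (by decide +kernel)
                 (CovZ.leaf K2_ok TB_l4640 _)
                 (CovZ.leaf K2_ok TB_l4641 _))
                (CovZ.n1 (-29688, 5088) (by decide +kernel)
                 (CovZ.leaf K2_ok TB_l4642 _)
                 (CovZ.leaf K2_ok TB_l4643 _)))
               (CovZ.n1 (-29736, 5064) (by decide +kernel)
                (CovZ.n2 (-29736, 5088) (by decide +kernel)
                 (CovZ.leaf K2_ok TB_l4644 _)
                 (CovZ.leaf K2_ok TB_l4645 _))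
                (CovZ.n1 (-29712, 5064) (by decide +kernel)
                 (CovZ.leaf K2_ok TB_l4646 _)
                 (CovZ.leaf K2_ok TB_l4647 _))))))))

theorem TB_u145 : CovZ TB_M (toL (selN TB_LN 5043457396718524389246931701604430553163522199506415261489068479864498082825964416475102425241764397900246224068411392)) [0, 7, 6, 1] (-30720, 4608) (-29952, 4608) (-29952, 5376) :=
    (CovZ.n2 (-30336, 4992) (by decide +kernel)
      (CovZ.n2 (-29952, 4992) (by decide +kernel)
       (CovZ.subM 2353129580005813370912734778283885982219213632530143737044922734537491373358613093523884570036931947446403072 (by decide +kernel)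
        (CovZ.n2 (-30144, 4800) (by decide +kernel)
         (CovZ.n2 (-30144, 4992) (by decide +kernel)
          TB_u139
          TB_u140)
         (CovZ.subM 4586997231980143023223098792273343178396372230912514165251431446191638497870475292660474125029094309494784 (by decide +kernel)
          (CovZ.n1 (-29952, 4800) (by decide +kernel)
           (CovZ.badM (by decide +kernel))
           (CovZ.n1 (-30048, 4896) (by decide +kernel)
            (CovZ.n2 (-29952, 4896) (by decide +kernel)
             (CovZ.badM (by decide +kernel))
             (CovZ.n1 (-30000, 4944) (by decide +kernel)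
              (CovZ.n2 (-29952, 4944) (by decide +kernel)
               (CovZ.badM (by decide +kernel))
               (CovZ.n1 (-29976, 4968) (by decide +kernel)
                (CovZ.n2 (-29952, 4968) (by decide +kernel)
                 (CovZ.n2 (-29964, 4956) (by decide +kernel)
                  (CovZ.leaf K2_ok TB_l38128 _)
                  (CovZ.leaf K2_ok TB_l38129 _))
                 (CovZ.n1 (-29964, 4980) (by decide +kernel)
                  (CovZ.leaf K2_ok TB_l38130 _)
                  (CovZ.leaf K2_ok TB_l38131 _)))
                (CovZ.subM 4586997231980143023223098792273343178396319574766679886655159483903134856817908475447341284434155280531456 (by decide +kernel)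
                 (CovZ.n1 (-29976, 4944) (by decide +kernel)
                  (CovZ.n2 (-29988, 4956) (by decide +kernel)
                   (CovZ.leaf K2_ok TB_l38132 _)
                   (CovZ.n1 (-29988, 4944) (by decide +kernel)
                    (CovZ.leaf K2_ok TB_l38133 _)
                    (CovZ.leaf K2_ok TB_l38134 _)))
                  (CovZ.n1 (-29964, 4956) (by decide +kernel)
                   (CovZ.n2 (-29964, 4944) (by decide +kernel)
                    (CovZ.leaf K2_ok TB_l38135 _)
                    (CovZ.leaf K2_ok TB_l38136 _))
                   (CovZ.leaf K2_ok TB_l38137 _))))))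
              (CovZ.badM (by decide +kernel))))
            (CovZ.badM (by decide +kernel)))))))
       (CovZ.n1 (-30144, 5184) (by decide +kernel)
        (CovZ.n2 (-29952, 5184) (by decide +kernel)
         (CovZ.subM 601231488187333288568655126726078580301906648541936567317432382703560886586593912722981734785680466963673907200 (by decide +kernel)
          (CovZ.n2 (-30048, 5088) (by decide +kernel)
           (CovZ.n2 (-30048, 5184) (by decide +kernel)
            (CovZ.n2 (-30000, 5136) (by decide +kernel)
             (CovZ.n2 (-30048, 5136) (by decide +kernel)
              (CovZ.leaf K2_ok TB_l4470 _)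
              (CovZ.leaf K2_ok TB_l4471 _))
             (CovZ.n1 (-30000, 5184) (by decide +kernel)
              (CovZ.leaf K2_ok TB_l4472 _)
              (CovZ.leaf K2_ok TB_l4473 _)))
            (CovZ.n1 (-30096, 5136) (by decide +kernel)
             (CovZ.n2 (-30096, 5184) (by decide +kernel)
              (CovZ.leaf K2_ok TB_l4474 _)
              (CovZ.leaf K2_ok TB_l4475 _))
             (CovZ.leaf K2_ok TB_l4476 _)))
           (CovZ.n1 (-29952, 5088) (by decide +kernel)
            (CovZ.n2 (-30000, 5040) (by decide +kernel)
             (CovZ.n2 (-30000, 5088) (by decide +kernel)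
              (CovZ.n2 (-29976, 5064) (by decide +kernel)
               (CovZ.leaf K2_ok TB_l4477 _)
               (CovZ.leaf K2_ok TB_l4478 _))
              (CovZ.n1 (-30024, 5064) (by decide +kernel)
               (CovZ.leaf K2_ok TB_l4479 _)
               (CovZ.leaf K2_ok TB_l4480 _)))
             (CovZ.n1 (-29952, 5040) (by decide +kernel)
              (CovZ.n2 (-29976, 5016) (by decide +kernel)
               (CovZ.n2 (-29976, 5040) (by decide +kernel)
                (CovZ.leaf K2_ok TB_l4481 _)
                (CovZ.leaf K2_ok TB_l4482 _))
               (CovZ.n1 (-29952, 5016) (by decide +kernel)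
                (CovZ.leaf K2_ok TB_l4483 _)
                (CovZ.leaf K2_ok TB_l4484 _)))
              (CovZ.n1 (-29976, 5064) (by decide +kernel)
               (CovZ.leaf K2_ok TB_l4485 _)
               (CovZ.n1 (-29976, 5040) (by decide +kernel)
                (CovZ.leaf K2_ok TB_l4486 _)
                (CovZ.leaf K2_ok TB_l4487 _)))))
            (CovZ.n1 (-30000, 5136) (by decide +kernel)
             (CovZ.leaf K2_ok TB_l4488 _)
             (CovZ.n1 (-30000, 5088) (by decide +kernel)
              (CovZ.leaf K2_ok TB_l4489 _)
              (CovZ.leaf K2_ok TB_l4490 _))))))
         (CovZ.n1 (-30048, 5280) (by decide +kernel)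
          (CovZ.n2 (-29952, 5280) (by decide +kernel)
           (CovZ.n2 (-30000, 5232) (by decide +kernel)
            (CovZ.leaf K2_ok TB_l4491 _)
            (CovZ.leaf K2_ok TB_l4492 _))
           (CovZ.leaf K2_ok TB_l4493 _))
          (CovZ.n1 (-30048, 5184) (by decide +kernel)
           (CovZ.n2 (-30096, 5232) (by decide +kernel)
            (CovZ.leaf K2_ok TB_l4494 _)
            (CovZ.leaf K2_ok TB_l4495 _))
           (CovZ.n1 (-30000, 5232) (by decide +kernel)
            (CovZ.leaf K2_ok TB_l4496 _)
            (CovZ.leaf K2_ok TB_l4497 _)))))
        (CovZ.n1 (-30144, 4992) (by decide +kernel)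
         (CovZ.n2 (-30240, 5088) (by decide +kernel)
          (CovZ.subM 601231488187333288568655126726078580301906648541936567317432382703560886586592614648767101078773334339591602176 (by decide +kernel)
           (CovZ.n2 (-30144, 5088) (by decide +kernel)
            (CovZ.n2 (-30192, 5040) (by decide +kernel)
             (CovZ.n2 (-30192, 5088) (by decide +kernel)
              (CovZ.n2 (-30168, 5064) (by decide +kernel)
               (CovZ.leaf K2_ok TB_l4498 _)
               (CovZ.leaf K2_ok TB_l4499 _))
              (CovZ.leaf K2_ok TB_l4500 _))
             (CovZ.n1 (-30144, 5040) (by decide +kernel)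
              (CovZ.n2 (-30168, 5016) (by decide +kernel)
               (CovZ.leaf K2_ok TB_l4501 _)
               (CovZ.leaf K2_ok TB_l4502 _))
              (CovZ.n1 (-30168, 5064) (by decide +kernel)
               (CovZ.leaf K2_ok TB_l4503 _)
               (CovZ.leaf K2_ok TB_l4504 _))))
            (CovZ.n1 (-30192, 5136) (by decide +kernel)
             (CovZ.leaf K2_ok TB_l4505 _)
             (CovZ.n1 (-30192, 5088) (by decide +kernel)
              (CovZ.leaf K2_ok TB_l4506 _)
              (CovZ.leaf K2_ok TB_l4507 _)))))
          (CovZ.subM 603580030770107119710619767556354164990393946153060030638111411446783001802698374620230828156537719923621756928 (by decide +kernel)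
           (CovZ.n1 (-30240, 4992) (by decide +kernel)
            (CovZ.n2 (-30288, 5040) (by decide +kernel)
             (CovZ.n2 (-30240, 5040) (by decide +kernel)
              (CovZ.leaf K2_ok TB_l4508 _)
              (CovZ.leaf K2_ok TB_l4509 _))
             (CovZ.n1 (-30288, 4992) (by decide +kernel)
              (CovZ.n2 (-30312, 5016) (by decide +kernel)
               (CovZ.leaf K2_ok TB_l4510 _)
               (CovZ.leaf K2_ok TB_l4511 _))
              (CovZ.n1 (-30264, 5016) (by decide +kernel)
               (CovZ.leaf K2_ok TB_l4512 _)
               (CovZ.leaf K2_ok TB_l4513 _))))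
            (CovZ.n1 (-30192, 5040) (by decide +kernel)
             (CovZ.n2 (-30192, 4992) (by decide +kernel)
              (CovZ.n2 (-30216, 5016) (by decide +kernel)
               (CovZ.leaf K2_ok TB_l4514 _)
               (CovZ.leaf K2_ok TB_l4515 _))
              (CovZ.n1 (-30168, 5016) (by decide +kernel)
               (CovZ.leaf K2_ok TB_l4516 _)
               (CovZ.leaf K2_ok TB_l4517 _)))
             (CovZ.n1 (-30240, 5040) (by decide +kernel)
              (CovZ.n2 (-30216, 5064) (by decide +kernel)
               (CovZ.leaf K2_ok TB_l4518 _)
               (CovZ.leaf K2_ok TB_l4519 _))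
              (CovZ.n1 (-30216, 5016) (by decide +kernel)
               (CovZ.leaf K2_ok TB_l4520 _)
               (CovZ.leaf K2_ok TB_l4521 _)))))))
         (CovZ.subM 601231488187333288568655126726078580301906648541936567317432382703560886586593912722981734785680466963673907200 (by decide +kernel)
          (CovZ.n1 (-30048, 5088) (by decide +kernel)
           (CovZ.n2 (-30048, 4992) (by decide +kernel)
            (CovZ.n2 (-30096, 5040) (by decide +kernel)
             (CovZ.n2 (-30048, 5040) (by decide +kernel)
              (CovZ.n2 (-30072, 5016) (by decide +kernel)
               (CovZ.n2 (-30072, 5040) (by decide +kernel)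
                (CovZ.leaf K2_ok TB_l4522 _)
                (CovZ.leaf K2_ok TB_l4523 _))
               (CovZ.leaf K2_ok TB_l4524 _))
              (CovZ.n1 (-30072, 5064) (by decide +kernel)
               (CovZ.leaf K2_ok TB_l4525 _)
               (CovZ.leaf K2_ok TB_l4526 _)))
             (CovZ.n1 (-30096, 4992) (by decide +kernel)
              (CovZ.n2 (-30120, 5016) (by decide +kernel)
               (CovZ.leaf K2_ok TB_l4527 _)
               (CovZ.n1 (-30120, 4992) (by decide +kernel)
                (CovZ.leaf K2_ok TB_l4528 _)
                (CovZ.leaf K2_ok TB_l4529 _)))
              (CovZ.n1 (-30072, 5016) (by decide +kernel)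
               (CovZ.n2 (-30072, 4992) (by decide +kernel)
                (CovZ.leaf K2_ok TB_l4530 _)
                (CovZ.leaf K2_ok TB_l4531 _))
               (CovZ.leaf K2_ok TB_l4532 _))))
            (CovZ.n1 (-30000, 5040) (by decide +kernel)
             (CovZ.n2 (-30000, 4992) (by decide +kernel)
              (CovZ.n2 (-30024, 5016) (by decide +kernel)
               (CovZ.n2 (-30000, 5016) (by decide +kernel)
                (CovZ.leaf K2_ok TB_l4533 _)
                (CovZ.leaf K2_ok TB_l4534 _))
               (CovZ.n1 (-30024, 4992) (by decide +kernel)
                (CovZ.leaf K2_ok TB_l4535 _)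
                (CovZ.leaf K2_ok TB_l4536 _)))
              (CovZ.n1 (-29976, 5016) (by decide +kernel)
               (CovZ.n2 (-29976, 4992) (by decide +kernel)
                (CovZ.n2 (-29988, 5004) (by decide +kernel)
                 (CovZ.leaf K2_ok TB_l38138 _)
                 (CovZ.leaf K2_ok TB_l38139 _))
                (CovZ.leaf K2_ok TB_l38140 _))
               (CovZ.n1 (-30000, 5016) (by decide +kernel)
                (CovZ.leaf K2_ok TB_l4537 _)
                (CovZ.leaf K2_ok TB_l4538 _))))
             (CovZ.n1 (-30048, 5040) (by decide +kernel)
              (CovZ.n2 (-30024, 5064) (by decide +kernel)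
               (CovZ.leaf K2_ok TB_l4539 _)
               (CovZ.leaf K2_ok TB_l4540 _))
              (CovZ.n1 (-30024, 5016) (by decide +kernel)
               (CovZ.leaf K2_ok TB_l4541 _)
               (CovZ.n1 (-30024, 5040) (by decide +kernel)
                (CovZ.leaf K2_ok TB_l4542 _)
                (CovZ.leaf K2_ok TB_l4543 _))))))
           (CovZ.n1 (-30144, 5088) (by decide +kernel)
            (CovZ.n2 (-30096, 5136) (by decide +kernel)
             (CovZ.n2 (-30096, 5088) (by decide +kernel)
              (CovZ.leaf K2_ok TB_l4544 _)
              (CovZ.leaf K2_ok TB_l4545 _))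
             (CovZ.leaf K2_ok TB_l4546 _))
            (CovZ.n1 (-30096, 5040) (by decide +kernel)
             (CovZ.n2 (-30144, 5040) (by decide +kernel)
              (CovZ.n2 (-30120, 5064) (by decide +kernel)
               (CovZ.leaf K2_ok TB_l4547 _)
               (CovZ.leaf K2_ok TB_l4548 _))
              (CovZ.n1 (-30120, 5016) (by decide +kernel)
               (CovZ.leaf K2_ok TB_l4549 _)
               (CovZ.n1 (-30120, 5040) (by decide +kernel)
                (CovZ.leaf K2_ok TB_l4550 _)
                (CovZ.leaf K2_ok TB_l4551 _))))
             (CovZ.n1 (-30096, 5088) (by decide +kernel)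
              (CovZ.n2 (-30072, 5064) (by decide +kernel)
               (CovZ.leaf K2_ok TB_l4552 _)
               (CovZ.leaf K2_ok TB_l4553 _))
              (CovZ.n1 (-30120, 5064) (by decide +kernel)
               (CovZ.leaf K2_ok TB_l4554 _)
               (CovZ.leaf K2_ok TB_l4555 _))))))))))
      (CovZ.n1 (-30336, 4608) (by decide +kernel)
       TB_u141
       TB_u142))

theorem TB_u146 : CovZ TB_M (toL (selN TB_LN 5043457396718524389246931701604430553163522199506415261489068479864498082825964416475102425241764397900246224068411392)) [0, 7, 6, 1] (-29952, 4608) (-29184, 4608) (-29952, 5376) :=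
    (CovZ.n1 (-29568, 4992) (by decide +kernel)
      (CovZ.n2 (-29568, 4608) (by decide +kernel)
       (CovZ.badM (by decide +kernel))
       (CovZ.n1 (-29376, 4800) (by decide +kernel)
        (CovZ.badM (by decide +kernel))
        (CovZ.badM (by decide +kernel))))
      (CovZ.n1 (-29952, 4992) (by decide +kernel)
       (CovZ.n2 (-29760, 5184) (by decide +kernel)
        (CovZ.subM 601231488187333286482730286959564827963018263610733330351688890281933722467718987715285389952224027921999724544 (by decide +kernel)
         (CovZ.n2 (-29760, 4992) (by decide +kernel)
          TB_u143
          TB_u144))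
        (CovZ.n1 (-29952, 5184) (by decide +kernel)
         (CovZ.n2 (-29856, 5280) (by decide +kernel)
          (CovZ.subM 601231488187333288568655126726078580301906648541936567268392531241858992442738480668911171775012893677528809472 (by decide +kernel)
           (CovZ.n2 (-29856, 5184) (by decide +kernel)
            (CovZ.n2 (-29904, 5232) (by decide +kernel)
             (CovZ.leaf K2_ok TB_l4648 _)
             (CovZ.n1 (-29904, 5184) (by decide +kernel)
              (CovZ.leaf K2_ok TB_l4649 _)
              (CovZ.leaf K2_ok TB_l4650 _)))
            (CovZ.n1 (-29808, 5232) (by decide +kernel)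
             (CovZ.n2 (-29808, 5184) (by decide +kernel)
              (CovZ.leaf K2_ok TB_l4651 _)
              (CovZ.leaf K2_ok TB_l4652 _))
             (CovZ.leaf K2_ok TB_l4653 _))))
          (CovZ.n1 (-29952, 5280) (by decide +kernel)
           (CovZ.leaf K2_ok TB_l4654 _)
           (CovZ.n1 (-29904, 5232) (by decide +kernel)
            (CovZ.leaf K2_ok TB_l4655 _)
            (CovZ.leaf K2_ok TB_l4656 _))))
         (CovZ.subM 601231488187333286482730286959564827963018263610733330351688890281933722467718987715285389952224027921999724544 (by decide +kernel)
          (CovZ.n1 (-29856, 5088) (by decide +kernel)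
           (CovZ.n2 (-29952, 5088) (by decide +kernel)
            (CovZ.n2 (-29904, 5136) (by decide +kernel)
             (CovZ.n2 (-29904, 5088) (by decide +kernel)
              (CovZ.leaf K2_ok TB_l4657 _)
              (CovZ.leaf K2_ok TB_l4658 _))
             (CovZ.leaf K2_ok TB_l4659 _))
            (CovZ.n1 (-29904, 5040) (by decide +kernel)
             (CovZ.n2 (-29952, 5040) (by decide +kernel)
              (CovZ.n2 (-29928, 5064) (by decide +kernel)
               (CovZ.n2 (-29928, 5040) (by decide +kernel)
                (CovZ.leaf K2_ok TB_l4660 _)
                (CovZ.leaf K2_ok TB_l4661 _))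
               (CovZ.leaf K2_ok TB_l4662 _))
              (CovZ.n1 (-29928, 5016) (by decide +kernel)
               (CovZ.leaf K2_ok TB_l4663 _)
               (CovZ.n1 (-29928, 5040) (by decide +kernel)
                (CovZ.leaf K2_ok TB_l4664 _)
                (CovZ.leaf K2_ok TB_l4665 _))))
             (CovZ.n1 (-29904, 5088) (by decide +kernel)
              (CovZ.n2 (-29880, 5064) (by decide +kernel)
               (CovZ.leaf K2_ok TB_l4666 _)
               (CovZ.leaf K2_ok TB_l4667 _))
              (CovZ.n1 (-29928, 5064) (by decide +kernel)
               (CovZ.leaf K2_ok TB_l4668 _)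
               (CovZ.leaf K2_ok TB_l4669 _)))))
           (CovZ.n1 (-29856, 5184) (by decide +kernel)
            (CovZ.n2 (-29808, 5136) (by decide +kernel)
             (CovZ.n2 (-29856, 5136) (by decide +kernel)
              (CovZ.leaf K2_ok TB_l4670 _)
              (CovZ.n1 (-29832, 5112) (by decide +kernel)
               (CovZ.leaf K2_ok TB_l4671 _)
               (CovZ.leaf K2_ok TB_l4672 _)))
             (CovZ.n1 (-29808, 5184) (by decide +kernel)
              (CovZ.n2 (-29784, 5160) (by decide +kernel)
               (CovZ.leaf K2_ok TB_l4673 _)
               (CovZ.leaf K2_ok TB_l4674 _))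
              (CovZ.leaf K2_ok TB_l4675 _)))
            (CovZ.n1 (-29904, 5136) (by decide +kernel)
             (CovZ.n2 (-29904, 5184) (by decide +kernel)
              (CovZ.leaf K2_ok TB_l4676 _)
              (CovZ.leaf K2_ok TB_l4677 _))
             (CovZ.leaf K2_ok TB_l4678 _)))))))
       (CovZ.subM 4586997231980143023223098792273343178396372230912514165251431446191638497870475292660474125029094309494784 (by decide +kernel)
        (CovZ.n1 (-29760, 4800) (by decide +kernel)
         (CovZ.n2 (-29952, 4800) (by decide +kernel)
          (CovZ.n2 (-29856, 4896) (by decide +kernel)
           (CovZ.badM (by decide +kernel))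
           (CovZ.n1 (-29952, 4896) (by decide +kernel)
            (CovZ.n2 (-29904, 4944) (by decide +kernel)
             (CovZ.badM (by decide +kernel))
             (CovZ.n1 (-29952, 4944) (by decide +kernel)
              (CovZ.n2 (-29928, 4968) (by decide +kernel)
               (CovZ.subM 4586997231980143023221641790604173881593129978336562247475177678773845752176969616140037106220251374157824 (by decide +kernel)
                (CovZ.n2 (-29928, 4944) (by decide +kernel)
                 (CovZ.n2 (-29940, 4956) (by decide +kernel)
                  (CovZ.leaf K2_ok TB_l38277 _)
                  (CovZ.badM (by decide +kernel)))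
                 (CovZ.n1 (-29916, 4956) (by decide +kernel)
                  (CovZ.badM (by decide +kernel))
                  (CovZ.leaf K2_ok TB_l38278 _))))
               (CovZ.n1 (-29952, 4968) (by decide +kernel)
                (CovZ.leaf K2_ok TB_l38279 _)
                (CovZ.n1 (-29940, 4956) (by decide +kernel)
                 (CovZ.leaf K2_ok TB_l38280 _)
                 (CovZ.leaf K2_ok TB_l38281 _))))
              (CovZ.badM (by decide +kernel))))
            (CovZ.badM (by decide +kernel))))
          (CovZ.badM (by decide +kernel)))
         (CovZ.n1 (-29760, 4992) (by decide +kernel)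
          (CovZ.subM 1048576 (by decide +kernel)
           (CovZ.n2 (-29664, 4896) (by decide +kernel)
            (CovZ.n2 (-29760, 4896) (by decide +kernel)
             (CovZ.n2 (-29712, 4944) (by decide +kernel)
              (CovZ.badM (by decide +kernel))
              (CovZ.n1 (-29760, 4944) (by decide +kernel)
               (CovZ.n2 (-29736, 4968) (by decide +kernel)
                (CovZ.badM (by decide +kernel))
                (CovZ.n1 (-29760, 4968) (by decide +kernel)
                 (CovZ.n2 (-29748, 4980) (by decide +kernel)
                  (CovZ.badM (by decide +kernel))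
                  (CovZ.n1 (-29760, 4980) (by decide +kernel)
                   (CovZ.leaf K2_ok TB_l38282 _)
                   (CovZ.badM (by decide +kernel))))
                 (CovZ.badM (by decide +kernel))))
               (CovZ.badM (by decide +kernel))))
             (CovZ.badM (by decide +kernel)))
            (CovZ.n1 (-29664, 4992) (by decide +kernel)
             (CovZ.badM (by decide +kernel))
             (CovZ.n1 (-29712, 4944) (by decide +kernel)
              (CovZ.n2 (-29712, 4992) (by decide +kernel)
               (CovZ.badM (by decide +kernel))
               (CovZ.n1 (-29736, 4968) (by decide +kernel)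
                (CovZ.n2 (-29736, 4992) (by decide +kernel)
                 (CovZ.badM (by decide +kernel))
                 (CovZ.n1 (-29748, 4980) (by decide +kernel)
                  (CovZ.n2 (-29748, 4992) (by decide +kernel)
                   (CovZ.leaf K2_ok TB_l38283 _)
                   (CovZ.leaf K2_ok TB_l38284 _))
                  (CovZ.badM (by decide +kernel))))
                (CovZ.badM (by decide +kernel))))
              (CovZ.badM (by decide +kernel))))))
          (CovZ.n1 (-29856, 4896) (by decide +kernel)
           (CovZ.n2 (-29856, 4992) (by decide +kernel)
            (CovZ.subM 971334446112864535459730953411759456244206694187875597033275870302018181914470383616 (by decide +kernel)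
             (CovZ.n2 (-29808, 4944) (by decide +kernel)
              (CovZ.n2 (-29856, 4944) (by decide +kernel)
               (CovZ.n2 (-29832, 4968) (by decide +kernel)
                (CovZ.badM (by decide +kernel))
                (CovZ.n1 (-29856, 4968) (by decide +kernel)
                 (CovZ.n2 (-29844, 4980) (by decide +kernel)
                  (CovZ.leaf K2_ok TB_l38285 _)
                  (CovZ.leaf K2_ok TB_l38286 _))
                 (CovZ.badM (by decide +kernel))))
               (CovZ.badM (by decide +kernel)))
              (CovZ.n1 (-29808, 4992) (by decide +kernel)
               (CovZ.n2 (-29784, 4968) (by decide +kernel)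
                (CovZ.n2 (-29808, 4968) (by decide +kernel)
                 (CovZ.n2 (-29796, 4980) (by decide +kernel)
                  (CovZ.badM (by decide +kernel))
                  (CovZ.leaf K2_ok TB_l38287 _))
                 (CovZ.badM (by decide +kernel)))
                (CovZ.n1 (-29784, 4992) (by decide +kernel)
                 (CovZ.n2 (-29772, 4980) (by decide +kernel)
                  (CovZ.leaf K2_ok TB_l38288 _)
                  (CovZ.leaf K2_ok TB_l38289 _))
                 (CovZ.n1 (-29796, 4980) (by decide +kernel)
                  (CovZ.leaf K2_ok TB_l38290 _)
                  (CovZ.leaf K2_ok TB_l38291 _))))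
               (CovZ.n1 (-29832, 4968) (by decide +kernel)
                (CovZ.n2 (-29832, 4992) (by decide +kernel)
                 (CovZ.n2 (-29820, 4980) (by decide +kernel)
                  (CovZ.leaf K2_ok TB_l38292 _)
                  (CovZ.leaf K2_ok TB_l38293 _))
                 (CovZ.leaf K2_ok TB_l38294 _))
                (CovZ.n1 (-29808, 4968) (by decide +kernel)
                 (CovZ.badM (by decide +kernel))
                 (CovZ.n1 (-29820, 4980) (by decide +kernel)
                  (CovZ.n2 (-29808, 4980) (by decide +kernel)
                   (CovZ.leaf K2_ok TB_l38295 _)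
                   (CovZ.leaf K2_ok TB_l38296 _))
                  (CovZ.leaf K2_ok TB_l38297 _)))))))
            (CovZ.n1 (-29904, 4944) (by decide +kernel)
             (CovZ.n2 (-29904, 4992) (by decide +kernel)
              (CovZ.n2 (-29880, 4968) (by decide +kernel)
               (CovZ.n2 (-29904, 4968) (by decide +kernel)
                (CovZ.n2 (-29892, 4980) (by decide +kernel)
                 (CovZ.leaf K2_ok TB_l38298 _)
                 (CovZ.leaf K2_ok TB_l38299 _))
                (CovZ.n1 (-29892, 4956) (by decide +kernel)
                 (CovZ.leaf K2_ok TB_l38300 _)
                 (CovZ.leaf K2_ok TB_l38301 _)))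
               (CovZ.n1 (-29880, 4992) (by decide +kernel)
                (CovZ.n2 (-29868, 4980) (by decide +kernel)
                 (CovZ.leaf K2_ok TB_l38302 _)
                 (CovZ.leaf K2_ok TB_l38303 _))
                (CovZ.leaf K2_ok TB_l38304 _)))
              (CovZ.n1 (-29928, 4968) (by decide +kernel)
               (CovZ.n2 (-29928, 4992) (by decide +kernel)
                (CovZ.leaf K2_ok TB_l38305 _)
                (CovZ.leaf K2_ok TB_l38306 _))
               (CovZ.n1 (-29904, 4968) (by decide +kernel)
                (CovZ.n2 (-29916, 4956) (by decide +kernel)
                 (CovZ.leaf K2_ok TB_l38307 _)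
                 (CovZ.leaf K2_ok TB_l38308 _))
                (CovZ.leaf K2_ok TB_l38309 _))))
             (CovZ.subM 971334446112864535459730953411759456244206694187875597033275870302018181914470383616 (by decide +kernel)
              (CovZ.n1 (-29856, 4944) (by decide +kernel)
               (CovZ.badM (by decide +kernel))
               (CovZ.n1 (-29880, 4968) (by decide +kernel)
                (CovZ.n2 (-29856, 4968) (by decide +kernel)
                 (CovZ.badM (by decide +kernel))
                 (CovZ.n1 (-29868, 4980) (by decide +kernel)
                  (CovZ.leaf K2_ok TB_l38310 _)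
                  (CovZ.leaf K2_ok TB_l38311 _)))
                (CovZ.badM (by decide +kernel)))))))
           (CovZ.subM 1048576 (by decide +kernel)
            (CovZ.n1 (-29760, 4896) (by decide +kernel)
             (CovZ.badM (by decide +kernel))
             (CovZ.n1 (-29808, 4944) (by decide +kernel)
              (CovZ.n2 (-29760, 4944) (by decide +kernel)
               (CovZ.badM (by decide +kernel))
               (CovZ.n1 (-29784, 4968) (by decide +kernel)
                (CovZ.n2 (-29760, 4968) (by decide +kernel)
                 (CovZ.badM (by decide +kernel))
                 (CovZ.n1 (-29772, 4980) (by decide +kernel)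
                  (CovZ.leaf K2_ok TB_l38312 _)
                  (CovZ.badM (by decide +kernel))))
                (CovZ.badM (by decide +kernel))))
              (CovZ.badM (by decide +kernel)))))))))))

end Pool.Agent.TET
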