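import Pool.Agent.Helper38_TET.TB_M
import Pool.Agent.Helper38_TET.TB_L
import Pool.Agent.Helper38_TET.TB_3
import Pool.Agent.Helper38_TET.TB_4
import Pool.Agent.Helper38_TET.TB_8
import Pool.Agent.Helper38_TET.TB_9
import Pool.Agent.Helper38_TET.TB_10
import Pool.Agent.Helper38_TET.TB_11
import Pool.Agent.Helper38_TET.TB_12
import Pool.Agent.Helper38_TET.TB_18
import Pool.Agent.Helper38_TET.TB_19
import Pool.Agent.Helper38_TET.TB_32
import Pool.Agent.Helper38_TET.TB_33
import Pool.Agent.Helper38_TET.TB_53
import Pool.Agent.Helper38_TET.TB_54
import Pool.Agent.Helper38_TET.TB_62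
import Pool.Agent.Helper38_TET.TB_63
import Pool.Agent.Helper38_TET.TB_68
import Pool.Agent.Helper38_TET.TB_72
import Pool.Agent.Helper38_TET.TB_73
import Pool.Agent.Helper38_TET.TB_252
import Pool.Agent.Helper38_TET.TB_263
import Pool.Agent.Helper38_TET.TB_264
import Pool.Agent.Helper38_TET.TB_323
import Pool.Agent.Helper38_TET.TB_U10
import Pool.Agent.Helper38_TET.TB_U11
import Pool.Agent.Helper38_TET.TB_U3
import Pool.Agent.Helper38_TET.TB_U4
import Pool.Agent.Helper38_TET.TB_U5
import Pool.Agent.Helper38_TET.TB_U6
import Pool.Agent.Helper38_TET.TB_U7
import Pool.Agent.Helper38_TET.TB_U8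
import Pool.Agent.Helper38_TET.TB_U9

/-!
# MP_c7c9bf_co: certificates, family TB
-/

set_option autoImplicit false
set_option maxRecDepth 100000

namespace Pool.Agent.TET

theorem TB_s3_3 : SqZ TB_M TB_L [0, 7, 6, 1] (-32256) (-4608) 1536 3 3 :=
  SqZ.mk (a := (-27648)) (b := (-26112)) (c := 0) (d := 1536) (by norm_num) (by norm_num) (by norm_num) (by norm_num)
    (CovZ.topM TB_LL 10693552188729356552790587731821266841014006708332875938701794431731881531140877455849397537499971682418187577823936921600 (by decide +kernel) (CovZ.n2 (-26880, 768) (by decide +kernel)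
    (CovZ.n2 (-26112, 768) (by decide +kernel)
     (CovZ.n2 (-26496, 384) (by decide +kernel)
      (CovZ.n2 (-26496, 768) (by decide +kernel)
       TB_u51
       TB_u52)
      (CovZ.n1 (-26112, 384) (by decide +kernel)
       (CovZ.n2 (-26304, 192) (by decide +kernel)
        (CovZ.n2 (-26304, 384) (by decide +kernel)
         (CovZ.n2 (-26208, 288) (by decide +kernel)
          (CovZ.n2 (-26304, 288) (by decide +kernel)
           (CovZ.n2 (-26256, 336) (by decide +kernel)
            (CovZ.n2 (-26256, 288) (by decide +kernel)
             (CovZ.leaf K2_ok TB_l9388 _)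
             (CovZ.leaf K2_ok TB_l9389 _))
            (CovZ.n1 (-26304, 336) (by decide +kernel)
             (CovZ.n2 (-26280, 360) (by decide +kernel)
              (CovZ.leaf K2_ok TB_l9390 _)
              (CovZ.leaf K2_ok TB_l9391 _))
             (CovZ.leaf K2_ok TB_l9392 _)))
           (CovZ.n1 (-26256, 240) (by decide +kernel)
            (CovZ.n2 (-26304, 240) (by decide +kernel)
             (CovZ.leaf K2_ok TB_l9393 _)
             (CovZ.leaf K2_ok TB_l9394 _))
            (CovZ.n1 (-26256, 288) (by decide +kernel)
             (CovZ.leaf K2_ok TB_l9395 _)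
             (CovZ.leaf K2_ok TB_l9396 _))))
          (CovZ.n1 (-26208, 384) (by decide +kernel)
           (CovZ.n2 (-26160, 336) (by decide +kernel)
            (CovZ.n2 (-26208, 336) (by decide +kernel)
             (CovZ.n2 (-26184, 360) (by decide +kernel)
              (CovZ.leaf K2_ok TB_l9397 _)
              (CovZ.leaf K2_ok TB_l9398 _))
             (CovZ.n1 (-26184, 312) (by decide +kernel)
              (CovZ.leaf K2_ok TB_l9399 _)
              (CovZ.leaf K2_ok TB_l9400 _)))
            (CovZ.n1 (-26160, 384) (by decide +kernel)
             (CovZ.n2 (-26136, 360) (by decide +kernel)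
              (CovZ.leaf K2_ok TB_l9401 _)
              (CovZ.n1 (-26136, 384) (by decide +kernel)
               (CovZ.leaf K2_ok TB_l9402 _)
               (CovZ.leaf K2_ok TB_l9403 _)))
             (CovZ.n1 (-26184, 360) (by decide +kernel)
              (CovZ.leaf K2_ok TB_l9404 _)
              (CovZ.leaf K2_ok TB_l9405 _))))
           (CovZ.n1 (-26256, 336) (by decide +kernel)
            (CovZ.n2 (-26256, 384) (by decide +kernel)
             (CovZ.n2 (-26232, 360) (by decide +kernel)
              (CovZ.leaf K2_ok TB_l9406 _)
              (CovZ.leaf K2_ok TB_l9407 _))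
             (CovZ.n1 (-26280, 360) (by decide +kernel)
              (CovZ.leaf K2_ok TB_l9408 _)
              (CovZ.leaf K2_ok TB_l9409 _)))
            (CovZ.n1 (-26208, 336) (by decide +kernel)
             (CovZ.leaf K2_ok TB_l9410 _)
             (CovZ.n1 (-26232, 360) (by decide +kernel)
              (CovZ.leaf K2_ok TB_l9411 _)
              (CovZ.leaf K2_ok TB_l9412 _))))))
         (CovZ.n1 (-26400, 288) (by decide +kernel)
          (CovZ.n2 (-26400, 384) (by decide +kernel)
           (CovZ.n2 (-26352, 336) (by decide +kernel)
            (CovZ.n2 (-26400, 336) (by decide +kernel)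
             (CovZ.leaf K2_ok TB_l9413 _)
             (CovZ.leaf K2_ok TB_l9414 _))
            (CovZ.n1 (-26352, 384) (by decide +kernel)
             (CovZ.leaf K2_ok TB_l9415 _)
             (CovZ.leaf K2_ok TB_l9416 _)))
           (CovZ.n1 (-26448, 336) (by decide +kernel)
            (CovZ.n2 (-26448, 384) (by decide +kernel)
             (CovZ.leaf K2_ok TB_l9417 _)
             (CovZ.leaf K2_ok TB_l9418 _))
            (CovZ.leaf K2_ok TB_l9419 _)))
          (CovZ.n1 (-26304, 288) (by decide +kernel)
           (CovZ.n2 (-26352, 240) (by decide +kernel)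
            (CovZ.n2 (-26352, 288) (by decide +kernel)
             (CovZ.leaf K2_ok TB_l9420 _)
             (CovZ.leaf K2_ok TB_l9421 _))
            (CovZ.leaf K2_ok TB_l9422 _))
           (CovZ.n1 (-26352, 336) (by decide +kernel)
            (CovZ.n2 (-26304, 336) (by decide +kernel)
             (CovZ.leaf K2_ok TB_l9423 _)
             (CovZ.leaf K2_ok TB_l9424 _))
            (CovZ.n1 (-26352, 288) (by decide +kernel)
             (CovZ.leaf K2_ok TB_l9425 _)
             (CovZ.leaf K2_ok TB_l9426 _))))))
        (CovZ.n1 (-26112, 192) (by decide +kernel)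
         (CovZ.n2 (-26208, 96) (by decide +kernel)
          (CovZ.n2 (-26208, 192) (by decide +kernel)
           (CovZ.n2 (-26160, 144) (by decide +kernel)
            (CovZ.leaf K2_ok TB_l9427 _)
            (CovZ.leaf K2_ok TB_l9428 _))
           (CovZ.n1 (-26256, 144) (by decide +kernel)
            (CovZ.leaf K2_ok TB_l9429 _)
            (CovZ.leaf K2_ok TB_l9430 _)))
          (CovZ.n1 (-26112, 96) (by decide +kernel)
           (CovZ.n2 (-26160, 48) (by decide +kernel)
            (CovZ.leaf K2_ok TB_l9431 _)
            (CovZ.leaf K2_ok TB_l9432 _))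
           (CovZ.n1 (-26160, 144) (by decide +kernel)
            (CovZ.leaf K2_ok TB_l9433 _)
            (CovZ.leaf K2_ok TB_l9434 _))))
         (CovZ.n1 (-26208, 288) (by decide +kernel)
          (CovZ.n2 (-26112, 288) (by decide +kernel)
           (CovZ.n2 (-26160, 240) (by decide +kernel)
            (CovZ.n2 (-26160, 288) (by decide +kernel)
             (CovZ.leaf K2_ok TB_l9435 _)
             (CovZ.leaf K2_ok TB_l9436 _))
            (CovZ.n1 (-26112, 240) (by decide +kernel)
             (CovZ.leaf K2_ok TB_l9437 _)
             (CovZ.leaf K2_ok TB_l9438 _)))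
           (CovZ.n1 (-26160, 336) (by decide +kernel)
            (CovZ.n2 (-26112, 336) (by decide +kernel)
             (CovZ.n2 (-26136, 312) (by decide +kernel)
              (CovZ.leaf K2_ok TB_l9439 _)
              (CovZ.leaf K2_ok TB_l9440 _))
             (CovZ.n1 (-26136, 360) (by decide +kernel)
              (CovZ.leaf K2_ok TB_l9441 _)
              (CovZ.leaf K2_ok TB_l9442 _)))
            (CovZ.n1 (-26160, 288) (by decide +kernel)
             (CovZ.n2 (-26184, 312) (by decide +kernel)
              (CovZ.leaf K2_ok TB_l9443 _)
              (CovZ.leaf K2_ok TB_l9444 _))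
             (CovZ.n1 (-26136, 312) (by decide +kernel)
              (CovZ.leaf K2_ok TB_l9445 _)
              (CovZ.leaf K2_ok TB_l9446 _)))))
          (CovZ.n1 (-26208, 192) (by decide +kernel)
           (CovZ.n2 (-26256, 240) (by decide +kernel)
            (CovZ.leaf K2_ok TB_l9447 _)
            (CovZ.n1 (-26256, 192) (by decide +kernel)
             (CovZ.leaf K2_ok TB_l9448 _)
             (CovZ.leaf K2_ok TB_l9449 _)))
           (CovZ.n1 (-26160, 240) (by decide +kernel)
            (CovZ.n2 (-26160, 192) (by decide +kernel)
             (CovZ.leaf K2_ok TB_l9450 _)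
             (CovZ.leaf K2_ok TB_l9451 _))
            (CovZ.n1 (-26208, 240) (by decide +kernel)
             (CovZ.leaf K2_ok TB_l9452 _)
             (CovZ.leaf K2_ok TB_l9453 _)))))))
       (CovZ.n1 (-26304, 576) (by decide +kernel)
        TB_u53
        TB_u54)))
     (CovZ.subM 10651785980243994697453573104703380356610618051057548067169210860964731093371594190351174531360466098399448330723127214080 (by decide +kernel)
      (CovZ.n1 (-26496, 1152) (by decide +kernel)
       (CovZ.badM (by decide +kernel))
       (CovZ.n1 (-26496, 768) (by decide +kernel)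
        TB_u57
        TB_u58))))
    (CovZ.n1 (-26880, 0) (by decide +kernel)
     TB_u59
     TB_u60)))
    (CovZ.topM TB_LL 10693552188729356552790587731821266841014006708332875938701794431731881531140877455849397537499971682418187577823936921600 (by decide +kernel) (CovZ.n0 (-26880, 768) (by decide +kernel)
    (CovZ.n2 (-27648, 768) (by decide +kernel)
     TB_u63
     TB_u64)
    (CovZ.n1 (-26880, 1536) (by decide +kernel)
     (CovZ.subM 10651785980243994697453573104703380356610618051057548067169210860964755038614420219864586380532765321980442373521911332864 (by decide +kernel)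
      (CovZ.n2 (-26496, 1152) (by decide +kernel)
       (CovZ.n2 (-26880, 1152) (by decide +kernel)
        (CovZ.subM 1897137590064188558983823476951991019507728889220659041084359981454287622809583616 (by decide +kernel)
         (CovZ.n2 (-26688, 1344) (by decide +kernel)
          (CovZ.n2 (-26688, 1152) (by decide +kernel)
           (CovZ.n2 (-26784, 1248) (by decide +kernel)
            (CovZ.badM (by decide +kernel))
            (CovZ.n1 (-26784, 1152) (by decide +kernel)
             (CovZ.n2 (-26832, 1200) (by decide +kernel)
              (CovZ.badM (by decide +kernel))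
              (CovZ.n1 (-26832, 1152) (by decide +kernel)
               (CovZ.n2 (-26856, 1176) (by decide +kernel)
                (CovZ.badM (by decide +kernel))
                (CovZ.n1 (-26856, 1152) (by decide +kernel)
                 (CovZ.n2 (-26868, 1164) (by decide +kernel)
                  (CovZ.badM (by decide +kernel))
                  (CovZ.n1 (-26868, 1152) (by decide +kernel)
                   (CovZ.n2 (-26874, 1158) (by decide +kernel)
                    (CovZ.badM (by decide +kernel))
                    (CovZ.leaf K2_ok TB_l39481 _))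
                   (CovZ.badM (by decide +kernel))))
                 (CovZ.badM (by decide +kernel))))
               (CovZ.badM (by decide +kernel))))
             (CovZ.badM (by decide +kernel))))
           (CovZ.badM (by decide +kernel)))
          (CovZ.n1 (-26880, 1344) (by decide +kernel)
           (CovZ.badM (by decide +kernel))
           (CovZ.n1 (-26784, 1248) (by decide +kernel)
            (CovZ.n2 (-26880, 1248) (by decide +kernel)
             (CovZ.badM (by decide +kernel))
             (CovZ.n1 (-26832, 1200) (by decide +kernel)
              (CovZ.n2 (-26880, 1200) (by decide +kernel)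
               (CovZ.badM (by decide +kernel))
               (CovZ.n1 (-26856, 1176) (by decide +kernel)
                (CovZ.n2 (-26880, 1176) (by decide +kernel)
                 (CovZ.badM (by decide +kernel))
                 (CovZ.n1 (-26868, 1164) (by decide +kernel)
                  (CovZ.n2 (-26880, 1164) (by decide +kernel)
                   (CovZ.badM (by decide +kernel))
                   (CovZ.n1 (-26874, 1158) (by decide +kernel)
                    (CovZ.leaf K2_ok TB_l39482 _)
                    (CovZ.badM (by decide +kernel))))
                  (CovZ.badM (by decide +kernel))))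
                (CovZ.badM (by decide +kernel))))
              (CovZ.badM (by decide +kernel))))
            (CovZ.badM (by decide +kernel))))))
        (CovZ.n1 (-26688, 960) (by decide +kernel)
         (CovZ.n2 (-26880, 960) (by decide +kernel)
          TB_u65
          TB_u66)
         (CovZ.subM 307846961749994059511753116627208903088876586732927785660376887516986055056001957069298854575498537656663148593152 (by decide +kernel)
          (CovZ.n1 (-26688, 1152) (by decide +kernel)
           (CovZ.subM 18788340662190665823115844835023099101059493857499743553893305296845984568519573216307391521683065784378589184 (by decide +kernel)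
            (CovZ.n2 (-26592, 1056) (by decide +kernel)
             (CovZ.n2 (-26688, 1056) (by decide +kernel)
              (CovZ.badM (by decide +kernel))
              (CovZ.n1 (-26640, 1008) (by decide +kernel)
               (CovZ.n2 (-26688, 1008) (by decide +kernel)
                (CovZ.badM (by decide +kernel))
                (CovZ.n1 (-26664, 984) (by decide +kernel)
                 (CovZ.n2 (-26688, 984) (by decide +kernel)
                  (CovZ.n2 (-26676, 996) (by decide +kernel)
                   (CovZ.n2 (-26676, 984) (by decide +kernel)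
                    (CovZ.n2 (-26682, 990) (by decide +kernel)
                     (CovZ.badM (by decide +kernel))
                     (CovZ.leaf K2_ok TB_l39487 _))
                    (CovZ.badM (by decide +kernel)))
                   (CovZ.leaf K2_ok TB_l10321 _))
                  (CovZ.n1 (-26676, 972) (by decide +kernel)
                   (CovZ.leaf K2_ok TB_l10322 _)
                   (CovZ.leaf K2_ok TB_l10323 _)))
                 (CovZ.badM (by decide +kernel))))
               (CovZ.badM (by decide +kernel))))
             (CovZ.badM (by decide +kernel))))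
           (CovZ.n1 (-26784, 1056) (by decide +kernel)
            (CovZ.subM 307828173409331868845930000782373879989775527239070285916822994211689209068711178560715039476269857731424590757888 (by decide +kernel)
             (CovZ.n2 (-26784, 1152) (by decide +kernel)
              (CovZ.badM (by decide +kernel))
              (CovZ.n1 (-26832, 1104) (by decide +kernel)
               (CovZ.n2 (-26832, 1152) (by decide +kernel)
                (CovZ.badM (by decide +kernel))
                (CovZ.n1 (-26856, 1128) (by decide +kernel)
                 (CovZ.n2 (-26856, 1152) (by decide +kernel)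
                  (CovZ.badM (by decide +kernel))
                  (CovZ.n1 (-26868, 1140) (by decide +kernel)
                   (CovZ.n2 (-26868, 1152) (by decide +kernel)
                    (CovZ.badM (by decide +kernel))
                    (CovZ.n1 (-26874, 1146) (by decide +kernel)
                     (CovZ.leaf K2_ok TB_l39488 _)
                     (CovZ.badM (by decide +kernel))))
                   (CovZ.badM (by decide +kernel))))
                 (CovZ.badM (by decide +kernel))))
               (CovZ.badM (by decide +kernel)))))
            (CovZ.subM 18788340662190665823115844835023099101059493857499743553893305296845984568519573216307391521683065784378589184 (by decide +kernel)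
             (CovZ.n1 (-26688, 1056) (by decide +kernel)
              (CovZ.n2 (-26736, 1008) (by decide +kernel)
               (CovZ.n2 (-26736, 1056) (by decide +kernel)
                (CovZ.n2 (-26712, 1032) (by decide +kernel)
                 (CovZ.n2 (-26736, 1032) (by decide +kernel)
                  (CovZ.badM (by decide +kernel))
                  (CovZ.n1 (-26724, 1020) (by decide +kernel)
                   (CovZ.leaf K2_ok TB_l10324 _)
                   (CovZ.badM (by decide +kernel))))
                 (CovZ.badM (by decide +kernel)))
                (CovZ.n1 (-26760, 1032) (by decide +kernel)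
                 (CovZ.badM (by decide +kernel))
                 (CovZ.n1 (-26736, 1032) (by decide +kernel)
                  (CovZ.n2 (-26748, 1020) (by decide +kernel)
                   (CovZ.badM (by decide +kernel))
                   (CovZ.leaf K2_ok TB_l10325 _))
                  (CovZ.badM (by decide +kernel)))))
               (CovZ.n1 (-26688, 1008) (by decide +kernel)
                (CovZ.n2 (-26712, 984) (by decide +kernel)
                 (CovZ.n2 (-26712, 1008) (by decide +kernel)
                  (CovZ.n2 (-26700, 996) (by decide +kernel)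
                   (CovZ.leaf K2_ok TB_l10326 _)
                   (CovZ.n1 (-26700, 1008) (by decide +kernel)
                    (CovZ.n2 (-26694, 1002) (by decide +kernel)
                     (CovZ.leaf K2_ok TB_l39489 _)
                     (CovZ.badM (by decide +kernel)))
                    (CovZ.n1 (-26706, 1002) (by decide +kernel)
                     (CovZ.n2 (-26706, 1008) (by decide +kernel)
                      (CovZ.leaf K2_ok TB_l39490 _)
                      (CovZ.leaf K2_ok TB_l39491 _))
                     (CovZ.leaf K2_ok TB_l39492 _))))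
                  (CovZ.n1 (-26724, 996) (by decide +kernel)
                   (CovZ.leaf K2_ok TB_l10327 _)
                   (CovZ.leaf K2_ok TB_l10328 _)))
                 (CovZ.n1 (-26688, 984) (by decide +kernel)
                  (CovZ.n2 (-26700, 972) (by decide +kernel)
                   (CovZ.leaf K2_ok TB_l10329 _)
                   (CovZ.leaf K2_ok TB_l10330 _))
                  (CovZ.n1 (-26700, 996) (by decide +kernel)
                   (CovZ.leaf K2_ok TB_l10331 _)
                   (CovZ.leaf K2_ok TB_l10332 _))))
                (CovZ.n1 (-26712, 1032) (by decide +kernel)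
                 (CovZ.badM (by decide +kernel))
                 (CovZ.n1 (-26712, 1008) (by decide +kernel)
                  (CovZ.n2 (-26724, 1020) (by decide +kernel)
                   (CovZ.leaf K2_ok TB_l39493 _)
                   (CovZ.leaf K2_ok TB_l10333 _))
                  (CovZ.n1 (-26700, 1020) (by decide +kernel)
                   (CovZ.n2 (-26700, 1008) (by decide +kernel)
                    (CovZ.n2 (-26706, 1014) (by decide +kernel)
                     (CovZ.badM (by decide +kernel))
                     (CovZ.leaf K2_ok TB_l39494 _))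
                    (CovZ.badM (by decide +kernel)))
                   (CovZ.leaf K2_ok TB_l39495 _))))))
              (CovZ.badM (by decide +kernel)))))))))
       (CovZ.n1 (-26496, 1536) (by decide +kernel)
        (CovZ.badM (by decide +kernel))
        (CovZ.n1 (-26688, 1344) (by decide +kernel)
         (CovZ.badM (by decide +kernel))
         (CovZ.badM (by decide +kernel))))))
     (CovZ.subM 322786467896360320911938479268899174832256635193099791715907790271222802590492139873801788662128458688558306124974014464 (by decide +kernel)
      (CovZ.n1 (-27264, 1152) (by decide +kernel)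
       TB_u75
       (CovZ.n1 (-26880, 1152) (by decide +kernel)
        (CovZ.n2 (-27072, 960) (by decide +kernel)
         TB_u71
         TB_u72)
        (CovZ.n1 (-27072, 1344) (by decide +kernel)
         (CovZ.subM 1897137590064188558983823476951991019507728889220659041084359981454287622809583616 (by decide +kernel)
          (CovZ.n2 (-26880, 1344) (by decide +kernel)
           (CovZ.n2 (-26976, 1248) (by decide +kernel)
            (CovZ.badM (by decide +kernel))
            (CovZ.n1 (-26880, 1248) (by decide +kernel)
             (CovZ.n2 (-26928, 1200) (by decide +kernel)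
              (CovZ.badM (by decide +kernel))
              (CovZ.n1 (-26880, 1200) (by decide +kernel)
               (CovZ.n2 (-26904, 1176) (by decide +kernel)
                (CovZ.badM (by decide +kernel))
                (CovZ.n1 (-26880, 1176) (by decide +kernel)
                 (CovZ.n2 (-26892, 1164) (by decide +kernel)
                  (CovZ.badM (by decide +kernel))
                  (CovZ.leaf K2_ok TB_l39536 _))
                 (CovZ.badM (by decide +kernel))))
               (CovZ.badM (by decide +kernel))))
             (CovZ.badM (by decide +kernel))))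
           (CovZ.badM (by decide +kernel))))
         (CovZ.n1 (-27072, 1152) (by decide +kernel)
          TB_u73
          TB_u74))))))))

theorem TB_s4_3 : SqZ TB_M TB_L [0, 7, 6, 1] (-32256) (-4608) 1536 4 3 :=
  SqZ.mk (a := (-26112)) (b := (-24576)) (c := 0) (d := 1536) (by norm_num) (by norm_num) (by norm_num) (by norm_num)
    (CovZ.topM TB_LL 10370810048108902586928704095640572193114359797140572289885878814915459939405745701563079154965793766593478817979524726784 (by decide +kernel) (CovZ.n2 (-25344, 768) (by decide +kernel)
    (CovZ.badM (by decide +kernel))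
    (CovZ.n1 (-25344, 0) (by decide +kernel)
     (CovZ.n2 (-25728, 384) (by decide +kernel)
      TB_u78
      TB_u79)
     (CovZ.subM 1418477032885787609505367576819862496546824355521026682454804486037759085461987075064044742637929113296868007114440704 (by decide +kernel)
      (CovZ.n1 (-24960, 384) (by decide +kernel)
       TB_u80
       TB_u81)))))
    (CovZ.topM TB_LL 10370810048146515964230941268430989717962718574192966225131842395976022011949787570990673661128630550442238795737433915392 (by decide +kernel) (CovZ.n0 (-25344, 768) (by decide +kernel)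
    (CovZ.n2 (-26112, 768) (by decide +kernel)
     (CovZ.badM (by decide +kernel))
     (CovZ.n1 (-25728, 384) (by decide +kernel)
      (CovZ.n2 (-26112, 384) (by decide +kernel)
       TB_u84
       TB_u85)
      (CovZ.badM (by decide +kernel))))
    (CovZ.badM (by decide +kernel))))

theorem TB_s5_3 : SqZ TB_M TB_L [0, 7, 6, 1] (-32256) (-4608) 1536 5 3 :=
  SqZ.mk (a := (-24576)) (b := (-23040)) (c := 0) (d := 1536) (by norm_num) (by norm_num) (by norm_num) (by norm_num)
    (CovZ.topM TB_LL 0 (by decide +kernel) (CovZ.badM (by decide +kernel)))
    (CovZ.topM TB_LL 0 (by decide +kernel) (CovZ.badM (by decide +kernel)))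

theorem TB_s6_3 : SqZ TB_M TB_L [0, 7, 6, 1] (-32256) (-4608) 1536 6 3 :=
  SqZ.mk (a := (-23040)) (b := (-21504)) (c := 0) (d := 1536) (by norm_num) (by norm_num) (by norm_num) (by norm_num)
    (CovZ.topM TB_LL 0 (by decide +kernel) (CovZ.badM (by decide +kernel)))
    (CovZ.topM TB_LL 0 (by decide +kernel) (CovZ.badM (by decide +kernel)))

theorem TB_s7_3 : SqZ TB_M TB_L [0, 7, 6, 1] (-32256) (-4608) 1536 7 3 :=
  SqZ.mk (a := (-21504)) (b := (-19968)) (c := 0) (d := 1536) (by norm_num) (by norm_num) (by norm_num) (by norm_num)
    (CovZ.topM TB_LL 0 (by decide +kernel) (CovZ.badM (by decide +kernel)))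
    (CovZ.topM TB_LL 0 (by decide +kernel) (CovZ.badM (by decide +kernel)))

theorem TB_s8_3 : SqZ TB_M TB_L [0, 7, 6, 1] (-32256) (-4608) 1536 8 3 :=
  SqZ.mk (a := (-19968)) (b := (-18432)) (c := 0) (d := 1536) (by norm_num) (by norm_num) (by norm_num) (by norm_num)
    (CovZ.topM TB_LL 0 (by decide +kernel) (CovZ.badM (by decide +kernel)))
    (CovZ.topM TB_LL 0 (by decide +kernel) (CovZ.badM (by decide +kernel)))

theorem TB_s9_3 : SqZ TB_M TB_L [0, 7, 6, 1] (-32256) (-4608) 1536 9 3 :=
  SqZ.mk (a := (-18432)) (b := (-16896)) (c := 0) (d := 1536) (by norm_num) (by norm_num) (by norm_num) (by norm_num)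
    (CovZ.topM TB_LL 0 (by decide +kernel) (CovZ.badM (by decide +kernel)))
    (CovZ.topM TB_LL 0 (by decide +kernel) (CovZ.badM (by decide +kernel)))

theorem TB_s10_3 : SqZ TB_M TB_L [0, 7, 6, 1] (-32256) (-4608) 1536 10 3 :=
  SqZ.mk (a := (-16896)) (b := (-15360)) (c := 0) (d := 1536) (by norm_num) (by norm_num) (by norm_num) (by norm_num)
    (CovZ.topM TB_LL 0 (by decide +kernel) (CovZ.badM (by decide +kernel)))
    (CovZ.topM TB_LL 0 (by decide +kernel) (CovZ.badM (by decide +kernel)))

theorem TB_s11_3 : SqZ TB_M TB_L [0, 7, 6, 1] (-32256) (-4608) 1536 11 3 :=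
  SqZ.mk (a := (-15360)) (b := (-13824)) (c := 0) (d := 1536) (by norm_num) (by norm_num) (by norm_num) (by norm_num)
    (CovZ.topM TB_LL 0 (by decide +kernel) (CovZ.badM (by decide +kernel)))
    (CovZ.topM TB_LL 0 (by decide +kernel) (CovZ.badM (by decide +kernel)))

theorem TB_s12_3 : SqZ TB_M TB_L [0, 7, 6, 1] (-32256) (-4608) 1536 12 3 :=
  SqZ.mk (a := (-13824)) (b := (-12288)) (c := 0) (d := 1536) (by norm_num) (by norm_num) (by norm_num) (by norm_num)
    (CovZ.topM TB_LL 0 (by decide +kernel) (CovZ.badM (by decide +kernel)))
    (CovZ.topM TB_LL 0 (by decide +kernel) (CovZ.badM (by decide +kernel)))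

theorem TB_s0_4 : SqZ TB_M TB_L [0, 7, 6, 1] (-32256) (-4608) 1536 0 4 :=
  SqZ.mk (a := (-32256)) (b := (-30720)) (c := 1536) (d := 3072) (by norm_num) (by norm_num) (by norm_num) (by norm_num)
    (CovZ.topM TB_LL 8196114235863813590666107271896742383769618688835395020596430963453764968193488191052786341978936863938802579034451390634414830504399912764440578 (by decide +kernel) (CovZ.n2 (-31488, 2304) (by decide +kernel)
    (CovZ.n2 (-30720, 2304) (by decide +kernel)
     (CovZ.n2 (-31104, 1920) (by decide +kernel)
      (CovZ.subM 2707685248164858261307045101702230179139134874367335020758542994436554973539766943773355355778191464559910268031406925125517314 (by decide +kernel)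
       (CovZ.n2 (-31104, 2304) (by decide +kernel)
        (CovZ.n2 (-30912, 2112) (by decide +kernel)
         (CovZ.n2 (-31104, 2112) (by decide +kernel)
          (CovZ.badM (by decide +kernel))
          (CovZ.n1 (-31008, 2016) (by decide +kernel)
           (CovZ.n2 (-31104, 2016) (by decide +kernel)
            (CovZ.badM (by decide +kernel))
            (CovZ.n1 (-31056, 1968) (by decide +kernel)
             (CovZ.n2 (-31104, 1968) (by decide +kernel)
              (CovZ.badM (by decide +kernel))
              (CovZ.n1 (-31080, 1944) (by decide +kernel)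
               (CovZ.leaf K2_ok TB_l595 _)
               (CovZ.leaf K2_ok TB_l596 _)))
             (CovZ.badM (by decide +kernel))))
           (CovZ.badM (by decide +kernel))))
         (CovZ.n1 (-30912, 2304) (by decide +kernel)
          (CovZ.n2 (-30816, 2208) (by decide +kernel)
           (CovZ.badM (by decide +kernel))
           (CovZ.n1 (-30816, 2304) (by decide +kernel)
            (CovZ.n2 (-30768, 2256) (by decide +kernel)
             (CovZ.badM (by decide +kernel))
             (CovZ.badM (by decide +kernel)))
            (CovZ.badM (by decide +kernel))))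
          (CovZ.badM (by decide +kernel))))
        (CovZ.n1 (-31296, 2112) (by decide +kernel)
         (CovZ.badM (by decide +kernel))
         (CovZ.n1 (-31104, 2112) (by decide +kernel)
          (CovZ.n2 (-31200, 2016) (by decide +kernel)
           (CovZ.badM (by decide +kernel))
           (CovZ.n1 (-31104, 2016) (by decide +kernel)
            (CovZ.n2 (-31152, 1968) (by decide +kernel)
             (CovZ.badM (by decide +kernel))
             (CovZ.n1 (-31104, 1968) (by decide +kernel)
              (CovZ.n2 (-31128, 1944) (by decide +kernel)
               (CovZ.leaf K2_ok TB_l607 _)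
               (CovZ.leaf K2_ok TB_l608 _))
              (CovZ.badM (by decide +kernel))))
            (CovZ.badM (by decide +kernel))))
          (CovZ.badM (by decide +kernel))))))
      (CovZ.n1 (-30720, 1920) (by decide +kernel)
       TB_u86
       TB_u87))
     (CovZ.n1 (-31104, 2688) (by decide +kernel)
      (CovZ.badM (by decide +kernel))
      (CovZ.n1 (-31104, 2304) (by decide +kernel)
       (CovZ.badM (by decide +kernel))
       (CovZ.badM (by decide +kernel)))))
    (CovZ.n1 (-31488, 1536) (by decide +kernel)
     TB_u90
     TB_u91)))
    (CovZ.topM TB_LL 2707685248164858261307045101702230179140129520840154594042853759138536684885118611344321199032742473287138798459030971498364930 (by decide +kernel) (CovZ.n0 (-31488, 2304) (by decide +kernel)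
    (CovZ.subM 994646472819573284310764496293641680200912301594695434882195604386547223426563454271490 (by decide +kernel)
     (CovZ.n2 (-32256, 2304) (by decide +kernel)
      (CovZ.badM (by decide +kernel))
      (CovZ.n1 (-31872, 1920) (by decide +kernel)
       (CovZ.badM (by decide +kernel))
       (CovZ.n1 (-31872, 2304) (by decide +kernel)
        (CovZ.n2 (-31680, 2112) (by decide +kernel)
         (CovZ.badM (by decide +kernel))
         (CovZ.badM (by decide +kernel)))
        (CovZ.badM (by decide +kernel))))))
    (CovZ.n1 (-31488, 3072) (by decide +kernel)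
     (CovZ.n2 (-31104, 2688) (by decide +kernel)
      (CovZ.badM (by decide +kernel))
      (CovZ.badM (by decide +kernel)))
     (CovZ.badM (by decide +kernel)))))

theorem TB_s1_4 : SqZ TB_M TB_L [0, 7, 6, 1] (-32256) (-4608) 1536 1 4 :=
  SqZ.mk (a := (-30720)) (b := (-29184)) (c := 1536) (d := 3072) (by norm_num) (by norm_num) (by norm_num) (by norm_num)
    (CovZ.topM TB_LL 58147139623488390111692969858626140361929467230731543021024329440264736835207744724188876452246938576663445113444124688433087087513808069942837250 (by decide +kernel) (CovZ.n2 (-29952, 2304) (by decide +kernel)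
    (CovZ.subM 307865750090656250177576235455861927840989930198206055391643847147794452480794694824962579238696465674574808219650 (by decide +kernel)
     (CovZ.n2 (-29184, 2304) (by decide +kernel)
      (CovZ.n2 (-29568, 1920) (by decide +kernel)
       (CovZ.subM 1989292945639203107727601900885830337210005115139797604377312095494971504817084664119298 (by decide +kernel)
        (CovZ.n2 (-29568, 2304) (by decide +kernel)
         (CovZ.n2 (-29376, 2112) (by decide +kernel)
          (CovZ.subM 1989292945639146568621528992587283456182795907481669089022065597760209763226393962872834 (by decide +kernel)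
           (CovZ.n2 (-29568, 2112) (by decide +kernel)
            (CovZ.badM (by decide +kernel))
            (CovZ.n1 (-29472, 2016) (by decide +kernel)
             (CovZ.n2 (-29568, 2016) (by decide +kernel)
              (CovZ.badM (by decide +kernel))
              (CovZ.n1 (-29520, 1968) (by decide +kernel)
               (CovZ.n2 (-29568, 1968) (by decide +kernel)
                (CovZ.n2 (-29544, 1992) (by decide +kernel)
                 (CovZ.n2 (-29544, 1968) (by decide +kernel)
                  (CovZ.leaf K2_ok TB_l2824 _)
                  (CovZ.leaf K2_ok TB_l2825 _))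
                 (CovZ.n1 (-29568, 1992) (by decide +kernel)
                  (CovZ.leaf K2_ok TB_l2826 _)
                  (CovZ.leaf K2_ok TB_l2827 _)))
                (CovZ.n1 (-29544, 1944) (by decide +kernel)
                 (CovZ.leaf K2_ok TB_l2828 _)
                 (CovZ.n1 (-29544, 1968) (by decide +kernel)
                  (CovZ.leaf K2_ok TB_l2829 _)
                  (CovZ.leaf K2_ok TB_l2830 _))))
               (CovZ.n1 (-29520, 2016) (by decide +kernel)
                (CovZ.n2 (-29496, 1992) (by decide +kernel)
                 (CovZ.leaf K2_ok TB_l2831 _)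
                 (CovZ.n1 (-29496, 2016) (by decide +kernel)
                  (CovZ.leaf K2_ok TB_l2832 _)
                  (CovZ.leaf K2_ok TB_l2833 _)))
                (CovZ.n1 (-29544, 1992) (by decide +kernel)
                 (CovZ.n2 (-29544, 2016) (by decide +kernel)
                  (CovZ.leaf K2_ok TB_l2834 _)
                  (CovZ.leaf K2_ok TB_l2835 _))
                 (CovZ.n1 (-29520, 1992) (by decide +kernel)
                  (CovZ.leaf K2_ok TB_l2836 _)
                  (CovZ.leaf K2_ok TB_l2837 _))))))
             (CovZ.badM (by decide +kernel)))))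
          (CovZ.n1 (-29376, 2304) (by decide +kernel)
           (CovZ.n2 (-29280, 2208) (by decide +kernel)
            (CovZ.badM (by decide +kernel))
            (CovZ.badM (by decide +kernel)))
           (CovZ.badM (by decide +kernel))))
         (CovZ.n1 (-29760, 2112) (by decide +kernel)
          (CovZ.badM (by decide +kernel))
          (CovZ.n1 (-29568, 2112) (by decide +kernel)
           (CovZ.n2 (-29664, 2016) (by decide +kernel)
            (CovZ.subM 56539106072908298546665520023773566731051348220513099907690403506688098304 (by decide +kernel)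
             (CovZ.n2 (-29664, 2112) (by decide +kernel)
              (CovZ.n2 (-29616, 2064) (by decide +kernel)
               (CovZ.n2 (-29664, 2064) (by decide +kernel)
                (CovZ.badM (by decide +kernel))
                (CovZ.n1 (-29640, 2040) (by decide +kernel)
                 (CovZ.n2 (-29664, 2040) (by decide +kernel)
                  (CovZ.badM (by decide +kernel))
                  (CovZ.leaf K2_ok TB_l2840 _))
                 (CovZ.badM (by decide +kernel))))
               (CovZ.badM (by decide +kernel)))
              (CovZ.n1 (-29712, 2064) (by decide +kernel)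
               (CovZ.badM (by decide +kernel))
               (CovZ.n1 (-29664, 2064) (by decide +kernel)
                (CovZ.n2 (-29688, 2040) (by decide +kernel)
                 (CovZ.n2 (-29688, 2064) (by decide +kernel)
                  (CovZ.badM (by decide +kernel))
                  (CovZ.n1 (-29700, 2052) (by decide +kernel)
                   (CovZ.leaf K2_ok TB_l37787 _)
                   (CovZ.leaf K2_ok TB_l37788 _)))
                 (CovZ.n1 (-29664, 2040) (by decide +kernel)
                  (CovZ.n2 (-29676, 2028) (by decide +kernel)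
                   (CovZ.badM (by decide +kernel))
                   (CovZ.leaf K2_ok TB_l2841 _))
                  (CovZ.badM (by decide +kernel))))
                (CovZ.badM (by decide +kernel))))))
            (CovZ.subM 1989292945639146568621528992587283456182795907481669089022065597760209763226393962872834 (by decide +kernel)
             (CovZ.n1 (-29568, 2016) (by decide +kernel)
              (CovZ.n2 (-29616, 1968) (by decide +kernel)
               (CovZ.n2 (-29616, 2016) (by decide +kernel)
                (CovZ.n2 (-29592, 1992) (by decide +kernel)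
                 (CovZ.n2 (-29616, 1992) (by decide +kernel)
                  (CovZ.n2 (-29604, 2004) (by decide +kernel)
                   (CovZ.leaf K2_ok TB_l2842 _)
                   (CovZ.leaf K2_ok TB_l2843 _))
                  (CovZ.leaf K2_ok TB_l2844 _))
                 (CovZ.n1 (-29592, 2016) (by decide +kernel)
                  (CovZ.leaf K2_ok TB_l2845 _)
                  (CovZ.n1 (-29604, 2004) (by decide +kernel)
                   (CovZ.leaf K2_ok TB_l2846 _)
                   (CovZ.leaf K2_ok TB_l2847 _))))
                (CovZ.n1 (-29640, 1992) (by decide +kernel)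
                 (CovZ.n2 (-29640, 2016) (by decide +kernel)
                  (CovZ.leaf K2_ok TB_l2848 _)
                  (CovZ.leaf K2_ok TB_l2849 _))
                 (CovZ.n1 (-29616, 1992) (by decide +kernel)
                  (CovZ.leaf K2_ok TB_l2850 _)
                  (CovZ.leaf K2_ok TB_l2851 _))))
               (CovZ.n1 (-29568, 1968) (by decide +kernel)
                (CovZ.n2 (-29592, 1944) (by decide +kernel)
                 (CovZ.n2 (-29592, 1968) (by decide +kernel)
                  (CovZ.leaf K2_ok TB_l2852 _)
                  (CovZ.leaf K2_ok TB_l2853 _))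
                 (CovZ.leaf K2_ok TB_l2854 _))
                (CovZ.n1 (-29592, 1992) (by decide +kernel)
                 (CovZ.n2 (-29568, 1992) (by decide +kernel)
                  (CovZ.leaf K2_ok TB_l2855 _)
                  (CovZ.n1 (-29580, 2004) (by decide +kernel)
                   (CovZ.leaf K2_ok TB_l2856 _)
                   (CovZ.leaf K2_ok TB_l2857 _)))
                 (CovZ.n1 (-29592, 1968) (by decide +kernel)
                  (CovZ.leaf K2_ok TB_l2858 _)
                  (CovZ.leaf K2_ok TB_l2859 _)))))
              (CovZ.n1 (-29616, 2064) (by decide +kernel)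
               (CovZ.badM (by decide +kernel))
               (CovZ.n1 (-29616, 2016) (by decide +kernel)
                (CovZ.n2 (-29640, 2040) (by decide +kernel)
                 (CovZ.badM (by decide +kernel))
                 (CovZ.n1 (-29640, 2016) (by decide +kernel)
                  (CovZ.n2 (-29652, 2028) (by decide +kernel)
                   (CovZ.badM (by decide +kernel))
                   (CovZ.leaf K2_ok TB_l2863 _))
                  (CovZ.badM (by decide +kernel))))
                (CovZ.badM (by decide +kernel)))))))
           (CovZ.badM (by decide +kernel))))))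
       (CovZ.n1 (-29184, 1920) (by decide +kernel)
        TB_u92
        TB_u93))
      (CovZ.n1 (-29568, 2688) (by decide +kernel)
       (CovZ.badM (by decide +kernel))
       (CovZ.n1 (-29568, 2304) (by decide +kernel)
        (CovZ.badM (by decide +kernel))
        (CovZ.badM (by decide +kernel))))))
    (CovZ.n1 (-29952, 1536) (by decide +kernel)
     (CovZ.n2 (-30336, 1920) (by decide +kernel)
      TB_u96
      TB_u97)
     (CovZ.subM 307865750090656250177576235455861927840989930198206055393213122581641122671753642180764495842722054535690817372162 (by decide +kernel)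
      (CovZ.n1 (-29568, 1920) (by decide +kernel)
       TB_u100
       TB_u101)))))
    (CovZ.topM TB_LL 58147139623488390111692969858625832496179376574481365444791857519652492211733773430350451298799544381895676962809349602283910673158885313419411458 (by decide +kernel) (CovZ.n0 (-29952, 2304) (by decide +kernel)
    (CovZ.n2 (-30720, 2304) (by decide +kernel)
     (CovZ.subM 58147139623488357348788720470100160195958689077651587343215462519628910356470014018521808459915709225209917010578691113361684218770389707402510336 (by decide +kernel)
      (CovZ.n2 (-30336, 2688) (by decide +kernel)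
       (CovZ.n2 (-30336, 2304) (by decide +kernel)
        (CovZ.n2 (-30528, 2496) (by decide +kernel)
         (CovZ.badM (by decide +kernel))
         (CovZ.n1 (-30528, 2304) (by decide +kernel)
          (CovZ.badM (by decide +kernel))
          (CovZ.badM (by decide +kernel))))
        (CovZ.badM (by decide +kernel)))
       (CovZ.badM (by decide +kernel))))
     (CovZ.n1 (-30336, 1920) (by decide +kernel)
      TB_u106
      TB_u107))
    (CovZ.subM 1952617135231829125195227564143088885578102646852455099731728547500049412806699101256890682820630895272170823489384142031029300708772221072441344 (by decide +kernel)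
     (CovZ.n1 (-29952, 3072) (by decide +kernel)
      (CovZ.n2 (-29568, 2688) (by decide +kernel)
       (CovZ.badM (by decide +kernel))
       (CovZ.badM (by decide +kernel)))
      (CovZ.n1 (-30336, 2688) (by decide +kernel)
       (CovZ.badM (by decide +kernel))
       (CovZ.badM (by decide +kernel)))))))

theorem TB_s2_4 : SqZ TB_M TB_L [0, 7, 6, 1] (-32256) (-4608) 1536 2 4 :=
  SqZ.mk (a := (-29184)) (b := (-27648)) (c := 1536) (d := 3072) (by norm_num) (by norm_num) (by norm_num) (by norm_num)
    (CovZ.topM TB_LL 322786472687387189770558264163315199247170199174190029950476072374268409785608399096550609554734786665082365982558650370 (by decide +kernel) (CovZ.n2 (-28416, 2304) (by decide +kernel)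
    TB_u119
    TB_u120))
    (CovZ.topM TB_LL 322786472687387189770558264163315199247170199174190029950476072374268409785608399096550610822385386893311767479261855746 (by decide +kernel) (CovZ.n0 (-28416, 2304) (by decide +kernel)
    (CovZ.n2 (-29184, 2304) (by decide +kernel)
     (CovZ.n2 (-28800, 2688) (by decide +kernel)
      (CovZ.n2 (-28800, 2304) (by decide +kernel)
       (CovZ.badM (by decide +kernel))
       (CovZ.badM (by decide +kernel)))
      (CovZ.badM (by decide +kernel)))
     (CovZ.n1 (-28800, 1920) (by decide +kernel)
      (CovZ.subM 307865750090656250177576235455861927840933391092133147093097181627770679088286886112266774516163670469073164042242 (by decide +kernel)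
       (CovZ.n2 (-29184, 1920) (by decide +kernel)
        TB_u121
        TB_u122))
      (CovZ.subM 36695977855841153352435027830020779260750638491646501372012214004388485158723031515204078601567120551575554 (by decide +kernel)
       (CovZ.n1 (-28800, 2304) (by decide +kernel)
        (CovZ.n2 (-28608, 2112) (by decide +kernel)
         (CovZ.badM (by decide +kernel))
         (CovZ.badM (by decide +kernel)))
        (CovZ.n1 (-28992, 2112) (by decide +kernel)
         (CovZ.badM (by decide +kernel))
         (CovZ.badM (by decide +kernel)))))))
    (CovZ.n1 (-28416, 3072) (by decide +kernel)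
     (CovZ.n2 (-28032, 2688) (by decide +kernel)
      (CovZ.badM (by decide +kernel))
      (CovZ.badM (by decide +kernel)))
     (CovZ.badM (by decide +kernel)))))

theorem TB_s3_4 : SqZ TB_M TB_L [0, 7, 6, 1] (-32256) (-4608) 1536 3 4 :=
  SqZ.mk (a := (-27648)) (b := (-26112)) (c := 1536) (d := 3072) (by norm_num) (by norm_num) (by norm_num) (by norm_num)
    (CovZ.topM TB_LL 146783911423364576870407285938810043981770246525039779535916263023078742098449145796458246262991012038180864 (by decide +kernel) (CovZ.n2 (-26880, 2304) (by decide +kernel)
    (CovZ.badM (by decide +kernel))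
    (CovZ.n1 (-26880, 1536) (by decide +kernel)
     (CovZ.n2 (-27264, 1920) (by decide +kernel)
      (CovZ.badM (by decide +kernel))
      (CovZ.n1 (-27264, 1536) (by decide +kernel)
       (CovZ.n2 (-27456, 1728) (by decide +kernel)
        (CovZ.badM (by decide +kernel))
        (CovZ.n1 (-27456, 1536) (by decide +kernel)
         (CovZ.n2 (-27552, 1632) (by decide +kernel)
          (CovZ.badM (by decide +kernel))
          (CovZ.n1 (-27552, 1536) (by decide +kernel)
           (CovZ.n2 (-27600, 1584) (by decide +kernel)
            (CovZ.subM 146783911423364576743092537299333564210980159308376929963464675996307748420939557826711097389690290920488960 (by decide +kernel)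
             (CovZ.n2 (-27552, 1584) (by decide +kernel)
              (CovZ.n2 (-27576, 1560) (by decide +kernel)
               (CovZ.n2 (-27576, 1584) (by decide +kernel)
                (CovZ.n2 (-27564, 1572) (by decide +kernel)
                 (CovZ.leaf K2_ok TB_l10876 _)
                 (CovZ.leaf K2_ok TB_l10877 _))
                (CovZ.leaf K2_ok TB_l10878 _))
               (CovZ.n1 (-27552, 1560) (by decide +kernel)
                (CovZ.leaf K2_ok TB_l10879 _)
                (CovZ.n1 (-27564, 1572) (by decide +kernel)
                 (CovZ.leaf K2_ok TB_l10880 _)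
                 (CovZ.leaf K2_ok TB_l10881 _))))
              (CovZ.n1 (-27576, 1608) (by decide +kernel)
               (CovZ.badM (by decide +kernel))
               (CovZ.n1 (-27576, 1584) (by decide +kernel)
                (CovZ.n2 (-27588, 1596) (by decide +kernel)
                 (CovZ.leaf K2_ok TB_l10882 _)
                 (CovZ.leaf K2_ok TB_l10883 _))
                (CovZ.n1 (-27564, 1596) (by decide +kernel)
                 (CovZ.leaf K2_ok TB_l10884 _)
                 (CovZ.leaf K2_ok TB_l10885 _))))))
            (CovZ.n1 (-27600, 1536) (by decide +kernel)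
             (CovZ.n2 (-27624, 1560) (by decide +kernel)
              (CovZ.n2 (-27600, 1560) (by decide +kernel)
               (CovZ.leaf K2_ok TB_l10886 _)
               (CovZ.leaf K2_ok TB_l10887 _))
              (CovZ.n1 (-27624, 1536) (by decide +kernel)
               (CovZ.leaf K2_ok TB_l10888 _)
               (CovZ.leaf K2_ok TB_l10889 _)))
             (CovZ.subM 146783911423364576743092537299333564210980159308477364357478633321473550230884394064523326886171276564496384 (by decide +kernel)
              (CovZ.n1 (-27576, 1560) (by decide +kernel)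
               (CovZ.n2 (-27576, 1536) (by decide +kernel)
                (CovZ.leaf K2_ok TB_l10890 _)
                (CovZ.leaf K2_ok TB_l10891 _))
               (CovZ.n1 (-27600, 1560) (by decide +kernel)
                (CovZ.leaf K2_ok TB_l10892 _)
                (CovZ.leaf K2_ok TB_l10893 _))))))
           (CovZ.subM 146783911423364576743092537299333564210980159308376929963464675996307748420939557826711097389690290920488960 (by decide +kernel)
            (CovZ.n1 (-27504, 1584) (by decide +kernel)
             (CovZ.n2 (-27504, 1536) (by decide +kernel)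
              (CovZ.n2 (-27528, 1560) (by decide +kernel)
               (CovZ.badM (by decide +kernel))
               (CovZ.n1 (-27528, 1536) (by decide +kernel)
                (CovZ.leaf K2_ok TB_l10897 _)
                (CovZ.leaf K2_ok TB_l10898 _)))
              (CovZ.badM (by decide +kernel)))
             (CovZ.n1 (-27552, 1584) (by decide +kernel)
              (CovZ.badM (by decide +kernel))
              (CovZ.n1 (-27528, 1560) (by decide +kernel)
               (CovZ.n2 (-27552, 1560) (by decide +kernel)
                (CovZ.leaf K2_ok TB_l10901 _)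
                (CovZ.leaf K2_ok TB_l10902 _))
               (CovZ.badM (by decide +kernel))))))))
         (CovZ.n1 (-27360, 1632) (by decide +kernel)
          (CovZ.n2 (-27360, 1536) (by decide +kernel)
           (CovZ.badM (by decide +kernel))
           (CovZ.badM (by decide +kernel)))
          (CovZ.badM (by decide +kernel)))))
       (CovZ.badM (by decide +kernel))))
     (CovZ.badM (by decide +kernel)))))
    (CovZ.topM TB_LL 146783911423364576870407285938810043981770220196966862396619588543571821180841066072684396125713198460436480 (by decide +kernel) (CovZ.n0 (-26880, 2304) (by decide +kernel)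
    (CovZ.n2 (-27648, 2304) (by decide +kernel)
     (CovZ.badM (by decide +kernel))
     (CovZ.n1 (-27264, 1920) (by decide +kernel)
      (CovZ.n2 (-27648, 1920) (by decide +kernel)
       (CovZ.badM (by decide +kernel))
       (CovZ.n1 (-27456, 1728) (by decide +kernel)
        (CovZ.n2 (-27648, 1728) (by decide +kernel)
         (CovZ.badM (by decide +kernel))
         (CovZ.n1 (-27552, 1632) (by decide +kernel)
          (CovZ.n2 (-27648, 1632) (by decide +kernel)
           (CovZ.subM 862028741737065207743961561849588368590014330934657024 (by decide +kernel)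
            (CovZ.n2 (-27600, 1680) (by decide +kernel)
             (CovZ.n2 (-27600, 1632) (by decide +kernel)
              (CovZ.n2 (-27624, 1656) (by decide +kernel)
               (CovZ.badM (by decide +kernel))
               (CovZ.n1 (-27624, 1632) (by decide +kernel)
                (CovZ.n2 (-27636, 1644) (by decide +kernel)
                 (CovZ.badM (by decide +kernel))
                 (CovZ.n1 (-27636, 1632) (by decide +kernel)
                  (CovZ.n2 (-27642, 1638) (by decide +kernel)
                   (CovZ.badM (by decide +kernel))
                   (CovZ.leaf K2_ok TB_l39561 _))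
                  (CovZ.badM (by decide +kernel))))
                (CovZ.badM (by decide +kernel))))
              (CovZ.badM (by decide +kernel)))
             (CovZ.n1 (-27648, 1680) (by decide +kernel)
              (CovZ.badM (by decide +kernel))
              (CovZ.n1 (-27624, 1656) (by decide +kernel)
               (CovZ.n2 (-27648, 1656) (by decide +kernel)
                (CovZ.n2 (-27636, 1668) (by decide +kernel)
                 (CovZ.n2 (-27636, 1656) (by decide +kernel)
                  (CovZ.n2 (-27642, 1662) (by decide +kernel)
                   (CovZ.badM (by decide +kernel))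
                   (CovZ.leaf K2_ok TB_l39562 _))
                  (CovZ.badM (by decide +kernel)))
                 (CovZ.leaf K2_ok TB_l39563 _))
                (CovZ.n1 (-27636, 1644) (by decide +kernel)
                 (CovZ.leaf K2_ok TB_l39564 _)
                 (CovZ.leaf K2_ok TB_l39565 _)))
               (CovZ.n1 (-27624, 1680) (by decide +kernel)
                (CovZ.badM (by decide +kernel))
                (CovZ.n1 (-27636, 1668) (by decide +kernel)
                 (CovZ.badM (by decide +kernel))
                 (CovZ.badM (by decide +kernel))))))))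
           (CovZ.n1 (-27600, 1584) (by decide +kernel)
            (CovZ.n2 (-27648, 1584) (by decide +kernel)
             (CovZ.subM 146783911423364576743092537299333564210980159308376930825493417733370233905965752168591758982845167709454336 (by decide +kernel)
              (CovZ.n2 (-27624, 1608) (by decide +kernel)
               (CovZ.n2 (-27624, 1584) (by decide +kernel)
                (CovZ.leaf K2_ok TB_l10908 _)
                (CovZ.n1 (-27612, 1596) (by decide +kernel)
                 (CovZ.leaf K2_ok TB_l10909 _)
                 (CovZ.leaf K2_ok TB_l10910 _)))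
               (CovZ.n1 (-27648, 1608) (by decide +kernel)
                (CovZ.leaf K2_ok TB_l10911 _)
                (CovZ.n1 (-27636, 1596) (by decide +kernel)
                 (CovZ.leaf K2_ok TB_l10912 _)
                 (CovZ.leaf K2_ok TB_l10913 _)))))
             (CovZ.n1 (-27624, 1560) (by decide +kernel)
              (CovZ.n2 (-27648, 1560) (by decide +kernel)
               (CovZ.leaf K2_ok TB_l10914 _)
               (CovZ.leaf K2_ok TB_l10915 _))
              (CovZ.n1 (-27624, 1584) (by decide +kernel)
               (CovZ.leaf K2_ok TB_l10916 _)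
               (CovZ.leaf K2_ok TB_l10917 _))))
            (CovZ.subM 146783911423364576743092537299333564210980159306769992781234427457828271813624589566069555989062374874152960 (by decide +kernel)
             (CovZ.n1 (-27600, 1632) (by decide +kernel)
              (CovZ.n2 (-27576, 1608) (by decide +kernel)
               (CovZ.n2 (-27600, 1608) (by decide +kernel)
                (CovZ.badM (by decide +kernel))
                (CovZ.n1 (-27588, 1596) (by decide +kernel)
                 (CovZ.leaf K2_ok TB_l10920 _)
                 (CovZ.badM (by decide +kernel))))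
               (CovZ.badM (by decide +kernel)))
              (CovZ.n1 (-27624, 1608) (by decide +kernel)
               (CovZ.n2 (-27624, 1632) (by decide +kernel)
                (CovZ.n2 (-27612, 1620) (by decide +kernel)
                 (CovZ.leaf K2_ok TB_l10923 _)
                 (CovZ.badM (by decide +kernel)))
                (CovZ.n1 (-27636, 1620) (by decide +kernel)
                 (CovZ.leaf K2_ok TB_l10925 _)
                 (CovZ.leaf K2_ok TB_l10926 _)))
               (CovZ.n1 (-27600, 1608) (by decide +kernel)
                (CovZ.n2 (-27612, 1596) (by decide +kernel)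
                 (CovZ.leaf K2_ok TB_l10927 _)
                 (CovZ.leaf K2_ok TB_l10928 _))
                (CovZ.n1 (-27612, 1620) (by decide +kernel)
                 (CovZ.badM (by decide +kernel))
                 (CovZ.leaf K2_ok TB_l10930 _))))))))
          (CovZ.n1 (-27552, 1728) (by decide +kernel)
           (CovZ.badM (by decide +kernel))
           (CovZ.n1 (-27600, 1680) (by decide +kernel)
            (CovZ.badM (by decide +kernel))
            (CovZ.badM (by decide +kernel))))))
        (CovZ.badM (by decide +kernel))))
      (CovZ.badM (by decide +kernel))))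
    (CovZ.badM (by decide +kernel))))

theorem TB_s4_4 : SqZ TB_M TB_L [0, 7, 6, 1] (-32256) (-4608) 1536 4 4 :=
  SqZ.mk (a := (-26112)) (b := (-24576)) (c := 1536) (d := 3072) (by norm_num) (by norm_num) (by norm_num) (by norm_num)
    (CovZ.topM TB_LL 0 (by decide +kernel) (CovZ.badM (by decide +kernel)))
    (CovZ.topM TB_LL 0 (by decide +kernel) (CovZ.badM (by decide +kernel)))

theorem TB_s5_4 : SqZ TB_M TB_L [0, 7, 6, 1] (-32256) (-4608) 1536 5 4 :=
  SqZ.mk (a := (-24576)) (b := (-23040)) (c := 1536) (d := 3072) (by norm_num) (by norm_num) (by norm_num) (by norm_num)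
    (CovZ.topM TB_LL 0 (by decide +kernel) (CovZ.badM (by decide +kernel)))
    (CovZ.topM TB_LL 0 (by decide +kernel) (CovZ.badM (by decide +kernel)))

theorem TB_s6_4 : SqZ TB_M TB_L [0, 7, 6, 1] (-32256) (-4608) 1536 6 4 :=
  SqZ.mk (a := (-23040)) (b := (-21504)) (c := 1536) (d := 3072) (by norm_num) (by norm_num) (by norm_num) (by norm_num)
    (CovZ.topM TB_LL 0 (by decide +kernel) (CovZ.badM (by decide +kernel)))
    (CovZ.topM TB_LL 0 (by decide +kernel) (CovZ.badM (by decide +kernel)))

theorem TB_s7_4 : SqZ TB_M TB_L [0, 7, 6, 1] (-32256) (-4608) 1536 7 4 :=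
  SqZ.mk (a := (-21504)) (b := (-19968)) (c := 1536) (d := 3072) (by norm_num) (by norm_num) (by norm_num) (by norm_num)
    (CovZ.topM TB_LL 0 (by decide +kernel) (CovZ.badM (by decide +kernel)))
    (CovZ.topM TB_LL 0 (by decide +kernel) (CovZ.badM (by decide +kernel)))

theorem TB_s8_4 : SqZ TB_M TB_L [0, 7, 6, 1] (-32256) (-4608) 1536 8 4 :=
  SqZ.mk (a := (-19968)) (b := (-18432)) (c := 1536) (d := 3072) (by norm_num) (by norm_num) (by norm_num) (by norm_num)
    (CovZ.topM TB_LL 0 (by decide +kernel) (CovZ.badM (by decide +kernel)))
    (CovZ.topM TB_LL 0 (by decide +kernel) (CovZ.badM (by decide +kernel)))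

theorem TB_s9_4 : SqZ TB_M TB_L [0, 7, 6, 1] (-32256) (-4608) 1536 9 4 :=
  SqZ.mk (a := (-18432)) (b := (-16896)) (c := 1536) (d := 3072) (by norm_num) (by norm_num) (by norm_num) (by norm_num)
    (CovZ.topM TB_LL 0 (by decide +kernel) (CovZ.badM (by decide +kernel)))
    (CovZ.topM TB_LL 0 (by decide +kernel) (CovZ.badM (by decide +kernel)))

theorem TB_s10_4 : SqZ TB_M TB_L [0, 7, 6, 1] (-32256) (-4608) 1536 10 4 :=
  SqZ.mk (a := (-16896)) (b := (-15360)) (c := 1536) (d := 3072) (by norm_num) (by norm_num) (by norm_num) (by norm_num)
    (CovZ.topM TB_LL 0 (by decide +kernel) (CovZ.badM (by decide +kernel)))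
    (CovZ.topM TB_LL 0 (by decide +kernel) (CovZ.badM (by decide +kernel)))

theorem TB_s11_4 : SqZ TB_M TB_L [0, 7, 6, 1] (-32256) (-4608) 1536 11 4 :=
  SqZ.mk (a := (-15360)) (b := (-13824)) (c := 1536) (d := 3072) (by norm_num) (by norm_num) (by norm_num) (by norm_num)
    (CovZ.topM TB_LL 0 (by decide +kernel) (CovZ.badM (by decide +kernel)))
    (CovZ.topM TB_LL 0 (by decide +kernel) (CovZ.badM (by decide +kernel)))

theorem TB_s12_4 : SqZ TB_M TB_L [0, 7, 6, 1] (-32256) (-4608) 1536 12 4 :=
  SqZ.mk (a := (-13824)) (b := (-12288)) (c := 1536) (d := 3072) (by norm_num) (by norm_num) (by norm_num) (by norm_num)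
    (CovZ.topM TB_LL 0 (by decide +kernel) (CovZ.badM (by decide +kernel)))
    (CovZ.topM TB_LL 0 (by decide +kernel) (CovZ.badM (by decide +kernel)))

theorem TB_s0_5 : SqZ TB_M TB_L [0, 7, 6, 1] (-32256) (-4608) 1536 0 5 :=
  SqZ.mk (a := (-32256)) (b := (-30720)) (c := 3072) (d := 4608) (by norm_num) (by norm_num) (by norm_num) (by norm_num)
    (CovZ.topM TB_LL 0 (by decide +kernel) (CovZ.badM (by decide +kernel)))
    (CovZ.topM TB_LL 2085924839766513752338888384931203236916703635113918720651407820138886450957656787131799961600 (by decide +kernel) (CovZ.n0 (-31488, 3840) (by decide +kernel)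
    (CovZ.badM (by decide +kernel))
    (CovZ.n1 (-31488, 4608) (by decide +kernel)
     (CovZ.n2 (-31104, 4224) (by decide +kernel)
      (CovZ.badM (by decide +kernel))
      (CovZ.n1 (-31104, 4608) (by decide +kernel)
       (CovZ.badM (by decide +kernel))
       (CovZ.badM (by decide +kernel))))
     (CovZ.badM (by decide +kernel)))))

theorem TB_s1_5 : SqZ TB_M TB_L [0, 7, 6, 1] (-32256) (-4608) 1536 1 5 :=
  SqZ.mk (a := (-30720)) (b := (-29184)) (c := 3072) (d := 4608) (by norm_num) (by norm_num) (by norm_num) (by norm_num)
    (CovZ.topM TB_LL 0 (by decide +kernel) (CovZ.badM (by decide +kernel)))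
    (CovZ.topM TB_LL 49039857307708443467467104868809893875799651909875269632 (by decide +kernel) (CovZ.n0 (-29952, 3840) (by decide +kernel)
    (CovZ.badM (by decide +kernel))
    (CovZ.n1 (-29952, 4608) (by decide +kernel)
     (CovZ.badM (by decide +kernel))
     (CovZ.badM (by decide +kernel)))))

theorem TB_s2_5 : SqZ TB_M TB_L [0, 7, 6, 1] (-32256) (-4608) 1536 2 5 :=
  SqZ.mk (a := (-29184)) (b := (-27648)) (c := 3072) (d := 4608) (by norm_num) (by norm_num) (by norm_num) (by norm_num)
    (CovZ.topM TB_LL 766247770432944429179173513575154591809369561091801088 (by decide +kernel) (CovZ.n2 (-28416, 3840) (by decide +kernel)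
    (CovZ.badM (by decide +kernel))
    (CovZ.n1 (-28416, 3072) (by decide +kernel)
     (CovZ.badM (by decide +kernel))
     (CovZ.badM (by decide +kernel)))))
    (CovZ.topM TB_LL 766247770432944429179173513575154591809369561091801088 (by decide +kernel) (CovZ.n0 (-28416, 3840) (by decide +kernel)
    (CovZ.badM (by decide +kernel))
    (CovZ.badM (by decide +kernel))))

theorem TB_s3_5 : SqZ TB_M TB_L [0, 7, 6, 1] (-32256) (-4608) 1536 3 5 :=
  SqZ.mk (a := (-27648)) (b := (-26112)) (c := 3072) (d := 4608) (by norm_num) (by norm_num) (by norm_num) (by norm_num)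
    (CovZ.topM TB_LL 0 (by decide +kernel) (CovZ.badM (by decide +kernel)))
    (CovZ.topM TB_LL 0 (by decide +kernel) (CovZ.badM (by decide +kernel)))

theorem TB_s4_5 : SqZ TB_M TB_L [0, 7, 6, 1] (-32256) (-4608) 1536 4 5 :=
  SqZ.mk (a := (-26112)) (b := (-24576)) (c := 3072) (d := 4608) (by norm_num) (by norm_num) (by norm_num) (by norm_num)
    (CovZ.topM TB_LL 0 (by decide +kernel) (CovZ.badM (by decide +kernel)))
    (CovZ.topM TB_LL 0 (by decide +kernel) (CovZ.badM (by decide +kernel)))

theorem TB_s5_5 : SqZ TB_M TB_L [0, 7, 6, 1] (-32256) (-4608) 1536 5 5 :=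
  SqZ.mk (a := (-24576)) (b := (-23040)) (c := 3072) (d := 4608) (by norm_num) (by norm_num) (by norm_num) (by norm_num)
    (CovZ.topM TB_LL 0 (by decide +kernel) (CovZ.badM (by decide +kernel)))
    (CovZ.topM TB_LL 0 (by decide +kernel) (CovZ.badM (by decide +kernel)))

theorem TB_s6_5 : SqZ TB_M TB_L [0, 7, 6, 1] (-32256) (-4608) 1536 6 5 :=
  SqZ.mk (a := (-23040)) (b := (-21504)) (c := 3072) (d := 4608) (by norm_num) (by norm_num) (by norm_num) (by norm_num)
    (CovZ.topM TB_LL 0 (by decide +kernel) (CovZ.badM (by decide +kernel)))
    (CovZ.topM TB_LL 105312291668557186697918027683670432318895095400549111254310977536 (by decide +kernel) (CovZ.n0 (-22272, 3840) (by decide +kernel)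
    (CovZ.badM (by decide +kernel))
    (CovZ.n1 (-22272, 4608) (by decide +kernel)
     (CovZ.badM (by decide +kernel))
     (CovZ.badM (by decide +kernel)))))

theorem TB_s7_5 : SqZ TB_M TB_L [0, 7, 6, 1] (-32256) (-4608) 1536 7 5 :=
  SqZ.mk (a := (-21504)) (b := (-19968)) (c := 3072) (d := 4608) (by norm_num) (by norm_num) (by norm_num) (by norm_num)
    (CovZ.topM TB_LL 0 (by decide +kernel) (CovZ.badM (by decide +kernel)))
    (CovZ.topM TB_LL 0 (by decide +kernel) (CovZ.badM (by decide +kernel)))

theorem TB_s8_5 : SqZ TB_M TB_L [0, 7, 6, 1] (-32256) (-4608) 1536 8 5 :=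
  SqZ.mk (a := (-19968)) (b := (-18432)) (c := 3072) (d := 4608) (by norm_num) (by norm_num) (by norm_num) (by norm_num)
    (CovZ.topM TB_LL 0 (by decide +kernel) (CovZ.badM (by decide +kernel)))
    (CovZ.topM TB_LL 0 (by decide +kernel) (CovZ.badM (by decide +kernel)))

theorem TB_s9_5 : SqZ TB_M TB_L [0, 7, 6, 1] (-32256) (-4608) 1536 9 5 :=
  SqZ.mk (a := (-18432)) (b := (-16896)) (c := 3072) (d := 4608) (by norm_num) (by norm_num) (by norm_num) (by norm_num)
    (CovZ.topM TB_LL 0 (by decide +kernel) (CovZ.badM (by decide +kernel)))
    (CovZ.topM TB_LL 0 (by decide +kernel) (CovZ.badM (by decide +kernel)))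

theorem TB_s10_5 : SqZ TB_M TB_L [0, 7, 6, 1] (-32256) (-4608) 1536 10 5 :=
  SqZ.mk (a := (-16896)) (b := (-15360)) (c := 3072) (d := 4608) (by norm_num) (by norm_num) (by norm_num) (by norm_num)
    (CovZ.topM TB_LL 0 (by decide +kernel) (CovZ.badM (by decide +kernel)))
    (CovZ.topM TB_LL 0 (by decide +kernel) (CovZ.badM (by decide +kernel)))

theorem TB_s11_5 : SqZ TB_M TB_L [0, 7, 6, 1] (-32256) (-4608) 1536 11 5 :=
  SqZ.mk (a := (-15360)) (b := (-13824)) (c := 3072) (d := 4608) (by norm_num) (by norm_num) (by norm_num) (by norm_num)
    (CovZ.topM TB_LL 0 (by decide +kernel) (CovZ.badM (by decide +kernel)))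
    (CovZ.topM TB_LL 0 (by decide +kernel) (CovZ.badM (by decide +kernel)))

theorem TB_s12_5 : SqZ TB_M TB_L [0, 7, 6, 1] (-32256) (-4608) 1536 12 5 :=
  SqZ.mk (a := (-13824)) (b := (-12288)) (c := 3072) (d := 4608) (by norm_num) (by norm_num) (by norm_num) (by norm_num)
    (CovZ.topM TB_LL 0 (by decide +kernel) (CovZ.badM (by decide +kernel)))
    (CovZ.topM TB_LL 0 (by decide +kernel) (CovZ.badM (by decide +kernel)))

theorem TB_s0_6 : SqZ TB_M TB_L [0, 7, 6, 1] (-32256) (-4608) 1536 0 6 :=
  SqZ.mk (a := (-32256)) (b := (-30720)) (c := 4608) (d := 6144) (by norm_num) (by norm_num) (by norm_num) (by norm_num)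
    (CovZ.topM TB_LL 603580031050075214568786047986113315572886838087991686924121045696074321436944805819289549095782169096720744448 (by decide +kernel) (CovZ.n2 (-31488, 5376) (by decide +kernel)
    (CovZ.n2 (-30720, 5376) (by decide +kernel)
     (CovZ.n2 (-31104, 4992) (by decide +kernel)
      TB_u127
      TB_u128)
     (CovZ.n1 (-31104, 5760) (by decide +kernel)
      (CovZ.n2 (-30720, 5760) (by decide +kernel)
       (CovZ.n2 (-30912, 5568) (by decide +kernel)
        (CovZ.n2 (-30912, 5760) (by decide +kernel)
         (CovZ.leaf K2_ok TB_l1302 _)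
         (CovZ.n1 (-31008, 5664) (by decide +kernel)
          (CovZ.leaf K2_ok TB_l1303 _)
          (CovZ.leaf K2_ok TB_l1304 _)))
        (CovZ.n1 (-30720, 5568) (by decide +kernel)
         (CovZ.n2 (-30816, 5472) (by decide +kernel)
          (CovZ.leaf K2_ok TB_l1305 _)
          (CovZ.leaf K2_ok TB_l1306 _))
         (CovZ.n1 (-30816, 5664) (by decide +kernel)
          (CovZ.leaf K2_ok TB_l1307 _)
          (CovZ.leaf K2_ok TB_l1308 _))))
       (CovZ.n1 (-30912, 5952) (by decide +kernel)
        (CovZ.leaf K2_ok TB_l1309 _)
        (CovZ.n1 (-30912, 5760) (by decide +kernel)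
         (CovZ.n2 (-31008, 5856) (by decide +kernel)
          (CovZ.leaf K2_ok TB_l1310 _)
          (CovZ.leaf K2_ok TB_l1311 _))
         (CovZ.leaf K2_ok TB_l1312 _))))
      (CovZ.n1 (-31104, 5376) (by decide +kernel)
       (CovZ.n2 (-31296, 5568) (by decide +kernel)
        (CovZ.n2 (-31104, 5568) (by decide +kernel)
         (CovZ.n2 (-31200, 5472) (by decide +kernel)
          (CovZ.n2 (-31200, 5568) (by decide +kernel)
           (CovZ.leaf K2_ok TB_l1313 _)
           (CovZ.leaf K2_ok TB_l1314 _))
          (CovZ.leaf K2_ok TB_l1315 _))
         (CovZ.n1 (-31200, 5664) (by decide +kernel)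
          (CovZ.leaf K2_ok TB_l1316 _)
          (CovZ.leaf K2_ok TB_l1317 _)))
        (CovZ.n1 (-31296, 5376) (by decide +kernel)
         (CovZ.subM 601226901190101306339707034235071948177471535710126718802256693054442581839638866882965065457038475403443830784 (by decide +kernel)
          (CovZ.n2 (-31392, 5472) (by decide +kernel)
           (CovZ.n2 (-31296, 5472) (by decide +kernel)
            (CovZ.leaf K2_ok TB_l1318 _)
            (CovZ.leaf K2_ok TB_l1319 _))
           (CovZ.n1 (-31392, 5376) (by decide +kernel)
            (CovZ.n2 (-31440, 5424) (by decide +kernel)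
             (CovZ.leaf K2_ok TB_l1320 _)
             (CovZ.leaf K2_ok TB_l1321 _))
            (CovZ.leaf K2_ok TB_l1322 _))))
         (CovZ.n1 (-31200, 5472) (by decide +kernel)
          (CovZ.n2 (-31200, 5376) (by decide +kernel)
           (CovZ.leaf K2_ok TB_l1323 _)
           (CovZ.leaf K2_ok TB_l1324 _))
          (CovZ.n1 (-31296, 5472) (by decide +kernel)
           (CovZ.leaf K2_ok TB_l1325 _)
           (CovZ.leaf K2_ok TB_l1326 _)))))
       (CovZ.n1 (-30912, 5568) (by decide +kernel)
        (CovZ.n2 (-30912, 5376) (by decide +kernel)
         (CovZ.n2 (-31008, 5472) (by decide +kernel)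
          (CovZ.leaf K2_ok TB_l1327 _)
          (CovZ.leaf K2_ok TB_l1328 _))
         (CovZ.n1 (-30816, 5472) (by decide +kernel)
          (CovZ.leaf K2_ok TB_l1329 _)
          (CovZ.leaf K2_ok TB_l1330 _)))
        (CovZ.n1 (-31104, 5568) (by decide +kernel)
         (CovZ.n2 (-31008, 5664) (by decide +kernel)
          (CovZ.leaf K2_ok TB_l1331 _)
          (CovZ.leaf K2_ok TB_l1332 _))
         (CovZ.n1 (-31008, 5472) (by decide +kernel)
          (CovZ.leaf K2_ok TB_l1333 _)
          (CovZ.leaf K2_ok TB_l1334 _)))))))
    (CovZ.n1 (-31488, 4608) (by decide +kernel)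
     TB_u131
     TB_u132)))
    (CovZ.topM TB_LL 603580031050075214568786047986113315572886838087991686924121045696074321436944805819289549095782169096720744448 (by decide +kernel) (CovZ.n0 (-31488, 5376) (by decide +kernel)
    (CovZ.subM 601226901190101306339707034235071948177471535710126718753216835746734138372171762014155171581238823493568561152 (by decide +kernel)
     (CovZ.n2 (-32256, 5376) (by decide +kernel)
      (CovZ.n2 (-31872, 5760) (by decide +kernel)
       (CovZ.n2 (-31872, 5376) (by decide +kernel)
        (CovZ.subM 601226901190101306339707032778070279008174732520529886901066488712245510429339761526706943586500787976175353856 (by decide +kernel)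
         (CovZ.n2 (-32064, 5568) (by decide +kernel)
          (CovZ.n2 (-31872, 5568) (by decide +kernel)
           (CovZ.badM (by decide +kernel))
           (CovZ.n1 (-31968, 5664) (by decide +kernel)
            (CovZ.n2 (-31872, 5664) (by decide +kernel)
             (CovZ.leaf K2_ok TB_l1489 _)
             (CovZ.leaf K2_ok TB_l1490 _))
            (CovZ.badM (by decide +kernel))))
          (CovZ.badM (by decide +kernel))))
        (CovZ.n1 (-31680, 5568) (by decide +kernel)
         (CovZ.n2 (-31680, 5376) (by decide +kernel)
          (CovZ.subM 601226901190101306339707032778070279008174732520529886901066488712245510429339761526706943586500787976175353856 (by decide +kernel)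
           (CovZ.n2 (-31776, 5472) (by decide +kernel)
            (CovZ.n2 (-31680, 5472) (by decide +kernel)
             (CovZ.n2 (-31728, 5424) (by decide +kernel)
              (CovZ.leaf K2_ok TB_l1522 _)
              (CovZ.leaf K2_ok TB_l1523 _))
             (CovZ.n1 (-31728, 5520) (by decide +kernel)
              (CovZ.leaf K2_ok TB_l1524 _)
              (CovZ.leaf K2_ok TB_l1525 _)))
            (CovZ.badM (by decide +kernel))))
          (CovZ.n1 (-31584, 5472) (by decide +kernel)
           (CovZ.n2 (-31584, 5376) (by decide +kernel)
            (CovZ.n2 (-31632, 5424) (by decide +kernel)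
             (CovZ.leaf K2_ok TB_l1531 _)
             (CovZ.leaf K2_ok TB_l1532 _))
            (CovZ.n1 (-31536, 5424) (by decide +kernel)
             (CovZ.leaf K2_ok TB_l1533 _)
             (CovZ.leaf K2_ok TB_l1534 _)))
           (CovZ.n1 (-31680, 5472) (by decide +kernel)
            (CovZ.leaf K2_ok TB_l1535 _)
            (CovZ.n1 (-31632, 5424) (by decide +kernel)
             (CovZ.leaf K2_ok TB_l1536 _)
             (CovZ.leaf K2_ok TB_l1537 _)))))
         (CovZ.subM 601226901190101306339707032778070279008174732520529886901066488712245510429339761526706943586500787976175353856 (by decide +kernel)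
          (CovZ.n1 (-31872, 5568) (by decide +kernel)
           (CovZ.n2 (-31776, 5664) (by decide +kernel)
            (CovZ.n2 (-31776, 5568) (by decide +kernel)
             (CovZ.leaf K2_ok TB_l1538 _)
             (CovZ.leaf K2_ok TB_l1539 _))
            (CovZ.n1 (-31872, 5664) (by decide +kernel)
             (CovZ.leaf K2_ok TB_l1540 _)
             (CovZ.leaf K2_ok TB_l1541 _)))
           (CovZ.n1 (-31776, 5472) (by decide +kernel)
            (CovZ.badM (by decide +kernel))
            (CovZ.n1 (-31776, 5568) (by decide +kernel)
             (CovZ.leaf K2_ok TB_l1547 _)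
             (CovZ.leaf K2_ok TB_l1548 _)))))))
       (CovZ.subM 601226901190101306339707032778070279008174732520529886901066488712245510429339761526706943586500787976175353856 (by decide +kernel)
        (CovZ.n1 (-32256, 5760) (by decide +kernel)
         (CovZ.n2 (-32064, 5952) (by decide +kernel)
          (CovZ.n2 (-32064, 5760) (by decide +kernel)
           (CovZ.n2 (-32160, 5856) (by decide +kernel)
            (CovZ.leaf K2_ok TB_l1549 _)
            (CovZ.badM (by decide +kernel)))
           (CovZ.n1 (-31968, 5856) (by decide +kernel)
            (CovZ.n2 (-31968, 5760) (by decide +kernel)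
             (CovZ.leaf K2_ok TB_l1552 _)
             (CovZ.leaf K2_ok TB_l1553 _))
            (CovZ.leaf K2_ok TB_l1554 _)))
          (CovZ.n1 (-32256, 5952) (by decide +kernel)
           (CovZ.n2 (-32160, 6048) (by decide +kernel)
            (CovZ.leaf K2_ok TB_l1555 _)
            (CovZ.leaf K2_ok TB_l48374 _))
           (CovZ.n1 (-32160, 5856) (by decide +kernel)
            (CovZ.badM (by decide +kernel))
            (CovZ.n1 (-32160, 5952) (by decide +kernel)
             (CovZ.leaf K2_ok TB_l1556 _)
             (CovZ.leaf K2_ok TB_l48375 _)))))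
         (CovZ.n1 (-32064, 5568) (by decide +kernel)
          (CovZ.badM (by decide +kernel))
          (CovZ.n1 (-32064, 5760) (by decide +kernel)
           (CovZ.n2 (-31968, 5664) (by decide +kernel)
            (CovZ.badM (by decide +kernel))
            (CovZ.n1 (-31968, 5760) (by decide +kernel)
             (CovZ.leaf K2_ok TB_l1563 _)
             (CovZ.leaf K2_ok TB_l1564 _)))
           (CovZ.badM (by decide +kernel)))))))
      (CovZ.n1 (-31872, 4992) (by decide +kernel)
       (CovZ.badM (by decide +kernel))
       (CovZ.n1 (-31872, 5376) (by decide +kernel)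
        (CovZ.n2 (-31680, 5184) (by decide +kernel)
         (CovZ.badM (by decide +kernel))
         (CovZ.n1 (-31680, 5376) (by decide +kernel)
          (CovZ.n2 (-31584, 5280) (by decide +kernel)
           (CovZ.badM (by decide +kernel))
           (CovZ.n1 (-31584, 5376) (by decide +kernel)
            (CovZ.n2 (-31536, 5328) (by decide +kernel)
             (CovZ.leaf K2_ok TB_l1613 _)
             (CovZ.leaf K2_ok TB_l1614 _))
            (CovZ.n1 (-31632, 5328) (by decide +kernel)
             (CovZ.n2 (-31632, 5376) (by decide +kernel)
              (CovZ.leaf K2_ok TB_l1615 _)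
              (CovZ.leaf K2_ok TB_l1616 _))
             (CovZ.leaf K2_ok TB_l1617 _))))
          (CovZ.badM (by decide +kernel))))
        (CovZ.badM (by decide +kernel))))))
    (CovZ.n1 (-31488, 6144) (by decide +kernel)
     (CovZ.n2 (-31104, 5760) (by decide +kernel)
      (CovZ.n2 (-31488, 5760) (by decide +kernel)
       (CovZ.n2 (-31296, 5952) (by decide +kernel)
        (CovZ.n2 (-31296, 5760) (by decide +kernel)
         (CovZ.n2 (-31392, 5856) (by decide +kernel)
          (CovZ.leaf K2_ok TB_l1702 _)
          (CovZ.leaf K2_ok TB_l1703 _))
         (CovZ.leaf K2_ok TB_l1704 _))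
        (CovZ.n1 (-31488, 5952) (by decide +kernel)
         (CovZ.leaf K2_ok TB_l1705 _)
         (CovZ.n1 (-31392, 5856) (by decide +kernel)
          (CovZ.leaf K2_ok TB_l1706 _)
          (CovZ.leaf K2_ok TB_l1707 _))))
       (CovZ.n1 (-31296, 5568) (by decide +kernel)
        (CovZ.subM 601226901190101306339707034235071948177471535710126718802256693054442581839638866882965065457038475403443830784 (by decide +kernel)
         (CovZ.n2 (-31488, 5568) (by decide +kernel)
          (CovZ.n2 (-31392, 5664) (by decide +kernel)
           (CovZ.leaf K2_ok TB_l1708 _)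
           (CovZ.leaf K2_ok TB_l1709 _))
          (CovZ.n1 (-31392, 5472) (by decide +kernel)
           (CovZ.n2 (-31488, 5472) (by decide +kernel)
            (CovZ.leaf K2_ok TB_l1710 _)
            (CovZ.n1 (-31440, 5424) (by decide +kernel)
             (CovZ.leaf K2_ok TB_l1711 _)
             (CovZ.leaf K2_ok TB_l1712 _)))
           (CovZ.n1 (-31392, 5568) (by decide +kernel)
            (CovZ.leaf K2_ok TB_l1713 _)
            (CovZ.leaf K2_ok TB_l1714 _)))))
        (CovZ.n1 (-31296, 5760) (by decide +kernel)
         (CovZ.n2 (-31200, 5664) (by decide +kernel)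
          (CovZ.leaf K2_ok TB_l1715 _)
          (CovZ.leaf K2_ok TB_l1716 _))
         (CovZ.n1 (-31392, 5664) (by decide +kernel)
          (CovZ.leaf K2_ok TB_l1717 _)
          (CovZ.leaf K2_ok TB_l1718 _)))))
      (CovZ.n1 (-31104, 6144) (by decide +kernel)
       (CovZ.n2 (-30912, 5952) (by decide +kernel)
        (CovZ.n2 (-31104, 5952) (by decide +kernel)
         (CovZ.leaf K2_ok TB_l1719 _)
         (CovZ.leaf K2_ok TB_l1720 _))
        (CovZ.n1 (-30912, 6144) (by decide +kernel)
         (CovZ.leaf K2_ok TB_l1721 _)
         (CovZ.leaf K2_ok TB_l1722 _)))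
       (CovZ.n1 (-31296, 5952) (by decide +kernel)
        (CovZ.n2 (-31296, 6144) (by decide +kernel)
         (CovZ.leaf K2_ok TB_l1723 _)
         (CovZ.leaf K2_ok TB_l1724 _))
        (CovZ.n1 (-31104, 5952) (by decide +kernel)
         (CovZ.leaf K2_ok TB_l1725 _)
         (CovZ.leaf K2_ok TB_l1726 _)))))
     (CovZ.subM 601226901190101308425631874001585700516359920641329955718960328168361302491046687021851516414695262535242743808 (by decide +kernel)
      (CovZ.n1 (-31872, 5760) (by decide +kernel)
       (CovZ.n2 (-31872, 6144) (by decide +kernel)
        (CovZ.n2 (-31680, 5952) (by decide +kernel)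
         (CovZ.n2 (-31872, 5952) (by decide +kernel)
          (CovZ.leaf K2_ok TB_l1727 _)
          (CovZ.n1 (-31776, 5856) (by decide +kernel)
           (CovZ.leaf K2_ok TB_l1728 _)
           (CovZ.leaf K2_ok TB_l1729 _)))
         (CovZ.n1 (-31680, 6144) (by decide +kernel)
          (CovZ.leaf K2_ok TB_l1730 _)
          (CovZ.leaf K2_ok TB_l1731 _)))
        (CovZ.subM 601226901190101306339707032778070279008174732520529886950106346019953953896806866395516837462300439886050623488 (by decide +kernel)
         (CovZ.n1 (-32064, 5952) (by decide +kernel)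
          (CovZ.n2 (-32064, 6144) (by decide +kernel)
           (CovZ.n2 (-31968, 6048) (by decide +kernel)
            (CovZ.leaf K2_ok TB_l1732 _)
            (CovZ.leaf K2_ok TB_l1733 _))
           (CovZ.n1 (-32160, 6048) (by decide +kernel)
            (CovZ.leaf K2_ok TB_l1734 _)
            (CovZ.leaf K2_ok TB_l1735 _)))
          (CovZ.n1 (-31872, 5952) (by decide +kernel)
           (CovZ.n2 (-31968, 5856) (by decide +kernel)
            (CovZ.leaf K2_ok TB_l1736 _)
            (CovZ.leaf K2_ok TB_l1737 _))
           (CovZ.n1 (-31968, 6048) (by decide +kernel)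
            (CovZ.leaf K2_ok TB_l1738 _)
            (CovZ.leaf K2_ok TB_l1739 _))))))
       (CovZ.n1 (-31488, 5760) (by decide +kernel)
        (CovZ.n2 (-31680, 5568) (by decide +kernel)
         (CovZ.n2 (-31680, 5760) (by decide +kernel)
          (CovZ.n2 (-31584, 5664) (by decide +kernel)
           (CovZ.leaf K2_ok TB_l1740 _)
           (CovZ.n1 (-31584, 5760) (by decide +kernel)
            (CovZ.leaf K2_ok TB_l1741 _)
            (CovZ.leaf K2_ok TB_l1742 _)))
          (CovZ.n1 (-31776, 5664) (by decide +kernel)
           (CovZ.n2 (-31776, 5760) (by decide +kernel)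
            (CovZ.leaf K2_ok TB_l1743 _)
            (CovZ.leaf K2_ok TB_l1744 _))
           (CovZ.leaf K2_ok TB_l1745 _)))
         (CovZ.n1 (-31488, 5568) (by decide +kernel)
          (CovZ.n2 (-31584, 5472) (by decide +kernel)
           (CovZ.n2 (-31584, 5568) (by decide +kernel)
            (CovZ.leaf K2_ok TB_l1746 _)
            (CovZ.leaf K2_ok TB_l1747 _))
           (CovZ.n1 (-31488, 5472) (by decide +kernel)
            (CovZ.leaf K2_ok TB_l1748 _)
            (CovZ.leaf K2_ok TB_l1749 _)))
          (CovZ.n1 (-31584, 5664) (by decide +kernel)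
           (CovZ.leaf K2_ok TB_l1750 _)
           (CovZ.n1 (-31584, 5568) (by decide +kernel)
            (CovZ.leaf K2_ok TB_l1751 _)
            (CovZ.leaf K2_ok TB_l1752 _)))))
        (CovZ.n1 (-31680, 5952) (by decide +kernel)
         (CovZ.n2 (-31488, 5952) (by decide +kernel)
          (CovZ.n2 (-31584, 5856) (by decide +kernel)
           (CovZ.leaf K2_ok TB_l1753 _)
           (CovZ.leaf K2_ok TB_l1754 _))
          (CovZ.leaf K2_ok TB_l1755 _))
         (CovZ.n1 (-31680, 5760) (by decide +kernel)
          (CovZ.n2 (-31776, 5856) (by decide +kernel)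
           (CovZ.leaf K2_ok TB_l1756 _)
           (CovZ.leaf K2_ok TB_l1757 _))
          (CovZ.n1 (-31584, 5856) (by decide +kernel)
           (CovZ.leaf K2_ok TB_l1758 _)
           (CovZ.leaf K2_ok TB_l1759 _))))))))))

theorem TB_s1_6 : SqZ TB_M TB_L [0, 7, 6, 1] (-32256) (-4608) 1536 1 6 :=
  SqZ.mk (a := (-30720)) (b := (-29184)) (c := 4608) (d := 6144) (by norm_num) (by norm_num) (by norm_num) (by norm_num)
    (CovZ.topM TB_LL 5043457396718524389246931701604430553163522199506415261489068479864498082825964416475102425241764397900246224068411392 (by decide +kernel) (CovZ.n2 (-29952, 5376) (by decide +kernel)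
    (CovZ.n2 (-29184, 5376) (by decide +kernel)
     TB_u137
     TB_u138)
    (CovZ.n1 (-29952, 4608) (by decide +kernel)
     TB_u145
     TB_u146)))
    (CovZ.topM TB_LL 5043457396718524389246931701604430553163522199506415261489068479864498082825964416475102425241764397900246224068411392 (by decide +kernel) (CovZ.n0 (-29952, 5376) (by decide +kernel)
    TB_u149
    TB_u150))

theorem TB_s2_6 : SqZ TB_M TB_L [0, 7, 6, 1] (-32256) (-4608) 1536 2 6 :=
  SqZ.mk (a := (-29184)) (b := (-27648)) (c := 4608) (d := 6144) (by norm_num) (by norm_num) (by norm_num) (by norm_num)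
    (CovZ.topM TB_LL 5043457394365394529273023472541361742722320531872952156327596513869502811658601535404892151680296402947766973017096192 (by decide +kernel) (CovZ.n2 (-28416, 5376) (by decide +kernel)
    (CovZ.n2 (-27648, 5376) (by decide +kernel)
     TB_u155
     TB_u156)
    (CovZ.n1 (-28416, 4608) (by decide +kernel)
     TB_u159
     TB_u160)))
    (CovZ.topM TB_LL 5043457394365394529273025558466201509236072870761337087556544488321139080548932433169195523133568423203720972821856256 (by decide +kernel) (CovZ.n0 (-28416, 5376) (by decide +kernel)
    (CovZ.n2 (-29184, 5376) (by decide +kernel)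
     TB_u169
     TB_u170)
    (CovZ.n1 (-28416, 6144) (by decide +kernel)
     (CovZ.n2 (-28032, 5760) (by decide +kernel)
      (CovZ.n2 (-28416, 5760) (by decide +kernel)
       (CovZ.n2 (-28224, 5952) (by decide +kernel)
        (CovZ.n2 (-28224, 5760) (by decide +kernel)
         (CovZ.n2 (-28320, 5856) (by decide +kernel)
          (CovZ.leaf K2_ok TB_l8030 _)
          (CovZ.n1 (-28320, 5760) (by decide +kernel)
           (CovZ.leaf K2_ok TB_l8031 _)
           (CovZ.leaf K2_ok TB_l8032 _)))
         (CovZ.subM 5043456793138493339171719218759136677129072138056934343223338107165993959545340386814447708429541750481900459144511488 (by decide +kernel)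
          (CovZ.n1 (-28128, 5856) (by decide +kernel)
           (CovZ.n2 (-28128, 5760) (by decide +kernel)
            (CovZ.leaf K2_ok TB_l8033 _)
            (CovZ.n1 (-28080, 5808) (by decide +kernel)
             (CovZ.leaf K2_ok TB_l8034 _)
             (CovZ.leaf K2_ok TB_l8035 _)))
           (CovZ.n1 (-28224, 5856) (by decide +kernel)
            (CovZ.leaf K2_ok TB_l8036 _)
            (CovZ.leaf K2_ok TB_l8037 _)))))
        (CovZ.n1 (-28416, 5952) (by decide +kernel)
         (CovZ.n2 (-28320, 6048) (by decide +kernel)
          (CovZ.leaf K2_ok TB_l8038 _)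
          (CovZ.leaf K2_ok TB_l8039 _))
         (CovZ.n1 (-28320, 5856) (by decide +kernel)
          (CovZ.leaf K2_ok TB_l8040 _)
          (CovZ.leaf K2_ok TB_l8041 _))))
       (CovZ.subM 5043456793138493339171717132834327993317595410833684176066756201043464319101607735085856572728525180700310861568278528 (by decide +kernel)
        (CovZ.n1 (-28224, 5568) (by decide +kernel)
         (CovZ.n2 (-28416, 5568) (by decide +kernel)
          (CovZ.n2 (-28320, 5664) (by decide +kernel)
           (CovZ.n2 (-28320, 5568) (by decide +kernel)
            (CovZ.n2 (-28368, 5616) (by decide +kernel)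
             (CovZ.leaf K2_ok TB_l8042 _)
             (CovZ.leaf K2_ok TB_l8043 _))
            (CovZ.n1 (-28272, 5616) (by decide +kernel)
             (CovZ.leaf K2_ok TB_l8044 _)
             (CovZ.leaf K2_ok TB_l8045 _)))
           (CovZ.n1 (-28416, 5664) (by decide +kernel)
            (CovZ.leaf K2_ok TB_l8046 _)
            (CovZ.n1 (-28368, 5616) (by decide +kernel)
             (CovZ.leaf K2_ok TB_l8047 _)
             (CovZ.leaf K2_ok TB_l8048 _))))
          (CovZ.n1 (-28320, 5472) (by decide +kernel)
           (CovZ.n2 (-28416, 5472) (by decide +kernel)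
            (CovZ.n2 (-28368, 5520) (by decide +kernel)
             (CovZ.leaf K2_ok TB_l8049 _)
             (CovZ.leaf K2_ok TB_l8050 _))
            (CovZ.n1 (-28368, 5424) (by decide +kernel)
             (CovZ.leaf K2_ok TB_l8051 _)
             (CovZ.n1 (-28368, 5472) (by decide +kernel)
              (CovZ.n2 (-28344, 5448) (by decide +kernel)
               (CovZ.leaf K2_ok TB_l8052 _)
               (CovZ.leaf K2_ok TB_l8053 _))
              (CovZ.leaf K2_ok TB_l8054 _))))
           (CovZ.n1 (-28320, 5568) (by decide +kernel)
            (CovZ.n2 (-28272, 5520) (by decide +kernel)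
             (CovZ.leaf K2_ok TB_l8055 _)
             (CovZ.leaf K2_ok TB_l8056 _))
            (CovZ.n1 (-28368, 5520) (by decide +kernel)
             (CovZ.leaf K2_ok TB_l8057 _)
             (CovZ.leaf K2_ok TB_l8058 _)))))
         (CovZ.n1 (-28224, 5760) (by decide +kernel)
          (CovZ.n2 (-28128, 5664) (by decide +kernel)
           (CovZ.n2 (-28224, 5664) (by decide +kernel)
            (CovZ.n2 (-28176, 5712) (by decide +kernel)
             (CovZ.leaf K2_ok TB_l8059 _)
             (CovZ.leaf K2_ok TB_l8060 _))
            (CovZ.n1 (-28176, 5616) (by decide +kernel)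
             (CovZ.leaf K2_ok TB_l8061 _)
             (CovZ.leaf K2_ok TB_l8062 _)))
           (CovZ.n1 (-28128, 5760) (by decide +kernel)
            (CovZ.n2 (-28080, 5712) (by decide +kernel)
             (CovZ.leaf K2_ok TB_l8063 _)
             (CovZ.leaf K2_ok TB_l8064 _))
            (CovZ.leaf K2_ok TB_l8065 _)))
          (CovZ.n1 (-28320, 5664) (by decide +kernel)
           (CovZ.n2 (-28320, 5760) (by decide +kernel)
            (CovZ.leaf K2_ok TB_l8066 _)
            (CovZ.leaf K2_ok TB_l8067 _))
           (CovZ.n1 (-28224, 5664) (by decide +kernel)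
            (CovZ.n2 (-28272, 5616) (by decide +kernel)
             (CovZ.leaf K2_ok TB_l8068 _)
             (CovZ.leaf K2_ok TB_l8069 _))
            (CovZ.leaf K2_ok TB_l8070 _)))))))
      (CovZ.n1 (-28032, 6144) (by decide +kernel)
       (CovZ.n2 (-27840, 5952) (by decide +kernel)
        (CovZ.subM 5043456793138493339171719218759136677129072138056934343249049115874137803954011785608818293209560489997653385630711808 (by decide +kernel)
         (CovZ.n2 (-28032, 5952) (by decide +kernel)
          (CovZ.n2 (-27936, 6048) (by decide +kernel)
           (CovZ.n2 (-27936, 5952) (by decide +kernel)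
            (CovZ.leaf K2_ok TB_l8071 _)
            (CovZ.leaf K2_ok TB_l8072 _))
           (CovZ.leaf K2_ok TB_l8073 _))
          (CovZ.n1 (-27936, 5856) (by decide +kernel)
           (CovZ.n2 (-28032, 5856) (by decide +kernel)
            (CovZ.leaf K2_ok TB_l8074 _)
            (CovZ.n1 (-27984, 5808) (by decide +kernel)
             (CovZ.leaf K2_ok TB_l8075 _)
             (CovZ.leaf K2_ok TB_l8076 _)))
           (CovZ.n1 (-27936, 5952) (by decide +kernel)
            (CovZ.n2 (-27888, 5904) (by decide +kernel)
             (CovZ.leaf K2_ok TB_l8077 _)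
             (CovZ.leaf K2_ok TB_l8078 _))
            (CovZ.leaf K2_ok TB_l8079 _)))))
        (CovZ.n1 (-27840, 6144) (by decide +kernel)
         (CovZ.subM 5043456793138493339171719218759136677129072138056934343249049115874137803954011764341170360650906523536740421137072128 (by decide +kernel)
          (CovZ.n2 (-27744, 6048) (by decide +kernel)
           (CovZ.n2 (-27840, 6048) (by decide +kernel)
            (CovZ.leaf K2_ok TB_l8080 _)
            (CovZ.n1 (-27792, 6000) (by decide +kernel)
             (CovZ.leaf K2_ok TB_l8081 _)
             (CovZ.leaf K2_ok TB_l8082 _)))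
           (CovZ.n1 (-27744, 6144) (by decide +kernel)
            (CovZ.leaf K2_ok TB_l8083 _)
            (CovZ.leaf K2_ok TB_l8084 _))))
         (CovZ.n1 (-27936, 6048) (by decide +kernel)
          (CovZ.leaf K2_ok TB_l8085 _)
          (CovZ.leaf K2_ok TB_l8086 _))))
       (CovZ.n1 (-28224, 5952) (by decide +kernel)
        (CovZ.n2 (-28224, 6144) (by decide +kernel)
         (CovZ.n2 (-28128, 6048) (by decide +kernel)
          (CovZ.leaf K2_ok TB_l8087 _)
          (CovZ.leaf K2_ok TB_l8088 _))
         (CovZ.leaf K2_ok TB_l8089 _))
        (CovZ.subM 5043456793138493339171719218759136677129072138056934343249049115874137803954011785608818293209560489997653385630711808 (by decide +kernel)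
         (CovZ.n1 (-28032, 5952) (by decide +kernel)
          (CovZ.n2 (-28128, 5856) (by decide +kernel)
           (CovZ.n2 (-28128, 5952) (by decide +kernel)
            (CovZ.leaf K2_ok TB_l8090 _)
            (CovZ.leaf K2_ok TB_l8091 _))
           (CovZ.n1 (-28032, 5856) (by decide +kernel)
            (CovZ.leaf K2_ok TB_l8092 _)
            (CovZ.leaf K2_ok TB_l8093 _)))
          (CovZ.leaf K2_ok TB_l8094 _))))))
     (CovZ.n1 (-28800, 5760) (by decide +kernel)
      (CovZ.n2 (-28800, 6144) (by decide +kernel)
       (CovZ.n2 (-28608, 5952) (by decide +kernel)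
        (CovZ.subM 5043456793138493339171719218759167759831347749722069107269993117747099432931125405699554219048833265266504546806398976 (by decide +kernel)
         (CovZ.n2 (-28800, 5952) (by decide +kernel)
          (CovZ.n2 (-28704, 6048) (by decide +kernel)
           (CovZ.leaf K2_ok TB_l8095 _)
           (CovZ.leaf K2_ok TB_l8096 _))
          (CovZ.n1 (-28704, 5856) (by decide +kernel)
           (CovZ.leaf K2_ok TB_l8097 _)
           (CovZ.leaf K2_ok TB_l8098 _))))
        (CovZ.n1 (-28608, 6144) (by decide +kernel)
         (CovZ.n2 (-28512, 6048) (by decide +kernel)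
          (CovZ.leaf K2_ok TB_l8099 _)
          (CovZ.leaf K2_ok TB_l8100 _))
         (CovZ.leaf K2_ok TB_l8101 _)))
       (CovZ.n1 (-28992, 5952) (by decide +kernel)
        (CovZ.n2 (-28992, 6144) (by decide +kernel)
         (CovZ.leaf K2_ok TB_l8102 _)
         (CovZ.leaf K2_ok TB_l8103 _))
        (CovZ.n1 (-28800, 5952) (by decide +kernel)
         (CovZ.n2 (-28896, 5856) (by decide +kernel)
          (CovZ.leaf K2_ok TB_l8104 _)
          (CovZ.leaf K2_ok TB_l8105 _))
         (CovZ.leaf K2_ok TB_l8106 _))))
      (CovZ.n1 (-28416, 5760) (by decide +kernel)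
       (CovZ.subM 5043456793138493339171719218759167759831347749722069107269993117747099432931125405699554219048833265266504546806398976 (by decide +kernel)
        (CovZ.n2 (-28608, 5568) (by decide +kernel)
         (CovZ.n2 (-28608, 5760) (by decide +kernel)
          (CovZ.n2 (-28512, 5664) (by decide +kernel)
           (CovZ.n2 (-28608, 5664) (by decide +kernel)
            (CovZ.leaf K2_ok TB_l8107 _)
            (CovZ.leaf K2_ok TB_l8108 _))
           (CovZ.n1 (-28512, 5760) (by decide +kernel)
            (CovZ.leaf K2_ok TB_l8109 _)
            (CovZ.leaf K2_ok TB_l8110 _)))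
          (CovZ.n1 (-28704, 5664) (by decide +kernel)
           (CovZ.n2 (-28704, 5760) (by decide +kernel)
            (CovZ.leaf K2_ok TB_l8111 _)
            (CovZ.leaf K2_ok TB_l8112 _))
           (CovZ.n1 (-28608, 5664) (by decide +kernel)
            (CovZ.leaf K2_ok TB_l8113 _)
            (CovZ.leaf K2_ok TB_l8114 _))))
         (CovZ.n1 (-28416, 5568) (by decide +kernel)
          (CovZ.n2 (-28512, 5472) (by decide +kernel)
           (CovZ.n2 (-28512, 5568) (by decide +kernel)
            (CovZ.n2 (-28464, 5520) (by decide +kernel)
             (CovZ.leaf K2_ok TB_l8115 _)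
             (CovZ.leaf K2_ok TB_l8116 _))
            (CovZ.leaf K2_ok TB_l8117 _))
           (CovZ.n1 (-28416, 5472) (by decide +kernel)
            (CovZ.n2 (-28464, 5424) (by decide +kernel)
             (CovZ.n2 (-28464, 5472) (by decide +kernel)
              (CovZ.leaf K2_ok TB_l8118 _)
              (CovZ.leaf K2_ok TB_l8119 _))
             (CovZ.leaf K2_ok TB_l8120 _))
            (CovZ.n1 (-28464, 5520) (by decide +kernel)
             (CovZ.leaf K2_ok TB_l8121 _)
             (CovZ.leaf K2_ok TB_l8122 _))))
          (CovZ.n1 (-28512, 5664) (by decide +kernel)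
           (CovZ.n2 (-28416, 5664) (by decide +kernel)
            (CovZ.leaf K2_ok TB_l8123 _)
            (CovZ.leaf K2_ok TB_l8124 _))
           (CovZ.n1 (-28512, 5568) (by decide +kernel)
            (CovZ.leaf K2_ok TB_l8125 _)
            (CovZ.leaf K2_ok TB_l8126 _))))))
       (CovZ.n1 (-28608, 5952) (by decide +kernel)
        (CovZ.n2 (-28416, 5952) (by decide +kernel)
         (CovZ.n2 (-28512, 5856) (by decide +kernel)
          (CovZ.leaf K2_ok TB_l8127 _)
          (CovZ.leaf K2_ok TB_l8128 _))
         (CovZ.n1 (-28512, 6048) (by decide +kernel)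
          (CovZ.leaf K2_ok TB_l8129 _)
          (CovZ.leaf K2_ok TB_l8130 _)))
        (CovZ.subM 5043456793138493339171719218759167759831347749722069107295704126455243277339796799177012820689188513167029232171220992 (by decide +kernel)
         (CovZ.n1 (-28608, 5760) (by decide +kernel)
          (CovZ.n2 (-28704, 5856) (by decide +kernel)
           (CovZ.leaf K2_ok TB_l8131 _)
           (CovZ.n1 (-28704, 5760) (by decide +kernel)
            (CovZ.leaf K2_ok TB_l8132 _)
            (CovZ.leaf K2_ok TB_l8133 _)))
          (CovZ.n1 (-28512, 5856) (by decide +kernel)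
           (CovZ.n2 (-28512, 5760) (by decide +kernel)
            (CovZ.leaf K2_ok TB_l8134 _)
            (CovZ.leaf K2_ok TB_l8135 _))
           (CovZ.leaf K2_ok TB_l8136 _))))))))))

theorem TB_s3_6 : SqZ TB_M TB_L [0, 7, 6, 1] (-32256) (-4608) 1536 3 6 :=
  SqZ.mk (a := (-27648)) (b := (-26112)) (c := 4608) (d := 6144) (by norm_num) (by norm_num) (by norm_num) (by norm_num)
    (CovZ.topM TB_LL 5316911983139663491615228241121378304 (by decide +kernel) (CovZ.n2 (-26880, 5376) (by decide +kernel)
    (CovZ.badM (by decide +kernel))
    (CovZ.badM (by decide +kernel))))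
    (CovZ.topM TB_LL 5043456793138493339171717132834296910615319799168549412020101190462358845626619719455891620124100317979428603973074944 (by decide +kernel) (CovZ.n0 (-26880, 5376) (by decide +kernel)
    (CovZ.n2 (-27648, 5376) (by decide +kernel)
     (CovZ.n2 (-27264, 5760) (by decide +kernel)
      (CovZ.n2 (-27264, 5376) (by decide +kernel)
       (CovZ.n2 (-27456, 5568) (by decide +kernel)
        (CovZ.badM (by decide +kernel))
        (CovZ.badM (by decide +kernel)))
       (CovZ.badM (by decide +kernel)))
      (CovZ.n1 (-27648, 5760) (by decide +kernel)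
       (CovZ.n2 (-27456, 5952) (by decide +kernel)
        (CovZ.subM 5316911983139663491615228241121378304 (by decide +kernel)
         (CovZ.n2 (-27456, 5760) (by decide +kernel)
          (CovZ.n2 (-27552, 5856) (by decide +kernel)
           (CovZ.badM (by decide +kernel))
           (CovZ.n1 (-27552, 5760) (by decide +kernel)
            (CovZ.n2 (-27600, 5808) (by decide +kernel)
             (CovZ.badM (by decide +kernel))
             (CovZ.badM (by decide +kernel)))
            (CovZ.badM (by decide +kernel))))
          (CovZ.badM (by decide +kernel))))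
        (CovZ.n1 (-27648, 5952) (by decide +kernel)
         (CovZ.n2 (-27552, 6048) (by decide +kernel)
          (CovZ.n2 (-27552, 5952) (by decide +kernel)
           (CovZ.n2 (-27600, 6000) (by decide +kernel)
            (CovZ.leaf K2_ok TB_l10931 _)
            (CovZ.n1 (-27600, 5952) (by decide +kernel)
             (CovZ.leaf K2_ok TB_l10932 _)
             (CovZ.n1 (-27576, 5976) (by decide +kernel)
              (CovZ.leaf K2_ok TB_l39566 _)
              (CovZ.leaf K2_ok TB_l39567 _))))
           (CovZ.subM 15914343565113172548972231940698266883214596825515126958419365814239530631184224574504960 (by decide +kernel)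
            (CovZ.n1 (-27504, 6000) (by decide +kernel)
             (CovZ.badM (by decide +kernel))
             (CovZ.n1 (-27552, 6000) (by decide +kernel)
              (CovZ.n2 (-27528, 6024) (by decide +kernel)
               (CovZ.leaf K2_ok TB_l10934 _)
               (CovZ.leaf K2_ok TB_l10935 _))
              (CovZ.n1 (-27528, 5976) (by decide +kernel)
               (CovZ.leaf K2_ok TB_l10936 _)
               (CovZ.leaf K2_ok TB_l10937 _))))))
          (CovZ.n1 (-27648, 6048) (by decide +kernel)
           (CovZ.n2 (-27600, 6096) (by decide +kernel)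
            (CovZ.leaf K2_ok TB_l10938 _)
            (CovZ.leaf K2_ok TB_l10939 _))
           (CovZ.n1 (-27600, 6000) (by decide +kernel)
            (CovZ.n2 (-27648, 6000) (by decide +kernel)
             (CovZ.leaf K2_ok TB_l10940 _)
             (CovZ.leaf K2_ok TB_l10941 _))
            (CovZ.n1 (-27600, 6048) (by decide +kernel)
             (CovZ.leaf K2_ok TB_l10942 _)
             (CovZ.leaf K2_ok TB_l10943 _)))))
         (CovZ.n1 (-27552, 5856) (by decide +kernel)
          (CovZ.n2 (-27648, 5856) (by decide +kernel)
           (CovZ.n2 (-27600, 5904) (by decide +kernel)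
            (CovZ.n2 (-27600, 5856) (by decide +kernel)
             (CovZ.n2 (-27624, 5880) (by decide +kernel)
              (CovZ.badM (by decide +kernel))
              (CovZ.badM (by decide +kernel)))
             (CovZ.badM (by decide +kernel)))
            (CovZ.n1 (-27648, 5904) (by decide +kernel)
             (CovZ.n2 (-27624, 5928) (by decide +kernel)
              (CovZ.n2 (-27624, 5904) (by decide +kernel)
               (CovZ.leaf K2_ok TB_l39568 _)
               (CovZ.leaf K2_ok TB_l39569 _))
              (CovZ.leaf K2_ok TB_l10944 _))
             (CovZ.subM 5043456793138493339171717132818382567050206626619577180079399785028276555371519693808638157910509863079928701357391872 (by decide +kernel)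
              (CovZ.n1 (-27624, 5880) (by decide +kernel)
               (CovZ.n2 (-27648, 5880) (by decide +kernel)
                (CovZ.leaf K2_ok TB_l39570 _)
                (CovZ.badM (by decide +kernel)))
               (CovZ.n1 (-27624, 5904) (by decide +kernel)
                (CovZ.badM (by decide +kernel))
                (CovZ.leaf K2_ok TB_l39571 _))))))
           (CovZ.n1 (-27600, 5808) (by decide +kernel)
            (CovZ.badM (by decide +kernel))
            (CovZ.n1 (-27600, 5856) (by decide +kernel)
             (CovZ.badM (by decide +kernel))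
             (CovZ.badM (by decide +kernel)))))
          (CovZ.n1 (-27552, 5952) (by decide +kernel)
           (CovZ.badM (by decide +kernel))
           (CovZ.n1 (-27600, 5904) (by decide +kernel)
            (CovZ.n2 (-27600, 5952) (by decide +kernel)
             (CovZ.subM 324518553658426726783156020576256 (by decide +kernel)
              (CovZ.n2 (-27576, 5928) (by decide +kernel)
               (CovZ.n2 (-27600, 5928) (by decide +kernel)
                (CovZ.leaf K2_ok TB_l39572 _)
                (CovZ.badM (by decide +kernel)))
               (CovZ.n1 (-27576, 5952) (by decide +kernel)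
                (CovZ.badM (by decide +kernel))
                (CovZ.leaf K2_ok TB_l39573 _))))
             (CovZ.n1 (-27624, 5928) (by decide +kernel)
              (CovZ.leaf K2_ok TB_l10945 _)
              (CovZ.leaf K2_ok TB_l39574 _)))
            (CovZ.badM (by decide +kernel)))))))
       (CovZ.n1 (-27456, 5568) (by decide +kernel)
        (CovZ.badM (by decide +kernel))
        (CovZ.n1 (-27456, 5760) (by decide +kernel)
         (CovZ.badM (by decide +kernel))
         (CovZ.badM (by decide +kernel))))))
     (CovZ.badM (by decide +kernel)))
    (CovZ.n1 (-26880, 6144) (by decide +kernel)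
     (CovZ.badM (by decide +kernel))
     (CovZ.n1 (-27264, 5760) (by decide +kernel)
      (CovZ.n2 (-27264, 6144) (by decide +kernel)
       (CovZ.badM (by decide +kernel))
       (CovZ.n1 (-27456, 5952) (by decide +kernel)
        (CovZ.n2 (-27456, 6144) (by decide +kernel)
         (CovZ.subM 15914343565113172548972231940698266883214596825515126958419365814239530631184224574504960 (by decide +kernel)
          (CovZ.n2 (-27360, 6048) (by decide +kernel)
           (CovZ.n2 (-27456, 6048) (by decide +kernel)
            (CovZ.n2 (-27408, 6096) (by decide +kernel)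
             (CovZ.n2 (-27408, 6048) (by decide +kernel)
              (CovZ.n2 (-27432, 6072) (by decide +kernel)
               (CovZ.leaf K2_ok TB_l39575 _)
               (CovZ.leaf K2_ok TB_l39576 _))
              (CovZ.n1 (-27384, 6072) (by decide +kernel)
               (CovZ.n2 (-27384, 6048) (by decide +kernel)
                (CovZ.leaf K2_ok TB_l39577 _)
                (CovZ.badM (by decide +kernel)))
               (CovZ.leaf K2_ok TB_l39578 _)))
             (CovZ.n1 (-27456, 6096) (by decide +kernel)
              (CovZ.leaf K2_ok TB_l39579 _)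
              (CovZ.n1 (-27432, 6072) (by decide +kernel)
               (CovZ.leaf K2_ok TB_l39580 _)
               (CovZ.leaf K2_ok TB_l39581 _))))
            (CovZ.n1 (-27408, 6000) (by decide +kernel)
             (CovZ.n2 (-27456, 6000) (by decide +kernel)
              (CovZ.n2 (-27432, 6024) (by decide +kernel)
               (CovZ.badM (by decide +kernel))
               (CovZ.leaf K2_ok TB_l39582 _))
              (CovZ.badM (by decide +kernel)))
             (CovZ.n1 (-27408, 6048) (by decide +kernel)
              (CovZ.n2 (-27384, 6024) (by decide +kernel)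
               (CovZ.n2 (-27408, 6024) (by decide +kernel)
                (CovZ.leaf K2_ok TB_l39583 _)
                (CovZ.badM (by decide +kernel)))
               (CovZ.n1 (-27384, 6048) (by decide +kernel)
                (CovZ.badM (by decide +kernel))
                (CovZ.leaf K2_ok TB_l39584 _)))
              (CovZ.n1 (-27432, 6024) (by decide +kernel)
               (CovZ.n2 (-27432, 6048) (by decide +kernel)
                (CovZ.leaf K2_ok TB_l39585 _)
                (CovZ.leaf K2_ok TB_l39586 _))
               (CovZ.n1 (-27408, 6024) (by decide +kernel)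
                (CovZ.badM (by decide +kernel))
                (CovZ.leaf K2_ok TB_l39587 _))))))
           (CovZ.n1 (-27360, 6144) (by decide +kernel)
            (CovZ.n2 (-27312, 6096) (by decide +kernel)
             (CovZ.n2 (-27360, 6096) (by decide +kernel)
              (CovZ.n2 (-27336, 6120) (by decide +kernel)
               (CovZ.badM (by decide +kernel))
               (CovZ.leaf K2_ok TB_l39588 _))
              (CovZ.badM (by decide +kernel)))
             (CovZ.n1 (-27312, 6144) (by decide +kernel)
              (CovZ.badM (by decide +kernel))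
              (CovZ.leaf K2_ok TB_l39589 _)))
            (CovZ.n1 (-27408, 6096) (by decide +kernel)
             (CovZ.n2 (-27408, 6144) (by decide +kernel)
              (CovZ.leaf K2_ok TB_l39590 _)
              (CovZ.leaf K2_ok TB_l39591 _))
             (CovZ.n1 (-27360, 6096) (by decide +kernel)
              (CovZ.n2 (-27384, 6072) (by decide +kernel)
               (CovZ.leaf K2_ok TB_l39592 _)
               (CovZ.badM (by decide +kernel)))
              (CovZ.leaf K2_ok TB_l39593 _))))))
         (CovZ.n1 (-27552, 6048) (by decide +kernel)
          (CovZ.n2 (-27552, 6144) (by decide +kernel)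
           (CovZ.n2 (-27504, 6096) (by decide +kernel)
            (CovZ.leaf K2_ok TB_l10946 _)
            (CovZ.leaf K2_ok TB_l10947 _))
           (CovZ.leaf K2_ok TB_l10948 _))
          (CovZ.subM 15914343565113172548972231940698266883214596825515126958419365814239530631184224574504960 (by decide +kernel)
           (CovZ.n1 (-27456, 6048) (by decide +kernel)
            (CovZ.n2 (-27504, 6000) (by decide +kernel)
             (CovZ.n2 (-27504, 6048) (by decide +kernel)
              (CovZ.n2 (-27480, 6024) (by decide +kernel)
               (CovZ.leaf K2_ok TB_l39594 _)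
               (CovZ.leaf K2_ok TB_l39595 _))
              (CovZ.leaf K2_ok TB_l10949 _))
             (CovZ.n1 (-27456, 6000) (by decide +kernel)
              (CovZ.badM (by decide +kernel))
              (CovZ.n1 (-27480, 6024) (by decide +kernel)
               (CovZ.leaf K2_ok TB_l39596 _)
               (CovZ.n1 (-27480, 6000) (by decide +kernel)
                (CovZ.leaf K2_ok TB_l39597 _)
                (CovZ.leaf K2_ok TB_l39598 _)))))
            (CovZ.n1 (-27504, 6096) (by decide +kernel)
             (CovZ.leaf K2_ok TB_l39599 _)
             (CovZ.n1 (-27504, 6048) (by decide +kernel)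
              (CovZ.leaf K2_ok TB_l10950 _)
              (CovZ.leaf K2_ok TB_l39600 _)))))))
        (CovZ.n1 (-27264, 5952) (by decide +kernel)
         (CovZ.badM (by decide +kernel))
         (CovZ.n1 (-27360, 6048) (by decide +kernel)
          (CovZ.badM (by decide +kernel))
          (CovZ.badM (by decide +kernel))))))
      (CovZ.badM (by decide +kernel))))))

theorem TB_s4_6 : SqZ TB_M TB_L [0, 7, 6, 1] (-32256) (-4608) 1536 4 6 :=
  SqZ.mk (a := (-26112)) (b := (-24576)) (c := 4608) (d := 6144) (by norm_num) (by norm_num) (by norm_num) (by norm_num)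
    (CovZ.topM TB_LL 0 (by decide +kernel) (CovZ.badM (by decide +kernel)))
    (CovZ.topM TB_LL 0 (by decide +kernel) (CovZ.badM (by decide +kernel)))

theorem TB_s5_6 : SqZ TB_M TB_L [0, 7, 6, 1] (-32256) (-4608) 1536 5 6 :=
  SqZ.mk (a := (-24576)) (b := (-23040)) (c := 4608) (d := 6144) (by norm_num) (by norm_num) (by norm_num) (by norm_num)
    (CovZ.topM TB_LL 0 (by decide +kernel) (CovZ.badM (by decide +kernel)))
    (CovZ.topM TB_LL 47890485652059026823698344598447161988085597568237568 (by decide +kernel) (CovZ.n0 (-23808, 5376) (by decide +kernel)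
    (CovZ.badM (by decide +kernel))
    (CovZ.n1 (-23808, 6144) (by decide +kernel)
     (CovZ.badM (by decide +kernel))
     (CovZ.badM (by decide +kernel)))))

theorem TB_s6_6 : SqZ TB_M TB_L [0, 7, 6, 1] (-32256) (-4608) 1536 6 6 :=
  SqZ.mk (a := (-23040)) (b := (-21504)) (c := 4608) (d := 6144) (by norm_num) (by norm_num) (by norm_num) (by norm_num)
    (CovZ.topM TB_LL 105312291668557186697918027683670432318895095400549111254310977536 (by decide +kernel) (CovZ.n2 (-22272, 5376) (by decide +kernel)
    (CovZ.badM (by decide +kernel))
    (CovZ.n1 (-22272, 4608) (by decide +kernel)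
     (CovZ.badM (by decide +kernel))
     (CovZ.badM (by decide +kernel)))))
    (CovZ.topM TB_LL 102573268070678547257512497440607093284433653110278537087340011817941921234487215399530334060019712 (by decide +kernel) (CovZ.n0 (-22272, 5376) (by decide +kernel)
    (CovZ.n2 (-23040, 5376) (by decide +kernel)
     (CovZ.n2 (-22656, 5760) (by decide +kernel)
      (CovZ.badM (by decide +kernel))
      (CovZ.badM (by decide +kernel)))
     (CovZ.badM (by decide +kernel)))
    (CovZ.n1 (-22272, 6144) (by decide +kernel)
     (CovZ.n2 (-21888, 5760) (by decide +kernel)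
      (CovZ.badM (by decide +kernel))
      (CovZ.n1 (-21888, 6144) (by decide +kernel)
       (CovZ.badM (by decide +kernel))
       (CovZ.badM (by decide +kernel))))
     (CovZ.n1 (-22656, 5760) (by decide +kernel)
      (CovZ.n2 (-22656, 6144) (by decide +kernel)
       (CovZ.badM (by decide +kernel))
       (CovZ.badM (by decide +kernel)))
      (CovZ.badM (by decide +kernel))))))

theorem TB_s7_6 : SqZ TB_M TB_L [0, 7, 6, 1] (-32256) (-4608) 1536 7 6 :=
  SqZ.mk (a := (-21504)) (b := (-19968)) (c := 4608) (d := 6144) (by norm_num) (by norm_num) (by norm_num) (by norm_num)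
    (CovZ.topM TB_LL 0 (by decide +kernel) (CovZ.badM (by decide +kernel)))
    (CovZ.topM TB_LL 130370302485407109521180524058200202307293977194619920040712988758680403184853549195737432064 (by decide +kernel) (CovZ.n0 (-20736, 5376) (by decide +kernel)
    (CovZ.badM (by decide +kernel))
    (CovZ.n1 (-20736, 6144) (by decide +kernel)
     (CovZ.badM (by decide +kernel))
     (CovZ.badM (by decide +kernel)))))

theorem TB_s8_6 : SqZ TB_M TB_L [0, 7, 6, 1] (-32256) (-4608) 1536 8 6 :=
  SqZ.mk (a := (-19968)) (b := (-18432)) (c := 4608) (d := 6144) (by norm_num) (by norm_num) (by norm_num) (by norm_num)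
    (CovZ.topM TB_LL 0 (by decide +kernel) (CovZ.badM (by decide +kernel)))
    (CovZ.topM TB_LL 0 (by decide +kernel) (CovZ.badM (by decide +kernel)))

theorem TB_s9_6 : SqZ TB_M TB_L [0, 7, 6, 1] (-32256) (-4608) 1536 9 6 :=
  SqZ.mk (a := (-18432)) (b := (-16896)) (c := 4608) (d := 6144) (by norm_num) (by norm_num) (by norm_num) (by norm_num)
    (CovZ.topM TB_LL 0 (by decide +kernel) (CovZ.badM (by decide +kernel)))
    (CovZ.topM TB_LL 248661618204893321077691124073410420050228075398673858720231988748811203972873934864384 (by decide +kernel) (CovZ.n0 (-17664, 5376) (by decide +kernel)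
    (CovZ.badM (by decide +kernel))
    (CovZ.n1 (-17664, 6144) (by decide +kernel)
     (CovZ.badM (by decide +kernel))
     (CovZ.badM (by decide +kernel)))))

theorem TB_s10_6 : SqZ TB_M TB_L [0, 7, 6, 1] (-32256) (-4608) 1536 10 6 :=
  SqZ.mk (a := (-16896)) (b := (-15360)) (c := 4608) (d := 6144) (by norm_num) (by norm_num) (by norm_num) (by norm_num)
    (CovZ.topM TB_LL 124330809102446660538845562036705210025114037699336929360115994223880170063492049539072 (by decide +kernel) (CovZ.n2 (-16128, 5376) (by decide +kernel)
    (CovZ.n2 (-15360, 5376) (by decide +kernel)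
     (CovZ.badM (by decide +kernel))
     (CovZ.n1 (-15744, 5760) (by decide +kernel)
      (CovZ.badM (by decide +kernel))
      (CovZ.badM (by decide +kernel))))
    (CovZ.badM (by decide +kernel))))
    (CovZ.topM TB_LL 124330809102446660538845562036705210025114037699336929360115994223880170063492049539072 (by decide +kernel) (CovZ.n0 (-16128, 5376) (by decide +kernel)
    (CovZ.badM (by decide +kernel))
    (CovZ.n1 (-16128, 6144) (by decide +kernel)
     (CovZ.n2 (-15744, 5760) (by decide +kernel)
      (CovZ.badM (by decide +kernel))
      (CovZ.n1 (-15744, 6144) (by decide +kernel)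
       (CovZ.badM (by decide +kernel))
       (CovZ.badM (by decide +kernel))))
     (CovZ.badM (by decide +kernel)))))

theorem TB_s11_6 : SqZ TB_M TB_L [0, 7, 6, 1] (-32256) (-4608) 1536 11 6 :=
  SqZ.mk (a := (-15360)) (b := (-13824)) (c := 4608) (d := 6144) (by norm_num) (by norm_num) (by norm_num) (by norm_num)
    (CovZ.topM TB_LL 28490410604548114796083376289503099485918772840399184121291110622823448616 (by decide +kernel) (CovZ.n2 (-14592, 5376) (by decide +kernel)
    (CovZ.badM (by decide +kernel))
    (CovZ.badM (by decide +kernel))))
    (CovZ.topM TB_LL 28490410604548114796083376289503099485918772840399184121291110622823448616 (by decide +kernel) (CovZ.n0 (-14592, 5376) (by decide +kernel)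
    (CovZ.badM (by decide +kernel))
    (CovZ.n1 (-14592, 6144) (by decide +kernel)
     (CovZ.badM (by decide +kernel))
     (CovZ.n1 (-14976, 5760) (by decide +kernel)
      (CovZ.n2 (-14976, 6144) (by decide +kernel)
       (CovZ.badM (by decide +kernel))
       (CovZ.badM (by decide +kernel)))
      (CovZ.badM (by decide +kernel))))))

theorem TB_s12_6 : SqZ TB_M TB_L [0, 7, 6, 1] (-32256) (-4608) 1536 12 6 :=
  SqZ.mk (a := (-13824)) (b := (-12288)) (c := 4608) (d := 6144) (by norm_num) (by norm_num) (by norm_num) (by norm_num)
    (CovZ.topM TB_LL 0 (by decide +kernel) (CovZ.badM (by decide +kernel)))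
    (CovZ.topM TB_LL 0 (by decide +kernel) (CovZ.badM (by decide +kernel)))

theorem TB_s0_7 : SqZ TB_M TB_L [0, 7, 6, 1] (-32256) (-4608) 1536 0 7 :=
  SqZ.mk (a := (-32256)) (b := (-30720)) (c := 6144) (d := 7680) (by norm_num) (by norm_num) (by norm_num) (by norm_num)
    (CovZ.topM TB_LL 603580031050075214568786047986113315572886838087991686924121045696074321436944805819289549095782169096720744448 (by decide +kernel) (CovZ.n2 (-31488, 6912) (by decide +kernel)
    (CovZ.n2 (-30720, 6912) (by decide +kernel)
     (CovZ.n2 (-31104, 6528) (by decide +kernel)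
      (CovZ.n2 (-31104, 6912) (by decide +kernel)
       (CovZ.leaf K2_ok TB_l1760 _)
       (CovZ.leaf K2_ok TB_l1761 _))
      (CovZ.n1 (-30720, 6528) (by decide +kernel)
       (CovZ.n2 (-30912, 6336) (by decide +kernel)
        (CovZ.leaf K2_ok TB_l1762 _)
        (CovZ.leaf K2_ok TB_l1763 _))
       (CovZ.n1 (-30912, 6720) (by decide +kernel)
        (CovZ.leaf K2_ok TB_l1764 _)
        (CovZ.leaf K2_ok TB_l1765 _))))
     (CovZ.n1 (-31104, 7296) (by decide +kernel)
      (CovZ.leaf K2_ok TB_l1766 _)
      (CovZ.n1 (-31104, 6912) (by decide +kernel)
       (CovZ.leaf K2_ok TB_l1767 _)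
       (CovZ.leaf K2_ok TB_l1768 _))))
    (CovZ.n1 (-31488, 6144) (by decide +kernel)
     (CovZ.subM 601226901190101308425631874001585700516359920693986101553238921517320316332881903181299064114969818162398232576 (by decide +kernel)
      (CovZ.n2 (-31872, 6528) (by decide +kernel)
       (CovZ.n2 (-31488, 6528) (by decide +kernel)
        (CovZ.n2 (-31680, 6336) (by decide +kernel)
         (CovZ.n2 (-31680, 6528) (by decide +kernel)
          (CovZ.leaf K2_ok TB_l1769 _)
          (CovZ.leaf K2_ok TB_l1770 _))
         (CovZ.leaf K2_ok TB_l1771 _))
        (CovZ.n1 (-31680, 6720) (by decide +kernel)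
         (CovZ.leaf K2_ok TB_l1772 _)
         (CovZ.leaf K2_ok TB_l1773 _)))
       (CovZ.n1 (-31872, 6144) (by decide +kernel)
        (CovZ.subM 601226901190101306339707032778070279008174732520529886950106346019953953896806866395516837462300439886050623488 (by decide +kernel)
         (CovZ.n2 (-32064, 6336) (by decide +kernel)
          (CovZ.n2 (-31872, 6336) (by decide +kernel)
           (CovZ.leaf K2_ok TB_l1774 _)
           (CovZ.leaf K2_ok TB_l1775 _))
          (CovZ.n1 (-32064, 6144) (by decide +kernel)
           (CovZ.leaf K2_ok TB_l1776 _)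
           (CovZ.leaf K2_ok TB_l1777 _))))
        (CovZ.n1 (-31680, 6336) (by decide +kernel)
         (CovZ.n2 (-31680, 6144) (by decide +kernel)
          (CovZ.leaf K2_ok TB_l1778 _)
          (CovZ.leaf K2_ok TB_l1779 _))
         (CovZ.leaf K2_ok TB_l1780 _)))))
     (CovZ.n1 (-31104, 6528) (by decide +kernel)
      (CovZ.n2 (-31104, 6144) (by decide +kernel)
       (CovZ.n2 (-31296, 6336) (by decide +kernel)
        (CovZ.leaf K2_ok TB_l1781 _)
        (CovZ.leaf K2_ok TB_l1782 _))
       (CovZ.n1 (-30912, 6336) (by decide +kernel)
        (CovZ.leaf K2_ok TB_l1783 _)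
        (CovZ.leaf K2_ok TB_l1784 _)))
      (CovZ.n1 (-31488, 6528) (by decide +kernel)
       (CovZ.leaf K2_ok TB_l1785 _)
       (CovZ.n1 (-31296, 6336) (by decide +kernel)
        (CovZ.leaf K2_ok TB_l1786 _)
        (CovZ.leaf K2_ok TB_l1787 _)))))))
    (CovZ.topM TB_LL 603580031050075214568786047986113315572886838087991686924121045696074321436944805819289549095782169096720744448 (by decide +kernel) (CovZ.n0 (-31488, 6912) (by decide +kernel)
    (CovZ.subM 601226901190101308425631874001585700516359920693986101553238921517320316332881903181299064114969818162398232576 (by decide +kernel)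
     (CovZ.n2 (-32256, 6912) (by decide +kernel)
      (CovZ.n2 (-31872, 7296) (by decide +kernel)
       (CovZ.n2 (-31872, 6912) (by decide +kernel)
        (CovZ.n2 (-32064, 7104) (by decide +kernel)
         (CovZ.leaf K2_ok TB_l1788 _)
         (CovZ.leaf K2_ok TB_l1789 _))
        (CovZ.leaf K2_ok TB_l1790 _))
       (CovZ.n1 (-32256, 7296) (by decide +kernel)
        (CovZ.leaf K2_ok TB_l1791 _)
        (CovZ.leaf K2_ok TB_l1792 _)))
      (CovZ.n1 (-31872, 6528) (by decide +kernel)
       (CovZ.subM 49039857307708443467467104868809893875799651909875269632 (by decide +kernel)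
        (CovZ.n2 (-32256, 6528) (by decide +kernel)
         (CovZ.n2 (-32064, 6720) (by decide +kernel)
          (CovZ.n2 (-32064, 6528) (by decide +kernel)
           (CovZ.badM (by decide +kernel))
           (CovZ.leaf K2_ok TB_l1794 _))
          (CovZ.badM (by decide +kernel)))
         (CovZ.n1 (-32064, 6336) (by decide +kernel)
          (CovZ.n2 (-32256, 6336) (by decide +kernel)
           (CovZ.leaf K2_ok TB_l1796 _)
           (CovZ.leaf K2_ok TB_l1797 _))
          (CovZ.n1 (-32064, 6528) (by decide +kernel)
           (CovZ.leaf K2_ok TB_l1798 _)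
           (CovZ.leaf K2_ok TB_l1799 _)))))
       (CovZ.n1 (-31872, 6912) (by decide +kernel)
        (CovZ.n2 (-31680, 6720) (by decide +kernel)
         (CovZ.leaf K2_ok TB_l1800 _)
         (CovZ.leaf K2_ok TB_l1801 _))
        (CovZ.n1 (-32064, 6720) (by decide +kernel)
         (CovZ.leaf K2_ok TB_l1802 _)
         (CovZ.leaf K2_ok TB_l1803 _))))))
    (CovZ.n1 (-31488, 7680) (by decide +kernel)
     (CovZ.n2 (-31104, 7296) (by decide +kernel)
      (CovZ.n2 (-31488, 7296) (by decide +kernel)
       (CovZ.leaf K2_ok TB_l1804 _)
       (CovZ.leaf K2_ok TB_l1805 _))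
      (CovZ.n1 (-31104, 7680) (by decide +kernel)
       (CovZ.leaf K2_ok TB_l1806 _)
       (CovZ.leaf K2_ok TB_l1807 _)))
     (CovZ.subM 601226901190101308425631874001585700516359920693986101553238921517320316332881903181299064114969818162398232576 (by decide +kernel)
      (CovZ.n1 (-31872, 7296) (by decide +kernel)
       (CovZ.n2 (-31872, 7680) (by decide +kernel)
        (CovZ.leaf K2_ok TB_l1808 _)
        (CovZ.leaf K2_ok TB_l1809 _))
       (CovZ.n1 (-31488, 7296) (by decide +kernel)
        (CovZ.leaf K2_ok TB_l1810 _)
        (CovZ.leaf K2_ok TB_l1811 _)))))))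

theorem TB_s1_7 : SqZ TB_M TB_L [0, 7, 6, 1] (-32256) (-4608) 1536 1 7 :=
  SqZ.mk (a := (-30720)) (b := (-29184)) (c := 6144) (d := 7680) (by norm_num) (by norm_num) (by norm_num) (by norm_num)
    (CovZ.topM TB_LL 5043457396718524389246931701604430553163522199506415261489068479864498082831539602774735081027148327468408314444906496 (by decide +kernel) (CovZ.n2 (-29952, 6912) (by decide +kernel)
    (CovZ.n2 (-29184, 6912) (by decide +kernel)
     (CovZ.n2 (-29568, 6528) (by decide +kernel)
      (CovZ.n2 (-29568, 6912) (by decide +kernel)
       (CovZ.n2 (-29376, 6720) (by decide +kernel)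
        (CovZ.leaf K2_ok TB_l4911 _)
        (CovZ.leaf K2_ok TB_l4912 _))
       (CovZ.leaf K2_ok TB_l4913 _))
      (CovZ.n1 (-29184, 6528) (by decide +kernel)
       (CovZ.n2 (-29376, 6336) (by decide +kernel)
        (CovZ.leaf K2_ok TB_l4914 _)
        (CovZ.leaf K2_ok TB_l4915 _))
       (CovZ.n1 (-29376, 6720) (by decide +kernel)
        (CovZ.leaf K2_ok TB_l4916 _)
        (CovZ.leaf K2_ok TB_l4917 _))))
     (CovZ.n1 (-29568, 7296) (by decide +kernel)
      (CovZ.n2 (-29184, 7296) (by decide +kernel)
       (CovZ.leaf K2_ok TB_l4918 _)
       (CovZ.leaf K2_ok TB_l4919 _))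
      (CovZ.n1 (-29568, 6912) (by decide +kernel)
       (CovZ.leaf K2_ok TB_l4920 _)
       (CovZ.leaf K2_ok TB_l4921 _))))
    (CovZ.n1 (-29952, 6144) (by decide +kernel)
     (CovZ.n2 (-30336, 6528) (by decide +kernel)
      (CovZ.n2 (-29952, 6528) (by decide +kernel)
       (CovZ.n2 (-30144, 6336) (by decide +kernel)
        (CovZ.leaf K2_ok TB_l4922 _)
        (CovZ.leaf K2_ok TB_l4923 _))
       (CovZ.leaf K2_ok TB_l4924 _))
      (CovZ.n1 (-30336, 6144) (by decide +kernel)
       (CovZ.n2 (-30528, 6336) (by decide +kernel)
        (CovZ.leaf K2_ok TB_l4925 _)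
        (CovZ.leaf K2_ok TB_l4926 _))
       (CovZ.n1 (-30144, 6336) (by decide +kernel)
        (CovZ.n2 (-30144, 6144) (by decide +kernel)
         (CovZ.leaf K2_ok TB_l4927 _)
         (CovZ.leaf K2_ok TB_l4928 _))
        (CovZ.leaf K2_ok TB_l4929 _))))
     (CovZ.n1 (-29568, 6528) (by decide +kernel)
      (CovZ.n2 (-29568, 6144) (by decide +kernel)
       (CovZ.n2 (-29760, 6336) (by decide +kernel)
        (CovZ.leaf K2_ok TB_l4930 _)
        (CovZ.n1 (-29760, 6144) (by decide +kernel)
         (CovZ.leaf K2_ok TB_l4931 _)
         (CovZ.leaf K2_ok TB_l4932 _)))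
       (CovZ.n1 (-29376, 6336) (by decide +kernel)
        (CovZ.n2 (-29376, 6144) (by decide +kernel)
         (CovZ.leaf K2_ok TB_l4933 _)
         (CovZ.leaf K2_ok TB_l4934 _))
        (CovZ.leaf K2_ok TB_l4935 _)))
      (CovZ.n1 (-29952, 6528) (by decide +kernel)
       (CovZ.n2 (-29760, 6720) (by decide +kernel)
        (CovZ.leaf K2_ok TB_l4936 _)
        (CovZ.leaf K2_ok TB_l4937 _))
       (CovZ.n1 (-29760, 6336) (by decide +kernel)
        (CovZ.leaf K2_ok TB_l4938 _)
        (CovZ.leaf K2_ok TB_l4939 _)))))))
    (CovZ.topM TB_LL 5043457396718524389246931701604430553163522199506415261489068479864498082831539602774735081027148327468408314444906496 (by decide +kernel) (CovZ.n0 (-29952, 6912) (by decide +kernel)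
    (CovZ.n2 (-30720, 6912) (by decide +kernel)
     (CovZ.n2 (-30336, 7296) (by decide +kernel)
      (CovZ.n2 (-30336, 6912) (by decide +kernel)
       (CovZ.leaf K2_ok TB_l4940 _)
       (CovZ.leaf K2_ok TB_l4941 _))
      (CovZ.leaf K2_ok TB_l4942 _))
     (CovZ.n1 (-30336, 6528) (by decide +kernel)
      (CovZ.n2 (-30720, 6528) (by decide +kernel)
       (CovZ.leaf K2_ok TB_l4943 _)
       (CovZ.n1 (-30528, 6336) (by decide +kernel)
        (CovZ.leaf K2_ok TB_l4944 _)
        (CovZ.leaf K2_ok TB_l4945 _)))
      (CovZ.n1 (-30336, 6912) (by decide +kernel)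
       (CovZ.leaf K2_ok TB_l4946 _)
       (CovZ.leaf K2_ok TB_l4947 _))))
    (CovZ.n1 (-29952, 7680) (by decide +kernel)
     (CovZ.n2 (-29568, 7296) (by decide +kernel)
      (CovZ.n2 (-29952, 7296) (by decide +kernel)
       (CovZ.leaf K2_ok TB_l4948 _)
       (CovZ.leaf K2_ok TB_l4949 _))
      (CovZ.n1 (-29568, 7680) (by decide +kernel)
       (CovZ.leaf K2_ok TB_l4950 _)
       (CovZ.leaf K2_ok TB_l4951 _)))
     (CovZ.n1 (-30336, 7296) (by decide +kernel)
      (CovZ.n2 (-30336, 7680) (by decide +kernel)
       (CovZ.leaf K2_ok TB_l4952 _)
       (CovZ.leaf K2_ok TB_l4953 _))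
      (CovZ.leaf K2_ok TB_l4954 _)))))

end Pool.Agent.TET
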