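import Pool.Agent.Helper38_TET.TB_M
import Pool.Agent.Helper38_TET.TB_L
import Pool.Agent.Helper38_TET.TB_74
import Pool.Agent.Helper38_TET.TB_75
import Pool.Agent.Helper38_TET.TB_76
import Pool.Agent.Helper38_TET.TB_84
import Pool.Agent.Helper38_TET.TB_85
import Pool.Agent.Helper38_TET.TB_86
import Pool.Agent.Helper38_TET.TB_87
import Pool.Agent.Helper38_TET.TB_106
import Pool.Agent.Helper38_TET.TB_107
import Pool.Agent.Helper38_TET.TB_159
import Pool.Agent.Helper38_TET.TB_160
import Pool.Agent.Helper38_TET.TB_161
import Pool.Agent.Helper38_TET.TB_267
import Pool.Agent.Helper38_TET.TB_270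
import Pool.Agent.Helper38_TET.TB_283

/-!
# MP_c7c9bf_co: certificates, family TB
-/

set_option autoImplicit false
set_option maxRecDepth 100000

namespace Pool.Agent.TET

theorem TB_u179 : CovZ TB_M (toL (selN TB_LN 630432099142311746138028902399386858839459437765128549836403005523186228488122553485302659507199991324711598088527872)) [0, 7, 6, 1] (-22272, 7680) (-22656, 7680) (-22656, 7296) :=
    (CovZ.n2 (-22464, 7488) (by decide +kernel)
         (CovZ.subM 630432099142311737388487834658679400801347096091330837988594495310741339698938896112742071417724941553379507859103744 (by decide +kernel)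
          (CovZ.n2 (-22656, 7488) (by decide +kernel)
           (CovZ.n2 (-22560, 7584) (by decide +kernel)
            (CovZ.n2 (-22560, 7488) (by decide +kernel)
             (CovZ.n2 (-22608, 7536) (by decide +kernel)
              (CovZ.n2 (-22560, 7536) (by decide +kernel)
               (CovZ.leaf K2_ok TB_l15973 _)
               (CovZ.leaf K2_ok TB_l15974 _))
              (CovZ.subM 69992023193056381579920071267763883691301421800842763023302588937436731293424919370243844470172811264 (by decide +kernel)
               (CovZ.n1 (-22608, 7488) (by decide +kernel)
                (CovZ.n2 (-22632, 7512) (by decide +kernel)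
                 (CovZ.leaf K2_ok TB_l15975 _)
                 (CovZ.n1 (-22632, 7488) (by decide +kernel)
                  (CovZ.leaf K2_ok TB_l15976 _)
                  (CovZ.leaf K2_ok TB_l15977 _)))
                (CovZ.n1 (-22584, 7512) (by decide +kernel)
                 (CovZ.leaf K2_ok TB_l15978 _)
                 (CovZ.leaf K2_ok TB_l15979 _)))))
             (CovZ.n1 (-22512, 7536) (by decide +kernel)
              (CovZ.n2 (-22512, 7488) (by decide +kernel)
               (CovZ.n2 (-22536, 7512) (by decide +kernel)
                (CovZ.leaf K2_ok TB_l15980 _)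
                (CovZ.n1 (-22536, 7488) (by decide +kernel)
                 (CovZ.leaf K2_ok TB_l15981 _)
                 (CovZ.leaf K2_ok TB_l15982 _)))
               (CovZ.n1 (-22488, 7512) (by decide +kernel)
                (CovZ.leaf K2_ok TB_l15983 _)
                (CovZ.n1 (-22512, 7512) (by decide +kernel)
                 (CovZ.leaf K2_ok TB_l15984 _)
                 (CovZ.leaf K2_ok TB_l15985 _))))
              (CovZ.n1 (-22560, 7536) (by decide +kernel)
               (CovZ.leaf K2_ok TB_l15986 _)
               (CovZ.n1 (-22536, 7512) (by decide +kernel)
                (CovZ.leaf K2_ok TB_l15987 _)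
                (CovZ.leaf K2_ok TB_l15988 _)))))
            (CovZ.n1 (-22656, 7584) (by decide +kernel)
             (CovZ.n2 (-22608, 7632) (by decide +kernel)
              (CovZ.n2 (-22608, 7584) (by decide +kernel)
               (CovZ.leaf K2_ok TB_l15989 _)
               (CovZ.leaf K2_ok TB_l15990 _))
              (CovZ.leaf K2_ok TB_l15991 _))
             (CovZ.n1 (-22608, 7536) (by decide +kernel)
              (CovZ.n2 (-22656, 7536) (by decide +kernel)
               (CovZ.leaf K2_ok TB_l15992 _)
               (CovZ.n1 (-22632, 7512) (by decide +kernel)
                (CovZ.leaf K2_ok TB_l15993 _)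
                (CovZ.leaf K2_ok TB_l15994 _)))
              (CovZ.n1 (-22608, 7584) (by decide +kernel)
               (CovZ.leaf K2_ok TB_l15995 _)
               (CovZ.leaf K2_ok TB_l15996 _)))))
           (CovZ.subM 69992023193056381579920071267763883691301421800842763023302588937436731293424919370243844470172811264 (by decide +kernel)
            (CovZ.n1 (-22560, 7392) (by decide +kernel)
             (CovZ.n2 (-22656, 7392) (by decide +kernel)
              (CovZ.n2 (-22608, 7440) (by decide +kernel)
               (CovZ.badM (by decide +kernel))
               (CovZ.n1 (-22656, 7440) (by decide +kernel)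
                (CovZ.n2 (-22632, 7464) (by decide +kernel)
                 (CovZ.badM (by decide +kernel))
                 (CovZ.n1 (-22656, 7464) (by decide +kernel)
                  (CovZ.leaf K2_ok TB_l40567 _)
                  (CovZ.leaf K2_ok TB_l40568 _)))
                (CovZ.badM (by decide +kernel))))
              (CovZ.badM (by decide +kernel)))
             (CovZ.n1 (-22560, 7488) (by decide +kernel)
              (CovZ.n2 (-22512, 7440) (by decide +kernel)
               (CovZ.n2 (-22560, 7440) (by decide +kernel)
                (CovZ.n2 (-22536, 7464) (by decide +kernel)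
                 (CovZ.n2 (-22536, 7440) (by decide +kernel)
                  (CovZ.leaf K2_ok TB_l40569 _)
                  (CovZ.leaf K2_ok TB_l40570 _))
                 (CovZ.leaf K2_ok TB_l40571 _))
                (CovZ.n1 (-22536, 7416) (by decide +kernel)
                 (CovZ.badM (by decide +kernel))
                 (CovZ.n1 (-22536, 7440) (by decide +kernel)
                  (CovZ.leaf K2_ok TB_l40572 _)
                  (CovZ.leaf K2_ok TB_l40573 _))))
               (CovZ.n1 (-22512, 7488) (by decide +kernel)
                (CovZ.n2 (-22488, 7464) (by decide +kernel)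
                 (CovZ.leaf K2_ok TB_l40574 _)
                 (CovZ.n1 (-22488, 7488) (by decide +kernel)
                  (CovZ.leaf K2_ok TB_l40575 _)
                  (CovZ.leaf K2_ok TB_l40576 _)))
                (CovZ.n1 (-22536, 7464) (by decide +kernel)
                 (CovZ.n2 (-22536, 7488) (by decide +kernel)
                  (CovZ.leaf K2_ok TB_l40577 _)
                  (CovZ.leaf K2_ok TB_l40578 _))
                 (CovZ.leaf K2_ok TB_l40579 _))))
              (CovZ.n1 (-22608, 7440) (by decide +kernel)
               (CovZ.n2 (-22608, 7488) (by decide +kernel)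
                (CovZ.n2 (-22584, 7464) (by decide +kernel)
                 (CovZ.leaf K2_ok TB_l40580 _)
                 (CovZ.n1 (-22584, 7488) (by decide +kernel)
                  (CovZ.leaf K2_ok TB_l40581 _)
                  (CovZ.leaf K2_ok TB_l40582 _)))
                (CovZ.n1 (-22632, 7464) (by decide +kernel)
                 (CovZ.n2 (-22632, 7488) (by decide +kernel)
                  (CovZ.leaf K2_ok TB_l40583 _)
                  (CovZ.leaf K2_ok TB_l40584 _))
                 (CovZ.leaf K2_ok TB_l40585 _)))
               (CovZ.n1 (-22560, 7440) (by decide +kernel)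
                (CovZ.badM (by decide +kernel))
                (CovZ.n1 (-22584, 7464) (by decide +kernel)
                 (CovZ.leaf K2_ok TB_l40586 _)
                 (CovZ.n1 (-22584, 7440) (by decide +kernel)
                  (CovZ.leaf K2_ok TB_l40587 _)
                  (CovZ.leaf K2_ok TB_l40588 _))))))))))
         (CovZ.n1 (-22464, 7680) (by decide +kernel)
          (CovZ.n2 (-22368, 7584) (by decide +kernel)
           (CovZ.subM 630432099142311737388487834658679400801347096091330837988594495310741339698938896112742071417724941553379507859103744 (by decide +kernel)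
            (CovZ.n2 (-22464, 7584) (by decide +kernel)
             (CovZ.n2 (-22416, 7632) (by decide +kernel)
              (CovZ.n2 (-22416, 7584) (by decide +kernel)
               (CovZ.leaf K2_ok TB_l15997 _)
               (CovZ.leaf K2_ok TB_l15998 _))
              (CovZ.leaf K2_ok TB_l15999 _))
             (CovZ.n1 (-22416, 7536) (by decide +kernel)
              (CovZ.n2 (-22464, 7536) (by decide +kernel)
               (CovZ.leaf K2_ok TB_l16000 _)
               (CovZ.n1 (-22440, 7512) (by decide +kernel)
                (CovZ.leaf K2_ok TB_l16001 _)
                (CovZ.leaf K2_ok TB_l16002 _)))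
              (CovZ.n1 (-22416, 7584) (by decide +kernel)
               (CovZ.leaf K2_ok TB_l16003 _)
               (CovZ.leaf K2_ok TB_l16004 _)))))
           (CovZ.n1 (-22368, 7680) (by decide +kernel)
            (CovZ.n2 (-22320, 7632) (by decide +kernel)
             (CovZ.leaf K2_ok TB_l16005 _)
             (CovZ.leaf K2_ok TB_l16006 _))
            (CovZ.n1 (-22416, 7632) (by decide +kernel)
             (CovZ.leaf K2_ok TB_l16007 _)
             (CovZ.leaf K2_ok TB_l16008 _))))
          (CovZ.subM 630432099142311737388487834658679400801347096091330837988594495310741339698938896112742071417724941553379507859103744 (by decide +kernel)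
           (CovZ.n1 (-22560, 7584) (by decide +kernel)
            (CovZ.n2 (-22560, 7680) (by decide +kernel)
             (CovZ.n2 (-22512, 7632) (by decide +kernel)
              (CovZ.leaf K2_ok TB_l16009 _)
              (CovZ.leaf K2_ok TB_l16010 _))
             (CovZ.n1 (-22608, 7632) (by decide +kernel)
              (CovZ.leaf K2_ok TB_l16011 _)
              (CovZ.leaf K2_ok TB_l16012 _)))
            (CovZ.n1 (-22464, 7584) (by decide +kernel)
             (CovZ.n2 (-22512, 7536) (by decide +kernel)
              (CovZ.n2 (-22512, 7584) (by decide +kernel)
               (CovZ.leaf K2_ok TB_l16013 _)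
               (CovZ.leaf K2_ok TB_l16014 _))
              (CovZ.n1 (-22464, 7536) (by decide +kernel)
               (CovZ.n2 (-22488, 7512) (by decide +kernel)
                (CovZ.leaf K2_ok TB_l16015 _)
                (CovZ.leaf K2_ok TB_l16016 _))
               (CovZ.leaf K2_ok TB_l16017 _)))
             (CovZ.n1 (-22512, 7632) (by decide +kernel)
              (CovZ.leaf K2_ok TB_l16018 _)
              (CovZ.n1 (-22512, 7584) (by decide +kernel)
               (CovZ.leaf K2_ok TB_l16019 _)
               (CovZ.leaf K2_ok TB_l16020 _))))))))

theorem TB_u180 : CovZ TB_M (toL (selN TB_LN 630432099142311746138028902399386858839459437765128549836403005523186228488122553485302659507199991324711598088527872)) [0, 7, 6, 1] (-22656, 7680) (-23040, 7680) (-22656, 7296) :=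
    (CovZ.n1 (-22848, 7488) (by decide +kernel)
         (CovZ.n2 (-22848, 7680) (by decide +kernel)
          (CovZ.n2 (-22752, 7584) (by decide +kernel)
           (CovZ.n2 (-22848, 7584) (by decide +kernel)
            (CovZ.n2 (-22800, 7632) (by decide +kernel)
             (CovZ.n2 (-22800, 7584) (by decide +kernel)
              (CovZ.leaf K2_ok TB_l16021 _)
              (CovZ.leaf K2_ok TB_l16022 _))
             (CovZ.n1 (-22848, 7632) (by decide +kernel)
              (CovZ.leaf K2_ok TB_l16023 _)
              (CovZ.leaf K2_ok TB_l16024 _)))
            (CovZ.subM 69992023193056381579920071267763883691301421800842762657927179604711001742503711191173089556189675520 (by decide +kernel)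
             (CovZ.n1 (-22800, 7536) (by decide +kernel)
              (CovZ.n2 (-22848, 7536) (by decide +kernel)
               (CovZ.n2 (-22824, 7560) (by decide +kernel)
                (CovZ.badM (by decide +kernel))
                (CovZ.leaf K2_ok TB_l16027 _))
               (CovZ.badM (by decide +kernel)))
              (CovZ.n1 (-22800, 7584) (by decide +kernel)
               (CovZ.n2 (-22776, 7560) (by decide +kernel)
                (CovZ.leaf K2_ok TB_l16032 _)
                (CovZ.leaf K2_ok TB_l16033 _))
               (CovZ.leaf K2_ok TB_l16034 _)))))
           (CovZ.n1 (-22752, 7680) (by decide +kernel)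
            (CovZ.n2 (-22704, 7632) (by decide +kernel)
             (CovZ.n2 (-22752, 7632) (by decide +kernel)
              (CovZ.leaf K2_ok TB_l16035 _)
              (CovZ.leaf K2_ok TB_l16036 _))
             (CovZ.leaf K2_ok TB_l16037 _))
            (CovZ.n1 (-22800, 7632) (by decide +kernel)
             (CovZ.leaf K2_ok TB_l16038 _)
             (CovZ.leaf K2_ok TB_l16039 _))))
          (CovZ.n1 (-22944, 7584) (by decide +kernel)
           (CovZ.n2 (-22944, 7680) (by decide +kernel)
            (CovZ.n2 (-22896, 7632) (by decide +kernel)
             (CovZ.n2 (-22944, 7632) (by decide +kernel)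
              (CovZ.leaf K2_ok TB_l16040 _)
              (CovZ.n1 (-22920, 7608) (by decide +kernel)
               (CovZ.leaf K2_ok TB_l16041 _)
               (CovZ.leaf K2_ok TB_l16042 _)))
             (CovZ.n1 (-22896, 7680) (by decide +kernel)
              (CovZ.leaf K2_ok TB_l16043 _)
              (CovZ.leaf K2_ok TB_l16044 _)))
            (CovZ.n1 (-22992, 7632) (by decide +kernel)
             (CovZ.n2 (-22992, 7680) (by decide +kernel)
              (CovZ.leaf K2_ok TB_l16045 _)
              (CovZ.leaf K2_ok TB_l16046 _))
             (CovZ.n1 (-22944, 7632) (by decide +kernel)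
              (CovZ.n2 (-22968, 7608) (by decide +kernel)
               (CovZ.leaf K2_ok TB_l16047 _)
               (CovZ.leaf K2_ok TB_l16048 _))
              (CovZ.leaf K2_ok TB_l16049 _))))
           (CovZ.n1 (-22848, 7584) (by decide +kernel)
            (CovZ.subM 12259964326927110866866776217202473468949912977468817408 (by decide +kernel)
             (CovZ.n2 (-22896, 7536) (by decide +kernel)
              (CovZ.n2 (-22896, 7584) (by decide +kernel)
               (CovZ.n2 (-22872, 7560) (by decide +kernel)
                (CovZ.badM (by decide +kernel))
                (CovZ.leaf K2_ok TB_l16051 _))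
               (CovZ.badM (by decide +kernel)))
              (CovZ.n1 (-22848, 7536) (by decide +kernel)
               (CovZ.badM (by decide +kernel))
               (CovZ.n1 (-22872, 7560) (by decide +kernel)
                (CovZ.leaf K2_ok TB_l16057 _)
                (CovZ.badM (by decide +kernel))))))
            (CovZ.n1 (-22896, 7632) (by decide +kernel)
             (CovZ.n2 (-22848, 7632) (by decide +kernel)
              (CovZ.leaf K2_ok TB_l16060 _)
              (CovZ.leaf K2_ok TB_l16061 _))
             (CovZ.n1 (-22896, 7584) (by decide +kernel)
              (CovZ.leaf K2_ok TB_l16062 _)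
              (CovZ.leaf K2_ok TB_l16063 _))))))
         (CovZ.n1 (-22656, 7488) (by decide +kernel)
          (CovZ.subM 12259965423053338865043964869966098006162177719418224640 (by decide +kernel)
           (CovZ.n2 (-22752, 7392) (by decide +kernel)
            (CovZ.n2 (-22752, 7488) (by decide +kernel)
             (CovZ.n2 (-22704, 7440) (by decide +kernel)
              (CovZ.badM (by decide +kernel))
              (CovZ.n1 (-22704, 7488) (by decide +kernel)
               (CovZ.n2 (-22680, 7464) (by decide +kernel)
                (CovZ.badM (by decide +kernel))
                (CovZ.leaf K2_ok TB_l40589 _))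
               (CovZ.badM (by decide +kernel))))
             (CovZ.badM (by decide +kernel)))
            (CovZ.n1 (-22656, 7392) (by decide +kernel)
             (CovZ.badM (by decide +kernel))
             (CovZ.n1 (-22704, 7440) (by decide +kernel)
              (CovZ.n2 (-22656, 7440) (by decide +kernel)
               (CovZ.n2 (-22680, 7416) (by decide +kernel)
                (CovZ.n2 (-22680, 7440) (by decide +kernel)
                 (CovZ.badM (by decide +kernel))
                 (CovZ.badM (by decide +kernel)))
                (CovZ.badM (by decide +kernel)))
               (CovZ.n1 (-22680, 7464) (by decide +kernel)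
                (CovZ.leaf K2_ok TB_l40590 _)
                (CovZ.n1 (-22680, 7440) (by decide +kernel)
                 (CovZ.badM (by decide +kernel))
                 (CovZ.leaf K2_ok TB_l40591 _))))
              (CovZ.n1 (-22704, 7392) (by decide +kernel)
               (CovZ.badM (by decide +kernel))
               (CovZ.n1 (-22680, 7416) (by decide +kernel)
                (CovZ.badM (by decide +kernel))
                (CovZ.badM (by decide +kernel))))))))
          (CovZ.n1 (-22752, 7584) (by decide +kernel)
           (CovZ.n2 (-22656, 7584) (by decide +kernel)
            (CovZ.subM 69992023193056381579920071267763883691301421800842763388677998270162460844346127549314599384155955200 (by decide +kernel)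
             (CovZ.n2 (-22704, 7536) (by decide +kernel)
              (CovZ.n2 (-22704, 7584) (by decide +kernel)
               (CovZ.leaf K2_ok TB_l16064 _)
               (CovZ.leaf K2_ok TB_l16065 _))
              (CovZ.n1 (-22656, 7536) (by decide +kernel)
               (CovZ.n2 (-22680, 7512) (by decide +kernel)
                (CovZ.leaf K2_ok TB_l16066 _)
                (CovZ.leaf K2_ok TB_l16067 _))
               (CovZ.leaf K2_ok TB_l16068 _))))
            (CovZ.n1 (-22704, 7632) (by decide +kernel)
             (CovZ.leaf K2_ok TB_l16069 _)
             (CovZ.n1 (-22704, 7584) (by decide +kernel)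
              (CovZ.leaf K2_ok TB_l16070 _)
              (CovZ.leaf K2_ok TB_l16071 _))))
           (CovZ.subM 69992023193056381579920071267763883691301421800842763388677998270162460844346127549314599384155947008 (by decide +kernel)
            (CovZ.n1 (-22752, 7488) (by decide +kernel)
             (CovZ.n2 (-22800, 7536) (by decide +kernel)
              (CovZ.n2 (-22752, 7536) (by decide +kernel)
               (CovZ.n2 (-22776, 7512) (by decide +kernel)
                (CovZ.n2 (-22776, 7536) (by decide +kernel)
                 (CovZ.leaf K2_ok TB_l16072 _)
                 (CovZ.leaf K2_ok TB_l16073 _))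
                (CovZ.leaf K2_ok TB_l16074 _))
               (CovZ.n1 (-22776, 7560) (by decide +kernel)
                (CovZ.leaf K2_ok TB_l16075 _)
                (CovZ.n1 (-22776, 7536) (by decide +kernel)
                 (CovZ.leaf K2_ok TB_l16076 _)
                 (CovZ.leaf K2_ok TB_l16077 _))))
              (CovZ.badM (by decide +kernel)))
             (CovZ.n1 (-22704, 7536) (by decide +kernel)
              (CovZ.n2 (-22704, 7488) (by decide +kernel)
               (CovZ.n2 (-22728, 7512) (by decide +kernel)
                (CovZ.leaf K2_ok TB_l16085 _)
                (CovZ.badM (by decide +kernel)))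
               (CovZ.n1 (-22680, 7512) (by decide +kernel)
                (CovZ.n2 (-22680, 7488) (by decide +kernel)
                 (CovZ.leaf K2_ok TB_l16088 _)
                 (CovZ.leaf K2_ok TB_l16089 _))
                (CovZ.leaf K2_ok TB_l16090 _)))
              (CovZ.n1 (-22752, 7536) (by decide +kernel)
               (CovZ.leaf K2_ok TB_l16091 _)
               (CovZ.n1 (-22728, 7512) (by decide +kernel)
                (CovZ.leaf K2_ok TB_l16092 _)
                (CovZ.leaf K2_ok TB_l16093 _)))))))))

theorem TB_u181 : CovZ TB_M (toL (selN TB_LN 19701003098197239606140041539363251361175283490377293606376735922065232884236213136285025217142410128137682304372776)) [0, 7, 6, 1] (-15360, 6144) (-15360, 6912) (-16128, 6912) :=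
    (CovZ.subM 256455092439040436695053362420513250180378902349643377657422010452952485928 (by decide +kernel)
      (CovZ.n2 (-15744, 6528) (by decide +kernel)
       (CovZ.n2 (-15744, 6912) (by decide +kernel)
        (CovZ.subM 28490410604548114796083376289503099485918772998855509149819794606004371496 (by decide +kernel)
         (CovZ.n2 (-15552, 6720) (by decide +kernel)
          (CovZ.badM (by decide +kernel))
          (CovZ.n1 (-15552, 6912) (by decide +kernel)
           (CovZ.n2 (-15456, 6816) (by decide +kernel)
            (CovZ.n2 (-15552, 6816) (by decide +kernel)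
             (CovZ.n2 (-15504, 6864) (by decide +kernel)
              (CovZ.n2 (-15504, 6816) (by decide +kernel)
               (CovZ.leaf K2_ok TB_l23947 _)
               (CovZ.leaf K2_ok TB_l23948 _))
              (CovZ.leaf K2_ok TB_l23949 _))
             (CovZ.n1 (-15504, 6768) (by decide +kernel)
              (CovZ.n2 (-15552, 6768) (by decide +kernel)
               (CovZ.leaf K2_ok TB_l42430 _)
               (CovZ.n1 (-15528, 6744) (by decide +kernel)
                (CovZ.leaf K2_ok TB_l42431 _)
                (CovZ.leaf K2_ok TB_l42432 _)))
              (CovZ.n1 (-15504, 6816) (by decide +kernel)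
               (CovZ.leaf K2_ok TB_l23950 _)
               (CovZ.leaf K2_ok TB_l23951 _))))
            (CovZ.n1 (-15456, 6912) (by decide +kernel)
             (CovZ.leaf K2_ok TB_l23952 _)
             (CovZ.leaf K2_ok TB_l23953 _)))
           (CovZ.n1 (-15648, 6816) (by decide +kernel)
            (CovZ.n2 (-15648, 6912) (by decide +kernel)
             (CovZ.n2 (-15600, 6864) (by decide +kernel)
              (CovZ.leaf K2_ok TB_l42433 _)
              (CovZ.n1 (-15600, 6912) (by decide +kernel)
               (CovZ.leaf K2_ok TB_l23954 _)
               (CovZ.leaf K2_ok TB_l23955 _)))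
             (CovZ.n1 (-15696, 6864) (by decide +kernel)
              (CovZ.n2 (-15696, 6912) (by decide +kernel)
               (CovZ.n2 (-15672, 6888) (by decide +kernel)
                (CovZ.leaf K2_ok TB_l42434 _)
                (CovZ.leaf K2_ok TB_l42435 _))
               (CovZ.leaf K2_ok TB_l23956 _))
              (CovZ.n1 (-15648, 6864) (by decide +kernel)
               (CovZ.leaf K2_ok TB_l42436 _)
               (CovZ.n1 (-15672, 6888) (by decide +kernel)
                (CovZ.leaf K2_ok TB_l42437 _)
                (CovZ.leaf K2_ok TB_l42438 _)))))
            (CovZ.n1 (-15552, 6816) (by decide +kernel)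
             (CovZ.subM 220855883097298825835629110927960293952113388067754382559631333165891624 (by decide +kernel)
              (CovZ.n2 (-15600, 6768) (by decide +kernel)
               (CovZ.n2 (-15600, 6816) (by decide +kernel)
                (CovZ.n2 (-15576, 6792) (by decide +kernel)
                 (CovZ.leaf K2_ok TB_l42439 _)
                 (CovZ.leaf K2_ok TB_l42440 _))
                (CovZ.n1 (-15624, 6792) (by decide +kernel)
                 (CovZ.n2 (-15624, 6816) (by decide +kernel)
                  (CovZ.leaf K2_ok TB_l42441 _)
                  (CovZ.badM (by decide +kernel)))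
                 (CovZ.leaf K2_ok TB_l42442 _)))
               (CovZ.n1 (-15552, 6768) (by decide +kernel)
                (CovZ.n2 (-15576, 6744) (by decide +kernel)
                 (CovZ.n2 (-15576, 6768) (by decide +kernel)
                  (CovZ.leaf K2_ok TB_l42443 _)
                  (CovZ.badM (by decide +kernel)))
                 (CovZ.leaf K2_ok TB_l42444 _))
                (CovZ.n1 (-15576, 6792) (by decide +kernel)
                 (CovZ.leaf K2_ok TB_l42445 _)
                 (CovZ.n1 (-15576, 6768) (by decide +kernel)
                  (CovZ.leaf K2_ok TB_l42446 _)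
                  (CovZ.leaf K2_ok TB_l42447 _))))))
             (CovZ.n1 (-15600, 6864) (by decide +kernel)
              (CovZ.leaf K2_ok TB_l23957 _)
              (CovZ.n1 (-15600, 6816) (by decide +kernel)
               (CovZ.n2 (-15624, 6840) (by decide +kernel)
                (CovZ.leaf K2_ok TB_l42448 _)
                (CovZ.leaf K2_ok TB_l42449 _))
               (CovZ.leaf K2_ok TB_l42450 _))))))))
        (CovZ.subM 590295810358705655808 (by decide +kernel)
         (CovZ.n1 (-15936, 6720) (by decide +kernel)
          (CovZ.n2 (-15936, 6912) (by decide +kernel)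
           (CovZ.n2 (-15840, 6816) (by decide +kernel)
            (CovZ.badM (by decide +kernel))
            (CovZ.n1 (-15840, 6912) (by decide +kernel)
             (CovZ.badM (by decide +kernel))
             (CovZ.n1 (-15888, 6864) (by decide +kernel)
              (CovZ.n2 (-15888, 6912) (by decide +kernel)
               (CovZ.badM (by decide +kernel))
               (CovZ.badM (by decide +kernel)))
              (CovZ.badM (by decide +kernel)))))
           (CovZ.n1 (-16032, 6816) (by decide +kernel)
            (CovZ.n2 (-16032, 6912) (by decide +kernel)
             (CovZ.badM (by decide +kernel))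
             (CovZ.badM (by decide +kernel)))
            (CovZ.badM (by decide +kernel))))
          (CovZ.n1 (-15744, 6720) (by decide +kernel)
           (CovZ.n2 (-15840, 6624) (by decide +kernel)
            (CovZ.n2 (-15840, 6720) (by decide +kernel)
             (CovZ.badM (by decide +kernel))
             (CovZ.badM (by decide +kernel)))
            (CovZ.badM (by decide +kernel)))
           (CovZ.n1 (-15840, 6816) (by decide +kernel)
            (CovZ.badM (by decide +kernel))
            (CovZ.n1 (-15840, 6720) (by decide +kernel)
             (CovZ.badM (by decide +kernel))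
             (CovZ.badM (by decide +kernel))))))))
       (CovZ.subM 28490410604548114796083376289503099485918772998855509149819794606004371496 (by decide +kernel)
        (CovZ.n1 (-15360, 6528) (by decide +kernel)
         (CovZ.n2 (-15552, 6336) (by decide +kernel)
          (CovZ.n2 (-15552, 6528) (by decide +kernel)
           (CovZ.badM (by decide +kernel))
           (CovZ.badM (by decide +kernel)))
          (CovZ.badM (by decide +kernel)))
         (CovZ.n1 (-15552, 6720) (by decide +kernel)
          (CovZ.n2 (-15360, 6720) (by decide +kernel)
           (CovZ.subM 220855883097298825835629110927960293952113388067754382559631333165891624 (by decide +kernel)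
            (CovZ.n2 (-15456, 6624) (by decide +kernel)
             (CovZ.n2 (-15456, 6720) (by decide +kernel)
              (CovZ.n2 (-15408, 6672) (by decide +kernel)
               (CovZ.n2 (-15456, 6672) (by decide +kernel)
                (CovZ.n2 (-15432, 6696) (by decide +kernel)
                 (CovZ.leaf K2_ok TB_l42451 _)
                 (CovZ.leaf K2_ok TB_l42452 _))
                (CovZ.n1 (-15432, 6648) (by decide +kernel)
                 (CovZ.badM (by decide +kernel))
                 (CovZ.leaf K2_ok TB_l42453 _)))
               (CovZ.n1 (-15408, 6720) (by decide +kernel)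
                (CovZ.leaf K2_ok TB_l23958 _)
                (CovZ.leaf K2_ok TB_l23959 _)))
              (CovZ.n1 (-15504, 6672) (by decide +kernel)
               (CovZ.n2 (-15504, 6720) (by decide +kernel)
                (CovZ.n2 (-15480, 6696) (by decide +kernel)
                 (CovZ.badM (by decide +kernel))
                 (CovZ.leaf K2_ok TB_l42454 _))
                (CovZ.badM (by decide +kernel)))
               (CovZ.n1 (-15456, 6672) (by decide +kernel)
                (CovZ.badM (by decide +kernel))
                (CovZ.n1 (-15480, 6696) (by decide +kernel)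
                 (CovZ.leaf K2_ok TB_l42455 _)
                 (CovZ.badM (by decide +kernel))))))
             (CovZ.n1 (-15360, 6624) (by decide +kernel)
              (CovZ.n2 (-15408, 6576) (by decide +kernel)
               (CovZ.n2 (-15408, 6624) (by decide +kernel)
                (CovZ.n2 (-15384, 6600) (by decide +kernel)
                 (CovZ.badM (by decide +kernel))
                 (CovZ.n1 (-15384, 6624) (by decide +kernel)
                  (CovZ.leaf K2_ok TB_l42456 _)
                  (CovZ.leaf K2_ok TB_l42457 _)))
                (CovZ.badM (by decide +kernel)))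
               (CovZ.n1 (-15360, 6576) (by decide +kernel)
                (CovZ.badM (by decide +kernel))
                (CovZ.n1 (-15384, 6600) (by decide +kernel)
                 (CovZ.leaf K2_ok TB_l42458 _)
                 (CovZ.badM (by decide +kernel)))))
              (CovZ.n1 (-15408, 6672) (by decide +kernel)
               (CovZ.leaf K2_ok TB_l23960 _)
               (CovZ.n1 (-15408, 6624) (by decide +kernel)
                (CovZ.n2 (-15432, 6648) (by decide +kernel)
                 (CovZ.leaf K2_ok TB_l42459 _)
                 (CovZ.badM (by decide +kernel)))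
                (CovZ.n1 (-15384, 6648) (by decide +kernel)
                 (CovZ.n2 (-15384, 6624) (by decide +kernel)
                  (CovZ.leaf K2_ok TB_l42460 _)
                  (CovZ.leaf K2_ok TB_l42461 _))
                 (CovZ.leaf K2_ok TB_l42462 _)))))))
           (CovZ.n1 (-15456, 6816) (by decide +kernel)
            (CovZ.n2 (-15360, 6816) (by decide +kernel)
             (CovZ.leaf K2_ok TB_l23961 _)
             (CovZ.leaf K2_ok TB_l23962 _))
            (CovZ.n1 (-15456, 6720) (by decide +kernel)
             (CovZ.n2 (-15504, 6768) (by decide +kernel)
              (CovZ.leaf K2_ok TB_l23963 _)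
              (CovZ.n1 (-15504, 6720) (by decide +kernel)
               (CovZ.n2 (-15528, 6744) (by decide +kernel)
                (CovZ.leaf K2_ok TB_l42463 _)
                (CovZ.badM (by decide +kernel)))
               (CovZ.leaf K2_ok TB_l42464 _)))
             (CovZ.n1 (-15408, 6768) (by decide +kernel)
              (CovZ.n2 (-15408, 6720) (by decide +kernel)
               (CovZ.leaf K2_ok TB_l23964 _)
               (CovZ.leaf K2_ok TB_l23965 _))
              (CovZ.leaf K2_ok TB_l23966 _)))))
          (CovZ.n1 (-15552, 6528) (by decide +kernel)
           (CovZ.badM (by decide +kernel))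
           (CovZ.badM (by decide +kernel))))))))

theorem TB_u182 : CovZ TB_M (toL (selN TB_LN 19701003098197239606140041539363251361175283490377293606376735922065232884236213136285025217142410128137682304372776)) [0, 7, 6, 1] (-15360, 6912) (-15360, 7680) (-16128, 6912) :=
    (CovZ.n1 (-15744, 7296) (by decide +kernel)
      (CovZ.subM 7957171782556614764896720518463929524983587915857049397820422490635405052723323589361704 (by decide +kernel)
       (CovZ.n2 (-15360, 7296) (by decide +kernel)
        (CovZ.n2 (-15552, 7104) (by decide +kernel)
         (CovZ.n2 (-15552, 7296) (by decide +kernel)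
          (CovZ.n2 (-15456, 7200) (by decide +kernel)
           (CovZ.leaf K2_ok TB_l23967 _)
           (CovZ.n1 (-15456, 7296) (by decide +kernel)
            (CovZ.leaf K2_ok TB_l23968 _)
            (CovZ.leaf K2_ok TB_l23969 _)))
          (CovZ.n1 (-15648, 7200) (by decide +kernel)
           (CovZ.n2 (-15648, 7296) (by decide +kernel)
            (CovZ.leaf K2_ok TB_l23970 _)
            (CovZ.leaf K2_ok TB_l23971 _))
           (CovZ.leaf K2_ok TB_l23972 _)))
         (CovZ.n1 (-15360, 7104) (by decide +kernel)
          (CovZ.n2 (-15456, 7008) (by decide +kernel)
           (CovZ.n2 (-15456, 7104) (by decide +kernel)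
            (CovZ.leaf K2_ok TB_l23973 _)
            (CovZ.leaf K2_ok TB_l23974 _))
           (CovZ.leaf K2_ok TB_l23975 _))
          (CovZ.n1 (-15456, 7200) (by decide +kernel)
           (CovZ.leaf K2_ok TB_l23976 _)
           (CovZ.n1 (-15456, 7104) (by decide +kernel)
            (CovZ.leaf K2_ok TB_l23977 _)
            (CovZ.leaf K2_ok TB_l23978 _)))))
        (CovZ.n1 (-15552, 7488) (by decide +kernel)
         (CovZ.n2 (-15360, 7488) (by decide +kernel)
          (CovZ.n2 (-15456, 7392) (by decide +kernel)
           (CovZ.n2 (-15456, 7488) (by decide +kernel)
            (CovZ.leaf K2_ok TB_l23979 _)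
            (CovZ.leaf K2_ok TB_l23980 _))
           (CovZ.leaf K2_ok TB_l23981 _))
          (CovZ.n1 (-15456, 7584) (by decide +kernel)
           (CovZ.leaf K2_ok TB_l23982 _)
           (CovZ.n1 (-15456, 7488) (by decide +kernel)
            (CovZ.leaf K2_ok TB_l23983 _)
            (CovZ.leaf K2_ok TB_l23984 _))))
         (CovZ.n1 (-15552, 7296) (by decide +kernel)
          (CovZ.n2 (-15648, 7392) (by decide +kernel)
           (CovZ.leaf K2_ok TB_l23985 _)
           (CovZ.n1 (-15648, 7296) (by decide +kernel)
            (CovZ.leaf K2_ok TB_l23986 _)
            (CovZ.leaf K2_ok TB_l23987 _)))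
          (CovZ.n1 (-15456, 7392) (by decide +kernel)
           (CovZ.n2 (-15456, 7296) (by decide +kernel)
            (CovZ.leaf K2_ok TB_l23988 _)
            (CovZ.leaf K2_ok TB_l23989 _))
           (CovZ.leaf K2_ok TB_l23990 _))))))
      (CovZ.subM 256455092439040436695053362420513250180378943231375235017820226657414287400 (by decide +kernel)
       (CovZ.n1 (-15744, 6912) (by decide +kernel)
        (CovZ.n2 (-15936, 7104) (by decide +kernel)
         (CovZ.subM 28490410604548114796083376289503099485918772998855509149819812473068326952 (by decide +kernel)
          (CovZ.n2 (-15744, 7104) (by decide +kernel)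
           (CovZ.n2 (-15840, 7008) (by decide +kernel)
            (CovZ.n2 (-15840, 7104) (by decide +kernel)
             (CovZ.n2 (-15792, 7056) (by decide +kernel)
              (CovZ.leaf K2_ok TB_l23991 _)
              (CovZ.leaf K2_ok TB_l23992 _))
             (CovZ.n1 (-15888, 7056) (by decide +kernel)
              (CovZ.n2 (-15888, 7104) (by decide +kernel)
               (CovZ.leaf K2_ok TB_l23993 _)
               (CovZ.leaf K2_ok TB_l23994 _))
              (CovZ.leaf K2_ok TB_l23995 _)))
            (CovZ.n1 (-15744, 7008) (by decide +kernel)
             (CovZ.n2 (-15792, 6960) (by decide +kernel)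
              (CovZ.n2 (-15792, 7008) (by decide +kernel)
               (CovZ.leaf K2_ok TB_l23996 _)
               (CovZ.leaf K2_ok TB_l23997 _))
              (CovZ.leaf K2_ok TB_l23998 _))
             (CovZ.n1 (-15792, 7056) (by decide +kernel)
              (CovZ.leaf K2_ok TB_l23999 _)
              (CovZ.n1 (-15792, 7008) (by decide +kernel)
               (CovZ.leaf K2_ok TB_l24000 _)
               (CovZ.leaf K2_ok TB_l24001 _)))))
           (CovZ.n1 (-15840, 7200) (by decide +kernel)
            (CovZ.leaf K2_ok TB_l24002 _)
            (CovZ.n1 (-15840, 7104) (by decide +kernel)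
             (CovZ.n2 (-15888, 7152) (by decide +kernel)
              (CovZ.leaf K2_ok TB_l24003 _)
              (CovZ.n1 (-15888, 7104) (by decide +kernel)
               (CovZ.leaf K2_ok TB_l24004 _)
               (CovZ.leaf K2_ok TB_l24005 _)))
             (CovZ.leaf K2_ok TB_l24006 _)))))
         (CovZ.subM 220855883097298825835629110927960293952113388067754972855450487964569608 (by decide +kernel)
          (CovZ.n1 (-15936, 6912) (by decide +kernel)
           (CovZ.n2 (-16032, 7008) (by decide +kernel)
            (CovZ.n2 (-15936, 7008) (by decide +kernel)
             (CovZ.badM (by decide +kernel))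
             (CovZ.n1 (-15984, 7056) (by decide +kernel)
              (CovZ.n2 (-15936, 7056) (by decide +kernel)
               (CovZ.badM (by decide +kernel))
               (CovZ.n1 (-15960, 7080) (by decide +kernel)
                (CovZ.leaf K2_ok TB_l24007 _)
                (CovZ.badM (by decide +kernel))))
              (CovZ.badM (by decide +kernel))))
            (CovZ.n1 (-16032, 6912) (by decide +kernel)
             (CovZ.badM (by decide +kernel))
             (CovZ.badM (by decide +kernel))))
           (CovZ.n1 (-15840, 7008) (by decide +kernel)
            (CovZ.n2 (-15840, 6912) (by decide +kernel)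
             (CovZ.n2 (-15888, 6960) (by decide +kernel)
              (CovZ.n2 (-15840, 6960) (by decide +kernel)
               (CovZ.badM (by decide +kernel))
               (CovZ.n1 (-15864, 6984) (by decide +kernel)
                (CovZ.leaf K2_ok TB_l24009 _)
                (CovZ.badM (by decide +kernel))))
              (CovZ.n1 (-15888, 6912) (by decide +kernel)
               (CovZ.n2 (-15912, 6936) (by decide +kernel)
                (CovZ.badM (by decide +kernel))
                (CovZ.badM (by decide +kernel)))
               (CovZ.badM (by decide +kernel))))
             (CovZ.subM 220855883097298825835629110927960293952113388067754382559631333165891592 (by decide +kernel)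
              (CovZ.n1 (-15792, 6960) (by decide +kernel)
               (CovZ.n2 (-15792, 6912) (by decide +kernel)
                (CovZ.n2 (-15816, 6936) (by decide +kernel)
                 (CovZ.leaf K2_ok TB_l42470 _)
                 (CovZ.badM (by decide +kernel)))
                (CovZ.n1 (-15768, 6936) (by decide +kernel)
                 (CovZ.badM (by decide +kernel))
                 (CovZ.leaf K2_ok TB_l42471 _)))
               (CovZ.n1 (-15840, 6960) (by decide +kernel)
                (CovZ.n2 (-15816, 6984) (by decide +kernel)
                 (CovZ.leaf K2_ok TB_l24010 _)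
                 (CovZ.leaf K2_ok TB_l24011 _))
                (CovZ.n1 (-15816, 6936) (by decide +kernel)
                 (CovZ.badM (by decide +kernel))
                 (CovZ.leaf K2_ok TB_l42472 _))))))
            (CovZ.n1 (-15936, 7008) (by decide +kernel)
             (CovZ.n2 (-15888, 7056) (by decide +kernel)
              (CovZ.n2 (-15888, 7008) (by decide +kernel)
               (CovZ.n2 (-15912, 7032) (by decide +kernel)
                (CovZ.leaf K2_ok TB_l24012 _)
                (CovZ.n1 (-15912, 7008) (by decide +kernel)
                 (CovZ.leaf K2_ok TB_l42473 _)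
                 (CovZ.badM (by decide +kernel))))
               (CovZ.leaf K2_ok TB_l24013 _))
              (CovZ.n1 (-15936, 7056) (by decide +kernel)
               (CovZ.leaf K2_ok TB_l24014 _)
               (CovZ.n1 (-15912, 7032) (by decide +kernel)
                (CovZ.leaf K2_ok TB_l42475 _)
                (CovZ.leaf K2_ok TB_l24015 _))))
             (CovZ.n1 (-15888, 6960) (by decide +kernel)
              (CovZ.subM 4096 (by decide +kernel)
               (CovZ.n2 (-15936, 6960) (by decide +kernel)
                (CovZ.n2 (-15912, 6984) (by decide +kernel)
                 (CovZ.n2 (-15912, 6960) (by decide +kernel)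
                  (CovZ.badM (by decide +kernel))
                  (CovZ.badM (by decide +kernel)))
                 (CovZ.badM (by decide +kernel)))
                (CovZ.n1 (-15912, 6936) (by decide +kernel)
                 (CovZ.badM (by decide +kernel))
                 (CovZ.n1 (-15912, 6960) (by decide +kernel)
                  (CovZ.badM (by decide +kernel))
                  (CovZ.badM (by decide +kernel))))))
              (CovZ.n1 (-15888, 7008) (by decide +kernel)
               (CovZ.n2 (-15864, 6984) (by decide +kernel)
                (CovZ.badM (by decide +kernel))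
                (CovZ.leaf K2_ok TB_l24016 _))
               (CovZ.n1 (-15912, 6984) (by decide +kernel)
                (CovZ.n2 (-15912, 7008) (by decide +kernel)
                 (CovZ.badM (by decide +kernel))
                 (CovZ.badM (by decide +kernel)))
                (CovZ.badM (by decide +kernel))))))))))
        (CovZ.subM 28490410604548114796083376289503099485918772998855509149819812473068322856 (by decide +kernel)
         (CovZ.n1 (-15552, 7104) (by decide +kernel)
          (CovZ.n2 (-15552, 6912) (by decide +kernel)
           (CovZ.n2 (-15648, 7008) (by decide +kernel)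
            (CovZ.leaf K2_ok TB_l24017 _)
            (CovZ.n1 (-15648, 6912) (by decide +kernel)
             (CovZ.n2 (-15696, 6960) (by decide +kernel)
              (CovZ.leaf K2_ok TB_l24018 _)
              (CovZ.n1 (-15696, 6912) (by decide +kernel)
               (CovZ.leaf K2_ok TB_l24019 _)
               (CovZ.leaf K2_ok TB_l24020 _)))
             (CovZ.n1 (-15600, 6960) (by decide +kernel)
              (CovZ.leaf K2_ok TB_l24021 _)
              (CovZ.leaf K2_ok TB_l24022 _))))
           (CovZ.n1 (-15456, 7008) (by decide +kernel)
            (CovZ.n2 (-15456, 6912) (by decide +kernel)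
             (CovZ.leaf K2_ok TB_l24023 _)
             (CovZ.leaf K2_ok TB_l24024 _))
            (CovZ.leaf K2_ok TB_l24025 _)))
          (CovZ.n1 (-15744, 7104) (by decide +kernel)
           (CovZ.n2 (-15648, 7200) (by decide +kernel)
            (CovZ.n2 (-15648, 7104) (by decide +kernel)
             (CovZ.leaf K2_ok TB_l24026 _)
             (CovZ.leaf K2_ok TB_l24027 _))
            (CovZ.leaf K2_ok TB_l24028 _))
           (CovZ.n1 (-15648, 7008) (by decide +kernel)
            (CovZ.n2 (-15744, 7008) (by decide +kernel)
             (CovZ.leaf K2_ok TB_l24029 _)
             (CovZ.n1 (-15696, 6960) (by decide +kernel)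
              (CovZ.leaf K2_ok TB_l24030 _)
              (CovZ.leaf K2_ok TB_l24031 _)))
            (CovZ.n1 (-15648, 7104) (by decide +kernel)
             (CovZ.leaf K2_ok TB_l24032 _)
             (CovZ.leaf K2_ok TB_l24033 _)))))))))

theorem TB_u183 : CovZ TB_M (toL (selN TB_LN 19701003098197239606140042048622245444796805114455293653849419539509052219983819488319592667419044152620404973768744)) [0, 7, 6, 1] (-16128, 7680) (-16512, 7680) (-16512, 7296) :=
    (CovZ.n2 (-16320, 7488) (by decide +kernel)
        (CovZ.n2 (-16512, 7488) (by decide +kernel)
         (CovZ.n2 (-16416, 7584) (by decide +kernel)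
          (CovZ.subM 467046849036949121265824023745764250329446983339192498247885828916226631401512 (by decide +kernel)
           (CovZ.n2 (-16416, 7488) (by decide +kernel)
            (CovZ.n2 (-16464, 7536) (by decide +kernel)
             (CovZ.leaf K2_ok TB_l24112 _)
             (CovZ.n1 (-16464, 7488) (by decide +kernel)
              (CovZ.leaf K2_ok TB_l24113 _)
              (CovZ.leaf K2_ok TB_l24114 _)))
            (CovZ.leaf K2_ok TB_l24115 _)))
          (CovZ.n1 (-16512, 7584) (by decide +kernel)
           (CovZ.leaf K2_ok TB_l24116 _)
           (CovZ.n1 (-16464, 7536) (by decide +kernel)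
            (CovZ.leaf K2_ok TB_l24117 _)
            (CovZ.leaf K2_ok TB_l24118 _))))
         (CovZ.subM 467046849036738496682486909372368414274079642474554708057084730676125823402024 (by decide +kernel)
          (CovZ.n1 (-16416, 7392) (by decide +kernel)
           (CovZ.n2 (-16512, 7392) (by decide +kernel)
            (CovZ.n2 (-16464, 7440) (by decide +kernel)
             (CovZ.subM 3618517104397811363976324249706508327838574844215554429758669428910182105088 (by decide +kernel)
              (CovZ.n2 (-16464, 7392) (by decide +kernel)
               (CovZ.n2 (-16488, 7416) (by decide +kernel)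
                (CovZ.leaf K2_ok TB_l42480 _)
                (CovZ.badM (by decide +kernel)))
               (CovZ.n1 (-16440, 7416) (by decide +kernel)
                (CovZ.n2 (-16440, 7392) (by decide +kernel)
                 (CovZ.leaf K2_ok TB_l42481 _)
                 (CovZ.leaf K2_ok TB_l42482 _))
                (CovZ.leaf K2_ok TB_l42483 _))))
             (CovZ.subM 466792160766089284629667714499948317298334187299636442045043920685113800654848 (by decide +kernel)
              (CovZ.n1 (-16512, 7440) (by decide +kernel)
               (CovZ.leaf K2_ok TB_l42484 _)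
               (CovZ.n1 (-16488, 7416) (by decide +kernel)
                (CovZ.n2 (-16512, 7416) (by decide +kernel)
                 (CovZ.leaf K2_ok TB_l42485 _)
                 (CovZ.badM (by decide +kernel)))
                (CovZ.leaf K2_ok TB_l42486 _)))))
            (CovZ.subM 3618517050477918029675044660372478153799313374929895312710444572026802798592 (by decide +kernel)
             (CovZ.n1 (-16464, 7344) (by decide +kernel)
              (CovZ.badM (by decide +kernel))
              (CovZ.n1 (-16464, 7392) (by decide +kernel)
               (CovZ.n2 (-16440, 7368) (by decide +kernel)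
                (CovZ.n2 (-16464, 7368) (by decide +kernel)
                 (CovZ.leaf K2_ok TB_l42487 _)
                 (CovZ.badM (by decide +kernel)))
                (CovZ.n1 (-16440, 7392) (by decide +kernel)
                 (CovZ.leaf K2_ok TB_l42488 _)
                 (CovZ.leaf K2_ok TB_l42489 _)))
               (CovZ.badM (by decide +kernel))))))
           (CovZ.n1 (-16416, 7488) (by decide +kernel)
            (CovZ.n2 (-16368, 7440) (by decide +kernel)
             (CovZ.leaf K2_ok TB_l24119 _)
             (CovZ.leaf K2_ok TB_l24120 _))
            (CovZ.n1 (-16464, 7440) (by decide +kernel)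
             (CovZ.n2 (-16464, 7488) (by decide +kernel)
              (CovZ.leaf K2_ok TB_l24121 _)
              (CovZ.leaf K2_ok TB_l42490 _))
             (CovZ.leaf K2_ok TB_l24122 _))))))
        (CovZ.n1 (-16320, 7680) (by decide +kernel)
         (CovZ.n2 (-16224, 7584) (by decide +kernel)
          (CovZ.leaf K2_ok TB_l24123 _)
          (CovZ.n1 (-16224, 7680) (by decide +kernel)
           (CovZ.leaf K2_ok TB_l24124 _)
           (CovZ.leaf K2_ok TB_l24125 _)))
         (CovZ.n1 (-16416, 7584) (by decide +kernel)
          (CovZ.n2 (-16416, 7680) (by decide +kernel)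
           (CovZ.leaf K2_ok TB_l24126 _)
           (CovZ.leaf K2_ok TB_l24127 _))
          (CovZ.n1 (-16320, 7584) (by decide +kernel)
           (CovZ.leaf K2_ok TB_l24128 _)
           (CovZ.leaf K2_ok TB_l24129 _)))))

theorem TB_u184 : CovZ TB_M (toL (selN TB_LN 19701003098197239606140042048622245444796805114455293653849419539509052219983819488319592667419044152620404973768744)) [0, 7, 6, 1] (-16512, 7680) (-16896, 7680) (-16512, 7296) :=
    (CovZ.n1 (-16704, 7488) (by decide +kernel)
        (CovZ.n2 (-16704, 7680) (by decide +kernel)
         (CovZ.n2 (-16608, 7584) (by decide +kernel)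
          (CovZ.subM 19701003098197239606140041531406079578617788878348553982806273256454839120671491577727488163303615192149659335262208 (by decide +kernel)
           (CovZ.n2 (-16704, 7584) (by decide +kernel)
            (CovZ.n2 (-16656, 7632) (by decide +kernel)
             (CovZ.n2 (-16656, 7584) (by decide +kernel)
              (CovZ.leaf K2_ok TB_l24130 _)
              (CovZ.leaf K2_ok TB_l24131 _))
             (CovZ.leaf K2_ok TB_l24132 _))
            (CovZ.n1 (-16656, 7536) (by decide +kernel)
             (CovZ.subM 521481209941628439895742116987124778994282295062966902181647409383762932491844305946161446912 (by decide +kernel)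
              (CovZ.n2 (-16704, 7536) (by decide +kernel)
               (CovZ.n2 (-16680, 7560) (by decide +kernel)
                (CovZ.n2 (-16680, 7536) (by decide +kernel)
                 (CovZ.leaf K2_ok TB_l42491 _)
                 (CovZ.leaf K2_ok TB_l42492 _))
                (CovZ.leaf K2_ok TB_l42493 _))
               (CovZ.n1 (-16680, 7512) (by decide +kernel)
                (CovZ.badM (by decide +kernel))
                (CovZ.n1 (-16680, 7536) (by decide +kernel)
                 (CovZ.leaf K2_ok TB_l42494 _)
                 (CovZ.badM (by decide +kernel))))))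
             (CovZ.n1 (-16656, 7584) (by decide +kernel)
              (CovZ.n2 (-16632, 7560) (by decide +kernel)
               (CovZ.leaf K2_ok TB_l24133 _)
               (CovZ.leaf K2_ok TB_l24134 _))
              (CovZ.leaf K2_ok TB_l42496 _)))))
          (CovZ.n1 (-16608, 7680) (by decide +kernel)
           (CovZ.n2 (-16560, 7632) (by decide +kernel)
            (CovZ.leaf K2_ok TB_l24135 _)
            (CovZ.leaf K2_ok TB_l24136 _))
           (CovZ.n1 (-16656, 7632) (by decide +kernel)
            (CovZ.leaf K2_ok TB_l24137 _)
            (CovZ.leaf K2_ok TB_l24138 _))))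
         (CovZ.subM 19701003098197239606140042040540742853136863783195693923560963008366212329551264205570547649257255504889702424510464 (by decide +kernel)
          (CovZ.n1 (-16800, 7584) (by decide +kernel)
           (CovZ.n2 (-16800, 7680) (by decide +kernel)
            (CovZ.n2 (-16752, 7632) (by decide +kernel)
             (CovZ.n2 (-16800, 7632) (by decide +kernel)
              (CovZ.leaf K2_ok TB_l24139 _)
              (CovZ.n1 (-16776, 7608) (by decide +kernel)
               (CovZ.badM (by decide +kernel))
               (CovZ.leaf K2_ok TB_l24140 _)))
             (CovZ.n1 (-16752, 7680) (by decide +kernel)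
              (CovZ.leaf K2_ok TB_l24141 _)
              (CovZ.leaf K2_ok TB_l24142 _)))
            (CovZ.subM 521990468935949667008812054717501070108829900820371821445294608302997388098595584707500441600 (by decide +kernel)
             (CovZ.n1 (-16848, 7632) (by decide +kernel)
              (CovZ.n2 (-16848, 7680) (by decide +kernel)
               (CovZ.n2 (-16824, 7656) (by decide +kernel)
                (CovZ.leaf K2_ok TB_l24143 _)
                (CovZ.leaf K2_ok TB_l24144 _))
               (CovZ.n1 (-16872, 7656) (by decide +kernel)
                (CovZ.n2 (-16872, 7680) (by decide +kernel)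
                 (CovZ.leaf K2_ok TB_l24145 _)
                 (CovZ.badM (by decide +kernel)))
                (CovZ.leaf K2_ok TB_l24146 _)))
              (CovZ.n1 (-16800, 7632) (by decide +kernel)
               (CovZ.n2 (-16824, 7608) (by decide +kernel)
                (CovZ.n2 (-16824, 7632) (by decide +kernel)
                 (CovZ.badM (by decide +kernel))
                 (CovZ.badM (by decide +kernel)))
                (CovZ.badM (by decide +kernel)))
               (CovZ.n1 (-16824, 7656) (by decide +kernel)
                (CovZ.leaf K2_ok TB_l24147 _)
                (CovZ.n1 (-16824, 7632) (by decide +kernel)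
                 (CovZ.badM (by decide +kernel))
                 (CovZ.leaf K2_ok TB_l42498 _)))))))
           (CovZ.n1 (-16704, 7584) (by decide +kernel)
            (CovZ.subM 521481209941628439895795605521312405863634914420899549128903905478297252987646815508895891456 (by decide +kernel)
             (CovZ.n2 (-16752, 7536) (by decide +kernel)
              (CovZ.n2 (-16752, 7584) (by decide +kernel)
               (CovZ.n2 (-16728, 7560) (by decide +kernel)
                (CovZ.badM (by decide +kernel))
                (CovZ.n1 (-16728, 7584) (by decide +kernel)
                 (CovZ.leaf K2_ok TB_l42500 _)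
                 (CovZ.leaf K2_ok TB_l42501 _)))
               (CovZ.n1 (-16776, 7560) (by decide +kernel)
                (CovZ.n2 (-16776, 7584) (by decide +kernel)
                 (CovZ.badM (by decide +kernel))
                 (CovZ.badM (by decide +kernel)))
                (CovZ.badM (by decide +kernel))))
              (CovZ.n1 (-16704, 7536) (by decide +kernel)
               (CovZ.badM (by decide +kernel))
               (CovZ.n1 (-16728, 7560) (by decide +kernel)
                (CovZ.n2 (-16704, 7560) (by decide +kernel)
                 (CovZ.badM (by decide +kernel))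
                 (CovZ.leaf K2_ok TB_l42503 _))
                (CovZ.badM (by decide +kernel))))))
            (CovZ.n1 (-16752, 7632) (by decide +kernel)
             (CovZ.leaf K2_ok TB_l24148 _)
             (CovZ.subM 19701003098197239606140041531281748768585132545812762652214368489852035388650766541015881389804682480888491829886976 (by decide +kernel)
              (CovZ.n1 (-16752, 7584) (by decide +kernel)
               (CovZ.n2 (-16776, 7608) (by decide +kernel)
                (CovZ.leaf K2_ok TB_l24149 _)
                (CovZ.n1 (-16776, 7584) (by decide +kernel)
                 (CovZ.badM (by decide +kernel))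
                 (CovZ.leaf K2_ok TB_l24150 _)))
               (CovZ.n1 (-16728, 7608) (by decide +kernel)
                (CovZ.n2 (-16728, 7584) (by decide +kernel)
                 (CovZ.leaf K2_ok TB_l24151 _)
                 (CovZ.leaf K2_ok TB_l24152 _))
                (CovZ.leaf K2_ok TB_l24153 _)))))))))
        (CovZ.n1 (-16512, 7488) (by decide +kernel)
         (CovZ.subM 521481334272675151331552819279577941314163312754907126033986951001554871746830576094543872000 (by decide +kernel)
          (CovZ.n2 (-16608, 7392) (by decide +kernel)
           (CovZ.n2 (-16608, 7488) (by decide +kernel)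
            (CovZ.n2 (-16560, 7440) (by decide +kernel)
             (CovZ.subM 3533694340181351996280968397321892398995832431541428717341434911207194624 (by decide +kernel)
              (CovZ.n2 (-16608, 7440) (by decide +kernel)
               (CovZ.n2 (-16584, 7464) (by decide +kernel)
                (CovZ.n2 (-16584, 7440) (by decide +kernel)
                 (CovZ.badM (by decide +kernel))
                 (CovZ.leaf K2_ok TB_l42505 _))
                (CovZ.badM (by decide +kernel)))
               (CovZ.n1 (-16584, 7416) (by decide +kernel)
                (CovZ.badM (by decide +kernel))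
                (CovZ.n1 (-16584, 7440) (by decide +kernel)
                 (CovZ.badM (by decide +kernel))
                 (CovZ.badM (by decide +kernel))))))
             (CovZ.n1 (-16560, 7488) (by decide +kernel)
              (CovZ.n2 (-16536, 7464) (by decide +kernel)
               (CovZ.leaf K2_ok TB_l42506 _)
               (CovZ.leaf K2_ok TB_l42507 _))
              (CovZ.n1 (-16584, 7464) (by decide +kernel)
               (CovZ.n2 (-16584, 7488) (by decide +kernel)
                (CovZ.leaf K2_ok TB_l42508 _)
                (CovZ.leaf K2_ok TB_l42509 _))
               (CovZ.leaf K2_ok TB_l42510 _))))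
            (CovZ.n1 (-16656, 7440) (by decide +kernel)
             (CovZ.n2 (-16656, 7488) (by decide +kernel)
              (CovZ.badM (by decide +kernel))
              (CovZ.badM (by decide +kernel)))
             (CovZ.badM (by decide +kernel))))
           (CovZ.n1 (-16512, 7392) (by decide +kernel)
            (CovZ.n2 (-16560, 7344) (by decide +kernel)
             (CovZ.n2 (-16560, 7392) (by decide +kernel)
              (CovZ.badM (by decide +kernel))
              (CovZ.badM (by decide +kernel)))
             (CovZ.badM (by decide +kernel)))
            (CovZ.n1 (-16560, 7440) (by decide +kernel)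
             (CovZ.n2 (-16512, 7440) (by decide +kernel)
              (CovZ.subM 122011370271967079894676158808064 (by decide +kernel)
               (CovZ.n2 (-16536, 7416) (by decide +kernel)
                (CovZ.n2 (-16536, 7440) (by decide +kernel)
                 (CovZ.leaf K2_ok TB_l42511 _)
                 (CovZ.badM (by decide +kernel)))
                (CovZ.n1 (-16512, 7416) (by decide +kernel)
                 (CovZ.badM (by decide +kernel))
                 (CovZ.leaf K2_ok TB_l42513 _))))
              (CovZ.n1 (-16536, 7464) (by decide +kernel)
               (CovZ.leaf K2_ok TB_l42514 _)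
               (CovZ.n1 (-16536, 7440) (by decide +kernel)
                (CovZ.leaf K2_ok TB_l42515 _)
                (CovZ.leaf K2_ok TB_l42516 _))))
             (CovZ.n1 (-16560, 7392) (by decide +kernel)
              (CovZ.badM (by decide +kernel))
              (CovZ.n1 (-16536, 7416) (by decide +kernel)
               (CovZ.badM (by decide +kernel))
               (CovZ.badM (by decide +kernel))))))))
         (CovZ.n1 (-16608, 7584) (by decide +kernel)
          (CovZ.n2 (-16512, 7584) (by decide +kernel)
           (CovZ.n2 (-16560, 7536) (by decide +kernel)
            (CovZ.leaf K2_ok TB_l24154 _)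
            (CovZ.leaf K2_ok TB_l24155 _))
           (CovZ.n1 (-16560, 7632) (by decide +kernel)
            (CovZ.leaf K2_ok TB_l24156 _)
            (CovZ.leaf K2_ok TB_l24157 _)))
          (CovZ.subM 521481334272675151585980522044251982415105011550852961569507744928887044312980659986614976512 (by decide +kernel)
           (CovZ.n1 (-16608, 7488) (by decide +kernel)
            (CovZ.n2 (-16656, 7536) (by decide +kernel)
             (CovZ.n2 (-16608, 7536) (by decide +kernel)
              (CovZ.n2 (-16632, 7512) (by decide +kernel)
               (CovZ.leaf K2_ok TB_l24158 _)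
               (CovZ.leaf K2_ok TB_l24159 _))
              (CovZ.n1 (-16632, 7560) (by decide +kernel)
               (CovZ.leaf K2_ok TB_l24160 _)
               (CovZ.leaf K2_ok TB_l24161 _)))
             (CovZ.subM 1725436599553145300930611169904953101842078063220220589052973738360832 (by decide +kernel)
              (CovZ.n1 (-16656, 7488) (by decide +kernel)
               (CovZ.n2 (-16680, 7512) (by decide +kernel)
                (CovZ.n2 (-16656, 7512) (by decide +kernel)
                 (CovZ.badM (by decide +kernel))
                 (CovZ.leaf K2_ok TB_l42518 _))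
                (CovZ.badM (by decide +kernel)))
               (CovZ.n1 (-16632, 7512) (by decide +kernel)
                (CovZ.badM (by decide +kernel))
                (CovZ.n1 (-16656, 7512) (by decide +kernel)
                 (CovZ.leaf K2_ok TB_l24162 _)
                 (CovZ.badM (by decide +kernel)))))))
            (CovZ.n1 (-16560, 7536) (by decide +kernel)
             (CovZ.n2 (-16560, 7488) (by decide +kernel)
              (CovZ.n2 (-16584, 7512) (by decide +kernel)
               (CovZ.leaf K2_ok TB_l24163 _)
               (CovZ.n1 (-16584, 7488) (by decide +kernel)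
                (CovZ.leaf K2_ok TB_l42520 _)
                (CovZ.leaf K2_ok TB_l42521 _)))
              (CovZ.leaf K2_ok TB_l24164 _))
             (CovZ.n1 (-16608, 7536) (by decide +kernel)
              (CovZ.leaf K2_ok TB_l24165 _)
              (CovZ.n1 (-16584, 7512) (by decide +kernel)
               (CovZ.leaf K2_ok TB_l24166 _)
               (CovZ.leaf K2_ok TB_l24167 _)))))))))

theorem TB_u185 : CovZ TB_M (toL (selN TB_LN 19701003098197239606140042048622245444796805114455293653849419539509052219983819488319592667419044152620404973768744)) [0, 7, 6, 1] (-15360, 7680) (-16128, 7680) (-16128, 6912) :=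
    (CovZ.subM 7957171782556842729578555010785828494969718926007743858071794552296194017876045889277992 (by decide +kernel)
      (CovZ.n2 (-15744, 7296) (by decide +kernel)
       (CovZ.n2 (-16128, 7296) (by decide +kernel)
        (CovZ.n2 (-15936, 7488) (by decide +kernel)
         (CovZ.n2 (-15936, 7296) (by decide +kernel)
          (CovZ.n2 (-16032, 7392) (by decide +kernel)
           (CovZ.n2 (-15936, 7392) (by decide +kernel)
            (CovZ.leaf K2_ok TB_l24034 _)
            (CovZ.leaf K2_ok TB_l24035 _))
           (CovZ.n1 (-16032, 7296) (by decide +kernel)
            (CovZ.leaf K2_ok TB_l24036 _)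
            (CovZ.leaf K2_ok TB_l24037 _)))
          (CovZ.n1 (-15840, 7392) (by decide +kernel)
           (CovZ.n2 (-15840, 7296) (by decide +kernel)
            (CovZ.leaf K2_ok TB_l24038 _)
            (CovZ.leaf K2_ok TB_l24039 _))
           (CovZ.leaf K2_ok TB_l24040 _)))
         (CovZ.n1 (-16128, 7488) (by decide +kernel)
          (CovZ.n2 (-16032, 7584) (by decide +kernel)
           (CovZ.n2 (-16032, 7488) (by decide +kernel)
            (CovZ.leaf K2_ok TB_l24041 _)
            (CovZ.leaf K2_ok TB_l24042 _))
           (CovZ.leaf K2_ok TB_l24043 _))
          (CovZ.n1 (-16032, 7392) (by decide +kernel)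
           (CovZ.leaf K2_ok TB_l24044 _)
           (CovZ.n1 (-16032, 7488) (by decide +kernel)
            (CovZ.leaf K2_ok TB_l24045 _)
            (CovZ.leaf K2_ok TB_l24046 _)))))
        (CovZ.n1 (-15936, 7104) (by decide +kernel)
         (CovZ.subM 228157932417199125166570863385177445825329355405288467752726986017006948360 (by decide +kernel)
          (CovZ.n2 (-16128, 7104) (by decide +kernel)
           (CovZ.n2 (-16032, 7200) (by decide +kernel)
            (CovZ.n2 (-16032, 7104) (by decide +kernel)
             (CovZ.n2 (-16080, 7152) (by decide +kernel)
              (CovZ.leaf K2_ok TB_l24047 _)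
              (CovZ.subM 590295810358705651712 (by decide +kernel)
               (CovZ.n1 (-16080, 7104) (by decide +kernel)
                (CovZ.n2 (-16104, 7128) (by decide +kernel)
                 (CovZ.badM (by decide +kernel))
                 (CovZ.n1 (-16104, 7104) (by decide +kernel)
                  (CovZ.badM (by decide +kernel))
                  (CovZ.badM (by decide +kernel))))
                (CovZ.badM (by decide +kernel)))))
             (CovZ.subM 234661060787546650325485789340957283583932708333621564455745246682157064 (by decide +kernel)
              (CovZ.n1 (-15984, 7152) (by decide +kernel)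
               (CovZ.n2 (-15984, 7104) (by decide +kernel)
                (CovZ.n2 (-16008, 7128) (by decide +kernel)
                 (CovZ.leaf K2_ok TB_l24053 _)
                 (CovZ.leaf K2_ok TB_l24054 _))
                (CovZ.leaf K2_ok TB_l24055 _))
               (CovZ.leaf K2_ok TB_l24056 _))))
            (CovZ.n1 (-16128, 7200) (by decide +kernel)
             (CovZ.n2 (-16080, 7248) (by decide +kernel)
              (CovZ.n2 (-16080, 7200) (by decide +kernel)
               (CovZ.leaf K2_ok TB_l24057 _)
               (CovZ.leaf K2_ok TB_l24058 _))
              (CovZ.leaf K2_ok TB_l24059 _))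
             (CovZ.n1 (-16080, 7152) (by decide +kernel)
              (CovZ.subM 590295819154798673920 (by decide +kernel)
               (CovZ.n2 (-16128, 7152) (by decide +kernel)
                (CovZ.n2 (-16104, 7176) (by decide +kernel)
                 (CovZ.leaf K2_ok TB_l24060 _)
                 (CovZ.leaf K2_ok TB_l24061 _))
                (CovZ.n1 (-16104, 7128) (by decide +kernel)
                 (CovZ.badM (by decide +kernel))
                 (CovZ.n1 (-16104, 7152) (by decide +kernel)
                  (CovZ.badM (by decide +kernel))
                  (CovZ.leaf K2_ok TB_l24063 _)))))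
              (CovZ.n1 (-16080, 7200) (by decide +kernel)
               (CovZ.n2 (-16056, 7176) (by decide +kernel)
                (CovZ.leaf K2_ok TB_l24064 _)
                (CovZ.leaf K2_ok TB_l24065 _))
               (CovZ.leaf K2_ok TB_l24066 _)))))
           (CovZ.subM 220855883097298825835629110927960293952113388067754972855450487964569608 (by decide +kernel)
            (CovZ.n1 (-16032, 7008) (by decide +kernel)
             (CovZ.badM (by decide +kernel))
             (CovZ.n1 (-16032, 7104) (by decide +kernel)
              (CovZ.n2 (-15984, 7056) (by decide +kernel)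
               (CovZ.badM (by decide +kernel))
               (CovZ.n1 (-15984, 7104) (by decide +kernel)
                (CovZ.n2 (-15960, 7080) (by decide +kernel)
                 (CovZ.badM (by decide +kernel))
                 (CovZ.leaf K2_ok TB_l24069 _))
                (CovZ.badM (by decide +kernel))))
              (CovZ.subM 590295810358705651712 (by decide +kernel)
               (CovZ.n1 (-16080, 7056) (by decide +kernel)
                (CovZ.n2 (-16080, 7104) (by decide +kernel)
                 (CovZ.badM (by decide +kernel))
                 (CovZ.n1 (-16104, 7080) (by decide +kernel)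
                  (CovZ.n2 (-16104, 7104) (by decide +kernel)
                   (CovZ.badM (by decide +kernel))
                   (CovZ.badM (by decide +kernel)))
                  (CovZ.badM (by decide +kernel))))
                (CovZ.badM (by decide +kernel)))))))))
         (CovZ.n1 (-15936, 7296) (by decide +kernel)
          (CovZ.subM 28490410604548114796083376289503099485918772998855509149819812473068326952 (by decide +kernel)
           (CovZ.n2 (-15840, 7200) (by decide +kernel)
            (CovZ.n2 (-15936, 7200) (by decide +kernel)
             (CovZ.leaf K2_ok TB_l24075 _)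
             (CovZ.n1 (-15888, 7152) (by decide +kernel)
              (CovZ.leaf K2_ok TB_l24076 _)
              (CovZ.leaf K2_ok TB_l24077 _)))
            (CovZ.n1 (-15840, 7296) (by decide +kernel)
             (CovZ.leaf K2_ok TB_l24078 _)
             (CovZ.leaf K2_ok TB_l24079 _))))
          (CovZ.n1 (-16032, 7200) (by decide +kernel)
           (CovZ.n2 (-16032, 7296) (by decide +kernel)
            (CovZ.n2 (-15984, 7248) (by decide +kernel)
             (CovZ.leaf K2_ok TB_l24080 _)
             (CovZ.leaf K2_ok TB_l24081 _))
            (CovZ.leaf K2_ok TB_l24082 _))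
           (CovZ.n1 (-15936, 7200) (by decide +kernel)
            (CovZ.n2 (-15984, 7152) (by decide +kernel)
             (CovZ.leaf K2_ok TB_l24083 _)
             (CovZ.leaf K2_ok TB_l24084 _))
            (CovZ.leaf K2_ok TB_l24085 _))))))
       (CovZ.n1 (-15744, 7680) (by decide +kernel)
        (CovZ.subM 7957171782556614764896720518463929524983587915857049397820422490635405052723323589361704 (by decide +kernel)
         (CovZ.n2 (-15552, 7488) (by decide +kernel)
          (CovZ.n2 (-15744, 7488) (by decide +kernel)
           (CovZ.n2 (-15648, 7584) (by decide +kernel)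
            (CovZ.n2 (-15648, 7488) (by decide +kernel)
             (CovZ.leaf K2_ok TB_l24086 _)
             (CovZ.leaf K2_ok TB_l24087 _))
            (CovZ.leaf K2_ok TB_l24088 _))
           (CovZ.n1 (-15648, 7392) (by decide +kernel)
            (CovZ.leaf K2_ok TB_l24089 _)
            (CovZ.n1 (-15648, 7488) (by decide +kernel)
             (CovZ.leaf K2_ok TB_l24090 _)
             (CovZ.leaf K2_ok TB_l24091 _))))
          (CovZ.n1 (-15552, 7680) (by decide +kernel)
           (CovZ.n2 (-15456, 7584) (by decide +kernel)
            (CovZ.leaf K2_ok TB_l24092 _)
            (CovZ.n1 (-15456, 7680) (by decide +kernel)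
             (CovZ.leaf K2_ok TB_l24093 _)
             (CovZ.leaf K2_ok TB_l24094 _)))
           (CovZ.n1 (-15648, 7584) (by decide +kernel)
            (CovZ.n2 (-15648, 7680) (by decide +kernel)
             (CovZ.leaf K2_ok TB_l24095 _)
             (CovZ.leaf K2_ok TB_l24096 _))
            (CovZ.leaf K2_ok TB_l24097 _)))))
        (CovZ.n1 (-15936, 7488) (by decide +kernel)
         (CovZ.n2 (-15936, 7680) (by decide +kernel)
          (CovZ.n2 (-15840, 7584) (by decide +kernel)
           (CovZ.leaf K2_ok TB_l24098 _)
           (CovZ.n1 (-15840, 7680) (by decide +kernel)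
            (CovZ.leaf K2_ok TB_l24099 _)
            (CovZ.leaf K2_ok TB_l24100 _)))
          (CovZ.n1 (-16032, 7584) (by decide +kernel)
           (CovZ.n2 (-16032, 7680) (by decide +kernel)
            (CovZ.leaf K2_ok TB_l24101 _)
            (CovZ.leaf K2_ok TB_l24102 _))
           (CovZ.n1 (-15936, 7584) (by decide +kernel)
            (CovZ.leaf K2_ok TB_l24103 _)
            (CovZ.leaf K2_ok TB_l24104 _))))
         (CovZ.subM 7957171782556614764896720518463929524983587915857049397820422490635405052723873345179688 (by decide +kernel)
          (CovZ.n1 (-15744, 7488) (by decide +kernel)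
           (CovZ.n2 (-15840, 7392) (by decide +kernel)
            (CovZ.n2 (-15840, 7488) (by decide +kernel)
             (CovZ.leaf K2_ok TB_l24105 _)
             (CovZ.leaf K2_ok TB_l24106 _))
            (CovZ.n1 (-15744, 7392) (by decide +kernel)
             (CovZ.leaf K2_ok TB_l24107 _)
             (CovZ.leaf K2_ok TB_l24108 _)))
           (CovZ.n1 (-15840, 7584) (by decide +kernel)
            (CovZ.leaf K2_ok TB_l24109 _)
            (CovZ.n1 (-15840, 7488) (by decide +kernel)
             (CovZ.leaf K2_ok TB_l24110 _)
             (CovZ.leaf K2_ok TB_l24111 _)))))))))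

theorem TB_u186 : CovZ TB_M (toL (selN TB_LN 19701003098197239606140042048622245444796805114455293653849419539509052219983819488319592667419044152620404973768744)) [0, 7, 6, 1] (-16128, 7680) (-16896, 7680) (-16128, 6912) :=
    (CovZ.n1 (-16512, 7296) (by decide +kernel)
      (CovZ.n2 (-16512, 7680) (by decide +kernel)
       TB_u183
       TB_u184)
      (CovZ.n1 (-16128, 7296) (by decide +kernel)
       (CovZ.subM 467015018155627151935148620483664577545673307164247315377860700219980988284936 (by decide +kernel)
        (CovZ.n2 (-16320, 7104) (by decide +kernel)
         (CovZ.n2 (-16320, 7296) (by decide +kernel)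
          (CovZ.n2 (-16224, 7200) (by decide +kernel)
           (CovZ.badM (by decide +kernel))
           (CovZ.n1 (-16224, 7296) (by decide +kernel)
            (CovZ.n2 (-16176, 7248) (by decide +kernel)
             (CovZ.n2 (-16224, 7248) (by decide +kernel)
              (CovZ.leaf K2_ok TB_l24168 _)
              (CovZ.n1 (-16200, 7224) (by decide +kernel)
               (CovZ.badM (by decide +kernel))
               (CovZ.leaf K2_ok TB_l24169 _)))
             (CovZ.n1 (-16176, 7296) (by decide +kernel)
              (CovZ.leaf K2_ok TB_l24170 _)
              (CovZ.leaf K2_ok TB_l24171 _)))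
            (CovZ.subM 3618517025202968029221319852872151509718409618315844254064393533398624239616 (by decide +kernel)
             (CovZ.n1 (-16272, 7248) (by decide +kernel)
              (CovZ.n2 (-16272, 7296) (by decide +kernel)
               (CovZ.n2 (-16248, 7272) (by decide +kernel)
                (CovZ.badM (by decide +kernel))
                (CovZ.leaf K2_ok TB_l24173 _))
               (CovZ.n1 (-16296, 7272) (by decide +kernel)
                (CovZ.n2 (-16296, 7296) (by decide +kernel)
                 (CovZ.badM (by decide +kernel))
                 (CovZ.leaf K2_ok TB_l42524 _))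
                (CovZ.badM (by decide +kernel))))
              (CovZ.n1 (-16224, 7248) (by decide +kernel)
               (CovZ.badM (by decide +kernel))
               (CovZ.n1 (-16248, 7272) (by decide +kernel)
                (CovZ.leaf K2_ok TB_l24176 _)
                (CovZ.badM (by decide +kernel))))))))
          (CovZ.subM 9903520314283042199192993792 (by decide +kernel)
           (CovZ.n1 (-16416, 7200) (by decide +kernel)
            (CovZ.n2 (-16416, 7296) (by decide +kernel)
             (CovZ.n2 (-16368, 7248) (by decide +kernel)
              (CovZ.badM (by decide +kernel))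
              (CovZ.n1 (-16368, 7296) (by decide +kernel)
               (CovZ.n2 (-16344, 7272) (by decide +kernel)
                (CovZ.badM (by decide +kernel))
                (CovZ.n1 (-16344, 7296) (by decide +kernel)
                 (CovZ.badM (by decide +kernel))
                 (CovZ.badM (by decide +kernel))))
               (CovZ.badM (by decide +kernel))))
             (CovZ.badM (by decide +kernel)))
            (CovZ.badM (by decide +kernel)))))
         (CovZ.n1 (-16128, 7104) (by decide +kernel)
          (CovZ.badM (by decide +kernel))
          (CovZ.n1 (-16224, 7200) (by decide +kernel)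
           (CovZ.n2 (-16128, 7200) (by decide +kernel)
            (CovZ.subM 590295819154798673920 (by decide +kernel)
             (CovZ.n2 (-16176, 7152) (by decide +kernel)
              (CovZ.n2 (-16176, 7200) (by decide +kernel)
               (CovZ.n2 (-16152, 7176) (by decide +kernel)
                (CovZ.n2 (-16176, 7176) (by decide +kernel)
                 (CovZ.leaf K2_ok TB_l42528 _)
                 (CovZ.badM (by decide +kernel)))
                (CovZ.n1 (-16152, 7200) (by decide +kernel)
                 (CovZ.leaf K2_ok TB_l24179 _)
                 (CovZ.leaf K2_ok TB_l42529 _)))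
               (CovZ.n1 (-16200, 7176) (by decide +kernel)
                (CovZ.n2 (-16200, 7200) (by decide +kernel)
                 (CovZ.leaf K2_ok TB_l42530 _)
                 (CovZ.badM (by decide +kernel)))
                (CovZ.n1 (-16176, 7176) (by decide +kernel)
                 (CovZ.badM (by decide +kernel))
                 (CovZ.leaf K2_ok TB_l42531 _))))
              (CovZ.n1 (-16128, 7152) (by decide +kernel)
               (CovZ.badM (by decide +kernel))
               (CovZ.n1 (-16152, 7176) (by decide +kernel)
                (CovZ.leaf K2_ok TB_l24180 _)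
                (CovZ.badM (by decide +kernel))))))
            (CovZ.n1 (-16176, 7248) (by decide +kernel)
             (CovZ.leaf K2_ok TB_l24181 _)
             (CovZ.subM 13803492693581127574869511724554050904902217944341363406144203246272512 (by decide +kernel)
              (CovZ.n1 (-16176, 7200) (by decide +kernel)
               (CovZ.n2 (-16200, 7224) (by decide +kernel)
                (CovZ.leaf K2_ok TB_l24182 _)
                (CovZ.n1 (-16200, 7200) (by decide +kernel)
                 (CovZ.badM (by decide +kernel))
                 (CovZ.leaf K2_ok TB_l42533 _)))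
               (CovZ.n1 (-16152, 7224) (by decide +kernel)
                (CovZ.leaf K2_ok TB_l24183 _)
                (CovZ.leaf K2_ok TB_l24184 _))))))
           (CovZ.badM (by decide +kernel))))))
       (CovZ.n1 (-16320, 7488) (by decide +kernel)
        (CovZ.n2 (-16128, 7488) (by decide +kernel)
         (CovZ.subM 467046848982818603348185629783034384100040381127438875537622410225852675522600 (by decide +kernel)
          (CovZ.n2 (-16224, 7392) (by decide +kernel)
           (CovZ.n2 (-16224, 7488) (by decide +kernel)
            (CovZ.leaf K2_ok TB_l24185 _)
            (CovZ.leaf K2_ok TB_l24186 _))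
           (CovZ.n1 (-16128, 7392) (by decide +kernel)
            (CovZ.leaf K2_ok TB_l24187 _)
            (CovZ.leaf K2_ok TB_l24188 _))))
         (CovZ.n1 (-16224, 7584) (by decide +kernel)
          (CovZ.n2 (-16128, 7584) (by decide +kernel)
           (CovZ.leaf K2_ok TB_l24189 _)
           (CovZ.leaf K2_ok TB_l24190 _))
          (CovZ.n1 (-16224, 7488) (by decide +kernel)
           (CovZ.leaf K2_ok TB_l24191 _)
           (CovZ.leaf K2_ok TB_l24192 _))))
        (CovZ.subM 467046849036738496682486909372368414274079642474554708057675026495280622075944 (by decide +kernel)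
         (CovZ.n1 (-16320, 7296) (by decide +kernel)
          (CovZ.n2 (-16416, 7392) (by decide +kernel)
           (CovZ.n2 (-16320, 7392) (by decide +kernel)
            (CovZ.n2 (-16368, 7344) (by decide +kernel)
             (CovZ.n2 (-16368, 7392) (by decide +kernel)
              (CovZ.leaf K2_ok TB_l24193 _)
              (CovZ.leaf K2_ok TB_l24194 _))
             (CovZ.subM 467015018101707258600847340894330547371634045857854758389549657636887647485960 (by decide +kernel)
              (CovZ.n1 (-16320, 7344) (by decide +kernel)
               (CovZ.n2 (-16344, 7320) (by decide +kernel)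
                (CovZ.leaf K2_ok TB_l24195 _)
                (CovZ.leaf K2_ok TB_l24196 _))
               (CovZ.n1 (-16344, 7368) (by decide +kernel)
                (CovZ.leaf K2_ok TB_l24197 _)
                (CovZ.leaf K2_ok TB_l24198 _)))))
            (CovZ.n1 (-16368, 7440) (by decide +kernel)
             (CovZ.leaf K2_ok TB_l24199 _)
             (CovZ.n1 (-16368, 7392) (by decide +kernel)
              (CovZ.leaf K2_ok TB_l24200 _)
              (CovZ.leaf K2_ok TB_l24201 _))))
           (CovZ.subM 3618517050477918029675044660372478153799313374860570670510463276632451842048 (by decide +kernel)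
            (CovZ.n1 (-16416, 7296) (by decide +kernel)
             (CovZ.n2 (-16464, 7344) (by decide +kernel)
              (CovZ.n2 (-16416, 7344) (by decide +kernel)
               (CovZ.badM (by decide +kernel))
               (CovZ.n1 (-16440, 7368) (by decide +kernel)
                (CovZ.leaf K2_ok TB_l42534 _)
                (CovZ.badM (by decide +kernel))))
              (CovZ.badM (by decide +kernel)))
             (CovZ.n1 (-16368, 7344) (by decide +kernel)
              (CovZ.subM 9903520314283042199192993792 (by decide +kernel)
               (CovZ.n2 (-16368, 7296) (by decide +kernel)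
                (CovZ.badM (by decide +kernel))
                (CovZ.n1 (-16344, 7320) (by decide +kernel)
                 (CovZ.n2 (-16344, 7296) (by decide +kernel)
                  (CovZ.badM (by decide +kernel))
                  (CovZ.leaf K2_ok TB_l42535 _))
                 (CovZ.badM (by decide +kernel)))))
              (CovZ.n1 (-16416, 7344) (by decide +kernel)
               (CovZ.n2 (-16392, 7368) (by decide +kernel)
                (CovZ.n2 (-16392, 7344) (by decide +kernel)
                 (CovZ.leaf K2_ok TB_l42536 _)
                 (CovZ.leaf K2_ok TB_l24204 _))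
                (CovZ.leaf K2_ok TB_l42537 _))
               (CovZ.badM (by decide +kernel)))))))
          (CovZ.n1 (-16224, 7392) (by decide +kernel)
           (CovZ.n2 (-16224, 7296) (by decide +kernel)
            (CovZ.n2 (-16272, 7344) (by decide +kernel)
             (CovZ.leaf K2_ok TB_l24206 _)
             (CovZ.subM 3618517025202968030005957569795486605197883296216802556077187964025348030464 (by decide +kernel)
              (CovZ.n1 (-16272, 7296) (by decide +kernel)
               (CovZ.n2 (-16296, 7320) (by decide +kernel)
                (CovZ.leaf K2_ok TB_l24207 _)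
                (CovZ.n1 (-16296, 7296) (by decide +kernel)
                 (CovZ.leaf K2_ok TB_l24208 _)
                 (CovZ.leaf K2_ok TB_l24209 _)))
               (CovZ.leaf K2_ok TB_l24210 _))))
            (CovZ.n1 (-16176, 7344) (by decide +kernel)
             (CovZ.n2 (-16176, 7296) (by decide +kernel)
              (CovZ.leaf K2_ok TB_l24211 _)
              (CovZ.leaf K2_ok TB_l24212 _))
             (CovZ.leaf K2_ok TB_l24213 _)))
           (CovZ.n1 (-16320, 7392) (by decide +kernel)
            (CovZ.leaf K2_ok TB_l24214 _)
            (CovZ.n1 (-16272, 7344) (by decide +kernel)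
             (CovZ.n2 (-16320, 7344) (by decide +kernel)
              (CovZ.leaf K2_ok TB_l24215 _)
              (CovZ.n1 (-16296, 7320) (by decide +kernel)
               (CovZ.leaf K2_ok TB_l24216 _)
               (CovZ.leaf K2_ok TB_l24217 _)))
             (CovZ.leaf K2_ok TB_l24218 _)))))))))

theorem TB_u187 : CovZ TB_M (toL (selN TB_LN 15914343565113172548972232070059917996931010207095564998146977052440791275573642451484800)) [0, 7, 6, 1] (-26880, 8448) (-26496, 8064) (-26112, 8448) :=
    (CovZ.n2 (-26496, 8448) (by decide +kernel)
        (CovZ.n2 (-26304, 8256) (by decide +kernel)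
         (CovZ.subM 15914343565113172548972232043545440266657670660653190474193275557166015151374404635852800 (by decide +kernel)
          (CovZ.n2 (-26496, 8256) (by decide +kernel)
           (CovZ.n2 (-26400, 8352) (by decide +kernel)
            (CovZ.n2 (-26400, 8256) (by decide +kernel)
             (CovZ.n2 (-26448, 8304) (by decide +kernel)
              (CovZ.leaf K2_ok TB_l11174 _)
              (CovZ.n1 (-26448, 8256) (by decide +kernel)
               (CovZ.leaf K2_ok TB_l11175 _)
               (CovZ.leaf K2_ok TB_l11176 _)))
             (CovZ.n1 (-26352, 8304) (by decide +kernel)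
              (CovZ.n2 (-26352, 8256) (by decide +kernel)
               (CovZ.leaf K2_ok TB_l11177 _)
               (CovZ.leaf K2_ok TB_l11178 _))
              (CovZ.leaf K2_ok TB_l11179 _)))
            (CovZ.n1 (-26496, 8352) (by decide +kernel)
             (CovZ.n2 (-26448, 8400) (by decide +kernel)
              (CovZ.n2 (-26448, 8352) (by decide +kernel)
               (CovZ.leaf K2_ok TB_l11180 _)
               (CovZ.leaf K2_ok TB_l11181 _))
              (CovZ.leaf K2_ok TB_l11182 _))
             (CovZ.n1 (-26448, 8304) (by decide +kernel)
              (CovZ.leaf K2_ok TB_l11183 _)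
              (CovZ.n1 (-26448, 8352) (by decide +kernel)
               (CovZ.leaf K2_ok TB_l11184 _)
               (CovZ.leaf K2_ok TB_l11185 _)))))
           (CovZ.n1 (-26400, 8160) (by decide +kernel)
            (CovZ.n2 (-26496, 8160) (by decide +kernel)
             (CovZ.n2 (-26448, 8208) (by decide +kernel)
              (CovZ.leaf K2_ok TB_l11186 _)
              (CovZ.leaf K2_ok TB_l11187 _))
             (CovZ.n1 (-26448, 8112) (by decide +kernel)
              (CovZ.leaf K2_ok TB_l11188 _)
              (CovZ.leaf K2_ok TB_l11189 _)))
            (CovZ.n1 (-26400, 8256) (by decide +kernel)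
             (CovZ.n2 (-26352, 8208) (by decide +kernel)
              (CovZ.leaf K2_ok TB_l11190 _)
              (CovZ.n1 (-26352, 8256) (by decide +kernel)
               (CovZ.leaf K2_ok TB_l11191 _)
               (CovZ.leaf K2_ok TB_l11192 _)))
             (CovZ.n1 (-26448, 8208) (by decide +kernel)
              (CovZ.n2 (-26448, 8256) (by decide +kernel)
               (CovZ.leaf K2_ok TB_l11193 _)
               (CovZ.leaf K2_ok TB_l11194 _))
              (CovZ.leaf K2_ok TB_l11195 _))))))
         (CovZ.n1 (-26304, 8448) (by decide +kernel)
          (CovZ.n2 (-26208, 8352) (by decide +kernel)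
           (CovZ.subM 15914343565113172548972232043545440266657670660653190474193275557166015151374404635852800 (by decide +kernel)
            (CovZ.n2 (-26304, 8352) (by decide +kernel)
             (CovZ.n2 (-26256, 8400) (by decide +kernel)
              (CovZ.leaf K2_ok TB_l11196 _)
              (CovZ.leaf K2_ok TB_l11197 _))
             (CovZ.n1 (-26256, 8304) (by decide +kernel)
              (CovZ.leaf K2_ok TB_l11198 _)
              (CovZ.leaf K2_ok TB_l11199 _))))
           (CovZ.n1 (-26208, 8448) (by decide +kernel)
            (CovZ.n2 (-26160, 8400) (by decide +kernel)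
             (CovZ.leaf K2_ok TB_l11200 _)
             (CovZ.leaf K2_ok TB_l11201 _))
            (CovZ.n1 (-26256, 8400) (by decide +kernel)
             (CovZ.leaf K2_ok TB_l11202 _)
             (CovZ.leaf K2_ok TB_l11203 _))))
          (CovZ.subM 15914343565113172548972232043545440266657670660653190474193275557166015151374404635852800 (by decide +kernel)
           (CovZ.n1 (-26400, 8352) (by decide +kernel)
            (CovZ.n2 (-26400, 8448) (by decide +kernel)
             (CovZ.n2 (-26352, 8400) (by decide +kernel)
              (CovZ.leaf K2_ok TB_l11204 _)
              (CovZ.leaf K2_ok TB_l11205 _))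
             (CovZ.n1 (-26448, 8400) (by decide +kernel)
              (CovZ.leaf K2_ok TB_l11206 _)
              (CovZ.leaf K2_ok TB_l11207 _)))
            (CovZ.n1 (-26304, 8352) (by decide +kernel)
             (CovZ.n2 (-26352, 8304) (by decide +kernel)
              (CovZ.n2 (-26352, 8352) (by decide +kernel)
               (CovZ.leaf K2_ok TB_l11208 _)
               (CovZ.leaf K2_ok TB_l11209 _))
              (CovZ.leaf K2_ok TB_l11210 _))
             (CovZ.n1 (-26352, 8400) (by decide +kernel)
              (CovZ.leaf K2_ok TB_l11211 _)
              (CovZ.n1 (-26352, 8352) (by decide +kernel)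
               (CovZ.leaf K2_ok TB_l11212 _)
               (CovZ.leaf K2_ok TB_l11213 _))))))))
        (CovZ.n1 (-26688, 8256) (by decide +kernel)
         (CovZ.n2 (-26688, 8448) (by decide +kernel)
          (CovZ.subM 15914343565113172548972232043545440266657670660653190474193275557166015151374404644241408 (by decide +kernel)
           (CovZ.n2 (-26592, 8352) (by decide +kernel)
            (CovZ.n2 (-26688, 8352) (by decide +kernel)
             (CovZ.n2 (-26640, 8400) (by decide +kernel)
              (CovZ.leaf K2_ok TB_l11214 _)
              (CovZ.leaf K2_ok TB_l11215 _))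
             (CovZ.n1 (-26640, 8304) (by decide +kernel)
              (CovZ.leaf K2_ok TB_l11216 _)
              (CovZ.leaf K2_ok TB_l11217 _)))
            (CovZ.n1 (-26592, 8448) (by decide +kernel)
             (CovZ.n2 (-26544, 8400) (by decide +kernel)
              (CovZ.leaf K2_ok TB_l11218 _)
              (CovZ.leaf K2_ok TB_l11219 _))
             (CovZ.n1 (-26640, 8400) (by decide +kernel)
              (CovZ.leaf K2_ok TB_l11220 _)
              (CovZ.leaf K2_ok TB_l11221 _)))))
          (CovZ.n1 (-26784, 8352) (by decide +kernel)
           (CovZ.n2 (-26784, 8448) (by decide +kernel)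
            (CovZ.n2 (-26736, 8400) (by decide +kernel)
             (CovZ.leaf K2_ok TB_l11222 _)
             (CovZ.leaf K2_ok TB_l11223 _))
            (CovZ.leaf K2_ok TB_l11224 _))
           (CovZ.n1 (-26688, 8352) (by decide +kernel)
            (CovZ.leaf K2_ok TB_l11225 _)
            (CovZ.leaf K2_ok TB_l11226 _))))
         (CovZ.subM 15914343565113172548972232043545440266657670660653190474193275557166015151374404644241408 (by decide +kernel)
          (CovZ.n1 (-26496, 8256) (by decide +kernel)
           (CovZ.n2 (-26592, 8160) (by decide +kernel)
            (CovZ.n2 (-26592, 8256) (by decide +kernel)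
             (CovZ.n2 (-26544, 8208) (by decide +kernel)
              (CovZ.leaf K2_ok TB_l11227 _)
              (CovZ.leaf K2_ok TB_l11228 _))
             (CovZ.leaf K2_ok TB_l11229 _))
            (CovZ.n1 (-26496, 8160) (by decide +kernel)
             (CovZ.leaf K2_ok TB_l11230 _)
             (CovZ.n1 (-26544, 8208) (by decide +kernel)
              (CovZ.leaf K2_ok TB_l11231 _)
              (CovZ.leaf K2_ok TB_l11232 _))))
           (CovZ.n1 (-26592, 8352) (by decide +kernel)
            (CovZ.n2 (-26496, 8352) (by decide +kernel)
             (CovZ.n2 (-26544, 8304) (by decide +kernel)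
              (CovZ.n2 (-26544, 8352) (by decide +kernel)
               (CovZ.leaf K2_ok TB_l11233 _)
               (CovZ.leaf K2_ok TB_l11234 _))
              (CovZ.leaf K2_ok TB_l11235 _))
             (CovZ.n1 (-26544, 8400) (by decide +kernel)
              (CovZ.leaf K2_ok TB_l11236 _)
              (CovZ.n1 (-26544, 8352) (by decide +kernel)
               (CovZ.leaf K2_ok TB_l11237 _)
               (CovZ.leaf K2_ok TB_l11238 _))))
            (CovZ.n1 (-26592, 8256) (by decide +kernel)
             (CovZ.n2 (-26640, 8304) (by decide +kernel)
              (CovZ.leaf K2_ok TB_l11239 _)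
              (CovZ.leaf K2_ok TB_l11240 _))
             (CovZ.n1 (-26544, 8304) (by decide +kernel)
              (CovZ.leaf K2_ok TB_l11241 _)
              (CovZ.leaf K2_ok TB_l11242 _))))))))

theorem TB_u188 : CovZ TB_M (toL (selN TB_LN 15914343565113172548972232070059917996931010207095564998146977052440791275573642451484800)) [0, 7, 6, 1] (-26496, 8064) (-26112, 7680) (-26112, 8448) :=
    (CovZ.n1 (-26112, 8064) (by decide +kernel)
        (CovZ.n2 (-26304, 7872) (by decide +kernel)
         (CovZ.n2 (-26304, 8064) (by decide +kernel)
          (CovZ.n2 (-26208, 7968) (by decide +kernel)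
           (CovZ.subM 15914343565113172548972232043545440266657670660653190474193275557166015151374404635852800 (by decide +kernel)
            (CovZ.n2 (-26304, 7968) (by decide +kernel)
             (CovZ.n2 (-26256, 8016) (by decide +kernel)
              (CovZ.leaf K2_ok TB_l11243 _)
              (CovZ.leaf K2_ok TB_l11244 _))
             (CovZ.n1 (-26256, 7920) (by decide +kernel)
              (CovZ.leaf K2_ok TB_l11245 _)
              (CovZ.n1 (-26256, 7968) (by decide +kernel)
               (CovZ.leaf K2_ok TB_l11246 _)
               (CovZ.leaf K2_ok TB_l11247 _)))))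
           (CovZ.n1 (-26208, 8064) (by decide +kernel)
            (CovZ.n2 (-26160, 8016) (by decide +kernel)
             (CovZ.n2 (-26208, 8016) (by decide +kernel)
              (CovZ.leaf K2_ok TB_l11248 _)
              (CovZ.leaf K2_ok TB_l11249 _))
             (CovZ.n1 (-26160, 8064) (by decide +kernel)
              (CovZ.leaf K2_ok TB_l11250 _)
              (CovZ.leaf K2_ok TB_l11251 _)))
            (CovZ.n1 (-26256, 8016) (by decide +kernel)
             (CovZ.n2 (-26256, 8064) (by decide +kernel)
              (CovZ.leaf K2_ok TB_l11252 _)
              (CovZ.leaf K2_ok TB_l11253 _))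
             (CovZ.leaf K2_ok TB_l11254 _))))
          (CovZ.subM 15914343565113172548972232043545440266657670660653190474193275557166015151374404635852800 (by decide +kernel)
           (CovZ.n1 (-26400, 7968) (by decide +kernel)
            (CovZ.n2 (-26400, 8064) (by decide +kernel)
             (CovZ.n2 (-26352, 8016) (by decide +kernel)
              (CovZ.leaf K2_ok TB_l11255 _)
              (CovZ.leaf K2_ok TB_l11256 _))
             (CovZ.leaf K2_ok TB_l11257 _))
            (CovZ.n1 (-26304, 7968) (by decide +kernel)
             (CovZ.leaf K2_ok TB_l11258 _)
             (CovZ.n1 (-26352, 8016) (by decide +kernel)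
              (CovZ.leaf K2_ok TB_l11259 _)
              (CovZ.leaf K2_ok TB_l11260 _))))))
         (CovZ.n1 (-26112, 7872) (by decide +kernel)
          (CovZ.subM 15914343565113172548972232044348909288787165798424171520363856858427116648265801053503488 (by decide +kernel)
           (CovZ.n2 (-26208, 7776) (by decide +kernel)
            (CovZ.n2 (-26208, 7872) (by decide +kernel)
             (CovZ.n2 (-26160, 7824) (by decide +kernel)
              (CovZ.leaf K2_ok TB_l11261 _)
              (CovZ.n1 (-26160, 7872) (by decide +kernel)
               (CovZ.leaf K2_ok TB_l11262 _)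
               (CovZ.leaf K2_ok TB_l11263 _)))
             (CovZ.leaf K2_ok TB_l11264 _))
            (CovZ.n1 (-26112, 7776) (by decide +kernel)
             (CovZ.leaf K2_ok TB_l11265 _)
             (CovZ.n1 (-26160, 7824) (by decide +kernel)
              (CovZ.leaf K2_ok TB_l11266 _)
              (CovZ.leaf K2_ok TB_l11267 _)))))
          (CovZ.n1 (-26208, 7968) (by decide +kernel)
           (CovZ.n2 (-26112, 7968) (by decide +kernel)
            (CovZ.n2 (-26160, 7920) (by decide +kernel)
             (CovZ.n2 (-26160, 7968) (by decide +kernel)
              (CovZ.leaf K2_ok TB_l11268 _)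
              (CovZ.leaf K2_ok TB_l11269 _))
             (CovZ.leaf K2_ok TB_l11270 _))
            (CovZ.n1 (-26160, 8016) (by decide +kernel)
             (CovZ.leaf K2_ok TB_l11271 _)
             (CovZ.n1 (-26160, 7968) (by decide +kernel)
              (CovZ.leaf K2_ok TB_l11272 _)
              (CovZ.leaf K2_ok TB_l11273 _))))
           (CovZ.n1 (-26208, 7872) (by decide +kernel)
            (CovZ.n2 (-26256, 7920) (by decide +kernel)
             (CovZ.leaf K2_ok TB_l11274 _)
             (CovZ.leaf K2_ok TB_l11275 _))
            (CovZ.n1 (-26160, 7920) (by decide +kernel)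
             (CovZ.leaf K2_ok TB_l11276 _)
             (CovZ.leaf K2_ok TB_l11277 _))))))
        (CovZ.n1 (-26304, 8256) (by decide +kernel)
         (CovZ.n2 (-26112, 8256) (by decide +kernel)
          (CovZ.n2 (-26208, 8160) (by decide +kernel)
           (CovZ.n2 (-26208, 8256) (by decide +kernel)
            (CovZ.n2 (-26160, 8208) (by decide +kernel)
             (CovZ.leaf K2_ok TB_l11278 _)
             (CovZ.leaf K2_ok TB_l11279 _))
            (CovZ.n1 (-26256, 8208) (by decide +kernel)
             (CovZ.n2 (-26256, 8256) (by decide +kernel)
              (CovZ.leaf K2_ok TB_l11280 _)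
              (CovZ.leaf K2_ok TB_l11281 _))
             (CovZ.leaf K2_ok TB_l11282 _)))
           (CovZ.n1 (-26112, 8160) (by decide +kernel)
            (CovZ.n2 (-26160, 8112) (by decide +kernel)
             (CovZ.n2 (-26160, 8160) (by decide +kernel)
              (CovZ.leaf K2_ok TB_l11283 _)
              (CovZ.leaf K2_ok TB_l11284 _))
             (CovZ.leaf K2_ok TB_l11285 _))
            (CovZ.n1 (-26160, 8208) (by decide +kernel)
             (CovZ.leaf K2_ok TB_l11286 _)
             (CovZ.n1 (-26160, 8160) (by decide +kernel)
              (CovZ.leaf K2_ok TB_l11287 _)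
              (CovZ.leaf K2_ok TB_l11288 _)))))
          (CovZ.n1 (-26208, 8352) (by decide +kernel)
           (CovZ.n2 (-26112, 8352) (by decide +kernel)
            (CovZ.n2 (-26160, 8304) (by decide +kernel)
             (CovZ.leaf K2_ok TB_l11289 _)
             (CovZ.leaf K2_ok TB_l11290 _))
            (CovZ.n1 (-26160, 8400) (by decide +kernel)
             (CovZ.leaf K2_ok TB_l11291 _)
             (CovZ.leaf K2_ok TB_l11292 _)))
           (CovZ.n1 (-26208, 8256) (by decide +kernel)
            (CovZ.n2 (-26256, 8304) (by decide +kernel)
             (CovZ.leaf K2_ok TB_l11293 _)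
             (CovZ.leaf K2_ok TB_l11294 _))
            (CovZ.n1 (-26160, 8304) (by decide +kernel)
             (CovZ.leaf K2_ok TB_l11295 _)
             (CovZ.leaf K2_ok TB_l11296 _)))))
         (CovZ.n1 (-26304, 8064) (by decide +kernel)
          (CovZ.subM 15914343565113172548972232043545440266657670660653190474193275557166015151374404635852800 (by decide +kernel)
           (CovZ.n2 (-26400, 8160) (by decide +kernel)
            (CovZ.n2 (-26304, 8160) (by decide +kernel)
             (CovZ.n2 (-26352, 8112) (by decide +kernel)
              (CovZ.n2 (-26352, 8160) (by decide +kernel)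
               (CovZ.leaf K2_ok TB_l11297 _)
               (CovZ.leaf K2_ok TB_l11298 _))
              (CovZ.leaf K2_ok TB_l11299 _))
             (CovZ.n1 (-26352, 8208) (by decide +kernel)
              (CovZ.leaf K2_ok TB_l11300 _)
              (CovZ.n1 (-26352, 8160) (by decide +kernel)
               (CovZ.leaf K2_ok TB_l11301 _)
               (CovZ.leaf K2_ok TB_l11302 _))))
            (CovZ.n1 (-26400, 8064) (by decide +kernel)
             (CovZ.n2 (-26448, 8112) (by decide +kernel)
              (CovZ.leaf K2_ok TB_l11303 _)
              (CovZ.leaf K2_ok TB_l11304 _))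
             (CovZ.n1 (-26352, 8112) (by decide +kernel)
              (CovZ.leaf K2_ok TB_l11305 _)
              (CovZ.leaf K2_ok TB_l11306 _)))))
          (CovZ.n1 (-26208, 8160) (by decide +kernel)
           (CovZ.n2 (-26208, 8064) (by decide +kernel)
            (CovZ.n2 (-26256, 8112) (by decide +kernel)
             (CovZ.leaf K2_ok TB_l11307 _)
             (CovZ.n1 (-26256, 8064) (by decide +kernel)
              (CovZ.leaf K2_ok TB_l11308 _)
              (CovZ.leaf K2_ok TB_l11309 _)))
            (CovZ.n1 (-26160, 8112) (by decide +kernel)
             (CovZ.n2 (-26160, 8064) (by decide +kernel)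
              (CovZ.leaf K2_ok TB_l11310 _)
              (CovZ.leaf K2_ok TB_l11311 _))
             (CovZ.leaf K2_ok TB_l11312 _)))
           (CovZ.subM 15914343565113172548972232043545440266657670660653190474193275557166015151374404635852800 (by decide +kernel)
            (CovZ.n1 (-26304, 8160) (by decide +kernel)
             (CovZ.n2 (-26256, 8208) (by decide +kernel)
              (CovZ.n2 (-26256, 8160) (by decide +kernel)
               (CovZ.leaf K2_ok TB_l11313 _)
               (CovZ.leaf K2_ok TB_l11314 _))
              (CovZ.leaf K2_ok TB_l11315 _))
             (CovZ.n1 (-26256, 8112) (by decide +kernel)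
              (CovZ.leaf K2_ok TB_l11316 _)
              (CovZ.n1 (-26256, 8160) (by decide +kernel)
               (CovZ.leaf K2_ok TB_l11317 _)
               (CovZ.leaf K2_ok TB_l11318 _)))))))))

theorem TB_u189 : CovZ TB_M (toL (selN TB_LN 5043456793138493409163742411815518257049143405820818034654118408311640645211198296127223740795574028255304586906304640)) [0, 7, 6, 1] (-26112, 9216) (-26880, 8448) (-26112, 7680) :=
    (CovZ.n2 (-26112, 8448) (by decide +kernel)
     (CovZ.subM 15914343565113172548972232070059917996931010207095564998146977052440791275573642451484800 (by decide +kernel)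
      (CovZ.n2 (-26496, 8064) (by decide +kernel)
       TB_u187
       TB_u188))
     (CovZ.n1 (-26496, 8832) (by decide +kernel)
      (CovZ.subM 69992023193072295923485184440312855923345770697871585131423083576638859831238456659800687465803808896 (by decide +kernel)
       (CovZ.n2 (-26112, 8832) (by decide +kernel)
        (CovZ.n2 (-26304, 8640) (by decide +kernel)
         (CovZ.n2 (-26304, 8832) (by decide +kernel)
          (CovZ.n2 (-26208, 8736) (by decide +kernel)
           (CovZ.n2 (-26304, 8736) (by decide +kernel)
            (CovZ.leaf K2_ok TB_l11319 _)
            (CovZ.leaf K2_ok TB_l11320 _))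
           (CovZ.n1 (-26208, 8832) (by decide +kernel)
            (CovZ.leaf K2_ok TB_l11321 _)
            (CovZ.leaf K2_ok TB_l11322 _)))
          (CovZ.n1 (-26400, 8736) (by decide +kernel)
           (CovZ.n2 (-26400, 8832) (by decide +kernel)
            (CovZ.leaf K2_ok TB_l11323 _)
            (CovZ.leaf K2_ok TB_l11324 _))
           (CovZ.n1 (-26304, 8736) (by decide +kernel)
            (CovZ.leaf K2_ok TB_l11325 _)
            (CovZ.leaf K2_ok TB_l11326 _))))
         (CovZ.n1 (-26112, 8640) (by decide +kernel)
          (CovZ.n2 (-26208, 8544) (by decide +kernel)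
           (CovZ.n2 (-26208, 8640) (by decide +kernel)
            (CovZ.n2 (-26160, 8592) (by decide +kernel)
             (CovZ.leaf K2_ok TB_l11327 _)
             (CovZ.leaf K2_ok TB_l11328 _))
            (CovZ.leaf K2_ok TB_l11329 _))
           (CovZ.n1 (-26112, 8544) (by decide +kernel)
            (CovZ.n2 (-26160, 8496) (by decide +kernel)
             (CovZ.leaf K2_ok TB_l11330 _)
             (CovZ.leaf K2_ok TB_l11331 _))
            (CovZ.n1 (-26160, 8592) (by decide +kernel)
             (CovZ.leaf K2_ok TB_l11332 _)
             (CovZ.leaf K2_ok TB_l11333 _))))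
          (CovZ.n1 (-26208, 8736) (by decide +kernel)
           (CovZ.n2 (-26112, 8736) (by decide +kernel)
            (CovZ.leaf K2_ok TB_l11334 _)
            (CovZ.leaf K2_ok TB_l11335 _))
           (CovZ.n1 (-26208, 8640) (by decide +kernel)
            (CovZ.leaf K2_ok TB_l11336 _)
            (CovZ.leaf K2_ok TB_l11337 _)))))
        (CovZ.n1 (-26304, 9024) (by decide +kernel)
         (CovZ.n2 (-26112, 9024) (by decide +kernel)
          (CovZ.n2 (-26208, 8928) (by decide +kernel)
           (CovZ.n2 (-26208, 9024) (by decide +kernel)
            (CovZ.leaf K2_ok TB_l11338 _)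
            (CovZ.leaf K2_ok TB_l11339 _))
           (CovZ.n1 (-26112, 8928) (by decide +kernel)
            (CovZ.leaf K2_ok TB_l11340 _)
            (CovZ.leaf K2_ok TB_l11341 _)))
          (CovZ.n1 (-26208, 9120) (by decide +kernel)
           (CovZ.leaf K2_ok TB_l11342 _)
           (CovZ.n1 (-26208, 9024) (by decide +kernel)
            (CovZ.leaf K2_ok TB_l11343 _)
            (CovZ.leaf K2_ok TB_l11344 _))))
         (CovZ.n1 (-26304, 8832) (by decide +kernel)
          (CovZ.n2 (-26400, 8928) (by decide +kernel)
           (CovZ.leaf K2_ok TB_l11345 _)
           (CovZ.n1 (-26400, 8832) (by decide +kernel)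
            (CovZ.leaf K2_ok TB_l11346 _)
            (CovZ.leaf K2_ok TB_l11347 _)))
          (CovZ.n1 (-26208, 8928) (by decide +kernel)
           (CovZ.n2 (-26208, 8832) (by decide +kernel)
            (CovZ.leaf K2_ok TB_l11348 _)
            (CovZ.leaf K2_ok TB_l11349 _))
           (CovZ.n1 (-26304, 8928) (by decide +kernel)
            (CovZ.leaf K2_ok TB_l11350 _)
            (CovZ.leaf K2_ok TB_l11351 _)))))))
      (CovZ.subM 15914343565113172548972232070059917996931010207095564998146977052440791275573642451484800 (by decide +kernel)
       (CovZ.n1 (-26496, 8448) (by decide +kernel)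
        (CovZ.n2 (-26688, 8640) (by decide +kernel)
         (CovZ.subM 15914343565113172548972232043545440266657670660653190474193275557166015151374404644241408 (by decide +kernel)
          (CovZ.n2 (-26496, 8640) (by decide +kernel)
           (CovZ.n2 (-26592, 8544) (by decide +kernel)
            (CovZ.n2 (-26592, 8640) (by decide +kernel)
             (CovZ.n2 (-26544, 8592) (by decide +kernel)
              (CovZ.leaf K2_ok TB_l11352 _)
              (CovZ.leaf K2_ok TB_l11353 _))
             (CovZ.leaf K2_ok TB_l11354 _))
            (CovZ.n1 (-26496, 8544) (by decide +kernel)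
             (CovZ.n2 (-26544, 8496) (by decide +kernel)
              (CovZ.leaf K2_ok TB_l11355 _)
              (CovZ.leaf K2_ok TB_l11356 _))
             (CovZ.n1 (-26544, 8592) (by decide +kernel)
              (CovZ.leaf K2_ok TB_l11357 _)
              (CovZ.leaf K2_ok TB_l11358 _))))
           (CovZ.n1 (-26592, 8736) (by decide +kernel)
            (CovZ.n2 (-26496, 8736) (by decide +kernel)
             (CovZ.leaf K2_ok TB_l11359 _)
             (CovZ.leaf K2_ok TB_l11360 _))
            (CovZ.n1 (-26592, 8640) (by decide +kernel)
             (CovZ.leaf K2_ok TB_l11361 _)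
             (CovZ.leaf K2_ok TB_l11362 _)))))
         (CovZ.n1 (-26688, 8448) (by decide +kernel)
          (CovZ.n2 (-26784, 8544) (by decide +kernel)
           (CovZ.subM 15914343565113172548972232043545440266657670660653190474193275557166015151374404644241408 (by decide +kernel)
            (CovZ.n2 (-26688, 8544) (by decide +kernel)
             (CovZ.n2 (-26736, 8496) (by decide +kernel)
              (CovZ.leaf K2_ok TB_l11363 _)
              (CovZ.leaf K2_ok TB_l11364 _))
             (CovZ.n1 (-26736, 8592) (by decide +kernel)
              (CovZ.leaf K2_ok TB_l11365 _)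
              (CovZ.leaf K2_ok TB_l11366 _))))
           (CovZ.n1 (-26784, 8448) (by decide +kernel)
            (CovZ.n2 (-26832, 8496) (by decide +kernel)
             (CovZ.leaf K2_ok TB_l11367 _)
             (CovZ.leaf K2_ok TB_l11368 _))
            (CovZ.n1 (-26736, 8496) (by decide +kernel)
             (CovZ.leaf K2_ok TB_l11369 _)
             (CovZ.leaf K2_ok TB_l11370 _))))
          (CovZ.subM 15914343565113172548972232043545440266657670660653190474193275557166015151374404644241408 (by decide +kernel)
           (CovZ.n1 (-26592, 8544) (by decide +kernel)
            (CovZ.n2 (-26592, 8448) (by decide +kernel)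
             (CovZ.n2 (-26640, 8496) (by decide +kernel)
              (CovZ.leaf K2_ok TB_l11371 _)
              (CovZ.leaf K2_ok TB_l11372 _))
             (CovZ.n1 (-26544, 8496) (by decide +kernel)
              (CovZ.leaf K2_ok TB_l11373 _)
              (CovZ.leaf K2_ok TB_l11374 _)))
            (CovZ.n1 (-26688, 8544) (by decide +kernel)
             (CovZ.n2 (-26640, 8592) (by decide +kernel)
              (CovZ.leaf K2_ok TB_l11375 _)
              (CovZ.leaf K2_ok TB_l11376 _))
             (CovZ.n1 (-26640, 8496) (by decide +kernel)
              (CovZ.leaf K2_ok TB_l11377 _)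
              (CovZ.leaf K2_ok TB_l11378 _)))))))
        (CovZ.n1 (-26304, 8640) (by decide +kernel)
         (CovZ.n2 (-26304, 8448) (by decide +kernel)
          (CovZ.subM 15914343565113172548972232043545440266657670660653190474193275557166015151374404635852800 (by decide +kernel)
           (CovZ.n2 (-26400, 8544) (by decide +kernel)
            (CovZ.n2 (-26304, 8544) (by decide +kernel)
             (CovZ.n2 (-26352, 8496) (by decide +kernel)
              (CovZ.leaf K2_ok TB_l11379 _)
              (CovZ.leaf K2_ok TB_l11380 _))
             (CovZ.n1 (-26352, 8592) (by decide +kernel)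
              (CovZ.leaf K2_ok TB_l11381 _)
              (CovZ.leaf K2_ok TB_l11382 _)))
            (CovZ.n1 (-26400, 8448) (by decide +kernel)
             (CovZ.n2 (-26448, 8496) (by decide +kernel)
              (CovZ.leaf K2_ok TB_l11383 _)
              (CovZ.leaf K2_ok TB_l11384 _))
             (CovZ.n1 (-26352, 8496) (by decide +kernel)
              (CovZ.leaf K2_ok TB_l11385 _)
              (CovZ.leaf K2_ok TB_l11386 _)))))
          (CovZ.n1 (-26208, 8544) (by decide +kernel)
           (CovZ.n2 (-26208, 8448) (by decide +kernel)
            (CovZ.n2 (-26256, 8496) (by decide +kernel)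
             (CovZ.leaf K2_ok TB_l11387 _)
             (CovZ.leaf K2_ok TB_l11388 _))
            (CovZ.n1 (-26160, 8496) (by decide +kernel)
             (CovZ.leaf K2_ok TB_l11389 _)
             (CovZ.leaf K2_ok TB_l11390 _)))
           (CovZ.subM 15914343565113172548972232043545440266657670660653190474193275557166015151374404635852800 (by decide +kernel)
            (CovZ.n1 (-26304, 8544) (by decide +kernel)
             (CovZ.n2 (-26256, 8592) (by decide +kernel)
              (CovZ.leaf K2_ok TB_l11391 _)
              (CovZ.leaf K2_ok TB_l11392 _))
             (CovZ.n1 (-26256, 8496) (by decide +kernel)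
              (CovZ.leaf K2_ok TB_l11393 _)
              (CovZ.leaf K2_ok TB_l11394 _))))))
         (CovZ.subM 15914343565113172548972232043545440266657670660653190474193275557166015151374404644241408 (by decide +kernel)
          (CovZ.n1 (-26496, 8640) (by decide +kernel)
           (CovZ.n2 (-26400, 8736) (by decide +kernel)
            (CovZ.n2 (-26400, 8640) (by decide +kernel)
             (CovZ.leaf K2_ok TB_l11395 _)
             (CovZ.leaf K2_ok TB_l11396 _))
            (CovZ.n1 (-26496, 8736) (by decide +kernel)
             (CovZ.leaf K2_ok TB_l11397 _)
             (CovZ.leaf K2_ok TB_l11398 _)))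
           (CovZ.n1 (-26400, 8544) (by decide +kernel)
            (CovZ.n2 (-26496, 8544) (by decide +kernel)
             (CovZ.n2 (-26448, 8592) (by decide +kernel)
              (CovZ.leaf K2_ok TB_l11399 _)
              (CovZ.leaf K2_ok TB_l11400 _))
             (CovZ.n1 (-26448, 8496) (by decide +kernel)
              (CovZ.leaf K2_ok TB_l11401 _)
              (CovZ.leaf K2_ok TB_l11402 _)))
            (CovZ.n1 (-26400, 8640) (by decide +kernel)
             (CovZ.leaf K2_ok TB_l11403 _)
             (CovZ.leaf K2_ok TB_l11404 _))))))))))

theorem TB_u190 : CovZ TB_M (toL (selN TB_LN 5043456793138493409163742411815518257049143405820818034654118408311640645211198296127223740795574028255304586906304640)) [0, 7, 6, 1] (-26880, 8448) (-27648, 7680) (-26112, 7680) :=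
    (CovZ.n1 (-26880, 7680) (by decide +kernel)
     (CovZ.n2 (-27264, 8064) (by decide +kernel)
      (CovZ.subM 15914343565113172548972232069256448974801515158527564746098888317322562869275692053561344 (by decide +kernel)
       (CovZ.n2 (-26880, 8064) (by decide +kernel)
        (CovZ.n2 (-27072, 7872) (by decide +kernel)
         (CovZ.n2 (-27072, 8064) (by decide +kernel)
          (CovZ.n2 (-26976, 7968) (by decide +kernel)
           (CovZ.leaf K2_ok TB_l11405 _)
           (CovZ.leaf K2_ok TB_l11406 _))
          (CovZ.leaf K2_ok TB_l11407 _))
         (CovZ.n1 (-26880, 7872) (by decide +kernel)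
          (CovZ.leaf K2_ok TB_l11408 _)
          (CovZ.n1 (-26976, 7968) (by decide +kernel)
           (CovZ.leaf K2_ok TB_l11409 _)
           (CovZ.leaf K2_ok TB_l11410 _))))
        (CovZ.n1 (-27072, 8256) (by decide +kernel)
         (CovZ.n2 (-26880, 8256) (by decide +kernel)
          (CovZ.n2 (-26976, 8160) (by decide +kernel)
           (CovZ.leaf K2_ok TB_l11411 _)
           (CovZ.leaf K2_ok TB_l11412 _))
          (CovZ.n1 (-26976, 8352) (by decide +kernel)
           (CovZ.leaf K2_ok TB_l11413 _)
           (CovZ.leaf K2_ok TB_l11414 _)))
         (CovZ.n1 (-27072, 8064) (by decide +kernel)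
          (CovZ.leaf K2_ok TB_l11415 _)
          (CovZ.n1 (-26976, 8160) (by decide +kernel)
           (CovZ.leaf K2_ok TB_l11416 _)
           (CovZ.leaf K2_ok TB_l11417 _))))))
      (CovZ.n1 (-27264, 7680) (by decide +kernel)
       (CovZ.n2 (-27456, 7872) (by decide +kernel)
        (CovZ.leaf K2_ok TB_l11418 _)
        (CovZ.n1 (-27456, 7680) (by decide +kernel)
         (CovZ.leaf K2_ok TB_l11419 _)
         (CovZ.leaf K2_ok TB_l11420 _)))
       (CovZ.subM 15914343565113172548972232069256448974801515158527564746098888317322562869275692053561344 (by decide +kernel)
        (CovZ.n1 (-27072, 7872) (by decide +kernel)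
         (CovZ.n2 (-27072, 7680) (by decide +kernel)
          (CovZ.leaf K2_ok TB_l11421 _)
          (CovZ.leaf K2_ok TB_l11422 _))
         (CovZ.n1 (-27264, 7872) (by decide +kernel)
          (CovZ.leaf K2_ok TB_l11423 _)
          (CovZ.leaf K2_ok TB_l11424 _))))))
     (CovZ.subM 15914343565113172548972232070059917996931010207095564998146977052440791275573642451484800 (by decide +kernel)
      (CovZ.n1 (-26496, 8064) (by decide +kernel)
       (CovZ.n2 (-26496, 7680) (by decide +kernel)
        (CovZ.n2 (-26688, 7872) (by decide +kernel)
         (CovZ.subM 15914343565113172548972232043545440266657670660653190474193275557166015151374404635852800 (by decide +kernel)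
          (CovZ.n2 (-26496, 7872) (by decide +kernel)
           (CovZ.n2 (-26592, 7776) (by decide +kernel)
            (CovZ.n2 (-26592, 7872) (by decide +kernel)
             (CovZ.leaf K2_ok TB_l11425 _)
             (CovZ.leaf K2_ok TB_l11426 _))
            (CovZ.leaf K2_ok TB_l11427 _))
           (CovZ.n1 (-26592, 7968) (by decide +kernel)
            (CovZ.n2 (-26496, 7968) (by decide +kernel)
             (CovZ.leaf K2_ok TB_l11428 _)
             (CovZ.leaf K2_ok TB_l11429 _))
            (CovZ.n1 (-26592, 7872) (by decide +kernel)
             (CovZ.leaf K2_ok TB_l11430 _)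
             (CovZ.leaf K2_ok TB_l11431 _)))))
         (CovZ.n1 (-26688, 7680) (by decide +kernel)
          (CovZ.n2 (-26784, 7776) (by decide +kernel)
           (CovZ.leaf K2_ok TB_l11432 _)
           (CovZ.leaf K2_ok TB_l11433 _))
          (CovZ.n1 (-26592, 7776) (by decide +kernel)
           (CovZ.leaf K2_ok TB_l11434 _)
           (CovZ.leaf K2_ok TB_l11435 _))))
        (CovZ.n1 (-26304, 7872) (by decide +kernel)
         (CovZ.subM 15914343565113172548972232044348909288787165798424171520363856858427116648265801053503488 (by decide +kernel)
          (CovZ.n2 (-26304, 7680) (by decide +kernel)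
           (CovZ.n2 (-26400, 7776) (by decide +kernel)
            (CovZ.n2 (-26304, 7776) (by decide +kernel)
             (CovZ.leaf K2_ok TB_l11436 _)
             (CovZ.leaf K2_ok TB_l11437 _))
            (CovZ.n1 (-26400, 7680) (by decide +kernel)
             (CovZ.leaf K2_ok TB_l11438 _)
             (CovZ.leaf K2_ok TB_l11439 _)))
           (CovZ.n1 (-26208, 7776) (by decide +kernel)
            (CovZ.n2 (-26208, 7680) (by decide +kernel)
             (CovZ.leaf K2_ok TB_l11440 _)
             (CovZ.leaf K2_ok TB_l11441 _))
            (CovZ.n1 (-26304, 7776) (by decide +kernel)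
             (CovZ.leaf K2_ok TB_l11442 _)
             (CovZ.leaf K2_ok TB_l11443 _)))))
         (CovZ.subM 15914343565113172548972232043545440266657670660653190474193275557166015151374404635852800 (by decide +kernel)
          (CovZ.n1 (-26496, 7872) (by decide +kernel)
           (CovZ.n2 (-26400, 7968) (by decide +kernel)
            (CovZ.n2 (-26400, 7872) (by decide +kernel)
             (CovZ.leaf K2_ok TB_l11444 _)
             (CovZ.leaf K2_ok TB_l11445 _))
            (CovZ.n1 (-26496, 7968) (by decide +kernel)
             (CovZ.leaf K2_ok TB_l11446 _)
             (CovZ.leaf K2_ok TB_l11447 _)))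
           (CovZ.n1 (-26400, 7776) (by decide +kernel)
            (CovZ.leaf K2_ok TB_l11448 _)
            (CovZ.n1 (-26400, 7872) (by decide +kernel)
             (CovZ.leaf K2_ok TB_l11449 _)
             (CovZ.leaf K2_ok TB_l11450 _)))))))
       (CovZ.n1 (-26880, 8064) (by decide +kernel)
        (CovZ.n2 (-26688, 8256) (by decide +kernel)
         (CovZ.n2 (-26688, 8064) (by decide +kernel)
          (CovZ.n2 (-26784, 8160) (by decide +kernel)
           (CovZ.leaf K2_ok TB_l11451 _)
           (CovZ.leaf K2_ok TB_l11452 _))
          (CovZ.subM 15914343565113172548972232043545440266657670660653190474193275557166015151374404644241408 (by decide +kernel)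
           (CovZ.n1 (-26592, 8160) (by decide +kernel)
            (CovZ.n2 (-26592, 8064) (by decide +kernel)
             (CovZ.leaf K2_ok TB_l11453 _)
             (CovZ.leaf K2_ok TB_l11454 _))
            (CovZ.n1 (-26688, 8160) (by decide +kernel)
             (CovZ.leaf K2_ok TB_l11455 _)
             (CovZ.leaf K2_ok TB_l11456 _)))))
         (CovZ.n1 (-26880, 8256) (by decide +kernel)
          (CovZ.n2 (-26784, 8352) (by decide +kernel)
           (CovZ.n2 (-26784, 8256) (by decide +kernel)
            (CovZ.leaf K2_ok TB_l11457 _)
            (CovZ.leaf K2_ok TB_l11458 _))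
           (CovZ.n1 (-26880, 8352) (by decide +kernel)
            (CovZ.leaf K2_ok TB_l11459 _)
            (CovZ.leaf K2_ok TB_l11460 _)))
          (CovZ.n1 (-26784, 8160) (by decide +kernel)
           (CovZ.leaf K2_ok TB_l11461 _)
           (CovZ.n1 (-26784, 8256) (by decide +kernel)
            (CovZ.leaf K2_ok TB_l11462 _)
            (CovZ.leaf K2_ok TB_l11463 _)))))
        (CovZ.n1 (-26688, 7872) (by decide +kernel)
         (CovZ.n2 (-26880, 7872) (by decide +kernel)
          (CovZ.n2 (-26784, 7968) (by decide +kernel)
           (CovZ.leaf K2_ok TB_l11464 _)
           (CovZ.leaf K2_ok TB_l11465 _))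
          (CovZ.n1 (-26784, 7776) (by decide +kernel)
           (CovZ.leaf K2_ok TB_l11466 _)
           (CovZ.leaf K2_ok TB_l11467 _)))
         (CovZ.n1 (-26688, 8064) (by decide +kernel)
          (CovZ.n2 (-26592, 7968) (by decide +kernel)
           (CovZ.leaf K2_ok TB_l11468 _)
           (CovZ.n1 (-26592, 8064) (by decide +kernel)
            (CovZ.leaf K2_ok TB_l11469 _)
            (CovZ.leaf K2_ok TB_l11470 _)))
          (CovZ.n1 (-26784, 7968) (by decide +kernel)
           (CovZ.n2 (-26784, 8064) (by decide +kernel)
            (CovZ.leaf K2_ok TB_l11471 _)
            (CovZ.leaf K2_ok TB_l11472 _))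
           (CovZ.leaf K2_ok TB_l11473 _))))))))

theorem TB_u191 : CovZ TB_M (toL (selN TB_LN 631663411835949100953508513597419984444155757933257643568612386246404924973022572743048824847991375926091055628558468)) [0, 7, 6, 1] (-25344, 8448) (-24960, 8064) (-24576, 8448) :=
    (CovZ.n2 (-24960, 8448) (by decide +kernel)
       (CovZ.n2 (-24768, 8256) (by decide +kernel)
        (CovZ.subM 103647503854704872778031741255637643648066022667152228257890432 (by decide +kernel)
         (CovZ.n2 (-24960, 8256) (by decide +kernel)
          (CovZ.n2 (-24864, 8352) (by decide +kernel)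
           (CovZ.n2 (-24864, 8256) (by decide +kernel)
            (CovZ.n2 (-24912, 8304) (by decide +kernel)
             (CovZ.leaf K2_ok TB_l12644 _)
             (CovZ.leaf K2_ok TB_l12645 _))
            (CovZ.n1 (-24816, 8304) (by decide +kernel)
             (CovZ.leaf K2_ok TB_l12646 _)
             (CovZ.leaf K2_ok TB_l12647 _)))
           (CovZ.n1 (-24960, 8352) (by decide +kernel)
            (CovZ.n2 (-24912, 8400) (by decide +kernel)
             (CovZ.leaf K2_ok TB_l12648 _)
             (CovZ.leaf K2_ok TB_l12649 _))
            (CovZ.n1 (-24912, 8304) (by decide +kernel)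
             (CovZ.leaf K2_ok TB_l12650 _)
             (CovZ.leaf K2_ok TB_l12651 _))))
          (CovZ.n1 (-24864, 8160) (by decide +kernel)
           (CovZ.n2 (-24960, 8160) (by decide +kernel)
            (CovZ.n2 (-24912, 8208) (by decide +kernel)
             (CovZ.leaf K2_ok TB_l12652 _)
             (CovZ.leaf K2_ok TB_l12653 _))
            (CovZ.n1 (-24912, 8112) (by decide +kernel)
             (CovZ.leaf K2_ok TB_l12654 _)
             (CovZ.leaf K2_ok TB_l12655 _)))
           (CovZ.n1 (-24864, 8256) (by decide +kernel)
            (CovZ.n2 (-24816, 8208) (by decide +kernel)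
             (CovZ.leaf K2_ok TB_l12656 _)
             (CovZ.leaf K2_ok TB_l12657 _))
            (CovZ.n1 (-24912, 8208) (by decide +kernel)
             (CovZ.leaf K2_ok TB_l12658 _)
             (CovZ.leaf K2_ok TB_l12659 _))))))
        (CovZ.n1 (-24768, 8448) (by decide +kernel)
         (CovZ.n2 (-24672, 8352) (by decide +kernel)
          (CovZ.subM 69992023193056381579920071267763883691405069292437502838402691146374133618028095565819573892995612800 (by decide +kernel)
           (CovZ.n2 (-24768, 8352) (by decide +kernel)
            (CovZ.n2 (-24720, 8400) (by decide +kernel)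
             (CovZ.n2 (-24720, 8352) (by decide +kernel)
              (CovZ.leaf K2_ok TB_l12660 _)
              (CovZ.leaf K2_ok TB_l12661 _))
             (CovZ.leaf K2_ok TB_l12662 _))
            (CovZ.n1 (-24720, 8304) (by decide +kernel)
             (CovZ.leaf K2_ok TB_l12663 _)
             (CovZ.n1 (-24720, 8352) (by decide +kernel)
              (CovZ.leaf K2_ok TB_l12664 _)
              (CovZ.leaf K2_ok TB_l12665 _)))))
          (CovZ.n1 (-24672, 8448) (by decide +kernel)
           (CovZ.n2 (-24624, 8400) (by decide +kernel)
            (CovZ.leaf K2_ok TB_l12666 _)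
            (CovZ.n1 (-24624, 8448) (by decide +kernel)
             (CovZ.leaf K2_ok TB_l12667 _)
             (CovZ.leaf K2_ok TB_l12668 _)))
           (CovZ.n1 (-24720, 8400) (by decide +kernel)
            (CovZ.n2 (-24720, 8448) (by decide +kernel)
             (CovZ.leaf K2_ok TB_l12669 _)
             (CovZ.leaf K2_ok TB_l12670 _))
            (CovZ.leaf K2_ok TB_l12671 _))))
         (CovZ.subM 69992023193056381579920071267763883691405069292437502838402691146374133618028095565819573892995612800 (by decide +kernel)
          (CovZ.n1 (-24864, 8352) (by decide +kernel)
           (CovZ.n2 (-24864, 8448) (by decide +kernel)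
            (CovZ.n2 (-24816, 8400) (by decide +kernel)
             (CovZ.leaf K2_ok TB_l12672 _)
             (CovZ.n1 (-24816, 8448) (by decide +kernel)
              (CovZ.leaf K2_ok TB_l12673 _)
              (CovZ.leaf K2_ok TB_l12674 _)))
            (CovZ.n1 (-24912, 8400) (by decide +kernel)
             (CovZ.n2 (-24912, 8448) (by decide +kernel)
              (CovZ.leaf K2_ok TB_l12675 _)
              (CovZ.leaf K2_ok TB_l12676 _))
             (CovZ.leaf K2_ok TB_l12677 _)))
           (CovZ.n1 (-24768, 8352) (by decide +kernel)
            (CovZ.n2 (-24816, 8304) (by decide +kernel)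
             (CovZ.n2 (-24816, 8352) (by decide +kernel)
              (CovZ.leaf K2_ok TB_l12678 _)
              (CovZ.leaf K2_ok TB_l12679 _))
             (CovZ.leaf K2_ok TB_l12680 _))
            (CovZ.n1 (-24816, 8400) (by decide +kernel)
             (CovZ.leaf K2_ok TB_l12681 _)
             (CovZ.n1 (-24816, 8352) (by decide +kernel)
              (CovZ.leaf K2_ok TB_l12682 _)
              (CovZ.leaf K2_ok TB_l12683 _))))))))
       (CovZ.subM 103647503854704875632527126667557405764637961566142501023383680 (by decide +kernel)
        (CovZ.n1 (-25152, 8256) (by decide +kernel)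
         (CovZ.n2 (-25152, 8448) (by decide +kernel)
          (CovZ.n2 (-25056, 8352) (by decide +kernel)
           (CovZ.n2 (-25152, 8352) (by decide +kernel)
            (CovZ.n2 (-25104, 8400) (by decide +kernel)
             (CovZ.leaf K2_ok TB_l12684 _)
             (CovZ.leaf K2_ok TB_l12685 _))
            (CovZ.n1 (-25104, 8304) (by decide +kernel)
             (CovZ.leaf K2_ok TB_l12686 _)
             (CovZ.leaf K2_ok TB_l12687 _)))
           (CovZ.n1 (-25056, 8448) (by decide +kernel)
            (CovZ.n2 (-25008, 8400) (by decide +kernel)
             (CovZ.leaf K2_ok TB_l12688 _)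
             (CovZ.leaf K2_ok TB_l12689 _))
            (CovZ.n1 (-25104, 8400) (by decide +kernel)
             (CovZ.leaf K2_ok TB_l12690 _)
             (CovZ.leaf K2_ok TB_l12691 _))))
          (CovZ.n1 (-25248, 8352) (by decide +kernel)
           (CovZ.n2 (-25248, 8448) (by decide +kernel)
            (CovZ.n2 (-25200, 8400) (by decide +kernel)
             (CovZ.leaf K2_ok TB_l12692 _)
             (CovZ.leaf K2_ok TB_l12693 _))
            (CovZ.n1 (-25296, 8400) (by decide +kernel)
             (CovZ.leaf K2_ok TB_l12694 _)
             (CovZ.leaf K2_ok TB_l12695 _)))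
           (CovZ.n1 (-25152, 8352) (by decide +kernel)
            (CovZ.n2 (-25200, 8304) (by decide +kernel)
             (CovZ.leaf K2_ok TB_l12696 _)
             (CovZ.leaf K2_ok TB_l12697 _))
            (CovZ.n1 (-25200, 8400) (by decide +kernel)
             (CovZ.leaf K2_ok TB_l12698 _)
             (CovZ.leaf K2_ok TB_l12699 _)))))
         (CovZ.n1 (-24960, 8256) (by decide +kernel)
          (CovZ.n2 (-25056, 8160) (by decide +kernel)
           (CovZ.n2 (-25056, 8256) (by decide +kernel)
            (CovZ.n2 (-25008, 8208) (by decide +kernel)
             (CovZ.leaf K2_ok TB_l12700 _)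
             (CovZ.leaf K2_ok TB_l12701 _))
            (CovZ.n1 (-25104, 8208) (by decide +kernel)
             (CovZ.leaf K2_ok TB_l12702 _)
             (CovZ.leaf K2_ok TB_l12703 _)))
           (CovZ.n1 (-24960, 8160) (by decide +kernel)
            (CovZ.n2 (-25008, 8112) (by decide +kernel)
             (CovZ.leaf K2_ok TB_l12704 _)
             (CovZ.leaf K2_ok TB_l12705 _))
            (CovZ.n1 (-25008, 8208) (by decide +kernel)
             (CovZ.leaf K2_ok TB_l12706 _)
             (CovZ.leaf K2_ok TB_l12707 _))))
          (CovZ.n1 (-25056, 8352) (by decide +kernel)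
           (CovZ.n2 (-24960, 8352) (by decide +kernel)
            (CovZ.n2 (-25008, 8304) (by decide +kernel)
             (CovZ.leaf K2_ok TB_l12708 _)
             (CovZ.leaf K2_ok TB_l12709 _))
            (CovZ.n1 (-25008, 8400) (by decide +kernel)
             (CovZ.leaf K2_ok TB_l12710 _)
             (CovZ.leaf K2_ok TB_l12711 _)))
           (CovZ.n1 (-25056, 8256) (by decide +kernel)
            (CovZ.n2 (-25104, 8304) (by decide +kernel)
             (CovZ.leaf K2_ok TB_l12712 _)
             (CovZ.leaf K2_ok TB_l12713 _))
            (CovZ.n1 (-25008, 8304) (by decide +kernel)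
             (CovZ.leaf K2_ok TB_l12714 _)
             (CovZ.leaf K2_ok TB_l12715 _))))))))

theorem TB_u192 : CovZ TB_M (toL (selN TB_LN 631663411835949100953508513597419984444155757933257643568612386246404924973022572743048824847991375926091055628558468)) [0, 7, 6, 1] (-24960, 8064) (-24576, 7680) (-24576, 8448) :=
    (CovZ.n1 (-24576, 8064) (by decide +kernel)
       (CovZ.subM 1231312693637362471395316531320277891444375734143890962731782314986534395720731646492326658545947857138267751186564 (by decide +kernel)
        (CovZ.n2 (-24768, 7872) (by decide +kernel)
         (CovZ.n2 (-24768, 8064) (by decide +kernel)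
          (CovZ.n2 (-24672, 7968) (by decide +kernel)
           (CovZ.n2 (-24768, 7968) (by decide +kernel)
            (CovZ.n2 (-24720, 8016) (by decide +kernel)
             (CovZ.n2 (-24720, 7968) (by decide +kernel)
              (CovZ.leaf K2_ok TB_l12716 _)
              (CovZ.leaf K2_ok TB_l12717 _))
             (CovZ.n1 (-24768, 8016) (by decide +kernel)
              (CovZ.leaf K2_ok TB_l12718 _)
              (CovZ.leaf K2_ok TB_l12719 _)))
            (CovZ.n1 (-24720, 7920) (by decide +kernel)
             (CovZ.leaf K2_ok TB_l12720 _)
             (CovZ.n1 (-24720, 7968) (by decide +kernel)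
              (CovZ.leaf K2_ok TB_l12721 _)
              (CovZ.leaf K2_ok TB_l12722 _))))
           (CovZ.n1 (-24672, 8064) (by decide +kernel)
            (CovZ.n2 (-24624, 8016) (by decide +kernel)
             (CovZ.n2 (-24672, 8016) (by decide +kernel)
              (CovZ.leaf K2_ok TB_l12723 _)
              (CovZ.leaf K2_ok TB_l12724 _))
             (CovZ.n1 (-24624, 8064) (by decide +kernel)
              (CovZ.leaf K2_ok TB_l12725 _)
              (CovZ.leaf K2_ok TB_l12726 _)))
            (CovZ.n1 (-24720, 8016) (by decide +kernel)
             (CovZ.n2 (-24720, 8064) (by decide +kernel)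
              (CovZ.leaf K2_ok TB_l12727 _)
              (CovZ.leaf K2_ok TB_l12728 _))
             (CovZ.n1 (-24672, 8016) (by decide +kernel)
              (CovZ.leaf K2_ok TB_l12729 _)
              (CovZ.leaf K2_ok TB_l12730 _)))))
          (CovZ.n1 (-24864, 7968) (by decide +kernel)
           (CovZ.n2 (-24864, 8064) (by decide +kernel)
            (CovZ.n2 (-24816, 8016) (by decide +kernel)
             (CovZ.leaf K2_ok TB_l12731 _)
             (CovZ.n1 (-24816, 8064) (by decide +kernel)
              (CovZ.leaf K2_ok TB_l12732 _)
              (CovZ.leaf K2_ok TB_l12733 _)))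
            (CovZ.n1 (-24912, 8016) (by decide +kernel)
             (CovZ.leaf K2_ok TB_l12734 _)
             (CovZ.leaf K2_ok TB_l12735 _)))
           (CovZ.n1 (-24768, 7968) (by decide +kernel)
            (CovZ.n2 (-24816, 7920) (by decide +kernel)
             (CovZ.n2 (-24816, 7968) (by decide +kernel)
              (CovZ.leaf K2_ok TB_l12736 _)
              (CovZ.leaf K2_ok TB_l12737 _))
             (CovZ.leaf K2_ok TB_l12738 _))
            (CovZ.n1 (-24816, 8016) (by decide +kernel)
             (CovZ.leaf K2_ok TB_l12739 _)
             (CovZ.n1 (-24816, 7968) (by decide +kernel)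
              (CovZ.leaf K2_ok TB_l12740 _)
              (CovZ.leaf K2_ok TB_l12741 _))))))
         (CovZ.n1 (-24576, 7872) (by decide +kernel)
          (CovZ.subM 103647503854704872778031741255637643648066022667152228253433856 (by decide +kernel)
           (CovZ.n2 (-24672, 7776) (by decide +kernel)
            (CovZ.n2 (-24672, 7872) (by decide +kernel)
             (CovZ.n2 (-24624, 7824) (by decide +kernel)
              (CovZ.n2 (-24672, 7824) (by decide +kernel)
               (CovZ.leaf K2_ok TB_l12742 _)
               (CovZ.leaf K2_ok TB_l12743 _))
              (CovZ.n1 (-24624, 7872) (by decide +kernel)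
               (CovZ.leaf K2_ok TB_l12744 _)
               (CovZ.leaf K2_ok TB_l12745 _)))
             (CovZ.n1 (-24720, 7824) (by decide +kernel)
              (CovZ.n2 (-24720, 7872) (by decide +kernel)
               (CovZ.leaf K2_ok TB_l12746 _)
               (CovZ.leaf K2_ok TB_l12747 _))
              (CovZ.n1 (-24672, 7824) (by decide +kernel)
               (CovZ.leaf K2_ok TB_l12748 _)
               (CovZ.leaf K2_ok TB_l12749 _))))
            (CovZ.n1 (-24576, 7776) (by decide +kernel)
             (CovZ.n2 (-24624, 7728) (by decide +kernel)
              (CovZ.n2 (-24624, 7776) (by decide +kernel)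
               (CovZ.leaf K2_ok TB_l12750 _)
               (CovZ.leaf K2_ok TB_l12751 _))
              (CovZ.n1 (-24576, 7728) (by decide +kernel)
               (CovZ.leaf K2_ok TB_l40028 _)
               (CovZ.leaf K2_ok TB_l12752 _)))
             (CovZ.n1 (-24624, 7824) (by decide +kernel)
              (CovZ.n2 (-24576, 7824) (by decide +kernel)
               (CovZ.leaf K2_ok TB_l12753 _)
               (CovZ.leaf K2_ok TB_l12754 _))
              (CovZ.n1 (-24624, 7776) (by decide +kernel)
               (CovZ.leaf K2_ok TB_l12755 _)
               (CovZ.leaf K2_ok TB_l12756 _))))))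
          (CovZ.n1 (-24672, 7968) (by decide +kernel)
           (CovZ.n2 (-24576, 7968) (by decide +kernel)
            (CovZ.subM 103647503854704872778031741255637643648066022667152228253433856 (by decide +kernel)
             (CovZ.n2 (-24624, 7920) (by decide +kernel)
              (CovZ.n2 (-24624, 7968) (by decide +kernel)
               (CovZ.leaf K2_ok TB_l12757 _)
               (CovZ.leaf K2_ok TB_l12758 _))
              (CovZ.n1 (-24576, 7920) (by decide +kernel)
               (CovZ.leaf K2_ok TB_l12759 _)
               (CovZ.leaf K2_ok TB_l12760 _))))
            (CovZ.n1 (-24624, 8016) (by decide +kernel)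
             (CovZ.n2 (-24576, 8016) (by decide +kernel)
              (CovZ.leaf K2_ok TB_l12761 _)
              (CovZ.leaf K2_ok TB_l12762 _))
             (CovZ.n1 (-24624, 7968) (by decide +kernel)
              (CovZ.leaf K2_ok TB_l12763 _)
              (CovZ.leaf K2_ok TB_l12764 _))))
           (CovZ.subM 103647503854704872778031741255637643648066022667152228253433856 (by decide +kernel)
            (CovZ.n1 (-24672, 7872) (by decide +kernel)
             (CovZ.n2 (-24720, 7920) (by decide +kernel)
              (CovZ.n2 (-24672, 7920) (by decide +kernel)
               (CovZ.leaf K2_ok TB_l12765 _)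
               (CovZ.leaf K2_ok TB_l12766 _))
              (CovZ.n1 (-24720, 7872) (by decide +kernel)
               (CovZ.leaf K2_ok TB_l12767 _)
               (CovZ.leaf K2_ok TB_l12768 _)))
             (CovZ.n1 (-24624, 7920) (by decide +kernel)
              (CovZ.n2 (-24624, 7872) (by decide +kernel)
               (CovZ.leaf K2_ok TB_l12769 _)
               (CovZ.leaf K2_ok TB_l12770 _))
              (CovZ.n1 (-24672, 7920) (by decide +kernel)
               (CovZ.leaf K2_ok TB_l12771 _)
               (CovZ.leaf K2_ok TB_l12772 _)))))))))
       (CovZ.n1 (-24768, 8256) (by decide +kernel)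
        (CovZ.n2 (-24576, 8256) (by decide +kernel)
         (CovZ.subM 1231312693637363565020678922826240077695489292954573639316497761592752608606034851468826258233909468894856262713476 (by decide +kernel)
          (CovZ.n2 (-24672, 8160) (by decide +kernel)
           (CovZ.n2 (-24672, 8256) (by decide +kernel)
            (CovZ.n2 (-24624, 8208) (by decide +kernel)
             (CovZ.leaf K2_ok TB_l12773 _)
             (CovZ.n1 (-24624, 8256) (by decide +kernel)
              (CovZ.leaf K2_ok TB_l12774 _)
              (CovZ.leaf K2_ok TB_l12775 _)))
            (CovZ.n1 (-24720, 8208) (by decide +kernel)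
             (CovZ.leaf K2_ok TB_l12776 _)
             (CovZ.leaf K2_ok TB_l12777 _)))
           (CovZ.n1 (-24576, 8160) (by decide +kernel)
            (CovZ.n2 (-24624, 8112) (by decide +kernel)
             (CovZ.n2 (-24624, 8160) (by decide +kernel)
              (CovZ.leaf K2_ok TB_l12778 _)
              (CovZ.leaf K2_ok TB_l12779 _))
             (CovZ.n1 (-24576, 8112) (by decide +kernel)
              (CovZ.leaf K2_ok TB_l12780 _)
              (CovZ.leaf K2_ok TB_l12781 _)))
            (CovZ.n1 (-24624, 8208) (by decide +kernel)
             (CovZ.leaf K2_ok TB_l12782 _)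
             (CovZ.n1 (-24624, 8160) (by decide +kernel)
              (CovZ.leaf K2_ok TB_l12783 _)
              (CovZ.leaf K2_ok TB_l12784 _))))))
         (CovZ.n1 (-24672, 8352) (by decide +kernel)
          (CovZ.n2 (-24576, 8352) (by decide +kernel)
           (CovZ.n2 (-24624, 8304) (by decide +kernel)
            (CovZ.n2 (-24624, 8352) (by decide +kernel)
             (CovZ.leaf K2_ok TB_l12785 _)
             (CovZ.leaf K2_ok TB_l12786 _))
            (CovZ.leaf K2_ok TB_l12787 _))
           (CovZ.n1 (-24624, 8400) (by decide +kernel)
            (CovZ.leaf K2_ok TB_l12788 _)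
            (CovZ.n1 (-24624, 8352) (by decide +kernel)
             (CovZ.leaf K2_ok TB_l12789 _)
             (CovZ.leaf K2_ok TB_l12790 _))))
          (CovZ.n1 (-24672, 8256) (by decide +kernel)
           (CovZ.n2 (-24720, 8304) (by decide +kernel)
            (CovZ.leaf K2_ok TB_l12791 _)
            (CovZ.leaf K2_ok TB_l12792 _))
           (CovZ.n1 (-24624, 8304) (by decide +kernel)
            (CovZ.n2 (-24624, 8256) (by decide +kernel)
             (CovZ.leaf K2_ok TB_l12793 _)
             (CovZ.leaf K2_ok TB_l12794 _))
            (CovZ.leaf K2_ok TB_l12795 _)))))
        (CovZ.subM 1231312693637363565020678922826240077695489292954573639316497761592752608606034851468826258233909468894856262713476 (by decide +kernel)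
         (CovZ.n1 (-24768, 8064) (by decide +kernel)
          (CovZ.subM 103647503854704872778031741255637643648066022667152228257628288 (by decide +kernel)
           (CovZ.n2 (-24864, 8160) (by decide +kernel)
            (CovZ.n2 (-24768, 8160) (by decide +kernel)
             (CovZ.n2 (-24816, 8112) (by decide +kernel)
              (CovZ.n2 (-24816, 8160) (by decide +kernel)
               (CovZ.leaf K2_ok TB_l12796 _)
               (CovZ.leaf K2_ok TB_l12797 _))
              (CovZ.leaf K2_ok TB_l12798 _))
             (CovZ.n1 (-24816, 8208) (by decide +kernel)
              (CovZ.leaf K2_ok TB_l12799 _)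
              (CovZ.leaf K2_ok TB_l12800 _)))
            (CovZ.n1 (-24864, 8064) (by decide +kernel)
             (CovZ.n2 (-24912, 8112) (by decide +kernel)
              (CovZ.leaf K2_ok TB_l12801 _)
              (CovZ.leaf K2_ok TB_l12802 _))
             (CovZ.n1 (-24816, 8112) (by decide +kernel)
              (CovZ.n2 (-24816, 8064) (by decide +kernel)
               (CovZ.leaf K2_ok TB_l12803 _)
               (CovZ.leaf K2_ok TB_l12804 _))
              (CovZ.leaf K2_ok TB_l12805 _)))))
          (CovZ.n1 (-24672, 8160) (by decide +kernel)
           (CovZ.n2 (-24672, 8064) (by decide +kernel)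
            (CovZ.n2 (-24720, 8112) (by decide +kernel)
             (CovZ.leaf K2_ok TB_l12806 _)
             (CovZ.n1 (-24720, 8064) (by decide +kernel)
              (CovZ.leaf K2_ok TB_l12807 _)
              (CovZ.leaf K2_ok TB_l12808 _)))
            (CovZ.n1 (-24624, 8112) (by decide +kernel)
             (CovZ.n2 (-24624, 8064) (by decide +kernel)
              (CovZ.leaf K2_ok TB_l12809 _)
              (CovZ.leaf K2_ok TB_l12810 _))
             (CovZ.leaf K2_ok TB_l12811 _)))
           (CovZ.subM 103647503854704872778031741255637643648066022667152228257628288 (by decide +kernel)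
            (CovZ.n1 (-24768, 8160) (by decide +kernel)
             (CovZ.n2 (-24720, 8208) (by decide +kernel)
              (CovZ.leaf K2_ok TB_l12812 _)
              (CovZ.leaf K2_ok TB_l12813 _))
             (CovZ.n1 (-24720, 8112) (by decide +kernel)
              (CovZ.leaf K2_ok TB_l12814 _)
              (CovZ.n1 (-24720, 8160) (by decide +kernel)
               (CovZ.leaf K2_ok TB_l12815 _)
               (CovZ.leaf K2_ok TB_l12816 _))))))))))

theorem TB_u193 : CovZ TB_M (toL (selN TB_LN 15914343565113172548972232044348909288787165798424171520363856858427116648265801057697920)) [0, 7, 6, 1] (-26112, 7680) (-25728, 7680) (-25728, 8064) :=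
    (CovZ.n2 (-25920, 7872) (by decide +kernel)
         (CovZ.n2 (-25728, 7872) (by decide +kernel)
          (CovZ.subM 103647503854704875632527126667557405764637961566142501019189248 (by decide +kernel)
           (CovZ.n2 (-25824, 7776) (by decide +kernel)
            (CovZ.n2 (-25824, 7872) (by decide +kernel)
             (CovZ.n2 (-25776, 7824) (by decide +kernel)
              (CovZ.n2 (-25824, 7824) (by decide +kernel)
               (CovZ.leaf K2_ok TB_l13012 _)
               (CovZ.n1 (-25800, 7800) (by decide +kernel)
                (CovZ.leaf K2_ok TB_l13013 _)
                (CovZ.leaf K2_ok TB_l13014 _)))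
              (CovZ.n1 (-25776, 7872) (by decide +kernel)
               (CovZ.leaf K2_ok TB_l13015 _)
               (CovZ.leaf K2_ok TB_l13016 _)))
             (CovZ.n1 (-25872, 7824) (by decide +kernel)
              (CovZ.n2 (-25872, 7872) (by decide +kernel)
               (CovZ.n2 (-25848, 7848) (by decide +kernel)
                (CovZ.leaf K2_ok TB_l13017 _)
                (CovZ.leaf K2_ok TB_l13018 _))
               (CovZ.leaf K2_ok TB_l13019 _))
              (CovZ.n1 (-25824, 7824) (by decide +kernel)
               (CovZ.n2 (-25848, 7800) (by decide +kernel)
                (CovZ.leaf K2_ok TB_l13020 _)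
                (CovZ.leaf K2_ok TB_l13021 _))
               (CovZ.n1 (-25848, 7848) (by decide +kernel)
                (CovZ.leaf K2_ok TB_l13022 _)
                (CovZ.leaf K2_ok TB_l13023 _)))))
            (CovZ.n1 (-25728, 7776) (by decide +kernel)
             (CovZ.n2 (-25776, 7728) (by decide +kernel)
              (CovZ.n2 (-25776, 7776) (by decide +kernel)
               (CovZ.n2 (-25752, 7752) (by decide +kernel)
                (CovZ.leaf K2_ok TB_l13024 _)
                (CovZ.leaf K2_ok TB_l13025 _))
               (CovZ.n1 (-25800, 7752) (by decide +kernel)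
                (CovZ.leaf K2_ok TB_l13026 _)
                (CovZ.leaf K2_ok TB_l13027 _)))
              (CovZ.n1 (-25728, 7728) (by decide +kernel)
               (CovZ.leaf K2_ok TB_l13028 _)
               (CovZ.n1 (-25752, 7752) (by decide +kernel)
                (CovZ.leaf K2_ok TB_l13029 _)
                (CovZ.leaf K2_ok TB_l13030 _))))
             (CovZ.n1 (-25776, 7824) (by decide +kernel)
              (CovZ.leaf K2_ok TB_l13031 _)
              (CovZ.n1 (-25776, 7776) (by decide +kernel)
               (CovZ.n2 (-25800, 7800) (by decide +kernel)
                (CovZ.leaf K2_ok TB_l13032 _)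
                (CovZ.leaf K2_ok TB_l13033 _))
               (CovZ.leaf K2_ok TB_l13034 _))))))
          (CovZ.n1 (-25824, 7968) (by decide +kernel)
           (CovZ.n2 (-25728, 7968) (by decide +kernel)
            (CovZ.n2 (-25776, 7920) (by decide +kernel)
             (CovZ.n2 (-25776, 7968) (by decide +kernel)
              (CovZ.leaf K2_ok TB_l13035 _)
              (CovZ.leaf K2_ok TB_l13036 _))
             (CovZ.leaf K2_ok TB_l13037 _))
            (CovZ.n1 (-25776, 8016) (by decide +kernel)
             (CovZ.leaf K2_ok TB_l13038 _)
             (CovZ.n1 (-25776, 7968) (by decide +kernel)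
              (CovZ.leaf K2_ok TB_l13039 _)
              (CovZ.leaf K2_ok TB_l13040 _))))
           (CovZ.n1 (-25824, 7872) (by decide +kernel)
            (CovZ.n2 (-25872, 7920) (by decide +kernel)
             (CovZ.leaf K2_ok TB_l13041 _)
             (CovZ.n1 (-25872, 7872) (by decide +kernel)
              (CovZ.leaf K2_ok TB_l13042 _)
              (CovZ.leaf K2_ok TB_l13043 _)))
            (CovZ.n1 (-25776, 7920) (by decide +kernel)
             (CovZ.n2 (-25776, 7872) (by decide +kernel)
              (CovZ.leaf K2_ok TB_l13044 _)
              (CovZ.leaf K2_ok TB_l13045 _))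
             (CovZ.n1 (-25824, 7920) (by decide +kernel)
              (CovZ.leaf K2_ok TB_l13046 _)
              (CovZ.leaf K2_ok TB_l13047 _))))))
         (CovZ.n1 (-25920, 7680) (by decide +kernel)
          (CovZ.n2 (-26016, 7776) (by decide +kernel)
           (CovZ.subM 103647503854704875632527126667557405764637961566142501019189248 (by decide +kernel)
            (CovZ.n2 (-25920, 7776) (by decide +kernel)
             (CovZ.n2 (-25968, 7728) (by decide +kernel)
              (CovZ.n2 (-25968, 7776) (by decide +kernel)
               (CovZ.leaf K2_ok TB_l13048 _)
               (CovZ.leaf K2_ok TB_l13049 _))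
              (CovZ.leaf K2_ok TB_l13050 _))
             (CovZ.n1 (-25968, 7824) (by decide +kernel)
              (CovZ.n2 (-25920, 7824) (by decide +kernel)
               (CovZ.leaf K2_ok TB_l13051 _)
               (CovZ.n1 (-25944, 7848) (by decide +kernel)
                (CovZ.leaf K2_ok TB_l13052 _)
                (CovZ.leaf K2_ok TB_l13053 _)))
              (CovZ.n1 (-25968, 7776) (by decide +kernel)
               (CovZ.leaf K2_ok TB_l13054 _)
               (CovZ.leaf K2_ok TB_l13055 _)))))
           (CovZ.n1 (-26016, 7680) (by decide +kernel)
            (CovZ.n2 (-26064, 7728) (by decide +kernel)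
             (CovZ.leaf K2_ok TB_l13056 _)
             (CovZ.leaf K2_ok TB_l13057 _))
            (CovZ.n1 (-25968, 7728) (by decide +kernel)
             (CovZ.leaf K2_ok TB_l13058 _)
             (CovZ.leaf K2_ok TB_l13059 _))))
          (CovZ.subM 103647503854704875632527126667557405764637961566142501019189248 (by decide +kernel)
           (CovZ.n1 (-25824, 7776) (by decide +kernel)
            (CovZ.n2 (-25824, 7680) (by decide +kernel)
             (CovZ.n2 (-25872, 7728) (by decide +kernel)
              (CovZ.n2 (-25824, 7728) (by decide +kernel)
               (CovZ.leaf K2_ok TB_l13060 _)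
               (CovZ.n1 (-25848, 7752) (by decide +kernel)
                (CovZ.leaf K2_ok TB_l13061 _)
                (CovZ.leaf K2_ok TB_l13062 _)))
              (CovZ.n1 (-25872, 7680) (by decide +kernel)
               (CovZ.leaf K2_ok TB_l13063 _)
               (CovZ.leaf K2_ok TB_l13064 _)))
             (CovZ.n1 (-25776, 7728) (by decide +kernel)
              (CovZ.n2 (-25776, 7680) (by decide +kernel)
               (CovZ.n2 (-25800, 7704) (by decide +kernel)
                (CovZ.leaf K2_ok TB_l13065 _)
                (CovZ.leaf K2_ok TB_l13066 _))
               (CovZ.n1 (-25752, 7704) (by decide +kernel)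
                (CovZ.leaf K2_ok TB_l13067 _)
                (CovZ.leaf K2_ok TB_l13068 _)))
              (CovZ.n1 (-25824, 7728) (by decide +kernel)
               (CovZ.n2 (-25800, 7752) (by decide +kernel)
                (CovZ.leaf K2_ok TB_l13069 _)
                (CovZ.leaf K2_ok TB_l13070 _))
               (CovZ.n1 (-25800, 7704) (by decide +kernel)
                (CovZ.leaf K2_ok TB_l13071 _)
                (CovZ.leaf K2_ok TB_l13072 _)))))
            (CovZ.n1 (-25920, 7776) (by decide +kernel)
             (CovZ.n2 (-25872, 7824) (by decide +kernel)
              (CovZ.n2 (-25872, 7776) (by decide +kernel)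
               (CovZ.n2 (-25896, 7800) (by decide +kernel)
                (CovZ.leaf K2_ok TB_l13073 _)
                (CovZ.leaf K2_ok TB_l13074 _))
               (CovZ.n1 (-25848, 7800) (by decide +kernel)
                (CovZ.leaf K2_ok TB_l13075 _)
                (CovZ.leaf K2_ok TB_l13076 _)))
              (CovZ.n1 (-25920, 7824) (by decide +kernel)
               (CovZ.leaf K2_ok TB_l13077 _)
               (CovZ.n1 (-25896, 7800) (by decide +kernel)
                (CovZ.leaf K2_ok TB_l13078 _)
                (CovZ.leaf K2_ok TB_l13079 _))))
             (CovZ.n1 (-25872, 7728) (by decide +kernel)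
              (CovZ.leaf K2_ok TB_l13080 _)
              (CovZ.n1 (-25872, 7776) (by decide +kernel)
               (CovZ.n2 (-25848, 7752) (by decide +kernel)
                (CovZ.leaf K2_ok TB_l13081 _)
                (CovZ.leaf K2_ok TB_l13082 _))
               (CovZ.leaf K2_ok TB_l13083 _))))))))

end Pool.Agent.TET
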