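import Pool.Agent.Helper38_TET.TB_M
import Pool.Agent.Helper38_TET.TB_L
import Pool.Agent.Helper38_TET.TB_85
import Pool.Agent.Helper38_TET.TB_86
import Pool.Agent.Helper38_TET.TB_87
import Pool.Agent.Helper38_TET.TB_88
import Pool.Agent.Helper38_TET.TB_89
import Pool.Agent.Helper38_TET.TB_90
import Pool.Agent.Helper38_TET.TB_91
import Pool.Agent.Helper38_TET.TB_93
import Pool.Agent.Helper38_TET.TB_94
import Pool.Agent.Helper38_TET.TB_95
import Pool.Agent.Helper38_TET.TB_267
import Pool.Agent.Helper38_TET.TB_268
import Pool.Agent.Helper38_TET.TB_U12

/-!
# MP_c7c9bf_co: certificates, family TB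
-/

set_option autoImplicit false
set_option maxRecDepth 100000

namespace Pool.Agent.TET

theorem TB_u194 : CovZ TB_M (toL (selN TB_LN 15914343565113172548972232044348909288787165798424171520363856858427116648265801057697920)) [0, 7, 6, 1] (-25728, 7680) (-25344, 7680) (-25728, 8064) :=
    (CovZ.n1 (-25536, 7872) (by decide +kernel)
         (CovZ.subM 103647503854704875632527126667557405764637961566142501019189248 (by decide +kernel)
          (CovZ.n2 (-25536, 7680) (by decide +kernel)
           (CovZ.n2 (-25632, 7776) (by decide +kernel)
            (CovZ.n2 (-25536, 7776) (by decide +kernel)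
             (CovZ.n2 (-25584, 7728) (by decide +kernel)
              (CovZ.n2 (-25584, 7776) (by decide +kernel)
               (CovZ.leaf K2_ok TB_l13084 _)
               (CovZ.n1 (-25608, 7752) (by decide +kernel)
                (CovZ.leaf K2_ok TB_l13085 _)
                (CovZ.leaf K2_ok TB_l13086 _)))
              (CovZ.n1 (-25536, 7728) (by decide +kernel)
               (CovZ.leaf K2_ok TB_l13087 _)
               (CovZ.n1 (-25560, 7752) (by decide +kernel)
                (CovZ.leaf K2_ok TB_l13088 _)
                (CovZ.leaf K2_ok TB_l13089 _))))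
             (CovZ.n1 (-25584, 7824) (by decide +kernel)
              (CovZ.leaf K2_ok TB_l13090 _)
              (CovZ.n1 (-25584, 7776) (by decide +kernel)
               (CovZ.leaf K2_ok TB_l13091 _)
               (CovZ.leaf K2_ok TB_l13092 _))))
            (CovZ.n1 (-25632, 7680) (by decide +kernel)
             (CovZ.n2 (-25680, 7728) (by decide +kernel)
              (CovZ.n2 (-25632, 7728) (by decide +kernel)
               (CovZ.n2 (-25656, 7704) (by decide +kernel)
                (CovZ.leaf K2_ok TB_l13093 _)
                (CovZ.leaf K2_ok TB_l13094 _))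
               (CovZ.n1 (-25656, 7752) (by decide +kernel)
                (CovZ.leaf K2_ok TB_l13095 _)
                (CovZ.leaf K2_ok TB_l13096 _)))
              (CovZ.n1 (-25680, 7680) (by decide +kernel)
               (CovZ.n2 (-25704, 7704) (by decide +kernel)
                (CovZ.leaf K2_ok TB_l13097 _)
                (CovZ.leaf K2_ok TB_l13098 _))
               (CovZ.n1 (-25656, 7704) (by decide +kernel)
                (CovZ.leaf K2_ok TB_l13099 _)
                (CovZ.leaf K2_ok TB_l13100 _))))
             (CovZ.n1 (-25584, 7728) (by decide +kernel)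
              (CovZ.n2 (-25584, 7680) (by decide +kernel)
               (CovZ.n2 (-25608, 7704) (by decide +kernel)
                (CovZ.leaf K2_ok TB_l13101 _)
                (CovZ.n1 (-25608, 7680) (by decide +kernel)
                 (CovZ.leaf K2_ok TB_l13102 _)
                 (CovZ.leaf K2_ok TB_l13103 _)))
               (CovZ.n1 (-25560, 7704) (by decide +kernel)
                (CovZ.leaf K2_ok TB_l13104 _)
                (CovZ.leaf K2_ok TB_l13105 _)))
              (CovZ.n1 (-25632, 7728) (by decide +kernel)
               (CovZ.n2 (-25608, 7752) (by decide +kernel)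
                (CovZ.leaf K2_ok TB_l13106 _)
                (CovZ.leaf K2_ok TB_l13107 _))
               (CovZ.n1 (-25608, 7704) (by decide +kernel)
                (CovZ.leaf K2_ok TB_l13108 _)
                (CovZ.leaf K2_ok TB_l13109 _))))))
           (CovZ.n1 (-25440, 7776) (by decide +kernel)
            (CovZ.n2 (-25440, 7680) (by decide +kernel)
             (CovZ.n2 (-25488, 7728) (by decide +kernel)
              (CovZ.n2 (-25440, 7728) (by decide +kernel)
               (CovZ.n2 (-25464, 7704) (by decide +kernel)
                (CovZ.n2 (-25464, 7728) (by decide +kernel)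
                 (CovZ.leaf K2_ok TB_l13110 _)
                 (CovZ.leaf K2_ok TB_l13111 _))
                (CovZ.leaf K2_ok TB_l13112 _))
               (CovZ.n1 (-25464, 7752) (by decide +kernel)
                (CovZ.leaf K2_ok TB_l13113 _)
                (CovZ.leaf K2_ok TB_l13114 _)))
              (CovZ.n1 (-25488, 7680) (by decide +kernel)
               (CovZ.n2 (-25512, 7704) (by decide +kernel)
                (CovZ.leaf K2_ok TB_l13115 _)
                (CovZ.leaf K2_ok TB_l13116 _))
               (CovZ.n1 (-25464, 7704) (by decide +kernel)
                (CovZ.n2 (-25464, 7680) (by decide +kernel)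
                 (CovZ.leaf K2_ok TB_l13117 _)
                 (CovZ.leaf K2_ok TB_l13118 _))
                (CovZ.leaf K2_ok TB_l13119 _))))
             (CovZ.n1 (-25392, 7728) (by decide +kernel)
              (CovZ.n2 (-25392, 7680) (by decide +kernel)
               (CovZ.n2 (-25416, 7704) (by decide +kernel)
                (CovZ.leaf K2_ok TB_l40031 _)
                (CovZ.leaf K2_ok TB_l40032 _))
               (CovZ.n1 (-25368, 7704) (by decide +kernel)
                (CovZ.n2 (-25368, 7680) (by decide +kernel)
                 (CovZ.leaf K2_ok TB_l40033 _)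
                 (CovZ.leaf K2_ok TB_l40034 _))
                (CovZ.leaf K2_ok TB_l40035 _)))
              (CovZ.n1 (-25440, 7728) (by decide +kernel)
               (CovZ.n2 (-25416, 7752) (by decide +kernel)
                (CovZ.leaf K2_ok TB_l13120 _)
                (CovZ.leaf K2_ok TB_l13121 _))
               (CovZ.n1 (-25416, 7704) (by decide +kernel)
                (CovZ.leaf K2_ok TB_l13122 _)
                (CovZ.leaf K2_ok TB_l13123 _)))))
            (CovZ.n1 (-25536, 7776) (by decide +kernel)
             (CovZ.n2 (-25488, 7824) (by decide +kernel)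
              (CovZ.n2 (-25488, 7776) (by decide +kernel)
               (CovZ.leaf K2_ok TB_l13124 _)
               (CovZ.n1 (-25464, 7800) (by decide +kernel)
                (CovZ.leaf K2_ok TB_l13125 _)
                (CovZ.leaf K2_ok TB_l13126 _)))
              (CovZ.n1 (-25536, 7824) (by decide +kernel)
               (CovZ.leaf K2_ok TB_l13127 _)
               (CovZ.leaf K2_ok TB_l13128 _)))
             (CovZ.n1 (-25488, 7728) (by decide +kernel)
              (CovZ.n2 (-25536, 7728) (by decide +kernel)
               (CovZ.n2 (-25512, 7752) (by decide +kernel)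
                (CovZ.leaf K2_ok TB_l13129 _)
                (CovZ.leaf K2_ok TB_l13130 _))
               (CovZ.n1 (-25512, 7704) (by decide +kernel)
                (CovZ.leaf K2_ok TB_l13131 _)
                (CovZ.leaf K2_ok TB_l13132 _)))
              (CovZ.n1 (-25488, 7776) (by decide +kernel)
               (CovZ.n2 (-25464, 7752) (by decide +kernel)
                (CovZ.leaf K2_ok TB_l13133 _)
                (CovZ.leaf K2_ok TB_l13134 _))
               (CovZ.leaf K2_ok TB_l13135 _)))))))
         (CovZ.n1 (-25728, 7872) (by decide +kernel)
          (CovZ.n2 (-25632, 7968) (by decide +kernel)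
           (CovZ.n2 (-25632, 7872) (by decide +kernel)
            (CovZ.n2 (-25680, 7920) (by decide +kernel)
             (CovZ.leaf K2_ok TB_l13136 _)
             (CovZ.n1 (-25680, 7872) (by decide +kernel)
              (CovZ.leaf K2_ok TB_l13137 _)
              (CovZ.leaf K2_ok TB_l13138 _)))
            (CovZ.n1 (-25584, 7920) (by decide +kernel)
             (CovZ.n2 (-25584, 7872) (by decide +kernel)
              (CovZ.leaf K2_ok TB_l13139 _)
              (CovZ.leaf K2_ok TB_l13140 _))
             (CovZ.leaf K2_ok TB_l13141 _)))
           (CovZ.n1 (-25728, 7968) (by decide +kernel)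
            (CovZ.n2 (-25680, 8016) (by decide +kernel)
             (CovZ.n2 (-25680, 7968) (by decide +kernel)
              (CovZ.leaf K2_ok TB_l13142 _)
              (CovZ.leaf K2_ok TB_l13143 _))
             (CovZ.leaf K2_ok TB_l13144 _))
            (CovZ.n1 (-25680, 7920) (by decide +kernel)
             (CovZ.leaf K2_ok TB_l13145 _)
             (CovZ.n1 (-25680, 7968) (by decide +kernel)
              (CovZ.leaf K2_ok TB_l13146 _)
              (CovZ.leaf K2_ok TB_l13147 _)))))
          (CovZ.subM 103647503854704875632527126667557405764637961566142501019189248 (by decide +kernel)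
           (CovZ.n1 (-25632, 7776) (by decide +kernel)
            (CovZ.n2 (-25728, 7776) (by decide +kernel)
             (CovZ.n2 (-25680, 7824) (by decide +kernel)
              (CovZ.n2 (-25680, 7776) (by decide +kernel)
               (CovZ.n2 (-25704, 7800) (by decide +kernel)
                (CovZ.leaf K2_ok TB_l13148 _)
                (CovZ.leaf K2_ok TB_l13149 _))
               (CovZ.leaf K2_ok TB_l13150 _))
              (CovZ.n1 (-25728, 7824) (by decide +kernel)
               (CovZ.leaf K2_ok TB_l13151 _)
               (CovZ.leaf K2_ok TB_l13152 _)))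
             (CovZ.n1 (-25680, 7728) (by decide +kernel)
              (CovZ.n2 (-25728, 7728) (by decide +kernel)
               (CovZ.n2 (-25704, 7752) (by decide +kernel)
                (CovZ.leaf K2_ok TB_l13153 _)
                (CovZ.leaf K2_ok TB_l13154 _))
               (CovZ.n1 (-25704, 7704) (by decide +kernel)
                (CovZ.leaf K2_ok TB_l13155 _)
                (CovZ.leaf K2_ok TB_l13156 _)))
              (CovZ.n1 (-25680, 7776) (by decide +kernel)
               (CovZ.n2 (-25656, 7752) (by decide +kernel)
                (CovZ.leaf K2_ok TB_l13157 _)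
                (CovZ.leaf K2_ok TB_l13158 _))
               (CovZ.leaf K2_ok TB_l13159 _))))
            (CovZ.n1 (-25632, 7872) (by decide +kernel)
             (CovZ.n2 (-25584, 7824) (by decide +kernel)
              (CovZ.leaf K2_ok TB_l13160 _)
              (CovZ.n1 (-25584, 7872) (by decide +kernel)
               (CovZ.leaf K2_ok TB_l13161 _)
               (CovZ.leaf K2_ok TB_l13162 _)))
             (CovZ.n1 (-25680, 7824) (by decide +kernel)
              (CovZ.n2 (-25680, 7872) (by decide +kernel)
               (CovZ.leaf K2_ok TB_l13163 _)
               (CovZ.leaf K2_ok TB_l13164 _))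
              (CovZ.leaf K2_ok TB_l13165 _)))))))

theorem TB_u195 : CovZ TB_M (toL (selN TB_LN 631663411835949100953508513597419984444155757933257643568612386246404924973022572743048824847991375926091055628558468)) [0, 7, 6, 1] (-24576, 7680) (-24960, 8064) (-25344, 7680) :=
    (CovZ.subM 1231312693637362471395316531320277891444375734143890962731782314986537250216117058412088775117886756128540516679812 (by decide +kernel)
       (CovZ.n2 (-24960, 7680) (by decide +kernel)
        (CovZ.n2 (-25152, 7872) (by decide +kernel)
         (CovZ.subM 103647503854704872778031741255637643648066022667152228257628288 (by decide +kernel)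
          (CovZ.n2 (-24960, 7872) (by decide +kernel)
           (CovZ.n2 (-25056, 7776) (by decide +kernel)
            (CovZ.n2 (-25056, 7872) (by decide +kernel)
             (CovZ.n2 (-25008, 7824) (by decide +kernel)
              (CovZ.n2 (-25056, 7824) (by decide +kernel)
               (CovZ.leaf K2_ok TB_l40036 _)
               (CovZ.leaf K2_ok TB_l40037 _))
              (CovZ.n1 (-25008, 7872) (by decide +kernel)
               (CovZ.leaf K2_ok TB_l40038 _)
               (CovZ.leaf K2_ok TB_l40039 _)))
             (CovZ.n1 (-25104, 7824) (by decide +kernel)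
              (CovZ.n2 (-25104, 7872) (by decide +kernel)
               (CovZ.leaf K2_ok TB_l13166 _)
               (CovZ.leaf K2_ok TB_l13167 _))
              (CovZ.leaf K2_ok TB_l40040 _)))
            (CovZ.n1 (-24960, 7776) (by decide +kernel)
             (CovZ.n2 (-25008, 7728) (by decide +kernel)
              (CovZ.n2 (-25008, 7776) (by decide +kernel)
               (CovZ.leaf K2_ok TB_l40041 _)
               (CovZ.leaf K2_ok TB_l40042 _))
              (CovZ.leaf K2_ok TB_l40043 _))
             (CovZ.n1 (-25008, 7824) (by decide +kernel)
              (CovZ.leaf K2_ok TB_l40044 _)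
              (CovZ.n1 (-25008, 7776) (by decide +kernel)
               (CovZ.leaf K2_ok TB_l40045 _)
               (CovZ.leaf K2_ok TB_l40046 _)))))
           (CovZ.n1 (-25056, 7968) (by decide +kernel)
            (CovZ.n2 (-24960, 7968) (by decide +kernel)
             (CovZ.n2 (-25008, 7920) (by decide +kernel)
              (CovZ.n2 (-25008, 7968) (by decide +kernel)
               (CovZ.leaf K2_ok TB_l13168 _)
               (CovZ.leaf K2_ok TB_l13169 _))
              (CovZ.leaf K2_ok TB_l13170 _))
             (CovZ.n1 (-25008, 8016) (by decide +kernel)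
              (CovZ.leaf K2_ok TB_l13171 _)
              (CovZ.n1 (-25008, 7968) (by decide +kernel)
               (CovZ.leaf K2_ok TB_l13172 _)
               (CovZ.leaf K2_ok TB_l13173 _))))
            (CovZ.n1 (-25056, 7872) (by decide +kernel)
             (CovZ.n2 (-25104, 7920) (by decide +kernel)
              (CovZ.leaf K2_ok TB_l13174 _)
              (CovZ.n1 (-25104, 7872) (by decide +kernel)
               (CovZ.leaf K2_ok TB_l13175 _)
               (CovZ.leaf K2_ok TB_l13176 _)))
             (CovZ.n1 (-25008, 7920) (by decide +kernel)
              (CovZ.n2 (-25008, 7872) (by decide +kernel)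
               (CovZ.leaf K2_ok TB_l13177 _)
               (CovZ.leaf K2_ok TB_l13178 _))
              (CovZ.leaf K2_ok TB_l13179 _))))))
         (CovZ.subM 103647503854704872778031741255637643648066022667152228253433856 (by decide +kernel)
          (CovZ.n1 (-25152, 7680) (by decide +kernel)
           (CovZ.n2 (-25248, 7776) (by decide +kernel)
            (CovZ.n2 (-25152, 7776) (by decide +kernel)
             (CovZ.n2 (-25200, 7728) (by decide +kernel)
              (CovZ.n2 (-25200, 7776) (by decide +kernel)
               (CovZ.leaf K2_ok TB_l40047 _)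
               (CovZ.leaf K2_ok TB_l40048 _))
              (CovZ.n1 (-25152, 7728) (by decide +kernel)
               (CovZ.leaf K2_ok TB_l40049 _)
               (CovZ.leaf K2_ok TB_l40050 _)))
             (CovZ.n1 (-25200, 7824) (by decide +kernel)
              (CovZ.n2 (-25152, 7824) (by decide +kernel)
               (CovZ.leaf K2_ok TB_l13180 _)
               (CovZ.leaf K2_ok TB_l13181 _))
              (CovZ.n1 (-25200, 7776) (by decide +kernel)
               (CovZ.leaf K2_ok TB_l13182 _)
               (CovZ.leaf K2_ok TB_l13183 _))))
            (CovZ.n1 (-25248, 7680) (by decide +kernel)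
             (CovZ.n2 (-25296, 7728) (by decide +kernel)
              (CovZ.n2 (-25248, 7728) (by decide +kernel)
               (CovZ.n2 (-25272, 7704) (by decide +kernel)
                (CovZ.leaf K2_ok TB_l40051 _)
                (CovZ.leaf K2_ok TB_l40052 _))
               (CovZ.n1 (-25272, 7752) (by decide +kernel)
                (CovZ.leaf K2_ok TB_l40053 _)
                (CovZ.leaf K2_ok TB_l40054 _)))
              (CovZ.n1 (-25296, 7680) (by decide +kernel)
               (CovZ.n2 (-25320, 7704) (by decide +kernel)
                (CovZ.leaf K2_ok TB_l40055 _)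
                (CovZ.leaf K2_ok TB_l40056 _))
               (CovZ.n1 (-25272, 7704) (by decide +kernel)
                (CovZ.leaf K2_ok TB_l40057 _)
                (CovZ.leaf K2_ok TB_l40058 _))))
             (CovZ.n1 (-25200, 7728) (by decide +kernel)
              (CovZ.n2 (-25200, 7680) (by decide +kernel)
               (CovZ.n2 (-25224, 7704) (by decide +kernel)
                (CovZ.leaf K2_ok TB_l40059 _)
                (CovZ.leaf K2_ok TB_l40060 _))
               (CovZ.leaf K2_ok TB_l40061 _))
              (CovZ.n1 (-25248, 7728) (by decide +kernel)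
               (CovZ.leaf K2_ok TB_l40062 _)
               (CovZ.n1 (-25224, 7704) (by decide +kernel)
                (CovZ.leaf K2_ok TB_l40063 _)
                (CovZ.leaf K2_ok TB_l40064 _))))))
           (CovZ.n1 (-25056, 7776) (by decide +kernel)
            (CovZ.n2 (-25056, 7680) (by decide +kernel)
             (CovZ.n2 (-25104, 7728) (by decide +kernel)
              (CovZ.n2 (-25056, 7728) (by decide +kernel)
               (CovZ.leaf K2_ok TB_l40065 _)
               (CovZ.leaf K2_ok TB_l40066 _))
              (CovZ.n1 (-25104, 7680) (by decide +kernel)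
               (CovZ.leaf K2_ok TB_l40067 _)
               (CovZ.leaf K2_ok TB_l40068 _)))
             (CovZ.n1 (-25008, 7728) (by decide +kernel)
              (CovZ.n2 (-25008, 7680) (by decide +kernel)
               (CovZ.leaf K2_ok TB_l40069 _)
               (CovZ.leaf K2_ok TB_l40070 _))
              (CovZ.n1 (-25056, 7728) (by decide +kernel)
               (CovZ.leaf K2_ok TB_l40071 _)
               (CovZ.leaf K2_ok TB_l40072 _))))
            (CovZ.n1 (-25152, 7776) (by decide +kernel)
             (CovZ.n2 (-25104, 7824) (by decide +kernel)
              (CovZ.n2 (-25104, 7776) (by decide +kernel)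
               (CovZ.leaf K2_ok TB_l40073 _)
               (CovZ.leaf K2_ok TB_l40074 _))
              (CovZ.n1 (-25152, 7824) (by decide +kernel)
               (CovZ.leaf K2_ok TB_l13184 _)
               (CovZ.leaf K2_ok TB_l40075 _)))
             (CovZ.n1 (-25104, 7728) (by decide +kernel)
              (CovZ.n2 (-25152, 7728) (by decide +kernel)
               (CovZ.leaf K2_ok TB_l40076 _)
               (CovZ.leaf K2_ok TB_l40077 _))
              (CovZ.n1 (-25104, 7776) (by decide +kernel)
               (CovZ.leaf K2_ok TB_l40078 _)
               (CovZ.leaf K2_ok TB_l40079 _))))))))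
        (CovZ.n1 (-24768, 7872) (by decide +kernel)
         (CovZ.subM 103647503854704872778031741255637643648066022667152228253433856 (by decide +kernel)
          (CovZ.n2 (-24768, 7680) (by decide +kernel)
           (CovZ.n2 (-24864, 7776) (by decide +kernel)
            (CovZ.n2 (-24768, 7776) (by decide +kernel)
             (CovZ.n2 (-24816, 7728) (by decide +kernel)
              (CovZ.n2 (-24816, 7776) (by decide +kernel)
               (CovZ.leaf K2_ok TB_l40080 _)
               (CovZ.leaf K2_ok TB_l40081 _))
              (CovZ.leaf K2_ok TB_l40082 _))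
             (CovZ.n1 (-24816, 7824) (by decide +kernel)
              (CovZ.leaf K2_ok TB_l13185 _)
              (CovZ.n1 (-24816, 7776) (by decide +kernel)
               (CovZ.leaf K2_ok TB_l40083 _)
               (CovZ.leaf K2_ok TB_l40084 _))))
            (CovZ.n1 (-24864, 7680) (by decide +kernel)
             (CovZ.n2 (-24912, 7728) (by decide +kernel)
              (CovZ.leaf K2_ok TB_l40085 _)
              (CovZ.n1 (-24912, 7680) (by decide +kernel)
               (CovZ.leaf K2_ok TB_l40086 _)
               (CovZ.leaf K2_ok TB_l40087 _)))
             (CovZ.n1 (-24816, 7728) (by decide +kernel)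
              (CovZ.n2 (-24816, 7680) (by decide +kernel)
               (CovZ.leaf K2_ok TB_l40088 _)
               (CovZ.leaf K2_ok TB_l40089 _))
              (CovZ.leaf K2_ok TB_l40090 _))))
           (CovZ.n1 (-24672, 7776) (by decide +kernel)
            (CovZ.n2 (-24672, 7680) (by decide +kernel)
             (CovZ.n2 (-24720, 7728) (by decide +kernel)
              (CovZ.n2 (-24672, 7728) (by decide +kernel)
               (CovZ.leaf K2_ok TB_l40091 _)
               (CovZ.leaf K2_ok TB_l40092 _))
              (CovZ.n1 (-24720, 7680) (by decide +kernel)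
               (CovZ.leaf K2_ok TB_l40093 _)
               (CovZ.n1 (-24696, 7704) (by decide +kernel)
                (CovZ.leaf K2_ok TB_l40094 _)
                (CovZ.leaf K2_ok TB_l40095 _))))
             (CovZ.n1 (-24624, 7728) (by decide +kernel)
              (CovZ.n2 (-24624, 7680) (by decide +kernel)
               (CovZ.n2 (-24648, 7704) (by decide +kernel)
                (CovZ.leaf K2_ok TB_l40096 _)
                (CovZ.leaf K2_ok TB_l40097 _))
               (CovZ.n1 (-24600, 7704) (by decide +kernel)
                (CovZ.leaf K2_ok TB_l40098 _)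
                (CovZ.leaf K2_ok TB_l40099 _)))
              (CovZ.n1 (-24672, 7728) (by decide +kernel)
               (CovZ.leaf K2_ok TB_l40100 _)
               (CovZ.n1 (-24648, 7704) (by decide +kernel)
                (CovZ.leaf K2_ok TB_l40101 _)
                (CovZ.leaf K2_ok TB_l40102 _)))))
            (CovZ.n1 (-24768, 7776) (by decide +kernel)
             (CovZ.n2 (-24720, 7824) (by decide +kernel)
              (CovZ.n2 (-24720, 7776) (by decide +kernel)
               (CovZ.leaf K2_ok TB_l13186 _)
               (CovZ.leaf K2_ok TB_l13187 _))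
              (CovZ.n1 (-24768, 7824) (by decide +kernel)
               (CovZ.leaf K2_ok TB_l13188 _)
               (CovZ.leaf K2_ok TB_l13189 _)))
             (CovZ.n1 (-24720, 7728) (by decide +kernel)
              (CovZ.n2 (-24768, 7728) (by decide +kernel)
               (CovZ.leaf K2_ok TB_l40103 _)
               (CovZ.leaf K2_ok TB_l40104 _))
              (CovZ.n1 (-24720, 7776) (by decide +kernel)
               (CovZ.leaf K2_ok TB_l40105 _)
               (CovZ.leaf K2_ok TB_l40106 _)))))))
         (CovZ.subM 103647503854704872778031741255637643648066022667152228257628288 (by decide +kernel)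
          (CovZ.n1 (-24960, 7872) (by decide +kernel)
           (CovZ.n2 (-24864, 7968) (by decide +kernel)
            (CovZ.n2 (-24864, 7872) (by decide +kernel)
             (CovZ.n2 (-24912, 7920) (by decide +kernel)
              (CovZ.leaf K2_ok TB_l13190 _)
              (CovZ.n1 (-24912, 7872) (by decide +kernel)
               (CovZ.leaf K2_ok TB_l13191 _)
               (CovZ.leaf K2_ok TB_l13192 _)))
             (CovZ.n1 (-24816, 7920) (by decide +kernel)
              (CovZ.n2 (-24816, 7872) (by decide +kernel)
               (CovZ.leaf K2_ok TB_l13193 _)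
               (CovZ.leaf K2_ok TB_l13194 _))
              (CovZ.leaf K2_ok TB_l13195 _)))
            (CovZ.n1 (-24960, 7968) (by decide +kernel)
             (CovZ.n2 (-24912, 8016) (by decide +kernel)
              (CovZ.leaf K2_ok TB_l13196 _)
              (CovZ.leaf K2_ok TB_l13197 _))
             (CovZ.n1 (-24912, 7920) (by decide +kernel)
              (CovZ.leaf K2_ok TB_l13198 _)
              (CovZ.n1 (-24912, 7968) (by decide +kernel)
               (CovZ.leaf K2_ok TB_l13199 _)
               (CovZ.leaf K2_ok TB_l13200 _)))))
           (CovZ.n1 (-24864, 7776) (by decide +kernel)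
            (CovZ.n2 (-24960, 7776) (by decide +kernel)
             (CovZ.n2 (-24912, 7824) (by decide +kernel)
              (CovZ.n2 (-24912, 7776) (by decide +kernel)
               (CovZ.leaf K2_ok TB_l40107 _)
               (CovZ.leaf K2_ok TB_l40108 _))
              (CovZ.leaf K2_ok TB_l40109 _))
             (CovZ.n1 (-24912, 7728) (by decide +kernel)
              (CovZ.n2 (-24960, 7728) (by decide +kernel)
               (CovZ.leaf K2_ok TB_l40110 _)
               (CovZ.leaf K2_ok TB_l40111 _))
              (CovZ.n1 (-24912, 7776) (by decide +kernel)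
               (CovZ.leaf K2_ok TB_l40112 _)
               (CovZ.leaf K2_ok TB_l40113 _))))
            (CovZ.n1 (-24864, 7872) (by decide +kernel)
             (CovZ.n2 (-24816, 7824) (by decide +kernel)
              (CovZ.leaf K2_ok TB_l40114 _)
              (CovZ.n1 (-24816, 7872) (by decide +kernel)
               (CovZ.leaf K2_ok TB_l13201 _)
               (CovZ.leaf K2_ok TB_l40115 _)))
             (CovZ.n1 (-24912, 7824) (by decide +kernel)
              (CovZ.n2 (-24912, 7872) (by decide +kernel)
               (CovZ.leaf K2_ok TB_l40116 _)
               (CovZ.leaf K2_ok TB_l40117 _))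
              (CovZ.leaf K2_ok TB_l40118 _)))))))))

theorem TB_u196 : CovZ TB_M (toL (selN TB_LN 631663411835949100953508513597419984444155757933257643568612386246404924973022572743048824847991375926091055628558468)) [0, 7, 6, 1] (-24960, 8064) (-25344, 8448) (-25344, 7680) :=
    (CovZ.subM 103647503854704875632527126667557405764637961566142501023383680 (by decide +kernel)
       (CovZ.n1 (-25344, 8064) (by decide +kernel)
        (CovZ.n2 (-25152, 8256) (by decide +kernel)
         (CovZ.n2 (-25152, 8064) (by decide +kernel)
          (CovZ.n2 (-25248, 8160) (by decide +kernel)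
           (CovZ.n2 (-25152, 8160) (by decide +kernel)
            (CovZ.n2 (-25200, 8112) (by decide +kernel)
             (CovZ.n2 (-25200, 8160) (by decide +kernel)
              (CovZ.leaf K2_ok TB_l13202 _)
              (CovZ.leaf K2_ok TB_l13203 _))
             (CovZ.leaf K2_ok TB_l13204 _))
            (CovZ.n1 (-25200, 8208) (by decide +kernel)
             (CovZ.leaf K2_ok TB_l13205 _)
             (CovZ.n1 (-25200, 8160) (by decide +kernel)
              (CovZ.leaf K2_ok TB_l13206 _)
              (CovZ.leaf K2_ok TB_l13207 _))))
           (CovZ.n1 (-25248, 8064) (by decide +kernel)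
            (CovZ.n2 (-25296, 8112) (by decide +kernel)
             (CovZ.leaf K2_ok TB_l13208 _)
             (CovZ.n1 (-25296, 8064) (by decide +kernel)
              (CovZ.leaf K2_ok TB_l13209 _)
              (CovZ.leaf K2_ok TB_l13210 _)))
            (CovZ.n1 (-25200, 8112) (by decide +kernel)
             (CovZ.n2 (-25200, 8064) (by decide +kernel)
              (CovZ.leaf K2_ok TB_l13211 _)
              (CovZ.leaf K2_ok TB_l13212 _))
             (CovZ.leaf K2_ok TB_l13213 _))))
          (CovZ.n1 (-25056, 8160) (by decide +kernel)
           (CovZ.n2 (-25056, 8064) (by decide +kernel)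
            (CovZ.n2 (-25104, 8112) (by decide +kernel)
             (CovZ.leaf K2_ok TB_l13214 _)
             (CovZ.leaf K2_ok TB_l13215 _))
            (CovZ.n1 (-25008, 8112) (by decide +kernel)
             (CovZ.leaf K2_ok TB_l13216 _)
             (CovZ.leaf K2_ok TB_l13217 _)))
           (CovZ.n1 (-25152, 8160) (by decide +kernel)
            (CovZ.n2 (-25104, 8208) (by decide +kernel)
             (CovZ.leaf K2_ok TB_l13218 _)
             (CovZ.leaf K2_ok TB_l13219 _))
            (CovZ.n1 (-25104, 8112) (by decide +kernel)
             (CovZ.leaf K2_ok TB_l13220 _)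
             (CovZ.leaf K2_ok TB_l13221 _)))))
         (CovZ.n1 (-25344, 8256) (by decide +kernel)
          (CovZ.n2 (-25248, 8352) (by decide +kernel)
           (CovZ.n2 (-25248, 8256) (by decide +kernel)
            (CovZ.n2 (-25296, 8304) (by decide +kernel)
             (CovZ.leaf K2_ok TB_l13222 _)
             (CovZ.leaf K2_ok TB_l13223 _))
            (CovZ.n1 (-25200, 8304) (by decide +kernel)
             (CovZ.leaf K2_ok TB_l13224 _)
             (CovZ.leaf K2_ok TB_l13225 _)))
           (CovZ.n1 (-25344, 8352) (by decide +kernel)
            (CovZ.n2 (-25296, 8400) (by decide +kernel)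
             (CovZ.leaf K2_ok TB_l13226 _)
             (CovZ.leaf K2_ok TB_l13227 _))
            (CovZ.n1 (-25296, 8304) (by decide +kernel)
             (CovZ.leaf K2_ok TB_l13228 _)
             (CovZ.leaf K2_ok TB_l13229 _))))
          (CovZ.n1 (-25248, 8160) (by decide +kernel)
           (CovZ.n2 (-25344, 8160) (by decide +kernel)
            (CovZ.n2 (-25296, 8208) (by decide +kernel)
             (CovZ.n2 (-25296, 8160) (by decide +kernel)
              (CovZ.leaf K2_ok TB_l13230 _)
              (CovZ.leaf K2_ok TB_l13231 _))
             (CovZ.leaf K2_ok TB_l13232 _))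
            (CovZ.n1 (-25296, 8112) (by decide +kernel)
             (CovZ.leaf K2_ok TB_l13233 _)
             (CovZ.n1 (-25296, 8160) (by decide +kernel)
              (CovZ.leaf K2_ok TB_l13234 _)
              (CovZ.leaf K2_ok TB_l13235 _))))
           (CovZ.n1 (-25248, 8256) (by decide +kernel)
            (CovZ.n2 (-25200, 8208) (by decide +kernel)
             (CovZ.leaf K2_ok TB_l13236 _)
             (CovZ.leaf K2_ok TB_l13237 _))
            (CovZ.n1 (-25296, 8208) (by decide +kernel)
             (CovZ.leaf K2_ok TB_l13238 _)
             (CovZ.leaf K2_ok TB_l13239 _))))))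
        (CovZ.n1 (-25152, 7872) (by decide +kernel)
         (CovZ.n2 (-25344, 7872) (by decide +kernel)
          (CovZ.n2 (-25248, 7968) (by decide +kernel)
           (CovZ.n2 (-25248, 7872) (by decide +kernel)
            (CovZ.n2 (-25296, 7920) (by decide +kernel)
             (CovZ.n2 (-25248, 7920) (by decide +kernel)
              (CovZ.leaf K2_ok TB_l13240 _)
              (CovZ.leaf K2_ok TB_l13241 _))
             (CovZ.n1 (-25296, 7872) (by decide +kernel)
              (CovZ.leaf K2_ok TB_l13242 _)
              (CovZ.leaf K2_ok TB_l13243 _)))
            (CovZ.subM 103647503854704872778031741255637643648066022667152228253696000 (by decide +kernel)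
             (CovZ.n1 (-25200, 7920) (by decide +kernel)
              (CovZ.n2 (-25200, 7872) (by decide +kernel)
               (CovZ.leaf K2_ok TB_l13244 _)
               (CovZ.leaf K2_ok TB_l13245 _))
              (CovZ.n1 (-25248, 7920) (by decide +kernel)
               (CovZ.leaf K2_ok TB_l13246 _)
               (CovZ.leaf K2_ok TB_l13247 _)))))
           (CovZ.n1 (-25344, 7968) (by decide +kernel)
            (CovZ.n2 (-25296, 8016) (by decide +kernel)
             (CovZ.n2 (-25296, 7968) (by decide +kernel)
              (CovZ.leaf K2_ok TB_l13248 _)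
              (CovZ.leaf K2_ok TB_l13249 _))
             (CovZ.n1 (-25344, 8016) (by decide +kernel)
              (CovZ.leaf K2_ok TB_l13250 _)
              (CovZ.leaf K2_ok TB_l13251 _)))
            (CovZ.n1 (-25296, 7920) (by decide +kernel)
             (CovZ.n2 (-25344, 7920) (by decide +kernel)
              (CovZ.leaf K2_ok TB_l13252 _)
              (CovZ.leaf K2_ok TB_l13253 _))
             (CovZ.n1 (-25296, 7968) (by decide +kernel)
              (CovZ.leaf K2_ok TB_l13254 _)
              (CovZ.leaf K2_ok TB_l13255 _)))))
          (CovZ.n1 (-25248, 7776) (by decide +kernel)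
           (CovZ.n2 (-25344, 7776) (by decide +kernel)
            (CovZ.n2 (-25296, 7824) (by decide +kernel)
             (CovZ.n2 (-25296, 7776) (by decide +kernel)
              (CovZ.n2 (-25320, 7800) (by decide +kernel)
               (CovZ.leaf K2_ok TB_l13256 _)
               (CovZ.leaf K2_ok TB_l13257 _))
              (CovZ.leaf K2_ok TB_l13258 _))
             (CovZ.n1 (-25344, 7824) (by decide +kernel)
              (CovZ.leaf K2_ok TB_l13259 _)
              (CovZ.leaf K2_ok TB_l13260 _)))
            (CovZ.subM 103647503854704872778031741255637643648066022667152228253433856 (by decide +kernel)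
             (CovZ.n1 (-25296, 7728) (by decide +kernel)
              (CovZ.n2 (-25344, 7728) (by decide +kernel)
               (CovZ.n2 (-25320, 7752) (by decide +kernel)
                (CovZ.leaf K2_ok TB_l40119 _)
                (CovZ.leaf K2_ok TB_l13261 _))
               (CovZ.n1 (-25320, 7704) (by decide +kernel)
                (CovZ.leaf K2_ok TB_l40120 _)
                (CovZ.leaf K2_ok TB_l40121 _)))
              (CovZ.n1 (-25296, 7776) (by decide +kernel)
               (CovZ.n2 (-25272, 7752) (by decide +kernel)
                (CovZ.leaf K2_ok TB_l13262 _)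
                (CovZ.leaf K2_ok TB_l13263 _))
               (CovZ.leaf K2_ok TB_l13264 _)))))
           (CovZ.n1 (-25248, 7872) (by decide +kernel)
            (CovZ.subM 103647503854704872778031741255637643648066022667152228253433856 (by decide +kernel)
             (CovZ.n2 (-25200, 7824) (by decide +kernel)
              (CovZ.n2 (-25248, 7824) (by decide +kernel)
               (CovZ.leaf K2_ok TB_l13265 _)
               (CovZ.leaf K2_ok TB_l13266 _))
              (CovZ.n1 (-25200, 7872) (by decide +kernel)
               (CovZ.leaf K2_ok TB_l13267 _)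
               (CovZ.leaf K2_ok TB_l13268 _))))
            (CovZ.n1 (-25296, 7824) (by decide +kernel)
             (CovZ.n2 (-25296, 7872) (by decide +kernel)
              (CovZ.leaf K2_ok TB_l13269 _)
              (CovZ.leaf K2_ok TB_l13270 _))
             (CovZ.n1 (-25248, 7824) (by decide +kernel)
              (CovZ.leaf K2_ok TB_l13271 _)
              (CovZ.leaf K2_ok TB_l13272 _))))))
         (CovZ.n1 (-25152, 8064) (by decide +kernel)
          (CovZ.n2 (-25056, 7968) (by decide +kernel)
           (CovZ.n2 (-25152, 7968) (by decide +kernel)
            (CovZ.n2 (-25104, 8016) (by decide +kernel)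
             (CovZ.n2 (-25104, 7968) (by decide +kernel)
              (CovZ.leaf K2_ok TB_l13273 _)
              (CovZ.leaf K2_ok TB_l13274 _))
             (CovZ.leaf K2_ok TB_l13275 _))
            (CovZ.n1 (-25104, 7920) (by decide +kernel)
             (CovZ.leaf K2_ok TB_l13276 _)
             (CovZ.n1 (-25104, 7968) (by decide +kernel)
              (CovZ.leaf K2_ok TB_l13277 _)
              (CovZ.leaf K2_ok TB_l13278 _))))
           (CovZ.n1 (-25056, 8064) (by decide +kernel)
            (CovZ.n2 (-25008, 8016) (by decide +kernel)
             (CovZ.leaf K2_ok TB_l13279 _)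
             (CovZ.leaf K2_ok TB_l13280 _))
            (CovZ.n1 (-25104, 8016) (by decide +kernel)
             (CovZ.leaf K2_ok TB_l13281 _)
             (CovZ.leaf K2_ok TB_l13282 _))))
          (CovZ.n1 (-25248, 7968) (by decide +kernel)
           (CovZ.n2 (-25248, 8064) (by decide +kernel)
            (CovZ.n2 (-25200, 8016) (by decide +kernel)
             (CovZ.leaf K2_ok TB_l13283 _)
             (CovZ.n1 (-25200, 8064) (by decide +kernel)
              (CovZ.leaf K2_ok TB_l13284 _)
              (CovZ.leaf K2_ok TB_l13285 _)))
            (CovZ.n1 (-25296, 8016) (by decide +kernel)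
             (CovZ.n2 (-25296, 8064) (by decide +kernel)
              (CovZ.leaf K2_ok TB_l13286 _)
              (CovZ.leaf K2_ok TB_l13287 _))
             (CovZ.leaf K2_ok TB_l13288 _)))
           (CovZ.n1 (-25152, 7968) (by decide +kernel)
            (CovZ.subM 103647503854704872778031741255637643648066022667152228253696000 (by decide +kernel)
             (CovZ.n2 (-25200, 7920) (by decide +kernel)
              (CovZ.n2 (-25200, 7968) (by decide +kernel)
               (CovZ.leaf K2_ok TB_l13289 _)
               (CovZ.leaf K2_ok TB_l13290 _))
              (CovZ.n1 (-25152, 7920) (by decide +kernel)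
               (CovZ.leaf K2_ok TB_l13291 _)
               (CovZ.leaf K2_ok TB_l13292 _))))
            (CovZ.n1 (-25200, 8016) (by decide +kernel)
             (CovZ.leaf K2_ok TB_l13293 _)
             (CovZ.n1 (-25200, 7968) (by decide +kernel)
              (CovZ.leaf K2_ok TB_l13294 _)
              (CovZ.leaf K2_ok TB_l13295 _)))))))))

theorem TB_u197 : CovZ TB_M (toL (selN TB_LN 631663411835949100953508513597419984444155757933257643568612386246404924973022572743048824847991375926091055628558468)) [0, 7, 6, 1] (-24576, 9216) (-25344, 8448) (-24576, 7680) :=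
    (CovZ.n2 (-24576, 8448) (by decide +kernel)
     (CovZ.n2 (-24960, 8064) (by decide +kernel)
      TB_u191
      TB_u192)
     (CovZ.n1 (-24960, 8832) (by decide +kernel)
      (CovZ.n2 (-24576, 8832) (by decide +kernel)
       (CovZ.n2 (-24768, 8640) (by decide +kernel)
        (CovZ.n2 (-24768, 8832) (by decide +kernel)
         (CovZ.n2 (-24672, 8736) (by decide +kernel)
          (CovZ.n2 (-24768, 8736) (by decide +kernel)
           (CovZ.leaf K2_ok TB_l12817 _)
           (CovZ.leaf K2_ok TB_l12818 _))
          (CovZ.n1 (-24672, 8832) (by decide +kernel)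
           (CovZ.leaf K2_ok TB_l12819 _)
           (CovZ.leaf K2_ok TB_l12820 _)))
         (CovZ.subM 69992023193056381579920071267763883691405069292437502838402691146374133618028095565819573892995612800 (by decide +kernel)
          (CovZ.n1 (-24864, 8736) (by decide +kernel)
           (CovZ.n2 (-24864, 8832) (by decide +kernel)
            (CovZ.leaf K2_ok TB_l12821 _)
            (CovZ.leaf K2_ok TB_l12822 _))
           (CovZ.n1 (-24768, 8736) (by decide +kernel)
            (CovZ.leaf K2_ok TB_l12823 _)
            (CovZ.leaf K2_ok TB_l12824 _)))))
        (CovZ.n1 (-24576, 8640) (by decide +kernel)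
         (CovZ.n2 (-24672, 8544) (by decide +kernel)
          (CovZ.n2 (-24672, 8640) (by decide +kernel)
           (CovZ.n2 (-24624, 8592) (by decide +kernel)
            (CovZ.leaf K2_ok TB_l12825 _)
            (CovZ.leaf K2_ok TB_l12826 _))
           (CovZ.leaf K2_ok TB_l12827 _))
          (CovZ.n1 (-24576, 8544) (by decide +kernel)
           (CovZ.n2 (-24624, 8496) (by decide +kernel)
            (CovZ.leaf K2_ok TB_l12828 _)
            (CovZ.leaf K2_ok TB_l12829 _))
           (CovZ.n1 (-24624, 8592) (by decide +kernel)
            (CovZ.leaf K2_ok TB_l12830 _)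
            (CovZ.leaf K2_ok TB_l12831 _))))
         (CovZ.n1 (-24672, 8736) (by decide +kernel)
          (CovZ.n2 (-24576, 8736) (by decide +kernel)
           (CovZ.leaf K2_ok TB_l12832 _)
           (CovZ.leaf K2_ok TB_l12833 _))
          (CovZ.n1 (-24672, 8640) (by decide +kernel)
           (CovZ.leaf K2_ok TB_l12834 _)
           (CovZ.leaf K2_ok TB_l12835 _)))))
       (CovZ.n1 (-24768, 9024) (by decide +kernel)
        (CovZ.n2 (-24576, 9024) (by decide +kernel)
         (CovZ.n2 (-24672, 8928) (by decide +kernel)
          (CovZ.n2 (-24672, 9024) (by decide +kernel)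
           (CovZ.leaf K2_ok TB_l12836 _)
           (CovZ.leaf K2_ok TB_l12837 _))
          (CovZ.n1 (-24576, 8928) (by decide +kernel)
           (CovZ.leaf K2_ok TB_l12838 _)
           (CovZ.leaf K2_ok TB_l12839 _)))
         (CovZ.n1 (-24672, 9120) (by decide +kernel)
          (CovZ.n2 (-24576, 9120) (by decide +kernel)
           (CovZ.leaf K2_ok TB_l12840 _)
           (CovZ.leaf K2_ok TB_l12841 _))
          (CovZ.n1 (-24672, 9024) (by decide +kernel)
           (CovZ.leaf K2_ok TB_l12842 _)
           (CovZ.leaf K2_ok TB_l12843 _))))
        (CovZ.n1 (-24768, 8832) (by decide +kernel)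
         (CovZ.subM 69992023193056381579920071267763883691405069292437502838402691146374133618028095565819573892995612800 (by decide +kernel)
          (CovZ.n2 (-24864, 8928) (by decide +kernel)
           (CovZ.n2 (-24768, 8928) (by decide +kernel)
            (CovZ.leaf K2_ok TB_l12844 _)
            (CovZ.leaf K2_ok TB_l12845 _))
           (CovZ.n1 (-24864, 8832) (by decide +kernel)
            (CovZ.leaf K2_ok TB_l12846 _)
            (CovZ.leaf K2_ok TB_l12847 _))))
         (CovZ.n1 (-24672, 8928) (by decide +kernel)
          (CovZ.n2 (-24672, 8832) (by decide +kernel)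
           (CovZ.leaf K2_ok TB_l12848 _)
           (CovZ.leaf K2_ok TB_l12849 _))
          (CovZ.leaf K2_ok TB_l12850 _)))))
      (CovZ.n1 (-24960, 8448) (by decide +kernel)
       (CovZ.subM 69992023193056381579920071267763883691405069292437502841257186531786053380144667504718564165761106048 (by decide +kernel)
        (CovZ.n2 (-25152, 8640) (by decide +kernel)
         (CovZ.n2 (-24960, 8640) (by decide +kernel)
          (CovZ.n2 (-25056, 8544) (by decide +kernel)
           (CovZ.n2 (-25056, 8640) (by decide +kernel)
            (CovZ.n2 (-25008, 8592) (by decide +kernel)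
             (CovZ.leaf K2_ok TB_l12851 _)
             (CovZ.leaf K2_ok TB_l12852 _))
            (CovZ.leaf K2_ok TB_l12853 _))
           (CovZ.n1 (-24960, 8544) (by decide +kernel)
            (CovZ.n2 (-25008, 8496) (by decide +kernel)
             (CovZ.leaf K2_ok TB_l12854 _)
             (CovZ.leaf K2_ok TB_l12855 _))
            (CovZ.n1 (-25008, 8592) (by decide +kernel)
             (CovZ.leaf K2_ok TB_l12856 _)
             (CovZ.leaf K2_ok TB_l12857 _))))
          (CovZ.n1 (-25056, 8736) (by decide +kernel)
           (CovZ.n2 (-24960, 8736) (by decide +kernel)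
            (CovZ.leaf K2_ok TB_l12858 _)
            (CovZ.leaf K2_ok TB_l12859 _))
           (CovZ.n1 (-25056, 8640) (by decide +kernel)
            (CovZ.leaf K2_ok TB_l12860 _)
            (CovZ.leaf K2_ok TB_l12861 _))))
         (CovZ.n1 (-25152, 8448) (by decide +kernel)
          (CovZ.n2 (-25248, 8544) (by decide +kernel)
           (CovZ.n2 (-25152, 8544) (by decide +kernel)
            (CovZ.n2 (-25200, 8496) (by decide +kernel)
             (CovZ.leaf K2_ok TB_l12862 _)
             (CovZ.leaf K2_ok TB_l12863 _))
            (CovZ.n1 (-25200, 8592) (by decide +kernel)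
             (CovZ.leaf K2_ok TB_l12864 _)
             (CovZ.leaf K2_ok TB_l12865 _)))
           (CovZ.n1 (-25248, 8448) (by decide +kernel)
            (CovZ.n2 (-25296, 8496) (by decide +kernel)
             (CovZ.leaf K2_ok TB_l12866 _)
             (CovZ.leaf K2_ok TB_l12867 _))
            (CovZ.n1 (-25200, 8496) (by decide +kernel)
             (CovZ.leaf K2_ok TB_l12868 _)
             (CovZ.leaf K2_ok TB_l12869 _))))
          (CovZ.n1 (-25056, 8544) (by decide +kernel)
           (CovZ.n2 (-25056, 8448) (by decide +kernel)
            (CovZ.n2 (-25104, 8496) (by decide +kernel)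
             (CovZ.leaf K2_ok TB_l12870 _)
             (CovZ.leaf K2_ok TB_l12871 _))
            (CovZ.n1 (-25008, 8496) (by decide +kernel)
             (CovZ.leaf K2_ok TB_l12872 _)
             (CovZ.leaf K2_ok TB_l12873 _)))
           (CovZ.n1 (-25152, 8544) (by decide +kernel)
            (CovZ.n2 (-25104, 8592) (by decide +kernel)
             (CovZ.leaf K2_ok TB_l12874 _)
             (CovZ.leaf K2_ok TB_l12875 _))
            (CovZ.n1 (-25104, 8496) (by decide +kernel)
             (CovZ.leaf K2_ok TB_l12876 _)
             (CovZ.leaf K2_ok TB_l12877 _)))))))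
       (CovZ.n1 (-24768, 8640) (by decide +kernel)
        (CovZ.n2 (-24768, 8448) (by decide +kernel)
         (CovZ.subM 69992023193056381579920071267763883691405069292437502838402691146374133618028095565819573892995612800 (by decide +kernel)
          (CovZ.n2 (-24864, 8544) (by decide +kernel)
           (CovZ.n2 (-24768, 8544) (by decide +kernel)
            (CovZ.n2 (-24816, 8496) (by decide +kernel)
             (CovZ.leaf K2_ok TB_l12878 _)
             (CovZ.leaf K2_ok TB_l12879 _))
            (CovZ.n1 (-24816, 8592) (by decide +kernel)
             (CovZ.leaf K2_ok TB_l12880 _)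
             (CovZ.leaf K2_ok TB_l12881 _)))
           (CovZ.n1 (-24864, 8448) (by decide +kernel)
            (CovZ.n2 (-24912, 8496) (by decide +kernel)
             (CovZ.leaf K2_ok TB_l12882 _)
             (CovZ.leaf K2_ok TB_l12883 _))
            (CovZ.n1 (-24816, 8496) (by decide +kernel)
             (CovZ.n2 (-24816, 8448) (by decide +kernel)
              (CovZ.leaf K2_ok TB_l12884 _)
              (CovZ.leaf K2_ok TB_l12885 _))
             (CovZ.leaf K2_ok TB_l12886 _)))))
         (CovZ.n1 (-24672, 8544) (by decide +kernel)
          (CovZ.n2 (-24672, 8448) (by decide +kernel)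
           (CovZ.n2 (-24720, 8496) (by decide +kernel)
            (CovZ.leaf K2_ok TB_l12887 _)
            (CovZ.n1 (-24720, 8448) (by decide +kernel)
             (CovZ.leaf K2_ok TB_l12888 _)
             (CovZ.leaf K2_ok TB_l12889 _)))
           (CovZ.n1 (-24624, 8496) (by decide +kernel)
            (CovZ.leaf K2_ok TB_l12890 _)
            (CovZ.leaf K2_ok TB_l12891 _)))
          (CovZ.subM 69992023193056381579920071267763883691405069292437502838402691146374133618028095565819573892995612800 (by decide +kernel)
           (CovZ.n1 (-24768, 8544) (by decide +kernel)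
            (CovZ.n2 (-24720, 8592) (by decide +kernel)
             (CovZ.leaf K2_ok TB_l12892 _)
             (CovZ.leaf K2_ok TB_l12893 _))
            (CovZ.n1 (-24720, 8496) (by decide +kernel)
             (CovZ.leaf K2_ok TB_l12894 _)
             (CovZ.leaf K2_ok TB_l12895 _))))))
        (CovZ.subM 69992023193056381579920071267763883691405069292437502838402691146374133618028095565819573892995612800 (by decide +kernel)
         (CovZ.n1 (-24960, 8640) (by decide +kernel)
          (CovZ.n2 (-24864, 8736) (by decide +kernel)
           (CovZ.n2 (-24864, 8640) (by decide +kernel)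
            (CovZ.leaf K2_ok TB_l12896 _)
            (CovZ.leaf K2_ok TB_l12897 _))
           (CovZ.n1 (-24960, 8736) (by decide +kernel)
            (CovZ.leaf K2_ok TB_l12898 _)
            (CovZ.leaf K2_ok TB_l12899 _)))
          (CovZ.n1 (-24864, 8544) (by decide +kernel)
           (CovZ.n2 (-24960, 8544) (by decide +kernel)
            (CovZ.n2 (-24912, 8592) (by decide +kernel)
             (CovZ.leaf K2_ok TB_l12900 _)
             (CovZ.leaf K2_ok TB_l12901 _))
            (CovZ.n1 (-24912, 8496) (by decide +kernel)
             (CovZ.leaf K2_ok TB_l12902 _)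
             (CovZ.leaf K2_ok TB_l12903 _)))
           (CovZ.n1 (-24864, 8640) (by decide +kernel)
            (CovZ.n2 (-24816, 8592) (by decide +kernel)
             (CovZ.leaf K2_ok TB_l12904 _)
             (CovZ.leaf K2_ok TB_l12905 _))
            (CovZ.leaf K2_ok TB_l12906 _)))))))))

theorem TB_u198 : CovZ TB_M (toL (selN TB_LN 631663411835949100953508513597419984444155757933257643568612386246404924973022572743048824847991375926091055628558468)) [0, 7, 6, 1] (-25344, 8448) (-26112, 7680) (-24576, 7680) :=
    (CovZ.n1 (-25344, 7680) (by decide +kernel)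
     (CovZ.subM 15914343565113172548972232044348909288787165798424171520363856858427116648265801057697920 (by decide +kernel)
      (CovZ.n2 (-25728, 8064) (by decide +kernel)
       (CovZ.n2 (-25344, 8064) (by decide +kernel)
        (CovZ.n2 (-25536, 7872) (by decide +kernel)
         (CovZ.n2 (-25536, 8064) (by decide +kernel)
          (CovZ.n2 (-25440, 7968) (by decide +kernel)
           (CovZ.n2 (-25536, 7968) (by decide +kernel)
            (CovZ.n2 (-25488, 8016) (by decide +kernel)
             (CovZ.leaf K2_ok TB_l12907 _)
             (CovZ.leaf K2_ok TB_l12908 _))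
            (CovZ.n1 (-25488, 7920) (by decide +kernel)
             (CovZ.leaf K2_ok TB_l12909 _)
             (CovZ.n1 (-25488, 7968) (by decide +kernel)
              (CovZ.leaf K2_ok TB_l12910 _)
              (CovZ.leaf K2_ok TB_l12911 _))))
           (CovZ.n1 (-25440, 8064) (by decide +kernel)
            (CovZ.n2 (-25392, 8016) (by decide +kernel)
             (CovZ.n2 (-25440, 8016) (by decide +kernel)
              (CovZ.leaf K2_ok TB_l12912 _)
              (CovZ.leaf K2_ok TB_l12913 _))
             (CovZ.n1 (-25392, 8064) (by decide +kernel)
              (CovZ.leaf K2_ok TB_l12914 _)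
              (CovZ.leaf K2_ok TB_l12915 _)))
            (CovZ.n1 (-25488, 8016) (by decide +kernel)
             (CovZ.n2 (-25488, 8064) (by decide +kernel)
              (CovZ.leaf K2_ok TB_l12916 _)
              (CovZ.leaf K2_ok TB_l12917 _))
             (CovZ.leaf K2_ok TB_l12918 _))))
          (CovZ.n1 (-25632, 7968) (by decide +kernel)
           (CovZ.n2 (-25632, 8064) (by decide +kernel)
            (CovZ.n2 (-25584, 8016) (by decide +kernel)
             (CovZ.leaf K2_ok TB_l12919 _)
             (CovZ.n1 (-25584, 8064) (by decide +kernel)
              (CovZ.leaf K2_ok TB_l12920 _)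
              (CovZ.leaf K2_ok TB_l12921 _)))
            (CovZ.n1 (-25680, 8016) (by decide +kernel)
             (CovZ.n2 (-25680, 8064) (by decide +kernel)
              (CovZ.leaf K2_ok TB_l12922 _)
              (CovZ.leaf K2_ok TB_l12923 _))
             (CovZ.leaf K2_ok TB_l12924 _)))
           (CovZ.n1 (-25536, 7968) (by decide +kernel)
            (CovZ.n2 (-25584, 7920) (by decide +kernel)
             (CovZ.n2 (-25584, 7968) (by decide +kernel)
              (CovZ.leaf K2_ok TB_l12925 _)
              (CovZ.leaf K2_ok TB_l12926 _))
             (CovZ.leaf K2_ok TB_l12927 _))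
            (CovZ.n1 (-25584, 8016) (by decide +kernel)
             (CovZ.leaf K2_ok TB_l12928 _)
             (CovZ.n1 (-25584, 7968) (by decide +kernel)
              (CovZ.leaf K2_ok TB_l12929 _)
              (CovZ.leaf K2_ok TB_l12930 _))))))
         (CovZ.n1 (-25344, 7872) (by decide +kernel)
          (CovZ.subM 103647503854704875632527126667557405764637961566142501019189248 (by decide +kernel)
           (CovZ.n2 (-25440, 7776) (by decide +kernel)
            (CovZ.n2 (-25440, 7872) (by decide +kernel)
             (CovZ.n2 (-25392, 7824) (by decide +kernel)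
              (CovZ.n2 (-25440, 7824) (by decide +kernel)
               (CovZ.leaf K2_ok TB_l12931 _)
               (CovZ.n1 (-25416, 7800) (by decide +kernel)
                (CovZ.leaf K2_ok TB_l12932 _)
                (CovZ.leaf K2_ok TB_l12933 _)))
              (CovZ.n1 (-25392, 7872) (by decide +kernel)
               (CovZ.leaf K2_ok TB_l12934 _)
               (CovZ.leaf K2_ok TB_l12935 _)))
             (CovZ.n1 (-25488, 7824) (by decide +kernel)
              (CovZ.n2 (-25488, 7872) (by decide +kernel)
               (CovZ.leaf K2_ok TB_l12936 _)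
               (CovZ.leaf K2_ok TB_l12937 _))
              (CovZ.n1 (-25440, 7824) (by decide +kernel)
               (CovZ.leaf K2_ok TB_l12938 _)
               (CovZ.leaf K2_ok TB_l12939 _))))
            (CovZ.n1 (-25344, 7776) (by decide +kernel)
             (CovZ.n2 (-25392, 7728) (by decide +kernel)
              (CovZ.n2 (-25392, 7776) (by decide +kernel)
               (CovZ.n2 (-25368, 7752) (by decide +kernel)
                (CovZ.leaf K2_ok TB_l12940 _)
                (CovZ.leaf K2_ok TB_l12941 _))
               (CovZ.n1 (-25416, 7752) (by decide +kernel)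
                (CovZ.leaf K2_ok TB_l12942 _)
                (CovZ.leaf K2_ok TB_l12943 _)))
              (CovZ.n1 (-25344, 7728) (by decide +kernel)
               (CovZ.n2 (-25368, 7704) (by decide +kernel)
                (CovZ.leaf K2_ok TB_l40029 _)
                (CovZ.leaf K2_ok TB_l40030 _))
               (CovZ.n1 (-25368, 7752) (by decide +kernel)
                (CovZ.leaf K2_ok TB_l12944 _)
                (CovZ.leaf K2_ok TB_l12945 _))))
             (CovZ.n1 (-25392, 7824) (by decide +kernel)
              (CovZ.n2 (-25344, 7824) (by decide +kernel)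
               (CovZ.leaf K2_ok TB_l12946 _)
               (CovZ.leaf K2_ok TB_l12947 _))
              (CovZ.n1 (-25392, 7776) (by decide +kernel)
               (CovZ.n2 (-25416, 7800) (by decide +kernel)
                (CovZ.leaf K2_ok TB_l12948 _)
                (CovZ.leaf K2_ok TB_l12949 _))
               (CovZ.n1 (-25368, 7800) (by decide +kernel)
                (CovZ.leaf K2_ok TB_l12950 _)
                (CovZ.leaf K2_ok TB_l12951 _)))))))
          (CovZ.n1 (-25440, 7968) (by decide +kernel)
           (CovZ.n2 (-25344, 7968) (by decide +kernel)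
            (CovZ.n2 (-25392, 7920) (by decide +kernel)
             (CovZ.n2 (-25392, 7968) (by decide +kernel)
              (CovZ.leaf K2_ok TB_l12952 _)
              (CovZ.leaf K2_ok TB_l12953 _))
             (CovZ.n1 (-25344, 7920) (by decide +kernel)
              (CovZ.leaf K2_ok TB_l12954 _)
              (CovZ.leaf K2_ok TB_l12955 _)))
            (CovZ.n1 (-25392, 8016) (by decide +kernel)
             (CovZ.n2 (-25344, 8016) (by decide +kernel)
              (CovZ.leaf K2_ok TB_l12956 _)
              (CovZ.leaf K2_ok TB_l12957 _))
             (CovZ.n1 (-25392, 7968) (by decide +kernel)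
              (CovZ.leaf K2_ok TB_l12958 _)
              (CovZ.leaf K2_ok TB_l12959 _))))
           (CovZ.n1 (-25440, 7872) (by decide +kernel)
            (CovZ.n2 (-25488, 7920) (by decide +kernel)
             (CovZ.leaf K2_ok TB_l12960 _)
             (CovZ.n1 (-25488, 7872) (by decide +kernel)
              (CovZ.leaf K2_ok TB_l12961 _)
              (CovZ.leaf K2_ok TB_l12962 _)))
            (CovZ.n1 (-25392, 7920) (by decide +kernel)
             (CovZ.n2 (-25392, 7872) (by decide +kernel)
              (CovZ.leaf K2_ok TB_l12963 _)
              (CovZ.leaf K2_ok TB_l12964 _))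
             (CovZ.leaf K2_ok TB_l12965 _))))))
        (CovZ.n1 (-25536, 8256) (by decide +kernel)
         (CovZ.n2 (-25344, 8256) (by decide +kernel)
          (CovZ.n2 (-25440, 8160) (by decide +kernel)
           (CovZ.n2 (-25440, 8256) (by decide +kernel)
            (CovZ.n2 (-25392, 8208) (by decide +kernel)
             (CovZ.leaf K2_ok TB_l12966 _)
             (CovZ.n1 (-25392, 8256) (by decide +kernel)
              (CovZ.leaf K2_ok TB_l12967 _)
              (CovZ.leaf K2_ok TB_l12968 _)))
            (CovZ.n1 (-25488, 8208) (by decide +kernel)
             (CovZ.n2 (-25488, 8256) (by decide +kernel)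
              (CovZ.leaf K2_ok TB_l12969 _)
              (CovZ.leaf K2_ok TB_l12970 _))
             (CovZ.leaf K2_ok TB_l12971 _)))
           (CovZ.n1 (-25344, 8160) (by decide +kernel)
            (CovZ.n2 (-25392, 8112) (by decide +kernel)
             (CovZ.n2 (-25392, 8160) (by decide +kernel)
              (CovZ.leaf K2_ok TB_l12972 _)
              (CovZ.leaf K2_ok TB_l12973 _))
             (CovZ.leaf K2_ok TB_l12974 _))
            (CovZ.n1 (-25392, 8208) (by decide +kernel)
             (CovZ.leaf K2_ok TB_l12975 _)
             (CovZ.n1 (-25392, 8160) (by decide +kernel)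
              (CovZ.leaf K2_ok TB_l12976 _)
              (CovZ.leaf K2_ok TB_l12977 _)))))
          (CovZ.n1 (-25440, 8352) (by decide +kernel)
           (CovZ.n2 (-25344, 8352) (by decide +kernel)
            (CovZ.n2 (-25392, 8304) (by decide +kernel)
             (CovZ.leaf K2_ok TB_l12978 _)
             (CovZ.leaf K2_ok TB_l12979 _))
            (CovZ.n1 (-25392, 8400) (by decide +kernel)
             (CovZ.leaf K2_ok TB_l12980 _)
             (CovZ.leaf K2_ok TB_l12981 _)))
           (CovZ.n1 (-25440, 8256) (by decide +kernel)
            (CovZ.n2 (-25488, 8304) (by decide +kernel)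
             (CovZ.leaf K2_ok TB_l12982 _)
             (CovZ.n1 (-25488, 8256) (by decide +kernel)
              (CovZ.leaf K2_ok TB_l12983 _)
              (CovZ.leaf K2_ok TB_l12984 _)))
            (CovZ.n1 (-25392, 8304) (by decide +kernel)
             (CovZ.n2 (-25392, 8256) (by decide +kernel)
              (CovZ.leaf K2_ok TB_l12985 _)
              (CovZ.leaf K2_ok TB_l12986 _))
             (CovZ.leaf K2_ok TB_l12987 _)))))
         (CovZ.n1 (-25536, 8064) (by decide +kernel)
          (CovZ.n2 (-25632, 8160) (by decide +kernel)
           (CovZ.n2 (-25536, 8160) (by decide +kernel)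
            (CovZ.n2 (-25584, 8112) (by decide +kernel)
             (CovZ.n2 (-25584, 8160) (by decide +kernel)
              (CovZ.leaf K2_ok TB_l12988 _)
              (CovZ.leaf K2_ok TB_l12989 _))
             (CovZ.leaf K2_ok TB_l12990 _))
            (CovZ.n1 (-25584, 8208) (by decide +kernel)
             (CovZ.leaf K2_ok TB_l12991 _)
             (CovZ.n1 (-25584, 8160) (by decide +kernel)
              (CovZ.leaf K2_ok TB_l12992 _)
              (CovZ.leaf K2_ok TB_l12993 _))))
           (CovZ.n1 (-25632, 8064) (by decide +kernel)
            (CovZ.n2 (-25680, 8112) (by decide +kernel)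
             (CovZ.leaf K2_ok TB_l12994 _)
             (CovZ.leaf K2_ok TB_l12995 _))
            (CovZ.n1 (-25584, 8112) (by decide +kernel)
             (CovZ.n2 (-25584, 8064) (by decide +kernel)
              (CovZ.leaf K2_ok TB_l12996 _)
              (CovZ.leaf K2_ok TB_l12997 _))
             (CovZ.leaf K2_ok TB_l12998 _))))
          (CovZ.n1 (-25440, 8160) (by decide +kernel)
           (CovZ.n2 (-25440, 8064) (by decide +kernel)
            (CovZ.n2 (-25488, 8112) (by decide +kernel)
             (CovZ.leaf K2_ok TB_l12999 _)
             (CovZ.n1 (-25488, 8064) (by decide +kernel)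
              (CovZ.leaf K2_ok TB_l13000 _)
              (CovZ.leaf K2_ok TB_l13001 _)))
            (CovZ.n1 (-25392, 8112) (by decide +kernel)
             (CovZ.n2 (-25392, 8064) (by decide +kernel)
              (CovZ.leaf K2_ok TB_l13002 _)
              (CovZ.leaf K2_ok TB_l13003 _))
             (CovZ.n1 (-25440, 8112) (by decide +kernel)
              (CovZ.leaf K2_ok TB_l13004 _)
              (CovZ.leaf K2_ok TB_l13005 _))))
           (CovZ.n1 (-25536, 8160) (by decide +kernel)
            (CovZ.n2 (-25488, 8208) (by decide +kernel)
             (CovZ.n2 (-25488, 8160) (by decide +kernel)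
              (CovZ.leaf K2_ok TB_l13006 _)
              (CovZ.leaf K2_ok TB_l13007 _))
             (CovZ.leaf K2_ok TB_l13008 _))
            (CovZ.n1 (-25488, 8112) (by decide +kernel)
             (CovZ.leaf K2_ok TB_l13009 _)
             (CovZ.n1 (-25488, 8160) (by decide +kernel)
              (CovZ.leaf K2_ok TB_l13010 _)
              (CovZ.leaf K2_ok TB_l13011 _))))))))
       (CovZ.n1 (-25728, 7680) (by decide +kernel)
        TB_u193
        TB_u194)))
     (CovZ.n1 (-24960, 8064) (by decide +kernel)
      TB_u195
      TB_u196))

theorem TB_u199 : CovZ TB_M (toL (selN TB_LN 15914343565113172548972232044348909288787165798424171520363856858427116648265801057697920)) [0, 7, 6, 1] (-26112, 7680) (-25728, 8064) (-26112, 8448) :=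
    (CovZ.n2 (-26112, 8064) (by decide +kernel)
        (CovZ.n2 (-25920, 8256) (by decide +kernel)
         (CovZ.n2 (-25920, 8064) (by decide +kernel)
          (CovZ.n2 (-26016, 8160) (by decide +kernel)
           (CovZ.n2 (-25920, 8160) (by decide +kernel)
            (CovZ.n2 (-25968, 8112) (by decide +kernel)
             (CovZ.n2 (-25968, 8160) (by decide +kernel)
              (CovZ.leaf K2_ok TB_l13389 _)
              (CovZ.leaf K2_ok TB_l13390 _))
             (CovZ.leaf K2_ok TB_l13391 _))
            (CovZ.n1 (-25968, 8208) (by decide +kernel)
             (CovZ.leaf K2_ok TB_l13392 _)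
             (CovZ.leaf K2_ok TB_l13393 _)))
           (CovZ.n1 (-26016, 8064) (by decide +kernel)
            (CovZ.n2 (-26064, 8112) (by decide +kernel)
             (CovZ.leaf K2_ok TB_l13394 _)
             (CovZ.n1 (-26064, 8064) (by decide +kernel)
              (CovZ.leaf K2_ok TB_l13395 _)
              (CovZ.leaf K2_ok TB_l13396 _)))
            (CovZ.n1 (-25968, 8112) (by decide +kernel)
             (CovZ.n2 (-25968, 8064) (by decide +kernel)
              (CovZ.leaf K2_ok TB_l13397 _)
              (CovZ.leaf K2_ok TB_l13398 _))
             (CovZ.leaf K2_ok TB_l13399 _))))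
          (CovZ.n1 (-25824, 8160) (by decide +kernel)
           (CovZ.n2 (-25824, 8064) (by decide +kernel)
            (CovZ.n2 (-25872, 8112) (by decide +kernel)
             (CovZ.leaf K2_ok TB_l13400 _)
             (CovZ.n1 (-25872, 8064) (by decide +kernel)
              (CovZ.leaf K2_ok TB_l13401 _)
              (CovZ.leaf K2_ok TB_l13402 _)))
            (CovZ.n1 (-25776, 8112) (by decide +kernel)
             (CovZ.n2 (-25776, 8064) (by decide +kernel)
              (CovZ.leaf K2_ok TB_l13403 _)
              (CovZ.leaf K2_ok TB_l13404 _))
             (CovZ.leaf K2_ok TB_l13405 _)))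
           (CovZ.n1 (-25920, 8160) (by decide +kernel)
            (CovZ.n2 (-25872, 8208) (by decide +kernel)
             (CovZ.leaf K2_ok TB_l13406 _)
             (CovZ.leaf K2_ok TB_l13407 _))
            (CovZ.n1 (-25872, 8112) (by decide +kernel)
             (CovZ.leaf K2_ok TB_l13408 _)
             (CovZ.n1 (-25872, 8160) (by decide +kernel)
              (CovZ.leaf K2_ok TB_l13409 _)
              (CovZ.leaf K2_ok TB_l13410 _))))))
         (CovZ.n1 (-26112, 8256) (by decide +kernel)
          (CovZ.n2 (-26016, 8352) (by decide +kernel)
           (CovZ.n2 (-26016, 8256) (by decide +kernel)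
            (CovZ.n2 (-26064, 8304) (by decide +kernel)
             (CovZ.leaf K2_ok TB_l13411 _)
             (CovZ.leaf K2_ok TB_l13412 _))
            (CovZ.n1 (-25968, 8304) (by decide +kernel)
             (CovZ.leaf K2_ok TB_l13413 _)
             (CovZ.leaf K2_ok TB_l13414 _)))
           (CovZ.n1 (-26112, 8352) (by decide +kernel)
            (CovZ.n2 (-26064, 8400) (by decide +kernel)
             (CovZ.leaf K2_ok TB_l13415 _)
             (CovZ.leaf K2_ok TB_l13416 _))
            (CovZ.n1 (-26064, 8304) (by decide +kernel)
             (CovZ.leaf K2_ok TB_l13417 _)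
             (CovZ.leaf K2_ok TB_l13418 _))))
          (CovZ.n1 (-26016, 8160) (by decide +kernel)
           (CovZ.n2 (-26112, 8160) (by decide +kernel)
            (CovZ.n2 (-26064, 8208) (by decide +kernel)
             (CovZ.n2 (-26064, 8160) (by decide +kernel)
              (CovZ.leaf K2_ok TB_l13419 _)
              (CovZ.leaf K2_ok TB_l13420 _))
             (CovZ.leaf K2_ok TB_l13421 _))
            (CovZ.n1 (-26064, 8112) (by decide +kernel)
             (CovZ.leaf K2_ok TB_l13422 _)
             (CovZ.n1 (-26064, 8160) (by decide +kernel)
              (CovZ.leaf K2_ok TB_l13423 _)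
              (CovZ.leaf K2_ok TB_l13424 _))))
           (CovZ.n1 (-26016, 8256) (by decide +kernel)
            (CovZ.n2 (-25968, 8208) (by decide +kernel)
             (CovZ.leaf K2_ok TB_l13425 _)
             (CovZ.n1 (-25968, 8256) (by decide +kernel)
              (CovZ.leaf K2_ok TB_l13426 _)
              (CovZ.leaf K2_ok TB_l13427 _)))
            (CovZ.n1 (-26064, 8208) (by decide +kernel)
             (CovZ.leaf K2_ok TB_l13428 _)
             (CovZ.leaf K2_ok TB_l13429 _))))))
        (CovZ.n1 (-25920, 7872) (by decide +kernel)
         (CovZ.n2 (-26112, 7872) (by decide +kernel)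
          (CovZ.n2 (-26016, 7968) (by decide +kernel)
           (CovZ.n2 (-26016, 7872) (by decide +kernel)
            (CovZ.n2 (-26064, 7920) (by decide +kernel)
             (CovZ.n2 (-26016, 7920) (by decide +kernel)
              (CovZ.leaf K2_ok TB_l13430 _)
              (CovZ.leaf K2_ok TB_l13431 _))
             (CovZ.n1 (-26064, 7872) (by decide +kernel)
              (CovZ.leaf K2_ok TB_l13432 _)
              (CovZ.leaf K2_ok TB_l13433 _)))
            (CovZ.n1 (-25968, 7920) (by decide +kernel)
             (CovZ.n2 (-25968, 7872) (by decide +kernel)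
              (CovZ.n2 (-25992, 7896) (by decide +kernel)
               (CovZ.leaf K2_ok TB_l13434 _)
               (CovZ.leaf K2_ok TB_l13435 _))
              (CovZ.leaf K2_ok TB_l13436 _))
             (CovZ.n1 (-26016, 7920) (by decide +kernel)
              (CovZ.leaf K2_ok TB_l13437 _)
              (CovZ.n1 (-25992, 7896) (by decide +kernel)
               (CovZ.leaf K2_ok TB_l13438 _)
               (CovZ.leaf K2_ok TB_l13439 _)))))
           (CovZ.n1 (-26112, 7968) (by decide +kernel)
            (CovZ.n2 (-26064, 8016) (by decide +kernel)
             (CovZ.n2 (-26064, 7968) (by decide +kernel)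
              (CovZ.leaf K2_ok TB_l13440 _)
              (CovZ.leaf K2_ok TB_l13441 _))
             (CovZ.leaf K2_ok TB_l13442 _))
            (CovZ.n1 (-26064, 7920) (by decide +kernel)
             (CovZ.n2 (-26112, 7920) (by decide +kernel)
              (CovZ.leaf K2_ok TB_l13443 _)
              (CovZ.leaf K2_ok TB_l13444 _))
             (CovZ.n1 (-26064, 7968) (by decide +kernel)
              (CovZ.leaf K2_ok TB_l13445 _)
              (CovZ.leaf K2_ok TB_l13446 _)))))
          (CovZ.n1 (-26016, 7776) (by decide +kernel)
           (CovZ.n2 (-26112, 7776) (by decide +kernel)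
            (CovZ.n2 (-26064, 7824) (by decide +kernel)
             (CovZ.leaf K2_ok TB_l13447 _)
             (CovZ.leaf K2_ok TB_l13448 _))
            (CovZ.n1 (-26064, 7728) (by decide +kernel)
             (CovZ.leaf K2_ok TB_l13449 _)
             (CovZ.n1 (-26064, 7776) (by decide +kernel)
              (CovZ.leaf K2_ok TB_l13450 _)
              (CovZ.leaf K2_ok TB_l13451 _))))
           (CovZ.n1 (-26016, 7872) (by decide +kernel)
            (CovZ.subM 103647503854704875632527126667557405764637961566142501019189248 (by decide +kernel)
             (CovZ.n2 (-25968, 7824) (by decide +kernel)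
              (CovZ.n2 (-26016, 7824) (by decide +kernel)
               (CovZ.leaf K2_ok TB_l13452 _)
               (CovZ.leaf K2_ok TB_l13453 _))
              (CovZ.n1 (-25968, 7872) (by decide +kernel)
               (CovZ.n2 (-25944, 7848) (by decide +kernel)
                (CovZ.leaf K2_ok TB_l13454 _)
                (CovZ.leaf K2_ok TB_l13455 _))
               (CovZ.leaf K2_ok TB_l13456 _))))
            (CovZ.n1 (-26064, 7824) (by decide +kernel)
             (CovZ.n2 (-26064, 7872) (by decide +kernel)
              (CovZ.leaf K2_ok TB_l13457 _)
              (CovZ.leaf K2_ok TB_l13458 _))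
             (CovZ.leaf K2_ok TB_l13459 _)))))
         (CovZ.n1 (-25920, 8064) (by decide +kernel)
          (CovZ.n2 (-25824, 7968) (by decide +kernel)
           (CovZ.n2 (-25920, 7968) (by decide +kernel)
            (CovZ.n2 (-25872, 8016) (by decide +kernel)
             (CovZ.n2 (-25872, 7968) (by decide +kernel)
              (CovZ.leaf K2_ok TB_l13460 _)
              (CovZ.leaf K2_ok TB_l13461 _))
             (CovZ.leaf K2_ok TB_l13462 _))
            (CovZ.n1 (-25872, 7920) (by decide +kernel)
             (CovZ.leaf K2_ok TB_l13463 _)
             (CovZ.n1 (-25872, 7968) (by decide +kernel)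
              (CovZ.leaf K2_ok TB_l13464 _)
              (CovZ.leaf K2_ok TB_l13465 _))))
           (CovZ.n1 (-25824, 8064) (by decide +kernel)
            (CovZ.n2 (-25776, 8016) (by decide +kernel)
             (CovZ.leaf K2_ok TB_l13466 _)
             (CovZ.n1 (-25776, 8064) (by decide +kernel)
              (CovZ.leaf K2_ok TB_l13467 _)
              (CovZ.leaf K2_ok TB_l13468 _)))
            (CovZ.n1 (-25872, 8016) (by decide +kernel)
             (CovZ.n2 (-25872, 8064) (by decide +kernel)
              (CovZ.leaf K2_ok TB_l13469 _)
              (CovZ.leaf K2_ok TB_l13470 _))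
             (CovZ.leaf K2_ok TB_l13471 _))))
          (CovZ.n1 (-26016, 7968) (by decide +kernel)
           (CovZ.n2 (-26016, 8064) (by decide +kernel)
            (CovZ.n2 (-25968, 8016) (by decide +kernel)
             (CovZ.leaf K2_ok TB_l13472 _)
             (CovZ.n1 (-25968, 8064) (by decide +kernel)
              (CovZ.leaf K2_ok TB_l13473 _)
              (CovZ.leaf K2_ok TB_l13474 _)))
            (CovZ.n1 (-26064, 8016) (by decide +kernel)
             (CovZ.n2 (-26064, 8064) (by decide +kernel)
              (CovZ.leaf K2_ok TB_l13475 _)
              (CovZ.leaf K2_ok TB_l13476 _))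
             (CovZ.leaf K2_ok TB_l13477 _)))
           (CovZ.n1 (-25920, 7968) (by decide +kernel)
            (CovZ.n2 (-25968, 7920) (by decide +kernel)
             (CovZ.n2 (-25968, 7968) (by decide +kernel)
              (CovZ.leaf K2_ok TB_l13478 _)
              (CovZ.leaf K2_ok TB_l13479 _))
             (CovZ.n1 (-25920, 7920) (by decide +kernel)
              (CovZ.leaf K2_ok TB_l13480 _)
              (CovZ.leaf K2_ok TB_l13481 _)))
            (CovZ.n1 (-25968, 8016) (by decide +kernel)
             (CovZ.leaf K2_ok TB_l13482 _)
             (CovZ.n1 (-25968, 7968) (by decide +kernel)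
              (CovZ.leaf K2_ok TB_l13483 _)
              (CovZ.leaf K2_ok TB_l13484 _))))))))

theorem TB_u200 : CovZ TB_M (toL (selN TB_LN 15914343565113172548972232044348909288787165798424171520363856858427116648265801057697920)) [0, 7, 6, 1] (-25728, 8064) (-25344, 8448) (-26112, 8448) :=
    (CovZ.n1 (-25728, 8448) (by decide +kernel)
        (CovZ.n2 (-25536, 8256) (by decide +kernel)
         (CovZ.n2 (-25728, 8256) (by decide +kernel)
          (CovZ.n2 (-25632, 8352) (by decide +kernel)
           (CovZ.n2 (-25632, 8256) (by decide +kernel)
            (CovZ.n2 (-25680, 8304) (by decide +kernel)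
             (CovZ.leaf K2_ok TB_l13485 _)
             (CovZ.n1 (-25680, 8256) (by decide +kernel)
              (CovZ.leaf K2_ok TB_l13486 _)
              (CovZ.leaf K2_ok TB_l13487 _)))
            (CovZ.n1 (-25584, 8304) (by decide +kernel)
             (CovZ.n2 (-25584, 8256) (by decide +kernel)
              (CovZ.leaf K2_ok TB_l13488 _)
              (CovZ.leaf K2_ok TB_l13489 _))
             (CovZ.leaf K2_ok TB_l13490 _)))
           (CovZ.n1 (-25728, 8352) (by decide +kernel)
            (CovZ.n2 (-25680, 8400) (by decide +kernel)
             (CovZ.n2 (-25680, 8352) (by decide +kernel)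
              (CovZ.leaf K2_ok TB_l13491 _)
              (CovZ.leaf K2_ok TB_l13492 _))
             (CovZ.leaf K2_ok TB_l13493 _))
            (CovZ.n1 (-25680, 8304) (by decide +kernel)
             (CovZ.leaf K2_ok TB_l13494 _)
             (CovZ.leaf K2_ok TB_l13495 _))))
          (CovZ.n1 (-25632, 8160) (by decide +kernel)
           (CovZ.n2 (-25728, 8160) (by decide +kernel)
            (CovZ.n2 (-25680, 8208) (by decide +kernel)
             (CovZ.leaf K2_ok TB_l13496 _)
             (CovZ.leaf K2_ok TB_l13497 _))
            (CovZ.n1 (-25680, 8112) (by decide +kernel)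
             (CovZ.leaf K2_ok TB_l13498 _)
             (CovZ.n1 (-25680, 8160) (by decide +kernel)
              (CovZ.leaf K2_ok TB_l13499 _)
              (CovZ.leaf K2_ok TB_l13500 _))))
           (CovZ.n1 (-25632, 8256) (by decide +kernel)
            (CovZ.n2 (-25584, 8208) (by decide +kernel)
             (CovZ.leaf K2_ok TB_l13501 _)
             (CovZ.n1 (-25584, 8256) (by decide +kernel)
              (CovZ.leaf K2_ok TB_l13502 _)
              (CovZ.leaf K2_ok TB_l13503 _)))
            (CovZ.n1 (-25680, 8208) (by decide +kernel)
             (CovZ.n2 (-25680, 8256) (by decide +kernel)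
              (CovZ.leaf K2_ok TB_l13504 _)
              (CovZ.leaf K2_ok TB_l13505 _))
             (CovZ.leaf K2_ok TB_l13506 _)))))
         (CovZ.n1 (-25536, 8448) (by decide +kernel)
          (CovZ.n2 (-25440, 8352) (by decide +kernel)
           (CovZ.n2 (-25536, 8352) (by decide +kernel)
            (CovZ.n2 (-25488, 8400) (by decide +kernel)
             (CovZ.leaf K2_ok TB_l13507 _)
             (CovZ.leaf K2_ok TB_l13508 _))
            (CovZ.n1 (-25488, 8304) (by decide +kernel)
             (CovZ.leaf K2_ok TB_l13509 _)
             (CovZ.leaf K2_ok TB_l13510 _)))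
           (CovZ.n1 (-25440, 8448) (by decide +kernel)
            (CovZ.n2 (-25392, 8400) (by decide +kernel)
             (CovZ.leaf K2_ok TB_l13511 _)
             (CovZ.leaf K2_ok TB_l13512 _))
            (CovZ.n1 (-25488, 8400) (by decide +kernel)
             (CovZ.leaf K2_ok TB_l13513 _)
             (CovZ.leaf K2_ok TB_l13514 _))))
          (CovZ.n1 (-25632, 8352) (by decide +kernel)
           (CovZ.n2 (-25632, 8448) (by decide +kernel)
            (CovZ.n2 (-25584, 8400) (by decide +kernel)
             (CovZ.leaf K2_ok TB_l13515 _)
             (CovZ.leaf K2_ok TB_l13516 _))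
            (CovZ.n1 (-25680, 8400) (by decide +kernel)
             (CovZ.leaf K2_ok TB_l13517 _)
             (CovZ.leaf K2_ok TB_l13518 _)))
           (CovZ.n1 (-25536, 8352) (by decide +kernel)
            (CovZ.n2 (-25584, 8304) (by decide +kernel)
             (CovZ.n2 (-25584, 8352) (by decide +kernel)
              (CovZ.leaf K2_ok TB_l13519 _)
              (CovZ.leaf K2_ok TB_l13520 _))
             (CovZ.leaf K2_ok TB_l13521 _))
            (CovZ.n1 (-25584, 8400) (by decide +kernel)
             (CovZ.leaf K2_ok TB_l13522 _)
             (CovZ.n1 (-25584, 8352) (by decide +kernel)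
              (CovZ.leaf K2_ok TB_l13523 _)
              (CovZ.leaf K2_ok TB_l13524 _)))))))
        (CovZ.n1 (-25920, 8256) (by decide +kernel)
         (CovZ.n2 (-25920, 8448) (by decide +kernel)
          (CovZ.n2 (-25824, 8352) (by decide +kernel)
           (CovZ.n2 (-25920, 8352) (by decide +kernel)
            (CovZ.n2 (-25872, 8400) (by decide +kernel)
             (CovZ.leaf K2_ok TB_l13525 _)
             (CovZ.leaf K2_ok TB_l13526 _))
            (CovZ.n1 (-25872, 8304) (by decide +kernel)
             (CovZ.leaf K2_ok TB_l13527 _)
             (CovZ.leaf K2_ok TB_l13528 _)))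
           (CovZ.n1 (-25824, 8448) (by decide +kernel)
            (CovZ.n2 (-25776, 8400) (by decide +kernel)
             (CovZ.leaf K2_ok TB_l13529 _)
             (CovZ.leaf K2_ok TB_l13530 _))
            (CovZ.n1 (-25872, 8400) (by decide +kernel)
             (CovZ.leaf K2_ok TB_l13531 _)
             (CovZ.leaf K2_ok TB_l13532 _))))
          (CovZ.n1 (-26016, 8352) (by decide +kernel)
           (CovZ.n2 (-26016, 8448) (by decide +kernel)
            (CovZ.n2 (-25968, 8400) (by decide +kernel)
             (CovZ.leaf K2_ok TB_l13533 _)
             (CovZ.leaf K2_ok TB_l13534 _))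
            (CovZ.n1 (-26064, 8400) (by decide +kernel)
             (CovZ.leaf K2_ok TB_l13535 _)
             (CovZ.leaf K2_ok TB_l13536 _)))
           (CovZ.n1 (-25920, 8352) (by decide +kernel)
            (CovZ.n2 (-25968, 8304) (by decide +kernel)
             (CovZ.n2 (-25968, 8352) (by decide +kernel)
              (CovZ.leaf K2_ok TB_l13537 _)
              (CovZ.leaf K2_ok TB_l13538 _))
             (CovZ.leaf K2_ok TB_l13539 _))
            (CovZ.n1 (-25968, 8400) (by decide +kernel)
             (CovZ.leaf K2_ok TB_l13540 _)
             (CovZ.leaf K2_ok TB_l13541 _)))))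
         (CovZ.n1 (-25728, 8256) (by decide +kernel)
          (CovZ.n2 (-25824, 8160) (by decide +kernel)
           (CovZ.n2 (-25824, 8256) (by decide +kernel)
            (CovZ.n2 (-25776, 8208) (by decide +kernel)
             (CovZ.leaf K2_ok TB_l13542 _)
             (CovZ.n1 (-25776, 8256) (by decide +kernel)
              (CovZ.leaf K2_ok TB_l13543 _)
              (CovZ.leaf K2_ok TB_l13544 _)))
            (CovZ.n1 (-25872, 8208) (by decide +kernel)
             (CovZ.n2 (-25872, 8256) (by decide +kernel)
              (CovZ.leaf K2_ok TB_l13545 _)
              (CovZ.leaf K2_ok TB_l13546 _))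
             (CovZ.leaf K2_ok TB_l13547 _)))
           (CovZ.n1 (-25728, 8160) (by decide +kernel)
            (CovZ.n2 (-25776, 8112) (by decide +kernel)
             (CovZ.n2 (-25776, 8160) (by decide +kernel)
              (CovZ.leaf K2_ok TB_l13548 _)
              (CovZ.leaf K2_ok TB_l13549 _))
             (CovZ.leaf K2_ok TB_l13550 _))
            (CovZ.n1 (-25776, 8208) (by decide +kernel)
             (CovZ.leaf K2_ok TB_l13551 _)
             (CovZ.n1 (-25776, 8160) (by decide +kernel)
              (CovZ.leaf K2_ok TB_l13552 _)
              (CovZ.leaf K2_ok TB_l13553 _)))))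
          (CovZ.n1 (-25824, 8352) (by decide +kernel)
           (CovZ.n2 (-25728, 8352) (by decide +kernel)
            (CovZ.n2 (-25776, 8304) (by decide +kernel)
             (CovZ.n2 (-25776, 8352) (by decide +kernel)
              (CovZ.leaf K2_ok TB_l13554 _)
              (CovZ.leaf K2_ok TB_l13555 _))
             (CovZ.leaf K2_ok TB_l13556 _))
            (CovZ.n1 (-25776, 8400) (by decide +kernel)
             (CovZ.leaf K2_ok TB_l13557 _)
             (CovZ.n1 (-25776, 8352) (by decide +kernel)
              (CovZ.leaf K2_ok TB_l13558 _)
              (CovZ.leaf K2_ok TB_l13559 _))))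
           (CovZ.n1 (-25824, 8256) (by decide +kernel)
            (CovZ.n2 (-25872, 8304) (by decide +kernel)
             (CovZ.leaf K2_ok TB_l13560 _)
             (CovZ.n1 (-25872, 8256) (by decide +kernel)
              (CovZ.leaf K2_ok TB_l13561 _)
              (CovZ.leaf K2_ok TB_l13562 _)))
            (CovZ.n1 (-25776, 8304) (by decide +kernel)
             (CovZ.n2 (-25776, 8256) (by decide +kernel)
              (CovZ.leaf K2_ok TB_l13563 _)
              (CovZ.leaf K2_ok TB_l13564 _))
             (CovZ.leaf K2_ok TB_l13565 _)))))))

theorem TB_u201 : CovZ TB_M (toL (selN TB_LN 631663411835949100953508513597419984444155757933257643568612386246404924973022572743048824847991375926091055636947076)) [0, 7, 6, 1] (-24576, 9216) (-25344, 9216) (-25344, 8448) :=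
    (CovZ.n2 (-24960, 8832) (by decide +kernel)
      (CovZ.subM 69992023193056381579920071267763883691405069292437502841257186531786053380144667504718564165761106048 (by decide +kernel)
       (CovZ.n2 (-25344, 8832) (by decide +kernel)
        (CovZ.n2 (-25152, 9024) (by decide +kernel)
         (CovZ.n2 (-25152, 8832) (by decide +kernel)
          (CovZ.n2 (-25248, 8928) (by decide +kernel)
           (CovZ.leaf K2_ok TB_l13566 _)
           (CovZ.n1 (-25248, 8832) (by decide +kernel)
            (CovZ.leaf K2_ok TB_l13567 _)
            (CovZ.leaf K2_ok TB_l13568 _)))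
          (CovZ.n1 (-25056, 8928) (by decide +kernel)
           (CovZ.n2 (-25056, 8832) (by decide +kernel)
            (CovZ.leaf K2_ok TB_l13569 _)
            (CovZ.leaf K2_ok TB_l13570 _))
           (CovZ.leaf K2_ok TB_l13571 _)))
         (CovZ.n1 (-25344, 9024) (by decide +kernel)
          (CovZ.n2 (-25248, 9120) (by decide +kernel)
           (CovZ.n2 (-25248, 9024) (by decide +kernel)
            (CovZ.leaf K2_ok TB_l13572 _)
            (CovZ.leaf K2_ok TB_l13573 _))
           (CovZ.leaf K2_ok TB_l13574 _))
          (CovZ.n1 (-25248, 8928) (by decide +kernel)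
           (CovZ.n2 (-25344, 8928) (by decide +kernel)
            (CovZ.leaf K2_ok TB_l13575 _)
            (CovZ.leaf K2_ok TB_l13576 _))
           (CovZ.n1 (-25248, 9024) (by decide +kernel)
            (CovZ.leaf K2_ok TB_l13577 _)
            (CovZ.leaf K2_ok TB_l13578 _)))))
        (CovZ.n1 (-25152, 8640) (by decide +kernel)
         (CovZ.n2 (-25344, 8640) (by decide +kernel)
          (CovZ.n2 (-25248, 8736) (by decide +kernel)
           (CovZ.n2 (-25248, 8640) (by decide +kernel)
            (CovZ.leaf K2_ok TB_l13579 _)
            (CovZ.leaf K2_ok TB_l13580 _))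
           (CovZ.n1 (-25344, 8736) (by decide +kernel)
            (CovZ.leaf K2_ok TB_l13581 _)
            (CovZ.leaf K2_ok TB_l13582 _)))
          (CovZ.n1 (-25248, 8544) (by decide +kernel)
           (CovZ.n2 (-25344, 8544) (by decide +kernel)
            (CovZ.n2 (-25296, 8592) (by decide +kernel)
             (CovZ.leaf K2_ok TB_l13583 _)
             (CovZ.leaf K2_ok TB_l13584 _))
            (CovZ.n1 (-25296, 8496) (by decide +kernel)
             (CovZ.leaf K2_ok TB_l13585 _)
             (CovZ.leaf K2_ok TB_l13586 _)))
           (CovZ.n1 (-25248, 8640) (by decide +kernel)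
            (CovZ.n2 (-25200, 8592) (by decide +kernel)
             (CovZ.leaf K2_ok TB_l13587 _)
             (CovZ.leaf K2_ok TB_l13588 _))
            (CovZ.leaf K2_ok TB_l13589 _))))
         (CovZ.n1 (-25152, 8832) (by decide +kernel)
          (CovZ.n2 (-25056, 8736) (by decide +kernel)
           (CovZ.n2 (-25152, 8736) (by decide +kernel)
            (CovZ.leaf K2_ok TB_l13590 _)
            (CovZ.leaf K2_ok TB_l13591 _))
           (CovZ.n1 (-25056, 8832) (by decide +kernel)
            (CovZ.leaf K2_ok TB_l13592 _)
            (CovZ.leaf K2_ok TB_l13593 _)))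
          (CovZ.n1 (-25248, 8736) (by decide +kernel)
           (CovZ.n2 (-25248, 8832) (by decide +kernel)
            (CovZ.leaf K2_ok TB_l13594 _)
            (CovZ.leaf K2_ok TB_l13595 _))
           (CovZ.n1 (-25152, 8736) (by decide +kernel)
            (CovZ.leaf K2_ok TB_l13596 _)
            (CovZ.leaf K2_ok TB_l13597 _)))))))
      (CovZ.n1 (-24960, 9216) (by decide +kernel)
       (CovZ.n2 (-24768, 9024) (by decide +kernel)
        (CovZ.subM 69992023193056381579920071267763883691405069292437502838402691146374133618028095565819573892995612800 (by decide +kernel)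
         (CovZ.n2 (-24960, 9024) (by decide +kernel)
          (CovZ.n2 (-24864, 9120) (by decide +kernel)
           (CovZ.n2 (-24864, 9024) (by decide +kernel)
            (CovZ.leaf K2_ok TB_l13598 _)
            (CovZ.leaf K2_ok TB_l13599 _))
           (CovZ.n1 (-24960, 9120) (by decide +kernel)
            (CovZ.leaf K2_ok TB_l13600 _)
            (CovZ.leaf K2_ok TB_l13601 _)))
          (CovZ.n1 (-24864, 8928) (by decide +kernel)
           (CovZ.leaf K2_ok TB_l13602 _)
           (CovZ.n1 (-24864, 9024) (by decide +kernel)
            (CovZ.leaf K2_ok TB_l13603 _)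
            (CovZ.leaf K2_ok TB_l13604 _)))))
        (CovZ.n1 (-24768, 9216) (by decide +kernel)
         (CovZ.n2 (-24672, 9120) (by decide +kernel)
          (CovZ.n2 (-24768, 9120) (by decide +kernel)
           (CovZ.leaf K2_ok TB_l13605 _)
           (CovZ.leaf K2_ok TB_l13606 _))
          (CovZ.n1 (-24672, 9216) (by decide +kernel)
           (CovZ.leaf K2_ok TB_l13607 _)
           (CovZ.leaf K2_ok TB_l13608 _)))
         (CovZ.subM 69992023193056381579920071267763883691405069292437502838402691146374133618028095565819573892995612800 (by decide +kernel)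
          (CovZ.n1 (-24864, 9120) (by decide +kernel)
           (CovZ.n2 (-24864, 9216) (by decide +kernel)
            (CovZ.leaf K2_ok TB_l13609 _)
            (CovZ.leaf K2_ok TB_l13610 _))
           (CovZ.n1 (-24768, 9120) (by decide +kernel)
            (CovZ.leaf K2_ok TB_l13611 _)
            (CovZ.leaf K2_ok TB_l13612 _))))))
       (CovZ.subM 69992023193056381579920071267763883691405069292437502841257186531786053380144667504718564165761106048 (by decide +kernel)
        (CovZ.n1 (-25152, 9024) (by decide +kernel)
         (CovZ.n2 (-25152, 9216) (by decide +kernel)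
          (CovZ.n2 (-25056, 9120) (by decide +kernel)
           (CovZ.leaf K2_ok TB_l13613 _)
           (CovZ.n1 (-25056, 9216) (by decide +kernel)
            (CovZ.leaf K2_ok TB_l13614 _)
            (CovZ.leaf K2_ok TB_l13615 _)))
          (CovZ.n1 (-25248, 9120) (by decide +kernel)
           (CovZ.n2 (-25248, 9216) (by decide +kernel)
            (CovZ.leaf K2_ok TB_l13616 _)
            (CovZ.leaf K2_ok TB_l13617 _))
           (CovZ.leaf K2_ok TB_l13618 _)))
         (CovZ.n1 (-24960, 9024) (by decide +kernel)
          (CovZ.n2 (-25056, 8928) (by decide +kernel)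
           (CovZ.n2 (-25056, 9024) (by decide +kernel)
            (CovZ.leaf K2_ok TB_l13619 _)
            (CovZ.leaf K2_ok TB_l13620 _))
           (CovZ.leaf K2_ok TB_l13621 _))
          (CovZ.n1 (-25056, 9120) (by decide +kernel)
           (CovZ.n2 (-24960, 9120) (by decide +kernel)
            (CovZ.leaf K2_ok TB_l13622 _)
            (CovZ.leaf K2_ok TB_l13623 _))
           (CovZ.n1 (-25056, 9024) (by decide +kernel)
            (CovZ.leaf K2_ok TB_l13624 _)
            (CovZ.leaf K2_ok TB_l13625 _))))))))

theorem TB_u202 : CovZ TB_M (toL (selN TB_LN 631663411835949100953508513597419984444155757933257643568612386246404924973022572743048824847991375926091055636947076)) [0, 7, 6, 1] (-25344, 9216) (-26112, 9216) (-25344, 8448) :=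
    (CovZ.n1 (-25728, 8832) (by decide +kernel)
      (CovZ.n2 (-25728, 9216) (by decide +kernel)
       (CovZ.subM 69992023193056381579920071267763883691405069292437502841257186531786053380144667504718564165761106048 (by decide +kernel)
        (CovZ.n2 (-25536, 9024) (by decide +kernel)
         (CovZ.n2 (-25728, 9024) (by decide +kernel)
          (CovZ.n2 (-25632, 9120) (by decide +kernel)
           (CovZ.n2 (-25632, 9024) (by decide +kernel)
            (CovZ.leaf K2_ok TB_l13626 _)
            (CovZ.leaf K2_ok TB_l13627 _))
           (CovZ.n1 (-25728, 9120) (by decide +kernel)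
            (CovZ.leaf K2_ok TB_l13628 _)
            (CovZ.leaf K2_ok TB_l13629 _)))
          (CovZ.n1 (-25632, 8928) (by decide +kernel)
           (CovZ.n2 (-25728, 8928) (by decide +kernel)
            (CovZ.leaf K2_ok TB_l13630 _)
            (CovZ.leaf K2_ok TB_l13631 _))
           (CovZ.n1 (-25632, 9024) (by decide +kernel)
            (CovZ.leaf K2_ok TB_l13632 _)
            (CovZ.leaf K2_ok TB_l13633 _))))
         (CovZ.n1 (-25536, 9216) (by decide +kernel)
          (CovZ.n2 (-25440, 9120) (by decide +kernel)
           (CovZ.leaf K2_ok TB_l13634 _)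
           (CovZ.n1 (-25440, 9216) (by decide +kernel)
            (CovZ.leaf K2_ok TB_l13635 _)
            (CovZ.leaf K2_ok TB_l13636 _)))
          (CovZ.n1 (-25632, 9120) (by decide +kernel)
           (CovZ.n2 (-25632, 9216) (by decide +kernel)
            (CovZ.leaf K2_ok TB_l13637 _)
            (CovZ.leaf K2_ok TB_l13638 _))
           (CovZ.leaf K2_ok TB_l13639 _)))))
       (CovZ.n1 (-25920, 9024) (by decide +kernel)
        (CovZ.n2 (-25920, 9216) (by decide +kernel)
         (CovZ.subM 69992023193056381579920071267763883691405069292437502841257186531786053380144667504718564165761106048 (by decide +kernel)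
          (CovZ.n2 (-25824, 9120) (by decide +kernel)
           (CovZ.n2 (-25920, 9120) (by decide +kernel)
            (CovZ.leaf K2_ok TB_l13640 _)
            (CovZ.leaf K2_ok TB_l13641 _))
           (CovZ.n1 (-25824, 9216) (by decide +kernel)
            (CovZ.leaf K2_ok TB_l13642 _)
            (CovZ.leaf K2_ok TB_l13643 _))))
         (CovZ.n1 (-26016, 9120) (by decide +kernel)
          (CovZ.leaf K2_ok TB_l13644 _)
          (CovZ.leaf K2_ok TB_l13645 _)))
        (CovZ.subM 69992023193056381579920071267763883691405069292437502841257186531786053380144667504718564165761106048 (by decide +kernel)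
         (CovZ.n1 (-25728, 9024) (by decide +kernel)
          (CovZ.n2 (-25824, 8928) (by decide +kernel)
           (CovZ.n2 (-25824, 9024) (by decide +kernel)
            (CovZ.leaf K2_ok TB_l13646 _)
            (CovZ.leaf K2_ok TB_l13647 _))
           (CovZ.n1 (-25728, 8928) (by decide +kernel)
            (CovZ.leaf K2_ok TB_l13648 _)
            (CovZ.leaf K2_ok TB_l13649 _)))
          (CovZ.n1 (-25824, 9120) (by decide +kernel)
           (CovZ.n2 (-25728, 9120) (by decide +kernel)
            (CovZ.leaf K2_ok TB_l13650 _)
            (CovZ.leaf K2_ok TB_l13651 _))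
           (CovZ.n1 (-25824, 9024) (by decide +kernel)
            (CovZ.leaf K2_ok TB_l13652 _)
            (CovZ.leaf K2_ok TB_l13653 _)))))))
      (CovZ.subM 69992023193056381579920071267763883691405069292437502841257186531786053380144667504718564165761106048 (by decide +kernel)
       (CovZ.n1 (-25344, 8832) (by decide +kernel)
        (CovZ.n2 (-25536, 8640) (by decide +kernel)
         (CovZ.n2 (-25536, 8832) (by decide +kernel)
          (CovZ.n2 (-25440, 8736) (by decide +kernel)
           (CovZ.n2 (-25536, 8736) (by decide +kernel)
            (CovZ.n2 (-25488, 8784) (by decide +kernel)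
             (CovZ.leaf K2_ok TB_l13654 _)
             (CovZ.leaf K2_ok TB_l13655 _))
            (CovZ.leaf K2_ok TB_l13656 _))
           (CovZ.n1 (-25440, 8832) (by decide +kernel)
            (CovZ.leaf K2_ok TB_l13657 _)
            (CovZ.leaf K2_ok TB_l13658 _)))
          (CovZ.n1 (-25632, 8736) (by decide +kernel)
           (CovZ.n2 (-25632, 8832) (by decide +kernel)
            (CovZ.leaf K2_ok TB_l13659 _)
            (CovZ.leaf K2_ok TB_l13660 _))
           (CovZ.n1 (-25536, 8736) (by decide +kernel)
            (CovZ.leaf K2_ok TB_l13661 _)
            (CovZ.n1 (-25584, 8784) (by decide +kernel)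
             (CovZ.leaf K2_ok TB_l13662 _)
             (CovZ.leaf K2_ok TB_l13663 _)))))
         (CovZ.n1 (-25344, 8640) (by decide +kernel)
          (CovZ.n2 (-25440, 8544) (by decide +kernel)
           (CovZ.n2 (-25440, 8640) (by decide +kernel)
            (CovZ.n2 (-25392, 8592) (by decide +kernel)
             (CovZ.leaf K2_ok TB_l13664 _)
             (CovZ.leaf K2_ok TB_l13665 _))
            (CovZ.n1 (-25488, 8592) (by decide +kernel)
             (CovZ.leaf K2_ok TB_l13666 _)
             (CovZ.leaf K2_ok TB_l13667 _)))
           (CovZ.n1 (-25344, 8544) (by decide +kernel)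
            (CovZ.n2 (-25392, 8496) (by decide +kernel)
             (CovZ.leaf K2_ok TB_l13668 _)
             (CovZ.leaf K2_ok TB_l13669 _))
            (CovZ.n1 (-25392, 8592) (by decide +kernel)
             (CovZ.leaf K2_ok TB_l13670 _)
             (CovZ.leaf K2_ok TB_l13671 _))))
          (CovZ.n1 (-25440, 8736) (by decide +kernel)
           (CovZ.n2 (-25344, 8736) (by decide +kernel)
            (CovZ.leaf K2_ok TB_l13672 _)
            (CovZ.leaf K2_ok TB_l13673 _))
           (CovZ.n1 (-25440, 8640) (by decide +kernel)
            (CovZ.n2 (-25488, 8688) (by decide +kernel)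
             (CovZ.leaf K2_ok TB_l13674 _)
             (CovZ.leaf K2_ok TB_l13675 _))
            (CovZ.n1 (-25392, 8688) (by decide +kernel)
             (CovZ.leaf K2_ok TB_l13676 _)
             (CovZ.leaf K2_ok TB_l13677 _))))))
        (CovZ.n1 (-25536, 9024) (by decide +kernel)
         (CovZ.n2 (-25344, 9024) (by decide +kernel)
          (CovZ.n2 (-25440, 8928) (by decide +kernel)
           (CovZ.n2 (-25440, 9024) (by decide +kernel)
            (CovZ.leaf K2_ok TB_l13678 _)
            (CovZ.leaf K2_ok TB_l13679 _))
           (CovZ.n1 (-25344, 8928) (by decide +kernel)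
            (CovZ.leaf K2_ok TB_l13680 _)
            (CovZ.leaf K2_ok TB_l13681 _)))
          (CovZ.n1 (-25440, 9120) (by decide +kernel)
           (CovZ.leaf K2_ok TB_l13682 _)
           (CovZ.n1 (-25440, 9024) (by decide +kernel)
            (CovZ.leaf K2_ok TB_l13683 _)
            (CovZ.leaf K2_ok TB_l13684 _))))
         (CovZ.n1 (-25536, 8832) (by decide +kernel)
          (CovZ.n2 (-25632, 8928) (by decide +kernel)
           (CovZ.n2 (-25536, 8928) (by decide +kernel)
            (CovZ.leaf K2_ok TB_l13685 _)
            (CovZ.leaf K2_ok TB_l13686 _))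
           (CovZ.n1 (-25632, 8832) (by decide +kernel)
            (CovZ.leaf K2_ok TB_l13687 _)
            (CovZ.leaf K2_ok TB_l13688 _)))
          (CovZ.n1 (-25440, 8928) (by decide +kernel)
           (CovZ.n2 (-25440, 8832) (by decide +kernel)
            (CovZ.leaf K2_ok TB_l13689 _)
            (CovZ.leaf K2_ok TB_l13690 _))
           (CovZ.n1 (-25536, 8928) (by decide +kernel)
            (CovZ.leaf K2_ok TB_l13691 _)
            (CovZ.leaf K2_ok TB_l13692 _))))))))

theorem TB_u203 : CovZ TB_M (toL (selN TB_LN 631665816743553874755644561705584789941734759178646356535621361607105257510044389977546015209725220878697343798485124)) [0, 7, 6, 1] (-23040, 7680) (-23040, 8448) (-23808, 8448) :=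
    (CovZ.n2 (-23424, 8064) (by decide +kernel)
      (CovZ.n2 (-23424, 8448) (by decide +kernel)
       (CovZ.n2 (-23232, 8256) (by decide +kernel)
        (CovZ.subM 631663411835949099859883151189999678692791471825474728848482242793105363026594945930655266893610868112873039949996164 (by decide +kernel)
         (CovZ.n2 (-23424, 8256) (by decide +kernel)
          (CovZ.n2 (-23328, 8352) (by decide +kernel)
           (CovZ.n2 (-23328, 8256) (by decide +kernel)
            (CovZ.leaf K2_ok TB_l14077 _)
            (CovZ.leaf K2_ok TB_l14078 _))
           (CovZ.leaf K2_ok TB_l14079 _))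
          (CovZ.n1 (-23328, 8160) (by decide +kernel)
           (CovZ.leaf K2_ok TB_l14080 _)
           (CovZ.n1 (-23328, 8256) (by decide +kernel)
            (CovZ.leaf K2_ok TB_l14081 _)
            (CovZ.leaf K2_ok TB_l14082 _)))))
        (CovZ.n1 (-23232, 8448) (by decide +kernel)
         (CovZ.n2 (-23136, 8352) (by decide +kernel)
          (CovZ.leaf K2_ok TB_l14083 _)
          (CovZ.n1 (-23136, 8448) (by decide +kernel)
           (CovZ.leaf K2_ok TB_l14084 _)
           (CovZ.leaf K2_ok TB_l14085 _)))
         (CovZ.n1 (-23328, 8352) (by decide +kernel)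
          (CovZ.n2 (-23328, 8448) (by decide +kernel)
           (CovZ.leaf K2_ok TB_l14086 _)
           (CovZ.leaf K2_ok TB_l14087 _))
          (CovZ.leaf K2_ok TB_l14088 _))))
       (CovZ.n1 (-23616, 8256) (by decide +kernel)
        (CovZ.n2 (-23616, 8448) (by decide +kernel)
         (CovZ.n2 (-23520, 8352) (by decide +kernel)
          (CovZ.leaf K2_ok TB_l14089 _)
          (CovZ.n1 (-23520, 8448) (by decide +kernel)
           (CovZ.leaf K2_ok TB_l14090 _)
           (CovZ.leaf K2_ok TB_l14091 _)))
         (CovZ.n1 (-23712, 8352) (by decide +kernel)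
          (CovZ.n2 (-23712, 8448) (by decide +kernel)
           (CovZ.leaf K2_ok TB_l14092 _)
           (CovZ.leaf K2_ok TB_l14093 _))
          (CovZ.leaf K2_ok TB_l14094 _)))
        (CovZ.subM 631663411835949099859883151189999678692791471825474728848482242793105363026594945930655266893610868112873039949996164 (by decide +kernel)
         (CovZ.n1 (-23424, 8256) (by decide +kernel)
          (CovZ.n2 (-23520, 8160) (by decide +kernel)
           (CovZ.n2 (-23520, 8256) (by decide +kernel)
            (CovZ.leaf K2_ok TB_l14095 _)
            (CovZ.leaf K2_ok TB_l14096 _))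
           (CovZ.leaf K2_ok TB_l14097 _))
          (CovZ.n1 (-23520, 8352) (by decide +kernel)
           (CovZ.leaf K2_ok TB_l14098 _)
           (CovZ.n1 (-23520, 8256) (by decide +kernel)
            (CovZ.leaf K2_ok TB_l14099 _)
            (CovZ.leaf K2_ok TB_l14100 _)))))))
      (CovZ.n1 (-23040, 8064) (by decide +kernel)
       (CovZ.n2 (-23232, 7872) (by decide +kernel)
        (CovZ.n2 (-23232, 8064) (by decide +kernel)
         (CovZ.n2 (-23136, 7968) (by decide +kernel)
          (CovZ.n2 (-23232, 7968) (by decide +kernel)
           (CovZ.leaf K2_ok TB_l14101 _)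
           (CovZ.n1 (-23184, 7920) (by decide +kernel)
            (CovZ.leaf K2_ok TB_l14102 _)
            (CovZ.leaf K2_ok TB_l14103 _)))
          (CovZ.n1 (-23136, 8064) (by decide +kernel)
           (CovZ.leaf K2_ok TB_l14104 _)
           (CovZ.leaf K2_ok TB_l14105 _)))
         (CovZ.subM 631663411835949064863871554661808888732755837943532883196967879479576885076494262325236698402334995039770811163484292 (by decide +kernel)
          (CovZ.n1 (-23328, 7968) (by decide +kernel)
           (CovZ.n2 (-23328, 8064) (by decide +kernel)
            (CovZ.leaf K2_ok TB_l14106 _)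
            (CovZ.leaf K2_ok TB_l14107 _))
           (CovZ.n1 (-23232, 7968) (by decide +kernel)
            (CovZ.leaf K2_ok TB_l14108 _)
            (CovZ.leaf K2_ok TB_l14109 _)))))
        (CovZ.subM 631663411835949073612874453793856586222764746414018344609645603100363884484030303682129557712932770978538106665312388 (by decide +kernel)
         (CovZ.n1 (-23040, 7872) (by decide +kernel)
          (CovZ.n2 (-23136, 7776) (by decide +kernel)
           (CovZ.n2 (-23136, 7872) (by decide +kernel)
            (CovZ.n2 (-23088, 7824) (by decide +kernel)
             (CovZ.leaf K2_ok TB_l14110 _)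
             (CovZ.leaf K2_ok TB_l14111 _))
            (CovZ.n1 (-23184, 7824) (by decide +kernel)
             (CovZ.leaf K2_ok TB_l14112 _)
             (CovZ.leaf K2_ok TB_l14113 _)))
           (CovZ.n1 (-23040, 7776) (by decide +kernel)
            (CovZ.n2 (-23088, 7728) (by decide +kernel)
             (CovZ.n2 (-23088, 7776) (by decide +kernel)
              (CovZ.leaf K2_ok TB_l14114 _)
              (CovZ.leaf K2_ok TB_l14115 _))
             (CovZ.leaf K2_ok TB_l14116 _))
            (CovZ.n1 (-23088, 7824) (by decide +kernel)
             (CovZ.leaf K2_ok TB_l14117 _)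
             (CovZ.n1 (-23088, 7776) (by decide +kernel)
              (CovZ.leaf K2_ok TB_l14118 _)
              (CovZ.leaf K2_ok TB_l14119 _)))))
          (CovZ.n1 (-23136, 7968) (by decide +kernel)
           (CovZ.leaf K2_ok TB_l14120 _)
           (CovZ.n1 (-23136, 7872) (by decide +kernel)
            (CovZ.n2 (-23184, 7920) (by decide +kernel)
             (CovZ.leaf K2_ok TB_l14121 _)
             (CovZ.leaf K2_ok TB_l14122 _))
            (CovZ.leaf K2_ok TB_l14123 _))))))
       (CovZ.n1 (-23232, 8256) (by decide +kernel)
        (CovZ.n2 (-23040, 8256) (by decide +kernel)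
         (CovZ.n2 (-23136, 8160) (by decide +kernel)
          (CovZ.n2 (-23136, 8256) (by decide +kernel)
           (CovZ.leaf K2_ok TB_l14124 _)
           (CovZ.leaf K2_ok TB_l14125 _))
          (CovZ.leaf K2_ok TB_l14126 _))
         (CovZ.n1 (-23136, 8352) (by decide +kernel)
          (CovZ.n2 (-23040, 8352) (by decide +kernel)
           (CovZ.leaf K2_ok TB_l14127 _)
           (CovZ.leaf K2_ok TB_l14128 _))
          (CovZ.n1 (-23136, 8256) (by decide +kernel)
           (CovZ.leaf K2_ok TB_l14129 _)
           (CovZ.leaf K2_ok TB_l14130 _))))
        (CovZ.n1 (-23232, 8064) (by decide +kernel)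
         (CovZ.n2 (-23328, 8160) (by decide +kernel)
          (CovZ.leaf K2_ok TB_l14131 _)
          (CovZ.n1 (-23328, 8064) (by decide +kernel)
           (CovZ.leaf K2_ok TB_l14132 _)
           (CovZ.leaf K2_ok TB_l14133 _)))
         (CovZ.n1 (-23136, 8160) (by decide +kernel)
          (CovZ.n2 (-23136, 8064) (by decide +kernel)
           (CovZ.leaf K2_ok TB_l14134 _)
           (CovZ.leaf K2_ok TB_l14135 _))
          (CovZ.leaf K2_ok TB_l14136 _))))))

theorem TB_u204 : CovZ TB_M (toL (selN TB_LN 631665816743553874755644561705584789941734759178646356535621361607105257510044389977546015209725220878697343798485124)) [0, 7, 6, 1] (-23040, 8448) (-23040, 9216) (-23808, 8448) :=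
    (CovZ.n1 (-23424, 8832) (by decide +kernel)
      (CovZ.n2 (-23040, 8832) (by decide +kernel)
       (CovZ.n2 (-23232, 8640) (by decide +kernel)
        (CovZ.n2 (-23232, 8832) (by decide +kernel)
         (CovZ.n2 (-23136, 8736) (by decide +kernel)
          (CovZ.n2 (-23232, 8736) (by decide +kernel)
           (CovZ.leaf K2_ok TB_l14137 _)
           (CovZ.leaf K2_ok TB_l14138 _))
          (CovZ.n1 (-23136, 8832) (by decide +kernel)
           (CovZ.n2 (-23088, 8784) (by decide +kernel)
            (CovZ.leaf K2_ok TB_l14139 _)
            (CovZ.leaf K2_ok TB_l14140 _))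
           (CovZ.leaf K2_ok TB_l14141 _)))
         (CovZ.subM 631663411835949099859883151189999678692791471825474728951326277625680740661280519840489673455031859714971781409284228 (by decide +kernel)
          (CovZ.n1 (-23328, 8736) (by decide +kernel)
           (CovZ.n2 (-23328, 8832) (by decide +kernel)
            (CovZ.leaf K2_ok TB_l14142 _)
            (CovZ.leaf K2_ok TB_l14143 _))
           (CovZ.n1 (-23232, 8736) (by decide +kernel)
            (CovZ.leaf K2_ok TB_l14144 _)
            (CovZ.leaf K2_ok TB_l14145 _)))))
        (CovZ.n1 (-23040, 8640) (by decide +kernel)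
         (CovZ.n2 (-23136, 8544) (by decide +kernel)
          (CovZ.n2 (-23136, 8640) (by decide +kernel)
           (CovZ.leaf K2_ok TB_l14146 _)
           (CovZ.leaf K2_ok TB_l14147 _))
          (CovZ.n1 (-23040, 8544) (by decide +kernel)
           (CovZ.leaf K2_ok TB_l14148 _)
           (CovZ.leaf K2_ok TB_l14149 _)))
         (CovZ.n1 (-23136, 8736) (by decide +kernel)
          (CovZ.n2 (-23040, 8736) (by decide +kernel)
           (CovZ.leaf K2_ok TB_l14150 _)
           (CovZ.n1 (-23088, 8784) (by decide +kernel)
            (CovZ.leaf K2_ok TB_l14151 _)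
            (CovZ.leaf K2_ok TB_l14152 _)))
          (CovZ.n1 (-23136, 8640) (by decide +kernel)
           (CovZ.leaf K2_ok TB_l14153 _)
           (CovZ.leaf K2_ok TB_l14154 _)))))
       (CovZ.n1 (-23232, 9024) (by decide +kernel)
        (CovZ.n2 (-23040, 9024) (by decide +kernel)
         (CovZ.n2 (-23136, 8928) (by decide +kernel)
          (CovZ.n2 (-23136, 9024) (by decide +kernel)
           (CovZ.n2 (-23088, 8976) (by decide +kernel)
            (CovZ.leaf K2_ok TB_l14155 _)
            (CovZ.leaf K2_ok TB_l14156 _))
           (CovZ.n1 (-23184, 8976) (by decide +kernel)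
            (CovZ.leaf K2_ok TB_l14157 _)
            (CovZ.leaf K2_ok TB_l14158 _)))
          (CovZ.n1 (-23040, 8928) (by decide +kernel)
           (CovZ.n2 (-23088, 8880) (by decide +kernel)
            (CovZ.leaf K2_ok TB_l14159 _)
            (CovZ.leaf K2_ok TB_l14160 _))
           (CovZ.n1 (-23088, 8976) (by decide +kernel)
            (CovZ.leaf K2_ok TB_l14161 _)
            (CovZ.leaf K2_ok TB_l14162 _))))
         (CovZ.n1 (-23136, 9120) (by decide +kernel)
          (CovZ.n2 (-23040, 9120) (by decide +kernel)
           (CovZ.n2 (-23088, 9072) (by decide +kernel)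
            (CovZ.n2 (-23088, 9120) (by decide +kernel)
             (CovZ.leaf K2_ok TB_l14163 _)
             (CovZ.leaf K2_ok TB_l14164 _))
            (CovZ.leaf K2_ok TB_l14165 _))
           (CovZ.n1 (-23088, 9168) (by decide +kernel)
            (CovZ.leaf K2_ok TB_l14166 _)
            (CovZ.n1 (-23088, 9120) (by decide +kernel)
             (CovZ.leaf K2_ok TB_l14167 _)
             (CovZ.leaf K2_ok TB_l14168 _))))
          (CovZ.n1 (-23136, 9024) (by decide +kernel)
           (CovZ.n2 (-23184, 9072) (by decide +kernel)
            (CovZ.leaf K2_ok TB_l14169 _)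
            (CovZ.leaf K2_ok TB_l14170 _))
           (CovZ.n1 (-23088, 9072) (by decide +kernel)
            (CovZ.leaf K2_ok TB_l14171 _)
            (CovZ.leaf K2_ok TB_l14172 _)))))
        (CovZ.n1 (-23232, 8832) (by decide +kernel)
         (CovZ.subM 631663411835949099859883151189999678692791471825474728951326277625680740661280519840489673455031859714971781409284228 (by decide +kernel)
          (CovZ.n2 (-23328, 8928) (by decide +kernel)
           (CovZ.n2 (-23232, 8928) (by decide +kernel)
            (CovZ.leaf K2_ok TB_l14173 _)
            (CovZ.n1 (-23280, 8976) (by decide +kernel)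
             (CovZ.leaf K2_ok TB_l14174 _)
             (CovZ.leaf K2_ok TB_l14175 _)))
           (CovZ.n1 (-23328, 8832) (by decide +kernel)
            (CovZ.leaf K2_ok TB_l14176 _)
            (CovZ.leaf K2_ok TB_l14177 _))))
         (CovZ.n1 (-23136, 8928) (by decide +kernel)
          (CovZ.n2 (-23136, 8832) (by decide +kernel)
           (CovZ.n2 (-23184, 8880) (by decide +kernel)
            (CovZ.leaf K2_ok TB_l14178 _)
            (CovZ.leaf K2_ok TB_l14179 _))
           (CovZ.n1 (-23088, 8880) (by decide +kernel)
            (CovZ.leaf K2_ok TB_l14180 _)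
            (CovZ.leaf K2_ok TB_l14181 _)))
          (CovZ.n1 (-23232, 8928) (by decide +kernel)
           (CovZ.leaf K2_ok TB_l14182 _)
           (CovZ.n1 (-23184, 8880) (by decide +kernel)
            (CovZ.leaf K2_ok TB_l14183 _)
            (CovZ.leaf K2_ok TB_l14184 _)))))))
      (CovZ.n1 (-23424, 8448) (by decide +kernel)
       (CovZ.n2 (-23616, 8640) (by decide +kernel)
        (CovZ.n2 (-23424, 8640) (by decide +kernel)
         (CovZ.n2 (-23520, 8544) (by decide +kernel)
          (CovZ.n2 (-23520, 8640) (by decide +kernel)
           (CovZ.leaf K2_ok TB_l14185 _)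
           (CovZ.leaf K2_ok TB_l14186 _))
          (CovZ.n1 (-23424, 8544) (by decide +kernel)
           (CovZ.leaf K2_ok TB_l14187 _)
           (CovZ.leaf K2_ok TB_l14188 _)))
         (CovZ.subM 631663411835949099859883151189999678692791471825474728951326277625680740661280519840489673455031859714971781409284228 (by decide +kernel)
          (CovZ.n1 (-23520, 8736) (by decide +kernel)
           (CovZ.n2 (-23424, 8736) (by decide +kernel)
            (CovZ.leaf K2_ok TB_l14189 _)
            (CovZ.leaf K2_ok TB_l14190 _))
           (CovZ.n1 (-23520, 8640) (by decide +kernel)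
            (CovZ.leaf K2_ok TB_l14191 _)
            (CovZ.leaf K2_ok TB_l14192 _)))))
        (CovZ.n1 (-23616, 8448) (by decide +kernel)
         (CovZ.n2 (-23712, 8544) (by decide +kernel)
          (CovZ.leaf K2_ok TB_l14193 _)
          (CovZ.n1 (-23712, 8448) (by decide +kernel)
           (CovZ.leaf K2_ok TB_l14194 _)
           (CovZ.leaf K2_ok TB_l14195 _)))
         (CovZ.n1 (-23520, 8544) (by decide +kernel)
          (CovZ.n2 (-23520, 8448) (by decide +kernel)
           (CovZ.leaf K2_ok TB_l14196 _)
           (CovZ.leaf K2_ok TB_l14197 _))
          (CovZ.leaf K2_ok TB_l14198 _))))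
       (CovZ.n1 (-23232, 8640) (by decide +kernel)
        (CovZ.n2 (-23232, 8448) (by decide +kernel)
         (CovZ.subM 631663411835949100953508513581505640879042585384285411525066958239711581239480249135631766493298829724629628461523076 (by decide +kernel)
          (CovZ.n2 (-23328, 8544) (by decide +kernel)
           (CovZ.n2 (-23232, 8544) (by decide +kernel)
            (CovZ.leaf K2_ok TB_l14199 _)
            (CovZ.leaf K2_ok TB_l14200 _))
           (CovZ.n1 (-23328, 8448) (by decide +kernel)
            (CovZ.leaf K2_ok TB_l14201 _)
            (CovZ.leaf K2_ok TB_l14202 _))))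
         (CovZ.n1 (-23136, 8544) (by decide +kernel)
          (CovZ.n2 (-23136, 8448) (by decide +kernel)
           (CovZ.leaf K2_ok TB_l14203 _)
           (CovZ.leaf K2_ok TB_l14204 _))
          (CovZ.n1 (-23232, 8544) (by decide +kernel)
           (CovZ.leaf K2_ok TB_l14205 _)
           (CovZ.leaf K2_ok TB_l14206 _))))
        (CovZ.n1 (-23424, 8640) (by decide +kernel)
         (CovZ.subM 631663411835949099859883151189999678692791471825474728951326277625680740661280519840489673455031859714971781409284228 (by decide +kernel)
          (CovZ.n2 (-23328, 8736) (by decide +kernel)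
           (CovZ.n2 (-23328, 8640) (by decide +kernel)
            (CovZ.leaf K2_ok TB_l14207 _)
            (CovZ.leaf K2_ok TB_l14208 _))
           (CovZ.n1 (-23424, 8736) (by decide +kernel)
            (CovZ.leaf K2_ok TB_l14209 _)
            (CovZ.leaf K2_ok TB_l14210 _))))
         (CovZ.n1 (-23328, 8544) (by decide +kernel)
          (CovZ.leaf K2_ok TB_l14211 _)
          (CovZ.n1 (-23328, 8640) (by decide +kernel)
           (CovZ.leaf K2_ok TB_l14212 _)
           (CovZ.leaf K2_ok TB_l14213 _)))))))

theorem TB_u205 : CovZ TB_M (toL (selN TB_LN 631665816743553874755644561705584789941734759178646356535621361607105257510044389977546015209725220878697343798485124)) [0, 7, 6, 1] (-23808, 7680) (-23808, 8064) (-24192, 8064) :=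
    (CovZ.subM 1231312693637397467406913059511067851480009616085736613442688866349844129586114772883875265650258815099987212378244 (by decide +kernel)
        (CovZ.n2 (-24000, 7872) (by decide +kernel)
         (CovZ.n2 (-24000, 8064) (by decide +kernel)
          (CovZ.n2 (-23904, 7968) (by decide +kernel)
           (CovZ.n2 (-24000, 7968) (by decide +kernel)
            (CovZ.n2 (-23952, 8016) (by decide +kernel)
             (CovZ.subM 1231312693637327475383720003129487931408741852202045209176853191012173943130268877777277121726255110666603546542212 (by decide +kernel)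
              (CovZ.n2 (-23952, 7968) (by decide +kernel)
               (CovZ.n2 (-23976, 7992) (by decide +kernel)
                (CovZ.leaf K2_ok TB_l14214 _)
                (CovZ.leaf K2_ok TB_l14215 _))
               (CovZ.n1 (-23928, 7992) (by decide +kernel)
                (CovZ.leaf K2_ok TB_l14216 _)
                (CovZ.leaf K2_ok TB_l14217 _))))
             (CovZ.n1 (-24000, 8016) (by decide +kernel)
              (CovZ.n2 (-23976, 8040) (by decide +kernel)
               (CovZ.leaf K2_ok TB_l14218 _)
               (CovZ.leaf K2_ok TB_l14219 _))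
              (CovZ.n1 (-23976, 7992) (by decide +kernel)
               (CovZ.leaf K2_ok TB_l14220 _)
               (CovZ.leaf K2_ok TB_l14221 _))))
            (CovZ.subM 803469022129495137770981046170581301261101496891396417650688 (by decide +kernel)
             (CovZ.n1 (-23952, 7920) (by decide +kernel)
              (CovZ.n2 (-24000, 7920) (by decide +kernel)
               (CovZ.n2 (-23976, 7944) (by decide +kernel)
                (CovZ.leaf K2_ok TB_l40163 _)
                (CovZ.leaf K2_ok TB_l40164 _))
               (CovZ.n1 (-23976, 7896) (by decide +kernel)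
                (CovZ.leaf K2_ok TB_l40165 _)
                (CovZ.leaf K2_ok TB_l40166 _)))
              (CovZ.n1 (-23952, 7968) (by decide +kernel)
               (CovZ.n2 (-23928, 7944) (by decide +kernel)
                (CovZ.leaf K2_ok TB_l40167 _)
                (CovZ.leaf K2_ok TB_l40168 _))
               (CovZ.n1 (-23976, 7944) (by decide +kernel)
                (CovZ.leaf K2_ok TB_l40169 _)
                (CovZ.leaf K2_ok TB_l40170 _))))))
           (CovZ.n1 (-23904, 8064) (by decide +kernel)
            (CovZ.n2 (-23856, 8016) (by decide +kernel)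
             (CovZ.n2 (-23904, 8016) (by decide +kernel)
              (CovZ.n2 (-23880, 8040) (by decide +kernel)
               (CovZ.n2 (-23880, 8016) (by decide +kernel)
                (CovZ.leaf K2_ok TB_l14222 _)
                (CovZ.leaf K2_ok TB_l14223 _))
               (CovZ.leaf K2_ok TB_l14224 _))
              (CovZ.n1 (-23880, 7992) (by decide +kernel)
               (CovZ.leaf K2_ok TB_l14225 _)
               (CovZ.n1 (-23880, 8016) (by decide +kernel)
                (CovZ.leaf K2_ok TB_l14226 _)
                (CovZ.leaf K2_ok TB_l14227 _))))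
             (CovZ.n1 (-23856, 8064) (by decide +kernel)
              (CovZ.n2 (-23832, 8040) (by decide +kernel)
               (CovZ.leaf K2_ok TB_l14228 _)
               (CovZ.leaf K2_ok TB_l14229 _))
              (CovZ.n1 (-23880, 8040) (by decide +kernel)
               (CovZ.n2 (-23880, 8064) (by decide +kernel)
                (CovZ.leaf K2_ok TB_l14230 _)
                (CovZ.leaf K2_ok TB_l14231 _))
               (CovZ.leaf K2_ok TB_l14232 _))))
            (CovZ.n1 (-23952, 8016) (by decide +kernel)
             (CovZ.n2 (-23952, 8064) (by decide +kernel)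
              (CovZ.n2 (-23928, 8040) (by decide +kernel)
               (CovZ.leaf K2_ok TB_l14233 _)
               (CovZ.n1 (-23928, 8064) (by decide +kernel)
                (CovZ.leaf K2_ok TB_l14234 _)
                (CovZ.leaf K2_ok TB_l14235 _)))
              (CovZ.n1 (-23976, 8040) (by decide +kernel)
               (CovZ.n2 (-23976, 8064) (by decide +kernel)
                (CovZ.leaf K2_ok TB_l14236 _)
                (CovZ.leaf K2_ok TB_l14237 _))
               (CovZ.leaf K2_ok TB_l14238 _)))
             (CovZ.n1 (-23904, 8016) (by decide +kernel)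
              (CovZ.n2 (-23928, 7992) (by decide +kernel)
               (CovZ.leaf K2_ok TB_l14239 _)
               (CovZ.leaf K2_ok TB_l14240 _))
              (CovZ.n1 (-23928, 8040) (by decide +kernel)
               (CovZ.leaf K2_ok TB_l14241 _)
               (CovZ.n1 (-23928, 8016) (by decide +kernel)
                (CovZ.leaf K2_ok TB_l14242 _)
                (CovZ.leaf K2_ok TB_l14243 _)))))))
          (CovZ.n1 (-24096, 7968) (by decide +kernel)
           (CovZ.n2 (-24096, 8064) (by decide +kernel)
            (CovZ.n2 (-24048, 8016) (by decide +kernel)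
             (CovZ.n2 (-24096, 8016) (by decide +kernel)
              (CovZ.n2 (-24072, 8040) (by decide +kernel)
               (CovZ.leaf K2_ok TB_l14244 _)
               (CovZ.leaf K2_ok TB_l14245 _))
              (CovZ.n1 (-24072, 7992) (by decide +kernel)
               (CovZ.leaf K2_ok TB_l14246 _)
               (CovZ.leaf K2_ok TB_l14247 _)))
             (CovZ.n1 (-24048, 8064) (by decide +kernel)
              (CovZ.n2 (-24024, 8040) (by decide +kernel)
               (CovZ.leaf K2_ok TB_l14248 _)
               (CovZ.leaf K2_ok TB_l14249 _))
              (CovZ.leaf K2_ok TB_l14250 _)))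
            (CovZ.n1 (-24144, 8016) (by decide +kernel)
             (CovZ.n2 (-24144, 8064) (by decide +kernel)
              (CovZ.n2 (-24120, 8040) (by decide +kernel)
               (CovZ.leaf K2_ok TB_l14251 _)
               (CovZ.leaf K2_ok TB_l14252 _))
              (CovZ.leaf K2_ok TB_l14253 _))
             (CovZ.n1 (-24096, 8016) (by decide +kernel)
              (CovZ.n2 (-24120, 7992) (by decide +kernel)
               (CovZ.leaf K2_ok TB_l14254 _)
               (CovZ.leaf K2_ok TB_l14255 _))
              (CovZ.n1 (-24120, 8040) (by decide +kernel)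
               (CovZ.leaf K2_ok TB_l14256 _)
               (CovZ.leaf K2_ok TB_l14257 _)))))
           (CovZ.n1 (-24000, 7968) (by decide +kernel)
            (CovZ.subM 103647503854704872772456554956004987862682093098990137876938752 (by decide +kernel)
             (CovZ.n2 (-24048, 7920) (by decide +kernel)
              (CovZ.n2 (-24048, 7968) (by decide +kernel)
               (CovZ.n2 (-24024, 7944) (by decide +kernel)
                (CovZ.leaf K2_ok TB_l40171 _)
                (CovZ.leaf K2_ok TB_l40172 _))
               (CovZ.leaf K2_ok TB_l40173 _))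
              (CovZ.n1 (-24000, 7920) (by decide +kernel)
               (CovZ.n2 (-24024, 7896) (by decide +kernel)
                (CovZ.leaf K2_ok TB_l40174 _)
                (CovZ.leaf K2_ok TB_l40175 _))
               (CovZ.n1 (-24024, 7944) (by decide +kernel)
                (CovZ.leaf K2_ok TB_l40176 _)
                (CovZ.leaf K2_ok TB_l40177 _)))))
            (CovZ.n1 (-24048, 8016) (by decide +kernel)
             (CovZ.n2 (-24000, 8016) (by decide +kernel)
              (CovZ.n2 (-24024, 7992) (by decide +kernel)
               (CovZ.leaf K2_ok TB_l14258 _)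
               (CovZ.leaf K2_ok TB_l14259 _))
              (CovZ.n1 (-24024, 8040) (by decide +kernel)
               (CovZ.leaf K2_ok TB_l14260 _)
               (CovZ.leaf K2_ok TB_l14261 _)))
             (CovZ.n1 (-24048, 7968) (by decide +kernel)
              (CovZ.n2 (-24072, 7992) (by decide +kernel)
               (CovZ.leaf K2_ok TB_l14262 _)
               (CovZ.leaf K2_ok TB_l14263 _))
              (CovZ.n1 (-24024, 7992) (by decide +kernel)
               (CovZ.leaf K2_ok TB_l14264 _)
               (CovZ.leaf K2_ok TB_l14265 _)))))))
         (CovZ.n1 (-23808, 7872) (by decide +kernel)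
          (CovZ.subM 803469022129495137770981046170581301261101496891396417650688 (by decide +kernel)
           (CovZ.n2 (-23904, 7776) (by decide +kernel)
            (CovZ.n2 (-23904, 7872) (by decide +kernel)
             (CovZ.badM (by decide +kernel))
             (CovZ.n1 (-23952, 7824) (by decide +kernel)
              (CovZ.n2 (-23952, 7872) (by decide +kernel)
               (CovZ.badM (by decide +kernel))
               (CovZ.n1 (-23976, 7848) (by decide +kernel)
                (CovZ.leaf K2_ok TB_l40178 _)
                (CovZ.badM (by decide +kernel))))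
              (CovZ.badM (by decide +kernel))))
            (CovZ.badM (by decide +kernel))))
          (CovZ.n1 (-23904, 7968) (by decide +kernel)
           (CovZ.n2 (-23808, 7968) (by decide +kernel)
            (CovZ.subM 803469022129495137770981046170581301261101496891396417650688 (by decide +kernel)
             (CovZ.n2 (-23856, 7920) (by decide +kernel)
              (CovZ.n2 (-23856, 7968) (by decide +kernel)
               (CovZ.n2 (-23832, 7944) (by decide +kernel)
                (CovZ.leaf K2_ok TB_l40179 _)
                (CovZ.n1 (-23832, 7968) (by decide +kernel)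
                 (CovZ.badM (by decide +kernel))
                 (CovZ.leaf K2_ok TB_l40180 _)))
               (CovZ.n1 (-23880, 7944) (by decide +kernel)
                (CovZ.n2 (-23880, 7968) (by decide +kernel)
                 (CovZ.leaf K2_ok TB_l40181 _)
                 (CovZ.leaf K2_ok TB_l40182 _))
                (CovZ.leaf K2_ok TB_l40183 _)))
              (CovZ.badM (by decide +kernel))))
            (CovZ.n1 (-23856, 8016) (by decide +kernel)
             (CovZ.n2 (-23808, 8016) (by decide +kernel)
              (CovZ.n2 (-23832, 7992) (by decide +kernel)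
               (CovZ.n2 (-23832, 8016) (by decide +kernel)
                (CovZ.leaf K2_ok TB_l14266 _)
                (CovZ.leaf K2_ok TB_l14267 _))
               (CovZ.n1 (-23808, 7992) (by decide +kernel)
                (CovZ.leaf K2_ok TB_l40184 _)
                (CovZ.leaf K2_ok TB_l14268 _)))
              (CovZ.n1 (-23832, 8040) (by decide +kernel)
               (CovZ.leaf K2_ok TB_l14269 _)
               (CovZ.n1 (-23832, 8016) (by decide +kernel)
                (CovZ.leaf K2_ok TB_l14270 _)
                (CovZ.leaf K2_ok TB_l14271 _))))
             (CovZ.subM 1231312693637327475383720003129487931408741852202045209176853191012173943130268877777277121726255110666603546542212 (by decide +kernel)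
              (CovZ.n1 (-23856, 7968) (by decide +kernel)
               (CovZ.n2 (-23880, 7992) (by decide +kernel)
                (CovZ.leaf K2_ok TB_l14272 _)
                (CovZ.leaf K2_ok TB_l40185 _))
               (CovZ.n1 (-23832, 7992) (by decide +kernel)
                (CovZ.n2 (-23832, 7968) (by decide +kernel)
                 (CovZ.leaf K2_ok TB_l40186 _)
                 (CovZ.leaf K2_ok TB_l40187 _))
                (CovZ.leaf K2_ok TB_l14273 _))))))
           (CovZ.subM 803469022129495137770981046170581301261101496891396417650688 (by decide +kernel)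
            (CovZ.n1 (-23904, 7872) (by decide +kernel)
             (CovZ.n2 (-23952, 7920) (by decide +kernel)
              (CovZ.n2 (-23904, 7920) (by decide +kernel)
               (CovZ.n2 (-23928, 7896) (by decide +kernel)
                (CovZ.leaf K2_ok TB_l40188 _)
                (CovZ.badM (by decide +kernel)))
               (CovZ.n1 (-23928, 7944) (by decide +kernel)
                (CovZ.leaf K2_ok TB_l40189 _)
                (CovZ.leaf K2_ok TB_l40190 _)))
              (CovZ.n1 (-23952, 7872) (by decide +kernel)
               (CovZ.n2 (-23976, 7896) (by decide +kernel)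
                (CovZ.leaf K2_ok TB_l40191 _)
                (CovZ.leaf K2_ok TB_l40192 _))
               (CovZ.n1 (-23928, 7896) (by decide +kernel)
                (CovZ.badM (by decide +kernel))
                (CovZ.leaf K2_ok TB_l40193 _))))
             (CovZ.n1 (-23856, 7920) (by decide +kernel)
              (CovZ.badM (by decide +kernel))
              (CovZ.n1 (-23904, 7920) (by decide +kernel)
               (CovZ.n2 (-23880, 7944) (by decide +kernel)
                (CovZ.badM (by decide +kernel))
                (CovZ.leaf K2_ok TB_l40194 _))
               (CovZ.badM (by decide +kernel))))))))))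

theorem TB_u206 : CovZ TB_M (toL (selN TB_LN 631665816743553874755644561705584789941734759178646356535621361607105257510044389977546015209725220878697343798485124)) [0, 7, 6, 1] (-23808, 8064) (-23808, 8448) (-24192, 8064) :=
    (CovZ.n1 (-24000, 8256) (by decide +kernel)
        (CovZ.n2 (-23808, 8256) (by decide +kernel)
         (CovZ.subM 631663411835949099859883151189999678692791471825474728951326277625680375285871187114760122533823680644216867426148484 (by decide +kernel)
          (CovZ.n2 (-23904, 8160) (by decide +kernel)
           (CovZ.n2 (-23904, 8256) (by decide +kernel)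
            (CovZ.n2 (-23856, 8208) (by decide +kernel)
             (CovZ.leaf K2_ok TB_l14274 _)
             (CovZ.leaf K2_ok TB_l14275 _))
            (CovZ.n1 (-23952, 8208) (by decide +kernel)
             (CovZ.n2 (-23952, 8256) (by decide +kernel)
              (CovZ.leaf K2_ok TB_l14276 _)
              (CovZ.leaf K2_ok TB_l14277 _))
             (CovZ.leaf K2_ok TB_l14278 _)))
           (CovZ.n1 (-23808, 8160) (by decide +kernel)
            (CovZ.n2 (-23856, 8112) (by decide +kernel)
             (CovZ.n2 (-23856, 8160) (by decide +kernel)
              (CovZ.leaf K2_ok TB_l14279 _)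
              (CovZ.leaf K2_ok TB_l14280 _))
             (CovZ.n1 (-23808, 8112) (by decide +kernel)
              (CovZ.leaf K2_ok TB_l14281 _)
              (CovZ.leaf K2_ok TB_l14282 _)))
            (CovZ.n1 (-23856, 8208) (by decide +kernel)
             (CovZ.leaf K2_ok TB_l14283 _)
             (CovZ.n1 (-23856, 8160) (by decide +kernel)
              (CovZ.leaf K2_ok TB_l14284 _)
              (CovZ.leaf K2_ok TB_l14285 _))))))
         (CovZ.n1 (-23904, 8352) (by decide +kernel)
          (CovZ.n2 (-23808, 8352) (by decide +kernel)
           (CovZ.leaf K2_ok TB_l14286 _)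
           (CovZ.leaf K2_ok TB_l14287 _))
          (CovZ.subM 631663411835949099859883151189999678692791471825474728951326277625680375285871187114760122533823680644216867426148484 (by decide +kernel)
           (CovZ.n1 (-23904, 8256) (by decide +kernel)
            (CovZ.n2 (-23952, 8304) (by decide +kernel)
             (CovZ.leaf K2_ok TB_l14288 _)
             (CovZ.n1 (-23952, 8256) (by decide +kernel)
              (CovZ.leaf K2_ok TB_l14289 _)
              (CovZ.leaf K2_ok TB_l14290 _)))
            (CovZ.n1 (-23856, 8304) (by decide +kernel)
             (CovZ.leaf K2_ok TB_l14291 _)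
             (CovZ.leaf K2_ok TB_l14292 _))))))
        (CovZ.subM 631663411835949099859883151189999678692791471825474728951326277625680375285871187114760122533823680644216867426148484 (by decide +kernel)
         (CovZ.n1 (-24000, 8064) (by decide +kernel)
          (CovZ.n2 (-24096, 8160) (by decide +kernel)
           (CovZ.n2 (-24000, 8160) (by decide +kernel)
            (CovZ.n2 (-24048, 8112) (by decide +kernel)
             (CovZ.n2 (-24048, 8160) (by decide +kernel)
              (CovZ.n2 (-24024, 8136) (by decide +kernel)
               (CovZ.leaf K2_ok TB_l14293 _)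
               (CovZ.n1 (-24024, 8160) (by decide +kernel)
                (CovZ.leaf K2_ok TB_l14294 _)
                (CovZ.leaf K2_ok TB_l14295 _)))
              (CovZ.n1 (-24072, 8136) (by decide +kernel)
               (CovZ.leaf K2_ok TB_l14296 _)
               (CovZ.leaf K2_ok TB_l14297 _)))
             (CovZ.n1 (-24000, 8112) (by decide +kernel)
              (CovZ.n2 (-24024, 8088) (by decide +kernel)
               (CovZ.n2 (-24024, 8112) (by decide +kernel)
                (CovZ.leaf K2_ok TB_l14298 _)
                (CovZ.leaf K2_ok TB_l14299 _))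
               (CovZ.leaf K2_ok TB_l14300 _))
              (CovZ.n1 (-24024, 8136) (by decide +kernel)
               (CovZ.leaf K2_ok TB_l14301 _)
               (CovZ.n1 (-24024, 8112) (by decide +kernel)
                (CovZ.leaf K2_ok TB_l14302 _)
                (CovZ.leaf K2_ok TB_l14303 _)))))
            (CovZ.n1 (-24048, 8208) (by decide +kernel)
             (CovZ.n2 (-24000, 8208) (by decide +kernel)
              (CovZ.leaf K2_ok TB_l14304 _)
              (CovZ.leaf K2_ok TB_l14305 _))
             (CovZ.n1 (-24048, 8160) (by decide +kernel)
              (CovZ.n2 (-24072, 8184) (by decide +kernel)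
               (CovZ.leaf K2_ok TB_l14306 _)
               (CovZ.leaf K2_ok TB_l14307 _))
              (CovZ.n1 (-24024, 8184) (by decide +kernel)
               (CovZ.n2 (-24024, 8160) (by decide +kernel)
                (CovZ.leaf K2_ok TB_l14308 _)
                (CovZ.leaf K2_ok TB_l14309 _))
               (CovZ.leaf K2_ok TB_l14310 _)))))
           (CovZ.n1 (-24096, 8064) (by decide +kernel)
            (CovZ.n2 (-24144, 8112) (by decide +kernel)
             (CovZ.n2 (-24096, 8112) (by decide +kernel)
              (CovZ.n2 (-24120, 8088) (by decide +kernel)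
               (CovZ.leaf K2_ok TB_l14311 _)
               (CovZ.leaf K2_ok TB_l14312 _))
              (CovZ.n1 (-24120, 8136) (by decide +kernel)
               (CovZ.leaf K2_ok TB_l14313 _)
               (CovZ.leaf K2_ok TB_l14314 _)))
             (CovZ.subM 1231312693637327475383720003129487931408741852202045312020888023587551577815842787611683683147246712765345005830276 (by decide +kernel)
              (CovZ.n1 (-24144, 8064) (by decide +kernel)
               (CovZ.n2 (-24168, 8088) (by decide +kernel)
                (CovZ.leaf K2_ok TB_l14315 _)
                (CovZ.leaf K2_ok TB_l14316 _))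
               (CovZ.n1 (-24120, 8088) (by decide +kernel)
                (CovZ.leaf K2_ok TB_l14317 _)
                (CovZ.leaf K2_ok TB_l14318 _)))))
            (CovZ.n1 (-24048, 8112) (by decide +kernel)
             (CovZ.n2 (-24048, 8064) (by decide +kernel)
              (CovZ.n2 (-24072, 8088) (by decide +kernel)
               (CovZ.leaf K2_ok TB_l14319 _)
               (CovZ.leaf K2_ok TB_l14320 _))
              (CovZ.n1 (-24024, 8088) (by decide +kernel)
               (CovZ.leaf K2_ok TB_l14321 _)
               (CovZ.leaf K2_ok TB_l14322 _)))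
             (CovZ.n1 (-24096, 8112) (by decide +kernel)
              (CovZ.n2 (-24072, 8136) (by decide +kernel)
               (CovZ.leaf K2_ok TB_l14323 _)
               (CovZ.leaf K2_ok TB_l14324 _))
              (CovZ.n1 (-24072, 8088) (by decide +kernel)
               (CovZ.leaf K2_ok TB_l14325 _)
               (CovZ.leaf K2_ok TB_l14326 _))))))
          (CovZ.n1 (-23904, 8160) (by decide +kernel)
           (CovZ.n2 (-23904, 8064) (by decide +kernel)
            (CovZ.n2 (-23952, 8112) (by decide +kernel)
             (CovZ.n2 (-23904, 8112) (by decide +kernel)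
              (CovZ.n2 (-23928, 8088) (by decide +kernel)
               (CovZ.n2 (-23928, 8112) (by decide +kernel)
                (CovZ.leaf K2_ok TB_l14327 _)
                (CovZ.leaf K2_ok TB_l14328 _))
               (CovZ.leaf K2_ok TB_l14329 _))
              (CovZ.n1 (-23928, 8136) (by decide +kernel)
               (CovZ.leaf K2_ok TB_l14330 _)
               (CovZ.leaf K2_ok TB_l14331 _)))
             (CovZ.n1 (-23952, 8064) (by decide +kernel)
              (CovZ.n2 (-23976, 8088) (by decide +kernel)
               (CovZ.leaf K2_ok TB_l14332 _)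
               (CovZ.n1 (-23976, 8064) (by decide +kernel)
                (CovZ.leaf K2_ok TB_l14333 _)
                (CovZ.leaf K2_ok TB_l14334 _)))
              (CovZ.n1 (-23928, 8088) (by decide +kernel)
               (CovZ.leaf K2_ok TB_l14335 _)
               (CovZ.leaf K2_ok TB_l14336 _))))
            (CovZ.n1 (-23856, 8112) (by decide +kernel)
             (CovZ.n2 (-23856, 8064) (by decide +kernel)
              (CovZ.n2 (-23880, 8088) (by decide +kernel)
               (CovZ.leaf K2_ok TB_l14337 _)
               (CovZ.n1 (-23880, 8064) (by decide +kernel)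
                (CovZ.leaf K2_ok TB_l14338 _)
                (CovZ.leaf K2_ok TB_l14339 _)))
              (CovZ.n1 (-23832, 8088) (by decide +kernel)
               (CovZ.leaf K2_ok TB_l14340 _)
               (CovZ.leaf K2_ok TB_l14341 _)))
             (CovZ.n1 (-23904, 8112) (by decide +kernel)
              (CovZ.leaf K2_ok TB_l14342 _)
              (CovZ.n1 (-23880, 8088) (by decide +kernel)
               (CovZ.leaf K2_ok TB_l14343 _)
               (CovZ.leaf K2_ok TB_l14344 _)))))
           (CovZ.n1 (-24000, 8160) (by decide +kernel)
            (CovZ.n2 (-23952, 8208) (by decide +kernel)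
             (CovZ.n2 (-23952, 8160) (by decide +kernel)
              (CovZ.n2 (-23976, 8184) (by decide +kernel)
               (CovZ.leaf K2_ok TB_l14345 _)
               (CovZ.leaf K2_ok TB_l14346 _))
              (CovZ.leaf K2_ok TB_l14347 _))
             (CovZ.n1 (-24000, 8208) (by decide +kernel)
              (CovZ.leaf K2_ok TB_l14348 _)
              (CovZ.n1 (-23976, 8184) (by decide +kernel)
               (CovZ.leaf K2_ok TB_l14349 _)
               (CovZ.leaf K2_ok TB_l14350 _))))
            (CovZ.n1 (-23952, 8112) (by decide +kernel)
             (CovZ.n2 (-24000, 8112) (by decide +kernel)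
              (CovZ.n2 (-23976, 8136) (by decide +kernel)
               (CovZ.n2 (-23976, 8112) (by decide +kernel)
                (CovZ.leaf K2_ok TB_l14351 _)
                (CovZ.leaf K2_ok TB_l14352 _))
               (CovZ.leaf K2_ok TB_l14353 _))
              (CovZ.n1 (-23976, 8088) (by decide +kernel)
               (CovZ.leaf K2_ok TB_l14354 _)
               (CovZ.n1 (-23976, 8112) (by decide +kernel)
                (CovZ.leaf K2_ok TB_l14355 _)
                (CovZ.leaf K2_ok TB_l14356 _))))
             (CovZ.n1 (-23952, 8160) (by decide +kernel)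
              (CovZ.n2 (-23928, 8136) (by decide +kernel)
               (CovZ.leaf K2_ok TB_l14357 _)
               (CovZ.leaf K2_ok TB_l14358 _))
              (CovZ.n1 (-23976, 8136) (by decide +kernel)
               (CovZ.leaf K2_ok TB_l14359 _)
               (CovZ.leaf K2_ok TB_l14360 _)))))))))

theorem TB_u207 : CovZ TB_M (toL (selN TB_LN 1231312693637327475383720003129487931408741852202045312020888023587551583391029087244339468531176280927435382325380)) [0, 7, 6, 1] (-24192, 8064) (-24384, 7872) (-24192, 7680) :=
    (CovZ.n2 (-24192, 7872) (by decide +kernel)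
          (CovZ.subM 103647503854704872772456554956004987862682093098990137876938752 (by decide +kernel)
           (CovZ.n2 (-24288, 7776) (by decide +kernel)
            (CovZ.n2 (-24288, 7872) (by decide +kernel)
             (CovZ.n2 (-24240, 7824) (by decide +kernel)
              (CovZ.n2 (-24288, 7824) (by decide +kernel)
               (CovZ.n2 (-24264, 7848) (by decide +kernel)
                (CovZ.leaf K2_ok TB_l40195 _)
                (CovZ.leaf K2_ok TB_l40196 _))
               (CovZ.n1 (-24264, 7800) (by decide +kernel)
                (CovZ.leaf K2_ok TB_l40197 _)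
                (CovZ.leaf K2_ok TB_l40198 _)))
              (CovZ.n1 (-24240, 7872) (by decide +kernel)
               (CovZ.n2 (-24216, 7848) (by decide +kernel)
                (CovZ.leaf K2_ok TB_l40199 _)
                (CovZ.leaf K2_ok TB_l40200 _))
               (CovZ.n1 (-24264, 7848) (by decide +kernel)
                (CovZ.leaf K2_ok TB_l40201 _)
                (CovZ.leaf K2_ok TB_l40202 _))))
             (CovZ.n1 (-24336, 7824) (by decide +kernel)
              (CovZ.n2 (-24336, 7872) (by decide +kernel)
               (CovZ.n2 (-24312, 7848) (by decide +kernel)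
                (CovZ.leaf K2_ok TB_l40203 _)
                (CovZ.leaf K2_ok TB_l40204 _))
               (CovZ.n1 (-24360, 7848) (by decide +kernel)
                (CovZ.leaf K2_ok TB_l40205 _)
                (CovZ.leaf K2_ok TB_l40206 _)))
              (CovZ.n1 (-24288, 7824) (by decide +kernel)
               (CovZ.leaf K2_ok TB_l40207 _)
               (CovZ.n1 (-24312, 7848) (by decide +kernel)
                (CovZ.leaf K2_ok TB_l40208 _)
                (CovZ.leaf K2_ok TB_l40209 _)))))
            (CovZ.n1 (-24192, 7776) (by decide +kernel)
             (CovZ.n2 (-24240, 7728) (by decide +kernel)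
              (CovZ.n2 (-24240, 7776) (by decide +kernel)
               (CovZ.n2 (-24216, 7752) (by decide +kernel)
                (CovZ.leaf K2_ok TB_l40210 _)
                (CovZ.leaf K2_ok TB_l40211 _))
               (CovZ.n1 (-24264, 7752) (by decide +kernel)
                (CovZ.leaf K2_ok TB_l40212 _)
                (CovZ.leaf K2_ok TB_l40213 _)))
              (CovZ.n1 (-24192, 7728) (by decide +kernel)
               (CovZ.n2 (-24216, 7704) (by decide +kernel)
                (CovZ.n2 (-24216, 7728) (by decide +kernel)
                 (CovZ.badM (by decide +kernel))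
                 (CovZ.leaf K2_ok TB_l40214 _))
                (CovZ.badM (by decide +kernel)))
               (CovZ.n1 (-24216, 7752) (by decide +kernel)
                (CovZ.leaf K2_ok TB_l40215 _)
                (CovZ.n1 (-24216, 7728) (by decide +kernel)
                 (CovZ.leaf K2_ok TB_l40216 _)
                 (CovZ.leaf K2_ok TB_l40217 _)))))
             (CovZ.n1 (-24240, 7824) (by decide +kernel)
              (CovZ.n2 (-24192, 7824) (by decide +kernel)
               (CovZ.n2 (-24216, 7800) (by decide +kernel)
                (CovZ.leaf K2_ok TB_l40218 _)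
                (CovZ.leaf K2_ok TB_l40219 _))
               (CovZ.n1 (-24216, 7848) (by decide +kernel)
                (CovZ.leaf K2_ok TB_l40220 _)
                (CovZ.leaf K2_ok TB_l40221 _)))
              (CovZ.n1 (-24240, 7776) (by decide +kernel)
               (CovZ.n2 (-24264, 7800) (by decide +kernel)
                (CovZ.leaf K2_ok TB_l40222 _)
                (CovZ.leaf K2_ok TB_l40223 _))
               (CovZ.n1 (-24216, 7800) (by decide +kernel)
                (CovZ.leaf K2_ok TB_l40224 _)
                (CovZ.leaf K2_ok TB_l40225 _)))))))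
          (CovZ.n1 (-24288, 7968) (by decide +kernel)
           (CovZ.n2 (-24192, 7968) (by decide +kernel)
            (CovZ.subM 103647503854704872772456554956004987862682093098990137876938752 (by decide +kernel)
             (CovZ.n2 (-24240, 7920) (by decide +kernel)
              (CovZ.n2 (-24240, 7968) (by decide +kernel)
               (CovZ.n2 (-24216, 7944) (by decide +kernel)
                (CovZ.leaf K2_ok TB_l14361 _)
                (CovZ.leaf K2_ok TB_l14362 _))
               (CovZ.n1 (-24264, 7944) (by decide +kernel)
                (CovZ.leaf K2_ok TB_l14363 _)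
                (CovZ.leaf K2_ok TB_l14364 _)))
              (CovZ.n1 (-24192, 7920) (by decide +kernel)
               (CovZ.n2 (-24216, 7896) (by decide +kernel)
                (CovZ.leaf K2_ok TB_l40226 _)
                (CovZ.leaf K2_ok TB_l40227 _))
               (CovZ.n1 (-24216, 7944) (by decide +kernel)
                (CovZ.leaf K2_ok TB_l14365 _)
                (CovZ.leaf K2_ok TB_l40228 _)))))
            (CovZ.n1 (-24240, 8016) (by decide +kernel)
             (CovZ.n2 (-24192, 8016) (by decide +kernel)
              (CovZ.leaf K2_ok TB_l14366 _)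
              (CovZ.n1 (-24216, 8040) (by decide +kernel)
               (CovZ.leaf K2_ok TB_l14367 _)
               (CovZ.leaf K2_ok TB_l14368 _)))
             (CovZ.n1 (-24240, 7968) (by decide +kernel)
              (CovZ.n2 (-24264, 7992) (by decide +kernel)
               (CovZ.leaf K2_ok TB_l14369 _)
               (CovZ.leaf K2_ok TB_l14370 _))
              (CovZ.n1 (-24216, 7992) (by decide +kernel)
               (CovZ.leaf K2_ok TB_l14371 _)
               (CovZ.leaf K2_ok TB_l14372 _)))))
           (CovZ.subM 103647503854704872772456554956004987862682093098990137876938752 (by decide +kernel)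
            (CovZ.n1 (-24288, 7872) (by decide +kernel)
             (CovZ.n2 (-24336, 7920) (by decide +kernel)
              (CovZ.n2 (-24288, 7920) (by decide +kernel)
               (CovZ.leaf K2_ok TB_l40229 _)
               (CovZ.n1 (-24312, 7944) (by decide +kernel)
                (CovZ.leaf K2_ok TB_l14373 _)
                (CovZ.leaf K2_ok TB_l40230 _)))
              (CovZ.n1 (-24336, 7872) (by decide +kernel)
               (CovZ.n2 (-24360, 7896) (by decide +kernel)
                (CovZ.leaf K2_ok TB_l40231 _)
                (CovZ.leaf K2_ok TB_l40232 _))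
               (CovZ.n1 (-24312, 7896) (by decide +kernel)
                (CovZ.leaf K2_ok TB_l40233 _)
                (CovZ.leaf K2_ok TB_l40234 _))))
             (CovZ.n1 (-24240, 7920) (by decide +kernel)
              (CovZ.n2 (-24240, 7872) (by decide +kernel)
               (CovZ.n2 (-24264, 7896) (by decide +kernel)
                (CovZ.leaf K2_ok TB_l40235 _)
                (CovZ.n1 (-24264, 7872) (by decide +kernel)
                 (CovZ.leaf K2_ok TB_l40236 _)
                 (CovZ.leaf K2_ok TB_l40237 _)))
               (CovZ.n1 (-24216, 7896) (by decide +kernel)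
                (CovZ.leaf K2_ok TB_l40238 _)
                (CovZ.leaf K2_ok TB_l40239 _)))
              (CovZ.n1 (-24288, 7920) (by decide +kernel)
               (CovZ.n2 (-24264, 7944) (by decide +kernel)
                (CovZ.leaf K2_ok TB_l40240 _)
                (CovZ.leaf K2_ok TB_l14374 _))
               (CovZ.n1 (-24264, 7896) (by decide +kernel)
                (CovZ.leaf K2_ok TB_l40241 _)
                (CovZ.leaf K2_ok TB_l40242 _))))))))

end Pool.Agent.TET
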