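import Pool.Agent.Helper38_TET.TB_M
import Pool.Agent.Helper38_TET.TB_L
import Pool.Agent.Helper38_TET.TB_95
import Pool.Agent.Helper38_TET.TB_96
import Pool.Agent.Helper38_TET.TB_97
import Pool.Agent.Helper38_TET.TB_98
import Pool.Agent.Helper38_TET.TB_99
import Pool.Agent.Helper38_TET.TB_100
import Pool.Agent.Helper38_TET.TB_107
import Pool.Agent.Helper38_TET.TB_108
import Pool.Agent.Helper38_TET.TB_109
import Pool.Agent.Helper38_TET.TB_268
import Pool.Agent.Helper38_TET.TB_269
import Pool.Agent.Helper38_TET.TB_325
import Pool.Agent.Helper38_TET.TB_U13

/-!
# MP_c7c9bf_co: certificates, family TB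
-/

set_option autoImplicit false
set_option maxRecDepth 100000

namespace Pool.Agent.TET

theorem TB_u208 : CovZ TB_M (toL (selN TB_LN 1231312693637327475383720003129487931408741852202045312020888023587551583391029087244339468531176280927435382325380)) [0, 7, 6, 1] (-24384, 7872) (-24576, 7680) (-24192, 7680) :=
    (CovZ.subM 103647503854704872778031741255637643648066022667152228253433856 (by decide +kernel)
          (CovZ.n1 (-24384, 7680) (by decide +kernel)
           (CovZ.n2 (-24480, 7776) (by decide +kernel)
            (CovZ.n2 (-24384, 7776) (by decide +kernel)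
             (CovZ.n2 (-24432, 7728) (by decide +kernel)
              (CovZ.n2 (-24432, 7776) (by decide +kernel)
               (CovZ.n2 (-24408, 7752) (by decide +kernel)
                (CovZ.leaf K2_ok TB_l40243 _)
                (CovZ.leaf K2_ok TB_l40244 _))
               (CovZ.leaf K2_ok TB_l14375 _))
              (CovZ.n1 (-24384, 7728) (by decide +kernel)
               (CovZ.n2 (-24408, 7704) (by decide +kernel)
                (CovZ.leaf K2_ok TB_l40245 _)
                (CovZ.leaf K2_ok TB_l40246 _))
               (CovZ.n1 (-24408, 7752) (by decide +kernel)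
                (CovZ.leaf K2_ok TB_l40247 _)
                (CovZ.leaf K2_ok TB_l40248 _))))
             (CovZ.n1 (-24432, 7824) (by decide +kernel)
              (CovZ.n2 (-24384, 7824) (by decide +kernel)
               (CovZ.leaf K2_ok TB_l40249 _)
               (CovZ.n1 (-24408, 7848) (by decide +kernel)
                (CovZ.leaf K2_ok TB_l40250 _)
                (CovZ.leaf K2_ok TB_l40251 _)))
              (CovZ.n1 (-24432, 7776) (by decide +kernel)
               (CovZ.n2 (-24456, 7800) (by decide +kernel)
                (CovZ.leaf K2_ok TB_l14376 _)
                (CovZ.leaf K2_ok TB_l14377 _))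
               (CovZ.n1 (-24408, 7800) (by decide +kernel)
                (CovZ.leaf K2_ok TB_l40252 _)
                (CovZ.leaf K2_ok TB_l40253 _)))))
            (CovZ.n1 (-24480, 7680) (by decide +kernel)
             (CovZ.n2 (-24528, 7728) (by decide +kernel)
              (CovZ.n2 (-24480, 7728) (by decide +kernel)
               (CovZ.leaf K2_ok TB_l14378 _)
               (CovZ.n1 (-24504, 7752) (by decide +kernel)
                (CovZ.leaf K2_ok TB_l14379 _)
                (CovZ.leaf K2_ok TB_l14380 _)))
              (CovZ.n1 (-24528, 7680) (by decide +kernel)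
               (CovZ.n2 (-24552, 7704) (by decide +kernel)
                (CovZ.leaf K2_ok TB_l14381 _)
                (CovZ.n1 (-24552, 7680) (by decide +kernel)
                 (CovZ.leaf K2_ok TB_l40254 _)
                 (CovZ.leaf K2_ok TB_l40255 _)))
               (CovZ.n1 (-24504, 7704) (by decide +kernel)
                (CovZ.leaf K2_ok TB_l14382 _)
                (CovZ.leaf K2_ok TB_l14383 _))))
             (CovZ.n1 (-24432, 7728) (by decide +kernel)
              (CovZ.n2 (-24432, 7680) (by decide +kernel)
               (CovZ.n2 (-24456, 7704) (by decide +kernel)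
                (CovZ.leaf K2_ok TB_l14384 _)
                (CovZ.n1 (-24456, 7680) (by decide +kernel)
                 (CovZ.leaf K2_ok TB_l14385 _)
                 (CovZ.leaf K2_ok TB_l14386 _)))
               (CovZ.n1 (-24408, 7704) (by decide +kernel)
                (CovZ.n2 (-24408, 7680) (by decide +kernel)
                 (CovZ.leaf K2_ok TB_l40256 _)
                 (CovZ.leaf K2_ok TB_l40257 _))
                (CovZ.leaf K2_ok TB_l40258 _)))
              (CovZ.n1 (-24480, 7728) (by decide +kernel)
               (CovZ.n2 (-24456, 7752) (by decide +kernel)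
                (CovZ.n2 (-24456, 7728) (by decide +kernel)
                 (CovZ.leaf K2_ok TB_l14387 _)
                 (CovZ.leaf K2_ok TB_l14388 _))
                (CovZ.leaf K2_ok TB_l14389 _))
               (CovZ.n1 (-24456, 7704) (by decide +kernel)
                (CovZ.leaf K2_ok TB_l14390 _)
                (CovZ.leaf K2_ok TB_l14391 _))))))
           (CovZ.n1 (-24288, 7776) (by decide +kernel)
            (CovZ.n2 (-24288, 7680) (by decide +kernel)
             (CovZ.n2 (-24336, 7728) (by decide +kernel)
              (CovZ.n2 (-24288, 7728) (by decide +kernel)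
               (CovZ.n2 (-24312, 7704) (by decide +kernel)
                (CovZ.leaf K2_ok TB_l40259 _)
                (CovZ.leaf K2_ok TB_l40260 _))
               (CovZ.n1 (-24312, 7752) (by decide +kernel)
                (CovZ.leaf K2_ok TB_l40261 _)
                (CovZ.leaf K2_ok TB_l40262 _)))
              (CovZ.n1 (-24336, 7680) (by decide +kernel)
               (CovZ.n2 (-24360, 7704) (by decide +kernel)
                (CovZ.leaf K2_ok TB_l40263 _)
                (CovZ.leaf K2_ok TB_l40264 _))
               (CovZ.n1 (-24312, 7704) (by decide +kernel)
                (CovZ.n2 (-24312, 7680) (by decide +kernel)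
                 (CovZ.leaf K2_ok TB_l40265 _)
                 (CovZ.leaf K2_ok TB_l40266 _))
                (CovZ.leaf K2_ok TB_l40267 _))))
             (CovZ.n1 (-24240, 7728) (by decide +kernel)
              (CovZ.n2 (-24240, 7680) (by decide +kernel)
               (CovZ.n2 (-24264, 7704) (by decide +kernel)
                (CovZ.leaf K2_ok TB_l40268 _)
                (CovZ.n1 (-24264, 7680) (by decide +kernel)
                 (CovZ.leaf K2_ok TB_l40269 _)
                 (CovZ.leaf K2_ok TB_l40270 _)))
               (CovZ.n1 (-24216, 7704) (by decide +kernel)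
                (CovZ.badM (by decide +kernel))
                (CovZ.n1 (-24240, 7704) (by decide +kernel)
                 (CovZ.leaf K2_ok TB_l40271 _)
                 (CovZ.badM (by decide +kernel)))))
              (CovZ.n1 (-24288, 7728) (by decide +kernel)
               (CovZ.n2 (-24264, 7752) (by decide +kernel)
                (CovZ.n2 (-24264, 7728) (by decide +kernel)
                 (CovZ.leaf K2_ok TB_l40272 _)
                 (CovZ.leaf K2_ok TB_l40273 _))
                (CovZ.leaf K2_ok TB_l40274 _))
               (CovZ.n1 (-24264, 7704) (by decide +kernel)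
                (CovZ.leaf K2_ok TB_l40275 _)
                (CovZ.n1 (-24264, 7728) (by decide +kernel)
                 (CovZ.leaf K2_ok TB_l40276 _)
                 (CovZ.leaf K2_ok TB_l40277 _))))))
            (CovZ.n1 (-24384, 7776) (by decide +kernel)
             (CovZ.n2 (-24336, 7824) (by decide +kernel)
              (CovZ.n2 (-24336, 7776) (by decide +kernel)
               (CovZ.n2 (-24360, 7800) (by decide +kernel)
                (CovZ.leaf K2_ok TB_l40278 _)
                (CovZ.leaf K2_ok TB_l40279 _))
               (CovZ.n1 (-24312, 7800) (by decide +kernel)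
                (CovZ.leaf K2_ok TB_l40280 _)
                (CovZ.leaf K2_ok TB_l40281 _)))
              (CovZ.n1 (-24384, 7824) (by decide +kernel)
               (CovZ.n2 (-24360, 7848) (by decide +kernel)
                (CovZ.leaf K2_ok TB_l40282 _)
                (CovZ.leaf K2_ok TB_l40283 _))
               (CovZ.n1 (-24360, 7800) (by decide +kernel)
                (CovZ.leaf K2_ok TB_l40284 _)
                (CovZ.leaf K2_ok TB_l40285 _))))
             (CovZ.n1 (-24336, 7728) (by decide +kernel)
              (CovZ.n2 (-24384, 7728) (by decide +kernel)
               (CovZ.n2 (-24360, 7752) (by decide +kernel)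
                (CovZ.leaf K2_ok TB_l40286 _)
                (CovZ.leaf K2_ok TB_l40287 _))
               (CovZ.n1 (-24360, 7704) (by decide +kernel)
                (CovZ.leaf K2_ok TB_l40288 _)
                (CovZ.leaf K2_ok TB_l40289 _)))
              (CovZ.n1 (-24336, 7776) (by decide +kernel)
               (CovZ.n2 (-24312, 7752) (by decide +kernel)
                (CovZ.leaf K2_ok TB_l40290 _)
                (CovZ.leaf K2_ok TB_l40291 _))
               (CovZ.leaf K2_ok TB_l40292 _)))))))

theorem TB_u209 : CovZ TB_M (toL (selN TB_LN 631663411835949073612874453793856586222764746414018344609645603100363541944584054251758103724300103099705374806122628)) [0, 7, 6, 1] (-23808, 7680) (-23424, 7680) (-23424, 8064) :=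
    (CovZ.n2 (-23616, 7872) (by decide +kernel)
         (CovZ.n2 (-23424, 7872) (by decide +kernel)
          (CovZ.subM 630432099142311737388487834658679400801347096091330837988594495310693840895725641767900451660661662355240690051457024 (by decide +kernel)
           (CovZ.n2 (-23520, 7776) (by decide +kernel)
            (CovZ.n2 (-23520, 7872) (by decide +kernel)
             (CovZ.n2 (-23472, 7824) (by decide +kernel)
              (CovZ.badM (by decide +kernel))
              (CovZ.n1 (-23472, 7872) (by decide +kernel)
               (CovZ.n2 (-23448, 7848) (by decide +kernel)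
                (CovZ.leaf K2_ok TB_l40340 _)
                (CovZ.leaf K2_ok TB_l14404 _))
               (CovZ.n1 (-23496, 7848) (by decide +kernel)
                (CovZ.n2 (-23496, 7872) (by decide +kernel)
                 (CovZ.leaf K2_ok TB_l40341 _)
                 (CovZ.leaf K2_ok TB_l40342 _))
                (CovZ.leaf K2_ok TB_l40343 _))))
             (CovZ.badM (by decide +kernel)))
            (CovZ.n1 (-23424, 7776) (by decide +kernel)
             (CovZ.badM (by decide +kernel))
             (CovZ.n1 (-23472, 7824) (by decide +kernel)
              (CovZ.n2 (-23424, 7824) (by decide +kernel)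
               (CovZ.badM (by decide +kernel))
               (CovZ.n1 (-23448, 7848) (by decide +kernel)
                (CovZ.leaf K2_ok TB_l14405 _)
                (CovZ.badM (by decide +kernel))))
              (CovZ.badM (by decide +kernel))))))
          (CovZ.n1 (-23520, 7968) (by decide +kernel)
           (CovZ.n2 (-23424, 7968) (by decide +kernel)
            (CovZ.subM 630432099142311737388487834658679400801347096091330837988594495310693840895725641767900451660661662355240690051457024 (by decide +kernel)
             (CovZ.n2 (-23472, 7920) (by decide +kernel)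
              (CovZ.n2 (-23472, 7968) (by decide +kernel)
               (CovZ.leaf K2_ok TB_l14406 _)
               (CovZ.leaf K2_ok TB_l14407 _))
              (CovZ.n1 (-23424, 7920) (by decide +kernel)
               (CovZ.leaf K2_ok TB_l14408 _)
               (CovZ.leaf K2_ok TB_l14409 _))))
            (CovZ.n1 (-23472, 8016) (by decide +kernel)
             (CovZ.leaf K2_ok TB_l14410 _)
             (CovZ.n1 (-23472, 7968) (by decide +kernel)
              (CovZ.leaf K2_ok TB_l14411 _)
              (CovZ.leaf K2_ok TB_l14412 _))))
           (CovZ.subM 630432099142311737388487834658679400801347096091330837988594495310693840895725641767900451660661662355240690051457024 (by decide +kernel)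
            (CovZ.n1 (-23520, 7872) (by decide +kernel)
             (CovZ.n2 (-23568, 7920) (by decide +kernel)
              (CovZ.n2 (-23520, 7920) (by decide +kernel)
               (CovZ.n2 (-23544, 7896) (by decide +kernel)
                (CovZ.n2 (-23544, 7920) (by decide +kernel)
                 (CovZ.leaf K2_ok TB_l14413 _)
                 (CovZ.leaf K2_ok TB_l40344 _))
                (CovZ.leaf K2_ok TB_l14414 _))
               (CovZ.n1 (-23544, 7944) (by decide +kernel)
                (CovZ.leaf K2_ok TB_l14415 _)
                (CovZ.n1 (-23544, 7920) (by decide +kernel)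
                 (CovZ.leaf K2_ok TB_l14416 _)
                 (CovZ.leaf K2_ok TB_l14417 _))))
              (CovZ.n1 (-23568, 7872) (by decide +kernel)
               (CovZ.n2 (-23592, 7896) (by decide +kernel)
                (CovZ.n2 (-23568, 7896) (by decide +kernel)
                 (CovZ.badM (by decide +kernel))
                 (CovZ.leaf K2_ok TB_l40346 _))
                (CovZ.badM (by decide +kernel)))
               (CovZ.n1 (-23544, 7896) (by decide +kernel)
                (CovZ.n2 (-23544, 7872) (by decide +kernel)
                 (CovZ.leaf K2_ok TB_l40347 _)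
                 (CovZ.leaf K2_ok TB_l40348 _))
                (CovZ.leaf K2_ok TB_l40349 _))))
             (CovZ.n1 (-23472, 7920) (by decide +kernel)
              (CovZ.n2 (-23472, 7872) (by decide +kernel)
               (CovZ.n2 (-23496, 7896) (by decide +kernel)
                (CovZ.leaf K2_ok TB_l14418 _)
                (CovZ.n1 (-23496, 7872) (by decide +kernel)
                 (CovZ.leaf K2_ok TB_l40350 _)
                 (CovZ.leaf K2_ok TB_l40351 _)))
               (CovZ.n1 (-23448, 7896) (by decide +kernel)
                (CovZ.leaf K2_ok TB_l14419 _)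
                (CovZ.leaf K2_ok TB_l14420 _)))
              (CovZ.n1 (-23520, 7920) (by decide +kernel)
               (CovZ.leaf K2_ok TB_l14421 _)
               (CovZ.n1 (-23496, 7896) (by decide +kernel)
                (CovZ.leaf K2_ok TB_l14422 _)
                (CovZ.leaf K2_ok TB_l14423 _))))))))
         (CovZ.badM (by decide +kernel)))

theorem TB_u210 : CovZ TB_M (toL (selN TB_LN 631663411835949073612874453793856586222764746414018344609645603100363541944584054251758103724300103099705374806122628)) [0, 7, 6, 1] (-23424, 7680) (-23040, 7680) (-23424, 8064) :=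
    (CovZ.n1 (-23232, 7872) (by decide +kernel)
         (CovZ.subM 630432099142311746137490733790727098291356004561816299401272218931480840303261683124793310971259438294007985553285120 (by decide +kernel)
          (CovZ.n2 (-23232, 7680) (by decide +kernel)
           (CovZ.subM 630432099142311737388487834658679400801347096091330837988594495310693840895725641767900451660661662355240690051457024 (by decide +kernel)
            (CovZ.n2 (-23328, 7776) (by decide +kernel)
             (CovZ.n2 (-23232, 7776) (by decide +kernel)
              (CovZ.n2 (-23280, 7728) (by decide +kernel)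
               (CovZ.n2 (-23280, 7776) (by decide +kernel)
                (CovZ.n2 (-23256, 7752) (by decide +kernel)
                 (CovZ.leaf K2_ok TB_l14424 _)
                 (CovZ.leaf K2_ok TB_l14425 _))
                (CovZ.n1 (-23304, 7752) (by decide +kernel)
                 (CovZ.n2 (-23304, 7776) (by decide +kernel)
                  (CovZ.leaf K2_ok TB_l14426 _)
                  (CovZ.leaf K2_ok TB_l48681 _))
                 (CovZ.n1 (-23280, 7752) (by decide +kernel)
                  (CovZ.badM (by decide +kernel))
                  (CovZ.leaf K2_ok TB_l14427 _))))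
               (CovZ.n1 (-23232, 7728) (by decide +kernel)
                (CovZ.n2 (-23256, 7704) (by decide +kernel)
                 (CovZ.n2 (-23256, 7728) (by decide +kernel)
                  (CovZ.leaf K2_ok TB_l48682 _)
                  (CovZ.badM (by decide +kernel)))
                 (CovZ.n1 (-23232, 7704) (by decide +kernel)
                  (CovZ.badM (by decide +kernel))
                  (CovZ.leaf K2_ok TB_l48683 _)))
                (CovZ.n1 (-23256, 7752) (by decide +kernel)
                 (CovZ.leaf K2_ok TB_l14428 _)
                 (CovZ.n1 (-23256, 7728) (by decide +kernel)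
                  (CovZ.leaf K2_ok TB_l48684 _)
                  (CovZ.leaf K2_ok TB_l48685 _)))))
              (CovZ.n1 (-23280, 7824) (by decide +kernel)
               (CovZ.n2 (-23232, 7824) (by decide +kernel)
                (CovZ.leaf K2_ok TB_l14429 _)
                (CovZ.leaf K2_ok TB_l14430 _))
               (CovZ.n1 (-23280, 7776) (by decide +kernel)
                (CovZ.n2 (-23304, 7800) (by decide +kernel)
                 (CovZ.leaf K2_ok TB_l14431 _)
                 (CovZ.n1 (-23304, 7776) (by decide +kernel)
                  (CovZ.leaf K2_ok TB_l14432 _)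
                  (CovZ.leaf K2_ok TB_l14433 _)))
                (CovZ.n1 (-23256, 7800) (by decide +kernel)
                 (CovZ.leaf K2_ok TB_l14434 _)
                 (CovZ.leaf K2_ok TB_l14435 _)))))
             (CovZ.badM (by decide +kernel))))
           (CovZ.n1 (-23136, 7776) (by decide +kernel)
            (CovZ.n2 (-23136, 7680) (by decide +kernel)
             (CovZ.subM 630432099142311737388487834658679400801347096091330837988594495310693840895725641767900451660661662355240690051457024 (by decide +kernel)
              (CovZ.n2 (-23184, 7728) (by decide +kernel)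
               (CovZ.n2 (-23136, 7728) (by decide +kernel)
                (CovZ.n2 (-23160, 7704) (by decide +kernel)
                 (CovZ.n2 (-23160, 7728) (by decide +kernel)
                  (CovZ.leaf K2_ok TB_l14436 _)
                  (CovZ.leaf K2_ok TB_l14437 _))
                 (CovZ.leaf K2_ok TB_l14438 _))
                (CovZ.n1 (-23160, 7752) (by decide +kernel)
                 (CovZ.leaf K2_ok TB_l14439 _)
                 (CovZ.leaf K2_ok TB_l14440 _)))
               (CovZ.n1 (-23184, 7680) (by decide +kernel)
                (CovZ.n2 (-23208, 7704) (by decide +kernel)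
                 (CovZ.leaf K2_ok TB_l14441 _)
                 (CovZ.badM (by decide +kernel)))
                (CovZ.n1 (-23160, 7704) (by decide +kernel)
                 (CovZ.n2 (-23160, 7680) (by decide +kernel)
                  (CovZ.leaf K2_ok TB_l14442 _)
                  (CovZ.leaf K2_ok TB_l14443 _))
                 (CovZ.leaf K2_ok TB_l14444 _)))))
             (CovZ.n1 (-23088, 7728) (by decide +kernel)
              (CovZ.n2 (-23088, 7680) (by decide +kernel)
               (CovZ.n2 (-23112, 7704) (by decide +kernel)
                (CovZ.leaf K2_ok TB_l14445 _)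
                (CovZ.n1 (-23112, 7680) (by decide +kernel)
                 (CovZ.leaf K2_ok TB_l14446 _)
                 (CovZ.leaf K2_ok TB_l14447 _)))
               (CovZ.leaf K2_ok TB_l14448 _))
              (CovZ.n1 (-23136, 7728) (by decide +kernel)
               (CovZ.leaf K2_ok TB_l14449 _)
               (CovZ.n1 (-23112, 7704) (by decide +kernel)
                (CovZ.leaf K2_ok TB_l14450 _)
                (CovZ.leaf K2_ok TB_l14451 _)))))
            (CovZ.subM 630432099142311737388487834658679400801347096091330837988594495310693840895725641767900451660661662355240690051457024 (by decide +kernel)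
             (CovZ.n1 (-23232, 7776) (by decide +kernel)
              (CovZ.n2 (-23184, 7824) (by decide +kernel)
               (CovZ.n2 (-23184, 7776) (by decide +kernel)
                (CovZ.leaf K2_ok TB_l14452 _)
                (CovZ.leaf K2_ok TB_l14453 _))
               (CovZ.n1 (-23232, 7824) (by decide +kernel)
                (CovZ.leaf K2_ok TB_l14454 _)
                (CovZ.leaf K2_ok TB_l14455 _)))
              (CovZ.n1 (-23184, 7728) (by decide +kernel)
               (CovZ.n2 (-23232, 7728) (by decide +kernel)
                (CovZ.n2 (-23208, 7752) (by decide +kernel)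
                 (CovZ.n2 (-23208, 7728) (by decide +kernel)
                  (CovZ.leaf K2_ok TB_l14456 _)
                  (CovZ.leaf K2_ok TB_l14457 _))
                 (CovZ.leaf K2_ok TB_l14458 _))
                (CovZ.n1 (-23208, 7704) (by decide +kernel)
                 (CovZ.n2 (-23232, 7704) (by decide +kernel)
                  (CovZ.leaf K2_ok TB_l48686 _)
                  (CovZ.badM (by decide +kernel)))
                 (CovZ.n1 (-23208, 7728) (by decide +kernel)
                  (CovZ.leaf K2_ok TB_l14459 _)
                  (CovZ.leaf K2_ok TB_l48687 _))))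
               (CovZ.n1 (-23184, 7776) (by decide +kernel)
                (CovZ.n2 (-23160, 7752) (by decide +kernel)
                 (CovZ.leaf K2_ok TB_l14460 _)
                 (CovZ.leaf K2_ok TB_l14461 _))
                (CovZ.n1 (-23208, 7752) (by decide +kernel)
                 (CovZ.leaf K2_ok TB_l14462 _)
                 (CovZ.leaf K2_ok TB_l14463 _)))))))))
         (CovZ.n1 (-23424, 7872) (by decide +kernel)
          (CovZ.n2 (-23328, 7968) (by decide +kernel)
           (CovZ.subM 630432099142311737388487834658679400801347096091330837988594495310693840895725641767900451660661662355240690051457024 (by decide +kernel)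
            (CovZ.n2 (-23328, 7872) (by decide +kernel)
             (CovZ.n2 (-23376, 7920) (by decide +kernel)
              (CovZ.leaf K2_ok TB_l14464 _)
              (CovZ.n1 (-23376, 7872) (by decide +kernel)
               (CovZ.leaf K2_ok TB_l14465 _)
               (CovZ.leaf K2_ok TB_l14466 _)))
             (CovZ.n1 (-23280, 7920) (by decide +kernel)
              (CovZ.n2 (-23280, 7872) (by decide +kernel)
               (CovZ.leaf K2_ok TB_l14467 _)
               (CovZ.leaf K2_ok TB_l14468 _))
              (CovZ.leaf K2_ok TB_l14469 _))))
           (CovZ.n1 (-23424, 7968) (by decide +kernel)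
            (CovZ.n2 (-23376, 8016) (by decide +kernel)
             (CovZ.leaf K2_ok TB_l14470 _)
             (CovZ.leaf K2_ok TB_l14471 _))
            (CovZ.subM 630432099142311737388487834658679400801347096091330837988594495310693840895725641767900451660661662355240690051457024 (by decide +kernel)
             (CovZ.n1 (-23376, 7920) (by decide +kernel)
              (CovZ.n2 (-23424, 7920) (by decide +kernel)
               (CovZ.leaf K2_ok TB_l14472 _)
               (CovZ.leaf K2_ok TB_l14473 _))
              (CovZ.n1 (-23376, 7968) (by decide +kernel)
               (CovZ.leaf K2_ok TB_l14474 _)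
               (CovZ.leaf K2_ok TB_l14475 _))))))
          (CovZ.subM 630432099142311737388487834658679400801347096091330837988594495310693840895725641767900451660661662355240690051457024 (by decide +kernel)
           (CovZ.n1 (-23328, 7776) (by decide +kernel)
            (CovZ.n2 (-23424, 7776) (by decide +kernel)
             (CovZ.n2 (-23376, 7824) (by decide +kernel)
              (CovZ.n2 (-23376, 7776) (by decide +kernel)
               (CovZ.n2 (-23400, 7800) (by decide +kernel)
                (CovZ.leaf K2_ok TB_l40352 _)
                (CovZ.badM (by decide +kernel)))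
               (CovZ.n1 (-23352, 7800) (by decide +kernel)
                (CovZ.badM (by decide +kernel))
                (CovZ.leaf K2_ok TB_l40353 _)))
              (CovZ.n1 (-23424, 7824) (by decide +kernel)
               (CovZ.n2 (-23400, 7848) (by decide +kernel)
                (CovZ.n2 (-23400, 7824) (by decide +kernel)
                 (CovZ.leaf K2_ok TB_l14476 _)
                 (CovZ.leaf K2_ok TB_l14477 _))
                (CovZ.leaf K2_ok TB_l14478 _))
               (CovZ.n1 (-23400, 7800) (by decide +kernel)
                (CovZ.badM (by decide +kernel))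
                (CovZ.n1 (-23400, 7824) (by decide +kernel)
                 (CovZ.leaf K2_ok TB_l40354 _)
                 (CovZ.badM (by decide +kernel))))))
             (CovZ.badM (by decide +kernel)))
            (CovZ.n1 (-23328, 7872) (by decide +kernel)
             (CovZ.n2 (-23280, 7824) (by decide +kernel)
              (CovZ.n2 (-23328, 7824) (by decide +kernel)
               (CovZ.leaf K2_ok TB_l14479 _)
               (CovZ.n1 (-23304, 7800) (by decide +kernel)
                (CovZ.leaf K2_ok TB_l14480 _)
                (CovZ.leaf K2_ok TB_l14481 _)))
              (CovZ.n1 (-23280, 7872) (by decide +kernel)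
               (CovZ.leaf K2_ok TB_l14482 _)
               (CovZ.leaf K2_ok TB_l14483 _)))
             (CovZ.n1 (-23376, 7824) (by decide +kernel)
              (CovZ.n2 (-23376, 7872) (by decide +kernel)
               (CovZ.leaf K2_ok TB_l14484 _)
               (CovZ.n1 (-23400, 7848) (by decide +kernel)
                (CovZ.leaf K2_ok TB_l14485 _)
                (CovZ.leaf K2_ok TB_l14486 _)))
              (CovZ.n1 (-23328, 7824) (by decide +kernel)
               (CovZ.n2 (-23352, 7800) (by decide +kernel)
                (CovZ.leaf K2_ok TB_l14487 _)
                (CovZ.leaf K2_ok TB_l14488 _))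
               (CovZ.n1 (-23352, 7848) (by decide +kernel)
                (CovZ.leaf K2_ok TB_l14489 _)
                (CovZ.leaf K2_ok TB_l14490 _)))))))))

theorem TB_u211 : CovZ TB_M (toL (selN TB_LN 631665816743553874755644561705584789941734759178646356535621361607105257510044389977546015209725220878697343798485124)) [0, 7, 6, 1] (-24576, 7680) (-23808, 7680) (-23808, 8448) :=
    (CovZ.n2 (-24192, 8064) (by decide +kernel)
      (CovZ.n2 (-23808, 8064) (by decide +kernel)
       TB_u205
       TB_u206)
      (CovZ.subM 1231312693637327475383720003129487931408741852202045312020888023587551583391029087244339468531176280927435382325380 (by decide +kernel)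
       (CovZ.n1 (-24192, 7680) (by decide +kernel)
        (CovZ.n2 (-24384, 7872) (by decide +kernel)
         TB_u207
         TB_u208)
        (CovZ.n1 (-24000, 7872) (by decide +kernel)
         (CovZ.subM 803469022129495137770981046170581301261101496891396417650688 (by decide +kernel)
          (CovZ.n2 (-24000, 7680) (by decide +kernel)
           (CovZ.n2 (-24096, 7776) (by decide +kernel)
            (CovZ.n2 (-24000, 7776) (by decide +kernel)
             (CovZ.badM (by decide +kernel))
             (CovZ.n1 (-24048, 7824) (by decide +kernel)
              (CovZ.n2 (-24000, 7824) (by decide +kernel)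
               (CovZ.badM (by decide +kernel))
               (CovZ.n1 (-24024, 7848) (by decide +kernel)
                (CovZ.leaf K2_ok TB_l40293 _)
                (CovZ.badM (by decide +kernel))))
              (CovZ.badM (by decide +kernel))))
            (CovZ.badM (by decide +kernel)))
           (CovZ.n1 (-23904, 7776) (by decide +kernel)
            (CovZ.badM (by decide +kernel))
            (CovZ.n1 (-24000, 7776) (by decide +kernel)
             (CovZ.n2 (-23952, 7824) (by decide +kernel)
              (CovZ.badM (by decide +kernel))
              (CovZ.n1 (-24000, 7824) (by decide +kernel)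
               (CovZ.n2 (-23976, 7848) (by decide +kernel)
                (CovZ.badM (by decide +kernel))
                (CovZ.leaf K2_ok TB_l40294 _))
               (CovZ.badM (by decide +kernel))))
             (CovZ.badM (by decide +kernel))))))
         (CovZ.n1 (-24192, 7872) (by decide +kernel)
          (CovZ.n2 (-24096, 7968) (by decide +kernel)
           (CovZ.subM 103647503854704872772456554956004987862682093098990137876938752 (by decide +kernel)
            (CovZ.n2 (-24096, 7872) (by decide +kernel)
             (CovZ.n2 (-24144, 7920) (by decide +kernel)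
              (CovZ.n2 (-24096, 7920) (by decide +kernel)
               (CovZ.leaf K2_ok TB_l40295 _)
               (CovZ.n1 (-24120, 7944) (by decide +kernel)
                (CovZ.leaf K2_ok TB_l40296 _)
                (CovZ.leaf K2_ok TB_l40297 _)))
              (CovZ.n1 (-24144, 7872) (by decide +kernel)
               (CovZ.n2 (-24168, 7896) (by decide +kernel)
                (CovZ.leaf K2_ok TB_l40298 _)
                (CovZ.leaf K2_ok TB_l40299 _))
               (CovZ.n1 (-24120, 7896) (by decide +kernel)
                (CovZ.leaf K2_ok TB_l40300 _)
                (CovZ.leaf K2_ok TB_l40301 _))))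
             (CovZ.n1 (-24048, 7920) (by decide +kernel)
              (CovZ.n2 (-24048, 7872) (by decide +kernel)
               (CovZ.n2 (-24072, 7896) (by decide +kernel)
                (CovZ.leaf K2_ok TB_l40302 _)
                (CovZ.leaf K2_ok TB_l40303 _))
               (CovZ.n1 (-24024, 7896) (by decide +kernel)
                (CovZ.leaf K2_ok TB_l40304 _)
                (CovZ.leaf K2_ok TB_l40305 _)))
              (CovZ.n1 (-24096, 7920) (by decide +kernel)
               (CovZ.n2 (-24072, 7944) (by decide +kernel)
                (CovZ.leaf K2_ok TB_l40306 _)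
                (CovZ.leaf K2_ok TB_l40307 _))
               (CovZ.n1 (-24072, 7896) (by decide +kernel)
                (CovZ.leaf K2_ok TB_l40308 _)
                (CovZ.leaf K2_ok TB_l40309 _))))))
           (CovZ.n1 (-24192, 7968) (by decide +kernel)
            (CovZ.n2 (-24144, 8016) (by decide +kernel)
             (CovZ.n2 (-24144, 7968) (by decide +kernel)
              (CovZ.n2 (-24168, 7992) (by decide +kernel)
               (CovZ.leaf K2_ok TB_l14392 _)
               (CovZ.leaf K2_ok TB_l14393 _))
              (CovZ.n1 (-24120, 7992) (by decide +kernel)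
               (CovZ.leaf K2_ok TB_l14394 _)
               (CovZ.leaf K2_ok TB_l14395 _)))
             (CovZ.n1 (-24192, 8016) (by decide +kernel)
              (CovZ.n2 (-24168, 8040) (by decide +kernel)
               (CovZ.leaf K2_ok TB_l14396 _)
               (CovZ.leaf K2_ok TB_l14397 _))
              (CovZ.n1 (-24168, 7992) (by decide +kernel)
               (CovZ.leaf K2_ok TB_l14398 _)
               (CovZ.leaf K2_ok TB_l14399 _))))
            (CovZ.subM 103647503854704872772456554956004987862682093098990137876938752 (by decide +kernel)
             (CovZ.n1 (-24144, 7920) (by decide +kernel)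
              (CovZ.n2 (-24192, 7920) (by decide +kernel)
               (CovZ.leaf K2_ok TB_l14400 _)
               (CovZ.n1 (-24168, 7896) (by decide +kernel)
                (CovZ.leaf K2_ok TB_l40310 _)
                (CovZ.leaf K2_ok TB_l40311 _)))
              (CovZ.n1 (-24144, 7968) (by decide +kernel)
               (CovZ.n2 (-24120, 7944) (by decide +kernel)
                (CovZ.leaf K2_ok TB_l14401 _)
                (CovZ.leaf K2_ok TB_l14402 _))
               (CovZ.leaf K2_ok TB_l14403 _))))))
          (CovZ.subM 103647503854704872772456554956004987862682093098990137876938752 (by decide +kernel)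
           (CovZ.n1 (-24096, 7776) (by decide +kernel)
            (CovZ.n2 (-24192, 7776) (by decide +kernel)
             (CovZ.n2 (-24144, 7824) (by decide +kernel)
              (CovZ.n2 (-24144, 7776) (by decide +kernel)
               (CovZ.n2 (-24168, 7800) (by decide +kernel)
                (CovZ.leaf K2_ok TB_l40312 _)
                (CovZ.leaf K2_ok TB_l40313 _))
               (CovZ.n1 (-24120, 7800) (by decide +kernel)
                (CovZ.n2 (-24120, 7776) (by decide +kernel)
                 (CovZ.leaf K2_ok TB_l40314 _)
                 (CovZ.leaf K2_ok TB_l40315 _))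
                (CovZ.leaf K2_ok TB_l40316 _)))
              (CovZ.n1 (-24192, 7824) (by decide +kernel)
               (CovZ.n2 (-24168, 7848) (by decide +kernel)
                (CovZ.leaf K2_ok TB_l40317 _)
                (CovZ.leaf K2_ok TB_l40318 _))
               (CovZ.n1 (-24168, 7800) (by decide +kernel)
                (CovZ.leaf K2_ok TB_l40319 _)
                (CovZ.leaf K2_ok TB_l40320 _))))
             (CovZ.n1 (-24144, 7728) (by decide +kernel)
              (CovZ.n2 (-24192, 7728) (by decide +kernel)
               (CovZ.n2 (-24168, 7752) (by decide +kernel)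
                (CovZ.badM (by decide +kernel))
                (CovZ.leaf K2_ok TB_l40321 _))
               (CovZ.badM (by decide +kernel)))
              (CovZ.n1 (-24144, 7776) (by decide +kernel)
               (CovZ.n2 (-24120, 7752) (by decide +kernel)
                (CovZ.leaf K2_ok TB_l40322 _)
                (CovZ.leaf K2_ok TB_l40323 _))
               (CovZ.n1 (-24168, 7752) (by decide +kernel)
                (CovZ.leaf K2_ok TB_l40324 _)
                (CovZ.leaf K2_ok TB_l40325 _)))))
            (CovZ.n1 (-24096, 7872) (by decide +kernel)
             (CovZ.n2 (-24048, 7824) (by decide +kernel)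
              (CovZ.n2 (-24096, 7824) (by decide +kernel)
               (CovZ.n2 (-24072, 7848) (by decide +kernel)
                (CovZ.leaf K2_ok TB_l40326 _)
                (CovZ.leaf K2_ok TB_l40327 _))
               (CovZ.n1 (-24072, 7800) (by decide +kernel)
                (CovZ.leaf K2_ok TB_l40328 _)
                (CovZ.leaf K2_ok TB_l40329 _)))
              (CovZ.n1 (-24048, 7872) (by decide +kernel)
               (CovZ.n2 (-24024, 7848) (by decide +kernel)
                (CovZ.leaf K2_ok TB_l40330 _)
                (CovZ.leaf K2_ok TB_l40331 _))
               (CovZ.leaf K2_ok TB_l40332 _)))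
             (CovZ.n1 (-24144, 7824) (by decide +kernel)
              (CovZ.n2 (-24144, 7872) (by decide +kernel)
               (CovZ.n2 (-24120, 7848) (by decide +kernel)
                (CovZ.leaf K2_ok TB_l40333 _)
                (CovZ.leaf K2_ok TB_l40334 _))
               (CovZ.leaf K2_ok TB_l40335 _))
              (CovZ.n1 (-24096, 7824) (by decide +kernel)
               (CovZ.n2 (-24120, 7800) (by decide +kernel)
                (CovZ.leaf K2_ok TB_l40336 _)
                (CovZ.leaf K2_ok TB_l40337 _))
               (CovZ.n1 (-24120, 7848) (by decide +kernel)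
                (CovZ.leaf K2_ok TB_l40338 _)
                (CovZ.leaf K2_ok TB_l40339 _))))))))))))

theorem TB_u212 : CovZ TB_M (toL (selN TB_LN 631665816743553874755644561705584789941734759178646356535621361607105257510044389977546015209725220878697343798485124)) [0, 7, 6, 1] (-23808, 7680) (-23040, 7680) (-23808, 8448) :=
    (CovZ.n1 (-23424, 8064) (by decide +kernel)
      (CovZ.subM 631663411835949073612874453793856586222764746414018344609645603100363541944584054251758103724300103099705374806122628 (by decide +kernel)
       (CovZ.n2 (-23424, 7680) (by decide +kernel)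
        TB_u209
        TB_u210))
      (CovZ.n1 (-23808, 8064) (by decide +kernel)
       (CovZ.n2 (-23616, 8256) (by decide +kernel)
        (CovZ.subM 631663411835949064863871554661808888732755837943532883197771348501706014838855910645677728782387917465907293597999236 (by decide +kernel)
         (CovZ.n2 (-23616, 8064) (by decide +kernel)
          (CovZ.n2 (-23712, 8160) (by decide +kernel)
           (CovZ.n2 (-23616, 8160) (by decide +kernel)
            (CovZ.n2 (-23664, 8112) (by decide +kernel)
             (CovZ.leaf K2_ok TB_l14491 _)
             (CovZ.leaf K2_ok TB_l14492 _))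
            (CovZ.n1 (-23664, 8208) (by decide +kernel)
             (CovZ.leaf K2_ok TB_l14493 _)
             (CovZ.leaf K2_ok TB_l14494 _)))
           (CovZ.n1 (-23712, 8064) (by decide +kernel)
            (CovZ.n2 (-23760, 8112) (by decide +kernel)
             (CovZ.leaf K2_ok TB_l14495 _)
             (CovZ.n1 (-23760, 8064) (by decide +kernel)
              (CovZ.leaf K2_ok TB_l14496 _)
              (CovZ.leaf K2_ok TB_l14497 _)))
            (CovZ.n1 (-23664, 8112) (by decide +kernel)
             (CovZ.n2 (-23664, 8064) (by decide +kernel)
              (CovZ.leaf K2_ok TB_l14498 _)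
              (CovZ.leaf K2_ok TB_l14499 _))
             (CovZ.leaf K2_ok TB_l14500 _))))
          (CovZ.n1 (-23520, 8160) (by decide +kernel)
           (CovZ.n2 (-23520, 8064) (by decide +kernel)
            (CovZ.n2 (-23568, 8112) (by decide +kernel)
             (CovZ.leaf K2_ok TB_l14501 _)
             (CovZ.leaf K2_ok TB_l14502 _))
            (CovZ.n1 (-23472, 8112) (by decide +kernel)
             (CovZ.leaf K2_ok TB_l14503 _)
             (CovZ.leaf K2_ok TB_l14504 _)))
           (CovZ.n1 (-23616, 8160) (by decide +kernel)
            (CovZ.leaf K2_ok TB_l14505 _)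
            (CovZ.n1 (-23568, 8112) (by decide +kernel)
             (CovZ.leaf K2_ok TB_l14506 _)
             (CovZ.leaf K2_ok TB_l14507 _))))))
        (CovZ.n1 (-23808, 8256) (by decide +kernel)
         (CovZ.n2 (-23712, 8352) (by decide +kernel)
          (CovZ.n2 (-23712, 8256) (by decide +kernel)
           (CovZ.leaf K2_ok TB_l14508 _)
           (CovZ.leaf K2_ok TB_l14509 _))
          (CovZ.n1 (-23808, 8352) (by decide +kernel)
           (CovZ.leaf K2_ok TB_l14510 _)
           (CovZ.leaf K2_ok TB_l14511 _)))
         (CovZ.subM 631663411835949064863871554661808888732755837943532883300615383334281392473541484555512135343808909068006035057287300 (by decide +kernel)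
          (CovZ.n1 (-23712, 8160) (by decide +kernel)
           (CovZ.n2 (-23808, 8160) (by decide +kernel)
            (CovZ.n2 (-23760, 8208) (by decide +kernel)
             (CovZ.n2 (-23760, 8160) (by decide +kernel)
              (CovZ.leaf K2_ok TB_l14512 _)
              (CovZ.leaf K2_ok TB_l14513 _))
             (CovZ.leaf K2_ok TB_l14514 _))
            (CovZ.n1 (-23760, 8112) (by decide +kernel)
             (CovZ.n2 (-23808, 8112) (by decide +kernel)
              (CovZ.leaf K2_ok TB_l14515 _)
              (CovZ.leaf K2_ok TB_l14516 _))
             (CovZ.n1 (-23760, 8160) (by decide +kernel)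
              (CovZ.leaf K2_ok TB_l14517 _)
              (CovZ.leaf K2_ok TB_l14518 _))))
           (CovZ.n1 (-23712, 8256) (by decide +kernel)
            (CovZ.leaf K2_ok TB_l14519 _)
            (CovZ.leaf K2_ok TB_l14520 _))))))
       (CovZ.subM 631663411835949064863871554661808888732755837943532883197771348501706014838855910645677728782387917465907293597999236 (by decide +kernel)
        (CovZ.n1 (-23616, 7872) (by decide +kernel)
         (CovZ.n2 (-23808, 7872) (by decide +kernel)
          (CovZ.n2 (-23712, 7968) (by decide +kernel)
           (CovZ.badM (by decide +kernel))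
           (CovZ.n1 (-23808, 7968) (by decide +kernel)
            (CovZ.n2 (-23760, 8016) (by decide +kernel)
             (CovZ.n2 (-23760, 7968) (by decide +kernel)
              (CovZ.n2 (-23784, 7992) (by decide +kernel)
               (CovZ.n2 (-23760, 7992) (by decide +kernel)
                (CovZ.leaf K2_ok TB_l40355 _)
                (CovZ.leaf K2_ok TB_l14521 _))
               (CovZ.badM (by decide +kernel)))
              (CovZ.n1 (-23736, 7992) (by decide +kernel)
               (CovZ.n2 (-23736, 7968) (by decide +kernel)
                (CovZ.leaf K2_ok TB_l14522 _)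
                (CovZ.leaf K2_ok TB_l14523 _))
               (CovZ.n1 (-23760, 7992) (by decide +kernel)
                (CovZ.leaf K2_ok TB_l14524 _)
                (CovZ.leaf K2_ok TB_l14525 _))))
             (CovZ.n1 (-23808, 8016) (by decide +kernel)
              (CovZ.n2 (-23784, 8040) (by decide +kernel)
               (CovZ.n2 (-23784, 8016) (by decide +kernel)
                (CovZ.leaf K2_ok TB_l14526 _)
                (CovZ.leaf K2_ok TB_l14527 _))
               (CovZ.leaf K2_ok TB_l14528 _))
              (CovZ.n1 (-23784, 7992) (by decide +kernel)
               (CovZ.n2 (-23808, 7992) (by decide +kernel)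
                (CovZ.leaf K2_ok TB_l14529 _)
                (CovZ.badM (by decide +kernel)))
               (CovZ.n1 (-23784, 8016) (by decide +kernel)
                (CovZ.leaf K2_ok TB_l14530 _)
                (CovZ.leaf K2_ok TB_l14531 _)))))
            (CovZ.badM (by decide +kernel))))
          (CovZ.badM (by decide +kernel)))
         (CovZ.n1 (-23616, 8064) (by decide +kernel)
          (CovZ.n2 (-23520, 7968) (by decide +kernel)
           (CovZ.n2 (-23616, 7968) (by decide +kernel)
            (CovZ.n2 (-23568, 8016) (by decide +kernel)
             (CovZ.n2 (-23568, 7968) (by decide +kernel)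
              (CovZ.n2 (-23592, 7992) (by decide +kernel)
               (CovZ.leaf K2_ok TB_l14532 _)
               (CovZ.leaf K2_ok TB_l14533 _))
              (CovZ.leaf K2_ok TB_l14534 _))
             (CovZ.n1 (-23616, 8016) (by decide +kernel)
              (CovZ.leaf K2_ok TB_l14535 _)
              (CovZ.n1 (-23592, 7992) (by decide +kernel)
               (CovZ.leaf K2_ok TB_l14536 _)
               (CovZ.leaf K2_ok TB_l14537 _))))
            (CovZ.subM 630432099142311737388487834658679400801347096091330837988594495310693840895725641767900451660661662355240690051457024 (by decide +kernel)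
             (CovZ.n1 (-23568, 7920) (by decide +kernel)
              (CovZ.n2 (-23616, 7920) (by decide +kernel)
               (CovZ.n2 (-23592, 7944) (by decide +kernel)
                (CovZ.n2 (-23592, 7920) (by decide +kernel)
                 (CovZ.leaf K2_ok TB_l40356 _)
                 (CovZ.leaf K2_ok TB_l40357 _))
                (CovZ.leaf K2_ok TB_l40358 _))
               (CovZ.n1 (-23592, 7896) (by decide +kernel)
                (CovZ.badM (by decide +kernel))
                (CovZ.n1 (-23592, 7920) (by decide +kernel)
                 (CovZ.leaf K2_ok TB_l40359 _)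
                 (CovZ.leaf K2_ok TB_l40360 _))))
              (CovZ.n1 (-23568, 7968) (by decide +kernel)
               (CovZ.n2 (-23544, 7944) (by decide +kernel)
                (CovZ.leaf K2_ok TB_l14538 _)
                (CovZ.leaf K2_ok TB_l14539 _))
               (CovZ.n1 (-23592, 7944) (by decide +kernel)
                (CovZ.leaf K2_ok TB_l14540 _)
                (CovZ.leaf K2_ok TB_l14541 _))))))
           (CovZ.n1 (-23520, 8064) (by decide +kernel)
            (CovZ.n2 (-23472, 8016) (by decide +kernel)
             (CovZ.leaf K2_ok TB_l14542 _)
             (CovZ.leaf K2_ok TB_l14543 _))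
            (CovZ.n1 (-23568, 8016) (by decide +kernel)
             (CovZ.n2 (-23568, 8064) (by decide +kernel)
              (CovZ.leaf K2_ok TB_l14544 _)
              (CovZ.leaf K2_ok TB_l14545 _))
             (CovZ.leaf K2_ok TB_l14546 _))))
          (CovZ.n1 (-23712, 7968) (by decide +kernel)
           (CovZ.n2 (-23712, 8064) (by decide +kernel)
            (CovZ.n2 (-23664, 8016) (by decide +kernel)
             (CovZ.n2 (-23712, 8016) (by decide +kernel)
              (CovZ.leaf K2_ok TB_l14547 _)
              (CovZ.n1 (-23688, 7992) (by decide +kernel)
               (CovZ.leaf K2_ok TB_l14548 _)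
               (CovZ.leaf K2_ok TB_l14549 _)))
             (CovZ.n1 (-23664, 8064) (by decide +kernel)
              (CovZ.leaf K2_ok TB_l14550 _)
              (CovZ.leaf K2_ok TB_l14551 _)))
            (CovZ.n1 (-23760, 8016) (by decide +kernel)
             (CovZ.n2 (-23760, 8064) (by decide +kernel)
              (CovZ.n2 (-23736, 8040) (by decide +kernel)
               (CovZ.leaf K2_ok TB_l14552 _)
               (CovZ.leaf K2_ok TB_l14553 _))
              (CovZ.n1 (-23784, 8040) (by decide +kernel)
               (CovZ.leaf K2_ok TB_l14554 _)
               (CovZ.leaf K2_ok TB_l14555 _)))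
             (CovZ.n1 (-23712, 8016) (by decide +kernel)
              (CovZ.n2 (-23736, 7992) (by decide +kernel)
               (CovZ.n2 (-23736, 8016) (by decide +kernel)
                (CovZ.leaf K2_ok TB_l14556 _)
                (CovZ.leaf K2_ok TB_l14557 _))
               (CovZ.leaf K2_ok TB_l14558 _))
              (CovZ.n1 (-23736, 8040) (by decide +kernel)
               (CovZ.leaf K2_ok TB_l14559 _)
               (CovZ.n1 (-23736, 8016) (by decide +kernel)
                (CovZ.leaf K2_ok TB_l14560 _)
                (CovZ.leaf K2_ok TB_l14561 _))))))
           (CovZ.n1 (-23616, 7968) (by decide +kernel)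
            (CovZ.subM 69992023193056381579920071267763883691301421800842762292551770271985272191582503012102334642206547968 (by decide +kernel)
             (CovZ.n2 (-23664, 7920) (by decide +kernel)
              (CovZ.n2 (-23664, 7968) (by decide +kernel)
               (CovZ.n2 (-23640, 7944) (by decide +kernel)
                (CovZ.leaf K2_ok TB_l40361 _)
                (CovZ.leaf K2_ok TB_l40362 _))
               (CovZ.n1 (-23688, 7944) (by decide +kernel)
                (CovZ.n2 (-23688, 7968) (by decide +kernel)
                 (CovZ.leaf K2_ok TB_l40363 _)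
                 (CovZ.leaf K2_ok TB_l40364 _))
                (CovZ.n1 (-23664, 7944) (by decide +kernel)
                 (CovZ.badM (by decide +kernel))
                 (CovZ.leaf K2_ok TB_l40365 _))))
              (CovZ.n1 (-23616, 7920) (by decide +kernel)
               (CovZ.badM (by decide +kernel))
               (CovZ.n1 (-23640, 7944) (by decide +kernel)
                (CovZ.leaf K2_ok TB_l40366 _)
                (CovZ.n1 (-23640, 7920) (by decide +kernel)
                 (CovZ.leaf K2_ok TB_l40367 _)
                 (CovZ.leaf K2_ok TB_l40368 _))))))
            (CovZ.n1 (-23664, 8016) (by decide +kernel)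
             (CovZ.n2 (-23616, 8016) (by decide +kernel)
              (CovZ.leaf K2_ok TB_l14562 _)
              (CovZ.leaf K2_ok TB_l14563 _))
             (CovZ.n1 (-23664, 7968) (by decide +kernel)
              (CovZ.n2 (-23688, 7992) (by decide +kernel)
               (CovZ.leaf K2_ok TB_l14564 _)
               (CovZ.n1 (-23688, 7968) (by decide +kernel)
                (CovZ.leaf K2_ok TB_l14565 _)
                (CovZ.leaf K2_ok TB_l14566 _)))
              (CovZ.n1 (-23640, 7992) (by decide +kernel)
               (CovZ.n2 (-23640, 7968) (by decide +kernel)
                (CovZ.leaf K2_ok TB_l14567 _)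
                (CovZ.leaf K2_ok TB_l14568 _))
               (CovZ.leaf K2_ok TB_l14569 _)))))))))))

theorem TB_u213 : CovZ TB_M (toL (selN TB_LN 1231312693637433557043871979207819997766757056838264940738286344390718233265439969964800638263452621316521000706180)) [0, 7, 6, 1] (-24576, 8448) (-24576, 8064) (-24192, 8064) :=
    (CovZ.n2 (-24384, 8256) (by decide +kernel)
         (CovZ.n2 (-24384, 8064) (by decide +kernel)
          (CovZ.n2 (-24480, 8160) (by decide +kernel)
           (CovZ.n2 (-24384, 8160) (by decide +kernel)
            (CovZ.subM 1231312693637362471395316531320277891444375734143890962731782314986534390145545346859670873162018288976177374691460 (by decide +kernel)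
             (CovZ.n2 (-24432, 8112) (by decide +kernel)
              (CovZ.n2 (-24432, 8160) (by decide +kernel)
               (CovZ.leaf K2_ok TB_l14640 _)
               (CovZ.leaf K2_ok TB_l14641 _))
              (CovZ.n1 (-24384, 8112) (by decide +kernel)
               (CovZ.leaf K2_ok TB_l14642 _)
               (CovZ.n1 (-24408, 8136) (by decide +kernel)
                (CovZ.leaf K2_ok TB_l14643 _)
                (CovZ.leaf K2_ok TB_l14644 _)))))
            (CovZ.n1 (-24432, 8208) (by decide +kernel)
             (CovZ.n2 (-24384, 8208) (by decide +kernel)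
              (CovZ.leaf K2_ok TB_l14645 _)
              (CovZ.leaf K2_ok TB_l14646 _))
             (CovZ.n1 (-24432, 8160) (by decide +kernel)
              (CovZ.leaf K2_ok TB_l14647 _)
              (CovZ.leaf K2_ok TB_l14648 _))))
           (CovZ.n1 (-24480, 8064) (by decide +kernel)
            (CovZ.n2 (-24528, 8112) (by decide +kernel)
             (CovZ.n2 (-24480, 8112) (by decide +kernel)
              (CovZ.leaf K2_ok TB_l14649 _)
              (CovZ.leaf K2_ok TB_l14650 _))
             (CovZ.n1 (-24528, 8064) (by decide +kernel)
              (CovZ.leaf K2_ok TB_l14651 _)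
              (CovZ.leaf K2_ok TB_l14652 _)))
            (CovZ.subM 1231312693637362471395316531320277891444375734143890962731782314986534390145545346859670873162018288976177374691460 (by decide +kernel)
             (CovZ.n1 (-24432, 8112) (by decide +kernel)
              (CovZ.n2 (-24432, 8064) (by decide +kernel)
               (CovZ.n2 (-24456, 8088) (by decide +kernel)
                (CovZ.leaf K2_ok TB_l14653 _)
                (CovZ.leaf K2_ok TB_l14654 _))
               (CovZ.leaf K2_ok TB_l14655 _))
              (CovZ.n1 (-24480, 8112) (by decide +kernel)
               (CovZ.leaf K2_ok TB_l14656 _)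
               (CovZ.leaf K2_ok TB_l14657 _))))))
          (CovZ.n1 (-24288, 8160) (by decide +kernel)
           (CovZ.subM 1231312693637362471395316531320277891444375734143890962731782314986534390145545346859670873162018288976177374691460 (by decide +kernel)
            (CovZ.n2 (-24288, 8064) (by decide +kernel)
             (CovZ.n2 (-24336, 8112) (by decide +kernel)
              (CovZ.n2 (-24288, 8112) (by decide +kernel)
               (CovZ.leaf K2_ok TB_l14658 _)
               (CovZ.n1 (-24312, 8136) (by decide +kernel)
                (CovZ.leaf K2_ok TB_l14659 _)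
                (CovZ.leaf K2_ok TB_l14660 _)))
              (CovZ.n1 (-24336, 8064) (by decide +kernel)
               (CovZ.leaf K2_ok TB_l14661 _)
               (CovZ.leaf K2_ok TB_l14662 _)))
             (CovZ.n1 (-24240, 8112) (by decide +kernel)
              (CovZ.n2 (-24240, 8064) (by decide +kernel)
               (CovZ.n2 (-24264, 8088) (by decide +kernel)
                (CovZ.leaf K2_ok TB_l14663 _)
                (CovZ.leaf K2_ok TB_l14664 _))
               (CovZ.n1 (-24216, 8088) (by decide +kernel)
                (CovZ.leaf K2_ok TB_l14665 _)
                (CovZ.leaf K2_ok TB_l14666 _)))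
              (CovZ.n1 (-24288, 8112) (by decide +kernel)
               (CovZ.n2 (-24264, 8136) (by decide +kernel)
                (CovZ.leaf K2_ok TB_l14667 _)
                (CovZ.leaf K2_ok TB_l14668 _))
               (CovZ.n1 (-24264, 8088) (by decide +kernel)
                (CovZ.leaf K2_ok TB_l14669 _)
                (CovZ.leaf K2_ok TB_l14670 _))))))
           (CovZ.n1 (-24384, 8160) (by decide +kernel)
            (CovZ.n2 (-24336, 8208) (by decide +kernel)
             (CovZ.n2 (-24336, 8160) (by decide +kernel)
              (CovZ.leaf K2_ok TB_l14671 _)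
              (CovZ.leaf K2_ok TB_l14672 _))
             (CovZ.n1 (-24384, 8208) (by decide +kernel)
              (CovZ.leaf K2_ok TB_l14673 _)
              (CovZ.leaf K2_ok TB_l14674 _)))
            (CovZ.subM 1231312693637362471395316531320277891444375734143890962731782314986534390145545346859670873162018288976177374691460 (by decide +kernel)
             (CovZ.n1 (-24336, 8112) (by decide +kernel)
              (CovZ.n2 (-24384, 8112) (by decide +kernel)
               (CovZ.leaf K2_ok TB_l14675 _)
               (CovZ.leaf K2_ok TB_l14676 _))
              (CovZ.n1 (-24336, 8160) (by decide +kernel)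
               (CovZ.leaf K2_ok TB_l14677 _)
               (CovZ.leaf K2_ok TB_l14678 _)))))))
         (CovZ.n1 (-24576, 8256) (by decide +kernel)
          (CovZ.n2 (-24480, 8352) (by decide +kernel)
           (CovZ.n2 (-24480, 8256) (by decide +kernel)
            (CovZ.n2 (-24528, 8304) (by decide +kernel)
             (CovZ.leaf K2_ok TB_l14679 _)
             (CovZ.n1 (-24528, 8256) (by decide +kernel)
              (CovZ.leaf K2_ok TB_l14680 _)
              (CovZ.leaf K2_ok TB_l14681 _)))
            (CovZ.n1 (-24432, 8304) (by decide +kernel)
             (CovZ.n2 (-24432, 8256) (by decide +kernel)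
              (CovZ.leaf K2_ok TB_l14682 _)
              (CovZ.leaf K2_ok TB_l14683 _))
             (CovZ.leaf K2_ok TB_l14684 _)))
           (CovZ.n1 (-24576, 8352) (by decide +kernel)
            (CovZ.n2 (-24528, 8400) (by decide +kernel)
             (CovZ.n2 (-24528, 8352) (by decide +kernel)
              (CovZ.leaf K2_ok TB_l14685 _)
              (CovZ.leaf K2_ok TB_l14686 _))
             (CovZ.leaf K2_ok TB_l14687 _))
            (CovZ.n1 (-24528, 8304) (by decide +kernel)
             (CovZ.leaf K2_ok TB_l14688 _)
             (CovZ.n1 (-24528, 8352) (by decide +kernel)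
              (CovZ.leaf K2_ok TB_l14689 _)
              (CovZ.leaf K2_ok TB_l14690 _)))))
          (CovZ.n1 (-24480, 8160) (by decide +kernel)
           (CovZ.n2 (-24576, 8160) (by decide +kernel)
            (CovZ.n2 (-24528, 8208) (by decide +kernel)
             (CovZ.n2 (-24528, 8160) (by decide +kernel)
              (CovZ.leaf K2_ok TB_l14691 _)
              (CovZ.leaf K2_ok TB_l14692 _))
             (CovZ.leaf K2_ok TB_l14693 _))
            (CovZ.n1 (-24528, 8112) (by decide +kernel)
             (CovZ.n2 (-24576, 8112) (by decide +kernel)
              (CovZ.leaf K2_ok TB_l14694 _)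
              (CovZ.leaf K2_ok TB_l14695 _))
             (CovZ.n1 (-24528, 8160) (by decide +kernel)
              (CovZ.leaf K2_ok TB_l14696 _)
              (CovZ.leaf K2_ok TB_l14697 _))))
           (CovZ.n1 (-24480, 8256) (by decide +kernel)
            (CovZ.n2 (-24432, 8208) (by decide +kernel)
             (CovZ.n2 (-24480, 8208) (by decide +kernel)
              (CovZ.leaf K2_ok TB_l14698 _)
              (CovZ.leaf K2_ok TB_l14699 _))
             (CovZ.n1 (-24432, 8256) (by decide +kernel)
              (CovZ.leaf K2_ok TB_l14700 _)
              (CovZ.leaf K2_ok TB_l14701 _)))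
            (CovZ.n1 (-24528, 8208) (by decide +kernel)
             (CovZ.n2 (-24528, 8256) (by decide +kernel)
              (CovZ.leaf K2_ok TB_l14702 _)
              (CovZ.leaf K2_ok TB_l14703 _))
             (CovZ.leaf K2_ok TB_l14704 _))))))

theorem TB_u214 : CovZ TB_M (toL (selN TB_LN 1231312693637433557043871979207819997766757056838264940738286344390718233265439969964800638263452621316521000706180)) [0, 7, 6, 1] (-24576, 8064) (-24576, 7680) (-24192, 8064) :=
    (CovZ.subM 1231312693637327475383720003129487931408741852202045312020888023587551583391029087244339468531176280927435382325380 (by decide +kernel)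
         (CovZ.n1 (-24384, 7872) (by decide +kernel)
          (CovZ.n2 (-24576, 7872) (by decide +kernel)
           (CovZ.n2 (-24480, 7968) (by decide +kernel)
            (CovZ.subM 103647503854704872778031741255637643648066022667152228253433856 (by decide +kernel)
             (CovZ.n2 (-24480, 7872) (by decide +kernel)
              (CovZ.n2 (-24528, 7920) (by decide +kernel)
               (CovZ.n2 (-24480, 7920) (by decide +kernel)
                (CovZ.leaf K2_ok TB_l14705 _)
                (CovZ.leaf K2_ok TB_l14706 _))
               (CovZ.n1 (-24528, 7872) (by decide +kernel)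
                (CovZ.leaf K2_ok TB_l14707 _)
                (CovZ.leaf K2_ok TB_l14708 _)))
              (CovZ.n1 (-24432, 7920) (by decide +kernel)
               (CovZ.n2 (-24432, 7872) (by decide +kernel)
                (CovZ.n2 (-24456, 7896) (by decide +kernel)
                 (CovZ.leaf K2_ok TB_l14709 _)
                 (CovZ.leaf K2_ok TB_l14710 _))
                (CovZ.n1 (-24408, 7896) (by decide +kernel)
                 (CovZ.leaf K2_ok TB_l40369 _)
                 (CovZ.leaf K2_ok TB_l40370 _)))
               (CovZ.n1 (-24480, 7920) (by decide +kernel)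
                (CovZ.leaf K2_ok TB_l14711 _)
                (CovZ.n1 (-24456, 7896) (by decide +kernel)
                 (CovZ.leaf K2_ok TB_l14712 _)
                 (CovZ.leaf K2_ok TB_l14713 _))))))
            (CovZ.n1 (-24576, 7968) (by decide +kernel)
             (CovZ.n2 (-24528, 8016) (by decide +kernel)
              (CovZ.n2 (-24528, 7968) (by decide +kernel)
               (CovZ.leaf K2_ok TB_l14714 _)
               (CovZ.leaf K2_ok TB_l14715 _))
              (CovZ.n1 (-24576, 8016) (by decide +kernel)
               (CovZ.leaf K2_ok TB_l14716 _)
               (CovZ.leaf K2_ok TB_l14717 _)))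
             (CovZ.subM 103647503854704872778031741255637643648066022667152228253433856 (by decide +kernel)
              (CovZ.n1 (-24528, 7920) (by decide +kernel)
               (CovZ.n2 (-24576, 7920) (by decide +kernel)
                (CovZ.leaf K2_ok TB_l14718 _)
                (CovZ.leaf K2_ok TB_l14719 _))
               (CovZ.n1 (-24528, 7968) (by decide +kernel)
                (CovZ.leaf K2_ok TB_l14720 _)
                (CovZ.leaf K2_ok TB_l14721 _))))))
           (CovZ.subM 103647503854704872778031741255637643648066022667152228253433856 (by decide +kernel)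
            (CovZ.n1 (-24480, 7776) (by decide +kernel)
             (CovZ.n2 (-24576, 7776) (by decide +kernel)
              (CovZ.n2 (-24528, 7824) (by decide +kernel)
               (CovZ.n2 (-24528, 7776) (by decide +kernel)
                (CovZ.n2 (-24552, 7800) (by decide +kernel)
                 (CovZ.leaf K2_ok TB_l14722 _)
                 (CovZ.leaf K2_ok TB_l14723 _))
                (CovZ.n1 (-24504, 7800) (by decide +kernel)
                 (CovZ.leaf K2_ok TB_l14724 _)
                 (CovZ.leaf K2_ok TB_l14725 _)))
               (CovZ.n1 (-24576, 7824) (by decide +kernel)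
                (CovZ.leaf K2_ok TB_l14726 _)
                (CovZ.n1 (-24552, 7800) (by decide +kernel)
                 (CovZ.leaf K2_ok TB_l14727 _)
                 (CovZ.leaf K2_ok TB_l14728 _))))
              (CovZ.n1 (-24528, 7728) (by decide +kernel)
               (CovZ.n2 (-24576, 7728) (by decide +kernel)
                (CovZ.n2 (-24552, 7752) (by decide +kernel)
                 (CovZ.leaf K2_ok TB_l14729 _)
                 (CovZ.leaf K2_ok TB_l14730 _))
                (CovZ.n1 (-24552, 7704) (by decide +kernel)
                 (CovZ.leaf K2_ok TB_l40371 _)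
                 (CovZ.leaf K2_ok TB_l14731 _)))
               (CovZ.n1 (-24528, 7776) (by decide +kernel)
                (CovZ.n2 (-24504, 7752) (by decide +kernel)
                 (CovZ.leaf K2_ok TB_l14732 _)
                 (CovZ.leaf K2_ok TB_l14733 _))
                (CovZ.leaf K2_ok TB_l14734 _))))
             (CovZ.n1 (-24480, 7872) (by decide +kernel)
              (CovZ.n2 (-24432, 7824) (by decide +kernel)
               (CovZ.n2 (-24480, 7824) (by decide +kernel)
                (CovZ.n2 (-24456, 7848) (by decide +kernel)
                 (CovZ.leaf K2_ok TB_l14735 _)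
                 (CovZ.leaf K2_ok TB_l14736 _))
                (CovZ.n1 (-24456, 7800) (by decide +kernel)
                 (CovZ.leaf K2_ok TB_l14737 _)
                 (CovZ.leaf K2_ok TB_l14738 _)))
               (CovZ.n1 (-24432, 7872) (by decide +kernel)
                (CovZ.n2 (-24408, 7848) (by decide +kernel)
                 (CovZ.leaf K2_ok TB_l40372 _)
                 (CovZ.leaf K2_ok TB_l40373 _))
                (CovZ.leaf K2_ok TB_l14739 _)))
              (CovZ.n1 (-24528, 7824) (by decide +kernel)
               (CovZ.n2 (-24528, 7872) (by decide +kernel)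
                (CovZ.leaf K2_ok TB_l14740 _)
                (CovZ.leaf K2_ok TB_l14741 _))
               (CovZ.n1 (-24480, 7824) (by decide +kernel)
                (CovZ.leaf K2_ok TB_l14742 _)
                (CovZ.leaf K2_ok TB_l14743 _)))))))
          (CovZ.n1 (-24384, 8064) (by decide +kernel)
           (CovZ.n2 (-24288, 7968) (by decide +kernel)
            (CovZ.n2 (-24384, 7968) (by decide +kernel)
             (CovZ.n2 (-24336, 8016) (by decide +kernel)
              (CovZ.n2 (-24336, 7968) (by decide +kernel)
               (CovZ.leaf K2_ok TB_l14744 _)
               (CovZ.leaf K2_ok TB_l14745 _))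
              (CovZ.n1 (-24384, 8016) (by decide +kernel)
               (CovZ.leaf K2_ok TB_l14746 _)
               (CovZ.leaf K2_ok TB_l14747 _)))
             (CovZ.subM 103647503854704872772456554956004987862682093098990137876938752 (by decide +kernel)
              (CovZ.n1 (-24336, 7920) (by decide +kernel)
               (CovZ.n2 (-24384, 7920) (by decide +kernel)
                (CovZ.leaf K2_ok TB_l14748 _)
                (CovZ.n1 (-24360, 7896) (by decide +kernel)
                 (CovZ.leaf K2_ok TB_l40374 _)
                 (CovZ.leaf K2_ok TB_l40375 _)))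
               (CovZ.n1 (-24336, 7968) (by decide +kernel)
                (CovZ.leaf K2_ok TB_l14749 _)
                (CovZ.leaf K2_ok TB_l14750 _)))))
            (CovZ.n1 (-24288, 8064) (by decide +kernel)
             (CovZ.n2 (-24240, 8016) (by decide +kernel)
              (CovZ.n2 (-24288, 8016) (by decide +kernel)
               (CovZ.n2 (-24264, 8040) (by decide +kernel)
                (CovZ.leaf K2_ok TB_l14751 _)
                (CovZ.leaf K2_ok TB_l14752 _))
               (CovZ.n1 (-24264, 7992) (by decide +kernel)
                (CovZ.leaf K2_ok TB_l14753 _)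
                (CovZ.leaf K2_ok TB_l14754 _)))
              (CovZ.n1 (-24240, 8064) (by decide +kernel)
               (CovZ.n2 (-24216, 8040) (by decide +kernel)
                (CovZ.leaf K2_ok TB_l14755 _)
                (CovZ.leaf K2_ok TB_l14756 _))
               (CovZ.n1 (-24264, 8040) (by decide +kernel)
                (CovZ.leaf K2_ok TB_l14757 _)
                (CovZ.leaf K2_ok TB_l14758 _))))
             (CovZ.n1 (-24336, 8016) (by decide +kernel)
              (CovZ.n2 (-24336, 8064) (by decide +kernel)
               (CovZ.leaf K2_ok TB_l14759 _)
               (CovZ.leaf K2_ok TB_l14760 _))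
              (CovZ.n1 (-24288, 8016) (by decide +kernel)
               (CovZ.leaf K2_ok TB_l14761 _)
               (CovZ.leaf K2_ok TB_l14762 _)))))
           (CovZ.n1 (-24480, 7968) (by decide +kernel)
            (CovZ.n2 (-24480, 8064) (by decide +kernel)
             (CovZ.n2 (-24432, 8016) (by decide +kernel)
              (CovZ.n2 (-24480, 8016) (by decide +kernel)
               (CovZ.leaf K2_ok TB_l14763 _)
               (CovZ.n1 (-24456, 7992) (by decide +kernel)
                (CovZ.leaf K2_ok TB_l14764 _)
                (CovZ.leaf K2_ok TB_l14765 _)))
              (CovZ.n1 (-24432, 8064) (by decide +kernel)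
               (CovZ.leaf K2_ok TB_l14766 _)
               (CovZ.leaf K2_ok TB_l14767 _)))
             (CovZ.n1 (-24528, 8016) (by decide +kernel)
              (CovZ.n2 (-24528, 8064) (by decide +kernel)
               (CovZ.leaf K2_ok TB_l14768 _)
               (CovZ.leaf K2_ok TB_l14769 _))
              (CovZ.n1 (-24480, 8016) (by decide +kernel)
               (CovZ.leaf K2_ok TB_l14770 _)
               (CovZ.leaf K2_ok TB_l14771 _))))
            (CovZ.n1 (-24384, 7968) (by decide +kernel)
             (CovZ.subM 103647503854704872772456554956004987862682093098990137876938752 (by decide +kernel)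
              (CovZ.n2 (-24432, 7920) (by decide +kernel)
               (CovZ.n2 (-24432, 7968) (by decide +kernel)
                (CovZ.n2 (-24408, 7944) (by decide +kernel)
                 (CovZ.leaf K2_ok TB_l14772 _)
                 (CovZ.leaf K2_ok TB_l14773 _))
                (CovZ.leaf K2_ok TB_l14774 _))
               (CovZ.n1 (-24384, 7920) (by decide +kernel)
                (CovZ.leaf K2_ok TB_l40376 _)
                (CovZ.leaf K2_ok TB_l14775 _))))
             (CovZ.n1 (-24432, 8016) (by decide +kernel)
              (CovZ.n2 (-24384, 8016) (by decide +kernel)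
               (CovZ.leaf K2_ok TB_l14776 _)
               (CovZ.leaf K2_ok TB_l14777 _))
              (CovZ.n1 (-24432, 7968) (by decide +kernel)
               (CovZ.n2 (-24456, 7992) (by decide +kernel)
                (CovZ.leaf K2_ok TB_l14778 _)
                (CovZ.leaf K2_ok TB_l14779 _))
               (CovZ.leaf K2_ok TB_l14780 _))))))))

theorem TB_u215 : CovZ TB_M (toL (selN TB_LN 631665816743553874755644561705584789941734759178646356535621361607105257510044389977546015209725220878697343798747268)) [0, 7, 6, 1] (-24576, 9216) (-24576, 8448) (-23808, 8448) :=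
    (CovZ.n2 (-24192, 8832) (by decide +kernel)
      (CovZ.n2 (-24192, 8448) (by decide +kernel)
       (CovZ.n2 (-24384, 8640) (by decide +kernel)
        (CovZ.subM 631663411835949100953508513581505640879042585384285411627910980812322631947054956178689955852246352376815392452255876 (by decide +kernel)
         (CovZ.n2 (-24192, 8640) (by decide +kernel)
          (CovZ.n2 (-24288, 8544) (by decide +kernel)
           (CovZ.n2 (-24288, 8640) (by decide +kernel)
            (CovZ.leaf K2_ok TB_l14570 _)
            (CovZ.leaf K2_ok TB_l14571 _))
           (CovZ.n1 (-24192, 8544) (by decide +kernel)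
            (CovZ.leaf K2_ok TB_l14572 _)
            (CovZ.leaf K2_ok TB_l14573 _)))
          (CovZ.n1 (-24288, 8736) (by decide +kernel)
           (CovZ.n2 (-24192, 8736) (by decide +kernel)
            (CovZ.leaf K2_ok TB_l14574 _)
            (CovZ.leaf K2_ok TB_l14575 _))
           (CovZ.n1 (-24288, 8640) (by decide +kernel)
            (CovZ.leaf K2_ok TB_l14576 _)
            (CovZ.leaf K2_ok TB_l14577 _)))))
        (CovZ.subM 631663411835949100953508513581505640879042585384285411627910980812322266577220809752593060716422102874222568845615236 (by decide +kernel)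
         (CovZ.n1 (-24384, 8448) (by decide +kernel)
          (CovZ.n2 (-24480, 8544) (by decide +kernel)
           (CovZ.n2 (-24384, 8544) (by decide +kernel)
            (CovZ.n2 (-24432, 8496) (by decide +kernel)
             (CovZ.leaf K2_ok TB_l14578 _)
             (CovZ.leaf K2_ok TB_l14579 _))
            (CovZ.n1 (-24432, 8592) (by decide +kernel)
             (CovZ.leaf K2_ok TB_l14580 _)
             (CovZ.leaf K2_ok TB_l14581 _)))
           (CovZ.n1 (-24480, 8448) (by decide +kernel)
            (CovZ.n2 (-24528, 8496) (by decide +kernel)
             (CovZ.leaf K2_ok TB_l14582 _)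
             (CovZ.n1 (-24528, 8448) (by decide +kernel)
              (CovZ.leaf K2_ok TB_l14583 _)
              (CovZ.leaf K2_ok TB_l14584 _)))
            (CovZ.n1 (-24432, 8496) (by decide +kernel)
             (CovZ.leaf K2_ok TB_l14585 _)
             (CovZ.leaf K2_ok TB_l14586 _))))
          (CovZ.n1 (-24288, 8544) (by decide +kernel)
           (CovZ.n2 (-24288, 8448) (by decide +kernel)
            (CovZ.n2 (-24336, 8496) (by decide +kernel)
             (CovZ.leaf K2_ok TB_l14587 _)
             (CovZ.leaf K2_ok TB_l14588 _))
            (CovZ.n1 (-24240, 8496) (by decide +kernel)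
             (CovZ.leaf K2_ok TB_l14589 _)
             (CovZ.leaf K2_ok TB_l14590 _)))
           (CovZ.n1 (-24384, 8544) (by decide +kernel)
            (CovZ.leaf K2_ok TB_l14591 _)
            (CovZ.n1 (-24336, 8496) (by decide +kernel)
             (CovZ.leaf K2_ok TB_l14592 _)
             (CovZ.leaf K2_ok TB_l14593 _)))))))
       (CovZ.n1 (-24000, 8640) (by decide +kernel)
        (CovZ.subM 631663411835949100953508513581505640879042585384285411627910993072286958874165823045466173054719821326728369920811140 (by decide +kernel)
         (CovZ.n2 (-24000, 8448) (by decide +kernel)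
          (CovZ.n2 (-24096, 8544) (by decide +kernel)
           (CovZ.leaf K2_ok TB_l14594 _)
           (CovZ.n1 (-24096, 8448) (by decide +kernel)
            (CovZ.leaf K2_ok TB_l14595 _)
            (CovZ.leaf K2_ok TB_l14596 _)))
          (CovZ.n1 (-23904, 8544) (by decide +kernel)
           (CovZ.n2 (-23904, 8448) (by decide +kernel)
            (CovZ.leaf K2_ok TB_l14597 _)
            (CovZ.leaf K2_ok TB_l14598 _))
           (CovZ.leaf K2_ok TB_l14599 _))))
        (CovZ.subM 631663411835949100953508513581505640879042585384285411627910980812322631947054956178689955852246352376815392452255876 (by decide +kernel)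
         (CovZ.n1 (-24192, 8640) (by decide +kernel)
          (CovZ.n2 (-24096, 8736) (by decide +kernel)
           (CovZ.n2 (-24096, 8640) (by decide +kernel)
            (CovZ.leaf K2_ok TB_l14600 _)
            (CovZ.leaf K2_ok TB_l14601 _))
           (CovZ.leaf K2_ok TB_l14602 _))
          (CovZ.n1 (-24096, 8544) (by decide +kernel)
           (CovZ.n2 (-24192, 8544) (by decide +kernel)
            (CovZ.leaf K2_ok TB_l14603 _)
            (CovZ.leaf K2_ok TB_l14604 _))
           (CovZ.n1 (-24096, 8640) (by decide +kernel)
            (CovZ.leaf K2_ok TB_l14605 _)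
            (CovZ.leaf K2_ok TB_l14606 _)))))))
      (CovZ.subM 631663411835949099859883151189999678692791471825474728951326265365716413739744839273346112037942320333220894317224068 (by decide +kernel)
       (CovZ.n1 (-24576, 8832) (by decide +kernel)
        (CovZ.n2 (-24384, 9024) (by decide +kernel)
         (CovZ.n2 (-24384, 8832) (by decide +kernel)
          (CovZ.n2 (-24480, 8928) (by decide +kernel)
           (CovZ.n2 (-24384, 8928) (by decide +kernel)
            (CovZ.leaf K2_ok TB_l14607 _)
            (CovZ.leaf K2_ok TB_l14608 _))
           (CovZ.n1 (-24480, 8832) (by decide +kernel)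
            (CovZ.leaf K2_ok TB_l14609 _)
            (CovZ.leaf K2_ok TB_l14610 _)))
          (CovZ.n1 (-24288, 8928) (by decide +kernel)
           (CovZ.n2 (-24288, 8832) (by decide +kernel)
            (CovZ.leaf K2_ok TB_l14611 _)
            (CovZ.leaf K2_ok TB_l14612 _))
           (CovZ.n1 (-24384, 8928) (by decide +kernel)
            (CovZ.leaf K2_ok TB_l14613 _)
            (CovZ.leaf K2_ok TB_l14614 _))))
         (CovZ.n1 (-24576, 9024) (by decide +kernel)
          (CovZ.n2 (-24480, 9120) (by decide +kernel)
           (CovZ.n2 (-24480, 9024) (by decide +kernel)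
            (CovZ.leaf K2_ok TB_l14615 _)
            (CovZ.leaf K2_ok TB_l14616 _))
           (CovZ.n1 (-24576, 9120) (by decide +kernel)
            (CovZ.leaf K2_ok TB_l14617 _)
            (CovZ.leaf K2_ok TB_l14618 _)))
          (CovZ.n1 (-24480, 8928) (by decide +kernel)
           (CovZ.n2 (-24576, 8928) (by decide +kernel)
            (CovZ.leaf K2_ok TB_l14619 _)
            (CovZ.leaf K2_ok TB_l14620 _))
           (CovZ.n1 (-24480, 9024) (by decide +kernel)
            (CovZ.leaf K2_ok TB_l14621 _)
            (CovZ.leaf K2_ok TB_l14622 _)))))
        (CovZ.n1 (-24384, 8640) (by decide +kernel)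
         (CovZ.n2 (-24576, 8640) (by decide +kernel)
          (CovZ.n2 (-24480, 8736) (by decide +kernel)
           (CovZ.n2 (-24480, 8640) (by decide +kernel)
            (CovZ.leaf K2_ok TB_l14623 _)
            (CovZ.leaf K2_ok TB_l14624 _))
           (CovZ.n1 (-24576, 8736) (by decide +kernel)
            (CovZ.leaf K2_ok TB_l14625 _)
            (CovZ.leaf K2_ok TB_l14626 _)))
          (CovZ.n1 (-24480, 8544) (by decide +kernel)
           (CovZ.n2 (-24576, 8544) (by decide +kernel)
            (CovZ.leaf K2_ok TB_l14627 _)
            (CovZ.n1 (-24528, 8496) (by decide +kernel)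
             (CovZ.leaf K2_ok TB_l14628 _)
             (CovZ.leaf K2_ok TB_l14629 _)))
           (CovZ.n1 (-24480, 8640) (by decide +kernel)
            (CovZ.n2 (-24432, 8592) (by decide +kernel)
             (CovZ.leaf K2_ok TB_l14630 _)
             (CovZ.leaf K2_ok TB_l14631 _))
            (CovZ.leaf K2_ok TB_l14632 _))))
         (CovZ.n1 (-24384, 8832) (by decide +kernel)
          (CovZ.n2 (-24288, 8736) (by decide +kernel)
           (CovZ.leaf K2_ok TB_l14633 _)
           (CovZ.n1 (-24288, 8832) (by decide +kernel)
            (CovZ.leaf K2_ok TB_l14634 _)
            (CovZ.leaf K2_ok TB_l14635 _)))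
          (CovZ.n1 (-24480, 8736) (by decide +kernel)
           (CovZ.n2 (-24480, 8832) (by decide +kernel)
            (CovZ.leaf K2_ok TB_l14636 _)
            (CovZ.leaf K2_ok TB_l14637 _))
           (CovZ.n1 (-24384, 8736) (by decide +kernel)
            (CovZ.leaf K2_ok TB_l14638 _)
            (CovZ.leaf K2_ok TB_l14639 _))))))))

theorem TB_u216 : CovZ TB_M (toL (selN TB_LN 631665816743553874755644561705584789941734759178646356535621361607105257510044389977546015209725220878697343798747268)) [0, 7, 6, 1] (-24576, 8448) (-24576, 7680) (-23808, 8448) :=
    (CovZ.n1 (-24192, 8064) (by decide +kernel)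
      (CovZ.subM 1231312693637433557043871979207819997766757056838264940738286344390718233265439969964800638263452621316521000706180 (by decide +kernel)
       (CovZ.n2 (-24576, 8064) (by decide +kernel)
        TB_u213
        TB_u214))
      (CovZ.n1 (-24192, 8448) (by decide +kernel)
       (CovZ.subM 631663411835949100953508513581505640879042585384285411627910993072286958874165823045466173054719821326728369920811140 (by decide +kernel)
        (CovZ.n2 (-24000, 8256) (by decide +kernel)
         (CovZ.n2 (-24192, 8256) (by decide +kernel)
          (CovZ.n2 (-24096, 8352) (by decide +kernel)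
           (CovZ.n2 (-24096, 8256) (by decide +kernel)
            (CovZ.n2 (-24144, 8304) (by decide +kernel)
             (CovZ.leaf K2_ok TB_l14781 _)
             (CovZ.n1 (-24144, 8256) (by decide +kernel)
              (CovZ.leaf K2_ok TB_l14782 _)
              (CovZ.leaf K2_ok TB_l14783 _)))
            (CovZ.n1 (-24048, 8304) (by decide +kernel)
             (CovZ.n2 (-24048, 8256) (by decide +kernel)
              (CovZ.leaf K2_ok TB_l14784 _)
              (CovZ.leaf K2_ok TB_l14785 _))
             (CovZ.leaf K2_ok TB_l14786 _)))
           (CovZ.n1 (-24192, 8352) (by decide +kernel)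
            (CovZ.n2 (-24144, 8400) (by decide +kernel)
             (CovZ.n2 (-24144, 8352) (by decide +kernel)
              (CovZ.leaf K2_ok TB_l14787 _)
              (CovZ.leaf K2_ok TB_l14788 _))
             (CovZ.leaf K2_ok TB_l14789 _))
            (CovZ.n1 (-24144, 8304) (by decide +kernel)
             (CovZ.n2 (-24192, 8304) (by decide +kernel)
              (CovZ.leaf K2_ok TB_l14790 _)
              (CovZ.leaf K2_ok TB_l14791 _))
             (CovZ.n1 (-24144, 8352) (by decide +kernel)
              (CovZ.leaf K2_ok TB_l14792 _)
              (CovZ.leaf K2_ok TB_l14793 _)))))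
          (CovZ.n1 (-24096, 8160) (by decide +kernel)
           (CovZ.n2 (-24192, 8160) (by decide +kernel)
            (CovZ.n2 (-24144, 8208) (by decide +kernel)
             (CovZ.n2 (-24144, 8160) (by decide +kernel)
              (CovZ.n2 (-24168, 8184) (by decide +kernel)
               (CovZ.leaf K2_ok TB_l14794 _)
               (CovZ.leaf K2_ok TB_l14795 _))
              (CovZ.n1 (-24120, 8184) (by decide +kernel)
               (CovZ.leaf K2_ok TB_l14796 _)
               (CovZ.leaf K2_ok TB_l14797 _)))
             (CovZ.n1 (-24192, 8208) (by decide +kernel)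
              (CovZ.n2 (-24168, 8232) (by decide +kernel)
               (CovZ.leaf K2_ok TB_l14798 _)
               (CovZ.leaf K2_ok TB_l14799 _))
              (CovZ.n1 (-24168, 8184) (by decide +kernel)
               (CovZ.leaf K2_ok TB_l14800 _)
               (CovZ.leaf K2_ok TB_l14801 _))))
            (CovZ.n1 (-24144, 8112) (by decide +kernel)
             (CovZ.n2 (-24192, 8112) (by decide +kernel)
              (CovZ.leaf K2_ok TB_l14802 _)
              (CovZ.n1 (-24168, 8088) (by decide +kernel)
               (CovZ.leaf K2_ok TB_l14803 _)
               (CovZ.leaf K2_ok TB_l14804 _)))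
             (CovZ.n1 (-24144, 8160) (by decide +kernel)
              (CovZ.n2 (-24120, 8136) (by decide +kernel)
               (CovZ.leaf K2_ok TB_l14805 _)
               (CovZ.leaf K2_ok TB_l14806 _))
              (CovZ.leaf K2_ok TB_l14807 _))))
           (CovZ.n1 (-24096, 8256) (by decide +kernel)
            (CovZ.n2 (-24048, 8208) (by decide +kernel)
             (CovZ.n2 (-24096, 8208) (by decide +kernel)
              (CovZ.leaf K2_ok TB_l14808 _)
              (CovZ.n1 (-24072, 8184) (by decide +kernel)
               (CovZ.leaf K2_ok TB_l14809 _)
               (CovZ.leaf K2_ok TB_l14810 _)))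
             (CovZ.n1 (-24048, 8256) (by decide +kernel)
              (CovZ.leaf K2_ok TB_l14811 _)
              (CovZ.leaf K2_ok TB_l14812 _)))
            (CovZ.n1 (-24144, 8208) (by decide +kernel)
             (CovZ.n2 (-24144, 8256) (by decide +kernel)
              (CovZ.n2 (-24120, 8232) (by decide +kernel)
               (CovZ.leaf K2_ok TB_l14813 _)
               (CovZ.leaf K2_ok TB_l14814 _))
              (CovZ.n1 (-24168, 8232) (by decide +kernel)
               (CovZ.leaf K2_ok TB_l14815 _)
               (CovZ.leaf K2_ok TB_l14816 _)))
             (CovZ.n1 (-24096, 8208) (by decide +kernel)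
              (CovZ.n2 (-24120, 8184) (by decide +kernel)
               (CovZ.leaf K2_ok TB_l14817 _)
               (CovZ.leaf K2_ok TB_l14818 _))
              (CovZ.n1 (-24120, 8232) (by decide +kernel)
               (CovZ.leaf K2_ok TB_l14819 _)
               (CovZ.leaf K2_ok TB_l14820 _)))))))
         (CovZ.n1 (-24000, 8448) (by decide +kernel)
          (CovZ.n2 (-23904, 8352) (by decide +kernel)
           (CovZ.n2 (-24000, 8352) (by decide +kernel)
            (CovZ.leaf K2_ok TB_l14821 _)
            (CovZ.n1 (-23952, 8304) (by decide +kernel)
             (CovZ.leaf K2_ok TB_l14822 _)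
             (CovZ.leaf K2_ok TB_l14823 _)))
           (CovZ.n1 (-23904, 8448) (by decide +kernel)
            (CovZ.leaf K2_ok TB_l14824 _)
            (CovZ.leaf K2_ok TB_l14825 _)))
          (CovZ.n1 (-24096, 8352) (by decide +kernel)
           (CovZ.n2 (-24096, 8448) (by decide +kernel)
            (CovZ.n2 (-24048, 8400) (by decide +kernel)
             (CovZ.leaf K2_ok TB_l14826 _)
             (CovZ.leaf K2_ok TB_l14827 _))
            (CovZ.n1 (-24144, 8400) (by decide +kernel)
             (CovZ.leaf K2_ok TB_l14828 _)
             (CovZ.leaf K2_ok TB_l14829 _)))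
           (CovZ.n1 (-24000, 8352) (by decide +kernel)
            (CovZ.n2 (-24048, 8304) (by decide +kernel)
             (CovZ.leaf K2_ok TB_l14830 _)
             (CovZ.leaf K2_ok TB_l14831 _))
            (CovZ.n1 (-24048, 8400) (by decide +kernel)
             (CovZ.leaf K2_ok TB_l14832 _)
             (CovZ.leaf K2_ok TB_l14833 _)))))))
       (CovZ.subM 631663411835949100953508513581505640879042585384285411627910980812322266577220809752593060716422102874222568845615236 (by decide +kernel)
        (CovZ.n1 (-24384, 8256) (by decide +kernel)
         (CovZ.n2 (-24384, 8448) (by decide +kernel)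
          (CovZ.n2 (-24288, 8352) (by decide +kernel)
           (CovZ.n2 (-24384, 8352) (by decide +kernel)
            (CovZ.n2 (-24336, 8400) (by decide +kernel)
             (CovZ.n2 (-24336, 8352) (by decide +kernel)
              (CovZ.leaf K2_ok TB_l14834 _)
              (CovZ.leaf K2_ok TB_l14835 _))
             (CovZ.n1 (-24384, 8400) (by decide +kernel)
              (CovZ.leaf K2_ok TB_l14836 _)
              (CovZ.leaf K2_ok TB_l14837 _)))
            (CovZ.n1 (-24336, 8304) (by decide +kernel)
             (CovZ.leaf K2_ok TB_l14838 _)
             (CovZ.n1 (-24336, 8352) (by decide +kernel)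
              (CovZ.leaf K2_ok TB_l14839 _)
              (CovZ.leaf K2_ok TB_l14840 _))))
           (CovZ.n1 (-24288, 8448) (by decide +kernel)
            (CovZ.n2 (-24240, 8400) (by decide +kernel)
             (CovZ.leaf K2_ok TB_l14841 _)
             (CovZ.leaf K2_ok TB_l14842 _))
            (CovZ.n1 (-24336, 8400) (by decide +kernel)
             (CovZ.n2 (-24336, 8448) (by decide +kernel)
              (CovZ.leaf K2_ok TB_l14843 _)
              (CovZ.leaf K2_ok TB_l14844 _))
             (CovZ.leaf K2_ok TB_l14845 _))))
          (CovZ.n1 (-24480, 8352) (by decide +kernel)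
           (CovZ.n2 (-24480, 8448) (by decide +kernel)
            (CovZ.n2 (-24432, 8400) (by decide +kernel)
             (CovZ.n2 (-24480, 8400) (by decide +kernel)
              (CovZ.leaf K2_ok TB_l14846 _)
              (CovZ.leaf K2_ok TB_l14847 _))
             (CovZ.n1 (-24432, 8448) (by decide +kernel)
              (CovZ.leaf K2_ok TB_l14848 _)
              (CovZ.leaf K2_ok TB_l14849 _)))
            (CovZ.n1 (-24528, 8400) (by decide +kernel)
             (CovZ.n2 (-24528, 8448) (by decide +kernel)
              (CovZ.leaf K2_ok TB_l14850 _)
              (CovZ.leaf K2_ok TB_l14851 _))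
             (CovZ.n1 (-24480, 8400) (by decide +kernel)
              (CovZ.leaf K2_ok TB_l14852 _)
              (CovZ.leaf K2_ok TB_l14853 _))))
           (CovZ.n1 (-24384, 8352) (by decide +kernel)
            (CovZ.n2 (-24432, 8304) (by decide +kernel)
             (CovZ.n2 (-24432, 8352) (by decide +kernel)
              (CovZ.leaf K2_ok TB_l14854 _)
              (CovZ.leaf K2_ok TB_l14855 _))
             (CovZ.leaf K2_ok TB_l14856 _))
            (CovZ.n1 (-24432, 8400) (by decide +kernel)
             (CovZ.n2 (-24384, 8400) (by decide +kernel)
              (CovZ.leaf K2_ok TB_l14857 _)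
              (CovZ.leaf K2_ok TB_l14858 _))
             (CovZ.n1 (-24432, 8352) (by decide +kernel)
              (CovZ.leaf K2_ok TB_l14859 _)
              (CovZ.leaf K2_ok TB_l14860 _))))))
         (CovZ.n1 (-24192, 8256) (by decide +kernel)
          (CovZ.n2 (-24288, 8160) (by decide +kernel)
           (CovZ.n2 (-24288, 8256) (by decide +kernel)
            (CovZ.n2 (-24240, 8208) (by decide +kernel)
             (CovZ.n2 (-24288, 8208) (by decide +kernel)
              (CovZ.n2 (-24264, 8232) (by decide +kernel)
               (CovZ.leaf K2_ok TB_l14861 _)
               (CovZ.leaf K2_ok TB_l14862 _))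
              (CovZ.n1 (-24264, 8184) (by decide +kernel)
               (CovZ.leaf K2_ok TB_l14863 _)
               (CovZ.leaf K2_ok TB_l14864 _)))
             (CovZ.n1 (-24240, 8256) (by decide +kernel)
              (CovZ.n2 (-24216, 8232) (by decide +kernel)
               (CovZ.leaf K2_ok TB_l14865 _)
               (CovZ.leaf K2_ok TB_l14866 _))
              (CovZ.leaf K2_ok TB_l14867 _)))
            (CovZ.n1 (-24336, 8208) (by decide +kernel)
             (CovZ.n2 (-24336, 8256) (by decide +kernel)
              (CovZ.leaf K2_ok TB_l14868 _)
              (CovZ.leaf K2_ok TB_l14869 _))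
             (CovZ.n1 (-24288, 8208) (by decide +kernel)
              (CovZ.leaf K2_ok TB_l14870 _)
              (CovZ.leaf K2_ok TB_l14871 _))))
           (CovZ.n1 (-24192, 8160) (by decide +kernel)
            (CovZ.subM 1231312693637362471395316531320277891444375734143890962731782314986534390145545346859670873162018288976177374691460 (by decide +kernel)
             (CovZ.n2 (-24240, 8112) (by decide +kernel)
              (CovZ.n2 (-24240, 8160) (by decide +kernel)
               (CovZ.n2 (-24216, 8136) (by decide +kernel)
                (CovZ.leaf K2_ok TB_l14872 _)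
                (CovZ.leaf K2_ok TB_l14873 _))
               (CovZ.n1 (-24264, 8136) (by decide +kernel)
                (CovZ.leaf K2_ok TB_l14874 _)
                (CovZ.leaf K2_ok TB_l14875 _)))
              (CovZ.n1 (-24192, 8112) (by decide +kernel)
               (CovZ.leaf K2_ok TB_l14876 _)
               (CovZ.n1 (-24216, 8136) (by decide +kernel)
                (CovZ.leaf K2_ok TB_l14877 _)
                (CovZ.leaf K2_ok TB_l14878 _)))))
            (CovZ.n1 (-24240, 8208) (by decide +kernel)
             (CovZ.n2 (-24192, 8208) (by decide +kernel)
              (CovZ.leaf K2_ok TB_l14879 _)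
              (CovZ.n1 (-24216, 8232) (by decide +kernel)
               (CovZ.leaf K2_ok TB_l14880 _)
               (CovZ.leaf K2_ok TB_l14881 _)))
             (CovZ.n1 (-24240, 8160) (by decide +kernel)
              (CovZ.n2 (-24264, 8184) (by decide +kernel)
               (CovZ.leaf K2_ok TB_l14882 _)
               (CovZ.leaf K2_ok TB_l14883 _))
              (CovZ.n1 (-24216, 8184) (by decide +kernel)
               (CovZ.leaf K2_ok TB_l14884 _)
               (CovZ.leaf K2_ok TB_l14885 _))))))
          (CovZ.n1 (-24288, 8352) (by decide +kernel)
           (CovZ.n2 (-24192, 8352) (by decide +kernel)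
            (CovZ.n2 (-24240, 8304) (by decide +kernel)
             (CovZ.n2 (-24240, 8352) (by decide +kernel)
              (CovZ.leaf K2_ok TB_l14886 _)
              (CovZ.leaf K2_ok TB_l14887 _))
             (CovZ.n1 (-24192, 8304) (by decide +kernel)
              (CovZ.leaf K2_ok TB_l14888 _)
              (CovZ.leaf K2_ok TB_l14889 _)))
            (CovZ.n1 (-24240, 8400) (by decide +kernel)
             (CovZ.leaf K2_ok TB_l14890 _)
             (CovZ.n1 (-24240, 8352) (by decide +kernel)
              (CovZ.leaf K2_ok TB_l14891 _)
              (CovZ.leaf K2_ok TB_l14892 _))))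
           (CovZ.n1 (-24288, 8256) (by decide +kernel)
            (CovZ.n2 (-24336, 8304) (by decide +kernel)
             (CovZ.n2 (-24288, 8304) (by decide +kernel)
              (CovZ.leaf K2_ok TB_l14893 _)
              (CovZ.leaf K2_ok TB_l14894 _))
             (CovZ.n1 (-24336, 8256) (by decide +kernel)
              (CovZ.leaf K2_ok TB_l14895 _)
              (CovZ.leaf K2_ok TB_l14896 _)))
            (CovZ.n1 (-24240, 8304) (by decide +kernel)
             (CovZ.n2 (-24240, 8256) (by decide +kernel)
              (CovZ.leaf K2_ok TB_l14897 _)
              (CovZ.n1 (-24216, 8280) (by decide +kernel)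
               (CovZ.leaf K2_ok TB_l14898 _)
               (CovZ.leaf K2_ok TB_l14899 _)))
             (CovZ.n1 (-24288, 8304) (by decide +kernel)
              (CovZ.leaf K2_ok TB_l14900 _)
              (CovZ.leaf K2_ok TB_l14901 _))))))))))

theorem TB_u217 : CovZ TB_M (toL (selN TB_LN 631665816743553874755644561705584789941734759178646356535621361607105257510044389977546015209725220878697343798747268)) [0, 7, 6, 1] (-23040, 9216) (-23808, 9216) (-23808, 8448) :=
    (CovZ.n2 (-23424, 8832) (by decide +kernel)
      (CovZ.n2 (-23808, 8832) (by decide +kernel)
       (CovZ.subM 631663411835949099859883151189999678692791471825474728951326277625680740661280519840489673455031859714971781409546372 (by decide +kernel)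
        (CovZ.n2 (-23616, 9024) (by decide +kernel)
         (CovZ.n2 (-23616, 8832) (by decide +kernel)
          (CovZ.n2 (-23712, 8928) (by decide +kernel)
           (CovZ.n2 (-23616, 8928) (by decide +kernel)
            (CovZ.leaf K2_ok TB_l14902 _)
            (CovZ.leaf K2_ok TB_l14903 _))
           (CovZ.n1 (-23712, 8832) (by decide +kernel)
            (CovZ.leaf K2_ok TB_l14904 _)
            (CovZ.leaf K2_ok TB_l14905 _)))
          (CovZ.n1 (-23520, 8928) (by decide +kernel)
           (CovZ.n2 (-23520, 8832) (by decide +kernel)
            (CovZ.leaf K2_ok TB_l14906 _)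
            (CovZ.leaf K2_ok TB_l14907 _))
           (CovZ.n1 (-23616, 8928) (by decide +kernel)
            (CovZ.leaf K2_ok TB_l14908 _)
            (CovZ.leaf K2_ok TB_l14909 _))))
         (CovZ.n1 (-23808, 9024) (by decide +kernel)
          (CovZ.n2 (-23712, 9120) (by decide +kernel)
           (CovZ.n2 (-23712, 9024) (by decide +kernel)
            (CovZ.n2 (-23760, 9072) (by decide +kernel)
             (CovZ.leaf K2_ok TB_l14910 _)
             (CovZ.leaf K2_ok TB_l14911 _))
            (CovZ.leaf K2_ok TB_l14912 _))
           (CovZ.n1 (-23808, 9120) (by decide +kernel)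
            (CovZ.n2 (-23760, 9168) (by decide +kernel)
             (CovZ.leaf K2_ok TB_l14913 _)
             (CovZ.leaf K2_ok TB_l14914 _))
            (CovZ.n1 (-23760, 9072) (by decide +kernel)
             (CovZ.leaf K2_ok TB_l14915 _)
             (CovZ.leaf K2_ok TB_l14916 _))))
          (CovZ.n1 (-23712, 8928) (by decide +kernel)
           (CovZ.n2 (-23808, 8928) (by decide +kernel)
            (CovZ.leaf K2_ok TB_l14917 _)
            (CovZ.leaf K2_ok TB_l14918 _))
           (CovZ.n1 (-23712, 9024) (by decide +kernel)
            (CovZ.leaf K2_ok TB_l14919 _)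
            (CovZ.leaf K2_ok TB_l14920 _))))))
       (CovZ.subM 631663411835949100953508513581505640879042585384285411627910993072286958874165823045466173054719821326728369920811140 (by decide +kernel)
        (CovZ.n1 (-23616, 8640) (by decide +kernel)
         (CovZ.n2 (-23808, 8640) (by decide +kernel)
          (CovZ.n2 (-23712, 8736) (by decide +kernel)
           (CovZ.n2 (-23712, 8640) (by decide +kernel)
            (CovZ.leaf K2_ok TB_l14921 _)
            (CovZ.leaf K2_ok TB_l14922 _))
           (CovZ.n1 (-23808, 8736) (by decide +kernel)
            (CovZ.leaf K2_ok TB_l14923 _)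
            (CovZ.leaf K2_ok TB_l14924 _)))
          (CovZ.n1 (-23712, 8544) (by decide +kernel)
           (CovZ.leaf K2_ok TB_l14925 _)
           (CovZ.n1 (-23712, 8640) (by decide +kernel)
            (CovZ.leaf K2_ok TB_l14926 _)
            (CovZ.leaf K2_ok TB_l14927 _))))
         (CovZ.n1 (-23616, 8832) (by decide +kernel)
          (CovZ.n2 (-23520, 8736) (by decide +kernel)
           (CovZ.n2 (-23616, 8736) (by decide +kernel)
            (CovZ.leaf K2_ok TB_l14928 _)
            (CovZ.leaf K2_ok TB_l14929 _))
           (CovZ.n1 (-23520, 8832) (by decide +kernel)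
            (CovZ.leaf K2_ok TB_l14930 _)
            (CovZ.leaf K2_ok TB_l14931 _)))
          (CovZ.n1 (-23712, 8736) (by decide +kernel)
           (CovZ.n2 (-23712, 8832) (by decide +kernel)
            (CovZ.leaf K2_ok TB_l14932 _)
            (CovZ.leaf K2_ok TB_l14933 _))
           (CovZ.n1 (-23616, 8736) (by decide +kernel)
            (CovZ.leaf K2_ok TB_l14934 _)
            (CovZ.leaf K2_ok TB_l14935 _)))))))
      (CovZ.n1 (-23424, 9216) (by decide +kernel)
       (CovZ.n2 (-23232, 9024) (by decide +kernel)
        (CovZ.subM 631663411835949099859883151189999678692791471825474728951326277625680740661280519840489673455031859714971781409546372 (by decide +kernel)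
         (CovZ.n2 (-23424, 9024) (by decide +kernel)
          (CovZ.n2 (-23328, 9120) (by decide +kernel)
           (CovZ.n2 (-23328, 9024) (by decide +kernel)
            (CovZ.n2 (-23376, 9072) (by decide +kernel)
             (CovZ.leaf K2_ok TB_l14936 _)
             (CovZ.leaf K2_ok TB_l14937 _))
            (CovZ.n1 (-23280, 9072) (by decide +kernel)
             (CovZ.leaf K2_ok TB_l14938 _)
             (CovZ.leaf K2_ok TB_l14939 _)))
           (CovZ.n1 (-23424, 9120) (by decide +kernel)
            (CovZ.n2 (-23376, 9168) (by decide +kernel)
             (CovZ.leaf K2_ok TB_l14940 _)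
             (CovZ.leaf K2_ok TB_l14941 _))
            (CovZ.n1 (-23376, 9072) (by decide +kernel)
             (CovZ.leaf K2_ok TB_l14942 _)
             (CovZ.leaf K2_ok TB_l14943 _))))
          (CovZ.n1 (-23328, 8928) (by decide +kernel)
           (CovZ.n2 (-23424, 8928) (by decide +kernel)
            (CovZ.leaf K2_ok TB_l14944 _)
            (CovZ.leaf K2_ok TB_l14945 _))
           (CovZ.n1 (-23328, 9024) (by decide +kernel)
            (CovZ.n2 (-23280, 8976) (by decide +kernel)
             (CovZ.leaf K2_ok TB_l14946 _)
             (CovZ.leaf K2_ok TB_l14947 _))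
            (CovZ.leaf K2_ok TB_l14948 _)))))
        (CovZ.n1 (-23232, 9216) (by decide +kernel)
         (CovZ.n2 (-23136, 9120) (by decide +kernel)
          (CovZ.subM 631663411835949099859883151189999678692791471825474728951326265365716413734169652973713456252558390765058803940466820 (by decide +kernel)
           (CovZ.n2 (-23232, 9120) (by decide +kernel)
            (CovZ.n2 (-23184, 9168) (by decide +kernel)
             (CovZ.leaf K2_ok TB_l14949 _)
             (CovZ.leaf K2_ok TB_l14950 _))
            (CovZ.n1 (-23184, 9072) (by decide +kernel)
             (CovZ.leaf K2_ok TB_l14951 _)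
             (CovZ.leaf K2_ok TB_l14952 _))))
          (CovZ.n1 (-23136, 9216) (by decide +kernel)
           (CovZ.n2 (-23088, 9168) (by decide +kernel)
            (CovZ.leaf K2_ok TB_l14953 _)
            (CovZ.n1 (-23088, 9216) (by decide +kernel)
             (CovZ.leaf K2_ok TB_l14954 _)
             (CovZ.leaf K2_ok TB_l14955 _)))
           (CovZ.n1 (-23184, 9168) (by decide +kernel)
            (CovZ.n2 (-23184, 9216) (by decide +kernel)
             (CovZ.leaf K2_ok TB_l14956 _)
             (CovZ.leaf K2_ok TB_l14957 _))
            (CovZ.leaf K2_ok TB_l14958 _))))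
         (CovZ.subM 631663411835949099859883151189999678692791471825474728951326265365716413734169652973713456252558390765058803940728964 (by decide +kernel)
          (CovZ.n1 (-23328, 9120) (by decide +kernel)
           (CovZ.n2 (-23328, 9216) (by decide +kernel)
            (CovZ.n2 (-23280, 9168) (by decide +kernel)
             (CovZ.leaf K2_ok TB_l14959 _)
             (CovZ.n1 (-23280, 9216) (by decide +kernel)
              (CovZ.leaf K2_ok TB_l14960 _)
              (CovZ.leaf K2_ok TB_l14961 _)))
            (CovZ.n1 (-23376, 9168) (by decide +kernel)
             (CovZ.leaf K2_ok TB_l14962 _)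
             (CovZ.leaf K2_ok TB_l14963 _)))
           (CovZ.n1 (-23232, 9120) (by decide +kernel)
            (CovZ.n2 (-23280, 9072) (by decide +kernel)
             (CovZ.leaf K2_ok TB_l14964 _)
             (CovZ.leaf K2_ok TB_l14965 _))
            (CovZ.n1 (-23280, 9168) (by decide +kernel)
             (CovZ.leaf K2_ok TB_l14966 _)
             (CovZ.leaf K2_ok TB_l14967 _)))))))
       (CovZ.subM 631663411835949099859883151189999678692791471825474728951326277625680740661280519840489673455031859714971781409546372 (by decide +kernel)
        (CovZ.n1 (-23616, 9024) (by decide +kernel)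
         (CovZ.n2 (-23616, 9216) (by decide +kernel)
          (CovZ.n2 (-23520, 9120) (by decide +kernel)
           (CovZ.n2 (-23616, 9120) (by decide +kernel)
            (CovZ.n2 (-23568, 9168) (by decide +kernel)
             (CovZ.leaf K2_ok TB_l14968 _)
             (CovZ.leaf K2_ok TB_l14969 _))
            (CovZ.n1 (-23568, 9072) (by decide +kernel)
             (CovZ.leaf K2_ok TB_l14970 _)
             (CovZ.leaf K2_ok TB_l14971 _)))
           (CovZ.n1 (-23520, 9216) (by decide +kernel)
            (CovZ.n2 (-23472, 9168) (by decide +kernel)
             (CovZ.leaf K2_ok TB_l14972 _)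
             (CovZ.leaf K2_ok TB_l14973 _))
            (CovZ.n1 (-23568, 9168) (by decide +kernel)
             (CovZ.leaf K2_ok TB_l14974 _)
             (CovZ.leaf K2_ok TB_l14975 _))))
          (CovZ.n1 (-23712, 9120) (by decide +kernel)
           (CovZ.n2 (-23712, 9216) (by decide +kernel)
            (CovZ.n2 (-23664, 9168) (by decide +kernel)
             (CovZ.leaf K2_ok TB_l14976 _)
             (CovZ.leaf K2_ok TB_l14977 _))
            (CovZ.n1 (-23760, 9168) (by decide +kernel)
             (CovZ.leaf K2_ok TB_l14978 _)
             (CovZ.leaf K2_ok TB_l14979 _)))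
           (CovZ.n1 (-23616, 9120) (by decide +kernel)
            (CovZ.leaf K2_ok TB_l14980 _)
            (CovZ.n1 (-23664, 9168) (by decide +kernel)
             (CovZ.leaf K2_ok TB_l14981 _)
             (CovZ.leaf K2_ok TB_l14982 _)))))
         (CovZ.n1 (-23424, 9024) (by decide +kernel)
          (CovZ.n2 (-23520, 8928) (by decide +kernel)
           (CovZ.n2 (-23520, 9024) (by decide +kernel)
            (CovZ.leaf K2_ok TB_l14983 _)
            (CovZ.leaf K2_ok TB_l14984 _))
           (CovZ.n1 (-23424, 8928) (by decide +kernel)
            (CovZ.leaf K2_ok TB_l14985 _)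
            (CovZ.leaf K2_ok TB_l14986 _)))
          (CovZ.n1 (-23520, 9120) (by decide +kernel)
           (CovZ.n2 (-23424, 9120) (by decide +kernel)
            (CovZ.leaf K2_ok TB_l14987 _)
            (CovZ.n1 (-23472, 9168) (by decide +kernel)
             (CovZ.leaf K2_ok TB_l14988 _)
             (CovZ.leaf K2_ok TB_l14989 _)))
           (CovZ.n1 (-23520, 9024) (by decide +kernel)
            (CovZ.leaf K2_ok TB_l14990 _)
            (CovZ.leaf K2_ok TB_l14991 _))))))))

theorem TB_u218 : CovZ TB_M (toL (selN TB_LN 631665816743553874755644561705584789941734759178646356535621361607105257510044389977546015209725220878697343798747268)) [0, 7, 6, 1] (-23808, 9216) (-24576, 9216) (-23808, 8448) :=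
    (CovZ.n1 (-24192, 8832) (by decide +kernel)
      (CovZ.n2 (-24192, 9216) (by decide +kernel)
       (CovZ.subM 631663411835949099859883151189999678692791471825474728951326277625680740661280519840489673455031859714971781409546372 (by decide +kernel)
        (CovZ.n2 (-24000, 9024) (by decide +kernel)
         (CovZ.n2 (-24192, 9024) (by decide +kernel)
          (CovZ.n2 (-24096, 9120) (by decide +kernel)
           (CovZ.n2 (-24096, 9024) (by decide +kernel)
            (CovZ.leaf K2_ok TB_l14992 _)
            (CovZ.leaf K2_ok TB_l14993 _))
           (CovZ.n1 (-24192, 9120) (by decide +kernel)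
            (CovZ.leaf K2_ok TB_l14994 _)
            (CovZ.leaf K2_ok TB_l14995 _)))
          (CovZ.n1 (-24096, 8928) (by decide +kernel)
           (CovZ.n2 (-24192, 8928) (by decide +kernel)
            (CovZ.leaf K2_ok TB_l14996 _)
            (CovZ.leaf K2_ok TB_l14997 _))
           (CovZ.n1 (-24096, 9024) (by decide +kernel)
            (CovZ.leaf K2_ok TB_l14998 _)
            (CovZ.leaf K2_ok TB_l14999 _))))
         (CovZ.n1 (-24000, 9216) (by decide +kernel)
          (CovZ.n2 (-23904, 9120) (by decide +kernel)
           (CovZ.n2 (-24000, 9120) (by decide +kernel)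
            (CovZ.leaf K2_ok TB_l15000 _)
            (CovZ.n1 (-23952, 9072) (by decide +kernel)
             (CovZ.leaf K2_ok TB_l15001 _)
             (CovZ.leaf K2_ok TB_l15002 _)))
           (CovZ.n1 (-23904, 9216) (by decide +kernel)
            (CovZ.n2 (-23856, 9168) (by decide +kernel)
             (CovZ.leaf K2_ok TB_l15003 _)
             (CovZ.leaf K2_ok TB_l15004 _))
            (CovZ.leaf K2_ok TB_l15005 _)))
          (CovZ.n1 (-24096, 9120) (by decide +kernel)
           (CovZ.n2 (-24096, 9216) (by decide +kernel)
            (CovZ.n2 (-24048, 9168) (by decide +kernel)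
             (CovZ.leaf K2_ok TB_l15006 _)
             (CovZ.leaf K2_ok TB_l15007 _))
            (CovZ.n1 (-24144, 9168) (by decide +kernel)
             (CovZ.leaf K2_ok TB_l15008 _)
             (CovZ.leaf K2_ok TB_l15009 _)))
           (CovZ.n1 (-24000, 9120) (by decide +kernel)
            (CovZ.leaf K2_ok TB_l15010 _)
            (CovZ.n1 (-24048, 9168) (by decide +kernel)
             (CovZ.leaf K2_ok TB_l15011 _)
             (CovZ.leaf K2_ok TB_l15012 _)))))))
       (CovZ.subM 631663411835949099859883151189999678692791471825474728951326265365716413739744839273346112037942320333220894317224068 (by decide +kernel)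
        (CovZ.n1 (-24384, 9024) (by decide +kernel)
         (CovZ.n2 (-24384, 9216) (by decide +kernel)
          (CovZ.n2 (-24288, 9120) (by decide +kernel)
           (CovZ.n2 (-24384, 9120) (by decide +kernel)
            (CovZ.leaf K2_ok TB_l15013 _)
            (CovZ.leaf K2_ok TB_l15014 _))
           (CovZ.n1 (-24288, 9216) (by decide +kernel)
            (CovZ.n2 (-24240, 9168) (by decide +kernel)
             (CovZ.leaf K2_ok TB_l15015 _)
             (CovZ.leaf K2_ok TB_l15016 _))
            (CovZ.leaf K2_ok TB_l15017 _)))
          (CovZ.n1 (-24480, 9120) (by decide +kernel)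
           (CovZ.n2 (-24480, 9216) (by decide +kernel)
            (CovZ.n2 (-24432, 9168) (by decide +kernel)
             (CovZ.leaf K2_ok TB_l15018 _)
             (CovZ.leaf K2_ok TB_l15019 _))
            (CovZ.leaf K2_ok TB_l15020 _))
           (CovZ.n1 (-24384, 9120) (by decide +kernel)
            (CovZ.leaf K2_ok TB_l15021 _)
            (CovZ.leaf K2_ok TB_l15022 _))))
         (CovZ.n1 (-24192, 9024) (by decide +kernel)
          (CovZ.n2 (-24288, 8928) (by decide +kernel)
           (CovZ.n2 (-24288, 9024) (by decide +kernel)
            (CovZ.leaf K2_ok TB_l15023 _)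
            (CovZ.leaf K2_ok TB_l15024 _))
           (CovZ.n1 (-24192, 8928) (by decide +kernel)
            (CovZ.leaf K2_ok TB_l15025 _)
            (CovZ.leaf K2_ok TB_l15026 _)))
          (CovZ.n1 (-24288, 9120) (by decide +kernel)
           (CovZ.n2 (-24192, 9120) (by decide +kernel)
            (CovZ.leaf K2_ok TB_l15027 _)
            (CovZ.n1 (-24240, 9168) (by decide +kernel)
             (CovZ.leaf K2_ok TB_l15028 _)
             (CovZ.leaf K2_ok TB_l15029 _)))
           (CovZ.n1 (-24288, 9024) (by decide +kernel)
            (CovZ.leaf K2_ok TB_l15030 _)
            (CovZ.leaf K2_ok TB_l15031 _)))))))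
      (CovZ.n1 (-23808, 8832) (by decide +kernel)
       (CovZ.n2 (-24000, 8640) (by decide +kernel)
        (CovZ.subM 631663411835949099859883151189999678692791471825474728951326277625680740661280519840489673455031859714971781409546372 (by decide +kernel)
         (CovZ.n2 (-24000, 8832) (by decide +kernel)
          (CovZ.n2 (-23904, 8736) (by decide +kernel)
           (CovZ.n2 (-24000, 8736) (by decide +kernel)
            (CovZ.leaf K2_ok TB_l15032 _)
            (CovZ.leaf K2_ok TB_l15033 _))
           (CovZ.n1 (-23904, 8832) (by decide +kernel)
            (CovZ.leaf K2_ok TB_l15034 _)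
            (CovZ.leaf K2_ok TB_l15035 _)))
          (CovZ.n1 (-24096, 8736) (by decide +kernel)
           (CovZ.n2 (-24096, 8832) (by decide +kernel)
            (CovZ.leaf K2_ok TB_l15036 _)
            (CovZ.leaf K2_ok TB_l15037 _))
           (CovZ.n1 (-24000, 8736) (by decide +kernel)
            (CovZ.leaf K2_ok TB_l15038 _)
            (CovZ.leaf K2_ok TB_l15039 _)))))
        (CovZ.subM 631663411835949100953508513581505640879042585384285411627910993072286958874165823045466173054719821326728369920811140 (by decide +kernel)
         (CovZ.n1 (-23808, 8640) (by decide +kernel)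
          (CovZ.n2 (-23904, 8544) (by decide +kernel)
           (CovZ.n2 (-23904, 8640) (by decide +kernel)
            (CovZ.leaf K2_ok TB_l15040 _)
            (CovZ.leaf K2_ok TB_l15041 _))
           (CovZ.leaf K2_ok TB_l15042 _))
          (CovZ.n1 (-23904, 8736) (by decide +kernel)
           (CovZ.n2 (-23808, 8736) (by decide +kernel)
            (CovZ.leaf K2_ok TB_l15043 _)
            (CovZ.leaf K2_ok TB_l15044 _))
           (CovZ.n1 (-23904, 8640) (by decide +kernel)
            (CovZ.leaf K2_ok TB_l15045 _)
            (CovZ.leaf K2_ok TB_l15046 _))))))
       (CovZ.subM 631663411835949099859883151189999678692791471825474728951326277625680740661280519840489673455031859714971781409546372 (by decide +kernel)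
        (CovZ.n1 (-24000, 9024) (by decide +kernel)
         (CovZ.n2 (-23808, 9024) (by decide +kernel)
          (CovZ.n2 (-23904, 8928) (by decide +kernel)
           (CovZ.n2 (-23904, 9024) (by decide +kernel)
            (CovZ.leaf K2_ok TB_l15047 _)
            (CovZ.leaf K2_ok TB_l15048 _))
           (CovZ.n1 (-23808, 8928) (by decide +kernel)
            (CovZ.leaf K2_ok TB_l15049 _)
            (CovZ.leaf K2_ok TB_l15050 _)))
          (CovZ.n1 (-23904, 9120) (by decide +kernel)
           (CovZ.n2 (-23808, 9120) (by decide +kernel)
            (CovZ.leaf K2_ok TB_l15051 _)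
            (CovZ.n1 (-23856, 9168) (by decide +kernel)
             (CovZ.leaf K2_ok TB_l15052 _)
             (CovZ.leaf K2_ok TB_l15053 _)))
           (CovZ.n1 (-23904, 9024) (by decide +kernel)
            (CovZ.n2 (-23952, 9072) (by decide +kernel)
             (CovZ.leaf K2_ok TB_l15054 _)
             (CovZ.leaf K2_ok TB_l15055 _))
            (CovZ.leaf K2_ok TB_l15056 _))))
         (CovZ.n1 (-24000, 8832) (by decide +kernel)
          (CovZ.n2 (-24096, 8928) (by decide +kernel)
           (CovZ.n2 (-24000, 8928) (by decide +kernel)
            (CovZ.leaf K2_ok TB_l15057 _)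
            (CovZ.leaf K2_ok TB_l15058 _))
           (CovZ.n1 (-24096, 8832) (by decide +kernel)
            (CovZ.leaf K2_ok TB_l15059 _)
            (CovZ.leaf K2_ok TB_l15060 _)))
          (CovZ.n1 (-23904, 8928) (by decide +kernel)
           (CovZ.n2 (-23904, 8832) (by decide +kernel)
            (CovZ.leaf K2_ok TB_l15061 _)
            (CovZ.leaf K2_ok TB_l15062 _))
           (CovZ.n1 (-24000, 8928) (by decide +kernel)
            (CovZ.leaf K2_ok TB_l15063 _)
            (CovZ.leaf K2_ok TB_l15064 _))))))))

theorem TB_u219 : CovZ TB_M (toL (selN TB_LN 631663411835949078793222903007518626853842594846193202333364859037238059449369291571365332188274704723459620240105476)) [0, 7, 6, 1] (-22272, 8448) (-21888, 8064) (-21504, 8448) :=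
    (CovZ.n2 (-21888, 8448) (by decide +kernel)
        (CovZ.n2 (-21696, 8256) (by decide +kernel)
         (CovZ.n2 (-21888, 8256) (by decide +kernel)
          (CovZ.n2 (-21792, 8352) (by decide +kernel)
           (CovZ.n2 (-21792, 8256) (by decide +kernel)
            (CovZ.n2 (-21840, 8304) (by decide +kernel)
             (CovZ.leaf K2_ok TB_l16110 _)
             (CovZ.n1 (-21840, 8256) (by decide +kernel)
              (CovZ.leaf K2_ok TB_l16111 _)
              (CovZ.leaf K2_ok TB_l16112 _)))
            (CovZ.n1 (-21744, 8304) (by decide +kernel)
             (CovZ.n2 (-21744, 8256) (by decide +kernel)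
              (CovZ.leaf K2_ok TB_l16113 _)
              (CovZ.leaf K2_ok TB_l16114 _))
             (CovZ.leaf K2_ok TB_l16115 _)))
           (CovZ.n1 (-21888, 8352) (by decide +kernel)
            (CovZ.n2 (-21840, 8400) (by decide +kernel)
             (CovZ.n2 (-21840, 8352) (by decide +kernel)
              (CovZ.leaf K2_ok TB_l16116 _)
              (CovZ.leaf K2_ok TB_l16117 _))
             (CovZ.leaf K2_ok TB_l16118 _))
            (CovZ.n1 (-21840, 8304) (by decide +kernel)
             (CovZ.leaf K2_ok TB_l16119 _)
             (CovZ.n1 (-21840, 8352) (by decide +kernel)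
              (CovZ.leaf K2_ok TB_l16120 _)
              (CovZ.leaf K2_ok TB_l16121 _)))))
          (CovZ.n1 (-21792, 8160) (by decide +kernel)
           (CovZ.subM 1231312693637411277097097047174978055894095428782545444936875280174021107678911656758291226967356529329713673412608 (by decide +kernel)
            (CovZ.n2 (-21888, 8160) (by decide +kernel)
             (CovZ.n2 (-21840, 8208) (by decide +kernel)
              (CovZ.leaf K2_ok TB_l16122 _)
              (CovZ.leaf K2_ok TB_l16123 _))
             (CovZ.n1 (-21840, 8112) (by decide +kernel)
              (CovZ.leaf K2_ok TB_l16124 _)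
              (CovZ.n1 (-21840, 8160) (by decide +kernel)
               (CovZ.leaf K2_ok TB_l16125 _)
               (CovZ.leaf K2_ok TB_l16126 _)))))
           (CovZ.n1 (-21792, 8256) (by decide +kernel)
            (CovZ.n2 (-21744, 8208) (by decide +kernel)
             (CovZ.leaf K2_ok TB_l16127 _)
             (CovZ.n1 (-21744, 8256) (by decide +kernel)
              (CovZ.leaf K2_ok TB_l16128 _)
              (CovZ.leaf K2_ok TB_l16129 _)))
            (CovZ.n1 (-21840, 8208) (by decide +kernel)
             (CovZ.n2 (-21840, 8256) (by decide +kernel)
              (CovZ.leaf K2_ok TB_l16130 _)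
              (CovZ.leaf K2_ok TB_l16131 _))
             (CovZ.leaf K2_ok TB_l16132 _)))))
         (CovZ.n1 (-21696, 8448) (by decide +kernel)
          (CovZ.n2 (-21600, 8352) (by decide +kernel)
           (CovZ.n2 (-21696, 8352) (by decide +kernel)
            (CovZ.n2 (-21648, 8400) (by decide +kernel)
             (CovZ.n2 (-21648, 8352) (by decide +kernel)
              (CovZ.leaf K2_ok TB_l16133 _)
              (CovZ.leaf K2_ok TB_l16134 _))
             (CovZ.n1 (-21696, 8400) (by decide +kernel)
              (CovZ.leaf K2_ok TB_l16135 _)
              (CovZ.leaf K2_ok TB_l16136 _)))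
            (CovZ.n1 (-21648, 8304) (by decide +kernel)
             (CovZ.leaf K2_ok TB_l16137 _)
             (CovZ.n1 (-21648, 8352) (by decide +kernel)
              (CovZ.leaf K2_ok TB_l16138 _)
              (CovZ.leaf K2_ok TB_l16139 _))))
           (CovZ.n1 (-21600, 8448) (by decide +kernel)
            (CovZ.subM 1231312693637410591445258516562841607092127748356421969760392160500989781623361478481740964150749684193855098855424 (by decide +kernel)
             (CovZ.n2 (-21552, 8400) (by decide +kernel)
              (CovZ.n2 (-21600, 8400) (by decide +kernel)
               (CovZ.leaf K2_ok TB_l16140 _)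
               (CovZ.leaf K2_ok TB_l16141 _))
              (CovZ.n1 (-21552, 8448) (by decide +kernel)
               (CovZ.n2 (-21528, 8424) (by decide +kernel)
                (CovZ.leaf K2_ok TB_l16142 _)
                (CovZ.leaf K2_ok TB_l16143 _))
               (CovZ.leaf K2_ok TB_l16144 _))))
            (CovZ.n1 (-21648, 8400) (by decide +kernel)
             (CovZ.n2 (-21648, 8448) (by decide +kernel)
              (CovZ.leaf K2_ok TB_l16145 _)
              (CovZ.leaf K2_ok TB_l16146 _))
             (CovZ.n1 (-21600, 8400) (by decide +kernel)
              (CovZ.leaf K2_ok TB_l16147 _)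
              (CovZ.leaf K2_ok TB_l16148 _)))))
          (CovZ.n1 (-21792, 8352) (by decide +kernel)
           (CovZ.n2 (-21792, 8448) (by decide +kernel)
            (CovZ.n2 (-21744, 8400) (by decide +kernel)
             (CovZ.leaf K2_ok TB_l16149 _)
             (CovZ.n1 (-21744, 8448) (by decide +kernel)
              (CovZ.leaf K2_ok TB_l16150 _)
              (CovZ.leaf K2_ok TB_l16151 _)))
            (CovZ.n1 (-21840, 8400) (by decide +kernel)
             (CovZ.n2 (-21840, 8448) (by decide +kernel)
              (CovZ.leaf K2_ok TB_l16152 _)
              (CovZ.leaf K2_ok TB_l16153 _))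
             (CovZ.n1 (-21792, 8400) (by decide +kernel)
              (CovZ.leaf K2_ok TB_l16154 _)
              (CovZ.leaf K2_ok TB_l16155 _))))
           (CovZ.n1 (-21696, 8352) (by decide +kernel)
            (CovZ.n2 (-21744, 8304) (by decide +kernel)
             (CovZ.n2 (-21744, 8352) (by decide +kernel)
              (CovZ.leaf K2_ok TB_l16156 _)
              (CovZ.leaf K2_ok TB_l16157 _))
             (CovZ.leaf K2_ok TB_l16158 _))
            (CovZ.n1 (-21744, 8400) (by decide +kernel)
             (CovZ.n2 (-21696, 8400) (by decide +kernel)
              (CovZ.leaf K2_ok TB_l16159 _)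
              (CovZ.leaf K2_ok TB_l16160 _))
             (CovZ.n1 (-21744, 8352) (by decide +kernel)
              (CovZ.leaf K2_ok TB_l16161 _)
              (CovZ.leaf K2_ok TB_l16162 _)))))))
        (CovZ.n1 (-22080, 8256) (by decide +kernel)
         (CovZ.n2 (-22080, 8448) (by decide +kernel)
          (CovZ.n2 (-21984, 8352) (by decide +kernel)
           (CovZ.subM 1231312693637411140398098597916265810117384010701072516837619256595818393130922576544349435001174254629736752881664 (by decide +kernel)
            (CovZ.n2 (-22080, 8352) (by decide +kernel)
             (CovZ.n2 (-22032, 8400) (by decide +kernel)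
              (CovZ.n2 (-22032, 8352) (by decide +kernel)
               (CovZ.leaf K2_ok TB_l16163 _)
               (CovZ.leaf K2_ok TB_l16164 _))
              (CovZ.leaf K2_ok TB_l16165 _))
             (CovZ.n1 (-22032, 8304) (by decide +kernel)
              (CovZ.leaf K2_ok TB_l16166 _)
              (CovZ.n1 (-22032, 8352) (by decide +kernel)
               (CovZ.leaf K2_ok TB_l16167 _)
               (CovZ.leaf K2_ok TB_l16168 _)))))
           (CovZ.n1 (-21984, 8448) (by decide +kernel)
            (CovZ.n2 (-21936, 8400) (by decide +kernel)
             (CovZ.leaf K2_ok TB_l16169 _)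
             (CovZ.n1 (-21936, 8448) (by decide +kernel)
              (CovZ.leaf K2_ok TB_l16170 _)
              (CovZ.leaf K2_ok TB_l16171 _)))
            (CovZ.n1 (-22032, 8400) (by decide +kernel)
             (CovZ.n2 (-22032, 8448) (by decide +kernel)
              (CovZ.leaf K2_ok TB_l16172 _)
              (CovZ.leaf K2_ok TB_l16173 _))
             (CovZ.leaf K2_ok TB_l16174 _))))
          (CovZ.n1 (-22176, 8352) (by decide +kernel)
           (CovZ.n2 (-22176, 8448) (by decide +kernel)
            (CovZ.n2 (-22128, 8400) (by decide +kernel)
             (CovZ.leaf K2_ok TB_l16175 _)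
             (CovZ.n1 (-22128, 8448) (by decide +kernel)
              (CovZ.leaf K2_ok TB_l16176 _)
              (CovZ.leaf K2_ok TB_l16177 _)))
            (CovZ.n1 (-22224, 8400) (by decide +kernel)
             (CovZ.leaf K2_ok TB_l16178 _)
             (CovZ.leaf K2_ok TB_l16179 _)))
           (CovZ.subM 1231312693637411140398098597916265810117384010701072516837619256595818393130922576544349435001174254629736752881664 (by decide +kernel)
            (CovZ.n1 (-22080, 8352) (by decide +kernel)
             (CovZ.n2 (-22128, 8304) (by decide +kernel)
              (CovZ.leaf K2_ok TB_l16180 _)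
              (CovZ.leaf K2_ok TB_l16181 _))
             (CovZ.n1 (-22128, 8400) (by decide +kernel)
              (CovZ.leaf K2_ok TB_l16182 _)
              (CovZ.leaf K2_ok TB_l16183 _))))))
         (CovZ.n1 (-21888, 8256) (by decide +kernel)
          (CovZ.n2 (-21984, 8160) (by decide +kernel)
           (CovZ.n2 (-21984, 8256) (by decide +kernel)
            (CovZ.n2 (-21936, 8208) (by decide +kernel)
             (CovZ.leaf K2_ok TB_l16184 _)
             (CovZ.n1 (-21936, 8256) (by decide +kernel)
              (CovZ.leaf K2_ok TB_l16185 _)
              (CovZ.leaf K2_ok TB_l16186 _)))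
            (CovZ.n1 (-22032, 8208) (by decide +kernel)
             (CovZ.leaf K2_ok TB_l16187 _)
             (CovZ.leaf K2_ok TB_l16188 _)))
           (CovZ.n1 (-21888, 8160) (by decide +kernel)
            (CovZ.n2 (-21936, 8112) (by decide +kernel)
             (CovZ.leaf K2_ok TB_l16189 _)
             (CovZ.leaf K2_ok TB_l16190 _))
            (CovZ.n1 (-21936, 8208) (by decide +kernel)
             (CovZ.leaf K2_ok TB_l16191 _)
             (CovZ.leaf K2_ok TB_l16192 _))))
          (CovZ.n1 (-21984, 8352) (by decide +kernel)
           (CovZ.n2 (-21888, 8352) (by decide +kernel)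
            (CovZ.n2 (-21936, 8304) (by decide +kernel)
             (CovZ.n2 (-21936, 8352) (by decide +kernel)
              (CovZ.leaf K2_ok TB_l16193 _)
              (CovZ.leaf K2_ok TB_l16194 _))
             (CovZ.leaf K2_ok TB_l16195 _))
            (CovZ.n1 (-21936, 8400) (by decide +kernel)
             (CovZ.leaf K2_ok TB_l16196 _)
             (CovZ.n1 (-21936, 8352) (by decide +kernel)
              (CovZ.leaf K2_ok TB_l16197 _)
              (CovZ.leaf K2_ok TB_l16198 _))))
           (CovZ.n1 (-21984, 8256) (by decide +kernel)
            (CovZ.n2 (-22032, 8304) (by decide +kernel)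
             (CovZ.leaf K2_ok TB_l16199 _)
             (CovZ.leaf K2_ok TB_l16200 _))
            (CovZ.n1 (-21936, 8304) (by decide +kernel)
             (CovZ.n2 (-21936, 8256) (by decide +kernel)
              (CovZ.leaf K2_ok TB_l16201 _)
              (CovZ.leaf K2_ok TB_l16202 _))
             (CovZ.leaf K2_ok TB_l16203 _)))))))

theorem TB_u220 : CovZ TB_M (toL (selN TB_LN 631663411835949078793222903007518626853842594846193202333364859037238059449369291571365332188274704723459620240105476)) [0, 7, 6, 1] (-21888, 8064) (-21504, 7680) (-21504, 8448) :=
    (CovZ.n1 (-21504, 8064) (by decide +kernel)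
        (CovZ.n2 (-21696, 7872) (by decide +kernel)
         (CovZ.n2 (-21696, 8064) (by decide +kernel)
          (CovZ.subM 1231312693637401844578346420436054199478240984040512671685373110382086939570855184268301074754088177040392072470528 (by decide +kernel)
           (CovZ.n2 (-21600, 7968) (by decide +kernel)
            (CovZ.n2 (-21696, 7968) (by decide +kernel)
             (CovZ.n2 (-21648, 8016) (by decide +kernel)
              (CovZ.leaf K2_ok TB_l16204 _)
              (CovZ.leaf K2_ok TB_l16205 _))
             (CovZ.n1 (-21648, 7920) (by decide +kernel)
              (CovZ.leaf K2_ok TB_l16206 _)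
              (CovZ.n1 (-21648, 7968) (by decide +kernel)
               (CovZ.leaf K2_ok TB_l16207 _)
               (CovZ.leaf K2_ok TB_l16208 _))))
            (CovZ.n1 (-21600, 8064) (by decide +kernel)
             (CovZ.n2 (-21552, 8016) (by decide +kernel)
              (CovZ.leaf K2_ok TB_l16209 _)
              (CovZ.n1 (-21552, 8064) (by decide +kernel)
               (CovZ.leaf K2_ok TB_l16210 _)
               (CovZ.leaf K2_ok TB_l16211 _)))
             (CovZ.n1 (-21648, 8016) (by decide +kernel)
              (CovZ.n2 (-21648, 8064) (by decide +kernel)
               (CovZ.leaf K2_ok TB_l16212 _)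
               (CovZ.leaf K2_ok TB_l16213 _))
              (CovZ.leaf K2_ok TB_l16214 _)))))
          (CovZ.n1 (-21792, 7968) (by decide +kernel)
           (CovZ.n2 (-21792, 8064) (by decide +kernel)
            (CovZ.n2 (-21744, 8016) (by decide +kernel)
             (CovZ.leaf K2_ok TB_l16215 _)
             (CovZ.n1 (-21744, 8064) (by decide +kernel)
              (CovZ.leaf K2_ok TB_l16216 _)
              (CovZ.leaf K2_ok TB_l16217 _)))
            (CovZ.n1 (-21840, 8016) (by decide +kernel)
             (CovZ.leaf K2_ok TB_l16218 _)
             (CovZ.leaf K2_ok TB_l16219 _)))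
           (CovZ.subM 1231312693637411277097097047174978055894095428782545444936875280174021107678911656758291226967356529329713673412608 (by decide +kernel)
            (CovZ.n1 (-21696, 7968) (by decide +kernel)
             (CovZ.n2 (-21744, 7920) (by decide +kernel)
              (CovZ.leaf K2_ok TB_l16220 _)
              (CovZ.leaf K2_ok TB_l16221 _))
             (CovZ.n1 (-21744, 8016) (by decide +kernel)
              (CovZ.leaf K2_ok TB_l16222 _)
              (CovZ.leaf K2_ok TB_l16223 _))))))
         (CovZ.subM 69994693176851282717523065044896595736756973127155074535282670354532755606855537088116238830901665792 (by decide +kernel)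
          (CovZ.n1 (-21504, 7872) (by decide +kernel)
           (CovZ.n2 (-21600, 7776) (by decide +kernel)
            (CovZ.n2 (-21600, 7872) (by decide +kernel)
             (CovZ.n2 (-21552, 7824) (by decide +kernel)
              (CovZ.leaf K2_ok TB_l16224 _)
              (CovZ.n1 (-21552, 7872) (by decide +kernel)
               (CovZ.leaf K2_ok TB_l16225 _)
               (CovZ.leaf K2_ok TB_l16226 _)))
             (CovZ.n1 (-21648, 7824) (by decide +kernel)
              (CovZ.leaf K2_ok TB_l16227 _)
              (CovZ.leaf K2_ok TB_l16228 _)))
            (CovZ.n1 (-21504, 7776) (by decide +kernel)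
             (CovZ.n2 (-21552, 7728) (by decide +kernel)
              (CovZ.leaf K2_ok TB_l16229 _)
              (CovZ.leaf K2_ok TB_l16230 _))
             (CovZ.n1 (-21552, 7824) (by decide +kernel)
              (CovZ.leaf K2_ok TB_l16231 _)
              (CovZ.leaf K2_ok TB_l16232 _))))
           (CovZ.n1 (-21600, 7968) (by decide +kernel)
            (CovZ.n2 (-21504, 7968) (by decide +kernel)
             (CovZ.n2 (-21552, 7920) (by decide +kernel)
              (CovZ.n2 (-21552, 7968) (by decide +kernel)
               (CovZ.leaf K2_ok TB_l16233 _)
               (CovZ.leaf K2_ok TB_l16234 _))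
              (CovZ.leaf K2_ok TB_l16235 _))
             (CovZ.n1 (-21552, 8016) (by decide +kernel)
              (CovZ.leaf K2_ok TB_l16236 _)
              (CovZ.n1 (-21552, 7968) (by decide +kernel)
               (CovZ.leaf K2_ok TB_l16237 _)
               (CovZ.leaf K2_ok TB_l16238 _))))
            (CovZ.n1 (-21600, 7872) (by decide +kernel)
             (CovZ.n2 (-21648, 7920) (by decide +kernel)
              (CovZ.leaf K2_ok TB_l16239 _)
              (CovZ.leaf K2_ok TB_l16240 _))
             (CovZ.n1 (-21552, 7920) (by decide +kernel)
              (CovZ.n2 (-21552, 7872) (by decide +kernel)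
               (CovZ.leaf K2_ok TB_l16241 _)
               (CovZ.leaf K2_ok TB_l16242 _))
              (CovZ.leaf K2_ok TB_l16243 _)))))))
        (CovZ.n1 (-21696, 8256) (by decide +kernel)
         (CovZ.subM 1231312693637410661932830701952874326127844051951641751649641398644721280958612274391329097238278671827886946656256 (by decide +kernel)
          (CovZ.n2 (-21504, 8256) (by decide +kernel)
           (CovZ.n2 (-21600, 8160) (by decide +kernel)
            (CovZ.n2 (-21600, 8256) (by decide +kernel)
             (CovZ.n2 (-21552, 8208) (by decide +kernel)
              (CovZ.leaf K2_ok TB_l16244 _)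
              (CovZ.n1 (-21552, 8256) (by decide +kernel)
               (CovZ.leaf K2_ok TB_l16245 _)
               (CovZ.leaf K2_ok TB_l16246 _)))
             (CovZ.n1 (-21648, 8208) (by decide +kernel)
              (CovZ.n2 (-21648, 8256) (by decide +kernel)
               (CovZ.leaf K2_ok TB_l16247 _)
               (CovZ.leaf K2_ok TB_l16248 _))
              (CovZ.n1 (-21600, 8208) (by decide +kernel)
               (CovZ.leaf K2_ok TB_l16249 _)
               (CovZ.leaf K2_ok TB_l16250 _))))
            (CovZ.n1 (-21504, 8160) (by decide +kernel)
             (CovZ.n2 (-21552, 8112) (by decide +kernel)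
              (CovZ.n2 (-21552, 8160) (by decide +kernel)
               (CovZ.leaf K2_ok TB_l16251 _)
               (CovZ.leaf K2_ok TB_l16252 _))
              (CovZ.n1 (-21504, 8112) (by decide +kernel)
               (CovZ.leaf K2_ok TB_l16253 _)
               (CovZ.leaf K2_ok TB_l16254 _)))
             (CovZ.n1 (-21552, 8208) (by decide +kernel)
              (CovZ.n2 (-21504, 8208) (by decide +kernel)
               (CovZ.leaf K2_ok TB_l16255 _)
               (CovZ.leaf K2_ok TB_l16256 _))
              (CovZ.n1 (-21552, 8160) (by decide +kernel)
               (CovZ.leaf K2_ok TB_l16257 _)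
               (CovZ.leaf K2_ok TB_l16258 _)))))
           (CovZ.n1 (-21600, 8352) (by decide +kernel)
            (CovZ.n2 (-21504, 8352) (by decide +kernel)
             (CovZ.n2 (-21552, 8304) (by decide +kernel)
              (CovZ.n2 (-21552, 8352) (by decide +kernel)
               (CovZ.n2 (-21528, 8328) (by decide +kernel)
                (CovZ.leaf K2_ok TB_l16259 _)
                (CovZ.leaf K2_ok TB_l16260 _))
               (CovZ.leaf K2_ok TB_l16261 _))
              (CovZ.n1 (-21504, 8304) (by decide +kernel)
               (CovZ.leaf K2_ok TB_l16262 _)
               (CovZ.n1 (-21528, 8328) (by decide +kernel)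
                (CovZ.leaf K2_ok TB_l16263 _)
                (CovZ.leaf K2_ok TB_l16264 _))))
             (CovZ.n1 (-21552, 8400) (by decide +kernel)
              (CovZ.n2 (-21504, 8400) (by decide +kernel)
               (CovZ.n2 (-21528, 8376) (by decide +kernel)
                (CovZ.leaf K2_ok TB_l16265 _)
                (CovZ.leaf K2_ok TB_l16266 _))
               (CovZ.n1 (-21528, 8424) (by decide +kernel)
                (CovZ.leaf K2_ok TB_l16267 _)
                (CovZ.leaf K2_ok TB_l16268 _)))
              (CovZ.n1 (-21552, 8352) (by decide +kernel)
               (CovZ.leaf K2_ok TB_l16269 _)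
               (CovZ.leaf K2_ok TB_l16270 _))))
            (CovZ.n1 (-21600, 8256) (by decide +kernel)
             (CovZ.n2 (-21648, 8304) (by decide +kernel)
              (CovZ.n2 (-21600, 8304) (by decide +kernel)
               (CovZ.leaf K2_ok TB_l16271 _)
               (CovZ.leaf K2_ok TB_l16272 _))
              (CovZ.n1 (-21648, 8256) (by decide +kernel)
               (CovZ.leaf K2_ok TB_l16273 _)
               (CovZ.leaf K2_ok TB_l16274 _)))
             (CovZ.n1 (-21552, 8304) (by decide +kernel)
              (CovZ.n2 (-21552, 8256) (by decide +kernel)
               (CovZ.leaf K2_ok TB_l16275 _)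
               (CovZ.leaf K2_ok TB_l16276 _))
              (CovZ.n1 (-21600, 8304) (by decide +kernel)
               (CovZ.leaf K2_ok TB_l16277 _)
               (CovZ.leaf K2_ok TB_l16278 _)))))))
         (CovZ.n1 (-21696, 8064) (by decide +kernel)
          (CovZ.n2 (-21792, 8160) (by decide +kernel)
           (CovZ.n2 (-21696, 8160) (by decide +kernel)
            (CovZ.n2 (-21744, 8112) (by decide +kernel)
             (CovZ.n2 (-21744, 8160) (by decide +kernel)
              (CovZ.leaf K2_ok TB_l16279 _)
              (CovZ.leaf K2_ok TB_l16280 _))
             (CovZ.leaf K2_ok TB_l16281 _))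
            (CovZ.n1 (-21744, 8208) (by decide +kernel)
             (CovZ.leaf K2_ok TB_l16282 _)
             (CovZ.n1 (-21744, 8160) (by decide +kernel)
              (CovZ.leaf K2_ok TB_l16283 _)
              (CovZ.leaf K2_ok TB_l16284 _))))
           (CovZ.n1 (-21792, 8064) (by decide +kernel)
            (CovZ.n2 (-21840, 8112) (by decide +kernel)
             (CovZ.leaf K2_ok TB_l16285 _)
             (CovZ.leaf K2_ok TB_l16286 _))
            (CovZ.n1 (-21744, 8112) (by decide +kernel)
             (CovZ.n2 (-21744, 8064) (by decide +kernel)
              (CovZ.leaf K2_ok TB_l16287 _)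
              (CovZ.leaf K2_ok TB_l16288 _))
             (CovZ.leaf K2_ok TB_l16289 _))))
          (CovZ.subM 1231312693637410661932830701952874326127844051951641751649641398644721280958612274391329097238278671827886946656256 (by decide +kernel)
           (CovZ.n1 (-21600, 8160) (by decide +kernel)
            (CovZ.n2 (-21600, 8064) (by decide +kernel)
             (CovZ.n2 (-21648, 8112) (by decide +kernel)
              (CovZ.leaf K2_ok TB_l16290 _)
              (CovZ.n1 (-21648, 8064) (by decide +kernel)
               (CovZ.leaf K2_ok TB_l16291 _)
               (CovZ.leaf K2_ok TB_l16292 _)))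
             (CovZ.n1 (-21552, 8112) (by decide +kernel)
              (CovZ.n2 (-21552, 8064) (by decide +kernel)
               (CovZ.leaf K2_ok TB_l16293 _)
               (CovZ.leaf K2_ok TB_l16294 _))
              (CovZ.leaf K2_ok TB_l16295 _)))
            (CovZ.n1 (-21696, 8160) (by decide +kernel)
             (CovZ.n2 (-21648, 8208) (by decide +kernel)
              (CovZ.n2 (-21648, 8160) (by decide +kernel)
               (CovZ.leaf K2_ok TB_l16296 _)
               (CovZ.leaf K2_ok TB_l16297 _))
              (CovZ.leaf K2_ok TB_l16298 _))
             (CovZ.n1 (-21648, 8112) (by decide +kernel)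
              (CovZ.leaf K2_ok TB_l16299 _)
              (CovZ.n1 (-21648, 8160) (by decide +kernel)
               (CovZ.leaf K2_ok TB_l16300 _)
               (CovZ.leaf K2_ok TB_l16301 _)))))))))

theorem TB_u221 : CovZ TB_M (toL (selN TB_LN 1231312693637447759935060112539105545565981205836851649796622201610557481971943454694572532602068095836575533899776)) [0, 7, 6, 1] (-21888, 8832) (-21696, 8640) (-21504, 8832) :=
    (CovZ.n2 (-21696, 8832) (by decide +kernel)
          (CovZ.n2 (-21600, 8736) (by decide +kernel)
           (CovZ.n2 (-21696, 8736) (by decide +kernel)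
            (CovZ.n2 (-21648, 8784) (by decide +kernel)
             (CovZ.n2 (-21648, 8736) (by decide +kernel)
              (CovZ.n2 (-21672, 8760) (by decide +kernel)
               (CovZ.leaf K2_ok TB_l16302 _)
               (CovZ.leaf K2_ok TB_l16303 _))
              (CovZ.n1 (-21624, 8760) (by decide +kernel)
               (CovZ.leaf K2_ok TB_l16304 _)
               (CovZ.leaf K2_ok TB_l16305 _)))
             (CovZ.n1 (-21696, 8784) (by decide +kernel)
              (CovZ.n2 (-21672, 8808) (by decide +kernel)
               (CovZ.n2 (-21672, 8784) (by decide +kernel)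
                (CovZ.leaf K2_ok TB_l16306 _)
                (CovZ.leaf K2_ok TB_l16307 _))
               (CovZ.leaf K2_ok TB_l16308 _))
              (CovZ.n1 (-21672, 8760) (by decide +kernel)
               (CovZ.leaf K2_ok TB_l16309 _)
               (CovZ.n1 (-21672, 8784) (by decide +kernel)
                (CovZ.leaf K2_ok TB_l16310 _)
                (CovZ.leaf K2_ok TB_l16311 _)))))
            (CovZ.n1 (-21648, 8688) (by decide +kernel)
             (CovZ.n2 (-21696, 8688) (by decide +kernel)
              (CovZ.n2 (-21672, 8712) (by decide +kernel)
               (CovZ.leaf K2_ok TB_l16312 _)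
               (CovZ.leaf K2_ok TB_l16313 _))
              (CovZ.n1 (-21672, 8664) (by decide +kernel)
               (CovZ.leaf K2_ok TB_l16314 _)
               (CovZ.leaf K2_ok TB_l16315 _)))
             (CovZ.n1 (-21648, 8736) (by decide +kernel)
              (CovZ.n2 (-21624, 8712) (by decide +kernel)
               (CovZ.leaf K2_ok TB_l16316 _)
               (CovZ.n1 (-21624, 8736) (by decide +kernel)
                (CovZ.leaf K2_ok TB_l16317 _)
                (CovZ.leaf K2_ok TB_l16318 _)))
              (CovZ.n1 (-21672, 8712) (by decide +kernel)
               (CovZ.leaf K2_ok TB_l16319 _)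
               (CovZ.leaf K2_ok TB_l16320 _)))))
           (CovZ.n1 (-21600, 8832) (by decide +kernel)
            (CovZ.n2 (-21552, 8784) (by decide +kernel)
             (CovZ.n2 (-21600, 8784) (by decide +kernel)
              (CovZ.n2 (-21576, 8808) (by decide +kernel)
               (CovZ.n2 (-21576, 8784) (by decide +kernel)
                (CovZ.leaf K2_ok TB_l16321 _)
                (CovZ.leaf K2_ok TB_l16322 _))
               (CovZ.leaf K2_ok TB_l16323 _))
              (CovZ.n1 (-21576, 8760) (by decide +kernel)
               (CovZ.leaf K2_ok TB_l16324 _)
               (CovZ.n1 (-21576, 8784) (by decide +kernel)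
                (CovZ.leaf K2_ok TB_l16325 _)
                (CovZ.leaf K2_ok TB_l16326 _))))
             (CovZ.n1 (-21552, 8832) (by decide +kernel)
              (CovZ.n2 (-21528, 8808) (by decide +kernel)
               (CovZ.leaf K2_ok TB_l16327 _)
               (CovZ.n1 (-21528, 8832) (by decide +kernel)
                (CovZ.leaf K2_ok TB_l16328 _)
                (CovZ.leaf K2_ok TB_l16329 _)))
              (CovZ.n1 (-21576, 8808) (by decide +kernel)
               (CovZ.n2 (-21576, 8832) (by decide +kernel)
                (CovZ.leaf K2_ok TB_l16330 _)
                (CovZ.leaf K2_ok TB_l16331 _))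
               (CovZ.n1 (-21552, 8808) (by decide +kernel)
                (CovZ.leaf K2_ok TB_l16332 _)
                (CovZ.leaf K2_ok TB_l16333 _)))))
            (CovZ.n1 (-21648, 8784) (by decide +kernel)
             (CovZ.n2 (-21648, 8832) (by decide +kernel)
              (CovZ.n2 (-21624, 8808) (by decide +kernel)
               (CovZ.leaf K2_ok TB_l16334 _)
               (CovZ.n1 (-21624, 8832) (by decide +kernel)
                (CovZ.leaf K2_ok TB_l16335 _)
                (CovZ.leaf K2_ok TB_l16336 _)))
              (CovZ.n1 (-21672, 8808) (by decide +kernel)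
               (CovZ.n2 (-21672, 8832) (by decide +kernel)
                (CovZ.leaf K2_ok TB_l16337 _)
                (CovZ.leaf K2_ok TB_l16338 _))
               (CovZ.leaf K2_ok TB_l16339 _)))
             (CovZ.n1 (-21600, 8784) (by decide +kernel)
              (CovZ.n2 (-21624, 8760) (by decide +kernel)
               (CovZ.n2 (-21624, 8784) (by decide +kernel)
                (CovZ.leaf K2_ok TB_l16340 _)
                (CovZ.leaf K2_ok TB_l16341 _))
               (CovZ.leaf K2_ok TB_l16342 _))
              (CovZ.n1 (-21624, 8808) (by decide +kernel)
               (CovZ.leaf K2_ok TB_l16343 _)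
               (CovZ.n1 (-21624, 8784) (by decide +kernel)
                (CovZ.leaf K2_ok TB_l16344 _)
                (CovZ.leaf K2_ok TB_l16345 _)))))))
          (CovZ.n1 (-21792, 8736) (by decide +kernel)
           (CovZ.n2 (-21792, 8832) (by decide +kernel)
            (CovZ.n2 (-21744, 8784) (by decide +kernel)
             (CovZ.n2 (-21792, 8784) (by decide +kernel)
              (CovZ.n2 (-21768, 8808) (by decide +kernel)
               (CovZ.leaf K2_ok TB_l16346 _)
               (CovZ.leaf K2_ok TB_l16347 _))
              (CovZ.n1 (-21768, 8760) (by decide +kernel)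
               (CovZ.leaf K2_ok TB_l16348 _)
               (CovZ.leaf K2_ok TB_l16349 _)))
             (CovZ.n1 (-21744, 8832) (by decide +kernel)
              (CovZ.n2 (-21720, 8808) (by decide +kernel)
               (CovZ.leaf K2_ok TB_l16350 _)
               (CovZ.n1 (-21720, 8832) (by decide +kernel)
                (CovZ.leaf K2_ok TB_l16351 _)
                (CovZ.leaf K2_ok TB_l16352 _)))
              (CovZ.n1 (-21768, 8808) (by decide +kernel)
               (CovZ.n2 (-21768, 8832) (by decide +kernel)
                (CovZ.leaf K2_ok TB_l16353 _)
                (CovZ.leaf K2_ok TB_l16354 _))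
               (CovZ.leaf K2_ok TB_l16355 _))))
            (CovZ.n1 (-21840, 8784) (by decide +kernel)
             (CovZ.n2 (-21840, 8832) (by decide +kernel)
              (CovZ.n2 (-21816, 8808) (by decide +kernel)
               (CovZ.leaf K2_ok TB_l16356 _)
               (CovZ.n1 (-21816, 8832) (by decide +kernel)
                (CovZ.leaf K2_ok TB_l16357 _)
                (CovZ.leaf K2_ok TB_l16358 _)))
              (CovZ.n1 (-21864, 8808) (by decide +kernel)
               (CovZ.leaf K2_ok TB_l16359 _)
               (CovZ.leaf K2_ok TB_l16360 _)))
             (CovZ.n1 (-21792, 8784) (by decide +kernel)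
              (CovZ.n2 (-21816, 8760) (by decide +kernel)
               (CovZ.leaf K2_ok TB_l16361 _)
               (CovZ.leaf K2_ok TB_l16362 _))
              (CovZ.n1 (-21816, 8808) (by decide +kernel)
               (CovZ.leaf K2_ok TB_l16363 _)
               (CovZ.leaf K2_ok TB_l16364 _)))))
           (CovZ.n1 (-21696, 8736) (by decide +kernel)
            (CovZ.n2 (-21744, 8688) (by decide +kernel)
             (CovZ.n2 (-21744, 8736) (by decide +kernel)
              (CovZ.n2 (-21720, 8712) (by decide +kernel)
               (CovZ.leaf K2_ok TB_l16365 _)
               (CovZ.leaf K2_ok TB_l16366 _))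
              (CovZ.n1 (-21768, 8712) (by decide +kernel)
               (CovZ.leaf K2_ok TB_l16367 _)
               (CovZ.leaf K2_ok TB_l16368 _)))
             (CovZ.n1 (-21696, 8688) (by decide +kernel)
              (CovZ.n2 (-21720, 8664) (by decide +kernel)
               (CovZ.leaf K2_ok TB_l16369 _)
               (CovZ.leaf K2_ok TB_l16370 _))
              (CovZ.n1 (-21720, 8712) (by decide +kernel)
               (CovZ.leaf K2_ok TB_l16371 _)
               (CovZ.leaf K2_ok TB_l16372 _))))
            (CovZ.n1 (-21744, 8784) (by decide +kernel)
             (CovZ.n2 (-21696, 8784) (by decide +kernel)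
              (CovZ.n2 (-21720, 8760) (by decide +kernel)
               (CovZ.n2 (-21720, 8784) (by decide +kernel)
                (CovZ.leaf K2_ok TB_l16373 _)
                (CovZ.leaf K2_ok TB_l16374 _))
               (CovZ.leaf K2_ok TB_l16375 _))
              (CovZ.n1 (-21720, 8808) (by decide +kernel)
               (CovZ.leaf K2_ok TB_l16376 _)
               (CovZ.n1 (-21720, 8784) (by decide +kernel)
                (CovZ.leaf K2_ok TB_l16377 _)
                (CovZ.leaf K2_ok TB_l16378 _))))
             (CovZ.n1 (-21744, 8736) (by decide +kernel)
              (CovZ.n2 (-21768, 8760) (by decide +kernel)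
               (CovZ.leaf K2_ok TB_l16379 _)
               (CovZ.leaf K2_ok TB_l16380 _))
              (CovZ.n1 (-21720, 8760) (by decide +kernel)
               (CovZ.leaf K2_ok TB_l16381 _)
               (CovZ.leaf K2_ok TB_l16382 _)))))))

end Pool.Agent.TET
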