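import Pool.Agent.Helper38_TET.TB_M
import Pool.Agent.Helper38_TET.TB_L
import Pool.Agent.Helper38_TET.TB_12
import Pool.Agent.Helper38_TET.TB_33
import Pool.Agent.Helper38_TET.TB_54
import Pool.Agent.Helper38_TET.TB_55
import Pool.Agent.Helper38_TET.TB_73
import Pool.Agent.Helper38_TET.TB_74
import Pool.Agent.Helper38_TET.TB_76
import Pool.Agent.Helper38_TET.TB_77
import Pool.Agent.Helper38_TET.TB_88
import Pool.Agent.Helper38_TET.TB_89
import Pool.Agent.Helper38_TET.TB_93
import Pool.Agent.Helper38_TET.TB_105
import Pool.Agent.Helper38_TET.TB_107
import Pool.Agent.Helper38_TET.TB_125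
import Pool.Agent.Helper38_TET.TB_209
import Pool.Agent.Helper38_TET.TB_210
import Pool.Agent.Helper38_TET.TB_264
import Pool.Agent.Helper38_TET.TB_266
import Pool.Agent.Helper38_TET.TB_267
import Pool.Agent.Helper38_TET.TB_268
import Pool.Agent.Helper38_TET.TB_269
import Pool.Agent.Helper38_TET.TB_270
import Pool.Agent.Helper38_TET.TB_271
import Pool.Agent.Helper38_TET.TB_273
import Pool.Agent.Helper38_TET.TB_304
import Pool.Agent.Helper38_TET.TB_325
import Pool.Agent.Helper38_TET.TB_U11
import Pool.Agent.Helper38_TET.TB_U12
import Pool.Agent.Helper38_TET.TB_U13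
import Pool.Agent.Helper38_TET.TB_U14

/-!
# MP_c7c9bf_co: certificates, family TB
-/

set_option autoImplicit false
set_option maxRecDepth 100000

namespace Pool.Agent.TET

theorem TB_s2_7 : SqZ TB_M TB_L [0, 7, 6, 1] (-32256) (-4608) 1536 2 7 :=
  SqZ.mk (a := (-29184)) (b := (-27648)) (c := 6144) (d := 7680) (by norm_num) (by norm_num) (by norm_num) (by norm_num)
    (CovZ.topM TB_LL 5043457394365394529273025558466201509236072870761337087659388523153714458189193193378662585480373344373981804657639424 (by decide +kernel) (CovZ.n2 (-28416, 6912) (by decide +kernel)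
    (CovZ.n2 (-27648, 6912) (by decide +kernel)
     (CovZ.n2 (-28032, 6528) (by decide +kernel)
      (CovZ.n2 (-28032, 6912) (by decide +kernel)
       (CovZ.n2 (-27840, 6720) (by decide +kernel)
        (CovZ.leaf K2_ok TB_l8137 _)
        (CovZ.n1 (-27840, 6912) (by decide +kernel)
         (CovZ.leaf K2_ok TB_l8138 _)
         (CovZ.leaf K2_ok TB_l8139 _)))
       (CovZ.n1 (-28224, 6720) (by decide +kernel)
        (CovZ.n2 (-28224, 6912) (by decide +kernel)
         (CovZ.leaf K2_ok TB_l8140 _)
         (CovZ.leaf K2_ok TB_l8141 _))
        (CovZ.leaf K2_ok TB_l8142 _)))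
      (CovZ.subM 5043456793138493339171719218759136677129072138056934343249049115874137806808507171020738055326132428896643658396467200 (by decide +kernel)
       (CovZ.n1 (-27648, 6528) (by decide +kernel)
        (CovZ.n2 (-27840, 6336) (by decide +kernel)
         (CovZ.n2 (-27840, 6528) (by decide +kernel)
          (CovZ.leaf K2_ok TB_l8143 _)
          (CovZ.leaf K2_ok TB_l8144 _))
         (CovZ.n1 (-27648, 6336) (by decide +kernel)
          (CovZ.n2 (-27744, 6240) (by decide +kernel)
           (CovZ.leaf K2_ok TB_l8145 _)
           (CovZ.leaf K2_ok TB_l8146 _))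
          (CovZ.leaf K2_ok TB_l8147 _)))
        (CovZ.n1 (-27840, 6720) (by decide +kernel)
         (CovZ.leaf K2_ok TB_l8148 _)
         (CovZ.n1 (-27840, 6528) (by decide +kernel)
          (CovZ.leaf K2_ok TB_l8149 _)
          (CovZ.leaf K2_ok TB_l8150 _))))))
     (CovZ.n1 (-28032, 7296) (by decide +kernel)
      (CovZ.n2 (-27648, 7296) (by decide +kernel)
       (CovZ.n2 (-27840, 7104) (by decide +kernel)
        (CovZ.n2 (-27840, 7296) (by decide +kernel)
         (CovZ.leaf K2_ok TB_l8151 _)
         (CovZ.leaf K2_ok TB_l8152 _))
        (CovZ.leaf K2_ok TB_l8153 _))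
       (CovZ.n1 (-27840, 7488) (by decide +kernel)
        (CovZ.leaf K2_ok TB_l8154 _)
        (CovZ.leaf K2_ok TB_l8155 _)))
      (CovZ.n1 (-28032, 6912) (by decide +kernel)
       (CovZ.n2 (-28224, 7104) (by decide +kernel)
        (CovZ.leaf K2_ok TB_l8156 _)
        (CovZ.leaf K2_ok TB_l8157 _))
       (CovZ.n1 (-27840, 7104) (by decide +kernel)
        (CovZ.n2 (-27840, 6912) (by decide +kernel)
         (CovZ.leaf K2_ok TB_l8158 _)
         (CovZ.leaf K2_ok TB_l8159 _))
        (CovZ.leaf K2_ok TB_l8160 _)))))
    (CovZ.n1 (-28416, 6144) (by decide +kernel)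
     (CovZ.n2 (-28800, 6528) (by decide +kernel)
      (CovZ.n2 (-28416, 6528) (by decide +kernel)
       (CovZ.n2 (-28608, 6336) (by decide +kernel)
        (CovZ.n2 (-28608, 6528) (by decide +kernel)
         (CovZ.leaf K2_ok TB_l8161 _)
         (CovZ.leaf K2_ok TB_l8162 _))
        (CovZ.n1 (-28416, 6336) (by decide +kernel)
         (CovZ.leaf K2_ok TB_l8163 _)
         (CovZ.leaf K2_ok TB_l8164 _)))
       (CovZ.n1 (-28608, 6720) (by decide +kernel)
        (CovZ.leaf K2_ok TB_l8165 _)
        (CovZ.n1 (-28608, 6528) (by decide +kernel)
         (CovZ.leaf K2_ok TB_l8166 _)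
         (CovZ.leaf K2_ok TB_l8167 _))))
      (CovZ.n1 (-28800, 6144) (by decide +kernel)
       (CovZ.n2 (-28992, 6336) (by decide +kernel)
        (CovZ.leaf K2_ok TB_l8168 _)
        (CovZ.n1 (-28992, 6144) (by decide +kernel)
         (CovZ.leaf K2_ok TB_l8169 _)
         (CovZ.leaf K2_ok TB_l8170 _)))
       (CovZ.subM 5043456793138493339171719218759167759831347749722069107295704126455243277428999779971135313255331386257622678195142656 (by decide +kernel)
        (CovZ.n1 (-28608, 6336) (by decide +kernel)
         (CovZ.n2 (-28608, 6144) (by decide +kernel)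
          (CovZ.leaf K2_ok TB_l8171 _)
          (CovZ.leaf K2_ok TB_l8172 _))
         (CovZ.n1 (-28800, 6336) (by decide +kernel)
          (CovZ.leaf K2_ok TB_l8173 _)
          (CovZ.leaf K2_ok TB_l8174 _))))))
     (CovZ.n1 (-28032, 6528) (by decide +kernel)
      (CovZ.n2 (-28032, 6144) (by decide +kernel)
       (CovZ.n2 (-28224, 6336) (by decide +kernel)
        (CovZ.n2 (-28032, 6336) (by decide +kernel)
         (CovZ.leaf K2_ok TB_l8175 _)
         (CovZ.leaf K2_ok TB_l8176 _))
        (CovZ.n1 (-28224, 6144) (by decide +kernel)
         (CovZ.leaf K2_ok TB_l8177 _)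
         (CovZ.leaf K2_ok TB_l8178 _)))
       (CovZ.subM 5043456793138493339171719218759136677129072138056934343249049115874137806808507171020738055326132428896643658396467200 (by decide +kernel)
        (CovZ.n1 (-27840, 6336) (by decide +kernel)
         (CovZ.n2 (-27840, 6144) (by decide +kernel)
          (CovZ.leaf K2_ok TB_l8179 _)
          (CovZ.n1 (-27744, 6240) (by decide +kernel)
           (CovZ.leaf K2_ok TB_l8180 _)
           (CovZ.leaf K2_ok TB_l8181 _)))
         (CovZ.n1 (-28032, 6336) (by decide +kernel)
          (CovZ.leaf K2_ok TB_l8182 _)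
          (CovZ.leaf K2_ok TB_l8183 _)))))
      (CovZ.n1 (-28416, 6528) (by decide +kernel)
       (CovZ.n2 (-28224, 6720) (by decide +kernel)
        (CovZ.n2 (-28224, 6528) (by decide +kernel)
         (CovZ.leaf K2_ok TB_l8184 _)
         (CovZ.leaf K2_ok TB_l8185 _))
        (CovZ.leaf K2_ok TB_l8186 _))
       (CovZ.n1 (-28224, 6336) (by decide +kernel)
        (CovZ.n2 (-28416, 6336) (by decide +kernel)
         (CovZ.leaf K2_ok TB_l8187 _)
         (CovZ.leaf K2_ok TB_l8188 _))
        (CovZ.n1 (-28224, 6528) (by decide +kernel)
         (CovZ.leaf K2_ok TB_l8189 _)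
         (CovZ.leaf K2_ok TB_l8190 _))))))))
    (CovZ.topM TB_LL 5043457394365394529273025558466201509236072870761337087659388523153714458189193193378662585480373344373981804657639424 (by decide +kernel) (CovZ.n0 (-28416, 6912) (by decide +kernel)
    (CovZ.n2 (-29184, 6912) (by decide +kernel)
     (CovZ.n2 (-28800, 7296) (by decide +kernel)
      (CovZ.n2 (-28800, 6912) (by decide +kernel)
       (CovZ.leaf K2_ok TB_l8191 _)
       (CovZ.n1 (-28608, 7104) (by decide +kernel)
        (CovZ.leaf K2_ok TB_l8192 _)
        (CovZ.leaf K2_ok TB_l8193 _)))
      (CovZ.n1 (-29184, 7296) (by decide +kernel)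
       (CovZ.leaf K2_ok TB_l8194 _)
       (CovZ.leaf K2_ok TB_l8195 _)))
     (CovZ.n1 (-28800, 6528) (by decide +kernel)
      (CovZ.n2 (-29184, 6528) (by decide +kernel)
       (CovZ.n2 (-28992, 6720) (by decide +kernel)
        (CovZ.leaf K2_ok TB_l8196 _)
        (CovZ.leaf K2_ok TB_l8197 _))
       (CovZ.n1 (-28992, 6336) (by decide +kernel)
        (CovZ.n2 (-29184, 6336) (by decide +kernel)
         (CovZ.leaf K2_ok TB_l8198 _)
         (CovZ.leaf K2_ok TB_l8199 _))
        (CovZ.leaf K2_ok TB_l8200 _)))
      (CovZ.n1 (-28800, 6912) (by decide +kernel)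
       (CovZ.n2 (-28608, 6720) (by decide +kernel)
        (CovZ.leaf K2_ok TB_l8201 _)
        (CovZ.leaf K2_ok TB_l8202 _))
       (CovZ.n1 (-28992, 6720) (by decide +kernel)
        (CovZ.leaf K2_ok TB_l8203 _)
        (CovZ.leaf K2_ok TB_l8204 _)))))
    (CovZ.n1 (-28416, 7680) (by decide +kernel)
     (CovZ.n2 (-28032, 7296) (by decide +kernel)
      (CovZ.n2 (-28416, 7296) (by decide +kernel)
       (CovZ.n2 (-28224, 7488) (by decide +kernel)
        (CovZ.leaf K2_ok TB_l8205 _)
        (CovZ.leaf K2_ok TB_l8206 _))
       (CovZ.n1 (-28224, 7104) (by decide +kernel)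
        (CovZ.leaf K2_ok TB_l8207 _)
        (CovZ.leaf K2_ok TB_l8208 _)))
      (CovZ.n1 (-28032, 7680) (by decide +kernel)
       (CovZ.n2 (-27840, 7488) (by decide +kernel)
        (CovZ.leaf K2_ok TB_l8209 _)
        (CovZ.leaf K2_ok TB_l8210 _))
       (CovZ.n1 (-28224, 7488) (by decide +kernel)
        (CovZ.leaf K2_ok TB_l8211 _)
        (CovZ.leaf K2_ok TB_l8212 _))))
     (CovZ.n1 (-28800, 7296) (by decide +kernel)
      (CovZ.n2 (-28800, 7680) (by decide +kernel)
       (CovZ.leaf K2_ok TB_l8213 _)
       (CovZ.leaf K2_ok TB_l8214 _))
      (CovZ.n1 (-28416, 7296) (by decide +kernel)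
       (CovZ.leaf K2_ok TB_l8215 _)
       (CovZ.leaf K2_ok TB_l8216 _))))))

theorem TB_s3_7 : SqZ TB_M TB_L [0, 7, 6, 1] (-32256) (-4608) 1536 3 7 :=
  SqZ.mk (a := (-27648)) (b := (-26112)) (c := 6144) (d := 7680) (by norm_num) (by norm_num) (by norm_num) (by norm_num)
    (CovZ.topM TB_LL 5043456793138493339171719218759136677129072138056934343352696619728842679586538891008727766415544485102882922155999232 (by decide +kernel) (CovZ.n2 (-26880, 6912) (by decide +kernel)
    (CovZ.subM 15914343565113172548972232070059917996931010207095564998146977052440791275573642438901760 (by decide +kernel)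
     (CovZ.n2 (-26112, 6912) (by decide +kernel)
      (CovZ.n2 (-26496, 6528) (by decide +kernel)
       (CovZ.n2 (-26496, 6912) (by decide +kernel)
        (CovZ.badM (by decide +kernel))
        (CovZ.n1 (-26688, 6720) (by decide +kernel)
         (CovZ.n2 (-26688, 6912) (by decide +kernel)
          (CovZ.subM 15914343565113172548972231940698266883214596825515126958094847260581103904401068017319936 (by decide +kernel)
           (CovZ.n2 (-26592, 6816) (by decide +kernel)
            (CovZ.n2 (-26688, 6816) (by decide +kernel)
             (CovZ.leaf K2_ok TB_l10962 _)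
             (CovZ.n1 (-26640, 6768) (by decide +kernel)
              (CovZ.leaf K2_ok TB_l10963 _)
              (CovZ.leaf K2_ok TB_l10964 _)))
            (CovZ.n1 (-26592, 6912) (by decide +kernel)
             (CovZ.leaf K2_ok TB_l10965 _)
             (CovZ.leaf K2_ok TB_l10966 _))))
          (CovZ.n1 (-26784, 6816) (by decide +kernel)
           (CovZ.leaf K2_ok TB_l10967 _)
           (CovZ.leaf K2_ok TB_l10968 _)))
         (CovZ.badM (by decide +kernel))))
       (CovZ.badM (by decide +kernel)))
      (CovZ.n1 (-26496, 7296) (by decide +kernel)
       (CovZ.n2 (-26112, 7296) (by decide +kernel)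
        (CovZ.subM 15914343565113172548972231940701405434082293020392430264726213210361093981113572800069632 (by decide +kernel)
         (CovZ.n2 (-26304, 7104) (by decide +kernel)
          (CovZ.n2 (-26304, 7296) (by decide +kernel)
           (CovZ.n2 (-26208, 7200) (by decide +kernel)
            (CovZ.n2 (-26304, 7200) (by decide +kernel)
             (CovZ.leaf K2_ok TB_l10981 _)
             (CovZ.leaf K2_ok TB_l10982 _))
            (CovZ.n1 (-26208, 7296) (by decide +kernel)
             (CovZ.leaf K2_ok TB_l10983 _)
             (CovZ.leaf K2_ok TB_l10984 _)))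
           (CovZ.n1 (-26400, 7200) (by decide +kernel)
            (CovZ.leaf K2_ok TB_l10985 _)
            (CovZ.leaf K2_ok TB_l10986 _)))
          (CovZ.badM (by decide +kernel))))
        (CovZ.n1 (-26304, 7488) (by decide +kernel)
         (CovZ.n2 (-26112, 7488) (by decide +kernel)
          (CovZ.subM 15914343565113172548972231940701405434082293020392430264726213210361093981113572800069632 (by decide +kernel)
           (CovZ.n2 (-26208, 7392) (by decide +kernel)
            (CovZ.n2 (-26208, 7488) (by decide +kernel)
             (CovZ.leaf K2_ok TB_l11002 _)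
             (CovZ.leaf K2_ok TB_l11003 _))
            (CovZ.n1 (-26112, 7392) (by decide +kernel)
             (CovZ.leaf K2_ok TB_l11004 _)
             (CovZ.leaf K2_ok TB_l11005 _))))
          (CovZ.n1 (-26208, 7584) (by decide +kernel)
           (CovZ.n2 (-26112, 7584) (by decide +kernel)
            (CovZ.leaf K2_ok TB_l11006 _)
            (CovZ.leaf K2_ok TB_l11007 _))
           (CovZ.n1 (-26208, 7488) (by decide +kernel)
            (CovZ.leaf K2_ok TB_l11008 _)
            (CovZ.leaf K2_ok TB_l11009 _))))
         (CovZ.subM 15914343565113172548972231940701405434082293020392430264726213210361093981113572800069632 (by decide +kernel)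
          (CovZ.n1 (-26304, 7296) (by decide +kernel)
           (CovZ.n2 (-26400, 7392) (by decide +kernel)
            (CovZ.leaf K2_ok TB_l11010 _)
            (CovZ.leaf K2_ok TB_l11011 _))
           (CovZ.n1 (-26208, 7392) (by decide +kernel)
            (CovZ.n2 (-26208, 7296) (by decide +kernel)
             (CovZ.leaf K2_ok TB_l11012 _)
             (CovZ.leaf K2_ok TB_l11013 _))
            (CovZ.leaf K2_ok TB_l11014 _))))))
       (CovZ.n1 (-26496, 6912) (by decide +kernel)
        (CovZ.n2 (-26688, 7104) (by decide +kernel)
         (CovZ.subM 15914343565113172548972231940701405434082293020392430264726213210361093981113572800069632 (by decide +kernel)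
          (CovZ.n2 (-26496, 7104) (by decide +kernel)
           (CovZ.n2 (-26592, 7008) (by decide +kernel)
            (CovZ.leaf K2_ok TB_l11015 _)
            (CovZ.leaf K2_ok TB_l11016 _))
           (CovZ.n1 (-26592, 7200) (by decide +kernel)
            (CovZ.leaf K2_ok TB_l11017 _)
            (CovZ.leaf K2_ok TB_l11018 _))))
         (CovZ.n1 (-26688, 6912) (by decide +kernel)
          (CovZ.n2 (-26784, 7008) (by decide +kernel)
           (CovZ.leaf K2_ok TB_l11019 _)
           (CovZ.leaf K2_ok TB_l11020 _))
          (CovZ.n1 (-26592, 7008) (by decide +kernel)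
           (CovZ.n2 (-26592, 6912) (by decide +kernel)
            (CovZ.leaf K2_ok TB_l11021 _)
            (CovZ.leaf K2_ok TB_l11022 _))
           (CovZ.leaf K2_ok TB_l11023 _))))
        (CovZ.subM 15914343565113172548972231940701405434082293020392430264726213210361093981113572800069632 (by decide +kernel)
         (CovZ.n1 (-26304, 7104) (by decide +kernel)
          (CovZ.badM (by decide +kernel))
          (CovZ.n1 (-26496, 7104) (by decide +kernel)
           (CovZ.n2 (-26400, 7200) (by decide +kernel)
            (CovZ.n2 (-26400, 7104) (by decide +kernel)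
             (CovZ.leaf K2_ok TB_l11025 _)
             (CovZ.leaf K2_ok TB_l39601 _))
            (CovZ.leaf K2_ok TB_l11026 _))
           (CovZ.n1 (-26400, 7008) (by decide +kernel)
            (CovZ.n2 (-26496, 7008) (by decide +kernel)
             (CovZ.leaf K2_ok TB_l11027 _)
             (CovZ.leaf K2_ok TB_l11028 _))
            (CovZ.n1 (-26400, 7104) (by decide +kernel)
             (CovZ.leaf K2_ok TB_l39602 _)
             (CovZ.leaf K2_ok TB_l11029 _))))))))))
    (CovZ.n1 (-26880, 6144) (by decide +kernel)
     TB_u171
     TB_u172)))
    (CovZ.topM TB_LL 5043456793138493339171719218759136677129072138056934343352696619728842679586538891008727766415544485102882922164387840 (by decide +kernel) (CovZ.n0 (-26880, 6912) (by decide +kernel)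
    (CovZ.n2 (-27648, 6912) (by decide +kernel)
     (CovZ.n2 (-27264, 7296) (by decide +kernel)
      (CovZ.n2 (-27264, 6912) (by decide +kernel)
       (CovZ.n2 (-27456, 7104) (by decide +kernel)
        (CovZ.leaf K2_ok TB_l11098 _)
        (CovZ.n1 (-27456, 6912) (by decide +kernel)
         (CovZ.leaf K2_ok TB_l11099 _)
         (CovZ.leaf K2_ok TB_l11100 _)))
       (CovZ.subM 15914343565113172548972231966412414142226137518266804536631825970517641699014860217778176 (by decide +kernel)
        (CovZ.n1 (-27072, 7104) (by decide +kernel)
         (CovZ.n2 (-27072, 6912) (by decide +kernel)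
          (CovZ.leaf K2_ok TB_l11101 _)
          (CovZ.leaf K2_ok TB_l11102 _))
         (CovZ.n1 (-27264, 7104) (by decide +kernel)
          (CovZ.leaf K2_ok TB_l11103 _)
          (CovZ.leaf K2_ok TB_l11104 _)))))
      (CovZ.n1 (-27648, 7296) (by decide +kernel)
       (CovZ.n2 (-27456, 7488) (by decide +kernel)
        (CovZ.n2 (-27456, 7296) (by decide +kernel)
         (CovZ.leaf K2_ok TB_l11105 _)
         (CovZ.leaf K2_ok TB_l11106 _))
        (CovZ.leaf K2_ok TB_l11107 _))
       (CovZ.n1 (-27456, 7104) (by decide +kernel)
        (CovZ.leaf K2_ok TB_l11108 _)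
        (CovZ.n1 (-27456, 7296) (by decide +kernel)
         (CovZ.leaf K2_ok TB_l11109 _)
         (CovZ.leaf K2_ok TB_l11110 _)))))
     (CovZ.n1 (-27264, 6528) (by decide +kernel)
      (CovZ.n2 (-27648, 6528) (by decide +kernel)
       (CovZ.n2 (-27456, 6720) (by decide +kernel)
        (CovZ.n2 (-27456, 6528) (by decide +kernel)
         (CovZ.leaf K2_ok TB_l11111 _)
         (CovZ.leaf K2_ok TB_l11112 _))
        (CovZ.n1 (-27648, 6720) (by decide +kernel)
         (CovZ.leaf K2_ok TB_l11113 _)
         (CovZ.leaf K2_ok TB_l11114 _)))
       (CovZ.n1 (-27456, 6336) (by decide +kernel)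
        (CovZ.n2 (-27648, 6336) (by decide +kernel)
         (CovZ.n2 (-27552, 6432) (by decide +kernel)
          (CovZ.leaf K2_ok TB_l11115 _)
          (CovZ.leaf K2_ok TB_l11116 _))
         (CovZ.n1 (-27552, 6240) (by decide +kernel)
          (CovZ.leaf K2_ok TB_l11117 _)
          (CovZ.leaf K2_ok TB_l11118 _)))
        (CovZ.n1 (-27456, 6528) (by decide +kernel)
         (CovZ.n2 (-27360, 6432) (by decide +kernel)
          (CovZ.leaf K2_ok TB_l11119 _)
          (CovZ.leaf K2_ok TB_l11120 _))
         (CovZ.leaf K2_ok TB_l11121 _))))
      (CovZ.n1 (-27264, 6912) (by decide +kernel)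
       (CovZ.subM 15914343565113172548972231966412414142226137518266804536631825970517641699014860209389568 (by decide +kernel)
        (CovZ.n2 (-27072, 6720) (by decide +kernel)
         (CovZ.n2 (-27264, 6720) (by decide +kernel)
          (CovZ.leaf K2_ok TB_l11122 _)
          (CovZ.n1 (-27168, 6624) (by decide +kernel)
           (CovZ.leaf K2_ok TB_l11123 _)
           (CovZ.leaf K2_ok TB_l11124 _)))
         (CovZ.n1 (-27072, 6912) (by decide +kernel)
          (CovZ.n2 (-26976, 6816) (by decide +kernel)
           (CovZ.leaf K2_ok TB_l11125 _)
           (CovZ.leaf K2_ok TB_l11126 _))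
          (CovZ.leaf K2_ok TB_l11127 _))))
       (CovZ.n1 (-27456, 6720) (by decide +kernel)
        (CovZ.n2 (-27456, 6912) (by decide +kernel)
         (CovZ.leaf K2_ok TB_l11128 _)
         (CovZ.leaf K2_ok TB_l11129 _))
        (CovZ.n1 (-27264, 6720) (by decide +kernel)
         (CovZ.leaf K2_ok TB_l11130 _)
         (CovZ.leaf K2_ok TB_l11131 _))))))
    (CovZ.n1 (-26880, 7680) (by decide +kernel)
     (CovZ.subM 15914343565113172548972232070059917996931010207095564998146977052440791275573642438901760 (by decide +kernel)
      (CovZ.n2 (-26496, 7296) (by decide +kernel)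
       (CovZ.n2 (-26880, 7296) (by decide +kernel)
        (CovZ.n2 (-26688, 7488) (by decide +kernel)
         (CovZ.n2 (-26688, 7296) (by decide +kernel)
          (CovZ.leaf K2_ok TB_l11132 _)
          (CovZ.n1 (-26592, 7392) (by decide +kernel)
           (CovZ.leaf K2_ok TB_l11133 _)
           (CovZ.leaf K2_ok TB_l11134 _)))
         (CovZ.n1 (-26880, 7488) (by decide +kernel)
          (CovZ.leaf K2_ok TB_l11135 _)
          (CovZ.leaf K2_ok TB_l11136 _)))
        (CovZ.n1 (-26688, 7104) (by decide +kernel)
         (CovZ.n2 (-26880, 7104) (by decide +kernel)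
          (CovZ.leaf K2_ok TB_l11137 _)
          (CovZ.n1 (-26784, 7008) (by decide +kernel)
           (CovZ.leaf K2_ok TB_l11138 _)
           (CovZ.leaf K2_ok TB_l11139 _)))
         (CovZ.n1 (-26688, 7296) (by decide +kernel)
          (CovZ.n2 (-26592, 7200) (by decide +kernel)
           (CovZ.leaf K2_ok TB_l11140 _)
           (CovZ.leaf K2_ok TB_l11141 _))
          (CovZ.leaf K2_ok TB_l11142 _))))
       (CovZ.n1 (-26496, 7680) (by decide +kernel)
        (CovZ.n2 (-26304, 7488) (by decide +kernel)
         (CovZ.n2 (-26496, 7488) (by decide +kernel)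
          (CovZ.n2 (-26400, 7584) (by decide +kernel)
           (CovZ.leaf K2_ok TB_l11143 _)
           (CovZ.leaf K2_ok TB_l11144 _))
          (CovZ.n1 (-26400, 7392) (by decide +kernel)
           (CovZ.leaf K2_ok TB_l11145 _)
           (CovZ.leaf K2_ok TB_l11146 _)))
         (CovZ.n1 (-26304, 7680) (by decide +kernel)
          (CovZ.n2 (-26208, 7584) (by decide +kernel)
           (CovZ.leaf K2_ok TB_l11147 _)
           (CovZ.n1 (-26208, 7680) (by decide +kernel)
            (CovZ.leaf K2_ok TB_l11148 _)
            (CovZ.leaf K2_ok TB_l11149 _)))
          (CovZ.n1 (-26400, 7584) (by decide +kernel)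
           (CovZ.n2 (-26400, 7680) (by decide +kernel)
            (CovZ.leaf K2_ok TB_l11150 _)
            (CovZ.leaf K2_ok TB_l11151 _))
           (CovZ.leaf K2_ok TB_l11152 _))))
        (CovZ.n1 (-26688, 7488) (by decide +kernel)
         (CovZ.n2 (-26688, 7680) (by decide +kernel)
          (CovZ.n2 (-26592, 7584) (by decide +kernel)
           (CovZ.leaf K2_ok TB_l11153 _)
           (CovZ.leaf K2_ok TB_l11154 _))
          (CovZ.leaf K2_ok TB_l11155 _))
         (CovZ.n1 (-26496, 7488) (by decide +kernel)
          (CovZ.leaf K2_ok TB_l11156 _)
          (CovZ.n1 (-26592, 7584) (by decide +kernel)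
           (CovZ.leaf K2_ok TB_l11157 _)
           (CovZ.leaf K2_ok TB_l11158 _)))))))
     (CovZ.n1 (-27264, 7296) (by decide +kernel)
      (CovZ.n2 (-27264, 7680) (by decide +kernel)
       (CovZ.subM 15914343565113172548972232069256448974801515158527564746098888317322562869275692053561344 (by decide +kernel)
        (CovZ.n2 (-27072, 7488) (by decide +kernel)
         (CovZ.n2 (-27264, 7488) (by decide +kernel)
          (CovZ.leaf K2_ok TB_l11159 _)
          (CovZ.leaf K2_ok TB_l11160 _))
         (CovZ.n1 (-27072, 7680) (by decide +kernel)
          (CovZ.leaf K2_ok TB_l11161 _)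
          (CovZ.leaf K2_ok TB_l11162 _))))
       (CovZ.n1 (-27456, 7488) (by decide +kernel)
        (CovZ.n2 (-27456, 7680) (by decide +kernel)
         (CovZ.leaf K2_ok TB_l11163 _)
         (CovZ.leaf K2_ok TB_l11164 _))
        (CovZ.leaf K2_ok TB_l11165 _)))
      (CovZ.subM 15914343565113172548972232069256448974801515158527564746098888317322562869275692053561344 (by decide +kernel)
       (CovZ.n1 (-26880, 7296) (by decide +kernel)
        (CovZ.n2 (-27072, 7104) (by decide +kernel)
         (CovZ.n2 (-27072, 7296) (by decide +kernel)
          (CovZ.leaf K2_ok TB_l11166 _)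
          (CovZ.leaf K2_ok TB_l11167 _))
         (CovZ.n1 (-26880, 7104) (by decide +kernel)
          (CovZ.leaf K2_ok TB_l11168 _)
          (CovZ.leaf K2_ok TB_l11169 _)))
        (CovZ.n1 (-27072, 7488) (by decide +kernel)
         (CovZ.n2 (-26880, 7488) (by decide +kernel)
          (CovZ.leaf K2_ok TB_l11170 _)
          (CovZ.leaf K2_ok TB_l11171 _))
         (CovZ.n1 (-27072, 7296) (by decide +kernel)
          (CovZ.leaf K2_ok TB_l11172 _)
          (CovZ.leaf K2_ok TB_l11173 _)))))))))

theorem TB_s4_7 : SqZ TB_M TB_L [0, 7, 6, 1] (-32256) (-4608) 1536 4 7 :=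
  SqZ.mk (a := (-26112)) (b := (-24576)) (c := 6144) (d := 7680) (by norm_num) (by norm_num) (by norm_num) (by norm_num)
    (CovZ.topM TB_LL 103647503854704872778031741255637643648066022667152228253433856 (by decide +kernel) (CovZ.n2 (-25344, 6912) (by decide +kernel)
    (CovZ.n2 (-24576, 6912) (by decide +kernel)
     (CovZ.badM (by decide +kernel))
     (CovZ.n1 (-24960, 7296) (by decide +kernel)
      (CovZ.n2 (-24576, 7296) (by decide +kernel)
       (CovZ.badM (by decide +kernel))
       (CovZ.n1 (-24768, 7488) (by decide +kernel)
        (CovZ.n2 (-24576, 7488) (by decide +kernel)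
         (CovZ.badM (by decide +kernel))
         (CovZ.n1 (-24672, 7584) (by decide +kernel)
          (CovZ.n2 (-24576, 7584) (by decide +kernel)
           (CovZ.badM (by decide +kernel))
           (CovZ.n1 (-24624, 7632) (by decide +kernel)
            (CovZ.n2 (-24576, 7632) (by decide +kernel)
             (CovZ.badM (by decide +kernel))
             (CovZ.n1 (-24600, 7656) (by decide +kernel)
              (CovZ.leaf K2_ok TB_l39929 _)
              (CovZ.n1 (-24600, 7632) (by decide +kernel)
               (CovZ.leaf K2_ok TB_l39930 _)
               (CovZ.leaf K2_ok TB_l39931 _))))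
            (CovZ.badM (by decide +kernel))))
          (CovZ.badM (by decide +kernel))))
        (CovZ.badM (by decide +kernel))))
      (CovZ.badM (by decide +kernel))))
    (CovZ.badM (by decide +kernel))))
    (CovZ.topM TB_LL 34996011596544105133525148806430914077695059803580186148610753874079611844048441888224476633422364672 (by decide +kernel) (CovZ.n0 (-25344, 6912) (by decide +kernel)
    TB_u175
    TB_u176))

theorem TB_s5_7 : SqZ TB_M TB_L [0, 7, 6, 1] (-32256) (-4608) 1536 5 7 :=
  SqZ.mk (a := (-24576)) (b := (-23040)) (c := 6144) (d := 7680) (by norm_num) (by norm_num) (by norm_num) (by norm_num)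
    (CovZ.topM TB_LL 630432099142311676145467540734345518371284736797932608099850430348682874684177464305929992376613824709748411192049664 (by decide +kernel) (CovZ.n2 (-23808, 6912) (by decide +kernel)
    (CovZ.n2 (-23040, 6912) (by decide +kernel)
     (CovZ.n2 (-23424, 6528) (by decide +kernel)
      (CovZ.n2 (-23424, 6912) (by decide +kernel)
       (CovZ.badM (by decide +kernel))
       (CovZ.badM (by decide +kernel)))
      (CovZ.badM (by decide +kernel)))
     (CovZ.n1 (-23424, 7296) (by decide +kernel)
      (CovZ.n2 (-23040, 7296) (by decide +kernel)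
       (CovZ.n2 (-23232, 7104) (by decide +kernel)
        (CovZ.n2 (-23232, 7296) (by decide +kernel)
         (CovZ.badM (by decide +kernel))
         (CovZ.badM (by decide +kernel)))
        (CovZ.badM (by decide +kernel)))
       (CovZ.n1 (-23232, 7488) (by decide +kernel)
        (CovZ.n2 (-23040, 7488) (by decide +kernel)
         (CovZ.n2 (-23136, 7392) (by decide +kernel)
          (CovZ.n2 (-23136, 7488) (by decide +kernel)
           (CovZ.badM (by decide +kernel))
           (CovZ.badM (by decide +kernel)))
          (CovZ.badM (by decide +kernel)))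
         (CovZ.n1 (-23136, 7584) (by decide +kernel)
          (CovZ.n2 (-23040, 7584) (by decide +kernel)
           (CovZ.badM (by decide +kernel))
           (CovZ.n1 (-23088, 7632) (by decide +kernel)
            (CovZ.n2 (-23040, 7632) (by decide +kernel)
             (CovZ.subM 8749002899132047697490008908470485461412677723572896513755477014533194514712150613950681697933590528 (by decide +kernel)
              (CovZ.n2 (-23064, 7608) (by decide +kernel)
               (CovZ.n2 (-23064, 7632) (by decide +kernel)
                (CovZ.leaf K2_ok TB_l14061 _)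
                (CovZ.badM (by decide +kernel)))
               (CovZ.n1 (-23040, 7608) (by decide +kernel)
                (CovZ.badM (by decide +kernel))
                (CovZ.leaf K2_ok TB_l14062 _))))
             (CovZ.n1 (-23064, 7656) (by decide +kernel)
              (CovZ.leaf K2_ok TB_l14063 _)
              (CovZ.n1 (-23064, 7632) (by decide +kernel)
               (CovZ.leaf K2_ok TB_l14064 _)
               (CovZ.leaf K2_ok TB_l14065 _))))
            (CovZ.n1 (-23088, 7584) (by decide +kernel)
             (CovZ.badM (by decide +kernel))
             (CovZ.n1 (-23064, 7608) (by decide +kernel)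
              (CovZ.badM (by decide +kernel))
              (CovZ.badM (by decide +kernel))))))
          (CovZ.n1 (-23136, 7488) (by decide +kernel)
           (CovZ.badM (by decide +kernel))
           (CovZ.badM (by decide +kernel)))))
        (CovZ.n1 (-23232, 7296) (by decide +kernel)
         (CovZ.badM (by decide +kernel))
         (CovZ.n1 (-23136, 7392) (by decide +kernel)
          (CovZ.badM (by decide +kernel))
          (CovZ.badM (by decide +kernel))))))
      (CovZ.n1 (-23424, 6912) (by decide +kernel)
       (CovZ.badM (by decide +kernel))
       (CovZ.n1 (-23232, 7104) (by decide +kernel)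
        (CovZ.badM (by decide +kernel))
        (CovZ.badM (by decide +kernel))))))
    (CovZ.n1 (-23808, 6144) (by decide +kernel)
     (CovZ.badM (by decide +kernel))
     (CovZ.n1 (-23424, 6528) (by decide +kernel)
      (CovZ.badM (by decide +kernel))
      (CovZ.badM (by decide +kernel))))))
    (CovZ.topM TB_LL 630432099142311676145467540734345518371284736797932608203497934203387770292597102557293077171871429000660731192934400 (by decide +kernel) (CovZ.n0 (-23808, 6912) (by decide +kernel)
    (CovZ.subM 103647503854704872778031741255637643648066022667152228253433856 (by decide +kernel)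
     (CovZ.n2 (-24576, 6912) (by decide +kernel)
      (CovZ.n2 (-24192, 7296) (by decide +kernel)
       (CovZ.badM (by decide +kernel))
       (CovZ.n1 (-24576, 7296) (by decide +kernel)
        (CovZ.n2 (-24384, 7488) (by decide +kernel)
         (CovZ.badM (by decide +kernel))
         (CovZ.n1 (-24576, 7488) (by decide +kernel)
          (CovZ.n2 (-24480, 7584) (by decide +kernel)
           (CovZ.badM (by decide +kernel))
           (CovZ.n1 (-24576, 7584) (by decide +kernel)
            (CovZ.n2 (-24528, 7632) (by decide +kernel)
             (CovZ.badM (by decide +kernel))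
             (CovZ.n1 (-24576, 7632) (by decide +kernel)
              (CovZ.n2 (-24552, 7656) (by decide +kernel)
               (CovZ.n2 (-24552, 7632) (by decide +kernel)
                (CovZ.leaf K2_ok TB_l40125 _)
                (CovZ.leaf K2_ok TB_l40126 _))
               (CovZ.leaf K2_ok TB_l40127 _))
              (CovZ.badM (by decide +kernel))))
            (CovZ.badM (by decide +kernel))))
          (CovZ.badM (by decide +kernel))))
        (CovZ.badM (by decide +kernel))))
      (CovZ.badM (by decide +kernel))))
    (CovZ.n1 (-23808, 7680) (by decide +kernel)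
     (CovZ.n2 (-23424, 7296) (by decide +kernel)
      (CovZ.badM (by decide +kernel))
      (CovZ.n1 (-23424, 7680) (by decide +kernel)
       (CovZ.subM 630432099142311676145467540734345518371284736797932608099850430348682874678602278006297336591229895141586320815554560 (by decide +kernel)
        (CovZ.n2 (-23232, 7488) (by decide +kernel)
         (CovZ.badM (by decide +kernel))
         (CovZ.n1 (-23232, 7680) (by decide +kernel)
          (CovZ.n2 (-23136, 7584) (by decide +kernel)
           (CovZ.badM (by decide +kernel))
           (CovZ.n1 (-23136, 7680) (by decide +kernel)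
            (CovZ.n2 (-23088, 7632) (by decide +kernel)
             (CovZ.n2 (-23136, 7632) (by decide +kernel)
              (CovZ.n2 (-23112, 7656) (by decide +kernel)
               (CovZ.n2 (-23112, 7632) (by decide +kernel)
                (CovZ.leaf K2_ok TB_l48674 _)
                (CovZ.leaf K2_ok TB_l48675 _))
               (CovZ.n1 (-23136, 7656) (by decide +kernel)
                (CovZ.leaf K2_ok TB_l48676 _)
                (CovZ.leaf K2_ok TB_l48677 _)))
              (CovZ.badM (by decide +kernel)))
             (CovZ.n1 (-23088, 7680) (by decide +kernel)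
              (CovZ.n2 (-23064, 7656) (by decide +kernel)
               (CovZ.leaf K2_ok TB_l14066 _)
               (CovZ.leaf K2_ok TB_l14067 _))
              (CovZ.n1 (-23112, 7656) (by decide +kernel)
               (CovZ.n2 (-23112, 7680) (by decide +kernel)
                (CovZ.leaf K2_ok TB_l14068 _)
                (CovZ.leaf K2_ok TB_l14069 _))
               (CovZ.leaf K2_ok TB_l14070 _))))
            (CovZ.n1 (-23184, 7632) (by decide +kernel)
             (CovZ.n2 (-23184, 7680) (by decide +kernel)
              (CovZ.n2 (-23160, 7656) (by decide +kernel)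
               (CovZ.badM (by decide +kernel))
               (CovZ.n1 (-23160, 7680) (by decide +kernel)
                (CovZ.leaf K2_ok TB_l48678 _)
                (CovZ.leaf K2_ok TB_l48679 _)))
              (CovZ.badM (by decide +kernel)))
             (CovZ.n1 (-23136, 7632) (by decide +kernel)
              (CovZ.badM (by decide +kernel))
              (CovZ.n1 (-23160, 7656) (by decide +kernel)
               (CovZ.n2 (-23136, 7656) (by decide +kernel)
                (CovZ.badM (by decide +kernel))
                (CovZ.leaf K2_ok TB_l48680 _))
               (CovZ.badM (by decide +kernel)))))))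
          (CovZ.badM (by decide +kernel)))))
       (CovZ.badM (by decide +kernel))))
     (CovZ.subM 103647503854704872778031741255637643648066022667152228253433856 (by decide +kernel)
      (CovZ.n1 (-24192, 7296) (by decide +kernel)
       (CovZ.n2 (-24192, 7680) (by decide +kernel)
        (CovZ.badM (by decide +kernel))
        (CovZ.n1 (-24384, 7488) (by decide +kernel)
         (CovZ.n2 (-24384, 7680) (by decide +kernel)
          (CovZ.n2 (-24288, 7584) (by decide +kernel)
           (CovZ.n2 (-24384, 7584) (by decide +kernel)
            (CovZ.n2 (-24336, 7632) (by decide +kernel)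
             (CovZ.badM (by decide +kernel))
             (CovZ.n1 (-24384, 7632) (by decide +kernel)
              (CovZ.n2 (-24360, 7656) (by decide +kernel)
               (CovZ.n2 (-24360, 7632) (by decide +kernel)
                (CovZ.leaf K2_ok TB_l40128 _)
                (CovZ.leaf K2_ok TB_l40129 _))
               (CovZ.n1 (-24384, 7656) (by decide +kernel)
                (CovZ.leaf K2_ok TB_l40130 _)
                (CovZ.leaf K2_ok TB_l40131 _)))
              (CovZ.badM (by decide +kernel))))
            (CovZ.badM (by decide +kernel)))
           (CovZ.n1 (-24288, 7680) (by decide +kernel)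
            (CovZ.n2 (-24240, 7632) (by decide +kernel)
             (CovZ.n2 (-24288, 7632) (by decide +kernel)
              (CovZ.n2 (-24264, 7656) (by decide +kernel)
               (CovZ.badM (by decide +kernel))
               (CovZ.n1 (-24288, 7656) (by decide +kernel)
                (CovZ.leaf K2_ok TB_l40132 _)
                (CovZ.badM (by decide +kernel))))
              (CovZ.badM (by decide +kernel)))
             (CovZ.n1 (-24240, 7680) (by decide +kernel)
              (CovZ.badM (by decide +kernel))
              (CovZ.n1 (-24264, 7656) (by decide +kernel)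
               (CovZ.n2 (-24264, 7680) (by decide +kernel)
                (CovZ.badM (by decide +kernel))
                (CovZ.leaf K2_ok TB_l40133 _))
               (CovZ.badM (by decide +kernel)))))
            (CovZ.n1 (-24336, 7632) (by decide +kernel)
             (CovZ.n2 (-24336, 7680) (by decide +kernel)
              (CovZ.n2 (-24312, 7656) (by decide +kernel)
               (CovZ.n2 (-24336, 7656) (by decide +kernel)
                (CovZ.leaf K2_ok TB_l40134 _)
                (CovZ.leaf K2_ok TB_l40135 _))
               (CovZ.n1 (-24312, 7680) (by decide +kernel)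
                (CovZ.leaf K2_ok TB_l40136 _)
                (CovZ.leaf K2_ok TB_l40137 _)))
              (CovZ.n1 (-24360, 7656) (by decide +kernel)
               (CovZ.n2 (-24360, 7680) (by decide +kernel)
                (CovZ.leaf K2_ok TB_l40138 _)
                (CovZ.leaf K2_ok TB_l40139 _))
               (CovZ.n1 (-24336, 7656) (by decide +kernel)
                (CovZ.leaf K2_ok TB_l40140 _)
                (CovZ.leaf K2_ok TB_l40141 _))))
             (CovZ.n1 (-24288, 7632) (by decide +kernel)
              (CovZ.badM (by decide +kernel))
              (CovZ.n1 (-24312, 7656) (by decide +kernel)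
               (CovZ.n2 (-24288, 7656) (by decide +kernel)
                (CovZ.leaf K2_ok TB_l40142 _)
                (CovZ.leaf K2_ok TB_l40143 _))
               (CovZ.n1 (-24312, 7632) (by decide +kernel)
                (CovZ.leaf K2_ok TB_l40144 _)
                (CovZ.leaf K2_ok TB_l40145 _)))))))
          (CovZ.n1 (-24480, 7584) (by decide +kernel)
           (CovZ.n2 (-24480, 7680) (by decide +kernel)
            (CovZ.n2 (-24432, 7632) (by decide +kernel)
             (CovZ.n2 (-24480, 7632) (by decide +kernel)
              (CovZ.n2 (-24456, 7656) (by decide +kernel)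
               (CovZ.n2 (-24456, 7632) (by decide +kernel)
                (CovZ.leaf K2_ok TB_l40146 _)
                (CovZ.leaf K2_ok TB_l40147 _))
               (CovZ.n1 (-24480, 7656) (by decide +kernel)
                (CovZ.leaf K2_ok TB_l14071 _)
                (CovZ.leaf K2_ok TB_l40148 _)))
              (CovZ.badM (by decide +kernel)))
             (CovZ.n1 (-24432, 7680) (by decide +kernel)
              (CovZ.n2 (-24408, 7656) (by decide +kernel)
               (CovZ.n2 (-24432, 7656) (by decide +kernel)
                (CovZ.leaf K2_ok TB_l40149 _)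
                (CovZ.leaf K2_ok TB_l40150 _))
               (CovZ.n1 (-24408, 7680) (by decide +kernel)
                (CovZ.leaf K2_ok TB_l40151 _)
                (CovZ.leaf K2_ok TB_l40152 _)))
              (CovZ.n1 (-24456, 7656) (by decide +kernel)
               (CovZ.n2 (-24456, 7680) (by decide +kernel)
                (CovZ.leaf K2_ok TB_l14072 _)
                (CovZ.leaf K2_ok TB_l14073 _))
               (CovZ.leaf K2_ok TB_l14074 _))))
            (CovZ.n1 (-24528, 7632) (by decide +kernel)
             (CovZ.n2 (-24528, 7680) (by decide +kernel)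
              (CovZ.n2 (-24504, 7656) (by decide +kernel)
               (CovZ.leaf K2_ok TB_l40153 _)
               (CovZ.leaf K2_ok TB_l14075 _))
              (CovZ.n1 (-24552, 7656) (by decide +kernel)
               (CovZ.n2 (-24552, 7680) (by decide +kernel)
                (CovZ.leaf K2_ok TB_l40154 _)
                (CovZ.leaf K2_ok TB_l40155 _))
               (CovZ.leaf K2_ok TB_l40156 _)))
             (CovZ.n1 (-24480, 7632) (by decide +kernel)
              (CovZ.badM (by decide +kernel))
              (CovZ.n1 (-24504, 7656) (by decide +kernel)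
               (CovZ.leaf K2_ok TB_l14076 _)
               (CovZ.n1 (-24504, 7632) (by decide +kernel)
                (CovZ.leaf K2_ok TB_l40157 _)
                (CovZ.leaf K2_ok TB_l40158 _))))))
           (CovZ.n1 (-24384, 7584) (by decide +kernel)
            (CovZ.badM (by decide +kernel))
            (CovZ.n1 (-24432, 7632) (by decide +kernel)
             (CovZ.n2 (-24384, 7632) (by decide +kernel)
              (CovZ.badM (by decide +kernel))
              (CovZ.n1 (-24408, 7656) (by decide +kernel)
               (CovZ.n2 (-24384, 7656) (by decide +kernel)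
                (CovZ.leaf K2_ok TB_l40159 _)
                (CovZ.leaf K2_ok TB_l40160 _))
               (CovZ.n1 (-24408, 7632) (by decide +kernel)
                (CovZ.leaf K2_ok TB_l40161 _)
                (CovZ.leaf K2_ok TB_l40162 _))))
             (CovZ.badM (by decide +kernel))))))
         (CovZ.badM (by decide +kernel))))
       (CovZ.badM (by decide +kernel)))))))

theorem TB_s6_7 : SqZ TB_M TB_L [0, 7, 6, 1] (-32256) (-4608) 1536 6 7 :=
  SqZ.mk (a := (-23040)) (b := (-21504)) (c := 6144) (d := 7680) (by norm_num) (by norm_num) (by norm_num) (by norm_num)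
    (CovZ.topM TB_LL 630432099142311672559725194528592580853193503110265587494070326533479571986716463520353662224439464068484596892704768 (by decide +kernel) (CovZ.n2 (-22272, 6912) (by decide +kernel)
    (CovZ.n2 (-21504, 6912) (by decide +kernel)
     (CovZ.n2 (-21888, 6528) (by decide +kernel)
      (CovZ.n2 (-21888, 6912) (by decide +kernel)
       (CovZ.badM (by decide +kernel))
       (CovZ.badM (by decide +kernel)))
      (CovZ.badM (by decide +kernel)))
     (CovZ.n1 (-21888, 7296) (by decide +kernel)
      (CovZ.n2 (-21504, 7296) (by decide +kernel)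
       (CovZ.n2 (-21696, 7104) (by decide +kernel)
        (CovZ.n2 (-21696, 7296) (by decide +kernel)
         (CovZ.badM (by decide +kernel))
         (CovZ.badM (by decide +kernel)))
        (CovZ.badM (by decide +kernel)))
       (CovZ.n1 (-21696, 7488) (by decide +kernel)
        (CovZ.subM 2669983794901137602993777132712045455551338571902425238854238267199489158332176510785247432941568 (by decide +kernel)
         (CovZ.n2 (-21504, 7488) (by decide +kernel)
          (CovZ.n2 (-21600, 7392) (by decide +kernel)
           (CovZ.n2 (-21600, 7488) (by decide +kernel)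
            (CovZ.subM 6289361723097634071997102890683826213031833671936424026112 (by decide +kernel)
             (CovZ.n2 (-21552, 7440) (by decide +kernel)
              (CovZ.n2 (-21600, 7440) (by decide +kernel)
               (CovZ.n2 (-21576, 7464) (by decide +kernel)
                (CovZ.leaf K2_ok TB_l40452 _)
                (CovZ.leaf K2_ok TB_l40453 _))
               (CovZ.n1 (-21576, 7416) (by decide +kernel)
                (CovZ.leaf K2_ok TB_l40454 _)
                (CovZ.n1 (-21576, 7440) (by decide +kernel)
                 (CovZ.leaf K2_ok TB_l40455 _)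
                 (CovZ.leaf K2_ok TB_l40456 _))))
              (CovZ.n1 (-21552, 7488) (by decide +kernel)
               (CovZ.n2 (-21528, 7464) (by decide +kernel)
                (CovZ.leaf K2_ok TB_l40457 _)
                (CovZ.leaf K2_ok TB_l40458 _))
               (CovZ.leaf K2_ok TB_l40459 _))))
            (CovZ.n1 (-21648, 7440) (by decide +kernel)
             (CovZ.n2 (-21648, 7488) (by decide +kernel)
              (CovZ.n2 (-21624, 7464) (by decide +kernel)
               (CovZ.leaf K2_ok TB_l15861 _)
               (CovZ.leaf K2_ok TB_l15862 _))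
              (CovZ.leaf K2_ok TB_l15863 _))
             (CovZ.n1 (-21600, 7440) (by decide +kernel)
              (CovZ.n2 (-21624, 7416) (by decide +kernel)
               (CovZ.n2 (-21624, 7440) (by decide +kernel)
                (CovZ.leaf K2_ok TB_l40460 _)
                (CovZ.leaf K2_ok TB_l15864 _))
               (CovZ.leaf K2_ok TB_l40461 _))
              (CovZ.n1 (-21624, 7464) (by decide +kernel)
               (CovZ.leaf K2_ok TB_l40462 _)
               (CovZ.leaf K2_ok TB_l15865 _)))))
           (CovZ.subM 6289361723097634071997102890683826213031833671936424026112 (by decide +kernel)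
            (CovZ.n1 (-21504, 7392) (by decide +kernel)
             (CovZ.badM (by decide +kernel))
             (CovZ.n1 (-21552, 7440) (by decide +kernel)
              (CovZ.n2 (-21504, 7440) (by decide +kernel)
               (CovZ.n2 (-21528, 7416) (by decide +kernel)
                (CovZ.n2 (-21528, 7440) (by decide +kernel)
                 (CovZ.leaf K2_ok TB_l40463 _)
                 (CovZ.leaf K2_ok TB_l40464 _))
                (CovZ.n1 (-21504, 7416) (by decide +kernel)
                 (CovZ.badM (by decide +kernel))
                 (CovZ.leaf K2_ok TB_l40465 _)))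
               (CovZ.n1 (-21528, 7464) (by decide +kernel)
                (CovZ.leaf K2_ok TB_l40466 _)
                (CovZ.n1 (-21528, 7440) (by decide +kernel)
                 (CovZ.leaf K2_ok TB_l40467 _)
                 (CovZ.leaf K2_ok TB_l40468 _))))
              (CovZ.n1 (-21552, 7392) (by decide +kernel)
               (CovZ.n2 (-21576, 7416) (by decide +kernel)
                (CovZ.n2 (-21552, 7416) (by decide +kernel)
                 (CovZ.badM (by decide +kernel))
                 (CovZ.leaf K2_ok TB_l40469 _))
                (CovZ.badM (by decide +kernel)))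
               (CovZ.n1 (-21528, 7416) (by decide +kernel)
                (CovZ.badM (by decide +kernel))
                (CovZ.n1 (-21552, 7416) (by decide +kernel)
                 (CovZ.leaf K2_ok TB_l40470 _)
                 (CovZ.badM (by decide +kernel)))))))))
          (CovZ.n1 (-21600, 7584) (by decide +kernel)
           (CovZ.n2 (-21504, 7584) (by decide +kernel)
            (CovZ.n2 (-21552, 7536) (by decide +kernel)
             (CovZ.leaf K2_ok TB_l15866 _)
             (CovZ.leaf K2_ok TB_l15867 _))
            (CovZ.n1 (-21552, 7632) (by decide +kernel)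
             (CovZ.leaf K2_ok TB_l15868 _)
             (CovZ.leaf K2_ok TB_l15869 _)))
           (CovZ.n1 (-21600, 7488) (by decide +kernel)
            (CovZ.n2 (-21648, 7536) (by decide +kernel)
             (CovZ.leaf K2_ok TB_l15870 _)
             (CovZ.n1 (-21648, 7488) (by decide +kernel)
              (CovZ.leaf K2_ok TB_l15871 _)
              (CovZ.leaf K2_ok TB_l15872 _)))
            (CovZ.n1 (-21552, 7536) (by decide +kernel)
             (CovZ.n2 (-21552, 7488) (by decide +kernel)
              (CovZ.leaf K2_ok TB_l15873 _)
              (CovZ.leaf K2_ok TB_l15874 _))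
             (CovZ.leaf K2_ok TB_l15875 _))))))
        (CovZ.subM 685651838530612136448801967680426334099766109595395380377026203474971728562045071323998384889536512 (by decide +kernel)
         (CovZ.n1 (-21696, 7296) (by decide +kernel)
          (CovZ.n2 (-21792, 7392) (by decide +kernel)
           (CovZ.n2 (-21696, 7392) (by decide +kernel)
            (CovZ.subM 546812681195752981093125556779405341338292357723303109106442651602488249799843980805878294255763456 (by decide +kernel)
             (CovZ.n2 (-21744, 7344) (by decide +kernel)
              (CovZ.n2 (-21744, 7392) (by decide +kernel)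
               (CovZ.n2 (-21720, 7368) (by decide +kernel)
                (CovZ.badM (by decide +kernel))
                (CovZ.n1 (-21720, 7392) (by decide +kernel)
                 (CovZ.badM (by decide +kernel))
                 (CovZ.leaf K2_ok TB_l40471 _)))
               (CovZ.badM (by decide +kernel)))
              (CovZ.n1 (-21696, 7344) (by decide +kernel)
               (CovZ.n2 (-21720, 7320) (by decide +kernel)
                (CovZ.n2 (-21720, 7344) (by decide +kernel)
                 (CovZ.badM (by decide +kernel))
                 (CovZ.badM (by decide +kernel)))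
                (CovZ.badM (by decide +kernel)))
               (CovZ.n1 (-21720, 7368) (by decide +kernel)
                (CovZ.badM (by decide +kernel))
                (CovZ.n1 (-21720, 7344) (by decide +kernel)
                 (CovZ.badM (by decide +kernel))
                 (CovZ.badM (by decide +kernel)))))))
            (CovZ.n1 (-21744, 7440) (by decide +kernel)
             (CovZ.n2 (-21696, 7440) (by decide +kernel)
              (CovZ.n2 (-21720, 7416) (by decide +kernel)
               (CovZ.leaf K2_ok TB_l40473 _)
               (CovZ.leaf K2_ok TB_l40474 _))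
              (CovZ.leaf K2_ok TB_l15876 _))
             (CovZ.n1 (-21744, 7392) (by decide +kernel)
              (CovZ.n2 (-21768, 7416) (by decide +kernel)
               (CovZ.leaf K2_ok TB_l40475 _)
               (CovZ.n1 (-21768, 7392) (by decide +kernel)
                (CovZ.leaf K2_ok TB_l40476 _)
                (CovZ.leaf K2_ok TB_l40477 _)))
              (CovZ.n1 (-21720, 7416) (by decide +kernel)
               (CovZ.n2 (-21720, 7392) (by decide +kernel)
                (CovZ.leaf K2_ok TB_l40478 _)
                (CovZ.leaf K2_ok TB_l40479 _))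
               (CovZ.leaf K2_ok TB_l40480 _)))))
           (CovZ.badM (by decide +kernel)))
          (CovZ.n1 (-21600, 7392) (by decide +kernel)
           (CovZ.badM (by decide +kernel))
           (CovZ.n1 (-21696, 7392) (by decide +kernel)
            (CovZ.n2 (-21648, 7440) (by decide +kernel)
             (CovZ.subM 2135987035920910082395021706169657426894385339507723287011758735746949688500532432891558114631680 (by decide +kernel)
              (CovZ.n2 (-21648, 7392) (by decide +kernel)
               (CovZ.n2 (-21672, 7416) (by decide +kernel)
                (CovZ.leaf K2_ok TB_l15877 _)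
                (CovZ.n1 (-21672, 7392) (by decide +kernel)
                 (CovZ.leaf K2_ok TB_l40481 _)
                 (CovZ.leaf K2_ok TB_l40482 _)))
               (CovZ.n1 (-21624, 7416) (by decide +kernel)
                (CovZ.n2 (-21624, 7392) (by decide +kernel)
                 (CovZ.leaf K2_ok TB_l15878 _)
                 (CovZ.badM (by decide +kernel)))
                (CovZ.leaf K2_ok TB_l15879 _))))
             (CovZ.n1 (-21696, 7440) (by decide +kernel)
              (CovZ.n2 (-21672, 7464) (by decide +kernel)
               (CovZ.leaf K2_ok TB_l15880 _)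
               (CovZ.leaf K2_ok TB_l15881 _))
              (CovZ.n1 (-21672, 7416) (by decide +kernel)
               (CovZ.n2 (-21696, 7416) (by decide +kernel)
                (CovZ.leaf K2_ok TB_l40483 _)
                (CovZ.leaf K2_ok TB_l40484 _))
               (CovZ.n1 (-21672, 7440) (by decide +kernel)
                (CovZ.leaf K2_ok TB_l15882 _)
                (CovZ.leaf K2_ok TB_l15883 _)))))
            (CovZ.subM 105312291668557186697918027683670432318895095400549111254310977536 (by decide +kernel)
             (CovZ.n1 (-21648, 7344) (by decide +kernel)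
              (CovZ.n2 (-21696, 7344) (by decide +kernel)
               (CovZ.n2 (-21672, 7368) (by decide +kernel)
                (CovZ.badM (by decide +kernel))
                (CovZ.badM (by decide +kernel)))
               (CovZ.badM (by decide +kernel)))
              (CovZ.n1 (-21648, 7392) (by decide +kernel)
               (CovZ.badM (by decide +kernel))
               (CovZ.n1 (-21672, 7368) (by decide +kernel)
                (CovZ.n2 (-21672, 7392) (by decide +kernel)
                 (CovZ.badM (by decide +kernel))
                 (CovZ.badM (by decide +kernel)))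
                (CovZ.badM (by decide +kernel))))))))))))
      (CovZ.n1 (-21888, 6912) (by decide +kernel)
       (CovZ.badM (by decide +kernel))
       (CovZ.n1 (-21696, 7104) (by decide +kernel)
        (CovZ.badM (by decide +kernel))
        (CovZ.badM (by decide +kernel))))))
    (CovZ.subM 102573268070678547257512497440607093284433653110278537087340011817941921234487215399530334060019712 (by decide +kernel)
     (CovZ.n1 (-22272, 6144) (by decide +kernel)
      (CovZ.n2 (-22656, 6528) (by decide +kernel)
       (CovZ.badM (by decide +kernel))
       (CovZ.n1 (-22656, 6144) (by decide +kernel)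
        (CovZ.badM (by decide +kernel))
        (CovZ.badM (by decide +kernel))))
      (CovZ.n1 (-21888, 6528) (by decide +kernel)
       (CovZ.n2 (-21888, 6144) (by decide +kernel)
        (CovZ.badM (by decide +kernel))
        (CovZ.badM (by decide +kernel)))
       (CovZ.badM (by decide +kernel)))))))
    (CovZ.topM TB_LL 630432099142311751317839183004389138922433852993991157124991474868355746019419336465488187289017730180439327098544128 (by decide +kernel) (CovZ.n0 (-22272, 6912) (by decide +kernel)
    (CovZ.subM 630432099142311676146005709343005278919388170001244858534981216940387897488053815641077134205962269101535019367661568 (by decide +kernel)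
     (CovZ.n2 (-23040, 6912) (by decide +kernel)
      (CovZ.n2 (-22656, 7296) (by decide +kernel)
       (CovZ.subM 4171849679533027504677776769862406473833407270227837441302815640277772901915313574263597826048 (by decide +kernel)
        (CovZ.n2 (-22656, 6912) (by decide +kernel)
         (CovZ.badM (by decide +kernel))
         (CovZ.n1 (-22464, 7104) (by decide +kernel)
          (CovZ.n2 (-22464, 6912) (by decide +kernel)
           (CovZ.badM (by decide +kernel))
           (CovZ.badM (by decide +kernel)))
          (CovZ.badM (by decide +kernel)))))
       (CovZ.n1 (-23040, 7296) (by decide +kernel)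
        (CovZ.n2 (-22848, 7488) (by decide +kernel)
         (CovZ.n2 (-22848, 7296) (by decide +kernel)
          (CovZ.badM (by decide +kernel))
          (CovZ.n1 (-22752, 7392) (by decide +kernel)
           (CovZ.badM (by decide +kernel))
           (CovZ.badM (by decide +kernel))))
         (CovZ.subM 630432099142311676145467540734345518371284736797932608099850430300792389026543251182598991992782733153500723247316992 (by decide +kernel)
          (CovZ.n1 (-23040, 7488) (by decide +kernel)
           (CovZ.n2 (-22944, 7584) (by decide +kernel)
            (CovZ.badM (by decide +kernel))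
            (CovZ.n1 (-23040, 7584) (by decide +kernel)
             (CovZ.n2 (-22992, 7632) (by decide +kernel)
              (CovZ.n2 (-22992, 7584) (by decide +kernel)
               (CovZ.n2 (-23016, 7608) (by decide +kernel)
                (CovZ.leaf K2_ok TB_l15888 _)
                (CovZ.badM (by decide +kernel)))
               (CovZ.n1 (-22968, 7608) (by decide +kernel)
                (CovZ.badM (by decide +kernel))
                (CovZ.leaf K2_ok TB_l15891 _)))
              (CovZ.n1 (-23040, 7632) (by decide +kernel)
               (CovZ.leaf K2_ok TB_l15892 _)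
               (CovZ.n1 (-23016, 7608) (by decide +kernel)
                (CovZ.n2 (-23040, 7608) (by decide +kernel)
                 (CovZ.leaf K2_ok TB_l15893 _)
                 (CovZ.badM (by decide +kernel)))
                (CovZ.n1 (-23016, 7632) (by decide +kernel)
                 (CovZ.leaf K2_ok TB_l15894 _)
                 (CovZ.leaf K2_ok TB_l15895 _)))))
             (CovZ.badM (by decide +kernel))))
           (CovZ.badM (by decide +kernel)))))
        (CovZ.n1 (-22848, 7104) (by decide +kernel)
         (CovZ.badM (by decide +kernel))
         (CovZ.n1 (-22848, 7296) (by decide +kernel)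
          (CovZ.badM (by decide +kernel))
          (CovZ.badM (by decide +kernel))))))
      (CovZ.subM 4171849679533027504677776769862406473833407270227837441302815640277772901915313574263597826048 (by decide +kernel)
       (CovZ.n1 (-22656, 6528) (by decide +kernel)
        (CovZ.badM (by decide +kernel))
        (CovZ.n1 (-22656, 6912) (by decide +kernel)
         (CovZ.n2 (-22464, 6720) (by decide +kernel)
          (CovZ.badM (by decide +kernel))
          (CovZ.n1 (-22464, 6912) (by decide +kernel)
           (CovZ.badM (by decide +kernel))
           (CovZ.badM (by decide +kernel))))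
         (CovZ.badM (by decide +kernel)))))))
    (CovZ.n1 (-22272, 7680) (by decide +kernel)
     (CovZ.n2 (-21888, 7296) (by decide +kernel)
      TB_u177
      TB_u178)
     (CovZ.subM 630432099142311746138028902399386858839459437765128549836403005523186228488122553485302659507199991324711598088527872 (by decide +kernel)
      (CovZ.n1 (-22656, 7296) (by decide +kernel)
       (CovZ.n2 (-22656, 7680) (by decide +kernel)
        TB_u179
        TB_u180)
       (CovZ.n1 (-22272, 7296) (by decide +kernel)
        (CovZ.subM 4171849679533027504677776769862406473833407270227837441302815640277772901915313574263597826048 (by decide +kernel)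
         (CovZ.n2 (-22464, 7104) (by decide +kernel)
          (CovZ.n2 (-22464, 7296) (by decide +kernel)
           (CovZ.n2 (-22368, 7200) (by decide +kernel)
            (CovZ.badM (by decide +kernel))
            (CovZ.n1 (-22368, 7296) (by decide +kernel)
             (CovZ.badM (by decide +kernel))
             (CovZ.badM (by decide +kernel))))
           (CovZ.badM (by decide +kernel)))
          (CovZ.badM (by decide +kernel))))
        (CovZ.n1 (-22464, 7488) (by decide +kernel)
         (CovZ.n2 (-22272, 7488) (by decide +kernel)
          (CovZ.subM 69992561361665041340468174700967195941736552587482357070262462170992291231953266189908859110360621056 (by decide +kernel)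
           (CovZ.n2 (-22368, 7392) (by decide +kernel)
            (CovZ.n2 (-22368, 7488) (by decide +kernel)
             (CovZ.n2 (-22320, 7440) (by decide +kernel)
              (CovZ.subM 69992023193056381579920071267763883691301421800842762292551770271985272191582503012102334642206547968 (by decide +kernel)
               (CovZ.n2 (-22368, 7440) (by decide +kernel)
                (CovZ.n2 (-22344, 7464) (by decide +kernel)
                 (CovZ.leaf K2_ok TB_l40592 _)
                 (CovZ.leaf K2_ok TB_l40593 _))
                (CovZ.n1 (-22344, 7416) (by decide +kernel)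
                 (CovZ.leaf K2_ok TB_l40594 _)
                 (CovZ.n1 (-22344, 7440) (by decide +kernel)
                  (CovZ.leaf K2_ok TB_l40595 _)
                  (CovZ.leaf K2_ok TB_l40596 _)))))
              (CovZ.n1 (-22320, 7488) (by decide +kernel)
               (CovZ.n2 (-22296, 7464) (by decide +kernel)
                (CovZ.leaf K2_ok TB_l40597 _)
                (CovZ.leaf K2_ok TB_l16094 _))
               (CovZ.leaf K2_ok TB_l40598 _)))
             (CovZ.subM 69992023193056381579920071267763883691301421800842762292551770271985272191582503012102334642206547968 (by decide +kernel)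
              (CovZ.n1 (-22416, 7440) (by decide +kernel)
               (CovZ.n2 (-22416, 7488) (by decide +kernel)
                (CovZ.n2 (-22392, 7464) (by decide +kernel)
                 (CovZ.leaf K2_ok TB_l40599 _)
                 (CovZ.leaf K2_ok TB_l40600 _))
                (CovZ.n1 (-22440, 7464) (by decide +kernel)
                 (CovZ.leaf K2_ok TB_l40601 _)
                 (CovZ.leaf K2_ok TB_l40602 _)))
               (CovZ.n1 (-22368, 7440) (by decide +kernel)
                (CovZ.n2 (-22392, 7416) (by decide +kernel)
                 (CovZ.leaf K2_ok TB_l40603 _)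
                 (CovZ.leaf K2_ok TB_l40604 _))
                (CovZ.n1 (-22392, 7464) (by decide +kernel)
                 (CovZ.leaf K2_ok TB_l40605 _)
                 (CovZ.n1 (-22392, 7440) (by decide +kernel)
                  (CovZ.leaf K2_ok TB_l40606 _)
                  (CovZ.leaf K2_ok TB_l40607 _)))))))
            (CovZ.n1 (-22272, 7392) (by decide +kernel)
             (CovZ.subM 69992557189815361807440670023190426079330072464713387128817146165520451529311474703289927405259456512 (by decide +kernel)
              (CovZ.n2 (-22320, 7344) (by decide +kernel)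
               (CovZ.n2 (-22320, 7392) (by decide +kernel)
                (CovZ.n2 (-22296, 7368) (by decide +kernel)
                 (CovZ.badM (by decide +kernel))
                 (CovZ.n1 (-22296, 7392) (by decide +kernel)
                  (CovZ.leaf K2_ok TB_l40608 _)
                  (CovZ.leaf K2_ok TB_l48709 _)))
                (CovZ.badM (by decide +kernel)))
               (CovZ.n1 (-22272, 7344) (by decide +kernel)
                (CovZ.badM (by decide +kernel))
                (CovZ.n1 (-22296, 7368) (by decide +kernel)
                 (CovZ.n2 (-22272, 7368) (by decide +kernel)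
                  (CovZ.badM (by decide +kernel))
                  (CovZ.leaf K2_ok TB_l48710 _))
                 (CovZ.badM (by decide +kernel))))))
             (CovZ.n1 (-22320, 7440) (by decide +kernel)
              (CovZ.n2 (-22272, 7440) (by decide +kernel)
               (CovZ.n2 (-22296, 7416) (by decide +kernel)
                (CovZ.leaf K2_ok TB_l40610 _)
                (CovZ.leaf K2_ok TB_l40611 _))
               (CovZ.n1 (-22296, 7464) (by decide +kernel)
                (CovZ.leaf K2_ok TB_l16095 _)
                (CovZ.leaf K2_ok TB_l40612 _)))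
              (CovZ.n1 (-22320, 7392) (by decide +kernel)
               (CovZ.n2 (-22344, 7416) (by decide +kernel)
                (CovZ.leaf K2_ok TB_l40613 _)
                (CovZ.n1 (-22344, 7392) (by decide +kernel)
                 (CovZ.leaf K2_ok TB_l48711 _)
                 (CovZ.leaf K2_ok TB_l40614 _)))
               (CovZ.n1 (-22296, 7416) (by decide +kernel)
                (CovZ.n2 (-22296, 7392) (by decide +kernel)
                 (CovZ.leaf K2_ok TB_l40615 _)
                 (CovZ.leaf K2_ok TB_l40616 _))
                (CovZ.leaf K2_ok TB_l40617 _)))))))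
          (CovZ.n1 (-22368, 7584) (by decide +kernel)
           (CovZ.n2 (-22272, 7584) (by decide +kernel)
            (CovZ.n2 (-22320, 7536) (by decide +kernel)
             (CovZ.n2 (-22320, 7584) (by decide +kernel)
              (CovZ.leaf K2_ok TB_l16096 _)
              (CovZ.leaf K2_ok TB_l16097 _))
             (CovZ.leaf K2_ok TB_l16098 _))
            (CovZ.n1 (-22320, 7632) (by decide +kernel)
             (CovZ.leaf K2_ok TB_l16099 _)
             (CovZ.n1 (-22320, 7584) (by decide +kernel)
              (CovZ.leaf K2_ok TB_l16100 _)
              (CovZ.leaf K2_ok TB_l16101 _))))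
           (CovZ.subM 69992561361665041340468174700967195941736552587482357070262462170992291231953266189908859110360621056 (by decide +kernel)
            (CovZ.n1 (-22368, 7488) (by decide +kernel)
             (CovZ.subM 69992023193056381579920071267763883691301421800842762292551770271985272191582503012102334642206547968 (by decide +kernel)
              (CovZ.n2 (-22416, 7536) (by decide +kernel)
               (CovZ.n2 (-22368, 7536) (by decide +kernel)
                (CovZ.leaf K2_ok TB_l16102 _)
                (CovZ.leaf K2_ok TB_l16103 _))
               (CovZ.n1 (-22416, 7488) (by decide +kernel)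
                (CovZ.leaf K2_ok TB_l16104 _)
                (CovZ.leaf K2_ok TB_l16105 _))))
             (CovZ.n1 (-22320, 7536) (by decide +kernel)
              (CovZ.n2 (-22320, 7488) (by decide +kernel)
               (CovZ.leaf K2_ok TB_l16106 _)
               (CovZ.leaf K2_ok TB_l16107 _))
              (CovZ.n1 (-22368, 7536) (by decide +kernel)
               (CovZ.leaf K2_ok TB_l16108 _)
               (CovZ.leaf K2_ok TB_l16109 _)))))))
         (CovZ.subM 69992561361665041340468174700967195941736552587482357070262462170992291231953266189908859110360612864 (by decide +kernel)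
          (CovZ.n1 (-22464, 7296) (by decide +kernel)
           (CovZ.n2 (-22560, 7392) (by decide +kernel)
            (CovZ.n2 (-22464, 7392) (by decide +kernel)
             (CovZ.badM (by decide +kernel))
             (CovZ.n1 (-22512, 7440) (by decide +kernel)
              (CovZ.n2 (-22464, 7440) (by decide +kernel)
               (CovZ.n2 (-22488, 7416) (by decide +kernel)
                (CovZ.n2 (-22488, 7440) (by decide +kernel)
                 (CovZ.leaf K2_ok TB_l40618 _)
                 (CovZ.leaf K2_ok TB_l40619 _))
                (CovZ.n1 (-22464, 7416) (by decide +kernel)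
                 (CovZ.badM (by decide +kernel))
                 (CovZ.leaf K2_ok TB_l40620 _)))
               (CovZ.n1 (-22488, 7464) (by decide +kernel)
                (CovZ.leaf K2_ok TB_l40621 _)
                (CovZ.n1 (-22488, 7440) (by decide +kernel)
                 (CovZ.leaf K2_ok TB_l40622 _)
                 (CovZ.leaf K2_ok TB_l40623 _))))
              (CovZ.n1 (-22512, 7392) (by decide +kernel)
               (CovZ.n2 (-22536, 7416) (by decide +kernel)
                (CovZ.n2 (-22512, 7416) (by decide +kernel)
                 (CovZ.badM (by decide +kernel))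
                 (CovZ.leaf K2_ok TB_l40624 _))
                (CovZ.badM (by decide +kernel)))
               (CovZ.n1 (-22488, 7416) (by decide +kernel)
                (CovZ.badM (by decide +kernel))
                (CovZ.n1 (-22512, 7416) (by decide +kernel)
                 (CovZ.leaf K2_ok TB_l40625 _)
                 (CovZ.badM (by decide +kernel)))))))
            (CovZ.badM (by decide +kernel)))
           (CovZ.n1 (-22368, 7392) (by decide +kernel)
            (CovZ.n2 (-22368, 7296) (by decide +kernel)
             (CovZ.badM (by decide +kernel))
             (CovZ.n1 (-22320, 7344) (by decide +kernel)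
              (CovZ.badM (by decide +kernel))
              (CovZ.badM (by decide +kernel))))
            (CovZ.n1 (-22464, 7392) (by decide +kernel)
             (CovZ.n2 (-22416, 7440) (by decide +kernel)
              (CovZ.n2 (-22416, 7392) (by decide +kernel)
               (CovZ.n2 (-22440, 7416) (by decide +kernel)
                (CovZ.n2 (-22416, 7416) (by decide +kernel)
                 (CovZ.badM (by decide +kernel))
                 (CovZ.leaf K2_ok TB_l40627 _))
                (CovZ.badM (by decide +kernel)))
               (CovZ.n1 (-22392, 7416) (by decide +kernel)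
                (CovZ.badM (by decide +kernel))
                (CovZ.leaf K2_ok TB_l40630 _)))
              (CovZ.n1 (-22464, 7440) (by decide +kernel)
               (CovZ.n2 (-22440, 7464) (by decide +kernel)
                (CovZ.n2 (-22440, 7440) (by decide +kernel)
                 (CovZ.leaf K2_ok TB_l40631 _)
                 (CovZ.leaf K2_ok TB_l40632 _))
                (CovZ.leaf K2_ok TB_l40633 _))
               (CovZ.n1 (-22440, 7416) (by decide +kernel)
                (CovZ.n2 (-22464, 7416) (by decide +kernel)
                 (CovZ.leaf K2_ok TB_l40634 _)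
                 (CovZ.badM (by decide +kernel)))
                (CovZ.n1 (-22440, 7440) (by decide +kernel)
                 (CovZ.leaf K2_ok TB_l40635 _)
                 (CovZ.leaf K2_ok TB_l40636 _)))))
             (CovZ.badM (by decide +kernel)))))))))))))

theorem TB_s7_7 : SqZ TB_M TB_L [0, 7, 6, 1] (-32256) (-4608) 1536 7 7 :=
  SqZ.mk (a := (-21504)) (b := (-19968)) (c := 6144) (d := 7680) (by norm_num) (by norm_num) (by norm_num) (by norm_num)
    (CovZ.topM TB_LL 130370302485407109521180524058200208596655723676280189332262570701463939677215535627082145792 (by decide +kernel) (CovZ.n2 (-20736, 6912) (by decide +kernel)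
    (CovZ.badM (by decide +kernel))
    (CovZ.n1 (-20736, 6144) (by decide +kernel)
     (CovZ.badM (by decide +kernel))
     (CovZ.badM (by decide +kernel)))))
    (CovZ.topM TB_LL 130370302485407109521180524058200208596655747060306386626709261960421338695607576036326252544 (by decide +kernel) (CovZ.n0 (-20736, 6912) (by decide +kernel)
    (CovZ.n2 (-21504, 6912) (by decide +kernel)
     (CovZ.n2 (-21120, 7296) (by decide +kernel)
      (CovZ.badM (by decide +kernel))
      (CovZ.n1 (-21504, 7296) (by decide +kernel)
       (CovZ.n2 (-21312, 7488) (by decide +kernel)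
        (CovZ.n2 (-21312, 7296) (by decide +kernel)
         (CovZ.n2 (-21408, 7392) (by decide +kernel)
          (CovZ.badM (by decide +kernel))
          (CovZ.badM (by decide +kernel)))
         (CovZ.badM (by decide +kernel)))
        (CovZ.n1 (-21504, 7488) (by decide +kernel)
         (CovZ.n2 (-21408, 7584) (by decide +kernel)
          (CovZ.subM 6289361723097634071997102890683826213031833671936424026112 (by decide +kernel)
           (CovZ.n2 (-21408, 7488) (by decide +kernel)
            (CovZ.n2 (-21456, 7536) (by decide +kernel)
             (CovZ.leaf K2_ok TB_l40947 _)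
             (CovZ.n1 (-21456, 7488) (by decide +kernel)
              (CovZ.leaf K2_ok TB_l18885 _)
              (CovZ.leaf K2_ok TB_l40948 _)))
            (CovZ.badM (by decide +kernel))))
          (CovZ.n1 (-21504, 7584) (by decide +kernel)
           (CovZ.n2 (-21456, 7632) (by decide +kernel)
            (CovZ.leaf K2_ok TB_l18886 _)
            (CovZ.leaf K2_ok TB_l18887 _))
           (CovZ.n1 (-21456, 7536) (by decide +kernel)
            (CovZ.leaf K2_ok TB_l18888 _)
            (CovZ.n1 (-21456, 7584) (by decide +kernel)
             (CovZ.leaf K2_ok TB_l40951 _)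
             (CovZ.leaf K2_ok TB_l18889 _)))))
         (CovZ.subM 6289361723097634071997102890683826213031833671936424026112 (by decide +kernel)
          (CovZ.n1 (-21408, 7392) (by decide +kernel)
           (CovZ.n2 (-21504, 7392) (by decide +kernel)
            (CovZ.n2 (-21456, 7440) (by decide +kernel)
             (CovZ.n2 (-21456, 7392) (by decide +kernel)
              (CovZ.n2 (-21480, 7416) (by decide +kernel)
               (CovZ.badM (by decide +kernel))
               (CovZ.badM (by decide +kernel)))
              (CovZ.badM (by decide +kernel)))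
             (CovZ.n1 (-21504, 7440) (by decide +kernel)
              (CovZ.n2 (-21480, 7464) (by decide +kernel)
               (CovZ.n2 (-21480, 7440) (by decide +kernel)
                (CovZ.leaf K2_ok TB_l40954 _)
                (CovZ.badM (by decide +kernel)))
               (CovZ.leaf K2_ok TB_l40956 _))
              (CovZ.n1 (-21480, 7416) (by decide +kernel)
               (CovZ.n2 (-21504, 7416) (by decide +kernel)
                (CovZ.leaf K2_ok TB_l40957 _)
                (CovZ.badM (by decide +kernel)))
               (CovZ.n1 (-21480, 7440) (by decide +kernel)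
                (CovZ.badM (by decide +kernel))
                (CovZ.leaf K2_ok TB_l40959 _)))))
            (CovZ.badM (by decide +kernel)))
           (CovZ.n1 (-21408, 7488) (by decide +kernel)
            (CovZ.badM (by decide +kernel))
            (CovZ.n1 (-21456, 7440) (by decide +kernel)
             (CovZ.n2 (-21456, 7488) (by decide +kernel)
              (CovZ.n2 (-21432, 7464) (by decide +kernel)
               (CovZ.leaf K2_ok TB_l40968 _)
               (CovZ.leaf K2_ok TB_l40969 _))
              (CovZ.n1 (-21480, 7464) (by decide +kernel)
               (CovZ.leaf K2_ok TB_l40970 _)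
               (CovZ.leaf K2_ok TB_l40971 _)))
             (CovZ.n1 (-21408, 7440) (by decide +kernel)
              (CovZ.badM (by decide +kernel))
              (CovZ.n1 (-21432, 7464) (by decide +kernel)
               (CovZ.badM (by decide +kernel))
               (CovZ.badM (by decide +kernel))))))))))
       (CovZ.badM (by decide +kernel))))
     (CovZ.badM (by decide +kernel)))
    (CovZ.n1 (-20736, 7680) (by decide +kernel)
     (CovZ.n2 (-20352, 7296) (by decide +kernel)
      (CovZ.badM (by decide +kernel))
      (CovZ.n1 (-20352, 7680) (by decide +kernel)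
       (CovZ.badM (by decide +kernel))
       (CovZ.badM (by decide +kernel))))
     (CovZ.n1 (-21120, 7296) (by decide +kernel)
      (CovZ.n2 (-21120, 7680) (by decide +kernel)
       (CovZ.badM (by decide +kernel))
       (CovZ.n1 (-21312, 7488) (by decide +kernel)
        (CovZ.n2 (-21312, 7680) (by decide +kernel)
         (CovZ.badM (by decide +kernel))
         (CovZ.n1 (-21408, 7584) (by decide +kernel)
          (CovZ.n2 (-21408, 7680) (by decide +kernel)
           (CovZ.badM (by decide +kernel))
           (CovZ.n1 (-21456, 7632) (by decide +kernel)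
            (CovZ.n2 (-21456, 7680) (by decide +kernel)
             (CovZ.leaf K2_ok TB_l40984 _)
             (CovZ.leaf K2_ok TB_l18890 _))
            (CovZ.leaf K2_ok TB_l40985 _)))
          (CovZ.badM (by decide +kernel))))
        (CovZ.badM (by decide +kernel))))
      (CovZ.badM (by decide +kernel))))))

theorem TB_s8_7 : SqZ TB_M TB_L [0, 7, 6, 1] (-32256) (-4608) 1536 8 7 :=
  SqZ.mk (a := (-19968)) (b := (-18432)) (c := 6144) (d := 7680) (by norm_num) (by norm_num) (by norm_num) (by norm_num)
    (CovZ.topM TB_LL 0 (by decide +kernel) (CovZ.badM (by decide +kernel)))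
    (CovZ.topM TB_LL 242863254303171314752509821545701043528507724404831061884425378543751661799419674624 (by decide +kernel) (CovZ.n0 (-19200, 6912) (by decide +kernel)
    (CovZ.badM (by decide +kernel))
    (CovZ.n1 (-19200, 7680) (by decide +kernel)
     (CovZ.badM (by decide +kernel))
     (CovZ.badM (by decide +kernel)))))

theorem TB_s9_7 : SqZ TB_M TB_L [0, 7, 6, 1] (-32256) (-4608) 1536 9 7 :=
  SqZ.mk (a := (-18432)) (b := (-16896)) (c := 6144) (d := 7680) (by norm_num) (by norm_num) (by norm_num) (by norm_num)
    (CovZ.topM TB_LL 248661618204893321077691124073410420050228075398673858720231988748811203972873934864384 (by decide +kernel) (CovZ.n2 (-17664, 6912) (by decide +kernel)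
    (CovZ.badM (by decide +kernel))
    (CovZ.n1 (-17664, 6144) (by decide +kernel)
     (CovZ.badM (by decide +kernel))
     (CovZ.badM (by decide +kernel)))))
    (CovZ.topM TB_LL 1174414635050417036635508143919290737268980088291476487680964596907400378929233280720935661076906852103487488 (by decide +kernel) (CovZ.n0 (-17664, 6912) (by decide +kernel)
    (CovZ.n2 (-18432, 6912) (by decide +kernel)
     (CovZ.n2 (-18048, 7296) (by decide +kernel)
      (CovZ.badM (by decide +kernel))
      (CovZ.badM (by decide +kernel)))
     (CovZ.badM (by decide +kernel)))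
    (CovZ.n1 (-17664, 7680) (by decide +kernel)
     (CovZ.n2 (-17280, 7296) (by decide +kernel)
      (CovZ.n2 (-17664, 7296) (by decide +kernel)
       (CovZ.n2 (-17472, 7488) (by decide +kernel)
        (CovZ.badM (by decide +kernel))
        (CovZ.badM (by decide +kernel)))
       (CovZ.badM (by decide +kernel)))
      (CovZ.n1 (-17280, 7680) (by decide +kernel)
       (CovZ.subM 1174271291386916614199633998465165419359166582479240333873334955079258502003015072774608504040704538685997056 (by decide +kernel)
        (CovZ.n2 (-17088, 7488) (by decide +kernel)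
         (CovZ.n2 (-17280, 7488) (by decide +kernel)
          (CovZ.n2 (-17184, 7584) (by decide +kernel)
           (CovZ.badM (by decide +kernel))
           (CovZ.badM (by decide +kernel)))
          (CovZ.badM (by decide +kernel)))
         (CovZ.n1 (-17088, 7680) (by decide +kernel)
          (CovZ.subM 1174271291386916613944755839805149765254533180303994653321851177795617796814615025301349422230721472124420096 (by decide +kernel)
           (CovZ.n2 (-16992, 7584) (by decide +kernel)
            (CovZ.badM (by decide +kernel))
            (CovZ.n1 (-16992, 7680) (by decide +kernel)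
             (CovZ.n2 (-16944, 7632) (by decide +kernel)
              (CovZ.badM (by decide +kernel))
              (CovZ.n1 (-16944, 7680) (by decide +kernel)
               (CovZ.badM (by decide +kernel))
               (CovZ.badM (by decide +kernel))))
             (CovZ.badM (by decide +kernel)))))
          (CovZ.n1 (-17184, 7584) (by decide +kernel)
           (CovZ.n2 (-17184, 7680) (by decide +kernel)
            (CovZ.badM (by decide +kernel))
            (CovZ.badM (by decide +kernel)))
           (CovZ.badM (by decide +kernel))))))
       (CovZ.n1 (-17472, 7488) (by decide +kernel)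
        (CovZ.n2 (-17472, 7680) (by decide +kernel)
         (CovZ.badM (by decide +kernel))
         (CovZ.badM (by decide +kernel)))
        (CovZ.badM (by decide +kernel)))))
     (CovZ.subM 170141203742878835383357727663135391744 (by decide +kernel)
      (CovZ.n1 (-18048, 7296) (by decide +kernel)
       (CovZ.n2 (-18048, 7680) (by decide +kernel)
        (CovZ.n2 (-17856, 7488) (by decide +kernel)
         (CovZ.badM (by decide +kernel))
         (CovZ.n1 (-17856, 7680) (by decide +kernel)
          (CovZ.badM (by decide +kernel))
          (CovZ.badM (by decide +kernel))))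
        (CovZ.badM (by decide +kernel)))
       (CovZ.badM (by decide +kernel)))))))

theorem TB_s10_7 : SqZ TB_M TB_L [0, 7, 6, 1] (-32256) (-4608) 1536 10 7 :=
  SqZ.mk (a := (-16896)) (b := (-15360)) (c := 6144) (d := 7680) (by norm_num) (by norm_num) (by norm_num) (by norm_num)
    (CovZ.topM TB_LL 19701003098197239606140041539363251361175283490377293606376735922065232884236213136285025217142410128137682304372776 (by decide +kernel) (CovZ.n2 (-16128, 6912) (by decide +kernel)
    (CovZ.n2 (-15360, 6912) (by decide +kernel)
     TB_u181
     TB_u182)
    (CovZ.subM 124330809102446660538845562036705210025114037699336929360115994223880170063492049539072 (by decide +kernel)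
     (CovZ.n1 (-16128, 6144) (by decide +kernel)
      (CovZ.n2 (-16512, 6528) (by decide +kernel)
       (CovZ.badM (by decide +kernel))
       (CovZ.badM (by decide +kernel)))
      (CovZ.n1 (-15744, 6528) (by decide +kernel)
       (CovZ.n2 (-15744, 6144) (by decide +kernel)
        (CovZ.n2 (-15936, 6336) (by decide +kernel)
         (CovZ.badM (by decide +kernel))
         (CovZ.badM (by decide +kernel)))
        (CovZ.badM (by decide +kernel)))
       (CovZ.n1 (-16128, 6528) (by decide +kernel)
        (CovZ.n2 (-15936, 6720) (by decide +kernel)
         (CovZ.n2 (-15936, 6528) (by decide +kernel)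
          (CovZ.badM (by decide +kernel))
          (CovZ.badM (by decide +kernel)))
         (CovZ.badM (by decide +kernel)))
        (CovZ.n1 (-15936, 6336) (by decide +kernel)
         (CovZ.badM (by decide +kernel))
         (CovZ.n1 (-15936, 6528) (by decide +kernel)
          (CovZ.badM (by decide +kernel))
          (CovZ.badM (by decide +kernel))))))))))
    (CovZ.topM TB_LL 19701003098197239606140042048622245444796805114455293653849419539509052219983819488319592667419044152620404973768744 (by decide +kernel) (CovZ.n0 (-16128, 6912) (by decide +kernel)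
    (CovZ.subM 19701003098197239606139520559455131795263843234625615118892062091068480453897546135947661058788511565766186443472896 (by decide +kernel)
     (CovZ.n2 (-16896, 6912) (by decide +kernel)
      (CovZ.n2 (-16512, 7296) (by decide +kernel)
       (CovZ.subM 124330809102446660538845562036705210025114037699336929360125897743604157295332536877056 (by decide +kernel)
        (CovZ.n2 (-16512, 6912) (by decide +kernel)
         (CovZ.badM (by decide +kernel))
         (CovZ.n1 (-16320, 7104) (by decide +kernel)
          (CovZ.badM (by decide +kernel))
          (CovZ.n1 (-16512, 7104) (by decide +kernel)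
           (CovZ.n2 (-16416, 7200) (by decide +kernel)
            (CovZ.n2 (-16416, 7104) (by decide +kernel)
             (CovZ.badM (by decide +kernel))
             (CovZ.badM (by decide +kernel)))
            (CovZ.badM (by decide +kernel)))
           (CovZ.n1 (-16416, 7008) (by decide +kernel)
            (CovZ.badM (by decide +kernel))
            (CovZ.n1 (-16416, 7104) (by decide +kernel)
             (CovZ.badM (by decide +kernel))
             (CovZ.badM (by decide +kernel))))))))
       (CovZ.n1 (-16896, 7296) (by decide +kernel)
        (CovZ.n2 (-16704, 7488) (by decide +kernel)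
         (CovZ.subM 3533694340194207500635040319526228095734683743731878308371591861328936960 (by decide +kernel)
          (CovZ.n2 (-16704, 7296) (by decide +kernel)
           (CovZ.badM (by decide +kernel))
           (CovZ.n1 (-16608, 7392) (by decide +kernel)
            (CovZ.badM (by decide +kernel))
            (CovZ.n1 (-16704, 7392) (by decide +kernel)
             (CovZ.n2 (-16656, 7440) (by decide +kernel)
              (CovZ.badM (by decide +kernel))
              (CovZ.badM (by decide +kernel)))
             (CovZ.badM (by decide +kernel))))))
         (CovZ.subM 19701003098197239606139520559330800986161393024405180989027526847765506943367472482436885558437525003007717191712768 (by decide +kernel)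
          (CovZ.n1 (-16896, 7488) (by decide +kernel)
           (CovZ.n2 (-16800, 7584) (by decide +kernel)
            (CovZ.subM 55213970774324510299478046898216203619608871777363092441300193790394368 (by decide +kernel)
             (CovZ.n2 (-16800, 7488) (by decide +kernel)
              (CovZ.badM (by decide +kernel))
              (CovZ.n1 (-16752, 7536) (by decide +kernel)
               (CovZ.badM (by decide +kernel))
               (CovZ.n1 (-16800, 7536) (by decide +kernel)
                (CovZ.n2 (-16776, 7560) (by decide +kernel)
                 (CovZ.badM (by decide +kernel))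
                 (CovZ.badM (by decide +kernel)))
                (CovZ.badM (by decide +kernel))))))
            (CovZ.subM 509258994083621521567111422102344540262867098416484062659045253543397150776046150171492352 (by decide +kernel)
             (CovZ.n1 (-16896, 7584) (by decide +kernel)
              (CovZ.n2 (-16848, 7632) (by decide +kernel)
               (CovZ.n2 (-16848, 7584) (by decide +kernel)
                (CovZ.badM (by decide +kernel))
                (CovZ.n1 (-16824, 7608) (by decide +kernel)
                 (CovZ.badM (by decide +kernel))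
                 (CovZ.badM (by decide +kernel))))
               (CovZ.badM (by decide +kernel)))
              (CovZ.n1 (-16848, 7536) (by decide +kernel)
               (CovZ.badM (by decide +kernel))
               (CovZ.n1 (-16848, 7584) (by decide +kernel)
                (CovZ.badM (by decide +kernel))
                (CovZ.badM (by decide +kernel)))))))
           (CovZ.badM (by decide +kernel)))))
        (CovZ.n1 (-16704, 7104) (by decide +kernel)
         (CovZ.badM (by decide +kernel))
         (CovZ.n1 (-16704, 7296) (by decide +kernel)
          (CovZ.badM (by decide +kernel))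
          (CovZ.badM (by decide +kernel))))))
      (CovZ.n1 (-16512, 6528) (by decide +kernel)
       (CovZ.badM (by decide +kernel))
       (CovZ.n1 (-16512, 6912) (by decide +kernel)
        (CovZ.badM (by decide +kernel))
        (CovZ.badM (by decide +kernel))))))
    (CovZ.n1 (-16128, 7680) (by decide +kernel)
     TB_u185
     TB_u186)))

theorem TB_s11_7 : SqZ TB_M TB_L [0, 7, 6, 1] (-32256) (-4608) 1536 11 7 :=
  SqZ.mk (a := (-15360)) (b := (-13824)) (c := 6144) (d := 7680) (by norm_num) (by norm_num) (by norm_num) (by norm_num)
    (CovZ.topM TB_LL 7957171782556614764896720518463929525170660125435404971350335692898060750537432709988392 (by decide +kernel) (CovZ.n2 (-14592, 6912) (by decide +kernel)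
    (CovZ.badM (by decide +kernel))
    (CovZ.n1 (-14592, 6144) (by decide +kernel)
     (CovZ.n2 (-14976, 6528) (by decide +kernel)
      (CovZ.badM (by decide +kernel))
      (CovZ.n1 (-14976, 6144) (by decide +kernel)
       (CovZ.n2 (-15168, 6336) (by decide +kernel)
        (CovZ.badM (by decide +kernel))
        (CovZ.badM (by decide +kernel)))
       (CovZ.badM (by decide +kernel))))
     (CovZ.badM (by decide +kernel)))))
    (CovZ.topM TB_LL 7957171782556614764896720518463929525170660125435404971350335692898060750537432709988392 (by decide +kernel) (CovZ.n0 (-14592, 6912) (by decide +kernel)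
    (CovZ.n2 (-15360, 6912) (by decide +kernel)
     (CovZ.n2 (-14976, 7296) (by decide +kernel)
      (CovZ.n2 (-14976, 6912) (by decide +kernel)
       (CovZ.n2 (-15168, 7104) (by decide +kernel)
        (CovZ.badM (by decide +kernel))
        (CovZ.n1 (-15168, 6912) (by decide +kernel)
         (CovZ.n2 (-15264, 7008) (by decide +kernel)
          (CovZ.badM (by decide +kernel))
          (CovZ.n1 (-15264, 6912) (by decide +kernel)
           (CovZ.leaf K2_ok TB_l31388 _)
           (CovZ.badM (by decide +kernel))))
         (CovZ.badM (by decide +kernel))))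
       (CovZ.badM (by decide +kernel)))
      (CovZ.n1 (-15360, 7296) (by decide +kernel)
       (CovZ.n2 (-15168, 7488) (by decide +kernel)
        (CovZ.n2 (-15168, 7296) (by decide +kernel)
         (CovZ.n2 (-15264, 7392) (by decide +kernel)
          (CovZ.badM (by decide +kernel))
          (CovZ.n1 (-15264, 7296) (by decide +kernel)
           (CovZ.leaf K2_ok TB_l31442 _)
           (CovZ.badM (by decide +kernel))))
         (CovZ.badM (by decide +kernel)))
        (CovZ.n1 (-15360, 7488) (by decide +kernel)
         (CovZ.n2 (-15264, 7584) (by decide +kernel)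
          (CovZ.n2 (-15264, 7488) (by decide +kernel)
           (CovZ.leaf K2_ok TB_l31449 _)
           (CovZ.badM (by decide +kernel)))
          (CovZ.leaf K2_ok TB_l31451 _))
         (CovZ.n1 (-15264, 7392) (by decide +kernel)
          (CovZ.leaf K2_ok TB_l31452 _)
          (CovZ.n1 (-15264, 7488) (by decide +kernel)
           (CovZ.badM (by decide +kernel))
           (CovZ.leaf K2_ok TB_l31454 _)))))
       (CovZ.n1 (-15168, 7104) (by decide +kernel)
        (CovZ.n2 (-15360, 7104) (by decide +kernel)
         (CovZ.n2 (-15264, 7200) (by decide +kernel)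
          (CovZ.n2 (-15264, 7104) (by decide +kernel)
           (CovZ.leaf K2_ok TB_l31455 _)
           (CovZ.badM (by decide +kernel)))
          (CovZ.leaf K2_ok TB_l31457 _))
         (CovZ.n1 (-15264, 7008) (by decide +kernel)
          (CovZ.n2 (-15360, 7008) (by decide +kernel)
           (CovZ.leaf K2_ok TB_l31458 _)
           (CovZ.leaf K2_ok TB_l31459 _))
          (CovZ.n1 (-15264, 7104) (by decide +kernel)
           (CovZ.badM (by decide +kernel))
           (CovZ.leaf K2_ok TB_l31461 _))))
        (CovZ.n1 (-15168, 7296) (by decide +kernel)
         (CovZ.badM (by decide +kernel))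
         (CovZ.n1 (-15264, 7200) (by decide +kernel)
          (CovZ.n2 (-15264, 7296) (by decide +kernel)
           (CovZ.badM (by decide +kernel))
           (CovZ.leaf K2_ok TB_l31468 _))
          (CovZ.badM (by decide +kernel)))))))
     (CovZ.n1 (-14976, 6528) (by decide +kernel)
      (CovZ.subM 28490410604548114796083376289503099485918772840399184121291110622823448616 (by decide +kernel)
       (CovZ.n2 (-15360, 6528) (by decide +kernel)
        (CovZ.n2 (-15168, 6720) (by decide +kernel)
         (CovZ.n2 (-15168, 6528) (by decide +kernel)
          (CovZ.n2 (-15264, 6624) (by decide +kernel)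
           (CovZ.badM (by decide +kernel))
           (CovZ.n1 (-15264, 6528) (by decide +kernel)
            (CovZ.n2 (-15312, 6576) (by decide +kernel)
             (CovZ.badM (by decide +kernel))
             (CovZ.n1 (-15312, 6528) (by decide +kernel)
              (CovZ.n2 (-15336, 6552) (by decide +kernel)
               (CovZ.badM (by decide +kernel))
               (CovZ.badM (by decide +kernel)))
              (CovZ.badM (by decide +kernel))))
            (CovZ.badM (by decide +kernel))))
          (CovZ.badM (by decide +kernel)))
         (CovZ.n1 (-15360, 6720) (by decide +kernel)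
          (CovZ.n2 (-15264, 6816) (by decide +kernel)
           (CovZ.n2 (-15264, 6720) (by decide +kernel)
            (CovZ.leaf K2_ok TB_l31493 _)
            (CovZ.badM (by decide +kernel)))
           (CovZ.n1 (-15360, 6816) (by decide +kernel)
            (CovZ.leaf K2_ok TB_l31495 _)
            (CovZ.leaf K2_ok TB_l31496 _)))
          (CovZ.n1 (-15264, 6624) (by decide +kernel)
           (CovZ.n2 (-15360, 6624) (by decide +kernel)
            (CovZ.n2 (-15312, 6672) (by decide +kernel)
             (CovZ.n2 (-15312, 6624) (by decide +kernel)
              (CovZ.leaf K2_ok TB_l31497 _)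
              (CovZ.badM (by decide +kernel)))
             (CovZ.leaf K2_ok TB_l31499 _))
            (CovZ.n1 (-15312, 6576) (by decide +kernel)
             (CovZ.subM 220855883097298041197912187592864814478435487109452369765200775161577512 (by decide +kernel)
              (CovZ.n2 (-15360, 6576) (by decide +kernel)
               (CovZ.n2 (-15336, 6600) (by decide +kernel)
                (CovZ.n2 (-15336, 6576) (by decide +kernel)
                 (CovZ.leaf K2_ok TB_l45674 _)
                 (CovZ.badM (by decide +kernel)))
                (CovZ.leaf K2_ok TB_l45675 _))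
               (CovZ.n1 (-15336, 6552) (by decide +kernel)
                (CovZ.badM (by decide +kernel))
                (CovZ.n1 (-15336, 6576) (by decide +kernel)
                 (CovZ.badM (by decide +kernel))
                 (CovZ.leaf K2_ok TB_l45676 _)))))
             (CovZ.n1 (-15312, 6624) (by decide +kernel)
              (CovZ.badM (by decide +kernel))
              (CovZ.leaf K2_ok TB_l31501 _))))
           (CovZ.n1 (-15264, 6720) (by decide +kernel)
            (CovZ.badM (by decide +kernel))
            (CovZ.leaf K2_ok TB_l31503 _)))))
        (CovZ.n1 (-15168, 6336) (by decide +kernel)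
         (CovZ.badM (by decide +kernel))
         (CovZ.n1 (-15168, 6528) (by decide +kernel)
          (CovZ.badM (by decide +kernel))
          (CovZ.n1 (-15264, 6432) (by decide +kernel)
           (CovZ.n2 (-15264, 6528) (by decide +kernel)
            (CovZ.badM (by decide +kernel))
            (CovZ.n1 (-15312, 6480) (by decide +kernel)
             (CovZ.n2 (-15312, 6528) (by decide +kernel)
              (CovZ.badM (by decide +kernel))
              (CovZ.badM (by decide +kernel)))
             (CovZ.badM (by decide +kernel))))
           (CovZ.badM (by decide +kernel)))))))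
      (CovZ.n1 (-14976, 6912) (by decide +kernel)
       (CovZ.badM (by decide +kernel))
       (CovZ.subM 28490410604548114796083376289503099485918772840399184121291110622823448616 (by decide +kernel)
        (CovZ.n1 (-15168, 6720) (by decide +kernel)
         (CovZ.n2 (-15168, 6912) (by decide +kernel)
          (CovZ.badM (by decide +kernel))
          (CovZ.n1 (-15264, 6816) (by decide +kernel)
           (CovZ.n2 (-15264, 6912) (by decide +kernel)
            (CovZ.badM (by decide +kernel))
            (CovZ.leaf K2_ok TB_l31552 _))
           (CovZ.badM (by decide +kernel))))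
         (CovZ.badM (by decide +kernel)))))))
    (CovZ.n1 (-14592, 7680) (by decide +kernel)
     (CovZ.badM (by decide +kernel))
     (CovZ.n1 (-14976, 7296) (by decide +kernel)
      (CovZ.n2 (-14976, 7680) (by decide +kernel)
       (CovZ.badM (by decide +kernel))
       (CovZ.n1 (-15168, 7488) (by decide +kernel)
        (CovZ.n2 (-15168, 7680) (by decide +kernel)
         (CovZ.badM (by decide +kernel))
         (CovZ.n1 (-15264, 7584) (by decide +kernel)
          (CovZ.n2 (-15264, 7680) (by decide +kernel)
           (CovZ.badM (by decide +kernel))
           (CovZ.leaf K2_ok TB_l31610 _))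
          (CovZ.badM (by decide +kernel))))
        (CovZ.badM (by decide +kernel))))
      (CovZ.badM (by decide +kernel))))))

theorem TB_s12_7 : SqZ TB_M TB_L [0, 7, 6, 1] (-32256) (-4608) 1536 12 7 :=
  SqZ.mk (a := (-13824)) (b := (-12288)) (c := 6144) (d := 7680) (by norm_num) (by norm_num) (by norm_num) (by norm_num)
    (CovZ.topM TB_LL 0 (by decide +kernel) (CovZ.badM (by decide +kernel)))
    (CovZ.topM TB_LL 0 (by decide +kernel) (CovZ.badM (by decide +kernel)))

theorem TB_s0_8 : SqZ TB_M TB_L [0, 7, 6, 1] (-32256) (-4608) 1536 0 8 :=
  SqZ.mk (a := (-32256)) (b := (-30720)) (c := 7680) (d := 9216) (by norm_num) (by norm_num) (by norm_num) (by norm_num)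
    (CovZ.topM TB_LL 603580031050075214568786047986113315572886838087991686924121045696074321436944805819289549095782169096720744448 (by decide +kernel) (CovZ.n2 (-31488, 8448) (by decide +kernel)
    (CovZ.n2 (-30720, 8448) (by decide +kernel)
     (CovZ.n2 (-31104, 8064) (by decide +kernel)
      (CovZ.leaf K2_ok TB_l1812 _)
      (CovZ.leaf K2_ok TB_l1813 _))
     (CovZ.leaf K2_ok TB_l1814 _))
    (CovZ.n1 (-31488, 7680) (by decide +kernel)
     (CovZ.n2 (-31872, 8064) (by decide +kernel)
      (CovZ.leaf K2_ok TB_l1815 _)
      (CovZ.n1 (-31872, 7680) (by decide +kernel)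
       (CovZ.leaf K2_ok TB_l1816 _)
       (CovZ.leaf K2_ok TB_l1817 _)))
     (CovZ.n1 (-31104, 8064) (by decide +kernel)
      (CovZ.leaf K2_ok TB_l1818 _)
      (CovZ.leaf K2_ok TB_l1819 _)))))
    (CovZ.topM TB_LL 2353129859973908229079015208043036564712105567461799974014699676120367540137939423772711633481729210670120960 (by decide +kernel) (CovZ.n0 (-31488, 8448) (by decide +kernel)
    (CovZ.n2 (-32256, 8448) (by decide +kernel)
     (CovZ.leaf K2_ok TB_l1820 _)
     (CovZ.n1 (-31872, 8064) (by decide +kernel)
      (CovZ.leaf K2_ok TB_l1821 _)
      (CovZ.leaf K2_ok TB_l1822 _)))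
    (CovZ.n1 (-31488, 9216) (by decide +kernel)
     (CovZ.leaf K2_ok TB_l1823 _)
     (CovZ.n1 (-31872, 8832) (by decide +kernel)
      (CovZ.leaf K2_ok TB_l1824 _)
      (CovZ.leaf K2_ok TB_l1825 _)))))

theorem TB_s1_8 : SqZ TB_M TB_L [0, 7, 6, 1] (-32256) (-4608) 1536 1 8 :=
  SqZ.mk (a := (-30720)) (b := (-29184)) (c := 7680) (d := 9216) (by norm_num) (by norm_num) (by norm_num) (by norm_num)
    (CovZ.topM TB_LL 5043457396718524389246931701604430553163522199506415261489068479864498082831539602774735081027148327468408314444906496 (by decide +kernel) (CovZ.n2 (-29952, 8448) (by decide +kernel)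
    (CovZ.n2 (-29184, 8448) (by decide +kernel)
     (CovZ.n2 (-29568, 8064) (by decide +kernel)
      (CovZ.leaf K2_ok TB_l4955 _)
      (CovZ.leaf K2_ok TB_l4956 _))
     (CovZ.n1 (-29568, 8832) (by decide +kernel)
      (CovZ.leaf K2_ok TB_l4957 _)
      (CovZ.leaf K2_ok TB_l4958 _)))
    (CovZ.n1 (-29952, 7680) (by decide +kernel)
     (CovZ.n2 (-30336, 8064) (by decide +kernel)
      (CovZ.leaf K2_ok TB_l4959 _)
      (CovZ.leaf K2_ok TB_l4960 _))
     (CovZ.n1 (-29568, 8064) (by decide +kernel)
      (CovZ.n2 (-29568, 7680) (by decide +kernel)
       (CovZ.leaf K2_ok TB_l4961 _)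
       (CovZ.leaf K2_ok TB_l4962 _))
      (CovZ.leaf K2_ok TB_l4963 _)))))
    (CovZ.topM TB_LL 5043457396718524389246931701604430553163522199506415261489068479864498082831539602774735081027148327468408314444906496 (by decide +kernel) (CovZ.n0 (-29952, 8448) (by decide +kernel)
    (CovZ.n2 (-30720, 8448) (by decide +kernel)
     (CovZ.leaf K2_ok TB_l4964 _)
     (CovZ.n1 (-30336, 8064) (by decide +kernel)
      (CovZ.leaf K2_ok TB_l4965 _)
      (CovZ.leaf K2_ok TB_l4966 _)))
    (CovZ.n1 (-29952, 9216) (by decide +kernel)
     (CovZ.n2 (-29568, 8832) (by decide +kernel)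
      (CovZ.leaf K2_ok TB_l4967 _)
      (CovZ.leaf K2_ok TB_l4968 _))
     (CovZ.leaf K2_ok TB_l4969 _))))

theorem TB_s2_8 : SqZ TB_M TB_L [0, 7, 6, 1] (-32256) (-4608) 1536 2 8 :=
  SqZ.mk (a := (-29184)) (b := (-27648)) (c := 7680) (d := 9216) (by norm_num) (by norm_num) (by norm_num) (by norm_num)
    (CovZ.topM TB_LL 5043457394365394529273025558466201509236072870761337087659388523153714458189193193378662585480373344373981804657639424 (by decide +kernel) (CovZ.n2 (-28416, 8448) (by decide +kernel)
    (CovZ.n2 (-27648, 8448) (by decide +kernel)
     (CovZ.n2 (-28032, 8064) (by decide +kernel)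
      (CovZ.n2 (-28032, 8448) (by decide +kernel)
       (CovZ.n2 (-27840, 8256) (by decide +kernel)
        (CovZ.leaf K2_ok TB_l8217 _)
        (CovZ.n1 (-27840, 8448) (by decide +kernel)
         (CovZ.leaf K2_ok TB_l8218 _)
         (CovZ.leaf K2_ok TB_l8219 _)))
       (CovZ.leaf K2_ok TB_l8220 _))
      (CovZ.n1 (-27648, 8064) (by decide +kernel)
       (CovZ.n2 (-27840, 7872) (by decide +kernel)
        (CovZ.leaf K2_ok TB_l8221 _)
        (CovZ.leaf K2_ok TB_l8222 _))
       (CovZ.n1 (-27840, 8256) (by decide +kernel)
        (CovZ.leaf K2_ok TB_l8223 _)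
        (CovZ.leaf K2_ok TB_l8224 _))))
     (CovZ.n1 (-28032, 8832) (by decide +kernel)
      (CovZ.n2 (-27648, 8832) (by decide +kernel)
       (CovZ.n2 (-27840, 8640) (by decide +kernel)
        (CovZ.leaf K2_ok TB_l8225 _)
        (CovZ.leaf K2_ok TB_l8226 _))
       (CovZ.leaf K2_ok TB_l8227 _))
      (CovZ.n1 (-28032, 8448) (by decide +kernel)
       (CovZ.n2 (-28224, 8640) (by decide +kernel)
        (CovZ.leaf K2_ok TB_l8228 _)
        (CovZ.leaf K2_ok TB_l8229 _))
       (CovZ.n1 (-27840, 8640) (by decide +kernel)
        (CovZ.leaf K2_ok TB_l8230 _)
        (CovZ.leaf K2_ok TB_l8231 _)))))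
    (CovZ.n1 (-28416, 7680) (by decide +kernel)
     (CovZ.n2 (-28800, 8064) (by decide +kernel)
      (CovZ.n2 (-28416, 8064) (by decide +kernel)
       (CovZ.leaf K2_ok TB_l8232 _)
       (CovZ.leaf K2_ok TB_l8233 _))
      (CovZ.n1 (-28800, 7680) (by decide +kernel)
       (CovZ.leaf K2_ok TB_l8234 _)
       (CovZ.leaf K2_ok TB_l8235 _)))
     (CovZ.n1 (-28032, 8064) (by decide +kernel)
      (CovZ.n2 (-28032, 7680) (by decide +kernel)
       (CovZ.n2 (-28224, 7872) (by decide +kernel)
        (CovZ.leaf K2_ok TB_l8236 _)
        (CovZ.leaf K2_ok TB_l8237 _))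
       (CovZ.n1 (-27840, 7872) (by decide +kernel)
        (CovZ.leaf K2_ok TB_l8238 _)
        (CovZ.leaf K2_ok TB_l8239 _)))
      (CovZ.n1 (-28416, 8064) (by decide +kernel)
       (CovZ.n2 (-28224, 8256) (by decide +kernel)
        (CovZ.leaf K2_ok TB_l8240 _)
        (CovZ.leaf K2_ok TB_l8241 _))
       (CovZ.n1 (-28224, 7872) (by decide +kernel)
        (CovZ.leaf K2_ok TB_l8242 _)
        (CovZ.leaf K2_ok TB_l8243 _)))))))
    (CovZ.topM TB_LL 5043457394365394529273025558466201509236072870761337087659388523153714458189193193378662585480373344373981804657639424 (by decide +kernel) (CovZ.n0 (-28416, 8448) (by decide +kernel)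
    (CovZ.n2 (-29184, 8448) (by decide +kernel)
     (CovZ.n2 (-28800, 8832) (by decide +kernel)
      (CovZ.n2 (-28800, 8448) (by decide +kernel)
       (CovZ.leaf K2_ok TB_l8244 _)
       (CovZ.leaf K2_ok TB_l8245 _))
      (CovZ.leaf K2_ok TB_l8246 _))
     (CovZ.n1 (-28800, 8064) (by decide +kernel)
      (CovZ.n2 (-29184, 8064) (by decide +kernel)
       (CovZ.leaf K2_ok TB_l8247 _)
       (CovZ.leaf K2_ok TB_l8248 _))
      (CovZ.n1 (-28800, 8448) (by decide +kernel)
       (CovZ.leaf K2_ok TB_l8249 _)
       (CovZ.leaf K2_ok TB_l8250 _))))
    (CovZ.n1 (-28416, 9216) (by decide +kernel)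
     (CovZ.n2 (-28032, 8832) (by decide +kernel)
      (CovZ.n2 (-28416, 8832) (by decide +kernel)
       (CovZ.leaf K2_ok TB_l8251 _)
       (CovZ.n1 (-28224, 8640) (by decide +kernel)
        (CovZ.leaf K2_ok TB_l8252 _)
        (CovZ.leaf K2_ok TB_l8253 _)))
      (CovZ.n1 (-28032, 9216) (by decide +kernel)
       (CovZ.leaf K2_ok TB_l8254 _)
       (CovZ.leaf K2_ok TB_l8255 _)))
     (CovZ.n1 (-28800, 8832) (by decide +kernel)
      (CovZ.leaf K2_ok TB_l8256 _)
      (CovZ.leaf K2_ok TB_l8257 _)))))

theorem TB_s3_8 : SqZ TB_M TB_L [0, 7, 6, 1] (-32256) (-4608) 1536 3 8 :=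
  SqZ.mk (a := (-27648)) (b := (-26112)) (c := 7680) (d := 9216) (by norm_num) (by norm_num) (by norm_num) (by norm_num)
    (CovZ.topM TB_LL 5043456793138493409163742411815518257049143405820818034654118408311640645211198296127223740795574028255304586906304640 (by decide +kernel) (CovZ.n2 (-26880, 8448) (by decide +kernel)
    TB_u189
    TB_u190))
    (CovZ.topM TB_LL 5043456793138493409163742411815518257049143405820818034654118408311640645211198296127223740795574028255304586906304640 (by decide +kernel) (CovZ.n0 (-26880, 8448) (by decide +kernel)
    (CovZ.n2 (-27648, 8448) (by decide +kernel)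
     (CovZ.n2 (-27264, 8832) (by decide +kernel)
      (CovZ.n2 (-27264, 8448) (by decide +kernel)
       (CovZ.n2 (-27456, 8640) (by decide +kernel)
        (CovZ.n2 (-27264, 8640) (by decide +kernel)
         (CovZ.n2 (-27360, 8544) (by decide +kernel)
          (CovZ.leaf K2_ok TB_l11474 _)
          (CovZ.leaf K2_ok TB_l11475 _))
         (CovZ.leaf K2_ok TB_l11476 _))
        (CovZ.n1 (-27456, 8448) (by decide +kernel)
         (CovZ.leaf K2_ok TB_l11477 _)
         (CovZ.n1 (-27360, 8544) (by decide +kernel)
          (CovZ.leaf K2_ok TB_l11478 _)
          (CovZ.leaf K2_ok TB_l11479 _))))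
       (CovZ.subM 15914343565113172548972232069256448974801515158527564746098888317322562869275692053561344 (by decide +kernel)
        (CovZ.n1 (-27072, 8640) (by decide +kernel)
         (CovZ.n2 (-27072, 8448) (by decide +kernel)
          (CovZ.n2 (-27168, 8544) (by decide +kernel)
           (CovZ.leaf K2_ok TB_l11480 _)
           (CovZ.leaf K2_ok TB_l11481 _))
          (CovZ.n1 (-26976, 8544) (by decide +kernel)
           (CovZ.n2 (-26976, 8448) (by decide +kernel)
            (CovZ.leaf K2_ok TB_l11482 _)
            (CovZ.leaf K2_ok TB_l11483 _))
           (CovZ.n1 (-27072, 8544) (by decide +kernel)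
            (CovZ.leaf K2_ok TB_l11484 _)
            (CovZ.leaf K2_ok TB_l11485 _))))
         (CovZ.n1 (-27264, 8640) (by decide +kernel)
          (CovZ.n2 (-27168, 8736) (by decide +kernel)
           (CovZ.n2 (-27168, 8640) (by decide +kernel)
            (CovZ.leaf K2_ok TB_l11486 _)
            (CovZ.leaf K2_ok TB_l11487 _))
           (CovZ.leaf K2_ok TB_l11488 _))
          (CovZ.n1 (-27168, 8544) (by decide +kernel)
           (CovZ.leaf K2_ok TB_l11489 _)
           (CovZ.n1 (-27168, 8640) (by decide +kernel)
            (CovZ.leaf K2_ok TB_l11490 _)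
            (CovZ.leaf K2_ok TB_l11491 _)))))))
      (CovZ.n1 (-27648, 8832) (by decide +kernel)
       (CovZ.n2 (-27456, 9024) (by decide +kernel)
        (CovZ.n2 (-27456, 8832) (by decide +kernel)
         (CovZ.leaf K2_ok TB_l11492 _)
         (CovZ.leaf K2_ok TB_l11493 _))
        (CovZ.leaf K2_ok TB_l11494 _))
       (CovZ.n1 (-27456, 8640) (by decide +kernel)
        (CovZ.n2 (-27648, 8640) (by decide +kernel)
         (CovZ.leaf K2_ok TB_l11495 _)
         (CovZ.leaf K2_ok TB_l11496 _))
        (CovZ.n1 (-27456, 8832) (by decide +kernel)
         (CovZ.leaf K2_ok TB_l11497 _)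
         (CovZ.leaf K2_ok TB_l11498 _)))))
     (CovZ.n1 (-27264, 8064) (by decide +kernel)
      (CovZ.n2 (-27648, 8064) (by decide +kernel)
       (CovZ.n2 (-27456, 8256) (by decide +kernel)
        (CovZ.n2 (-27456, 8064) (by decide +kernel)
         (CovZ.leaf K2_ok TB_l11499 _)
         (CovZ.leaf K2_ok TB_l11500 _))
        (CovZ.leaf K2_ok TB_l11501 _))
       (CovZ.n1 (-27456, 7872) (by decide +kernel)
        (CovZ.leaf K2_ok TB_l11502 _)
        (CovZ.n1 (-27456, 8064) (by decide +kernel)
         (CovZ.leaf K2_ok TB_l11503 _)
         (CovZ.leaf K2_ok TB_l11504 _))))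
      (CovZ.n1 (-27264, 8448) (by decide +kernel)
       (CovZ.subM 15914343565113172548972232069256448974801515158527564746098888317322562869275692053561344 (by decide +kernel)
        (CovZ.n2 (-27072, 8256) (by decide +kernel)
         (CovZ.n2 (-27264, 8256) (by decide +kernel)
          (CovZ.n2 (-27168, 8352) (by decide +kernel)
           (CovZ.leaf K2_ok TB_l11505 _)
           (CovZ.leaf K2_ok TB_l11506 _))
          (CovZ.leaf K2_ok TB_l11507 _))
         (CovZ.n1 (-27072, 8448) (by decide +kernel)
          (CovZ.n2 (-26976, 8352) (by decide +kernel)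
           (CovZ.leaf K2_ok TB_l11508 _)
           (CovZ.n1 (-26976, 8448) (by decide +kernel)
            (CovZ.leaf K2_ok TB_l11509 _)
            (CovZ.leaf K2_ok TB_l11510 _)))
          (CovZ.n1 (-27168, 8352) (by decide +kernel)
           (CovZ.leaf K2_ok TB_l11511 _)
           (CovZ.leaf K2_ok TB_l11512 _)))))
       (CovZ.n1 (-27456, 8256) (by decide +kernel)
        (CovZ.n2 (-27456, 8448) (by decide +kernel)
         (CovZ.leaf K2_ok TB_l11513 _)
         (CovZ.leaf K2_ok TB_l11514 _))
        (CovZ.n1 (-27264, 8256) (by decide +kernel)
         (CovZ.leaf K2_ok TB_l11515 _)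
         (CovZ.leaf K2_ok TB_l11516 _))))))
    (CovZ.n1 (-26880, 9216) (by decide +kernel)
     (CovZ.n2 (-26496, 8832) (by decide +kernel)
      (CovZ.subM 15914343565113172548972232069256448974801515069324583951976395751179689778682246029639680 (by decide +kernel)
       (CovZ.n2 (-26880, 8832) (by decide +kernel)
        (CovZ.n2 (-26688, 9024) (by decide +kernel)
         (CovZ.n2 (-26688, 8832) (by decide +kernel)
          (CovZ.n2 (-26784, 8928) (by decide +kernel)
           (CovZ.leaf K2_ok TB_l11517 _)
           (CovZ.n1 (-26784, 8832) (by decide +kernel)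
            (CovZ.leaf K2_ok TB_l11518 _)
            (CovZ.leaf K2_ok TB_l11519 _)))
          (CovZ.n1 (-26592, 8928) (by decide +kernel)
           (CovZ.n2 (-26592, 8832) (by decide +kernel)
            (CovZ.leaf K2_ok TB_l11520 _)
            (CovZ.leaf K2_ok TB_l11521 _))
           (CovZ.leaf K2_ok TB_l11522 _)))
         (CovZ.n1 (-26880, 9024) (by decide +kernel)
          (CovZ.leaf K2_ok TB_l11523 _)
          (CovZ.n1 (-26784, 8928) (by decide +kernel)
           (CovZ.leaf K2_ok TB_l11524 _)
           (CovZ.leaf K2_ok TB_l11525 _))))
        (CovZ.n1 (-26688, 8640) (by decide +kernel)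
         (CovZ.n2 (-26880, 8640) (by decide +kernel)
          (CovZ.n2 (-26784, 8736) (by decide +kernel)
           (CovZ.n2 (-26784, 8640) (by decide +kernel)
            (CovZ.leaf K2_ok TB_l11526 _)
            (CovZ.leaf K2_ok TB_l11527 _))
           (CovZ.n1 (-26880, 8736) (by decide +kernel)
            (CovZ.leaf K2_ok TB_l11528 _)
            (CovZ.leaf K2_ok TB_l11529 _)))
          (CovZ.n1 (-26784, 8544) (by decide +kernel)
           (CovZ.n2 (-26880, 8544) (by decide +kernel)
            (CovZ.leaf K2_ok TB_l11530 _)
            (CovZ.n1 (-26832, 8496) (by decide +kernel)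
             (CovZ.leaf K2_ok TB_l11531 _)
             (CovZ.leaf K2_ok TB_l11532 _)))
           (CovZ.n1 (-26784, 8640) (by decide +kernel)
            (CovZ.leaf K2_ok TB_l11533 _)
            (CovZ.leaf K2_ok TB_l11534 _))))
         (CovZ.n1 (-26688, 8832) (by decide +kernel)
          (CovZ.n2 (-26592, 8736) (by decide +kernel)
           (CovZ.n2 (-26688, 8736) (by decide +kernel)
            (CovZ.leaf K2_ok TB_l11535 _)
            (CovZ.leaf K2_ok TB_l11536 _))
           (CovZ.n1 (-26592, 8832) (by decide +kernel)
            (CovZ.leaf K2_ok TB_l11537 _)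
            (CovZ.leaf K2_ok TB_l11538 _)))
          (CovZ.n1 (-26784, 8736) (by decide +kernel)
           (CovZ.n2 (-26784, 8832) (by decide +kernel)
            (CovZ.leaf K2_ok TB_l11539 _)
            (CovZ.leaf K2_ok TB_l11540 _))
           (CovZ.n1 (-26688, 8736) (by decide +kernel)
            (CovZ.leaf K2_ok TB_l11541 _)
            (CovZ.leaf K2_ok TB_l11542 _)))))))
      (CovZ.n1 (-26496, 9216) (by decide +kernel)
       (CovZ.subM 69992023193072295923485184440312855923345770697871585131423083576638859831238456659800687465803808896 (by decide +kernel)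
        (CovZ.n2 (-26304, 9024) (by decide +kernel)
         (CovZ.n2 (-26496, 9024) (by decide +kernel)
          (CovZ.n2 (-26400, 9120) (by decide +kernel)
           (CovZ.leaf K2_ok TB_l11543 _)
           (CovZ.leaf K2_ok TB_l11544 _))
          (CovZ.n1 (-26400, 8928) (by decide +kernel)
           (CovZ.n2 (-26496, 8928) (by decide +kernel)
            (CovZ.leaf K2_ok TB_l11545 _)
            (CovZ.leaf K2_ok TB_l11546 _))
           (CovZ.n1 (-26400, 9024) (by decide +kernel)
            (CovZ.leaf K2_ok TB_l11547 _)
            (CovZ.leaf K2_ok TB_l11548 _))))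
         (CovZ.n1 (-26304, 9216) (by decide +kernel)
          (CovZ.n2 (-26208, 9120) (by decide +kernel)
           (CovZ.leaf K2_ok TB_l11549 _)
           (CovZ.leaf K2_ok TB_l11550 _))
          (CovZ.leaf K2_ok TB_l11551 _))))
       (CovZ.subM 15914343565113172548972232069256448974801515069324583951976395751179689778682246029639680 (by decide +kernel)
        (CovZ.n1 (-26688, 9024) (by decide +kernel)
         (CovZ.n2 (-26688, 9216) (by decide +kernel)
          (CovZ.leaf K2_ok TB_l11552 _)
          (CovZ.leaf K2_ok TB_l11553 _))
         (CovZ.n1 (-26496, 9024) (by decide +kernel)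
          (CovZ.n2 (-26592, 8928) (by decide +kernel)
           (CovZ.leaf K2_ok TB_l11554 _)
           (CovZ.leaf K2_ok TB_l11555 _))
          (CovZ.leaf K2_ok TB_l11556 _))))))
     (CovZ.n1 (-27264, 8832) (by decide +kernel)
      (CovZ.n2 (-27264, 9216) (by decide +kernel)
       (CovZ.n2 (-27072, 9024) (by decide +kernel)
        (CovZ.leaf K2_ok TB_l11557 _)
        (CovZ.leaf K2_ok TB_l11558 _))
       (CovZ.leaf K2_ok TB_l11559 _))
      (CovZ.subM 15914343565113172548972232069256448974801515158527564746098888317322562869275692053561344 (by decide +kernel)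
       (CovZ.n1 (-26880, 8832) (by decide +kernel)
        (CovZ.n2 (-27072, 8640) (by decide +kernel)
         (CovZ.n2 (-27072, 8832) (by decide +kernel)
          (CovZ.n2 (-26976, 8736) (by decide +kernel)
           (CovZ.n2 (-27072, 8736) (by decide +kernel)
            (CovZ.leaf K2_ok TB_l11560 _)
            (CovZ.leaf K2_ok TB_l11561 _))
           (CovZ.leaf K2_ok TB_l11562 _))
          (CovZ.leaf K2_ok TB_l11563 _))
         (CovZ.n1 (-26880, 8640) (by decide +kernel)
          (CovZ.n2 (-26976, 8544) (by decide +kernel)
           (CovZ.n2 (-26976, 8640) (by decide +kernel)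
            (CovZ.leaf K2_ok TB_l11564 _)
            (CovZ.leaf K2_ok TB_l11565 _))
           (CovZ.n1 (-26880, 8544) (by decide +kernel)
            (CovZ.leaf K2_ok TB_l11566 _)
            (CovZ.leaf K2_ok TB_l11567 _)))
          (CovZ.n1 (-26976, 8736) (by decide +kernel)
           (CovZ.leaf K2_ok TB_l11568 _)
           (CovZ.n1 (-26976, 8640) (by decide +kernel)
            (CovZ.leaf K2_ok TB_l11569 _)
            (CovZ.leaf K2_ok TB_l11570 _)))))
        (CovZ.n1 (-27072, 9024) (by decide +kernel)
         (CovZ.leaf K2_ok TB_l11571 _)
         (CovZ.n1 (-27072, 8832) (by decide +kernel)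
          (CovZ.leaf K2_ok TB_l11572 _)
          (CovZ.leaf K2_ok TB_l11573 _)))))))))

theorem TB_s4_8 : SqZ TB_M TB_L [0, 7, 6, 1] (-32256) (-4608) 1536 4 8 :=
  SqZ.mk (a := (-26112)) (b := (-24576)) (c := 7680) (d := 9216) (by norm_num) (by norm_num) (by norm_num) (by norm_num)
    (CovZ.topM TB_LL 631663411835949100953508513597419984444155757933257643568612386246404924973022572743048824847991375926091055628558468 (by decide +kernel) (CovZ.n2 (-25344, 8448) (by decide +kernel)
    TB_u197
    TB_u198))
    (CovZ.topM TB_LL 631663411835949100953508513597419984444155757933257643568612386246404924973022572743048824847991375926091055636947076 (by decide +kernel) (CovZ.n0 (-25344, 8448) (by decide +kernel)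
    (CovZ.n2 (-26112, 8448) (by decide +kernel)
     (CovZ.n2 (-25728, 8832) (by decide +kernel)
      (CovZ.subM 69992023193072295923485184440312855923345770697871585131423083576638859831238456659800687465795420288 (by decide +kernel)
       (CovZ.n2 (-25728, 8448) (by decide +kernel)
        (CovZ.n2 (-25920, 8640) (by decide +kernel)
         (CovZ.n2 (-25728, 8640) (by decide +kernel)
          (CovZ.n2 (-25824, 8544) (by decide +kernel)
           (CovZ.n2 (-25824, 8640) (by decide +kernel)
            (CovZ.n2 (-25776, 8592) (by decide +kernel)
             (CovZ.leaf K2_ok TB_l13296 _)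
             (CovZ.leaf K2_ok TB_l13297 _))
            (CovZ.leaf K2_ok TB_l13298 _))
           (CovZ.n1 (-25728, 8544) (by decide +kernel)
            (CovZ.n2 (-25776, 8496) (by decide +kernel)
             (CovZ.leaf K2_ok TB_l13299 _)
             (CovZ.leaf K2_ok TB_l13300 _))
            (CovZ.n1 (-25776, 8592) (by decide +kernel)
             (CovZ.leaf K2_ok TB_l13301 _)
             (CovZ.leaf K2_ok TB_l13302 _))))
          (CovZ.n1 (-25824, 8736) (by decide +kernel)
           (CovZ.n2 (-25728, 8736) (by decide +kernel)
            (CovZ.leaf K2_ok TB_l13303 _)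
            (CovZ.leaf K2_ok TB_l13304 _))
           (CovZ.n1 (-25824, 8640) (by decide +kernel)
            (CovZ.leaf K2_ok TB_l13305 _)
            (CovZ.n1 (-25776, 8688) (by decide +kernel)
             (CovZ.leaf K2_ok TB_l13306 _)
             (CovZ.leaf K2_ok TB_l13307 _)))))
         (CovZ.n1 (-25920, 8448) (by decide +kernel)
          (CovZ.n2 (-26016, 8544) (by decide +kernel)
           (CovZ.n2 (-25920, 8544) (by decide +kernel)
            (CovZ.n2 (-25968, 8496) (by decide +kernel)
             (CovZ.leaf K2_ok TB_l13308 _)
             (CovZ.leaf K2_ok TB_l13309 _))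
            (CovZ.n1 (-25968, 8592) (by decide +kernel)
             (CovZ.leaf K2_ok TB_l13310 _)
             (CovZ.leaf K2_ok TB_l13311 _)))
           (CovZ.n1 (-26016, 8448) (by decide +kernel)
            (CovZ.n2 (-26064, 8496) (by decide +kernel)
             (CovZ.leaf K2_ok TB_l13312 _)
             (CovZ.leaf K2_ok TB_l13313 _))
            (CovZ.n1 (-25968, 8496) (by decide +kernel)
             (CovZ.leaf K2_ok TB_l13314 _)
             (CovZ.leaf K2_ok TB_l13315 _))))
          (CovZ.n1 (-25824, 8544) (by decide +kernel)
           (CovZ.n2 (-25824, 8448) (by decide +kernel)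
            (CovZ.n2 (-25872, 8496) (by decide +kernel)
             (CovZ.leaf K2_ok TB_l13316 _)
             (CovZ.leaf K2_ok TB_l13317 _))
            (CovZ.n1 (-25776, 8496) (by decide +kernel)
             (CovZ.leaf K2_ok TB_l13318 _)
             (CovZ.leaf K2_ok TB_l13319 _)))
           (CovZ.n1 (-25920, 8544) (by decide +kernel)
            (CovZ.n2 (-25872, 8592) (by decide +kernel)
             (CovZ.leaf K2_ok TB_l13320 _)
             (CovZ.leaf K2_ok TB_l13321 _))
            (CovZ.n1 (-25872, 8496) (by decide +kernel)
             (CovZ.leaf K2_ok TB_l13322 _)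
             (CovZ.leaf K2_ok TB_l13323 _))))))
        (CovZ.n1 (-25536, 8640) (by decide +kernel)
         (CovZ.n2 (-25536, 8448) (by decide +kernel)
          (CovZ.n2 (-25632, 8544) (by decide +kernel)
           (CovZ.n2 (-25536, 8544) (by decide +kernel)
            (CovZ.n2 (-25584, 8496) (by decide +kernel)
             (CovZ.leaf K2_ok TB_l13324 _)
             (CovZ.leaf K2_ok TB_l13325 _))
            (CovZ.n1 (-25584, 8592) (by decide +kernel)
             (CovZ.leaf K2_ok TB_l13326 _)
             (CovZ.leaf K2_ok TB_l13327 _)))
           (CovZ.n1 (-25632, 8448) (by decide +kernel)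
            (CovZ.n2 (-25680, 8496) (by decide +kernel)
             (CovZ.leaf K2_ok TB_l13328 _)
             (CovZ.leaf K2_ok TB_l13329 _))
            (CovZ.n1 (-25584, 8496) (by decide +kernel)
             (CovZ.leaf K2_ok TB_l13330 _)
             (CovZ.leaf K2_ok TB_l13331 _))))
          (CovZ.n1 (-25440, 8544) (by decide +kernel)
           (CovZ.n2 (-25440, 8448) (by decide +kernel)
            (CovZ.n2 (-25488, 8496) (by decide +kernel)
             (CovZ.leaf K2_ok TB_l13332 _)
             (CovZ.leaf K2_ok TB_l13333 _))
            (CovZ.n1 (-25392, 8496) (by decide +kernel)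
             (CovZ.leaf K2_ok TB_l13334 _)
             (CovZ.leaf K2_ok TB_l13335 _)))
           (CovZ.n1 (-25536, 8544) (by decide +kernel)
            (CovZ.n2 (-25488, 8592) (by decide +kernel)
             (CovZ.leaf K2_ok TB_l13336 _)
             (CovZ.leaf K2_ok TB_l13337 _))
            (CovZ.n1 (-25488, 8496) (by decide +kernel)
             (CovZ.leaf K2_ok TB_l13338 _)
             (CovZ.leaf K2_ok TB_l13339 _)))))
         (CovZ.n1 (-25728, 8640) (by decide +kernel)
          (CovZ.n2 (-25632, 8736) (by decide +kernel)
           (CovZ.n2 (-25632, 8640) (by decide +kernel)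
            (CovZ.n2 (-25680, 8688) (by decide +kernel)
             (CovZ.leaf K2_ok TB_l13340 _)
             (CovZ.leaf K2_ok TB_l13341 _))
            (CovZ.n1 (-25584, 8688) (by decide +kernel)
             (CovZ.leaf K2_ok TB_l13342 _)
             (CovZ.leaf K2_ok TB_l13343 _)))
           (CovZ.n1 (-25728, 8736) (by decide +kernel)
            (CovZ.leaf K2_ok TB_l13344 _)
            (CovZ.leaf K2_ok TB_l13345 _)))
          (CovZ.n1 (-25632, 8544) (by decide +kernel)
           (CovZ.n2 (-25728, 8544) (by decide +kernel)
            (CovZ.n2 (-25680, 8592) (by decide +kernel)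
             (CovZ.leaf K2_ok TB_l13346 _)
             (CovZ.leaf K2_ok TB_l13347 _))
            (CovZ.n1 (-25680, 8496) (by decide +kernel)
             (CovZ.leaf K2_ok TB_l13348 _)
             (CovZ.leaf K2_ok TB_l13349 _)))
           (CovZ.n1 (-25632, 8640) (by decide +kernel)
            (CovZ.n2 (-25584, 8592) (by decide +kernel)
             (CovZ.leaf K2_ok TB_l13350 _)
             (CovZ.leaf K2_ok TB_l13351 _))
            (CovZ.n1 (-25680, 8592) (by decide +kernel)
             (CovZ.leaf K2_ok TB_l13352 _)
             (CovZ.leaf K2_ok TB_l13353 _))))))))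
      (CovZ.n1 (-26112, 8832) (by decide +kernel)
       (CovZ.n2 (-25920, 9024) (by decide +kernel)
        (CovZ.subM 69992023193072295923485184440312855923345770697871585131423083576638859831238456659800687465795420288 (by decide +kernel)
         (CovZ.n2 (-25920, 8832) (by decide +kernel)
          (CovZ.n2 (-26016, 8928) (by decide +kernel)
           (CovZ.n2 (-25920, 8928) (by decide +kernel)
            (CovZ.leaf K2_ok TB_l13354 _)
            (CovZ.leaf K2_ok TB_l13355 _))
           (CovZ.n1 (-26016, 8832) (by decide +kernel)
            (CovZ.leaf K2_ok TB_l13356 _)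
            (CovZ.leaf K2_ok TB_l13357 _)))
          (CovZ.n1 (-25824, 8928) (by decide +kernel)
           (CovZ.n2 (-25824, 8832) (by decide +kernel)
            (CovZ.leaf K2_ok TB_l13358 _)
            (CovZ.leaf K2_ok TB_l13359 _))
           (CovZ.n1 (-25920, 8928) (by decide +kernel)
            (CovZ.leaf K2_ok TB_l13360 _)
            (CovZ.leaf K2_ok TB_l13361 _)))))
        (CovZ.n1 (-26112, 9024) (by decide +kernel)
         (CovZ.n2 (-26016, 9120) (by decide +kernel)
          (CovZ.n2 (-26016, 9024) (by decide +kernel)
           (CovZ.leaf K2_ok TB_l13362 _)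
           (CovZ.leaf K2_ok TB_l13363 _))
          (CovZ.n1 (-26112, 9120) (by decide +kernel)
           (CovZ.leaf K2_ok TB_l13364 _)
           (CovZ.leaf K2_ok TB_l13365 _)))
         (CovZ.subM 69992023193072295923485184440312855923345770697871585131423083576638859831238456659800687465795420288 (by decide +kernel)
          (CovZ.n1 (-26016, 8928) (by decide +kernel)
           (CovZ.n2 (-26112, 8928) (by decide +kernel)
            (CovZ.leaf K2_ok TB_l13366 _)
            (CovZ.leaf K2_ok TB_l13367 _))
           (CovZ.n1 (-26016, 9024) (by decide +kernel)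
            (CovZ.leaf K2_ok TB_l13368 _)
            (CovZ.leaf K2_ok TB_l13369 _))))))
       (CovZ.subM 69992023193072295923485184440312855923345770697871585131423083576638859831238456659800687465795420288 (by decide +kernel)
        (CovZ.n1 (-25920, 8640) (by decide +kernel)
         (CovZ.n2 (-26112, 8640) (by decide +kernel)
          (CovZ.n2 (-26016, 8736) (by decide +kernel)
           (CovZ.n2 (-26016, 8640) (by decide +kernel)
            (CovZ.leaf K2_ok TB_l13370 _)
            (CovZ.leaf K2_ok TB_l13371 _))
           (CovZ.n1 (-26112, 8736) (by decide +kernel)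
            (CovZ.leaf K2_ok TB_l13372 _)
            (CovZ.leaf K2_ok TB_l13373 _)))
          (CovZ.n1 (-26016, 8544) (by decide +kernel)
           (CovZ.n2 (-26112, 8544) (by decide +kernel)
            (CovZ.n2 (-26064, 8592) (by decide +kernel)
             (CovZ.leaf K2_ok TB_l13374 _)
             (CovZ.leaf K2_ok TB_l13375 _))
            (CovZ.n1 (-26064, 8496) (by decide +kernel)
             (CovZ.leaf K2_ok TB_l13376 _)
             (CovZ.leaf K2_ok TB_l13377 _)))
           (CovZ.n1 (-26016, 8640) (by decide +kernel)
            (CovZ.n2 (-25968, 8592) (by decide +kernel)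
             (CovZ.leaf K2_ok TB_l13378 _)
             (CovZ.leaf K2_ok TB_l13379 _))
            (CovZ.leaf K2_ok TB_l13380 _))))
         (CovZ.n1 (-25920, 8832) (by decide +kernel)
          (CovZ.n2 (-25824, 8736) (by decide +kernel)
           (CovZ.n2 (-25920, 8736) (by decide +kernel)
            (CovZ.leaf K2_ok TB_l13381 _)
            (CovZ.leaf K2_ok TB_l13382 _))
           (CovZ.n1 (-25824, 8832) (by decide +kernel)
            (CovZ.leaf K2_ok TB_l13383 _)
            (CovZ.leaf K2_ok TB_l13384 _)))
          (CovZ.n1 (-26016, 8736) (by decide +kernel)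
           (CovZ.n2 (-26016, 8832) (by decide +kernel)
            (CovZ.leaf K2_ok TB_l13385 _)
            (CovZ.leaf K2_ok TB_l13386 _))
           (CovZ.n1 (-25920, 8736) (by decide +kernel)
            (CovZ.leaf K2_ok TB_l13387 _)
            (CovZ.leaf K2_ok TB_l13388 _))))))))
     (CovZ.subM 15914343565113172548972232044348909288787165798424171520363856858427116648265801057697920 (by decide +kernel)
      (CovZ.n1 (-25728, 8064) (by decide +kernel)
       TB_u199
       TB_u200)))
    (CovZ.n1 (-25344, 9216) (by decide +kernel)
     TB_u201
     TB_u202)))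

theorem TB_s5_8 : SqZ TB_M TB_L [0, 7, 6, 1] (-32256) (-4608) 1536 5 8 :=
  SqZ.mk (a := (-24576)) (b := (-23040)) (c := 7680) (d := 9216) (by norm_num) (by norm_num) (by norm_num) (by norm_num)
    (CovZ.topM TB_LL 631665816743553874755644561705584789941734759178646356535621361607105257510044389977546015209725220878697343798485124 (by decide +kernel) (CovZ.n2 (-23808, 8448) (by decide +kernel)
    (CovZ.n2 (-23040, 8448) (by decide +kernel)
     TB_u203
     TB_u204)
    (CovZ.n1 (-23808, 7680) (by decide +kernel)
     TB_u211
     TB_u212)))
    (CovZ.topM TB_LL 631665816743553874755644561705584789941734759178646356535621361607105257510044389977546015209725220878697343798747268 (by decide +kernel) (CovZ.n0 (-23808, 8448) (by decide +kernel)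
    (CovZ.n2 (-24576, 8448) (by decide +kernel)
     TB_u215
     TB_u216)
    (CovZ.n1 (-23808, 9216) (by decide +kernel)
     TB_u217
     TB_u218)))

end Pool.Agent.TET
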