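import Pool.Agent.Helper38_TET.TB_M
import Pool.Agent.Helper38_TET.TB_L
import Pool.Agent.Helper38_TET.TB_109
import Pool.Agent.Helper38_TET.TB_110
import Pool.Agent.Helper38_TET.TB_111
import Pool.Agent.Helper38_TET.TB_112
import Pool.Agent.Helper38_TET.TB_113
import Pool.Agent.Helper38_TET.TB_114
import Pool.Agent.Helper38_TET.TB_115
import Pool.Agent.Helper38_TET.TB_116
import Pool.Agent.Helper38_TET.TB_271
import Pool.Agent.Helper38_TET.TB_272
import Pool.Agent.Helper38_TET.TB_325

/-!
# MP_c7c9bf_co: certificates, family TB
-/

set_option autoImplicit false
set_option maxRecDepth 100000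

namespace Pool.Agent.TET

theorem TB_u222 : CovZ TB_M (toL (selN TB_LN 1231312693637447759935060112539105545565981205836851649796622201610557481971943454694572532602068095836575533899776)) [0, 7, 6, 1] (-21696, 8640) (-21504, 8448) (-21504, 8832) :=
    (CovZ.n1 (-21504, 8640) (by decide +kernel)
          (CovZ.n2 (-21600, 8544) (by decide +kernel)
           (CovZ.n2 (-21600, 8640) (by decide +kernel)
            (CovZ.subM 1231312693637410694114479129870648497212214054670245290800545080808069212085654385717732080286616746820997597896704 (by decide +kernel)
             (CovZ.n2 (-21552, 8592) (by decide +kernel)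
              (CovZ.n2 (-21600, 8592) (by decide +kernel)
               (CovZ.n2 (-21576, 8616) (by decide +kernel)
                (CovZ.leaf K2_ok TB_l16383 _)
                (CovZ.leaf K2_ok TB_l16384 _))
               (CovZ.n1 (-21576, 8568) (by decide +kernel)
                (CovZ.leaf K2_ok TB_l16385 _)
                (CovZ.n1 (-21576, 8592) (by decide +kernel)
                 (CovZ.leaf K2_ok TB_l16386 _)
                 (CovZ.leaf K2_ok TB_l16387 _))))
              (CovZ.n1 (-21552, 8640) (by decide +kernel)
               (CovZ.n2 (-21528, 8616) (by decide +kernel)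
                (CovZ.leaf K2_ok TB_l16388 _)
                (CovZ.n1 (-21528, 8640) (by decide +kernel)
                 (CovZ.leaf K2_ok TB_l16389 _)
                 (CovZ.leaf K2_ok TB_l16390 _)))
               (CovZ.n1 (-21576, 8616) (by decide +kernel)
                (CovZ.n2 (-21576, 8640) (by decide +kernel)
                 (CovZ.leaf K2_ok TB_l16391 _)
                 (CovZ.leaf K2_ok TB_l16392 _))
                (CovZ.leaf K2_ok TB_l16393 _)))))
            (CovZ.n1 (-21648, 8592) (by decide +kernel)
             (CovZ.n2 (-21648, 8640) (by decide +kernel)
              (CovZ.n2 (-21624, 8616) (by decide +kernel)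
               (CovZ.leaf K2_ok TB_l16394 _)
               (CovZ.n1 (-21624, 8640) (by decide +kernel)
                (CovZ.leaf K2_ok TB_l16395 _)
                (CovZ.leaf K2_ok TB_l16396 _)))
              (CovZ.n1 (-21672, 8616) (by decide +kernel)
               (CovZ.leaf K2_ok TB_l16397 _)
               (CovZ.leaf K2_ok TB_l16398 _)))
             (CovZ.n1 (-21600, 8592) (by decide +kernel)
              (CovZ.n2 (-21624, 8568) (by decide +kernel)
               (CovZ.leaf K2_ok TB_l16399 _)
               (CovZ.leaf K2_ok TB_l16400 _))
              (CovZ.n1 (-21624, 8616) (by decide +kernel)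
               (CovZ.leaf K2_ok TB_l16401 _)
               (CovZ.leaf K2_ok TB_l16402 _)))))
           (CovZ.subM 1231312693637410659930342855777021123882511202417686644209605908561169218050383029281660921992537319305077011259392 (by decide +kernel)
            (CovZ.n1 (-21504, 8544) (by decide +kernel)
             (CovZ.n2 (-21552, 8496) (by decide +kernel)
              (CovZ.n2 (-21552, 8544) (by decide +kernel)
               (CovZ.n2 (-21528, 8520) (by decide +kernel)
                (CovZ.leaf K2_ok TB_l16403 _)
                (CovZ.n1 (-21528, 8544) (by decide +kernel)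
                 (CovZ.leaf K2_ok TB_l16404 _)
                 (CovZ.leaf K2_ok TB_l16405 _)))
               (CovZ.n1 (-21576, 8520) (by decide +kernel)
                (CovZ.n2 (-21576, 8544) (by decide +kernel)
                 (CovZ.leaf K2_ok TB_l16406 _)
                 (CovZ.leaf K2_ok TB_l16407 _))
                (CovZ.leaf K2_ok TB_l16408 _)))
              (CovZ.n1 (-21504, 8496) (by decide +kernel)
               (CovZ.n2 (-21528, 8472) (by decide +kernel)
                (CovZ.leaf K2_ok TB_l16409 _)
                (CovZ.leaf K2_ok TB_l16410 _))
               (CovZ.n1 (-21528, 8520) (by decide +kernel)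
                (CovZ.leaf K2_ok TB_l16411 _)
                (CovZ.leaf K2_ok TB_l16412 _))))
             (CovZ.n1 (-21552, 8592) (by decide +kernel)
              (CovZ.n2 (-21504, 8592) (by decide +kernel)
               (CovZ.n2 (-21528, 8568) (by decide +kernel)
                (CovZ.n2 (-21528, 8592) (by decide +kernel)
                 (CovZ.leaf K2_ok TB_l16413 _)
                 (CovZ.leaf K2_ok TB_l16414 _))
                (CovZ.leaf K2_ok TB_l16415 _))
               (CovZ.n1 (-21528, 8616) (by decide +kernel)
                (CovZ.leaf K2_ok TB_l16416 _)
                (CovZ.leaf K2_ok TB_l16417 _)))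
              (CovZ.n1 (-21552, 8544) (by decide +kernel)
               (CovZ.n2 (-21576, 8568) (by decide +kernel)
                (CovZ.leaf K2_ok TB_l16418 _)
                (CovZ.leaf K2_ok TB_l16419 _))
               (CovZ.n1 (-21528, 8568) (by decide +kernel)
                (CovZ.n2 (-21528, 8544) (by decide +kernel)
                 (CovZ.leaf K2_ok TB_l16420 _)
                 (CovZ.leaf K2_ok TB_l16421 _))
                (CovZ.leaf K2_ok TB_l16422 _)))))))
          (CovZ.n1 (-21600, 8736) (by decide +kernel)
           (CovZ.subM 1231312693637411787739841521376610683463327613480927967385260527414287424970957590694231679974578358577586109423616 (by decide +kernel)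
            (CovZ.n2 (-21504, 8736) (by decide +kernel)
             (CovZ.n2 (-21552, 8688) (by decide +kernel)
              (CovZ.n2 (-21552, 8736) (by decide +kernel)
               (CovZ.n2 (-21528, 8712) (by decide +kernel)
                (CovZ.leaf K2_ok TB_l16423 _)
                (CovZ.n1 (-21528, 8736) (by decide +kernel)
                 (CovZ.leaf K2_ok TB_l16424 _)
                 (CovZ.leaf K2_ok TB_l16425 _)))
               (CovZ.n1 (-21576, 8712) (by decide +kernel)
                (CovZ.n2 (-21576, 8736) (by decide +kernel)
                 (CovZ.leaf K2_ok TB_l16426 _)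
                 (CovZ.leaf K2_ok TB_l16427 _))
                (CovZ.leaf K2_ok TB_l16428 _)))
              (CovZ.n1 (-21504, 8688) (by decide +kernel)
               (CovZ.n2 (-21528, 8664) (by decide +kernel)
                (CovZ.n2 (-21528, 8688) (by decide +kernel)
                 (CovZ.leaf K2_ok TB_l16429 _)
                 (CovZ.leaf K2_ok TB_l16430 _))
                (CovZ.n1 (-21504, 8664) (by decide +kernel)
                 (CovZ.leaf K2_ok TB_l16431 _)
                 (CovZ.leaf K2_ok TB_l16432 _)))
               (CovZ.n1 (-21528, 8712) (by decide +kernel)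
                (CovZ.n2 (-21504, 8712) (by decide +kernel)
                 (CovZ.leaf K2_ok TB_l16433 _)
                 (CovZ.leaf K2_ok TB_l16434 _))
                (CovZ.n1 (-21528, 8688) (by decide +kernel)
                 (CovZ.leaf K2_ok TB_l16435 _)
                 (CovZ.leaf K2_ok TB_l16436 _)))))
             (CovZ.n1 (-21552, 8784) (by decide +kernel)
              (CovZ.n2 (-21504, 8784) (by decide +kernel)
               (CovZ.n2 (-21528, 8760) (by decide +kernel)
                (CovZ.n2 (-21528, 8784) (by decide +kernel)
                 (CovZ.leaf K2_ok TB_l16437 _)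
                 (CovZ.leaf K2_ok TB_l16438 _))
                (CovZ.n1 (-21504, 8760) (by decide +kernel)
                 (CovZ.leaf K2_ok TB_l16439 _)
                 (CovZ.leaf K2_ok TB_l16440 _)))
               (CovZ.n1 (-21528, 8808) (by decide +kernel)
                (CovZ.n2 (-21504, 8808) (by decide +kernel)
                 (CovZ.leaf K2_ok TB_l16441 _)
                 (CovZ.leaf K2_ok TB_l16442 _))
                (CovZ.n1 (-21528, 8784) (by decide +kernel)
                 (CovZ.leaf K2_ok TB_l16443 _)
                 (CovZ.leaf K2_ok TB_l16444 _))))
              (CovZ.n1 (-21552, 8736) (by decide +kernel)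
               (CovZ.n2 (-21576, 8760) (by decide +kernel)
                (CovZ.leaf K2_ok TB_l16445 _)
                (CovZ.n1 (-21576, 8736) (by decide +kernel)
                 (CovZ.leaf K2_ok TB_l16446 _)
                 (CovZ.leaf K2_ok TB_l16447 _)))
               (CovZ.n1 (-21528, 8760) (by decide +kernel)
                (CovZ.n2 (-21528, 8736) (by decide +kernel)
                 (CovZ.leaf K2_ok TB_l16448 _)
                 (CovZ.leaf K2_ok TB_l16449 _))
                (CovZ.leaf K2_ok TB_l16450 _))))))
           (CovZ.n1 (-21600, 8640) (by decide +kernel)
            (CovZ.n2 (-21648, 8688) (by decide +kernel)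
             (CovZ.n2 (-21600, 8688) (by decide +kernel)
              (CovZ.n2 (-21624, 8664) (by decide +kernel)
               (CovZ.n2 (-21624, 8688) (by decide +kernel)
                (CovZ.leaf K2_ok TB_l16451 _)
                (CovZ.leaf K2_ok TB_l16452 _))
               (CovZ.leaf K2_ok TB_l16453 _))
              (CovZ.n1 (-21624, 8712) (by decide +kernel)
               (CovZ.leaf K2_ok TB_l16454 _)
               (CovZ.leaf K2_ok TB_l16455 _)))
             (CovZ.n1 (-21648, 8640) (by decide +kernel)
              (CovZ.n2 (-21672, 8664) (by decide +kernel)
               (CovZ.leaf K2_ok TB_l16456 _)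
               (CovZ.leaf K2_ok TB_l16457 _))
              (CovZ.n1 (-21624, 8664) (by decide +kernel)
               (CovZ.leaf K2_ok TB_l16458 _)
               (CovZ.leaf K2_ok TB_l16459 _))))
            (CovZ.subM 1231312693637410694114479129870648497212214054670245290800545080808069212085654385717732080286616746820997597896704 (by decide +kernel)
             (CovZ.n1 (-21552, 8688) (by decide +kernel)
              (CovZ.n2 (-21552, 8640) (by decide +kernel)
               (CovZ.n2 (-21576, 8664) (by decide +kernel)
                (CovZ.leaf K2_ok TB_l16460 _)
                (CovZ.leaf K2_ok TB_l16461 _))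
               (CovZ.n1 (-21528, 8664) (by decide +kernel)
                (CovZ.n2 (-21528, 8640) (by decide +kernel)
                 (CovZ.leaf K2_ok TB_l16462 _)
                 (CovZ.leaf K2_ok TB_l16463 _))
                (CovZ.leaf K2_ok TB_l16464 _)))
              (CovZ.n1 (-21600, 8688) (by decide +kernel)
               (CovZ.n2 (-21576, 8712) (by decide +kernel)
                (CovZ.n2 (-21576, 8688) (by decide +kernel)
                 (CovZ.leaf K2_ok TB_l16465 _)
                 (CovZ.leaf K2_ok TB_l16466 _))
                (CovZ.leaf K2_ok TB_l16467 _))
               (CovZ.n1 (-21576, 8664) (by decide +kernel)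
                (CovZ.leaf K2_ok TB_l16468 _)
                (CovZ.n1 (-21576, 8688) (by decide +kernel)
                 (CovZ.leaf K2_ok TB_l16469 _)
                 (CovZ.leaf K2_ok TB_l16470 _)))))))))

theorem TB_u223 : CovZ TB_M (toL (selN TB_LN 631665816743553875574724668536701745072646061289582036835775837181050442937919744128828624974443334077987245478912132)) [0, 7, 6, 1] (-21504, 8832) (-21504, 9024) (-21696, 9024) :=
    (CovZ.subM 1233717601242207413292982296509868823634373333084589429185957497013149574007306918325155896202114513210704140435456 (by decide +kernel)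
          (CovZ.n2 (-21600, 8928) (by decide +kernel)
           (CovZ.n2 (-21600, 9024) (by decide +kernel)
            (CovZ.subM 1233717601242206009807656807367821754946067969513423002807069643183530668048569933410572108346876046496480668680192 (by decide +kernel)
             (CovZ.n2 (-21552, 8976) (by decide +kernel)
              (CovZ.n2 (-21600, 8976) (by decide +kernel)
               (CovZ.n2 (-21576, 9000) (by decide +kernel)
                (CovZ.n2 (-21576, 8976) (by decide +kernel)
                 (CovZ.leaf K2_ok TB_l40638 _)
                 (CovZ.leaf K2_ok TB_l40639 _))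
                (CovZ.n1 (-21600, 9000) (by decide +kernel)
                 (CovZ.leaf K2_ok TB_l40640 _)
                 (CovZ.leaf K2_ok TB_l40641 _)))
               (CovZ.n1 (-21576, 8952) (by decide +kernel)
                (CovZ.n2 (-21600, 8952) (by decide +kernel)
                 (CovZ.leaf K2_ok TB_l40642 _)
                 (CovZ.leaf K2_ok TB_l40643 _))
                (CovZ.n1 (-21576, 8976) (by decide +kernel)
                 (CovZ.leaf K2_ok TB_l48712 _)
                 (CovZ.leaf K2_ok TB_l40644 _))))
              (CovZ.subM 1233717601242205992148217113904516327645038902685856399070256668309094779013751328114759414539353686638671071019008 (by decide +kernel)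
               (CovZ.n1 (-21552, 9024) (by decide +kernel)
                (CovZ.n2 (-21528, 9000) (by decide +kernel)
                 (CovZ.n2 (-21552, 9000) (by decide +kernel)
                  (CovZ.leaf K2_ok TB_l48713 _)
                  (CovZ.leaf K2_ok TB_l48714 _))
                 (CovZ.n1 (-21528, 9024) (by decide +kernel)
                  (CovZ.n2 (-21516, 9012) (by decide +kernel)
                   (CovZ.leaf K2_ok TB_l48715 _)
                   (CovZ.leaf K2_ok TB_l48716 _))
                  (CovZ.leaf K2_ok TB_l48717 _)))
                (CovZ.n1 (-21576, 9000) (by decide +kernel)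
                 (CovZ.n2 (-21576, 9024) (by decide +kernel)
                  (CovZ.leaf K2_ok TB_l48718 _)
                  (CovZ.leaf K2_ok TB_l48719 _))
                 (CovZ.n1 (-21552, 9000) (by decide +kernel)
                  (CovZ.leaf K2_ok TB_l48720 _)
                  (CovZ.leaf K2_ok TB_l48721 _)))))))
            (CovZ.n1 (-21648, 8976) (by decide +kernel)
             (CovZ.n2 (-21648, 9024) (by decide +kernel)
              (CovZ.n2 (-21624, 9000) (by decide +kernel)
               (CovZ.n2 (-21648, 9000) (by decide +kernel)
                (CovZ.leaf K2_ok TB_l40645 _)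
                (CovZ.leaf K2_ok TB_l40646 _))
               (CovZ.n1 (-21624, 9024) (by decide +kernel)
                (CovZ.leaf K2_ok TB_l40647 _)
                (CovZ.leaf K2_ok TB_l40648 _)))
              (CovZ.n1 (-21672, 9000) (by decide +kernel)
               (CovZ.n2 (-21672, 9024) (by decide +kernel)
                (CovZ.leaf K2_ok TB_l40649 _)
                (CovZ.leaf K2_ok TB_l40650 _))
               (CovZ.n1 (-21648, 9000) (by decide +kernel)
                (CovZ.leaf K2_ok TB_l40651 _)
                (CovZ.leaf K2_ok TB_l40652 _))))
             (CovZ.n1 (-21600, 8976) (by decide +kernel)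
              (CovZ.n2 (-21624, 8952) (by decide +kernel)
               (CovZ.n2 (-21624, 8976) (by decide +kernel)
                (CovZ.leaf K2_ok TB_l40653 _)
                (CovZ.leaf K2_ok TB_l40654 _))
               (CovZ.n1 (-21600, 8952) (by decide +kernel)
                (CovZ.leaf K2_ok TB_l40655 _)
                (CovZ.leaf K2_ok TB_l40656 _)))
              (CovZ.n1 (-21624, 9000) (by decide +kernel)
               (CovZ.n2 (-21600, 9000) (by decide +kernel)
                (CovZ.leaf K2_ok TB_l40657 _)
                (CovZ.leaf K2_ok TB_l40658 _))
               (CovZ.n1 (-21624, 8976) (by decide +kernel)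
                (CovZ.leaf K2_ok TB_l40659 _)
                (CovZ.leaf K2_ok TB_l40660 _))))))
           (CovZ.n1 (-21504, 8928) (by decide +kernel)
            (CovZ.n2 (-21552, 8880) (by decide +kernel)
             (CovZ.n2 (-21552, 8928) (by decide +kernel)
              (CovZ.subM 1231312693637446988272196738994541032822289861157388591298823472739675325657896996029073787272650765815101878435840 (by decide +kernel)
               (CovZ.n2 (-21528, 8904) (by decide +kernel)
                (CovZ.n2 (-21552, 8904) (by decide +kernel)
                 (CovZ.leaf K2_ok TB_l40661 _)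
                 (CovZ.leaf K2_ok TB_l40662 _))
                (CovZ.n1 (-21528, 8928) (by decide +kernel)
                 (CovZ.leaf K2_ok TB_l48722 _)
                 (CovZ.leaf K2_ok TB_l40663 _))))
              (CovZ.n1 (-21576, 8904) (by decide +kernel)
               (CovZ.n2 (-21576, 8928) (by decide +kernel)
                (CovZ.leaf K2_ok TB_l40664 _)
                (CovZ.leaf K2_ok TB_l40665 _))
               (CovZ.n1 (-21552, 8904) (by decide +kernel)
                (CovZ.leaf K2_ok TB_l40666 _)
                (CovZ.leaf K2_ok TB_l48723 _))))
             (CovZ.subM 1231312693637446988272196738994541032822289861157388591298835732704002252768763862805290989746119715728079347253248 (by decide +kernel)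
              (CovZ.n1 (-21504, 8880) (by decide +kernel)
               (CovZ.n2 (-21528, 8856) (by decide +kernel)
                (CovZ.n2 (-21528, 8880) (by decide +kernel)
                 (CovZ.leaf K2_ok TB_l40667 _)
                 (CovZ.leaf K2_ok TB_l40668 _))
                (CovZ.n1 (-21504, 8856) (by decide +kernel)
                 (CovZ.leaf K2_ok TB_l16471 _)
                 (CovZ.leaf K2_ok TB_l40669 _)))
               (CovZ.n1 (-21528, 8904) (by decide +kernel)
                (CovZ.n2 (-21504, 8904) (by decide +kernel)
                 (CovZ.leaf K2_ok TB_l40670 _)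
                 (CovZ.leaf K2_ok TB_l48724 _))
                (CovZ.n1 (-21528, 8880) (by decide +kernel)
                 (CovZ.leaf K2_ok TB_l40671 _)
                 (CovZ.leaf K2_ok TB_l40672 _))))))
            (CovZ.subM 1233717601242205992715588670321008068281216543387248991803268614246778589058617925624855424295236881849774686339072 (by decide +kernel)
             (CovZ.n1 (-21552, 8976) (by decide +kernel)
              (CovZ.n2 (-21504, 8976) (by decide +kernel)
               (CovZ.n2 (-21528, 8952) (by decide +kernel)
                (CovZ.n2 (-21528, 8976) (by decide +kernel)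
                 (CovZ.leaf K2_ok TB_l48725 _)
                 (CovZ.leaf K2_ok TB_l48726 _))
                (CovZ.n1 (-21504, 8952) (by decide +kernel)
                 (CovZ.leaf K2_ok TB_l48727 _)
                 (CovZ.leaf K2_ok TB_l48728 _)))
               (CovZ.n1 (-21528, 9000) (by decide +kernel)
                (CovZ.n2 (-21504, 9000) (by decide +kernel)
                 (CovZ.n2 (-21516, 8988) (by decide +kernel)
                  (CovZ.leaf K2_ok TB_l48729 _)
                  (CovZ.leaf K2_ok TB_l48730 _))
                 (CovZ.n1 (-21516, 9012) (by decide +kernel)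
                  (CovZ.leaf K2_ok TB_l48731 _)
                  (CovZ.leaf K2_ok TB_l48732 _)))
                (CovZ.n1 (-21528, 8976) (by decide +kernel)
                 (CovZ.leaf K2_ok TB_l48733 _)
                 (CovZ.leaf K2_ok TB_l48734 _))))
              (CovZ.n1 (-21552, 8928) (by decide +kernel)
               (CovZ.n2 (-21576, 8952) (by decide +kernel)
                (CovZ.n2 (-21552, 8952) (by decide +kernel)
                 (CovZ.leaf K2_ok TB_l40673 _)
                 (CovZ.leaf K2_ok TB_l48735 _))
                (CovZ.n1 (-21576, 8928) (by decide +kernel)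
                 (CovZ.leaf K2_ok TB_l40674 _)
                 (CovZ.leaf K2_ok TB_l40675 _)))
               (CovZ.n1 (-21528, 8952) (by decide +kernel)
                (CovZ.n2 (-21528, 8928) (by decide +kernel)
                 (CovZ.leaf K2_ok TB_l48736 _)
                 (CovZ.leaf K2_ok TB_l48737 _))
                (CovZ.n1 (-21552, 8952) (by decide +kernel)
                 (CovZ.leaf K2_ok TB_l48738 _)
                 (CovZ.leaf K2_ok TB_l48739 _)))))))))

theorem TB_u224 : CovZ TB_M (toL (selN TB_LN 631665816743553875574724668536701745072646061289582036835775837181050442937919744128828624974443334077987245478912132)) [0, 7, 6, 1] (-21504, 9024) (-21504, 9216) (-21696, 9024) :=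
    (CovZ.subM 1233717601242206024759566058814192331711219912700287856448018717092734088429944073659476916240114907193432464162816 (by decide +kernel)
          (CovZ.n1 (-21600, 9120) (by decide +kernel)
           (CovZ.n2 (-21504, 9120) (by decide +kernel)
            (CovZ.subM 1233717601242205992148217113904516327645038902685856450492274085346077217045625572913585274809001577278949327634432 (by decide +kernel)
             (CovZ.n2 (-21552, 9072) (by decide +kernel)
              (CovZ.n2 (-21552, 9120) (by decide +kernel)
               (CovZ.n2 (-21528, 9096) (by decide +kernel)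
                (CovZ.n2 (-21552, 9096) (by decide +kernel)
                 (CovZ.leaf K2_ok TB_l40676 _)
                 (CovZ.n1 (-21540, 9084) (by decide +kernel)
                  (CovZ.leaf K2_ok TB_l48740 _)
                  (CovZ.leaf K2_ok TB_l48741 _)))
                (CovZ.n1 (-21528, 9120) (by decide +kernel)
                 (CovZ.leaf K2_ok TB_l40677 _)
                 (CovZ.leaf K2_ok TB_l40678 _)))
               (CovZ.n1 (-21576, 9096) (by decide +kernel)
                (CovZ.n2 (-21576, 9120) (by decide +kernel)
                 (CovZ.leaf K2_ok TB_l40679 _)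
                 (CovZ.leaf K2_ok TB_l40680 _))
                (CovZ.n1 (-21552, 9096) (by decide +kernel)
                 (CovZ.leaf K2_ok TB_l40681 _)
                 (CovZ.leaf K2_ok TB_l40682 _))))
              (CovZ.n1 (-21504, 9072) (by decide +kernel)
               (CovZ.subM 1233717601242205992148217113904516327645038902685856399070256668309094779013751328119830326425276425589726608621568 (by decide +kernel)
                (CovZ.n2 (-21528, 9048) (by decide +kernel)
                 (CovZ.n2 (-21528, 9072) (by decide +kernel)
                  (CovZ.leaf K2_ok TB_l40683 _)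
                  (CovZ.leaf K2_ok TB_l48742 _))
                 (CovZ.n1 (-21504, 9048) (by decide +kernel)
                  (CovZ.leaf K2_ok TB_l48743 _)
                  (CovZ.leaf K2_ok TB_l40684 _))))
               (CovZ.n1 (-21528, 9096) (by decide +kernel)
                (CovZ.leaf K2_ok TB_l40685 _)
                (CovZ.n1 (-21528, 9072) (by decide +kernel)
                 (CovZ.leaf K2_ok TB_l48744 _)
                 (CovZ.leaf K2_ok TB_l40686 _))))))
            (CovZ.n1 (-21552, 9168) (by decide +kernel)
             (CovZ.n2 (-21504, 9168) (by decide +kernel)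
              (CovZ.n2 (-21528, 9144) (by decide +kernel)
               (CovZ.leaf K2_ok TB_l16472 _)
               (CovZ.leaf K2_ok TB_l16473 _))
              (CovZ.n1 (-21528, 9192) (by decide +kernel)
               (CovZ.leaf K2_ok TB_l16474 _)
               (CovZ.leaf K2_ok TB_l16475 _)))
             (CovZ.n1 (-21552, 9120) (by decide +kernel)
              (CovZ.n2 (-21576, 9144) (by decide +kernel)
               (CovZ.leaf K2_ok TB_l16476 _)
               (CovZ.n1 (-21576, 9120) (by decide +kernel)
                (CovZ.leaf K2_ok TB_l16477 _)
                (CovZ.leaf K2_ok TB_l16478 _)))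
              (CovZ.n1 (-21528, 9144) (by decide +kernel)
               (CovZ.n2 (-21528, 9120) (by decide +kernel)
                (CovZ.leaf K2_ok TB_l16479 _)
                (CovZ.leaf K2_ok TB_l16480 _))
               (CovZ.leaf K2_ok TB_l16481 _)))))
           (CovZ.n1 (-21600, 9024) (by decide +kernel)
            (CovZ.n2 (-21648, 9072) (by decide +kernel)
             (CovZ.n2 (-21600, 9072) (by decide +kernel)
              (CovZ.subM 1233717601242206011376272286872240096704912034981687888390448194200278731240847415292719119875105171296369579655168 (by decide +kernel)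
               (CovZ.n2 (-21624, 9048) (by decide +kernel)
                (CovZ.n2 (-21624, 9072) (by decide +kernel)
                 (CovZ.leaf K2_ok TB_l40687 _)
                 (CovZ.leaf K2_ok TB_l40688 _))
                (CovZ.n1 (-21600, 9048) (by decide +kernel)
                 (CovZ.leaf K2_ok TB_l40689 _)
                 (CovZ.n1 (-21612, 9060) (by decide +kernel)
                  (CovZ.leaf K2_ok TB_l40690 _)
                  (CovZ.leaf K2_ok TB_l40691 _)))))
              (CovZ.n1 (-21624, 9096) (by decide +kernel)
               (CovZ.n2 (-21600, 9096) (by decide +kernel)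
                (CovZ.leaf K2_ok TB_l40692 _)
                (CovZ.leaf K2_ok TB_l40693 _))
               (CovZ.n1 (-21624, 9072) (by decide +kernel)
                (CovZ.n2 (-21636, 9084) (by decide +kernel)
                 (CovZ.leaf K2_ok TB_l40694 _)
                 (CovZ.leaf K2_ok TB_l40695 _))
                (CovZ.leaf K2_ok TB_l40696 _))))
             (CovZ.n1 (-21648, 9024) (by decide +kernel)
              (CovZ.n2 (-21672, 9048) (by decide +kernel)
               (CovZ.n2 (-21648, 9048) (by decide +kernel)
                (CovZ.leaf K2_ok TB_l40697 _)
                (CovZ.leaf K2_ok TB_l40698 _))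
               (CovZ.n1 (-21672, 9024) (by decide +kernel)
                (CovZ.leaf K2_ok TB_l40699 _)
                (CovZ.leaf K2_ok TB_l40700 _)))
              (CovZ.n1 (-21624, 9048) (by decide +kernel)
               (CovZ.n2 (-21624, 9024) (by decide +kernel)
                (CovZ.leaf K2_ok TB_l40701 _)
                (CovZ.leaf K2_ok TB_l40702 _))
               (CovZ.n1 (-21648, 9048) (by decide +kernel)
                (CovZ.leaf K2_ok TB_l40703 _)
                (CovZ.n1 (-21636, 9036) (by decide +kernel)
                 (CovZ.leaf K2_ok TB_l40704 _)
                 (CovZ.leaf K2_ok TB_l40705 _))))))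
            (CovZ.subM 1233717601242205992148217113904516327645038902685856450492274085346077217045625572913585274809001577278948253892608 (by decide +kernel)
             (CovZ.n1 (-21552, 9072) (by decide +kernel)
              (CovZ.n2 (-21552, 9024) (by decide +kernel)
               (CovZ.subM 1233717601242205992148217113904516327645038902685856399070256668309094779013751328114759414539353686638671071019008 (by decide +kernel)
                (CovZ.n2 (-21576, 9048) (by decide +kernel)
                 (CovZ.n2 (-21552, 9048) (by decide +kernel)
                  (CovZ.n2 (-21564, 9036) (by decide +kernel)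
                   (CovZ.leaf K2_ok TB_l48745 _)
                   (CovZ.leaf K2_ok TB_l48746 _))
                  (CovZ.n1 (-21564, 9060) (by decide +kernel)
                   (CovZ.leaf K2_ok TB_l48747 _)
                   (CovZ.leaf K2_ok TB_l48748 _)))
                 (CovZ.n1 (-21576, 9024) (by decide +kernel)
                  (CovZ.n2 (-21588, 9036) (by decide +kernel)
                   (CovZ.leaf K2_ok TB_l48749 _)
                   (CovZ.leaf K2_ok TB_l48750 _))
                  (CovZ.leaf K2_ok TB_l48751 _))))
               (CovZ.n1 (-21528, 9048) (by decide +kernel)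
                (CovZ.n2 (-21528, 9024) (by decide +kernel)
                 (CovZ.leaf K2_ok TB_l48752 _)
                 (CovZ.leaf K2_ok TB_l48753 _))
                (CovZ.n1 (-21552, 9048) (by decide +kernel)
                 (CovZ.leaf K2_ok TB_l48754 _)
                 (CovZ.leaf K2_ok TB_l48755 _))))
              (CovZ.n1 (-21600, 9072) (by decide +kernel)
               (CovZ.n2 (-21576, 9096) (by decide +kernel)
                (CovZ.n2 (-21576, 9072) (by decide +kernel)
                 (CovZ.n2 (-21588, 9084) (by decide +kernel)
                  (CovZ.leaf K2_ok TB_l40706 _)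
                  (CovZ.leaf K2_ok TB_l40707 _))
                 (CovZ.leaf K2_ok TB_l40708 _))
                (CovZ.n1 (-21600, 9096) (by decide +kernel)
                 (CovZ.leaf K2_ok TB_l40709 _)
                 (CovZ.n1 (-21588, 9084) (by decide +kernel)
                  (CovZ.leaf K2_ok TB_l40710 _)
                  (CovZ.leaf K2_ok TB_l40711 _))))
               (CovZ.n1 (-21576, 9048) (by decide +kernel)
                (CovZ.n2 (-21600, 9048) (by decide +kernel)
                 (CovZ.leaf K2_ok TB_l40712 _)
                 (CovZ.leaf K2_ok TB_l40713 _))
                (CovZ.n1 (-21576, 9072) (by decide +kernel)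
                 (CovZ.leaf K2_ok TB_l48756 _)
                 (CovZ.leaf K2_ok TB_l40714 _)))))))))

theorem TB_u225 : CovZ TB_M (toL (selN TB_LN 631665816743553875574724668536701745072646061289582036835775837181050442937919744128828624974443334077987245478912132)) [0, 7, 6, 1] (-22272, 8448) (-21888, 8448) (-21888, 8832) :=
    (CovZ.subM 631663411835949115036609210016725574657524127363454753535025191755033283618330581271954542610069003828226421090689028 (by decide +kernel)
        (CovZ.n2 (-22080, 8640) (by decide +kernel)
         (CovZ.n2 (-21888, 8640) (by decide +kernel)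
          (CovZ.n2 (-21984, 8544) (by decide +kernel)
           (CovZ.n2 (-21984, 8640) (by decide +kernel)
            (CovZ.n2 (-21936, 8592) (by decide +kernel)
             (CovZ.n2 (-21984, 8592) (by decide +kernel)
              (CovZ.leaf K2_ok TB_l16577 _)
              (CovZ.leaf K2_ok TB_l16578 _))
             (CovZ.n1 (-21936, 8640) (by decide +kernel)
              (CovZ.leaf K2_ok TB_l16579 _)
              (CovZ.leaf K2_ok TB_l16580 _)))
            (CovZ.n1 (-22032, 8592) (by decide +kernel)
             (CovZ.n2 (-22032, 8640) (by decide +kernel)
              (CovZ.leaf K2_ok TB_l16581 _)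
              (CovZ.leaf K2_ok TB_l16582 _))
             (CovZ.leaf K2_ok TB_l16583 _)))
           (CovZ.n1 (-21888, 8544) (by decide +kernel)
            (CovZ.n2 (-21936, 8496) (by decide +kernel)
             (CovZ.n2 (-21936, 8544) (by decide +kernel)
              (CovZ.leaf K2_ok TB_l16584 _)
              (CovZ.leaf K2_ok TB_l16585 _))
             (CovZ.n1 (-21888, 8496) (by decide +kernel)
              (CovZ.leaf K2_ok TB_l16586 _)
              (CovZ.leaf K2_ok TB_l16587 _)))
            (CovZ.n1 (-21936, 8592) (by decide +kernel)
             (CovZ.n2 (-21888, 8592) (by decide +kernel)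
              (CovZ.leaf K2_ok TB_l16588 _)
              (CovZ.leaf K2_ok TB_l16589 _))
             (CovZ.n1 (-21936, 8544) (by decide +kernel)
              (CovZ.leaf K2_ok TB_l16590 _)
              (CovZ.leaf K2_ok TB_l16591 _)))))
          (CovZ.n1 (-21984, 8736) (by decide +kernel)
           (CovZ.n2 (-21888, 8736) (by decide +kernel)
            (CovZ.n2 (-21936, 8688) (by decide +kernel)
             (CovZ.n2 (-21936, 8736) (by decide +kernel)
              (CovZ.leaf K2_ok TB_l16592 _)
              (CovZ.leaf K2_ok TB_l16593 _))
             (CovZ.n1 (-21888, 8688) (by decide +kernel)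
              (CovZ.leaf K2_ok TB_l16594 _)
              (CovZ.leaf K2_ok TB_l16595 _)))
            (CovZ.n1 (-21936, 8784) (by decide +kernel)
             (CovZ.n2 (-21888, 8784) (by decide +kernel)
              (CovZ.leaf K2_ok TB_l16596 _)
              (CovZ.n1 (-21912, 8808) (by decide +kernel)
               (CovZ.leaf K2_ok TB_l16597 _)
               (CovZ.leaf K2_ok TB_l16598 _)))
             (CovZ.n1 (-21936, 8736) (by decide +kernel)
              (CovZ.leaf K2_ok TB_l16599 _)
              (CovZ.leaf K2_ok TB_l16600 _))))
           (CovZ.n1 (-21984, 8640) (by decide +kernel)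
            (CovZ.n2 (-22032, 8688) (by decide +kernel)
             (CovZ.n2 (-21984, 8688) (by decide +kernel)
              (CovZ.leaf K2_ok TB_l16601 _)
              (CovZ.leaf K2_ok TB_l16602 _))
             (CovZ.n1 (-22032, 8640) (by decide +kernel)
              (CovZ.leaf K2_ok TB_l16603 _)
              (CovZ.leaf K2_ok TB_l16604 _)))
            (CovZ.n1 (-21936, 8688) (by decide +kernel)
             (CovZ.n2 (-21936, 8640) (by decide +kernel)
              (CovZ.leaf K2_ok TB_l16605 _)
              (CovZ.leaf K2_ok TB_l16606 _))
             (CovZ.n1 (-21984, 8688) (by decide +kernel)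
              (CovZ.leaf K2_ok TB_l16607 _)
              (CovZ.leaf K2_ok TB_l16608 _))))))
         (CovZ.n1 (-22080, 8448) (by decide +kernel)
          (CovZ.n2 (-22176, 8544) (by decide +kernel)
           (CovZ.n2 (-22080, 8544) (by decide +kernel)
            (CovZ.n2 (-22128, 8496) (by decide +kernel)
             (CovZ.n2 (-22128, 8544) (by decide +kernel)
              (CovZ.leaf K2_ok TB_l16609 _)
              (CovZ.leaf K2_ok TB_l16610 _))
             (CovZ.leaf K2_ok TB_l16611 _))
            (CovZ.n1 (-22128, 8592) (by decide +kernel)
             (CovZ.leaf K2_ok TB_l16612 _)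
             (CovZ.n1 (-22128, 8544) (by decide +kernel)
              (CovZ.leaf K2_ok TB_l16613 _)
              (CovZ.leaf K2_ok TB_l16614 _))))
           (CovZ.n1 (-22176, 8448) (by decide +kernel)
            (CovZ.n2 (-22224, 8496) (by decide +kernel)
             (CovZ.leaf K2_ok TB_l16615 _)
             (CovZ.leaf K2_ok TB_l16616 _))
            (CovZ.n1 (-22128, 8496) (by decide +kernel)
             (CovZ.n2 (-22128, 8448) (by decide +kernel)
              (CovZ.leaf K2_ok TB_l16617 _)
              (CovZ.leaf K2_ok TB_l16618 _))
             (CovZ.leaf K2_ok TB_l16619 _))))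
          (CovZ.n1 (-21984, 8544) (by decide +kernel)
           (CovZ.n2 (-21984, 8448) (by decide +kernel)
            (CovZ.n2 (-22032, 8496) (by decide +kernel)
             (CovZ.leaf K2_ok TB_l16620 _)
             (CovZ.n1 (-22032, 8448) (by decide +kernel)
              (CovZ.leaf K2_ok TB_l16621 _)
              (CovZ.leaf K2_ok TB_l16622 _)))
            (CovZ.n1 (-21936, 8496) (by decide +kernel)
             (CovZ.n2 (-21936, 8448) (by decide +kernel)
              (CovZ.leaf K2_ok TB_l16623 _)
              (CovZ.leaf K2_ok TB_l16624 _))
             (CovZ.leaf K2_ok TB_l16625 _)))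
           (CovZ.n1 (-22080, 8544) (by decide +kernel)
            (CovZ.n2 (-22032, 8592) (by decide +kernel)
             (CovZ.n2 (-22032, 8544) (by decide +kernel)
              (CovZ.leaf K2_ok TB_l16626 _)
              (CovZ.leaf K2_ok TB_l16627 _))
             (CovZ.leaf K2_ok TB_l16628 _))
            (CovZ.n1 (-22032, 8496) (by decide +kernel)
             (CovZ.leaf K2_ok TB_l16629 _)
             (CovZ.n1 (-22032, 8544) (by decide +kernel)
              (CovZ.leaf K2_ok TB_l16630 _)
              (CovZ.leaf K2_ok TB_l16631 _))))))))

theorem TB_u226 : CovZ TB_M (toL (selN TB_LN 631665816743553875574724668536701745072646061289582036835775837181050442937919744128828624974443334077987245478912132)) [0, 7, 6, 1] (-21888, 8448) (-21504, 8448) (-21888, 8832) :=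
    (CovZ.subM 1231312693637447759935060112539105545565981205836851649796622201610557481971943454694572532602068095836575533899776 (by decide +kernel)
        (CovZ.n1 (-21696, 8640) (by decide +kernel)
         (CovZ.n2 (-21696, 8448) (by decide +kernel)
          (CovZ.n2 (-21792, 8544) (by decide +kernel)
           (CovZ.n2 (-21696, 8544) (by decide +kernel)
            (CovZ.n2 (-21744, 8496) (by decide +kernel)
             (CovZ.n2 (-21744, 8544) (by decide +kernel)
              (CovZ.leaf K2_ok TB_l16632 _)
              (CovZ.leaf K2_ok TB_l16633 _))
             (CovZ.n1 (-21696, 8496) (by decide +kernel)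
              (CovZ.leaf K2_ok TB_l16634 _)
              (CovZ.leaf K2_ok TB_l16635 _)))
            (CovZ.n1 (-21744, 8592) (by decide +kernel)
             (CovZ.n2 (-21696, 8592) (by decide +kernel)
              (CovZ.leaf K2_ok TB_l16636 _)
              (CovZ.n1 (-21720, 8616) (by decide +kernel)
               (CovZ.leaf K2_ok TB_l16637 _)
               (CovZ.leaf K2_ok TB_l16638 _)))
             (CovZ.n1 (-21744, 8544) (by decide +kernel)
              (CovZ.leaf K2_ok TB_l16639 _)
              (CovZ.leaf K2_ok TB_l16640 _))))
           (CovZ.n1 (-21792, 8448) (by decide +kernel)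
            (CovZ.n2 (-21840, 8496) (by decide +kernel)
             (CovZ.n2 (-21792, 8496) (by decide +kernel)
              (CovZ.leaf K2_ok TB_l16641 _)
              (CovZ.leaf K2_ok TB_l16642 _))
             (CovZ.n1 (-21840, 8448) (by decide +kernel)
              (CovZ.leaf K2_ok TB_l16643 _)
              (CovZ.leaf K2_ok TB_l16644 _)))
            (CovZ.n1 (-21744, 8496) (by decide +kernel)
             (CovZ.n2 (-21744, 8448) (by decide +kernel)
              (CovZ.leaf K2_ok TB_l16645 _)
              (CovZ.leaf K2_ok TB_l16646 _))
             (CovZ.n1 (-21792, 8496) (by decide +kernel)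
              (CovZ.leaf K2_ok TB_l16647 _)
              (CovZ.leaf K2_ok TB_l16648 _)))))
          (CovZ.n1 (-21600, 8544) (by decide +kernel)
           (CovZ.n2 (-21600, 8448) (by decide +kernel)
            (CovZ.n2 (-21648, 8496) (by decide +kernel)
             (CovZ.n2 (-21600, 8496) (by decide +kernel)
              (CovZ.leaf K2_ok TB_l16649 _)
              (CovZ.n1 (-21624, 8520) (by decide +kernel)
               (CovZ.leaf K2_ok TB_l16650 _)
               (CovZ.leaf K2_ok TB_l16651 _)))
             (CovZ.n1 (-21648, 8448) (by decide +kernel)
              (CovZ.leaf K2_ok TB_l16652 _)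
              (CovZ.leaf K2_ok TB_l16653 _)))
            (CovZ.subM 1231312693637410659796843666031964243732822345782089637046936875913878419928692928792772189131247284928641880825856 (by decide +kernel)
             (CovZ.n1 (-21552, 8496) (by decide +kernel)
              (CovZ.n2 (-21552, 8448) (by decide +kernel)
               (CovZ.n2 (-21576, 8472) (by decide +kernel)
                (CovZ.leaf K2_ok TB_l16654 _)
                (CovZ.leaf K2_ok TB_l16655 _))
               (CovZ.n1 (-21528, 8472) (by decide +kernel)
                (CovZ.leaf K2_ok TB_l16656 _)
                (CovZ.leaf K2_ok TB_l16657 _)))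
              (CovZ.n1 (-21600, 8496) (by decide +kernel)
               (CovZ.n2 (-21576, 8520) (by decide +kernel)
                (CovZ.leaf K2_ok TB_l16658 _)
                (CovZ.leaf K2_ok TB_l16659 _))
               (CovZ.n1 (-21576, 8472) (by decide +kernel)
                (CovZ.leaf K2_ok TB_l16660 _)
                (CovZ.leaf K2_ok TB_l16661 _))))))
           (CovZ.n1 (-21696, 8544) (by decide +kernel)
            (CovZ.n2 (-21648, 8592) (by decide +kernel)
             (CovZ.n2 (-21648, 8544) (by decide +kernel)
              (CovZ.n2 (-21672, 8568) (by decide +kernel)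
               (CovZ.leaf K2_ok TB_l16662 _)
               (CovZ.leaf K2_ok TB_l16663 _))
              (CovZ.leaf K2_ok TB_l16664 _))
             (CovZ.n1 (-21696, 8592) (by decide +kernel)
              (CovZ.n2 (-21672, 8616) (by decide +kernel)
               (CovZ.leaf K2_ok TB_l16665 _)
               (CovZ.leaf K2_ok TB_l16666 _))
              (CovZ.n1 (-21672, 8568) (by decide +kernel)
               (CovZ.leaf K2_ok TB_l16667 _)
               (CovZ.leaf K2_ok TB_l16668 _))))
            (CovZ.n1 (-21648, 8496) (by decide +kernel)
             (CovZ.n2 (-21696, 8496) (by decide +kernel)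
              (CovZ.leaf K2_ok TB_l16669 _)
              (CovZ.leaf K2_ok TB_l16670 _))
             (CovZ.n1 (-21648, 8544) (by decide +kernel)
              (CovZ.n2 (-21624, 8520) (by decide +kernel)
               (CovZ.leaf K2_ok TB_l16671 _)
               (CovZ.leaf K2_ok TB_l16672 _))
              (CovZ.n1 (-21672, 8520) (by decide +kernel)
               (CovZ.leaf K2_ok TB_l16673 _)
               (CovZ.leaf K2_ok TB_l16674 _)))))))
         (CovZ.n1 (-21888, 8640) (by decide +kernel)
          (CovZ.n2 (-21792, 8736) (by decide +kernel)
           (CovZ.n2 (-21792, 8640) (by decide +kernel)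
            (CovZ.n2 (-21840, 8688) (by decide +kernel)
             (CovZ.n2 (-21792, 8688) (by decide +kernel)
              (CovZ.n2 (-21816, 8664) (by decide +kernel)
               (CovZ.leaf K2_ok TB_l16675 _)
               (CovZ.leaf K2_ok TB_l16676 _))
              (CovZ.n1 (-21816, 8712) (by decide +kernel)
               (CovZ.leaf K2_ok TB_l16677 _)
               (CovZ.leaf K2_ok TB_l16678 _)))
             (CovZ.n1 (-21840, 8640) (by decide +kernel)
              (CovZ.leaf K2_ok TB_l16679 _)
              (CovZ.leaf K2_ok TB_l16680 _)))
            (CovZ.n1 (-21744, 8688) (by decide +kernel)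
             (CovZ.n2 (-21744, 8640) (by decide +kernel)
              (CovZ.n2 (-21768, 8664) (by decide +kernel)
               (CovZ.leaf K2_ok TB_l16681 _)
               (CovZ.leaf K2_ok TB_l16682 _))
              (CovZ.leaf K2_ok TB_l16683 _))
             (CovZ.n1 (-21792, 8688) (by decide +kernel)
              (CovZ.leaf K2_ok TB_l16684 _)
              (CovZ.n1 (-21768, 8664) (by decide +kernel)
               (CovZ.leaf K2_ok TB_l16685 _)
               (CovZ.leaf K2_ok TB_l16686 _)))))
           (CovZ.n1 (-21888, 8736) (by decide +kernel)
            (CovZ.n2 (-21840, 8784) (by decide +kernel)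
             (CovZ.n2 (-21840, 8736) (by decide +kernel)
              (CovZ.n2 (-21864, 8760) (by decide +kernel)
               (CovZ.leaf K2_ok TB_l16687 _)
               (CovZ.leaf K2_ok TB_l16688 _))
              (CovZ.n1 (-21816, 8760) (by decide +kernel)
               (CovZ.leaf K2_ok TB_l16689 _)
               (CovZ.leaf K2_ok TB_l16690 _)))
             (CovZ.n1 (-21888, 8784) (by decide +kernel)
              (CovZ.n2 (-21864, 8808) (by decide +kernel)
               (CovZ.leaf K2_ok TB_l16691 _)
               (CovZ.leaf K2_ok TB_l16692 _))
              (CovZ.n1 (-21864, 8760) (by decide +kernel)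
               (CovZ.leaf K2_ok TB_l16693 _)
               (CovZ.leaf K2_ok TB_l16694 _))))
            (CovZ.n1 (-21840, 8688) (by decide +kernel)
             (CovZ.n2 (-21888, 8688) (by decide +kernel)
              (CovZ.leaf K2_ok TB_l16695 _)
              (CovZ.leaf K2_ok TB_l16696 _))
             (CovZ.n1 (-21840, 8736) (by decide +kernel)
              (CovZ.n2 (-21816, 8712) (by decide +kernel)
               (CovZ.leaf K2_ok TB_l16697 _)
               (CovZ.leaf K2_ok TB_l16698 _))
              (CovZ.n1 (-21864, 8712) (by decide +kernel)
               (CovZ.leaf K2_ok TB_l16699 _)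
               (CovZ.leaf K2_ok TB_l16700 _))))))
          (CovZ.n1 (-21792, 8544) (by decide +kernel)
           (CovZ.n2 (-21888, 8544) (by decide +kernel)
            (CovZ.n2 (-21840, 8592) (by decide +kernel)
             (CovZ.n2 (-21840, 8544) (by decide +kernel)
              (CovZ.leaf K2_ok TB_l16701 _)
              (CovZ.leaf K2_ok TB_l16702 _))
             (CovZ.n1 (-21888, 8592) (by decide +kernel)
              (CovZ.leaf K2_ok TB_l16703 _)
              (CovZ.leaf K2_ok TB_l16704 _)))
            (CovZ.n1 (-21840, 8496) (by decide +kernel)
             (CovZ.leaf K2_ok TB_l16705 _)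
             (CovZ.n1 (-21840, 8544) (by decide +kernel)
              (CovZ.leaf K2_ok TB_l16706 _)
              (CovZ.leaf K2_ok TB_l16707 _))))
           (CovZ.n1 (-21792, 8640) (by decide +kernel)
            (CovZ.n2 (-21744, 8592) (by decide +kernel)
             (CovZ.n2 (-21792, 8592) (by decide +kernel)
              (CovZ.leaf K2_ok TB_l16708 _)
              (CovZ.leaf K2_ok TB_l16709 _))
             (CovZ.n1 (-21744, 8640) (by decide +kernel)
              (CovZ.n2 (-21720, 8616) (by decide +kernel)
               (CovZ.leaf K2_ok TB_l16710 _)
               (CovZ.leaf K2_ok TB_l16711 _))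
              (CovZ.leaf K2_ok TB_l16712 _)))
            (CovZ.n1 (-21840, 8592) (by decide +kernel)
             (CovZ.n2 (-21840, 8640) (by decide +kernel)
              (CovZ.n2 (-21816, 8616) (by decide +kernel)
               (CovZ.leaf K2_ok TB_l16713 _)
               (CovZ.leaf K2_ok TB_l16714 _))
              (CovZ.leaf K2_ok TB_l16715 _))
             (CovZ.n1 (-21792, 8592) (by decide +kernel)
              (CovZ.leaf K2_ok TB_l16716 _)
              (CovZ.leaf K2_ok TB_l16717 _))))))))

theorem TB_u227 : CovZ TB_M (toL (selN TB_LN 631663411835949078793222903007518626853842594846193202333364859037238424824778624297094883109482883794214534223241348)) [0, 7, 6, 1] (-23040, 7680) (-22272, 7680) (-22272, 8448) :=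
    (CovZ.subM 631663411835949077987914071968540195515872633852573325751115251478493780145023054136815353726416991385513159259332740 (by decide +kernel)
       (CovZ.n2 (-22656, 8064) (by decide +kernel)
        (CovZ.n2 (-22272, 8064) (by decide +kernel)
         (CovZ.n2 (-22464, 7872) (by decide +kernel)
          (CovZ.n2 (-22464, 8064) (by decide +kernel)
           (CovZ.n2 (-22368, 7968) (by decide +kernel)
            (CovZ.n2 (-22464, 7968) (by decide +kernel)
             (CovZ.leaf K2_ok TB_l16718 _)
             (CovZ.leaf K2_ok TB_l16719 _))
            (CovZ.n1 (-22368, 8064) (by decide +kernel)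
             (CovZ.leaf K2_ok TB_l16720 _)
             (CovZ.leaf K2_ok TB_l16721 _)))
           (CovZ.n1 (-22560, 7968) (by decide +kernel)
            (CovZ.n2 (-22560, 8064) (by decide +kernel)
             (CovZ.leaf K2_ok TB_l16722 _)
             (CovZ.leaf K2_ok TB_l16723 _))
            (CovZ.leaf K2_ok TB_l16724 _)))
          (CovZ.n1 (-22272, 7872) (by decide +kernel)
           (CovZ.n2 (-22368, 7776) (by decide +kernel)
            (CovZ.n2 (-22368, 7872) (by decide +kernel)
             (CovZ.leaf K2_ok TB_l16725 _)
             (CovZ.leaf K2_ok TB_l16726 _))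
            (CovZ.n1 (-22272, 7776) (by decide +kernel)
             (CovZ.leaf K2_ok TB_l16727 _)
             (CovZ.leaf K2_ok TB_l16728 _)))
           (CovZ.n1 (-22368, 7968) (by decide +kernel)
            (CovZ.n2 (-22272, 7968) (by decide +kernel)
             (CovZ.leaf K2_ok TB_l16729 _)
             (CovZ.leaf K2_ok TB_l16730 _))
            (CovZ.n1 (-22368, 7872) (by decide +kernel)
             (CovZ.leaf K2_ok TB_l16731 _)
             (CovZ.leaf K2_ok TB_l16732 _)))))
         (CovZ.n1 (-22464, 8256) (by decide +kernel)
          (CovZ.n2 (-22272, 8256) (by decide +kernel)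
           (CovZ.n2 (-22368, 8160) (by decide +kernel)
            (CovZ.n2 (-22368, 8256) (by decide +kernel)
             (CovZ.n2 (-22320, 8208) (by decide +kernel)
              (CovZ.leaf K2_ok TB_l16733 _)
              (CovZ.leaf K2_ok TB_l16734 _))
             (CovZ.leaf K2_ok TB_l16735 _))
            (CovZ.n1 (-22272, 8160) (by decide +kernel)
             (CovZ.leaf K2_ok TB_l16736 _)
             (CovZ.n1 (-22320, 8208) (by decide +kernel)
              (CovZ.leaf K2_ok TB_l16737 _)
              (CovZ.leaf K2_ok TB_l16738 _))))
           (CovZ.n1 (-22368, 8352) (by decide +kernel)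
            (CovZ.n2 (-22272, 8352) (by decide +kernel)
             (CovZ.n2 (-22320, 8304) (by decide +kernel)
              (CovZ.leaf K2_ok TB_l16739 _)
              (CovZ.leaf K2_ok TB_l16740 _))
             (CovZ.n1 (-22320, 8400) (by decide +kernel)
              (CovZ.leaf K2_ok TB_l16741 _)
              (CovZ.leaf K2_ok TB_l16742 _)))
            (CovZ.n1 (-22368, 8256) (by decide +kernel)
             (CovZ.n2 (-22416, 8304) (by decide +kernel)
              (CovZ.leaf K2_ok TB_l16743 _)
              (CovZ.leaf K2_ok TB_l16744 _))
             (CovZ.n1 (-22320, 8304) (by decide +kernel)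
              (CovZ.leaf K2_ok TB_l16745 _)
              (CovZ.leaf K2_ok TB_l16746 _)))))
          (CovZ.n1 (-22464, 8064) (by decide +kernel)
           (CovZ.n2 (-22560, 8160) (by decide +kernel)
            (CovZ.n2 (-22464, 8160) (by decide +kernel)
             (CovZ.leaf K2_ok TB_l16747 _)
             (CovZ.leaf K2_ok TB_l16748 _))
            (CovZ.n1 (-22560, 8064) (by decide +kernel)
             (CovZ.leaf K2_ok TB_l16749 _)
             (CovZ.leaf K2_ok TB_l16750 _)))
           (CovZ.n1 (-22368, 8160) (by decide +kernel)
            (CovZ.n2 (-22368, 8064) (by decide +kernel)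
             (CovZ.leaf K2_ok TB_l16751 _)
             (CovZ.leaf K2_ok TB_l16752 _))
            (CovZ.n1 (-22464, 8160) (by decide +kernel)
             (CovZ.leaf K2_ok TB_l16753 _)
             (CovZ.leaf K2_ok TB_l16754 _))))))
        (CovZ.n1 (-22656, 7680) (by decide +kernel)
         (CovZ.n2 (-22848, 7872) (by decide +kernel)
          (CovZ.n2 (-22656, 7872) (by decide +kernel)
           (CovZ.subM 630432099142311746137490733790727098291356004561816299401272218883591450777430654478283619136436813518187129934454784 (by decide +kernel)
            (CovZ.n2 (-22752, 7776) (by decide +kernel)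
             (CovZ.n2 (-22752, 7872) (by decide +kernel)
              (CovZ.leaf K2_ok TB_l16755 _)
              (CovZ.leaf K2_ok TB_l16756 _))
             (CovZ.n1 (-22656, 7776) (by decide +kernel)
              (CovZ.leaf K2_ok TB_l16757 _)
              (CovZ.leaf K2_ok TB_l16758 _))))
           (CovZ.n1 (-22752, 7968) (by decide +kernel)
            (CovZ.leaf K2_ok TB_l16759 _)
            (CovZ.n1 (-22752, 7872) (by decide +kernel)
             (CovZ.leaf K2_ok TB_l16760 _)
             (CovZ.leaf K2_ok TB_l16761 _))))
          (CovZ.subM 630432099142311746137490733790727098291356004561816299401272218883591450777430654478283619136436813518187129934454784 (by decide +kernel)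
           (CovZ.n1 (-22848, 7680) (by decide +kernel)
            (CovZ.n2 (-22944, 7776) (by decide +kernel)
             (CovZ.n2 (-22848, 7776) (by decide +kernel)
              (CovZ.n2 (-22896, 7728) (by decide +kernel)
               (CovZ.leaf K2_ok TB_l16762 _)
               (CovZ.leaf K2_ok TB_l16763 _))
              (CovZ.leaf K2_ok TB_l16764 _))
             (CovZ.n1 (-22944, 7680) (by decide +kernel)
              (CovZ.n2 (-22992, 7728) (by decide +kernel)
               (CovZ.leaf K2_ok TB_l16765 _)
               (CovZ.n1 (-22992, 7680) (by decide +kernel)
                (CovZ.leaf K2_ok TB_l16766 _)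
                (CovZ.leaf K2_ok TB_l16767 _)))
              (CovZ.n1 (-22896, 7728) (by decide +kernel)
               (CovZ.n2 (-22896, 7680) (by decide +kernel)
                (CovZ.leaf K2_ok TB_l16768 _)
                (CovZ.leaf K2_ok TB_l16769 _))
               (CovZ.leaf K2_ok TB_l16770 _))))
            (CovZ.n1 (-22752, 7776) (by decide +kernel)
             (CovZ.n2 (-22752, 7680) (by decide +kernel)
              (CovZ.n2 (-22800, 7728) (by decide +kernel)
               (CovZ.leaf K2_ok TB_l16771 _)
               (CovZ.leaf K2_ok TB_l16772 _))
              (CovZ.n1 (-22704, 7728) (by decide +kernel)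
               (CovZ.leaf K2_ok TB_l16773 _)
               (CovZ.leaf K2_ok TB_l16774 _)))
             (CovZ.n1 (-22848, 7776) (by decide +kernel)
              (CovZ.leaf K2_ok TB_l16775 _)
              (CovZ.n1 (-22800, 7728) (by decide +kernel)
               (CovZ.leaf K2_ok TB_l16776 _)
               (CovZ.leaf K2_ok TB_l16777 _)))))))
         (CovZ.n1 (-22464, 7872) (by decide +kernel)
          (CovZ.n2 (-22464, 7680) (by decide +kernel)
           (CovZ.subM 630432099142311750511992183356750947036360458797059030107611080670015958253562534572460066613980480894458569997426688 (by decide +kernel)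
            (CovZ.n2 (-22560, 7776) (by decide +kernel)
             (CovZ.n2 (-22464, 7776) (by decide +kernel)
              (CovZ.leaf K2_ok TB_l16778 _)
              (CovZ.leaf K2_ok TB_l16779 _))
             (CovZ.n1 (-22560, 7680) (by decide +kernel)
              (CovZ.n2 (-22608, 7728) (by decide +kernel)
               (CovZ.leaf K2_ok TB_l16780 _)
               (CovZ.leaf K2_ok TB_l16781 _))
              (CovZ.n1 (-22512, 7728) (by decide +kernel)
               (CovZ.leaf K2_ok TB_l16782 _)
               (CovZ.leaf K2_ok TB_l16783 _)))))
           (CovZ.n1 (-22368, 7776) (by decide +kernel)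
            (CovZ.n2 (-22368, 7680) (by decide +kernel)
             (CovZ.n2 (-22416, 7728) (by decide +kernel)
              (CovZ.leaf K2_ok TB_l16784 _)
              (CovZ.leaf K2_ok TB_l16785 _))
             (CovZ.leaf K2_ok TB_l16786 _))
            (CovZ.n1 (-22464, 7776) (by decide +kernel)
             (CovZ.leaf K2_ok TB_l16787 _)
             (CovZ.n1 (-22416, 7728) (by decide +kernel)
              (CovZ.leaf K2_ok TB_l16788 _)
              (CovZ.leaf K2_ok TB_l16789 _)))))
          (CovZ.n1 (-22656, 7872) (by decide +kernel)
           (CovZ.n2 (-22560, 7968) (by decide +kernel)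
            (CovZ.n2 (-22560, 7872) (by decide +kernel)
             (CovZ.leaf K2_ok TB_l16790 _)
             (CovZ.leaf K2_ok TB_l16791 _))
            (CovZ.leaf K2_ok TB_l16792 _))
           (CovZ.subM 630432099142311750511992183356750947036360458797059030107611080670016323628971867298189617535188659965213483980562432 (by decide +kernel)
            (CovZ.n1 (-22560, 7776) (by decide +kernel)
             (CovZ.n2 (-22656, 7776) (by decide +kernel)
              (CovZ.leaf K2_ok TB_l16793 _)
              (CovZ.n1 (-22608, 7728) (by decide +kernel)
               (CovZ.leaf K2_ok TB_l16794 _)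
               (CovZ.leaf K2_ok TB_l16795 _)))
             (CovZ.n1 (-22560, 7872) (by decide +kernel)
              (CovZ.leaf K2_ok TB_l16796 _)
              (CovZ.leaf K2_ok TB_l16797 _)))))))))

theorem TB_u228 : CovZ TB_M (toL (selN TB_LN 631663411835949078793222903007518626853842594846193202333364859037238424824778624297094883109482883794214534223241348)) [0, 7, 6, 1] (-22272, 7680) (-21504, 7680) (-22272, 8448) :=
    (CovZ.n1 (-21888, 8064) (by decide +kernel)
       (CovZ.n2 (-21888, 7680) (by decide +kernel)
        (CovZ.n2 (-22080, 7872) (by decide +kernel)
         (CovZ.subM 1231312693637411277097097047174978055894095428782545444936875280174021107678911656758291226967356529329713673412608 (by decide +kernel)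
          (CovZ.n2 (-21888, 7872) (by decide +kernel)
           (CovZ.n2 (-21984, 7776) (by decide +kernel)
            (CovZ.n2 (-21984, 7872) (by decide +kernel)
             (CovZ.leaf K2_ok TB_l16798 _)
             (CovZ.leaf K2_ok TB_l16799 _))
            (CovZ.n1 (-21888, 7776) (by decide +kernel)
             (CovZ.leaf K2_ok TB_l16800 _)
             (CovZ.leaf K2_ok TB_l16801 _)))
           (CovZ.n1 (-21984, 7968) (by decide +kernel)
            (CovZ.n2 (-21888, 7968) (by decide +kernel)
             (CovZ.n2 (-21936, 7920) (by decide +kernel)
              (CovZ.leaf K2_ok TB_l16802 _)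
              (CovZ.leaf K2_ok TB_l16803 _))
             (CovZ.n1 (-21936, 8016) (by decide +kernel)
              (CovZ.leaf K2_ok TB_l16804 _)
              (CovZ.leaf K2_ok TB_l16805 _)))
            (CovZ.n1 (-21984, 7872) (by decide +kernel)
             (CovZ.leaf K2_ok TB_l16806 _)
             (CovZ.leaf K2_ok TB_l16807 _)))))
         (CovZ.subM 630432099142311741902366610168222165450131394430906706579239937690340994425009884632578988502631452923613643609743360 (by decide +kernel)
          (CovZ.n1 (-22080, 7680) (by decide +kernel)
           (CovZ.n2 (-22176, 7776) (by decide +kernel)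
            (CovZ.n2 (-22080, 7776) (by decide +kernel)
             (CovZ.leaf K2_ok TB_l16808 _)
             (CovZ.leaf K2_ok TB_l16809 _))
            (CovZ.n1 (-22176, 7680) (by decide +kernel)
             (CovZ.leaf K2_ok TB_l16810 _)
             (CovZ.leaf K2_ok TB_l16811 _)))
           (CovZ.n1 (-21984, 7776) (by decide +kernel)
            (CovZ.n2 (-21984, 7680) (by decide +kernel)
             (CovZ.leaf K2_ok TB_l16812 _)
             (CovZ.leaf K2_ok TB_l16813 _))
            (CovZ.n1 (-22080, 7776) (by decide +kernel)
             (CovZ.leaf K2_ok TB_l16814 _)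
             (CovZ.leaf K2_ok TB_l16815 _))))))
        (CovZ.n1 (-21696, 7872) (by decide +kernel)
         (CovZ.subM 75052710477911997792634476445106095144136177436095628294517264881855771917504093910570613052767477760 (by decide +kernel)
          (CovZ.n2 (-21696, 7680) (by decide +kernel)
           (CovZ.n2 (-21792, 7776) (by decide +kernel)
            (CovZ.n2 (-21696, 7776) (by decide +kernel)
             (CovZ.n2 (-21744, 7728) (by decide +kernel)
              (CovZ.leaf K2_ok TB_l16816 _)
              (CovZ.leaf K2_ok TB_l16817 _))
             (CovZ.n1 (-21744, 7824) (by decide +kernel)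
              (CovZ.leaf K2_ok TB_l16818 _)
              (CovZ.leaf K2_ok TB_l16819 _)))
            (CovZ.n1 (-21792, 7680) (by decide +kernel)
             (CovZ.leaf K2_ok TB_l16820 _)
             (CovZ.leaf K2_ok TB_l16821 _)))
           (CovZ.n1 (-21600, 7776) (by decide +kernel)
            (CovZ.n2 (-21600, 7680) (by decide +kernel)
             (CovZ.n2 (-21648, 7728) (by decide +kernel)
              (CovZ.leaf K2_ok TB_l16822 _)
              (CovZ.leaf K2_ok TB_l16823 _))
             (CovZ.n1 (-21552, 7728) (by decide +kernel)
              (CovZ.leaf K2_ok TB_l16824 _)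
              (CovZ.leaf K2_ok TB_l16825 _)))
            (CovZ.n1 (-21696, 7776) (by decide +kernel)
             (CovZ.n2 (-21648, 7824) (by decide +kernel)
              (CovZ.leaf K2_ok TB_l16826 _)
              (CovZ.leaf K2_ok TB_l16827 _))
             (CovZ.n1 (-21648, 7728) (by decide +kernel)
              (CovZ.leaf K2_ok TB_l16828 _)
              (CovZ.leaf K2_ok TB_l16829 _))))))
         (CovZ.subM 1231312693637411311272889621909539374214442727495379278580147637880465426831577381913806839457605329697107064397824 (by decide +kernel)
          (CovZ.n1 (-21888, 7872) (by decide +kernel)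
           (CovZ.n2 (-21792, 7968) (by decide +kernel)
            (CovZ.n2 (-21792, 7872) (by decide +kernel)
             (CovZ.n2 (-21840, 7920) (by decide +kernel)
              (CovZ.leaf K2_ok TB_l16830 _)
              (CovZ.leaf K2_ok TB_l16831 _))
             (CovZ.n1 (-21744, 7920) (by decide +kernel)
              (CovZ.leaf K2_ok TB_l16832 _)
              (CovZ.leaf K2_ok TB_l16833 _)))
            (CovZ.n1 (-21888, 7968) (by decide +kernel)
             (CovZ.n2 (-21840, 8016) (by decide +kernel)
              (CovZ.leaf K2_ok TB_l16834 _)
              (CovZ.leaf K2_ok TB_l16835 _))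
             (CovZ.n1 (-21840, 7920) (by decide +kernel)
              (CovZ.leaf K2_ok TB_l16836 _)
              (CovZ.leaf K2_ok TB_l16837 _))))
           (CovZ.n1 (-21792, 7776) (by decide +kernel)
            (CovZ.n2 (-21888, 7776) (by decide +kernel)
             (CovZ.leaf K2_ok TB_l16838 _)
             (CovZ.leaf K2_ok TB_l16839 _))
            (CovZ.n1 (-21792, 7872) (by decide +kernel)
             (CovZ.n2 (-21744, 7824) (by decide +kernel)
              (CovZ.leaf K2_ok TB_l16840 _)
              (CovZ.leaf K2_ok TB_l16841 _))
             (CovZ.leaf K2_ok TB_l16842 _)))))))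
       (CovZ.n1 (-22272, 8064) (by decide +kernel)
        (CovZ.n2 (-22080, 8256) (by decide +kernel)
         (CovZ.n2 (-22080, 8064) (by decide +kernel)
          (CovZ.n2 (-22176, 8160) (by decide +kernel)
           (CovZ.subM 1231312693637411140398098597916265810117384010701072516837619256595818393130922576544349435001174254629736752881664 (by decide +kernel)
            (CovZ.n2 (-22080, 8160) (by decide +kernel)
             (CovZ.n2 (-22128, 8112) (by decide +kernel)
              (CovZ.leaf K2_ok TB_l16843 _)
              (CovZ.leaf K2_ok TB_l16844 _))
             (CovZ.n1 (-22128, 8208) (by decide +kernel)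
              (CovZ.leaf K2_ok TB_l16845 _)
              (CovZ.leaf K2_ok TB_l16846 _))))
           (CovZ.n1 (-22176, 8064) (by decide +kernel)
            (CovZ.leaf K2_ok TB_l16847 _)
            (CovZ.leaf K2_ok TB_l16848 _)))
          (CovZ.n1 (-21984, 8160) (by decide +kernel)
           (CovZ.n2 (-21984, 8064) (by decide +kernel)
            (CovZ.n2 (-22032, 8112) (by decide +kernel)
             (CovZ.leaf K2_ok TB_l16849 _)
             (CovZ.leaf K2_ok TB_l16850 _))
            (CovZ.n1 (-21936, 8112) (by decide +kernel)
             (CovZ.leaf K2_ok TB_l16851 _)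
             (CovZ.leaf K2_ok TB_l16852 _)))
           (CovZ.subM 1231312693637411140398098597916265810117384010701072516837619256595818393130922576544349435001174254629736752881664 (by decide +kernel)
            (CovZ.n1 (-22080, 8160) (by decide +kernel)
             (CovZ.n2 (-22032, 8208) (by decide +kernel)
              (CovZ.leaf K2_ok TB_l16853 _)
              (CovZ.leaf K2_ok TB_l16854 _))
             (CovZ.n1 (-22032, 8112) (by decide +kernel)
              (CovZ.leaf K2_ok TB_l16855 _)
              (CovZ.leaf K2_ok TB_l16856 _))))))
         (CovZ.n1 (-22272, 8256) (by decide +kernel)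
          (CovZ.n2 (-22176, 8352) (by decide +kernel)
           (CovZ.n2 (-22176, 8256) (by decide +kernel)
            (CovZ.n2 (-22224, 8304) (by decide +kernel)
             (CovZ.leaf K2_ok TB_l16857 _)
             (CovZ.leaf K2_ok TB_l16858 _))
            (CovZ.n1 (-22128, 8304) (by decide +kernel)
             (CovZ.leaf K2_ok TB_l16859 _)
             (CovZ.leaf K2_ok TB_l16860 _)))
           (CovZ.subM 631663411835949077987914071968540195515872633852573325751115251478493414769613721411085802805208812314758245276196868 (by decide +kernel)
            (CovZ.n1 (-22272, 8352) (by decide +kernel)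
             (CovZ.n2 (-22224, 8400) (by decide +kernel)
              (CovZ.leaf K2_ok TB_l16861 _)
              (CovZ.leaf K2_ok TB_l16862 _))
             (CovZ.n1 (-22224, 8304) (by decide +kernel)
              (CovZ.leaf K2_ok TB_l16863 _)
              (CovZ.leaf K2_ok TB_l16864 _)))))
          (CovZ.n1 (-22176, 8160) (by decide +kernel)
           (CovZ.n2 (-22272, 8160) (by decide +kernel)
            (CovZ.leaf K2_ok TB_l16865 _)
            (CovZ.leaf K2_ok TB_l16866 _))
           (CovZ.n1 (-22176, 8256) (by decide +kernel)
            (CovZ.n2 (-22128, 8208) (by decide +kernel)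
             (CovZ.leaf K2_ok TB_l16867 _)
             (CovZ.leaf K2_ok TB_l16868 _))
            (CovZ.n1 (-22224, 8208) (by decide +kernel)
             (CovZ.leaf K2_ok TB_l16869 _)
             (CovZ.leaf K2_ok TB_l16870 _))))))
        (CovZ.n1 (-22080, 7872) (by decide +kernel)
         (CovZ.subM 631663411835949077990050059004461105598267655558742877865717956001224257630643640756684359713315843701657490342027268 (by decide +kernel)
          (CovZ.n2 (-22272, 7872) (by decide +kernel)
           (CovZ.n2 (-22176, 7968) (by decide +kernel)
            (CovZ.n2 (-22176, 7872) (by decide +kernel)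
             (CovZ.leaf K2_ok TB_l16871 _)
             (CovZ.leaf K2_ok TB_l16872 _))
            (CovZ.n1 (-22272, 7968) (by decide +kernel)
             (CovZ.leaf K2_ok TB_l16873 _)
             (CovZ.leaf K2_ok TB_l16874 _)))
           (CovZ.n1 (-22176, 7776) (by decide +kernel)
            (CovZ.n2 (-22272, 7776) (by decide +kernel)
             (CovZ.leaf K2_ok TB_l16875 _)
             (CovZ.leaf K2_ok TB_l16876 _))
            (CovZ.n1 (-22176, 7872) (by decide +kernel)
             (CovZ.leaf K2_ok TB_l16877 _)
             (CovZ.leaf K2_ok TB_l16878 _)))))
         (CovZ.n1 (-22080, 8064) (by decide +kernel)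
          (CovZ.n2 (-21984, 7968) (by decide +kernel)
           (CovZ.n2 (-22080, 7968) (by decide +kernel)
            (CovZ.leaf K2_ok TB_l16879 _)
            (CovZ.leaf K2_ok TB_l16880 _))
           (CovZ.n1 (-21984, 8064) (by decide +kernel)
            (CovZ.n2 (-21936, 8016) (by decide +kernel)
             (CovZ.leaf K2_ok TB_l16881 _)
             (CovZ.leaf K2_ok TB_l16882 _))
            (CovZ.n1 (-22032, 8016) (by decide +kernel)
             (CovZ.leaf K2_ok TB_l16883 _)
             (CovZ.leaf K2_ok TB_l16884 _))))
          (CovZ.subM 631663411835949077990050059004461105598267655558742877865717956001224257630643640756684359713315843701657490342027268 (by decide +kernel)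
           (CovZ.n1 (-22176, 7968) (by decide +kernel)
            (CovZ.n2 (-22176, 8064) (by decide +kernel)
             (CovZ.leaf K2_ok TB_l16885 _)
             (CovZ.leaf K2_ok TB_l16886 _))
            (CovZ.n1 (-22080, 7968) (by decide +kernel)
             (CovZ.leaf K2_ok TB_l16887 _)
             (CovZ.n1 (-22128, 8016) (by decide +kernel)
              (CovZ.leaf K2_ok TB_l16888 _)
              (CovZ.leaf K2_ok TB_l16889 _)))))))))

theorem TB_u229 : CovZ TB_M (toL (selN TB_LN 631665816743553874756182730314244550489838192381958607022174165662988454783322555091308704918231323059618920271978628)) [0, 7, 6, 1] (-23040, 9216) (-23040, 8448) (-22272, 8448) :=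
    (CovZ.n2 (-22656, 8832) (by decide +kernel)
       (CovZ.n2 (-22656, 8448) (by decide +kernel)
        (CovZ.n2 (-22848, 8640) (by decide +kernel)
         (CovZ.n2 (-22656, 8640) (by decide +kernel)
          (CovZ.n2 (-22752, 8544) (by decide +kernel)
           (CovZ.n2 (-22752, 8640) (by decide +kernel)
            (CovZ.n2 (-22704, 8592) (by decide +kernel)
             (CovZ.leaf K2_ok TB_l16890 _)
             (CovZ.leaf K2_ok TB_l16891 _))
            (CovZ.n1 (-22800, 8592) (by decide +kernel)
             (CovZ.leaf K2_ok TB_l16892 _)
             (CovZ.leaf K2_ok TB_l16893 _)))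
           (CovZ.n1 (-22656, 8544) (by decide +kernel)
            (CovZ.leaf K2_ok TB_l16894 _)
            (CovZ.n1 (-22704, 8592) (by decide +kernel)
             (CovZ.leaf K2_ok TB_l16895 _)
             (CovZ.leaf K2_ok TB_l16896 _))))
          (CovZ.n1 (-22752, 8736) (by decide +kernel)
           (CovZ.n2 (-22656, 8736) (by decide +kernel)
            (CovZ.n2 (-22704, 8688) (by decide +kernel)
             (CovZ.leaf K2_ok TB_l16897 _)
             (CovZ.leaf K2_ok TB_l16898 _))
            (CovZ.n1 (-22704, 8784) (by decide +kernel)
             (CovZ.leaf K2_ok TB_l16899 _)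
             (CovZ.leaf K2_ok TB_l16900 _)))
           (CovZ.n1 (-22752, 8640) (by decide +kernel)
            (CovZ.n2 (-22800, 8688) (by decide +kernel)
             (CovZ.leaf K2_ok TB_l16901 _)
             (CovZ.leaf K2_ok TB_l16902 _))
            (CovZ.n1 (-22704, 8688) (by decide +kernel)
             (CovZ.leaf K2_ok TB_l16903 _)
             (CovZ.leaf K2_ok TB_l16904 _)))))
         (CovZ.n1 (-22848, 8448) (by decide +kernel)
          (CovZ.n2 (-22944, 8544) (by decide +kernel)
           (CovZ.n2 (-22848, 8544) (by decide +kernel)
            (CovZ.leaf K2_ok TB_l16905 _)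
            (CovZ.leaf K2_ok TB_l16906 _))
           (CovZ.n1 (-22944, 8448) (by decide +kernel)
            (CovZ.leaf K2_ok TB_l16907 _)
            (CovZ.leaf K2_ok TB_l16908 _)))
          (CovZ.n1 (-22752, 8544) (by decide +kernel)
           (CovZ.n2 (-22752, 8448) (by decide +kernel)
            (CovZ.leaf K2_ok TB_l16909 _)
            (CovZ.leaf K2_ok TB_l16910 _))
           (CovZ.n1 (-22848, 8544) (by decide +kernel)
            (CovZ.leaf K2_ok TB_l16911 _)
            (CovZ.leaf K2_ok TB_l16912 _)))))
        (CovZ.n1 (-22464, 8640) (by decide +kernel)
         (CovZ.n2 (-22464, 8448) (by decide +kernel)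
          (CovZ.subM 631663411835949114077012862279577187114055948090013603643280074624794689111605187717719144743803708755041709553885188 (by decide +kernel)
           (CovZ.n2 (-22560, 8544) (by decide +kernel)
            (CovZ.n2 (-22464, 8544) (by decide +kernel)
             (CovZ.n2 (-22512, 8496) (by decide +kernel)
              (CovZ.leaf K2_ok TB_l16913 _)
              (CovZ.leaf K2_ok TB_l16914 _))
             (CovZ.n1 (-22512, 8592) (by decide +kernel)
              (CovZ.leaf K2_ok TB_l16915 _)
              (CovZ.leaf K2_ok TB_l16916 _)))
            (CovZ.n1 (-22560, 8448) (by decide +kernel)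
             (CovZ.n2 (-22608, 8496) (by decide +kernel)
              (CovZ.leaf K2_ok TB_l16917 _)
              (CovZ.leaf K2_ok TB_l16918 _))
             (CovZ.n1 (-22512, 8496) (by decide +kernel)
              (CovZ.leaf K2_ok TB_l16919 _)
              (CovZ.leaf K2_ok TB_l16920 _)))))
          (CovZ.n1 (-22368, 8544) (by decide +kernel)
           (CovZ.subM 631663411835949077987914071968540195515872633852573325751115251478493780145023054136815353726416991385513159259332612 (by decide +kernel)
            (CovZ.n2 (-22368, 8448) (by decide +kernel)
             (CovZ.n2 (-22416, 8496) (by decide +kernel)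
              (CovZ.leaf K2_ok TB_l16921 _)
              (CovZ.leaf K2_ok TB_l16922 _))
             (CovZ.n1 (-22320, 8496) (by decide +kernel)
              (CovZ.leaf K2_ok TB_l16923 _)
              (CovZ.leaf K2_ok TB_l16924 _))))
           (CovZ.subM 631663411835949114077012862279577187114055948090013603643280074624794689111605187717719144743803708755041709553885188 (by decide +kernel)
            (CovZ.n1 (-22464, 8544) (by decide +kernel)
             (CovZ.n2 (-22416, 8592) (by decide +kernel)
              (CovZ.leaf K2_ok TB_l16925 _)
              (CovZ.leaf K2_ok TB_l16926 _))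
             (CovZ.n1 (-22416, 8496) (by decide +kernel)
              (CovZ.leaf K2_ok TB_l16927 _)
              (CovZ.leaf K2_ok TB_l16928 _))))))
         (CovZ.n1 (-22656, 8640) (by decide +kernel)
          (CovZ.n2 (-22560, 8736) (by decide +kernel)
           (CovZ.n2 (-22560, 8640) (by decide +kernel)
            (CovZ.n2 (-22608, 8688) (by decide +kernel)
             (CovZ.leaf K2_ok TB_l16929 _)
             (CovZ.leaf K2_ok TB_l16930 _))
            (CovZ.n1 (-22512, 8688) (by decide +kernel)
             (CovZ.leaf K2_ok TB_l16931 _)
             (CovZ.leaf K2_ok TB_l16932 _)))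
           (CovZ.n1 (-22656, 8736) (by decide +kernel)
            (CovZ.n2 (-22608, 8784) (by decide +kernel)
             (CovZ.leaf K2_ok TB_l16933 _)
             (CovZ.leaf K2_ok TB_l16934 _))
            (CovZ.n1 (-22608, 8688) (by decide +kernel)
             (CovZ.leaf K2_ok TB_l16935 _)
             (CovZ.n1 (-22608, 8736) (by decide +kernel)
              (CovZ.leaf K2_ok TB_l16936 _)
              (CovZ.leaf K2_ok TB_l16937 _)))))
          (CovZ.n1 (-22560, 8544) (by decide +kernel)
           (CovZ.n2 (-22656, 8544) (by decide +kernel)
            (CovZ.n2 (-22608, 8592) (by decide +kernel)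
             (CovZ.leaf K2_ok TB_l16938 _)
             (CovZ.leaf K2_ok TB_l16939 _))
            (CovZ.n1 (-22608, 8496) (by decide +kernel)
             (CovZ.leaf K2_ok TB_l16940 _)
             (CovZ.leaf K2_ok TB_l16941 _)))
           (CovZ.n1 (-22560, 8640) (by decide +kernel)
            (CovZ.n2 (-22512, 8592) (by decide +kernel)
             (CovZ.leaf K2_ok TB_l16942 _)
             (CovZ.leaf K2_ok TB_l16943 _))
            (CovZ.n1 (-22608, 8592) (by decide +kernel)
             (CovZ.leaf K2_ok TB_l16944 _)
             (CovZ.leaf K2_ok TB_l16945 _)))))))
       (CovZ.n1 (-23040, 8832) (by decide +kernel)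
        (CovZ.n2 (-22848, 9024) (by decide +kernel)
         (CovZ.n2 (-22848, 8832) (by decide +kernel)
          (CovZ.n2 (-22944, 8928) (by decide +kernel)
           (CovZ.n2 (-22848, 8928) (by decide +kernel)
            (CovZ.n2 (-22896, 8880) (by decide +kernel)
             (CovZ.n2 (-22896, 8928) (by decide +kernel)
              (CovZ.leaf K2_ok TB_l16946 _)
              (CovZ.leaf K2_ok TB_l16947 _))
             (CovZ.leaf K2_ok TB_l16948 _))
            (CovZ.n1 (-22896, 8976) (by decide +kernel)
             (CovZ.leaf K2_ok TB_l16949 _)
             (CovZ.n1 (-22896, 8928) (by decide +kernel)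
              (CovZ.leaf K2_ok TB_l16950 _)
              (CovZ.leaf K2_ok TB_l16951 _))))
           (CovZ.n1 (-22944, 8832) (by decide +kernel)
            (CovZ.n2 (-22992, 8880) (by decide +kernel)
             (CovZ.leaf K2_ok TB_l16952 _)
             (CovZ.leaf K2_ok TB_l16953 _))
            (CovZ.n1 (-22896, 8880) (by decide +kernel)
             (CovZ.leaf K2_ok TB_l16954 _)
             (CovZ.leaf K2_ok TB_l16955 _))))
          (CovZ.n1 (-22752, 8928) (by decide +kernel)
           (CovZ.n2 (-22752, 8832) (by decide +kernel)
            (CovZ.n2 (-22800, 8880) (by decide +kernel)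
             (CovZ.leaf K2_ok TB_l16956 _)
             (CovZ.leaf K2_ok TB_l16957 _))
            (CovZ.n1 (-22704, 8880) (by decide +kernel)
             (CovZ.n2 (-22704, 8832) (by decide +kernel)
              (CovZ.leaf K2_ok TB_l16958 _)
              (CovZ.leaf K2_ok TB_l16959 _))
             (CovZ.leaf K2_ok TB_l16960 _)))
           (CovZ.n1 (-22848, 8928) (by decide +kernel)
            (CovZ.n2 (-22800, 8976) (by decide +kernel)
             (CovZ.n2 (-22800, 8928) (by decide +kernel)
              (CovZ.leaf K2_ok TB_l16961 _)
              (CovZ.leaf K2_ok TB_l16962 _))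
             (CovZ.leaf K2_ok TB_l16963 _))
            (CovZ.n1 (-22800, 8880) (by decide +kernel)
             (CovZ.leaf K2_ok TB_l16964 _)
             (CovZ.n1 (-22800, 8928) (by decide +kernel)
              (CovZ.leaf K2_ok TB_l16965 _)
              (CovZ.leaf K2_ok TB_l16966 _))))))
         (CovZ.n1 (-23040, 9024) (by decide +kernel)
          (CovZ.n2 (-22944, 9120) (by decide +kernel)
           (CovZ.n2 (-22944, 9024) (by decide +kernel)
            (CovZ.n2 (-22992, 9072) (by decide +kernel)
             (CovZ.leaf K2_ok TB_l16967 _)
             (CovZ.leaf K2_ok TB_l16968 _))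
            (CovZ.n1 (-22896, 9072) (by decide +kernel)
             (CovZ.n2 (-22896, 9024) (by decide +kernel)
              (CovZ.leaf K2_ok TB_l16969 _)
              (CovZ.leaf K2_ok TB_l16970 _))
             (CovZ.leaf K2_ok TB_l16971 _)))
           (CovZ.n1 (-23040, 9120) (by decide +kernel)
            (CovZ.n2 (-22992, 9168) (by decide +kernel)
             (CovZ.n2 (-22992, 9120) (by decide +kernel)
              (CovZ.leaf K2_ok TB_l16972 _)
              (CovZ.leaf K2_ok TB_l16973 _))
             (CovZ.leaf K2_ok TB_l16974 _))
            (CovZ.n1 (-22992, 9072) (by decide +kernel)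
             (CovZ.leaf K2_ok TB_l16975 _)
             (CovZ.n1 (-22992, 9120) (by decide +kernel)
              (CovZ.leaf K2_ok TB_l16976 _)
              (CovZ.leaf K2_ok TB_l16977 _)))))
          (CovZ.n1 (-22944, 8928) (by decide +kernel)
           (CovZ.n2 (-23040, 8928) (by decide +kernel)
            (CovZ.n2 (-22992, 8976) (by decide +kernel)
             (CovZ.leaf K2_ok TB_l16978 _)
             (CovZ.leaf K2_ok TB_l16979 _))
            (CovZ.n1 (-22992, 8880) (by decide +kernel)
             (CovZ.leaf K2_ok TB_l16980 _)
             (CovZ.leaf K2_ok TB_l16981 _)))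
           (CovZ.n1 (-22944, 9024) (by decide +kernel)
            (CovZ.n2 (-22896, 8976) (by decide +kernel)
             (CovZ.leaf K2_ok TB_l16982 _)
             (CovZ.n1 (-22896, 9024) (by decide +kernel)
              (CovZ.leaf K2_ok TB_l16983 _)
              (CovZ.leaf K2_ok TB_l16984 _)))
            (CovZ.n1 (-22992, 8976) (by decide +kernel)
             (CovZ.n2 (-22992, 9024) (by decide +kernel)
              (CovZ.leaf K2_ok TB_l16985 _)
              (CovZ.leaf K2_ok TB_l16986 _))
             (CovZ.leaf K2_ok TB_l16987 _))))))
        (CovZ.n1 (-22848, 8640) (by decide +kernel)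
         (CovZ.n2 (-23040, 8640) (by decide +kernel)
          (CovZ.n2 (-22944, 8736) (by decide +kernel)
           (CovZ.n2 (-22944, 8640) (by decide +kernel)
            (CovZ.n2 (-22992, 8688) (by decide +kernel)
             (CovZ.leaf K2_ok TB_l16988 _)
             (CovZ.leaf K2_ok TB_l16989 _))
            (CovZ.leaf K2_ok TB_l16990 _))
           (CovZ.n1 (-23040, 8736) (by decide +kernel)
            (CovZ.leaf K2_ok TB_l16991 _)
            (CovZ.leaf K2_ok TB_l16992 _)))
          (CovZ.n1 (-22944, 8544) (by decide +kernel)
           (CovZ.n2 (-23040, 8544) (by decide +kernel)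
            (CovZ.leaf K2_ok TB_l16993 _)
            (CovZ.leaf K2_ok TB_l16994 _))
           (CovZ.n1 (-22944, 8640) (by decide +kernel)
            (CovZ.leaf K2_ok TB_l16995 _)
            (CovZ.leaf K2_ok TB_l16996 _))))
         (CovZ.n1 (-22848, 8832) (by decide +kernel)
          (CovZ.n2 (-22752, 8736) (by decide +kernel)
           (CovZ.n2 (-22848, 8736) (by decide +kernel)
            (CovZ.n2 (-22800, 8784) (by decide +kernel)
             (CovZ.leaf K2_ok TB_l16997 _)
             (CovZ.leaf K2_ok TB_l16998 _))
            (CovZ.n1 (-22800, 8688) (by decide +kernel)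
             (CovZ.leaf K2_ok TB_l16999 _)
             (CovZ.leaf K2_ok TB_l17000 _)))
           (CovZ.n1 (-22752, 8832) (by decide +kernel)
            (CovZ.n2 (-22704, 8784) (by decide +kernel)
             (CovZ.leaf K2_ok TB_l17001 _)
             (CovZ.n1 (-22704, 8832) (by decide +kernel)
              (CovZ.leaf K2_ok TB_l17002 _)
              (CovZ.leaf K2_ok TB_l17003 _)))
            (CovZ.n1 (-22800, 8784) (by decide +kernel)
             (CovZ.leaf K2_ok TB_l17004 _)
             (CovZ.leaf K2_ok TB_l17005 _))))
          (CovZ.n1 (-22944, 8736) (by decide +kernel)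
           (CovZ.n2 (-22944, 8832) (by decide +kernel)
            (CovZ.n2 (-22896, 8784) (by decide +kernel)
             (CovZ.leaf K2_ok TB_l17006 _)
             (CovZ.leaf K2_ok TB_l17007 _))
            (CovZ.n1 (-22992, 8784) (by decide +kernel)
             (CovZ.leaf K2_ok TB_l17008 _)
             (CovZ.leaf K2_ok TB_l17009 _)))
           (CovZ.n1 (-22848, 8736) (by decide +kernel)
            (CovZ.n2 (-22896, 8688) (by decide +kernel)
             (CovZ.leaf K2_ok TB_l17010 _)
             (CovZ.leaf K2_ok TB_l17011 _))
            (CovZ.n1 (-22896, 8784) (by decide +kernel)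
             (CovZ.leaf K2_ok TB_l17012 _)
             (CovZ.leaf K2_ok TB_l17013 _))))))))

theorem TB_u230 : CovZ TB_M (toL (selN TB_LN 631665816743553874756182730314244550489838192381958607022174165662988454783322555091308704918231323059618920271978628)) [0, 7, 6, 1] (-23040, 8448) (-23040, 7680) (-22272, 8448) :=
    (CovZ.n1 (-22656, 8064) (by decide +kernel)
       (CovZ.subM 631663411835949077987375903359880434967769200649261075315984464886789510922353265248852754886676486758996470801637508 (by decide +kernel)
        (CovZ.n2 (-23040, 8064) (by decide +kernel)
         (CovZ.n2 (-22848, 8256) (by decide +kernel)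
          (CovZ.n2 (-22848, 8064) (by decide +kernel)
           (CovZ.n2 (-22944, 8160) (by decide +kernel)
            (CovZ.leaf K2_ok TB_l17014 _)
            (CovZ.n1 (-22944, 8064) (by decide +kernel)
             (CovZ.leaf K2_ok TB_l17015 _)
             (CovZ.leaf K2_ok TB_l17016 _)))
           (CovZ.n1 (-22752, 8160) (by decide +kernel)
            (CovZ.n2 (-22752, 8064) (by decide +kernel)
             (CovZ.leaf K2_ok TB_l17017 _)
             (CovZ.leaf K2_ok TB_l17018 _))
            (CovZ.leaf K2_ok TB_l17019 _)))
          (CovZ.n1 (-23040, 8256) (by decide +kernel)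
           (CovZ.n2 (-22944, 8352) (by decide +kernel)
            (CovZ.n2 (-22944, 8256) (by decide +kernel)
             (CovZ.leaf K2_ok TB_l17020 _)
             (CovZ.leaf K2_ok TB_l17021 _))
            (CovZ.leaf K2_ok TB_l17022 _))
           (CovZ.n1 (-22944, 8160) (by decide +kernel)
            (CovZ.leaf K2_ok TB_l17023 _)
            (CovZ.n1 (-22944, 8256) (by decide +kernel)
             (CovZ.leaf K2_ok TB_l17024 _)
             (CovZ.leaf K2_ok TB_l17025 _)))))
         (CovZ.n1 (-22848, 7872) (by decide +kernel)
          (CovZ.n2 (-23040, 7872) (by decide +kernel)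
           (CovZ.n2 (-22944, 7968) (by decide +kernel)
            (CovZ.n2 (-22944, 7872) (by decide +kernel)
             (CovZ.leaf K2_ok TB_l17026 _)
             (CovZ.leaf K2_ok TB_l17027 _))
            (CovZ.n1 (-23040, 7968) (by decide +kernel)
             (CovZ.leaf K2_ok TB_l17028 _)
             (CovZ.leaf K2_ok TB_l17029 _)))
           (CovZ.subM 630432099142311746137490733790727098291356004561816299401272218931481205678671015850522861892467617364762899536420864 (by decide +kernel)
            (CovZ.n1 (-22944, 7776) (by decide +kernel)
             (CovZ.n2 (-23040, 7776) (by decide +kernel)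
              (CovZ.n2 (-22992, 7824) (by decide +kernel)
               (CovZ.leaf K2_ok TB_l17030 _)
               (CovZ.leaf K2_ok TB_l17031 _))
              (CovZ.n1 (-22992, 7728) (by decide +kernel)
               (CovZ.leaf K2_ok TB_l17032 _)
               (CovZ.leaf K2_ok TB_l17033 _)))
             (CovZ.n1 (-22944, 7872) (by decide +kernel)
              (CovZ.leaf K2_ok TB_l17034 _)
              (CovZ.leaf K2_ok TB_l17035 _)))))
          (CovZ.n1 (-22848, 8064) (by decide +kernel)
           (CovZ.n2 (-22752, 7968) (by decide +kernel)
            (CovZ.n2 (-22848, 7968) (by decide +kernel)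
             (CovZ.leaf K2_ok TB_l17036 _)
             (CovZ.leaf K2_ok TB_l17037 _))
            (CovZ.n1 (-22752, 8064) (by decide +kernel)
             (CovZ.leaf K2_ok TB_l17038 _)
             (CovZ.leaf K2_ok TB_l17039 _)))
           (CovZ.n1 (-22944, 7968) (by decide +kernel)
            (CovZ.n2 (-22944, 8064) (by decide +kernel)
             (CovZ.leaf K2_ok TB_l17040 _)
             (CovZ.leaf K2_ok TB_l17041 _))
            (CovZ.leaf K2_ok TB_l17042 _))))))
       (CovZ.n1 (-22656, 8448) (by decide +kernel)
        (CovZ.subM 631663411835949077987914071968540195515872633852573325751115251526384265797082080960513698324864153373598756827570180 (by decide +kernel)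
         (CovZ.n2 (-22464, 8256) (by decide +kernel)
          (CovZ.n2 (-22656, 8256) (by decide +kernel)
           (CovZ.n2 (-22560, 8352) (by decide +kernel)
            (CovZ.n2 (-22560, 8256) (by decide +kernel)
             (CovZ.leaf K2_ok TB_l17043 _)
             (CovZ.leaf K2_ok TB_l17044 _))
            (CovZ.n1 (-22656, 8352) (by decide +kernel)
             (CovZ.leaf K2_ok TB_l17045 _)
             (CovZ.leaf K2_ok TB_l17046 _)))
           (CovZ.n1 (-22560, 8160) (by decide +kernel)
            (CovZ.n2 (-22656, 8160) (by decide +kernel)
             (CovZ.leaf K2_ok TB_l17047 _)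
             (CovZ.leaf K2_ok TB_l17048 _))
            (CovZ.n1 (-22560, 8256) (by decide +kernel)
             (CovZ.leaf K2_ok TB_l17049 _)
             (CovZ.leaf K2_ok TB_l17050 _))))
          (CovZ.n1 (-22464, 8448) (by decide +kernel)
           (CovZ.n2 (-22368, 8352) (by decide +kernel)
            (CovZ.n2 (-22464, 8352) (by decide +kernel)
             (CovZ.n2 (-22416, 8400) (by decide +kernel)
              (CovZ.leaf K2_ok TB_l17051 _)
              (CovZ.leaf K2_ok TB_l17052 _))
             (CovZ.n1 (-22416, 8304) (by decide +kernel)
              (CovZ.leaf K2_ok TB_l17053 _)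
              (CovZ.leaf K2_ok TB_l17054 _)))
            (CovZ.n1 (-22368, 8448) (by decide +kernel)
             (CovZ.n2 (-22320, 8400) (by decide +kernel)
              (CovZ.leaf K2_ok TB_l17055 _)
              (CovZ.leaf K2_ok TB_l17056 _))
             (CovZ.n1 (-22416, 8400) (by decide +kernel)
              (CovZ.leaf K2_ok TB_l17057 _)
              (CovZ.leaf K2_ok TB_l17058 _))))
           (CovZ.n1 (-22560, 8352) (by decide +kernel)
            (CovZ.n2 (-22560, 8448) (by decide +kernel)
             (CovZ.n2 (-22512, 8400) (by decide +kernel)
              (CovZ.leaf K2_ok TB_l17059 _)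
              (CovZ.leaf K2_ok TB_l17060 _))
             (CovZ.leaf K2_ok TB_l17061 _))
            (CovZ.n1 (-22464, 8352) (by decide +kernel)
             (CovZ.leaf K2_ok TB_l17062 _)
             (CovZ.n1 (-22512, 8400) (by decide +kernel)
              (CovZ.leaf K2_ok TB_l17063 _)
              (CovZ.leaf K2_ok TB_l17064 _)))))))
        (CovZ.subM 631663411835949077987375903359880434967769200649261075315984464886789510922353265248852754886676486758996470801637508 (by decide +kernel)
         (CovZ.n1 (-22848, 8256) (by decide +kernel)
          (CovZ.n2 (-22848, 8448) (by decide +kernel)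
           (CovZ.n2 (-22752, 8352) (by decide +kernel)
            (CovZ.n2 (-22848, 8352) (by decide +kernel)
             (CovZ.leaf K2_ok TB_l17065 _)
             (CovZ.leaf K2_ok TB_l17066 _))
            (CovZ.n1 (-22752, 8448) (by decide +kernel)
             (CovZ.leaf K2_ok TB_l17067 _)
             (CovZ.leaf K2_ok TB_l17068 _)))
           (CovZ.n1 (-22944, 8352) (by decide +kernel)
            (CovZ.n2 (-22944, 8448) (by decide +kernel)
             (CovZ.leaf K2_ok TB_l17069 _)
             (CovZ.leaf K2_ok TB_l17070 _))
            (CovZ.n1 (-22848, 8352) (by decide +kernel)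
             (CovZ.leaf K2_ok TB_l17071 _)
             (CovZ.leaf K2_ok TB_l17072 _))))
          (CovZ.n1 (-22656, 8256) (by decide +kernel)
           (CovZ.n2 (-22752, 8160) (by decide +kernel)
            (CovZ.n2 (-22752, 8256) (by decide +kernel)
             (CovZ.leaf K2_ok TB_l17073 _)
             (CovZ.leaf K2_ok TB_l17074 _))
            (CovZ.n1 (-22656, 8160) (by decide +kernel)
             (CovZ.leaf K2_ok TB_l17075 _)
             (CovZ.leaf K2_ok TB_l17076 _)))
           (CovZ.n1 (-22752, 8352) (by decide +kernel)
            (CovZ.n2 (-22656, 8352) (by decide +kernel)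
             (CovZ.leaf K2_ok TB_l17077 _)
             (CovZ.leaf K2_ok TB_l17078 _))
            (CovZ.n1 (-22752, 8256) (by decide +kernel)
             (CovZ.leaf K2_ok TB_l17079 _)
             (CovZ.leaf K2_ok TB_l17080 _))))))))

theorem TB_u231 : CovZ TB_M (toL (selN TB_LN 631665816743553875441834568844856686938640160062384835706798282507296190418917509476874426472045799380081786618912772)) [0, 7, 6, 1] (-21888, 8832) (-22080, 9024) (-22272, 8832) :=
    (CovZ.n2 (-22080, 8832) (by decide +kernel)
          (CovZ.n2 (-22176, 8928) (by decide +kernel)
           (CovZ.n2 (-22080, 8928) (by decide +kernel)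
            (CovZ.n2 (-22128, 8880) (by decide +kernel)
             (CovZ.n2 (-22128, 8928) (by decide +kernel)
              (CovZ.n2 (-22104, 8904) (by decide +kernel)
               (CovZ.leaf K2_ok TB_l17081 _)
               (CovZ.leaf K2_ok TB_l17082 _))
              (CovZ.leaf K2_ok TB_l17083 _))
             (CovZ.subM 1231312693637446407680048688062636234320774576176036722091987887290068364144242054943792720365474754511668145823744 (by decide +kernel)
              (CovZ.n1 (-22080, 8880) (by decide +kernel)
               (CovZ.n2 (-22104, 8856) (by decide +kernel)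
                (CovZ.leaf K2_ok TB_l17084 _)
                (CovZ.leaf K2_ok TB_l17085 _))
               (CovZ.n1 (-22104, 8904) (by decide +kernel)
                (CovZ.leaf K2_ok TB_l17086 _)
                (CovZ.leaf K2_ok TB_l17087 _)))))
            (CovZ.subM 1233717601242206539499066918317257968874028885403448172493401079519521517912793569667902044191523392897045818777600 (by decide +kernel)
             (CovZ.n1 (-22128, 8976) (by decide +kernel)
              (CovZ.n2 (-22080, 8976) (by decide +kernel)
               (CovZ.n2 (-22104, 8952) (by decide +kernel)
                (CovZ.leaf K2_ok TB_l17088 _)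
                (CovZ.leaf K2_ok TB_l17089 _))
               (CovZ.n1 (-22104, 9000) (by decide +kernel)
                (CovZ.leaf K2_ok TB_l17090 _)
                (CovZ.leaf K2_ok TB_l17091 _)))
              (CovZ.n1 (-22128, 8928) (by decide +kernel)
               (CovZ.n2 (-22152, 8952) (by decide +kernel)
                (CovZ.leaf K2_ok TB_l17092 _)
                (CovZ.leaf K2_ok TB_l17093 _))
               (CovZ.n1 (-22104, 8952) (by decide +kernel)
                (CovZ.leaf K2_ok TB_l17094 _)
                (CovZ.leaf K2_ok TB_l17095 _))))))
           (CovZ.n1 (-22176, 8832) (by decide +kernel)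
            (CovZ.subM 631663411835949113257332009094607476022471046124217842070972324679434803162633109321005810414800915352748736324313092 (by decide +kernel)
             (CovZ.n2 (-22224, 8880) (by decide +kernel)
              (CovZ.n2 (-22176, 8880) (by decide +kernel)
               (CovZ.leaf K2_ok TB_l17096 _)
               (CovZ.n1 (-22200, 8904) (by decide +kernel)
                (CovZ.leaf K2_ok TB_l17097 _)
                (CovZ.leaf K2_ok TB_l17098 _)))
              (CovZ.n1 (-22224, 8832) (by decide +kernel)
               (CovZ.leaf K2_ok TB_l17099 _)
               (CovZ.leaf K2_ok TB_l17100 _))))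
            (CovZ.n1 (-22128, 8880) (by decide +kernel)
             (CovZ.n2 (-22128, 8832) (by decide +kernel)
              (CovZ.leaf K2_ok TB_l17101 _)
              (CovZ.leaf K2_ok TB_l17102 _))
             (CovZ.n1 (-22176, 8880) (by decide +kernel)
              (CovZ.leaf K2_ok TB_l17103 _)
              (CovZ.leaf K2_ok TB_l17104 _)))))
          (CovZ.n1 (-21984, 8928) (by decide +kernel)
           (CovZ.n2 (-21984, 8832) (by decide +kernel)
            (CovZ.n2 (-22032, 8880) (by decide +kernel)
             (CovZ.n2 (-21984, 8880) (by decide +kernel)
              (CovZ.n2 (-22008, 8856) (by decide +kernel)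
               (CovZ.leaf K2_ok TB_l17105 _)
               (CovZ.leaf K2_ok TB_l17106 _))
              (CovZ.n1 (-22008, 8904) (by decide +kernel)
               (CovZ.leaf K2_ok TB_l17107 _)
               (CovZ.leaf K2_ok TB_l17108 _)))
             (CovZ.subM 1231312693637446409816035723983546316715796282345588836694692409646355758681950937036461524937936233779716249624576 (by decide +kernel)
              (CovZ.n1 (-22032, 8832) (by decide +kernel)
               (CovZ.n2 (-22056, 8856) (by decide +kernel)
                (CovZ.leaf K2_ok TB_l17109 _)
                (CovZ.leaf K2_ok TB_l17110 _))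
               (CovZ.n1 (-22008, 8856) (by decide +kernel)
                (CovZ.leaf K2_ok TB_l17111 _)
                (CovZ.leaf K2_ok TB_l17112 _)))))
            (CovZ.n1 (-21936, 8880) (by decide +kernel)
             (CovZ.n2 (-21936, 8832) (by decide +kernel)
              (CovZ.n2 (-21960, 8856) (by decide +kernel)
               (CovZ.leaf K2_ok TB_l17113 _)
               (CovZ.leaf K2_ok TB_l17114 _))
              (CovZ.n1 (-21912, 8856) (by decide +kernel)
               (CovZ.leaf K2_ok TB_l17115 _)
               (CovZ.leaf K2_ok TB_l17116 _)))
             (CovZ.n1 (-21984, 8880) (by decide +kernel)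
              (CovZ.n2 (-21960, 8904) (by decide +kernel)
               (CovZ.leaf K2_ok TB_l17117 _)
               (CovZ.leaf K2_ok TB_l17118 _))
              (CovZ.n1 (-21960, 8856) (by decide +kernel)
               (CovZ.leaf K2_ok TB_l17119 _)
               (CovZ.leaf K2_ok TB_l17120 _)))))
           (CovZ.n1 (-22080, 8928) (by decide +kernel)
            (CovZ.subM 1233717601242206539499066918317257968874028885403448223915418447916724683196553700886760726454857205860818980184064 (by decide +kernel)
             (CovZ.n2 (-22032, 8976) (by decide +kernel)
              (CovZ.n2 (-22032, 8928) (by decide +kernel)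
               (CovZ.n2 (-22056, 8952) (by decide +kernel)
                (CovZ.leaf K2_ok TB_l17121 _)
                (CovZ.leaf K2_ok TB_l17122 _))
               (CovZ.n1 (-22008, 8952) (by decide +kernel)
                (CovZ.leaf K2_ok TB_l17123 _)
                (CovZ.leaf K2_ok TB_l17124 _)))
              (CovZ.n1 (-22080, 8976) (by decide +kernel)
               (CovZ.n2 (-22056, 9000) (by decide +kernel)
                (CovZ.leaf K2_ok TB_l17125 _)
                (CovZ.leaf K2_ok TB_l17126 _))
               (CovZ.n1 (-22056, 8952) (by decide +kernel)
                (CovZ.leaf K2_ok TB_l17127 _)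
                (CovZ.leaf K2_ok TB_l17128 _)))))
            (CovZ.subM 1231312693637446407680048688062636234320774576176036773514005303577391806077696284131445079867791484806124892332032 (by decide +kernel)
             (CovZ.n1 (-22032, 8880) (by decide +kernel)
              (CovZ.n2 (-22080, 8880) (by decide +kernel)
               (CovZ.n2 (-22056, 8904) (by decide +kernel)
                (CovZ.leaf K2_ok TB_l17129 _)
                (CovZ.leaf K2_ok TB_l17130 _))
               (CovZ.n1 (-22056, 8856) (by decide +kernel)
                (CovZ.leaf K2_ok TB_l17131 _)
                (CovZ.leaf K2_ok TB_l17132 _)))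
              (CovZ.n1 (-22032, 8928) (by decide +kernel)
               (CovZ.n2 (-22008, 8904) (by decide +kernel)
                (CovZ.leaf K2_ok TB_l17133 _)
                (CovZ.leaf K2_ok TB_l17134 _))
               (CovZ.n1 (-22056, 8904) (by decide +kernel)
                (CovZ.leaf K2_ok TB_l17135 _)
                (CovZ.leaf K2_ok TB_l17136 _))))))))

theorem TB_u232 : CovZ TB_M (toL (selN TB_LN 631665816743553875441834568844856686938640160062384835706798282507296190418917509476874426472045799380081786618912772)) [0, 7, 6, 1] (-22080, 9024) (-22272, 9216) (-22272, 8832) :=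
    (CovZ.n1 (-22272, 9024) (by decide +kernel)
          (CovZ.n2 (-22176, 9120) (by decide +kernel)
           (CovZ.n2 (-22176, 9024) (by decide +kernel)
            (CovZ.subM 631665816743553873389151027324862097757024300433445253522170929744167171206494197112677943865183954194907802974035972 (by decide +kernel)
             (CovZ.n2 (-22224, 9072) (by decide +kernel)
              (CovZ.n2 (-22176, 9072) (by decide +kernel)
               (CovZ.n2 (-22200, 9048) (by decide +kernel)
                (CovZ.leaf K2_ok TB_l17137 _)
                (CovZ.leaf K2_ok TB_l17138 _))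
               (CovZ.n1 (-22200, 9096) (by decide +kernel)
                (CovZ.leaf K2_ok TB_l17139 _)
                (CovZ.leaf K2_ok TB_l17140 _)))
              (CovZ.n1 (-22224, 9024) (by decide +kernel)
               (CovZ.n2 (-22248, 9048) (by decide +kernel)
                (CovZ.leaf K2_ok TB_l17141 _)
                (CovZ.leaf K2_ok TB_l17142 _))
               (CovZ.n1 (-22200, 9048) (by decide +kernel)
                (CovZ.leaf K2_ok TB_l17143 _)
                (CovZ.leaf K2_ok TB_l17144 _)))))
            (CovZ.n1 (-22128, 9072) (by decide +kernel)
             (CovZ.n2 (-22128, 9024) (by decide +kernel)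
              (CovZ.n2 (-22152, 9048) (by decide +kernel)
               (CovZ.leaf K2_ok TB_l17145 _)
               (CovZ.leaf K2_ok TB_l17146 _))
              (CovZ.n1 (-22104, 9048) (by decide +kernel)
               (CovZ.n2 (-22104, 9024) (by decide +kernel)
                (CovZ.leaf K2_ok TB_l17147 _)
                (CovZ.leaf K2_ok TB_l17148 _))
               (CovZ.leaf K2_ok TB_l17149 _)))
             (CovZ.subM 1233717601242205992686385722564276875748472105998106834998235276609767281695538477109827104200672395033673860128768 (by decide +kernel)
              (CovZ.n1 (-22176, 9072) (by decide +kernel)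
               (CovZ.n2 (-22152, 9096) (by decide +kernel)
                (CovZ.leaf K2_ok TB_l17150 _)
                (CovZ.leaf K2_ok TB_l17151 _))
               (CovZ.n1 (-22152, 9048) (by decide +kernel)
                (CovZ.leaf K2_ok TB_l17152 _)
                (CovZ.n1 (-22152, 9072) (by decide +kernel)
                 (CovZ.leaf K2_ok TB_l17153 _)
                 (CovZ.leaf K2_ok TB_l17154 _)))))))
           (CovZ.subM 631665816743553873389151027324862097757024300433445253522170929744167171206494197112677943865183954194907802974035972 (by decide +kernel)
            (CovZ.n1 (-22272, 9120) (by decide +kernel)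
             (CovZ.n2 (-22224, 9168) (by decide +kernel)
              (CovZ.n2 (-22224, 9120) (by decide +kernel)
               (CovZ.n2 (-22248, 9144) (by decide +kernel)
                (CovZ.leaf K2_ok TB_l17155 _)
                (CovZ.n1 (-22248, 9120) (by decide +kernel)
                 (CovZ.leaf K2_ok TB_l17156 _)
                 (CovZ.leaf K2_ok TB_l17157 _)))
               (CovZ.n1 (-22200, 9144) (by decide +kernel)
                (CovZ.n2 (-22200, 9120) (by decide +kernel)
                 (CovZ.leaf K2_ok TB_l17158 _)
                 (CovZ.leaf K2_ok TB_l17159 _))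
                (CovZ.leaf K2_ok TB_l17160 _)))
              (CovZ.n1 (-22272, 9168) (by decide +kernel)
               (CovZ.n2 (-22248, 9192) (by decide +kernel)
                (CovZ.leaf K2_ok TB_l17161 _)
                (CovZ.leaf K2_ok TB_l17162 _))
               (CovZ.n1 (-22248, 9144) (by decide +kernel)
                (CovZ.leaf K2_ok TB_l17163 _)
                (CovZ.n1 (-22248, 9168) (by decide +kernel)
                 (CovZ.leaf K2_ok TB_l17164 _)
                 (CovZ.leaf K2_ok TB_l17165 _)))))
             (CovZ.n1 (-22224, 9072) (by decide +kernel)
              (CovZ.n2 (-22272, 9072) (by decide +kernel)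
               (CovZ.n2 (-22248, 9096) (by decide +kernel)
                (CovZ.leaf K2_ok TB_l17166 _)
                (CovZ.leaf K2_ok TB_l17167 _))
               (CovZ.n1 (-22248, 9048) (by decide +kernel)
                (CovZ.leaf K2_ok TB_l17168 _)
                (CovZ.leaf K2_ok TB_l17169 _)))
              (CovZ.n1 (-22224, 9120) (by decide +kernel)
               (CovZ.n2 (-22200, 9096) (by decide +kernel)
                (CovZ.leaf K2_ok TB_l17170 _)
                (CovZ.n1 (-22200, 9120) (by decide +kernel)
                 (CovZ.leaf K2_ok TB_l17171 _)
                 (CovZ.leaf K2_ok TB_l17172 _)))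
               (CovZ.n1 (-22248, 9096) (by decide +kernel)
                (CovZ.n2 (-22248, 9120) (by decide +kernel)
                 (CovZ.leaf K2_ok TB_l17173 _)
                 (CovZ.leaf K2_ok TB_l17174 _))
                (CovZ.leaf K2_ok TB_l17175 _)))))))
          (CovZ.n1 (-22176, 8928) (by decide +kernel)
           (CovZ.n2 (-22272, 8928) (by decide +kernel)
            (CovZ.n2 (-22224, 8976) (by decide +kernel)
             (CovZ.n2 (-22224, 8928) (by decide +kernel)
              (CovZ.n2 (-22248, 8952) (by decide +kernel)
               (CovZ.leaf K2_ok TB_l17176 _)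
               (CovZ.leaf K2_ok TB_l17177 _))
              (CovZ.leaf K2_ok TB_l17178 _))
             (CovZ.n1 (-22272, 8976) (by decide +kernel)
              (CovZ.n2 (-22248, 9000) (by decide +kernel)
               (CovZ.leaf K2_ok TB_l17179 _)
               (CovZ.leaf K2_ok TB_l17180 _))
              (CovZ.n1 (-22248, 8952) (by decide +kernel)
               (CovZ.leaf K2_ok TB_l17181 _)
               (CovZ.leaf K2_ok TB_l17182 _))))
            (CovZ.n1 (-22224, 8880) (by decide +kernel)
             (CovZ.n2 (-22272, 8880) (by decide +kernel)
              (CovZ.leaf K2_ok TB_l17183 _)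
              (CovZ.leaf K2_ok TB_l17184 _))
             (CovZ.n1 (-22224, 8928) (by decide +kernel)
              (CovZ.n2 (-22200, 8904) (by decide +kernel)
               (CovZ.leaf K2_ok TB_l17185 _)
               (CovZ.leaf K2_ok TB_l17186 _))
              (CovZ.leaf K2_ok TB_l17187 _))))
           (CovZ.n1 (-22176, 9024) (by decide +kernel)
            (CovZ.n2 (-22128, 8976) (by decide +kernel)
             (CovZ.subM 1233717601242205992686385722564276875748472105998106834201043356216389575507058671821555311772031395096569443262464 (by decide +kernel)
              (CovZ.n2 (-22176, 8976) (by decide +kernel)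
               (CovZ.n2 (-22152, 9000) (by decide +kernel)
                (CovZ.leaf K2_ok TB_l17188 _)
                (CovZ.leaf K2_ok TB_l17189 _))
               (CovZ.n1 (-22152, 8952) (by decide +kernel)
                (CovZ.leaf K2_ok TB_l17190 _)
                (CovZ.leaf K2_ok TB_l17191 _))))
             (CovZ.n1 (-22128, 9024) (by decide +kernel)
              (CovZ.n2 (-22104, 9000) (by decide +kernel)
               (CovZ.leaf K2_ok TB_l17192 _)
               (CovZ.n1 (-22104, 9024) (by decide +kernel)
                (CovZ.leaf K2_ok TB_l17193 _)
                (CovZ.leaf K2_ok TB_l17194 _)))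
              (CovZ.n1 (-22152, 9000) (by decide +kernel)
               (CovZ.leaf K2_ok TB_l17195 _)
               (CovZ.leaf K2_ok TB_l17196 _))))
            (CovZ.n1 (-22224, 8976) (by decide +kernel)
             (CovZ.n2 (-22224, 9024) (by decide +kernel)
              (CovZ.n2 (-22200, 9000) (by decide +kernel)
               (CovZ.leaf K2_ok TB_l17197 _)
               (CovZ.leaf K2_ok TB_l17198 _))
              (CovZ.n1 (-22248, 9000) (by decide +kernel)
               (CovZ.leaf K2_ok TB_l17199 _)
               (CovZ.leaf K2_ok TB_l17200 _)))
             (CovZ.n1 (-22176, 8976) (by decide +kernel)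
              (CovZ.leaf K2_ok TB_l17201 _)
              (CovZ.n1 (-22200, 9000) (by decide +kernel)
               (CovZ.leaf K2_ok TB_l17202 _)
               (CovZ.leaf K2_ok TB_l17203 _)))))))

theorem TB_u233 : CovZ TB_M (toL (selN TB_LN 631665816743553875575859411649534728553918416570984611500306027861147795982432775058045608597469065649184861660913796)) [0, 7, 6, 1] (-21888, 8832) (-21696, 9024) (-21888, 9216) :=
    (CovZ.n2 (-21888, 9024) (by decide +kernel)
         (CovZ.n2 (-21792, 9120) (by decide +kernel)
          (CovZ.subM 1233717601242206695459495337979958203748035649939651841703515838885507077962397612113017562122958229754578508718080 (by decide +kernel)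
           (CovZ.n2 (-21792, 9024) (by decide +kernel)
            (CovZ.n2 (-21840, 9072) (by decide +kernel)
             (CovZ.n2 (-21792, 9072) (by decide +kernel)
              (CovZ.n2 (-21816, 9048) (by decide +kernel)
               (CovZ.n2 (-21816, 9072) (by decide +kernel)
                (CovZ.leaf K2_ok TB_l17265 _)
                (CovZ.leaf K2_ok TB_l17266 _))
               (CovZ.n1 (-21792, 9048) (by decide +kernel)
                (CovZ.leaf K2_ok TB_l17267 _)
                (CovZ.leaf K2_ok TB_l17268 _)))
              (CovZ.n1 (-21816, 9096) (by decide +kernel)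
               (CovZ.n2 (-21792, 9096) (by decide +kernel)
                (CovZ.leaf K2_ok TB_l17269 _)
                (CovZ.leaf K2_ok TB_l40725 _))
               (CovZ.n1 (-21816, 9072) (by decide +kernel)
                (CovZ.leaf K2_ok TB_l17270 _)
                (CovZ.leaf K2_ok TB_l17271 _))))
             (CovZ.n1 (-21840, 9024) (by decide +kernel)
              (CovZ.n2 (-21864, 9048) (by decide +kernel)
               (CovZ.n2 (-21840, 9048) (by decide +kernel)
                (CovZ.leaf K2_ok TB_l17272 _)
                (CovZ.leaf K2_ok TB_l17273 _))
               (CovZ.n1 (-21864, 9024) (by decide +kernel)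
                (CovZ.leaf K2_ok TB_l17274 _)
                (CovZ.leaf K2_ok TB_l17275 _)))
              (CovZ.n1 (-21816, 9048) (by decide +kernel)
               (CovZ.n2 (-21816, 9024) (by decide +kernel)
                (CovZ.leaf K2_ok TB_l17276 _)
                (CovZ.leaf K2_ok TB_l17277 _))
               (CovZ.n1 (-21840, 9048) (by decide +kernel)
                (CovZ.leaf K2_ok TB_l17278 _)
                (CovZ.leaf K2_ok TB_l17279 _)))))
            (CovZ.n1 (-21744, 9072) (by decide +kernel)
             (CovZ.n2 (-21744, 9024) (by decide +kernel)
              (CovZ.n2 (-21768, 9048) (by decide +kernel)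
               (CovZ.n2 (-21744, 9048) (by decide +kernel)
                (CovZ.leaf K2_ok TB_l17280 _)
                (CovZ.leaf K2_ok TB_l17281 _))
               (CovZ.n1 (-21768, 9024) (by decide +kernel)
                (CovZ.leaf K2_ok TB_l17282 _)
                (CovZ.leaf K2_ok TB_l17283 _)))
              (CovZ.n1 (-21720, 9048) (by decide +kernel)
               (CovZ.n2 (-21720, 9024) (by decide +kernel)
                (CovZ.leaf K2_ok TB_l40726 _)
                (CovZ.leaf K2_ok TB_l40727 _))
               (CovZ.n1 (-21744, 9048) (by decide +kernel)
                (CovZ.leaf K2_ok TB_l40728 _)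
                (CovZ.leaf K2_ok TB_l40729 _))))
             (CovZ.n1 (-21792, 9072) (by decide +kernel)
              (CovZ.n2 (-21768, 9096) (by decide +kernel)
               (CovZ.n2 (-21768, 9072) (by decide +kernel)
                (CovZ.leaf K2_ok TB_l17284 _)
                (CovZ.leaf K2_ok TB_l40730 _))
               (CovZ.n1 (-21792, 9096) (by decide +kernel)
                (CovZ.leaf K2_ok TB_l40731 _)
                (CovZ.leaf K2_ok TB_l17285 _)))
              (CovZ.n1 (-21768, 9048) (by decide +kernel)
               (CovZ.n2 (-21792, 9048) (by decide +kernel)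
                (CovZ.leaf K2_ok TB_l17286 _)
                (CovZ.leaf K2_ok TB_l17287 _))
               (CovZ.n1 (-21768, 9072) (by decide +kernel)
                (CovZ.leaf K2_ok TB_l17288 _)
                (CovZ.leaf K2_ok TB_l17289 _)))))))
          (CovZ.n1 (-21888, 9120) (by decide +kernel)
           (CovZ.subM 1233717601242206692572575359743103170511014125194866561810798007819427023183296296182388717766030237506526563532800 (by decide +kernel)
            (CovZ.n2 (-21840, 9168) (by decide +kernel)
             (CovZ.subM 1233717601242206678338224253176413324550439786424335673091212401800310140263758884339260700692129736033288268546048 (by decide +kernel)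
              (CovZ.n2 (-21840, 9120) (by decide +kernel)
               (CovZ.n2 (-21864, 9144) (by decide +kernel)
                (CovZ.n2 (-21840, 9144) (by decide +kernel)
                 (CovZ.leaf K2_ok TB_l40732 _)
                 (CovZ.leaf K2_ok TB_l48757 _))
                (CovZ.n1 (-21864, 9120) (by decide +kernel)
                 (CovZ.leaf K2_ok TB_l40733 _)
                 (CovZ.leaf K2_ok TB_l40734 _)))
               (CovZ.n1 (-21816, 9144) (by decide +kernel)
                (CovZ.n2 (-21816, 9120) (by decide +kernel)
                 (CovZ.leaf K2_ok TB_l40735 _)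
                 (CovZ.leaf K2_ok TB_l40736 _))
                (CovZ.n1 (-21840, 9144) (by decide +kernel)
                 (CovZ.leaf K2_ok TB_l40737 _)
                 (CovZ.leaf K2_ok TB_l40738 _)))))
             (CovZ.n1 (-21888, 9168) (by decide +kernel)
              (CovZ.n2 (-21864, 9192) (by decide +kernel)
               (CovZ.n2 (-21864, 9168) (by decide +kernel)
                (CovZ.leaf K2_ok TB_l17290 _)
                (CovZ.leaf K2_ok TB_l17291 _))
               (CovZ.n1 (-21888, 9192) (by decide +kernel)
                (CovZ.leaf K2_ok TB_l17292 _)
                (CovZ.leaf K2_ok TB_l17293 _)))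
              (CovZ.subM 1233717601242206539565816513189786408948873313721246676068458446169430405528188936219623467487445797661469990453248 (by decide +kernel)
               (CovZ.n1 (-21864, 9144) (by decide +kernel)
                (CovZ.n2 (-21888, 9144) (by decide +kernel)
                 (CovZ.leaf K2_ok TB_l40739 _)
                 (CovZ.leaf K2_ok TB_l40740 _))
                (CovZ.n1 (-21864, 9168) (by decide +kernel)
                 (CovZ.leaf K2_ok TB_l48758 _)
                 (CovZ.leaf K2_ok TB_l40741 _)))))))
           (CovZ.subM 1233717601242206678338224253176413324550439786424335673091212401870462218855642224413037572662511320976773030617088 (by decide +kernel)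
            (CovZ.n1 (-21840, 9072) (by decide +kernel)
             (CovZ.n2 (-21888, 9072) (by decide +kernel)
              (CovZ.n2 (-21864, 9096) (by decide +kernel)
               (CovZ.n2 (-21864, 9072) (by decide +kernel)
                (CovZ.leaf K2_ok TB_l17294 _)
                (CovZ.leaf K2_ok TB_l17295 _))
               (CovZ.n1 (-21888, 9096) (by decide +kernel)
                (CovZ.leaf K2_ok TB_l17296 _)
                (CovZ.leaf K2_ok TB_l17297 _)))
              (CovZ.n1 (-21864, 9048) (by decide +kernel)
               (CovZ.leaf K2_ok TB_l17298 _)
               (CovZ.n1 (-21864, 9072) (by decide +kernel)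
                (CovZ.leaf K2_ok TB_l17299 _)
                (CovZ.leaf K2_ok TB_l17300 _))))
             (CovZ.n1 (-21840, 9120) (by decide +kernel)
              (CovZ.n2 (-21816, 9096) (by decide +kernel)
               (CovZ.n2 (-21840, 9096) (by decide +kernel)
                (CovZ.leaf K2_ok TB_l40742 _)
                (CovZ.leaf K2_ok TB_l17301 _))
               (CovZ.n1 (-21816, 9120) (by decide +kernel)
                (CovZ.leaf K2_ok TB_l40743 _)
                (CovZ.leaf K2_ok TB_l40744 _)))
              (CovZ.n1 (-21864, 9096) (by decide +kernel)
               (CovZ.n2 (-21864, 9120) (by decide +kernel)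
                (CovZ.leaf K2_ok TB_l40745 _)
                (CovZ.leaf K2_ok TB_l40746 _))
               (CovZ.n1 (-21840, 9096) (by decide +kernel)
                (CovZ.leaf K2_ok TB_l17302 _)
                (CovZ.leaf K2_ok TB_l40747 _))))))))
         (CovZ.subM 1233717601242207003183471399695133003790205748530478164603315165395579350451551737058319555673787044499058822488064 (by decide +kernel)
          (CovZ.n1 (-21792, 8928) (by decide +kernel)
           (CovZ.n2 (-21888, 8928) (by decide +kernel)
            (CovZ.n2 (-21840, 8976) (by decide +kernel)
             (CovZ.n2 (-21840, 8928) (by decide +kernel)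
              (CovZ.n2 (-21864, 8952) (by decide +kernel)
               (CovZ.leaf K2_ok TB_l17303 _)
               (CovZ.n1 (-21864, 8928) (by decide +kernel)
                (CovZ.leaf K2_ok TB_l17304 _)
                (CovZ.leaf K2_ok TB_l17305 _)))
              (CovZ.n1 (-21816, 8952) (by decide +kernel)
               (CovZ.n2 (-21816, 8928) (by decide +kernel)
                (CovZ.leaf K2_ok TB_l17306 _)
                (CovZ.leaf K2_ok TB_l17307 _))
               (CovZ.leaf K2_ok TB_l17308 _)))
             (CovZ.n1 (-21888, 8976) (by decide +kernel)
              (CovZ.n2 (-21864, 9000) (by decide +kernel)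
               (CovZ.n2 (-21864, 8976) (by decide +kernel)
                (CovZ.leaf K2_ok TB_l17309 _)
                (CovZ.leaf K2_ok TB_l17310 _))
               (CovZ.leaf K2_ok TB_l17311 _))
              (CovZ.n1 (-21864, 8952) (by decide +kernel)
               (CovZ.leaf K2_ok TB_l17312 _)
               (CovZ.n1 (-21864, 8976) (by decide +kernel)
                (CovZ.leaf K2_ok TB_l17313 _)
                (CovZ.leaf K2_ok TB_l17314 _)))))
            (CovZ.n1 (-21840, 8880) (by decide +kernel)
             (CovZ.n2 (-21888, 8880) (by decide +kernel)
              (CovZ.n2 (-21864, 8904) (by decide +kernel)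
               (CovZ.leaf K2_ok TB_l17315 _)
               (CovZ.leaf K2_ok TB_l17316 _))
              (CovZ.n1 (-21864, 8856) (by decide +kernel)
               (CovZ.leaf K2_ok TB_l17317 _)
               (CovZ.n1 (-21864, 8880) (by decide +kernel)
                (CovZ.leaf K2_ok TB_l17318 _)
                (CovZ.leaf K2_ok TB_l17319 _))))
             (CovZ.n1 (-21840, 8928) (by decide +kernel)
              (CovZ.n2 (-21816, 8904) (by decide +kernel)
               (CovZ.leaf K2_ok TB_l17320 _)
               (CovZ.n1 (-21816, 8928) (by decide +kernel)
                (CovZ.leaf K2_ok TB_l17321 _)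
                (CovZ.leaf K2_ok TB_l17322 _)))
              (CovZ.n1 (-21864, 8904) (by decide +kernel)
               (CovZ.n2 (-21864, 8928) (by decide +kernel)
                (CovZ.leaf K2_ok TB_l17323 _)
                (CovZ.leaf K2_ok TB_l17324 _))
               (CovZ.leaf K2_ok TB_l17325 _)))))
           (CovZ.n1 (-21792, 9024) (by decide +kernel)
            (CovZ.n2 (-21744, 8976) (by decide +kernel)
             (CovZ.n2 (-21792, 8976) (by decide +kernel)
              (CovZ.n2 (-21768, 9000) (by decide +kernel)
               (CovZ.n2 (-21768, 8976) (by decide +kernel)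
                (CovZ.leaf K2_ok TB_l17326 _)
                (CovZ.leaf K2_ok TB_l17327 _))
               (CovZ.n1 (-21792, 9000) (by decide +kernel)
                (CovZ.leaf K2_ok TB_l17328 _)
                (CovZ.leaf K2_ok TB_l17329 _)))
              (CovZ.n1 (-21768, 8952) (by decide +kernel)
               (CovZ.leaf K2_ok TB_l17330 _)
               (CovZ.n1 (-21768, 8976) (by decide +kernel)
                (CovZ.leaf K2_ok TB_l17331 _)
                (CovZ.leaf K2_ok TB_l17332 _))))
             (CovZ.n1 (-21744, 9024) (by decide +kernel)
              (CovZ.n2 (-21720, 9000) (by decide +kernel)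
               (CovZ.n2 (-21744, 9000) (by decide +kernel)
                (CovZ.leaf K2_ok TB_l17333 _)
                (CovZ.leaf K2_ok TB_l17334 _))
               (CovZ.n1 (-21720, 9024) (by decide +kernel)
                (CovZ.leaf K2_ok TB_l40748 _)
                (CovZ.leaf K2_ok TB_l40749 _)))
              (CovZ.n1 (-21768, 9000) (by decide +kernel)
               (CovZ.n2 (-21768, 9024) (by decide +kernel)
                (CovZ.leaf K2_ok TB_l17335 _)
                (CovZ.leaf K2_ok TB_l17336 _))
               (CovZ.n1 (-21744, 9000) (by decide +kernel)
                (CovZ.leaf K2_ok TB_l17337 _)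
                (CovZ.leaf K2_ok TB_l17338 _)))))
            (CovZ.n1 (-21840, 8976) (by decide +kernel)
             (CovZ.n2 (-21840, 9024) (by decide +kernel)
              (CovZ.n2 (-21816, 9000) (by decide +kernel)
               (CovZ.leaf K2_ok TB_l17339 _)
               (CovZ.n1 (-21816, 9024) (by decide +kernel)
                (CovZ.leaf K2_ok TB_l17340 _)
                (CovZ.leaf K2_ok TB_l17341 _)))
              (CovZ.n1 (-21864, 9000) (by decide +kernel)
               (CovZ.n2 (-21864, 9024) (by decide +kernel)
                (CovZ.leaf K2_ok TB_l17342 _)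
                (CovZ.leaf K2_ok TB_l17343 _))
               (CovZ.leaf K2_ok TB_l17344 _)))
             (CovZ.n1 (-21792, 8976) (by decide +kernel)
              (CovZ.n2 (-21816, 8952) (by decide +kernel)
               (CovZ.n2 (-21816, 8976) (by decide +kernel)
                (CovZ.leaf K2_ok TB_l17345 _)
                (CovZ.leaf K2_ok TB_l17346 _))
               (CovZ.leaf K2_ok TB_l17347 _))
              (CovZ.n1 (-21816, 9000) (by decide +kernel)
               (CovZ.n2 (-21792, 9000) (by decide +kernel)
                (CovZ.leaf K2_ok TB_l17348 _)
                (CovZ.leaf K2_ok TB_l17349 _))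
               (CovZ.n1 (-21816, 8976) (by decide +kernel)
                (CovZ.leaf K2_ok TB_l17350 _)
                (CovZ.leaf K2_ok TB_l17351 _)))))))))

theorem TB_u234 : CovZ TB_M (toL (selN TB_LN 631665816743553875575859411649534728553918416570984611500306027861147795982432775058045608597469065649184861660913796)) [0, 7, 6, 1] (-21696, 9024) (-21504, 9216) (-21888, 9216) :=
    (CovZ.n1 (-21696, 9216) (by decide +kernel)
         (CovZ.subM 1233717601242206024759566058814192331711219912700287856448018717092734088429944073659476916240114907193432464162816 (by decide +kernel)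
          (CovZ.n2 (-21600, 9120) (by decide +kernel)
           (CovZ.n2 (-21696, 9120) (by decide +kernel)
            (CovZ.n2 (-21648, 9168) (by decide +kernel)
             (CovZ.n2 (-21648, 9120) (by decide +kernel)
              (CovZ.n2 (-21672, 9144) (by decide +kernel)
               (CovZ.leaf K2_ok TB_l17352 _)
               (CovZ.n1 (-21672, 9120) (by decide +kernel)
                (CovZ.leaf K2_ok TB_l40750 _)
                (CovZ.leaf K2_ok TB_l40751 _)))
              (CovZ.n1 (-21624, 9144) (by decide +kernel)
               (CovZ.n2 (-21624, 9120) (by decide +kernel)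
                (CovZ.leaf K2_ok TB_l40752 _)
                (CovZ.leaf K2_ok TB_l40753 _))
               (CovZ.n1 (-21648, 9144) (by decide +kernel)
                (CovZ.leaf K2_ok TB_l17353 _)
                (CovZ.leaf K2_ok TB_l40754 _))))
             (CovZ.n1 (-21696, 9168) (by decide +kernel)
              (CovZ.n2 (-21672, 9192) (by decide +kernel)
               (CovZ.n2 (-21672, 9168) (by decide +kernel)
                (CovZ.leaf K2_ok TB_l17354 _)
                (CovZ.leaf K2_ok TB_l17355 _))
               (CovZ.leaf K2_ok TB_l17356 _))
              (CovZ.n1 (-21672, 9144) (by decide +kernel)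
               (CovZ.leaf K2_ok TB_l17357 _)
               (CovZ.n1 (-21672, 9168) (by decide +kernel)
                (CovZ.leaf K2_ok TB_l17358 _)
                (CovZ.leaf K2_ok TB_l17359 _)))))
            (CovZ.n1 (-21648, 9072) (by decide +kernel)
             (CovZ.n2 (-21696, 9072) (by decide +kernel)
              (CovZ.n2 (-21672, 9096) (by decide +kernel)
               (CovZ.n2 (-21672, 9072) (by decide +kernel)
                (CovZ.n2 (-21684, 9084) (by decide +kernel)
                 (CovZ.leaf K2_ok TB_l40755 _)
                 (CovZ.leaf K2_ok TB_l40756 _))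
                (CovZ.leaf K2_ok TB_l40757 _))
               (CovZ.n1 (-21696, 9096) (by decide +kernel)
                (CovZ.leaf K2_ok TB_l40758 _)
                (CovZ.leaf K2_ok TB_l40759 _)))
              (CovZ.n1 (-21672, 9048) (by decide +kernel)
               (CovZ.n2 (-21696, 9048) (by decide +kernel)
                (CovZ.leaf K2_ok TB_l40760 _)
                (CovZ.leaf K2_ok TB_l40761 _))
               (CovZ.n1 (-21672, 9072) (by decide +kernel)
                (CovZ.leaf K2_ok TB_l40762 _)
                (CovZ.leaf K2_ok TB_l40763 _))))
             (CovZ.n1 (-21648, 9120) (by decide +kernel)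
              (CovZ.n2 (-21624, 9096) (by decide +kernel)
               (CovZ.n2 (-21648, 9096) (by decide +kernel)
                (CovZ.leaf K2_ok TB_l40764 _)
                (CovZ.n1 (-21636, 9084) (by decide +kernel)
                 (CovZ.leaf K2_ok TB_l40765 _)
                 (CovZ.leaf K2_ok TB_l40766 _)))
               (CovZ.n1 (-21624, 9120) (by decide +kernel)
                (CovZ.leaf K2_ok TB_l40767 _)
                (CovZ.leaf K2_ok TB_l40768 _)))
              (CovZ.n1 (-21672, 9096) (by decide +kernel)
               (CovZ.n2 (-21672, 9120) (by decide +kernel)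
                (CovZ.n2 (-21660, 9108) (by decide +kernel)
                 (CovZ.leaf K2_ok TB_l40769 _)
                 (CovZ.leaf K2_ok TB_l40770 _))
                (CovZ.leaf K2_ok TB_l40771 _))
               (CovZ.n1 (-21648, 9096) (by decide +kernel)
                (CovZ.leaf K2_ok TB_l40772 _)
                (CovZ.n1 (-21660, 9108) (by decide +kernel)
                 (CovZ.leaf K2_ok TB_l40773 _)
                 (CovZ.leaf K2_ok TB_l40774 _)))))))
           (CovZ.n1 (-21600, 9216) (by decide +kernel)
            (CovZ.n2 (-21552, 9168) (by decide +kernel)
             (CovZ.n2 (-21600, 9168) (by decide +kernel)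
              (CovZ.n2 (-21576, 9192) (by decide +kernel)
               (CovZ.leaf K2_ok TB_l17360 _)
               (CovZ.leaf K2_ok TB_l17361 _))
              (CovZ.n1 (-21576, 9144) (by decide +kernel)
               (CovZ.leaf K2_ok TB_l17362 _)
               (CovZ.leaf K2_ok TB_l17363 _)))
             (CovZ.n1 (-21552, 9216) (by decide +kernel)
              (CovZ.n2 (-21528, 9192) (by decide +kernel)
               (CovZ.leaf K2_ok TB_l17364 _)
               (CovZ.leaf K2_ok TB_l17365 _))
              (CovZ.leaf K2_ok TB_l17366 _)))
            (CovZ.n1 (-21648, 9168) (by decide +kernel)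
             (CovZ.n2 (-21648, 9216) (by decide +kernel)
              (CovZ.n2 (-21624, 9192) (by decide +kernel)
               (CovZ.leaf K2_ok TB_l17367 _)
               (CovZ.leaf K2_ok TB_l17368 _))
              (CovZ.n1 (-21672, 9192) (by decide +kernel)
               (CovZ.leaf K2_ok TB_l17369 _)
               (CovZ.leaf K2_ok TB_l17370 _)))
             (CovZ.n1 (-21600, 9168) (by decide +kernel)
              (CovZ.n2 (-21624, 9144) (by decide +kernel)
               (CovZ.n2 (-21624, 9168) (by decide +kernel)
                (CovZ.leaf K2_ok TB_l17371 _)
                (CovZ.leaf K2_ok TB_l17372 _))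
               (CovZ.leaf K2_ok TB_l17373 _))
              (CovZ.n1 (-21624, 9192) (by decide +kernel)
               (CovZ.leaf K2_ok TB_l17374 _)
               (CovZ.n1 (-21624, 9168) (by decide +kernel)
                (CovZ.leaf K2_ok TB_l17375 _)
                (CovZ.leaf K2_ok TB_l17376 _))))))))
         (CovZ.subM 1233717601242206709693846444546648049708609988710182730423101444834471882290051683882368707226477146284332041633792 (by decide +kernel)
          (CovZ.n1 (-21792, 9120) (by decide +kernel)
           (CovZ.n2 (-21792, 9216) (by decide +kernel)
            (CovZ.n2 (-21744, 9168) (by decide +kernel)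
             (CovZ.n2 (-21792, 9168) (by decide +kernel)
              (CovZ.n2 (-21768, 9192) (by decide +kernel)
               (CovZ.n2 (-21768, 9168) (by decide +kernel)
                (CovZ.leaf K2_ok TB_l17377 _)
                (CovZ.leaf K2_ok TB_l17378 _))
               (CovZ.leaf K2_ok TB_l17379 _))
              (CovZ.n1 (-21768, 9144) (by decide +kernel)
               (CovZ.n2 (-21792, 9144) (by decide +kernel)
                (CovZ.leaf K2_ok TB_l40775 _)
                (CovZ.leaf K2_ok TB_l40776 _))
               (CovZ.n1 (-21768, 9168) (by decide +kernel)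
                (CovZ.leaf K2_ok TB_l17380 _)
                (CovZ.leaf K2_ok TB_l40777 _))))
             (CovZ.n1 (-21744, 9216) (by decide +kernel)
              (CovZ.n2 (-21720, 9192) (by decide +kernel)
               (CovZ.leaf K2_ok TB_l17381 _)
               (CovZ.leaf K2_ok TB_l17382 _))
              (CovZ.n1 (-21768, 9192) (by decide +kernel)
               (CovZ.n2 (-21768, 9216) (by decide +kernel)
                (CovZ.leaf K2_ok TB_l17383 _)
                (CovZ.leaf K2_ok TB_l17384 _))
               (CovZ.leaf K2_ok TB_l17385 _))))
            (CovZ.n1 (-21840, 9168) (by decide +kernel)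
             (CovZ.n2 (-21840, 9216) (by decide +kernel)
              (CovZ.n2 (-21816, 9192) (by decide +kernel)
               (CovZ.leaf K2_ok TB_l17386 _)
               (CovZ.leaf K2_ok TB_l17387 _))
              (CovZ.n1 (-21864, 9192) (by decide +kernel)
               (CovZ.n2 (-21864, 9216) (by decide +kernel)
                (CovZ.leaf K2_ok TB_l17388 _)
                (CovZ.leaf K2_ok TB_l17389 _))
               (CovZ.leaf K2_ok TB_l17390 _)))
             (CovZ.n1 (-21792, 9168) (by decide +kernel)
              (CovZ.subM 1233717601242206130987374448763671683321449803706743899674345140638084035450043608552341387407207782141176471093248 (by decide +kernel)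
               (CovZ.n2 (-21816, 9144) (by decide +kernel)
                (CovZ.n2 (-21816, 9168) (by decide +kernel)
                 (CovZ.leaf K2_ok TB_l40778 _)
                 (CovZ.leaf K2_ok TB_l40779 _))
                (CovZ.n1 (-21792, 9144) (by decide +kernel)
                 (CovZ.leaf K2_ok TB_l40780 _)
                 (CovZ.leaf K2_ok TB_l40781 _))))
              (CovZ.n1 (-21816, 9192) (by decide +kernel)
               (CovZ.leaf K2_ok TB_l17391 _)
               (CovZ.n1 (-21816, 9168) (by decide +kernel)
                (CovZ.leaf K2_ok TB_l17392 _)
                (CovZ.leaf K2_ok TB_l17393 _))))))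
           (CovZ.n1 (-21696, 9120) (by decide +kernel)
            (CovZ.n2 (-21744, 9072) (by decide +kernel)
             (CovZ.n2 (-21744, 9120) (by decide +kernel)
              (CovZ.n2 (-21720, 9096) (by decide +kernel)
               (CovZ.n2 (-21744, 9096) (by decide +kernel)
                (CovZ.leaf K2_ok TB_l40782 _)
                (CovZ.leaf K2_ok TB_l40783 _))
               (CovZ.n1 (-21720, 9120) (by decide +kernel)
                (CovZ.n2 (-21708, 9108) (by decide +kernel)
                 (CovZ.leaf K2_ok TB_l40784 _)
                 (CovZ.leaf K2_ok TB_l40785 _))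
                (CovZ.leaf K2_ok TB_l40786 _)))
              (CovZ.n1 (-21768, 9096) (by decide +kernel)
               (CovZ.n2 (-21768, 9120) (by decide +kernel)
                (CovZ.n2 (-21756, 9108) (by decide +kernel)
                 (CovZ.leaf K2_ok TB_l40787 _)
                 (CovZ.leaf K2_ok TB_l40788 _))
                (CovZ.leaf K2_ok TB_l40789 _))
               (CovZ.n1 (-21744, 9096) (by decide +kernel)
                (CovZ.leaf K2_ok TB_l40790 _)
                (CovZ.n1 (-21756, 9108) (by decide +kernel)
                 (CovZ.leaf K2_ok TB_l40791 _)
                 (CovZ.leaf K2_ok TB_l40792 _)))))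
             (CovZ.n1 (-21696, 9072) (by decide +kernel)
              (CovZ.n2 (-21720, 9048) (by decide +kernel)
               (CovZ.n2 (-21720, 9072) (by decide +kernel)
                (CovZ.leaf K2_ok TB_l40793 _)
                (CovZ.leaf K2_ok TB_l40794 _))
               (CovZ.n1 (-21696, 9048) (by decide +kernel)
                (CovZ.leaf K2_ok TB_l40795 _)
                (CovZ.leaf K2_ok TB_l40796 _)))
              (CovZ.n1 (-21720, 9096) (by decide +kernel)
               (CovZ.n2 (-21696, 9096) (by decide +kernel)
                (CovZ.leaf K2_ok TB_l40797 _)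
                (CovZ.n1 (-21708, 9108) (by decide +kernel)
                 (CovZ.leaf K2_ok TB_l40798 _)
                 (CovZ.leaf K2_ok TB_l40799 _)))
               (CovZ.n1 (-21720, 9072) (by decide +kernel)
                (CovZ.leaf K2_ok TB_l40800 _)
                (CovZ.leaf K2_ok TB_l40801 _)))))
            (CovZ.n1 (-21744, 9168) (by decide +kernel)
             (CovZ.n2 (-21696, 9168) (by decide +kernel)
              (CovZ.n2 (-21720, 9144) (by decide +kernel)
               (CovZ.n2 (-21720, 9168) (by decide +kernel)
                (CovZ.leaf K2_ok TB_l17394 _)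
                (CovZ.leaf K2_ok TB_l17395 _))
               (CovZ.leaf K2_ok TB_l17396 _))
              (CovZ.n1 (-21720, 9192) (by decide +kernel)
               (CovZ.leaf K2_ok TB_l17397 _)
               (CovZ.n1 (-21720, 9168) (by decide +kernel)
                (CovZ.leaf K2_ok TB_l17398 _)
                (CovZ.leaf K2_ok TB_l17399 _))))
             (CovZ.n1 (-21744, 9120) (by decide +kernel)
              (CovZ.n2 (-21768, 9144) (by decide +kernel)
               (CovZ.n2 (-21744, 9144) (by decide +kernel)
                (CovZ.leaf K2_ok TB_l40802 _)
                (CovZ.leaf K2_ok TB_l17400 _))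
               (CovZ.n1 (-21768, 9120) (by decide +kernel)
                (CovZ.leaf K2_ok TB_l40803 _)
                (CovZ.leaf K2_ok TB_l40804 _)))
              (CovZ.n1 (-21720, 9144) (by decide +kernel)
               (CovZ.n2 (-21720, 9120) (by decide +kernel)
                (CovZ.leaf K2_ok TB_l40805 _)
                (CovZ.leaf K2_ok TB_l40806 _))
               (CovZ.n1 (-21744, 9144) (by decide +kernel)
                (CovZ.leaf K2_ok TB_l17401 _)
                (CovZ.leaf K2_ok TB_l40807 _)))))))))

theorem TB_u235 : CovZ TB_M (toL (selN TB_LN 631665816743553875575859411649534728553918416570984611500306027861147795982432775058045608597469065649184861660913796)) [0, 7, 6, 1] (-22272, 9216) (-22080, 9024) (-21888, 9216) :=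
    (CovZ.n2 (-22080, 9216) (by decide +kernel)
         (CovZ.n2 (-21984, 9120) (by decide +kernel)
          (CovZ.subM 1233717601242205992686385722564276875748472105998106835004512378345930385204206308708330478184155275832330110902272 (by decide +kernel)
           (CovZ.n2 (-22080, 9120) (by decide +kernel)
            (CovZ.n2 (-22032, 9168) (by decide +kernel)
             (CovZ.n2 (-22032, 9120) (by decide +kernel)
              (CovZ.n2 (-22056, 9144) (by decide +kernel)
               (CovZ.n2 (-22032, 9144) (by decide +kernel)
                (CovZ.leaf K2_ok TB_l17402 _)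
                (CovZ.leaf K2_ok TB_l17403 _))
               (CovZ.n1 (-22056, 9120) (by decide +kernel)
                (CovZ.leaf K2_ok TB_l17404 _)
                (CovZ.leaf K2_ok TB_l17405 _)))
              (CovZ.n1 (-22008, 9144) (by decide +kernel)
               (CovZ.n2 (-22008, 9120) (by decide +kernel)
                (CovZ.leaf K2_ok TB_l17406 _)
                (CovZ.leaf K2_ok TB_l17407 _))
               (CovZ.leaf K2_ok TB_l17408 _)))
             (CovZ.n1 (-22080, 9168) (by decide +kernel)
              (CovZ.n2 (-22056, 9192) (by decide +kernel)
               (CovZ.n2 (-22056, 9168) (by decide +kernel)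
                (CovZ.leaf K2_ok TB_l17409 _)
                (CovZ.leaf K2_ok TB_l17410 _))
               (CovZ.n1 (-22080, 9192) (by decide +kernel)
                (CovZ.leaf K2_ok TB_l17411 _)
                (CovZ.leaf K2_ok TB_l17412 _)))
              (CovZ.n1 (-22056, 9144) (by decide +kernel)
               (CovZ.leaf K2_ok TB_l17413 _)
               (CovZ.n1 (-22056, 9168) (by decide +kernel)
                (CovZ.leaf K2_ok TB_l17414 _)
                (CovZ.leaf K2_ok TB_l17415 _)))))
            (CovZ.n1 (-22032, 9072) (by decide +kernel)
             (CovZ.n2 (-22080, 9072) (by decide +kernel)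
              (CovZ.n2 (-22056, 9096) (by decide +kernel)
               (CovZ.n2 (-22056, 9072) (by decide +kernel)
                (CovZ.leaf K2_ok TB_l17416 _)
                (CovZ.leaf K2_ok TB_l17417 _))
               (CovZ.leaf K2_ok TB_l17418 _))
              (CovZ.n1 (-22056, 9048) (by decide +kernel)
               (CovZ.leaf K2_ok TB_l17419 _)
               (CovZ.n1 (-22056, 9072) (by decide +kernel)
                (CovZ.leaf K2_ok TB_l17420 _)
                (CovZ.leaf K2_ok TB_l17421 _))))
             (CovZ.n1 (-22032, 9120) (by decide +kernel)
              (CovZ.n2 (-22008, 9096) (by decide +kernel)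
               (CovZ.leaf K2_ok TB_l17422 _)
               (CovZ.n1 (-22008, 9120) (by decide +kernel)
                (CovZ.leaf K2_ok TB_l17423 _)
                (CovZ.leaf K2_ok TB_l17424 _)))
              (CovZ.n1 (-22056, 9096) (by decide +kernel)
               (CovZ.n2 (-22056, 9120) (by decide +kernel)
                (CovZ.leaf K2_ok TB_l17425 _)
                (CovZ.leaf K2_ok TB_l17426 _))
               (CovZ.n1 (-22032, 9096) (by decide +kernel)
                (CovZ.leaf K2_ok TB_l17427 _)
                (CovZ.leaf K2_ok TB_l17428 _)))))))
          (CovZ.subM 1233717601242206006920736829130966721709046444768637723717820882652313862738536926360407943749055808665771323695104 (by decide +kernel)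
           (CovZ.n1 (-21984, 9216) (by decide +kernel)
            (CovZ.n2 (-21936, 9168) (by decide +kernel)
             (CovZ.n2 (-21984, 9168) (by decide +kernel)
              (CovZ.subM 1233717601242205992148217113904516327645038902685856399873725738401077360445389462063313724834405302255901864894464 (by decide +kernel)
               (CovZ.n2 (-21960, 9192) (by decide +kernel)
                (CovZ.n2 (-21960, 9168) (by decide +kernel)
                 (CovZ.leaf K2_ok TB_l17429 _)
                 (CovZ.leaf K2_ok TB_l17430 _))
                (CovZ.n1 (-21984, 9192) (by decide +kernel)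
                 (CovZ.leaf K2_ok TB_l17431 _)
                 (CovZ.leaf K2_ok TB_l17432 _))))
              (CovZ.n1 (-21960, 9144) (by decide +kernel)
               (CovZ.leaf K2_ok TB_l17433 _)
               (CovZ.n1 (-21960, 9168) (by decide +kernel)
                (CovZ.leaf K2_ok TB_l17434 _)
                (CovZ.leaf K2_ok TB_l17435 _))))
             (CovZ.n1 (-21936, 9216) (by decide +kernel)
              (CovZ.subM 1233717601242206006382568220471206173605613241456387287789842274328211661933288739957887431613254188111909366005760 (by decide +kernel)
               (CovZ.n2 (-21912, 9192) (by decide +kernel)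
                (CovZ.n2 (-21936, 9192) (by decide +kernel)
                 (CovZ.leaf K2_ok TB_l17436 _)
                 (CovZ.leaf K2_ok TB_l40808 _))
                (CovZ.n1 (-21912, 9216) (by decide +kernel)
                 (CovZ.leaf K2_ok TB_l17437 _)
                 (CovZ.leaf K2_ok TB_l17438 _))))
              (CovZ.n1 (-21960, 9192) (by decide +kernel)
               (CovZ.n2 (-21960, 9216) (by decide +kernel)
                (CovZ.leaf K2_ok TB_l17439 _)
                (CovZ.leaf K2_ok TB_l17440 _))
               (CovZ.n1 (-21936, 9192) (by decide +kernel)
                (CovZ.leaf K2_ok TB_l48759 _)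
                (CovZ.leaf K2_ok TB_l17441 _)))))
            (CovZ.n1 (-22032, 9168) (by decide +kernel)
             (CovZ.subM 1233717601242205992148217113904516327645038902685856399873725738377693334248095015372054767510944773941406944206848 (by decide +kernel)
              (CovZ.n2 (-22032, 9216) (by decide +kernel)
               (CovZ.n2 (-22008, 9192) (by decide +kernel)
                (CovZ.n2 (-22032, 9192) (by decide +kernel)
                 (CovZ.leaf K2_ok TB_l17442 _)
                 (CovZ.leaf K2_ok TB_l17443 _))
                (CovZ.n1 (-22008, 9216) (by decide +kernel)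
                 (CovZ.leaf K2_ok TB_l17444 _)
                 (CovZ.leaf K2_ok TB_l17445 _)))
               (CovZ.n1 (-22056, 9192) (by decide +kernel)
                (CovZ.n2 (-22056, 9216) (by decide +kernel)
                 (CovZ.leaf K2_ok TB_l17446 _)
                 (CovZ.leaf K2_ok TB_l17447 _))
                (CovZ.n1 (-22032, 9192) (by decide +kernel)
                 (CovZ.leaf K2_ok TB_l17448 _)
                 (CovZ.leaf K2_ok TB_l17449 _)))))
             (CovZ.n1 (-21984, 9168) (by decide +kernel)
              (CovZ.subM 1233717601242205992686385722564276875748472105998106834194766254480317815850724021655439668090593281986641690370048 (by decide +kernel)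
               (CovZ.n2 (-22008, 9144) (by decide +kernel)
                (CovZ.n2 (-22008, 9168) (by decide +kernel)
                 (CovZ.leaf K2_ok TB_l17450 _)
                 (CovZ.leaf K2_ok TB_l17451 _))
                (CovZ.n1 (-21984, 9144) (by decide +kernel)
                 (CovZ.leaf K2_ok TB_l17452 _)
                 (CovZ.leaf K2_ok TB_l17453 _))))
              (CovZ.subM 1233717601242205992148217113904516327645038902685856399873725738377693334248095015372054767510944773941406944206848 (by decide +kernel)
               (CovZ.n1 (-22008, 9192) (by decide +kernel)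
                (CovZ.n2 (-21984, 9192) (by decide +kernel)
                 (CovZ.leaf K2_ok TB_l17454 _)
                 (CovZ.leaf K2_ok TB_l17455 _))
                (CovZ.n1 (-22008, 9168) (by decide +kernel)
                 (CovZ.leaf K2_ok TB_l17456 _)
                 (CovZ.leaf K2_ok TB_l17457 _)))))))))
         (CovZ.subM 631665816743553873389151027324862097757024300433445253522177206846277478729159576091336590556342805528738377955811332 (by decide +kernel)
          (CovZ.n1 (-22176, 9120) (by decide +kernel)
           (CovZ.n2 (-22176, 9216) (by decide +kernel)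
            (CovZ.n2 (-22128, 9168) (by decide +kernel)
             (CovZ.n2 (-22176, 9168) (by decide +kernel)
              (CovZ.n2 (-22152, 9192) (by decide +kernel)
               (CovZ.n2 (-22152, 9168) (by decide +kernel)
                (CovZ.leaf K2_ok TB_l17458 _)
                (CovZ.leaf K2_ok TB_l17459 _))
               (CovZ.leaf K2_ok TB_l17460 _))
              (CovZ.n1 (-22152, 9144) (by decide +kernel)
               (CovZ.leaf K2_ok TB_l17461 _)
               (CovZ.n1 (-22152, 9168) (by decide +kernel)
                (CovZ.leaf K2_ok TB_l17462 _)
                (CovZ.leaf K2_ok TB_l17463 _))))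
             (CovZ.n1 (-22128, 9216) (by decide +kernel)
              (CovZ.n2 (-22104, 9192) (by decide +kernel)
               (CovZ.leaf K2_ok TB_l17464 _)
               (CovZ.n1 (-22104, 9216) (by decide +kernel)
                (CovZ.leaf K2_ok TB_l17465 _)
                (CovZ.leaf K2_ok TB_l17466 _)))
              (CovZ.n1 (-22152, 9192) (by decide +kernel)
               (CovZ.n2 (-22152, 9216) (by decide +kernel)
                (CovZ.leaf K2_ok TB_l17467 _)
                (CovZ.leaf K2_ok TB_l17468 _))
               (CovZ.leaf K2_ok TB_l17469 _))))
            (CovZ.n1 (-22224, 9168) (by decide +kernel)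
             (CovZ.n2 (-22224, 9216) (by decide +kernel)
              (CovZ.n2 (-22200, 9192) (by decide +kernel)
               (CovZ.leaf K2_ok TB_l17470 _)
               (CovZ.n1 (-22200, 9216) (by decide +kernel)
                (CovZ.leaf K2_ok TB_l17471 _)
                (CovZ.leaf K2_ok TB_l17472 _)))
              (CovZ.n1 (-22248, 9192) (by decide +kernel)
               (CovZ.n2 (-22248, 9216) (by decide +kernel)
                (CovZ.leaf K2_ok TB_l17473 _)
                (CovZ.leaf K2_ok TB_l17474 _))
               (CovZ.n1 (-22224, 9192) (by decide +kernel)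
                (CovZ.leaf K2_ok TB_l17475 _)
                (CovZ.leaf K2_ok TB_l17476 _))))
             (CovZ.n1 (-22176, 9168) (by decide +kernel)
              (CovZ.n2 (-22200, 9144) (by decide +kernel)
               (CovZ.n2 (-22200, 9168) (by decide +kernel)
                (CovZ.leaf K2_ok TB_l17477 _)
                (CovZ.leaf K2_ok TB_l17478 _))
               (CovZ.leaf K2_ok TB_l17479 _))
              (CovZ.n1 (-22200, 9192) (by decide +kernel)
               (CovZ.n2 (-22176, 9192) (by decide +kernel)
                (CovZ.leaf K2_ok TB_l17480 _)
                (CovZ.leaf K2_ok TB_l17481 _))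
               (CovZ.n1 (-22200, 9168) (by decide +kernel)
                (CovZ.leaf K2_ok TB_l17482 _)
                (CovZ.leaf K2_ok TB_l17483 _))))))
           (CovZ.n1 (-22080, 9120) (by decide +kernel)
            (CovZ.n2 (-22128, 9072) (by decide +kernel)
             (CovZ.n2 (-22128, 9120) (by decide +kernel)
              (CovZ.n2 (-22104, 9096) (by decide +kernel)
               (CovZ.leaf K2_ok TB_l17484 _)
               (CovZ.n1 (-22104, 9120) (by decide +kernel)
                (CovZ.leaf K2_ok TB_l17485 _)
                (CovZ.leaf K2_ok TB_l17486 _)))
              (CovZ.n1 (-22152, 9096) (by decide +kernel)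
               (CovZ.n2 (-22152, 9120) (by decide +kernel)
                (CovZ.leaf K2_ok TB_l17487 _)
                (CovZ.leaf K2_ok TB_l17488 _))
               (CovZ.leaf K2_ok TB_l17489 _)))
             (CovZ.n1 (-22080, 9072) (by decide +kernel)
              (CovZ.n2 (-22104, 9048) (by decide +kernel)
               (CovZ.n2 (-22104, 9072) (by decide +kernel)
                (CovZ.leaf K2_ok TB_l17490 _)
                (CovZ.leaf K2_ok TB_l17491 _))
               (CovZ.leaf K2_ok TB_l17492 _))
              (CovZ.n1 (-22104, 9096) (by decide +kernel)
               (CovZ.leaf K2_ok TB_l17493 _)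
               (CovZ.n1 (-22104, 9072) (by decide +kernel)
                (CovZ.leaf K2_ok TB_l17494 _)
                (CovZ.leaf K2_ok TB_l17495 _)))))
            (CovZ.n1 (-22128, 9168) (by decide +kernel)
             (CovZ.n2 (-22080, 9168) (by decide +kernel)
              (CovZ.n2 (-22104, 9144) (by decide +kernel)
               (CovZ.n2 (-22104, 9168) (by decide +kernel)
                (CovZ.leaf K2_ok TB_l17496 _)
                (CovZ.leaf K2_ok TB_l17497 _))
               (CovZ.n1 (-22080, 9144) (by decide +kernel)
                (CovZ.leaf K2_ok TB_l17498 _)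
                (CovZ.leaf K2_ok TB_l17499 _)))
              (CovZ.n1 (-22104, 9192) (by decide +kernel)
               (CovZ.n2 (-22080, 9192) (by decide +kernel)
                (CovZ.leaf K2_ok TB_l17500 _)
                (CovZ.leaf K2_ok TB_l17501 _))
               (CovZ.n1 (-22104, 9168) (by decide +kernel)
                (CovZ.leaf K2_ok TB_l17502 _)
                (CovZ.leaf K2_ok TB_l17503 _))))
             (CovZ.n1 (-22128, 9120) (by decide +kernel)
              (CovZ.n2 (-22152, 9144) (by decide +kernel)
               (CovZ.leaf K2_ok TB_l17504 _)
               (CovZ.n1 (-22152, 9120) (by decide +kernel)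
                (CovZ.leaf K2_ok TB_l17505 _)
                (CovZ.leaf K2_ok TB_l17506 _)))
              (CovZ.n1 (-22104, 9144) (by decide +kernel)
               (CovZ.n2 (-22104, 9120) (by decide +kernel)
                (CovZ.leaf K2_ok TB_l17507 _)
                (CovZ.leaf K2_ok TB_l17508 _))
               (CovZ.leaf K2_ok TB_l17509 _))))))))

end Pool.Agent.TET
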