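import Pool.Agent.Helper38_TET.TB_M
import Pool.Agent.Helper38_TET.TB_L
import Pool.Agent.Helper38_TET.TB_116
import Pool.Agent.Helper38_TET.TB_117
import Pool.Agent.Helper38_TET.TB_118
import Pool.Agent.Helper38_TET.TB_119
import Pool.Agent.Helper38_TET.TB_125
import Pool.Agent.Helper38_TET.TB_126
import Pool.Agent.Helper38_TET.TB_272
import Pool.Agent.Helper38_TET.TB_273
import Pool.Agent.Helper38_TET.TB_274
import Pool.Agent.Helper38_TET.TB_275
import Pool.Agent.Helper38_TET.TB_325
import Pool.Agent.Helper38_TET.TB_326
import Pool.Agent.Helper38_TET.TB_327
import Pool.Agent.Helper38_TET.TB_328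
import Pool.Agent.Helper38_TET.TB_329

/-!
# MP_c7c9bf_co: certificates, family TB
-/

set_option autoImplicit false
set_option maxRecDepth 100000

namespace Pool.Agent.TET

theorem TB_u236 : CovZ TB_M (toL (selN TB_LN 631665816743553875575859411649534728553918416570984611500306027861147795982432775058045608597469065649184861660913796)) [0, 7, 6, 1] (-22080, 9024) (-21888, 8832) (-21888, 9216) :=
    (CovZ.n1 (-21888, 9024) (by decide +kernel)
         (CovZ.subM 1233717601242206951744564851052903871113218176127006342237403522738420236283745324042643961915412838519974148448256 (by decide +kernel)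
          (CovZ.n2 (-21984, 8928) (by decide +kernel)
           (CovZ.n2 (-21984, 9024) (by decide +kernel)
            (CovZ.n2 (-21936, 8976) (by decide +kernel)
             (CovZ.n2 (-21984, 8976) (by decide +kernel)
              (CovZ.n2 (-21960, 9000) (by decide +kernel)
               (CovZ.n2 (-21960, 8976) (by decide +kernel)
                (CovZ.leaf K2_ok TB_l17510 _)
                (CovZ.leaf K2_ok TB_l17511 _))
               (CovZ.leaf K2_ok TB_l17512 _))
              (CovZ.n1 (-21960, 8952) (by decide +kernel)
               (CovZ.leaf K2_ok TB_l17513 _)
               (CovZ.n1 (-21960, 8976) (by decide +kernel)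
                (CovZ.leaf K2_ok TB_l17514 _)
                (CovZ.leaf K2_ok TB_l17515 _))))
             (CovZ.n1 (-21936, 9024) (by decide +kernel)
              (CovZ.n2 (-21912, 9000) (by decide +kernel)
               (CovZ.leaf K2_ok TB_l17516 _)
               (CovZ.n1 (-21912, 9024) (by decide +kernel)
                (CovZ.leaf K2_ok TB_l17517 _)
                (CovZ.leaf K2_ok TB_l17518 _)))
              (CovZ.n1 (-21960, 9000) (by decide +kernel)
               (CovZ.n2 (-21960, 9024) (by decide +kernel)
                (CovZ.leaf K2_ok TB_l17519 _)
                (CovZ.leaf K2_ok TB_l17520 _))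
               (CovZ.leaf K2_ok TB_l17521 _))))
            (CovZ.n1 (-22032, 8976) (by decide +kernel)
             (CovZ.n2 (-22032, 9024) (by decide +kernel)
              (CovZ.n2 (-22008, 9000) (by decide +kernel)
               (CovZ.leaf K2_ok TB_l17522 _)
               (CovZ.n1 (-22008, 9024) (by decide +kernel)
                (CovZ.leaf K2_ok TB_l17523 _)
                (CovZ.leaf K2_ok TB_l17524 _)))
              (CovZ.n1 (-22056, 9000) (by decide +kernel)
               (CovZ.n2 (-22056, 9024) (by decide +kernel)
                (CovZ.leaf K2_ok TB_l17525 _)
                (CovZ.leaf K2_ok TB_l17526 _))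
               (CovZ.leaf K2_ok TB_l17527 _)))
             (CovZ.n1 (-21984, 8976) (by decide +kernel)
              (CovZ.n2 (-22008, 8952) (by decide +kernel)
               (CovZ.leaf K2_ok TB_l17528 _)
               (CovZ.leaf K2_ok TB_l17529 _))
              (CovZ.n1 (-22008, 9000) (by decide +kernel)
               (CovZ.leaf K2_ok TB_l17530 _)
               (CovZ.n1 (-22008, 8976) (by decide +kernel)
                (CovZ.leaf K2_ok TB_l17531 _)
                (CovZ.leaf K2_ok TB_l17532 _))))))
           (CovZ.n1 (-21888, 8928) (by decide +kernel)
            (CovZ.n2 (-21936, 8880) (by decide +kernel)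
             (CovZ.n2 (-21936, 8928) (by decide +kernel)
              (CovZ.n2 (-21912, 8904) (by decide +kernel)
               (CovZ.leaf K2_ok TB_l17533 _)
               (CovZ.n1 (-21912, 8928) (by decide +kernel)
                (CovZ.leaf K2_ok TB_l17534 _)
                (CovZ.leaf K2_ok TB_l17535 _)))
              (CovZ.n1 (-21960, 8904) (by decide +kernel)
               (CovZ.n2 (-21960, 8928) (by decide +kernel)
                (CovZ.leaf K2_ok TB_l17536 _)
                (CovZ.leaf K2_ok TB_l17537 _))
               (CovZ.leaf K2_ok TB_l17538 _)))
             (CovZ.n1 (-21888, 8880) (by decide +kernel)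
              (CovZ.n2 (-21912, 8856) (by decide +kernel)
               (CovZ.leaf K2_ok TB_l17539 _)
               (CovZ.leaf K2_ok TB_l17540 _))
              (CovZ.n1 (-21912, 8904) (by decide +kernel)
               (CovZ.leaf K2_ok TB_l17541 _)
               (CovZ.leaf K2_ok TB_l17542 _))))
            (CovZ.n1 (-21936, 8976) (by decide +kernel)
             (CovZ.n2 (-21888, 8976) (by decide +kernel)
              (CovZ.n2 (-21912, 8952) (by decide +kernel)
               (CovZ.n2 (-21912, 8976) (by decide +kernel)
                (CovZ.leaf K2_ok TB_l17543 _)
                (CovZ.leaf K2_ok TB_l17544 _))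
               (CovZ.leaf K2_ok TB_l17545 _))
              (CovZ.n1 (-21912, 9000) (by decide +kernel)
               (CovZ.n2 (-21888, 9000) (by decide +kernel)
                (CovZ.leaf K2_ok TB_l17546 _)
                (CovZ.leaf K2_ok TB_l17547 _))
               (CovZ.n1 (-21912, 8976) (by decide +kernel)
                (CovZ.leaf K2_ok TB_l17548 _)
                (CovZ.leaf K2_ok TB_l17549 _))))
             (CovZ.n1 (-21936, 8928) (by decide +kernel)
              (CovZ.n2 (-21960, 8952) (by decide +kernel)
               (CovZ.leaf K2_ok TB_l17550 _)
               (CovZ.leaf K2_ok TB_l17551 _))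
              (CovZ.n1 (-21912, 8952) (by decide +kernel)
               (CovZ.n2 (-21912, 8928) (by decide +kernel)
                (CovZ.leaf K2_ok TB_l17552 _)
                (CovZ.leaf K2_ok TB_l17553 _))
               (CovZ.leaf K2_ok TB_l17554 _)))))))
         (CovZ.n1 (-21984, 9120) (by decide +kernel)
          (CovZ.subM 1233717601242206692572575359743103170511014125194866561810798007141290263461757342135878955385674916386173863600128 (by decide +kernel)
           (CovZ.n2 (-21888, 9120) (by decide +kernel)
            (CovZ.n2 (-21936, 9072) (by decide +kernel)
             (CovZ.subM 1233717601242206539499066918317257968874028885403448172493401031652054516641728466931265481859642862371029188091904 (by decide +kernel)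
              (CovZ.n2 (-21936, 9120) (by decide +kernel)
               (CovZ.n2 (-21912, 9096) (by decide +kernel)
                (CovZ.leaf K2_ok TB_l17555 _)
                (CovZ.n1 (-21912, 9120) (by decide +kernel)
                 (CovZ.leaf K2_ok TB_l17556 _)
                 (CovZ.leaf K2_ok TB_l17557 _)))
               (CovZ.n1 (-21960, 9096) (by decide +kernel)
                (CovZ.n2 (-21960, 9120) (by decide +kernel)
                 (CovZ.leaf K2_ok TB_l17558 _)
                 (CovZ.leaf K2_ok TB_l17559 _))
                (CovZ.n1 (-21936, 9096) (by decide +kernel)
                 (CovZ.leaf K2_ok TB_l17560 _)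
                 (CovZ.leaf K2_ok TB_l17561 _)))))
             (CovZ.n1 (-21888, 9072) (by decide +kernel)
              (CovZ.n2 (-21912, 9048) (by decide +kernel)
               (CovZ.n2 (-21912, 9072) (by decide +kernel)
                (CovZ.leaf K2_ok TB_l17562 _)
                (CovZ.leaf K2_ok TB_l17563 _))
               (CovZ.n1 (-21888, 9048) (by decide +kernel)
                (CovZ.leaf K2_ok TB_l17564 _)
                (CovZ.leaf K2_ok TB_l17565 _)))
              (CovZ.subM 1233717601242206539499066918317257968874028885403448172493401031652054516641728466931265481859642862371029188091904 (by decide +kernel)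
               (CovZ.n1 (-21912, 9096) (by decide +kernel)
                (CovZ.n2 (-21888, 9096) (by decide +kernel)
                 (CovZ.leaf K2_ok TB_l17566 _)
                 (CovZ.leaf K2_ok TB_l17567 _))
                (CovZ.n1 (-21912, 9072) (by decide +kernel)
                 (CovZ.leaf K2_ok TB_l17568 _)
                 (CovZ.leaf K2_ok TB_l17569 _))))))
            (CovZ.n1 (-21936, 9168) (by decide +kernel)
             (CovZ.n2 (-21888, 9168) (by decide +kernel)
              (CovZ.subM 1233717601242206540567060436277713010071539738488224229788476191024111391440864689886288963947121055484733468704768 (by decide +kernel)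
               (CovZ.n2 (-21912, 9144) (by decide +kernel)
                (CovZ.n2 (-21912, 9168) (by decide +kernel)
                 (CovZ.leaf K2_ok TB_l48760 _)
                 (CovZ.leaf K2_ok TB_l40809 _))
                (CovZ.n1 (-21888, 9144) (by decide +kernel)
                 (CovZ.leaf K2_ok TB_l40810 _)
                 (CovZ.leaf K2_ok TB_l40811 _))))
              (CovZ.n1 (-21912, 9192) (by decide +kernel)
               (CovZ.leaf K2_ok TB_l17570 _)
               (CovZ.n1 (-21912, 9168) (by decide +kernel)
                (CovZ.leaf K2_ok TB_l40812 _)
                (CovZ.leaf K2_ok TB_l40813 _))))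
             (CovZ.subM 1233717601242206539499066918317257968874028885403448172487123929915937085059227226048955973027182365416737187307520 (by decide +kernel)
              (CovZ.n1 (-21936, 9120) (by decide +kernel)
               (CovZ.n2 (-21960, 9144) (by decide +kernel)
                (CovZ.n2 (-21936, 9144) (by decide +kernel)
                 (CovZ.leaf K2_ok TB_l17571 _)
                 (CovZ.leaf K2_ok TB_l17572 _))
                (CovZ.n1 (-21960, 9120) (by decide +kernel)
                 (CovZ.leaf K2_ok TB_l17573 _)
                 (CovZ.leaf K2_ok TB_l17574 _)))
               (CovZ.n1 (-21912, 9144) (by decide +kernel)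
                (CovZ.n2 (-21912, 9120) (by decide +kernel)
                 (CovZ.leaf K2_ok TB_l17575 _)
                 (CovZ.leaf K2_ok TB_l17576 _))
                (CovZ.leaf K2_ok TB_l17577 _)))))))
          (CovZ.subM 1233717601242206678338224253176413324550439786424335673091212401122538755951552656022301859519953485667849551749120 (by decide +kernel)
           (CovZ.n1 (-21984, 9024) (by decide +kernel)
            (CovZ.n2 (-22032, 9072) (by decide +kernel)
             (CovZ.n2 (-21984, 9072) (by decide +kernel)
              (CovZ.n2 (-22008, 9048) (by decide +kernel)
               (CovZ.n2 (-22008, 9072) (by decide +kernel)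
                (CovZ.leaf K2_ok TB_l17578 _)
                (CovZ.leaf K2_ok TB_l17579 _))
               (CovZ.n1 (-21984, 9048) (by decide +kernel)
                (CovZ.leaf K2_ok TB_l17580 _)
                (CovZ.leaf K2_ok TB_l17581 _)))
              (CovZ.n1 (-22008, 9096) (by decide +kernel)
               (CovZ.n2 (-21984, 9096) (by decide +kernel)
                (CovZ.leaf K2_ok TB_l17582 _)
                (CovZ.leaf K2_ok TB_l17583 _))
               (CovZ.n1 (-22008, 9072) (by decide +kernel)
                (CovZ.leaf K2_ok TB_l17584 _)
                (CovZ.leaf K2_ok TB_l17585 _))))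
             (CovZ.n1 (-22032, 9024) (by decide +kernel)
              (CovZ.n2 (-22056, 9048) (by decide +kernel)
               (CovZ.leaf K2_ok TB_l17586 _)
               (CovZ.leaf K2_ok TB_l17587 _))
              (CovZ.n1 (-22008, 9048) (by decide +kernel)
               (CovZ.n2 (-22008, 9024) (by decide +kernel)
                (CovZ.leaf K2_ok TB_l17588 _)
                (CovZ.leaf K2_ok TB_l17589 _))
               (CovZ.leaf K2_ok TB_l17590 _))))
            (CovZ.n1 (-21936, 9072) (by decide +kernel)
             (CovZ.n2 (-21936, 9024) (by decide +kernel)
              (CovZ.n2 (-21960, 9048) (by decide +kernel)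
               (CovZ.n2 (-21936, 9048) (by decide +kernel)
                (CovZ.leaf K2_ok TB_l17591 _)
                (CovZ.leaf K2_ok TB_l17592 _))
               (CovZ.n1 (-21960, 9024) (by decide +kernel)
                (CovZ.leaf K2_ok TB_l17593 _)
                (CovZ.leaf K2_ok TB_l17594 _)))
              (CovZ.n1 (-21912, 9048) (by decide +kernel)
               (CovZ.n2 (-21912, 9024) (by decide +kernel)
                (CovZ.leaf K2_ok TB_l17595 _)
                (CovZ.leaf K2_ok TB_l17596 _))
               (CovZ.leaf K2_ok TB_l17597 _)))
             (CovZ.n1 (-21984, 9072) (by decide +kernel)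
              (CovZ.n2 (-21960, 9096) (by decide +kernel)
               (CovZ.n2 (-21960, 9072) (by decide +kernel)
                (CovZ.leaf K2_ok TB_l17598 _)
                (CovZ.leaf K2_ok TB_l17599 _))
               (CovZ.leaf K2_ok TB_l17600 _))
              (CovZ.n1 (-21960, 9048) (by decide +kernel)
               (CovZ.leaf K2_ok TB_l17601 _)
               (CovZ.n1 (-21960, 9072) (by decide +kernel)
                (CovZ.leaf K2_ok TB_l17602 _)
                (CovZ.leaf K2_ok TB_l17603 _)))))))))

theorem TB_u237 : CovZ TB_M (toL (selN TB_LN 631665816743553874756182730314244550489838192381958607022174165662988454783322555091308704918231323059618920271978628)) [0, 7, 6, 1] (-22272, 9216) (-22656, 9216) (-22656, 8832) :=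
    (CovZ.n2 (-22464, 9024) (by decide +kernel)
         (CovZ.n2 (-22656, 9024) (by decide +kernel)
          (CovZ.subM 631665816743553873388612858716202337208920867230133003087046420206307780176566133895082111160836878743827798854475780 (by decide +kernel)
           (CovZ.n2 (-22560, 9120) (by decide +kernel)
            (CovZ.n2 (-22560, 9024) (by decide +kernel)
             (CovZ.n2 (-22608, 9072) (by decide +kernel)
              (CovZ.n2 (-22560, 9072) (by decide +kernel)
               (CovZ.leaf K2_ok TB_l17604 _)
               (CovZ.leaf K2_ok TB_l17605 _))
              (CovZ.n1 (-22608, 9024) (by decide +kernel)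
               (CovZ.leaf K2_ok TB_l17606 _)
               (CovZ.leaf K2_ok TB_l17607 _)))
             (CovZ.n1 (-22512, 9072) (by decide +kernel)
              (CovZ.n2 (-22512, 9024) (by decide +kernel)
               (CovZ.leaf K2_ok TB_l17608 _)
               (CovZ.leaf K2_ok TB_l17609 _))
              (CovZ.n1 (-22560, 9072) (by decide +kernel)
               (CovZ.leaf K2_ok TB_l17610 _)
               (CovZ.leaf K2_ok TB_l17611 _))))
            (CovZ.n1 (-22656, 9120) (by decide +kernel)
             (CovZ.n2 (-22608, 9168) (by decide +kernel)
              (CovZ.n2 (-22608, 9120) (by decide +kernel)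
               (CovZ.leaf K2_ok TB_l17612 _)
               (CovZ.leaf K2_ok TB_l17613 _))
              (CovZ.n1 (-22656, 9168) (by decide +kernel)
               (CovZ.leaf K2_ok TB_l17614 _)
               (CovZ.leaf K2_ok TB_l17615 _)))
             (CovZ.n1 (-22608, 9072) (by decide +kernel)
              (CovZ.n2 (-22656, 9072) (by decide +kernel)
               (CovZ.leaf K2_ok TB_l17616 _)
               (CovZ.leaf K2_ok TB_l17617 _))
              (CovZ.n1 (-22608, 9120) (by decide +kernel)
               (CovZ.leaf K2_ok TB_l17618 _)
               (CovZ.leaf K2_ok TB_l17619 _))))))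
          (CovZ.n1 (-22560, 8928) (by decide +kernel)
           (CovZ.n2 (-22656, 8928) (by decide +kernel)
            (CovZ.n2 (-22608, 8976) (by decide +kernel)
             (CovZ.n2 (-22608, 8928) (by decide +kernel)
              (CovZ.leaf K2_ok TB_l17620 _)
              (CovZ.leaf K2_ok TB_l17621 _))
             (CovZ.leaf K2_ok TB_l17622 _))
            (CovZ.n1 (-22608, 8880) (by decide +kernel)
             (CovZ.leaf K2_ok TB_l17623 _)
             (CovZ.n1 (-22608, 8928) (by decide +kernel)
              (CovZ.leaf K2_ok TB_l17624 _)
              (CovZ.leaf K2_ok TB_l17625 _))))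
           (CovZ.subM 631665816743553873388612858716202337208920867230133003087046420206307780176566133895082111160836878743827798854475780 (by decide +kernel)
            (CovZ.n1 (-22560, 9024) (by decide +kernel)
             (CovZ.n2 (-22512, 8976) (by decide +kernel)
              (CovZ.n2 (-22560, 8976) (by decide +kernel)
               (CovZ.leaf K2_ok TB_l17626 _)
               (CovZ.leaf K2_ok TB_l17627 _))
              (CovZ.n1 (-22512, 9024) (by decide +kernel)
               (CovZ.leaf K2_ok TB_l17628 _)
               (CovZ.leaf K2_ok TB_l17629 _)))
             (CovZ.n1 (-22608, 8976) (by decide +kernel)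
              (CovZ.n2 (-22608, 9024) (by decide +kernel)
               (CovZ.leaf K2_ok TB_l17630 _)
               (CovZ.leaf K2_ok TB_l17631 _))
              (CovZ.n1 (-22560, 8976) (by decide +kernel)
               (CovZ.leaf K2_ok TB_l17632 _)
               (CovZ.leaf K2_ok TB_l17633 _)))))))
         (CovZ.n1 (-22464, 9216) (by decide +kernel)
          (CovZ.n2 (-22368, 9120) (by decide +kernel)
           (CovZ.subM 631665816743553873388612858716202337208920867230133003087046420206307780176566133895082111160836878743827798854475780 (by decide +kernel)
            (CovZ.n2 (-22464, 9120) (by decide +kernel)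
             (CovZ.n2 (-22416, 9168) (by decide +kernel)
              (CovZ.n2 (-22416, 9120) (by decide +kernel)
               (CovZ.n2 (-22440, 9144) (by decide +kernel)
                (CovZ.leaf K2_ok TB_l17634 _)
                (CovZ.leaf K2_ok TB_l17635 _))
               (CovZ.n1 (-22392, 9144) (by decide +kernel)
                (CovZ.leaf K2_ok TB_l17636 _)
                (CovZ.leaf K2_ok TB_l17637 _)))
              (CovZ.n1 (-22464, 9168) (by decide +kernel)
               (CovZ.n2 (-22440, 9192) (by decide +kernel)
                (CovZ.leaf K2_ok TB_l17638 _)
                (CovZ.leaf K2_ok TB_l17639 _))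
               (CovZ.leaf K2_ok TB_l17640 _)))
             (CovZ.n1 (-22416, 9072) (by decide +kernel)
              (CovZ.n2 (-22464, 9072) (by decide +kernel)
               (CovZ.leaf K2_ok TB_l17641 _)
               (CovZ.leaf K2_ok TB_l17642 _))
              (CovZ.n1 (-22416, 9120) (by decide +kernel)
               (CovZ.n2 (-22392, 9096) (by decide +kernel)
                (CovZ.leaf K2_ok TB_l17643 _)
                (CovZ.leaf K2_ok TB_l17644 _))
               (CovZ.n1 (-22440, 9096) (by decide +kernel)
                (CovZ.leaf K2_ok TB_l17645 _)
                (CovZ.leaf K2_ok TB_l17646 _))))))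
           (CovZ.n1 (-22368, 9216) (by decide +kernel)
            (CovZ.n2 (-22320, 9168) (by decide +kernel)
             (CovZ.subM 631665816743553873388612858716202337208920867230133003087046420206307780176566133895082111160836878743827798854475780 (by decide +kernel)
              (CovZ.n2 (-22368, 9168) (by decide +kernel)
               (CovZ.n2 (-22344, 9192) (by decide +kernel)
                (CovZ.n2 (-22344, 9168) (by decide +kernel)
                 (CovZ.leaf K2_ok TB_l17647 _)
                 (CovZ.leaf K2_ok TB_l17648 _))
                (CovZ.leaf K2_ok TB_l17649 _))
               (CovZ.n1 (-22344, 9144) (by decide +kernel)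
                (CovZ.leaf K2_ok TB_l17650 _)
                (CovZ.leaf K2_ok TB_l17651 _))))
             (CovZ.n1 (-22320, 9216) (by decide +kernel)
              (CovZ.n2 (-22296, 9192) (by decide +kernel)
               (CovZ.leaf K2_ok TB_l17652 _)
               (CovZ.n1 (-22296, 9216) (by decide +kernel)
                (CovZ.leaf K2_ok TB_l17653 _)
                (CovZ.leaf K2_ok TB_l17654 _)))
              (CovZ.n1 (-22344, 9192) (by decide +kernel)
               (CovZ.leaf K2_ok TB_l17655 _)
               (CovZ.leaf K2_ok TB_l17656 _))))
            (CovZ.subM 631665816743553873388612858716202337208920867230133003087046420206307780176566133895082111160836878743827798854475780 (by decide +kernel)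
             (CovZ.n1 (-22416, 9168) (by decide +kernel)
              (CovZ.n2 (-22416, 9216) (by decide +kernel)
               (CovZ.n2 (-22392, 9192) (by decide +kernel)
                (CovZ.leaf K2_ok TB_l17657 _)
                (CovZ.n1 (-22392, 9216) (by decide +kernel)
                 (CovZ.leaf K2_ok TB_l17658 _)
                 (CovZ.leaf K2_ok TB_l17659 _)))
               (CovZ.n1 (-22440, 9192) (by decide +kernel)
                (CovZ.leaf K2_ok TB_l17660 _)
                (CovZ.leaf K2_ok TB_l17661 _)))
              (CovZ.n1 (-22368, 9168) (by decide +kernel)
               (CovZ.n2 (-22392, 9144) (by decide +kernel)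
                (CovZ.n2 (-22392, 9168) (by decide +kernel)
                 (CovZ.leaf K2_ok TB_l17662 _)
                 (CovZ.leaf K2_ok TB_l17663 _))
                (CovZ.leaf K2_ok TB_l17664 _))
               (CovZ.n1 (-22392, 9192) (by decide +kernel)
                (CovZ.leaf K2_ok TB_l17665 _)
                (CovZ.leaf K2_ok TB_l17666 _)))))))
          (CovZ.subM 631665816743553873388612858716202337208920867230133003087046420206307780176566133895082111160836878743827798854475780 (by decide +kernel)
           (CovZ.n1 (-22560, 9120) (by decide +kernel)
            (CovZ.n2 (-22560, 9216) (by decide +kernel)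
             (CovZ.n2 (-22512, 9168) (by decide +kernel)
              (CovZ.n2 (-22560, 9168) (by decide +kernel)
               (CovZ.leaf K2_ok TB_l17667 _)
               (CovZ.n1 (-22536, 9144) (by decide +kernel)
                (CovZ.leaf K2_ok TB_l17668 _)
                (CovZ.leaf K2_ok TB_l17669 _)))
              (CovZ.n1 (-22512, 9216) (by decide +kernel)
               (CovZ.n2 (-22488, 9192) (by decide +kernel)
                (CovZ.leaf K2_ok TB_l17670 _)
                (CovZ.leaf K2_ok TB_l17671 _))
               (CovZ.n1 (-22536, 9192) (by decide +kernel)
                (CovZ.leaf K2_ok TB_l17672 _)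
                (CovZ.leaf K2_ok TB_l17673 _))))
             (CovZ.n1 (-22608, 9168) (by decide +kernel)
              (CovZ.n2 (-22608, 9216) (by decide +kernel)
               (CovZ.n2 (-22584, 9192) (by decide +kernel)
                (CovZ.leaf K2_ok TB_l17674 _)
                (CovZ.leaf K2_ok TB_l17675 _))
               (CovZ.leaf K2_ok TB_l17676 _))
              (CovZ.n1 (-22560, 9168) (by decide +kernel)
               (CovZ.leaf K2_ok TB_l17677 _)
               (CovZ.n1 (-22584, 9192) (by decide +kernel)
                (CovZ.leaf K2_ok TB_l17678 _)
                (CovZ.leaf K2_ok TB_l17679 _)))))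
            (CovZ.n1 (-22464, 9120) (by decide +kernel)
             (CovZ.n2 (-22512, 9072) (by decide +kernel)
              (CovZ.n2 (-22512, 9120) (by decide +kernel)
               (CovZ.n2 (-22488, 9096) (by decide +kernel)
                (CovZ.leaf K2_ok TB_l17680 _)
                (CovZ.leaf K2_ok TB_l17681 _))
               (CovZ.leaf K2_ok TB_l17682 _))
              (CovZ.n1 (-22464, 9072) (by decide +kernel)
               (CovZ.leaf K2_ok TB_l17683 _)
               (CovZ.n1 (-22488, 9096) (by decide +kernel)
                (CovZ.leaf K2_ok TB_l17684 _)
                (CovZ.leaf K2_ok TB_l17685 _))))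
             (CovZ.n1 (-22512, 9168) (by decide +kernel)
              (CovZ.n2 (-22464, 9168) (by decide +kernel)
               (CovZ.leaf K2_ok TB_l17686 _)
               (CovZ.n1 (-22488, 9192) (by decide +kernel)
                (CovZ.leaf K2_ok TB_l17687 _)
                (CovZ.leaf K2_ok TB_l17688 _)))
              (CovZ.n1 (-22512, 9120) (by decide +kernel)
               (CovZ.n2 (-22536, 9144) (by decide +kernel)
                (CovZ.leaf K2_ok TB_l17689 _)
                (CovZ.leaf K2_ok TB_l17690 _))
               (CovZ.leaf K2_ok TB_l17691 _))))))))

theorem TB_u238 : CovZ TB_M (toL (selN TB_LN 631665816743553874756182730314244550489838192381958607022174165662988454783322555091308704918231323059618920271978628)) [0, 7, 6, 1] (-22656, 9216) (-23040, 9216) (-22656, 8832) :=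
    (CovZ.n1 (-22848, 9024) (by decide +kernel)
         (CovZ.n2 (-22848, 9216) (by decide +kernel)
          (CovZ.subM 631665816743553873388612858716202337208920867230133003087046420206307780176566133895082111160836878743827798854475780 (by decide +kernel)
           (CovZ.n2 (-22752, 9120) (by decide +kernel)
            (CovZ.n2 (-22848, 9120) (by decide +kernel)
             (CovZ.n2 (-22800, 9168) (by decide +kernel)
              (CovZ.n2 (-22800, 9120) (by decide +kernel)
               (CovZ.leaf K2_ok TB_l17692 _)
               (CovZ.leaf K2_ok TB_l17693 _))
              (CovZ.leaf K2_ok TB_l17694 _))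
             (CovZ.n1 (-22800, 9072) (by decide +kernel)
              (CovZ.leaf K2_ok TB_l17695 _)
              (CovZ.n1 (-22800, 9120) (by decide +kernel)
               (CovZ.leaf K2_ok TB_l17696 _)
               (CovZ.leaf K2_ok TB_l17697 _))))
            (CovZ.n1 (-22752, 9216) (by decide +kernel)
             (CovZ.n2 (-22704, 9168) (by decide +kernel)
              (CovZ.n2 (-22752, 9168) (by decide +kernel)
               (CovZ.leaf K2_ok TB_l17698 _)
               (CovZ.leaf K2_ok TB_l17699 _))
              (CovZ.n1 (-22704, 9216) (by decide +kernel)
               (CovZ.leaf K2_ok TB_l17700 _)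
               (CovZ.leaf K2_ok TB_l17701 _)))
             (CovZ.n1 (-22800, 9168) (by decide +kernel)
              (CovZ.n2 (-22800, 9216) (by decide +kernel)
               (CovZ.leaf K2_ok TB_l17702 _)
               (CovZ.leaf K2_ok TB_l17703 _))
              (CovZ.n1 (-22752, 9168) (by decide +kernel)
               (CovZ.leaf K2_ok TB_l17704 _)
               (CovZ.leaf K2_ok TB_l17705 _))))))
          (CovZ.n1 (-22944, 9120) (by decide +kernel)
           (CovZ.n2 (-22944, 9216) (by decide +kernel)
            (CovZ.n2 (-22896, 9168) (by decide +kernel)
             (CovZ.leaf K2_ok TB_l17706 _)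
             (CovZ.n1 (-22896, 9216) (by decide +kernel)
              (CovZ.leaf K2_ok TB_l17707 _)
              (CovZ.leaf K2_ok TB_l17708 _)))
            (CovZ.n1 (-22992, 9168) (by decide +kernel)
             (CovZ.n2 (-22992, 9216) (by decide +kernel)
              (CovZ.leaf K2_ok TB_l17709 _)
              (CovZ.leaf K2_ok TB_l17710 _))
             (CovZ.n1 (-22944, 9168) (by decide +kernel)
              (CovZ.leaf K2_ok TB_l17711 _)
              (CovZ.leaf K2_ok TB_l17712 _))))
           (CovZ.subM 631665816743553873388612858716202337208920867230133003087046420206307780176566133895082111160836878743827798854475780 (by decide +kernel)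
            (CovZ.n1 (-22848, 9120) (by decide +kernel)
             (CovZ.n2 (-22896, 9072) (by decide +kernel)
              (CovZ.n2 (-22896, 9120) (by decide +kernel)
               (CovZ.leaf K2_ok TB_l17713 _)
               (CovZ.leaf K2_ok TB_l17714 _))
              (CovZ.leaf K2_ok TB_l17715 _))
             (CovZ.n1 (-22896, 9168) (by decide +kernel)
              (CovZ.n2 (-22848, 9168) (by decide +kernel)
               (CovZ.leaf K2_ok TB_l17716 _)
               (CovZ.leaf K2_ok TB_l17717 _))
              (CovZ.n1 (-22896, 9120) (by decide +kernel)
               (CovZ.leaf K2_ok TB_l17718 _)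
               (CovZ.leaf K2_ok TB_l17719 _)))))))
         (CovZ.n1 (-22656, 9024) (by decide +kernel)
          (CovZ.n2 (-22752, 8928) (by decide +kernel)
           (CovZ.subM 631665816743553873388612858716202337208920867230133003087046420206307780176566133895082111160836878743827798854475780 (by decide +kernel)
            (CovZ.n2 (-22752, 9024) (by decide +kernel)
             (CovZ.n2 (-22704, 8976) (by decide +kernel)
              (CovZ.leaf K2_ok TB_l17720 _)
              (CovZ.n1 (-22704, 9024) (by decide +kernel)
               (CovZ.leaf K2_ok TB_l17721 _)
               (CovZ.leaf K2_ok TB_l17722 _)))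
             (CovZ.n1 (-22800, 8976) (by decide +kernel)
              (CovZ.n2 (-22800, 9024) (by decide +kernel)
               (CovZ.leaf K2_ok TB_l17723 _)
               (CovZ.leaf K2_ok TB_l17724 _))
              (CovZ.leaf K2_ok TB_l17725 _))))
           (CovZ.n1 (-22656, 8928) (by decide +kernel)
            (CovZ.n2 (-22704, 8880) (by decide +kernel)
             (CovZ.n2 (-22704, 8928) (by decide +kernel)
              (CovZ.leaf K2_ok TB_l17726 _)
              (CovZ.leaf K2_ok TB_l17727 _))
             (CovZ.leaf K2_ok TB_l17728 _))
            (CovZ.subM 631665816743553873388612858716202337208920867230133003087046420206307780176566133895082111160836878743827798854475780 (by decide +kernel)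
             (CovZ.n1 (-22704, 8976) (by decide +kernel)
              (CovZ.n2 (-22656, 8976) (by decide +kernel)
               (CovZ.leaf K2_ok TB_l17729 _)
               (CovZ.leaf K2_ok TB_l17730 _))
              (CovZ.n1 (-22704, 8928) (by decide +kernel)
               (CovZ.leaf K2_ok TB_l17731 _)
               (CovZ.leaf K2_ok TB_l17732 _))))))
          (CovZ.subM 631665816743553873388612858716202337208920867230133003087046420206307780176566133895082111160836878743827798854475780 (by decide +kernel)
           (CovZ.n1 (-22752, 9120) (by decide +kernel)
            (CovZ.n2 (-22656, 9120) (by decide +kernel)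
             (CovZ.n2 (-22704, 9072) (by decide +kernel)
              (CovZ.n2 (-22704, 9120) (by decide +kernel)
               (CovZ.leaf K2_ok TB_l17733 _)
               (CovZ.leaf K2_ok TB_l17734 _))
              (CovZ.n1 (-22656, 9072) (by decide +kernel)
               (CovZ.leaf K2_ok TB_l17735 _)
               (CovZ.leaf K2_ok TB_l17736 _)))
             (CovZ.n1 (-22704, 9168) (by decide +kernel)
              (CovZ.n2 (-22656, 9168) (by decide +kernel)
               (CovZ.leaf K2_ok TB_l17737 _)
               (CovZ.leaf K2_ok TB_l17738 _))
              (CovZ.n1 (-22704, 9120) (by decide +kernel)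
               (CovZ.leaf K2_ok TB_l17739 _)
               (CovZ.leaf K2_ok TB_l17740 _))))
            (CovZ.n1 (-22752, 9024) (by decide +kernel)
             (CovZ.n2 (-22800, 9072) (by decide +kernel)
              (CovZ.n2 (-22752, 9072) (by decide +kernel)
               (CovZ.leaf K2_ok TB_l17741 _)
               (CovZ.leaf K2_ok TB_l17742 _))
              (CovZ.n1 (-22800, 9024) (by decide +kernel)
               (CovZ.leaf K2_ok TB_l17743 _)
               (CovZ.leaf K2_ok TB_l17744 _)))
             (CovZ.n1 (-22704, 9072) (by decide +kernel)
              (CovZ.n2 (-22704, 9024) (by decide +kernel)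
               (CovZ.leaf K2_ok TB_l17745 _)
               (CovZ.leaf K2_ok TB_l17746 _))
              (CovZ.n1 (-22752, 9072) (by decide +kernel)
               (CovZ.leaf K2_ok TB_l17747 _)
               (CovZ.leaf K2_ok TB_l17748 _))))))))

theorem TB_u239 : CovZ TB_M (toL (selN TB_LN 631665816743553874756182730314244550489838192381958607022174165662988454783322555091308704918231323059618920271978628)) [0, 7, 6, 1] (-22272, 8448) (-22272, 8832) (-22656, 8832) :=
    (CovZ.n2 (-22464, 8640) (by decide +kernel)
         (CovZ.n2 (-22464, 8832) (by decide +kernel)
          (CovZ.n2 (-22368, 8736) (by decide +kernel)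
           (CovZ.n2 (-22464, 8736) (by decide +kernel)
            (CovZ.n2 (-22416, 8784) (by decide +kernel)
             (CovZ.n2 (-22416, 8736) (by decide +kernel)
              (CovZ.leaf K2_ok TB_l17749 _)
              (CovZ.leaf K2_ok TB_l17750 _))
             (CovZ.leaf K2_ok TB_l17751 _))
            (CovZ.n1 (-22416, 8688) (by decide +kernel)
             (CovZ.leaf K2_ok TB_l17752 _)
             (CovZ.n1 (-22416, 8736) (by decide +kernel)
              (CovZ.leaf K2_ok TB_l17753 _)
              (CovZ.leaf K2_ok TB_l17754 _))))
           (CovZ.n1 (-22368, 8832) (by decide +kernel)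
            (CovZ.n2 (-22320, 8784) (by decide +kernel)
             (CovZ.leaf K2_ok TB_l17755 _)
             (CovZ.n1 (-22320, 8832) (by decide +kernel)
              (CovZ.leaf K2_ok TB_l17756 _)
              (CovZ.leaf K2_ok TB_l17757 _)))
            (CovZ.n1 (-22416, 8784) (by decide +kernel)
             (CovZ.n2 (-22416, 8832) (by decide +kernel)
              (CovZ.leaf K2_ok TB_l17758 _)
              (CovZ.leaf K2_ok TB_l17759 _))
             (CovZ.leaf K2_ok TB_l17760 _))))
          (CovZ.n1 (-22560, 8736) (by decide +kernel)
           (CovZ.n2 (-22560, 8832) (by decide +kernel)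
            (CovZ.n2 (-22512, 8784) (by decide +kernel)
             (CovZ.leaf K2_ok TB_l17761 _)
             (CovZ.n1 (-22512, 8832) (by decide +kernel)
              (CovZ.leaf K2_ok TB_l17762 _)
              (CovZ.leaf K2_ok TB_l17763 _)))
            (CovZ.n1 (-22608, 8784) (by decide +kernel)
             (CovZ.n2 (-22608, 8832) (by decide +kernel)
              (CovZ.leaf K2_ok TB_l17764 _)
              (CovZ.leaf K2_ok TB_l17765 _))
             (CovZ.leaf K2_ok TB_l17766 _)))
           (CovZ.n1 (-22464, 8736) (by decide +kernel)
            (CovZ.n2 (-22512, 8688) (by decide +kernel)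
             (CovZ.n2 (-22512, 8736) (by decide +kernel)
              (CovZ.leaf K2_ok TB_l17767 _)
              (CovZ.leaf K2_ok TB_l17768 _))
             (CovZ.leaf K2_ok TB_l17769 _))
            (CovZ.n1 (-22512, 8784) (by decide +kernel)
             (CovZ.leaf K2_ok TB_l17770 _)
             (CovZ.n1 (-22512, 8736) (by decide +kernel)
              (CovZ.leaf K2_ok TB_l17771 _)
              (CovZ.leaf K2_ok TB_l17772 _))))))
         (CovZ.n1 (-22272, 8640) (by decide +kernel)
          (CovZ.n2 (-22368, 8544) (by decide +kernel)
           (CovZ.n2 (-22368, 8640) (by decide +kernel)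
            (CovZ.n2 (-22320, 8592) (by decide +kernel)
             (CovZ.leaf K2_ok TB_l17773 _)
             (CovZ.n1 (-22320, 8640) (by decide +kernel)
              (CovZ.leaf K2_ok TB_l17774 _)
              (CovZ.leaf K2_ok TB_l17775 _)))
            (CovZ.n1 (-22416, 8592) (by decide +kernel)
             (CovZ.n2 (-22416, 8640) (by decide +kernel)
              (CovZ.leaf K2_ok TB_l17776 _)
              (CovZ.leaf K2_ok TB_l17777 _))
             (CovZ.leaf K2_ok TB_l17778 _)))
           (CovZ.subM 631663411835949077987914071968540195515872633852573325751115251478493780145023054136815353726416991385513159259332612 (by decide +kernel)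
            (CovZ.n1 (-22272, 8544) (by decide +kernel)
             (CovZ.n2 (-22320, 8496) (by decide +kernel)
              (CovZ.leaf K2_ok TB_l17779 _)
              (CovZ.leaf K2_ok TB_l17780 _))
             (CovZ.n1 (-22320, 8592) (by decide +kernel)
              (CovZ.leaf K2_ok TB_l17781 _)
              (CovZ.leaf K2_ok TB_l17782 _)))))
          (CovZ.n1 (-22368, 8736) (by decide +kernel)
           (CovZ.n2 (-22272, 8736) (by decide +kernel)
            (CovZ.n2 (-22320, 8688) (by decide +kernel)
             (CovZ.n2 (-22320, 8736) (by decide +kernel)
              (CovZ.leaf K2_ok TB_l17783 _)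
              (CovZ.leaf K2_ok TB_l17784 _))
             (CovZ.leaf K2_ok TB_l17785 _))
            (CovZ.n1 (-22320, 8784) (by decide +kernel)
             (CovZ.n2 (-22272, 8784) (by decide +kernel)
              (CovZ.leaf K2_ok TB_l17786 _)
              (CovZ.leaf K2_ok TB_l17787 _))
             (CovZ.n1 (-22320, 8736) (by decide +kernel)
              (CovZ.leaf K2_ok TB_l17788 _)
              (CovZ.leaf K2_ok TB_l17789 _))))
           (CovZ.n1 (-22368, 8640) (by decide +kernel)
            (CovZ.n2 (-22416, 8688) (by decide +kernel)
             (CovZ.leaf K2_ok TB_l17790 _)
             (CovZ.n1 (-22416, 8640) (by decide +kernel)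
              (CovZ.leaf K2_ok TB_l17791 _)
              (CovZ.leaf K2_ok TB_l17792 _)))
            (CovZ.n1 (-22320, 8688) (by decide +kernel)
             (CovZ.n2 (-22320, 8640) (by decide +kernel)
              (CovZ.leaf K2_ok TB_l17793 _)
              (CovZ.leaf K2_ok TB_l17794 _))
             (CovZ.leaf K2_ok TB_l17795 _))))))

theorem TB_u240 : CovZ TB_M (toL (selN TB_LN 631665816743553874756182730314244550489838192381958607022174165662988454783322555091308704918231323059618920271978628)) [0, 7, 6, 1] (-22272, 8832) (-22272, 9216) (-22656, 8832) :=
    (CovZ.n1 (-22464, 9024) (by decide +kernel)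
         (CovZ.n2 (-22272, 9024) (by decide +kernel)
          (CovZ.n2 (-22368, 8928) (by decide +kernel)
           (CovZ.n2 (-22368, 9024) (by decide +kernel)
            (CovZ.n2 (-22320, 8976) (by decide +kernel)
             (CovZ.n2 (-22368, 8976) (by decide +kernel)
              (CovZ.leaf K2_ok TB_l17796 _)
              (CovZ.leaf K2_ok TB_l17797 _))
             (CovZ.n1 (-22320, 9024) (by decide +kernel)
              (CovZ.n2 (-22296, 9000) (by decide +kernel)
               (CovZ.leaf K2_ok TB_l17798 _)
               (CovZ.leaf K2_ok TB_l17799 _))
              (CovZ.leaf K2_ok TB_l17800 _)))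
            (CovZ.subM 631665816743553873388612858716202337208920867230133003087046420206307780176566133895082111160836878743827798854475780 (by decide +kernel)
             (CovZ.n1 (-22416, 8976) (by decide +kernel)
              (CovZ.n2 (-22416, 9024) (by decide +kernel)
               (CovZ.leaf K2_ok TB_l17801 _)
               (CovZ.leaf K2_ok TB_l17802 _))
              (CovZ.n1 (-22368, 8976) (by decide +kernel)
               (CovZ.leaf K2_ok TB_l17803 _)
               (CovZ.leaf K2_ok TB_l17804 _)))))
           (CovZ.n1 (-22272, 8928) (by decide +kernel)
            (CovZ.n2 (-22320, 8880) (by decide +kernel)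
             (CovZ.n2 (-22320, 8928) (by decide +kernel)
              (CovZ.leaf K2_ok TB_l17805 _)
              (CovZ.leaf K2_ok TB_l17806 _))
             (CovZ.n1 (-22272, 8880) (by decide +kernel)
              (CovZ.leaf K2_ok TB_l17807 _)
              (CovZ.leaf K2_ok TB_l17808 _)))
            (CovZ.n1 (-22320, 8976) (by decide +kernel)
             (CovZ.n2 (-22272, 8976) (by decide +kernel)
              (CovZ.leaf K2_ok TB_l17809 _)
              (CovZ.n1 (-22296, 9000) (by decide +kernel)
               (CovZ.leaf K2_ok TB_l17810 _)
               (CovZ.leaf K2_ok TB_l17811 _)))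
             (CovZ.n1 (-22320, 8928) (by decide +kernel)
              (CovZ.leaf K2_ok TB_l17812 _)
              (CovZ.leaf K2_ok TB_l17813 _)))))
          (CovZ.n1 (-22368, 9120) (by decide +kernel)
           (CovZ.n2 (-22272, 9120) (by decide +kernel)
            (CovZ.n2 (-22320, 9072) (by decide +kernel)
             (CovZ.n2 (-22320, 9120) (by decide +kernel)
              (CovZ.n2 (-22296, 9096) (by decide +kernel)
               (CovZ.leaf K2_ok TB_l17814 _)
               (CovZ.leaf K2_ok TB_l17815 _))
              (CovZ.n1 (-22344, 9096) (by decide +kernel)
               (CovZ.leaf K2_ok TB_l17816 _)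
               (CovZ.leaf K2_ok TB_l17817 _)))
             (CovZ.n1 (-22272, 9072) (by decide +kernel)
              (CovZ.n2 (-22296, 9048) (by decide +kernel)
               (CovZ.leaf K2_ok TB_l17818 _)
               (CovZ.leaf K2_ok TB_l17819 _))
              (CovZ.n1 (-22296, 9096) (by decide +kernel)
               (CovZ.leaf K2_ok TB_l17820 _)
               (CovZ.leaf K2_ok TB_l17821 _))))
            (CovZ.n1 (-22320, 9168) (by decide +kernel)
             (CovZ.n2 (-22272, 9168) (by decide +kernel)
              (CovZ.n2 (-22296, 9144) (by decide +kernel)
               (CovZ.n2 (-22296, 9168) (by decide +kernel)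
                (CovZ.leaf K2_ok TB_l17822 _)
                (CovZ.leaf K2_ok TB_l17823 _))
               (CovZ.leaf K2_ok TB_l17824 _))
              (CovZ.n1 (-22296, 9192) (by decide +kernel)
               (CovZ.leaf K2_ok TB_l17825 _)
               (CovZ.n1 (-22296, 9168) (by decide +kernel)
                (CovZ.leaf K2_ok TB_l17826 _)
                (CovZ.leaf K2_ok TB_l17827 _))))
             (CovZ.n1 (-22320, 9120) (by decide +kernel)
              (CovZ.n2 (-22344, 9144) (by decide +kernel)
               (CovZ.leaf K2_ok TB_l17828 _)
               (CovZ.leaf K2_ok TB_l17829 _))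
              (CovZ.n1 (-22296, 9144) (by decide +kernel)
               (CovZ.leaf K2_ok TB_l17830 _)
               (CovZ.leaf K2_ok TB_l17831 _)))))
           (CovZ.n1 (-22368, 9024) (by decide +kernel)
            (CovZ.subM 631665816743553873388612858716202337208920867230133003087046420206307780176566133895082111160836878743827798854475780 (by decide +kernel)
             (CovZ.n2 (-22416, 9072) (by decide +kernel)
              (CovZ.n2 (-22368, 9072) (by decide +kernel)
               (CovZ.leaf K2_ok TB_l17832 _)
               (CovZ.n1 (-22392, 9096) (by decide +kernel)
                (CovZ.leaf K2_ok TB_l17833 _)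
                (CovZ.leaf K2_ok TB_l17834 _)))
              (CovZ.n1 (-22416, 9024) (by decide +kernel)
               (CovZ.leaf K2_ok TB_l17835 _)
               (CovZ.leaf K2_ok TB_l17836 _))))
            (CovZ.n1 (-22320, 9072) (by decide +kernel)
             (CovZ.n2 (-22320, 9024) (by decide +kernel)
              (CovZ.n2 (-22344, 9048) (by decide +kernel)
               (CovZ.leaf K2_ok TB_l17837 _)
               (CovZ.leaf K2_ok TB_l17838 _))
              (CovZ.n1 (-22296, 9048) (by decide +kernel)
               (CovZ.leaf K2_ok TB_l17839 _)
               (CovZ.leaf K2_ok TB_l17840 _)))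
             (CovZ.subM 631665816743553873388612858716202337208920867230133003087046420206307780176566133895082111160836878743827798854475780 (by decide +kernel)
              (CovZ.n1 (-22368, 9072) (by decide +kernel)
               (CovZ.n2 (-22344, 9096) (by decide +kernel)
                (CovZ.leaf K2_ok TB_l17841 _)
                (CovZ.leaf K2_ok TB_l17842 _))
               (CovZ.n1 (-22344, 9048) (by decide +kernel)
                (CovZ.leaf K2_ok TB_l17843 _)
                (CovZ.leaf K2_ok TB_l17844 _))))))))
         (CovZ.n1 (-22464, 8832) (by decide +kernel)
          (CovZ.n2 (-22560, 8928) (by decide +kernel)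
           (CovZ.n2 (-22464, 8928) (by decide +kernel)
            (CovZ.n2 (-22512, 8880) (by decide +kernel)
             (CovZ.n2 (-22512, 8928) (by decide +kernel)
              (CovZ.leaf K2_ok TB_l17845 _)
              (CovZ.leaf K2_ok TB_l17846 _))
             (CovZ.n1 (-22464, 8880) (by decide +kernel)
              (CovZ.leaf K2_ok TB_l17847 _)
              (CovZ.leaf K2_ok TB_l17848 _)))
            (CovZ.subM 631665816743553873388612858716202337208920867230133003087046420206307780176566133895082111160836878743827798854475780 (by decide +kernel)
             (CovZ.n1 (-22512, 8976) (by decide +kernel)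
              (CovZ.n2 (-22464, 8976) (by decide +kernel)
               (CovZ.leaf K2_ok TB_l17849 _)
               (CovZ.leaf K2_ok TB_l17850 _))
              (CovZ.n1 (-22512, 8928) (by decide +kernel)
               (CovZ.leaf K2_ok TB_l17851 _)
               (CovZ.leaf K2_ok TB_l17852 _)))))
           (CovZ.n1 (-22560, 8832) (by decide +kernel)
            (CovZ.n2 (-22608, 8880) (by decide +kernel)
             (CovZ.leaf K2_ok TB_l17853 _)
             (CovZ.n1 (-22608, 8832) (by decide +kernel)
              (CovZ.leaf K2_ok TB_l17854 _)
              (CovZ.leaf K2_ok TB_l17855 _)))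
            (CovZ.n1 (-22512, 8880) (by decide +kernel)
             (CovZ.n2 (-22512, 8832) (by decide +kernel)
              (CovZ.leaf K2_ok TB_l17856 _)
              (CovZ.leaf K2_ok TB_l17857 _))
             (CovZ.leaf K2_ok TB_l17858 _))))
          (CovZ.n1 (-22368, 8928) (by decide +kernel)
           (CovZ.n2 (-22368, 8832) (by decide +kernel)
            (CovZ.n2 (-22416, 8880) (by decide +kernel)
             (CovZ.n2 (-22368, 8880) (by decide +kernel)
              (CovZ.leaf K2_ok TB_l17859 _)
              (CovZ.leaf K2_ok TB_l17860 _))
             (CovZ.n1 (-22416, 8832) (by decide +kernel)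
              (CovZ.leaf K2_ok TB_l17861 _)
              (CovZ.leaf K2_ok TB_l17862 _)))
            (CovZ.n1 (-22320, 8880) (by decide +kernel)
             (CovZ.n2 (-22320, 8832) (by decide +kernel)
              (CovZ.leaf K2_ok TB_l17863 _)
              (CovZ.leaf K2_ok TB_l17864 _))
             (CovZ.n1 (-22368, 8880) (by decide +kernel)
              (CovZ.leaf K2_ok TB_l17865 _)
              (CovZ.leaf K2_ok TB_l17866 _))))
           (CovZ.n1 (-22464, 8928) (by decide +kernel)
            (CovZ.subM 631665816743553873388612858716202337208920867230133003087046420206307780176566133895082111160836878743827798854475780 (by decide +kernel)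
             (CovZ.n2 (-22416, 8976) (by decide +kernel)
              (CovZ.n2 (-22416, 8928) (by decide +kernel)
               (CovZ.leaf K2_ok TB_l17867 _)
               (CovZ.leaf K2_ok TB_l17868 _))
              (CovZ.n1 (-22464, 8976) (by decide +kernel)
               (CovZ.leaf K2_ok TB_l17869 _)
               (CovZ.leaf K2_ok TB_l17870 _))))
            (CovZ.n1 (-22416, 8880) (by decide +kernel)
             (CovZ.leaf K2_ok TB_l17871 _)
             (CovZ.n1 (-22416, 8928) (by decide +kernel)
              (CovZ.leaf K2_ok TB_l17872 _)
              (CovZ.leaf K2_ok TB_l17873 _)))))))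

theorem TB_u241 : CovZ TB_M (toL (selN TB_LN 9173994463960416416745784209882751724348103757822837091192328290357525178751143682293895909850166874603520)) [0, 7, 6, 1] (-19968, 8448) (-19968, 8832) (-20352, 8832) :=
    (CovZ.n2 (-20160, 8640) (by decide +kernel)
         (CovZ.n2 (-20160, 8832) (by decide +kernel)
          (CovZ.n2 (-20064, 8736) (by decide +kernel)
           (CovZ.subM 9671407709838538004496384 (by decide +kernel)
            (CovZ.n2 (-20160, 8736) (by decide +kernel)
             (CovZ.n2 (-20112, 8784) (by decide +kernel)
              (CovZ.n2 (-20112, 8736) (by decide +kernel)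
               (CovZ.n2 (-20136, 8760) (by decide +kernel)
                (CovZ.leaf K2_ok TB_l40988 _)
                (CovZ.n1 (-20136, 8736) (by decide +kernel)
                 (CovZ.leaf K2_ok TB_l40989 _)
                 (CovZ.leaf K2_ok TB_l40990 _)))
               (CovZ.n1 (-20088, 8760) (by decide +kernel)
                (CovZ.leaf K2_ok TB_l40991 _)
                (CovZ.leaf K2_ok TB_l40992 _)))
              (CovZ.n1 (-20160, 8784) (by decide +kernel)
               (CovZ.leaf K2_ok TB_l40993 _)
               (CovZ.n1 (-20136, 8760) (by decide +kernel)
                (CovZ.leaf K2_ok TB_l40994 _)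
                (CovZ.leaf K2_ok TB_l40995 _))))
             (CovZ.n1 (-20112, 8688) (by decide +kernel)
              (CovZ.badM (by decide +kernel))
              (CovZ.n1 (-20112, 8736) (by decide +kernel)
               (CovZ.n2 (-20088, 8712) (by decide +kernel)
                (CovZ.leaf K2_ok TB_l40996 _)
                (CovZ.leaf K2_ok TB_l40997 _))
               (CovZ.n1 (-20136, 8712) (by decide +kernel)
                (CovZ.n2 (-20136, 8736) (by decide +kernel)
                 (CovZ.leaf K2_ok TB_l40998 _)
                 (CovZ.leaf K2_ok TB_l40999 _))
                (CovZ.leaf K2_ok TB_l41000 _))))))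
           (CovZ.n1 (-20064, 8832) (by decide +kernel)
            (CovZ.n2 (-20016, 8784) (by decide +kernel)
             (CovZ.n2 (-20064, 8784) (by decide +kernel)
              (CovZ.leaf K2_ok TB_l41001 _)
              (CovZ.n1 (-20040, 8760) (by decide +kernel)
               (CovZ.leaf K2_ok TB_l41002 _)
               (CovZ.leaf K2_ok TB_l41003 _)))
             (CovZ.n1 (-20016, 8832) (by decide +kernel)
              (CovZ.leaf K2_ok TB_l41004 _)
              (CovZ.leaf K2_ok TB_l41005 _)))
            (CovZ.subM 9671407709838539078238208 (by decide +kernel)
             (CovZ.n1 (-20112, 8784) (by decide +kernel)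
              (CovZ.n2 (-20112, 8832) (by decide +kernel)
               (CovZ.leaf K2_ok TB_l41006 _)
               (CovZ.leaf K2_ok TB_l41007 _))
              (CovZ.n1 (-20064, 8784) (by decide +kernel)
               (CovZ.leaf K2_ok TB_l41008 _)
               (CovZ.leaf K2_ok TB_l41009 _))))))
          (CovZ.subM 9671407709838538004496384 (by decide +kernel)
           (CovZ.n1 (-20256, 8736) (by decide +kernel)
            (CovZ.n2 (-20256, 8832) (by decide +kernel)
             (CovZ.n2 (-20208, 8784) (by decide +kernel)
              (CovZ.n2 (-20256, 8784) (by decide +kernel)
               (CovZ.n2 (-20232, 8808) (by decide +kernel)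
                (CovZ.leaf K2_ok TB_l41010 _)
                (CovZ.leaf K2_ok TB_l41011 _))
               (CovZ.n1 (-20232, 8760) (by decide +kernel)
                (CovZ.badM (by decide +kernel))
                (CovZ.leaf K2_ok TB_l41012 _)))
              (CovZ.n1 (-20208, 8832) (by decide +kernel)
               (CovZ.n2 (-20184, 8808) (by decide +kernel)
                (CovZ.leaf K2_ok TB_l41013 _)
                (CovZ.leaf K2_ok TB_l41014 _))
               (CovZ.leaf K2_ok TB_l41015 _)))
             (CovZ.n1 (-20304, 8784) (by decide +kernel)
              (CovZ.n2 (-20304, 8832) (by decide +kernel)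
               (CovZ.n2 (-20280, 8808) (by decide +kernel)
                (CovZ.badM (by decide +kernel))
                (CovZ.leaf K2_ok TB_l41016 _))
               (CovZ.badM (by decide +kernel)))
              (CovZ.n1 (-20256, 8784) (by decide +kernel)
               (CovZ.badM (by decide +kernel))
               (CovZ.n1 (-20280, 8808) (by decide +kernel)
                (CovZ.leaf K2_ok TB_l41017 _)
                (CovZ.badM (by decide +kernel))))))
            (CovZ.n1 (-20160, 8736) (by decide +kernel)
             (CovZ.badM (by decide +kernel))
             (CovZ.n1 (-20208, 8784) (by decide +kernel)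
              (CovZ.n2 (-20160, 8784) (by decide +kernel)
               (CovZ.leaf K2_ok TB_l41018 _)
               (CovZ.n1 (-20184, 8808) (by decide +kernel)
                (CovZ.leaf K2_ok TB_l41019 _)
                (CovZ.leaf K2_ok TB_l41020 _)))
              (CovZ.n1 (-20208, 8736) (by decide +kernel)
               (CovZ.n2 (-20232, 8760) (by decide +kernel)
                (CovZ.leaf K2_ok TB_l41021 _)
                (CovZ.badM (by decide +kernel)))
               (CovZ.n1 (-20184, 8760) (by decide +kernel)
                (CovZ.n2 (-20184, 8736) (by decide +kernel)
                 (CovZ.leaf K2_ok TB_l41022 _)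
                 (CovZ.leaf K2_ok TB_l41023 _))
                (CovZ.leaf K2_ok TB_l41024 _))))))))
         (CovZ.n1 (-19968, 8640) (by decide +kernel)
          (CovZ.subM 9173994463960416416745784180239976879595157729388664928781060326489720349384699889631618852702683335229440 (by decide +kernel)
           (CovZ.n2 (-20064, 8544) (by decide +kernel)
            (CovZ.n2 (-20064, 8640) (by decide +kernel)
             (CovZ.n2 (-20016, 8592) (by decide +kernel)
              (CovZ.badM (by decide +kernel))
              (CovZ.n1 (-20016, 8640) (by decide +kernel)
               (CovZ.n2 (-19992, 8616) (by decide +kernel)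
                (CovZ.n2 (-20016, 8616) (by decide +kernel)
                 (CovZ.leaf K2_ok TB_l41025 _)
                 (CovZ.leaf K2_ok TB_l41026 _))
                (CovZ.n1 (-19992, 8640) (by decide +kernel)
                 (CovZ.leaf K2_ok TB_l41027 _)
                 (CovZ.leaf K2_ok TB_l41028 _)))
               (CovZ.n1 (-20040, 8616) (by decide +kernel)
                (CovZ.n2 (-20040, 8640) (by decide +kernel)
                 (CovZ.leaf K2_ok TB_l41029 _)
                 (CovZ.badM (by decide +kernel)))
                (CovZ.leaf K2_ok TB_l41030 _))))
             (CovZ.badM (by decide +kernel)))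
            (CovZ.n1 (-19968, 8544) (by decide +kernel)
             (CovZ.n2 (-20016, 8496) (by decide +kernel)
              (CovZ.n2 (-20016, 8544) (by decide +kernel)
               (CovZ.badM (by decide +kernel))
               (CovZ.badM (by decide +kernel)))
              (CovZ.badM (by decide +kernel)))
             (CovZ.n1 (-20016, 8592) (by decide +kernel)
              (CovZ.n2 (-19968, 8592) (by decide +kernel)
               (CovZ.subM 15191922107935884839572513233139853510349021988132042001976948358633791480244731904 (by decide +kernel)
                (CovZ.n2 (-19992, 8568) (by decide +kernel)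
                 (CovZ.n2 (-19992, 8592) (by decide +kernel)
                  (CovZ.leaf K2_ok TB_l41031 _)
                  (CovZ.badM (by decide +kernel)))
                 (CovZ.n1 (-19968, 8568) (by decide +kernel)
                  (CovZ.badM (by decide +kernel))
                  (CovZ.leaf K2_ok TB_l41032 _))))
               (CovZ.n1 (-19992, 8616) (by decide +kernel)
                (CovZ.leaf K2_ok TB_l41033 _)
                (CovZ.n1 (-19992, 8592) (by decide +kernel)
                 (CovZ.leaf K2_ok TB_l41034 _)
                 (CovZ.leaf K2_ok TB_l41035 _))))
              (CovZ.n1 (-20016, 8544) (by decide +kernel)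
               (CovZ.badM (by decide +kernel))
               (CovZ.n1 (-19992, 8568) (by decide +kernel)
                (CovZ.badM (by decide +kernel))
                (CovZ.badM (by decide +kernel))))))))
          (CovZ.n1 (-20064, 8736) (by decide +kernel)
           (CovZ.subM 9173994463960286046443298773130455699071099529186357634803865706569679636395941218899840556070522069188608 (by decide +kernel)
            (CovZ.n2 (-19968, 8736) (by decide +kernel)
             (CovZ.n2 (-20016, 8688) (by decide +kernel)
              (CovZ.n2 (-20016, 8736) (by decide +kernel)
               (CovZ.n2 (-19992, 8712) (by decide +kernel)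
                (CovZ.leaf K2_ok TB_l41036 _)
                (CovZ.leaf K2_ok TB_l41037 _))
               (CovZ.leaf K2_ok TB_l41038 _))
              (CovZ.n1 (-19968, 8688) (by decide +kernel)
               (CovZ.leaf K2_ok TB_l41039 _)
               (CovZ.n1 (-19992, 8712) (by decide +kernel)
                (CovZ.leaf K2_ok TB_l41040 _)
                (CovZ.leaf K2_ok TB_l41041 _))))
             (CovZ.n1 (-20016, 8784) (by decide +kernel)
              (CovZ.leaf K2_ok TB_l41042 _)
              (CovZ.n1 (-20016, 8736) (by decide +kernel)
               (CovZ.leaf K2_ok TB_l41043 _)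
               (CovZ.leaf K2_ok TB_l41044 _)))))
           (CovZ.subM 9173994463960416416745784180239976879595157729388664928781060326489720349384699899303025409619716732878848 (by decide +kernel)
            (CovZ.n1 (-20064, 8640) (by decide +kernel)
             (CovZ.subM 9671407709838538004496384 (by decide +kernel)
              (CovZ.n2 (-20112, 8688) (by decide +kernel)
               (CovZ.n2 (-20064, 8688) (by decide +kernel)
                (CovZ.n2 (-20088, 8664) (by decide +kernel)
                 (CovZ.n2 (-20088, 8688) (by decide +kernel)
                  (CovZ.leaf K2_ok TB_l41045 _)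
                  (CovZ.leaf K2_ok TB_l41046 _))
                 (CovZ.leaf K2_ok TB_l41047 _))
                (CovZ.n1 (-20088, 8712) (by decide +kernel)
                 (CovZ.leaf K2_ok TB_l41048 _)
                 (CovZ.n1 (-20088, 8688) (by decide +kernel)
                  (CovZ.leaf K2_ok TB_l41049 _)
                  (CovZ.leaf K2_ok TB_l41050 _))))
               (CovZ.badM (by decide +kernel))))
             (CovZ.n1 (-20016, 8688) (by decide +kernel)
              (CovZ.n2 (-20016, 8640) (by decide +kernel)
               (CovZ.n2 (-20040, 8664) (by decide +kernel)
                (CovZ.leaf K2_ok TB_l41051 _)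
                (CovZ.n1 (-20040, 8640) (by decide +kernel)
                 (CovZ.leaf K2_ok TB_l41052 _)
                 (CovZ.leaf K2_ok TB_l41053 _)))
               (CovZ.n1 (-19992, 8664) (by decide +kernel)
                (CovZ.n2 (-19992, 8640) (by decide +kernel)
                 (CovZ.leaf K2_ok TB_l41054 _)
                 (CovZ.leaf K2_ok TB_l41055 _))
                (CovZ.leaf K2_ok TB_l41056 _)))
              (CovZ.subM 9671407709838538004496384 (by decide +kernel)
               (CovZ.n1 (-20064, 8688) (by decide +kernel)
                (CovZ.n2 (-20040, 8712) (by decide +kernel)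
                 (CovZ.n2 (-20040, 8688) (by decide +kernel)
                  (CovZ.leaf K2_ok TB_l41057 _)
                  (CovZ.leaf K2_ok TB_l41058 _))
                 (CovZ.leaf K2_ok TB_l41059 _))
                (CovZ.n1 (-20040, 8664) (by decide +kernel)
                 (CovZ.leaf K2_ok TB_l41060 _)
                 (CovZ.n1 (-20040, 8688) (by decide +kernel)
                  (CovZ.leaf K2_ok TB_l41061 _)
                  (CovZ.leaf K2_ok TB_l41062 _)))))))))))

theorem TB_u242 : CovZ TB_M (toL (selN TB_LN 9173994463960416416745784209882751724348103757822837091192328290357525178751143682293895909850166874603520)) [0, 7, 6, 1] (-19968, 8832) (-19968, 9216) (-20352, 8832) :=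
    (CovZ.n1 (-20160, 9024) (by decide +kernel)
         (CovZ.n2 (-19968, 9024) (by decide +kernel)
          (CovZ.n2 (-20064, 8928) (by decide +kernel)
           (CovZ.n2 (-20064, 9024) (by decide +kernel)
            (CovZ.n2 (-20016, 8976) (by decide +kernel)
             (CovZ.leaf K2_ok TB_l18891 _)
             (CovZ.leaf K2_ok TB_l18892 _))
            (CovZ.leaf K2_ok TB_l18893 _))
           (CovZ.n1 (-19968, 8928) (by decide +kernel)
            (CovZ.n2 (-20016, 8880) (by decide +kernel)
             (CovZ.leaf K2_ok TB_l18894 _)
             (CovZ.leaf K2_ok TB_l18895 _))
            (CovZ.n1 (-20016, 8976) (by decide +kernel)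
             (CovZ.leaf K2_ok TB_l18896 _)
             (CovZ.leaf K2_ok TB_l18897 _))))
          (CovZ.n1 (-20064, 9120) (by decide +kernel)
           (CovZ.leaf K2_ok TB_l18898 _)
           (CovZ.n1 (-20064, 9024) (by decide +kernel)
            (CovZ.leaf K2_ok TB_l18899 _)
            (CovZ.leaf K2_ok TB_l18900 _))))
         (CovZ.n1 (-20160, 8832) (by decide +kernel)
          (CovZ.subM 9671407709838539078238208 (by decide +kernel)
           (CovZ.n2 (-20256, 8928) (by decide +kernel)
            (CovZ.n2 (-20160, 8928) (by decide +kernel)
             (CovZ.n2 (-20208, 8880) (by decide +kernel)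
              (CovZ.n2 (-20208, 8928) (by decide +kernel)
               (CovZ.leaf K2_ok TB_l18901 _)
               (CovZ.leaf K2_ok TB_l18902 _))
              (CovZ.leaf K2_ok TB_l18903 _))
             (CovZ.n1 (-20208, 8976) (by decide +kernel)
              (CovZ.leaf K2_ok TB_l18904 _)
              (CovZ.n1 (-20208, 8928) (by decide +kernel)
               (CovZ.leaf K2_ok TB_l18905 _)
               (CovZ.leaf K2_ok TB_l18906 _))))
            (CovZ.n1 (-20256, 8832) (by decide +kernel)
             (CovZ.n2 (-20304, 8880) (by decide +kernel)
              (CovZ.n2 (-20256, 8880) (by decide +kernel)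
               (CovZ.leaf K2_ok TB_l41063 _)
               (CovZ.leaf K2_ok TB_l18907 _))
              (CovZ.n1 (-20304, 8832) (by decide +kernel)
               (CovZ.n2 (-20328, 8856) (by decide +kernel)
                (CovZ.leaf K2_ok TB_l41064 _)
                (CovZ.badM (by decide +kernel)))
               (CovZ.n1 (-20280, 8856) (by decide +kernel)
                (CovZ.leaf K2_ok TB_l41065 _)
                (CovZ.leaf K2_ok TB_l41066 _))))
             (CovZ.n1 (-20208, 8880) (by decide +kernel)
              (CovZ.n2 (-20208, 8832) (by decide +kernel)
               (CovZ.n2 (-20232, 8856) (by decide +kernel)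
                (CovZ.leaf K2_ok TB_l41067 _)
                (CovZ.leaf K2_ok TB_l41068 _))
               (CovZ.leaf K2_ok TB_l41069 _))
              (CovZ.n1 (-20256, 8880) (by decide +kernel)
               (CovZ.leaf K2_ok TB_l18908 _)
               (CovZ.n1 (-20232, 8856) (by decide +kernel)
                (CovZ.leaf K2_ok TB_l41070 _)
                (CovZ.leaf K2_ok TB_l41071 _)))))))
          (CovZ.n1 (-20064, 8928) (by decide +kernel)
           (CovZ.n2 (-20064, 8832) (by decide +kernel)
            (CovZ.n2 (-20112, 8880) (by decide +kernel)
             (CovZ.leaf K2_ok TB_l18909 _)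
             (CovZ.n1 (-20112, 8832) (by decide +kernel)
              (CovZ.leaf K2_ok TB_l41072 _)
              (CovZ.leaf K2_ok TB_l41073 _)))
            (CovZ.n1 (-20016, 8880) (by decide +kernel)
             (CovZ.n2 (-20016, 8832) (by decide +kernel)
              (CovZ.leaf K2_ok TB_l18910 _)
              (CovZ.leaf K2_ok TB_l18911 _))
             (CovZ.leaf K2_ok TB_l18912 _)))
           (CovZ.subM 9671407709838539078238208 (by decide +kernel)
            (CovZ.n1 (-20160, 8928) (by decide +kernel)
             (CovZ.n2 (-20112, 8976) (by decide +kernel)
              (CovZ.leaf K2_ok TB_l18913 _)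
              (CovZ.leaf K2_ok TB_l18914 _))
             (CovZ.n1 (-20112, 8880) (by decide +kernel)
              (CovZ.leaf K2_ok TB_l18915 _)
              (CovZ.leaf K2_ok TB_l18916 _)))))))

theorem TB_u243 : CovZ TB_M (toL (selN TB_LN 1233717601242207393364056377380596433788633703451768391392102408824862518661107450930190189563775135392294607257600)) [0, 7, 6, 1] (-21312, 9024) (-21408, 8928) (-21312, 8832) :=
    (CovZ.subM 1233717601242136000125024057522936407573771138802165097648468085511129154354346209618785034509810534217006333296640 (by decide +kernel)
             (CovZ.n2 (-21312, 8928) (by decide +kernel)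
              (CovZ.n2 (-21360, 8880) (by decide +kernel)
               (CovZ.n2 (-21360, 8928) (by decide +kernel)
                (CovZ.n2 (-21336, 8904) (by decide +kernel)
                 (CovZ.n2 (-21360, 8904) (by decide +kernel)
                  (CovZ.n2 (-21348, 8916) (by decide +kernel)
                   (CovZ.n2 (-21348, 8904) (by decide +kernel)
                    (CovZ.leaf K2_ok TB_l48761 _)
                    (CovZ.leaf K2_ok TB_l48762 _))
                   (CovZ.leaf K2_ok TB_l48763 _))
                  (CovZ.n1 (-21348, 8892) (by decide +kernel)
                   (CovZ.leaf K2_ok TB_l48764 _)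
                   (CovZ.leaf K2_ok TB_l48765 _)))
                 (CovZ.n1 (-21336, 8928) (by decide +kernel)
                  (CovZ.n2 (-21324, 8916) (by decide +kernel)
                   (CovZ.leaf K2_ok TB_l48766 _)
                   (CovZ.n1 (-21324, 8928) (by decide +kernel)
                    (CovZ.leaf K2_ok TB_l48767 _)
                    (CovZ.leaf K2_ok TB_l48768 _)))
                  (CovZ.n1 (-21348, 8916) (by decide +kernel)
                   (CovZ.n2 (-21348, 8928) (by decide +kernel)
                    (CovZ.leaf K2_ok TB_l48769 _)
                    (CovZ.leaf K2_ok TB_l48770 _))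
                   (CovZ.leaf K2_ok TB_l48771 _))))
                (CovZ.n1 (-21384, 8904) (by decide +kernel)
                 (CovZ.n2 (-21384, 8928) (by decide +kernel)
                  (CovZ.n2 (-21372, 8916) (by decide +kernel)
                   (CovZ.leaf K2_ok TB_l48772 _)
                   (CovZ.n1 (-21372, 8928) (by decide +kernel)
                    (CovZ.leaf K2_ok TB_l48773 _)
                    (CovZ.leaf K2_ok TB_l48774 _)))
                  (CovZ.n1 (-21396, 8916) (by decide +kernel)
                   (CovZ.n2 (-21396, 8928) (by decide +kernel)
                    (CovZ.leaf K2_ok TB_l48775 _)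
                    (CovZ.leaf K2_ok TB_l48776 _))
                   (CovZ.leaf K2_ok TB_l48777 _)))
                 (CovZ.n1 (-21360, 8904) (by decide +kernel)
                  (CovZ.n2 (-21372, 8892) (by decide +kernel)
                   (CovZ.n2 (-21372, 8904) (by decide +kernel)
                    (CovZ.leaf K2_ok TB_l48778 _)
                    (CovZ.leaf K2_ok TB_l48779 _))
                   (CovZ.leaf K2_ok TB_l48780 _))
                  (CovZ.n1 (-21372, 8916) (by decide +kernel)
                   (CovZ.leaf K2_ok TB_l48781 _)
                   (CovZ.n1 (-21372, 8904) (by decide +kernel)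
                    (CovZ.leaf K2_ok TB_l48782 _)
                    (CovZ.leaf K2_ok TB_l48783 _))))))
               (CovZ.n1 (-21312, 8880) (by decide +kernel)
                (CovZ.n2 (-21336, 8856) (by decide +kernel)
                 (CovZ.n2 (-21336, 8880) (by decide +kernel)
                  (CovZ.n2 (-21324, 8868) (by decide +kernel)
                   (CovZ.leaf K2_ok TB_l48784 _)
                   (CovZ.n1 (-21324, 8880) (by decide +kernel)
                    (CovZ.leaf K2_ok TB_l48785 _)
                    (CovZ.leaf K2_ok TB_l48786 _)))
                  (CovZ.n1 (-21348, 8868) (by decide +kernel)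
                   (CovZ.n2 (-21348, 8880) (by decide +kernel)
                    (CovZ.leaf K2_ok TB_l48787 _)
                    (CovZ.leaf K2_ok TB_l48788 _))
                   (CovZ.n1 (-21336, 8868) (by decide +kernel)
                    (CovZ.leaf K2_ok TB_l48789 _)
                    (CovZ.leaf K2_ok TB_l48790 _))))
                 (CovZ.n1 (-21312, 8856) (by decide +kernel)
                  (CovZ.n2 (-21324, 8844) (by decide +kernel)
                   (CovZ.n2 (-21324, 8856) (by decide +kernel)
                    (CovZ.leaf K2_ok TB_l48791 _)
                    (CovZ.leaf K2_ok TB_l48792 _))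
                   (CovZ.leaf K2_ok TB_l48793 _))
                  (CovZ.n1 (-21324, 8868) (by decide +kernel)
                   (CovZ.n2 (-21312, 8868) (by decide +kernel)
                    (CovZ.leaf K2_ok TB_l48794 _)
                    (CovZ.leaf K2_ok TB_l48795 _))
                   (CovZ.n1 (-21324, 8856) (by decide +kernel)
                    (CovZ.leaf K2_ok TB_l48796 _)
                    (CovZ.leaf K2_ok TB_l48797 _)))))
                (CovZ.n1 (-21336, 8904) (by decide +kernel)
                 (CovZ.n2 (-21312, 8904) (by decide +kernel)
                  (CovZ.n2 (-21324, 8892) (by decide +kernel)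
                   (CovZ.n2 (-21324, 8904) (by decide +kernel)
                    (CovZ.leaf K2_ok TB_l48798 _)
                    (CovZ.leaf K2_ok TB_l48799 _))
                   (CovZ.leaf K2_ok TB_l48800 _))
                  (CovZ.n1 (-21324, 8916) (by decide +kernel)
                   (CovZ.n2 (-21312, 8916) (by decide +kernel)
                    (CovZ.leaf K2_ok TB_l48801 _)
                    (CovZ.leaf K2_ok TB_l48802 _))
                   (CovZ.n1 (-21324, 8904) (by decide +kernel)
                    (CovZ.leaf K2_ok TB_l48803 _)
                    (CovZ.leaf K2_ok TB_l48804 _))))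
                 (CovZ.n1 (-21336, 8880) (by decide +kernel)
                  (CovZ.n2 (-21348, 8892) (by decide +kernel)
                   (CovZ.n2 (-21336, 8892) (by decide +kernel)
                    (CovZ.leaf K2_ok TB_l48805 _)
                    (CovZ.leaf K2_ok TB_l48806 _))
                   (CovZ.leaf K2_ok TB_l48807 _))
                  (CovZ.n1 (-21324, 8892) (by decide +kernel)
                   (CovZ.n2 (-21324, 8880) (by decide +kernel)
                    (CovZ.leaf K2_ok TB_l48808 _)
                    (CovZ.leaf K2_ok TB_l48809 _))
                   (CovZ.n1 (-21336, 8892) (by decide +kernel)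
                    (CovZ.leaf K2_ok TB_l48810 _)
                    (CovZ.leaf K2_ok TB_l48811 _)))))))
              (CovZ.n1 (-21360, 8976) (by decide +kernel)
               (CovZ.n2 (-21312, 8976) (by decide +kernel)
                (CovZ.n2 (-21336, 8952) (by decide +kernel)
                 (CovZ.n2 (-21336, 8976) (by decide +kernel)
                  (CovZ.n2 (-21324, 8964) (by decide +kernel)
                   (CovZ.n2 (-21336, 8964) (by decide +kernel)
                    (CovZ.leaf K2_ok TB_l48812 _)
                    (CovZ.leaf K2_ok TB_l48813 _))
                   (CovZ.n1 (-21324, 8976) (by decide +kernel)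
                    (CovZ.n2 (-21318, 8970) (by decide +kernel)
                     (CovZ.leaf K2_ok TB_l48814 _)
                     (CovZ.leaf K2_ok TB_l48815 _))
                    (CovZ.n1 (-21330, 8970) (by decide +kernel)
                     (CovZ.leaf K2_ok TB_l48816 _)
                     (CovZ.leaf K2_ok TB_l48817 _))))
                  (CovZ.n1 (-21348, 8964) (by decide +kernel)
                   (CovZ.n2 (-21348, 8976) (by decide +kernel)
                    (CovZ.n2 (-21342, 8970) (by decide +kernel)
                     (CovZ.leaf K2_ok TB_l48818 _)
                     (CovZ.leaf K2_ok TB_l48819 _))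
                    (CovZ.leaf K2_ok TB_l48820 _))
                   (CovZ.leaf K2_ok TB_l48821 _)))
                 (CovZ.n1 (-21312, 8952) (by decide +kernel)
                  (CovZ.n2 (-21324, 8940) (by decide +kernel)
                   (CovZ.n2 (-21324, 8952) (by decide +kernel)
                    (CovZ.leaf K2_ok TB_l48822 _)
                    (CovZ.n1 (-21330, 8946) (by decide +kernel)
                     (CovZ.leaf K2_ok TB_l48823 _)
                     (CovZ.leaf K2_ok TB_l48824 _)))
                   (CovZ.n1 (-21312, 8940) (by decide +kernel)
                    (CovZ.leaf K2_ok TB_l48825 _)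
                    (CovZ.leaf K2_ok TB_l48826 _)))
                  (CovZ.n1 (-21324, 8964) (by decide +kernel)
                   (CovZ.n2 (-21312, 8964) (by decide +kernel)
                    (CovZ.n2 (-21318, 8958) (by decide +kernel)
                     (CovZ.leaf K2_ok TB_l48827 _)
                     (CovZ.leaf K2_ok TB_l48828 _))
                    (CovZ.n1 (-21318, 8970) (by decide +kernel)
                     (CovZ.leaf K2_ok TB_l48829 _)
                     (CovZ.leaf K2_ok TB_l48830 _)))
                   (CovZ.n1 (-21324, 8952) (by decide +kernel)
                    (CovZ.leaf K2_ok TB_l48831 _)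
                    (CovZ.leaf K2_ok TB_l48832 _)))))
                (CovZ.n1 (-21336, 9000) (by decide +kernel)
                 (CovZ.n2 (-21312, 9000) (by decide +kernel)
                  (CovZ.leaf K2_ok TB_l48833 _)
                  (CovZ.leaf K2_ok TB_l48834 _))
                 (CovZ.n1 (-21336, 8976) (by decide +kernel)
                  (CovZ.n2 (-21348, 8988) (by decide +kernel)
                   (CovZ.n2 (-21336, 8988) (by decide +kernel)
                    (CovZ.leaf K2_ok TB_l48835 _)
                    (CovZ.leaf K2_ok TB_l48836 _))
                   (CovZ.n1 (-21348, 8976) (by decide +kernel)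
                    (CovZ.leaf K2_ok TB_l48837 _)
                    (CovZ.leaf K2_ok TB_l48838 _)))
                  (CovZ.n1 (-21324, 8988) (by decide +kernel)
                   (CovZ.n2 (-21324, 8976) (by decide +kernel)
                    (CovZ.n2 (-21330, 8982) (by decide +kernel)
                     (CovZ.leaf K2_ok TB_l48839 _)
                     (CovZ.leaf K2_ok TB_l48840 _))
                    (CovZ.leaf K2_ok TB_l48841 _))
                   (CovZ.n1 (-21336, 8988) (by decide +kernel)
                    (CovZ.leaf K2_ok TB_l48842 _)
                    (CovZ.n1 (-21330, 8982) (by decide +kernel)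
                     (CovZ.leaf K2_ok TB_l48843 _)
                     (CovZ.leaf K2_ok TB_l48844 _)))))))
               (CovZ.n1 (-21360, 8928) (by decide +kernel)
                (CovZ.n2 (-21384, 8952) (by decide +kernel)
                 (CovZ.n2 (-21360, 8952) (by decide +kernel)
                  (CovZ.n2 (-21372, 8940) (by decide +kernel)
                   (CovZ.n2 (-21372, 8952) (by decide +kernel)
                    (CovZ.leaf K2_ok TB_l48845 _)
                    (CovZ.leaf K2_ok TB_l48846 _))
                   (CovZ.leaf K2_ok TB_l48847 _))
                  (CovZ.n1 (-21372, 8964) (by decide +kernel)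
                   (CovZ.n2 (-21360, 8964) (by decide +kernel)
                    (CovZ.leaf K2_ok TB_l48848 _)
                    (CovZ.leaf K2_ok TB_l48849 _))
                   (CovZ.leaf K2_ok TB_l48850 _)))
                 (CovZ.n1 (-21384, 8928) (by decide +kernel)
                  (CovZ.n2 (-21396, 8940) (by decide +kernel)
                   (CovZ.leaf K2_ok TB_l48851 _)
                   (CovZ.leaf K2_ok TB_l48852 _))
                  (CovZ.n1 (-21372, 8940) (by decide +kernel)
                   (CovZ.n2 (-21372, 8928) (by decide +kernel)
                    (CovZ.leaf K2_ok TB_l48853 _)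
                    (CovZ.leaf K2_ok TB_l48854 _))
                   (CovZ.leaf K2_ok TB_l48855 _))))
                (CovZ.n1 (-21336, 8952) (by decide +kernel)
                 (CovZ.n2 (-21336, 8928) (by decide +kernel)
                  (CovZ.n2 (-21348, 8940) (by decide +kernel)
                   (CovZ.leaf K2_ok TB_l48856 _)
                   (CovZ.n1 (-21348, 8928) (by decide +kernel)
                    (CovZ.leaf K2_ok TB_l48857 _)
                    (CovZ.leaf K2_ok TB_l48858 _)))
                  (CovZ.n1 (-21324, 8940) (by decide +kernel)
                   (CovZ.n2 (-21324, 8928) (by decide +kernel)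
                    (CovZ.leaf K2_ok TB_l48859 _)
                    (CovZ.leaf K2_ok TB_l48860 _))
                   (CovZ.n1 (-21336, 8940) (by decide +kernel)
                    (CovZ.leaf K2_ok TB_l48861 _)
                    (CovZ.leaf K2_ok TB_l48862 _))))
                 (CovZ.n1 (-21360, 8952) (by decide +kernel)
                  (CovZ.n2 (-21348, 8964) (by decide +kernel)
                   (CovZ.n2 (-21348, 8952) (by decide +kernel)
                    (CovZ.leaf K2_ok TB_l48863 _)
                    (CovZ.leaf K2_ok TB_l48864 _))
                   (CovZ.leaf K2_ok TB_l48865 _))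
                  (CovZ.n1 (-21348, 8940) (by decide +kernel)
                   (CovZ.n2 (-21360, 8940) (by decide +kernel)
                    (CovZ.leaf K2_ok TB_l48866 _)
                    (CovZ.leaf K2_ok TB_l48867 _))
                   (CovZ.n1 (-21348, 8952) (by decide +kernel)
                    (CovZ.leaf K2_ok TB_l48868 _)
                    (CovZ.leaf K2_ok TB_l48869 _)))))))))

theorem TB_u244 : CovZ TB_M (toL (selN TB_LN 1233717601242207393364056377380596433788633703451768391392102408824862518661107450930190189563775135392294607257600)) [0, 7, 6, 1] (-21408, 8928) (-21504, 8832) (-21312, 8832) :=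
    (CovZ.n1 (-21408, 8832) (by decide +kernel)
             (CovZ.n2 (-21456, 8880) (by decide +kernel)
              (CovZ.subM 1231312693637375594899665229391824126457738439872082978100863819556280172312628850572678206735464531065101631881216 (by decide +kernel)
               (CovZ.n2 (-21408, 8880) (by decide +kernel)
                (CovZ.n2 (-21432, 8856) (by decide +kernel)
                 (CovZ.n2 (-21432, 8880) (by decide +kernel)
                  (CovZ.n2 (-21420, 8868) (by decide +kernel)
                   (CovZ.leaf K2_ok TB_l48870 _)
                   (CovZ.leaf K2_ok TB_l48871 _))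
                  (CovZ.leaf K2_ok TB_l48872 _))
                 (CovZ.n1 (-21408, 8856) (by decide +kernel)
                  (CovZ.leaf K2_ok TB_l48873 _)
                  (CovZ.n1 (-21420, 8868) (by decide +kernel)
                   (CovZ.leaf K2_ok TB_l48874 _)
                   (CovZ.leaf K2_ok TB_l48875 _))))
                (CovZ.n1 (-21432, 8904) (by decide +kernel)
                 (CovZ.n2 (-21408, 8904) (by decide +kernel)
                  (CovZ.leaf K2_ok TB_l48876 _)
                  (CovZ.n1 (-21420, 8916) (by decide +kernel)
                   (CovZ.leaf K2_ok TB_l48877 _)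
                   (CovZ.leaf K2_ok TB_l48878 _)))
                 (CovZ.n1 (-21432, 8880) (by decide +kernel)
                  (CovZ.n2 (-21444, 8892) (by decide +kernel)
                   (CovZ.leaf K2_ok TB_l48879 _)
                   (CovZ.leaf K2_ok TB_l48880 _))
                  (CovZ.leaf K2_ok TB_l48881 _)))))
              (CovZ.n1 (-21456, 8832) (by decide +kernel)
               (CovZ.n2 (-21480, 8856) (by decide +kernel)
                (CovZ.n2 (-21456, 8856) (by decide +kernel)
                 (CovZ.leaf K2_ok TB_l48882 _)
                 (CovZ.n1 (-21468, 8868) (by decide +kernel)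
                  (CovZ.leaf K2_ok TB_l48883 _)
                  (CovZ.leaf K2_ok TB_l48884 _)))
                (CovZ.n1 (-21480, 8832) (by decide +kernel)
                 (CovZ.leaf K2_ok TB_l18919 _)
                 (CovZ.leaf K2_ok TB_l41209 _)))
               (CovZ.subM 1231312693637375594899665229391824126457738439872082978100863819556280172312628850572678206735464531065101631881216 (by decide +kernel)
                (CovZ.n1 (-21432, 8856) (by decide +kernel)
                 (CovZ.n2 (-21432, 8832) (by decide +kernel)
                  (CovZ.n2 (-21444, 8844) (by decide +kernel)
                   (CovZ.leaf K2_ok TB_l48885 _)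
                   (CovZ.leaf K2_ok TB_l48886 _))
                  (CovZ.leaf K2_ok TB_l48887 _))
                 (CovZ.n1 (-21456, 8856) (by decide +kernel)
                  (CovZ.n2 (-21444, 8868) (by decide +kernel)
                   (CovZ.leaf K2_ok TB_l48888 _)
                   (CovZ.leaf K2_ok TB_l48889 _))
                  (CovZ.n1 (-21444, 8844) (by decide +kernel)
                   (CovZ.leaf K2_ok TB_l48890 _)
                   (CovZ.leaf K2_ok TB_l48891 _)))))))
             (CovZ.subM 1231312693637375594899665229391824126457738439872082978100863819556280172312628850572678206735464531065101631881216 (by decide +kernel)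
              (CovZ.n1 (-21360, 8880) (by decide +kernel)
               (CovZ.n2 (-21360, 8832) (by decide +kernel)
                (CovZ.n2 (-21384, 8856) (by decide +kernel)
                 (CovZ.n2 (-21360, 8856) (by decide +kernel)
                  (CovZ.n2 (-21372, 8844) (by decide +kernel)
                   (CovZ.leaf K2_ok TB_l48892 _)
                   (CovZ.leaf K2_ok TB_l48893 _))
                  (CovZ.n1 (-21372, 8868) (by decide +kernel)
                   (CovZ.leaf K2_ok TB_l48894 _)
                   (CovZ.leaf K2_ok TB_l48895 _)))
                 (CovZ.n1 (-21384, 8832) (by decide +kernel)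
                  (CovZ.n2 (-21396, 8844) (by decide +kernel)
                   (CovZ.leaf K2_ok TB_l48896 _)
                   (CovZ.leaf K2_ok TB_l48897 _))
                  (CovZ.n1 (-21372, 8844) (by decide +kernel)
                   (CovZ.leaf K2_ok TB_l48898 _)
                   (CovZ.leaf K2_ok TB_l48899 _))))
                (CovZ.n1 (-21336, 8856) (by decide +kernel)
                 (CovZ.n2 (-21336, 8832) (by decide +kernel)
                  (CovZ.n2 (-21348, 8844) (by decide +kernel)
                   (CovZ.leaf K2_ok TB_l48900 _)
                   (CovZ.leaf K2_ok TB_l48901 _))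
                  (CovZ.n1 (-21324, 8844) (by decide +kernel)
                   (CovZ.n2 (-21324, 8832) (by decide +kernel)
                    (CovZ.leaf K2_ok TB_l48902 _)
                    (CovZ.leaf K2_ok TB_l48903 _))
                   (CovZ.n1 (-21336, 8844) (by decide +kernel)
                    (CovZ.leaf K2_ok TB_l48904 _)
                    (CovZ.leaf K2_ok TB_l48905 _))))
                 (CovZ.n1 (-21360, 8856) (by decide +kernel)
                  (CovZ.n2 (-21348, 8868) (by decide +kernel)
                   (CovZ.leaf K2_ok TB_l48906 _)
                   (CovZ.leaf K2_ok TB_l48907 _))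
                  (CovZ.n1 (-21348, 8844) (by decide +kernel)
                   (CovZ.leaf K2_ok TB_l48908 _)
                   (CovZ.n1 (-21348, 8856) (by decide +kernel)
                    (CovZ.leaf K2_ok TB_l48909 _)
                    (CovZ.leaf K2_ok TB_l48910 _))))))
               (CovZ.n1 (-21408, 8880) (by decide +kernel)
                (CovZ.n2 (-21384, 8904) (by decide +kernel)
                 (CovZ.n2 (-21384, 8880) (by decide +kernel)
                  (CovZ.n2 (-21396, 8892) (by decide +kernel)
                   (CovZ.leaf K2_ok TB_l48911 _)
                   (CovZ.leaf K2_ok TB_l48912 _))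
                  (CovZ.n1 (-21372, 8892) (by decide +kernel)
                   (CovZ.n2 (-21372, 8880) (by decide +kernel)
                    (CovZ.leaf K2_ok TB_l48913 _)
                    (CovZ.leaf K2_ok TB_l48914 _))
                   (CovZ.leaf K2_ok TB_l48915 _)))
                 (CovZ.n1 (-21408, 8904) (by decide +kernel)
                  (CovZ.n2 (-21396, 8916) (by decide +kernel)
                   (CovZ.leaf K2_ok TB_l48916 _)
                   (CovZ.leaf K2_ok TB_l48917 _))
                  (CovZ.n1 (-21396, 8892) (by decide +kernel)
                   (CovZ.leaf K2_ok TB_l48918 _)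
                   (CovZ.leaf K2_ok TB_l48919 _))))
                (CovZ.n1 (-21384, 8856) (by decide +kernel)
                 (CovZ.n2 (-21408, 8856) (by decide +kernel)
                  (CovZ.n2 (-21396, 8868) (by decide +kernel)
                   (CovZ.leaf K2_ok TB_l48920 _)
                   (CovZ.leaf K2_ok TB_l48921 _))
                  (CovZ.n1 (-21396, 8844) (by decide +kernel)
                   (CovZ.leaf K2_ok TB_l48922 _)
                   (CovZ.leaf K2_ok TB_l48923 _)))
                 (CovZ.n1 (-21384, 8880) (by decide +kernel)
                  (CovZ.n2 (-21372, 8868) (by decide +kernel)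
                   (CovZ.leaf K2_ok TB_l48924 _)
                   (CovZ.n1 (-21372, 8880) (by decide +kernel)
                    (CovZ.leaf K2_ok TB_l48925 _)
                    (CovZ.leaf K2_ok TB_l48926 _)))
                  (CovZ.n1 (-21396, 8868) (by decide +kernel)
                   (CovZ.leaf K2_ok TB_l48927 _)
                   (CovZ.leaf K2_ok TB_l48928 _))))))))

theorem TB_u245 : CovZ TB_M (toL (selN TB_LN 1233717601242136000125024057522936407573771138802165097648468085511129154354346209618785034509810534217006333296640)) [0, 7, 6, 1] (-21312, 8832) (-21264, 8880) (-21312, 8928) :=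
    (CovZ.n2 (-21312, 8880) (by decide +kernel)
                (CovZ.n2 (-21288, 8904) (by decide +kernel)
                 (CovZ.n2 (-21288, 8880) (by decide +kernel)
                  (CovZ.n2 (-21300, 8892) (by decide +kernel)
                   (CovZ.n2 (-21288, 8892) (by decide +kernel)
                    (CovZ.leaf K2_ok TB_l49062 _)
                    (CovZ.n1 (-21294, 8898) (by decide +kernel)
                     (CovZ.leaf K2_ok TB_l49063 _)
                     (CovZ.leaf K2_ok TB_l49064 _)))
                   (CovZ.n1 (-21300, 8880) (by decide +kernel)
                    (CovZ.leaf K2_ok TB_l49065 _)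
                    (CovZ.leaf K2_ok TB_l49066 _)))
                  (CovZ.n1 (-21276, 8892) (by decide +kernel)
                   (CovZ.n2 (-21276, 8880) (by decide +kernel)
                    (CovZ.leaf K2_ok TB_l49067 _)
                    (CovZ.n1 (-21270, 8886) (by decide +kernel)
                     (CovZ.leaf K2_ok TB_l49068 _)
                     (CovZ.leaf K2_ok TB_l49069 _)))
                   (CovZ.n1 (-21288, 8892) (by decide +kernel)
                    (CovZ.n2 (-21282, 8898) (by decide +kernel)
                     (CovZ.leaf K2_ok TB_l49070 _)
                     (CovZ.leaf K2_ok TB_l49071 _))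
                    (CovZ.n1 (-21282, 8886) (by decide +kernel)
                     (CovZ.leaf K2_ok TB_l49072 _)
                     (CovZ.leaf K2_ok TB_l49073 _)))))
                 (CovZ.n1 (-21312, 8904) (by decide +kernel)
                  (CovZ.n2 (-21300, 8916) (by decide +kernel)
                   (CovZ.n2 (-21300, 8904) (by decide +kernel)
                    (CovZ.leaf K2_ok TB_l49074 _)
                    (CovZ.leaf K2_ok TB_l49075 _))
                   (CovZ.n1 (-21312, 8916) (by decide +kernel)
                    (CovZ.leaf K2_ok TB_l49076 _)
                    (CovZ.leaf K2_ok TB_l49077 _)))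
                  (CovZ.n1 (-21300, 8892) (by decide +kernel)
                   (CovZ.leaf K2_ok TB_l49078 _)
                   (CovZ.n1 (-21300, 8904) (by decide +kernel)
                    (CovZ.leaf K2_ok TB_l49079 _)
                    (CovZ.leaf K2_ok TB_l49080 _)))))
                (CovZ.n1 (-21288, 8856) (by decide +kernel)
                 (CovZ.n2 (-21312, 8856) (by decide +kernel)
                  (CovZ.n2 (-21300, 8868) (by decide +kernel)
                   (CovZ.n2 (-21300, 8856) (by decide +kernel)
                    (CovZ.leaf K2_ok TB_l49081 _)
                    (CovZ.leaf K2_ok TB_l49082 _))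
                   (CovZ.leaf K2_ok TB_l49083 _))
                  (CovZ.n1 (-21300, 8844) (by decide +kernel)
                   (CovZ.n2 (-21312, 8844) (by decide +kernel)
                    (CovZ.leaf K2_ok TB_l49084 _)
                    (CovZ.leaf K2_ok TB_l49085 _))
                   (CovZ.n1 (-21300, 8856) (by decide +kernel)
                    (CovZ.leaf K2_ok TB_l49086 _)
                    (CovZ.leaf K2_ok TB_l49087 _))))
                 (CovZ.n1 (-21288, 8880) (by decide +kernel)
                  (CovZ.n2 (-21276, 8868) (by decide +kernel)
                   (CovZ.n2 (-21288, 8868) (by decide +kernel)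
                    (CovZ.leaf K2_ok TB_l49088 _)
                    (CovZ.leaf K2_ok TB_l49089 _))
                   (CovZ.n1 (-21276, 8880) (by decide +kernel)
                    (CovZ.n2 (-21270, 8874) (by decide +kernel)
                     (CovZ.leaf K2_ok TB_l49090 _)
                     (CovZ.leaf K2_ok TB_l49091 _))
                    (CovZ.n1 (-21282, 8874) (by decide +kernel)
                     (CovZ.leaf K2_ok TB_l49092 _)
                     (CovZ.leaf K2_ok TB_l49093 _))))
                  (CovZ.n1 (-21300, 8868) (by decide +kernel)
                   (CovZ.n2 (-21300, 8880) (by decide +kernel)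
                    (CovZ.n2 (-21294, 8874) (by decide +kernel)
                     (CovZ.leaf K2_ok TB_l49094 _)
                     (CovZ.leaf K2_ok TB_l49095 _))
                    (CovZ.leaf K2_ok TB_l49096 _))
                   (CovZ.n1 (-21288, 8868) (by decide +kernel)
                    (CovZ.leaf K2_ok TB_l49097 _)
                    (CovZ.n1 (-21294, 8874) (by decide +kernel)
                     (CovZ.leaf K2_ok TB_l49098 _)
                     (CovZ.leaf K2_ok TB_l49099 _)))))))

theorem TB_u246 : CovZ TB_M (toL (selN TB_LN 1233717601242136000125024057522936407573771138802165097648468085511129154354346209618785034509810534217006333296640)) [0, 7, 6, 1] (-21264, 8880) (-21216, 8928) (-21312, 8928) :=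
    (CovZ.n1 (-21264, 8928) (by decide +kernel)
                (CovZ.n2 (-21240, 8904) (by decide +kernel)
                 (CovZ.n2 (-21264, 8904) (by decide +kernel)
                  (CovZ.n2 (-21252, 8916) (by decide +kernel)
                   (CovZ.n2 (-21252, 8904) (by decide +kernel)
                    (CovZ.n2 (-21258, 8910) (by decide +kernel)
                     (CovZ.n2 (-21252, 8910) (by decide +kernel)
                      (CovZ.n2 (-21255, 8907) (by decide +kernel)
                       (CovZ.leaf K2_ok TB_l49100 _)
                       (CovZ.leaf K2_ok TB_l49101 _))
                      (CovZ.n1 (-21255, 8913) (by decide +kernel)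
                       (CovZ.leaf K2_ok TB_l49102 _)
                       (CovZ.leaf K2_ok TB_l49103 _)))
                     (CovZ.n1 (-21258, 8904) (by decide +kernel)
                      (CovZ.leaf K2_ok TB_l49104 _)
                      (CovZ.leaf K2_ok TB_l49105 _)))
                    (CovZ.n1 (-21246, 8910) (by decide +kernel)
                     (CovZ.n2 (-21246, 8904) (by decide +kernel)
                      (CovZ.leaf K2_ok TB_l49106 _)
                      (CovZ.leaf K2_ok TB_l49107 _))
                     (CovZ.n1 (-21252, 8910) (by decide +kernel)
                      (CovZ.leaf K2_ok TB_l49108 _)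
                      (CovZ.leaf K2_ok TB_l49109 _))))
                   (CovZ.n1 (-21264, 8916) (by decide +kernel)
                    (CovZ.n2 (-21258, 8922) (by decide +kernel)
                     (CovZ.leaf K2_ok TB_l49110 _)
                     (CovZ.leaf K2_ok TB_l49111 _))
                    (CovZ.n1 (-21258, 8910) (by decide +kernel)
                     (CovZ.n2 (-21264, 8910) (by decide +kernel)
                      (CovZ.leaf K2_ok TB_l49112 _)
                      (CovZ.leaf K2_ok TB_l49113 _))
                     (CovZ.leaf K2_ok TB_l49114 _))))
                  (CovZ.n1 (-21252, 8892) (by decide +kernel)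
                   (CovZ.n2 (-21264, 8892) (by decide +kernel)
                    (CovZ.leaf K2_ok TB_l49115 _)
                    (CovZ.n1 (-21258, 8886) (by decide +kernel)
                     (CovZ.leaf K2_ok TB_l49116 _)
                     (CovZ.n1 (-21258, 8892) (by decide +kernel)
                      (CovZ.leaf K2_ok TB_l49117 _)
                      (CovZ.leaf K2_ok TB_l49118 _))))
                   (CovZ.n1 (-21252, 8904) (by decide +kernel)
                    (CovZ.n2 (-21246, 8898) (by decide +kernel)
                     (CovZ.leaf K2_ok TB_l49119 _)
                     (CovZ.n1 (-21246, 8904) (by decide +kernel)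
                      (CovZ.leaf K2_ok TB_l49120 _)
                      (CovZ.leaf K2_ok TB_l49121 _)))
                    (CovZ.n1 (-21258, 8898) (by decide +kernel)
                     (CovZ.n2 (-21258, 8904) (by decide +kernel)
                      (CovZ.n2 (-21255, 8901) (by decide +kernel)
                       (CovZ.leaf K2_ok TB_l49122 _)
                       (CovZ.leaf K2_ok TB_l49123 _))
                      (CovZ.leaf K2_ok TB_l49124 _))
                     (CovZ.leaf K2_ok TB_l49125 _)))))
                 (CovZ.n1 (-21240, 8928) (by decide +kernel)
                  (CovZ.n2 (-21228, 8916) (by decide +kernel)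
                   (CovZ.n2 (-21240, 8916) (by decide +kernel)
                    (CovZ.n2 (-21234, 8922) (by decide +kernel)
                     (CovZ.n2 (-21234, 8916) (by decide +kernel)
                      (CovZ.n2 (-21237, 8919) (by decide +kernel)
                       (CovZ.n2 (-21234, 8919) (by decide +kernel)
                        (CovZ.leaf K2_ok TB_l49126 _)
                        (CovZ.leaf K2_ok TB_l49127 _))
                       (CovZ.leaf K2_ok TB_l49128 _))
                      (CovZ.leaf K2_ok TB_l49129 _))
                     (CovZ.leaf K2_ok TB_l49130 _))
                    (CovZ.n1 (-21234, 8910) (by decide +kernel)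
                     (CovZ.leaf K2_ok TB_l49131 _)
                     (CovZ.n1 (-21234, 8916) (by decide +kernel)
                      (CovZ.badM (by decide +kernel))
                      (CovZ.leaf K2_ok TB_l49132 _))))
                   (CovZ.n1 (-21228, 8928) (by decide +kernel)
                    (CovZ.badM (by decide +kernel))
                    (CovZ.n1 (-21234, 8922) (by decide +kernel)
                     (CovZ.n2 (-21234, 8928) (by decide +kernel)
                      (CovZ.leaf K2_ok TB_l49133 _)
                      (CovZ.leaf K2_ok TB_l49134 _))
                     (CovZ.n1 (-21228, 8922) (by decide +kernel)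
                      (CovZ.leaf K2_ok TB_l49135 _)
                      (CovZ.n1 (-21231, 8925) (by decide +kernel)
                       (CovZ.badM (by decide +kernel))
                       (CovZ.n1 (-21231, 8922) (by decide +kernel)
                        (CovZ.leaf K2_ok TB_l49136 _)
                        (CovZ.badM (by decide +kernel))))))))
                  (CovZ.n1 (-21252, 8916) (by decide +kernel)
                   (CovZ.n2 (-21252, 8928) (by decide +kernel)
                    (CovZ.n2 (-21246, 8922) (by decide +kernel)
                     (CovZ.leaf K2_ok TB_l49137 _)
                     (CovZ.n1 (-21246, 8928) (by decide +kernel)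
                      (CovZ.n2 (-21243, 8925) (by decide +kernel)
                       (CovZ.leaf K2_ok TB_l49138 _)
                       (CovZ.leaf K2_ok TB_l49139 _))
                      (CovZ.leaf K2_ok TB_l49140 _)))
                    (CovZ.n1 (-21258, 8922) (by decide +kernel)
                     (CovZ.n2 (-21258, 8928) (by decide +kernel)
                      (CovZ.leaf K2_ok TB_l49141 _)
                      (CovZ.leaf K2_ok TB_l49142 _))
                     (CovZ.n1 (-21252, 8922) (by decide +kernel)
                      (CovZ.leaf K2_ok TB_l49143 _)
                      (CovZ.n1 (-21255, 8925) (by decide +kernel)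
                       (CovZ.leaf K2_ok TB_l49144 _)
                       (CovZ.leaf K2_ok TB_l49145 _)))))
                   (CovZ.n1 (-21240, 8916) (by decide +kernel)
                    (CovZ.n2 (-21246, 8910) (by decide +kernel)
                     (CovZ.n2 (-21246, 8916) (by decide +kernel)
                      (CovZ.leaf K2_ok TB_l49146 _)
                      (CovZ.leaf K2_ok TB_l49147 _))
                     (CovZ.leaf K2_ok TB_l49148 _))
                    (CovZ.n1 (-21246, 8922) (by decide +kernel)
                     (CovZ.n2 (-21240, 8922) (by decide +kernel)
                      (CovZ.leaf K2_ok TB_l49149 _)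
                      (CovZ.n1 (-21243, 8925) (by decide +kernel)
                       (CovZ.leaf K2_ok TB_l49150 _)
                       (CovZ.leaf K2_ok TB_l49151 _)))
                     (CovZ.leaf K2_ok TB_l49152 _))))))
                (CovZ.n1 (-21288, 8904) (by decide +kernel)
                 (CovZ.n2 (-21288, 8928) (by decide +kernel)
                  (CovZ.n2 (-21276, 8916) (by decide +kernel)
                   (CovZ.n2 (-21288, 8916) (by decide +kernel)
                    (CovZ.n2 (-21282, 8922) (by decide +kernel)
                     (CovZ.leaf K2_ok TB_l49153 _)
                     (CovZ.leaf K2_ok TB_l49154 _))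
                    (CovZ.n1 (-21282, 8910) (by decide +kernel)
                     (CovZ.leaf K2_ok TB_l49155 _)
                     (CovZ.leaf K2_ok TB_l49156 _)))
                   (CovZ.n1 (-21276, 8928) (by decide +kernel)
                    (CovZ.n2 (-21270, 8922) (by decide +kernel)
                     (CovZ.leaf K2_ok TB_l49157 _)
                     (CovZ.n1 (-21270, 8928) (by decide +kernel)
                      (CovZ.leaf K2_ok TB_l49158 _)
                      (CovZ.leaf K2_ok TB_l49159 _)))
                    (CovZ.n1 (-21282, 8922) (by decide +kernel)
                     (CovZ.leaf K2_ok TB_l49160 _)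
                     (CovZ.leaf K2_ok TB_l49161 _))))
                  (CovZ.n1 (-21300, 8916) (by decide +kernel)
                   (CovZ.n2 (-21300, 8928) (by decide +kernel)
                    (CovZ.n2 (-21294, 8922) (by decide +kernel)
                     (CovZ.leaf K2_ok TB_l49162 _)
                     (CovZ.leaf K2_ok TB_l49163 _))
                    (CovZ.leaf K2_ok TB_l49164 _))
                   (CovZ.n1 (-21288, 8916) (by decide +kernel)
                    (CovZ.leaf K2_ok TB_l49165 _)
                    (CovZ.n1 (-21294, 8922) (by decide +kernel)
                     (CovZ.leaf K2_ok TB_l49166 _)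
                     (CovZ.leaf K2_ok TB_l49167 _)))))
                 (CovZ.n1 (-21264, 8904) (by decide +kernel)
                  (CovZ.n2 (-21276, 8892) (by decide +kernel)
                   (CovZ.n2 (-21276, 8904) (by decide +kernel)
                    (CovZ.leaf K2_ok TB_l49168 _)
                    (CovZ.n1 (-21282, 8898) (by decide +kernel)
                     (CovZ.leaf K2_ok TB_l49169 _)
                     (CovZ.leaf K2_ok TB_l49170 _)))
                   (CovZ.n1 (-21264, 8892) (by decide +kernel)
                    (CovZ.leaf K2_ok TB_l49171 _)
                    (CovZ.n1 (-21270, 8898) (by decide +kernel)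
                     (CovZ.leaf K2_ok TB_l49172 _)
                     (CovZ.leaf K2_ok TB_l49173 _))))
                  (CovZ.n1 (-21276, 8916) (by decide +kernel)
                   (CovZ.n2 (-21264, 8916) (by decide +kernel)
                    (CovZ.n2 (-21270, 8910) (by decide +kernel)
                     (CovZ.n2 (-21270, 8916) (by decide +kernel)
                      (CovZ.leaf K2_ok TB_l49174 _)
                      (CovZ.leaf K2_ok TB_l49175 _))
                     (CovZ.leaf K2_ok TB_l49176 _))
                    (CovZ.n1 (-21270, 8922) (by decide +kernel)
                     (CovZ.leaf K2_ok TB_l49177 _)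
                     (CovZ.leaf K2_ok TB_l49178 _)))
                   (CovZ.n1 (-21276, 8904) (by decide +kernel)
                    (CovZ.n2 (-21282, 8910) (by decide +kernel)
                     (CovZ.leaf K2_ok TB_l49179 _)
                     (CovZ.leaf K2_ok TB_l49180 _))
                    (CovZ.n1 (-21270, 8910) (by decide +kernel)
                     (CovZ.n2 (-21270, 8904) (by decide +kernel)
                      (CovZ.leaf K2_ok TB_l49181 _)
                      (CovZ.leaf K2_ok TB_l49182 _))
                     (CovZ.leaf K2_ok TB_l49183 _)))))))

theorem TB_u247 : CovZ TB_M (toL (selN TB_LN 1233717601242136000125024057522936407573771138802165097648468085511129154354346209618785034509810534217006333296640)) [0, 7, 6, 1] (-21120, 8832) (-21216, 8928) (-21312, 8832) :=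
    (CovZ.n2 (-21216, 8832) (by decide +kernel)
              (CovZ.n2 (-21264, 8880) (by decide +kernel)
               (CovZ.n2 (-21216, 8880) (by decide +kernel)
                (CovZ.n2 (-21240, 8856) (by decide +kernel)
                 (CovZ.n2 (-21240, 8880) (by decide +kernel)
                  (CovZ.badM (by decide +kernel))
                  (CovZ.n1 (-21252, 8868) (by decide +kernel)
                   (CovZ.n2 (-21252, 8880) (by decide +kernel)
                    (CovZ.badM (by decide +kernel))
                    (CovZ.n1 (-21258, 8874) (by decide +kernel)
                     (CovZ.leaf K2_ok TB_l48929 _)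
                     (CovZ.leaf K2_ok TB_l48930 _)))
                   (CovZ.badM (by decide +kernel))))
                 (CovZ.badM (by decide +kernel)))
                (CovZ.n1 (-21240, 8904) (by decide +kernel)
                 (CovZ.badM (by decide +kernel))
                 (CovZ.n1 (-21240, 8880) (by decide +kernel)
                  (CovZ.n2 (-21252, 8892) (by decide +kernel)
                   (CovZ.n2 (-21240, 8892) (by decide +kernel)
                    (CovZ.n2 (-21246, 8886) (by decide +kernel)
                     (CovZ.n2 (-21246, 8892) (by decide +kernel)
                      (CovZ.badM (by decide +kernel))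
                      (CovZ.leaf K2_ok TB_l48931 _))
                     (CovZ.badM (by decide +kernel)))
                    (CovZ.n1 (-21246, 8898) (by decide +kernel)
                     (CovZ.n2 (-21240, 8898) (by decide +kernel)
                      (CovZ.leaf K2_ok TB_l48932 _)
                      (CovZ.n1 (-21243, 8901) (by decide +kernel)
                       (CovZ.badM (by decide +kernel))
                       (CovZ.leaf K2_ok TB_l48933 _)))
                     (CovZ.n1 (-21246, 8892) (by decide +kernel)
                      (CovZ.leaf K2_ok TB_l48934 _)
                      (CovZ.leaf K2_ok TB_l48935 _))))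
                   (CovZ.n1 (-21252, 8880) (by decide +kernel)
                    (CovZ.n2 (-21258, 8886) (by decide +kernel)
                     (CovZ.n2 (-21252, 8886) (by decide +kernel)
                      (CovZ.n2 (-21255, 8883) (by decide +kernel)
                       (CovZ.leaf K2_ok TB_l48936 _)
                       (CovZ.leaf K2_ok TB_l48937 _))
                      (CovZ.leaf K2_ok TB_l48938 _))
                     (CovZ.leaf K2_ok TB_l48939 _))
                    (CovZ.n1 (-21246, 8886) (by decide +kernel)
                     (CovZ.badM (by decide +kernel))
                     (CovZ.n1 (-21252, 8886) (by decide +kernel)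
                      (CovZ.leaf K2_ok TB_l48940 _)
                      (CovZ.leaf K2_ok TB_l48941 _)))))
                  (CovZ.badM (by decide +kernel)))))
               (CovZ.n1 (-21264, 8832) (by decide +kernel)
                (CovZ.n2 (-21288, 8856) (by decide +kernel)
                 (CovZ.n2 (-21264, 8856) (by decide +kernel)
                  (CovZ.n2 (-21276, 8844) (by decide +kernel)
                   (CovZ.n2 (-21276, 8856) (by decide +kernel)
                    (CovZ.leaf K2_ok TB_l48942 _)
                    (CovZ.leaf K2_ok TB_l48943 _))
                   (CovZ.n1 (-21264, 8844) (by decide +kernel)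
                    (CovZ.leaf K2_ok TB_l48944 _)
                    (CovZ.leaf K2_ok TB_l48945 _)))
                  (CovZ.n1 (-21276, 8868) (by decide +kernel)
                   (CovZ.n2 (-21264, 8868) (by decide +kernel)
                    (CovZ.n2 (-21270, 8862) (by decide +kernel)
                     (CovZ.n2 (-21270, 8868) (by decide +kernel)
                      (CovZ.leaf K2_ok TB_l48946 _)
                      (CovZ.leaf K2_ok TB_l48947 _))
                     (CovZ.leaf K2_ok TB_l48948 _))
                    (CovZ.n1 (-21270, 8874) (by decide +kernel)
                     (CovZ.leaf K2_ok TB_l48949 _)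
                     (CovZ.leaf K2_ok TB_l48950 _)))
                   (CovZ.n1 (-21276, 8856) (by decide +kernel)
                    (CovZ.leaf K2_ok TB_l48951 _)
                    (CovZ.n1 (-21270, 8862) (by decide +kernel)
                     (CovZ.leaf K2_ok TB_l48952 _)
                     (CovZ.leaf K2_ok TB_l48953 _)))))
                 (CovZ.n1 (-21288, 8832) (by decide +kernel)
                  (CovZ.n2 (-21300, 8844) (by decide +kernel)
                   (CovZ.n2 (-21288, 8844) (by decide +kernel)
                    (CovZ.leaf K2_ok TB_l48954 _)
                    (CovZ.leaf K2_ok TB_l48955 _))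
                   (CovZ.n1 (-21300, 8832) (by decide +kernel)
                    (CovZ.leaf K2_ok TB_l48956 _)
                    (CovZ.leaf K2_ok TB_l48957 _)))
                  (CovZ.n1 (-21276, 8844) (by decide +kernel)
                   (CovZ.n2 (-21276, 8832) (by decide +kernel)
                    (CovZ.n2 (-21282, 8838) (by decide +kernel)
                     (CovZ.leaf K2_ok TB_l48958 _)
                     (CovZ.leaf K2_ok TB_l48959 _))
                    (CovZ.leaf K2_ok TB_l48960 _))
                   (CovZ.n1 (-21288, 8844) (by decide +kernel)
                    (CovZ.n2 (-21282, 8850) (by decide +kernel)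
                     (CovZ.leaf K2_ok TB_l48961 _)
                     (CovZ.leaf K2_ok TB_l48962 _))
                    (CovZ.leaf K2_ok TB_l48963 _)))))
                (CovZ.n1 (-21240, 8856) (by decide +kernel)
                 (CovZ.badM (by decide +kernel))
                 (CovZ.n1 (-21264, 8856) (by decide +kernel)
                  (CovZ.n2 (-21252, 8868) (by decide +kernel)
                   (CovZ.badM (by decide +kernel))
                   (CovZ.n1 (-21264, 8868) (by decide +kernel)
                    (CovZ.leaf K2_ok TB_l48964 _)
                    (CovZ.n1 (-21258, 8862) (by decide +kernel)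
                     (CovZ.leaf K2_ok TB_l48965 _)
                     (CovZ.leaf K2_ok TB_l48966 _))))
                  (CovZ.badM (by decide +kernel))))))
              (CovZ.badM (by decide +kernel)))

theorem TB_u248 : CovZ TB_M (toL (selN TB_LN 1233717601242136000125024057522936407573771138802165097648468085511129154354346209618785034509810534217006333296640)) [0, 7, 6, 1] (-21216, 8928) (-21312, 9024) (-21312, 8832) :=
    (CovZ.n1 (-21312, 8928) (by decide +kernel)
              (CovZ.n2 (-21264, 8976) (by decide +kernel)
               (CovZ.n2 (-21264, 8928) (by decide +kernel)
                (CovZ.n2 (-21288, 8952) (by decide +kernel)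
                 (CovZ.n2 (-21264, 8952) (by decide +kernel)
                  (CovZ.n2 (-21276, 8940) (by decide +kernel)
                   (CovZ.n2 (-21276, 8952) (by decide +kernel)
                    (CovZ.n2 (-21270, 8946) (by decide +kernel)
                     (CovZ.leaf K2_ok TB_l48967 _)
                     (CovZ.leaf K2_ok TB_l48968 _))
                    (CovZ.n1 (-21282, 8946) (by decide +kernel)
                     (CovZ.leaf K2_ok TB_l48969 _)
                     (CovZ.leaf K2_ok TB_l48970 _)))
                   (CovZ.n1 (-21264, 8940) (by decide +kernel)
                    (CovZ.n2 (-21270, 8934) (by decide +kernel)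
                     (CovZ.n2 (-21270, 8940) (by decide +kernel)
                      (CovZ.leaf K2_ok TB_l48971 _)
                      (CovZ.leaf K2_ok TB_l48972 _))
                     (CovZ.leaf K2_ok TB_l48973 _))
                    (CovZ.n1 (-21270, 8946) (by decide +kernel)
                     (CovZ.leaf K2_ok TB_l48974 _)
                     (CovZ.leaf K2_ok TB_l48975 _))))
                  (CovZ.n1 (-21276, 8964) (by decide +kernel)
                   (CovZ.leaf K2_ok TB_l48976 _)
                   (CovZ.n1 (-21276, 8952) (by decide +kernel)
                    (CovZ.leaf K2_ok TB_l48977 _)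
                    (CovZ.leaf K2_ok TB_l48978 _))))
                 (CovZ.n1 (-21288, 8928) (by decide +kernel)
                  (CovZ.n2 (-21300, 8940) (by decide +kernel)
                   (CovZ.n2 (-21288, 8940) (by decide +kernel)
                    (CovZ.n2 (-21294, 8934) (by decide +kernel)
                     (CovZ.leaf K2_ok TB_l48979 _)
                     (CovZ.leaf K2_ok TB_l48980 _))
                    (CovZ.n1 (-21294, 8946) (by decide +kernel)
                     (CovZ.leaf K2_ok TB_l48981 _)
                     (CovZ.leaf K2_ok TB_l48982 _)))
                   (CovZ.n1 (-21300, 8928) (by decide +kernel)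
                    (CovZ.n2 (-21306, 8934) (by decide +kernel)
                     (CovZ.leaf K2_ok TB_l48983 _)
                     (CovZ.leaf K2_ok TB_l48984 _))
                    (CovZ.leaf K2_ok TB_l48985 _)))
                  (CovZ.n1 (-21276, 8940) (by decide +kernel)
                   (CovZ.n2 (-21276, 8928) (by decide +kernel)
                    (CovZ.n2 (-21282, 8934) (by decide +kernel)
                     (CovZ.leaf K2_ok TB_l48986 _)
                     (CovZ.leaf K2_ok TB_l48987 _))
                    (CovZ.n1 (-21270, 8934) (by decide +kernel)
                     (CovZ.leaf K2_ok TB_l48988 _)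
                     (CovZ.leaf K2_ok TB_l48989 _)))
                   (CovZ.n1 (-21288, 8940) (by decide +kernel)
                    (CovZ.n2 (-21282, 8946) (by decide +kernel)
                     (CovZ.n2 (-21282, 8940) (by decide +kernel)
                      (CovZ.leaf K2_ok TB_l48990 _)
                      (CovZ.leaf K2_ok TB_l48991 _))
                     (CovZ.leaf K2_ok TB_l48992 _))
                    (CovZ.n1 (-21282, 8934) (by decide +kernel)
                     (CovZ.leaf K2_ok TB_l48993 _)
                     (CovZ.leaf K2_ok TB_l48994 _))))))
                (CovZ.n1 (-21240, 8952) (by decide +kernel)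
                 (CovZ.n2 (-21240, 8928) (by decide +kernel)
                  (CovZ.n2 (-21252, 8940) (by decide +kernel)
                   (CovZ.n2 (-21240, 8940) (by decide +kernel)
                    (CovZ.n2 (-21246, 8934) (by decide +kernel)
                     (CovZ.leaf K2_ok TB_l48995 _)
                     (CovZ.leaf K2_ok TB_l48996 _))
                    (CovZ.n1 (-21246, 8946) (by decide +kernel)
                     (CovZ.leaf K2_ok TB_l48997 _)
                     (CovZ.leaf K2_ok TB_l48998 _)))
                   (CovZ.n1 (-21252, 8928) (by decide +kernel)
                    (CovZ.n2 (-21258, 8934) (by decide +kernel)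
                     (CovZ.leaf K2_ok TB_l48999 _)
                     (CovZ.n1 (-21258, 8928) (by decide +kernel)
                      (CovZ.leaf K2_ok TB_l49000 _)
                      (CovZ.leaf K2_ok TB_l49001 _)))
                    (CovZ.n1 (-21246, 8934) (by decide +kernel)
                     (CovZ.n2 (-21246, 8928) (by decide +kernel)
                      (CovZ.leaf K2_ok TB_l49002 _)
                      (CovZ.leaf K2_ok TB_l49003 _))
                     (CovZ.n1 (-21252, 8934) (by decide +kernel)
                      (CovZ.leaf K2_ok TB_l49004 _)
                      (CovZ.leaf K2_ok TB_l49005 _)))))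
                  (CovZ.n1 (-21228, 8940) (by decide +kernel)
                   (CovZ.n2 (-21228, 8928) (by decide +kernel)
                    (CovZ.n2 (-21234, 8934) (by decide +kernel)
                     (CovZ.leaf K2_ok TB_l49006 _)
                     (CovZ.n1 (-21234, 8928) (by decide +kernel)
                      (CovZ.leaf K2_ok TB_l49007 _)
                      (CovZ.n1 (-21231, 8931) (by decide +kernel)
                       (CovZ.leaf K2_ok TB_l49008 _)
                       (CovZ.leaf K2_ok TB_l49009 _))))
                    (CovZ.n1 (-21222, 8934) (by decide +kernel)
                     (CovZ.n2 (-21222, 8928) (by decide +kernel)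
                      (CovZ.leaf K2_ok TB_l49010 _)
                      (CovZ.leaf K2_ok TB_l49011 _))
                     (CovZ.leaf K2_ok TB_l49012 _)))
                   (CovZ.n1 (-21240, 8940) (by decide +kernel)
                    (CovZ.leaf K2_ok TB_l49013 _)
                    (CovZ.n1 (-21234, 8934) (by decide +kernel)
                     (CovZ.n2 (-21240, 8934) (by decide +kernel)
                      (CovZ.leaf K2_ok TB_l49014 _)
                      (CovZ.leaf K2_ok TB_l49015 _))
                     (CovZ.leaf K2_ok TB_l49016 _)))))
                 (CovZ.n1 (-21264, 8952) (by decide +kernel)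
                  (CovZ.n2 (-21252, 8964) (by decide +kernel)
                   (CovZ.n2 (-21252, 8952) (by decide +kernel)
                    (CovZ.leaf K2_ok TB_l49017 _)
                    (CovZ.leaf K2_ok TB_l49018 _))
                   (CovZ.leaf K2_ok TB_l49019 _))
                  (CovZ.n1 (-21252, 8940) (by decide +kernel)
                   (CovZ.n2 (-21264, 8940) (by decide +kernel)
                    (CovZ.n2 (-21258, 8946) (by decide +kernel)
                     (CovZ.n2 (-21258, 8940) (by decide +kernel)
                      (CovZ.leaf K2_ok TB_l49020 _)
                      (CovZ.leaf K2_ok TB_l49021 _))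
                     (CovZ.leaf K2_ok TB_l49022 _))
                    (CovZ.n1 (-21258, 8934) (by decide +kernel)
                     (CovZ.leaf K2_ok TB_l49023 _)
                     (CovZ.leaf K2_ok TB_l49024 _)))
                   (CovZ.n1 (-21252, 8952) (by decide +kernel)
                    (CovZ.leaf K2_ok TB_l49025 _)
                    (CovZ.leaf K2_ok TB_l49026 _))))))
               (CovZ.n1 (-21312, 8976) (by decide +kernel)
                (CovZ.n2 (-21288, 9000) (by decide +kernel)
                 (CovZ.n2 (-21288, 8976) (by decide +kernel)
                  (CovZ.n2 (-21300, 8988) (by decide +kernel)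
                   (CovZ.n2 (-21288, 8988) (by decide +kernel)
                    (CovZ.n2 (-21294, 8982) (by decide +kernel)
                     (CovZ.leaf K2_ok TB_l49027 _)
                     (CovZ.leaf K2_ok TB_l49028 _))
                    (CovZ.n1 (-21294, 8994) (by decide +kernel)
                     (CovZ.leaf K2_ok TB_l49029 _)
                     (CovZ.leaf K2_ok TB_l49030 _)))
                   (CovZ.n1 (-21300, 8976) (by decide +kernel)
                    (CovZ.n2 (-21306, 8982) (by decide +kernel)
                     (CovZ.leaf K2_ok TB_l49031 _)
                     (CovZ.leaf K2_ok TB_l49032 _))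
                    (CovZ.n1 (-21294, 8982) (by decide +kernel)
                     (CovZ.leaf K2_ok TB_l49033 _)
                     (CovZ.leaf K2_ok TB_l49034 _))))
                  (CovZ.n1 (-21276, 8988) (by decide +kernel)
                   (CovZ.n2 (-21276, 8976) (by decide +kernel)
                    (CovZ.leaf K2_ok TB_l49035 _)
                    (CovZ.leaf K2_ok TB_l49036 _))
                   (CovZ.n1 (-21288, 8988) (by decide +kernel)
                    (CovZ.n2 (-21282, 8994) (by decide +kernel)
                     (CovZ.leaf K2_ok TB_l49037 _)
                     (CovZ.leaf K2_ok TB_l49038 _))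
                    (CovZ.leaf K2_ok TB_l49039 _))))
                 (CovZ.n1 (-21312, 9000) (by decide +kernel)
                  (CovZ.leaf K2_ok TB_l49040 _)
                  (CovZ.n1 (-21300, 8988) (by decide +kernel)
                   (CovZ.n2 (-21312, 8988) (by decide +kernel)
                    (CovZ.leaf K2_ok TB_l49041 _)
                    (CovZ.leaf K2_ok TB_l49042 _))
                   (CovZ.n1 (-21300, 9000) (by decide +kernel)
                    (CovZ.leaf K2_ok TB_l49043 _)
                    (CovZ.leaf K2_ok TB_l49044 _)))))
                (CovZ.n1 (-21288, 8952) (by decide +kernel)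
                 (CovZ.n2 (-21312, 8952) (by decide +kernel)
                  (CovZ.n2 (-21300, 8964) (by decide +kernel)
                   (CovZ.n2 (-21300, 8952) (by decide +kernel)
                    (CovZ.leaf K2_ok TB_l49045 _)
                    (CovZ.leaf K2_ok TB_l49046 _))
                   (CovZ.n1 (-21312, 8964) (by decide +kernel)
                    (CovZ.leaf K2_ok TB_l49047 _)
                    (CovZ.leaf K2_ok TB_l49048 _)))
                  (CovZ.n1 (-21300, 8940) (by decide +kernel)
                   (CovZ.n2 (-21312, 8940) (by decide +kernel)
                    (CovZ.n2 (-21306, 8946) (by decide +kernel)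
                     (CovZ.leaf K2_ok TB_l49049 _)
                     (CovZ.leaf K2_ok TB_l49050 _))
                    (CovZ.leaf K2_ok TB_l49051 _))
                   (CovZ.n1 (-21300, 8952) (by decide +kernel)
                    (CovZ.leaf K2_ok TB_l49052 _)
                    (CovZ.leaf K2_ok TB_l49053 _))))
                 (CovZ.n1 (-21288, 8976) (by decide +kernel)
                  (CovZ.n2 (-21276, 8964) (by decide +kernel)
                   (CovZ.n2 (-21288, 8964) (by decide +kernel)
                    (CovZ.leaf K2_ok TB_l49054 _)
                    (CovZ.leaf K2_ok TB_l49055 _))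
                   (CovZ.n1 (-21276, 8976) (by decide +kernel)
                    (CovZ.leaf K2_ok TB_l49056 _)
                    (CovZ.leaf K2_ok TB_l49057 _)))
                  (CovZ.n1 (-21300, 8964) (by decide +kernel)
                   (CovZ.n2 (-21300, 8976) (by decide +kernel)
                    (CovZ.leaf K2_ok TB_l49058 _)
                    (CovZ.leaf K2_ok TB_l49059 _))
                   (CovZ.n1 (-21288, 8964) (by decide +kernel)
                    (CovZ.leaf K2_ok TB_l49060 _)
                    (CovZ.leaf K2_ok TB_l49061 _)))))))
              (CovZ.n1 (-21264, 8880) (by decide +kernel)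
               TB_u245
               TB_u246))

theorem TB_u249 : CovZ TB_M (toL (selN TB_LN 1233717601242207419029275605867781642566316391645293069837241352304231646406568966176976784832790276412054674866176)) [0, 7, 6, 1] (-21504, 9216) (-21504, 9024) (-21312, 9024) :=
    (CovZ.n2 (-21408, 9120) (by decide +kernel)
           (CovZ.subM 1233717601242205992148217113904516327645038902685856399070256668310647624503415412470421741560037476298112127467520 (by decide +kernel)
            (CovZ.n2 (-21408, 9024) (by decide +kernel)
             (CovZ.n2 (-21456, 9072) (by decide +kernel)
              (CovZ.n2 (-21408, 9072) (by decide +kernel)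
               (CovZ.subM 1233717601242136000125024057522936407573771138802165097648468085511129154354346209623855946395733273168061870899200 (by decide +kernel)
                (CovZ.n2 (-21432, 9048) (by decide +kernel)
                 (CovZ.n2 (-21432, 9072) (by decide +kernel)
                  (CovZ.leaf K2_ok TB_l41210 _)
                  (CovZ.leaf K2_ok TB_l41211 _))
                 (CovZ.n1 (-21408, 9048) (by decide +kernel)
                  (CovZ.leaf K2_ok TB_l49184 _)
                  (CovZ.leaf K2_ok TB_l41212 _))))
               (CovZ.n1 (-21432, 9096) (by decide +kernel)
                (CovZ.leaf K2_ok TB_l18920 _)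
                (CovZ.n1 (-21432, 9072) (by decide +kernel)
                 (CovZ.leaf K2_ok TB_l41213 _)
                 (CovZ.leaf K2_ok TB_l41214 _))))
              (CovZ.n1 (-21456, 9024) (by decide +kernel)
               (CovZ.n2 (-21480, 9048) (by decide +kernel)
                (CovZ.n2 (-21456, 9048) (by decide +kernel)
                 (CovZ.leaf K2_ok TB_l49185 _)
                 (CovZ.leaf K2_ok TB_l41215 _))
                (CovZ.n1 (-21480, 9024) (by decide +kernel)
                 (CovZ.n2 (-21492, 9036) (by decide +kernel)
                  (CovZ.leaf K2_ok TB_l49186 _)
                  (CovZ.leaf K2_ok TB_l49187 _))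
                 (CovZ.leaf K2_ok TB_l49188 _)))
               (CovZ.subM 1233717601242136000125024057522936407573771138802165097648468085511129154354346209623855946395733273168061870899200 (by decide +kernel)
                (CovZ.n1 (-21432, 9048) (by decide +kernel)
                 (CovZ.n2 (-21432, 9024) (by decide +kernel)
                  (CovZ.n2 (-21444, 9036) (by decide +kernel)
                   (CovZ.leaf K2_ok TB_l49189 _)
                   (CovZ.leaf K2_ok TB_l49190 _))
                  (CovZ.leaf K2_ok TB_l49191 _))
                 (CovZ.n1 (-21456, 9048) (by decide +kernel)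
                  (CovZ.leaf K2_ok TB_l41216 _)
                  (CovZ.n1 (-21444, 9036) (by decide +kernel)
                   (CovZ.leaf K2_ok TB_l49192 _)
                   (CovZ.n1 (-21444, 9048) (by decide +kernel)
                    (CovZ.leaf K2_ok TB_l49193 _)
                    (CovZ.leaf K2_ok TB_l49194 _))))))))
             (CovZ.n1 (-21360, 9072) (by decide +kernel)
              (CovZ.subM 1233717601242136000125024057522936407573771138802165097648468085511129154354346209618785034509810534217006333296640 (by decide +kernel)
               (CovZ.n2 (-21360, 9024) (by decide +kernel)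
                (CovZ.n2 (-21384, 9048) (by decide +kernel)
                 (CovZ.n2 (-21360, 9048) (by decide +kernel)
                  (CovZ.leaf K2_ok TB_l49195 _)
                  (CovZ.leaf K2_ok TB_l41217 _))
                 (CovZ.n1 (-21384, 9024) (by decide +kernel)
                  (CovZ.leaf K2_ok TB_l49196 _)
                  (CovZ.leaf K2_ok TB_l49197 _)))
                (CovZ.n1 (-21336, 9048) (by decide +kernel)
                 (CovZ.n2 (-21336, 9024) (by decide +kernel)
                  (CovZ.leaf K2_ok TB_l49198 _)
                  (CovZ.leaf K2_ok TB_l49199 _))
                 (CovZ.leaf K2_ok TB_l41218 _))))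
              (CovZ.n1 (-21408, 9072) (by decide +kernel)
               (CovZ.n2 (-21384, 9096) (by decide +kernel)
                (CovZ.n2 (-21384, 9072) (by decide +kernel)
                 (CovZ.leaf K2_ok TB_l41219 _)
                 (CovZ.leaf K2_ok TB_l41220 _))
                (CovZ.leaf K2_ok TB_l18921 _))
               (CovZ.subM 1233717601242136000125024057522936407573771138802165097648468085511129154354346209618785034509810534217006333296640 (by decide +kernel)
                (CovZ.n1 (-21384, 9048) (by decide +kernel)
                 (CovZ.n2 (-21408, 9048) (by decide +kernel)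
                  (CovZ.leaf K2_ok TB_l41221 _)
                  (CovZ.leaf K2_ok TB_l49200 _))
                 (CovZ.n1 (-21384, 9072) (by decide +kernel)
                  (CovZ.leaf K2_ok TB_l41222 _)
                  (CovZ.leaf K2_ok TB_l41223 _))))))))
           (CovZ.n1 (-21504, 9120) (by decide +kernel)
            (CovZ.n2 (-21456, 9168) (by decide +kernel)
             (CovZ.subM 1233717601242205992148217113904516327645038902685856450492274084598519129550868730252400482874622812724939850776576 (by decide +kernel)
              (CovZ.n2 (-21456, 9120) (by decide +kernel)
               (CovZ.n2 (-21480, 9144) (by decide +kernel)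
                (CovZ.leaf K2_ok TB_l18922 _)
                (CovZ.leaf K2_ok TB_l18923 _))
               (CovZ.n1 (-21432, 9144) (by decide +kernel)
                (CovZ.leaf K2_ok TB_l18924 _)
                (CovZ.leaf K2_ok TB_l18925 _))))
             (CovZ.n1 (-21504, 9168) (by decide +kernel)
              (CovZ.leaf K2_ok TB_l18926 _)
              (CovZ.n1 (-21480, 9144) (by decide +kernel)
               (CovZ.leaf K2_ok TB_l18927 _)
               (CovZ.leaf K2_ok TB_l18928 _))))
            (CovZ.subM 1233717601242205992148217113904516327645038902685856399070256668310647624503415412470421741560037476298112127467520 (by decide +kernel)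
             (CovZ.n1 (-21456, 9072) (by decide +kernel)
              (CovZ.n2 (-21504, 9072) (by decide +kernel)
               (CovZ.n2 (-21480, 9096) (by decide +kernel)
                (CovZ.n2 (-21480, 9072) (by decide +kernel)
                 (CovZ.leaf K2_ok TB_l41224 _)
                 (CovZ.leaf K2_ok TB_l41225 _))
                (CovZ.n1 (-21504, 9096) (by decide +kernel)
                 (CovZ.leaf K2_ok TB_l41226 _)
                 (CovZ.leaf K2_ok TB_l41227 _)))
               (CovZ.n1 (-21480, 9048) (by decide +kernel)
                (CovZ.n2 (-21504, 9048) (by decide +kernel)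
                 (CovZ.leaf K2_ok TB_l41228 _)
                 (CovZ.n1 (-21492, 9036) (by decide +kernel)
                  (CovZ.leaf K2_ok TB_l49201 _)
                  (CovZ.leaf K2_ok TB_l49202 _)))
                (CovZ.n1 (-21480, 9072) (by decide +kernel)
                 (CovZ.leaf K2_ok TB_l41229 _)
                 (CovZ.leaf K2_ok TB_l41230 _))))
              (CovZ.n1 (-21456, 9120) (by decide +kernel)
               (CovZ.n2 (-21432, 9096) (by decide +kernel)
                (CovZ.leaf K2_ok TB_l18929 _)
                (CovZ.n1 (-21432, 9120) (by decide +kernel)
                 (CovZ.leaf K2_ok TB_l18930 _)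
                 (CovZ.leaf K2_ok TB_l18931 _)))
               (CovZ.n1 (-21480, 9096) (by decide +kernel)
                (CovZ.leaf K2_ok TB_l18932 _)
                (CovZ.leaf K2_ok TB_l18933 _)))))))

theorem TB_u250 : CovZ TB_M (toL (selN TB_LN 1233717601242207419029275605867781642566316391645293069837241352304231646406568966176976784832790276412054674866176)) [0, 7, 6, 1] (-21504, 9024) (-21504, 8832) (-21312, 9024) :=
    (CovZ.subM 1233717601242207393364056377380596433788633703451768391392102408824862518661107450930190189563775135392294607257600 (by decide +kernel)
           (CovZ.n1 (-21408, 8928) (by decide +kernel)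
            (CovZ.n2 (-21504, 8928) (by decide +kernel)
             (CovZ.subM 1233717601242205992148217113904516327645038902685856399070256668309094779013751328114759414539353686638671071019008 (by decide +kernel)
              (CovZ.n2 (-21456, 8976) (by decide +kernel)
               (CovZ.n2 (-21456, 8928) (by decide +kernel)
                (CovZ.n2 (-21480, 8952) (by decide +kernel)
                 (CovZ.n2 (-21456, 8952) (by decide +kernel)
                  (CovZ.n2 (-21468, 8940) (by decide +kernel)
                   (CovZ.leaf K2_ok TB_l49203 _)
                   (CovZ.leaf K2_ok TB_l49204 _))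
                  (CovZ.n1 (-21468, 8964) (by decide +kernel)
                   (CovZ.leaf K2_ok TB_l49205 _)
                   (CovZ.leaf K2_ok TB_l49206 _)))
                 (CovZ.n1 (-21480, 8928) (by decide +kernel)
                  (CovZ.n2 (-21492, 8940) (by decide +kernel)
                   (CovZ.leaf K2_ok TB_l49207 _)
                   (CovZ.leaf K2_ok TB_l49208 _))
                  (CovZ.n1 (-21468, 8940) (by decide +kernel)
                   (CovZ.leaf K2_ok TB_l49209 _)
                   (CovZ.leaf K2_ok TB_l49210 _))))
                (CovZ.n1 (-21432, 8952) (by decide +kernel)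
                 (CovZ.n2 (-21432, 8928) (by decide +kernel)
                  (CovZ.n2 (-21444, 8940) (by decide +kernel)
                   (CovZ.leaf K2_ok TB_l49211 _)
                   (CovZ.leaf K2_ok TB_l49212 _))
                  (CovZ.n1 (-21420, 8940) (by decide +kernel)
                   (CovZ.leaf K2_ok TB_l49213 _)
                   (CovZ.leaf K2_ok TB_l49214 _)))
                 (CovZ.n1 (-21456, 8952) (by decide +kernel)
                  (CovZ.n2 (-21444, 8964) (by decide +kernel)
                   (CovZ.n2 (-21444, 8952) (by decide +kernel)
                    (CovZ.leaf K2_ok TB_l49215 _)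
                    (CovZ.leaf K2_ok TB_l49216 _))
                   (CovZ.leaf K2_ok TB_l49217 _))
                  (CovZ.n1 (-21444, 8940) (by decide +kernel)
                   (CovZ.leaf K2_ok TB_l49218 _)
                   (CovZ.leaf K2_ok TB_l49219 _)))))
               (CovZ.n1 (-21504, 8976) (by decide +kernel)
                (CovZ.n2 (-21480, 9000) (by decide +kernel)
                 (CovZ.n2 (-21480, 8976) (by decide +kernel)
                  (CovZ.n2 (-21492, 8988) (by decide +kernel)
                   (CovZ.leaf K2_ok TB_l49220 _)
                   (CovZ.leaf K2_ok TB_l49221 _))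
                  (CovZ.n1 (-21468, 8988) (by decide +kernel)
                   (CovZ.leaf K2_ok TB_l49222 _)
                   (CovZ.leaf K2_ok TB_l49223 _)))
                 (CovZ.n1 (-21504, 9000) (by decide +kernel)
                  (CovZ.n2 (-21492, 9012) (by decide +kernel)
                   (CovZ.leaf K2_ok TB_l49224 _)
                   (CovZ.leaf K2_ok TB_l49225 _))
                  (CovZ.leaf K2_ok TB_l49226 _)))
                (CovZ.n1 (-21480, 8952) (by decide +kernel)
                 (CovZ.n2 (-21504, 8952) (by decide +kernel)
                  (CovZ.n2 (-21492, 8964) (by decide +kernel)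
                   (CovZ.leaf K2_ok TB_l49227 _)
                   (CovZ.leaf K2_ok TB_l49228 _))
                  (CovZ.n1 (-21492, 8940) (by decide +kernel)
                   (CovZ.leaf K2_ok TB_l49229 _)
                   (CovZ.leaf K2_ok TB_l49230 _)))
                 (CovZ.n1 (-21480, 8976) (by decide +kernel)
                  (CovZ.n2 (-21468, 8964) (by decide +kernel)
                   (CovZ.leaf K2_ok TB_l49231 _)
                   (CovZ.leaf K2_ok TB_l49232 _))
                  (CovZ.leaf K2_ok TB_l49233 _))))))
             (CovZ.n1 (-21456, 8880) (by decide +kernel)
              (CovZ.n2 (-21504, 8880) (by decide +kernel)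
               (CovZ.subM 1231312693637445586922858285773404046529006203755774279522652402354245796972033969068652586765007683486766369603584 (by decide +kernel)
                (CovZ.n2 (-21480, 8904) (by decide +kernel)
                 (CovZ.n2 (-21480, 8880) (by decide +kernel)
                  (CovZ.leaf K2_ok TB_l49234 _)
                  (CovZ.leaf K2_ok TB_l49235 _))
                 (CovZ.n1 (-21504, 8904) (by decide +kernel)
                  (CovZ.leaf K2_ok TB_l49236 _)
                  (CovZ.leaf K2_ok TB_l49237 _))))
               (CovZ.n1 (-21480, 8856) (by decide +kernel)
                (CovZ.n2 (-21504, 8856) (by decide +kernel)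
                 (CovZ.leaf K2_ok TB_l41231 _)
                 (CovZ.leaf K2_ok TB_l18934 _))
                (CovZ.n1 (-21480, 8880) (by decide +kernel)
                 (CovZ.leaf K2_ok TB_l49238 _)
                 (CovZ.leaf K2_ok TB_l41232 _))))
              (CovZ.subM 1231312693637445586922858285773404046529006203755774279522652402354245796972033969068652586765007683486766369603584 (by decide +kernel)
               (CovZ.n1 (-21456, 8928) (by decide +kernel)
                (CovZ.n2 (-21432, 8904) (by decide +kernel)
                 (CovZ.n2 (-21456, 8904) (by decide +kernel)
                  (CovZ.n2 (-21444, 8916) (by decide +kernel)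
                   (CovZ.leaf K2_ok TB_l49239 _)
                   (CovZ.leaf K2_ok TB_l49240 _))
                  (CovZ.leaf K2_ok TB_l49241 _))
                 (CovZ.n1 (-21432, 8928) (by decide +kernel)
                  (CovZ.n2 (-21420, 8916) (by decide +kernel)
                   (CovZ.leaf K2_ok TB_l49242 _)
                   (CovZ.leaf K2_ok TB_l49243 _))
                  (CovZ.n1 (-21444, 8916) (by decide +kernel)
                   (CovZ.leaf K2_ok TB_l49244 _)
                   (CovZ.leaf K2_ok TB_l49245 _))))
                (CovZ.n1 (-21480, 8904) (by decide +kernel)
                 (CovZ.n2 (-21480, 8928) (by decide +kernel)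
                  (CovZ.n2 (-21468, 8916) (by decide +kernel)
                   (CovZ.leaf K2_ok TB_l49246 _)
                   (CovZ.leaf K2_ok TB_l49247 _))
                  (CovZ.leaf K2_ok TB_l49248 _))
                 (CovZ.n1 (-21456, 8904) (by decide +kernel)
                  (CovZ.leaf K2_ok TB_l49249 _)
                  (CovZ.n1 (-21468, 8916) (by decide +kernel)
                   (CovZ.leaf K2_ok TB_l49250 _)
                   (CovZ.leaf K2_ok TB_l49251 _))))))))
            (CovZ.subM 1233717601242205992148217113904516327645038902685856399070256668309094779013751328114759414539353686638671071019008 (by decide +kernel)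
             (CovZ.n1 (-21408, 9024) (by decide +kernel)
              (CovZ.n2 (-21360, 8976) (by decide +kernel)
               (CovZ.n2 (-21408, 8976) (by decide +kernel)
                (CovZ.n2 (-21384, 9000) (by decide +kernel)
                 (CovZ.n2 (-21384, 8976) (by decide +kernel)
                  (CovZ.n2 (-21396, 8988) (by decide +kernel)
                   (CovZ.leaf K2_ok TB_l49252 _)
                   (CovZ.n1 (-21396, 8976) (by decide +kernel)
                    (CovZ.leaf K2_ok TB_l49253 _)
                    (CovZ.leaf K2_ok TB_l49254 _)))
                  (CovZ.n1 (-21372, 8988) (by decide +kernel)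
                   (CovZ.n2 (-21372, 8976) (by decide +kernel)
                    (CovZ.leaf K2_ok TB_l49255 _)
                    (CovZ.leaf K2_ok TB_l49256 _))
                   (CovZ.leaf K2_ok TB_l49257 _)))
                 (CovZ.n1 (-21408, 9000) (by decide +kernel)
                  (CovZ.leaf K2_ok TB_l49258 _)
                  (CovZ.n1 (-21396, 8988) (by decide +kernel)
                   (CovZ.leaf K2_ok TB_l49259 _)
                   (CovZ.n1 (-21396, 9000) (by decide +kernel)
                    (CovZ.leaf K2_ok TB_l49260 _)
                    (CovZ.leaf K2_ok TB_l49261 _)))))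
                (CovZ.n1 (-21384, 8952) (by decide +kernel)
                 (CovZ.n2 (-21408, 8952) (by decide +kernel)
                  (CovZ.n2 (-21396, 8964) (by decide +kernel)
                   (CovZ.leaf K2_ok TB_l49262 _)
                   (CovZ.leaf K2_ok TB_l49263 _))
                  (CovZ.n1 (-21396, 8940) (by decide +kernel)
                   (CovZ.leaf K2_ok TB_l49264 _)
                   (CovZ.leaf K2_ok TB_l49265 _)))
                 (CovZ.n1 (-21384, 8976) (by decide +kernel)
                  (CovZ.n2 (-21372, 8964) (by decide +kernel)
                   (CovZ.leaf K2_ok TB_l49266 _)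
                   (CovZ.n1 (-21372, 8976) (by decide +kernel)
                    (CovZ.leaf K2_ok TB_l49267 _)
                    (CovZ.leaf K2_ok TB_l49268 _)))
                  (CovZ.n1 (-21396, 8964) (by decide +kernel)
                   (CovZ.n2 (-21396, 8976) (by decide +kernel)
                    (CovZ.leaf K2_ok TB_l49269 _)
                    (CovZ.leaf K2_ok TB_l49270 _))
                   (CovZ.leaf K2_ok TB_l49271 _)))))
               (CovZ.n1 (-21360, 9024) (by decide +kernel)
                (CovZ.n2 (-21336, 9000) (by decide +kernel)
                 (CovZ.n2 (-21360, 9000) (by decide +kernel)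
                  (CovZ.n2 (-21348, 9012) (by decide +kernel)
                   (CovZ.n2 (-21348, 9000) (by decide +kernel)
                    (CovZ.leaf K2_ok TB_l49272 _)
                    (CovZ.leaf K2_ok TB_l49273 _))
                   (CovZ.n1 (-21360, 9012) (by decide +kernel)
                    (CovZ.leaf K2_ok TB_l49274 _)
                    (CovZ.leaf K2_ok TB_l49275 _)))
                  (CovZ.n1 (-21348, 8988) (by decide +kernel)
                   (CovZ.n2 (-21360, 8988) (by decide +kernel)
                    (CovZ.leaf K2_ok TB_l49276 _)
                    (CovZ.leaf K2_ok TB_l49277 _))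
                   (CovZ.n1 (-21348, 9000) (by decide +kernel)
                    (CovZ.leaf K2_ok TB_l49278 _)
                    (CovZ.leaf K2_ok TB_l49279 _))))
                 (CovZ.n1 (-21336, 9024) (by decide +kernel)
                  (CovZ.leaf K2_ok TB_l49280 _)
                  (CovZ.leaf K2_ok TB_l49281 _)))
                (CovZ.n1 (-21384, 9000) (by decide +kernel)
                 (CovZ.n2 (-21384, 9024) (by decide +kernel)
                  (CovZ.leaf K2_ok TB_l49282 _)
                  (CovZ.leaf K2_ok TB_l49283 _))
                 (CovZ.n1 (-21360, 9000) (by decide +kernel)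
                  (CovZ.leaf K2_ok TB_l49284 _)
                  (CovZ.leaf K2_ok TB_l49285 _)))))
              (CovZ.n1 (-21456, 8976) (by decide +kernel)
               (CovZ.n2 (-21456, 9024) (by decide +kernel)
                (CovZ.n2 (-21432, 9000) (by decide +kernel)
                 (CovZ.n2 (-21456, 9000) (by decide +kernel)
                  (CovZ.n2 (-21444, 9012) (by decide +kernel)
                   (CovZ.n2 (-21444, 9000) (by decide +kernel)
                    (CovZ.leaf K2_ok TB_l49286 _)
                    (CovZ.leaf K2_ok TB_l49287 _))
                   (CovZ.leaf K2_ok TB_l49288 _))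
                  (CovZ.n1 (-21444, 8988) (by decide +kernel)
                   (CovZ.leaf K2_ok TB_l49289 _)
                   (CovZ.leaf K2_ok TB_l49290 _)))
                 (CovZ.n1 (-21432, 9024) (by decide +kernel)
                  (CovZ.n2 (-21420, 9012) (by decide +kernel)
                   (CovZ.leaf K2_ok TB_l49291 _)
                   (CovZ.n1 (-21420, 9024) (by decide +kernel)
                    (CovZ.leaf K2_ok TB_l49292 _)
                    (CovZ.leaf K2_ok TB_l49293 _)))
                  (CovZ.leaf K2_ok TB_l49294 _)))
                (CovZ.n1 (-21480, 9000) (by decide +kernel)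
                 (CovZ.n2 (-21480, 9024) (by decide +kernel)
                  (CovZ.n2 (-21468, 9012) (by decide +kernel)
                   (CovZ.leaf K2_ok TB_l49295 _)
                   (CovZ.leaf K2_ok TB_l49296 _))
                  (CovZ.n1 (-21492, 9012) (by decide +kernel)
                   (CovZ.leaf K2_ok TB_l49297 _)
                   (CovZ.leaf K2_ok TB_l49298 _)))
                 (CovZ.n1 (-21456, 9000) (by decide +kernel)
                  (CovZ.n2 (-21468, 8988) (by decide +kernel)
                   (CovZ.leaf K2_ok TB_l49299 _)
                   (CovZ.leaf K2_ok TB_l49300 _))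
                  (CovZ.n1 (-21468, 9012) (by decide +kernel)
                   (CovZ.leaf K2_ok TB_l49301 _)
                   (CovZ.leaf K2_ok TB_l49302 _)))))
               (CovZ.n1 (-21408, 8976) (by decide +kernel)
                (CovZ.n2 (-21432, 8952) (by decide +kernel)
                 (CovZ.n2 (-21432, 8976) (by decide +kernel)
                  (CovZ.n2 (-21420, 8964) (by decide +kernel)
                   (CovZ.leaf K2_ok TB_l49303 _)
                   (CovZ.n1 (-21420, 8976) (by decide +kernel)
                    (CovZ.leaf K2_ok TB_l49304 _)
                    (CovZ.leaf K2_ok TB_l49305 _)))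
                  (CovZ.n1 (-21444, 8964) (by decide +kernel)
                   (CovZ.leaf K2_ok TB_l49306 _)
                   (CovZ.leaf K2_ok TB_l49307 _)))
                 (CovZ.n1 (-21408, 8952) (by decide +kernel)
                  (CovZ.n2 (-21420, 8940) (by decide +kernel)
                   (CovZ.leaf K2_ok TB_l49308 _)
                   (CovZ.leaf K2_ok TB_l49309 _))
                  (CovZ.n1 (-21420, 8964) (by decide +kernel)
                   (CovZ.leaf K2_ok TB_l49310 _)
                   (CovZ.leaf K2_ok TB_l49311 _))))
                (CovZ.n1 (-21432, 9000) (by decide +kernel)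
                 (CovZ.n2 (-21408, 9000) (by decide +kernel)
                  (CovZ.n2 (-21420, 8988) (by decide +kernel)
                   (CovZ.n2 (-21420, 9000) (by decide +kernel)
                    (CovZ.leaf K2_ok TB_l49312 _)
                    (CovZ.leaf K2_ok TB_l49313 _))
                   (CovZ.leaf K2_ok TB_l49314 _))
                  (CovZ.n1 (-21420, 9012) (by decide +kernel)
                   (CovZ.leaf K2_ok TB_l49315 _)
                   (CovZ.n1 (-21420, 9000) (by decide +kernel)
                    (CovZ.leaf K2_ok TB_l49316 _)
                    (CovZ.leaf K2_ok TB_l49317 _))))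
                 (CovZ.n1 (-21432, 8976) (by decide +kernel)
                  (CovZ.n2 (-21444, 8988) (by decide +kernel)
                   (CovZ.leaf K2_ok TB_l49318 _)
                   (CovZ.leaf K2_ok TB_l49319 _))
                  (CovZ.n1 (-21420, 8988) (by decide +kernel)
                   (CovZ.n2 (-21420, 8976) (by decide +kernel)
                    (CovZ.leaf K2_ok TB_l49320 _)
                    (CovZ.leaf K2_ok TB_l49321 _))
                   (CovZ.leaf K2_ok TB_l49322 _))))))))))

theorem TB_u251 : CovZ TB_M (toL (selN TB_LN 1231312693637411787205844762396383162864572186938539938734584396825124232484197188738676748529418221071845587689472)) [0, 7, 6, 1] (-21120, 8832) (-21312, 8832) (-21312, 8640) :=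
    (CovZ.subM 1231312693637340598888068701201034166422104557930237327389969528157297359982926291324691016720692954854269263020032 (by decide +kernel)
           (CovZ.n2 (-21216, 8736) (by decide +kernel)
            (CovZ.n2 (-21312, 8736) (by decide +kernel)
             (CovZ.n2 (-21264, 8784) (by decide +kernel)
              (CovZ.badM (by decide +kernel))
              (CovZ.n1 (-21312, 8784) (by decide +kernel)
               (CovZ.n2 (-21288, 8808) (by decide +kernel)
                (CovZ.n2 (-21288, 8784) (by decide +kernel)
                 (CovZ.n2 (-21300, 8796) (by decide +kernel)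
                  (CovZ.leaf K2_ok TB_l49355 _)
                  (CovZ.n1 (-21300, 8784) (by decide +kernel)
                   (CovZ.leaf K2_ok TB_l49356 _)
                   (CovZ.leaf K2_ok TB_l49357 _)))
                 (CovZ.n1 (-21276, 8796) (by decide +kernel)
                  (CovZ.badM (by decide +kernel))
                  (CovZ.n1 (-21288, 8796) (by decide +kernel)
                   (CovZ.leaf K2_ok TB_l49358 _)
                   (CovZ.badM (by decide +kernel)))))
                (CovZ.n1 (-21312, 8808) (by decide +kernel)
                 (CovZ.n2 (-21300, 8820) (by decide +kernel)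
                  (CovZ.n2 (-21300, 8808) (by decide +kernel)
                   (CovZ.leaf K2_ok TB_l49359 _)
                   (CovZ.leaf K2_ok TB_l49360 _))
                  (CovZ.leaf K2_ok TB_l49361 _))
                 (CovZ.n1 (-21300, 8796) (by decide +kernel)
                  (CovZ.leaf K2_ok TB_l49362 _)
                  (CovZ.n1 (-21300, 8808) (by decide +kernel)
                   (CovZ.leaf K2_ok TB_l49363 _)
                   (CovZ.leaf K2_ok TB_l49364 _)))))
               (CovZ.n1 (-21288, 8760) (by decide +kernel)
                (CovZ.n2 (-21312, 8760) (by decide +kernel)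
                 (CovZ.n2 (-21300, 8772) (by decide +kernel)
                  (CovZ.n2 (-21300, 8760) (by decide +kernel)
                   (CovZ.leaf K2_ok TB_l49365 _)
                   (CovZ.badM (by decide +kernel)))
                  (CovZ.leaf K2_ok TB_l49366 _))
                 (CovZ.n1 (-21300, 8748) (by decide +kernel)
                  (CovZ.leaf K2_ok TB_l49367 _)
                  (CovZ.n1 (-21300, 8760) (by decide +kernel)
                   (CovZ.badM (by decide +kernel))
                   (CovZ.leaf K2_ok TB_l49368 _))))
                (CovZ.n1 (-21288, 8784) (by decide +kernel)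
                 (CovZ.badM (by decide +kernel))
                 (CovZ.n1 (-21300, 8772) (by decide +kernel)
                  (CovZ.n2 (-21300, 8784) (by decide +kernel)
                   (CovZ.leaf K2_ok TB_l49369 _)
                   (CovZ.leaf K2_ok TB_l49370 _))
                  (CovZ.badM (by decide +kernel)))))))
             (CovZ.badM (by decide +kernel)))
            (CovZ.n1 (-21216, 8832) (by decide +kernel)
             (CovZ.badM (by decide +kernel))
             (CovZ.n1 (-21264, 8784) (by decide +kernel)
              (CovZ.n2 (-21264, 8832) (by decide +kernel)
               (CovZ.badM (by decide +kernel))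
               (CovZ.n1 (-21288, 8808) (by decide +kernel)
                (CovZ.n2 (-21288, 8832) (by decide +kernel)
                 (CovZ.n2 (-21276, 8820) (by decide +kernel)
                  (CovZ.leaf K2_ok TB_l49371 _)
                  (CovZ.n1 (-21276, 8832) (by decide +kernel)
                   (CovZ.leaf K2_ok TB_l49372 _)
                   (CovZ.leaf K2_ok TB_l49373 _)))
                 (CovZ.n1 (-21300, 8820) (by decide +kernel)
                  (CovZ.n2 (-21300, 8832) (by decide +kernel)
                   (CovZ.leaf K2_ok TB_l49374 _)
                   (CovZ.leaf K2_ok TB_l49375 _))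
                  (CovZ.n1 (-21288, 8820) (by decide +kernel)
                   (CovZ.leaf K2_ok TB_l49376 _)
                   (CovZ.leaf K2_ok TB_l49377 _))))
                (CovZ.n1 (-21264, 8808) (by decide +kernel)
                 (CovZ.n2 (-21276, 8796) (by decide +kernel)
                  (CovZ.n2 (-21276, 8808) (by decide +kernel)
                   (CovZ.badM (by decide +kernel))
                   (CovZ.leaf K2_ok TB_l49378 _))
                  (CovZ.badM (by decide +kernel)))
                 (CovZ.n1 (-21276, 8820) (by decide +kernel)
                  (CovZ.badM (by decide +kernel))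
                  (CovZ.n1 (-21276, 8808) (by decide +kernel)
                   (CovZ.leaf K2_ok TB_l49379 _)
                   (CovZ.badM (by decide +kernel)))))))
              (CovZ.badM (by decide +kernel))))))

end Pool.Agent.TET
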