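import Pool.Agent.Helper38_TET.TB_M
import Pool.Agent.Helper38_TET.TB_L
import Pool.Agent.Helper38_TET.TB_126
import Pool.Agent.Helper38_TET.TB_127
import Pool.Agent.Helper38_TET.TB_128
import Pool.Agent.Helper38_TET.TB_131
import Pool.Agent.Helper38_TET.TB_132
import Pool.Agent.Helper38_TET.TB_274
import Pool.Agent.Helper38_TET.TB_275
import Pool.Agent.Helper38_TET.TB_276
import Pool.Agent.Helper38_TET.TB_277
import Pool.Agent.Helper38_TET.TB_279
import Pool.Agent.Helper38_TET.TB_329
import Pool.Agent.Helper38_TET.TB_330
import Pool.Agent.Helper38_TET.TB_331
import Pool.Agent.Helper38_TET.TB_U16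

/-!
# MP_c7c9bf_co: certificates, family TB
-/

set_option autoImplicit false
set_option maxRecDepth 100000

namespace Pool.Agent.TET

theorem TB_u252 : CovZ TB_M (toL (selN TB_LN 1231312693637411787205844762396383162864572186938539938734584396825124232484197188738676748529418221071845587689472)) [0, 7, 6, 1] (-21312, 8832) (-21504, 8832) (-21312, 8640) :=
    (CovZ.n1 (-21408, 8736) (by decide +kernel)
           (CovZ.n2 (-21408, 8832) (by decide +kernel)
            (CovZ.subM 1231312693637340598888068701201034166422104557930237327389969528157297359982926291324691016720692954854269263020032 (by decide +kernel)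
             (CovZ.n2 (-21360, 8784) (by decide +kernel)
              (CovZ.n2 (-21408, 8784) (by decide +kernel)
               (CovZ.n2 (-21384, 8808) (by decide +kernel)
                (CovZ.n2 (-21384, 8784) (by decide +kernel)
                 (CovZ.leaf K2_ok TB_l49380 _)
                 (CovZ.leaf K2_ok TB_l49381 _))
                (CovZ.n1 (-21408, 8808) (by decide +kernel)
                 (CovZ.n2 (-21396, 8820) (by decide +kernel)
                  (CovZ.leaf K2_ok TB_l49382 _)
                  (CovZ.leaf K2_ok TB_l49383 _))
                 (CovZ.n1 (-21396, 8796) (by decide +kernel)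
                  (CovZ.leaf K2_ok TB_l49384 _)
                  (CovZ.leaf K2_ok TB_l49385 _))))
               (CovZ.n1 (-21384, 8760) (by decide +kernel)
                (CovZ.n2 (-21408, 8760) (by decide +kernel)
                 (CovZ.leaf K2_ok TB_l49386 _)
                 (CovZ.leaf K2_ok TB_l49387 _))
                (CovZ.n1 (-21384, 8784) (by decide +kernel)
                 (CovZ.n2 (-21372, 8772) (by decide +kernel)
                  (CovZ.leaf K2_ok TB_l49388 _)
                  (CovZ.leaf K2_ok TB_l49389 _))
                 (CovZ.leaf K2_ok TB_l49390 _))))
              (CovZ.n1 (-21360, 8832) (by decide +kernel)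
               (CovZ.n2 (-21336, 8808) (by decide +kernel)
                (CovZ.n2 (-21360, 8808) (by decide +kernel)
                 (CovZ.n2 (-21348, 8820) (by decide +kernel)
                  (CovZ.leaf K2_ok TB_l49391 _)
                  (CovZ.leaf K2_ok TB_l49392 _))
                 (CovZ.n1 (-21348, 8796) (by decide +kernel)
                  (CovZ.leaf K2_ok TB_l49393 _)
                  (CovZ.leaf K2_ok TB_l49394 _)))
                (CovZ.n1 (-21336, 8832) (by decide +kernel)
                 (CovZ.n2 (-21324, 8820) (by decide +kernel)
                  (CovZ.leaf K2_ok TB_l49395 _)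
                  (CovZ.n1 (-21324, 8832) (by decide +kernel)
                   (CovZ.leaf K2_ok TB_l49396 _)
                   (CovZ.leaf K2_ok TB_l49397 _)))
                 (CovZ.n1 (-21348, 8820) (by decide +kernel)
                  (CovZ.leaf K2_ok TB_l49398 _)
                  (CovZ.leaf K2_ok TB_l49399 _))))
               (CovZ.n1 (-21384, 8808) (by decide +kernel)
                (CovZ.n2 (-21384, 8832) (by decide +kernel)
                 (CovZ.n2 (-21372, 8820) (by decide +kernel)
                  (CovZ.leaf K2_ok TB_l49400 _)
                  (CovZ.leaf K2_ok TB_l49401 _))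
                 (CovZ.leaf K2_ok TB_l49402 _))
                (CovZ.n1 (-21360, 8808) (by decide +kernel)
                 (CovZ.n2 (-21372, 8796) (by decide +kernel)
                  (CovZ.leaf K2_ok TB_l49403 _)
                  (CovZ.leaf K2_ok TB_l49404 _))
                 (CovZ.n1 (-21372, 8820) (by decide +kernel)
                  (CovZ.leaf K2_ok TB_l49405 _)
                  (CovZ.leaf K2_ok TB_l49406 _)))))))
            (CovZ.n1 (-21456, 8784) (by decide +kernel)
             (CovZ.subM 1231312693637411718720760423182203646074188732877169951987424989819476171068361731391971271852667153090410409099264 (by decide +kernel)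
              (CovZ.n2 (-21456, 8832) (by decide +kernel)
               (CovZ.n2 (-21432, 8808) (by decide +kernel)
                (CovZ.leaf K2_ok TB_l49407 _)
                (CovZ.n1 (-21432, 8832) (by decide +kernel)
                 (CovZ.leaf K2_ok TB_l49408 _)
                 (CovZ.leaf K2_ok TB_l49409 _)))
               (CovZ.n1 (-21480, 8808) (by decide +kernel)
                (CovZ.n2 (-21480, 8832) (by decide +kernel)
                 (CovZ.leaf K2_ok TB_l49410 _)
                 (CovZ.leaf K2_ok TB_l18959 _))
                (CovZ.n1 (-21456, 8808) (by decide +kernel)
                 (CovZ.leaf K2_ok TB_l49411 _)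
                 (CovZ.leaf K2_ok TB_l49412 _)))))
             (CovZ.subM 1231312693637340598888068701201034166422104557930237327389969528157297359982926291324691016720692954854269263020032 (by decide +kernel)
              (CovZ.n1 (-21408, 8784) (by decide +kernel)
               (CovZ.n2 (-21432, 8760) (by decide +kernel)
                (CovZ.n2 (-21432, 8784) (by decide +kernel)
                 (CovZ.leaf K2_ok TB_l49413 _)
                 (CovZ.leaf K2_ok TB_l49414 _))
                (CovZ.n1 (-21408, 8760) (by decide +kernel)
                 (CovZ.leaf K2_ok TB_l49415 _)
                 (CovZ.n1 (-21420, 8772) (by decide +kernel)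
                  (CovZ.leaf K2_ok TB_l49416 _)
                  (CovZ.leaf K2_ok TB_l49417 _))))
               (CovZ.n1 (-21432, 8808) (by decide +kernel)
                (CovZ.n2 (-21408, 8808) (by decide +kernel)
                 (CovZ.leaf K2_ok TB_l49418 _)
                 (CovZ.leaf K2_ok TB_l49419 _))
                (CovZ.n1 (-21432, 8784) (by decide +kernel)
                 (CovZ.leaf K2_ok TB_l49420 _)
                 (CovZ.leaf K2_ok TB_l49421 _)))))))
           (CovZ.subM 1231312693637340598888068701201034166422104557930237327389969528157297359982926291324691016720692954854269263020032 (by decide +kernel)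
            (CovZ.n1 (-21312, 8736) (by decide +kernel)
             (CovZ.n2 (-21360, 8688) (by decide +kernel)
              (CovZ.n2 (-21360, 8736) (by decide +kernel)
               (CovZ.n2 (-21336, 8712) (by decide +kernel)
                (CovZ.n2 (-21360, 8712) (by decide +kernel)
                 (CovZ.leaf K2_ok TB_l49422 _)
                 (CovZ.leaf K2_ok TB_l49423 _))
                (CovZ.n1 (-21336, 8736) (by decide +kernel)
                 (CovZ.n2 (-21324, 8724) (by decide +kernel)
                  (CovZ.leaf K2_ok TB_l49424 _)
                  (CovZ.leaf K2_ok TB_l49425 _))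
                 (CovZ.leaf K2_ok TB_l49426 _)))
               (CovZ.n1 (-21384, 8712) (by decide +kernel)
                (CovZ.n2 (-21384, 8736) (by decide +kernel)
                 (CovZ.leaf K2_ok TB_l49427 _)
                 (CovZ.leaf K2_ok TB_l49428 _))
                (CovZ.n1 (-21360, 8712) (by decide +kernel)
                 (CovZ.leaf K2_ok TB_l49429 _)
                 (CovZ.leaf K2_ok TB_l49430 _))))
              (CovZ.n1 (-21312, 8688) (by decide +kernel)
               (CovZ.n2 (-21336, 8664) (by decide +kernel)
                (CovZ.n2 (-21336, 8688) (by decide +kernel)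
                 (CovZ.badM (by decide +kernel))
                 (CovZ.leaf K2_ok TB_l49431 _))
                (CovZ.badM (by decide +kernel)))
               (CovZ.n1 (-21336, 8712) (by decide +kernel)
                (CovZ.n2 (-21312, 8712) (by decide +kernel)
                 (CovZ.n2 (-21324, 8700) (by decide +kernel)
                  (CovZ.leaf K2_ok TB_l49432 _)
                  (CovZ.badM (by decide +kernel)))
                 (CovZ.n1 (-21324, 8724) (by decide +kernel)
                  (CovZ.badM (by decide +kernel))
                  (CovZ.leaf K2_ok TB_l49433 _)))
                (CovZ.n1 (-21336, 8688) (by decide +kernel)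
                 (CovZ.n2 (-21348, 8700) (by decide +kernel)
                  (CovZ.leaf K2_ok TB_l49434 _)
                  (CovZ.leaf K2_ok TB_l49435 _))
                 (CovZ.n1 (-21324, 8700) (by decide +kernel)
                  (CovZ.badM (by decide +kernel))
                  (CovZ.leaf K2_ok TB_l49436 _))))))
             (CovZ.n1 (-21360, 8784) (by decide +kernel)
              (CovZ.n2 (-21312, 8784) (by decide +kernel)
               (CovZ.n2 (-21336, 8760) (by decide +kernel)
                (CovZ.n2 (-21336, 8784) (by decide +kernel)
                 (CovZ.n2 (-21324, 8772) (by decide +kernel)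
                  (CovZ.leaf K2_ok TB_l49437 _)
                  (CovZ.n1 (-21324, 8784) (by decide +kernel)
                   (CovZ.leaf K2_ok TB_l49438 _)
                   (CovZ.leaf K2_ok TB_l49439 _)))
                 (CovZ.n1 (-21348, 8772) (by decide +kernel)
                  (CovZ.leaf K2_ok TB_l49440 _)
                  (CovZ.leaf K2_ok TB_l49441 _)))
                (CovZ.n1 (-21312, 8760) (by decide +kernel)
                 (CovZ.n2 (-21324, 8748) (by decide +kernel)
                  (CovZ.leaf K2_ok TB_l49442 _)
                  (CovZ.leaf K2_ok TB_l49443 _))
                 (CovZ.n1 (-21324, 8772) (by decide +kernel)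
                  (CovZ.leaf K2_ok TB_l49444 _)
                  (CovZ.leaf K2_ok TB_l49445 _))))
               (CovZ.n1 (-21336, 8808) (by decide +kernel)
                (CovZ.n2 (-21312, 8808) (by decide +kernel)
                 (CovZ.n2 (-21324, 8796) (by decide +kernel)
                  (CovZ.n2 (-21324, 8808) (by decide +kernel)
                   (CovZ.leaf K2_ok TB_l49446 _)
                   (CovZ.leaf K2_ok TB_l49447 _))
                  (CovZ.n1 (-21312, 8796) (by decide +kernel)
                   (CovZ.leaf K2_ok TB_l49448 _)
                   (CovZ.leaf K2_ok TB_l49449 _)))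
                 (CovZ.n1 (-21324, 8820) (by decide +kernel)
                  (CovZ.leaf K2_ok TB_l49450 _)
                  (CovZ.leaf K2_ok TB_l49451 _)))
                (CovZ.n1 (-21336, 8784) (by decide +kernel)
                 (CovZ.n2 (-21348, 8796) (by decide +kernel)
                  (CovZ.leaf K2_ok TB_l49452 _)
                  (CovZ.leaf K2_ok TB_l49453 _))
                 (CovZ.n1 (-21324, 8796) (by decide +kernel)
                  (CovZ.leaf K2_ok TB_l49454 _)
                  (CovZ.leaf K2_ok TB_l49455 _)))))
              (CovZ.n1 (-21360, 8736) (by decide +kernel)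
               (CovZ.n2 (-21384, 8760) (by decide +kernel)
                (CovZ.n2 (-21360, 8760) (by decide +kernel)
                 (CovZ.leaf K2_ok TB_l49456 _)
                 (CovZ.n1 (-21372, 8772) (by decide +kernel)
                  (CovZ.leaf K2_ok TB_l49457 _)
                  (CovZ.leaf K2_ok TB_l49458 _)))
                (CovZ.n1 (-21384, 8736) (by decide +kernel)
                 (CovZ.leaf K2_ok TB_l49459 _)
                 (CovZ.leaf K2_ok TB_l49460 _)))
               (CovZ.n1 (-21336, 8760) (by decide +kernel)
                (CovZ.n2 (-21336, 8736) (by decide +kernel)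
                 (CovZ.n2 (-21348, 8748) (by decide +kernel)
                  (CovZ.leaf K2_ok TB_l49461 _)
                  (CovZ.leaf K2_ok TB_l49462 _))
                 (CovZ.n1 (-21324, 8748) (by decide +kernel)
                  (CovZ.leaf K2_ok TB_l49463 _)
                  (CovZ.leaf K2_ok TB_l49464 _)))
                (CovZ.n1 (-21360, 8760) (by decide +kernel)
                 (CovZ.leaf K2_ok TB_l49465 _)
                 (CovZ.leaf K2_ok TB_l49466 _))))))))

theorem TB_u253 : CovZ TB_M (toL (selN TB_LN 1233717610416201951478948211507278396744129346824629220881071257772344491768899236482715986403307800129190737485824)) [0, 7, 6, 1] (-20736, 8448) (-21120, 8832) (-21504, 8448) :=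
    (CovZ.subM 1231312693637410591044760947327670966643061178449630948272385062559117387258291177015074765566879581064549707554816 (by decide +kernel)
       (CovZ.n2 (-21120, 8448) (by decide +kernel)
        (CovZ.n2 (-21312, 8640) (by decide +kernel)
         (CovZ.badM (by decide +kernel))
         (CovZ.n1 (-21312, 8448) (by decide +kernel)
          (CovZ.n2 (-21408, 8544) (by decide +kernel)
           (CovZ.subM 133499189745056880149688856635702319454337589833988716149373770921207627956690583487689441411072 (by decide +kernel)
            (CovZ.n2 (-21312, 8544) (by decide +kernel)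
             (CovZ.n2 (-21360, 8496) (by decide +kernel)
              (CovZ.n2 (-21360, 8544) (by decide +kernel)
               (CovZ.badM (by decide +kernel))
               (CovZ.n1 (-21384, 8520) (by decide +kernel)
                (CovZ.n2 (-21384, 8544) (by decide +kernel)
                 (CovZ.leaf K2_ok TB_l41175 _)
                 (CovZ.leaf K2_ok TB_l41176 _))
                (CovZ.n1 (-21360, 8520) (by decide +kernel)
                 (CovZ.leaf K2_ok TB_l41177 _)
                 (CovZ.leaf K2_ok TB_l41178 _))))
              (CovZ.badM (by decide +kernel)))
             (CovZ.n1 (-21360, 8592) (by decide +kernel)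
              (CovZ.badM (by decide +kernel))
              (CovZ.n1 (-21360, 8544) (by decide +kernel)
               (CovZ.n2 (-21384, 8568) (by decide +kernel)
                (CovZ.badM (by decide +kernel))
                (CovZ.n1 (-21384, 8544) (by decide +kernel)
                 (CovZ.leaf K2_ok TB_l41183 _)
                 (CovZ.badM (by decide +kernel))))
               (CovZ.badM (by decide +kernel))))))
           (CovZ.n1 (-21408, 8448) (by decide +kernel)
            (CovZ.n2 (-21456, 8496) (by decide +kernel)
             (CovZ.subM 1231312693637331849885169569153336676413196087444881227003914512517633601125478768636272071635861138227310402469888 (by decide +kernel)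
              (CovZ.n2 (-21408, 8496) (by decide +kernel)
               (CovZ.n2 (-21432, 8472) (by decide +kernel)
                (CovZ.n2 (-21432, 8496) (by decide +kernel)
                 (CovZ.leaf K2_ok TB_l41185 _)
                 (CovZ.leaf K2_ok TB_l41186 _))
                (CovZ.leaf K2_ok TB_l41187 _))
               (CovZ.n1 (-21432, 8520) (by decide +kernel)
                (CovZ.leaf K2_ok TB_l41188 _)
                (CovZ.n1 (-21432, 8496) (by decide +kernel)
                 (CovZ.leaf K2_ok TB_l41189 _)
                 (CovZ.leaf K2_ok TB_l41190 _)))))
             (CovZ.n1 (-21456, 8448) (by decide +kernel)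
              (CovZ.n2 (-21480, 8472) (by decide +kernel)
               (CovZ.leaf K2_ok TB_l41191 _)
               (CovZ.leaf K2_ok TB_l18918 _))
              (CovZ.n1 (-21432, 8472) (by decide +kernel)
               (CovZ.n2 (-21432, 8448) (by decide +kernel)
                (CovZ.leaf K2_ok TB_l41192 _)
                (CovZ.leaf K2_ok TB_l41193 _))
               (CovZ.leaf K2_ok TB_l41194 _))))
            (CovZ.subM 105312291668557186697918027683670432318895095400549111254310977536 (by decide +kernel)
             (CovZ.n1 (-21360, 8496) (by decide +kernel)
              (CovZ.n2 (-21360, 8448) (by decide +kernel)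
               (CovZ.n2 (-21384, 8472) (by decide +kernel)
                (CovZ.n2 (-21360, 8472) (by decide +kernel)
                 (CovZ.leaf K2_ok TB_l41195 _)
                 (CovZ.leaf K2_ok TB_l41196 _))
                (CovZ.n1 (-21384, 8448) (by decide +kernel)
                 (CovZ.leaf K2_ok TB_l41197 _)
                 (CovZ.leaf K2_ok TB_l41198 _)))
               (CovZ.n1 (-21336, 8472) (by decide +kernel)
                (CovZ.n2 (-21336, 8448) (by decide +kernel)
                 (CovZ.leaf K2_ok TB_l41199 _)
                 (CovZ.badM (by decide +kernel)))
                (CovZ.n1 (-21360, 8472) (by decide +kernel)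
                 (CovZ.badM (by decide +kernel))
                 (CovZ.leaf K2_ok TB_l41202 _))))
              (CovZ.n1 (-21408, 8496) (by decide +kernel)
               (CovZ.n2 (-21384, 8520) (by decide +kernel)
                (CovZ.n2 (-21384, 8496) (by decide +kernel)
                 (CovZ.leaf K2_ok TB_l41203 _)
                 (CovZ.leaf K2_ok TB_l41204 _))
                (CovZ.leaf K2_ok TB_l41205 _))
               (CovZ.n1 (-21384, 8472) (by decide +kernel)
                (CovZ.leaf K2_ok TB_l41206 _)
                (CovZ.n1 (-21384, 8496) (by decide +kernel)
                 (CovZ.leaf K2_ok TB_l41207 _)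
                 (CovZ.leaf K2_ok TB_l41208 _))))))))
          (CovZ.badM (by decide +kernel))))
        (CovZ.badM (by decide +kernel))))

theorem TB_u254 : CovZ TB_M (toL (selN TB_LN 1233717610416201951478948211507278396744129346824629220881071257772344491768899236482715986403307800129190737485824)) [0, 7, 6, 1] (-21120, 8832) (-21504, 9216) (-21504, 8448) :=
    (CovZ.n1 (-21504, 8832) (by decide +kernel)
       (CovZ.subM 1233717601242207419029275605867781642566316391645293069837241352304231646406568966176976784832790276412054674866176 (by decide +kernel)
        (CovZ.n2 (-21312, 9024) (by decide +kernel)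
         (CovZ.subM 1233717601242207393364056377380596433788633703451768391392102408824862518661107450930190189563775135392294607257600 (by decide +kernel)
          (CovZ.n2 (-21312, 8832) (by decide +kernel)
           (CovZ.n2 (-21408, 8928) (by decide +kernel)
            TB_u243
            TB_u244)
           (CovZ.subM 1233717601242136000125024057522936407573771138802165097648468085511129154354346209618785034509810534217006333296640 (by decide +kernel)
            (CovZ.n1 (-21216, 8928) (by decide +kernel)
             TB_u247
             TB_u248))))
         (CovZ.n1 (-21504, 9024) (by decide +kernel)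
          TB_u249
          TB_u250)))
       (CovZ.subM 1231312693637411787205844762396383162864572186938539938734584396825124232484197188738676748529418221071845587689472 (by decide +kernel)
        (CovZ.n1 (-21312, 8640) (by decide +kernel)
         (CovZ.n2 (-21504, 8640) (by decide +kernel)
          (CovZ.n2 (-21408, 8736) (by decide +kernel)
           (CovZ.n2 (-21408, 8640) (by decide +kernel)
            (CovZ.n2 (-21456, 8688) (by decide +kernel)
             (CovZ.subM 1231312693637340599021567890946091046571793414565939646844307118014670102329594508937157602000844066656453625118720 (by decide +kernel)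
              (CovZ.n2 (-21408, 8688) (by decide +kernel)
               (CovZ.n2 (-21432, 8664) (by decide +kernel)
                (CovZ.n2 (-21432, 8688) (by decide +kernel)
                 (CovZ.leaf K2_ok TB_l41233 _)
                 (CovZ.leaf K2_ok TB_l41234 _))
                (CovZ.n1 (-21408, 8664) (by decide +kernel)
                 (CovZ.leaf K2_ok TB_l41235 _)
                 (CovZ.leaf K2_ok TB_l41236 _)))
               (CovZ.n1 (-21432, 8712) (by decide +kernel)
                (CovZ.n2 (-21408, 8712) (by decide +kernel)
                 (CovZ.leaf K2_ok TB_l49323 _)
                 (CovZ.leaf K2_ok TB_l49324 _))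
                (CovZ.n1 (-21432, 8688) (by decide +kernel)
                 (CovZ.leaf K2_ok TB_l41237 _)
                 (CovZ.leaf K2_ok TB_l49325 _)))))
             (CovZ.n1 (-21456, 8640) (by decide +kernel)
              (CovZ.n2 (-21480, 8664) (by decide +kernel)
               (CovZ.n2 (-21456, 8664) (by decide +kernel)
                (CovZ.leaf K2_ok TB_l41238 _)
                (CovZ.leaf K2_ok TB_l41239 _))
               (CovZ.n1 (-21480, 8640) (by decide +kernel)
                (CovZ.leaf K2_ok TB_l18935 _)
                (CovZ.leaf K2_ok TB_l41240 _)))
              (CovZ.subM 1231312693637340599021567890946091046571793414565939646844307118014670102329594508937157602000844066656453625118720 (by decide +kernel)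
               (CovZ.n1 (-21432, 8664) (by decide +kernel)
                (CovZ.n2 (-21432, 8640) (by decide +kernel)
                 (CovZ.leaf K2_ok TB_l41241 _)
                 (CovZ.leaf K2_ok TB_l41242 _))
                (CovZ.n1 (-21456, 8664) (by decide +kernel)
                 (CovZ.leaf K2_ok TB_l41243 _)
                 (CovZ.leaf K2_ok TB_l41244 _))))))
            (CovZ.subM 1231312693637340598888068701201034166422104557930237327389969528157297359982926291324691016720692954854269263020032 (by decide +kernel)
             (CovZ.n1 (-21360, 8688) (by decide +kernel)
              (CovZ.n2 (-21360, 8640) (by decide +kernel)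
               (CovZ.n2 (-21384, 8664) (by decide +kernel)
                (CovZ.n2 (-21360, 8664) (by decide +kernel)
                 (CovZ.leaf K2_ok TB_l49326 _)
                 (CovZ.leaf K2_ok TB_l49327 _))
                (CovZ.n1 (-21384, 8640) (by decide +kernel)
                 (CovZ.leaf K2_ok TB_l49328 _)
                 (CovZ.leaf K2_ok TB_l49329 _)))
               (CovZ.n1 (-21336, 8664) (by decide +kernel)
                (CovZ.badM (by decide +kernel))
                (CovZ.n1 (-21360, 8664) (by decide +kernel)
                 (CovZ.n2 (-21348, 8676) (by decide +kernel)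
                  (CovZ.leaf K2_ok TB_l49330 _)
                  (CovZ.leaf K2_ok TB_l49331 _))
                 (CovZ.leaf K2_ok TB_l49332 _))))
              (CovZ.n1 (-21408, 8688) (by decide +kernel)
               (CovZ.n2 (-21384, 8712) (by decide +kernel)
                (CovZ.n2 (-21384, 8688) (by decide +kernel)
                 (CovZ.leaf K2_ok TB_l49333 _)
                 (CovZ.leaf K2_ok TB_l49334 _))
                (CovZ.n1 (-21408, 8712) (by decide +kernel)
                 (CovZ.leaf K2_ok TB_l49335 _)
                 (CovZ.leaf K2_ok TB_l49336 _)))
               (CovZ.n1 (-21384, 8664) (by decide +kernel)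
                (CovZ.n2 (-21408, 8664) (by decide +kernel)
                 (CovZ.leaf K2_ok TB_l49337 _)
                 (CovZ.leaf K2_ok TB_l49338 _))
                (CovZ.n1 (-21384, 8688) (by decide +kernel)
                 (CovZ.leaf K2_ok TB_l49339 _)
                 (CovZ.leaf K2_ok TB_l49340 _)))))))
           (CovZ.n1 (-21504, 8736) (by decide +kernel)
            (CovZ.n2 (-21456, 8784) (by decide +kernel)
             (CovZ.n2 (-21456, 8736) (by decide +kernel)
              (CovZ.n2 (-21480, 8760) (by decide +kernel)
               (CovZ.n2 (-21456, 8760) (by decide +kernel)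
                (CovZ.leaf K2_ok TB_l49341 _)
                (CovZ.leaf K2_ok TB_l49342 _))
               (CovZ.n1 (-21480, 8736) (by decide +kernel)
                (CovZ.leaf K2_ok TB_l18936 _)
                (CovZ.leaf K2_ok TB_l41245 _)))
              (CovZ.subM 1231312693637340598888068701201034166422104557930237327389969528157297359982926291324691016720692954854269263020032 (by decide +kernel)
               (CovZ.n1 (-21432, 8760) (by decide +kernel)
                (CovZ.n2 (-21432, 8736) (by decide +kernel)
                 (CovZ.leaf K2_ok TB_l49343 _)
                 (CovZ.leaf K2_ok TB_l49344 _))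
                (CovZ.n1 (-21456, 8760) (by decide +kernel)
                 (CovZ.leaf K2_ok TB_l49345 _)
                 (CovZ.leaf K2_ok TB_l49346 _)))))
             (CovZ.n1 (-21504, 8784) (by decide +kernel)
              (CovZ.n2 (-21480, 8808) (by decide +kernel)
               (CovZ.n2 (-21480, 8784) (by decide +kernel)
                (CovZ.leaf K2_ok TB_l18937 _)
                (CovZ.leaf K2_ok TB_l41246 _))
               (CovZ.n1 (-21504, 8808) (by decide +kernel)
                (CovZ.leaf K2_ok TB_l18938 _)
                (CovZ.leaf K2_ok TB_l18939 _)))
              (CovZ.n1 (-21480, 8760) (by decide +kernel)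
               (CovZ.n2 (-21504, 8760) (by decide +kernel)
                (CovZ.leaf K2_ok TB_l18940 _)
                (CovZ.leaf K2_ok TB_l18941 _))
               (CovZ.n1 (-21480, 8784) (by decide +kernel)
                (CovZ.leaf K2_ok TB_l49347 _)
                (CovZ.leaf K2_ok TB_l18942 _)))))
            (CovZ.n1 (-21456, 8688) (by decide +kernel)
             (CovZ.n2 (-21504, 8688) (by decide +kernel)
              (CovZ.n2 (-21480, 8712) (by decide +kernel)
               (CovZ.n2 (-21480, 8688) (by decide +kernel)
                (CovZ.leaf K2_ok TB_l18943 _)
                (CovZ.leaf K2_ok TB_l41247 _))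
               (CovZ.leaf K2_ok TB_l18944 _))
              (CovZ.n1 (-21480, 8664) (by decide +kernel)
               (CovZ.leaf K2_ok TB_l18945 _)
               (CovZ.n1 (-21480, 8688) (by decide +kernel)
                (CovZ.leaf K2_ok TB_l41248 _)
                (CovZ.leaf K2_ok TB_l18946 _))))
             (CovZ.n1 (-21456, 8736) (by decide +kernel)
              (CovZ.subM 1231312693637340599021567890946091046571793414565939646844307118014670102329594508937157602000844066656453625118720 (by decide +kernel)
               (CovZ.n2 (-21432, 8712) (by decide +kernel)
                (CovZ.n2 (-21456, 8712) (by decide +kernel)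
                 (CovZ.leaf K2_ok TB_l41249 _)
                 (CovZ.leaf K2_ok TB_l41250 _))
                (CovZ.n1 (-21432, 8736) (by decide +kernel)
                 (CovZ.leaf K2_ok TB_l49348 _)
                 (CovZ.leaf K2_ok TB_l49349 _))))
              (CovZ.n1 (-21480, 8712) (by decide +kernel)
               (CovZ.n2 (-21480, 8736) (by decide +kernel)
                (CovZ.leaf K2_ok TB_l41251 _)
                (CovZ.leaf K2_ok TB_l18947 _))
               (CovZ.n1 (-21456, 8712) (by decide +kernel)
                (CovZ.leaf K2_ok TB_l41252 _)
                (CovZ.leaf K2_ok TB_l41253 _)))))))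
          (CovZ.n1 (-21408, 8544) (by decide +kernel)
           (CovZ.n2 (-21504, 8544) (by decide +kernel)
            (CovZ.n2 (-21456, 8592) (by decide +kernel)
             (CovZ.n2 (-21456, 8544) (by decide +kernel)
              (CovZ.n2 (-21480, 8568) (by decide +kernel)
               (CovZ.leaf K2_ok TB_l41254 _)
               (CovZ.n1 (-21480, 8544) (by decide +kernel)
                (CovZ.leaf K2_ok TB_l18948 _)
                (CovZ.leaf K2_ok TB_l41255 _)))
              (CovZ.n1 (-21432, 8568) (by decide +kernel)
               (CovZ.n2 (-21432, 8544) (by decide +kernel)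
                (CovZ.leaf K2_ok TB_l41256 _)
                (CovZ.leaf K2_ok TB_l41257 _))
               (CovZ.leaf K2_ok TB_l41258 _)))
             (CovZ.n1 (-21504, 8592) (by decide +kernel)
              (CovZ.n2 (-21480, 8616) (by decide +kernel)
               (CovZ.n2 (-21480, 8592) (by decide +kernel)
                (CovZ.leaf K2_ok TB_l18949 _)
                (CovZ.leaf K2_ok TB_l41259 _))
               (CovZ.leaf K2_ok TB_l18950 _))
              (CovZ.n1 (-21480, 8568) (by decide +kernel)
               (CovZ.leaf K2_ok TB_l18951 _)
               (CovZ.n1 (-21480, 8592) (by decide +kernel)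
                (CovZ.leaf K2_ok TB_l41260 _)
                (CovZ.leaf K2_ok TB_l18952 _)))))
            (CovZ.n1 (-21456, 8496) (by decide +kernel)
             (CovZ.n2 (-21504, 8496) (by decide +kernel)
              (CovZ.n2 (-21480, 8520) (by decide +kernel)
               (CovZ.leaf K2_ok TB_l18953 _)
               (CovZ.leaf K2_ok TB_l18954 _))
              (CovZ.n1 (-21480, 8472) (by decide +kernel)
               (CovZ.leaf K2_ok TB_l18955 _)
               (CovZ.n1 (-21480, 8496) (by decide +kernel)
                (CovZ.leaf K2_ok TB_l41261 _)
                (CovZ.leaf K2_ok TB_l18956 _))))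
             (CovZ.n1 (-21456, 8544) (by decide +kernel)
              (CovZ.n2 (-21432, 8520) (by decide +kernel)
               (CovZ.leaf K2_ok TB_l41262 _)
               (CovZ.n1 (-21432, 8544) (by decide +kernel)
                (CovZ.leaf K2_ok TB_l41263 _)
                (CovZ.leaf K2_ok TB_l41264 _)))
              (CovZ.n1 (-21480, 8520) (by decide +kernel)
               (CovZ.n2 (-21480, 8544) (by decide +kernel)
                (CovZ.leaf K2_ok TB_l41265 _)
                (CovZ.leaf K2_ok TB_l18957 _))
               (CovZ.leaf K2_ok TB_l41266 _)))))
           (CovZ.n1 (-21408, 8640) (by decide +kernel)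
            (CovZ.subM 1231312693637340599021567890946091046571793414565939646844307117991286076132300062245898644677383538341958704431104 (by decide +kernel)
             (CovZ.n2 (-21360, 8592) (by decide +kernel)
              (CovZ.n2 (-21408, 8592) (by decide +kernel)
               (CovZ.n2 (-21384, 8616) (by decide +kernel)
                (CovZ.n2 (-21384, 8592) (by decide +kernel)
                 (CovZ.leaf K2_ok TB_l41267 _)
                 (CovZ.leaf K2_ok TB_l49350 _))
                (CovZ.n1 (-21408, 8616) (by decide +kernel)
                 (CovZ.leaf K2_ok TB_l41268 _)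
                 (CovZ.leaf K2_ok TB_l41269 _)))
               (CovZ.n1 (-21384, 8568) (by decide +kernel)
                (CovZ.leaf K2_ok TB_l41270 _)
                (CovZ.n1 (-21384, 8592) (by decide +kernel)
                 (CovZ.badM (by decide +kernel))
                 (CovZ.leaf K2_ok TB_l41271 _))))
              (CovZ.n1 (-21360, 8640) (by decide +kernel)
               (CovZ.badM (by decide +kernel))
               (CovZ.n1 (-21384, 8616) (by decide +kernel)
                (CovZ.n2 (-21384, 8640) (by decide +kernel)
                 (CovZ.leaf K2_ok TB_l49351 _)
                 (CovZ.leaf K2_ok TB_l49352 _))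
                (CovZ.n1 (-21360, 8616) (by decide +kernel)
                 (CovZ.leaf K2_ok TB_l49353 _)
                 (CovZ.leaf K2_ok TB_l49354 _))))))
            (CovZ.n1 (-21456, 8592) (by decide +kernel)
             (CovZ.n2 (-21456, 8640) (by decide +kernel)
              (CovZ.n2 (-21432, 8616) (by decide +kernel)
               (CovZ.leaf K2_ok TB_l41272 _)
               (CovZ.n1 (-21432, 8640) (by decide +kernel)
                (CovZ.leaf K2_ok TB_l41273 _)
                (CovZ.leaf K2_ok TB_l41274 _)))
              (CovZ.n1 (-21480, 8616) (by decide +kernel)
               (CovZ.n2 (-21480, 8640) (by decide +kernel)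
                (CovZ.leaf K2_ok TB_l41275 _)
                (CovZ.leaf K2_ok TB_l18958 _))
               (CovZ.n1 (-21456, 8616) (by decide +kernel)
                (CovZ.leaf K2_ok TB_l41276 _)
                (CovZ.leaf K2_ok TB_l41277 _))))
             (CovZ.subM 1231312693637340599021567890946091046571793414565939646844307118014670102329594508937157602000844066656453625118720 (by decide +kernel)
              (CovZ.n1 (-21408, 8592) (by decide +kernel)
               (CovZ.n2 (-21432, 8568) (by decide +kernel)
                (CovZ.n2 (-21432, 8592) (by decide +kernel)
                 (CovZ.leaf K2_ok TB_l41278 _)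
                 (CovZ.leaf K2_ok TB_l41279 _))
                (CovZ.n1 (-21408, 8568) (by decide +kernel)
                 (CovZ.leaf K2_ok TB_l41280 _)
                 (CovZ.leaf K2_ok TB_l41281 _)))
               (CovZ.n1 (-21432, 8616) (by decide +kernel)
                (CovZ.n2 (-21408, 8616) (by decide +kernel)
                 (CovZ.leaf K2_ok TB_l41282 _)
                 (CovZ.leaf K2_ok TB_l41283 _))
                (CovZ.n1 (-21432, 8592) (by decide +kernel)
                 (CovZ.leaf K2_ok TB_l41284 _)
                 (CovZ.leaf K2_ok TB_l41285 _)))))))))
         (CovZ.n1 (-21312, 8832) (by decide +kernel)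
          TB_u251
          TB_u252))))

theorem TB_u255 : CovZ TB_M (toL (selN TB_LN 1231312693637410590911261757582614086493372321814033941109716029911826589136601076526186032705589546688114577121280)) [0, 7, 6, 1] (-21504, 7680) (-21120, 8064) (-21504, 8448) :=
    (CovZ.n2 (-21504, 8064) (by decide +kernel)
        (CovZ.n2 (-21312, 8256) (by decide +kernel)
         (CovZ.n2 (-21312, 8064) (by decide +kernel)
          (CovZ.n2 (-21408, 8160) (by decide +kernel)
           (CovZ.subM 105312291668557186697918027683670432318895095400549111254310977536 (by decide +kernel)
            (CovZ.n2 (-21312, 8160) (by decide +kernel)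
             (CovZ.n2 (-21360, 8112) (by decide +kernel)
              (CovZ.n2 (-21360, 8160) (by decide +kernel)
               (CovZ.n2 (-21336, 8136) (by decide +kernel)
                (CovZ.leaf K2_ok TB_l41286 _)
                (CovZ.leaf K2_ok TB_l41287 _))
               (CovZ.n1 (-21384, 8136) (by decide +kernel)
                (CovZ.leaf K2_ok TB_l41288 _)
                (CovZ.leaf K2_ok TB_l41289 _)))
              (CovZ.badM (by decide +kernel)))
             (CovZ.n1 (-21360, 8208) (by decide +kernel)
              (CovZ.n2 (-21312, 8208) (by decide +kernel)
               (CovZ.n2 (-21336, 8184) (by decide +kernel)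
                (CovZ.leaf K2_ok TB_l41294 _)
                (CovZ.badM (by decide +kernel)))
               (CovZ.n1 (-21336, 8232) (by decide +kernel)
                (CovZ.badM (by decide +kernel))
                (CovZ.leaf K2_ok TB_l41297 _)))
              (CovZ.n1 (-21360, 8160) (by decide +kernel)
               (CovZ.n2 (-21384, 8184) (by decide +kernel)
                (CovZ.leaf K2_ok TB_l41298 _)
                (CovZ.leaf K2_ok TB_l41299 _))
               (CovZ.n1 (-21336, 8184) (by decide +kernel)
                (CovZ.leaf K2_ok TB_l41300 _)
                (CovZ.leaf K2_ok TB_l41301 _))))))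
           (CovZ.n1 (-21408, 8064) (by decide +kernel)
            (CovZ.n2 (-21456, 8112) (by decide +kernel)
             (CovZ.n2 (-21408, 8112) (by decide +kernel)
              (CovZ.leaf K2_ok TB_l41302 _)
              (CovZ.leaf K2_ok TB_l41303 _))
             (CovZ.n1 (-21456, 8064) (by decide +kernel)
              (CovZ.leaf K2_ok TB_l18960 _)
              (CovZ.leaf K2_ok TB_l41304 _)))
            (CovZ.subM 105312291668557186697918027683670432318895095400549111254310977536 (by decide +kernel)
             (CovZ.n1 (-21360, 8112) (by decide +kernel)
              (CovZ.n2 (-21360, 8064) (by decide +kernel)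
               (CovZ.leaf K2_ok TB_l41305 _)
               (CovZ.badM (by decide +kernel)))
              (CovZ.n1 (-21408, 8112) (by decide +kernel)
               (CovZ.leaf K2_ok TB_l41307 _)
               (CovZ.leaf K2_ok TB_l41308 _))))))
          (CovZ.badM (by decide +kernel)))
         (CovZ.n1 (-21504, 8256) (by decide +kernel)
          (CovZ.n2 (-21408, 8352) (by decide +kernel)
           (CovZ.n2 (-21408, 8256) (by decide +kernel)
            (CovZ.n2 (-21456, 8304) (by decide +kernel)
             (CovZ.subM 105312291668557210081944224978117123577852418861077425749231665152 (by decide +kernel)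
              (CovZ.n2 (-21408, 8304) (by decide +kernel)
               (CovZ.n2 (-21432, 8280) (by decide +kernel)
                (CovZ.leaf K2_ok TB_l41349 _)
                (CovZ.leaf K2_ok TB_l41350 _))
               (CovZ.n1 (-21432, 8328) (by decide +kernel)
                (CovZ.leaf K2_ok TB_l41351 _)
                (CovZ.leaf K2_ok TB_l41352 _))))
             (CovZ.n1 (-21456, 8256) (by decide +kernel)
              (CovZ.leaf K2_ok TB_l18961 _)
              (CovZ.n1 (-21432, 8280) (by decide +kernel)
               (CovZ.leaf K2_ok TB_l41353 _)
               (CovZ.leaf K2_ok TB_l41354 _))))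
            (CovZ.subM 105312291668557186697918027683670432318895095400549111254310977536 (by decide +kernel)
             (CovZ.n1 (-21360, 8304) (by decide +kernel)
              (CovZ.n2 (-21360, 8256) (by decide +kernel)
               (CovZ.n2 (-21384, 8280) (by decide +kernel)
                (CovZ.leaf K2_ok TB_l41355 _)
                (CovZ.leaf K2_ok TB_l41356 _))
               (CovZ.n1 (-21336, 8280) (by decide +kernel)
                (CovZ.leaf K2_ok TB_l41357 _)
                (CovZ.leaf K2_ok TB_l41358 _)))
              (CovZ.n1 (-21408, 8304) (by decide +kernel)
               (CovZ.n2 (-21384, 8328) (by decide +kernel)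
                (CovZ.leaf K2_ok TB_l41359 _)
                (CovZ.leaf K2_ok TB_l41360 _))
               (CovZ.n1 (-21384, 8280) (by decide +kernel)
                (CovZ.leaf K2_ok TB_l41361 _)
                (CovZ.n1 (-21384, 8304) (by decide +kernel)
                 (CovZ.leaf K2_ok TB_l41362 _)
                 (CovZ.leaf K2_ok TB_l41363 _)))))))
           (CovZ.n1 (-21504, 8352) (by decide +kernel)
            (CovZ.n2 (-21456, 8400) (by decide +kernel)
             (CovZ.n2 (-21456, 8352) (by decide +kernel)
              (CovZ.n2 (-21480, 8376) (by decide +kernel)
               (CovZ.leaf K2_ok TB_l41364 _)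
               (CovZ.leaf K2_ok TB_l18962 _))
              (CovZ.n1 (-21432, 8376) (by decide +kernel)
               (CovZ.leaf K2_ok TB_l41365 _)
               (CovZ.leaf K2_ok TB_l41366 _)))
             (CovZ.n1 (-21504, 8400) (by decide +kernel)
              (CovZ.n2 (-21480, 8424) (by decide +kernel)
               (CovZ.leaf K2_ok TB_l18963 _)
               (CovZ.leaf K2_ok TB_l18964 _))
              (CovZ.n1 (-21480, 8376) (by decide +kernel)
               (CovZ.leaf K2_ok TB_l18965 _)
               (CovZ.leaf K2_ok TB_l18966 _))))
            (CovZ.n1 (-21456, 8304) (by decide +kernel)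
             (CovZ.n2 (-21504, 8304) (by decide +kernel)
              (CovZ.n2 (-21480, 8328) (by decide +kernel)
               (CovZ.leaf K2_ok TB_l18967 _)
               (CovZ.leaf K2_ok TB_l18968 _))
              (CovZ.n1 (-21480, 8280) (by decide +kernel)
               (CovZ.leaf K2_ok TB_l18969 _)
               (CovZ.leaf K2_ok TB_l18970 _)))
             (CovZ.n1 (-21456, 8352) (by decide +kernel)
              (CovZ.n2 (-21432, 8328) (by decide +kernel)
               (CovZ.leaf K2_ok TB_l41367 _)
               (CovZ.leaf K2_ok TB_l41368 _))
              (CovZ.n1 (-21480, 8328) (by decide +kernel)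
               (CovZ.leaf K2_ok TB_l18971 _)
               (CovZ.leaf K2_ok TB_l41369 _))))))
          (CovZ.n1 (-21408, 8160) (by decide +kernel)
           (CovZ.n2 (-21504, 8160) (by decide +kernel)
            (CovZ.n2 (-21456, 8208) (by decide +kernel)
             (CovZ.n2 (-21456, 8160) (by decide +kernel)
              (CovZ.leaf K2_ok TB_l18972 _)
              (CovZ.leaf K2_ok TB_l41370 _))
             (CovZ.n1 (-21504, 8208) (by decide +kernel)
              (CovZ.leaf K2_ok TB_l18973 _)
              (CovZ.leaf K2_ok TB_l18974 _)))
            (CovZ.n1 (-21456, 8112) (by decide +kernel)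
             (CovZ.n2 (-21504, 8112) (by decide +kernel)
              (CovZ.leaf K2_ok TB_l18975 _)
              (CovZ.leaf K2_ok TB_l18976 _))
             (CovZ.n1 (-21456, 8160) (by decide +kernel)
              (CovZ.leaf K2_ok TB_l41371 _)
              (CovZ.leaf K2_ok TB_l18977 _))))
           (CovZ.n1 (-21408, 8256) (by decide +kernel)
            (CovZ.subM 105312291668557186697918027683670432318895095400549111254310977536 (by decide +kernel)
             (CovZ.n2 (-21360, 8208) (by decide +kernel)
              (CovZ.n2 (-21408, 8208) (by decide +kernel)
               (CovZ.n2 (-21384, 8232) (by decide +kernel)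
                (CovZ.leaf K2_ok TB_l41372 _)
                (CovZ.leaf K2_ok TB_l41373 _))
               (CovZ.n1 (-21384, 8184) (by decide +kernel)
                (CovZ.leaf K2_ok TB_l41374 _)
                (CovZ.leaf K2_ok TB_l41375 _)))
              (CovZ.n1 (-21360, 8256) (by decide +kernel)
               (CovZ.n2 (-21336, 8232) (by decide +kernel)
                (CovZ.leaf K2_ok TB_l41376 _)
                (CovZ.n1 (-21336, 8256) (by decide +kernel)
                 (CovZ.badM (by decide +kernel))
                 (CovZ.leaf K2_ok TB_l41378 _)))
               (CovZ.n1 (-21384, 8232) (by decide +kernel)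
                (CovZ.leaf K2_ok TB_l41379 _)
                (CovZ.leaf K2_ok TB_l41380 _)))))
            (CovZ.n1 (-21456, 8208) (by decide +kernel)
             (CovZ.n2 (-21456, 8256) (by decide +kernel)
              (CovZ.n2 (-21432, 8232) (by decide +kernel)
               (CovZ.leaf K2_ok TB_l41381 _)
               (CovZ.leaf K2_ok TB_l41382 _))
              (CovZ.leaf K2_ok TB_l18978 _))
             (CovZ.n1 (-21408, 8208) (by decide +kernel)
              (CovZ.leaf K2_ok TB_l41383 _)
              (CovZ.leaf K2_ok TB_l41384 _)))))))
        (CovZ.n1 (-21312, 7872) (by decide +kernel)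
         (CovZ.n2 (-21504, 7872) (by decide +kernel)
          (CovZ.n2 (-21408, 7968) (by decide +kernel)
           (CovZ.subM 105312297957918956563604494269666705520635955353439412180576378880 (by decide +kernel)
            (CovZ.n2 (-21408, 7872) (by decide +kernel)
             (CovZ.n2 (-21456, 7920) (by decide +kernel)
              (CovZ.leaf K2_ok TB_l41385 _)
              (CovZ.n1 (-21456, 7872) (by decide +kernel)
               (CovZ.leaf K2_ok TB_l18979 _)
               (CovZ.leaf K2_ok TB_l41386 _)))
             (CovZ.badM (by decide +kernel))))
           (CovZ.n1 (-21504, 7968) (by decide +kernel)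
            (CovZ.n2 (-21456, 8016) (by decide +kernel)
             (CovZ.n2 (-21456, 7968) (by decide +kernel)
              (CovZ.leaf K2_ok TB_l18980 _)
              (CovZ.leaf K2_ok TB_l41390 _))
             (CovZ.leaf K2_ok TB_l18981 _))
            (CovZ.n1 (-21456, 7920) (by decide +kernel)
             (CovZ.leaf K2_ok TB_l18982 _)
             (CovZ.n1 (-21456, 7968) (by decide +kernel)
              (CovZ.leaf K2_ok TB_l41391 _)
              (CovZ.leaf K2_ok TB_l18983 _)))))
          (CovZ.subM 105312297957918956563604494269666705520635955353439412180576378880 (by decide +kernel)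
           (CovZ.n1 (-21408, 7776) (by decide +kernel)
            (CovZ.n2 (-21504, 7776) (by decide +kernel)
             (CovZ.n2 (-21456, 7824) (by decide +kernel)
              (CovZ.n2 (-21456, 7776) (by decide +kernel)
               (CovZ.leaf K2_ok TB_l18984 _)
               (CovZ.leaf K2_ok TB_l41392 _))
              (CovZ.leaf K2_ok TB_l18985 _))
             (CovZ.n1 (-21456, 7728) (by decide +kernel)
              (CovZ.leaf K2_ok TB_l18986 _)
              (CovZ.n1 (-21456, 7776) (by decide +kernel)
               (CovZ.leaf K2_ok TB_l41393 _)
               (CovZ.leaf K2_ok TB_l18987 _))))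
            (CovZ.n1 (-21408, 7872) (by decide +kernel)
             (CovZ.badM (by decide +kernel))
             (CovZ.n1 (-21456, 7824) (by decide +kernel)
              (CovZ.n2 (-21456, 7872) (by decide +kernel)
               (CovZ.leaf K2_ok TB_l41396 _)
               (CovZ.leaf K2_ok TB_l18988 _))
              (CovZ.leaf K2_ok TB_l41397 _))))))
         (CovZ.n1 (-21312, 8064) (by decide +kernel)
          (CovZ.badM (by decide +kernel))
          (CovZ.n1 (-21408, 7968) (by decide +kernel)
           (CovZ.n2 (-21408, 8064) (by decide +kernel)
            (CovZ.subM 105312291668557186697918027683670432318895095400549111254310977536 (by decide +kernel)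
             (CovZ.n2 (-21360, 8016) (by decide +kernel)
              (CovZ.n2 (-21408, 8016) (by decide +kernel)
               (CovZ.leaf K2_ok TB_l41430 _)
               (CovZ.badM (by decide +kernel)))
              (CovZ.n1 (-21360, 8064) (by decide +kernel)
               (CovZ.badM (by decide +kernel))
               (CovZ.leaf K2_ok TB_l41434 _))))
            (CovZ.n1 (-21456, 8016) (by decide +kernel)
             (CovZ.n2 (-21456, 8064) (by decide +kernel)
              (CovZ.leaf K2_ok TB_l41435 _)
              (CovZ.leaf K2_ok TB_l18989 _))
             (CovZ.n1 (-21408, 8016) (by decide +kernel)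
              (CovZ.leaf K2_ok TB_l41436 _)
              (CovZ.leaf K2_ok TB_l41437 _))))
           (CovZ.badM (by decide +kernel))))))

theorem TB_u256 : CovZ TB_M (toL (selN TB_LN 1231312693637410590911261757582614086493372321814033941109716029911826589136601076526186032705589546688114577121280)) [0, 7, 6, 1] (-21120, 8064) (-20736, 8448) (-21504, 8448) :=
    (CovZ.n1 (-21120, 8448) (by decide +kernel)
        (CovZ.badM (by decide +kernel))
        (CovZ.n1 (-21312, 8256) (by decide +kernel)
         (CovZ.n2 (-21312, 8448) (by decide +kernel)
          (CovZ.badM (by decide +kernel))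
          (CovZ.n1 (-21408, 8352) (by decide +kernel)
           (CovZ.n2 (-21408, 8448) (by decide +kernel)
            (CovZ.subM 105312291668557186697918027683670432318895095400549111254310977536 (by decide +kernel)
             (CovZ.n2 (-21360, 8400) (by decide +kernel)
              (CovZ.n2 (-21408, 8400) (by decide +kernel)
               (CovZ.n2 (-21384, 8424) (by decide +kernel)
                (CovZ.n2 (-21384, 8400) (by decide +kernel)
                 (CovZ.leaf K2_ok TB_l41464 _)
                 (CovZ.leaf K2_ok TB_l41465 _))
                (CovZ.leaf K2_ok TB_l41466 _))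
               (CovZ.n1 (-21384, 8376) (by decide +kernel)
                (CovZ.leaf K2_ok TB_l41467 _)
                (CovZ.n1 (-21384, 8400) (by decide +kernel)
                 (CovZ.leaf K2_ok TB_l41468 _)
                 (CovZ.leaf K2_ok TB_l41469 _))))
              (CovZ.n1 (-21360, 8448) (by decide +kernel)
               (CovZ.n2 (-21336, 8424) (by decide +kernel)
                (CovZ.leaf K2_ok TB_l41470 _)
                (CovZ.n1 (-21336, 8448) (by decide +kernel)
                 (CovZ.badM (by decide +kernel))
                 (CovZ.leaf K2_ok TB_l41472 _)))
               (CovZ.n1 (-21384, 8424) (by decide +kernel)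
                (CovZ.n2 (-21384, 8448) (by decide +kernel)
                 (CovZ.leaf K2_ok TB_l41473 _)
                 (CovZ.leaf K2_ok TB_l41474 _))
                (CovZ.leaf K2_ok TB_l41475 _)))))
            (CovZ.n1 (-21456, 8400) (by decide +kernel)
             (CovZ.n2 (-21456, 8448) (by decide +kernel)
              (CovZ.n2 (-21432, 8424) (by decide +kernel)
               (CovZ.leaf K2_ok TB_l41476 _)
               (CovZ.n1 (-21432, 8448) (by decide +kernel)
                (CovZ.leaf K2_ok TB_l41477 _)
                (CovZ.leaf K2_ok TB_l41478 _)))
              (CovZ.n1 (-21480, 8424) (by decide +kernel)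
               (CovZ.leaf K2_ok TB_l18990 _)
               (CovZ.leaf K2_ok TB_l41479 _)))
             (CovZ.subM 105312291668557210081944224978117123577852418861077425749231665152 (by decide +kernel)
              (CovZ.n1 (-21408, 8400) (by decide +kernel)
               (CovZ.n2 (-21432, 8376) (by decide +kernel)
                (CovZ.n2 (-21432, 8400) (by decide +kernel)
                 (CovZ.leaf K2_ok TB_l41480 _)
                 (CovZ.leaf K2_ok TB_l41481 _))
                (CovZ.leaf K2_ok TB_l41482 _))
               (CovZ.n1 (-21432, 8424) (by decide +kernel)
                (CovZ.leaf K2_ok TB_l41483 _)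
                (CovZ.n1 (-21432, 8400) (by decide +kernel)
                 (CovZ.leaf K2_ok TB_l41484 _)
                 (CovZ.leaf K2_ok TB_l41485 _)))))))
           (CovZ.subM 105312291668557186697918027683670432318895095400549111254310977536 (by decide +kernel)
            (CovZ.n1 (-21312, 8352) (by decide +kernel)
             (CovZ.n2 (-21360, 8304) (by decide +kernel)
              (CovZ.n2 (-21360, 8352) (by decide +kernel)
               (CovZ.n2 (-21336, 8328) (by decide +kernel)
                (CovZ.leaf K2_ok TB_l41486 _)
                (CovZ.n1 (-21336, 8352) (by decide +kernel)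
                 (CovZ.badM (by decide +kernel))
                 (CovZ.leaf K2_ok TB_l41488 _)))
               (CovZ.n1 (-21384, 8328) (by decide +kernel)
                (CovZ.n2 (-21384, 8352) (by decide +kernel)
                 (CovZ.leaf K2_ok TB_l41489 _)
                 (CovZ.leaf K2_ok TB_l41490 _))
                (CovZ.leaf K2_ok TB_l41491 _)))
              (CovZ.n1 (-21312, 8304) (by decide +kernel)
               (CovZ.n2 (-21336, 8280) (by decide +kernel)
                (CovZ.n2 (-21336, 8304) (by decide +kernel)
                 (CovZ.badM (by decide +kernel))
                 (CovZ.leaf K2_ok TB_l41493 _))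
                (CovZ.badM (by decide +kernel)))
               (CovZ.n1 (-21336, 8328) (by decide +kernel)
                (CovZ.badM (by decide +kernel))
                (CovZ.n1 (-21336, 8304) (by decide +kernel)
                 (CovZ.leaf K2_ok TB_l41496 _)
                 (CovZ.badM (by decide +kernel))))))
             (CovZ.n1 (-21360, 8400) (by decide +kernel)
              (CovZ.n2 (-21312, 8400) (by decide +kernel)
               (CovZ.n2 (-21336, 8376) (by decide +kernel)
                (CovZ.n2 (-21336, 8400) (by decide +kernel)
                 (CovZ.badM (by decide +kernel))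
                 (CovZ.leaf K2_ok TB_l41499 _))
                (CovZ.badM (by decide +kernel)))
               (CovZ.n1 (-21336, 8424) (by decide +kernel)
                (CovZ.badM (by decide +kernel))
                (CovZ.n1 (-21336, 8400) (by decide +kernel)
                 (CovZ.leaf K2_ok TB_l41503 _)
                 (CovZ.badM (by decide +kernel)))))
              (CovZ.n1 (-21360, 8352) (by decide +kernel)
               (CovZ.n2 (-21384, 8376) (by decide +kernel)
                (CovZ.leaf K2_ok TB_l41505 _)
                (CovZ.n1 (-21384, 8352) (by decide +kernel)
                 (CovZ.leaf K2_ok TB_l41506 _)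
                 (CovZ.leaf K2_ok TB_l41507 _)))
               (CovZ.n1 (-21336, 8376) (by decide +kernel)
                (CovZ.n2 (-21336, 8352) (by decide +kernel)
                 (CovZ.leaf K2_ok TB_l41508 _)
                 (CovZ.badM (by decide +kernel)))
                (CovZ.leaf K2_ok TB_l41510 _))))))))
         (CovZ.badM (by decide +kernel))))

theorem TB_u257 : CovZ TB_M (toL (selN TB_LN 9174029459972012944936574169918385606289949408533731382591311102687227738004201784194590225012054781067264)) [0, 7, 6, 1] (-20736, 8448) (-20352, 8832) (-20736, 9216) :=
    (CovZ.subM 34996011596528190789960035633881941845650710894291399074156182035740685445841874146792689155499360256 (by decide +kernel)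
        (CovZ.n2 (-20736, 8832) (by decide +kernel)
         (CovZ.n2 (-20544, 9024) (by decide +kernel)
          (CovZ.subM 1152921505680588800 (by decide +kernel)
           (CovZ.n2 (-20544, 8832) (by decide +kernel)
            (CovZ.n2 (-20640, 8928) (by decide +kernel)
             (CovZ.n2 (-20544, 8928) (by decide +kernel)
              (CovZ.n2 (-20592, 8880) (by decide +kernel)
               (CovZ.n2 (-20592, 8928) (by decide +kernel)
                (CovZ.n2 (-20568, 8904) (by decide +kernel)
                 (CovZ.leaf K2_ok TB_l18991 _)
                 (CovZ.n1 (-20568, 8928) (by decide +kernel)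
                  (CovZ.leaf K2_ok TB_l18992 _)
                  (CovZ.leaf K2_ok TB_l18993 _)))
                (CovZ.n1 (-20616, 8904) (by decide +kernel)
                 (CovZ.n2 (-20616, 8928) (by decide +kernel)
                  (CovZ.leaf K2_ok TB_l18994 _)
                  (CovZ.leaf K2_ok TB_l41544 _))
                 (CovZ.n1 (-20592, 8904) (by decide +kernel)
                  (CovZ.badM (by decide +kernel))
                  (CovZ.leaf K2_ok TB_l18996 _))))
               (CovZ.n1 (-20544, 8880) (by decide +kernel)
                (CovZ.badM (by decide +kernel))
                (CovZ.n1 (-20568, 8904) (by decide +kernel)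
                 (CovZ.leaf K2_ok TB_l18997 _)
                 (CovZ.badM (by decide +kernel)))))
              (CovZ.n1 (-20592, 8976) (by decide +kernel)
               (CovZ.leaf K2_ok TB_l19000 _)
               (CovZ.n1 (-20592, 8928) (by decide +kernel)
                (CovZ.n2 (-20616, 8952) (by decide +kernel)
                 (CovZ.leaf K2_ok TB_l19001 _)
                 (CovZ.n1 (-20616, 8928) (by decide +kernel)
                  (CovZ.leaf K2_ok TB_l41545 _)
                  (CovZ.leaf K2_ok TB_l19002 _)))
                (CovZ.n1 (-20568, 8952) (by decide +kernel)
                 (CovZ.n2 (-20568, 8928) (by decide +kernel)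
                  (CovZ.leaf K2_ok TB_l19003 _)
                  (CovZ.leaf K2_ok TB_l19004 _))
                 (CovZ.leaf K2_ok TB_l19005 _)))))
             (CovZ.badM (by decide +kernel)))
            (CovZ.n1 (-20448, 8928) (by decide +kernel)
             (CovZ.n2 (-20448, 8832) (by decide +kernel)
              (CovZ.n2 (-20496, 8880) (by decide +kernel)
               (CovZ.n2 (-20448, 8880) (by decide +kernel)
                (CovZ.badM (by decide +kernel))
                (CovZ.n1 (-20472, 8904) (by decide +kernel)
                 (CovZ.leaf K2_ok TB_l19007 _)
                 (CovZ.leaf K2_ok TB_l19008 _)))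
               (CovZ.badM (by decide +kernel)))
              (CovZ.n1 (-20400, 8880) (by decide +kernel)
               (CovZ.badM (by decide +kernel))
               (CovZ.n1 (-20448, 8880) (by decide +kernel)
                (CovZ.n2 (-20424, 8904) (by decide +kernel)
                 (CovZ.leaf K2_ok TB_l19009 _)
                 (CovZ.leaf K2_ok TB_l19010 _))
                (CovZ.badM (by decide +kernel)))))
             (CovZ.n1 (-20544, 8928) (by decide +kernel)
              (CovZ.n2 (-20496, 8976) (by decide +kernel)
               (CovZ.n2 (-20496, 8928) (by decide +kernel)
                (CovZ.n2 (-20520, 8952) (by decide +kernel)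
                 (CovZ.leaf K2_ok TB_l19011 _)
                 (CovZ.leaf K2_ok TB_l19012 _))
                (CovZ.n1 (-20472, 8952) (by decide +kernel)
                 (CovZ.leaf K2_ok TB_l19013 _)
                 (CovZ.leaf K2_ok TB_l19014 _)))
               (CovZ.n1 (-20544, 8976) (by decide +kernel)
                (CovZ.leaf K2_ok TB_l19015 _)
                (CovZ.n1 (-20520, 8952) (by decide +kernel)
                 (CovZ.leaf K2_ok TB_l19016 _)
                 (CovZ.leaf K2_ok TB_l19017 _))))
              (CovZ.n1 (-20496, 8880) (by decide +kernel)
               (CovZ.n2 (-20544, 8880) (by decide +kernel)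
                (CovZ.n2 (-20520, 8904) (by decide +kernel)
                 (CovZ.badM (by decide +kernel))
                 (CovZ.leaf K2_ok TB_l19020 _))
                (CovZ.badM (by decide +kernel)))
               (CovZ.n1 (-20496, 8928) (by decide +kernel)
                (CovZ.n2 (-20472, 8904) (by decide +kernel)
                 (CovZ.leaf K2_ok TB_l19021 _)
                 (CovZ.leaf K2_ok TB_l19022 _))
                (CovZ.n1 (-20520, 8904) (by decide +kernel)
                 (CovZ.n2 (-20520, 8928) (by decide +kernel)
                  (CovZ.leaf K2_ok TB_l19023 _)
                  (CovZ.leaf K2_ok TB_l19024 _))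
                 (CovZ.leaf K2_ok TB_l19025 _))))))))
          (CovZ.n1 (-20736, 9024) (by decide +kernel)
           (CovZ.n2 (-20640, 9120) (by decide +kernel)
            (CovZ.n2 (-20640, 9024) (by decide +kernel)
             (CovZ.n2 (-20688, 9072) (by decide +kernel)
              (CovZ.leaf K2_ok TB_l19026 _)
              (CovZ.n1 (-20688, 9024) (by decide +kernel)
               (CovZ.leaf K2_ok TB_l19027 _)
               (CovZ.leaf K2_ok TB_l19028 _)))
             (CovZ.n1 (-20592, 9072) (by decide +kernel)
              (CovZ.n2 (-20592, 9024) (by decide +kernel)
               (CovZ.leaf K2_ok TB_l19029 _)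
               (CovZ.leaf K2_ok TB_l19030 _))
              (CovZ.leaf K2_ok TB_l19031 _)))
            (CovZ.n1 (-20736, 9120) (by decide +kernel)
             (CovZ.n2 (-20688, 9168) (by decide +kernel)
              (CovZ.leaf K2_ok TB_l19032 _)
              (CovZ.leaf K2_ok TB_l19033 _))
             (CovZ.n1 (-20688, 9072) (by decide +kernel)
              (CovZ.leaf K2_ok TB_l19034 _)
              (CovZ.n1 (-20688, 9120) (by decide +kernel)
               (CovZ.leaf K2_ok TB_l19035 _)
               (CovZ.leaf K2_ok TB_l19036 _)))))
           (CovZ.subM 1152921505680588800 (by decide +kernel)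
            (CovZ.n1 (-20640, 8928) (by decide +kernel)
             (CovZ.n2 (-20736, 8928) (by decide +kernel)
              (CovZ.n2 (-20688, 8976) (by decide +kernel)
               (CovZ.n2 (-20688, 8928) (by decide +kernel)
                (CovZ.n2 (-20712, 8952) (by decide +kernel)
                 (CovZ.leaf K2_ok TB_l41546 _)
                 (CovZ.n1 (-20712, 8928) (by decide +kernel)
                  (CovZ.leaf K2_ok TB_l41547 _)
                  (CovZ.leaf K2_ok TB_l41548 _)))
                (CovZ.n1 (-20664, 8952) (by decide +kernel)
                 (CovZ.n2 (-20664, 8928) (by decide +kernel)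
                  (CovZ.leaf K2_ok TB_l41549 _)
                  (CovZ.leaf K2_ok TB_l41550 _))
                 (CovZ.leaf K2_ok TB_l41551 _)))
               (CovZ.n1 (-20736, 8976) (by decide +kernel)
                (CovZ.leaf K2_ok TB_l19037 _)
                (CovZ.n1 (-20712, 8952) (by decide +kernel)
                 (CovZ.n2 (-20736, 8952) (by decide +kernel)
                  (CovZ.leaf K2_ok TB_l41552 _)
                  (CovZ.leaf K2_ok TB_l41553 _))
                 (CovZ.leaf K2_ok TB_l41554 _))))
              (CovZ.badM (by decide +kernel)))
             (CovZ.n1 (-20640, 9024) (by decide +kernel)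
              (CovZ.n2 (-20592, 8976) (by decide +kernel)
               (CovZ.n2 (-20640, 8976) (by decide +kernel)
                (CovZ.leaf K2_ok TB_l19038 _)
                (CovZ.n1 (-20616, 8952) (by decide +kernel)
                 (CovZ.leaf K2_ok TB_l41555 _)
                 (CovZ.leaf K2_ok TB_l19039 _)))
               (CovZ.n1 (-20592, 9024) (by decide +kernel)
                (CovZ.leaf K2_ok TB_l19040 _)
                (CovZ.leaf K2_ok TB_l19041 _)))
              (CovZ.n1 (-20688, 8976) (by decide +kernel)
               (CovZ.n2 (-20688, 9024) (by decide +kernel)
                (CovZ.leaf K2_ok TB_l19042 _)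
                (CovZ.leaf K2_ok TB_l19043 _))
               (CovZ.n1 (-20640, 8976) (by decide +kernel)
                (CovZ.leaf K2_ok TB_l41556 _)
                (CovZ.leaf K2_ok TB_l19044 _))))))))
         (CovZ.badM (by decide +kernel))))

theorem TB_u258 : CovZ TB_M (toL (selN TB_LN 9174029459972012944936574169918385606289949408533731382591311102687227738004201784194590225012054781067264)) [0, 7, 6, 1] (-20352, 8832) (-19968, 9216) (-20736, 9216) :=
    (CovZ.n1 (-20352, 9216) (by decide +kernel)
        (CovZ.n2 (-20160, 9024) (by decide +kernel)
         (CovZ.subM 34996011596528190789960035633881941845650710894291399074156182035740680374929988224053738099961757696 (by decide +kernel)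
          (CovZ.n2 (-20352, 9024) (by decide +kernel)
           (CovZ.n2 (-20256, 9120) (by decide +kernel)
            (CovZ.n2 (-20256, 9024) (by decide +kernel)
             (CovZ.n2 (-20304, 9072) (by decide +kernel)
              (CovZ.leaf K2_ok TB_l19045 _)
              (CovZ.leaf K2_ok TB_l19046 _))
             (CovZ.leaf K2_ok TB_l19047 _))
            (CovZ.n1 (-20352, 9120) (by decide +kernel)
             (CovZ.leaf K2_ok TB_l19048 _)
             (CovZ.n1 (-20304, 9072) (by decide +kernel)
              (CovZ.leaf K2_ok TB_l19049 _)
              (CovZ.leaf K2_ok TB_l19050 _))))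
           (CovZ.subM 9671407709838539078238208 (by decide +kernel)
            (CovZ.n1 (-20256, 8928) (by decide +kernel)
             (CovZ.n2 (-20352, 8928) (by decide +kernel)
              (CovZ.n2 (-20304, 8976) (by decide +kernel)
               (CovZ.n2 (-20304, 8928) (by decide +kernel)
                (CovZ.leaf K2_ok TB_l19051 _)
                (CovZ.leaf K2_ok TB_l19052 _))
               (CovZ.leaf K2_ok TB_l19053 _))
              (CovZ.n1 (-20304, 8880) (by decide +kernel)
               (CovZ.n2 (-20352, 8880) (by decide +kernel)
                (CovZ.leaf K2_ok TB_l19054 _)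
                (CovZ.n1 (-20328, 8856) (by decide +kernel)
                 (CovZ.leaf K2_ok TB_l41557 _)
                 (CovZ.leaf K2_ok TB_l41558 _)))
               (CovZ.n1 (-20304, 8928) (by decide +kernel)
                (CovZ.leaf K2_ok TB_l19055 _)
                (CovZ.leaf K2_ok TB_l19056 _))))
             (CovZ.n1 (-20256, 9024) (by decide +kernel)
              (CovZ.n2 (-20208, 8976) (by decide +kernel)
               (CovZ.leaf K2_ok TB_l19057 _)
               (CovZ.leaf K2_ok TB_l19058 _))
              (CovZ.n1 (-20304, 8976) (by decide +kernel)
               (CovZ.leaf K2_ok TB_l19059 _)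
               (CovZ.leaf K2_ok TB_l19060 _)))))))
         (CovZ.n1 (-20160, 9216) (by decide +kernel)
          (CovZ.n2 (-20064, 9120) (by decide +kernel)
           (CovZ.n2 (-20160, 9120) (by decide +kernel)
            (CovZ.leaf K2_ok TB_l19061 _)
            (CovZ.leaf K2_ok TB_l19062 _))
           (CovZ.n1 (-20064, 9216) (by decide +kernel)
            (CovZ.leaf K2_ok TB_l19063 _)
            (CovZ.leaf K2_ok TB_l19064 _)))
          (CovZ.subM 34996011596528190789960035633881941845650710894291399074156182035740680374929988224053738099961757696 (by decide +kernel)
           (CovZ.n1 (-20256, 9120) (by decide +kernel)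
            (CovZ.n2 (-20256, 9216) (by decide +kernel)
             (CovZ.leaf K2_ok TB_l19065 _)
             (CovZ.leaf K2_ok TB_l19066 _))
            (CovZ.n1 (-20160, 9120) (by decide +kernel)
             (CovZ.leaf K2_ok TB_l19067 _)
             (CovZ.leaf K2_ok TB_l19068 _))))))
        (CovZ.subM 34996011596528190789960035633881941845650710894291399074156182035740685445841874146792689155499360256 (by decide +kernel)
         (CovZ.n1 (-20544, 9024) (by decide +kernel)
          (CovZ.n2 (-20544, 9216) (by decide +kernel)
           (CovZ.n2 (-20448, 9120) (by decide +kernel)
            (CovZ.n2 (-20544, 9120) (by decide +kernel)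
             (CovZ.leaf K2_ok TB_l19069 _)
             (CovZ.n1 (-20496, 9072) (by decide +kernel)
              (CovZ.leaf K2_ok TB_l19070 _)
              (CovZ.leaf K2_ok TB_l19071 _)))
            (CovZ.n1 (-20448, 9216) (by decide +kernel)
             (CovZ.leaf K2_ok TB_l19072 _)
             (CovZ.leaf K2_ok TB_l19073 _)))
           (CovZ.n1 (-20640, 9120) (by decide +kernel)
            (CovZ.n2 (-20640, 9216) (by decide +kernel)
             (CovZ.n2 (-20592, 9168) (by decide +kernel)
              (CovZ.leaf K2_ok TB_l19074 _)
              (CovZ.leaf K2_ok TB_l19075 _))
             (CovZ.leaf K2_ok TB_l19076 _))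
            (CovZ.n1 (-20544, 9120) (by decide +kernel)
             (CovZ.n2 (-20592, 9072) (by decide +kernel)
              (CovZ.leaf K2_ok TB_l19077 _)
              (CovZ.leaf K2_ok TB_l19078 _))
             (CovZ.n1 (-20592, 9168) (by decide +kernel)
              (CovZ.leaf K2_ok TB_l19079 _)
              (CovZ.leaf K2_ok TB_l19080 _)))))
          (CovZ.n1 (-20352, 9024) (by decide +kernel)
           (CovZ.subM 9671407709838539078238208 (by decide +kernel)
            (CovZ.n2 (-20448, 8928) (by decide +kernel)
             (CovZ.n2 (-20448, 9024) (by decide +kernel)
              (CovZ.n2 (-20400, 8976) (by decide +kernel)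
               (CovZ.leaf K2_ok TB_l19081 _)
               (CovZ.leaf K2_ok TB_l19082 _))
              (CovZ.n1 (-20496, 8976) (by decide +kernel)
               (CovZ.leaf K2_ok TB_l19083 _)
               (CovZ.leaf K2_ok TB_l19084 _)))
             (CovZ.n1 (-20352, 8928) (by decide +kernel)
              (CovZ.n2 (-20400, 8880) (by decide +kernel)
               (CovZ.n2 (-20400, 8928) (by decide +kernel)
                (CovZ.n2 (-20376, 8904) (by decide +kernel)
                 (CovZ.leaf K2_ok TB_l19085 _)
                 (CovZ.leaf K2_ok TB_l19086 _))
                (CovZ.leaf K2_ok TB_l19087 _))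
               (CovZ.n1 (-20352, 8880) (by decide +kernel)
                (CovZ.n2 (-20376, 8856) (by decide +kernel)
                 (CovZ.leaf K2_ok TB_l41559 _)
                 (CovZ.leaf K2_ok TB_l41560 _))
                (CovZ.n1 (-20376, 8904) (by decide +kernel)
                 (CovZ.leaf K2_ok TB_l19088 _)
                 (CovZ.leaf K2_ok TB_l19089 _))))
              (CovZ.n1 (-20400, 8976) (by decide +kernel)
               (CovZ.leaf K2_ok TB_l19090 _)
               (CovZ.n1 (-20400, 8928) (by decide +kernel)
                (CovZ.n2 (-20424, 8952) (by decide +kernel)
                 (CovZ.leaf K2_ok TB_l19091 _)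
                 (CovZ.leaf K2_ok TB_l19092 _))
                (CovZ.leaf K2_ok TB_l19093 _))))))
           (CovZ.n1 (-20448, 9120) (by decide +kernel)
            (CovZ.n2 (-20352, 9120) (by decide +kernel)
             (CovZ.leaf K2_ok TB_l19094 _)
             (CovZ.leaf K2_ok TB_l19095 _))
            (CovZ.subM 9671407709838539097112576 (by decide +kernel)
             (CovZ.n1 (-20448, 9024) (by decide +kernel)
              (CovZ.n2 (-20496, 9072) (by decide +kernel)
               (CovZ.leaf K2_ok TB_l19096 _)
               (CovZ.leaf K2_ok TB_l19097 _))
              (CovZ.n1 (-20400, 9072) (by decide +kernel)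
               (CovZ.leaf K2_ok TB_l19098 _)
               (CovZ.leaf K2_ok TB_l19099 _)))))))))

theorem TB_u259 : CovZ TB_M (toL (selN TB_LN 1233717601242206000692165257588156657225125727364064908903104434737745974763324322437783232492798578632141133840384)) [0, 7, 6, 1] (-21504, 9216) (-21312, 9024) (-21120, 9216) :=
    (CovZ.n2 (-21312, 9216) (by decide +kernel)
          (CovZ.n2 (-21216, 9120) (by decide +kernel)
           (CovZ.n2 (-21312, 9120) (by decide +kernel)
            (CovZ.n2 (-21264, 9168) (by decide +kernel)
             (CovZ.n2 (-21264, 9120) (by decide +kernel)
              (CovZ.n2 (-21288, 9144) (by decide +kernel)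
               (CovZ.leaf K2_ok TB_l19140 _)
               (CovZ.leaf K2_ok TB_l19141 _))
              (CovZ.leaf K2_ok TB_l19142 _))
             (CovZ.n1 (-21312, 9168) (by decide +kernel)
              (CovZ.leaf K2_ok TB_l19143 _)
              (CovZ.n1 (-21288, 9144) (by decide +kernel)
               (CovZ.leaf K2_ok TB_l19144 _)
               (CovZ.leaf K2_ok TB_l19145 _))))
            (CovZ.subM 1233717601242136000125024057522936407573771138802165097648468085512681999844010293974447361530494323876447389745152 (by decide +kernel)
             (CovZ.n1 (-21264, 9072) (by decide +kernel)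
              (CovZ.n2 (-21312, 9072) (by decide +kernel)
               (CovZ.n2 (-21288, 9096) (by decide +kernel)
                (CovZ.leaf K2_ok TB_l19146 _)
                (CovZ.leaf K2_ok TB_l19147 _))
               (CovZ.n1 (-21288, 9048) (by decide +kernel)
                (CovZ.leaf K2_ok TB_l41580 _)
                (CovZ.n1 (-21288, 9072) (by decide +kernel)
                 (CovZ.leaf K2_ok TB_l41581 _)
                 (CovZ.leaf K2_ok TB_l41582 _))))
              (CovZ.n1 (-21264, 9120) (by decide +kernel)
               (CovZ.n2 (-21240, 9096) (by decide +kernel)
                (CovZ.leaf K2_ok TB_l19148 _)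
                (CovZ.leaf K2_ok TB_l19149 _))
               (CovZ.n1 (-21288, 9096) (by decide +kernel)
                (CovZ.leaf K2_ok TB_l19150 _)
                (CovZ.leaf K2_ok TB_l19151 _))))))
           (CovZ.n1 (-21216, 9216) (by decide +kernel)
            (CovZ.subM 1233717601242136000125024057522936407573771138802165097648468085512681999844010293974447361530494323876447391842304 (by decide +kernel)
             (CovZ.n2 (-21168, 9168) (by decide +kernel)
              (CovZ.n2 (-21216, 9168) (by decide +kernel)
               (CovZ.leaf K2_ok TB_l19152 _)
               (CovZ.leaf K2_ok TB_l19153 _))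
              (CovZ.n1 (-21168, 9216) (by decide +kernel)
               (CovZ.leaf K2_ok TB_l19154 _)
               (CovZ.leaf K2_ok TB_l19155 _))))
            (CovZ.n1 (-21264, 9168) (by decide +kernel)
             (CovZ.n2 (-21264, 9216) (by decide +kernel)
              (CovZ.leaf K2_ok TB_l19156 _)
              (CovZ.leaf K2_ok TB_l19157 _))
             (CovZ.leaf K2_ok TB_l19158 _))))
          (CovZ.n1 (-21408, 9120) (by decide +kernel)
           (CovZ.n2 (-21408, 9216) (by decide +kernel)
            (CovZ.n2 (-21360, 9168) (by decide +kernel)
             (CovZ.n2 (-21408, 9168) (by decide +kernel)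
              (CovZ.leaf K2_ok TB_l19159 _)
              (CovZ.n1 (-21384, 9144) (by decide +kernel)
               (CovZ.leaf K2_ok TB_l19160 _)
               (CovZ.leaf K2_ok TB_l19161 _)))
             (CovZ.n1 (-21360, 9216) (by decide +kernel)
              (CovZ.leaf K2_ok TB_l19162 _)
              (CovZ.leaf K2_ok TB_l19163 _)))
            (CovZ.n1 (-21456, 9168) (by decide +kernel)
             (CovZ.n2 (-21456, 9216) (by decide +kernel)
              (CovZ.n2 (-21432, 9192) (by decide +kernel)
               (CovZ.leaf K2_ok TB_l19164 _)
               (CovZ.leaf K2_ok TB_l19165 _))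
              (CovZ.leaf K2_ok TB_l19166 _))
             (CovZ.n1 (-21408, 9168) (by decide +kernel)
              (CovZ.leaf K2_ok TB_l19167 _)
              (CovZ.leaf K2_ok TB_l19168 _))))
           (CovZ.n1 (-21312, 9120) (by decide +kernel)
            (CovZ.subM 1233717601242136000125024057522936407573771138802165097648468085512681999844010293974447361530494323876447389745152 (by decide +kernel)
             (CovZ.n2 (-21360, 9072) (by decide +kernel)
              (CovZ.n2 (-21360, 9120) (by decide +kernel)
               (CovZ.n2 (-21336, 9096) (by decide +kernel)
                (CovZ.leaf K2_ok TB_l19169 _)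
                (CovZ.leaf K2_ok TB_l19170 _))
               (CovZ.n1 (-21384, 9096) (by decide +kernel)
                (CovZ.leaf K2_ok TB_l19171 _)
                (CovZ.leaf K2_ok TB_l19172 _)))
              (CovZ.n1 (-21312, 9072) (by decide +kernel)
               (CovZ.n2 (-21336, 9048) (by decide +kernel)
                (CovZ.n2 (-21336, 9072) (by decide +kernel)
                 (CovZ.leaf K2_ok TB_l41583 _)
                 (CovZ.leaf K2_ok TB_l41584 _))
                (CovZ.leaf K2_ok TB_l41585 _))
               (CovZ.n1 (-21336, 9096) (by decide +kernel)
                (CovZ.leaf K2_ok TB_l19173 _)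
                (CovZ.leaf K2_ok TB_l19174 _)))))
            (CovZ.n1 (-21360, 9168) (by decide +kernel)
             (CovZ.n2 (-21312, 9168) (by decide +kernel)
              (CovZ.leaf K2_ok TB_l19175 _)
              (CovZ.leaf K2_ok TB_l19176 _))
             (CovZ.n1 (-21360, 9120) (by decide +kernel)
              (CovZ.n2 (-21384, 9144) (by decide +kernel)
               (CovZ.leaf K2_ok TB_l19177 _)
               (CovZ.leaf K2_ok TB_l19178 _))
              (CovZ.leaf K2_ok TB_l19179 _))))))

theorem TB_u260 : CovZ TB_M (toL (selN TB_LN 1233717601242206000692165257588156657225125727364064908903104434737745974763324322437783232492798578632141133840384)) [0, 7, 6, 1] (-21312, 9024) (-21120, 8832) (-21120, 9216) :=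
    (CovZ.subM 1233717601242136000125024057522936407573771138802165097648468085512681999844010293974447361530494323876447391842304 (by decide +kernel)
          (CovZ.n1 (-21120, 9024) (by decide +kernel)
           (CovZ.subM 1233717601242136000125024057522936407573771138802165097648468085511129154354346209618785034509810534217006333296640 (by decide +kernel)
            (CovZ.n2 (-21216, 8928) (by decide +kernel)
             (CovZ.n2 (-21216, 9024) (by decide +kernel)
              (CovZ.n2 (-21168, 8976) (by decide +kernel)
               (CovZ.n2 (-21216, 8976) (by decide +kernel)
                (CovZ.n2 (-21192, 9000) (by decide +kernel)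
                 (CovZ.n2 (-21192, 8976) (by decide +kernel)
                  (CovZ.leaf K2_ok TB_l49492 _)
                  (CovZ.leaf K2_ok TB_l49493 _))
                 (CovZ.n1 (-21216, 9000) (by decide +kernel)
                  (CovZ.leaf K2_ok TB_l49494 _)
                  (CovZ.leaf K2_ok TB_l49495 _)))
                (CovZ.n1 (-21192, 8952) (by decide +kernel)
                 (CovZ.n2 (-21216, 8952) (by decide +kernel)
                  (CovZ.n2 (-21204, 8964) (by decide +kernel)
                   (CovZ.n2 (-21204, 8952) (by decide +kernel)
                    (CovZ.leaf K2_ok TB_l49496 _)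
                    (CovZ.leaf K2_ok TB_l49497 _))
                   (CovZ.n1 (-21216, 8964) (by decide +kernel)
                    (CovZ.leaf K2_ok TB_l49498 _)
                    (CovZ.leaf K2_ok TB_l49499 _)))
                  (CovZ.n1 (-21204, 8940) (by decide +kernel)
                   (CovZ.n2 (-21216, 8940) (by decide +kernel)
                    (CovZ.leaf K2_ok TB_l49500 _)
                    (CovZ.n1 (-21210, 8934) (by decide +kernel)
                     (CovZ.leaf K2_ok TB_l49501 _)
                     (CovZ.leaf K2_ok TB_l49502 _)))
                   (CovZ.n1 (-21204, 8952) (by decide +kernel)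
                    (CovZ.leaf K2_ok TB_l49503 _)
                    (CovZ.leaf K2_ok TB_l49504 _))))
                 (CovZ.n1 (-21192, 8976) (by decide +kernel)
                  (CovZ.n2 (-21180, 8964) (by decide +kernel)
                   (CovZ.n2 (-21192, 8964) (by decide +kernel)
                    (CovZ.leaf K2_ok TB_l49505 _)
                    (CovZ.leaf K2_ok TB_l49506 _))
                   (CovZ.n1 (-21180, 8976) (by decide +kernel)
                    (CovZ.leaf K2_ok TB_l49507 _)
                    (CovZ.leaf K2_ok TB_l49508 _)))
                  (CovZ.leaf K2_ok TB_l49509 _))))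
               (CovZ.n1 (-21168, 9024) (by decide +kernel)
                (CovZ.n2 (-21144, 9000) (by decide +kernel)
                 (CovZ.n2 (-21168, 9000) (by decide +kernel)
                  (CovZ.leaf K2_ok TB_l41586 _)
                  (CovZ.leaf K2_ok TB_l49510 _))
                 (CovZ.n1 (-21144, 9024) (by decide +kernel)
                  (CovZ.leaf K2_ok TB_l41587 _)
                  (CovZ.leaf K2_ok TB_l41588 _)))
                (CovZ.n1 (-21192, 9000) (by decide +kernel)
                 (CovZ.n2 (-21192, 9024) (by decide +kernel)
                  (CovZ.leaf K2_ok TB_l41589 _)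
                  (CovZ.leaf K2_ok TB_l41590 _))
                 (CovZ.leaf K2_ok TB_l41591 _))))
              (CovZ.n1 (-21264, 8976) (by decide +kernel)
               (CovZ.n2 (-21264, 9024) (by decide +kernel)
                (CovZ.n2 (-21240, 9000) (by decide +kernel)
                 (CovZ.n2 (-21264, 9000) (by decide +kernel)
                  (CovZ.leaf K2_ok TB_l49511 _)
                  (CovZ.leaf K2_ok TB_l49512 _))
                 (CovZ.n1 (-21240, 9024) (by decide +kernel)
                  (CovZ.leaf K2_ok TB_l49513 _)
                  (CovZ.leaf K2_ok TB_l49514 _)))
                (CovZ.n1 (-21288, 9000) (by decide +kernel)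
                 (CovZ.n2 (-21288, 9024) (by decide +kernel)
                  (CovZ.leaf K2_ok TB_l49515 _)
                  (CovZ.leaf K2_ok TB_l49516 _))
                 (CovZ.n1 (-21264, 9000) (by decide +kernel)
                  (CovZ.leaf K2_ok TB_l49517 _)
                  (CovZ.leaf K2_ok TB_l49518 _))))
               (CovZ.n1 (-21216, 8976) (by decide +kernel)
                (CovZ.n2 (-21240, 8952) (by decide +kernel)
                 (CovZ.n2 (-21240, 8976) (by decide +kernel)
                  (CovZ.n2 (-21228, 8964) (by decide +kernel)
                   (CovZ.n2 (-21240, 8964) (by decide +kernel)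
                    (CovZ.leaf K2_ok TB_l49519 _)
                    (CovZ.leaf K2_ok TB_l49520 _))
                   (CovZ.n1 (-21228, 8976) (by decide +kernel)
                    (CovZ.leaf K2_ok TB_l49521 _)
                    (CovZ.leaf K2_ok TB_l49522 _)))
                  (CovZ.leaf K2_ok TB_l49523 _))
                 (CovZ.n1 (-21216, 8952) (by decide +kernel)
                  (CovZ.n2 (-21228, 8940) (by decide +kernel)
                   (CovZ.n2 (-21228, 8952) (by decide +kernel)
                    (CovZ.leaf K2_ok TB_l49524 _)
                    (CovZ.leaf K2_ok TB_l49525 _))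
                   (CovZ.n1 (-21216, 8940) (by decide +kernel)
                    (CovZ.leaf K2_ok TB_l49526 _)
                    (CovZ.leaf K2_ok TB_l49527 _)))
                  (CovZ.n1 (-21228, 8964) (by decide +kernel)
                   (CovZ.n2 (-21216, 8964) (by decide +kernel)
                    (CovZ.leaf K2_ok TB_l49528 _)
                    (CovZ.leaf K2_ok TB_l49529 _))
                   (CovZ.n1 (-21228, 8952) (by decide +kernel)
                    (CovZ.leaf K2_ok TB_l49530 _)
                    (CovZ.leaf K2_ok TB_l49531 _)))))
                (CovZ.n1 (-21240, 9000) (by decide +kernel)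
                 (CovZ.leaf K2_ok TB_l49532 _)
                 (CovZ.n1 (-21240, 8976) (by decide +kernel)
                  (CovZ.leaf K2_ok TB_l49533 _)
                  (CovZ.n1 (-21228, 8988) (by decide +kernel)
                   (CovZ.n2 (-21228, 8976) (by decide +kernel)
                    (CovZ.leaf K2_ok TB_l49534 _)
                    (CovZ.leaf K2_ok TB_l49535 _))
                   (CovZ.n1 (-21240, 8988) (by decide +kernel)
                    (CovZ.leaf K2_ok TB_l49536 _)
                    (CovZ.leaf K2_ok TB_l49537 _))))))))
             (CovZ.n1 (-21120, 8928) (by decide +kernel)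
              (CovZ.badM (by decide +kernel))
              (CovZ.n1 (-21168, 8976) (by decide +kernel)
               (CovZ.n2 (-21120, 8976) (by decide +kernel)
                (CovZ.n2 (-21144, 8952) (by decide +kernel)
                 (CovZ.n2 (-21144, 8976) (by decide +kernel)
                  (CovZ.n2 (-21132, 8964) (by decide +kernel)
                   (CovZ.leaf K2_ok TB_l49538 _)
                   (CovZ.leaf K2_ok TB_l49539 _))
                  (CovZ.leaf K2_ok TB_l49540 _))
                 (CovZ.n1 (-21120, 8952) (by decide +kernel)
                  (CovZ.n2 (-21132, 8940) (by decide +kernel)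
                   (CovZ.leaf K2_ok TB_l49541 _)
                   (CovZ.leaf K2_ok TB_l49542 _))
                  (CovZ.n1 (-21132, 8964) (by decide +kernel)
                   (CovZ.leaf K2_ok TB_l49543 _)
                   (CovZ.leaf K2_ok TB_l49544 _))))
                (CovZ.n1 (-21144, 9000) (by decide +kernel)
                 (CovZ.leaf K2_ok TB_l41592 _)
                 (CovZ.n1 (-21144, 8976) (by decide +kernel)
                  (CovZ.leaf K2_ok TB_l49545 _)
                  (CovZ.leaf K2_ok TB_l49546 _))))
               (CovZ.n1 (-21168, 8928) (by decide +kernel)
                (CovZ.n2 (-21192, 8952) (by decide +kernel)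
                 (CovZ.n2 (-21168, 8952) (by decide +kernel)
                  (CovZ.n2 (-21180, 8940) (by decide +kernel)
                   (CovZ.leaf K2_ok TB_l49547 _)
                   (CovZ.leaf K2_ok TB_l49548 _))
                  (CovZ.n1 (-21180, 8964) (by decide +kernel)
                   (CovZ.leaf K2_ok TB_l49549 _)
                   (CovZ.n1 (-21180, 8952) (by decide +kernel)
                    (CovZ.leaf K2_ok TB_l49550 _)
                    (CovZ.leaf K2_ok TB_l49551 _))))
                 (CovZ.n1 (-21192, 8928) (by decide +kernel)
                  (CovZ.n2 (-21204, 8940) (by decide +kernel)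
                   (CovZ.leaf K2_ok TB_l49552 _)
                   (CovZ.n1 (-21204, 8928) (by decide +kernel)
                    (CovZ.n2 (-21210, 8934) (by decide +kernel)
                     (CovZ.leaf K2_ok TB_l49553 _)
                     (CovZ.n1 (-21210, 8928) (by decide +kernel)
                      (CovZ.leaf K2_ok TB_l49554 _)
                      (CovZ.leaf K2_ok TB_l49555 _)))
                    (CovZ.leaf K2_ok TB_l49556 _)))
                  (CovZ.n1 (-21180, 8940) (by decide +kernel)
                   (CovZ.n2 (-21180, 8928) (by decide +kernel)
                    (CovZ.n2 (-21186, 8934) (by decide +kernel)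
                     (CovZ.leaf K2_ok TB_l49557 _)
                     (CovZ.n1 (-21186, 8928) (by decide +kernel)
                      (CovZ.leaf K2_ok TB_l49558 _)
                      (CovZ.leaf K2_ok TB_l49559 _)))
                    (CovZ.n1 (-21174, 8934) (by decide +kernel)
                     (CovZ.leaf K2_ok TB_l49560 _)
                     (CovZ.leaf K2_ok TB_l49561 _)))
                   (CovZ.n1 (-21192, 8940) (by decide +kernel)
                    (CovZ.leaf K2_ok TB_l49562 _)
                    (CovZ.n1 (-21186, 8934) (by decide +kernel)
                     (CovZ.leaf K2_ok TB_l49563 _)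
                     (CovZ.leaf K2_ok TB_l49564 _))))))
                (CovZ.n1 (-21144, 8952) (by decide +kernel)
                 (CovZ.n2 (-21144, 8928) (by decide +kernel)
                  (CovZ.n2 (-21156, 8940) (by decide +kernel)
                   (CovZ.leaf K2_ok TB_l49565 _)
                   (CovZ.n1 (-21156, 8928) (by decide +kernel)
                    (CovZ.n2 (-21162, 8934) (by decide +kernel)
                     (CovZ.leaf K2_ok TB_l49566 _)
                     (CovZ.leaf K2_ok TB_l49567 _))
                    (CovZ.leaf K2_ok TB_l49568 _)))
                  (CovZ.n1 (-21132, 8940) (by decide +kernel)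
                   (CovZ.n2 (-21132, 8928) (by decide +kernel)
                    (CovZ.leaf K2_ok TB_l49569 _)
                    (CovZ.leaf K2_ok TB_l49570 _))
                   (CovZ.n1 (-21144, 8940) (by decide +kernel)
                    (CovZ.leaf K2_ok TB_l49571 _)
                    (CovZ.leaf K2_ok TB_l49572 _))))
                 (CovZ.n1 (-21168, 8952) (by decide +kernel)
                  (CovZ.n2 (-21156, 8964) (by decide +kernel)
                   (CovZ.leaf K2_ok TB_l49573 _)
                   (CovZ.leaf K2_ok TB_l49574 _))
                  (CovZ.n1 (-21156, 8940) (by decide +kernel)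
                   (CovZ.n2 (-21168, 8940) (by decide +kernel)
                    (CovZ.leaf K2_ok TB_l49575 _)
                    (CovZ.n1 (-21162, 8934) (by decide +kernel)
                     (CovZ.leaf K2_ok TB_l49576 _)
                     (CovZ.leaf K2_ok TB_l49577 _)))
                   (CovZ.n1 (-21156, 8952) (by decide +kernel)
                    (CovZ.leaf K2_ok TB_l49578 _)
                    (CovZ.leaf K2_ok TB_l49579 _))))))))))
           (CovZ.n1 (-21216, 9120) (by decide +kernel)
            (CovZ.n2 (-21120, 9120) (by decide +kernel)
             (CovZ.n2 (-21168, 9072) (by decide +kernel)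
              (CovZ.n2 (-21168, 9120) (by decide +kernel)
               (CovZ.n2 (-21144, 9096) (by decide +kernel)
                (CovZ.leaf K2_ok TB_l19180 _)
                (CovZ.leaf K2_ok TB_l19181 _))
               (CovZ.leaf K2_ok TB_l19182 _))
              (CovZ.n1 (-21120, 9072) (by decide +kernel)
               (CovZ.n2 (-21144, 9048) (by decide +kernel)
                (CovZ.leaf K2_ok TB_l19183 _)
                (CovZ.leaf K2_ok TB_l19184 _))
               (CovZ.n1 (-21144, 9096) (by decide +kernel)
                (CovZ.leaf K2_ok TB_l19185 _)
                (CovZ.leaf K2_ok TB_l19186 _))))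
             (CovZ.n1 (-21168, 9168) (by decide +kernel)
              (CovZ.leaf K2_ok TB_l19187 _)
              (CovZ.n1 (-21168, 9120) (by decide +kernel)
               (CovZ.leaf K2_ok TB_l19188 _)
               (CovZ.leaf K2_ok TB_l19189 _))))
            (CovZ.n1 (-21216, 9024) (by decide +kernel)
             (CovZ.n2 (-21264, 9072) (by decide +kernel)
              (CovZ.n2 (-21216, 9072) (by decide +kernel)
               (CovZ.n2 (-21240, 9048) (by decide +kernel)
                (CovZ.leaf K2_ok TB_l41593 _)
                (CovZ.leaf K2_ok TB_l41594 _))
               (CovZ.n1 (-21240, 9096) (by decide +kernel)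
                (CovZ.leaf K2_ok TB_l19190 _)
                (CovZ.leaf K2_ok TB_l19191 _)))
              (CovZ.subM 1233717601242136000125024057522936407573771138802165097648468085511129154354346209618785034509810534217007407038464 (by decide +kernel)
               (CovZ.n1 (-21264, 9024) (by decide +kernel)
                (CovZ.n2 (-21288, 9048) (by decide +kernel)
                 (CovZ.leaf K2_ok TB_l41595 _)
                 (CovZ.n1 (-21288, 9024) (by decide +kernel)
                  (CovZ.leaf K2_ok TB_l41596 _)
                  (CovZ.leaf K2_ok TB_l41597 _)))
                (CovZ.n1 (-21240, 9048) (by decide +kernel)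
                 (CovZ.n2 (-21240, 9024) (by decide +kernel)
                  (CovZ.leaf K2_ok TB_l41598 _)
                  (CovZ.leaf K2_ok TB_l41599 _))
                 (CovZ.leaf K2_ok TB_l41600 _)))))
             (CovZ.n1 (-21168, 9072) (by decide +kernel)
              (CovZ.subM 1233717601242136000125024057522936407573771138802165097648468085511129154354346209618785034509810534217007407038464 (by decide +kernel)
               (CovZ.n2 (-21168, 9024) (by decide +kernel)
                (CovZ.n2 (-21192, 9048) (by decide +kernel)
                 (CovZ.leaf K2_ok TB_l19192 _)
                 (CovZ.leaf K2_ok TB_l41601 _))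
                (CovZ.n1 (-21144, 9048) (by decide +kernel)
                 (CovZ.leaf K2_ok TB_l41602 _)
                 (CovZ.leaf K2_ok TB_l19193 _))))
              (CovZ.n1 (-21216, 9072) (by decide +kernel)
               (CovZ.leaf K2_ok TB_l19194 _)
               (CovZ.n1 (-21192, 9048) (by decide +kernel)
                (CovZ.leaf K2_ok TB_l41603 _)
                (CovZ.leaf K2_ok TB_l19195 _))))))))

theorem TB_u261 : CovZ TB_M (toL (selN TB_LN 1233717601242206000692165257588156657225125727364064908903104434737745974763324322437783232492798578632141133840384)) [0, 7, 6, 1] (-21504, 9216) (-21120, 8832) (-20736, 9216) :=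
    (CovZ.n2 (-21120, 9216) (by decide +kernel)
        (CovZ.n2 (-20928, 9024) (by decide +kernel)
         (CovZ.subM 1233717601242136000125024057522936407573771138802165097648468085512681999844010293974447361530494323876447391842304 (by decide +kernel)
          (CovZ.n2 (-21120, 9024) (by decide +kernel)
           (CovZ.n2 (-21024, 9120) (by decide +kernel)
            (CovZ.subM 2404907604795401236955356321902241151666580871927770258498557355384639861084002644685432923878630071122591219712 (by decide +kernel)
             (CovZ.n2 (-21024, 9024) (by decide +kernel)
              (CovZ.n2 (-21072, 9072) (by decide +kernel)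
               (CovZ.n2 (-21024, 9072) (by decide +kernel)
                (CovZ.leaf K2_ok TB_l19100 _)
                (CovZ.leaf K2_ok TB_l19101 _))
               (CovZ.subM 2404907604795401236955356321902241151666580871927770258498557355293296008750821212297702621833862382394076561408 (by decide +kernel)
                (CovZ.n1 (-21072, 9024) (by decide +kernel)
                 (CovZ.n2 (-21096, 9048) (by decide +kernel)
                  (CovZ.leaf K2_ok TB_l19102 _)
                  (CovZ.leaf K2_ok TB_l41561 _))
                 (CovZ.n1 (-21048, 9048) (by decide +kernel)
                  (CovZ.leaf K2_ok TB_l19103 _)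
                  (CovZ.leaf K2_ok TB_l19104 _)))))
              (CovZ.n1 (-20976, 9072) (by decide +kernel)
               (CovZ.n2 (-20976, 9024) (by decide +kernel)
                (CovZ.n2 (-21000, 9048) (by decide +kernel)
                 (CovZ.leaf K2_ok TB_l19105 _)
                 (CovZ.leaf K2_ok TB_l19106 _))
                (CovZ.leaf K2_ok TB_l19107 _))
               (CovZ.n1 (-21024, 9072) (by decide +kernel)
                (CovZ.leaf K2_ok TB_l19108 _)
                (CovZ.n1 (-21000, 9048) (by decide +kernel)
                 (CovZ.leaf K2_ok TB_l19109 _)
                 (CovZ.leaf K2_ok TB_l19110 _))))))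
            (CovZ.n1 (-21120, 9120) (by decide +kernel)
             (CovZ.n2 (-21072, 9168) (by decide +kernel)
              (CovZ.n2 (-21072, 9120) (by decide +kernel)
               (CovZ.leaf K2_ok TB_l19111 _)
               (CovZ.leaf K2_ok TB_l19112 _))
              (CovZ.leaf K2_ok TB_l19113 _))
             (CovZ.n1 (-21072, 9072) (by decide +kernel)
              (CovZ.n2 (-21120, 9072) (by decide +kernel)
               (CovZ.leaf K2_ok TB_l19114 _)
               (CovZ.n1 (-21096, 9048) (by decide +kernel)
                (CovZ.leaf K2_ok TB_l19115 _)
                (CovZ.leaf K2_ok TB_l19116 _)))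
              (CovZ.n1 (-21072, 9120) (by decide +kernel)
               (CovZ.leaf K2_ok TB_l19117 _)
               (CovZ.leaf K2_ok TB_l19118 _)))))
           (CovZ.subM 2404907604795401236955356321902241151666580871927770258498557353831794371419918294094017789117579362738144018432 (by decide +kernel)
            (CovZ.n1 (-21024, 8928) (by decide +kernel)
             (CovZ.n2 (-21120, 8928) (by decide +kernel)
              (CovZ.n2 (-21072, 8976) (by decide +kernel)
               (CovZ.n2 (-21072, 8928) (by decide +kernel)
                (CovZ.n2 (-21096, 8952) (by decide +kernel)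
                 (CovZ.n2 (-21072, 8952) (by decide +kernel)
                  (CovZ.n2 (-21084, 8940) (by decide +kernel)
                   (CovZ.leaf K2_ok TB_l49467 _)
                   (CovZ.leaf K2_ok TB_l49468 _))
                  (CovZ.n1 (-21084, 8964) (by decide +kernel)
                   (CovZ.leaf K2_ok TB_l49469 _)
                   (CovZ.leaf K2_ok TB_l49470 _)))
                 (CovZ.n1 (-21096, 8928) (by decide +kernel)
                  (CovZ.n2 (-21108, 8940) (by decide +kernel)
                   (CovZ.leaf K2_ok TB_l49471 _)
                   (CovZ.n1 (-21108, 8928) (by decide +kernel)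
                    (CovZ.n2 (-21114, 8934) (by decide +kernel)
                     (CovZ.leaf K2_ok TB_l49472 _)
                     (CovZ.leaf K2_ok TB_l49473 _))
                    (CovZ.leaf K2_ok TB_l49474 _)))
                  (CovZ.n1 (-21084, 8940) (by decide +kernel)
                   (CovZ.n2 (-21084, 8928) (by decide +kernel)
                    (CovZ.leaf K2_ok TB_l49475 _)
                    (CovZ.leaf K2_ok TB_l49476 _))
                   (CovZ.leaf K2_ok TB_l49477 _))))
                (CovZ.n1 (-21048, 8952) (by decide +kernel)
                 (CovZ.badM (by decide +kernel))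
                 (CovZ.n1 (-21072, 8952) (by decide +kernel)
                  (CovZ.leaf K2_ok TB_l49478 _)
                  (CovZ.badM (by decide +kernel)))))
               (CovZ.n1 (-21120, 8976) (by decide +kernel)
                (CovZ.n2 (-21096, 9000) (by decide +kernel)
                 (CovZ.n2 (-21096, 8976) (by decide +kernel)
                  (CovZ.leaf K2_ok TB_l41562 _)
                  (CovZ.leaf K2_ok TB_l41563 _))
                 (CovZ.leaf K2_ok TB_l41564 _))
                (CovZ.n1 (-21096, 8952) (by decide +kernel)
                 (CovZ.n2 (-21120, 8952) (by decide +kernel)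
                  (CovZ.n2 (-21108, 8964) (by decide +kernel)
                   (CovZ.leaf K2_ok TB_l49479 _)
                   (CovZ.n1 (-21120, 8964) (by decide +kernel)
                    (CovZ.leaf K2_ok TB_l49480 _)
                    (CovZ.leaf K2_ok TB_l49481 _)))
                  (CovZ.n1 (-21108, 8940) (by decide +kernel)
                   (CovZ.leaf K2_ok TB_l49482 _)
                   (CovZ.leaf K2_ok TB_l49483 _)))
                 (CovZ.n1 (-21096, 8976) (by decide +kernel)
                  (CovZ.n2 (-21084, 8964) (by decide +kernel)
                   (CovZ.n2 (-21096, 8964) (by decide +kernel)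
                    (CovZ.leaf K2_ok TB_l49484 _)
                    (CovZ.leaf K2_ok TB_l49485 _))
                   (CovZ.n1 (-21084, 8976) (by decide +kernel)
                    (CovZ.leaf K2_ok TB_l49486 _)
                    (CovZ.leaf K2_ok TB_l49487 _)))
                  (CovZ.leaf K2_ok TB_l49488 _)))))
              (CovZ.badM (by decide +kernel)))
             (CovZ.n1 (-21024, 9024) (by decide +kernel)
              (CovZ.n2 (-20976, 8976) (by decide +kernel)
               (CovZ.n2 (-21024, 8976) (by decide +kernel)
                (CovZ.n2 (-21000, 9000) (by decide +kernel)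
                 (CovZ.n2 (-21000, 8976) (by decide +kernel)
                  (CovZ.leaf K2_ok TB_l41565 _)
                  (CovZ.leaf K2_ok TB_l41566 _))
                 (CovZ.leaf K2_ok TB_l41567 _))
                (CovZ.badM (by decide +kernel)))
               (CovZ.n1 (-20976, 9024) (by decide +kernel)
                (CovZ.n2 (-20952, 9000) (by decide +kernel)
                 (CovZ.leaf K2_ok TB_l41568 _)
                 (CovZ.leaf K2_ok TB_l41569 _))
                (CovZ.n1 (-21000, 9000) (by decide +kernel)
                 (CovZ.leaf K2_ok TB_l41570 _)
                 (CovZ.leaf K2_ok TB_l41571 _))))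
              (CovZ.n1 (-21072, 8976) (by decide +kernel)
               (CovZ.n2 (-21072, 9024) (by decide +kernel)
                (CovZ.n2 (-21048, 9000) (by decide +kernel)
                 (CovZ.leaf K2_ok TB_l41572 _)
                 (CovZ.leaf K2_ok TB_l41573 _))
                (CovZ.n1 (-21096, 9000) (by decide +kernel)
                 (CovZ.n2 (-21096, 9024) (by decide +kernel)
                  (CovZ.leaf K2_ok TB_l41574 _)
                  (CovZ.leaf K2_ok TB_l41575 _))
                 (CovZ.leaf K2_ok TB_l41576 _)))
               (CovZ.n1 (-21024, 8976) (by decide +kernel)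
                (CovZ.n2 (-21048, 8952) (by decide +kernel)
                 (CovZ.n2 (-21048, 8976) (by decide +kernel)
                  (CovZ.n2 (-21036, 8964) (by decide +kernel)
                   (CovZ.n2 (-21048, 8964) (by decide +kernel)
                    (CovZ.leaf K2_ok TB_l49489 _)
                    (CovZ.badM (by decide +kernel)))
                   (CovZ.n1 (-21036, 8976) (by decide +kernel)
                    (CovZ.badM (by decide +kernel))
                    (CovZ.leaf K2_ok TB_l49490 _)))
                  (CovZ.leaf K2_ok TB_l49491 _))
                 (CovZ.badM (by decide +kernel)))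
                (CovZ.n1 (-21048, 9000) (by decide +kernel)
                 (CovZ.leaf K2_ok TB_l41577 _)
                 (CovZ.n1 (-21048, 8976) (by decide +kernel)
                  (CovZ.leaf K2_ok TB_l41578 _)
                  (CovZ.leaf K2_ok TB_l41579 _))))))))))
         (CovZ.n1 (-20928, 9216) (by decide +kernel)
          (CovZ.subM 2404907604795401236955356321902241151666580871927770258498557353923138223753099731552669648492795841060200775680 (by decide +kernel)
           (CovZ.n2 (-20832, 9120) (by decide +kernel)
            (CovZ.n2 (-20928, 9120) (by decide +kernel)
             (CovZ.n2 (-20880, 9168) (by decide +kernel)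
              (CovZ.leaf K2_ok TB_l19119 _)
              (CovZ.leaf K2_ok TB_l19120 _))
             (CovZ.subM 34996011596528190789960035633881941845650710894291399074156182035740680374920316816343899561957261312 (by decide +kernel)
              (CovZ.n1 (-20880, 9072) (by decide +kernel)
               (CovZ.n2 (-20928, 9072) (by decide +kernel)
                (CovZ.leaf K2_ok TB_l19121 _)
                (CovZ.leaf K2_ok TB_l19122 _))
               (CovZ.n1 (-20880, 9120) (by decide +kernel)
                (CovZ.leaf K2_ok TB_l19123 _)
                (CovZ.leaf K2_ok TB_l19124 _)))))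
            (CovZ.n1 (-20832, 9216) (by decide +kernel)
             (CovZ.n2 (-20784, 9168) (by decide +kernel)
              (CovZ.leaf K2_ok TB_l19125 _)
              (CovZ.leaf K2_ok TB_l19126 _))
             (CovZ.n1 (-20880, 9168) (by decide +kernel)
              (CovZ.leaf K2_ok TB_l19127 _)
              (CovZ.leaf K2_ok TB_l19128 _)))))
          (CovZ.subM 1233717601242136000125024057522936407573771138802165097648468085512681999844010293974447361530494323876447391842304 (by decide +kernel)
           (CovZ.n1 (-21024, 9120) (by decide +kernel)
            (CovZ.n2 (-21024, 9216) (by decide +kernel)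
             (CovZ.n2 (-20976, 9168) (by decide +kernel)
              (CovZ.leaf K2_ok TB_l19129 _)
              (CovZ.leaf K2_ok TB_l19130 _))
             (CovZ.n1 (-21072, 9168) (by decide +kernel)
              (CovZ.n2 (-21072, 9216) (by decide +kernel)
               (CovZ.leaf K2_ok TB_l19131 _)
               (CovZ.leaf K2_ok TB_l19132 _))
              (CovZ.leaf K2_ok TB_l19133 _)))
            (CovZ.n1 (-20928, 9120) (by decide +kernel)
             (CovZ.n2 (-20976, 9072) (by decide +kernel)
              (CovZ.n2 (-20976, 9120) (by decide +kernel)
               (CovZ.leaf K2_ok TB_l19134 _)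
               (CovZ.leaf K2_ok TB_l19135 _))
              (CovZ.leaf K2_ok TB_l19136 _))
             (CovZ.n1 (-20976, 9168) (by decide +kernel)
              (CovZ.leaf K2_ok TB_l19137 _)
              (CovZ.n1 (-20976, 9120) (by decide +kernel)
               (CovZ.leaf K2_ok TB_l19138 _)
               (CovZ.leaf K2_ok TB_l19139 _))))))))
        (CovZ.n1 (-21312, 9024) (by decide +kernel)
         TB_u259
         TB_u260))

theorem TB_u262 : CovZ TB_M (toL (selN TB_LN 1233717601242206000692165257588156657225125727364064908903104434737745974763324322437783232492798578632141133840384)) [0, 7, 6, 1] (-21120, 8832) (-20736, 8448) (-20736, 9216) :=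
    (CovZ.subM 34996011596528190789960035633881941845650710894291400535657819366643603649526706863075708811431903232 (by decide +kernel)
        (CovZ.n1 (-20736, 8832) (by decide +kernel)
         (CovZ.badM (by decide +kernel))
         (CovZ.n1 (-20928, 9024) (by decide +kernel)
          (CovZ.n2 (-20736, 9024) (by decide +kernel)
           (CovZ.subM 34996011596528190789960035633881941845650710894291398982812329702559247987190014771576210833442603008 (by decide +kernel)
            (CovZ.n2 (-20832, 8928) (by decide +kernel)
             (CovZ.n2 (-20832, 9024) (by decide +kernel)
              (CovZ.n2 (-20784, 8976) (by decide +kernel)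
               (CovZ.n2 (-20832, 8976) (by decide +kernel)
                (CovZ.leaf K2_ok TB_l19196 _)
                (CovZ.n1 (-20808, 8952) (by decide +kernel)
                 (CovZ.n2 (-20832, 8952) (by decide +kernel)
                  (CovZ.leaf K2_ok TB_l41604 _)
                  (CovZ.badM (by decide +kernel)))
                 (CovZ.leaf K2_ok TB_l41605 _)))
               (CovZ.n1 (-20784, 9024) (by decide +kernel)
                (CovZ.n2 (-20760, 9000) (by decide +kernel)
                 (CovZ.leaf K2_ok TB_l19197 _)
                 (CovZ.leaf K2_ok TB_l19198 _))
                (CovZ.leaf K2_ok TB_l19199 _)))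
              (CovZ.n1 (-20880, 8976) (by decide +kernel)
               (CovZ.n2 (-20880, 9024) (by decide +kernel)
                (CovZ.n2 (-20856, 9000) (by decide +kernel)
                 (CovZ.leaf K2_ok TB_l19200 _)
                 (CovZ.leaf K2_ok TB_l19201 _))
                (CovZ.leaf K2_ok TB_l19202 _))
               (CovZ.n1 (-20832, 8976) (by decide +kernel)
                (CovZ.n2 (-20856, 8952) (by decide +kernel)
                 (CovZ.n2 (-20856, 8976) (by decide +kernel)
                  (CovZ.leaf K2_ok TB_l41606 _)
                  (CovZ.badM (by decide +kernel)))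
                 (CovZ.leaf K2_ok TB_l41607 _))
                (CovZ.n1 (-20856, 9000) (by decide +kernel)
                 (CovZ.leaf K2_ok TB_l19203 _)
                 (CovZ.n1 (-20856, 8976) (by decide +kernel)
                  (CovZ.leaf K2_ok TB_l41608 _)
                  (CovZ.leaf K2_ok TB_l41609 _))))))
             (CovZ.n1 (-20736, 8928) (by decide +kernel)
              (CovZ.badM (by decide +kernel))
              (CovZ.n1 (-20784, 8976) (by decide +kernel)
               (CovZ.n2 (-20736, 8976) (by decide +kernel)
                (CovZ.n2 (-20760, 8952) (by decide +kernel)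
                 (CovZ.leaf K2_ok TB_l41610 _)
                 (CovZ.leaf K2_ok TB_l41611 _))
                (CovZ.leaf K2_ok TB_l19204 _))
               (CovZ.n1 (-20784, 8928) (by decide +kernel)
                (CovZ.n2 (-20808, 8952) (by decide +kernel)
                 (CovZ.leaf K2_ok TB_l41612 _)
                 (CovZ.badM (by decide +kernel)))
                (CovZ.n1 (-20760, 8952) (by decide +kernel)
                 (CovZ.badM (by decide +kernel))
                 (CovZ.n1 (-20784, 8952) (by decide +kernel)
                  (CovZ.leaf K2_ok TB_l41613 _)
                  (CovZ.badM (by decide +kernel)))))))))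
           (CovZ.n1 (-20832, 9120) (by decide +kernel)
            (CovZ.n2 (-20736, 9120) (by decide +kernel)
             (CovZ.n2 (-20784, 9072) (by decide +kernel)
              (CovZ.n2 (-20784, 9120) (by decide +kernel)
               (CovZ.leaf K2_ok TB_l19205 _)
               (CovZ.leaf K2_ok TB_l19206 _))
              (CovZ.leaf K2_ok TB_l19207 _))
             (CovZ.n1 (-20784, 9168) (by decide +kernel)
              (CovZ.leaf K2_ok TB_l19208 _)
              (CovZ.leaf K2_ok TB_l19209 _)))
            (CovZ.subM 34996011596528190789960035633881941845650710894291399074156182035740680374920316816343899561957261312 (by decide +kernel)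
             (CovZ.n1 (-20832, 9024) (by decide +kernel)
              (CovZ.n2 (-20880, 9072) (by decide +kernel)
               (CovZ.leaf K2_ok TB_l19210 _)
               (CovZ.n1 (-20880, 9024) (by decide +kernel)
                (CovZ.leaf K2_ok TB_l19211 _)
                (CovZ.leaf K2_ok TB_l19212 _)))
              (CovZ.n1 (-20784, 9072) (by decide +kernel)
               (CovZ.n2 (-20784, 9024) (by decide +kernel)
                (CovZ.leaf K2_ok TB_l19213 _)
                (CovZ.leaf K2_ok TB_l19214 _))
               (CovZ.leaf K2_ok TB_l19215 _))))))
          (CovZ.subM 34996011596528190789960035633881941845650710894291398982812329702559247987190014771576210833442603008 (by decide +kernel)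
           (CovZ.n1 (-20928, 8832) (by decide +kernel)
            (CovZ.n2 (-21024, 8928) (by decide +kernel)
             (CovZ.n2 (-20928, 8928) (by decide +kernel)
              (CovZ.badM (by decide +kernel))
              (CovZ.n1 (-20976, 8976) (by decide +kernel)
               (CovZ.n2 (-20928, 8976) (by decide +kernel)
                (CovZ.badM (by decide +kernel))
                (CovZ.n1 (-20952, 9000) (by decide +kernel)
                 (CovZ.leaf K2_ok TB_l41614 _)
                 (CovZ.n1 (-20952, 8976) (by decide +kernel)
                  (CovZ.leaf K2_ok TB_l41615 _)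
                  (CovZ.leaf K2_ok TB_l41616 _))))
               (CovZ.badM (by decide +kernel))))
             (CovZ.badM (by decide +kernel)))
            (CovZ.n1 (-20832, 8928) (by decide +kernel)
             (CovZ.badM (by decide +kernel))
             (CovZ.n1 (-20928, 8928) (by decide +kernel)
              (CovZ.n2 (-20880, 8976) (by decide +kernel)
               (CovZ.badM (by decide +kernel))
               (CovZ.n1 (-20928, 8976) (by decide +kernel)
                (CovZ.n2 (-20904, 9000) (by decide +kernel)
                 (CovZ.n2 (-20904, 8976) (by decide +kernel)
                  (CovZ.leaf K2_ok TB_l41617 _)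
                  (CovZ.leaf K2_ok TB_l41618 _))
                 (CovZ.leaf K2_ok TB_l41619 _))
                (CovZ.badM (by decide +kernel))))
              (CovZ.badM (by decide +kernel)))))))))

theorem TB_u263 : CovZ TB_M (toL (selN TB_LN 75162536783210669964630542970503054606305288760313595618831738890698620323752573894479022175864652628418887680)) [0, 7, 6, 1] (-18432, 7680) (-18432, 8448) (-19200, 8448) :=
    (CovZ.subM 75153362648762663292463379340122039179082728376027408387735398523741980801259314331709020307181659908860805120 (by decide +kernel)
      (CovZ.n2 (-18816, 8064) (by decide +kernel)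
       (CovZ.n2 (-18816, 8448) (by decide +kernel)
        (CovZ.n2 (-18624, 8256) (by decide +kernel)
         (CovZ.badM (by decide +kernel))
         (CovZ.n1 (-18624, 8448) (by decide +kernel)
          (CovZ.n2 (-18528, 8352) (by decide +kernel)
           (CovZ.badM (by decide +kernel))
           (CovZ.n1 (-18528, 8448) (by decide +kernel)
            (CovZ.n2 (-18480, 8400) (by decide +kernel)
             (CovZ.badM (by decide +kernel))
             (CovZ.n1 (-18480, 8448) (by decide +kernel)
              (CovZ.n2 (-18456, 8424) (by decide +kernel)
               (CovZ.badM (by decide +kernel))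
               (CovZ.leaf K2_ok TB_l41815 _))
              (CovZ.badM (by decide +kernel))))
            (CovZ.badM (by decide +kernel))))
          (CovZ.badM (by decide +kernel))))
        (CovZ.n1 (-19008, 8256) (by decide +kernel)
         (CovZ.n2 (-19008, 8448) (by decide +kernel)
          (CovZ.badM (by decide +kernel))
          (CovZ.n1 (-19104, 8352) (by decide +kernel)
           (CovZ.n2 (-19104, 8448) (by decide +kernel)
            (CovZ.n2 (-19056, 8400) (by decide +kernel)
             (CovZ.n2 (-19104, 8400) (by decide +kernel)
              (CovZ.leaf K2_ok TB_l19750 _)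
              (CovZ.badM (by decide +kernel)))
             (CovZ.n1 (-19056, 8448) (by decide +kernel)
              (CovZ.badM (by decide +kernel))
              (CovZ.leaf K2_ok TB_l19753 _)))
            (CovZ.n1 (-19152, 8400) (by decide +kernel)
             (CovZ.n2 (-19152, 8448) (by decide +kernel)
              (CovZ.leaf K2_ok TB_l41816 _)
              (CovZ.leaf K2_ok TB_l41817 _))
             (CovZ.leaf K2_ok TB_l41818 _)))
           (CovZ.badM (by decide +kernel))))
         (CovZ.badM (by decide +kernel))))
       (CovZ.n1 (-18432, 8064) (by decide +kernel)
        (CovZ.badM (by decide +kernel))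
        (CovZ.n1 (-18624, 8256) (by decide +kernel)
         (CovZ.n2 (-18432, 8256) (by decide +kernel)
          (CovZ.n2 (-18528, 8160) (by decide +kernel)
           (CovZ.n2 (-18528, 8256) (by decide +kernel)
            (CovZ.badM (by decide +kernel))
            (CovZ.badM (by decide +kernel)))
           (CovZ.badM (by decide +kernel)))
          (CovZ.n1 (-18528, 8352) (by decide +kernel)
           (CovZ.n2 (-18432, 8352) (by decide +kernel)
            (CovZ.n2 (-18480, 8304) (by decide +kernel)
             (CovZ.n2 (-18480, 8352) (by decide +kernel)
              (CovZ.badM (by decide +kernel))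
              (CovZ.badM (by decide +kernel)))
             (CovZ.badM (by decide +kernel)))
            (CovZ.n1 (-18480, 8400) (by decide +kernel)
             (CovZ.n2 (-18432, 8400) (by decide +kernel)
              (CovZ.n2 (-18456, 8376) (by decide +kernel)
               (CovZ.n2 (-18456, 8400) (by decide +kernel)
                (CovZ.leaf K2_ok TB_l41819 _)
                (CovZ.badM (by decide +kernel)))
               (CovZ.n1 (-18432, 8376) (by decide +kernel)
                (CovZ.badM (by decide +kernel))
                (CovZ.leaf K2_ok TB_l49580 _)))
              (CovZ.n1 (-18456, 8424) (by decide +kernel)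
               (CovZ.leaf K2_ok TB_l41820 _)
               (CovZ.n1 (-18456, 8400) (by decide +kernel)
                (CovZ.badM (by decide +kernel))
                (CovZ.leaf K2_ok TB_l41821 _))))
             (CovZ.n1 (-18480, 8352) (by decide +kernel)
              (CovZ.badM (by decide +kernel))
              (CovZ.n1 (-18456, 8376) (by decide +kernel)
               (CovZ.badM (by decide +kernel))
               (CovZ.badM (by decide +kernel))))))
           (CovZ.n1 (-18528, 8256) (by decide +kernel)
            (CovZ.badM (by decide +kernel))
            (CovZ.n1 (-18480, 8304) (by decide +kernel)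
             (CovZ.badM (by decide +kernel))
             (CovZ.badM (by decide +kernel))))))
         (CovZ.n1 (-18624, 8064) (by decide +kernel)
          (CovZ.badM (by decide +kernel))
          (CovZ.n1 (-18528, 8160) (by decide +kernel)
           (CovZ.badM (by decide +kernel))
           (CovZ.badM (by decide +kernel))))))))

theorem TB_u264 : CovZ TB_M (toL (selN TB_LN 75162536783210669964630542970503054606305288760313595618831738890698620323752573894479022175864652628418887680)) [0, 7, 6, 1] (-18432, 8448) (-18432, 9216) (-19200, 8448) :=
    (CovZ.n1 (-18816, 8832) (by decide +kernel)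
      (CovZ.n2 (-18432, 8832) (by decide +kernel)
       (CovZ.subM 75153362788746709678584099686892203483586921612779839301575608245790350775753165839567612730495897247315656704 (by decide +kernel)
        (CovZ.n2 (-18624, 8640) (by decide +kernel)
         (CovZ.n2 (-18624, 8832) (by decide +kernel)
          (CovZ.n2 (-18528, 8736) (by decide +kernel)
           (CovZ.n2 (-18624, 8736) (by decide +kernel)
            (CovZ.leaf K2_ok TB_l19762 _)
            (CovZ.leaf K2_ok TB_l19763 _))
           (CovZ.n1 (-18528, 8832) (by decide +kernel)
            (CovZ.leaf K2_ok TB_l19764 _)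
            (CovZ.leaf K2_ok TB_l19765 _)))
          (CovZ.subM 15177100720513508366558296147058928530353381785668370081438409914243568644692901888 (by decide +kernel)
           (CovZ.n1 (-18720, 8736) (by decide +kernel)
            (CovZ.n2 (-18720, 8832) (by decide +kernel)
             (CovZ.leaf K2_ok TB_l19766 _)
             (CovZ.leaf K2_ok TB_l19767 _))
            (CovZ.n1 (-18624, 8736) (by decide +kernel)
             (CovZ.leaf K2_ok TB_l19768 _)
             (CovZ.leaf K2_ok TB_l19769 _)))))
         (CovZ.n1 (-18432, 8640) (by decide +kernel)
          (CovZ.n2 (-18528, 8544) (by decide +kernel)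
           (CovZ.n2 (-18528, 8640) (by decide +kernel)
            (CovZ.n2 (-18480, 8592) (by decide +kernel)
             (CovZ.leaf K2_ok TB_l19770 _)
             (CovZ.leaf K2_ok TB_l19771 _))
            (CovZ.n1 (-18576, 8592) (by decide +kernel)
             (CovZ.leaf K2_ok TB_l19772 _)
             (CovZ.leaf K2_ok TB_l19773 _)))
           (CovZ.n1 (-18432, 8544) (by decide +kernel)
            (CovZ.subM 75153362648762663292463379340092403641243552762261188188759924534535362870132482021508759316001150601609084928 (by decide +kernel)
             (CovZ.n2 (-18480, 8496) (by decide +kernel)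
              (CovZ.n2 (-18480, 8544) (by decide +kernel)
               (CovZ.n2 (-18456, 8520) (by decide +kernel)
                (CovZ.leaf K2_ok TB_l19774 _)
                (CovZ.leaf K2_ok TB_l19775 _))
               (CovZ.leaf K2_ok TB_l19776 _))
              (CovZ.n1 (-18432, 8496) (by decide +kernel)
               (CovZ.leaf K2_ok TB_l19777 _)
               (CovZ.leaf K2_ok TB_l19778 _))))
            (CovZ.n1 (-18480, 8592) (by decide +kernel)
             (CovZ.leaf K2_ok TB_l19779 _)
             (CovZ.n1 (-18480, 8544) (by decide +kernel)
              (CovZ.leaf K2_ok TB_l19780 _)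
              (CovZ.leaf K2_ok TB_l19781 _)))))
          (CovZ.n1 (-18528, 8736) (by decide +kernel)
           (CovZ.n2 (-18432, 8736) (by decide +kernel)
            (CovZ.leaf K2_ok TB_l19782 _)
            (CovZ.leaf K2_ok TB_l19783 _))
           (CovZ.n1 (-18528, 8640) (by decide +kernel)
            (CovZ.n2 (-18576, 8688) (by decide +kernel)
             (CovZ.leaf K2_ok TB_l19784 _)
             (CovZ.leaf K2_ok TB_l19785 _))
            (CovZ.n1 (-18480, 8688) (by decide +kernel)
             (CovZ.leaf K2_ok TB_l19786 _)
             (CovZ.leaf K2_ok TB_l19787 _)))))))
       (CovZ.n1 (-18624, 9024) (by decide +kernel)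
        (CovZ.n2 (-18432, 9024) (by decide +kernel)
         (CovZ.n2 (-18528, 8928) (by decide +kernel)
          (CovZ.leaf K2_ok TB_l19788 _)
          (CovZ.leaf K2_ok TB_l19789 _))
         (CovZ.n1 (-18528, 9120) (by decide +kernel)
          (CovZ.leaf K2_ok TB_l19790 _)
          (CovZ.leaf K2_ok TB_l19791 _)))
        (CovZ.n1 (-18624, 8832) (by decide +kernel)
         (CovZ.n2 (-18720, 8928) (by decide +kernel)
          (CovZ.leaf K2_ok TB_l19792 _)
          (CovZ.n1 (-18720, 8832) (by decide +kernel)
           (CovZ.leaf K2_ok TB_l19793 _)
           (CovZ.leaf K2_ok TB_l19794 _)))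
         (CovZ.n1 (-18528, 8928) (by decide +kernel)
          (CovZ.n2 (-18528, 8832) (by decide +kernel)
           (CovZ.leaf K2_ok TB_l19795 _)
           (CovZ.leaf K2_ok TB_l19796 _))
          (CovZ.leaf K2_ok TB_l19797 _)))))
      (CovZ.subM 75153362788746709678584099686921846258404067573421111218588093326751679790017765388073032325781272911608283136 (by decide +kernel)
       (CovZ.n1 (-18816, 8448) (by decide +kernel)
        (CovZ.subM 15206743495358261312586730319221152634763818901742774065832511055749594405880725504 (by decide +kernel)
         (CovZ.n2 (-19008, 8640) (by decide +kernel)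
          (CovZ.n2 (-18816, 8640) (by decide +kernel)
           (CovZ.n2 (-18912, 8544) (by decide +kernel)
            (CovZ.n2 (-18912, 8640) (by decide +kernel)
             (CovZ.n2 (-18864, 8592) (by decide +kernel)
              (CovZ.leaf K2_ok TB_l19798 _)
              (CovZ.leaf K2_ok TB_l19799 _))
             (CovZ.leaf K2_ok TB_l19800 _))
            (CovZ.n1 (-18816, 8544) (by decide +kernel)
             (CovZ.badM (by decide +kernel))
             (CovZ.n1 (-18864, 8592) (by decide +kernel)
              (CovZ.leaf K2_ok TB_l19803 _)
              (CovZ.leaf K2_ok TB_l19804 _))))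
           (CovZ.n1 (-18912, 8736) (by decide +kernel)
            (CovZ.leaf K2_ok TB_l19805 _)
            (CovZ.n1 (-18912, 8640) (by decide +kernel)
             (CovZ.leaf K2_ok TB_l19806 _)
             (CovZ.leaf K2_ok TB_l19807 _))))
          (CovZ.n1 (-19008, 8448) (by decide +kernel)
           (CovZ.n2 (-19104, 8544) (by decide +kernel)
            (CovZ.n2 (-19008, 8544) (by decide +kernel)
             (CovZ.n2 (-19056, 8496) (by decide +kernel)
              (CovZ.leaf K2_ok TB_l19808 _)
              (CovZ.badM (by decide +kernel)))
             (CovZ.n1 (-19056, 8592) (by decide +kernel)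
              (CovZ.leaf K2_ok TB_l19810 _)
              (CovZ.leaf K2_ok TB_l19811 _)))
            (CovZ.n1 (-19104, 8448) (by decide +kernel)
             (CovZ.n2 (-19152, 8496) (by decide +kernel)
              (CovZ.leaf K2_ok TB_l41822 _)
              (CovZ.n1 (-19152, 8448) (by decide +kernel)
               (CovZ.leaf K2_ok TB_l41823 _)
               (CovZ.leaf K2_ok TB_l41824 _)))
             (CovZ.n1 (-19056, 8496) (by decide +kernel)
              (CovZ.n2 (-19056, 8448) (by decide +kernel)
               (CovZ.leaf K2_ok TB_l19812 _)
               (CovZ.badM (by decide +kernel)))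
              (CovZ.leaf K2_ok TB_l19814 _))))
           (CovZ.n1 (-18912, 8544) (by decide +kernel)
            (CovZ.badM (by decide +kernel))
            (CovZ.n1 (-19008, 8544) (by decide +kernel)
             (CovZ.n2 (-18960, 8592) (by decide +kernel)
              (CovZ.leaf K2_ok TB_l19821 _)
              (CovZ.leaf K2_ok TB_l19822 _))
             (CovZ.badM (by decide +kernel)))))))
        (CovZ.n1 (-18624, 8640) (by decide +kernel)
         (CovZ.subM 75153362648762663292463379340092403641243552762261188188759924534535362870132482021508797094933013558770794496 (by decide +kernel)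
          (CovZ.n2 (-18624, 8448) (by decide +kernel)
           (CovZ.n2 (-18720, 8544) (by decide +kernel)
            (CovZ.n2 (-18624, 8544) (by decide +kernel)
             (CovZ.badM (by decide +kernel))
             (CovZ.n1 (-18672, 8592) (by decide +kernel)
              (CovZ.leaf K2_ok TB_l19828 _)
              (CovZ.n1 (-18672, 8544) (by decide +kernel)
               (CovZ.leaf K2_ok TB_l19829 _)
               (CovZ.leaf K2_ok TB_l19830 _))))
            (CovZ.badM (by decide +kernel)))
           (CovZ.n1 (-18528, 8544) (by decide +kernel)
            (CovZ.n2 (-18528, 8448) (by decide +kernel)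
             (CovZ.badM (by decide +kernel))
             (CovZ.n1 (-18480, 8496) (by decide +kernel)
              (CovZ.n2 (-18480, 8448) (by decide +kernel)
               (CovZ.badM (by decide +kernel))
               (CovZ.n1 (-18456, 8472) (by decide +kernel)
                (CovZ.leaf K2_ok TB_l19843 _)
                (CovZ.badM (by decide +kernel))))
              (CovZ.badM (by decide +kernel))))
            (CovZ.n1 (-18624, 8544) (by decide +kernel)
             (CovZ.n2 (-18576, 8592) (by decide +kernel)
              (CovZ.n2 (-18576, 8544) (by decide +kernel)
               (CovZ.leaf K2_ok TB_l19848 _)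
               (CovZ.leaf K2_ok TB_l19849 _))
              (CovZ.leaf K2_ok TB_l19850 _))
             (CovZ.badM (by decide +kernel))))))
         (CovZ.subM 15177100720513508366558296147058928530353381785668370081438409914243568644692901888 (by decide +kernel)
          (CovZ.n1 (-18816, 8640) (by decide +kernel)
           (CovZ.n2 (-18720, 8736) (by decide +kernel)
            (CovZ.n2 (-18720, 8640) (by decide +kernel)
             (CovZ.leaf K2_ok TB_l19855 _)
             (CovZ.leaf K2_ok TB_l19856 _))
            (CovZ.n1 (-18816, 8736) (by decide +kernel)
             (CovZ.leaf K2_ok TB_l19857 _)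
             (CovZ.leaf K2_ok TB_l19858 _)))
           (CovZ.n1 (-18720, 8544) (by decide +kernel)
            (CovZ.n2 (-18816, 8544) (by decide +kernel)
             (CovZ.n2 (-18768, 8592) (by decide +kernel)
              (CovZ.n2 (-18768, 8544) (by decide +kernel)
               (CovZ.leaf K2_ok TB_l19859 _)
               (CovZ.leaf K2_ok TB_l19860 _))
              (CovZ.leaf K2_ok TB_l19861 _))
             (CovZ.badM (by decide +kernel)))
            (CovZ.n1 (-18720, 8640) (by decide +kernel)
             (CovZ.n2 (-18672, 8592) (by decide +kernel)
              (CovZ.leaf K2_ok TB_l19864 _)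
              (CovZ.leaf K2_ok TB_l19865 _))
             (CovZ.leaf K2_ok TB_l19866 _)))))))))

theorem TB_u265 : CovZ TB_M (toL (selN TB_LN 9173994463960286046443298802773230543824045557620529797215042326585151284329997271513108424886328299094016)) [0, 7, 6, 1] (-19968, 8448) (-19584, 8448) (-19584, 8832) :=
    (CovZ.n2 (-19776, 8640) (by decide +kernel)
         (CovZ.n2 (-19584, 8640) (by decide +kernel)
          (CovZ.subM 9173994463960286046443298758309068276694626514969271553691813501351121599193949021773710786410221471268864 (by decide +kernel)
           (CovZ.n2 (-19680, 8544) (by decide +kernel)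
            (CovZ.n2 (-19680, 8640) (by decide +kernel)
             (CovZ.n2 (-19632, 8592) (by decide +kernel)
              (CovZ.n2 (-19680, 8592) (by decide +kernel)
               (CovZ.leaf K2_ok TB_l41835 _)
               (CovZ.n1 (-19656, 8568) (by decide +kernel)
                (CovZ.leaf K2_ok TB_l41836 _)
                (CovZ.leaf K2_ok TB_l41837 _)))
              (CovZ.n1 (-19632, 8640) (by decide +kernel)
               (CovZ.leaf K2_ok TB_l41838 _)
               (CovZ.leaf K2_ok TB_l41839 _)))
             (CovZ.n1 (-19728, 8592) (by decide +kernel)
              (CovZ.n2 (-19728, 8640) (by decide +kernel)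
               (CovZ.leaf K2_ok TB_l41840 _)
               (CovZ.leaf K2_ok TB_l41841 _))
              (CovZ.n1 (-19680, 8592) (by decide +kernel)
               (CovZ.leaf K2_ok TB_l41842 _)
               (CovZ.leaf K2_ok TB_l41843 _))))
            (CovZ.n1 (-19584, 8544) (by decide +kernel)
             (CovZ.n2 (-19632, 8496) (by decide +kernel)
              (CovZ.n2 (-19632, 8544) (by decide +kernel)
               (CovZ.n2 (-19608, 8520) (by decide +kernel)
                (CovZ.leaf K2_ok TB_l49581 _)
                (CovZ.leaf K2_ok TB_l49582 _))
               (CovZ.leaf K2_ok TB_l41844 _))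
              (CovZ.n1 (-19584, 8496) (by decide +kernel)
               (CovZ.n2 (-19608, 8472) (by decide +kernel)
                (CovZ.leaf K2_ok TB_l49583 _)
                (CovZ.leaf K2_ok TB_l49584 _))
               (CovZ.n1 (-19608, 8520) (by decide +kernel)
                (CovZ.leaf K2_ok TB_l49585 _)
                (CovZ.leaf K2_ok TB_l49586 _))))
             (CovZ.n1 (-19632, 8592) (by decide +kernel)
              (CovZ.leaf K2_ok TB_l41845 _)
              (CovZ.n1 (-19632, 8544) (by decide +kernel)
               (CovZ.n2 (-19656, 8568) (by decide +kernel)
                (CovZ.leaf K2_ok TB_l41846 _)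
                (CovZ.leaf K2_ok TB_l41847 _))
               (CovZ.leaf K2_ok TB_l41848 _))))))
          (CovZ.n1 (-19680, 8736) (by decide +kernel)
           (CovZ.n2 (-19584, 8736) (by decide +kernel)
            (CovZ.n2 (-19632, 8688) (by decide +kernel)
             (CovZ.leaf K2_ok TB_l41849 _)
             (CovZ.leaf K2_ok TB_l41850 _))
            (CovZ.n1 (-19632, 8784) (by decide +kernel)
             (CovZ.leaf K2_ok TB_l19869 _)
             (CovZ.leaf K2_ok TB_l41851 _)))
           (CovZ.subM 9173994463960286046443298758309068276694626514969271553691813501351121599193949021773710786410221471268864 (by decide +kernel)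
            (CovZ.n1 (-19680, 8640) (by decide +kernel)
             (CovZ.n2 (-19728, 8688) (by decide +kernel)
              (CovZ.leaf K2_ok TB_l41852 _)
              (CovZ.n1 (-19728, 8640) (by decide +kernel)
               (CovZ.leaf K2_ok TB_l41853 _)
               (CovZ.leaf K2_ok TB_l41854 _)))
             (CovZ.n1 (-19632, 8688) (by decide +kernel)
              (CovZ.n2 (-19632, 8640) (by decide +kernel)
               (CovZ.leaf K2_ok TB_l41855 _)
               (CovZ.leaf K2_ok TB_l41856 _))
              (CovZ.leaf K2_ok TB_l41857 _))))))
         (CovZ.subM 9173994463960286046443298758309068276694626514969271553691813501351121599193949021773711939331726078115840 (by decide +kernel)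
          (CovZ.n1 (-19776, 8448) (by decide +kernel)
           (CovZ.n2 (-19872, 8544) (by decide +kernel)
            (CovZ.n2 (-19776, 8544) (by decide +kernel)
             (CovZ.n2 (-19824, 8496) (by decide +kernel)
              (CovZ.n2 (-19824, 8544) (by decide +kernel)
               (CovZ.n2 (-19800, 8520) (by decide +kernel)
                (CovZ.badM (by decide +kernel))
                (CovZ.n1 (-19800, 8544) (by decide +kernel)
                 (CovZ.leaf K2_ok TB_l41858 _)
                 (CovZ.leaf K2_ok TB_l41859 _)))
               (CovZ.n1 (-19848, 8520) (by decide +kernel)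
                (CovZ.n2 (-19848, 8544) (by decide +kernel)
                 (CovZ.badM (by decide +kernel))
                 (CovZ.leaf K2_ok TB_l41860 _))
                (CovZ.badM (by decide +kernel))))
              (CovZ.n1 (-19776, 8496) (by decide +kernel)
               (CovZ.badM (by decide +kernel))
               (CovZ.n1 (-19800, 8520) (by decide +kernel)
                (CovZ.leaf K2_ok TB_l41861 _)
                (CovZ.badM (by decide +kernel)))))
             (CovZ.n1 (-19824, 8592) (by decide +kernel)
              (CovZ.n2 (-19776, 8592) (by decide +kernel)
               (CovZ.n2 (-19800, 8568) (by decide +kernel)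
                (CovZ.leaf K2_ok TB_l41862 _)
                (CovZ.leaf K2_ok TB_l41863 _))
               (CovZ.n1 (-19800, 8616) (by decide +kernel)
                (CovZ.leaf K2_ok TB_l41864 _)
                (CovZ.leaf K2_ok TB_l41865 _)))
              (CovZ.n1 (-19824, 8544) (by decide +kernel)
               (CovZ.n2 (-19848, 8568) (by decide +kernel)
                (CovZ.leaf K2_ok TB_l41866 _)
                (CovZ.n1 (-19848, 8544) (by decide +kernel)
                 (CovZ.leaf K2_ok TB_l41867 _)
                 (CovZ.leaf K2_ok TB_l41868 _)))
               (CovZ.n1 (-19800, 8568) (by decide +kernel)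
                (CovZ.n2 (-19800, 8544) (by decide +kernel)
                 (CovZ.leaf K2_ok TB_l41869 _)
                 (CovZ.leaf K2_ok TB_l41870 _))
                (CovZ.leaf K2_ok TB_l41871 _)))))
            (CovZ.n1 (-19872, 8448) (by decide +kernel)
             (CovZ.n2 (-19920, 8496) (by decide +kernel)
              (CovZ.n2 (-19872, 8496) (by decide +kernel)
               (CovZ.badM (by decide +kernel))
               (CovZ.n1 (-19896, 8520) (by decide +kernel)
                (CovZ.n2 (-19872, 8520) (by decide +kernel)
                 (CovZ.badM (by decide +kernel))
                 (CovZ.leaf K2_ok TB_l41872 _))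
                (CovZ.badM (by decide +kernel))))
              (CovZ.badM (by decide +kernel)))
             (CovZ.n1 (-19824, 8496) (by decide +kernel)
              (CovZ.badM (by decide +kernel))
              (CovZ.n1 (-19872, 8496) (by decide +kernel)
               (CovZ.n2 (-19848, 8520) (by decide +kernel)
                (CovZ.badM (by decide +kernel))
                (CovZ.n1 (-19872, 8520) (by decide +kernel)
                 (CovZ.leaf K2_ok TB_l41873 _)
                 (CovZ.badM (by decide +kernel))))
               (CovZ.badM (by decide +kernel))))))
           (CovZ.n1 (-19680, 8544) (by decide +kernel)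
            (CovZ.n2 (-19680, 8448) (by decide +kernel)
             (CovZ.n2 (-19728, 8496) (by decide +kernel)
              (CovZ.n2 (-19680, 8496) (by decide +kernel)
               (CovZ.n2 (-19704, 8472) (by decide +kernel)
                (CovZ.n2 (-19704, 8496) (by decide +kernel)
                 (CovZ.leaf K2_ok TB_l41874 _)
                 (CovZ.leaf K2_ok TB_l41875 _))
                (CovZ.leaf K2_ok TB_l49587 _))
               (CovZ.n1 (-19704, 8520) (by decide +kernel)
                (CovZ.leaf K2_ok TB_l41876 _)
                (CovZ.n1 (-19704, 8496) (by decide +kernel)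
                 (CovZ.leaf K2_ok TB_l41877 _)
                 (CovZ.leaf K2_ok TB_l41878 _))))
              (CovZ.n1 (-19728, 8448) (by decide +kernel)
               (CovZ.n2 (-19752, 8472) (by decide +kernel)
                (CovZ.n2 (-19728, 8472) (by decide +kernel)
                 (CovZ.badM (by decide +kernel))
                 (CovZ.leaf K2_ok TB_l41879 _))
                (CovZ.badM (by decide +kernel)))
               (CovZ.n1 (-19704, 8472) (by decide +kernel)
                (CovZ.n2 (-19704, 8448) (by decide +kernel)
                 (CovZ.leaf K2_ok TB_l41880 _)
                 (CovZ.badM (by decide +kernel)))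
                (CovZ.n1 (-19728, 8472) (by decide +kernel)
                 (CovZ.leaf K2_ok TB_l41881 _)
                 (CovZ.leaf K2_ok TB_l41882 _)))))
             (CovZ.n1 (-19632, 8496) (by decide +kernel)
              (CovZ.n2 (-19632, 8448) (by decide +kernel)
               (CovZ.n2 (-19656, 8472) (by decide +kernel)
                (CovZ.leaf K2_ok TB_l49588 _)
                (CovZ.n1 (-19656, 8448) (by decide +kernel)
                 (CovZ.leaf K2_ok TB_l49589 _)
                 (CovZ.leaf K2_ok TB_l49590 _)))
               (CovZ.n1 (-19608, 8472) (by decide +kernel)
                (CovZ.n2 (-19608, 8448) (by decide +kernel)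
                 (CovZ.leaf K2_ok TB_l49591 _)
                 (CovZ.leaf K2_ok TB_l49592 _))
                (CovZ.leaf K2_ok TB_l49593 _)))
              (CovZ.n1 (-19680, 8496) (by decide +kernel)
               (CovZ.n2 (-19656, 8520) (by decide +kernel)
                (CovZ.leaf K2_ok TB_l49594 _)
                (CovZ.leaf K2_ok TB_l41883 _))
               (CovZ.n1 (-19656, 8472) (by decide +kernel)
                (CovZ.leaf K2_ok TB_l49595 _)
                (CovZ.n1 (-19656, 8496) (by decide +kernel)
                 (CovZ.leaf K2_ok TB_l49596 _)
                 (CovZ.leaf K2_ok TB_l49597 _))))))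
            (CovZ.n1 (-19776, 8544) (by decide +kernel)
             (CovZ.n2 (-19728, 8592) (by decide +kernel)
              (CovZ.n2 (-19728, 8544) (by decide +kernel)
               (CovZ.n2 (-19752, 8568) (by decide +kernel)
                (CovZ.leaf K2_ok TB_l41884 _)
                (CovZ.leaf K2_ok TB_l41885 _))
               (CovZ.n1 (-19704, 8568) (by decide +kernel)
                (CovZ.leaf K2_ok TB_l41886 _)
                (CovZ.leaf K2_ok TB_l41887 _)))
              (CovZ.n1 (-19776, 8592) (by decide +kernel)
               (CovZ.leaf K2_ok TB_l41888 _)
               (CovZ.n1 (-19752, 8568) (by decide +kernel)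
                (CovZ.leaf K2_ok TB_l41889 _)
                (CovZ.leaf K2_ok TB_l41890 _))))
             (CovZ.n1 (-19728, 8496) (by decide +kernel)
              (CovZ.n2 (-19776, 8496) (by decide +kernel)
               (CovZ.n2 (-19752, 8520) (by decide +kernel)
                (CovZ.n2 (-19752, 8496) (by decide +kernel)
                 (CovZ.leaf K2_ok TB_l41891 _)
                 (CovZ.leaf K2_ok TB_l41892 _))
                (CovZ.leaf K2_ok TB_l41893 _))
               (CovZ.n1 (-19752, 8472) (by decide +kernel)
                (CovZ.badM (by decide +kernel))
                (CovZ.n1 (-19752, 8496) (by decide +kernel)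
                 (CovZ.leaf K2_ok TB_l41894 _)
                 (CovZ.leaf K2_ok TB_l41895 _))))
              (CovZ.n1 (-19728, 8544) (by decide +kernel)
               (CovZ.n2 (-19704, 8520) (by decide +kernel)
                (CovZ.leaf K2_ok TB_l41896 _)
                (CovZ.leaf K2_ok TB_l41897 _))
               (CovZ.n1 (-19752, 8520) (by decide +kernel)
                (CovZ.leaf K2_ok TB_l41898 _)
                (CovZ.leaf K2_ok TB_l41899 _)))))))))

theorem TB_u266 : CovZ TB_M (toL (selN TB_LN 9173994463960286046443298802773230543824045557620529797215042326585151284329997271513108424886328299094016)) [0, 7, 6, 1] (-19584, 8448) (-19200, 8448) (-19584, 8832) :=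
    (CovZ.n1 (-19392, 8640) (by decide +kernel)
         (CovZ.subM 9173994463960286046443283610851122607939205985107296657174459767984807578757923626418994650329221095751680 (by decide +kernel)
          (CovZ.n2 (-19392, 8448) (by decide +kernel)
           (CovZ.n2 (-19488, 8544) (by decide +kernel)
            (CovZ.n2 (-19392, 8544) (by decide +kernel)
             (CovZ.n2 (-19440, 8496) (by decide +kernel)
              (CovZ.n2 (-19440, 8544) (by decide +kernel)
               (CovZ.leaf K2_ok TB_l41900 _)
               (CovZ.leaf K2_ok TB_l49598 _))
              (CovZ.n1 (-19392, 8496) (by decide +kernel)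
               (CovZ.leaf K2_ok TB_l49599 _)
               (CovZ.leaf K2_ok TB_l41901 _)))
             (CovZ.n1 (-19440, 8592) (by decide +kernel)
              (CovZ.leaf K2_ok TB_l41902 _)
              (CovZ.n1 (-19440, 8544) (by decide +kernel)
               (CovZ.leaf K2_ok TB_l41903 _)
               (CovZ.leaf K2_ok TB_l41904 _))))
            (CovZ.n1 (-19488, 8448) (by decide +kernel)
             (CovZ.n2 (-19536, 8496) (by decide +kernel)
              (CovZ.n2 (-19488, 8496) (by decide +kernel)
               (CovZ.leaf K2_ok TB_l49600 _)
               (CovZ.leaf K2_ok TB_l49601 _))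
              (CovZ.n1 (-19536, 8448) (by decide +kernel)
               (CovZ.n2 (-19560, 8472) (by decide +kernel)
                (CovZ.leaf K2_ok TB_l49602 _)
                (CovZ.n1 (-19560, 8448) (by decide +kernel)
                 (CovZ.leaf K2_ok TB_l49603 _)
                 (CovZ.leaf K2_ok TB_l49604 _)))
               (CovZ.n1 (-19512, 8472) (by decide +kernel)
                (CovZ.leaf K2_ok TB_l49605 _)
                (CovZ.leaf K2_ok TB_l49606 _))))
             (CovZ.n1 (-19440, 8496) (by decide +kernel)
              (CovZ.n2 (-19440, 8448) (by decide +kernel)
               (CovZ.n2 (-19464, 8472) (by decide +kernel)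
                (CovZ.leaf K2_ok TB_l49607 _)
                (CovZ.leaf K2_ok TB_l49608 _))
               (CovZ.leaf K2_ok TB_l49609 _))
              (CovZ.n1 (-19488, 8496) (by decide +kernel)
               (CovZ.leaf K2_ok TB_l49610 _)
               (CovZ.n1 (-19464, 8472) (by decide +kernel)
                (CovZ.leaf K2_ok TB_l49611 _)
                (CovZ.leaf K2_ok TB_l49612 _))))))
           (CovZ.n1 (-19296, 8544) (by decide +kernel)
            (CovZ.n2 (-19296, 8448) (by decide +kernel)
             (CovZ.n2 (-19344, 8496) (by decide +kernel)
              (CovZ.leaf K2_ok TB_l41905 _)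
              (CovZ.n1 (-19344, 8448) (by decide +kernel)
               (CovZ.leaf K2_ok TB_l41906 _)
               (CovZ.leaf K2_ok TB_l41907 _)))
             (CovZ.n1 (-19248, 8496) (by decide +kernel)
              (CovZ.n2 (-19248, 8448) (by decide +kernel)
               (CovZ.leaf K2_ok TB_l41908 _)
               (CovZ.leaf K2_ok TB_l41909 _))
              (CovZ.leaf K2_ok TB_l41910 _)))
            (CovZ.n1 (-19392, 8544) (by decide +kernel)
             (CovZ.n2 (-19344, 8592) (by decide +kernel)
              (CovZ.n2 (-19344, 8544) (by decide +kernel)
               (CovZ.leaf K2_ok TB_l41911 _)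
               (CovZ.leaf K2_ok TB_l41912 _))
              (CovZ.leaf K2_ok TB_l41913 _))
             (CovZ.n1 (-19344, 8496) (by decide +kernel)
              (CovZ.n2 (-19392, 8496) (by decide +kernel)
               (CovZ.leaf K2_ok TB_l41914 _)
               (CovZ.leaf K2_ok TB_l41915 _))
              (CovZ.n1 (-19344, 8544) (by decide +kernel)
               (CovZ.leaf K2_ok TB_l41916 _)
               (CovZ.leaf K2_ok TB_l41917 _)))))))
         (CovZ.n1 (-19584, 8640) (by decide +kernel)
          (CovZ.n2 (-19488, 8736) (by decide +kernel)
           (CovZ.subM 9173994463960286046443298787951843121447572543403443715915917911788237673597933406203445735518949261443072 (by decide +kernel)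
            (CovZ.n2 (-19488, 8640) (by decide +kernel)
             (CovZ.n2 (-19536, 8688) (by decide +kernel)
              (CovZ.leaf K2_ok TB_l41918 _)
              (CovZ.n1 (-19536, 8640) (by decide +kernel)
               (CovZ.leaf K2_ok TB_l41919 _)
               (CovZ.leaf K2_ok TB_l41920 _)))
             (CovZ.n1 (-19440, 8688) (by decide +kernel)
              (CovZ.leaf K2_ok TB_l41921 _)
              (CovZ.leaf K2_ok TB_l41922 _))))
           (CovZ.n1 (-19584, 8736) (by decide +kernel)
            (CovZ.n2 (-19536, 8784) (by decide +kernel)
             (CovZ.leaf K2_ok TB_l41923 _)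
             (CovZ.leaf K2_ok TB_l19870 _))
            (CovZ.n1 (-19536, 8688) (by decide +kernel)
             (CovZ.leaf K2_ok TB_l41924 _)
             (CovZ.leaf K2_ok TB_l41925 _))))
          (CovZ.subM 9173994463960286046443283610851122607939205985107296657174459767984807578757923626418994650329221095751680 (by decide +kernel)
           (CovZ.n1 (-19488, 8544) (by decide +kernel)
            (CovZ.n2 (-19584, 8544) (by decide +kernel)
             (CovZ.n2 (-19536, 8592) (by decide +kernel)
              (CovZ.n2 (-19536, 8544) (by decide +kernel)
               (CovZ.leaf K2_ok TB_l41926 _)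
               (CovZ.leaf K2_ok TB_l41927 _))
              (CovZ.leaf K2_ok TB_l41928 _))
             (CovZ.n1 (-19536, 8496) (by decide +kernel)
              (CovZ.n2 (-19584, 8496) (by decide +kernel)
               (CovZ.leaf K2_ok TB_l49613 _)
               (CovZ.n1 (-19560, 8472) (by decide +kernel)
                (CovZ.leaf K2_ok TB_l49614 _)
                (CovZ.leaf K2_ok TB_l49615 _)))
              (CovZ.n1 (-19536, 8544) (by decide +kernel)
               (CovZ.leaf K2_ok TB_l49616 _)
               (CovZ.leaf K2_ok TB_l49617 _))))
            (CovZ.n1 (-19488, 8640) (by decide +kernel)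
             (CovZ.n2 (-19440, 8592) (by decide +kernel)
              (CovZ.leaf K2_ok TB_l41929 _)
              (CovZ.n1 (-19440, 8640) (by decide +kernel)
               (CovZ.leaf K2_ok TB_l41930 _)
               (CovZ.leaf K2_ok TB_l41931 _)))
             (CovZ.n1 (-19536, 8592) (by decide +kernel)
              (CovZ.n2 (-19536, 8640) (by decide +kernel)
               (CovZ.leaf K2_ok TB_l41932 _)
               (CovZ.leaf K2_ok TB_l41933 _))
              (CovZ.leaf K2_ok TB_l41934 _)))))))

end Pool.Agent.TET
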