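import Pool.Agent.Helper38_TET.TB_M
import Pool.Agent.Helper38_TET.TB_L
import Pool.Agent.Helper38_TET.TB_132
import Pool.Agent.Helper38_TET.TB_138
import Pool.Agent.Helper38_TET.TB_139
import Pool.Agent.Helper38_TET.TB_140
import Pool.Agent.Helper38_TET.TB_141
import Pool.Agent.Helper38_TET.TB_142
import Pool.Agent.Helper38_TET.TB_161
import Pool.Agent.Helper38_TET.TB_162
import Pool.Agent.Helper38_TET.TB_163
import Pool.Agent.Helper38_TET.TB_279
import Pool.Agent.Helper38_TET.TB_280
import Pool.Agent.Helper38_TET.TB_281
import Pool.Agent.Helper38_TET.TB_331
import Pool.Agent.Helper38_TET.TB_U17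

/-!
# MP_c7c9bf_co: certificates, family TB
-/

set_option autoImplicit false
set_option maxRecDepth 100000

namespace Pool.Agent.TET

theorem TB_u267 : CovZ TB_M (toL (selN TB_LN 75162536783210670095000845455924985514908189291528015012206828137523758922502764645366222897044779157078147072)) [0, 7, 6, 1] (-19968, 9216) (-19968, 8448) (-19200, 8448) :=
    (CovZ.n2 (-19584, 8832) (by decide +kernel)
      (CovZ.subM 9173994463960286046443298802773230543824045557620529797215042326585151284329997271513108424886328299094016 (by decide +kernel)
       (CovZ.n2 (-19584, 8448) (by decide +kernel)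
        TB_u265
        TB_u266))
      (CovZ.n1 (-19968, 8832) (by decide +kernel)
       (CovZ.n2 (-19776, 9024) (by decide +kernel)
        (CovZ.subM 9173994463960286046443298802773230543824045557620529797215042326585151284329997271588666288612242624610304 (by decide +kernel)
         (CovZ.n2 (-19776, 8832) (by decide +kernel)
          (CovZ.n2 (-19872, 8928) (by decide +kernel)
           (CovZ.n2 (-19776, 8928) (by decide +kernel)
            (CovZ.leaf K2_ok TB_l19871 _)
            (CovZ.leaf K2_ok TB_l19872 _))
           (CovZ.n1 (-19872, 8832) (by decide +kernel)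
            (CovZ.n2 (-19920, 8880) (by decide +kernel)
             (CovZ.leaf K2_ok TB_l19873 _)
             (CovZ.leaf K2_ok TB_l19874 _))
            (CovZ.n1 (-19824, 8880) (by decide +kernel)
             (CovZ.leaf K2_ok TB_l19875 _)
             (CovZ.leaf K2_ok TB_l19876 _))))
          (CovZ.n1 (-19680, 8928) (by decide +kernel)
           (CovZ.n2 (-19680, 8832) (by decide +kernel)
            (CovZ.n2 (-19728, 8880) (by decide +kernel)
             (CovZ.leaf K2_ok TB_l19877 _)
             (CovZ.leaf K2_ok TB_l19878 _))
            (CovZ.leaf K2_ok TB_l19879 _))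
           (CovZ.n1 (-19776, 8928) (by decide +kernel)
            (CovZ.leaf K2_ok TB_l19880 _)
            (CovZ.n1 (-19728, 8880) (by decide +kernel)
             (CovZ.leaf K2_ok TB_l19881 _)
             (CovZ.leaf K2_ok TB_l19882 _))))))
        (CovZ.n1 (-19968, 9024) (by decide +kernel)
         (CovZ.n2 (-19872, 9120) (by decide +kernel)
          (CovZ.n2 (-19872, 9024) (by decide +kernel)
           (CovZ.leaf K2_ok TB_l19883 _)
           (CovZ.leaf K2_ok TB_l19884 _))
          (CovZ.n1 (-19968, 9120) (by decide +kernel)
           (CovZ.leaf K2_ok TB_l19885 _)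
           (CovZ.leaf K2_ok TB_l19886 _)))
         (CovZ.subM 9173994463960416416745784209882751724348103757822837091192236946505191997318755951991851142161438362042368 (by decide +kernel)
          (CovZ.n1 (-19872, 8928) (by decide +kernel)
           (CovZ.n2 (-19968, 8928) (by decide +kernel)
            (CovZ.leaf K2_ok TB_l19887 _)
            (CovZ.n1 (-19920, 8880) (by decide +kernel)
             (CovZ.leaf K2_ok TB_l19888 _)
             (CovZ.leaf K2_ok TB_l19889 _)))
           (CovZ.n1 (-19872, 9024) (by decide +kernel)
            (CovZ.n2 (-19824, 8976) (by decide +kernel)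
             (CovZ.leaf K2_ok TB_l19890 _)
             (CovZ.leaf K2_ok TB_l19891 _))
            (CovZ.leaf K2_ok TB_l19892 _))))))
       (CovZ.subM 9173994463960286046443298802773230543824045557620529797215042326585151284329997271588666288612242622513152 (by decide +kernel)
        (CovZ.n1 (-19776, 8640) (by decide +kernel)
         (CovZ.n2 (-19968, 8640) (by decide +kernel)
          (CovZ.n2 (-19872, 8736) (by decide +kernel)
           (CovZ.n2 (-19872, 8640) (by decide +kernel)
            (CovZ.n2 (-19920, 8688) (by decide +kernel)
             (CovZ.n2 (-19872, 8688) (by decide +kernel)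
              (CovZ.leaf K2_ok TB_l41935 _)
              (CovZ.leaf K2_ok TB_l41936 _))
             (CovZ.n1 (-19920, 8640) (by decide +kernel)
              (CovZ.n2 (-19944, 8664) (by decide +kernel)
               (CovZ.leaf K2_ok TB_l41937 _)
               (CovZ.leaf K2_ok TB_l41938 _))
              (CovZ.n1 (-19896, 8664) (by decide +kernel)
               (CovZ.leaf K2_ok TB_l41939 _)
               (CovZ.leaf K2_ok TB_l41940 _))))
            (CovZ.n1 (-19824, 8688) (by decide +kernel)
             (CovZ.n2 (-19824, 8640) (by decide +kernel)
              (CovZ.n2 (-19848, 8664) (by decide +kernel)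
               (CovZ.leaf K2_ok TB_l41941 _)
               (CovZ.leaf K2_ok TB_l41942 _))
              (CovZ.leaf K2_ok TB_l41943 _))
             (CovZ.n1 (-19872, 8688) (by decide +kernel)
              (CovZ.leaf K2_ok TB_l41944 _)
              (CovZ.n1 (-19848, 8664) (by decide +kernel)
               (CovZ.leaf K2_ok TB_l41945 _)
               (CovZ.leaf K2_ok TB_l41946 _)))))
           (CovZ.n1 (-19968, 8736) (by decide +kernel)
            (CovZ.n2 (-19920, 8784) (by decide +kernel)
             (CovZ.n2 (-19920, 8736) (by decide +kernel)
              (CovZ.leaf K2_ok TB_l41947 _)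
              (CovZ.leaf K2_ok TB_l41948 _))
             (CovZ.leaf K2_ok TB_l41949 _))
            (CovZ.n1 (-19920, 8688) (by decide +kernel)
             (CovZ.n2 (-19968, 8688) (by decide +kernel)
              (CovZ.leaf K2_ok TB_l41950 _)
              (CovZ.n1 (-19944, 8664) (by decide +kernel)
               (CovZ.leaf K2_ok TB_l41951 _)
               (CovZ.leaf K2_ok TB_l41952 _)))
             (CovZ.n1 (-19920, 8736) (by decide +kernel)
              (CovZ.leaf K2_ok TB_l41953 _)
              (CovZ.leaf K2_ok TB_l41954 _)))))
          (CovZ.n1 (-19872, 8544) (by decide +kernel)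
           (CovZ.subM 9173994463960286046443298773130455699071099529186357634803865706569679636395941209228433999153487597797376 (by decide +kernel)
            (CovZ.n2 (-19968, 8544) (by decide +kernel)
             (CovZ.n2 (-19920, 8592) (by decide +kernel)
              (CovZ.subM 37780084784461768556544 (by decide +kernel)
               (CovZ.n2 (-19920, 8544) (by decide +kernel)
                (CovZ.n2 (-19944, 8568) (by decide +kernel)
                 (CovZ.leaf K2_ok TB_l41955 _)
                 (CovZ.badM (by decide +kernel)))
                (CovZ.n1 (-19896, 8568) (by decide +kernel)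
                 (CovZ.n2 (-19896, 8544) (by decide +kernel)
                  (CovZ.leaf K2_ok TB_l41956 _)
                  (CovZ.leaf K2_ok TB_l41957 _))
                 (CovZ.leaf K2_ok TB_l41958 _))))
              (CovZ.n1 (-19968, 8592) (by decide +kernel)
               (CovZ.n2 (-19944, 8616) (by decide +kernel)
                (CovZ.n2 (-19944, 8592) (by decide +kernel)
                 (CovZ.leaf K2_ok TB_l41959 _)
                 (CovZ.leaf K2_ok TB_l41960 _))
                (CovZ.leaf K2_ok TB_l41961 _))
               (CovZ.n1 (-19944, 8568) (by decide +kernel)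
                (CovZ.n2 (-19968, 8568) (by decide +kernel)
                 (CovZ.leaf K2_ok TB_l41962 _)
                 (CovZ.badM (by decide +kernel)))
                (CovZ.n1 (-19944, 8592) (by decide +kernel)
                 (CovZ.leaf K2_ok TB_l41963 _)
                 (CovZ.leaf K2_ok TB_l41964 _)))))
             (CovZ.subM 1152921504606846976 (by decide +kernel)
              (CovZ.n1 (-19920, 8496) (by decide +kernel)
               (CovZ.badM (by decide +kernel))
               (CovZ.n1 (-19920, 8544) (by decide +kernel)
                (CovZ.n2 (-19896, 8520) (by decide +kernel)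
                 (CovZ.badM (by decide +kernel))
                 (CovZ.n1 (-19896, 8544) (by decide +kernel)
                  (CovZ.leaf K2_ok TB_l41965 _)
                  (CovZ.badM (by decide +kernel))))
                (CovZ.badM (by decide +kernel)))))))
           (CovZ.n1 (-19872, 8640) (by decide +kernel)
            (CovZ.subM 9173994463960286046443298773130455699071099529186357634803865706569679636395941218824282692344606672027648 (by decide +kernel)
             (CovZ.n2 (-19824, 8592) (by decide +kernel)
              (CovZ.n2 (-19872, 8592) (by decide +kernel)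
               (CovZ.n2 (-19848, 8616) (by decide +kernel)
                (CovZ.n2 (-19848, 8592) (by decide +kernel)
                 (CovZ.leaf K2_ok TB_l41966 _)
                 (CovZ.leaf K2_ok TB_l41967 _))
                (CovZ.leaf K2_ok TB_l41968 _))
               (CovZ.n1 (-19848, 8568) (by decide +kernel)
                (CovZ.leaf K2_ok TB_l41969 _)
                (CovZ.leaf K2_ok TB_l41970 _)))
              (CovZ.n1 (-19824, 8640) (by decide +kernel)
               (CovZ.n2 (-19800, 8616) (by decide +kernel)
                (CovZ.leaf K2_ok TB_l41971 _)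
                (CovZ.leaf K2_ok TB_l41972 _))
               (CovZ.leaf K2_ok TB_l41973 _))))
            (CovZ.n1 (-19920, 8592) (by decide +kernel)
             (CovZ.n2 (-19920, 8640) (by decide +kernel)
              (CovZ.n2 (-19896, 8616) (by decide +kernel)
               (CovZ.leaf K2_ok TB_l41974 _)
               (CovZ.leaf K2_ok TB_l41975 _))
              (CovZ.n1 (-19944, 8616) (by decide +kernel)
               (CovZ.n2 (-19944, 8640) (by decide +kernel)
                (CovZ.leaf K2_ok TB_l41976 _)
                (CovZ.leaf K2_ok TB_l41977 _))
               (CovZ.leaf K2_ok TB_l41978 _)))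
             (CovZ.subM 9173994463960286046443298773130455699071099529186357634803865706569679636395941218824282692344606672027648 (by decide +kernel)
              (CovZ.n1 (-19872, 8592) (by decide +kernel)
               (CovZ.n2 (-19896, 8568) (by decide +kernel)
                (CovZ.n2 (-19896, 8592) (by decide +kernel)
                 (CovZ.leaf K2_ok TB_l41979 _)
                 (CovZ.leaf K2_ok TB_l41980 _))
                (CovZ.leaf K2_ok TB_l41981 _))
               (CovZ.n1 (-19896, 8616) (by decide +kernel)
                (CovZ.leaf K2_ok TB_l41982 _)
                (CovZ.n1 (-19896, 8592) (by decide +kernel)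
                 (CovZ.leaf K2_ok TB_l41983 _)
                 (CovZ.leaf K2_ok TB_l41984 _)))))))))
         (CovZ.n1 (-19776, 8832) (by decide +kernel)
          (CovZ.n2 (-19680, 8736) (by decide +kernel)
           (CovZ.n2 (-19776, 8736) (by decide +kernel)
            (CovZ.n2 (-19728, 8784) (by decide +kernel)
             (CovZ.n2 (-19728, 8736) (by decide +kernel)
              (CovZ.leaf K2_ok TB_l41985 _)
              (CovZ.leaf K2_ok TB_l41986 _))
             (CovZ.leaf K2_ok TB_l19893 _))
            (CovZ.n1 (-19728, 8688) (by decide +kernel)
             (CovZ.leaf K2_ok TB_l41987 _)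
             (CovZ.n1 (-19728, 8736) (by decide +kernel)
              (CovZ.leaf K2_ok TB_l41988 _)
              (CovZ.leaf K2_ok TB_l41989 _))))
           (CovZ.n1 (-19680, 8832) (by decide +kernel)
            (CovZ.n2 (-19632, 8784) (by decide +kernel)
             (CovZ.leaf K2_ok TB_l19894 _)
             (CovZ.leaf K2_ok TB_l19895 _))
            (CovZ.n1 (-19728, 8784) (by decide +kernel)
             (CovZ.leaf K2_ok TB_l19896 _)
             (CovZ.leaf K2_ok TB_l19897 _))))
          (CovZ.n1 (-19872, 8736) (by decide +kernel)
           (CovZ.n2 (-19872, 8832) (by decide +kernel)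
            (CovZ.n2 (-19824, 8784) (by decide +kernel)
             (CovZ.leaf K2_ok TB_l41990 _)
             (CovZ.leaf K2_ok TB_l19898 _))
            (CovZ.n1 (-19920, 8784) (by decide +kernel)
             (CovZ.n2 (-19920, 8832) (by decide +kernel)
              (CovZ.leaf K2_ok TB_l41991 _)
              (CovZ.leaf K2_ok TB_l41992 _))
             (CovZ.leaf K2_ok TB_l41993 _)))
           (CovZ.n1 (-19776, 8736) (by decide +kernel)
            (CovZ.n2 (-19824, 8688) (by decide +kernel)
             (CovZ.n2 (-19824, 8736) (by decide +kernel)
              (CovZ.leaf K2_ok TB_l41994 _)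
              (CovZ.leaf K2_ok TB_l41995 _))
             (CovZ.leaf K2_ok TB_l41996 _))
            (CovZ.n1 (-19824, 8784) (by decide +kernel)
             (CovZ.leaf K2_ok TB_l19899 _)
             (CovZ.n1 (-19824, 8736) (by decide +kernel)
              (CovZ.leaf K2_ok TB_l41997 _)
              (CovZ.leaf K2_ok TB_l41998 _))))))))))

theorem TB_u268 : CovZ TB_M (toL (selN TB_LN 75162536783210670095000845455924985514908189291528015012206828137523758922502764645366222897044779157078147072)) [0, 7, 6, 1] (-19968, 8448) (-19968, 7680) (-19200, 8448) :=
    (CovZ.subM 9173994463960286046443283610851122607939205985107296657174459767984807578757923636052623428304801938538496 (by decide +kernel)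
      (CovZ.n1 (-19584, 8064) (by decide +kernel)
       (CovZ.badM (by decide +kernel))
       (CovZ.n1 (-19584, 8448) (by decide +kernel)
        (CovZ.n2 (-19392, 8256) (by decide +kernel)
         (CovZ.n2 (-19584, 8256) (by decide +kernel)
          (CovZ.n2 (-19488, 8352) (by decide +kernel)
           (CovZ.badM (by decide +kernel))
           (CovZ.n1 (-19584, 8352) (by decide +kernel)
            (CovZ.n2 (-19536, 8400) (by decide +kernel)
             (CovZ.n2 (-19536, 8352) (by decide +kernel)
              (CovZ.n2 (-19560, 8376) (by decide +kernel)
               (CovZ.n2 (-19536, 8376) (by decide +kernel)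
                (CovZ.badM (by decide +kernel))
                (CovZ.leaf K2_ok TB_l49618 _))
               (CovZ.badM (by decide +kernel)))
              (CovZ.n1 (-19512, 8376) (by decide +kernel)
               (CovZ.badM (by decide +kernel))
               (CovZ.n1 (-19536, 8376) (by decide +kernel)
                (CovZ.leaf K2_ok TB_l49619 _)
                (CovZ.badM (by decide +kernel)))))
             (CovZ.n1 (-19584, 8400) (by decide +kernel)
              (CovZ.n2 (-19560, 8424) (by decide +kernel)
               (CovZ.n2 (-19560, 8400) (by decide +kernel)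
                (CovZ.leaf K2_ok TB_l49620 _)
                (CovZ.leaf K2_ok TB_l49621 _))
               (CovZ.leaf K2_ok TB_l49622 _))
              (CovZ.n1 (-19560, 8376) (by decide +kernel)
               (CovZ.badM (by decide +kernel))
               (CovZ.n1 (-19560, 8400) (by decide +kernel)
                (CovZ.leaf K2_ok TB_l49623 _)
                (CovZ.badM (by decide +kernel))))))
            (CovZ.badM (by decide +kernel))))
          (CovZ.badM (by decide +kernel)))
         (CovZ.n1 (-19392, 8448) (by decide +kernel)
          (CovZ.n2 (-19296, 8352) (by decide +kernel)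
           (CovZ.badM (by decide +kernel))
           (CovZ.n1 (-19296, 8448) (by decide +kernel)
            (CovZ.n2 (-19248, 8400) (by decide +kernel)
             (CovZ.n2 (-19296, 8400) (by decide +kernel)
              (CovZ.leaf K2_ok TB_l41999 _)
              (CovZ.badM (by decide +kernel)))
             (CovZ.n1 (-19248, 8448) (by decide +kernel)
              (CovZ.leaf K2_ok TB_l42000 _)
              (CovZ.leaf K2_ok TB_l42001 _)))
            (CovZ.n1 (-19344, 8400) (by decide +kernel)
             (CovZ.n2 (-19344, 8448) (by decide +kernel)
              (CovZ.n2 (-19320, 8424) (by decide +kernel)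
               (CovZ.badM (by decide +kernel))
               (CovZ.leaf K2_ok TB_l42002 _))
              (CovZ.badM (by decide +kernel)))
             (CovZ.n1 (-19296, 8400) (by decide +kernel)
              (CovZ.badM (by decide +kernel))
              (CovZ.leaf K2_ok TB_l42003 _)))))
          (CovZ.n1 (-19488, 8352) (by decide +kernel)
           (CovZ.n2 (-19488, 8448) (by decide +kernel)
            (CovZ.n2 (-19440, 8400) (by decide +kernel)
             (CovZ.n2 (-19488, 8400) (by decide +kernel)
              (CovZ.n2 (-19464, 8424) (by decide +kernel)
               (CovZ.leaf K2_ok TB_l49624 _)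
               (CovZ.leaf K2_ok TB_l49625 _))
              (CovZ.n1 (-19464, 8376) (by decide +kernel)
               (CovZ.leaf K2_ok TB_l49626 _)
               (CovZ.n1 (-19464, 8400) (by decide +kernel)
                (CovZ.leaf K2_ok TB_l49627 _)
                (CovZ.leaf K2_ok TB_l49628 _))))
             (CovZ.n1 (-19440, 8448) (by decide +kernel)
              (CovZ.n2 (-19416, 8424) (by decide +kernel)
               (CovZ.leaf K2_ok TB_l49629 _)
               (CovZ.leaf K2_ok TB_l49630 _))
              (CovZ.n1 (-19464, 8424) (by decide +kernel)
               (CovZ.leaf K2_ok TB_l49631 _)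
               (CovZ.leaf K2_ok TB_l49632 _))))
            (CovZ.n1 (-19536, 8400) (by decide +kernel)
             (CovZ.n2 (-19536, 8448) (by decide +kernel)
              (CovZ.n2 (-19512, 8424) (by decide +kernel)
               (CovZ.leaf K2_ok TB_l49633 _)
               (CovZ.leaf K2_ok TB_l49634 _))
              (CovZ.n1 (-19560, 8424) (by decide +kernel)
               (CovZ.n2 (-19560, 8448) (by decide +kernel)
                (CovZ.leaf K2_ok TB_l49635 _)
                (CovZ.leaf K2_ok TB_l49636 _))
               (CovZ.leaf K2_ok TB_l49637 _)))
             (CovZ.n1 (-19488, 8400) (by decide +kernel)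
              (CovZ.n2 (-19512, 8376) (by decide +kernel)
               (CovZ.n2 (-19512, 8400) (by decide +kernel)
                (CovZ.leaf K2_ok TB_l49638 _)
                (CovZ.leaf K2_ok TB_l49639 _))
               (CovZ.leaf K2_ok TB_l49640 _))
              (CovZ.n1 (-19512, 8424) (by decide +kernel)
               (CovZ.leaf K2_ok TB_l49641 _)
               (CovZ.n1 (-19512, 8400) (by decide +kernel)
                (CovZ.leaf K2_ok TB_l49642 _)
                (CovZ.leaf K2_ok TB_l49643 _))))))
           (CovZ.n1 (-19392, 8352) (by decide +kernel)
            (CovZ.n2 (-19440, 8304) (by decide +kernel)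
             (CovZ.n2 (-19440, 8352) (by decide +kernel)
              (CovZ.badM (by decide +kernel))
              (CovZ.n1 (-19464, 8328) (by decide +kernel)
               (CovZ.n2 (-19464, 8352) (by decide +kernel)
                (CovZ.badM (by decide +kernel))
                (CovZ.badM (by decide +kernel)))
               (CovZ.badM (by decide +kernel))))
             (CovZ.badM (by decide +kernel)))
            (CovZ.n1 (-19440, 8400) (by decide +kernel)
             (CovZ.badM (by decide +kernel))
             (CovZ.n1 (-19440, 8352) (by decide +kernel)
              (CovZ.n2 (-19464, 8376) (by decide +kernel)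
               (CovZ.leaf K2_ok TB_l49644 _)
               (CovZ.n1 (-19464, 8352) (by decide +kernel)
                (CovZ.leaf K2_ok TB_l49645 _)
                (CovZ.leaf K2_ok TB_l49646 _)))
              (CovZ.badM (by decide +kernel))))))))
        (CovZ.n1 (-19776, 8256) (by decide +kernel)
         (CovZ.n2 (-19776, 8448) (by decide +kernel)
          (CovZ.n2 (-19680, 8352) (by decide +kernel)
           (CovZ.badM (by decide +kernel))
           (CovZ.n1 (-19680, 8448) (by decide +kernel)
            (CovZ.n2 (-19632, 8400) (by decide +kernel)
             (CovZ.badM (by decide +kernel))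
             (CovZ.n1 (-19632, 8448) (by decide +kernel)
              (CovZ.n2 (-19608, 8424) (by decide +kernel)
               (CovZ.badM (by decide +kernel))
               (CovZ.n1 (-19608, 8448) (by decide +kernel)
                (CovZ.leaf K2_ok TB_l49647 _)
                (CovZ.leaf K2_ok TB_l49648 _)))
              (CovZ.badM (by decide +kernel))))
            (CovZ.n1 (-19728, 8400) (by decide +kernel)
             (CovZ.n2 (-19728, 8448) (by decide +kernel)
              (CovZ.n2 (-19704, 8424) (by decide +kernel)
               (CovZ.badM (by decide +kernel))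
               (CovZ.n1 (-19704, 8448) (by decide +kernel)
                (CovZ.badM (by decide +kernel))
                (CovZ.badM (by decide +kernel))))
              (CovZ.badM (by decide +kernel)))
             (CovZ.badM (by decide +kernel)))))
          (CovZ.badM (by decide +kernel)))
         (CovZ.n1 (-19584, 8256) (by decide +kernel)
          (CovZ.badM (by decide +kernel))
          (CovZ.n1 (-19680, 8352) (by decide +kernel)
           (CovZ.n2 (-19584, 8352) (by decide +kernel)
            (CovZ.badM (by decide +kernel))
            (CovZ.n1 (-19632, 8400) (by decide +kernel)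
             (CovZ.n2 (-19584, 8400) (by decide +kernel)
              (CovZ.badM (by decide +kernel))
              (CovZ.n1 (-19608, 8424) (by decide +kernel)
               (CovZ.leaf K2_ok TB_l49649 _)
               (CovZ.badM (by decide +kernel))))
             (CovZ.badM (by decide +kernel))))
           (CovZ.badM (by decide +kernel))))))))

theorem TB_u269 : CovZ TB_M (toL (selN TB_LN 76401169379508809525072488114610071723070882250472261052270948573801536015783846933326558804965468520182710312)) [0, 7, 6, 1] (-16896, 7680) (-17280, 8064) (-17664, 7680) :=
    (CovZ.n2 (-17280, 7680) (by decide +kernel)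
       (CovZ.subM 139984047429083140215362199688843392663353545933667232550351712513086620524661641848407182658676719616 (by decide +kernel)
        (CovZ.n2 (-17472, 7872) (by decide +kernel)
         (CovZ.n2 (-17280, 7872) (by decide +kernel)
          (CovZ.subM 883423532389192164791648750371459257913741948437809479060803100646309888 (by decide +kernel)
           (CovZ.n2 (-17376, 7776) (by decide +kernel)
            (CovZ.n2 (-17376, 7872) (by decide +kernel)
             (CovZ.n2 (-17328, 7824) (by decide +kernel)
              (CovZ.badM (by decide +kernel))
              (CovZ.n1 (-17328, 7872) (by decide +kernel)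
               (CovZ.badM (by decide +kernel))
               (CovZ.badM (by decide +kernel))))
             (CovZ.badM (by decide +kernel)))
            (CovZ.badM (by decide +kernel))))
          (CovZ.n1 (-17376, 7968) (by decide +kernel)
           (CovZ.n2 (-17280, 7968) (by decide +kernel)
            (CovZ.subM 1042962419883739497824425175877146115372236744769045261844348897791198247216385552425315991552 (by decide +kernel)
             (CovZ.n2 (-17328, 7920) (by decide +kernel)
              (CovZ.n2 (-17328, 7968) (by decide +kernel)
               (CovZ.n2 (-17304, 7944) (by decide +kernel)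
                (CovZ.badM (by decide +kernel))
                (CovZ.n1 (-17304, 7968) (by decide +kernel)
                 (CovZ.leaf K2_ok TB_l20963 _)
                 (CovZ.badM (by decide +kernel))))
               (CovZ.badM (by decide +kernel)))
              (CovZ.n1 (-17280, 7920) (by decide +kernel)
               (CovZ.n2 (-17304, 7896) (by decide +kernel)
                (CovZ.n2 (-17304, 7920) (by decide +kernel)
                 (CovZ.badM (by decide +kernel))
                 (CovZ.badM (by decide +kernel)))
                (CovZ.badM (by decide +kernel)))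
               (CovZ.n1 (-17304, 7944) (by decide +kernel)
                (CovZ.leaf K2_ok TB_l20964 _)
                (CovZ.n1 (-17304, 7920) (by decide +kernel)
                 (CovZ.badM (by decide +kernel))
                 (CovZ.leaf K2_ok TB_l20965 _))))))
            (CovZ.n1 (-17328, 8016) (by decide +kernel)
             (CovZ.leaf K2_ok TB_l20966 _)
             (CovZ.subM 1042962419883739497853136440679794860727965329156117687726545511115427055285861653196321062912 (by decide +kernel)
              (CovZ.n1 (-17328, 7968) (by decide +kernel)
               (CovZ.n2 (-17352, 7992) (by decide +kernel)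
                (CovZ.leaf K2_ok TB_l42079 _)
                (CovZ.n1 (-17352, 7968) (by decide +kernel)
                 (CovZ.badM (by decide +kernel))
                 (CovZ.leaf K2_ok TB_l42080 _)))
               (CovZ.n1 (-17304, 7992) (by decide +kernel)
                (CovZ.n2 (-17304, 7968) (by decide +kernel)
                 (CovZ.leaf K2_ok TB_l42081 _)
                 (CovZ.leaf K2_ok TB_l20967 _))
                (CovZ.leaf K2_ok TB_l42082 _))))))
           (CovZ.subM 1042962419883738571261554851370952865920779608004000422719826716764285178507362115285847900160 (by decide +kernel)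
            (CovZ.n1 (-17376, 7872) (by decide +kernel)
             (CovZ.badM (by decide +kernel))
             (CovZ.n1 (-17328, 7920) (by decide +kernel)
              (CovZ.n2 (-17328, 7872) (by decide +kernel)
               (CovZ.badM (by decide +kernel))
               (CovZ.n1 (-17304, 7896) (by decide +kernel)
                (CovZ.badM (by decide +kernel))
                (CovZ.badM (by decide +kernel))))
              (CovZ.badM (by decide +kernel)))))))
         (CovZ.n1 (-17472, 7680) (by decide +kernel)
          (CovZ.badM (by decide +kernel))
          (CovZ.n1 (-17376, 7776) (by decide +kernel)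
           (CovZ.badM (by decide +kernel))
           (CovZ.badM (by decide +kernel))))))
       (CovZ.n1 (-17088, 7872) (by decide +kernel)
        (CovZ.subM 1247806590762098282040655943422192815413393585638094167573253101685982897880069644444003743103109543829176320 (by decide +kernel)
         (CovZ.n2 (-17088, 7680) (by decide +kernel)
          (CovZ.subM 73535299375181667841270606574754647000245098736680148739783447169777266335230653070163588576736031662931968 (by decide +kernel)
           (CovZ.n2 (-17184, 7776) (by decide +kernel)
            (CovZ.n2 (-17088, 7776) (by decide +kernel)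
             (CovZ.n2 (-17136, 7728) (by decide +kernel)
              (CovZ.n2 (-17136, 7776) (by decide +kernel)
               (CovZ.badM (by decide +kernel))
               (CovZ.badM (by decide +kernel)))
              (CovZ.badM (by decide +kernel)))
             (CovZ.n1 (-17136, 7824) (by decide +kernel)
              (CovZ.n2 (-17088, 7824) (by decide +kernel)
               (CovZ.badM (by decide +kernel))
               (CovZ.n1 (-17112, 7848) (by decide +kernel)
                (CovZ.leaf K2_ok TB_l20968 _)
                (CovZ.n1 (-17112, 7824) (by decide +kernel)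
                 (CovZ.leaf K2_ok TB_l42083 _)
                 (CovZ.leaf K2_ok TB_l42084 _))))
              (CovZ.n1 (-17136, 7776) (by decide +kernel)
               (CovZ.badM (by decide +kernel))
               (CovZ.badM (by decide +kernel)))))
            (CovZ.n1 (-17184, 7680) (by decide +kernel)
             (CovZ.badM (by decide +kernel))
             (CovZ.n1 (-17136, 7728) (by decide +kernel)
              (CovZ.badM (by decide +kernel))
              (CovZ.badM (by decide +kernel))))))
          (CovZ.n1 (-16992, 7776) (by decide +kernel)
           (CovZ.subM 1174271291386916614199385336847423694401993822376986072460343568527723972796755786303335222328372523025039360 (by decide +kernel)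
            (CovZ.n2 (-16992, 7680) (by decide +kernel)
             (CovZ.subM 53919893334301279589334030174039261347274288845081144962207220498432 (by decide +kernel)
              (CovZ.n2 (-17040, 7728) (by decide +kernel)
               (CovZ.n2 (-16992, 7728) (by decide +kernel)
                (CovZ.badM (by decide +kernel))
                (CovZ.n1 (-17016, 7752) (by decide +kernel)
                 (CovZ.leaf K2_ok TB_l42085 _)
                 (CovZ.badM (by decide +kernel))))
               (CovZ.badM (by decide +kernel))))
             (CovZ.n1 (-16944, 7728) (by decide +kernel)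
              (CovZ.n2 (-16944, 7680) (by decide +kernel)
               (CovZ.n2 (-16968, 7704) (by decide +kernel)
                (CovZ.n2 (-16944, 7704) (by decide +kernel)
                 (CovZ.badM (by decide +kernel))
                 (CovZ.leaf K2_ok TB_l42086 _))
                (CovZ.badM (by decide +kernel)))
               (CovZ.n1 (-16920, 7704) (by decide +kernel)
                (CovZ.n2 (-16920, 7680) (by decide +kernel)
                 (CovZ.badM (by decide +kernel))
                 (CovZ.leaf K2_ok TB_l20969 _))
                (CovZ.n1 (-16944, 7704) (by decide +kernel)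
                 (CovZ.leaf K2_ok TB_l42087 _)
                 (CovZ.badM (by decide +kernel)))))
              (CovZ.subM 1174271291386916614199369795496227992517906062237229135029151329456807895235639583234352356155846821903597568 (by decide +kernel)
               (CovZ.n1 (-16992, 7728) (by decide +kernel)
                (CovZ.n2 (-16968, 7752) (by decide +kernel)
                 (CovZ.n2 (-16968, 7728) (by decide +kernel)
                  (CovZ.leaf K2_ok TB_l42088 _)
                  (CovZ.leaf K2_ok TB_l42089 _))
                 (CovZ.leaf K2_ok TB_l42090 _))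
                (CovZ.n1 (-16968, 7704) (by decide +kernel)
                 (CovZ.badM (by decide +kernel))
                 (CovZ.n1 (-16968, 7728) (by decide +kernel)
                  (CovZ.leaf K2_ok TB_l42091 _)
                  (CovZ.badM (by decide +kernel)))))))))
           (CovZ.subM 73535299375181667841021944956564227690375992030368985972448639113034290485940900441067022171192961336868864 (by decide +kernel)
            (CovZ.n1 (-17088, 7776) (by decide +kernel)
             (CovZ.n2 (-17040, 7824) (by decide +kernel)
              (CovZ.n2 (-17040, 7776) (by decide +kernel)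
               (CovZ.n2 (-17064, 7800) (by decide +kernel)
                (CovZ.leaf K2_ok TB_l42092 _)
                (CovZ.n1 (-17064, 7776) (by decide +kernel)
                 (CovZ.badM (by decide +kernel))
                 (CovZ.leaf K2_ok TB_l42093 _)))
               (CovZ.n1 (-17016, 7800) (by decide +kernel)
                (CovZ.n2 (-17016, 7776) (by decide +kernel)
                 (CovZ.leaf K2_ok TB_l42094 _)
                 (CovZ.leaf K2_ok TB_l42095 _))
                (CovZ.leaf K2_ok TB_l42096 _)))
              (CovZ.n1 (-17088, 7824) (by decide +kernel)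
               (CovZ.leaf K2_ok TB_l20970 _)
               (CovZ.n1 (-17064, 7800) (by decide +kernel)
                (CovZ.badM (by decide +kernel))
                (CovZ.leaf K2_ok TB_l42097 _))))
             (CovZ.subM 53919893334301279589334030174039261347274288845081144962207220498432 (by decide +kernel)
              (CovZ.n1 (-17040, 7728) (by decide +kernel)
               (CovZ.badM (by decide +kernel))
               (CovZ.n1 (-17040, 7776) (by decide +kernel)
                (CovZ.n2 (-17016, 7752) (by decide +kernel)
                 (CovZ.badM (by decide +kernel))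
                 (CovZ.n1 (-17016, 7776) (by decide +kernel)
                  (CovZ.leaf K2_ok TB_l42099 _)
                  (CovZ.leaf K2_ok TB_l42100 _)))
                (CovZ.badM (by decide +kernel))))))))))
        (CovZ.subM 73535439359229096928389407829158711268800336554779060098061876321985503154101761648609995335149944756502528 (by decide +kernel)
         (CovZ.n1 (-17280, 7872) (by decide +kernel)
          (CovZ.n2 (-17184, 7968) (by decide +kernel)
           (CovZ.n2 (-17184, 7872) (by decide +kernel)
            (CovZ.subM 1042966398469632630627655346816775739931705178470490198250322386990132612327336075642967949312 (by decide +kernel)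
             (CovZ.n2 (-17232, 7920) (by decide +kernel)
              (CovZ.n2 (-17184, 7920) (by decide +kernel)
               (CovZ.n2 (-17208, 7896) (by decide +kernel)
                (CovZ.leaf K2_ok TB_l20971 _)
                (CovZ.leaf K2_ok TB_l20972 _))
               (CovZ.leaf K2_ok TB_l20973 _))
              (CovZ.subM 3978585894057529435362938308534457023092254088427287289437885431318897557883947570954240 (by decide +kernel)
               (CovZ.n1 (-17232, 7872) (by decide +kernel)
                (CovZ.n2 (-17256, 7896) (by decide +kernel)
                 (CovZ.n2 (-17232, 7896) (by decide +kernel)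
                  (CovZ.badM (by decide +kernel))
                  (CovZ.leaf K2_ok TB_l42101 _))
                 (CovZ.badM (by decide +kernel)))
                (CovZ.n1 (-17208, 7896) (by decide +kernel)
                 (CovZ.badM (by decide +kernel))
                 (CovZ.n1 (-17232, 7896) (by decide +kernel)
                  (CovZ.leaf K2_ok TB_l42102 _)
                  (CovZ.badM (by decide +kernel))))))))
            (CovZ.n1 (-17136, 7920) (by decide +kernel)
             (CovZ.subM 73535299375181667841270606576609129707043476316173032946302237893097895243195738617289572666403599763374080 (by decide +kernel)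
              (CovZ.n2 (-17136, 7872) (by decide +kernel)
               (CovZ.n2 (-17160, 7896) (by decide +kernel)
                (CovZ.leaf K2_ok TB_l20974 _)
                (CovZ.n1 (-17160, 7872) (by decide +kernel)
                 (CovZ.leaf K2_ok TB_l20975 _)
                 (CovZ.leaf K2_ok TB_l20976 _)))
               (CovZ.leaf K2_ok TB_l20977 _)))
             (CovZ.leaf K2_ok TB_l20978 _)))
           (CovZ.n1 (-17280, 7968) (by decide +kernel)
            (CovZ.n2 (-17232, 8016) (by decide +kernel)
             (CovZ.n2 (-17232, 7968) (by decide +kernel)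
              (CovZ.leaf K2_ok TB_l20979 _)
              (CovZ.leaf K2_ok TB_l20980 _))
             (CovZ.leaf K2_ok TB_l20981 _))
            (CovZ.subM 1042966398469632630628538770349164932096496827220861657508236128938570421806396878743614259200 (by decide +kernel)
             (CovZ.n1 (-17232, 7920) (by decide +kernel)
              (CovZ.subM 1042962419883739497824425175877146115372236744769045261844348897791198247216385552425315991552 (by decide +kernel)
               (CovZ.n2 (-17280, 7920) (by decide +kernel)
                (CovZ.n2 (-17256, 7944) (by decide +kernel)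
                 (CovZ.n2 (-17256, 7920) (by decide +kernel)
                  (CovZ.leaf K2_ok TB_l20982 _)
                  (CovZ.leaf K2_ok TB_l20983 _))
                 (CovZ.leaf K2_ok TB_l20984 _))
                (CovZ.n1 (-17256, 7896) (by decide +kernel)
                 (CovZ.badM (by decide +kernel))
                 (CovZ.n1 (-17256, 7920) (by decide +kernel)
                  (CovZ.leaf K2_ok TB_l42103 _)
                  (CovZ.badM (by decide +kernel))))))
              (CovZ.n1 (-17232, 7968) (by decide +kernel)
               (CovZ.n2 (-17208, 7944) (by decide +kernel)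
                (CovZ.leaf K2_ok TB_l20985 _)
                (CovZ.leaf K2_ok TB_l20986 _))
               (CovZ.leaf K2_ok TB_l20987 _))))))
          (CovZ.subM 73535299375181667841270606574754647000245098736680148739783447169777266335230653070163588576876769151287296 (by decide +kernel)
           (CovZ.n1 (-17184, 7776) (by decide +kernel)
            (CovZ.badM (by decide +kernel))
            (CovZ.n1 (-17184, 7872) (by decide +kernel)
             (CovZ.n2 (-17136, 7824) (by decide +kernel)
              (CovZ.n2 (-17184, 7824) (by decide +kernel)
               (CovZ.n2 (-17160, 7848) (by decide +kernel)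
                (CovZ.badM (by decide +kernel))
                (CovZ.badM (by decide +kernel)))
               (CovZ.badM (by decide +kernel)))
              (CovZ.n1 (-17136, 7872) (by decide +kernel)
               (CovZ.n2 (-17112, 7848) (by decide +kernel)
                (CovZ.leaf K2_ok TB_l20988 _)
                (CovZ.leaf K2_ok TB_l20989 _))
               (CovZ.n1 (-17160, 7848) (by decide +kernel)
                (CovZ.n2 (-17160, 7872) (by decide +kernel)
                 (CovZ.leaf K2_ok TB_l20990 _)
                 (CovZ.badM (by decide +kernel)))
                (CovZ.leaf K2_ok TB_l20992 _))))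
             (CovZ.badM (by decide +kernel)))))))))

theorem TB_u270 : CovZ TB_M (toL (selN TB_LN 76401169379508809525072488114610071723070882250472261052270948573801536015783846933326558804965468520182710312)) [0, 7, 6, 1] (-17280, 8064) (-17664, 8448) (-17664, 7680) :=
    (CovZ.subM 139984047429083140215362199688843392663353546718305136545896386518275011957747763277115432891930640384 (by decide +kernel)
       (CovZ.n1 (-17664, 8064) (by decide +kernel)
        (CovZ.n2 (-17472, 8256) (by decide +kernel)
         (CovZ.n2 (-17472, 8064) (by decide +kernel)
          (CovZ.subM 139984046386120720331622700054725112371943947682653009812060603771164258460932203184752258628370563072 (by decide +kernel)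
           (CovZ.n2 (-17568, 8160) (by decide +kernel)
            (CovZ.n2 (-17472, 8160) (by decide +kernel)
             (CovZ.n2 (-17520, 8112) (by decide +kernel)
              (CovZ.n2 (-17520, 8160) (by decide +kernel)
               (CovZ.leaf K2_ok TB_l20993 _)
               (CovZ.leaf K2_ok TB_l20994 _))
              (CovZ.n1 (-17472, 8112) (by decide +kernel)
               (CovZ.n2 (-17496, 8088) (by decide +kernel)
                (CovZ.leaf K2_ok TB_l42104 _)
                (CovZ.leaf K2_ok TB_l42105 _))
               (CovZ.n1 (-17496, 8136) (by decide +kernel)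
                (CovZ.leaf K2_ok TB_l20995 _)
                (CovZ.leaf K2_ok TB_l20996 _))))
             (CovZ.n1 (-17520, 8208) (by decide +kernel)
              (CovZ.leaf K2_ok TB_l20997 _)
              (CovZ.n1 (-17520, 8160) (by decide +kernel)
               (CovZ.leaf K2_ok TB_l20998 _)
               (CovZ.leaf K2_ok TB_l20999 _))))
            (CovZ.n1 (-17568, 8064) (by decide +kernel)
             (CovZ.n2 (-17616, 8112) (by decide +kernel)
              (CovZ.n2 (-17568, 8112) (by decide +kernel)
               (CovZ.badM (by decide +kernel))
               (CovZ.n1 (-17592, 8136) (by decide +kernel)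
                (CovZ.leaf K2_ok TB_l21000 _)
                (CovZ.badM (by decide +kernel))))
              (CovZ.badM (by decide +kernel)))
             (CovZ.n1 (-17520, 8112) (by decide +kernel)
              (CovZ.subM 1684996666696914987166688442938726917102321526408785780068975640576 (by decide +kernel)
               (CovZ.n2 (-17520, 8064) (by decide +kernel)
                (CovZ.n2 (-17544, 8088) (by decide +kernel)
                 (CovZ.n2 (-17520, 8088) (by decide +kernel)
                  (CovZ.badM (by decide +kernel))
                  (CovZ.leaf K2_ok TB_l42106 _))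
                 (CovZ.badM (by decide +kernel)))
                (CovZ.n1 (-17496, 8088) (by decide +kernel)
                 (CovZ.badM (by decide +kernel))
                 (CovZ.leaf K2_ok TB_l42107 _))))
              (CovZ.n1 (-17568, 8112) (by decide +kernel)
               (CovZ.n2 (-17544, 8136) (by decide +kernel)
                (CovZ.n2 (-17544, 8112) (by decide +kernel)
                 (CovZ.leaf K2_ok TB_l42108 _)
                 (CovZ.leaf K2_ok TB_l21001 _))
                (CovZ.leaf K2_ok TB_l21002 _))
               (CovZ.n1 (-17544, 8088) (by decide +kernel)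
                (CovZ.badM (by decide +kernel))
                (CovZ.n1 (-17544, 8112) (by decide +kernel)
                 (CovZ.leaf K2_ok TB_l21003 _)
                 (CovZ.badM (by decide +kernel)))))))))
          (CovZ.n1 (-17376, 8160) (by decide +kernel)
           (CovZ.n2 (-17376, 8064) (by decide +kernel)
            (CovZ.subM 139984046386120720331622700054725112371943947682653009812060603771164258460932203184752258628370563072 (by decide +kernel)
             (CovZ.n2 (-17424, 8112) (by decide +kernel)
              (CovZ.leaf K2_ok TB_l21004 _)
              (CovZ.n1 (-17424, 8064) (by decide +kernel)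
               (CovZ.n2 (-17448, 8088) (by decide +kernel)
                (CovZ.leaf K2_ok TB_l21005 _)
                (CovZ.leaf K2_ok TB_l42109 _))
               (CovZ.leaf K2_ok TB_l21006 _))))
            (CovZ.n1 (-17328, 8112) (by decide +kernel)
             (CovZ.n2 (-17328, 8064) (by decide +kernel)
              (CovZ.leaf K2_ok TB_l21007 _)
              (CovZ.leaf K2_ok TB_l21008 _))
             (CovZ.leaf K2_ok TB_l21009 _)))
           (CovZ.subM 139984046386120720331622700054725112371943947682653009812060603771164258460932203184752258628370563072 (by decide +kernel)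
            (CovZ.n1 (-17472, 8160) (by decide +kernel)
             (CovZ.leaf K2_ok TB_l21010 _)
             (CovZ.n1 (-17424, 8112) (by decide +kernel)
              (CovZ.n2 (-17472, 8112) (by decide +kernel)
               (CovZ.leaf K2_ok TB_l21011 _)
               (CovZ.n1 (-17448, 8088) (by decide +kernel)
                (CovZ.leaf K2_ok TB_l42110 _)
                (CovZ.leaf K2_ok TB_l21012 _)))
              (CovZ.n1 (-17424, 8160) (by decide +kernel)
               (CovZ.leaf K2_ok TB_l21013 _)
               (CovZ.leaf K2_ok TB_l21014 _)))))))
         (CovZ.subM 139984046386120720331622700054725112371943948467290913807605277776352649894018324613460508861624483840 (by decide +kernel)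
          (CovZ.n1 (-17664, 8256) (by decide +kernel)
           (CovZ.n2 (-17568, 8352) (by decide +kernel)
            (CovZ.n2 (-17568, 8256) (by decide +kernel)
             (CovZ.n2 (-17616, 8304) (by decide +kernel)
              (CovZ.leaf K2_ok TB_l21015 _)
              (CovZ.leaf K2_ok TB_l21016 _))
             (CovZ.leaf K2_ok TB_l21017 _))
            (CovZ.n1 (-17664, 8352) (by decide +kernel)
             (CovZ.leaf K2_ok TB_l21018 _)
             (CovZ.n1 (-17616, 8304) (by decide +kernel)
              (CovZ.leaf K2_ok TB_l21019 _)
              (CovZ.leaf K2_ok TB_l21020 _))))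
           (CovZ.n1 (-17568, 8160) (by decide +kernel)
            (CovZ.n2 (-17664, 8160) (by decide +kernel)
             (CovZ.n2 (-17616, 8208) (by decide +kernel)
              (CovZ.subM 932922858873370754972045806582398527397448219088541853546495214764886589440 (by decide +kernel)
               (CovZ.n2 (-17616, 8160) (by decide +kernel)
                (CovZ.n2 (-17640, 8184) (by decide +kernel)
                 (CovZ.leaf K2_ok TB_l21021 _)
                 (CovZ.n1 (-17640, 8160) (by decide +kernel)
                  (CovZ.leaf K2_ok TB_l21022 _)
                  (CovZ.leaf K2_ok TB_l21023 _)))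
                (CovZ.leaf K2_ok TB_l21024 _)))
              (CovZ.n1 (-17664, 8208) (by decide +kernel)
               (CovZ.leaf K2_ok TB_l21025 _)
               (CovZ.n1 (-17640, 8184) (by decide +kernel)
                (CovZ.leaf K2_ok TB_l21026 _)
                (CovZ.leaf K2_ok TB_l21027 _))))
             (CovZ.subM 932922858873370754972045806582398527397448219088541853546495214764886589440 (by decide +kernel)
              (CovZ.n1 (-17616, 8112) (by decide +kernel)
               (CovZ.badM (by decide +kernel))
               (CovZ.n1 (-17616, 8160) (by decide +kernel)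
                (CovZ.n2 (-17592, 8136) (by decide +kernel)
                 (CovZ.badM (by decide +kernel))
                 (CovZ.leaf K2_ok TB_l21028 _))
                (CovZ.badM (by decide +kernel))))))
            (CovZ.n1 (-17568, 8256) (by decide +kernel)
             (CovZ.n2 (-17520, 8208) (by decide +kernel)
              (CovZ.leaf K2_ok TB_l21029 _)
              (CovZ.leaf K2_ok TB_l21030 _))
             (CovZ.n1 (-17616, 8208) (by decide +kernel)
              (CovZ.leaf K2_ok TB_l21031 _)
              (CovZ.leaf K2_ok TB_l21032 _)))))))
        (CovZ.n1 (-17472, 7872) (by decide +kernel)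
         (CovZ.badM (by decide +kernel))
         (CovZ.n1 (-17472, 8064) (by decide +kernel)
          (CovZ.n2 (-17376, 7968) (by decide +kernel)
           (CovZ.badM (by decide +kernel))
           (CovZ.n1 (-17376, 8064) (by decide +kernel)
            (CovZ.n2 (-17328, 8016) (by decide +kernel)
             (CovZ.n2 (-17376, 8016) (by decide +kernel)
              (CovZ.leaf K2_ok TB_l21033 _)
              (CovZ.n1 (-17352, 7992) (by decide +kernel)
               (CovZ.badM (by decide +kernel))
               (CovZ.leaf K2_ok TB_l42111 _)))
             (CovZ.n1 (-17328, 8064) (by decide +kernel)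
              (CovZ.leaf K2_ok TB_l21034 _)
              (CovZ.leaf K2_ok TB_l21035 _)))
            (CovZ.subM 28297161706837978225397486202024247293776463888220111284952129386552754176 (by decide +kernel)
             (CovZ.n1 (-17424, 8016) (by decide +kernel)
              (CovZ.n2 (-17424, 8064) (by decide +kernel)
               (CovZ.n2 (-17400, 8040) (by decide +kernel)
                (CovZ.leaf K2_ok TB_l21036 _)
                (CovZ.leaf K2_ok TB_l21037 _))
               (CovZ.n1 (-17448, 8040) (by decide +kernel)
                (CovZ.n2 (-17448, 8064) (by decide +kernel)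
                 (CovZ.leaf K2_ok TB_l42112 _)
                 (CovZ.leaf K2_ok TB_l42113 _))
                (CovZ.leaf K2_ok TB_l42114 _)))
              (CovZ.n1 (-17376, 8016) (by decide +kernel)
               (CovZ.badM (by decide +kernel))
               (CovZ.n1 (-17400, 8040) (by decide +kernel)
                (CovZ.leaf K2_ok TB_l21038 _)
                (CovZ.n1 (-17400, 8016) (by decide +kernel)
                 (CovZ.leaf K2_ok TB_l42115 _)
                 (CovZ.leaf K2_ok TB_l42116 _))))))))
          (CovZ.badM (by decide +kernel))))))

theorem TB_u271 : CovZ TB_M (toL (selN TB_LN 76401169379508809525072488114610071723070882250472261052270948573801536015783846933326558804965468520182710312)) [0, 7, 6, 1] (-16896, 9216) (-17664, 8448) (-16896, 7680) :=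
    (CovZ.n2 (-16896, 8448) (by decide +kernel)
     (CovZ.n2 (-17280, 8064) (by decide +kernel)
      (CovZ.n2 (-17280, 8448) (by decide +kernel)
       (CovZ.n2 (-17088, 8256) (by decide +kernel)
        (CovZ.subM 73535439359229096928389408066308147253257120141765236418233937737261910649018699063013660268503821361086504 (by decide +kernel)
         (CovZ.n2 (-17280, 8256) (by decide +kernel)
          (CovZ.n2 (-17184, 8352) (by decide +kernel)
           (CovZ.n2 (-17184, 8256) (by decide +kernel)
            (CovZ.leaf K2_ok TB_l20832 _)
            (CovZ.leaf K2_ok TB_l20833 _))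
           (CovZ.leaf K2_ok TB_l20834 _))
          (CovZ.n1 (-17184, 8160) (by decide +kernel)
           (CovZ.leaf K2_ok TB_l20835 _)
           (CovZ.n1 (-17184, 8256) (by decide +kernel)
            (CovZ.leaf K2_ok TB_l20836 _)
            (CovZ.leaf K2_ok TB_l20837 _)))))
        (CovZ.n1 (-17088, 8448) (by decide +kernel)
         (CovZ.n2 (-16992, 8352) (by decide +kernel)
          (CovZ.leaf K2_ok TB_l20838 _)
          (CovZ.n1 (-16992, 8448) (by decide +kernel)
           (CovZ.leaf K2_ok TB_l20839 _)
           (CovZ.leaf K2_ok TB_l20840 _)))
         (CovZ.n1 (-17184, 8352) (by decide +kernel)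
          (CovZ.n2 (-17184, 8448) (by decide +kernel)
           (CovZ.leaf K2_ok TB_l20841 _)
           (CovZ.leaf K2_ok TB_l20842 _))
          (CovZ.leaf K2_ok TB_l20843 _))))
       (CovZ.subM 139984047429083140215362206926069825878713058732689611776483492162127489047392468112979634161662820392 (by decide +kernel)
        (CovZ.n1 (-17472, 8256) (by decide +kernel)
         (CovZ.n2 (-17472, 8448) (by decide +kernel)
          (CovZ.n2 (-17376, 8352) (by decide +kernel)
           (CovZ.leaf K2_ok TB_l20844 _)
           (CovZ.n1 (-17376, 8448) (by decide +kernel)
            (CovZ.leaf K2_ok TB_l20845 _)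
            (CovZ.leaf K2_ok TB_l20846 _)))
          (CovZ.n1 (-17568, 8352) (by decide +kernel)
           (CovZ.n2 (-17568, 8448) (by decide +kernel)
            (CovZ.leaf K2_ok TB_l20847 _)
            (CovZ.leaf K2_ok TB_l20848 _))
           (CovZ.leaf K2_ok TB_l20849 _)))
         (CovZ.n1 (-17280, 8256) (by decide +kernel)
          (CovZ.n2 (-17376, 8160) (by decide +kernel)
           (CovZ.n2 (-17376, 8256) (by decide +kernel)
            (CovZ.leaf K2_ok TB_l20850 _)
            (CovZ.leaf K2_ok TB_l20851 _))
           (CovZ.leaf K2_ok TB_l20852 _))
          (CovZ.n1 (-17376, 8352) (by decide +kernel)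
           (CovZ.leaf K2_ok TB_l20853 _)
           (CovZ.n1 (-17376, 8256) (by decide +kernel)
            (CovZ.leaf K2_ok TB_l20854 _)
            (CovZ.leaf K2_ok TB_l20855 _)))))))
      (CovZ.n1 (-16896, 8064) (by decide +kernel)
       (CovZ.n2 (-17088, 7872) (by decide +kernel)
        (CovZ.n2 (-17088, 8064) (by decide +kernel)
         (CovZ.n2 (-16992, 7968) (by decide +kernel)
          (CovZ.n2 (-17088, 7968) (by decide +kernel)
           (CovZ.leaf K2_ok TB_l20856 _)
           (CovZ.n1 (-17040, 7920) (by decide +kernel)
            (CovZ.leaf K2_ok TB_l20857 _)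
            (CovZ.leaf K2_ok TB_l20858 _)))
          (CovZ.n1 (-16992, 8064) (by decide +kernel)
           (CovZ.leaf K2_ok TB_l20859 _)
           (CovZ.leaf K2_ok TB_l20860 _)))
         (CovZ.subM 73535439359229096928389408066300910247679787879551263231483822533442725701447024869173509942987367424983048 (by decide +kernel)
          (CovZ.n1 (-17184, 7968) (by decide +kernel)
           (CovZ.n2 (-17184, 8064) (by decide +kernel)
            (CovZ.n2 (-17136, 8016) (by decide +kernel)
             (CovZ.leaf K2_ok TB_l20861 _)
             (CovZ.leaf K2_ok TB_l20862 _))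
            (CovZ.leaf K2_ok TB_l20863 _))
           (CovZ.n1 (-17088, 7968) (by decide +kernel)
            (CovZ.n2 (-17136, 7920) (by decide +kernel)
             (CovZ.leaf K2_ok TB_l20864 _)
             (CovZ.leaf K2_ok TB_l20865 _))
            (CovZ.n1 (-17136, 8016) (by decide +kernel)
             (CovZ.leaf K2_ok TB_l20866 _)
             (CovZ.leaf K2_ok TB_l20867 _))))))
        (CovZ.n1 (-16896, 7872) (by decide +kernel)
         (CovZ.subM 1247806730746145189642337555292270041500243562198287395164436992535746395961759119627484276643708428416450568 (by decide +kernel)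
          (CovZ.n2 (-16992, 7776) (by decide +kernel)
           (CovZ.n2 (-16992, 7872) (by decide +kernel)
            (CovZ.n2 (-16944, 7824) (by decide +kernel)
             (CovZ.leaf K2_ok TB_l20868 _)
             (CovZ.leaf K2_ok TB_l20869 _))
            (CovZ.n1 (-17040, 7824) (by decide +kernel)
             (CovZ.n2 (-17040, 7872) (by decide +kernel)
              (CovZ.leaf K2_ok TB_l20870 _)
              (CovZ.leaf K2_ok TB_l20871 _))
             (CovZ.leaf K2_ok TB_l20872 _)))
           (CovZ.n1 (-16896, 7776) (by decide +kernel)
            (CovZ.n2 (-16944, 7728) (by decide +kernel)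
             (CovZ.n2 (-16944, 7776) (by decide +kernel)
              (CovZ.n2 (-16920, 7752) (by decide +kernel)
               (CovZ.leaf K2_ok TB_l42071 _)
               (CovZ.leaf K2_ok TB_l20873 _))
              (CovZ.leaf K2_ok TB_l42072 _))
             (CovZ.n1 (-16896, 7728) (by decide +kernel)
              (CovZ.n2 (-16920, 7704) (by decide +kernel)
               (CovZ.n2 (-16920, 7728) (by decide +kernel)
                (CovZ.leaf K2_ok TB_l20874 _)
                (CovZ.leaf K2_ok TB_l42073 _))
               (CovZ.leaf K2_ok TB_l20875 _))
              (CovZ.n1 (-16920, 7752) (by decide +kernel)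
               (CovZ.leaf K2_ok TB_l20876 _)
               (CovZ.leaf K2_ok TB_l20877 _))))
            (CovZ.n1 (-16944, 7824) (by decide +kernel)
             (CovZ.leaf K2_ok TB_l20878 _)
             (CovZ.n1 (-16944, 7776) (by decide +kernel)
              (CovZ.leaf K2_ok TB_l42074 _)
              (CovZ.leaf K2_ok TB_l20879 _))))))
         (CovZ.n1 (-16992, 7968) (by decide +kernel)
          (CovZ.n2 (-16896, 7968) (by decide +kernel)
           (CovZ.leaf K2_ok TB_l20880 _)
           (CovZ.leaf K2_ok TB_l20881 _))
          (CovZ.n1 (-16992, 7872) (by decide +kernel)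
           (CovZ.n2 (-17040, 7920) (by decide +kernel)
            (CovZ.leaf K2_ok TB_l20882 _)
            (CovZ.n1 (-17040, 7872) (by decide +kernel)
             (CovZ.leaf K2_ok TB_l20883 _)
             (CovZ.leaf K2_ok TB_l20884 _)))
           (CovZ.leaf K2_ok TB_l20885 _)))))
       (CovZ.n1 (-17088, 8256) (by decide +kernel)
        (CovZ.n2 (-16896, 8256) (by decide +kernel)
         (CovZ.n2 (-16992, 8160) (by decide +kernel)
          (CovZ.n2 (-16992, 8256) (by decide +kernel)
           (CovZ.leaf K2_ok TB_l20886 _)
           (CovZ.leaf K2_ok TB_l20887 _))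
          (CovZ.leaf K2_ok TB_l20888 _))
         (CovZ.n1 (-16992, 8352) (by decide +kernel)
          (CovZ.leaf K2_ok TB_l20889 _)
          (CovZ.n1 (-16992, 8256) (by decide +kernel)
           (CovZ.leaf K2_ok TB_l20890 _)
           (CovZ.leaf K2_ok TB_l20891 _))))
        (CovZ.n1 (-17088, 8064) (by decide +kernel)
         (CovZ.n2 (-17184, 8160) (by decide +kernel)
          (CovZ.leaf K2_ok TB_l20892 _)
          (CovZ.n1 (-17184, 8064) (by decide +kernel)
           (CovZ.leaf K2_ok TB_l20893 _)
           (CovZ.leaf K2_ok TB_l20894 _)))
         (CovZ.n1 (-16992, 8160) (by decide +kernel)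
          (CovZ.n2 (-16992, 8064) (by decide +kernel)
           (CovZ.leaf K2_ok TB_l20895 _)
           (CovZ.leaf K2_ok TB_l20896 _))
          (CovZ.leaf K2_ok TB_l20897 _))))))
     (CovZ.n1 (-17280, 8832) (by decide +kernel)
      (CovZ.n2 (-16896, 8832) (by decide +kernel)
       (CovZ.n2 (-17088, 8640) (by decide +kernel)
        (CovZ.n2 (-17088, 8832) (by decide +kernel)
         (CovZ.n2 (-16992, 8736) (by decide +kernel)
          (CovZ.leaf K2_ok TB_l20898 _)
          (CovZ.n1 (-16992, 8832) (by decide +kernel)
           (CovZ.leaf K2_ok TB_l20899 _)
           (CovZ.leaf K2_ok TB_l20900 _)))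
         (CovZ.n1 (-17184, 8736) (by decide +kernel)
          (CovZ.n2 (-17184, 8832) (by decide +kernel)
           (CovZ.leaf K2_ok TB_l20901 _)
           (CovZ.leaf K2_ok TB_l20902 _))
          (CovZ.leaf K2_ok TB_l20903 _)))
        (CovZ.n1 (-16896, 8640) (by decide +kernel)
         (CovZ.n2 (-16992, 8544) (by decide +kernel)
          (CovZ.n2 (-16992, 8640) (by decide +kernel)
           (CovZ.leaf K2_ok TB_l20904 _)
           (CovZ.leaf K2_ok TB_l20905 _))
          (CovZ.leaf K2_ok TB_l20906 _))
         (CovZ.n1 (-16992, 8736) (by decide +kernel)
          (CovZ.leaf K2_ok TB_l20907 _)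
          (CovZ.n1 (-16992, 8640) (by decide +kernel)
           (CovZ.leaf K2_ok TB_l20908 _)
           (CovZ.leaf K2_ok TB_l20909 _)))))
       (CovZ.n1 (-17088, 9024) (by decide +kernel)
        (CovZ.n2 (-16896, 9024) (by decide +kernel)
         (CovZ.n2 (-16992, 8928) (by decide +kernel)
          (CovZ.n2 (-16992, 9024) (by decide +kernel)
           (CovZ.leaf K2_ok TB_l20910 _)
           (CovZ.leaf K2_ok TB_l20911 _))
          (CovZ.leaf K2_ok TB_l20912 _))
         (CovZ.n1 (-16992, 9120) (by decide +kernel)
          (CovZ.leaf K2_ok TB_l20913 _)
          (CovZ.n1 (-16992, 9024) (by decide +kernel)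
           (CovZ.leaf K2_ok TB_l20914 _)
           (CovZ.leaf K2_ok TB_l20915 _))))
        (CovZ.n1 (-17088, 8832) (by decide +kernel)
         (CovZ.n2 (-17184, 8928) (by decide +kernel)
          (CovZ.leaf K2_ok TB_l20916 _)
          (CovZ.n1 (-17184, 8832) (by decide +kernel)
           (CovZ.leaf K2_ok TB_l20917 _)
           (CovZ.leaf K2_ok TB_l20918 _)))
         (CovZ.n1 (-16992, 8928) (by decide +kernel)
          (CovZ.n2 (-16992, 8832) (by decide +kernel)
           (CovZ.leaf K2_ok TB_l20919 _)
           (CovZ.leaf K2_ok TB_l20920 _))
          (CovZ.leaf K2_ok TB_l20921 _)))))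
      (CovZ.n1 (-17280, 8448) (by decide +kernel)
       (CovZ.subM 139984047429083140215362206926069825878713058732689611776483492162127489047392505891911497118824529960 (by decide +kernel)
        (CovZ.n2 (-17472, 8640) (by decide +kernel)
         (CovZ.n2 (-17280, 8640) (by decide +kernel)
          (CovZ.n2 (-17376, 8544) (by decide +kernel)
           (CovZ.n2 (-17376, 8640) (by decide +kernel)
            (CovZ.leaf K2_ok TB_l20922 _)
            (CovZ.leaf K2_ok TB_l20923 _))
           (CovZ.leaf K2_ok TB_l20924 _))
          (CovZ.n1 (-17376, 8736) (by decide +kernel)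
           (CovZ.leaf K2_ok TB_l20925 _)
           (CovZ.n1 (-17376, 8640) (by decide +kernel)
            (CovZ.leaf K2_ok TB_l20926 _)
            (CovZ.leaf K2_ok TB_l20927 _))))
         (CovZ.n1 (-17472, 8448) (by decide +kernel)
          (CovZ.n2 (-17568, 8544) (by decide +kernel)
           (CovZ.leaf K2_ok TB_l20928 _)
           (CovZ.n1 (-17568, 8448) (by decide +kernel)
            (CovZ.leaf K2_ok TB_l20929 _)
            (CovZ.leaf K2_ok TB_l20930 _)))
          (CovZ.n1 (-17376, 8544) (by decide +kernel)
           (CovZ.n2 (-17376, 8448) (by decide +kernel)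
            (CovZ.leaf K2_ok TB_l20931 _)
            (CovZ.leaf K2_ok TB_l20932 _))
           (CovZ.leaf K2_ok TB_l20933 _)))))
       (CovZ.n1 (-17088, 8640) (by decide +kernel)
        (CovZ.n2 (-17088, 8448) (by decide +kernel)
         (CovZ.n2 (-17184, 8544) (by decide +kernel)
          (CovZ.leaf K2_ok TB_l20934 _)
          (CovZ.n1 (-17184, 8448) (by decide +kernel)
           (CovZ.leaf K2_ok TB_l20935 _)
           (CovZ.leaf K2_ok TB_l20936 _)))
         (CovZ.n1 (-16992, 8544) (by decide +kernel)
          (CovZ.n2 (-16992, 8448) (by decide +kernel)
           (CovZ.leaf K2_ok TB_l20937 _)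
           (CovZ.leaf K2_ok TB_l20938 _))
          (CovZ.leaf K2_ok TB_l20939 _)))
        (CovZ.subM 73535439359229096928389408066308147253257120141765236418233937737262080790202159532283170887670494406901800 (by decide +kernel)
         (CovZ.n1 (-17280, 8640) (by decide +kernel)
          (CovZ.n2 (-17184, 8736) (by decide +kernel)
           (CovZ.n2 (-17184, 8640) (by decide +kernel)
            (CovZ.leaf K2_ok TB_l20940 _)
            (CovZ.leaf K2_ok TB_l20941 _))
           (CovZ.leaf K2_ok TB_l20942 _))
          (CovZ.n1 (-17184, 8544) (by decide +kernel)
           (CovZ.leaf K2_ok TB_l20943 _)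
           (CovZ.n1 (-17184, 8640) (by decide +kernel)
            (CovZ.leaf K2_ok TB_l20944 _)
            (CovZ.leaf K2_ok TB_l20945 _)))))))))

theorem TB_u272 : CovZ TB_M (toL (selN TB_LN 76401169379508809525072488114610071723070882250472261052270948573801536015783846933326558804965468520182710312)) [0, 7, 6, 1] (-17664, 8448) (-18432, 7680) (-16896, 7680) :=
    (CovZ.n1 (-17664, 7680) (by decide +kernel)
     (CovZ.subM 139984046386120720331622700054725112371943948467290913807605277776352670176427928265130932808875769856 (by decide +kernel)
      (CovZ.n2 (-18048, 8064) (by decide +kernel)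
       (CovZ.n2 (-17664, 8064) (by decide +kernel)
        (CovZ.subM 170141183460469231731687303715884105728 (by decide +kernel)
         (CovZ.n2 (-17856, 7872) (by decide +kernel)
          (CovZ.n2 (-17856, 8064) (by decide +kernel)
           (CovZ.n2 (-17760, 7968) (by decide +kernel)
            (CovZ.badM (by decide +kernel))
            (CovZ.n1 (-17760, 8064) (by decide +kernel)
             (CovZ.badM (by decide +kernel))
             (CovZ.badM (by decide +kernel))))
           (CovZ.badM (by decide +kernel)))
          (CovZ.badM (by decide +kernel))))
        (CovZ.n1 (-17856, 8256) (by decide +kernel)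
         (CovZ.n2 (-17664, 8256) (by decide +kernel)
          (CovZ.n2 (-17760, 8160) (by decide +kernel)
           (CovZ.n2 (-17760, 8256) (by decide +kernel)
            (CovZ.n2 (-17712, 8208) (by decide +kernel)
             (CovZ.badM (by decide +kernel))
             (CovZ.n1 (-17712, 8256) (by decide +kernel)
              (CovZ.n2 (-17688, 8232) (by decide +kernel)
               (CovZ.leaf K2_ok TB_l20946 _)
               (CovZ.leaf K2_ok TB_l20947 _))
              (CovZ.n1 (-17736, 8232) (by decide +kernel)
               (CovZ.leaf K2_ok TB_l20948 _)
               (CovZ.leaf K2_ok TB_l20949 _))))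
            (CovZ.badM (by decide +kernel)))
           (CovZ.n1 (-17664, 8160) (by decide +kernel)
            (CovZ.subM 170141183460469231731687303715884105728 (by decide +kernel)
             (CovZ.n2 (-17712, 8112) (by decide +kernel)
              (CovZ.n2 (-17712, 8160) (by decide +kernel)
               (CovZ.n2 (-17688, 8136) (by decide +kernel)
                (CovZ.badM (by decide +kernel))
                (CovZ.n1 (-17688, 8160) (by decide +kernel)
                 (CovZ.badM (by decide +kernel))
                 (CovZ.badM (by decide +kernel))))
               (CovZ.badM (by decide +kernel)))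
              (CovZ.badM (by decide +kernel))))
            (CovZ.n1 (-17712, 8208) (by decide +kernel)
             (CovZ.n2 (-17664, 8208) (by decide +kernel)
              (CovZ.n2 (-17688, 8184) (by decide +kernel)
               (CovZ.n2 (-17688, 8208) (by decide +kernel)
                (CovZ.leaf K2_ok TB_l20950 _)
                (CovZ.badM (by decide +kernel)))
               (CovZ.leaf K2_ok TB_l20951 _))
              (CovZ.n1 (-17688, 8232) (by decide +kernel)
               (CovZ.leaf K2_ok TB_l20952 _)
               (CovZ.n1 (-17688, 8208) (by decide +kernel)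
                (CovZ.leaf K2_ok TB_l42075 _)
                (CovZ.leaf K2_ok TB_l20953 _))))
             (CovZ.subM 170141183460469231731687303715884105728 (by decide +kernel)
              (CovZ.n1 (-17712, 8160) (by decide +kernel)
               (CovZ.badM (by decide +kernel))
               (CovZ.n1 (-17688, 8184) (by decide +kernel)
                (CovZ.n2 (-17688, 8160) (by decide +kernel)
                 (CovZ.badM (by decide +kernel))
                 (CovZ.leaf K2_ok TB_l42076 _))
                (CovZ.badM (by decide +kernel))))))))
          (CovZ.n1 (-17760, 8352) (by decide +kernel)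
           (CovZ.n2 (-17664, 8352) (by decide +kernel)
            (CovZ.n2 (-17712, 8304) (by decide +kernel)
             (CovZ.leaf K2_ok TB_l20954 _)
             (CovZ.leaf K2_ok TB_l20955 _))
            (CovZ.leaf K2_ok TB_l20956 _))
           (CovZ.n1 (-17760, 8256) (by decide +kernel)
            (CovZ.subM 139984046386120720331622699121829860483960354965756942253111184475525843808279031184477693960379170816 (by decide +kernel)
             (CovZ.n2 (-17808, 8304) (by decide +kernel)
              (CovZ.leaf K2_ok TB_l20957 _)
              (CovZ.n1 (-17808, 8256) (by decide +kernel)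
               (CovZ.n2 (-17832, 8280) (by decide +kernel)
                (CovZ.leaf K2_ok TB_l20958 _)
                (CovZ.badM (by decide +kernel)))
               (CovZ.n1 (-17784, 8280) (by decide +kernel)
                (CovZ.n2 (-17784, 8256) (by decide +kernel)
                 (CovZ.leaf K2_ok TB_l42077 _)
                 (CovZ.leaf K2_ok TB_l42078 _))
                (CovZ.leaf K2_ok TB_l20959 _)))))
            (CovZ.n1 (-17712, 8304) (by decide +kernel)
             (CovZ.n2 (-17712, 8256) (by decide +kernel)
              (CovZ.leaf K2_ok TB_l20960 _)
              (CovZ.leaf K2_ok TB_l20961 _))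
             (CovZ.leaf K2_ok TB_l20962 _)))))
         (CovZ.subM 170141183460469231731687303715884105728 (by decide +kernel)
          (CovZ.n1 (-17856, 8064) (by decide +kernel)
           (CovZ.badM (by decide +kernel))
           (CovZ.n1 (-17760, 8160) (by decide +kernel)
            (CovZ.n2 (-17760, 8064) (by decide +kernel)
             (CovZ.badM (by decide +kernel))
             (CovZ.n1 (-17712, 8112) (by decide +kernel)
              (CovZ.badM (by decide +kernel))
              (CovZ.badM (by decide +kernel))))
            (CovZ.badM (by decide +kernel)))))))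
       (CovZ.subM 170141203742878835383357727663135391744 (by decide +kernel)
        (CovZ.n1 (-18048, 7680) (by decide +kernel)
         (CovZ.badM (by decide +kernel))
         (CovZ.n1 (-17856, 7872) (by decide +kernel)
          (CovZ.n2 (-17856, 7680) (by decide +kernel)
           (CovZ.badM (by decide +kernel))
           (CovZ.badM (by decide +kernel)))
          (CovZ.badM (by decide +kernel)))))))
     (CovZ.n1 (-17280, 8064) (by decide +kernel)
      TB_u269
      TB_u270))

theorem TB_u273 : CovZ TB_M (toL (selN TB_LN 75153362788746709678584099686892204416703029383860730844307304915667730535484897623167374496687820911610429448)) [0, 7, 6, 1] (-17664, 8448) (-18048, 8832) (-18432, 8448) :=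
    (CovZ.n2 (-18048, 8448) (by decide +kernel)
        (CovZ.subM 75153362788746709678584099671715102763073413246221543154516866787646547345658325829787828279410707519152062464 (by decide +kernel)
         (CovZ.n2 (-18240, 8640) (by decide +kernel)
          (CovZ.n2 (-18048, 8640) (by decide +kernel)
           (CovZ.n2 (-18144, 8544) (by decide +kernel)
            (CovZ.n2 (-18144, 8640) (by decide +kernel)
             (CovZ.n2 (-18096, 8592) (by decide +kernel)
              (CovZ.leaf K2_ok TB_l21039 _)
              (CovZ.leaf K2_ok TB_l21040 _))
             (CovZ.leaf K2_ok TB_l21041 _))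
            (CovZ.n1 (-18048, 8544) (by decide +kernel)
             (CovZ.n2 (-18096, 8496) (by decide +kernel)
              (CovZ.leaf K2_ok TB_l21042 _)
              (CovZ.leaf K2_ok TB_l21043 _))
             (CovZ.n1 (-18096, 8592) (by decide +kernel)
              (CovZ.leaf K2_ok TB_l21044 _)
              (CovZ.leaf K2_ok TB_l21045 _))))
           (CovZ.n1 (-18144, 8736) (by decide +kernel)
            (CovZ.leaf K2_ok TB_l21046 _)
            (CovZ.n1 (-18144, 8640) (by decide +kernel)
             (CovZ.leaf K2_ok TB_l21047 _)
             (CovZ.leaf K2_ok TB_l21048 _))))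
          (CovZ.n1 (-18240, 8448) (by decide +kernel)
           (CovZ.n2 (-18336, 8544) (by decide +kernel)
            (CovZ.n2 (-18240, 8544) (by decide +kernel)
             (CovZ.n2 (-18288, 8496) (by decide +kernel)
              (CovZ.n2 (-18288, 8544) (by decide +kernel)
               (CovZ.n2 (-18264, 8520) (by decide +kernel)
                (CovZ.leaf K2_ok TB_l21049 _)
                (CovZ.leaf K2_ok TB_l21050 _))
               (CovZ.leaf K2_ok TB_l21051 _))
              (CovZ.n1 (-18240, 8496) (by decide +kernel)
               (CovZ.n2 (-18264, 8472) (by decide +kernel)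
                (CovZ.n2 (-18264, 8496) (by decide +kernel)
                 (CovZ.leaf K2_ok TB_l21052 _)
                 (CovZ.leaf K2_ok TB_l21053 _))
                (CovZ.leaf K2_ok TB_l21054 _))
               (CovZ.n1 (-18264, 8520) (by decide +kernel)
                (CovZ.leaf K2_ok TB_l21055 _)
                (CovZ.n1 (-18264, 8496) (by decide +kernel)
                 (CovZ.leaf K2_ok TB_l21056 _)
                 (CovZ.leaf K2_ok TB_l21057 _)))))
             (CovZ.n1 (-18288, 8592) (by decide +kernel)
              (CovZ.leaf K2_ok TB_l21058 _)
              (CovZ.n1 (-18288, 8544) (by decide +kernel)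
               (CovZ.leaf K2_ok TB_l21059 _)
               (CovZ.leaf K2_ok TB_l21060 _))))
            (CovZ.subM 75153362648762663292463379340092403641243552762261188188759924534535362870132482021508759316001150601609084928 (by decide +kernel)
             (CovZ.n1 (-18336, 8448) (by decide +kernel)
              (CovZ.n2 (-18384, 8496) (by decide +kernel)
               (CovZ.n2 (-18336, 8496) (by decide +kernel)
                (CovZ.n2 (-18360, 8472) (by decide +kernel)
                 (CovZ.leaf K2_ok TB_l21061 _)
                 (CovZ.leaf K2_ok TB_l21062 _))
                (CovZ.n1 (-18360, 8520) (by decide +kernel)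
                 (CovZ.leaf K2_ok TB_l21063 _)
                 (CovZ.leaf K2_ok TB_l21064 _)))
               (CovZ.n1 (-18384, 8448) (by decide +kernel)
                (CovZ.n2 (-18408, 8472) (by decide +kernel)
                 (CovZ.leaf K2_ok TB_l21065 _)
                 (CovZ.n1 (-18408, 8448) (by decide +kernel)
                  (CovZ.leaf K2_ok TB_l21066 _)
                  (CovZ.leaf K2_ok TB_l21067 _)))
                (CovZ.n1 (-18360, 8472) (by decide +kernel)
                 (CovZ.n2 (-18360, 8448) (by decide +kernel)
                  (CovZ.leaf K2_ok TB_l21068 _)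
                  (CovZ.leaf K2_ok TB_l21069 _))
                 (CovZ.leaf K2_ok TB_l21070 _))))
              (CovZ.n1 (-18288, 8496) (by decide +kernel)
               (CovZ.n2 (-18288, 8448) (by decide +kernel)
                (CovZ.n2 (-18312, 8472) (by decide +kernel)
                 (CovZ.leaf K2_ok TB_l21071 _)
                 (CovZ.n1 (-18312, 8448) (by decide +kernel)
                  (CovZ.leaf K2_ok TB_l21072 _)
                  (CovZ.leaf K2_ok TB_l21073 _)))
                (CovZ.n1 (-18264, 8472) (by decide +kernel)
                 (CovZ.n2 (-18264, 8448) (by decide +kernel)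
                  (CovZ.leaf K2_ok TB_l21074 _)
                  (CovZ.leaf K2_ok TB_l21075 _))
                 (CovZ.leaf K2_ok TB_l21076 _)))
               (CovZ.n1 (-18336, 8496) (by decide +kernel)
                (CovZ.n2 (-18312, 8520) (by decide +kernel)
                 (CovZ.leaf K2_ok TB_l21077 _)
                 (CovZ.leaf K2_ok TB_l21078 _))
                (CovZ.n1 (-18312, 8472) (by decide +kernel)
                 (CovZ.leaf K2_ok TB_l21079 _)
                 (CovZ.leaf K2_ok TB_l21080 _)))))))
           (CovZ.n1 (-18144, 8544) (by decide +kernel)
            (CovZ.n2 (-18144, 8448) (by decide +kernel)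
             (CovZ.n2 (-18192, 8496) (by decide +kernel)
              (CovZ.n2 (-18144, 8496) (by decide +kernel)
               (CovZ.n2 (-18168, 8472) (by decide +kernel)
                (CovZ.n2 (-18168, 8496) (by decide +kernel)
                 (CovZ.leaf K2_ok TB_l21081 _)
                 (CovZ.leaf K2_ok TB_l21082 _))
                (CovZ.leaf K2_ok TB_l21083 _))
               (CovZ.n1 (-18168, 8520) (by decide +kernel)
                (CovZ.leaf K2_ok TB_l21084 _)
                (CovZ.n1 (-18168, 8496) (by decide +kernel)
                 (CovZ.leaf K2_ok TB_l21085 _)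
                 (CovZ.leaf K2_ok TB_l21086 _))))
              (CovZ.subM 75153362648762663292463379097258792113027418897328449835820061204234507988615041865032208098638114950958022656 (by decide +kernel)
               (CovZ.n1 (-18192, 8448) (by decide +kernel)
                (CovZ.n2 (-18216, 8472) (by decide +kernel)
                 (CovZ.leaf K2_ok TB_l21087 _)
                 (CovZ.n1 (-18216, 8448) (by decide +kernel)
                  (CovZ.leaf K2_ok TB_l21088 _)
                  (CovZ.leaf K2_ok TB_l21089 _)))
                (CovZ.n1 (-18168, 8472) (by decide +kernel)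
                 (CovZ.n2 (-18168, 8448) (by decide +kernel)
                  (CovZ.leaf K2_ok TB_l21090 _)
                  (CovZ.leaf K2_ok TB_l21091 _))
                 (CovZ.n1 (-18192, 8472) (by decide +kernel)
                  (CovZ.leaf K2_ok TB_l21092 _)
                  (CovZ.leaf K2_ok TB_l21093 _))))))
             (CovZ.n1 (-18096, 8496) (by decide +kernel)
              (CovZ.subM 139984046386120720331622706358835437816222568938943692368315003660473415482472871334803210414315274240 (by decide +kernel)
               (CovZ.n2 (-18096, 8448) (by decide +kernel)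
                (CovZ.n2 (-18120, 8472) (by decide +kernel)
                 (CovZ.leaf K2_ok TB_l21094 _)
                 (CovZ.n1 (-18120, 8448) (by decide +kernel)
                  (CovZ.leaf K2_ok TB_l21095 _)
                  (CovZ.leaf K2_ok TB_l21096 _)))
                (CovZ.n1 (-18072, 8472) (by decide +kernel)
                 (CovZ.n2 (-18072, 8448) (by decide +kernel)
                  (CovZ.leaf K2_ok TB_l21097 _)
                  (CovZ.leaf K2_ok TB_l21098 _))
                 (CovZ.leaf K2_ok TB_l21099 _))))
              (CovZ.n1 (-18144, 8496) (by decide +kernel)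
               (CovZ.leaf K2_ok TB_l21100 _)
               (CovZ.n1 (-18120, 8472) (by decide +kernel)
                (CovZ.leaf K2_ok TB_l21101 _)
                (CovZ.leaf K2_ok TB_l21102 _)))))
            (CovZ.n1 (-18240, 8544) (by decide +kernel)
             (CovZ.n2 (-18192, 8592) (by decide +kernel)
              (CovZ.n2 (-18192, 8544) (by decide +kernel)
               (CovZ.n2 (-18216, 8568) (by decide +kernel)
                (CovZ.leaf K2_ok TB_l21103 _)
                (CovZ.leaf K2_ok TB_l21104 _))
               (CovZ.leaf K2_ok TB_l21105 _))
              (CovZ.leaf K2_ok TB_l21106 _))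
             (CovZ.n1 (-18192, 8496) (by decide +kernel)
              (CovZ.n2 (-18240, 8496) (by decide +kernel)
               (CovZ.n2 (-18216, 8520) (by decide +kernel)
                (CovZ.n2 (-18216, 8496) (by decide +kernel)
                 (CovZ.leaf K2_ok TB_l21107 _)
                 (CovZ.leaf K2_ok TB_l21108 _))
                (CovZ.leaf K2_ok TB_l21109 _))
               (CovZ.subM 75153362648762663292463379097258792113027418897328449835820061204234507988615041865032208098638114950958022656 (by decide +kernel)
                (CovZ.n1 (-18216, 8472) (by decide +kernel)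
                 (CovZ.n2 (-18240, 8472) (by decide +kernel)
                  (CovZ.leaf K2_ok TB_l21110 _)
                  (CovZ.leaf K2_ok TB_l21111 _))
                 (CovZ.n1 (-18216, 8496) (by decide +kernel)
                  (CovZ.leaf K2_ok TB_l21112 _)
                  (CovZ.leaf K2_ok TB_l21113 _)))))
              (CovZ.n1 (-18192, 8544) (by decide +kernel)
               (CovZ.n2 (-18168, 8520) (by decide +kernel)
                (CovZ.leaf K2_ok TB_l21114 _)
                (CovZ.leaf K2_ok TB_l21115 _))
               (CovZ.n1 (-18216, 8520) (by decide +kernel)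
                (CovZ.leaf K2_ok TB_l21116 _)
                (CovZ.leaf K2_ok TB_l21117 _)))))))))
        (CovZ.n1 (-17856, 8640) (by decide +kernel)
         (CovZ.n2 (-17856, 8448) (by decide +kernel)
          (CovZ.subM 75153362788746709678584099428881491234857279381288804801577003457345692464140885673311277062047671868498903040 (by decide +kernel)
           (CovZ.n2 (-17952, 8544) (by decide +kernel)
            (CovZ.leaf K2_ok TB_l21118 _)
            (CovZ.n1 (-17952, 8448) (by decide +kernel)
             (CovZ.n2 (-18000, 8496) (by decide +kernel)
              (CovZ.leaf K2_ok TB_l21119 _)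
              (CovZ.n1 (-18000, 8448) (by decide +kernel)
               (CovZ.leaf K2_ok TB_l21120 _)
               (CovZ.leaf K2_ok TB_l21121 _)))
             (CovZ.leaf K2_ok TB_l21122 _))))
          (CovZ.n1 (-17760, 8544) (by decide +kernel)
           (CovZ.n2 (-17760, 8448) (by decide +kernel)
            (CovZ.leaf K2_ok TB_l21123 _)
            (CovZ.leaf K2_ok TB_l21124 _))
           (CovZ.leaf K2_ok TB_l21125 _)))
         (CovZ.subM 75153362788746709678584099671715102763073413246221543154516866787646547345658325829787828279410707519149965312 (by decide +kernel)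
          (CovZ.n1 (-18048, 8640) (by decide +kernel)
           (CovZ.n2 (-17952, 8736) (by decide +kernel)
            (CovZ.n2 (-17952, 8640) (by decide +kernel)
             (CovZ.leaf K2_ok TB_l21126 _)
             (CovZ.leaf K2_ok TB_l21127 _))
            (CovZ.leaf K2_ok TB_l21128 _))
           (CovZ.n1 (-17952, 8544) (by decide +kernel)
            (CovZ.n2 (-18048, 8544) (by decide +kernel)
             (CovZ.leaf K2_ok TB_l21129 _)
             (CovZ.n1 (-18000, 8496) (by decide +kernel)
              (CovZ.leaf K2_ok TB_l21130 _)
              (CovZ.leaf K2_ok TB_l21131 _)))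
            (CovZ.n1 (-17952, 8640) (by decide +kernel)
             (CovZ.leaf K2_ok TB_l21132 _)
             (CovZ.leaf K2_ok TB_l21133 _)))))))

theorem TB_u274 : CovZ TB_M (toL (selN TB_LN 75153362788746709678584099686892204416703029383860730844307304915667730535484897623167374496687820911610429448)) [0, 7, 6, 1] (-18048, 8832) (-18432, 9216) (-18432, 8448) :=
    (CovZ.subM 75153362788746709678584099686892203483586921612779839301575608245790350775753165839567612730495897247317753856 (by decide +kernel)
        (CovZ.n1 (-18432, 8832) (by decide +kernel)
         (CovZ.n2 (-18240, 9024) (by decide +kernel)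
          (CovZ.n2 (-18240, 8832) (by decide +kernel)
           (CovZ.n2 (-18336, 8928) (by decide +kernel)
            (CovZ.leaf K2_ok TB_l21134 _)
            (CovZ.n1 (-18336, 8832) (by decide +kernel)
             (CovZ.leaf K2_ok TB_l21135 _)
             (CovZ.leaf K2_ok TB_l21136 _)))
           (CovZ.n1 (-18144, 8928) (by decide +kernel)
            (CovZ.leaf K2_ok TB_l21137 _)
            (CovZ.leaf K2_ok TB_l21138 _)))
          (CovZ.n1 (-18432, 9024) (by decide +kernel)
           (CovZ.n2 (-18336, 9120) (by decide +kernel)
            (CovZ.leaf K2_ok TB_l21139 _)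
            (CovZ.leaf K2_ok TB_l21140 _))
           (CovZ.n1 (-18336, 8928) (by decide +kernel)
            (CovZ.leaf K2_ok TB_l21141 _)
            (CovZ.leaf K2_ok TB_l21142 _))))
         (CovZ.n1 (-18240, 8640) (by decide +kernel)
          (CovZ.n2 (-18432, 8640) (by decide +kernel)
           (CovZ.n2 (-18336, 8736) (by decide +kernel)
            (CovZ.n2 (-18336, 8640) (by decide +kernel)
             (CovZ.n2 (-18384, 8688) (by decide +kernel)
              (CovZ.leaf K2_ok TB_l21143 _)
              (CovZ.n1 (-18384, 8640) (by decide +kernel)
               (CovZ.leaf K2_ok TB_l21144 _)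
               (CovZ.leaf K2_ok TB_l21145 _)))
             (CovZ.n1 (-18288, 8688) (by decide +kernel)
              (CovZ.n2 (-18288, 8640) (by decide +kernel)
               (CovZ.leaf K2_ok TB_l21146 _)
               (CovZ.leaf K2_ok TB_l21147 _))
              (CovZ.leaf K2_ok TB_l21148 _)))
            (CovZ.n1 (-18432, 8736) (by decide +kernel)
             (CovZ.leaf K2_ok TB_l21149 _)
             (CovZ.n1 (-18384, 8688) (by decide +kernel)
              (CovZ.leaf K2_ok TB_l21150 _)
              (CovZ.leaf K2_ok TB_l21151 _))))
           (CovZ.n1 (-18336, 8544) (by decide +kernel)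
            (CovZ.n2 (-18432, 8544) (by decide +kernel)
             (CovZ.n2 (-18384, 8592) (by decide +kernel)
              (CovZ.n2 (-18384, 8544) (by decide +kernel)
               (CovZ.leaf K2_ok TB_l21152 _)
               (CovZ.leaf K2_ok TB_l21153 _))
              (CovZ.leaf K2_ok TB_l21154 _))
             (CovZ.subM 75153362648762663292463379340092403641243552762261188188759924534535362870132482021508759316001150601609084928 (by decide +kernel)
              (CovZ.n1 (-18384, 8496) (by decide +kernel)
               (CovZ.n2 (-18432, 8496) (by decide +kernel)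
                (CovZ.leaf K2_ok TB_l21155 _)
                (CovZ.n1 (-18408, 8472) (by decide +kernel)
                 (CovZ.leaf K2_ok TB_l21156 _)
                 (CovZ.leaf K2_ok TB_l21157 _)))
               (CovZ.n1 (-18384, 8544) (by decide +kernel)
                (CovZ.n2 (-18360, 8520) (by decide +kernel)
                 (CovZ.leaf K2_ok TB_l21158 _)
                 (CovZ.leaf K2_ok TB_l21159 _))
                (CovZ.leaf K2_ok TB_l21160 _)))))
            (CovZ.n1 (-18336, 8640) (by decide +kernel)
             (CovZ.n2 (-18288, 8592) (by decide +kernel)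
              (CovZ.n2 (-18336, 8592) (by decide +kernel)
               (CovZ.leaf K2_ok TB_l21161 _)
               (CovZ.leaf K2_ok TB_l21162 _))
              (CovZ.n1 (-18288, 8640) (by decide +kernel)
               (CovZ.leaf K2_ok TB_l21163 _)
               (CovZ.leaf K2_ok TB_l21164 _)))
             (CovZ.n1 (-18384, 8592) (by decide +kernel)
              (CovZ.n2 (-18384, 8640) (by decide +kernel)
               (CovZ.leaf K2_ok TB_l21165 _)
               (CovZ.leaf K2_ok TB_l21166 _))
              (CovZ.leaf K2_ok TB_l21167 _)))))
          (CovZ.n1 (-18240, 8832) (by decide +kernel)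
           (CovZ.n2 (-18144, 8736) (by decide +kernel)
            (CovZ.leaf K2_ok TB_l21168 _)
            (CovZ.leaf K2_ok TB_l21169 _))
           (CovZ.n1 (-18336, 8736) (by decide +kernel)
            (CovZ.n2 (-18336, 8832) (by decide +kernel)
             (CovZ.leaf K2_ok TB_l21170 _)
             (CovZ.leaf K2_ok TB_l21171 _))
            (CovZ.leaf K2_ok TB_l21172 _))))))

theorem TB_u275 : CovZ TB_M (toL (selN TB_LN 76401169379508809525072488372620783971800524481963295552269553362246194327396127099582894473413693898999463976)) [0, 7, 6, 1] (-18432, 7680) (-17664, 8448) (-18432, 9216) :=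
    (CovZ.subM 75153362788746709678584099686892204416703029383860730844307304915667730535484897623167374496687820911610429448 (by decide +kernel)
     (CovZ.n2 (-18432, 8448) (by decide +kernel)
      (CovZ.n2 (-18048, 8832) (by decide +kernel)
       TB_u273
       TB_u274)
      (CovZ.n1 (-18048, 8064) (by decide +kernel)
       (CovZ.subM 75153362648762663292463379340092396404237975429998974215573174419331543685184910347314919165675634147672981504 (by decide +kernel)
        (CovZ.n2 (-18432, 8064) (by decide +kernel)
         (CovZ.n2 (-18240, 8256) (by decide +kernel)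
          (CovZ.badM (by decide +kernel))
          (CovZ.n1 (-18432, 8256) (by decide +kernel)
           (CovZ.n2 (-18336, 8352) (by decide +kernel)
            (CovZ.badM (by decide +kernel))
            (CovZ.n1 (-18432, 8352) (by decide +kernel)
             (CovZ.n2 (-18384, 8400) (by decide +kernel)
              (CovZ.badM (by decide +kernel))
              (CovZ.n1 (-18432, 8400) (by decide +kernel)
               (CovZ.n2 (-18408, 8424) (by decide +kernel)
                (CovZ.n2 (-18408, 8400) (by decide +kernel)
                 (CovZ.leaf K2_ok TB_l42117 _)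
                 (CovZ.leaf K2_ok TB_l42118 _))
                (CovZ.leaf K2_ok TB_l42119 _))
               (CovZ.n1 (-18408, 8376) (by decide +kernel)
                (CovZ.n2 (-18432, 8376) (by decide +kernel)
                 (CovZ.leaf K2_ok TB_l49650 _)
                 (CovZ.badM (by decide +kernel)))
                (CovZ.n1 (-18408, 8400) (by decide +kernel)
                 (CovZ.badM (by decide +kernel))
                 (CovZ.leaf K2_ok TB_l49651 _)))))
             (CovZ.badM (by decide +kernel))))
           (CovZ.badM (by decide +kernel))))
         (CovZ.badM (by decide +kernel))))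
       (CovZ.n1 (-18048, 8448) (by decide +kernel)
        (CovZ.subM 139984046386120720331622700054725112371943948467290913807605277776352670176427928265130932808875769856 (by decide +kernel)
         (CovZ.n2 (-17856, 8256) (by decide +kernel)
          (CovZ.subM 139984046386120720331622699121829860483960354965756942253111184475525843808279031184477693960379170816 (by decide +kernel)
           (CovZ.n2 (-18048, 8256) (by decide +kernel)
            (CovZ.n2 (-17952, 8352) (by decide +kernel)
             (CovZ.badM (by decide +kernel))
             (CovZ.n1 (-18048, 8352) (by decide +kernel)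
              (CovZ.n2 (-18000, 8400) (by decide +kernel)
               (CovZ.badM (by decide +kernel))
               (CovZ.n1 (-18048, 8400) (by decide +kernel)
                (CovZ.n2 (-18024, 8424) (by decide +kernel)
                 (CovZ.n2 (-18024, 8400) (by decide +kernel)
                  (CovZ.leaf K2_ok TB_l21174 _)
                  (CovZ.leaf K2_ok TB_l21175 _))
                 (CovZ.leaf K2_ok TB_l21176 _))
                (CovZ.badM (by decide +kernel))))
              (CovZ.badM (by decide +kernel))))
            (CovZ.badM (by decide +kernel))))
          (CovZ.n1 (-17856, 8448) (by decide +kernel)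
           (CovZ.n2 (-17760, 8352) (by decide +kernel)
            (CovZ.subM 139984046386120720331622699121829860483960354965757129325320762831099373879937618868704209919744671744 (by decide +kernel)
             (CovZ.n2 (-17856, 8352) (by decide +kernel)
              (CovZ.n2 (-17808, 8400) (by decide +kernel)
               (CovZ.n2 (-17808, 8352) (by decide +kernel)
                (CovZ.leaf K2_ok TB_l21177 _)
                (CovZ.leaf K2_ok TB_l21178 _))
               (CovZ.leaf K2_ok TB_l21179 _))
              (CovZ.n1 (-17808, 8304) (by decide +kernel)
               (CovZ.n2 (-17856, 8304) (by decide +kernel)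
                (CovZ.leaf K2_ok TB_l21180 _)
                (CovZ.n1 (-17832, 8280) (by decide +kernel)
                 (CovZ.badM (by decide +kernel))
                 (CovZ.n1 (-17832, 8304) (by decide +kernel)
                  (CovZ.leaf K2_ok TB_l21182 _)
                  (CovZ.badM (by decide +kernel)))))
               (CovZ.n1 (-17808, 8352) (by decide +kernel)
                (CovZ.leaf K2_ok TB_l21184 _)
                (CovZ.leaf K2_ok TB_l21185 _)))))
            (CovZ.n1 (-17760, 8448) (by decide +kernel)
             (CovZ.leaf K2_ok TB_l21186 _)
             (CovZ.leaf K2_ok TB_l21187 _)))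
           (CovZ.subM 139984046386120720331622699121829860483960354965757129325320762831099373879937618868704209919744671744 (by decide +kernel)
            (CovZ.n1 (-17952, 8352) (by decide +kernel)
             (CovZ.n2 (-17952, 8448) (by decide +kernel)
              (CovZ.n2 (-17904, 8400) (by decide +kernel)
               (CovZ.n2 (-17952, 8400) (by decide +kernel)
                (CovZ.leaf K2_ok TB_l21188 _)
                (CovZ.n1 (-17928, 8376) (by decide +kernel)
                 (CovZ.leaf K2_ok TB_l21189 _)
                 (CovZ.leaf K2_ok TB_l21190 _)))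
               (CovZ.leaf K2_ok TB_l21191 _))
              (CovZ.n1 (-18000, 8400) (by decide +kernel)
               (CovZ.n2 (-18000, 8448) (by decide +kernel)
                (CovZ.n2 (-17976, 8424) (by decide +kernel)
                 (CovZ.leaf K2_ok TB_l21192 _)
                 (CovZ.leaf K2_ok TB_l21193 _))
                (CovZ.leaf K2_ok TB_l21194 _))
               (CovZ.n1 (-17952, 8400) (by decide +kernel)
                (CovZ.n2 (-17976, 8376) (by decide +kernel)
                 (CovZ.leaf K2_ok TB_l21195 _)
                 (CovZ.leaf K2_ok TB_l21196 _))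
                (CovZ.n1 (-17976, 8424) (by decide +kernel)
                 (CovZ.leaf K2_ok TB_l21197 _)
                 (CovZ.leaf K2_ok TB_l21198 _)))))
             (CovZ.n1 (-17856, 8352) (by decide +kernel)
              (CovZ.n2 (-17904, 8304) (by decide +kernel)
               (CovZ.n2 (-17904, 8352) (by decide +kernel)
                (CovZ.n2 (-17880, 8328) (by decide +kernel)
                 (CovZ.leaf K2_ok TB_l21199 _)
                 (CovZ.leaf K2_ok TB_l21200 _))
                (CovZ.n1 (-17928, 8328) (by decide +kernel)
                 (CovZ.n2 (-17928, 8352) (by decide +kernel)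
                  (CovZ.leaf K2_ok TB_l21201 _)
                  (CovZ.badM (by decide +kernel)))
                 (CovZ.leaf K2_ok TB_l21202 _)))
               (CovZ.n1 (-17856, 8304) (by decide +kernel)
                (CovZ.badM (by decide +kernel))
                (CovZ.n1 (-17880, 8328) (by decide +kernel)
                 (CovZ.leaf K2_ok TB_l21205 _)
                 (CovZ.badM (by decide +kernel)))))
              (CovZ.n1 (-17904, 8400) (by decide +kernel)
               (CovZ.leaf K2_ok TB_l21208 _)
               (CovZ.n1 (-17904, 8352) (by decide +kernel)
                (CovZ.n2 (-17928, 8376) (by decide +kernel)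
                 (CovZ.leaf K2_ok TB_l21209 _)
                 (CovZ.n1 (-17928, 8352) (by decide +kernel)
                  (CovZ.leaf K2_ok TB_l21210 _)
                  (CovZ.leaf K2_ok TB_l21211 _)))
                (CovZ.leaf K2_ok TB_l21212 _)))))))))
        (CovZ.subM 75153362788746709678584099671715095526067835913959329181330116672442728160710754155593950350153328108052152320 (by decide +kernel)
         (CovZ.n1 (-18240, 8256) (by decide +kernel)
          (CovZ.n2 (-18240, 8448) (by decide +kernel)
           (CovZ.n2 (-18144, 8352) (by decide +kernel)
            (CovZ.badM (by decide +kernel))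
            (CovZ.n1 (-18144, 8448) (by decide +kernel)
             (CovZ.n2 (-18096, 8400) (by decide +kernel)
              (CovZ.badM (by decide +kernel))
              (CovZ.n1 (-18096, 8448) (by decide +kernel)
               (CovZ.n2 (-18072, 8424) (by decide +kernel)
                (CovZ.badM (by decide +kernel))
                (CovZ.n1 (-18072, 8448) (by decide +kernel)
                 (CovZ.leaf K2_ok TB_l21213 _)
                 (CovZ.leaf K2_ok TB_l21214 _)))
               (CovZ.badM (by decide +kernel))))
             (CovZ.badM (by decide +kernel))))
           (CovZ.n1 (-18336, 8352) (by decide +kernel)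
            (CovZ.n2 (-18336, 8448) (by decide +kernel)
             (CovZ.n2 (-18288, 8400) (by decide +kernel)
              (CovZ.n2 (-18336, 8400) (by decide +kernel)
               (CovZ.n2 (-18312, 8424) (by decide +kernel)
                (CovZ.badM (by decide +kernel))
                (CovZ.n1 (-18336, 8424) (by decide +kernel)
                 (CovZ.leaf K2_ok TB_l49652 _)
                 (CovZ.badM (by decide +kernel))))
               (CovZ.badM (by decide +kernel)))
              (CovZ.n1 (-18288, 8448) (by decide +kernel)
               (CovZ.badM (by decide +kernel))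
               (CovZ.n1 (-18312, 8424) (by decide +kernel)
                (CovZ.n2 (-18312, 8448) (by decide +kernel)
                 (CovZ.leaf K2_ok TB_l49653 _)
                 (CovZ.leaf K2_ok TB_l49654 _))
                (CovZ.badM (by decide +kernel)))))
             (CovZ.n1 (-18384, 8400) (by decide +kernel)
              (CovZ.n2 (-18384, 8448) (by decide +kernel)
               (CovZ.n2 (-18360, 8424) (by decide +kernel)
                (CovZ.leaf K2_ok TB_l42120 _)
                (CovZ.n1 (-18360, 8448) (by decide +kernel)
                 (CovZ.leaf K2_ok TB_l49655 _)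
                 (CovZ.leaf K2_ok TB_l42121 _)))
               (CovZ.n1 (-18408, 8424) (by decide +kernel)
                (CovZ.n2 (-18408, 8448) (by decide +kernel)
                 (CovZ.leaf K2_ok TB_l42122 _)
                 (CovZ.leaf K2_ok TB_l42123 _))
                (CovZ.leaf K2_ok TB_l42124 _)))
              (CovZ.n1 (-18336, 8400) (by decide +kernel)
               (CovZ.badM (by decide +kernel))
               (CovZ.n1 (-18360, 8424) (by decide +kernel)
                (CovZ.leaf K2_ok TB_l49656 _)
                (CovZ.n1 (-18360, 8400) (by decide +kernel)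
                 (CovZ.leaf K2_ok TB_l49657 _)
                 (CovZ.leaf K2_ok TB_l49658 _))))))
            (CovZ.badM (by decide +kernel))))
          (CovZ.n1 (-18048, 8256) (by decide +kernel)
           (CovZ.badM (by decide +kernel))
           (CovZ.n1 (-18144, 8352) (by decide +kernel)
            (CovZ.n2 (-18048, 8352) (by decide +kernel)
             (CovZ.badM (by decide +kernel))
             (CovZ.n1 (-18096, 8400) (by decide +kernel)
              (CovZ.n2 (-18048, 8400) (by decide +kernel)
               (CovZ.badM (by decide +kernel))
               (CovZ.n1 (-18072, 8424) (by decide +kernel)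
                (CovZ.leaf K2_ok TB_l21215 _)
                (CovZ.badM (by decide +kernel))))
              (CovZ.badM (by decide +kernel))))
            (CovZ.badM (by decide +kernel))))))))))

theorem TB_u276 : CovZ TB_M (toL (selN TB_LN 76401169379508809525072488372620783971800524481963295552269553362246194327396127099582894473413693898999463976)) [0, 7, 6, 1] (-17664, 8448) (-16896, 9216) (-18432, 9216) :=
    (CovZ.n1 (-17664, 9216) (by decide +kernel)
     (CovZ.n2 (-17280, 8832) (by decide +kernel)
      (CovZ.subM 75153362788746710721546519570631704050821309675270329095321527653958839277407259686896813160342744941914488872 (by decide +kernel)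
       (CovZ.n2 (-17664, 8832) (by decide +kernel)
        (CovZ.n2 (-17472, 9024) (by decide +kernel)
         (CovZ.n2 (-17472, 8832) (by decide +kernel)
          (CovZ.n2 (-17568, 8928) (by decide +kernel)
           (CovZ.leaf K2_ok TB_l21216 _)
           (CovZ.n1 (-17568, 8832) (by decide +kernel)
            (CovZ.leaf K2_ok TB_l21217 _)
            (CovZ.leaf K2_ok TB_l21218 _)))
          (CovZ.n1 (-17376, 8928) (by decide +kernel)
           (CovZ.n2 (-17376, 8832) (by decide +kernel)
            (CovZ.leaf K2_ok TB_l21219 _)
            (CovZ.leaf K2_ok TB_l21220 _))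
           (CovZ.leaf K2_ok TB_l21221 _)))
         (CovZ.n1 (-17664, 9024) (by decide +kernel)
          (CovZ.n2 (-17568, 9120) (by decide +kernel)
           (CovZ.n2 (-17568, 9024) (by decide +kernel)
            (CovZ.leaf K2_ok TB_l21222 _)
            (CovZ.leaf K2_ok TB_l21223 _))
           (CovZ.leaf K2_ok TB_l21224 _))
          (CovZ.n1 (-17568, 8928) (by decide +kernel)
           (CovZ.leaf K2_ok TB_l21225 _)
           (CovZ.n1 (-17568, 9024) (by decide +kernel)
            (CovZ.leaf K2_ok TB_l21226 _)
            (CovZ.leaf K2_ok TB_l21227 _)))))
        (CovZ.n1 (-17472, 8640) (by decide +kernel)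
         (CovZ.n2 (-17664, 8640) (by decide +kernel)
          (CovZ.n2 (-17568, 8736) (by decide +kernel)
           (CovZ.n2 (-17568, 8640) (by decide +kernel)
            (CovZ.leaf K2_ok TB_l21228 _)
            (CovZ.leaf K2_ok TB_l21229 _))
           (CovZ.leaf K2_ok TB_l21230 _))
          (CovZ.n1 (-17568, 8544) (by decide +kernel)
           (CovZ.leaf K2_ok TB_l21231 _)
           (CovZ.n1 (-17568, 8640) (by decide +kernel)
            (CovZ.leaf K2_ok TB_l21232 _)
            (CovZ.leaf K2_ok TB_l21233 _))))
         (CovZ.n1 (-17472, 8832) (by decide +kernel)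
          (CovZ.n2 (-17376, 8736) (by decide +kernel)
           (CovZ.leaf K2_ok TB_l21234 _)
           (CovZ.n1 (-17376, 8832) (by decide +kernel)
            (CovZ.leaf K2_ok TB_l21235 _)
            (CovZ.leaf K2_ok TB_l21236 _)))
          (CovZ.n1 (-17568, 8736) (by decide +kernel)
           (CovZ.n2 (-17568, 8832) (by decide +kernel)
            (CovZ.leaf K2_ok TB_l21237 _)
            (CovZ.leaf K2_ok TB_l21238 _))
           (CovZ.leaf K2_ok TB_l21239 _))))))
      (CovZ.n1 (-17280, 9216) (by decide +kernel)
       (CovZ.n2 (-17088, 9024) (by decide +kernel)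
        (CovZ.n2 (-17280, 9024) (by decide +kernel)
         (CovZ.n2 (-17184, 9120) (by decide +kernel)
          (CovZ.n2 (-17184, 9024) (by decide +kernel)
           (CovZ.leaf K2_ok TB_l21240 _)
           (CovZ.leaf K2_ok TB_l21241 _))
          (CovZ.leaf K2_ok TB_l21242 _))
         (CovZ.n1 (-17184, 8928) (by decide +kernel)
          (CovZ.leaf K2_ok TB_l21243 _)
          (CovZ.n1 (-17184, 9024) (by decide +kernel)
           (CovZ.leaf K2_ok TB_l21244 _)
           (CovZ.leaf K2_ok TB_l21245 _))))
        (CovZ.n1 (-17088, 9216) (by decide +kernel)
         (CovZ.n2 (-16992, 9120) (by decide +kernel)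
          (CovZ.leaf K2_ok TB_l21246 _)
          (CovZ.n1 (-16992, 9216) (by decide +kernel)
           (CovZ.leaf K2_ok TB_l21247 _)
           (CovZ.leaf K2_ok TB_l21248 _)))
         (CovZ.n1 (-17184, 9120) (by decide +kernel)
          (CovZ.n2 (-17184, 9216) (by decide +kernel)
           (CovZ.leaf K2_ok TB_l21249 _)
           (CovZ.leaf K2_ok TB_l21250 _))
          (CovZ.leaf K2_ok TB_l21251 _))))
       (CovZ.subM 75153362788746710721546519570631704050821309675270329095321527653958839277407259686896813160342744941914488872 (by decide +kernel)
        (CovZ.n1 (-17472, 9024) (by decide +kernel)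
         (CovZ.n2 (-17472, 9216) (by decide +kernel)
          (CovZ.n2 (-17376, 9120) (by decide +kernel)
           (CovZ.leaf K2_ok TB_l21252 _)
           (CovZ.n1 (-17376, 9216) (by decide +kernel)
            (CovZ.leaf K2_ok TB_l21253 _)
            (CovZ.leaf K2_ok TB_l21254 _)))
          (CovZ.n1 (-17568, 9120) (by decide +kernel)
           (CovZ.n2 (-17568, 9216) (by decide +kernel)
            (CovZ.leaf K2_ok TB_l21255 _)
            (CovZ.leaf K2_ok TB_l21256 _))
           (CovZ.leaf K2_ok TB_l21257 _)))
         (CovZ.n1 (-17280, 9024) (by decide +kernel)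
          (CovZ.n2 (-17376, 8928) (by decide +kernel)
           (CovZ.n2 (-17376, 9024) (by decide +kernel)
            (CovZ.leaf K2_ok TB_l21258 _)
            (CovZ.leaf K2_ok TB_l21259 _))
           (CovZ.leaf K2_ok TB_l21260 _))
          (CovZ.n1 (-17376, 9120) (by decide +kernel)
           (CovZ.leaf K2_ok TB_l21261 _)
           (CovZ.n1 (-17376, 9024) (by decide +kernel)
            (CovZ.leaf K2_ok TB_l21262 _)
            (CovZ.leaf K2_ok TB_l21263 _))))))))
     (CovZ.subM 75153362788746709678584099686892204416703029383860730844307304915667730535484897623167374496687820911610429480 (by decide +kernel)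
      (CovZ.n1 (-18048, 8832) (by decide +kernel)
       (CovZ.n2 (-18048, 9216) (by decide +kernel)
        (CovZ.n2 (-17856, 9024) (by decide +kernel)
         (CovZ.subM 75153362788746709678584099686892203483586921612779839301575608245790350775753165839567612730495897247315656736 (by decide +kernel)
          (CovZ.n2 (-18048, 9024) (by decide +kernel)
           (CovZ.n2 (-17952, 9120) (by decide +kernel)
            (CovZ.leaf K2_ok TB_l21264 _)
            (CovZ.leaf K2_ok TB_l21265 _))
           (CovZ.n1 (-17952, 8928) (by decide +kernel)
            (CovZ.leaf K2_ok TB_l21266 _)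
            (CovZ.n1 (-17952, 9024) (by decide +kernel)
             (CovZ.leaf K2_ok TB_l21267 _)
             (CovZ.leaf K2_ok TB_l21268 _)))))
         (CovZ.n1 (-17856, 9216) (by decide +kernel)
          (CovZ.n2 (-17760, 9120) (by decide +kernel)
           (CovZ.leaf K2_ok TB_l21269 _)
           (CovZ.n1 (-17760, 9216) (by decide +kernel)
            (CovZ.leaf K2_ok TB_l21270 _)
            (CovZ.leaf K2_ok TB_l21271 _)))
          (CovZ.n1 (-17952, 9120) (by decide +kernel)
           (CovZ.n2 (-17952, 9216) (by decide +kernel)
            (CovZ.leaf K2_ok TB_l21272 _)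
            (CovZ.leaf K2_ok TB_l21273 _))
           (CovZ.leaf K2_ok TB_l21274 _))))
        (CovZ.subM 75153362788746709678584099686892203483586921612779839301575608245790350775753165839567612730495897247317753888 (by decide +kernel)
         (CovZ.n1 (-18240, 9024) (by decide +kernel)
          (CovZ.n2 (-18240, 9216) (by decide +kernel)
           (CovZ.n2 (-18144, 9120) (by decide +kernel)
            (CovZ.leaf K2_ok TB_l21275 _)
            (CovZ.leaf K2_ok TB_l21276 _))
           (CovZ.n1 (-18336, 9120) (by decide +kernel)
            (CovZ.leaf K2_ok TB_l21277 _)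
            (CovZ.leaf K2_ok TB_l21278 _)))
          (CovZ.n1 (-18048, 9024) (by decide +kernel)
           (CovZ.n2 (-18144, 8928) (by decide +kernel)
            (CovZ.leaf K2_ok TB_l21279 _)
            (CovZ.leaf K2_ok TB_l21280 _))
           (CovZ.n1 (-18144, 9120) (by decide +kernel)
            (CovZ.leaf K2_ok TB_l21281 _)
            (CovZ.leaf K2_ok TB_l21282 _))))))
       (CovZ.n1 (-17664, 8832) (by decide +kernel)
        (CovZ.n2 (-17856, 8640) (by decide +kernel)
         (CovZ.n2 (-17856, 8832) (by decide +kernel)
          (CovZ.n2 (-17760, 8736) (by decide +kernel)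
           (CovZ.leaf K2_ok TB_l21283 _)
           (CovZ.n1 (-17760, 8832) (by decide +kernel)
            (CovZ.leaf K2_ok TB_l21284 _)
            (CovZ.leaf K2_ok TB_l21285 _)))
          (CovZ.n1 (-17952, 8736) (by decide +kernel)
           (CovZ.n2 (-17952, 8832) (by decide +kernel)
            (CovZ.leaf K2_ok TB_l21286 _)
            (CovZ.leaf K2_ok TB_l21287 _))
           (CovZ.leaf K2_ok TB_l21288 _)))
         (CovZ.n1 (-17664, 8640) (by decide +kernel)
          (CovZ.n2 (-17760, 8544) (by decide +kernel)
           (CovZ.n2 (-17760, 8640) (by decide +kernel)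
            (CovZ.leaf K2_ok TB_l21289 _)
            (CovZ.leaf K2_ok TB_l21290 _))
           (CovZ.leaf K2_ok TB_l21291 _))
          (CovZ.n1 (-17760, 8736) (by decide +kernel)
           (CovZ.leaf K2_ok TB_l21292 _)
           (CovZ.n1 (-17760, 8640) (by decide +kernel)
            (CovZ.leaf K2_ok TB_l21293 _)
            (CovZ.leaf K2_ok TB_l21294 _)))))
        (CovZ.n1 (-17856, 9024) (by decide +kernel)
         (CovZ.n2 (-17664, 9024) (by decide +kernel)
          (CovZ.n2 (-17760, 8928) (by decide +kernel)
           (CovZ.n2 (-17760, 9024) (by decide +kernel)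
            (CovZ.leaf K2_ok TB_l21295 _)
            (CovZ.leaf K2_ok TB_l21296 _))
           (CovZ.leaf K2_ok TB_l21297 _))
          (CovZ.n1 (-17760, 9120) (by decide +kernel)
           (CovZ.leaf K2_ok TB_l21298 _)
           (CovZ.leaf K2_ok TB_l21299 _)))
         (CovZ.n1 (-17856, 8832) (by decide +kernel)
          (CovZ.n2 (-17952, 8928) (by decide +kernel)
           (CovZ.leaf K2_ok TB_l21300 _)
           (CovZ.leaf K2_ok TB_l21301 _))
          (CovZ.n1 (-17760, 8928) (by decide +kernel)
           (CovZ.n2 (-17760, 8832) (by decide +kernel)
            (CovZ.leaf K2_ok TB_l21302 _)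
            (CovZ.leaf K2_ok TB_l21303 _))
           (CovZ.leaf K2_ok TB_l21304 _))))))))

theorem TB_u277 : CovZ TB_M (toL (selN TB_LN 19701004346003830368239367055427996879104431951935748783282298338843087802259294902456242536024811935994068540067880)) [0, 7, 6, 1] (-15360, 9216) (-16128, 8448) (-15360, 7680) :=
    (CovZ.subM 1042970377055046908838935155458116877430035043079186114232600243552457142254684035849062977576 (by decide +kernel)
     (CovZ.n2 (-15360, 8448) (by decide +kernel)
      (CovZ.n2 (-15744, 8064) (by decide +kernel)
       (CovZ.n2 (-15744, 8448) (by decide +kernel)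
        (CovZ.subM 1042970377055046901373964896080724902716410048587141331644686356639249822795639534823726383144 (by decide +kernel)
         (CovZ.n2 (-15552, 8256) (by decide +kernel)
          (CovZ.n2 (-15744, 8256) (by decide +kernel)
           (CovZ.n2 (-15648, 8352) (by decide +kernel)
            (CovZ.n2 (-15648, 8256) (by decide +kernel)
             (CovZ.leaf K2_ok TB_l24219 _)
             (CovZ.leaf K2_ok TB_l24220 _))
            (CovZ.leaf K2_ok TB_l24221 _))
           (CovZ.n1 (-15648, 8160) (by decide +kernel)
            (CovZ.leaf K2_ok TB_l24222 _)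
            (CovZ.n1 (-15648, 8256) (by decide +kernel)
             (CovZ.leaf K2_ok TB_l24223 _)
             (CovZ.leaf K2_ok TB_l24224 _))))
          (CovZ.n1 (-15552, 8448) (by decide +kernel)
           (CovZ.n2 (-15456, 8352) (by decide +kernel)
            (CovZ.leaf K2_ok TB_l24225 _)
            (CovZ.n1 (-15456, 8448) (by decide +kernel)
             (CovZ.leaf K2_ok TB_l24226 _)
             (CovZ.leaf K2_ok TB_l24227 _)))
           (CovZ.n1 (-15648, 8352) (by decide +kernel)
            (CovZ.n2 (-15648, 8448) (by decide +kernel)
             (CovZ.leaf K2_ok TB_l24228 _)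
             (CovZ.leaf K2_ok TB_l24229 _))
            (CovZ.leaf K2_ok TB_l24230 _)))))
        (CovZ.n1 (-15936, 8256) (by decide +kernel)
         (CovZ.n2 (-15936, 8448) (by decide +kernel)
          (CovZ.n2 (-15840, 8352) (by decide +kernel)
           (CovZ.leaf K2_ok TB_l24231 _)
           (CovZ.n1 (-15840, 8448) (by decide +kernel)
            (CovZ.leaf K2_ok TB_l24232 _)
            (CovZ.leaf K2_ok TB_l24233 _)))
          (CovZ.n1 (-16032, 8352) (by decide +kernel)
           (CovZ.n2 (-16032, 8448) (by decide +kernel)
            (CovZ.leaf K2_ok TB_l24234 _)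
            (CovZ.leaf K2_ok TB_l24235 _))
           (CovZ.leaf K2_ok TB_l24236 _)))
         (CovZ.subM 1042970377055046901373964896080724902716410048587141331644686356639249822795639535373482201128 (by decide +kernel)
          (CovZ.n1 (-15744, 8256) (by decide +kernel)
           (CovZ.n2 (-15840, 8160) (by decide +kernel)
            (CovZ.n2 (-15840, 8256) (by decide +kernel)
             (CovZ.leaf K2_ok TB_l24237 _)
             (CovZ.leaf K2_ok TB_l24238 _))
            (CovZ.leaf K2_ok TB_l24239 _))
           (CovZ.n1 (-15840, 8352) (by decide +kernel)
            (CovZ.leaf K2_ok TB_l24240 _)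
            (CovZ.n1 (-15840, 8256) (by decide +kernel)
             (CovZ.leaf K2_ok TB_l24241 _)
             (CovZ.leaf K2_ok TB_l24242 _)))))))
       (CovZ.subM 7957171790025204520703615123284258058231030181971318982446569806597316811141257826926632 (by decide +kernel)
        (CovZ.n1 (-15360, 8064) (by decide +kernel)
         (CovZ.n2 (-15552, 7872) (by decide +kernel)
          (CovZ.n2 (-15552, 8064) (by decide +kernel)
           (CovZ.n2 (-15456, 7968) (by decide +kernel)
            (CovZ.leaf K2_ok TB_l24243 _)
            (CovZ.n1 (-15456, 8064) (by decide +kernel)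
             (CovZ.leaf K2_ok TB_l24244 _)
             (CovZ.leaf K2_ok TB_l24245 _)))
           (CovZ.n1 (-15648, 7968) (by decide +kernel)
            (CovZ.n2 (-15648, 8064) (by decide +kernel)
             (CovZ.leaf K2_ok TB_l24246 _)
             (CovZ.leaf K2_ok TB_l24247 _))
            (CovZ.leaf K2_ok TB_l24248 _)))
          (CovZ.n1 (-15360, 7872) (by decide +kernel)
           (CovZ.n2 (-15456, 7776) (by decide +kernel)
            (CovZ.n2 (-15456, 7872) (by decide +kernel)
             (CovZ.leaf K2_ok TB_l24249 _)
             (CovZ.leaf K2_ok TB_l24250 _))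
            (CovZ.leaf K2_ok TB_l24251 _))
           (CovZ.n1 (-15456, 7968) (by decide +kernel)
            (CovZ.leaf K2_ok TB_l24252 _)
            (CovZ.n1 (-15456, 7872) (by decide +kernel)
             (CovZ.leaf K2_ok TB_l24253 _)
             (CovZ.leaf K2_ok TB_l24254 _)))))
         (CovZ.n1 (-15552, 8256) (by decide +kernel)
          (CovZ.n2 (-15360, 8256) (by decide +kernel)
           (CovZ.n2 (-15456, 8160) (by decide +kernel)
            (CovZ.n2 (-15456, 8256) (by decide +kernel)
             (CovZ.leaf K2_ok TB_l24255 _)
             (CovZ.leaf K2_ok TB_l24256 _))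
            (CovZ.leaf K2_ok TB_l24257 _))
           (CovZ.n1 (-15456, 8352) (by decide +kernel)
            (CovZ.leaf K2_ok TB_l24258 _)
            (CovZ.n1 (-15456, 8256) (by decide +kernel)
             (CovZ.leaf K2_ok TB_l24259 _)
             (CovZ.leaf K2_ok TB_l24260 _))))
          (CovZ.n1 (-15552, 8064) (by decide +kernel)
           (CovZ.n2 (-15648, 8160) (by decide +kernel)
            (CovZ.leaf K2_ok TB_l24261 _)
            (CovZ.n1 (-15648, 8064) (by decide +kernel)
             (CovZ.leaf K2_ok TB_l24262 _)
             (CovZ.leaf K2_ok TB_l24263 _)))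
           (CovZ.n1 (-15456, 8160) (by decide +kernel)
            (CovZ.n2 (-15456, 8064) (by decide +kernel)
             (CovZ.leaf K2_ok TB_l24264 _)
             (CovZ.leaf K2_ok TB_l24265 _))
            (CovZ.leaf K2_ok TB_l24266 _)))))))
      (CovZ.n1 (-15744, 8832) (by decide +kernel)
       (CovZ.subM 1042970377055046901373964896080724902716410048587141331644686356639249860574571397780888092712 (by decide +kernel)
        (CovZ.n2 (-15360, 8832) (by decide +kernel)
         (CovZ.n2 (-15552, 8640) (by decide +kernel)
          (CovZ.n2 (-15552, 8832) (by decide +kernel)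
           (CovZ.n2 (-15456, 8736) (by decide +kernel)
            (CovZ.leaf K2_ok TB_l24267 _)
            (CovZ.n1 (-15456, 8832) (by decide +kernel)
             (CovZ.leaf K2_ok TB_l24268 _)
             (CovZ.leaf K2_ok TB_l24269 _)))
           (CovZ.n1 (-15648, 8736) (by decide +kernel)
            (CovZ.n2 (-15648, 8832) (by decide +kernel)
             (CovZ.leaf K2_ok TB_l24270 _)
             (CovZ.leaf K2_ok TB_l24271 _))
            (CovZ.leaf K2_ok TB_l24272 _)))
          (CovZ.n1 (-15360, 8640) (by decide +kernel)
           (CovZ.n2 (-15456, 8544) (by decide +kernel)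
            (CovZ.n2 (-15456, 8640) (by decide +kernel)
             (CovZ.leaf K2_ok TB_l24273 _)
             (CovZ.leaf K2_ok TB_l24274 _))
            (CovZ.leaf K2_ok TB_l24275 _))
           (CovZ.n1 (-15456, 8736) (by decide +kernel)
            (CovZ.leaf K2_ok TB_l24276 _)
            (CovZ.n1 (-15456, 8640) (by decide +kernel)
             (CovZ.leaf K2_ok TB_l24277 _)
             (CovZ.leaf K2_ok TB_l24278 _)))))
         (CovZ.n1 (-15552, 9024) (by decide +kernel)
          (CovZ.n2 (-15360, 9024) (by decide +kernel)
           (CovZ.n2 (-15456, 8928) (by decide +kernel)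
            (CovZ.n2 (-15456, 9024) (by decide +kernel)
             (CovZ.leaf K2_ok TB_l24279 _)
             (CovZ.leaf K2_ok TB_l24280 _))
            (CovZ.leaf K2_ok TB_l24281 _))
           (CovZ.n1 (-15456, 9120) (by decide +kernel)
            (CovZ.leaf K2_ok TB_l24282 _)
            (CovZ.n1 (-15456, 9024) (by decide +kernel)
             (CovZ.leaf K2_ok TB_l24283 _)
             (CovZ.leaf K2_ok TB_l24284 _))))
          (CovZ.n1 (-15552, 8832) (by decide +kernel)
           (CovZ.n2 (-15648, 8928) (by decide +kernel)
            (CovZ.leaf K2_ok TB_l24285 _)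
            (CovZ.n1 (-15648, 8832) (by decide +kernel)
             (CovZ.leaf K2_ok TB_l24286 _)
             (CovZ.leaf K2_ok TB_l24287 _)))
           (CovZ.n1 (-15456, 8928) (by decide +kernel)
            (CovZ.n2 (-15456, 8832) (by decide +kernel)
             (CovZ.leaf K2_ok TB_l24288 _)
             (CovZ.leaf K2_ok TB_l24289 _))
            (CovZ.leaf K2_ok TB_l24290 _))))))
       (CovZ.n1 (-15744, 8448) (by decide +kernel)
        (CovZ.n2 (-15936, 8640) (by decide +kernel)
         (CovZ.subM 1042970377055046901373964896080724902716410048587141331644686356639249860574571398330643910696 (by decide +kernel)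
          (CovZ.n2 (-15744, 8640) (by decide +kernel)
           (CovZ.n2 (-15840, 8544) (by decide +kernel)
            (CovZ.n2 (-15840, 8640) (by decide +kernel)
             (CovZ.leaf K2_ok TB_l24291 _)
             (CovZ.leaf K2_ok TB_l24292 _))
            (CovZ.leaf K2_ok TB_l24293 _))
           (CovZ.n1 (-15840, 8736) (by decide +kernel)
            (CovZ.leaf K2_ok TB_l24294 _)
            (CovZ.n1 (-15840, 8640) (by decide +kernel)
             (CovZ.leaf K2_ok TB_l24295 _)
             (CovZ.leaf K2_ok TB_l24296 _)))))
         (CovZ.n1 (-15936, 8448) (by decide +kernel)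
          (CovZ.n2 (-16032, 8544) (by decide +kernel)
           (CovZ.leaf K2_ok TB_l24297 _)
           (CovZ.n1 (-16032, 8448) (by decide +kernel)
            (CovZ.leaf K2_ok TB_l24298 _)
            (CovZ.leaf K2_ok TB_l24299 _)))
          (CovZ.n1 (-15840, 8544) (by decide +kernel)
           (CovZ.n2 (-15840, 8448) (by decide +kernel)
            (CovZ.leaf K2_ok TB_l24300 _)
            (CovZ.leaf K2_ok TB_l24301 _))
           (CovZ.leaf K2_ok TB_l24302 _))))
        (CovZ.subM 1042970377055046901373964896080724902716410048587141331644686356639249860574571397780888092712 (by decide +kernel)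
         (CovZ.n1 (-15552, 8640) (by decide +kernel)
          (CovZ.n2 (-15552, 8448) (by decide +kernel)
           (CovZ.n2 (-15648, 8544) (by decide +kernel)
            (CovZ.leaf K2_ok TB_l24303 _)
            (CovZ.n1 (-15648, 8448) (by decide +kernel)
             (CovZ.leaf K2_ok TB_l24304 _)
             (CovZ.leaf K2_ok TB_l24305 _)))
           (CovZ.n1 (-15456, 8544) (by decide +kernel)
            (CovZ.n2 (-15456, 8448) (by decide +kernel)
             (CovZ.leaf K2_ok TB_l24306 _)
             (CovZ.leaf K2_ok TB_l24307 _))
            (CovZ.leaf K2_ok TB_l24308 _)))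
          (CovZ.n1 (-15744, 8640) (by decide +kernel)
           (CovZ.n2 (-15648, 8736) (by decide +kernel)
            (CovZ.n2 (-15648, 8640) (by decide +kernel)
             (CovZ.leaf K2_ok TB_l24309 _)
             (CovZ.leaf K2_ok TB_l24310 _))
            (CovZ.leaf K2_ok TB_l24311 _))
           (CovZ.n1 (-15648, 8544) (by decide +kernel)
            (CovZ.leaf K2_ok TB_l24312 _)
            (CovZ.n1 (-15648, 8640) (by decide +kernel)
             (CovZ.leaf K2_ok TB_l24313 _)
             (CovZ.leaf K2_ok TB_l24314 _))))))))))

theorem TB_u278 : CovZ TB_M (toL (selN TB_LN 19701004346003830368239367055427996879104431951935748783282298338843087802259294902456242536024811935994068540067880)) [0, 7, 6, 1] (-16128, 8448) (-16896, 7680) (-15360, 7680) :=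
    (CovZ.n1 (-16128, 7680) (by decide +kernel)
     (CovZ.n2 (-16512, 8064) (by decide +kernel)
      (CovZ.n2 (-16128, 8064) (by decide +kernel)
       (CovZ.n2 (-16320, 7872) (by decide +kernel)
        (CovZ.n2 (-16320, 8064) (by decide +kernel)
         (CovZ.n2 (-16224, 7968) (by decide +kernel)
          (CovZ.leaf K2_ok TB_l24315 _)
          (CovZ.n1 (-16224, 8064) (by decide +kernel)
           (CovZ.leaf K2_ok TB_l24316 _)
           (CovZ.leaf K2_ok TB_l24317 _)))
         (CovZ.n1 (-16416, 7968) (by decide +kernel)
          (CovZ.n2 (-16416, 8064) (by decide +kernel)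
           (CovZ.leaf K2_ok TB_l24318 _)
           (CovZ.leaf K2_ok TB_l24319 _))
          (CovZ.n1 (-16320, 7968) (by decide +kernel)
           (CovZ.leaf K2_ok TB_l24320 _)
           (CovZ.leaf K2_ok TB_l24321 _))))
        (CovZ.n1 (-16128, 7872) (by decide +kernel)
         (CovZ.n2 (-16224, 7776) (by decide +kernel)
          (CovZ.n2 (-16224, 7872) (by decide +kernel)
           (CovZ.leaf K2_ok TB_l24322 _)
           (CovZ.leaf K2_ok TB_l24323 _))
          (CovZ.leaf K2_ok TB_l24324 _))
         (CovZ.n1 (-16224, 7968) (by decide +kernel)
          (CovZ.n2 (-16128, 7968) (by decide +kernel)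
           (CovZ.leaf K2_ok TB_l24325 _)
           (CovZ.leaf K2_ok TB_l24326 _))
          (CovZ.n1 (-16224, 7872) (by decide +kernel)
           (CovZ.leaf K2_ok TB_l24327 _)
           (CovZ.leaf K2_ok TB_l24328 _)))))
       (CovZ.n1 (-16320, 8256) (by decide +kernel)
        (CovZ.n2 (-16128, 8256) (by decide +kernel)
         (CovZ.n2 (-16224, 8160) (by decide +kernel)
          (CovZ.n2 (-16224, 8256) (by decide +kernel)
           (CovZ.leaf K2_ok TB_l24329 _)
           (CovZ.leaf K2_ok TB_l24330 _))
          (CovZ.n1 (-16128, 8160) (by decide +kernel)
           (CovZ.leaf K2_ok TB_l24331 _)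
           (CovZ.leaf K2_ok TB_l24332 _)))
         (CovZ.n1 (-16224, 8352) (by decide +kernel)
          (CovZ.leaf K2_ok TB_l24333 _)
          (CovZ.n1 (-16224, 8256) (by decide +kernel)
           (CovZ.leaf K2_ok TB_l24334 _)
           (CovZ.leaf K2_ok TB_l24335 _))))
        (CovZ.n1 (-16320, 8064) (by decide +kernel)
         (CovZ.n2 (-16416, 8160) (by decide +kernel)
          (CovZ.n2 (-16320, 8160) (by decide +kernel)
           (CovZ.leaf K2_ok TB_l24336 _)
           (CovZ.leaf K2_ok TB_l24337 _))
          (CovZ.n1 (-16416, 8064) (by decide +kernel)
           (CovZ.leaf K2_ok TB_l24338 _)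
           (CovZ.leaf K2_ok TB_l24339 _)))
         (CovZ.n1 (-16224, 8160) (by decide +kernel)
          (CovZ.n2 (-16224, 8064) (by decide +kernel)
           (CovZ.leaf K2_ok TB_l24340 _)
           (CovZ.leaf K2_ok TB_l24341 _))
          (CovZ.leaf K2_ok TB_l24342 _)))))
      (CovZ.n1 (-16512, 7680) (by decide +kernel)
       (CovZ.n2 (-16704, 7872) (by decide +kernel)
        (CovZ.n2 (-16512, 7872) (by decide +kernel)
         (CovZ.n2 (-16608, 7776) (by decide +kernel)
          (CovZ.n2 (-16608, 7872) (by decide +kernel)
           (CovZ.leaf K2_ok TB_l24343 _)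
           (CovZ.leaf K2_ok TB_l24344 _))
          (CovZ.leaf K2_ok TB_l24345 _))
         (CovZ.n1 (-16608, 7968) (by decide +kernel)
          (CovZ.n2 (-16512, 7968) (by decide +kernel)
           (CovZ.leaf K2_ok TB_l24346 _)
           (CovZ.leaf K2_ok TB_l24347 _))
          (CovZ.n1 (-16608, 7872) (by decide +kernel)
           (CovZ.leaf K2_ok TB_l24348 _)
           (CovZ.leaf K2_ok TB_l24349 _))))
        (CovZ.n1 (-16704, 7680) (by decide +kernel)
         (CovZ.subM 19701004345860486704738944619553850882153034036903194908923674755231395641278894995021474603841282372463808229670952 (by decide +kernel)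
          (CovZ.n2 (-16800, 7776) (by decide +kernel)
           (CovZ.n2 (-16704, 7776) (by decide +kernel)
            (CovZ.leaf K2_ok TB_l24350 _)
            (CovZ.leaf K2_ok TB_l24351 _))
           (CovZ.n1 (-16800, 7680) (by decide +kernel)
            (CovZ.n2 (-16848, 7728) (by decide +kernel)
             (CovZ.leaf K2_ok TB_l24352 _)
             (CovZ.subM 521990484477301789075679594043658364887473922574592259935972791980588589955385855067276967936 (by decide +kernel)
              (CovZ.n1 (-16848, 7680) (by decide +kernel)
               (CovZ.n2 (-16872, 7704) (by decide +kernel)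
                (CovZ.leaf K2_ok TB_l24353 _)
                (CovZ.n1 (-16872, 7680) (by decide +kernel)
                 (CovZ.leaf K2_ok TB_l24354 _)
                 (CovZ.leaf K2_ok TB_l24355 _)))
               (CovZ.leaf K2_ok TB_l24356 _))))
            (CovZ.n1 (-16752, 7728) (by decide +kernel)
             (CovZ.n2 (-16752, 7680) (by decide +kernel)
              (CovZ.leaf K2_ok TB_l24357 _)
              (CovZ.leaf K2_ok TB_l24358 _))
             (CovZ.leaf K2_ok TB_l24359 _)))))
         (CovZ.n1 (-16608, 7776) (by decide +kernel)
          (CovZ.n2 (-16608, 7680) (by decide +kernel)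
           (CovZ.leaf K2_ok TB_l24360 _)
           (CovZ.leaf K2_ok TB_l24361 _))
          (CovZ.leaf K2_ok TB_l24362 _))))
       (CovZ.n1 (-16320, 7872) (by decide +kernel)
        (CovZ.n2 (-16320, 7680) (by decide +kernel)
         (CovZ.n2 (-16416, 7776) (by decide +kernel)
          (CovZ.n2 (-16320, 7776) (by decide +kernel)
           (CovZ.leaf K2_ok TB_l24363 _)
           (CovZ.leaf K2_ok TB_l24364 _))
          (CovZ.n1 (-16416, 7680) (by decide +kernel)
           (CovZ.leaf K2_ok TB_l24365 _)
           (CovZ.leaf K2_ok TB_l24366 _)))
         (CovZ.n1 (-16224, 7776) (by decide +kernel)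
          (CovZ.n2 (-16224, 7680) (by decide +kernel)
           (CovZ.leaf K2_ok TB_l24367 _)
           (CovZ.leaf K2_ok TB_l24368 _))
          (CovZ.leaf K2_ok TB_l24369 _)))
        (CovZ.n1 (-16512, 7872) (by decide +kernel)
         (CovZ.n2 (-16416, 7968) (by decide +kernel)
          (CovZ.n2 (-16416, 7872) (by decide +kernel)
           (CovZ.leaf K2_ok TB_l24370 _)
           (CovZ.leaf K2_ok TB_l24371 _))
          (CovZ.leaf K2_ok TB_l24372 _))
         (CovZ.n1 (-16416, 7776) (by decide +kernel)
          (CovZ.leaf K2_ok TB_l24373 _)
          (CovZ.n1 (-16416, 7872) (by decide +kernel)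
           (CovZ.leaf K2_ok TB_l24374 _)
           (CovZ.leaf K2_ok TB_l24375 _)))))))
     (CovZ.subM 1042970377055046908838935155458116877430035043079186114232600243552457104475752172891901268008 (by decide +kernel)
      (CovZ.n1 (-15744, 8064) (by decide +kernel)
       (CovZ.n2 (-15744, 7680) (by decide +kernel)
        (CovZ.n2 (-15936, 7872) (by decide +kernel)
         (CovZ.subM 7957171790025204520703615123284258058231030181971318982446569806597316811141807582744616 (by decide +kernel)
          (CovZ.n2 (-15744, 7872) (by decide +kernel)
           (CovZ.n2 (-15840, 7776) (by decide +kernel)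
            (CovZ.n2 (-15840, 7872) (by decide +kernel)
             (CovZ.leaf K2_ok TB_l24376 _)
             (CovZ.leaf K2_ok TB_l24377 _))
            (CovZ.leaf K2_ok TB_l24378 _))
           (CovZ.n1 (-15840, 7968) (by decide +kernel)
            (CovZ.leaf K2_ok TB_l24379 _)
            (CovZ.n1 (-15840, 7872) (by decide +kernel)
             (CovZ.leaf K2_ok TB_l24380 _)
             (CovZ.leaf K2_ok TB_l24381 _)))))
         (CovZ.n1 (-15936, 7680) (by decide +kernel)
          (CovZ.n2 (-16032, 7776) (by decide +kernel)
           (CovZ.leaf K2_ok TB_l24382 _)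
           (CovZ.n1 (-16032, 7680) (by decide +kernel)
            (CovZ.leaf K2_ok TB_l24383 _)
            (CovZ.leaf K2_ok TB_l24384 _)))
          (CovZ.n1 (-15840, 7776) (by decide +kernel)
           (CovZ.n2 (-15840, 7680) (by decide +kernel)
            (CovZ.leaf K2_ok TB_l24385 _)
            (CovZ.leaf K2_ok TB_l24386 _))
           (CovZ.leaf K2_ok TB_l24387 _))))
        (CovZ.subM 7957171790025204520703615123284258058231030181971318982446569806597316811141257826926632 (by decide +kernel)
         (CovZ.n1 (-15552, 7872) (by decide +kernel)
          (CovZ.n2 (-15552, 7680) (by decide +kernel)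
           (CovZ.n2 (-15648, 7776) (by decide +kernel)
            (CovZ.leaf K2_ok TB_l24388 _)
            (CovZ.n1 (-15648, 7680) (by decide +kernel)
             (CovZ.leaf K2_ok TB_l24389 _)
             (CovZ.leaf K2_ok TB_l24390 _)))
           (CovZ.n1 (-15456, 7776) (by decide +kernel)
            (CovZ.n2 (-15456, 7680) (by decide +kernel)
             (CovZ.leaf K2_ok TB_l24391 _)
             (CovZ.leaf K2_ok TB_l24392 _))
            (CovZ.leaf K2_ok TB_l24393 _)))
          (CovZ.n1 (-15744, 7872) (by decide +kernel)
           (CovZ.n2 (-15648, 7968) (by decide +kernel)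
            (CovZ.n2 (-15648, 7872) (by decide +kernel)
             (CovZ.leaf K2_ok TB_l24394 _)
             (CovZ.leaf K2_ok TB_l24395 _))
            (CovZ.leaf K2_ok TB_l24396 _))
           (CovZ.n1 (-15648, 7776) (by decide +kernel)
            (CovZ.leaf K2_ok TB_l24397 _)
            (CovZ.n1 (-15648, 7872) (by decide +kernel)
             (CovZ.leaf K2_ok TB_l24398 _)
             (CovZ.leaf K2_ok TB_l24399 _)))))))
       (CovZ.n1 (-16128, 8064) (by decide +kernel)
        (CovZ.n2 (-15936, 8256) (by decide +kernel)
         (CovZ.n2 (-15936, 8064) (by decide +kernel)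
          (CovZ.n2 (-16032, 8160) (by decide +kernel)
           (CovZ.n2 (-15936, 8160) (by decide +kernel)
            (CovZ.leaf K2_ok TB_l24400 _)
            (CovZ.leaf K2_ok TB_l24401 _))
           (CovZ.n1 (-16032, 8064) (by decide +kernel)
            (CovZ.leaf K2_ok TB_l24402 _)
            (CovZ.leaf K2_ok TB_l24403 _)))
          (CovZ.n1 (-15840, 8160) (by decide +kernel)
           (CovZ.n2 (-15840, 8064) (by decide +kernel)
            (CovZ.leaf K2_ok TB_l24404 _)
            (CovZ.leaf K2_ok TB_l24405 _))
           (CovZ.leaf K2_ok TB_l24406 _)))
         (CovZ.n1 (-16128, 8256) (by decide +kernel)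
          (CovZ.n2 (-16032, 8352) (by decide +kernel)
           (CovZ.n2 (-16032, 8256) (by decide +kernel)
            (CovZ.leaf K2_ok TB_l24407 _)
            (CovZ.leaf K2_ok TB_l24408 _))
           (CovZ.leaf K2_ok TB_l24409 _))
          (CovZ.n1 (-16032, 8160) (by decide +kernel)
           (CovZ.leaf K2_ok TB_l24410 _)
           (CovZ.n1 (-16032, 8256) (by decide +kernel)
            (CovZ.leaf K2_ok TB_l24411 _)
            (CovZ.leaf K2_ok TB_l24412 _)))))
        (CovZ.n1 (-15936, 7872) (by decide +kernel)
         (CovZ.n2 (-16128, 7872) (by decide +kernel)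
          (CovZ.n2 (-16032, 7968) (by decide +kernel)
           (CovZ.n2 (-16032, 7872) (by decide +kernel)
            (CovZ.leaf K2_ok TB_l24413 _)
            (CovZ.leaf K2_ok TB_l24414 _))
           (CovZ.leaf K2_ok TB_l24415 _))
          (CovZ.n1 (-16032, 7776) (by decide +kernel)
           (CovZ.leaf K2_ok TB_l24416 _)
           (CovZ.n1 (-16032, 7872) (by decide +kernel)
            (CovZ.leaf K2_ok TB_l24417 _)
            (CovZ.leaf K2_ok TB_l24418 _))))
         (CovZ.n1 (-15936, 8064) (by decide +kernel)
          (CovZ.n2 (-15840, 7968) (by decide +kernel)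
           (CovZ.leaf K2_ok TB_l24419 _)
           (CovZ.n1 (-15840, 8064) (by decide +kernel)
            (CovZ.leaf K2_ok TB_l24420 _)
            (CovZ.leaf K2_ok TB_l24421 _)))
          (CovZ.n1 (-16032, 7968) (by decide +kernel)
           (CovZ.n2 (-16032, 8064) (by decide +kernel)
            (CovZ.leaf K2_ok TB_l24422 _)
            (CovZ.leaf K2_ok TB_l24423 _))
           (CovZ.leaf K2_ok TB_l24424 _))))))))

theorem TB_u279 : CovZ TB_M (toL (selN TB_LN 19701079499366619114949045631818915596236737706045919965627313349449086529124840579380562561010136818352607106961448)) [0, 7, 6, 1] (-16896, 7680) (-16128, 8448) (-16896, 9216) :=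
    (CovZ.n2 (-16896, 8448) (by decide +kernel)
     (CovZ.n2 (-16512, 8832) (by decide +kernel)
      (CovZ.n2 (-16512, 8448) (by decide +kernel)
       (CovZ.n2 (-16704, 8640) (by decide +kernel)
        (CovZ.n2 (-16512, 8640) (by decide +kernel)
         (CovZ.n2 (-16608, 8544) (by decide +kernel)
          (CovZ.n2 (-16608, 8640) (by decide +kernel)
           (CovZ.leaf K2_ok TB_l24425 _)
           (CovZ.leaf K2_ok TB_l24426 _))
          (CovZ.leaf K2_ok TB_l24427 _))
         (CovZ.n1 (-16608, 8736) (by decide +kernel)
          (CovZ.leaf K2_ok TB_l24428 _)
          (CovZ.n1 (-16608, 8640) (by decide +kernel)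
           (CovZ.leaf K2_ok TB_l24429 _)
           (CovZ.leaf K2_ok TB_l24430 _))))
        (CovZ.n1 (-16704, 8448) (by decide +kernel)
         (CovZ.n2 (-16800, 8544) (by decide +kernel)
          (CovZ.leaf K2_ok TB_l24431 _)
          (CovZ.n1 (-16800, 8448) (by decide +kernel)
           (CovZ.leaf K2_ok TB_l24432 _)
           (CovZ.leaf K2_ok TB_l24433 _)))
         (CovZ.n1 (-16608, 8544) (by decide +kernel)
          (CovZ.n2 (-16608, 8448) (by decide +kernel)
           (CovZ.leaf K2_ok TB_l24434 _)
           (CovZ.leaf K2_ok TB_l24435 _))
          (CovZ.leaf K2_ok TB_l24436 _))))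
       (CovZ.n1 (-16320, 8640) (by decide +kernel)
        (CovZ.n2 (-16320, 8448) (by decide +kernel)
         (CovZ.n2 (-16416, 8544) (by decide +kernel)
          (CovZ.leaf K2_ok TB_l24437 _)
          (CovZ.n1 (-16416, 8448) (by decide +kernel)
           (CovZ.leaf K2_ok TB_l24438 _)
           (CovZ.leaf K2_ok TB_l24439 _)))
         (CovZ.n1 (-16224, 8544) (by decide +kernel)
          (CovZ.n2 (-16224, 8448) (by decide +kernel)
           (CovZ.leaf K2_ok TB_l24440 _)
           (CovZ.leaf K2_ok TB_l24441 _))
          (CovZ.leaf K2_ok TB_l24442 _)))
        (CovZ.n1 (-16512, 8640) (by decide +kernel)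
         (CovZ.n2 (-16416, 8736) (by decide +kernel)
          (CovZ.n2 (-16416, 8640) (by decide +kernel)
           (CovZ.leaf K2_ok TB_l24443 _)
           (CovZ.leaf K2_ok TB_l24444 _))
          (CovZ.leaf K2_ok TB_l24445 _))
         (CovZ.n1 (-16416, 8544) (by decide +kernel)
          (CovZ.leaf K2_ok TB_l24446 _)
          (CovZ.n1 (-16416, 8640) (by decide +kernel)
           (CovZ.leaf K2_ok TB_l24447 _)
           (CovZ.leaf K2_ok TB_l24448 _))))))
      (CovZ.n1 (-16896, 8832) (by decide +kernel)
       (CovZ.n2 (-16704, 9024) (by decide +kernel)
        (CovZ.n2 (-16704, 8832) (by decide +kernel)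
         (CovZ.n2 (-16800, 8928) (by decide +kernel)
          (CovZ.leaf K2_ok TB_l24449 _)
          (CovZ.n1 (-16800, 8832) (by decide +kernel)
           (CovZ.leaf K2_ok TB_l24450 _)
           (CovZ.leaf K2_ok TB_l24451 _)))
         (CovZ.n1 (-16608, 8928) (by decide +kernel)
          (CovZ.n2 (-16608, 8832) (by decide +kernel)
           (CovZ.leaf K2_ok TB_l24452 _)
           (CovZ.leaf K2_ok TB_l24453 _))
          (CovZ.leaf K2_ok TB_l24454 _)))
        (CovZ.n1 (-16896, 9024) (by decide +kernel)
         (CovZ.n2 (-16800, 9120) (by decide +kernel)
          (CovZ.n2 (-16800, 9024) (by decide +kernel)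
           (CovZ.leaf K2_ok TB_l24455 _)
           (CovZ.leaf K2_ok TB_l24456 _))
          (CovZ.leaf K2_ok TB_l24457 _))
         (CovZ.n1 (-16800, 8928) (by decide +kernel)
          (CovZ.leaf K2_ok TB_l24458 _)
          (CovZ.n1 (-16800, 9024) (by decide +kernel)
           (CovZ.leaf K2_ok TB_l24459 _)
           (CovZ.leaf K2_ok TB_l24460 _)))))
       (CovZ.n1 (-16704, 8640) (by decide +kernel)
        (CovZ.n2 (-16896, 8640) (by decide +kernel)
         (CovZ.n2 (-16800, 8736) (by decide +kernel)
          (CovZ.n2 (-16800, 8640) (by decide +kernel)
           (CovZ.leaf K2_ok TB_l24461 _)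
           (CovZ.leaf K2_ok TB_l24462 _))
          (CovZ.leaf K2_ok TB_l24463 _))
         (CovZ.n1 (-16800, 8544) (by decide +kernel)
          (CovZ.leaf K2_ok TB_l24464 _)
          (CovZ.n1 (-16800, 8640) (by decide +kernel)
           (CovZ.leaf K2_ok TB_l24465 _)
           (CovZ.leaf K2_ok TB_l24466 _))))
        (CovZ.n1 (-16704, 8832) (by decide +kernel)
         (CovZ.n2 (-16608, 8736) (by decide +kernel)
          (CovZ.leaf K2_ok TB_l24467 _)
          (CovZ.n1 (-16608, 8832) (by decide +kernel)
           (CovZ.leaf K2_ok TB_l24468 _)
           (CovZ.leaf K2_ok TB_l24469 _)))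
         (CovZ.n1 (-16800, 8736) (by decide +kernel)
          (CovZ.n2 (-16800, 8832) (by decide +kernel)
           (CovZ.leaf K2_ok TB_l24470 _)
           (CovZ.leaf K2_ok TB_l24471 _))
          (CovZ.leaf K2_ok TB_l24472 _))))))
     (CovZ.n1 (-16512, 8064) (by decide +kernel)
      (CovZ.n2 (-16896, 8064) (by decide +kernel)
       (CovZ.n2 (-16704, 8256) (by decide +kernel)
        (CovZ.n2 (-16704, 8064) (by decide +kernel)
         (CovZ.n2 (-16800, 8160) (by decide +kernel)
          (CovZ.leaf K2_ok TB_l24473 _)
          (CovZ.n1 (-16800, 8064) (by decide +kernel)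
           (CovZ.leaf K2_ok TB_l24474 _)
           (CovZ.leaf K2_ok TB_l24475 _)))
         (CovZ.n1 (-16608, 8160) (by decide +kernel)
          (CovZ.n2 (-16608, 8064) (by decide +kernel)
           (CovZ.leaf K2_ok TB_l24476 _)
           (CovZ.leaf K2_ok TB_l24477 _))
          (CovZ.leaf K2_ok TB_l24478 _)))
        (CovZ.n1 (-16896, 8256) (by decide +kernel)
         (CovZ.n2 (-16800, 8352) (by decide +kernel)
          (CovZ.n2 (-16800, 8256) (by decide +kernel)
           (CovZ.leaf K2_ok TB_l24479 _)
           (CovZ.leaf K2_ok TB_l24480 _))
          (CovZ.leaf K2_ok TB_l24481 _))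
         (CovZ.n1 (-16800, 8160) (by decide +kernel)
          (CovZ.leaf K2_ok TB_l24482 _)
          (CovZ.n1 (-16800, 8256) (by decide +kernel)
           (CovZ.leaf K2_ok TB_l24483 _)
           (CovZ.leaf K2_ok TB_l24484 _)))))
       (CovZ.n1 (-16704, 7872) (by decide +kernel)
        (CovZ.n2 (-16896, 7872) (by decide +kernel)
         (CovZ.n2 (-16800, 7968) (by decide +kernel)
          (CovZ.n2 (-16800, 7872) (by decide +kernel)
           (CovZ.leaf K2_ok TB_l24485 _)
           (CovZ.leaf K2_ok TB_l24486 _))
          (CovZ.leaf K2_ok TB_l24487 _))
         (CovZ.subM 19701004345860486704738944619553850941438583726409086965792019079679604462153127143829443392043565384515330605318184 (by decide +kernel)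
          (CovZ.n1 (-16800, 7776) (by decide +kernel)
           (CovZ.n2 (-16896, 7776) (by decide +kernel)
            (CovZ.n2 (-16848, 7824) (by decide +kernel)
             (CovZ.leaf K2_ok TB_l24488 _)
             (CovZ.leaf K2_ok TB_l24489 _))
            (CovZ.n1 (-16848, 7728) (by decide +kernel)
             (CovZ.n2 (-16896, 7728) (by decide +kernel)
              (CovZ.leaf K2_ok TB_l24490 _)
              (CovZ.n1 (-16872, 7704) (by decide +kernel)
               (CovZ.leaf K2_ok TB_l24491 _)
               (CovZ.leaf K2_ok TB_l24492 _)))
             (CovZ.leaf K2_ok TB_l24493 _)))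
           (CovZ.n1 (-16800, 7872) (by decide +kernel)
            (CovZ.leaf K2_ok TB_l24494 _)
            (CovZ.leaf K2_ok TB_l24495 _)))))
        (CovZ.n1 (-16704, 8064) (by decide +kernel)
         (CovZ.n2 (-16608, 7968) (by decide +kernel)
          (CovZ.leaf K2_ok TB_l24496 _)
          (CovZ.n1 (-16608, 8064) (by decide +kernel)
           (CovZ.leaf K2_ok TB_l24497 _)
           (CovZ.leaf K2_ok TB_l24498 _)))
         (CovZ.n1 (-16800, 7968) (by decide +kernel)
          (CovZ.n2 (-16800, 8064) (by decide +kernel)
           (CovZ.leaf K2_ok TB_l24499 _)
           (CovZ.leaf K2_ok TB_l24500 _))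
          (CovZ.leaf K2_ok TB_l24501 _)))))
      (CovZ.n1 (-16512, 8448) (by decide +kernel)
       (CovZ.n2 (-16320, 8256) (by decide +kernel)
        (CovZ.n2 (-16512, 8256) (by decide +kernel)
         (CovZ.n2 (-16416, 8352) (by decide +kernel)
          (CovZ.n2 (-16416, 8256) (by decide +kernel)
           (CovZ.leaf K2_ok TB_l24502 _)
           (CovZ.leaf K2_ok TB_l24503 _))
          (CovZ.leaf K2_ok TB_l24504 _))
         (CovZ.n1 (-16416, 8160) (by decide +kernel)
          (CovZ.leaf K2_ok TB_l24505 _)
          (CovZ.n1 (-16416, 8256) (by decide +kernel)
           (CovZ.leaf K2_ok TB_l24506 _)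
           (CovZ.leaf K2_ok TB_l24507 _))))
        (CovZ.n1 (-16320, 8448) (by decide +kernel)
         (CovZ.n2 (-16224, 8352) (by decide +kernel)
          (CovZ.leaf K2_ok TB_l24508 _)
          (CovZ.n1 (-16224, 8448) (by decide +kernel)
           (CovZ.leaf K2_ok TB_l24509 _)
           (CovZ.leaf K2_ok TB_l24510 _)))
         (CovZ.n1 (-16416, 8352) (by decide +kernel)
          (CovZ.n2 (-16416, 8448) (by decide +kernel)
           (CovZ.leaf K2_ok TB_l24511 _)
           (CovZ.leaf K2_ok TB_l24512 _))
          (CovZ.leaf K2_ok TB_l24513 _))))
       (CovZ.n1 (-16704, 8256) (by decide +kernel)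
        (CovZ.n2 (-16704, 8448) (by decide +kernel)
         (CovZ.n2 (-16608, 8352) (by decide +kernel)
          (CovZ.leaf K2_ok TB_l24514 _)
          (CovZ.n1 (-16608, 8448) (by decide +kernel)
           (CovZ.leaf K2_ok TB_l24515 _)
           (CovZ.leaf K2_ok TB_l24516 _)))
         (CovZ.n1 (-16800, 8352) (by decide +kernel)
          (CovZ.n2 (-16800, 8448) (by decide +kernel)
           (CovZ.leaf K2_ok TB_l24517 _)
           (CovZ.leaf K2_ok TB_l24518 _))
          (CovZ.leaf K2_ok TB_l24519 _)))
        (CovZ.n1 (-16512, 8256) (by decide +kernel)
         (CovZ.n2 (-16608, 8160) (by decide +kernel)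
          (CovZ.n2 (-16608, 8256) (by decide +kernel)
           (CovZ.leaf K2_ok TB_l24520 _)
           (CovZ.leaf K2_ok TB_l24521 _))
          (CovZ.n1 (-16512, 8160) (by decide +kernel)
           (CovZ.leaf K2_ok TB_l24522 _)
           (CovZ.leaf K2_ok TB_l24523 _)))
         (CovZ.n1 (-16608, 8352) (by decide +kernel)
          (CovZ.leaf K2_ok TB_l24524 _)
          (CovZ.n1 (-16608, 8256) (by decide +kernel)
           (CovZ.leaf K2_ok TB_l24525 _)
           (CovZ.leaf K2_ok TB_l24526 _))))))))

end Pool.Agent.TET
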