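import Pool.Agent.Helper38_TET.TB_M
import Pool.Agent.Helper38_TET.TB_L
import Pool.Agent.Helper38_TET.TB_101
import Pool.Agent.Helper38_TET.TB_102
import Pool.Agent.Helper38_TET.TB_103
import Pool.Agent.Helper38_TET.TB_119
import Pool.Agent.Helper38_TET.TB_120
import Pool.Agent.Helper38_TET.TB_121
import Pool.Agent.Helper38_TET.TB_122
import Pool.Agent.Helper38_TET.TB_128
import Pool.Agent.Helper38_TET.TB_142
import Pool.Agent.Helper38_TET.TB_163
import Pool.Agent.Helper38_TET.TB_164

/-!
# MP_c7c9bf_co: certificates, family TB
-/

set_option autoImplicit false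
set_option maxRecDepth 100000

namespace Pool.Agent.TET

theorem TB_u280 : CovZ TB_M (toL (selN TB_LN 19701079499366619114949045631818915596236737706045919965627313349449086529124840579380562561010136818352607106961448)) [0, 7, 6, 1] (-16128, 8448) (-15360, 9216) (-16896, 9216) :=
    (CovZ.n1 (-16128, 9216) (by decide +kernel)
     (CovZ.subM 1042970377055046908839818578990506069594826691829557573490513985500894951733744838949709287464 (by decide +kernel)
      (CovZ.n2 (-15744, 8832) (by decide +kernel)
       (CovZ.n2 (-16128, 8832) (by decide +kernel)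
        (CovZ.n2 (-15936, 9024) (by decide +kernel)
         (CovZ.n2 (-15936, 8832) (by decide +kernel)
          (CovZ.n2 (-16032, 8928) (by decide +kernel)
           (CovZ.leaf K2_ok TB_l24527 _)
           (CovZ.n1 (-16032, 8832) (by decide +kernel)
            (CovZ.leaf K2_ok TB_l24528 _)
            (CovZ.leaf K2_ok TB_l24529 _)))
          (CovZ.n1 (-15840, 8928) (by decide +kernel)
           (CovZ.n2 (-15840, 8832) (by decide +kernel)
            (CovZ.leaf K2_ok TB_l24530 _)
            (CovZ.leaf K2_ok TB_l24531 _))
           (CovZ.leaf K2_ok TB_l24532 _)))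
         (CovZ.n1 (-16128, 9024) (by decide +kernel)
          (CovZ.n2 (-16032, 9120) (by decide +kernel)
           (CovZ.n2 (-16032, 9024) (by decide +kernel)
            (CovZ.leaf K2_ok TB_l24533 _)
            (CovZ.leaf K2_ok TB_l24534 _))
           (CovZ.leaf K2_ok TB_l24535 _))
          (CovZ.n1 (-16032, 8928) (by decide +kernel)
           (CovZ.leaf K2_ok TB_l24536 _)
           (CovZ.n1 (-16032, 9024) (by decide +kernel)
            (CovZ.leaf K2_ok TB_l24537 _)
            (CovZ.leaf K2_ok TB_l24538 _)))))
        (CovZ.n1 (-15936, 8640) (by decide +kernel)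
         (CovZ.n2 (-16128, 8640) (by decide +kernel)
          (CovZ.n2 (-16032, 8736) (by decide +kernel)
           (CovZ.n2 (-16032, 8640) (by decide +kernel)
            (CovZ.leaf K2_ok TB_l24539 _)
            (CovZ.leaf K2_ok TB_l24540 _))
           (CovZ.leaf K2_ok TB_l24541 _))
          (CovZ.n1 (-16032, 8544) (by decide +kernel)
           (CovZ.leaf K2_ok TB_l24542 _)
           (CovZ.n1 (-16032, 8640) (by decide +kernel)
            (CovZ.leaf K2_ok TB_l24543 _)
            (CovZ.leaf K2_ok TB_l24544 _))))
         (CovZ.n1 (-15936, 8832) (by decide +kernel)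
          (CovZ.n2 (-15840, 8736) (by decide +kernel)
           (CovZ.leaf K2_ok TB_l24545 _)
           (CovZ.n1 (-15840, 8832) (by decide +kernel)
            (CovZ.leaf K2_ok TB_l24546 _)
            (CovZ.leaf K2_ok TB_l24547 _)))
          (CovZ.n1 (-16032, 8736) (by decide +kernel)
           (CovZ.n2 (-16032, 8832) (by decide +kernel)
            (CovZ.leaf K2_ok TB_l24548 _)
            (CovZ.leaf K2_ok TB_l24549 _))
           (CovZ.leaf K2_ok TB_l24550 _)))))
       (CovZ.n1 (-15744, 9216) (by decide +kernel)
        (CovZ.subM 1042970377055046901373964896080724902716410048587141331644686356639249860574571397780888092712 (by decide +kernel)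
         (CovZ.n2 (-15552, 9024) (by decide +kernel)
          (CovZ.n2 (-15744, 9024) (by decide +kernel)
           (CovZ.n2 (-15648, 9120) (by decide +kernel)
            (CovZ.n2 (-15648, 9024) (by decide +kernel)
             (CovZ.leaf K2_ok TB_l24551 _)
             (CovZ.leaf K2_ok TB_l24552 _))
            (CovZ.leaf K2_ok TB_l24553 _))
           (CovZ.n1 (-15648, 8928) (by decide +kernel)
            (CovZ.leaf K2_ok TB_l24554 _)
            (CovZ.n1 (-15648, 9024) (by decide +kernel)
             (CovZ.leaf K2_ok TB_l24555 _)
             (CovZ.leaf K2_ok TB_l24556 _))))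
          (CovZ.n1 (-15552, 9216) (by decide +kernel)
           (CovZ.n2 (-15456, 9120) (by decide +kernel)
            (CovZ.leaf K2_ok TB_l24557 _)
            (CovZ.n1 (-15456, 9216) (by decide +kernel)
             (CovZ.leaf K2_ok TB_l24558 _)
             (CovZ.leaf K2_ok TB_l24559 _)))
           (CovZ.n1 (-15648, 9120) (by decide +kernel)
            (CovZ.n2 (-15648, 9216) (by decide +kernel)
             (CovZ.leaf K2_ok TB_l24560 _)
             (CovZ.leaf K2_ok TB_l24561 _))
            (CovZ.leaf K2_ok TB_l24562 _)))))
        (CovZ.n1 (-15936, 9024) (by decide +kernel)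
         (CovZ.n2 (-15936, 9216) (by decide +kernel)
          (CovZ.n2 (-15840, 9120) (by decide +kernel)
           (CovZ.leaf K2_ok TB_l24563 _)
           (CovZ.n1 (-15840, 9216) (by decide +kernel)
            (CovZ.leaf K2_ok TB_l24564 _)
            (CovZ.leaf K2_ok TB_l24565 _)))
          (CovZ.n1 (-16032, 9120) (by decide +kernel)
           (CovZ.n2 (-16032, 9216) (by decide +kernel)
            (CovZ.leaf K2_ok TB_l24566 _)
            (CovZ.leaf K2_ok TB_l24567 _))
           (CovZ.leaf K2_ok TB_l24568 _)))
         (CovZ.subM 1042970377055046901373964896080724902716410048587141331644686356639249860574571398330643910696 (by decide +kernel)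
          (CovZ.n1 (-15744, 9024) (by decide +kernel)
           (CovZ.n2 (-15840, 8928) (by decide +kernel)
            (CovZ.n2 (-15840, 9024) (by decide +kernel)
             (CovZ.leaf K2_ok TB_l24569 _)
             (CovZ.leaf K2_ok TB_l24570 _))
            (CovZ.leaf K2_ok TB_l24571 _))
           (CovZ.n1 (-15840, 9120) (by decide +kernel)
            (CovZ.leaf K2_ok TB_l24572 _)
            (CovZ.n1 (-15840, 9024) (by decide +kernel)
             (CovZ.leaf K2_ok TB_l24573 _)
             (CovZ.leaf K2_ok TB_l24574 _)))))))))
     (CovZ.n1 (-16512, 8832) (by decide +kernel)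
      (CovZ.n2 (-16512, 9216) (by decide +kernel)
       (CovZ.n2 (-16320, 9024) (by decide +kernel)
        (CovZ.n2 (-16512, 9024) (by decide +kernel)
         (CovZ.n2 (-16416, 9120) (by decide +kernel)
          (CovZ.n2 (-16416, 9024) (by decide +kernel)
           (CovZ.leaf K2_ok TB_l24575 _)
           (CovZ.leaf K2_ok TB_l24576 _))
          (CovZ.leaf K2_ok TB_l24577 _))
         (CovZ.n1 (-16416, 8928) (by decide +kernel)
          (CovZ.leaf K2_ok TB_l24578 _)
          (CovZ.n1 (-16416, 9024) (by decide +kernel)
           (CovZ.leaf K2_ok TB_l24579 _)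
           (CovZ.leaf K2_ok TB_l24580 _))))
        (CovZ.n1 (-16320, 9216) (by decide +kernel)
         (CovZ.n2 (-16224, 9120) (by decide +kernel)
          (CovZ.leaf K2_ok TB_l24581 _)
          (CovZ.n1 (-16224, 9216) (by decide +kernel)
           (CovZ.leaf K2_ok TB_l24582 _)
           (CovZ.leaf K2_ok TB_l24583 _)))
         (CovZ.n1 (-16416, 9120) (by decide +kernel)
          (CovZ.n2 (-16416, 9216) (by decide +kernel)
           (CovZ.leaf K2_ok TB_l24584 _)
           (CovZ.leaf K2_ok TB_l24585 _))
          (CovZ.leaf K2_ok TB_l24586 _))))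
       (CovZ.n1 (-16704, 9024) (by decide +kernel)
        (CovZ.n2 (-16704, 9216) (by decide +kernel)
         (CovZ.n2 (-16608, 9120) (by decide +kernel)
          (CovZ.leaf K2_ok TB_l24587 _)
          (CovZ.n1 (-16608, 9216) (by decide +kernel)
           (CovZ.leaf K2_ok TB_l24588 _)
           (CovZ.leaf K2_ok TB_l24589 _)))
         (CovZ.n1 (-16800, 9120) (by decide +kernel)
          (CovZ.n2 (-16800, 9216) (by decide +kernel)
           (CovZ.leaf K2_ok TB_l24590 _)
           (CovZ.leaf K2_ok TB_l24591 _))
          (CovZ.leaf K2_ok TB_l24592 _)))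
        (CovZ.n1 (-16512, 9024) (by decide +kernel)
         (CovZ.n2 (-16608, 8928) (by decide +kernel)
          (CovZ.n2 (-16608, 9024) (by decide +kernel)
           (CovZ.leaf K2_ok TB_l24593 _)
           (CovZ.leaf K2_ok TB_l24594 _))
          (CovZ.leaf K2_ok TB_l24595 _))
         (CovZ.n1 (-16608, 9120) (by decide +kernel)
          (CovZ.leaf K2_ok TB_l24596 _)
          (CovZ.n1 (-16608, 9024) (by decide +kernel)
           (CovZ.leaf K2_ok TB_l24597 _)
           (CovZ.leaf K2_ok TB_l24598 _))))))
      (CovZ.n1 (-16128, 8832) (by decide +kernel)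
       (CovZ.n2 (-16320, 8640) (by decide +kernel)
        (CovZ.n2 (-16320, 8832) (by decide +kernel)
         (CovZ.n2 (-16224, 8736) (by decide +kernel)
          (CovZ.leaf K2_ok TB_l24599 _)
          (CovZ.n1 (-16224, 8832) (by decide +kernel)
           (CovZ.leaf K2_ok TB_l24600 _)
           (CovZ.leaf K2_ok TB_l24601 _)))
         (CovZ.n1 (-16416, 8736) (by decide +kernel)
          (CovZ.n2 (-16416, 8832) (by decide +kernel)
           (CovZ.leaf K2_ok TB_l24602 _)
           (CovZ.leaf K2_ok TB_l24603 _))
          (CovZ.leaf K2_ok TB_l24604 _)))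
        (CovZ.n1 (-16128, 8640) (by decide +kernel)
         (CovZ.n2 (-16224, 8544) (by decide +kernel)
          (CovZ.n2 (-16224, 8640) (by decide +kernel)
           (CovZ.leaf K2_ok TB_l24605 _)
           (CovZ.leaf K2_ok TB_l24606 _))
          (CovZ.leaf K2_ok TB_l24607 _))
         (CovZ.n1 (-16224, 8736) (by decide +kernel)
          (CovZ.leaf K2_ok TB_l24608 _)
          (CovZ.n1 (-16224, 8640) (by decide +kernel)
           (CovZ.leaf K2_ok TB_l24609 _)
           (CovZ.leaf K2_ok TB_l24610 _)))))
       (CovZ.n1 (-16320, 9024) (by decide +kernel)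
        (CovZ.n2 (-16128, 9024) (by decide +kernel)
         (CovZ.n2 (-16224, 8928) (by decide +kernel)
          (CovZ.n2 (-16224, 9024) (by decide +kernel)
           (CovZ.leaf K2_ok TB_l24611 _)
           (CovZ.leaf K2_ok TB_l24612 _))
          (CovZ.leaf K2_ok TB_l24613 _))
         (CovZ.n1 (-16224, 9120) (by decide +kernel)
          (CovZ.leaf K2_ok TB_l24614 _)
          (CovZ.n1 (-16224, 9024) (by decide +kernel)
           (CovZ.leaf K2_ok TB_l24615 _)
           (CovZ.leaf K2_ok TB_l24616 _))))
        (CovZ.n1 (-16320, 8832) (by decide +kernel)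
         (CovZ.n2 (-16416, 8928) (by decide +kernel)
          (CovZ.leaf K2_ok TB_l24617 _)
          (CovZ.n1 (-16416, 8832) (by decide +kernel)
           (CovZ.leaf K2_ok TB_l24618 _)
           (CovZ.leaf K2_ok TB_l24619 _)))
         (CovZ.n1 (-16224, 8928) (by decide +kernel)
          (CovZ.n2 (-16224, 8832) (by decide +kernel)
           (CovZ.leaf K2_ok TB_l24620 _)
           (CovZ.leaf K2_ok TB_l24621 _))
          (CovZ.leaf K2_ok TB_l24622 _)))))))

theorem TB_u281 : CovZ TB_M (toL (selN TB_LN 631665816743553873388612858716202337208920867230133003189890455038883249160679227285981561237943844681777360278921348)) [0, 7, 6, 1] (-23808, 9984) (-24192, 9600) (-23808, 9216) :=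
    (CovZ.subM 631663411835949099859883151189999678692791471825474728951326265365716413734169652973713456252558390765058803942826116 (by decide +kernel)
       (CovZ.n2 (-23808, 9600) (by decide +kernel)
        (CovZ.n2 (-24000, 9408) (by decide +kernel)
         (CovZ.n2 (-24000, 9600) (by decide +kernel)
          (CovZ.n2 (-23904, 9504) (by decide +kernel)
           (CovZ.n2 (-24000, 9504) (by decide +kernel)
            (CovZ.n2 (-23952, 9552) (by decide +kernel)
             (CovZ.n2 (-23952, 9504) (by decide +kernel)
              (CovZ.leaf K2_ok TB_l15178 _)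
              (CovZ.leaf K2_ok TB_l15179 _))
             (CovZ.leaf K2_ok TB_l15180 _))
            (CovZ.n1 (-23952, 9456) (by decide +kernel)
             (CovZ.leaf K2_ok TB_l15181 _)
             (CovZ.n1 (-23952, 9504) (by decide +kernel)
              (CovZ.leaf K2_ok TB_l15182 _)
              (CovZ.leaf K2_ok TB_l15183 _))))
           (CovZ.n1 (-23904, 9600) (by decide +kernel)
            (CovZ.n2 (-23856, 9552) (by decide +kernel)
             (CovZ.leaf K2_ok TB_l15184 _)
             (CovZ.n1 (-23856, 9600) (by decide +kernel)
              (CovZ.leaf K2_ok TB_l15185 _)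
              (CovZ.leaf K2_ok TB_l15186 _)))
            (CovZ.n1 (-23952, 9552) (by decide +kernel)
             (CovZ.n2 (-23952, 9600) (by decide +kernel)
              (CovZ.leaf K2_ok TB_l15187 _)
              (CovZ.leaf K2_ok TB_l15188 _))
             (CovZ.leaf K2_ok TB_l15189 _))))
          (CovZ.n1 (-24096, 9504) (by decide +kernel)
           (CovZ.n2 (-24096, 9600) (by decide +kernel)
            (CovZ.n2 (-24048, 9552) (by decide +kernel)
             (CovZ.leaf K2_ok TB_l15190 _)
             (CovZ.n1 (-24048, 9600) (by decide +kernel)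
              (CovZ.leaf K2_ok TB_l15191 _)
              (CovZ.leaf K2_ok TB_l15192 _)))
            (CovZ.n1 (-24144, 9552) (by decide +kernel)
             (CovZ.n2 (-24144, 9600) (by decide +kernel)
              (CovZ.leaf K2_ok TB_l15193 _)
              (CovZ.leaf K2_ok TB_l15194 _))
             (CovZ.leaf K2_ok TB_l15195 _)))
           (CovZ.n1 (-24000, 9504) (by decide +kernel)
            (CovZ.n2 (-24048, 9456) (by decide +kernel)
             (CovZ.leaf K2_ok TB_l15196 _)
             (CovZ.leaf K2_ok TB_l15197 _))
            (CovZ.n1 (-24048, 9552) (by decide +kernel)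
             (CovZ.n2 (-24000, 9552) (by decide +kernel)
              (CovZ.leaf K2_ok TB_l15198 _)
              (CovZ.leaf K2_ok TB_l15199 _))
             (CovZ.n1 (-24048, 9504) (by decide +kernel)
              (CovZ.leaf K2_ok TB_l15200 _)
              (CovZ.leaf K2_ok TB_l15201 _))))))
         (CovZ.n1 (-23808, 9408) (by decide +kernel)
          (CovZ.n2 (-23904, 9312) (by decide +kernel)
           (CovZ.n2 (-23904, 9408) (by decide +kernel)
            (CovZ.n2 (-23856, 9360) (by decide +kernel)
             (CovZ.leaf K2_ok TB_l15202 _)
             (CovZ.leaf K2_ok TB_l15203 _))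
            (CovZ.n1 (-23952, 9360) (by decide +kernel)
             (CovZ.leaf K2_ok TB_l15204 _)
             (CovZ.leaf K2_ok TB_l15205 _)))
           (CovZ.n1 (-23808, 9312) (by decide +kernel)
            (CovZ.n2 (-23856, 9264) (by decide +kernel)
             (CovZ.leaf K2_ok TB_l15206 _)
             (CovZ.leaf K2_ok TB_l15207 _))
            (CovZ.n1 (-23856, 9360) (by decide +kernel)
             (CovZ.leaf K2_ok TB_l15208 _)
             (CovZ.n1 (-23856, 9312) (by decide +kernel)
              (CovZ.leaf K2_ok TB_l15209 _)
              (CovZ.leaf K2_ok TB_l15210 _)))))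
          (CovZ.n1 (-23904, 9504) (by decide +kernel)
           (CovZ.n2 (-23808, 9504) (by decide +kernel)
            (CovZ.n2 (-23856, 9456) (by decide +kernel)
             (CovZ.n2 (-23856, 9504) (by decide +kernel)
              (CovZ.leaf K2_ok TB_l15211 _)
              (CovZ.leaf K2_ok TB_l15212 _))
             (CovZ.leaf K2_ok TB_l15213 _))
            (CovZ.n1 (-23856, 9552) (by decide +kernel)
             (CovZ.leaf K2_ok TB_l15214 _)
             (CovZ.n1 (-23856, 9504) (by decide +kernel)
              (CovZ.leaf K2_ok TB_l15215 _)
              (CovZ.leaf K2_ok TB_l15216 _))))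
           (CovZ.n1 (-23904, 9408) (by decide +kernel)
            (CovZ.n2 (-23952, 9456) (by decide +kernel)
             (CovZ.leaf K2_ok TB_l15217 _)
             (CovZ.n1 (-23952, 9408) (by decide +kernel)
              (CovZ.leaf K2_ok TB_l15218 _)
              (CovZ.leaf K2_ok TB_l15219 _)))
            (CovZ.n1 (-23856, 9456) (by decide +kernel)
             (CovZ.n2 (-23856, 9408) (by decide +kernel)
              (CovZ.leaf K2_ok TB_l15220 _)
              (CovZ.leaf K2_ok TB_l15221 _))
             (CovZ.leaf K2_ok TB_l15222 _))))))
        (CovZ.n1 (-24000, 9792) (by decide +kernel)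
         (CovZ.n2 (-23808, 9792) (by decide +kernel)
          (CovZ.n2 (-23904, 9696) (by decide +kernel)
           (CovZ.n2 (-23904, 9792) (by decide +kernel)
            (CovZ.leaf K2_ok TB_l15223 _)
            (CovZ.leaf K2_ok TB_l15224 _))
           (CovZ.n1 (-23808, 9696) (by decide +kernel)
            (CovZ.leaf K2_ok TB_l15225 _)
            (CovZ.leaf K2_ok TB_l15226 _)))
          (CovZ.n1 (-23904, 9888) (by decide +kernel)
           (CovZ.leaf K2_ok TB_l15227 _)
           (CovZ.leaf K2_ok TB_l15228 _)))
         (CovZ.n1 (-24000, 9600) (by decide +kernel)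
          (CovZ.n2 (-24096, 9696) (by decide +kernel)
           (CovZ.leaf K2_ok TB_l15229 _)
           (CovZ.n1 (-24096, 9600) (by decide +kernel)
            (CovZ.n2 (-24144, 9648) (by decide +kernel)
             (CovZ.leaf K2_ok TB_l15230 _)
             (CovZ.leaf K2_ok TB_l15231 _))
            (CovZ.n1 (-24048, 9648) (by decide +kernel)
             (CovZ.n2 (-24048, 9600) (by decide +kernel)
              (CovZ.leaf K2_ok TB_l15232 _)
              (CovZ.leaf K2_ok TB_l15233 _))
             (CovZ.leaf K2_ok TB_l15234 _))))
          (CovZ.n1 (-23904, 9696) (by decide +kernel)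
           (CovZ.n2 (-23904, 9600) (by decide +kernel)
            (CovZ.n2 (-23952, 9648) (by decide +kernel)
             (CovZ.leaf K2_ok TB_l15235 _)
             (CovZ.n1 (-23952, 9600) (by decide +kernel)
              (CovZ.leaf K2_ok TB_l15236 _)
              (CovZ.leaf K2_ok TB_l15237 _)))
            (CovZ.n1 (-23856, 9648) (by decide +kernel)
             (CovZ.n2 (-23856, 9600) (by decide +kernel)
              (CovZ.leaf K2_ok TB_l15238 _)
              (CovZ.leaf K2_ok TB_l15239 _))
             (CovZ.leaf K2_ok TB_l15240 _)))
           (CovZ.n1 (-24000, 9696) (by decide +kernel)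
            (CovZ.leaf K2_ok TB_l15241 _)
            (CovZ.n1 (-23952, 9648) (by decide +kernel)
             (CovZ.leaf K2_ok TB_l15242 _)
             (CovZ.leaf K2_ok TB_l15243 _))))))))

theorem TB_u282 : CovZ TB_M (toL (selN TB_LN 631665816743553873388612858716202337208920867230133003189890455038883249160679227285981561237943844681777360278921348)) [0, 7, 6, 1] (-24192, 9600) (-24576, 9216) (-23808, 9216) :=
    (CovZ.n1 (-24192, 9216) (by decide +kernel)
       (CovZ.n2 (-24384, 9408) (by decide +kernel)
        (CovZ.subM 631663411835949099859883151189999678692791471825474728951326265365716413734169652973713456252558390765058803942826116 (by decide +kernel)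
         (CovZ.n2 (-24192, 9408) (by decide +kernel)
          (CovZ.n2 (-24288, 9312) (by decide +kernel)
           (CovZ.n2 (-24288, 9408) (by decide +kernel)
            (CovZ.n2 (-24240, 9360) (by decide +kernel)
             (CovZ.leaf K2_ok TB_l15244 _)
             (CovZ.leaf K2_ok TB_l15245 _))
            (CovZ.n1 (-24336, 9360) (by decide +kernel)
             (CovZ.leaf K2_ok TB_l15246 _)
             (CovZ.leaf K2_ok TB_l15247 _)))
           (CovZ.n1 (-24192, 9312) (by decide +kernel)
            (CovZ.n2 (-24240, 9264) (by decide +kernel)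
             (CovZ.leaf K2_ok TB_l15248 _)
             (CovZ.leaf K2_ok TB_l15249 _))
            (CovZ.n1 (-24240, 9360) (by decide +kernel)
             (CovZ.leaf K2_ok TB_l15250 _)
             (CovZ.leaf K2_ok TB_l15251 _))))
          (CovZ.n1 (-24288, 9504) (by decide +kernel)
           (CovZ.n2 (-24192, 9504) (by decide +kernel)
            (CovZ.n2 (-24240, 9456) (by decide +kernel)
             (CovZ.leaf K2_ok TB_l15252 _)
             (CovZ.leaf K2_ok TB_l15253 _))
            (CovZ.n1 (-24240, 9552) (by decide +kernel)
             (CovZ.leaf K2_ok TB_l15254 _)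
             (CovZ.n1 (-24240, 9504) (by decide +kernel)
              (CovZ.leaf K2_ok TB_l15255 _)
              (CovZ.leaf K2_ok TB_l15256 _))))
           (CovZ.n1 (-24288, 9408) (by decide +kernel)
            (CovZ.n2 (-24336, 9456) (by decide +kernel)
             (CovZ.leaf K2_ok TB_l15257 _)
             (CovZ.leaf K2_ok TB_l15258 _))
            (CovZ.n1 (-24240, 9456) (by decide +kernel)
             (CovZ.leaf K2_ok TB_l15259 _)
             (CovZ.leaf K2_ok TB_l15260 _))))))
        (CovZ.subM 631663411835949099859883151189999678692791471825474728951326265365716413739744839273346112037942320333220894317224068 (by decide +kernel)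
         (CovZ.n1 (-24384, 9216) (by decide +kernel)
          (CovZ.n2 (-24480, 9312) (by decide +kernel)
           (CovZ.n2 (-24384, 9312) (by decide +kernel)
            (CovZ.n2 (-24432, 9264) (by decide +kernel)
             (CovZ.leaf K2_ok TB_l15261 _)
             (CovZ.leaf K2_ok TB_l15262 _))
            (CovZ.n1 (-24432, 9360) (by decide +kernel)
             (CovZ.leaf K2_ok TB_l15263 _)
             (CovZ.leaf K2_ok TB_l15264 _)))
           (CovZ.n1 (-24480, 9216) (by decide +kernel)
            (CovZ.n2 (-24528, 9264) (by decide +kernel)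
             (CovZ.leaf K2_ok TB_l15265 _)
             (CovZ.leaf K2_ok TB_l15266 _))
            (CovZ.n1 (-24432, 9264) (by decide +kernel)
             (CovZ.leaf K2_ok TB_l15267 _)
             (CovZ.leaf K2_ok TB_l15268 _))))
          (CovZ.n1 (-24288, 9312) (by decide +kernel)
           (CovZ.n2 (-24288, 9216) (by decide +kernel)
            (CovZ.n2 (-24336, 9264) (by decide +kernel)
             (CovZ.leaf K2_ok TB_l15269 _)
             (CovZ.leaf K2_ok TB_l15270 _))
            (CovZ.n1 (-24240, 9264) (by decide +kernel)
             (CovZ.leaf K2_ok TB_l15271 _)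
             (CovZ.leaf K2_ok TB_l15272 _)))
           (CovZ.n1 (-24384, 9312) (by decide +kernel)
            (CovZ.n2 (-24336, 9360) (by decide +kernel)
             (CovZ.leaf K2_ok TB_l15273 _)
             (CovZ.leaf K2_ok TB_l15274 _))
            (CovZ.n1 (-24336, 9264) (by decide +kernel)
             (CovZ.leaf K2_ok TB_l15275 _)
             (CovZ.leaf K2_ok TB_l15276 _)))))))
       (CovZ.subM 631663411835949099859883151189999678692791471825474728951326265365716413734169652973713456252558390765058803942826116 (by decide +kernel)
        (CovZ.n1 (-24000, 9408) (by decide +kernel)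
         (CovZ.n2 (-24000, 9216) (by decide +kernel)
          (CovZ.n2 (-24096, 9312) (by decide +kernel)
           (CovZ.n2 (-24000, 9312) (by decide +kernel)
            (CovZ.n2 (-24048, 9264) (by decide +kernel)
             (CovZ.leaf K2_ok TB_l15277 _)
             (CovZ.leaf K2_ok TB_l15278 _))
            (CovZ.n1 (-24048, 9360) (by decide +kernel)
             (CovZ.leaf K2_ok TB_l15279 _)
             (CovZ.leaf K2_ok TB_l15280 _)))
           (CovZ.n1 (-24096, 9216) (by decide +kernel)
            (CovZ.n2 (-24144, 9264) (by decide +kernel)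
             (CovZ.leaf K2_ok TB_l15281 _)
             (CovZ.leaf K2_ok TB_l15282 _))
            (CovZ.n1 (-24048, 9264) (by decide +kernel)
             (CovZ.leaf K2_ok TB_l15283 _)
             (CovZ.leaf K2_ok TB_l15284 _))))
          (CovZ.n1 (-23904, 9312) (by decide +kernel)
           (CovZ.n2 (-23904, 9216) (by decide +kernel)
            (CovZ.n2 (-23952, 9264) (by decide +kernel)
             (CovZ.leaf K2_ok TB_l15285 _)
             (CovZ.leaf K2_ok TB_l15286 _))
            (CovZ.n1 (-23856, 9264) (by decide +kernel)
             (CovZ.leaf K2_ok TB_l15287 _)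
             (CovZ.leaf K2_ok TB_l15288 _)))
           (CovZ.n1 (-24000, 9312) (by decide +kernel)
            (CovZ.n2 (-23952, 9360) (by decide +kernel)
             (CovZ.leaf K2_ok TB_l15289 _)
             (CovZ.leaf K2_ok TB_l15290 _))
            (CovZ.n1 (-23952, 9264) (by decide +kernel)
             (CovZ.leaf K2_ok TB_l15291 _)
             (CovZ.leaf K2_ok TB_l15292 _)))))
         (CovZ.n1 (-24192, 9408) (by decide +kernel)
          (CovZ.n2 (-24096, 9504) (by decide +kernel)
           (CovZ.n2 (-24096, 9408) (by decide +kernel)
            (CovZ.n2 (-24144, 9456) (by decide +kernel)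
             (CovZ.leaf K2_ok TB_l15293 _)
             (CovZ.leaf K2_ok TB_l15294 _))
            (CovZ.n1 (-24048, 9456) (by decide +kernel)
             (CovZ.n2 (-24048, 9408) (by decide +kernel)
              (CovZ.leaf K2_ok TB_l15295 _)
              (CovZ.leaf K2_ok TB_l15296 _))
             (CovZ.leaf K2_ok TB_l15297 _)))
           (CovZ.n1 (-24192, 9504) (by decide +kernel)
            (CovZ.n2 (-24144, 9552) (by decide +kernel)
             (CovZ.n2 (-24144, 9504) (by decide +kernel)
              (CovZ.leaf K2_ok TB_l15298 _)
              (CovZ.leaf K2_ok TB_l15299 _))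
             (CovZ.leaf K2_ok TB_l15300 _))
            (CovZ.n1 (-24144, 9456) (by decide +kernel)
             (CovZ.leaf K2_ok TB_l15301 _)
             (CovZ.leaf K2_ok TB_l15302 _))))
          (CovZ.n1 (-24096, 9312) (by decide +kernel)
           (CovZ.n2 (-24192, 9312) (by decide +kernel)
            (CovZ.n2 (-24144, 9360) (by decide +kernel)
             (CovZ.leaf K2_ok TB_l15303 _)
             (CovZ.leaf K2_ok TB_l15304 _))
            (CovZ.n1 (-24144, 9264) (by decide +kernel)
             (CovZ.leaf K2_ok TB_l15305 _)
             (CovZ.leaf K2_ok TB_l15306 _)))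
           (CovZ.n1 (-24096, 9408) (by decide +kernel)
            (CovZ.n2 (-24048, 9360) (by decide +kernel)
             (CovZ.leaf K2_ok TB_l15307 _)
             (CovZ.leaf K2_ok TB_l15308 _))
            (CovZ.n1 (-24144, 9360) (by decide +kernel)
             (CovZ.leaf K2_ok TB_l15309 _)
             (CovZ.leaf K2_ok TB_l15310 _))))))))

theorem TB_u283 : CovZ TB_M (toL (selN TB_LN 631665816743553873388612858716202337208920867230133003189890455038883249160679227285981561237943844681777360278921348)) [0, 7, 6, 1] (-23040, 9216) (-23424, 9600) (-23808, 9216) :=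
    (CovZ.n2 (-23424, 9216) (by decide +kernel)
       (CovZ.subM 631663411835949099859883151189999678692791471825474728951326265365716413734169652973713456252558390765058803942826116 (by decide +kernel)
        (CovZ.n2 (-23616, 9408) (by decide +kernel)
         (CovZ.n2 (-23424, 9408) (by decide +kernel)
          (CovZ.n2 (-23520, 9312) (by decide +kernel)
           (CovZ.n2 (-23520, 9408) (by decide +kernel)
            (CovZ.n2 (-23472, 9360) (by decide +kernel)
             (CovZ.leaf K2_ok TB_l15311 _)
             (CovZ.n1 (-23472, 9408) (by decide +kernel)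
              (CovZ.leaf K2_ok TB_l15312 _)
              (CovZ.leaf K2_ok TB_l15313 _)))
            (CovZ.n1 (-23568, 9360) (by decide +kernel)
             (CovZ.leaf K2_ok TB_l15314 _)
             (CovZ.leaf K2_ok TB_l15315 _)))
           (CovZ.n1 (-23424, 9312) (by decide +kernel)
            (CovZ.n2 (-23472, 9264) (by decide +kernel)
             (CovZ.leaf K2_ok TB_l15316 _)
             (CovZ.leaf K2_ok TB_l15317 _))
            (CovZ.n1 (-23472, 9360) (by decide +kernel)
             (CovZ.leaf K2_ok TB_l15318 _)
             (CovZ.n1 (-23472, 9312) (by decide +kernel)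
              (CovZ.leaf K2_ok TB_l15319 _)
              (CovZ.leaf K2_ok TB_l15320 _)))))
          (CovZ.n1 (-23520, 9504) (by decide +kernel)
           (CovZ.n2 (-23424, 9504) (by decide +kernel)
            (CovZ.n2 (-23472, 9456) (by decide +kernel)
             (CovZ.n2 (-23472, 9504) (by decide +kernel)
              (CovZ.leaf K2_ok TB_l15321 _)
              (CovZ.leaf K2_ok TB_l15322 _))
             (CovZ.leaf K2_ok TB_l15323 _))
            (CovZ.n1 (-23472, 9552) (by decide +kernel)
             (CovZ.n2 (-23424, 9552) (by decide +kernel)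
              (CovZ.leaf K2_ok TB_l15324 _)
              (CovZ.leaf K2_ok TB_l15325 _))
             (CovZ.n1 (-23472, 9504) (by decide +kernel)
              (CovZ.leaf K2_ok TB_l15326 _)
              (CovZ.leaf K2_ok TB_l15327 _))))
           (CovZ.n1 (-23520, 9408) (by decide +kernel)
            (CovZ.n2 (-23568, 9456) (by decide +kernel)
             (CovZ.leaf K2_ok TB_l15328 _)
             (CovZ.n1 (-23568, 9408) (by decide +kernel)
              (CovZ.leaf K2_ok TB_l15329 _)
              (CovZ.leaf K2_ok TB_l15330 _)))
            (CovZ.n1 (-23472, 9456) (by decide +kernel)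
             (CovZ.n2 (-23472, 9408) (by decide +kernel)
              (CovZ.leaf K2_ok TB_l15331 _)
              (CovZ.leaf K2_ok TB_l15332 _))
             (CovZ.leaf K2_ok TB_l15333 _)))))
         (CovZ.n1 (-23616, 9216) (by decide +kernel)
          (CovZ.n2 (-23712, 9312) (by decide +kernel)
           (CovZ.n2 (-23616, 9312) (by decide +kernel)
            (CovZ.n2 (-23664, 9264) (by decide +kernel)
             (CovZ.leaf K2_ok TB_l15334 _)
             (CovZ.leaf K2_ok TB_l15335 _))
            (CovZ.n1 (-23664, 9360) (by decide +kernel)
             (CovZ.leaf K2_ok TB_l15336 _)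
             (CovZ.leaf K2_ok TB_l15337 _)))
           (CovZ.n1 (-23712, 9216) (by decide +kernel)
            (CovZ.n2 (-23760, 9264) (by decide +kernel)
             (CovZ.leaf K2_ok TB_l15338 _)
             (CovZ.leaf K2_ok TB_l15339 _))
            (CovZ.n1 (-23664, 9264) (by decide +kernel)
             (CovZ.leaf K2_ok TB_l15340 _)
             (CovZ.leaf K2_ok TB_l15341 _))))
          (CovZ.n1 (-23520, 9312) (by decide +kernel)
           (CovZ.n2 (-23520, 9216) (by decide +kernel)
            (CovZ.n2 (-23568, 9264) (by decide +kernel)
             (CovZ.leaf K2_ok TB_l15342 _)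
             (CovZ.leaf K2_ok TB_l15343 _))
            (CovZ.n1 (-23472, 9264) (by decide +kernel)
             (CovZ.leaf K2_ok TB_l15344 _)
             (CovZ.leaf K2_ok TB_l15345 _)))
           (CovZ.n1 (-23616, 9312) (by decide +kernel)
            (CovZ.n2 (-23568, 9360) (by decide +kernel)
             (CovZ.n2 (-23568, 9312) (by decide +kernel)
              (CovZ.leaf K2_ok TB_l15346 _)
              (CovZ.leaf K2_ok TB_l15347 _))
             (CovZ.leaf K2_ok TB_l15348 _))
            (CovZ.n1 (-23568, 9264) (by decide +kernel)
             (CovZ.leaf K2_ok TB_l15349 _)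
             (CovZ.leaf K2_ok TB_l15350 _)))))))
       (CovZ.n1 (-23232, 9408) (by decide +kernel)
        (CovZ.n2 (-23232, 9216) (by decide +kernel)
         (CovZ.subM 631663411835949099859883151189999678692791471825474728951326265365716413734169652973713456252558390765058803942826116 (by decide +kernel)
          (CovZ.n2 (-23328, 9312) (by decide +kernel)
           (CovZ.n2 (-23232, 9312) (by decide +kernel)
            (CovZ.n2 (-23280, 9264) (by decide +kernel)
             (CovZ.n2 (-23280, 9312) (by decide +kernel)
              (CovZ.leaf K2_ok TB_l15351 _)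
              (CovZ.leaf K2_ok TB_l15352 _))
             (CovZ.leaf K2_ok TB_l15353 _))
            (CovZ.n1 (-23280, 9360) (by decide +kernel)
             (CovZ.leaf K2_ok TB_l15354 _)
             (CovZ.n1 (-23280, 9312) (by decide +kernel)
              (CovZ.leaf K2_ok TB_l15355 _)
              (CovZ.leaf K2_ok TB_l15356 _))))
           (CovZ.n1 (-23328, 9216) (by decide +kernel)
            (CovZ.n2 (-23376, 9264) (by decide +kernel)
             (CovZ.leaf K2_ok TB_l15357 _)
             (CovZ.leaf K2_ok TB_l15358 _))
            (CovZ.n1 (-23280, 9264) (by decide +kernel)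
             (CovZ.n2 (-23280, 9216) (by decide +kernel)
              (CovZ.leaf K2_ok TB_l15359 _)
              (CovZ.leaf K2_ok TB_l15360 _))
             (CovZ.leaf K2_ok TB_l15361 _)))))
         (CovZ.n1 (-23136, 9312) (by decide +kernel)
          (CovZ.n2 (-23136, 9216) (by decide +kernel)
           (CovZ.subM 631663411835949099859883151189999678692791471825474728951326265365716413734169652973713456252558390765058803940466820 (by decide +kernel)
            (CovZ.n2 (-23184, 9264) (by decide +kernel)
             (CovZ.n2 (-23136, 9264) (by decide +kernel)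
              (CovZ.leaf K2_ok TB_l15362 _)
              (CovZ.leaf K2_ok TB_l15363 _))
             (CovZ.n1 (-23184, 9216) (by decide +kernel)
              (CovZ.leaf K2_ok TB_l15364 _)
              (CovZ.leaf K2_ok TB_l15365 _))))
           (CovZ.n1 (-23088, 9264) (by decide +kernel)
            (CovZ.n2 (-23088, 9216) (by decide +kernel)
             (CovZ.leaf K2_ok TB_l15366 _)
             (CovZ.leaf K2_ok TB_l15367 _))
            (CovZ.leaf K2_ok TB_l15368 _)))
          (CovZ.subM 631663411835949099859883151189999678692791471825474728951326265365716413734169652973713456252558390765058803942826116 (by decide +kernel)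
           (CovZ.n1 (-23232, 9312) (by decide +kernel)
            (CovZ.n2 (-23184, 9360) (by decide +kernel)
             (CovZ.n2 (-23184, 9312) (by decide +kernel)
              (CovZ.leaf K2_ok TB_l15369 _)
              (CovZ.leaf K2_ok TB_l15370 _))
             (CovZ.leaf K2_ok TB_l15371 _))
            (CovZ.n1 (-23184, 9264) (by decide +kernel)
             (CovZ.leaf K2_ok TB_l15372 _)
             (CovZ.n1 (-23184, 9312) (by decide +kernel)
              (CovZ.leaf K2_ok TB_l15373 _)
              (CovZ.leaf K2_ok TB_l15374 _)))))))
        (CovZ.subM 631663411835949099859883151189999678692791471825474728951326265365716413734169652973713456252558390765058803942826116 (by decide +kernel)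
         (CovZ.n1 (-23424, 9408) (by decide +kernel)
          (CovZ.n2 (-23328, 9504) (by decide +kernel)
           (CovZ.n2 (-23328, 9408) (by decide +kernel)
            (CovZ.n2 (-23376, 9456) (by decide +kernel)
             (CovZ.n2 (-23328, 9456) (by decide +kernel)
              (CovZ.leaf K2_ok TB_l15375 _)
              (CovZ.leaf K2_ok TB_l15376 _))
             (CovZ.n1 (-23376, 9408) (by decide +kernel)
              (CovZ.leaf K2_ok TB_l15377 _)
              (CovZ.leaf K2_ok TB_l15378 _)))
            (CovZ.n1 (-23280, 9456) (by decide +kernel)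
             (CovZ.n2 (-23280, 9408) (by decide +kernel)
              (CovZ.leaf K2_ok TB_l15379 _)
              (CovZ.leaf K2_ok TB_l15380 _))
             (CovZ.n1 (-23328, 9456) (by decide +kernel)
              (CovZ.leaf K2_ok TB_l15381 _)
              (CovZ.leaf K2_ok TB_l15382 _))))
           (CovZ.n1 (-23424, 9504) (by decide +kernel)
            (CovZ.n2 (-23376, 9552) (by decide +kernel)
             (CovZ.n2 (-23376, 9504) (by decide +kernel)
              (CovZ.leaf K2_ok TB_l15383 _)
              (CovZ.leaf K2_ok TB_l15384 _))
             (CovZ.n1 (-23424, 9552) (by decide +kernel)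
              (CovZ.leaf K2_ok TB_l15385 _)
              (CovZ.leaf K2_ok TB_l15386 _)))
            (CovZ.n1 (-23376, 9456) (by decide +kernel)
             (CovZ.leaf K2_ok TB_l15387 _)
             (CovZ.n1 (-23376, 9504) (by decide +kernel)
              (CovZ.leaf K2_ok TB_l15388 _)
              (CovZ.leaf K2_ok TB_l15389 _)))))
          (CovZ.n1 (-23328, 9312) (by decide +kernel)
           (CovZ.n2 (-23424, 9312) (by decide +kernel)
            (CovZ.n2 (-23376, 9360) (by decide +kernel)
             (CovZ.n2 (-23376, 9312) (by decide +kernel)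
              (CovZ.leaf K2_ok TB_l15390 _)
              (CovZ.leaf K2_ok TB_l15391 _))
             (CovZ.leaf K2_ok TB_l15392 _))
            (CovZ.n1 (-23376, 9264) (by decide +kernel)
             (CovZ.leaf K2_ok TB_l15393 _)
             (CovZ.n1 (-23376, 9312) (by decide +kernel)
              (CovZ.leaf K2_ok TB_l15394 _)
              (CovZ.leaf K2_ok TB_l15395 _))))
           (CovZ.n1 (-23328, 9408) (by decide +kernel)
            (CovZ.n2 (-23280, 9360) (by decide +kernel)
             (CovZ.leaf K2_ok TB_l15396 _)
             (CovZ.n1 (-23280, 9408) (by decide +kernel)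
              (CovZ.leaf K2_ok TB_l15397 _)
              (CovZ.leaf K2_ok TB_l15398 _)))
            (CovZ.n1 (-23376, 9360) (by decide +kernel)
             (CovZ.n2 (-23376, 9408) (by decide +kernel)
              (CovZ.leaf K2_ok TB_l15399 _)
              (CovZ.leaf K2_ok TB_l15400 _))
             (CovZ.leaf K2_ok TB_l15401 _))))))))

theorem TB_u284 : CovZ TB_M (toL (selN TB_LN 631665816743553873388612858716202337208920867230133003189890455038883249160679227285981561237943844681777360278921348)) [0, 7, 6, 1] (-23424, 9600) (-23808, 9984) (-23808, 9216) :=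
    (CovZ.subM 631663411835949099859883151189999678692791471825474728951326265365716413734169652973713456252558390765058803942826116 (by decide +kernel)
       (CovZ.n1 (-23808, 9600) (by decide +kernel)
        (CovZ.n2 (-23616, 9792) (by decide +kernel)
         (CovZ.n2 (-23616, 9600) (by decide +kernel)
          (CovZ.n2 (-23712, 9696) (by decide +kernel)
           (CovZ.n2 (-23616, 9696) (by decide +kernel)
            (CovZ.leaf K2_ok TB_l15402 _)
            (CovZ.leaf K2_ok TB_l15403 _))
           (CovZ.n1 (-23712, 9600) (by decide +kernel)
            (CovZ.n2 (-23760, 9648) (by decide +kernel)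
             (CovZ.leaf K2_ok TB_l15404 _)
             (CovZ.n1 (-23760, 9600) (by decide +kernel)
              (CovZ.leaf K2_ok TB_l15405 _)
              (CovZ.leaf K2_ok TB_l15406 _)))
            (CovZ.n1 (-23664, 9648) (by decide +kernel)
             (CovZ.n2 (-23664, 9600) (by decide +kernel)
              (CovZ.leaf K2_ok TB_l15407 _)
              (CovZ.leaf K2_ok TB_l15408 _))
             (CovZ.leaf K2_ok TB_l15409 _))))
          (CovZ.n1 (-23520, 9696) (by decide +kernel)
           (CovZ.n2 (-23520, 9600) (by decide +kernel)
            (CovZ.n2 (-23568, 9648) (by decide +kernel)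
             (CovZ.leaf K2_ok TB_l15410 _)
             (CovZ.n1 (-23568, 9600) (by decide +kernel)
              (CovZ.leaf K2_ok TB_l15411 _)
              (CovZ.leaf K2_ok TB_l15412 _)))
            (CovZ.n1 (-23472, 9648) (by decide +kernel)
             (CovZ.n2 (-23472, 9600) (by decide +kernel)
              (CovZ.leaf K2_ok TB_l15413 _)
              (CovZ.leaf K2_ok TB_l15414 _))
             (CovZ.leaf K2_ok TB_l15415 _)))
           (CovZ.n1 (-23616, 9696) (by decide +kernel)
            (CovZ.leaf K2_ok TB_l15416 _)
            (CovZ.n1 (-23568, 9648) (by decide +kernel)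
             (CovZ.leaf K2_ok TB_l15417 _)
             (CovZ.leaf K2_ok TB_l15418 _)))))
         (CovZ.n1 (-23808, 9792) (by decide +kernel)
          (CovZ.n2 (-23712, 9888) (by decide +kernel)
           (CovZ.n2 (-23712, 9792) (by decide +kernel)
            (CovZ.leaf K2_ok TB_l15419 _)
            (CovZ.leaf K2_ok TB_l15420 _))
           (CovZ.leaf K2_ok TB_l15421 _))
          (CovZ.n1 (-23712, 9696) (by decide +kernel)
           (CovZ.n2 (-23808, 9696) (by decide +kernel)
            (CovZ.leaf K2_ok TB_l15422 _)
            (CovZ.n1 (-23760, 9648) (by decide +kernel)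
             (CovZ.leaf K2_ok TB_l15423 _)
             (CovZ.leaf K2_ok TB_l15424 _)))
           (CovZ.n1 (-23712, 9792) (by decide +kernel)
            (CovZ.leaf K2_ok TB_l15425 _)
            (CovZ.leaf K2_ok TB_l15426 _)))))
        (CovZ.n1 (-23616, 9408) (by decide +kernel)
         (CovZ.n2 (-23808, 9408) (by decide +kernel)
          (CovZ.n2 (-23712, 9504) (by decide +kernel)
           (CovZ.n2 (-23712, 9408) (by decide +kernel)
            (CovZ.n2 (-23760, 9456) (by decide +kernel)
             (CovZ.leaf K2_ok TB_l15427 _)
             (CovZ.n1 (-23760, 9408) (by decide +kernel)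
              (CovZ.leaf K2_ok TB_l15428 _)
              (CovZ.leaf K2_ok TB_l15429 _)))
            (CovZ.n1 (-23664, 9456) (by decide +kernel)
             (CovZ.n2 (-23664, 9408) (by decide +kernel)
              (CovZ.leaf K2_ok TB_l15430 _)
              (CovZ.leaf K2_ok TB_l15431 _))
             (CovZ.leaf K2_ok TB_l15432 _)))
           (CovZ.n1 (-23808, 9504) (by decide +kernel)
            (CovZ.n2 (-23760, 9552) (by decide +kernel)
             (CovZ.n2 (-23760, 9504) (by decide +kernel)
              (CovZ.leaf K2_ok TB_l15433 _)
              (CovZ.leaf K2_ok TB_l15434 _))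
             (CovZ.leaf K2_ok TB_l15435 _))
            (CovZ.n1 (-23760, 9456) (by decide +kernel)
             (CovZ.leaf K2_ok TB_l15436 _)
             (CovZ.n1 (-23760, 9504) (by decide +kernel)
              (CovZ.leaf K2_ok TB_l15437 _)
              (CovZ.leaf K2_ok TB_l15438 _)))))
          (CovZ.n1 (-23712, 9312) (by decide +kernel)
           (CovZ.n2 (-23808, 9312) (by decide +kernel)
            (CovZ.n2 (-23760, 9360) (by decide +kernel)
             (CovZ.leaf K2_ok TB_l15439 _)
             (CovZ.leaf K2_ok TB_l15440 _))
            (CovZ.n1 (-23760, 9264) (by decide +kernel)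
             (CovZ.leaf K2_ok TB_l15441 _)
             (CovZ.leaf K2_ok TB_l15442 _)))
           (CovZ.n1 (-23712, 9408) (by decide +kernel)
            (CovZ.n2 (-23664, 9360) (by decide +kernel)
             (CovZ.leaf K2_ok TB_l15443 _)
             (CovZ.leaf K2_ok TB_l15444 _))
            (CovZ.n1 (-23760, 9360) (by decide +kernel)
             (CovZ.n2 (-23760, 9408) (by decide +kernel)
              (CovZ.leaf K2_ok TB_l15445 _)
              (CovZ.leaf K2_ok TB_l15446 _))
             (CovZ.leaf K2_ok TB_l15447 _)))))
         (CovZ.n1 (-23616, 9600) (by decide +kernel)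
          (CovZ.n2 (-23520, 9504) (by decide +kernel)
           (CovZ.n2 (-23616, 9504) (by decide +kernel)
            (CovZ.n2 (-23568, 9552) (by decide +kernel)
             (CovZ.n2 (-23568, 9504) (by decide +kernel)
              (CovZ.leaf K2_ok TB_l15448 _)
              (CovZ.leaf K2_ok TB_l15449 _))
             (CovZ.leaf K2_ok TB_l15450 _))
            (CovZ.n1 (-23568, 9456) (by decide +kernel)
             (CovZ.leaf K2_ok TB_l15451 _)
             (CovZ.n1 (-23568, 9504) (by decide +kernel)
              (CovZ.leaf K2_ok TB_l15452 _)
              (CovZ.leaf K2_ok TB_l15453 _))))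
           (CovZ.n1 (-23520, 9600) (by decide +kernel)
            (CovZ.n2 (-23472, 9552) (by decide +kernel)
             (CovZ.leaf K2_ok TB_l15454 _)
             (CovZ.n1 (-23472, 9600) (by decide +kernel)
              (CovZ.leaf K2_ok TB_l15455 _)
              (CovZ.leaf K2_ok TB_l15456 _)))
            (CovZ.n1 (-23568, 9552) (by decide +kernel)
             (CovZ.n2 (-23568, 9600) (by decide +kernel)
              (CovZ.leaf K2_ok TB_l15457 _)
              (CovZ.leaf K2_ok TB_l15458 _))
             (CovZ.n1 (-23520, 9552) (by decide +kernel)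
              (CovZ.leaf K2_ok TB_l15459 _)
              (CovZ.leaf K2_ok TB_l15460 _)))))
          (CovZ.n1 (-23712, 9504) (by decide +kernel)
           (CovZ.n2 (-23712, 9600) (by decide +kernel)
            (CovZ.n2 (-23664, 9552) (by decide +kernel)
             (CovZ.leaf K2_ok TB_l15461 _)
             (CovZ.n1 (-23664, 9600) (by decide +kernel)
              (CovZ.leaf K2_ok TB_l15462 _)
              (CovZ.leaf K2_ok TB_l15463 _)))
            (CovZ.n1 (-23760, 9552) (by decide +kernel)
             (CovZ.n2 (-23760, 9600) (by decide +kernel)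
              (CovZ.leaf K2_ok TB_l15464 _)
              (CovZ.leaf K2_ok TB_l15465 _))
             (CovZ.leaf K2_ok TB_l15466 _)))
           (CovZ.n1 (-23616, 9504) (by decide +kernel)
            (CovZ.n2 (-23664, 9456) (by decide +kernel)
             (CovZ.n2 (-23664, 9504) (by decide +kernel)
              (CovZ.leaf K2_ok TB_l15467 _)
              (CovZ.leaf K2_ok TB_l15468 _))
             (CovZ.leaf K2_ok TB_l15469 _))
            (CovZ.n1 (-23664, 9552) (by decide +kernel)
             (CovZ.n2 (-23616, 9552) (by decide +kernel)
              (CovZ.leaf K2_ok TB_l15470 _)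
              (CovZ.leaf K2_ok TB_l15471 _))
             (CovZ.n1 (-23664, 9504) (by decide +kernel)
              (CovZ.leaf K2_ok TB_l15472 _)
              (CovZ.leaf K2_ok TB_l15473 _)))))))))

theorem TB_u285 : CovZ TB_M (toL (selN TB_LN 631665816743553873389151027324862097757024300433445253625014964576744284374374101469727717302343796383092386945835140)) [0, 7, 6, 1] (-22272, 9216) (-22464, 9408) (-22656, 9216) :=
    (CovZ.n2 (-22464, 9216) (by decide +kernel)
          (CovZ.n2 (-22560, 9312) (by decide +kernel)
           (CovZ.n2 (-22464, 9312) (by decide +kernel)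
            (CovZ.n2 (-22512, 9264) (by decide +kernel)
             (CovZ.n2 (-22512, 9312) (by decide +kernel)
              (CovZ.n2 (-22488, 9288) (by decide +kernel)
               (CovZ.leaf K2_ok TB_l18089 _)
               (CovZ.n1 (-22488, 9312) (by decide +kernel)
                (CovZ.leaf K2_ok TB_l18090 _)
                (CovZ.leaf K2_ok TB_l18091 _)))
              (CovZ.n1 (-22536, 9288) (by decide +kernel)
               (CovZ.n2 (-22536, 9312) (by decide +kernel)
                (CovZ.leaf K2_ok TB_l18092 _)
                (CovZ.leaf K2_ok TB_l18093 _))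
               (CovZ.leaf K2_ok TB_l18094 _)))
             (CovZ.n1 (-22464, 9264) (by decide +kernel)
              (CovZ.n2 (-22488, 9240) (by decide +kernel)
               (CovZ.leaf K2_ok TB_l18095 _)
               (CovZ.leaf K2_ok TB_l18096 _))
              (CovZ.n1 (-22488, 9288) (by decide +kernel)
               (CovZ.leaf K2_ok TB_l18097 _)
               (CovZ.n1 (-22488, 9264) (by decide +kernel)
                (CovZ.leaf K2_ok TB_l18098 _)
                (CovZ.leaf K2_ok TB_l18099 _)))))
            (CovZ.n1 (-22512, 9360) (by decide +kernel)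
             (CovZ.n2 (-22464, 9360) (by decide +kernel)
              (CovZ.n2 (-22488, 9336) (by decide +kernel)
               (CovZ.n2 (-22488, 9360) (by decide +kernel)
                (CovZ.leaf K2_ok TB_l18100 _)
                (CovZ.leaf K2_ok TB_l18101 _))
               (CovZ.leaf K2_ok TB_l18102 _))
              (CovZ.n1 (-22488, 9384) (by decide +kernel)
               (CovZ.leaf K2_ok TB_l18103 _)
               (CovZ.leaf K2_ok TB_l18104 _)))
             (CovZ.n1 (-22512, 9312) (by decide +kernel)
              (CovZ.n2 (-22536, 9336) (by decide +kernel)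
               (CovZ.leaf K2_ok TB_l18105 _)
               (CovZ.leaf K2_ok TB_l18106 _))
              (CovZ.n1 (-22488, 9336) (by decide +kernel)
               (CovZ.n2 (-22488, 9312) (by decide +kernel)
                (CovZ.leaf K2_ok TB_l18107 _)
                (CovZ.leaf K2_ok TB_l18108 _))
               (CovZ.leaf K2_ok TB_l18109 _)))))
           (CovZ.n1 (-22560, 9216) (by decide +kernel)
            (CovZ.n2 (-22608, 9264) (by decide +kernel)
             (CovZ.n2 (-22560, 9264) (by decide +kernel)
              (CovZ.n2 (-22584, 9240) (by decide +kernel)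
               (CovZ.leaf K2_ok TB_l18110 _)
               (CovZ.leaf K2_ok TB_l18111 _))
              (CovZ.n1 (-22584, 9288) (by decide +kernel)
               (CovZ.leaf K2_ok TB_l18112 _)
               (CovZ.leaf K2_ok TB_l18113 _)))
             (CovZ.n1 (-22608, 9216) (by decide +kernel)
              (CovZ.n2 (-22632, 9240) (by decide +kernel)
               (CovZ.leaf K2_ok TB_l18114 _)
               (CovZ.leaf K2_ok TB_l18115 _))
              (CovZ.n1 (-22584, 9240) (by decide +kernel)
               (CovZ.leaf K2_ok TB_l18116 _)
               (CovZ.leaf K2_ok TB_l18117 _))))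
            (CovZ.n1 (-22512, 9264) (by decide +kernel)
             (CovZ.n2 (-22512, 9216) (by decide +kernel)
              (CovZ.n2 (-22536, 9240) (by decide +kernel)
               (CovZ.leaf K2_ok TB_l18118 _)
               (CovZ.leaf K2_ok TB_l18119 _))
              (CovZ.n1 (-22488, 9240) (by decide +kernel)
               (CovZ.leaf K2_ok TB_l18120 _)
               (CovZ.leaf K2_ok TB_l18121 _)))
             (CovZ.n1 (-22560, 9264) (by decide +kernel)
              (CovZ.n2 (-22536, 9288) (by decide +kernel)
               (CovZ.leaf K2_ok TB_l18122 _)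
               (CovZ.leaf K2_ok TB_l18123 _))
              (CovZ.n1 (-22536, 9240) (by decide +kernel)
               (CovZ.leaf K2_ok TB_l18124 _)
               (CovZ.leaf K2_ok TB_l18125 _))))))
          (CovZ.n1 (-22368, 9312) (by decide +kernel)
           (CovZ.n2 (-22368, 9216) (by decide +kernel)
            (CovZ.n2 (-22416, 9264) (by decide +kernel)
             (CovZ.n2 (-22368, 9264) (by decide +kernel)
              (CovZ.n2 (-22392, 9240) (by decide +kernel)
               (CovZ.n2 (-22392, 9264) (by decide +kernel)
                (CovZ.leaf K2_ok TB_l18126 _)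
                (CovZ.leaf K2_ok TB_l18127 _))
               (CovZ.leaf K2_ok TB_l18128 _))
              (CovZ.n1 (-22392, 9288) (by decide +kernel)
               (CovZ.leaf K2_ok TB_l18129 _)
               (CovZ.n1 (-22392, 9264) (by decide +kernel)
                (CovZ.leaf K2_ok TB_l18130 _)
                (CovZ.leaf K2_ok TB_l18131 _))))
             (CovZ.n1 (-22416, 9216) (by decide +kernel)
              (CovZ.n2 (-22440, 9240) (by decide +kernel)
               (CovZ.leaf K2_ok TB_l18132 _)
               (CovZ.leaf K2_ok TB_l18133 _))
              (CovZ.n1 (-22392, 9240) (by decide +kernel)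
               (CovZ.n2 (-22392, 9216) (by decide +kernel)
                (CovZ.leaf K2_ok TB_l18134 _)
                (CovZ.leaf K2_ok TB_l18135 _))
               (CovZ.leaf K2_ok TB_l18136 _))))
            (CovZ.n1 (-22320, 9264) (by decide +kernel)
             (CovZ.n2 (-22320, 9216) (by decide +kernel)
              (CovZ.n2 (-22344, 9240) (by decide +kernel)
               (CovZ.leaf K2_ok TB_l18137 _)
               (CovZ.n1 (-22344, 9216) (by decide +kernel)
                (CovZ.leaf K2_ok TB_l18138 _)
                (CovZ.leaf K2_ok TB_l18139 _)))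
              (CovZ.n1 (-22296, 9240) (by decide +kernel)
               (CovZ.n2 (-22296, 9216) (by decide +kernel)
                (CovZ.leaf K2_ok TB_l18140 _)
                (CovZ.leaf K2_ok TB_l18141 _))
               (CovZ.leaf K2_ok TB_l18142 _)))
             (CovZ.n1 (-22368, 9264) (by decide +kernel)
              (CovZ.n2 (-22344, 9288) (by decide +kernel)
               (CovZ.n2 (-22344, 9264) (by decide +kernel)
                (CovZ.leaf K2_ok TB_l18143 _)
                (CovZ.leaf K2_ok TB_l18144 _))
               (CovZ.leaf K2_ok TB_l18145 _))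
              (CovZ.n1 (-22344, 9240) (by decide +kernel)
               (CovZ.leaf K2_ok TB_l18146 _)
               (CovZ.n1 (-22344, 9264) (by decide +kernel)
                (CovZ.leaf K2_ok TB_l18147 _)
                (CovZ.leaf K2_ok TB_l18148 _))))))
           (CovZ.n1 (-22464, 9312) (by decide +kernel)
            (CovZ.n2 (-22416, 9360) (by decide +kernel)
             (CovZ.n2 (-22416, 9312) (by decide +kernel)
              (CovZ.n2 (-22440, 9336) (by decide +kernel)
               (CovZ.leaf K2_ok TB_l18149 _)
               (CovZ.n1 (-22440, 9312) (by decide +kernel)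
                (CovZ.leaf K2_ok TB_l18150 _)
                (CovZ.leaf K2_ok TB_l18151 _)))
              (CovZ.n1 (-22392, 9336) (by decide +kernel)
               (CovZ.n2 (-22392, 9312) (by decide +kernel)
                (CovZ.leaf K2_ok TB_l18152 _)
                (CovZ.leaf K2_ok TB_l18153 _))
               (CovZ.leaf K2_ok TB_l18154 _)))
             (CovZ.n1 (-22464, 9360) (by decide +kernel)
              (CovZ.n2 (-22440, 9384) (by decide +kernel)
               (CovZ.leaf K2_ok TB_l18155 _)
               (CovZ.leaf K2_ok TB_l18156 _))
              (CovZ.n1 (-22440, 9336) (by decide +kernel)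
               (CovZ.leaf K2_ok TB_l18157 _)
               (CovZ.leaf K2_ok TB_l18158 _))))
            (CovZ.n1 (-22416, 9264) (by decide +kernel)
             (CovZ.n2 (-22464, 9264) (by decide +kernel)
              (CovZ.n2 (-22440, 9288) (by decide +kernel)
               (CovZ.leaf K2_ok TB_l18159 _)
               (CovZ.leaf K2_ok TB_l18160 _))
              (CovZ.n1 (-22440, 9240) (by decide +kernel)
               (CovZ.leaf K2_ok TB_l18161 _)
               (CovZ.n1 (-22440, 9264) (by decide +kernel)
                (CovZ.leaf K2_ok TB_l18162 _)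
                (CovZ.leaf K2_ok TB_l18163 _))))
             (CovZ.n1 (-22416, 9312) (by decide +kernel)
              (CovZ.n2 (-22392, 9288) (by decide +kernel)
               (CovZ.leaf K2_ok TB_l18164 _)
               (CovZ.n1 (-22392, 9312) (by decide +kernel)
                (CovZ.leaf K2_ok TB_l18165 _)
                (CovZ.leaf K2_ok TB_l18166 _)))
              (CovZ.n1 (-22440, 9288) (by decide +kernel)
               (CovZ.n2 (-22440, 9312) (by decide +kernel)
                (CovZ.leaf K2_ok TB_l18167 _)
                (CovZ.leaf K2_ok TB_l18168 _))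
               (CovZ.n1 (-22416, 9288) (by decide +kernel)
                (CovZ.leaf K2_ok TB_l18169 _)
                (CovZ.leaf K2_ok TB_l18170 _))))))))

theorem TB_u286 : CovZ TB_M (toL (selN TB_LN 631665816743553873389151027324862097757024300433445253625014964576744284374374101469727717302343796383092386945835140)) [0, 7, 6, 1] (-22464, 9408) (-22656, 9600) (-22656, 9216) :=
    (CovZ.n1 (-22656, 9408) (by decide +kernel)
          (CovZ.n2 (-22560, 9504) (by decide +kernel)
           (CovZ.n2 (-22560, 9408) (by decide +kernel)
            (CovZ.n2 (-22608, 9456) (by decide +kernel)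
             (CovZ.leaf K2_ok TB_l18171 _)
             (CovZ.n1 (-22608, 9408) (by decide +kernel)
              (CovZ.n2 (-22632, 9432) (by decide +kernel)
               (CovZ.leaf K2_ok TB_l18172 _)
               (CovZ.leaf K2_ok TB_l18173 _))
              (CovZ.leaf K2_ok TB_l18174 _)))
            (CovZ.n1 (-22512, 9456) (by decide +kernel)
             (CovZ.n2 (-22512, 9408) (by decide +kernel)
              (CovZ.leaf K2_ok TB_l18175 _)
              (CovZ.leaf K2_ok TB_l18176 _))
             (CovZ.n1 (-22560, 9456) (by decide +kernel)
              (CovZ.leaf K2_ok TB_l18177 _)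
              (CovZ.leaf K2_ok TB_l18178 _))))
           (CovZ.n1 (-22656, 9504) (by decide +kernel)
            (CovZ.n2 (-22608, 9552) (by decide +kernel)
             (CovZ.n2 (-22608, 9504) (by decide +kernel)
              (CovZ.leaf K2_ok TB_l18179 _)
              (CovZ.leaf K2_ok TB_l18180 _))
             (CovZ.leaf K2_ok TB_l18181 _))
            (CovZ.n1 (-22608, 9456) (by decide +kernel)
             (CovZ.n2 (-22656, 9456) (by decide +kernel)
              (CovZ.leaf K2_ok TB_l18182 _)
              (CovZ.n1 (-22632, 9432) (by decide +kernel)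
               (CovZ.leaf K2_ok TB_l18183 _)
               (CovZ.leaf K2_ok TB_l18184 _)))
             (CovZ.n1 (-22608, 9504) (by decide +kernel)
              (CovZ.leaf K2_ok TB_l18185 _)
              (CovZ.leaf K2_ok TB_l18186 _)))))
          (CovZ.n1 (-22560, 9312) (by decide +kernel)
           (CovZ.n2 (-22656, 9312) (by decide +kernel)
            (CovZ.n2 (-22608, 9360) (by decide +kernel)
             (CovZ.n2 (-22608, 9312) (by decide +kernel)
              (CovZ.n2 (-22632, 9336) (by decide +kernel)
               (CovZ.leaf K2_ok TB_l18187 _)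
               (CovZ.leaf K2_ok TB_l18188 _))
              (CovZ.n1 (-22584, 9336) (by decide +kernel)
               (CovZ.leaf K2_ok TB_l18189 _)
               (CovZ.leaf K2_ok TB_l18190 _)))
             (CovZ.n1 (-22656, 9360) (by decide +kernel)
              (CovZ.n2 (-22632, 9384) (by decide +kernel)
               (CovZ.leaf K2_ok TB_l18191 _)
               (CovZ.leaf K2_ok TB_l18192 _))
              (CovZ.n1 (-22632, 9336) (by decide +kernel)
               (CovZ.leaf K2_ok TB_l18193 _)
               (CovZ.n1 (-22632, 9360) (by decide +kernel)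
                (CovZ.leaf K2_ok TB_l18194 _)
                (CovZ.leaf K2_ok TB_l18195 _)))))
            (CovZ.n1 (-22608, 9264) (by decide +kernel)
             (CovZ.n2 (-22656, 9264) (by decide +kernel)
              (CovZ.leaf K2_ok TB_l18196 _)
              (CovZ.n1 (-22632, 9240) (by decide +kernel)
               (CovZ.leaf K2_ok TB_l18197 _)
               (CovZ.leaf K2_ok TB_l18198 _)))
             (CovZ.n1 (-22608, 9312) (by decide +kernel)
              (CovZ.n2 (-22584, 9288) (by decide +kernel)
               (CovZ.leaf K2_ok TB_l18199 _)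
               (CovZ.leaf K2_ok TB_l18200 _))
              (CovZ.n1 (-22632, 9288) (by decide +kernel)
               (CovZ.leaf K2_ok TB_l18201 _)
               (CovZ.leaf K2_ok TB_l18202 _)))))
           (CovZ.n1 (-22560, 9408) (by decide +kernel)
            (CovZ.n2 (-22512, 9360) (by decide +kernel)
             (CovZ.n2 (-22560, 9360) (by decide +kernel)
              (CovZ.n2 (-22536, 9384) (by decide +kernel)
               (CovZ.n2 (-22536, 9360) (by decide +kernel)
                (CovZ.leaf K2_ok TB_l18203 _)
                (CovZ.leaf K2_ok TB_l18204 _))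
               (CovZ.leaf K2_ok TB_l18205 _))
              (CovZ.n1 (-22536, 9336) (by decide +kernel)
               (CovZ.leaf K2_ok TB_l18206 _)
               (CovZ.n1 (-22536, 9360) (by decide +kernel)
                (CovZ.leaf K2_ok TB_l18207 _)
                (CovZ.leaf K2_ok TB_l18208 _))))
             (CovZ.n1 (-22512, 9408) (by decide +kernel)
              (CovZ.n2 (-22488, 9384) (by decide +kernel)
               (CovZ.leaf K2_ok TB_l18209 _)
               (CovZ.leaf K2_ok TB_l18210 _))
              (CovZ.leaf K2_ok TB_l18211 _)))
            (CovZ.n1 (-22608, 9360) (by decide +kernel)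
             (CovZ.n2 (-22608, 9408) (by decide +kernel)
              (CovZ.n2 (-22584, 9384) (by decide +kernel)
               (CovZ.leaf K2_ok TB_l18212 _)
               (CovZ.leaf K2_ok TB_l18213 _))
              (CovZ.n1 (-22632, 9384) (by decide +kernel)
               (CovZ.leaf K2_ok TB_l18214 _)
               (CovZ.leaf K2_ok TB_l18215 _)))
             (CovZ.n1 (-22560, 9360) (by decide +kernel)
              (CovZ.n2 (-22584, 9336) (by decide +kernel)
               (CovZ.n2 (-22584, 9360) (by decide +kernel)
                (CovZ.leaf K2_ok TB_l18216 _)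
                (CovZ.leaf K2_ok TB_l18217 _))
               (CovZ.leaf K2_ok TB_l18218 _))
              (CovZ.n1 (-22584, 9384) (by decide +kernel)
               (CovZ.leaf K2_ok TB_l18219 _)
               (CovZ.n1 (-22584, 9360) (by decide +kernel)
                (CovZ.leaf K2_ok TB_l18220 _)
                (CovZ.leaf K2_ok TB_l18221 _))))))))

theorem TB_u287 : CovZ TB_M (toL (selN TB_LN 631665816743553873389151027324862097757024300433445253625014964576744284374374101469727717302343796383092386945835140)) [0, 7, 6, 1] (-22272, 9984) (-22656, 9600) (-22272, 9216) :=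
    (CovZ.n2 (-22272, 9600) (by decide +kernel)
        (CovZ.n2 (-22464, 9408) (by decide +kernel)
         (CovZ.n2 (-22464, 9600) (by decide +kernel)
          (CovZ.n2 (-22368, 9504) (by decide +kernel)
           (CovZ.n2 (-22464, 9504) (by decide +kernel)
            (CovZ.n2 (-22416, 9552) (by decide +kernel)
             (CovZ.n2 (-22416, 9504) (by decide +kernel)
              (CovZ.leaf K2_ok TB_l17925 _)
              (CovZ.leaf K2_ok TB_l17926 _))
             (CovZ.leaf K2_ok TB_l17927 _))
            (CovZ.n1 (-22416, 9456) (by decide +kernel)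
             (CovZ.n2 (-22464, 9456) (by decide +kernel)
              (CovZ.leaf K2_ok TB_l17928 _)
              (CovZ.leaf K2_ok TB_l17929 _))
             (CovZ.n1 (-22416, 9504) (by decide +kernel)
              (CovZ.leaf K2_ok TB_l17930 _)
              (CovZ.leaf K2_ok TB_l17931 _))))
           (CovZ.n1 (-22368, 9600) (by decide +kernel)
            (CovZ.n2 (-22320, 9552) (by decide +kernel)
             (CovZ.leaf K2_ok TB_l17932 _)
             (CovZ.leaf K2_ok TB_l17933 _))
            (CovZ.leaf K2_ok TB_l17934 _)))
          (CovZ.n1 (-22560, 9504) (by decide +kernel)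
           (CovZ.n2 (-22560, 9600) (by decide +kernel)
            (CovZ.n2 (-22512, 9552) (by decide +kernel)
             (CovZ.leaf K2_ok TB_l17935 _)
             (CovZ.leaf K2_ok TB_l17936 _))
            (CovZ.leaf K2_ok TB_l17937 _))
           (CovZ.n1 (-22464, 9504) (by decide +kernel)
            (CovZ.n2 (-22512, 9456) (by decide +kernel)
             (CovZ.n2 (-22512, 9504) (by decide +kernel)
              (CovZ.leaf K2_ok TB_l17938 _)
              (CovZ.leaf K2_ok TB_l17939 _))
             (CovZ.leaf K2_ok TB_l17940 _))
            (CovZ.n1 (-22512, 9552) (by decide +kernel)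
             (CovZ.leaf K2_ok TB_l17941 _)
             (CovZ.n1 (-22512, 9504) (by decide +kernel)
              (CovZ.leaf K2_ok TB_l17942 _)
              (CovZ.leaf K2_ok TB_l17943 _))))))
         (CovZ.n1 (-22272, 9408) (by decide +kernel)
          (CovZ.n2 (-22368, 9312) (by decide +kernel)
           (CovZ.n2 (-22368, 9408) (by decide +kernel)
            (CovZ.n2 (-22320, 9360) (by decide +kernel)
             (CovZ.n2 (-22368, 9360) (by decide +kernel)
              (CovZ.n2 (-22344, 9384) (by decide +kernel)
               (CovZ.leaf K2_ok TB_l17944 _)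
               (CovZ.leaf K2_ok TB_l17945 _))
              (CovZ.n1 (-22344, 9336) (by decide +kernel)
               (CovZ.leaf K2_ok TB_l17946 _)
               (CovZ.leaf K2_ok TB_l17947 _)))
             (CovZ.n1 (-22320, 9408) (by decide +kernel)
              (CovZ.leaf K2_ok TB_l17948 _)
              (CovZ.leaf K2_ok TB_l17949 _)))
            (CovZ.n1 (-22416, 9360) (by decide +kernel)
             (CovZ.n2 (-22416, 9408) (by decide +kernel)
              (CovZ.n2 (-22392, 9384) (by decide +kernel)
               (CovZ.leaf K2_ok TB_l17950 _)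
               (CovZ.leaf K2_ok TB_l17951 _))
              (CovZ.leaf K2_ok TB_l17952 _))
             (CovZ.n1 (-22368, 9360) (by decide +kernel)
              (CovZ.n2 (-22392, 9336) (by decide +kernel)
               (CovZ.leaf K2_ok TB_l17953 _)
               (CovZ.leaf K2_ok TB_l17954 _))
              (CovZ.n1 (-22392, 9384) (by decide +kernel)
               (CovZ.leaf K2_ok TB_l17955 _)
               (CovZ.leaf K2_ok TB_l17956 _)))))
           (CovZ.n1 (-22272, 9312) (by decide +kernel)
            (CovZ.n2 (-22320, 9264) (by decide +kernel)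
             (CovZ.n2 (-22320, 9312) (by decide +kernel)
              (CovZ.n2 (-22296, 9288) (by decide +kernel)
               (CovZ.leaf K2_ok TB_l17957 _)
               (CovZ.n1 (-22296, 9312) (by decide +kernel)
                (CovZ.leaf K2_ok TB_l17958 _)
                (CovZ.leaf K2_ok TB_l17959 _)))
              (CovZ.n1 (-22344, 9288) (by decide +kernel)
               (CovZ.n2 (-22344, 9312) (by decide +kernel)
                (CovZ.leaf K2_ok TB_l17960 _)
                (CovZ.leaf K2_ok TB_l17961 _))
               (CovZ.n1 (-22320, 9288) (by decide +kernel)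
                (CovZ.leaf K2_ok TB_l17962 _)
                (CovZ.leaf K2_ok TB_l17963 _))))
             (CovZ.n1 (-22272, 9264) (by decide +kernel)
              (CovZ.n2 (-22296, 9240) (by decide +kernel)
               (CovZ.n2 (-22296, 9264) (by decide +kernel)
                (CovZ.leaf K2_ok TB_l17964 _)
                (CovZ.leaf K2_ok TB_l17965 _))
               (CovZ.n1 (-22272, 9240) (by decide +kernel)
                (CovZ.leaf K2_ok TB_l17966 _)
                (CovZ.leaf K2_ok TB_l17967 _)))
              (CovZ.n1 (-22296, 9288) (by decide +kernel)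
               (CovZ.leaf K2_ok TB_l17968 _)
               (CovZ.n1 (-22296, 9264) (by decide +kernel)
                (CovZ.leaf K2_ok TB_l17969 _)
                (CovZ.leaf K2_ok TB_l17970 _)))))
            (CovZ.n1 (-22320, 9360) (by decide +kernel)
             (CovZ.n2 (-22272, 9360) (by decide +kernel)
              (CovZ.leaf K2_ok TB_l17971 _)
              (CovZ.leaf K2_ok TB_l17972 _))
             (CovZ.n1 (-22320, 9312) (by decide +kernel)
              (CovZ.n2 (-22344, 9336) (by decide +kernel)
               (CovZ.leaf K2_ok TB_l17973 _)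
               (CovZ.n1 (-22344, 9312) (by decide +kernel)
                (CovZ.leaf K2_ok TB_l17974 _)
                (CovZ.leaf K2_ok TB_l17975 _)))
              (CovZ.n1 (-22296, 9336) (by decide +kernel)
               (CovZ.n2 (-22296, 9312) (by decide +kernel)
                (CovZ.leaf K2_ok TB_l17976 _)
                (CovZ.leaf K2_ok TB_l17977 _))
               (CovZ.leaf K2_ok TB_l17978 _))))))
          (CovZ.n1 (-22368, 9504) (by decide +kernel)
           (CovZ.n2 (-22272, 9504) (by decide +kernel)
            (CovZ.n2 (-22320, 9456) (by decide +kernel)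
             (CovZ.leaf K2_ok TB_l17979 _)
             (CovZ.leaf K2_ok TB_l17980 _))
            (CovZ.n1 (-22320, 9552) (by decide +kernel)
             (CovZ.leaf K2_ok TB_l17981 _)
             (CovZ.leaf K2_ok TB_l17982 _)))
           (CovZ.n1 (-22368, 9408) (by decide +kernel)
            (CovZ.n2 (-22416, 9456) (by decide +kernel)
             (CovZ.leaf K2_ok TB_l17983 _)
             (CovZ.n1 (-22416, 9408) (by decide +kernel)
              (CovZ.leaf K2_ok TB_l17984 _)
              (CovZ.leaf K2_ok TB_l17985 _)))
            (CovZ.n1 (-22320, 9456) (by decide +kernel)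
             (CovZ.n2 (-22320, 9408) (by decide +kernel)
              (CovZ.leaf K2_ok TB_l17986 _)
              (CovZ.leaf K2_ok TB_l17987 _))
             (CovZ.leaf K2_ok TB_l17988 _))))))
        (CovZ.n1 (-22464, 9792) (by decide +kernel)
         (CovZ.n2 (-22272, 9792) (by decide +kernel)
          (CovZ.n2 (-22368, 9696) (by decide +kernel)
           (CovZ.leaf K2_ok TB_l17989 _)
           (CovZ.leaf K2_ok TB_l17990 _))
          (CovZ.n1 (-22368, 9888) (by decide +kernel)
           (CovZ.leaf K2_ok TB_l17991 _)
           (CovZ.leaf K2_ok TB_l17992 _)))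
         (CovZ.n1 (-22464, 9600) (by decide +kernel)
          (CovZ.n2 (-22560, 9696) (by decide +kernel)
           (CovZ.leaf K2_ok TB_l17993 _)
           (CovZ.n1 (-22560, 9600) (by decide +kernel)
            (CovZ.leaf K2_ok TB_l17994 _)
            (CovZ.leaf K2_ok TB_l17995 _)))
          (CovZ.n1 (-22368, 9696) (by decide +kernel)
           (CovZ.n2 (-22368, 9600) (by decide +kernel)
            (CovZ.leaf K2_ok TB_l17996 _)
            (CovZ.leaf K2_ok TB_l17997 _))
           (CovZ.leaf K2_ok TB_l17998 _)))))

theorem TB_u288 : CovZ TB_M (toL (selN TB_LN 631665816743553873389151027324862097757024300433445253625014964576744284374374101469727717302343796383092386945835140)) [0, 7, 6, 1] (-22656, 9600) (-23040, 9216) (-22272, 9216) :=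
    (CovZ.n1 (-22656, 9216) (by decide +kernel)
        (CovZ.n2 (-22848, 9408) (by decide +kernel)
         (CovZ.n2 (-22656, 9408) (by decide +kernel)
          (CovZ.n2 (-22752, 9312) (by decide +kernel)
           (CovZ.n2 (-22752, 9408) (by decide +kernel)
            (CovZ.n2 (-22704, 9360) (by decide +kernel)
             (CovZ.n2 (-22752, 9360) (by decide +kernel)
              (CovZ.n2 (-22728, 9384) (by decide +kernel)
               (CovZ.leaf K2_ok TB_l17999 _)
               (CovZ.leaf K2_ok TB_l18000 _))
              (CovZ.n1 (-22728, 9336) (by decide +kernel)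
               (CovZ.leaf K2_ok TB_l18001 _)
               (CovZ.leaf K2_ok TB_l18002 _)))
             (CovZ.n1 (-22704, 9408) (by decide +kernel)
              (CovZ.n2 (-22680, 9384) (by decide +kernel)
               (CovZ.leaf K2_ok TB_l18003 _)
               (CovZ.leaf K2_ok TB_l18004 _))
              (CovZ.n1 (-22728, 9384) (by decide +kernel)
               (CovZ.leaf K2_ok TB_l18005 _)
               (CovZ.leaf K2_ok TB_l18006 _))))
            (CovZ.n1 (-22800, 9360) (by decide +kernel)
             (CovZ.n2 (-22800, 9408) (by decide +kernel)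
              (CovZ.n2 (-22776, 9384) (by decide +kernel)
               (CovZ.leaf K2_ok TB_l18007 _)
               (CovZ.leaf K2_ok TB_l18008 _))
              (CovZ.n1 (-22824, 9384) (by decide +kernel)
               (CovZ.leaf K2_ok TB_l18009 _)
               (CovZ.leaf K2_ok TB_l18010 _)))
             (CovZ.n1 (-22752, 9360) (by decide +kernel)
              (CovZ.n2 (-22776, 9336) (by decide +kernel)
               (CovZ.leaf K2_ok TB_l18011 _)
               (CovZ.leaf K2_ok TB_l18012 _))
              (CovZ.n1 (-22776, 9384) (by decide +kernel)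
               (CovZ.leaf K2_ok TB_l18013 _)
               (CovZ.leaf K2_ok TB_l18014 _)))))
           (CovZ.n1 (-22656, 9312) (by decide +kernel)
            (CovZ.n2 (-22704, 9264) (by decide +kernel)
             (CovZ.n2 (-22704, 9312) (by decide +kernel)
              (CovZ.n2 (-22680, 9288) (by decide +kernel)
               (CovZ.leaf K2_ok TB_l18015 _)
               (CovZ.leaf K2_ok TB_l18016 _))
              (CovZ.leaf K2_ok TB_l18017 _))
             (CovZ.n1 (-22656, 9264) (by decide +kernel)
              (CovZ.leaf K2_ok TB_l18018 _)
              (CovZ.n1 (-22680, 9288) (by decide +kernel)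
               (CovZ.leaf K2_ok TB_l18019 _)
               (CovZ.leaf K2_ok TB_l18020 _))))
            (CovZ.n1 (-22704, 9360) (by decide +kernel)
             (CovZ.n2 (-22656, 9360) (by decide +kernel)
              (CovZ.n2 (-22680, 9336) (by decide +kernel)
               (CovZ.leaf K2_ok TB_l18021 _)
               (CovZ.leaf K2_ok TB_l18022 _))
              (CovZ.n1 (-22680, 9384) (by decide +kernel)
               (CovZ.leaf K2_ok TB_l18023 _)
               (CovZ.n1 (-22680, 9360) (by decide +kernel)
                (CovZ.leaf K2_ok TB_l18024 _)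
                (CovZ.leaf K2_ok TB_l18025 _))))
             (CovZ.n1 (-22704, 9312) (by decide +kernel)
              (CovZ.n2 (-22728, 9336) (by decide +kernel)
               (CovZ.leaf K2_ok TB_l18026 _)
               (CovZ.leaf K2_ok TB_l18027 _))
              (CovZ.n1 (-22680, 9336) (by decide +kernel)
               (CovZ.leaf K2_ok TB_l18028 _)
               (CovZ.leaf K2_ok TB_l18029 _))))))
          (CovZ.n1 (-22752, 9504) (by decide +kernel)
           (CovZ.n2 (-22656, 9504) (by decide +kernel)
            (CovZ.n2 (-22704, 9456) (by decide +kernel)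
             (CovZ.n2 (-22704, 9504) (by decide +kernel)
              (CovZ.leaf K2_ok TB_l18030 _)
              (CovZ.leaf K2_ok TB_l18031 _))
             (CovZ.n1 (-22656, 9456) (by decide +kernel)
              (CovZ.leaf K2_ok TB_l18032 _)
              (CovZ.leaf K2_ok TB_l18033 _)))
            (CovZ.n1 (-22704, 9552) (by decide +kernel)
             (CovZ.leaf K2_ok TB_l18034 _)
             (CovZ.n1 (-22704, 9504) (by decide +kernel)
              (CovZ.leaf K2_ok TB_l18035 _)
              (CovZ.leaf K2_ok TB_l18036 _))))
           (CovZ.n1 (-22752, 9408) (by decide +kernel)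
            (CovZ.n2 (-22800, 9456) (by decide +kernel)
             (CovZ.n2 (-22752, 9456) (by decide +kernel)
              (CovZ.leaf K2_ok TB_l18037 _)
              (CovZ.leaf K2_ok TB_l18038 _))
             (CovZ.n1 (-22800, 9408) (by decide +kernel)
              (CovZ.n2 (-22824, 9432) (by decide +kernel)
               (CovZ.leaf K2_ok TB_l18039 _)
               (CovZ.leaf K2_ok TB_l18040 _))
              (CovZ.n1 (-22776, 9432) (by decide +kernel)
               (CovZ.leaf K2_ok TB_l18041 _)
               (CovZ.leaf K2_ok TB_l18042 _))))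
            (CovZ.n1 (-22704, 9456) (by decide +kernel)
             (CovZ.n2 (-22704, 9408) (by decide +kernel)
              (CovZ.n2 (-22728, 9432) (by decide +kernel)
               (CovZ.leaf K2_ok TB_l18043 _)
               (CovZ.leaf K2_ok TB_l18044 _))
              (CovZ.n1 (-22680, 9432) (by decide +kernel)
               (CovZ.leaf K2_ok TB_l18045 _)
               (CovZ.leaf K2_ok TB_l18046 _)))
             (CovZ.n1 (-22752, 9456) (by decide +kernel)
              (CovZ.leaf K2_ok TB_l18047 _)
              (CovZ.n1 (-22728, 9432) (by decide +kernel)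
               (CovZ.leaf K2_ok TB_l18048 _)
               (CovZ.leaf K2_ok TB_l18049 _)))))))
         (CovZ.n1 (-22848, 9216) (by decide +kernel)
          (CovZ.n2 (-22944, 9312) (by decide +kernel)
           (CovZ.n2 (-22848, 9312) (by decide +kernel)
            (CovZ.n2 (-22896, 9264) (by decide +kernel)
             (CovZ.n2 (-22896, 9312) (by decide +kernel)
              (CovZ.leaf K2_ok TB_l18050 _)
              (CovZ.leaf K2_ok TB_l18051 _))
             (CovZ.n1 (-22848, 9264) (by decide +kernel)
              (CovZ.leaf K2_ok TB_l18052 _)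
              (CovZ.leaf K2_ok TB_l18053 _)))
            (CovZ.n1 (-22896, 9360) (by decide +kernel)
             (CovZ.n2 (-22848, 9360) (by decide +kernel)
              (CovZ.leaf K2_ok TB_l18054 _)
              (CovZ.n1 (-22872, 9384) (by decide +kernel)
               (CovZ.leaf K2_ok TB_l18055 _)
               (CovZ.leaf K2_ok TB_l18056 _)))
             (CovZ.n1 (-22896, 9312) (by decide +kernel)
              (CovZ.leaf K2_ok TB_l18057 _)
              (CovZ.leaf K2_ok TB_l18058 _))))
           (CovZ.n1 (-22944, 9216) (by decide +kernel)
            (CovZ.n2 (-22992, 9264) (by decide +kernel)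
             (CovZ.n2 (-22944, 9264) (by decide +kernel)
              (CovZ.leaf K2_ok TB_l18059 _)
              (CovZ.leaf K2_ok TB_l18060 _))
             (CovZ.n1 (-22992, 9216) (by decide +kernel)
              (CovZ.leaf K2_ok TB_l18061 _)
              (CovZ.leaf K2_ok TB_l18062 _)))
            (CovZ.n1 (-22896, 9264) (by decide +kernel)
             (CovZ.n2 (-22896, 9216) (by decide +kernel)
              (CovZ.leaf K2_ok TB_l18063 _)
              (CovZ.leaf K2_ok TB_l18064 _))
             (CovZ.n1 (-22944, 9264) (by decide +kernel)
              (CovZ.leaf K2_ok TB_l18065 _)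
              (CovZ.leaf K2_ok TB_l18066 _)))))
          (CovZ.n1 (-22752, 9312) (by decide +kernel)
           (CovZ.n2 (-22752, 9216) (by decide +kernel)
            (CovZ.n2 (-22800, 9264) (by decide +kernel)
             (CovZ.n2 (-22752, 9264) (by decide +kernel)
              (CovZ.leaf K2_ok TB_l18067 _)
              (CovZ.n1 (-22776, 9288) (by decide +kernel)
               (CovZ.leaf K2_ok TB_l18068 _)
               (CovZ.leaf K2_ok TB_l18069 _)))
             (CovZ.n1 (-22800, 9216) (by decide +kernel)
              (CovZ.leaf K2_ok TB_l18070 _)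
              (CovZ.leaf K2_ok TB_l18071 _)))
            (CovZ.n1 (-22704, 9264) (by decide +kernel)
             (CovZ.n2 (-22704, 9216) (by decide +kernel)
              (CovZ.n2 (-22728, 9240) (by decide +kernel)
               (CovZ.leaf K2_ok TB_l18072 _)
               (CovZ.leaf K2_ok TB_l18073 _))
              (CovZ.leaf K2_ok TB_l18074 _))
             (CovZ.n1 (-22752, 9264) (by decide +kernel)
              (CovZ.leaf K2_ok TB_l18075 _)
              (CovZ.n1 (-22728, 9240) (by decide +kernel)
               (CovZ.leaf K2_ok TB_l18076 _)
               (CovZ.leaf K2_ok TB_l18077 _)))))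
           (CovZ.n1 (-22848, 9312) (by decide +kernel)
            (CovZ.n2 (-22800, 9360) (by decide +kernel)
             (CovZ.n2 (-22800, 9312) (by decide +kernel)
              (CovZ.leaf K2_ok TB_l18078 _)
              (CovZ.leaf K2_ok TB_l18079 _))
             (CovZ.n1 (-22848, 9360) (by decide +kernel)
              (CovZ.n2 (-22824, 9384) (by decide +kernel)
               (CovZ.leaf K2_ok TB_l18080 _)
               (CovZ.leaf K2_ok TB_l18081 _))
              (CovZ.n1 (-22824, 9336) (by decide +kernel)
               (CovZ.leaf K2_ok TB_l18082 _)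
               (CovZ.leaf K2_ok TB_l18083 _))))
            (CovZ.n1 (-22800, 9264) (by decide +kernel)
             (CovZ.n2 (-22848, 9264) (by decide +kernel)
              (CovZ.leaf K2_ok TB_l18084 _)
              (CovZ.leaf K2_ok TB_l18085 _))
             (CovZ.n1 (-22800, 9312) (by decide +kernel)
              (CovZ.n2 (-22776, 9288) (by decide +kernel)
               (CovZ.leaf K2_ok TB_l18086 _)
               (CovZ.leaf K2_ok TB_l18087 _))
              (CovZ.leaf K2_ok TB_l18088 _)))))))
        (CovZ.n1 (-22464, 9408) (by decide +kernel)
         TB_u285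
         TB_u286))

theorem TB_u289 : CovZ TB_M (toL (selN TB_LN 631665816743553874174510073196313591567625132913582997188529844530470617487947756319915150936479891546534793550504068)) [0, 7, 6, 1] (-22272, 9216) (-21888, 9216) (-21888, 9600) :=
    (CovZ.subM 631665816743553873402847209822769027054881441568903533975766005812350281085682965753616498135234239773615532070150148 (by decide +kernel)
        (CovZ.n2 (-22080, 9408) (by decide +kernel)
         (CovZ.n2 (-21888, 9408) (by decide +kernel)
          (CovZ.n2 (-21984, 9312) (by decide +kernel)
           (CovZ.n2 (-21984, 9408) (by decide +kernel)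
            (CovZ.n2 (-21936, 9360) (by decide +kernel)
             (CovZ.n2 (-21984, 9360) (by decide +kernel)
              (CovZ.leaf K2_ok TB_l18222 _)
              (CovZ.leaf K2_ok TB_l18223 _))
             (CovZ.n1 (-21936, 9408) (by decide +kernel)
              (CovZ.leaf K2_ok TB_l18224 _)
              (CovZ.leaf K2_ok TB_l18225 _)))
            (CovZ.n1 (-22032, 9360) (by decide +kernel)
             (CovZ.n2 (-22032, 9408) (by decide +kernel)
              (CovZ.leaf K2_ok TB_l18226 _)
              (CovZ.leaf K2_ok TB_l18227 _))
             (CovZ.leaf K2_ok TB_l18228 _)))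
           (CovZ.n1 (-21888, 9312) (by decide +kernel)
            (CovZ.n2 (-21936, 9264) (by decide +kernel)
             (CovZ.n2 (-21936, 9312) (by decide +kernel)
              (CovZ.n2 (-21912, 9288) (by decide +kernel)
               (CovZ.leaf K2_ok TB_l18229 _)
               (CovZ.leaf K2_ok TB_l18230 _))
              (CovZ.leaf K2_ok TB_l18231 _))
             (CovZ.n1 (-21888, 9264) (by decide +kernel)
              (CovZ.n2 (-21912, 9240) (by decide +kernel)
               (CovZ.leaf K2_ok TB_l18232 _)
               (CovZ.leaf K2_ok TB_l18233 _))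
              (CovZ.n1 (-21912, 9288) (by decide +kernel)
               (CovZ.leaf K2_ok TB_l18234 _)
               (CovZ.leaf K2_ok TB_l18235 _))))
            (CovZ.n1 (-21936, 9360) (by decide +kernel)
             (CovZ.leaf K2_ok TB_l18236 _)
             (CovZ.n1 (-21936, 9312) (by decide +kernel)
              (CovZ.leaf K2_ok TB_l18237 _)
              (CovZ.leaf K2_ok TB_l18238 _)))))
          (CovZ.n1 (-21984, 9504) (by decide +kernel)
           (CovZ.n2 (-21888, 9504) (by decide +kernel)
            (CovZ.leaf K2_ok TB_l18239 _)
            (CovZ.leaf K2_ok TB_l18240 _))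
           (CovZ.n1 (-21984, 9408) (by decide +kernel)
            (CovZ.n2 (-22032, 9456) (by decide +kernel)
             (CovZ.leaf K2_ok TB_l18241 _)
             (CovZ.n1 (-22032, 9408) (by decide +kernel)
              (CovZ.leaf K2_ok TB_l18242 _)
              (CovZ.leaf K2_ok TB_l18243 _)))
            (CovZ.n1 (-21936, 9456) (by decide +kernel)
             (CovZ.leaf K2_ok TB_l18244 _)
             (CovZ.leaf K2_ok TB_l18245 _)))))
         (CovZ.n1 (-22080, 9216) (by decide +kernel)
          (CovZ.n2 (-22176, 9312) (by decide +kernel)
           (CovZ.n2 (-22080, 9312) (by decide +kernel)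
            (CovZ.n2 (-22128, 9264) (by decide +kernel)
             (CovZ.n2 (-22128, 9312) (by decide +kernel)
              (CovZ.n2 (-22104, 9288) (by decide +kernel)
               (CovZ.leaf K2_ok TB_l18246 _)
               (CovZ.leaf K2_ok TB_l18247 _))
              (CovZ.n1 (-22152, 9288) (by decide +kernel)
               (CovZ.leaf K2_ok TB_l18248 _)
               (CovZ.leaf K2_ok TB_l18249 _)))
             (CovZ.n1 (-22080, 9264) (by decide +kernel)
              (CovZ.subM 1233717601242205992148217113904516327645038902685856399873725738377693334248095015372054767510944773941406960984064 (by decide +kernel)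
               (CovZ.n2 (-22104, 9240) (by decide +kernel)
                (CovZ.n2 (-22104, 9264) (by decide +kernel)
                 (CovZ.leaf K2_ok TB_l18250 _)
                 (CovZ.leaf K2_ok TB_l18251 _))
                (CovZ.n1 (-22080, 9240) (by decide +kernel)
                 (CovZ.leaf K2_ok TB_l18252 _)
                 (CovZ.leaf K2_ok TB_l18253 _))))
              (CovZ.n1 (-22104, 9288) (by decide +kernel)
               (CovZ.leaf K2_ok TB_l18254 _)
               (CovZ.n1 (-22104, 9264) (by decide +kernel)
                (CovZ.leaf K2_ok TB_l18255 _)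
                (CovZ.leaf K2_ok TB_l18256 _)))))
            (CovZ.n1 (-22128, 9360) (by decide +kernel)
             (CovZ.n2 (-22080, 9360) (by decide +kernel)
              (CovZ.leaf K2_ok TB_l18257 _)
              (CovZ.leaf K2_ok TB_l18258 _))
             (CovZ.n1 (-22128, 9312) (by decide +kernel)
              (CovZ.n2 (-22152, 9336) (by decide +kernel)
               (CovZ.leaf K2_ok TB_l18259 _)
               (CovZ.leaf K2_ok TB_l18260 _))
              (CovZ.n1 (-22104, 9336) (by decide +kernel)
               (CovZ.leaf K2_ok TB_l18261 _)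
               (CovZ.leaf K2_ok TB_l18262 _)))))
           (CovZ.n1 (-22176, 9216) (by decide +kernel)
            (CovZ.n2 (-22224, 9264) (by decide +kernel)
             (CovZ.subM 1233717601242205992148217113904516327645038902685856399873725738377693334248095015372054767510944773941406960984064 (by decide +kernel)
              (CovZ.n2 (-22176, 9264) (by decide +kernel)
               (CovZ.n2 (-22200, 9240) (by decide +kernel)
                (CovZ.n2 (-22200, 9264) (by decide +kernel)
                 (CovZ.leaf K2_ok TB_l18263 _)
                 (CovZ.leaf K2_ok TB_l18264 _))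
                (CovZ.n1 (-22176, 9240) (by decide +kernel)
                 (CovZ.leaf K2_ok TB_l18265 _)
                 (CovZ.leaf K2_ok TB_l18266 _)))
               (CovZ.n1 (-22200, 9288) (by decide +kernel)
                (CovZ.leaf K2_ok TB_l18267 _)
                (CovZ.n1 (-22200, 9264) (by decide +kernel)
                 (CovZ.leaf K2_ok TB_l18268 _)
                 (CovZ.leaf K2_ok TB_l18269 _)))))
             (CovZ.n1 (-22224, 9216) (by decide +kernel)
              (CovZ.n2 (-22248, 9240) (by decide +kernel)
               (CovZ.n2 (-22224, 9240) (by decide +kernel)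
                (CovZ.leaf K2_ok TB_l18270 _)
                (CovZ.leaf K2_ok TB_l18271 _))
               (CovZ.n1 (-22248, 9216) (by decide +kernel)
                (CovZ.leaf K2_ok TB_l18272 _)
                (CovZ.leaf K2_ok TB_l18273 _)))
              (CovZ.n1 (-22200, 9240) (by decide +kernel)
               (CovZ.n2 (-22200, 9216) (by decide +kernel)
                (CovZ.leaf K2_ok TB_l18274 _)
                (CovZ.leaf K2_ok TB_l18275 _))
               (CovZ.leaf K2_ok TB_l18276 _))))
            (CovZ.subM 1233717601242205992148217113904516327645038902685856399873725738377693334248095015372054767510944773941406960984064 (by decide +kernel)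
             (CovZ.n1 (-22128, 9264) (by decide +kernel)
              (CovZ.n2 (-22128, 9216) (by decide +kernel)
               (CovZ.n2 (-22152, 9240) (by decide +kernel)
                (CovZ.n2 (-22128, 9240) (by decide +kernel)
                 (CovZ.leaf K2_ok TB_l18277 _)
                 (CovZ.leaf K2_ok TB_l18278 _))
                (CovZ.n1 (-22152, 9216) (by decide +kernel)
                 (CovZ.leaf K2_ok TB_l18279 _)
                 (CovZ.leaf K2_ok TB_l18280 _)))
               (CovZ.n1 (-22104, 9240) (by decide +kernel)
                (CovZ.n2 (-22104, 9216) (by decide +kernel)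
                 (CovZ.leaf K2_ok TB_l18281 _)
                 (CovZ.leaf K2_ok TB_l18282 _))
                (CovZ.leaf K2_ok TB_l18283 _)))
              (CovZ.n1 (-22176, 9264) (by decide +kernel)
               (CovZ.n2 (-22152, 9288) (by decide +kernel)
                (CovZ.n2 (-22152, 9264) (by decide +kernel)
                 (CovZ.leaf K2_ok TB_l18284 _)
                 (CovZ.leaf K2_ok TB_l18285 _))
                (CovZ.leaf K2_ok TB_l18286 _))
               (CovZ.n1 (-22152, 9240) (by decide +kernel)
                (CovZ.n2 (-22176, 9240) (by decide +kernel)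
                 (CovZ.leaf K2_ok TB_l18287 _)
                 (CovZ.leaf K2_ok TB_l18288 _))
                (CovZ.n1 (-22152, 9264) (by decide +kernel)
                 (CovZ.leaf K2_ok TB_l18289 _)
                 (CovZ.leaf K2_ok TB_l18290 _))))))))
          (CovZ.n1 (-21984, 9312) (by decide +kernel)
           (CovZ.n2 (-21984, 9216) (by decide +kernel)
            (CovZ.n2 (-22032, 9264) (by decide +kernel)
             (CovZ.n2 (-21984, 9264) (by decide +kernel)
              (CovZ.n2 (-22008, 9240) (by decide +kernel)
               (CovZ.n2 (-22008, 9264) (by decide +kernel)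
                (CovZ.leaf K2_ok TB_l18291 _)
                (CovZ.leaf K2_ok TB_l18292 _))
               (CovZ.leaf K2_ok TB_l18293 _))
              (CovZ.n1 (-22008, 9288) (by decide +kernel)
               (CovZ.leaf K2_ok TB_l18294 _)
               (CovZ.n1 (-22008, 9264) (by decide +kernel)
                (CovZ.leaf K2_ok TB_l18295 _)
                (CovZ.leaf K2_ok TB_l18296 _))))
             (CovZ.n1 (-22032, 9216) (by decide +kernel)
              (CovZ.n2 (-22056, 9240) (by decide +kernel)
               (CovZ.leaf K2_ok TB_l18297 _)
               (CovZ.n1 (-22056, 9216) (by decide +kernel)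
                (CovZ.leaf K2_ok TB_l18298 _)
                (CovZ.leaf K2_ok TB_l18299 _)))
              (CovZ.subM 1233717601242205992214966708777044767719883331003654903455060254654570680914351172233981219294668734500634684825600 (by decide +kernel)
               (CovZ.n1 (-22008, 9240) (by decide +kernel)
                (CovZ.n2 (-22008, 9216) (by decide +kernel)
                 (CovZ.leaf K2_ok TB_l18300 _)
                 (CovZ.leaf K2_ok TB_l18301 _))
                (CovZ.n1 (-22032, 9240) (by decide +kernel)
                 (CovZ.leaf K2_ok TB_l18302 _)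
                 (CovZ.leaf K2_ok TB_l18303 _))))))
            (CovZ.n1 (-21936, 9264) (by decide +kernel)
             (CovZ.n2 (-21936, 9216) (by decide +kernel)
              (CovZ.n2 (-21960, 9240) (by decide +kernel)
               (CovZ.leaf K2_ok TB_l18304 _)
               (CovZ.n1 (-21960, 9216) (by decide +kernel)
                (CovZ.leaf K2_ok TB_l18305 _)
                (CovZ.leaf K2_ok TB_l18306 _)))
              (CovZ.n1 (-21912, 9240) (by decide +kernel)
               (CovZ.n2 (-21912, 9216) (by decide +kernel)
                (CovZ.leaf K2_ok TB_l18307 _)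
                (CovZ.leaf K2_ok TB_l18308 _))
               (CovZ.leaf K2_ok TB_l18309 _)))
             (CovZ.n1 (-21984, 9264) (by decide +kernel)
              (CovZ.n2 (-21960, 9288) (by decide +kernel)
               (CovZ.n2 (-21960, 9264) (by decide +kernel)
                (CovZ.leaf K2_ok TB_l18310 _)
                (CovZ.leaf K2_ok TB_l18311 _))
               (CovZ.leaf K2_ok TB_l18312 _))
              (CovZ.n1 (-21960, 9240) (by decide +kernel)
               (CovZ.leaf K2_ok TB_l18313 _)
               (CovZ.n1 (-21960, 9264) (by decide +kernel)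
                (CovZ.leaf K2_ok TB_l18314 _)
                (CovZ.leaf K2_ok TB_l18315 _))))))
           (CovZ.n1 (-22080, 9312) (by decide +kernel)
            (CovZ.n2 (-22032, 9360) (by decide +kernel)
             (CovZ.n2 (-22032, 9312) (by decide +kernel)
              (CovZ.leaf K2_ok TB_l18316 _)
              (CovZ.leaf K2_ok TB_l18317 _))
             (CovZ.n1 (-22080, 9360) (by decide +kernel)
              (CovZ.leaf K2_ok TB_l18318 _)
              (CovZ.n1 (-22056, 9336) (by decide +kernel)
               (CovZ.leaf K2_ok TB_l18319 _)
               (CovZ.leaf K2_ok TB_l18320 _))))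
            (CovZ.n1 (-22032, 9264) (by decide +kernel)
             (CovZ.n2 (-22080, 9264) (by decide +kernel)
              (CovZ.n2 (-22056, 9288) (by decide +kernel)
               (CovZ.n2 (-22056, 9264) (by decide +kernel)
                (CovZ.leaf K2_ok TB_l18321 _)
                (CovZ.leaf K2_ok TB_l18322 _))
               (CovZ.leaf K2_ok TB_l18323 _))
              (CovZ.subM 1233717601242205992148217113904516327645038902685856399873725738377693334248095015372054767510944773941406960984064 (by decide +kernel)
               (CovZ.n1 (-22056, 9240) (by decide +kernel)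
                (CovZ.n2 (-22080, 9240) (by decide +kernel)
                 (CovZ.leaf K2_ok TB_l18324 _)
                 (CovZ.leaf K2_ok TB_l18325 _))
                (CovZ.n1 (-22056, 9264) (by decide +kernel)
                 (CovZ.leaf K2_ok TB_l18326 _)
                 (CovZ.leaf K2_ok TB_l18327 _)))))
             (CovZ.n1 (-22032, 9312) (by decide +kernel)
              (CovZ.n2 (-22008, 9288) (by decide +kernel)
               (CovZ.leaf K2_ok TB_l18328 _)
               (CovZ.leaf K2_ok TB_l18329 _))
              (CovZ.leaf K2_ok TB_l18330 _))))))))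

theorem TB_u290 : CovZ TB_M (toL (selN TB_LN 631665816743553874174510073196313591567625132913582997188529844530470617487947756319915150936479891546534793550504068)) [0, 7, 6, 1] (-21888, 9216) (-21504, 9216) (-21888, 9600) :=
    (CovZ.n1 (-21696, 9408) (by decide +kernel)
        (CovZ.n2 (-21696, 9216) (by decide +kernel)
         (CovZ.subM 1233717601242206162342996640133906408479620005992590957803426103691159361024938931310220813137671052386855104282624 (by decide +kernel)
          (CovZ.n2 (-21792, 9312) (by decide +kernel)
           (CovZ.n2 (-21696, 9312) (by decide +kernel)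
            (CovZ.n2 (-21744, 9264) (by decide +kernel)
             (CovZ.n2 (-21744, 9312) (by decide +kernel)
              (CovZ.leaf K2_ok TB_l18331 _)
              (CovZ.leaf K2_ok TB_l18332 _))
             (CovZ.n1 (-21696, 9264) (by decide +kernel)
              (CovZ.leaf K2_ok TB_l18333 _)
              (CovZ.leaf K2_ok TB_l18334 _)))
            (CovZ.n1 (-21744, 9360) (by decide +kernel)
             (CovZ.leaf K2_ok TB_l18335 _)
             (CovZ.n1 (-21744, 9312) (by decide +kernel)
              (CovZ.leaf K2_ok TB_l18336 _)
              (CovZ.leaf K2_ok TB_l18337 _))))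
           (CovZ.n1 (-21792, 9216) (by decide +kernel)
            (CovZ.n2 (-21840, 9264) (by decide +kernel)
             (CovZ.n2 (-21792, 9264) (by decide +kernel)
              (CovZ.n2 (-21816, 9240) (by decide +kernel)
               (CovZ.leaf K2_ok TB_l18338 _)
               (CovZ.leaf K2_ok TB_l18339 _))
              (CovZ.leaf K2_ok TB_l18340 _))
             (CovZ.n1 (-21840, 9216) (by decide +kernel)
              (CovZ.n2 (-21864, 9240) (by decide +kernel)
               (CovZ.leaf K2_ok TB_l18341 _)
               (CovZ.n1 (-21864, 9216) (by decide +kernel)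
                (CovZ.leaf K2_ok TB_l18342 _)
                (CovZ.leaf K2_ok TB_l18343 _)))
              (CovZ.n1 (-21816, 9240) (by decide +kernel)
               (CovZ.n2 (-21816, 9216) (by decide +kernel)
                (CovZ.leaf K2_ok TB_l18344 _)
                (CovZ.leaf K2_ok TB_l18345 _))
               (CovZ.leaf K2_ok TB_l18346 _))))
            (CovZ.n1 (-21744, 9264) (by decide +kernel)
             (CovZ.n2 (-21744, 9216) (by decide +kernel)
              (CovZ.n2 (-21768, 9240) (by decide +kernel)
               (CovZ.leaf K2_ok TB_l18347 _)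
               (CovZ.leaf K2_ok TB_l18348 _))
              (CovZ.n1 (-21720, 9240) (by decide +kernel)
               (CovZ.leaf K2_ok TB_l18349 _)
               (CovZ.leaf K2_ok TB_l18350 _)))
             (CovZ.n1 (-21792, 9264) (by decide +kernel)
              (CovZ.leaf K2_ok TB_l18351 _)
              (CovZ.n1 (-21768, 9240) (by decide +kernel)
               (CovZ.leaf K2_ok TB_l18352 _)
               (CovZ.leaf K2_ok TB_l18353 _)))))))
         (CovZ.subM 1233717601242206007166875960223415344485035274190519757096009280297248645144073827002352707797948224538953870475264 (by decide +kernel)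
          (CovZ.n1 (-21600, 9312) (by decide +kernel)
           (CovZ.n2 (-21600, 9216) (by decide +kernel)
            (CovZ.n2 (-21648, 9264) (by decide +kernel)
             (CovZ.leaf K2_ok TB_l18354 _)
             (CovZ.n1 (-21648, 9216) (by decide +kernel)
              (CovZ.n2 (-21672, 9240) (by decide +kernel)
               (CovZ.leaf K2_ok TB_l18355 _)
               (CovZ.leaf K2_ok TB_l18356 _))
              (CovZ.leaf K2_ok TB_l18357 _)))
            (CovZ.n1 (-21552, 9264) (by decide +kernel)
             (CovZ.n2 (-21552, 9216) (by decide +kernel)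
              (CovZ.leaf K2_ok TB_l18358 _)
              (CovZ.leaf K2_ok TB_l18359 _))
             (CovZ.leaf K2_ok TB_l18360 _)))
           (CovZ.n1 (-21696, 9312) (by decide +kernel)
            (CovZ.n2 (-21648, 9360) (by decide +kernel)
             (CovZ.n2 (-21648, 9312) (by decide +kernel)
              (CovZ.leaf K2_ok TB_l18361 _)
              (CovZ.leaf K2_ok TB_l18362 _))
             (CovZ.leaf K2_ok TB_l18363 _))
            (CovZ.n1 (-21648, 9264) (by decide +kernel)
             (CovZ.n2 (-21696, 9264) (by decide +kernel)
              (CovZ.leaf K2_ok TB_l18364 _)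
              (CovZ.n1 (-21672, 9240) (by decide +kernel)
               (CovZ.leaf K2_ok TB_l18365 _)
               (CovZ.leaf K2_ok TB_l18366 _)))
             (CovZ.n1 (-21648, 9312) (by decide +kernel)
              (CovZ.leaf K2_ok TB_l18367 _)
              (CovZ.leaf K2_ok TB_l18368 _)))))))
        (CovZ.subM 1233717601242206025639826341195661135198230811141255571808319304468567130502931920556947534697032300630604490211328 (by decide +kernel)
         (CovZ.n1 (-21888, 9408) (by decide +kernel)
          (CovZ.n2 (-21792, 9504) (by decide +kernel)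
           (CovZ.n2 (-21792, 9408) (by decide +kernel)
            (CovZ.n2 (-21840, 9456) (by decide +kernel)
             (CovZ.leaf K2_ok TB_l18369 _)
             (CovZ.leaf K2_ok TB_l18370 _))
            (CovZ.n1 (-21744, 9456) (by decide +kernel)
             (CovZ.leaf K2_ok TB_l18371 _)
             (CovZ.leaf K2_ok TB_l18372 _)))
           (CovZ.n1 (-21888, 9504) (by decide +kernel)
            (CovZ.leaf K2_ok TB_l18373 _)
            (CovZ.n1 (-21840, 9456) (by decide +kernel)
             (CovZ.leaf K2_ok TB_l18374 _)
             (CovZ.leaf K2_ok TB_l18375 _))))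
          (CovZ.n1 (-21792, 9312) (by decide +kernel)
           (CovZ.n2 (-21888, 9312) (by decide +kernel)
            (CovZ.n2 (-21840, 9360) (by decide +kernel)
             (CovZ.n2 (-21840, 9312) (by decide +kernel)
              (CovZ.leaf K2_ok TB_l18376 _)
              (CovZ.leaf K2_ok TB_l18377 _))
             (CovZ.leaf K2_ok TB_l18378 _))
            (CovZ.n1 (-21840, 9264) (by decide +kernel)
             (CovZ.n2 (-21888, 9264) (by decide +kernel)
              (CovZ.n2 (-21864, 9288) (by decide +kernel)
               (CovZ.leaf K2_ok TB_l18379 _)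
               (CovZ.leaf K2_ok TB_l18380 _))
              (CovZ.n1 (-21864, 9240) (by decide +kernel)
               (CovZ.leaf K2_ok TB_l18381 _)
               (CovZ.leaf K2_ok TB_l18382 _)))
             (CovZ.n1 (-21840, 9312) (by decide +kernel)
              (CovZ.n2 (-21816, 9288) (by decide +kernel)
               (CovZ.leaf K2_ok TB_l18383 _)
               (CovZ.leaf K2_ok TB_l18384 _))
              (CovZ.leaf K2_ok TB_l18385 _))))
           (CovZ.n1 (-21792, 9408) (by decide +kernel)
            (CovZ.n2 (-21744, 9360) (by decide +kernel)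
             (CovZ.leaf K2_ok TB_l18386 _)
             (CovZ.leaf K2_ok TB_l18387 _))
            (CovZ.n1 (-21840, 9360) (by decide +kernel)
             (CovZ.leaf K2_ok TB_l18388 _)
             (CovZ.leaf K2_ok TB_l18389 _)))))))

theorem TB_u291 : CovZ TB_M (toL (selN TB_LN 1233717610416200464652581674333940867107877451712168667529398288095151131928630499150903273600874557933459364380672)) [0, 7, 6, 1] (-19968, 10752) (-20736, 9984) (-19968, 9216) :=
    (CovZ.n2 (-19968, 9984) (by decide +kernel)
     (CovZ.n2 (-20352, 9600) (by decide +kernel)
      (CovZ.n2 (-20352, 9984) (by decide +kernel)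
       (CovZ.n2 (-20160, 9792) (by decide +kernel)
        (CovZ.n2 (-20352, 9792) (by decide +kernel)
         (CovZ.leaf K2_ok TB_l19216 _)
         (CovZ.leaf K2_ok TB_l19217 _))
        (CovZ.n1 (-20160, 9984) (by decide +kernel)
         (CovZ.leaf K2_ok TB_l19218 _)
         (CovZ.leaf K2_ok TB_l19219 _)))
       (CovZ.n1 (-20544, 9792) (by decide +kernel)
        (CovZ.n2 (-20544, 9984) (by decide +kernel)
         (CovZ.leaf K2_ok TB_l19220 _)
         (CovZ.leaf K2_ok TB_l19221 _))
        (CovZ.leaf K2_ok TB_l19222 _)))
      (CovZ.n1 (-19968, 9600) (by decide +kernel)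
       (CovZ.n2 (-20160, 9408) (by decide +kernel)
        (CovZ.n2 (-20160, 9600) (by decide +kernel)
         (CovZ.n2 (-20064, 9504) (by decide +kernel)
          (CovZ.leaf K2_ok TB_l19223 _)
          (CovZ.leaf K2_ok TB_l19224 _))
         (CovZ.leaf K2_ok TB_l19225 _))
        (CovZ.n1 (-19968, 9408) (by decide +kernel)
         (CovZ.n2 (-20064, 9312) (by decide +kernel)
          (CovZ.leaf K2_ok TB_l19226 _)
          (CovZ.leaf K2_ok TB_l19227 _))
         (CovZ.n1 (-20064, 9504) (by decide +kernel)
          (CovZ.leaf K2_ok TB_l19228 _)
          (CovZ.leaf K2_ok TB_l19229 _))))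
       (CovZ.n1 (-20160, 9792) (by decide +kernel)
        (CovZ.leaf K2_ok TB_l19230 _)
        (CovZ.n1 (-20160, 9600) (by decide +kernel)
         (CovZ.leaf K2_ok TB_l19231 _)
         (CovZ.leaf K2_ok TB_l19232 _)))))
     (CovZ.n1 (-20352, 10368) (by decide +kernel)
      (CovZ.n2 (-19968, 10368) (by decide +kernel)
       (CovZ.leaf K2_ok TB_l19233 _)
       (CovZ.leaf K2_ok TB_l19234 _))
      (CovZ.n1 (-20352, 9984) (by decide +kernel)
       (CovZ.n2 (-20544, 10176) (by decide +kernel)
        (CovZ.leaf K2_ok TB_l19235 _)
        (CovZ.n1 (-20544, 9984) (by decide +kernel)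
         (CovZ.leaf K2_ok TB_l19236 _)
         (CovZ.leaf K2_ok TB_l19237 _)))
       (CovZ.n1 (-20160, 10176) (by decide +kernel)
        (CovZ.leaf K2_ok TB_l19238 _)
        (CovZ.leaf K2_ok TB_l19239 _)))))

theorem TB_u292 : CovZ TB_M (toL (selN TB_LN 1233717610416200464652581674333940867107877451712168667529398288095151131928630499150903273600874557933459364380672)) [0, 7, 6, 1] (-20736, 9984) (-21504, 9216) (-19968, 9216) :=
    (CovZ.n1 (-20736, 9216) (by decide +kernel)
     (CovZ.n2 (-21120, 9600) (by decide +kernel)
      (CovZ.subM 1233717601242136000125024057522936407573771138802165149070485501800553504891463611756426112516487370141813117550592 (by decide +kernel)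
       (CovZ.n2 (-20736, 9600) (by decide +kernel)
        (CovZ.n2 (-20928, 9408) (by decide +kernel)
         (CovZ.n2 (-20928, 9600) (by decide +kernel)
          (CovZ.n2 (-20832, 9504) (by decide +kernel)
           (CovZ.leaf K2_ok TB_l19240 _)
           (CovZ.leaf K2_ok TB_l19241 _))
          (CovZ.n1 (-21024, 9504) (by decide +kernel)
           (CovZ.leaf K2_ok TB_l19242 _)
           (CovZ.leaf K2_ok TB_l19243 _)))
         (CovZ.n1 (-20736, 9408) (by decide +kernel)
          (CovZ.n2 (-20832, 9312) (by decide +kernel)
           (CovZ.n2 (-20832, 9408) (by decide +kernel)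
            (CovZ.leaf K2_ok TB_l19244 _)
            (CovZ.leaf K2_ok TB_l19245 _))
           (CovZ.n1 (-20736, 9312) (by decide +kernel)
            (CovZ.leaf K2_ok TB_l19246 _)
            (CovZ.leaf K2_ok TB_l19247 _)))
          (CovZ.n1 (-20832, 9504) (by decide +kernel)
           (CovZ.leaf K2_ok TB_l19248 _)
           (CovZ.n1 (-20832, 9408) (by decide +kernel)
            (CovZ.leaf K2_ok TB_l19249 _)
            (CovZ.leaf K2_ok TB_l19250 _)))))
        (CovZ.n1 (-20928, 9792) (by decide +kernel)
         (CovZ.n2 (-20736, 9792) (by decide +kernel)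
          (CovZ.leaf K2_ok TB_l19251 _)
          (CovZ.leaf K2_ok TB_l19252 _))
         (CovZ.n1 (-20928, 9600) (by decide +kernel)
          (CovZ.n2 (-21024, 9696) (by decide +kernel)
           (CovZ.leaf K2_ok TB_l19253 _)
           (CovZ.leaf K2_ok TB_l19254 _))
          (CovZ.leaf K2_ok TB_l19255 _)))))
      (CovZ.n1 (-21120, 9216) (by decide +kernel)
       (CovZ.n2 (-21312, 9408) (by decide +kernel)
        (CovZ.subM 1233717601242136000125024057522936407573771138802165149070485501800553504891463611756426112516487370141813117550592 (by decide +kernel)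
         (CovZ.n2 (-21120, 9408) (by decide +kernel)
          (CovZ.n2 (-21216, 9312) (by decide +kernel)
           (CovZ.n2 (-21216, 9408) (by decide +kernel)
            (CovZ.leaf K2_ok TB_l19256 _)
            (CovZ.leaf K2_ok TB_l19257 _))
           (CovZ.n1 (-21120, 9312) (by decide +kernel)
            (CovZ.leaf K2_ok TB_l19258 _)
            (CovZ.n1 (-21168, 9360) (by decide +kernel)
             (CovZ.leaf K2_ok TB_l19259 _)
             (CovZ.leaf K2_ok TB_l19260 _))))
          (CovZ.n1 (-21216, 9504) (by decide +kernel)
           (CovZ.leaf K2_ok TB_l19261 _)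
           (CovZ.n1 (-21216, 9408) (by decide +kernel)
            (CovZ.leaf K2_ok TB_l19262 _)
            (CovZ.leaf K2_ok TB_l19263 _)))))
        (CovZ.n1 (-21312, 9216) (by decide +kernel)
         (CovZ.n2 (-21408, 9312) (by decide +kernel)
          (CovZ.subM 1233717601242136000125024057522936407573771138802165149070485501800553504891463611756426102845079660303275113054208 (by decide +kernel)
           (CovZ.n2 (-21312, 9312) (by decide +kernel)
            (CovZ.n2 (-21360, 9264) (by decide +kernel)
             (CovZ.leaf K2_ok TB_l19264 _)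
             (CovZ.leaf K2_ok TB_l19265 _))
            (CovZ.n1 (-21360, 9360) (by decide +kernel)
             (CovZ.leaf K2_ok TB_l19266 _)
             (CovZ.leaf K2_ok TB_l19267 _))))
          (CovZ.n1 (-21408, 9216) (by decide +kernel)
           (CovZ.n2 (-21456, 9264) (by decide +kernel)
            (CovZ.leaf K2_ok TB_l19268 _)
            (CovZ.n1 (-21456, 9216) (by decide +kernel)
             (CovZ.leaf K2_ok TB_l19269 _)
             (CovZ.leaf K2_ok TB_l19270 _)))
           (CovZ.n1 (-21360, 9264) (by decide +kernel)
            (CovZ.n2 (-21360, 9216) (by decide +kernel)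
             (CovZ.leaf K2_ok TB_l19271 _)
             (CovZ.leaf K2_ok TB_l19272 _))
            (CovZ.leaf K2_ok TB_l19273 _))))
         (CovZ.subM 1233717601242136000125024057522936407573771138802165149070485501800553504891463611756426102845079660303275113054208 (by decide +kernel)
          (CovZ.n1 (-21216, 9312) (by decide +kernel)
           (CovZ.n2 (-21216, 9216) (by decide +kernel)
            (CovZ.n2 (-21264, 9264) (by decide +kernel)
             (CovZ.leaf K2_ok TB_l19274 _)
             (CovZ.n1 (-21264, 9216) (by decide +kernel)
              (CovZ.leaf K2_ok TB_l19275 _)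
              (CovZ.leaf K2_ok TB_l19276 _)))
            (CovZ.n1 (-21168, 9264) (by decide +kernel)
             (CovZ.n2 (-21168, 9216) (by decide +kernel)
              (CovZ.leaf K2_ok TB_l19277 _)
              (CovZ.leaf K2_ok TB_l19278 _))
             (CovZ.leaf K2_ok TB_l19279 _)))
           (CovZ.n1 (-21312, 9312) (by decide +kernel)
            (CovZ.n2 (-21264, 9360) (by decide +kernel)
             (CovZ.leaf K2_ok TB_l19280 _)
             (CovZ.leaf K2_ok TB_l19281 _))
            (CovZ.n1 (-21264, 9264) (by decide +kernel)
             (CovZ.leaf K2_ok TB_l19282 _)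
             (CovZ.leaf K2_ok TB_l19283 _)))))))
       (CovZ.subM 1233717601242136000125024057522936407573771138802165149070485501800553504891463611756426112516487370141813117550592 (by decide +kernel)
        (CovZ.n1 (-20928, 9408) (by decide +kernel)
         (CovZ.n2 (-20928, 9216) (by decide +kernel)
          (CovZ.n2 (-21024, 9312) (by decide +kernel)
           (CovZ.n2 (-20928, 9312) (by decide +kernel)
            (CovZ.leaf K2_ok TB_l19284 _)
            (CovZ.leaf K2_ok TB_l19285 _))
           (CovZ.n1 (-21024, 9216) (by decide +kernel)
            (CovZ.n2 (-21072, 9264) (by decide +kernel)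
             (CovZ.leaf K2_ok TB_l19286 _)
             (CovZ.leaf K2_ok TB_l19287 _))
            (CovZ.n1 (-20976, 9264) (by decide +kernel)
             (CovZ.leaf K2_ok TB_l19288 _)
             (CovZ.leaf K2_ok TB_l19289 _))))
          (CovZ.n1 (-20832, 9312) (by decide +kernel)
           (CovZ.n2 (-20832, 9216) (by decide +kernel)
            (CovZ.n2 (-20880, 9264) (by decide +kernel)
             (CovZ.leaf K2_ok TB_l19290 _)
             (CovZ.leaf K2_ok TB_l19291 _))
            (CovZ.leaf K2_ok TB_l19292 _))
           (CovZ.n1 (-20928, 9312) (by decide +kernel)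
            (CovZ.leaf K2_ok TB_l19293 _)
            (CovZ.n1 (-20880, 9264) (by decide +kernel)
             (CovZ.leaf K2_ok TB_l19294 _)
             (CovZ.leaf K2_ok TB_l19295 _)))))
         (CovZ.n1 (-21120, 9408) (by decide +kernel)
          (CovZ.n2 (-21024, 9504) (by decide +kernel)
           (CovZ.n2 (-21024, 9408) (by decide +kernel)
            (CovZ.leaf K2_ok TB_l19296 _)
            (CovZ.leaf K2_ok TB_l19297 _))
           (CovZ.leaf K2_ok TB_l19298 _))
          (CovZ.n1 (-21024, 9312) (by decide +kernel)
           (CovZ.n2 (-21120, 9312) (by decide +kernel)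
            (CovZ.leaf K2_ok TB_l19299 _)
            (CovZ.n1 (-21072, 9264) (by decide +kernel)
             (CovZ.leaf K2_ok TB_l19300 _)
             (CovZ.leaf K2_ok TB_l19301 _)))
           (CovZ.n1 (-21024, 9408) (by decide +kernel)
            (CovZ.leaf K2_ok TB_l19302 _)
            (CovZ.leaf K2_ok TB_l19303 _))))))))
     (CovZ.n1 (-20352, 9600) (by decide +kernel)
      (CovZ.n2 (-20352, 9216) (by decide +kernel)
       (CovZ.subM 34996011596528190789960035633881941845650710894291399074156182035740685445841874146792689155499360256 (by decide +kernel)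
        (CovZ.n2 (-20544, 9408) (by decide +kernel)
         (CovZ.n2 (-20352, 9408) (by decide +kernel)
          (CovZ.n2 (-20448, 9312) (by decide +kernel)
           (CovZ.n2 (-20448, 9408) (by decide +kernel)
            (CovZ.leaf K2_ok TB_l19304 _)
            (CovZ.leaf K2_ok TB_l19305 _))
           (CovZ.leaf K2_ok TB_l19306 _))
          (CovZ.n1 (-20448, 9504) (by decide +kernel)
           (CovZ.leaf K2_ok TB_l19307 _)
           (CovZ.leaf K2_ok TB_l19308 _)))
         (CovZ.n1 (-20544, 9216) (by decide +kernel)
          (CovZ.n2 (-20640, 9312) (by decide +kernel)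
           (CovZ.leaf K2_ok TB_l19309 _)
           (CovZ.n1 (-20640, 9216) (by decide +kernel)
            (CovZ.leaf K2_ok TB_l19310 _)
            (CovZ.leaf K2_ok TB_l19311 _)))
          (CovZ.n1 (-20448, 9312) (by decide +kernel)
           (CovZ.n2 (-20448, 9216) (by decide +kernel)
            (CovZ.leaf K2_ok TB_l19312 _)
            (CovZ.leaf K2_ok TB_l19313 _))
           (CovZ.leaf K2_ok TB_l19314 _)))))
       (CovZ.n1 (-20160, 9408) (by decide +kernel)
        (CovZ.n2 (-20160, 9216) (by decide +kernel)
         (CovZ.n2 (-20256, 9312) (by decide +kernel)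
          (CovZ.leaf K2_ok TB_l19315 _)
          (CovZ.n1 (-20256, 9216) (by decide +kernel)
           (CovZ.leaf K2_ok TB_l19316 _)
           (CovZ.leaf K2_ok TB_l19317 _)))
         (CovZ.n1 (-20064, 9312) (by decide +kernel)
          (CovZ.n2 (-20064, 9216) (by decide +kernel)
           (CovZ.leaf K2_ok TB_l19318 _)
           (CovZ.leaf K2_ok TB_l19319 _))
          (CovZ.leaf K2_ok TB_l19320 _)))
        (CovZ.subM 34996011596528190789960035633881941845650710894291399074156182035740685445841874146792689155499360256 (by decide +kernel)
         (CovZ.n1 (-20352, 9408) (by decide +kernel)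
          (CovZ.n2 (-20256, 9504) (by decide +kernel)
           (CovZ.leaf K2_ok TB_l19321 _)
           (CovZ.leaf K2_ok TB_l19322 _))
          (CovZ.n1 (-20256, 9312) (by decide +kernel)
           (CovZ.leaf K2_ok TB_l19323 _)
           (CovZ.leaf K2_ok TB_l19324 _))))))
      (CovZ.subM 1233717601242131625623574491499087662569316903559434391309606299086347646665466571150245287617339303668975417688064 (by decide +kernel)
       (CovZ.n1 (-20736, 9600) (by decide +kernel)
        (CovZ.n2 (-20544, 9792) (by decide +kernel)
         (CovZ.n2 (-20544, 9600) (by decide +kernel)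
          (CovZ.n2 (-20640, 9696) (by decide +kernel)
           (CovZ.leaf K2_ok TB_l19325 _)
           (CovZ.leaf K2_ok TB_l19326 _))
          (CovZ.leaf K2_ok TB_l19327 _))
         (CovZ.n1 (-20736, 9792) (by decide +kernel)
          (CovZ.leaf K2_ok TB_l19328 _)
          (CovZ.leaf K2_ok TB_l19329 _)))
        (CovZ.n1 (-20544, 9408) (by decide +kernel)
         (CovZ.n2 (-20736, 9408) (by decide +kernel)
          (CovZ.n2 (-20640, 9504) (by decide +kernel)
           (CovZ.n2 (-20640, 9408) (by decide +kernel)
            (CovZ.leaf K2_ok TB_l19330 _)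
            (CovZ.leaf K2_ok TB_l19331 _))
           (CovZ.leaf K2_ok TB_l19332 _))
          (CovZ.n1 (-20640, 9312) (by decide +kernel)
           (CovZ.n2 (-20736, 9312) (by decide +kernel)
            (CovZ.leaf K2_ok TB_l19333 _)
            (CovZ.leaf K2_ok TB_l19334 _))
           (CovZ.n1 (-20640, 9408) (by decide +kernel)
            (CovZ.leaf K2_ok TB_l19335 _)
            (CovZ.leaf K2_ok TB_l19336 _))))
         (CovZ.n1 (-20544, 9600) (by decide +kernel)
          (CovZ.n2 (-20448, 9504) (by decide +kernel)
           (CovZ.leaf K2_ok TB_l19337 _)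
           (CovZ.leaf K2_ok TB_l19338 _))
          (CovZ.n1 (-20640, 9504) (by decide +kernel)
           (CovZ.leaf K2_ok TB_l19339 _)
           (CovZ.leaf K2_ok TB_l19340 _))))))))

theorem TB_u293 : CovZ TB_M (toL (selN TB_LN 76401169414504821121600679162580848553704775656662862339307204517035487347451541497223404119207251778375516200)) [0, 7, 6, 1] (-16896, 10752) (-17664, 9984) (-16896, 9216) :=
    (CovZ.n2 (-16896, 9984) (by decide +kernel)
     (CovZ.n2 (-17280, 9600) (by decide +kernel)
      (CovZ.n2 (-17280, 9984) (by decide +kernel)
       (CovZ.n2 (-17088, 9792) (by decide +kernel)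
        (CovZ.n2 (-17280, 9792) (by decide +kernel)
         (CovZ.n2 (-17184, 9888) (by decide +kernel)
          (CovZ.n2 (-17184, 9792) (by decide +kernel)
           (CovZ.leaf K2_ok TB_l21305 _)
           (CovZ.leaf K2_ok TB_l21306 _))
          (CovZ.leaf K2_ok TB_l21307 _))
         (CovZ.n1 (-17184, 9696) (by decide +kernel)
          (CovZ.leaf K2_ok TB_l21308 _)
          (CovZ.n1 (-17184, 9792) (by decide +kernel)
           (CovZ.leaf K2_ok TB_l21309 _)
           (CovZ.leaf K2_ok TB_l21310 _))))
        (CovZ.n1 (-17088, 9984) (by decide +kernel)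
         (CovZ.n2 (-16992, 9888) (by decide +kernel)
          (CovZ.leaf K2_ok TB_l21311 _)
          (CovZ.n1 (-16992, 9984) (by decide +kernel)
           (CovZ.leaf K2_ok TB_l21312 _)
           (CovZ.leaf K2_ok TB_l21313 _)))
         (CovZ.n1 (-17184, 9888) (by decide +kernel)
          (CovZ.leaf K2_ok TB_l21314 _)
          (CovZ.leaf K2_ok TB_l21315 _))))
       (CovZ.subM 75153362788746710721546519570631732998843619004319184988067779825935802594903426097347308624855902347627331624 (by decide +kernel)
        (CovZ.n1 (-17472, 9792) (by decide +kernel)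
         (CovZ.n2 (-17472, 9984) (by decide +kernel)
          (CovZ.n2 (-17376, 9888) (by decide +kernel)
           (CovZ.leaf K2_ok TB_l21316 _)
           (CovZ.leaf K2_ok TB_l21317 _))
          (CovZ.leaf K2_ok TB_l21318 _))
         (CovZ.n1 (-17280, 9792) (by decide +kernel)
          (CovZ.n2 (-17376, 9696) (by decide +kernel)
           (CovZ.leaf K2_ok TB_l21319 _)
           (CovZ.leaf K2_ok TB_l21320 _))
          (CovZ.n1 (-17376, 9888) (by decide +kernel)
           (CovZ.leaf K2_ok TB_l21321 _)
           (CovZ.leaf K2_ok TB_l21322 _))))))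
      (CovZ.n1 (-16896, 9600) (by decide +kernel)
       (CovZ.n2 (-17088, 9408) (by decide +kernel)
        (CovZ.n2 (-17088, 9600) (by decide +kernel)
         (CovZ.n2 (-16992, 9504) (by decide +kernel)
          (CovZ.leaf K2_ok TB_l21323 _)
          (CovZ.n1 (-16992, 9600) (by decide +kernel)
           (CovZ.leaf K2_ok TB_l21324 _)
           (CovZ.leaf K2_ok TB_l21325 _)))
         (CovZ.n1 (-17184, 9504) (by decide +kernel)
          (CovZ.n2 (-17184, 9600) (by decide +kernel)
           (CovZ.leaf K2_ok TB_l21326 _)
           (CovZ.leaf K2_ok TB_l21327 _))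
          (CovZ.leaf K2_ok TB_l21328 _)))
        (CovZ.n1 (-16896, 9408) (by decide +kernel)
         (CovZ.n2 (-16992, 9312) (by decide +kernel)
          (CovZ.n2 (-16992, 9408) (by decide +kernel)
           (CovZ.leaf K2_ok TB_l21329 _)
           (CovZ.leaf K2_ok TB_l21330 _))
          (CovZ.leaf K2_ok TB_l21331 _))
         (CovZ.n1 (-16992, 9504) (by decide +kernel)
          (CovZ.leaf K2_ok TB_l21332 _)
          (CovZ.n1 (-16992, 9408) (by decide +kernel)
           (CovZ.leaf K2_ok TB_l21333 _)
           (CovZ.leaf K2_ok TB_l21334 _)))))
       (CovZ.n1 (-17088, 9792) (by decide +kernel)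
        (CovZ.n2 (-16896, 9792) (by decide +kernel)
         (CovZ.n2 (-16992, 9696) (by decide +kernel)
          (CovZ.n2 (-16992, 9792) (by decide +kernel)
           (CovZ.leaf K2_ok TB_l21335 _)
           (CovZ.leaf K2_ok TB_l21336 _))
          (CovZ.leaf K2_ok TB_l21337 _))
         (CovZ.n1 (-16992, 9888) (by decide +kernel)
          (CovZ.leaf K2_ok TB_l21338 _)
          (CovZ.n1 (-16992, 9792) (by decide +kernel)
           (CovZ.leaf K2_ok TB_l21339 _)
           (CovZ.leaf K2_ok TB_l21340 _))))
        (CovZ.n1 (-17088, 9600) (by decide +kernel)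
         (CovZ.n2 (-17184, 9696) (by decide +kernel)
          (CovZ.leaf K2_ok TB_l21341 _)
          (CovZ.n1 (-17184, 9600) (by decide +kernel)
           (CovZ.leaf K2_ok TB_l21342 _)
           (CovZ.leaf K2_ok TB_l21343 _)))
         (CovZ.n1 (-16992, 9696) (by decide +kernel)
          (CovZ.n2 (-16992, 9600) (by decide +kernel)
           (CovZ.leaf K2_ok TB_l21344 _)
           (CovZ.leaf K2_ok TB_l21345 _))
          (CovZ.leaf K2_ok TB_l21346 _))))))
     (CovZ.n1 (-17280, 10368) (by decide +kernel)
      (CovZ.n2 (-16896, 10368) (by decide +kernel)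
       (CovZ.n2 (-17088, 10176) (by decide +kernel)
        (CovZ.n2 (-17088, 10368) (by decide +kernel)
         (CovZ.n2 (-16992, 10272) (by decide +kernel)
          (CovZ.leaf K2_ok TB_l21347 _)
          (CovZ.leaf K2_ok TB_l21348 _))
         (CovZ.leaf K2_ok TB_l21349 _))
        (CovZ.n1 (-16896, 10176) (by decide +kernel)
         (CovZ.n2 (-16992, 10080) (by decide +kernel)
          (CovZ.leaf K2_ok TB_l21350 _)
          (CovZ.leaf K2_ok TB_l21351 _))
         (CovZ.n1 (-16992, 10272) (by decide +kernel)
          (CovZ.leaf K2_ok TB_l21352 _)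
          (CovZ.leaf K2_ok TB_l21353 _))))
       (CovZ.n1 (-17088, 10560) (by decide +kernel)
        (CovZ.n2 (-16896, 10560) (by decide +kernel)
         (CovZ.n2 (-16992, 10464) (by decide +kernel)
          (CovZ.leaf K2_ok TB_l21354 _)
          (CovZ.leaf K2_ok TB_l21355 _))
         (CovZ.n1 (-16992, 10656) (by decide +kernel)
          (CovZ.leaf K2_ok TB_l21356 _)
          (CovZ.leaf K2_ok TB_l21357 _)))
        (CovZ.n1 (-17088, 10368) (by decide +kernel)
         (CovZ.leaf K2_ok TB_l21358 _)
         (CovZ.n1 (-16992, 10464) (by decide +kernel)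
          (CovZ.leaf K2_ok TB_l21359 _)
          (CovZ.leaf K2_ok TB_l21360 _)))))
      (CovZ.n1 (-17280, 9984) (by decide +kernel)
       (CovZ.n2 (-17472, 10176) (by decide +kernel)
        (CovZ.leaf K2_ok TB_l21361 _)
        (CovZ.n1 (-17472, 9984) (by decide +kernel)
         (CovZ.leaf K2_ok TB_l21362 _)
         (CovZ.leaf K2_ok TB_l21363 _)))
       (CovZ.n1 (-17088, 10176) (by decide +kernel)
        (CovZ.n2 (-17088, 9984) (by decide +kernel)
         (CovZ.n2 (-17184, 10080) (by decide +kernel)
          (CovZ.leaf K2_ok TB_l21364 _)
          (CovZ.leaf K2_ok TB_l21365 _))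
         (CovZ.n1 (-16992, 10080) (by decide +kernel)
          (CovZ.n2 (-16992, 9984) (by decide +kernel)
           (CovZ.leaf K2_ok TB_l21366 _)
           (CovZ.leaf K2_ok TB_l21367 _))
          (CovZ.leaf K2_ok TB_l21368 _)))
        (CovZ.n1 (-17280, 10176) (by decide +kernel)
         (CovZ.leaf K2_ok TB_l21369 _)
         (CovZ.n1 (-17184, 10080) (by decide +kernel)
          (CovZ.leaf K2_ok TB_l21370 _)
          (CovZ.leaf K2_ok TB_l21371 _)))))))

theorem TB_u294 : CovZ TB_M (toL (selN TB_LN 76401169414504821121600679162580848553704775656662862339307204517035487347451541497223404119207251778375516200)) [0, 7, 6, 1] (-17664, 9984) (-18432, 9216) (-16896, 9216) :=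
    (CovZ.n1 (-17664, 9216) (by decide +kernel)
     (CovZ.subM 75153362823742721275112290476852268998607280558560297631344956070457023555540312020807884732777189149692133416 (by decide +kernel)
      (CovZ.n2 (-18048, 9600) (by decide +kernel)
       (CovZ.n2 (-17664, 9600) (by decide +kernel)
        (CovZ.n2 (-17856, 9408) (by decide +kernel)
         (CovZ.n2 (-17856, 9600) (by decide +kernel)
          (CovZ.n2 (-17760, 9504) (by decide +kernel)
           (CovZ.leaf K2_ok TB_l21372 _)
           (CovZ.leaf K2_ok TB_l21373 _))
          (CovZ.leaf K2_ok TB_l21374 _))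
         (CovZ.n1 (-17664, 9408) (by decide +kernel)
          (CovZ.n2 (-17760, 9312) (by decide +kernel)
           (CovZ.leaf K2_ok TB_l21375 _)
           (CovZ.leaf K2_ok TB_l21376 _))
          (CovZ.n1 (-17760, 9504) (by decide +kernel)
           (CovZ.leaf K2_ok TB_l21377 _)
           (CovZ.leaf K2_ok TB_l21378 _))))
        (CovZ.n1 (-17856, 9792) (by decide +kernel)
         (CovZ.n2 (-17664, 9792) (by decide +kernel)
          (CovZ.leaf K2_ok TB_l21379 _)
          (CovZ.leaf K2_ok TB_l21380 _))
         (CovZ.n1 (-17856, 9600) (by decide +kernel)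
          (CovZ.leaf K2_ok TB_l21381 _)
          (CovZ.leaf K2_ok TB_l21382 _))))
       (CovZ.n1 (-18048, 9216) (by decide +kernel)
        (CovZ.subM 75153362788746709678584099686892203483586921612779839301575608245790350775753165839877097740317242316042534944 (by decide +kernel)
         (CovZ.n2 (-18240, 9408) (by decide +kernel)
          (CovZ.n2 (-18048, 9408) (by decide +kernel)
           (CovZ.leaf K2_ok TB_l21383 _)
           (CovZ.leaf K2_ok TB_l21384 _))
          (CovZ.n1 (-18240, 9216) (by decide +kernel)
           (CovZ.n2 (-18336, 9312) (by decide +kernel)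
            (CovZ.leaf K2_ok TB_l21385 _)
            (CovZ.leaf K2_ok TB_l21386 _))
           (CovZ.n1 (-18144, 9312) (by decide +kernel)
            (CovZ.leaf K2_ok TB_l21387 _)
            (CovZ.leaf K2_ok TB_l21388 _)))))
        (CovZ.n1 (-17856, 9408) (by decide +kernel)
         (CovZ.n2 (-17856, 9216) (by decide +kernel)
          (CovZ.n2 (-17952, 9312) (by decide +kernel)
           (CovZ.leaf K2_ok TB_l21389 _)
           (CovZ.leaf K2_ok TB_l21390 _))
          (CovZ.n1 (-17760, 9312) (by decide +kernel)
           (CovZ.n2 (-17760, 9216) (by decide +kernel)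
            (CovZ.leaf K2_ok TB_l21391 _)
            (CovZ.leaf K2_ok TB_l21392 _))
           (CovZ.leaf K2_ok TB_l21393 _)))
         (CovZ.n1 (-18048, 9408) (by decide +kernel)
          (CovZ.leaf K2_ok TB_l21394 _)
          (CovZ.n1 (-17952, 9312) (by decide +kernel)
           (CovZ.leaf K2_ok TB_l21395 _)
           (CovZ.leaf K2_ok TB_l21396 _)))))))
     (CovZ.n1 (-17280, 9600) (by decide +kernel)
      (CovZ.n2 (-17280, 9216) (by decide +kernel)
       (CovZ.subM 75153362788746710721546519570631704050821309675270329095321527653958839277407259686896813750638555300620140584 (by decide +kernel)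
        (CovZ.n2 (-17472, 9408) (by decide +kernel)
         (CovZ.n2 (-17280, 9408) (by decide +kernel)
          (CovZ.n2 (-17376, 9312) (by decide +kernel)
           (CovZ.n2 (-17376, 9408) (by decide +kernel)
            (CovZ.leaf K2_ok TB_l21397 _)
            (CovZ.leaf K2_ok TB_l21398 _))
           (CovZ.leaf K2_ok TB_l21399 _))
          (CovZ.n1 (-17376, 9504) (by decide +kernel)
           (CovZ.leaf K2_ok TB_l21400 _)
           (CovZ.n1 (-17376, 9408) (by decide +kernel)
            (CovZ.leaf K2_ok TB_l21401 _)
            (CovZ.leaf K2_ok TB_l21402 _))))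
         (CovZ.n1 (-17472, 9216) (by decide +kernel)
          (CovZ.n2 (-17568, 9312) (by decide +kernel)
           (CovZ.leaf K2_ok TB_l21403 _)
           (CovZ.n1 (-17568, 9216) (by decide +kernel)
            (CovZ.leaf K2_ok TB_l21404 _)
            (CovZ.leaf K2_ok TB_l21405 _)))
          (CovZ.n1 (-17376, 9312) (by decide +kernel)
           (CovZ.n2 (-17376, 9216) (by decide +kernel)
            (CovZ.leaf K2_ok TB_l21406 _)
            (CovZ.leaf K2_ok TB_l21407 _))
           (CovZ.leaf K2_ok TB_l21408 _)))))
       (CovZ.n1 (-17088, 9408) (by decide +kernel)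
        (CovZ.n2 (-17088, 9216) (by decide +kernel)
         (CovZ.n2 (-17184, 9312) (by decide +kernel)
          (CovZ.leaf K2_ok TB_l21409 _)
          (CovZ.n1 (-17184, 9216) (by decide +kernel)
           (CovZ.leaf K2_ok TB_l21410 _)
           (CovZ.leaf K2_ok TB_l21411 _)))
         (CovZ.n1 (-16992, 9312) (by decide +kernel)
          (CovZ.n2 (-16992, 9216) (by decide +kernel)
           (CovZ.leaf K2_ok TB_l21412 _)
           (CovZ.leaf K2_ok TB_l21413 _))
          (CovZ.leaf K2_ok TB_l21414 _)))
        (CovZ.n1 (-17280, 9408) (by decide +kernel)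
         (CovZ.n2 (-17184, 9504) (by decide +kernel)
          (CovZ.n2 (-17184, 9408) (by decide +kernel)
           (CovZ.leaf K2_ok TB_l21415 _)
           (CovZ.leaf K2_ok TB_l21416 _))
          (CovZ.leaf K2_ok TB_l21417 _))
         (CovZ.n1 (-17184, 9312) (by decide +kernel)
          (CovZ.leaf K2_ok TB_l21418 _)
          (CovZ.n1 (-17184, 9408) (by decide +kernel)
           (CovZ.leaf K2_ok TB_l21419 _)
           (CovZ.leaf K2_ok TB_l21420 _))))))
      (CovZ.subM 75153362788746710721546519570631732998843619004319184988067779825935802594903426097347308624855902347627331624 (by decide +kernel)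
       (CovZ.n1 (-17664, 9600) (by decide +kernel)
        (CovZ.n2 (-17472, 9792) (by decide +kernel)
         (CovZ.n2 (-17472, 9600) (by decide +kernel)
          (CovZ.n2 (-17568, 9696) (by decide +kernel)
           (CovZ.leaf K2_ok TB_l21421 _)
           (CovZ.leaf K2_ok TB_l21422 _))
          (CovZ.n1 (-17376, 9696) (by decide +kernel)
           (CovZ.n2 (-17376, 9600) (by decide +kernel)
            (CovZ.leaf K2_ok TB_l21423 _)
            (CovZ.leaf K2_ok TB_l21424 _))
           (CovZ.leaf K2_ok TB_l21425 _)))
         (CovZ.n1 (-17664, 9792) (by decide +kernel)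
          (CovZ.leaf K2_ok TB_l21426 _)
          (CovZ.n1 (-17568, 9696) (by decide +kernel)
           (CovZ.leaf K2_ok TB_l21427 _)
           (CovZ.leaf K2_ok TB_l21428 _))))
        (CovZ.n1 (-17472, 9408) (by decide +kernel)
         (CovZ.n2 (-17664, 9408) (by decide +kernel)
          (CovZ.n2 (-17568, 9504) (by decide +kernel)
           (CovZ.n2 (-17568, 9408) (by decide +kernel)
            (CovZ.leaf K2_ok TB_l21429 _)
            (CovZ.leaf K2_ok TB_l21430 _))
           (CovZ.leaf K2_ok TB_l21431 _))
          (CovZ.n1 (-17568, 9312) (by decide +kernel)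
           (CovZ.leaf K2_ok TB_l21432 _)
           (CovZ.n1 (-17568, 9408) (by decide +kernel)
            (CovZ.leaf K2_ok TB_l21433 _)
            (CovZ.leaf K2_ok TB_l21434 _))))
         (CovZ.n1 (-17472, 9600) (by decide +kernel)
          (CovZ.n2 (-17376, 9504) (by decide +kernel)
           (CovZ.leaf K2_ok TB_l21435 _)
           (CovZ.n1 (-17376, 9600) (by decide +kernel)
            (CovZ.leaf K2_ok TB_l21436 _)
            (CovZ.leaf K2_ok TB_l21437 _)))
          (CovZ.n1 (-17568, 9504) (by decide +kernel)
           (CovZ.leaf K2_ok TB_l21438 _)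
           (CovZ.leaf K2_ok TB_l21439 _))))))))

theorem TB_u295 : CovZ TB_M (toL (selN TB_LN 19701079499366619114949045631818930773366406241863615572779353154442716649891588170386982791289462120889382279843880)) [0, 7, 6, 1] (-15360, 10752) (-16128, 9984) (-15360, 9216) :=
    (CovZ.subM 75153362648762664335433756167482823384376238251179457497264996548709029041772462111963599007359974221904089128 (by decide +kernel)
     (CovZ.n2 (-15360, 9984) (by decide +kernel)
      (CovZ.n2 (-15744, 9600) (by decide +kernel)
       (CovZ.n2 (-15744, 9984) (by decide +kernel)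
        (CovZ.subM 1042970377070224031042500713776332054756215042217262098392277363059480139899873934556060975144 (by decide +kernel)
         (CovZ.n2 (-15552, 9792) (by decide +kernel)
          (CovZ.n2 (-15744, 9792) (by decide +kernel)
           (CovZ.n2 (-15648, 9888) (by decide +kernel)
            (CovZ.n2 (-15648, 9792) (by decide +kernel)
             (CovZ.leaf K2_ok TB_l24623 _)
             (CovZ.leaf K2_ok TB_l24624 _))
            (CovZ.leaf K2_ok TB_l24625 _))
           (CovZ.n1 (-15648, 9696) (by decide +kernel)
            (CovZ.leaf K2_ok TB_l24626 _)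
            (CovZ.n1 (-15648, 9792) (by decide +kernel)
             (CovZ.leaf K2_ok TB_l24627 _)
             (CovZ.leaf K2_ok TB_l24628 _))))
          (CovZ.n1 (-15552, 9984) (by decide +kernel)
           (CovZ.n2 (-15456, 9888) (by decide +kernel)
            (CovZ.leaf K2_ok TB_l24629 _)
            (CovZ.n1 (-15456, 9984) (by decide +kernel)
             (CovZ.leaf K2_ok TB_l24630 _)
             (CovZ.leaf K2_ok TB_l24631 _)))
           (CovZ.n1 (-15648, 9888) (by decide +kernel)
            (CovZ.n2 (-15648, 9984) (by decide +kernel)
             (CovZ.leaf K2_ok TB_l24632 _)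
             (CovZ.leaf K2_ok TB_l24633 _))
            (CovZ.leaf K2_ok TB_l24634 _)))))
        (CovZ.n1 (-15936, 9792) (by decide +kernel)
         (CovZ.n2 (-15936, 9984) (by decide +kernel)
          (CovZ.n2 (-15840, 9888) (by decide +kernel)
           (CovZ.leaf K2_ok TB_l24635 _)
           (CovZ.n1 (-15840, 9984) (by decide +kernel)
            (CovZ.leaf K2_ok TB_l24636 _)
            (CovZ.leaf K2_ok TB_l24637 _)))
          (CovZ.n1 (-16032, 9888) (by decide +kernel)
           (CovZ.n2 (-16032, 9984) (by decide +kernel)
            (CovZ.leaf K2_ok TB_l24638 _)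
            (CovZ.leaf K2_ok TB_l24639 _))
           (CovZ.leaf K2_ok TB_l24640 _)))
         (CovZ.subM 1042970377070224031042500713776332054756215042217262098392277363059480139899873935105816793128 (by decide +kernel)
          (CovZ.n1 (-15744, 9792) (by decide +kernel)
           (CovZ.n2 (-15840, 9696) (by decide +kernel)
            (CovZ.n2 (-15840, 9792) (by decide +kernel)
             (CovZ.leaf K2_ok TB_l24641 _)
             (CovZ.leaf K2_ok TB_l24642 _))
            (CovZ.leaf K2_ok TB_l24643 _))
           (CovZ.n1 (-15840, 9888) (by decide +kernel)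
            (CovZ.leaf K2_ok TB_l24644 _)
            (CovZ.n1 (-15840, 9792) (by decide +kernel)
             (CovZ.leaf K2_ok TB_l24645 _)
             (CovZ.leaf K2_ok TB_l24646 _)))))))
       (CovZ.subM 1042970377070224031042500713776332054756215042217262098392277363059480139899873934556060975144 (by decide +kernel)
        (CovZ.n1 (-15360, 9600) (by decide +kernel)
         (CovZ.n2 (-15552, 9408) (by decide +kernel)
          (CovZ.n2 (-15552, 9600) (by decide +kernel)
           (CovZ.n2 (-15456, 9504) (by decide +kernel)
            (CovZ.leaf K2_ok TB_l24647 _)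
            (CovZ.n1 (-15456, 9600) (by decide +kernel)
             (CovZ.leaf K2_ok TB_l24648 _)
             (CovZ.leaf K2_ok TB_l24649 _)))
           (CovZ.n1 (-15648, 9504) (by decide +kernel)
            (CovZ.n2 (-15648, 9600) (by decide +kernel)
             (CovZ.leaf K2_ok TB_l24650 _)
             (CovZ.leaf K2_ok TB_l24651 _))
            (CovZ.leaf K2_ok TB_l24652 _)))
          (CovZ.subM 7957186959657335278405087076760076583912118269238835066190345472720290767598914130411560 (by decide +kernel)
           (CovZ.n1 (-15360, 9408) (by decide +kernel)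
            (CovZ.n2 (-15456, 9312) (by decide +kernel)
             (CovZ.n2 (-15456, 9408) (by decide +kernel)
              (CovZ.leaf K2_ok TB_l24653 _)
              (CovZ.leaf K2_ok TB_l24654 _))
             (CovZ.leaf K2_ok TB_l24655 _))
            (CovZ.n1 (-15456, 9504) (by decide +kernel)
             (CovZ.leaf K2_ok TB_l24656 _)
             (CovZ.n1 (-15456, 9408) (by decide +kernel)
              (CovZ.leaf K2_ok TB_l24657 _)
              (CovZ.leaf K2_ok TB_l24658 _))))))
         (CovZ.n1 (-15552, 9792) (by decide +kernel)
          (CovZ.n2 (-15360, 9792) (by decide +kernel)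
           (CovZ.n2 (-15456, 9696) (by decide +kernel)
            (CovZ.n2 (-15456, 9792) (by decide +kernel)
             (CovZ.leaf K2_ok TB_l24659 _)
             (CovZ.leaf K2_ok TB_l24660 _))
            (CovZ.leaf K2_ok TB_l24661 _))
           (CovZ.n1 (-15456, 9888) (by decide +kernel)
            (CovZ.n2 (-15360, 9888) (by decide +kernel)
             (CovZ.leaf K2_ok TB_l24662 _)
             (CovZ.leaf K2_ok TB_l24663 _))
            (CovZ.n1 (-15456, 9792) (by decide +kernel)
             (CovZ.leaf K2_ok TB_l24664 _)
             (CovZ.leaf K2_ok TB_l24665 _))))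
          (CovZ.n1 (-15552, 9600) (by decide +kernel)
           (CovZ.n2 (-15648, 9696) (by decide +kernel)
            (CovZ.leaf K2_ok TB_l24666 _)
            (CovZ.n1 (-15648, 9600) (by decide +kernel)
             (CovZ.leaf K2_ok TB_l24667 _)
             (CovZ.leaf K2_ok TB_l24668 _)))
           (CovZ.n1 (-15456, 9696) (by decide +kernel)
            (CovZ.n2 (-15456, 9600) (by decide +kernel)
             (CovZ.leaf K2_ok TB_l24669 _)
             (CovZ.leaf K2_ok TB_l24670 _))
            (CovZ.leaf K2_ok TB_l24671 _)))))))
      (CovZ.n1 (-15744, 10368) (by decide +kernel)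
       (CovZ.subM 1042970377070224031042500713776332054756215042217262098392277363059480139899873934556060975144 (by decide +kernel)
        (CovZ.n2 (-15360, 10368) (by decide +kernel)
         (CovZ.n2 (-15552, 10176) (by decide +kernel)
          (CovZ.n2 (-15552, 10368) (by decide +kernel)
           (CovZ.n2 (-15456, 10272) (by decide +kernel)
            (CovZ.leaf K2_ok TB_l24672 _)
            (CovZ.n1 (-15456, 10368) (by decide +kernel)
             (CovZ.leaf K2_ok TB_l24673 _)
             (CovZ.leaf K2_ok TB_l24674 _)))
           (CovZ.n1 (-15648, 10272) (by decide +kernel)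
            (CovZ.n2 (-15648, 10368) (by decide +kernel)
             (CovZ.leaf K2_ok TB_l24675 _)
             (CovZ.leaf K2_ok TB_l24676 _))
            (CovZ.leaf K2_ok TB_l24677 _)))
          (CovZ.n1 (-15360, 10176) (by decide +kernel)
           (CovZ.n2 (-15456, 10080) (by decide +kernel)
            (CovZ.n2 (-15456, 10176) (by decide +kernel)
             (CovZ.leaf K2_ok TB_l24678 _)
             (CovZ.leaf K2_ok TB_l24679 _))
            (CovZ.n1 (-15360, 10080) (by decide +kernel)
             (CovZ.leaf K2_ok TB_l24680 _)
             (CovZ.leaf K2_ok TB_l24681 _)))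
           (CovZ.n1 (-15456, 10272) (by decide +kernel)
            (CovZ.leaf K2_ok TB_l24682 _)
            (CovZ.n1 (-15456, 10176) (by decide +kernel)
             (CovZ.leaf K2_ok TB_l24683 _)
             (CovZ.leaf K2_ok TB_l24684 _)))))
         (CovZ.n1 (-15552, 10560) (by decide +kernel)
          (CovZ.n2 (-15360, 10560) (by decide +kernel)
           (CovZ.n2 (-15456, 10464) (by decide +kernel)
            (CovZ.n2 (-15456, 10560) (by decide +kernel)
             (CovZ.leaf K2_ok TB_l24685 _)
             (CovZ.leaf K2_ok TB_l24686 _))
            (CovZ.leaf K2_ok TB_l24687 _))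
           (CovZ.n1 (-15456, 10656) (by decide +kernel)
            (CovZ.leaf K2_ok TB_l24688 _)
            (CovZ.n1 (-15456, 10560) (by decide +kernel)
             (CovZ.leaf K2_ok TB_l24689 _)
             (CovZ.leaf K2_ok TB_l24690 _))))
          (CovZ.n1 (-15552, 10368) (by decide +kernel)
           (CovZ.n2 (-15648, 10464) (by decide +kernel)
            (CovZ.leaf K2_ok TB_l24691 _)
            (CovZ.n1 (-15648, 10368) (by decide +kernel)
             (CovZ.leaf K2_ok TB_l24692 _)
             (CovZ.leaf K2_ok TB_l24693 _)))
           (CovZ.n1 (-15456, 10464) (by decide +kernel)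
            (CovZ.n2 (-15456, 10368) (by decide +kernel)
             (CovZ.leaf K2_ok TB_l24694 _)
             (CovZ.leaf K2_ok TB_l24695 _))
            (CovZ.leaf K2_ok TB_l24696 _))))))
       (CovZ.n1 (-15744, 9984) (by decide +kernel)
        (CovZ.n2 (-15936, 10176) (by decide +kernel)
         (CovZ.subM 1042970377070224031042500713776332054756215042217262098392277363059480139899873935105816793128 (by decide +kernel)
          (CovZ.n2 (-15744, 10176) (by decide +kernel)
           (CovZ.n2 (-15840, 10080) (by decide +kernel)
            (CovZ.n2 (-15840, 10176) (by decide +kernel)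
             (CovZ.leaf K2_ok TB_l24697 _)
             (CovZ.leaf K2_ok TB_l24698 _))
            (CovZ.leaf K2_ok TB_l24699 _))
           (CovZ.n1 (-15840, 10272) (by decide +kernel)
            (CovZ.leaf K2_ok TB_l24700 _)
            (CovZ.n1 (-15840, 10176) (by decide +kernel)
             (CovZ.leaf K2_ok TB_l24701 _)
             (CovZ.leaf K2_ok TB_l24702 _)))))
         (CovZ.n1 (-15936, 9984) (by decide +kernel)
          (CovZ.n2 (-16032, 10080) (by decide +kernel)
           (CovZ.leaf K2_ok TB_l24703 _)
           (CovZ.n1 (-16032, 9984) (by decide +kernel)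
            (CovZ.leaf K2_ok TB_l24704 _)
            (CovZ.leaf K2_ok TB_l24705 _)))
          (CovZ.n1 (-15840, 10080) (by decide +kernel)
           (CovZ.n2 (-15840, 9984) (by decide +kernel)
            (CovZ.leaf K2_ok TB_l24706 _)
            (CovZ.leaf K2_ok TB_l24707 _))
           (CovZ.leaf K2_ok TB_l24708 _))))
        (CovZ.subM 1042970377070224031042500713776332054756215042217262098392277363059480139899873934556060975144 (by decide +kernel)
         (CovZ.n1 (-15552, 10176) (by decide +kernel)
          (CovZ.n2 (-15552, 9984) (by decide +kernel)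
           (CovZ.n2 (-15648, 10080) (by decide +kernel)
            (CovZ.leaf K2_ok TB_l24709 _)
            (CovZ.n1 (-15648, 9984) (by decide +kernel)
             (CovZ.leaf K2_ok TB_l24710 _)
             (CovZ.leaf K2_ok TB_l24711 _)))
           (CovZ.n1 (-15456, 10080) (by decide +kernel)
            (CovZ.n2 (-15456, 9984) (by decide +kernel)
             (CovZ.leaf K2_ok TB_l24712 _)
             (CovZ.leaf K2_ok TB_l24713 _))
            (CovZ.leaf K2_ok TB_l24714 _)))
          (CovZ.n1 (-15744, 10176) (by decide +kernel)
           (CovZ.n2 (-15648, 10272) (by decide +kernel)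
            (CovZ.n2 (-15648, 10176) (by decide +kernel)
             (CovZ.leaf K2_ok TB_l24715 _)
             (CovZ.leaf K2_ok TB_l24716 _))
            (CovZ.leaf K2_ok TB_l24717 _))
           (CovZ.n1 (-15648, 10080) (by decide +kernel)
            (CovZ.leaf K2_ok TB_l24718 _)
            (CovZ.n1 (-15648, 10176) (by decide +kernel)
             (CovZ.leaf K2_ok TB_l24719 _)
             (CovZ.leaf K2_ok TB_l24720 _))))))))))

end Pool.Agent.TET
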