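import Pool.Agent.Helper38_TET.TB_M
import Pool.Agent.Helper38_TET.TB_L
import Pool.Agent.Helper38_TET.TB_12
import Pool.Agent.Helper38_TET.TB_33
import Pool.Agent.Helper38_TET.TB_55
import Pool.Agent.Helper38_TET.TB_77
import Pool.Agent.Helper38_TET.TB_91
import Pool.Agent.Helper38_TET.TB_92
import Pool.Agent.Helper38_TET.TB_100
import Pool.Agent.Helper38_TET.TB_101
import Pool.Agent.Helper38_TET.TB_103
import Pool.Agent.Helper38_TET.TB_109
import Pool.Agent.Helper38_TET.TB_110
import Pool.Agent.Helper38_TET.TB_114
import Pool.Agent.Helper38_TET.TB_115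
import Pool.Agent.Helper38_TET.TB_119
import Pool.Agent.Helper38_TET.TB_122
import Pool.Agent.Helper38_TET.TB_123
import Pool.Agent.Helper38_TET.TB_126
import Pool.Agent.Helper38_TET.TB_128
import Pool.Agent.Helper38_TET.TB_129
import Pool.Agent.Helper38_TET.TB_132
import Pool.Agent.Helper38_TET.TB_133
import Pool.Agent.Helper38_TET.TB_211
import Pool.Agent.Helper38_TET.TB_212
import Pool.Agent.Helper38_TET.TB_213
import Pool.Agent.Helper38_TET.TB_271
import Pool.Agent.Helper38_TET.TB_274
import Pool.Agent.Helper38_TET.TB_279
import Pool.Agent.Helper38_TET.TB_280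
import Pool.Agent.Helper38_TET.TB_U14
import Pool.Agent.Helper38_TET.TB_U15
import Pool.Agent.Helper38_TET.TB_U16
import Pool.Agent.Helper38_TET.TB_U17
import Pool.Agent.Helper38_TET.TB_U18
import Pool.Agent.Helper38_TET.TB_U19

/-!
# MP_c7c9bf_co: certificates, family TB
-/

set_option autoImplicit false
set_option maxRecDepth 100000

namespace Pool.Agent.TET

theorem TB_s6_8 : SqZ TB_M TB_L [0, 7, 6, 1] (-32256) (-4608) 1536 6 8 :=
  SqZ.mk (a := (-23040)) (b := (-21504)) (c := 7680) (d := 9216) (by norm_num) (by norm_num) (by norm_num) (by norm_num)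
    (CovZ.topM TB_LL 631665816743553875574724668536701745072646061289582036835775837181050442937919744128828624974443334077987245478912132 (by decide +kernel) (CovZ.n2 (-22272, 8448) (by decide +kernel)
    (CovZ.n2 (-21504, 8448) (by decide +kernel)
     (CovZ.subM 631663411835949078793222903007518626853842594846193202333364859037238059449369291571365332188274704723459620240105476 (by decide +kernel)
      (CovZ.n2 (-21888, 8064) (by decide +kernel)
       TB_u219
       TB_u220))
     (CovZ.n1 (-21888, 8832) (by decide +kernel)
      (CovZ.n2 (-21504, 8832) (by decide +kernel)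
       (CovZ.subM 1231312693637447759935060112539105545565981205836851649796622201610557481971943454694572532602068095836575533899776 (by decide +kernel)
        (CovZ.n2 (-21696, 8640) (by decide +kernel)
         TB_u221
         TB_u222))
       (CovZ.n1 (-21696, 9024) (by decide +kernel)
        (CovZ.n2 (-21504, 9024) (by decide +kernel)
         TB_u223
         TB_u224)
        (CovZ.n1 (-21696, 8832) (by decide +kernel)
         (CovZ.subM 1233717601242208096808833791201095190041319307341160789766013195714108745994067987117615874651252855206276604370944 (by decide +kernel)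
          (CovZ.n2 (-21792, 8928) (by decide +kernel)
           (CovZ.n2 (-21696, 8928) (by decide +kernel)
            (CovZ.n2 (-21744, 8880) (by decide +kernel)
             (CovZ.n2 (-21744, 8928) (by decide +kernel)
              (CovZ.n2 (-21720, 8904) (by decide +kernel)
               (CovZ.leaf K2_ok TB_l16482 _)
               (CovZ.n1 (-21720, 8928) (by decide +kernel)
                (CovZ.leaf K2_ok TB_l16483 _)
                (CovZ.leaf K2_ok TB_l16484 _)))
              (CovZ.n1 (-21768, 8904) (by decide +kernel)
               (CovZ.n2 (-21768, 8928) (by decide +kernel)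
                (CovZ.leaf K2_ok TB_l16485 _)
                (CovZ.leaf K2_ok TB_l16486 _))
               (CovZ.leaf K2_ok TB_l16487 _)))
             (CovZ.n1 (-21696, 8880) (by decide +kernel)
              (CovZ.n2 (-21720, 8856) (by decide +kernel)
               (CovZ.n2 (-21720, 8880) (by decide +kernel)
                (CovZ.leaf K2_ok TB_l16488 _)
                (CovZ.leaf K2_ok TB_l16489 _))
               (CovZ.leaf K2_ok TB_l16490 _))
              (CovZ.n1 (-21720, 8904) (by decide +kernel)
               (CovZ.leaf K2_ok TB_l16491 _)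
               (CovZ.leaf K2_ok TB_l16492 _))))
            (CovZ.n1 (-21744, 8976) (by decide +kernel)
             (CovZ.n2 (-21696, 8976) (by decide +kernel)
              (CovZ.n2 (-21720, 8952) (by decide +kernel)
               (CovZ.n2 (-21720, 8976) (by decide +kernel)
                (CovZ.leaf K2_ok TB_l16493 _)
                (CovZ.leaf K2_ok TB_l16494 _))
               (CovZ.n1 (-21696, 8952) (by decide +kernel)
                (CovZ.leaf K2_ok TB_l16495 _)
                (CovZ.leaf K2_ok TB_l16496 _)))
              (CovZ.n1 (-21720, 9000) (by decide +kernel)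
               (CovZ.n2 (-21696, 9000) (by decide +kernel)
                (CovZ.leaf K2_ok TB_l40715 _)
                (CovZ.leaf K2_ok TB_l40716 _))
               (CovZ.n1 (-21720, 8976) (by decide +kernel)
                (CovZ.leaf K2_ok TB_l16497 _)
                (CovZ.leaf K2_ok TB_l16498 _))))
             (CovZ.n1 (-21744, 8928) (by decide +kernel)
              (CovZ.n2 (-21768, 8952) (by decide +kernel)
               (CovZ.n2 (-21744, 8952) (by decide +kernel)
                (CovZ.leaf K2_ok TB_l16499 _)
                (CovZ.leaf K2_ok TB_l16500 _))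
               (CovZ.n1 (-21768, 8928) (by decide +kernel)
                (CovZ.leaf K2_ok TB_l16501 _)
                (CovZ.leaf K2_ok TB_l16502 _)))
              (CovZ.n1 (-21720, 8952) (by decide +kernel)
               (CovZ.n2 (-21720, 8928) (by decide +kernel)
                (CovZ.leaf K2_ok TB_l16503 _)
                (CovZ.leaf K2_ok TB_l16504 _))
               (CovZ.leaf K2_ok TB_l16505 _)))))
           (CovZ.n1 (-21792, 8832) (by decide +kernel)
            (CovZ.n2 (-21840, 8880) (by decide +kernel)
             (CovZ.n2 (-21792, 8880) (by decide +kernel)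
              (CovZ.n2 (-21816, 8856) (by decide +kernel)
               (CovZ.n2 (-21816, 8880) (by decide +kernel)
                (CovZ.leaf K2_ok TB_l16506 _)
                (CovZ.leaf K2_ok TB_l16507 _))
               (CovZ.leaf K2_ok TB_l16508 _))
              (CovZ.n1 (-21816, 8904) (by decide +kernel)
               (CovZ.leaf K2_ok TB_l16509 _)
               (CovZ.n1 (-21816, 8880) (by decide +kernel)
                (CovZ.leaf K2_ok TB_l16510 _)
                (CovZ.leaf K2_ok TB_l16511 _))))
             (CovZ.n1 (-21840, 8832) (by decide +kernel)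
              (CovZ.n2 (-21864, 8856) (by decide +kernel)
               (CovZ.leaf K2_ok TB_l16512 _)
               (CovZ.leaf K2_ok TB_l16513 _))
              (CovZ.n1 (-21816, 8856) (by decide +kernel)
               (CovZ.n2 (-21816, 8832) (by decide +kernel)
                (CovZ.leaf K2_ok TB_l16514 _)
                (CovZ.leaf K2_ok TB_l16515 _))
               (CovZ.leaf K2_ok TB_l16516 _))))
            (CovZ.n1 (-21744, 8880) (by decide +kernel)
             (CovZ.n2 (-21744, 8832) (by decide +kernel)
              (CovZ.n2 (-21768, 8856) (by decide +kernel)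
               (CovZ.leaf K2_ok TB_l16517 _)
               (CovZ.n1 (-21768, 8832) (by decide +kernel)
                (CovZ.leaf K2_ok TB_l16518 _)
                (CovZ.leaf K2_ok TB_l16519 _)))
              (CovZ.n1 (-21720, 8856) (by decide +kernel)
               (CovZ.n2 (-21720, 8832) (by decide +kernel)
                (CovZ.leaf K2_ok TB_l16520 _)
                (CovZ.leaf K2_ok TB_l16521 _))
               (CovZ.leaf K2_ok TB_l16522 _)))
             (CovZ.n1 (-21792, 8880) (by decide +kernel)
              (CovZ.n2 (-21768, 8904) (by decide +kernel)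
               (CovZ.n2 (-21768, 8880) (by decide +kernel)
                (CovZ.leaf K2_ok TB_l16523 _)
                (CovZ.leaf K2_ok TB_l16524 _))
               (CovZ.leaf K2_ok TB_l16525 _))
              (CovZ.n1 (-21768, 8856) (by decide +kernel)
               (CovZ.leaf K2_ok TB_l16526 _)
               (CovZ.n1 (-21768, 8880) (by decide +kernel)
                (CovZ.leaf K2_ok TB_l16527 _)
                (CovZ.leaf K2_ok TB_l16528 _))))))))
         (CovZ.subM 1233717601242207481644567445978991460275067930510257096478779314184808919273768604750653744922174997704449877614592 (by decide +kernel)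
          (CovZ.n1 (-21600, 8928) (by decide +kernel)
           (CovZ.n2 (-21600, 8832) (by decide +kernel)
            (CovZ.n2 (-21648, 8880) (by decide +kernel)
             (CovZ.n2 (-21600, 8880) (by decide +kernel)
              (CovZ.n2 (-21624, 8856) (by decide +kernel)
               (CovZ.n2 (-21624, 8880) (by decide +kernel)
                (CovZ.leaf K2_ok TB_l16529 _)
                (CovZ.leaf K2_ok TB_l16530 _))
               (CovZ.leaf K2_ok TB_l16531 _))
              (CovZ.n1 (-21624, 8904) (by decide +kernel)
               (CovZ.n2 (-21600, 8904) (by decide +kernel)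
                (CovZ.leaf K2_ok TB_l16532 _)
                (CovZ.leaf K2_ok TB_l16533 _))
               (CovZ.n1 (-21624, 8880) (by decide +kernel)
                (CovZ.leaf K2_ok TB_l16534 _)
                (CovZ.leaf K2_ok TB_l16535 _))))
             (CovZ.n1 (-21648, 8832) (by decide +kernel)
              (CovZ.n2 (-21672, 8856) (by decide +kernel)
               (CovZ.leaf K2_ok TB_l16536 _)
               (CovZ.n1 (-21672, 8832) (by decide +kernel)
                (CovZ.leaf K2_ok TB_l16537 _)
                (CovZ.leaf K2_ok TB_l16538 _)))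
              (CovZ.n1 (-21624, 8856) (by decide +kernel)
               (CovZ.n2 (-21624, 8832) (by decide +kernel)
                (CovZ.leaf K2_ok TB_l16539 _)
                (CovZ.leaf K2_ok TB_l16540 _))
               (CovZ.leaf K2_ok TB_l16541 _))))
            (CovZ.n1 (-21552, 8880) (by decide +kernel)
             (CovZ.n2 (-21552, 8832) (by decide +kernel)
              (CovZ.n2 (-21576, 8856) (by decide +kernel)
               (CovZ.n2 (-21552, 8856) (by decide +kernel)
                (CovZ.leaf K2_ok TB_l16542 _)
                (CovZ.leaf K2_ok TB_l16543 _))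
               (CovZ.n1 (-21576, 8832) (by decide +kernel)
                (CovZ.leaf K2_ok TB_l16544 _)
                (CovZ.leaf K2_ok TB_l16545 _)))
              (CovZ.subM 1231312693637447056623781888463663669462984458583056258591657549852277571837931102539529881142719671907330163744768 (by decide +kernel)
               (CovZ.n1 (-21528, 8856) (by decide +kernel)
                (CovZ.n2 (-21528, 8832) (by decide +kernel)
                 (CovZ.leaf K2_ok TB_l16546 _)
                 (CovZ.leaf K2_ok TB_l16547 _))
                (CovZ.n1 (-21552, 8856) (by decide +kernel)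
                 (CovZ.leaf K2_ok TB_l16548 _)
                 (CovZ.leaf K2_ok TB_l16549 _)))))
             (CovZ.n1 (-21600, 8880) (by decide +kernel)
              (CovZ.n2 (-21576, 8904) (by decide +kernel)
               (CovZ.n2 (-21576, 8880) (by decide +kernel)
                (CovZ.leaf K2_ok TB_l16550 _)
                (CovZ.leaf K2_ok TB_l16551 _))
               (CovZ.leaf K2_ok TB_l16552 _))
              (CovZ.n1 (-21576, 8856) (by decide +kernel)
               (CovZ.leaf K2_ok TB_l16553 _)
               (CovZ.n1 (-21576, 8880) (by decide +kernel)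
                (CovZ.leaf K2_ok TB_l16554 _)
                (CovZ.leaf K2_ok TB_l16555 _))))))
           (CovZ.n1 (-21696, 8928) (by decide +kernel)
            (CovZ.n2 (-21648, 8976) (by decide +kernel)
             (CovZ.n2 (-21648, 8928) (by decide +kernel)
              (CovZ.n2 (-21672, 8952) (by decide +kernel)
               (CovZ.n2 (-21648, 8952) (by decide +kernel)
                (CovZ.leaf K2_ok TB_l16556 _)
                (CovZ.leaf K2_ok TB_l40717 _))
               (CovZ.n1 (-21672, 8928) (by decide +kernel)
                (CovZ.leaf K2_ok TB_l16557 _)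
                (CovZ.leaf K2_ok TB_l16558 _)))
              (CovZ.n1 (-21624, 8952) (by decide +kernel)
               (CovZ.n2 (-21624, 8928) (by decide +kernel)
                (CovZ.leaf K2_ok TB_l16559 _)
                (CovZ.leaf K2_ok TB_l40718 _))
               (CovZ.leaf K2_ok TB_l16560 _)))
             (CovZ.n1 (-21696, 8976) (by decide +kernel)
              (CovZ.n2 (-21672, 9000) (by decide +kernel)
               (CovZ.n2 (-21672, 8976) (by decide +kernel)
                (CovZ.leaf K2_ok TB_l40719 _)
                (CovZ.leaf K2_ok TB_l40720 _))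
               (CovZ.n1 (-21696, 9000) (by decide +kernel)
                (CovZ.leaf K2_ok TB_l40721 _)
                (CovZ.leaf K2_ok TB_l40722 _)))
              (CovZ.n1 (-21672, 8952) (by decide +kernel)
               (CovZ.n2 (-21696, 8952) (by decide +kernel)
                (CovZ.leaf K2_ok TB_l16561 _)
                (CovZ.leaf K2_ok TB_l16562 _))
               (CovZ.n1 (-21672, 8976) (by decide +kernel)
                (CovZ.leaf K2_ok TB_l40723 _)
                (CovZ.leaf K2_ok TB_l40724 _)))))
            (CovZ.n1 (-21648, 8880) (by decide +kernel)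
             (CovZ.n2 (-21696, 8880) (by decide +kernel)
              (CovZ.n2 (-21672, 8904) (by decide +kernel)
               (CovZ.n2 (-21672, 8880) (by decide +kernel)
                (CovZ.leaf K2_ok TB_l16563 _)
                (CovZ.leaf K2_ok TB_l16564 _))
               (CovZ.n1 (-21696, 8904) (by decide +kernel)
                (CovZ.leaf K2_ok TB_l16565 _)
                (CovZ.leaf K2_ok TB_l16566 _)))
              (CovZ.n1 (-21672, 8856) (by decide +kernel)
               (CovZ.leaf K2_ok TB_l16567 _)
               (CovZ.n1 (-21672, 8880) (by decide +kernel)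
                (CovZ.leaf K2_ok TB_l16568 _)
                (CovZ.leaf K2_ok TB_l16569 _))))
             (CovZ.n1 (-21648, 8928) (by decide +kernel)
              (CovZ.n2 (-21624, 8904) (by decide +kernel)
               (CovZ.leaf K2_ok TB_l16570 _)
               (CovZ.n1 (-21624, 8928) (by decide +kernel)
                (CovZ.leaf K2_ok TB_l16571 _)
                (CovZ.leaf K2_ok TB_l16572 _)))
              (CovZ.n1 (-21672, 8904) (by decide +kernel)
               (CovZ.n2 (-21672, 8928) (by decide +kernel)
                (CovZ.leaf K2_ok TB_l16573 _)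
                (CovZ.leaf K2_ok TB_l16574 _))
               (CovZ.n1 (-21648, 8904) (by decide +kernel)
                (CovZ.leaf K2_ok TB_l16575 _)
                (CovZ.leaf K2_ok TB_l16576 _)))))))))))
      (CovZ.n1 (-21888, 8448) (by decide +kernel)
       TB_u225
       TB_u226)))
    (CovZ.subM 631663411835949078793222903007518626853842594846193202333364859037238424824778624297094883109482883794214534223241348 (by decide +kernel)
     (CovZ.n1 (-22272, 7680) (by decide +kernel)
      TB_u227
      TB_u228))))
    (CovZ.topM TB_LL 631665816743553875575859411649534728553918416570984611500306027861147795982432775058045608597469065649184861660913796 (by decide +kernel) (CovZ.n0 (-22272, 8448) (by decide +kernel)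
    (CovZ.subM 631665816743553874756182730314244550489838192381958607022174165662988454783322555091308704918231323059618920271978628 (by decide +kernel)
     (CovZ.n2 (-23040, 8448) (by decide +kernel)
      TB_u229
      TB_u230))
    (CovZ.n1 (-22272, 9216) (by decide +kernel)
     (CovZ.n2 (-21888, 8832) (by decide +kernel)
      (CovZ.subM 631665816743553875441834568844856686938640160062384835706798282507296190418917509476874426472045799380081786618912772 (by decide +kernel)
       (CovZ.n2 (-22272, 8832) (by decide +kernel)
        (CovZ.n2 (-22080, 9024) (by decide +kernel)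
         TB_u231
         TB_u232)
        (CovZ.n1 (-22080, 8640) (by decide +kernel)
         (CovZ.n2 (-22272, 8640) (by decide +kernel)
          (CovZ.n2 (-22176, 8736) (by decide +kernel)
           (CovZ.n2 (-22176, 8640) (by decide +kernel)
            (CovZ.n2 (-22224, 8688) (by decide +kernel)
             (CovZ.leaf K2_ok TB_l17204 _)
             (CovZ.n1 (-22224, 8640) (by decide +kernel)
              (CovZ.leaf K2_ok TB_l17205 _)
              (CovZ.leaf K2_ok TB_l17206 _)))
            (CovZ.n1 (-22128, 8688) (by decide +kernel)
             (CovZ.n2 (-22128, 8640) (by decide +kernel)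
              (CovZ.leaf K2_ok TB_l17207 _)
              (CovZ.leaf K2_ok TB_l17208 _))
             (CovZ.leaf K2_ok TB_l17209 _)))
           (CovZ.n1 (-22272, 8736) (by decide +kernel)
            (CovZ.n2 (-22224, 8784) (by decide +kernel)
             (CovZ.n2 (-22224, 8736) (by decide +kernel)
              (CovZ.leaf K2_ok TB_l17210 _)
              (CovZ.leaf K2_ok TB_l17211 _))
             (CovZ.leaf K2_ok TB_l17212 _))
            (CovZ.n1 (-22224, 8688) (by decide +kernel)
             (CovZ.leaf K2_ok TB_l17213 _)
             (CovZ.n1 (-22224, 8736) (by decide +kernel)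
              (CovZ.leaf K2_ok TB_l17214 _)
              (CovZ.leaf K2_ok TB_l17215 _)))))
          (CovZ.n1 (-22176, 8544) (by decide +kernel)
           (CovZ.subM 631663411835949077987914071968540195515872633852573325751115251478493780145023054136815353726416991385513159259332612 (by decide +kernel)
            (CovZ.n2 (-22272, 8544) (by decide +kernel)
             (CovZ.n2 (-22224, 8592) (by decide +kernel)
              (CovZ.n2 (-22224, 8544) (by decide +kernel)
               (CovZ.leaf K2_ok TB_l17216 _)
               (CovZ.leaf K2_ok TB_l17217 _))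
              (CovZ.leaf K2_ok TB_l17218 _))
             (CovZ.n1 (-22224, 8496) (by decide +kernel)
              (CovZ.leaf K2_ok TB_l17219 _)
              (CovZ.n1 (-22224, 8544) (by decide +kernel)
               (CovZ.leaf K2_ok TB_l17220 _)
               (CovZ.leaf K2_ok TB_l17221 _)))))
           (CovZ.n1 (-22176, 8640) (by decide +kernel)
            (CovZ.n2 (-22128, 8592) (by decide +kernel)
             (CovZ.leaf K2_ok TB_l17222 _)
             (CovZ.n1 (-22128, 8640) (by decide +kernel)
              (CovZ.leaf K2_ok TB_l17223 _)
              (CovZ.leaf K2_ok TB_l17224 _)))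
            (CovZ.n1 (-22224, 8592) (by decide +kernel)
             (CovZ.n2 (-22224, 8640) (by decide +kernel)
              (CovZ.leaf K2_ok TB_l17225 _)
              (CovZ.leaf K2_ok TB_l17226 _))
             (CovZ.leaf K2_ok TB_l17227 _)))))
         (CovZ.n1 (-22080, 8832) (by decide +kernel)
          (CovZ.n2 (-21984, 8736) (by decide +kernel)
           (CovZ.n2 (-22080, 8736) (by decide +kernel)
            (CovZ.n2 (-22032, 8784) (by decide +kernel)
             (CovZ.n2 (-22032, 8736) (by decide +kernel)
              (CovZ.leaf K2_ok TB_l17228 _)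
              (CovZ.leaf K2_ok TB_l17229 _))
             (CovZ.n1 (-22080, 8784) (by decide +kernel)
              (CovZ.leaf K2_ok TB_l17230 _)
              (CovZ.leaf K2_ok TB_l17231 _)))
            (CovZ.n1 (-22032, 8688) (by decide +kernel)
             (CovZ.n2 (-22080, 8688) (by decide +kernel)
              (CovZ.leaf K2_ok TB_l17232 _)
              (CovZ.leaf K2_ok TB_l17233 _))
             (CovZ.n1 (-22032, 8736) (by decide +kernel)
              (CovZ.leaf K2_ok TB_l17234 _)
              (CovZ.leaf K2_ok TB_l17235 _))))
           (CovZ.n1 (-21984, 8832) (by decide +kernel)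
            (CovZ.n2 (-21936, 8784) (by decide +kernel)
             (CovZ.n2 (-21984, 8784) (by decide +kernel)
              (CovZ.n2 (-21960, 8808) (by decide +kernel)
               (CovZ.leaf K2_ok TB_l17236 _)
               (CovZ.leaf K2_ok TB_l17237 _))
              (CovZ.leaf K2_ok TB_l17238 _))
             (CovZ.n1 (-21936, 8832) (by decide +kernel)
              (CovZ.n2 (-21912, 8808) (by decide +kernel)
               (CovZ.leaf K2_ok TB_l17239 _)
               (CovZ.leaf K2_ok TB_l17240 _))
              (CovZ.n1 (-21960, 8808) (by decide +kernel)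
               (CovZ.leaf K2_ok TB_l17241 _)
               (CovZ.leaf K2_ok TB_l17242 _))))
            (CovZ.n1 (-22032, 8784) (by decide +kernel)
             (CovZ.n2 (-22032, 8832) (by decide +kernel)
              (CovZ.n2 (-22008, 8808) (by decide +kernel)
               (CovZ.leaf K2_ok TB_l17243 _)
               (CovZ.n1 (-22008, 8832) (by decide +kernel)
                (CovZ.leaf K2_ok TB_l17244 _)
                (CovZ.leaf K2_ok TB_l17245 _)))
              (CovZ.leaf K2_ok TB_l17246 _))
             (CovZ.n1 (-21984, 8784) (by decide +kernel)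
              (CovZ.leaf K2_ok TB_l17247 _)
              (CovZ.leaf K2_ok TB_l17248 _)))))
          (CovZ.n1 (-22176, 8736) (by decide +kernel)
           (CovZ.n2 (-22176, 8832) (by decide +kernel)
            (CovZ.n2 (-22128, 8784) (by decide +kernel)
             (CovZ.n2 (-22176, 8784) (by decide +kernel)
              (CovZ.leaf K2_ok TB_l17249 _)
              (CovZ.leaf K2_ok TB_l17250 _))
             (CovZ.n1 (-22128, 8832) (by decide +kernel)
              (CovZ.leaf K2_ok TB_l17251 _)
              (CovZ.leaf K2_ok TB_l17252 _)))
            (CovZ.n1 (-22224, 8784) (by decide +kernel)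
             (CovZ.n2 (-22224, 8832) (by decide +kernel)
              (CovZ.leaf K2_ok TB_l17253 _)
              (CovZ.leaf K2_ok TB_l17254 _))
             (CovZ.n1 (-22176, 8784) (by decide +kernel)
              (CovZ.leaf K2_ok TB_l17255 _)
              (CovZ.leaf K2_ok TB_l17256 _))))
           (CovZ.n1 (-22080, 8736) (by decide +kernel)
            (CovZ.n2 (-22128, 8688) (by decide +kernel)
             (CovZ.n2 (-22128, 8736) (by decide +kernel)
              (CovZ.leaf K2_ok TB_l17257 _)
              (CovZ.leaf K2_ok TB_l17258 _))
             (CovZ.n1 (-22080, 8688) (by decide +kernel)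
              (CovZ.leaf K2_ok TB_l17259 _)
              (CovZ.leaf K2_ok TB_l17260 _)))
            (CovZ.subM 1231312693637447501305411079568598420571888134986719398676703333895921201620212534190741398845257295513342674214912 (by decide +kernel)
             (CovZ.n1 (-22128, 8784) (by decide +kernel)
              (CovZ.n2 (-22080, 8784) (by decide +kernel)
               (CovZ.leaf K2_ok TB_l17261 _)
               (CovZ.leaf K2_ok TB_l17262 _))
              (CovZ.n1 (-22128, 8736) (by decide +kernel)
               (CovZ.leaf K2_ok TB_l17263 _)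
               (CovZ.leaf K2_ok TB_l17264 _))))))))))
      (CovZ.n1 (-21888, 9216) (by decide +kernel)
       (CovZ.n2 (-21696, 9024) (by decide +kernel)
        TB_u233
        TB_u234)
       (CovZ.n1 (-22080, 9024) (by decide +kernel)
        TB_u235
        TB_u236)))
     (CovZ.subM 631665816743553874756182730314244550489838192381958607022174165662988454783322555091308704918231323059618920271978628 (by decide +kernel)
      (CovZ.n1 (-22656, 8832) (by decide +kernel)
       (CovZ.n2 (-22656, 9216) (by decide +kernel)
        TB_u237
        TB_u238)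
       (CovZ.n1 (-22272, 8832) (by decide +kernel)
        TB_u239
        TB_u240))))))

theorem TB_s7_8 : SqZ TB_M TB_L [0, 7, 6, 1] (-32256) (-4608) 1536 7 8 :=
  SqZ.mk (a := (-21504)) (b := (-19968)) (c := 7680) (d := 9216) (by norm_num) (by norm_num) (by norm_num) (by norm_num)
    (CovZ.topM TB_LL 9174065831692759795938514072497687118058953870555296466093295747137332734436915623609912484756432927858688 (by decide +kernel) (CovZ.n2 (-20736, 8448) (by decide +kernel)
    (CovZ.subM 9173994463960416416745784209882751724348103757822837091192328290357525178751143682293895909850166874603520 (by decide +kernel)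
     (CovZ.n2 (-19968, 8448) (by decide +kernel)
      (CovZ.subM 130370302500599031629116408897772715540433830704968942028845030760657313764555477718820454400 (by decide +kernel)
       (CovZ.n2 (-20352, 8064) (by decide +kernel)
        (CovZ.n2 (-20352, 8448) (by decide +kernel)
         (CovZ.n2 (-20160, 8256) (by decide +kernel)
          (CovZ.badM (by decide +kernel))
          (CovZ.n1 (-20160, 8448) (by decide +kernel)
           (CovZ.n2 (-20064, 8352) (by decide +kernel)
            (CovZ.badM (by decide +kernel))
            (CovZ.n1 (-20064, 8448) (by decide +kernel)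
             (CovZ.badM (by decide +kernel))
             (CovZ.badM (by decide +kernel))))
           (CovZ.badM (by decide +kernel))))
         (CovZ.badM (by decide +kernel)))
        (CovZ.badM (by decide +kernel))))
      (CovZ.n1 (-20352, 8832) (by decide +kernel)
       (CovZ.n2 (-19968, 8832) (by decide +kernel)
        TB_u241
        TB_u242)
       (CovZ.subM 9173994463960416416745784180239976879595157729388664928781060326489720349384699889631617699781178728382464 (by decide +kernel)
        (CovZ.n1 (-20352, 8448) (by decide +kernel)
         (CovZ.badM (by decide +kernel))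
         (CovZ.n1 (-20160, 8640) (by decide +kernel)
          (CovZ.n2 (-20160, 8448) (by decide +kernel)
           (CovZ.badM (by decide +kernel))
           (CovZ.n1 (-20064, 8544) (by decide +kernel)
            (CovZ.n2 (-20064, 8448) (by decide +kernel)
             (CovZ.badM (by decide +kernel))
             (CovZ.n1 (-20016, 8496) (by decide +kernel)
              (CovZ.badM (by decide +kernel))
              (CovZ.badM (by decide +kernel))))
            (CovZ.badM (by decide +kernel))))
          (CovZ.badM (by decide +kernel))))))))
    (CovZ.subM 130370302500599031629116408897772721829795600570655408614841303962398173717445778645085855744 (by decide +kernel)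
     (CovZ.n1 (-20736, 7680) (by decide +kernel)
      (CovZ.subM 6289361769865686466585996273201740859952890300926265401344 (by decide +kernel)
       (CovZ.n2 (-21120, 8064) (by decide +kernel)
        (CovZ.badM (by decide +kernel))
        (CovZ.n1 (-21120, 7680) (by decide +kernel)
         (CovZ.n2 (-21312, 7872) (by decide +kernel)
          (CovZ.badM (by decide +kernel))
          (CovZ.n1 (-21312, 7680) (by decide +kernel)
           (CovZ.n2 (-21408, 7776) (by decide +kernel)
            (CovZ.badM (by decide +kernel))
            (CovZ.n1 (-21408, 7680) (by decide +kernel)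
             (CovZ.n2 (-21456, 7728) (by decide +kernel)
              (CovZ.leaf K2_ok TB_l41131 _)
              (CovZ.leaf K2_ok TB_l18917 _))
             (CovZ.badM (by decide +kernel))))
           (CovZ.badM (by decide +kernel))))
         (CovZ.badM (by decide +kernel)))))
      (CovZ.n1 (-20352, 8064) (by decide +kernel)
       (CovZ.n2 (-20352, 7680) (by decide +kernel)
        (CovZ.badM (by decide +kernel))
        (CovZ.badM (by decide +kernel)))
       (CovZ.badM (by decide +kernel)))))))
    (CovZ.topM TB_LL 1233717610416201951478948211507278396744129346824629220881071257772344491768899236482715986403307800129190737485824 (by decide +kernel) (CovZ.n0 (-20736, 8448) (by decide +kernel)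
    (CovZ.n2 (-21504, 8448) (by decide +kernel)
     (CovZ.n2 (-21120, 8832) (by decide +kernel)
      TB_u253
      TB_u254)
     (CovZ.subM 1231312693637410590911261757582614086493372321814033941109716029911826589136601076526186032705589546688114577121280 (by decide +kernel)
      (CovZ.n1 (-21120, 8064) (by decide +kernel)
       TB_u255
       TB_u256)))
    (CovZ.n1 (-20736, 9216) (by decide +kernel)
     (CovZ.subM 9174029459972012944936574169918385606289949408533731382591311102687227738004201784194590225012054781067264 (by decide +kernel)
      (CovZ.n2 (-20352, 8832) (by decide +kernel)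
       TB_u257
       TB_u258))
     (CovZ.subM 1233717601242206000692165257588156657225125727364064908903104434737745974763324322437783232492798578632141133840384 (by decide +kernel)
      (CovZ.n1 (-21120, 8832) (by decide +kernel)
       TB_u261
       TB_u262)))))

theorem TB_s8_8 : SqZ TB_M TB_L [0, 7, 6, 1] (-32256) (-4608) 1536 8 8 :=
  SqZ.mk (a := (-19968)) (b := (-18432)) (c := 7680) (d := 9216) (by norm_num) (by norm_num) (by norm_num) (by norm_num)
    (CovZ.topM TB_LL 75162536783210669964630542970503054606305288760313595618831738890698620323752573894479022175864652628418887680 (by decide +kernel) (CovZ.n2 (-19200, 8448) (by decide +kernel)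
    (CovZ.n2 (-18432, 8448) (by decide +kernel)
     TB_u263
     TB_u264)
    (CovZ.subM 75162536643226623578509822623703247526956342577532730532829304972895960900002886014496026566276700799187812352 (by decide +kernel)
     (CovZ.n1 (-19200, 7680) (by decide +kernel)
      (CovZ.n2 (-19584, 8064) (by decide +kernel)
       (CovZ.n2 (-19200, 8064) (by decide +kernel)
        (CovZ.badM (by decide +kernel))
        (CovZ.n1 (-19392, 8256) (by decide +kernel)
         (CovZ.n2 (-19200, 8256) (by decide +kernel)
          (CovZ.badM (by decide +kernel))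
          (CovZ.n1 (-19296, 8352) (by decide +kernel)
           (CovZ.n2 (-19200, 8352) (by decide +kernel)
            (CovZ.badM (by decide +kernel))
            (CovZ.n1 (-19248, 8400) (by decide +kernel)
             (CovZ.leaf K2_ok TB_l41825 _)
             (CovZ.badM (by decide +kernel))))
           (CovZ.badM (by decide +kernel))))
         (CovZ.badM (by decide +kernel))))
       (CovZ.badM (by decide +kernel)))
      (CovZ.n1 (-18816, 8064) (by decide +kernel)
       (CovZ.badM (by decide +kernel))
       (CovZ.n1 (-19200, 8064) (by decide +kernel)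
        (CovZ.n2 (-19008, 8256) (by decide +kernel)
         (CovZ.badM (by decide +kernel))
         (CovZ.n1 (-19200, 8256) (by decide +kernel)
          (CovZ.n2 (-19104, 8352) (by decide +kernel)
           (CovZ.n2 (-19104, 8256) (by decide +kernel)
            (CovZ.n2 (-19152, 8304) (by decide +kernel)
             (CovZ.n2 (-19104, 8304) (by decide +kernel)
              (CovZ.n2 (-19128, 8280) (by decide +kernel)
               (CovZ.n2 (-19128, 8304) (by decide +kernel)
                (CovZ.badM (by decide +kernel))
                (CovZ.leaf K2_ok TB_l41826 _))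
               (CovZ.badM (by decide +kernel)))
              (CovZ.n1 (-19128, 8328) (by decide +kernel)
               (CovZ.badM (by decide +kernel))
               (CovZ.n1 (-19128, 8304) (by decide +kernel)
                (CovZ.leaf K2_ok TB_l41827 _)
                (CovZ.badM (by decide +kernel)))))
             (CovZ.badM (by decide +kernel)))
            (CovZ.badM (by decide +kernel)))
           (CovZ.n1 (-19200, 8352) (by decide +kernel)
            (CovZ.n2 (-19152, 8400) (by decide +kernel)
             (CovZ.n2 (-19152, 8352) (by decide +kernel)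
              (CovZ.leaf K2_ok TB_l41828 _)
              (CovZ.leaf K2_ok TB_l41829 _))
             (CovZ.n1 (-19200, 8400) (by decide +kernel)
              (CovZ.leaf K2_ok TB_l41830 _)
              (CovZ.leaf K2_ok TB_l41831 _)))
            (CovZ.n1 (-19152, 8304) (by decide +kernel)
             (CovZ.badM (by decide +kernel))
             (CovZ.n1 (-19152, 8352) (by decide +kernel)
              (CovZ.n2 (-19128, 8328) (by decide +kernel)
               (CovZ.leaf K2_ok TB_l41832 _)
               (CovZ.leaf K2_ok TB_l41833 _))
              (CovZ.leaf K2_ok TB_l41834 _)))))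
          (CovZ.n1 (-19104, 8160) (by decide +kernel)
           (CovZ.badM (by decide +kernel))
           (CovZ.n1 (-19104, 8256) (by decide +kernel)
            (CovZ.badM (by decide +kernel))
            (CovZ.badM (by decide +kernel))))))
        (CovZ.badM (by decide +kernel))))))))
    (CovZ.topM TB_LL 75162536783210670095000845455924985514908189291528015012206828137523758922502764645366222897044779157078147072 (by decide +kernel) (CovZ.n0 (-19200, 8448) (by decide +kernel)
    (CovZ.n2 (-19968, 8448) (by decide +kernel)
     TB_u267
     TB_u268)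
    (CovZ.n1 (-19200, 9216) (by decide +kernel)
     (CovZ.n2 (-18816, 8832) (by decide +kernel)
      (CovZ.subM 9173994463960286046443298787951843121447572543403443716102990121366593247128005064791129962034908629041152 (by decide +kernel)
       (CovZ.n2 (-19200, 8832) (by decide +kernel)
        (CovZ.n2 (-19008, 9024) (by decide +kernel)
         (CovZ.n2 (-19008, 8832) (by decide +kernel)
          (CovZ.n2 (-19104, 8928) (by decide +kernel)
           (CovZ.leaf K2_ok TB_l19900 _)
           (CovZ.n1 (-19104, 8832) (by decide +kernel)
            (CovZ.leaf K2_ok TB_l19901 _)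
            (CovZ.leaf K2_ok TB_l19902 _)))
          (CovZ.n1 (-18912, 8928) (by decide +kernel)
           (CovZ.n2 (-18912, 8832) (by decide +kernel)
            (CovZ.leaf K2_ok TB_l19903 _)
            (CovZ.leaf K2_ok TB_l19904 _))
           (CovZ.leaf K2_ok TB_l19905 _)))
         (CovZ.n1 (-19200, 9024) (by decide +kernel)
          (CovZ.n2 (-19104, 9120) (by decide +kernel)
           (CovZ.leaf K2_ok TB_l19906 _)
           (CovZ.leaf K2_ok TB_l19907 _))
          (CovZ.n1 (-19104, 8928) (by decide +kernel)
           (CovZ.leaf K2_ok TB_l19908 _)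
           (CovZ.leaf K2_ok TB_l19909 _))))
        (CovZ.n1 (-19008, 8640) (by decide +kernel)
         (CovZ.n2 (-19200, 8640) (by decide +kernel)
          (CovZ.n2 (-19104, 8736) (by decide +kernel)
           (CovZ.n2 (-19104, 8640) (by decide +kernel)
            (CovZ.leaf K2_ok TB_l19910 _)
            (CovZ.leaf K2_ok TB_l19911 _))
           (CovZ.n1 (-19200, 8736) (by decide +kernel)
            (CovZ.leaf K2_ok TB_l19912 _)
            (CovZ.leaf K2_ok TB_l19913 _)))
          (CovZ.subM 29642774844752946028434172162224104410437116074403984394138920437888718349533184 (by decide +kernel)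
           (CovZ.n1 (-19104, 8544) (by decide +kernel)
            (CovZ.n2 (-19200, 8544) (by decide +kernel)
             (CovZ.n2 (-19152, 8592) (by decide +kernel)
              (CovZ.leaf K2_ok TB_l42004 _)
              (CovZ.leaf K2_ok TB_l42005 _))
             (CovZ.n1 (-19152, 8496) (by decide +kernel)
              (CovZ.leaf K2_ok TB_l42006 _)
              (CovZ.leaf K2_ok TB_l42007 _)))
            (CovZ.n1 (-19104, 8640) (by decide +kernel)
             (CovZ.n2 (-19056, 8592) (by decide +kernel)
              (CovZ.leaf K2_ok TB_l19914 _)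
              (CovZ.leaf K2_ok TB_l19915 _))
             (CovZ.leaf K2_ok TB_l42008 _)))))
         (CovZ.n1 (-19008, 8832) (by decide +kernel)
          (CovZ.n2 (-18912, 8736) (by decide +kernel)
           (CovZ.n2 (-19008, 8736) (by decide +kernel)
            (CovZ.leaf K2_ok TB_l19916 _)
            (CovZ.leaf K2_ok TB_l19917 _))
           (CovZ.n1 (-18912, 8832) (by decide +kernel)
            (CovZ.leaf K2_ok TB_l19918 _)
            (CovZ.leaf K2_ok TB_l19919 _)))
          (CovZ.n1 (-19104, 8736) (by decide +kernel)
           (CovZ.n2 (-19104, 8832) (by decide +kernel)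
            (CovZ.leaf K2_ok TB_l19920 _)
            (CovZ.leaf K2_ok TB_l19921 _))
           (CovZ.n1 (-19008, 8736) (by decide +kernel)
            (CovZ.leaf K2_ok TB_l19922 _)
            (CovZ.leaf K2_ok TB_l19923 _)))))))
      (CovZ.n1 (-18816, 9216) (by decide +kernel)
       (CovZ.subM 75153362788746709678584099686921846258431674558808273473737832350200787891827569823961713872001923008505577472 (by decide +kernel)
        (CovZ.n2 (-18624, 9024) (by decide +kernel)
         (CovZ.subM 15206743495358261312586730319221152634763818901742774065832511055749594405882822656 (by decide +kernel)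
          (CovZ.n2 (-18816, 9024) (by decide +kernel)
           (CovZ.n2 (-18720, 9120) (by decide +kernel)
            (CovZ.leaf K2_ok TB_l19924 _)
            (CovZ.leaf K2_ok TB_l19925 _))
           (CovZ.n1 (-18720, 8928) (by decide +kernel)
            (CovZ.leaf K2_ok TB_l19926 _)
            (CovZ.leaf K2_ok TB_l19927 _))))
         (CovZ.n1 (-18624, 9216) (by decide +kernel)
          (CovZ.n2 (-18528, 9120) (by decide +kernel)
           (CovZ.leaf K2_ok TB_l19928 _)
           (CovZ.leaf K2_ok TB_l19929 _))
          (CovZ.leaf K2_ok TB_l19930 _))))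
       (CovZ.subM 9173994463960286046443298787951843121447572543403443716102990121366593247128005064791129962034908629041152 (by decide +kernel)
        (CovZ.n1 (-19008, 9024) (by decide +kernel)
         (CovZ.n2 (-19008, 9216) (by decide +kernel)
          (CovZ.n2 (-18912, 9120) (by decide +kernel)
           (CovZ.leaf K2_ok TB_l19931 _)
           (CovZ.leaf K2_ok TB_l19932 _))
          (CovZ.leaf K2_ok TB_l19933 _))
         (CovZ.n1 (-18816, 9024) (by decide +kernel)
          (CovZ.n2 (-18912, 8928) (by decide +kernel)
           (CovZ.leaf K2_ok TB_l19934 _)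
           (CovZ.leaf K2_ok TB_l19935 _))
          (CovZ.n1 (-18912, 9120) (by decide +kernel)
           (CovZ.leaf K2_ok TB_l19936 _)
           (CovZ.leaf K2_ok TB_l19937 _)))))))
     (CovZ.n1 (-19584, 8832) (by decide +kernel)
      (CovZ.n2 (-19584, 9216) (by decide +kernel)
       (CovZ.subM 9173994463960286046443298802773230543824045557620529797215042326585151284329997271588665135690736944021504 (by decide +kernel)
        (CovZ.n2 (-19392, 9024) (by decide +kernel)
         (CovZ.n2 (-19584, 9024) (by decide +kernel)
          (CovZ.n2 (-19488, 9120) (by decide +kernel)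
           (CovZ.n2 (-19488, 9024) (by decide +kernel)
            (CovZ.leaf K2_ok TB_l19938 _)
            (CovZ.leaf K2_ok TB_l19939 _))
           (CovZ.leaf K2_ok TB_l19940 _))
          (CovZ.n1 (-19488, 8928) (by decide +kernel)
           (CovZ.n2 (-19584, 8928) (by decide +kernel)
            (CovZ.leaf K2_ok TB_l19941 _)
            (CovZ.leaf K2_ok TB_l19942 _))
           (CovZ.n1 (-19488, 9024) (by decide +kernel)
            (CovZ.leaf K2_ok TB_l19943 _)
            (CovZ.leaf K2_ok TB_l19944 _))))
         (CovZ.n1 (-19392, 9216) (by decide +kernel)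
          (CovZ.n2 (-19296, 9120) (by decide +kernel)
           (CovZ.leaf K2_ok TB_l19945 _)
           (CovZ.leaf K2_ok TB_l19946 _))
          (CovZ.n1 (-19488, 9120) (by decide +kernel)
           (CovZ.leaf K2_ok TB_l19947 _)
           (CovZ.leaf K2_ok TB_l19948 _)))))
       (CovZ.n1 (-19776, 9024) (by decide +kernel)
        (CovZ.n2 (-19776, 9216) (by decide +kernel)
         (CovZ.n2 (-19680, 9120) (by decide +kernel)
          (CovZ.leaf K2_ok TB_l19949 _)
          (CovZ.leaf K2_ok TB_l19950 _))
         (CovZ.n1 (-19872, 9120) (by decide +kernel)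
          (CovZ.n2 (-19872, 9216) (by decide +kernel)
           (CovZ.leaf K2_ok TB_l19951 _)
           (CovZ.leaf K2_ok TB_l19952 _))
          (CovZ.leaf K2_ok TB_l19953 _)))
        (CovZ.subM 9173994463960286046443298802773230543824045557620529797215042326585151284329997271588666288612241550868480 (by decide +kernel)
         (CovZ.n1 (-19584, 9024) (by decide +kernel)
          (CovZ.n2 (-19680, 8928) (by decide +kernel)
           (CovZ.n2 (-19680, 9024) (by decide +kernel)
            (CovZ.leaf K2_ok TB_l19954 _)
            (CovZ.leaf K2_ok TB_l19955 _))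
           (CovZ.n1 (-19584, 8928) (by decide +kernel)
            (CovZ.leaf K2_ok TB_l19956 _)
            (CovZ.leaf K2_ok TB_l19957 _)))
          (CovZ.n1 (-19680, 9120) (by decide +kernel)
           (CovZ.leaf K2_ok TB_l19958 _)
           (CovZ.n1 (-19680, 9024) (by decide +kernel)
            (CovZ.leaf K2_ok TB_l19959 _)
            (CovZ.leaf K2_ok TB_l19960 _)))))))
      (CovZ.subM 9173994463960286046443298787951843121447572543403443716102990121366593247128005074462536518951942026690560 (by decide +kernel)
       (CovZ.n1 (-19200, 8832) (by decide +kernel)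
        (CovZ.n2 (-19392, 8640) (by decide +kernel)
         (CovZ.n2 (-19392, 8832) (by decide +kernel)
          (CovZ.n2 (-19296, 8736) (by decide +kernel)
           (CovZ.n2 (-19392, 8736) (by decide +kernel)
            (CovZ.leaf K2_ok TB_l19961 _)
            (CovZ.n1 (-19344, 8688) (by decide +kernel)
             (CovZ.leaf K2_ok TB_l42009 _)
             (CovZ.leaf K2_ok TB_l42010 _)))
           (CovZ.n1 (-19296, 8832) (by decide +kernel)
            (CovZ.leaf K2_ok TB_l19962 _)
            (CovZ.leaf K2_ok TB_l19963 _)))
          (CovZ.n1 (-19488, 8736) (by decide +kernel)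
           (CovZ.n2 (-19488, 8832) (by decide +kernel)
            (CovZ.n2 (-19440, 8784) (by decide +kernel)
             (CovZ.leaf K2_ok TB_l19964 _)
             (CovZ.leaf K2_ok TB_l19965 _))
            (CovZ.leaf K2_ok TB_l19966 _))
           (CovZ.n1 (-19392, 8736) (by decide +kernel)
            (CovZ.n2 (-19440, 8688) (by decide +kernel)
             (CovZ.leaf K2_ok TB_l42011 _)
             (CovZ.leaf K2_ok TB_l42012 _))
            (CovZ.n1 (-19440, 8784) (by decide +kernel)
             (CovZ.leaf K2_ok TB_l19967 _)
             (CovZ.leaf K2_ok TB_l19968 _)))))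
         (CovZ.n1 (-19200, 8640) (by decide +kernel)
          (CovZ.subM 9173994463960286046443283610851122607939205985107296657174459767984807578757923626418994650329221095751680 (by decide +kernel)
           (CovZ.n2 (-19296, 8544) (by decide +kernel)
            (CovZ.n2 (-19296, 8640) (by decide +kernel)
             (CovZ.n2 (-19248, 8592) (by decide +kernel)
              (CovZ.leaf K2_ok TB_l42013 _)
              (CovZ.leaf K2_ok TB_l42014 _))
             (CovZ.n1 (-19344, 8592) (by decide +kernel)
              (CovZ.leaf K2_ok TB_l42015 _)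
              (CovZ.leaf K2_ok TB_l42016 _)))
            (CovZ.n1 (-19200, 8544) (by decide +kernel)
             (CovZ.n2 (-19248, 8496) (by decide +kernel)
              (CovZ.n2 (-19248, 8544) (by decide +kernel)
               (CovZ.leaf K2_ok TB_l42017 _)
               (CovZ.leaf K2_ok TB_l42018 _))
              (CovZ.leaf K2_ok TB_l42019 _))
             (CovZ.n1 (-19248, 8592) (by decide +kernel)
              (CovZ.leaf K2_ok TB_l42020 _)
              (CovZ.n1 (-19248, 8544) (by decide +kernel)
               (CovZ.leaf K2_ok TB_l42021 _)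
               (CovZ.leaf K2_ok TB_l42022 _))))))
          (CovZ.n1 (-19296, 8736) (by decide +kernel)
           (CovZ.n2 (-19200, 8736) (by decide +kernel)
            (CovZ.leaf K2_ok TB_l19969 _)
            (CovZ.leaf K2_ok TB_l19970 _))
           (CovZ.n1 (-19296, 8640) (by decide +kernel)
            (CovZ.n2 (-19344, 8688) (by decide +kernel)
             (CovZ.leaf K2_ok TB_l42023 _)
             (CovZ.leaf K2_ok TB_l42024 _))
            (CovZ.leaf K2_ok TB_l42025 _)))))
        (CovZ.n1 (-19392, 9024) (by decide +kernel)
         (CovZ.n2 (-19200, 9024) (by decide +kernel)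
          (CovZ.n2 (-19296, 8928) (by decide +kernel)
           (CovZ.n2 (-19296, 9024) (by decide +kernel)
            (CovZ.leaf K2_ok TB_l19971 _)
            (CovZ.leaf K2_ok TB_l19972 _))
           (CovZ.leaf K2_ok TB_l19973 _))
          (CovZ.n1 (-19296, 9120) (by decide +kernel)
           (CovZ.leaf K2_ok TB_l19974 _)
           (CovZ.leaf K2_ok TB_l19975 _)))
         (CovZ.n1 (-19392, 8832) (by decide +kernel)
          (CovZ.n2 (-19488, 8928) (by decide +kernel)
           (CovZ.leaf K2_ok TB_l19976 _)
           (CovZ.n1 (-19488, 8832) (by decide +kernel)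
            (CovZ.leaf K2_ok TB_l19977 _)
            (CovZ.leaf K2_ok TB_l19978 _)))
          (CovZ.n1 (-19296, 8928) (by decide +kernel)
           (CovZ.n2 (-19296, 8832) (by decide +kernel)
            (CovZ.leaf K2_ok TB_l19979 _)
            (CovZ.leaf K2_ok TB_l19980 _))
           (CovZ.n1 (-19392, 8928) (by decide +kernel)
            (CovZ.leaf K2_ok TB_l19981 _)
            (CovZ.leaf K2_ok TB_l19982 _)))))))))))

theorem TB_s9_8 : SqZ TB_M TB_L [0, 7, 6, 1] (-32256) (-4608) 1536 9 8 :=
  SqZ.mk (a := (-18432)) (b := (-16896)) (c := 7680) (d := 9216) (by norm_num) (by norm_num) (by norm_num) (by norm_num)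
    (CovZ.topM TB_LL 76401169379508809525072488114610071723070882250472261052270948573801536015783846933326558804965468520182710312 (by decide +kernel) (CovZ.n2 (-17664, 8448) (by decide +kernel)
    TB_u271
    TB_u272))
    (CovZ.topM TB_LL 76401169379508809525072488372620783971800524481963295552269553362246194327396127099582894473413693898999463976 (by decide +kernel) (CovZ.n0 (-17664, 8448) (by decide +kernel)
    TB_u275
    TB_u276))

theorem TB_s10_8 : SqZ TB_M TB_L [0, 7, 6, 1] (-32256) (-4608) 1536 10 8 :=
  SqZ.mk (a := (-16896)) (b := (-15360)) (c := 7680) (d := 9216) (by norm_num) (by norm_num) (by norm_num) (by norm_num)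
    (CovZ.topM TB_LL 19701004346003830368239367055427996879104431951935748783282298338843087802259294902456242536024811935994068540067880 (by decide +kernel) (CovZ.n2 (-16128, 8448) (by decide +kernel)
    TB_u277
    TB_u278))
    (CovZ.topM TB_LL 19701079499366619114949045631818915596236737706045919965627313349449086529124840579380562561010136818352607106961448 (by decide +kernel) (CovZ.n0 (-16128, 8448) (by decide +kernel)
    TB_u279
    TB_u280))

theorem TB_s11_8 : SqZ TB_M TB_L [0, 7, 6, 1] (-32256) (-4608) 1536 11 8 :=
  SqZ.mk (a := (-15360)) (b := (-13824)) (c := 7680) (d := 9216) (by norm_num) (by norm_num) (by norm_num) (by norm_num)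
    (CovZ.topM TB_LL 7957171782556614764896720518463929525170660125435404971350335692935839682400389871697960 (by decide +kernel) (CovZ.n2 (-14592, 8448) (by decide +kernel)
    (CovZ.badM (by decide +kernel))
    (CovZ.n1 (-14592, 7680) (by decide +kernel)
     (CovZ.n2 (-14976, 8064) (by decide +kernel)
      (CovZ.badM (by decide +kernel))
      (CovZ.n1 (-14976, 7680) (by decide +kernel)
       (CovZ.n2 (-15168, 7872) (by decide +kernel)
        (CovZ.badM (by decide +kernel))
        (CovZ.n1 (-15168, 7680) (by decide +kernel)
         (CovZ.n2 (-15264, 7776) (by decide +kernel)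
          (CovZ.badM (by decide +kernel))
          (CovZ.n1 (-15264, 7680) (by decide +kernel)
           (CovZ.leaf K2_ok TB_l31778 _)
           (CovZ.badM (by decide +kernel))))
         (CovZ.badM (by decide +kernel))))
       (CovZ.badM (by decide +kernel))))
     (CovZ.badM (by decide +kernel)))))
    (CovZ.topM TB_LL 7957171782556614764896720518463929525170660125435404971350335692935839682400389871697960 (by decide +kernel) (CovZ.n0 (-14592, 8448) (by decide +kernel)
    (CovZ.n2 (-15360, 8448) (by decide +kernel)
     (CovZ.n2 (-14976, 8832) (by decide +kernel)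
      (CovZ.n2 (-14976, 8448) (by decide +kernel)
       (CovZ.n2 (-15168, 8640) (by decide +kernel)
        (CovZ.badM (by decide +kernel))
        (CovZ.n1 (-15168, 8448) (by decide +kernel)
         (CovZ.n2 (-15264, 8544) (by decide +kernel)
          (CovZ.badM (by decide +kernel))
          (CovZ.n1 (-15264, 8448) (by decide +kernel)
           (CovZ.leaf K2_ok TB_l31848 _)
           (CovZ.badM (by decide +kernel))))
         (CovZ.badM (by decide +kernel))))
       (CovZ.badM (by decide +kernel)))
      (CovZ.n1 (-15360, 8832) (by decide +kernel)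
       (CovZ.n2 (-15168, 9024) (by decide +kernel)
        (CovZ.n2 (-15168, 8832) (by decide +kernel)
         (CovZ.n2 (-15264, 8928) (by decide +kernel)
          (CovZ.badM (by decide +kernel))
          (CovZ.n1 (-15264, 8832) (by decide +kernel)
           (CovZ.leaf K2_ok TB_l31907 _)
           (CovZ.badM (by decide +kernel))))
         (CovZ.badM (by decide +kernel)))
        (CovZ.n1 (-15360, 9024) (by decide +kernel)
         (CovZ.n2 (-15264, 9120) (by decide +kernel)
          (CovZ.n2 (-15264, 9024) (by decide +kernel)
           (CovZ.leaf K2_ok TB_l31915 _)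
           (CovZ.badM (by decide +kernel)))
          (CovZ.leaf K2_ok TB_l31917 _))
         (CovZ.n1 (-15264, 8928) (by decide +kernel)
          (CovZ.n2 (-15360, 8928) (by decide +kernel)
           (CovZ.leaf K2_ok TB_l31918 _)
           (CovZ.leaf K2_ok TB_l31919 _))
          (CovZ.n1 (-15264, 9024) (by decide +kernel)
           (CovZ.badM (by decide +kernel))
           (CovZ.leaf K2_ok TB_l31921 _)))))
       (CovZ.n1 (-15168, 8640) (by decide +kernel)
        (CovZ.n2 (-15360, 8640) (by decide +kernel)
         (CovZ.n2 (-15264, 8736) (by decide +kernel)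
          (CovZ.n2 (-15264, 8640) (by decide +kernel)
           (CovZ.leaf K2_ok TB_l31922 _)
           (CovZ.badM (by decide +kernel)))
          (CovZ.n1 (-15360, 8736) (by decide +kernel)
           (CovZ.leaf K2_ok TB_l31924 _)
           (CovZ.leaf K2_ok TB_l31925 _)))
         (CovZ.n1 (-15264, 8544) (by decide +kernel)
          (CovZ.n2 (-15360, 8544) (by decide +kernel)
           (CovZ.leaf K2_ok TB_l31926 _)
           (CovZ.leaf K2_ok TB_l31927 _))
          (CovZ.n1 (-15264, 8640) (by decide +kernel)
           (CovZ.badM (by decide +kernel))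
           (CovZ.leaf K2_ok TB_l31929 _))))
        (CovZ.n1 (-15168, 8832) (by decide +kernel)
         (CovZ.badM (by decide +kernel))
         (CovZ.n1 (-15264, 8736) (by decide +kernel)
          (CovZ.n2 (-15264, 8832) (by decide +kernel)
           (CovZ.badM (by decide +kernel))
           (CovZ.leaf K2_ok TB_l31937 _))
          (CovZ.badM (by decide +kernel)))))))
     (CovZ.n1 (-14976, 8064) (by decide +kernel)
      (CovZ.n2 (-15360, 8064) (by decide +kernel)
       (CovZ.n2 (-15168, 8256) (by decide +kernel)
        (CovZ.n2 (-15168, 8064) (by decide +kernel)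
         (CovZ.n2 (-15264, 8160) (by decide +kernel)
          (CovZ.badM (by decide +kernel))
          (CovZ.n1 (-15264, 8064) (by decide +kernel)
           (CovZ.leaf K2_ok TB_l31942 _)
           (CovZ.badM (by decide +kernel))))
         (CovZ.badM (by decide +kernel)))
        (CovZ.n1 (-15360, 8256) (by decide +kernel)
         (CovZ.n2 (-15264, 8352) (by decide +kernel)
          (CovZ.n2 (-15264, 8256) (by decide +kernel)
           (CovZ.leaf K2_ok TB_l31950 _)
           (CovZ.badM (by decide +kernel)))
          (CovZ.n1 (-15360, 8352) (by decide +kernel)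
           (CovZ.leaf K2_ok TB_l31952 _)
           (CovZ.leaf K2_ok TB_l31953 _)))
         (CovZ.n1 (-15264, 8160) (by decide +kernel)
          (CovZ.leaf K2_ok TB_l31954 _)
          (CovZ.n1 (-15264, 8256) (by decide +kernel)
           (CovZ.badM (by decide +kernel))
           (CovZ.leaf K2_ok TB_l31956 _)))))
       (CovZ.n1 (-15168, 7872) (by decide +kernel)
        (CovZ.n2 (-15360, 7872) (by decide +kernel)
         (CovZ.n2 (-15264, 7968) (by decide +kernel)
          (CovZ.n2 (-15264, 7872) (by decide +kernel)
           (CovZ.leaf K2_ok TB_l31957 _)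
           (CovZ.badM (by decide +kernel)))
          (CovZ.leaf K2_ok TB_l31959 _))
         (CovZ.n1 (-15264, 7776) (by decide +kernel)
          (CovZ.leaf K2_ok TB_l31960 _)
          (CovZ.n1 (-15264, 7872) (by decide +kernel)
           (CovZ.badM (by decide +kernel))
           (CovZ.leaf K2_ok TB_l31962 _))))
        (CovZ.n1 (-15168, 8064) (by decide +kernel)
         (CovZ.badM (by decide +kernel))
         (CovZ.n1 (-15264, 7968) (by decide +kernel)
          (CovZ.n2 (-15264, 8064) (by decide +kernel)
           (CovZ.badM (by decide +kernel))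
           (CovZ.leaf K2_ok TB_l31970 _))
          (CovZ.badM (by decide +kernel))))))
      (CovZ.n1 (-14976, 8448) (by decide +kernel)
       (CovZ.badM (by decide +kernel))
       (CovZ.n1 (-15168, 8256) (by decide +kernel)
        (CovZ.n2 (-15168, 8448) (by decide +kernel)
         (CovZ.badM (by decide +kernel))
         (CovZ.n1 (-15264, 8352) (by decide +kernel)
          (CovZ.n2 (-15264, 8448) (by decide +kernel)
           (CovZ.badM (by decide +kernel))
           (CovZ.leaf K2_ok TB_l32028 _))
          (CovZ.badM (by decide +kernel))))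
        (CovZ.badM (by decide +kernel))))))
    (CovZ.n1 (-14592, 9216) (by decide +kernel)
     (CovZ.badM (by decide +kernel))
     (CovZ.n1 (-14976, 8832) (by decide +kernel)
      (CovZ.n2 (-14976, 9216) (by decide +kernel)
       (CovZ.badM (by decide +kernel))
       (CovZ.n1 (-15168, 9024) (by decide +kernel)
        (CovZ.n2 (-15168, 9216) (by decide +kernel)
         (CovZ.badM (by decide +kernel))
         (CovZ.n1 (-15264, 9120) (by decide +kernel)
          (CovZ.n2 (-15264, 9216) (by decide +kernel)
           (CovZ.badM (by decide +kernel))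
           (CovZ.leaf K2_ok TB_l32097 _))
          (CovZ.badM (by decide +kernel))))
        (CovZ.badM (by decide +kernel))))
      (CovZ.badM (by decide +kernel))))))

theorem TB_s12_8 : SqZ TB_M TB_L [0, 7, 6, 1] (-32256) (-4608) 1536 12 8 :=
  SqZ.mk (a := (-13824)) (b := (-12288)) (c := 7680) (d := 9216) (by norm_num) (by norm_num) (by norm_num) (by norm_num)
    (CovZ.topM TB_LL 0 (by decide +kernel) (CovZ.badM (by decide +kernel)))
    (CovZ.topM TB_LL 0 (by decide +kernel) (CovZ.badM (by decide +kernel)))

theorem TB_s0_9 : SqZ TB_M TB_L [0, 7, 6, 1] (-32256) (-4608) 1536 0 9 :=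
  SqZ.mk (a := (-32256)) (b := (-30720)) (c := 9216) (d := 10752) (by norm_num) (by norm_num) (by norm_num) (by norm_num)
    (CovZ.topM TB_LL 2353129859973906143154175441529284225823720636258563057311064562201646888730119284886260675824942078871207936 (by decide +kernel) (CovZ.n2 (-31488, 9984) (by decide +kernel)
    (CovZ.leaf K2_ok TB_l1826 _)
    (CovZ.n1 (-31488, 9216) (by decide +kernel)
     (CovZ.leaf K2_ok TB_l1827 _)
     (CovZ.leaf K2_ok TB_l1828 _))))
    (CovZ.topM TB_LL 2353129859973906143154175441529284225823720636258563057311064562201646888730119284886260675824942078871207936 (by decide +kernel) (CovZ.n0 (-31488, 9984) (by decide +kernel)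
    (CovZ.leaf K2_ok TB_l1829 _)
    (CovZ.leaf K2_ok TB_l1830 _)))

theorem TB_s1_9 : SqZ TB_M TB_L [0, 7, 6, 1] (-32256) (-4608) 1536 1 9 :=
  SqZ.mk (a := (-30720)) (b := (-29184)) (c := 9216) (d := 10752) (by norm_num) (by norm_num) (by norm_num) (by norm_num)
    (CovZ.topM TB_LL 5043457396718524389246929615679590786649769860618030330285831563160862968912818951366914942140697369811621182645993472 (by decide +kernel) (CovZ.n2 (-29952, 9984) (by decide +kernel)
    (CovZ.leaf K2_ok TB_l4970 _)
    (CovZ.n1 (-29952, 9216) (by decide +kernel)
     (CovZ.leaf K2_ok TB_l4971 _)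
     (CovZ.leaf K2_ok TB_l4972 _))))
    (CovZ.topM TB_LL 5043456795491623199145623275972558008579490852443297809755944613054516948958865054560048546623859907511181296595369984 (by decide +kernel) (CovZ.n0 (-29952, 9984) (by decide +kernel)
    (CovZ.leaf K2_ok TB_l4973 _)
    (CovZ.leaf K2_ok TB_l4974 _)))

theorem TB_s2_9 : SqZ TB_M TB_L [0, 7, 6, 1] (-32256) (-4608) 1536 2 9 :=
  SqZ.mk (a := (-29184)) (b := (-27648)) (c := 9216) (d := 10752) (by norm_num) (by norm_num) (by norm_num) (by norm_num)
    (CovZ.topM TB_LL 5043457394365394529273025558466201509236072870761337087659388523153714458189193193378662585480373344373981804657639424 (by decide +kernel) (CovZ.n2 (-28416, 9984) (by decide +kernel)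
    (CovZ.n2 (-27648, 9984) (by decide +kernel)
     (CovZ.leaf K2_ok TB_l8258 _)
     (CovZ.leaf K2_ok TB_l8259 _))
    (CovZ.n1 (-28416, 9216) (by decide +kernel)
     (CovZ.leaf K2_ok TB_l8260 _)
     (CovZ.n1 (-28032, 9600) (by decide +kernel)
      (CovZ.leaf K2_ok TB_l8261 _)
      (CovZ.leaf K2_ok TB_l8262 _)))))
    (CovZ.topM TB_LL 5043457394365394529273023472541361742722320531872952156456151606450079344270472541970842446593922386717194672858726400 (by decide +kernel) (CovZ.n0 (-28416, 9984) (by decide +kernel)
    (CovZ.n2 (-29184, 9984) (by decide +kernel)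
     (CovZ.leaf K2_ok TB_l8263 _)
     (CovZ.leaf K2_ok TB_l8264 _))
    (CovZ.leaf K2_ok TB_l8265 _)))

theorem TB_s3_9 : SqZ TB_M TB_L [0, 7, 6, 1] (-32256) (-4608) 1536 3 9 :=
  SqZ.mk (a := (-27648)) (b := (-26112)) (c := 9216) (d := 10752) (by norm_num) (by norm_num) (by norm_num) (by norm_num)
    (CovZ.topM TB_LL 5043456793138493409163742411815518257049143405820818034654118408311641010586607628852953291716782207326059500889440384 (by decide +kernel) (CovZ.n2 (-26880, 9984) (by decide +kernel)
    (CovZ.n2 (-26112, 9984) (by decide +kernel)
     (CovZ.n2 (-26496, 9600) (by decide +kernel)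
      (CovZ.leaf K2_ok TB_l11574 _)
      (CovZ.n1 (-26112, 9600) (by decide +kernel)
       (CovZ.leaf K2_ok TB_l11575 _)
       (CovZ.leaf K2_ok TB_l11576 _)))
     (CovZ.n1 (-26496, 10368) (by decide +kernel)
      (CovZ.leaf K2_ok TB_l11577 _)
      (CovZ.leaf K2_ok TB_l11578 _)))
    (CovZ.n1 (-26880, 9216) (by decide +kernel)
     (CovZ.n2 (-27264, 9600) (by decide +kernel)
      (CovZ.leaf K2_ok TB_l11579 _)
      (CovZ.n1 (-27264, 9216) (by decide +kernel)
       (CovZ.leaf K2_ok TB_l11580 _)
       (CovZ.leaf K2_ok TB_l11581 _)))
     (CovZ.n1 (-26496, 9600) (by decide +kernel)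
      (CovZ.n2 (-26496, 9216) (by decide +kernel)
       (CovZ.n2 (-26688, 9408) (by decide +kernel)
        (CovZ.leaf K2_ok TB_l11582 _)
        (CovZ.leaf K2_ok TB_l11583 _))
       (CovZ.n1 (-26304, 9408) (by decide +kernel)
        (CovZ.n2 (-26304, 9216) (by decide +kernel)
         (CovZ.leaf K2_ok TB_l11584 _)
         (CovZ.leaf K2_ok TB_l11585 _))
        (CovZ.leaf K2_ok TB_l11586 _)))
      (CovZ.n1 (-26880, 9600) (by decide +kernel)
       (CovZ.leaf K2_ok TB_l11587 _)
       (CovZ.n1 (-26688, 9408) (by decide +kernel)
        (CovZ.leaf K2_ok TB_l11588 _)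
        (CovZ.leaf K2_ok TB_l11589 _)))))))
    (CovZ.topM TB_LL 5043456793138493409163742411815518257049143405820818034654118408311641010586607628852953291716782207326059500889440384 (by decide +kernel) (CovZ.n0 (-26880, 9984) (by decide +kernel)
    (CovZ.n2 (-27648, 9984) (by decide +kernel)
     (CovZ.leaf K2_ok TB_l11590 _)
     (CovZ.n1 (-27264, 9600) (by decide +kernel)
      (CovZ.leaf K2_ok TB_l11591 _)
      (CovZ.leaf K2_ok TB_l11592 _)))
    (CovZ.n1 (-26880, 10752) (by decide +kernel)
     (CovZ.n2 (-26496, 10368) (by decide +kernel)
      (CovZ.leaf K2_ok TB_l11593 _)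
      (CovZ.leaf K2_ok TB_l11594 _))
     (CovZ.leaf K2_ok TB_l11595 _))))

theorem TB_s4_9 : SqZ TB_M TB_L [0, 7, 6, 1] (-32256) (-4608) 1536 4 9 :=
  SqZ.mk (a := (-26112)) (b := (-24576)) (c := 9216) (d := 10752) (by norm_num) (by norm_num) (by norm_num) (by norm_num)
    (CovZ.topM TB_LL 631663411835949099859883151205914022257904644374446960892027670799798706760137269538072325248303414314334467127517316 (by decide +kernel) (CovZ.n2 (-25344, 9984) (by decide +kernel)
    (CovZ.n2 (-24576, 9984) (by decide +kernel)
     (CovZ.n2 (-24960, 9600) (by decide +kernel)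
      (CovZ.n2 (-24960, 9984) (by decide +kernel)
       (CovZ.n2 (-24768, 9792) (by decide +kernel)
        (CovZ.n2 (-24960, 9792) (by decide +kernel)
         (CovZ.leaf K2_ok TB_l13693 _)
         (CovZ.leaf K2_ok TB_l13694 _))
        (CovZ.leaf K2_ok TB_l13695 _))
       (CovZ.leaf K2_ok TB_l13696 _))
      (CovZ.n1 (-24576, 9600) (by decide +kernel)
       (CovZ.n2 (-24768, 9408) (by decide +kernel)
        (CovZ.n2 (-24768, 9600) (by decide +kernel)
         (CovZ.n2 (-24672, 9504) (by decide +kernel)
          (CovZ.n2 (-24768, 9504) (by decide +kernel)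
           (CovZ.leaf K2_ok TB_l13697 _)
           (CovZ.n1 (-24720, 9456) (by decide +kernel)
            (CovZ.leaf K2_ok TB_l13698 _)
            (CovZ.leaf K2_ok TB_l13699 _)))
          (CovZ.n1 (-24672, 9600) (by decide +kernel)
           (CovZ.leaf K2_ok TB_l13700 _)
           (CovZ.leaf K2_ok TB_l13701 _)))
         (CovZ.n1 (-24864, 9504) (by decide +kernel)
          (CovZ.leaf K2_ok TB_l13702 _)
          (CovZ.leaf K2_ok TB_l13703 _)))
        (CovZ.n1 (-24576, 9408) (by decide +kernel)
         (CovZ.n2 (-24672, 9312) (by decide +kernel)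
          (CovZ.n2 (-24672, 9408) (by decide +kernel)
           (CovZ.n2 (-24624, 9360) (by decide +kernel)
            (CovZ.leaf K2_ok TB_l13704 _)
            (CovZ.leaf K2_ok TB_l13705 _))
           (CovZ.leaf K2_ok TB_l13706 _))
          (CovZ.n1 (-24576, 9312) (by decide +kernel)
           (CovZ.leaf K2_ok TB_l13707 _)
           (CovZ.n1 (-24624, 9360) (by decide +kernel)
            (CovZ.leaf K2_ok TB_l13708 _)
            (CovZ.leaf K2_ok TB_l13709 _))))
         (CovZ.n1 (-24672, 9504) (by decide +kernel)
          (CovZ.n2 (-24576, 9504) (by decide +kernel)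
           (CovZ.n2 (-24624, 9456) (by decide +kernel)
            (CovZ.leaf K2_ok TB_l13710 _)
            (CovZ.leaf K2_ok TB_l13711 _))
           (CovZ.leaf K2_ok TB_l13712 _))
          (CovZ.n1 (-24672, 9408) (by decide +kernel)
           (CovZ.n2 (-24720, 9456) (by decide +kernel)
            (CovZ.leaf K2_ok TB_l13713 _)
            (CovZ.leaf K2_ok TB_l13714 _))
           (CovZ.n1 (-24624, 9456) (by decide +kernel)
            (CovZ.leaf K2_ok TB_l13715 _)
            (CovZ.leaf K2_ok TB_l13716 _))))))
       (CovZ.n1 (-24768, 9792) (by decide +kernel)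
        (CovZ.leaf K2_ok TB_l13717 _)
        (CovZ.n1 (-24768, 9600) (by decide +kernel)
         (CovZ.leaf K2_ok TB_l13718 _)
         (CovZ.n1 (-24672, 9696) (by decide +kernel)
          (CovZ.leaf K2_ok TB_l13719 _)
          (CovZ.leaf K2_ok TB_l13720 _))))))
     (CovZ.n1 (-24960, 10368) (by decide +kernel)
      (CovZ.leaf K2_ok TB_l13721 _)
      (CovZ.n1 (-24960, 9984) (by decide +kernel)
       (CovZ.leaf K2_ok TB_l13722 _)
       (CovZ.leaf K2_ok TB_l13723 _))))
    (CovZ.n1 (-25344, 9216) (by decide +kernel)
     (CovZ.n2 (-25728, 9600) (by decide +kernel)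
      (CovZ.subM 69992023193056381579920071267763883691405069292437503206632595864511782931065875683789319079744241792 (by decide +kernel)
       (CovZ.n2 (-25344, 9600) (by decide +kernel)
        (CovZ.n2 (-25536, 9408) (by decide +kernel)
         (CovZ.n2 (-25536, 9600) (by decide +kernel)
          (CovZ.leaf K2_ok TB_l13724 _)
          (CovZ.leaf K2_ok TB_l13725 _))
         (CovZ.n1 (-25344, 9408) (by decide +kernel)
          (CovZ.n2 (-25440, 9312) (by decide +kernel)
           (CovZ.leaf K2_ok TB_l13726 _)
           (CovZ.leaf K2_ok TB_l13727 _))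
          (CovZ.leaf K2_ok TB_l13728 _)))
        (CovZ.n1 (-25536, 9792) (by decide +kernel)
         (CovZ.leaf K2_ok TB_l13729 _)
         (CovZ.n1 (-25536, 9600) (by decide +kernel)
          (CovZ.leaf K2_ok TB_l13730 _)
          (CovZ.leaf K2_ok TB_l13731 _)))))
      (CovZ.n1 (-25728, 9216) (by decide +kernel)
       (CovZ.n2 (-25920, 9408) (by decide +kernel)
        (CovZ.n2 (-25728, 9408) (by decide +kernel)
         (CovZ.leaf K2_ok TB_l13732 _)
         (CovZ.leaf K2_ok TB_l13733 _))
        (CovZ.n1 (-25920, 9216) (by decide +kernel)
         (CovZ.leaf K2_ok TB_l13734 _)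
         (CovZ.n1 (-25824, 9312) (by decide +kernel)
          (CovZ.n2 (-25824, 9216) (by decide +kernel)
           (CovZ.leaf K2_ok TB_l13735 _)
           (CovZ.leaf K2_ok TB_l13736 _))
          (CovZ.leaf K2_ok TB_l13737 _))))
       (CovZ.subM 69992023193056381579920071267763883691405069292437502841257186531786053380144667504718564165761106048 (by decide +kernel)
        (CovZ.n1 (-25536, 9408) (by decide +kernel)
         (CovZ.n2 (-25536, 9216) (by decide +kernel)
          (CovZ.n2 (-25632, 9312) (by decide +kernel)
           (CovZ.leaf K2_ok TB_l13738 _)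
           (CovZ.n1 (-25632, 9216) (by decide +kernel)
            (CovZ.leaf K2_ok TB_l13739 _)
            (CovZ.leaf K2_ok TB_l13740 _)))
          (CovZ.n1 (-25440, 9312) (by decide +kernel)
           (CovZ.n2 (-25440, 9216) (by decide +kernel)
            (CovZ.leaf K2_ok TB_l13741 _)
            (CovZ.leaf K2_ok TB_l13742 _))
           (CovZ.leaf K2_ok TB_l13743 _)))
         (CovZ.n1 (-25728, 9408) (by decide +kernel)
          (CovZ.leaf K2_ok TB_l13744 _)
          (CovZ.n1 (-25632, 9312) (by decide +kernel)
           (CovZ.leaf K2_ok TB_l13745 _)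
           (CovZ.leaf K2_ok TB_l13746 _)))))))
     (CovZ.n1 (-24960, 9600) (by decide +kernel)
      (CovZ.n2 (-24960, 9216) (by decide +kernel)
       (CovZ.subM 69992023193056381579920071267763883691405069292437503206632595864511782931065875683789319079744241792 (by decide +kernel)
        (CovZ.n2 (-25152, 9408) (by decide +kernel)
         (CovZ.n2 (-24960, 9408) (by decide +kernel)
          (CovZ.n2 (-25056, 9312) (by decide +kernel)
           (CovZ.n2 (-25056, 9408) (by decide +kernel)
            (CovZ.leaf K2_ok TB_l13747 _)
            (CovZ.leaf K2_ok TB_l13748 _))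
           (CovZ.n1 (-24960, 9312) (by decide +kernel)
            (CovZ.leaf K2_ok TB_l13749 _)
            (CovZ.leaf K2_ok TB_l13750 _)))
          (CovZ.n1 (-25056, 9504) (by decide +kernel)
           (CovZ.leaf K2_ok TB_l13751 _)
           (CovZ.n1 (-25056, 9408) (by decide +kernel)
            (CovZ.leaf K2_ok TB_l13752 _)
            (CovZ.leaf K2_ok TB_l13753 _))))
         (CovZ.n1 (-25152, 9216) (by decide +kernel)
          (CovZ.n2 (-25248, 9312) (by decide +kernel)
           (CovZ.n2 (-25152, 9312) (by decide +kernel)
            (CovZ.leaf K2_ok TB_l13754 _)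
            (CovZ.leaf K2_ok TB_l13755 _))
           (CovZ.n1 (-25248, 9216) (by decide +kernel)
            (CovZ.leaf K2_ok TB_l13756 _)
            (CovZ.leaf K2_ok TB_l13757 _)))
          (CovZ.n1 (-25056, 9312) (by decide +kernel)
           (CovZ.n2 (-25056, 9216) (by decide +kernel)
            (CovZ.leaf K2_ok TB_l13758 _)
            (CovZ.leaf K2_ok TB_l13759 _))
           (CovZ.n1 (-25152, 9312) (by decide +kernel)
            (CovZ.leaf K2_ok TB_l13760 _)
            (CovZ.leaf K2_ok TB_l13761 _))))))
       (CovZ.n1 (-24768, 9408) (by decide +kernel)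
        (CovZ.n2 (-24768, 9216) (by decide +kernel)
         (CovZ.subM 69992023193056381579920071267763883691405069292437503203778100479099863168949303744890328806978748544 (by decide +kernel)
          (CovZ.n2 (-24864, 9312) (by decide +kernel)
           (CovZ.n2 (-24768, 9312) (by decide +kernel)
            (CovZ.leaf K2_ok TB_l13762 _)
            (CovZ.leaf K2_ok TB_l13763 _))
           (CovZ.n1 (-24864, 9216) (by decide +kernel)
            (CovZ.leaf K2_ok TB_l13764 _)
            (CovZ.leaf K2_ok TB_l13765 _))))
         (CovZ.n1 (-24672, 9312) (by decide +kernel)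
          (CovZ.n2 (-24672, 9216) (by decide +kernel)
           (CovZ.leaf K2_ok TB_l13766 _)
           (CovZ.leaf K2_ok TB_l13767 _))
          (CovZ.n1 (-24768, 9312) (by decide +kernel)
           (CovZ.leaf K2_ok TB_l13768 _)
           (CovZ.leaf K2_ok TB_l13769 _))))
        (CovZ.subM 69992023193056381579920071267763883691405069292437503203778100479099863168949303744890328806978748544 (by decide +kernel)
         (CovZ.n1 (-24960, 9408) (by decide +kernel)
          (CovZ.n2 (-24864, 9504) (by decide +kernel)
           (CovZ.n2 (-24864, 9408) (by decide +kernel)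
            (CovZ.n2 (-24912, 9456) (by decide +kernel)
             (CovZ.leaf K2_ok TB_l13770 _)
             (CovZ.leaf K2_ok TB_l13771 _))
            (CovZ.leaf K2_ok TB_l13772 _))
           (CovZ.n1 (-24960, 9504) (by decide +kernel)
            (CovZ.leaf K2_ok TB_l13773 _)
            (CovZ.n1 (-24912, 9456) (by decide +kernel)
             (CovZ.leaf K2_ok TB_l13774 _)
             (CovZ.leaf K2_ok TB_l13775 _))))
          (CovZ.n1 (-24864, 9312) (by decide +kernel)
           (CovZ.n2 (-24960, 9312) (by decide +kernel)
            (CovZ.leaf K2_ok TB_l13776 _)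
            (CovZ.leaf K2_ok TB_l13777 _))
           (CovZ.n1 (-24864, 9408) (by decide +kernel)
            (CovZ.leaf K2_ok TB_l13778 _)
            (CovZ.leaf K2_ok TB_l13779 _)))))))
      (CovZ.subM 69992023193056381579920071267763883691405069292437503206632595864511782931065875683789319079744241792 (by decide +kernel)
       (CovZ.n1 (-25344, 9600) (by decide +kernel)
        (CovZ.n2 (-25152, 9792) (by decide +kernel)
         (CovZ.n2 (-25152, 9600) (by decide +kernel)
          (CovZ.leaf K2_ok TB_l13780 _)
          (CovZ.leaf K2_ok TB_l13781 _))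
         (CovZ.leaf K2_ok TB_l13782 _))
        (CovZ.n1 (-25152, 9408) (by decide +kernel)
         (CovZ.n2 (-25344, 9408) (by decide +kernel)
          (CovZ.n2 (-25248, 9504) (by decide +kernel)
           (CovZ.n2 (-25248, 9408) (by decide +kernel)
            (CovZ.leaf K2_ok TB_l13783 _)
            (CovZ.leaf K2_ok TB_l13784 _))
           (CovZ.leaf K2_ok TB_l13785 _))
          (CovZ.n1 (-25248, 9312) (by decide +kernel)
           (CovZ.leaf K2_ok TB_l13786 _)
           (CovZ.n1 (-25248, 9408) (by decide +kernel)
            (CovZ.leaf K2_ok TB_l13787 _)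
            (CovZ.leaf K2_ok TB_l13788 _))))
         (CovZ.n1 (-25152, 9600) (by decide +kernel)
          (CovZ.n2 (-25056, 9504) (by decide +kernel)
           (CovZ.leaf K2_ok TB_l13789 _)
           (CovZ.leaf K2_ok TB_l13790 _))
          (CovZ.leaf K2_ok TB_l13791 _)))))))))
    (CovZ.topM TB_LL 631663411835949099859883151205914022257904644374446960892027670799798706760137269538072325248303414314334467127517316 (by decide +kernel) (CovZ.n0 (-25344, 9984) (by decide +kernel)
    (CovZ.n2 (-26112, 9984) (by decide +kernel)
     (CovZ.n2 (-25728, 10368) (by decide +kernel)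
      (CovZ.n2 (-25728, 9984) (by decide +kernel)
       (CovZ.leaf K2_ok TB_l13792 _)
       (CovZ.leaf K2_ok TB_l13793 _))
      (CovZ.leaf K2_ok TB_l13794 _))
     (CovZ.n1 (-25728, 9600) (by decide +kernel)
      (CovZ.n2 (-26112, 9600) (by decide +kernel)
       (CovZ.leaf K2_ok TB_l13795 _)
       (CovZ.n1 (-25920, 9408) (by decide +kernel)
        (CovZ.n2 (-26112, 9408) (by decide +kernel)
         (CovZ.leaf K2_ok TB_l13796 _)
         (CovZ.leaf K2_ok TB_l13797 _))
        (CovZ.leaf K2_ok TB_l13798 _)))
      (CovZ.n1 (-25728, 9984) (by decide +kernel)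
       (CovZ.n2 (-25536, 9792) (by decide +kernel)
        (CovZ.leaf K2_ok TB_l13799 _)
        (CovZ.leaf K2_ok TB_l13800 _))
       (CovZ.leaf K2_ok TB_l13801 _))))
    (CovZ.n1 (-25344, 10752) (by decide +kernel)
     (CovZ.n2 (-24960, 10368) (by decide +kernel)
      (CovZ.leaf K2_ok TB_l13802 _)
      (CovZ.leaf K2_ok TB_l13803 _))
     (CovZ.leaf K2_ok TB_l13804 _))))

theorem TB_s5_9 : SqZ TB_M TB_L [0, 7, 6, 1] (-32256) (-4608) 1536 5 9 :=
  SqZ.mk (a := (-24576)) (b := (-23040)) (c := 9216) (d := 10752) (by norm_num) (by norm_num) (by norm_num) (by norm_num)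
    (CovZ.topM TB_LL 631665816743553873388612858716202337208920867230133003189890455038883249160679227285981561237943844681777360278921348 (by decide +kernel) (CovZ.n2 (-23808, 9984) (by decide +kernel)
    (CovZ.n2 (-23040, 9984) (by decide +kernel)
     (CovZ.n2 (-23424, 9600) (by decide +kernel)
      (CovZ.n2 (-23424, 9984) (by decide +kernel)
       (CovZ.n2 (-23232, 9792) (by decide +kernel)
        (CovZ.subM 631663411835949099859883151189999678692791471825474728951326265365716413734169652973713456252558390765058803942826116 (by decide +kernel)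
         (CovZ.n2 (-23424, 9792) (by decide +kernel)
          (CovZ.n2 (-23328, 9888) (by decide +kernel)
           (CovZ.n2 (-23328, 9792) (by decide +kernel)
            (CovZ.leaf K2_ok TB_l15065 _)
            (CovZ.leaf K2_ok TB_l15066 _))
           (CovZ.leaf K2_ok TB_l15067 _))
          (CovZ.n1 (-23328, 9696) (by decide +kernel)
           (CovZ.n2 (-23424, 9696) (by decide +kernel)
            (CovZ.leaf K2_ok TB_l15068 _)
            (CovZ.n1 (-23376, 9648) (by decide +kernel)
             (CovZ.leaf K2_ok TB_l15069 _)
             (CovZ.leaf K2_ok TB_l15070 _)))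
           (CovZ.n1 (-23328, 9792) (by decide +kernel)
            (CovZ.leaf K2_ok TB_l15071 _)
            (CovZ.leaf K2_ok TB_l15072 _)))))
        (CovZ.n1 (-23232, 9984) (by decide +kernel)
         (CovZ.n2 (-23136, 9888) (by decide +kernel)
          (CovZ.leaf K2_ok TB_l15073 _)
          (CovZ.leaf K2_ok TB_l15074 _))
         (CovZ.leaf K2_ok TB_l15075 _)))
       (CovZ.subM 631663411835949099859883151189999678692791471825474728951326265365716413734169652973713456252558390765058803942826116 (by decide +kernel)
        (CovZ.n1 (-23616, 9792) (by decide +kernel)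
         (CovZ.n2 (-23616, 9984) (by decide +kernel)
          (CovZ.n2 (-23520, 9888) (by decide +kernel)
           (CovZ.leaf K2_ok TB_l15076 _)
           (CovZ.leaf K2_ok TB_l15077 _))
          (CovZ.leaf K2_ok TB_l15078 _))
         (CovZ.n1 (-23424, 9792) (by decide +kernel)
          (CovZ.n2 (-23520, 9696) (by decide +kernel)
           (CovZ.n2 (-23520, 9792) (by decide +kernel)
            (CovZ.leaf K2_ok TB_l15079 _)
            (CovZ.leaf K2_ok TB_l15080 _))
           (CovZ.n1 (-23424, 9696) (by decide +kernel)
            (CovZ.leaf K2_ok TB_l15081 _)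
            (CovZ.leaf K2_ok TB_l15082 _)))
          (CovZ.n1 (-23520, 9888) (by decide +kernel)
           (CovZ.leaf K2_ok TB_l15083 _)
           (CovZ.n1 (-23520, 9792) (by decide +kernel)
            (CovZ.leaf K2_ok TB_l15084 _)
            (CovZ.leaf K2_ok TB_l15085 _)))))))
      (CovZ.n1 (-23040, 9600) (by decide +kernel)
       (CovZ.n2 (-23232, 9408) (by decide +kernel)
        (CovZ.n2 (-23232, 9600) (by decide +kernel)
         (CovZ.n2 (-23136, 9504) (by decide +kernel)
          (CovZ.subM 631663411835949099859883151189999678692791471825474728951326265365716413734169652973713456252558390765058803942826116 (by decide +kernel)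
           (CovZ.n2 (-23232, 9504) (by decide +kernel)
            (CovZ.n2 (-23184, 9552) (by decide +kernel)
             (CovZ.n2 (-23184, 9504) (by decide +kernel)
              (CovZ.leaf K2_ok TB_l15086 _)
              (CovZ.leaf K2_ok TB_l15087 _))
             (CovZ.n1 (-23232, 9552) (by decide +kernel)
              (CovZ.leaf K2_ok TB_l15088 _)
              (CovZ.leaf K2_ok TB_l15089 _)))
            (CovZ.n1 (-23184, 9456) (by decide +kernel)
             (CovZ.n2 (-23232, 9456) (by decide +kernel)
              (CovZ.leaf K2_ok TB_l15090 _)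
              (CovZ.leaf K2_ok TB_l15091 _))
             (CovZ.n1 (-23184, 9504) (by decide +kernel)
              (CovZ.leaf K2_ok TB_l15092 _)
              (CovZ.leaf K2_ok TB_l15093 _)))))
          (CovZ.n1 (-23136, 9600) (by decide +kernel)
           (CovZ.n2 (-23088, 9552) (by decide +kernel)
            (CovZ.n2 (-23136, 9552) (by decide +kernel)
             (CovZ.leaf K2_ok TB_l15094 _)
             (CovZ.leaf K2_ok TB_l15095 _))
            (CovZ.n1 (-23088, 9600) (by decide +kernel)
             (CovZ.leaf K2_ok TB_l15096 _)
             (CovZ.leaf K2_ok TB_l15097 _)))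
           (CovZ.n1 (-23184, 9552) (by decide +kernel)
            (CovZ.leaf K2_ok TB_l15098 _)
            (CovZ.leaf K2_ok TB_l15099 _))))
         (CovZ.subM 631663411835949099859883151189999678692791471825474728951326265365716413734169652973713456252558390765058803942826116 (by decide +kernel)
          (CovZ.n1 (-23328, 9504) (by decide +kernel)
           (CovZ.n2 (-23328, 9600) (by decide +kernel)
            (CovZ.n2 (-23280, 9552) (by decide +kernel)
             (CovZ.n2 (-23328, 9552) (by decide +kernel)
              (CovZ.leaf K2_ok TB_l15100 _)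
              (CovZ.leaf K2_ok TB_l15101 _))
             (CovZ.n1 (-23280, 9600) (by decide +kernel)
              (CovZ.leaf K2_ok TB_l15102 _)
              (CovZ.leaf K2_ok TB_l15103 _)))
            (CovZ.n1 (-23376, 9552) (by decide +kernel)
             (CovZ.n2 (-23376, 9600) (by decide +kernel)
              (CovZ.leaf K2_ok TB_l15104 _)
              (CovZ.leaf K2_ok TB_l15105 _))
             (CovZ.leaf K2_ok TB_l15106 _)))
           (CovZ.n1 (-23232, 9504) (by decide +kernel)
            (CovZ.n2 (-23280, 9456) (by decide +kernel)
             (CovZ.n2 (-23280, 9504) (by decide +kernel)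
              (CovZ.n2 (-23256, 9480) (by decide +kernel)
               (CovZ.leaf K2_ok TB_l15107 _)
               (CovZ.leaf K2_ok TB_l15108 _))
              (CovZ.leaf K2_ok TB_l15109 _))
             (CovZ.n1 (-23232, 9456) (by decide +kernel)
              (CovZ.leaf K2_ok TB_l15110 _)
              (CovZ.leaf K2_ok TB_l15111 _)))
            (CovZ.n1 (-23280, 9552) (by decide +kernel)
             (CovZ.leaf K2_ok TB_l15112 _)
             (CovZ.n1 (-23280, 9504) (by decide +kernel)
              (CovZ.leaf K2_ok TB_l15113 _)
              (CovZ.leaf K2_ok TB_l15114 _)))))))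
        (CovZ.n1 (-23040, 9408) (by decide +kernel)
         (CovZ.n2 (-23136, 9312) (by decide +kernel)
          (CovZ.n2 (-23136, 9408) (by decide +kernel)
           (CovZ.n2 (-23088, 9360) (by decide +kernel)
            (CovZ.leaf K2_ok TB_l15115 _)
            (CovZ.n1 (-23088, 9408) (by decide +kernel)
             (CovZ.leaf K2_ok TB_l15116 _)
             (CovZ.leaf K2_ok TB_l15117 _)))
           (CovZ.subM 631663411835949099859883151189999678692791471825474728951326265365716413734169652973713456252558390765058803942826116 (by decide +kernel)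
            (CovZ.n1 (-23184, 9360) (by decide +kernel)
             (CovZ.n2 (-23184, 9408) (by decide +kernel)
              (CovZ.leaf K2_ok TB_l15118 _)
              (CovZ.leaf K2_ok TB_l15119 _))
             (CovZ.n1 (-23136, 9360) (by decide +kernel)
              (CovZ.leaf K2_ok TB_l15120 _)
              (CovZ.leaf K2_ok TB_l15121 _)))))
          (CovZ.n1 (-23040, 9312) (by decide +kernel)
           (CovZ.n2 (-23088, 9264) (by decide +kernel)
            (CovZ.n2 (-23088, 9312) (by decide +kernel)
             (CovZ.leaf K2_ok TB_l15122 _)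
             (CovZ.leaf K2_ok TB_l15123 _))
            (CovZ.n1 (-23040, 9264) (by decide +kernel)
             (CovZ.leaf K2_ok TB_l15124 _)
             (CovZ.leaf K2_ok TB_l15125 _)))
           (CovZ.n1 (-23088, 9360) (by decide +kernel)
            (CovZ.n2 (-23040, 9360) (by decide +kernel)
             (CovZ.leaf K2_ok TB_l15126 _)
             (CovZ.leaf K2_ok TB_l15127 _))
            (CovZ.n1 (-23088, 9312) (by decide +kernel)
             (CovZ.leaf K2_ok TB_l15128 _)
             (CovZ.leaf K2_ok TB_l15129 _)))))
         (CovZ.n1 (-23136, 9504) (by decide +kernel)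
          (CovZ.n2 (-23040, 9504) (by decide +kernel)
           (CovZ.n2 (-23088, 9456) (by decide +kernel)
            (CovZ.n2 (-23088, 9504) (by decide +kernel)
             (CovZ.n2 (-23064, 9480) (by decide +kernel)
              (CovZ.leaf K2_ok TB_l15130 _)
              (CovZ.leaf K2_ok TB_l15131 _))
             (CovZ.leaf K2_ok TB_l15132 _))
            (CovZ.n1 (-23040, 9456) (by decide +kernel)
             (CovZ.leaf K2_ok TB_l15133 _)
             (CovZ.n1 (-23064, 9480) (by decide +kernel)
              (CovZ.leaf K2_ok TB_l15134 _)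
              (CovZ.leaf K2_ok TB_l15135 _))))
           (CovZ.n1 (-23088, 9552) (by decide +kernel)
            (CovZ.leaf K2_ok TB_l15136 _)
            (CovZ.n1 (-23088, 9504) (by decide +kernel)
             (CovZ.n2 (-23112, 9528) (by decide +kernel)
              (CovZ.leaf K2_ok TB_l15137 _)
              (CovZ.leaf K2_ok TB_l15138 _))
             (CovZ.leaf K2_ok TB_l15139 _))))
          (CovZ.n1 (-23136, 9408) (by decide +kernel)
           (CovZ.subM 631663411835949099859883151189999678692791471825474728951326265365716413734169652973713456252558390765058803942826116 (by decide +kernel)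
            (CovZ.n2 (-23184, 9456) (by decide +kernel)
             (CovZ.n2 (-23136, 9456) (by decide +kernel)
              (CovZ.leaf K2_ok TB_l15140 _)
              (CovZ.leaf K2_ok TB_l15141 _))
             (CovZ.n1 (-23184, 9408) (by decide +kernel)
              (CovZ.leaf K2_ok TB_l15142 _)
              (CovZ.leaf K2_ok TB_l15143 _))))
           (CovZ.n1 (-23088, 9456) (by decide +kernel)
            (CovZ.n2 (-23088, 9408) (by decide +kernel)
             (CovZ.leaf K2_ok TB_l15144 _)
             (CovZ.leaf K2_ok TB_l15145 _))
            (CovZ.n1 (-23136, 9456) (by decide +kernel)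
             (CovZ.leaf K2_ok TB_l15146 _)
             (CovZ.leaf K2_ok TB_l15147 _)))))))
       (CovZ.n1 (-23232, 9792) (by decide +kernel)
        (CovZ.n2 (-23040, 9792) (by decide +kernel)
         (CovZ.n2 (-23136, 9696) (by decide +kernel)
          (CovZ.n2 (-23136, 9792) (by decide +kernel)
           (CovZ.leaf K2_ok TB_l15148 _)
           (CovZ.leaf K2_ok TB_l15149 _))
          (CovZ.n1 (-23040, 9696) (by decide +kernel)
           (CovZ.leaf K2_ok TB_l15150 _)
           (CovZ.leaf K2_ok TB_l15151 _)))
         (CovZ.n1 (-23136, 9888) (by decide +kernel)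
          (CovZ.leaf K2_ok TB_l15152 _)
          (CovZ.n1 (-23136, 9792) (by decide +kernel)
           (CovZ.leaf K2_ok TB_l15153 _)
           (CovZ.leaf K2_ok TB_l15154 _))))
        (CovZ.n1 (-23232, 9600) (by decide +kernel)
         (CovZ.subM 631663411835949099859883151189999678692791471825474728951326265365716413734169652973713456252558390765058803942826116 (by decide +kernel)
          (CovZ.n2 (-23328, 9696) (by decide +kernel)
           (CovZ.n2 (-23232, 9696) (by decide +kernel)
            (CovZ.leaf K2_ok TB_l15155 _)
            (CovZ.leaf K2_ok TB_l15156 _))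
           (CovZ.n1 (-23328, 9600) (by decide +kernel)
            (CovZ.n2 (-23376, 9648) (by decide +kernel)
             (CovZ.leaf K2_ok TB_l15157 _)
             (CovZ.n1 (-23376, 9600) (by decide +kernel)
              (CovZ.leaf K2_ok TB_l15158 _)
              (CovZ.leaf K2_ok TB_l15159 _)))
            (CovZ.n1 (-23280, 9648) (by decide +kernel)
             (CovZ.n2 (-23280, 9600) (by decide +kernel)
              (CovZ.leaf K2_ok TB_l15160 _)
              (CovZ.leaf K2_ok TB_l15161 _))
             (CovZ.leaf K2_ok TB_l15162 _)))))
         (CovZ.n1 (-23136, 9696) (by decide +kernel)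
          (CovZ.n2 (-23136, 9600) (by decide +kernel)
           (CovZ.n2 (-23184, 9648) (by decide +kernel)
            (CovZ.leaf K2_ok TB_l15163 _)
            (CovZ.n1 (-23184, 9600) (by decide +kernel)
             (CovZ.leaf K2_ok TB_l15164 _)
             (CovZ.leaf K2_ok TB_l15165 _)))
           (CovZ.n1 (-23088, 9648) (by decide +kernel)
            (CovZ.leaf K2_ok TB_l15166 _)
            (CovZ.leaf K2_ok TB_l15167 _)))
          (CovZ.n1 (-23232, 9696) (by decide +kernel)
           (CovZ.leaf K2_ok TB_l15168 _)
           (CovZ.n1 (-23184, 9648) (by decide +kernel)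
            (CovZ.leaf K2_ok TB_l15169 _)
            (CovZ.leaf K2_ok TB_l15170 _))))))))
     (CovZ.n1 (-23424, 10368) (by decide +kernel)
      (CovZ.leaf K2_ok TB_l15171 _)
      (CovZ.n1 (-23424, 9984) (by decide +kernel)
       (CovZ.n2 (-23616, 10176) (by decide +kernel)
        (CovZ.leaf K2_ok TB_l15172 _)
        (CovZ.n1 (-23616, 9984) (by decide +kernel)
         (CovZ.leaf K2_ok TB_l15173 _)
         (CovZ.leaf K2_ok TB_l15174 _)))
       (CovZ.n1 (-23232, 10176) (by decide +kernel)
        (CovZ.n2 (-23232, 9984) (by decide +kernel)
         (CovZ.leaf K2_ok TB_l15175 _)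
         (CovZ.leaf K2_ok TB_l15176 _))
        (CovZ.leaf K2_ok TB_l15177 _)))))
    (CovZ.n1 (-23808, 9216) (by decide +kernel)
     (CovZ.n2 (-24192, 9600) (by decide +kernel)
      TB_u281
      TB_u282)
     (CovZ.n1 (-23424, 9600) (by decide +kernel)
      TB_u283
      TB_u284))))
    (CovZ.topM TB_LL 631665816743553873388612858716202337208920867230133003189890455038883249160679227285981561237943844681777360278921348 (by decide +kernel) (CovZ.n0 (-23808, 9984) (by decide +kernel)
    (CovZ.n2 (-24576, 9984) (by decide +kernel)
     (CovZ.n2 (-24192, 10368) (by decide +kernel)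
      (CovZ.n2 (-24192, 9984) (by decide +kernel)
       (CovZ.leaf K2_ok TB_l15474 _)
       (CovZ.n1 (-24000, 10176) (by decide +kernel)
        (CovZ.n2 (-24000, 9984) (by decide +kernel)
         (CovZ.leaf K2_ok TB_l15475 _)
         (CovZ.leaf K2_ok TB_l15476 _))
        (CovZ.leaf K2_ok TB_l15477 _)))
      (CovZ.n1 (-24576, 10368) (by decide +kernel)
       (CovZ.leaf K2_ok TB_l15478 _)
       (CovZ.leaf K2_ok TB_l15479 _)))
     (CovZ.n1 (-24192, 9600) (by decide +kernel)
      (CovZ.n2 (-24576, 9600) (by decide +kernel)
       (CovZ.n2 (-24384, 9792) (by decide +kernel)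
        (CovZ.n2 (-24384, 9600) (by decide +kernel)
         (CovZ.n2 (-24480, 9696) (by decide +kernel)
          (CovZ.leaf K2_ok TB_l15480 _)
          (CovZ.n1 (-24480, 9600) (by decide +kernel)
           (CovZ.leaf K2_ok TB_l15481 _)
           (CovZ.leaf K2_ok TB_l15482 _)))
         (CovZ.n1 (-24288, 9696) (by decide +kernel)
          (CovZ.n2 (-24288, 9600) (by decide +kernel)
           (CovZ.leaf K2_ok TB_l15483 _)
           (CovZ.leaf K2_ok TB_l15484 _))
          (CovZ.leaf K2_ok TB_l15485 _)))
        (CovZ.n1 (-24576, 9792) (by decide +kernel)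
         (CovZ.leaf K2_ok TB_l15486 _)
         (CovZ.n1 (-24480, 9696) (by decide +kernel)
          (CovZ.leaf K2_ok TB_l15487 _)
          (CovZ.leaf K2_ok TB_l15488 _))))
       (CovZ.n1 (-24384, 9408) (by decide +kernel)
        (CovZ.n2 (-24576, 9408) (by decide +kernel)
         (CovZ.n2 (-24480, 9504) (by decide +kernel)
          (CovZ.n2 (-24480, 9408) (by decide +kernel)
           (CovZ.n2 (-24528, 9456) (by decide +kernel)
            (CovZ.leaf K2_ok TB_l15489 _)
            (CovZ.leaf K2_ok TB_l15490 _))
           (CovZ.n1 (-24432, 9456) (by decide +kernel)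
            (CovZ.leaf K2_ok TB_l15491 _)
            (CovZ.leaf K2_ok TB_l15492 _)))
          (CovZ.n1 (-24576, 9504) (by decide +kernel)
           (CovZ.n2 (-24528, 9552) (by decide +kernel)
            (CovZ.leaf K2_ok TB_l15493 _)
            (CovZ.leaf K2_ok TB_l15494 _))
           (CovZ.n1 (-24528, 9456) (by decide +kernel)
            (CovZ.leaf K2_ok TB_l15495 _)
            (CovZ.leaf K2_ok TB_l15496 _))))
         (CovZ.subM 631663411835949099859883151189999678692791471825474728951326265365716413739744839273346112037942320333220894317224068 (by decide +kernel)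
          (CovZ.n1 (-24480, 9312) (by decide +kernel)
           (CovZ.n2 (-24576, 9312) (by decide +kernel)
            (CovZ.n2 (-24528, 9360) (by decide +kernel)
             (CovZ.leaf K2_ok TB_l15497 _)
             (CovZ.leaf K2_ok TB_l15498 _))
            (CovZ.n1 (-24528, 9264) (by decide +kernel)
             (CovZ.leaf K2_ok TB_l15499 _)
             (CovZ.leaf K2_ok TB_l15500 _)))
           (CovZ.n1 (-24480, 9408) (by decide +kernel)
            (CovZ.n2 (-24432, 9360) (by decide +kernel)
             (CovZ.leaf K2_ok TB_l15501 _)
             (CovZ.leaf K2_ok TB_l15502 _))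
            (CovZ.n1 (-24528, 9360) (by decide +kernel)
             (CovZ.leaf K2_ok TB_l15503 _)
             (CovZ.leaf K2_ok TB_l15504 _))))))
        (CovZ.n1 (-24384, 9600) (by decide +kernel)
         (CovZ.subM 631663411835949099859883151189999678692791471825474728951326265365716413734169652973713456252558390765058803942826116 (by decide +kernel)
          (CovZ.n2 (-24288, 9504) (by decide +kernel)
           (CovZ.n2 (-24384, 9504) (by decide +kernel)
            (CovZ.n2 (-24336, 9552) (by decide +kernel)
             (CovZ.leaf K2_ok TB_l15505 _)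
             (CovZ.leaf K2_ok TB_l15506 _))
            (CovZ.n1 (-24336, 9456) (by decide +kernel)
             (CovZ.leaf K2_ok TB_l15507 _)
             (CovZ.leaf K2_ok TB_l15508 _)))
           (CovZ.n1 (-24288, 9600) (by decide +kernel)
            (CovZ.n2 (-24240, 9552) (by decide +kernel)
             (CovZ.leaf K2_ok TB_l15509 _)
             (CovZ.leaf K2_ok TB_l15510 _))
            (CovZ.leaf K2_ok TB_l15511 _))))
         (CovZ.n1 (-24480, 9504) (by decide +kernel)
          (CovZ.n2 (-24480, 9600) (by decide +kernel)
           (CovZ.n2 (-24432, 9552) (by decide +kernel)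
            (CovZ.leaf K2_ok TB_l15512 _)
            (CovZ.leaf K2_ok TB_l15513 _))
           (CovZ.leaf K2_ok TB_l15514 _))
          (CovZ.subM 631663411835949099859883151189999678692791471825474728951326265365716413734169652973713456252558390765058803942826116 (by decide +kernel)
           (CovZ.n1 (-24384, 9504) (by decide +kernel)
            (CovZ.n2 (-24432, 9456) (by decide +kernel)
             (CovZ.leaf K2_ok TB_l15515 _)
             (CovZ.leaf K2_ok TB_l15516 _))
            (CovZ.n1 (-24432, 9552) (by decide +kernel)
             (CovZ.leaf K2_ok TB_l15517 _)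
             (CovZ.n1 (-24432, 9504) (by decide +kernel)
              (CovZ.leaf K2_ok TB_l15518 _)
              (CovZ.leaf K2_ok TB_l15519 _)))))))))
      (CovZ.n1 (-24192, 9984) (by decide +kernel)
       (CovZ.subM 631663411835949099859883151189999678692791471825474728951326265365716413734169652973713456252558390765058803942826116 (by decide +kernel)
        (CovZ.n2 (-24000, 9792) (by decide +kernel)
         (CovZ.n2 (-24192, 9792) (by decide +kernel)
          (CovZ.leaf K2_ok TB_l15520 _)
          (CovZ.n1 (-24096, 9696) (by decide +kernel)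
           (CovZ.n2 (-24192, 9696) (by decide +kernel)
            (CovZ.leaf K2_ok TB_l15521 _)
            (CovZ.n1 (-24144, 9648) (by decide +kernel)
             (CovZ.leaf K2_ok TB_l15522 _)
             (CovZ.leaf K2_ok TB_l15523 _)))
           (CovZ.leaf K2_ok TB_l15524 _)))
         (CovZ.n1 (-24000, 9984) (by decide +kernel)
          (CovZ.n2 (-23904, 9888) (by decide +kernel)
           (CovZ.leaf K2_ok TB_l15525 _)
           (CovZ.leaf K2_ok TB_l15526 _))
          (CovZ.leaf K2_ok TB_l15527 _))))
       (CovZ.n1 (-24384, 9792) (by decide +kernel)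
        (CovZ.leaf K2_ok TB_l15528 _)
        (CovZ.n1 (-24192, 9792) (by decide +kernel)
         (CovZ.leaf K2_ok TB_l15529 _)
         (CovZ.leaf K2_ok TB_l15530 _))))))
    (CovZ.n1 (-23808, 10752) (by decide +kernel)
     (CovZ.n2 (-23424, 10368) (by decide +kernel)
      (CovZ.n2 (-23808, 10368) (by decide +kernel)
       (CovZ.leaf K2_ok TB_l15531 _)
       (CovZ.n1 (-23616, 10176) (by decide +kernel)
        (CovZ.leaf K2_ok TB_l15532 _)
        (CovZ.leaf K2_ok TB_l15533 _)))
      (CovZ.leaf K2_ok TB_l15534 _))
     (CovZ.n1 (-24192, 10368) (by decide +kernel)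
      (CovZ.leaf K2_ok TB_l15535 _)
      (CovZ.leaf K2_ok TB_l15536 _)))))

theorem TB_s6_9 : SqZ TB_M TB_L [0, 7, 6, 1] (-32256) (-4608) 1536 6 9 :=
  SqZ.mk (a := (-23040)) (b := (-21504)) (c := 9216) (d := 10752) (by norm_num) (by norm_num) (by norm_num) (by norm_num)
    (CovZ.topM TB_LL 631665816743553874174510073196313591567625132913582997188529844530470617487947756319915150936479891546534793550504068 (by decide +kernel) (CovZ.n2 (-22272, 9984) (by decide +kernel)
    (CovZ.n2 (-21504, 9984) (by decide +kernel)
     (CovZ.n2 (-21888, 9600) (by decide +kernel)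
      (CovZ.n2 (-21888, 9984) (by decide +kernel)
       (CovZ.subM 1233717601242206006382568220471206173605613241456387288593311345096869501449134925039818741013275290619430467272704 (by decide +kernel)
        (CovZ.n2 (-21696, 9792) (by decide +kernel)
         (CovZ.n2 (-21888, 9792) (by decide +kernel)
          (CovZ.leaf K2_ok TB_l17874 _)
          (CovZ.n1 (-21792, 9696) (by decide +kernel)
           (CovZ.leaf K2_ok TB_l17875 _)
           (CovZ.leaf K2_ok TB_l17876 _)))
         (CovZ.n1 (-21696, 9984) (by decide +kernel)
          (CovZ.leaf K2_ok TB_l17877 _)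
          (CovZ.leaf K2_ok TB_l17878 _))))
       (CovZ.subM 631665816743553873402847209822769027054881441568903533975766005812280129007091082413542721263263858188672047308079108 (by decide +kernel)
        (CovZ.n1 (-22080, 9792) (by decide +kernel)
         (CovZ.n2 (-22080, 9984) (by decide +kernel)
          (CovZ.n2 (-21984, 9888) (by decide +kernel)
           (CovZ.leaf K2_ok TB_l17879 _)
           (CovZ.leaf K2_ok TB_l17880 _))
          (CovZ.leaf K2_ok TB_l17881 _))
         (CovZ.n1 (-21888, 9792) (by decide +kernel)
          (CovZ.n2 (-21984, 9696) (by decide +kernel)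
           (CovZ.leaf K2_ok TB_l17882 _)
           (CovZ.leaf K2_ok TB_l17883 _))
          (CovZ.n1 (-21984, 9888) (by decide +kernel)
           (CovZ.leaf K2_ok TB_l17884 _)
           (CovZ.leaf K2_ok TB_l17885 _))))))
      (CovZ.n1 (-21504, 9600) (by decide +kernel)
       (CovZ.n2 (-21696, 9408) (by decide +kernel)
        (CovZ.n2 (-21696, 9600) (by decide +kernel)
         (CovZ.subM 1233717601242206007166875960223415344485035274190519757096009328187026382347518494599692396404263263036905600581632 (by decide +kernel)
          (CovZ.n2 (-21600, 9504) (by decide +kernel)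
           (CovZ.n2 (-21696, 9504) (by decide +kernel)
            (CovZ.leaf K2_ok TB_l17886 _)
            (CovZ.n1 (-21648, 9456) (by decide +kernel)
             (CovZ.leaf K2_ok TB_l17887 _)
             (CovZ.leaf K2_ok TB_l17888 _)))
           (CovZ.n1 (-21600, 9600) (by decide +kernel)
            (CovZ.leaf K2_ok TB_l17889 _)
            (CovZ.leaf K2_ok TB_l17890 _))))
         (CovZ.subM 1233717601242206008518555256392116256000634947625939403196015867453522271396176532856967545236585391852799012110336 (by decide +kernel)
          (CovZ.n1 (-21792, 9504) (by decide +kernel)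
           (CovZ.n2 (-21792, 9600) (by decide +kernel)
            (CovZ.leaf K2_ok TB_l17891 _)
            (CovZ.leaf K2_ok TB_l17892 _))
           (CovZ.n1 (-21696, 9504) (by decide +kernel)
            (CovZ.leaf K2_ok TB_l17893 _)
            (CovZ.leaf K2_ok TB_l17894 _)))))
        (CovZ.subM 1233717601242206007166875960223415344485035274190519757096009280297248645144073827002352707797948224538953870475264 (by decide +kernel)
         (CovZ.n1 (-21504, 9408) (by decide +kernel)
          (CovZ.n2 (-21600, 9312) (by decide +kernel)
           (CovZ.n2 (-21600, 9408) (by decide +kernel)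
            (CovZ.n2 (-21552, 9360) (by decide +kernel)
             (CovZ.leaf K2_ok TB_l17895 _)
             (CovZ.leaf K2_ok TB_l17896 _))
            (CovZ.n1 (-21648, 9360) (by decide +kernel)
             (CovZ.leaf K2_ok TB_l17897 _)
             (CovZ.leaf K2_ok TB_l17898 _)))
           (CovZ.n1 (-21504, 9312) (by decide +kernel)
            (CovZ.n2 (-21552, 9264) (by decide +kernel)
             (CovZ.n2 (-21552, 9312) (by decide +kernel)
              (CovZ.leaf K2_ok TB_l17899 _)
              (CovZ.leaf K2_ok TB_l17900 _))
             (CovZ.leaf K2_ok TB_l17901 _))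
            (CovZ.n1 (-21552, 9360) (by decide +kernel)
             (CovZ.leaf K2_ok TB_l17902 _)
             (CovZ.n1 (-21552, 9312) (by decide +kernel)
              (CovZ.leaf K2_ok TB_l17903 _)
              (CovZ.leaf K2_ok TB_l17904 _)))))
          (CovZ.n1 (-21600, 9504) (by decide +kernel)
           (CovZ.leaf K2_ok TB_l17905 _)
           (CovZ.n1 (-21600, 9408) (by decide +kernel)
            (CovZ.n2 (-21648, 9456) (by decide +kernel)
             (CovZ.leaf K2_ok TB_l17906 _)
             (CovZ.leaf K2_ok TB_l17907 _))
            (CovZ.leaf K2_ok TB_l17908 _))))))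
       (CovZ.n1 (-21696, 9792) (by decide +kernel)
        (CovZ.n2 (-21504, 9792) (by decide +kernel)
         (CovZ.leaf K2_ok TB_l17909 _)
         (CovZ.leaf K2_ok TB_l17910 _))
        (CovZ.n1 (-21696, 9600) (by decide +kernel)
         (CovZ.n2 (-21792, 9696) (by decide +kernel)
          (CovZ.leaf K2_ok TB_l17911 _)
          (CovZ.n1 (-21792, 9600) (by decide +kernel)
           (CovZ.leaf K2_ok TB_l17912 _)
           (CovZ.leaf K2_ok TB_l17913 _)))
         (CovZ.n1 (-21600, 9696) (by decide +kernel)
          (CovZ.n2 (-21600, 9600) (by decide +kernel)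
           (CovZ.leaf K2_ok TB_l17914 _)
           (CovZ.leaf K2_ok TB_l17915 _))
          (CovZ.leaf K2_ok TB_l17916 _))))))
     (CovZ.n1 (-21888, 10368) (by decide +kernel)
      (CovZ.n2 (-21504, 10368) (by decide +kernel)
       (CovZ.leaf K2_ok TB_l17917 _)
       (CovZ.leaf K2_ok TB_l17918 _))
      (CovZ.n1 (-21888, 9984) (by decide +kernel)
       (CovZ.n2 (-22080, 10176) (by decide +kernel)
        (CovZ.leaf K2_ok TB_l17919 _)
        (CovZ.n1 (-22080, 9984) (by decide +kernel)
         (CovZ.leaf K2_ok TB_l17920 _)
         (CovZ.leaf K2_ok TB_l17921 _)))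
       (CovZ.n1 (-21696, 10176) (by decide +kernel)
        (CovZ.n2 (-21696, 9984) (by decide +kernel)
         (CovZ.leaf K2_ok TB_l17922 _)
         (CovZ.leaf K2_ok TB_l17923 _))
        (CovZ.leaf K2_ok TB_l17924 _)))))
    (CovZ.n1 (-22272, 9216) (by decide +kernel)
     (CovZ.subM 631665816743553873389151027324862097757024300433445253625014964576744284374374101469727717302343796383092386945835140 (by decide +kernel)
      (CovZ.n2 (-22656, 9600) (by decide +kernel)
       TB_u287
       TB_u288))
     (CovZ.n1 (-21888, 9600) (by decide +kernel)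
      (CovZ.n2 (-21888, 9216) (by decide +kernel)
       TB_u289
       TB_u290)
      (CovZ.subM 631665816743553873402847209822769027054881441568903533975766005812350281085682965753616498135234239773615532070150148 (by decide +kernel)
       (CovZ.n1 (-22272, 9600) (by decide +kernel)
        (CovZ.n2 (-22080, 9792) (by decide +kernel)
         (CovZ.n2 (-22080, 9600) (by decide +kernel)
          (CovZ.n2 (-22176, 9696) (by decide +kernel)
           (CovZ.leaf K2_ok TB_l18390 _)
           (CovZ.n1 (-22176, 9600) (by decide +kernel)
            (CovZ.leaf K2_ok TB_l18391 _)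
            (CovZ.leaf K2_ok TB_l18392 _)))
          (CovZ.n1 (-21984, 9696) (by decide +kernel)
           (CovZ.n2 (-21984, 9600) (by decide +kernel)
            (CovZ.leaf K2_ok TB_l18393 _)
            (CovZ.leaf K2_ok TB_l18394 _))
           (CovZ.leaf K2_ok TB_l18395 _)))
         (CovZ.n1 (-22272, 9792) (by decide +kernel)
          (CovZ.n2 (-22176, 9888) (by decide +kernel)
           (CovZ.leaf K2_ok TB_l18396 _)
           (CovZ.leaf K2_ok TB_l18397 _))
          (CovZ.n1 (-22176, 9696) (by decide +kernel)
           (CovZ.leaf K2_ok TB_l18398 _)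
           (CovZ.leaf K2_ok TB_l18399 _))))
        (CovZ.n1 (-22080, 9408) (by decide +kernel)
         (CovZ.n2 (-22272, 9408) (by decide +kernel)
          (CovZ.n2 (-22176, 9504) (by decide +kernel)
           (CovZ.n2 (-22176, 9408) (by decide +kernel)
            (CovZ.n2 (-22224, 9456) (by decide +kernel)
             (CovZ.leaf K2_ok TB_l18400 _)
             (CovZ.n1 (-22224, 9408) (by decide +kernel)
              (CovZ.leaf K2_ok TB_l18401 _)
              (CovZ.leaf K2_ok TB_l18402 _)))
            (CovZ.n1 (-22128, 9456) (by decide +kernel)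
             (CovZ.n2 (-22128, 9408) (by decide +kernel)
              (CovZ.leaf K2_ok TB_l18403 _)
              (CovZ.leaf K2_ok TB_l18404 _))
             (CovZ.leaf K2_ok TB_l18405 _)))
           (CovZ.n1 (-22272, 9504) (by decide +kernel)
            (CovZ.n2 (-22224, 9552) (by decide +kernel)
             (CovZ.leaf K2_ok TB_l18406 _)
             (CovZ.leaf K2_ok TB_l18407 _))
            (CovZ.n1 (-22224, 9456) (by decide +kernel)
             (CovZ.leaf K2_ok TB_l18408 _)
             (CovZ.leaf K2_ok TB_l18409 _))))
          (CovZ.n1 (-22176, 9312) (by decide +kernel)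
           (CovZ.n2 (-22272, 9312) (by decide +kernel)
            (CovZ.n2 (-22224, 9360) (by decide +kernel)
             (CovZ.n2 (-22224, 9312) (by decide +kernel)
              (CovZ.n2 (-22248, 9336) (by decide +kernel)
               (CovZ.leaf K2_ok TB_l18410 _)
               (CovZ.n1 (-22248, 9312) (by decide +kernel)
                (CovZ.leaf K2_ok TB_l18411 _)
                (CovZ.leaf K2_ok TB_l18412 _)))
              (CovZ.n1 (-22200, 9336) (by decide +kernel)
               (CovZ.leaf K2_ok TB_l18413 _)
               (CovZ.leaf K2_ok TB_l18414 _)))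
             (CovZ.n1 (-22272, 9360) (by decide +kernel)
              (CovZ.leaf K2_ok TB_l18415 _)
              (CovZ.n1 (-22248, 9336) (by decide +kernel)
               (CovZ.leaf K2_ok TB_l18416 _)
               (CovZ.leaf K2_ok TB_l18417 _))))
            (CovZ.n1 (-22224, 9264) (by decide +kernel)
             (CovZ.n2 (-22272, 9264) (by decide +kernel)
              (CovZ.n2 (-22248, 9288) (by decide +kernel)
               (CovZ.n2 (-22248, 9264) (by decide +kernel)
                (CovZ.leaf K2_ok TB_l18418 _)
                (CovZ.leaf K2_ok TB_l18419 _))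
               (CovZ.leaf K2_ok TB_l18420 _))
              (CovZ.n1 (-22248, 9240) (by decide +kernel)
               (CovZ.leaf K2_ok TB_l18421 _)
               (CovZ.n1 (-22248, 9264) (by decide +kernel)
                (CovZ.leaf K2_ok TB_l18422 _)
                (CovZ.leaf K2_ok TB_l18423 _))))
             (CovZ.n1 (-22224, 9312) (by decide +kernel)
              (CovZ.n2 (-22200, 9288) (by decide +kernel)
               (CovZ.leaf K2_ok TB_l18424 _)
               (CovZ.leaf K2_ok TB_l18425 _))
              (CovZ.n1 (-22248, 9288) (by decide +kernel)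
               (CovZ.leaf K2_ok TB_l18426 _)
               (CovZ.leaf K2_ok TB_l18427 _)))))
           (CovZ.n1 (-22176, 9408) (by decide +kernel)
            (CovZ.n2 (-22128, 9360) (by decide +kernel)
             (CovZ.n2 (-22176, 9360) (by decide +kernel)
              (CovZ.leaf K2_ok TB_l18428 _)
              (CovZ.n1 (-22152, 9336) (by decide +kernel)
               (CovZ.leaf K2_ok TB_l18429 _)
               (CovZ.leaf K2_ok TB_l18430 _)))
             (CovZ.n1 (-22128, 9408) (by decide +kernel)
              (CovZ.leaf K2_ok TB_l18431 _)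
              (CovZ.leaf K2_ok TB_l18432 _)))
            (CovZ.n1 (-22224, 9360) (by decide +kernel)
             (CovZ.n2 (-22224, 9408) (by decide +kernel)
              (CovZ.leaf K2_ok TB_l18433 _)
              (CovZ.leaf K2_ok TB_l18434 _))
             (CovZ.n1 (-22176, 9360) (by decide +kernel)
              (CovZ.leaf K2_ok TB_l18435 _)
              (CovZ.leaf K2_ok TB_l18436 _))))))
         (CovZ.n1 (-22080, 9600) (by decide +kernel)
          (CovZ.n2 (-21984, 9504) (by decide +kernel)
           (CovZ.n2 (-22080, 9504) (by decide +kernel)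
            (CovZ.leaf K2_ok TB_l18437 _)
            (CovZ.n1 (-22032, 9456) (by decide +kernel)
             (CovZ.leaf K2_ok TB_l18438 _)
             (CovZ.leaf K2_ok TB_l18439 _)))
           (CovZ.n1 (-21984, 9600) (by decide +kernel)
            (CovZ.leaf K2_ok TB_l18440 _)
            (CovZ.leaf K2_ok TB_l18441 _)))
          (CovZ.n1 (-22176, 9504) (by decide +kernel)
           (CovZ.n2 (-22176, 9600) (by decide +kernel)
            (CovZ.n2 (-22128, 9552) (by decide +kernel)
             (CovZ.leaf K2_ok TB_l18442 _)
             (CovZ.leaf K2_ok TB_l18443 _))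
            (CovZ.leaf K2_ok TB_l18444 _))
           (CovZ.n1 (-22080, 9504) (by decide +kernel)
            (CovZ.n2 (-22128, 9456) (by decide +kernel)
             (CovZ.leaf K2_ok TB_l18445 _)
             (CovZ.leaf K2_ok TB_l18446 _))
            (CovZ.n1 (-22128, 9552) (by decide +kernel)
             (CovZ.leaf K2_ok TB_l18447 _)
             (CovZ.leaf K2_ok TB_l18448 _))))))))))))
    (CovZ.topM TB_LL 631665816743553873488858234665701455118823165233156768349633398335961272086022112013183106171351318691160300913467524 (by decide +kernel) (CovZ.n0 (-22272, 9984) (by decide +kernel)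
    (CovZ.n2 (-23040, 9984) (by decide +kernel)
     (CovZ.subM 631665816743553873388612858716202337208920867230133003189890455038838125292051449358749366683349799875383392985161860 (by decide +kernel)
      (CovZ.n2 (-22656, 10368) (by decide +kernel)
       (CovZ.n2 (-22656, 9984) (by decide +kernel)
        (CovZ.n2 (-22848, 10176) (by decide +kernel)
         (CovZ.leaf K2_ok TB_l18449 _)
         (CovZ.n1 (-22848, 9984) (by decide +kernel)
          (CovZ.leaf K2_ok TB_l18450 _)
          (CovZ.leaf K2_ok TB_l18451 _)))
        (CovZ.n1 (-22464, 10176) (by decide +kernel)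
         (CovZ.n2 (-22464, 9984) (by decide +kernel)
          (CovZ.leaf K2_ok TB_l18452 _)
          (CovZ.leaf K2_ok TB_l18453 _))
         (CovZ.leaf K2_ok TB_l18454 _)))
       (CovZ.n1 (-23040, 10368) (by decide +kernel)
        (CovZ.leaf K2_ok TB_l18455 _)
        (CovZ.n1 (-22848, 10176) (by decide +kernel)
         (CovZ.leaf K2_ok TB_l18456 _)
         (CovZ.leaf K2_ok TB_l18457 _)))))
     (CovZ.n1 (-22656, 9600) (by decide +kernel)
      (CovZ.subM 631665816743553873388612858716202337208920867230133003189890455038883157811251707804916517722257870345926541406642308 (by decide +kernel)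
       (CovZ.n2 (-23040, 9600) (by decide +kernel)
        (CovZ.n2 (-22848, 9792) (by decide +kernel)
         (CovZ.n2 (-22848, 9600) (by decide +kernel)
          (CovZ.n2 (-22944, 9696) (by decide +kernel)
           (CovZ.n2 (-22848, 9696) (by decide +kernel)
            (CovZ.leaf K2_ok TB_l18458 _)
            (CovZ.leaf K2_ok TB_l18459 _))
           (CovZ.n1 (-22944, 9600) (by decide +kernel)
            (CovZ.n2 (-22992, 9648) (by decide +kernel)
             (CovZ.leaf K2_ok TB_l18460 _)
             (CovZ.n1 (-22992, 9600) (by decide +kernel)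
              (CovZ.leaf K2_ok TB_l18461 _)
              (CovZ.leaf K2_ok TB_l18462 _)))
            (CovZ.n1 (-22896, 9648) (by decide +kernel)
             (CovZ.leaf K2_ok TB_l18463 _)
             (CovZ.leaf K2_ok TB_l18464 _))))
          (CovZ.n1 (-22752, 9696) (by decide +kernel)
           (CovZ.n2 (-22752, 9600) (by decide +kernel)
            (CovZ.n2 (-22800, 9648) (by decide +kernel)
             (CovZ.leaf K2_ok TB_l18465 _)
             (CovZ.leaf K2_ok TB_l18466 _))
            (CovZ.leaf K2_ok TB_l18467 _))
           (CovZ.n1 (-22848, 9696) (by decide +kernel)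
            (CovZ.leaf K2_ok TB_l18468 _)
            (CovZ.leaf K2_ok TB_l18469 _))))
         (CovZ.n1 (-23040, 9792) (by decide +kernel)
          (CovZ.n2 (-22944, 9888) (by decide +kernel)
           (CovZ.n2 (-22944, 9792) (by decide +kernel)
            (CovZ.leaf K2_ok TB_l18470 _)
            (CovZ.leaf K2_ok TB_l18471 _))
           (CovZ.leaf K2_ok TB_l18472 _))
          (CovZ.n1 (-22944, 9696) (by decide +kernel)
           (CovZ.n2 (-23040, 9696) (by decide +kernel)
            (CovZ.leaf K2_ok TB_l18473 _)
            (CovZ.n1 (-22992, 9648) (by decide +kernel)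
             (CovZ.leaf K2_ok TB_l18474 _)
             (CovZ.leaf K2_ok TB_l18475 _)))
           (CovZ.n1 (-22944, 9792) (by decide +kernel)
            (CovZ.leaf K2_ok TB_l18476 _)
            (CovZ.leaf K2_ok TB_l18477 _)))))
        (CovZ.n1 (-22848, 9408) (by decide +kernel)
         (CovZ.n2 (-23040, 9408) (by decide +kernel)
          (CovZ.n2 (-22944, 9504) (by decide +kernel)
           (CovZ.n2 (-22944, 9408) (by decide +kernel)
            (CovZ.n2 (-22992, 9456) (by decide +kernel)
             (CovZ.n2 (-22944, 9456) (by decide +kernel)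
              (CovZ.n2 (-22968, 9432) (by decide +kernel)
               (CovZ.leaf K2_ok TB_l18478 _)
               (CovZ.leaf K2_ok TB_l18479 _))
              (CovZ.n1 (-22968, 9480) (by decide +kernel)
               (CovZ.leaf K2_ok TB_l18480 _)
               (CovZ.leaf K2_ok TB_l18481 _)))
             (CovZ.n1 (-22992, 9408) (by decide +kernel)
              (CovZ.leaf K2_ok TB_l18482 _)
              (CovZ.leaf K2_ok TB_l18483 _)))
            (CovZ.n1 (-22896, 9456) (by decide +kernel)
             (CovZ.n2 (-22896, 9408) (by decide +kernel)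
              (CovZ.n2 (-22920, 9432) (by decide +kernel)
               (CovZ.leaf K2_ok TB_l18484 _)
               (CovZ.leaf K2_ok TB_l18485 _))
              (CovZ.n1 (-22872, 9432) (by decide +kernel)
               (CovZ.leaf K2_ok TB_l18486 _)
               (CovZ.leaf K2_ok TB_l18487 _)))
             (CovZ.n1 (-22944, 9456) (by decide +kernel)
              (CovZ.leaf K2_ok TB_l18488 _)
              (CovZ.n1 (-22920, 9432) (by decide +kernel)
               (CovZ.leaf K2_ok TB_l18489 _)
               (CovZ.leaf K2_ok TB_l18490 _)))))
           (CovZ.n1 (-23040, 9504) (by decide +kernel)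
            (CovZ.n2 (-22992, 9552) (by decide +kernel)
             (CovZ.n2 (-22992, 9504) (by decide +kernel)
              (CovZ.leaf K2_ok TB_l18491 _)
              (CovZ.leaf K2_ok TB_l18492 _))
             (CovZ.leaf K2_ok TB_l18493 _))
            (CovZ.n1 (-22992, 9456) (by decide +kernel)
             (CovZ.n2 (-23040, 9456) (by decide +kernel)
              (CovZ.leaf K2_ok TB_l18494 _)
              (CovZ.leaf K2_ok TB_l18495 _))
             (CovZ.n1 (-22992, 9504) (by decide +kernel)
              (CovZ.n2 (-22968, 9480) (by decide +kernel)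
               (CovZ.leaf K2_ok TB_l18496 _)
               (CovZ.leaf K2_ok TB_l18497 _))
              (CovZ.leaf K2_ok TB_l18498 _)))))
          (CovZ.n1 (-22944, 9312) (by decide +kernel)
           (CovZ.n2 (-23040, 9312) (by decide +kernel)
            (CovZ.n2 (-22992, 9360) (by decide +kernel)
             (CovZ.n2 (-22992, 9312) (by decide +kernel)
              (CovZ.leaf K2_ok TB_l18499 _)
              (CovZ.leaf K2_ok TB_l18500 _))
             (CovZ.n1 (-23040, 9360) (by decide +kernel)
              (CovZ.leaf K2_ok TB_l18501 _)
              (CovZ.leaf K2_ok TB_l18502 _)))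
            (CovZ.n1 (-22992, 9264) (by decide +kernel)
             (CovZ.leaf K2_ok TB_l18503 _)
             (CovZ.n1 (-22992, 9312) (by decide +kernel)
              (CovZ.leaf K2_ok TB_l18504 _)
              (CovZ.leaf K2_ok TB_l18505 _))))
           (CovZ.n1 (-22944, 9408) (by decide +kernel)
            (CovZ.n2 (-22896, 9360) (by decide +kernel)
             (CovZ.n2 (-22944, 9360) (by decide +kernel)
              (CovZ.leaf K2_ok TB_l18506 _)
              (CovZ.leaf K2_ok TB_l18507 _))
             (CovZ.n1 (-22896, 9408) (by decide +kernel)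
              (CovZ.n2 (-22872, 9384) (by decide +kernel)
               (CovZ.leaf K2_ok TB_l18508 _)
               (CovZ.leaf K2_ok TB_l18509 _))
              (CovZ.leaf K2_ok TB_l18510 _)))
            (CovZ.n1 (-22992, 9360) (by decide +kernel)
             (CovZ.n2 (-22992, 9408) (by decide +kernel)
              (CovZ.n2 (-22968, 9384) (by decide +kernel)
               (CovZ.leaf K2_ok TB_l18511 _)
               (CovZ.leaf K2_ok TB_l18512 _))
              (CovZ.leaf K2_ok TB_l18513 _))
             (CovZ.n1 (-22944, 9360) (by decide +kernel)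
              (CovZ.leaf K2_ok TB_l18514 _)
              (CovZ.n1 (-22968, 9384) (by decide +kernel)
               (CovZ.leaf K2_ok TB_l18515 _)
               (CovZ.leaf K2_ok TB_l18516 _)))))))
         (CovZ.n1 (-22848, 9600) (by decide +kernel)
          (CovZ.n2 (-22752, 9504) (by decide +kernel)
           (CovZ.n2 (-22848, 9504) (by decide +kernel)
            (CovZ.n2 (-22800, 9552) (by decide +kernel)
             (CovZ.n2 (-22800, 9504) (by decide +kernel)
              (CovZ.leaf K2_ok TB_l18517 _)
              (CovZ.leaf K2_ok TB_l18518 _))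
             (CovZ.leaf K2_ok TB_l18519 _))
            (CovZ.n1 (-22800, 9456) (by decide +kernel)
             (CovZ.n2 (-22848, 9456) (by decide +kernel)
              (CovZ.leaf K2_ok TB_l18520 _)
              (CovZ.n1 (-22824, 9432) (by decide +kernel)
               (CovZ.leaf K2_ok TB_l18521 _)
               (CovZ.leaf K2_ok TB_l18522 _)))
             (CovZ.n1 (-22800, 9504) (by decide +kernel)
              (CovZ.n2 (-22776, 9480) (by decide +kernel)
               (CovZ.leaf K2_ok TB_l18523 _)
               (CovZ.leaf K2_ok TB_l18524 _))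
              (CovZ.leaf K2_ok TB_l18525 _))))
           (CovZ.n1 (-22752, 9600) (by decide +kernel)
            (CovZ.n2 (-22704, 9552) (by decide +kernel)
             (CovZ.leaf K2_ok TB_l18526 _)
             (CovZ.leaf K2_ok TB_l18527 _))
            (CovZ.n1 (-22800, 9552) (by decide +kernel)
             (CovZ.leaf K2_ok TB_l18528 _)
             (CovZ.leaf K2_ok TB_l18529 _))))
          (CovZ.n1 (-22944, 9504) (by decide +kernel)
           (CovZ.n2 (-22944, 9600) (by decide +kernel)
            (CovZ.n2 (-22896, 9552) (by decide +kernel)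
             (CovZ.leaf K2_ok TB_l18530 _)
             (CovZ.leaf K2_ok TB_l18531 _))
            (CovZ.n1 (-22992, 9552) (by decide +kernel)
             (CovZ.n2 (-22992, 9600) (by decide +kernel)
              (CovZ.leaf K2_ok TB_l18532 _)
              (CovZ.leaf K2_ok TB_l18533 _))
             (CovZ.leaf K2_ok TB_l18534 _)))
           (CovZ.n1 (-22848, 9504) (by decide +kernel)
            (CovZ.n2 (-22896, 9456) (by decide +kernel)
             (CovZ.n2 (-22896, 9504) (by decide +kernel)
              (CovZ.n2 (-22872, 9480) (by decide +kernel)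
               (CovZ.leaf K2_ok TB_l18535 _)
               (CovZ.leaf K2_ok TB_l18536 _))
              (CovZ.leaf K2_ok TB_l18537 _))
             (CovZ.n1 (-22848, 9456) (by decide +kernel)
              (CovZ.leaf K2_ok TB_l18538 _)
              (CovZ.n1 (-22872, 9480) (by decide +kernel)
               (CovZ.leaf K2_ok TB_l18539 _)
               (CovZ.leaf K2_ok TB_l18540 _))))
            (CovZ.n1 (-22896, 9552) (by decide +kernel)
             (CovZ.leaf K2_ok TB_l18541 _)
             (CovZ.n1 (-22896, 9504) (by decide +kernel)
              (CovZ.leaf K2_ok TB_l18542 _)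
              (CovZ.leaf K2_ok TB_l18543 _)))))))))
      (CovZ.subM 631665816743553873388612858716202337208920867230133003189890455038884893344446038252131884597996720932012382826537092 (by decide +kernel)
       (CovZ.n1 (-22656, 9984) (by decide +kernel)
        (CovZ.n2 (-22464, 9792) (by decide +kernel)
         (CovZ.n2 (-22656, 9792) (by decide +kernel)
          (CovZ.n2 (-22560, 9888) (by decide +kernel)
           (CovZ.leaf K2_ok TB_l18544 _)
           (CovZ.leaf K2_ok TB_l18545 _))
          (CovZ.n1 (-22560, 9696) (by decide +kernel)
           (CovZ.n2 (-22656, 9696) (by decide +kernel)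
            (CovZ.leaf K2_ok TB_l18546 _)
            (CovZ.leaf K2_ok TB_l18547 _))
           (CovZ.n1 (-22560, 9792) (by decide +kernel)
            (CovZ.leaf K2_ok TB_l18548 _)
            (CovZ.leaf K2_ok TB_l18549 _))))
         (CovZ.n1 (-22464, 9984) (by decide +kernel)
          (CovZ.n2 (-22368, 9888) (by decide +kernel)
           (CovZ.leaf K2_ok TB_l18550 _)
           (CovZ.leaf K2_ok TB_l18551 _))
          (CovZ.leaf K2_ok TB_l18552 _)))
        (CovZ.n1 (-22848, 9792) (by decide +kernel)
         (CovZ.n2 (-22848, 9984) (by decide +kernel)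
          (CovZ.n2 (-22752, 9888) (by decide +kernel)
           (CovZ.leaf K2_ok TB_l18553 _)
           (CovZ.leaf K2_ok TB_l18554 _))
          (CovZ.leaf K2_ok TB_l18555 _))
         (CovZ.n1 (-22656, 9792) (by decide +kernel)
          (CovZ.n2 (-22752, 9696) (by decide +kernel)
           (CovZ.n2 (-22752, 9792) (by decide +kernel)
            (CovZ.leaf K2_ok TB_l18556 _)
            (CovZ.leaf K2_ok TB_l18557 _))
           (CovZ.leaf K2_ok TB_l18558 _))
          (CovZ.n1 (-22752, 9888) (by decide +kernel)
           (CovZ.leaf K2_ok TB_l18559 _)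
           (CovZ.n1 (-22752, 9792) (by decide +kernel)
            (CovZ.leaf K2_ok TB_l18560 _)
            (CovZ.leaf K2_ok TB_l18561 _)))))))))
    (CovZ.n1 (-22272, 10752) (by decide +kernel)
     (CovZ.n2 (-21888, 10368) (by decide +kernel)
      (CovZ.n2 (-22272, 10368) (by decide +kernel)
       (CovZ.leaf K2_ok TB_l18562 _)
       (CovZ.n1 (-22080, 10176) (by decide +kernel)
        (CovZ.leaf K2_ok TB_l18563 _)
        (CovZ.leaf K2_ok TB_l18564 _)))
      (CovZ.n1 (-21888, 10752) (by decide +kernel)
       (CovZ.leaf K2_ok TB_l18565 _)
       (CovZ.leaf K2_ok TB_l18566 _)))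
     (CovZ.n1 (-22656, 10368) (by decide +kernel)
      (CovZ.leaf K2_ok TB_l18567 _)
      (CovZ.n1 (-22272, 10368) (by decide +kernel)
       (CovZ.leaf K2_ok TB_l18568 _)
       (CovZ.leaf K2_ok TB_l18569 _))))))

theorem TB_s7_9 : SqZ TB_M TB_L [0, 7, 6, 1] (-32256) (-4608) 1536 7 9 :=
  SqZ.mk (a := (-21504)) (b := (-19968)) (c := 9216) (d := 10752) (by norm_num) (by norm_num) (by norm_num) (by norm_num)
    (CovZ.topM TB_LL 1233717610416200464652581674333940867107877451712168667529398288095151131928630499150903273600874557933459364380672 (by decide +kernel) (CovZ.n2 (-20736, 9984) (by decide +kernel)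
    TB_u291
    TB_u292))
    (CovZ.topM TB_LL 1233717610416200464652581674333940867107877451712168667529398335986755746178738795395997568248084950205981010165760 (by decide +kernel) (CovZ.n0 (-20736, 9984) (by decide +kernel)
    (CovZ.n2 (-21504, 9984) (by decide +kernel)
     (CovZ.n2 (-21120, 10368) (by decide +kernel)
      (CovZ.n2 (-21120, 9984) (by decide +kernel)
       (CovZ.n2 (-21312, 10176) (by decide +kernel)
        (CovZ.leaf K2_ok TB_l19341 _)
        (CovZ.n1 (-21312, 9984) (by decide +kernel)
         (CovZ.leaf K2_ok TB_l19342 _)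
         (CovZ.leaf K2_ok TB_l19343 _)))
       (CovZ.n1 (-20928, 10176) (by decide +kernel)
        (CovZ.n2 (-20928, 9984) (by decide +kernel)
         (CovZ.leaf K2_ok TB_l19344 _)
         (CovZ.leaf K2_ok TB_l19345 _))
        (CovZ.leaf K2_ok TB_l19346 _)))
      (CovZ.n1 (-21504, 10368) (by decide +kernel)
       (CovZ.leaf K2_ok TB_l19347 _)
       (CovZ.n1 (-21312, 10176) (by decide +kernel)
        (CovZ.leaf K2_ok TB_l19348 _)
        (CovZ.leaf K2_ok TB_l19349 _))))
     (CovZ.n1 (-21120, 9600) (by decide +kernel)
      (CovZ.n2 (-21504, 9600) (by decide +kernel)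
       (CovZ.n2 (-21312, 9792) (by decide +kernel)
        (CovZ.n2 (-21312, 9600) (by decide +kernel)
         (CovZ.n2 (-21408, 9696) (by decide +kernel)
          (CovZ.leaf K2_ok TB_l19350 _)
          (CovZ.n1 (-21408, 9600) (by decide +kernel)
           (CovZ.leaf K2_ok TB_l19351 _)
           (CovZ.leaf K2_ok TB_l19352 _)))
         (CovZ.n1 (-21216, 9696) (by decide +kernel)
          (CovZ.leaf K2_ok TB_l19353 _)
          (CovZ.leaf K2_ok TB_l19354 _)))
        (CovZ.n1 (-21504, 9792) (by decide +kernel)
         (CovZ.leaf K2_ok TB_l19355 _)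
         (CovZ.n1 (-21408, 9696) (by decide +kernel)
          (CovZ.leaf K2_ok TB_l19356 _)
          (CovZ.leaf K2_ok TB_l19357 _))))
       (CovZ.n1 (-21312, 9408) (by decide +kernel)
        (CovZ.subM 1233717601242206000692165257588156657225125727364064909706561196903644936242103953291249164025381557281850044448768 (by decide +kernel)
         (CovZ.n2 (-21504, 9408) (by decide +kernel)
          (CovZ.n2 (-21408, 9504) (by decide +kernel)
           (CovZ.n2 (-21408, 9408) (by decide +kernel)
            (CovZ.leaf K2_ok TB_l19358 _)
            (CovZ.leaf K2_ok TB_l19359 _))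
           (CovZ.n1 (-21504, 9504) (by decide +kernel)
            (CovZ.leaf K2_ok TB_l19360 _)
            (CovZ.leaf K2_ok TB_l19361 _)))
          (CovZ.n1 (-21408, 9312) (by decide +kernel)
           (CovZ.n2 (-21504, 9312) (by decide +kernel)
            (CovZ.n2 (-21456, 9360) (by decide +kernel)
             (CovZ.leaf K2_ok TB_l19362 _)
             (CovZ.leaf K2_ok TB_l19363 _))
            (CovZ.n1 (-21456, 9264) (by decide +kernel)
             (CovZ.leaf K2_ok TB_l19364 _)
             (CovZ.n1 (-21456, 9312) (by decide +kernel)
              (CovZ.leaf K2_ok TB_l19365 _)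
              (CovZ.leaf K2_ok TB_l19366 _))))
           (CovZ.n1 (-21408, 9408) (by decide +kernel)
            (CovZ.n2 (-21360, 9360) (by decide +kernel)
             (CovZ.leaf K2_ok TB_l19367 _)
             (CovZ.leaf K2_ok TB_l19368 _))
            (CovZ.leaf K2_ok TB_l19369 _)))))
        (CovZ.n1 (-21312, 9600) (by decide +kernel)
         (CovZ.subM 1233717601242136000125024057522936407573771138802165149070485501800553504891463611756426112516487370141813117550592 (by decide +kernel)
          (CovZ.n2 (-21216, 9504) (by decide +kernel)
           (CovZ.n2 (-21312, 9504) (by decide +kernel)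
            (CovZ.leaf K2_ok TB_l19370 _)
            (CovZ.leaf K2_ok TB_l19371 _))
           (CovZ.n1 (-21216, 9600) (by decide +kernel)
            (CovZ.leaf K2_ok TB_l19372 _)
            (CovZ.leaf K2_ok TB_l19373 _))))
         (CovZ.n1 (-21408, 9504) (by decide +kernel)
          (CovZ.n2 (-21408, 9600) (by decide +kernel)
           (CovZ.leaf K2_ok TB_l19374 _)
           (CovZ.leaf K2_ok TB_l19375 _))
          (CovZ.leaf K2_ok TB_l19376 _)))))
      (CovZ.n1 (-21120, 9984) (by decide +kernel)
       (CovZ.subM 1233717601242136000125024057522936407573771138802165149070485501800576340854546907114523045091998562063995241496576 (by decide +kernel)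
        (CovZ.n2 (-20928, 9792) (by decide +kernel)
         (CovZ.n2 (-21120, 9792) (by decide +kernel)
          (CovZ.leaf K2_ok TB_l19377 _)
          (CovZ.n1 (-21024, 9696) (by decide +kernel)
           (CovZ.leaf K2_ok TB_l19378 _)
           (CovZ.leaf K2_ok TB_l19379 _)))
         (CovZ.n1 (-20928, 9984) (by decide +kernel)
          (CovZ.leaf K2_ok TB_l19380 _)
          (CovZ.leaf K2_ok TB_l19381 _))))
       (CovZ.n1 (-21312, 9792) (by decide +kernel)
        (CovZ.n2 (-21312, 9984) (by decide +kernel)
         (CovZ.leaf K2_ok TB_l19382 _)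
         (CovZ.leaf K2_ok TB_l19383 _))
        (CovZ.n1 (-21120, 9792) (by decide +kernel)
         (CovZ.leaf K2_ok TB_l19384 _)
         (CovZ.leaf K2_ok TB_l19385 _))))))
    (CovZ.n1 (-20736, 10752) (by decide +kernel)
     (CovZ.n2 (-20352, 10368) (by decide +kernel)
      (CovZ.n2 (-20736, 10368) (by decide +kernel)
       (CovZ.leaf K2_ok TB_l19386 _)
       (CovZ.n1 (-20544, 10176) (by decide +kernel)
        (CovZ.leaf K2_ok TB_l19387 _)
        (CovZ.leaf K2_ok TB_l19388 _)))
      (CovZ.n1 (-20352, 10752) (by decide +kernel)
       (CovZ.leaf K2_ok TB_l19389 _)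
       (CovZ.leaf K2_ok TB_l19390 _)))
     (CovZ.n1 (-21120, 10368) (by decide +kernel)
      (CovZ.n2 (-21120, 10752) (by decide +kernel)
       (CovZ.leaf K2_ok TB_l19391 _)
       (CovZ.leaf K2_ok TB_l19392 _))
      (CovZ.leaf K2_ok TB_l19393 _)))))

theorem TB_s8_9 : SqZ TB_M TB_L [0, 7, 6, 1] (-32256) (-4608) 1536 8 9 :=
  SqZ.mk (a := (-19968)) (b := (-18432)) (c := 9216) (d := 10752) (by norm_num) (by norm_num) (by norm_num) (by norm_num)
    (CovZ.topM TB_LL 75162536818206681691529036245885050096812440466227581799244479292313051942558184113609133455755943023267020832 (by decide +kernel) (CovZ.n2 (-19200, 9984) (by decide +kernel)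
    (CovZ.n2 (-18432, 9984) (by decide +kernel)
     (CovZ.n2 (-18816, 9600) (by decide +kernel)
      (CovZ.n2 (-18816, 9984) (by decide +kernel)
       (CovZ.n2 (-18624, 9792) (by decide +kernel)
        (CovZ.leaf K2_ok TB_l19983 _)
        (CovZ.leaf K2_ok TB_l19984 _))
       (CovZ.n1 (-19008, 9792) (by decide +kernel)
        (CovZ.leaf K2_ok TB_l19985 _)
        (CovZ.leaf K2_ok TB_l19986 _)))
      (CovZ.subM 75153362823742721275112290476881910840335925733507840260775483504990080911882984221602223517795480887881629728 (by decide +kernel)
       (CovZ.n1 (-18432, 9600) (by decide +kernel)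
        (CovZ.n2 (-18624, 9408) (by decide +kernel)
         (CovZ.n2 (-18624, 9600) (by decide +kernel)
          (CovZ.leaf K2_ok TB_l19987 _)
          (CovZ.leaf K2_ok TB_l19988 _))
         (CovZ.n1 (-18432, 9408) (by decide +kernel)
          (CovZ.leaf K2_ok TB_l19989 _)
          (CovZ.leaf K2_ok TB_l19990 _)))
        (CovZ.n1 (-18624, 9792) (by decide +kernel)
         (CovZ.leaf K2_ok TB_l19991 _)
         (CovZ.n1 (-18624, 9600) (by decide +kernel)
          (CovZ.leaf K2_ok TB_l19992 _)
          (CovZ.leaf K2_ok TB_l19993 _))))))
     (CovZ.n1 (-18816, 10368) (by decide +kernel)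
      (CovZ.n2 (-18432, 10368) (by decide +kernel)
       (CovZ.leaf K2_ok TB_l19994 _)
       (CovZ.leaf K2_ok TB_l19995 _))
      (CovZ.n1 (-18816, 9984) (by decide +kernel)
       (CovZ.n2 (-19008, 10176) (by decide +kernel)
        (CovZ.leaf K2_ok TB_l19996 _)
        (CovZ.leaf K2_ok TB_l19997 _))
       (CovZ.n1 (-18624, 10176) (by decide +kernel)
        (CovZ.leaf K2_ok TB_l19998 _)
        (CovZ.leaf K2_ok TB_l19999 _)))))
    (CovZ.n1 (-19200, 9216) (by decide +kernel)
     (CovZ.n2 (-19584, 9600) (by decide +kernel)
      (CovZ.subM 9174029459971882574634088762808864425765891208331424088614025138914853843583055373489360603774129457332224 (by decide +kernel)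
       (CovZ.n2 (-19200, 9600) (by decide +kernel)
        (CovZ.n2 (-19392, 9408) (by decide +kernel)
         (CovZ.n2 (-19392, 9600) (by decide +kernel)
          (CovZ.leaf K2_ok TB_l20000 _)
          (CovZ.leaf K2_ok TB_l20001 _))
         (CovZ.n1 (-19200, 9408) (by decide +kernel)
          (CovZ.leaf K2_ok TB_l20002 _)
          (CovZ.leaf K2_ok TB_l20003 _)))
        (CovZ.n1 (-19392, 9792) (by decide +kernel)
         (CovZ.leaf K2_ok TB_l20004 _)
         (CovZ.n1 (-19392, 9600) (by decide +kernel)
          (CovZ.leaf K2_ok TB_l20005 _)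
          (CovZ.leaf K2_ok TB_l20006 _)))))
      (CovZ.n1 (-19584, 9216) (by decide +kernel)
       (CovZ.n2 (-19776, 9408) (by decide +kernel)
        (CovZ.n2 (-19584, 9408) (by decide +kernel)
         (CovZ.leaf K2_ok TB_l20007 _)
         (CovZ.leaf K2_ok TB_l20008 _))
        (CovZ.n1 (-19776, 9216) (by decide +kernel)
         (CovZ.n2 (-19872, 9312) (by decide +kernel)
          (CovZ.leaf K2_ok TB_l20009 _)
          (CovZ.leaf K2_ok TB_l20010 _))
         (CovZ.n1 (-19680, 9312) (by decide +kernel)
          (CovZ.leaf K2_ok TB_l20011 _)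
          (CovZ.leaf K2_ok TB_l20012 _))))
       (CovZ.subM 9174029459971882574634088762808864425765891208331424088614025138914853843583055373489360603774129457332224 (by decide +kernel)
        (CovZ.n1 (-19392, 9408) (by decide +kernel)
         (CovZ.n2 (-19392, 9216) (by decide +kernel)
          (CovZ.n2 (-19488, 9312) (by decide +kernel)
           (CovZ.leaf K2_ok TB_l20013 _)
           (CovZ.leaf K2_ok TB_l20014 _))
          (CovZ.leaf K2_ok TB_l20015 _))
         (CovZ.n1 (-19584, 9408) (by decide +kernel)
          (CovZ.leaf K2_ok TB_l20016 _)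
          (CovZ.n1 (-19488, 9312) (by decide +kernel)
           (CovZ.leaf K2_ok TB_l20017 _)
           (CovZ.leaf K2_ok TB_l20018 _)))))))
     (CovZ.n1 (-18816, 9600) (by decide +kernel)
      (CovZ.subM 75162536818206681561158733760463090240187230605964306513123137782167097693130389494248219912494519799926226944 (by decide +kernel)
       (CovZ.n2 (-18816, 9216) (by decide +kernel)
        (CovZ.n2 (-19008, 9408) (by decide +kernel)
         (CovZ.leaf K2_ok TB_l20019 _)
         (CovZ.n1 (-19008, 9216) (by decide +kernel)
          (CovZ.leaf K2_ok TB_l20020 _)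
          (CovZ.leaf K2_ok TB_l20021 _)))
        (CovZ.n1 (-18624, 9408) (by decide +kernel)
         (CovZ.n2 (-18624, 9216) (by decide +kernel)
          (CovZ.leaf K2_ok TB_l20022 _)
          (CovZ.leaf K2_ok TB_l20023 _))
         (CovZ.n1 (-18816, 9408) (by decide +kernel)
          (CovZ.leaf K2_ok TB_l20024 _)
          (CovZ.leaf K2_ok TB_l20025 _)))))
      (CovZ.subM 9174029459971882574634088762808864425765891208331424088614025138914853843583055373489359450852624850485248 (by decide +kernel)
       (CovZ.n1 (-19200, 9600) (by decide +kernel)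
        (CovZ.n2 (-19008, 9792) (by decide +kernel)
         (CovZ.n2 (-19008, 9600) (by decide +kernel)
          (CovZ.leaf K2_ok TB_l20026 _)
          (CovZ.leaf K2_ok TB_l20027 _))
         (CovZ.leaf K2_ok TB_l20028 _))
        (CovZ.n1 (-19008, 9408) (by decide +kernel)
         (CovZ.n2 (-19200, 9408) (by decide +kernel)
          (CovZ.leaf K2_ok TB_l20029 _)
          (CovZ.leaf K2_ok TB_l20030 _))
         (CovZ.n1 (-19008, 9600) (by decide +kernel)
          (CovZ.leaf K2_ok TB_l20031 _)
          (CovZ.leaf K2_ok TB_l20032 _)))))))))
    (CovZ.topM TB_LL 2480070141578611907050357167358166166129511478388133798006069612809355441738439924769014597964049019342409433120 (by decide +kernel) (CovZ.n0 (-19200, 9984) (by decide +kernel)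
    (CovZ.n2 (-19968, 9984) (by decide +kernel)
     (CovZ.n2 (-19584, 10368) (by decide +kernel)
      (CovZ.n2 (-19584, 9984) (by decide +kernel)
       (CovZ.n2 (-19776, 10176) (by decide +kernel)
        (CovZ.leaf K2_ok TB_l20033 _)
        (CovZ.leaf K2_ok TB_l20034 _))
       (CovZ.n1 (-19392, 10176) (by decide +kernel)
        (CovZ.leaf K2_ok TB_l20035 _)
        (CovZ.leaf K2_ok TB_l20036 _)))
      (CovZ.n1 (-19968, 10368) (by decide +kernel)
       (CovZ.leaf K2_ok TB_l20037 _)
       (CovZ.n1 (-19776, 10176) (by decide +kernel)
        (CovZ.leaf K2_ok TB_l20038 _)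
        (CovZ.leaf K2_ok TB_l20039 _))))
     (CovZ.n1 (-19584, 9600) (by decide +kernel)
      (CovZ.n2 (-19968, 9600) (by decide +kernel)
       (CovZ.n2 (-19776, 9792) (by decide +kernel)
        (CovZ.n2 (-19776, 9600) (by decide +kernel)
         (CovZ.leaf K2_ok TB_l20040 _)
         (CovZ.leaf K2_ok TB_l20041 _))
        (CovZ.leaf K2_ok TB_l20042 _))
       (CovZ.n1 (-19776, 9408) (by decide +kernel)
        (CovZ.n2 (-19968, 9408) (by decide +kernel)
         (CovZ.leaf K2_ok TB_l20043 _)
         (CovZ.n1 (-19872, 9312) (by decide +kernel)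
          (CovZ.leaf K2_ok TB_l20044 _)
          (CovZ.leaf K2_ok TB_l20045 _)))
        (CovZ.n1 (-19776, 9600) (by decide +kernel)
         (CovZ.leaf K2_ok TB_l20046 _)
         (CovZ.leaf K2_ok TB_l20047 _))))
      (CovZ.n1 (-19584, 9984) (by decide +kernel)
       (CovZ.n2 (-19392, 9792) (by decide +kernel)
        (CovZ.leaf K2_ok TB_l20048 _)
        (CovZ.leaf K2_ok TB_l20049 _))
       (CovZ.n1 (-19776, 9792) (by decide +kernel)
        (CovZ.n2 (-19776, 9984) (by decide +kernel)
         (CovZ.leaf K2_ok TB_l20050 _)
         (CovZ.leaf K2_ok TB_l20051 _))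
        (CovZ.leaf K2_ok TB_l20052 _)))))
    (CovZ.n1 (-19200, 10752) (by decide +kernel)
     (CovZ.n2 (-18816, 10368) (by decide +kernel)
      (CovZ.n2 (-19200, 10368) (by decide +kernel)
       (CovZ.leaf K2_ok TB_l20053 _)
       (CovZ.n1 (-19008, 10176) (by decide +kernel)
        (CovZ.leaf K2_ok TB_l20054 _)
        (CovZ.leaf K2_ok TB_l20055 _)))
      (CovZ.n1 (-18816, 10752) (by decide +kernel)
       (CovZ.leaf K2_ok TB_l20056 _)
       (CovZ.leaf K2_ok TB_l20057 _)))
     (CovZ.n1 (-19584, 10368) (by decide +kernel)
      (CovZ.n2 (-19584, 10752) (by decide +kernel)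
       (CovZ.leaf K2_ok TB_l20058 _)
       (CovZ.leaf K2_ok TB_l20059 _))
      (CovZ.n1 (-19200, 10368) (by decide +kernel)
       (CovZ.leaf K2_ok TB_l20060 _)
       (CovZ.leaf K2_ok TB_l20061 _))))))

end Pool.Agent.TET
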