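import Pool.Agent.Helper38_TET.TB_M
import Pool.Agent.Helper38_TET.TB_L
import Pool.Agent.Helper38_TET.TB_144
import Pool.Agent.Helper38_TET.TB_169
import Pool.Agent.Helper38_TET.TB_170
import Pool.Agent.Helper38_TET.TB_171
import Pool.Agent.Helper38_TET.TB_218
import Pool.Agent.Helper38_TET.TB_219
import Pool.Agent.Helper38_TET.TB_222
import Pool.Agent.Helper38_TET.TB_223
import Pool.Agent.Helper38_TET.TB_224
import Pool.Agent.Helper38_TET.TB_281
import Pool.Agent.Helper38_TET.TB_282
import Pool.Agent.Helper38_TET.TB_283
import Pool.Agent.Helper38_TET.TB_305
import Pool.Agent.Helper38_TET.TB_331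

/-!
# MP_c7c9bf_co: certificates, family TB
-/

set_option autoImplicit false
set_option maxRecDepth 100000

namespace Pool.Agent.TET

theorem TB_u309 : CovZ TB_M (toL (selN TB_LN 139984046386120720468216634582936548731194828722965691886645948403558068782921852091426764927092654120)) [0, 7, 6, 1] (-15360, 12288) (-15360, 11520) (-14592, 11520) :=
    (CovZ.n2 (-14976, 11904) (by decide +kernel)
      (CovZ.n2 (-14976, 11520) (by decide +kernel)
       (CovZ.n2 (-15168, 11712) (by decide +kernel)
        (CovZ.subM 121416805764108066932466369176469931665150427440758720078238275608681517825325531136 (by decide +kernel)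
         (CovZ.n2 (-14976, 11712) (by decide +kernel)
          (CovZ.n2 (-15072, 11616) (by decide +kernel)
           (CovZ.n2 (-15072, 11712) (by decide +kernel)
            (CovZ.n2 (-15024, 11664) (by decide +kernel)
             (CovZ.leaf K2_ok TB_l32762 _)
             (CovZ.leaf K2_ok TB_l32763 _))
            (CovZ.leaf K2_ok TB_l32764 _))
           (CovZ.n1 (-14976, 11616) (by decide +kernel)
            (CovZ.n2 (-15024, 11568) (by decide +kernel)
             (CovZ.leaf K2_ok TB_l32765 _)
             (CovZ.leaf K2_ok TB_l32766 _))
            (CovZ.n1 (-15024, 11664) (by decide +kernel)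
             (CovZ.leaf K2_ok TB_l32767 _)
             (CovZ.leaf K2_ok TB_l32768 _))))
          (CovZ.n1 (-15072, 11808) (by decide +kernel)
           (CovZ.n2 (-14976, 11808) (by decide +kernel)
            (CovZ.n2 (-15024, 11760) (by decide +kernel)
             (CovZ.leaf K2_ok TB_l32769 _)
             (CovZ.leaf K2_ok TB_l32770 _))
            (CovZ.n1 (-15024, 11856) (by decide +kernel)
             (CovZ.leaf K2_ok TB_l32771 _)
             (CovZ.leaf K2_ok TB_l32772 _)))
           (CovZ.n1 (-15072, 11712) (by decide +kernel)
            (CovZ.leaf K2_ok TB_l32773 _)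
            (CovZ.n1 (-15024, 11760) (by decide +kernel)
             (CovZ.leaf K2_ok TB_l32774 _)
             (CovZ.leaf K2_ok TB_l32775 _))))))
        (CovZ.n1 (-15168, 11520) (by decide +kernel)
         (CovZ.n2 (-15264, 11616) (by decide +kernel)
          (CovZ.n2 (-15168, 11616) (by decide +kernel)
           (CovZ.leaf K2_ok TB_l32776 _)
           (CovZ.leaf K2_ok TB_l32777 _))
          (CovZ.n1 (-15264, 11520) (by decide +kernel)
           (CovZ.leaf K2_ok TB_l32778 _)
           (CovZ.leaf K2_ok TB_l32779 _)))
         (CovZ.subM 121416805764108066932466369176469931665150427440758720078238275608681517825325531136 (by decide +kernel)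
          (CovZ.n1 (-15072, 11616) (by decide +kernel)
           (CovZ.n2 (-15072, 11520) (by decide +kernel)
            (CovZ.leaf K2_ok TB_l32780 _)
            (CovZ.n1 (-15024, 11568) (by decide +kernel)
             (CovZ.leaf K2_ok TB_l32781 _)
             (CovZ.leaf K2_ok TB_l32782 _)))
           (CovZ.n1 (-15168, 11616) (by decide +kernel)
            (CovZ.leaf K2_ok TB_l32783 _)
            (CovZ.leaf K2_ok TB_l32784 _))))))
       (CovZ.subM 121416805764108066932466369176469931665150427440758720078238275608681517825325531136 (by decide +kernel)
        (CovZ.n1 (-14784, 11712) (by decide +kernel)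
         (CovZ.n2 (-14784, 11520) (by decide +kernel)
          (CovZ.n2 (-14880, 11616) (by decide +kernel)
           (CovZ.n2 (-14784, 11616) (by decide +kernel)
            (CovZ.n2 (-14832, 11568) (by decide +kernel)
             (CovZ.n2 (-14832, 11616) (by decide +kernel)
              (CovZ.leaf K2_ok TB_l32785 _)
              (CovZ.leaf K2_ok TB_l32786 _))
             (CovZ.n1 (-14784, 11568) (by decide +kernel)
              (CovZ.leaf K2_ok TB_l32787 _)
              (CovZ.leaf K2_ok TB_l32788 _)))
            (CovZ.n1 (-14832, 11664) (by decide +kernel)
             (CovZ.badM (by decide +kernel))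
             (CovZ.n1 (-14832, 11616) (by decide +kernel)
              (CovZ.leaf K2_ok TB_l32790 _)
              (CovZ.leaf K2_ok TB_l32791 _))))
           (CovZ.n1 (-14880, 11520) (by decide +kernel)
            (CovZ.n2 (-14928, 11568) (by decide +kernel)
             (CovZ.leaf K2_ok TB_l32792 _)
             (CovZ.leaf K2_ok TB_l32793 _))
            (CovZ.n1 (-14832, 11568) (by decide +kernel)
             (CovZ.n2 (-14832, 11520) (by decide +kernel)
              (CovZ.leaf K2_ok TB_l32794 _)
              (CovZ.leaf K2_ok TB_l32795 _))
             (CovZ.leaf K2_ok TB_l32796 _))))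
          (CovZ.n1 (-14688, 11616) (by decide +kernel)
           (CovZ.n2 (-14688, 11520) (by decide +kernel)
            (CovZ.n2 (-14736, 11568) (by decide +kernel)
             (CovZ.badM (by decide +kernel))
             (CovZ.n1 (-14736, 11520) (by decide +kernel)
              (CovZ.leaf K2_ok TB_l32799 _)
              (CovZ.badM (by decide +kernel))))
            (CovZ.badM (by decide +kernel)))
           (CovZ.n1 (-14784, 11616) (by decide +kernel)
            (CovZ.badM (by decide +kernel))
            (CovZ.n1 (-14736, 11568) (by decide +kernel)
             (CovZ.n2 (-14784, 11568) (by decide +kernel)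
              (CovZ.badM (by decide +kernel))
              (CovZ.leaf K2_ok TB_l32806 _))
             (CovZ.badM (by decide +kernel))))))
         (CovZ.n1 (-14976, 11712) (by decide +kernel)
          (CovZ.n2 (-14880, 11808) (by decide +kernel)
           (CovZ.n2 (-14880, 11712) (by decide +kernel)
            (CovZ.n2 (-14928, 11760) (by decide +kernel)
             (CovZ.leaf K2_ok TB_l32809 _)
             (CovZ.n1 (-14928, 11712) (by decide +kernel)
              (CovZ.leaf K2_ok TB_l32810 _)
              (CovZ.leaf K2_ok TB_l32811 _)))
            (CovZ.badM (by decide +kernel)))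
           (CovZ.n1 (-14976, 11808) (by decide +kernel)
            (CovZ.n2 (-14928, 11856) (by decide +kernel)
             (CovZ.n2 (-14928, 11808) (by decide +kernel)
              (CovZ.leaf K2_ok TB_l32816 _)
              (CovZ.badM (by decide +kernel)))
             (CovZ.leaf K2_ok TB_l32818 _))
            (CovZ.n1 (-14928, 11760) (by decide +kernel)
             (CovZ.leaf K2_ok TB_l32819 _)
             (CovZ.n1 (-14928, 11808) (by decide +kernel)
              (CovZ.leaf K2_ok TB_l32820 _)
              (CovZ.leaf K2_ok TB_l32821 _)))))
          (CovZ.n1 (-14880, 11616) (by decide +kernel)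
           (CovZ.n2 (-14976, 11616) (by decide +kernel)
            (CovZ.n2 (-14928, 11664) (by decide +kernel)
             (CovZ.leaf K2_ok TB_l32822 _)
             (CovZ.leaf K2_ok TB_l32823 _))
            (CovZ.n1 (-14928, 11568) (by decide +kernel)
             (CovZ.leaf K2_ok TB_l32824 _)
             (CovZ.n1 (-14928, 11616) (by decide +kernel)
              (CovZ.leaf K2_ok TB_l32825 _)
              (CovZ.leaf K2_ok TB_l32826 _))))
           (CovZ.n1 (-14880, 11712) (by decide +kernel)
            (CovZ.n2 (-14832, 11664) (by decide +kernel)
             (CovZ.leaf K2_ok TB_l32827 _)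
             (CovZ.badM (by decide +kernel)))
            (CovZ.n1 (-14928, 11664) (by decide +kernel)
             (CovZ.n2 (-14928, 11712) (by decide +kernel)
              (CovZ.leaf K2_ok TB_l32830 _)
              (CovZ.leaf K2_ok TB_l32831 _))
             (CovZ.leaf K2_ok TB_l32832 _))))))))
      (CovZ.n1 (-15360, 11904) (by decide +kernel)
       (CovZ.n2 (-15168, 12096) (by decide +kernel)
        (CovZ.n2 (-15168, 11904) (by decide +kernel)
         (CovZ.n2 (-15264, 12000) (by decide +kernel)
          (CovZ.n2 (-15168, 12000) (by decide +kernel)
           (CovZ.leaf K2_ok TB_l32833 _)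
           (CovZ.leaf K2_ok TB_l32834 _))
          (CovZ.n1 (-15264, 11904) (by decide +kernel)
           (CovZ.leaf K2_ok TB_l32835 _)
           (CovZ.leaf K2_ok TB_l32836 _)))
         (CovZ.subM 121416805764108066932466369176469931665150427440758720078238275608681517825325531136 (by decide +kernel)
          (CovZ.n1 (-15072, 12000) (by decide +kernel)
           (CovZ.n2 (-15072, 11904) (by decide +kernel)
            (CovZ.leaf K2_ok TB_l32837 _)
            (CovZ.n1 (-15024, 11952) (by decide +kernel)
             (CovZ.leaf K2_ok TB_l32838 _)
             (CovZ.leaf K2_ok TB_l32839 _)))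
           (CovZ.n1 (-15168, 12000) (by decide +kernel)
            (CovZ.leaf K2_ok TB_l32840 _)
            (CovZ.leaf K2_ok TB_l32841 _)))))
        (CovZ.n1 (-15360, 12096) (by decide +kernel)
         (CovZ.n2 (-15264, 12192) (by decide +kernel)
          (CovZ.n2 (-15264, 12096) (by decide +kernel)
           (CovZ.leaf K2_ok TB_l32842 _)
           (CovZ.leaf K2_ok TB_l32843 _))
          (CovZ.n1 (-15360, 12192) (by decide +kernel)
           (CovZ.leaf K2_ok TB_l32844 _)
           (CovZ.leaf K2_ok TB_l32845 _)))
         (CovZ.n1 (-15264, 12000) (by decide +kernel)
          (CovZ.n2 (-15360, 12000) (by decide +kernel)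
           (CovZ.leaf K2_ok TB_l32846 _)
           (CovZ.leaf K2_ok TB_l32847 _))
          (CovZ.n1 (-15264, 12096) (by decide +kernel)
           (CovZ.leaf K2_ok TB_l32848 _)
           (CovZ.n1 (-15312, 12048) (by decide +kernel)
            (CovZ.leaf K2_ok TB_l32849 _)
            (CovZ.leaf K2_ok TB_l32850 _))))))
       (CovZ.n1 (-15168, 11712) (by decide +kernel)
        (CovZ.n2 (-15360, 11712) (by decide +kernel)
         (CovZ.n2 (-15264, 11808) (by decide +kernel)
          (CovZ.n2 (-15264, 11712) (by decide +kernel)
           (CovZ.leaf K2_ok TB_l32851 _)
           (CovZ.leaf K2_ok TB_l32852 _))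
          (CovZ.n1 (-15360, 11808) (by decide +kernel)
           (CovZ.leaf K2_ok TB_l32853 _)
           (CovZ.leaf K2_ok TB_l32854 _)))
         (CovZ.n1 (-15264, 11616) (by decide +kernel)
          (CovZ.leaf K2_ok TB_l32855 _)
          (CovZ.n1 (-15264, 11712) (by decide +kernel)
           (CovZ.leaf K2_ok TB_l32856 _)
           (CovZ.leaf K2_ok TB_l32857 _))))
        (CovZ.n1 (-15168, 11904) (by decide +kernel)
         (CovZ.subM 121416805764108066932466369176469931665150427440758720078238275608681517825325531136 (by decide +kernel)
          (CovZ.n2 (-15072, 11808) (by decide +kernel)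
           (CovZ.n2 (-15168, 11808) (by decide +kernel)
            (CovZ.leaf K2_ok TB_l32858 _)
            (CovZ.leaf K2_ok TB_l32859 _))
           (CovZ.n1 (-15072, 11904) (by decide +kernel)
            (CovZ.n2 (-15024, 11856) (by decide +kernel)
             (CovZ.leaf K2_ok TB_l32860 _)
             (CovZ.leaf K2_ok TB_l32861 _))
            (CovZ.leaf K2_ok TB_l32862 _))))
         (CovZ.n1 (-15264, 11808) (by decide +kernel)
          (CovZ.n2 (-15264, 11904) (by decide +kernel)
           (CovZ.leaf K2_ok TB_l32863 _)
           (CovZ.leaf K2_ok TB_l32864 _))
          (CovZ.n1 (-15168, 11808) (by decide +kernel)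
           (CovZ.leaf K2_ok TB_l32865 _)
           (CovZ.leaf K2_ok TB_l32866 _)))))))

theorem TB_u310 : CovZ TB_M (toL (selN TB_LN 139984046386120720468216634582936548731194828722965691886645948403558068782921852091426764927092654120)) [0, 7, 6, 1] (-15360, 11520) (-15360, 10752) (-14592, 11520) :=
    (CovZ.n1 (-14976, 11136) (by decide +kernel)
      (CovZ.n2 (-15360, 11136) (by decide +kernel)
       (CovZ.n2 (-15168, 11328) (by decide +kernel)
        (CovZ.n2 (-15168, 11136) (by decide +kernel)
         (CovZ.n2 (-15264, 11232) (by decide +kernel)
          (CovZ.n2 (-15168, 11232) (by decide +kernel)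
           (CovZ.leaf K2_ok TB_l32867 _)
           (CovZ.leaf K2_ok TB_l32868 _))
          (CovZ.n1 (-15264, 11136) (by decide +kernel)
           (CovZ.leaf K2_ok TB_l32869 _)
           (CovZ.leaf K2_ok TB_l32870 _)))
         (CovZ.subM 28948022309329048855892746252171976963317496166410141009864396001978282409984 (by decide +kernel)
          (CovZ.n1 (-15072, 11232) (by decide +kernel)
           (CovZ.n2 (-15072, 11136) (by decide +kernel)
            (CovZ.n2 (-15120, 11184) (by decide +kernel)
             (CovZ.leaf K2_ok TB_l32871 _)
             (CovZ.leaf K2_ok TB_l32872 _))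
            (CovZ.badM (by decide +kernel)))
           (CovZ.n1 (-15168, 11232) (by decide +kernel)
            (CovZ.leaf K2_ok TB_l32875 _)
            (CovZ.leaf K2_ok TB_l32876 _)))))
        (CovZ.n1 (-15360, 11328) (by decide +kernel)
         (CovZ.n2 (-15264, 11424) (by decide +kernel)
          (CovZ.n2 (-15264, 11328) (by decide +kernel)
           (CovZ.leaf K2_ok TB_l32877 _)
           (CovZ.leaf K2_ok TB_l32878 _))
          (CovZ.leaf K2_ok TB_l32879 _))
         (CovZ.n1 (-15264, 11232) (by decide +kernel)
          (CovZ.leaf K2_ok TB_l32880 _)
          (CovZ.n1 (-15264, 11328) (by decide +kernel)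
           (CovZ.leaf K2_ok TB_l32881 _)
           (CovZ.leaf K2_ok TB_l32882 _)))))
       (CovZ.n1 (-15168, 10944) (by decide +kernel)
        (CovZ.n2 (-15360, 10944) (by decide +kernel)
         (CovZ.n2 (-15264, 11040) (by decide +kernel)
          (CovZ.n2 (-15264, 10944) (by decide +kernel)
           (CovZ.leaf K2_ok TB_l32883 _)
           (CovZ.leaf K2_ok TB_l32884 _))
          (CovZ.n1 (-15360, 11040) (by decide +kernel)
           (CovZ.leaf K2_ok TB_l32885 _)
           (CovZ.leaf K2_ok TB_l32886 _)))
         (CovZ.n1 (-15264, 10848) (by decide +kernel)
          (CovZ.leaf K2_ok TB_l32887 _)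
          (CovZ.n1 (-15264, 10944) (by decide +kernel)
           (CovZ.leaf K2_ok TB_l32888 _)
           (CovZ.leaf K2_ok TB_l32889 _))))
        (CovZ.n1 (-15168, 11136) (by decide +kernel)
         (CovZ.subM 28948022309329048855892746252171976963317496166410141009864396001978282409984 (by decide +kernel)
          (CovZ.n2 (-15072, 11040) (by decide +kernel)
           (CovZ.n2 (-15168, 11040) (by decide +kernel)
            (CovZ.n2 (-15120, 11088) (by decide +kernel)
             (CovZ.leaf K2_ok TB_l32890 _)
             (CovZ.leaf K2_ok TB_l32891 _))
            (CovZ.leaf K2_ok TB_l32892 _))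
           (CovZ.n1 (-15072, 11136) (by decide +kernel)
            (CovZ.n2 (-15024, 11088) (by decide +kernel)
             (CovZ.leaf K2_ok TB_l32893 _)
             (CovZ.badM (by decide +kernel)))
            (CovZ.leaf K2_ok TB_l32896 _))))
         (CovZ.n1 (-15264, 11040) (by decide +kernel)
          (CovZ.n2 (-15264, 11136) (by decide +kernel)
           (CovZ.leaf K2_ok TB_l32897 _)
           (CovZ.leaf K2_ok TB_l32898 _))
          (CovZ.n1 (-15168, 11040) (by decide +kernel)
           (CovZ.leaf K2_ok TB_l32899 _)
           (CovZ.leaf K2_ok TB_l32900 _))))))
      (CovZ.n1 (-14976, 11520) (by decide +kernel)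
       (CovZ.subM 121416805764108066932466369176469931665150427440758720078238275608681517825325531136 (by decide +kernel)
        (CovZ.n2 (-14784, 11328) (by decide +kernel)
         (CovZ.n2 (-14976, 11328) (by decide +kernel)
          (CovZ.n2 (-14880, 11424) (by decide +kernel)
           (CovZ.n2 (-14880, 11328) (by decide +kernel)
            (CovZ.n2 (-14928, 11376) (by decide +kernel)
             (CovZ.leaf K2_ok TB_l32901 _)
             (CovZ.n1 (-14928, 11328) (by decide +kernel)
              (CovZ.leaf K2_ok TB_l32902 _)
              (CovZ.leaf K2_ok TB_l32903 _)))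
            (CovZ.n1 (-14832, 11376) (by decide +kernel)
             (CovZ.n2 (-14832, 11328) (by decide +kernel)
              (CovZ.leaf K2_ok TB_l32904 _)
              (CovZ.leaf K2_ok TB_l32905 _))
             (CovZ.leaf K2_ok TB_l32906 _)))
           (CovZ.n1 (-14976, 11424) (by decide +kernel)
            (CovZ.n2 (-14928, 11472) (by decide +kernel)
             (CovZ.n2 (-14928, 11424) (by decide +kernel)
              (CovZ.leaf K2_ok TB_l32907 _)
              (CovZ.leaf K2_ok TB_l32908 _))
             (CovZ.leaf K2_ok TB_l32909 _))
            (CovZ.n1 (-14928, 11376) (by decide +kernel)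
             (CovZ.n2 (-14976, 11376) (by decide +kernel)
              (CovZ.leaf K2_ok TB_l32910 _)
              (CovZ.leaf K2_ok TB_l32911 _))
             (CovZ.leaf K2_ok TB_l32912 _))))
          (CovZ.n1 (-14880, 11232) (by decide +kernel)
           (CovZ.badM (by decide +kernel))
           (CovZ.n1 (-14880, 11328) (by decide +kernel)
            (CovZ.n2 (-14832, 11280) (by decide +kernel)
             (CovZ.badM (by decide +kernel))
             (CovZ.n1 (-14832, 11328) (by decide +kernel)
              (CovZ.leaf K2_ok TB_l32918 _)
              (CovZ.leaf K2_ok TB_l32919 _)))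
            (CovZ.badM (by decide +kernel)))))
         (CovZ.n1 (-14784, 11520) (by decide +kernel)
          (CovZ.n2 (-14688, 11424) (by decide +kernel)
           (CovZ.n2 (-14784, 11424) (by decide +kernel)
            (CovZ.n2 (-14736, 11472) (by decide +kernel)
             (CovZ.n2 (-14736, 11424) (by decide +kernel)
              (CovZ.leaf K2_ok TB_l32922 _)
              (CovZ.leaf K2_ok TB_l32923 _))
             (CovZ.n1 (-14784, 11472) (by decide +kernel)
              (CovZ.leaf K2_ok TB_l32924 _)
              (CovZ.leaf K2_ok TB_l32925 _)))
            (CovZ.n1 (-14736, 11376) (by decide +kernel)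
             (CovZ.n2 (-14784, 11376) (by decide +kernel)
              (CovZ.leaf K2_ok TB_l32926 _)
              (CovZ.n1 (-14760, 11352) (by decide +kernel)
               (CovZ.leaf K2_ok TB_l32927 _)
               (CovZ.leaf K2_ok TB_l32928 _)))
             (CovZ.n1 (-14736, 11424) (by decide +kernel)
              (CovZ.n2 (-14712, 11400) (by decide +kernel)
               (CovZ.leaf K2_ok TB_l32929 _)
               (CovZ.leaf K2_ok TB_l32930 _))
              (CovZ.leaf K2_ok TB_l32931 _))))
           (CovZ.n1 (-14688, 11520) (by decide +kernel)
            (CovZ.badM (by decide +kernel))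
            (CovZ.n1 (-14736, 11472) (by decide +kernel)
             (CovZ.n2 (-14736, 11520) (by decide +kernel)
              (CovZ.n2 (-14712, 11496) (by decide +kernel)
               (CovZ.leaf K2_ok TB_l32932 _)
               (CovZ.badM (by decide +kernel)))
              (CovZ.leaf K2_ok TB_l32934 _))
             (CovZ.n1 (-14688, 11472) (by decide +kernel)
              (CovZ.leaf K2_ok TB_l32935 _)
              (CovZ.leaf K2_ok TB_l32936 _)))))
          (CovZ.n1 (-14880, 11424) (by decide +kernel)
           (CovZ.n2 (-14880, 11520) (by decide +kernel)
            (CovZ.n2 (-14832, 11472) (by decide +kernel)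
             (CovZ.leaf K2_ok TB_l32937 _)
             (CovZ.n1 (-14832, 11520) (by decide +kernel)
              (CovZ.leaf K2_ok TB_l32938 _)
              (CovZ.leaf K2_ok TB_l32939 _)))
            (CovZ.n1 (-14928, 11472) (by decide +kernel)
             (CovZ.n2 (-14928, 11520) (by decide +kernel)
              (CovZ.leaf K2_ok TB_l32940 _)
              (CovZ.leaf K2_ok TB_l32941 _))
             (CovZ.leaf K2_ok TB_l32942 _)))
           (CovZ.n1 (-14784, 11424) (by decide +kernel)
            (CovZ.n2 (-14832, 11376) (by decide +kernel)
             (CovZ.n2 (-14832, 11424) (by decide +kernel)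
              (CovZ.leaf K2_ok TB_l32943 _)
              (CovZ.leaf K2_ok TB_l32944 _))
             (CovZ.leaf K2_ok TB_l32945 _))
            (CovZ.n1 (-14832, 11472) (by decide +kernel)
             (CovZ.n2 (-14784, 11472) (by decide +kernel)
              (CovZ.leaf K2_ok TB_l32946 _)
              (CovZ.leaf K2_ok TB_l32947 _))
             (CovZ.n1 (-14832, 11424) (by decide +kernel)
              (CovZ.leaf K2_ok TB_l32948 _)
              (CovZ.leaf K2_ok TB_l32949 _))))))))
       (CovZ.n1 (-15168, 11328) (by decide +kernel)
        (CovZ.n2 (-15168, 11520) (by decide +kernel)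
         (CovZ.subM 121416805764108066932466369176469931665150427440758720078238275608681517825325531136 (by decide +kernel)
          (CovZ.n2 (-15072, 11424) (by decide +kernel)
           (CovZ.n2 (-15168, 11424) (by decide +kernel)
            (CovZ.leaf K2_ok TB_l32950 _)
            (CovZ.badM (by decide +kernel)))
           (CovZ.n1 (-15072, 11520) (by decide +kernel)
            (CovZ.n2 (-15024, 11472) (by decide +kernel)
             (CovZ.leaf K2_ok TB_l32952 _)
             (CovZ.leaf K2_ok TB_l32953 _))
            (CovZ.n1 (-15120, 11472) (by decide +kernel)
             (CovZ.leaf K2_ok TB_l32954 _)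
             (CovZ.leaf K2_ok TB_l32955 _)))))
         (CovZ.n1 (-15264, 11424) (by decide +kernel)
          (CovZ.n2 (-15264, 11520) (by decide +kernel)
           (CovZ.leaf K2_ok TB_l32956 _)
           (CovZ.leaf K2_ok TB_l32957 _))
          (CovZ.n1 (-15168, 11424) (by decide +kernel)
           (CovZ.leaf K2_ok TB_l32958 _)
           (CovZ.leaf K2_ok TB_l32959 _))))
        (CovZ.subM 121416805764108066932466369176469931665150427440758720078238275608681517825325531136 (by decide +kernel)
         (CovZ.n1 (-14976, 11328) (by decide +kernel)
          (CovZ.badM (by decide +kernel))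
          (CovZ.n1 (-15072, 11424) (by decide +kernel)
           (CovZ.n2 (-14976, 11424) (by decide +kernel)
            (CovZ.n2 (-15024, 11376) (by decide +kernel)
             (CovZ.leaf K2_ok TB_l32967 _)
             (CovZ.leaf K2_ok TB_l32968 _))
            (CovZ.n1 (-15024, 11472) (by decide +kernel)
             (CovZ.leaf K2_ok TB_l32969 _)
             (CovZ.leaf K2_ok TB_l32970 _)))
           (CovZ.badM (by decide +kernel))))))))

theorem TB_u311 : CovZ TB_M (toL (selN TB_LN 19701079499366619114949045631819295023783698566064412978314634741273673203341928957118146096240939957104686139445288)) [0, 7, 6, 1] (-15360, 13824) (-16128, 13056) (-15360, 12288) :=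
    (CovZ.subM 139984047429083140351480986807990231001182434388267213056078086489100726765834634314686567470426230824 (by decide +kernel)
     (CovZ.n2 (-15360, 13056) (by decide +kernel)
      (CovZ.n2 (-15744, 12672) (by decide +kernel)
       (CovZ.n2 (-15744, 13056) (by decide +kernel)
        (CovZ.subM 139984046386120720468224074224670046296750793158752313012515942644499471070537116476391790850806382632 (by decide +kernel)
         (CovZ.n2 (-15552, 12864) (by decide +kernel)
          (CovZ.n2 (-15744, 12864) (by decide +kernel)
           (CovZ.n2 (-15648, 12960) (by decide +kernel)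
            (CovZ.n2 (-15648, 12864) (by decide +kernel)
             (CovZ.leaf K2_ok TB_l25398 _)
             (CovZ.leaf K2_ok TB_l25399 _))
            (CovZ.leaf K2_ok TB_l25400 _))
           (CovZ.n1 (-15648, 12768) (by decide +kernel)
            (CovZ.leaf K2_ok TB_l25401 _)
            (CovZ.n1 (-15648, 12864) (by decide +kernel)
             (CovZ.leaf K2_ok TB_l25402 _)
             (CovZ.leaf K2_ok TB_l25403 _))))
          (CovZ.n1 (-15552, 13056) (by decide +kernel)
           (CovZ.n2 (-15456, 12960) (by decide +kernel)
            (CovZ.leaf K2_ok TB_l25404 _)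
            (CovZ.n1 (-15456, 13056) (by decide +kernel)
             (CovZ.leaf K2_ok TB_l25405 _)
             (CovZ.leaf K2_ok TB_l25406 _)))
           (CovZ.n1 (-15648, 12960) (by decide +kernel)
            (CovZ.n2 (-15648, 13056) (by decide +kernel)
             (CovZ.leaf K2_ok TB_l25407 _)
             (CovZ.leaf K2_ok TB_l25408 _))
            (CovZ.leaf K2_ok TB_l25409 _)))))
        (CovZ.n1 (-15936, 12864) (by decide +kernel)
         (CovZ.n2 (-15936, 13056) (by decide +kernel)
          (CovZ.n2 (-15840, 12960) (by decide +kernel)
           (CovZ.leaf K2_ok TB_l25410 _)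
           (CovZ.n1 (-15840, 13056) (by decide +kernel)
            (CovZ.leaf K2_ok TB_l25411 _)
            (CovZ.leaf K2_ok TB_l25412 _)))
          (CovZ.n1 (-16032, 12960) (by decide +kernel)
           (CovZ.n2 (-16032, 13056) (by decide +kernel)
            (CovZ.leaf K2_ok TB_l25413 _)
            (CovZ.leaf K2_ok TB_l25414 _))
           (CovZ.leaf K2_ok TB_l25415 _)))
         (CovZ.n1 (-15744, 12864) (by decide +kernel)
          (CovZ.n2 (-15840, 12768) (by decide +kernel)
           (CovZ.n2 (-15840, 12864) (by decide +kernel)
            (CovZ.leaf K2_ok TB_l25416 _)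
            (CovZ.leaf K2_ok TB_l25417 _))
           (CovZ.leaf K2_ok TB_l25418 _))
          (CovZ.n1 (-15840, 12960) (by decide +kernel)
           (CovZ.leaf K2_ok TB_l25419 _)
           (CovZ.n1 (-15840, 12864) (by decide +kernel)
            (CovZ.leaf K2_ok TB_l25420 _)
            (CovZ.leaf K2_ok TB_l25421 _))))))
       (CovZ.subM 139984046386120720468224074224670046296750793158752313012515942644499471070537116476391790850806382632 (by decide +kernel)
        (CovZ.n1 (-15360, 12672) (by decide +kernel)
         (CovZ.n2 (-15552, 12480) (by decide +kernel)
          (CovZ.n2 (-15552, 12672) (by decide +kernel)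
           (CovZ.n2 (-15456, 12576) (by decide +kernel)
            (CovZ.leaf K2_ok TB_l25422 _)
            (CovZ.n1 (-15456, 12672) (by decide +kernel)
             (CovZ.leaf K2_ok TB_l25423 _)
             (CovZ.leaf K2_ok TB_l25424 _)))
           (CovZ.n1 (-15648, 12576) (by decide +kernel)
            (CovZ.n2 (-15648, 12672) (by decide +kernel)
             (CovZ.leaf K2_ok TB_l25425 _)
             (CovZ.leaf K2_ok TB_l25426 _))
            (CovZ.leaf K2_ok TB_l25427 _)))
          (CovZ.n1 (-15360, 12480) (by decide +kernel)
           (CovZ.n2 (-15456, 12384) (by decide +kernel)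
            (CovZ.n2 (-15456, 12480) (by decide +kernel)
             (CovZ.leaf K2_ok TB_l25428 _)
             (CovZ.leaf K2_ok TB_l25429 _))
            (CovZ.leaf K2_ok TB_l25430 _))
           (CovZ.n1 (-15456, 12576) (by decide +kernel)
            (CovZ.leaf K2_ok TB_l25431 _)
            (CovZ.n1 (-15456, 12480) (by decide +kernel)
             (CovZ.leaf K2_ok TB_l25432 _)
             (CovZ.leaf K2_ok TB_l25433 _)))))
         (CovZ.n1 (-15552, 12864) (by decide +kernel)
          (CovZ.n2 (-15360, 12864) (by decide +kernel)
           (CovZ.n2 (-15456, 12768) (by decide +kernel)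
            (CovZ.n2 (-15456, 12864) (by decide +kernel)
             (CovZ.leaf K2_ok TB_l25434 _)
             (CovZ.leaf K2_ok TB_l25435 _))
            (CovZ.leaf K2_ok TB_l25436 _))
           (CovZ.n1 (-15456, 12960) (by decide +kernel)
            (CovZ.leaf K2_ok TB_l25437 _)
            (CovZ.n1 (-15456, 12864) (by decide +kernel)
             (CovZ.leaf K2_ok TB_l25438 _)
             (CovZ.leaf K2_ok TB_l25439 _))))
          (CovZ.n1 (-15552, 12672) (by decide +kernel)
           (CovZ.n2 (-15648, 12768) (by decide +kernel)
            (CovZ.leaf K2_ok TB_l25440 _)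
            (CovZ.n1 (-15648, 12672) (by decide +kernel)
             (CovZ.leaf K2_ok TB_l25441 _)
             (CovZ.leaf K2_ok TB_l25442 _)))
           (CovZ.n1 (-15456, 12768) (by decide +kernel)
            (CovZ.n2 (-15456, 12672) (by decide +kernel)
             (CovZ.leaf K2_ok TB_l25443 _)
             (CovZ.leaf K2_ok TB_l25444 _))
            (CovZ.leaf K2_ok TB_l25445 _)))))))
      (CovZ.n1 (-15744, 13440) (by decide +kernel)
       (CovZ.subM 139984046386120720346807268432292426327830274708949621335478818950501028924389056179613652683325440040 (by decide +kernel)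
        (CovZ.n2 (-15360, 13440) (by decide +kernel)
         (CovZ.n2 (-15552, 13248) (by decide +kernel)
          (CovZ.n2 (-15552, 13440) (by decide +kernel)
           (CovZ.n2 (-15456, 13344) (by decide +kernel)
            (CovZ.leaf K2_ok TB_l25446 _)
            (CovZ.n1 (-15456, 13440) (by decide +kernel)
             (CovZ.leaf K2_ok TB_l25447 _)
             (CovZ.leaf K2_ok TB_l25448 _)))
           (CovZ.n1 (-15648, 13344) (by decide +kernel)
            (CovZ.n2 (-15648, 13440) (by decide +kernel)
             (CovZ.leaf K2_ok TB_l25449 _)
             (CovZ.leaf K2_ok TB_l25450 _))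
            (CovZ.leaf K2_ok TB_l25451 _)))
          (CovZ.n1 (-15360, 13248) (by decide +kernel)
           (CovZ.n2 (-15456, 13152) (by decide +kernel)
            (CovZ.n2 (-15456, 13248) (by decide +kernel)
             (CovZ.leaf K2_ok TB_l25452 _)
             (CovZ.leaf K2_ok TB_l25453 _))
            (CovZ.leaf K2_ok TB_l25454 _))
           (CovZ.n1 (-15456, 13344) (by decide +kernel)
            (CovZ.leaf K2_ok TB_l25455 _)
            (CovZ.n1 (-15456, 13248) (by decide +kernel)
             (CovZ.leaf K2_ok TB_l25456 _)
             (CovZ.leaf K2_ok TB_l25457 _)))))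
         (CovZ.n1 (-15552, 13632) (by decide +kernel)
          (CovZ.n2 (-15360, 13632) (by decide +kernel)
           (CovZ.n2 (-15456, 13536) (by decide +kernel)
            (CovZ.n2 (-15456, 13632) (by decide +kernel)
             (CovZ.leaf K2_ok TB_l25458 _)
             (CovZ.leaf K2_ok TB_l25459 _))
            (CovZ.leaf K2_ok TB_l25460 _))
           (CovZ.n1 (-15456, 13728) (by decide +kernel)
            (CovZ.subM 139984046386112763175017243256041277434157807205777041479416660658532429497126010350165223601787109384 (by decide +kernel)
             (CovZ.n2 (-15360, 13728) (by decide +kernel)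
              (CovZ.leaf K2_ok TB_l25461 _)
              (CovZ.n1 (-15408, 13776) (by decide +kernel)
               (CovZ.n2 (-15360, 13776) (by decide +kernel)
                (CovZ.leaf K2_ok TB_l25462 _)
                (CovZ.n1 (-15384, 13800) (by decide +kernel)
                 (CovZ.leaf K2_ok TB_l25463 _)
                 (CovZ.leaf K2_ok TB_l25464 _)))
               (CovZ.leaf K2_ok TB_l25465 _))))
            (CovZ.n1 (-15456, 13632) (by decide +kernel)
             (CovZ.leaf K2_ok TB_l25466 _)
             (CovZ.leaf K2_ok TB_l25467 _))))
          (CovZ.n1 (-15552, 13440) (by decide +kernel)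
           (CovZ.n2 (-15648, 13536) (by decide +kernel)
            (CovZ.leaf K2_ok TB_l25468 _)
            (CovZ.n1 (-15648, 13440) (by decide +kernel)
             (CovZ.leaf K2_ok TB_l25469 _)
             (CovZ.leaf K2_ok TB_l25470 _)))
           (CovZ.n1 (-15456, 13536) (by decide +kernel)
            (CovZ.n2 (-15456, 13440) (by decide +kernel)
             (CovZ.leaf K2_ok TB_l25471 _)
             (CovZ.leaf K2_ok TB_l25472 _))
            (CovZ.leaf K2_ok TB_l25473 _))))))
       (CovZ.n1 (-15744, 13056) (by decide +kernel)
        (CovZ.n2 (-15936, 13248) (by decide +kernel)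
         (CovZ.subM 139984046386120720468224074224670046296750793158752313012515942644499491352946720128062215347813486632 (by decide +kernel)
          (CovZ.n2 (-15744, 13248) (by decide +kernel)
           (CovZ.n2 (-15840, 13152) (by decide +kernel)
            (CovZ.n2 (-15840, 13248) (by decide +kernel)
             (CovZ.leaf K2_ok TB_l25474 _)
             (CovZ.leaf K2_ok TB_l25475 _))
            (CovZ.leaf K2_ok TB_l25476 _))
           (CovZ.n1 (-15840, 13344) (by decide +kernel)
            (CovZ.leaf K2_ok TB_l25477 _)
            (CovZ.n1 (-15840, 13248) (by decide +kernel)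
             (CovZ.leaf K2_ok TB_l25478 _)
             (CovZ.leaf K2_ok TB_l25479 _)))))
         (CovZ.n1 (-15936, 13056) (by decide +kernel)
          (CovZ.n2 (-16032, 13152) (by decide +kernel)
           (CovZ.leaf K2_ok TB_l25480 _)
           (CovZ.n1 (-16032, 13056) (by decide +kernel)
            (CovZ.leaf K2_ok TB_l25481 _)
            (CovZ.leaf K2_ok TB_l25482 _)))
          (CovZ.n1 (-15840, 13152) (by decide +kernel)
           (CovZ.n2 (-15840, 13056) (by decide +kernel)
            (CovZ.leaf K2_ok TB_l25483 _)
            (CovZ.leaf K2_ok TB_l25484 _))
           (CovZ.leaf K2_ok TB_l25485 _))))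
        (CovZ.subM 139984046386120720346807268460561979364284423982282381347365515203740771274708444519380696972732137512 (by decide +kernel)
         (CovZ.n1 (-15552, 13248) (by decide +kernel)
          (CovZ.n2 (-15552, 13056) (by decide +kernel)
           (CovZ.n2 (-15648, 13152) (by decide +kernel)
            (CovZ.leaf K2_ok TB_l25486 _)
            (CovZ.n1 (-15648, 13056) (by decide +kernel)
             (CovZ.leaf K2_ok TB_l25487 _)
             (CovZ.leaf K2_ok TB_l25488 _)))
           (CovZ.n1 (-15456, 13152) (by decide +kernel)
            (CovZ.n2 (-15456, 13056) (by decide +kernel)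
             (CovZ.leaf K2_ok TB_l25489 _)
             (CovZ.leaf K2_ok TB_l25490 _))
            (CovZ.leaf K2_ok TB_l25491 _)))
          (CovZ.n1 (-15744, 13248) (by decide +kernel)
           (CovZ.n2 (-15648, 13344) (by decide +kernel)
            (CovZ.n2 (-15648, 13248) (by decide +kernel)
             (CovZ.leaf K2_ok TB_l25492 _)
             (CovZ.leaf K2_ok TB_l25493 _))
            (CovZ.leaf K2_ok TB_l25494 _))
           (CovZ.n1 (-15648, 13152) (by decide +kernel)
            (CovZ.leaf K2_ok TB_l25495 _)
            (CovZ.n1 (-15648, 13248) (by decide +kernel)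
             (CovZ.leaf K2_ok TB_l25496 _)
             (CovZ.leaf K2_ok TB_l25497 _))))))))))

theorem TB_u312 : CovZ TB_M (toL (selN TB_LN 19701079499366619114949045631819295023783698566064412978314634741273673203341928957118146096240939957104686139445288)) [0, 7, 6, 1] (-16128, 13056) (-16896, 12288) (-15360, 12288) :=
    (CovZ.n1 (-16128, 12288) (by decide +kernel)
     (CovZ.n2 (-16512, 12672) (by decide +kernel)
      (CovZ.n2 (-16128, 12672) (by decide +kernel)
       (CovZ.n2 (-16320, 12480) (by decide +kernel)
        (CovZ.n2 (-16320, 12672) (by decide +kernel)
         (CovZ.n2 (-16224, 12576) (by decide +kernel)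
          (CovZ.leaf K2_ok TB_l25498 _)
          (CovZ.n1 (-16224, 12672) (by decide +kernel)
           (CovZ.leaf K2_ok TB_l25499 _)
           (CovZ.leaf K2_ok TB_l25500 _)))
         (CovZ.n1 (-16416, 12576) (by decide +kernel)
          (CovZ.n2 (-16416, 12672) (by decide +kernel)
           (CovZ.leaf K2_ok TB_l25501 _)
           (CovZ.leaf K2_ok TB_l25502 _))
          (CovZ.leaf K2_ok TB_l25503 _)))
        (CovZ.n1 (-16128, 12480) (by decide +kernel)
         (CovZ.n2 (-16224, 12384) (by decide +kernel)
          (CovZ.n2 (-16224, 12480) (by decide +kernel)
           (CovZ.leaf K2_ok TB_l25504 _)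
           (CovZ.leaf K2_ok TB_l25505 _))
          (CovZ.leaf K2_ok TB_l25506 _))
         (CovZ.n1 (-16224, 12576) (by decide +kernel)
          (CovZ.leaf K2_ok TB_l25507 _)
          (CovZ.n1 (-16224, 12480) (by decide +kernel)
           (CovZ.leaf K2_ok TB_l25508 _)
           (CovZ.leaf K2_ok TB_l25509 _)))))
       (CovZ.n1 (-16320, 12864) (by decide +kernel)
        (CovZ.n2 (-16128, 12864) (by decide +kernel)
         (CovZ.n2 (-16224, 12768) (by decide +kernel)
          (CovZ.n2 (-16224, 12864) (by decide +kernel)
           (CovZ.leaf K2_ok TB_l25510 _)
           (CovZ.leaf K2_ok TB_l25511 _))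
          (CovZ.leaf K2_ok TB_l25512 _))
         (CovZ.n1 (-16224, 12960) (by decide +kernel)
          (CovZ.leaf K2_ok TB_l25513 _)
          (CovZ.n1 (-16224, 12864) (by decide +kernel)
           (CovZ.leaf K2_ok TB_l25514 _)
           (CovZ.leaf K2_ok TB_l25515 _))))
        (CovZ.n1 (-16320, 12672) (by decide +kernel)
         (CovZ.n2 (-16416, 12768) (by decide +kernel)
          (CovZ.leaf K2_ok TB_l25516 _)
          (CovZ.n1 (-16416, 12672) (by decide +kernel)
           (CovZ.leaf K2_ok TB_l25517 _)
           (CovZ.leaf K2_ok TB_l25518 _)))
         (CovZ.n1 (-16224, 12768) (by decide +kernel)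
          (CovZ.n2 (-16224, 12672) (by decide +kernel)
           (CovZ.leaf K2_ok TB_l25519 _)
           (CovZ.leaf K2_ok TB_l25520 _))
          (CovZ.leaf K2_ok TB_l25521 _)))))
      (CovZ.n1 (-16512, 12288) (by decide +kernel)
       (CovZ.n2 (-16704, 12480) (by decide +kernel)
        (CovZ.n2 (-16512, 12480) (by decide +kernel)
         (CovZ.n2 (-16608, 12384) (by decide +kernel)
          (CovZ.n2 (-16608, 12480) (by decide +kernel)
           (CovZ.leaf K2_ok TB_l25522 _)
           (CovZ.leaf K2_ok TB_l25523 _))
          (CovZ.leaf K2_ok TB_l25524 _))
         (CovZ.n1 (-16608, 12576) (by decide +kernel)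
          (CovZ.leaf K2_ok TB_l25525 _)
          (CovZ.n1 (-16608, 12480) (by decide +kernel)
           (CovZ.leaf K2_ok TB_l25526 _)
           (CovZ.leaf K2_ok TB_l25527 _))))
        (CovZ.n1 (-16704, 12288) (by decide +kernel)
         (CovZ.n2 (-16800, 12384) (by decide +kernel)
          (CovZ.leaf K2_ok TB_l25528 _)
          (CovZ.leaf K2_ok TB_l25529 _))
         (CovZ.n1 (-16608, 12384) (by decide +kernel)
          (CovZ.n2 (-16608, 12288) (by decide +kernel)
           (CovZ.leaf K2_ok TB_l25530 _)
           (CovZ.leaf K2_ok TB_l25531 _))
          (CovZ.leaf K2_ok TB_l25532 _))))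
       (CovZ.n1 (-16320, 12480) (by decide +kernel)
        (CovZ.n2 (-16320, 12288) (by decide +kernel)
         (CovZ.n2 (-16416, 12384) (by decide +kernel)
          (CovZ.leaf K2_ok TB_l25533 _)
          (CovZ.n1 (-16416, 12288) (by decide +kernel)
           (CovZ.leaf K2_ok TB_l25534 _)
           (CovZ.leaf K2_ok TB_l25535 _)))
         (CovZ.n1 (-16224, 12384) (by decide +kernel)
          (CovZ.n2 (-16224, 12288) (by decide +kernel)
           (CovZ.leaf K2_ok TB_l25536 _)
           (CovZ.leaf K2_ok TB_l25537 _))
          (CovZ.leaf K2_ok TB_l25538 _)))
        (CovZ.n1 (-16512, 12480) (by decide +kernel)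
         (CovZ.n2 (-16416, 12576) (by decide +kernel)
          (CovZ.n2 (-16416, 12480) (by decide +kernel)
           (CovZ.leaf K2_ok TB_l25539 _)
           (CovZ.leaf K2_ok TB_l25540 _))
          (CovZ.leaf K2_ok TB_l25541 _))
         (CovZ.n1 (-16416, 12384) (by decide +kernel)
          (CovZ.leaf K2_ok TB_l25542 _)
          (CovZ.n1 (-16416, 12480) (by decide +kernel)
           (CovZ.leaf K2_ok TB_l25543 _)
           (CovZ.leaf K2_ok TB_l25544 _)))))))
     (CovZ.subM 75153362788746710721546519691573383212228206431181408603840387475409630174285637113149591259294064575260921896 (by decide +kernel)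
      (CovZ.n1 (-15744, 12672) (by decide +kernel)
       (CovZ.n2 (-15744, 12288) (by decide +kernel)
        (CovZ.n2 (-15936, 12480) (by decide +kernel)
         (CovZ.n2 (-15744, 12480) (by decide +kernel)
          (CovZ.n2 (-15840, 12384) (by decide +kernel)
           (CovZ.n2 (-15840, 12480) (by decide +kernel)
            (CovZ.leaf K2_ok TB_l25545 _)
            (CovZ.leaf K2_ok TB_l25546 _))
           (CovZ.leaf K2_ok TB_l25547 _))
          (CovZ.n1 (-15840, 12576) (by decide +kernel)
           (CovZ.leaf K2_ok TB_l25548 _)
           (CovZ.n1 (-15840, 12480) (by decide +kernel)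
            (CovZ.leaf K2_ok TB_l25549 _)
            (CovZ.leaf K2_ok TB_l25550 _))))
         (CovZ.n1 (-15936, 12288) (by decide +kernel)
          (CovZ.n2 (-16032, 12384) (by decide +kernel)
           (CovZ.leaf K2_ok TB_l25551 _)
           (CovZ.n1 (-16032, 12288) (by decide +kernel)
            (CovZ.leaf K2_ok TB_l25552 _)
            (CovZ.leaf K2_ok TB_l25553 _)))
          (CovZ.n1 (-15840, 12384) (by decide +kernel)
           (CovZ.n2 (-15840, 12288) (by decide +kernel)
            (CovZ.leaf K2_ok TB_l25554 _)
            (CovZ.leaf K2_ok TB_l25555 _))
           (CovZ.leaf K2_ok TB_l25556 _))))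
        (CovZ.subM 139984047429083140351480979342136548091401267509850569813661844643273077621779939503842702354353750056 (by decide +kernel)
         (CovZ.n1 (-15552, 12480) (by decide +kernel)
          (CovZ.n2 (-15552, 12288) (by decide +kernel)
           (CovZ.n2 (-15648, 12384) (by decide +kernel)
            (CovZ.leaf K2_ok TB_l25557 _)
            (CovZ.n1 (-15648, 12288) (by decide +kernel)
             (CovZ.leaf K2_ok TB_l25558 _)
             (CovZ.leaf K2_ok TB_l25559 _)))
           (CovZ.n1 (-15456, 12384) (by decide +kernel)
            (CovZ.n2 (-15456, 12288) (by decide +kernel)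
             (CovZ.leaf K2_ok TB_l25560 _)
             (CovZ.leaf K2_ok TB_l25561 _))
            (CovZ.leaf K2_ok TB_l25562 _)))
          (CovZ.n1 (-15744, 12480) (by decide +kernel)
           (CovZ.n2 (-15648, 12576) (by decide +kernel)
            (CovZ.n2 (-15648, 12480) (by decide +kernel)
             (CovZ.leaf K2_ok TB_l25563 _)
             (CovZ.leaf K2_ok TB_l25564 _))
            (CovZ.leaf K2_ok TB_l25565 _))
           (CovZ.n1 (-15648, 12384) (by decide +kernel)
            (CovZ.leaf K2_ok TB_l25566 _)
            (CovZ.n1 (-15648, 12480) (by decide +kernel)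
             (CovZ.leaf K2_ok TB_l25567 _)
             (CovZ.leaf K2_ok TB_l25568 _)))))))
       (CovZ.n1 (-16128, 12672) (by decide +kernel)
        (CovZ.n2 (-15936, 12864) (by decide +kernel)
         (CovZ.n2 (-15936, 12672) (by decide +kernel)
          (CovZ.n2 (-16032, 12768) (by decide +kernel)
           (CovZ.leaf K2_ok TB_l25569 _)
           (CovZ.n1 (-16032, 12672) (by decide +kernel)
            (CovZ.leaf K2_ok TB_l25570 _)
            (CovZ.leaf K2_ok TB_l25571 _)))
          (CovZ.n1 (-15840, 12768) (by decide +kernel)
           (CovZ.n2 (-15840, 12672) (by decide +kernel)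
            (CovZ.leaf K2_ok TB_l25572 _)
            (CovZ.leaf K2_ok TB_l25573 _))
           (CovZ.leaf K2_ok TB_l25574 _)))
         (CovZ.n1 (-16128, 12864) (by decide +kernel)
          (CovZ.n2 (-16032, 12960) (by decide +kernel)
           (CovZ.n2 (-16032, 12864) (by decide +kernel)
            (CovZ.leaf K2_ok TB_l25575 _)
            (CovZ.leaf K2_ok TB_l25576 _))
           (CovZ.leaf K2_ok TB_l25577 _))
          (CovZ.n1 (-16032, 12768) (by decide +kernel)
           (CovZ.leaf K2_ok TB_l25578 _)
           (CovZ.n1 (-16032, 12864) (by decide +kernel)
            (CovZ.leaf K2_ok TB_l25579 _)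
            (CovZ.leaf K2_ok TB_l25580 _)))))
        (CovZ.n1 (-15936, 12480) (by decide +kernel)
         (CovZ.n2 (-16128, 12480) (by decide +kernel)
          (CovZ.n2 (-16032, 12576) (by decide +kernel)
           (CovZ.n2 (-16032, 12480) (by decide +kernel)
            (CovZ.leaf K2_ok TB_l25581 _)
            (CovZ.leaf K2_ok TB_l25582 _))
           (CovZ.leaf K2_ok TB_l25583 _))
          (CovZ.n1 (-16032, 12384) (by decide +kernel)
           (CovZ.leaf K2_ok TB_l25584 _)
           (CovZ.n1 (-16032, 12480) (by decide +kernel)
            (CovZ.leaf K2_ok TB_l25585 _)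
            (CovZ.leaf K2_ok TB_l25586 _))))
         (CovZ.n1 (-15936, 12672) (by decide +kernel)
          (CovZ.n2 (-15840, 12576) (by decide +kernel)
           (CovZ.leaf K2_ok TB_l25587 _)
           (CovZ.n1 (-15840, 12672) (by decide +kernel)
            (CovZ.leaf K2_ok TB_l25588 _)
            (CovZ.leaf K2_ok TB_l25589 _)))
          (CovZ.n1 (-16032, 12576) (by decide +kernel)
           (CovZ.n2 (-16032, 12672) (by decide +kernel)
            (CovZ.leaf K2_ok TB_l25590 _)
            (CovZ.leaf K2_ok TB_l25591 _))
           (CovZ.leaf K2_ok TB_l25592 _))))))))

theorem TB_u313 : CovZ TB_M (toL (selN TB_LN 1322111957946533659198789398409704005029340062823006058538247086442146959744810907193757183529337258702468606413766588895272)) [0, 7, 6, 1] (-16896, 12288) (-16128, 13056) (-16896, 13824) :=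
    (CovZ.n2 (-16896, 13056) (by decide +kernel)
     (CovZ.n2 (-16512, 13440) (by decide +kernel)
      (CovZ.n2 (-16512, 13056) (by decide +kernel)
       (CovZ.n2 (-16704, 13248) (by decide +kernel)
        (CovZ.n2 (-16512, 13248) (by decide +kernel)
         (CovZ.n2 (-16608, 13152) (by decide +kernel)
          (CovZ.n2 (-16608, 13248) (by decide +kernel)
           (CovZ.leaf K2_ok TB_l25593 _)
           (CovZ.leaf K2_ok TB_l25594 _))
          (CovZ.leaf K2_ok TB_l25595 _))
         (CovZ.n1 (-16608, 13344) (by decide +kernel)
          (CovZ.leaf K2_ok TB_l25596 _)
          (CovZ.leaf K2_ok TB_l25597 _)))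
        (CovZ.n1 (-16704, 13056) (by decide +kernel)
         (CovZ.n2 (-16800, 13152) (by decide +kernel)
          (CovZ.leaf K2_ok TB_l25598 _)
          (CovZ.leaf K2_ok TB_l25599 _))
         (CovZ.n1 (-16608, 13152) (by decide +kernel)
          (CovZ.leaf K2_ok TB_l25600 _)
          (CovZ.leaf K2_ok TB_l25601 _))))
       (CovZ.n1 (-16320, 13248) (by decide +kernel)
        (CovZ.n2 (-16320, 13056) (by decide +kernel)
         (CovZ.n2 (-16416, 13152) (by decide +kernel)
          (CovZ.leaf K2_ok TB_l25602 _)
          (CovZ.n1 (-16416, 13056) (by decide +kernel)
           (CovZ.leaf K2_ok TB_l25603 _)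
           (CovZ.leaf K2_ok TB_l25604 _)))
         (CovZ.n1 (-16224, 13152) (by decide +kernel)
          (CovZ.n2 (-16224, 13056) (by decide +kernel)
           (CovZ.leaf K2_ok TB_l25605 _)
           (CovZ.leaf K2_ok TB_l25606 _))
          (CovZ.leaf K2_ok TB_l25607 _)))
        (CovZ.n1 (-16512, 13248) (by decide +kernel)
         (CovZ.n2 (-16416, 13344) (by decide +kernel)
          (CovZ.n2 (-16416, 13248) (by decide +kernel)
           (CovZ.leaf K2_ok TB_l25608 _)
           (CovZ.leaf K2_ok TB_l25609 _))
          (CovZ.leaf K2_ok TB_l25610 _))
         (CovZ.n1 (-16416, 13152) (by decide +kernel)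
          (CovZ.leaf K2_ok TB_l25611 _)
          (CovZ.n1 (-16416, 13248) (by decide +kernel)
           (CovZ.leaf K2_ok TB_l25612 _)
           (CovZ.leaf K2_ok TB_l25613 _))))))
      (CovZ.n1 (-16896, 13440) (by decide +kernel)
       (CovZ.n2 (-16704, 13632) (by decide +kernel)
        (CovZ.n2 (-16704, 13440) (by decide +kernel)
         (CovZ.n2 (-16800, 13536) (by decide +kernel)
          (CovZ.leaf K2_ok TB_l25614 _)
          (CovZ.leaf K2_ok TB_l25615 _))
         (CovZ.n1 (-16608, 13536) (by decide +kernel)
          (CovZ.leaf K2_ok TB_l25616 _)
          (CovZ.leaf K2_ok TB_l25617 _)))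
        (CovZ.n1 (-16896, 13632) (by decide +kernel)
         (CovZ.n2 (-16800, 13728) (by decide +kernel)
          (CovZ.leaf K2_ok TB_l25618 _)
          (CovZ.leaf K2_ok TB_l25619 _))
         (CovZ.n1 (-16800, 13536) (by decide +kernel)
          (CovZ.leaf K2_ok TB_l25620 _)
          (CovZ.leaf K2_ok TB_l25621 _))))
       (CovZ.n1 (-16704, 13248) (by decide +kernel)
        (CovZ.n2 (-16896, 13248) (by decide +kernel)
         (CovZ.n2 (-16800, 13344) (by decide +kernel)
          (CovZ.leaf K2_ok TB_l25622 _)
          (CovZ.leaf K2_ok TB_l25623 _))
         (CovZ.n1 (-16800, 13152) (by decide +kernel)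
          (CovZ.leaf K2_ok TB_l25624 _)
          (CovZ.leaf K2_ok TB_l25625 _)))
        (CovZ.n1 (-16704, 13440) (by decide +kernel)
         (CovZ.n2 (-16608, 13344) (by decide +kernel)
          (CovZ.leaf K2_ok TB_l25626 _)
          (CovZ.leaf K2_ok TB_l25627 _))
         (CovZ.n1 (-16800, 13344) (by decide +kernel)
          (CovZ.leaf K2_ok TB_l25628 _)
          (CovZ.leaf K2_ok TB_l25629 _))))))
     (CovZ.n1 (-16512, 12672) (by decide +kernel)
      (CovZ.n2 (-16896, 12672) (by decide +kernel)
       (CovZ.n2 (-16704, 12864) (by decide +kernel)
        (CovZ.n2 (-16704, 12672) (by decide +kernel)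
         (CovZ.n2 (-16800, 12768) (by decide +kernel)
          (CovZ.leaf K2_ok TB_l25630 _)
          (CovZ.leaf K2_ok TB_l25631 _))
         (CovZ.n1 (-16608, 12768) (by decide +kernel)
          (CovZ.leaf K2_ok TB_l25632 _)
          (CovZ.leaf K2_ok TB_l25633 _)))
        (CovZ.n1 (-16896, 12864) (by decide +kernel)
         (CovZ.n2 (-16800, 12960) (by decide +kernel)
          (CovZ.leaf K2_ok TB_l25634 _)
          (CovZ.leaf K2_ok TB_l25635 _))
         (CovZ.n1 (-16800, 12768) (by decide +kernel)
          (CovZ.leaf K2_ok TB_l25636 _)
          (CovZ.leaf K2_ok TB_l25637 _))))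
       (CovZ.n1 (-16704, 12480) (by decide +kernel)
        (CovZ.n2 (-16896, 12480) (by decide +kernel)
         (CovZ.n2 (-16800, 12576) (by decide +kernel)
          (CovZ.leaf K2_ok TB_l25638 _)
          (CovZ.leaf K2_ok TB_l25639 _))
         (CovZ.n1 (-16800, 12384) (by decide +kernel)
          (CovZ.leaf K2_ok TB_l25640 _)
          (CovZ.n1 (-16800, 12480) (by decide +kernel)
           (CovZ.leaf K2_ok TB_l25641 _)
           (CovZ.leaf K2_ok TB_l25642 _))))
        (CovZ.n1 (-16704, 12672) (by decide +kernel)
         (CovZ.n2 (-16608, 12576) (by decide +kernel)
          (CovZ.leaf K2_ok TB_l25643 _)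
          (CovZ.n1 (-16608, 12672) (by decide +kernel)
           (CovZ.leaf K2_ok TB_l25644 _)
           (CovZ.leaf K2_ok TB_l25645 _)))
         (CovZ.n1 (-16800, 12576) (by decide +kernel)
          (CovZ.leaf K2_ok TB_l25646 _)
          (CovZ.leaf K2_ok TB_l25647 _)))))
      (CovZ.n1 (-16512, 13056) (by decide +kernel)
       (CovZ.n2 (-16320, 12864) (by decide +kernel)
        (CovZ.n2 (-16512, 12864) (by decide +kernel)
         (CovZ.n2 (-16416, 12960) (by decide +kernel)
          (CovZ.n2 (-16416, 12864) (by decide +kernel)
           (CovZ.leaf K2_ok TB_l25648 _)
           (CovZ.leaf K2_ok TB_l25649 _))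
          (CovZ.leaf K2_ok TB_l25650 _))
         (CovZ.n1 (-16416, 12768) (by decide +kernel)
          (CovZ.leaf K2_ok TB_l25651 _)
          (CovZ.n1 (-16416, 12864) (by decide +kernel)
           (CovZ.leaf K2_ok TB_l25652 _)
           (CovZ.leaf K2_ok TB_l25653 _))))
        (CovZ.n1 (-16320, 13056) (by decide +kernel)
         (CovZ.n2 (-16224, 12960) (by decide +kernel)
          (CovZ.leaf K2_ok TB_l25654 _)
          (CovZ.n1 (-16224, 13056) (by decide +kernel)
           (CovZ.leaf K2_ok TB_l25655 _)
           (CovZ.leaf K2_ok TB_l25656 _)))
         (CovZ.n1 (-16416, 12960) (by decide +kernel)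
          (CovZ.n2 (-16416, 13056) (by decide +kernel)
           (CovZ.leaf K2_ok TB_l25657 _)
           (CovZ.leaf K2_ok TB_l25658 _))
          (CovZ.leaf K2_ok TB_l25659 _))))
       (CovZ.n1 (-16704, 12864) (by decide +kernel)
        (CovZ.n2 (-16704, 13056) (by decide +kernel)
         (CovZ.n2 (-16608, 12960) (by decide +kernel)
          (CovZ.leaf K2_ok TB_l25660 _)
          (CovZ.n1 (-16608, 13056) (by decide +kernel)
           (CovZ.leaf K2_ok TB_l25661 _)
           (CovZ.leaf K2_ok TB_l25662 _)))
         (CovZ.n1 (-16800, 12960) (by decide +kernel)
          (CovZ.leaf K2_ok TB_l25663 _)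
          (CovZ.leaf K2_ok TB_l25664 _)))
        (CovZ.n1 (-16512, 12864) (by decide +kernel)
         (CovZ.n2 (-16608, 12768) (by decide +kernel)
          (CovZ.n2 (-16608, 12864) (by decide +kernel)
           (CovZ.leaf K2_ok TB_l25665 _)
           (CovZ.leaf K2_ok TB_l25666 _))
          (CovZ.leaf K2_ok TB_l25667 _))
         (CovZ.n1 (-16608, 12960) (by decide +kernel)
          (CovZ.leaf K2_ok TB_l25668 _)
          (CovZ.leaf K2_ok TB_l25669 _)))))))

theorem TB_u314 : CovZ TB_M (toL (selN TB_LN 1322111957946533659198789398409704005029340062823006058538247086442146959744810907193757183529337258702468606413766588895272)) [0, 7, 6, 1] (-16128, 13056) (-15360, 13824) (-16896, 13824) :=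
    (CovZ.n1 (-16128, 13824) (by decide +kernel)
     (CovZ.subM 139984047429083140351480986807990231001188862140444249017180254337470091416244723126661698641767436328 (by decide +kernel)
      (CovZ.n2 (-15744, 13440) (by decide +kernel)
       (CovZ.n2 (-16128, 13440) (by decide +kernel)
        (CovZ.n2 (-15936, 13632) (by decide +kernel)
         (CovZ.n2 (-15936, 13440) (by decide +kernel)
          (CovZ.n2 (-16032, 13536) (by decide +kernel)
           (CovZ.leaf K2_ok TB_l25670 _)
           (CovZ.n1 (-16032, 13440) (by decide +kernel)
            (CovZ.leaf K2_ok TB_l25671 _)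
            (CovZ.leaf K2_ok TB_l25672 _)))
          (CovZ.n1 (-15840, 13536) (by decide +kernel)
           (CovZ.n2 (-15840, 13440) (by decide +kernel)
            (CovZ.leaf K2_ok TB_l25673 _)
            (CovZ.leaf K2_ok TB_l25674 _))
           (CovZ.leaf K2_ok TB_l25675 _)))
         (CovZ.n1 (-16128, 13632) (by decide +kernel)
          (CovZ.n2 (-16032, 13728) (by decide +kernel)
           (CovZ.n2 (-16032, 13632) (by decide +kernel)
            (CovZ.leaf K2_ok TB_l25676 _)
            (CovZ.leaf K2_ok TB_l25677 _))
           (CovZ.leaf K2_ok TB_l25678 _))
          (CovZ.n1 (-16032, 13536) (by decide +kernel)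
           (CovZ.leaf K2_ok TB_l25679 _)
           (CovZ.n1 (-16032, 13632) (by decide +kernel)
            (CovZ.leaf K2_ok TB_l25680 _)
            (CovZ.leaf K2_ok TB_l25681 _)))))
        (CovZ.n1 (-15936, 13248) (by decide +kernel)
         (CovZ.n2 (-16128, 13248) (by decide +kernel)
          (CovZ.n2 (-16032, 13344) (by decide +kernel)
           (CovZ.n2 (-16032, 13248) (by decide +kernel)
            (CovZ.leaf K2_ok TB_l25682 _)
            (CovZ.leaf K2_ok TB_l25683 _))
           (CovZ.leaf K2_ok TB_l25684 _))
          (CovZ.n1 (-16032, 13152) (by decide +kernel)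
           (CovZ.leaf K2_ok TB_l25685 _)
           (CovZ.n1 (-16032, 13248) (by decide +kernel)
            (CovZ.leaf K2_ok TB_l25686 _)
            (CovZ.leaf K2_ok TB_l25687 _))))
         (CovZ.n1 (-15936, 13440) (by decide +kernel)
          (CovZ.n2 (-15840, 13344) (by decide +kernel)
           (CovZ.leaf K2_ok TB_l25688 _)
           (CovZ.n1 (-15840, 13440) (by decide +kernel)
            (CovZ.leaf K2_ok TB_l25689 _)
            (CovZ.leaf K2_ok TB_l25690 _)))
          (CovZ.n1 (-16032, 13344) (by decide +kernel)
           (CovZ.n2 (-16032, 13440) (by decide +kernel)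
            (CovZ.leaf K2_ok TB_l25691 _)
            (CovZ.leaf K2_ok TB_l25692 _))
           (CovZ.leaf K2_ok TB_l25693 _)))))
       (CovZ.n1 (-15744, 13824) (by decide +kernel)
        (CovZ.subM 139984046386120720346807268432292426327830274708949621335478818950501028924389056179613652683325440040 (by decide +kernel)
         (CovZ.n2 (-15552, 13632) (by decide +kernel)
          (CovZ.n2 (-15744, 13632) (by decide +kernel)
           (CovZ.n2 (-15648, 13728) (by decide +kernel)
            (CovZ.n2 (-15648, 13632) (by decide +kernel)
             (CovZ.leaf K2_ok TB_l25694 _)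
             (CovZ.leaf K2_ok TB_l25695 _))
            (CovZ.n1 (-15744, 13728) (by decide +kernel)
             (CovZ.leaf K2_ok TB_l25696 _)
             (CovZ.leaf K2_ok TB_l25697 _)))
           (CovZ.n1 (-15648, 13536) (by decide +kernel)
            (CovZ.leaf K2_ok TB_l25698 _)
            (CovZ.n1 (-15648, 13632) (by decide +kernel)
             (CovZ.leaf K2_ok TB_l25699 _)
             (CovZ.leaf K2_ok TB_l25700 _))))
          (CovZ.n1 (-15552, 13824) (by decide +kernel)
           (CovZ.n2 (-15456, 13728) (by decide +kernel)
            (CovZ.n2 (-15552, 13728) (by decide +kernel)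
             (CovZ.n2 (-15504, 13776) (by decide +kernel)
              (CovZ.leaf K2_ok TB_l25701 _)
              (CovZ.leaf K2_ok TB_l25702 _))
             (CovZ.leaf K2_ok TB_l25703 _))
            (CovZ.subM 139984046386112763175017243256041275749161140508862054312728217719805532677214087593049876276155777032 (by decide +kernel)
             (CovZ.n1 (-15456, 13824) (by decide +kernel)
              (CovZ.n2 (-15408, 13776) (by decide +kernel)
               (CovZ.n2 (-15456, 13776) (by decide +kernel)
                (CovZ.leaf K2_ok TB_l25704 _)
                (CovZ.leaf K2_ok TB_l25705 _))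
               (CovZ.n1 (-15408, 13824) (by decide +kernel)
                (CovZ.n2 (-15384, 13800) (by decide +kernel)
                 (CovZ.leaf K2_ok TB_l25706 _)
                 (CovZ.leaf K2_ok TB_l25707 _))
                (CovZ.leaf K2_ok TB_l25708 _)))
              (CovZ.n1 (-15504, 13776) (by decide +kernel)
               (CovZ.n2 (-15504, 13824) (by decide +kernel)
                (CovZ.leaf K2_ok TB_l25709 _)
                (CovZ.leaf K2_ok TB_l25710 _))
               (CovZ.n1 (-15456, 13776) (by decide +kernel)
                (CovZ.leaf K2_ok TB_l25711 _)
                (CovZ.leaf K2_ok TB_l25712 _))))))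
           (CovZ.n1 (-15648, 13728) (by decide +kernel)
            (CovZ.n2 (-15648, 13824) (by decide +kernel)
             (CovZ.n2 (-15600, 13776) (by decide +kernel)
              (CovZ.leaf K2_ok TB_l25713 _)
              (CovZ.leaf K2_ok TB_l25714 _))
             (CovZ.leaf K2_ok TB_l25715 _))
            (CovZ.n1 (-15552, 13728) (by decide +kernel)
             (CovZ.leaf K2_ok TB_l25716 _)
             (CovZ.n1 (-15600, 13776) (by decide +kernel)
              (CovZ.leaf K2_ok TB_l25717 _)
              (CovZ.leaf K2_ok TB_l25718 _)))))))
        (CovZ.n1 (-15936, 13632) (by decide +kernel)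
         (CovZ.n2 (-15936, 13824) (by decide +kernel)
          (CovZ.subM 139984046386120720346807268432292426327830274708949621335478818950501028924389056179613653233081258024 (by decide +kernel)
           (CovZ.n2 (-15840, 13728) (by decide +kernel)
            (CovZ.n2 (-15936, 13728) (by decide +kernel)
             (CovZ.leaf K2_ok TB_l25719 _)
             (CovZ.leaf K2_ok TB_l25720 _))
            (CovZ.n1 (-15840, 13824) (by decide +kernel)
             (CovZ.leaf K2_ok TB_l25721 _)
             (CovZ.leaf K2_ok TB_l25722 _))))
          (CovZ.n1 (-16032, 13728) (by decide +kernel)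
           (CovZ.n2 (-16032, 13824) (by decide +kernel)
            (CovZ.leaf K2_ok TB_l25723 _)
            (CovZ.leaf K2_ok TB_l25724 _))
           (CovZ.n1 (-15936, 13728) (by decide +kernel)
            (CovZ.leaf K2_ok TB_l25725 _)
            (CovZ.leaf K2_ok TB_l25726 _))))
         (CovZ.subM 139984046386120720346807268432292426327830274708949621335478818950501028924389056179613653233081258024 (by decide +kernel)
          (CovZ.n1 (-15744, 13632) (by decide +kernel)
           (CovZ.n2 (-15840, 13536) (by decide +kernel)
            (CovZ.n2 (-15840, 13632) (by decide +kernel)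
             (CovZ.leaf K2_ok TB_l25727 _)
             (CovZ.leaf K2_ok TB_l25728 _))
            (CovZ.leaf K2_ok TB_l25729 _))
           (CovZ.n1 (-15840, 13728) (by decide +kernel)
            (CovZ.n2 (-15744, 13728) (by decide +kernel)
             (CovZ.leaf K2_ok TB_l25730 _)
             (CovZ.leaf K2_ok TB_l25731 _))
            (CovZ.n1 (-15840, 13632) (by decide +kernel)
             (CovZ.leaf K2_ok TB_l25732 _)
             (CovZ.leaf K2_ok TB_l25733 _)))))))))
     (CovZ.n1 (-16512, 13440) (by decide +kernel)
      (CovZ.n2 (-16512, 13824) (by decide +kernel)
       (CovZ.n2 (-16320, 13632) (by decide +kernel)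
        (CovZ.n2 (-16512, 13632) (by decide +kernel)
         (CovZ.n2 (-16416, 13728) (by decide +kernel)
          (CovZ.leaf K2_ok TB_l25734 _)
          (CovZ.leaf K2_ok TB_l25735 _))
         (CovZ.n1 (-16416, 13536) (by decide +kernel)
          (CovZ.leaf K2_ok TB_l25736 _)
          (CovZ.n1 (-16416, 13632) (by decide +kernel)
           (CovZ.leaf K2_ok TB_l25737 _)
           (CovZ.leaf K2_ok TB_l25738 _))))
        (CovZ.n1 (-16320, 13824) (by decide +kernel)
         (CovZ.n2 (-16224, 13728) (by decide +kernel)
          (CovZ.leaf K2_ok TB_l25739 _)
          (CovZ.n1 (-16224, 13824) (by decide +kernel)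
           (CovZ.leaf K2_ok TB_l25740 _)
           (CovZ.leaf K2_ok TB_l25741 _)))
         (CovZ.n1 (-16416, 13728) (by decide +kernel)
          (CovZ.n2 (-16416, 13824) (by decide +kernel)
           (CovZ.leaf K2_ok TB_l25742 _)
           (CovZ.leaf K2_ok TB_l25743 _))
          (CovZ.n1 (-16320, 13728) (by decide +kernel)
           (CovZ.leaf K2_ok TB_l25744 _)
           (CovZ.leaf K2_ok TB_l25745 _)))))
       (CovZ.n1 (-16704, 13632) (by decide +kernel)
        (CovZ.n2 (-16704, 13824) (by decide +kernel)
         (CovZ.n2 (-16608, 13728) (by decide +kernel)
          (CovZ.leaf K2_ok TB_l25746 _)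
          (CovZ.n1 (-16608, 13824) (by decide +kernel)
           (CovZ.leaf K2_ok TB_l25747 _)
           (CovZ.leaf K2_ok TB_l25748 _)))
         (CovZ.n1 (-16800, 13728) (by decide +kernel)
          (CovZ.n2 (-16800, 13824) (by decide +kernel)
           (CovZ.leaf K2_ok TB_l25749 _)
           (CovZ.leaf K2_ok TB_l25750 _))
          (CovZ.leaf K2_ok TB_l25751 _)))
        (CovZ.n1 (-16512, 13632) (by decide +kernel)
         (CovZ.n2 (-16608, 13536) (by decide +kernel)
          (CovZ.leaf K2_ok TB_l25752 _)
          (CovZ.leaf K2_ok TB_l25753 _))
         (CovZ.n1 (-16608, 13728) (by decide +kernel)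
          (CovZ.leaf K2_ok TB_l25754 _)
          (CovZ.leaf K2_ok TB_l25755 _)))))
      (CovZ.n1 (-16128, 13440) (by decide +kernel)
       (CovZ.n2 (-16320, 13248) (by decide +kernel)
        (CovZ.n2 (-16320, 13440) (by decide +kernel)
         (CovZ.n2 (-16224, 13344) (by decide +kernel)
          (CovZ.leaf K2_ok TB_l25756 _)
          (CovZ.n1 (-16224, 13440) (by decide +kernel)
           (CovZ.leaf K2_ok TB_l25757 _)
           (CovZ.leaf K2_ok TB_l25758 _)))
         (CovZ.n1 (-16416, 13344) (by decide +kernel)
          (CovZ.n2 (-16416, 13440) (by decide +kernel)
           (CovZ.leaf K2_ok TB_l25759 _)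
           (CovZ.leaf K2_ok TB_l25760 _))
          (CovZ.leaf K2_ok TB_l25761 _)))
        (CovZ.subM 75153362788746710721546519691633135552373718419922303512828169100861847495508608130645694704927839472958050344 (by decide +kernel)
         (CovZ.n1 (-16128, 13248) (by decide +kernel)
          (CovZ.n2 (-16224, 13152) (by decide +kernel)
           (CovZ.n2 (-16224, 13248) (by decide +kernel)
            (CovZ.leaf K2_ok TB_l25762 _)
            (CovZ.leaf K2_ok TB_l25763 _))
           (CovZ.leaf K2_ok TB_l25764 _))
          (CovZ.n1 (-16224, 13344) (by decide +kernel)
           (CovZ.leaf K2_ok TB_l25765 _)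
           (CovZ.n1 (-16224, 13248) (by decide +kernel)
            (CovZ.leaf K2_ok TB_l25766 _)
            (CovZ.leaf K2_ok TB_l25767 _))))))
       (CovZ.n1 (-16320, 13632) (by decide +kernel)
        (CovZ.subM 139984047429083140351540739148135742989923329297254994681530303810323697783330737760320342368123359272 (by decide +kernel)
         (CovZ.n2 (-16128, 13632) (by decide +kernel)
          (CovZ.n2 (-16224, 13536) (by decide +kernel)
           (CovZ.n2 (-16224, 13632) (by decide +kernel)
            (CovZ.leaf K2_ok TB_l25768 _)
            (CovZ.leaf K2_ok TB_l25769 _))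
           (CovZ.leaf K2_ok TB_l25770 _))
          (CovZ.n1 (-16224, 13728) (by decide +kernel)
           (CovZ.n2 (-16128, 13728) (by decide +kernel)
            (CovZ.leaf K2_ok TB_l25771 _)
            (CovZ.leaf K2_ok TB_l25772 _))
           (CovZ.leaf K2_ok TB_l25773 _))))
        (CovZ.n1 (-16320, 13440) (by decide +kernel)
         (CovZ.n2 (-16416, 13536) (by decide +kernel)
          (CovZ.leaf K2_ok TB_l25774 _)
          (CovZ.leaf K2_ok TB_l25775 _))
         (CovZ.n1 (-16224, 13536) (by decide +kernel)
          (CovZ.n2 (-16224, 13440) (by decide +kernel)
           (CovZ.leaf K2_ok TB_l25776 _)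
           (CovZ.leaf K2_ok TB_l25777 _))
          (CovZ.leaf K2_ok TB_l25778 _)))))))

theorem TB_u315 : CovZ TB_M (toL (selN TB_LN 139984046386120720468216605634914239402145972830219252642459406730488374836423417220331187025689444392)) [0, 7, 6, 1] (-15360, 13824) (-15360, 13056) (-14592, 13056) :=
    (CovZ.n2 (-14976, 13440) (by decide +kernel)
      (CovZ.n2 (-14976, 13056) (by decide +kernel)
       (CovZ.n2 (-15168, 13248) (by decide +kernel)
        (CovZ.subM 139984046386112763159840142535527767382602843577165595931249318810236994484061561774219112930128953344 (by decide +kernel)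
         (CovZ.n2 (-14976, 13248) (by decide +kernel)
          (CovZ.n2 (-15072, 13152) (by decide +kernel)
           (CovZ.n2 (-15072, 13248) (by decide +kernel)
            (CovZ.n2 (-15024, 13200) (by decide +kernel)
             (CovZ.leaf K2_ok TB_l33366 _)
             (CovZ.leaf K2_ok TB_l33367 _))
            (CovZ.leaf K2_ok TB_l33368 _))
           (CovZ.n1 (-14976, 13152) (by decide +kernel)
            (CovZ.n2 (-15024, 13104) (by decide +kernel)
             (CovZ.leaf K2_ok TB_l33369 _)
             (CovZ.leaf K2_ok TB_l33370 _))
            (CovZ.n1 (-15024, 13200) (by decide +kernel)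
             (CovZ.leaf K2_ok TB_l33371 _)
             (CovZ.leaf K2_ok TB_l33372 _))))
          (CovZ.n1 (-15072, 13344) (by decide +kernel)
           (CovZ.n2 (-14976, 13344) (by decide +kernel)
            (CovZ.n2 (-15024, 13296) (by decide +kernel)
             (CovZ.leaf K2_ok TB_l33373 _)
             (CovZ.leaf K2_ok TB_l33374 _))
            (CovZ.n1 (-15024, 13392) (by decide +kernel)
             (CovZ.leaf K2_ok TB_l33375 _)
             (CovZ.leaf K2_ok TB_l33376 _)))
           (CovZ.n1 (-15072, 13248) (by decide +kernel)
            (CovZ.leaf K2_ok TB_l33377 _)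
            (CovZ.n1 (-15024, 13296) (by decide +kernel)
             (CovZ.leaf K2_ok TB_l33378 _)
             (CovZ.leaf K2_ok TB_l33379 _))))))
        (CovZ.n1 (-15168, 13056) (by decide +kernel)
         (CovZ.n2 (-15264, 13152) (by decide +kernel)
          (CovZ.n2 (-15168, 13152) (by decide +kernel)
           (CovZ.leaf K2_ok TB_l33380 _)
           (CovZ.leaf K2_ok TB_l33381 _))
          (CovZ.n1 (-15264, 13056) (by decide +kernel)
           (CovZ.leaf K2_ok TB_l33382 _)
           (CovZ.leaf K2_ok TB_l33383 _)))
         (CovZ.subM 139984046386112763159840142535527767382602843577165595931249318810236994484061561774219112930128953344 (by decide +kernel)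
          (CovZ.n1 (-15072, 13152) (by decide +kernel)
           (CovZ.n2 (-15072, 13056) (by decide +kernel)
            (CovZ.leaf K2_ok TB_l33384 _)
            (CovZ.n1 (-15024, 13104) (by decide +kernel)
             (CovZ.leaf K2_ok TB_l33385 _)
             (CovZ.leaf K2_ok TB_l33386 _)))
           (CovZ.n1 (-15168, 13152) (by decide +kernel)
            (CovZ.leaf K2_ok TB_l33387 _)
            (CovZ.leaf K2_ok TB_l33388 _))))))
       (CovZ.subM 139984046386112763159840142535527767382602843577165595931249318810236994484061561774219112930128953344 (by decide +kernel)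
        (CovZ.n1 (-14784, 13248) (by decide +kernel)
         (CovZ.n2 (-14784, 13056) (by decide +kernel)
          (CovZ.n2 (-14880, 13152) (by decide +kernel)
           (CovZ.badM (by decide +kernel))
           (CovZ.n1 (-14880, 13056) (by decide +kernel)
            (CovZ.n2 (-14928, 13104) (by decide +kernel)
             (CovZ.badM (by decide +kernel))
             (CovZ.leaf K2_ok TB_l33396 _))
            (CovZ.badM (by decide +kernel))))
          (CovZ.badM (by decide +kernel)))
         (CovZ.n1 (-14976, 13248) (by decide +kernel)
          (CovZ.n2 (-14880, 13344) (by decide +kernel)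
           (CovZ.n2 (-14880, 13248) (by decide +kernel)
            (CovZ.n2 (-14928, 13296) (by decide +kernel)
             (CovZ.leaf K2_ok TB_l33412 _)
             (CovZ.leaf K2_ok TB_l33413 _))
            (CovZ.n1 (-14832, 13296) (by decide +kernel)
             (CovZ.badM (by decide +kernel))
             (CovZ.leaf K2_ok TB_l33416 _)))
           (CovZ.n1 (-14976, 13344) (by decide +kernel)
            (CovZ.n2 (-14928, 13392) (by decide +kernel)
             (CovZ.leaf K2_ok TB_l33417 _)
             (CovZ.leaf K2_ok TB_l33418 _))
            (CovZ.n1 (-14928, 13296) (by decide +kernel)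
             (CovZ.leaf K2_ok TB_l33419 _)
             (CovZ.leaf K2_ok TB_l33420 _))))
          (CovZ.n1 (-14880, 13152) (by decide +kernel)
           (CovZ.n2 (-14976, 13152) (by decide +kernel)
            (CovZ.n2 (-14928, 13200) (by decide +kernel)
             (CovZ.leaf K2_ok TB_l33421 _)
             (CovZ.leaf K2_ok TB_l33422 _))
            (CovZ.n1 (-14928, 13104) (by decide +kernel)
             (CovZ.leaf K2_ok TB_l33423 _)
             (CovZ.n1 (-14928, 13152) (by decide +kernel)
              (CovZ.badM (by decide +kernel))
              (CovZ.leaf K2_ok TB_l33425 _))))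
           (CovZ.n1 (-14880, 13248) (by decide +kernel)
            (CovZ.badM (by decide +kernel))
            (CovZ.n1 (-14928, 13200) (by decide +kernel)
             (CovZ.leaf K2_ok TB_l33429 _)
             (CovZ.leaf K2_ok TB_l33430 _))))))))
      (CovZ.n1 (-15360, 13440) (by decide +kernel)
       (CovZ.n2 (-15168, 13632) (by decide +kernel)
        (CovZ.n2 (-15168, 13440) (by decide +kernel)
         (CovZ.n2 (-15264, 13536) (by decide +kernel)
          (CovZ.n2 (-15168, 13536) (by decide +kernel)
           (CovZ.leaf K2_ok TB_l33431 _)
           (CovZ.n1 (-15216, 13584) (by decide +kernel)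
            (CovZ.leaf K2_ok TB_l33432 _)
            (CovZ.leaf K2_ok TB_l33433 _)))
          (CovZ.n1 (-15264, 13440) (by decide +kernel)
           (CovZ.leaf K2_ok TB_l33434 _)
           (CovZ.leaf K2_ok TB_l33435 _)))
         (CovZ.subM 139984046386112763159840142535527767382602843577165595931249318810236994484061561774219112930128953344 (by decide +kernel)
          (CovZ.n1 (-15072, 13536) (by decide +kernel)
           (CovZ.n2 (-15072, 13440) (by decide +kernel)
            (CovZ.leaf K2_ok TB_l33436 _)
            (CovZ.n1 (-15024, 13488) (by decide +kernel)
             (CovZ.leaf K2_ok TB_l33437 _)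
             (CovZ.leaf K2_ok TB_l33438 _)))
           (CovZ.n1 (-15168, 13536) (by decide +kernel)
            (CovZ.n2 (-15120, 13584) (by decide +kernel)
             (CovZ.leaf K2_ok TB_l33439 _)
             (CovZ.leaf K2_ok TB_l33440 _))
            (CovZ.leaf K2_ok TB_l33441 _)))))
        (CovZ.n1 (-15360, 13632) (by decide +kernel)
         (CovZ.n2 (-15264, 13728) (by decide +kernel)
          (CovZ.n2 (-15264, 13632) (by decide +kernel)
           (CovZ.n2 (-15312, 13680) (by decide +kernel)
            (CovZ.leaf K2_ok TB_l33442 _)
            (CovZ.leaf K2_ok TB_l33443 _))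
           (CovZ.n1 (-15216, 13680) (by decide +kernel)
            (CovZ.leaf K2_ok TB_l33444 _)
            (CovZ.leaf K2_ok TB_l33445 _)))
          (CovZ.n1 (-15360, 13728) (by decide +kernel)
           (CovZ.subM 139984046386112763159840142535527767382602844361803312854584414289710672385024699490294253804645777416 (by decide +kernel)
            (CovZ.n2 (-15312, 13776) (by decide +kernel)
             (CovZ.n2 (-15312, 13728) (by decide +kernel)
              (CovZ.leaf K2_ok TB_l33446 _)
              (CovZ.leaf K2_ok TB_l33447 _))
             (CovZ.n1 (-15360, 13776) (by decide +kernel)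
              (CovZ.n2 (-15336, 13800) (by decide +kernel)
               (CovZ.leaf K2_ok TB_l33448 _)
               (CovZ.leaf K2_ok TB_l33449 _))
              (CovZ.leaf K2_ok TB_l33450 _))))
           (CovZ.n1 (-15312, 13680) (by decide +kernel)
            (CovZ.leaf K2_ok TB_l33451 _)
            (CovZ.leaf K2_ok TB_l33452 _))))
         (CovZ.n1 (-15264, 13536) (by decide +kernel)
          (CovZ.n2 (-15360, 13536) (by decide +kernel)
           (CovZ.leaf K2_ok TB_l33453 _)
           (CovZ.n1 (-15312, 13488) (by decide +kernel)
            (CovZ.leaf K2_ok TB_l33454 _)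
            (CovZ.leaf K2_ok TB_l33455 _)))
          (CovZ.n1 (-15264, 13632) (by decide +kernel)
           (CovZ.leaf K2_ok TB_l33456 _)
           (CovZ.leaf K2_ok TB_l33457 _)))))
       (CovZ.n1 (-15168, 13248) (by decide +kernel)
        (CovZ.n2 (-15360, 13248) (by decide +kernel)
         (CovZ.n2 (-15264, 13344) (by decide +kernel)
          (CovZ.n2 (-15264, 13248) (by decide +kernel)
           (CovZ.leaf K2_ok TB_l33458 _)
           (CovZ.leaf K2_ok TB_l33459 _))
          (CovZ.leaf K2_ok TB_l33460 _))
         (CovZ.n1 (-15264, 13152) (by decide +kernel)
          (CovZ.n2 (-15360, 13152) (by decide +kernel)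
           (CovZ.leaf K2_ok TB_l33461 _)
           (CovZ.leaf K2_ok TB_l33462 _))
          (CovZ.n1 (-15264, 13248) (by decide +kernel)
           (CovZ.leaf K2_ok TB_l33463 _)
           (CovZ.leaf K2_ok TB_l33464 _))))
        (CovZ.n1 (-15168, 13440) (by decide +kernel)
         (CovZ.subM 139984046386112763159840142535527767382602843577165595931249318810236994484061561774219112930128953344 (by decide +kernel)
          (CovZ.n2 (-15072, 13344) (by decide +kernel)
           (CovZ.n2 (-15168, 13344) (by decide +kernel)
            (CovZ.leaf K2_ok TB_l33465 _)
            (CovZ.n1 (-15120, 13296) (by decide +kernel)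
             (CovZ.leaf K2_ok TB_l33466 _)
             (CovZ.leaf K2_ok TB_l33467 _)))
           (CovZ.n1 (-15072, 13440) (by decide +kernel)
            (CovZ.n2 (-15024, 13392) (by decide +kernel)
             (CovZ.leaf K2_ok TB_l33468 _)
             (CovZ.leaf K2_ok TB_l33469 _))
            (CovZ.leaf K2_ok TB_l33470 _))))
         (CovZ.n1 (-15264, 13344) (by decide +kernel)
          (CovZ.n2 (-15264, 13440) (by decide +kernel)
           (CovZ.leaf K2_ok TB_l33471 _)
           (CovZ.leaf K2_ok TB_l33472 _))
          (CovZ.n1 (-15168, 13344) (by decide +kernel)
           (CovZ.leaf K2_ok TB_l33473 _)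
           (CovZ.leaf K2_ok TB_l33474 _)))))))

theorem TB_u316 : CovZ TB_M (toL (selN TB_LN 139984046386120720468216605634914239402145972830219252642459406730488374836423417220331187025689444392)) [0, 7, 6, 1] (-15360, 13056) (-15360, 12288) (-14592, 13056) :=
    (CovZ.n1 (-14976, 12672) (by decide +kernel)
      (CovZ.n2 (-15360, 12672) (by decide +kernel)
       (CovZ.n2 (-15168, 12864) (by decide +kernel)
        (CovZ.n2 (-15168, 12672) (by decide +kernel)
         (CovZ.n2 (-15264, 12768) (by decide +kernel)
          (CovZ.n2 (-15168, 12768) (by decide +kernel)
           (CovZ.leaf K2_ok TB_l33475 _)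
           (CovZ.leaf K2_ok TB_l33476 _))
          (CovZ.n1 (-15264, 12672) (by decide +kernel)
           (CovZ.leaf K2_ok TB_l33477 _)
           (CovZ.leaf K2_ok TB_l33478 _)))
         (CovZ.subM 139984046386112763159840142535527767382602843577165595931249318810236994484061561774219112930128953344 (by decide +kernel)
          (CovZ.n1 (-15072, 12768) (by decide +kernel)
           (CovZ.n2 (-15072, 12672) (by decide +kernel)
            (CovZ.leaf K2_ok TB_l33479 _)
            (CovZ.badM (by decide +kernel)))
           (CovZ.n1 (-15168, 12768) (by decide +kernel)
            (CovZ.n2 (-15120, 12816) (by decide +kernel)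
             (CovZ.leaf K2_ok TB_l33482 _)
             (CovZ.leaf K2_ok TB_l33483 _))
            (CovZ.leaf K2_ok TB_l33484 _)))))
        (CovZ.n1 (-15360, 12864) (by decide +kernel)
         (CovZ.n2 (-15264, 12960) (by decide +kernel)
          (CovZ.n2 (-15264, 12864) (by decide +kernel)
           (CovZ.leaf K2_ok TB_l33485 _)
           (CovZ.leaf K2_ok TB_l33486 _))
          (CovZ.n1 (-15360, 12960) (by decide +kernel)
           (CovZ.leaf K2_ok TB_l33487 _)
           (CovZ.leaf K2_ok TB_l33488 _)))
         (CovZ.n1 (-15264, 12768) (by decide +kernel)
          (CovZ.leaf K2_ok TB_l33489 _)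
          (CovZ.n1 (-15264, 12864) (by decide +kernel)
           (CovZ.leaf K2_ok TB_l33490 _)
           (CovZ.leaf K2_ok TB_l33491 _)))))
       (CovZ.n1 (-15168, 12480) (by decide +kernel)
        (CovZ.n2 (-15360, 12480) (by decide +kernel)
         (CovZ.n2 (-15264, 12576) (by decide +kernel)
          (CovZ.n2 (-15264, 12480) (by decide +kernel)
           (CovZ.leaf K2_ok TB_l33492 _)
           (CovZ.leaf K2_ok TB_l33493 _))
          (CovZ.leaf K2_ok TB_l33494 _))
         (CovZ.n1 (-15264, 12384) (by decide +kernel)
          (CovZ.n2 (-15360, 12384) (by decide +kernel)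
           (CovZ.leaf K2_ok TB_l33495 _)
           (CovZ.leaf K2_ok TB_l33496 _))
          (CovZ.n1 (-15264, 12480) (by decide +kernel)
           (CovZ.leaf K2_ok TB_l33497 _)
           (CovZ.leaf K2_ok TB_l33498 _))))
        (CovZ.n1 (-15168, 12672) (by decide +kernel)
         (CovZ.subM 139984046386112763159840142535527767382602843577165595931249318810236991948760059086305406279428866048 (by decide +kernel)
          (CovZ.n2 (-15072, 12576) (by decide +kernel)
           (CovZ.n2 (-15168, 12576) (by decide +kernel)
            (CovZ.n2 (-15120, 12624) (by decide +kernel)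
             (CovZ.badM (by decide +kernel))
             (CovZ.leaf K2_ok TB_l33500 _))
            (CovZ.badM (by decide +kernel)))
           (CovZ.n1 (-15072, 12672) (by decide +kernel)
            (CovZ.badM (by decide +kernel))
            (CovZ.leaf K2_ok TB_l33504 _))))
         (CovZ.n1 (-15264, 12576) (by decide +kernel)
          (CovZ.n2 (-15264, 12672) (by decide +kernel)
           (CovZ.leaf K2_ok TB_l33505 _)
           (CovZ.leaf K2_ok TB_l33506 _))
          (CovZ.n1 (-15168, 12576) (by decide +kernel)
           (CovZ.leaf K2_ok TB_l33507 _)
           (CovZ.leaf K2_ok TB_l33508 _))))))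
      (CovZ.n1 (-14976, 13056) (by decide +kernel)
       (CovZ.subM 2535301200456458802993406410752 (by decide +kernel)
        (CovZ.n2 (-14784, 12864) (by decide +kernel)
         (CovZ.n2 (-14976, 12864) (by decide +kernel)
          (CovZ.n2 (-14880, 12960) (by decide +kernel)
           (CovZ.badM (by decide +kernel))
           (CovZ.n1 (-14976, 12960) (by decide +kernel)
            (CovZ.n2 (-14928, 13008) (by decide +kernel)
             (CovZ.leaf K2_ok TB_l33514 _)
             (CovZ.leaf K2_ok TB_l33515 _))
            (CovZ.n1 (-14928, 12912) (by decide +kernel)
             (CovZ.leaf K2_ok TB_l33516 _)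
             (CovZ.n1 (-14928, 12960) (by decide +kernel)
              (CovZ.badM (by decide +kernel))
              (CovZ.leaf K2_ok TB_l33518 _)))))
          (CovZ.badM (by decide +kernel)))
         (CovZ.n1 (-14784, 13056) (by decide +kernel)
          (CovZ.badM (by decide +kernel))
          (CovZ.n1 (-14880, 12960) (by decide +kernel)
           (CovZ.n2 (-14880, 13056) (by decide +kernel)
            (CovZ.badM (by decide +kernel))
            (CovZ.n1 (-14928, 13008) (by decide +kernel)
             (CovZ.n2 (-14928, 13056) (by decide +kernel)
              (CovZ.badM (by decide +kernel))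
              (CovZ.leaf K2_ok TB_l33547 _))
             (CovZ.badM (by decide +kernel))))
           (CovZ.badM (by decide +kernel))))))
       (CovZ.n1 (-15168, 12864) (by decide +kernel)
        (CovZ.n2 (-15168, 13056) (by decide +kernel)
         (CovZ.subM 139984046386112763159840142535527767382602843577165595931249318810236994484061561774219112930128953344 (by decide +kernel)
          (CovZ.n2 (-15072, 12960) (by decide +kernel)
           (CovZ.n2 (-15168, 12960) (by decide +kernel)
            (CovZ.n2 (-15120, 13008) (by decide +kernel)
             (CovZ.leaf K2_ok TB_l33555 _)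
             (CovZ.leaf K2_ok TB_l33556 _))
            (CovZ.leaf K2_ok TB_l33557 _))
           (CovZ.n1 (-15072, 13056) (by decide +kernel)
            (CovZ.n2 (-15024, 13008) (by decide +kernel)
             (CovZ.leaf K2_ok TB_l33558 _)
             (CovZ.leaf K2_ok TB_l33559 _))
            (CovZ.leaf K2_ok TB_l33560 _))))
         (CovZ.n1 (-15264, 12960) (by decide +kernel)
          (CovZ.n2 (-15264, 13056) (by decide +kernel)
           (CovZ.leaf K2_ok TB_l33561 _)
           (CovZ.leaf K2_ok TB_l33562 _))
          (CovZ.n1 (-15168, 12960) (by decide +kernel)
           (CovZ.leaf K2_ok TB_l33563 _)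
           (CovZ.leaf K2_ok TB_l33564 _))))
        (CovZ.subM 139984046386112763159840142535527767382602843577165595931249318810236994484061561774219112930128953344 (by decide +kernel)
         (CovZ.n1 (-14976, 12864) (by decide +kernel)
          (CovZ.n2 (-15072, 12768) (by decide +kernel)
           (CovZ.n2 (-15072, 12864) (by decide +kernel)
            (CovZ.badM (by decide +kernel))
            (CovZ.leaf K2_ok TB_l33568 _))
           (CovZ.badM (by decide +kernel)))
          (CovZ.n1 (-15072, 12960) (by decide +kernel)
           (CovZ.n2 (-14976, 12960) (by decide +kernel)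
            (CovZ.n2 (-15024, 12912) (by decide +kernel)
             (CovZ.leaf K2_ok TB_l33573 _)
             (CovZ.leaf K2_ok TB_l33574 _))
            (CovZ.n1 (-15024, 13008) (by decide +kernel)
             (CovZ.leaf K2_ok TB_l33575 _)
             (CovZ.leaf K2_ok TB_l33576 _)))
           (CovZ.n1 (-15072, 12864) (by decide +kernel)
            (CovZ.leaf K2_ok TB_l33577 _)
            (CovZ.n1 (-15024, 12912) (by decide +kernel)
             (CovZ.badM (by decide +kernel))
             (CovZ.leaf K2_ok TB_l33580 _)))))))))

theorem TB_u317 : CovZ TB_M (toL (selN TB_LN 139984046386120720468216605634914239402145972830219252642459406730488374836423417220331187025689444392)) [0, 7, 6, 1] (-15360, 13824) (-14976, 13440) (-14592, 13824) :=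
    (CovZ.subM 139984046386112763175017243256041275749161140508862054312728217719805512394804483941379443532811468808 (by decide +kernel)
       (CovZ.n2 (-14976, 13824) (by decide +kernel)
        (CovZ.subM 139984046386112763159840142535527767382602843577165595931249318810236994484061561774219112930128953344 (by decide +kernel)
         (CovZ.n2 (-14784, 13632) (by decide +kernel)
          (CovZ.n2 (-14976, 13632) (by decide +kernel)
           (CovZ.n2 (-14880, 13728) (by decide +kernel)
            (CovZ.n2 (-14880, 13632) (by decide +kernel)
             (CovZ.n2 (-14928, 13680) (by decide +kernel)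
              (CovZ.badM (by decide +kernel))
              (CovZ.n1 (-14928, 13632) (by decide +kernel)
               (CovZ.n2 (-14952, 13656) (by decide +kernel)
                (CovZ.badM (by decide +kernel))
                (CovZ.n1 (-14952, 13632) (by decide +kernel)
                 (CovZ.leaf K2_ok TB_l33581 _)
                 (CovZ.leaf K2_ok TB_l45827 _)))
               (CovZ.badM (by decide +kernel))))
             (CovZ.badM (by decide +kernel)))
            (CovZ.n1 (-14976, 13728) (by decide +kernel)
             (CovZ.badM (by decide +kernel))
             (CovZ.n1 (-14928, 13680) (by decide +kernel)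
              (CovZ.n2 (-14976, 13680) (by decide +kernel)
               (CovZ.badM (by decide +kernel))
               (CovZ.n1 (-14952, 13656) (by decide +kernel)
                (CovZ.n2 (-14976, 13656) (by decide +kernel)
                 (CovZ.badM (by decide +kernel))
                 (CovZ.leaf K2_ok TB_l33582 _))
                (CovZ.badM (by decide +kernel))))
              (CovZ.badM (by decide +kernel)))))
           (CovZ.n1 (-14880, 13536) (by decide +kernel)
            (CovZ.n2 (-14976, 13536) (by decide +kernel)
             (CovZ.n2 (-14928, 13584) (by decide +kernel)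
              (CovZ.n2 (-14928, 13536) (by decide +kernel)
               (CovZ.leaf K2_ok TB_l33583 _)
               (CovZ.leaf K2_ok TB_l33584 _))
              (CovZ.n1 (-14976, 13584) (by decide +kernel)
               (CovZ.n2 (-14952, 13608) (by decide +kernel)
                (CovZ.leaf K2_ok TB_l33585 _)
                (CovZ.leaf K2_ok TB_l33586 _))
               (CovZ.leaf K2_ok TB_l33587 _)))
             (CovZ.n1 (-14928, 13488) (by decide +kernel)
              (CovZ.leaf K2_ok TB_l33588 _)
              (CovZ.n1 (-14928, 13536) (by decide +kernel)
               (CovZ.leaf K2_ok TB_l33589 _)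
               (CovZ.leaf K2_ok TB_l33590 _))))
            (CovZ.n1 (-14880, 13632) (by decide +kernel)
             (CovZ.n2 (-14832, 13584) (by decide +kernel)
              (CovZ.n2 (-14880, 13584) (by decide +kernel)
               (CovZ.n2 (-14856, 13608) (by decide +kernel)
                (CovZ.n2 (-14856, 13584) (by decide +kernel)
                 (CovZ.leaf K2_ok TB_l33591 _)
                 (CovZ.leaf K2_ok TB_l45828 _))
                (CovZ.n1 (-14880, 13608) (by decide +kernel)
                 (CovZ.badM (by decide +kernel))
                 (CovZ.leaf K2_ok TB_l33592 _)))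
               (CovZ.n1 (-14856, 13560) (by decide +kernel)
                (CovZ.leaf K2_ok TB_l33593 _)
                (CovZ.leaf K2_ok TB_l33594 _)))
              (CovZ.badM (by decide +kernel)))
             (CovZ.n1 (-14928, 13584) (by decide +kernel)
              (CovZ.n2 (-14928, 13632) (by decide +kernel)
               (CovZ.n2 (-14904, 13608) (by decide +kernel)
                (CovZ.leaf K2_ok TB_l33595 _)
                (CovZ.n1 (-14904, 13632) (by decide +kernel)
                 (CovZ.leaf K2_ok TB_l45829 _)
                 (CovZ.leaf K2_ok TB_l45830 _)))
               (CovZ.n1 (-14952, 13608) (by decide +kernel)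
                (CovZ.n2 (-14952, 13632) (by decide +kernel)
                 (CovZ.leaf K2_ok TB_l33596 _)
                 (CovZ.leaf K2_ok TB_l33597 _))
                (CovZ.leaf K2_ok TB_l33598 _)))
              (CovZ.n1 (-14880, 13584) (by decide +kernel)
               (CovZ.leaf K2_ok TB_l33599 _)
               (CovZ.n1 (-14904, 13608) (by decide +kernel)
                (CovZ.n2 (-14880, 13608) (by decide +kernel)
                 (CovZ.leaf K2_ok TB_l33600 _)
                 (CovZ.leaf K2_ok TB_l45831 _))
                (CovZ.leaf K2_ok TB_l33601 _)))))))
          (CovZ.badM (by decide +kernel))))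
        (CovZ.n1 (-15168, 13632) (by decide +kernel)
         (CovZ.n2 (-15168, 13824) (by decide +kernel)
          (CovZ.subM 139984046386112763159840142535527767382602843577165595931249318810236994484061561774219112930128953344 (by decide +kernel)
           (CovZ.n2 (-15072, 13728) (by decide +kernel)
            (CovZ.n2 (-15168, 13728) (by decide +kernel)
             (CovZ.n2 (-15120, 13776) (by decide +kernel)
              (CovZ.n2 (-15120, 13728) (by decide +kernel)
               (CovZ.n2 (-15144, 13752) (by decide +kernel)
                (CovZ.badM (by decide +kernel))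
                (CovZ.n1 (-15144, 13728) (by decide +kernel)
                 (CovZ.leaf K2_ok TB_l45832 _)
                 (CovZ.badM (by decide +kernel))))
               (CovZ.badM (by decide +kernel)))
              (CovZ.n1 (-15168, 13776) (by decide +kernel)
               (CovZ.badM (by decide +kernel))
               (CovZ.n1 (-15144, 13752) (by decide +kernel)
                (CovZ.n2 (-15168, 13752) (by decide +kernel)
                 (CovZ.badM (by decide +kernel))
                 (CovZ.leaf K2_ok TB_l45833 _))
                (CovZ.badM (by decide +kernel)))))
             (CovZ.n1 (-15120, 13680) (by decide +kernel)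
              (CovZ.n2 (-15168, 13680) (by decide +kernel)
               (CovZ.n2 (-15144, 13704) (by decide +kernel)
                (CovZ.leaf K2_ok TB_l33602 _)
                (CovZ.leaf K2_ok TB_l33603 _))
               (CovZ.leaf K2_ok TB_l33604 _))
              (CovZ.n1 (-15120, 13728) (by decide +kernel)
               (CovZ.n2 (-15096, 13704) (by decide +kernel)
                (CovZ.leaf K2_ok TB_l33605 _)
                (CovZ.badM (by decide +kernel)))
               (CovZ.n1 (-15144, 13704) (by decide +kernel)
                (CovZ.leaf K2_ok TB_l33606 _)
                (CovZ.leaf K2_ok TB_l33607 _)))))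
            (CovZ.badM (by decide +kernel))))
          (CovZ.n1 (-15264, 13728) (by decide +kernel)
           (CovZ.n2 (-15264, 13824) (by decide +kernel)
            (CovZ.subM 2535301502687914269600653508608 (by decide +kernel)
             (CovZ.n2 (-15216, 13776) (by decide +kernel)
              (CovZ.n2 (-15264, 13776) (by decide +kernel)
               (CovZ.badM (by decide +kernel))
               (CovZ.n1 (-15240, 13752) (by decide +kernel)
                (CovZ.leaf K2_ok TB_l33613 _)
                (CovZ.n1 (-15240, 13776) (by decide +kernel)
                 (CovZ.leaf K2_ok TB_l33614 _)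
                 (CovZ.leaf K2_ok TB_l33615 _))))
              (CovZ.badM (by decide +kernel))))
            (CovZ.n1 (-15312, 13776) (by decide +kernel)
             (CovZ.n2 (-15312, 13824) (by decide +kernel)
              (CovZ.n2 (-15288, 13800) (by decide +kernel)
               (CovZ.n2 (-15312, 13800) (by decide +kernel)
                (CovZ.badM (by decide +kernel))
                (CovZ.leaf K2_ok TB_l33618 _))
               (CovZ.badM (by decide +kernel)))
              (CovZ.n1 (-15336, 13800) (by decide +kernel)
               (CovZ.n2 (-15336, 13824) (by decide +kernel)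
                (CovZ.leaf K2_ok TB_l33619 _)
                (CovZ.leaf K2_ok TB_l33620 _))
               (CovZ.n1 (-15312, 13800) (by decide +kernel)
                (CovZ.leaf K2_ok TB_l33621 _)
                (CovZ.leaf K2_ok TB_l33622 _))))
             (CovZ.subM 2535301502687914269600653508608 (by decide +kernel)
              (CovZ.n1 (-15264, 13776) (by decide +kernel)
               (CovZ.leaf K2_ok TB_l33623 _)
               (CovZ.n1 (-15288, 13800) (by decide +kernel)
                (CovZ.badM (by decide +kernel))
                (CovZ.n1 (-15288, 13776) (by decide +kernel)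
                 (CovZ.leaf K2_ok TB_l33625 _)
                 (CovZ.leaf K2_ok TB_l33626 _)))))))
           (CovZ.subM 139984046386112763159840142535527767382602843577165595931249318810236994484061561774219112930128953344 (by decide +kernel)
            (CovZ.n1 (-15168, 13728) (by decide +kernel)
             (CovZ.n2 (-15216, 13680) (by decide +kernel)
              (CovZ.n2 (-15216, 13728) (by decide +kernel)
               (CovZ.leaf K2_ok TB_l33627 _)
               (CovZ.leaf K2_ok TB_l33628 _))
              (CovZ.n1 (-15168, 13680) (by decide +kernel)
               (CovZ.leaf K2_ok TB_l33629 _)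
               (CovZ.leaf K2_ok TB_l33630 _)))
             (CovZ.n1 (-15216, 13776) (by decide +kernel)
              (CovZ.n2 (-15168, 13776) (by decide +kernel)
               (CovZ.n2 (-15192, 13752) (by decide +kernel)
                (CovZ.badM (by decide +kernel))
                (CovZ.n1 (-15168, 13752) (by decide +kernel)
                 (CovZ.leaf K2_ok TB_l45834 _)
                 (CovZ.badM (by decide +kernel))))
               (CovZ.badM (by decide +kernel)))
              (CovZ.n1 (-15216, 13728) (by decide +kernel)
               (CovZ.n2 (-15240, 13752) (by decide +kernel)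
                (CovZ.leaf K2_ok TB_l33631 _)
                (CovZ.leaf K2_ok TB_l33632 _))
               (CovZ.n1 (-15192, 13752) (by decide +kernel)
                (CovZ.leaf K2_ok TB_l33633 _)
                (CovZ.leaf K2_ok TB_l33634 _))))))))
         (CovZ.subM 139984046386112763159840142535527767382602843577165595931249318810236994484061561774219112930128953344 (by decide +kernel)
          (CovZ.n1 (-14976, 13632) (by decide +kernel)
           (CovZ.n2 (-15072, 13536) (by decide +kernel)
            (CovZ.n2 (-15072, 13632) (by decide +kernel)
             (CovZ.n2 (-15024, 13584) (by decide +kernel)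
              (CovZ.leaf K2_ok TB_l33635 _)
              (CovZ.n1 (-15024, 13632) (by decide +kernel)
               (CovZ.leaf K2_ok TB_l33636 _)
               (CovZ.leaf K2_ok TB_l33637 _)))
             (CovZ.n1 (-15120, 13584) (by decide +kernel)
              (CovZ.leaf K2_ok TB_l33638 _)
              (CovZ.leaf K2_ok TB_l33639 _)))
            (CovZ.n1 (-14976, 13536) (by decide +kernel)
             (CovZ.n2 (-15024, 13488) (by decide +kernel)
              (CovZ.leaf K2_ok TB_l33640 _)
              (CovZ.leaf K2_ok TB_l33641 _))
             (CovZ.n1 (-15024, 13584) (by decide +kernel)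
              (CovZ.n2 (-14976, 13584) (by decide +kernel)
               (CovZ.leaf K2_ok TB_l33642 _)
               (CovZ.leaf K2_ok TB_l33643 _))
              (CovZ.leaf K2_ok TB_l33644 _))))
           (CovZ.n1 (-15072, 13728) (by decide +kernel)
            (CovZ.n2 (-14976, 13728) (by decide +kernel)
             (CovZ.n2 (-15024, 13680) (by decide +kernel)
              (CovZ.badM (by decide +kernel))
              (CovZ.n1 (-14976, 13680) (by decide +kernel)
               (CovZ.n2 (-15000, 13656) (by decide +kernel)
                (CovZ.badM (by decide +kernel))
                (CovZ.n1 (-14976, 13656) (by decide +kernel)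
                 (CovZ.leaf K2_ok TB_l33647 _)
                 (CovZ.badM (by decide +kernel))))
               (CovZ.badM (by decide +kernel))))
             (CovZ.badM (by decide +kernel)))
            (CovZ.n1 (-15072, 13632) (by decide +kernel)
             (CovZ.n2 (-15120, 13680) (by decide +kernel)
              (CovZ.n2 (-15072, 13680) (by decide +kernel)
               (CovZ.leaf K2_ok TB_l33649 _)
               (CovZ.n1 (-15096, 13704) (by decide +kernel)
                (CovZ.n2 (-15072, 13704) (by decide +kernel)
                 (CovZ.leaf K2_ok TB_l33650 _)
                 (CovZ.badM (by decide +kernel)))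
                (CovZ.leaf K2_ok TB_l33651 _)))
              (CovZ.n1 (-15120, 13632) (by decide +kernel)
               (CovZ.leaf K2_ok TB_l33652 _)
               (CovZ.leaf K2_ok TB_l33653 _)))
             (CovZ.n1 (-15024, 13680) (by decide +kernel)
              (CovZ.n2 (-15024, 13632) (by decide +kernel)
               (CovZ.n2 (-15048, 13656) (by decide +kernel)
                (CovZ.leaf K2_ok TB_l33654 _)
                (CovZ.leaf K2_ok TB_l33655 _))
               (CovZ.n1 (-15000, 13656) (by decide +kernel)
                (CovZ.leaf K2_ok TB_l33656 _)
                (CovZ.leaf K2_ok TB_l33657 _)))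
              (CovZ.n1 (-15072, 13680) (by decide +kernel)
               (CovZ.n2 (-15048, 13704) (by decide +kernel)
                (CovZ.n2 (-15048, 13680) (by decide +kernel)
                 (CovZ.leaf K2_ok TB_l33658 _)
                 (CovZ.badM (by decide +kernel)))
                (CovZ.n1 (-15072, 13704) (by decide +kernel)
                 (CovZ.badM (by decide +kernel))
                 (CovZ.leaf K2_ok TB_l33659 _)))
               (CovZ.n1 (-15048, 13656) (by decide +kernel)
                (CovZ.leaf K2_ok TB_l33660 _)
                (CovZ.leaf K2_ok TB_l33661 _)))))))))))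

theorem TB_u318 : CovZ TB_M (toL (selN TB_LN 139984046386120720468216605634914239402145972830219252642459406730488374836423417220331187025689444392)) [0, 7, 6, 1] (-14976, 13440) (-14592, 13056) (-14592, 13824) :=
    (CovZ.subM 139984046386112763159840142535527767382602843577165595931249318810236994484061561774219112930128953344 (by decide +kernel)
       (CovZ.n1 (-14592, 13440) (by decide +kernel)
        (CovZ.n2 (-14784, 13248) (by decide +kernel)
         (CovZ.n2 (-14784, 13440) (by decide +kernel)
          (CovZ.badM (by decide +kernel))
          (CovZ.n1 (-14880, 13344) (by decide +kernel)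
           (CovZ.n2 (-14880, 13440) (by decide +kernel)
            (CovZ.n2 (-14832, 13392) (by decide +kernel)
             (CovZ.leaf K2_ok TB_l33674 _)
             (CovZ.n1 (-14832, 13440) (by decide +kernel)
              (CovZ.leaf K2_ok TB_l33675 _)
              (CovZ.leaf K2_ok TB_l33676 _)))
            (CovZ.n1 (-14928, 13392) (by decide +kernel)
             (CovZ.leaf K2_ok TB_l33677 _)
             (CovZ.leaf K2_ok TB_l33678 _)))
           (CovZ.n1 (-14784, 13344) (by decide +kernel)
            (CovZ.n2 (-14832, 13296) (by decide +kernel)
             (CovZ.n2 (-14832, 13344) (by decide +kernel)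
              (CovZ.badM (by decide +kernel))
              (CovZ.leaf K2_ok TB_l33680 _))
             (CovZ.badM (by decide +kernel)))
            (CovZ.n1 (-14832, 13392) (by decide +kernel)
             (CovZ.leaf K2_ok TB_l33682 _)
             (CovZ.n1 (-14832, 13344) (by decide +kernel)
              (CovZ.leaf K2_ok TB_l33683 _)
              (CovZ.leaf K2_ok TB_l33684 _))))))
         (CovZ.badM (by decide +kernel)))
        (CovZ.n1 (-14784, 13632) (by decide +kernel)
         (CovZ.n2 (-14592, 13632) (by decide +kernel)
          (CovZ.n2 (-14688, 13536) (by decide +kernel)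
           (CovZ.badM (by decide +kernel))
           (CovZ.badM (by decide +kernel)))
          (CovZ.badM (by decide +kernel)))
         (CovZ.n1 (-14784, 13440) (by decide +kernel)
          (CovZ.n2 (-14880, 13536) (by decide +kernel)
           (CovZ.n2 (-14784, 13536) (by decide +kernel)
            (CovZ.n2 (-14832, 13488) (by decide +kernel)
             (CovZ.n2 (-14832, 13536) (by decide +kernel)
              (CovZ.n2 (-14808, 13512) (by decide +kernel)
               (CovZ.leaf K2_ok TB_l33693 _)
               (CovZ.leaf K2_ok TB_l33694 _))
              (CovZ.leaf K2_ok TB_l33695 _))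
             (CovZ.n1 (-14784, 13488) (by decide +kernel)
              (CovZ.leaf K2_ok TB_l33696 _)
              (CovZ.n1 (-14808, 13512) (by decide +kernel)
               (CovZ.leaf K2_ok TB_l33697 _)
               (CovZ.leaf K2_ok TB_l33698 _))))
            (CovZ.n1 (-14832, 13584) (by decide +kernel)
             (CovZ.n2 (-14784, 13584) (by decide +kernel)
              (CovZ.n2 (-14808, 13560) (by decide +kernel)
               (CovZ.n2 (-14808, 13584) (by decide +kernel)
                (CovZ.n2 (-14796, 13572) (by decide +kernel)
                 (CovZ.leaf K2_ok TB_l45835 _)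
                 (CovZ.badM (by decide +kernel)))
                (CovZ.leaf K2_ok TB_l45836 _))
               (CovZ.n1 (-14784, 13560) (by decide +kernel)
                (CovZ.leaf K2_ok TB_l33699 _)
                (CovZ.n1 (-14796, 13572) (by decide +kernel)
                 (CovZ.badM (by decide +kernel))
                 (CovZ.leaf K2_ok TB_l45837 _))))
              (CovZ.badM (by decide +kernel)))
             (CovZ.n1 (-14832, 13536) (by decide +kernel)
              (CovZ.n2 (-14856, 13560) (by decide +kernel)
               (CovZ.n2 (-14832, 13560) (by decide +kernel)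
                (CovZ.leaf K2_ok TB_l33700 _)
                (CovZ.leaf K2_ok TB_l33701 _))
               (CovZ.leaf K2_ok TB_l33702 _))
              (CovZ.n1 (-14808, 13560) (by decide +kernel)
               (CovZ.n2 (-14808, 13536) (by decide +kernel)
                (CovZ.leaf K2_ok TB_l33703 _)
                (CovZ.leaf K2_ok TB_l33704 _))
               (CovZ.leaf K2_ok TB_l33705 _)))))
           (CovZ.n1 (-14880, 13440) (by decide +kernel)
            (CovZ.n2 (-14928, 13488) (by decide +kernel)
             (CovZ.leaf K2_ok TB_l33706 _)
             (CovZ.leaf K2_ok TB_l33707 _))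
            (CovZ.n1 (-14832, 13488) (by decide +kernel)
             (CovZ.n2 (-14832, 13440) (by decide +kernel)
              (CovZ.leaf K2_ok TB_l33708 _)
              (CovZ.leaf K2_ok TB_l33709 _))
             (CovZ.n1 (-14880, 13488) (by decide +kernel)
              (CovZ.leaf K2_ok TB_l33710 _)
              (CovZ.leaf K2_ok TB_l33711 _)))))
          (CovZ.n1 (-14688, 13536) (by decide +kernel)
           (CovZ.badM (by decide +kernel))
           (CovZ.n1 (-14784, 13536) (by decide +kernel)
            (CovZ.n2 (-14736, 13584) (by decide +kernel)
             (CovZ.n2 (-14736, 13536) (by decide +kernel)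
              (CovZ.n2 (-14760, 13560) (by decide +kernel)
               (CovZ.n2 (-14736, 13560) (by decide +kernel)
                (CovZ.n2 (-14748, 13548) (by decide +kernel)
                 (CovZ.badM (by decide +kernel))
                 (CovZ.badM (by decide +kernel)))
                (CovZ.badM (by decide +kernel)))
               (CovZ.n1 (-14760, 13536) (by decide +kernel)
                (CovZ.n2 (-14772, 13548) (by decide +kernel)
                 (CovZ.leaf K2_ok TB_l33717 _)
                 (CovZ.leaf K2_ok TB_l33718 _))
                (CovZ.n1 (-14748, 13548) (by decide +kernel)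
                 (CovZ.leaf K2_ok TB_l33719 _)
                 (CovZ.leaf K2_ok TB_l33720 _))))
              (CovZ.badM (by decide +kernel)))
             (CovZ.n1 (-14784, 13584) (by decide +kernel)
              (CovZ.badM (by decide +kernel))
              (CovZ.n1 (-14760, 13560) (by decide +kernel)
               (CovZ.n2 (-14784, 13560) (by decide +kernel)
                (CovZ.badM (by decide +kernel))
                (CovZ.leaf K2_ok TB_l33721 _))
               (CovZ.badM (by decide +kernel)))))
            (CovZ.n1 (-14736, 13488) (by decide +kernel)
             (CovZ.n2 (-14784, 13488) (by decide +kernel)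
              (CovZ.n2 (-14760, 13512) (by decide +kernel)
               (CovZ.leaf K2_ok TB_l33722 _)
               (CovZ.leaf K2_ok TB_l33723 _))
              (CovZ.leaf K2_ok TB_l33724 _))
             (CovZ.n1 (-14736, 13536) (by decide +kernel)
              (CovZ.badM (by decide +kernel))
              (CovZ.n1 (-14760, 13512) (by decide +kernel)
               (CovZ.n2 (-14760, 13536) (by decide +kernel)
                (CovZ.leaf K2_ok TB_l33728 _)
                (CovZ.leaf K2_ok TB_l33729 _))
               (CovZ.badM (by decide +kernel)))))))))))

theorem TB_u319 : CovZ TB_M (toL (selN TB_LN 2785454248299521226803089681844919121477758805224079496346000577618630869109190257812226864814290076542645076000)) [0, 7, 6, 1] (-16896, 14976) (-16992, 14976) (-16992, 14880) :=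
    (CovZ.n2 (-16944, 14928) (by decide +kernel)
             (CovZ.n2 (-16992, 14928) (by decide +kernel)
              (CovZ.subM 2484758052574715555237440774161732139987887194496378683604114146274129367929550402758166358454578384201781870592 (by decide +kernel)
               (CovZ.n2 (-16968, 14952) (by decide +kernel)
                (CovZ.n2 (-16968, 14928) (by decide +kernel)
                 (CovZ.n2 (-16980, 14940) (by decide +kernel)
                  (CovZ.n2 (-16968, 14940) (by decide +kernel)
                   (CovZ.n2 (-16974, 14934) (by decide +kernel)
                    (CovZ.leaf K2_ok TB_l42125 _)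
                    (CovZ.leaf K2_ok TB_l42126 _))
                   (CovZ.leaf K2_ok TB_l42127 _))
                  (CovZ.n1 (-16980, 14928) (by decide +kernel)
                   (CovZ.n2 (-16986, 14934) (by decide +kernel)
                    (CovZ.leaf K2_ok TB_l42128 _)
                    (CovZ.leaf K2_ok TB_l42129 _))
                   (CovZ.n1 (-16974, 14934) (by decide +kernel)
                    (CovZ.n2 (-16974, 14928) (by decide +kernel)
                     (CovZ.leaf K2_ok TB_l42130 _)
                     (CovZ.leaf K2_ok TB_l42131 _))
                    (CovZ.leaf K2_ok TB_l42132 _))))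
                 (CovZ.n1 (-16956, 14940) (by decide +kernel)
                  (CovZ.n2 (-16956, 14928) (by decide +kernel)
                   (CovZ.n2 (-16962, 14934) (by decide +kernel)
                    (CovZ.leaf K2_ok TB_l42133 _)
                    (CovZ.n1 (-16962, 14928) (by decide +kernel)
                     (CovZ.leaf K2_ok TB_l42134 _)
                     (CovZ.leaf K2_ok TB_l42135 _)))
                   (CovZ.leaf K2_ok TB_l42136 _))
                  (CovZ.n1 (-16968, 14940) (by decide +kernel)
                   (CovZ.leaf K2_ok TB_l42137 _)
                   (CovZ.n1 (-16962, 14934) (by decide +kernel)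
                    (CovZ.leaf K2_ok TB_l42138 _)
                    (CovZ.leaf K2_ok TB_l42139 _)))))
                (CovZ.n1 (-16992, 14952) (by decide +kernel)
                 (CovZ.n2 (-16980, 14964) (by decide +kernel)
                  (CovZ.n2 (-16980, 14952) (by decide +kernel)
                   (CovZ.leaf K2_ok TB_l42140 _)
                   (CovZ.leaf K2_ok TB_l42141 _))
                  (CovZ.leaf K2_ok TB_l42142 _))
                 (CovZ.n1 (-16980, 14940) (by decide +kernel)
                  (CovZ.leaf K2_ok TB_l42143 _)
                  (CovZ.n1 (-16980, 14952) (by decide +kernel)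
                   (CovZ.leaf K2_ok TB_l42144 _)
                   (CovZ.leaf K2_ok TB_l42145 _))))))
              (CovZ.subM 2484840761868554697223925166681566122672420939157321097257039838759582576225902455111963329400533661224372535296 (by decide +kernel)
               (CovZ.n1 (-16968, 14904) (by decide +kernel)
                (CovZ.n2 (-16992, 14904) (by decide +kernel)
                 (CovZ.n2 (-16980, 14916) (by decide +kernel)
                  (CovZ.n2 (-16980, 14904) (by decide +kernel)
                   (CovZ.n2 (-16986, 14910) (by decide +kernel)
                    (CovZ.n2 (-16980, 14910) (by decide +kernel)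
                     (CovZ.leaf K2_ok TB_l42146 _)
                     (CovZ.leaf K2_ok TB_l42147 _))
                    (CovZ.n1 (-16986, 14904) (by decide +kernel)
                     (CovZ.n2 (-16989, 14907) (by decide +kernel)
                      (CovZ.leaf K2_ok TB_l42148 _)
                      (CovZ.leaf K2_ok TB_l42149 _))
                     (CovZ.leaf K2_ok TB_l42150 _)))
                   (CovZ.subM 2484758052574715555237440773888544327018202332132134756874660975652355176558886411607911333595514566444964642816 (by decide +kernel)
                    (CovZ.n1 (-16974, 14910) (by decide +kernel)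
                     (CovZ.n2 (-16974, 14904) (by decide +kernel)
                      (CovZ.leaf K2_ok TB_l42151 _)
                      (CovZ.leaf K2_ok TB_l42152 _))
                     (CovZ.n1 (-16980, 14910) (by decide +kernel)
                      (CovZ.leaf K2_ok TB_l42153 _)
                      (CovZ.leaf K2_ok TB_l42154 _)))))
                  (CovZ.n1 (-16992, 14916) (by decide +kernel)
                   (CovZ.n2 (-16986, 14922) (by decide +kernel)
                    (CovZ.n2 (-16986, 14916) (by decide +kernel)
                     (CovZ.leaf K2_ok TB_l42155 _)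
                     (CovZ.leaf K2_ok TB_l42156 _))
                    (CovZ.leaf K2_ok TB_l42157 _))
                   (CovZ.n1 (-16986, 14910) (by decide +kernel)
                    (CovZ.leaf K2_ok TB_l42158 _)
                    (CovZ.leaf K2_ok TB_l42159 _))))
                 (CovZ.n1 (-16980, 14892) (by decide +kernel)
                  (CovZ.n2 (-16992, 14892) (by decide +kernel)
                   (CovZ.n2 (-16986, 14898) (by decide +kernel)
                    (CovZ.leaf K2_ok TB_l42160 _)
                    (CovZ.leaf K2_ok TB_l42161 _))
                   (CovZ.leaf K2_ok TB_l42162 _))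
                  (CovZ.subM 2480060967409167888781665791645108275790693718351993160626301206612771255505178829966562034659230522699063230464 (by decide +kernel)
                   (CovZ.n1 (-16980, 14904) (by decide +kernel)
                    (CovZ.n2 (-16974, 14898) (by decide +kernel)
                     (CovZ.n2 (-16980, 14898) (by decide +kernel)
                      (CovZ.leaf K2_ok TB_l42163 _)
                      (CovZ.leaf K2_ok TB_l42164 _))
                     (CovZ.n1 (-16974, 14904) (by decide +kernel)
                      (CovZ.leaf K2_ok TB_l42165 _)
                      (CovZ.leaf K2_ok TB_l42166 _)))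
                    (CovZ.n1 (-16986, 14898) (by decide +kernel)
                     (CovZ.leaf K2_ok TB_l42167 _)
                     (CovZ.leaf K2_ok TB_l42168 _))))))
                (CovZ.subM 2484758052574715555237440774131377938546860177763262091309996663357841761069360722738606789552408003645938860032 (by decide +kernel)
                 (CovZ.n1 (-16968, 14928) (by decide +kernel)
                  (CovZ.n2 (-16956, 14916) (by decide +kernel)
                   (CovZ.n2 (-16968, 14916) (by decide +kernel)
                    (CovZ.leaf K2_ok TB_l42169 _)
                    (CovZ.n1 (-16962, 14910) (by decide +kernel)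
                     (CovZ.leaf K2_ok TB_l42170 _)
                     (CovZ.n1 (-16962, 14916) (by decide +kernel)
                      (CovZ.leaf K2_ok TB_l42171 _)
                      (CovZ.leaf K2_ok TB_l42172 _))))
                   (CovZ.n1 (-16956, 14928) (by decide +kernel)
                    (CovZ.n2 (-16950, 14922) (by decide +kernel)
                     (CovZ.leaf K2_ok TB_l42173 _)
                     (CovZ.leaf K2_ok TB_l42174 _))
                    (CovZ.n1 (-16962, 14922) (by decide +kernel)
                     (CovZ.leaf K2_ok TB_l42175 _)
                     (CovZ.n1 (-16956, 14922) (by decide +kernel)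
                      (CovZ.leaf K2_ok TB_l42176 _)
                      (CovZ.leaf K2_ok TB_l42177 _)))))
                  (CovZ.n1 (-16980, 14916) (by decide +kernel)
                   (CovZ.n2 (-16980, 14928) (by decide +kernel)
                    (CovZ.n2 (-16974, 14922) (by decide +kernel)
                     (CovZ.leaf K2_ok TB_l42178 _)
                     (CovZ.leaf K2_ok TB_l42179 _))
                    (CovZ.n1 (-16986, 14922) (by decide +kernel)
                     (CovZ.leaf K2_ok TB_l42180 _)
                     (CovZ.leaf K2_ok TB_l42181 _)))
                   (CovZ.n1 (-16968, 14916) (by decide +kernel)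
                    (CovZ.n2 (-16974, 14910) (by decide +kernel)
                     (CovZ.n2 (-16974, 14916) (by decide +kernel)
                      (CovZ.n2 (-16971, 14913) (by decide +kernel)
                       (CovZ.leaf K2_ok TB_l42182 _)
                       (CovZ.leaf K2_ok TB_l42183 _))
                      (CovZ.leaf K2_ok TB_l42184 _))
                     (CovZ.n1 (-16968, 14910) (by decide +kernel)
                      (CovZ.leaf K2_ok TB_l42185 _)
                      (CovZ.leaf K2_ok TB_l42186 _)))
                    (CovZ.n1 (-16974, 14922) (by decide +kernel)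
                     (CovZ.leaf K2_ok TB_l42187 _)
                     (CovZ.n1 (-16974, 14916) (by decide +kernel)
                      (CovZ.leaf K2_ok TB_l42188 _)
                      (CovZ.leaf K2_ok TB_l42189 _))))))))))
             (CovZ.subM 2710218140521003545114830911210674883087736585326644652839074216210920579459035373174204911082153214410940743680 (by decide +kernel)
              (CovZ.n1 (-16944, 14976) (by decide +kernel)
               (CovZ.n2 (-16920, 14952) (by decide +kernel)
                (CovZ.n2 (-16944, 14952) (by decide +kernel)
                 (CovZ.n2 (-16932, 14964) (by decide +kernel)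
                  (CovZ.n2 (-16932, 14952) (by decide +kernel)
                   (CovZ.leaf K2_ok TB_l42190 _)
                   (CovZ.leaf K2_ok TB_l42191 _))
                  (CovZ.leaf K2_ok TB_l42192 _))
                 (CovZ.n1 (-16932, 14940) (by decide +kernel)
                  (CovZ.n2 (-16944, 14940) (by decide +kernel)
                   (CovZ.leaf K2_ok TB_l42193 _)
                   (CovZ.n1 (-16938, 14934) (by decide +kernel)
                    (CovZ.leaf K2_ok TB_l42194 _)
                    (CovZ.leaf K2_ok TB_l42195 _)))
                  (CovZ.n1 (-16932, 14952) (by decide +kernel)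
                   (CovZ.leaf K2_ok TB_l42196 _)
                   (CovZ.leaf K2_ok TB_l42197 _))))
                (CovZ.n1 (-16920, 14976) (by decide +kernel)
                 (CovZ.n2 (-16908, 14964) (by decide +kernel)
                  (CovZ.leaf K2_ok TB_l42198 _)
                  (CovZ.leaf K2_ok TB_l42199 _))
                 (CovZ.n1 (-16932, 14964) (by decide +kernel)
                  (CovZ.n2 (-16932, 14976) (by decide +kernel)
                   (CovZ.leaf K2_ok TB_l42200 _)
                   (CovZ.leaf K2_ok TB_l42201 _))
                  (CovZ.leaf K2_ok TB_l42202 _))))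
               (CovZ.n1 (-16968, 14952) (by decide +kernel)
                (CovZ.n2 (-16968, 14976) (by decide +kernel)
                 (CovZ.n2 (-16956, 14964) (by decide +kernel)
                  (CovZ.leaf K2_ok TB_l42203 _)
                  (CovZ.leaf K2_ok TB_l42204 _))
                 (CovZ.n1 (-16980, 14964) (by decide +kernel)
                  (CovZ.leaf K2_ok TB_l42205 _)
                  (CovZ.leaf K2_ok TB_l42206 _)))
                (CovZ.n1 (-16944, 14952) (by decide +kernel)
                 (CovZ.n2 (-16956, 14940) (by decide +kernel)
                  (CovZ.n2 (-16956, 14952) (by decide +kernel)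
                   (CovZ.leaf K2_ok TB_l42207 _)
                   (CovZ.leaf K2_ok TB_l42208 _))
                  (CovZ.n1 (-16944, 14940) (by decide +kernel)
                   (CovZ.leaf K2_ok TB_l42209 _)
                   (CovZ.leaf K2_ok TB_l42210 _)))
                 (CovZ.n1 (-16956, 14964) (by decide +kernel)
                  (CovZ.leaf K2_ok TB_l42211 _)
                  (CovZ.n1 (-16956, 14952) (by decide +kernel)
                   (CovZ.leaf K2_ok TB_l42212 _)
                   (CovZ.leaf K2_ok TB_l42213 _))))))))

theorem TB_u320 : CovZ TB_M (toL (selN TB_LN 2785454248299521226803089681844919121477758805224079496346000577618630869109190257812226864814290076542645076000)) [0, 7, 6, 1] (-16992, 14976) (-17088, 14976) (-16992, 14880) :=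
    (CovZ.n1 (-17040, 14928) (by decide +kernel)
             (CovZ.n2 (-17040, 14976) (by decide +kernel)
              (CovZ.n2 (-17016, 14952) (by decide +kernel)
               (CovZ.n2 (-17040, 14952) (by decide +kernel)
                (CovZ.n2 (-17028, 14964) (by decide +kernel)
                 (CovZ.leaf K2_ok TB_l42214 _)
                 (CovZ.leaf K2_ok TB_l42215 _))
                (CovZ.n1 (-17028, 14940) (by decide +kernel)
                 (CovZ.leaf K2_ok TB_l42216 _)
                 (CovZ.leaf K2_ok TB_l42217 _)))
               (CovZ.subM 2484758052574715555237440774283148946656620958595377829527232398319654075473980883107333612940996800109139230720 (by decide +kernel)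
                (CovZ.n1 (-17016, 14976) (by decide +kernel)
                 (CovZ.n2 (-17004, 14964) (by decide +kernel)
                  (CovZ.leaf K2_ok TB_l42218 _)
                  (CovZ.leaf K2_ok TB_l42219 _))
                 (CovZ.n1 (-17028, 14964) (by decide +kernel)
                  (CovZ.leaf K2_ok TB_l42220 _)
                  (CovZ.leaf K2_ok TB_l42221 _)))))
              (CovZ.n1 (-17064, 14952) (by decide +kernel)
               (CovZ.n2 (-17064, 14976) (by decide +kernel)
                (CovZ.n2 (-17052, 14964) (by decide +kernel)
                 (CovZ.leaf K2_ok TB_l21697 _)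
                 (CovZ.leaf K2_ok TB_l21698 _))
                (CovZ.n1 (-17076, 14964) (by decide +kernel)
                 (CovZ.leaf K2_ok TB_l21699 _)
                 (CovZ.leaf K2_ok TB_l21700 _)))
               (CovZ.n1 (-17040, 14952) (by decide +kernel)
                (CovZ.n2 (-17052, 14940) (by decide +kernel)
                 (CovZ.n2 (-17052, 14952) (by decide +kernel)
                  (CovZ.leaf K2_ok TB_l42222 _)
                  (CovZ.leaf K2_ok TB_l42223 _))
                 (CovZ.leaf K2_ok TB_l42224 _))
                (CovZ.n1 (-17052, 14964) (by decide +kernel)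
                 (CovZ.leaf K2_ok TB_l42225 _)
                 (CovZ.n1 (-17052, 14952) (by decide +kernel)
                  (CovZ.leaf K2_ok TB_l42226 _)
                  (CovZ.leaf K2_ok TB_l42227 _))))))
             (CovZ.n1 (-16992, 14928) (by decide +kernel)
              (CovZ.subM 2484840761868554697223925166681506837122731433265264228912715390550761701993753647143175127117521609701996888064 (by decide +kernel)
               (CovZ.n2 (-17016, 14904) (by decide +kernel)
                (CovZ.n2 (-17016, 14928) (by decide +kernel)
                 (CovZ.n2 (-17004, 14916) (by decide +kernel)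
                  (CovZ.n2 (-17016, 14916) (by decide +kernel)
                   (CovZ.leaf K2_ok TB_l42228 _)
                   (CovZ.leaf K2_ok TB_l42229 _))
                  (CovZ.subM 2484758052574715555237440774252794745215593941862261237233114915403366468613791198017161971719351896533085716480 (by decide +kernel)
                   (CovZ.n1 (-17004, 14928) (by decide +kernel)
                    (CovZ.n2 (-16998, 14922) (by decide +kernel)
                     (CovZ.leaf K2_ok TB_l42230 _)
                     (CovZ.leaf K2_ok TB_l42231 _))
                    (CovZ.n1 (-17010, 14922) (by decide +kernel)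
                     (CovZ.leaf K2_ok TB_l42232 _)
                     (CovZ.leaf K2_ok TB_l42233 _)))))
                 (CovZ.n1 (-17028, 14916) (by decide +kernel)
                  (CovZ.leaf K2_ok TB_l42234 _)
                  (CovZ.leaf K2_ok TB_l42235 _)))
                (CovZ.n1 (-16992, 14904) (by decide +kernel)
                 (CovZ.n2 (-17004, 14892) (by decide +kernel)
                  (CovZ.leaf K2_ok TB_l42236 _)
                  (CovZ.leaf K2_ok TB_l42237 _))
                 (CovZ.n1 (-17004, 14916) (by decide +kernel)
                  (CovZ.n2 (-16992, 14916) (by decide +kernel)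
                   (CovZ.n2 (-16998, 14910) (by decide +kernel)
                    (CovZ.leaf K2_ok TB_l42238 _)
                    (CovZ.leaf K2_ok TB_l42239 _))
                   (CovZ.n1 (-16998, 14922) (by decide +kernel)
                    (CovZ.leaf K2_ok TB_l42240 _)
                    (CovZ.n1 (-16998, 14916) (by decide +kernel)
                     (CovZ.leaf K2_ok TB_l42241 _)
                     (CovZ.leaf K2_ok TB_l42242 _))))
                  (CovZ.n1 (-17004, 14904) (by decide +kernel)
                   (CovZ.leaf K2_ok TB_l42243 _)
                   (CovZ.n1 (-16998, 14910) (by decide +kernel)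
                    (CovZ.leaf K2_ok TB_l42244 _)
                    (CovZ.leaf K2_ok TB_l42245 _)))))))
              (CovZ.subM 2484831587874090736905286147806928052835700132723874097505514428813036781152260726033832315149266162456159322112 (by decide +kernel)
               (CovZ.n1 (-17016, 14952) (by decide +kernel)
                (CovZ.n2 (-16992, 14952) (by decide +kernel)
                 (CovZ.n2 (-17004, 14940) (by decide +kernel)
                  (CovZ.n2 (-17004, 14952) (by decide +kernel)
                   (CovZ.leaf K2_ok TB_l42246 _)
                   (CovZ.leaf K2_ok TB_l42247 _))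
                  (CovZ.leaf K2_ok TB_l42248 _))
                 (CovZ.n1 (-17004, 14964) (by decide +kernel)
                  (CovZ.leaf K2_ok TB_l42249 _)
                  (CovZ.n1 (-17004, 14952) (by decide +kernel)
                   (CovZ.leaf K2_ok TB_l42250 _)
                   (CovZ.leaf K2_ok TB_l42251 _))))
                (CovZ.n1 (-17016, 14928) (by decide +kernel)
                 (CovZ.n2 (-17028, 14940) (by decide +kernel)
                  (CovZ.n2 (-17016, 14940) (by decide +kernel)
                   (CovZ.n2 (-17022, 14934) (by decide +kernel)
                    (CovZ.leaf K2_ok TB_l42252 _)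
                    (CovZ.leaf K2_ok TB_l42253 _))
                   (CovZ.leaf K2_ok TB_l42254 _))
                  (CovZ.n1 (-17028, 14928) (by decide +kernel)
                   (CovZ.n2 (-17034, 14934) (by decide +kernel)
                    (CovZ.leaf K2_ok TB_l42255 _)
                    (CovZ.leaf K2_ok TB_l42256 _))
                   (CovZ.n1 (-17022, 14934) (by decide +kernel)
                    (CovZ.leaf K2_ok TB_l42257 _)
                    (CovZ.leaf K2_ok TB_l42258 _))))
                 (CovZ.n1 (-17004, 14940) (by decide +kernel)
                  (CovZ.n2 (-17004, 14928) (by decide +kernel)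
                   (CovZ.n2 (-17010, 14934) (by decide +kernel)
                    (CovZ.leaf K2_ok TB_l42259 _)
                    (CovZ.leaf K2_ok TB_l42260 _))
                   (CovZ.leaf K2_ok TB_l42261 _))
                  (CovZ.leaf K2_ok TB_l42262 _)))))))

theorem TB_u321 : CovZ TB_M (toL (selN TB_LN 2785454248299521226803089681844919121477758805224079496346000577618630869109190252741614792493662560549571919904)) [0, 7, 6, 1] (-16896, 14784) (-16896, 14880) (-16992, 14880) :=
    (CovZ.n2 (-16944, 14832) (by decide +kernel)
             (CovZ.subM 2480143676703007031289627415429614035831143339926110424295029050287583795402630627630141336568668457942653075456 (by decide +kernel)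
              (CovZ.n2 (-16944, 14880) (by decide +kernel)
               (CovZ.n2 (-16920, 14856) (by decide +kernel)
                (CovZ.n2 (-16944, 14856) (by decide +kernel)
                 (CovZ.subM 73535299375181667845373523779077231056864799447412085535778321405742360783681586969764663347883388948185088 (by decide +kernel)
                  (CovZ.n2 (-16932, 14868) (by decide +kernel)
                   (CovZ.n2 (-16932, 14856) (by decide +kernel)
                    (CovZ.n2 (-16938, 14862) (by decide +kernel)
                     (CovZ.badM (by decide +kernel))
                     (CovZ.leaf K2_ok TB_l42263 _))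
                    (CovZ.badM (by decide +kernel)))
                   (CovZ.n1 (-16944, 14868) (by decide +kernel)
                    (CovZ.badM (by decide +kernel))
                    (CovZ.n1 (-16938, 14862) (by decide +kernel)
                     (CovZ.n2 (-16944, 14862) (by decide +kernel)
                      (CovZ.n2 (-16941, 14865) (by decide +kernel)
                       (CovZ.leaf K2_ok TB_l42264 _)
                       (CovZ.leaf K2_ok TB_l42265 _))
                      (CovZ.leaf K2_ok TB_l42266 _))
                     (CovZ.badM (by decide +kernel))))))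
                 (CovZ.n1 (-16932, 14844) (by decide +kernel)
                  (CovZ.leaf K2_ok TB_l42267 _)
                  (CovZ.subM 73535299375181667845373523779106179079174128496267978282030493382705678279847997110774527743885367230595072 (by decide +kernel)
                   (CovZ.n1 (-16932, 14856) (by decide +kernel)
                    (CovZ.n2 (-16926, 14850) (by decide +kernel)
                     (CovZ.n2 (-16932, 14850) (by decide +kernel)
                      (CovZ.leaf K2_ok TB_l42268 _)
                      (CovZ.leaf K2_ok TB_l42269 _))
                     (CovZ.badM (by decide +kernel)))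
                    (CovZ.leaf K2_ok TB_l42270 _)))))
                (CovZ.badM (by decide +kernel)))
               (CovZ.n1 (-16968, 14856) (by decide +kernel)
                (CovZ.n2 (-16968, 14880) (by decide +kernel)
                 (CovZ.n2 (-16956, 14868) (by decide +kernel)
                  (CovZ.leaf K2_ok TB_l42271 _)
                  (CovZ.n1 (-16956, 14880) (by decide +kernel)
                   (CovZ.n2 (-16950, 14874) (by decide +kernel)
                    (CovZ.leaf K2_ok TB_l42272 _)
                    (CovZ.badM (by decide +kernel)))
                   (CovZ.leaf K2_ok TB_l42273 _)))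
                 (CovZ.leaf K2_ok TB_l42274 _))
                (CovZ.n1 (-16944, 14856) (by decide +kernel)
                 (CovZ.leaf K2_ok TB_l42275 _)
                 (CovZ.n1 (-16956, 14868) (by decide +kernel)
                  (CovZ.n2 (-16944, 14868) (by decide +kernel)
                   (CovZ.leaf K2_ok TB_l42276 _)
                   (CovZ.n1 (-16950, 14874) (by decide +kernel)
                    (CovZ.badM (by decide +kernel))
                    (CovZ.leaf K2_ok TB_l42277 _)))
                  (CovZ.leaf K2_ok TB_l42278 _))))))
             (CovZ.subM 82745129755018395795391294092555531469041408846224200380231326971225680426059651128974818635734096571006976 (by decide +kernel)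
              (CovZ.n1 (-16896, 14832) (by decide +kernel)
               (CovZ.n2 (-16920, 14808) (by decide +kernel)
                (CovZ.n2 (-16920, 14832) (by decide +kernel)
                 (CovZ.n2 (-16908, 14820) (by decide +kernel)
                  (CovZ.leaf K2_ok TB_l21726 _)
                  (CovZ.n1 (-16908, 14832) (by decide +kernel)
                   (CovZ.n2 (-16902, 14826) (by decide +kernel)
                    (CovZ.leaf K2_ok TB_l42279 _)
                    (CovZ.badM (by decide +kernel)))
                   (CovZ.leaf K2_ok TB_l42281 _)))
                 (CovZ.leaf K2_ok TB_l21727 _))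
                (CovZ.n1 (-16896, 14808) (by decide +kernel)
                 (CovZ.leaf K2_ok TB_l21728 _)
                 (CovZ.n1 (-16908, 14820) (by decide +kernel)
                  (CovZ.n2 (-16896, 14820) (by decide +kernel)
                   (CovZ.leaf K2_ok TB_l42282 _)
                   (CovZ.n1 (-16902, 14826) (by decide +kernel)
                    (CovZ.leaf K2_ok TB_l42283 _)
                    (CovZ.leaf K2_ok TB_l42284 _)))
                  (CovZ.leaf K2_ok TB_l21729 _))))
               (CovZ.n1 (-16920, 14856) (by decide +kernel)
                (CovZ.badM (by decide +kernel))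
                (CovZ.n1 (-16920, 14832) (by decide +kernel)
                 (CovZ.n2 (-16932, 14844) (by decide +kernel)
                  (CovZ.n2 (-16920, 14844) (by decide +kernel)
                   (CovZ.leaf K2_ok TB_l42285 _)
                   (CovZ.n1 (-16926, 14850) (by decide +kernel)
                    (CovZ.badM (by decide +kernel))
                    (CovZ.leaf K2_ok TB_l42286 _)))
                  (CovZ.leaf K2_ok TB_l42287 _))
                 (CovZ.subM 73535299375182189326583465407544263801270361297077207457939271862385841131803031832387267158082150180323328 (by decide +kernel)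
                  (CovZ.n1 (-16908, 14844) (by decide +kernel)
                   (CovZ.n2 (-16908, 14832) (by decide +kernel)
                    (CovZ.n2 (-16914, 14838) (by decide +kernel)
                     (CovZ.badM (by decide +kernel))
                     (CovZ.leaf K2_ok TB_l42289 _))
                    (CovZ.badM (by decide +kernel)))
                   (CovZ.n1 (-16920, 14844) (by decide +kernel)
                    (CovZ.badM (by decide +kernel))
                    (CovZ.n1 (-16914, 14838) (by decide +kernel)
                     (CovZ.leaf K2_ok TB_l42292 _)
                     (CovZ.badM (by decide +kernel)))))))))))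

theorem TB_u322 : CovZ TB_M (toL (selN TB_LN 2785454248299521226803089681844919121477758805224079496346000577618630869109190252741614792493662560549571919904)) [0, 7, 6, 1] (-16896, 14880) (-16896, 14976) (-16992, 14880) :=
    (CovZ.n1 (-16944, 14928) (by decide +kernel)
             (CovZ.subM 305310535760598319625632477612971720353793269849585348564894204290163035758222687409584322436256494696177598464 (by decide +kernel)
              (CovZ.n2 (-16896, 14928) (by decide +kernel)
               (CovZ.n2 (-16920, 14904) (by decide +kernel)
                (CovZ.n2 (-16920, 14928) (by decide +kernel)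
                 (CovZ.subM 4697085165547666455778961193582379401610632508803593287606883336921329114417800445904231792458340993108803584 (by decide +kernel)
                  (CovZ.n2 (-16908, 14916) (by decide +kernel)
                   (CovZ.n2 (-16920, 14916) (by decide +kernel)
                    (CovZ.n2 (-16914, 14922) (by decide +kernel)
                     (CovZ.n2 (-16914, 14916) (by decide +kernel)
                      (CovZ.leaf K2_ok TB_l42293 _)
                      (CovZ.leaf K2_ok TB_l42294 _))
                     (CovZ.n1 (-16920, 14922) (by decide +kernel)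
                      (CovZ.leaf K2_ok TB_l42295 _)
                      (CovZ.leaf K2_ok TB_l42296 _)))
                    (CovZ.n1 (-16914, 14910) (by decide +kernel)
                     (CovZ.leaf K2_ok TB_l42297 _)
                     (CovZ.n1 (-16914, 14916) (by decide +kernel)
                      (CovZ.n2 (-16911, 14913) (by decide +kernel)
                       (CovZ.leaf K2_ok TB_l42298 _)
                       (CovZ.n1 (-16911, 14916) (by decide +kernel)
                        (CovZ.leaf K2_ok TB_l42299 _)
                        (CovZ.leaf K2_ok TB_l42300 _)))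
                      (CovZ.leaf K2_ok TB_l42301 _))))
                   (CovZ.n1 (-16908, 14928) (by decide +kernel)
                    (CovZ.n2 (-16902, 14922) (by decide +kernel)
                     (CovZ.n2 (-16908, 14922) (by decide +kernel)
                      (CovZ.leaf K2_ok TB_l42302 _)
                      (CovZ.leaf K2_ok TB_l42303 _))
                     (CovZ.leaf K2_ok TB_l42304 _))
                    (CovZ.n1 (-16914, 14922) (by decide +kernel)
                     (CovZ.leaf K2_ok TB_l42305 _)
                     (CovZ.leaf K2_ok TB_l42306 _)))))
                 (CovZ.n1 (-16932, 14916) (by decide +kernel)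
                  (CovZ.n2 (-16932, 14928) (by decide +kernel)
                   (CovZ.n2 (-16926, 14922) (by decide +kernel)
                    (CovZ.leaf K2_ok TB_l42307 _)
                    (CovZ.leaf K2_ok TB_l42308 _))
                   (CovZ.n1 (-16938, 14922) (by decide +kernel)
                    (CovZ.leaf K2_ok TB_l42309 _)
                    (CovZ.leaf K2_ok TB_l42310 _)))
                  (CovZ.subM 4697085165547666455778961193582379401610632508803593287606883336921329114417800445904231792458340993108803584 (by decide +kernel)
                   (CovZ.n1 (-16920, 14916) (by decide +kernel)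
                    (CovZ.n2 (-16926, 14910) (by decide +kernel)
                     (CovZ.n2 (-16926, 14916) (by decide +kernel)
                      (CovZ.leaf K2_ok TB_l42311 _)
                      (CovZ.leaf K2_ok TB_l42312 _))
                     (CovZ.n1 (-16920, 14910) (by decide +kernel)
                      (CovZ.badM (by decide +kernel))
                      (CovZ.leaf K2_ok TB_l42315 _)))
                    (CovZ.n1 (-16926, 14922) (by decide +kernel)
                     (CovZ.leaf K2_ok TB_l42316 _)
                     (CovZ.leaf K2_ok TB_l42317 _))))))
                (CovZ.subM 3705346859051731413616341073944057736214907143194461821453471108954758162939904 (by decide +kernel)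
                 (CovZ.n1 (-16896, 14904) (by decide +kernel)
                  (CovZ.badM (by decide +kernel))
                  (CovZ.n1 (-16908, 14916) (by decide +kernel)
                   (CovZ.n2 (-16896, 14916) (by decide +kernel)
                    (CovZ.badM (by decide +kernel))
                    (CovZ.n1 (-16902, 14922) (by decide +kernel)
                     (CovZ.leaf K2_ok TB_l42324 _)
                     (CovZ.n1 (-16902, 14916) (by decide +kernel)
                      (CovZ.n2 (-16905, 14919) (by decide +kernel)
                       (CovZ.leaf K2_ok TB_l42325 _)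
                       (CovZ.leaf K2_ok TB_l42326 _))
                      (CovZ.leaf K2_ok TB_l42327 _))))
                   (CovZ.badM (by decide +kernel))))))
               (CovZ.n1 (-16920, 14952) (by decide +kernel)
                (CovZ.n2 (-16896, 14952) (by decide +kernel)
                 (CovZ.n2 (-16908, 14940) (by decide +kernel)
                  (CovZ.n2 (-16908, 14952) (by decide +kernel)
                   (CovZ.leaf K2_ok TB_l42340 _)
                   (CovZ.leaf K2_ok TB_l42341 _))
                  (CovZ.n1 (-16896, 14940) (by decide +kernel)
                   (CovZ.n2 (-16902, 14934) (by decide +kernel)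
                    (CovZ.leaf K2_ok TB_l42342 _)
                    (CovZ.leaf K2_ok TB_l42343 _))
                   (CovZ.leaf K2_ok TB_l42344 _)))
                 (CovZ.n1 (-16908, 14964) (by decide +kernel)
                  (CovZ.leaf K2_ok TB_l42345 _)
                  (CovZ.n1 (-16908, 14952) (by decide +kernel)
                   (CovZ.leaf K2_ok TB_l42346 _)
                   (CovZ.leaf K2_ok TB_l42347 _))))
                (CovZ.n1 (-16920, 14928) (by decide +kernel)
                 (CovZ.n2 (-16932, 14940) (by decide +kernel)
                  (CovZ.n2 (-16920, 14940) (by decide +kernel)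
                   (CovZ.n2 (-16926, 14934) (by decide +kernel)
                    (CovZ.leaf K2_ok TB_l42348 _)
                    (CovZ.leaf K2_ok TB_l42349 _))
                   (CovZ.leaf K2_ok TB_l42350 _))
                  (CovZ.n1 (-16932, 14928) (by decide +kernel)
                   (CovZ.n2 (-16938, 14934) (by decide +kernel)
                    (CovZ.leaf K2_ok TB_l42351 _)
                    (CovZ.leaf K2_ok TB_l42352 _))
                   (CovZ.leaf K2_ok TB_l42353 _)))
                 (CovZ.n1 (-16908, 14940) (by decide +kernel)
                  (CovZ.n2 (-16908, 14928) (by decide +kernel)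
                   (CovZ.n2 (-16914, 14934) (by decide +kernel)
                    (CovZ.leaf K2_ok TB_l42354 _)
                    (CovZ.n1 (-16914, 14928) (by decide +kernel)
                     (CovZ.leaf K2_ok TB_l42355 _)
                     (CovZ.leaf K2_ok TB_l42356 _)))
                   (CovZ.n1 (-16902, 14934) (by decide +kernel)
                    (CovZ.leaf K2_ok TB_l42357 _)
                    (CovZ.leaf K2_ok TB_l42358 _)))
                  (CovZ.n1 (-16920, 14940) (by decide +kernel)
                   (CovZ.leaf K2_ok TB_l42359 _)
                   (CovZ.n1 (-16914, 14934) (by decide +kernel)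
                    (CovZ.leaf K2_ok TB_l42360 _)
                    (CovZ.leaf K2_ok TB_l42361 _))))))))
             (CovZ.n1 (-16944, 14880) (by decide +kernel)
              (CovZ.n2 (-16968, 14904) (by decide +kernel)
               (CovZ.subM 4697085165547666455778961193582379408678886856203812820243477017752673683363126626671281740835721251758538752 (by decide +kernel)
                (CovZ.n2 (-16944, 14904) (by decide +kernel)
                 (CovZ.n2 (-16956, 14892) (by decide +kernel)
                  (CovZ.n2 (-16956, 14904) (by decide +kernel)
                   (CovZ.badM (by decide +kernel))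
                   (CovZ.n1 (-16962, 14898) (by decide +kernel)
                    (CovZ.leaf K2_ok TB_l42364 _)
                    (CovZ.badM (by decide +kernel))))
                  (CovZ.badM (by decide +kernel)))
                 (CovZ.n1 (-16956, 14916) (by decide +kernel)
                  (CovZ.n2 (-16944, 14916) (by decide +kernel)
                   (CovZ.n2 (-16950, 14910) (by decide +kernel)
                    (CovZ.n2 (-16950, 14916) (by decide +kernel)
                     (CovZ.leaf K2_ok TB_l42366 _)
                     (CovZ.leaf K2_ok TB_l42367 _))
                    (CovZ.n1 (-16944, 14910) (by decide +kernel)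
                     (CovZ.leaf K2_ok TB_l42368 _)
                     (CovZ.n1 (-16947, 14913) (by decide +kernel)
                      (CovZ.leaf K2_ok TB_l42369 _)
                      (CovZ.leaf K2_ok TB_l42370 _))))
                   (CovZ.n1 (-16950, 14922) (by decide +kernel)
                    (CovZ.leaf K2_ok TB_l42371 _)
                    (CovZ.leaf K2_ok TB_l42372 _)))
                  (CovZ.n1 (-16956, 14904) (by decide +kernel)
                   (CovZ.n2 (-16962, 14910) (by decide +kernel)
                    (CovZ.leaf K2_ok TB_l42373 _)
                    (CovZ.n1 (-16962, 14904) (by decide +kernel)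
                     (CovZ.leaf K2_ok TB_l42374 _)
                     (CovZ.leaf K2_ok TB_l42375 _)))
                   (CovZ.n1 (-16950, 14910) (by decide +kernel)
                    (CovZ.n2 (-16950, 14904) (by decide +kernel)
                     (CovZ.n2 (-16953, 14907) (by decide +kernel)
                      (CovZ.leaf K2_ok TB_l42376 _)
                      (CovZ.leaf K2_ok TB_l42377 _))
                     (CovZ.leaf K2_ok TB_l42378 _))
                    (CovZ.n1 (-16956, 14910) (by decide +kernel)
                     (CovZ.leaf K2_ok TB_l42379 _)
                     (CovZ.leaf K2_ok TB_l42380 _)))))))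
               (CovZ.subM 2480143676703007030768146205487987448617666119816337728839901565105210133785493178465906793392914982418245484544 (by decide +kernel)
                (CovZ.n1 (-16968, 14880) (by decide +kernel)
                 (CovZ.n2 (-16980, 14892) (by decide +kernel)
                  (CovZ.subM 2480061110752831388161135267321414232170571937666368343440472865365291074271297773838531981370414189295756640256 (by decide +kernel)
                   (CovZ.n2 (-16968, 14892) (by decide +kernel)
                    (CovZ.n2 (-16974, 14886) (by decide +kernel)
                     (CovZ.leaf K2_ok TB_l42381 _)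
                     (CovZ.leaf K2_ok TB_l42382 _))
                    (CovZ.n1 (-16974, 14898) (by decide +kernel)
                     (CovZ.n2 (-16968, 14898) (by decide +kernel)
                      (CovZ.n2 (-16971, 14895) (by decide +kernel)
                       (CovZ.leaf K2_ok TB_l42383 _)
                       (CovZ.badM (by decide +kernel)))
                      (CovZ.leaf K2_ok TB_l42384 _))
                     (CovZ.n1 (-16974, 14892) (by decide +kernel)
                      (CovZ.n2 (-16977, 14895) (by decide +kernel)
                       (CovZ.leaf K2_ok TB_l42385 _)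
                       (CovZ.leaf K2_ok TB_l42386 _))
                      (CovZ.n1 (-16971, 14895) (by decide +kernel)
                       (CovZ.n2 (-16971, 14892) (by decide +kernel)
                        (CovZ.leaf K2_ok TB_l49659 _)
                        (CovZ.badM (by decide +kernel)))
                       (CovZ.leaf K2_ok TB_l42387 _))))))
                  (CovZ.leaf K2_ok TB_l42388 _))
                 (CovZ.subM 143343663499379473454262201866364209022368054164130596207448659441377065791165814922316311015952333406208 (by decide +kernel)
                  (CovZ.n1 (-16956, 14892) (by decide +kernel)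
                   (CovZ.subM 143343663499379473454262198161010284954852833719727491004085279210134111941185200176583093973506701918208 (by decide +kernel)
                    (CovZ.n2 (-16956, 14880) (by decide +kernel)
                     (CovZ.n2 (-16962, 14886) (by decide +kernel)
                      (CovZ.badM (by decide +kernel))
                      (CovZ.n1 (-16962, 14880) (by decide +kernel)
                       (CovZ.leaf K2_ok TB_l42389 _)
                       (CovZ.badM (by decide +kernel))))
                     (CovZ.badM (by decide +kernel))))
                   (CovZ.n1 (-16968, 14892) (by decide +kernel)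
                    (CovZ.n2 (-16962, 14898) (by decide +kernel)
                     (CovZ.badM (by decide +kernel))
                     (CovZ.n1 (-16968, 14898) (by decide +kernel)
                      (CovZ.leaf K2_ok TB_l42390 _)
                      (CovZ.badM (by decide +kernel))))
                    (CovZ.n1 (-16962, 14886) (by decide +kernel)
                     (CovZ.n2 (-16968, 14886) (by decide +kernel)
                      (CovZ.badM (by decide +kernel))
                      (CovZ.leaf K2_ok TB_l42391 _))
                     (CovZ.badM (by decide +kernel)))))))))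
              (CovZ.subM 4697085165547666455778961193582379408678886856203812820243477017752673683363126626671281740835721251758538752 (by decide +kernel)
               (CovZ.n1 (-16920, 14904) (by decide +kernel)
                (CovZ.badM (by decide +kernel))
                (CovZ.n1 (-16944, 14904) (by decide +kernel)
                 (CovZ.n2 (-16932, 14916) (by decide +kernel)
                  (CovZ.subM 3705346859051731413616341073944057736214907143194461821453471108954758162939904 (by decide +kernel)
                   (CovZ.n2 (-16932, 14904) (by decide +kernel)
                    (CovZ.n2 (-16938, 14910) (by decide +kernel)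
                     (CovZ.n2 (-16932, 14910) (by decide +kernel)
                      (CovZ.leaf K2_ok TB_l42392 _)
                      (CovZ.leaf K2_ok TB_l42393 _))
                     (CovZ.n1 (-16938, 14904) (by decide +kernel)
                      (CovZ.leaf K2_ok TB_l42394 _)
                      (CovZ.leaf K2_ok TB_l42395 _)))
                    (CovZ.n1 (-16926, 14910) (by decide +kernel)
                     (CovZ.badM (by decide +kernel))
                     (CovZ.leaf K2_ok TB_l42398 _))))
                  (CovZ.n1 (-16944, 14916) (by decide +kernel)
                   (CovZ.n2 (-16938, 14922) (by decide +kernel)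
                    (CovZ.n2 (-16938, 14916) (by decide +kernel)
                     (CovZ.leaf K2_ok TB_l42399 _)
                     (CovZ.leaf K2_ok TB_l42400 _))
                    (CovZ.leaf K2_ok TB_l42401 _))
                   (CovZ.n1 (-16938, 14910) (by decide +kernel)
                    (CovZ.leaf K2_ok TB_l42402 _)
                    (CovZ.leaf K2_ok TB_l42403 _))))
                 (CovZ.badM (by decide +kernel)))))))

end Pool.Agent.TET
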