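import Pool.Agent.Helper38_TET.TB_M
import Pool.Agent.Helper38_TET.TB_L
import Pool.Agent.Helper38_TET.TB_144
import Pool.Agent.Helper38_TET.TB_145
import Pool.Agent.Helper38_TET.TB_146
import Pool.Agent.Helper38_TET.TB_147
import Pool.Agent.Helper38_TET.TB_171
import Pool.Agent.Helper38_TET.TB_172
import Pool.Agent.Helper38_TET.TB_173
import Pool.Agent.Helper38_TET.TB_283
import Pool.Agent.Helper38_TET.TB_284
import Pool.Agent.Helper38_TET.TB_285
import Pool.Agent.Helper38_TET.TB_U21

/-!
# MP_c7c9bf_co: certificates, family TB
-/

set_option autoImplicit false
set_option maxRecDepth 100000

namespace Pool.Agent.TET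

theorem TB_u323 : CovZ TB_M (toL (selN TB_LN 3998476492477186147056095119447382008567603626564937185111100849250203472043316869566256267115309852063692915304)) [0, 7, 6, 1] (-16896, 15360) (-17088, 15168) (-16896, 14976) :=
    (CovZ.subM 2785371503169766208472479441550637222724348688920810989855354515897261228283225496334275726990628962607256732224 (by decide +kernel)
         (CovZ.n2 (-16896, 15168) (by decide +kernel)
          (CovZ.n2 (-16992, 15072) (by decide +kernel)
           (CovZ.n2 (-16992, 15168) (by decide +kernel)
            (CovZ.n2 (-16944, 15120) (by decide +kernel)
             (CovZ.n2 (-16992, 15120) (by decide +kernel)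
              (CovZ.leaf K2_ok TB_l21744 _)
              (CovZ.n1 (-16968, 15096) (by decide +kernel)
               (CovZ.leaf K2_ok TB_l21745 _)
               (CovZ.leaf K2_ok TB_l21746 _)))
             (CovZ.n1 (-16944, 15168) (by decide +kernel)
              (CovZ.leaf K2_ok TB_l21747 _)
              (CovZ.leaf K2_ok TB_l21748 _)))
            (CovZ.n1 (-17040, 15120) (by decide +kernel)
             (CovZ.n2 (-17040, 15168) (by decide +kernel)
              (CovZ.leaf K2_ok TB_l21749 _)
              (CovZ.leaf K2_ok TB_l21750 _))
             (CovZ.n1 (-16992, 15120) (by decide +kernel)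
              (CovZ.n2 (-17016, 15096) (by decide +kernel)
               (CovZ.leaf K2_ok TB_l21751 _)
               (CovZ.leaf K2_ok TB_l21752 _))
              (CovZ.leaf K2_ok TB_l21753 _))))
           (CovZ.n1 (-16896, 15072) (by decide +kernel)
            (CovZ.n2 (-16944, 15024) (by decide +kernel)
             (CovZ.n2 (-16944, 15072) (by decide +kernel)
              (CovZ.n2 (-16920, 15048) (by decide +kernel)
               (CovZ.leaf K2_ok TB_l21754 _)
               (CovZ.leaf K2_ok TB_l21755 _))
              (CovZ.n1 (-16968, 15048) (by decide +kernel)
               (CovZ.leaf K2_ok TB_l21756 _)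
               (CovZ.leaf K2_ok TB_l21757 _)))
             (CovZ.n1 (-16896, 15024) (by decide +kernel)
              (CovZ.n2 (-16920, 15000) (by decide +kernel)
               (CovZ.n2 (-16920, 15024) (by decide +kernel)
                (CovZ.leaf K2_ok TB_l21758 _)
                (CovZ.leaf K2_ok TB_l21759 _))
               (CovZ.n1 (-16896, 15000) (by decide +kernel)
                (CovZ.leaf K2_ok TB_l21760 _)
                (CovZ.leaf K2_ok TB_l21761 _)))
              (CovZ.n1 (-16920, 15048) (by decide +kernel)
               (CovZ.leaf K2_ok TB_l21762 _)
               (CovZ.n1 (-16920, 15024) (by decide +kernel)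
                (CovZ.leaf K2_ok TB_l21763 _)
                (CovZ.leaf K2_ok TB_l21764 _)))))
            (CovZ.n1 (-16944, 15120) (by decide +kernel)
             (CovZ.n2 (-16896, 15120) (by decide +kernel)
              (CovZ.n2 (-16920, 15096) (by decide +kernel)
               (CovZ.leaf K2_ok TB_l21765 _)
               (CovZ.leaf K2_ok TB_l21766 _))
              (CovZ.leaf K2_ok TB_l21767 _))
             (CovZ.n1 (-16944, 15072) (by decide +kernel)
              (CovZ.n2 (-16968, 15096) (by decide +kernel)
               (CovZ.leaf K2_ok TB_l21768 _)
               (CovZ.leaf K2_ok TB_l21769 _))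
              (CovZ.n1 (-16920, 15096) (by decide +kernel)
               (CovZ.leaf K2_ok TB_l21770 _)
               (CovZ.leaf K2_ok TB_l21771 _))))))
          (CovZ.n1 (-16992, 15264) (by decide +kernel)
           (CovZ.n2 (-16896, 15264) (by decide +kernel)
            (CovZ.n2 (-16944, 15216) (by decide +kernel)
             (CovZ.n2 (-16944, 15264) (by decide +kernel)
              (CovZ.leaf K2_ok TB_l21772 _)
              (CovZ.leaf K2_ok TB_l21773 _))
             (CovZ.leaf K2_ok TB_l21774 _))
            (CovZ.n1 (-16944, 15312) (by decide +kernel)
             (CovZ.leaf K2_ok TB_l21775 _)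
             (CovZ.leaf K2_ok TB_l21776 _)))
           (CovZ.n1 (-16992, 15168) (by decide +kernel)
            (CovZ.n2 (-17040, 15216) (by decide +kernel)
             (CovZ.leaf K2_ok TB_l21777 _)
             (CovZ.n1 (-17040, 15168) (by decide +kernel)
              (CovZ.leaf K2_ok TB_l21778 _)
              (CovZ.leaf K2_ok TB_l21779 _)))
            (CovZ.n1 (-16944, 15216) (by decide +kernel)
             (CovZ.n2 (-16944, 15168) (by decide +kernel)
              (CovZ.leaf K2_ok TB_l21780 _)
              (CovZ.leaf K2_ok TB_l21781 _))
             (CovZ.leaf K2_ok TB_l21782 _))))))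

theorem TB_u324 : CovZ TB_M (toL (selN TB_LN 3998476492477186147056095119447382008567603626564937185111100849250203472043316869566256267115309852063692915304)) [0, 7, 6, 1] (-17088, 15168) (-17280, 14976) (-16896, 14976) :=
    (CovZ.n1 (-17088, 14976) (by decide +kernel)
         (CovZ.subM 2484840761868554698266887462264310652323479693382542454915991266675352975490022415533638091272642358916510024224 (by decide +kernel)
          (CovZ.n2 (-17184, 15072) (by decide +kernel)
           (CovZ.n2 (-17088, 15072) (by decide +kernel)
            (CovZ.n2 (-17136, 15024) (by decide +kernel)
             (CovZ.n2 (-17136, 15072) (by decide +kernel)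
              (CovZ.n2 (-17112, 15048) (by decide +kernel)
               (CovZ.leaf K2_ok TB_l21783 _)
               (CovZ.leaf K2_ok TB_l21784 _))
              (CovZ.n1 (-17160, 15048) (by decide +kernel)
               (CovZ.leaf K2_ok TB_l21785 _)
               (CovZ.leaf K2_ok TB_l21786 _)))
             (CovZ.n1 (-17088, 15024) (by decide +kernel)
              (CovZ.n2 (-17112, 15000) (by decide +kernel)
               (CovZ.n2 (-17112, 15024) (by decide +kernel)
                (CovZ.leaf K2_ok TB_l21787 _)
                (CovZ.leaf K2_ok TB_l21788 _))
               (CovZ.n1 (-17088, 15000) (by decide +kernel)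
                (CovZ.leaf K2_ok TB_l21789 _)
                (CovZ.leaf K2_ok TB_l21790 _)))
              (CovZ.n1 (-17112, 15048) (by decide +kernel)
               (CovZ.leaf K2_ok TB_l21791 _)
               (CovZ.n1 (-17112, 15024) (by decide +kernel)
                (CovZ.leaf K2_ok TB_l21792 _)
                (CovZ.leaf K2_ok TB_l21793 _)))))
            (CovZ.n1 (-17136, 15120) (by decide +kernel)
             (CovZ.n2 (-17088, 15120) (by decide +kernel)
              (CovZ.leaf K2_ok TB_l21794 _)
              (CovZ.leaf K2_ok TB_l21795 _))
             (CovZ.n1 (-17136, 15072) (by decide +kernel)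
              (CovZ.leaf K2_ok TB_l21796 _)
              (CovZ.leaf K2_ok TB_l21797 _))))
           (CovZ.n1 (-17184, 14976) (by decide +kernel)
            (CovZ.n2 (-17232, 15024) (by decide +kernel)
             (CovZ.n2 (-17184, 15024) (by decide +kernel)
              (CovZ.leaf K2_ok TB_l21798 _)
              (CovZ.n1 (-17208, 15048) (by decide +kernel)
               (CovZ.leaf K2_ok TB_l21799 _)
               (CovZ.leaf K2_ok TB_l21800 _)))
             (CovZ.n1 (-17232, 14976) (by decide +kernel)
              (CovZ.leaf K2_ok TB_l21801 _)
              (CovZ.leaf K2_ok TB_l21802 _)))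
            (CovZ.n1 (-17136, 15024) (by decide +kernel)
             (CovZ.n2 (-17136, 14976) (by decide +kernel)
              (CovZ.n2 (-17160, 15000) (by decide +kernel)
               (CovZ.n2 (-17136, 15000) (by decide +kernel)
                (CovZ.leaf K2_ok TB_l21803 _)
                (CovZ.leaf K2_ok TB_l21804 _))
               (CovZ.leaf K2_ok TB_l21805 _))
              (CovZ.n1 (-17112, 15000) (by decide +kernel)
               (CovZ.n2 (-17112, 14976) (by decide +kernel)
                (CovZ.leaf K2_ok TB_l21806 _)
                (CovZ.leaf K2_ok TB_l21807 _))
               (CovZ.n1 (-17136, 15000) (by decide +kernel)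
                (CovZ.leaf K2_ok TB_l21808 _)
                (CovZ.leaf K2_ok TB_l21809 _))))
             (CovZ.n1 (-17184, 15024) (by decide +kernel)
              (CovZ.n2 (-17160, 15048) (by decide +kernel)
               (CovZ.n2 (-17160, 15024) (by decide +kernel)
                (CovZ.leaf K2_ok TB_l21810 _)
                (CovZ.leaf K2_ok TB_l21811 _))
               (CovZ.leaf K2_ok TB_l21812 _))
              (CovZ.n1 (-17160, 15000) (by decide +kernel)
               (CovZ.leaf K2_ok TB_l21813 _)
               (CovZ.n1 (-17160, 15024) (by decide +kernel)
                (CovZ.leaf K2_ok TB_l21814 _)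
                (CovZ.leaf K2_ok TB_l21815 _))))))))
         (CovZ.subM 2785445038469141390661805652387927119520461434024571037355121404963504367743585815206885010916670819218160255488 (by decide +kernel)
          (CovZ.n1 (-16992, 15072) (by decide +kernel)
           (CovZ.n2 (-16992, 14976) (by decide +kernel)
            (CovZ.n2 (-17040, 15024) (by decide +kernel)
             (CovZ.subM 2484758052574715555237440774161732139987887194496378683604114146274129367929550407848585471439512479767797596160 (by decide +kernel)
              (CovZ.n2 (-16992, 15024) (by decide +kernel)
               (CovZ.n2 (-17016, 15000) (by decide +kernel)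
                (CovZ.n2 (-17016, 15024) (by decide +kernel)
                 (CovZ.leaf K2_ok TB_l21816 _)
                 (CovZ.leaf K2_ok TB_l21817 _))
                (CovZ.n1 (-16992, 15000) (by decide +kernel)
                 (CovZ.leaf K2_ok TB_l21818 _)
                 (CovZ.leaf K2_ok TB_l21819 _)))
               (CovZ.n1 (-17016, 15048) (by decide +kernel)
                (CovZ.leaf K2_ok TB_l21820 _)
                (CovZ.n1 (-17016, 15024) (by decide +kernel)
                 (CovZ.leaf K2_ok TB_l21821 _)
                 (CovZ.leaf K2_ok TB_l21822 _)))))
             (CovZ.n1 (-17040, 14976) (by decide +kernel)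
              (CovZ.n2 (-17064, 15000) (by decide +kernel)
               (CovZ.n2 (-17040, 15000) (by decide +kernel)
                (CovZ.leaf K2_ok TB_l21823 _)
                (CovZ.leaf K2_ok TB_l21824 _))
               (CovZ.n1 (-17064, 14976) (by decide +kernel)
                (CovZ.leaf K2_ok TB_l21825 _)
                (CovZ.leaf K2_ok TB_l21826 _)))
              (CovZ.subM 2484758052574715555237440774283148946656620958595377829527232398319654075473980883107333612940996800109139361792 (by decide +kernel)
               (CovZ.n1 (-17016, 15000) (by decide +kernel)
                (CovZ.n2 (-17016, 14976) (by decide +kernel)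
                 (CovZ.leaf K2_ok TB_l21827 _)
                 (CovZ.leaf K2_ok TB_l21828 _))
                (CovZ.n1 (-17040, 15000) (by decide +kernel)
                 (CovZ.leaf K2_ok TB_l21829 _)
                 (CovZ.leaf K2_ok TB_l21830 _))))))
            (CovZ.subM 2710218140521003545114830911210674883087736585326644652839074216210920579459035378264624024067087309976956469248 (by decide +kernel)
             (CovZ.n1 (-16944, 15024) (by decide +kernel)
              (CovZ.n2 (-16944, 14976) (by decide +kernel)
               (CovZ.n2 (-16968, 15000) (by decide +kernel)
                (CovZ.n2 (-16944, 15000) (by decide +kernel)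
                 (CovZ.leaf K2_ok TB_l21831 _)
                 (CovZ.leaf K2_ok TB_l21832 _))
                (CovZ.n1 (-16968, 14976) (by decide +kernel)
                 (CovZ.n2 (-16980, 14988) (by decide +kernel)
                  (CovZ.leaf K2_ok TB_l21833 _)
                  (CovZ.leaf K2_ok TB_l42404 _))
                 (CovZ.n1 (-16956, 14988) (by decide +kernel)
                  (CovZ.leaf K2_ok TB_l42405 _)
                  (CovZ.leaf K2_ok TB_l21834 _))))
               (CovZ.n1 (-16920, 15000) (by decide +kernel)
                (CovZ.n2 (-16920, 14976) (by decide +kernel)
                 (CovZ.n2 (-16932, 14988) (by decide +kernel)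
                  (CovZ.leaf K2_ok TB_l21835 _)
                  (CovZ.leaf K2_ok TB_l42406 _))
                 (CovZ.n1 (-16908, 14988) (by decide +kernel)
                  (CovZ.leaf K2_ok TB_l21836 _)
                  (CovZ.leaf K2_ok TB_l21837 _)))
                (CovZ.n1 (-16944, 15000) (by decide +kernel)
                 (CovZ.leaf K2_ok TB_l21838 _)
                 (CovZ.n1 (-16932, 14988) (by decide +kernel)
                  (CovZ.leaf K2_ok TB_l21839 _)
                  (CovZ.leaf K2_ok TB_l21840 _)))))
              (CovZ.n1 (-16992, 15024) (by decide +kernel)
               (CovZ.n2 (-16968, 15048) (by decide +kernel)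
                (CovZ.n2 (-16968, 15024) (by decide +kernel)
                 (CovZ.leaf K2_ok TB_l21841 _)
                 (CovZ.leaf K2_ok TB_l21842 _))
                (CovZ.leaf K2_ok TB_l21843 _))
               (CovZ.n1 (-16968, 15000) (by decide +kernel)
                (CovZ.n2 (-16992, 15000) (by decide +kernel)
                 (CovZ.leaf K2_ok TB_l21844 _)
                 (CovZ.n1 (-16980, 14988) (by decide +kernel)
                  (CovZ.leaf K2_ok TB_l21845 _)
                  (CovZ.leaf K2_ok TB_l21846 _)))
                (CovZ.n1 (-16968, 15024) (by decide +kernel)
                 (CovZ.leaf K2_ok TB_l21847 _)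
                 (CovZ.leaf K2_ok TB_l21848 _)))))))
           (CovZ.n1 (-17088, 15072) (by decide +kernel)
            (CovZ.subM 2484758052574715555237440774161732140892512891662911460350762466654503648033222163048902396887240786308199776768 (by decide +kernel)
             (CovZ.n2 (-17040, 15120) (by decide +kernel)
              (CovZ.n2 (-17040, 15072) (by decide +kernel)
               (CovZ.n2 (-17064, 15096) (by decide +kernel)
                (CovZ.leaf K2_ok TB_l21849 _)
                (CovZ.leaf K2_ok TB_l21850 _))
               (CovZ.n1 (-17016, 15096) (by decide +kernel)
                (CovZ.leaf K2_ok TB_l21851 _)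
                (CovZ.leaf K2_ok TB_l21852 _)))
              (CovZ.n1 (-17088, 15120) (by decide +kernel)
               (CovZ.leaf K2_ok TB_l21853 _)
               (CovZ.leaf K2_ok TB_l21854 _))))
            (CovZ.n1 (-17040, 15024) (by decide +kernel)
             (CovZ.n2 (-17088, 15024) (by decide +kernel)
              (CovZ.n2 (-17064, 15048) (by decide +kernel)
               (CovZ.n2 (-17064, 15024) (by decide +kernel)
                (CovZ.leaf K2_ok TB_l21855 _)
                (CovZ.leaf K2_ok TB_l21856 _))
               (CovZ.leaf K2_ok TB_l21857 _))
              (CovZ.n1 (-17064, 15000) (by decide +kernel)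
               (CovZ.n2 (-17088, 15000) (by decide +kernel)
                (CovZ.leaf K2_ok TB_l21858 _)
                (CovZ.leaf K2_ok TB_l21859 _))
               (CovZ.n1 (-17064, 15024) (by decide +kernel)
                (CovZ.leaf K2_ok TB_l21860 _)
                (CovZ.leaf K2_ok TB_l21861 _))))
             (CovZ.subM 2484758052574715555237440774161732140892512891662911460350762466654503648033222163048902377997774854829618921472 (by decide +kernel)
              (CovZ.n1 (-17040, 15072) (by decide +kernel)
               (CovZ.n2 (-17016, 15048) (by decide +kernel)
                (CovZ.leaf K2_ok TB_l21862 _)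
                (CovZ.leaf K2_ok TB_l21863 _))
               (CovZ.n1 (-17064, 15048) (by decide +kernel)
                (CovZ.leaf K2_ok TB_l21864 _)
                (CovZ.leaf K2_ok TB_l21865 _)))))))))

theorem TB_u325 : CovZ TB_M (toL (selN TB_LN 3998476492477186147056095119447382008567603626564937185111100849250203472043316869566256267115309852063692915304)) [0, 7, 6, 1] (-16896, 13824) (-16896, 14592) (-17664, 14592) :=
    (CovZ.n2 (-17280, 14208) (by decide +kernel)
      (CovZ.n2 (-17280, 14592) (by decide +kernel)
       (CovZ.n2 (-17088, 14400) (by decide +kernel)
        (CovZ.subM 3691991649554289023788201211273385230024433919329008808790656295433058946010016193087740124727796669314689400872 (by decide +kernel)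
         (CovZ.n2 (-17280, 14400) (by decide +kernel)
          (CovZ.n2 (-17184, 14496) (by decide +kernel)
           (CovZ.leaf K2_ok TB_l21640 _)
           (CovZ.leaf K2_ok TB_l21641 _))
          (CovZ.n1 (-17184, 14304) (by decide +kernel)
           (CovZ.leaf K2_ok TB_l21642 _)
           (CovZ.leaf K2_ok TB_l21643 _))))
        (CovZ.n1 (-17088, 14592) (by decide +kernel)
         (CovZ.n2 (-16992, 14496) (by decide +kernel)
          (CovZ.n2 (-17088, 14496) (by decide +kernel)
           (CovZ.leaf K2_ok TB_l21644 _)
           (CovZ.leaf K2_ok TB_l21645 _))
          (CovZ.n1 (-16992, 14592) (by decide +kernel)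
           (CovZ.leaf K2_ok TB_l21646 _)
           (CovZ.leaf K2_ok TB_l21647 _)))
         (CovZ.n1 (-17184, 14496) (by decide +kernel)
          (CovZ.n2 (-17184, 14592) (by decide +kernel)
           (CovZ.leaf K2_ok TB_l21648 _)
           (CovZ.leaf K2_ok TB_l21649 _))
          (CovZ.leaf K2_ok TB_l21650 _))))
       (CovZ.subM 3691918114254913842120355962080681128810318742434980321819564266952636520660298806156367397398350797702363643944 (by decide +kernel)
        (CovZ.n1 (-17472, 14400) (by decide +kernel)
         (CovZ.n2 (-17472, 14592) (by decide +kernel)
          (CovZ.n2 (-17376, 14496) (by decide +kernel)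
           (CovZ.leaf K2_ok TB_l21651 _)
           (CovZ.leaf K2_ok TB_l21652 _))
          (CovZ.leaf K2_ok TB_l21653 _))
         (CovZ.n1 (-17280, 14400) (by decide +kernel)
          (CovZ.leaf K2_ok TB_l21654 _)
          (CovZ.leaf K2_ok TB_l21655 _)))))
      (CovZ.n1 (-16896, 14208) (by decide +kernel)
       (CovZ.n2 (-17088, 14016) (by decide +kernel)
        (CovZ.n2 (-17088, 14208) (by decide +kernel)
         (CovZ.n2 (-16992, 14112) (by decide +kernel)
          (CovZ.leaf K2_ok TB_l21656 _)
          (CovZ.leaf K2_ok TB_l21657 _))
         (CovZ.n1 (-17184, 14112) (by decide +kernel)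
          (CovZ.leaf K2_ok TB_l21658 _)
          (CovZ.leaf K2_ok TB_l21659 _)))
        (CovZ.n1 (-16896, 14016) (by decide +kernel)
         (CovZ.n2 (-16992, 13920) (by decide +kernel)
          (CovZ.leaf K2_ok TB_l21660 _)
          (CovZ.leaf K2_ok TB_l21661 _))
         (CovZ.n1 (-16992, 14112) (by decide +kernel)
          (CovZ.leaf K2_ok TB_l21662 _)
          (CovZ.leaf K2_ok TB_l21663 _))))
       (CovZ.n1 (-17088, 14400) (by decide +kernel)
        (CovZ.n2 (-16896, 14400) (by decide +kernel)
         (CovZ.n2 (-16992, 14304) (by decide +kernel)
          (CovZ.n2 (-16992, 14400) (by decide +kernel)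
           (CovZ.leaf K2_ok TB_l21664 _)
           (CovZ.leaf K2_ok TB_l21665 _))
          (CovZ.n1 (-16896, 14304) (by decide +kernel)
           (CovZ.leaf K2_ok TB_l21666 _)
           (CovZ.leaf K2_ok TB_l21667 _)))
         (CovZ.n1 (-16992, 14496) (by decide +kernel)
          (CovZ.n2 (-16896, 14496) (by decide +kernel)
           (CovZ.leaf K2_ok TB_l21668 _)
           (CovZ.leaf K2_ok TB_l21669 _))
          (CovZ.n1 (-16992, 14400) (by decide +kernel)
           (CovZ.leaf K2_ok TB_l21670 _)
           (CovZ.leaf K2_ok TB_l21671 _))))
        (CovZ.n1 (-17088, 14208) (by decide +kernel)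
         (CovZ.n2 (-17184, 14304) (by decide +kernel)
          (CovZ.leaf K2_ok TB_l21672 _)
          (CovZ.leaf K2_ok TB_l21673 _))
         (CovZ.n1 (-16992, 14304) (by decide +kernel)
          (CovZ.n2 (-16992, 14208) (by decide +kernel)
           (CovZ.leaf K2_ok TB_l21674 _)
           (CovZ.leaf K2_ok TB_l21675 _))
          (CovZ.leaf K2_ok TB_l21676 _))))))

theorem TB_u326 : CovZ TB_M (toL (selN TB_LN 3998476492477186147056095119447382008567603626564937185111100849250203472043316869566256267115309852063692915304)) [0, 7, 6, 1] (-16896, 14592) (-16896, 15360) (-17664, 14592) :=
    (CovZ.n1 (-17280, 14976) (by decide +kernel)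
      (CovZ.n2 (-16896, 14976) (by decide +kernel)
       (CovZ.n2 (-17088, 14784) (by decide +kernel)
        (CovZ.subM 2785454248299521226803089681844919121477758805224079496346000577618630869109190257812226864814290076542645076000 (by decide +kernel)
         (CovZ.n2 (-17088, 14976) (by decide +kernel)
          (CovZ.n2 (-16992, 14880) (by decide +kernel)
           (CovZ.n2 (-17088, 14880) (by decide +kernel)
            (CovZ.n2 (-17040, 14928) (by decide +kernel)
             (CovZ.n2 (-17040, 14880) (by decide +kernel)
              (CovZ.n2 (-17064, 14904) (by decide +kernel)
               (CovZ.n2 (-17040, 14904) (by decide +kernel)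
                (CovZ.leaf K2_ok TB_l21677 _)
                (CovZ.leaf K2_ok TB_l21678 _))
               (CovZ.leaf K2_ok TB_l21679 _))
              (CovZ.n1 (-17016, 14904) (by decide +kernel)
               (CovZ.n2 (-17016, 14880) (by decide +kernel)
                (CovZ.leaf K2_ok TB_l21680 _)
                (CovZ.leaf K2_ok TB_l21681 _))
               (CovZ.n1 (-17040, 14904) (by decide +kernel)
                (CovZ.n2 (-17028, 14916) (by decide +kernel)
                 (CovZ.leaf K2_ok TB_l21682 _)
                 (CovZ.leaf K2_ok TB_l21683 _))
                (CovZ.leaf K2_ok TB_l21684 _))))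
             (CovZ.n1 (-17088, 14928) (by decide +kernel)
              (CovZ.n2 (-17064, 14952) (by decide +kernel)
               (CovZ.n2 (-17064, 14928) (by decide +kernel)
                (CovZ.leaf K2_ok TB_l21685 _)
                (CovZ.n1 (-17052, 14940) (by decide +kernel)
                 (CovZ.leaf K2_ok TB_l21686 _)
                 (CovZ.leaf K2_ok TB_l21687 _)))
               (CovZ.n1 (-17088, 14952) (by decide +kernel)
                (CovZ.n2 (-17076, 14964) (by decide +kernel)
                 (CovZ.leaf K2_ok TB_l21688 _)
                 (CovZ.leaf K2_ok TB_l21689 _))
                (CovZ.leaf K2_ok TB_l21690 _)))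
              (CovZ.n1 (-17064, 14904) (by decide +kernel)
               (CovZ.leaf K2_ok TB_l21691 _)
               (CovZ.leaf K2_ok TB_l21692 _))))
            (CovZ.n1 (-17040, 14832) (by decide +kernel)
             (CovZ.leaf K2_ok TB_l21693 _)
             (CovZ.n1 (-17040, 14880) (by decide +kernel)
              (CovZ.n2 (-17016, 14856) (by decide +kernel)
               (CovZ.leaf K2_ok TB_l21694 _)
               (CovZ.leaf K2_ok TB_l21695 _))
              (CovZ.leaf K2_ok TB_l21696 _))))
           (CovZ.n1 (-16992, 14976) (by decide +kernel)
            TB_u319
            TB_u320))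
          (CovZ.n1 (-17184, 14880) (by decide +kernel)
           (CovZ.n2 (-17184, 14976) (by decide +kernel)
            (CovZ.n2 (-17136, 14928) (by decide +kernel)
             (CovZ.n2 (-17184, 14928) (by decide +kernel)
              (CovZ.leaf K2_ok TB_l21701 _)
              (CovZ.leaf K2_ok TB_l21702 _))
             (CovZ.n1 (-17136, 14976) (by decide +kernel)
              (CovZ.n2 (-17112, 14952) (by decide +kernel)
               (CovZ.leaf K2_ok TB_l21703 _)
               (CovZ.n1 (-17112, 14976) (by decide +kernel)
                (CovZ.leaf K2_ok TB_l21704 _)
                (CovZ.leaf K2_ok TB_l21705 _)))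
              (CovZ.leaf K2_ok TB_l21706 _)))
            (CovZ.n1 (-17232, 14928) (by decide +kernel)
             (CovZ.leaf K2_ok TB_l21707 _)
             (CovZ.leaf K2_ok TB_l21708 _)))
           (CovZ.n1 (-17088, 14880) (by decide +kernel)
            (CovZ.n2 (-17136, 14832) (by decide +kernel)
             (CovZ.leaf K2_ok TB_l21709 _)
             (CovZ.leaf K2_ok TB_l21710 _))
            (CovZ.n1 (-17136, 14928) (by decide +kernel)
             (CovZ.n2 (-17088, 14928) (by decide +kernel)
              (CovZ.leaf K2_ok TB_l21711 _)
              (CovZ.n1 (-17112, 14952) (by decide +kernel)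
               (CovZ.n2 (-17088, 14952) (by decide +kernel)
                (CovZ.leaf K2_ok TB_l21712 _)
                (CovZ.leaf K2_ok TB_l21713 _))
               (CovZ.leaf K2_ok TB_l21714 _)))
             (CovZ.leaf K2_ok TB_l21715 _))))))
        (CovZ.n1 (-16896, 14784) (by decide +kernel)
         (CovZ.subM 3691991685250220852768429207716833594718460704042631320918139863758666063772463361885624756354668174643726123040 (by decide +kernel)
          (CovZ.n2 (-16992, 14688) (by decide +kernel)
           (CovZ.n2 (-16992, 14784) (by decide +kernel)
            (CovZ.n2 (-16944, 14736) (by decide +kernel)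
             (CovZ.leaf K2_ok TB_l21716 _)
             (CovZ.n1 (-16944, 14784) (by decide +kernel)
              (CovZ.leaf K2_ok TB_l21717 _)
              (CovZ.leaf K2_ok TB_l21718 _)))
            (CovZ.n1 (-17040, 14736) (by decide +kernel)
             (CovZ.leaf K2_ok TB_l21719 _)
             (CovZ.leaf K2_ok TB_l21720 _)))
           (CovZ.n1 (-16896, 14688) (by decide +kernel)
            (CovZ.n2 (-16944, 14640) (by decide +kernel)
             (CovZ.leaf K2_ok TB_l21721 _)
             (CovZ.leaf K2_ok TB_l21722 _))
            (CovZ.n1 (-16944, 14736) (by decide +kernel)
             (CovZ.n2 (-16896, 14736) (by decide +kernel)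
              (CovZ.leaf K2_ok TB_l21723 _)
              (CovZ.leaf K2_ok TB_l21724 _))
             (CovZ.leaf K2_ok TB_l21725 _)))))
         (CovZ.subM 2785454248299521226803089681844919121477758805224079496346000577618630869109190252741614792493662560549571919904 (by decide +kernel)
          (CovZ.n1 (-16992, 14880) (by decide +kernel)
           (CovZ.n2 (-16896, 14880) (by decide +kernel)
            TB_u321
            TB_u322)
           (CovZ.n1 (-16992, 14784) (by decide +kernel)
            (CovZ.n2 (-17040, 14832) (by decide +kernel)
             (CovZ.n2 (-16992, 14832) (by decide +kernel)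
              (CovZ.leaf K2_ok TB_l21730 _)
              (CovZ.n1 (-17016, 14856) (by decide +kernel)
               (CovZ.leaf K2_ok TB_l21731 _)
               (CovZ.leaf K2_ok TB_l21732 _)))
             (CovZ.leaf K2_ok TB_l21733 _))
            (CovZ.n1 (-16944, 14832) (by decide +kernel)
             (CovZ.n2 (-16944, 14784) (by decide +kernel)
              (CovZ.n2 (-16968, 14808) (by decide +kernel)
               (CovZ.leaf K2_ok TB_l21734 _)
               (CovZ.leaf K2_ok TB_l21735 _))
              (CovZ.n1 (-16920, 14808) (by decide +kernel)
               (CovZ.leaf K2_ok TB_l21736 _)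
               (CovZ.n1 (-16944, 14808) (by decide +kernel)
                (CovZ.leaf K2_ok TB_l21737 _)
                (CovZ.leaf K2_ok TB_l21738 _))))
             (CovZ.n1 (-16992, 14832) (by decide +kernel)
              (CovZ.n2 (-16968, 14856) (by decide +kernel)
               (CovZ.n2 (-16968, 14832) (by decide +kernel)
                (CovZ.leaf K2_ok TB_l21739 _)
                (CovZ.leaf K2_ok TB_l21740 _))
               (CovZ.n1 (-16992, 14856) (by decide +kernel)
                (CovZ.leaf K2_ok TB_l21741 _)
                (CovZ.leaf K2_ok TB_l21742 _)))
              (CovZ.leaf K2_ok TB_l21743 _))))))))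
       (CovZ.n1 (-17088, 15168) (by decide +kernel)
        TB_u323
        TB_u324))
      (CovZ.n1 (-17280, 14592) (by decide +kernel)
       (CovZ.subM 2494161397040258895896720855805808259410877855716378826775636749138947596724087242316604901181073658093756252200 (by decide +kernel)
        (CovZ.n2 (-17472, 14784) (by decide +kernel)
         (CovZ.n2 (-17280, 14784) (by decide +kernel)
          (CovZ.n2 (-17376, 14688) (by decide +kernel)
           (CovZ.leaf K2_ok TB_l21866 _)
           (CovZ.leaf K2_ok TB_l21867 _))
          (CovZ.n1 (-17376, 14880) (by decide +kernel)
           (CovZ.n2 (-17280, 14880) (by decide +kernel)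
            (CovZ.leaf K2_ok TB_l21868 _)
            (CovZ.leaf K2_ok TB_l21869 _))
           (CovZ.leaf K2_ok TB_l21870 _)))
         (CovZ.n1 (-17472, 14592) (by decide +kernel)
          (CovZ.leaf K2_ok TB_l21871 _)
          (CovZ.n1 (-17376, 14688) (by decide +kernel)
           (CovZ.leaf K2_ok TB_l21872 _)
           (CovZ.leaf K2_ok TB_l21873 _)))))
       (CovZ.n1 (-17088, 14784) (by decide +kernel)
        (CovZ.n2 (-17088, 14592) (by decide +kernel)
         (CovZ.n2 (-17184, 14688) (by decide +kernel)
          (CovZ.n2 (-17088, 14688) (by decide +kernel)
           (CovZ.leaf K2_ok TB_l21874 _)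
           (CovZ.leaf K2_ok TB_l21875 _))
          (CovZ.leaf K2_ok TB_l21876 _))
         (CovZ.n1 (-16992, 14688) (by decide +kernel)
          (CovZ.n2 (-16992, 14592) (by decide +kernel)
           (CovZ.leaf K2_ok TB_l21877 _)
           (CovZ.n1 (-16944, 14640) (by decide +kernel)
            (CovZ.leaf K2_ok TB_l21878 _)
            (CovZ.leaf K2_ok TB_l21879 _)))
          (CovZ.n1 (-17088, 14688) (by decide +kernel)
           (CovZ.leaf K2_ok TB_l21880 _)
           (CovZ.leaf K2_ok TB_l21881 _))))
        (CovZ.n1 (-17280, 14784) (by decide +kernel)
         (CovZ.subM 2494234932199650031178445384666645108616685542239013267657792541347853764509554207566182991187796506378479108128 (by decide +kernel)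
          (CovZ.n2 (-17184, 14880) (by decide +kernel)
           (CovZ.n2 (-17184, 14784) (by decide +kernel)
            (CovZ.leaf K2_ok TB_l21882 _)
            (CovZ.n1 (-17136, 14832) (by decide +kernel)
             (CovZ.leaf K2_ok TB_l21883 _)
             (CovZ.leaf K2_ok TB_l21884 _)))
           (CovZ.n1 (-17280, 14880) (by decide +kernel)
            (CovZ.n2 (-17232, 14928) (by decide +kernel)
             (CovZ.leaf K2_ok TB_l21885 _)
             (CovZ.leaf K2_ok TB_l21886 _))
            (CovZ.leaf K2_ok TB_l21887 _))))
         (CovZ.n1 (-17184, 14688) (by decide +kernel)
          (CovZ.leaf K2_ok TB_l21888 _)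
          (CovZ.n1 (-17184, 14784) (by decide +kernel)
           (CovZ.leaf K2_ok TB_l21889 _)
           (CovZ.leaf K2_ok TB_l21890 _)))))))

theorem TB_u327 : CovZ TB_M (toL (selN TB_LN 3997302221185799230442150379148987340053915785290483025175747203764437367530759565344524417616117467712176947816)) [0, 7, 6, 1] (-18432, 13824) (-17664, 14592) (-18432, 15360) :=
    (CovZ.subM 2494161397075254906417694051090677018030346386256069888842090431084813837674545881070202436047707061621272773160 (by decide +kernel)
     (CovZ.n2 (-18432, 14592) (by decide +kernel)
      (CovZ.n2 (-18048, 14976) (by decide +kernel)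
       (CovZ.n2 (-18048, 14592) (by decide +kernel)
        (CovZ.n2 (-18240, 14784) (by decide +kernel)
         (CovZ.leaf K2_ok TB_l21916 _)
         (CovZ.leaf K2_ok TB_l21917 _))
        (CovZ.n1 (-17856, 14784) (by decide +kernel)
         (CovZ.n2 (-17856, 14592) (by decide +kernel)
          (CovZ.leaf K2_ok TB_l21918 _)
          (CovZ.leaf K2_ok TB_l21919 _))
         (CovZ.n1 (-18048, 14784) (by decide +kernel)
          (CovZ.leaf K2_ok TB_l21920 _)
          (CovZ.leaf K2_ok TB_l21921 _))))
       (CovZ.n1 (-18432, 14976) (by decide +kernel)
        (CovZ.n2 (-18240, 15168) (by decide +kernel)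
         (CovZ.n2 (-18240, 14976) (by decide +kernel)
          (CovZ.leaf K2_ok TB_l21922 _)
          (CovZ.leaf K2_ok TB_l21923 _))
         (CovZ.n1 (-18432, 15168) (by decide +kernel)
          (CovZ.leaf K2_ok TB_l21924 _)
          (CovZ.leaf K2_ok TB_l21925 _)))
        (CovZ.n1 (-18240, 14784) (by decide +kernel)
         (CovZ.leaf K2_ok TB_l21926 _)
         (CovZ.n1 (-18240, 14976) (by decide +kernel)
          (CovZ.leaf K2_ok TB_l21927 _)
          (CovZ.leaf K2_ok TB_l21928 _)))))
      (CovZ.n1 (-18048, 14208) (by decide +kernel)
       (CovZ.n2 (-18432, 14208) (by decide +kernel)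
        (CovZ.n2 (-18240, 14400) (by decide +kernel)
         (CovZ.leaf K2_ok TB_l21929 _)
         (CovZ.leaf K2_ok TB_l21930 _))
        (CovZ.leaf K2_ok TB_l21931 _))
       (CovZ.n1 (-18048, 14592) (by decide +kernel)
        (CovZ.n2 (-17856, 14400) (by decide +kernel)
         (CovZ.leaf K2_ok TB_l21932 _)
         (CovZ.n1 (-17856, 14592) (by decide +kernel)
          (CovZ.leaf K2_ok TB_l21933 _)
          (CovZ.leaf K2_ok TB_l21934 _)))
        (CovZ.n1 (-18240, 14400) (by decide +kernel)
         (CovZ.leaf K2_ok TB_l21935 _)
         (CovZ.leaf K2_ok TB_l21936 _))))))

theorem TB_u328 : CovZ TB_M (toL (selN TB_LN 3997302221185799230442150379148987340053915785290483025175747203764437367530759565344524417616117467712176947816)) [0, 7, 6, 1] (-17664, 14592) (-16896, 15360) (-18432, 15360) :=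
    (CovZ.n1 (-17664, 15360) (by decide +kernel)
     (CovZ.n2 (-17280, 14976) (by decide +kernel)
      (CovZ.n2 (-17664, 14976) (by decide +kernel)
       (CovZ.subM 2484767226569179516599042213087020794247972682921013839116543897280350491810982870131829794541137087540060389920 (by decide +kernel)
        (CovZ.n2 (-17472, 15168) (by decide +kernel)
         (CovZ.n2 (-17472, 14976) (by decide +kernel)
          (CovZ.n2 (-17568, 15072) (by decide +kernel)
           (CovZ.n2 (-17472, 15072) (by decide +kernel)
            (CovZ.leaf K2_ok TB_l21937 _)
            (CovZ.leaf K2_ok TB_l21938 _))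
           (CovZ.leaf K2_ok TB_l21939 _))
          (CovZ.n1 (-17376, 15072) (by decide +kernel)
           (CovZ.n2 (-17376, 14976) (by decide +kernel)
            (CovZ.leaf K2_ok TB_l21940 _)
            (CovZ.n1 (-17328, 15024) (by decide +kernel)
             (CovZ.leaf K2_ok TB_l21941 _)
             (CovZ.leaf K2_ok TB_l21942 _)))
           (CovZ.n1 (-17472, 15072) (by decide +kernel)
            (CovZ.n2 (-17424, 15120) (by decide +kernel)
             (CovZ.leaf K2_ok TB_l21943 _)
             (CovZ.leaf K2_ok TB_l21944 _))
            (CovZ.leaf K2_ok TB_l21945 _))))
         (CovZ.n1 (-17664, 15168) (by decide +kernel)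
          (CovZ.n2 (-17568, 15264) (by decide +kernel)
           (CovZ.n2 (-17568, 15168) (by decide +kernel)
            (CovZ.leaf K2_ok TB_l21946 _)
            (CovZ.leaf K2_ok TB_l21947 _))
           (CovZ.n1 (-17664, 15264) (by decide +kernel)
            (CovZ.leaf K2_ok TB_l21948 _)
            (CovZ.leaf K2_ok TB_l21949 _)))
          (CovZ.n1 (-17568, 15072) (by decide +kernel)
           (CovZ.leaf K2_ok TB_l21950 _)
           (CovZ.n1 (-17568, 15168) (by decide +kernel)
            (CovZ.leaf K2_ok TB_l21951 _)
            (CovZ.leaf K2_ok TB_l21952 _))))))
       (CovZ.subM 2494161397040258895896720855805808259410877855716378826775636749138947596724087242316604901181073658093756252200 (by decide +kernel)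
        (CovZ.n1 (-17472, 14784) (by decide +kernel)
         (CovZ.n2 (-17664, 14784) (by decide +kernel)
          (CovZ.n2 (-17568, 14880) (by decide +kernel)
           (CovZ.leaf K2_ok TB_l21953 _)
           (CovZ.leaf K2_ok TB_l21954 _))
          (CovZ.leaf K2_ok TB_l21955 _))
         (CovZ.n1 (-17472, 14976) (by decide +kernel)
          (CovZ.n2 (-17376, 14880) (by decide +kernel)
           (CovZ.leaf K2_ok TB_l21956 _)
           (CovZ.n1 (-17376, 14976) (by decide +kernel)
            (CovZ.leaf K2_ok TB_l21957 _)
            (CovZ.leaf K2_ok TB_l21958 _)))
          (CovZ.n1 (-17568, 14880) (by decide +kernel)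
           (CovZ.leaf K2_ok TB_l21959 _)
           (CovZ.leaf K2_ok TB_l21960 _))))))
      (CovZ.n1 (-17280, 15360) (by decide +kernel)
       (CovZ.n2 (-17088, 15168) (by decide +kernel)
        (CovZ.subM 2484840761868554698266887462264310652323479693382542454915991266675352975490022415533638091272642358916510024224 (by decide +kernel)
         (CovZ.n2 (-17280, 15168) (by decide +kernel)
          (CovZ.n2 (-17184, 15264) (by decide +kernel)
           (CovZ.n2 (-17184, 15168) (by decide +kernel)
            (CovZ.n2 (-17232, 15216) (by decide +kernel)
             (CovZ.leaf K2_ok TB_l21961 _)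
             (CovZ.n1 (-17232, 15168) (by decide +kernel)
              (CovZ.leaf K2_ok TB_l21962 _)
              (CovZ.leaf K2_ok TB_l21963 _)))
            (CovZ.n1 (-17136, 15216) (by decide +kernel)
             (CovZ.n2 (-17136, 15168) (by decide +kernel)
              (CovZ.leaf K2_ok TB_l21964 _)
              (CovZ.leaf K2_ok TB_l21965 _))
             (CovZ.leaf K2_ok TB_l21966 _)))
           (CovZ.n1 (-17280, 15264) (by decide +kernel)
            (CovZ.n2 (-17232, 15312) (by decide +kernel)
             (CovZ.leaf K2_ok TB_l21967 _)
             (CovZ.leaf K2_ok TB_l21968 _))
            (CovZ.n1 (-17232, 15216) (by decide +kernel)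
             (CovZ.leaf K2_ok TB_l21969 _)
             (CovZ.leaf K2_ok TB_l21970 _))))
          (CovZ.n1 (-17184, 15072) (by decide +kernel)
           (CovZ.n2 (-17280, 15072) (by decide +kernel)
            (CovZ.n2 (-17232, 15120) (by decide +kernel)
             (CovZ.n2 (-17232, 15072) (by decide +kernel)
              (CovZ.leaf K2_ok TB_l21971 _)
              (CovZ.leaf K2_ok TB_l21972 _))
             (CovZ.n1 (-17280, 15120) (by decide +kernel)
              (CovZ.leaf K2_ok TB_l21973 _)
              (CovZ.leaf K2_ok TB_l21974 _)))
            (CovZ.n1 (-17232, 15024) (by decide +kernel)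
             (CovZ.n2 (-17280, 15024) (by decide +kernel)
              (CovZ.leaf K2_ok TB_l21975 _)
              (CovZ.leaf K2_ok TB_l21976 _))
             (CovZ.n1 (-17232, 15072) (by decide +kernel)
              (CovZ.n2 (-17208, 15048) (by decide +kernel)
               (CovZ.leaf K2_ok TB_l21977 _)
               (CovZ.leaf K2_ok TB_l21978 _))
              (CovZ.leaf K2_ok TB_l21979 _))))
           (CovZ.n1 (-17184, 15168) (by decide +kernel)
            (CovZ.n2 (-17136, 15120) (by decide +kernel)
             (CovZ.n2 (-17184, 15120) (by decide +kernel)
              (CovZ.leaf K2_ok TB_l21980 _)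
              (CovZ.leaf K2_ok TB_l21981 _))
             (CovZ.n1 (-17136, 15168) (by decide +kernel)
              (CovZ.leaf K2_ok TB_l21982 _)
              (CovZ.leaf K2_ok TB_l21983 _)))
            (CovZ.n1 (-17232, 15120) (by decide +kernel)
             (CovZ.n2 (-17232, 15168) (by decide +kernel)
              (CovZ.leaf K2_ok TB_l21984 _)
              (CovZ.leaf K2_ok TB_l21985 _))
             (CovZ.n1 (-17184, 15120) (by decide +kernel)
              (CovZ.leaf K2_ok TB_l21986 _)
              (CovZ.leaf K2_ok TB_l21987 _)))))))
        (CovZ.subM 2785371503169766208472479441793470835157190519952276504954942699607936363268414691691069298104202883695821095488 (by decide +kernel)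
         (CovZ.n1 (-17088, 15360) (by decide +kernel)
          (CovZ.n2 (-16992, 15264) (by decide +kernel)
           (CovZ.n2 (-17088, 15264) (by decide +kernel)
            (CovZ.n2 (-17040, 15312) (by decide +kernel)
             (CovZ.leaf K2_ok TB_l21988 _)
             (CovZ.leaf K2_ok TB_l21989 _))
            (CovZ.n1 (-17040, 15216) (by decide +kernel)
             (CovZ.leaf K2_ok TB_l21990 _)
             (CovZ.n1 (-17040, 15264) (by decide +kernel)
              (CovZ.leaf K2_ok TB_l21991 _)
              (CovZ.leaf K2_ok TB_l21992 _))))
           (CovZ.n1 (-16992, 15360) (by decide +kernel)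
            (CovZ.n2 (-16944, 15312) (by decide +kernel)
             (CovZ.leaf K2_ok TB_l21993 _)
             (CovZ.leaf K2_ok TB_l21994 _))
            (CovZ.n1 (-17040, 15312) (by decide +kernel)
             (CovZ.leaf K2_ok TB_l21995 _)
             (CovZ.leaf K2_ok TB_l21996 _))))
          (CovZ.n1 (-17184, 15264) (by decide +kernel)
           (CovZ.n2 (-17184, 15360) (by decide +kernel)
            (CovZ.n2 (-17136, 15312) (by decide +kernel)
             (CovZ.leaf K2_ok TB_l21997 _)
             (CovZ.leaf K2_ok TB_l21998 _))
            (CovZ.leaf K2_ok TB_l21999 _))
           (CovZ.n1 (-17088, 15264) (by decide +kernel)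
            (CovZ.n2 (-17136, 15216) (by decide +kernel)
             (CovZ.leaf K2_ok TB_l22000 _)
             (CovZ.leaf K2_ok TB_l22001 _))
            (CovZ.n1 (-17136, 15312) (by decide +kernel)
             (CovZ.leaf K2_ok TB_l22002 _)
             (CovZ.leaf K2_ok TB_l22003 _)))))))
       (CovZ.subM 2484767226569179516599042213071843693301054285709341221789560437349382702499954934296651123125714391630430241312 (by decide +kernel)
        (CovZ.n1 (-17472, 15168) (by decide +kernel)
         (CovZ.n2 (-17472, 15360) (by decide +kernel)
          (CovZ.n2 (-17376, 15264) (by decide +kernel)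
           (CovZ.n2 (-17472, 15264) (by decide +kernel)
            (CovZ.leaf K2_ok TB_l22004 _)
            (CovZ.n1 (-17424, 15216) (by decide +kernel)
             (CovZ.leaf K2_ok TB_l22005 _)
             (CovZ.leaf K2_ok TB_l22006 _)))
           (CovZ.n1 (-17376, 15360) (by decide +kernel)
            (CovZ.n2 (-17328, 15312) (by decide +kernel)
             (CovZ.leaf K2_ok TB_l22007 _)
             (CovZ.leaf K2_ok TB_l22008 _))
            (CovZ.leaf K2_ok TB_l22009 _)))
          (CovZ.n1 (-17568, 15264) (by decide +kernel)
           (CovZ.n2 (-17568, 15360) (by decide +kernel)
            (CovZ.leaf K2_ok TB_l22010 _)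
            (CovZ.leaf K2_ok TB_l22011 _))
           (CovZ.n1 (-17472, 15264) (by decide +kernel)
            (CovZ.leaf K2_ok TB_l22012 _)
            (CovZ.leaf K2_ok TB_l22013 _))))
         (CovZ.n1 (-17280, 15168) (by decide +kernel)
          (CovZ.n2 (-17376, 15072) (by decide +kernel)
           (CovZ.n2 (-17376, 15168) (by decide +kernel)
            (CovZ.n2 (-17328, 15120) (by decide +kernel)
             (CovZ.leaf K2_ok TB_l22014 _)
             (CovZ.n1 (-17328, 15168) (by decide +kernel)
              (CovZ.leaf K2_ok TB_l22015 _)
              (CovZ.leaf K2_ok TB_l22016 _)))
            (CovZ.n1 (-17424, 15120) (by decide +kernel)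
             (CovZ.leaf K2_ok TB_l22017 _)
             (CovZ.leaf K2_ok TB_l22018 _)))
           (CovZ.n1 (-17280, 15072) (by decide +kernel)
            (CovZ.n2 (-17328, 15024) (by decide +kernel)
             (CovZ.leaf K2_ok TB_l22019 _)
             (CovZ.leaf K2_ok TB_l22020 _))
            (CovZ.n1 (-17328, 15120) (by decide +kernel)
             (CovZ.n2 (-17280, 15120) (by decide +kernel)
              (CovZ.leaf K2_ok TB_l22021 _)
              (CovZ.leaf K2_ok TB_l22022 _))
             (CovZ.n1 (-17328, 15072) (by decide +kernel)
              (CovZ.leaf K2_ok TB_l22023 _)
              (CovZ.leaf K2_ok TB_l22024 _)))))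
          (CovZ.n1 (-17376, 15264) (by decide +kernel)
           (CovZ.n2 (-17280, 15264) (by decide +kernel)
            (CovZ.n2 (-17328, 15216) (by decide +kernel)
             (CovZ.leaf K2_ok TB_l22025 _)
             (CovZ.leaf K2_ok TB_l22026 _))
            (CovZ.n1 (-17328, 15312) (by decide +kernel)
             (CovZ.leaf K2_ok TB_l22027 _)
             (CovZ.leaf K2_ok TB_l22028 _)))
           (CovZ.n1 (-17376, 15168) (by decide +kernel)
            (CovZ.n2 (-17424, 15216) (by decide +kernel)
             (CovZ.leaf K2_ok TB_l22029 _)
             (CovZ.leaf K2_ok TB_l22030 _))
            (CovZ.n1 (-17328, 15216) (by decide +kernel)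
             (CovZ.n2 (-17328, 15168) (by decide +kernel)
              (CovZ.leaf K2_ok TB_l22031 _)
              (CovZ.leaf K2_ok TB_l22032 _))
             (CovZ.leaf K2_ok TB_l22033 _)))))))))
     (CovZ.subM 2494161397075254906417694051090677018030346386256069888842090431084813837674545881070202436047707061621272773160 (by decide +kernel)
      (CovZ.n1 (-18048, 14976) (by decide +kernel)
       (CovZ.n2 (-18048, 15360) (by decide +kernel)
        (CovZ.n2 (-17856, 15168) (by decide +kernel)
         (CovZ.n2 (-18048, 15168) (by decide +kernel)
          (CovZ.n2 (-17952, 15264) (by decide +kernel)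
           (CovZ.leaf K2_ok TB_l22034 _)
           (CovZ.leaf K2_ok TB_l22035 _))
          (CovZ.leaf K2_ok TB_l22036 _))
         (CovZ.n1 (-17856, 15360) (by decide +kernel)
          (CovZ.n2 (-17760, 15264) (by decide +kernel)
           (CovZ.leaf K2_ok TB_l22037 _)
           (CovZ.leaf K2_ok TB_l22038 _))
          (CovZ.n1 (-17952, 15264) (by decide +kernel)
           (CovZ.leaf K2_ok TB_l22039 _)
           (CovZ.leaf K2_ok TB_l22040 _))))
        (CovZ.n1 (-18240, 15168) (by decide +kernel)
         (CovZ.n2 (-18240, 15360) (by decide +kernel)
          (CovZ.n2 (-18144, 15264) (by decide +kernel)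
           (CovZ.leaf K2_ok TB_l22041 _)
           (CovZ.leaf K2_ok TB_l22042 _))
          (CovZ.leaf K2_ok TB_l22043 _))
         (CovZ.n1 (-18048, 15168) (by decide +kernel)
          (CovZ.leaf K2_ok TB_l22044 _)
          (CovZ.n1 (-18144, 15264) (by decide +kernel)
           (CovZ.leaf K2_ok TB_l22045 _)
           (CovZ.leaf K2_ok TB_l22046 _)))))
       (CovZ.n1 (-17664, 14976) (by decide +kernel)
        (CovZ.n2 (-17856, 14784) (by decide +kernel)
         (CovZ.n2 (-17856, 14976) (by decide +kernel)
          (CovZ.leaf K2_ok TB_l22047 _)
          (CovZ.leaf K2_ok TB_l22048 _))
         (CovZ.n1 (-17664, 14784) (by decide +kernel)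
          (CovZ.leaf K2_ok TB_l22049 _)
          (CovZ.leaf K2_ok TB_l22050 _)))
        (CovZ.n1 (-17856, 15168) (by decide +kernel)
         (CovZ.n2 (-17664, 15168) (by decide +kernel)
          (CovZ.n2 (-17760, 15072) (by decide +kernel)
           (CovZ.n2 (-17760, 15168) (by decide +kernel)
            (CovZ.leaf K2_ok TB_l22051 _)
            (CovZ.leaf K2_ok TB_l22052 _))
           (CovZ.leaf K2_ok TB_l22053 _))
          (CovZ.n1 (-17760, 15264) (by decide +kernel)
           (CovZ.leaf K2_ok TB_l22054 _)
           (CovZ.leaf K2_ok TB_l22055 _)))
         (CovZ.n1 (-17856, 14976) (by decide +kernel)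
          (CovZ.leaf K2_ok TB_l22056 _)
          (CovZ.n1 (-17760, 15072) (by decide +kernel)
           (CovZ.leaf K2_ok TB_l22057 _)
           (CovZ.leaf K2_ok TB_l22058 _))))))))

theorem TB_u329 : CovZ TB_M (toL (selN TB_LN 661055968790549212402510358686266882758381500035625312894973756944214497196487575954614222140049693680366204899395324871504)) [0, 7, 6, 1] (-15360, 15360) (-15456, 15264) (-15360, 15168) :=
    (CovZ.subM 661055968790549212402510358685940957002167982261822358133955083043164368536122381390792059628221423967075615325682529206592 (by decide +kernel)
            (CovZ.n2 (-15360, 15264) (by decide +kernel)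
             (CovZ.n2 (-15408, 15216) (by decide +kernel)
              (CovZ.n2 (-15408, 15264) (by decide +kernel)
               (CovZ.n2 (-15384, 15240) (by decide +kernel)
                (CovZ.subM 300613450595050653169853516389035139504087366260264943450533244356122760659187751505893848702130030798539063552 (by decide +kernel)
                 (CovZ.n2 (-15408, 15240) (by decide +kernel)
                  (CovZ.n2 (-15396, 15252) (by decide +kernel)
                   (CovZ.leaf K2_ok TB_l42539 _)
                   (CovZ.leaf K2_ok TB_l42540 _))
                  (CovZ.n1 (-15396, 15228) (by decide +kernel)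
                   (CovZ.badM (by decide +kernel))
                   (CovZ.n1 (-15396, 15240) (by decide +kernel)
                    (CovZ.badM (by decide +kernel))
                    (CovZ.leaf K2_ok TB_l42541 _)))))
                (CovZ.n1 (-15384, 15264) (by decide +kernel)
                 (CovZ.n2 (-15372, 15252) (by decide +kernel)
                  (CovZ.leaf K2_ok TB_l42542 _)
                  (CovZ.n1 (-15372, 15264) (by decide +kernel)
                   (CovZ.leaf K2_ok TB_l42543 _)
                   (CovZ.leaf K2_ok TB_l42544 _)))
                 (CovZ.n1 (-15396, 15252) (by decide +kernel)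
                  (CovZ.n2 (-15396, 15264) (by decide +kernel)
                   (CovZ.leaf K2_ok TB_l42545 _)
                   (CovZ.leaf K2_ok TB_l42546 _))
                  (CovZ.leaf K2_ok TB_l42547 _))))
               (CovZ.n1 (-15432, 15240) (by decide +kernel)
                (CovZ.n2 (-15432, 15264) (by decide +kernel)
                 (CovZ.n2 (-15420, 15252) (by decide +kernel)
                  (CovZ.leaf K2_ok TB_l42548 _)
                  (CovZ.n1 (-15420, 15264) (by decide +kernel)
                   (CovZ.leaf K2_ok TB_l42549 _)
                   (CovZ.leaf K2_ok TB_l42550 _)))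
                 (CovZ.n1 (-15444, 15252) (by decide +kernel)
                  (CovZ.n2 (-15444, 15264) (by decide +kernel)
                   (CovZ.leaf K2_ok TB_l42551 _)
                   (CovZ.leaf K2_ok TB_l42552 _))
                  (CovZ.leaf K2_ok TB_l42553 _)))
                (CovZ.n1 (-15408, 15240) (by decide +kernel)
                 (CovZ.n2 (-15420, 15228) (by decide +kernel)
                  (CovZ.n2 (-15420, 15240) (by decide +kernel)
                   (CovZ.badM (by decide +kernel))
                   (CovZ.leaf K2_ok TB_l42554 _))
                  (CovZ.badM (by decide +kernel)))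
                 (CovZ.n1 (-15420, 15252) (by decide +kernel)
                  (CovZ.leaf K2_ok TB_l42555 _)
                  (CovZ.n1 (-15420, 15240) (by decide +kernel)
                   (CovZ.leaf K2_ok TB_l42556 _)
                   (CovZ.leaf K2_ok TB_l42557 _))))))
              (CovZ.subM 50216813883093446116130833256401378900613890780496606003456 (by decide +kernel)
               (CovZ.n1 (-15360, 15216) (by decide +kernel)
                (CovZ.badM (by decide +kernel))
                (CovZ.n1 (-15384, 15240) (by decide +kernel)
                 (CovZ.n2 (-15360, 15240) (by decide +kernel)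
                  (CovZ.badM (by decide +kernel))
                  (CovZ.n1 (-15372, 15252) (by decide +kernel)
                   (CovZ.n2 (-15360, 15252) (by decide +kernel)
                    (CovZ.leaf K2_ok TB_l42558 _)
                    (CovZ.leaf K2_ok TB_l42559 _))
                   (CovZ.leaf K2_ok TB_l42560 _)))
                 (CovZ.badM (by decide +kernel))))))
             (CovZ.n1 (-15408, 15312) (by decide +kernel)
              (CovZ.n2 (-15360, 15312) (by decide +kernel)
               (CovZ.n2 (-15384, 15288) (by decide +kernel)
                (CovZ.n2 (-15384, 15312) (by decide +kernel)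
                 (CovZ.n2 (-15372, 15300) (by decide +kernel)
                  (CovZ.leaf K2_ok TB_l25779 _)
                  (CovZ.leaf K2_ok TB_l25780 _))
                 (CovZ.n1 (-15396, 15300) (by decide +kernel)
                  (CovZ.leaf K2_ok TB_l25781 _)
                  (CovZ.leaf K2_ok TB_l25782 _)))
                (CovZ.n1 (-15360, 15288) (by decide +kernel)
                 (CovZ.n2 (-15372, 15276) (by decide +kernel)
                  (CovZ.leaf K2_ok TB_l42561 _)
                  (CovZ.leaf K2_ok TB_l42562 _))
                 (CovZ.n1 (-15372, 15300) (by decide +kernel)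
                  (CovZ.leaf K2_ok TB_l42563 _)
                  (CovZ.leaf K2_ok TB_l42564 _))))
               (CovZ.n1 (-15384, 15336) (by decide +kernel)
                (CovZ.n2 (-15360, 15336) (by decide +kernel)
                 (CovZ.leaf K2_ok TB_l25783 _)
                 (CovZ.leaf K2_ok TB_l25784 _))
                (CovZ.n1 (-15384, 15312) (by decide +kernel)
                 (CovZ.n2 (-15396, 15324) (by decide +kernel)
                  (CovZ.leaf K2_ok TB_l25785 _)
                  (CovZ.leaf K2_ok TB_l25786 _))
                 (CovZ.n1 (-15372, 15324) (by decide +kernel)
                  (CovZ.leaf K2_ok TB_l25787 _)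
                  (CovZ.leaf K2_ok TB_l25788 _)))))
              (CovZ.n1 (-15408, 15264) (by decide +kernel)
               (CovZ.n2 (-15432, 15288) (by decide +kernel)
                (CovZ.n2 (-15408, 15288) (by decide +kernel)
                 (CovZ.n2 (-15420, 15276) (by decide +kernel)
                  (CovZ.leaf K2_ok TB_l42565 _)
                  (CovZ.leaf K2_ok TB_l42566 _))
                 (CovZ.n1 (-15420, 15300) (by decide +kernel)
                  (CovZ.leaf K2_ok TB_l42567 _)
                  (CovZ.leaf K2_ok TB_l42568 _)))
                (CovZ.n1 (-15432, 15264) (by decide +kernel)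
                 (CovZ.n2 (-15444, 15276) (by decide +kernel)
                  (CovZ.leaf K2_ok TB_l42569 _)
                  (CovZ.leaf K2_ok TB_l42570 _))
                 (CovZ.n1 (-15420, 15276) (by decide +kernel)
                  (CovZ.leaf K2_ok TB_l42571 _)
                  (CovZ.leaf K2_ok TB_l42572 _))))
               (CovZ.n1 (-15384, 15288) (by decide +kernel)
                (CovZ.n2 (-15384, 15264) (by decide +kernel)
                 (CovZ.n2 (-15396, 15276) (by decide +kernel)
                  (CovZ.leaf K2_ok TB_l42573 _)
                  (CovZ.leaf K2_ok TB_l42574 _))
                 (CovZ.n1 (-15372, 15276) (by decide +kernel)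
                  (CovZ.n2 (-15372, 15264) (by decide +kernel)
                   (CovZ.leaf K2_ok TB_l42575 _)
                   (CovZ.leaf K2_ok TB_l42576 _))
                  (CovZ.leaf K2_ok TB_l42577 _)))
                (CovZ.n1 (-15408, 15288) (by decide +kernel)
                 (CovZ.n2 (-15396, 15300) (by decide +kernel)
                  (CovZ.leaf K2_ok TB_l42578 _)
                  (CovZ.leaf K2_ok TB_l42579 _))
                 (CovZ.n1 (-15396, 15276) (by decide +kernel)
                  (CovZ.leaf K2_ok TB_l42580 _)
                  (CovZ.leaf K2_ok TB_l42581 _))))))))

theorem TB_u330 : CovZ TB_M (toL (selN TB_LN 661055968790549212402510358686266882758381500035625312894973756944214497196487575954614222140049693680366204899395324871504)) [0, 7, 6, 1] (-15456, 15264) (-15552, 15168) (-15360, 15168) :=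
    (CovZ.subM 661055968790549212402510358685940957002167982261822358133955082992947554653028935269216874654587055415061488396799385272896 (by decide +kernel)
            (CovZ.n1 (-15456, 15168) (by decide +kernel)
             (CovZ.n2 (-15504, 15216) (by decide +kernel)
              (CovZ.n2 (-15456, 15216) (by decide +kernel)
               (CovZ.subM 661055968790248598951915308032771103485778943416971415173576558067473324094698659036069642084415917282752866869395224264768 (by decide +kernel)
                (CovZ.n2 (-15480, 15192) (by decide +kernel)
                 (CovZ.n2 (-15480, 15216) (by decide +kernel)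
                  (CovZ.n2 (-15468, 15204) (by decide +kernel)
                   (CovZ.leaf K2_ok TB_l42582 _)
                   (CovZ.n1 (-15468, 15216) (by decide +kernel)
                    (CovZ.leaf K2_ok TB_l42583 _)
                    (CovZ.leaf K2_ok TB_l42584 _)))
                  (CovZ.n1 (-15492, 15204) (by decide +kernel)
                   (CovZ.n2 (-15492, 15216) (by decide +kernel)
                    (CovZ.leaf K2_ok TB_l42585 _)
                    (CovZ.leaf K2_ok TB_l42586 _))
                   (CovZ.leaf K2_ok TB_l42587 _)))
                 (CovZ.subM 661055968790248598951915308032771103485778943416971415173576558067473324094698659036069642084415897939865965953476179525632 (by decide +kernel)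
                  (CovZ.n1 (-15456, 15192) (by decide +kernel)
                   (CovZ.n2 (-15468, 15180) (by decide +kernel)
                    (CovZ.n2 (-15468, 15192) (by decide +kernel)
                     (CovZ.leaf K2_ok TB_l42588 _)
                     (CovZ.leaf K2_ok TB_l42589 _))
                    (CovZ.leaf K2_ok TB_l42590 _))
                   (CovZ.n1 (-15468, 15204) (by decide +kernel)
                    (CovZ.leaf K2_ok TB_l42591 _)
                    (CovZ.n1 (-15468, 15192) (by decide +kernel)
                     (CovZ.leaf K2_ok TB_l42592 _)
                     (CovZ.leaf K2_ok TB_l42593 _)))))))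
               (CovZ.n1 (-15480, 15240) (by decide +kernel)
                (CovZ.n2 (-15456, 15240) (by decide +kernel)
                 (CovZ.n2 (-15468, 15228) (by decide +kernel)
                  (CovZ.leaf K2_ok TB_l25789 _)
                  (CovZ.leaf K2_ok TB_l42594 _))
                 (CovZ.n1 (-15468, 15252) (by decide +kernel)
                  (CovZ.leaf K2_ok TB_l42595 _)
                  (CovZ.leaf K2_ok TB_l25790 _)))
                (CovZ.subM 661055968790549212402510358685940957002167978556475502539836823010923857339054781791284311965199077795175259808568361091136 (by decide +kernel)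
                 (CovZ.n1 (-15480, 15216) (by decide +kernel)
                  (CovZ.n2 (-15492, 15228) (by decide +kernel)
                   (CovZ.leaf K2_ok TB_l42596 _)
                   (CovZ.leaf K2_ok TB_l42597 _))
                  (CovZ.n1 (-15468, 15228) (by decide +kernel)
                   (CovZ.n2 (-15468, 15216) (by decide +kernel)
                    (CovZ.leaf K2_ok TB_l42598 _)
                    (CovZ.leaf K2_ok TB_l42599 _))
                   (CovZ.leaf K2_ok TB_l42600 _))))))
              (CovZ.subM 661055968790248598951915308032771103485778943416971415173576558067473324094698659036069808237915390397236988852477014049344 (by decide +kernel)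
               (CovZ.n1 (-15504, 15168) (by decide +kernel)
                (CovZ.n2 (-15528, 15192) (by decide +kernel)
                 (CovZ.n2 (-15504, 15192) (by decide +kernel)
                  (CovZ.n2 (-15516, 15180) (by decide +kernel)
                   (CovZ.n2 (-15516, 15192) (by decide +kernel)
                    (CovZ.leaf K2_ok TB_l42601 _)
                    (CovZ.leaf K2_ok TB_l42602 _))
                   (CovZ.leaf K2_ok TB_l42603 _))
                  (CovZ.n1 (-15516, 15204) (by decide +kernel)
                   (CovZ.leaf K2_ok TB_l42604 _)
                   (CovZ.n1 (-15516, 15192) (by decide +kernel)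
                    (CovZ.leaf K2_ok TB_l42605 _)
                    (CovZ.leaf K2_ok TB_l42606 _))))
                 (CovZ.n1 (-15528, 15168) (by decide +kernel)
                  (CovZ.n2 (-15540, 15180) (by decide +kernel)
                   (CovZ.leaf K2_ok TB_l42607 _)
                   (CovZ.n1 (-15540, 15168) (by decide +kernel)
                    (CovZ.leaf K2_ok TB_l42608 _)
                    (CovZ.leaf K2_ok TB_l42609 _)))
                  (CovZ.n1 (-15516, 15180) (by decide +kernel)
                   (CovZ.n2 (-15516, 15168) (by decide +kernel)
                    (CovZ.leaf K2_ok TB_l42610 _)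
                    (CovZ.leaf K2_ok TB_l42611 _))
                   (CovZ.leaf K2_ok TB_l42612 _))))
                (CovZ.n1 (-15480, 15192) (by decide +kernel)
                 (CovZ.subM 661055968790248598951915308032771103485778943416971415173576558067473324094698647885697042819104327172006829629295426535424 (by decide +kernel)
                  (CovZ.n2 (-15480, 15168) (by decide +kernel)
                   (CovZ.n2 (-15492, 15180) (by decide +kernel)
                    (CovZ.n2 (-15480, 15180) (by decide +kernel)
                     (CovZ.badM (by decide +kernel))
                     (CovZ.leaf K2_ok TB_l42613 _))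
                    (CovZ.badM (by decide +kernel)))
                   (CovZ.n1 (-15468, 15180) (by decide +kernel)
                    (CovZ.badM (by decide +kernel))
                    (CovZ.leaf K2_ok TB_l42614 _))))
                 (CovZ.n1 (-15504, 15192) (by decide +kernel)
                  (CovZ.n2 (-15492, 15204) (by decide +kernel)
                   (CovZ.n2 (-15492, 15192) (by decide +kernel)
                    (CovZ.leaf K2_ok TB_l42615 _)
                    (CovZ.leaf K2_ok TB_l42616 _))
                   (CovZ.leaf K2_ok TB_l42617 _))
                  (CovZ.n1 (-15492, 15180) (by decide +kernel)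
                   (CovZ.leaf K2_ok TB_l42618 _)
                   (CovZ.n1 (-15492, 15192) (by decide +kernel)
                    (CovZ.leaf K2_ok TB_l42619 _)
                    (CovZ.leaf K2_ok TB_l42620 _))))))))
             (CovZ.n1 (-15408, 15216) (by decide +kernel)
              (CovZ.badM (by decide +kernel))
              (CovZ.n1 (-15456, 15216) (by decide +kernel)
               (CovZ.n2 (-15432, 15240) (by decide +kernel)
                (CovZ.subM 661055968790248598951915308032771103485778943416971415173576558067473324094698647885697042819104346514893730439661355008000 (by decide +kernel)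
                 (CovZ.n2 (-15432, 15216) (by decide +kernel)
                  (CovZ.n2 (-15444, 15228) (by decide +kernel)
                   (CovZ.leaf K2_ok TB_l42621 _)
                   (CovZ.n1 (-15444, 15216) (by decide +kernel)
                    (CovZ.leaf K2_ok TB_l42622 _)
                    (CovZ.leaf K2_ok TB_l42623 _)))
                  (CovZ.n1 (-15420, 15228) (by decide +kernel)
                   (CovZ.badM (by decide +kernel))
                   (CovZ.leaf K2_ok TB_l42624 _))))
                (CovZ.n1 (-15456, 15240) (by decide +kernel)
                 (CovZ.n2 (-15444, 15252) (by decide +kernel)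
                  (CovZ.leaf K2_ok TB_l42625 _)
                  (CovZ.leaf K2_ok TB_l42626 _))
                 (CovZ.n1 (-15444, 15228) (by decide +kernel)
                  (CovZ.leaf K2_ok TB_l42627 _)
                  (CovZ.n1 (-15444, 15240) (by decide +kernel)
                   (CovZ.leaf K2_ok TB_l42628 _)
                   (CovZ.leaf K2_ok TB_l42629 _)))))
               (CovZ.subM 661055968790248598951915308032771103485778943416971415173576558067473324094698647885697042819104327172006829629295426535424 (by decide +kernel)
                (CovZ.n1 (-15432, 15192) (by decide +kernel)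
                 (CovZ.n2 (-15456, 15192) (by decide +kernel)
                  (CovZ.n2 (-15444, 15204) (by decide +kernel)
                   (CovZ.n2 (-15444, 15192) (by decide +kernel)
                    (CovZ.leaf K2_ok TB_l42630 _)
                    (CovZ.badM (by decide +kernel)))
                   (CovZ.leaf K2_ok TB_l42631 _))
                  (CovZ.n1 (-15444, 15180) (by decide +kernel)
                   (CovZ.n2 (-15456, 15180) (by decide +kernel)
                    (CovZ.leaf K2_ok TB_l42632 _)
                    (CovZ.badM (by decide +kernel)))
                   (CovZ.n1 (-15444, 15192) (by decide +kernel)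
                    (CovZ.badM (by decide +kernel))
                    (CovZ.leaf K2_ok TB_l42633 _))))
                 (CovZ.n1 (-15432, 15216) (by decide +kernel)
                  (CovZ.badM (by decide +kernel))
                  (CovZ.n1 (-15444, 15204) (by decide +kernel)
                   (CovZ.n2 (-15444, 15216) (by decide +kernel)
                    (CovZ.leaf K2_ok TB_l42634 _)
                    (CovZ.leaf K2_ok TB_l42635 _))
                   (CovZ.badM (by decide +kernel))))))))))

theorem TB_u331 : CovZ TB_M (toL (selN TB_LN 1174271431370964043282510025560412658500852399442324268496590074349966464288044866124660814334390940884537384)) [0, 7, 6, 1] (-16512, 14208) (-16320, 14208) (-16320, 14400) :=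
    (CovZ.n2 (-16416, 14304) (by decide +kernel)
           (CovZ.n2 (-16320, 14304) (by decide +kernel)
            (CovZ.n2 (-16368, 14256) (by decide +kernel)
             (CovZ.subM 139984046386120720346807735450713168389537395530693258611855782442973194271624778611069833936495443976 (by decide +kernel)
              (CovZ.n2 (-16368, 14304) (by decide +kernel)
               (CovZ.n2 (-16344, 14280) (by decide +kernel)
                (CovZ.n2 (-16368, 14280) (by decide +kernel)
                 (CovZ.subM 7957186967592915157738416644533195829275234234402771128609259069188207224234739792609280 (by decide +kernel)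
                  (CovZ.n2 (-16356, 14292) (by decide +kernel)
                   (CovZ.n2 (-16356, 14280) (by decide +kernel)
                    (CovZ.leaf K2_ok TB_l42657 _)
                    (CovZ.n1 (-16350, 14286) (by decide +kernel)
                     (CovZ.leaf K2_ok TB_l42658 _)
                     (CovZ.leaf K2_ok TB_l42659 _)))
                   (CovZ.n1 (-16368, 14292) (by decide +kernel)
                    (CovZ.n2 (-16362, 14298) (by decide +kernel)
                     (CovZ.leaf K2_ok TB_l42660 _)
                     (CovZ.leaf K2_ok TB_l42661 _))
                    (CovZ.leaf K2_ok TB_l42662 _))))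
                 (CovZ.n1 (-16356, 14268) (by decide +kernel)
                  (CovZ.leaf K2_ok TB_l25859 _)
                  (CovZ.n1 (-16356, 14280) (by decide +kernel)
                   (CovZ.leaf K2_ok TB_l42663 _)
                   (CovZ.leaf K2_ok TB_l42664 _))))
                (CovZ.subM 7957171782618104355587569755936564693988165349641644813368838931174430036917140443889664 (by decide +kernel)
                 (CovZ.n1 (-16344, 14304) (by decide +kernel)
                  (CovZ.n2 (-16332, 14292) (by decide +kernel)
                   (CovZ.n2 (-16344, 14292) (by decide +kernel)
                    (CovZ.badM (by decide +kernel))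
                    (CovZ.n1 (-16338, 14286) (by decide +kernel)
                     (CovZ.n2 (-16344, 14286) (by decide +kernel)
                      (CovZ.n2 (-16341, 14289) (by decide +kernel)
                       (CovZ.leaf K2_ok TB_l42670 _)
                       (CovZ.leaf K2_ok TB_l42671 _))
                      (CovZ.leaf K2_ok TB_l42672 _))
                     (CovZ.badM (by decide +kernel))))
                   (CovZ.badM (by decide +kernel)))
                  (CovZ.n1 (-16356, 14292) (by decide +kernel)
                   (CovZ.n2 (-16356, 14304) (by decide +kernel)
                    (CovZ.n2 (-16350, 14298) (by decide +kernel)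
                     (CovZ.n2 (-16356, 14298) (by decide +kernel)
                      (CovZ.badM (by decide +kernel))
                      (CovZ.n1 (-16353, 14295) (by decide +kernel)
                       (CovZ.leaf K2_ok TB_l42677 _)
                       (CovZ.badM (by decide +kernel))))
                     (CovZ.badM (by decide +kernel)))
                    (CovZ.n1 (-16362, 14298) (by decide +kernel)
                     (CovZ.badM (by decide +kernel))
                     (CovZ.n1 (-16356, 14298) (by decide +kernel)
                      (CovZ.n2 (-16359, 14295) (by decide +kernel)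
                       (CovZ.leaf K2_ok TB_l42681 _)
                       (CovZ.leaf K2_ok TB_l42682 _))
                      (CovZ.badM (by decide +kernel)))))
                   (CovZ.n1 (-16344, 14292) (by decide +kernel)
                    (CovZ.n2 (-16350, 14286) (by decide +kernel)
                     (CovZ.leaf K2_ok TB_l42684 _)
                     (CovZ.leaf K2_ok TB_l42685 _))
                    (CovZ.n1 (-16350, 14298) (by decide +kernel)
                     (CovZ.badM (by decide +kernel))
                     (CovZ.n1 (-16350, 14292) (by decide +kernel)
                      (CovZ.leaf K2_ok TB_l42688 _)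
                      (CovZ.badM (by decide +kernel)))))))))
               (CovZ.n1 (-16392, 14280) (by decide +kernel)
                (CovZ.n2 (-16392, 14304) (by decide +kernel)
                 (CovZ.n2 (-16380, 14292) (by decide +kernel)
                  (CovZ.leaf K2_ok TB_l25860 _)
                  (CovZ.subM 7957186960182219665468052894201448279464127586873243945979316049751740357876883369492480 (by decide +kernel)
                   (CovZ.n1 (-16380, 14304) (by decide +kernel)
                    (CovZ.n2 (-16374, 14298) (by decide +kernel)
                     (CovZ.n2 (-16380, 14298) (by decide +kernel)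
                      (CovZ.leaf K2_ok TB_l42690 _)
                      (CovZ.leaf K2_ok TB_l42691 _))
                     (CovZ.leaf K2_ok TB_l42692 _))
                    (CovZ.n1 (-16386, 14298) (by decide +kernel)
                     (CovZ.leaf K2_ok TB_l42693 _)
                     (CovZ.leaf K2_ok TB_l42694 _)))))
                 (CovZ.n1 (-16404, 14292) (by decide +kernel)
                  (CovZ.leaf K2_ok TB_l25861 _)
                  (CovZ.leaf K2_ok TB_l25862 _)))
                (CovZ.n1 (-16368, 14280) (by decide +kernel)
                 (CovZ.leaf K2_ok TB_l25863 _)
                 (CovZ.n1 (-16380, 14292) (by decide +kernel)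
                  (CovZ.n2 (-16368, 14292) (by decide +kernel)
                   (CovZ.leaf K2_ok TB_l42695 _)
                   (CovZ.n1 (-16374, 14298) (by decide +kernel)
                    (CovZ.leaf K2_ok TB_l42696 _)
                    (CovZ.leaf K2_ok TB_l42697 _)))
                  (CovZ.leaf K2_ok TB_l25864 _))))))
             (CovZ.n1 (-16320, 14256) (by decide +kernel)
              (CovZ.n2 (-16344, 14232) (by decide +kernel)
               (CovZ.n2 (-16344, 14256) (by decide +kernel)
                (CovZ.leaf K2_ok TB_l25865 _)
                (CovZ.leaf K2_ok TB_l25866 _))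
               (CovZ.n1 (-16320, 14232) (by decide +kernel)
                (CovZ.leaf K2_ok TB_l25867 _)
                (CovZ.leaf K2_ok TB_l25868 _)))
              (CovZ.subM 139984046386120720346807735450713114469644061229413669277825608318641255267101317664081219871332892680 (by decide +kernel)
               (CovZ.n1 (-16344, 14280) (by decide +kernel)
                (CovZ.subM 7957186967592915157738416644533195829275234234402771128609338297350721488572333336559616 (by decide +kernel)
                 (CovZ.n2 (-16320, 14280) (by decide +kernel)
                  (CovZ.n2 (-16332, 14268) (by decide +kernel)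
                   (CovZ.subM 7957171783081272940321423928386604259164527451283584313591634413377557265793195958075392 (by decide +kernel)
                    (CovZ.n2 (-16332, 14280) (by decide +kernel)
                     (CovZ.n2 (-16326, 14274) (by decide +kernel)
                      (CovZ.leaf K2_ok TB_l42698 _)
                      (CovZ.n1 (-16326, 14280) (by decide +kernel)
                       (CovZ.leaf K2_ok TB_l42699 _)
                       (CovZ.leaf K2_ok TB_l42700 _)))
                     (CovZ.leaf K2_ok TB_l42701 _)))
                   (CovZ.n1 (-16320, 14268) (by decide +kernel)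
                    (CovZ.leaf K2_ok TB_l42702 _)
                    (CovZ.n1 (-16326, 14274) (by decide +kernel)
                     (CovZ.leaf K2_ok TB_l42703 _)
                     (CovZ.leaf K2_ok TB_l42704 _))))
                  (CovZ.subM 7957171782618104355587569755936564693988165349641644813368838931174430036917140443889664 (by decide +kernel)
                   (CovZ.n1 (-16332, 14292) (by decide +kernel)
                    (CovZ.badM (by decide +kernel))
                    (CovZ.n1 (-16332, 14280) (by decide +kernel)
                     (CovZ.n2 (-16338, 14286) (by decide +kernel)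
                      (CovZ.n2 (-16332, 14286) (by decide +kernel)
                       (CovZ.leaf K2_ok TB_l42705 _)
                       (CovZ.badM (by decide +kernel)))
                      (CovZ.leaf K2_ok TB_l42707 _))
                     (CovZ.n1 (-16326, 14286) (by decide +kernel)
                      (CovZ.n2 (-16326, 14280) (by decide +kernel)
                       (CovZ.leaf K2_ok TB_l42708 _)
                       (CovZ.badM (by decide +kernel)))
                      (CovZ.n1 (-16332, 14286) (by decide +kernel)
                       (CovZ.badM (by decide +kernel))
                       (CovZ.leaf K2_ok TB_l42710 _))))))))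
                (CovZ.n1 (-16344, 14256) (by decide +kernel)
                 (CovZ.n2 (-16356, 14268) (by decide +kernel)
                  (CovZ.leaf K2_ok TB_l42711 _)
                  (CovZ.leaf K2_ok TB_l25869 _))
                 (CovZ.n1 (-16332, 14268) (by decide +kernel)
                  (CovZ.n2 (-16332, 14256) (by decide +kernel)
                   (CovZ.leaf K2_ok TB_l42712 _)
                   (CovZ.leaf K2_ok TB_l42713 _))
                  (CovZ.leaf K2_ok TB_l42714 _)))))))
            (CovZ.subM 7957186967592915185401006921696449173590758402127850926678071568241243375627112883945472 (by decide +kernel)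
             (CovZ.n1 (-16368, 14352) (by decide +kernel)
              (CovZ.badM (by decide +kernel))
              (CovZ.n1 (-16368, 14304) (by decide +kernel)
               (CovZ.n2 (-16392, 14328) (by decide +kernel)
                (CovZ.badM (by decide +kernel))
                (CovZ.n1 (-16392, 14304) (by decide +kernel)
                 (CovZ.n2 (-16404, 14316) (by decide +kernel)
                  (CovZ.subM 7957171783081272940321423928386604259164527451283584313591634413377557265793195958075392 (by decide +kernel)
                   (CovZ.n2 (-16392, 14316) (by decide +kernel)
                    (CovZ.n2 (-16398, 14310) (by decide +kernel)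
                     (CovZ.n2 (-16398, 14316) (by decide +kernel)
                      (CovZ.leaf K2_ok TB_l42715 _)
                      (CovZ.leaf K2_ok TB_l42716 _))
                     (CovZ.leaf K2_ok TB_l42717 _))
                    (CovZ.n1 (-16398, 14322) (by decide +kernel)
                     (CovZ.badM (by decide +kernel))
                     (CovZ.leaf K2_ok TB_l42718 _))))
                  (CovZ.n1 (-16404, 14304) (by decide +kernel)
                   (CovZ.n2 (-16410, 14310) (by decide +kernel)
                    (CovZ.leaf K2_ok TB_l42719 _)
                    (CovZ.leaf K2_ok TB_l42720 _))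
                   (CovZ.n1 (-16398, 14310) (by decide +kernel)
                    (CovZ.leaf K2_ok TB_l42721 _)
                    (CovZ.leaf K2_ok TB_l42722 _))))
                 (CovZ.subM 7957171783081272940321423928386604259164527451283584313591634413377557265793195958075392 (by decide +kernel)
                  (CovZ.n1 (-16380, 14316) (by decide +kernel)
                   (CovZ.n2 (-16380, 14304) (by decide +kernel)
                    (CovZ.n2 (-16386, 14310) (by decide +kernel)
                     (CovZ.n2 (-16380, 14310) (by decide +kernel)
                      (CovZ.leaf K2_ok TB_l42723 _)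
                      (CovZ.badM (by decide +kernel)))
                     (CovZ.leaf K2_ok TB_l42725 _))
                    (CovZ.n1 (-16374, 14310) (by decide +kernel)
                     (CovZ.n2 (-16374, 14304) (by decide +kernel)
                      (CovZ.leaf K2_ok TB_l42726 _)
                      (CovZ.badM (by decide +kernel)))
                     (CovZ.leaf K2_ok TB_l42727 _)))
                   (CovZ.n1 (-16392, 14316) (by decide +kernel)
                    (CovZ.badM (by decide +kernel))
                    (CovZ.n1 (-16386, 14310) (by decide +kernel)
                     (CovZ.leaf K2_ok TB_l42728 _)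
                     (CovZ.badM (by decide +kernel))))))))
               (CovZ.badM (by decide +kernel))))))
           (CovZ.n1 (-16416, 14208) (by decide +kernel)
            (CovZ.n2 (-16464, 14256) (by decide +kernel)
             (CovZ.n2 (-16416, 14256) (by decide +kernel)
              (CovZ.leaf K2_ok TB_l25870 _)
              (CovZ.n1 (-16440, 14280) (by decide +kernel)
               (CovZ.n2 (-16416, 14280) (by decide +kernel)
                (CovZ.leaf K2_ok TB_l25871 _)
                (CovZ.n1 (-16428, 14292) (by decide +kernel)
                 (CovZ.leaf K2_ok TB_l25872 _)
                 (CovZ.leaf K2_ok TB_l25873 _)))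
               (CovZ.n1 (-16440, 14256) (by decide +kernel)
                (CovZ.leaf K2_ok TB_l25874 _)
                (CovZ.leaf K2_ok TB_l25875 _))))
             (CovZ.n1 (-16464, 14208) (by decide +kernel)
              (CovZ.n2 (-16488, 14232) (by decide +kernel)
               (CovZ.leaf K2_ok TB_l25876 _)
               (CovZ.leaf K2_ok TB_l25877 _))
              (CovZ.leaf K2_ok TB_l25878 _)))
            (CovZ.n1 (-16368, 14256) (by decide +kernel)
             (CovZ.n2 (-16368, 14208) (by decide +kernel)
              (CovZ.n2 (-16392, 14232) (by decide +kernel)
               (CovZ.leaf K2_ok TB_l25879 _)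
               (CovZ.leaf K2_ok TB_l25880 _))
              (CovZ.n1 (-16344, 14232) (by decide +kernel)
               (CovZ.leaf K2_ok TB_l25881 _)
               (CovZ.leaf K2_ok TB_l25882 _)))
             (CovZ.n1 (-16416, 14256) (by decide +kernel)
              (CovZ.n2 (-16392, 14280) (by decide +kernel)
               (CovZ.n2 (-16392, 14256) (by decide +kernel)
                (CovZ.leaf K2_ok TB_l25883 _)
                (CovZ.leaf K2_ok TB_l25884 _))
               (CovZ.n1 (-16416, 14280) (by decide +kernel)
                (CovZ.n2 (-16404, 14292) (by decide +kernel)
                 (CovZ.leaf K2_ok TB_l25885 _)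
                 (CovZ.leaf K2_ok TB_l25886 _))
                (CovZ.leaf K2_ok TB_l25887 _)))
              (CovZ.n1 (-16392, 14232) (by decide +kernel)
               (CovZ.leaf K2_ok TB_l25888 _)
               (CovZ.leaf K2_ok TB_l25889 _))))))

theorem TB_u332 : CovZ TB_M (toL (selN TB_LN 1174271431370964043282510025560412658500852399442324268496590074349966464288044866124660814334390940884537384)) [0, 7, 6, 1] (-16320, 14208) (-16128, 14208) (-16320, 14400) :=
    (CovZ.n1 (-16224, 14304) (by decide +kernel)
           (CovZ.n2 (-16224, 14208) (by decide +kernel)
            (CovZ.n2 (-16272, 14256) (by decide +kernel)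
             (CovZ.subM 7410695491839004616512841667168356610472909830865003268140268321316388277846016 (by decide +kernel)
              (CovZ.n2 (-16224, 14256) (by decide +kernel)
               (CovZ.n2 (-16248, 14232) (by decide +kernel)
                (CovZ.badM (by decide +kernel))
                (CovZ.n1 (-16224, 14232) (by decide +kernel)
                 (CovZ.n2 (-16236, 14220) (by decide +kernel)
                  (CovZ.badM (by decide +kernel))
                  (CovZ.n1 (-16224, 14220) (by decide +kernel)
                   (CovZ.leaf K2_ok TB_l42731 _)
                   (CovZ.badM (by decide +kernel))))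
                 (CovZ.badM (by decide +kernel))))
               (CovZ.badM (by decide +kernel))))
             (CovZ.n1 (-16272, 14208) (by decide +kernel)
              (CovZ.n2 (-16296, 14232) (by decide +kernel)
               (CovZ.subM 139984046386120720346807268660312780662827700735926323247348960766908234130492842136033912491018813448 (by decide +kernel)
                (CovZ.n2 (-16272, 14232) (by decide +kernel)
                 (CovZ.leaf K2_ok TB_l25890 _)
                 (CovZ.n1 (-16284, 14244) (by decide +kernel)
                  (CovZ.n2 (-16272, 14244) (by decide +kernel)
                   (CovZ.leaf K2_ok TB_l42732 _)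
                   (CovZ.badM (by decide +kernel)))
                  (CovZ.leaf K2_ok TB_l42733 _))))
               (CovZ.n1 (-16296, 14208) (by decide +kernel)
                (CovZ.leaf K2_ok TB_l25891 _)
                (CovZ.leaf K2_ok TB_l25892 _)))
              (CovZ.subM 139984046386120720346807268660312780662827700735926323247348960766908234130492842136033912491018813448 (by decide +kernel)
               (CovZ.n1 (-16248, 14232) (by decide +kernel)
                (CovZ.n2 (-16248, 14208) (by decide +kernel)
                 (CovZ.n2 (-16260, 14220) (by decide +kernel)
                  (CovZ.leaf K2_ok TB_l42734 _)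
                  (CovZ.leaf K2_ok TB_l25893 _))
                 (CovZ.n1 (-16236, 14220) (by decide +kernel)
                  (CovZ.leaf K2_ok TB_l42735 _)
                  (CovZ.leaf K2_ok TB_l42736 _)))
                (CovZ.n1 (-16272, 14232) (by decide +kernel)
                 (CovZ.n2 (-16260, 14244) (by decide +kernel)
                  (CovZ.n2 (-16260, 14232) (by decide +kernel)
                   (CovZ.leaf K2_ok TB_l42737 _)
                   (CovZ.badM (by decide +kernel)))
                  (CovZ.leaf K2_ok TB_l42738 _))
                 (CovZ.n1 (-16260, 14220) (by decide +kernel)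
                  (CovZ.leaf K2_ok TB_l25894 _)
                  (CovZ.leaf K2_ok TB_l42739 _)))))))
            (CovZ.subM 7410695491839004616512841667168356610472909830865003268140268321316388277846016 (by decide +kernel)
             (CovZ.n1 (-16176, 14256) (by decide +kernel)
              (CovZ.n2 (-16176, 14208) (by decide +kernel)
               (CovZ.n2 (-16200, 14232) (by decide +kernel)
                (CovZ.badM (by decide +kernel))
                (CovZ.n1 (-16200, 14208) (by decide +kernel)
                 (CovZ.n2 (-16212, 14220) (by decide +kernel)
                  (CovZ.badM (by decide +kernel))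
                  (CovZ.n1 (-16212, 14208) (by decide +kernel)
                   (CovZ.leaf K2_ok TB_l42740 _)
                   (CovZ.leaf K2_ok TB_l42741 _)))
                 (CovZ.badM (by decide +kernel))))
               (CovZ.badM (by decide +kernel)))
              (CovZ.n1 (-16224, 14256) (by decide +kernel)
               (CovZ.badM (by decide +kernel))
               (CovZ.n1 (-16200, 14232) (by decide +kernel)
                (CovZ.n2 (-16224, 14232) (by decide +kernel)
                 (CovZ.badM (by decide +kernel))
                 (CovZ.n1 (-16212, 14220) (by decide +kernel)
                  (CovZ.n2 (-16224, 14220) (by decide +kernel)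
                   (CovZ.badM (by decide +kernel))
                   (CovZ.leaf K2_ok TB_l42742 _))
                  (CovZ.badM (by decide +kernel))))
                (CovZ.badM (by decide +kernel)))))))
           (CovZ.n1 (-16320, 14304) (by decide +kernel)
            (CovZ.badM (by decide +kernel))
            (CovZ.n1 (-16272, 14256) (by decide +kernel)
             (CovZ.n2 (-16320, 14256) (by decide +kernel)
              (CovZ.subM 7957186967592915157738416644533195829275234234402771128609338297350721488572333336559616 (by decide +kernel)
               (CovZ.n2 (-16296, 14280) (by decide +kernel)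
                (CovZ.n2 (-16296, 14256) (by decide +kernel)
                 (CovZ.n2 (-16308, 14268) (by decide +kernel)
                  (CovZ.badM (by decide +kernel))
                  (CovZ.n1 (-16308, 14256) (by decide +kernel)
                   (CovZ.leaf K2_ok TB_l42746 _)
                   (CovZ.n1 (-16302, 14262) (by decide +kernel)
                    (CovZ.leaf K2_ok TB_l42747 _)
                    (CovZ.leaf K2_ok TB_l42748 _))))
                 (CovZ.badM (by decide +kernel)))
                (CovZ.n1 (-16320, 14280) (by decide +kernel)
                 (CovZ.badM (by decide +kernel))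
                 (CovZ.n1 (-16308, 14268) (by decide +kernel)
                  (CovZ.n2 (-16320, 14268) (by decide +kernel)
                   (CovZ.n2 (-16314, 14274) (by decide +kernel)
                    (CovZ.leaf K2_ok TB_l42751 _)
                    (CovZ.leaf K2_ok TB_l42752 _))
                   (CovZ.leaf K2_ok TB_l42753 _))
                  (CovZ.badM (by decide +kernel))))))
              (CovZ.n1 (-16296, 14232) (by decide +kernel)
               (CovZ.n2 (-16320, 14232) (by decide +kernel)
                (CovZ.n2 (-16308, 14244) (by decide +kernel)
                 (CovZ.leaf K2_ok TB_l25895 _)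
                 (CovZ.leaf K2_ok TB_l25896 _))
                (CovZ.leaf K2_ok TB_l25897 _))
               (CovZ.subM 139984046386120720346807735450713114469644061229413669277825608318641255267101317664078405121565786120 (by decide +kernel)
                (CovZ.n1 (-16296, 14256) (by decide +kernel)
                 (CovZ.n2 (-16284, 14244) (by decide +kernel)
                  (CovZ.leaf K2_ok TB_l42759 _)
                  (CovZ.badM (by decide +kernel)))
                 (CovZ.n1 (-16308, 14244) (by decide +kernel)
                  (CovZ.n2 (-16308, 14256) (by decide +kernel)
                   (CovZ.leaf K2_ok TB_l42760 _)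
                   (CovZ.leaf K2_ok TB_l42761 _))
                  (CovZ.leaf K2_ok TB_l42762 _))))))
             (CovZ.badM (by decide +kernel)))))

theorem TB_u333 : CovZ TB_M (toL (selN TB_LN 1983167926737082871601299757095710147182750748639589010385104436553994691950948141139080480839253018030143348534835509465976)) [0, 7, 6, 1] (-16128, 14592) (-16512, 14208) (-16128, 13824) :=
    (CovZ.subM 1174271431370964043282510025560412658500852399442324268496590074349966464288044866124660814334390940884537384 (by decide +kernel)
       (CovZ.n2 (-16128, 14208) (by decide +kernel)
        (CovZ.n2 (-16320, 14016) (by decide +kernel)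
         (CovZ.n2 (-16320, 14208) (by decide +kernel)
          (CovZ.n2 (-16224, 14112) (by decide +kernel)
           (CovZ.n2 (-16320, 14112) (by decide +kernel)
            (CovZ.n2 (-16272, 14160) (by decide +kernel)
             (CovZ.n2 (-16272, 14112) (by decide +kernel)
              (CovZ.leaf K2_ok TB_l25791 _)
              (CovZ.leaf K2_ok TB_l25792 _))
             (CovZ.n1 (-16320, 14160) (by decide +kernel)
              (CovZ.n2 (-16296, 14184) (by decide +kernel)
               (CovZ.leaf K2_ok TB_l25793 _)
               (CovZ.leaf K2_ok TB_l25794 _))
              (CovZ.leaf K2_ok TB_l25795 _)))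
            (CovZ.n1 (-16272, 14064) (by decide +kernel)
             (CovZ.leaf K2_ok TB_l25796 _)
             (CovZ.leaf K2_ok TB_l25797 _)))
           (CovZ.n1 (-16224, 14208) (by decide +kernel)
            (CovZ.n2 (-16176, 14160) (by decide +kernel)
             (CovZ.n2 (-16224, 14160) (by decide +kernel)
              (CovZ.n2 (-16200, 14184) (by decide +kernel)
               (CovZ.n2 (-16200, 14160) (by decide +kernel)
                (CovZ.leaf K2_ok TB_l25798 _)
                (CovZ.leaf K2_ok TB_l25799 _))
               (CovZ.n1 (-16224, 14184) (by decide +kernel)
                (CovZ.leaf K2_ok TB_l25800 _)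
                (CovZ.leaf K2_ok TB_l25801 _)))
              (CovZ.n1 (-16200, 14136) (by decide +kernel)
               (CovZ.leaf K2_ok TB_l25802 _)
               (CovZ.leaf K2_ok TB_l25803 _)))
             (CovZ.subM 139984046386112763175024654177772818320665675863517029174036064294705202025722179511945435925134184456 (by decide +kernel)
              (CovZ.n1 (-16176, 14208) (by decide +kernel)
               (CovZ.n2 (-16152, 14184) (by decide +kernel)
                (CovZ.n2 (-16176, 14184) (by decide +kernel)
                 (CovZ.n2 (-16164, 14196) (by decide +kernel)
                  (CovZ.leaf K2_ok TB_l25804 _)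
                  (CovZ.leaf K2_ok TB_l42646 _))
                 (CovZ.n1 (-16164, 14172) (by decide +kernel)
                  (CovZ.leaf K2_ok TB_l25805 _)
                  (CovZ.leaf K2_ok TB_l25806 _)))
                (CovZ.badM (by decide +kernel)))
               (CovZ.n1 (-16200, 14184) (by decide +kernel)
                (CovZ.n2 (-16200, 14208) (by decide +kernel)
                 (CovZ.n2 (-16188, 14196) (by decide +kernel)
                  (CovZ.leaf K2_ok TB_l42647 _)
                  (CovZ.badM (by decide +kernel)))
                 (CovZ.n1 (-16212, 14196) (by decide +kernel)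
                  (CovZ.n2 (-16212, 14208) (by decide +kernel)
                   (CovZ.leaf K2_ok TB_l42648 _)
                   (CovZ.leaf K2_ok TB_l42649 _))
                  (CovZ.leaf K2_ok TB_l42650 _)))
                (CovZ.n1 (-16176, 14184) (by decide +kernel)
                 (CovZ.leaf K2_ok TB_l25807 _)
                 (CovZ.n1 (-16188, 14196) (by decide +kernel)
                  (CovZ.n2 (-16176, 14196) (by decide +kernel)
                   (CovZ.leaf K2_ok TB_l42651 _)
                   (CovZ.badM (by decide +kernel)))
                  (CovZ.leaf K2_ok TB_l42652 _)))))))
            (CovZ.n1 (-16272, 14160) (by decide +kernel)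
             (CovZ.n2 (-16272, 14208) (by decide +kernel)
              (CovZ.n2 (-16248, 14184) (by decide +kernel)
               (CovZ.leaf K2_ok TB_l25808 _)
               (CovZ.n1 (-16248, 14208) (by decide +kernel)
                (CovZ.leaf K2_ok TB_l25809 _)
                (CovZ.leaf K2_ok TB_l25810 _)))
              (CovZ.n1 (-16296, 14184) (by decide +kernel)
               (CovZ.leaf K2_ok TB_l25811 _)
               (CovZ.leaf K2_ok TB_l25812 _)))
             (CovZ.n1 (-16224, 14160) (by decide +kernel)
              (CovZ.leaf K2_ok TB_l25813 _)
              (CovZ.n1 (-16248, 14184) (by decide +kernel)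
               (CovZ.n2 (-16224, 14184) (by decide +kernel)
                (CovZ.leaf K2_ok TB_l25814 _)
                (CovZ.leaf K2_ok TB_l25815 _))
               (CovZ.leaf K2_ok TB_l25816 _))))))
          (CovZ.n1 (-16416, 14112) (by decide +kernel)
           (CovZ.n2 (-16416, 14208) (by decide +kernel)
            (CovZ.n2 (-16368, 14160) (by decide +kernel)
             (CovZ.n2 (-16416, 14160) (by decide +kernel)
              (CovZ.leaf K2_ok TB_l25817 _)
              (CovZ.leaf K2_ok TB_l25818 _))
             (CovZ.n1 (-16368, 14208) (by decide +kernel)
              (CovZ.n2 (-16344, 14184) (by decide +kernel)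
               (CovZ.leaf K2_ok TB_l25819 _)
               (CovZ.leaf K2_ok TB_l25820 _))
              (CovZ.leaf K2_ok TB_l25821 _)))
            (CovZ.n1 (-16464, 14160) (by decide +kernel)
             (CovZ.n2 (-16464, 14208) (by decide +kernel)
              (CovZ.leaf K2_ok TB_l25822 _)
              (CovZ.leaf K2_ok TB_l25823 _))
             (CovZ.n1 (-16416, 14160) (by decide +kernel)
              (CovZ.leaf K2_ok TB_l25824 _)
              (CovZ.leaf K2_ok TB_l25825 _))))
           (CovZ.n1 (-16320, 14112) (by decide +kernel)
            (CovZ.n2 (-16368, 14064) (by decide +kernel)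
             (CovZ.leaf K2_ok TB_l25826 _)
             (CovZ.leaf K2_ok TB_l25827 _))
            (CovZ.n1 (-16368, 14160) (by decide +kernel)
             (CovZ.n2 (-16320, 14160) (by decide +kernel)
              (CovZ.leaf K2_ok TB_l25828 _)
              (CovZ.leaf K2_ok TB_l25829 _))
             (CovZ.n1 (-16368, 14112) (by decide +kernel)
              (CovZ.leaf K2_ok TB_l25830 _)
              (CovZ.leaf K2_ok TB_l25831 _))))))
         (CovZ.n1 (-16128, 14016) (by decide +kernel)
          (CovZ.n2 (-16224, 13920) (by decide +kernel)
           (CovZ.n2 (-16224, 14016) (by decide +kernel)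
            (CovZ.n2 (-16176, 13968) (by decide +kernel)
             (CovZ.leaf K2_ok TB_l25832 _)
             (CovZ.leaf K2_ok TB_l25833 _))
            (CovZ.n1 (-16272, 13968) (by decide +kernel)
             (CovZ.leaf K2_ok TB_l25834 _)
             (CovZ.leaf K2_ok TB_l25835 _)))
           (CovZ.n1 (-16128, 13920) (by decide +kernel)
            (CovZ.leaf K2_ok TB_l25836 _)
            (CovZ.n1 (-16176, 13968) (by decide +kernel)
             (CovZ.leaf K2_ok TB_l25837 _)
             (CovZ.leaf K2_ok TB_l25838 _))))
          (CovZ.n1 (-16224, 14112) (by decide +kernel)
           (CovZ.n2 (-16128, 14112) (by decide +kernel)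
            (CovZ.n2 (-16176, 14064) (by decide +kernel)
             (CovZ.n2 (-16176, 14112) (by decide +kernel)
              (CovZ.leaf K2_ok TB_l25839 _)
              (CovZ.leaf K2_ok TB_l25840 _))
             (CovZ.n1 (-16128, 14064) (by decide +kernel)
              (CovZ.leaf K2_ok TB_l25841 _)
              (CovZ.leaf K2_ok TB_l25842 _)))
            (CovZ.n1 (-16176, 14160) (by decide +kernel)
             (CovZ.subM 139984046386112763175024654177717174675741343639895823621584898715721731982727419664865880549011492872 (by decide +kernel)
              (CovZ.n2 (-16128, 14160) (by decide +kernel)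
               (CovZ.n2 (-16152, 14136) (by decide +kernel)
                (CovZ.n2 (-16152, 14160) (by decide +kernel)
                 (CovZ.leaf K2_ok TB_l25843 _)
                 (CovZ.leaf K2_ok TB_l25844 _))
                (CovZ.n1 (-16128, 14136) (by decide +kernel)
                 (CovZ.leaf K2_ok TB_l25845 _)
                 (CovZ.leaf K2_ok TB_l25846 _)))
               (CovZ.n1 (-16152, 14184) (by decide +kernel)
                (CovZ.subM 7410695491838793979074000198723038570081845750987437739491091515519706012323840 (by decide +kernel)
                 (CovZ.n2 (-16128, 14184) (by decide +kernel)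
                  (CovZ.n2 (-16140, 14172) (by decide +kernel)
                   (CovZ.n2 (-16140, 14184) (by decide +kernel)
                    (CovZ.leaf K2_ok TB_l42653 _)
                    (CovZ.leaf K2_ok TB_l42654 _))
                   (CovZ.n1 (-16128, 14172) (by decide +kernel)
                    (CovZ.leaf K2_ok TB_l42655 _)
                    (CovZ.leaf K2_ok TB_l42656 _)))
                  (CovZ.badM (by decide +kernel))))
                (CovZ.n1 (-16152, 14160) (by decide +kernel)
                 (CovZ.n2 (-16164, 14172) (by decide +kernel)
                  (CovZ.leaf K2_ok TB_l25847 _)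
                  (CovZ.leaf K2_ok TB_l25848 _))
                 (CovZ.leaf K2_ok TB_l25849 _)))))
             (CovZ.n1 (-16176, 14112) (by decide +kernel)
              (CovZ.n2 (-16200, 14136) (by decide +kernel)
               (CovZ.leaf K2_ok TB_l25850 _)
               (CovZ.leaf K2_ok TB_l25851 _))
              (CovZ.n1 (-16152, 14136) (by decide +kernel)
               (CovZ.leaf K2_ok TB_l25852 _)
               (CovZ.leaf K2_ok TB_l25853 _)))))
           (CovZ.n1 (-16224, 14016) (by decide +kernel)
            (CovZ.n2 (-16272, 14064) (by decide +kernel)
             (CovZ.leaf K2_ok TB_l25854 _)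
             (CovZ.leaf K2_ok TB_l25855 _))
            (CovZ.n1 (-16176, 14064) (by decide +kernel)
             (CovZ.n2 (-16176, 14016) (by decide +kernel)
              (CovZ.leaf K2_ok TB_l25856 _)
              (CovZ.leaf K2_ok TB_l25857 _))
             (CovZ.leaf K2_ok TB_l25858 _))))))
        (CovZ.n1 (-16320, 14400) (by decide +kernel)
         (CovZ.badM (by decide +kernel))
         (CovZ.n1 (-16320, 14208) (by decide +kernel)
          TB_u331
          TB_u332))))

theorem TB_u334 : CovZ TB_M (toL (selN TB_LN 1983167926737082871601299757095710147182750748639589010385104436553994691950948141139080480839253018030143348534835509465976)) [0, 7, 6, 1] (-16512, 14208) (-16896, 13824) (-16128, 13824) :=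
    (CovZ.n1 (-16512, 13824) (by decide +kernel)
       (CovZ.n2 (-16704, 14016) (by decide +kernel)
        (CovZ.subM 19701079499366619114949045627592047514286038082758546697962680835593570091273895705847867290408741081997144030711848 (by decide +kernel)
         (CovZ.n2 (-16512, 14016) (by decide +kernel)
          (CovZ.n2 (-16608, 13920) (by decide +kernel)
           (CovZ.n2 (-16608, 14016) (by decide +kernel)
            (CovZ.leaf K2_ok TB_l25898 _)
            (CovZ.leaf K2_ok TB_l25899 _))
           (CovZ.n1 (-16512, 13920) (by decide +kernel)
            (CovZ.leaf K2_ok TB_l25900 _)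
            (CovZ.n1 (-16560, 13968) (by decide +kernel)
             (CovZ.leaf K2_ok TB_l25901 _)
             (CovZ.leaf K2_ok TB_l25902 _))))
          (CovZ.n1 (-16608, 14112) (by decide +kernel)
           (CovZ.n2 (-16512, 14112) (by decide +kernel)
            (CovZ.n2 (-16560, 14064) (by decide +kernel)
             (CovZ.leaf K2_ok TB_l25903 _)
             (CovZ.leaf K2_ok TB_l25904 _))
            (CovZ.n1 (-16560, 14160) (by decide +kernel)
             (CovZ.leaf K2_ok TB_l25905 _)
             (CovZ.n1 (-16560, 14112) (by decide +kernel)
              (CovZ.leaf K2_ok TB_l25906 _)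
              (CovZ.leaf K2_ok TB_l25907 _))))
           (CovZ.n1 (-16608, 14016) (by decide +kernel)
            (CovZ.n2 (-16656, 14064) (by decide +kernel)
             (CovZ.leaf K2_ok TB_l25908 _)
             (CovZ.leaf K2_ok TB_l25909 _))
            (CovZ.n1 (-16560, 14064) (by decide +kernel)
             (CovZ.leaf K2_ok TB_l25910 _)
             (CovZ.leaf K2_ok TB_l25911 _))))))
        (CovZ.n1 (-16704, 13824) (by decide +kernel)
         (CovZ.subM 1322111957946533659198789398409443264424369248603960147808542111781950161476601092353729534566290926625275666760128958300200 (by decide +kernel)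
          (CovZ.n2 (-16800, 13920) (by decide +kernel)
           (CovZ.n2 (-16704, 13920) (by decide +kernel)
            (CovZ.leaf K2_ok TB_l25912 _)
            (CovZ.n1 (-16752, 13968) (by decide +kernel)
             (CovZ.leaf K2_ok TB_l25913 _)
             (CovZ.leaf K2_ok TB_l25914 _)))
           (CovZ.n1 (-16800, 13824) (by decide +kernel)
            (CovZ.leaf K2_ok TB_l25915 _)
            (CovZ.leaf K2_ok TB_l25916 _))))
         (CovZ.subM 19701079499366619114949045627592047514286038082758546697962680835593570091273895705847867290408741081997144030711848 (by decide +kernel)
          (CovZ.n1 (-16608, 13920) (by decide +kernel)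
           (CovZ.n2 (-16608, 13824) (by decide +kernel)
            (CovZ.leaf K2_ok TB_l25917 _)
            (CovZ.leaf K2_ok TB_l25918 _))
           (CovZ.n1 (-16704, 13920) (by decide +kernel)
            (CovZ.leaf K2_ok TB_l25919 _)
            (CovZ.leaf K2_ok TB_l25920 _))))))
       (CovZ.subM 1174271431370964043282510389810830855450750363374208544554705450175528890235960301465879798758474906112888872 (by decide +kernel)
        (CovZ.n1 (-16320, 14016) (by decide +kernel)
         (CovZ.n2 (-16320, 13824) (by decide +kernel)
          (CovZ.n2 (-16416, 13920) (by decide +kernel)
           (CovZ.n2 (-16320, 13920) (by decide +kernel)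
            (CovZ.leaf K2_ok TB_l25921 _)
            (CovZ.n1 (-16368, 13968) (by decide +kernel)
             (CovZ.leaf K2_ok TB_l25922 _)
             (CovZ.leaf K2_ok TB_l25923 _)))
           (CovZ.n1 (-16416, 13824) (by decide +kernel)
            (CovZ.leaf K2_ok TB_l25924 _)
            (CovZ.leaf K2_ok TB_l25925 _)))
          (CovZ.n1 (-16224, 13920) (by decide +kernel)
           (CovZ.n2 (-16224, 13824) (by decide +kernel)
            (CovZ.n2 (-16272, 13872) (by decide +kernel)
             (CovZ.leaf K2_ok TB_l25926 _)
             (CovZ.leaf K2_ok TB_l25927 _))
            (CovZ.leaf K2_ok TB_l25928 _))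
           (CovZ.n1 (-16320, 13920) (by decide +kernel)
            (CovZ.n2 (-16272, 13968) (by decide +kernel)
             (CovZ.leaf K2_ok TB_l25929 _)
             (CovZ.leaf K2_ok TB_l25930 _))
            (CovZ.leaf K2_ok TB_l25931 _))))
         (CovZ.n1 (-16512, 14016) (by decide +kernel)
          (CovZ.n2 (-16416, 14112) (by decide +kernel)
           (CovZ.n2 (-16416, 14016) (by decide +kernel)
            (CovZ.n2 (-16464, 14064) (by decide +kernel)
             (CovZ.leaf K2_ok TB_l25932 _)
             (CovZ.leaf K2_ok TB_l25933 _))
            (CovZ.n1 (-16368, 14064) (by decide +kernel)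
             (CovZ.leaf K2_ok TB_l25934 _)
             (CovZ.leaf K2_ok TB_l25935 _)))
           (CovZ.n1 (-16512, 14112) (by decide +kernel)
            (CovZ.n2 (-16464, 14160) (by decide +kernel)
             (CovZ.n2 (-16464, 14112) (by decide +kernel)
              (CovZ.leaf K2_ok TB_l25936 _)
              (CovZ.leaf K2_ok TB_l25937 _))
             (CovZ.leaf K2_ok TB_l25938 _))
            (CovZ.n1 (-16464, 14064) (by decide +kernel)
             (CovZ.leaf K2_ok TB_l25939 _)
             (CovZ.leaf K2_ok TB_l25940 _))))
          (CovZ.n1 (-16416, 13920) (by decide +kernel)
           (CovZ.n2 (-16512, 13920) (by decide +kernel)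
            (CovZ.n2 (-16464, 13968) (by decide +kernel)
             (CovZ.leaf K2_ok TB_l25941 _)
             (CovZ.leaf K2_ok TB_l25942 _))
            (CovZ.leaf K2_ok TB_l25943 _))
           (CovZ.n1 (-16416, 14016) (by decide +kernel)
            (CovZ.n2 (-16368, 13968) (by decide +kernel)
             (CovZ.leaf K2_ok TB_l25944 _)
             (CovZ.leaf K2_ok TB_l25945 _))
            (CovZ.leaf K2_ok TB_l25946 _)))))))

theorem TB_u335 : CovZ TB_M (toL (selN TB_LN 139984046386112763175024653949752465670664915748817597505519269937551213193367293529104247417590513672)) [0, 7, 6, 1] (-15360, 13824) (-15552, 14016) (-15744, 13824) :=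
    (CovZ.n2 (-15552, 13824) (by decide +kernel)
           (CovZ.n2 (-15648, 13920) (by decide +kernel)
            (CovZ.subM 139984046386112763159840142535527767382602844361803312854584414289710692667434303141964686547990085640 (by decide +kernel)
             (CovZ.n2 (-15552, 13920) (by decide +kernel)
              (CovZ.n2 (-15600, 13872) (by decide +kernel)
               (CovZ.n2 (-15600, 13920) (by decide +kernel)
                (CovZ.n2 (-15576, 13896) (by decide +kernel)
                 (CovZ.leaf K2_ok TB_l25990 _)
                 (CovZ.n1 (-15576, 13920) (by decide +kernel)
                  (CovZ.leaf K2_ok TB_l42786 _)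
                  (CovZ.leaf K2_ok TB_l42787 _)))
                (CovZ.n1 (-15624, 13896) (by decide +kernel)
                 (CovZ.n2 (-15624, 13920) (by decide +kernel)
                  (CovZ.leaf K2_ok TB_l25991 _)
                  (CovZ.leaf K2_ok TB_l25992 _))
                 (CovZ.leaf K2_ok TB_l25993 _)))
               (CovZ.n1 (-15552, 13872) (by decide +kernel)
                (CovZ.leaf K2_ok TB_l25994 _)
                (CovZ.n1 (-15576, 13896) (by decide +kernel)
                 (CovZ.n2 (-15552, 13896) (by decide +kernel)
                  (CovZ.leaf K2_ok TB_l25995 _)
                  (CovZ.leaf K2_ok TB_l42788 _))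
                 (CovZ.leaf K2_ok TB_l25996 _))))
              (CovZ.n1 (-15600, 13968) (by decide +kernel)
               (CovZ.badM (by decide +kernel))
               (CovZ.n1 (-15600, 13920) (by decide +kernel)
                (CovZ.n2 (-15624, 13944) (by decide +kernel)
                 (CovZ.n2 (-15600, 13944) (by decide +kernel)
                  (CovZ.leaf K2_ok TB_l25997 _)
                  (CovZ.badM (by decide +kernel)))
                 (CovZ.n1 (-15624, 13920) (by decide +kernel)
                  (CovZ.leaf K2_ok TB_l25998 _)
                  (CovZ.leaf K2_ok TB_l25999 _)))
                (CovZ.subM 784637716923335095479473700718669106120925918094568718336 (by decide +kernel)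
                 (CovZ.n1 (-15576, 13944) (by decide +kernel)
                  (CovZ.n2 (-15576, 13920) (by decide +kernel)
                   (CovZ.n2 (-15588, 13932) (by decide +kernel)
                    (CovZ.leaf K2_ok TB_l42789 _)
                    (CovZ.leaf K2_ok TB_l42790 _))
                   (CovZ.n1 (-15564, 13932) (by decide +kernel)
                    (CovZ.n2 (-15564, 13920) (by decide +kernel)
                     (CovZ.leaf K2_ok TB_l42791 _)
                     (CovZ.badM (by decide +kernel)))
                    (CovZ.leaf K2_ok TB_l42792 _)))
                  (CovZ.n1 (-15600, 13944) (by decide +kernel)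
                   (CovZ.badM (by decide +kernel))
                   (CovZ.n1 (-15588, 13932) (by decide +kernel)
                    (CovZ.leaf K2_ok TB_l42793 _)
                    (CovZ.badM (by decide +kernel))))))))))
            (CovZ.n1 (-15648, 13824) (by decide +kernel)
             (CovZ.n2 (-15696, 13872) (by decide +kernel)
              (CovZ.n2 (-15648, 13872) (by decide +kernel)
               (CovZ.leaf K2_ok TB_l26000 _)
               (CovZ.leaf K2_ok TB_l26001 _))
              (CovZ.leaf K2_ok TB_l26002 _))
             (CovZ.n1 (-15600, 13872) (by decide +kernel)
              (CovZ.n2 (-15600, 13824) (by decide +kernel)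
               (CovZ.leaf K2_ok TB_l26003 _)
               (CovZ.leaf K2_ok TB_l26004 _))
              (CovZ.n1 (-15648, 13872) (by decide +kernel)
               (CovZ.n2 (-15624, 13896) (by decide +kernel)
                (CovZ.leaf K2_ok TB_l26005 _)
                (CovZ.leaf K2_ok TB_l26006 _))
               (CovZ.leaf K2_ok TB_l26007 _)))))
           (CovZ.subM 139984046386112763159840142535527767382602844361803312854584414289710692667434303141964686547990085640 (by decide +kernel)
            (CovZ.n1 (-15456, 13920) (by decide +kernel)
             (CovZ.n2 (-15456, 13824) (by decide +kernel)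
              (CovZ.n2 (-15504, 13872) (by decide +kernel)
               (CovZ.n2 (-15456, 13872) (by decide +kernel)
                (CovZ.n2 (-15480, 13848) (by decide +kernel)
                 (CovZ.n2 (-15480, 13872) (by decide +kernel)
                  (CovZ.leaf K2_ok TB_l42794 _)
                  (CovZ.leaf K2_ok TB_l42795 _))
                 (CovZ.n1 (-15456, 13848) (by decide +kernel)
                  (CovZ.leaf K2_ok TB_l26008 _)
                  (CovZ.leaf K2_ok TB_l42796 _)))
                (CovZ.subM 784637716923335095479473700718669408352380812955769372680 (by decide +kernel)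
                 (CovZ.n1 (-15480, 13896) (by decide +kernel)
                  (CovZ.subM 784637716923335095479473698183367905664464854505255600128 (by decide +kernel)
                   (CovZ.n2 (-15456, 13896) (by decide +kernel)
                    (CovZ.n2 (-15468, 13884) (by decide +kernel)
                     (CovZ.badM (by decide +kernel))
                     (CovZ.n1 (-15456, 13884) (by decide +kernel)
                      (CovZ.leaf K2_ok TB_l42797 _)
                      (CovZ.badM (by decide +kernel))))
                    (CovZ.badM (by decide +kernel))))
                  (CovZ.n1 (-15480, 13872) (by decide +kernel)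
                   (CovZ.n2 (-15492, 13884) (by decide +kernel)
                    (CovZ.leaf K2_ok TB_l42798 _)
                    (CovZ.leaf K2_ok TB_l42799 _))
                   (CovZ.n1 (-15468, 13884) (by decide +kernel)
                    (CovZ.leaf K2_ok TB_l42800 _)
                    (CovZ.leaf K2_ok TB_l42801 _))))))
               (CovZ.n1 (-15504, 13824) (by decide +kernel)
                (CovZ.n2 (-15528, 13848) (by decide +kernel)
                 (CovZ.leaf K2_ok TB_l26009 _)
                 (CovZ.leaf K2_ok TB_l26010 _))
                (CovZ.n1 (-15480, 13848) (by decide +kernel)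
                 (CovZ.leaf K2_ok TB_l26011 _)
                 (CovZ.leaf K2_ok TB_l26012 _))))
              (CovZ.n1 (-15408, 13872) (by decide +kernel)
               (CovZ.n2 (-15408, 13824) (by decide +kernel)
                (CovZ.n2 (-15432, 13848) (by decide +kernel)
                 (CovZ.n2 (-15408, 13848) (by decide +kernel)
                  (CovZ.leaf K2_ok TB_l26013 _)
                  (CovZ.n1 (-15420, 13860) (by decide +kernel)
                   (CovZ.leaf K2_ok TB_l42802 _)
                   (CovZ.leaf K2_ok TB_l42803 _)))
                 (CovZ.leaf K2_ok TB_l26014 _))
                (CovZ.n1 (-15384, 13848) (by decide +kernel)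
                 (CovZ.n2 (-15384, 13824) (by decide +kernel)
                  (CovZ.leaf K2_ok TB_l26015 _)
                  (CovZ.leaf K2_ok TB_l42804 _))
                 (CovZ.n1 (-15408, 13848) (by decide +kernel)
                  (CovZ.n2 (-15396, 13860) (by decide +kernel)
                   (CovZ.n2 (-15396, 13848) (by decide +kernel)
                    (CovZ.leaf K2_ok TB_l42805 _)
                    (CovZ.badM (by decide +kernel)))
                   (CovZ.leaf K2_ok TB_l42806 _))
                  (CovZ.leaf K2_ok TB_l26016 _))))
               (CovZ.n1 (-15456, 13872) (by decide +kernel)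
                (CovZ.subM 784637716923335095479473698183367905664464854505255600128 (by decide +kernel)
                 (CovZ.n2 (-15432, 13896) (by decide +kernel)
                  (CovZ.n2 (-15432, 13872) (by decide +kernel)
                   (CovZ.n2 (-15444, 13884) (by decide +kernel)
                    (CovZ.badM (by decide +kernel))
                    (CovZ.leaf K2_ok TB_l42807 _))
                   (CovZ.badM (by decide +kernel)))
                  (CovZ.n1 (-15456, 13896) (by decide +kernel)
                   (CovZ.badM (by decide +kernel))
                   (CovZ.n1 (-15444, 13884) (by decide +kernel)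
                    (CovZ.leaf K2_ok TB_l42808 _)
                    (CovZ.badM (by decide +kernel))))))
                (CovZ.n1 (-15432, 13848) (by decide +kernel)
                 (CovZ.n2 (-15456, 13848) (by decide +kernel)
                  (CovZ.leaf K2_ok TB_l42809 _)
                  (CovZ.leaf K2_ok TB_l26017 _))
                 (CovZ.n1 (-15432, 13872) (by decide +kernel)
                  (CovZ.n2 (-15420, 13860) (by decide +kernel)
                   (CovZ.leaf K2_ok TB_l42810 _)
                   (CovZ.leaf K2_ok TB_l42811 _))
                  (CovZ.leaf K2_ok TB_l42812 _))))))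
             (CovZ.n1 (-15552, 13920) (by decide +kernel)
              (CovZ.badM (by decide +kernel))
              (CovZ.n1 (-15504, 13872) (by decide +kernel)
               (CovZ.n2 (-15552, 13872) (by decide +kernel)
                (CovZ.n2 (-15528, 13896) (by decide +kernel)
                 (CovZ.n2 (-15528, 13872) (by decide +kernel)
                  (CovZ.leaf K2_ok TB_l26018 _)
                  (CovZ.leaf K2_ok TB_l42813 _))
                 (CovZ.n1 (-15552, 13896) (by decide +kernel)
                  (CovZ.leaf K2_ok TB_l42814 _)
                  (CovZ.leaf K2_ok TB_l26019 _)))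
                (CovZ.n1 (-15528, 13848) (by decide +kernel)
                 (CovZ.leaf K2_ok TB_l26020 _)
                 (CovZ.leaf K2_ok TB_l26021 _)))
               (CovZ.n1 (-15504, 13920) (by decide +kernel)
                (CovZ.subM 784637716923335095479473700718669408352380812955769372680 (by decide +kernel)
                 (CovZ.n2 (-15480, 13896) (by decide +kernel)
                  (CovZ.n2 (-15504, 13896) (by decide +kernel)
                   (CovZ.badM (by decide +kernel))
                   (CovZ.n1 (-15492, 13884) (by decide +kernel)
                    (CovZ.leaf K2_ok TB_l42815 _)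
                    (CovZ.leaf K2_ok TB_l42816 _)))
                  (CovZ.badM (by decide +kernel))))
                (CovZ.n1 (-15528, 13896) (by decide +kernel)
                 (CovZ.subM 784637716923335095479473698183367905664464863301348622336 (by decide +kernel)
                  (CovZ.n2 (-15528, 13920) (by decide +kernel)
                   (CovZ.n2 (-15516, 13908) (by decide +kernel)
                    (CovZ.leaf K2_ok TB_l42817 _)
                    (CovZ.badM (by decide +kernel)))
                   (CovZ.n1 (-15540, 13908) (by decide +kernel)
                    (CovZ.leaf K2_ok TB_l42818 _)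
                    (CovZ.leaf K2_ok TB_l42819 _))))
                 (CovZ.n1 (-15504, 13896) (by decide +kernel)
                  (CovZ.leaf K2_ok TB_l42820 _)
                  (CovZ.n1 (-15516, 13908) (by decide +kernel)
                   (CovZ.badM (by decide +kernel))
                   (CovZ.leaf K2_ok TB_l42821 _))))))))))

theorem TB_u336 : CovZ TB_M (toL (selN TB_LN 139984046386112763175024653949752465670664915748817597505519269937551213193367293529104247417590513672)) [0, 7, 6, 1] (-15552, 14016) (-15744, 14208) (-15744, 13824) :=
    (CovZ.n1 (-15744, 14016) (by decide +kernel)
           (CovZ.badM (by decide +kernel))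
           (CovZ.n1 (-15648, 13920) (by decide +kernel)
            (CovZ.n2 (-15744, 13920) (by decide +kernel)
             (CovZ.n2 (-15696, 13968) (by decide +kernel)
              (CovZ.n2 (-15696, 13920) (by decide +kernel)
               (CovZ.n2 (-15720, 13944) (by decide +kernel)
                (CovZ.leaf K2_ok TB_l26022 _)
                (CovZ.leaf K2_ok TB_l26023 _))
               (CovZ.n1 (-15672, 13944) (by decide +kernel)
                (CovZ.leaf K2_ok TB_l26024 _)
                (CovZ.n1 (-15696, 13944) (by decide +kernel)
                 (CovZ.leaf K2_ok TB_l26025 _)
                 (CovZ.leaf K2_ok TB_l26026 _))))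
              (CovZ.n1 (-15744, 13968) (by decide +kernel)
               (CovZ.subM 784637716923335095479473700718669408352381402568879767560 (by decide +kernel)
                (CovZ.n2 (-15720, 13992) (by decide +kernel)
                 (CovZ.n2 (-15720, 13968) (by decide +kernel)
                  (CovZ.n2 (-15732, 13980) (by decide +kernel)
                   (CovZ.leaf K2_ok TB_l26027 _)
                   (CovZ.leaf K2_ok TB_l26028 _))
                  (CovZ.n1 (-15708, 13980) (by decide +kernel)
                   (CovZ.leaf K2_ok TB_l26029 _)
                   (CovZ.leaf K2_ok TB_l26030 _)))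
                 (CovZ.n1 (-15744, 13992) (by decide +kernel)
                  (CovZ.badM (by decide +kernel))
                  (CovZ.n1 (-15732, 13980) (by decide +kernel)
                   (CovZ.leaf K2_ok TB_l26031 _)
                   (CovZ.leaf K2_ok TB_l42822 _)))))
               (CovZ.n1 (-15720, 13944) (by decide +kernel)
                (CovZ.leaf K2_ok TB_l26032 _)
                (CovZ.n1 (-15720, 13968) (by decide +kernel)
                 (CovZ.leaf K2_ok TB_l26033 _)
                 (CovZ.leaf K2_ok TB_l26034 _)))))
             (CovZ.n1 (-15696, 13872) (by decide +kernel)
              (CovZ.n2 (-15744, 13872) (by decide +kernel)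
               (CovZ.leaf K2_ok TB_l26035 _)
               (CovZ.leaf K2_ok TB_l26036 _))
              (CovZ.n1 (-15696, 13920) (by decide +kernel)
               (CovZ.leaf K2_ok TB_l26037 _)
               (CovZ.leaf K2_ok TB_l26038 _))))
            (CovZ.subM 784637716923335095479473700718669408352381402568879767560 (by decide +kernel)
             (CovZ.n1 (-15648, 14016) (by decide +kernel)
              (CovZ.n2 (-15600, 13968) (by decide +kernel)
               (CovZ.n2 (-15648, 13968) (by decide +kernel)
                (CovZ.badM (by decide +kernel))
                (CovZ.n1 (-15624, 13944) (by decide +kernel)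
                 (CovZ.n2 (-15648, 13944) (by decide +kernel)
                  (CovZ.n2 (-15636, 13956) (by decide +kernel)
                   (CovZ.leaf K2_ok TB_l42823 _)
                   (CovZ.leaf K2_ok TB_l42824 _))
                  (CovZ.leaf K2_ok TB_l26039 _))
                 (CovZ.badM (by decide +kernel))))
               (CovZ.badM (by decide +kernel)))
              (CovZ.n1 (-15696, 13968) (by decide +kernel)
               (CovZ.subM 784637716923335095479473698183367905664464863576226529280 (by decide +kernel)
                (CovZ.n2 (-15696, 14016) (by decide +kernel)
                 (CovZ.n2 (-15672, 13992) (by decide +kernel)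
                  (CovZ.n2 (-15696, 13992) (by decide +kernel)
                   (CovZ.badM (by decide +kernel))
                   (CovZ.n1 (-15684, 13980) (by decide +kernel)
                    (CovZ.leaf K2_ok TB_l42825 _)
                    (CovZ.badM (by decide +kernel))))
                  (CovZ.badM (by decide +kernel)))
                 (CovZ.n1 (-15720, 13992) (by decide +kernel)
                  (CovZ.badM (by decide +kernel))
                  (CovZ.n1 (-15696, 13992) (by decide +kernel)
                   (CovZ.n2 (-15708, 13980) (by decide +kernel)
                    (CovZ.badM (by decide +kernel))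
                    (CovZ.n1 (-15696, 13980) (by decide +kernel)
                     (CovZ.leaf K2_ok TB_l42826 _)
                     (CovZ.badM (by decide +kernel))))
                   (CovZ.badM (by decide +kernel))))))
               (CovZ.n1 (-15648, 13968) (by decide +kernel)
                (CovZ.n2 (-15672, 13944) (by decide +kernel)
                 (CovZ.n2 (-15672, 13968) (by decide +kernel)
                  (CovZ.n2 (-15660, 13956) (by decide +kernel)
                   (CovZ.leaf K2_ok TB_l26040 _)
                   (CovZ.leaf K2_ok TB_l42827 _))
                  (CovZ.leaf K2_ok TB_l26041 _))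
                 (CovZ.n1 (-15648, 13944) (by decide +kernel)
                  (CovZ.leaf K2_ok TB_l26042 _)
                  (CovZ.n1 (-15660, 13956) (by decide +kernel)
                   (CovZ.leaf K2_ok TB_l42828 _)
                   (CovZ.leaf K2_ok TB_l26043 _))))
                (CovZ.subM 784637716923335095479473698183367905664464863301348622336 (by decide +kernel)
                 (CovZ.n1 (-15672, 13992) (by decide +kernel)
                  (CovZ.badM (by decide +kernel))
                  (CovZ.n1 (-15672, 13968) (by decide +kernel)
                   (CovZ.n2 (-15684, 13980) (by decide +kernel)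
                    (CovZ.badM (by decide +kernel))
                    (CovZ.leaf K2_ok TB_l42829 _))
                   (CovZ.badM (by decide +kernel)))))))))))

theorem TB_u337 : CovZ TB_M (toL (selN TB_LN 139984046646861325317621487702618156489366867816153043134871369999965684086585833843123825206540374056)) [0, 7, 6, 1] (-15360, 13824) (-15744, 14208) (-16128, 13824) :=
    (CovZ.n2 (-15744, 13824) (by decide +kernel)
        (CovZ.n2 (-15936, 14016) (by decide +kernel)
         (CovZ.subM 139984046386112763175024653949752465670664915748817597505519269937551213193367293529104247967346331656 (by decide +kernel)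
          (CovZ.n2 (-15744, 14016) (by decide +kernel)
           (CovZ.n2 (-15840, 13920) (by decide +kernel)
            (CovZ.n2 (-15840, 14016) (by decide +kernel)
             (CovZ.n2 (-15792, 13968) (by decide +kernel)
              (CovZ.n2 (-15840, 13968) (by decide +kernel)
               (CovZ.n2 (-15816, 13992) (by decide +kernel)
                (CovZ.leaf K2_ok TB_l25947 _)
                (CovZ.leaf K2_ok TB_l25948 _))
               (CovZ.leaf K2_ok TB_l25949 _))
              (CovZ.n1 (-15792, 14016) (by decide +kernel)
               (CovZ.n2 (-15768, 13992) (by decide +kernel)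
                (CovZ.n2 (-15792, 13992) (by decide +kernel)
                 (CovZ.n2 (-15780, 14004) (by decide +kernel)
                  (CovZ.leaf K2_ok TB_l25950 _)
                  (CovZ.leaf K2_ok TB_l25951 _))
                 (CovZ.leaf K2_ok TB_l25952 _))
                (CovZ.subM 784637716923335095479473700718669106120925918369446625288 (by decide +kernel)
                 (CovZ.n1 (-15768, 14016) (by decide +kernel)
                  (CovZ.n2 (-15756, 14004) (by decide +kernel)
                   (CovZ.leaf K2_ok TB_l42763 _)
                   (CovZ.badM (by decide +kernel)))
                  (CovZ.n1 (-15780, 14004) (by decide +kernel)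
                   (CovZ.leaf K2_ok TB_l42764 _)
                   (CovZ.leaf K2_ok TB_l42765 _)))))
               (CovZ.n1 (-15816, 13992) (by decide +kernel)
                (CovZ.n2 (-15816, 14016) (by decide +kernel)
                 (CovZ.leaf K2_ok TB_l25953 _)
                 (CovZ.leaf K2_ok TB_l25954 _))
                (CovZ.n1 (-15792, 13992) (by decide +kernel)
                 (CovZ.leaf K2_ok TB_l25955 _)
                 (CovZ.leaf K2_ok TB_l25956 _)))))
             (CovZ.n1 (-15888, 13968) (by decide +kernel)
              (CovZ.n2 (-15888, 14016) (by decide +kernel)
               (CovZ.n2 (-15864, 13992) (by decide +kernel)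
                (CovZ.leaf K2_ok TB_l25957 _)
                (CovZ.leaf K2_ok TB_l25958 _))
               (CovZ.leaf K2_ok TB_l25959 _))
              (CovZ.n1 (-15840, 13968) (by decide +kernel)
               (CovZ.leaf K2_ok TB_l25960 _)
               (CovZ.n1 (-15864, 13992) (by decide +kernel)
                (CovZ.leaf K2_ok TB_l25961 _)
                (CovZ.leaf K2_ok TB_l25962 _)))))
            (CovZ.n1 (-15744, 13920) (by decide +kernel)
             (CovZ.n2 (-15792, 13872) (by decide +kernel)
              (CovZ.n2 (-15792, 13920) (by decide +kernel)
               (CovZ.leaf K2_ok TB_l25963 _)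
               (CovZ.leaf K2_ok TB_l25964 _))
              (CovZ.leaf K2_ok TB_l25965 _))
             (CovZ.n1 (-15792, 13968) (by decide +kernel)
              (CovZ.n2 (-15744, 13968) (by decide +kernel)
               (CovZ.n2 (-15768, 13944) (by decide +kernel)
                (CovZ.leaf K2_ok TB_l25966 _)
                (CovZ.leaf K2_ok TB_l25967 _))
               (CovZ.n1 (-15768, 13992) (by decide +kernel)
                (CovZ.n2 (-15744, 13992) (by decide +kernel)
                 (CovZ.leaf K2_ok TB_l25968 _)
                 (CovZ.n1 (-15756, 14004) (by decide +kernel)
                  (CovZ.badM (by decide +kernel))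
                  (CovZ.leaf K2_ok TB_l42766 _)))
                (CovZ.n1 (-15768, 13968) (by decide +kernel)
                 (CovZ.leaf K2_ok TB_l25969 _)
                 (CovZ.leaf K2_ok TB_l25970 _))))
              (CovZ.n1 (-15792, 13920) (by decide +kernel)
               (CovZ.leaf K2_ok TB_l25971 _)
               (CovZ.n1 (-15768, 13944) (by decide +kernel)
                (CovZ.leaf K2_ok TB_l25972 _)
                (CovZ.leaf K2_ok TB_l25973 _))))))
           (CovZ.n1 (-15840, 14112) (by decide +kernel)
            (CovZ.badM (by decide +kernel))
            (CovZ.n1 (-15840, 14016) (by decide +kernel)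
             (CovZ.n2 (-15888, 14064) (by decide +kernel)
              (CovZ.subM 784637716923335095479473700877125733380910077755967668232 (by decide +kernel)
               (CovZ.n2 (-15840, 14064) (by decide +kernel)
                (CovZ.n2 (-15864, 14040) (by decide +kernel)
                 (CovZ.subM 158456325028528675187087900672 (by decide +kernel)
                  (CovZ.n2 (-15864, 14064) (by decide +kernel)
                   (CovZ.n2 (-15852, 14052) (by decide +kernel)
                    (CovZ.leaf K2_ok TB_l42767 _)
                    (CovZ.badM (by decide +kernel)))
                   (CovZ.n1 (-15876, 14052) (by decide +kernel)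
                    (CovZ.badM (by decide +kernel))
                    (CovZ.leaf K2_ok TB_l42768 _))))
                 (CovZ.n1 (-15840, 14040) (by decide +kernel)
                  (CovZ.leaf K2_ok TB_l42769 _)
                  (CovZ.n1 (-15852, 14052) (by decide +kernel)
                   (CovZ.badM (by decide +kernel))
                   (CovZ.leaf K2_ok TB_l42770 _))))
                (CovZ.badM (by decide +kernel))))
              (CovZ.n1 (-15888, 14016) (by decide +kernel)
               (CovZ.n2 (-15912, 14040) (by decide +kernel)
                (CovZ.n2 (-15888, 14040) (by decide +kernel)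
                 (CovZ.leaf K2_ok TB_l42771 _)
                 (CovZ.leaf K2_ok TB_l42772 _))
                (CovZ.leaf K2_ok TB_l42773 _))
               (CovZ.n1 (-15864, 14040) (by decide +kernel)
                (CovZ.n2 (-15864, 14016) (by decide +kernel)
                 (CovZ.leaf K2_ok TB_l42774 _)
                 (CovZ.leaf K2_ok TB_l42775 _))
                (CovZ.n1 (-15888, 14040) (by decide +kernel)
                 (CovZ.n2 (-15876, 14052) (by decide +kernel)
                  (CovZ.leaf K2_ok TB_l42776 _)
                  (CovZ.leaf K2_ok TB_l42777 _))
                 (CovZ.leaf K2_ok TB_l42778 _)))))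
             (CovZ.subM 784637716923335095479473700877125733380910077755967668232 (by decide +kernel)
              (CovZ.n1 (-15792, 14064) (by decide +kernel)
               (CovZ.n2 (-15792, 14016) (by decide +kernel)
                (CovZ.n2 (-15816, 14040) (by decide +kernel)
                 (CovZ.badM (by decide +kernel))
                 (CovZ.n1 (-15816, 14016) (by decide +kernel)
                  (CovZ.n2 (-15828, 14028) (by decide +kernel)
                   (CovZ.leaf K2_ok TB_l42779 _)
                   (CovZ.leaf K2_ok TB_l42780 _))
                  (CovZ.n1 (-15804, 14028) (by decide +kernel)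
                   (CovZ.leaf K2_ok TB_l42781 _)
                   (CovZ.n1 (-15816, 14028) (by decide +kernel)
                    (CovZ.badM (by decide +kernel))
                    (CovZ.leaf K2_ok TB_l42782 _)))))
                (CovZ.badM (by decide +kernel)))
               (CovZ.n1 (-15840, 14064) (by decide +kernel)
                (CovZ.badM (by decide +kernel))
                (CovZ.n1 (-15816, 14040) (by decide +kernel)
                 (CovZ.n2 (-15840, 14040) (by decide +kernel)
                  (CovZ.badM (by decide +kernel))
                  (CovZ.n1 (-15828, 14028) (by decide +kernel)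
                   (CovZ.leaf K2_ok TB_l42783 _)
                   (CovZ.badM (by decide +kernel))))
                 (CovZ.badM (by decide +kernel))))))))))
         (CovZ.n1 (-15936, 13824) (by decide +kernel)
          (CovZ.n2 (-16032, 13920) (by decide +kernel)
           (CovZ.n2 (-15936, 13920) (by decide +kernel)
            (CovZ.leaf K2_ok TB_l25974 _)
            (CovZ.n1 (-15984, 13968) (by decide +kernel)
             (CovZ.leaf K2_ok TB_l25975 _)
             (CovZ.leaf K2_ok TB_l25976 _)))
           (CovZ.n1 (-16032, 13824) (by decide +kernel)
            (CovZ.n2 (-16080, 13872) (by decide +kernel)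
             (CovZ.leaf K2_ok TB_l25977 _)
             (CovZ.leaf K2_ok TB_l25978 _))
            (CovZ.n1 (-15984, 13872) (by decide +kernel)
             (CovZ.leaf K2_ok TB_l25979 _)
             (CovZ.leaf K2_ok TB_l25980 _))))
          (CovZ.subM 139984046386120720346807268432292426327830274708949621335478818950501028924389056179613653233081257992 (by decide +kernel)
           (CovZ.n1 (-15840, 13920) (by decide +kernel)
            (CovZ.n2 (-15840, 13824) (by decide +kernel)
             (CovZ.n2 (-15888, 13872) (by decide +kernel)
              (CovZ.leaf K2_ok TB_l25981 _)
              (CovZ.leaf K2_ok TB_l25982 _))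
             (CovZ.n1 (-15792, 13872) (by decide +kernel)
              (CovZ.leaf K2_ok TB_l25983 _)
              (CovZ.leaf K2_ok TB_l25984 _)))
            (CovZ.n1 (-15936, 13920) (by decide +kernel)
             (CovZ.n2 (-15888, 13968) (by decide +kernel)
              (CovZ.leaf K2_ok TB_l25985 _)
              (CovZ.n1 (-15936, 13968) (by decide +kernel)
               (CovZ.leaf K2_ok TB_l25986 _)
               (CovZ.leaf K2_ok TB_l25987 _)))
             (CovZ.n1 (-15888, 13872) (by decide +kernel)
              (CovZ.leaf K2_ok TB_l25988 _)
              (CovZ.leaf K2_ok TB_l25989 _)))))))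
        (CovZ.subM 139984046386112763175024653949752465670664915748817597505519269937551213193367293529104247417590513672 (by decide +kernel)
         (CovZ.n1 (-15552, 14016) (by decide +kernel)
          TB_u335
          TB_u336)))

theorem TB_u338 : CovZ TB_M (toL (selN TB_LN 139984046646861325317621487702618156489366867816153043134871369999965684086585833843123825206540374056)) [0, 7, 6, 1] (-15744, 14208) (-16128, 14592) (-16128, 13824) :=
    (CovZ.n1 (-16128, 14208) (by decide +kernel)
        (CovZ.badM (by decide +kernel))
        (CovZ.n1 (-15936, 14016) (by decide +kernel)
         (CovZ.n2 (-16128, 14016) (by decide +kernel)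
          (CovZ.n2 (-16032, 14112) (by decide +kernel)
           (CovZ.n2 (-16032, 14016) (by decide +kernel)
            (CovZ.n2 (-16080, 14064) (by decide +kernel)
             (CovZ.n2 (-16032, 14064) (by decide +kernel)
              (CovZ.leaf K2_ok TB_l26044 _)
              (CovZ.n1 (-16056, 14088) (by decide +kernel)
               (CovZ.n2 (-16032, 14088) (by decide +kernel)
                (CovZ.leaf K2_ok TB_l26045 _)
                (CovZ.leaf K2_ok TB_l26046 _))
               (CovZ.leaf K2_ok TB_l26047 _)))
             (CovZ.n1 (-16080, 14016) (by decide +kernel)
              (CovZ.leaf K2_ok TB_l26048 _)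
              (CovZ.leaf K2_ok TB_l26049 _)))
            (CovZ.n1 (-15984, 14064) (by decide +kernel)
             (CovZ.n2 (-15984, 14016) (by decide +kernel)
              (CovZ.n2 (-16008, 14040) (by decide +kernel)
               (CovZ.leaf K2_ok TB_l26050 _)
               (CovZ.leaf K2_ok TB_l26051 _))
              (CovZ.n1 (-15960, 14040) (by decide +kernel)
               (CovZ.leaf K2_ok TB_l26052 _)
               (CovZ.leaf K2_ok TB_l26053 _)))
             (CovZ.n1 (-16032, 14064) (by decide +kernel)
              (CovZ.n2 (-16008, 14088) (by decide +kernel)
               (CovZ.leaf K2_ok TB_l26054 _)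
               (CovZ.n1 (-16032, 14088) (by decide +kernel)
                (CovZ.leaf K2_ok TB_l26055 _)
                (CovZ.leaf K2_ok TB_l26056 _)))
              (CovZ.leaf K2_ok TB_l26057 _))))
           (CovZ.n1 (-16128, 14112) (by decide +kernel)
            (CovZ.n2 (-16080, 14160) (by decide +kernel)
             (CovZ.n2 (-16080, 14112) (by decide +kernel)
              (CovZ.n2 (-16104, 14136) (by decide +kernel)
               (CovZ.n2 (-16080, 14136) (by decide +kernel)
                (CovZ.leaf K2_ok TB_l26058 _)
                (CovZ.n1 (-16092, 14148) (by decide +kernel)
                 (CovZ.leaf K2_ok TB_l26059 _)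
                 (CovZ.leaf K2_ok TB_l26060 _)))
               (CovZ.n1 (-16104, 14112) (by decide +kernel)
                (CovZ.leaf K2_ok TB_l26061 _)
                (CovZ.leaf K2_ok TB_l26062 _)))
              (CovZ.subM 139984046386112763175024653949766267688999269020945925168595772113808711286321907054607299395398406152 (by decide +kernel)
               (CovZ.n1 (-16056, 14136) (by decide +kernel)
                (CovZ.n2 (-16056, 14112) (by decide +kernel)
                 (CovZ.leaf K2_ok TB_l26063 _)
                 (CovZ.leaf K2_ok TB_l26064 _))
                (CovZ.n1 (-16080, 14136) (by decide +kernel)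
                 (CovZ.n2 (-16068, 14148) (by decide +kernel)
                  (CovZ.leaf K2_ok TB_l26065 _)
                  (CovZ.leaf K2_ok TB_l26066 _))
                 (CovZ.leaf K2_ok TB_l26067 _)))))
             (CovZ.n1 (-16128, 14160) (by decide +kernel)
              (CovZ.subM 7410695491838793979074000198723038570081845750987437739491091515519706012323840 (by decide +kernel)
               (CovZ.n2 (-16104, 14184) (by decide +kernel)
                (CovZ.n2 (-16104, 14160) (by decide +kernel)
                 (CovZ.n2 (-16116, 14172) (by decide +kernel)
                  (CovZ.badM (by decide +kernel))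
                  (CovZ.leaf K2_ok TB_l42830 _))
                 (CovZ.badM (by decide +kernel)))
                (CovZ.n1 (-16128, 14184) (by decide +kernel)
                 (CovZ.badM (by decide +kernel))
                 (CovZ.n1 (-16116, 14172) (by decide +kernel)
                  (CovZ.leaf K2_ok TB_l42831 _)
                  (CovZ.badM (by decide +kernel))))))
              (CovZ.n1 (-16104, 14136) (by decide +kernel)
               (CovZ.leaf K2_ok TB_l26068 _)
               (CovZ.subM 139984046386112763159847553231019606387206501699116409288990551502802625872597563937981683901994635272 (by decide +kernel)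
                (CovZ.n1 (-16104, 14160) (by decide +kernel)
                 (CovZ.n2 (-16092, 14148) (by decide +kernel)
                  (CovZ.leaf K2_ok TB_l26069 _)
                  (CovZ.n1 (-16092, 14160) (by decide +kernel)
                   (CovZ.leaf K2_ok TB_l42832 _)
                   (CovZ.leaf K2_ok TB_l42833 _)))
                 (CovZ.n1 (-16116, 14148) (by decide +kernel)
                  (CovZ.leaf K2_ok TB_l42834 _)
                  (CovZ.leaf K2_ok TB_l26070 _)))))))
            (CovZ.n1 (-16080, 14064) (by decide +kernel)
             (CovZ.n2 (-16128, 14064) (by decide +kernel)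
              (CovZ.leaf K2_ok TB_l26071 _)
              (CovZ.leaf K2_ok TB_l26072 _))
             (CovZ.n1 (-16080, 14112) (by decide +kernel)
              (CovZ.n2 (-16056, 14088) (by decide +kernel)
               (CovZ.leaf K2_ok TB_l26073 _)
               (CovZ.n1 (-16056, 14112) (by decide +kernel)
                (CovZ.leaf K2_ok TB_l26074 _)
                (CovZ.leaf K2_ok TB_l26075 _)))
              (CovZ.leaf K2_ok TB_l26076 _)))))
          (CovZ.n1 (-16032, 13920) (by decide +kernel)
           (CovZ.n2 (-16128, 13920) (by decide +kernel)
            (CovZ.n2 (-16080, 13968) (by decide +kernel)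
             (CovZ.leaf K2_ok TB_l26077 _)
             (CovZ.leaf K2_ok TB_l26078 _))
            (CovZ.n1 (-16080, 13872) (by decide +kernel)
             (CovZ.leaf K2_ok TB_l26079 _)
             (CovZ.leaf K2_ok TB_l26080 _)))
           (CovZ.n1 (-16032, 14016) (by decide +kernel)
            (CovZ.n2 (-15984, 13968) (by decide +kernel)
             (CovZ.leaf K2_ok TB_l26081 _)
             (CovZ.n1 (-15984, 14016) (by decide +kernel)
              (CovZ.leaf K2_ok TB_l26082 _)
              (CovZ.leaf K2_ok TB_l26083 _)))
            (CovZ.n1 (-16080, 13968) (by decide +kernel)
             (CovZ.leaf K2_ok TB_l26084 _)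
             (CovZ.leaf K2_ok TB_l26085 _)))))
         (CovZ.n1 (-15936, 14208) (by decide +kernel)
          (CovZ.subM 139984046386112763175024653949752463985668249051902610338830826998824133831768937906955076320360402952 (by decide +kernel)
           (CovZ.n2 (-15840, 14112) (by decide +kernel)
            (CovZ.n2 (-15936, 14112) (by decide +kernel)
             (CovZ.badM (by decide +kernel))
             (CovZ.n1 (-15888, 14064) (by decide +kernel)
              (CovZ.n2 (-15936, 14064) (by decide +kernel)
               (CovZ.subM 784637716923335095479473700718669408352381402568879767560 (by decide +kernel)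
                (CovZ.n2 (-15912, 14088) (by decide +kernel)
                 (CovZ.n2 (-15912, 14064) (by decide +kernel)
                  (CovZ.n2 (-15924, 14076) (by decide +kernel)
                   (CovZ.badM (by decide +kernel))
                   (CovZ.leaf K2_ok TB_l42835 _))
                  (CovZ.badM (by decide +kernel)))
                 (CovZ.n1 (-15936, 14088) (by decide +kernel)
                  (CovZ.badM (by decide +kernel))
                  (CovZ.n1 (-15924, 14076) (by decide +kernel)
                   (CovZ.leaf K2_ok TB_l42836 _)
                   (CovZ.badM (by decide +kernel))))))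
               (CovZ.n1 (-15912, 14040) (by decide +kernel)
                (CovZ.n2 (-15936, 14040) (by decide +kernel)
                 (CovZ.leaf K2_ok TB_l42837 _)
                 (CovZ.leaf K2_ok TB_l42838 _))
                (CovZ.n1 (-15912, 14064) (by decide +kernel)
                 (CovZ.n2 (-15900, 14052) (by decide +kernel)
                  (CovZ.leaf K2_ok TB_l42839 _)
                  (CovZ.leaf K2_ok TB_l42840 _))
                 (CovZ.leaf K2_ok TB_l42841 _))))
              (CovZ.badM (by decide +kernel))))
            (CovZ.badM (by decide +kernel))))
          (CovZ.n1 (-16032, 14112) (by decide +kernel)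
           (CovZ.subM 13803492693581127574869511724554050904905080061711601197769133316374536 (by decide +kernel)
            (CovZ.n2 (-16032, 14208) (by decide +kernel)
             (CovZ.n2 (-15984, 14160) (by decide +kernel)
              (CovZ.n2 (-16032, 14160) (by decide +kernel)
               (CovZ.badM (by decide +kernel))
               (CovZ.n1 (-16008, 14136) (by decide +kernel)
                (CovZ.n2 (-16032, 14136) (by decide +kernel)
                 (CovZ.badM (by decide +kernel))
                 (CovZ.n1 (-16020, 14124) (by decide +kernel)
                  (CovZ.leaf K2_ok TB_l26086 _)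
                  (CovZ.badM (by decide +kernel))))
                (CovZ.badM (by decide +kernel))))
              (CovZ.badM (by decide +kernel)))
             (CovZ.n1 (-16080, 14160) (by decide +kernel)
              (CovZ.badM (by decide +kernel))
              (CovZ.n1 (-16032, 14160) (by decide +kernel)
               (CovZ.n2 (-16056, 14136) (by decide +kernel)
                (CovZ.badM (by decide +kernel))
                (CovZ.n1 (-16032, 14136) (by decide +kernel)
                 (CovZ.n2 (-16044, 14124) (by decide +kernel)
                  (CovZ.leaf K2_ok TB_l42842 _)
                  (CovZ.leaf K2_ok TB_l26087 _))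
                 (CovZ.badM (by decide +kernel))))
               (CovZ.badM (by decide +kernel))))))
           (CovZ.subM 139984046386112763175024653949766267478374685683831551772759716746467765677349626675356056284859207688 (by decide +kernel)
            (CovZ.n1 (-15936, 14112) (by decide +kernel)
             (CovZ.n2 (-15984, 14064) (by decide +kernel)
              (CovZ.n2 (-15984, 14112) (by decide +kernel)
               (CovZ.n2 (-15960, 14088) (by decide +kernel)
                (CovZ.n2 (-15984, 14088) (by decide +kernel)
                 (CovZ.n2 (-15972, 14100) (by decide +kernel)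
                  (CovZ.leaf K2_ok TB_l42843 _)
                  (CovZ.leaf K2_ok TB_l26088 _))
                 (CovZ.leaf K2_ok TB_l42844 _))
                (CovZ.badM (by decide +kernel)))
               (CovZ.n1 (-16008, 14088) (by decide +kernel)
                (CovZ.n2 (-16008, 14112) (by decide +kernel)
                 (CovZ.n2 (-15996, 14100) (by decide +kernel)
                  (CovZ.leaf K2_ok TB_l26089 _)
                  (CovZ.leaf K2_ok TB_l26090 _))
                 (CovZ.leaf K2_ok TB_l26091 _))
                (CovZ.n1 (-15984, 14088) (by decide +kernel)
                 (CovZ.leaf K2_ok TB_l26092 _)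
                 (CovZ.n1 (-15996, 14100) (by decide +kernel)
                  (CovZ.leaf K2_ok TB_l26093 _)
                  (CovZ.leaf K2_ok TB_l26094 _)))))
              (CovZ.n1 (-15936, 14064) (by decide +kernel)
               (CovZ.n2 (-15960, 14040) (by decide +kernel)
                (CovZ.leaf K2_ok TB_l42846 _)
                (CovZ.leaf K2_ok TB_l42847 _))
               (CovZ.n1 (-15960, 14088) (by decide +kernel)
                (CovZ.n2 (-15936, 14088) (by decide +kernel)
                 (CovZ.n2 (-15948, 14076) (by decide +kernel)
                  (CovZ.badM (by decide +kernel))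
                  (CovZ.leaf K2_ok TB_l42849 _))
                 (CovZ.badM (by decide +kernel)))
                (CovZ.n1 (-15960, 14064) (by decide +kernel)
                 (CovZ.leaf K2_ok TB_l42850 _)
                 (CovZ.n1 (-15948, 14076) (by decide +kernel)
                  (CovZ.leaf K2_ok TB_l42851 _)
                  (CovZ.leaf K2_ok TB_l42852 _))))))
             (CovZ.subM 13803492693581127574869511724554050904905080061711600909538757164662792 (by decide +kernel)
              (CovZ.n1 (-15984, 14160) (by decide +kernel)
               (CovZ.badM (by decide +kernel))
               (CovZ.n1 (-15984, 14112) (by decide +kernel)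
                (CovZ.n2 (-16008, 14136) (by decide +kernel)
                 (CovZ.badM (by decide +kernel))
                 (CovZ.n1 (-16008, 14112) (by decide +kernel)
                  (CovZ.n2 (-16020, 14124) (by decide +kernel)
                   (CovZ.badM (by decide +kernel))
                   (CovZ.leaf K2_ok TB_l26095 _))
                  (CovZ.badM (by decide +kernel))))
                (CovZ.badM (by decide +kernel)))))))))))

end Pool.Agent.TET
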