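import Pool.Agent.Helper38_TET.TB_M
import Pool.Agent.Helper38_TET.TB_L
import Pool.Agent.Helper38_TET.TB_173
import Pool.Agent.Helper38_TET.TB_174
import Pool.Agent.Helper38_TET.TB_175
import Pool.Agent.Helper38_TET.TB_176
import Pool.Agent.Helper38_TET.TB_286
import Pool.Agent.Helper38_TET.TB_287
import Pool.Agent.Helper38_TET.TB_288
import Pool.Agent.Helper38_TET.TB_289
import Pool.Agent.Helper38_TET.TB_290
import Pool.Agent.Helper38_TET.TB_291
import Pool.Agent.Helper38_TET.TB_292
import Pool.Agent.Helper38_TET.TB_331

/-!
# MP_c7c9bf_co: certificates, family TB
-/

set_option autoImplicit false
set_option maxRecDepth 100000

namespace Pool.Agent.TET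

theorem TB_u339 : CovZ TB_M (toL (selN TB_LN 1324694207824629961958636428867971713498796635117452200102941590586499085124918020509557719415162320881666274676642917908512)) [0, 7, 6, 1] (-16896, 14592) (-16704, 14592) (-16704, 14784) :=
    (CovZ.n2 (-16800, 14688) (by decide +kernel)
            (CovZ.n2 (-16704, 14688) (by decide +kernel)
             (CovZ.n2 (-16752, 14640) (by decide +kernel)
              (CovZ.n2 (-16752, 14688) (by decide +kernel)
               (CovZ.n2 (-16728, 14664) (by decide +kernel)
                (CovZ.n2 (-16752, 14664) (by decide +kernel)
                 (CovZ.n2 (-16740, 14676) (by decide +kernel)
                  (CovZ.leaf K2_ok TB_l26096 _)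
                  (CovZ.leaf K2_ok TB_l26097 _))
                 (CovZ.leaf K2_ok TB_l26098 _))
                (CovZ.subM 1324694207776446088059157079447976416951785524435707823308478730038674223808253976935405334367643111982406021368318181507072 (by decide +kernel)
                 (CovZ.n1 (-16728, 14688) (by decide +kernel)
                  (CovZ.n2 (-16716, 14676) (by decide +kernel)
                   (CovZ.n2 (-16728, 14676) (by decide +kernel)
                    (CovZ.n2 (-16722, 14682) (by decide +kernel)
                     (CovZ.leaf K2_ok TB_l42856 _)
                     (CovZ.leaf K2_ok TB_l42857 _))
                    (CovZ.n1 (-16722, 14670) (by decide +kernel)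
                     (CovZ.leaf K2_ok TB_l42858 _)
                     (CovZ.leaf K2_ok TB_l42859 _)))
                   (CovZ.subM 17498005798264095394980017816940970922825355447145699491406164851279623993595007385788105416184430592 (by decide +kernel)
                    (CovZ.n1 (-16716, 14688) (by decide +kernel)
                     (CovZ.n2 (-16710, 14682) (by decide +kernel)
                      (CovZ.n2 (-16716, 14682) (by decide +kernel)
                       (CovZ.badM (by decide +kernel))
                       (CovZ.n1 (-16713, 14679) (by decide +kernel)
                        (CovZ.leaf K2_ok TB_l42860 _)
                        (CovZ.badM (by decide +kernel))))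
                      (CovZ.badM (by decide +kernel)))
                     (CovZ.n1 (-16722, 14682) (by decide +kernel)
                      (CovZ.n2 (-16722, 14688) (by decide +kernel)
                       (CovZ.leaf K2_ok TB_l49664 _)
                       (CovZ.leaf K2_ok TB_l49665 _))
                      (CovZ.n1 (-16716, 14682) (by decide +kernel)
                       (CovZ.leaf K2_ok TB_l42861 _)
                       (CovZ.n1 (-16719, 14685) (by decide +kernel)
                        (CovZ.badM (by decide +kernel))
                        (CovZ.leaf K2_ok TB_l49666 _)))))))
                  (CovZ.n1 (-16740, 14676) (by decide +kernel)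
                   (CovZ.n2 (-16740, 14688) (by decide +kernel)
                    (CovZ.n2 (-16734, 14682) (by decide +kernel)
                     (CovZ.leaf K2_ok TB_l42862 _)
                     (CovZ.leaf K2_ok TB_l42863 _))
                    (CovZ.leaf K2_ok TB_l42864 _))
                   (CovZ.n1 (-16728, 14676) (by decide +kernel)
                    (CovZ.leaf K2_ok TB_l42865 _)
                    (CovZ.leaf K2_ok TB_l42866 _))))))
               (CovZ.n1 (-16776, 14664) (by decide +kernel)
                (CovZ.leaf K2_ok TB_l26099 _)
                (CovZ.n1 (-16752, 14664) (by decide +kernel)
                 (CovZ.leaf K2_ok TB_l26100 _)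
                 (CovZ.leaf K2_ok TB_l26101 _))))
              (CovZ.n1 (-16704, 14640) (by decide +kernel)
               (CovZ.n2 (-16728, 14616) (by decide +kernel)
                (CovZ.leaf K2_ok TB_l26102 _)
                (CovZ.leaf K2_ok TB_l26103 _))
               (CovZ.n1 (-16728, 14664) (by decide +kernel)
                (CovZ.subM 1324694207776446088059157079447976416703123906216340491076123081537317430631939913055072727564206053030894075142537329246208 (by decide +kernel)
                 (CovZ.n2 (-16704, 14664) (by decide +kernel)
                  (CovZ.n2 (-16716, 14652) (by decide +kernel)
                   (CovZ.leaf K2_ok TB_l42867 _)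
                   (CovZ.leaf K2_ok TB_l42868 _))
                  (CovZ.n1 (-16716, 14676) (by decide +kernel)
                   (CovZ.subM 17498005798264095394980017817824394455214547611937348241777624109193365942032816864848908516830740480 (by decide +kernel)
                    (CovZ.n2 (-16704, 14676) (by decide +kernel)
                     (CovZ.n2 (-16710, 14670) (by decide +kernel)
                      (CovZ.leaf K2_ok TB_l42869 _)
                      (CovZ.n1 (-16704, 14670) (by decide +kernel)
                       (CovZ.leaf K2_ok TB_l42870 _)
                       (CovZ.leaf K2_ok TB_l42871 _)))
                     (CovZ.n1 (-16710, 14682) (by decide +kernel)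
                      (CovZ.badM (by decide +kernel))
                      (CovZ.n1 (-16710, 14676) (by decide +kernel)
                       (CovZ.n2 (-16713, 14679) (by decide +kernel)
                        (CovZ.badM (by decide +kernel))
                        (CovZ.leaf K2_ok TB_l42872 _))
                       (CovZ.badM (by decide +kernel))))))
                   (CovZ.n1 (-16716, 14664) (by decide +kernel)
                    (CovZ.n2 (-16722, 14670) (by decide +kernel)
                     (CovZ.leaf K2_ok TB_l42873 _)
                     (CovZ.leaf K2_ok TB_l42874 _))
                    (CovZ.n1 (-16710, 14670) (by decide +kernel)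
                     (CovZ.leaf K2_ok TB_l42875 _)
                     (CovZ.n1 (-16716, 14670) (by decide +kernel)
                      (CovZ.leaf K2_ok TB_l42876 _)
                      (CovZ.leaf K2_ok TB_l42877 _)))))))
                (CovZ.n1 (-16728, 14640) (by decide +kernel)
                 (CovZ.leaf K2_ok TB_l26104 _)
                 (CovZ.n1 (-16716, 14652) (by decide +kernel)
                  (CovZ.leaf K2_ok TB_l26105 _)
                  (CovZ.leaf K2_ok TB_l26106 _))))))
             (CovZ.subM 1324694207776446088059157079447976420930371415714000077128004326021076153150225024221048024679266548515209862375076056268800 (by decide +kernel)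
              (CovZ.n1 (-16752, 14736) (by decide +kernel)
               (CovZ.badM (by decide +kernel))
               (CovZ.n1 (-16752, 14688) (by decide +kernel)
                (CovZ.n2 (-16776, 14712) (by decide +kernel)
                 (CovZ.n2 (-16752, 14712) (by decide +kernel)
                  (CovZ.n2 (-16764, 14700) (by decide +kernel)
                   (CovZ.leaf K2_ok TB_l42878 _)
                   (CovZ.n1 (-16752, 14700) (by decide +kernel)
                    (CovZ.leaf K2_ok TB_l42879 _)
                    (CovZ.n1 (-16758, 14706) (by decide +kernel)
                     (CovZ.n2 (-16752, 14706) (by decide +kernel)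
                      (CovZ.leaf K2_ok TB_l42880 _)
                      (CovZ.n1 (-16755, 14709) (by decide +kernel)
                       (CovZ.badM (by decide +kernel))
                       (CovZ.leaf K2_ok TB_l42881 _)))
                     (CovZ.leaf K2_ok TB_l42882 _))))
                  (CovZ.subM 1202536511674041755187379667926718230235236629281545197361539914197536127583328901439311367772579391214396112896 (by decide +kernel)
                   (CovZ.n1 (-16764, 14724) (by decide +kernel)
                    (CovZ.badM (by decide +kernel))
                    (CovZ.n1 (-16764, 14712) (by decide +kernel)
                     (CovZ.n2 (-16770, 14718) (by decide +kernel)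
                      (CovZ.n2 (-16764, 14718) (by decide +kernel)
                       (CovZ.leaf K2_ok TB_l42883 _)
                       (CovZ.n1 (-16767, 14721) (by decide +kernel)
                        (CovZ.badM (by decide +kernel))
                        (CovZ.leaf K2_ok TB_l42884 _)))
                      (CovZ.leaf K2_ok TB_l42885 _))
                     (CovZ.n1 (-16758, 14718) (by decide +kernel)
                      (CovZ.leaf K2_ok TB_l42886 _)
                      (CovZ.n1 (-16764, 14718) (by decide +kernel)
                       (CovZ.badM (by decide +kernel))
                       (CovZ.leaf K2_ok TB_l42887 _)))))))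
                 (CovZ.n1 (-16776, 14688) (by decide +kernel)
                  (CovZ.leaf K2_ok TB_l26107 _)
                  (CovZ.n1 (-16764, 14700) (by decide +kernel)
                   (CovZ.leaf K2_ok TB_l26108 _)
                   (CovZ.leaf K2_ok TB_l26109 _))))
                (CovZ.n1 (-16728, 14712) (by decide +kernel)
                 (CovZ.n2 (-16728, 14688) (by decide +kernel)
                  (CovZ.n2 (-16740, 14700) (by decide +kernel)
                   (CovZ.n2 (-16728, 14700) (by decide +kernel)
                    (CovZ.n2 (-16734, 14694) (by decide +kernel)
                     (CovZ.badM (by decide +kernel))
                     (CovZ.badM (by decide +kernel)))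
                    (CovZ.badM (by decide +kernel)))
                   (CovZ.n1 (-16740, 14688) (by decide +kernel)
                    (CovZ.n2 (-16746, 14694) (by decide +kernel)
                     (CovZ.n2 (-16740, 14694) (by decide +kernel)
                      (CovZ.leaf K2_ok TB_l42888 _)
                      (CovZ.leaf K2_ok TB_l42889 _))
                     (CovZ.leaf K2_ok TB_l42890 _))
                    (CovZ.subM 2582249879289435927352994972670012640160578821575469331363952433045347768393817247593642925519101143652514434699518541824 (by decide +kernel)
                     (CovZ.n1 (-16734, 14694) (by decide +kernel)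
                      (CovZ.leaf K2_ok TB_l42891 _)
                      (CovZ.n1 (-16740, 14694) (by decide +kernel)
                       (CovZ.n2 (-16737, 14697) (by decide +kernel)
                        (CovZ.leaf K2_ok TB_l42892 _)
                        (CovZ.leaf K2_ok TB_l42893 _))
                       (CovZ.leaf K2_ok TB_l42894 _))))))
                  (CovZ.badM (by decide +kernel)))
                 (CovZ.n1 (-16752, 14712) (by decide +kernel)
                  (CovZ.badM (by decide +kernel))
                  (CovZ.n1 (-16740, 14700) (by decide +kernel)
                   (CovZ.n2 (-16752, 14700) (by decide +kernel)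
                    (CovZ.subM 1202527337679577794868736546105054265255486707235610861806858037476934611607878306544821527120311690885144248320 (by decide +kernel)
                     (CovZ.n2 (-16746, 14706) (by decide +kernel)
                      (CovZ.n2 (-16746, 14700) (by decide +kernel)
                       (CovZ.leaf K2_ok TB_l42895 _)
                       (CovZ.leaf K2_ok TB_l42896 _))
                      (CovZ.n1 (-16752, 14706) (by decide +kernel)
                       (CovZ.badM (by decide +kernel))
                       (CovZ.leaf K2_ok TB_l42897 _))))
                    (CovZ.n1 (-16746, 14694) (by decide +kernel)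
                     (CovZ.leaf K2_ok TB_l42898 _)
                     (CovZ.leaf K2_ok TB_l42899 _)))
                   (CovZ.badM (by decide +kernel)))))))))
            (CovZ.n1 (-16800, 14592) (by decide +kernel)
             (CovZ.n2 (-16848, 14640) (by decide +kernel)
              (CovZ.n2 (-16800, 14640) (by decide +kernel)
               (CovZ.leaf K2_ok TB_l26110 _)
               (CovZ.leaf K2_ok TB_l26111 _))
              (CovZ.leaf K2_ok TB_l26112 _))
             (CovZ.n1 (-16752, 14640) (by decide +kernel)
              (CovZ.n2 (-16752, 14592) (by decide +kernel)
               (CovZ.leaf K2_ok TB_l26113 _)
               (CovZ.n1 (-16728, 14616) (by decide +kernel)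
                (CovZ.leaf K2_ok TB_l26114 _)
                (CovZ.leaf K2_ok TB_l26115 _)))
              (CovZ.n1 (-16800, 14640) (by decide +kernel)
               (CovZ.n2 (-16776, 14664) (by decide +kernel)
                (CovZ.leaf K2_ok TB_l26116 _)
                (CovZ.leaf K2_ok TB_l26117 _))
               (CovZ.leaf K2_ok TB_l26118 _)))))

theorem TB_u340 : CovZ TB_M (toL (selN TB_LN 1324694207824629961958636428867971713498796635117452200102941590586499085124918020509557719415162320881666274676642917908512)) [0, 7, 6, 1] (-16704, 14592) (-16512, 14592) (-16704, 14784) :=
    (CovZ.n1 (-16608, 14688) (by decide +kernel)
            (CovZ.n2 (-16608, 14592) (by decide +kernel)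
             (CovZ.n2 (-16656, 14640) (by decide +kernel)
              (CovZ.subM 10568441622482249525757307723944972426812271869096080249652059103352135890835467168790473532535158388155219968 (by decide +kernel)
               (CovZ.n2 (-16608, 14640) (by decide +kernel)
                (CovZ.n2 (-16632, 14616) (by decide +kernel)
                 (CovZ.badM (by decide +kernel))
                 (CovZ.n1 (-16608, 14616) (by decide +kernel)
                  (CovZ.n2 (-16620, 14604) (by decide +kernel)
                   (CovZ.badM (by decide +kernel))
                   (CovZ.badM (by decide +kernel)))
                  (CovZ.badM (by decide +kernel))))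
                (CovZ.badM (by decide +kernel))))
              (CovZ.n1 (-16656, 14592) (by decide +kernel)
               (CovZ.n2 (-16680, 14616) (by decide +kernel)
                (CovZ.subM 1324694207824554808595987666204678736633093473509393012396598114420379069028011019329057504211161389088016727639798830858240 (by decide +kernel)
                 (CovZ.n2 (-16656, 14616) (by decide +kernel)
                  (CovZ.leaf K2_ok TB_l42900 _)
                  (CovZ.n1 (-16668, 14628) (by decide +kernel)
                   (CovZ.n2 (-16656, 14628) (by decide +kernel)
                    (CovZ.leaf K2_ok TB_l42901 _)
                    (CovZ.n1 (-16662, 14634) (by decide +kernel)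
                     (CovZ.badM (by decide +kernel))
                     (CovZ.leaf K2_ok TB_l42902 _)))
                   (CovZ.leaf K2_ok TB_l42903 _))))
                (CovZ.n1 (-16680, 14592) (by decide +kernel)
                 (CovZ.leaf K2_ok TB_l26119 _)
                 (CovZ.leaf K2_ok TB_l26120 _)))
               (CovZ.subM 1324694207824554808595987666204678736633093473509392128973065725228214277379260647869799590469212951278537666836698184548352 (by decide +kernel)
                (CovZ.n1 (-16632, 14616) (by decide +kernel)
                 (CovZ.n2 (-16632, 14592) (by decide +kernel)
                  (CovZ.n2 (-16644, 14604) (by decide +kernel)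
                   (CovZ.n2 (-16632, 14604) (by decide +kernel)
                    (CovZ.leaf K2_ok TB_l42904 _)
                    (CovZ.n1 (-16638, 14610) (by decide +kernel)
                     (CovZ.n2 (-16632, 14610) (by decide +kernel)
                      (CovZ.leaf K2_ok TB_l42905 _)
                      (CovZ.leaf K2_ok TB_l42906 _))
                     (CovZ.leaf K2_ok TB_l42907 _)))
                   (CovZ.leaf K2_ok TB_l42908 _))
                  (CovZ.n1 (-16620, 14604) (by decide +kernel)
                   (CovZ.n2 (-16620, 14592) (by decide +kernel)
                    (CovZ.n2 (-16626, 14598) (by decide +kernel)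
                     (CovZ.n2 (-16620, 14598) (by decide +kernel)
                      (CovZ.leaf K2_ok TB_l42909 _)
                      (CovZ.leaf K2_ok TB_l42910 _))
                     (CovZ.leaf K2_ok TB_l42911 _))
                    (CovZ.subM 2582249887715933179046133412669627626502596060971185030510396991116862213568784042613671550509620344938657156602815053824 (by decide +kernel)
                     (CovZ.n1 (-16614, 14598) (by decide +kernel)
                      (CovZ.n2 (-16614, 14592) (by decide +kernel)
                       (CovZ.leaf K2_ok TB_l42912 _)
                       (CovZ.badM (by decide +kernel)))
                      (CovZ.n1 (-16620, 14598) (by decide +kernel)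
                       (CovZ.badM (by decide +kernel))
                       (CovZ.n1 (-16617, 14595) (by decide +kernel)
                        (CovZ.leaf K2_ok TB_l42915 _)
                        (CovZ.badM (by decide +kernel)))))))
                   (CovZ.n1 (-16632, 14604) (by decide +kernel)
                    (CovZ.subM 9619630419041620902478274944332381340300239912794079808875415636952887527195140094496754322862841001184705118208 (by decide +kernel)
                     (CovZ.n2 (-16626, 14610) (by decide +kernel)
                      (CovZ.n2 (-16626, 14604) (by decide +kernel)
                       (CovZ.leaf K2_ok TB_l42917 _)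
                       (CovZ.badM (by decide +kernel)))
                      (CovZ.n1 (-16632, 14610) (by decide +kernel)
                       (CovZ.badM (by decide +kernel))
                       (CovZ.n1 (-16629, 14607) (by decide +kernel)
                        (CovZ.leaf K2_ok TB_l42918 _)
                        (CovZ.badM (by decide +kernel))))))
                    (CovZ.n1 (-16626, 14598) (by decide +kernel)
                     (CovZ.leaf K2_ok TB_l42919 _)
                     (CovZ.leaf K2_ok TB_l42920 _)))))
                 (CovZ.n1 (-16656, 14616) (by decide +kernel)
                  (CovZ.subM 2582269589912173717628685974986976426542942180361722176587735146390417023467643190108427711265322070307530131167602802688 (by decide +kernel)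
                   (CovZ.n2 (-16644, 14628) (by decide +kernel)
                    (CovZ.n2 (-16644, 14616) (by decide +kernel)
                     (CovZ.n2 (-16650, 14622) (by decide +kernel)
                      (CovZ.badM (by decide +kernel))
                      (CovZ.leaf K2_ok TB_l42921 _))
                     (CovZ.badM (by decide +kernel)))
                    (CovZ.n1 (-16656, 14628) (by decide +kernel)
                     (CovZ.badM (by decide +kernel))
                     (CovZ.n1 (-16650, 14622) (by decide +kernel)
                      (CovZ.leaf K2_ok TB_l42922 _)
                      (CovZ.badM (by decide +kernel))))))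
                  (CovZ.n1 (-16644, 14604) (by decide +kernel)
                   (CovZ.leaf K2_ok TB_l42923 _)
                   (CovZ.n1 (-16644, 14616) (by decide +kernel)
                    (CovZ.n2 (-16638, 14610) (by decide +kernel)
                     (CovZ.leaf K2_ok TB_l42924 _)
                     (CovZ.leaf K2_ok TB_l42925 _))
                    (CovZ.leaf K2_ok TB_l42926 _))))))))
             (CovZ.badM (by decide +kernel)))
            (CovZ.n1 (-16704, 14688) (by decide +kernel)
             (CovZ.badM (by decide +kernel))
             (CovZ.n1 (-16656, 14640) (by decide +kernel)
              (CovZ.n2 (-16704, 14640) (by decide +kernel)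
               (CovZ.subM 1324694207776446088059157079447976416703123906216340491076123081537317430631939913055072727564206053030894075142537329246208 (by decide +kernel)
                (CovZ.n2 (-16680, 14664) (by decide +kernel)
                 (CovZ.n2 (-16680, 14640) (by decide +kernel)
                  (CovZ.n2 (-16692, 14652) (by decide +kernel)
                   (CovZ.subM 2582249878086982124972792359990598201611744156290941916987705675985094652399456876715681983102918814795060979755711987712 (by decide +kernel)
                    (CovZ.n2 (-16680, 14652) (by decide +kernel)
                     (CovZ.n2 (-16686, 14646) (by decide +kernel)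
                      (CovZ.n2 (-16686, 14652) (by decide +kernel)
                       (CovZ.n2 (-16683, 14649) (by decide +kernel)
                        (CovZ.leaf K2_ok TB_l42927 _)
                        (CovZ.badM (by decide +kernel)))
                       (CovZ.leaf K2_ok TB_l42928 _))
                      (CovZ.leaf K2_ok TB_l42929 _))
                     (CovZ.n1 (-16686, 14658) (by decide +kernel)
                      (CovZ.badM (by decide +kernel))
                      (CovZ.n1 (-16686, 14652) (by decide +kernel)
                       (CovZ.n2 (-16689, 14655) (by decide +kernel)
                        (CovZ.badM (by decide +kernel))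
                        (CovZ.leaf K2_ok TB_l42930 _))
                       (CovZ.badM (by decide +kernel))))))
                   (CovZ.leaf K2_ok TB_l42931 _))
                  (CovZ.subM 2582249878086982124972792359990598201611744156290941916987705675985094652399456876715681983102918814795060979755711987712 (by decide +kernel)
                   (CovZ.n1 (-16668, 14652) (by decide +kernel)
                    (CovZ.n2 (-16668, 14640) (by decide +kernel)
                     (CovZ.n2 (-16674, 14646) (by decide +kernel)
                      (CovZ.badM (by decide +kernel))
                      (CovZ.n1 (-16674, 14640) (by decide +kernel)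
                       (CovZ.leaf K2_ok TB_l42932 _)
                       (CovZ.badM (by decide +kernel))))
                     (CovZ.badM (by decide +kernel)))
                    (CovZ.n1 (-16680, 14652) (by decide +kernel)
                     (CovZ.badM (by decide +kernel))
                     (CovZ.n1 (-16674, 14646) (by decide +kernel)
                      (CovZ.leaf K2_ok TB_l42933 _)
                      (CovZ.badM (by decide +kernel)))))))
                 (CovZ.n1 (-16704, 14664) (by decide +kernel)
                  (CovZ.subM 17498005798264095394980017817824394455214547611937348241777624109193365942032816864848908516830740480 (by decide +kernel)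
                   (CovZ.n2 (-16692, 14676) (by decide +kernel)
                    (CovZ.n2 (-16692, 14664) (by decide +kernel)
                     (CovZ.n2 (-16698, 14670) (by decide +kernel)
                      (CovZ.badM (by decide +kernel))
                      (CovZ.leaf K2_ok TB_l42934 _))
                     (CovZ.badM (by decide +kernel)))
                    (CovZ.n1 (-16704, 14676) (by decide +kernel)
                     (CovZ.badM (by decide +kernel))
                     (CovZ.n1 (-16698, 14670) (by decide +kernel)
                      (CovZ.n2 (-16704, 14670) (by decide +kernel)
                       (CovZ.badM (by decide +kernel))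
                       (CovZ.n1 (-16701, 14667) (by decide +kernel)
                        (CovZ.leaf K2_ok TB_l42935 _)
                        (CovZ.badM (by decide +kernel))))
                      (CovZ.badM (by decide +kernel))))))
                  (CovZ.n1 (-16692, 14652) (by decide +kernel)
                   (CovZ.leaf K2_ok TB_l42936 _)
                   (CovZ.subM 2582249878086908589673417178322757179666788533129286050655129660136356464707665492758881138007197879304262689451533139968 (by decide +kernel)
                    (CovZ.n1 (-16692, 14664) (by decide +kernel)
                     (CovZ.n2 (-16686, 14658) (by decide +kernel)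
                      (CovZ.n2 (-16692, 14658) (by decide +kernel)
                       (CovZ.badM (by decide +kernel))
                       (CovZ.n1 (-16689, 14655) (by decide +kernel)
                        (CovZ.leaf K2_ok TB_l42937 _)
                        (CovZ.badM (by decide +kernel))))
                      (CovZ.badM (by decide +kernel)))
                     (CovZ.n1 (-16698, 14658) (by decide +kernel)
                      (CovZ.n2 (-16698, 14664) (by decide +kernel)
                       (CovZ.leaf K2_ok TB_l42938 _)
                       (CovZ.leaf K2_ok TB_l42939 _))
                      (CovZ.leaf K2_ok TB_l42940 _))))))))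
               (CovZ.n1 (-16680, 14616) (by decide +kernel)
                (CovZ.n2 (-16704, 14616) (by decide +kernel)
                 (CovZ.leaf K2_ok TB_l26121 _)
                 (CovZ.leaf K2_ok TB_l26122 _))
                (CovZ.subM 1324694207786075112648529795682323287165501539173623627671335150475778661431404219011289112394024253454648960107104501235712 (by decide +kernel)
                 (CovZ.n1 (-16680, 14640) (by decide +kernel)
                  (CovZ.n2 (-16668, 14628) (by decide +kernel)
                   (CovZ.leaf K2_ok TB_l42941 _)
                   (CovZ.subM 2582269579090089496206862460839657260916325379025030465870581578101100091587820462162790246194293171837777810173869424640 (by decide +kernel)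
                    (CovZ.n1 (-16668, 14640) (by decide +kernel)
                     (CovZ.n2 (-16662, 14634) (by decide +kernel)
                      (CovZ.n2 (-16668, 14634) (by decide +kernel)
                       (CovZ.leaf K2_ok TB_l49667 _)
                       (CovZ.leaf K2_ok TB_l42942 _))
                      (CovZ.badM (by decide +kernel)))
                     (CovZ.n1 (-16674, 14634) (by decide +kernel)
                      (CovZ.leaf K2_ok TB_l42943 _)
                      (CovZ.n1 (-16668, 14634) (by decide +kernel)
                       (CovZ.leaf K2_ok TB_l42944 _)
                       (CovZ.n1 (-16671, 14637) (by decide +kernel)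
                        (CovZ.leaf K2_ok TB_l49668 _)
                        (CovZ.leaf K2_ok TB_l42945 _)))))))
                  (CovZ.leaf K2_ok TB_l42946 _)))))
              (CovZ.badM (by decide +kernel)))))

theorem TB_u341 : CovZ TB_M (toL (selN TB_LN 2710218140521003545180016062453378437847885135589550157910325380433044809850601155169237797118205639638068134464)) [0, 7, 6, 1] (-16896, 14976) (-16704, 14976) (-16704, 15168) :=
    (CovZ.n2 (-16800, 15072) (by decide +kernel)
            (CovZ.n2 (-16704, 15072) (by decide +kernel)
             (CovZ.subM 305310535760598319625632477612971720353793269849585348564894204290163035758222687429391363101716138710238625792 (by decide +kernel)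
              (CovZ.n2 (-16752, 15024) (by decide +kernel)
               (CovZ.n2 (-16752, 15072) (by decide +kernel)
                (CovZ.n2 (-16728, 15048) (by decide +kernel)
                 (CovZ.n2 (-16752, 15048) (by decide +kernel)
                  (CovZ.leaf K2_ok TB_l26123 _)
                  (CovZ.leaf K2_ok TB_l26124 _))
                 (CovZ.n1 (-16728, 15072) (by decide +kernel)
                  (CovZ.leaf K2_ok TB_l26125 _)
                  (CovZ.leaf K2_ok TB_l26126 _)))
                (CovZ.n1 (-16776, 15048) (by decide +kernel)
                 (CovZ.n2 (-16776, 15072) (by decide +kernel)
                  (CovZ.leaf K2_ok TB_l26127 _)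
                  (CovZ.leaf K2_ok TB_l26128 _))
                 (CovZ.n1 (-16752, 15048) (by decide +kernel)
                  (CovZ.leaf K2_ok TB_l26129 _)
                  (CovZ.leaf K2_ok TB_l26130 _))))
               (CovZ.n1 (-16704, 15024) (by decide +kernel)
                (CovZ.n2 (-16728, 15000) (by decide +kernel)
                 (CovZ.n2 (-16728, 15024) (by decide +kernel)
                  (CovZ.leaf K2_ok TB_l26131 _)
                  (CovZ.n1 (-16740, 15012) (by decide +kernel)
                   (CovZ.leaf K2_ok TB_l26132 _)
                   (CovZ.leaf K2_ok TB_l26133 _)))
                 (CovZ.subM 305310535760598319625632477612971720346725015502185129032257610609331691189277361228817272487879184806272172032 (by decide +kernel)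
                  (CovZ.n1 (-16704, 15000) (by decide +kernel)
                   (CovZ.n2 (-16716, 14988) (by decide +kernel)
                    (CovZ.leaf K2_ok TB_l42947 _)
                    (CovZ.leaf K2_ok TB_l42948 _))
                   (CovZ.n1 (-16716, 15012) (by decide +kernel)
                    (CovZ.leaf K2_ok TB_l26134 _)
                    (CovZ.leaf K2_ok TB_l42949 _)))))
                (CovZ.n1 (-16728, 15048) (by decide +kernel)
                 (CovZ.n2 (-16704, 15048) (by decide +kernel)
                  (CovZ.leaf K2_ok TB_l26135 _)
                  (CovZ.leaf K2_ok TB_l26136 _))
                 (CovZ.n1 (-16728, 15024) (by decide +kernel)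
                  (CovZ.leaf K2_ok TB_l26137 _)
                  (CovZ.leaf K2_ok TB_l26138 _))))))
             (CovZ.n1 (-16752, 15120) (by decide +kernel)
              (CovZ.n2 (-16704, 15120) (by decide +kernel)
               (CovZ.n2 (-16728, 15096) (by decide +kernel)
                (CovZ.leaf K2_ok TB_l26139 _)
                (CovZ.leaf K2_ok TB_l26140 _))
               (CovZ.leaf K2_ok TB_l26141 _))
              (CovZ.subM 305310535760598319690817628855675275114383531878685449718541192887472995778579181808731583583608844786688196608 (by decide +kernel)
               (CovZ.n1 (-16752, 15072) (by decide +kernel)
                (CovZ.n2 (-16776, 15096) (by decide +kernel)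
                 (CovZ.leaf K2_ok TB_l26142 _)
                 (CovZ.leaf K2_ok TB_l26143 _))
                (CovZ.n1 (-16728, 15096) (by decide +kernel)
                 (CovZ.n2 (-16728, 15072) (by decide +kernel)
                  (CovZ.leaf K2_ok TB_l26144 _)
                  (CovZ.leaf K2_ok TB_l26145 _))
                 (CovZ.leaf K2_ok TB_l26146 _))))))
            (CovZ.subM 305310535760598319625632477612971720353793269849585348564894204290163035758222687429391363101716138710238625792 (by decide +kernel)
             (CovZ.n1 (-16800, 14976) (by decide +kernel)
              (CovZ.n2 (-16848, 15024) (by decide +kernel)
               (CovZ.n2 (-16800, 15024) (by decide +kernel)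
                (CovZ.n2 (-16824, 15000) (by decide +kernel)
                 (CovZ.n2 (-16824, 15024) (by decide +kernel)
                  (CovZ.leaf K2_ok TB_l26147 _)
                  (CovZ.leaf K2_ok TB_l26148 _))
                 (CovZ.n1 (-16800, 15000) (by decide +kernel)
                  (CovZ.n2 (-16812, 14988) (by decide +kernel)
                   (CovZ.leaf K2_ok TB_l26149 _)
                   (CovZ.leaf K2_ok TB_l42950 _))
                  (CovZ.leaf K2_ok TB_l26150 _)))
                (CovZ.n1 (-16824, 15048) (by decide +kernel)
                 (CovZ.leaf K2_ok TB_l26151 _)
                 (CovZ.n1 (-16824, 15024) (by decide +kernel)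
                  (CovZ.leaf K2_ok TB_l26152 _)
                  (CovZ.leaf K2_ok TB_l26153 _))))
               (CovZ.n1 (-16848, 14976) (by decide +kernel)
                (CovZ.n2 (-16872, 15000) (by decide +kernel)
                 (CovZ.n2 (-16848, 15000) (by decide +kernel)
                  (CovZ.n2 (-16860, 14988) (by decide +kernel)
                   (CovZ.leaf K2_ok TB_l26154 _)
                   (CovZ.leaf K2_ok TB_l26155 _))
                  (CovZ.leaf K2_ok TB_l26156 _))
                 (CovZ.n1 (-16872, 14976) (by decide +kernel)
                  (CovZ.n2 (-16884, 14988) (by decide +kernel)
                   (CovZ.leaf K2_ok TB_l26157 _)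
                   (CovZ.leaf K2_ok TB_l26158 _))
                  (CovZ.n1 (-16860, 14988) (by decide +kernel)
                   (CovZ.leaf K2_ok TB_l42951 _)
                   (CovZ.leaf K2_ok TB_l26159 _))))
                (CovZ.n1 (-16824, 15000) (by decide +kernel)
                 (CovZ.n2 (-16824, 14976) (by decide +kernel)
                  (CovZ.n2 (-16836, 14988) (by decide +kernel)
                   (CovZ.leaf K2_ok TB_l26160 _)
                   (CovZ.n1 (-16836, 14976) (by decide +kernel)
                    (CovZ.leaf K2_ok TB_l42952 _)
                    (CovZ.leaf K2_ok TB_l42953 _)))
                  (CovZ.n1 (-16812, 14988) (by decide +kernel)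
                   (CovZ.leaf K2_ok TB_l42954 _)
                   (CovZ.leaf K2_ok TB_l26161 _)))
                 (CovZ.n1 (-16848, 15000) (by decide +kernel)
                  (CovZ.leaf K2_ok TB_l26162 _)
                  (CovZ.n1 (-16836, 14988) (by decide +kernel)
                   (CovZ.leaf K2_ok TB_l26163 _)
                   (CovZ.leaf K2_ok TB_l26164 _))))))
              (CovZ.n1 (-16752, 15024) (by decide +kernel)
               (CovZ.n2 (-16752, 14976) (by decide +kernel)
                (CovZ.n2 (-16776, 15000) (by decide +kernel)
                 (CovZ.n2 (-16752, 15000) (by decide +kernel)
                  (CovZ.n2 (-16764, 14988) (by decide +kernel)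
                   (CovZ.leaf K2_ok TB_l42955 _)
                   (CovZ.leaf K2_ok TB_l42956 _))
                  (CovZ.leaf K2_ok TB_l26165 _))
                 (CovZ.subM 305310535760598319625632477612971720346725015502185129032257610609331691189277361228817272487879184806272040960 (by decide +kernel)
                  (CovZ.n1 (-16776, 14976) (by decide +kernel)
                   (CovZ.n2 (-16788, 14988) (by decide +kernel)
                    (CovZ.leaf K2_ok TB_l42957 _)
                    (CovZ.leaf K2_ok TB_l42958 _))
                   (CovZ.n1 (-16764, 14988) (by decide +kernel)
                    (CovZ.n2 (-16764, 14976) (by decide +kernel)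
                     (CovZ.leaf K2_ok TB_l42959 _)
                     (CovZ.leaf K2_ok TB_l42960 _))
                    (CovZ.leaf K2_ok TB_l42961 _)))))
                (CovZ.n1 (-16728, 15000) (by decide +kernel)
                 (CovZ.subM 305310535760598319625632477612971720346725015502185129032257610609331691189277361228817272487879184806272040960 (by decide +kernel)
                  (CovZ.n2 (-16728, 14976) (by decide +kernel)
                   (CovZ.n2 (-16740, 14988) (by decide +kernel)
                    (CovZ.leaf K2_ok TB_l42962 _)
                    (CovZ.n1 (-16740, 14976) (by decide +kernel)
                     (CovZ.leaf K2_ok TB_l42963 _)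
                     (CovZ.leaf K2_ok TB_l42964 _)))
                   (CovZ.n1 (-16716, 14988) (by decide +kernel)
                    (CovZ.n2 (-16716, 14976) (by decide +kernel)
                     (CovZ.leaf K2_ok TB_l42965 _)
                     (CovZ.leaf K2_ok TB_l42966 _))
                    (CovZ.leaf K2_ok TB_l42967 _))))
                 (CovZ.n1 (-16752, 15000) (by decide +kernel)
                  (CovZ.n2 (-16740, 15012) (by decide +kernel)
                   (CovZ.leaf K2_ok TB_l42968 _)
                   (CovZ.leaf K2_ok TB_l26166 _))
                  (CovZ.n1 (-16740, 14988) (by decide +kernel)
                   (CovZ.leaf K2_ok TB_l42969 _)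
                   (CovZ.leaf K2_ok TB_l42970 _)))))
               (CovZ.n1 (-16800, 15024) (by decide +kernel)
                (CovZ.n2 (-16776, 15048) (by decide +kernel)
                 (CovZ.n2 (-16776, 15024) (by decide +kernel)
                  (CovZ.leaf K2_ok TB_l26167 _)
                  (CovZ.leaf K2_ok TB_l26168 _))
                 (CovZ.leaf K2_ok TB_l26169 _))
                (CovZ.n1 (-16776, 15000) (by decide +kernel)
                 (CovZ.n2 (-16800, 15000) (by decide +kernel)
                  (CovZ.n2 (-16788, 15012) (by decide +kernel)
                   (CovZ.leaf K2_ok TB_l26170 _)
                   (CovZ.leaf K2_ok TB_l26171 _))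
                  (CovZ.n1 (-16788, 14988) (by decide +kernel)
                   (CovZ.leaf K2_ok TB_l42971 _)
                   (CovZ.leaf K2_ok TB_l42972 _)))
                 (CovZ.n1 (-16776, 15024) (by decide +kernel)
                  (CovZ.leaf K2_ok TB_l26172 _)
                  (CovZ.leaf K2_ok TB_l26173 _))))))))

theorem TB_u342 : CovZ TB_M (toL (selN TB_LN 2710218140521003545180016062453378437847885135589550157910325380433044809850601155169237797118205639638068134464)) [0, 7, 6, 1] (-16704, 14976) (-16512, 14976) (-16704, 15168) :=
    (CovZ.n1 (-16608, 15072) (by decide +kernel)
            (CovZ.subM 305310535760598319625632477612971720346725015502185129032257610609331691189277361248624313153338757352077262848 (by decide +kernel)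
             (CovZ.n2 (-16608, 14976) (by decide +kernel)
              (CovZ.n2 (-16656, 15024) (by decide +kernel)
               (CovZ.n2 (-16608, 15024) (by decide +kernel)
                (CovZ.n2 (-16632, 15000) (by decide +kernel)
                 (CovZ.n2 (-16632, 15024) (by decide +kernel)
                  (CovZ.n2 (-16620, 15012) (by decide +kernel)
                   (CovZ.leaf K2_ok TB_l42973 _)
                   (CovZ.leaf K2_ok TB_l42974 _))
                  (CovZ.n1 (-16644, 15012) (by decide +kernel)
                   (CovZ.leaf K2_ok TB_l26174 _)
                   (CovZ.leaf K2_ok TB_l26175 _)))
                 (CovZ.n1 (-16608, 15000) (by decide +kernel)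
                  (CovZ.n2 (-16620, 14988) (by decide +kernel)
                   (CovZ.n2 (-16620, 15000) (by decide +kernel)
                    (CovZ.leaf K2_ok TB_l42975 _)
                    (CovZ.leaf K2_ok TB_l42976 _))
                   (CovZ.leaf K2_ok TB_l42977 _))
                  (CovZ.n1 (-16620, 15012) (by decide +kernel)
                   (CovZ.leaf K2_ok TB_l42978 _)
                   (CovZ.n1 (-16620, 15000) (by decide +kernel)
                    (CovZ.leaf K2_ok TB_l42979 _)
                    (CovZ.leaf K2_ok TB_l42980 _)))))
                (CovZ.n1 (-16632, 15048) (by decide +kernel)
                 (CovZ.n2 (-16608, 15048) (by decide +kernel)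
                  (CovZ.leaf K2_ok TB_l26176 _)
                  (CovZ.leaf K2_ok TB_l26177 _))
                 (CovZ.n1 (-16632, 15024) (by decide +kernel)
                  (CovZ.leaf K2_ok TB_l26178 _)
                  (CovZ.leaf K2_ok TB_l26179 _))))
               (CovZ.n1 (-16656, 14976) (by decide +kernel)
                (CovZ.n2 (-16680, 15000) (by decide +kernel)
                 (CovZ.n2 (-16656, 15000) (by decide +kernel)
                  (CovZ.subM 305310535760598319625632477612971720346724799822611791827139253273210995032231972131661892163299265608645869568 (by decide +kernel)
                   (CovZ.n2 (-16668, 14988) (by decide +kernel)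
                    (CovZ.n2 (-16668, 15000) (by decide +kernel)
                     (CovZ.leaf K2_ok TB_l42981 _)
                     (CovZ.leaf K2_ok TB_l42982 _))
                    (CovZ.n1 (-16656, 14988) (by decide +kernel)
                     (CovZ.leaf K2_ok TB_l42983 _)
                     (CovZ.leaf K2_ok TB_l42984 _))))
                  (CovZ.n1 (-16668, 15012) (by decide +kernel)
                   (CovZ.leaf K2_ok TB_l26180 _)
                   (CovZ.leaf K2_ok TB_l26181 _)))
                 (CovZ.subM 305310535760598319625632477612971720346724799822611791827139253273210995032231972131661892163299265608645869568 (by decide +kernel)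
                  (CovZ.n1 (-16680, 14976) (by decide +kernel)
                   (CovZ.n2 (-16692, 14988) (by decide +kernel)
                    (CovZ.leaf K2_ok TB_l42985 _)
                    (CovZ.n1 (-16692, 14976) (by decide +kernel)
                     (CovZ.leaf K2_ok TB_l42986 _)
                     (CovZ.leaf K2_ok TB_l42987 _)))
                   (CovZ.n1 (-16668, 14988) (by decide +kernel)
                    (CovZ.leaf K2_ok TB_l42988 _)
                    (CovZ.leaf K2_ok TB_l42989 _)))))
                (CovZ.n1 (-16632, 15000) (by decide +kernel)
                 (CovZ.subM 4697085165547666455778961223936580842637426822360181588946060250334468062654422959022314734905751344655630336 (by decide +kernel)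
                  (CovZ.n2 (-16632, 14976) (by decide +kernel)
                   (CovZ.n2 (-16644, 14988) (by decide +kernel)
                    (CovZ.leaf K2_ok TB_l42990 _)
                    (CovZ.n1 (-16644, 14976) (by decide +kernel)
                     (CovZ.leaf K2_ok TB_l42991 _)
                     (CovZ.leaf K2_ok TB_l42992 _)))
                   (CovZ.n1 (-16620, 14988) (by decide +kernel)
                    (CovZ.n2 (-16620, 14976) (by decide +kernel)
                     (CovZ.leaf K2_ok TB_l42993 _)
                     (CovZ.leaf K2_ok TB_l42994 _))
                    (CovZ.leaf K2_ok TB_l42995 _))))
                 (CovZ.n1 (-16656, 15000) (by decide +kernel)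
                  (CovZ.n2 (-16644, 15012) (by decide +kernel)
                   (CovZ.leaf K2_ok TB_l26182 _)
                   (CovZ.leaf K2_ok TB_l26183 _))
                  (CovZ.n1 (-16644, 14988) (by decide +kernel)
                   (CovZ.leaf K2_ok TB_l42996 _)
                   (CovZ.leaf K2_ok TB_l42997 _))))))
              (CovZ.n1 (-16560, 15024) (by decide +kernel)
               (CovZ.n2 (-16560, 14976) (by decide +kernel)
                (CovZ.n2 (-16584, 15000) (by decide +kernel)
                 (CovZ.n2 (-16560, 15000) (by decide +kernel)
                  (CovZ.n2 (-16572, 14988) (by decide +kernel)
                   (CovZ.leaf K2_ok TB_l42998 _)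
                   (CovZ.leaf K2_ok TB_l42999 _))
                  (CovZ.n1 (-16572, 15012) (by decide +kernel)
                   (CovZ.leaf K2_ok TB_l43000 _)
                   (CovZ.n1 (-16572, 15000) (by decide +kernel)
                    (CovZ.leaf K2_ok TB_l43001 _)
                    (CovZ.leaf K2_ok TB_l43002 _))))
                 (CovZ.subM 4697085165547666455778961223936580842637426822360181588946060250334468062654422959022314734905751344655630336 (by decide +kernel)
                  (CovZ.n1 (-16584, 14976) (by decide +kernel)
                   (CovZ.n2 (-16596, 14988) (by decide +kernel)
                    (CovZ.leaf K2_ok TB_l43003 _)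
                    (CovZ.n1 (-16596, 14976) (by decide +kernel)
                     (CovZ.leaf K2_ok TB_l43004 _)
                     (CovZ.leaf K2_ok TB_l43005 _)))
                   (CovZ.n1 (-16572, 14988) (by decide +kernel)
                    (CovZ.n2 (-16572, 14976) (by decide +kernel)
                     (CovZ.leaf K2_ok TB_l43006 _)
                     (CovZ.leaf K2_ok TB_l43007 _))
                    (CovZ.leaf K2_ok TB_l43008 _)))))
                (CovZ.n1 (-16536, 15000) (by decide +kernel)
                 (CovZ.subM 4697085165547666455778961193578674054754815970990035023308299320995556562955442441413483190047118668175769600 (by decide +kernel)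
                  (CovZ.n2 (-16536, 14976) (by decide +kernel)
                   (CovZ.n2 (-16548, 14988) (by decide +kernel)
                    (CovZ.n2 (-16536, 14988) (by decide +kernel)
                     (CovZ.leaf K2_ok TB_l43009 _)
                     (CovZ.leaf K2_ok TB_l43010 _))
                    (CovZ.n1 (-16548, 14976) (by decide +kernel)
                     (CovZ.leaf K2_ok TB_l43011 _)
                     (CovZ.leaf K2_ok TB_l43012 _)))
                   (CovZ.n1 (-16524, 14988) (by decide +kernel)
                    (CovZ.n2 (-16524, 14976) (by decide +kernel)
                     (CovZ.leaf K2_ok TB_l43013 _)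
                     (CovZ.leaf K2_ok TB_l43014 _))
                    (CovZ.leaf K2_ok TB_l43015 _))))
                 (CovZ.n1 (-16560, 15000) (by decide +kernel)
                  (CovZ.n2 (-16548, 15012) (by decide +kernel)
                   (CovZ.n2 (-16548, 15000) (by decide +kernel)
                    (CovZ.leaf K2_ok TB_l43016 _)
                    (CovZ.leaf K2_ok TB_l43017 _))
                   (CovZ.leaf K2_ok TB_l43018 _))
                  (CovZ.n1 (-16548, 14988) (by decide +kernel)
                   (CovZ.leaf K2_ok TB_l43019 _)
                   (CovZ.n1 (-16548, 15000) (by decide +kernel)
                    (CovZ.leaf K2_ok TB_l43020 _)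
                    (CovZ.leaf K2_ok TB_l43021 _))))))
               (CovZ.n1 (-16608, 15024) (by decide +kernel)
                (CovZ.n2 (-16584, 15048) (by decide +kernel)
                 (CovZ.n2 (-16584, 15024) (by decide +kernel)
                  (CovZ.leaf K2_ok TB_l26184 _)
                  (CovZ.leaf K2_ok TB_l26185 _))
                 (CovZ.n1 (-16608, 15048) (by decide +kernel)
                  (CovZ.leaf K2_ok TB_l26186 _)
                  (CovZ.leaf K2_ok TB_l26187 _)))
                (CovZ.n1 (-16584, 15000) (by decide +kernel)
                 (CovZ.n2 (-16608, 15000) (by decide +kernel)
                  (CovZ.n2 (-16596, 15012) (by decide +kernel)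
                   (CovZ.leaf K2_ok TB_l43022 _)
                   (CovZ.leaf K2_ok TB_l43023 _))
                  (CovZ.n1 (-16596, 14988) (by decide +kernel)
                   (CovZ.leaf K2_ok TB_l43024 _)
                   (CovZ.n1 (-16596, 15000) (by decide +kernel)
                    (CovZ.leaf K2_ok TB_l43025 _)
                    (CovZ.leaf K2_ok TB_l43026 _))))
                 (CovZ.n1 (-16584, 15024) (by decide +kernel)
                  (CovZ.n2 (-16572, 15012) (by decide +kernel)
                   (CovZ.leaf K2_ok TB_l43027 _)
                   (CovZ.leaf K2_ok TB_l43028 _))
                  (CovZ.n1 (-16596, 15012) (by decide +kernel)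
                   (CovZ.leaf K2_ok TB_l43029 _)
                   (CovZ.leaf K2_ok TB_l43030 _))))))))
            (CovZ.n1 (-16704, 15072) (by decide +kernel)
             (CovZ.n2 (-16656, 15120) (by decide +kernel)
              (CovZ.subM 305310535760598319690817628855675275107316143619571912400208002884501321715269246221229107751122419981517717504 (by decide +kernel)
               (CovZ.n2 (-16656, 15072) (by decide +kernel)
                (CovZ.n2 (-16680, 15096) (by decide +kernel)
                 (CovZ.leaf K2_ok TB_l26188 _)
                 (CovZ.n1 (-16680, 15072) (by decide +kernel)
                  (CovZ.leaf K2_ok TB_l26189 _)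
                  (CovZ.leaf K2_ok TB_l26190 _)))
                (CovZ.n1 (-16632, 15096) (by decide +kernel)
                 (CovZ.n2 (-16632, 15072) (by decide +kernel)
                  (CovZ.leaf K2_ok TB_l26191 _)
                  (CovZ.leaf K2_ok TB_l26192 _))
                 (CovZ.leaf K2_ok TB_l26193 _))))
              (CovZ.n1 (-16704, 15120) (by decide +kernel)
               (CovZ.leaf K2_ok TB_l26194 _)
               (CovZ.n1 (-16680, 15096) (by decide +kernel)
                (CovZ.leaf K2_ok TB_l26195 _)
                (CovZ.leaf K2_ok TB_l26196 _))))
             (CovZ.subM 305310535760598319625632477612971720346725018872178462426087584942708577066731195453267365970910317490028544000 (by decide +kernel)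
              (CovZ.n1 (-16656, 15024) (by decide +kernel)
               (CovZ.n2 (-16704, 15024) (by decide +kernel)
                (CovZ.n2 (-16680, 15048) (by decide +kernel)
                 (CovZ.n2 (-16680, 15024) (by decide +kernel)
                  (CovZ.leaf K2_ok TB_l26197 _)
                  (CovZ.leaf K2_ok TB_l26198 _))
                 (CovZ.n1 (-16704, 15048) (by decide +kernel)
                  (CovZ.leaf K2_ok TB_l26199 _)
                  (CovZ.leaf K2_ok TB_l26200 _)))
                (CovZ.n1 (-16680, 15000) (by decide +kernel)
                 (CovZ.n2 (-16704, 15000) (by decide +kernel)
                  (CovZ.n2 (-16692, 15012) (by decide +kernel)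
                   (CovZ.leaf K2_ok TB_l26201 _)
                   (CovZ.leaf K2_ok TB_l26202 _))
                  (CovZ.n1 (-16692, 14988) (by decide +kernel)
                   (CovZ.leaf K2_ok TB_l43031 _)
                   (CovZ.leaf K2_ok TB_l43032 _)))
                 (CovZ.n1 (-16680, 15024) (by decide +kernel)
                  (CovZ.n2 (-16668, 15012) (by decide +kernel)
                   (CovZ.leaf K2_ok TB_l26203 _)
                   (CovZ.leaf K2_ok TB_l26204 _))
                  (CovZ.leaf K2_ok TB_l26205 _))))
               (CovZ.n1 (-16656, 15072) (by decide +kernel)
                (CovZ.n2 (-16632, 15048) (by decide +kernel)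
                 (CovZ.n2 (-16656, 15048) (by decide +kernel)
                  (CovZ.leaf K2_ok TB_l26206 _)
                  (CovZ.leaf K2_ok TB_l26207 _))
                 (CovZ.n1 (-16632, 15072) (by decide +kernel)
                  (CovZ.leaf K2_ok TB_l26208 _)
                  (CovZ.leaf K2_ok TB_l26209 _)))
                (CovZ.n1 (-16680, 15048) (by decide +kernel)
                 (CovZ.n2 (-16680, 15072) (by decide +kernel)
                  (CovZ.leaf K2_ok TB_l26210 _)
                  (CovZ.leaf K2_ok TB_l26211 _))
                 (CovZ.n1 (-16656, 15048) (by decide +kernel)
                  (CovZ.leaf K2_ok TB_l26212 _)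
                  (CovZ.leaf K2_ok TB_l26213 _))))))))

theorem TB_u343 : CovZ TB_M (toL (selN TB_LN 1324694207827340180099157432413151729561250013555300085238531140744409413498507132893842137485505550157865887436534926443120)) [0, 7, 6, 1] (-16896, 14976) (-16896, 14784) (-16704, 14784) :=
    (CovZ.subM 1324694207776751398594900179761803789312589407416536929426931086014193901467951568726006244396282947864985092499217905090560 (by decide +kernel)
           (CovZ.n2 (-16800, 14880) (by decide +kernel)
            (CovZ.n2 (-16800, 14784) (by decide +kernel)
             (CovZ.n2 (-16848, 14832) (by decide +kernel)
              (CovZ.badM (by decide +kernel))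
              (CovZ.n1 (-16848, 14784) (by decide +kernel)
               (CovZ.n2 (-16872, 14808) (by decide +kernel)
                (CovZ.subM 1202453802380202612679414065556377700215107488609287247179430770259774517787274754928566696305049782041853296640 (by decide +kernel)
                 (CovZ.n2 (-16848, 14808) (by decide +kernel)
                  (CovZ.n2 (-16860, 14796) (by decide +kernel)
                   (CovZ.badM (by decide +kernel))
                   (CovZ.n1 (-16848, 14796) (by decide +kernel)
                    (CovZ.n2 (-16854, 14790) (by decide +kernel)
                     (CovZ.badM (by decide +kernel))
                     (CovZ.n1 (-16848, 14790) (by decide +kernel)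
                      (CovZ.leaf K2_ok TB_l43033 _)
                      (CovZ.badM (by decide +kernel))))
                    (CovZ.badM (by decide +kernel))))
                  (CovZ.badM (by decide +kernel))))
                (CovZ.n1 (-16872, 14784) (by decide +kernel)
                 (CovZ.n2 (-16884, 14796) (by decide +kernel)
                  (CovZ.n2 (-16872, 14796) (by decide +kernel)
                   (CovZ.leaf K2_ok TB_l43034 _)
                   (CovZ.leaf K2_ok TB_l43035 _))
                  (CovZ.leaf K2_ok TB_l26257 _))
                 (CovZ.subM 1202536511674041755187379667926718230206967076245091048088207154185649431330089159089301464442633691993714196480 (by decide +kernel)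
                  (CovZ.n1 (-16860, 14796) (by decide +kernel)
                   (CovZ.leaf K2_ok TB_l43036 _)
                   (CovZ.n1 (-16872, 14796) (by decide +kernel)
                    (CovZ.n2 (-16866, 14802) (by decide +kernel)
                     (CovZ.leaf K2_ok TB_l43037 _)
                     (CovZ.n1 (-16872, 14802) (by decide +kernel)
                      (CovZ.badM (by decide +kernel))
                      (CovZ.leaf K2_ok TB_l43038 _)))
                    (CovZ.leaf K2_ok TB_l43039 _))))))
               (CovZ.subM 1202453802380202612679414065556377700215107488609287247179430770259774517787274754928566696305049782041853296640 (by decide +kernel)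
                (CovZ.n1 (-16824, 14808) (by decide +kernel)
                 (CovZ.n2 (-16824, 14784) (by decide +kernel)
                  (CovZ.n2 (-16836, 14796) (by decide +kernel)
                   (CovZ.badM (by decide +kernel))
                   (CovZ.n1 (-16836, 14784) (by decide +kernel)
                    (CovZ.n2 (-16842, 14790) (by decide +kernel)
                     (CovZ.badM (by decide +kernel))
                     (CovZ.leaf K2_ok TB_l43040 _))
                    (CovZ.badM (by decide +kernel))))
                  (CovZ.badM (by decide +kernel)))
                 (CovZ.n1 (-16848, 14808) (by decide +kernel)
                  (CovZ.badM (by decide +kernel))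
                  (CovZ.n1 (-16836, 14796) (by decide +kernel)
                   (CovZ.n2 (-16848, 14796) (by decide +kernel)
                    (CovZ.badM (by decide +kernel))
                    (CovZ.n1 (-16842, 14790) (by decide +kernel)
                     (CovZ.n2 (-16848, 14790) (by decide +kernel)
                      (CovZ.badM (by decide +kernel))
                      (CovZ.leaf K2_ok TB_l43041 _))
                     (CovZ.badM (by decide +kernel))))
                   (CovZ.badM (by decide +kernel))))))))
             (CovZ.badM (by decide +kernel)))
            (CovZ.n1 (-16896, 14880) (by decide +kernel)
             (CovZ.subM 305310535760598319625632477612971720353793269849585348564894204290163035758222687409584322436256494696177598464 (by decide +kernel)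
              (CovZ.n2 (-16848, 14928) (by decide +kernel)
               (CovZ.subM 3450873173395281893717377931138512726225554486085193277581262111899648 (by decide +kernel)
                (CovZ.n2 (-16848, 14880) (by decide +kernel)
                 (CovZ.n2 (-16872, 14904) (by decide +kernel)
                  (CovZ.n2 (-16848, 14904) (by decide +kernel)
                   (CovZ.badM (by decide +kernel))
                   (CovZ.n1 (-16860, 14916) (by decide +kernel)
                    (CovZ.n2 (-16848, 14916) (by decide +kernel)
                     (CovZ.badM (by decide +kernel))
                     (CovZ.n1 (-16854, 14922) (by decide +kernel)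
                      (CovZ.n2 (-16848, 14922) (by decide +kernel)
                       (CovZ.badM (by decide +kernel))
                       (CovZ.leaf K2_ok TB_l43042 _))
                      (CovZ.badM (by decide +kernel))))
                    (CovZ.badM (by decide +kernel))))
                  (CovZ.badM (by decide +kernel)))
                 (CovZ.n1 (-16824, 14904) (by decide +kernel)
                  (CovZ.badM (by decide +kernel))
                  (CovZ.n1 (-16848, 14904) (by decide +kernel)
                   (CovZ.n2 (-16836, 14916) (by decide +kernel)
                    (CovZ.badM (by decide +kernel))
                    (CovZ.n1 (-16848, 14916) (by decide +kernel)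
                     (CovZ.n2 (-16842, 14922) (by decide +kernel)
                      (CovZ.badM (by decide +kernel))
                      (CovZ.n1 (-16848, 14922) (by decide +kernel)
                       (CovZ.leaf K2_ok TB_l43043 _)
                       (CovZ.badM (by decide +kernel))))
                     (CovZ.badM (by decide +kernel))))
                   (CovZ.badM (by decide +kernel))))))
               (CovZ.n1 (-16896, 14928) (by decide +kernel)
                (CovZ.n2 (-16872, 14952) (by decide +kernel)
                 (CovZ.subM 4697085165547666455778961223936580842637649241920185581724366253208935974607480465463800694628720449440186368 (by decide +kernel)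
                  (CovZ.n2 (-16872, 14928) (by decide +kernel)
                   (CovZ.n2 (-16884, 14940) (by decide +kernel)
                    (CovZ.n2 (-16872, 14940) (by decide +kernel)
                     (CovZ.n2 (-16878, 14934) (by decide +kernel)
                      (CovZ.leaf K2_ok TB_l43044 _)
                      (CovZ.leaf K2_ok TB_l43045 _))
                     (CovZ.leaf K2_ok TB_l43046 _))
                    (CovZ.n1 (-16884, 14928) (by decide +kernel)
                     (CovZ.n2 (-16890, 14934) (by decide +kernel)
                      (CovZ.leaf K2_ok TB_l43047 _)
                      (CovZ.leaf K2_ok TB_l43048 _))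
                     (CovZ.n1 (-16878, 14934) (by decide +kernel)
                      (CovZ.n2 (-16878, 14928) (by decide +kernel)
                       (CovZ.leaf K2_ok TB_l43049 _)
                       (CovZ.leaf K2_ok TB_l43050 _))
                      (CovZ.leaf K2_ok TB_l43051 _))))
                   (CovZ.n1 (-16860, 14940) (by decide +kernel)
                    (CovZ.n2 (-16860, 14928) (by decide +kernel)
                     (CovZ.n2 (-16866, 14934) (by decide +kernel)
                      (CovZ.leaf K2_ok TB_l43052 _)
                      (CovZ.n1 (-16866, 14928) (by decide +kernel)
                       (CovZ.leaf K2_ok TB_l43053 _)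
                       (CovZ.leaf K2_ok TB_l43054 _)))
                     (CovZ.n1 (-16854, 14934) (by decide +kernel)
                      (CovZ.n2 (-16854, 14928) (by decide +kernel)
                       (CovZ.leaf K2_ok TB_l43055 _)
                       (CovZ.leaf K2_ok TB_l43056 _))
                      (CovZ.leaf K2_ok TB_l43057 _)))
                    (CovZ.n1 (-16872, 14940) (by decide +kernel)
                     (CovZ.leaf K2_ok TB_l43058 _)
                     (CovZ.n1 (-16866, 14934) (by decide +kernel)
                      (CovZ.leaf K2_ok TB_l43059 _)
                      (CovZ.leaf K2_ok TB_l43060 _))))))
                 (CovZ.n1 (-16896, 14952) (by decide +kernel)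
                  (CovZ.n2 (-16884, 14964) (by decide +kernel)
                   (CovZ.n2 (-16884, 14952) (by decide +kernel)
                    (CovZ.leaf K2_ok TB_l43061 _)
                    (CovZ.leaf K2_ok TB_l43062 _))
                   (CovZ.leaf K2_ok TB_l43063 _))
                  (CovZ.n1 (-16884, 14940) (by decide +kernel)
                   (CovZ.n2 (-16896, 14940) (by decide +kernel)
                    (CovZ.leaf K2_ok TB_l43064 _)
                    (CovZ.n1 (-16890, 14934) (by decide +kernel)
                     (CovZ.leaf K2_ok TB_l43065 _)
                     (CovZ.leaf K2_ok TB_l43066 _)))
                   (CovZ.n1 (-16884, 14952) (by decide +kernel)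
                    (CovZ.leaf K2_ok TB_l43067 _)
                    (CovZ.leaf K2_ok TB_l43068 _)))))
                (CovZ.subM 3705346859051731413616341073944057736214907143194461821453471108954758162939904 (by decide +kernel)
                 (CovZ.n1 (-16872, 14904) (by decide +kernel)
                  (CovZ.n2 (-16896, 14904) (by decide +kernel)
                   (CovZ.n2 (-16884, 14916) (by decide +kernel)
                    (CovZ.badM (by decide +kernel))
                    (CovZ.n1 (-16896, 14916) (by decide +kernel)
                     (CovZ.n2 (-16890, 14922) (by decide +kernel)
                      (CovZ.n2 (-16890, 14916) (by decide +kernel)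
                       (CovZ.n2 (-16893, 14919) (by decide +kernel)
                        (CovZ.leaf K2_ok TB_l43078 _)
                        (CovZ.leaf K2_ok TB_l43079 _))
                       (CovZ.leaf K2_ok TB_l43080 _))
                      (CovZ.leaf K2_ok TB_l43081 _))
                     (CovZ.badM (by decide +kernel))))
                   (CovZ.badM (by decide +kernel)))
                  (CovZ.n1 (-16872, 14928) (by decide +kernel)
                   (CovZ.n2 (-16860, 14916) (by decide +kernel)
                    (CovZ.n2 (-16872, 14916) (by decide +kernel)
                     (CovZ.n2 (-16866, 14922) (by decide +kernel)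
                      (CovZ.badM (by decide +kernel))
                      (CovZ.n1 (-16872, 14922) (by decide +kernel)
                       (CovZ.leaf K2_ok TB_l43087 _)
                       (CovZ.badM (by decide +kernel))))
                     (CovZ.badM (by decide +kernel)))
                    (CovZ.n1 (-16860, 14928) (by decide +kernel)
                     (CovZ.n2 (-16854, 14922) (by decide +kernel)
                      (CovZ.leaf K2_ok TB_l43090 _)
                      (CovZ.leaf K2_ok TB_l43091 _))
                     (CovZ.n1 (-16866, 14922) (by decide +kernel)
                      (CovZ.leaf K2_ok TB_l43092 _)
                      (CovZ.n1 (-16860, 14922) (by decide +kernel)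
                       (CovZ.badM (by decide +kernel))
                       (CovZ.leaf K2_ok TB_l43093 _)))))
                   (CovZ.n1 (-16884, 14916) (by decide +kernel)
                    (CovZ.n2 (-16884, 14928) (by decide +kernel)
                     (CovZ.n2 (-16878, 14922) (by decide +kernel)
                      (CovZ.n2 (-16884, 14922) (by decide +kernel)
                       (CovZ.leaf K2_ok TB_l43094 _)
                       (CovZ.leaf K2_ok TB_l43095 _))
                      (CovZ.leaf K2_ok TB_l43096 _))
                     (CovZ.n1 (-16890, 14922) (by decide +kernel)
                      (CovZ.n2 (-16890, 14928) (by decide +kernel)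
                       (CovZ.leaf K2_ok TB_l43097 _)
                       (CovZ.leaf K2_ok TB_l43098 _))
                      (CovZ.leaf K2_ok TB_l43099 _)))
                    (CovZ.n1 (-16872, 14916) (by decide +kernel)
                     (CovZ.badM (by decide +kernel))
                     (CovZ.n1 (-16878, 14922) (by decide +kernel)
                      (CovZ.n2 (-16872, 14922) (by decide +kernel)
                       (CovZ.leaf K2_ok TB_l43103 _)
                       (CovZ.leaf K2_ok TB_l43104 _))
                      (CovZ.n1 (-16878, 14916) (by decide +kernel)
                       (CovZ.leaf K2_ok TB_l43105 _)
                       (CovZ.leaf K2_ok TB_l43106 _)))))))))))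
             (CovZ.subM 615656429563793492710255796955916641454138287075498984041715994741001223477883583142920800931786761103874807824384 (by decide +kernel)
              (CovZ.n1 (-16848, 14832) (by decide +kernel)
               (CovZ.n2 (-16896, 14832) (by decide +kernel)
                (CovZ.badM (by decide +kernel))
                (CovZ.n1 (-16872, 14808) (by decide +kernel)
                 (CovZ.n2 (-16896, 14808) (by decide +kernel)
                  (CovZ.n2 (-16884, 14820) (by decide +kernel)
                   (CovZ.n2 (-16884, 14808) (by decide +kernel)
                    (CovZ.n2 (-16890, 14814) (by decide +kernel)
                     (CovZ.n2 (-16884, 14814) (by decide +kernel)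
                      (CovZ.leaf K2_ok TB_l43107 _)
                      (CovZ.n1 (-16887, 14817) (by decide +kernel)
                       (CovZ.badM (by decide +kernel))
                       (CovZ.leaf K2_ok TB_l43108 _)))
                     (CovZ.leaf K2_ok TB_l43109 _))
                    (CovZ.n1 (-16878, 14814) (by decide +kernel)
                     (CovZ.leaf K2_ok TB_l43110 _)
                     (CovZ.n1 (-16884, 14814) (by decide +kernel)
                      (CovZ.badM (by decide +kernel))
                      (CovZ.leaf K2_ok TB_l43111 _))))
                   (CovZ.n1 (-16896, 14820) (by decide +kernel)
                    (CovZ.subM 143343663499900954664204299957155809186212552753568062531697555514484461698027142880655646278611814580224 (by decide +kernel)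
                     (CovZ.n2 (-16890, 14826) (by decide +kernel)
                      (CovZ.n2 (-16890, 14820) (by decide +kernel)
                       (CovZ.leaf K2_ok TB_l43112 _)
                       (CovZ.badM (by decide +kernel)))
                      (CovZ.n1 (-16896, 14826) (by decide +kernel)
                       (CovZ.badM (by decide +kernel))
                       (CovZ.leaf K2_ok TB_l43113 _))))
                    (CovZ.n1 (-16890, 14814) (by decide +kernel)
                     (CovZ.leaf K2_ok TB_l43114 _)
                     (CovZ.leaf K2_ok TB_l43115 _))))
                  (CovZ.n1 (-16884, 14796) (by decide +kernel)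
                   (CovZ.leaf K2_ok TB_l26258 _)
                   (CovZ.leaf K2_ok TB_l43116 _)))
                 (CovZ.badM (by decide +kernel))))
               (CovZ.badM (by decide +kernel)))))))

theorem TB_u344 : CovZ TB_M (toL (selN TB_LN 1324694207827340180099157432413151729561250013555300085238531140744409413498507132893842137485505550157865887436534926443120)) [0, 7, 6, 1] (-16896, 14784) (-16896, 14592) (-16704, 14784) :=
    (CovZ.subM 1324694207824628787687345041951357004870007115016656159869097396212112390320095664109694810445494838096583032250395527217184 (by decide +kernel)
           (CovZ.n1 (-16800, 14688) (by decide +kernel)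
            (CovZ.n2 (-16896, 14688) (by decide +kernel)
             (CovZ.n2 (-16848, 14736) (by decide +kernel)
              (CovZ.n2 (-16848, 14688) (by decide +kernel)
               (CovZ.leaf K2_ok TB_l26259 _)
               (CovZ.n1 (-16824, 14712) (by decide +kernel)
                (CovZ.leaf K2_ok TB_l26260 _)
                (CovZ.leaf K2_ok TB_l26261 _)))
              (CovZ.n1 (-16896, 14736) (by decide +kernel)
               (CovZ.n2 (-16872, 14760) (by decide +kernel)
                (CovZ.leaf K2_ok TB_l26262 _)
                (CovZ.leaf K2_ok TB_l26263 _))
               (CovZ.leaf K2_ok TB_l26264 _)))
             (CovZ.n1 (-16848, 14640) (by decide +kernel)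
              (CovZ.leaf K2_ok TB_l26265 _)
              (CovZ.n1 (-16848, 14688) (by decide +kernel)
               (CovZ.leaf K2_ok TB_l26266 _)
               (CovZ.leaf K2_ok TB_l26267 _))))
            (CovZ.n1 (-16800, 14784) (by decide +kernel)
             (CovZ.n2 (-16752, 14736) (by decide +kernel)
              (CovZ.subM 20317861981565670544210431329399232343992608415045876076115723923055585491376039958446555840988591535153056592166912 (by decide +kernel)
               (CovZ.n2 (-16800, 14736) (by decide +kernel)
                (CovZ.subM 1202527337679577794868736670435893010901035294574013571784221686873683191859478205895358401500877458089904701440 (by decide +kernel)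
                 (CovZ.n2 (-16776, 14760) (by decide +kernel)
                  (CovZ.n2 (-16776, 14736) (by decide +kernel)
                   (CovZ.n2 (-16788, 14748) (by decide +kernel)
                    (CovZ.badM (by decide +kernel))
                    (CovZ.n1 (-16788, 14736) (by decide +kernel)
                     (CovZ.n2 (-16794, 14742) (by decide +kernel)
                      (CovZ.badM (by decide +kernel))
                      (CovZ.leaf K2_ok TB_l43117 _))
                     (CovZ.badM (by decide +kernel))))
                   (CovZ.badM (by decide +kernel)))
                  (CovZ.n1 (-16800, 14760) (by decide +kernel)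
                   (CovZ.badM (by decide +kernel))
                   (CovZ.n1 (-16788, 14748) (by decide +kernel)
                    (CovZ.n2 (-16800, 14748) (by decide +kernel)
                     (CovZ.badM (by decide +kernel))
                     (CovZ.n1 (-16794, 14742) (by decide +kernel)
                      (CovZ.leaf K2_ok TB_l43118 _)
                      (CovZ.badM (by decide +kernel))))
                    (CovZ.badM (by decide +kernel))))))
                (CovZ.n1 (-16776, 14712) (by decide +kernel)
                 (CovZ.n2 (-16800, 14712) (by decide +kernel)
                  (CovZ.n2 (-16788, 14724) (by decide +kernel)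
                   (CovZ.leaf K2_ok TB_l26268 _)
                   (CovZ.leaf K2_ok TB_l26269 _))
                  (CovZ.leaf K2_ok TB_l26270 _))
                 (CovZ.subM 1202536511674041755187379667926718230235236629281545197361539914197536127583328901439311367772579391214396112896 (by decide +kernel)
                  (CovZ.n1 (-16776, 14736) (by decide +kernel)
                   (CovZ.n2 (-16764, 14724) (by decide +kernel)
                    (CovZ.n2 (-16776, 14724) (by decide +kernel)
                     (CovZ.subM 14474011154664524427946373126085988481658748083205070504932198000989141204992 (by decide +kernel)
                      (CovZ.n2 (-16770, 14730) (by decide +kernel)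
                       (CovZ.n2 (-16770, 14724) (by decide +kernel)
                        (CovZ.n2 (-16773, 14727) (by decide +kernel)
                         (CovZ.badM (by decide +kernel))
                         (CovZ.leaf K2_ok TB_l43119 _))
                        (CovZ.badM (by decide +kernel)))
                       (CovZ.n1 (-16776, 14730) (by decide +kernel)
                        (CovZ.badM (by decide +kernel))
                        (CovZ.leaf K2_ok TB_l43120 _))))
                     (CovZ.n1 (-16770, 14718) (by decide +kernel)
                      (CovZ.leaf K2_ok TB_l43121 _)
                      (CovZ.n1 (-16770, 14724) (by decide +kernel)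
                       (CovZ.leaf K2_ok TB_l43122 _)
                       (CovZ.leaf K2_ok TB_l43123 _))))
                    (CovZ.badM (by decide +kernel)))
                   (CovZ.n1 (-16788, 14724) (by decide +kernel)
                    (CovZ.n2 (-16788, 14736) (by decide +kernel)
                     (CovZ.n2 (-16782, 14730) (by decide +kernel)
                      (CovZ.leaf K2_ok TB_l43124 _)
                      (CovZ.badM (by decide +kernel)))
                     (CovZ.leaf K2_ok TB_l43125 _))
                    (CovZ.n1 (-16776, 14724) (by decide +kernel)
                     (CovZ.leaf K2_ok TB_l43126 _)
                     (CovZ.n1 (-16782, 14730) (by decide +kernel)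
                      (CovZ.n2 (-16776, 14730) (by decide +kernel)
                       (CovZ.leaf K2_ok TB_l43127 _)
                       (CovZ.badM (by decide +kernel)))
                      (CovZ.leaf K2_ok TB_l43128 _)))))))))
              (CovZ.badM (by decide +kernel)))
             (CovZ.subM 616858883366191193328733475116867999172170335535031096644342571397824616526470860868242552600752837256470989897728 (by decide +kernel)
              (CovZ.n1 (-16848, 14736) (by decide +kernel)
               (CovZ.n2 (-16848, 14784) (by decide +kernel)
                (CovZ.n2 (-16824, 14760) (by decide +kernel)
                 (CovZ.n2 (-16848, 14760) (by decide +kernel)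
                  (CovZ.n2 (-16836, 14772) (by decide +kernel)
                   (CovZ.n2 (-16836, 14760) (by decide +kernel)
                    (CovZ.leaf K2_ok TB_l43129 _)
                    (CovZ.leaf K2_ok TB_l43130 _))
                   (CovZ.n1 (-16848, 14772) (by decide +kernel)
                    (CovZ.n2 (-16842, 14778) (by decide +kernel)
                     (CovZ.leaf K2_ok TB_l43131 _)
                     (CovZ.n1 (-16848, 14778) (by decide +kernel)
                      (CovZ.leaf K2_ok TB_l43132 _)
                      (CovZ.leaf K2_ok TB_l43133 _)))
                    (CovZ.leaf K2_ok TB_l43134 _)))
                  (CovZ.n1 (-16836, 14748) (by decide +kernel)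
                   (CovZ.leaf K2_ok TB_l26271 _)
                   (CovZ.leaf K2_ok TB_l43135 _)))
                 (CovZ.subM 1202453945723866112580364999836404598445111664119503327537565674622187533822603732680953383196666467642492583936 (by decide +kernel)
                  (CovZ.n1 (-16824, 14784) (by decide +kernel)
                   (CovZ.n2 (-16812, 14772) (by decide +kernel)
                    (CovZ.n2 (-16824, 14772) (by decide +kernel)
                     (CovZ.badM (by decide +kernel))
                     (CovZ.n1 (-16818, 14766) (by decide +kernel)
                      (CovZ.n2 (-16824, 14766) (by decide +kernel)
                       (CovZ.badM (by decide +kernel))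
                       (CovZ.leaf K2_ok TB_l43136 _))
                      (CovZ.badM (by decide +kernel))))
                    (CovZ.badM (by decide +kernel)))
                   (CovZ.n1 (-16836, 14772) (by decide +kernel)
                    (CovZ.subM 1202453802380202612679414065556377700215107488609287247179430770259774517787274754928566696305049782041853296640 (by decide +kernel)
                     (CovZ.n2 (-16836, 14784) (by decide +kernel)
                      (CovZ.n2 (-16830, 14778) (by decide +kernel)
                       (CovZ.n2 (-16836, 14778) (by decide +kernel)
                        (CovZ.badM (by decide +kernel))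
                        (CovZ.n1 (-16833, 14775) (by decide +kernel)
                         (CovZ.leaf K2_ok TB_l43137 _)
                         (CovZ.badM (by decide +kernel))))
                       (CovZ.badM (by decide +kernel)))
                      (CovZ.n1 (-16842, 14778) (by decide +kernel)
                       (CovZ.n2 (-16842, 14784) (by decide +kernel)
                        (CovZ.n2 (-16839, 14781) (by decide +kernel)
                         (CovZ.leaf K2_ok TB_l43138 _)
                         (CovZ.badM (by decide +kernel)))
                        (CovZ.leaf K2_ok TB_l43139 _))
                       (CovZ.n1 (-16836, 14778) (by decide +kernel)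
                        (CovZ.leaf K2_ok TB_l43140 _)
                        (CovZ.leaf K2_ok TB_l43141 _)))))
                    (CovZ.n1 (-16824, 14772) (by decide +kernel)
                     (CovZ.n2 (-16830, 14766) (by decide +kernel)
                      (CovZ.n2 (-16830, 14772) (by decide +kernel)
                       (CovZ.leaf K2_ok TB_l43142 _)
                       (CovZ.leaf K2_ok TB_l43143 _))
                      (CovZ.leaf K2_ok TB_l43144 _))
                     (CovZ.subM 1202453802380202612679414065556377700215107488609287247179430770259774517787274754928566696305049782041853296640 (by decide +kernel)
                      (CovZ.n1 (-16830, 14778) (by decide +kernel)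
                       (CovZ.badM (by decide +kernel))
                       (CovZ.n1 (-16830, 14772) (by decide +kernel)
                        (CovZ.n2 (-16833, 14775) (by decide +kernel)
                         (CovZ.badM (by decide +kernel))
                         (CovZ.leaf K2_ok TB_l43145 _))
                        (CovZ.badM (by decide +kernel))))))))))
                (CovZ.n1 (-16872, 14760) (by decide +kernel)
                 (CovZ.n2 (-16872, 14784) (by decide +kernel)
                  (CovZ.n2 (-16860, 14772) (by decide +kernel)
                   (CovZ.leaf K2_ok TB_l26272 _)
                   (CovZ.leaf K2_ok TB_l43146 _))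
                  (CovZ.leaf K2_ok TB_l26273 _))
                 (CovZ.n1 (-16848, 14760) (by decide +kernel)
                  (CovZ.leaf K2_ok TB_l26274 _)
                  (CovZ.n1 (-16860, 14772) (by decide +kernel)
                   (CovZ.n2 (-16848, 14772) (by decide +kernel)
                    (CovZ.leaf K2_ok TB_l43147 _)
                    (CovZ.leaf K2_ok TB_l43148 _))
                   (CovZ.leaf K2_ok TB_l26275 _)))))
               (CovZ.n1 (-16800, 14736) (by decide +kernel)
                (CovZ.n2 (-16824, 14712) (by decide +kernel)
                 (CovZ.n2 (-16824, 14736) (by decide +kernel)
                  (CovZ.leaf K2_ok TB_l26276 _)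
                  (CovZ.leaf K2_ok TB_l26277 _))
                 (CovZ.n1 (-16800, 14712) (by decide +kernel)
                  (CovZ.leaf K2_ok TB_l26278 _)
                  (CovZ.leaf K2_ok TB_l26279 _)))
                (CovZ.n1 (-16824, 14760) (by decide +kernel)
                 (CovZ.subM 1202527337679577794868736670435893010901035294574013571784221686873683191859478205895358401500877458089904701440 (by decide +kernel)
                  (CovZ.n2 (-16800, 14760) (by decide +kernel)
                   (CovZ.n2 (-16812, 14748) (by decide +kernel)
                    (CovZ.n2 (-16812, 14760) (by decide +kernel)
                     (CovZ.n2 (-16806, 14754) (by decide +kernel)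
                      (CovZ.leaf K2_ok TB_l43149 _)
                      (CovZ.badM (by decide +kernel)))
                     (CovZ.n1 (-16818, 14754) (by decide +kernel)
                      (CovZ.leaf K2_ok TB_l43150 _)
                      (CovZ.leaf K2_ok TB_l43151 _)))
                    (CovZ.n1 (-16800, 14748) (by decide +kernel)
                     (CovZ.leaf K2_ok TB_l43152 _)
                     (CovZ.n1 (-16806, 14754) (by decide +kernel)
                      (CovZ.badM (by decide +kernel))
                      (CovZ.n1 (-16806, 14748) (by decide +kernel)
                       (CovZ.leaf K2_ok TB_l43153 _)
                       (CovZ.leaf K2_ok TB_l43154 _)))))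
                   (CovZ.n1 (-16812, 14772) (by decide +kernel)
                    (CovZ.badM (by decide +kernel))
                    (CovZ.n1 (-16812, 14760) (by decide +kernel)
                     (CovZ.n2 (-16818, 14766) (by decide +kernel)
                      (CovZ.badM (by decide +kernel))
                      (CovZ.leaf K2_ok TB_l43155 _))
                     (CovZ.badM (by decide +kernel))))))
                 (CovZ.n1 (-16824, 14736) (by decide +kernel)
                  (CovZ.n2 (-16836, 14748) (by decide +kernel)
                   (CovZ.leaf K2_ok TB_l43156 _)
                   (CovZ.leaf K2_ok TB_l26280 _))
                  (CovZ.n1 (-16812, 14748) (by decide +kernel)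
                   (CovZ.leaf K2_ok TB_l43157 _)
                   (CovZ.leaf K2_ok TB_l43158 _))))))))))

theorem TB_u345 : CovZ TB_M (toL (selN TB_LN 4697085165547666455778961223936580842637426822360181588946060250334468062654422959022314734905751344655630336)) [0, 7, 6, 1] (-16704, 14784) (-16608, 14880) (-16704, 14976) :=
    (CovZ.n2 (-16704, 14880) (by decide +kernel)
              (CovZ.n2 (-16656, 14928) (by decide +kernel)
               (CovZ.badM (by decide +kernel))
               (CovZ.n1 (-16704, 14928) (by decide +kernel)
                (CovZ.n2 (-16680, 14952) (by decide +kernel)
                 (CovZ.n2 (-16680, 14928) (by decide +kernel)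
                  (CovZ.n2 (-16692, 14940) (by decide +kernel)
                   (CovZ.n2 (-16680, 14940) (by decide +kernel)
                    (CovZ.n2 (-16686, 14934) (by decide +kernel)
                     (CovZ.n2 (-16686, 14940) (by decide +kernel)
                      (CovZ.leaf K2_ok TB_l43159 _)
                      (CovZ.leaf K2_ok TB_l43160 _))
                     (CovZ.n1 (-16680, 14934) (by decide +kernel)
                      (CovZ.n2 (-16683, 14931) (by decide +kernel)
                       (CovZ.n2 (-16683, 14934) (by decide +kernel)
                        (CovZ.badM (by decide +kernel))
                        (CovZ.leaf K2_ok TB_l43161 _))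
                       (CovZ.badM (by decide +kernel)))
                      (CovZ.leaf K2_ok TB_l43162 _)))
                    (CovZ.n1 (-16686, 14946) (by decide +kernel)
                     (CovZ.leaf K2_ok TB_l43163 _)
                     (CovZ.leaf K2_ok TB_l43164 _)))
                   (CovZ.n1 (-16692, 14928) (by decide +kernel)
                    (CovZ.n2 (-16698, 14934) (by decide +kernel)
                     (CovZ.n2 (-16692, 14934) (by decide +kernel)
                      (CovZ.n2 (-16695, 14931) (by decide +kernel)
                       (CovZ.n2 (-16695, 14934) (by decide +kernel)
                        (CovZ.leaf K2_ok TB_l43165 _)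
                        (CovZ.leaf K2_ok TB_l43166 _))
                       (CovZ.leaf K2_ok TB_l43167 _))
                      (CovZ.leaf K2_ok TB_l43168 _))
                     (CovZ.n1 (-16698, 14928) (by decide +kernel)
                      (CovZ.n2 (-16701, 14931) (by decide +kernel)
                       (CovZ.leaf K2_ok TB_l43169 _)
                       (CovZ.n1 (-16701, 14928) (by decide +kernel)
                        (CovZ.leaf K2_ok TB_l43170 _)
                        (CovZ.leaf K2_ok TB_l43171 _)))
                      (CovZ.n1 (-16695, 14931) (by decide +kernel)
                       (CovZ.leaf K2_ok TB_l43172 _)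
                       (CovZ.leaf K2_ok TB_l43173 _))))
                    (CovZ.n1 (-16686, 14934) (by decide +kernel)
                     (CovZ.n2 (-16686, 14928) (by decide +kernel)
                      (CovZ.n2 (-16689, 14931) (by decide +kernel)
                       (CovZ.leaf K2_ok TB_l43174 _)
                       (CovZ.badM (by decide +kernel)))
                      (CovZ.n1 (-16683, 14931) (by decide +kernel)
                       (CovZ.badM (by decide +kernel))
                       (CovZ.leaf K2_ok TB_l43175 _)))
                     (CovZ.n1 (-16692, 14934) (by decide +kernel)
                      (CovZ.leaf K2_ok TB_l43176 _)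
                      (CovZ.n1 (-16689, 14931) (by decide +kernel)
                       (CovZ.leaf K2_ok TB_l43177 _)
                       (CovZ.leaf K2_ok TB_l43178 _))))))
                  (CovZ.n1 (-16668, 14940) (by decide +kernel)
                   (CovZ.badM (by decide +kernel))
                   (CovZ.n1 (-16680, 14940) (by decide +kernel)
                    (CovZ.n2 (-16674, 14946) (by decide +kernel)
                     (CovZ.leaf K2_ok TB_l43179 _)
                     (CovZ.leaf K2_ok TB_l43180 _))
                    (CovZ.n1 (-16674, 14934) (by decide +kernel)
                     (CovZ.n2 (-16680, 14934) (by decide +kernel)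
                      (CovZ.leaf K2_ok TB_l43181 _)
                      (CovZ.badM (by decide +kernel)))
                     (CovZ.leaf K2_ok TB_l43182 _)))))
                 (CovZ.n1 (-16704, 14952) (by decide +kernel)
                  (CovZ.n2 (-16692, 14964) (by decide +kernel)
                   (CovZ.n2 (-16692, 14952) (by decide +kernel)
                    (CovZ.n2 (-16698, 14958) (by decide +kernel)
                     (CovZ.leaf K2_ok TB_l43183 _)
                     (CovZ.leaf K2_ok TB_l43184 _))
                    (CovZ.n1 (-16686, 14958) (by decide +kernel)
                     (CovZ.leaf K2_ok TB_l43185 _)
                     (CovZ.leaf K2_ok TB_l43186 _)))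
                   (CovZ.n1 (-16704, 14964) (by decide +kernel)
                    (CovZ.leaf K2_ok TB_l43187 _)
                    (CovZ.leaf K2_ok TB_l43188 _)))
                  (CovZ.n1 (-16692, 14940) (by decide +kernel)
                   (CovZ.n2 (-16704, 14940) (by decide +kernel)
                    (CovZ.n2 (-16698, 14946) (by decide +kernel)
                     (CovZ.leaf K2_ok TB_l43189 _)
                     (CovZ.leaf K2_ok TB_l43190 _))
                    (CovZ.n1 (-16698, 14934) (by decide +kernel)
                     (CovZ.n2 (-16704, 14934) (by decide +kernel)
                      (CovZ.leaf K2_ok TB_l43191 _)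
                      (CovZ.leaf K2_ok TB_l43192 _))
                     (CovZ.leaf K2_ok TB_l43193 _)))
                   (CovZ.n1 (-16692, 14952) (by decide +kernel)
                    (CovZ.n2 (-16686, 14946) (by decide +kernel)
                     (CovZ.leaf K2_ok TB_l43194 _)
                     (CovZ.leaf K2_ok TB_l43195 _))
                    (CovZ.n1 (-16698, 14946) (by decide +kernel)
                     (CovZ.leaf K2_ok TB_l43196 _)
                     (CovZ.leaf K2_ok TB_l43197 _))))))
                (CovZ.badM (by decide +kernel))))
              (CovZ.badM (by decide +kernel)))

theorem TB_u346 : CovZ TB_M (toL (selN TB_LN 4697085165547666455778961223936580842637426822360181588946060250334468062654422959022314734905751344655630336)) [0, 7, 6, 1] (-16608, 14880) (-16512, 14976) (-16704, 14976) :=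
    (CovZ.n1 (-16608, 14976) (by decide +kernel)
              (CovZ.n2 (-16560, 14928) (by decide +kernel)
               (CovZ.n2 (-16608, 14928) (by decide +kernel)
                (CovZ.n2 (-16584, 14952) (by decide +kernel)
                 (CovZ.badM (by decide +kernel))
                 (CovZ.n1 (-16608, 14952) (by decide +kernel)
                  (CovZ.n2 (-16596, 14964) (by decide +kernel)
                   (CovZ.badM (by decide +kernel))
                   (CovZ.n1 (-16608, 14964) (by decide +kernel)
                    (CovZ.n2 (-16602, 14970) (by decide +kernel)
                     (CovZ.leaf K2_ok TB_l43198 _)
                     (CovZ.leaf K2_ok TB_l43199 _))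
                    (CovZ.badM (by decide +kernel))))
                  (CovZ.badM (by decide +kernel))))
                (CovZ.badM (by decide +kernel)))
               (CovZ.n1 (-16560, 14976) (by decide +kernel)
                (CovZ.badM (by decide +kernel))
                (CovZ.n1 (-16584, 14952) (by decide +kernel)
                 (CovZ.n2 (-16584, 14976) (by decide +kernel)
                  (CovZ.n2 (-16572, 14964) (by decide +kernel)
                   (CovZ.n2 (-16584, 14964) (by decide +kernel)
                    (CovZ.leaf K2_ok TB_l43200 _)
                    (CovZ.badM (by decide +kernel)))
                   (CovZ.n1 (-16572, 14976) (by decide +kernel)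
                    (CovZ.n2 (-16566, 14970) (by decide +kernel)
                     (CovZ.leaf K2_ok TB_l43201 _)
                     (CovZ.leaf K2_ok TB_l43202 _))
                    (CovZ.leaf K2_ok TB_l43203 _)))
                  (CovZ.n1 (-16596, 14964) (by decide +kernel)
                   (CovZ.n2 (-16596, 14976) (by decide +kernel)
                    (CovZ.n2 (-16590, 14970) (by decide +kernel)
                     (CovZ.leaf K2_ok TB_l43204 _)
                     (CovZ.leaf K2_ok TB_l43205 _))
                    (CovZ.n1 (-16602, 14970) (by decide +kernel)
                     (CovZ.leaf K2_ok TB_l43206 _)
                     (CovZ.leaf K2_ok TB_l43207 _)))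
                   (CovZ.n1 (-16584, 14964) (by decide +kernel)
                    (CovZ.badM (by decide +kernel))
                    (CovZ.leaf K2_ok TB_l43208 _))))
                 (CovZ.badM (by decide +kernel)))))
              (CovZ.n1 (-16656, 14928) (by decide +kernel)
               (CovZ.n2 (-16656, 14976) (by decide +kernel)
                (CovZ.n2 (-16632, 14952) (by decide +kernel)
                 (CovZ.n2 (-16656, 14952) (by decide +kernel)
                  (CovZ.n2 (-16644, 14964) (by decide +kernel)
                   (CovZ.n2 (-16644, 14952) (by decide +kernel)
                    (CovZ.n2 (-16650, 14958) (by decide +kernel)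
                     (CovZ.leaf K2_ok TB_l43209 _)
                     (CovZ.leaf K2_ok TB_l43210 _))
                    (CovZ.n1 (-16638, 14958) (by decide +kernel)
                     (CovZ.n2 (-16638, 14952) (by decide +kernel)
                      (CovZ.leaf K2_ok TB_l43211 _)
                      (CovZ.leaf K2_ok TB_l43212 _))
                     (CovZ.leaf K2_ok TB_l43213 _)))
                   (CovZ.n1 (-16656, 14964) (by decide +kernel)
                    (CovZ.leaf K2_ok TB_l43214 _)
                    (CovZ.leaf K2_ok TB_l43215 _)))
                  (CovZ.n1 (-16644, 14940) (by decide +kernel)
                   (CovZ.n2 (-16656, 14940) (by decide +kernel)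
                    (CovZ.n2 (-16650, 14946) (by decide +kernel)
                     (CovZ.badM (by decide +kernel))
                     (CovZ.leaf K2_ok TB_l43216 _))
                    (CovZ.badM (by decide +kernel)))
                   (CovZ.n1 (-16644, 14952) (by decide +kernel)
                    (CovZ.badM (by decide +kernel))
                    (CovZ.n1 (-16650, 14946) (by decide +kernel)
                     (CovZ.leaf K2_ok TB_l43217 _)
                     (CovZ.badM (by decide +kernel))))))
                 (CovZ.n1 (-16632, 14976) (by decide +kernel)
                  (CovZ.n2 (-16620, 14964) (by decide +kernel)
                   (CovZ.n2 (-16632, 14964) (by decide +kernel)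
                    (CovZ.leaf K2_ok TB_l43218 _)
                    (CovZ.n1 (-16626, 14958) (by decide +kernel)
                     (CovZ.leaf K2_ok TB_l43219 _)
                     (CovZ.n1 (-16626, 14964) (by decide +kernel)
                      (CovZ.leaf K2_ok TB_l43220 _)
                      (CovZ.leaf K2_ok TB_l43221 _))))
                   (CovZ.n1 (-16620, 14976) (by decide +kernel)
                    (CovZ.n2 (-16614, 14970) (by decide +kernel)
                     (CovZ.leaf K2_ok TB_l43222 _)
                     (CovZ.leaf K2_ok TB_l43223 _))
                    (CovZ.leaf K2_ok TB_l43224 _)))
                  (CovZ.n1 (-16644, 14964) (by decide +kernel)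
                   (CovZ.n2 (-16644, 14976) (by decide +kernel)
                    (CovZ.leaf K2_ok TB_l43225 _)
                    (CovZ.leaf K2_ok TB_l43226 _))
                   (CovZ.n1 (-16632, 14964) (by decide +kernel)
                    (CovZ.n2 (-16638, 14958) (by decide +kernel)
                     (CovZ.n2 (-16638, 14964) (by decide +kernel)
                      (CovZ.leaf K2_ok TB_l43227 _)
                      (CovZ.leaf K2_ok TB_l43228 _))
                     (CovZ.leaf K2_ok TB_l43229 _))
                    (CovZ.leaf K2_ok TB_l43230 _)))))
                (CovZ.n1 (-16680, 14952) (by decide +kernel)
                 (CovZ.n2 (-16680, 14976) (by decide +kernel)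
                  (CovZ.n2 (-16668, 14964) (by decide +kernel)
                   (CovZ.n2 (-16680, 14964) (by decide +kernel)
                    (CovZ.leaf K2_ok TB_l43231 _)
                    (CovZ.n1 (-16674, 14958) (by decide +kernel)
                     (CovZ.leaf K2_ok TB_l43232 _)
                     (CovZ.n1 (-16674, 14964) (by decide +kernel)
                      (CovZ.leaf K2_ok TB_l43233 _)
                      (CovZ.leaf K2_ok TB_l43234 _))))
                   (CovZ.n1 (-16668, 14976) (by decide +kernel)
                    (CovZ.leaf K2_ok TB_l43235 _)
                    (CovZ.leaf K2_ok TB_l43236 _)))
                  (CovZ.n1 (-16692, 14964) (by decide +kernel)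
                   (CovZ.n2 (-16692, 14976) (by decide +kernel)
                    (CovZ.leaf K2_ok TB_l43237 _)
                    (CovZ.leaf K2_ok TB_l43238 _))
                   (CovZ.n1 (-16680, 14964) (by decide +kernel)
                    (CovZ.leaf K2_ok TB_l43239 _)
                    (CovZ.n1 (-16686, 14970) (by decide +kernel)
                     (CovZ.leaf K2_ok TB_l43240 _)
                     (CovZ.leaf K2_ok TB_l43241 _)))))
                 (CovZ.n1 (-16656, 14952) (by decide +kernel)
                  (CovZ.n2 (-16668, 14940) (by decide +kernel)
                   (CovZ.n2 (-16668, 14952) (by decide +kernel)
                    (CovZ.n2 (-16662, 14946) (by decide +kernel)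
                     (CovZ.leaf K2_ok TB_l43242 _)
                     (CovZ.leaf K2_ok TB_l43243 _))
                    (CovZ.n1 (-16674, 14946) (by decide +kernel)
                     (CovZ.leaf K2_ok TB_l43244 _)
                     (CovZ.leaf K2_ok TB_l43245 _)))
                   (CovZ.n1 (-16656, 14940) (by decide +kernel)
                    (CovZ.badM (by decide +kernel))
                    (CovZ.n1 (-16662, 14946) (by decide +kernel)
                     (CovZ.leaf K2_ok TB_l43246 _)
                     (CovZ.n1 (-16662, 14940) (by decide +kernel)
                      (CovZ.leaf K2_ok TB_l43247 _)
                      (CovZ.leaf K2_ok TB_l43248 _)))))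
                  (CovZ.n1 (-16668, 14964) (by decide +kernel)
                   (CovZ.n2 (-16656, 14964) (by decide +kernel)
                    (CovZ.n2 (-16662, 14958) (by decide +kernel)
                     (CovZ.n2 (-16662, 14964) (by decide +kernel)
                      (CovZ.leaf K2_ok TB_l43249 _)
                      (CovZ.leaf K2_ok TB_l43250 _))
                     (CovZ.leaf K2_ok TB_l43251 _))
                    (CovZ.leaf K2_ok TB_l43252 _))
                   (CovZ.n1 (-16668, 14952) (by decide +kernel)
                    (CovZ.n2 (-16674, 14958) (by decide +kernel)
                     (CovZ.leaf K2_ok TB_l43253 _)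
                     (CovZ.leaf K2_ok TB_l43254 _))
                    (CovZ.n1 (-16662, 14958) (by decide +kernel)
                     (CovZ.leaf K2_ok TB_l43255 _)
                     (CovZ.leaf K2_ok TB_l43256 _)))))))
               (CovZ.n1 (-16608, 14928) (by decide +kernel)
                (CovZ.badM (by decide +kernel))
                (CovZ.n1 (-16632, 14952) (by decide +kernel)
                 (CovZ.n2 (-16608, 14952) (by decide +kernel)
                  (CovZ.badM (by decide +kernel))
                  (CovZ.n1 (-16620, 14964) (by decide +kernel)
                   (CovZ.n2 (-16608, 14964) (by decide +kernel)
                    (CovZ.badM (by decide +kernel))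
                    (CovZ.n1 (-16614, 14970) (by decide +kernel)
                     (CovZ.leaf K2_ok TB_l43257 _)
                     (CovZ.leaf K2_ok TB_l43258 _)))
                   (CovZ.badM (by decide +kernel))))
                 (CovZ.badM (by decide +kernel))))))

theorem TB_u347 : CovZ TB_M (toL (selN TB_LN 305310535760598319625632477612971720353793269849585348564894204290163035758222687409584322436256494696177598464)) [0, 7, 6, 1] (-16704, 14976) (-16800, 14976) (-16800, 14880) :=
    (CovZ.n2 (-16752, 14928) (by decide +kernel)
              (CovZ.n2 (-16800, 14928) (by decide +kernel)
               (CovZ.n2 (-16776, 14952) (by decide +kernel)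
                (CovZ.subM 4697085165547666455778961223936580842637426822360181588946060250334468062654422959022314734905751344655630336 (by decide +kernel)
                 (CovZ.n2 (-16776, 14928) (by decide +kernel)
                  (CovZ.n2 (-16788, 14940) (by decide +kernel)
                   (CovZ.n2 (-16776, 14940) (by decide +kernel)
                    (CovZ.n2 (-16782, 14934) (by decide +kernel)
                     (CovZ.leaf K2_ok TB_l43259 _)
                     (CovZ.n1 (-16776, 14934) (by decide +kernel)
                      (CovZ.leaf K2_ok TB_l43260 _)
                      (CovZ.leaf K2_ok TB_l43261 _)))
                    (CovZ.n1 (-16782, 14946) (by decide +kernel)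
                     (CovZ.leaf K2_ok TB_l43262 _)
                     (CovZ.leaf K2_ok TB_l43263 _)))
                   (CovZ.n1 (-16788, 14928) (by decide +kernel)
                    (CovZ.n2 (-16794, 14934) (by decide +kernel)
                     (CovZ.n2 (-16788, 14934) (by decide +kernel)
                      (CovZ.leaf K2_ok TB_l43264 _)
                      (CovZ.leaf K2_ok TB_l43265 _))
                     (CovZ.n1 (-16794, 14928) (by decide +kernel)
                      (CovZ.n2 (-16797, 14931) (by decide +kernel)
                       (CovZ.leaf K2_ok TB_l43266 _)
                       (CovZ.leaf K2_ok TB_l43267 _))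
                      (CovZ.leaf K2_ok TB_l43268 _)))
                    (CovZ.n1 (-16782, 14934) (by decide +kernel)
                     (CovZ.n2 (-16782, 14928) (by decide +kernel)
                      (CovZ.n2 (-16785, 14931) (by decide +kernel)
                       (CovZ.leaf K2_ok TB_l43269 _)
                       (CovZ.leaf K2_ok TB_l43270 _))
                      (CovZ.leaf K2_ok TB_l43271 _))
                     (CovZ.leaf K2_ok TB_l43272 _))))
                  (CovZ.n1 (-16764, 14940) (by decide +kernel)
                   (CovZ.n2 (-16764, 14928) (by decide +kernel)
                    (CovZ.n2 (-16770, 14934) (by decide +kernel)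
                     (CovZ.n2 (-16764, 14934) (by decide +kernel)
                      (CovZ.leaf K2_ok TB_l43273 _)
                      (CovZ.leaf K2_ok TB_l43274 _))
                     (CovZ.n1 (-16770, 14928) (by decide +kernel)
                      (CovZ.n2 (-16773, 14931) (by decide +kernel)
                       (CovZ.leaf K2_ok TB_l43275 _)
                       (CovZ.leaf K2_ok TB_l43276 _))
                      (CovZ.leaf K2_ok TB_l43277 _)))
                    (CovZ.n1 (-16758, 14934) (by decide +kernel)
                     (CovZ.n2 (-16758, 14928) (by decide +kernel)
                      (CovZ.leaf K2_ok TB_l43278 _)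
                      (CovZ.leaf K2_ok TB_l43279 _))
                     (CovZ.leaf K2_ok TB_l43280 _)))
                   (CovZ.n1 (-16776, 14940) (by decide +kernel)
                    (CovZ.n2 (-16770, 14946) (by decide +kernel)
                     (CovZ.leaf K2_ok TB_l43281 _)
                     (CovZ.leaf K2_ok TB_l43282 _))
                    (CovZ.n1 (-16770, 14934) (by decide +kernel)
                     (CovZ.n2 (-16776, 14934) (by decide +kernel)
                      (CovZ.leaf K2_ok TB_l43283 _)
                      (CovZ.n1 (-16773, 14931) (by decide +kernel)
                       (CovZ.leaf K2_ok TB_l43284 _)
                       (CovZ.n1 (-16773, 14934) (by decide +kernel)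
                        (CovZ.leaf K2_ok TB_l43285 _)
                        (CovZ.leaf K2_ok TB_l43286 _))))
                     (CovZ.leaf K2_ok TB_l43287 _))))))
                (CovZ.n1 (-16800, 14952) (by decide +kernel)
                 (CovZ.n2 (-16788, 14964) (by decide +kernel)
                  (CovZ.n2 (-16788, 14952) (by decide +kernel)
                   (CovZ.n2 (-16794, 14958) (by decide +kernel)
                    (CovZ.leaf K2_ok TB_l43288 _)
                    (CovZ.leaf K2_ok TB_l43289 _))
                   (CovZ.leaf K2_ok TB_l43290 _))
                  (CovZ.leaf K2_ok TB_l43291 _))
                 (CovZ.subM 4697085165547666455778961223936580842637426822360181588946060250334468062654422959022314734905751344655630336 (by decide +kernel)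
                  (CovZ.n1 (-16788, 14940) (by decide +kernel)
                   (CovZ.n2 (-16800, 14940) (by decide +kernel)
                    (CovZ.leaf K2_ok TB_l43292 _)
                    (CovZ.n1 (-16794, 14934) (by decide +kernel)
                     (CovZ.n2 (-16800, 14934) (by decide +kernel)
                      (CovZ.leaf K2_ok TB_l43293 _)
                      (CovZ.leaf K2_ok TB_l43294 _))
                     (CovZ.leaf K2_ok TB_l43295 _)))
                   (CovZ.n1 (-16788, 14952) (by decide +kernel)
                    (CovZ.leaf K2_ok TB_l43296 _)
                    (CovZ.leaf K2_ok TB_l43297 _))))))
               (CovZ.badM (by decide +kernel)))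
              (CovZ.n1 (-16752, 14976) (by decide +kernel)
               (CovZ.subM 4697085165547666455778961223936580842637433562346848376606008917088239817562091368308420370048871620558192640 (by decide +kernel)
                (CovZ.n2 (-16728, 14952) (by decide +kernel)
                 (CovZ.n2 (-16752, 14952) (by decide +kernel)
                  (CovZ.n2 (-16740, 14964) (by decide +kernel)
                   (CovZ.n2 (-16740, 14952) (by decide +kernel)
                    (CovZ.leaf K2_ok TB_l43298 _)
                    (CovZ.leaf K2_ok TB_l43299 _))
                   (CovZ.n1 (-16752, 14964) (by decide +kernel)
                    (CovZ.leaf K2_ok TB_l43300 _)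
                    (CovZ.n1 (-16746, 14958) (by decide +kernel)
                     (CovZ.leaf K2_ok TB_l43301 _)
                     (CovZ.n1 (-16746, 14964) (by decide +kernel)
                      (CovZ.leaf K2_ok TB_l43302 _)
                      (CovZ.leaf K2_ok TB_l43303 _)))))
                  (CovZ.n1 (-16740, 14940) (by decide +kernel)
                   (CovZ.n2 (-16752, 14940) (by decide +kernel)
                    (CovZ.leaf K2_ok TB_l43304 _)
                    (CovZ.n1 (-16746, 14934) (by decide +kernel)
                     (CovZ.leaf K2_ok TB_l43305 _)
                     (CovZ.leaf K2_ok TB_l43306 _)))
                   (CovZ.n1 (-16740, 14952) (by decide +kernel)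
                    (CovZ.n2 (-16734, 14946) (by decide +kernel)
                     (CovZ.leaf K2_ok TB_l43307 _)
                     (CovZ.leaf K2_ok TB_l43308 _))
                    (CovZ.leaf K2_ok TB_l43309 _))))
                 (CovZ.n1 (-16728, 14976) (by decide +kernel)
                  (CovZ.n2 (-16716, 14964) (by decide +kernel)
                   (CovZ.n2 (-16728, 14964) (by decide +kernel)
                    (CovZ.leaf K2_ok TB_l43310 _)
                    (CovZ.leaf K2_ok TB_l43311 _))
                   (CovZ.n1 (-16716, 14976) (by decide +kernel)
                    (CovZ.leaf K2_ok TB_l43312 _)
                    (CovZ.leaf K2_ok TB_l43313 _)))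
                  (CovZ.n1 (-16740, 14964) (by decide +kernel)
                   (CovZ.n2 (-16740, 14976) (by decide +kernel)
                    (CovZ.n2 (-16734, 14970) (by decide +kernel)
                     (CovZ.leaf K2_ok TB_l43314 _)
                     (CovZ.leaf K2_ok TB_l43315 _))
                    (CovZ.leaf K2_ok TB_l43316 _))
                   (CovZ.n1 (-16728, 14964) (by decide +kernel)
                    (CovZ.leaf K2_ok TB_l43317 _)
                    (CovZ.leaf K2_ok TB_l43318 _))))))
               (CovZ.n1 (-16776, 14952) (by decide +kernel)
                (CovZ.n2 (-16776, 14976) (by decide +kernel)
                 (CovZ.n2 (-16764, 14964) (by decide +kernel)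
                  (CovZ.leaf K2_ok TB_l43319 _)
                  (CovZ.n1 (-16764, 14976) (by decide +kernel)
                   (CovZ.leaf K2_ok TB_l43320 _)
                   (CovZ.leaf K2_ok TB_l43321 _)))
                 (CovZ.n1 (-16788, 14964) (by decide +kernel)
                  (CovZ.n2 (-16788, 14976) (by decide +kernel)
                   (CovZ.leaf K2_ok TB_l43322 _)
                   (CovZ.leaf K2_ok TB_l43323 _))
                  (CovZ.leaf K2_ok TB_l43324 _)))
                (CovZ.subM 4697085165547666455778961223936580842637433562346848376606008917088239817562091368308420370048871620558192640 (by decide +kernel)
                 (CovZ.n1 (-16752, 14952) (by decide +kernel)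
                  (CovZ.n2 (-16764, 14940) (by decide +kernel)
                   (CovZ.n2 (-16764, 14952) (by decide +kernel)
                    (CovZ.leaf K2_ok TB_l43325 _)
                    (CovZ.leaf K2_ok TB_l43326 _))
                   (CovZ.n1 (-16752, 14940) (by decide +kernel)
                    (CovZ.n2 (-16758, 14934) (by decide +kernel)
                     (CovZ.leaf K2_ok TB_l43327 _)
                     (CovZ.n1 (-16752, 14934) (by decide +kernel)
                      (CovZ.leaf K2_ok TB_l43328 _)
                      (CovZ.leaf K2_ok TB_l43329 _)))
                    (CovZ.n1 (-16758, 14946) (by decide +kernel)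
                     (CovZ.leaf K2_ok TB_l43330 _)
                     (CovZ.leaf K2_ok TB_l43331 _))))
                  (CovZ.n1 (-16764, 14964) (by decide +kernel)
                   (CovZ.n2 (-16752, 14964) (by decide +kernel)
                    (CovZ.n2 (-16758, 14958) (by decide +kernel)
                     (CovZ.leaf K2_ok TB_l43332 _)
                     (CovZ.leaf K2_ok TB_l43333 _))
                    (CovZ.leaf K2_ok TB_l43334 _))
                   (CovZ.n1 (-16764, 14952) (by decide +kernel)
                    (CovZ.leaf K2_ok TB_l43335 _)
                    (CovZ.leaf K2_ok TB_l43336 _))))))))

theorem TB_u348 : CovZ TB_M (toL (selN TB_LN 305310535760598319625632477612971720353793269849585348564894204290163035758222687409584322436256494696177598464)) [0, 7, 6, 1] (-16800, 14976) (-16896, 14976) (-16800, 14880) :=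
    (CovZ.n1 (-16848, 14928) (by decide +kernel)
              (CovZ.n2 (-16848, 14976) (by decide +kernel)
               (CovZ.n2 (-16824, 14952) (by decide +kernel)
                (CovZ.n2 (-16848, 14952) (by decide +kernel)
                 (CovZ.n2 (-16836, 14964) (by decide +kernel)
                  (CovZ.n2 (-16836, 14952) (by decide +kernel)
                   (CovZ.leaf K2_ok TB_l43337 _)
                   (CovZ.leaf K2_ok TB_l43338 _))
                  (CovZ.leaf K2_ok TB_l43339 _))
                 (CovZ.subM 4697085165547666455778961223936580842637649241920185581724366253208935974607480465463800694628720449440186368 (by decide +kernel)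
                  (CovZ.n1 (-16836, 14940) (by decide +kernel)
                   (CovZ.n2 (-16848, 14940) (by decide +kernel)
                    (CovZ.leaf K2_ok TB_l43340 _)
                    (CovZ.n1 (-16842, 14934) (by decide +kernel)
                     (CovZ.n2 (-16848, 14934) (by decide +kernel)
                      (CovZ.leaf K2_ok TB_l43341 _)
                      (CovZ.leaf K2_ok TB_l43342 _))
                     (CovZ.leaf K2_ok TB_l43343 _)))
                   (CovZ.n1 (-16836, 14952) (by decide +kernel)
                    (CovZ.leaf K2_ok TB_l43344 _)
                    (CovZ.leaf K2_ok TB_l43345 _)))))
                (CovZ.n1 (-16824, 14976) (by decide +kernel)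
                 (CovZ.n2 (-16812, 14964) (by decide +kernel)
                  (CovZ.leaf K2_ok TB_l43346 _)
                  (CovZ.leaf K2_ok TB_l43347 _))
                 (CovZ.n1 (-16836, 14964) (by decide +kernel)
                  (CovZ.n2 (-16836, 14976) (by decide +kernel)
                   (CovZ.leaf K2_ok TB_l43348 _)
                   (CovZ.leaf K2_ok TB_l43349 _))
                  (CovZ.leaf K2_ok TB_l43350 _))))
               (CovZ.n1 (-16872, 14952) (by decide +kernel)
                (CovZ.n2 (-16872, 14976) (by decide +kernel)
                 (CovZ.n2 (-16860, 14964) (by decide +kernel)
                  (CovZ.leaf K2_ok TB_l43351 _)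
                  (CovZ.leaf K2_ok TB_l43352 _))
                 (CovZ.n1 (-16884, 14964) (by decide +kernel)
                  (CovZ.n2 (-16884, 14976) (by decide +kernel)
                   (CovZ.leaf K2_ok TB_l43353 _)
                   (CovZ.leaf K2_ok TB_l43354 _))
                  (CovZ.n1 (-16872, 14964) (by decide +kernel)
                   (CovZ.leaf K2_ok TB_l43355 _)
                   (CovZ.leaf K2_ok TB_l43356 _))))
                (CovZ.n1 (-16848, 14952) (by decide +kernel)
                 (CovZ.subM 4697085165547666455778961223936580842637649241920185581724366253208935974607480465463800694628720449440186368 (by decide +kernel)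
                  (CovZ.n2 (-16860, 14940) (by decide +kernel)
                   (CovZ.n2 (-16860, 14952) (by decide +kernel)
                    (CovZ.leaf K2_ok TB_l43357 _)
                    (CovZ.leaf K2_ok TB_l43358 _))
                   (CovZ.n1 (-16848, 14940) (by decide +kernel)
                    (CovZ.n2 (-16854, 14934) (by decide +kernel)
                     (CovZ.leaf K2_ok TB_l43359 _)
                     (CovZ.leaf K2_ok TB_l43360 _))
                    (CovZ.leaf K2_ok TB_l43361 _))))
                 (CovZ.n1 (-16860, 14964) (by decide +kernel)
                  (CovZ.leaf K2_ok TB_l43362 _)
                  (CovZ.n1 (-16860, 14952) (by decide +kernel)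
                   (CovZ.n2 (-16866, 14958) (by decide +kernel)
                    (CovZ.leaf K2_ok TB_l43363 _)
                    (CovZ.leaf K2_ok TB_l43364 _))
                   (CovZ.leaf K2_ok TB_l43365 _))))))
              (CovZ.n1 (-16800, 14928) (by decide +kernel)
               (CovZ.subM 3450873173395281893717377931138512726225554486085193277581262111899648 (by decide +kernel)
                (CovZ.n2 (-16824, 14904) (by decide +kernel)
                 (CovZ.n2 (-16824, 14928) (by decide +kernel)
                  (CovZ.badM (by decide +kernel))
                  (CovZ.n1 (-16836, 14916) (by decide +kernel)
                   (CovZ.n2 (-16836, 14928) (by decide +kernel)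
                    (CovZ.badM (by decide +kernel))
                    (CovZ.n1 (-16842, 14922) (by decide +kernel)
                     (CovZ.n2 (-16842, 14928) (by decide +kernel)
                      (CovZ.leaf K2_ok TB_l43366 _)
                      (CovZ.leaf K2_ok TB_l43367 _))
                     (CovZ.badM (by decide +kernel))))
                   (CovZ.badM (by decide +kernel))))
                 (CovZ.badM (by decide +kernel))))
               (CovZ.n1 (-16824, 14952) (by decide +kernel)
                (CovZ.n2 (-16800, 14952) (by decide +kernel)
                 (CovZ.subM 4697085165547666455778961223936580842637433562346848376606008917088239817562091368308420370048871620558192640 (by decide +kernel)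
                  (CovZ.n2 (-16812, 14940) (by decide +kernel)
                   (CovZ.n2 (-16812, 14952) (by decide +kernel)
                    (CovZ.leaf K2_ok TB_l43368 _)
                    (CovZ.leaf K2_ok TB_l43369 _))
                   (CovZ.n1 (-16800, 14940) (by decide +kernel)
                    (CovZ.n2 (-16806, 14934) (by decide +kernel)
                     (CovZ.leaf K2_ok TB_l43370 _)
                     (CovZ.n1 (-16800, 14934) (by decide +kernel)
                      (CovZ.leaf K2_ok TB_l43371 _)
                      (CovZ.leaf K2_ok TB_l43372 _)))
                    (CovZ.leaf K2_ok TB_l43373 _))))
                 (CovZ.n1 (-16812, 14964) (by decide +kernel)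
                  (CovZ.n2 (-16800, 14964) (by decide +kernel)
                   (CovZ.leaf K2_ok TB_l43374 _)
                   (CovZ.leaf K2_ok TB_l43375 _))
                  (CovZ.n1 (-16812, 14952) (by decide +kernel)
                   (CovZ.n2 (-16818, 14958) (by decide +kernel)
                    (CovZ.leaf K2_ok TB_l43376 _)
                    (CovZ.leaf K2_ok TB_l43377 _))
                   (CovZ.leaf K2_ok TB_l43378 _))))
                (CovZ.subM 4697085165547666455778961223936580842637433562346848376606008917088239817562091368308420370048871620558192640 (by decide +kernel)
                 (CovZ.n1 (-16824, 14928) (by decide +kernel)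
                  (CovZ.n2 (-16836, 14940) (by decide +kernel)
                   (CovZ.n2 (-16824, 14940) (by decide +kernel)
                    (CovZ.n2 (-16830, 14934) (by decide +kernel)
                     (CovZ.leaf K2_ok TB_l43379 _)
                     (CovZ.leaf K2_ok TB_l43380 _))
                    (CovZ.leaf K2_ok TB_l43381 _))
                   (CovZ.n1 (-16836, 14928) (by decide +kernel)
                    (CovZ.n2 (-16842, 14934) (by decide +kernel)
                     (CovZ.leaf K2_ok TB_l43382 _)
                     (CovZ.leaf K2_ok TB_l43383 _))
                    (CovZ.n1 (-16830, 14934) (by decide +kernel)
                     (CovZ.leaf K2_ok TB_l43384 _)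
                     (CovZ.leaf K2_ok TB_l43385 _))))
                  (CovZ.n1 (-16812, 14940) (by decide +kernel)
                   (CovZ.n2 (-16812, 14928) (by decide +kernel)
                    (CovZ.n2 (-16818, 14934) (by decide +kernel)
                     (CovZ.leaf K2_ok TB_l43386 _)
                     (CovZ.n1 (-16818, 14928) (by decide +kernel)
                      (CovZ.leaf K2_ok TB_l43387 _)
                      (CovZ.leaf K2_ok TB_l43388 _)))
                    (CovZ.n1 (-16806, 14934) (by decide +kernel)
                     (CovZ.n2 (-16806, 14928) (by decide +kernel)
                      (CovZ.leaf K2_ok TB_l43389 _)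
                      (CovZ.leaf K2_ok TB_l43390 _))
                     (CovZ.leaf K2_ok TB_l43391 _)))
                   (CovZ.n1 (-16824, 14940) (by decide +kernel)
                    (CovZ.leaf K2_ok TB_l43392 _)
                    (CovZ.n1 (-16818, 14934) (by decide +kernel)
                     (CovZ.leaf K2_ok TB_l43393 _)
                     (CovZ.leaf K2_ok TB_l43394 _)))))))))

theorem TB_u349 : CovZ TB_M (toL (selN TB_LN 1174271431370964043282510025560412658500852399442324268496590074349966464288042162463615015063861765104205864)) [0, 7, 6, 1] (-16512, 14208) (-16416, 14304) (-16512, 14400) :=
    (CovZ.n2 (-16512, 14304) (by decide +kernel)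
             (CovZ.n2 (-16464, 14352) (by decide +kernel)
              (CovZ.n2 (-16464, 14304) (by decide +kernel)
               (CovZ.n2 (-16488, 14328) (by decide +kernel)
                (CovZ.subM 139984046386120720346867021000390569054903274396281456012862193796869904262996871877035804098423685128 (by decide +kernel)
                 (CovZ.n2 (-16464, 14328) (by decide +kernel)
                  (CovZ.leaf K2_ok TB_l26342 _)
                  (CovZ.n1 (-16476, 14340) (by decide +kernel)
                   (CovZ.n2 (-16464, 14340) (by decide +kernel)
                    (CovZ.leaf K2_ok TB_l43450 _)
                    (CovZ.n1 (-16470, 14346) (by decide +kernel)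
                     (CovZ.leaf K2_ok TB_l43451 _)
                     (CovZ.leaf K2_ok TB_l43452 _)))
                   (CovZ.n1 (-16476, 14328) (by decide +kernel)
                    (CovZ.leaf K2_ok TB_l43453 _)
                    (CovZ.leaf K2_ok TB_l43454 _)))))
                (CovZ.n1 (-16488, 14304) (by decide +kernel)
                 (CovZ.leaf K2_ok TB_l26343 _)
                 (CovZ.leaf K2_ok TB_l26344 _)))
               (CovZ.subM 139984046386120720346867021000404399507543522674496120191601834867405480118085635191006840626633244680 (by decide +kernel)
                (CovZ.n1 (-16440, 14328) (by decide +kernel)
                 (CovZ.n2 (-16440, 14304) (by decide +kernel)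
                  (CovZ.n2 (-16452, 14316) (by decide +kernel)
                   (CovZ.leaf K2_ok TB_l26345 _)
                   (CovZ.leaf K2_ok TB_l26346 _))
                  (CovZ.n1 (-16428, 14316) (by decide +kernel)
                   (CovZ.leaf K2_ok TB_l26347 _)
                   (CovZ.leaf K2_ok TB_l26348 _)))
                 (CovZ.n1 (-16464, 14328) (by decide +kernel)
                  (CovZ.n2 (-16452, 14340) (by decide +kernel)
                   (CovZ.n2 (-16452, 14328) (by decide +kernel)
                    (CovZ.n2 (-16458, 14334) (by decide +kernel)
                     (CovZ.n2 (-16452, 14334) (by decide +kernel)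
                      (CovZ.leaf K2_ok TB_l43455 _)
                      (CovZ.leaf K2_ok TB_l43456 _))
                     (CovZ.leaf K2_ok TB_l43457 _))
                    (CovZ.n1 (-16446, 14334) (by decide +kernel)
                     (CovZ.leaf K2_ok TB_l43458 _)
                     (CovZ.leaf K2_ok TB_l43459 _)))
                   (CovZ.subM 7957186967592915173295780243562474791411872792000669413350355932329725233389083260092416 (by decide +kernel)
                    (CovZ.n1 (-16464, 14340) (by decide +kernel)
                     (CovZ.n2 (-16458, 14346) (by decide +kernel)
                      (CovZ.leaf K2_ok TB_l43460 _)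
                      (CovZ.n1 (-16464, 14346) (by decide +kernel)
                       (CovZ.leaf K2_ok TB_l43461 _)
                       (CovZ.leaf K2_ok TB_l43462 _)))
                     (CovZ.n1 (-16458, 14334) (by decide +kernel)
                      (CovZ.leaf K2_ok TB_l43463 _)
                      (CovZ.leaf K2_ok TB_l43464 _)))))
                  (CovZ.n1 (-16452, 14316) (by decide +kernel)
                   (CovZ.leaf K2_ok TB_l26349 _)
                   (CovZ.n1 (-16452, 14328) (by decide +kernel)
                    (CovZ.n2 (-16446, 14322) (by decide +kernel)
                     (CovZ.leaf K2_ok TB_l43465 _)
                     (CovZ.n1 (-16446, 14328) (by decide +kernel)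
                      (CovZ.leaf K2_ok TB_l43466 _)
                      (CovZ.leaf K2_ok TB_l43467 _)))
                    (CovZ.leaf K2_ok TB_l43468 _)))))))
              (CovZ.n1 (-16512, 14352) (by decide +kernel)
               (CovZ.subM 7957187026878464862801672300430819115860081612874901562158324720532008245440605635739648 (by decide +kernel)
                (CovZ.n2 (-16488, 14376) (by decide +kernel)
                 (CovZ.n2 (-16488, 14352) (by decide +kernel)
                  (CovZ.n2 (-16500, 14364) (by decide +kernel)
                   (CovZ.n2 (-16488, 14364) (by decide +kernel)
                    (CovZ.n2 (-16494, 14358) (by decide +kernel)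
                     (CovZ.leaf K2_ok TB_l43469 _)
                     (CovZ.n1 (-16488, 14358) (by decide +kernel)
                      (CovZ.leaf K2_ok TB_l43470 _)
                      (CovZ.leaf K2_ok TB_l43471 _)))
                    (CovZ.n1 (-16494, 14370) (by decide +kernel)
                     (CovZ.badM (by decide +kernel))
                     (CovZ.n1 (-16494, 14364) (by decide +kernel)
                      (CovZ.leaf K2_ok TB_l43472 _)
                      (CovZ.badM (by decide +kernel)))))
                   (CovZ.n1 (-16500, 14352) (by decide +kernel)
                    (CovZ.n2 (-16506, 14358) (by decide +kernel)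
                     (CovZ.leaf K2_ok TB_l43473 _)
                     (CovZ.leaf K2_ok TB_l43474 _))
                    (CovZ.n1 (-16494, 14358) (by decide +kernel)
                     (CovZ.leaf K2_ok TB_l43475 _)
                     (CovZ.leaf K2_ok TB_l43476 _))))
                  (CovZ.n1 (-16476, 14364) (by decide +kernel)
                   (CovZ.n2 (-16476, 14352) (by decide +kernel)
                    (CovZ.n2 (-16482, 14358) (by decide +kernel)
                     (CovZ.n2 (-16476, 14358) (by decide +kernel)
                      (CovZ.leaf K2_ok TB_l43477 _)
                      (CovZ.badM (by decide +kernel)))
                     (CovZ.n1 (-16482, 14352) (by decide +kernel)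
                      (CovZ.leaf K2_ok TB_l43478 _)
                      (CovZ.leaf K2_ok TB_l43479 _)))
                    (CovZ.n1 (-16470, 14358) (by decide +kernel)
                     (CovZ.leaf K2_ok TB_l43480 _)
                     (CovZ.n1 (-16476, 14358) (by decide +kernel)
                      (CovZ.badM (by decide +kernel))
                      (CovZ.leaf K2_ok TB_l43481 _))))
                   (CovZ.n1 (-16488, 14364) (by decide +kernel)
                    (CovZ.badM (by decide +kernel))
                    (CovZ.n1 (-16482, 14358) (by decide +kernel)
                     (CovZ.n2 (-16488, 14358) (by decide +kernel)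
                      (CovZ.n2 (-16485, 14361) (by decide +kernel)
                       (CovZ.leaf K2_ok TB_l43482 _)
                       (CovZ.leaf K2_ok TB_l43483 _))
                      (CovZ.leaf K2_ok TB_l43484 _))
                     (CovZ.badM (by decide +kernel))))))
                 (CovZ.n1 (-16512, 14376) (by decide +kernel)
                  (CovZ.badM (by decide +kernel))
                  (CovZ.n1 (-16500, 14364) (by decide +kernel)
                   (CovZ.n2 (-16512, 14364) (by decide +kernel)
                    (CovZ.n2 (-16506, 14370) (by decide +kernel)
                     (CovZ.leaf K2_ok TB_l43485 _)
                     (CovZ.leaf K2_ok TB_l43486 _))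
                    (CovZ.n1 (-16506, 14358) (by decide +kernel)
                     (CovZ.leaf K2_ok TB_l43487 _)
                     (CovZ.leaf K2_ok TB_l43488 _)))
                   (CovZ.subM 7957171783023603107367988184860666368012992504230198489480123132370101053164302249230336 (by decide +kernel)
                    (CovZ.n1 (-16500, 14376) (by decide +kernel)
                     (CovZ.n2 (-16494, 14370) (by decide +kernel)
                      (CovZ.n2 (-16500, 14370) (by decide +kernel)
                       (CovZ.badM (by decide +kernel))
                       (CovZ.leaf K2_ok TB_l43489 _))
                      (CovZ.badM (by decide +kernel)))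
                     (CovZ.n1 (-16506, 14370) (by decide +kernel)
                      (CovZ.badM (by decide +kernel))
                      (CovZ.n1 (-16500, 14370) (by decide +kernel)
                       (CovZ.leaf K2_ok TB_l43490 _)
                       (CovZ.badM (by decide +kernel))))))))))
               (CovZ.n1 (-16488, 14328) (by decide +kernel)
                (CovZ.n2 (-16512, 14328) (by decide +kernel)
                 (CovZ.n2 (-16500, 14340) (by decide +kernel)
                  (CovZ.leaf K2_ok TB_l26350 _)
                  (CovZ.leaf K2_ok TB_l26351 _))
                 (CovZ.leaf K2_ok TB_l26352 _))
                (CovZ.subM 139984046386120720346867021000390569054903274396281456012862193711799150273480591094550283935111184384 (by decide +kernel)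
                 (CovZ.n1 (-16488, 14352) (by decide +kernel)
                  (CovZ.n2 (-16476, 14340) (by decide +kernel)
                   (CovZ.leaf K2_ok TB_l43491 _)
                   (CovZ.n1 (-16476, 14352) (by decide +kernel)
                    (CovZ.n2 (-16470, 14346) (by decide +kernel)
                     (CovZ.leaf K2_ok TB_l43492 _)
                     (CovZ.n1 (-16470, 14352) (by decide +kernel)
                      (CovZ.leaf K2_ok TB_l43493 _)
                      (CovZ.leaf K2_ok TB_l43494 _)))
                    (CovZ.leaf K2_ok TB_l43495 _)))
                  (CovZ.n1 (-16500, 14340) (by decide +kernel)
                   (CovZ.leaf K2_ok TB_l43496 _)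
                   (CovZ.n1 (-16488, 14340) (by decide +kernel)
                    (CovZ.leaf K2_ok TB_l43497 _)
                    (CovZ.leaf K2_ok TB_l43498 _))))))))
             (CovZ.n1 (-16464, 14256) (by decide +kernel)
              (CovZ.n2 (-16512, 14256) (by decide +kernel)
               (CovZ.n2 (-16488, 14280) (by decide +kernel)
                (CovZ.leaf K2_ok TB_l26353 _)
                (CovZ.leaf K2_ok TB_l26354 _))
               (CovZ.leaf K2_ok TB_l26355 _))
              (CovZ.n1 (-16464, 14304) (by decide +kernel)
               (CovZ.n2 (-16440, 14280) (by decide +kernel)
                (CovZ.leaf K2_ok TB_l26356 _)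
                (CovZ.n1 (-16440, 14304) (by decide +kernel)
                 (CovZ.n2 (-16428, 14292) (by decide +kernel)
                  (CovZ.leaf K2_ok TB_l26357 _)
                  (CovZ.leaf K2_ok TB_l26358 _))
                 (CovZ.leaf K2_ok TB_l26359 _)))
               (CovZ.n1 (-16488, 14280) (by decide +kernel)
                (CovZ.n2 (-16488, 14304) (by decide +kernel)
                 (CovZ.leaf K2_ok TB_l26360 _)
                 (CovZ.leaf K2_ok TB_l26361 _))
                (CovZ.leaf K2_ok TB_l26362 _)))))

theorem TB_u350 : CovZ TB_M (toL (selN TB_LN 1174271431370964043282510025560412658500852399442324268496590074349966464288042162463615015063861765104205864)) [0, 7, 6, 1] (-16416, 14304) (-16320, 14400) (-16512, 14400) :=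
    (CovZ.subM 7957186967592915185400796297113112059217362566072483585813433778050442277404604261990400 (by decide +kernel)
             (CovZ.n1 (-16416, 14400) (by decide +kernel)
              (CovZ.n2 (-16368, 14352) (by decide +kernel)
               (CovZ.n2 (-16416, 14352) (by decide +kernel)
                (CovZ.badM (by decide +kernel))
                (CovZ.n1 (-16392, 14328) (by decide +kernel)
                 (CovZ.n2 (-16416, 14328) (by decide +kernel)
                  (CovZ.badM (by decide +kernel))
                  (CovZ.n1 (-16404, 14316) (by decide +kernel)
                   (CovZ.n2 (-16416, 14316) (by decide +kernel)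
                    (CovZ.subM 7957171783081499151959686335905301220722669443069813851139306269967289272687155203801088 (by decide +kernel)
                     (CovZ.n2 (-16410, 14322) (by decide +kernel)
                      (CovZ.n2 (-16410, 14316) (by decide +kernel)
                       (CovZ.leaf K2_ok TB_l43501 _)
                       (CovZ.leaf K2_ok TB_l43502 _))
                      (CovZ.n1 (-16416, 14322) (by decide +kernel)
                       (CovZ.leaf K2_ok TB_l43503 _)
                       (CovZ.leaf K2_ok TB_l43504 _))))
                    (CovZ.leaf K2_ok TB_l43505 _))
                   (CovZ.subM 7957171782614485852825863571496728740501310867608249757021674807970737559897996768837632 (by decide +kernel)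
                    (CovZ.n1 (-16404, 14328) (by decide +kernel)
                     (CovZ.n2 (-16398, 14322) (by decide +kernel)
                      (CovZ.n2 (-16404, 14322) (by decide +kernel)
                       (CovZ.badM (by decide +kernel))
                       (CovZ.leaf K2_ok TB_l43506 _))
                      (CovZ.badM (by decide +kernel)))
                     (CovZ.n1 (-16410, 14322) (by decide +kernel)
                      (CovZ.badM (by decide +kernel))
                      (CovZ.n1 (-16404, 14322) (by decide +kernel)
                       (CovZ.leaf K2_ok TB_l43509 _)
                       (CovZ.badM (by decide +kernel))))))))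
                 (CovZ.badM (by decide +kernel))))
               (CovZ.badM (by decide +kernel)))
              (CovZ.n1 (-16464, 14352) (by decide +kernel)
               (CovZ.badM (by decide +kernel))
               (CovZ.n1 (-16416, 14352) (by decide +kernel)
                (CovZ.n2 (-16440, 14328) (by decide +kernel)
                 (CovZ.subM 7957171783081499151959686335905301220722669443069813851139306269967289272687155203801088 (by decide +kernel)
                  (CovZ.n2 (-16440, 14352) (by decide +kernel)
                   (CovZ.n2 (-16428, 14340) (by decide +kernel)
                    (CovZ.n2 (-16440, 14340) (by decide +kernel)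
                     (CovZ.badM (by decide +kernel))
                     (CovZ.n1 (-16434, 14334) (by decide +kernel)
                      (CovZ.n2 (-16440, 14334) (by decide +kernel)
                       (CovZ.leaf K2_ok TB_l43513 _)
                       (CovZ.leaf K2_ok TB_l43514 _))
                      (CovZ.n1 (-16434, 14340) (by decide +kernel)
                       (CovZ.leaf K2_ok TB_l43515 _)
                       (CovZ.leaf K2_ok TB_l43516 _))))
                    (CovZ.badM (by decide +kernel)))
                   (CovZ.n1 (-16452, 14340) (by decide +kernel)
                    (CovZ.subM 7957171782556590029063088571082984445909154506546429243124341635403378533094815365595136 (by decide +kernel)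
                     (CovZ.n2 (-16452, 14352) (by decide +kernel)
                      (CovZ.n2 (-16446, 14346) (by decide +kernel)
                       (CovZ.n2 (-16452, 14346) (by decide +kernel)
                        (CovZ.badM (by decide +kernel))
                        (CovZ.leaf K2_ok TB_l43518 _))
                       (CovZ.badM (by decide +kernel)))
                      (CovZ.n1 (-16458, 14346) (by decide +kernel)
                       (CovZ.badM (by decide +kernel))
                       (CovZ.n1 (-16452, 14346) (by decide +kernel)
                        (CovZ.leaf K2_ok TB_l43521 _)
                        (CovZ.badM (by decide +kernel))))))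
                    (CovZ.n1 (-16440, 14340) (by decide +kernel)
                     (CovZ.n2 (-16446, 14334) (by decide +kernel)
                      (CovZ.leaf K2_ok TB_l43523 _)
                      (CovZ.n1 (-16440, 14334) (by decide +kernel)
                       (CovZ.leaf K2_ok TB_l43524 _)
                       (CovZ.leaf K2_ok TB_l43525 _)))
                     (CovZ.subM 7957171782556590029063088571082984445909154506546429243124341635403378533094815365595136 (by decide +kernel)
                      (CovZ.n1 (-16446, 14346) (by decide +kernel)
                       (CovZ.badM (by decide +kernel))
                       (CovZ.n1 (-16446, 14340) (by decide +kernel)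
                        (CovZ.leaf K2_ok TB_l43527 _)
                        (CovZ.n1 (-16443, 14343) (by decide +kernel)
                         (CovZ.leaf K2_ok TB_l43528 _)
                         (CovZ.leaf K2_ok TB_l43529 _)))))))))
                 (CovZ.n1 (-16416, 14328) (by decide +kernel)
                  (CovZ.n2 (-16428, 14316) (by decide +kernel)
                   (CovZ.n2 (-16428, 14328) (by decide +kernel)
                    (CovZ.n2 (-16422, 14322) (by decide +kernel)
                     (CovZ.leaf K2_ok TB_l43530 _)
                     (CovZ.n1 (-16422, 14328) (by decide +kernel)
                      (CovZ.leaf K2_ok TB_l43531 _)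
                      (CovZ.leaf K2_ok TB_l43532 _)))
                    (CovZ.leaf K2_ok TB_l43533 _))
                   (CovZ.n1 (-16416, 14316) (by decide +kernel)
                    (CovZ.leaf K2_ok TB_l43534 _)
                    (CovZ.n1 (-16422, 14322) (by decide +kernel)
                     (CovZ.n2 (-16416, 14322) (by decide +kernel)
                      (CovZ.leaf K2_ok TB_l43535 _)
                      (CovZ.leaf K2_ok TB_l43536 _))
                     (CovZ.leaf K2_ok TB_l43537 _))))
                  (CovZ.subM 7957171783081499151959686335905301220722669443069813851139306269967289272687155203801088 (by decide +kernel)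
                   (CovZ.n1 (-16428, 14340) (by decide +kernel)
                    (CovZ.badM (by decide +kernel))
                    (CovZ.n1 (-16428, 14328) (by decide +kernel)
                     (CovZ.n2 (-16434, 14334) (by decide +kernel)
                      (CovZ.n2 (-16428, 14334) (by decide +kernel)
                       (CovZ.leaf K2_ok TB_l43545 _)
                       (CovZ.leaf K2_ok TB_l43546 _))
                      (CovZ.n1 (-16434, 14328) (by decide +kernel)
                       (CovZ.n2 (-16437, 14331) (by decide +kernel)
                        (CovZ.leaf K2_ok TB_l43547 _)
                        (CovZ.leaf K2_ok TB_l43548 _))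
                       (CovZ.leaf K2_ok TB_l43549 _)))
                     (CovZ.subM 7957171782556590029063088571082984445909154506546429243124341635403378533094815365595136 (by decide +kernel)
                      (CovZ.n1 (-16422, 14334) (by decide +kernel)
                       (CovZ.n2 (-16422, 14328) (by decide +kernel)
                        (CovZ.n2 (-16425, 14331) (by decide +kernel)
                         (CovZ.badM (by decide +kernel))
                         (CovZ.leaf K2_ok TB_l43552 _))
                        (CovZ.badM (by decide +kernel)))
                       (CovZ.n1 (-16428, 14334) (by decide +kernel)
                        (CovZ.badM (by decide +kernel))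
                        (CovZ.n1 (-16425, 14331) (by decide +kernel)
                         (CovZ.leaf K2_ok TB_l43557 _)
                         (CovZ.badM (by decide +kernel)))))))))))
                (CovZ.badM (by decide +kernel))))))

theorem TB_u351 : CovZ TB_M (toL (selN TB_LN 1324694207824554808595987666204679245894029750810625096791977048932200411265829153755794281026927990941334009313838770421760)) [0, 7, 6, 1] (-16512, 14400) (-16512, 14496) (-16608, 14496) :=
    (CovZ.n2 (-16560, 14448) (by decide +kernel)
              (CovZ.n2 (-16560, 14496) (by decide +kernel)
               (CovZ.subM 1322111938245463554002501378793309699786455465789896201280815416680496042445066516874058603771694813328331734518569629646848 (by decide +kernel)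
                (CovZ.n2 (-16536, 14472) (by decide +kernel)
                 (CovZ.n2 (-16560, 14472) (by decide +kernel)
                  (CovZ.n2 (-16548, 14484) (by decide +kernel)
                   (CovZ.subM 9403346565304035375408576228180837025710194577235449841973649141475484755754658893248021448629008586481074176 (by decide +kernel)
                    (CovZ.n2 (-16548, 14472) (by decide +kernel)
                     (CovZ.n2 (-16554, 14478) (by decide +kernel)
                      (CovZ.badM (by decide +kernel))
                      (CovZ.n1 (-16554, 14472) (by decide +kernel)
                       (CovZ.leaf K2_ok TB_l43665 _)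
                       (CovZ.badM (by decide +kernel))))
                     (CovZ.badM (by decide +kernel))))
                   (CovZ.n1 (-16560, 14484) (by decide +kernel)
                    (CovZ.n2 (-16554, 14490) (by decide +kernel)
                     (CovZ.n2 (-16554, 14484) (by decide +kernel)
                      (CovZ.leaf K2_ok TB_l43666 _)
                      (CovZ.n1 (-16551, 14487) (by decide +kernel)
                       (CovZ.leaf K2_ok TB_l49669 _)
                       (CovZ.leaf K2_ok TB_l43667 _)))
                     (CovZ.n1 (-16560, 14490) (by decide +kernel)
                      (CovZ.leaf K2_ok TB_l43668 _)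
                      (CovZ.leaf K2_ok TB_l43669 _)))
                    (CovZ.subM 1322111937629807207183820143095618332289758415776128430033450633114467562978672535042876780326380756317959663590786478374912 (by decide +kernel)
                     (CovZ.n1 (-16554, 14478) (by decide +kernel)
                      (CovZ.n2 (-16560, 14478) (by decide +kernel)
                       (CovZ.leaf K2_ok TB_l43670 _)
                       (CovZ.leaf K2_ok TB_l43671 _))
                      (CovZ.n1 (-16554, 14484) (by decide +kernel)
                       (CovZ.n2 (-16551, 14481) (by decide +kernel)
                        (CovZ.leaf K2_ok TB_l49670 _)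
                        (CovZ.leaf K2_ok TB_l49671 _))
                       (CovZ.n1 (-16557, 14481) (by decide +kernel)
                        (CovZ.leaf K2_ok TB_l43672 _)
                        (CovZ.leaf K2_ok TB_l43673 _)))))))
                  (CovZ.subM 9403346565304035375917837164933350773006376918799701205755422882298807870553215257399026512474127968235421696 (by decide +kernel)
                   (CovZ.n1 (-16548, 14460) (by decide +kernel)
                    (CovZ.n2 (-16560, 14460) (by decide +kernel)
                     (CovZ.n2 (-16554, 14466) (by decide +kernel)
                      (CovZ.leaf K2_ok TB_l43674 _)
                      (CovZ.leaf K2_ok TB_l43675 _))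
                     (CovZ.n1 (-16554, 14454) (by decide +kernel)
                      (CovZ.leaf K2_ok TB_l43676 _)
                      (CovZ.n1 (-16554, 14460) (by decide +kernel)
                       (CovZ.leaf K2_ok TB_l43677 _)
                       (CovZ.leaf K2_ok TB_l43678 _))))
                    (CovZ.n1 (-16548, 14472) (by decide +kernel)
                     (CovZ.badM (by decide +kernel))
                     (CovZ.n1 (-16554, 14466) (by decide +kernel)
                      (CovZ.n2 (-16554, 14472) (by decide +kernel)
                       (CovZ.leaf K2_ok TB_l49672 _)
                       (CovZ.leaf K2_ok TB_l43679 _))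
                      (CovZ.leaf K2_ok TB_l49673 _))))))
                 (CovZ.n1 (-16536, 14496) (by decide +kernel)
                  (CovZ.badM (by decide +kernel))
                  (CovZ.n1 (-16548, 14484) (by decide +kernel)
                   (CovZ.n2 (-16548, 14496) (by decide +kernel)
                    (CovZ.subM 2239744742177804210557442280568444278121645497234649534899989100963791871180160945380877493271607115776 (by decide +kernel)
                     (CovZ.n2 (-16542, 14490) (by decide +kernel)
                      (CovZ.n2 (-16548, 14490) (by decide +kernel)
                       (CovZ.leaf K2_ok TB_l49674 _)
                       (CovZ.badM (by decide +kernel)))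
                      (CovZ.n1 (-16542, 14496) (by decide +kernel)
                       (CovZ.badM (by decide +kernel))
                       (CovZ.n1 (-16545, 14493) (by decide +kernel)
                        (CovZ.leaf K2_ok TB_l49675 _)
                        (CovZ.badM (by decide +kernel))))))
                    (CovZ.n1 (-16554, 14490) (by decide +kernel)
                     (CovZ.leaf K2_ok TB_l43680 _)
                     (CovZ.n1 (-16548, 14490) (by decide +kernel)
                      (CovZ.leaf K2_ok TB_l43681 _)
                      (CovZ.leaf K2_ok TB_l43682 _))))
                   (CovZ.badM (by decide +kernel))))))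
               (CovZ.n1 (-16584, 14472) (by decide +kernel)
                (CovZ.n2 (-16584, 14496) (by decide +kernel)
                 (CovZ.n2 (-16572, 14484) (by decide +kernel)
                  (CovZ.leaf K2_ok TB_l43683 _)
                  (CovZ.n1 (-16572, 14496) (by decide +kernel)
                   (CovZ.leaf K2_ok TB_l43684 _)
                   (CovZ.leaf K2_ok TB_l43685 _)))
                 (CovZ.n1 (-16596, 14484) (by decide +kernel)
                  (CovZ.leaf K2_ok TB_l43686 _)
                  (CovZ.leaf K2_ok TB_l43687 _)))
                (CovZ.n1 (-16560, 14472) (by decide +kernel)
                 (CovZ.n2 (-16572, 14460) (by decide +kernel)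
                  (CovZ.n2 (-16572, 14472) (by decide +kernel)
                   (CovZ.n2 (-16566, 14466) (by decide +kernel)
                    (CovZ.leaf K2_ok TB_l43688 _)
                    (CovZ.leaf K2_ok TB_l43689 _))
                   (CovZ.leaf K2_ok TB_l43690 _))
                  (CovZ.n1 (-16560, 14460) (by decide +kernel)
                   (CovZ.leaf K2_ok TB_l43691 _)
                   (CovZ.leaf K2_ok TB_l43692 _)))
                 (CovZ.n1 (-16572, 14484) (by decide +kernel)
                  (CovZ.subM 1322111938245463554002501378793309699786455465789896201280815416680496042445066516874058603771694813328331734518569629646848 (by decide +kernel)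
                   (CovZ.n2 (-16560, 14484) (by decide +kernel)
                    (CovZ.n2 (-16566, 14478) (by decide +kernel)
                     (CovZ.leaf K2_ok TB_l43693 _)
                     (CovZ.n1 (-16560, 14478) (by decide +kernel)
                      (CovZ.leaf K2_ok TB_l43694 _)
                      (CovZ.leaf K2_ok TB_l43695 _)))
                    (CovZ.n1 (-16566, 14490) (by decide +kernel)
                     (CovZ.leaf K2_ok TB_l43696 _)
                     (CovZ.leaf K2_ok TB_l43697 _))))
                  (CovZ.n1 (-16572, 14472) (by decide +kernel)
                   (CovZ.leaf K2_ok TB_l43698 _)
                   (CovZ.n1 (-16566, 14478) (by decide +kernel)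
                    (CovZ.leaf K2_ok TB_l43699 _)
                    (CovZ.leaf K2_ok TB_l43700 _)))))))
              (CovZ.subM 9403344325559293198113626607491070204562098797154203971105887982309706906761344077238081131596634696628305920 (by decide +kernel)
               (CovZ.n1 (-16512, 14448) (by decide +kernel)
                (CovZ.n2 (-16536, 14424) (by decide +kernel)
                 (CovZ.n2 (-16536, 14448) (by decide +kernel)
                  (CovZ.badM (by decide +kernel))
                  (CovZ.n1 (-16548, 14436) (by decide +kernel)
                   (CovZ.n2 (-16548, 14448) (by decide +kernel)
                    (CovZ.n2 (-16542, 14442) (by decide +kernel)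
                     (CovZ.n2 (-16548, 14442) (by decide +kernel)
                      (CovZ.leaf K2_ok TB_l49676 _)
                      (CovZ.n1 (-16545, 14439) (by decide +kernel)
                       (CovZ.leaf K2_ok TB_l43701 _)
                       (CovZ.badM (by decide +kernel))))
                     (CovZ.n1 (-16542, 14448) (by decide +kernel)
                      (CovZ.badM (by decide +kernel))
                      (CovZ.n1 (-16545, 14445) (by decide +kernel)
                       (CovZ.leaf K2_ok TB_l49677 _)
                       (CovZ.badM (by decide +kernel)))))
                    (CovZ.n1 (-16554, 14442) (by decide +kernel)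
                     (CovZ.leaf K2_ok TB_l43702 _)
                     (CovZ.leaf K2_ok TB_l43703 _)))
                   (CovZ.n1 (-16536, 14436) (by decide +kernel)
                    (CovZ.n2 (-16542, 14430) (by decide +kernel)
                     (CovZ.n2 (-16542, 14436) (by decide +kernel)
                      (CovZ.badM (by decide +kernel))
                      (CovZ.n1 (-16545, 14433) (by decide +kernel)
                       (CovZ.leaf K2_ok TB_l43704 _)
                       (CovZ.badM (by decide +kernel))))
                     (CovZ.badM (by decide +kernel)))
                    (CovZ.n1 (-16542, 14442) (by decide +kernel)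
                     (CovZ.badM (by decide +kernel))
                     (CovZ.n1 (-16542, 14436) (by decide +kernel)
                      (CovZ.n2 (-16545, 14439) (by decide +kernel)
                       (CovZ.badM (by decide +kernel))
                       (CovZ.leaf K2_ok TB_l43705 _))
                      (CovZ.badM (by decide +kernel)))))))
                 (CovZ.badM (by decide +kernel)))
                (CovZ.n1 (-16536, 14472) (by decide +kernel)
                 (CovZ.badM (by decide +kernel))
                 (CovZ.n1 (-16536, 14448) (by decide +kernel)
                  (CovZ.n2 (-16548, 14460) (by decide +kernel)
                   (CovZ.badM (by decide +kernel))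
                   (CovZ.n1 (-16548, 14448) (by decide +kernel)
                    (CovZ.n2 (-16554, 14454) (by decide +kernel)
                     (CovZ.leaf K2_ok TB_l43706 _)
                     (CovZ.n1 (-16554, 14448) (by decide +kernel)
                      (CovZ.leaf K2_ok TB_l43707 _)
                      (CovZ.leaf K2_ok TB_l43708 _)))
                    (CovZ.n1 (-16542, 14454) (by decide +kernel)
                     (CovZ.n2 (-16542, 14448) (by decide +kernel)
                      (CovZ.n2 (-16545, 14451) (by decide +kernel)
                       (CovZ.n2 (-16542, 14451) (by decide +kernel)
                        (CovZ.leaf K2_ok TB_l49678 _)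
                        (CovZ.leaf K2_ok TB_l49679 _))
                       (CovZ.leaf K2_ok TB_l49680 _))
                      (CovZ.badM (by decide +kernel)))
                     (CovZ.n1 (-16548, 14454) (by decide +kernel)
                      (CovZ.leaf K2_ok TB_l49681 _)
                      (CovZ.n1 (-16545, 14451) (by decide +kernel)
                       (CovZ.leaf K2_ok TB_l43709 _)
                       (CovZ.leaf K2_ok TB_l49682 _))))))
                  (CovZ.badM (by decide +kernel)))))))

theorem TB_u352 : CovZ TB_M (toL (selN TB_LN 1324694207824554808595987666204679245894029750810625096791977048932200411265829153755794281026927990941334009313838770421760)) [0, 7, 6, 1] (-16512, 14496) (-16512, 14592) (-16608, 14496) :=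
    (CovZ.n1 (-16560, 14544) (by decide +kernel)
              (CovZ.subM 2582250532221777120339554350279987576805607281242834648580174489224835477424440879201343985987685242245439088404463616000 (by decide +kernel)
               (CovZ.n2 (-16512, 14544) (by decide +kernel)
                (CovZ.n2 (-16536, 14520) (by decide +kernel)
                 (CovZ.n2 (-16536, 14544) (by decide +kernel)
                  (CovZ.n2 (-16524, 14532) (by decide +kernel)
                   (CovZ.n2 (-16536, 14532) (by decide +kernel)
                    (CovZ.badM (by decide +kernel))
                    (CovZ.badM (by decide +kernel)))
                   (CovZ.badM (by decide +kernel)))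
                  (CovZ.n1 (-16548, 14532) (by decide +kernel)
                   (CovZ.badM (by decide +kernel))
                   (CovZ.n1 (-16536, 14532) (by decide +kernel)
                    (CovZ.n2 (-16542, 14526) (by decide +kernel)
                     (CovZ.leaf K2_ok TB_l43710 _)
                     (CovZ.n1 (-16536, 14526) (by decide +kernel)
                      (CovZ.n2 (-16539, 14523) (by decide +kernel)
                       (CovZ.leaf K2_ok TB_l43711 _)
                       (CovZ.badM (by decide +kernel)))
                      (CovZ.badM (by decide +kernel))))
                    (CovZ.badM (by decide +kernel)))))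
                 (CovZ.badM (by decide +kernel)))
                (CovZ.badM (by decide +kernel))))
              (CovZ.n1 (-16560, 14496) (by decide +kernel)
               (CovZ.n2 (-16584, 14520) (by decide +kernel)
                (CovZ.n2 (-16560, 14520) (by decide +kernel)
                 (CovZ.n2 (-16572, 14508) (by decide +kernel)
                  (CovZ.leaf K2_ok TB_l43713 _)
                  (CovZ.n1 (-16560, 14508) (by decide +kernel)
                   (CovZ.leaf K2_ok TB_l43714 _)
                   (CovZ.leaf K2_ok TB_l43715 _)))
                 (CovZ.n1 (-16572, 14532) (by decide +kernel)
                  (CovZ.leaf K2_ok TB_l43716 _)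
                  (CovZ.leaf K2_ok TB_l43717 _)))
                (CovZ.n1 (-16584, 14496) (by decide +kernel)
                 (CovZ.n2 (-16596, 14508) (by decide +kernel)
                  (CovZ.leaf K2_ok TB_l43718 _)
                  (CovZ.leaf K2_ok TB_l43719 _))
                 (CovZ.n1 (-16572, 14508) (by decide +kernel)
                  (CovZ.n2 (-16572, 14496) (by decide +kernel)
                   (CovZ.leaf K2_ok TB_l43720 _)
                   (CovZ.n1 (-16566, 14502) (by decide +kernel)
                    (CovZ.leaf K2_ok TB_l43721 _)
                    (CovZ.leaf K2_ok TB_l43722 _)))
                  (CovZ.leaf K2_ok TB_l43723 _))))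
               (CovZ.subM 1324694188123541059247831738672114598034177680512520862694848921833065584179101048361781487780897713078636041055845748834304 (by decide +kernel)
                (CovZ.n1 (-16536, 14520) (by decide +kernel)
                 (CovZ.n2 (-16536, 14496) (by decide +kernel)
                  (CovZ.n2 (-16548, 14508) (by decide +kernel)
                   (CovZ.subM 1322111937629797803839494583802420727924087647576896319377528988061263396537660145765478558471501847352020692290262221717504 (by decide +kernel)
                    (CovZ.n2 (-16536, 14508) (by decide +kernel)
                     (CovZ.n2 (-16542, 14502) (by decide +kernel)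
                      (CovZ.n2 (-16542, 14508) (by decide +kernel)
                       (CovZ.leaf K2_ok TB_l43724 _)
                       (CovZ.leaf K2_ok TB_l43725 _))
                      (CovZ.badM (by decide +kernel)))
                     (CovZ.n1 (-16542, 14514) (by decide +kernel)
                      (CovZ.badM (by decide +kernel))
                      (CovZ.n1 (-16542, 14508) (by decide +kernel)
                       (CovZ.leaf K2_ok TB_l43726 _)
                       (CovZ.n1 (-16539, 14511) (by decide +kernel)
                        (CovZ.leaf K2_ok TB_l43727 _)
                        (CovZ.leaf K2_ok TB_l43728 _))))))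
                   (CovZ.n1 (-16548, 14496) (by decide +kernel)
                    (CovZ.n2 (-16554, 14502) (by decide +kernel)
                     (CovZ.leaf K2_ok TB_l43729 _)
                     (CovZ.leaf K2_ok TB_l43730 _))
                    (CovZ.n1 (-16542, 14502) (by decide +kernel)
                     (CovZ.n2 (-16542, 14496) (by decide +kernel)
                      (CovZ.leaf K2_ok TB_l49683 _)
                      (CovZ.badM (by decide +kernel)))
                     (CovZ.leaf K2_ok TB_l43731 _))))
                  (CovZ.n1 (-16524, 14508) (by decide +kernel)
                   (CovZ.badM (by decide +kernel))
                   (CovZ.n1 (-16536, 14508) (by decide +kernel)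
                    (CovZ.badM (by decide +kernel))
                    (CovZ.badM (by decide +kernel)))))
                 (CovZ.n1 (-16560, 14520) (by decide +kernel)
                  (CovZ.n2 (-16548, 14532) (by decide +kernel)
                   (CovZ.n2 (-16548, 14520) (by decide +kernel)
                    (CovZ.n2 (-16554, 14526) (by decide +kernel)
                     (CovZ.leaf K2_ok TB_l43732 _)
                     (CovZ.n1 (-16554, 14520) (by decide +kernel)
                      (CovZ.leaf K2_ok TB_l43733 _)
                      (CovZ.leaf K2_ok TB_l43734 _)))
                    (CovZ.n1 (-16542, 14526) (by decide +kernel)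
                     (CovZ.n2 (-16542, 14520) (by decide +kernel)
                      (CovZ.leaf K2_ok TB_l43735 _)
                      (CovZ.leaf K2_ok TB_l43736 _))
                     (CovZ.leaf K2_ok TB_l43737 _)))
                   (CovZ.n1 (-16560, 14532) (by decide +kernel)
                    (CovZ.n2 (-16554, 14538) (by decide +kernel)
                     (CovZ.leaf K2_ok TB_l43738 _)
                     (CovZ.n1 (-16560, 14538) (by decide +kernel)
                      (CovZ.n2 (-16557, 14541) (by decide +kernel)
                       (CovZ.leaf K2_ok TB_l43739 _)
                       (CovZ.leaf K2_ok TB_l43740 _))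
                      (CovZ.leaf K2_ok TB_l43741 _)))
                    (CovZ.n1 (-16554, 14526) (by decide +kernel)
                     (CovZ.leaf K2_ok TB_l43742 _)
                     (CovZ.leaf K2_ok TB_l43743 _))))
                  (CovZ.n1 (-16548, 14508) (by decide +kernel)
                   (CovZ.n2 (-16560, 14508) (by decide +kernel)
                    (CovZ.n2 (-16554, 14514) (by decide +kernel)
                     (CovZ.leaf K2_ok TB_l43744 _)
                     (CovZ.leaf K2_ok TB_l43745 _))
                    (CovZ.leaf K2_ok TB_l43746 _))
                   (CovZ.n1 (-16548, 14520) (by decide +kernel)
                    (CovZ.n2 (-16542, 14514) (by decide +kernel)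
                     (CovZ.n2 (-16548, 14514) (by decide +kernel)
                      (CovZ.leaf K2_ok TB_l43747 _)
                      (CovZ.leaf K2_ok TB_l43748 _))
                     (CovZ.subM 655337322333063837790956389768032042045977647752207308518112996672641903565378542278160802844703406304853156167680 (by decide +kernel)
                      (CovZ.n1 (-16542, 14520) (by decide +kernel)
                       (CovZ.n2 (-16539, 14517) (by decide +kernel)
                        (CovZ.leaf K2_ok TB_l49684 _)
                        (CovZ.badM (by decide +kernel)))
                       (CovZ.n1 (-16545, 14517) (by decide +kernel)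
                        (CovZ.leaf K2_ok TB_l43749 _)
                        (CovZ.leaf K2_ok TB_l43750 _)))))
                    (CovZ.n1 (-16554, 14514) (by decide +kernel)
                     (CovZ.n2 (-16554, 14520) (by decide +kernel)
                      (CovZ.leaf K2_ok TB_l43751 _)
                      (CovZ.leaf K2_ok TB_l43752 _))
                     (CovZ.leaf K2_ok TB_l43753 _)))))))))

theorem TB_u353 : CovZ TB_M (toL (selN TB_LN 1324694207824629961958776412914357834221086111744902423746636945579378994430852398799988504140832728887040951173665234358312)) [0, 7, 6, 1] (-16512, 14208) (-16512, 14400) (-16704, 14400) :=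
    (CovZ.n2 (-16608, 14304) (by decide +kernel)
           (CovZ.n2 (-16608, 14400) (by decide +kernel)
            (CovZ.n2 (-16560, 14352) (by decide +kernel)
             (CovZ.n2 (-16608, 14352) (by decide +kernel)
              (CovZ.subM 1322111957946467900006471731079062354740046912038796263403362172842070488674891632610070164370243407241364118394672173285416 (by decide +kernel)
               (CovZ.n2 (-16584, 14376) (by decide +kernel)
                (CovZ.n2 (-16584, 14352) (by decide +kernel)
                 (CovZ.leaf K2_ok TB_l26390 _)
                 (CovZ.leaf K2_ok TB_l26391 _))
                (CovZ.n1 (-16608, 14376) (by decide +kernel)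
                 (CovZ.leaf K2_ok TB_l26392 _)
                 (CovZ.leaf K2_ok TB_l26393 _))))
              (CovZ.n1 (-16584, 14328) (by decide +kernel)
               (CovZ.leaf K2_ok TB_l26394 _)
               (CovZ.n1 (-16584, 14352) (by decide +kernel)
                (CovZ.leaf K2_ok TB_l26395 _)
                (CovZ.leaf K2_ok TB_l26396 _))))
             (CovZ.subM 1322111957946467900006471731079062354740046912038796263834721319516480725389563874002299184394448206254702613331036679962656 (by decide +kernel)
              (CovZ.n1 (-16560, 14400) (by decide +kernel)
               (CovZ.n2 (-16536, 14376) (by decide +kernel)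
                (CovZ.subM 1174271431370964043791786503664064211615340074277467905872075862071481812811062829156686413802891142515130400 (by decide +kernel)
                 (CovZ.n2 (-16560, 14376) (by decide +kernel)
                  (CovZ.n2 (-16548, 14388) (by decide +kernel)
                   (CovZ.n2 (-16548, 14376) (by decide +kernel)
                    (CovZ.n2 (-16554, 14382) (by decide +kernel)
                     (CovZ.leaf K2_ok TB_l43611 _)
                     (CovZ.leaf K2_ok TB_l43612 _))
                    (CovZ.n1 (-16542, 14382) (by decide +kernel)
                     (CovZ.leaf K2_ok TB_l43613 _)
                     (CovZ.leaf K2_ok TB_l43614 _)))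
                   (CovZ.n1 (-16560, 14388) (by decide +kernel)
                    (CovZ.n2 (-16554, 14394) (by decide +kernel)
                     (CovZ.n2 (-16554, 14388) (by decide +kernel)
                      (CovZ.leaf K2_ok TB_l43615 _)
                      (CovZ.leaf K2_ok TB_l43616 _))
                     (CovZ.leaf K2_ok TB_l43617 _))
                    (CovZ.n1 (-16554, 14382) (by decide +kernel)
                     (CovZ.leaf K2_ok TB_l43618 _)
                     (CovZ.leaf K2_ok TB_l43619 _))))
                  (CovZ.n1 (-16548, 14364) (by decide +kernel)
                   (CovZ.leaf K2_ok TB_l26397 _)
                   (CovZ.n1 (-16548, 14376) (by decide +kernel)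
                    (CovZ.leaf K2_ok TB_l43620 _)
                    (CovZ.leaf K2_ok TB_l43621 _)))))
                (CovZ.subM 1174271291386917657679023343816510980582361764148643611169414980559341064435419532976336973598778690442887168 (by decide +kernel)
                 (CovZ.n1 (-16536, 14400) (by decide +kernel)
                  (CovZ.n2 (-16524, 14388) (by decide +kernel)
                   (CovZ.n2 (-16536, 14388) (by decide +kernel)
                    (CovZ.badM (by decide +kernel))
                    (CovZ.n1 (-16530, 14382) (by decide +kernel)
                     (CovZ.n2 (-16536, 14382) (by decide +kernel)
                      (CovZ.leaf K2_ok TB_l43622 _)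
                      (CovZ.leaf K2_ok TB_l43623 _))
                     (CovZ.n1 (-16530, 14388) (by decide +kernel)
                      (CovZ.leaf K2_ok TB_l43624 _)
                      (CovZ.leaf K2_ok TB_l43625 _))))
                   (CovZ.badM (by decide +kernel)))
                  (CovZ.n1 (-16548, 14388) (by decide +kernel)
                   (CovZ.n2 (-16548, 14400) (by decide +kernel)
                    (CovZ.n2 (-16542, 14394) (by decide +kernel)
                     (CovZ.leaf K2_ok TB_l43626 _)
                     (CovZ.n1 (-16542, 14400) (by decide +kernel)
                      (CovZ.badM (by decide +kernel))
                      (CovZ.n1 (-16545, 14397) (by decide +kernel)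
                       (CovZ.leaf K2_ok TB_l43627 _)
                       (CovZ.leaf K2_ok TB_l43628 _))))
                    (CovZ.n1 (-16554, 14394) (by decide +kernel)
                     (CovZ.leaf K2_ok TB_l43629 _)
                     (CovZ.n1 (-16548, 14394) (by decide +kernel)
                      (CovZ.leaf K2_ok TB_l43630 _)
                      (CovZ.leaf K2_ok TB_l43631 _))))
                   (CovZ.n1 (-16536, 14388) (by decide +kernel)
                    (CovZ.n2 (-16542, 14382) (by decide +kernel)
                     (CovZ.n2 (-16542, 14388) (by decide +kernel)
                      (CovZ.leaf K2_ok TB_l43632 _)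
                      (CovZ.leaf K2_ok TB_l43633 _))
                     (CovZ.n1 (-16536, 14382) (by decide +kernel)
                      (CovZ.leaf K2_ok TB_l43634 _)
                      (CovZ.leaf K2_ok TB_l43635 _)))
                    (CovZ.n1 (-16542, 14394) (by decide +kernel)
                     (CovZ.badM (by decide +kernel))
                     (CovZ.n1 (-16542, 14388) (by decide +kernel)
                      (CovZ.leaf K2_ok TB_l43636 _)
                      (CovZ.leaf K2_ok TB_l43637 _))))))))
               (CovZ.n1 (-16584, 14376) (by decide +kernel)
                (CovZ.n2 (-16584, 14400) (by decide +kernel)
                 (CovZ.n2 (-16572, 14388) (by decide +kernel)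
                  (CovZ.leaf K2_ok TB_l43638 _)
                  (CovZ.n1 (-16572, 14400) (by decide +kernel)
                   (CovZ.n2 (-16566, 14394) (by decide +kernel)
                    (CovZ.leaf K2_ok TB_l43639 _)
                    (CovZ.leaf K2_ok TB_l43640 _))
                   (CovZ.n1 (-16578, 14394) (by decide +kernel)
                    (CovZ.leaf K2_ok TB_l43641 _)
                    (CovZ.leaf K2_ok TB_l43642 _))))
                 (CovZ.leaf K2_ok TB_l43643 _))
                (CovZ.n1 (-16560, 14376) (by decide +kernel)
                 (CovZ.n2 (-16572, 14364) (by decide +kernel)
                  (CovZ.leaf K2_ok TB_l26398 _)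
                  (CovZ.leaf K2_ok TB_l26399 _))
                 (CovZ.n1 (-16572, 14388) (by decide +kernel)
                  (CovZ.leaf K2_ok TB_l43644 _)
                  (CovZ.n1 (-16572, 14376) (by decide +kernel)
                   (CovZ.leaf K2_ok TB_l43645 _)
                   (CovZ.leaf K2_ok TB_l43646 _))))))))
            (CovZ.n1 (-16656, 14352) (by decide +kernel)
             (CovZ.n2 (-16656, 14400) (by decide +kernel)
              (CovZ.n2 (-16632, 14376) (by decide +kernel)
               (CovZ.leaf K2_ok TB_l26400 _)
               (CovZ.n1 (-16632, 14400) (by decide +kernel)
                (CovZ.leaf K2_ok TB_l26401 _)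
                (CovZ.leaf K2_ok TB_l26402 _)))
              (CovZ.leaf K2_ok TB_l26403 _))
             (CovZ.n1 (-16608, 14352) (by decide +kernel)
              (CovZ.leaf K2_ok TB_l26404 _)
              (CovZ.n1 (-16632, 14376) (by decide +kernel)
               (CovZ.leaf K2_ok TB_l26405 _)
               (CovZ.leaf K2_ok TB_l26406 _)))))
           (CovZ.subM 19701004346003970352285753164214649615568411466816870544229726360709478213908934577404137214711680949685826789310504 (by decide +kernel)
            (CovZ.n1 (-16512, 14304) (by decide +kernel)
             (CovZ.n2 (-16560, 14256) (by decide +kernel)
              (CovZ.n2 (-16560, 14304) (by decide +kernel)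
               (CovZ.leaf K2_ok TB_l26407 _)
               (CovZ.leaf K2_ok TB_l26408 _))
              (CovZ.n1 (-16512, 14256) (by decide +kernel)
               (CovZ.leaf K2_ok TB_l26409 _)
               (CovZ.n1 (-16536, 14280) (by decide +kernel)
                (CovZ.leaf K2_ok TB_l26410 _)
                (CovZ.leaf K2_ok TB_l26411 _))))
             (CovZ.n1 (-16560, 14352) (by decide +kernel)
              (CovZ.n2 (-16512, 14352) (by decide +kernel)
               (CovZ.n2 (-16536, 14328) (by decide +kernel)
                (CovZ.n2 (-16536, 14352) (by decide +kernel)
                 (CovZ.n2 (-16524, 14340) (by decide +kernel)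
                  (CovZ.leaf K2_ok TB_l26412 _)
                  (CovZ.leaf K2_ok TB_l26413 _))
                 (CovZ.leaf K2_ok TB_l26414 _))
                (CovZ.n1 (-16512, 14328) (by decide +kernel)
                 (CovZ.leaf K2_ok TB_l26415 _)
                 (CovZ.n1 (-16524, 14340) (by decide +kernel)
                  (CovZ.leaf K2_ok TB_l26416 _)
                  (CovZ.leaf K2_ok TB_l26417 _))))
               (CovZ.subM 1174271431370964043791784560995171985886700513962235492589883891906035074762319771655037324058304144826433568 (by decide +kernel)
                (CovZ.n1 (-16536, 14376) (by decide +kernel)
                 (CovZ.n2 (-16512, 14376) (by decide +kernel)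
                  (CovZ.n2 (-16524, 14364) (by decide +kernel)
                   (CovZ.n2 (-16524, 14376) (by decide +kernel)
                    (CovZ.n2 (-16518, 14370) (by decide +kernel)
                     (CovZ.leaf K2_ok TB_l43647 _)
                     (CovZ.leaf K2_ok TB_l43648 _))
                    (CovZ.n1 (-16530, 14370) (by decide +kernel)
                     (CovZ.leaf K2_ok TB_l43649 _)
                     (CovZ.leaf K2_ok TB_l43650 _)))
                   (CovZ.n1 (-16512, 14364) (by decide +kernel)
                    (CovZ.leaf K2_ok TB_l43651 _)
                    (CovZ.n1 (-16518, 14370) (by decide +kernel)
                     (CovZ.leaf K2_ok TB_l43652 _)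
                     (CovZ.leaf K2_ok TB_l43653 _))))
                  (CovZ.subM 1174271291386916614207326982455976021003842269025305227698007500527704377442741482347576053591983606550495232 (by decide +kernel)
                   (CovZ.n1 (-16524, 14388) (by decide +kernel)
                    (CovZ.badM (by decide +kernel))
                    (CovZ.n1 (-16524, 14376) (by decide +kernel)
                     (CovZ.n2 (-16530, 14382) (by decide +kernel)
                      (CovZ.n2 (-16524, 14382) (by decide +kernel)
                       (CovZ.leaf K2_ok TB_l43654 _)
                       (CovZ.leaf K2_ok TB_l43655 _))
                      (CovZ.leaf K2_ok TB_l43656 _))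
                     (CovZ.subM 7957186960124323622603476326521151288600306302045823674350012476723557562924730446512128 (by decide +kernel)
                      (CovZ.n1 (-16518, 14382) (by decide +kernel)
                       (CovZ.n2 (-16518, 14376) (by decide +kernel)
                        (CovZ.n2 (-16521, 14379) (by decide +kernel)
                         (CovZ.leaf K2_ok TB_l43657 _)
                         (CovZ.leaf K2_ok TB_l43658 _))
                        (CovZ.leaf K2_ok TB_l43659 _))
                       (CovZ.n1 (-16524, 14382) (by decide +kernel)
                        (CovZ.badM (by decide +kernel))
                        (CovZ.n1 (-16521, 14379) (by decide +kernel)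
                         (CovZ.leaf K2_ok TB_l43660 _)
                         (CovZ.badM (by decide +kernel))))))))))
                 (CovZ.n1 (-16536, 14352) (by decide +kernel)
                  (CovZ.n2 (-16548, 14364) (by decide +kernel)
                   (CovZ.leaf K2_ok TB_l43661 _)
                   (CovZ.leaf K2_ok TB_l26418 _))
                  (CovZ.n1 (-16524, 14364) (by decide +kernel)
                   (CovZ.leaf K2_ok TB_l43662 _)
                   (CovZ.n1 (-16536, 14364) (by decide +kernel)
                    (CovZ.leaf K2_ok TB_l43663 _)
                    (CovZ.leaf K2_ok TB_l43664 _)))))))
              (CovZ.n1 (-16560, 14304) (by decide +kernel)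
               (CovZ.n2 (-16584, 14328) (by decide +kernel)
                (CovZ.leaf K2_ok TB_l26419 _)
                (CovZ.leaf K2_ok TB_l26420 _))
               (CovZ.n1 (-16536, 14328) (by decide +kernel)
                (CovZ.leaf K2_ok TB_l26421 _)
                (CovZ.n1 (-16560, 14328) (by decide +kernel)
                 (CovZ.leaf K2_ok TB_l26422 _)
                 (CovZ.leaf K2_ok TB_l26423 _))))))))

end Pool.Agent.TET
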