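import Pool.Agent.Helper38_TET.TB_M
import Pool.Agent.Helper38_TET.TB_L
import Pool.Agent.Helper38_TET.TB_175
import Pool.Agent.Helper38_TET.TB_176
import Pool.Agent.Helper38_TET.TB_177
import Pool.Agent.Helper38_TET.TB_178
import Pool.Agent.Helper38_TET.TB_179
import Pool.Agent.Helper38_TET.TB_290
import Pool.Agent.Helper38_TET.TB_291
import Pool.Agent.Helper38_TET.TB_292
import Pool.Agent.Helper38_TET.TB_293
import Pool.Agent.Helper38_TET.TB_294
import Pool.Agent.Helper38_TET.TB_U23

/-!
# MP_c7c9bf_co: certificates, family TB
-/

set_option autoImplicit false
set_option maxRecDepth 100000

namespace Pool.Agent.TET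

theorem TB_u354 : CovZ TB_M (toL (selN TB_LN 1324694207824629961958776412914357834221086111744902423746636945579378994430852398799988504140832728887040951173665234358312)) [0, 7, 6, 1] (-16512, 14400) (-16512, 14592) (-16704, 14400) :=
    (CovZ.n1 (-16608, 14496) (by decide +kernel)
           (CovZ.subM 1324694207824554808595987666204679245894029750810625096791977048932200411265829153755794281026927990941334009313838770421760 (by decide +kernel)
            (CovZ.n2 (-16512, 14496) (by decide +kernel)
             TB_u351
             TB_u352))
           (CovZ.n1 (-16608, 14400) (by decide +kernel)
            (CovZ.n2 (-16656, 14448) (by decide +kernel)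
             (CovZ.subM 1324694207824554808595987666204679253851217252901629906808159729808765896299243827360100223452072267726860286557800582086688 (by decide +kernel)
              (CovZ.n2 (-16608, 14448) (by decide +kernel)
               (CovZ.n2 (-16632, 14424) (by decide +kernel)
                (CovZ.n2 (-16632, 14448) (by decide +kernel)
                 (CovZ.leaf K2_ok TB_l26424 _)
                 (CovZ.leaf K2_ok TB_l26425 _))
                (CovZ.leaf K2_ok TB_l26426 _))
               (CovZ.n1 (-16632, 14472) (by decide +kernel)
                (CovZ.leaf K2_ok TB_l43754 _)
                (CovZ.n1 (-16632, 14448) (by decide +kernel)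
                 (CovZ.leaf K2_ok TB_l26427 _)
                 (CovZ.leaf K2_ok TB_l43755 _)))))
             (CovZ.n1 (-16656, 14400) (by decide +kernel)
              (CovZ.leaf K2_ok TB_l26428 _)
              (CovZ.n1 (-16632, 14424) (by decide +kernel)
               (CovZ.n2 (-16632, 14400) (by decide +kernel)
                (CovZ.leaf K2_ok TB_l26429 _)
                (CovZ.leaf K2_ok TB_l26430 _))
               (CovZ.leaf K2_ok TB_l26431 _))))
            (CovZ.subM 1324694207824554808595987666204679253851216777689089959593649349363019527312982976209221557898784839292758168574119655768096 (by decide +kernel)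
             (CovZ.n1 (-16560, 14448) (by decide +kernel)
              (CovZ.n2 (-16560, 14400) (by decide +kernel)
               (CovZ.n2 (-16584, 14424) (by decide +kernel)
                (CovZ.subM 1322111957321191922768608890433550063259490653159814024515370736540237079831540114755381652309321754222009271230061107740672 (by decide +kernel)
                 (CovZ.n2 (-16560, 14424) (by decide +kernel)
                  (CovZ.n2 (-16572, 14412) (by decide +kernel)
                   (CovZ.n2 (-16572, 14424) (by decide +kernel)
                    (CovZ.leaf K2_ok TB_l43756 _)
                    (CovZ.leaf K2_ok TB_l43757 _))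
                   (CovZ.n1 (-16560, 14412) (by decide +kernel)
                    (CovZ.leaf K2_ok TB_l43758 _)
                    (CovZ.leaf K2_ok TB_l43759 _)))
                  (CovZ.n1 (-16572, 14436) (by decide +kernel)
                   (CovZ.n2 (-16560, 14436) (by decide +kernel)
                    (CovZ.leaf K2_ok TB_l43760 _)
                    (CovZ.leaf K2_ok TB_l43761 _))
                   (CovZ.n1 (-16572, 14424) (by decide +kernel)
                    (CovZ.leaf K2_ok TB_l43762 _)
                    (CovZ.n1 (-16566, 14430) (by decide +kernel)
                     (CovZ.leaf K2_ok TB_l43763 _)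
                     (CovZ.leaf K2_ok TB_l43764 _))))))
                (CovZ.n1 (-16584, 14400) (by decide +kernel)
                 (CovZ.leaf K2_ok TB_l43765 _)
                 (CovZ.n1 (-16572, 14412) (by decide +kernel)
                  (CovZ.n2 (-16572, 14400) (by decide +kernel)
                   (CovZ.n2 (-16578, 14406) (by decide +kernel)
                    (CovZ.leaf K2_ok TB_l43766 _)
                    (CovZ.leaf K2_ok TB_l43767 _))
                   (CovZ.n1 (-16566, 14406) (by decide +kernel)
                    (CovZ.leaf K2_ok TB_l43768 _)
                    (CovZ.leaf K2_ok TB_l43769 _)))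
                  (CovZ.leaf K2_ok TB_l43770 _))))
               (CovZ.subM 10577615616946210855275431827595348612757893356183724358391185572029579714193867613610714732517508634806059008 (by decide +kernel)
                (CovZ.n1 (-16536, 14424) (by decide +kernel)
                 (CovZ.n2 (-16536, 14400) (by decide +kernel)
                  (CovZ.n2 (-16548, 14412) (by decide +kernel)
                   (CovZ.subM 509276478103651553128749697259505951933026880078035531914726378650282975079401023422332928 (by decide +kernel)
                    (CovZ.n2 (-16536, 14412) (by decide +kernel)
                     (CovZ.n2 (-16542, 14406) (by decide +kernel)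
                      (CovZ.n2 (-16542, 14412) (by decide +kernel)
                       (CovZ.badM (by decide +kernel))
                       (CovZ.n1 (-16545, 14409) (by decide +kernel)
                        (CovZ.leaf K2_ok TB_l43771 _)
                        (CovZ.leaf K2_ok TB_l43772 _)))
                      (CovZ.badM (by decide +kernel)))
                     (CovZ.n1 (-16542, 14418) (by decide +kernel)
                      (CovZ.badM (by decide +kernel))
                      (CovZ.n1 (-16542, 14412) (by decide +kernel)
                       (CovZ.leaf K2_ok TB_l43773 _)
                       (CovZ.badM (by decide +kernel))))))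
                   (CovZ.n1 (-16548, 14400) (by decide +kernel)
                    (CovZ.n2 (-16554, 14406) (by decide +kernel)
                     (CovZ.leaf K2_ok TB_l43774 _)
                     (CovZ.n1 (-16554, 14400) (by decide +kernel)
                      (CovZ.leaf K2_ok TB_l43775 _)
                      (CovZ.leaf K2_ok TB_l43776 _)))
                    (CovZ.subM 1174271291386917657671066156797035974219625046258653946640584406246861230155108934583378288973100328721317888 (by decide +kernel)
                     (CovZ.n1 (-16542, 14406) (by decide +kernel)
                      (CovZ.n2 (-16542, 14400) (by decide +kernel)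
                       (CovZ.leaf K2_ok TB_l43777 _)
                       (CovZ.badM (by decide +kernel)))
                      (CovZ.n1 (-16548, 14406) (by decide +kernel)
                       (CovZ.leaf K2_ok TB_l43778 _)
                       (CovZ.n1 (-16545, 14403) (by decide +kernel)
                        (CovZ.leaf K2_ok TB_l43779 _)
                        (CovZ.n1 (-16545, 14406) (by decide +kernel)
                         (CovZ.leaf K2_ok TB_l43780 _)
                         (CovZ.leaf K2_ok TB_l43781 _))))))))
                  (CovZ.badM (by decide +kernel)))
                 (CovZ.n1 (-16560, 14424) (by decide +kernel)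
                  (CovZ.subM 10577615616946210855275431827535592402332564933005265115840289885475089510964412349222741547718113322267049984 (by decide +kernel)
                   (CovZ.n2 (-16548, 14436) (by decide +kernel)
                    (CovZ.n2 (-16548, 14424) (by decide +kernel)
                     (CovZ.n2 (-16554, 14430) (by decide +kernel)
                      (CovZ.n2 (-16548, 14430) (by decide +kernel)
                       (CovZ.leaf K2_ok TB_l43782 _)
                       (CovZ.leaf K2_ok TB_l43783 _))
                      (CovZ.n1 (-16554, 14424) (by decide +kernel)
                       (CovZ.leaf K2_ok TB_l43784 _)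
                       (CovZ.leaf K2_ok TB_l43785 _)))
                     (CovZ.subM 509260936752513747296182341564251363781773740823323114798556364151005063845119381754347520 (by decide +kernel)
                      (CovZ.n1 (-16542, 14430) (by decide +kernel)
                       (CovZ.n2 (-16542, 14424) (by decide +kernel)
                        (CovZ.n2 (-16545, 14427) (by decide +kernel)
                         (CovZ.leaf K2_ok TB_l43786 _)
                         (CovZ.leaf K2_ok TB_l43787 _))
                        (CovZ.badM (by decide +kernel)))
                       (CovZ.n1 (-16548, 14430) (by decide +kernel)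
                        (CovZ.leaf K2_ok TB_l43788 _)
                        (CovZ.leaf K2_ok TB_l43789 _)))))
                    (CovZ.n1 (-16560, 14436) (by decide +kernel)
                     (CovZ.n2 (-16554, 14442) (by decide +kernel)
                      (CovZ.n2 (-16554, 14436) (by decide +kernel)
                       (CovZ.leaf K2_ok TB_l43790 _)
                       (CovZ.leaf K2_ok TB_l43791 _))
                      (CovZ.leaf K2_ok TB_l43792 _))
                     (CovZ.n1 (-16554, 14430) (by decide +kernel)
                      (CovZ.leaf K2_ok TB_l43793 _)
                      (CovZ.n1 (-16554, 14436) (by decide +kernel)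
                       (CovZ.leaf K2_ok TB_l43794 _)
                       (CovZ.leaf K2_ok TB_l43795 _))))))
                  (CovZ.n1 (-16548, 14412) (by decide +kernel)
                   (CovZ.n2 (-16560, 14412) (by decide +kernel)
                    (CovZ.n2 (-16554, 14418) (by decide +kernel)
                     (CovZ.leaf K2_ok TB_l43796 _)
                     (CovZ.leaf K2_ok TB_l43797 _))
                    (CovZ.n1 (-16554, 14406) (by decide +kernel)
                     (CovZ.leaf K2_ok TB_l43798 _)
                     (CovZ.leaf K2_ok TB_l43799 _)))
                   (CovZ.subM 1183445285850877943717509440378244292829834737371985633011125999346253410505978575367945554179038510139310080 (by decide +kernel)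
                    (CovZ.n1 (-16548, 14424) (by decide +kernel)
                     (CovZ.subM 509276478103651553128749697259505951933026880078035531914726378650282975079401023422332928 (by decide +kernel)
                      (CovZ.n2 (-16542, 14418) (by decide +kernel)
                       (CovZ.n2 (-16548, 14418) (by decide +kernel)
                        (CovZ.leaf K2_ok TB_l43800 _)
                        (CovZ.leaf K2_ok TB_l43801 _))
                       (CovZ.n1 (-16542, 14424) (by decide +kernel)
                        (CovZ.n2 (-16539, 14421) (by decide +kernel)
                         (CovZ.leaf K2_ok TB_l43802 _)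
                         (CovZ.badM (by decide +kernel)))
                        (CovZ.n1 (-16545, 14421) (by decide +kernel)
                         (CovZ.leaf K2_ok TB_l43803 _)
                         (CovZ.leaf K2_ok TB_l43804 _)))))
                     (CovZ.n1 (-16554, 14418) (by decide +kernel)
                      (CovZ.leaf K2_ok TB_l43805 _)
                      (CovZ.leaf K2_ok TB_l43806 _)))))))))
              (CovZ.n1 (-16608, 14448) (by decide +kernel)
               (CovZ.n2 (-16584, 14472) (by decide +kernel)
                (CovZ.n2 (-16584, 14448) (by decide +kernel)
                 (CovZ.leaf K2_ok TB_l43807 _)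
                 (CovZ.n1 (-16572, 14460) (by decide +kernel)
                  (CovZ.n2 (-16572, 14448) (by decide +kernel)
                   (CovZ.leaf K2_ok TB_l43808 _)
                   (CovZ.leaf K2_ok TB_l43809 _))
                  (CovZ.leaf K2_ok TB_l43810 _)))
                (CovZ.n1 (-16608, 14472) (by decide +kernel)
                 (CovZ.n2 (-16596, 14484) (by decide +kernel)
                  (CovZ.leaf K2_ok TB_l43811 _)
                  (CovZ.leaf K2_ok TB_l43812 _))
                 (CovZ.leaf K2_ok TB_l43813 _)))
               (CovZ.n1 (-16584, 14424) (by decide +kernel)
                (CovZ.n2 (-16608, 14424) (by decide +kernel)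
                 (CovZ.leaf K2_ok TB_l43814 _)
                 (CovZ.leaf K2_ok TB_l43815 _))
                (CovZ.n1 (-16584, 14448) (by decide +kernel)
                 (CovZ.n2 (-16572, 14436) (by decide +kernel)
                  (CovZ.leaf K2_ok TB_l43816 _)
                  (CovZ.leaf K2_ok TB_l43817 _))
                 (CovZ.leaf K2_ok TB_l43818 _))))))))

theorem TB_u355 : CovZ TB_M (toL (selN TB_LN 1324694207824629961958776412914357834221086111744902423746636945579378994430852398799988504140832728887040951173665234358312)) [0, 7, 6, 1] (-16896, 13824) (-16512, 14208) (-16896, 14592) :=
    (CovZ.n2 (-16896, 14208) (by decide +kernel)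
        (CovZ.n2 (-16704, 14400) (by decide +kernel)
         (CovZ.n2 (-16704, 14208) (by decide +kernel)
          (CovZ.n2 (-16800, 14304) (by decide +kernel)
           (CovZ.n2 (-16704, 14304) (by decide +kernel)
            (CovZ.n2 (-16752, 14256) (by decide +kernel)
             (CovZ.leaf K2_ok TB_l26281 _)
             (CovZ.leaf K2_ok TB_l26282 _))
            (CovZ.n1 (-16752, 14352) (by decide +kernel)
             (CovZ.leaf K2_ok TB_l26283 _)
             (CovZ.leaf K2_ok TB_l26284 _)))
           (CovZ.n1 (-16800, 14208) (by decide +kernel)
            (CovZ.leaf K2_ok TB_l26285 _)
            (CovZ.n1 (-16752, 14256) (by decide +kernel)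
             (CovZ.leaf K2_ok TB_l26286 _)
             (CovZ.leaf K2_ok TB_l26287 _))))
          (CovZ.n1 (-16608, 14304) (by decide +kernel)
           (CovZ.n2 (-16608, 14208) (by decide +kernel)
            (CovZ.n2 (-16656, 14256) (by decide +kernel)
             (CovZ.n2 (-16608, 14256) (by decide +kernel)
              (CovZ.leaf K2_ok TB_l26288 _)
              (CovZ.leaf K2_ok TB_l26289 _))
             (CovZ.n1 (-16656, 14208) (by decide +kernel)
              (CovZ.leaf K2_ok TB_l26290 _)
              (CovZ.leaf K2_ok TB_l26291 _)))
            (CovZ.subM 19701004346003970352285753164214649615568411466816870544229726360709478213908934577404137524196690771030895514091560 (by decide +kernel)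
             (CovZ.n1 (-16560, 14256) (by decide +kernel)
              (CovZ.n2 (-16560, 14208) (by decide +kernel)
               (CovZ.leaf K2_ok TB_l26292 _)
               (CovZ.leaf K2_ok TB_l26293 _))
              (CovZ.n1 (-16608, 14256) (by decide +kernel)
               (CovZ.leaf K2_ok TB_l26294 _)
               (CovZ.leaf K2_ok TB_l26295 _)))))
           (CovZ.n1 (-16704, 14304) (by decide +kernel)
            (CovZ.n2 (-16656, 14352) (by decide +kernel)
             (CovZ.n2 (-16656, 14304) (by decide +kernel)
              (CovZ.leaf K2_ok TB_l26296 _)
              (CovZ.n1 (-16632, 14328) (by decide +kernel)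
               (CovZ.leaf K2_ok TB_l26297 _)
               (CovZ.leaf K2_ok TB_l26298 _)))
             (CovZ.n1 (-16704, 14352) (by decide +kernel)
              (CovZ.leaf K2_ok TB_l26299 _)
              (CovZ.leaf K2_ok TB_l26300 _)))
            (CovZ.n1 (-16656, 14256) (by decide +kernel)
             (CovZ.n2 (-16704, 14256) (by decide +kernel)
              (CovZ.leaf K2_ok TB_l26301 _)
              (CovZ.leaf K2_ok TB_l26302 _))
             (CovZ.n1 (-16656, 14304) (by decide +kernel)
              (CovZ.leaf K2_ok TB_l26303 _)
              (CovZ.leaf K2_ok TB_l26304 _))))))
         (CovZ.n1 (-16896, 14400) (by decide +kernel)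
          (CovZ.n2 (-16800, 14496) (by decide +kernel)
           (CovZ.n2 (-16800, 14400) (by decide +kernel)
            (CovZ.n2 (-16848, 14448) (by decide +kernel)
             (CovZ.leaf K2_ok TB_l26305 _)
             (CovZ.leaf K2_ok TB_l26306 _))
            (CovZ.n1 (-16752, 14448) (by decide +kernel)
             (CovZ.leaf K2_ok TB_l26307 _)
             (CovZ.leaf K2_ok TB_l26308 _)))
           (CovZ.n1 (-16896, 14496) (by decide +kernel)
            (CovZ.n2 (-16848, 14544) (by decide +kernel)
             (CovZ.leaf K2_ok TB_l26309 _)
             (CovZ.leaf K2_ok TB_l26310 _))
            (CovZ.leaf K2_ok TB_l26311 _)))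
          (CovZ.n1 (-16800, 14304) (by decide +kernel)
           (CovZ.n2 (-16896, 14304) (by decide +kernel)
            (CovZ.leaf K2_ok TB_l26312 _)
            (CovZ.leaf K2_ok TB_l26313 _))
           (CovZ.n1 (-16800, 14400) (by decide +kernel)
            (CovZ.n2 (-16752, 14352) (by decide +kernel)
             (CovZ.leaf K2_ok TB_l26314 _)
             (CovZ.n1 (-16752, 14400) (by decide +kernel)
              (CovZ.leaf K2_ok TB_l26315 _)
              (CovZ.leaf K2_ok TB_l26316 _)))
            (CovZ.leaf K2_ok TB_l26317 _)))))
        (CovZ.n1 (-16704, 14016) (by decide +kernel)
         (CovZ.n2 (-16896, 14016) (by decide +kernel)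
          (CovZ.n2 (-16800, 14112) (by decide +kernel)
           (CovZ.n2 (-16800, 14016) (by decide +kernel)
            (CovZ.leaf K2_ok TB_l26318 _)
            (CovZ.n1 (-16752, 14064) (by decide +kernel)
             (CovZ.leaf K2_ok TB_l26319 _)
             (CovZ.leaf K2_ok TB_l26320 _)))
           (CovZ.n1 (-16896, 14112) (by decide +kernel)
            (CovZ.leaf K2_ok TB_l26321 _)
            (CovZ.leaf K2_ok TB_l26322 _)))
          (CovZ.n1 (-16800, 13920) (by decide +kernel)
           (CovZ.n2 (-16896, 13920) (by decide +kernel)
            (CovZ.leaf K2_ok TB_l26323 _)
            (CovZ.leaf K2_ok TB_l26324 _))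
           (CovZ.n1 (-16800, 14016) (by decide +kernel)
            (CovZ.leaf K2_ok TB_l26325 _)
            (CovZ.leaf K2_ok TB_l26326 _))))
         (CovZ.n1 (-16704, 14208) (by decide +kernel)
          (CovZ.n2 (-16608, 14112) (by decide +kernel)
           (CovZ.n2 (-16704, 14112) (by decide +kernel)
            (CovZ.n2 (-16656, 14160) (by decide +kernel)
             (CovZ.leaf K2_ok TB_l26327 _)
             (CovZ.leaf K2_ok TB_l26328 _))
            (CovZ.n1 (-16656, 14064) (by decide +kernel)
             (CovZ.leaf K2_ok TB_l26329 _)
             (CovZ.leaf K2_ok TB_l26330 _)))
           (CovZ.n1 (-16608, 14208) (by decide +kernel)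
            (CovZ.n2 (-16560, 14160) (by decide +kernel)
             (CovZ.leaf K2_ok TB_l26331 _)
             (CovZ.n1 (-16560, 14208) (by decide +kernel)
              (CovZ.leaf K2_ok TB_l26332 _)
              (CovZ.leaf K2_ok TB_l26333 _)))
            (CovZ.n1 (-16656, 14160) (by decide +kernel)
             (CovZ.leaf K2_ok TB_l26334 _)
             (CovZ.leaf K2_ok TB_l26335 _))))
          (CovZ.n1 (-16800, 14112) (by decide +kernel)
           (CovZ.n2 (-16800, 14208) (by decide +kernel)
            (CovZ.n2 (-16752, 14160) (by decide +kernel)
             (CovZ.leaf K2_ok TB_l26336 _)
             (CovZ.leaf K2_ok TB_l26337 _))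
            (CovZ.leaf K2_ok TB_l26338 _))
           (CovZ.n1 (-16704, 14112) (by decide +kernel)
            (CovZ.leaf K2_ok TB_l26339 _)
            (CovZ.n1 (-16752, 14160) (by decide +kernel)
             (CovZ.leaf K2_ok TB_l26340 _)
             (CovZ.leaf K2_ok TB_l26341 _)))))))

theorem TB_u356 : CovZ TB_M (toL (selN TB_LN 1324694207824629961958776412914357834221086111744902423746636945579378994430852398799988504140832728887040951173665234358312)) [0, 7, 6, 1] (-16512, 14208) (-16128, 14592) (-16896, 14592) :=
    (CovZ.n1 (-16512, 14592) (by decide +kernel)
        (CovZ.n2 (-16320, 14400) (by decide +kernel)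
         (CovZ.n2 (-16512, 14400) (by decide +kernel)
          (CovZ.subM 1324694187497062628171892763585496738415114363635863584386058331548407278298755399924562746241936247865566538854662221594624 (by decide +kernel)
           (CovZ.n2 (-16416, 14496) (by decide +kernel)
            (CovZ.badM (by decide +kernel))
            (CovZ.n1 (-16512, 14496) (by decide +kernel)
             (CovZ.n2 (-16464, 14544) (by decide +kernel)
              (CovZ.badM (by decide +kernel))
              (CovZ.n1 (-16512, 14544) (by decide +kernel)
               (CovZ.badM (by decide +kernel))
               (CovZ.badM (by decide +kernel))))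
             (CovZ.badM (by decide +kernel)))))
          (CovZ.subM 1174271431370964043282510025560412658500852399442324268496590074349966464288042162463615015063861765104205864 (by decide +kernel)
           (CovZ.n1 (-16416, 14304) (by decide +kernel)
            TB_u349
            TB_u350)))
         (CovZ.n1 (-16320, 14592) (by decide +kernel)
          (CovZ.badM (by decide +kernel))
          (CovZ.badM (by decide +kernel))))
        (CovZ.n1 (-16704, 14400) (by decide +kernel)
         (CovZ.n2 (-16704, 14592) (by decide +kernel)
          (CovZ.n2 (-16608, 14496) (by decide +kernel)
           (CovZ.n2 (-16704, 14496) (by decide +kernel)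
            (CovZ.subM 1324694207824554808595987666204679245894030285308718269363304776387001455055733728158032918960481640438297094869408727171104 (by decide +kernel)
             (CovZ.n2 (-16656, 14544) (by decide +kernel)
              (CovZ.n2 (-16656, 14496) (by decide +kernel)
               (CovZ.leaf K2_ok TB_l26363 _)
               (CovZ.n1 (-16632, 14520) (by decide +kernel)
                (CovZ.n2 (-16632, 14496) (by decide +kernel)
                 (CovZ.leaf K2_ok TB_l26364 _)
                 (CovZ.leaf K2_ok TB_l43559 _))
                (CovZ.leaf K2_ok TB_l26365 _)))
              (CovZ.n1 (-16704, 14544) (by decide +kernel)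
               (CovZ.n2 (-16680, 14568) (by decide +kernel)
                (CovZ.leaf K2_ok TB_l26366 _)
                (CovZ.leaf K2_ok TB_l26367 _))
               (CovZ.leaf K2_ok TB_l26368 _))))
            (CovZ.n1 (-16656, 14448) (by decide +kernel)
             (CovZ.n2 (-16704, 14448) (by decide +kernel)
              (CovZ.leaf K2_ok TB_l26369 _)
              (CovZ.leaf K2_ok TB_l26370 _))
             (CovZ.subM 1324694207824554808595987666204679245894045462876452082061098989092719188595051166040005096182499492590789823590571523964960 (by decide +kernel)
              (CovZ.n1 (-16656, 14496) (by decide +kernel)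
               (CovZ.n2 (-16632, 14472) (by decide +kernel)
                (CovZ.leaf K2_ok TB_l26371 _)
                (CovZ.n1 (-16632, 14496) (by decide +kernel)
                 (CovZ.leaf K2_ok TB_l43560 _)
                 (CovZ.leaf K2_ok TB_l26372 _)))
               (CovZ.leaf K2_ok TB_l26373 _)))))
           (CovZ.subM 1324694207824554808595987666204679245894030226023168578131976132821016183748835941714544407039735609193417444027255295574016 (by decide +kernel)
            (CovZ.n1 (-16608, 14592) (by decide +kernel)
             (CovZ.n2 (-16560, 14544) (by decide +kernel)
              (CovZ.n2 (-16608, 14544) (by decide +kernel)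
               (CovZ.n2 (-16584, 14568) (by decide +kernel)
                (CovZ.n2 (-16584, 14544) (by decide +kernel)
                 (CovZ.n2 (-16596, 14556) (by decide +kernel)
                  (CovZ.n2 (-16584, 14556) (by decide +kernel)
                   (CovZ.leaf K2_ok TB_l43561 _)
                   (CovZ.leaf K2_ok TB_l43562 _))
                  (CovZ.leaf K2_ok TB_l43563 _))
                 (CovZ.subM 1324694207824544230978130975251646166251644772930388161395021292614438610469238434381385847401169731597165523841908832468992 (by decide +kernel)
                  (CovZ.n1 (-16572, 14556) (by decide +kernel)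
                   (CovZ.n2 (-16572, 14544) (by decide +kernel)
                    (CovZ.n2 (-16578, 14550) (by decide +kernel)
                     (CovZ.leaf K2_ok TB_l43564 _)
                     (CovZ.leaf K2_ok TB_l43565 _))
                    (CovZ.n1 (-16566, 14550) (by decide +kernel)
                     (CovZ.leaf K2_ok TB_l43566 _)
                     (CovZ.leaf K2_ok TB_l43567 _)))
                   (CovZ.n1 (-16584, 14556) (by decide +kernel)
                    (CovZ.n2 (-16578, 14562) (by decide +kernel)
                     (CovZ.n2 (-16578, 14556) (by decide +kernel)
                      (CovZ.leaf K2_ok TB_l43568 _)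
                      (CovZ.n1 (-16575, 14559) (by decide +kernel)
                       (CovZ.leaf K2_ok TB_l43569 _)
                       (CovZ.n1 (-16578, 14559) (by decide +kernel)
                        (CovZ.leaf K2_ok TB_l43570 _)
                        (CovZ.leaf K2_ok TB_l43571 _))))
                     (CovZ.n1 (-16584, 14562) (by decide +kernel)
                      (CovZ.n2 (-16581, 14565) (by decide +kernel)
                       (CovZ.leaf K2_ok TB_l43572 _)
                       (CovZ.n1 (-16584, 14565) (by decide +kernel)
                        (CovZ.badM (by decide +kernel))
                        (CovZ.leaf K2_ok TB_l43573 _)))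
                      (CovZ.n1 (-16581, 14559) (by decide +kernel)
                       (CovZ.leaf K2_ok TB_l43574 _)
                       (CovZ.leaf K2_ok TB_l43575 _))))
                    (CovZ.n1 (-16578, 14550) (by decide +kernel)
                     (CovZ.leaf K2_ok TB_l43576 _)
                     (CovZ.leaf K2_ok TB_l43577 _))))))
                (CovZ.n1 (-16608, 14568) (by decide +kernel)
                 (CovZ.subM 2582270205577914742459434873560950123646400215507102029726970174354558709680832226926627791288583382308359755531716395008 (by decide +kernel)
                  (CovZ.n2 (-16596, 14580) (by decide +kernel)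
                   (CovZ.n2 (-16596, 14568) (by decide +kernel)
                    (CovZ.n2 (-16602, 14574) (by decide +kernel)
                     (CovZ.leaf K2_ok TB_l43578 _)
                     (CovZ.leaf K2_ok TB_l43579 _))
                    (CovZ.n1 (-16590, 14574) (by decide +kernel)
                     (CovZ.leaf K2_ok TB_l43580 _)
                     (CovZ.n1 (-16596, 14574) (by decide +kernel)
                      (CovZ.badM (by decide +kernel))
                      (CovZ.leaf K2_ok TB_l43581 _))))
                   (CovZ.n1 (-16608, 14580) (by decide +kernel)
                    (CovZ.subM 2582269579090080322212398499510648399691652259561191357982001812415014420542932962224456635702730356618038823370239246336 (by decide +kernel)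
                     (CovZ.n2 (-16602, 14586) (by decide +kernel)
                      (CovZ.n2 (-16602, 14580) (by decide +kernel)
                       (CovZ.leaf K2_ok TB_l43582 _)
                       (CovZ.badM (by decide +kernel)))
                      (CovZ.n1 (-16608, 14586) (by decide +kernel)
                       (CovZ.badM (by decide +kernel))
                       (CovZ.leaf K2_ok TB_l43583 _))))
                    (CovZ.n1 (-16602, 14574) (by decide +kernel)
                     (CovZ.leaf K2_ok TB_l43584 _)
                     (CovZ.n1 (-16602, 14580) (by decide +kernel)
                      (CovZ.leaf K2_ok TB_l43585 _)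
                      (CovZ.leaf K2_ok TB_l43586 _))))))
                 (CovZ.n1 (-16596, 14556) (by decide +kernel)
                  (CovZ.leaf K2_ok TB_l43587 _)
                  (CovZ.leaf K2_ok TB_l43588 _))))
               (CovZ.n1 (-16584, 14520) (by decide +kernel)
                (CovZ.n2 (-16608, 14520) (by decide +kernel)
                 (CovZ.n2 (-16596, 14532) (by decide +kernel)
                  (CovZ.leaf K2_ok TB_l43589 _)
                  (CovZ.leaf K2_ok TB_l43590 _))
                 (CovZ.n1 (-16596, 14508) (by decide +kernel)
                  (CovZ.leaf K2_ok TB_l43591 _)
                  (CovZ.leaf K2_ok TB_l43592 _)))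
                (CovZ.n1 (-16584, 14544) (by decide +kernel)
                 (CovZ.n2 (-16572, 14532) (by decide +kernel)
                  (CovZ.leaf K2_ok TB_l43593 _)
                  (CovZ.leaf K2_ok TB_l43594 _))
                 (CovZ.leaf K2_ok TB_l43595 _))))
              (CovZ.subM 19701003098197239606139520050071806904392543063029782460751282462261867411400925060357382152073779164529924069392384 (by decide +kernel)
               (CovZ.n1 (-16560, 14592) (by decide +kernel)
                (CovZ.badM (by decide +kernel))
                (CovZ.n1 (-16584, 14568) (by decide +kernel)
                 (CovZ.badM (by decide +kernel))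
                 (CovZ.n1 (-16560, 14568) (by decide +kernel)
                  (CovZ.n2 (-16572, 14556) (by decide +kernel)
                   (CovZ.badM (by decide +kernel))
                   (CovZ.badM (by decide +kernel)))
                  (CovZ.badM (by decide +kernel)))))))
             (CovZ.n1 (-16656, 14544) (by decide +kernel)
              (CovZ.n2 (-16656, 14592) (by decide +kernel)
               (CovZ.n2 (-16632, 14568) (by decide +kernel)
                (CovZ.n2 (-16656, 14568) (by decide +kernel)
                 (CovZ.leaf K2_ok TB_l26374 _)
                 (CovZ.leaf K2_ok TB_l26375 _))
                (CovZ.n1 (-16632, 14592) (by decide +kernel)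
                 (CovZ.n2 (-16620, 14580) (by decide +kernel)
                  (CovZ.leaf K2_ok TB_l43596 _)
                  (CovZ.subM 2582270205579089013750821791217857299369402905233072208154983421309601988905806645011379217196792987663713815585370406912 (by decide +kernel)
                   (CovZ.n1 (-16620, 14592) (by decide +kernel)
                    (CovZ.n2 (-16614, 14586) (by decide +kernel)
                     (CovZ.leaf K2_ok TB_l43597 _)
                     (CovZ.n1 (-16614, 14592) (by decide +kernel)
                      (CovZ.leaf K2_ok TB_l43598 _)
                      (CovZ.leaf K2_ok TB_l43599 _)))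
                    (CovZ.leaf K2_ok TB_l43600 _))))
                 (CovZ.leaf K2_ok TB_l43601 _)))
               (CovZ.n1 (-16680, 14568) (by decide +kernel)
                (CovZ.leaf K2_ok TB_l26376 _)
                (CovZ.leaf K2_ok TB_l26377 _)))
              (CovZ.n1 (-16608, 14544) (by decide +kernel)
               (CovZ.n2 (-16632, 14520) (by decide +kernel)
                (CovZ.leaf K2_ok TB_l26378 _)
                (CovZ.n1 (-16608, 14520) (by decide +kernel)
                 (CovZ.leaf K2_ok TB_l43602 _)
                 (CovZ.leaf K2_ok TB_l43603 _)))
               (CovZ.n1 (-16632, 14568) (by decide +kernel)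
                (CovZ.n2 (-16608, 14568) (by decide +kernel)
                 (CovZ.leaf K2_ok TB_l43604 _)
                 (CovZ.n1 (-16620, 14580) (by decide +kernel)
                  (CovZ.subM 2582270205577914742459434873560950139187751353312934597082665428942709962820086939343743961303082660219594037173384380416 (by decide +kernel)
                   (CovZ.n2 (-16608, 14580) (by decide +kernel)
                    (CovZ.leaf K2_ok TB_l43605 _)
                    (CovZ.n1 (-16614, 14586) (by decide +kernel)
                     (CovZ.n2 (-16608, 14586) (by decide +kernel)
                      (CovZ.leaf K2_ok TB_l43606 _)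
                      (CovZ.n1 (-16611, 14589) (by decide +kernel)
                       (CovZ.badM (by decide +kernel))
                       (CovZ.leaf K2_ok TB_l43607 _)))
                     (CovZ.leaf K2_ok TB_l43608 _))))
                  (CovZ.leaf K2_ok TB_l43609 _)))
                (CovZ.n1 (-16632, 14544) (by decide +kernel)
                 (CovZ.leaf K2_ok TB_l26379 _)
                 (CovZ.leaf K2_ok TB_l43610 _))))))))
          (CovZ.n1 (-16800, 14496) (by decide +kernel)
           (CovZ.n2 (-16800, 14592) (by decide +kernel)
            (CovZ.n2 (-16752, 14544) (by decide +kernel)
             (CovZ.leaf K2_ok TB_l26380 _)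
             (CovZ.n1 (-16752, 14592) (by decide +kernel)
              (CovZ.leaf K2_ok TB_l26381 _)
              (CovZ.leaf K2_ok TB_l26382 _)))
            (CovZ.n1 (-16848, 14544) (by decide +kernel)
             (CovZ.leaf K2_ok TB_l26383 _)
             (CovZ.leaf K2_ok TB_l26384 _)))
           (CovZ.n1 (-16704, 14496) (by decide +kernel)
            (CovZ.n2 (-16752, 14448) (by decide +kernel)
             (CovZ.leaf K2_ok TB_l26385 _)
             (CovZ.leaf K2_ok TB_l26386 _))
            (CovZ.n1 (-16752, 14544) (by decide +kernel)
             (CovZ.n2 (-16704, 14544) (by decide +kernel)
              (CovZ.leaf K2_ok TB_l26387 _)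
              (CovZ.leaf K2_ok TB_l26388 _))
             (CovZ.leaf K2_ok TB_l26389 _)))))
         (CovZ.n1 (-16512, 14400) (by decide +kernel)
          TB_u353
          TB_u354)))

theorem TB_u357 : CovZ TB_M (toL (selN TB_LN 661055968792958817092436311578211860153203136073861661357282515107967231341731559556664859155450503911686235779032533861200)) [0, 7, 6, 1] (-15744, 14976) (-15936, 15168) (-16128, 14976) :=
    (CovZ.subM 305310535760598319690817628825321073666288038378608633899008810288205047554896970935529019917880850246583452176 (by decide +kernel)
          (CovZ.n2 (-15936, 14976) (by decide +kernel)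
           (CovZ.n2 (-16032, 15072) (by decide +kernel)
            (CovZ.n2 (-15936, 15072) (by decide +kernel)
             (CovZ.subM 4697085165547666455778961193578674054751365097816639741414581943065114948516670988707611616675757253822775296 (by decide +kernel)
              (CovZ.n2 (-15984, 15024) (by decide +kernel)
               (CovZ.n2 (-15984, 15072) (by decide +kernel)
                (CovZ.n2 (-15960, 15048) (by decide +kernel)
                 (CovZ.n2 (-15984, 15048) (by decide +kernel)
                  (CovZ.n2 (-15972, 15060) (by decide +kernel)
                   (CovZ.n2 (-15972, 15048) (by decide +kernel)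
                    (CovZ.leaf K2_ok TB_l43819 _)
                    (CovZ.leaf K2_ok TB_l43820 _))
                   (CovZ.leaf K2_ok TB_l43821 _))
                  (CovZ.badM (by decide +kernel)))
                 (CovZ.n1 (-15960, 15072) (by decide +kernel)
                  (CovZ.n2 (-15948, 15060) (by decide +kernel)
                   (CovZ.leaf K2_ok TB_l43822 _)
                   (CovZ.n1 (-15948, 15072) (by decide +kernel)
                    (CovZ.leaf K2_ok TB_l43823 _)
                    (CovZ.leaf K2_ok TB_l43824 _)))
                  (CovZ.n1 (-15972, 15060) (by decide +kernel)
                   (CovZ.n2 (-15972, 15072) (by decide +kernel)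
                    (CovZ.leaf K2_ok TB_l43825 _)
                    (CovZ.leaf K2_ok TB_l43826 _))
                   (CovZ.leaf K2_ok TB_l43827 _))))
                (CovZ.n1 (-16008, 15048) (by decide +kernel)
                 (CovZ.n2 (-16008, 15072) (by decide +kernel)
                  (CovZ.n2 (-15996, 15060) (by decide +kernel)
                   (CovZ.leaf K2_ok TB_l43828 _)
                   (CovZ.leaf K2_ok TB_l43829 _))
                  (CovZ.n1 (-16020, 15060) (by decide +kernel)
                   (CovZ.n2 (-16020, 15072) (by decide +kernel)
                    (CovZ.leaf K2_ok TB_l43830 _)
                    (CovZ.leaf K2_ok TB_l43831 _))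
                   (CovZ.leaf K2_ok TB_l43832 _)))
                 (CovZ.n1 (-15984, 15048) (by decide +kernel)
                  (CovZ.badM (by decide +kernel))
                  (CovZ.n1 (-15996, 15060) (by decide +kernel)
                   (CovZ.leaf K2_ok TB_l43833 _)
                   (CovZ.n1 (-15996, 15048) (by decide +kernel)
                    (CovZ.leaf K2_ok TB_l43834 _)
                    (CovZ.leaf K2_ok TB_l43835 _))))))
               (CovZ.n1 (-15936, 15024) (by decide +kernel)
                (CovZ.badM (by decide +kernel))
                (CovZ.n1 (-15960, 15048) (by decide +kernel)
                 (CovZ.n2 (-15936, 15048) (by decide +kernel)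
                  (CovZ.badM (by decide +kernel))
                  (CovZ.n1 (-15948, 15060) (by decide +kernel)
                   (CovZ.leaf K2_ok TB_l43836 _)
                   (CovZ.n1 (-15948, 15048) (by decide +kernel)
                    (CovZ.leaf K2_ok TB_l43837 _)
                    (CovZ.leaf K2_ok TB_l43838 _))))
                 (CovZ.badM (by decide +kernel))))))
             (CovZ.n1 (-15984, 15120) (by decide +kernel)
              (CovZ.n2 (-15936, 15120) (by decide +kernel)
               (CovZ.subM 4697085165547666520964112436282228815341627126916740895061570541088698815226145308596317933309645871625797648 (by decide +kernel)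
                (CovZ.n2 (-15960, 15096) (by decide +kernel)
                 (CovZ.n2 (-15960, 15120) (by decide +kernel)
                  (CovZ.leaf K2_ok TB_l26432 _)
                  (CovZ.leaf K2_ok TB_l26433 _))
                 (CovZ.n1 (-15936, 15096) (by decide +kernel)
                  (CovZ.n2 (-15948, 15084) (by decide +kernel)
                   (CovZ.leaf K2_ok TB_l26434 _)
                   (CovZ.leaf K2_ok TB_l26435 _))
                  (CovZ.leaf K2_ok TB_l26436 _))))
               (CovZ.n1 (-15960, 15144) (by decide +kernel)
                (CovZ.n2 (-15936, 15144) (by decide +kernel)
                 (CovZ.leaf K2_ok TB_l26437 _)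
                 (CovZ.leaf K2_ok TB_l26438 _))
                (CovZ.n1 (-15960, 15120) (by decide +kernel)
                 (CovZ.leaf K2_ok TB_l26439 _)
                 (CovZ.leaf K2_ok TB_l26440 _))))
              (CovZ.subM 4697085165547666520964112436282228815341627126916740895061570541088698815226145308596317933309645871625797648 (by decide +kernel)
               (CovZ.n1 (-15984, 15072) (by decide +kernel)
                (CovZ.n2 (-16008, 15096) (by decide +kernel)
                 (CovZ.n2 (-15984, 15096) (by decide +kernel)
                  (CovZ.n2 (-15996, 15084) (by decide +kernel)
                   (CovZ.leaf K2_ok TB_l26441 _)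
                   (CovZ.leaf K2_ok TB_l26442 _))
                  (CovZ.leaf K2_ok TB_l26443 _))
                 (CovZ.n1 (-16008, 15072) (by decide +kernel)
                  (CovZ.n2 (-16020, 15084) (by decide +kernel)
                   (CovZ.leaf K2_ok TB_l26444 _)
                   (CovZ.leaf K2_ok TB_l26445 _))
                  (CovZ.n1 (-15996, 15084) (by decide +kernel)
                   (CovZ.leaf K2_ok TB_l43839 _)
                   (CovZ.leaf K2_ok TB_l26446 _))))
                (CovZ.n1 (-15960, 15096) (by decide +kernel)
                 (CovZ.n2 (-15960, 15072) (by decide +kernel)
                  (CovZ.n2 (-15972, 15084) (by decide +kernel)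
                   (CovZ.leaf K2_ok TB_l26447 _)
                   (CovZ.n1 (-15972, 15072) (by decide +kernel)
                    (CovZ.leaf K2_ok TB_l43840 _)
                    (CovZ.leaf K2_ok TB_l43841 _)))
                  (CovZ.n1 (-15948, 15084) (by decide +kernel)
                   (CovZ.n2 (-15948, 15072) (by decide +kernel)
                    (CovZ.leaf K2_ok TB_l43842 _)
                    (CovZ.leaf K2_ok TB_l43843 _))
                   (CovZ.leaf K2_ok TB_l26448 _)))
                 (CovZ.n1 (-15984, 15096) (by decide +kernel)
                  (CovZ.leaf K2_ok TB_l26449 _)
                  (CovZ.n1 (-15972, 15084) (by decide +kernel)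
                   (CovZ.leaf K2_ok TB_l26450 _)
                   (CovZ.leaf K2_ok TB_l26451 _))))))))
            (CovZ.subM 4697085165547666455778961193578674054754815970990035023308299320996253461242896543193696809953338515934674944 (by decide +kernel)
             (CovZ.n1 (-16032, 14976) (by decide +kernel)
              (CovZ.n2 (-16080, 15024) (by decide +kernel)
               (CovZ.n2 (-16032, 15024) (by decide +kernel)
                (CovZ.badM (by decide +kernel))
                (CovZ.n1 (-16056, 15048) (by decide +kernel)
                 (CovZ.n2 (-16032, 15048) (by decide +kernel)
                  (CovZ.n2 (-16044, 15036) (by decide +kernel)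
                   (CovZ.n2 (-16044, 15048) (by decide +kernel)
                    (CovZ.badM (by decide +kernel))
                    (CovZ.leaf K2_ok TB_l43845 _))
                   (CovZ.badM (by decide +kernel)))
                  (CovZ.n1 (-16044, 15060) (by decide +kernel)
                   (CovZ.leaf K2_ok TB_l43847 _)
                   (CovZ.n1 (-16044, 15048) (by decide +kernel)
                    (CovZ.leaf K2_ok TB_l43848 _)
                    (CovZ.leaf K2_ok TB_l43849 _))))
                 (CovZ.n1 (-16056, 15024) (by decide +kernel)
                  (CovZ.n2 (-16068, 15036) (by decide +kernel)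
                   (CovZ.n2 (-16056, 15036) (by decide +kernel)
                    (CovZ.badM (by decide +kernel))
                    (CovZ.leaf K2_ok TB_l43850 _))
                   (CovZ.badM (by decide +kernel)))
                  (CovZ.n1 (-16044, 15036) (by decide +kernel)
                   (CovZ.badM (by decide +kernel))
                   (CovZ.leaf K2_ok TB_l43851 _)))))
               (CovZ.badM (by decide +kernel)))
              (CovZ.n1 (-15984, 15024) (by decide +kernel)
               (CovZ.badM (by decide +kernel))
               (CovZ.n1 (-16032, 15024) (by decide +kernel)
                (CovZ.n2 (-16008, 15048) (by decide +kernel)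
                 (CovZ.badM (by decide +kernel))
                 (CovZ.n1 (-16032, 15048) (by decide +kernel)
                  (CovZ.n2 (-16020, 15060) (by decide +kernel)
                   (CovZ.n2 (-16020, 15048) (by decide +kernel)
                    (CovZ.leaf K2_ok TB_l43852 _)
                    (CovZ.leaf K2_ok TB_l43853 _))
                   (CovZ.leaf K2_ok TB_l43854 _))
                  (CovZ.badM (by decide +kernel))))
                (CovZ.badM (by decide +kernel)))))))
           (CovZ.n1 (-15840, 15072) (by decide +kernel)
            (CovZ.badM (by decide +kernel))
            (CovZ.n1 (-15936, 15072) (by decide +kernel)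
             (CovZ.n2 (-15888, 15120) (by decide +kernel)
              (CovZ.subM 4697085165547666520964112436282228815341627126916740895061570541088698815226145308596317933309645871625797648 (by decide +kernel)
               (CovZ.n2 (-15888, 15072) (by decide +kernel)
                (CovZ.n2 (-15912, 15096) (by decide +kernel)
                 (CovZ.n2 (-15888, 15096) (by decide +kernel)
                  (CovZ.n2 (-15900, 15084) (by decide +kernel)
                   (CovZ.leaf K2_ok TB_l43858 _)
                   (CovZ.leaf K2_ok TB_l43859 _))
                  (CovZ.n1 (-15900, 15108) (by decide +kernel)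
                   (CovZ.leaf K2_ok TB_l26452 _)
                   (CovZ.leaf K2_ok TB_l26453 _)))
                 (CovZ.n1 (-15912, 15072) (by decide +kernel)
                  (CovZ.n2 (-15924, 15084) (by decide +kernel)
                   (CovZ.leaf K2_ok TB_l43860 _)
                   (CovZ.n1 (-15924, 15072) (by decide +kernel)
                    (CovZ.leaf K2_ok TB_l43861 _)
                    (CovZ.leaf K2_ok TB_l43862 _)))
                  (CovZ.n1 (-15900, 15084) (by decide +kernel)
                   (CovZ.n2 (-15900, 15072) (by decide +kernel)
                    (CovZ.leaf K2_ok TB_l43863 _)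
                    (CovZ.leaf K2_ok TB_l43864 _))
                   (CovZ.leaf K2_ok TB_l43865 _))))
                (CovZ.n1 (-15864, 15096) (by decide +kernel)
                 (CovZ.subM 65185151242703554760590262029100101153646988597309960020356494399147261110467903233649016848 (by decide +kernel)
                  (CovZ.n2 (-15864, 15072) (by decide +kernel)
                   (CovZ.n2 (-15876, 15084) (by decide +kernel)
                    (CovZ.leaf K2_ok TB_l43866 _)
                    (CovZ.badM (by decide +kernel)))
                   (CovZ.n1 (-15852, 15084) (by decide +kernel)
                    (CovZ.badM (by decide +kernel))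
                    (CovZ.leaf K2_ok TB_l43867 _))))
                 (CovZ.n1 (-15888, 15096) (by decide +kernel)
                  (CovZ.n2 (-15876, 15108) (by decide +kernel)
                   (CovZ.leaf K2_ok TB_l43868 _)
                   (CovZ.leaf K2_ok TB_l26454 _))
                  (CovZ.n1 (-15876, 15084) (by decide +kernel)
                   (CovZ.leaf K2_ok TB_l43869 _)
                   (CovZ.leaf K2_ok TB_l43870 _))))))
              (CovZ.n1 (-15936, 15120) (by decide +kernel)
               (CovZ.n2 (-15912, 15144) (by decide +kernel)
                (CovZ.n2 (-15912, 15120) (by decide +kernel)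
                 (CovZ.leaf K2_ok TB_l26455 _)
                 (CovZ.leaf K2_ok TB_l26456 _))
                (CovZ.leaf K2_ok TB_l26457 _))
               (CovZ.subM 4697085165547666520964112436282228815341627126916740895061570541088698815226145308596317933309645871625797648 (by decide +kernel)
                (CovZ.n1 (-15912, 15096) (by decide +kernel)
                 (CovZ.n2 (-15936, 15096) (by decide +kernel)
                  (CovZ.n2 (-15924, 15108) (by decide +kernel)
                   (CovZ.leaf K2_ok TB_l26458 _)
                   (CovZ.leaf K2_ok TB_l26459 _))
                  (CovZ.n1 (-15924, 15084) (by decide +kernel)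
                   (CovZ.leaf K2_ok TB_l26460 _)
                   (CovZ.leaf K2_ok TB_l26461 _)))
                 (CovZ.n1 (-15912, 15120) (by decide +kernel)
                  (CovZ.n2 (-15900, 15108) (by decide +kernel)
                   (CovZ.leaf K2_ok TB_l26462 _)
                   (CovZ.leaf K2_ok TB_l26463 _))
                  (CovZ.leaf K2_ok TB_l26464 _))))))
             (CovZ.subM 4697085165547666455778961193578674054751365097816639741414581943065114948516670988707611616531642065881137152 (by decide +kernel)
              (CovZ.n1 (-15888, 15024) (by decide +kernel)
               (CovZ.n2 (-15936, 15024) (by decide +kernel)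
                (CovZ.n2 (-15912, 15048) (by decide +kernel)
                 (CovZ.badM (by decide +kernel))
                 (CovZ.n1 (-15936, 15048) (by decide +kernel)
                  (CovZ.n2 (-15924, 15060) (by decide +kernel)
                   (CovZ.n2 (-15924, 15048) (by decide +kernel)
                    (CovZ.leaf K2_ok TB_l43871 _)
                    (CovZ.leaf K2_ok TB_l43872 _))
                   (CovZ.leaf K2_ok TB_l43873 _))
                  (CovZ.badM (by decide +kernel))))
                (CovZ.badM (by decide +kernel)))
               (CovZ.n1 (-15888, 15072) (by decide +kernel)
                (CovZ.badM (by decide +kernel))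
                (CovZ.n1 (-15912, 15048) (by decide +kernel)
                 (CovZ.n2 (-15912, 15072) (by decide +kernel)
                  (CovZ.n2 (-15900, 15060) (by decide +kernel)
                   (CovZ.leaf K2_ok TB_l43874 _)
                   (CovZ.n1 (-15900, 15072) (by decide +kernel)
                    (CovZ.badM (by decide +kernel))
                    (CovZ.leaf K2_ok TB_l43875 _)))
                  (CovZ.n1 (-15924, 15060) (by decide +kernel)
                   (CovZ.n2 (-15924, 15072) (by decide +kernel)
                    (CovZ.leaf K2_ok TB_l43876 _)
                    (CovZ.leaf K2_ok TB_l43877 _))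
                   (CovZ.n1 (-15912, 15060) (by decide +kernel)
                    (CovZ.leaf K2_ok TB_l43878 _)
                    (CovZ.leaf K2_ok TB_l43879 _))))
                 (CovZ.badM (by decide +kernel))))))))))

theorem TB_u358 : CovZ TB_M (toL (selN TB_LN 661055968792958817092436311578211860153203136073861661357282515107967231341731559556664859155450503911686235779032533861200)) [0, 7, 6, 1] (-15936, 15168) (-16128, 15360) (-16128, 14976) :=
    (CovZ.subM 305310535760598319690817628855675275107315277531285230185907592362709231088134795670289185627299048265091252816 (by decide +kernel)
          (CovZ.n1 (-16128, 15168) (by decide +kernel)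
           (CovZ.n2 (-16032, 15264) (by decide +kernel)
            (CovZ.n2 (-16032, 15168) (by decide +kernel)
             (CovZ.n2 (-16080, 15216) (by decide +kernel)
              (CovZ.n2 (-16032, 15216) (by decide +kernel)
               (CovZ.n2 (-16056, 15192) (by decide +kernel)
                (CovZ.leaf K2_ok TB_l26465 _)
                (CovZ.leaf K2_ok TB_l26466 _))
               (CovZ.n1 (-16056, 15240) (by decide +kernel)
                (CovZ.leaf K2_ok TB_l26467 _)
                (CovZ.leaf K2_ok TB_l26468 _)))
              (CovZ.n1 (-16080, 15168) (by decide +kernel)
               (CovZ.n2 (-16104, 15192) (by decide +kernel)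
                (CovZ.leaf K2_ok TB_l26469 _)
                (CovZ.leaf K2_ok TB_l26470 _))
               (CovZ.n1 (-16056, 15192) (by decide +kernel)
                (CovZ.n2 (-16056, 15168) (by decide +kernel)
                 (CovZ.leaf K2_ok TB_l26471 _)
                 (CovZ.leaf K2_ok TB_l26472 _))
                (CovZ.leaf K2_ok TB_l26473 _))))
             (CovZ.n1 (-15984, 15216) (by decide +kernel)
              (CovZ.n2 (-15984, 15168) (by decide +kernel)
               (CovZ.n2 (-16008, 15192) (by decide +kernel)
                (CovZ.leaf K2_ok TB_l26474 _)
                (CovZ.leaf K2_ok TB_l26475 _))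
               (CovZ.n1 (-15960, 15192) (by decide +kernel)
                (CovZ.n2 (-15960, 15168) (by decide +kernel)
                 (CovZ.leaf K2_ok TB_l26476 _)
                 (CovZ.leaf K2_ok TB_l26477 _))
                (CovZ.leaf K2_ok TB_l26478 _)))
              (CovZ.n1 (-16032, 15216) (by decide +kernel)
               (CovZ.n2 (-16008, 15240) (by decide +kernel)
                (CovZ.leaf K2_ok TB_l26479 _)
                (CovZ.leaf K2_ok TB_l26480 _))
               (CovZ.n1 (-16008, 15192) (by decide +kernel)
                (CovZ.leaf K2_ok TB_l26481 _)
                (CovZ.leaf K2_ok TB_l26482 _)))))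
            (CovZ.n1 (-16128, 15264) (by decide +kernel)
             (CovZ.n2 (-16080, 15312) (by decide +kernel)
              (CovZ.n2 (-16080, 15264) (by decide +kernel)
               (CovZ.leaf K2_ok TB_l26483 _)
               (CovZ.leaf K2_ok TB_l26484 _))
              (CovZ.n1 (-16128, 15312) (by decide +kernel)
               (CovZ.leaf K2_ok TB_l26485 _)
               (CovZ.leaf K2_ok TB_l26486 _)))
             (CovZ.n1 (-16080, 15216) (by decide +kernel)
              (CovZ.n2 (-16128, 15216) (by decide +kernel)
               (CovZ.n2 (-16104, 15240) (by decide +kernel)
                (CovZ.leaf K2_ok TB_l26487 _)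
                (CovZ.leaf K2_ok TB_l26488 _))
               (CovZ.n1 (-16104, 15192) (by decide +kernel)
                (CovZ.leaf K2_ok TB_l26489 _)
                (CovZ.leaf K2_ok TB_l26490 _)))
              (CovZ.n1 (-16080, 15264) (by decide +kernel)
               (CovZ.n2 (-16056, 15240) (by decide +kernel)
                (CovZ.leaf K2_ok TB_l26491 _)
                (CovZ.leaf K2_ok TB_l26492 _))
               (CovZ.leaf K2_ok TB_l26493 _)))))
           (CovZ.n1 (-16032, 15072) (by decide +kernel)
            (CovZ.n2 (-16128, 15072) (by decide +kernel)
             (CovZ.n2 (-16080, 15120) (by decide +kernel)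
              (CovZ.subM 305310535760598319690817628825321073666288038378608633899011803443547150871308033271022540510717583274801233936 (by decide +kernel)
               (CovZ.n2 (-16080, 15072) (by decide +kernel)
                (CovZ.n2 (-16104, 15096) (by decide +kernel)
                 (CovZ.n2 (-16080, 15096) (by decide +kernel)
                  (CovZ.leaf K2_ok TB_l26494 _)
                  (CovZ.leaf K2_ok TB_l26495 _))
                 (CovZ.n1 (-16104, 15072) (by decide +kernel)
                  (CovZ.leaf K2_ok TB_l26496 _)
                  (CovZ.leaf K2_ok TB_l26497 _)))
                (CovZ.n1 (-16056, 15096) (by decide +kernel)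
                 (CovZ.n2 (-16056, 15072) (by decide +kernel)
                  (CovZ.leaf K2_ok TB_l26498 _)
                  (CovZ.n1 (-16044, 15084) (by decide +kernel)
                   (CovZ.leaf K2_ok TB_l26499 _)
                   (CovZ.leaf K2_ok TB_l26500 _)))
                 (CovZ.n1 (-16080, 15096) (by decide +kernel)
                  (CovZ.leaf K2_ok TB_l26501 _)
                  (CovZ.n1 (-16068, 15084) (by decide +kernel)
                   (CovZ.leaf K2_ok TB_l26502 _)
                   (CovZ.leaf K2_ok TB_l26503 _))))))
              (CovZ.n1 (-16128, 15120) (by decide +kernel)
               (CovZ.n2 (-16104, 15144) (by decide +kernel)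
                (CovZ.n2 (-16104, 15120) (by decide +kernel)
                 (CovZ.leaf K2_ok TB_l26504 _)
                 (CovZ.leaf K2_ok TB_l26505 _))
                (CovZ.leaf K2_ok TB_l26506 _))
               (CovZ.subM 305310535760598319690817628825321073666288038378608633899011803443547150871308033271022540510717548090697580560 (by decide +kernel)
                (CovZ.n1 (-16104, 15096) (by decide +kernel)
                 (CovZ.n2 (-16128, 15096) (by decide +kernel)
                  (CovZ.leaf K2_ok TB_l26507 _)
                  (CovZ.leaf K2_ok TB_l26508 _))
                 (CovZ.n1 (-16104, 15120) (by decide +kernel)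
                  (CovZ.leaf K2_ok TB_l26509 _)
                  (CovZ.leaf K2_ok TB_l26510 _))))))
             (CovZ.subM 4697085165547666455778961193578674054754815970990035023311292477063130996772357630260242742302411802718371840 (by decide +kernel)
              (CovZ.n1 (-16080, 15024) (by decide +kernel)
               (CovZ.n2 (-16128, 15024) (by decide +kernel)
                (CovZ.n2 (-16104, 15048) (by decide +kernel)
                 (CovZ.subM 4697085165547666455778961193578674054751365097816639741414581943064418050229216886927397996913652594139856896 (by decide +kernel)
                  (CovZ.n2 (-16104, 15024) (by decide +kernel)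
                   (CovZ.n2 (-16116, 15036) (by decide +kernel)
                    (CovZ.leaf K2_ok TB_l43880 _)
                    (CovZ.n1 (-16116, 15024) (by decide +kernel)
                     (CovZ.leaf K2_ok TB_l43881 _)
                     (CovZ.leaf K2_ok TB_l43882 _)))
                   (CovZ.n1 (-16092, 15036) (by decide +kernel)
                    (CovZ.n2 (-16092, 15024) (by decide +kernel)
                     (CovZ.leaf K2_ok TB_l43883 _)
                     (CovZ.leaf K2_ok TB_l43884 _))
                    (CovZ.leaf K2_ok TB_l43885 _))))
                 (CovZ.n1 (-16128, 15048) (by decide +kernel)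
                  (CovZ.n2 (-16116, 15060) (by decide +kernel)
                   (CovZ.n2 (-16116, 15048) (by decide +kernel)
                    (CovZ.leaf K2_ok TB_l43886 _)
                    (CovZ.leaf K2_ok TB_l43887 _))
                   (CovZ.leaf K2_ok TB_l43888 _))
                  (CovZ.n1 (-16116, 15036) (by decide +kernel)
                   (CovZ.leaf K2_ok TB_l43889 _)
                   (CovZ.n1 (-16116, 15048) (by decide +kernel)
                    (CovZ.leaf K2_ok TB_l43890 _)
                    (CovZ.leaf K2_ok TB_l43891 _)))))
                (CovZ.subM 131072 (by decide +kernel)
                 (CovZ.n1 (-16104, 15000) (by decide +kernel)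
                  (CovZ.n2 (-16128, 15000) (by decide +kernel)
                   (CovZ.n2 (-16116, 15012) (by decide +kernel)
                    (CovZ.badM (by decide +kernel))
                    (CovZ.n1 (-16128, 15012) (by decide +kernel)
                     (CovZ.leaf K2_ok TB_l43892 _)
                     (CovZ.badM (by decide +kernel))))
                   (CovZ.badM (by decide +kernel)))
                  (CovZ.n1 (-16104, 15024) (by decide +kernel)
                   (CovZ.n2 (-16092, 15012) (by decide +kernel)
                    (CovZ.n2 (-16104, 15012) (by decide +kernel)
                     (CovZ.leaf K2_ok TB_l43893 _)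
                     (CovZ.badM (by decide +kernel)))
                    (CovZ.n1 (-16092, 15024) (by decide +kernel)
                     (CovZ.badM (by decide +kernel))
                     (CovZ.leaf K2_ok TB_l43894 _)))
                   (CovZ.n1 (-16116, 15012) (by decide +kernel)
                    (CovZ.n2 (-16116, 15024) (by decide +kernel)
                     (CovZ.leaf K2_ok TB_l43895 _)
                     (CovZ.leaf K2_ok TB_l43896 _))
                    (CovZ.n1 (-16104, 15012) (by decide +kernel)
                     (CovZ.badM (by decide +kernel))
                     (CovZ.leaf K2_ok TB_l43897 _)))))))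
               (CovZ.n1 (-16080, 15072) (by decide +kernel)
                (CovZ.n2 (-16056, 15048) (by decide +kernel)
                 (CovZ.n2 (-16080, 15048) (by decide +kernel)
                  (CovZ.n2 (-16068, 15060) (by decide +kernel)
                   (CovZ.n2 (-16068, 15048) (by decide +kernel)
                    (CovZ.leaf K2_ok TB_l43898 _)
                    (CovZ.leaf K2_ok TB_l43899 _))
                   (CovZ.leaf K2_ok TB_l43900 _))
                  (CovZ.n1 (-16068, 15036) (by decide +kernel)
                   (CovZ.leaf K2_ok TB_l43901 _)
                   (CovZ.n1 (-16068, 15048) (by decide +kernel)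
                    (CovZ.leaf K2_ok TB_l43902 _)
                    (CovZ.leaf K2_ok TB_l43903 _))))
                 (CovZ.n1 (-16056, 15072) (by decide +kernel)
                  (CovZ.n2 (-16044, 15060) (by decide +kernel)
                   (CovZ.leaf K2_ok TB_l43904 _)
                   (CovZ.leaf K2_ok TB_l43905 _))
                  (CovZ.n1 (-16068, 15060) (by decide +kernel)
                   (CovZ.leaf K2_ok TB_l43906 _)
                   (CovZ.leaf K2_ok TB_l43907 _))))
                (CovZ.n1 (-16104, 15048) (by decide +kernel)
                 (CovZ.n2 (-16104, 15072) (by decide +kernel)
                  (CovZ.n2 (-16092, 15060) (by decide +kernel)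
                   (CovZ.leaf K2_ok TB_l43908 _)
                   (CovZ.leaf K2_ok TB_l43909 _))
                  (CovZ.n1 (-16116, 15060) (by decide +kernel)
                   (CovZ.leaf K2_ok TB_l43910 _)
                   (CovZ.leaf K2_ok TB_l43911 _)))
                 (CovZ.n1 (-16080, 15048) (by decide +kernel)
                  (CovZ.n2 (-16092, 15036) (by decide +kernel)
                   (CovZ.n2 (-16092, 15048) (by decide +kernel)
                    (CovZ.leaf K2_ok TB_l43912 _)
                    (CovZ.leaf K2_ok TB_l43913 _))
                   (CovZ.leaf K2_ok TB_l43914 _))
                  (CovZ.n1 (-16092, 15060) (by decide +kernel)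
                   (CovZ.leaf K2_ok TB_l43915 _)
                   (CovZ.n1 (-16092, 15048) (by decide +kernel)
                    (CovZ.leaf K2_ok TB_l43916 _)
                    (CovZ.leaf K2_ok TB_l43917 _)))))))))
            (CovZ.n1 (-16032, 15168) (by decide +kernel)
             (CovZ.n2 (-15984, 15120) (by decide +kernel)
              (CovZ.n2 (-16032, 15120) (by decide +kernel)
               (CovZ.n2 (-16008, 15144) (by decide +kernel)
                (CovZ.n2 (-16008, 15120) (by decide +kernel)
                 (CovZ.leaf K2_ok TB_l26511 _)
                 (CovZ.leaf K2_ok TB_l26512 _))
                (CovZ.leaf K2_ok TB_l26513 _))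
               (CovZ.subM 4697085165547666520964112436282228815341627126916740895061570541088698815226145308596317933886106658289090576 (by decide +kernel)
                (CovZ.n1 (-16008, 15096) (by decide +kernel)
                 (CovZ.n2 (-16032, 15096) (by decide +kernel)
                  (CovZ.leaf K2_ok TB_l26514 _)
                  (CovZ.leaf K2_ok TB_l26515 _))
                 (CovZ.n1 (-16008, 15120) (by decide +kernel)
                  (CovZ.leaf K2_ok TB_l26516 _)
                  (CovZ.leaf K2_ok TB_l26517 _)))))
              (CovZ.n1 (-15984, 15168) (by decide +kernel)
               (CovZ.n2 (-15960, 15144) (by decide +kernel)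
                (CovZ.leaf K2_ok TB_l26518 _)
                (CovZ.n1 (-15960, 15168) (by decide +kernel)
                 (CovZ.leaf K2_ok TB_l26519 _)
                 (CovZ.leaf K2_ok TB_l26520 _)))
               (CovZ.n1 (-16008, 15144) (by decide +kernel)
                (CovZ.n2 (-16008, 15168) (by decide +kernel)
                 (CovZ.leaf K2_ok TB_l26521 _)
                 (CovZ.leaf K2_ok TB_l26522 _))
                (CovZ.leaf K2_ok TB_l26523 _))))
             (CovZ.n1 (-16080, 15120) (by decide +kernel)
              (CovZ.n2 (-16080, 15168) (by decide +kernel)
               (CovZ.n2 (-16056, 15144) (by decide +kernel)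
                (CovZ.leaf K2_ok TB_l26524 _)
                (CovZ.n1 (-16056, 15168) (by decide +kernel)
                 (CovZ.leaf K2_ok TB_l26525 _)
                 (CovZ.leaf K2_ok TB_l26526 _)))
               (CovZ.n1 (-16104, 15144) (by decide +kernel)
                (CovZ.n2 (-16104, 15168) (by decide +kernel)
                 (CovZ.leaf K2_ok TB_l26527 _)
                 (CovZ.leaf K2_ok TB_l26528 _))
                (CovZ.leaf K2_ok TB_l26529 _)))
              (CovZ.subM 305310535760598319690817628825321073666284587505435238617115092910262758669571480069472166865457937591579050512 (by decide +kernel)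
               (CovZ.n1 (-16032, 15120) (by decide +kernel)
                (CovZ.n2 (-16056, 15096) (by decide +kernel)
                 (CovZ.n2 (-16056, 15120) (by decide +kernel)
                  (CovZ.leaf K2_ok TB_l26530 _)
                  (CovZ.leaf K2_ok TB_l26531 _))
                 (CovZ.n1 (-16032, 15096) (by decide +kernel)
                  (CovZ.n2 (-16044, 15084) (by decide +kernel)
                   (CovZ.leaf K2_ok TB_l26532 _)
                   (CovZ.leaf K2_ok TB_l26533 _))
                  (CovZ.leaf K2_ok TB_l26534 _)))
                (CovZ.n1 (-16056, 15144) (by decide +kernel)
                 (CovZ.leaf K2_ok TB_l26535 _)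
                 (CovZ.n1 (-16056, 15120) (by decide +kernel)
                  (CovZ.leaf K2_ok TB_l26536 _)
                  (CovZ.leaf K2_ok TB_l26537 _))))))))))

theorem TB_u359 : CovZ TB_M (toL (selN TB_LN 65185151242703554760590262029100101153646988598034734239480086121656515518640693500979446288)) [0, 7, 6, 1] (-15744, 14976) (-15648, 15072) (-15744, 15168) :=
    (CovZ.n2 (-15744, 15072) (by decide +kernel)
              (CovZ.n2 (-15696, 15120) (by decide +kernel)
               (CovZ.subM 65185151242703554760590262029100101153646988597309960020356494379359563295015652910648262672 (by decide +kernel)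
                (CovZ.n2 (-15696, 15072) (by decide +kernel)
                 (CovZ.n2 (-15720, 15096) (by decide +kernel)
                  (CovZ.n2 (-15696, 15096) (by decide +kernel)
                   (CovZ.n2 (-15708, 15084) (by decide +kernel)
                    (CovZ.n2 (-15708, 15096) (by decide +kernel)
                     (CovZ.leaf K2_ok TB_l43927 _)
                     (CovZ.leaf K2_ok TB_l43928 _))
                    (CovZ.n1 (-15696, 15084) (by decide +kernel)
                     (CovZ.n2 (-15702, 15078) (by decide +kernel)
                      (CovZ.leaf K2_ok TB_l43929 _)
                      (CovZ.leaf K2_ok TB_l43930 _))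
                     (CovZ.leaf K2_ok TB_l43931 _)))
                   (CovZ.n1 (-15708, 15108) (by decide +kernel)
                    (CovZ.n2 (-15696, 15108) (by decide +kernel)
                     (CovZ.leaf K2_ok TB_l43932 _)
                     (CovZ.leaf K2_ok TB_l43933 _))
                    (CovZ.n1 (-15708, 15096) (by decide +kernel)
                     (CovZ.leaf K2_ok TB_l43934 _)
                     (CovZ.leaf K2_ok TB_l43935 _))))
                  (CovZ.n1 (-15720, 15072) (by decide +kernel)
                   (CovZ.n2 (-15732, 15084) (by decide +kernel)
                    (CovZ.n2 (-15720, 15084) (by decide +kernel)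
                     (CovZ.n2 (-15726, 15078) (by decide +kernel)
                      (CovZ.leaf K2_ok TB_l43936 _)
                      (CovZ.leaf K2_ok TB_l43937 _))
                     (CovZ.leaf K2_ok TB_l43938 _))
                    (CovZ.n1 (-15732, 15072) (by decide +kernel)
                     (CovZ.leaf K2_ok TB_l43939 _)
                     (CovZ.n1 (-15726, 15078) (by decide +kernel)
                      (CovZ.badM (by decide +kernel))
                      (CovZ.leaf K2_ok TB_l43941 _))))
                   (CovZ.n1 (-15708, 15084) (by decide +kernel)
                    (CovZ.subM 8589934592 (by decide +kernel)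
                     (CovZ.n2 (-15708, 15072) (by decide +kernel)
                      (CovZ.n2 (-15714, 15078) (by decide +kernel)
                       (CovZ.leaf K2_ok TB_l43942 _)
                       (CovZ.n1 (-15714, 15072) (by decide +kernel)
                        (CovZ.leaf K2_ok TB_l43943 _)
                        (CovZ.leaf K2_ok TB_l43944 _)))
                      (CovZ.n1 (-15702, 15078) (by decide +kernel)
                       (CovZ.n2 (-15702, 15072) (by decide +kernel)
                        (CovZ.leaf K2_ok TB_l43945 _)
                        (CovZ.leaf K2_ok TB_l43946 _))
                       (CovZ.leaf K2_ok TB_l43947 _))))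
                    (CovZ.n1 (-15720, 15084) (by decide +kernel)
                     (CovZ.leaf K2_ok TB_l43948 _)
                     (CovZ.n1 (-15714, 15078) (by decide +kernel)
                      (CovZ.leaf K2_ok TB_l43949 _)
                      (CovZ.leaf K2_ok TB_l43950 _))))))
                 (CovZ.n1 (-15672, 15096) (by decide +kernel)
                  (CovZ.subM 65185151242703554760590262029100101153646988597309960020356494379340220481892706085039505424 (by decide +kernel)
                   (CovZ.n2 (-15672, 15072) (by decide +kernel)
                    (CovZ.n2 (-15684, 15084) (by decide +kernel)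
                     (CovZ.n2 (-15672, 15084) (by decide +kernel)
                      (CovZ.badM (by decide +kernel))
                      (CovZ.leaf K2_ok TB_l43951 _))
                     (CovZ.n1 (-15684, 15072) (by decide +kernel)
                      (CovZ.n2 (-15690, 15078) (by decide +kernel)
                       (CovZ.badM (by decide +kernel))
                       (CovZ.n1 (-15690, 15072) (by decide +kernel)
                        (CovZ.n2 (-15693, 15075) (by decide +kernel)
                         (CovZ.leaf K2_ok TB_l43952 _)
                         (CovZ.leaf K2_ok TB_l43953 _))
                        (CovZ.badM (by decide +kernel))))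
                      (CovZ.badM (by decide +kernel))))
                    (CovZ.n1 (-15660, 15084) (by decide +kernel)
                     (CovZ.badM (by decide +kernel))
                     (CovZ.n1 (-15672, 15084) (by decide +kernel)
                      (CovZ.n2 (-15666, 15090) (by decide +kernel)
                       (CovZ.badM (by decide +kernel))
                       (CovZ.leaf K2_ok TB_l43954 _))
                      (CovZ.badM (by decide +kernel))))))
                  (CovZ.n1 (-15696, 15096) (by decide +kernel)
                   (CovZ.n2 (-15684, 15108) (by decide +kernel)
                    (CovZ.n2 (-15684, 15096) (by decide +kernel)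
                     (CovZ.leaf K2_ok TB_l43955 _)
                     (CovZ.leaf K2_ok TB_l43956 _))
                    (CovZ.leaf K2_ok TB_l43957 _))
                   (CovZ.n1 (-15684, 15084) (by decide +kernel)
                    (CovZ.n2 (-15696, 15084) (by decide +kernel)
                     (CovZ.leaf K2_ok TB_l43958 _)
                     (CovZ.n1 (-15690, 15078) (by decide +kernel)
                      (CovZ.leaf K2_ok TB_l43959 _)
                      (CovZ.leaf K2_ok TB_l43960 _)))
                    (CovZ.n1 (-15684, 15096) (by decide +kernel)
                     (CovZ.leaf K2_ok TB_l43961 _)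
                     (CovZ.leaf K2_ok TB_l43962 _)))))))
               (CovZ.n1 (-15744, 15120) (by decide +kernel)
                (CovZ.n2 (-15720, 15144) (by decide +kernel)
                 (CovZ.n2 (-15720, 15120) (by decide +kernel)
                  (CovZ.n2 (-15732, 15132) (by decide +kernel)
                   (CovZ.leaf K2_ok TB_l43963 _)
                   (CovZ.leaf K2_ok TB_l43964 _))
                  (CovZ.n1 (-15708, 15132) (by decide +kernel)
                   (CovZ.leaf K2_ok TB_l43965 _)
                   (CovZ.leaf K2_ok TB_l43966 _)))
                 (CovZ.n1 (-15744, 15144) (by decide +kernel)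
                  (CovZ.n2 (-15732, 15156) (by decide +kernel)
                   (CovZ.n2 (-15732, 15144) (by decide +kernel)
                    (CovZ.leaf K2_ok TB_l43967 _)
                    (CovZ.leaf K2_ok TB_l43968 _))
                   (CovZ.leaf K2_ok TB_l26599 _))
                  (CovZ.n1 (-15732, 15132) (by decide +kernel)
                   (CovZ.leaf K2_ok TB_l43969 _)
                   (CovZ.leaf K2_ok TB_l43970 _))))
                (CovZ.subM 65185151242703554760590262029100101153646988598023583866709474320507676299383090616289198096 (by decide +kernel)
                 (CovZ.n1 (-15720, 15096) (by decide +kernel)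
                  (CovZ.n2 (-15744, 15096) (by decide +kernel)
                   (CovZ.n2 (-15732, 15108) (by decide +kernel)
                    (CovZ.n2 (-15732, 15096) (by decide +kernel)
                     (CovZ.leaf K2_ok TB_l43971 _)
                     (CovZ.leaf K2_ok TB_l43972 _))
                    (CovZ.leaf K2_ok TB_l43973 _))
                   (CovZ.n1 (-15732, 15084) (by decide +kernel)
                    (CovZ.n2 (-15744, 15084) (by decide +kernel)
                     (CovZ.leaf K2_ok TB_l43974 _)
                     (CovZ.n1 (-15738, 15078) (by decide +kernel)
                      (CovZ.badM (by decide +kernel))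
                      (CovZ.leaf K2_ok TB_l43976 _)))
                    (CovZ.n1 (-15732, 15096) (by decide +kernel)
                     (CovZ.leaf K2_ok TB_l43977 _)
                     (CovZ.leaf K2_ok TB_l43978 _))))
                  (CovZ.n1 (-15720, 15120) (by decide +kernel)
                   (CovZ.n2 (-15708, 15108) (by decide +kernel)
                    (CovZ.leaf K2_ok TB_l43979 _)
                    (CovZ.n1 (-15708, 15120) (by decide +kernel)
                     (CovZ.leaf K2_ok TB_l43980 _)
                     (CovZ.leaf K2_ok TB_l43981 _)))
                   (CovZ.n1 (-15732, 15108) (by decide +kernel)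
                    (CovZ.n2 (-15732, 15120) (by decide +kernel)
                     (CovZ.leaf K2_ok TB_l43982 _)
                     (CovZ.leaf K2_ok TB_l43983 _))
                    (CovZ.leaf K2_ok TB_l43984 _)))))))
              (CovZ.subM 8589934592 (by decide +kernel)
               (CovZ.n1 (-15696, 15024) (by decide +kernel)
                (CovZ.badM (by decide +kernel))
                (CovZ.n1 (-15696, 15072) (by decide +kernel)
                 (CovZ.n2 (-15672, 15048) (by decide +kernel)
                  (CovZ.n2 (-15696, 15048) (by decide +kernel)
                   (CovZ.n2 (-15684, 15060) (by decide +kernel)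
                    (CovZ.badM (by decide +kernel))
                    (CovZ.n1 (-15696, 15060) (by decide +kernel)
                     (CovZ.n2 (-15690, 15066) (by decide +kernel)
                      (CovZ.badM (by decide +kernel))
                      (CovZ.n1 (-15696, 15066) (by decide +kernel)
                       (CovZ.leaf K2_ok TB_l43985 _)
                       (CovZ.badM (by decide +kernel))))
                     (CovZ.badM (by decide +kernel))))
                   (CovZ.badM (by decide +kernel)))
                  (CovZ.n1 (-15672, 15072) (by decide +kernel)
                   (CovZ.badM (by decide +kernel))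
                   (CovZ.n1 (-15684, 15060) (by decide +kernel)
                    (CovZ.n2 (-15684, 15072) (by decide +kernel)
                     (CovZ.badM (by decide +kernel))
                     (CovZ.n1 (-15690, 15066) (by decide +kernel)
                      (CovZ.n2 (-15690, 15072) (by decide +kernel)
                       (CovZ.badM (by decide +kernel))
                       (CovZ.leaf K2_ok TB_l43986 _))
                      (CovZ.badM (by decide +kernel))))
                    (CovZ.badM (by decide +kernel)))))
                 (CovZ.n1 (-15720, 15048) (by decide +kernel)
                  (CovZ.n2 (-15720, 15072) (by decide +kernel)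
                   (CovZ.n2 (-15708, 15060) (by decide +kernel)
                    (CovZ.badM (by decide +kernel))
                    (CovZ.n1 (-15708, 15072) (by decide +kernel)
                     (CovZ.n2 (-15702, 15066) (by decide +kernel)
                      (CovZ.badM (by decide +kernel))
                      (CovZ.n1 (-15702, 15072) (by decide +kernel)
                       (CovZ.leaf K2_ok TB_l43987 _)
                       (CovZ.badM (by decide +kernel))))
                     (CovZ.badM (by decide +kernel))))
                   (CovZ.badM (by decide +kernel)))
                  (CovZ.n1 (-15696, 15048) (by decide +kernel)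
                   (CovZ.badM (by decide +kernel))
                   (CovZ.n1 (-15708, 15060) (by decide +kernel)
                    (CovZ.n2 (-15696, 15060) (by decide +kernel)
                     (CovZ.badM (by decide +kernel))
                     (CovZ.n1 (-15702, 15066) (by decide +kernel)
                      (CovZ.leaf K2_ok TB_l43989 _)
                      (CovZ.badM (by decide +kernel))))
                    (CovZ.badM (by decide +kernel)))))))))

theorem TB_u360 : CovZ TB_M (toL (selN TB_LN 65185151242703554760590262029100101153646988598034734239480086121656515518640693500979446288)) [0, 7, 6, 1] (-15648, 15072) (-15552, 15168) (-15744, 15168) :=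
    (CovZ.n1 (-15648, 15168) (by decide +kernel)
              (CovZ.n2 (-15600, 15120) (by decide +kernel)
               (CovZ.n2 (-15648, 15120) (by decide +kernel)
                (CovZ.n2 (-15624, 15144) (by decide +kernel)
                 (CovZ.n2 (-15624, 15120) (by decide +kernel)
                  (CovZ.n2 (-15636, 15132) (by decide +kernel)
                   (CovZ.leaf K2_ok TB_l43990 _)
                   (CovZ.n1 (-15636, 15120) (by decide +kernel)
                    (CovZ.leaf K2_ok TB_l43991 _)
                    (CovZ.leaf K2_ok TB_l43992 _)))
                  (CovZ.n1 (-15612, 15132) (by decide +kernel)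
                   (CovZ.n2 (-15612, 15120) (by decide +kernel)
                    (CovZ.leaf K2_ok TB_l43993 _)
                    (CovZ.leaf K2_ok TB_l43994 _))
                   (CovZ.leaf K2_ok TB_l43995 _)))
                 (CovZ.n1 (-15648, 15144) (by decide +kernel)
                  (CovZ.n2 (-15636, 15156) (by decide +kernel)
                   (CovZ.n2 (-15636, 15144) (by decide +kernel)
                    (CovZ.leaf K2_ok TB_l43996 _)
                    (CovZ.leaf K2_ok TB_l43997 _))
                   (CovZ.leaf K2_ok TB_l26600 _))
                  (CovZ.n1 (-15636, 15132) (by decide +kernel)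
                   (CovZ.leaf K2_ok TB_l43998 _)
                   (CovZ.n1 (-15636, 15144) (by decide +kernel)
                    (CovZ.leaf K2_ok TB_l43999 _)
                    (CovZ.leaf K2_ok TB_l44000 _)))))
                (CovZ.subM 65185151242703554760590262029100101153646988597309960020356494418973625662681819849357787136 (by decide +kernel)
                 (CovZ.n1 (-15624, 15096) (by decide +kernel)
                  (CovZ.n2 (-15648, 15096) (by decide +kernel)
                   (CovZ.n2 (-15636, 15108) (by decide +kernel)
                    (CovZ.subM 65185151242703554760590262029100101153646988597309960020356494379340201592426774597868716032 (by decide +kernel)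
                     (CovZ.n2 (-15636, 15096) (by decide +kernel)
                      (CovZ.n2 (-15642, 15102) (by decide +kernel)
                       (CovZ.leaf K2_ok TB_l44001 _)
                       (CovZ.n1 (-15642, 15096) (by decide +kernel)
                        (CovZ.leaf K2_ok TB_l44002 _)
                        (CovZ.leaf K2_ok TB_l44003 _)))
                      (CovZ.n1 (-15630, 15102) (by decide +kernel)
                       (CovZ.badM (by decide +kernel))
                       (CovZ.leaf K2_ok TB_l44004 _))))
                    (CovZ.n1 (-15648, 15108) (by decide +kernel)
                     (CovZ.leaf K2_ok TB_l44005 _)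
                     (CovZ.n1 (-15642, 15102) (by decide +kernel)
                      (CovZ.leaf K2_ok TB_l44006 _)
                      (CovZ.leaf K2_ok TB_l44007 _))))
                   (CovZ.subM 65185151242703554760590262029100101153646988597309960020356494379340201592426774597868716032 (by decide +kernel)
                    (CovZ.n1 (-15636, 15084) (by decide +kernel)
                     (CovZ.n2 (-15648, 15084) (by decide +kernel)
                      (CovZ.n2 (-15642, 15090) (by decide +kernel)
                       (CovZ.badM (by decide +kernel))
                       (CovZ.leaf K2_ok TB_l44008 _))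
                      (CovZ.badM (by decide +kernel)))
                     (CovZ.n1 (-15636, 15096) (by decide +kernel)
                      (CovZ.badM (by decide +kernel))
                      (CovZ.n1 (-15642, 15090) (by decide +kernel)
                       (CovZ.leaf K2_ok TB_l44009 _)
                       (CovZ.leaf K2_ok TB_l44010 _))))))
                  (CovZ.n1 (-15624, 15120) (by decide +kernel)
                   (CovZ.subM 39614081257132168796771975168 (by decide +kernel)
                    (CovZ.n2 (-15612, 15108) (by decide +kernel)
                     (CovZ.badM (by decide +kernel))
                     (CovZ.n1 (-15612, 15120) (by decide +kernel)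
                      (CovZ.n2 (-15606, 15114) (by decide +kernel)
                       (CovZ.badM (by decide +kernel))
                       (CovZ.leaf K2_ok TB_l44011 _))
                      (CovZ.badM (by decide +kernel)))))
                   (CovZ.n1 (-15636, 15108) (by decide +kernel)
                    (CovZ.n2 (-15636, 15120) (by decide +kernel)
                     (CovZ.leaf K2_ok TB_l44012 _)
                     (CovZ.n1 (-15642, 15114) (by decide +kernel)
                      (CovZ.leaf K2_ok TB_l44013 _)
                      (CovZ.leaf K2_ok TB_l44014 _)))
                    (CovZ.subM 65185151242703554760590262029100101153646988597309960020356494379340201592426774597868716032 (by decide +kernel)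
                     (CovZ.n1 (-15624, 15108) (by decide +kernel)
                      (CovZ.n2 (-15630, 15102) (by decide +kernel)
                       (CovZ.leaf K2_ok TB_l44015 _)
                       (CovZ.badM (by decide +kernel)))
                      (CovZ.n1 (-15630, 15114) (by decide +kernel)
                       (CovZ.leaf K2_ok TB_l44016 _)
                       (CovZ.leaf K2_ok TB_l44017 _)))))))))
               (CovZ.n1 (-15600, 15168) (by decide +kernel)
                (CovZ.n2 (-15576, 15144) (by decide +kernel)
                 (CovZ.n2 (-15600, 15144) (by decide +kernel)
                  (CovZ.n2 (-15588, 15156) (by decide +kernel)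
                   (CovZ.n2 (-15588, 15144) (by decide +kernel)
                    (CovZ.leaf K2_ok TB_l44018 _)
                    (CovZ.leaf K2_ok TB_l44019 _))
                   (CovZ.leaf K2_ok TB_l44020 _))
                  (CovZ.n1 (-15588, 15132) (by decide +kernel)
                   (CovZ.leaf K2_ok TB_l44021 _)
                   (CovZ.n1 (-15588, 15144) (by decide +kernel)
                    (CovZ.leaf K2_ok TB_l44022 _)
                    (CovZ.leaf K2_ok TB_l44023 _))))
                 (CovZ.n1 (-15576, 15168) (by decide +kernel)
                  (CovZ.n2 (-15564, 15156) (by decide +kernel)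
                   (CovZ.leaf K2_ok TB_l44024 _)
                   (CovZ.n1 (-15564, 15168) (by decide +kernel)
                    (CovZ.leaf K2_ok TB_l44025 _)
                    (CovZ.leaf K2_ok TB_l44026 _)))
                  (CovZ.n1 (-15588, 15156) (by decide +kernel)
                   (CovZ.leaf K2_ok TB_l44027 _)
                   (CovZ.leaf K2_ok TB_l44028 _))))
                (CovZ.n1 (-15624, 15144) (by decide +kernel)
                 (CovZ.n2 (-15624, 15168) (by decide +kernel)
                  (CovZ.n2 (-15612, 15156) (by decide +kernel)
                   (CovZ.leaf K2_ok TB_l44029 _)
                   (CovZ.leaf K2_ok TB_l44030 _))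
                  (CovZ.n1 (-15636, 15156) (by decide +kernel)
                   (CovZ.leaf K2_ok TB_l26601 _)
                   (CovZ.leaf K2_ok TB_l44031 _)))
                 (CovZ.n1 (-15600, 15144) (by decide +kernel)
                  (CovZ.n2 (-15612, 15132) (by decide +kernel)
                   (CovZ.n2 (-15612, 15144) (by decide +kernel)
                    (CovZ.leaf K2_ok TB_l44032 _)
                    (CovZ.leaf K2_ok TB_l44033 _))
                   (CovZ.n1 (-15600, 15132) (by decide +kernel)
                    (CovZ.n2 (-15606, 15126) (by decide +kernel)
                     (CovZ.leaf K2_ok TB_l44034 _)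
                     (CovZ.leaf K2_ok TB_l44035 _))
                    (CovZ.leaf K2_ok TB_l44036 _)))
                  (CovZ.n1 (-15612, 15156) (by decide +kernel)
                   (CovZ.leaf K2_ok TB_l44037 _)
                   (CovZ.n1 (-15612, 15144) (by decide +kernel)
                    (CovZ.leaf K2_ok TB_l44038 _)
                    (CovZ.leaf K2_ok TB_l44039 _)))))))
              (CovZ.n1 (-15696, 15120) (by decide +kernel)
               (CovZ.n2 (-15696, 15168) (by decide +kernel)
                (CovZ.n2 (-15672, 15144) (by decide +kernel)
                 (CovZ.n2 (-15696, 15144) (by decide +kernel)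
                  (CovZ.n2 (-15684, 15156) (by decide +kernel)
                   (CovZ.leaf K2_ok TB_l44040 _)
                   (CovZ.leaf K2_ok TB_l44041 _))
                  (CovZ.n1 (-15684, 15132) (by decide +kernel)
                   (CovZ.leaf K2_ok TB_l44042 _)
                   (CovZ.n1 (-15684, 15144) (by decide +kernel)
                    (CovZ.leaf K2_ok TB_l44043 _)
                    (CovZ.leaf K2_ok TB_l44044 _))))
                 (CovZ.n1 (-15672, 15168) (by decide +kernel)
                  (CovZ.n2 (-15660, 15156) (by decide +kernel)
                   (CovZ.leaf K2_ok TB_l26602 _)
                   (CovZ.leaf K2_ok TB_l26603 _))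
                  (CovZ.n1 (-15684, 15156) (by decide +kernel)
                   (CovZ.leaf K2_ok TB_l26604 _)
                   (CovZ.leaf K2_ok TB_l26605 _))))
                (CovZ.n1 (-15720, 15144) (by decide +kernel)
                 (CovZ.n2 (-15720, 15168) (by decide +kernel)
                  (CovZ.n2 (-15708, 15156) (by decide +kernel)
                   (CovZ.leaf K2_ok TB_l26606 _)
                   (CovZ.leaf K2_ok TB_l26607 _))
                  (CovZ.n1 (-15732, 15156) (by decide +kernel)
                   (CovZ.leaf K2_ok TB_l26608 _)
                   (CovZ.leaf K2_ok TB_l26609 _)))
                 (CovZ.n1 (-15696, 15144) (by decide +kernel)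
                  (CovZ.n2 (-15708, 15132) (by decide +kernel)
                   (CovZ.leaf K2_ok TB_l44045 _)
                   (CovZ.leaf K2_ok TB_l44046 _))
                  (CovZ.n1 (-15708, 15156) (by decide +kernel)
                   (CovZ.leaf K2_ok TB_l26610 _)
                   (CovZ.leaf K2_ok TB_l44047 _)))))
               (CovZ.n1 (-15648, 15120) (by decide +kernel)
                (CovZ.subM 65185151242703554760590262029100101153646988597309960020356494379359563295015652910648262672 (by decide +kernel)
                 (CovZ.n2 (-15672, 15096) (by decide +kernel)
                  (CovZ.n2 (-15672, 15120) (by decide +kernel)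
                   (CovZ.n2 (-15660, 15108) (by decide +kernel)
                    (CovZ.n2 (-15672, 15108) (by decide +kernel)
                     (CovZ.n2 (-15666, 15114) (by decide +kernel)
                      (CovZ.leaf K2_ok TB_l44048 _)
                      (CovZ.leaf K2_ok TB_l44049 _))
                     (CovZ.leaf K2_ok TB_l44050 _))
                    (CovZ.n1 (-15660, 15120) (by decide +kernel)
                     (CovZ.leaf K2_ok TB_l44051 _)
                     (CovZ.leaf K2_ok TB_l44052 _)))
                   (CovZ.n1 (-15684, 15108) (by decide +kernel)
                    (CovZ.n2 (-15684, 15120) (by decide +kernel)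
                     (CovZ.leaf K2_ok TB_l44053 _)
                     (CovZ.leaf K2_ok TB_l44054 _))
                    (CovZ.leaf K2_ok TB_l44055 _)))
                  (CovZ.subM 65185151242703554760590262029100101153646988597309960020356494379359544405549651052585811968 (by decide +kernel)
                   (CovZ.n1 (-15648, 15096) (by decide +kernel)
                    (CovZ.n2 (-15660, 15084) (by decide +kernel)
                     (CovZ.n2 (-15660, 15096) (by decide +kernel)
                      (CovZ.n2 (-15654, 15090) (by decide +kernel)
                       (CovZ.leaf K2_ok TB_l44056 _)
                       (CovZ.leaf K2_ok TB_l44057 _))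
                      (CovZ.n1 (-15666, 15090) (by decide +kernel)
                       (CovZ.leaf K2_ok TB_l44058 _)
                       (CovZ.leaf K2_ok TB_l44059 _)))
                     (CovZ.n1 (-15648, 15084) (by decide +kernel)
                      (CovZ.badM (by decide +kernel))
                      (CovZ.n1 (-15654, 15090) (by decide +kernel)
                       (CovZ.leaf K2_ok TB_l44060 _)
                       (CovZ.badM (by decide +kernel)))))
                    (CovZ.n1 (-15660, 15108) (by decide +kernel)
                     (CovZ.n2 (-15648, 15108) (by decide +kernel)
                      (CovZ.leaf K2_ok TB_l44061 _)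
                      (CovZ.leaf K2_ok TB_l44062 _))
                     (CovZ.n1 (-15660, 15096) (by decide +kernel)
                      (CovZ.leaf K2_ok TB_l44063 _)
                      (CovZ.leaf K2_ok TB_l44064 _)))))))
                (CovZ.n1 (-15672, 15144) (by decide +kernel)
                 (CovZ.n2 (-15648, 15144) (by decide +kernel)
                  (CovZ.n2 (-15660, 15132) (by decide +kernel)
                   (CovZ.n2 (-15660, 15144) (by decide +kernel)
                    (CovZ.leaf K2_ok TB_l44065 _)
                    (CovZ.leaf K2_ok TB_l44066 _))
                   (CovZ.leaf K2_ok TB_l44067 _))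
                  (CovZ.n1 (-15660, 15156) (by decide +kernel)
                   (CovZ.leaf K2_ok TB_l26611 _)
                   (CovZ.n1 (-15660, 15144) (by decide +kernel)
                    (CovZ.leaf K2_ok TB_l44068 _)
                    (CovZ.leaf K2_ok TB_l44069 _))))
                 (CovZ.n1 (-15672, 15120) (by decide +kernel)
                  (CovZ.n2 (-15684, 15132) (by decide +kernel)
                   (CovZ.leaf K2_ok TB_l44070 _)
                   (CovZ.n1 (-15684, 15120) (by decide +kernel)
                    (CovZ.leaf K2_ok TB_l44071 _)
                    (CovZ.leaf K2_ok TB_l44072 _)))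
                  (CovZ.n1 (-15660, 15132) (by decide +kernel)
                   (CovZ.n2 (-15660, 15120) (by decide +kernel)
                    (CovZ.leaf K2_ok TB_l44073 _)
                    (CovZ.leaf K2_ok TB_l44074 _))
                   (CovZ.leaf K2_ok TB_l44075 _)))))))

theorem TB_u361 : CovZ TB_M (toL (selN TB_LN 661055968792958817092436311578211860153203136073861661357282515107967231341731559556664859155450503911686235779032533861200)) [0, 7, 6, 1] (-15360, 15360) (-15552, 15360) (-15552, 15168) :=
    (CovZ.n2 (-15456, 15264) (by decide +kernel)
           (CovZ.subM 661055968790553909487675906352461921114604264490637699761081993306090439187608921114174484915583773233745891524681836528464 (by decide +kernel)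
            (CovZ.n2 (-15552, 15264) (by decide +kernel)
             (CovZ.n2 (-15504, 15312) (by decide +kernel)
              (CovZ.n2 (-15504, 15264) (by decide +kernel)
               (CovZ.n2 (-15528, 15288) (by decide +kernel)
                (CovZ.n2 (-15504, 15288) (by decide +kernel)
                 (CovZ.leaf K2_ok TB_l26612 _)
                 (CovZ.leaf K2_ok TB_l26613 _))
                (CovZ.n1 (-15528, 15264) (by decide +kernel)
                 (CovZ.leaf K2_ok TB_l26614 _)
                 (CovZ.leaf K2_ok TB_l26615 _)))
               (CovZ.n1 (-15480, 15288) (by decide +kernel)
                (CovZ.n2 (-15480, 15264) (by decide +kernel)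
                 (CovZ.n2 (-15492, 15276) (by decide +kernel)
                  (CovZ.leaf K2_ok TB_l26616 _)
                  (CovZ.leaf K2_ok TB_l26617 _))
                 (CovZ.leaf K2_ok TB_l26618 _))
                (CovZ.n1 (-15504, 15288) (by decide +kernel)
                 (CovZ.leaf K2_ok TB_l26619 _)
                 (CovZ.n1 (-15492, 15276) (by decide +kernel)
                  (CovZ.leaf K2_ok TB_l26620 _)
                  (CovZ.leaf K2_ok TB_l26621 _)))))
              (CovZ.n1 (-15552, 15312) (by decide +kernel)
               (CovZ.n2 (-15528, 15336) (by decide +kernel)
                (CovZ.n2 (-15528, 15312) (by decide +kernel)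
                 (CovZ.leaf K2_ok TB_l26622 _)
                 (CovZ.leaf K2_ok TB_l26623 _))
                (CovZ.leaf K2_ok TB_l26624 _))
               (CovZ.n1 (-15528, 15288) (by decide +kernel)
                (CovZ.n2 (-15552, 15288) (by decide +kernel)
                 (CovZ.leaf K2_ok TB_l26625 _)
                 (CovZ.leaf K2_ok TB_l26626 _))
                (CovZ.n1 (-15528, 15312) (by decide +kernel)
                 (CovZ.leaf K2_ok TB_l26627 _)
                 (CovZ.leaf K2_ok TB_l26628 _)))))
             (CovZ.n1 (-15504, 15216) (by decide +kernel)
              (CovZ.n2 (-15552, 15216) (by decide +kernel)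
               (CovZ.n2 (-15528, 15240) (by decide +kernel)
                (CovZ.subM 661055968790549212402510358685940893344793721809132162245027313772127844758681244659262513212678770825812920419413250802240 (by decide +kernel)
                 (CovZ.n2 (-15528, 15216) (by decide +kernel)
                  (CovZ.n2 (-15540, 15228) (by decide +kernel)
                   (CovZ.leaf K2_ok TB_l44076 _)
                   (CovZ.leaf K2_ok TB_l44077 _))
                  (CovZ.n1 (-15516, 15228) (by decide +kernel)
                   (CovZ.leaf K2_ok TB_l44078 _)
                   (CovZ.leaf K2_ok TB_l44079 _))))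
                (CovZ.n1 (-15552, 15240) (by decide +kernel)
                 (CovZ.leaf K2_ok TB_l26629 _)
                 (CovZ.n1 (-15540, 15228) (by decide +kernel)
                  (CovZ.leaf K2_ok TB_l44080 _)
                  (CovZ.n1 (-15540, 15240) (by decide +kernel)
                   (CovZ.leaf K2_ok TB_l44081 _)
                   (CovZ.leaf K2_ok TB_l44082 _)))))
               (CovZ.subM 661055968790248598951915308032771039828404682964281219284648795274405791236312070599408334031417368091376405311418351485504 (by decide +kernel)
                (CovZ.n1 (-15528, 15192) (by decide +kernel)
                 (CovZ.n2 (-15552, 15192) (by decide +kernel)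
                  (CovZ.n2 (-15540, 15204) (by decide +kernel)
                   (CovZ.leaf K2_ok TB_l44083 _)
                   (CovZ.leaf K2_ok TB_l44084 _))
                  (CovZ.n1 (-15540, 15180) (by decide +kernel)
                   (CovZ.leaf K2_ok TB_l44085 _)
                   (CovZ.n1 (-15540, 15192) (by decide +kernel)
                    (CovZ.leaf K2_ok TB_l44086 _)
                    (CovZ.leaf K2_ok TB_l44087 _))))
                 (CovZ.n1 (-15528, 15216) (by decide +kernel)
                  (CovZ.n2 (-15516, 15204) (by decide +kernel)
                   (CovZ.leaf K2_ok TB_l44088 _)
                   (CovZ.n1 (-15516, 15216) (by decide +kernel)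
                    (CovZ.leaf K2_ok TB_l44089 _)
                    (CovZ.leaf K2_ok TB_l44090 _)))
                  (CovZ.n1 (-15540, 15204) (by decide +kernel)
                   (CovZ.leaf K2_ok TB_l44091 _)
                   (CovZ.leaf K2_ok TB_l44092 _))))))
              (CovZ.n1 (-15504, 15264) (by decide +kernel)
               (CovZ.n2 (-15480, 15240) (by decide +kernel)
                (CovZ.n2 (-15504, 15240) (by decide +kernel)
                 (CovZ.n2 (-15492, 15252) (by decide +kernel)
                  (CovZ.leaf K2_ok TB_l26630 _)
                  (CovZ.leaf K2_ok TB_l26631 _))
                 (CovZ.n1 (-15492, 15228) (by decide +kernel)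
                  (CovZ.leaf K2_ok TB_l44093 _)
                  (CovZ.n1 (-15492, 15240) (by decide +kernel)
                   (CovZ.leaf K2_ok TB_l44094 _)
                   (CovZ.leaf K2_ok TB_l44095 _))))
                (CovZ.n1 (-15480, 15264) (by decide +kernel)
                 (CovZ.n2 (-15468, 15252) (by decide +kernel)
                  (CovZ.leaf K2_ok TB_l26632 _)
                  (CovZ.leaf K2_ok TB_l26633 _))
                 (CovZ.n1 (-15492, 15252) (by decide +kernel)
                  (CovZ.leaf K2_ok TB_l26634 _)
                  (CovZ.leaf K2_ok TB_l26635 _))))
               (CovZ.n1 (-15528, 15240) (by decide +kernel)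
                (CovZ.n2 (-15528, 15264) (by decide +kernel)
                 (CovZ.leaf K2_ok TB_l26636 _)
                 (CovZ.leaf K2_ok TB_l26637 _))
                (CovZ.n1 (-15504, 15240) (by decide +kernel)
                 (CovZ.n2 (-15516, 15228) (by decide +kernel)
                  (CovZ.leaf K2_ok TB_l44096 _)
                  (CovZ.leaf K2_ok TB_l44097 _))
                 (CovZ.leaf K2_ok TB_l26638 _)))))))
           (CovZ.n1 (-15456, 15360) (by decide +kernel)
            (CovZ.subM 661055968790553909487675906352396735963361560935877109499052899682905783118066159432688813170845212157373462803056223585088 (by decide +kernel)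
             (CovZ.n2 (-15408, 15312) (by decide +kernel)
              (CovZ.n2 (-15456, 15312) (by decide +kernel)
               (CovZ.n2 (-15432, 15336) (by decide +kernel)
                (CovZ.n2 (-15432, 15312) (by decide +kernel)
                 (CovZ.leaf K2_ok TB_l26639 _)
                 (CovZ.leaf K2_ok TB_l26640 _))
                (CovZ.n1 (-15456, 15336) (by decide +kernel)
                 (CovZ.leaf K2_ok TB_l26641 _)
                 (CovZ.leaf K2_ok TB_l26642 _)))
               (CovZ.n1 (-15432, 15288) (by decide +kernel)
                (CovZ.n2 (-15456, 15288) (by decide +kernel)
                 (CovZ.leaf K2_ok TB_l26643 _)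
                 (CovZ.n1 (-15444, 15276) (by decide +kernel)
                  (CovZ.leaf K2_ok TB_l44098 _)
                  (CovZ.leaf K2_ok TB_l44099 _)))
                (CovZ.n1 (-15432, 15312) (by decide +kernel)
                 (CovZ.n2 (-15420, 15300) (by decide +kernel)
                  (CovZ.leaf K2_ok TB_l44100 _)
                  (CovZ.n1 (-15420, 15312) (by decide +kernel)
                   (CovZ.leaf K2_ok TB_l44101 _)
                   (CovZ.leaf K2_ok TB_l44102 _)))
                 (CovZ.n1 (-15444, 15300) (by decide +kernel)
                  (CovZ.leaf K2_ok TB_l26644 _)
                  (CovZ.leaf K2_ok TB_l44103 _)))))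
              (CovZ.n1 (-15408, 15360) (by decide +kernel)
               (CovZ.n2 (-15384, 15336) (by decide +kernel)
                (CovZ.n2 (-15408, 15336) (by decide +kernel)
                 (CovZ.leaf K2_ok TB_l26645 _)
                 (CovZ.leaf K2_ok TB_l26646 _))
                (CovZ.n1 (-15384, 15360) (by decide +kernel)
                 (CovZ.leaf K2_ok TB_l26647 _)
                 (CovZ.leaf K2_ok TB_l26648 _)))
               (CovZ.n1 (-15432, 15336) (by decide +kernel)
                (CovZ.n2 (-15432, 15360) (by decide +kernel)
                 (CovZ.leaf K2_ok TB_l26649 _)
                 (CovZ.leaf K2_ok TB_l26650 _))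
                (CovZ.n1 (-15408, 15336) (by decide +kernel)
                 (CovZ.leaf K2_ok TB_l26651 _)
                 (CovZ.leaf K2_ok TB_l26652 _))))))
            (CovZ.subM 661055968790553909487675906352461921114604264490637699761081993356307253070702367224860800301247581651569125455573085586256 (by decide +kernel)
             (CovZ.n1 (-15504, 15312) (by decide +kernel)
              (CovZ.n2 (-15504, 15360) (by decide +kernel)
               (CovZ.n2 (-15480, 15336) (by decide +kernel)
                (CovZ.leaf K2_ok TB_l26653 _)
                (CovZ.n1 (-15480, 15360) (by decide +kernel)
                 (CovZ.leaf K2_ok TB_l26654 _)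
                 (CovZ.leaf K2_ok TB_l26655 _)))
               (CovZ.n1 (-15528, 15336) (by decide +kernel)
                (CovZ.n2 (-15528, 15360) (by decide +kernel)
                 (CovZ.leaf K2_ok TB_l26656 _)
                 (CovZ.leaf K2_ok TB_l26657 _))
                (CovZ.leaf K2_ok TB_l26658 _)))
              (CovZ.n1 (-15456, 15312) (by decide +kernel)
               (CovZ.n2 (-15480, 15288) (by decide +kernel)
                (CovZ.n2 (-15480, 15312) (by decide +kernel)
                 (CovZ.leaf K2_ok TB_l26659 _)
                 (CovZ.leaf K2_ok TB_l26660 _))
                (CovZ.n1 (-15456, 15288) (by decide +kernel)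
                 (CovZ.leaf K2_ok TB_l26661 _)
                 (CovZ.leaf K2_ok TB_l26662 _)))
               (CovZ.n1 (-15480, 15336) (by decide +kernel)
                (CovZ.n2 (-15456, 15336) (by decide +kernel)
                 (CovZ.leaf K2_ok TB_l26663 _)
                 (CovZ.leaf K2_ok TB_l26664 _))
                (CovZ.n1 (-15480, 15312) (by decide +kernel)
                 (CovZ.leaf K2_ok TB_l26665 _)
                 (CovZ.leaf K2_ok TB_l26666 _))))))))

theorem TB_u362 : CovZ TB_M (toL (selN TB_LN 661055968792958817092436311578211860153203136073861661357282515107967231341731559556664859155450503911686235779032533861200)) [0, 7, 6, 1] (-15552, 15360) (-15744, 15360) (-15552, 15168) :=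
    (CovZ.subM 661055968790553909487675906352461857457230004037947503872154230513022906329221619750564939990277323068869395320860997321552 (by decide +kernel)
           (CovZ.n1 (-15648, 15264) (by decide +kernel)
            (CovZ.n2 (-15648, 15360) (by decide +kernel)
             (CovZ.n2 (-15600, 15312) (by decide +kernel)
              (CovZ.n2 (-15648, 15312) (by decide +kernel)
               (CovZ.n2 (-15624, 15336) (by decide +kernel)
                (CovZ.n2 (-15624, 15312) (by decide +kernel)
                 (CovZ.leaf K2_ok TB_l26667 _)
                 (CovZ.leaf K2_ok TB_l26668 _))
                (CovZ.leaf K2_ok TB_l26669 _))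
               (CovZ.n1 (-15624, 15288) (by decide +kernel)
                (CovZ.leaf K2_ok TB_l26670 _)
                (CovZ.n1 (-15624, 15312) (by decide +kernel)
                 (CovZ.leaf K2_ok TB_l26671 _)
                 (CovZ.leaf K2_ok TB_l26672 _))))
              (CovZ.n1 (-15600, 15360) (by decide +kernel)
               (CovZ.n2 (-15576, 15336) (by decide +kernel)
                (CovZ.leaf K2_ok TB_l26673 _)
                (CovZ.n1 (-15576, 15360) (by decide +kernel)
                 (CovZ.leaf K2_ok TB_l26674 _)
                 (CovZ.leaf K2_ok TB_l26675 _)))
               (CovZ.n1 (-15624, 15336) (by decide +kernel)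
                (CovZ.n2 (-15624, 15360) (by decide +kernel)
                 (CovZ.leaf K2_ok TB_l26676 _)
                 (CovZ.leaf K2_ok TB_l26677 _))
                (CovZ.leaf K2_ok TB_l26678 _))))
             (CovZ.n1 (-15696, 15312) (by decide +kernel)
              (CovZ.n2 (-15696, 15360) (by decide +kernel)
               (CovZ.n2 (-15672, 15336) (by decide +kernel)
                (CovZ.leaf K2_ok TB_l26679 _)
                (CovZ.leaf K2_ok TB_l26680 _))
               (CovZ.n1 (-15720, 15336) (by decide +kernel)
                (CovZ.leaf K2_ok TB_l26681 _)
                (CovZ.leaf K2_ok TB_l26682 _)))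
              (CovZ.n1 (-15648, 15312) (by decide +kernel)
               (CovZ.n2 (-15672, 15288) (by decide +kernel)
                (CovZ.n2 (-15672, 15312) (by decide +kernel)
                 (CovZ.leaf K2_ok TB_l26683 _)
                 (CovZ.leaf K2_ok TB_l26684 _))
                (CovZ.leaf K2_ok TB_l26685 _))
               (CovZ.n1 (-15672, 15336) (by decide +kernel)
                (CovZ.leaf K2_ok TB_l26686 _)
                (CovZ.leaf K2_ok TB_l26687 _)))))
            (CovZ.n1 (-15552, 15264) (by decide +kernel)
             (CovZ.n2 (-15600, 15216) (by decide +kernel)
              (CovZ.n2 (-15600, 15264) (by decide +kernel)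
               (CovZ.n2 (-15576, 15240) (by decide +kernel)
                (CovZ.n2 (-15600, 15240) (by decide +kernel)
                 (CovZ.leaf K2_ok TB_l26688 _)
                 (CovZ.leaf K2_ok TB_l26689 _))
                (CovZ.n1 (-15576, 15264) (by decide +kernel)
                 (CovZ.leaf K2_ok TB_l26690 _)
                 (CovZ.leaf K2_ok TB_l26691 _)))
               (CovZ.n1 (-15624, 15240) (by decide +kernel)
                (CovZ.n2 (-15624, 15264) (by decide +kernel)
                 (CovZ.leaf K2_ok TB_l26692 _)
                 (CovZ.leaf K2_ok TB_l26693 _))
                (CovZ.n1 (-15600, 15240) (by decide +kernel)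
                 (CovZ.leaf K2_ok TB_l26694 _)
                 (CovZ.leaf K2_ok TB_l26695 _))))
              (CovZ.n1 (-15552, 15216) (by decide +kernel)
               (CovZ.subM 661055968790549212402510358686006078496036421658545896912938160319009971469265503314643360406599675846068357927969306444352 (by decide +kernel)
                (CovZ.n2 (-15576, 15192) (by decide +kernel)
                 (CovZ.n2 (-15576, 15216) (by decide +kernel)
                  (CovZ.n2 (-15564, 15204) (by decide +kernel)
                   (CovZ.leaf K2_ok TB_l44104 _)
                   (CovZ.leaf K2_ok TB_l44105 _))
                  (CovZ.n1 (-15588, 15204) (by decide +kernel)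
                   (CovZ.leaf K2_ok TB_l26696 _)
                   (CovZ.leaf K2_ok TB_l44106 _)))
                 (CovZ.n1 (-15552, 15192) (by decide +kernel)
                  (CovZ.n2 (-15564, 15180) (by decide +kernel)
                   (CovZ.n2 (-15564, 15192) (by decide +kernel)
                    (CovZ.leaf K2_ok TB_l44107 _)
                    (CovZ.leaf K2_ok TB_l44108 _))
                   (CovZ.leaf K2_ok TB_l44109 _))
                  (CovZ.n1 (-15564, 15204) (by decide +kernel)
                   (CovZ.leaf K2_ok TB_l44110 _)
                   (CovZ.leaf K2_ok TB_l44111 _)))))
               (CovZ.n1 (-15576, 15240) (by decide +kernel)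
                (CovZ.n2 (-15552, 15240) (by decide +kernel)
                 (CovZ.leaf K2_ok TB_l26697 _)
                 (CovZ.leaf K2_ok TB_l26698 _))
                (CovZ.n1 (-15576, 15216) (by decide +kernel)
                 (CovZ.leaf K2_ok TB_l26699 _)
                 (CovZ.n1 (-15564, 15228) (by decide +kernel)
                  (CovZ.leaf K2_ok TB_l44112 _)
                  (CovZ.leaf K2_ok TB_l26700 _))))))
             (CovZ.n1 (-15600, 15312) (by decide +kernel)
              (CovZ.n2 (-15552, 15312) (by decide +kernel)
               (CovZ.n2 (-15576, 15288) (by decide +kernel)
                (CovZ.n2 (-15576, 15312) (by decide +kernel)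
                 (CovZ.leaf K2_ok TB_l26701 _)
                 (CovZ.leaf K2_ok TB_l26702 _))
                (CovZ.n1 (-15552, 15288) (by decide +kernel)
                 (CovZ.leaf K2_ok TB_l26703 _)
                 (CovZ.leaf K2_ok TB_l26704 _)))
               (CovZ.n1 (-15576, 15336) (by decide +kernel)
                (CovZ.leaf K2_ok TB_l26705 _)
                (CovZ.n1 (-15576, 15312) (by decide +kernel)
                 (CovZ.leaf K2_ok TB_l26706 _)
                 (CovZ.leaf K2_ok TB_l26707 _))))
              (CovZ.n1 (-15600, 15264) (by decide +kernel)
               (CovZ.n2 (-15624, 15288) (by decide +kernel)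
                (CovZ.n2 (-15600, 15288) (by decide +kernel)
                 (CovZ.leaf K2_ok TB_l26708 _)
                 (CovZ.leaf K2_ok TB_l26709 _))
                (CovZ.n1 (-15624, 15264) (by decide +kernel)
                 (CovZ.leaf K2_ok TB_l26710 _)
                 (CovZ.leaf K2_ok TB_l26711 _)))
               (CovZ.n1 (-15576, 15288) (by decide +kernel)
                (CovZ.n2 (-15576, 15264) (by decide +kernel)
                 (CovZ.leaf K2_ok TB_l26712 _)
                 (CovZ.leaf K2_ok TB_l26713 _))
                (CovZ.n1 (-15600, 15288) (by decide +kernel)
                 (CovZ.leaf K2_ok TB_l26714 _)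
                 (CovZ.leaf K2_ok TB_l26715 _))))))))

theorem TB_u363 : CovZ TB_M (toL (selN TB_LN 661055968790553909487675906352461857457230004037947503872154230513022906329221619739675899056510431285362140123289735922256)) [0, 7, 6, 1] (-15744, 14976) (-15744, 15168) (-15936, 15168) :=
    (CovZ.n2 (-15840, 15072) (by decide +kernel)
            (CovZ.n2 (-15840, 15168) (by decide +kernel)
             (CovZ.n2 (-15792, 15120) (by decide +kernel)
              (CovZ.n2 (-15840, 15120) (by decide +kernel)
               (CovZ.n2 (-15816, 15144) (by decide +kernel)
                (CovZ.subM 4697085165547666520964112436282228815341627126916740895061570541088698815392298808688402448594526946134589968 (by decide +kernel)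
                 (CovZ.n2 (-15816, 15120) (by decide +kernel)
                  (CovZ.n2 (-15828, 15132) (by decide +kernel)
                   (CovZ.leaf K2_ok TB_l26766 _)
                   (CovZ.leaf K2_ok TB_l26767 _))
                  (CovZ.n1 (-15804, 15132) (by decide +kernel)
                   (CovZ.leaf K2_ok TB_l26768 _)
                   (CovZ.leaf K2_ok TB_l26769 _))))
                (CovZ.n1 (-15840, 15144) (by decide +kernel)
                 (CovZ.leaf K2_ok TB_l26770 _)
                 (CovZ.n1 (-15828, 15132) (by decide +kernel)
                  (CovZ.leaf K2_ok TB_l26771 _)
                  (CovZ.leaf K2_ok TB_l26772 _))))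
               (CovZ.subM 4697085165547666520964112436282228815341627126916740895061570541088698815226145309215287952952336017531076624 (by decide +kernel)
                (CovZ.n1 (-15816, 15096) (by decide +kernel)
                 (CovZ.n2 (-15840, 15096) (by decide +kernel)
                  (CovZ.n2 (-15828, 15108) (by decide +kernel)
                   (CovZ.leaf K2_ok TB_l44113 _)
                   (CovZ.leaf K2_ok TB_l44114 _))
                  (CovZ.n1 (-15828, 15084) (by decide +kernel)
                   (CovZ.leaf K2_ok TB_l44115 _)
                   (CovZ.leaf K2_ok TB_l44116 _)))
                 (CovZ.n1 (-15816, 15120) (by decide +kernel)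
                  (CovZ.n2 (-15804, 15108) (by decide +kernel)
                   (CovZ.leaf K2_ok TB_l44117 _)
                   (CovZ.n1 (-15804, 15120) (by decide +kernel)
                    (CovZ.leaf K2_ok TB_l44118 _)
                    (CovZ.leaf K2_ok TB_l44119 _)))
                  (CovZ.n1 (-15828, 15108) (by decide +kernel)
                   (CovZ.n2 (-15828, 15120) (by decide +kernel)
                    (CovZ.leaf K2_ok TB_l44120 _)
                    (CovZ.leaf K2_ok TB_l44121 _))
                   (CovZ.leaf K2_ok TB_l44122 _))))))
              (CovZ.n1 (-15792, 15168) (by decide +kernel)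
               (CovZ.n2 (-15768, 15144) (by decide +kernel)
                (CovZ.n2 (-15792, 15144) (by decide +kernel)
                 (CovZ.leaf K2_ok TB_l26773 _)
                 (CovZ.n1 (-15780, 15132) (by decide +kernel)
                  (CovZ.leaf K2_ok TB_l26774 _)
                  (CovZ.leaf K2_ok TB_l26775 _)))
                (CovZ.n1 (-15768, 15168) (by decide +kernel)
                 (CovZ.n2 (-15756, 15156) (by decide +kernel)
                  (CovZ.leaf K2_ok TB_l26776 _)
                  (CovZ.leaf K2_ok TB_l26777 _))
                 (CovZ.leaf K2_ok TB_l26778 _)))
               (CovZ.n1 (-15816, 15144) (by decide +kernel)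
                (CovZ.n2 (-15816, 15168) (by decide +kernel)
                 (CovZ.n2 (-15804, 15156) (by decide +kernel)
                  (CovZ.leaf K2_ok TB_l26779 _)
                  (CovZ.leaf K2_ok TB_l26780 _))
                 (CovZ.leaf K2_ok TB_l26781 _))
                (CovZ.subM 4697085165547666520964112436282228815341627126916740895061570541088698815392298808688402449170987732797751824 (by decide +kernel)
                 (CovZ.n1 (-15792, 15144) (by decide +kernel)
                  (CovZ.n2 (-15804, 15132) (by decide +kernel)
                   (CovZ.leaf K2_ok TB_l26782 _)
                   (CovZ.leaf K2_ok TB_l26783 _))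
                  (CovZ.n1 (-15804, 15156) (by decide +kernel)
                   (CovZ.leaf K2_ok TB_l26784 _)
                   (CovZ.leaf K2_ok TB_l26785 _)))))))
             (CovZ.n1 (-15888, 15120) (by decide +kernel)
              (CovZ.n2 (-15888, 15168) (by decide +kernel)
               (CovZ.n2 (-15864, 15144) (by decide +kernel)
                (CovZ.n2 (-15888, 15144) (by decide +kernel)
                 (CovZ.leaf K2_ok TB_l26786 _)
                 (CovZ.leaf K2_ok TB_l26787 _))
                (CovZ.n1 (-15864, 15168) (by decide +kernel)
                 (CovZ.leaf K2_ok TB_l26788 _)
                 (CovZ.leaf K2_ok TB_l26789 _)))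
               (CovZ.n1 (-15912, 15144) (by decide +kernel)
                (CovZ.n2 (-15912, 15168) (by decide +kernel)
                 (CovZ.leaf K2_ok TB_l26790 _)
                 (CovZ.leaf K2_ok TB_l26791 _))
                (CovZ.n1 (-15888, 15144) (by decide +kernel)
                 (CovZ.leaf K2_ok TB_l26792 _)
                 (CovZ.leaf K2_ok TB_l26793 _))))
              (CovZ.n1 (-15840, 15120) (by decide +kernel)
               (CovZ.subM 4697085165547666520964112436282228815341627126916740895061570541088698815226145308596317933309645871625797648 (by decide +kernel)
                (CovZ.n2 (-15864, 15096) (by decide +kernel)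
                 (CovZ.n2 (-15864, 15120) (by decide +kernel)
                  (CovZ.n2 (-15852, 15108) (by decide +kernel)
                   (CovZ.leaf K2_ok TB_l26794 _)
                   (CovZ.leaf K2_ok TB_l26795 _))
                  (CovZ.leaf K2_ok TB_l26796 _))
                 (CovZ.n1 (-15840, 15096) (by decide +kernel)
                  (CovZ.n2 (-15852, 15084) (by decide +kernel)
                   (CovZ.n2 (-15852, 15096) (by decide +kernel)
                    (CovZ.leaf K2_ok TB_l44123 _)
                    (CovZ.leaf K2_ok TB_l44124 _))
                   (CovZ.leaf K2_ok TB_l44125 _))
                  (CovZ.n1 (-15852, 15108) (by decide +kernel)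
                   (CovZ.leaf K2_ok TB_l44126 _)
                   (CovZ.leaf K2_ok TB_l44127 _)))))
               (CovZ.n1 (-15864, 15144) (by decide +kernel)
                (CovZ.n2 (-15840, 15144) (by decide +kernel)
                 (CovZ.leaf K2_ok TB_l26797 _)
                 (CovZ.leaf K2_ok TB_l26798 _))
                (CovZ.n1 (-15864, 15120) (by decide +kernel)
                 (CovZ.leaf K2_ok TB_l26799 _)
                 (CovZ.n1 (-15852, 15132) (by decide +kernel)
                  (CovZ.leaf K2_ok TB_l26800 _)
                  (CovZ.leaf K2_ok TB_l26801 _)))))))
            (CovZ.subM 65185151242703554760590262029100101153646988598034734239474893151358599319765293459526648336 (by decide +kernel)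
             (CovZ.n1 (-15744, 15072) (by decide +kernel)
              (CovZ.subM 618970019642690137449562112 (by decide +kernel)
               (CovZ.n2 (-15792, 15024) (by decide +kernel)
                (CovZ.n2 (-15792, 15072) (by decide +kernel)
                 (CovZ.n2 (-15768, 15048) (by decide +kernel)
                  (CovZ.badM (by decide +kernel))
                  (CovZ.n1 (-15768, 15072) (by decide +kernel)
                   (CovZ.n2 (-15756, 15060) (by decide +kernel)
                    (CovZ.badM (by decide +kernel))
                    (CovZ.n1 (-15756, 15072) (by decide +kernel)
                     (CovZ.badM (by decide +kernel))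
                     (CovZ.n1 (-15762, 15066) (by decide +kernel)
                      (CovZ.n2 (-15762, 15072) (by decide +kernel)
                       (CovZ.badM (by decide +kernel))
                       (CovZ.badM (by decide +kernel)))
                      (CovZ.badM (by decide +kernel)))))
                   (CovZ.badM (by decide +kernel))))
                 (CovZ.badM (by decide +kernel)))
                (CovZ.n1 (-15744, 15024) (by decide +kernel)
                 (CovZ.badM (by decide +kernel))
                 (CovZ.n1 (-15768, 15048) (by decide +kernel)
                  (CovZ.badM (by decide +kernel))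
                  (CovZ.badM (by decide +kernel))))))
              (CovZ.n1 (-15792, 15120) (by decide +kernel)
               (CovZ.n2 (-15744, 15120) (by decide +kernel)
                (CovZ.n2 (-15768, 15096) (by decide +kernel)
                 (CovZ.n2 (-15768, 15120) (by decide +kernel)
                  (CovZ.n2 (-15756, 15108) (by decide +kernel)
                   (CovZ.leaf K2_ok TB_l44128 _)
                   (CovZ.n1 (-15756, 15120) (by decide +kernel)
                    (CovZ.leaf K2_ok TB_l44129 _)
                    (CovZ.leaf K2_ok TB_l44130 _)))
                  (CovZ.n1 (-15780, 15108) (by decide +kernel)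
                   (CovZ.n2 (-15780, 15120) (by decide +kernel)
                    (CovZ.leaf K2_ok TB_l44131 _)
                    (CovZ.leaf K2_ok TB_l44132 _))
                   (CovZ.leaf K2_ok TB_l44133 _)))
                 (CovZ.subM 65185151242703554760590262029100101153646988598023583866709474320507676299383090616289198096 (by decide +kernel)
                  (CovZ.n1 (-15744, 15096) (by decide +kernel)
                   (CovZ.n2 (-15756, 15084) (by decide +kernel)
                    (CovZ.n2 (-15756, 15096) (by decide +kernel)
                     (CovZ.leaf K2_ok TB_l44134 _)
                     (CovZ.leaf K2_ok TB_l44135 _))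
                    (CovZ.n1 (-15744, 15084) (by decide +kernel)
                     (CovZ.badM (by decide +kernel))
                     (CovZ.leaf K2_ok TB_l44138 _)))
                   (CovZ.n1 (-15756, 15108) (by decide +kernel)
                    (CovZ.leaf K2_ok TB_l44139 _)
                    (CovZ.n1 (-15756, 15096) (by decide +kernel)
                     (CovZ.leaf K2_ok TB_l44140 _)
                     (CovZ.leaf K2_ok TB_l44141 _))))))
                (CovZ.n1 (-15768, 15144) (by decide +kernel)
                 (CovZ.n2 (-15744, 15144) (by decide +kernel)
                  (CovZ.n2 (-15756, 15132) (by decide +kernel)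
                   (CovZ.leaf K2_ok TB_l26802 _)
                   (CovZ.leaf K2_ok TB_l44142 _))
                  (CovZ.leaf K2_ok TB_l26803 _))
                 (CovZ.n1 (-15768, 15120) (by decide +kernel)
                  (CovZ.n2 (-15780, 15132) (by decide +kernel)
                   (CovZ.leaf K2_ok TB_l44143 _)
                   (CovZ.leaf K2_ok TB_l44144 _))
                  (CovZ.n1 (-15756, 15132) (by decide +kernel)
                   (CovZ.leaf K2_ok TB_l44145 _)
                   (CovZ.leaf K2_ok TB_l44146 _)))))
               (CovZ.n1 (-15792, 15072) (by decide +kernel)
                (CovZ.n2 (-15816, 15096) (by decide +kernel)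
                 (CovZ.n2 (-15792, 15096) (by decide +kernel)
                  (CovZ.n2 (-15804, 15084) (by decide +kernel)
                   (CovZ.leaf K2_ok TB_l44147 _)
                   (CovZ.n1 (-15792, 15084) (by decide +kernel)
                    (CovZ.badM (by decide +kernel))
                    (CovZ.leaf K2_ok TB_l44148 _)))
                  (CovZ.n1 (-15804, 15108) (by decide +kernel)
                   (CovZ.leaf K2_ok TB_l44149 _)
                   (CovZ.n1 (-15804, 15096) (by decide +kernel)
                    (CovZ.leaf K2_ok TB_l44150 _)
                    (CovZ.leaf K2_ok TB_l44151 _))))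
                 (CovZ.subM 65185151242703554760590262029100101153646988597309960020356494379340220481901818835263029264 (by decide +kernel)
                  (CovZ.n1 (-15816, 15072) (by decide +kernel)
                   (CovZ.n2 (-15828, 15084) (by decide +kernel)
                    (CovZ.n2 (-15816, 15084) (by decide +kernel)
                     (CovZ.badM (by decide +kernel))
                     (CovZ.leaf K2_ok TB_l44152 _))
                    (CovZ.badM (by decide +kernel)))
                   (CovZ.n1 (-15804, 15084) (by decide +kernel)
                    (CovZ.badM (by decide +kernel))
                    (CovZ.leaf K2_ok TB_l44153 _)))))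
                (CovZ.n1 (-15768, 15096) (by decide +kernel)
                 (CovZ.subM 65185151242703554760590262029100101153646988597309960020356494379959190501544438603968413712 (by decide +kernel)
                  (CovZ.n2 (-15768, 15072) (by decide +kernel)
                   (CovZ.n2 (-15780, 15084) (by decide +kernel)
                    (CovZ.n2 (-15768, 15084) (by decide +kernel)
                     (CovZ.leaf K2_ok TB_l44154 _)
                     (CovZ.leaf K2_ok TB_l44155 _))
                    (CovZ.badM (by decide +kernel)))
                   (CovZ.n1 (-15756, 15084) (by decide +kernel)
                    (CovZ.n2 (-15756, 15072) (by decide +kernel)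
                     (CovZ.n2 (-15762, 15078) (by decide +kernel)
                      (CovZ.leaf K2_ok TB_l44156 _)
                      (CovZ.leaf K2_ok TB_l44157 _))
                     (CovZ.badM (by decide +kernel)))
                    (CovZ.n1 (-15768, 15084) (by decide +kernel)
                     (CovZ.leaf K2_ok TB_l44159 _)
                     (CovZ.n1 (-15762, 15078) (by decide +kernel)
                      (CovZ.leaf K2_ok TB_l44160 _)
                      (CovZ.leaf K2_ok TB_l44161 _))))))
                 (CovZ.n1 (-15792, 15096) (by decide +kernel)
                  (CovZ.n2 (-15780, 15108) (by decide +kernel)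
                   (CovZ.leaf K2_ok TB_l44162 _)
                   (CovZ.leaf K2_ok TB_l44163 _))
                  (CovZ.n1 (-15780, 15084) (by decide +kernel)
                   (CovZ.leaf K2_ok TB_l44164 _)
                   (CovZ.n1 (-15780, 15096) (by decide +kernel)
                    (CovZ.leaf K2_ok TB_l44165 _)
                    (CovZ.leaf K2_ok TB_l44166 _))))))))))

theorem TB_u364 : CovZ TB_M (toL (selN TB_LN 661055968790553909487675906352461857457230004037947503872154230513022906329221619739675899056510431285362140123289735922256)) [0, 7, 6, 1] (-15744, 15168) (-15744, 15360) (-15936, 15168) :=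
    (CovZ.n1 (-15840, 15264) (by decide +kernel)
            (CovZ.n2 (-15744, 15264) (by decide +kernel)
             (CovZ.n2 (-15792, 15216) (by decide +kernel)
              (CovZ.n2 (-15792, 15264) (by decide +kernel)
               (CovZ.n2 (-15768, 15240) (by decide +kernel)
                (CovZ.leaf K2_ok TB_l26804 _)
                (CovZ.n1 (-15768, 15264) (by decide +kernel)
                 (CovZ.leaf K2_ok TB_l26805 _)
                 (CovZ.leaf K2_ok TB_l26806 _)))
               (CovZ.n1 (-15816, 15240) (by decide +kernel)
                (CovZ.n2 (-15816, 15264) (by decide +kernel)
                 (CovZ.leaf K2_ok TB_l26807 _)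
                 (CovZ.leaf K2_ok TB_l26808 _))
                (CovZ.leaf K2_ok TB_l26809 _)))
              (CovZ.n1 (-15744, 15216) (by decide +kernel)
               (CovZ.n2 (-15768, 15192) (by decide +kernel)
                (CovZ.n2 (-15768, 15216) (by decide +kernel)
                 (CovZ.leaf K2_ok TB_l26810 _)
                 (CovZ.leaf K2_ok TB_l26811 _))
                (CovZ.n1 (-15744, 15192) (by decide +kernel)
                 (CovZ.leaf K2_ok TB_l26812 _)
                 (CovZ.leaf K2_ok TB_l26813 _)))
               (CovZ.n1 (-15768, 15240) (by decide +kernel)
                (CovZ.leaf K2_ok TB_l26814 _)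
                (CovZ.n1 (-15768, 15216) (by decide +kernel)
                 (CovZ.leaf K2_ok TB_l26815 _)
                 (CovZ.leaf K2_ok TB_l26816 _)))))
             (CovZ.n1 (-15792, 15312) (by decide +kernel)
              (CovZ.n2 (-15744, 15312) (by decide +kernel)
               (CovZ.n2 (-15768, 15288) (by decide +kernel)
                (CovZ.leaf K2_ok TB_l26817 _)
                (CovZ.leaf K2_ok TB_l26818 _))
               (CovZ.n1 (-15768, 15336) (by decide +kernel)
                (CovZ.leaf K2_ok TB_l26819 _)
                (CovZ.leaf K2_ok TB_l26820 _)))
              (CovZ.n1 (-15792, 15264) (by decide +kernel)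
               (CovZ.n2 (-15816, 15288) (by decide +kernel)
                (CovZ.leaf K2_ok TB_l26821 _)
                (CovZ.leaf K2_ok TB_l26822 _))
               (CovZ.n1 (-15768, 15288) (by decide +kernel)
                (CovZ.n2 (-15768, 15264) (by decide +kernel)
                 (CovZ.leaf K2_ok TB_l26823 _)
                 (CovZ.leaf K2_ok TB_l26824 _))
                (CovZ.leaf K2_ok TB_l26825 _)))))
            (CovZ.n1 (-15840, 15168) (by decide +kernel)
             (CovZ.n2 (-15888, 15216) (by decide +kernel)
              (CovZ.n2 (-15840, 15216) (by decide +kernel)
               (CovZ.n2 (-15864, 15192) (by decide +kernel)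
                (CovZ.n2 (-15864, 15216) (by decide +kernel)
                 (CovZ.leaf K2_ok TB_l26826 _)
                 (CovZ.leaf K2_ok TB_l26827 _))
                (CovZ.leaf K2_ok TB_l26828 _))
               (CovZ.n1 (-15864, 15240) (by decide +kernel)
                (CovZ.leaf K2_ok TB_l26829 _)
                (CovZ.n1 (-15864, 15216) (by decide +kernel)
                 (CovZ.leaf K2_ok TB_l26830 _)
                 (CovZ.leaf K2_ok TB_l26831 _))))
              (CovZ.n1 (-15888, 15168) (by decide +kernel)
               (CovZ.n2 (-15912, 15192) (by decide +kernel)
                (CovZ.leaf K2_ok TB_l26832 _)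
                (CovZ.n1 (-15912, 15168) (by decide +kernel)
                 (CovZ.leaf K2_ok TB_l26833 _)
                 (CovZ.leaf K2_ok TB_l26834 _)))
               (CovZ.n1 (-15864, 15192) (by decide +kernel)
                (CovZ.n2 (-15864, 15168) (by decide +kernel)
                 (CovZ.leaf K2_ok TB_l26835 _)
                 (CovZ.leaf K2_ok TB_l26836 _))
                (CovZ.leaf K2_ok TB_l26837 _))))
             (CovZ.n1 (-15792, 15216) (by decide +kernel)
              (CovZ.n2 (-15792, 15168) (by decide +kernel)
               (CovZ.n2 (-15816, 15192) (by decide +kernel)
                (CovZ.n2 (-15792, 15192) (by decide +kernel)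
                 (CovZ.leaf K2_ok TB_l26838 _)
                 (CovZ.leaf K2_ok TB_l26839 _))
                (CovZ.n1 (-15816, 15168) (by decide +kernel)
                 (CovZ.leaf K2_ok TB_l26840 _)
                 (CovZ.leaf K2_ok TB_l26841 _)))
               (CovZ.n1 (-15768, 15192) (by decide +kernel)
                (CovZ.n2 (-15768, 15168) (by decide +kernel)
                 (CovZ.leaf K2_ok TB_l26842 _)
                 (CovZ.leaf K2_ok TB_l26843 _))
                (CovZ.leaf K2_ok TB_l26844 _)))
              (CovZ.n1 (-15840, 15216) (by decide +kernel)
               (CovZ.n2 (-15816, 15240) (by decide +kernel)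
                (CovZ.n2 (-15816, 15216) (by decide +kernel)
                 (CovZ.leaf K2_ok TB_l26845 _)
                 (CovZ.leaf K2_ok TB_l26846 _))
                (CovZ.leaf K2_ok TB_l26847 _))
               (CovZ.n1 (-15816, 15192) (by decide +kernel)
                (CovZ.leaf K2_ok TB_l26848 _)
                (CovZ.n1 (-15816, 15216) (by decide +kernel)
                 (CovZ.leaf K2_ok TB_l26849 _)
                 (CovZ.leaf K2_ok TB_l26850 _)))))))

theorem TB_u365 : CovZ TB_M (toL (selN TB_LN 661055968792958817092436311578211860153203136073861661357282515107967231341731559556664859155450503911686235779032533861200)) [0, 7, 6, 1] (-15360, 15360) (-15744, 15360) (-15744, 14976) :=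
    (CovZ.n2 (-15552, 15168) (by decide +kernel)
         (CovZ.subM 661055968790553909487675906352461857457230004037947503872154230513022906329221619739675904248807289820189768653786065142352 (by decide +kernel)
          (CovZ.n2 (-15744, 15168) (by decide +kernel)
           (CovZ.n2 (-15648, 15264) (by decide +kernel)
            (CovZ.n2 (-15648, 15168) (by decide +kernel)
             (CovZ.n2 (-15696, 15216) (by decide +kernel)
              (CovZ.n2 (-15648, 15216) (by decide +kernel)
               (CovZ.n2 (-15672, 15192) (by decide +kernel)
                (CovZ.n2 (-15672, 15216) (by decide +kernel)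
                 (CovZ.leaf K2_ok TB_l26538 _)
                 (CovZ.leaf K2_ok TB_l26539 _))
                (CovZ.n1 (-15648, 15192) (by decide +kernel)
                 (CovZ.leaf K2_ok TB_l26540 _)
                 (CovZ.leaf K2_ok TB_l26541 _)))
               (CovZ.n1 (-15672, 15240) (by decide +kernel)
                (CovZ.n2 (-15648, 15240) (by decide +kernel)
                 (CovZ.leaf K2_ok TB_l26542 _)
                 (CovZ.leaf K2_ok TB_l26543 _))
                (CovZ.n1 (-15672, 15216) (by decide +kernel)
                 (CovZ.leaf K2_ok TB_l26544 _)
                 (CovZ.leaf K2_ok TB_l26545 _))))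
              (CovZ.n1 (-15696, 15168) (by decide +kernel)
               (CovZ.n2 (-15720, 15192) (by decide +kernel)
                (CovZ.n2 (-15696, 15192) (by decide +kernel)
                 (CovZ.leaf K2_ok TB_l26546 _)
                 (CovZ.leaf K2_ok TB_l26547 _))
                (CovZ.n1 (-15720, 15168) (by decide +kernel)
                 (CovZ.leaf K2_ok TB_l26548 _)
                 (CovZ.leaf K2_ok TB_l26549 _)))
               (CovZ.n1 (-15672, 15192) (by decide +kernel)
                (CovZ.subM 661055968790248598951915308032836224979647386519041809546677895375559438224909380559428685333539463858336368474185397174864 (by decide +kernel)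
                 (CovZ.n2 (-15672, 15168) (by decide +kernel)
                  (CovZ.n2 (-15684, 15180) (by decide +kernel)
                   (CovZ.leaf K2_ok TB_l26550 _)
                   (CovZ.leaf K2_ok TB_l26551 _))
                  (CovZ.n1 (-15660, 15180) (by decide +kernel)
                   (CovZ.leaf K2_ok TB_l26552 _)
                   (CovZ.leaf K2_ok TB_l26553 _))))
                (CovZ.n1 (-15696, 15192) (by decide +kernel)
                 (CovZ.leaf K2_ok TB_l26554 _)
                 (CovZ.n1 (-15684, 15180) (by decide +kernel)
                  (CovZ.leaf K2_ok TB_l26555 _)
                  (CovZ.leaf K2_ok TB_l26556 _))))))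
             (CovZ.n1 (-15600, 15216) (by decide +kernel)
              (CovZ.n2 (-15600, 15168) (by decide +kernel)
               (CovZ.n2 (-15624, 15192) (by decide +kernel)
                (CovZ.n2 (-15600, 15192) (by decide +kernel)
                 (CovZ.n2 (-15612, 15180) (by decide +kernel)
                  (CovZ.leaf K2_ok TB_l26557 _)
                  (CovZ.leaf K2_ok TB_l43918 _))
                 (CovZ.n1 (-15612, 15204) (by decide +kernel)
                  (CovZ.leaf K2_ok TB_l26558 _)
                  (CovZ.leaf K2_ok TB_l26559 _)))
                (CovZ.subM 661055968790248598951915308032836224979647386519041809546677895375559438224909380559428690525836322393163997004673136460368 (by decide +kernel)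
                 (CovZ.n1 (-15624, 15168) (by decide +kernel)
                  (CovZ.n2 (-15636, 15180) (by decide +kernel)
                   (CovZ.leaf K2_ok TB_l26560 _)
                   (CovZ.leaf K2_ok TB_l26561 _))
                  (CovZ.n1 (-15612, 15180) (by decide +kernel)
                   (CovZ.leaf K2_ok TB_l43919 _)
                   (CovZ.leaf K2_ok TB_l26562 _)))))
               (CovZ.n1 (-15576, 15192) (by decide +kernel)
                (CovZ.subM 661055968790248598951915308032771039828404682964281219284648795274405791236312070599408334031437175132053394099008077562432 (by decide +kernel)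
                 (CovZ.n2 (-15576, 15168) (by decide +kernel)
                  (CovZ.n2 (-15588, 15180) (by decide +kernel)
                   (CovZ.leaf K2_ok TB_l43920 _)
                   (CovZ.leaf K2_ok TB_l43921 _))
                  (CovZ.n1 (-15564, 15180) (by decide +kernel)
                   (CovZ.leaf K2_ok TB_l43922 _)
                   (CovZ.leaf K2_ok TB_l43923 _))))
                (CovZ.n1 (-15600, 15192) (by decide +kernel)
                 (CovZ.n2 (-15588, 15204) (by decide +kernel)
                  (CovZ.leaf K2_ok TB_l43924 _)
                  (CovZ.leaf K2_ok TB_l26563 _))
                 (CovZ.n1 (-15588, 15180) (by decide +kernel)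
                  (CovZ.leaf K2_ok TB_l43925 _)
                  (CovZ.leaf K2_ok TB_l43926 _)))))
              (CovZ.n1 (-15648, 15216) (by decide +kernel)
               (CovZ.n2 (-15624, 15240) (by decide +kernel)
                (CovZ.n2 (-15624, 15216) (by decide +kernel)
                 (CovZ.leaf K2_ok TB_l26564 _)
                 (CovZ.leaf K2_ok TB_l26565 _))
                (CovZ.n1 (-15648, 15240) (by decide +kernel)
                 (CovZ.leaf K2_ok TB_l26566 _)
                 (CovZ.leaf K2_ok TB_l26567 _)))
               (CovZ.n1 (-15624, 15192) (by decide +kernel)
                (CovZ.n2 (-15648, 15192) (by decide +kernel)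
                 (CovZ.leaf K2_ok TB_l26568 _)
                 (CovZ.n1 (-15636, 15180) (by decide +kernel)
                  (CovZ.leaf K2_ok TB_l26569 _)
                  (CovZ.leaf K2_ok TB_l26570 _)))
                (CovZ.n1 (-15624, 15216) (by decide +kernel)
                 (CovZ.leaf K2_ok TB_l26571 _)
                 (CovZ.leaf K2_ok TB_l26572 _))))))
            (CovZ.n1 (-15744, 15264) (by decide +kernel)
             (CovZ.n2 (-15696, 15312) (by decide +kernel)
              (CovZ.n2 (-15696, 15264) (by decide +kernel)
               (CovZ.n2 (-15720, 15288) (by decide +kernel)
                (CovZ.leaf K2_ok TB_l26573 _)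
                (CovZ.n1 (-15720, 15264) (by decide +kernel)
                 (CovZ.leaf K2_ok TB_l26574 _)
                 (CovZ.leaf K2_ok TB_l26575 _)))
               (CovZ.n1 (-15672, 15288) (by decide +kernel)
                (CovZ.n2 (-15672, 15264) (by decide +kernel)
                 (CovZ.leaf K2_ok TB_l26576 _)
                 (CovZ.leaf K2_ok TB_l26577 _))
                (CovZ.leaf K2_ok TB_l26578 _)))
              (CovZ.n1 (-15744, 15312) (by decide +kernel)
               (CovZ.n2 (-15720, 15336) (by decide +kernel)
                (CovZ.leaf K2_ok TB_l26579 _)
                (CovZ.leaf K2_ok TB_l26580 _))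
               (CovZ.n1 (-15720, 15288) (by decide +kernel)
                (CovZ.leaf K2_ok TB_l26581 _)
                (CovZ.n1 (-15720, 15312) (by decide +kernel)
                 (CovZ.leaf K2_ok TB_l26582 _)
                 (CovZ.leaf K2_ok TB_l26583 _)))))
             (CovZ.n1 (-15696, 15216) (by decide +kernel)
              (CovZ.n2 (-15744, 15216) (by decide +kernel)
               (CovZ.n2 (-15720, 15240) (by decide +kernel)
                (CovZ.n2 (-15720, 15216) (by decide +kernel)
                 (CovZ.leaf K2_ok TB_l26584 _)
                 (CovZ.leaf K2_ok TB_l26585 _))
                (CovZ.leaf K2_ok TB_l26586 _))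
               (CovZ.n1 (-15720, 15192) (by decide +kernel)
                (CovZ.n2 (-15744, 15192) (by decide +kernel)
                 (CovZ.leaf K2_ok TB_l26587 _)
                 (CovZ.leaf K2_ok TB_l26588 _))
                (CovZ.n1 (-15720, 15216) (by decide +kernel)
                 (CovZ.leaf K2_ok TB_l26589 _)
                 (CovZ.leaf K2_ok TB_l26590 _))))
              (CovZ.n1 (-15696, 15264) (by decide +kernel)
               (CovZ.n2 (-15672, 15240) (by decide +kernel)
                (CovZ.n2 (-15696, 15240) (by decide +kernel)
                 (CovZ.leaf K2_ok TB_l26591 _)
                 (CovZ.leaf K2_ok TB_l26592 _))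
                (CovZ.n1 (-15672, 15264) (by decide +kernel)
                 (CovZ.leaf K2_ok TB_l26593 _)
                 (CovZ.leaf K2_ok TB_l26594 _)))
               (CovZ.n1 (-15720, 15240) (by decide +kernel)
                (CovZ.n2 (-15720, 15264) (by decide +kernel)
                 (CovZ.leaf K2_ok TB_l26595 _)
                 (CovZ.leaf K2_ok TB_l26596 _))
                (CovZ.n1 (-15696, 15240) (by decide +kernel)
                 (CovZ.leaf K2_ok TB_l26597 _)
                 (CovZ.leaf K2_ok TB_l26598 _)))))))
           (CovZ.subM 65185151242703554760590262029100101153646988598034734239480086121656515518640693500979446288 (by decide +kernel)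
            (CovZ.n1 (-15648, 15072) (by decide +kernel)
             TB_u359
             TB_u360))))
         (CovZ.n1 (-15552, 15360) (by decide +kernel)
          TB_u361
          TB_u362))

theorem TB_u366 : CovZ TB_M (toL (selN TB_LN 661055968792958817092436311578211860153203136073861661357282515107967231341731559556664859155450503911686235779032533861200)) [0, 7, 6, 1] (-15744, 15360) (-16128, 15360) (-15744, 14976) :=
    (CovZ.n1 (-15936, 15168) (by decide +kernel)
         (CovZ.n2 (-15936, 15360) (by decide +kernel)
          (CovZ.subM 661055968790553909487675906352461857457230004037947503872154230513022909322376972993365075537656968688309764378639584068176 (by decide +kernel)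
           (CovZ.n2 (-15840, 15264) (by decide +kernel)
            (CovZ.n2 (-15936, 15264) (by decide +kernel)
             (CovZ.n2 (-15888, 15312) (by decide +kernel)
              (CovZ.n2 (-15888, 15264) (by decide +kernel)
               (CovZ.n2 (-15912, 15288) (by decide +kernel)
                (CovZ.leaf K2_ok TB_l26716 _)
                (CovZ.leaf K2_ok TB_l26717 _))
               (CovZ.n1 (-15864, 15288) (by decide +kernel)
                (CovZ.n2 (-15864, 15264) (by decide +kernel)
                 (CovZ.leaf K2_ok TB_l26718 _)
                 (CovZ.leaf K2_ok TB_l26719 _))
                (CovZ.leaf K2_ok TB_l26720 _)))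
              (CovZ.n1 (-15936, 15312) (by decide +kernel)
               (CovZ.leaf K2_ok TB_l26721 _)
               (CovZ.n1 (-15912, 15288) (by decide +kernel)
                (CovZ.leaf K2_ok TB_l26722 _)
                (CovZ.leaf K2_ok TB_l26723 _))))
             (CovZ.n1 (-15888, 15216) (by decide +kernel)
              (CovZ.n2 (-15936, 15216) (by decide +kernel)
               (CovZ.n2 (-15912, 15240) (by decide +kernel)
                (CovZ.leaf K2_ok TB_l26724 _)
                (CovZ.leaf K2_ok TB_l26725 _))
               (CovZ.n1 (-15912, 15192) (by decide +kernel)
                (CovZ.leaf K2_ok TB_l26726 _)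
                (CovZ.n1 (-15912, 15216) (by decide +kernel)
                 (CovZ.leaf K2_ok TB_l26727 _)
                 (CovZ.leaf K2_ok TB_l26728 _))))
              (CovZ.n1 (-15888, 15264) (by decide +kernel)
               (CovZ.n2 (-15864, 15240) (by decide +kernel)
                (CovZ.leaf K2_ok TB_l26729 _)
                (CovZ.leaf K2_ok TB_l26730 _))
               (CovZ.n1 (-15912, 15240) (by decide +kernel)
                (CovZ.leaf K2_ok TB_l26731 _)
                (CovZ.leaf K2_ok TB_l26732 _)))))
            (CovZ.n1 (-15840, 15360) (by decide +kernel)
             (CovZ.n2 (-15792, 15312) (by decide +kernel)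
              (CovZ.n2 (-15840, 15312) (by decide +kernel)
               (CovZ.leaf K2_ok TB_l26733 _)
               (CovZ.n1 (-15816, 15288) (by decide +kernel)
                (CovZ.leaf K2_ok TB_l26734 _)
                (CovZ.leaf K2_ok TB_l26735 _)))
              (CovZ.n1 (-15792, 15360) (by decide +kernel)
               (CovZ.n2 (-15768, 15336) (by decide +kernel)
                (CovZ.leaf K2_ok TB_l26736 _)
                (CovZ.leaf K2_ok TB_l26737 _))
               (CovZ.leaf K2_ok TB_l26738 _)))
             (CovZ.n1 (-15888, 15312) (by decide +kernel)
              (CovZ.n2 (-15888, 15360) (by decide +kernel)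
               (CovZ.leaf K2_ok TB_l26739 _)
               (CovZ.leaf K2_ok TB_l26740 _))
              (CovZ.n1 (-15840, 15312) (by decide +kernel)
               (CovZ.n2 (-15864, 15288) (by decide +kernel)
                (CovZ.leaf K2_ok TB_l26741 _)
                (CovZ.leaf K2_ok TB_l26742 _))
               (CovZ.n1 (-15864, 15336) (by decide +kernel)
                (CovZ.leaf K2_ok TB_l26743 _)
                (CovZ.leaf K2_ok TB_l26744 _)))))))
          (CovZ.subM 305310535760598319690817628855675275107315277531285230185907592362709231088134795670908155646941738402540814928 (by decide +kernel)
           (CovZ.n1 (-16032, 15264) (by decide +kernel)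
            (CovZ.n2 (-16032, 15360) (by decide +kernel)
             (CovZ.n2 (-15984, 15312) (by decide +kernel)
              (CovZ.n2 (-16032, 15312) (by decide +kernel)
               (CovZ.leaf K2_ok TB_l26745 _)
               (CovZ.leaf K2_ok TB_l26746 _))
              (CovZ.n1 (-15984, 15360) (by decide +kernel)
               (CovZ.leaf K2_ok TB_l26747 _)
               (CovZ.leaf K2_ok TB_l26748 _)))
             (CovZ.n1 (-16080, 15312) (by decide +kernel)
              (CovZ.n2 (-16080, 15360) (by decide +kernel)
               (CovZ.leaf K2_ok TB_l26749 _)
               (CovZ.leaf K2_ok TB_l26750 _))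
              (CovZ.n1 (-16032, 15312) (by decide +kernel)
               (CovZ.leaf K2_ok TB_l26751 _)
               (CovZ.leaf K2_ok TB_l26752 _))))
            (CovZ.n1 (-15936, 15264) (by decide +kernel)
             (CovZ.n2 (-15984, 15216) (by decide +kernel)
              (CovZ.n2 (-15984, 15264) (by decide +kernel)
               (CovZ.n2 (-15960, 15240) (by decide +kernel)
                (CovZ.leaf K2_ok TB_l26753 _)
                (CovZ.leaf K2_ok TB_l26754 _))
               (CovZ.n1 (-16008, 15240) (by decide +kernel)
                (CovZ.leaf K2_ok TB_l26755 _)
                (CovZ.leaf K2_ok TB_l26756 _)))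
              (CovZ.n1 (-15936, 15216) (by decide +kernel)
               (CovZ.n2 (-15960, 15192) (by decide +kernel)
                (CovZ.n2 (-15960, 15216) (by decide +kernel)
                 (CovZ.leaf K2_ok TB_l26757 _)
                 (CovZ.leaf K2_ok TB_l26758 _))
                (CovZ.leaf K2_ok TB_l26759 _))
               (CovZ.n1 (-15960, 15240) (by decide +kernel)
                (CovZ.leaf K2_ok TB_l26760 _)
                (CovZ.leaf K2_ok TB_l26761 _))))
             (CovZ.n1 (-15984, 15312) (by decide +kernel)
              (CovZ.n2 (-15936, 15312) (by decide +kernel)
               (CovZ.leaf K2_ok TB_l26762 _)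
               (CovZ.leaf K2_ok TB_l26763 _))
              (CovZ.n1 (-15984, 15264) (by decide +kernel)
               (CovZ.leaf K2_ok TB_l26764 _)
               (CovZ.leaf K2_ok TB_l26765 _)))))))
         (CovZ.subM 661055968790553909487675906352461857457230004037947503872154230513022906329221619739675899056510431285362140123289735922256 (by decide +kernel)
          (CovZ.n1 (-15744, 15168) (by decide +kernel)
           TB_u363
           TB_u364)))

theorem TB_u367 : CovZ TB_M (toL (selN TB_LN 661055968792958817092436311578211860153203136073861661357282515107967231341731559556664859155450503911686235779032533861200)) [0, 7, 6, 1] (-16128, 15360) (-16512, 15360) (-16512, 14976) :=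
    (CovZ.subM 305310535760598319690817628855675275114383531878685449718544186043540575657080121851056235501880409840980984400 (by decide +kernel)
         (CovZ.n2 (-16320, 15168) (by decide +kernel)
          (CovZ.n2 (-16512, 15168) (by decide +kernel)
           (CovZ.n2 (-16416, 15264) (by decide +kernel)
            (CovZ.n2 (-16416, 15168) (by decide +kernel)
             (CovZ.n2 (-16464, 15216) (by decide +kernel)
              (CovZ.n2 (-16416, 15216) (by decide +kernel)
               (CovZ.leaf K2_ok TB_l26851 _)
               (CovZ.leaf K2_ok TB_l26852 _))
              (CovZ.n1 (-16464, 15168) (by decide +kernel)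
               (CovZ.leaf K2_ok TB_l26853 _)
               (CovZ.leaf K2_ok TB_l26854 _)))
             (CovZ.n1 (-16368, 15216) (by decide +kernel)
              (CovZ.n2 (-16368, 15168) (by decide +kernel)
               (CovZ.leaf K2_ok TB_l26855 _)
               (CovZ.leaf K2_ok TB_l26856 _))
              (CovZ.n1 (-16416, 15216) (by decide +kernel)
               (CovZ.leaf K2_ok TB_l26857 _)
               (CovZ.leaf K2_ok TB_l26858 _))))
            (CovZ.n1 (-16512, 15264) (by decide +kernel)
             (CovZ.n2 (-16464, 15312) (by decide +kernel)
              (CovZ.n2 (-16464, 15264) (by decide +kernel)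
               (CovZ.leaf K2_ok TB_l26859 _)
               (CovZ.leaf K2_ok TB_l26860 _))
              (CovZ.leaf K2_ok TB_l26861 _))
             (CovZ.n1 (-16464, 15216) (by decide +kernel)
              (CovZ.n2 (-16512, 15216) (by decide +kernel)
               (CovZ.leaf K2_ok TB_l26862 _)
               (CovZ.leaf K2_ok TB_l26863 _))
              (CovZ.n1 (-16464, 15264) (by decide +kernel)
               (CovZ.leaf K2_ok TB_l26864 _)
               (CovZ.leaf K2_ok TB_l26865 _)))))
           (CovZ.subM 305310535760598319690817628855675275107315280901278563579734573540019233985541297414073216752755068825321472512 (by decide +kernel)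
            (CovZ.n1 (-16416, 15072) (by decide +kernel)
             (CovZ.n2 (-16512, 15072) (by decide +kernel)
              (CovZ.n2 (-16464, 15120) (by decide +kernel)
               (CovZ.n2 (-16464, 15072) (by decide +kernel)
                (CovZ.n2 (-16488, 15096) (by decide +kernel)
                 (CovZ.leaf K2_ok TB_l26866 _)
                 (CovZ.n1 (-16488, 15072) (by decide +kernel)
                  (CovZ.leaf K2_ok TB_l26867 _)
                  (CovZ.leaf K2_ok TB_l26868 _)))
                (CovZ.n1 (-16440, 15096) (by decide +kernel)
                 (CovZ.n2 (-16440, 15072) (by decide +kernel)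
                  (CovZ.leaf K2_ok TB_l26869 _)
                  (CovZ.leaf K2_ok TB_l26870 _))
                 (CovZ.leaf K2_ok TB_l26871 _)))
               (CovZ.n1 (-16512, 15120) (by decide +kernel)
                (CovZ.n2 (-16488, 15144) (by decide +kernel)
                 (CovZ.n2 (-16488, 15120) (by decide +kernel)
                  (CovZ.leaf K2_ok TB_l26872 _)
                  (CovZ.leaf K2_ok TB_l26873 _))
                 (CovZ.leaf K2_ok TB_l26874 _))
                (CovZ.n1 (-16488, 15096) (by decide +kernel)
                 (CovZ.leaf K2_ok TB_l26875 _)
                 (CovZ.leaf K2_ok TB_l26876 _))))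
              (CovZ.subM 305310535760598319625632477612971720346724799822611791827139253273210995032231972151468932791865420375776165888 (by decide +kernel)
               (CovZ.n1 (-16464, 15024) (by decide +kernel)
                (CovZ.n2 (-16512, 15024) (by decide +kernel)
                 (CovZ.n2 (-16488, 15048) (by decide +kernel)
                  (CovZ.n2 (-16488, 15024) (by decide +kernel)
                   (CovZ.n2 (-16500, 15036) (by decide +kernel)
                    (CovZ.leaf K2_ok TB_l26877 _)
                    (CovZ.leaf K2_ok TB_l44167 _))
                   (CovZ.leaf K2_ok TB_l26878 _))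
                  (CovZ.n1 (-16512, 15048) (by decide +kernel)
                   (CovZ.leaf K2_ok TB_l26879 _)
                   (CovZ.leaf K2_ok TB_l26880 _)))
                 (CovZ.n1 (-16488, 15000) (by decide +kernel)
                  (CovZ.n2 (-16512, 15000) (by decide +kernel)
                   (CovZ.n2 (-16500, 15012) (by decide +kernel)
                    (CovZ.n2 (-16500, 15000) (by decide +kernel)
                     (CovZ.leaf K2_ok TB_l44168 _)
                     (CovZ.leaf K2_ok TB_l44169 _))
                    (CovZ.leaf K2_ok TB_l44170 _))
                   (CovZ.n1 (-16500, 14988) (by decide +kernel)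
                    (CovZ.leaf K2_ok TB_l44171 _)
                    (CovZ.n1 (-16500, 15000) (by decide +kernel)
                     (CovZ.leaf K2_ok TB_l44172 _)
                     (CovZ.leaf K2_ok TB_l44173 _))))
                  (CovZ.n1 (-16488, 15024) (by decide +kernel)
                   (CovZ.n2 (-16476, 15012) (by decide +kernel)
                    (CovZ.leaf K2_ok TB_l44174 _)
                    (CovZ.n1 (-16476, 15024) (by decide +kernel)
                     (CovZ.leaf K2_ok TB_l44175 _)
                     (CovZ.leaf K2_ok TB_l44176 _)))
                   (CovZ.n1 (-16500, 15012) (by decide +kernel)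
                    (CovZ.leaf K2_ok TB_l44177 _)
                    (CovZ.leaf K2_ok TB_l44178 _)))))
                (CovZ.n1 (-16464, 15072) (by decide +kernel)
                 (CovZ.n2 (-16440, 15048) (by decide +kernel)
                  (CovZ.n2 (-16464, 15048) (by decide +kernel)
                   (CovZ.leaf K2_ok TB_l26881 _)
                   (CovZ.n1 (-16452, 15036) (by decide +kernel)
                    (CovZ.leaf K2_ok TB_l26882 _)
                    (CovZ.leaf K2_ok TB_l26883 _)))
                  (CovZ.n1 (-16440, 15072) (by decide +kernel)
                   (CovZ.leaf K2_ok TB_l26884 _)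
                   (CovZ.leaf K2_ok TB_l26885 _)))
                 (CovZ.n1 (-16488, 15048) (by decide +kernel)
                  (CovZ.n2 (-16488, 15072) (by decide +kernel)
                   (CovZ.leaf K2_ok TB_l26886 _)
                   (CovZ.leaf K2_ok TB_l26887 _))
                  (CovZ.n1 (-16464, 15048) (by decide +kernel)
                   (CovZ.leaf K2_ok TB_l26888 _)
                   (CovZ.leaf K2_ok TB_l26889 _)))))))
             (CovZ.n1 (-16416, 15168) (by decide +kernel)
              (CovZ.n2 (-16368, 15120) (by decide +kernel)
               (CovZ.n2 (-16416, 15120) (by decide +kernel)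
                (CovZ.n2 (-16392, 15144) (by decide +kernel)
                 (CovZ.leaf K2_ok TB_l26890 _)
                 (CovZ.leaf K2_ok TB_l26891 _))
                (CovZ.n1 (-16392, 15096) (by decide +kernel)
                 (CovZ.leaf K2_ok TB_l26892 _)
                 (CovZ.n1 (-16392, 15120) (by decide +kernel)
                  (CovZ.leaf K2_ok TB_l26893 _)
                  (CovZ.leaf K2_ok TB_l26894 _))))
               (CovZ.n1 (-16368, 15168) (by decide +kernel)
                (CovZ.n2 (-16344, 15144) (by decide +kernel)
                 (CovZ.leaf K2_ok TB_l26895 _)
                 (CovZ.leaf K2_ok TB_l26896 _))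
                (CovZ.n1 (-16392, 15144) (by decide +kernel)
                 (CovZ.leaf K2_ok TB_l26897 _)
                 (CovZ.leaf K2_ok TB_l26898 _))))
              (CovZ.n1 (-16464, 15120) (by decide +kernel)
               (CovZ.n2 (-16464, 15168) (by decide +kernel)
                (CovZ.n2 (-16440, 15144) (by decide +kernel)
                 (CovZ.leaf K2_ok TB_l26899 _)
                 (CovZ.leaf K2_ok TB_l26900 _))
                (CovZ.n1 (-16488, 15144) (by decide +kernel)
                 (CovZ.leaf K2_ok TB_l26901 _)
                 (CovZ.leaf K2_ok TB_l26902 _)))
               (CovZ.n1 (-16416, 15120) (by decide +kernel)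
                (CovZ.n2 (-16440, 15096) (by decide +kernel)
                 (CovZ.leaf K2_ok TB_l26903 _)
                 (CovZ.leaf K2_ok TB_l26904 _))
                (CovZ.n1 (-16440, 15144) (by decide +kernel)
                 (CovZ.leaf K2_ok TB_l26905 _)
                 (CovZ.leaf K2_ok TB_l26906 _))))))))
          (CovZ.n1 (-16320, 15360) (by decide +kernel)
           (CovZ.n2 (-16224, 15264) (by decide +kernel)
            (CovZ.n2 (-16320, 15264) (by decide +kernel)
             (CovZ.n2 (-16272, 15312) (by decide +kernel)
              (CovZ.n2 (-16272, 15264) (by decide +kernel)
               (CovZ.leaf K2_ok TB_l26907 _)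
               (CovZ.leaf K2_ok TB_l26908 _))
              (CovZ.leaf K2_ok TB_l26909 _))
             (CovZ.n1 (-16272, 15216) (by decide +kernel)
              (CovZ.n2 (-16320, 15216) (by decide +kernel)
               (CovZ.leaf K2_ok TB_l26910 _)
               (CovZ.n1 (-16296, 15192) (by decide +kernel)
                (CovZ.leaf K2_ok TB_l26911 _)
                (CovZ.leaf K2_ok TB_l26912 _)))
              (CovZ.n1 (-16272, 15264) (by decide +kernel)
               (CovZ.leaf K2_ok TB_l26913 _)
               (CovZ.leaf K2_ok TB_l26914 _))))
            (CovZ.n1 (-16224, 15360) (by decide +kernel)
             (CovZ.n2 (-16176, 15312) (by decide +kernel)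
              (CovZ.n2 (-16224, 15312) (by decide +kernel)
               (CovZ.leaf K2_ok TB_l26915 _)
               (CovZ.leaf K2_ok TB_l26916 _))
              (CovZ.n1 (-16176, 15360) (by decide +kernel)
               (CovZ.leaf K2_ok TB_l26917 _)
               (CovZ.leaf K2_ok TB_l26918 _)))
             (CovZ.n1 (-16272, 15312) (by decide +kernel)
              (CovZ.n2 (-16272, 15360) (by decide +kernel)
               (CovZ.leaf K2_ok TB_l26919 _)
               (CovZ.leaf K2_ok TB_l26920 _))
              (CovZ.n1 (-16224, 15312) (by decide +kernel)
               (CovZ.leaf K2_ok TB_l26921 _)
               (CovZ.leaf K2_ok TB_l26922 _)))))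
           (CovZ.n1 (-16416, 15264) (by decide +kernel)
            (CovZ.n2 (-16416, 15360) (by decide +kernel)
             (CovZ.n2 (-16368, 15312) (by decide +kernel)
              (CovZ.leaf K2_ok TB_l26923 _)
              (CovZ.n1 (-16368, 15360) (by decide +kernel)
               (CovZ.leaf K2_ok TB_l26924 _)
               (CovZ.leaf K2_ok TB_l26925 _)))
             (CovZ.n1 (-16464, 15312) (by decide +kernel)
              (CovZ.leaf K2_ok TB_l26926 _)
              (CovZ.leaf K2_ok TB_l26927 _)))
            (CovZ.n1 (-16320, 15264) (by decide +kernel)
             (CovZ.n2 (-16368, 15216) (by decide +kernel)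
              (CovZ.n2 (-16368, 15264) (by decide +kernel)
               (CovZ.leaf K2_ok TB_l26928 _)
               (CovZ.leaf K2_ok TB_l26929 _))
              (CovZ.n1 (-16320, 15216) (by decide +kernel)
               (CovZ.leaf K2_ok TB_l26930 _)
               (CovZ.leaf K2_ok TB_l26931 _)))
             (CovZ.n1 (-16368, 15312) (by decide +kernel)
              (CovZ.leaf K2_ok TB_l26932 _)
              (CovZ.n1 (-16368, 15264) (by decide +kernel)
               (CovZ.leaf K2_ok TB_l26933 _)
               (CovZ.leaf K2_ok TB_l26934 _))))))))

end Pool.Agent.TET
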