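import Pool.Agent.Helper38_TET.TB_M
import Pool.Agent.Helper38_TET.TB_L
import Pool.Agent.Helper38_TET.TB_174
import Pool.Agent.Helper38_TET.TB_175
import Pool.Agent.Helper38_TET.TB_179
import Pool.Agent.Helper38_TET.TB_180
import Pool.Agent.Helper38_TET.TB_181
import Pool.Agent.Helper38_TET.TB_182
import Pool.Agent.Helper38_TET.TB_183
import Pool.Agent.Helper38_TET.TB_184
import Pool.Agent.Helper38_TET.TB_185
import Pool.Agent.Helper38_TET.TB_289
import Pool.Agent.Helper38_TET.TB_294
import Pool.Agent.Helper38_TET.TB_295
import Pool.Agent.Helper38_TET.TB_331
import Pool.Agent.Helper38_TET.TB_U23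
import Pool.Agent.Helper38_TET.TB_U24

/-!
# MP_c7c9bf_co: certificates, family TB
-/

set_option autoImplicit false
set_option maxRecDepth 100000

namespace Pool.Agent.TET

theorem TB_u368 : CovZ TB_M (toL (selN TB_LN 661055968792958817092436311578211860153203136073861661357282515107967231341731559556664859155450503911686235779032533861200)) [0, 7, 6, 1] (-16512, 15360) (-16896, 15360) (-16512, 14976) :=
    (CovZ.subM 2710218140521003545180016062453378437847885135589550157910325380433044815295119025904253212532199358554949452352 (by decide +kernel)
         (CovZ.n1 (-16704, 15168) (by decide +kernel)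
          (CovZ.n2 (-16704, 15360) (by decide +kernel)
           (CovZ.n2 (-16608, 15264) (by decide +kernel)
            (CovZ.n2 (-16704, 15264) (by decide +kernel)
             (CovZ.n2 (-16656, 15312) (by decide +kernel)
              (CovZ.n2 (-16656, 15264) (by decide +kernel)
               (CovZ.leaf K2_ok TB_l26935 _)
               (CovZ.leaf K2_ok TB_l26936 _))
              (CovZ.leaf K2_ok TB_l26937 _))
             (CovZ.n1 (-16656, 15216) (by decide +kernel)
              (CovZ.n2 (-16704, 15216) (by decide +kernel)
               (CovZ.leaf K2_ok TB_l26938 _)
               (CovZ.leaf K2_ok TB_l26939 _))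
              (CovZ.n1 (-16656, 15264) (by decide +kernel)
               (CovZ.leaf K2_ok TB_l26940 _)
               (CovZ.leaf K2_ok TB_l26941 _))))
            (CovZ.n1 (-16608, 15360) (by decide +kernel)
             (CovZ.n2 (-16560, 15312) (by decide +kernel)
              (CovZ.leaf K2_ok TB_l26942 _)
              (CovZ.leaf K2_ok TB_l26943 _))
             (CovZ.n1 (-16656, 15312) (by decide +kernel)
              (CovZ.leaf K2_ok TB_l26944 _)
              (CovZ.leaf K2_ok TB_l26945 _))))
           (CovZ.n1 (-16800, 15264) (by decide +kernel)
            (CovZ.n2 (-16800, 15360) (by decide +kernel)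
             (CovZ.n2 (-16752, 15312) (by decide +kernel)
              (CovZ.leaf K2_ok TB_l26946 _)
              (CovZ.leaf K2_ok TB_l26947 _))
             (CovZ.n1 (-16848, 15312) (by decide +kernel)
              (CovZ.leaf K2_ok TB_l26948 _)
              (CovZ.leaf K2_ok TB_l26949 _)))
            (CovZ.n1 (-16704, 15264) (by decide +kernel)
             (CovZ.n2 (-16752, 15216) (by decide +kernel)
              (CovZ.n2 (-16752, 15264) (by decide +kernel)
               (CovZ.leaf K2_ok TB_l26950 _)
               (CovZ.leaf K2_ok TB_l26951 _))
              (CovZ.leaf K2_ok TB_l26952 _))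
             (CovZ.n1 (-16752, 15312) (by decide +kernel)
              (CovZ.leaf K2_ok TB_l26953 _)
              (CovZ.n1 (-16752, 15264) (by decide +kernel)
               (CovZ.leaf K2_ok TB_l26954 _)
               (CovZ.leaf K2_ok TB_l26955 _))))))
          (CovZ.n1 (-16512, 15168) (by decide +kernel)
           (CovZ.n2 (-16608, 15072) (by decide +kernel)
            (CovZ.n2 (-16608, 15168) (by decide +kernel)
             (CovZ.n2 (-16560, 15120) (by decide +kernel)
              (CovZ.subM 305310535760598319690817628855675275107316143619571912400208002884501321715435399720702222244458768038346490368 (by decide +kernel)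
               (CovZ.n2 (-16608, 15120) (by decide +kernel)
                (CovZ.n2 (-16584, 15144) (by decide +kernel)
                 (CovZ.leaf K2_ok TB_l26956 _)
                 (CovZ.leaf K2_ok TB_l26957 _))
                (CovZ.n1 (-16584, 15096) (by decide +kernel)
                 (CovZ.leaf K2_ok TB_l26958 _)
                 (CovZ.leaf K2_ok TB_l26959 _))))
              (CovZ.n1 (-16560, 15168) (by decide +kernel)
               (CovZ.n2 (-16536, 15144) (by decide +kernel)
                (CovZ.leaf K2_ok TB_l26960 _)
                (CovZ.leaf K2_ok TB_l26961 _))
               (CovZ.n1 (-16584, 15144) (by decide +kernel)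
                (CovZ.leaf K2_ok TB_l26962 _)
                (CovZ.leaf K2_ok TB_l26963 _))))
             (CovZ.subM 305310535760598319690817628855675275114383531878685449718541192887472995778745335308204698076945192843516969472 (by decide +kernel)
              (CovZ.n1 (-16656, 15120) (by decide +kernel)
               (CovZ.n2 (-16656, 15168) (by decide +kernel)
                (CovZ.leaf K2_ok TB_l26964 _)
                (CovZ.leaf K2_ok TB_l26965 _))
               (CovZ.n1 (-16608, 15120) (by decide +kernel)
                (CovZ.n2 (-16632, 15096) (by decide +kernel)
                 (CovZ.leaf K2_ok TB_l26966 _)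
                 (CovZ.leaf K2_ok TB_l26967 _))
                (CovZ.leaf K2_ok TB_l26968 _)))))
            (CovZ.subM 305310535760598319690817628855675275107315280901278563579734573540018537087253843332100043761559048564024410624 (by decide +kernel)
             (CovZ.n1 (-16512, 15072) (by decide +kernel)
              (CovZ.subM 305310535760598319625632477612971720346725015502185129032257610609331691189277361248624313153338757352077262848 (by decide +kernel)
               (CovZ.n2 (-16560, 15024) (by decide +kernel)
                (CovZ.n2 (-16560, 15072) (by decide +kernel)
                 (CovZ.n2 (-16536, 15048) (by decide +kernel)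
                  (CovZ.n2 (-16560, 15048) (by decide +kernel)
                   (CovZ.leaf K2_ok TB_l26969 _)
                   (CovZ.leaf K2_ok TB_l26970 _))
                  (CovZ.n1 (-16536, 15072) (by decide +kernel)
                   (CovZ.leaf K2_ok TB_l26971 _)
                   (CovZ.leaf K2_ok TB_l26972 _)))
                 (CovZ.n1 (-16584, 15048) (by decide +kernel)
                  (CovZ.n2 (-16584, 15072) (by decide +kernel)
                   (CovZ.leaf K2_ok TB_l26973 _)
                   (CovZ.leaf K2_ok TB_l26974 _))
                  (CovZ.n1 (-16560, 15048) (by decide +kernel)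
                   (CovZ.leaf K2_ok TB_l26975 _)
                   (CovZ.leaf K2_ok TB_l26976 _))))
                (CovZ.n1 (-16512, 15024) (by decide +kernel)
                 (CovZ.n2 (-16536, 15000) (by decide +kernel)
                  (CovZ.n2 (-16536, 15024) (by decide +kernel)
                   (CovZ.n2 (-16524, 15012) (by decide +kernel)
                    (CovZ.leaf K2_ok TB_l44179 _)
                    (CovZ.n1 (-16524, 15024) (by decide +kernel)
                     (CovZ.leaf K2_ok TB_l44180 _)
                     (CovZ.leaf K2_ok TB_l44181 _)))
                   (CovZ.n1 (-16548, 15012) (by decide +kernel)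
                    (CovZ.leaf K2_ok TB_l44182 _)
                    (CovZ.leaf K2_ok TB_l44183 _)))
                  (CovZ.subM 4697085165547666455778961223936580842637426822360181588946060250334468062654422959022314734905821713399939072 (by decide +kernel)
                   (CovZ.n1 (-16512, 15000) (by decide +kernel)
                    (CovZ.n2 (-16524, 14988) (by decide +kernel)
                     (CovZ.n2 (-16524, 15000) (by decide +kernel)
                      (CovZ.leaf K2_ok TB_l44184 _)
                      (CovZ.leaf K2_ok TB_l44185 _))
                     (CovZ.leaf K2_ok TB_l44186 _))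
                    (CovZ.n1 (-16524, 15012) (by decide +kernel)
                     (CovZ.leaf K2_ok TB_l44187 _)
                     (CovZ.n1 (-16524, 15000) (by decide +kernel)
                      (CovZ.leaf K2_ok TB_l44188 _)
                      (CovZ.leaf K2_ok TB_l44189 _))))))
                 (CovZ.n1 (-16536, 15048) (by decide +kernel)
                  (CovZ.n2 (-16512, 15048) (by decide +kernel)
                   (CovZ.leaf K2_ok TB_l26977 _)
                   (CovZ.leaf K2_ok TB_l26978 _))
                  (CovZ.n1 (-16536, 15024) (by decide +kernel)
                   (CovZ.n2 (-16548, 15036) (by decide +kernel)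
                    (CovZ.leaf K2_ok TB_l26979 _)
                    (CovZ.leaf K2_ok TB_l44190 _))
                   (CovZ.leaf K2_ok TB_l26980 _))))))
              (CovZ.n1 (-16560, 15120) (by decide +kernel)
               (CovZ.n2 (-16512, 15120) (by decide +kernel)
                (CovZ.n2 (-16536, 15096) (by decide +kernel)
                 (CovZ.leaf K2_ok TB_l26981 _)
                 (CovZ.leaf K2_ok TB_l26982 _))
                (CovZ.n1 (-16536, 15144) (by decide +kernel)
                 (CovZ.leaf K2_ok TB_l26983 _)
                 (CovZ.leaf K2_ok TB_l26984 _)))
               (CovZ.n1 (-16560, 15072) (by decide +kernel)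
                (CovZ.n2 (-16584, 15096) (by decide +kernel)
                 (CovZ.leaf K2_ok TB_l26985 _)
                 (CovZ.n1 (-16584, 15072) (by decide +kernel)
                  (CovZ.leaf K2_ok TB_l26986 _)
                  (CovZ.leaf K2_ok TB_l26987 _)))
                (CovZ.n1 (-16536, 15096) (by decide +kernel)
                 (CovZ.n2 (-16536, 15072) (by decide +kernel)
                  (CovZ.leaf K2_ok TB_l26988 _)
                  (CovZ.leaf K2_ok TB_l26989 _))
                 (CovZ.leaf K2_ok TB_l26990 _)))))))
           (CovZ.n1 (-16608, 15264) (by decide +kernel)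
            (CovZ.n2 (-16512, 15264) (by decide +kernel)
             (CovZ.n2 (-16560, 15216) (by decide +kernel)
              (CovZ.n2 (-16560, 15264) (by decide +kernel)
               (CovZ.leaf K2_ok TB_l26991 _)
               (CovZ.leaf K2_ok TB_l26992 _))
              (CovZ.n1 (-16512, 15216) (by decide +kernel)
               (CovZ.leaf K2_ok TB_l26993 _)
               (CovZ.leaf K2_ok TB_l26994 _)))
             (CovZ.n1 (-16560, 15312) (by decide +kernel)
              (CovZ.leaf K2_ok TB_l26995 _)
              (CovZ.n1 (-16560, 15264) (by decide +kernel)
               (CovZ.leaf K2_ok TB_l26996 _)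
               (CovZ.leaf K2_ok TB_l26997 _))))
            (CovZ.n1 (-16608, 15168) (by decide +kernel)
             (CovZ.n2 (-16656, 15216) (by decide +kernel)
              (CovZ.n2 (-16608, 15216) (by decide +kernel)
               (CovZ.leaf K2_ok TB_l26998 _)
               (CovZ.leaf K2_ok TB_l26999 _))
              (CovZ.n1 (-16656, 15168) (by decide +kernel)
               (CovZ.leaf K2_ok TB_l27000 _)
               (CovZ.leaf K2_ok TB_l27001 _)))
             (CovZ.n1 (-16560, 15216) (by decide +kernel)
              (CovZ.n2 (-16560, 15168) (by decide +kernel)
               (CovZ.leaf K2_ok TB_l27002 _)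
               (CovZ.leaf K2_ok TB_l27003 _))
              (CovZ.n1 (-16608, 15216) (by decide +kernel)
               (CovZ.leaf K2_ok TB_l27004 _)
               (CovZ.leaf K2_ok TB_l27005 _))))))))

theorem TB_u369 : CovZ TB_M (toL (selN TB_LN 305310535760598319690817628855675275107315280901278563579737566696086116965588629874932238371074589720282530384)) [0, 7, 6, 1] (-16512, 14976) (-16320, 14976) (-16320, 15168) :=
    (CovZ.subM 305310535760598319690817628855675275107315277531285230185904599206642348108087463209430163935183508687370191360 (by decide +kernel)
            (CovZ.n2 (-16416, 15072) (by decide +kernel)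
             (CovZ.n2 (-16320, 15072) (by decide +kernel)
              (CovZ.subM 305310535760598319625632477612971720346724793082625125039479304606457920175611757824156000147918320361170665472 (by decide +kernel)
               (CovZ.n2 (-16368, 15024) (by decide +kernel)
                (CovZ.n2 (-16368, 15072) (by decide +kernel)
                 (CovZ.n2 (-16344, 15048) (by decide +kernel)
                  (CovZ.n2 (-16368, 15048) (by decide +kernel)
                   (CovZ.leaf K2_ok TB_l27068 _)
                   (CovZ.n1 (-16356, 15036) (by decide +kernel)
                    (CovZ.leaf K2_ok TB_l27069 _)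
                    (CovZ.leaf K2_ok TB_l27070 _)))
                  (CovZ.n1 (-16344, 15072) (by decide +kernel)
                   (CovZ.leaf K2_ok TB_l27071 _)
                   (CovZ.leaf K2_ok TB_l27072 _)))
                 (CovZ.n1 (-16392, 15048) (by decide +kernel)
                  (CovZ.n2 (-16392, 15072) (by decide +kernel)
                   (CovZ.leaf K2_ok TB_l27073 _)
                   (CovZ.leaf K2_ok TB_l27074 _))
                  (CovZ.n1 (-16368, 15048) (by decide +kernel)
                   (CovZ.n2 (-16380, 15036) (by decide +kernel)
                    (CovZ.leaf K2_ok TB_l27075 _)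
                    (CovZ.leaf K2_ok TB_l27076 _))
                   (CovZ.leaf K2_ok TB_l27077 _))))
                (CovZ.n1 (-16320, 15024) (by decide +kernel)
                 (CovZ.subM 4697085165547666455778961193578674054754815970990035023308299320995556562955442441413483190047118668175900672 (by decide +kernel)
                  (CovZ.n2 (-16344, 15000) (by decide +kernel)
                   (CovZ.n2 (-16344, 15024) (by decide +kernel)
                    (CovZ.n2 (-16332, 15012) (by decide +kernel)
                     (CovZ.leaf K2_ok TB_l44224 _)
                     (CovZ.leaf K2_ok TB_l44225 _))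
                    (CovZ.n1 (-16356, 15012) (by decide +kernel)
                     (CovZ.leaf K2_ok TB_l44226 _)
                     (CovZ.leaf K2_ok TB_l44227 _)))
                   (CovZ.n1 (-16320, 15000) (by decide +kernel)
                    (CovZ.badM (by decide +kernel))
                    (CovZ.n1 (-16332, 15012) (by decide +kernel)
                     (CovZ.leaf K2_ok TB_l44228 _)
                     (CovZ.n1 (-16332, 15000) (by decide +kernel)
                      (CovZ.leaf K2_ok TB_l49685 _)
                      (CovZ.leaf K2_ok TB_l49686 _))))))
                 (CovZ.n1 (-16344, 15048) (by decide +kernel)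
                  (CovZ.n2 (-16320, 15048) (by decide +kernel)
                   (CovZ.n2 (-16332, 15036) (by decide +kernel)
                    (CovZ.leaf K2_ok TB_l27078 _)
                    (CovZ.leaf K2_ok TB_l27079 _))
                   (CovZ.leaf K2_ok TB_l27080 _))
                  (CovZ.subM 4697085165547666455778961193578674054754815970990035023308299320995556562955442441413483190047189036920078336 (by decide +kernel)
                   (CovZ.n1 (-16344, 15024) (by decide +kernel)
                    (CovZ.n2 (-16356, 15036) (by decide +kernel)
                     (CovZ.leaf K2_ok TB_l27081 _)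
                     (CovZ.leaf K2_ok TB_l44229 _))
                    (CovZ.n1 (-16332, 15036) (by decide +kernel)
                     (CovZ.leaf K2_ok TB_l44230 _)
                     (CovZ.leaf K2_ok TB_l27082 _))))))))
              (CovZ.n1 (-16368, 15120) (by decide +kernel)
               (CovZ.n2 (-16320, 15120) (by decide +kernel)
                (CovZ.n2 (-16344, 15096) (by decide +kernel)
                 (CovZ.n2 (-16344, 15120) (by decide +kernel)
                  (CovZ.leaf K2_ok TB_l27083 _)
                  (CovZ.leaf K2_ok TB_l27084 _))
                 (CovZ.n1 (-16320, 15096) (by decide +kernel)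
                  (CovZ.leaf K2_ok TB_l27085 _)
                  (CovZ.leaf K2_ok TB_l27086 _)))
                (CovZ.n1 (-16344, 15144) (by decide +kernel)
                 (CovZ.leaf K2_ok TB_l27087 _)
                 (CovZ.n1 (-16344, 15120) (by decide +kernel)
                  (CovZ.leaf K2_ok TB_l27088 _)
                  (CovZ.leaf K2_ok TB_l27089 _))))
               (CovZ.n1 (-16368, 15072) (by decide +kernel)
                (CovZ.n2 (-16392, 15096) (by decide +kernel)
                 (CovZ.leaf K2_ok TB_l27090 _)
                 (CovZ.n1 (-16392, 15072) (by decide +kernel)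
                  (CovZ.leaf K2_ok TB_l27091 _)
                  (CovZ.leaf K2_ok TB_l27092 _)))
                (CovZ.n1 (-16344, 15096) (by decide +kernel)
                 (CovZ.n2 (-16344, 15072) (by decide +kernel)
                  (CovZ.leaf K2_ok TB_l27093 _)
                  (CovZ.leaf K2_ok TB_l27094 _))
                 (CovZ.leaf K2_ok TB_l27095 _)))))
             (CovZ.subM 305310535760598319625632477612971720346724793082625125039479304606457920175611757824156000147918320361170665472 (by decide +kernel)
              (CovZ.n1 (-16416, 14976) (by decide +kernel)
               (CovZ.n2 (-16464, 15024) (by decide +kernel)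
                (CovZ.n2 (-16416, 15024) (by decide +kernel)
                 (CovZ.subM 4697085165547666455778961193582379401610410089243589294828577334046861202464742939462745832735371888324378624 (by decide +kernel)
                  (CovZ.n2 (-16440, 15000) (by decide +kernel)
                   (CovZ.n2 (-16440, 15024) (by decide +kernel)
                    (CovZ.n2 (-16428, 15012) (by decide +kernel)
                     (CovZ.leaf K2_ok TB_l44231 _)
                     (CovZ.leaf K2_ok TB_l44232 _))
                    (CovZ.n1 (-16452, 15012) (by decide +kernel)
                     (CovZ.leaf K2_ok TB_l44233 _)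
                     (CovZ.leaf K2_ok TB_l44234 _)))
                   (CovZ.n1 (-16416, 15000) (by decide +kernel)
                    (CovZ.n2 (-16428, 14988) (by decide +kernel)
                     (CovZ.n2 (-16428, 15000) (by decide +kernel)
                      (CovZ.leaf K2_ok TB_l49687 _)
                      (CovZ.leaf K2_ok TB_l44235 _))
                     (CovZ.n1 (-16416, 14988) (by decide +kernel)
                      (CovZ.badM (by decide +kernel))
                      (CovZ.leaf K2_ok TB_l49688 _)))
                    (CovZ.n1 (-16428, 15012) (by decide +kernel)
                     (CovZ.leaf K2_ok TB_l44236 _)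
                     (CovZ.n1 (-16428, 15000) (by decide +kernel)
                      (CovZ.leaf K2_ok TB_l44237 _)
                      (CovZ.leaf K2_ok TB_l44238 _))))))
                 (CovZ.n1 (-16440, 15048) (by decide +kernel)
                  (CovZ.n2 (-16416, 15048) (by decide +kernel)
                   (CovZ.n2 (-16428, 15036) (by decide +kernel)
                    (CovZ.leaf K2_ok TB_l27096 _)
                    (CovZ.leaf K2_ok TB_l27097 _))
                   (CovZ.leaf K2_ok TB_l27098 _))
                  (CovZ.n1 (-16440, 15024) (by decide +kernel)
                   (CovZ.n2 (-16452, 15036) (by decide +kernel)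
                    (CovZ.leaf K2_ok TB_l27099 _)
                    (CovZ.leaf K2_ok TB_l44239 _))
                   (CovZ.n1 (-16428, 15036) (by decide +kernel)
                    (CovZ.leaf K2_ok TB_l44240 _)
                    (CovZ.leaf K2_ok TB_l27100 _)))))
                (CovZ.subM 4697085165547666455778961193582379401610410089243589294828577334046861202464742939462745832735371888324378624 (by decide +kernel)
                 (CovZ.n1 (-16464, 14976) (by decide +kernel)
                  (CovZ.n2 (-16488, 15000) (by decide +kernel)
                   (CovZ.n2 (-16464, 15000) (by decide +kernel)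
                    (CovZ.n2 (-16476, 14988) (by decide +kernel)
                     (CovZ.n2 (-16476, 15000) (by decide +kernel)
                      (CovZ.leaf K2_ok TB_l44241 _)
                      (CovZ.leaf K2_ok TB_l44242 _))
                     (CovZ.n1 (-16464, 14988) (by decide +kernel)
                      (CovZ.badM (by decide +kernel))
                      (CovZ.leaf K2_ok TB_l44243 _)))
                    (CovZ.n1 (-16476, 15012) (by decide +kernel)
                     (CovZ.leaf K2_ok TB_l44244 _)
                     (CovZ.n1 (-16476, 15000) (by decide +kernel)
                      (CovZ.leaf K2_ok TB_l44245 _)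
                      (CovZ.leaf K2_ok TB_l44246 _))))
                   (CovZ.n1 (-16488, 14976) (by decide +kernel)
                    (CovZ.n2 (-16500, 14988) (by decide +kernel)
                     (CovZ.n2 (-16488, 14988) (by decide +kernel)
                      (CovZ.leaf K2_ok TB_l44247 _)
                      (CovZ.leaf K2_ok TB_l44248 _))
                     (CovZ.n1 (-16500, 14976) (by decide +kernel)
                      (CovZ.leaf K2_ok TB_l44249 _)
                      (CovZ.leaf K2_ok TB_l44250 _)))
                    (CovZ.n1 (-16476, 14988) (by decide +kernel)
                     (CovZ.badM (by decide +kernel))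
                     (CovZ.leaf K2_ok TB_l44251 _))))
                  (CovZ.n1 (-16440, 15000) (by decide +kernel)
                   (CovZ.n2 (-16440, 14976) (by decide +kernel)
                    (CovZ.n2 (-16452, 14988) (by decide +kernel)
                     (CovZ.n2 (-16440, 14988) (by decide +kernel)
                      (CovZ.badM (by decide +kernel))
                      (CovZ.leaf K2_ok TB_l44252 _))
                     (CovZ.badM (by decide +kernel)))
                    (CovZ.n1 (-16428, 14988) (by decide +kernel)
                     (CovZ.badM (by decide +kernel))
                     (CovZ.n1 (-16440, 14988) (by decide +kernel)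
                      (CovZ.leaf K2_ok TB_l44253 _)
                      (CovZ.badM (by decide +kernel)))))
                   (CovZ.n1 (-16464, 15000) (by decide +kernel)
                    (CovZ.n2 (-16452, 15012) (by decide +kernel)
                     (CovZ.n2 (-16452, 15000) (by decide +kernel)
                      (CovZ.leaf K2_ok TB_l44254 _)
                      (CovZ.leaf K2_ok TB_l44255 _))
                     (CovZ.leaf K2_ok TB_l44256 _))
                    (CovZ.n1 (-16452, 14988) (by decide +kernel)
                     (CovZ.n2 (-16464, 14988) (by decide +kernel)
                      (CovZ.leaf K2_ok TB_l44257 _)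
                      (CovZ.badM (by decide +kernel)))
                     (CovZ.n1 (-16452, 15000) (by decide +kernel)
                      (CovZ.leaf K2_ok TB_l44258 _)
                      (CovZ.leaf K2_ok TB_l44259 _))))))))
               (CovZ.n1 (-16368, 15024) (by decide +kernel)
                (CovZ.subM 4697085165547666455778961193578674054754815970990035023308299320995556562955442441413483190047118668175900672 (by decide +kernel)
                 (CovZ.n2 (-16368, 14976) (by decide +kernel)
                  (CovZ.n2 (-16392, 15000) (by decide +kernel)
                   (CovZ.n2 (-16368, 15000) (by decide +kernel)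
                    (CovZ.badM (by decide +kernel))
                    (CovZ.n1 (-16380, 15012) (by decide +kernel)
                     (CovZ.leaf K2_ok TB_l44260 _)
                     (CovZ.n1 (-16380, 15000) (by decide +kernel)
                      (CovZ.leaf K2_ok TB_l44261 _)
                      (CovZ.leaf K2_ok TB_l44262 _))))
                   (CovZ.badM (by decide +kernel)))
                  (CovZ.n1 (-16344, 15000) (by decide +kernel)
                   (CovZ.badM (by decide +kernel))
                   (CovZ.n1 (-16368, 15000) (by decide +kernel)
                    (CovZ.n2 (-16356, 15012) (by decide +kernel)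
                     (CovZ.n2 (-16356, 15000) (by decide +kernel)
                      (CovZ.n2 (-16362, 15006) (by decide +kernel)
                       (CovZ.leaf K2_ok TB_l49689 _)
                       (CovZ.badM (by decide +kernel)))
                      (CovZ.leaf K2_ok TB_l49690 _))
                     (CovZ.leaf K2_ok TB_l44263 _))
                    (CovZ.badM (by decide +kernel))))))
                (CovZ.n1 (-16416, 15024) (by decide +kernel)
                 (CovZ.n2 (-16392, 15048) (by decide +kernel)
                  (CovZ.subM 4697085165547666455778961193582379401610410089243589294828577334046861202464742939462745832735442257068556288 (by decide +kernel)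
                   (CovZ.n2 (-16392, 15024) (by decide +kernel)
                    (CovZ.n2 (-16404, 15036) (by decide +kernel)
                     (CovZ.leaf K2_ok TB_l27101 _)
                     (CovZ.n1 (-16404, 15024) (by decide +kernel)
                      (CovZ.leaf K2_ok TB_l44264 _)
                      (CovZ.leaf K2_ok TB_l44265 _)))
                    (CovZ.n1 (-16380, 15036) (by decide +kernel)
                     (CovZ.leaf K2_ok TB_l44266 _)
                     (CovZ.leaf K2_ok TB_l27102 _))))
                  (CovZ.n1 (-16416, 15048) (by decide +kernel)
                   (CovZ.leaf K2_ok TB_l27103 _)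
                   (CovZ.n1 (-16404, 15036) (by decide +kernel)
                    (CovZ.leaf K2_ok TB_l27104 _)
                    (CovZ.leaf K2_ok TB_l27105 _))))
                 (CovZ.subM 4697085165547666455778961193578674054754815970990035023308299320995556562955442441413483190047118668175900672 (by decide +kernel)
                  (CovZ.n1 (-16392, 15000) (by decide +kernel)
                   (CovZ.n2 (-16416, 15000) (by decide +kernel)
                    (CovZ.n2 (-16404, 15012) (by decide +kernel)
                     (CovZ.n2 (-16404, 15000) (by decide +kernel)
                      (CovZ.leaf K2_ok TB_l44267 _)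
                      (CovZ.leaf K2_ok TB_l44268 _))
                     (CovZ.leaf K2_ok TB_l44269 _))
                    (CovZ.n1 (-16404, 14988) (by decide +kernel)
                     (CovZ.n2 (-16416, 14988) (by decide +kernel)
                      (CovZ.leaf K2_ok TB_l49691 _)
                      (CovZ.badM (by decide +kernel)))
                     (CovZ.n1 (-16404, 15000) (by decide +kernel)
                      (CovZ.badM (by decide +kernel))
                      (CovZ.leaf K2_ok TB_l49692 _))))
                   (CovZ.n1 (-16392, 15024) (by decide +kernel)
                    (CovZ.n2 (-16380, 15012) (by decide +kernel)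
                     (CovZ.leaf K2_ok TB_l44270 _)
                     (CovZ.n1 (-16380, 15024) (by decide +kernel)
                      (CovZ.leaf K2_ok TB_l44271 _)
                      (CovZ.leaf K2_ok TB_l44272 _)))
                    (CovZ.n1 (-16404, 15012) (by decide +kernel)
                     (CovZ.leaf K2_ok TB_l44273 _)
                     (CovZ.leaf K2_ok TB_l44274 _)))))))))))

theorem TB_u370 : CovZ TB_M (toL (selN TB_LN 305310535760598319690817628855675275107315280901278563579737566696086116965588629874932238371074589720282530384)) [0, 7, 6, 1] (-16320, 14976) (-16128, 14976) (-16320, 15168) :=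
    (CovZ.n1 (-16224, 15072) (by decide +kernel)
            (CovZ.subM 4697085165547666455778961193578674054754815970990035023311292477063130996772357630260242742302411837346545664 (by decide +kernel)
             (CovZ.n2 (-16224, 14976) (by decide +kernel)
              (CovZ.subM 4697085165547666455778961193578674054754815970990035023308299320996253461242896543193696809809293696603127808 (by decide +kernel)
               (CovZ.n2 (-16272, 15024) (by decide +kernel)
                (CovZ.n2 (-16224, 15024) (by decide +kernel)
                 (CovZ.subM 4697085165547666455778961193578674054751365097816639741414581943064418050229216886927397996769537406064001024 (by decide +kernel)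
                  (CovZ.n2 (-16248, 15000) (by decide +kernel)
                   (CovZ.n2 (-16248, 15024) (by decide +kernel)
                    (CovZ.n2 (-16236, 15012) (by decide +kernel)
                     (CovZ.leaf K2_ok TB_l44275 _)
                     (CovZ.leaf K2_ok TB_l44276 _))
                    (CovZ.n1 (-16260, 15012) (by decide +kernel)
                     (CovZ.n2 (-16260, 15024) (by decide +kernel)
                      (CovZ.leaf K2_ok TB_l44277 _)
                      (CovZ.leaf K2_ok TB_l44278 _))
                     (CovZ.n1 (-16248, 15012) (by decide +kernel)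
                      (CovZ.badM (by decide +kernel))
                      (CovZ.leaf K2_ok TB_l44279 _))))
                   (CovZ.n1 (-16224, 15000) (by decide +kernel)
                    (CovZ.badM (by decide +kernel))
                    (CovZ.n1 (-16236, 15012) (by decide +kernel)
                     (CovZ.n2 (-16224, 15012) (by decide +kernel)
                      (CovZ.badM (by decide +kernel))
                      (CovZ.leaf K2_ok TB_l44280 _))
                     (CovZ.badM (by decide +kernel))))))
                 (CovZ.n1 (-16248, 15048) (by decide +kernel)
                  (CovZ.n2 (-16224, 15048) (by decide +kernel)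
                   (CovZ.n2 (-16236, 15036) (by decide +kernel)
                    (CovZ.leaf K2_ok TB_l44281 _)
                    (CovZ.leaf K2_ok TB_l44282 _))
                   (CovZ.n1 (-16236, 15060) (by decide +kernel)
                    (CovZ.leaf K2_ok TB_l27106 _)
                    (CovZ.leaf K2_ok TB_l27107 _)))
                  (CovZ.subM 4697085165547666455778961193578674054754815970990035023308299320995556562955442441413483190047118668175900672 (by decide +kernel)
                   (CovZ.n1 (-16248, 15024) (by decide +kernel)
                    (CovZ.n2 (-16260, 15036) (by decide +kernel)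
                     (CovZ.leaf K2_ok TB_l44283 _)
                     (CovZ.n1 (-16260, 15024) (by decide +kernel)
                      (CovZ.leaf K2_ok TB_l44284 _)
                      (CovZ.leaf K2_ok TB_l44285 _)))
                    (CovZ.n1 (-16236, 15036) (by decide +kernel)
                     (CovZ.leaf K2_ok TB_l44286 _)
                     (CovZ.leaf K2_ok TB_l44287 _))))))
                (CovZ.subM 4697085165547666455778961193578674054751365097816639741414581943064418050229216886927397996769537406064001024 (by decide +kernel)
                 (CovZ.n1 (-16272, 14976) (by decide +kernel)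
                  (CovZ.n2 (-16296, 15000) (by decide +kernel)
                   (CovZ.n2 (-16272, 15000) (by decide +kernel)
                    (CovZ.badM (by decide +kernel))
                    (CovZ.n1 (-16284, 15012) (by decide +kernel)
                     (CovZ.n2 (-16272, 15012) (by decide +kernel)
                      (CovZ.badM (by decide +kernel))
                      (CovZ.leaf K2_ok TB_l44288 _))
                     (CovZ.badM (by decide +kernel))))
                   (CovZ.badM (by decide +kernel)))
                  (CovZ.n1 (-16248, 15000) (by decide +kernel)
                   (CovZ.badM (by decide +kernel))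
                   (CovZ.n1 (-16272, 15000) (by decide +kernel)
                    (CovZ.n2 (-16260, 15012) (by decide +kernel)
                     (CovZ.badM (by decide +kernel))
                     (CovZ.n1 (-16272, 15012) (by decide +kernel)
                      (CovZ.leaf K2_ok TB_l44289 _)
                      (CovZ.badM (by decide +kernel))))
                    (CovZ.badM (by decide +kernel))))))))
              (CovZ.n1 (-16176, 15024) (by decide +kernel)
               (CovZ.subM 2993155353253689176481146537402947768370538192437248 (by decide +kernel)
                (CovZ.n2 (-16176, 14976) (by decide +kernel)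
                 (CovZ.n2 (-16200, 15000) (by decide +kernel)
                  (CovZ.n2 (-16176, 15000) (by decide +kernel)
                   (CovZ.badM (by decide +kernel))
                   (CovZ.n1 (-16188, 15012) (by decide +kernel)
                    (CovZ.n2 (-16176, 15012) (by decide +kernel)
                     (CovZ.badM (by decide +kernel))
                     (CovZ.leaf K2_ok TB_l44290 _))
                    (CovZ.badM (by decide +kernel))))
                  (CovZ.badM (by decide +kernel)))
                 (CovZ.n1 (-16152, 15000) (by decide +kernel)
                  (CovZ.badM (by decide +kernel))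
                  (CovZ.n1 (-16176, 15000) (by decide +kernel)
                   (CovZ.n2 (-16164, 15012) (by decide +kernel)
                    (CovZ.badM (by decide +kernel))
                    (CovZ.n1 (-16176, 15012) (by decide +kernel)
                     (CovZ.leaf K2_ok TB_l44291 _)
                     (CovZ.badM (by decide +kernel))))
                   (CovZ.badM (by decide +kernel))))))
               (CovZ.subM 4697085165547666455778961193578674054754815970990035023308299320996253461242896543193696809809293696603127808 (by decide +kernel)
                (CovZ.n1 (-16224, 15024) (by decide +kernel)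
                 (CovZ.n2 (-16200, 15048) (by decide +kernel)
                  (CovZ.subM 4697085165547666455778961193578674054754815970990035023308299320995556562955442441413483190047118668175900672 (by decide +kernel)
                   (CovZ.n2 (-16200, 15024) (by decide +kernel)
                    (CovZ.n2 (-16212, 15036) (by decide +kernel)
                     (CovZ.leaf K2_ok TB_l44292 _)
                     (CovZ.n1 (-16212, 15024) (by decide +kernel)
                      (CovZ.leaf K2_ok TB_l44293 _)
                      (CovZ.leaf K2_ok TB_l44294 _)))
                    (CovZ.n1 (-16188, 15036) (by decide +kernel)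
                     (CovZ.n2 (-16188, 15024) (by decide +kernel)
                      (CovZ.leaf K2_ok TB_l44295 _)
                      (CovZ.leaf K2_ok TB_l44296 _))
                     (CovZ.leaf K2_ok TB_l44297 _))))
                  (CovZ.n1 (-16224, 15048) (by decide +kernel)
                   (CovZ.leaf K2_ok TB_l27108 _)
                   (CovZ.n1 (-16212, 15036) (by decide +kernel)
                    (CovZ.leaf K2_ok TB_l44298 _)
                    (CovZ.leaf K2_ok TB_l44299 _))))
                 (CovZ.subM 131072 (by decide +kernel)
                  (CovZ.n1 (-16200, 15000) (by decide +kernel)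
                   (CovZ.n2 (-16224, 15000) (by decide +kernel)
                    (CovZ.n2 (-16212, 15012) (by decide +kernel)
                     (CovZ.badM (by decide +kernel))
                     (CovZ.leaf K2_ok TB_l44300 _))
                    (CovZ.badM (by decide +kernel)))
                   (CovZ.n1 (-16200, 15024) (by decide +kernel)
                    (CovZ.n2 (-16188, 15012) (by decide +kernel)
                     (CovZ.leaf K2_ok TB_l44301 _)
                     (CovZ.n1 (-16188, 15024) (by decide +kernel)
                      (CovZ.leaf K2_ok TB_l44302 _)
                      (CovZ.leaf K2_ok TB_l44303 _)))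
                    (CovZ.n1 (-16212, 15012) (by decide +kernel)
                     (CovZ.leaf K2_ok TB_l44304 _)
                     (CovZ.n1 (-16200, 15012) (by decide +kernel)
                      (CovZ.badM (by decide +kernel))
                      (CovZ.leaf K2_ok TB_l44305 _)))))))))))
            (CovZ.subM 305310535760598319690817628855675275107315277531285230185904599206642348108087463209430163935183508687370191360 (by decide +kernel)
             (CovZ.n1 (-16320, 15072) (by decide +kernel)
              (CovZ.n2 (-16272, 15120) (by decide +kernel)
               (CovZ.n2 (-16272, 15072) (by decide +kernel)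
                (CovZ.n2 (-16296, 15096) (by decide +kernel)
                 (CovZ.n2 (-16272, 15096) (by decide +kernel)
                  (CovZ.leaf K2_ok TB_l27109 _)
                  (CovZ.leaf K2_ok TB_l27110 _))
                 (CovZ.n1 (-16296, 15072) (by decide +kernel)
                  (CovZ.leaf K2_ok TB_l27111 _)
                  (CovZ.leaf K2_ok TB_l27112 _)))
                (CovZ.n1 (-16248, 15096) (by decide +kernel)
                 (CovZ.n2 (-16248, 15072) (by decide +kernel)
                  (CovZ.leaf K2_ok TB_l27113 _)
                  (CovZ.leaf K2_ok TB_l27114 _))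
                 (CovZ.leaf K2_ok TB_l27115 _)))
               (CovZ.n1 (-16320, 15120) (by decide +kernel)
                (CovZ.n2 (-16296, 15144) (by decide +kernel)
                 (CovZ.n2 (-16296, 15120) (by decide +kernel)
                  (CovZ.leaf K2_ok TB_l27116 _)
                  (CovZ.leaf K2_ok TB_l27117 _))
                 (CovZ.leaf K2_ok TB_l27118 _))
                (CovZ.n1 (-16296, 15096) (by decide +kernel)
                 (CovZ.leaf K2_ok TB_l27119 _)
                 (CovZ.n1 (-16296, 15120) (by decide +kernel)
                  (CovZ.leaf K2_ok TB_l27120 _)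
                  (CovZ.leaf K2_ok TB_l27121 _)))))
              (CovZ.subM 305310535760598319625632477582617518905697776349508532745361821690170313315422077804596431245747940904839282688 (by decide +kernel)
               (CovZ.n1 (-16272, 15024) (by decide +kernel)
                (CovZ.n2 (-16320, 15024) (by decide +kernel)
                 (CovZ.n2 (-16296, 15048) (by decide +kernel)
                  (CovZ.subM 4697085165547666455778961193578674054754815970990035023308299320995556562955442441413483190047189036920078336 (by decide +kernel)
                   (CovZ.n2 (-16296, 15024) (by decide +kernel)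
                    (CovZ.n2 (-16308, 15036) (by decide +kernel)
                     (CovZ.leaf K2_ok TB_l27122 _)
                     (CovZ.n1 (-16308, 15024) (by decide +kernel)
                      (CovZ.leaf K2_ok TB_l44306 _)
                      (CovZ.leaf K2_ok TB_l44307 _)))
                    (CovZ.n1 (-16284, 15036) (by decide +kernel)
                     (CovZ.n2 (-16284, 15024) (by decide +kernel)
                      (CovZ.leaf K2_ok TB_l44308 _)
                      (CovZ.leaf K2_ok TB_l44309 _))
                     (CovZ.leaf K2_ok TB_l27123 _))))
                  (CovZ.n1 (-16320, 15048) (by decide +kernel)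
                   (CovZ.leaf K2_ok TB_l27124 _)
                   (CovZ.n1 (-16308, 15036) (by decide +kernel)
                    (CovZ.leaf K2_ok TB_l27125 _)
                    (CovZ.leaf K2_ok TB_l27126 _))))
                 (CovZ.subM 4697085165547666455778961193578674054754815970990035023308299320995556562955442441413483190047118668175900672 (by decide +kernel)
                  (CovZ.n1 (-16296, 15000) (by decide +kernel)
                   (CovZ.n2 (-16320, 15000) (by decide +kernel)
                    (CovZ.n2 (-16308, 15012) (by decide +kernel)
                     (CovZ.badM (by decide +kernel))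
                     (CovZ.leaf K2_ok TB_l44310 _))
                    (CovZ.badM (by decide +kernel)))
                   (CovZ.n1 (-16296, 15024) (by decide +kernel)
                    (CovZ.n2 (-16284, 15012) (by decide +kernel)
                     (CovZ.leaf K2_ok TB_l44311 _)
                     (CovZ.leaf K2_ok TB_l44312 _))
                    (CovZ.n1 (-16308, 15012) (by decide +kernel)
                     (CovZ.n2 (-16308, 15024) (by decide +kernel)
                      (CovZ.leaf K2_ok TB_l44313 _)
                      (CovZ.leaf K2_ok TB_l44314 _))
                     (CovZ.n1 (-16296, 15012) (by decide +kernel)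
                      (CovZ.badM (by decide +kernel))
                      (CovZ.leaf K2_ok TB_l44315 _)))))))
                (CovZ.n1 (-16272, 15072) (by decide +kernel)
                 (CovZ.n2 (-16248, 15048) (by decide +kernel)
                  (CovZ.n2 (-16272, 15048) (by decide +kernel)
                   (CovZ.n2 (-16260, 15060) (by decide +kernel)
                    (CovZ.leaf K2_ok TB_l27127 _)
                    (CovZ.leaf K2_ok TB_l27128 _))
                   (CovZ.n1 (-16260, 15036) (by decide +kernel)
                    (CovZ.leaf K2_ok TB_l27129 _)
                    (CovZ.leaf K2_ok TB_l27130 _)))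
                  (CovZ.n1 (-16248, 15072) (by decide +kernel)
                   (CovZ.leaf K2_ok TB_l27131 _)
                   (CovZ.leaf K2_ok TB_l27132 _)))
                 (CovZ.n1 (-16296, 15048) (by decide +kernel)
                  (CovZ.n2 (-16296, 15072) (by decide +kernel)
                   (CovZ.leaf K2_ok TB_l27133 _)
                   (CovZ.leaf K2_ok TB_l27134 _))
                  (CovZ.n1 (-16272, 15048) (by decide +kernel)
                   (CovZ.n2 (-16284, 15036) (by decide +kernel)
                    (CovZ.leaf K2_ok TB_l27135 _)
                    (CovZ.leaf K2_ok TB_l27136 _))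
                   (CovZ.leaf K2_ok TB_l27137 _)))))))))

theorem TB_u371 : CovZ TB_M (toL (selN TB_LN 661055968792958817092436311578211860153203136073861661357282515107967231341731559556664859155450503911686235779032533861200)) [0, 7, 6, 1] (-16128, 15360) (-16896, 15360) (-16128, 14592) :=
    (CovZ.n1 (-16512, 14976) (by decide +kernel)
       (CovZ.n2 (-16512, 15360) (by decide +kernel)
        TB_u367
        TB_u368)
       (CovZ.subM 305310535760598319690817628855675275107315280901278563579737566696086116965588629874932238371074589720282530384 (by decide +kernel)
        (CovZ.n1 (-16128, 14976) (by decide +kernel)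
         (CovZ.subM 2993155353253689176481146537402947768370538192306176 (by decide +kernel)
          (CovZ.n2 (-16320, 14784) (by decide +kernel)
           (CovZ.n2 (-16320, 14976) (by decide +kernel)
            (CovZ.n2 (-16224, 14880) (by decide +kernel)
             (CovZ.badM (by decide +kernel))
             (CovZ.n1 (-16224, 14976) (by decide +kernel)
              (CovZ.n2 (-16176, 14928) (by decide +kernel)
               (CovZ.badM (by decide +kernel))
               (CovZ.n1 (-16176, 14976) (by decide +kernel)
                (CovZ.badM (by decide +kernel))
                (CovZ.badM (by decide +kernel))))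
              (CovZ.badM (by decide +kernel))))
            (CovZ.badM (by decide +kernel)))
           (CovZ.n1 (-16128, 14784) (by decide +kernel)
            (CovZ.n2 (-16224, 14688) (by decide +kernel)
             (CovZ.n2 (-16224, 14784) (by decide +kernel)
              (CovZ.badM (by decide +kernel))
              (CovZ.badM (by decide +kernel)))
             (CovZ.badM (by decide +kernel)))
            (CovZ.n1 (-16224, 14880) (by decide +kernel)
             (CovZ.badM (by decide +kernel))
             (CovZ.n1 (-16224, 14784) (by decide +kernel)
              (CovZ.badM (by decide +kernel))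
              (CovZ.badM (by decide +kernel)))))))
         (CovZ.n1 (-16320, 15168) (by decide +kernel)
          (CovZ.n2 (-16128, 15168) (by decide +kernel)
           (CovZ.n2 (-16224, 15072) (by decide +kernel)
            (CovZ.n2 (-16224, 15168) (by decide +kernel)
             (CovZ.n2 (-16176, 15120) (by decide +kernel)
              (CovZ.subM 305310535760598319690817628825321073666288045118595300686668758954234045090852394092715214708433280402156814848 (by decide +kernel)
               (CovZ.n2 (-16224, 15120) (by decide +kernel)
                (CovZ.n2 (-16200, 15144) (by decide +kernel)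
                 (CovZ.n2 (-16200, 15120) (by decide +kernel)
                  (CovZ.leaf K2_ok TB_l27006 _)
                  (CovZ.leaf K2_ok TB_l27007 _))
                 (CovZ.leaf K2_ok TB_l27008 _))
                (CovZ.n1 (-16200, 15096) (by decide +kernel)
                 (CovZ.n2 (-16224, 15096) (by decide +kernel)
                  (CovZ.leaf K2_ok TB_l27009 _)
                  (CovZ.leaf K2_ok TB_l27010 _))
                 (CovZ.n1 (-16200, 15120) (by decide +kernel)
                  (CovZ.leaf K2_ok TB_l27011 _)
                  (CovZ.leaf K2_ok TB_l27012 _)))))
              (CovZ.n1 (-16176, 15168) (by decide +kernel)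
               (CovZ.n2 (-16152, 15144) (by decide +kernel)
                (CovZ.leaf K2_ok TB_l27013 _)
                (CovZ.n1 (-16152, 15168) (by decide +kernel)
                 (CovZ.leaf K2_ok TB_l27014 _)
                 (CovZ.leaf K2_ok TB_l27015 _)))
               (CovZ.n1 (-16200, 15144) (by decide +kernel)
                (CovZ.leaf K2_ok TB_l27016 _)
                (CovZ.leaf K2_ok TB_l27017 _))))
             (CovZ.subM 305310535760598319690817628855675275107315277531285230185904599206642348108087463209430163935183508687370191360 (by decide +kernel)
              (CovZ.n1 (-16272, 15120) (by decide +kernel)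
               (CovZ.n2 (-16272, 15168) (by decide +kernel)
                (CovZ.n2 (-16248, 15144) (by decide +kernel)
                 (CovZ.leaf K2_ok TB_l27018 _)
                 (CovZ.leaf K2_ok TB_l27019 _))
                (CovZ.n1 (-16296, 15144) (by decide +kernel)
                 (CovZ.leaf K2_ok TB_l27020 _)
                 (CovZ.leaf K2_ok TB_l27021 _)))
               (CovZ.n1 (-16224, 15120) (by decide +kernel)
                (CovZ.n2 (-16248, 15096) (by decide +kernel)
                 (CovZ.n2 (-16248, 15120) (by decide +kernel)
                  (CovZ.leaf K2_ok TB_l27022 _)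
                  (CovZ.leaf K2_ok TB_l27023 _))
                 (CovZ.n1 (-16224, 15096) (by decide +kernel)
                  (CovZ.leaf K2_ok TB_l27024 _)
                  (CovZ.leaf K2_ok TB_l27025 _)))
                (CovZ.n1 (-16248, 15144) (by decide +kernel)
                 (CovZ.leaf K2_ok TB_l27026 _)
                 (CovZ.n1 (-16248, 15120) (by decide +kernel)
                  (CovZ.leaf K2_ok TB_l27027 _)
                  (CovZ.leaf K2_ok TB_l27028 _)))))))
            (CovZ.n1 (-16128, 15072) (by decide +kernel)
             (CovZ.subM 4697085165547666455778961193578674054754815970990035023311292477063130996772357630260242742302411837346545664 (by decide +kernel)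
              (CovZ.n2 (-16176, 15024) (by decide +kernel)
               (CovZ.n2 (-16176, 15072) (by decide +kernel)
                (CovZ.n2 (-16152, 15048) (by decide +kernel)
                 (CovZ.subM 4697085165547666455778961193578674054754815970990035023308299320996253461242896543193696809809293696603127808 (by decide +kernel)
                  (CovZ.n2 (-16176, 15048) (by decide +kernel)
                   (CovZ.n2 (-16164, 15060) (by decide +kernel)
                    (CovZ.leaf K2_ok TB_l44191 _)
                    (CovZ.leaf K2_ok TB_l44192 _))
                   (CovZ.n1 (-16164, 15036) (by decide +kernel)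
                    (CovZ.leaf K2_ok TB_l44193 _)
                    (CovZ.leaf K2_ok TB_l44194 _))))
                 (CovZ.n1 (-16152, 15072) (by decide +kernel)
                  (CovZ.leaf K2_ok TB_l44195 _)
                  (CovZ.leaf K2_ok TB_l44196 _)))
                (CovZ.subM 4697085165547666455778961193578674054754815970990035023308299320996253461242896543193696809809293696603127808 (by decide +kernel)
                 (CovZ.n1 (-16200, 15048) (by decide +kernel)
                  (CovZ.n2 (-16200, 15072) (by decide +kernel)
                   (CovZ.n2 (-16188, 15060) (by decide +kernel)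
                    (CovZ.leaf K2_ok TB_l44197 _)
                    (CovZ.leaf K2_ok TB_l44198 _))
                   (CovZ.leaf K2_ok TB_l27029 _))
                  (CovZ.n1 (-16176, 15048) (by decide +kernel)
                   (CovZ.n2 (-16188, 15036) (by decide +kernel)
                    (CovZ.n2 (-16188, 15048) (by decide +kernel)
                     (CovZ.leaf K2_ok TB_l44199 _)
                     (CovZ.leaf K2_ok TB_l44200 _))
                    (CovZ.leaf K2_ok TB_l44201 _))
                   (CovZ.n1 (-16188, 15060) (by decide +kernel)
                    (CovZ.n2 (-16176, 15060) (by decide +kernel)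
                     (CovZ.leaf K2_ok TB_l44202 _)
                     (CovZ.leaf K2_ok TB_l44203 _))
                    (CovZ.leaf K2_ok TB_l44204 _))))))
               (CovZ.n1 (-16128, 15024) (by decide +kernel)
                (CovZ.subM 2993155353253689176481146537402947768370538192437248 (by decide +kernel)
                 (CovZ.n2 (-16152, 15000) (by decide +kernel)
                  (CovZ.n2 (-16152, 15024) (by decide +kernel)
                   (CovZ.n2 (-16140, 15012) (by decide +kernel)
                    (CovZ.n2 (-16152, 15012) (by decide +kernel)
                     (CovZ.leaf K2_ok TB_l44205 _)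
                     (CovZ.badM (by decide +kernel)))
                    (CovZ.n1 (-16140, 15024) (by decide +kernel)
                     (CovZ.leaf K2_ok TB_l44206 _)
                     (CovZ.leaf K2_ok TB_l44207 _)))
                   (CovZ.n1 (-16164, 15012) (by decide +kernel)
                    (CovZ.n2 (-16164, 15024) (by decide +kernel)
                     (CovZ.leaf K2_ok TB_l44208 _)
                     (CovZ.leaf K2_ok TB_l44209 _))
                    (CovZ.n1 (-16152, 15012) (by decide +kernel)
                     (CovZ.badM (by decide +kernel))
                     (CovZ.leaf K2_ok TB_l44210 _))))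
                  (CovZ.n1 (-16128, 15000) (by decide +kernel)
                   (CovZ.badM (by decide +kernel))
                   (CovZ.n1 (-16140, 15012) (by decide +kernel)
                    (CovZ.n2 (-16128, 15012) (by decide +kernel)
                     (CovZ.badM (by decide +kernel))
                     (CovZ.leaf K2_ok TB_l44211 _))
                    (CovZ.badM (by decide +kernel))))))
                (CovZ.n1 (-16152, 15048) (by decide +kernel)
                 (CovZ.n2 (-16128, 15048) (by decide +kernel)
                  (CovZ.n2 (-16140, 15036) (by decide +kernel)
                   (CovZ.leaf K2_ok TB_l44212 _)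
                   (CovZ.n1 (-16128, 15036) (by decide +kernel)
                    (CovZ.leaf K2_ok TB_l44213 _)
                    (CovZ.leaf K2_ok TB_l44214 _)))
                  (CovZ.n1 (-16140, 15060) (by decide +kernel)
                   (CovZ.leaf K2_ok TB_l44215 _)
                   (CovZ.n1 (-16140, 15048) (by decide +kernel)
                    (CovZ.leaf K2_ok TB_l44216 _)
                    (CovZ.leaf K2_ok TB_l44217 _))))
                 (CovZ.subM 4697085165547666455778961193578674054751365097816639741417575098417671739405698033464800944537907944256307200 (by decide +kernel)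
                  (CovZ.n1 (-16152, 15024) (by decide +kernel)
                   (CovZ.n2 (-16164, 15036) (by decide +kernel)
                    (CovZ.leaf K2_ok TB_l44218 _)
                    (CovZ.n1 (-16164, 15024) (by decide +kernel)
                     (CovZ.leaf K2_ok TB_l44219 _)
                     (CovZ.leaf K2_ok TB_l44220 _)))
                   (CovZ.n1 (-16140, 15036) (by decide +kernel)
                    (CovZ.n2 (-16140, 15024) (by decide +kernel)
                     (CovZ.leaf K2_ok TB_l44221 _)
                     (CovZ.leaf K2_ok TB_l44222 _))
                    (CovZ.leaf K2_ok TB_l44223 _))))))))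
             (CovZ.n1 (-16176, 15120) (by decide +kernel)
              (CovZ.n2 (-16128, 15120) (by decide +kernel)
               (CovZ.subM 305310535760598319690817628825321073666288038378608633899011803443547150871308033271022540510717548090697580560 (by decide +kernel)
                (CovZ.n2 (-16152, 15096) (by decide +kernel)
                 (CovZ.n2 (-16152, 15120) (by decide +kernel)
                  (CovZ.leaf K2_ok TB_l27030 _)
                  (CovZ.leaf K2_ok TB_l27031 _))
                 (CovZ.n1 (-16128, 15096) (by decide +kernel)
                  (CovZ.leaf K2_ok TB_l27032 _)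
                  (CovZ.leaf K2_ok TB_l27033 _))))
               (CovZ.n1 (-16152, 15144) (by decide +kernel)
                (CovZ.leaf K2_ok TB_l27034 _)
                (CovZ.n1 (-16152, 15120) (by decide +kernel)
                 (CovZ.leaf K2_ok TB_l27035 _)
                 (CovZ.leaf K2_ok TB_l27036 _))))
              (CovZ.subM 305310535760598319690817628825321073666288038378608633899011803443547150871308033271022540510717548090697580560 (by decide +kernel)
               (CovZ.n1 (-16176, 15072) (by decide +kernel)
                (CovZ.n2 (-16200, 15096) (by decide +kernel)
                 (CovZ.n2 (-16176, 15096) (by decide +kernel)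
                  (CovZ.leaf K2_ok TB_l27037 _)
                  (CovZ.leaf K2_ok TB_l27038 _))
                 (CovZ.n1 (-16200, 15072) (by decide +kernel)
                  (CovZ.leaf K2_ok TB_l27039 _)
                  (CovZ.leaf K2_ok TB_l27040 _)))
                (CovZ.n1 (-16152, 15096) (by decide +kernel)
                 (CovZ.n2 (-16152, 15072) (by decide +kernel)
                  (CovZ.leaf K2_ok TB_l27041 _)
                  (CovZ.n1 (-16140, 15084) (by decide +kernel)
                   (CovZ.leaf K2_ok TB_l27042 _)
                   (CovZ.leaf K2_ok TB_l27043 _)))
                 (CovZ.n1 (-16176, 15096) (by decide +kernel)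
                  (CovZ.leaf K2_ok TB_l27044 _)
                  (CovZ.leaf K2_ok TB_l27045 _))))))))
           (CovZ.n1 (-16224, 15264) (by decide +kernel)
            (CovZ.n2 (-16128, 15264) (by decide +kernel)
             (CovZ.n2 (-16176, 15216) (by decide +kernel)
              (CovZ.n2 (-16176, 15264) (by decide +kernel)
               (CovZ.leaf K2_ok TB_l27046 _)
               (CovZ.leaf K2_ok TB_l27047 _))
              (CovZ.n1 (-16128, 15216) (by decide +kernel)
               (CovZ.n2 (-16152, 15192) (by decide +kernel)
                (CovZ.leaf K2_ok TB_l27048 _)
                (CovZ.leaf K2_ok TB_l27049 _))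
               (CovZ.leaf K2_ok TB_l27050 _)))
             (CovZ.n1 (-16176, 15312) (by decide +kernel)
              (CovZ.n2 (-16128, 15312) (by decide +kernel)
               (CovZ.leaf K2_ok TB_l27051 _)
               (CovZ.leaf K2_ok TB_l27052 _))
              (CovZ.n1 (-16176, 15264) (by decide +kernel)
               (CovZ.leaf K2_ok TB_l27053 _)
               (CovZ.leaf K2_ok TB_l27054 _))))
            (CovZ.n1 (-16224, 15168) (by decide +kernel)
             (CovZ.n2 (-16272, 15216) (by decide +kernel)
              (CovZ.n2 (-16224, 15216) (by decide +kernel)
               (CovZ.leaf K2_ok TB_l27055 _)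
               (CovZ.leaf K2_ok TB_l27056 _))
              (CovZ.n1 (-16272, 15168) (by decide +kernel)
               (CovZ.n2 (-16296, 15192) (by decide +kernel)
                (CovZ.leaf K2_ok TB_l27057 _)
                (CovZ.leaf K2_ok TB_l27058 _))
               (CovZ.n1 (-16248, 15192) (by decide +kernel)
                (CovZ.leaf K2_ok TB_l27059 _)
                (CovZ.leaf K2_ok TB_l27060 _))))
             (CovZ.n1 (-16176, 15216) (by decide +kernel)
              (CovZ.n2 (-16176, 15168) (by decide +kernel)
               (CovZ.n2 (-16200, 15192) (by decide +kernel)
                (CovZ.leaf K2_ok TB_l27061 _)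
                (CovZ.leaf K2_ok TB_l27062 _))
               (CovZ.n1 (-16152, 15192) (by decide +kernel)
                (CovZ.leaf K2_ok TB_l27063 _)
                (CovZ.leaf K2_ok TB_l27064 _)))
              (CovZ.n1 (-16224, 15216) (by decide +kernel)
               (CovZ.leaf K2_ok TB_l27065 _)
               (CovZ.n1 (-16200, 15192) (by decide +kernel)
                (CovZ.leaf K2_ok TB_l27066 _)
                (CovZ.leaf K2_ok TB_l27067 _)))))))
          (CovZ.n1 (-16320, 14976) (by decide +kernel)
           TB_u369
           TB_u370)))))

theorem TB_u372 : CovZ TB_M (toL (selN TB_LN 1985750176617588779051212724492569694374289247818764085103919460687346222779428605102964186815136695395779562697347651769208)) [0, 7, 6, 1] (-16896, 13824) (-16128, 14592) (-16896, 15360) :=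
    (CovZ.n2 (-16896, 14592) (by decide +kernel)
     (CovZ.subM 1324694207827340180099157432413151729561250013555300085238531140744409413498507132893842137485505550157865887436534926443120 (by decide +kernel)
      (CovZ.n2 (-16512, 14976) (by decide +kernel)
       (CovZ.n2 (-16512, 14592) (by decide +kernel)
        (CovZ.subM 1324694207824629961958636428867971713498796635117452200102941590586499085124918020509557719415162320881666274676642917908512 (by decide +kernel)
         (CovZ.n2 (-16704, 14784) (by decide +kernel)
          (CovZ.n2 (-16512, 14784) (by decide +kernel)
           (CovZ.n2 (-16608, 14688) (by decide +kernel)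
            (CovZ.badM (by decide +kernel))
            (CovZ.badM (by decide +kernel)))
           (CovZ.badM (by decide +kernel)))
          (CovZ.n1 (-16704, 14592) (by decide +kernel)
           TB_u339
           TB_u340)))
        (CovZ.subM 2993155353253689176481146537402947768370538192306176 (by decide +kernel)
         (CovZ.n1 (-16320, 14784) (by decide +kernel)
          (CovZ.n2 (-16320, 14592) (by decide +kernel)
           (CovZ.badM (by decide +kernel))
           (CovZ.n1 (-16224, 14688) (by decide +kernel)
            (CovZ.badM (by decide +kernel))
            (CovZ.badM (by decide +kernel))))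
          (CovZ.badM (by decide +kernel)))))
       (CovZ.n1 (-16896, 14976) (by decide +kernel)
        (CovZ.subM 2710218140521003545180016062453378437847885135589550157910325380433044809850601155169237797118205639638068134464 (by decide +kernel)
         (CovZ.n2 (-16704, 15168) (by decide +kernel)
          (CovZ.n2 (-16704, 14976) (by decide +kernel)
           TB_u341
           TB_u342)
          (CovZ.n1 (-16896, 15168) (by decide +kernel)
           (CovZ.n2 (-16800, 15264) (by decide +kernel)
            (CovZ.n2 (-16800, 15168) (by decide +kernel)
             (CovZ.n2 (-16848, 15216) (by decide +kernel)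
              (CovZ.leaf K2_ok TB_l26214 _)
              (CovZ.n1 (-16848, 15168) (by decide +kernel)
               (CovZ.leaf K2_ok TB_l26215 _)
               (CovZ.leaf K2_ok TB_l26216 _)))
             (CovZ.n1 (-16752, 15216) (by decide +kernel)
              (CovZ.n2 (-16752, 15168) (by decide +kernel)
               (CovZ.leaf K2_ok TB_l26217 _)
               (CovZ.leaf K2_ok TB_l26218 _))
              (CovZ.n1 (-16800, 15216) (by decide +kernel)
               (CovZ.leaf K2_ok TB_l26219 _)
               (CovZ.leaf K2_ok TB_l26220 _))))
            (CovZ.n1 (-16896, 15264) (by decide +kernel)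
             (CovZ.n2 (-16848, 15312) (by decide +kernel)
              (CovZ.leaf K2_ok TB_l26221 _)
              (CovZ.leaf K2_ok TB_l26222 _))
             (CovZ.n1 (-16848, 15216) (by decide +kernel)
              (CovZ.leaf K2_ok TB_l26223 _)
              (CovZ.n1 (-16848, 15264) (by decide +kernel)
               (CovZ.leaf K2_ok TB_l26224 _)
               (CovZ.leaf K2_ok TB_l26225 _)))))
           (CovZ.n1 (-16800, 15072) (by decide +kernel)
            (CovZ.n2 (-16896, 15072) (by decide +kernel)
             (CovZ.n2 (-16848, 15120) (by decide +kernel)
              (CovZ.n2 (-16848, 15072) (by decide +kernel)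
               (CovZ.n2 (-16872, 15096) (by decide +kernel)
                (CovZ.leaf K2_ok TB_l26226 _)
                (CovZ.leaf K2_ok TB_l26227 _))
               (CovZ.n1 (-16824, 15096) (by decide +kernel)
                (CovZ.leaf K2_ok TB_l26228 _)
                (CovZ.leaf K2_ok TB_l26229 _)))
              (CovZ.n1 (-16896, 15120) (by decide +kernel)
               (CovZ.leaf K2_ok TB_l26230 _)
               (CovZ.n1 (-16872, 15096) (by decide +kernel)
                (CovZ.leaf K2_ok TB_l26231 _)
                (CovZ.leaf K2_ok TB_l26232 _))))
             (CovZ.n1 (-16848, 15024) (by decide +kernel)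
              (CovZ.n2 (-16896, 15024) (by decide +kernel)
               (CovZ.n2 (-16872, 15048) (by decide +kernel)
                (CovZ.n2 (-16872, 15024) (by decide +kernel)
                 (CovZ.leaf K2_ok TB_l26233 _)
                 (CovZ.leaf K2_ok TB_l26234 _))
                (CovZ.leaf K2_ok TB_l26235 _))
               (CovZ.subM 2710218140521003544984460608725252952178581545087686988342704346495113278824089093705553826402133650396705587200 (by decide +kernel)
                (CovZ.n1 (-16872, 15000) (by decide +kernel)
                 (CovZ.n2 (-16896, 15000) (by decide +kernel)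
                  (CovZ.leaf K2_ok TB_l26236 _)
                  (CovZ.n1 (-16884, 14988) (by decide +kernel)
                   (CovZ.leaf K2_ok TB_l26237 _)
                   (CovZ.leaf K2_ok TB_l26238 _)))
                 (CovZ.n1 (-16872, 15024) (by decide +kernel)
                  (CovZ.leaf K2_ok TB_l26239 _)
                  (CovZ.leaf K2_ok TB_l26240 _)))))
              (CovZ.n1 (-16848, 15072) (by decide +kernel)
               (CovZ.n2 (-16824, 15048) (by decide +kernel)
                (CovZ.leaf K2_ok TB_l26241 _)
                (CovZ.n1 (-16824, 15072) (by decide +kernel)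
                 (CovZ.leaf K2_ok TB_l26242 _)
                 (CovZ.leaf K2_ok TB_l26243 _)))
               (CovZ.n1 (-16872, 15048) (by decide +kernel)
                (CovZ.n2 (-16872, 15072) (by decide +kernel)
                 (CovZ.leaf K2_ok TB_l26244 _)
                 (CovZ.leaf K2_ok TB_l26245 _))
                (CovZ.leaf K2_ok TB_l26246 _)))))
            (CovZ.n1 (-16800, 15168) (by decide +kernel)
             (CovZ.n2 (-16752, 15120) (by decide +kernel)
              (CovZ.n2 (-16800, 15120) (by decide +kernel)
               (CovZ.leaf K2_ok TB_l26247 _)
               (CovZ.n1 (-16776, 15096) (by decide +kernel)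
                (CovZ.leaf K2_ok TB_l26248 _)
                (CovZ.leaf K2_ok TB_l26249 _)))
              (CovZ.n1 (-16752, 15168) (by decide +kernel)
               (CovZ.leaf K2_ok TB_l26250 _)
               (CovZ.leaf K2_ok TB_l26251 _)))
             (CovZ.n1 (-16848, 15120) (by decide +kernel)
              (CovZ.n2 (-16848, 15168) (by decide +kernel)
               (CovZ.leaf K2_ok TB_l26252 _)
               (CovZ.leaf K2_ok TB_l26253 _))
              (CovZ.n1 (-16800, 15120) (by decide +kernel)
               (CovZ.n2 (-16824, 15096) (by decide +kernel)
                (CovZ.leaf K2_ok TB_l26254 _)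
                (CovZ.leaf K2_ok TB_l26255 _))
               (CovZ.leaf K2_ok TB_l26256 _))))))))
        (CovZ.n1 (-16704, 14784) (by decide +kernel)
         (CovZ.n2 (-16896, 14784) (by decide +kernel)
          TB_u343
          TB_u344)
         (CovZ.subM 305310535760598319625632477612971720353793269849585348564894204290163035758222687409584322436256494696177598464 (by decide +kernel)
          (CovZ.n1 (-16704, 14976) (by decide +kernel)
           (CovZ.subM 4697085165547666455778961223936580842637426822360181588946060250334468062654422959022314734905751344655630336 (by decide +kernel)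
            (CovZ.n2 (-16608, 14880) (by decide +kernel)
             TB_u345
             TB_u346))
           (CovZ.n1 (-16800, 14880) (by decide +kernel)
            (CovZ.n2 (-16800, 14976) (by decide +kernel)
             TB_u347
             TB_u348)
            (CovZ.subM 4697085165547666455778961223936580842637426822360181588946060250334468062654422959022314734905751344655630336 (by decide +kernel)
             (CovZ.n1 (-16704, 14880) (by decide +kernel)
              (CovZ.badM (by decide +kernel))
              (CovZ.n1 (-16752, 14928) (by decide +kernel)
               (CovZ.n2 (-16704, 14928) (by decide +kernel)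
                (CovZ.badM (by decide +kernel))
                (CovZ.n1 (-16728, 14952) (by decide +kernel)
                 (CovZ.n2 (-16704, 14952) (by decide +kernel)
                  (CovZ.n2 (-16716, 14940) (by decide +kernel)
                   (CovZ.n2 (-16716, 14952) (by decide +kernel)
                    (CovZ.n2 (-16710, 14946) (by decide +kernel)
                     (CovZ.leaf K2_ok TB_l43395 _)
                     (CovZ.n1 (-16710, 14952) (by decide +kernel)
                      (CovZ.leaf K2_ok TB_l43396 _)
                      (CovZ.leaf K2_ok TB_l43397 _)))
                    (CovZ.n1 (-16722, 14946) (by decide +kernel)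
                     (CovZ.leaf K2_ok TB_l43398 _)
                     (CovZ.leaf K2_ok TB_l43399 _)))
                   (CovZ.n1 (-16704, 14940) (by decide +kernel)
                    (CovZ.n2 (-16710, 14934) (by decide +kernel)
                     (CovZ.leaf K2_ok TB_l43400 _)
                     (CovZ.n1 (-16704, 14934) (by decide +kernel)
                      (CovZ.n2 (-16707, 14931) (by decide +kernel)
                       (CovZ.n2 (-16707, 14934) (by decide +kernel)
                        (CovZ.leaf K2_ok TB_l43401 _)
                        (CovZ.leaf K2_ok TB_l43402 _))
                       (CovZ.leaf K2_ok TB_l43403 _))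
                      (CovZ.leaf K2_ok TB_l43404 _)))
                    (CovZ.n1 (-16710, 14946) (by decide +kernel)
                     (CovZ.leaf K2_ok TB_l43405 _)
                     (CovZ.leaf K2_ok TB_l43406 _))))
                  (CovZ.n1 (-16716, 14964) (by decide +kernel)
                   (CovZ.n2 (-16704, 14964) (by decide +kernel)
                    (CovZ.n2 (-16710, 14958) (by decide +kernel)
                     (CovZ.leaf K2_ok TB_l43407 _)
                     (CovZ.leaf K2_ok TB_l43408 _))
                    (CovZ.leaf K2_ok TB_l43409 _))
                   (CovZ.n1 (-16716, 14952) (by decide +kernel)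
                    (CovZ.n2 (-16722, 14958) (by decide +kernel)
                     (CovZ.leaf K2_ok TB_l43410 _)
                     (CovZ.leaf K2_ok TB_l43411 _))
                    (CovZ.leaf K2_ok TB_l43412 _))))
                 (CovZ.n1 (-16728, 14928) (by decide +kernel)
                  (CovZ.n2 (-16740, 14940) (by decide +kernel)
                   (CovZ.n2 (-16728, 14940) (by decide +kernel)
                    (CovZ.n2 (-16734, 14934) (by decide +kernel)
                     (CovZ.n2 (-16734, 14940) (by decide +kernel)
                      (CovZ.leaf K2_ok TB_l43413 _)
                      (CovZ.leaf K2_ok TB_l43414 _))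
                     (CovZ.n1 (-16728, 14934) (by decide +kernel)
                      (CovZ.n2 (-16731, 14931) (by decide +kernel)
                       (CovZ.leaf K2_ok TB_l43415 _)
                       (CovZ.leaf K2_ok TB_l43416 _))
                      (CovZ.leaf K2_ok TB_l43417 _)))
                    (CovZ.n1 (-16734, 14946) (by decide +kernel)
                     (CovZ.leaf K2_ok TB_l43418 _)
                     (CovZ.leaf K2_ok TB_l43419 _)))
                   (CovZ.n1 (-16740, 14928) (by decide +kernel)
                    (CovZ.n2 (-16746, 14934) (by decide +kernel)
                     (CovZ.n2 (-16740, 14934) (by decide +kernel)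
                      (CovZ.n2 (-16743, 14931) (by decide +kernel)
                       (CovZ.leaf K2_ok TB_l43420 _)
                       (CovZ.leaf K2_ok TB_l43421 _))
                      (CovZ.leaf K2_ok TB_l43422 _))
                     (CovZ.n1 (-16746, 14928) (by decide +kernel)
                      (CovZ.n2 (-16749, 14931) (by decide +kernel)
                       (CovZ.leaf K2_ok TB_l43423 _)
                       (CovZ.leaf K2_ok TB_l43424 _))
                      (CovZ.leaf K2_ok TB_l43425 _)))
                    (CovZ.n1 (-16734, 14934) (by decide +kernel)
                     (CovZ.n2 (-16734, 14928) (by decide +kernel)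
                      (CovZ.n2 (-16737, 14931) (by decide +kernel)
                       (CovZ.leaf K2_ok TB_l43426 _)
                       (CovZ.leaf K2_ok TB_l43427 _))
                      (CovZ.leaf K2_ok TB_l43428 _))
                     (CovZ.n1 (-16740, 14934) (by decide +kernel)
                      (CovZ.leaf K2_ok TB_l43429 _)
                      (CovZ.leaf K2_ok TB_l43430 _)))))
                  (CovZ.n1 (-16716, 14940) (by decide +kernel)
                   (CovZ.n2 (-16716, 14928) (by decide +kernel)
                    (CovZ.n2 (-16722, 14934) (by decide +kernel)
                     (CovZ.n2 (-16716, 14934) (by decide +kernel)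
                      (CovZ.n2 (-16719, 14931) (by decide +kernel)
                       (CovZ.leaf K2_ok TB_l43431 _)
                       (CovZ.leaf K2_ok TB_l43432 _))
                      (CovZ.leaf K2_ok TB_l43433 _))
                     (CovZ.n1 (-16722, 14928) (by decide +kernel)
                      (CovZ.leaf K2_ok TB_l43434 _)
                      (CovZ.leaf K2_ok TB_l43435 _)))
                    (CovZ.n1 (-16710, 14934) (by decide +kernel)
                     (CovZ.n2 (-16710, 14928) (by decide +kernel)
                      (CovZ.n2 (-16713, 14931) (by decide +kernel)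
                       (CovZ.leaf K2_ok TB_l43436 _)
                       (CovZ.leaf K2_ok TB_l43437 _))
                      (CovZ.n1 (-16707, 14931) (by decide +kernel)
                       (CovZ.leaf K2_ok TB_l43438 _)
                       (CovZ.leaf K2_ok TB_l43439 _)))
                     (CovZ.n1 (-16716, 14934) (by decide +kernel)
                      (CovZ.leaf K2_ok TB_l43440 _)
                      (CovZ.n1 (-16713, 14931) (by decide +kernel)
                       (CovZ.n2 (-16716, 14931) (by decide +kernel)
                        (CovZ.leaf K2_ok TB_l43441 _)
                        (CovZ.leaf K2_ok TB_l43442 _))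
                       (CovZ.n1 (-16713, 14934) (by decide +kernel)
                        (CovZ.leaf K2_ok TB_l43443 _)
                        (CovZ.leaf K2_ok TB_l43444 _))))))
                   (CovZ.n1 (-16728, 14940) (by decide +kernel)
                    (CovZ.n2 (-16722, 14946) (by decide +kernel)
                     (CovZ.leaf K2_ok TB_l43445 _)
                     (CovZ.leaf K2_ok TB_l43446 _))
                    (CovZ.n1 (-16722, 14934) (by decide +kernel)
                     (CovZ.n2 (-16728, 14934) (by decide +kernel)
                      (CovZ.leaf K2_ok TB_l43447 _)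
                      (CovZ.leaf K2_ok TB_l43448 _))
                     (CovZ.leaf K2_ok TB_l43449 _)))))))
               (CovZ.badM (by decide +kernel))))))))))))
     (CovZ.subM 1324694207824629961958776412914357834221086111744902423746636945579378994430852398799988504140832728887040951173665234358312 (by decide +kernel)
      (CovZ.n1 (-16512, 14208) (by decide +kernel)
       TB_u355
       TB_u356)))

theorem TB_u373 : CovZ TB_M (toL (selN TB_LN 21662143041287659049273462208908388356174160084278763128957841492648825873060931511515760567715230625033562063828461597585736528)) [0, 7, 6, 1] (-15360, 15360) (-15360, 15744) (-15744, 15744) :=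
    (CovZ.n2 (-15552, 15552) (by decide +kernel)
        (CovZ.n2 (-15552, 15744) (by decide +kernel)
         (CovZ.n2 (-15456, 15648) (by decide +kernel)
          (CovZ.n2 (-15552, 15648) (by decide +kernel)
           (CovZ.n2 (-15504, 15696) (by decide +kernel)
            (CovZ.n2 (-15504, 15648) (by decide +kernel)
             (CovZ.leaf K2_ok TB_l27193 _)
             (CovZ.leaf K2_ok TB_l27194 _))
            (CovZ.n1 (-15552, 15696) (by decide +kernel)
             (CovZ.leaf K2_ok TB_l27195 _)
             (CovZ.leaf K2_ok TB_l27196 _)))
           (CovZ.n1 (-15504, 15600) (by decide +kernel)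
            (CovZ.n2 (-15552, 15600) (by decide +kernel)
             (CovZ.leaf K2_ok TB_l27197 _)
             (CovZ.leaf K2_ok TB_l27198 _))
            (CovZ.n1 (-15504, 15648) (by decide +kernel)
             (CovZ.n2 (-15480, 15624) (by decide +kernel)
              (CovZ.leaf K2_ok TB_l27199 _)
              (CovZ.leaf K2_ok TB_l27200 _))
             (CovZ.leaf K2_ok TB_l27201 _))))
          (CovZ.n1 (-15456, 15744) (by decide +kernel)
           (CovZ.n2 (-15408, 15696) (by decide +kernel)
            (CovZ.n2 (-15456, 15696) (by decide +kernel)
             (CovZ.leaf K2_ok TB_l27202 _)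
             (CovZ.n1 (-15432, 15672) (by decide +kernel)
              (CovZ.leaf K2_ok TB_l27203 _)
              (CovZ.leaf K2_ok TB_l27204 _)))
            (CovZ.n1 (-15408, 15744) (by decide +kernel)
             (CovZ.n2 (-15384, 15720) (by decide +kernel)
              (CovZ.leaf K2_ok TB_l27205 _)
              (CovZ.leaf K2_ok TB_l27206 _))
             (CovZ.leaf K2_ok TB_l27207 _)))
           (CovZ.n1 (-15504, 15696) (by decide +kernel)
            (CovZ.n2 (-15504, 15744) (by decide +kernel)
             (CovZ.leaf K2_ok TB_l27208 _)
             (CovZ.leaf K2_ok TB_l27209 _))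
            (CovZ.n1 (-15456, 15696) (by decide +kernel)
             (CovZ.leaf K2_ok TB_l27210 _)
             (CovZ.leaf K2_ok TB_l27211 _)))))
         (CovZ.n1 (-15648, 15648) (by decide +kernel)
          (CovZ.n2 (-15648, 15744) (by decide +kernel)
           (CovZ.n2 (-15600, 15696) (by decide +kernel)
            (CovZ.leaf K2_ok TB_l27212 _)
            (CovZ.n1 (-15600, 15744) (by decide +kernel)
             (CovZ.leaf K2_ok TB_l27213 _)
             (CovZ.leaf K2_ok TB_l27214 _)))
           (CovZ.n1 (-15696, 15696) (by decide +kernel)
            (CovZ.leaf K2_ok TB_l27215 _)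
            (CovZ.leaf K2_ok TB_l27216 _)))
          (CovZ.n1 (-15552, 15648) (by decide +kernel)
           (CovZ.n2 (-15600, 15600) (by decide +kernel)
            (CovZ.n2 (-15600, 15648) (by decide +kernel)
             (CovZ.leaf K2_ok TB_l27217 _)
             (CovZ.leaf K2_ok TB_l27218 _))
            (CovZ.n1 (-15552, 15600) (by decide +kernel)
             (CovZ.leaf K2_ok TB_l27219 _)
             (CovZ.leaf K2_ok TB_l27220 _)))
           (CovZ.n1 (-15600, 15696) (by decide +kernel)
            (CovZ.n2 (-15552, 15696) (by decide +kernel)
             (CovZ.leaf K2_ok TB_l27221 _)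
             (CovZ.leaf K2_ok TB_l27222 _))
            (CovZ.n1 (-15600, 15648) (by decide +kernel)
             (CovZ.leaf K2_ok TB_l27223 _)
             (CovZ.leaf K2_ok TB_l27224 _))))))
        (CovZ.n1 (-15360, 15552) (by decide +kernel)
         (CovZ.n2 (-15456, 15456) (by decide +kernel)
          (CovZ.n2 (-15456, 15552) (by decide +kernel)
           (CovZ.subM 661055968790553909487675906352461921114604264490637699761081999784059430106663469392709169665897991740385703265580779307840 (by decide +kernel)
            (CovZ.n2 (-15408, 15504) (by decide +kernel)
             (CovZ.n2 (-15456, 15504) (by decide +kernel)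
              (CovZ.n2 (-15432, 15528) (by decide +kernel)
               (CovZ.leaf K2_ok TB_l27225 _)
               (CovZ.leaf K2_ok TB_l27226 _))
              (CovZ.n1 (-15432, 15480) (by decide +kernel)
               (CovZ.leaf K2_ok TB_l27227 _)
               (CovZ.leaf K2_ok TB_l27228 _)))
             (CovZ.n1 (-15408, 15552) (by decide +kernel)
              (CovZ.n2 (-15384, 15528) (by decide +kernel)
               (CovZ.leaf K2_ok TB_l27229 _)
               (CovZ.n1 (-15384, 15552) (by decide +kernel)
                (CovZ.leaf K2_ok TB_l27230 _)
                (CovZ.leaf K2_ok TB_l27231 _)))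
              (CovZ.n1 (-15432, 15528) (by decide +kernel)
               (CovZ.leaf K2_ok TB_l27232 _)
               (CovZ.leaf K2_ok TB_l27233 _)))))
           (CovZ.subM 661055968790553909487675906352461921114604264490637699761081993356307253070702367224860800301247581670458591387060256375632 (by decide +kernel)
            (CovZ.n1 (-15504, 15504) (by decide +kernel)
             (CovZ.n2 (-15504, 15552) (by decide +kernel)
              (CovZ.n2 (-15480, 15528) (by decide +kernel)
               (CovZ.leaf K2_ok TB_l27234 _)
               (CovZ.leaf K2_ok TB_l27235 _))
              (CovZ.leaf K2_ok TB_l27236 _))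
             (CovZ.n1 (-15456, 15504) (by decide +kernel)
              (CovZ.n2 (-15480, 15480) (by decide +kernel)
               (CovZ.leaf K2_ok TB_l27237 _)
               (CovZ.leaf K2_ok TB_l27238 _))
              (CovZ.n1 (-15480, 15528) (by decide +kernel)
               (CovZ.leaf K2_ok TB_l27239 _)
               (CovZ.leaf K2_ok TB_l27240 _))))))
          (CovZ.subM 661055968790553909487675906352396735963361560935877109499052899682905783118066159432688813171518651538784053118946055816000 (by decide +kernel)
           (CovZ.n1 (-15360, 15456) (by decide +kernel)
            (CovZ.n2 (-15408, 15408) (by decide +kernel)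
             (CovZ.n2 (-15408, 15456) (by decide +kernel)
              (CovZ.n2 (-15384, 15432) (by decide +kernel)
               (CovZ.leaf K2_ok TB_l27241 _)
               (CovZ.n1 (-15384, 15456) (by decide +kernel)
                (CovZ.leaf K2_ok TB_l27242 _)
                (CovZ.leaf K2_ok TB_l27243 _)))
              (CovZ.n1 (-15432, 15432) (by decide +kernel)
               (CovZ.n2 (-15432, 15456) (by decide +kernel)
                (CovZ.leaf K2_ok TB_l27244 _)
                (CovZ.leaf K2_ok TB_l27245 _))
               (CovZ.leaf K2_ok TB_l27246 _)))
             (CovZ.n1 (-15360, 15408) (by decide +kernel)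
              (CovZ.n2 (-15384, 15384) (by decide +kernel)
               (CovZ.n2 (-15384, 15408) (by decide +kernel)
                (CovZ.leaf K2_ok TB_l27247 _)
                (CovZ.leaf K2_ok TB_l27248 _))
               (CovZ.n1 (-15360, 15384) (by decide +kernel)
                (CovZ.leaf K2_ok TB_l27249 _)
                (CovZ.leaf K2_ok TB_l27250 _)))
              (CovZ.n1 (-15384, 15432) (by decide +kernel)
               (CovZ.n2 (-15360, 15432) (by decide +kernel)
                (CovZ.leaf K2_ok TB_l27251 _)
                (CovZ.leaf K2_ok TB_l27252 _))
               (CovZ.n1 (-15384, 15408) (by decide +kernel)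
                (CovZ.leaf K2_ok TB_l27253 _)
                (CovZ.leaf K2_ok TB_l27254 _)))))
            (CovZ.n1 (-15408, 15504) (by decide +kernel)
             (CovZ.n2 (-15360, 15504) (by decide +kernel)
              (CovZ.n2 (-15384, 15480) (by decide +kernel)
               (CovZ.n2 (-15384, 15504) (by decide +kernel)
                (CovZ.leaf K2_ok TB_l27255 _)
                (CovZ.leaf K2_ok TB_l27256 _))
               (CovZ.n1 (-15360, 15480) (by decide +kernel)
                (CovZ.leaf K2_ok TB_l27257 _)
                (CovZ.leaf K2_ok TB_l27258 _)))
              (CovZ.n1 (-15384, 15528) (by decide +kernel)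
               (CovZ.leaf K2_ok TB_l27259 _)
               (CovZ.n1 (-15384, 15504) (by decide +kernel)
                (CovZ.leaf K2_ok TB_l27260 _)
                (CovZ.leaf K2_ok TB_l27261 _))))
             (CovZ.n1 (-15408, 15456) (by decide +kernel)
              (CovZ.n2 (-15432, 15480) (by decide +kernel)
               (CovZ.leaf K2_ok TB_l27262 _)
               (CovZ.leaf K2_ok TB_l27263 _))
              (CovZ.n1 (-15384, 15480) (by decide +kernel)
               (CovZ.n2 (-15384, 15456) (by decide +kernel)
                (CovZ.leaf K2_ok TB_l27264 _)
                (CovZ.leaf K2_ok TB_l27265 _))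
               (CovZ.leaf K2_ok TB_l27266 _)))))))
         (CovZ.n1 (-15456, 15648) (by decide +kernel)
          (CovZ.n2 (-15360, 15648) (by decide +kernel)
           (CovZ.n2 (-15408, 15600) (by decide +kernel)
            (CovZ.n2 (-15408, 15648) (by decide +kernel)
             (CovZ.n2 (-15384, 15624) (by decide +kernel)
              (CovZ.leaf K2_ok TB_l27267 _)
              (CovZ.leaf K2_ok TB_l27268 _))
             (CovZ.n1 (-15432, 15624) (by decide +kernel)
              (CovZ.leaf K2_ok TB_l27269 _)
              (CovZ.leaf K2_ok TB_l27270 _)))
            (CovZ.subM 21662143041287656644365848489524193895018279255638057631219132805551513026661556843469192756858256351877609212115823764466303808 (by decide +kernel)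
             (CovZ.n1 (-15360, 15600) (by decide +kernel)
              (CovZ.n2 (-15384, 15576) (by decide +kernel)
               (CovZ.leaf K2_ok TB_l27271 _)
               (CovZ.leaf K2_ok TB_l27272 _))
              (CovZ.n1 (-15384, 15624) (by decide +kernel)
               (CovZ.leaf K2_ok TB_l27273 _)
               (CovZ.leaf K2_ok TB_l27274 _)))))
           (CovZ.n1 (-15408, 15696) (by decide +kernel)
            (CovZ.n2 (-15360, 15696) (by decide +kernel)
             (CovZ.n2 (-15384, 15672) (by decide +kernel)
              (CovZ.n2 (-15384, 15696) (by decide +kernel)
               (CovZ.leaf K2_ok TB_l27275 _)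
               (CovZ.leaf K2_ok TB_l27276 _))
              (CovZ.leaf K2_ok TB_l27277 _))
             (CovZ.n1 (-15384, 15720) (by decide +kernel)
              (CovZ.leaf K2_ok TB_l27278 _)
              (CovZ.leaf K2_ok TB_l27279 _)))
            (CovZ.n1 (-15408, 15648) (by decide +kernel)
             (CovZ.n2 (-15432, 15672) (by decide +kernel)
              (CovZ.leaf K2_ok TB_l27280 _)
              (CovZ.leaf K2_ok TB_l27281 _))
             (CovZ.n1 (-15384, 15672) (by decide +kernel)
              (CovZ.leaf K2_ok TB_l27282 _)
              (CovZ.leaf K2_ok TB_l27283 _)))))
          (CovZ.n1 (-15456, 15552) (by decide +kernel)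
           (CovZ.n2 (-15504, 15600) (by decide +kernel)
            (CovZ.n2 (-15456, 15600) (by decide +kernel)
             (CovZ.leaf K2_ok TB_l27284 _)
             (CovZ.n1 (-15480, 15624) (by decide +kernel)
              (CovZ.leaf K2_ok TB_l27285 _)
              (CovZ.leaf K2_ok TB_l27286 _)))
            (CovZ.n1 (-15504, 15552) (by decide +kernel)
             (CovZ.leaf K2_ok TB_l27287 _)
             (CovZ.leaf K2_ok TB_l27288 _)))
           (CovZ.n1 (-15408, 15600) (by decide +kernel)
            (CovZ.subM 21662143041287656644365848489524193895018279255638057631219132805551513026661556843469192756858256351877609221339230985693168448 (by decide +kernel)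
             (CovZ.n2 (-15408, 15552) (by decide +kernel)
              (CovZ.n2 (-15432, 15576) (by decide +kernel)
               (CovZ.leaf K2_ok TB_l27289 _)
               (CovZ.leaf K2_ok TB_l27290 _))
              (CovZ.n1 (-15384, 15576) (by decide +kernel)
               (CovZ.n2 (-15384, 15552) (by decide +kernel)
                (CovZ.leaf K2_ok TB_l27291 _)
                (CovZ.leaf K2_ok TB_l27292 _))
               (CovZ.leaf K2_ok TB_l27293 _))))
            (CovZ.n1 (-15456, 15600) (by decide +kernel)
             (CovZ.leaf K2_ok TB_l27294 _)
             (CovZ.n1 (-15432, 15576) (by decide +kernel)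
              (CovZ.leaf K2_ok TB_l27295 _)
              (CovZ.leaf K2_ok TB_l27296 _))))))))

theorem TB_u374 : CovZ TB_M (toL (selN TB_LN 21662143041287659049273462208908388356174160084278763128957841492648825873060931511515760567715230625033562063828461597585736528)) [0, 7, 6, 1] (-15360, 15744) (-15360, 16128) (-15744, 15744) :=
    (CovZ.n1 (-15552, 15936) (by decide +kernel)
        (CovZ.n2 (-15360, 15936) (by decide +kernel)
         (CovZ.n2 (-15456, 15840) (by decide +kernel)
          (CovZ.n2 (-15456, 15936) (by decide +kernel)
           (CovZ.n2 (-15408, 15888) (by decide +kernel)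
            (CovZ.n2 (-15456, 15888) (by decide +kernel)
             (CovZ.leaf K2_ok TB_l27297 _)
             (CovZ.leaf K2_ok TB_l27298 _))
            (CovZ.n1 (-15408, 15936) (by decide +kernel)
             (CovZ.leaf K2_ok TB_l27299 _)
             (CovZ.leaf K2_ok TB_l27300 _)))
           (CovZ.n1 (-15504, 15888) (by decide +kernel)
            (CovZ.n2 (-15504, 15936) (by decide +kernel)
             (CovZ.leaf K2_ok TB_l27301 _)
             (CovZ.leaf K2_ok TB_l27302 _))
            (CovZ.n1 (-15456, 15888) (by decide +kernel)
             (CovZ.leaf K2_ok TB_l27303 _)
             (CovZ.leaf K2_ok TB_l27304 _))))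
          (CovZ.n1 (-15360, 15840) (by decide +kernel)
           (CovZ.n2 (-15408, 15792) (by decide +kernel)
            (CovZ.n2 (-15408, 15840) (by decide +kernel)
             (CovZ.n2 (-15384, 15816) (by decide +kernel)
              (CovZ.leaf K2_ok TB_l27305 _)
              (CovZ.leaf K2_ok TB_l27306 _))
             (CovZ.leaf K2_ok TB_l27307 _))
            (CovZ.n1 (-15360, 15792) (by decide +kernel)
             (CovZ.n2 (-15384, 15768) (by decide +kernel)
              (CovZ.leaf K2_ok TB_l27308 _)
              (CovZ.leaf K2_ok TB_l27309 _))
             (CovZ.n1 (-15384, 15816) (by decide +kernel)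
              (CovZ.leaf K2_ok TB_l27310 _)
              (CovZ.leaf K2_ok TB_l27311 _))))
           (CovZ.n1 (-15408, 15888) (by decide +kernel)
            (CovZ.n2 (-15360, 15888) (by decide +kernel)
             (CovZ.leaf K2_ok TB_l27312 _)
             (CovZ.leaf K2_ok TB_l27313 _))
            (CovZ.n1 (-15408, 15840) (by decide +kernel)
             (CovZ.leaf K2_ok TB_l27314 _)
             (CovZ.n1 (-15384, 15864) (by decide +kernel)
              (CovZ.leaf K2_ok TB_l27315 _)
              (CovZ.leaf K2_ok TB_l27316 _))))))
         (CovZ.n1 (-15456, 16032) (by decide +kernel)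
          (CovZ.n2 (-15360, 16032) (by decide +kernel)
           (CovZ.n2 (-15408, 15984) (by decide +kernel)
            (CovZ.n2 (-15408, 16032) (by decide +kernel)
             (CovZ.leaf K2_ok TB_l27317 _)
             (CovZ.leaf K2_ok TB_l27318 _))
            (CovZ.n1 (-15360, 15984) (by decide +kernel)
             (CovZ.leaf K2_ok TB_l27319 _)
             (CovZ.leaf K2_ok TB_l27320 _)))
           (CovZ.n1 (-15408, 16080) (by decide +kernel)
            (CovZ.n2 (-15360, 16080) (by decide +kernel)
             (CovZ.leaf K2_ok TB_l27321 _)
             (CovZ.leaf K2_ok TB_l27322 _))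
            (CovZ.n1 (-15408, 16032) (by decide +kernel)
             (CovZ.leaf K2_ok TB_l27323 _)
             (CovZ.leaf K2_ok TB_l27324 _))))
          (CovZ.n1 (-15456, 15936) (by decide +kernel)
           (CovZ.n2 (-15504, 15984) (by decide +kernel)
            (CovZ.n2 (-15456, 15984) (by decide +kernel)
             (CovZ.leaf K2_ok TB_l27325 _)
             (CovZ.leaf K2_ok TB_l27326 _))
            (CovZ.n1 (-15504, 15936) (by decide +kernel)
             (CovZ.leaf K2_ok TB_l27327 _)
             (CovZ.leaf K2_ok TB_l27328 _)))
           (CovZ.n1 (-15408, 15984) (by decide +kernel)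
            (CovZ.n2 (-15408, 15936) (by decide +kernel)
             (CovZ.leaf K2_ok TB_l27329 _)
             (CovZ.leaf K2_ok TB_l27330 _))
            (CovZ.n1 (-15456, 15984) (by decide +kernel)
             (CovZ.leaf K2_ok TB_l27331 _)
             (CovZ.leaf K2_ok TB_l27332 _))))))
        (CovZ.n1 (-15552, 15744) (by decide +kernel)
         (CovZ.n2 (-15648, 15840) (by decide +kernel)
          (CovZ.n2 (-15552, 15840) (by decide +kernel)
           (CovZ.n2 (-15600, 15792) (by decide +kernel)
            (CovZ.n2 (-15600, 15840) (by decide +kernel)
             (CovZ.leaf K2_ok TB_l27333 _)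
             (CovZ.leaf K2_ok TB_l27334 _))
            (CovZ.leaf K2_ok TB_l27335 _))
           (CovZ.n1 (-15600, 15888) (by decide +kernel)
            (CovZ.leaf K2_ok TB_l27336 _)
            (CovZ.leaf K2_ok TB_l27337 _)))
          (CovZ.n1 (-15648, 15744) (by decide +kernel)
           (CovZ.n2 (-15696, 15792) (by decide +kernel)
            (CovZ.leaf K2_ok TB_l27338 _)
            (CovZ.leaf K2_ok TB_l27339 _))
           (CovZ.n1 (-15600, 15792) (by decide +kernel)
            (CovZ.n2 (-15600, 15744) (by decide +kernel)
             (CovZ.leaf K2_ok TB_l27340 _)
             (CovZ.leaf K2_ok TB_l27341 _))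
            (CovZ.leaf K2_ok TB_l27342 _))))
         (CovZ.n1 (-15456, 15840) (by decide +kernel)
          (CovZ.n2 (-15456, 15744) (by decide +kernel)
           (CovZ.n2 (-15504, 15792) (by decide +kernel)
            (CovZ.n2 (-15456, 15792) (by decide +kernel)
             (CovZ.leaf K2_ok TB_l27343 _)
             (CovZ.leaf K2_ok TB_l27344 _))
            (CovZ.n1 (-15504, 15744) (by decide +kernel)
             (CovZ.leaf K2_ok TB_l27345 _)
             (CovZ.leaf K2_ok TB_l27346 _)))
           (CovZ.n1 (-15408, 15792) (by decide +kernel)
            (CovZ.n2 (-15408, 15744) (by decide +kernel)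
             (CovZ.leaf K2_ok TB_l27347 _)
             (CovZ.leaf K2_ok TB_l27348 _))
            (CovZ.n1 (-15456, 15792) (by decide +kernel)
             (CovZ.leaf K2_ok TB_l27349 _)
             (CovZ.n1 (-15432, 15768) (by decide +kernel)
              (CovZ.leaf K2_ok TB_l27350 _)
              (CovZ.leaf K2_ok TB_l27351 _)))))
          (CovZ.n1 (-15552, 15840) (by decide +kernel)
           (CovZ.n2 (-15504, 15888) (by decide +kernel)
            (CovZ.n2 (-15504, 15840) (by decide +kernel)
             (CovZ.leaf K2_ok TB_l27352 _)
             (CovZ.leaf K2_ok TB_l27353 _))
            (CovZ.leaf K2_ok TB_l27354 _))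
           (CovZ.n1 (-15504, 15792) (by decide +kernel)
            (CovZ.n2 (-15552, 15792) (by decide +kernel)
             (CovZ.leaf K2_ok TB_l27355 _)
             (CovZ.leaf K2_ok TB_l27356 _))
            (CovZ.n1 (-15504, 15840) (by decide +kernel)
             (CovZ.leaf K2_ok TB_l27357 _)
             (CovZ.leaf K2_ok TB_l27358 _)))))))

theorem TB_u375 : CovZ TB_M (toL (selN TB_LN 21662143041287659049273462208908388356174160084278763128957841492648825873060931511515760567715230625033562063828461597585736528)) [0, 7, 6, 1] (-15360, 15360) (-15360, 16128) (-16128, 16128) :=
    (CovZ.n2 (-15744, 15744) (by decide +kernel)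
      (CovZ.n2 (-15744, 16128) (by decide +kernel)
       (CovZ.n2 (-15552, 15936) (by decide +kernel)
        (CovZ.n2 (-15744, 15936) (by decide +kernel)
         (CovZ.n2 (-15648, 16032) (by decide +kernel)
          (CovZ.n2 (-15648, 15936) (by decide +kernel)
           (CovZ.n2 (-15696, 15984) (by decide +kernel)
            (CovZ.leaf K2_ok TB_l27138 _)
            (CovZ.leaf K2_ok TB_l27139 _))
           (CovZ.n1 (-15600, 15984) (by decide +kernel)
            (CovZ.leaf K2_ok TB_l27140 _)
            (CovZ.leaf K2_ok TB_l27141 _)))
          (CovZ.n1 (-15744, 16032) (by decide +kernel)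
           (CovZ.leaf K2_ok TB_l27142 _)
           (CovZ.n1 (-15696, 15984) (by decide +kernel)
            (CovZ.leaf K2_ok TB_l27143 _)
            (CovZ.leaf K2_ok TB_l27144 _))))
         (CovZ.n1 (-15648, 15840) (by decide +kernel)
          (CovZ.n2 (-15744, 15840) (by decide +kernel)
           (CovZ.n2 (-15696, 15888) (by decide +kernel)
            (CovZ.leaf K2_ok TB_l27145 _)
            (CovZ.leaf K2_ok TB_l27146 _))
           (CovZ.n1 (-15696, 15792) (by decide +kernel)
            (CovZ.leaf K2_ok TB_l27147 _)
            (CovZ.leaf K2_ok TB_l27148 _)))
          (CovZ.n1 (-15648, 15936) (by decide +kernel)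
           (CovZ.n2 (-15600, 15888) (by decide +kernel)
            (CovZ.leaf K2_ok TB_l27149 _)
            (CovZ.n1 (-15600, 15936) (by decide +kernel)
             (CovZ.leaf K2_ok TB_l27150 _)
             (CovZ.leaf K2_ok TB_l27151 _)))
           (CovZ.n1 (-15696, 15888) (by decide +kernel)
            (CovZ.leaf K2_ok TB_l27152 _)
            (CovZ.leaf K2_ok TB_l27153 _)))))
        (CovZ.n1 (-15552, 16128) (by decide +kernel)
         (CovZ.n2 (-15456, 16032) (by decide +kernel)
          (CovZ.n2 (-15552, 16032) (by decide +kernel)
           (CovZ.n2 (-15504, 16080) (by decide +kernel)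
            (CovZ.n2 (-15504, 16032) (by decide +kernel)
             (CovZ.leaf K2_ok TB_l27154 _)
             (CovZ.leaf K2_ok TB_l27155 _))
            (CovZ.leaf K2_ok TB_l27156 _))
           (CovZ.n1 (-15504, 15984) (by decide +kernel)
            (CovZ.leaf K2_ok TB_l27157 _)
            (CovZ.n1 (-15504, 16032) (by decide +kernel)
             (CovZ.leaf K2_ok TB_l27158 _)
             (CovZ.leaf K2_ok TB_l27159 _))))
          (CovZ.n1 (-15456, 16128) (by decide +kernel)
           (CovZ.n2 (-15408, 16080) (by decide +kernel)
            (CovZ.leaf K2_ok TB_l27160 _)
            (CovZ.n1 (-15408, 16128) (by decide +kernel)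
             (CovZ.leaf K2_ok TB_l27161 _)
             (CovZ.leaf K2_ok TB_l27162 _)))
           (CovZ.n1 (-15504, 16080) (by decide +kernel)
            (CovZ.n2 (-15504, 16128) (by decide +kernel)
             (CovZ.leaf K2_ok TB_l27163 _)
             (CovZ.leaf K2_ok TB_l27164 _))
            (CovZ.leaf K2_ok TB_l27165 _))))
         (CovZ.n1 (-15648, 16032) (by decide +kernel)
          (CovZ.n2 (-15648, 16128) (by decide +kernel)
           (CovZ.n2 (-15600, 16080) (by decide +kernel)
            (CovZ.leaf K2_ok TB_l27166 _)
            (CovZ.leaf K2_ok TB_l27167 _))
           (CovZ.n1 (-15696, 16080) (by decide +kernel)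
            (CovZ.leaf K2_ok TB_l27168 _)
            (CovZ.leaf K2_ok TB_l27169 _)))
          (CovZ.n1 (-15552, 16032) (by decide +kernel)
           (CovZ.n2 (-15600, 15984) (by decide +kernel)
            (CovZ.n2 (-15600, 16032) (by decide +kernel)
             (CovZ.leaf K2_ok TB_l27170 _)
             (CovZ.leaf K2_ok TB_l27171 _))
            (CovZ.leaf K2_ok TB_l27172 _))
           (CovZ.n1 (-15600, 16080) (by decide +kernel)
            (CovZ.leaf K2_ok TB_l27173 _)
            (CovZ.leaf K2_ok TB_l27174 _))))))
       (CovZ.n1 (-15936, 15936) (by decide +kernel)
        (CovZ.n2 (-15936, 16128) (by decide +kernel)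
         (CovZ.n2 (-15840, 16032) (by decide +kernel)
          (CovZ.n2 (-15936, 16032) (by decide +kernel)
           (CovZ.leaf K2_ok TB_l27175 _)
           (CovZ.leaf K2_ok TB_l27176 _))
          (CovZ.n1 (-15840, 16128) (by decide +kernel)
           (CovZ.leaf K2_ok TB_l27177 _)
           (CovZ.leaf K2_ok TB_l27178 _)))
         (CovZ.subM 305310535760598319690817628855675275114383528508692166541528094803609800465941673347978771779542897661462053456 (by decide +kernel)
          (CovZ.n1 (-16032, 16032) (by decide +kernel)
           (CovZ.n2 (-16032, 16128) (by decide +kernel)
            (CovZ.leaf K2_ok TB_l27179 _)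
            (CovZ.leaf K2_ok TB_l27180 _))
           (CovZ.n1 (-15936, 16032) (by decide +kernel)
            (CovZ.leaf K2_ok TB_l27181 _)
            (CovZ.leaf K2_ok TB_l27182 _)))))
        (CovZ.n1 (-15744, 15936) (by decide +kernel)
         (CovZ.n2 (-15840, 15840) (by decide +kernel)
          (CovZ.n2 (-15840, 15936) (by decide +kernel)
           (CovZ.n2 (-15792, 15888) (by decide +kernel)
            (CovZ.leaf K2_ok TB_l27183 _)
            (CovZ.leaf K2_ok TB_l27184 _))
           (CovZ.leaf K2_ok TB_l27185 _))
          (CovZ.n1 (-15744, 15840) (by decide +kernel)
           (CovZ.n2 (-15792, 15792) (by decide +kernel)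
            (CovZ.leaf K2_ok TB_l27186 _)
            (CovZ.leaf K2_ok TB_l27187 _))
           (CovZ.leaf K2_ok TB_l27188 _)))
         (CovZ.n1 (-15840, 16032) (by decide +kernel)
          (CovZ.n2 (-15744, 16032) (by decide +kernel)
           (CovZ.leaf K2_ok TB_l27189 _)
           (CovZ.leaf K2_ok TB_l27190 _))
          (CovZ.n1 (-15840, 15936) (by decide +kernel)
           (CovZ.leaf K2_ok TB_l27191 _)
           (CovZ.leaf K2_ok TB_l27192 _))))))
      (CovZ.n1 (-15360, 15744) (by decide +kernel)
       TB_u373
       TB_u374))

theorem TB_u376 : CovZ TB_M (toL (selN TB_LN 21662143041287659049273462208908388356174160084278763128957841492648825873060931511515760567715230625033562063828461597585736528)) [0, 7, 6, 1] (-15360, 16128) (-15360, 16896) (-16128, 16128) :=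
    (CovZ.n1 (-15744, 16512) (by decide +kernel)
      (CovZ.n2 (-15360, 16512) (by decide +kernel)
       (CovZ.n2 (-15552, 16320) (by decide +kernel)
        (CovZ.n2 (-15552, 16512) (by decide +kernel)
         (CovZ.n2 (-15456, 16416) (by decide +kernel)
          (CovZ.n2 (-15552, 16416) (by decide +kernel)
           (CovZ.n2 (-15504, 16464) (by decide +kernel)
            (CovZ.leaf K2_ok TB_l27359 _)
            (CovZ.leaf K2_ok TB_l27360 _))
           (CovZ.n1 (-15504, 16368) (by decide +kernel)
            (CovZ.leaf K2_ok TB_l27361 _)
            (CovZ.leaf K2_ok TB_l27362 _)))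
          (CovZ.n1 (-15456, 16512) (by decide +kernel)
           (CovZ.n2 (-15408, 16464) (by decide +kernel)
            (CovZ.leaf K2_ok TB_l27363 _)
            (CovZ.n1 (-15408, 16512) (by decide +kernel)
             (CovZ.leaf K2_ok TB_l27364 _)
             (CovZ.leaf K2_ok TB_l27365 _)))
           (CovZ.n1 (-15504, 16464) (by decide +kernel)
            (CovZ.leaf K2_ok TB_l27366 _)
            (CovZ.leaf K2_ok TB_l27367 _))))
         (CovZ.n1 (-15648, 16416) (by decide +kernel)
          (CovZ.n2 (-15648, 16512) (by decide +kernel)
           (CovZ.leaf K2_ok TB_l27368 _)
           (CovZ.leaf K2_ok TB_l27369 _))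
          (CovZ.n1 (-15552, 16416) (by decide +kernel)
           (CovZ.n2 (-15600, 16368) (by decide +kernel)
            (CovZ.leaf K2_ok TB_l27370 _)
            (CovZ.leaf K2_ok TB_l27371 _))
           (CovZ.leaf K2_ok TB_l27372 _))))
        (CovZ.n1 (-15360, 16320) (by decide +kernel)
         (CovZ.n2 (-15456, 16224) (by decide +kernel)
          (CovZ.n2 (-15456, 16320) (by decide +kernel)
           (CovZ.n2 (-15408, 16272) (by decide +kernel)
            (CovZ.leaf K2_ok TB_l27373 _)
            (CovZ.n1 (-15408, 16320) (by decide +kernel)
             (CovZ.leaf K2_ok TB_l27374 _)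
             (CovZ.leaf K2_ok TB_l27375 _)))
           (CovZ.n1 (-15504, 16272) (by decide +kernel)
            (CovZ.leaf K2_ok TB_l27376 _)
            (CovZ.leaf K2_ok TB_l27377 _)))
          (CovZ.n1 (-15360, 16224) (by decide +kernel)
           (CovZ.n2 (-15408, 16176) (by decide +kernel)
            (CovZ.n2 (-15408, 16224) (by decide +kernel)
             (CovZ.leaf K2_ok TB_l27378 _)
             (CovZ.leaf K2_ok TB_l27379 _))
            (CovZ.n1 (-15360, 16176) (by decide +kernel)
             (CovZ.leaf K2_ok TB_l27380 _)
             (CovZ.leaf K2_ok TB_l27381 _)))
           (CovZ.n1 (-15408, 16272) (by decide +kernel)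
            (CovZ.n2 (-15360, 16272) (by decide +kernel)
             (CovZ.leaf K2_ok TB_l27382 _)
             (CovZ.leaf K2_ok TB_l27383 _))
            (CovZ.n1 (-15408, 16224) (by decide +kernel)
             (CovZ.leaf K2_ok TB_l27384 _)
             (CovZ.leaf K2_ok TB_l27385 _)))))
         (CovZ.n1 (-15456, 16416) (by decide +kernel)
          (CovZ.n2 (-15360, 16416) (by decide +kernel)
           (CovZ.n2 (-15408, 16368) (by decide +kernel)
            (CovZ.n2 (-15408, 16416) (by decide +kernel)
             (CovZ.leaf K2_ok TB_l27386 _)
             (CovZ.leaf K2_ok TB_l27387 _))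
            (CovZ.leaf K2_ok TB_l27388 _))
           (CovZ.n1 (-15408, 16464) (by decide +kernel)
            (CovZ.leaf K2_ok TB_l27389 _)
            (CovZ.leaf K2_ok TB_l27390 _)))
          (CovZ.n1 (-15456, 16320) (by decide +kernel)
           (CovZ.n2 (-15504, 16368) (by decide +kernel)
            (CovZ.leaf K2_ok TB_l27391 _)
            (CovZ.leaf K2_ok TB_l27392 _))
           (CovZ.n1 (-15408, 16368) (by decide +kernel)
            (CovZ.n2 (-15408, 16320) (by decide +kernel)
             (CovZ.leaf K2_ok TB_l27393 _)
             (CovZ.leaf K2_ok TB_l27394 _))
            (CovZ.leaf K2_ok TB_l27395 _))))))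
       (CovZ.n1 (-15552, 16704) (by decide +kernel)
        (CovZ.n2 (-15360, 16704) (by decide +kernel)
         (CovZ.n2 (-15456, 16608) (by decide +kernel)
          (CovZ.n2 (-15456, 16704) (by decide +kernel)
           (CovZ.n2 (-15408, 16656) (by decide +kernel)
            (CovZ.leaf K2_ok TB_l27396 _)
            (CovZ.leaf K2_ok TB_l27397 _))
           (CovZ.n1 (-15504, 16656) (by decide +kernel)
            (CovZ.leaf K2_ok TB_l27398 _)
            (CovZ.leaf K2_ok TB_l27399 _)))
          (CovZ.n1 (-15360, 16608) (by decide +kernel)
           (CovZ.n2 (-15408, 16560) (by decide +kernel)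
            (CovZ.leaf K2_ok TB_l27400 _)
            (CovZ.leaf K2_ok TB_l27401 _))
           (CovZ.n1 (-15408, 16656) (by decide +kernel)
            (CovZ.leaf K2_ok TB_l27402 _)
            (CovZ.leaf K2_ok TB_l27403 _))))
         (CovZ.n1 (-15456, 16800) (by decide +kernel)
          (CovZ.n2 (-15360, 16800) (by decide +kernel)
           (CovZ.n2 (-15408, 16752) (by decide +kernel)
            (CovZ.leaf K2_ok TB_l27404 _)
            (CovZ.leaf K2_ok TB_l27405 _))
           (CovZ.n1 (-15408, 16848) (by decide +kernel)
            (CovZ.leaf K2_ok TB_l27406 _)
            (CovZ.leaf K2_ok TB_l27407 _)))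
          (CovZ.n1 (-15456, 16704) (by decide +kernel)
           (CovZ.n2 (-15504, 16752) (by decide +kernel)
            (CovZ.leaf K2_ok TB_l27408 _)
            (CovZ.leaf K2_ok TB_l27409 _))
           (CovZ.n1 (-15408, 16752) (by decide +kernel)
            (CovZ.leaf K2_ok TB_l27410 _)
            (CovZ.leaf K2_ok TB_l27411 _)))))
        (CovZ.n1 (-15552, 16512) (by decide +kernel)
         (CovZ.n2 (-15648, 16608) (by decide +kernel)
          (CovZ.n2 (-15552, 16608) (by decide +kernel)
           (CovZ.leaf K2_ok TB_l27412 _)
           (CovZ.leaf K2_ok TB_l27413 _))
          (CovZ.n1 (-15648, 16512) (by decide +kernel)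
           (CovZ.leaf K2_ok TB_l27414 _)
           (CovZ.leaf K2_ok TB_l27415 _)))
         (CovZ.n1 (-15456, 16608) (by decide +kernel)
          (CovZ.n2 (-15456, 16512) (by decide +kernel)
           (CovZ.n2 (-15504, 16560) (by decide +kernel)
            (CovZ.leaf K2_ok TB_l27416 _)
            (CovZ.leaf K2_ok TB_l27417 _))
           (CovZ.n1 (-15408, 16560) (by decide +kernel)
            (CovZ.leaf K2_ok TB_l27418 _)
            (CovZ.leaf K2_ok TB_l27419 _)))
          (CovZ.n1 (-15552, 16608) (by decide +kernel)
           (CovZ.leaf K2_ok TB_l27420 _)
           (CovZ.n1 (-15504, 16560) (by decide +kernel)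
            (CovZ.leaf K2_ok TB_l27421 _)
            (CovZ.leaf K2_ok TB_l27422 _)))))))
      (CovZ.n1 (-15744, 16128) (by decide +kernel)
       (CovZ.n2 (-15936, 16320) (by decide +kernel)
        (CovZ.n2 (-15744, 16320) (by decide +kernel)
         (CovZ.n2 (-15840, 16224) (by decide +kernel)
          (CovZ.n2 (-15840, 16320) (by decide +kernel)
           (CovZ.leaf K2_ok TB_l27423 _)
           (CovZ.leaf K2_ok TB_l27424 _))
          (CovZ.n1 (-15744, 16224) (by decide +kernel)
           (CovZ.leaf K2_ok TB_l27425 _)
           (CovZ.leaf K2_ok TB_l27426 _)))
         (CovZ.n1 (-15840, 16416) (by decide +kernel)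
          (CovZ.n2 (-15744, 16416) (by decide +kernel)
           (CovZ.leaf K2_ok TB_l27427 _)
           (CovZ.leaf K2_ok TB_l27428 _))
          (CovZ.n1 (-15840, 16320) (by decide +kernel)
           (CovZ.leaf K2_ok TB_l27429 _)
           (CovZ.leaf K2_ok TB_l27430 _))))
        (CovZ.n1 (-15936, 16128) (by decide +kernel)
         (CovZ.subM 305310535760598319690817628855675275114383528508692166541528094803609800465941673347978771779542897661462053456 (by decide +kernel)
          (CovZ.n2 (-16032, 16224) (by decide +kernel)
           (CovZ.n2 (-15936, 16224) (by decide +kernel)
            (CovZ.leaf K2_ok TB_l27431 _)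
            (CovZ.leaf K2_ok TB_l27432 _))
           (CovZ.n1 (-16032, 16128) (by decide +kernel)
            (CovZ.leaf K2_ok TB_l27433 _)
            (CovZ.leaf K2_ok TB_l27434 _))))
         (CovZ.n1 (-15840, 16224) (by decide +kernel)
          (CovZ.n2 (-15840, 16128) (by decide +kernel)
           (CovZ.leaf K2_ok TB_l27435 _)
           (CovZ.leaf K2_ok TB_l27436 _))
          (CovZ.n1 (-15936, 16224) (by decide +kernel)
           (CovZ.leaf K2_ok TB_l27437 _)
           (CovZ.leaf K2_ok TB_l27438 _)))))
       (CovZ.n1 (-15552, 16320) (by decide +kernel)
        (CovZ.n2 (-15552, 16128) (by decide +kernel)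
         (CovZ.n2 (-15648, 16224) (by decide +kernel)
          (CovZ.n2 (-15552, 16224) (by decide +kernel)
           (CovZ.n2 (-15600, 16176) (by decide +kernel)
            (CovZ.leaf K2_ok TB_l27439 _)
            (CovZ.leaf K2_ok TB_l27440 _))
           (CovZ.n1 (-15600, 16272) (by decide +kernel)
            (CovZ.leaf K2_ok TB_l27441 _)
            (CovZ.leaf K2_ok TB_l27442 _)))
          (CovZ.n1 (-15648, 16128) (by decide +kernel)
           (CovZ.n2 (-15696, 16176) (by decide +kernel)
            (CovZ.leaf K2_ok TB_l27443 _)
            (CovZ.leaf K2_ok TB_l27444 _))
           (CovZ.n1 (-15600, 16176) (by decide +kernel)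
            (CovZ.leaf K2_ok TB_l27445 _)
            (CovZ.leaf K2_ok TB_l27446 _))))
         (CovZ.n1 (-15456, 16224) (by decide +kernel)
          (CovZ.n2 (-15456, 16128) (by decide +kernel)
           (CovZ.n2 (-15504, 16176) (by decide +kernel)
            (CovZ.leaf K2_ok TB_l27447 _)
            (CovZ.leaf K2_ok TB_l27448 _))
           (CovZ.n1 (-15408, 16176) (by decide +kernel)
            (CovZ.n2 (-15408, 16128) (by decide +kernel)
             (CovZ.leaf K2_ok TB_l27449 _)
             (CovZ.leaf K2_ok TB_l27450 _))
            (CovZ.leaf K2_ok TB_l27451 _)))
          (CovZ.n1 (-15552, 16224) (by decide +kernel)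
           (CovZ.n2 (-15504, 16272) (by decide +kernel)
            (CovZ.leaf K2_ok TB_l27452 _)
            (CovZ.leaf K2_ok TB_l27453 _))
           (CovZ.n1 (-15504, 16176) (by decide +kernel)
            (CovZ.leaf K2_ok TB_l27454 _)
            (CovZ.n1 (-15504, 16224) (by decide +kernel)
             (CovZ.leaf K2_ok TB_l27455 _)
             (CovZ.leaf K2_ok TB_l27456 _))))))
        (CovZ.n1 (-15744, 16320) (by decide +kernel)
         (CovZ.n2 (-15648, 16416) (by decide +kernel)
          (CovZ.n2 (-15648, 16320) (by decide +kernel)
           (CovZ.leaf K2_ok TB_l27457 _)
           (CovZ.n1 (-15600, 16368) (by decide +kernel)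
            (CovZ.leaf K2_ok TB_l27458 _)
            (CovZ.leaf K2_ok TB_l27459 _)))
          (CovZ.n1 (-15744, 16416) (by decide +kernel)
           (CovZ.leaf K2_ok TB_l27460 _)
           (CovZ.leaf K2_ok TB_l27461 _)))
         (CovZ.n1 (-15648, 16224) (by decide +kernel)
          (CovZ.n2 (-15744, 16224) (by decide +kernel)
           (CovZ.leaf K2_ok TB_l27462 _)
           (CovZ.n1 (-15696, 16176) (by decide +kernel)
            (CovZ.leaf K2_ok TB_l27463 _)
            (CovZ.leaf K2_ok TB_l27464 _)))
          (CovZ.n1 (-15648, 16320) (by decide +kernel)
           (CovZ.n2 (-15600, 16272) (by decide +kernel)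
            (CovZ.leaf K2_ok TB_l27465 _)
            (CovZ.leaf K2_ok TB_l27466 _))
           (CovZ.leaf K2_ok TB_l27467 _)))))))

theorem TB_u377 : CovZ TB_M (toL (selN TB_LN 21662143041287659049273462208908388356174160084278763128957841492648825873060931511515760567715230625033562063828461597585736528)) [0, 7, 6, 1] (-16128, 15360) (-15744, 15360) (-15744, 15744) :=
    (CovZ.n2 (-15936, 15552) (by decide +kernel)
        (CovZ.n2 (-15744, 15552) (by decide +kernel)
         (CovZ.n2 (-15840, 15456) (by decide +kernel)
          (CovZ.n2 (-15840, 15552) (by decide +kernel)
           (CovZ.n2 (-15792, 15504) (by decide +kernel)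
            (CovZ.leaf K2_ok TB_l27559 _)
            (CovZ.n1 (-15792, 15552) (by decide +kernel)
             (CovZ.leaf K2_ok TB_l27560 _)
             (CovZ.leaf K2_ok TB_l27561 _)))
           (CovZ.subM 305310535760598319690817628825321073666284587505435238617118086065616017803265832630035096848902977376084951632 (by decide +kernel)
            (CovZ.n1 (-15888, 15504) (by decide +kernel)
             (CovZ.n2 (-15888, 15552) (by decide +kernel)
              (CovZ.leaf K2_ok TB_l27562 _)
              (CovZ.leaf K2_ok TB_l27563 _))
             (CovZ.n1 (-15840, 15504) (by decide +kernel)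
              (CovZ.leaf K2_ok TB_l27564 _)
              (CovZ.leaf K2_ok TB_l27565 _)))))
          (CovZ.subM 661055968790553909487675906352461857457230004037947503872154230513022906329221619750564934797982939205194517937384803402320 (by decide +kernel)
           (CovZ.n1 (-15744, 15456) (by decide +kernel)
            (CovZ.n2 (-15792, 15408) (by decide +kernel)
             (CovZ.n2 (-15792, 15456) (by decide +kernel)
              (CovZ.leaf K2_ok TB_l27566 _)
              (CovZ.leaf K2_ok TB_l27567 _))
             (CovZ.n1 (-15744, 15408) (by decide +kernel)
              (CovZ.leaf K2_ok TB_l27568 _)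
              (CovZ.leaf K2_ok TB_l27569 _)))
            (CovZ.n1 (-15792, 15504) (by decide +kernel)
             (CovZ.n2 (-15744, 15504) (by decide +kernel)
              (CovZ.leaf K2_ok TB_l27570 _)
              (CovZ.leaf K2_ok TB_l27571 _))
             (CovZ.n1 (-15792, 15456) (by decide +kernel)
              (CovZ.leaf K2_ok TB_l27572 _)
              (CovZ.leaf K2_ok TB_l27573 _))))))
         (CovZ.n1 (-15840, 15648) (by decide +kernel)
          (CovZ.n2 (-15744, 15648) (by decide +kernel)
           (CovZ.n2 (-15792, 15600) (by decide +kernel)
            (CovZ.n2 (-15792, 15648) (by decide +kernel)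
             (CovZ.leaf K2_ok TB_l27574 _)
             (CovZ.leaf K2_ok TB_l27575 _))
            (CovZ.leaf K2_ok TB_l27576 _))
           (CovZ.n1 (-15792, 15696) (by decide +kernel)
            (CovZ.leaf K2_ok TB_l27577 _)
            (CovZ.leaf K2_ok TB_l27578 _)))
          (CovZ.n1 (-15840, 15552) (by decide +kernel)
           (CovZ.n2 (-15888, 15600) (by decide +kernel)
            (CovZ.leaf K2_ok TB_l27579 _)
            (CovZ.n1 (-15888, 15552) (by decide +kernel)
             (CovZ.leaf K2_ok TB_l27580 _)
             (CovZ.leaf K2_ok TB_l27581 _)))
           (CovZ.n1 (-15792, 15600) (by decide +kernel)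
            (CovZ.n2 (-15792, 15552) (by decide +kernel)
             (CovZ.leaf K2_ok TB_l27582 _)
             (CovZ.leaf K2_ok TB_l27583 _))
            (CovZ.leaf K2_ok TB_l27584 _)))))
        (CovZ.n1 (-15936, 15360) (by decide +kernel)
         (CovZ.subM 305310535760598319690817628855675275107315277531285230185907592362709231088134795710522236904073907199312790096 (by decide +kernel)
          (CovZ.n2 (-16032, 15456) (by decide +kernel)
           (CovZ.n2 (-15936, 15456) (by decide +kernel)
            (CovZ.n2 (-15984, 15408) (by decide +kernel)
             (CovZ.n2 (-15984, 15456) (by decide +kernel)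
              (CovZ.leaf K2_ok TB_l27585 _)
              (CovZ.leaf K2_ok TB_l27586 _))
             (CovZ.n1 (-15936, 15408) (by decide +kernel)
              (CovZ.leaf K2_ok TB_l27587 _)
              (CovZ.leaf K2_ok TB_l27588 _)))
            (CovZ.n1 (-15984, 15504) (by decide +kernel)
             (CovZ.leaf K2_ok TB_l27589 _)
             (CovZ.n1 (-15984, 15456) (by decide +kernel)
              (CovZ.leaf K2_ok TB_l27590 _)
              (CovZ.leaf K2_ok TB_l27591 _))))
           (CovZ.n1 (-16032, 15360) (by decide +kernel)
            (CovZ.n2 (-16080, 15408) (by decide +kernel)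
             (CovZ.n2 (-16032, 15408) (by decide +kernel)
              (CovZ.leaf K2_ok TB_l27592 _)
              (CovZ.leaf K2_ok TB_l27593 _))
             (CovZ.n1 (-16080, 15360) (by decide +kernel)
              (CovZ.leaf K2_ok TB_l27594 _)
              (CovZ.leaf K2_ok TB_l27595 _)))
            (CovZ.n1 (-15984, 15408) (by decide +kernel)
             (CovZ.n2 (-15984, 15360) (by decide +kernel)
              (CovZ.leaf K2_ok TB_l27596 _)
              (CovZ.leaf K2_ok TB_l27597 _))
             (CovZ.leaf K2_ok TB_l27598 _)))))
         (CovZ.subM 661055968790553909487675906352461857457230004037947503872154230513022909322376973004254111279126999519137751817555946898000 (by decide +kernel)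
          (CovZ.n1 (-15840, 15456) (by decide +kernel)
           (CovZ.n2 (-15840, 15360) (by decide +kernel)
            (CovZ.n2 (-15888, 15408) (by decide +kernel)
             (CovZ.n2 (-15840, 15408) (by decide +kernel)
              (CovZ.leaf K2_ok TB_l27599 _)
              (CovZ.leaf K2_ok TB_l27600 _))
             (CovZ.n1 (-15888, 15360) (by decide +kernel)
              (CovZ.leaf K2_ok TB_l27601 _)
              (CovZ.leaf K2_ok TB_l27602 _)))
            (CovZ.n1 (-15792, 15408) (by decide +kernel)
             (CovZ.n2 (-15792, 15360) (by decide +kernel)
              (CovZ.leaf K2_ok TB_l27603 _)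
              (CovZ.leaf K2_ok TB_l27604 _))
             (CovZ.n1 (-15840, 15408) (by decide +kernel)
              (CovZ.leaf K2_ok TB_l27605 _)
              (CovZ.leaf K2_ok TB_l27606 _))))
           (CovZ.n1 (-15936, 15456) (by decide +kernel)
            (CovZ.n2 (-15888, 15504) (by decide +kernel)
             (CovZ.n2 (-15888, 15456) (by decide +kernel)
              (CovZ.leaf K2_ok TB_l27607 _)
              (CovZ.leaf K2_ok TB_l27608 _))
             (CovZ.leaf K2_ok TB_l27609 _))
            (CovZ.n1 (-15888, 15408) (by decide +kernel)
             (CovZ.n2 (-15936, 15408) (by decide +kernel)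
              (CovZ.leaf K2_ok TB_l27610 _)
              (CovZ.leaf K2_ok TB_l27611 _))
             (CovZ.n1 (-15888, 15456) (by decide +kernel)
              (CovZ.leaf K2_ok TB_l27612 _)
              (CovZ.leaf K2_ok TB_l27613 _))))))))

theorem TB_u378 : CovZ TB_M (toL (selN TB_LN 21662143041287659049273462208908388356174160084278763128957841492648825873060931511515760567715230625033562063828461597585736528)) [0, 7, 6, 1] (-15744, 15360) (-15360, 15360) (-15744, 15744) :=
    (CovZ.n1 (-15552, 15552) (by decide +kernel)
        (CovZ.n2 (-15552, 15360) (by decide +kernel)
         (CovZ.n2 (-15648, 15456) (by decide +kernel)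
          (CovZ.subM 661055968790553909487675906352461857457230004037947503872154230563239720212315065164352967921859158313701433231490815099728 (by decide +kernel)
           (CovZ.n2 (-15552, 15456) (by decide +kernel)
            (CovZ.n2 (-15600, 15408) (by decide +kernel)
             (CovZ.n2 (-15600, 15456) (by decide +kernel)
              (CovZ.n2 (-15576, 15432) (by decide +kernel)
               (CovZ.leaf K2_ok TB_l27614 _)
               (CovZ.leaf K2_ok TB_l27615 _))
              (CovZ.n1 (-15624, 15432) (by decide +kernel)
               (CovZ.leaf K2_ok TB_l27616 _)
               (CovZ.leaf K2_ok TB_l27617 _)))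
             (CovZ.n1 (-15552, 15408) (by decide +kernel)
              (CovZ.n2 (-15576, 15384) (by decide +kernel)
               (CovZ.leaf K2_ok TB_l27618 _)
               (CovZ.leaf K2_ok TB_l27619 _))
              (CovZ.n1 (-15576, 15432) (by decide +kernel)
               (CovZ.leaf K2_ok TB_l27620 _)
               (CovZ.leaf K2_ok TB_l27621 _))))
            (CovZ.n1 (-15600, 15504) (by decide +kernel)
             (CovZ.n2 (-15552, 15504) (by decide +kernel)
              (CovZ.n2 (-15576, 15480) (by decide +kernel)
               (CovZ.leaf K2_ok TB_l27622 _)
               (CovZ.leaf K2_ok TB_l27623 _))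
              (CovZ.leaf K2_ok TB_l27624 _))
             (CovZ.n1 (-15600, 15456) (by decide +kernel)
              (CovZ.leaf K2_ok TB_l27625 _)
              (CovZ.leaf K2_ok TB_l27626 _)))))
          (CovZ.subM 661055968790553909487675906352461857457230004037947503872154230513022906329221619750564939990279800157873785696039970276176 (by decide +kernel)
           (CovZ.n1 (-15648, 15360) (by decide +kernel)
            (CovZ.n2 (-15696, 15408) (by decide +kernel)
             (CovZ.n2 (-15648, 15408) (by decide +kernel)
              (CovZ.n2 (-15672, 15384) (by decide +kernel)
               (CovZ.leaf K2_ok TB_l27627 _)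
               (CovZ.leaf K2_ok TB_l27628 _))
              (CovZ.n1 (-15672, 15432) (by decide +kernel)
               (CovZ.leaf K2_ok TB_l27629 _)
               (CovZ.leaf K2_ok TB_l27630 _)))
             (CovZ.n1 (-15696, 15360) (by decide +kernel)
              (CovZ.n2 (-15720, 15384) (by decide +kernel)
               (CovZ.leaf K2_ok TB_l27631 _)
               (CovZ.leaf K2_ok TB_l27632 _))
              (CovZ.n1 (-15672, 15384) (by decide +kernel)
               (CovZ.leaf K2_ok TB_l27633 _)
               (CovZ.leaf K2_ok TB_l27634 _))))
            (CovZ.n1 (-15600, 15408) (by decide +kernel)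
             (CovZ.n2 (-15600, 15360) (by decide +kernel)
              (CovZ.n2 (-15624, 15384) (by decide +kernel)
               (CovZ.leaf K2_ok TB_l27635 _)
               (CovZ.leaf K2_ok TB_l27636 _))
              (CovZ.n1 (-15576, 15384) (by decide +kernel)
               (CovZ.leaf K2_ok TB_l27637 _)
               (CovZ.leaf K2_ok TB_l27638 _)))
             (CovZ.n1 (-15648, 15408) (by decide +kernel)
              (CovZ.n2 (-15624, 15432) (by decide +kernel)
               (CovZ.leaf K2_ok TB_l27639 _)
               (CovZ.leaf K2_ok TB_l27640 _))
              (CovZ.n1 (-15624, 15384) (by decide +kernel)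
               (CovZ.leaf K2_ok TB_l27641 _)
               (CovZ.leaf K2_ok TB_l27642 _)))))))
         (CovZ.n1 (-15456, 15456) (by decide +kernel)
          (CovZ.n2 (-15456, 15360) (by decide +kernel)
           (CovZ.subM 661055968790553909487675906352461921114604264490637699761081993356307253070702367224860800301247581651569125455573085586256 (by decide +kernel)
            (CovZ.n2 (-15504, 15408) (by decide +kernel)
             (CovZ.n2 (-15456, 15408) (by decide +kernel)
              (CovZ.n2 (-15480, 15384) (by decide +kernel)
               (CovZ.n2 (-15480, 15408) (by decide +kernel)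
                (CovZ.leaf K2_ok TB_l27643 _)
                (CovZ.leaf K2_ok TB_l27644 _))
               (CovZ.leaf K2_ok TB_l27645 _))
              (CovZ.n1 (-15480, 15432) (by decide +kernel)
               (CovZ.leaf K2_ok TB_l27646 _)
               (CovZ.n1 (-15480, 15408) (by decide +kernel)
                (CovZ.leaf K2_ok TB_l27647 _)
                (CovZ.leaf K2_ok TB_l27648 _))))
             (CovZ.n1 (-15504, 15360) (by decide +kernel)
              (CovZ.n2 (-15528, 15384) (by decide +kernel)
               (CovZ.leaf K2_ok TB_l27649 _)
               (CovZ.n1 (-15528, 15360) (by decide +kernel)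
                (CovZ.leaf K2_ok TB_l27650 _)
                (CovZ.leaf K2_ok TB_l27651 _)))
              (CovZ.n1 (-15480, 15384) (by decide +kernel)
               (CovZ.n2 (-15480, 15360) (by decide +kernel)
                (CovZ.leaf K2_ok TB_l27652 _)
                (CovZ.leaf K2_ok TB_l27653 _))
               (CovZ.leaf K2_ok TB_l27654 _)))))
           (CovZ.subM 661055968790553909487675906352396735963361560935877109499052899682905783118066159432688813171518651538784053118946055816000 (by decide +kernel)
            (CovZ.n1 (-15408, 15408) (by decide +kernel)
             (CovZ.n2 (-15408, 15360) (by decide +kernel)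
              (CovZ.n2 (-15432, 15384) (by decide +kernel)
               (CovZ.n2 (-15408, 15384) (by decide +kernel)
                (CovZ.leaf K2_ok TB_l27655 _)
                (CovZ.leaf K2_ok TB_l27656 _))
               (CovZ.n1 (-15432, 15360) (by decide +kernel)
                (CovZ.leaf K2_ok TB_l27657 _)
                (CovZ.leaf K2_ok TB_l27658 _)))
              (CovZ.n1 (-15384, 15384) (by decide +kernel)
               (CovZ.n2 (-15384, 15360) (by decide +kernel)
                (CovZ.leaf K2_ok TB_l27659 _)
                (CovZ.leaf K2_ok TB_l27660 _))
               (CovZ.leaf K2_ok TB_l27661 _)))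
             (CovZ.n1 (-15456, 15408) (by decide +kernel)
              (CovZ.n2 (-15432, 15432) (by decide +kernel)
               (CovZ.n2 (-15432, 15408) (by decide +kernel)
                (CovZ.leaf K2_ok TB_l27662 _)
                (CovZ.leaf K2_ok TB_l27663 _))
               (CovZ.leaf K2_ok TB_l27664 _))
              (CovZ.n1 (-15432, 15384) (by decide +kernel)
               (CovZ.n2 (-15456, 15384) (by decide +kernel)
                (CovZ.leaf K2_ok TB_l27665 _)
                (CovZ.leaf K2_ok TB_l27666 _))
               (CovZ.n1 (-15432, 15408) (by decide +kernel)
                (CovZ.leaf K2_ok TB_l27667 _)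
                (CovZ.leaf K2_ok TB_l27668 _)))))))
          (CovZ.subM 661055968790553909487675906352461921114604264490637699761081993356307253070702367224860800301247581670458591387060256375632 (by decide +kernel)
           (CovZ.n1 (-15552, 15456) (by decide +kernel)
            (CovZ.n2 (-15504, 15504) (by decide +kernel)
             (CovZ.n2 (-15504, 15456) (by decide +kernel)
              (CovZ.n2 (-15528, 15480) (by decide +kernel)
               (CovZ.leaf K2_ok TB_l27669 _)
               (CovZ.leaf K2_ok TB_l27670 _))
              (CovZ.n1 (-15480, 15480) (by decide +kernel)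
               (CovZ.leaf K2_ok TB_l27671 _)
               (CovZ.leaf K2_ok TB_l27672 _)))
             (CovZ.n1 (-15552, 15504) (by decide +kernel)
              (CovZ.leaf K2_ok TB_l27673 _)
              (CovZ.n1 (-15528, 15480) (by decide +kernel)
               (CovZ.leaf K2_ok TB_l27674 _)
               (CovZ.leaf K2_ok TB_l27675 _))))
            (CovZ.n1 (-15504, 15408) (by decide +kernel)
             (CovZ.n2 (-15552, 15408) (by decide +kernel)
              (CovZ.n2 (-15528, 15432) (by decide +kernel)
               (CovZ.leaf K2_ok TB_l27676 _)
               (CovZ.leaf K2_ok TB_l27677 _))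
              (CovZ.n1 (-15528, 15384) (by decide +kernel)
               (CovZ.leaf K2_ok TB_l27678 _)
               (CovZ.n1 (-15528, 15408) (by decide +kernel)
                (CovZ.leaf K2_ok TB_l27679 _)
                (CovZ.leaf K2_ok TB_l27680 _))))
             (CovZ.n1 (-15504, 15456) (by decide +kernel)
              (CovZ.n2 (-15480, 15432) (by decide +kernel)
               (CovZ.leaf K2_ok TB_l27681 _)
               (CovZ.leaf K2_ok TB_l27682 _))
              (CovZ.n1 (-15528, 15432) (by decide +kernel)
               (CovZ.leaf K2_ok TB_l27683 _)
               (CovZ.leaf K2_ok TB_l27684 _))))))))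
        (CovZ.n1 (-15744, 15552) (by decide +kernel)
         (CovZ.n2 (-15648, 15648) (by decide +kernel)
          (CovZ.n2 (-15648, 15552) (by decide +kernel)
           (CovZ.n2 (-15696, 15600) (by decide +kernel)
            (CovZ.n2 (-15648, 15600) (by decide +kernel)
             (CovZ.leaf K2_ok TB_l27685 _)
             (CovZ.leaf K2_ok TB_l27686 _))
            (CovZ.n1 (-15696, 15552) (by decide +kernel)
             (CovZ.leaf K2_ok TB_l27687 _)
             (CovZ.leaf K2_ok TB_l27688 _)))
           (CovZ.n1 (-15600, 15600) (by decide +kernel)
            (CovZ.n2 (-15600, 15552) (by decide +kernel)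
             (CovZ.leaf K2_ok TB_l27689 _)
             (CovZ.leaf K2_ok TB_l27690 _))
            (CovZ.leaf K2_ok TB_l27691 _)))
          (CovZ.n1 (-15744, 15648) (by decide +kernel)
           (CovZ.n2 (-15696, 15696) (by decide +kernel)
            (CovZ.n2 (-15696, 15648) (by decide +kernel)
             (CovZ.leaf K2_ok TB_l27692 _)
             (CovZ.leaf K2_ok TB_l27693 _))
            (CovZ.leaf K2_ok TB_l27694 _))
           (CovZ.n1 (-15696, 15600) (by decide +kernel)
            (CovZ.leaf K2_ok TB_l27695 _)
            (CovZ.n1 (-15696, 15648) (by decide +kernel)
             (CovZ.leaf K2_ok TB_l27696 _)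
             (CovZ.leaf K2_ok TB_l27697 _)))))
         (CovZ.n1 (-15648, 15456) (by decide +kernel)
          (CovZ.subM 661055968790553909487675906352461857457230004037947503872154230513022906329221619750564934797982941623046157166643152814672 (by decide +kernel)
           (CovZ.n2 (-15744, 15456) (by decide +kernel)
            (CovZ.n2 (-15696, 15504) (by decide +kernel)
             (CovZ.n2 (-15696, 15456) (by decide +kernel)
              (CovZ.leaf K2_ok TB_l27698 _)
              (CovZ.leaf K2_ok TB_l27699 _))
             (CovZ.n1 (-15744, 15504) (by decide +kernel)
              (CovZ.leaf K2_ok TB_l27700 _)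
              (CovZ.leaf K2_ok TB_l27701 _)))
            (CovZ.n1 (-15696, 15408) (by decide +kernel)
             (CovZ.n2 (-15744, 15408) (by decide +kernel)
              (CovZ.leaf K2_ok TB_l27702 _)
              (CovZ.n1 (-15720, 15384) (by decide +kernel)
               (CovZ.leaf K2_ok TB_l27703 _)
               (CovZ.leaf K2_ok TB_l27704 _)))
             (CovZ.n1 (-15696, 15456) (by decide +kernel)
              (CovZ.n2 (-15672, 15432) (by decide +kernel)
               (CovZ.leaf K2_ok TB_l27705 _)
               (CovZ.leaf K2_ok TB_l27706 _))
              (CovZ.leaf K2_ok TB_l27707 _)))))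
          (CovZ.n1 (-15648, 15552) (by decide +kernel)
           (CovZ.n2 (-15600, 15504) (by decide +kernel)
            (CovZ.n2 (-15648, 15504) (by decide +kernel)
             (CovZ.leaf K2_ok TB_l27708 _)
             (CovZ.leaf K2_ok TB_l27709 _))
            (CovZ.n1 (-15600, 15552) (by decide +kernel)
             (CovZ.leaf K2_ok TB_l27710 _)
             (CovZ.leaf K2_ok TB_l27711 _)))
           (CovZ.n1 (-15696, 15504) (by decide +kernel)
            (CovZ.n2 (-15696, 15552) (by decide +kernel)
             (CovZ.leaf K2_ok TB_l27712 _)
             (CovZ.leaf K2_ok TB_l27713 _))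
            (CovZ.n1 (-15648, 15504) (by decide +kernel)
             (CovZ.leaf K2_ok TB_l27714 _)
             (CovZ.leaf K2_ok TB_l27715 _)))))))

theorem TB_u379 : CovZ TB_M (toL (selN TB_LN 21662143041287659049273462208908388356174160084278763128957841492648825873060931511515760567715230625033562063828461597585736528)) [0, 7, 6, 1] (-16896, 15360) (-16128, 15360) (-16128, 16128) :=
    (CovZ.n2 (-16512, 15744) (by decide +kernel)
      (CovZ.subM 305310535760598319690817628855675390906472877034667592108902256492954887691902867741763554143192371444223967824 (by decide +kernel)
       (CovZ.n2 (-16128, 15744) (by decide +kernel)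
        (CovZ.n2 (-16320, 15552) (by decide +kernel)
         (CovZ.n2 (-16320, 15744) (by decide +kernel)
          (CovZ.n2 (-16224, 15648) (by decide +kernel)
           (CovZ.n2 (-16320, 15648) (by decide +kernel)
            (CovZ.leaf K2_ok TB_l27468 _)
            (CovZ.n1 (-16272, 15600) (by decide +kernel)
             (CovZ.leaf K2_ok TB_l27469 _)
             (CovZ.leaf K2_ok TB_l27470 _)))
           (CovZ.n1 (-16224, 15744) (by decide +kernel)
            (CovZ.leaf K2_ok TB_l27471 _)
            (CovZ.leaf K2_ok TB_l27472 _)))
          (CovZ.n1 (-16416, 15648) (by decide +kernel)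
           (CovZ.n2 (-16416, 15744) (by decide +kernel)
            (CovZ.leaf K2_ok TB_l27473 _)
            (CovZ.leaf K2_ok TB_l27474 _))
           (CovZ.n1 (-16320, 15648) (by decide +kernel)
            (CovZ.leaf K2_ok TB_l27475 _)
            (CovZ.leaf K2_ok TB_l27476 _))))
         (CovZ.n1 (-16128, 15552) (by decide +kernel)
          (CovZ.n2 (-16224, 15456) (by decide +kernel)
           (CovZ.n2 (-16224, 15552) (by decide +kernel)
            (CovZ.n2 (-16176, 15504) (by decide +kernel)
             (CovZ.leaf K2_ok TB_l27477 _)
             (CovZ.leaf K2_ok TB_l27478 _))
            (CovZ.n1 (-16272, 15504) (by decide +kernel)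
             (CovZ.leaf K2_ok TB_l27479 _)
             (CovZ.leaf K2_ok TB_l27480 _)))
           (CovZ.n1 (-16128, 15456) (by decide +kernel)
            (CovZ.n2 (-16176, 15408) (by decide +kernel)
             (CovZ.n2 (-16176, 15456) (by decide +kernel)
              (CovZ.leaf K2_ok TB_l27481 _)
              (CovZ.leaf K2_ok TB_l27482 _))
             (CovZ.leaf K2_ok TB_l27483 _))
            (CovZ.n1 (-16176, 15504) (by decide +kernel)
             (CovZ.leaf K2_ok TB_l27484 _)
             (CovZ.leaf K2_ok TB_l27485 _))))
          (CovZ.n1 (-16224, 15648) (by decide +kernel)
           (CovZ.n2 (-16128, 15648) (by decide +kernel)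
            (CovZ.n2 (-16176, 15600) (by decide +kernel)
             (CovZ.leaf K2_ok TB_l27486 _)
             (CovZ.leaf K2_ok TB_l27487 _))
            (CovZ.leaf K2_ok TB_l27488 _))
           (CovZ.n1 (-16224, 15552) (by decide +kernel)
            (CovZ.n2 (-16272, 15600) (by decide +kernel)
             (CovZ.leaf K2_ok TB_l27489 _)
             (CovZ.leaf K2_ok TB_l27490 _))
            (CovZ.n1 (-16176, 15600) (by decide +kernel)
             (CovZ.leaf K2_ok TB_l27491 _)
             (CovZ.leaf K2_ok TB_l27492 _))))))
        (CovZ.n1 (-16320, 15936) (by decide +kernel)
         (CovZ.n2 (-16128, 15936) (by decide +kernel)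
          (CovZ.n2 (-16224, 15840) (by decide +kernel)
           (CovZ.n2 (-16224, 15936) (by decide +kernel)
            (CovZ.leaf K2_ok TB_l27493 _)
            (CovZ.leaf K2_ok TB_l27494 _))
           (CovZ.n1 (-16128, 15840) (by decide +kernel)
            (CovZ.leaf K2_ok TB_l27495 _)
            (CovZ.leaf K2_ok TB_l27496 _)))
          (CovZ.n1 (-16224, 16032) (by decide +kernel)
           (CovZ.leaf K2_ok TB_l27497 _)
           (CovZ.n1 (-16224, 15936) (by decide +kernel)
            (CovZ.leaf K2_ok TB_l27498 _)
            (CovZ.leaf K2_ok TB_l27499 _))))
         (CovZ.n1 (-16320, 15744) (by decide +kernel)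
          (CovZ.n2 (-16416, 15840) (by decide +kernel)
           (CovZ.n2 (-16320, 15840) (by decide +kernel)
            (CovZ.leaf K2_ok TB_l27500 _)
            (CovZ.leaf K2_ok TB_l27501 _))
           (CovZ.n1 (-16416, 15744) (by decide +kernel)
            (CovZ.leaf K2_ok TB_l27502 _)
            (CovZ.leaf K2_ok TB_l27503 _)))
          (CovZ.n1 (-16224, 15840) (by decide +kernel)
           (CovZ.n2 (-16224, 15744) (by decide +kernel)
            (CovZ.leaf K2_ok TB_l27504 _)
            (CovZ.leaf K2_ok TB_l27505 _))
           (CovZ.n1 (-16320, 15840) (by decide +kernel)
            (CovZ.leaf K2_ok TB_l27506 _)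
            (CovZ.leaf K2_ok TB_l27507 _)))))))
      (CovZ.n1 (-16512, 15360) (by decide +kernel)
       (CovZ.subM 2710218140521003545180016062453378437847885135589550157910325380433044815295119026538697482665956749440750617152 (by decide +kernel)
        (CovZ.n2 (-16704, 15552) (by decide +kernel)
         (CovZ.n2 (-16512, 15552) (by decide +kernel)
          (CovZ.n2 (-16608, 15456) (by decide +kernel)
           (CovZ.n2 (-16608, 15552) (by decide +kernel)
            (CovZ.n2 (-16560, 15504) (by decide +kernel)
             (CovZ.leaf K2_ok TB_l27508 _)
             (CovZ.leaf K2_ok TB_l27509 _))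
            (CovZ.leaf K2_ok TB_l27510 _))
           (CovZ.n1 (-16512, 15456) (by decide +kernel)
            (CovZ.n2 (-16560, 15408) (by decide +kernel)
             (CovZ.leaf K2_ok TB_l27511 _)
             (CovZ.leaf K2_ok TB_l27512 _))
            (CovZ.leaf K2_ok TB_l27513 _)))
          (CovZ.n1 (-16608, 15648) (by decide +kernel)
           (CovZ.n2 (-16512, 15648) (by decide +kernel)
            (CovZ.leaf K2_ok TB_l27514 _)
            (CovZ.leaf K2_ok TB_l27515 _))
           (CovZ.n1 (-16608, 15552) (by decide +kernel)
            (CovZ.leaf K2_ok TB_l27516 _)
            (CovZ.leaf K2_ok TB_l27517 _))))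
         (CovZ.n1 (-16704, 15360) (by decide +kernel)
          (CovZ.n2 (-16800, 15456) (by decide +kernel)
           (CovZ.n2 (-16704, 15456) (by decide +kernel)
            (CovZ.leaf K2_ok TB_l27518 _)
            (CovZ.leaf K2_ok TB_l27519 _))
           (CovZ.n1 (-16800, 15360) (by decide +kernel)
            (CovZ.n2 (-16848, 15408) (by decide +kernel)
             (CovZ.leaf K2_ok TB_l27520 _)
             (CovZ.leaf K2_ok TB_l27521 _))
            (CovZ.leaf K2_ok TB_l27522 _)))
          (CovZ.n1 (-16608, 15456) (by decide +kernel)
           (CovZ.n2 (-16608, 15360) (by decide +kernel)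
            (CovZ.n2 (-16656, 15408) (by decide +kernel)
             (CovZ.leaf K2_ok TB_l27523 _)
             (CovZ.leaf K2_ok TB_l27524 _))
            (CovZ.n1 (-16560, 15408) (by decide +kernel)
             (CovZ.n2 (-16560, 15360) (by decide +kernel)
              (CovZ.leaf K2_ok TB_l27525 _)
              (CovZ.leaf K2_ok TB_l27526 _))
             (CovZ.leaf K2_ok TB_l27527 _)))
           (CovZ.n1 (-16704, 15456) (by decide +kernel)
            (CovZ.leaf K2_ok TB_l27528 _)
            (CovZ.n1 (-16656, 15408) (by decide +kernel)
             (CovZ.leaf K2_ok TB_l27529 _)
             (CovZ.leaf K2_ok TB_l27530 _)))))))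
       (CovZ.subM 305310535760598319690817628855675390906472877034667541892088373399508777005587482040816935141397032306001183312 (by decide +kernel)
        (CovZ.n1 (-16320, 15552) (by decide +kernel)
         (CovZ.n2 (-16320, 15360) (by decide +kernel)
          (CovZ.n2 (-16416, 15456) (by decide +kernel)
           (CovZ.n2 (-16320, 15456) (by decide +kernel)
            (CovZ.n2 (-16368, 15408) (by decide +kernel)
             (CovZ.leaf K2_ok TB_l27531 _)
             (CovZ.leaf K2_ok TB_l27532 _))
            (CovZ.n1 (-16368, 15504) (by decide +kernel)
             (CovZ.leaf K2_ok TB_l27533 _)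
             (CovZ.leaf K2_ok TB_l27534 _)))
           (CovZ.n1 (-16416, 15360) (by decide +kernel)
            (CovZ.n2 (-16464, 15408) (by decide +kernel)
             (CovZ.leaf K2_ok TB_l27535 _)
             (CovZ.leaf K2_ok TB_l27536 _))
            (CovZ.n1 (-16368, 15408) (by decide +kernel)
             (CovZ.leaf K2_ok TB_l27537 _)
             (CovZ.leaf K2_ok TB_l27538 _))))
          (CovZ.n1 (-16224, 15456) (by decide +kernel)
           (CovZ.n2 (-16224, 15360) (by decide +kernel)
            (CovZ.n2 (-16272, 15408) (by decide +kernel)
             (CovZ.leaf K2_ok TB_l27539 _)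
             (CovZ.n1 (-16272, 15360) (by decide +kernel)
              (CovZ.leaf K2_ok TB_l27540 _)
              (CovZ.leaf K2_ok TB_l27541 _)))
            (CovZ.n1 (-16176, 15408) (by decide +kernel)
             (CovZ.n2 (-16176, 15360) (by decide +kernel)
              (CovZ.leaf K2_ok TB_l27542 _)
              (CovZ.leaf K2_ok TB_l27543 _))
             (CovZ.leaf K2_ok TB_l27544 _)))
           (CovZ.n1 (-16320, 15456) (by decide +kernel)
            (CovZ.n2 (-16272, 15504) (by decide +kernel)
             (CovZ.leaf K2_ok TB_l27545 _)
             (CovZ.leaf K2_ok TB_l27546 _))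
            (CovZ.n1 (-16272, 15408) (by decide +kernel)
             (CovZ.leaf K2_ok TB_l27547 _)
             (CovZ.leaf K2_ok TB_l27548 _)))))
         (CovZ.n1 (-16512, 15552) (by decide +kernel)
          (CovZ.n2 (-16416, 15648) (by decide +kernel)
           (CovZ.n2 (-16416, 15552) (by decide +kernel)
            (CovZ.leaf K2_ok TB_l27549 _)
            (CovZ.leaf K2_ok TB_l27550 _))
           (CovZ.n1 (-16512, 15648) (by decide +kernel)
            (CovZ.leaf K2_ok TB_l27551 _)
            (CovZ.leaf K2_ok TB_l27552 _)))
          (CovZ.n1 (-16416, 15456) (by decide +kernel)
           (CovZ.n2 (-16512, 15456) (by decide +kernel)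
            (CovZ.leaf K2_ok TB_l27553 _)
            (CovZ.n1 (-16464, 15408) (by decide +kernel)
             (CovZ.leaf K2_ok TB_l27554 _)
             (CovZ.leaf K2_ok TB_l27555 _)))
           (CovZ.n1 (-16416, 15552) (by decide +kernel)
            (CovZ.n2 (-16368, 15504) (by decide +kernel)
             (CovZ.leaf K2_ok TB_l27556 _)
             (CovZ.leaf K2_ok TB_l27557 _))
            (CovZ.leaf K2_ok TB_l27558 _))))))))

theorem TB_u380 : CovZ TB_M (toL (selN TB_LN 21662143041287659049273462208908388356174160084278763128957841492648825873060931511515760567715230625033562063828461597585736528)) [0, 7, 6, 1] (-16128, 15360) (-15360, 15360) (-16128, 16128) :=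
    (CovZ.n1 (-15744, 15744) (by decide +kernel)
      (CovZ.n2 (-15744, 15360) (by decide +kernel)
       TB_u377
       TB_u378)
      (CovZ.n1 (-16128, 15744) (by decide +kernel)
       (CovZ.n2 (-15936, 15936) (by decide +kernel)
        (CovZ.n2 (-15936, 15744) (by decide +kernel)
         (CovZ.subM 305310535760598319690817628855675275114383528508692166541528094803609800465941673347978771779542897661462053456 (by decide +kernel)
          (CovZ.n2 (-16032, 15840) (by decide +kernel)
           (CovZ.n2 (-15936, 15840) (by decide +kernel)
            (CovZ.leaf K2_ok TB_l27716 _)
            (CovZ.leaf K2_ok TB_l27717 _))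
           (CovZ.n1 (-16032, 15744) (by decide +kernel)
            (CovZ.leaf K2_ok TB_l27718 _)
            (CovZ.leaf K2_ok TB_l27719 _))))
         (CovZ.n1 (-15840, 15840) (by decide +kernel)
          (CovZ.n2 (-15840, 15744) (by decide +kernel)
           (CovZ.n2 (-15888, 15792) (by decide +kernel)
            (CovZ.leaf K2_ok TB_l27720 _)
            (CovZ.leaf K2_ok TB_l27721 _))
           (CovZ.n1 (-15792, 15792) (by decide +kernel)
            (CovZ.leaf K2_ok TB_l27722 _)
            (CovZ.leaf K2_ok TB_l27723 _)))
          (CovZ.n1 (-15936, 15840) (by decide +kernel)
           (CovZ.leaf K2_ok TB_l27724 _)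
           (CovZ.n1 (-15888, 15792) (by decide +kernel)
            (CovZ.leaf K2_ok TB_l27725 _)
            (CovZ.leaf K2_ok TB_l27726 _)))))
        (CovZ.subM 305310535760598319690817628855675275114383528508692166541528094803609800465941673347978771779542897661462053456 (by decide +kernel)
         (CovZ.n1 (-16128, 15936) (by decide +kernel)
          (CovZ.n2 (-16032, 16032) (by decide +kernel)
           (CovZ.n2 (-16032, 15936) (by decide +kernel)
            (CovZ.leaf K2_ok TB_l27727 _)
            (CovZ.leaf K2_ok TB_l27728 _))
           (CovZ.leaf K2_ok TB_l27729 _))
          (CovZ.n1 (-16032, 15840) (by decide +kernel)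
           (CovZ.n2 (-16128, 15840) (by decide +kernel)
            (CovZ.leaf K2_ok TB_l27730 _)
            (CovZ.leaf K2_ok TB_l27731 _))
           (CovZ.n1 (-16032, 15936) (by decide +kernel)
            (CovZ.leaf K2_ok TB_l27732 _)
            (CovZ.leaf K2_ok TB_l27733 _))))))
       (CovZ.n1 (-15936, 15552) (by decide +kernel)
        (CovZ.subM 305310535760598319690817628855675275114383528508692116324714211710163689779626287686646234034879727320011244112 (by decide +kernel)
         (CovZ.n2 (-16128, 15552) (by decide +kernel)
          (CovZ.n2 (-16032, 15648) (by decide +kernel)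
           (CovZ.n2 (-16032, 15552) (by decide +kernel)
            (CovZ.n2 (-16080, 15600) (by decide +kernel)
             (CovZ.leaf K2_ok TB_l27734 _)
             (CovZ.leaf K2_ok TB_l27735 _))
            (CovZ.n1 (-15984, 15600) (by decide +kernel)
             (CovZ.n2 (-15984, 15552) (by decide +kernel)
              (CovZ.leaf K2_ok TB_l27736 _)
              (CovZ.leaf K2_ok TB_l27737 _))
             (CovZ.leaf K2_ok TB_l27738 _)))
           (CovZ.n1 (-16128, 15648) (by decide +kernel)
            (CovZ.leaf K2_ok TB_l27739 _)
            (CovZ.n1 (-16080, 15600) (by decide +kernel)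
             (CovZ.leaf K2_ok TB_l27740 _)
             (CovZ.leaf K2_ok TB_l27741 _))))
          (CovZ.n1 (-16032, 15456) (by decide +kernel)
           (CovZ.n2 (-16128, 15456) (by decide +kernel)
            (CovZ.n2 (-16080, 15504) (by decide +kernel)
             (CovZ.n2 (-16080, 15456) (by decide +kernel)
              (CovZ.leaf K2_ok TB_l27742 _)
              (CovZ.leaf K2_ok TB_l27743 _))
             (CovZ.leaf K2_ok TB_l27744 _))
            (CovZ.n1 (-16080, 15408) (by decide +kernel)
             (CovZ.leaf K2_ok TB_l27745 _)
             (CovZ.n1 (-16080, 15456) (by decide +kernel)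
              (CovZ.leaf K2_ok TB_l27746 _)
              (CovZ.leaf K2_ok TB_l27747 _))))
           (CovZ.n1 (-16032, 15552) (by decide +kernel)
            (CovZ.n2 (-15984, 15504) (by decide +kernel)
             (CovZ.leaf K2_ok TB_l27748 _)
             (CovZ.n1 (-15984, 15552) (by decide +kernel)
              (CovZ.leaf K2_ok TB_l27749 _)
              (CovZ.leaf K2_ok TB_l27750 _)))
            (CovZ.n1 (-16080, 15504) (by decide +kernel)
             (CovZ.leaf K2_ok TB_l27751 _)
             (CovZ.leaf K2_ok TB_l27752 _))))))
        (CovZ.n1 (-15936, 15744) (by decide +kernel)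
         (CovZ.n2 (-15840, 15648) (by decide +kernel)
          (CovZ.subM 305310535760598319690817628825321073666285450223728587437591515410098802431447389018657827073041987320787632720 (by decide +kernel)
           (CovZ.n2 (-15936, 15648) (by decide +kernel)
            (CovZ.n2 (-15888, 15696) (by decide +kernel)
             (CovZ.n2 (-15888, 15648) (by decide +kernel)
              (CovZ.leaf K2_ok TB_l27753 _)
              (CovZ.leaf K2_ok TB_l27754 _))
             (CovZ.leaf K2_ok TB_l27755 _))
            (CovZ.n1 (-15888, 15600) (by decide +kernel)
             (CovZ.leaf K2_ok TB_l27756 _)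
             (CovZ.leaf K2_ok TB_l27757 _))))
          (CovZ.n1 (-15840, 15744) (by decide +kernel)
           (CovZ.n2 (-15792, 15696) (by decide +kernel)
            (CovZ.leaf K2_ok TB_l27758 _)
            (CovZ.leaf K2_ok TB_l27759 _))
           (CovZ.n1 (-15888, 15696) (by decide +kernel)
            (CovZ.leaf K2_ok TB_l27760 _)
            (CovZ.leaf K2_ok TB_l27761 _))))
         (CovZ.subM 305310535760598319690817628855675275114383528508692116324714211710163689779626287686647442960699341949185950288 (by decide +kernel)
          (CovZ.n1 (-16032, 15648) (by decide +kernel)
           (CovZ.n2 (-16032, 15744) (by decide +kernel)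
            (CovZ.n2 (-15984, 15696) (by decide +kernel)
             (CovZ.leaf K2_ok TB_l27762 _)
             (CovZ.leaf K2_ok TB_l27763 _))
            (CovZ.leaf K2_ok TB_l27764 _))
           (CovZ.n1 (-15936, 15648) (by decide +kernel)
            (CovZ.n2 (-15984, 15600) (by decide +kernel)
             (CovZ.leaf K2_ok TB_l27765 _)
             (CovZ.leaf K2_ok TB_l27766 _))
            (CovZ.n1 (-15984, 15696) (by decide +kernel)
             (CovZ.leaf K2_ok TB_l27767 _)
             (CovZ.leaf K2_ok TB_l27768 _)))))))))

end Pool.Agent.TET
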