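import Pool.Agent.Helper38_TET.TB_M
import Pool.Agent.Helper38_TET.TB_L
import Pool.Agent.Helper38_TET.TB_12
import Pool.Agent.Helper38_TET.TB_33
import Pool.Agent.Helper38_TET.TB_55
import Pool.Agent.Helper38_TET.TB_77
import Pool.Agent.Helper38_TET.TB_92
import Pool.Agent.Helper38_TET.TB_103
import Pool.Agent.Helper38_TET.TB_123
import Pool.Agent.Helper38_TET.TB_124
import Pool.Agent.Helper38_TET.TB_129
import Pool.Agent.Helper38_TET.TB_130
import Pool.Agent.Helper38_TET.TB_133
import Pool.Agent.Helper38_TET.TB_134
import Pool.Agent.Helper38_TET.TB_135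
import Pool.Agent.Helper38_TET.TB_142
import Pool.Agent.Helper38_TET.TB_143
import Pool.Agent.Helper38_TET.TB_144
import Pool.Agent.Helper38_TET.TB_145
import Pool.Agent.Helper38_TET.TB_146
import Pool.Agent.Helper38_TET.TB_220
import Pool.Agent.Helper38_TET.TB_221
import Pool.Agent.Helper38_TET.TB_224
import Pool.Agent.Helper38_TET.TB_283
import Pool.Agent.Helper38_TET.TB_284
import Pool.Agent.Helper38_TET.TB_304
import Pool.Agent.Helper38_TET.TB_305
import Pool.Agent.Helper38_TET.TB_306
import Pool.Agent.Helper38_TET.TB_U19
import Pool.Agent.Helper38_TET.TB_U20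
import Pool.Agent.Helper38_TET.TB_U21
import Pool.Agent.Helper38_TET.TB_U22
import Pool.Agent.Helper38_TET.TB_U24
import Pool.Agent.Helper38_TET.TB_U25

/-!
# MP_c7c9bf_co: certificates, family TB
-/

set_option autoImplicit false
set_option maxRecDepth 100000

namespace Pool.Agent.TET

theorem TB_s9_9 : SqZ TB_M TB_L [0, 7, 6, 1] (-32256) (-4608) 1536 9 9 :=
  SqZ.mk (a := (-18432)) (b := (-16896)) (c := 9216) (d := 10752) (by norm_num) (by norm_num) (by norm_num) (by norm_num)
    (CovZ.topM TB_LL 76401169414504821121600679162580848553704775656662862339307204517035487347451541497223404119207251778375516200 (by decide +kernel) (CovZ.n2 (-17664, 9984) (by decide +kernel)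
    TB_u293
    TB_u294))
    (CovZ.topM TB_LL 1278864181625087268964521132542760524620378609447852138142637569289962228496393886146667428235175768559519268904 (by decide +kernel) (CovZ.n0 (-17664, 9984) (by decide +kernel)
    (CovZ.subM 75162536818206681561158733760463120573528068347811793301326290720412148414954947544592794785490850333836967976 (by decide +kernel)
     (CovZ.n2 (-18432, 9984) (by decide +kernel)
      (CovZ.n2 (-18048, 10368) (by decide +kernel)
       (CovZ.n2 (-18048, 9984) (by decide +kernel)
        (CovZ.n2 (-18240, 10176) (by decide +kernel)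
         (CovZ.leaf K2_ok TB_l21440 _)
         (CovZ.leaf K2_ok TB_l21441 _))
        (CovZ.n1 (-17856, 10176) (by decide +kernel)
         (CovZ.n2 (-17856, 9984) (by decide +kernel)
          (CovZ.leaf K2_ok TB_l21442 _)
          (CovZ.leaf K2_ok TB_l21443 _))
         (CovZ.leaf K2_ok TB_l21444 _)))
       (CovZ.n1 (-18432, 10368) (by decide +kernel)
        (CovZ.leaf K2_ok TB_l21445 _)
        (CovZ.n1 (-18240, 10176) (by decide +kernel)
         (CovZ.leaf K2_ok TB_l21446 _)
         (CovZ.leaf K2_ok TB_l21447 _))))
      (CovZ.n1 (-18048, 9600) (by decide +kernel)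
       (CovZ.subM 75153362823742721275112290476852268065491172787479406088613259400579643795808580237208122376289455126693806112 (by decide +kernel)
        (CovZ.n2 (-18432, 9600) (by decide +kernel)
         (CovZ.n2 (-18240, 9792) (by decide +kernel)
          (CovZ.n2 (-18240, 9600) (by decide +kernel)
           (CovZ.leaf K2_ok TB_l21448 _)
           (CovZ.leaf K2_ok TB_l21449 _))
          (CovZ.leaf K2_ok TB_l21450 _))
         (CovZ.n1 (-18240, 9408) (by decide +kernel)
          (CovZ.n2 (-18432, 9408) (by decide +kernel)
           (CovZ.leaf K2_ok TB_l21451 _)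
           (CovZ.n1 (-18336, 9312) (by decide +kernel)
            (CovZ.leaf K2_ok TB_l21452 _)
            (CovZ.leaf K2_ok TB_l21453 _)))
          (CovZ.n1 (-18240, 9600) (by decide +kernel)
           (CovZ.leaf K2_ok TB_l21454 _)
           (CovZ.leaf K2_ok TB_l21455 _)))))
       (CovZ.n1 (-18048, 9984) (by decide +kernel)
        (CovZ.n2 (-17856, 9792) (by decide +kernel)
         (CovZ.n2 (-18048, 9792) (by decide +kernel)
          (CovZ.leaf K2_ok TB_l21456 _)
          (CovZ.leaf K2_ok TB_l21457 _))
         (CovZ.n1 (-17856, 9984) (by decide +kernel)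
          (CovZ.leaf K2_ok TB_l21458 _)
          (CovZ.leaf K2_ok TB_l21459 _)))
        (CovZ.n1 (-18240, 9792) (by decide +kernel)
         (CovZ.n2 (-18240, 9984) (by decide +kernel)
          (CovZ.leaf K2_ok TB_l21460 _)
          (CovZ.leaf K2_ok TB_l21461 _))
         (CovZ.leaf K2_ok TB_l21462 _))))))
    (CovZ.n1 (-17664, 10752) (by decide +kernel)
     (CovZ.n2 (-17280, 10368) (by decide +kernel)
      (CovZ.subM 75153362788746710721546519570631732998843619004319184988067779825935802594903426097347308624855902347627331624 (by decide +kernel)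
       (CovZ.n2 (-17664, 10368) (by decide +kernel)
        (CovZ.n2 (-17472, 10560) (by decide +kernel)
         (CovZ.n2 (-17472, 10368) (by decide +kernel)
          (CovZ.leaf K2_ok TB_l21463 _)
          (CovZ.leaf K2_ok TB_l21464 _))
         (CovZ.leaf K2_ok TB_l21465 _))
        (CovZ.n1 (-17472, 10176) (by decide +kernel)
         (CovZ.leaf K2_ok TB_l21466 _)
         (CovZ.n1 (-17472, 10368) (by decide +kernel)
          (CovZ.leaf K2_ok TB_l21467 _)
          (CovZ.leaf K2_ok TB_l21468 _)))))
      (CovZ.n1 (-17280, 10752) (by decide +kernel)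
       (CovZ.n2 (-17088, 10560) (by decide +kernel)
        (CovZ.leaf K2_ok TB_l21469 _)
        (CovZ.n1 (-17088, 10752) (by decide +kernel)
         (CovZ.n2 (-16992, 10656) (by decide +kernel)
          (CovZ.leaf K2_ok TB_l21470 _)
          (CovZ.leaf K2_ok TB_l21471 _))
         (CovZ.leaf K2_ok TB_l21472 _)))
       (CovZ.n1 (-17472, 10560) (by decide +kernel)
        (CovZ.leaf K2_ok TB_l21473 _)
        (CovZ.leaf K2_ok TB_l21474 _))))
     (CovZ.subM 75162536818206681561158733760463120573528068347811793301326290720412148414954947544592794785490850333836967976 (by decide +kernel)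
      (CovZ.n1 (-18048, 10368) (by decide +kernel)
       (CovZ.n2 (-18048, 10752) (by decide +kernel)
        (CovZ.n2 (-17856, 10560) (by decide +kernel)
         (CovZ.leaf K2_ok TB_l21475 _)
         (CovZ.leaf K2_ok TB_l21476 _))
        (CovZ.leaf K2_ok TB_l21477 _))
       (CovZ.n1 (-17664, 10368) (by decide +kernel)
        (CovZ.n2 (-17856, 10176) (by decide +kernel)
         (CovZ.leaf K2_ok TB_l21478 _)
         (CovZ.leaf K2_ok TB_l21479 _))
        (CovZ.n1 (-17856, 10560) (by decide +kernel)
         (CovZ.leaf K2_ok TB_l21480 _)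
         (CovZ.leaf K2_ok TB_l21481 _))))))))

theorem TB_s10_9 : SqZ TB_M TB_L [0, 7, 6, 1] (-32256) (-4608) 1536 10 9 :=
  SqZ.mk (a := (-16896)) (b := (-15360)) (c := 9216) (d := 10752) (by norm_num) (by norm_num) (by norm_num) (by norm_num)
    (CovZ.topM TB_LL 19701079499366619114949045631818930773366406241863615572779353154442716649891588170386982791289462120889382279843880 (by decide +kernel) (CovZ.n2 (-16128, 9984) (by decide +kernel)
    TB_u295
    TB_u296))
    (CovZ.topM TB_LL 19701079499366619114949045631819173606977934457997480505517706094306046950746639829030882146676062841652696066297896 (by decide +kernel) (CovZ.n0 (-16128, 9984) (by decide +kernel)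
    TB_u297
    TB_u298))

theorem TB_s11_9 : SqZ TB_M TB_L [0, 7, 6, 1] (-32256) (-4608) 1536 11 9 :=
  SqZ.mk (a := (-15360)) (b := (-13824)) (c := 9216) (d := 10752) (by norm_num) (by norm_num) (by norm_num) (by norm_num)
    (CovZ.topM TB_LL 7957186959686283300714416125615969330164290246202152562356755923215164984937165044580392 (by decide +kernel) (CovZ.n2 (-14592, 9984) (by decide +kernel)
    (CovZ.subM 28948022309329048855892746252171976963317496166410141009864396001978282409984 (by decide +kernel)
     (CovZ.n2 (-13824, 9984) (by decide +kernel)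
      (CovZ.n2 (-14208, 9600) (by decide +kernel)
       (CovZ.n2 (-14208, 9984) (by decide +kernel)
        (CovZ.badM (by decide +kernel))
        (CovZ.n1 (-14400, 9792) (by decide +kernel)
         (CovZ.n2 (-14400, 9984) (by decide +kernel)
          (CovZ.badM (by decide +kernel))
          (CovZ.n1 (-14496, 9888) (by decide +kernel)
           (CovZ.n2 (-14496, 9984) (by decide +kernel)
            (CovZ.badM (by decide +kernel))
            (CovZ.n1 (-14544, 9936) (by decide +kernel)
             (CovZ.leaf K2_ok TB_l45677 _)
             (CovZ.badM (by decide +kernel))))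
           (CovZ.badM (by decide +kernel))))
         (CovZ.badM (by decide +kernel))))
       (CovZ.badM (by decide +kernel)))
      (CovZ.n1 (-14208, 10368) (by decide +kernel)
       (CovZ.badM (by decide +kernel))
       (CovZ.n1 (-14208, 9984) (by decide +kernel)
        (CovZ.n2 (-14400, 10176) (by decide +kernel)
         (CovZ.badM (by decide +kernel))
         (CovZ.n1 (-14400, 9984) (by decide +kernel)
          (CovZ.n2 (-14496, 10080) (by decide +kernel)
           (CovZ.badM (by decide +kernel))
           (CovZ.n1 (-14496, 9984) (by decide +kernel)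
            (CovZ.n2 (-14544, 10032) (by decide +kernel)
             (CovZ.badM (by decide +kernel))
             (CovZ.leaf K2_ok TB_l45678 _))
            (CovZ.badM (by decide +kernel))))
          (CovZ.badM (by decide +kernel))))
        (CovZ.badM (by decide +kernel))))))
    TB_u299))
    (CovZ.topM TB_LL 7957186959686283300714416125615969330164290246202152562356755923215164984937165044580392 (by decide +kernel) (CovZ.n0 (-14592, 9984) (by decide +kernel)
    (CovZ.n2 (-15360, 9984) (by decide +kernel)
     TB_u300
     TB_u301)
    (CovZ.n1 (-14592, 10752) (by decide +kernel)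
     (CovZ.subM 28948022309329048855892746252171976963317496166410141009864396001978282409984 (by decide +kernel)
      (CovZ.n2 (-14208, 10368) (by decide +kernel)
       (CovZ.n2 (-14592, 10368) (by decide +kernel)
        (CovZ.badM (by decide +kernel))
        (CovZ.n1 (-14400, 10176) (by decide +kernel)
         (CovZ.n2 (-14592, 10176) (by decide +kernel)
          (CovZ.badM (by decide +kernel))
          (CovZ.n1 (-14496, 10080) (by decide +kernel)
           (CovZ.n2 (-14592, 10080) (by decide +kernel)
            (CovZ.badM (by decide +kernel))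
            (CovZ.n1 (-14544, 10032) (by decide +kernel)
             (CovZ.leaf K2_ok TB_l45743 _)
             (CovZ.badM (by decide +kernel))))
           (CovZ.badM (by decide +kernel))))
         (CovZ.badM (by decide +kernel))))
       (CovZ.badM (by decide +kernel))))
     TB_u302)))

theorem TB_s12_9 : SqZ TB_M TB_L [0, 7, 6, 1] (-32256) (-4608) 1536 12 9 :=
  SqZ.mk (a := (-13824)) (b := (-12288)) (c := 9216) (d := 10752) (by norm_num) (by norm_num) (by norm_num) (by norm_num)
    (CovZ.topM TB_LL 121416805764108066932466369176469931665150427440758720078238275608681517825325531136 (by decide +kernel) (CovZ.n2 (-13056, 9984) (by decide +kernel)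
    (CovZ.badM (by decide +kernel))
    (CovZ.badM (by decide +kernel))))
    (CovZ.topM TB_LL 121416805764108066932466369176469931665150427440758720078238275608681517825325531136 (by decide +kernel) (CovZ.n0 (-13056, 9984) (by decide +kernel)
    (CovZ.badM (by decide +kernel))
    (CovZ.badM (by decide +kernel))))

theorem TB_s0_10 : SqZ TB_M TB_L [0, 7, 6, 1] (-32256) (-4608) 1536 0 10 :=
  SqZ.mk (a := (-32256)) (b := (-30720)) (c := 10752) (d := 12288) (by norm_num) (by norm_num) (by norm_num) (by norm_num)
    (CovZ.topM TB_LL 2353129859973906143154175441529284225823720636258563057311064562201646888730119284886260675824942078871207936 (by decide +kernel) (CovZ.leaf K2_ok TB_l1831 _))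
    (CovZ.topM TB_LL 2353129859973906143154175441529284225823720636258563057311064562201646888730119284886260675824942078871207936 (by decide +kernel) (CovZ.leaf K2_ok TB_l1832 _))

theorem TB_s1_10 : SqZ TB_M TB_L [0, 7, 6, 1] (-32256) (-4608) 1536 1 10 :=
  SqZ.mk (a := (-30720)) (b := (-29184)) (c := 10752) (d := 12288) (by norm_num) (by norm_num) (by norm_num) (by norm_num)
    (CovZ.topM TB_LL 5043456795491623199145623275972558008579490852443297809755944613054516948958865054560048546623859907511181296595369984 (by decide +kernel) (CovZ.leaf K2_ok TB_l4975 _))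
    (CovZ.topM TB_LL 5043456795491623199145623275972558008579490852443297809755944613054516948958865054560048546623859907511181296595369984 (by decide +kernel) (CovZ.leaf K2_ok TB_l4976 _))

theorem TB_s2_10 : SqZ TB_M TB_L [0, 7, 6, 1] (-32256) (-4608) 1536 2 10 :=
  SqZ.mk (a := (-29184)) (b := (-27648)) (c := 10752) (d := 12288) (by norm_num) (by norm_num) (by norm_num) (by norm_num)
    (CovZ.topM TB_LL 5043457394365394529273023472541361742722320531872952156456151606450079344270472541970842446593922386717194672858726400 (by decide +kernel) (CovZ.leaf K2_ok TB_l8266 _))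
    (CovZ.topM TB_LL 5043457394365394529273023472541361742722320531872952156456151606450079344270472541970842446593922386717194672858726400 (by decide +kernel) (CovZ.leaf K2_ok TB_l8267 _))

theorem TB_s3_10 : SqZ TB_M TB_L [0, 7, 6, 1] (-32256) (-4608) 1536 3 10 :=
  SqZ.mk (a := (-27648)) (b := (-26112)) (c := 10752) (d := 12288) (by norm_num) (by norm_num) (by norm_num) (by norm_num)
    (CovZ.topM TB_LL 5043456793138493409163740325890678490535391066932433103450881491608005896667886977445133152830331249669272369090527360 (by decide +kernel) (CovZ.n2 (-26880, 11520) (by decide +kernel)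
    (CovZ.leaf K2_ok TB_l11596 _)
    (CovZ.n1 (-26880, 10752) (by decide +kernel)
     (CovZ.leaf K2_ok TB_l11597 _)
     (CovZ.leaf K2_ok TB_l11598 _))))
    (CovZ.topM TB_LL 5043456793138493409163740325890678490535391066932433103450881491608005896667886977445133152830331249669272369090527360 (by decide +kernel) (CovZ.n0 (-26880, 11520) (by decide +kernel)
    (CovZ.leaf K2_ok TB_l11599 _)
    (CovZ.leaf K2_ok TB_l11600 _)))

theorem TB_s4_10 : SqZ TB_M TB_L [0, 7, 6, 1] (-32256) (-4608) 1536 4 10 :=
  SqZ.mk (a := (-26112)) (b := (-24576)) (c := 10752) (d := 12288) (by norm_num) (by norm_num) (by norm_num) (by norm_num)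
    (CovZ.topM TB_LL 631663411835949099859883151205914022257904644374446960892027670799798706760137269538072325248303414314334467127517316 (by decide +kernel) (CovZ.n2 (-25344, 11520) (by decide +kernel)
    (CovZ.leaf K2_ok TB_l13805 _)
    (CovZ.n1 (-25344, 10752) (by decide +kernel)
     (CovZ.leaf K2_ok TB_l13806 _)
     (CovZ.leaf K2_ok TB_l13807 _))))
    (CovZ.topM TB_LL 631663411835949099859883151205914022257904644374446960892027670799798706760137269538072325248303414314334467127517316 (by decide +kernel) (CovZ.n0 (-25344, 11520) (by decide +kernel)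
    (CovZ.leaf K2_ok TB_l13808 _)
    (CovZ.leaf K2_ok TB_l13809 _)))

theorem TB_s5_10 : SqZ TB_M TB_L [0, 7, 6, 1] (-32256) (-4608) 1536 5 10 :=
  SqZ.mk (a := (-24576)) (b := (-23040)) (c := 10752) (d := 12288) (by norm_num) (by norm_num) (by norm_num) (by norm_num)
    (CovZ.topM TB_LL 631665816743553873388612858716202337208920867230133003189890455038883249160679227285981561237943844681777360278921348 (by decide +kernel) (CovZ.n2 (-23808, 11520) (by decide +kernel)
    (CovZ.leaf K2_ok TB_l15537 _)
    (CovZ.n1 (-23808, 10752) (by decide +kernel)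
     (CovZ.leaf K2_ok TB_l15538 _)
     (CovZ.leaf K2_ok TB_l15539 _))))
    (CovZ.topM TB_LL 631665816743553873388612858716202337208920867230133003189890455038883249160679227285981561237943844681777360278921348 (by decide +kernel) (CovZ.n0 (-23808, 11520) (by decide +kernel)
    (CovZ.n2 (-24576, 11520) (by decide +kernel)
     (CovZ.leaf K2_ok TB_l15540 _)
     (CovZ.leaf K2_ok TB_l15541 _))
    (CovZ.leaf K2_ok TB_l15542 _)))

theorem TB_s6_10 : SqZ TB_M TB_L [0, 7, 6, 1] (-32256) (-4608) 1536 6 10 :=
  SqZ.mk (a := (-23040)) (b := (-21504)) (c := 10752) (d := 12288) (by norm_num) (by norm_num) (by norm_num) (by norm_num)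
    (CovZ.topM TB_LL 631665816743553873419968480907572571934079037432418850247222344082618840339196834005202465370053364054402025249865860 (by decide +kernel) (CovZ.n2 (-22272, 11520) (by decide +kernel)
    (CovZ.n2 (-21504, 11520) (by decide +kernel)
     (CovZ.leaf K2_ok TB_l18570 _)
     (CovZ.leaf K2_ok TB_l18571 _))
    (CovZ.n1 (-22272, 10752) (by decide +kernel)
     (CovZ.leaf K2_ok TB_l18572 _)
     (CovZ.leaf K2_ok TB_l18573 _))))
    (CovZ.topM TB_LL 631665816743553873419968480907572571934079037432418850247222344082618840339196834005202465370053364054402025249865860 (by decide +kernel) (CovZ.n0 (-22272, 11520) (by decide +kernel)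
    (CovZ.n2 (-23040, 11520) (by decide +kernel)
     (CovZ.leaf K2_ok TB_l18574 _)
     (CovZ.leaf K2_ok TB_l18575 _))
    (CovZ.n1 (-22272, 12288) (by decide +kernel)
     (CovZ.leaf K2_ok TB_l18576 _)
     (CovZ.leaf K2_ok TB_l18577 _))))

theorem TB_s7_10 : SqZ TB_M TB_L [0, 7, 6, 1] (-32256) (-4608) 1536 7 10 :=
  SqZ.mk (a := (-21504)) (b := (-19968)) (c := 10752) (d := 12288) (by norm_num) (by norm_num) (by norm_num) (by norm_num)
    (CovZ.topM TB_LL 1233717610416200464652581674333940867107877451712168667529398335986024995360073343936895725831726808696153043894304 (by decide +kernel) (CovZ.n2 (-20736, 11520) (by decide +kernel)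
    (CovZ.n2 (-19968, 11520) (by decide +kernel)
     (CovZ.n2 (-20352, 11136) (by decide +kernel)
      (CovZ.n2 (-20352, 11520) (by decide +kernel)
       (CovZ.leaf K2_ok TB_l19394 _)
       (CovZ.leaf K2_ok TB_l19395 _))
      (CovZ.leaf K2_ok TB_l19396 _))
     (CovZ.n1 (-20352, 11904) (by decide +kernel)
      (CovZ.leaf K2_ok TB_l19397 _)
      (CovZ.n1 (-20352, 11520) (by decide +kernel)
       (CovZ.leaf K2_ok TB_l19398 _)
       (CovZ.leaf K2_ok TB_l19399 _))))
    (CovZ.n1 (-20736, 10752) (by decide +kernel)
     (CovZ.n2 (-21120, 11136) (by decide +kernel)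
      (CovZ.leaf K2_ok TB_l19400 _)
      (CovZ.leaf K2_ok TB_l19401 _))
     (CovZ.n1 (-20352, 11136) (by decide +kernel)
      (CovZ.n2 (-20352, 10752) (by decide +kernel)
       (CovZ.leaf K2_ok TB_l19402 _)
       (CovZ.leaf K2_ok TB_l19403 _))
      (CovZ.leaf K2_ok TB_l19404 _)))))
    (CovZ.topM TB_LL 1233717610416200464652581674333940867107877452574886909456201393127680660801914570576081066642529327042097842257952 (by decide +kernel) (CovZ.n0 (-20736, 11520) (by decide +kernel)
    (CovZ.n2 (-21504, 11520) (by decide +kernel)
     (CovZ.n2 (-21120, 11904) (by decide +kernel)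
      (CovZ.leaf K2_ok TB_l19405 _)
      (CovZ.leaf K2_ok TB_l19406 _))
     (CovZ.n1 (-21120, 11136) (by decide +kernel)
      (CovZ.leaf K2_ok TB_l19407 _)
      (CovZ.leaf K2_ok TB_l19408 _)))
    (CovZ.n1 (-20736, 12288) (by decide +kernel)
     (CovZ.n2 (-20352, 11904) (by decide +kernel)
      (CovZ.leaf K2_ok TB_l19409 _)
      (CovZ.leaf K2_ok TB_l19410 _))
     (CovZ.n1 (-21120, 11904) (by decide +kernel)
      (CovZ.leaf K2_ok TB_l19411 _)
      (CovZ.leaf K2_ok TB_l19412 _)))))

theorem TB_s8_10 : SqZ TB_M TB_L [0, 7, 6, 1] (-32256) (-4608) 1536 8 10 :=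
  SqZ.mk (a := (-19968)) (b := (-18432)) (c := 10752) (d := 12288) (by norm_num) (by norm_num) (by norm_num) (by norm_num)
    (CovZ.topM TB_LL 2480070141578611907050357167358166166129511478388133798006069612809355441738439924769014598554344829701115084832 (by decide +kernel) (CovZ.n2 (-19200, 11520) (by decide +kernel)
    (CovZ.n2 (-18432, 11520) (by decide +kernel)
     (CovZ.n2 (-18816, 11136) (by decide +kernel)
      (CovZ.n2 (-18816, 11520) (by decide +kernel)
       (CovZ.leaf K2_ok TB_l20062 _)
       (CovZ.leaf K2_ok TB_l20063 _))
      (CovZ.leaf K2_ok TB_l20064 _))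
     (CovZ.n1 (-18816, 11904) (by decide +kernel)
      (CovZ.leaf K2_ok TB_l20065 _)
      (CovZ.leaf K2_ok TB_l20066 _)))
    (CovZ.n1 (-19200, 10752) (by decide +kernel)
     (CovZ.n2 (-19584, 11136) (by decide +kernel)
      (CovZ.leaf K2_ok TB_l20067 _)
      (CovZ.n1 (-19584, 10752) (by decide +kernel)
       (CovZ.leaf K2_ok TB_l20068 _)
       (CovZ.leaf K2_ok TB_l20069 _)))
     (CovZ.n1 (-18816, 11136) (by decide +kernel)
      (CovZ.n2 (-18816, 10752) (by decide +kernel)
       (CovZ.leaf K2_ok TB_l20070 _)
       (CovZ.leaf K2_ok TB_l20071 _))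
      (CovZ.leaf K2_ok TB_l20072 _)))))
    (CovZ.topM TB_LL 1233792763778906087290770360296846097574871363680433342171390238495488160801026271531464835063707958604908243976224 (by decide +kernel) (CovZ.n0 (-19200, 11520) (by decide +kernel)
    (CovZ.n2 (-19968, 11520) (by decide +kernel)
     (CovZ.n2 (-19584, 11904) (by decide +kernel)
      (CovZ.n2 (-19584, 11520) (by decide +kernel)
       (CovZ.leaf K2_ok TB_l20073 _)
       (CovZ.leaf K2_ok TB_l20074 _))
      (CovZ.leaf K2_ok TB_l20075 _))
     (CovZ.n1 (-19584, 11136) (by decide +kernel)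
      (CovZ.leaf K2_ok TB_l20076 _)
      (CovZ.n1 (-19584, 11520) (by decide +kernel)
       (CovZ.leaf K2_ok TB_l20077 _)
       (CovZ.leaf K2_ok TB_l20078 _))))
    (CovZ.n1 (-19200, 12288) (by decide +kernel)
     (CovZ.n2 (-18816, 11904) (by decide +kernel)
      (CovZ.leaf K2_ok TB_l20079 _)
      (CovZ.n1 (-18816, 12288) (by decide +kernel)
       (CovZ.leaf K2_ok TB_l20080 _)
       (CovZ.leaf K2_ok TB_l20081 _)))
     (CovZ.n1 (-19584, 11904) (by decide +kernel)
      (CovZ.leaf K2_ok TB_l20082 _)
      (CovZ.leaf K2_ok TB_l20083 _)))))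

theorem TB_s9_10 : SqZ TB_M TB_L [0, 7, 6, 1] (-32256) (-4608) 1536 9 10 :=
  SqZ.mk (a := (-18432)) (b := (-16896)) (c := 10752) (d := 12288) (by norm_num) (by norm_num) (by norm_num) (by norm_num)
    (CovZ.topM TB_LL 1278864181625087268964521132542760524620378609447852138142637569289962228496393886146667428235175768559519268904 (by decide +kernel) (CovZ.n2 (-17664, 11520) (by decide +kernel)
    (CovZ.n2 (-16896, 11520) (by decide +kernel)
     (CovZ.n2 (-17280, 11136) (by decide +kernel)
      (CovZ.n2 (-17280, 11520) (by decide +kernel)
       (CovZ.n2 (-17088, 11328) (by decide +kernel)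
        (CovZ.leaf K2_ok TB_l21482 _)
        (CovZ.n1 (-17088, 11520) (by decide +kernel)
         (CovZ.leaf K2_ok TB_l21483 _)
         (CovZ.leaf K2_ok TB_l21484 _)))
       (CovZ.n1 (-17472, 11328) (by decide +kernel)
        (CovZ.leaf K2_ok TB_l21485 _)
        (CovZ.leaf K2_ok TB_l21486 _)))
      (CovZ.n1 (-16896, 11136) (by decide +kernel)
       (CovZ.n2 (-17088, 10944) (by decide +kernel)
        (CovZ.n2 (-17088, 11136) (by decide +kernel)
         (CovZ.n2 (-16992, 11040) (by decide +kernel)
          (CovZ.leaf K2_ok TB_l21487 _)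
          (CovZ.leaf K2_ok TB_l21488 _))
         (CovZ.leaf K2_ok TB_l21489 _))
        (CovZ.n1 (-16896, 10944) (by decide +kernel)
         (CovZ.n2 (-16992, 10848) (by decide +kernel)
          (CovZ.leaf K2_ok TB_l21490 _)
          (CovZ.leaf K2_ok TB_l21491 _))
         (CovZ.leaf K2_ok TB_l21492 _)))
       (CovZ.n1 (-17088, 11328) (by decide +kernel)
        (CovZ.n2 (-16896, 11328) (by decide +kernel)
         (CovZ.leaf K2_ok TB_l21493 _)
         (CovZ.leaf K2_ok TB_l21494 _))
        (CovZ.n1 (-17088, 11136) (by decide +kernel)
         (CovZ.leaf K2_ok TB_l21495 _)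
         (CovZ.leaf K2_ok TB_l21496 _)))))
     (CovZ.n1 (-17280, 11904) (by decide +kernel)
      (CovZ.n2 (-16896, 11904) (by decide +kernel)
       (CovZ.n2 (-17088, 11712) (by decide +kernel)
        (CovZ.n2 (-17088, 11904) (by decide +kernel)
         (CovZ.n2 (-16992, 11808) (by decide +kernel)
          (CovZ.leaf K2_ok TB_l21497 _)
          (CovZ.leaf K2_ok TB_l21498 _))
         (CovZ.leaf K2_ok TB_l21499 _))
        (CovZ.n1 (-16896, 11712) (by decide +kernel)
         (CovZ.n2 (-16992, 11616) (by decide +kernel)
          (CovZ.leaf K2_ok TB_l21500 _)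
          (CovZ.leaf K2_ok TB_l21501 _))
         (CovZ.n1 (-16992, 11808) (by decide +kernel)
          (CovZ.leaf K2_ok TB_l21502 _)
          (CovZ.leaf K2_ok TB_l21503 _))))
       (CovZ.n1 (-17088, 12096) (by decide +kernel)
        (CovZ.n2 (-16896, 12096) (by decide +kernel)
         (CovZ.n2 (-16992, 12000) (by decide +kernel)
          (CovZ.leaf K2_ok TB_l21504 _)
          (CovZ.leaf K2_ok TB_l21505 _))
         (CovZ.n1 (-16992, 12192) (by decide +kernel)
          (CovZ.leaf K2_ok TB_l21506 _)
          (CovZ.leaf K2_ok TB_l21507 _)))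
        (CovZ.n1 (-17088, 11904) (by decide +kernel)
         (CovZ.leaf K2_ok TB_l21508 _)
         (CovZ.n1 (-16992, 12000) (by decide +kernel)
          (CovZ.leaf K2_ok TB_l21509 _)
          (CovZ.leaf K2_ok TB_l21510 _)))))
      (CovZ.n1 (-17280, 11520) (by decide +kernel)
       (CovZ.n2 (-17472, 11712) (by decide +kernel)
        (CovZ.leaf K2_ok TB_l21511 _)
        (CovZ.leaf K2_ok TB_l21512 _))
       (CovZ.n1 (-17088, 11712) (by decide +kernel)
        (CovZ.n2 (-17088, 11520) (by decide +kernel)
         (CovZ.leaf K2_ok TB_l21513 _)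
         (CovZ.n1 (-16992, 11616) (by decide +kernel)
          (CovZ.leaf K2_ok TB_l21514 _)
          (CovZ.leaf K2_ok TB_l21515 _)))
        (CovZ.leaf K2_ok TB_l21516 _)))))
    (CovZ.n1 (-17664, 10752) (by decide +kernel)
     (CovZ.subM 75162536818206681561158733760463120573528068347811793301326290720412148414954947544592794785490850333836967976 (by decide +kernel)
      (CovZ.n2 (-18048, 11136) (by decide +kernel)
       (CovZ.n2 (-17664, 11136) (by decide +kernel)
        (CovZ.leaf K2_ok TB_l21517 _)
        (CovZ.leaf K2_ok TB_l21518 _))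
       (CovZ.n1 (-18048, 10752) (by decide +kernel)
        (CovZ.leaf K2_ok TB_l21519 _)
        (CovZ.leaf K2_ok TB_l21520 _))))
     (CovZ.n1 (-17280, 11136) (by decide +kernel)
      (CovZ.n2 (-17280, 10752) (by decide +kernel)
       (CovZ.n2 (-17472, 10944) (by decide +kernel)
        (CovZ.leaf K2_ok TB_l21521 _)
        (CovZ.leaf K2_ok TB_l21522 _))
       (CovZ.n1 (-17088, 10944) (by decide +kernel)
        (CovZ.n2 (-17088, 10752) (by decide +kernel)
         (CovZ.leaf K2_ok TB_l21523 _)
         (CovZ.n1 (-16992, 10848) (by decide +kernel)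
          (CovZ.leaf K2_ok TB_l21524 _)
          (CovZ.leaf K2_ok TB_l21525 _)))
        (CovZ.leaf K2_ok TB_l21526 _)))
      (CovZ.subM 75153362788746710721546519570631732998843619004319184988067779825935802594903426097347384182719628261950750760 (by decide +kernel)
       (CovZ.n1 (-17664, 11136) (by decide +kernel)
        (CovZ.n2 (-17472, 11328) (by decide +kernel)
         (CovZ.leaf K2_ok TB_l21527 _)
         (CovZ.leaf K2_ok TB_l21528 _))
        (CovZ.n1 (-17472, 10944) (by decide +kernel)
         (CovZ.leaf K2_ok TB_l21529 _)
         (CovZ.leaf K2_ok TB_l21530 _))))))))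
    (CovZ.topM TB_LL 1288258351956182602006449359358008695864323739035710392862959685159119474654981254737378886228735735565584957480 (by decide +kernel) (CovZ.n0 (-17664, 11520) (by decide +kernel)
    (CovZ.subM 84556707149302014603086958633042399591744127016208141198129499947162555521402794883491843040146532134694158376 (by decide +kernel)
     (CovZ.n2 (-18432, 11520) (by decide +kernel)
      (CovZ.n2 (-18048, 11904) (by decide +kernel)
       (CovZ.n2 (-18048, 11520) (by decide +kernel)
        (CovZ.leaf K2_ok TB_l21531 _)
        (CovZ.leaf K2_ok TB_l21532 _))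
       (CovZ.leaf K2_ok TB_l21533 _))
      (CovZ.n1 (-18048, 11136) (by decide +kernel)
       (CovZ.n2 (-18432, 11136) (by decide +kernel)
        (CovZ.leaf K2_ok TB_l21534 _)
        (CovZ.leaf K2_ok TB_l21535 _))
       (CovZ.n1 (-18048, 11520) (by decide +kernel)
        (CovZ.leaf K2_ok TB_l21536 _)
        (CovZ.leaf K2_ok TB_l21537 _)))))
    (CovZ.n1 (-17664, 12288) (by decide +kernel)
     (CovZ.n2 (-17280, 11904) (by decide +kernel)
      (CovZ.subM 1277616339163413283719599604031734919970409002849180505037005586199036928323175831864216206646784526783057231912 (by decide +kernel)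
       (CovZ.n2 (-17664, 11904) (by decide +kernel)
        (CovZ.n2 (-17472, 12096) (by decide +kernel)
         (CovZ.leaf K2_ok TB_l21538 _)
         (CovZ.leaf K2_ok TB_l21539 _))
        (CovZ.n1 (-17472, 11712) (by decide +kernel)
         (CovZ.leaf K2_ok TB_l21540 _)
         (CovZ.leaf K2_ok TB_l21541 _))))
      (CovZ.n1 (-17280, 12288) (by decide +kernel)
       (CovZ.n2 (-17088, 12096) (by decide +kernel)
        (CovZ.n2 (-17280, 12096) (by decide +kernel)
         (CovZ.leaf K2_ok TB_l21542 _)
         (CovZ.leaf K2_ok TB_l21543 _))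
        (CovZ.n1 (-17088, 12288) (by decide +kernel)
         (CovZ.n2 (-16992, 12192) (by decide +kernel)
          (CovZ.leaf K2_ok TB_l21544 _)
          (CovZ.leaf K2_ok TB_l21545 _))
         (CovZ.leaf K2_ok TB_l21546 _)))
       (CovZ.n1 (-17472, 12096) (by decide +kernel)
        (CovZ.leaf K2_ok TB_l21547 _)
        (CovZ.leaf K2_ok TB_l21548 _))))
     (CovZ.subM 84556707149302014603086958633042399591744127016208141198129499947162555521402794883491843040146532134694158376 (by decide +kernel)
      (CovZ.n1 (-18048, 11904) (by decide +kernel)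
       (CovZ.n2 (-18048, 12288) (by decide +kernel)
        (CovZ.leaf K2_ok TB_l21549 _)
        (CovZ.leaf K2_ok TB_l21550 _))
       (CovZ.n1 (-17664, 11904) (by decide +kernel)
        (CovZ.leaf K2_ok TB_l21551 _)
        (CovZ.leaf K2_ok TB_l21552 _)))))))

theorem TB_s10_10 : SqZ TB_M TB_L [0, 7, 6, 1] (-32256) (-4608) 1536 10 10 :=
  SqZ.mk (a := (-16896)) (b := (-15360)) (c := 10752) (d := 12288) (by norm_num) (by norm_num) (by norm_num) (by norm_num)
    (CovZ.topM TB_LL 19701079499366619114949045631819295023783698566064412971886882564237712101174080587750960384951671523170521391829032 (by decide +kernel) (CovZ.n2 (-16128, 11520) (by decide +kernel)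
    TB_u303
    TB_u304))
    (CovZ.topM TB_LL 19701079499366619114949045631819295023783698566064412978314634741273673203341928957118146096240939957104686139445288 (by decide +kernel) (CovZ.n0 (-16128, 11520) (by decide +kernel)
    TB_u305
    TB_u306))

theorem TB_s11_10 : SqZ TB_M TB_L [0, 7, 6, 1] (-32256) (-4608) 1536 11 10 :=
  SqZ.mk (a := (-15360)) (b := (-13824)) (c := 10752) (d := 12288) (by norm_num) (by norm_num) (by norm_num) (by norm_num)
    (CovZ.topM TB_LL 7957308376492047408781348591985145800095955396629593321076834161490773666454990370111528 (by decide +kernel) (CovZ.n2 (-14592, 11520) (by decide +kernel)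
    (CovZ.badM (by decide +kernel))
    (CovZ.n1 (-14592, 10752) (by decide +kernel)
     TB_u307
     TB_u308)))
    (CovZ.topM TB_LL 139984046386120720468216634582936548731194828722965691886645948403558068782921852091426764927092654120 (by decide +kernel) (CovZ.n0 (-14592, 11520) (by decide +kernel)
    (CovZ.n2 (-15360, 11520) (by decide +kernel)
     TB_u309
     TB_u310)
    (CovZ.n1 (-14592, 12288) (by decide +kernel)
     (CovZ.badM (by decide +kernel))
     (CovZ.n1 (-14976, 11904) (by decide +kernel)
      (CovZ.n2 (-14976, 12288) (by decide +kernel)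
       (CovZ.badM (by decide +kernel))
       (CovZ.n1 (-15168, 12096) (by decide +kernel)
        (CovZ.n2 (-15168, 12288) (by decide +kernel)
         (CovZ.subM 121416805764108066932466369176469931665150427440758720078238275608681517825325531136 (by decide +kernel)
          (CovZ.n2 (-15072, 12192) (by decide +kernel)
           (CovZ.n2 (-15168, 12192) (by decide +kernel)
            (CovZ.badM (by decide +kernel))
            (CovZ.n1 (-15120, 12144) (by decide +kernel)
             (CovZ.leaf K2_ok TB_l33021 _)
             (CovZ.badM (by decide +kernel))))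
           (CovZ.badM (by decide +kernel))))
         (CovZ.n1 (-15264, 12192) (by decide +kernel)
          (CovZ.n2 (-15264, 12288) (by decide +kernel)
           (CovZ.leaf K2_ok TB_l33026 _)
           (CovZ.leaf K2_ok TB_l33027 _))
          (CovZ.n1 (-15168, 12192) (by decide +kernel)
           (CovZ.leaf K2_ok TB_l33028 _)
           (CovZ.leaf K2_ok TB_l33029 _))))
        (CovZ.subM 121416805764108066932466369176469931665150427440758720078238275608681517825325531136 (by decide +kernel)
         (CovZ.n1 (-14976, 12096) (by decide +kernel)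
          (CovZ.n2 (-15072, 12000) (by decide +kernel)
           (CovZ.n2 (-15072, 12096) (by decide +kernel)
            (CovZ.badM (by decide +kernel))
            (CovZ.leaf K2_ok TB_l33032 _))
           (CovZ.badM (by decide +kernel)))
          (CovZ.n1 (-15072, 12192) (by decide +kernel)
           (CovZ.badM (by decide +kernel))
           (CovZ.n1 (-15072, 12096) (by decide +kernel)
            (CovZ.leaf K2_ok TB_l33041 _)
            (CovZ.badM (by decide +kernel))))))))
      (CovZ.badM (by decide +kernel))))))

theorem TB_s12_10 : SqZ TB_M TB_L [0, 7, 6, 1] (-32256) (-4608) 1536 12 10 :=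
  SqZ.mk (a := (-13824)) (b := (-12288)) (c := 10752) (d := 12288) (by norm_num) (by norm_num) (by norm_num) (by norm_num)
    (CovZ.topM TB_LL 0 (by decide +kernel) (CovZ.badM (by decide +kernel)))
    (CovZ.topM TB_LL 0 (by decide +kernel) (CovZ.badM (by decide +kernel)))

theorem TB_s0_11 : SqZ TB_M TB_L [0, 7, 6, 1] (-32256) (-4608) 1536 0 11 :=
  SqZ.mk (a := (-32256)) (b := (-30720)) (c := 12288) (d := 13824) (by norm_num) (by norm_num) (by norm_num) (by norm_num)
    (CovZ.topM TB_LL 2353129859973906143154175441529284225823720636258563057311064562201646888730119284886260675824942078871207936 (by decide +kernel) (CovZ.leaf K2_ok TB_l1833 _))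
    (CovZ.topM TB_LL 2353129859973906143154175441529284225823720636258563057311064562201646888730119284886260675824942078871207936 (by decide +kernel) (CovZ.leaf K2_ok TB_l1834 _))

theorem TB_s1_11 : SqZ TB_M TB_L [0, 7, 6, 1] (-32256) (-4608) 1536 1 11 :=
  SqZ.mk (a := (-30720)) (b := (-29184)) (c := 12288) (d := 13824) (by norm_num) (by norm_num) (by norm_num) (by norm_num)
    (CovZ.topM TB_LL 5043456795491623199145623275972558008579490852443297809755944613054516948958865054560048546623859907511181296595369984 (by decide +kernel) (CovZ.leaf K2_ok TB_l4977 _))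
    (CovZ.topM TB_LL 5043456795491623199145623275972558008579490852443297809755944613054516948958865054560048546623859907511181296595369984 (by decide +kernel) (CovZ.leaf K2_ok TB_l4978 _))

theorem TB_s2_11 : SqZ TB_M TB_L [0, 7, 6, 1] (-32256) (-4608) 1536 2 11 :=
  SqZ.mk (a := (-29184)) (b := (-27648)) (c := 12288) (d := 13824) (by norm_num) (by norm_num) (by norm_num) (by norm_num)
    (CovZ.topM TB_LL 5043457394365394529273023472541361742722320531872952156456151606450079344270472541970842446593922386717194672858726400 (by decide +kernel) (CovZ.leaf K2_ok TB_l8268 _))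
    (CovZ.topM TB_LL 5043456793138493339171717132834328964652041523698219635926264656343733324316518645163976051077084924416754786808102912 (by decide +kernel) (CovZ.leaf K2_ok TB_l8269 _))

theorem TB_s3_11 : SqZ TB_M TB_L [0, 7, 6, 1] (-32256) (-4608) 1536 3 11 :=
  SqZ.mk (a := (-27648)) (b := (-26112)) (c := 12288) (d := 13824) (by norm_num) (by norm_num) (by norm_num) (by norm_num)
    (CovZ.topM TB_LL 5043456793138493409163740325890678490535391066932433103450881491608005896667886977445133152830331249669272369090527360 (by decide +kernel) (CovZ.leaf K2_ok TB_l11601 _))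
    (CovZ.topM TB_LL 5043456793138493409163740325890678490535391066932433103450881491608005896667886977445133152830331249669272369090527360 (by decide +kernel) (CovZ.leaf K2_ok TB_l11602 _))

theorem TB_s4_11 : SqZ TB_M TB_L [0, 7, 6, 1] (-32256) (-4608) 1536 4 11 :=
  SqZ.mk (a := (-26112)) (b := (-24576)) (c := 12288) (d := 13824) (by norm_num) (by norm_num) (by norm_num) (by norm_num)
    (CovZ.topM TB_LL 631663411835949099859883151205914022257904644374446960892027670799798706760137269538072325248303414314334467127517316 (by decide +kernel) (CovZ.leaf K2_ok TB_l13810 _))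
    (CovZ.topM TB_LL 631663411835949099859883151205914022257904644374446960892027670799798706760137269538072325248303414314334467127517316 (by decide +kernel) (CovZ.leaf K2_ok TB_l13811 _))

theorem TB_s5_11 : SqZ TB_M TB_L [0, 7, 6, 1] (-32256) (-4608) 1536 5 11 :=
  SqZ.mk (a := (-24576)) (b := (-23040)) (c := 12288) (d := 13824) (by norm_num) (by norm_num) (by norm_num) (by norm_num)
    (CovZ.topM TB_LL 631665816743553873388612858716202337208920867230133003189890455038836481108284638392599043323296923625148370437537924 (by decide +kernel) (CovZ.leaf K2_ok TB_l15543 _))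
    (CovZ.topM TB_LL 631665816743553873388612858716202337208920867230133003189890455038836481108284638392599043323296923625148370437537924 (by decide +kernel) (CovZ.leaf K2_ok TB_l15544 _))

theorem TB_s6_11 : SqZ TB_M TB_L [0, 7, 6, 1] (-32256) (-4608) 1536 6 11 :=
  SqZ.mk (a := (-23040)) (b := (-21504)) (c := 12288) (d := 13824) (by norm_num) (by norm_num) (by norm_num) (by norm_num)
    (CovZ.topM TB_LL 631665816743553873402847209822769027054881441568903534078610040645603795480090078617502485380592917145625319283392644 (by decide +kernel) (CovZ.n2 (-22272, 13056) (by decide +kernel)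
    (CovZ.leaf K2_ok TB_l18578 _)
    (CovZ.n1 (-22272, 12288) (by decide +kernel)
     (CovZ.leaf K2_ok TB_l18579 _)
     (CovZ.leaf K2_ok TB_l18580 _))))
    (CovZ.topM TB_LL 631665816743553873402847209822769027054881441568903534078610040645603795480090078617502485380592917145625319283392644 (by decide +kernel) (CovZ.n0 (-22272, 13056) (by decide +kernel)
    (CovZ.leaf K2_ok TB_l18581 _)
    (CovZ.n1 (-22272, 13824) (by decide +kernel)
     (CovZ.leaf K2_ok TB_l18582 _)
     (CovZ.leaf K2_ok TB_l18583 _))))

theorem TB_s7_11 : SqZ TB_M TB_L [0, 7, 6, 1] (-32256) (-4608) 1536 7 11 :=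
  SqZ.mk (a := (-21504)) (b := (-19968)) (c := 12288) (d := 13824) (by norm_num) (by norm_num) (by norm_num) (by norm_num)
    (CovZ.topM TB_LL 1233717610416200464652581674333940867107877452574886909456201393127680660801914570576081066642529327043197353885728 (by decide +kernel) (CovZ.n2 (-20736, 13056) (by decide +kernel)
    (CovZ.n2 (-19968, 13056) (by decide +kernel)
     (CovZ.n2 (-20352, 12672) (by decide +kernel)
      (CovZ.leaf K2_ok TB_l19413 _)
      (CovZ.leaf K2_ok TB_l19414 _))
     (CovZ.n1 (-20352, 13440) (by decide +kernel)
      (CovZ.leaf K2_ok TB_l19415 _)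
      (CovZ.n1 (-20352, 13056) (by decide +kernel)
       (CovZ.leaf K2_ok TB_l19416 _)
       (CovZ.leaf K2_ok TB_l19417 _))))
    (CovZ.n1 (-20736, 12288) (by decide +kernel)
     (CovZ.n2 (-21120, 12672) (by decide +kernel)
      (CovZ.leaf K2_ok TB_l19418 _)
      (CovZ.leaf K2_ok TB_l19419 _))
     (CovZ.n1 (-20352, 12672) (by decide +kernel)
      (CovZ.leaf K2_ok TB_l19420 _)
      (CovZ.leaf K2_ok TB_l19421 _)))))
    (CovZ.topM TB_LL 1233717610416200464652581674333940867107877452574886909456201393127680660801914570576081066642529327043197353885728 (by decide +kernel) (CovZ.n0 (-20736, 13056) (by decide +kernel)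
    (CovZ.n2 (-21504, 13056) (by decide +kernel)
     (CovZ.leaf K2_ok TB_l19422 _)
     (CovZ.n1 (-21120, 12672) (by decide +kernel)
      (CovZ.leaf K2_ok TB_l19423 _)
      (CovZ.leaf K2_ok TB_l19424 _)))
    (CovZ.n1 (-20736, 13824) (by decide +kernel)
     (CovZ.n2 (-20352, 13440) (by decide +kernel)
      (CovZ.leaf K2_ok TB_l19425 _)
      (CovZ.n1 (-20352, 13824) (by decide +kernel)
       (CovZ.leaf K2_ok TB_l19426 _)
       (CovZ.leaf K2_ok TB_l19427 _)))
     (CovZ.leaf K2_ok TB_l19428 _))))

theorem TB_s8_11 : SqZ TB_M TB_L [0, 7, 6, 1] (-32256) (-4608) 1536 8 11 :=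
  SqZ.mk (a := (-19968)) (b := (-18432)) (c := 12288) (d := 13824) (by norm_num) (by norm_num) (by norm_num) (by norm_num)
    (CovZ.topM TB_LL 1233792763778906087290770360296967514380642539135624922077885041617156282902530340187130575815149126547538739986464 (by decide +kernel) (CovZ.n2 (-19200, 13056) (by decide +kernel)
    (CovZ.n2 (-18432, 13056) (by decide +kernel)
     (CovZ.n2 (-18816, 12672) (by decide +kernel)
      (CovZ.n2 (-18816, 13056) (by decide +kernel)
       (CovZ.leaf K2_ok TB_l20084 _)
       (CovZ.leaf K2_ok TB_l20085 _))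
      (CovZ.leaf K2_ok TB_l20086 _))
     (CovZ.n1 (-18816, 13440) (by decide +kernel)
      (CovZ.n2 (-18432, 13440) (by decide +kernel)
       (CovZ.leaf K2_ok TB_l20087 _)
       (CovZ.leaf K2_ok TB_l20088 _))
      (CovZ.n1 (-18816, 13056) (by decide +kernel)
       (CovZ.leaf K2_ok TB_l20089 _)
       (CovZ.leaf K2_ok TB_l20090 _))))
    (CovZ.n1 (-19200, 12288) (by decide +kernel)
     (CovZ.n2 (-19584, 12672) (by decide +kernel)
      (CovZ.leaf K2_ok TB_l20091 _)
      (CovZ.n1 (-19584, 12288) (by decide +kernel)
       (CovZ.leaf K2_ok TB_l20092 _)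
       (CovZ.leaf K2_ok TB_l20093 _)))
     (CovZ.n1 (-18816, 12672) (by decide +kernel)
      (CovZ.n2 (-18816, 12288) (by decide +kernel)
       (CovZ.leaf K2_ok TB_l20094 _)
       (CovZ.leaf K2_ok TB_l20095 _))
      (CovZ.leaf K2_ok TB_l20096 _)))))
    (CovZ.topM TB_LL 1233792763778906087290770360296967514380642540214022788763910633404202261792648292862167273924951096547696644751392 (by decide +kernel) (CovZ.n0 (-19200, 13056) (by decide +kernel)
    (CovZ.n2 (-19968, 13056) (by decide +kernel)
     (CovZ.n2 (-19584, 13440) (by decide +kernel)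
      (CovZ.n2 (-19584, 13056) (by decide +kernel)
       (CovZ.leaf K2_ok TB_l20097 _)
       (CovZ.leaf K2_ok TB_l20098 _))
      (CovZ.leaf K2_ok TB_l20099 _))
     (CovZ.n1 (-19584, 12672) (by decide +kernel)
      (CovZ.leaf K2_ok TB_l20100 _)
      (CovZ.n1 (-19584, 13056) (by decide +kernel)
       (CovZ.leaf K2_ok TB_l20101 _)
       (CovZ.leaf K2_ok TB_l20102 _))))
    (CovZ.n1 (-19200, 13824) (by decide +kernel)
     (CovZ.n2 (-18816, 13440) (by decide +kernel)
      (CovZ.leaf K2_ok TB_l20103 _)
      (CovZ.n1 (-18816, 13824) (by decide +kernel)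
       (CovZ.leaf K2_ok TB_l20104 _)
       (CovZ.leaf K2_ok TB_l20105 _)))
     (CovZ.n1 (-19584, 13440) (by decide +kernel)
      (CovZ.n2 (-19584, 13824) (by decide +kernel)
       (CovZ.leaf K2_ok TB_l20106 _)
       (CovZ.leaf K2_ok TB_l20107 _))
      (CovZ.n1 (-19200, 13440) (by decide +kernel)
       (CovZ.leaf K2_ok TB_l20108 _)
       (CovZ.leaf K2_ok TB_l20109 _))))))

theorem TB_s9_11 : SqZ TB_M TB_L [0, 7, 6, 1] (-32256) (-4608) 1536 9 11 :=
  SqZ.mk (a := (-18432)) (b := (-16896)) (c := 12288) (d := 13824) (by norm_num) (by norm_num) (by norm_num) (by norm_num)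
    (CovZ.topM TB_LL 1288258351956182602006449359479425501628431805968176762039429616824269902095739974815617161837417253390910488616 (by decide +kernel) (CovZ.n2 (-17664, 13056) (by decide +kernel)
    (CovZ.n2 (-16896, 13056) (by decide +kernel)
     (CovZ.n2 (-17280, 12672) (by decide +kernel)
      (CovZ.n2 (-17280, 13056) (by decide +kernel)
       (CovZ.n2 (-17088, 12864) (by decide +kernel)
        (CovZ.n2 (-17280, 12864) (by decide +kernel)
         (CovZ.leaf K2_ok TB_l21553 _)
         (CovZ.leaf K2_ok TB_l21554 _))
        (CovZ.n1 (-17088, 13056) (by decide +kernel)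
         (CovZ.n2 (-16992, 12960) (by decide +kernel)
          (CovZ.leaf K2_ok TB_l21555 _)
          (CovZ.leaf K2_ok TB_l21556 _))
         (CovZ.leaf K2_ok TB_l21557 _)))
       (CovZ.n1 (-17472, 12864) (by decide +kernel)
        (CovZ.leaf K2_ok TB_l21558 _)
        (CovZ.leaf K2_ok TB_l21559 _)))
      (CovZ.n1 (-16896, 12672) (by decide +kernel)
       (CovZ.n2 (-17088, 12480) (by decide +kernel)
        (CovZ.n2 (-17088, 12672) (by decide +kernel)
         (CovZ.n2 (-16992, 12576) (by decide +kernel)
          (CovZ.leaf K2_ok TB_l21560 _)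
          (CovZ.leaf K2_ok TB_l21561 _))
         (CovZ.leaf K2_ok TB_l21562 _))
        (CovZ.n1 (-16896, 12480) (by decide +kernel)
         (CovZ.n2 (-16992, 12384) (by decide +kernel)
          (CovZ.leaf K2_ok TB_l21563 _)
          (CovZ.leaf K2_ok TB_l21564 _))
         (CovZ.n1 (-16992, 12576) (by decide +kernel)
          (CovZ.leaf K2_ok TB_l21565 _)
          (CovZ.leaf K2_ok TB_l21566 _))))
       (CovZ.n1 (-17088, 12864) (by decide +kernel)
        (CovZ.n2 (-16896, 12864) (by decide +kernel)
         (CovZ.n2 (-16992, 12768) (by decide +kernel)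
          (CovZ.leaf K2_ok TB_l21567 _)
          (CovZ.leaf K2_ok TB_l21568 _))
         (CovZ.n1 (-16992, 12960) (by decide +kernel)
          (CovZ.leaf K2_ok TB_l21569 _)
          (CovZ.leaf K2_ok TB_l21570 _)))
        (CovZ.n1 (-17088, 12672) (by decide +kernel)
         (CovZ.leaf K2_ok TB_l21571 _)
         (CovZ.n1 (-16992, 12768) (by decide +kernel)
          (CovZ.leaf K2_ok TB_l21572 _)
          (CovZ.leaf K2_ok TB_l21573 _))))))
     (CovZ.n1 (-17280, 13440) (by decide +kernel)
      (CovZ.n2 (-16896, 13440) (by decide +kernel)
       (CovZ.n2 (-17088, 13248) (by decide +kernel)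
        (CovZ.n2 (-17088, 13440) (by decide +kernel)
         (CovZ.n2 (-16992, 13344) (by decide +kernel)
          (CovZ.leaf K2_ok TB_l21574 _)
          (CovZ.leaf K2_ok TB_l21575 _))
         (CovZ.leaf K2_ok TB_l21576 _))
        (CovZ.n1 (-16896, 13248) (by decide +kernel)
         (CovZ.n2 (-16992, 13152) (by decide +kernel)
          (CovZ.leaf K2_ok TB_l21577 _)
          (CovZ.leaf K2_ok TB_l21578 _))
         (CovZ.n1 (-16992, 13344) (by decide +kernel)
          (CovZ.leaf K2_ok TB_l21579 _)
          (CovZ.leaf K2_ok TB_l21580 _))))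
       (CovZ.n1 (-17088, 13632) (by decide +kernel)
        (CovZ.n2 (-16896, 13632) (by decide +kernel)
         (CovZ.n2 (-16992, 13536) (by decide +kernel)
          (CovZ.leaf K2_ok TB_l21581 _)
          (CovZ.leaf K2_ok TB_l21582 _))
         (CovZ.n1 (-16992, 13728) (by decide +kernel)
          (CovZ.leaf K2_ok TB_l21583 _)
          (CovZ.leaf K2_ok TB_l21584 _)))
        (CovZ.n1 (-17088, 13440) (by decide +kernel)
         (CovZ.leaf K2_ok TB_l21585 _)
         (CovZ.leaf K2_ok TB_l21586 _))))
      (CovZ.n1 (-17280, 13056) (by decide +kernel)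
       (CovZ.n2 (-17472, 13248) (by decide +kernel)
        (CovZ.leaf K2_ok TB_l21587 _)
        (CovZ.leaf K2_ok TB_l21588 _))
       (CovZ.n1 (-17088, 13248) (by decide +kernel)
        (CovZ.n2 (-17088, 13056) (by decide +kernel)
         (CovZ.leaf K2_ok TB_l21589 _)
         (CovZ.n1 (-16992, 13152) (by decide +kernel)
          (CovZ.leaf K2_ok TB_l21590 _)
          (CovZ.leaf K2_ok TB_l21591 _)))
        (CovZ.n1 (-17280, 13248) (by decide +kernel)
         (CovZ.leaf K2_ok TB_l21592 _)
         (CovZ.leaf K2_ok TB_l21593 _))))))
    (CovZ.n1 (-17664, 12288) (by decide +kernel)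
     (CovZ.subM 84556707149302014603086958754459205355852193948674510374599431612312982962161514961730118648828049960019689512 (by decide +kernel)
      (CovZ.n2 (-18048, 12672) (by decide +kernel)
       (CovZ.n2 (-17664, 12672) (by decide +kernel)
        (CovZ.leaf K2_ok TB_l21594 _)
        (CovZ.leaf K2_ok TB_l21595 _))
       (CovZ.n1 (-18048, 12288) (by decide +kernel)
        (CovZ.leaf K2_ok TB_l21596 _)
        (CovZ.leaf K2_ok TB_l21597 _))))
     (CovZ.n1 (-17280, 12672) (by decide +kernel)
      (CovZ.n2 (-17280, 12288) (by decide +kernel)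
       (CovZ.n2 (-17472, 12480) (by decide +kernel)
        (CovZ.leaf K2_ok TB_l21598 _)
        (CovZ.leaf K2_ok TB_l21599 _))
       (CovZ.n1 (-17088, 12480) (by decide +kernel)
        (CovZ.n2 (-17088, 12288) (by decide +kernel)
         (CovZ.leaf K2_ok TB_l21600 _)
         (CovZ.n1 (-16992, 12384) (by decide +kernel)
          (CovZ.leaf K2_ok TB_l21601 _)
          (CovZ.leaf K2_ok TB_l21602 _)))
        (CovZ.n1 (-17280, 12480) (by decide +kernel)
         (CovZ.leaf K2_ok TB_l21603 _)
         (CovZ.leaf K2_ok TB_l21604 _))))
      (CovZ.subM 1287010509494508616631157528482977966069748870896742060519823588392723030916532506968121687987909404625719001128 (by decide +kernel)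
       (CovZ.n1 (-17664, 12672) (by decide +kernel)
        (CovZ.n2 (-17472, 12864) (by decide +kernel)
         (CovZ.leaf K2_ok TB_l21605 _)
         (CovZ.leaf K2_ok TB_l21606 _))
        (CovZ.n1 (-17472, 12480) (by decide +kernel)
         (CovZ.leaf K2_ok TB_l21607 _)
         (CovZ.leaf K2_ok TB_l21608 _))))))))
    (CovZ.topM TB_LL 3693165956716587827365277490591706733460287482945365272710892846365702150327881469845554044870851084025346392104 (by decide +kernel) (CovZ.n0 (-17664, 13056) (by decide +kernel)
    (CovZ.subM 2489464311909707239961915089866740437187707870925863021046062661153745231194303009991667001682261880594455593000 (by decide +kernel)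
     (CovZ.n2 (-18432, 13056) (by decide +kernel)
      (CovZ.n2 (-18048, 13440) (by decide +kernel)
       (CovZ.n2 (-18048, 13056) (by decide +kernel)
        (CovZ.leaf K2_ok TB_l21609 _)
        (CovZ.n1 (-17856, 13248) (by decide +kernel)
         (CovZ.leaf K2_ok TB_l21610 _)
         (CovZ.leaf K2_ok TB_l21611 _)))
       (CovZ.n1 (-18432, 13440) (by decide +kernel)
        (CovZ.leaf K2_ok TB_l21612 _)
        (CovZ.leaf K2_ok TB_l21613 _)))
      (CovZ.n1 (-18048, 12672) (by decide +kernel)
       (CovZ.n2 (-18432, 12672) (by decide +kernel)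
        (CovZ.leaf K2_ok TB_l21614 _)
        (CovZ.leaf K2_ok TB_l21615 _))
       (CovZ.n1 (-18048, 13056) (by decide +kernel)
        (CovZ.leaf K2_ok TB_l21616 _)
        (CovZ.leaf K2_ok TB_l21617 _)))))
    (CovZ.n1 (-17664, 13824) (by decide +kernel)
     (CovZ.n2 (-17280, 13440) (by decide +kernel)
      (CovZ.subM 1287010509494508616761527830968399896978462212849478462509117531066854933025487073679630843482943411706834976808 (by decide +kernel)
       (CovZ.n2 (-17664, 13440) (by decide +kernel)
        (CovZ.n2 (-17472, 13632) (by decide +kernel)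
         (CovZ.n2 (-17472, 13440) (by decide +kernel)
          (CovZ.leaf K2_ok TB_l21618 _)
          (CovZ.leaf K2_ok TB_l21619 _))
         (CovZ.leaf K2_ok TB_l21620 _))
        (CovZ.n1 (-17472, 13248) (by decide +kernel)
         (CovZ.leaf K2_ok TB_l21621 _)
         (CovZ.n1 (-17472, 13440) (by decide +kernel)
          (CovZ.leaf K2_ok TB_l21622 _)
          (CovZ.leaf K2_ok TB_l21623 _)))))
      (CovZ.n1 (-17280, 13824) (by decide +kernel)
       (CovZ.n2 (-17088, 13632) (by decide +kernel)
        (CovZ.n2 (-17280, 13632) (by decide +kernel)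
         (CovZ.leaf K2_ok TB_l21624 _)
         (CovZ.leaf K2_ok TB_l21625 _))
        (CovZ.n1 (-17088, 13824) (by decide +kernel)
         (CovZ.n2 (-16992, 13728) (by decide +kernel)
          (CovZ.leaf K2_ok TB_l21626 _)
          (CovZ.leaf K2_ok TB_l21627 _))
         (CovZ.leaf K2_ok TB_l21628 _)))
       (CovZ.subM 1287010509494508616761527830968399896978462212849478462509117531066854933025487073679630843482943411706834976808 (by decide +kernel)
        (CovZ.n1 (-17472, 13632) (by decide +kernel)
         (CovZ.n2 (-17472, 13824) (by decide +kernel)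
          (CovZ.leaf K2_ok TB_l21629 _)
          (CovZ.leaf K2_ok TB_l21630 _))
         (CovZ.n1 (-17280, 13632) (by decide +kernel)
          (CovZ.leaf K2_ok TB_l21631 _)
          (CovZ.leaf K2_ok TB_l21632 _))))))
     (CovZ.subM 2489464311909707239961915089866740437187707870925863021046062661153745231194303009991667001682261880594455593000 (by decide +kernel)
      (CovZ.n1 (-18048, 13440) (by decide +kernel)
       (CovZ.n2 (-18048, 13824) (by decide +kernel)
        (CovZ.n2 (-17856, 13632) (by decide +kernel)
         (CovZ.leaf K2_ok TB_l21633 _)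
         (CovZ.leaf K2_ok TB_l21634 _))
        (CovZ.leaf K2_ok TB_l21635 _))
       (CovZ.n1 (-17664, 13440) (by decide +kernel)
        (CovZ.n2 (-17856, 13248) (by decide +kernel)
         (CovZ.leaf K2_ok TB_l21636 _)
         (CovZ.leaf K2_ok TB_l21637 _))
        (CovZ.n1 (-17856, 13632) (by decide +kernel)
         (CovZ.leaf K2_ok TB_l21638 _)
         (CovZ.leaf K2_ok TB_l21639 _))))))))

theorem TB_s10_11 : SqZ TB_M TB_L [0, 7, 6, 1] (-32256) (-4608) 1536 10 11 :=
  SqZ.mk (a := (-16896)) (b := (-15360)) (c := 12288) (d := 13824) (by norm_num) (by norm_num) (by norm_num) (by norm_num)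
    (CovZ.topM TB_LL 19701079499366619114949045631819295023783698566064412978314634741273673203341928957118146096240939957104686139445288 (by decide +kernel) (CovZ.n2 (-16128, 13056) (by decide +kernel)
    TB_u311
    TB_u312))
    (CovZ.topM TB_LL 1322111957946533659198789398409704005029340062823006058538247086442146959744810907193757183529337258702468606413766588895272 (by decide +kernel) (CovZ.n0 (-16128, 13056) (by decide +kernel)
    TB_u313
    TB_u314))

theorem TB_s11_11 : SqZ TB_M TB_L [0, 7, 6, 1] (-32256) (-4608) 1536 11 11 :=
  SqZ.mk (a := (-15360)) (b := (-13824)) (c := 12288) (d := 13824) (by norm_num) (by norm_num) (by norm_num) (by norm_num)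
    (CovZ.topM TB_LL 139984046386120720468216605634914239402145972830219252642459406730488374836423417220331187025689444392 (by decide +kernel) (CovZ.n2 (-14592, 13056) (by decide +kernel)
    (CovZ.badM (by decide +kernel))
    (CovZ.n1 (-14592, 12288) (by decide +kernel)
     (CovZ.n2 (-14976, 12672) (by decide +kernel)
      (CovZ.badM (by decide +kernel))
      (CovZ.n1 (-14976, 12288) (by decide +kernel)
       (CovZ.n2 (-15168, 12480) (by decide +kernel)
        (CovZ.badM (by decide +kernel))
        (CovZ.n1 (-15168, 12288) (by decide +kernel)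
         (CovZ.n2 (-15264, 12384) (by decide +kernel)
          (CovZ.badM (by decide +kernel))
          (CovZ.n1 (-15264, 12288) (by decide +kernel)
           (CovZ.leaf K2_ok TB_l33243 _)
           (CovZ.badM (by decide +kernel))))
         (CovZ.badM (by decide +kernel))))
       (CovZ.badM (by decide +kernel))))
     (CovZ.badM (by decide +kernel)))))
    (CovZ.topM TB_LL 139984046386120720468216605634914239402145972830219252642459406730488374836423417220331187025689444392 (by decide +kernel) (CovZ.n0 (-14592, 13056) (by decide +kernel)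
    (CovZ.n2 (-15360, 13056) (by decide +kernel)
     TB_u315
     TB_u316)
    (CovZ.n1 (-14592, 13824) (by decide +kernel)
     (CovZ.badM (by decide +kernel))
     (CovZ.n1 (-14976, 13440) (by decide +kernel)
      TB_u317
      TB_u318))))

theorem TB_s12_11 : SqZ TB_M TB_L [0, 7, 6, 1] (-32256) (-4608) 1536 12 11 :=
  SqZ.mk (a := (-13824)) (b := (-12288)) (c := 12288) (d := 13824) (by norm_num) (by norm_num) (by norm_num) (by norm_num)
    (CovZ.topM TB_LL 0 (by decide +kernel) (CovZ.badM (by decide +kernel)))
    (CovZ.topM TB_LL 0 (by decide +kernel) (CovZ.badM (by decide +kernel)))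

theorem TB_s0_12 : SqZ TB_M TB_L [0, 7, 6, 1] (-32256) (-4608) 1536 0 12 :=
  SqZ.mk (a := (-32256)) (b := (-30720)) (c := 13824) (d := 15360) (by norm_num) (by norm_num) (by norm_num) (by norm_num)
    (CovZ.topM TB_LL 2353129859973906143154175441529284225823720636258563057311064562201646888730119284886260675824942078871207936 (by decide +kernel) (CovZ.leaf K2_ok TB_l1835 _))
    (CovZ.topM TB_LL 2353129859973906143154175441529284225823720636258563057311064562201646888730119284886260675824942078871207936 (by decide +kernel) (CovZ.leaf K2_ok TB_l1836 _))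

theorem TB_s1_12 : SqZ TB_M TB_L [0, 7, 6, 1] (-32256) (-4608) 1536 1 12 :=
  SqZ.mk (a := (-30720)) (b := (-29184)) (c := 13824) (d := 15360) (by norm_num) (by norm_num) (by norm_num) (by norm_num)
    (CovZ.topM TB_LL 5043456795491623199145623275972558008579490852443297809755944613054516948958865054560048546623859907511181296595369984 (by decide +kernel) (CovZ.leaf K2_ok TB_l4979 _))
    (CovZ.topM TB_LL 5043456795491623199145623275972558008579490852443297809755944613054516948958865054560048546623859907511181296595369984 (by decide +kernel) (CovZ.leaf K2_ok TB_l4980 _))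

theorem TB_s2_12 : SqZ TB_M TB_L [0, 7, 6, 1] (-32256) (-4608) 1536 2 12 :=
  SqZ.mk (a := (-29184)) (b := (-27648)) (c := 13824) (d := 15360) (by norm_num) (by norm_num) (by norm_num) (by norm_num)
    (CovZ.topM TB_LL 5043456793138493339171717132834328964652041523698219635926264656343733324316518645163976051077084924416754786808102912 (by decide +kernel) (CovZ.leaf K2_ok TB_l8270 _))
    (CovZ.topM TB_LL 5043456793138493339171717132834328964652041523698219635926264656343733324316518645163976051077084924416754786808102912 (by decide +kernel) (CovZ.leaf K2_ok TB_l8271 _))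

theorem TB_s3_12 : SqZ TB_M TB_L [0, 7, 6, 1] (-32256) (-4608) 1536 3 12 :=
  SqZ.mk (a := (-27648)) (b := (-26112)) (c := 13824) (d := 15360) (by norm_num) (by norm_num) (by norm_num) (by norm_num)
    (CovZ.topM TB_LL 5043456793138493409163740325890678490535391066932433103450881491608005896667886977445133152830331249669272369090527360 (by decide +kernel) (CovZ.leaf K2_ok TB_l11603 _))
    (CovZ.topM TB_LL 5043456793138493409163740325890678490535391066932433103450881491608005896667886977445133152830331249669272369090527360 (by decide +kernel) (CovZ.leaf K2_ok TB_l11604 _))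

theorem TB_s4_12 : SqZ TB_M TB_L [0, 7, 6, 1] (-32256) (-4608) 1536 4 12 :=
  SqZ.mk (a := (-26112)) (b := (-24576)) (c := 13824) (d := 15360) (by norm_num) (by norm_num) (by norm_num) (by norm_num)
    (CovZ.topM TB_LL 631663411835949099859883151205914022257904644374446960892027670799798706760137269538072325248303414314334467127509124 (by decide +kernel) (CovZ.leaf K2_ok TB_l13812 _))
    (CovZ.topM TB_LL 631663411835949099859883151205914022257904644374446960892027670799798706760137269538072325248303414314334467127509124 (by decide +kernel) (CovZ.leaf K2_ok TB_l13813 _))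

theorem TB_s5_12 : SqZ TB_M TB_L [0, 7, 6, 1] (-32256) (-4608) 1536 5 12 :=
  SqZ.mk (a := (-24576)) (b := (-23040)) (c := 13824) (d := 15360) (by norm_num) (by norm_num) (by norm_num) (by norm_num)
    (CovZ.topM TB_LL 631665816743553873388612858716202337208920867230133003189890455038836481108284638392599043323296923625148370437537924 (by decide +kernel) (CovZ.n2 (-23808, 14592) (by decide +kernel)
    (CovZ.leaf K2_ok TB_l15545 _)
    (CovZ.leaf K2_ok TB_l15546 _)))
    (CovZ.topM TB_LL 631665816743553873388612858716202337208920867230133003189890455038836481108284638392599043323296923625148370437537924 (by decide +kernel) (CovZ.n0 (-23808, 14592) (by decide +kernel)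
    (CovZ.leaf K2_ok TB_l15547 _)
    (CovZ.leaf K2_ok TB_l15548 _)))

theorem TB_s6_12 : SqZ TB_M TB_L [0, 7, 6, 1] (-32256) (-4608) 1536 6 12 :=
  SqZ.mk (a := (-23040)) (b := (-21504)) (c := 13824) (d := 15360) (by norm_num) (by norm_num) (by norm_num) (by norm_num)
    (CovZ.topM TB_LL 631665816743553873402847209822769027054881441568903534078610040645603795480090078617502485380592917145625319283392644 (by decide +kernel) (CovZ.n2 (-22272, 14592) (by decide +kernel)
    (CovZ.n2 (-21504, 14592) (by decide +kernel)
     (CovZ.leaf K2_ok TB_l18584 _)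
     (CovZ.n1 (-21888, 14976) (by decide +kernel)
      (CovZ.leaf K2_ok TB_l18585 _)
      (CovZ.leaf K2_ok TB_l18586 _)))
    (CovZ.n1 (-22272, 13824) (by decide +kernel)
     (CovZ.leaf K2_ok TB_l18587 _)
     (CovZ.leaf K2_ok TB_l18588 _))))
    (CovZ.topM TB_LL 631665816743553873402847209822769027054881441568903534078610040645603795480090078617502485380592917145625319283392644 (by decide +kernel) (CovZ.n0 (-22272, 14592) (by decide +kernel)
    (CovZ.leaf K2_ok TB_l18589 _)
    (CovZ.n1 (-22272, 15360) (by decide +kernel)
     (CovZ.leaf K2_ok TB_l18590 _)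
     (CovZ.leaf K2_ok TB_l18591 _))))

theorem TB_s7_12 : SqZ TB_M TB_L [0, 7, 6, 1] (-32256) (-4608) 1536 7 12 :=
  SqZ.mk (a := (-21504)) (b := (-19968)) (c := 13824) (d := 15360) (by norm_num) (by norm_num) (by norm_num) (by norm_num)
    (CovZ.topM TB_LL 1233717610416200464652581674333940870813224308169005163010472913405693712106554079876579115905172015296417502494752 (by decide +kernel) (CovZ.n2 (-20736, 14592) (by decide +kernel)
    (CovZ.n2 (-19968, 14592) (by decide +kernel)
     (CovZ.n2 (-20352, 14208) (by decide +kernel)
      (CovZ.n2 (-20352, 14592) (by decide +kernel)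
       (CovZ.leaf K2_ok TB_l19429 _)
       (CovZ.leaf K2_ok TB_l19430 _))
      (CovZ.n1 (-19968, 14208) (by decide +kernel)
       (CovZ.leaf K2_ok TB_l19431 _)
       (CovZ.leaf K2_ok TB_l19432 _)))
     (CovZ.n1 (-20352, 14976) (by decide +kernel)
      (CovZ.n2 (-19968, 14976) (by decide +kernel)
       (CovZ.leaf K2_ok TB_l19433 _)
       (CovZ.n1 (-20160, 15168) (by decide +kernel)
        (CovZ.leaf K2_ok TB_l19434 _)
        (CovZ.leaf K2_ok TB_l19435 _)))
      (CovZ.n1 (-20352, 14592) (by decide +kernel)
       (CovZ.leaf K2_ok TB_l19436 _)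
       (CovZ.n1 (-20160, 14784) (by decide +kernel)
        (CovZ.leaf K2_ok TB_l19437 _)
        (CovZ.leaf K2_ok TB_l19438 _)))))
    (CovZ.n1 (-20736, 13824) (by decide +kernel)
     (CovZ.leaf K2_ok TB_l19439 _)
     (CovZ.n1 (-20352, 14208) (by decide +kernel)
      (CovZ.n2 (-20352, 13824) (by decide +kernel)
       (CovZ.leaf K2_ok TB_l19440 _)
       (CovZ.leaf K2_ok TB_l19441 _))
      (CovZ.leaf K2_ok TB_l19442 _)))))
    (CovZ.topM TB_LL 1233717610416200464652581674333940870813224308169005163010472913405693712106554079876579115905172015296417502494752 (by decide +kernel) (CovZ.n0 (-20736, 14592) (by decide +kernel)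
    (CovZ.n2 (-21504, 14592) (by decide +kernel)
     (CovZ.n2 (-21120, 14976) (by decide +kernel)
      (CovZ.n2 (-21120, 14592) (by decide +kernel)
       (CovZ.leaf K2_ok TB_l19443 _)
       (CovZ.leaf K2_ok TB_l19444 _))
      (CovZ.leaf K2_ok TB_l19445 _))
     (CovZ.leaf K2_ok TB_l19446 _))
    (CovZ.n1 (-20736, 15360) (by decide +kernel)
     (CovZ.n2 (-20352, 14976) (by decide +kernel)
      (CovZ.n2 (-20736, 14976) (by decide +kernel)
       (CovZ.leaf K2_ok TB_l19447 _)
       (CovZ.leaf K2_ok TB_l19448 _))
      (CovZ.n1 (-20352, 15360) (by decide +kernel)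
       (CovZ.n2 (-20160, 15168) (by decide +kernel)
        (CovZ.leaf K2_ok TB_l19449 _)
        (CovZ.leaf K2_ok TB_l19450 _))
       (CovZ.leaf K2_ok TB_l19451 _)))
     (CovZ.n1 (-21120, 14976) (by decide +kernel)
      (CovZ.leaf K2_ok TB_l19452 _)
      (CovZ.n1 (-20736, 14976) (by decide +kernel)
       (CovZ.leaf K2_ok TB_l19453 _)
       (CovZ.leaf K2_ok TB_l19454 _))))))

theorem TB_s8_12 : SqZ TB_M TB_L [0, 7, 6, 1] (-32256) (-4608) 1536 8 12 :=
  SqZ.mk (a := (-19968)) (b := (-18432)) (c := 13824) (d := 15360) (by norm_num) (by norm_num) (by norm_num) (by norm_num)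
    (CovZ.topM TB_LL 1233797460864071634957226139258191450961485177647585135612287239413119350032465854953535582364210611350795783930400 (by decide +kernel) (CovZ.n2 (-19200, 14592) (by decide +kernel)
    (CovZ.n2 (-18432, 14592) (by decide +kernel)
     (CovZ.n2 (-18816, 14208) (by decide +kernel)
      (CovZ.n2 (-18816, 14592) (by decide +kernel)
       (CovZ.n2 (-18624, 14400) (by decide +kernel)
        (CovZ.leaf K2_ok TB_l20110 _)
        (CovZ.leaf K2_ok TB_l20111 _))
       (CovZ.leaf K2_ok TB_l20112 _))
      (CovZ.n1 (-18432, 14208) (by decide +kernel)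
       (CovZ.leaf K2_ok TB_l20113 _)
       (CovZ.n1 (-18624, 14400) (by decide +kernel)
        (CovZ.leaf K2_ok TB_l20114 _)
        (CovZ.leaf K2_ok TB_l20115 _))))
     (CovZ.n1 (-18816, 14976) (by decide +kernel)
      (CovZ.n2 (-18432, 14976) (by decide +kernel)
       (CovZ.n2 (-18624, 14784) (by decide +kernel)
        (CovZ.n2 (-18624, 14976) (by decide +kernel)
         (CovZ.leaf K2_ok TB_l20116 _)
         (CovZ.leaf K2_ok TB_l20117 _))
        (CovZ.leaf K2_ok TB_l20118 _))
       (CovZ.n1 (-18624, 15168) (by decide +kernel)
        (CovZ.n2 (-18432, 15168) (by decide +kernel)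
         (CovZ.leaf K2_ok TB_l20119 _)
         (CovZ.leaf K2_ok TB_l20120 _))
        (CovZ.n1 (-18624, 14976) (by decide +kernel)
         (CovZ.leaf K2_ok TB_l20121 _)
         (CovZ.leaf K2_ok TB_l20122 _))))
      (CovZ.n1 (-18816, 14592) (by decide +kernel)
       (CovZ.n2 (-19008, 14784) (by decide +kernel)
        (CovZ.leaf K2_ok TB_l20123 _)
        (CovZ.leaf K2_ok TB_l20124 _))
       (CovZ.n1 (-18624, 14784) (by decide +kernel)
        (CovZ.leaf K2_ok TB_l20125 _)
        (CovZ.leaf K2_ok TB_l20126 _)))))
    (CovZ.n1 (-19200, 13824) (by decide +kernel)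
     (CovZ.n2 (-19584, 14208) (by decide +kernel)
      (CovZ.n2 (-19200, 14208) (by decide +kernel)
       (CovZ.leaf K2_ok TB_l20127 _)
       (CovZ.n1 (-19392, 14400) (by decide +kernel)
        (CovZ.leaf K2_ok TB_l20128 _)
        (CovZ.leaf K2_ok TB_l20129 _)))
      (CovZ.n1 (-19584, 13824) (by decide +kernel)
       (CovZ.leaf K2_ok TB_l20130 _)
       (CovZ.leaf K2_ok TB_l20131 _)))
     (CovZ.n1 (-18816, 14208) (by decide +kernel)
      (CovZ.n2 (-18816, 13824) (by decide +kernel)
       (CovZ.leaf K2_ok TB_l20132 _)
       (CovZ.leaf K2_ok TB_l20133 _))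
      (CovZ.n1 (-19200, 14208) (by decide +kernel)
       (CovZ.leaf K2_ok TB_l20134 _)
       (CovZ.n1 (-19008, 14016) (by decide +kernel)
        (CovZ.leaf K2_ok TB_l20135 _)
        (CovZ.leaf K2_ok TB_l20136 _)))))))
    (CovZ.topM TB_LL 1233797460864071634957226139258191450961485177647585135612287239413119350032465854953535582364210611350795783930400 (by decide +kernel) (CovZ.n0 (-19200, 14592) (by decide +kernel)
    (CovZ.n2 (-19968, 14592) (by decide +kernel)
     (CovZ.n2 (-19584, 14976) (by decide +kernel)
      (CovZ.n2 (-19584, 14592) (by decide +kernel)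
       (CovZ.n2 (-19776, 14784) (by decide +kernel)
        (CovZ.leaf K2_ok TB_l20137 _)
        (CovZ.leaf K2_ok TB_l20138 _))
       (CovZ.n1 (-19392, 14784) (by decide +kernel)
        (CovZ.leaf K2_ok TB_l20139 _)
        (CovZ.leaf K2_ok TB_l20140 _)))
      (CovZ.subM 1233717610416117340581091776197174386148507013878913283357811811136561799586833345243442024426209920343715782754336 (by decide +kernel)
       (CovZ.n1 (-19968, 14976) (by decide +kernel)
        (CovZ.n2 (-19776, 15168) (by decide +kernel)
         (CovZ.n2 (-19776, 14976) (by decide +kernel)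
          (CovZ.leaf K2_ok TB_l20141 _)
          (CovZ.leaf K2_ok TB_l20142 _))
         (CovZ.leaf K2_ok TB_l20143 _))
        (CovZ.n1 (-19776, 14784) (by decide +kernel)
         (CovZ.leaf K2_ok TB_l20144 _)
         (CovZ.leaf K2_ok TB_l20145 _)))))
     (CovZ.n1 (-19584, 14208) (by decide +kernel)
      (CovZ.n2 (-19968, 14208) (by decide +kernel)
       (CovZ.leaf K2_ok TB_l20146 _)
       (CovZ.leaf K2_ok TB_l20147 _))
      (CovZ.n1 (-19584, 14592) (by decide +kernel)
       (CovZ.n2 (-19392, 14400) (by decide +kernel)
        (CovZ.leaf K2_ok TB_l20148 _)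
        (CovZ.leaf K2_ok TB_l20149 _))
       (CovZ.leaf K2_ok TB_l20150 _))))
    (CovZ.n1 (-19200, 15360) (by decide +kernel)
     (CovZ.n2 (-18816, 14976) (by decide +kernel)
      (CovZ.subM 2404916778789865197371773067686454739765161892547648321632760610762395662036651863904707831747343784052672069664 (by decide +kernel)
       (CovZ.n2 (-19200, 14976) (by decide +kernel)
        (CovZ.n2 (-19008, 15168) (by decide +kernel)
         (CovZ.n2 (-19008, 14976) (by decide +kernel)
          (CovZ.leaf K2_ok TB_l20151 _)
          (CovZ.leaf K2_ok TB_l20152 _))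
         (CovZ.leaf K2_ok TB_l20153 _))
        (CovZ.n1 (-19008, 14784) (by decide +kernel)
         (CovZ.leaf K2_ok TB_l20154 _)
         (CovZ.n1 (-19008, 14976) (by decide +kernel)
          (CovZ.leaf K2_ok TB_l20155 _)
          (CovZ.leaf K2_ok TB_l20156 _)))))
      (CovZ.n1 (-18816, 15360) (by decide +kernel)
       (CovZ.n2 (-18624, 15168) (by decide +kernel)
        (CovZ.n2 (-18816, 15168) (by decide +kernel)
         (CovZ.leaf K2_ok TB_l20157 _)
         (CovZ.leaf K2_ok TB_l20158 _))
        (CovZ.n1 (-18624, 15360) (by decide +kernel)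
         (CovZ.leaf K2_ok TB_l20159 _)
         (CovZ.leaf K2_ok TB_l20160 _)))
       (CovZ.subM 2404916778789865197371773067686454739765161892547648321632760610762395662036651863904707831747343784052672069664 (by decide +kernel)
        (CovZ.n1 (-19008, 15168) (by decide +kernel)
         (CovZ.n2 (-19008, 15360) (by decide +kernel)
          (CovZ.leaf K2_ok TB_l20161 _)
          (CovZ.leaf K2_ok TB_l20162 _))
         (CovZ.n1 (-18816, 15168) (by decide +kernel)
          (CovZ.leaf K2_ok TB_l20163 _)
          (CovZ.leaf K2_ok TB_l20164 _))))))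
     (CovZ.n1 (-19584, 14976) (by decide +kernel)
      (CovZ.n2 (-19584, 15360) (by decide +kernel)
       (CovZ.n2 (-19392, 15168) (by decide +kernel)
        (CovZ.leaf K2_ok TB_l20165 _)
        (CovZ.n1 (-19392, 15360) (by decide +kernel)
         (CovZ.leaf K2_ok TB_l20166 _)
         (CovZ.leaf K2_ok TB_l20167 _)))
       (CovZ.n1 (-19776, 15168) (by decide +kernel)
        (CovZ.leaf K2_ok TB_l20168 _)
        (CovZ.leaf K2_ok TB_l20169 _)))
      (CovZ.subM 2404916778789865197371773067686454739765161892547648321632760610762395662036651863904707831747343784052672069664 (by decide +kernel)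
       (CovZ.n1 (-19200, 14976) (by decide +kernel)
        (CovZ.n2 (-19392, 14784) (by decide +kernel)
         (CovZ.leaf K2_ok TB_l20170 _)
         (CovZ.leaf K2_ok TB_l20171 _))
        (CovZ.n1 (-19392, 15168) (by decide +kernel)
         (CovZ.leaf K2_ok TB_l20172 _)
         (CovZ.n1 (-19392, 14976) (by decide +kernel)
          (CovZ.leaf K2_ok TB_l20173 _)
          (CovZ.leaf K2_ok TB_l20174 _)))))))))

theorem TB_s9_12 : SqZ TB_M TB_L [0, 7, 6, 1] (-32256) (-4608) 1536 9 12 :=
  SqZ.mk (a := (-18432)) (b := (-16896)) (c := 13824) (d := 15360) (by norm_num) (by norm_num) (by norm_num) (by norm_num)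
    (CovZ.topM TB_LL 3998476492477186147056095119447382008567603626564937185111100849250203472043316869566256267115309852063692915304 (by decide +kernel) (CovZ.n2 (-17664, 14592) (by decide +kernel)
    (CovZ.n2 (-16896, 14592) (by decide +kernel)
     TB_u325
     TB_u326)
    (CovZ.n1 (-17664, 13824) (by decide +kernel)
     (CovZ.subM 2489464311909707239961915089866740437187708737014149703260366064831604901699938400584931575798152836047934881832 (by decide +kernel)
      (CovZ.n2 (-18048, 14208) (by decide +kernel)
       (CovZ.n2 (-17664, 14208) (by decide +kernel)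
        (CovZ.n2 (-17856, 14016) (by decide +kernel)
         (CovZ.leaf K2_ok TB_l21891 _)
         (CovZ.leaf K2_ok TB_l21892 _))
        (CovZ.n1 (-17856, 14400) (by decide +kernel)
         (CovZ.leaf K2_ok TB_l21893 _)
         (CovZ.leaf K2_ok TB_l21894 _)))
       (CovZ.n1 (-18048, 13824) (by decide +kernel)
        (CovZ.leaf K2_ok TB_l21895 _)
        (CovZ.n1 (-17856, 14016) (by decide +kernel)
         (CovZ.leaf K2_ok TB_l21896 _)
         (CovZ.leaf K2_ok TB_l21897 _)))))
     (CovZ.n1 (-17280, 14208) (by decide +kernel)
      (CovZ.n2 (-17280, 13824) (by decide +kernel)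
       (CovZ.subM 1287010509494508616761527830968399896978462212849478462509117531066854933025487073679630843482943411706834976808 (by decide +kernel)
        (CovZ.n2 (-17472, 14016) (by decide +kernel)
         (CovZ.n2 (-17280, 14016) (by decide +kernel)
          (CovZ.leaf K2_ok TB_l21898 _)
          (CovZ.leaf K2_ok TB_l21899 _))
         (CovZ.n1 (-17472, 13824) (by decide +kernel)
          (CovZ.leaf K2_ok TB_l21900 _)
          (CovZ.leaf K2_ok TB_l21901 _))))
       (CovZ.n1 (-17088, 14016) (by decide +kernel)
        (CovZ.n2 (-17088, 13824) (by decide +kernel)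
         (CovZ.leaf K2_ok TB_l21902 _)
         (CovZ.n1 (-16992, 13920) (by decide +kernel)
          (CovZ.leaf K2_ok TB_l21903 _)
          (CovZ.leaf K2_ok TB_l21904 _)))
        (CovZ.n1 (-17280, 14016) (by decide +kernel)
         (CovZ.n2 (-17184, 14112) (by decide +kernel)
          (CovZ.leaf K2_ok TB_l21905 _)
          (CovZ.leaf K2_ok TB_l21906 _))
         (CovZ.leaf K2_ok TB_l21907 _))))
      (CovZ.subM 3691918114254913842120355962080681128810318742434980321819564266952636520660298806156367397398350797702363643944 (by decide +kernel)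
       (CovZ.n1 (-17664, 14208) (by decide +kernel)
        (CovZ.n2 (-17472, 14400) (by decide +kernel)
         (CovZ.n2 (-17472, 14208) (by decide +kernel)
          (CovZ.leaf K2_ok TB_l21908 _)
          (CovZ.leaf K2_ok TB_l21909 _))
         (CovZ.n1 (-17664, 14400) (by decide +kernel)
          (CovZ.leaf K2_ok TB_l21910 _)
          (CovZ.leaf K2_ok TB_l21911 _)))
        (CovZ.n1 (-17472, 14016) (by decide +kernel)
         (CovZ.n2 (-17664, 14016) (by decide +kernel)
          (CovZ.leaf K2_ok TB_l21912 _)
          (CovZ.leaf K2_ok TB_l21913 _))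
         (CovZ.n1 (-17472, 14208) (by decide +kernel)
          (CovZ.leaf K2_ok TB_l21914 _)
          (CovZ.leaf K2_ok TB_l21915 _)))))))))
    (CovZ.topM TB_LL 3997302221185799230442150379148987340053915785290483025175747203764437367530759565344524417616117467712176947816 (by decide +kernel) (CovZ.n0 (-17664, 14592) (by decide +kernel)
    TB_u327
    TB_u328))

theorem TB_s10_12 : SqZ TB_M TB_L [0, 7, 6, 1] (-32256) (-4608) 1536 10 12 :=
  SqZ.mk (a := (-16896)) (b := (-15360)) (c := 13824) (d := 15360) (by norm_num) (by norm_num) (by norm_num) (by norm_num)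
    (CovZ.topM TB_LL 1983167926737082871601299757095710147182750748639589010385104436553994691950948141139080480839253018030143348534835509465976 (by decide +kernel) (CovZ.n2 (-16128, 14592) (by decide +kernel)
    (CovZ.subM 661055968790549212402510358686266882758381500035625312894973756944214497196487575954614222140049693680366204899395324871504 (by decide +kernel)
     (CovZ.n2 (-15360, 14592) (by decide +kernel)
      (CovZ.subM 260740604970814219042361048116406832366764990350342009290924830133934352691462778326538518528 (by decide +kernel)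
       (CovZ.n2 (-15744, 14208) (by decide +kernel)
        (CovZ.subM 260740604970814219042361048116406832366764990350342009290924809851524749039792345308316303360 (by decide +kernel)
         (CovZ.n2 (-15744, 14592) (by decide +kernel)
          (CovZ.n2 (-15552, 14400) (by decide +kernel)
           (CovZ.badM (by decide +kernel))
           (CovZ.n1 (-15552, 14592) (by decide +kernel)
            (CovZ.badM (by decide +kernel))
            (CovZ.badM (by decide +kernel))))
          (CovZ.badM (by decide +kernel))))
        (CovZ.subM 20282409603651670433018222215168 (by decide +kernel)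
         (CovZ.n1 (-15360, 14208) (by decide +kernel)
          (CovZ.n2 (-15552, 14016) (by decide +kernel)
           (CovZ.badM (by decide +kernel))
           (CovZ.n1 (-15360, 14016) (by decide +kernel)
            (CovZ.n2 (-15456, 13920) (by decide +kernel)
             (CovZ.badM (by decide +kernel))
             (CovZ.n1 (-15360, 13920) (by decide +kernel)
              (CovZ.n2 (-15408, 13872) (by decide +kernel)
               (CovZ.badM (by decide +kernel))
               (CovZ.n1 (-15360, 13872) (by decide +kernel)
                (CovZ.n2 (-15384, 13848) (by decide +kernel)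
                 (CovZ.badM (by decide +kernel))
                 (CovZ.badM (by decide +kernel)))
                (CovZ.badM (by decide +kernel))))
              (CovZ.badM (by decide +kernel))))
            (CovZ.badM (by decide +kernel))))
          (CovZ.badM (by decide +kernel))))))
      (CovZ.n1 (-15744, 14976) (by decide +kernel)
       (CovZ.n2 (-15360, 14976) (by decide +kernel)
        (CovZ.n2 (-15552, 14784) (by decide +kernel)
         (CovZ.n2 (-15552, 14976) (by decide +kernel)
          (CovZ.badM (by decide +kernel))
          (CovZ.badM (by decide +kernel)))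
         (CovZ.badM (by decide +kernel)))
        (CovZ.n1 (-15552, 15168) (by decide +kernel)
         (CovZ.n2 (-15360, 15168) (by decide +kernel)
          (CovZ.subM 6427752177035961102167848535518149902546113822634338353676800 (by decide +kernel)
           (CovZ.n2 (-15456, 15072) (by decide +kernel)
            (CovZ.n2 (-15456, 15168) (by decide +kernel)
             (CovZ.badM (by decide +kernel))
             (CovZ.n1 (-15504, 15120) (by decide +kernel)
              (CovZ.n2 (-15504, 15168) (by decide +kernel)
               (CovZ.badM (by decide +kernel))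
               (CovZ.n1 (-15528, 15144) (by decide +kernel)
                (CovZ.n2 (-15528, 15168) (by decide +kernel)
                 (CovZ.badM (by decide +kernel))
                 (CovZ.n1 (-15540, 15156) (by decide +kernel)
                  (CovZ.n2 (-15540, 15168) (by decide +kernel)
                   (CovZ.badM (by decide +kernel))
                   (CovZ.leaf K2_ok TB_l42538 _))
                  (CovZ.badM (by decide +kernel))))
                (CovZ.badM (by decide +kernel))))
              (CovZ.badM (by decide +kernel))))
            (CovZ.badM (by decide +kernel))))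
          (CovZ.n1 (-15456, 15264) (by decide +kernel)
           TB_u329
           TB_u330))
         (CovZ.subM 65185151242703554760590262029106528905824024559125753076379653123823679681236620953597772288 (by decide +kernel)
          (CovZ.n1 (-15552, 14976) (by decide +kernel)
           (CovZ.n2 (-15648, 15072) (by decide +kernel)
            (CovZ.n2 (-15552, 15072) (by decide +kernel)
             (CovZ.badM (by decide +kernel))
             (CovZ.n1 (-15600, 15120) (by decide +kernel)
              (CovZ.subM 713623846524326370705435223703795961457279488 (by decide +kernel)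
               (CovZ.n2 (-15552, 15120) (by decide +kernel)
                (CovZ.badM (by decide +kernel))
                (CovZ.n1 (-15576, 15144) (by decide +kernel)
                 (CovZ.n2 (-15552, 15144) (by decide +kernel)
                  (CovZ.n2 (-15564, 15132) (by decide +kernel)
                   (CovZ.n2 (-15564, 15144) (by decide +kernel)
                    (CovZ.leaf K2_ok TB_l42636 _)
                    (CovZ.leaf K2_ok TB_l42637 _))
                   (CovZ.badM (by decide +kernel)))
                  (CovZ.n1 (-15564, 15156) (by decide +kernel)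
                   (CovZ.n2 (-15552, 15156) (by decide +kernel)
                    (CovZ.leaf K2_ok TB_l42638 _)
                    (CovZ.leaf K2_ok TB_l42639 _))
                   (CovZ.n1 (-15564, 15144) (by decide +kernel)
                    (CovZ.leaf K2_ok TB_l42640 _)
                    (CovZ.leaf K2_ok TB_l42641 _))))
                 (CovZ.n1 (-15576, 15120) (by decide +kernel)
                  (CovZ.n2 (-15588, 15132) (by decide +kernel)
                   (CovZ.n2 (-15576, 15132) (by decide +kernel)
                    (CovZ.badM (by decide +kernel))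
                    (CovZ.leaf K2_ok TB_l42642 _))
                   (CovZ.badM (by decide +kernel)))
                  (CovZ.n1 (-15564, 15132) (by decide +kernel)
                   (CovZ.badM (by decide +kernel))
                   (CovZ.n1 (-15576, 15132) (by decide +kernel)
                    (CovZ.leaf K2_ok TB_l42643 _)
                    (CovZ.badM (by decide +kernel))))))))
              (CovZ.subM 65185151242703554760590262029100101153646988597309960020356494418954282849558943394640691200 (by decide +kernel)
               (CovZ.n1 (-15600, 15072) (by decide +kernel)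
                (CovZ.n2 (-15624, 15096) (by decide +kernel)
                 (CovZ.n2 (-15600, 15096) (by decide +kernel)
                  (CovZ.badM (by decide +kernel))
                  (CovZ.n1 (-15612, 15108) (by decide +kernel)
                   (CovZ.badM (by decide +kernel))
                   (CovZ.badM (by decide +kernel))))
                 (CovZ.n1 (-15624, 15072) (by decide +kernel)
                  (CovZ.n2 (-15636, 15084) (by decide +kernel)
                   (CovZ.badM (by decide +kernel))
                   (CovZ.badM (by decide +kernel)))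
                  (CovZ.badM (by decide +kernel))))
                (CovZ.badM (by decide +kernel))))))
            (CovZ.n1 (-15648, 14976) (by decide +kernel)
             (CovZ.n2 (-15696, 15024) (by decide +kernel)
              (CovZ.badM (by decide +kernel))
              (CovZ.badM (by decide +kernel)))
             (CovZ.badM (by decide +kernel))))
           (CovZ.subM 6427752177035961102167848535518149902546113822634338353676800 (by decide +kernel)
            (CovZ.n1 (-15456, 15072) (by decide +kernel)
             (CovZ.badM (by decide +kernel))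
             (CovZ.n1 (-15552, 15072) (by decide +kernel)
              (CovZ.n2 (-15504, 15120) (by decide +kernel)
               (CovZ.badM (by decide +kernel))
               (CovZ.n1 (-15552, 15120) (by decide +kernel)
                (CovZ.n2 (-15528, 15144) (by decide +kernel)
                 (CovZ.badM (by decide +kernel))
                 (CovZ.n1 (-15552, 15144) (by decide +kernel)
                  (CovZ.n2 (-15540, 15156) (by decide +kernel)
                   (CovZ.badM (by decide +kernel))
                   (CovZ.n1 (-15552, 15156) (by decide +kernel)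
                    (CovZ.leaf K2_ok TB_l42644 _)
                    (CovZ.leaf K2_ok TB_l42645 _)))
                  (CovZ.badM (by decide +kernel))))
                (CovZ.badM (by decide +kernel))))
              (CovZ.badM (by decide +kernel)))))))))
       (CovZ.subM 260740604970814219042361048116406832366764990350342009290924809851524749039792345308316303360 (by decide +kernel)
        (CovZ.n1 (-15744, 14592) (by decide +kernel)
         (CovZ.badM (by decide +kernel))
         (CovZ.n1 (-15552, 14784) (by decide +kernel)
          (CovZ.n2 (-15552, 14592) (by decide +kernel)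
           (CovZ.badM (by decide +kernel))
           (CovZ.badM (by decide +kernel)))
          (CovZ.badM (by decide +kernel))))))))
    (CovZ.n1 (-16128, 13824) (by decide +kernel)
     (CovZ.n2 (-16512, 14208) (by decide +kernel)
      TB_u333
      TB_u334)
     (CovZ.subM 139984046646861325317621487702618156489366867816153043134871369999965684086585833843123825206540374056 (by decide +kernel)
      (CovZ.n1 (-15744, 14208) (by decide +kernel)
       TB_u337
       TB_u338)))))
    (CovZ.topM TB_LL 1985750176617588779051212724492569694374289247818764085103919460687346222779428605102964186815136695395779562697347651769208 (by decide +kernel) (CovZ.n0 (-16128, 14592) (by decide +kernel)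
    TB_u372
    (CovZ.subM 661055968792958817092436311578211860153203136073861661357282515107967231341731559556664859155450503911686235779032533861200 (by decide +kernel)
     (CovZ.n1 (-16128, 15360) (by decide +kernel)
      (CovZ.n2 (-15744, 14976) (by decide +kernel)
       (CovZ.n2 (-16128, 14976) (by decide +kernel)
        (CovZ.n2 (-15936, 15168) (by decide +kernel)
         TB_u357
         TB_u358)
        (CovZ.n1 (-15936, 14784) (by decide +kernel)
         (CovZ.badM (by decide +kernel))
         (CovZ.n1 (-15936, 14976) (by decide +kernel)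
          (CovZ.badM (by decide +kernel))
          (CovZ.badM (by decide +kernel)))))
       (CovZ.n1 (-15744, 15360) (by decide +kernel)
        TB_u365
        TB_u366))
      TB_u371))))

theorem TB_s11_12 : SqZ TB_M TB_L [0, 7, 6, 1] (-32256) (-4608) 1536 11 12 :=
  SqZ.mk (a := (-15360)) (b := (-13824)) (c := 13824) (d := 15360) (by norm_num) (by norm_num) (by norm_num) (by norm_num)
    (CovZ.topM TB_LL 0 (by decide +kernel) (CovZ.badM (by decide +kernel)))
    (CovZ.topM TB_LL 300613450595050653169853516389038844850942960378518547938867405462620186874048199438762273162810395443612090624 (by decide +kernel) (CovZ.n0 (-14592, 14592) (by decide +kernel)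
    (CovZ.n2 (-15360, 14592) (by decide +kernel)
     (CovZ.n2 (-14976, 14976) (by decide +kernel)
      (CovZ.badM (by decide +kernel))
      (CovZ.n1 (-15360, 14976) (by decide +kernel)
       (CovZ.n2 (-15168, 15168) (by decide +kernel)
        (CovZ.badM (by decide +kernel))
        (CovZ.n1 (-15360, 15168) (by decide +kernel)
         (CovZ.n2 (-15264, 15264) (by decide +kernel)
          (CovZ.n2 (-15264, 15168) (by decide +kernel)
           (CovZ.n2 (-15312, 15216) (by decide +kernel)
            (CovZ.badM (by decide +kernel))
            (CovZ.badM (by decide +kernel)))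
           (CovZ.badM (by decide +kernel)))
          (CovZ.n1 (-15360, 15264) (by decide +kernel)
           (CovZ.n2 (-15312, 15312) (by decide +kernel)
            (CovZ.n2 (-15312, 15264) (by decide +kernel)
             (CovZ.subM 3705346855594118253554271520278013051315528545041992919290480295347303328251904 (by decide +kernel)
              (CovZ.n2 (-15336, 15288) (by decide +kernel)
               (CovZ.subM 10889035741475060566995642007728840245248 (by decide +kernel)
                (CovZ.n2 (-15312, 15288) (by decide +kernel)
                 (CovZ.n2 (-15324, 15276) (by decide +kernel)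
                  (CovZ.n2 (-15324, 15288) (by decide +kernel)
                   (CovZ.leaf K2_ok TB_l45838 _)
                   (CovZ.leaf K2_ok TB_l45839 _))
                  (CovZ.n1 (-15312, 15276) (by decide +kernel)
                   (CovZ.leaf K2_ok TB_l45840 _)
                   (CovZ.leaf K2_ok TB_l45841 _)))
                 (CovZ.n1 (-15324, 15300) (by decide +kernel)
                  (CovZ.n2 (-15312, 15300) (by decide +kernel)
                   (CovZ.leaf K2_ok TB_l45842 _)
                   (CovZ.leaf K2_ok TB_l45843 _))
                  (CovZ.leaf K2_ok TB_l45844 _))))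
               (CovZ.n1 (-15336, 15264) (by decide +kernel)
                (CovZ.n2 (-15348, 15276) (by decide +kernel)
                 (CovZ.leaf K2_ok TB_l45845 _)
                 (CovZ.n1 (-15348, 15264) (by decide +kernel)
                  (CovZ.leaf K2_ok TB_l45846 _)
                  (CovZ.leaf K2_ok TB_l45847 _)))
                (CovZ.n1 (-15324, 15276) (by decide +kernel)
                 (CovZ.n2 (-15324, 15264) (by decide +kernel)
                  (CovZ.leaf K2_ok TB_l45848 _)
                  (CovZ.leaf K2_ok TB_l45849 _))
                 (CovZ.leaf K2_ok TB_l45850 _)))))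
             (CovZ.subM 10889035741470030830827987437833762635776 (by decide +kernel)
              (CovZ.n1 (-15288, 15288) (by decide +kernel)
               (CovZ.badM (by decide +kernel))
               (CovZ.n1 (-15312, 15288) (by decide +kernel)
                (CovZ.n2 (-15300, 15300) (by decide +kernel)
                 (CovZ.n2 (-15300, 15288) (by decide +kernel)
                  (CovZ.leaf K2_ok TB_l45851 _)
                  (CovZ.badM (by decide +kernel)))
                 (CovZ.leaf K2_ok TB_l45852 _))
                (CovZ.n1 (-15300, 15276) (by decide +kernel)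
                 (CovZ.n2 (-15312, 15276) (by decide +kernel)
                  (CovZ.leaf K2_ok TB_l45853 _)
                  (CovZ.badM (by decide +kernel)))
                 (CovZ.n1 (-15300, 15288) (by decide +kernel)
                  (CovZ.badM (by decide +kernel))
                  (CovZ.leaf K2_ok TB_l45854 _)))))))
            (CovZ.n1 (-15360, 15312) (by decide +kernel)
             (CovZ.n2 (-15336, 15336) (by decide +kernel)
              (CovZ.n2 (-15336, 15312) (by decide +kernel)
               (CovZ.leaf K2_ok TB_l33732 _)
               (CovZ.n1 (-15324, 15324) (by decide +kernel)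
                (CovZ.leaf K2_ok TB_l45855 _)
                (CovZ.leaf K2_ok TB_l45856 _)))
              (CovZ.n1 (-15360, 15336) (by decide +kernel)
               (CovZ.leaf K2_ok TB_l33733 _)
               (CovZ.n1 (-15348, 15324) (by decide +kernel)
                (CovZ.leaf K2_ok TB_l33734 _)
                (CovZ.leaf K2_ok TB_l33735 _))))
             (CovZ.n1 (-15336, 15288) (by decide +kernel)
              (CovZ.n2 (-15360, 15288) (by decide +kernel)
               (CovZ.n2 (-15348, 15300) (by decide +kernel)
                (CovZ.leaf K2_ok TB_l45857 _)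
                (CovZ.leaf K2_ok TB_l45858 _))
               (CovZ.n1 (-15348, 15276) (by decide +kernel)
                (CovZ.leaf K2_ok TB_l45859 _)
                (CovZ.n1 (-15348, 15288) (by decide +kernel)
                 (CovZ.leaf K2_ok TB_l45860 _)
                 (CovZ.leaf K2_ok TB_l45861 _))))
              (CovZ.n1 (-15336, 15312) (by decide +kernel)
               (CovZ.n2 (-15324, 15300) (by decide +kernel)
                (CovZ.leaf K2_ok TB_l45862 _)
                (CovZ.n1 (-15324, 15312) (by decide +kernel)
                 (CovZ.leaf K2_ok TB_l45863 _)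
                 (CovZ.leaf K2_ok TB_l45864 _)))
               (CovZ.n1 (-15348, 15300) (by decide +kernel)
                (CovZ.leaf K2_ok TB_l45865 _)
                (CovZ.leaf K2_ok TB_l45866 _))))))
           (CovZ.subM 10889035741476300927248326319569473896448 (by decide +kernel)
            (CovZ.n1 (-15312, 15216) (by decide +kernel)
             (CovZ.n2 (-15360, 15216) (by decide +kernel)
              (CovZ.n2 (-15336, 15240) (by decide +kernel)
               (CovZ.badM (by decide +kernel))
               (CovZ.n1 (-15360, 15240) (by decide +kernel)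
                (CovZ.n2 (-15348, 15252) (by decide +kernel)
                 (CovZ.n2 (-15348, 15240) (by decide +kernel)
                  (CovZ.leaf K2_ok TB_l45867 _)
                  (CovZ.leaf K2_ok TB_l45868 _))
                 (CovZ.leaf K2_ok TB_l45869 _))
                (CovZ.badM (by decide +kernel))))
              (CovZ.badM (by decide +kernel)))
             (CovZ.n1 (-15312, 15264) (by decide +kernel)
              (CovZ.badM (by decide +kernel))
              (CovZ.n1 (-15336, 15240) (by decide +kernel)
               (CovZ.n2 (-15336, 15264) (by decide +kernel)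
                (CovZ.badM (by decide +kernel))
                (CovZ.n1 (-15348, 15252) (by decide +kernel)
                 (CovZ.n2 (-15348, 15264) (by decide +kernel)
                  (CovZ.leaf K2_ok TB_l45872 _)
                  (CovZ.leaf K2_ok TB_l45873 _))
                 (CovZ.n1 (-15336, 15252) (by decide +kernel)
                  (CovZ.leaf K2_ok TB_l45874 _)
                  (CovZ.leaf K2_ok TB_l45875 _))))
               (CovZ.badM (by decide +kernel))))))))
         (CovZ.badM (by decide +kernel))))
       (CovZ.badM (by decide +kernel))))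
     (CovZ.subM 20282409603651670423947251286016 (by decide +kernel)
      (CovZ.n1 (-14976, 14208) (by decide +kernel)
       (CovZ.n2 (-15360, 14208) (by decide +kernel)
        (CovZ.badM (by decide +kernel))
        (CovZ.n1 (-15168, 14016) (by decide +kernel)
         (CovZ.n2 (-15360, 14016) (by decide +kernel)
          (CovZ.badM (by decide +kernel))
          (CovZ.n1 (-15264, 13920) (by decide +kernel)
           (CovZ.n2 (-15360, 13920) (by decide +kernel)
            (CovZ.badM (by decide +kernel))
            (CovZ.badM (by decide +kernel)))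
           (CovZ.badM (by decide +kernel))))
         (CovZ.badM (by decide +kernel))))
       (CovZ.badM (by decide +kernel)))))
    (CovZ.n1 (-14592, 15360) (by decide +kernel)
     (CovZ.badM (by decide +kernel))
     (CovZ.n1 (-14976, 14976) (by decide +kernel)
      (CovZ.n2 (-14976, 15360) (by decide +kernel)
       (CovZ.badM (by decide +kernel))
       (CovZ.n1 (-15168, 15168) (by decide +kernel)
        (CovZ.n2 (-15168, 15360) (by decide +kernel)
         (CovZ.badM (by decide +kernel))
         (CovZ.n1 (-15264, 15264) (by decide +kernel)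
          (CovZ.n2 (-15264, 15360) (by decide +kernel)
           (CovZ.badM (by decide +kernel))
           (CovZ.n1 (-15312, 15312) (by decide +kernel)
            (CovZ.n2 (-15312, 15360) (by decide +kernel)
             (CovZ.subM 10889035741476300924960930054446669365248 (by decide +kernel)
              (CovZ.n2 (-15288, 15336) (by decide +kernel)
               (CovZ.n2 (-15312, 15336) (by decide +kernel)
                (CovZ.n2 (-15300, 15348) (by decide +kernel)
                 (CovZ.leaf K2_ok TB_l45876 _)
                 (CovZ.leaf K2_ok TB_l45877 _))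
                (CovZ.n1 (-15300, 15324) (by decide +kernel)
                 (CovZ.leaf K2_ok TB_l45878 _)
                 (CovZ.n1 (-15300, 15336) (by decide +kernel)
                  (CovZ.leaf K2_ok TB_l45879 _)
                  (CovZ.leaf K2_ok TB_l45880 _))))
               (CovZ.n1 (-15288, 15360) (by decide +kernel)
                (CovZ.n2 (-15276, 15348) (by decide +kernel)
                 (CovZ.leaf K2_ok TB_l45881 _)
                 (CovZ.n1 (-15276, 15360) (by decide +kernel)
                  (CovZ.badM (by decide +kernel))
                  (CovZ.leaf K2_ok TB_l45882 _)))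
                (CovZ.n1 (-15300, 15348) (by decide +kernel)
                 (CovZ.leaf K2_ok TB_l45883 _)
                 (CovZ.leaf K2_ok TB_l45884 _)))))
             (CovZ.n1 (-15336, 15336) (by decide +kernel)
              (CovZ.n2 (-15336, 15360) (by decide +kernel)
               (CovZ.n2 (-15324, 15348) (by decide +kernel)
                (CovZ.leaf K2_ok TB_l33736 _)
                (CovZ.leaf K2_ok TB_l33737 _))
               (CovZ.leaf K2_ok TB_l33738 _))
              (CovZ.n1 (-15312, 15336) (by decide +kernel)
               (CovZ.n2 (-15324, 15324) (by decide +kernel)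
                (CovZ.leaf K2_ok TB_l45885 _)
                (CovZ.leaf K2_ok TB_l45886 _))
               (CovZ.n1 (-15324, 15348) (by decide +kernel)
                (CovZ.leaf K2_ok TB_l45887 _)
                (CovZ.leaf K2_ok TB_l45888 _)))))
            (CovZ.subM 10889035741470030830901774414128600842240 (by decide +kernel)
             (CovZ.n1 (-15264, 15312) (by decide +kernel)
              (CovZ.n2 (-15288, 15288) (by decide +kernel)
               (CovZ.n2 (-15288, 15312) (by decide +kernel)
                (CovZ.badM (by decide +kernel))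
                (CovZ.n1 (-15300, 15300) (by decide +kernel)
                 (CovZ.n2 (-15300, 15312) (by decide +kernel)
                  (CovZ.badM (by decide +kernel))
                  (CovZ.leaf K2_ok TB_l45889 _))
                 (CovZ.badM (by decide +kernel))))
               (CovZ.badM (by decide +kernel)))
              (CovZ.n1 (-15288, 15336) (by decide +kernel)
               (CovZ.badM (by decide +kernel))
               (CovZ.n1 (-15288, 15312) (by decide +kernel)
                (CovZ.n2 (-15300, 15324) (by decide +kernel)
                 (CovZ.leaf K2_ok TB_l45890 _)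
                 (CovZ.leaf K2_ok TB_l45891 _))
                (CovZ.badM (by decide +kernel))))))))
          (CovZ.badM (by decide +kernel))))
        (CovZ.badM (by decide +kernel))))
      (CovZ.badM (by decide +kernel))))))

theorem TB_s12_12 : SqZ TB_M TB_L [0, 7, 6, 1] (-32256) (-4608) 1536 12 12 :=
  SqZ.mk (a := (-13824)) (b := (-12288)) (c := 13824) (d := 15360) (by norm_num) (by norm_num) (by norm_num) (by norm_num)
    (CovZ.topM TB_LL 0 (by decide +kernel) (CovZ.badM (by decide +kernel)))
    (CovZ.topM TB_LL 0 (by decide +kernel) (CovZ.badM (by decide +kernel)))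

theorem TB_s0_13 : SqZ TB_M TB_L [0, 7, 6, 1] (-32256) (-4608) 1536 0 13 :=
  SqZ.mk (a := (-32256)) (b := (-30720)) (c := 15360) (d := 16896) (by norm_num) (by norm_num) (by norm_num) (by norm_num)
    (CovZ.topM TB_LL 2353129859973906143154175441529284225823720636258563057311064562201646888730119284886260675824942078871207936 (by decide +kernel) (CovZ.leaf K2_ok TB_l1837 _))
    (CovZ.topM TB_LL 2353129859973906143154175441529284225823720636258563057311064562201646888730119284886260675824942078871207936 (by decide +kernel) (CovZ.leaf K2_ok TB_l1838 _))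

theorem TB_s1_13 : SqZ TB_M TB_L [0, 7, 6, 1] (-32256) (-4608) 1536 1 13 :=
  SqZ.mk (a := (-30720)) (b := (-29184)) (c := 15360) (d := 16896) (by norm_num) (by norm_num) (by norm_num) (by norm_num)
    (CovZ.topM TB_LL 5043456795491623199145623275972558008579490852443297809755944613054516948958865054560048546623859907511181296595369984 (by decide +kernel) (CovZ.leaf K2_ok TB_l4981 _))
    (CovZ.topM TB_LL 5043456795491623199145623275972558008579490852443297809755944613054516948958865054560048546623859907511181296595369984 (by decide +kernel) (CovZ.leaf K2_ok TB_l4982 _))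

theorem TB_s2_13 : SqZ TB_M TB_L [0, 7, 6, 1] (-32256) (-4608) 1536 2 13 :=
  SqZ.mk (a := (-29184)) (b := (-27648)) (c := 15360) (d := 16896) (by norm_num) (by norm_num) (by norm_num) (by norm_num)
    (CovZ.topM TB_LL 5043456793138493339171717132834328964652041523698219635926264656343733324316518645163976051077084924416754786808102912 (by decide +kernel) (CovZ.leaf K2_ok TB_l8272 _))
    (CovZ.topM TB_LL 5043456793138493339171717132834328964652041523698219635926264656343733324316518645163976051077084924416754786808102912 (by decide +kernel) (CovZ.leaf K2_ok TB_l8273 _))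

theorem TB_s3_13 : SqZ TB_M TB_L [0, 7, 6, 1] (-32256) (-4608) 1536 3 13 :=
  SqZ.mk (a := (-27648)) (b := (-26112)) (c := 15360) (d := 16896) (by norm_num) (by norm_num) (by norm_num) (by norm_num)
    (CovZ.topM TB_LL 5043456793138493409163740325890678490535391066932433103450881491608005896667886977445133152830331249669272369090527360 (by decide +kernel) (CovZ.leaf K2_ok TB_l11605 _))
    (CovZ.topM TB_LL 5043456793138493409163740325890678490535391066932433103450881491608005896667886977445133152830331249669272369090527360 (by decide +kernel) (CovZ.leaf K2_ok TB_l11606 _))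

theorem TB_s4_13 : SqZ TB_M TB_L [0, 7, 6, 1] (-32256) (-4608) 1536 4 13 :=
  SqZ.mk (a := (-26112)) (b := (-24576)) (c := 15360) (d := 16896) (by norm_num) (by norm_num) (by norm_num) (by norm_num)
    (CovZ.topM TB_LL 631663411835949099859883151205914022257904644374446960892027670799798706760137269538072325248303414314334467127509124 (by decide +kernel) (CovZ.n2 (-25344, 16128) (by decide +kernel)
    (CovZ.leaf K2_ok TB_l13814 _)
    (CovZ.leaf K2_ok TB_l13815 _)))
    (CovZ.topM TB_LL 631663411835949099859883151205914022257904644374446960892027670799798706760137269538072325248303414314334467127509124 (by decide +kernel) (CovZ.n0 (-25344, 16128) (by decide +kernel)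
    (CovZ.leaf K2_ok TB_l13816 _)
    (CovZ.leaf K2_ok TB_l13817 _)))

theorem TB_s5_13 : SqZ TB_M TB_L [0, 7, 6, 1] (-32256) (-4608) 1536 5 13 :=
  SqZ.mk (a := (-24576)) (b := (-23040)) (c := 15360) (d := 16896) (by norm_num) (by norm_num) (by norm_num) (by norm_num)
    (CovZ.topM TB_LL 631665816743553873388612858716202337208920867230133003189890455038836481108284638392599043323296923625148370437537924 (by decide +kernel) (CovZ.n2 (-23808, 16128) (by decide +kernel)
    (CovZ.n2 (-23040, 16128) (by decide +kernel)
     (CovZ.leaf K2_ok TB_l15549 _)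
     (CovZ.leaf K2_ok TB_l15550 _))
    (CovZ.n1 (-23808, 15360) (by decide +kernel)
     (CovZ.leaf K2_ok TB_l15551 _)
     (CovZ.leaf K2_ok TB_l15552 _))))
    (CovZ.topM TB_LL 631665816743553873388612858716202337208920867230133003189890455038836481108284638392599043323296923625148370437537924 (by decide +kernel) (CovZ.n0 (-23808, 16128) (by decide +kernel)
    (CovZ.n2 (-24576, 16128) (by decide +kernel)
     (CovZ.leaf K2_ok TB_l15553 _)
     (CovZ.leaf K2_ok TB_l15554 _))
    (CovZ.n1 (-23808, 16896) (by decide +kernel)
     (CovZ.leaf K2_ok TB_l15555 _)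
     (CovZ.leaf K2_ok TB_l15556 _))))

theorem TB_s6_13 : SqZ TB_M TB_L [0, 7, 6, 1] (-32256) (-4608) 1536 6 13 :=
  SqZ.mk (a := (-23040)) (b := (-21504)) (c := 15360) (d := 16896) (by norm_num) (by norm_num) (by norm_num) (by norm_num)
    (CovZ.topM TB_LL 631665816743553873402847209822769027054881441568903534078610040645603795480090078617502485380592917145625319283392644 (by decide +kernel) (CovZ.n2 (-22272, 16128) (by decide +kernel)
    (CovZ.n2 (-21504, 16128) (by decide +kernel)
     (CovZ.n2 (-21888, 15744) (by decide +kernel)
      (CovZ.leaf K2_ok TB_l18592 _)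
      (CovZ.n1 (-21504, 15744) (by decide +kernel)
       (CovZ.leaf K2_ok TB_l18593 _)
       (CovZ.leaf K2_ok TB_l18594 _)))
     (CovZ.n1 (-21888, 16512) (by decide +kernel)
      (CovZ.n2 (-21504, 16512) (by decide +kernel)
       (CovZ.leaf K2_ok TB_l18595 _)
       (CovZ.leaf K2_ok TB_l18596 _))
      (CovZ.n1 (-21888, 16128) (by decide +kernel)
       (CovZ.leaf K2_ok TB_l18597 _)
       (CovZ.leaf K2_ok TB_l18598 _))))
    (CovZ.n1 (-22272, 15360) (by decide +kernel)
     (CovZ.leaf K2_ok TB_l18599 _)
     (CovZ.n1 (-21888, 15744) (by decide +kernel)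
      (CovZ.leaf K2_ok TB_l18600 _)
      (CovZ.leaf K2_ok TB_l18601 _)))))
    (CovZ.topM TB_LL 631665816743553873402847209822769027054881441568903534078610040645603795480090078617502485370921510588708285885743236 (by decide +kernel) (CovZ.n0 (-22272, 16128) (by decide +kernel)
    (CovZ.n2 (-23040, 16128) (by decide +kernel)
     (CovZ.n2 (-22656, 16512) (by decide +kernel)
      (CovZ.leaf K2_ok TB_l18602 _)
      (CovZ.leaf K2_ok TB_l18603 _))
     (CovZ.leaf K2_ok TB_l18604 _))
    (CovZ.n1 (-22272, 16896) (by decide +kernel)
     (CovZ.n2 (-21888, 16512) (by decide +kernel)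
      (CovZ.n2 (-22272, 16512) (by decide +kernel)
       (CovZ.leaf K2_ok TB_l18605 _)
       (CovZ.leaf K2_ok TB_l18606 _))
      (CovZ.leaf K2_ok TB_l18607 _))
     (CovZ.n1 (-22656, 16512) (by decide +kernel)
      (CovZ.leaf K2_ok TB_l18608 _)
      (CovZ.leaf K2_ok TB_l18609 _)))))

theorem TB_s7_13 : SqZ TB_M TB_L [0, 7, 6, 1] (-32256) (-4608) 1536 7 13 :=
  SqZ.mk (a := (-21504)) (b := (-19968)) (c := 15360) (d := 16896) (by norm_num) (by norm_num) (by norm_num) (by norm_num)
    (CovZ.topM TB_LL 1233717610416200464652581674333940870813224308169005163010472913405693712106554079876579115905172015296417502494752 (by decide +kernel) (CovZ.n2 (-20736, 16128) (by decide +kernel)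
    (CovZ.n2 (-19968, 16128) (by decide +kernel)
     (CovZ.n2 (-20352, 15744) (by decide +kernel)
      (CovZ.n2 (-20352, 16128) (by decide +kernel)
       (CovZ.n2 (-20160, 15936) (by decide +kernel)
        (CovZ.leaf K2_ok TB_l19455 _)
        (CovZ.n1 (-20160, 16128) (by decide +kernel)
         (CovZ.leaf K2_ok TB_l19456 _)
         (CovZ.leaf K2_ok TB_l19457 _)))
       (CovZ.n1 (-20544, 15936) (by decide +kernel)
        (CovZ.leaf K2_ok TB_l19458 _)
        (CovZ.leaf K2_ok TB_l19459 _)))
      (CovZ.n1 (-19968, 15744) (by decide +kernel)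
       (CovZ.n2 (-20160, 15552) (by decide +kernel)
        (CovZ.leaf K2_ok TB_l19460 _)
        (CovZ.leaf K2_ok TB_l19461 _))
       (CovZ.n1 (-20160, 15936) (by decide +kernel)
        (CovZ.leaf K2_ok TB_l19462 _)
        (CovZ.n1 (-20160, 15744) (by decide +kernel)
         (CovZ.leaf K2_ok TB_l19463 _)
         (CovZ.leaf K2_ok TB_l19464 _)))))
     (CovZ.n1 (-20352, 16512) (by decide +kernel)
      (CovZ.n2 (-19968, 16512) (by decide +kernel)
       (CovZ.n2 (-20160, 16320) (by decide +kernel)
        (CovZ.leaf K2_ok TB_l19465 _)
        (CovZ.leaf K2_ok TB_l19466 _))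
       (CovZ.n1 (-20160, 16704) (by decide +kernel)
        (CovZ.leaf K2_ok TB_l19467 _)
        (CovZ.leaf K2_ok TB_l19468 _)))
      (CovZ.n1 (-20352, 16128) (by decide +kernel)
       (CovZ.n2 (-20544, 16320) (by decide +kernel)
        (CovZ.leaf K2_ok TB_l19469 _)
        (CovZ.leaf K2_ok TB_l19470 _))
       (CovZ.n1 (-20160, 16320) (by decide +kernel)
        (CovZ.leaf K2_ok TB_l19471 _)
        (CovZ.leaf K2_ok TB_l19472 _)))))
    (CovZ.n1 (-20736, 15360) (by decide +kernel)
     (CovZ.n2 (-21120, 15744) (by decide +kernel)
      (CovZ.n2 (-20736, 15744) (by decide +kernel)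
       (CovZ.leaf K2_ok TB_l19473 _)
       (CovZ.n1 (-20928, 15936) (by decide +kernel)
        (CovZ.leaf K2_ok TB_l19474 _)
        (CovZ.leaf K2_ok TB_l19475 _)))
      (CovZ.n1 (-21120, 15360) (by decide +kernel)
       (CovZ.leaf K2_ok TB_l19476 _)
       (CovZ.leaf K2_ok TB_l19477 _)))
     (CovZ.n1 (-20352, 15744) (by decide +kernel)
      (CovZ.n2 (-20352, 15360) (by decide +kernel)
       (CovZ.n2 (-20544, 15552) (by decide +kernel)
        (CovZ.leaf K2_ok TB_l19478 _)
        (CovZ.leaf K2_ok TB_l19479 _))
       (CovZ.n1 (-20160, 15552) (by decide +kernel)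
        (CovZ.leaf K2_ok TB_l19480 _)
        (CovZ.leaf K2_ok TB_l19481 _)))
      (CovZ.subM 1233717601242136000125024057522936407573771138802165097648468085511608709579095412143891540152876013373525086732288 (by decide +kernel)
       (CovZ.n1 (-20736, 15744) (by decide +kernel)
        (CovZ.n2 (-20544, 15936) (by decide +kernel)
         (CovZ.leaf K2_ok TB_l19482 _)
         (CovZ.leaf K2_ok TB_l19483 _))
        (CovZ.n1 (-20544, 15552) (by decide +kernel)
         (CovZ.leaf K2_ok TB_l19484 _)
         (CovZ.leaf K2_ok TB_l19485 _))))))))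
    (CovZ.topM TB_LL 1233717610416200464652581674333940870813224308169005163010472913405693712106554079876579115905172015296417502494752 (by decide +kernel) (CovZ.n0 (-20736, 16128) (by decide +kernel)
    (CovZ.n2 (-21504, 16128) (by decide +kernel)
     (CovZ.n2 (-21120, 16512) (by decide +kernel)
      (CovZ.n2 (-21120, 16128) (by decide +kernel)
       (CovZ.leaf K2_ok TB_l19486 _)
       (CovZ.leaf K2_ok TB_l19487 _))
      (CovZ.n1 (-21504, 16512) (by decide +kernel)
       (CovZ.leaf K2_ok TB_l19488 _)
       (CovZ.leaf K2_ok TB_l19489 _)))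
     (CovZ.n1 (-21120, 15744) (by decide +kernel)
      (CovZ.n2 (-21504, 15744) (by decide +kernel)
       (CovZ.leaf K2_ok TB_l19490 _)
       (CovZ.leaf K2_ok TB_l19491 _))
      (CovZ.n1 (-21120, 16128) (by decide +kernel)
       (CovZ.n2 (-20928, 15936) (by decide +kernel)
        (CovZ.leaf K2_ok TB_l19492 _)
        (CovZ.leaf K2_ok TB_l19493 _))
       (CovZ.leaf K2_ok TB_l19494 _))))
    (CovZ.n1 (-20736, 16896) (by decide +kernel)
     (CovZ.n2 (-20352, 16512) (by decide +kernel)
      (CovZ.n2 (-20736, 16512) (by decide +kernel)
       (CovZ.leaf K2_ok TB_l19495 _)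
       (CovZ.n1 (-20544, 16320) (by decide +kernel)
        (CovZ.leaf K2_ok TB_l19496 _)
        (CovZ.leaf K2_ok TB_l19497 _)))
      (CovZ.n1 (-20352, 16896) (by decide +kernel)
       (CovZ.n2 (-20160, 16704) (by decide +kernel)
        (CovZ.leaf K2_ok TB_l19498 _)
        (CovZ.leaf K2_ok TB_l19499 _))
       (CovZ.leaf K2_ok TB_l19500 _)))
     (CovZ.n1 (-21120, 16512) (by decide +kernel)
      (CovZ.n2 (-21120, 16896) (by decide +kernel)
       (CovZ.leaf K2_ok TB_l19501 _)
       (CovZ.leaf K2_ok TB_l19502 _))
      (CovZ.n1 (-20736, 16512) (by decide +kernel)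
       (CovZ.leaf K2_ok TB_l19503 _)
       (CovZ.leaf K2_ok TB_l19504 _))))))

theorem TB_s8_13 : SqZ TB_M TB_L [0, 7, 6, 1] (-32256) (-4608) 1536 8 13 :=
  SqZ.mk (a := (-19968)) (b := (-18432)) (c := 15360) (d := 16896) (by norm_num) (by norm_num) (by norm_num) (by norm_num)
    (CovZ.topM TB_LL 1233797460864071634957226139258191450961485177647585135612287239413119350032465854953535582364210611350795783930400 (by decide +kernel) (CovZ.n2 (-19200, 16128) (by decide +kernel)
    (CovZ.n2 (-18432, 16128) (by decide +kernel)
     (CovZ.n2 (-18816, 15744) (by decide +kernel)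
      (CovZ.n2 (-18816, 16128) (by decide +kernel)
       (CovZ.n2 (-18624, 15936) (by decide +kernel)
        (CovZ.n2 (-18816, 15936) (by decide +kernel)
         (CovZ.leaf K2_ok TB_l20175 _)
         (CovZ.leaf K2_ok TB_l20176 _))
        (CovZ.n1 (-18624, 16128) (by decide +kernel)
         (CovZ.leaf K2_ok TB_l20177 _)
         (CovZ.leaf K2_ok TB_l20178 _)))
       (CovZ.n1 (-19008, 15936) (by decide +kernel)
        (CovZ.n2 (-19008, 16128) (by decide +kernel)
         (CovZ.leaf K2_ok TB_l20179 _)
         (CovZ.leaf K2_ok TB_l20180 _))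
        (CovZ.leaf K2_ok TB_l20181 _)))
      (CovZ.n1 (-18432, 15744) (by decide +kernel)
       (CovZ.n2 (-18624, 15552) (by decide +kernel)
        (CovZ.n2 (-18624, 15744) (by decide +kernel)
         (CovZ.leaf K2_ok TB_l20182 _)
         (CovZ.leaf K2_ok TB_l20183 _))
        (CovZ.n1 (-18432, 15552) (by decide +kernel)
         (CovZ.leaf K2_ok TB_l20184 _)
         (CovZ.leaf K2_ok TB_l20185 _)))
       (CovZ.n1 (-18624, 15936) (by decide +kernel)
        (CovZ.n2 (-18432, 15936) (by decide +kernel)
         (CovZ.leaf K2_ok TB_l20186 _)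
         (CovZ.leaf K2_ok TB_l20187 _))
        (CovZ.n1 (-18624, 15744) (by decide +kernel)
         (CovZ.leaf K2_ok TB_l20188 _)
         (CovZ.leaf K2_ok TB_l20189 _)))))
     (CovZ.n1 (-18816, 16512) (by decide +kernel)
      (CovZ.n2 (-18432, 16512) (by decide +kernel)
       (CovZ.n2 (-18624, 16320) (by decide +kernel)
        (CovZ.leaf K2_ok TB_l20190 _)
        (CovZ.leaf K2_ok TB_l20191 _))
       (CovZ.n1 (-18624, 16704) (by decide +kernel)
        (CovZ.leaf K2_ok TB_l20192 _)
        (CovZ.leaf K2_ok TB_l20193 _)))
      (CovZ.n1 (-18816, 16128) (by decide +kernel)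
       (CovZ.n2 (-19008, 16320) (by decide +kernel)
        (CovZ.leaf K2_ok TB_l20194 _)
        (CovZ.leaf K2_ok TB_l20195 _))
       (CovZ.n1 (-18624, 16320) (by decide +kernel)
        (CovZ.leaf K2_ok TB_l20196 _)
        (CovZ.leaf K2_ok TB_l20197 _)))))
    (CovZ.n1 (-19200, 15360) (by decide +kernel)
     (CovZ.n2 (-19584, 15744) (by decide +kernel)
      (CovZ.subM 2404916778789865197371773067686454739765161892547648321632760610762395662036651863904707831747343784052672069664 (by decide +kernel)
       (CovZ.n2 (-19200, 15744) (by decide +kernel)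
        (CovZ.n2 (-19392, 15552) (by decide +kernel)
         (CovZ.n2 (-19392, 15744) (by decide +kernel)
          (CovZ.leaf K2_ok TB_l20198 _)
          (CovZ.leaf K2_ok TB_l20199 _))
         (CovZ.n1 (-19200, 15552) (by decide +kernel)
          (CovZ.leaf K2_ok TB_l20200 _)
          (CovZ.leaf K2_ok TB_l20201 _)))
        (CovZ.n1 (-19392, 15936) (by decide +kernel)
         (CovZ.leaf K2_ok TB_l20202 _)
         (CovZ.n1 (-19392, 15744) (by decide +kernel)
          (CovZ.leaf K2_ok TB_l20203 _)
          (CovZ.leaf K2_ok TB_l20204 _)))))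
      (CovZ.n1 (-19584, 15360) (by decide +kernel)
       (CovZ.subM 1233717610416117340581091776197174386148507013878913283357811811136561799586833345243442024426209920343715782754336 (by decide +kernel)
        (CovZ.n2 (-19776, 15552) (by decide +kernel)
         (CovZ.n2 (-19584, 15552) (by decide +kernel)
          (CovZ.leaf K2_ok TB_l20205 _)
          (CovZ.leaf K2_ok TB_l20206 _))
         (CovZ.n1 (-19776, 15360) (by decide +kernel)
          (CovZ.leaf K2_ok TB_l20207 _)
          (CovZ.leaf K2_ok TB_l20208 _))))
       (CovZ.subM 2404916778789865197371773067686454739765161892547648321632760610762395662036651863904707831747343784052672069664 (by decide +kernel)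
        (CovZ.n1 (-19392, 15552) (by decide +kernel)
         (CovZ.n2 (-19392, 15360) (by decide +kernel)
          (CovZ.leaf K2_ok TB_l20209 _)
          (CovZ.leaf K2_ok TB_l20210 _))
         (CovZ.n1 (-19584, 15552) (by decide +kernel)
          (CovZ.leaf K2_ok TB_l20211 _)
          (CovZ.leaf K2_ok TB_l20212 _))))))
     (CovZ.n1 (-18816, 15744) (by decide +kernel)
      (CovZ.n2 (-18816, 15360) (by decide +kernel)
       (CovZ.subM 2404916778789865197371773067686454739765161892547648321632760610762395662036651863904707831747343784052672069664 (by decide +kernel)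
        (CovZ.n2 (-19008, 15552) (by decide +kernel)
         (CovZ.n2 (-18816, 15552) (by decide +kernel)
          (CovZ.leaf K2_ok TB_l20213 _)
          (CovZ.leaf K2_ok TB_l20214 _))
         (CovZ.n1 (-19008, 15360) (by decide +kernel)
          (CovZ.leaf K2_ok TB_l20215 _)
          (CovZ.leaf K2_ok TB_l20216 _))))
       (CovZ.n1 (-18624, 15552) (by decide +kernel)
        (CovZ.n2 (-18624, 15360) (by decide +kernel)
         (CovZ.n2 (-18720, 15456) (by decide +kernel)
          (CovZ.leaf K2_ok TB_l20217 _)
          (CovZ.leaf K2_ok TB_l20218 _))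
         (CovZ.n1 (-18528, 15456) (by decide +kernel)
          (CovZ.leaf K2_ok TB_l20219 _)
          (CovZ.leaf K2_ok TB_l20220 _)))
        (CovZ.n1 (-18816, 15552) (by decide +kernel)
         (CovZ.leaf K2_ok TB_l20221 _)
         (CovZ.n1 (-18720, 15456) (by decide +kernel)
          (CovZ.leaf K2_ok TB_l20222 _)
          (CovZ.leaf K2_ok TB_l20223 _)))))
      (CovZ.subM 2404916778789865197371773067686454739765161892547648321632760610762395662036651863904707831747343784052672069664 (by decide +kernel)
       (CovZ.n1 (-19200, 15744) (by decide +kernel)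
        (CovZ.n2 (-19008, 15936) (by decide +kernel)
         (CovZ.n2 (-19008, 15744) (by decide +kernel)
          (CovZ.leaf K2_ok TB_l20224 _)
          (CovZ.leaf K2_ok TB_l20225 _))
         (CovZ.leaf K2_ok TB_l20226 _))
        (CovZ.n1 (-19008, 15552) (by decide +kernel)
         (CovZ.n2 (-19200, 15552) (by decide +kernel)
          (CovZ.leaf K2_ok TB_l20227 _)
          (CovZ.leaf K2_ok TB_l20228 _))
         (CovZ.n1 (-19008, 15744) (by decide +kernel)
          (CovZ.leaf K2_ok TB_l20229 _)
          (CovZ.leaf K2_ok TB_l20230 _)))))))))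
    (CovZ.topM TB_LL 1233797460864071634957226139258191450961485177647585135612287239413119350032465854953535582364210611350795783930400 (by decide +kernel) (CovZ.n0 (-19200, 16128) (by decide +kernel)
    (CovZ.n2 (-19968, 16128) (by decide +kernel)
     (CovZ.n2 (-19584, 16512) (by decide +kernel)
      (CovZ.n2 (-19584, 16128) (by decide +kernel)
       (CovZ.n2 (-19776, 16320) (by decide +kernel)
        (CovZ.leaf K2_ok TB_l20231 _)
        (CovZ.leaf K2_ok TB_l20232 _))
       (CovZ.n1 (-19392, 16320) (by decide +kernel)
        (CovZ.leaf K2_ok TB_l20233 _)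
        (CovZ.leaf K2_ok TB_l20234 _)))
      (CovZ.n1 (-19968, 16512) (by decide +kernel)
       (CovZ.leaf K2_ok TB_l20235 _)
       (CovZ.n1 (-19776, 16320) (by decide +kernel)
        (CovZ.leaf K2_ok TB_l20236 _)
        (CovZ.leaf K2_ok TB_l20237 _))))
     (CovZ.n1 (-19584, 15744) (by decide +kernel)
      (CovZ.subM 1233717610416117340581091776197174386148507013878913283357811811136561799586833345243442024426209920343715782754336 (by decide +kernel)
       (CovZ.n2 (-19968, 15744) (by decide +kernel)
        (CovZ.n2 (-19776, 15936) (by decide +kernel)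
         (CovZ.n2 (-19776, 15744) (by decide +kernel)
          (CovZ.leaf K2_ok TB_l20238 _)
          (CovZ.leaf K2_ok TB_l20239 _))
         (CovZ.n1 (-19968, 15936) (by decide +kernel)
          (CovZ.leaf K2_ok TB_l20240 _)
          (CovZ.leaf K2_ok TB_l20241 _)))
        (CovZ.n1 (-19776, 15552) (by decide +kernel)
         (CovZ.n2 (-19968, 15552) (by decide +kernel)
          (CovZ.leaf K2_ok TB_l20242 _)
          (CovZ.leaf K2_ok TB_l20243 _))
         (CovZ.n1 (-19776, 15744) (by decide +kernel)
          (CovZ.leaf K2_ok TB_l20244 _)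
          (CovZ.leaf K2_ok TB_l20245 _)))))
      (CovZ.n1 (-19584, 16128) (by decide +kernel)
       (CovZ.n2 (-19392, 15936) (by decide +kernel)
        (CovZ.leaf K2_ok TB_l20246 _)
        (CovZ.n1 (-19392, 16128) (by decide +kernel)
         (CovZ.leaf K2_ok TB_l20247 _)
         (CovZ.leaf K2_ok TB_l20248 _)))
       (CovZ.n1 (-19776, 15936) (by decide +kernel)
        (CovZ.n2 (-19776, 16128) (by decide +kernel)
         (CovZ.leaf K2_ok TB_l20249 _)
         (CovZ.leaf K2_ok TB_l20250 _))
        (CovZ.leaf K2_ok TB_l20251 _)))))
    (CovZ.n1 (-19200, 16896) (by decide +kernel)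
     (CovZ.n2 (-18816, 16512) (by decide +kernel)
      (CovZ.subM 2404916778789865197371773067671277639044648384181090025485701869304251858606557023894928047296258594324506378272 (by decide +kernel)
       (CovZ.n2 (-19200, 16512) (by decide +kernel)
        (CovZ.n2 (-19008, 16704) (by decide +kernel)
         (CovZ.leaf K2_ok TB_l20252 _)
         (CovZ.leaf K2_ok TB_l20253 _))
        (CovZ.n1 (-19008, 16320) (by decide +kernel)
         (CovZ.leaf K2_ok TB_l20254 _)
         (CovZ.leaf K2_ok TB_l20255 _))))
      (CovZ.n1 (-18816, 16896) (by decide +kernel)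
       (CovZ.n2 (-18624, 16704) (by decide +kernel)
        (CovZ.leaf K2_ok TB_l20256 _)
        (CovZ.leaf K2_ok TB_l20257 _))
       (CovZ.n1 (-19008, 16704) (by decide +kernel)
        (CovZ.leaf K2_ok TB_l20258 _)
        (CovZ.leaf K2_ok TB_l20259 _))))
     (CovZ.n1 (-19584, 16512) (by decide +kernel)
      (CovZ.n2 (-19584, 16896) (by decide +kernel)
       (CovZ.n2 (-19392, 16704) (by decide +kernel)
        (CovZ.leaf K2_ok TB_l20260 _)
        (CovZ.leaf K2_ok TB_l20261 _))
       (CovZ.leaf K2_ok TB_l20262 _))
      (CovZ.subM 2404916778789865197371773067671277639044648384181090025485701869304251858606557023894928047296258594324506378272 (by decide +kernel)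
       (CovZ.n1 (-19200, 16512) (by decide +kernel)
        (CovZ.n2 (-19392, 16320) (by decide +kernel)
         (CovZ.leaf K2_ok TB_l20263 _)
         (CovZ.leaf K2_ok TB_l20264 _))
        (CovZ.n1 (-19392, 16704) (by decide +kernel)
         (CovZ.leaf K2_ok TB_l20265 _)
         (CovZ.leaf K2_ok TB_l20266 _))))))))

end Pool.Agent.TET
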