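import Pool.Agent.Helper38_TET.TB_M
import Pool.Agent.Helper38_TET.TB_L
import Pool.Agent.Helper38_TET.TB_185
import Pool.Agent.Helper38_TET.TB_186
import Pool.Agent.Helper38_TET.TB_224
import Pool.Agent.Helper38_TET.TB_225
import Pool.Agent.Helper38_TET.TB_226
import Pool.Agent.Helper38_TET.TB_227
import Pool.Agent.Helper38_TET.TB_228
import Pool.Agent.Helper38_TET.TB_229
import Pool.Agent.Helper38_TET.TB_306
import Pool.Agent.Helper38_TET.TB_307
import Pool.Agent.Helper38_TET.TB_308
import Pool.Agent.Helper38_TET.TB_309
import Pool.Agent.Helper38_TET.TB_333

/-!
# MP_c7c9bf_co: certificates, family TB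
-/

set_option autoImplicit false
set_option maxRecDepth 100000

namespace Pool.Agent.TET

theorem TB_u381 : CovZ TB_M (toL (selN TB_LN 21662143041287659049273462208908388356174160084278763128957841492648825873060931511515760567715230625033562064981383102192583504)) [0, 7, 6, 1] (-16896, 15360) (-16128, 16128) (-16896, 16896) :=
    (CovZ.n2 (-16896, 16128) (by decide +kernel)
     (CovZ.n2 (-16512, 16512) (by decide +kernel)
      (CovZ.n2 (-16512, 16128) (by decide +kernel)
       (CovZ.subM 2710218140521003545180016062453378437847885135589550157910325380433044815295119026538698691592929285574532170304 (by decide +kernel)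
        (CovZ.n2 (-16704, 16320) (by decide +kernel)
         (CovZ.n2 (-16512, 16320) (by decide +kernel)
          (CovZ.n2 (-16608, 16224) (by decide +kernel)
           (CovZ.leaf K2_ok TB_l27769 _)
           (CovZ.leaf K2_ok TB_l27770 _))
          (CovZ.leaf K2_ok TB_l27771 _))
         (CovZ.n1 (-16704, 16128) (by decide +kernel)
          (CovZ.n2 (-16800, 16224) (by decide +kernel)
           (CovZ.leaf K2_ok TB_l27772 _)
           (CovZ.leaf K2_ok TB_l27773 _))
          (CovZ.n1 (-16608, 16224) (by decide +kernel)
           (CovZ.leaf K2_ok TB_l27774 _)
           (CovZ.leaf K2_ok TB_l27775 _)))))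
       (CovZ.n1 (-16320, 16320) (by decide +kernel)
        (CovZ.subM 305310535760598319690817628855690212294005681449230458215582324638956538657179287477515330898827984712398668368 (by decide +kernel)
         (CovZ.n2 (-16320, 16128) (by decide +kernel)
          (CovZ.n2 (-16416, 16224) (by decide +kernel)
           (CovZ.leaf K2_ok TB_l27776 _)
           (CovZ.n1 (-16416, 16128) (by decide +kernel)
            (CovZ.leaf K2_ok TB_l27777 _)
            (CovZ.leaf K2_ok TB_l27778 _)))
          (CovZ.n1 (-16224, 16224) (by decide +kernel)
           (CovZ.n2 (-16224, 16128) (by decide +kernel)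
            (CovZ.leaf K2_ok TB_l27779 _)
            (CovZ.leaf K2_ok TB_l27780 _))
           (CovZ.leaf K2_ok TB_l27781 _))))
        (CovZ.subM 305310535760598319690817628855690212294005681449230407998765448389443550435334440684561286139198077243970683456 (by decide +kernel)
         (CovZ.n1 (-16512, 16320) (by decide +kernel)
          (CovZ.n2 (-16416, 16416) (by decide +kernel)
           (CovZ.leaf K2_ok TB_l27782 _)
           (CovZ.leaf K2_ok TB_l27783 _))
          (CovZ.n1 (-16416, 16224) (by decide +kernel)
           (CovZ.leaf K2_ok TB_l27784 _)
           (CovZ.leaf K2_ok TB_l27785 _))))))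
      (CovZ.subM 2710218140521003545180016062453378437847885135589550157910325380433044815295119026538698691592929285574532170304 (by decide +kernel)
       (CovZ.n1 (-16896, 16512) (by decide +kernel)
        (CovZ.n2 (-16704, 16704) (by decide +kernel)
         (CovZ.n2 (-16704, 16512) (by decide +kernel)
          (CovZ.leaf K2_ok TB_l27786 _)
          (CovZ.leaf K2_ok TB_l27787 _))
         (CovZ.n1 (-16896, 16704) (by decide +kernel)
          (CovZ.leaf K2_ok TB_l27788 _)
          (CovZ.leaf K2_ok TB_l27789 _)))
        (CovZ.n1 (-16704, 16320) (by decide +kernel)
         (CovZ.n2 (-16896, 16320) (by decide +kernel)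
          (CovZ.leaf K2_ok TB_l27790 _)
          (CovZ.n1 (-16800, 16224) (by decide +kernel)
           (CovZ.leaf K2_ok TB_l27791 _)
           (CovZ.leaf K2_ok TB_l27792 _)))
         (CovZ.n1 (-16704, 16512) (by decide +kernel)
          (CovZ.leaf K2_ok TB_l27793 _)
          (CovZ.leaf K2_ok TB_l27794 _))))))
     (CovZ.n1 (-16512, 15744) (by decide +kernel)
      (CovZ.subM 2710218140521003545180016062453378437847885135589550157910325380433044815295119026538697482667109670945357464128 (by decide +kernel)
       (CovZ.n2 (-16896, 15744) (by decide +kernel)
        (CovZ.n2 (-16704, 15936) (by decide +kernel)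
         (CovZ.n2 (-16704, 15744) (by decide +kernel)
          (CovZ.n2 (-16800, 15840) (by decide +kernel)
           (CovZ.leaf K2_ok TB_l27795 _)
           (CovZ.n1 (-16800, 15744) (by decide +kernel)
            (CovZ.leaf K2_ok TB_l27796 _)
            (CovZ.leaf K2_ok TB_l27797 _)))
          (CovZ.n1 (-16608, 15840) (by decide +kernel)
           (CovZ.n2 (-16608, 15744) (by decide +kernel)
            (CovZ.leaf K2_ok TB_l27798 _)
            (CovZ.leaf K2_ok TB_l27799 _))
           (CovZ.leaf K2_ok TB_l27800 _)))
         (CovZ.n1 (-16896, 15936) (by decide +kernel)
          (CovZ.n2 (-16800, 16032) (by decide +kernel)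
           (CovZ.leaf K2_ok TB_l27801 _)
           (CovZ.leaf K2_ok TB_l27802 _))
          (CovZ.n1 (-16800, 15840) (by decide +kernel)
           (CovZ.leaf K2_ok TB_l27803 _)
           (CovZ.leaf K2_ok TB_l27804 _))))
        (CovZ.n1 (-16704, 15552) (by decide +kernel)
         (CovZ.n2 (-16896, 15552) (by decide +kernel)
          (CovZ.n2 (-16800, 15648) (by decide +kernel)
           (CovZ.n2 (-16800, 15552) (by decide +kernel)
            (CovZ.leaf K2_ok TB_l27805 _)
            (CovZ.leaf K2_ok TB_l27806 _))
           (CovZ.leaf K2_ok TB_l27807 _))
          (CovZ.n1 (-16800, 15456) (by decide +kernel)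
           (CovZ.n2 (-16896, 15456) (by decide +kernel)
            (CovZ.leaf K2_ok TB_l27808 _)
            (CovZ.n1 (-16848, 15408) (by decide +kernel)
             (CovZ.leaf K2_ok TB_l27809 _)
             (CovZ.leaf K2_ok TB_l27810 _)))
           (CovZ.n1 (-16800, 15552) (by decide +kernel)
            (CovZ.leaf K2_ok TB_l27811 _)
            (CovZ.leaf K2_ok TB_l27812 _))))
         (CovZ.n1 (-16704, 15744) (by decide +kernel)
          (CovZ.n2 (-16608, 15648) (by decide +kernel)
           (CovZ.n2 (-16704, 15648) (by decide +kernel)
            (CovZ.leaf K2_ok TB_l27813 _)
            (CovZ.leaf K2_ok TB_l27814 _))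
           (CovZ.n1 (-16608, 15744) (by decide +kernel)
            (CovZ.leaf K2_ok TB_l27815 _)
            (CovZ.leaf K2_ok TB_l27816 _)))
          (CovZ.n1 (-16800, 15648) (by decide +kernel)
           (CovZ.n2 (-16800, 15744) (by decide +kernel)
            (CovZ.leaf K2_ok TB_l27817 _)
            (CovZ.leaf K2_ok TB_l27818 _))
           (CovZ.n1 (-16704, 15648) (by decide +kernel)
            (CovZ.leaf K2_ok TB_l27819 _)
            (CovZ.leaf K2_ok TB_l27820 _)))))))
      (CovZ.n1 (-16512, 16128) (by decide +kernel)
       (CovZ.subM 305310535760598319690817628855690212294005681449230458215582324638956538657179287477515330898827984712398668368 (by decide +kernel)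
        (CovZ.n2 (-16320, 15936) (by decide +kernel)
         (CovZ.n2 (-16512, 15936) (by decide +kernel)
          (CovZ.n2 (-16416, 16032) (by decide +kernel)
           (CovZ.n2 (-16416, 15936) (by decide +kernel)
            (CovZ.leaf K2_ok TB_l27821 _)
            (CovZ.leaf K2_ok TB_l27822 _))
           (CovZ.leaf K2_ok TB_l27823 _))
          (CovZ.n1 (-16416, 15840) (by decide +kernel)
           (CovZ.leaf K2_ok TB_l27824 _)
           (CovZ.n1 (-16416, 15936) (by decide +kernel)
            (CovZ.leaf K2_ok TB_l27825 _)
            (CovZ.leaf K2_ok TB_l27826 _))))
         (CovZ.n1 (-16320, 16128) (by decide +kernel)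
          (CovZ.n2 (-16224, 16032) (by decide +kernel)
           (CovZ.leaf K2_ok TB_l27827 _)
           (CovZ.n1 (-16224, 16128) (by decide +kernel)
            (CovZ.leaf K2_ok TB_l27828 _)
            (CovZ.leaf K2_ok TB_l27829 _)))
          (CovZ.n1 (-16416, 16032) (by decide +kernel)
           (CovZ.n2 (-16416, 16128) (by decide +kernel)
            (CovZ.leaf K2_ok TB_l27830 _)
            (CovZ.leaf K2_ok TB_l27831 _))
           (CovZ.leaf K2_ok TB_l27832 _)))))
       (CovZ.subM 2710218140521003545180016062453378437847885135589550157910325380433044815295119026538697482667109670945357464128 (by decide +kernel)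
        (CovZ.n1 (-16704, 15936) (by decide +kernel)
         (CovZ.n2 (-16704, 16128) (by decide +kernel)
          (CovZ.n2 (-16608, 16032) (by decide +kernel)
           (CovZ.leaf K2_ok TB_l27833 _)
           (CovZ.leaf K2_ok TB_l27834 _))
          (CovZ.n1 (-16800, 16032) (by decide +kernel)
           (CovZ.leaf K2_ok TB_l27835 _)
           (CovZ.leaf K2_ok TB_l27836 _)))
         (CovZ.n1 (-16512, 15936) (by decide +kernel)
          (CovZ.n2 (-16608, 15840) (by decide +kernel)
           (CovZ.n2 (-16608, 15936) (by decide +kernel)
            (CovZ.leaf K2_ok TB_l27837 _)
            (CovZ.leaf K2_ok TB_l27838 _))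
           (CovZ.leaf K2_ok TB_l27839 _))
          (CovZ.n1 (-16608, 16032) (by decide +kernel)
           (CovZ.leaf K2_ok TB_l27840 _)
           (CovZ.n1 (-16608, 15936) (by decide +kernel)
            (CovZ.leaf K2_ok TB_l27841 _)
            (CovZ.leaf K2_ok TB_l27842 _)))))))))

theorem TB_u382 : CovZ TB_M (toL (selN TB_LN 21662143041287659049273462208908388356174160084278763128957841492648825873060931511515760567715230625033562064981383102192583504)) [0, 7, 6, 1] (-16128, 16128) (-15360, 16896) (-16896, 16896) :=
    (CovZ.n1 (-16128, 16896) (by decide +kernel)
     (CovZ.n2 (-15744, 16512) (by decide +kernel)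
      (CovZ.n2 (-16128, 16512) (by decide +kernel)
       (CovZ.n2 (-15936, 16704) (by decide +kernel)
        (CovZ.n2 (-15936, 16512) (by decide +kernel)
         (CovZ.n2 (-16032, 16608) (by decide +kernel)
          (CovZ.leaf K2_ok TB_l27843 _)
          (CovZ.leaf K2_ok TB_l27844 _))
         (CovZ.n1 (-15840, 16608) (by decide +kernel)
          (CovZ.n2 (-15840, 16512) (by decide +kernel)
           (CovZ.leaf K2_ok TB_l27845 _)
           (CovZ.leaf K2_ok TB_l27846 _))
          (CovZ.leaf K2_ok TB_l27847 _)))
        (CovZ.n1 (-16128, 16704) (by decide +kernel)
         (CovZ.n2 (-16032, 16800) (by decide +kernel)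
          (CovZ.leaf K2_ok TB_l27848 _)
          (CovZ.leaf K2_ok TB_l27849 _))
         (CovZ.n1 (-16032, 16608) (by decide +kernel)
          (CovZ.leaf K2_ok TB_l27850 _)
          (CovZ.leaf K2_ok TB_l27851 _))))
       (CovZ.n1 (-15936, 16320) (by decide +kernel)
        (CovZ.n2 (-16128, 16320) (by decide +kernel)
         (CovZ.n2 (-16032, 16416) (by decide +kernel)
          (CovZ.n2 (-16032, 16320) (by decide +kernel)
           (CovZ.leaf K2_ok TB_l27852 _)
           (CovZ.leaf K2_ok TB_l27853 _))
          (CovZ.leaf K2_ok TB_l27854 _))
         (CovZ.n1 (-16032, 16224) (by decide +kernel)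
          (CovZ.leaf K2_ok TB_l27855 _)
          (CovZ.n1 (-16032, 16320) (by decide +kernel)
           (CovZ.leaf K2_ok TB_l27856 _)
           (CovZ.leaf K2_ok TB_l27857 _))))
        (CovZ.n1 (-15936, 16512) (by decide +kernel)
         (CovZ.n2 (-15840, 16416) (by decide +kernel)
          (CovZ.leaf K2_ok TB_l27858 _)
          (CovZ.n1 (-15840, 16512) (by decide +kernel)
           (CovZ.leaf K2_ok TB_l27859 _)
           (CovZ.leaf K2_ok TB_l27860 _)))
         (CovZ.n1 (-16032, 16416) (by decide +kernel)
          (CovZ.n2 (-16032, 16512) (by decide +kernel)
           (CovZ.leaf K2_ok TB_l27861 _)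
           (CovZ.leaf K2_ok TB_l27862 _))
          (CovZ.leaf K2_ok TB_l27863 _)))))
      (CovZ.n1 (-15744, 16896) (by decide +kernel)
       (CovZ.n2 (-15552, 16704) (by decide +kernel)
        (CovZ.n2 (-15744, 16704) (by decide +kernel)
         (CovZ.n2 (-15648, 16800) (by decide +kernel)
          (CovZ.n2 (-15648, 16704) (by decide +kernel)
           (CovZ.leaf K2_ok TB_l27864 _)
           (CovZ.leaf K2_ok TB_l27865 _))
          (CovZ.n1 (-15744, 16800) (by decide +kernel)
           (CovZ.leaf K2_ok TB_l27866 _)
           (CovZ.leaf K2_ok TB_l27867 _)))
         (CovZ.n1 (-15648, 16608) (by decide +kernel)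
          (CovZ.n2 (-15744, 16608) (by decide +kernel)
           (CovZ.leaf K2_ok TB_l27868 _)
           (CovZ.leaf K2_ok TB_l27869 _))
          (CovZ.n1 (-15648, 16704) (by decide +kernel)
           (CovZ.leaf K2_ok TB_l27870 _)
           (CovZ.leaf K2_ok TB_l27871 _))))
        (CovZ.n1 (-15552, 16896) (by decide +kernel)
         (CovZ.n2 (-15456, 16800) (by decide +kernel)
          (CovZ.n2 (-15552, 16800) (by decide +kernel)
           (CovZ.leaf K2_ok TB_l27872 _)
           (CovZ.leaf K2_ok TB_l27873 _))
          (CovZ.n1 (-15456, 16896) (by decide +kernel)
           (CovZ.n2 (-15408, 16848) (by decide +kernel)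
            (CovZ.leaf K2_ok TB_l27874 _)
            (CovZ.leaf K2_ok TB_l27875 _))
           (CovZ.leaf K2_ok TB_l27876 _)))
         (CovZ.n1 (-15648, 16800) (by decide +kernel)
          (CovZ.n2 (-15648, 16896) (by decide +kernel)
           (CovZ.leaf K2_ok TB_l27877 _)
           (CovZ.leaf K2_ok TB_l27878 _))
          (CovZ.n1 (-15552, 16800) (by decide +kernel)
           (CovZ.leaf K2_ok TB_l27879 _)
           (CovZ.leaf K2_ok TB_l27880 _)))))
       (CovZ.n1 (-15936, 16704) (by decide +kernel)
        (CovZ.n2 (-15936, 16896) (by decide +kernel)
         (CovZ.n2 (-15840, 16800) (by decide +kernel)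
          (CovZ.leaf K2_ok TB_l27881 _)
          (CovZ.n1 (-15840, 16896) (by decide +kernel)
           (CovZ.leaf K2_ok TB_l27882 _)
           (CovZ.leaf K2_ok TB_l27883 _)))
         (CovZ.n1 (-16032, 16800) (by decide +kernel)
          (CovZ.leaf K2_ok TB_l27884 _)
          (CovZ.leaf K2_ok TB_l27885 _)))
        (CovZ.subM 661055968790553909487675906352461857457230004153739594080028506004233740822170870090028079839898539752587705370206821024272 (by decide +kernel)
         (CovZ.n1 (-15744, 16704) (by decide +kernel)
          (CovZ.n2 (-15840, 16608) (by decide +kernel)
           (CovZ.n2 (-15840, 16704) (by decide +kernel)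
            (CovZ.leaf K2_ok TB_l27886 _)
            (CovZ.leaf K2_ok TB_l27887 _))
           (CovZ.n1 (-15744, 16608) (by decide +kernel)
            (CovZ.leaf K2_ok TB_l27888 _)
            (CovZ.leaf K2_ok TB_l27889 _)))
          (CovZ.n1 (-15840, 16800) (by decide +kernel)
           (CovZ.n2 (-15744, 16800) (by decide +kernel)
            (CovZ.leaf K2_ok TB_l27890 _)
            (CovZ.leaf K2_ok TB_l27891 _))
           (CovZ.n1 (-15840, 16704) (by decide +kernel)
            (CovZ.leaf K2_ok TB_l27892 _)
            (CovZ.leaf K2_ok TB_l27893 _))))))))
     (CovZ.n1 (-16512, 16512) (by decide +kernel)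
      (CovZ.n2 (-16512, 16896) (by decide +kernel)
       (CovZ.n2 (-16320, 16704) (by decide +kernel)
        (CovZ.n2 (-16512, 16704) (by decide +kernel)
         (CovZ.leaf K2_ok TB_l27894 _)
         (CovZ.leaf K2_ok TB_l27895 _))
        (CovZ.n1 (-16320, 16896) (by decide +kernel)
         (CovZ.n2 (-16224, 16800) (by decide +kernel)
          (CovZ.leaf K2_ok TB_l27896 _)
          (CovZ.leaf K2_ok TB_l27897 _))
         (CovZ.leaf K2_ok TB_l27898 _)))
       (CovZ.subM 2710218140521003545180016062453378437847885135589550157910325380433044815295119026538698691592929285574532170304 (by decide +kernel)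
        (CovZ.n1 (-16704, 16704) (by decide +kernel)
         (CovZ.n2 (-16704, 16896) (by decide +kernel)
          (CovZ.leaf K2_ok TB_l27899 _)
          (CovZ.leaf K2_ok TB_l27900 _))
         (CovZ.n1 (-16512, 16704) (by decide +kernel)
          (CovZ.leaf K2_ok TB_l27901 _)
          (CovZ.leaf K2_ok TB_l27902 _)))))
      (CovZ.n1 (-16128, 16512) (by decide +kernel)
       (CovZ.n2 (-16320, 16320) (by decide +kernel)
        (CovZ.n2 (-16320, 16512) (by decide +kernel)
         (CovZ.n2 (-16224, 16416) (by decide +kernel)
          (CovZ.leaf K2_ok TB_l27903 _)
          (CovZ.leaf K2_ok TB_l27904 _))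
         (CovZ.leaf K2_ok TB_l27905 _))
        (CovZ.subM 305310535760598319690817628855675390906472873664674258715072282159578001814449033537120501325620811306272686672 (by decide +kernel)
         (CovZ.n1 (-16128, 16320) (by decide +kernel)
          (CovZ.n2 (-16224, 16224) (by decide +kernel)
           (CovZ.leaf K2_ok TB_l27906 _)
           (CovZ.leaf K2_ok TB_l27907 _))
          (CovZ.n1 (-16224, 16416) (by decide +kernel)
           (CovZ.leaf K2_ok TB_l27908 _)
           (CovZ.leaf K2_ok TB_l27909 _)))))
       (CovZ.n1 (-16320, 16704) (by decide +kernel)
        (CovZ.subM 305310535760598319690817628855690212294005678079237124821752350305579652779725453272881949487236880855541613136 (by decide +kernel)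
         (CovZ.n2 (-16128, 16704) (by decide +kernel)
          (CovZ.n2 (-16224, 16608) (by decide +kernel)
           (CovZ.leaf K2_ok TB_l27910 _)
           (CovZ.leaf K2_ok TB_l27911 _))
          (CovZ.n1 (-16224, 16800) (by decide +kernel)
           (CovZ.leaf K2_ok TB_l27912 _)
           (CovZ.leaf K2_ok TB_l27913 _))))
        (CovZ.n1 (-16320, 16512) (by decide +kernel)
         (CovZ.leaf K2_ok TB_l27914 _)
         (CovZ.n1 (-16224, 16608) (by decide +kernel)
          (CovZ.leaf K2_ok TB_l27915 _)
          (CovZ.leaf K2_ok TB_l27916 _)))))))

theorem TB_u383 : CovZ TB_M (toL (selN TB_LN 21662143041287656644952993094196621173948096605418733204202076764465711507337183898636845412613227788693841369552371050617111360)) [0, 7, 6, 1] (-14976, 16128) (-14976, 16320) (-15168, 16320) :=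
    (CovZ.n2 (-15072, 16224) (by decide +kernel)
          (CovZ.subM 661055968790549799538156052144573855128530693664535297770619968450768096311662684268123061641455242380028290515464001422080 (by decide +kernel)
           (CovZ.n2 (-15072, 16320) (by decide +kernel)
            (CovZ.n2 (-15024, 16272) (by decide +kernel)
             (CovZ.n2 (-15072, 16272) (by decide +kernel)
              (CovZ.n2 (-15048, 16296) (by decide +kernel)
               (CovZ.n2 (-15048, 16272) (by decide +kernel)
                (CovZ.leaf K2_ok TB_l33747 _)
                (CovZ.leaf K2_ok TB_l33748 _))
               (CovZ.n1 (-15072, 16296) (by decide +kernel)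
                (CovZ.leaf K2_ok TB_l33749 _)
                (CovZ.leaf K2_ok TB_l33750 _)))
              (CovZ.n1 (-15048, 16248) (by decide +kernel)
               (CovZ.leaf K2_ok TB_l33751 _)
               (CovZ.n1 (-15048, 16272) (by decide +kernel)
                (CovZ.leaf K2_ok TB_l33752 _)
                (CovZ.leaf K2_ok TB_l33753 _))))
             (CovZ.n1 (-15024, 16320) (by decide +kernel)
              (CovZ.subM 661055968790549212402510358686201697607138792775517863587953634841894589478049244181193264282209530419447746372648342389248 (by decide +kernel)
               (CovZ.n2 (-15000, 16296) (by decide +kernel)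
                (CovZ.n2 (-15024, 16296) (by decide +kernel)
                 (CovZ.leaf K2_ok TB_l33754 _)
                 (CovZ.leaf K2_ok TB_l33755 _))
                (CovZ.n1 (-15000, 16320) (by decide +kernel)
                 (CovZ.n2 (-14988, 16308) (by decide +kernel)
                  (CovZ.leaf K2_ok TB_l33756 _)
                  (CovZ.leaf K2_ok TB_l33757 _))
                 (CovZ.leaf K2_ok TB_l33758 _))))
              (CovZ.n1 (-15048, 16296) (by decide +kernel)
               (CovZ.n2 (-15048, 16320) (by decide +kernel)
                (CovZ.leaf K2_ok TB_l33759 _)
                (CovZ.leaf K2_ok TB_l33760 _))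
               (CovZ.n1 (-15024, 16296) (by decide +kernel)
                (CovZ.leaf K2_ok TB_l33761 _)
                (CovZ.leaf K2_ok TB_l33762 _)))))
            (CovZ.n1 (-15120, 16272) (by decide +kernel)
             (CovZ.n2 (-15120, 16320) (by decide +kernel)
              (CovZ.n2 (-15096, 16296) (by decide +kernel)
               (CovZ.leaf K2_ok TB_l33763 _)
               (CovZ.n1 (-15096, 16320) (by decide +kernel)
                (CovZ.leaf K2_ok TB_l33764 _)
                (CovZ.leaf K2_ok TB_l33765 _)))
              (CovZ.n1 (-15144, 16296) (by decide +kernel)
               (CovZ.n2 (-15144, 16320) (by decide +kernel)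
                (CovZ.leaf K2_ok TB_l33766 _)
                (CovZ.leaf K2_ok TB_l33767 _))
               (CovZ.leaf K2_ok TB_l33768 _)))
             (CovZ.n1 (-15072, 16272) (by decide +kernel)
              (CovZ.n2 (-15096, 16248) (by decide +kernel)
               (CovZ.n2 (-15096, 16272) (by decide +kernel)
                (CovZ.leaf K2_ok TB_l33769 _)
                (CovZ.leaf K2_ok TB_l33770 _))
               (CovZ.n1 (-15072, 16248) (by decide +kernel)
                (CovZ.leaf K2_ok TB_l33771 _)
                (CovZ.leaf K2_ok TB_l33772 _)))
              (CovZ.n1 (-15096, 16296) (by decide +kernel)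
               (CovZ.n2 (-15072, 16296) (by decide +kernel)
                (CovZ.leaf K2_ok TB_l33773 _)
                (CovZ.leaf K2_ok TB_l33774 _))
               (CovZ.n1 (-15096, 16272) (by decide +kernel)
                (CovZ.leaf K2_ok TB_l33775 _)
                (CovZ.leaf K2_ok TB_l33776 _)))))))
          (CovZ.subM 661055968790549212402510358686201697607138792775517863587953634841894589478050671428886141587891872114886078895263185895936 (by decide +kernel)
           (CovZ.n1 (-14976, 16224) (by decide +kernel)
            (CovZ.n2 (-15024, 16176) (by decide +kernel)
             (CovZ.n2 (-15024, 16224) (by decide +kernel)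
              (CovZ.n2 (-15000, 16200) (by decide +kernel)
               (CovZ.n2 (-15024, 16200) (by decide +kernel)
                (CovZ.leaf K2_ok TB_l33777 _)
                (CovZ.n1 (-15012, 16188) (by decide +kernel)
                 (CovZ.leaf K2_ok TB_l45937 _)
                 (CovZ.n1 (-15012, 16200) (by decide +kernel)
                  (CovZ.leaf K2_ok TB_l45938 _)
                  (CovZ.leaf K2_ok TB_l45939 _))))
               (CovZ.n1 (-15000, 16224) (by decide +kernel)
                (CovZ.n2 (-14988, 16212) (by decide +kernel)
                 (CovZ.leaf K2_ok TB_l45940 _)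
                 (CovZ.leaf K2_ok TB_l45941 _))
                (CovZ.n1 (-15012, 16212) (by decide +kernel)
                 (CovZ.leaf K2_ok TB_l33778 _)
                 (CovZ.leaf K2_ok TB_l45942 _))))
              (CovZ.n1 (-15048, 16200) (by decide +kernel)
               (CovZ.n2 (-15048, 16224) (by decide +kernel)
                (CovZ.n2 (-15036, 16212) (by decide +kernel)
                 (CovZ.leaf K2_ok TB_l33779 _)
                 (CovZ.leaf K2_ok TB_l33780 _))
                (CovZ.leaf K2_ok TB_l33781 _))
               (CovZ.n1 (-15024, 16200) (by decide +kernel)
                (CovZ.n2 (-15036, 16188) (by decide +kernel)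
                 (CovZ.leaf K2_ok TB_l33782 _)
                 (CovZ.leaf K2_ok TB_l33783 _))
                (CovZ.n1 (-15036, 16212) (by decide +kernel)
                 (CovZ.leaf K2_ok TB_l33784 _)
                 (CovZ.leaf K2_ok TB_l33785 _)))))
             (CovZ.n1 (-14976, 16176) (by decide +kernel)
              (CovZ.n2 (-15000, 16152) (by decide +kernel)
               (CovZ.n2 (-15000, 16176) (by decide +kernel)
                (CovZ.n2 (-14988, 16164) (by decide +kernel)
                 (CovZ.leaf K2_ok TB_l45943 _)
                 (CovZ.n1 (-14988, 16176) (by decide +kernel)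
                  (CovZ.leaf K2_ok TB_l45944 _)
                  (CovZ.leaf K2_ok TB_l45945 _)))
                (CovZ.n1 (-15012, 16164) (by decide +kernel)
                 (CovZ.n2 (-15012, 16176) (by decide +kernel)
                  (CovZ.leaf K2_ok TB_l45946 _)
                  (CovZ.leaf K2_ok TB_l45947 _))
                 (CovZ.leaf K2_ok TB_l45948 _)))
               (CovZ.subM 50216813883095230175746881859753332419033826014956951175168 (by decide +kernel)
                (CovZ.n1 (-14976, 16152) (by decide +kernel)
                 (CovZ.n2 (-14988, 16140) (by decide +kernel)
                  (CovZ.n2 (-14988, 16152) (by decide +kernel)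
                   (CovZ.leaf K2_ok TB_l45949 _)
                   (CovZ.leaf K2_ok TB_l45950 _))
                  (CovZ.n1 (-14976, 16140) (by decide +kernel)
                   (CovZ.leaf K2_ok TB_l45951 _)
                   (CovZ.leaf K2_ok TB_l45952 _)))
                 (CovZ.n1 (-14988, 16164) (by decide +kernel)
                  (CovZ.leaf K2_ok TB_l45953 _)
                  (CovZ.n1 (-14988, 16152) (by decide +kernel)
                   (CovZ.leaf K2_ok TB_l45954 _)
                   (CovZ.leaf K2_ok TB_l45955 _))))))
              (CovZ.subM 300613450595050653169917173763295592194283255188027786734879985838833397473341507256504694442295736174018297856 (by decide +kernel)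
               (CovZ.n1 (-15000, 16200) (by decide +kernel)
                (CovZ.n2 (-14976, 16200) (by decide +kernel)
                 (CovZ.n2 (-14988, 16188) (by decide +kernel)
                  (CovZ.n2 (-14988, 16200) (by decide +kernel)
                   (CovZ.leaf K2_ok TB_l45956 _)
                   (CovZ.leaf K2_ok TB_l45957 _))
                  (CovZ.n1 (-14976, 16188) (by decide +kernel)
                   (CovZ.leaf K2_ok TB_l45958 _)
                   (CovZ.leaf K2_ok TB_l45959 _)))
                 (CovZ.n1 (-14988, 16212) (by decide +kernel)
                  (CovZ.leaf K2_ok TB_l45960 _)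
                  (CovZ.leaf K2_ok TB_l45961 _)))
                (CovZ.n1 (-15000, 16176) (by decide +kernel)
                 (CovZ.n2 (-15012, 16188) (by decide +kernel)
                  (CovZ.leaf K2_ok TB_l45962 _)
                  (CovZ.n1 (-15012, 16176) (by decide +kernel)
                   (CovZ.leaf K2_ok TB_l45963 _)
                   (CovZ.leaf K2_ok TB_l45964 _)))
                 (CovZ.n1 (-14988, 16188) (by decide +kernel)
                  (CovZ.n2 (-14988, 16176) (by decide +kernel)
                   (CovZ.leaf K2_ok TB_l45965 _)
                   (CovZ.leaf K2_ok TB_l45966 _))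
                  (CovZ.leaf K2_ok TB_l45967 _)))))))
            (CovZ.n1 (-15024, 16272) (by decide +kernel)
             (CovZ.n2 (-14976, 16272) (by decide +kernel)
              (CovZ.n2 (-15000, 16248) (by decide +kernel)
               (CovZ.n2 (-15000, 16272) (by decide +kernel)
                (CovZ.n2 (-14988, 16260) (by decide +kernel)
                 (CovZ.leaf K2_ok TB_l33786 _)
                 (CovZ.leaf K2_ok TB_l33787 _))
                (CovZ.n1 (-15012, 16260) (by decide +kernel)
                 (CovZ.leaf K2_ok TB_l33788 _)
                 (CovZ.leaf K2_ok TB_l33789 _)))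
               (CovZ.subM 300613450595050653169917173763295592194283255188027786734879985837227743819047302390314122726809169333663564288 (by decide +kernel)
                (CovZ.n1 (-14976, 16248) (by decide +kernel)
                 (CovZ.n2 (-14988, 16236) (by decide +kernel)
                  (CovZ.leaf K2_ok TB_l45968 _)
                  (CovZ.leaf K2_ok TB_l45969 _))
                 (CovZ.n1 (-14988, 16260) (by decide +kernel)
                  (CovZ.leaf K2_ok TB_l45970 _)
                  (CovZ.leaf K2_ok TB_l45971 _)))))
              (CovZ.n1 (-15000, 16296) (by decide +kernel)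
               (CovZ.n2 (-14976, 16296) (by decide +kernel)
                (CovZ.n2 (-14988, 16284) (by decide +kernel)
                 (CovZ.leaf K2_ok TB_l33790 _)
                 (CovZ.leaf K2_ok TB_l33791 _))
                (CovZ.n1 (-14988, 16308) (by decide +kernel)
                 (CovZ.leaf K2_ok TB_l33792 _)
                 (CovZ.leaf K2_ok TB_l33793 _)))
               (CovZ.n1 (-15000, 16272) (by decide +kernel)
                (CovZ.leaf K2_ok TB_l33794 _)
                (CovZ.leaf K2_ok TB_l33795 _))))
             (CovZ.n1 (-15024, 16224) (by decide +kernel)
              (CovZ.n2 (-15048, 16248) (by decide +kernel)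
               (CovZ.n2 (-15024, 16248) (by decide +kernel)
                (CovZ.n2 (-15036, 16236) (by decide +kernel)
                 (CovZ.leaf K2_ok TB_l33796 _)
                 (CovZ.leaf K2_ok TB_l33797 _))
                (CovZ.leaf K2_ok TB_l33798 _))
               (CovZ.n1 (-15048, 16224) (by decide +kernel)
                (CovZ.leaf K2_ok TB_l33799 _)
                (CovZ.leaf K2_ok TB_l33800 _)))
              (CovZ.n1 (-15000, 16248) (by decide +kernel)
               (CovZ.n2 (-15000, 16224) (by decide +kernel)
                (CovZ.leaf K2_ok TB_l33801 _)
                (CovZ.n1 (-14988, 16236) (by decide +kernel)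
                 (CovZ.n2 (-14988, 16224) (by decide +kernel)
                  (CovZ.leaf K2_ok TB_l45972 _)
                  (CovZ.leaf K2_ok TB_l45973 _))
                 (CovZ.leaf K2_ok TB_l45974 _)))
               (CovZ.n1 (-15024, 16248) (by decide +kernel)
                (CovZ.leaf K2_ok TB_l33802 _)
                (CovZ.n1 (-15012, 16236) (by decide +kernel)
                 (CovZ.leaf K2_ok TB_l33803 _)
                 (CovZ.leaf K2_ok TB_l33804 _)))))))))

theorem TB_u384 : CovZ TB_M (toL (selN TB_LN 21662143041287656644952993094196621173948096605418733204202076764465711507337183898636845412613227788693841369552371050617111360)) [0, 7, 6, 1] (-14976, 16320) (-14976, 16512) (-15168, 16320) :=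
    (CovZ.n1 (-15072, 16416) (by decide +kernel)
          (CovZ.subM 661055968790549212411469337654978099600611265452552230962469323359739011642207657314407559880136891416661859455024098181632 (by decide +kernel)
           (CovZ.n2 (-14976, 16416) (by decide +kernel)
            (CovZ.n2 (-15024, 16368) (by decide +kernel)
             (CovZ.n2 (-15024, 16416) (by decide +kernel)
              (CovZ.n2 (-15000, 16392) (by decide +kernel)
               (CovZ.leaf K2_ok TB_l33805 _)
               (CovZ.n1 (-15000, 16416) (by decide +kernel)
                (CovZ.leaf K2_ok TB_l33806 _)
                (CovZ.leaf K2_ok TB_l33807 _)))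
              (CovZ.n1 (-15048, 16392) (by decide +kernel)
               (CovZ.n2 (-15048, 16416) (by decide +kernel)
                (CovZ.leaf K2_ok TB_l33808 _)
                (CovZ.leaf K2_ok TB_l33809 _))
               (CovZ.n1 (-15024, 16392) (by decide +kernel)
                (CovZ.leaf K2_ok TB_l33810 _)
                (CovZ.leaf K2_ok TB_l33811 _))))
             (CovZ.n1 (-14976, 16368) (by decide +kernel)
              (CovZ.n2 (-15000, 16344) (by decide +kernel)
               (CovZ.n2 (-15000, 16368) (by decide +kernel)
                (CovZ.leaf K2_ok TB_l33812 _)
                (CovZ.leaf K2_ok TB_l33813 _))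
               (CovZ.n1 (-14976, 16344) (by decide +kernel)
                (CovZ.leaf K2_ok TB_l33814 _)
                (CovZ.leaf K2_ok TB_l33815 _)))
              (CovZ.n1 (-15000, 16392) (by decide +kernel)
               (CovZ.n2 (-14976, 16392) (by decide +kernel)
                (CovZ.leaf K2_ok TB_l33816 _)
                (CovZ.leaf K2_ok TB_l33817 _))
               (CovZ.n1 (-15000, 16368) (by decide +kernel)
                (CovZ.leaf K2_ok TB_l33818 _)
                (CovZ.leaf K2_ok TB_l33819 _)))))
            (CovZ.n1 (-15024, 16464) (by decide +kernel)
             (CovZ.n2 (-14976, 16464) (by decide +kernel)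
              (CovZ.n2 (-15000, 16440) (by decide +kernel)
               (CovZ.n2 (-15000, 16464) (by decide +kernel)
                (CovZ.leaf K2_ok TB_l33820 _)
                (CovZ.leaf K2_ok TB_l33821 _))
               (CovZ.n1 (-14976, 16440) (by decide +kernel)
                (CovZ.leaf K2_ok TB_l33822 _)
                (CovZ.leaf K2_ok TB_l33823 _)))
              (CovZ.n1 (-15000, 16488) (by decide +kernel)
               (CovZ.n2 (-14976, 16488) (by decide +kernel)
                (CovZ.leaf K2_ok TB_l33824 _)
                (CovZ.leaf K2_ok TB_l33825 _))
               (CovZ.n1 (-15000, 16464) (by decide +kernel)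
                (CovZ.leaf K2_ok TB_l33826 _)
                (CovZ.leaf K2_ok TB_l33827 _))))
             (CovZ.n1 (-15024, 16416) (by decide +kernel)
              (CovZ.n2 (-15048, 16440) (by decide +kernel)
               (CovZ.leaf K2_ok TB_l33828 _)
               (CovZ.n1 (-15048, 16416) (by decide +kernel)
                (CovZ.leaf K2_ok TB_l33829 _)
                (CovZ.leaf K2_ok TB_l33830 _)))
              (CovZ.n1 (-15000, 16440) (by decide +kernel)
               (CovZ.n2 (-15000, 16416) (by decide +kernel)
                (CovZ.leaf K2_ok TB_l33831 _)
                (CovZ.leaf K2_ok TB_l33832 _))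
               (CovZ.leaf K2_ok TB_l33833 _))))))
          (CovZ.subM 661055968790549799538156052144573855128530693664535297770619968450768096311662684268123061641450290619889595738438114476800 (by decide +kernel)
           (CovZ.n1 (-15072, 16320) (by decide +kernel)
            (CovZ.n2 (-15120, 16368) (by decide +kernel)
             (CovZ.n2 (-15072, 16368) (by decide +kernel)
              (CovZ.n2 (-15096, 16344) (by decide +kernel)
               (CovZ.n2 (-15096, 16368) (by decide +kernel)
                (CovZ.leaf K2_ok TB_l33834 _)
                (CovZ.leaf K2_ok TB_l33835 _))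
               (CovZ.leaf K2_ok TB_l33836 _))
              (CovZ.n1 (-15096, 16392) (by decide +kernel)
               (CovZ.leaf K2_ok TB_l33837 _)
               (CovZ.leaf K2_ok TB_l33838 _)))
             (CovZ.n1 (-15120, 16320) (by decide +kernel)
              (CovZ.n2 (-15144, 16344) (by decide +kernel)
               (CovZ.leaf K2_ok TB_l33839 _)
               (CovZ.leaf K2_ok TB_l33840 _))
              (CovZ.n1 (-15096, 16344) (by decide +kernel)
               (CovZ.n2 (-15096, 16320) (by decide +kernel)
                (CovZ.leaf K2_ok TB_l33841 _)
                (CovZ.leaf K2_ok TB_l33842 _))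
               (CovZ.leaf K2_ok TB_l33843 _))))
            (CovZ.n1 (-15024, 16368) (by decide +kernel)
             (CovZ.n2 (-15024, 16320) (by decide +kernel)
              (CovZ.n2 (-15048, 16344) (by decide +kernel)
               (CovZ.n2 (-15024, 16344) (by decide +kernel)
                (CovZ.leaf K2_ok TB_l33844 _)
                (CovZ.leaf K2_ok TB_l33845 _))
               (CovZ.n1 (-15048, 16320) (by decide +kernel)
                (CovZ.leaf K2_ok TB_l33846 _)
                (CovZ.leaf K2_ok TB_l33847 _)))
              (CovZ.n1 (-15000, 16344) (by decide +kernel)
               (CovZ.n2 (-15000, 16320) (by decide +kernel)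
                (CovZ.leaf K2_ok TB_l33848 _)
                (CovZ.leaf K2_ok TB_l33849 _))
               (CovZ.n1 (-15024, 16344) (by decide +kernel)
                (CovZ.leaf K2_ok TB_l33850 _)
                (CovZ.leaf K2_ok TB_l33851 _))))
             (CovZ.n1 (-15072, 16368) (by decide +kernel)
              (CovZ.n2 (-15048, 16392) (by decide +kernel)
               (CovZ.n2 (-15048, 16368) (by decide +kernel)
                (CovZ.leaf K2_ok TB_l33852 _)
                (CovZ.leaf K2_ok TB_l33853 _))
               (CovZ.leaf K2_ok TB_l33854 _))
              (CovZ.n1 (-15048, 16344) (by decide +kernel)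
               (CovZ.leaf K2_ok TB_l33855 _)
               (CovZ.n1 (-15048, 16368) (by decide +kernel)
                (CovZ.leaf K2_ok TB_l33856 _)
                (CovZ.leaf K2_ok TB_l33857 _))))))))

theorem TB_u385 : CovZ TB_M (toL (selN TB_LN 661055968790549212411469337654978099600611265452552230962469323359739011642208906156138838555606558437695173097527302947328)) [0, 7, 6, 1] (-14976, 16512) (-14976, 16320) (-14784, 16320) :=
    (CovZ.n2 (-14880, 16416) (by decide +kernel)
           (CovZ.subM 300613450595050653169917173763295592194283255188439162874210287348480109961039619952137189520800790768095592960 (by decide +kernel)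
            (CovZ.n2 (-14880, 16320) (by decide +kernel)
             (CovZ.n2 (-14928, 16368) (by decide +kernel)
              (CovZ.subM 300613450595050653169917173763295592194283255188027786734879985836870926451352941680082373299822466699597185536 (by decide +kernel)
               (CovZ.n2 (-14880, 16368) (by decide +kernel)
                (CovZ.n2 (-14904, 16344) (by decide +kernel)
                 (CovZ.n2 (-14904, 16368) (by decide +kernel)
                  (CovZ.badM (by decide +kernel))
                  (CovZ.n1 (-14916, 16356) (by decide +kernel)
                   (CovZ.n2 (-14916, 16368) (by decide +kernel)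
                    (CovZ.leaf K2_ok TB_l45990 _)
                    (CovZ.leaf K2_ok TB_l45991 _))
                   (CovZ.leaf K2_ok TB_l45992 _)))
                 (CovZ.badM (by decide +kernel)))
                (CovZ.n1 (-14904, 16392) (by decide +kernel)
                 (CovZ.subM 63657374260452690195888927762843284346741480748171236683060916728901501816271505006264320 (by decide +kernel)
                  (CovZ.n2 (-14880, 16392) (by decide +kernel)
                   (CovZ.n2 (-14892, 16380) (by decide +kernel)
                    (CovZ.n2 (-14892, 16392) (by decide +kernel)
                     (CovZ.badM (by decide +kernel))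
                     (CovZ.leaf K2_ok TB_l45993 _))
                    (CovZ.badM (by decide +kernel)))
                   (CovZ.n1 (-14892, 16404) (by decide +kernel)
                    (CovZ.badM (by decide +kernel))
                    (CovZ.n1 (-14892, 16392) (by decide +kernel)
                     (CovZ.leaf K2_ok TB_l45994 _)
                     (CovZ.badM (by decide +kernel))))))
                 (CovZ.n1 (-14904, 16368) (by decide +kernel)
                  (CovZ.n2 (-14916, 16380) (by decide +kernel)
                   (CovZ.leaf K2_ok TB_l45995 _)
                   (CovZ.leaf K2_ok TB_l45996 _))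
                  (CovZ.n1 (-14892, 16380) (by decide +kernel)
                   (CovZ.badM (by decide +kernel))
                   (CovZ.leaf K2_ok TB_l45997 _))))))
              (CovZ.n1 (-14928, 16320) (by decide +kernel)
               (CovZ.n2 (-14952, 16344) (by decide +kernel)
                (CovZ.n2 (-14928, 16344) (by decide +kernel)
                 (CovZ.n2 (-14940, 16332) (by decide +kernel)
                  (CovZ.leaf K2_ok TB_l33934 _)
                  (CovZ.leaf K2_ok TB_l45998 _))
                 (CovZ.n1 (-14940, 16356) (by decide +kernel)
                  (CovZ.leaf K2_ok TB_l45999 _)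
                  (CovZ.leaf K2_ok TB_l33935 _)))
                (CovZ.n1 (-14952, 16320) (by decide +kernel)
                 (CovZ.n2 (-14964, 16332) (by decide +kernel)
                  (CovZ.leaf K2_ok TB_l33936 _)
                  (CovZ.leaf K2_ok TB_l33937 _))
                 (CovZ.leaf K2_ok TB_l33938 _)))
               (CovZ.subM 300613450595050653169917173763295592194283255188027786734879985836870926451352941680082373299822466699597185536 (by decide +kernel)
                (CovZ.n1 (-14904, 16344) (by decide +kernel)
                 (CovZ.subM 4611686018427387904 (by decide +kernel)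
                  (CovZ.n2 (-14904, 16320) (by decide +kernel)
                   (CovZ.n2 (-14916, 16332) (by decide +kernel)
                    (CovZ.badM (by decide +kernel))
                    (CovZ.n1 (-14916, 16320) (by decide +kernel)
                     (CovZ.leaf K2_ok TB_l46000 _)
                     (CovZ.badM (by decide +kernel))))
                   (CovZ.badM (by decide +kernel))))
                 (CovZ.n1 (-14928, 16344) (by decide +kernel)
                  (CovZ.n2 (-14916, 16356) (by decide +kernel)
                   (CovZ.leaf K2_ok TB_l46001 _)
                   (CovZ.leaf K2_ok TB_l46002 _))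
                  (CovZ.n1 (-14916, 16332) (by decide +kernel)
                   (CovZ.leaf K2_ok TB_l46003 _)
                   (CovZ.n1 (-14916, 16344) (by decide +kernel)
                    (CovZ.leaf K2_ok TB_l46004 _)
                    (CovZ.leaf K2_ok TB_l46005 _))))))))
             (CovZ.badM (by decide +kernel))))
           (CovZ.n1 (-14976, 16416) (by decide +kernel)
            (CovZ.n2 (-14928, 16464) (by decide +kernel)
             (CovZ.n2 (-14928, 16416) (by decide +kernel)
              (CovZ.n2 (-14952, 16440) (by decide +kernel)
               (CovZ.n2 (-14928, 16440) (by decide +kernel)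
                (CovZ.leaf K2_ok TB_l33939 _)
                (CovZ.n1 (-14940, 16452) (by decide +kernel)
                 (CovZ.leaf K2_ok TB_l33940 _)
                 (CovZ.leaf K2_ok TB_l33941 _)))
               (CovZ.n1 (-14952, 16416) (by decide +kernel)
                (CovZ.leaf K2_ok TB_l33942 _)
                (CovZ.n1 (-14940, 16428) (by decide +kernel)
                 (CovZ.leaf K2_ok TB_l33943 _)
                 (CovZ.leaf K2_ok TB_l33944 _))))
              (CovZ.subM 661055968790549212411469337654912914449368561897791640700440216830833187617648665361719149161200146635790724937956015997440 (by decide +kernel)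
               (CovZ.n1 (-14904, 16440) (by decide +kernel)
                (CovZ.n2 (-14904, 16416) (by decide +kernel)
                 (CovZ.n2 (-14916, 16428) (by decide +kernel)
                  (CovZ.leaf K2_ok TB_l46006 _)
                  (CovZ.leaf K2_ok TB_l46007 _))
                 (CovZ.n1 (-14892, 16428) (by decide +kernel)
                  (CovZ.n2 (-14892, 16416) (by decide +kernel)
                   (CovZ.leaf K2_ok TB_l46008 _)
                   (CovZ.leaf K2_ok TB_l46009 _))
                  (CovZ.leaf K2_ok TB_l46010 _)))
                (CovZ.n1 (-14928, 16440) (by decide +kernel)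
                 (CovZ.n2 (-14916, 16452) (by decide +kernel)
                  (CovZ.leaf K2_ok TB_l33945 _)
                  (CovZ.leaf K2_ok TB_l33946 _))
                 (CovZ.n1 (-14916, 16428) (by decide +kernel)
                  (CovZ.leaf K2_ok TB_l33947 _)
                  (CovZ.leaf K2_ok TB_l33948 _))))))
             (CovZ.n1 (-14976, 16464) (by decide +kernel)
              (CovZ.n2 (-14952, 16488) (by decide +kernel)
               (CovZ.n2 (-14952, 16464) (by decide +kernel)
                (CovZ.leaf K2_ok TB_l33949 _)
                (CovZ.leaf K2_ok TB_l33950 _))
               (CovZ.leaf K2_ok TB_l33951 _))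
              (CovZ.n1 (-14952, 16440) (by decide +kernel)
               (CovZ.n2 (-14976, 16440) (by decide +kernel)
                (CovZ.leaf K2_ok TB_l33952 _)
                (CovZ.leaf K2_ok TB_l33953 _))
               (CovZ.n1 (-14952, 16464) (by decide +kernel)
                (CovZ.n2 (-14940, 16452) (by decide +kernel)
                 (CovZ.leaf K2_ok TB_l33954 _)
                 (CovZ.leaf K2_ok TB_l33955 _))
                (CovZ.leaf K2_ok TB_l33956 _)))))
            (CovZ.n1 (-14928, 16368) (by decide +kernel)
             (CovZ.n2 (-14976, 16368) (by decide +kernel)
              (CovZ.n2 (-14952, 16392) (by decide +kernel)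
               (CovZ.n2 (-14952, 16368) (by decide +kernel)
                (CovZ.leaf K2_ok TB_l33957 _)
                (CovZ.n1 (-14940, 16380) (by decide +kernel)
                 (CovZ.leaf K2_ok TB_l33958 _)
                 (CovZ.leaf K2_ok TB_l33959 _)))
               (CovZ.n1 (-14976, 16392) (by decide +kernel)
                (CovZ.leaf K2_ok TB_l33960 _)
                (CovZ.n1 (-14964, 16380) (by decide +kernel)
                 (CovZ.leaf K2_ok TB_l33961 _)
                 (CovZ.leaf K2_ok TB_l33962 _))))
              (CovZ.n1 (-14952, 16344) (by decide +kernel)
               (CovZ.n2 (-14976, 16344) (by decide +kernel)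
                (CovZ.n2 (-14964, 16356) (by decide +kernel)
                 (CovZ.leaf K2_ok TB_l33963 _)
                 (CovZ.leaf K2_ok TB_l33964 _))
                (CovZ.n1 (-14964, 16332) (by decide +kernel)
                 (CovZ.leaf K2_ok TB_l33965 _)
                 (CovZ.leaf K2_ok TB_l33966 _)))
               (CovZ.n1 (-14952, 16368) (by decide +kernel)
                (CovZ.n2 (-14940, 16356) (by decide +kernel)
                 (CovZ.leaf K2_ok TB_l33967 _)
                 (CovZ.leaf K2_ok TB_l33968 _))
                (CovZ.leaf K2_ok TB_l33969 _))))
             (CovZ.n1 (-14928, 16416) (by decide +kernel)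
              (CovZ.subM 300613450595050653169917173763295592194283255188439162874210287348123292593345259246857200250955609233625711104 (by decide +kernel)
               (CovZ.n2 (-14904, 16392) (by decide +kernel)
                (CovZ.n2 (-14928, 16392) (by decide +kernel)
                 (CovZ.n2 (-14916, 16404) (by decide +kernel)
                  (CovZ.leaf K2_ok TB_l46011 _)
                  (CovZ.leaf K2_ok TB_l46012 _))
                 (CovZ.n1 (-14916, 16380) (by decide +kernel)
                  (CovZ.leaf K2_ok TB_l33970 _)
                  (CovZ.n1 (-14916, 16392) (by decide +kernel)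
                   (CovZ.leaf K2_ok TB_l46013 _)
                   (CovZ.leaf K2_ok TB_l46014 _))))
                (CovZ.n1 (-14904, 16416) (by decide +kernel)
                 (CovZ.n2 (-14892, 16404) (by decide +kernel)
                  (CovZ.leaf K2_ok TB_l46015 _)
                  (CovZ.n1 (-14892, 16416) (by decide +kernel)
                   (CovZ.leaf K2_ok TB_l46016 _)
                   (CovZ.leaf K2_ok TB_l46017 _)))
                 (CovZ.n1 (-14916, 16404) (by decide +kernel)
                  (CovZ.n2 (-14916, 16416) (by decide +kernel)
                   (CovZ.leaf K2_ok TB_l46018 _)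
                   (CovZ.leaf K2_ok TB_l46019 _))
                  (CovZ.leaf K2_ok TB_l46020 _)))))
              (CovZ.n1 (-14952, 16392) (by decide +kernel)
               (CovZ.n2 (-14952, 16416) (by decide +kernel)
                (CovZ.n2 (-14940, 16404) (by decide +kernel)
                 (CovZ.leaf K2_ok TB_l33971 _)
                 (CovZ.leaf K2_ok TB_l33972 _))
                (CovZ.leaf K2_ok TB_l33973 _))
               (CovZ.subM 661055968790549212402510358686201697607138792775517863587953634841894589478048708957863981676479502854211874732648458879488 (by decide +kernel)
                (CovZ.n1 (-14928, 16392) (by decide +kernel)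
                 (CovZ.n2 (-14940, 16380) (by decide +kernel)
                  (CovZ.leaf K2_ok TB_l33974 _)
                  (CovZ.leaf K2_ok TB_l33975 _))
                 (CovZ.n1 (-14940, 16404) (by decide +kernel)
                  (CovZ.leaf K2_ok TB_l46021 _)
                  (CovZ.leaf K2_ok TB_l33976 _)))))))))

theorem TB_u386 : CovZ TB_M (toL (selN TB_LN 661055968790549212411469337654978099600611265452552230962469323359739011642208906156138838555606558437695173097527302947328)) [0, 7, 6, 1] (-14976, 16320) (-14976, 16128) (-14784, 16320) :=
    (CovZ.n1 (-14880, 16224) (by decide +kernel)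
           (CovZ.n2 (-14976, 16224) (by decide +kernel)
            (CovZ.subM 300613450595050653169917173763295592194283255188439162874210287348480109961039619957088949677942311867692089856 (by decide +kernel)
             (CovZ.n2 (-14928, 16272) (by decide +kernel)
              (CovZ.n2 (-14928, 16224) (by decide +kernel)
               (CovZ.n2 (-14952, 16248) (by decide +kernel)
                (CovZ.badM (by decide +kernel))
                (CovZ.n1 (-14952, 16224) (by decide +kernel)
                 (CovZ.n2 (-14964, 16236) (by decide +kernel)
                  (CovZ.leaf K2_ok TB_l46022 _)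
                  (CovZ.n1 (-14964, 16224) (by decide +kernel)
                   (CovZ.leaf K2_ok TB_l46023 _)
                   (CovZ.leaf K2_ok TB_l46024 _)))
                 (CovZ.badM (by decide +kernel))))
               (CovZ.badM (by decide +kernel)))
              (CovZ.n1 (-14976, 16272) (by decide +kernel)
               (CovZ.n2 (-14952, 16296) (by decide +kernel)
                (CovZ.n2 (-14952, 16272) (by decide +kernel)
                 (CovZ.n2 (-14964, 16284) (by decide +kernel)
                  (CovZ.leaf K2_ok TB_l46025 _)
                  (CovZ.leaf K2_ok TB_l46026 _))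
                 (CovZ.n1 (-14940, 16284) (by decide +kernel)
                  (CovZ.n2 (-14940, 16272) (by decide +kernel)
                   (CovZ.leaf K2_ok TB_l46027 _)
                   (CovZ.badM (by decide +kernel)))
                  (CovZ.leaf K2_ok TB_l46028 _)))
                (CovZ.n1 (-14976, 16296) (by decide +kernel)
                 (CovZ.n2 (-14964, 16308) (by decide +kernel)
                  (CovZ.leaf K2_ok TB_l33977 _)
                  (CovZ.leaf K2_ok TB_l33978 _))
                 (CovZ.n1 (-14964, 16284) (by decide +kernel)
                  (CovZ.leaf K2_ok TB_l33979 _)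
                  (CovZ.leaf K2_ok TB_l33980 _))))
               (CovZ.n1 (-14952, 16248) (by decide +kernel)
                (CovZ.n2 (-14976, 16248) (by decide +kernel)
                 (CovZ.n2 (-14964, 16260) (by decide +kernel)
                  (CovZ.leaf K2_ok TB_l46029 _)
                  (CovZ.leaf K2_ok TB_l46030 _))
                 (CovZ.n1 (-14964, 16236) (by decide +kernel)
                  (CovZ.leaf K2_ok TB_l46031 _)
                  (CovZ.n1 (-14964, 16248) (by decide +kernel)
                   (CovZ.leaf K2_ok TB_l46032 _)
                   (CovZ.leaf K2_ok TB_l46033 _))))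
                (CovZ.n1 (-14952, 16272) (by decide +kernel)
                 (CovZ.n2 (-14940, 16260) (by decide +kernel)
                  (CovZ.leaf K2_ok TB_l46034 _)
                  (CovZ.n1 (-14940, 16272) (by decide +kernel)
                   (CovZ.badM (by decide +kernel))
                   (CovZ.leaf K2_ok TB_l46035 _)))
                 (CovZ.n1 (-14964, 16260) (by decide +kernel)
                  (CovZ.n2 (-14964, 16272) (by decide +kernel)
                   (CovZ.leaf K2_ok TB_l46036 _)
                   (CovZ.leaf K2_ok TB_l46037 _))
                  (CovZ.n1 (-14952, 16260) (by decide +kernel)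
                   (CovZ.leaf K2_ok TB_l46038 _)
                   (CovZ.leaf K2_ok TB_l46039 _))))))))
            (CovZ.subM 63657374260452690195888927762843284346741482532236254714239142374743454055305247446794240 (by decide +kernel)
             (CovZ.n1 (-14928, 16176) (by decide +kernel)
              (CovZ.n2 (-14976, 16176) (by decide +kernel)
               (CovZ.n2 (-14952, 16200) (by decide +kernel)
                (CovZ.subM 356817367694360705279989267539334127209676800 (by decide +kernel)
                 (CovZ.n2 (-14952, 16176) (by decide +kernel)
                  (CovZ.n2 (-14964, 16188) (by decide +kernel)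
                   (CovZ.badM (by decide +kernel))
                   (CovZ.n1 (-14964, 16176) (by decide +kernel)
                    (CovZ.leaf K2_ok TB_l46040 _)
                    (CovZ.badM (by decide +kernel))))
                  (CovZ.badM (by decide +kernel))))
                (CovZ.n1 (-14976, 16200) (by decide +kernel)
                 (CovZ.n2 (-14964, 16212) (by decide +kernel)
                  (CovZ.n2 (-14964, 16200) (by decide +kernel)
                   (CovZ.leaf K2_ok TB_l46041 _)
                   (CovZ.badM (by decide +kernel)))
                  (CovZ.leaf K2_ok TB_l46042 _))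
                 (CovZ.subM 356817367694360710231749426986702634066378752 (by decide +kernel)
                  (CovZ.n1 (-14964, 16188) (by decide +kernel)
                   (CovZ.n2 (-14976, 16188) (by decide +kernel)
                    (CovZ.leaf K2_ok TB_l46043 _)
                    (CovZ.leaf K2_ok TB_l46044 _))
                   (CovZ.n1 (-14964, 16200) (by decide +kernel)
                    (CovZ.badM (by decide +kernel))
                    (CovZ.leaf K2_ok TB_l46045 _))))))
               (CovZ.subM 1784065060566474085811389721101805146127466496 (by decide +kernel)
                (CovZ.n1 (-14952, 16152) (by decide +kernel)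
                 (CovZ.n2 (-14976, 16152) (by decide +kernel)
                  (CovZ.n2 (-14964, 16164) (by decide +kernel)
                   (CovZ.badM (by decide +kernel))
                   (CovZ.leaf K2_ok TB_l46046 _))
                  (CovZ.n1 (-14964, 16140) (by decide +kernel)
                   (CovZ.n2 (-14976, 16140) (by decide +kernel)
                    (CovZ.leaf K2_ok TB_l46047 _)
                    (CovZ.leaf K2_ok TB_l46048 _))
                   (CovZ.badM (by decide +kernel))))
                 (CovZ.n1 (-14952, 16176) (by decide +kernel)
                  (CovZ.badM (by decide +kernel))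
                  (CovZ.n1 (-14964, 16164) (by decide +kernel)
                   (CovZ.n2 (-14964, 16176) (by decide +kernel)
                    (CovZ.badM (by decide +kernel))
                    (CovZ.leaf K2_ok TB_l46049 _))
                   (CovZ.badM (by decide +kernel)))))))
              (CovZ.n1 (-14928, 16224) (by decide +kernel)
               (CovZ.badM (by decide +kernel))
               (CovZ.n1 (-14952, 16200) (by decide +kernel)
                (CovZ.n2 (-14952, 16224) (by decide +kernel)
                 (CovZ.badM (by decide +kernel))
                 (CovZ.n1 (-14964, 16212) (by decide +kernel)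
                  (CovZ.n2 (-14964, 16224) (by decide +kernel)
                   (CovZ.leaf K2_ok TB_l46050 _)
                   (CovZ.leaf K2_ok TB_l46051 _))
                  (CovZ.badM (by decide +kernel))))
                (CovZ.badM (by decide +kernel)))))))
           (CovZ.subM 300613450595050653169917173763295592194283255188439162874210287348480109961039619952137189520800790768095592960 (by decide +kernel)
            (CovZ.n1 (-14880, 16320) (by decide +kernel)
             (CovZ.badM (by decide +kernel))
             (CovZ.n1 (-14928, 16272) (by decide +kernel)
              (CovZ.n2 (-14928, 16320) (by decide +kernel)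
               (CovZ.subM 4611686018427387904 (by decide +kernel)
                (CovZ.n2 (-14904, 16296) (by decide +kernel)
                 (CovZ.n2 (-14928, 16296) (by decide +kernel)
                  (CovZ.n2 (-14916, 16308) (by decide +kernel)
                   (CovZ.badM (by decide +kernel))
                   (CovZ.leaf K2_ok TB_l46052 _))
                  (CovZ.badM (by decide +kernel)))
                 (CovZ.n1 (-14904, 16320) (by decide +kernel)
                  (CovZ.badM (by decide +kernel))
                  (CovZ.n1 (-14916, 16308) (by decide +kernel)
                   (CovZ.n2 (-14916, 16320) (by decide +kernel)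
                    (CovZ.badM (by decide +kernel))
                    (CovZ.leaf K2_ok TB_l46053 _))
                   (CovZ.badM (by decide +kernel))))))
               (CovZ.n1 (-14952, 16296) (by decide +kernel)
                (CovZ.n2 (-14952, 16320) (by decide +kernel)
                 (CovZ.n2 (-14940, 16308) (by decide +kernel)
                  (CovZ.leaf K2_ok TB_l46054 _)
                  (CovZ.leaf K2_ok TB_l46055 _))
                 (CovZ.n1 (-14964, 16308) (by decide +kernel)
                  (CovZ.leaf K2_ok TB_l33981 _)
                  (CovZ.leaf K2_ok TB_l46056 _)))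
                (CovZ.subM 300613450595050653169917173763295592194283255188027786734879985836870926451352941680082373299678351511521329152 (by decide +kernel)
                 (CovZ.n1 (-14928, 16296) (by decide +kernel)
                  (CovZ.n2 (-14940, 16284) (by decide +kernel)
                   (CovZ.n2 (-14940, 16296) (by decide +kernel)
                    (CovZ.leaf K2_ok TB_l46057 _)
                    (CovZ.leaf K2_ok TB_l46058 _))
                   (CovZ.badM (by decide +kernel)))
                  (CovZ.n1 (-14940, 16308) (by decide +kernel)
                   (CovZ.leaf K2_ok TB_l46059 _)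
                   (CovZ.n1 (-14940, 16296) (by decide +kernel)
                    (CovZ.leaf K2_ok TB_l46060 _)
                    (CovZ.leaf K2_ok TB_l46061 _)))))))
              (CovZ.badM (by decide +kernel))))))

theorem TB_u387 : CovZ TB_M (toL (selN TB_LN 21662143041287656644952993094196621173948096605418733204202076764465711507337183898636845412613227788693841369552371050617111360)) [0, 7, 6, 1] (-15360, 16896) (-15360, 16512) (-14976, 16512) :=
    (CovZ.n2 (-15168, 16704) (by decide +kernel)
        (CovZ.n2 (-15168, 16512) (by decide +kernel)
         (CovZ.n2 (-15264, 16608) (by decide +kernel)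
          (CovZ.n2 (-15168, 16608) (by decide +kernel)
           (CovZ.n2 (-15216, 16560) (by decide +kernel)
            (CovZ.n2 (-15216, 16608) (by decide +kernel)
             (CovZ.leaf K2_ok TB_l33982 _)
             (CovZ.leaf K2_ok TB_l33983 _))
            (CovZ.n1 (-15168, 16560) (by decide +kernel)
             (CovZ.leaf K2_ok TB_l33984 _)
             (CovZ.leaf K2_ok TB_l33985 _)))
           (CovZ.n1 (-15216, 16656) (by decide +kernel)
            (CovZ.n2 (-15168, 16656) (by decide +kernel)
             (CovZ.leaf K2_ok TB_l33986 _)
             (CovZ.leaf K2_ok TB_l33987 _))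
            (CovZ.n1 (-15216, 16608) (by decide +kernel)
             (CovZ.leaf K2_ok TB_l33988 _)
             (CovZ.leaf K2_ok TB_l33989 _))))
          (CovZ.n1 (-15264, 16512) (by decide +kernel)
           (CovZ.n2 (-15312, 16560) (by decide +kernel)
            (CovZ.n2 (-15264, 16560) (by decide +kernel)
             (CovZ.leaf K2_ok TB_l33990 _)
             (CovZ.leaf K2_ok TB_l33991 _))
            (CovZ.n1 (-15312, 16512) (by decide +kernel)
             (CovZ.leaf K2_ok TB_l33992 _)
             (CovZ.leaf K2_ok TB_l33993 _)))
           (CovZ.n1 (-15216, 16560) (by decide +kernel)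
            (CovZ.n2 (-15216, 16512) (by decide +kernel)
             (CovZ.leaf K2_ok TB_l33994 _)
             (CovZ.leaf K2_ok TB_l33995 _))
            (CovZ.n1 (-15264, 16560) (by decide +kernel)
             (CovZ.leaf K2_ok TB_l33996 _)
             (CovZ.leaf K2_ok TB_l33997 _)))))
         (CovZ.n1 (-15072, 16608) (by decide +kernel)
          (CovZ.n2 (-15072, 16512) (by decide +kernel)
           (CovZ.n2 (-15120, 16560) (by decide +kernel)
            (CovZ.n2 (-15072, 16560) (by decide +kernel)
             (CovZ.n2 (-15096, 16536) (by decide +kernel)
              (CovZ.leaf K2_ok TB_l33998 _)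
              (CovZ.leaf K2_ok TB_l33999 _))
             (CovZ.n1 (-15096, 16584) (by decide +kernel)
              (CovZ.leaf K2_ok TB_l34000 _)
              (CovZ.leaf K2_ok TB_l34001 _)))
            (CovZ.n1 (-15120, 16512) (by decide +kernel)
             (CovZ.leaf K2_ok TB_l34002 _)
             (CovZ.leaf K2_ok TB_l34003 _)))
           (CovZ.subM 661055968790549212411469337654978099600611265452552230962469323359739020621673717076836218791260257479367454022846159782400 (by decide +kernel)
            (CovZ.n1 (-15024, 16560) (by decide +kernel)
             (CovZ.n2 (-15024, 16512) (by decide +kernel)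
              (CovZ.n2 (-15048, 16536) (by decide +kernel)
               (CovZ.leaf K2_ok TB_l34004 _)
               (CovZ.leaf K2_ok TB_l34005 _))
              (CovZ.n1 (-15000, 16536) (by decide +kernel)
               (CovZ.n2 (-15000, 16512) (by decide +kernel)
                (CovZ.leaf K2_ok TB_l34006 _)
                (CovZ.leaf K2_ok TB_l34007 _))
               (CovZ.leaf K2_ok TB_l34008 _)))
             (CovZ.n1 (-15072, 16560) (by decide +kernel)
              (CovZ.n2 (-15048, 16584) (by decide +kernel)
               (CovZ.leaf K2_ok TB_l34009 _)
               (CovZ.leaf K2_ok TB_l34010 _))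
              (CovZ.n1 (-15048, 16536) (by decide +kernel)
               (CovZ.leaf K2_ok TB_l34011 _)
               (CovZ.leaf K2_ok TB_l34012 _))))))
          (CovZ.n1 (-15168, 16608) (by decide +kernel)
           (CovZ.n2 (-15120, 16656) (by decide +kernel)
            (CovZ.n2 (-15120, 16608) (by decide +kernel)
             (CovZ.leaf K2_ok TB_l34013 _)
             (CovZ.leaf K2_ok TB_l34014 _))
            (CovZ.n1 (-15168, 16656) (by decide +kernel)
             (CovZ.leaf K2_ok TB_l34015 _)
             (CovZ.leaf K2_ok TB_l34016 _)))
           (CovZ.n1 (-15120, 16560) (by decide +kernel)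
            (CovZ.n2 (-15168, 16560) (by decide +kernel)
             (CovZ.leaf K2_ok TB_l34017 _)
             (CovZ.n1 (-15144, 16536) (by decide +kernel)
              (CovZ.leaf K2_ok TB_l34018 _)
              (CovZ.leaf K2_ok TB_l34019 _)))
            (CovZ.n1 (-15120, 16608) (by decide +kernel)
             (CovZ.n2 (-15096, 16584) (by decide +kernel)
              (CovZ.leaf K2_ok TB_l34020 _)
              (CovZ.leaf K2_ok TB_l34021 _))
             (CovZ.leaf K2_ok TB_l34022 _))))))
        (CovZ.n1 (-15360, 16704) (by decide +kernel)
         (CovZ.n2 (-15264, 16800) (by decide +kernel)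
          (CovZ.n2 (-15264, 16704) (by decide +kernel)
           (CovZ.n2 (-15312, 16752) (by decide +kernel)
            (CovZ.leaf K2_ok TB_l34023 _)
            (CovZ.n1 (-15312, 16704) (by decide +kernel)
             (CovZ.leaf K2_ok TB_l34024 _)
             (CovZ.leaf K2_ok TB_l34025 _)))
           (CovZ.n1 (-15216, 16752) (by decide +kernel)
            (CovZ.n2 (-15216, 16704) (by decide +kernel)
             (CovZ.leaf K2_ok TB_l34026 _)
             (CovZ.leaf K2_ok TB_l34027 _))
            (CovZ.leaf K2_ok TB_l34028 _)))
          (CovZ.n1 (-15360, 16800) (by decide +kernel)
           (CovZ.n2 (-15312, 16848) (by decide +kernel)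
            (CovZ.leaf K2_ok TB_l34029 _)
            (CovZ.leaf K2_ok TB_l34030 _))
           (CovZ.n1 (-15312, 16752) (by decide +kernel)
            (CovZ.leaf K2_ok TB_l34031 _)
            (CovZ.n1 (-15312, 16800) (by decide +kernel)
             (CovZ.leaf K2_ok TB_l34032 _)
             (CovZ.leaf K2_ok TB_l34033 _)))))
         (CovZ.n1 (-15264, 16608) (by decide +kernel)
          (CovZ.n2 (-15360, 16608) (by decide +kernel)
           (CovZ.n2 (-15312, 16656) (by decide +kernel)
            (CovZ.leaf K2_ok TB_l34034 _)
            (CovZ.leaf K2_ok TB_l34035 _))
           (CovZ.n1 (-15312, 16560) (by decide +kernel)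
            (CovZ.leaf K2_ok TB_l34036 _)
            (CovZ.n1 (-15312, 16608) (by decide +kernel)
             (CovZ.leaf K2_ok TB_l34037 _)
             (CovZ.leaf K2_ok TB_l34038 _))))
          (CovZ.n1 (-15264, 16704) (by decide +kernel)
           (CovZ.n2 (-15216, 16656) (by decide +kernel)
            (CovZ.leaf K2_ok TB_l34039 _)
            (CovZ.n1 (-15216, 16704) (by decide +kernel)
             (CovZ.leaf K2_ok TB_l34040 _)
             (CovZ.leaf K2_ok TB_l34041 _)))
           (CovZ.n1 (-15312, 16656) (by decide +kernel)
            (CovZ.n2 (-15312, 16704) (by decide +kernel)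
             (CovZ.leaf K2_ok TB_l34042 _)
             (CovZ.leaf K2_ok TB_l34043 _))
            (CovZ.leaf K2_ok TB_l34044 _))))))

theorem TB_u388 : CovZ TB_M (toL (selN TB_LN 21662143041287656644952993094196621173948096605418733204202076764465711507337183898636845412613227788693841369552371050617111360)) [0, 7, 6, 1] (-15360, 16512) (-15360, 16128) (-14976, 16512) :=
    (CovZ.n1 (-15168, 16320) (by decide +kernel)
        (CovZ.n2 (-15360, 16320) (by decide +kernel)
         (CovZ.n2 (-15264, 16416) (by decide +kernel)
          (CovZ.n2 (-15264, 16320) (by decide +kernel)
           (CovZ.n2 (-15312, 16368) (by decide +kernel)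
            (CovZ.n2 (-15264, 16368) (by decide +kernel)
             (CovZ.leaf K2_ok TB_l34045 _)
             (CovZ.leaf K2_ok TB_l34046 _))
            (CovZ.n1 (-15312, 16320) (by decide +kernel)
             (CovZ.leaf K2_ok TB_l34047 _)
             (CovZ.leaf K2_ok TB_l34048 _)))
           (CovZ.n1 (-15216, 16368) (by decide +kernel)
            (CovZ.n2 (-15216, 16320) (by decide +kernel)
             (CovZ.leaf K2_ok TB_l34049 _)
             (CovZ.leaf K2_ok TB_l34050 _))
            (CovZ.n1 (-15264, 16368) (by decide +kernel)
             (CovZ.leaf K2_ok TB_l34051 _)
             (CovZ.leaf K2_ok TB_l34052 _))))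
          (CovZ.n1 (-15360, 16416) (by decide +kernel)
           (CovZ.n2 (-15312, 16464) (by decide +kernel)
            (CovZ.n2 (-15312, 16416) (by decide +kernel)
             (CovZ.leaf K2_ok TB_l34053 _)
             (CovZ.leaf K2_ok TB_l34054 _))
            (CovZ.leaf K2_ok TB_l34055 _))
           (CovZ.n1 (-15312, 16368) (by decide +kernel)
            (CovZ.n2 (-15360, 16368) (by decide +kernel)
             (CovZ.leaf K2_ok TB_l34056 _)
             (CovZ.leaf K2_ok TB_l34057 _))
            (CovZ.n1 (-15312, 16416) (by decide +kernel)
             (CovZ.leaf K2_ok TB_l34058 _)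
             (CovZ.leaf K2_ok TB_l34059 _)))))
         (CovZ.n1 (-15264, 16224) (by decide +kernel)
          (CovZ.n2 (-15360, 16224) (by decide +kernel)
           (CovZ.n2 (-15312, 16272) (by decide +kernel)
            (CovZ.n2 (-15312, 16224) (by decide +kernel)
             (CovZ.leaf K2_ok TB_l34060 _)
             (CovZ.leaf K2_ok TB_l34061 _))
            (CovZ.leaf K2_ok TB_l34062 _))
           (CovZ.n1 (-15312, 16176) (by decide +kernel)
            (CovZ.n2 (-15360, 16176) (by decide +kernel)
             (CovZ.leaf K2_ok TB_l34063 _)
             (CovZ.leaf K2_ok TB_l34064 _))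
            (CovZ.n1 (-15312, 16224) (by decide +kernel)
             (CovZ.leaf K2_ok TB_l34065 _)
             (CovZ.leaf K2_ok TB_l34066 _))))
          (CovZ.n1 (-15264, 16320) (by decide +kernel)
           (CovZ.n2 (-15216, 16272) (by decide +kernel)
            (CovZ.n2 (-15264, 16272) (by decide +kernel)
             (CovZ.leaf K2_ok TB_l34067 _)
             (CovZ.leaf K2_ok TB_l34068 _))
            (CovZ.n1 (-15216, 16320) (by decide +kernel)
             (CovZ.n2 (-15192, 16296) (by decide +kernel)
              (CovZ.leaf K2_ok TB_l34069 _)
              (CovZ.leaf K2_ok TB_l34070 _))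
             (CovZ.leaf K2_ok TB_l34071 _)))
           (CovZ.n1 (-15312, 16272) (by decide +kernel)
            (CovZ.n2 (-15312, 16320) (by decide +kernel)
             (CovZ.leaf K2_ok TB_l34072 _)
             (CovZ.leaf K2_ok TB_l34073 _))
            (CovZ.n1 (-15264, 16272) (by decide +kernel)
             (CovZ.leaf K2_ok TB_l34074 _)
             (CovZ.leaf K2_ok TB_l34075 _))))))
        (CovZ.n1 (-15168, 16512) (by decide +kernel)
         (CovZ.n2 (-15072, 16416) (by decide +kernel)
          (CovZ.n2 (-15168, 16416) (by decide +kernel)
           (CovZ.n2 (-15120, 16464) (by decide +kernel)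
            (CovZ.n2 (-15120, 16416) (by decide +kernel)
             (CovZ.leaf K2_ok TB_l34076 _)
             (CovZ.n1 (-15096, 16440) (by decide +kernel)
              (CovZ.leaf K2_ok TB_l34077 _)
              (CovZ.leaf K2_ok TB_l34078 _)))
            (CovZ.n1 (-15168, 16464) (by decide +kernel)
             (CovZ.leaf K2_ok TB_l34079 _)
             (CovZ.n1 (-15144, 16440) (by decide +kernel)
              (CovZ.leaf K2_ok TB_l34080 _)
              (CovZ.leaf K2_ok TB_l34081 _))))
           (CovZ.n1 (-15120, 16368) (by decide +kernel)
            (CovZ.subM 661055968790549799538156052144573855128530693664535297770619968450768090325352022362235105740403498885430892524461430407936 (by decide +kernel)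
             (CovZ.n2 (-15168, 16368) (by decide +kernel)
              (CovZ.n2 (-15144, 16392) (by decide +kernel)
               (CovZ.leaf K2_ok TB_l34082 _)
               (CovZ.leaf K2_ok TB_l34083 _))
              (CovZ.n1 (-15144, 16344) (by decide +kernel)
               (CovZ.leaf K2_ok TB_l34084 _)
               (CovZ.leaf K2_ok TB_l34085 _))))
            (CovZ.n1 (-15120, 16416) (by decide +kernel)
             (CovZ.n2 (-15096, 16392) (by decide +kernel)
              (CovZ.leaf K2_ok TB_l34086 _)
              (CovZ.n1 (-15096, 16416) (by decide +kernel)
               (CovZ.leaf K2_ok TB_l34087 _)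
               (CovZ.leaf K2_ok TB_l34088 _)))
             (CovZ.n1 (-15144, 16392) (by decide +kernel)
              (CovZ.leaf K2_ok TB_l34089 _)
              (CovZ.leaf K2_ok TB_l34090 _)))))
          (CovZ.n1 (-15072, 16512) (by decide +kernel)
           (CovZ.subM 661055968790549212411469337654978099600611265452552230962469323359739017628518363823147042310113720076419829767496311767552 (by decide +kernel)
            (CovZ.n2 (-15024, 16464) (by decide +kernel)
             (CovZ.n2 (-15072, 16464) (by decide +kernel)
              (CovZ.n2 (-15048, 16488) (by decide +kernel)
               (CovZ.n2 (-15048, 16464) (by decide +kernel)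
                (CovZ.leaf K2_ok TB_l34091 _)
                (CovZ.leaf K2_ok TB_l34092 _))
               (CovZ.leaf K2_ok TB_l34093 _))
              (CovZ.n1 (-15048, 16440) (by decide +kernel)
               (CovZ.leaf K2_ok TB_l34094 _)
               (CovZ.n1 (-15048, 16464) (by decide +kernel)
                (CovZ.leaf K2_ok TB_l34095 _)
                (CovZ.leaf K2_ok TB_l34096 _))))
             (CovZ.n1 (-15024, 16512) (by decide +kernel)
              (CovZ.n2 (-15000, 16488) (by decide +kernel)
               (CovZ.leaf K2_ok TB_l34097 _)
               (CovZ.n1 (-15000, 16512) (by decide +kernel)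
                (CovZ.leaf K2_ok TB_l34098 _)
                (CovZ.leaf K2_ok TB_l34099 _)))
              (CovZ.n1 (-15048, 16488) (by decide +kernel)
               (CovZ.n2 (-15048, 16512) (by decide +kernel)
                (CovZ.leaf K2_ok TB_l34100 _)
                (CovZ.leaf K2_ok TB_l34101 _))
               (CovZ.leaf K2_ok TB_l34102 _)))))
           (CovZ.n1 (-15120, 16464) (by decide +kernel)
            (CovZ.n2 (-15120, 16512) (by decide +kernel)
             (CovZ.n2 (-15096, 16488) (by decide +kernel)
              (CovZ.leaf K2_ok TB_l34103 _)
              (CovZ.leaf K2_ok TB_l34104 _))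
             (CovZ.n1 (-15144, 16488) (by decide +kernel)
              (CovZ.leaf K2_ok TB_l34105 _)
              (CovZ.leaf K2_ok TB_l34106 _)))
            (CovZ.n1 (-15072, 16464) (by decide +kernel)
             (CovZ.n2 (-15096, 16440) (by decide +kernel)
              (CovZ.n2 (-15096, 16464) (by decide +kernel)
               (CovZ.leaf K2_ok TB_l34107 _)
               (CovZ.leaf K2_ok TB_l34108 _))
              (CovZ.leaf K2_ok TB_l34109 _))
             (CovZ.n1 (-15096, 16488) (by decide +kernel)
              (CovZ.leaf K2_ok TB_l34110 _)
              (CovZ.leaf K2_ok TB_l34111 _))))))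
         (CovZ.n1 (-15264, 16416) (by decide +kernel)
          (CovZ.n2 (-15264, 16512) (by decide +kernel)
           (CovZ.n2 (-15216, 16464) (by decide +kernel)
            (CovZ.n2 (-15264, 16464) (by decide +kernel)
             (CovZ.leaf K2_ok TB_l34112 _)
             (CovZ.leaf K2_ok TB_l34113 _))
            (CovZ.n1 (-15216, 16512) (by decide +kernel)
             (CovZ.leaf K2_ok TB_l34114 _)
             (CovZ.leaf K2_ok TB_l34115 _)))
           (CovZ.n1 (-15312, 16464) (by decide +kernel)
            (CovZ.n2 (-15312, 16512) (by decide +kernel)
             (CovZ.leaf K2_ok TB_l34116 _)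
             (CovZ.leaf K2_ok TB_l34117 _))
            (CovZ.n1 (-15264, 16464) (by decide +kernel)
             (CovZ.leaf K2_ok TB_l34118 _)
             (CovZ.leaf K2_ok TB_l34119 _))))
          (CovZ.n1 (-15168, 16416) (by decide +kernel)
           (CovZ.n2 (-15216, 16368) (by decide +kernel)
            (CovZ.n2 (-15216, 16416) (by decide +kernel)
             (CovZ.n2 (-15192, 16392) (by decide +kernel)
              (CovZ.leaf K2_ok TB_l34120 _)
              (CovZ.leaf K2_ok TB_l34121 _))
             (CovZ.leaf K2_ok TB_l34122 _))
            (CovZ.n1 (-15168, 16368) (by decide +kernel)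
             (CovZ.n2 (-15192, 16344) (by decide +kernel)
              (CovZ.leaf K2_ok TB_l34123 _)
              (CovZ.leaf K2_ok TB_l34124 _))
             (CovZ.n1 (-15192, 16392) (by decide +kernel)
              (CovZ.leaf K2_ok TB_l34125 _)
              (CovZ.leaf K2_ok TB_l34126 _))))
           (CovZ.n1 (-15216, 16464) (by decide +kernel)
            (CovZ.n2 (-15168, 16464) (by decide +kernel)
             (CovZ.leaf K2_ok TB_l34127 _)
             (CovZ.leaf K2_ok TB_l34128 _))
            (CovZ.n1 (-15216, 16416) (by decide +kernel)
             (CovZ.leaf K2_ok TB_l34129 _)
             (CovZ.leaf K2_ok TB_l34130 _)))))))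

theorem TB_u389 : CovZ TB_M (toL (selN TB_LN 21662143041287656644952993094196621173948096605418733204202076764465711507337183898636845412613227788693841369552371050617111360)) [0, 7, 6, 1] (-15360, 15744) (-15168, 15744) (-15168, 15936) :=
    (CovZ.n2 (-15264, 15840) (by decide +kernel)
          (CovZ.subM 21662143041287656640255898969669985681026536968549457725865832197608297827756531034889027923047886747585379279869586096678503168 (by decide +kernel)
           (CovZ.n2 (-15168, 15840) (by decide +kernel)
            (CovZ.n2 (-15216, 15792) (by decide +kernel)
             (CovZ.n2 (-15216, 15840) (by decide +kernel)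
              (CovZ.n2 (-15192, 15816) (by decide +kernel)
               (CovZ.n2 (-15216, 15816) (by decide +kernel)
                (CovZ.leaf K2_ok TB_l34131 _)
                (CovZ.leaf K2_ok TB_l34132 _))
               (CovZ.n1 (-15192, 15840) (by decide +kernel)
                (CovZ.n2 (-15180, 15828) (by decide +kernel)
                 (CovZ.leaf K2_ok TB_l34133 _)
                 (CovZ.leaf K2_ok TB_l34134 _))
                (CovZ.leaf K2_ok TB_l34135 _)))
              (CovZ.n1 (-15240, 15816) (by decide +kernel)
               (CovZ.n2 (-15240, 15840) (by decide +kernel)
                (CovZ.leaf K2_ok TB_l34136 _)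
                (CovZ.leaf K2_ok TB_l34137 _))
               (CovZ.n1 (-15216, 15816) (by decide +kernel)
                (CovZ.leaf K2_ok TB_l34138 _)
                (CovZ.leaf K2_ok TB_l34139 _))))
             (CovZ.n1 (-15168, 15792) (by decide +kernel)
              (CovZ.n2 (-15192, 15768) (by decide +kernel)
               (CovZ.n2 (-15192, 15792) (by decide +kernel)
                (CovZ.leaf K2_ok TB_l34140 _)
                (CovZ.n1 (-15204, 15780) (by decide +kernel)
                 (CovZ.leaf K2_ok TB_l34141 _)
                 (CovZ.leaf K2_ok TB_l34142 _)))
               (CovZ.n1 (-15168, 15768) (by decide +kernel)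
                (CovZ.n2 (-15180, 15756) (by decide +kernel)
                 (CovZ.leaf K2_ok TB_l46062 _)
                 (CovZ.leaf K2_ok TB_l46063 _))
                (CovZ.leaf K2_ok TB_l46064 _)))
              (CovZ.n1 (-15192, 15816) (by decide +kernel)
               (CovZ.n2 (-15168, 15816) (by decide +kernel)
                (CovZ.n2 (-15180, 15804) (by decide +kernel)
                 (CovZ.leaf K2_ok TB_l34143 _)
                 (CovZ.leaf K2_ok TB_l46065 _))
                (CovZ.leaf K2_ok TB_l34144 _))
               (CovZ.n1 (-15192, 15792) (by decide +kernel)
                (CovZ.n2 (-15204, 15804) (by decide +kernel)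
                 (CovZ.leaf K2_ok TB_l34145 _)
                 (CovZ.leaf K2_ok TB_l34146 _))
                (CovZ.leaf K2_ok TB_l34147 _)))))
            (CovZ.n1 (-15216, 15888) (by decide +kernel)
             (CovZ.n2 (-15168, 15888) (by decide +kernel)
              (CovZ.n2 (-15192, 15864) (by decide +kernel)
               (CovZ.n2 (-15192, 15888) (by decide +kernel)
                (CovZ.n2 (-15180, 15876) (by decide +kernel)
                 (CovZ.leaf K2_ok TB_l34148 _)
                 (CovZ.leaf K2_ok TB_l34149 _))
                (CovZ.leaf K2_ok TB_l34150 _))
               (CovZ.n1 (-15168, 15864) (by decide +kernel)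
                (CovZ.leaf K2_ok TB_l34151 _)
                (CovZ.leaf K2_ok TB_l34152 _)))
              (CovZ.n1 (-15192, 15912) (by decide +kernel)
               (CovZ.n2 (-15168, 15912) (by decide +kernel)
                (CovZ.leaf K2_ok TB_l34153 _)
                (CovZ.leaf K2_ok TB_l34154 _))
               (CovZ.n1 (-15192, 15888) (by decide +kernel)
                (CovZ.leaf K2_ok TB_l34155 _)
                (CovZ.leaf K2_ok TB_l34156 _))))
             (CovZ.n1 (-15216, 15840) (by decide +kernel)
              (CovZ.n2 (-15240, 15864) (by decide +kernel)
               (CovZ.n2 (-15216, 15864) (by decide +kernel)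
                (CovZ.leaf K2_ok TB_l34157 _)
                (CovZ.leaf K2_ok TB_l34158 _))
               (CovZ.n1 (-15240, 15840) (by decide +kernel)
                (CovZ.leaf K2_ok TB_l34159 _)
                (CovZ.leaf K2_ok TB_l34160 _)))
              (CovZ.n1 (-15192, 15864) (by decide +kernel)
               (CovZ.n2 (-15192, 15840) (by decide +kernel)
                (CovZ.leaf K2_ok TB_l34161 _)
                (CovZ.leaf K2_ok TB_l34162 _))
               (CovZ.n1 (-15216, 15864) (by decide +kernel)
                (CovZ.leaf K2_ok TB_l34163 _)
                (CovZ.leaf K2_ok TB_l34164 _)))))))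
          (CovZ.n1 (-15264, 15744) (by decide +kernel)
           (CovZ.n2 (-15312, 15792) (by decide +kernel)
            (CovZ.n2 (-15264, 15792) (by decide +kernel)
             (CovZ.n2 (-15288, 15768) (by decide +kernel)
              (CovZ.n2 (-15288, 15792) (by decide +kernel)
               (CovZ.leaf K2_ok TB_l34165 _)
               (CovZ.leaf K2_ok TB_l34166 _))
              (CovZ.leaf K2_ok TB_l34167 _))
             (CovZ.n1 (-15288, 15816) (by decide +kernel)
              (CovZ.n2 (-15264, 15816) (by decide +kernel)
               (CovZ.leaf K2_ok TB_l34168 _)
               (CovZ.leaf K2_ok TB_l34169 _))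
              (CovZ.n1 (-15288, 15792) (by decide +kernel)
               (CovZ.leaf K2_ok TB_l34170 _)
               (CovZ.leaf K2_ok TB_l34171 _))))
            (CovZ.n1 (-15312, 15744) (by decide +kernel)
             (CovZ.n2 (-15336, 15768) (by decide +kernel)
              (CovZ.leaf K2_ok TB_l34172 _)
              (CovZ.leaf K2_ok TB_l34173 _))
             (CovZ.n1 (-15288, 15768) (by decide +kernel)
              (CovZ.n2 (-15288, 15744) (by decide +kernel)
               (CovZ.leaf K2_ok TB_l34174 _)
               (CovZ.leaf K2_ok TB_l34175 _))
              (CovZ.leaf K2_ok TB_l34176 _))))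
           (CovZ.subM 21662143041287656640255898969669985681026536968549457725865832197608297827756531034889027923047886747585379280446046848981926720 (by decide +kernel)
            (CovZ.n1 (-15216, 15792) (by decide +kernel)
             (CovZ.n2 (-15216, 15744) (by decide +kernel)
              (CovZ.n2 (-15240, 15768) (by decide +kernel)
               (CovZ.n2 (-15216, 15768) (by decide +kernel)
                (CovZ.leaf K2_ok TB_l34177 _)
                (CovZ.leaf K2_ok TB_l34178 _))
               (CovZ.n1 (-15240, 15744) (by decide +kernel)
                (CovZ.leaf K2_ok TB_l34179 _)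
                (CovZ.leaf K2_ok TB_l34180 _)))
              (CovZ.n1 (-15192, 15768) (by decide +kernel)
               (CovZ.n2 (-15192, 15744) (by decide +kernel)
                (CovZ.n2 (-15204, 15756) (by decide +kernel)
                 (CovZ.leaf K2_ok TB_l34181 _)
                 (CovZ.leaf K2_ok TB_l34182 _))
                (CovZ.leaf K2_ok TB_l46066 _))
               (CovZ.n1 (-15216, 15768) (by decide +kernel)
                (CovZ.leaf K2_ok TB_l34183 _)
                (CovZ.n1 (-15204, 15756) (by decide +kernel)
                 (CovZ.leaf K2_ok TB_l34184 _)
                 (CovZ.leaf K2_ok TB_l34185 _)))))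
             (CovZ.n1 (-15264, 15792) (by decide +kernel)
              (CovZ.n2 (-15240, 15816) (by decide +kernel)
               (CovZ.n2 (-15240, 15792) (by decide +kernel)
                (CovZ.leaf K2_ok TB_l34186 _)
                (CovZ.leaf K2_ok TB_l34187 _))
               (CovZ.n1 (-15264, 15816) (by decide +kernel)
                (CovZ.leaf K2_ok TB_l34188 _)
                (CovZ.leaf K2_ok TB_l34189 _)))
              (CovZ.n1 (-15240, 15768) (by decide +kernel)
               (CovZ.n2 (-15264, 15768) (by decide +kernel)
                (CovZ.leaf K2_ok TB_l34190 _)
                (CovZ.leaf K2_ok TB_l34191 _))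
               (CovZ.n1 (-15240, 15792) (by decide +kernel)
                (CovZ.leaf K2_ok TB_l34192 _)
                (CovZ.leaf K2_ok TB_l34193 _))))))))

theorem TB_u390 : CovZ TB_M (toL (selN TB_LN 21662143041287656644952993094196621173948096605418733204202076764465711507337183898636845412613227788693841369552371050617111360)) [0, 7, 6, 1] (-15168, 15744) (-14976, 15744) (-15168, 15936) :=
    (CovZ.subM 21662143041287656640255898969669985681026536968549457725865832197601870075579495073786860074678522057561209173724682793070363392 (by decide +kernel)
          (CovZ.n1 (-15072, 15840) (by decide +kernel)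
           (CovZ.subM 21661481985318866091043496459311299740069534800570901250363292360778859151722156016340129696435505751446113003526380164187422976 (by decide +kernel)
            (CovZ.n2 (-15072, 15744) (by decide +kernel)
             (CovZ.n2 (-15120, 15792) (by decide +kernel)
              (CovZ.badM (by decide +kernel))
              (CovZ.n1 (-15120, 15744) (by decide +kernel)
               (CovZ.n2 (-15144, 15768) (by decide +kernel)
                (CovZ.subM 587135645693458306972370149197334256843920637227079967676822742894213517913658899897581524071465080837898496 (by decide +kernel)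
                 (CovZ.n2 (-15120, 15768) (by decide +kernel)
                  (CovZ.n2 (-15132, 15756) (by decide +kernel)
                   (CovZ.n2 (-15132, 15768) (by decide +kernel)
                    (CovZ.badM (by decide +kernel))
                    (CovZ.leaf K2_ok TB_l46067 _))
                   (CovZ.leaf K2_ok TB_l46068 _))
                  (CovZ.n1 (-15132, 15780) (by decide +kernel)
                   (CovZ.leaf K2_ok TB_l46069 _)
                   (CovZ.n1 (-15132, 15768) (by decide +kernel)
                    (CovZ.leaf K2_ok TB_l46070 _)
                    (CovZ.leaf K2_ok TB_l46071 _)))))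
                (CovZ.n1 (-15144, 15744) (by decide +kernel)
                 (CovZ.n2 (-15156, 15756) (by decide +kernel)
                  (CovZ.leaf K2_ok TB_l46072 _)
                  (CovZ.leaf K2_ok TB_l46073 _))
                 (CovZ.n1 (-15132, 15756) (by decide +kernel)
                  (CovZ.n2 (-15132, 15744) (by decide +kernel)
                   (CovZ.leaf K2_ok TB_l46074 _)
                   (CovZ.leaf K2_ok TB_l46075 _))
                  (CovZ.leaf K2_ok TB_l46076 _))))
               (CovZ.n1 (-15096, 15768) (by decide +kernel)
                (CovZ.badM (by decide +kernel))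
                (CovZ.n1 (-15120, 15768) (by decide +kernel)
                 (CovZ.badM (by decide +kernel))
                 (CovZ.badM (by decide +kernel))))))
             (CovZ.badM (by decide +kernel))))
           (CovZ.n1 (-15168, 15840) (by decide +kernel)
            (CovZ.n2 (-15120, 15888) (by decide +kernel)
             (CovZ.n2 (-15120, 15840) (by decide +kernel)
              (CovZ.n2 (-15144, 15864) (by decide +kernel)
               (CovZ.subM 301200586240744111476889543912492926451127175825254866702556808580300352367149514731575740383690898624546341120 (by decide +kernel)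
                (CovZ.n2 (-15120, 15864) (by decide +kernel)
                 (CovZ.n2 (-15132, 15852) (by decide +kernel)
                  (CovZ.leaf K2_ok TB_l46077 _)
                  (CovZ.leaf K2_ok TB_l46078 _))
                 (CovZ.n1 (-15132, 15876) (by decide +kernel)
                  (CovZ.leaf K2_ok TB_l46079 _)
                  (CovZ.n1 (-15132, 15864) (by decide +kernel)
                   (CovZ.leaf K2_ok TB_l46080 _)
                   (CovZ.leaf K2_ok TB_l46081 _)))))
               (CovZ.n1 (-15144, 15840) (by decide +kernel)
                (CovZ.n2 (-15156, 15852) (by decide +kernel)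
                 (CovZ.leaf K2_ok TB_l46082 _)
                 (CovZ.leaf K2_ok TB_l46083 _))
                (CovZ.n1 (-15132, 15852) (by decide +kernel)
                 (CovZ.leaf K2_ok TB_l46084 _)
                 (CovZ.leaf K2_ok TB_l46085 _))))
              (CovZ.subM 587135645693458306972370149197334256843920637227130184490705836875536644481101079706829690709924481855389952 (by decide +kernel)
               (CovZ.n1 (-15096, 15864) (by decide +kernel)
                (CovZ.n2 (-15096, 15840) (by decide +kernel)
                 (CovZ.n2 (-15108, 15852) (by decide +kernel)
                  (CovZ.leaf K2_ok TB_l46086 _)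
                  (CovZ.n1 (-15108, 15840) (by decide +kernel)
                   (CovZ.leaf K2_ok TB_l46087 _)
                   (CovZ.leaf K2_ok TB_l46088 _)))
                 (CovZ.n1 (-15084, 15852) (by decide +kernel)
                  (CovZ.badM (by decide +kernel))
                  (CovZ.leaf K2_ok TB_l46089 _)))
                (CovZ.n1 (-15120, 15864) (by decide +kernel)
                 (CovZ.n2 (-15108, 15876) (by decide +kernel)
                  (CovZ.n2 (-15108, 15864) (by decide +kernel)
                   (CovZ.leaf K2_ok TB_l46090 _)
                   (CovZ.leaf K2_ok TB_l46091 _))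
                  (CovZ.leaf K2_ok TB_l46092 _))
                 (CovZ.n1 (-15108, 15852) (by decide +kernel)
                  (CovZ.leaf K2_ok TB_l46093 _)
                  (CovZ.n1 (-15108, 15864) (by decide +kernel)
                   (CovZ.leaf K2_ok TB_l46094 _)
                   (CovZ.leaf K2_ok TB_l46095 _)))))))
             (CovZ.n1 (-15168, 15888) (by decide +kernel)
              (CovZ.n2 (-15144, 15912) (by decide +kernel)
               (CovZ.n2 (-15144, 15888) (by decide +kernel)
                (CovZ.n2 (-15156, 15900) (by decide +kernel)
                 (CovZ.leaf K2_ok TB_l34194 _)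
                 (CovZ.leaf K2_ok TB_l34195 _))
                (CovZ.leaf K2_ok TB_l34196 _))
               (CovZ.n1 (-15168, 15912) (by decide +kernel)
                (CovZ.leaf K2_ok TB_l34197 _)
                (CovZ.leaf K2_ok TB_l34198 _)))
              (CovZ.n1 (-15144, 15864) (by decide +kernel)
               (CovZ.n2 (-15168, 15864) (by decide +kernel)
                (CovZ.leaf K2_ok TB_l34199 _)
                (CovZ.leaf K2_ok TB_l34200 _))
               (CovZ.n1 (-15144, 15888) (by decide +kernel)
                (CovZ.n2 (-15132, 15876) (by decide +kernel)
                 (CovZ.leaf K2_ok TB_l46096 _)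
                 (CovZ.n1 (-15132, 15888) (by decide +kernel)
                  (CovZ.leaf K2_ok TB_l46097 _)
                  (CovZ.leaf K2_ok TB_l46098 _)))
                (CovZ.n1 (-15156, 15876) (by decide +kernel)
                 (CovZ.leaf K2_ok TB_l34201 _)
                 (CovZ.leaf K2_ok TB_l34202 _))))))
            (CovZ.n1 (-15120, 15792) (by decide +kernel)
             (CovZ.n2 (-15168, 15792) (by decide +kernel)
              (CovZ.n2 (-15144, 15816) (by decide +kernel)
               (CovZ.subM 587135645693458306972370149197334256843920637227130184490705836875536644475908782848294863081394019885908224 (by decide +kernel)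
                (CovZ.n2 (-15144, 15792) (by decide +kernel)
                 (CovZ.n2 (-15156, 15804) (by decide +kernel)
                  (CovZ.leaf K2_ok TB_l46099 _)
                  (CovZ.n1 (-15156, 15792) (by decide +kernel)
                   (CovZ.leaf K2_ok TB_l46100 _)
                   (CovZ.leaf K2_ok TB_l46101 _)))
                 (CovZ.n1 (-15132, 15804) (by decide +kernel)
                  (CovZ.leaf K2_ok TB_l46102 _)
                  (CovZ.leaf K2_ok TB_l46103 _))))
               (CovZ.n1 (-15168, 15816) (by decide +kernel)
                (CovZ.leaf K2_ok TB_l46104 _)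
                (CovZ.n1 (-15156, 15804) (by decide +kernel)
                 (CovZ.leaf K2_ok TB_l46105 _)
                 (CovZ.leaf K2_ok TB_l46106 _))))
              (CovZ.n1 (-15144, 15768) (by decide +kernel)
               (CovZ.n2 (-15168, 15768) (by decide +kernel)
                (CovZ.n2 (-15156, 15780) (by decide +kernel)
                 (CovZ.leaf K2_ok TB_l46107 _)
                 (CovZ.leaf K2_ok TB_l46108 _))
                (CovZ.n1 (-15156, 15756) (by decide +kernel)
                 (CovZ.leaf K2_ok TB_l46109 _)
                 (CovZ.n1 (-15156, 15768) (by decide +kernel)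
                  (CovZ.leaf K2_ok TB_l46110 _)
                  (CovZ.leaf K2_ok TB_l46111 _))))
               (CovZ.subM 587135645693458306972370149197334256843920637227130184490705836875536644475908782848294863081394019885908224 (by decide +kernel)
                (CovZ.n1 (-15144, 15792) (by decide +kernel)
                 (CovZ.n2 (-15132, 15780) (by decide +kernel)
                  (CovZ.leaf K2_ok TB_l46112 _)
                  (CovZ.n1 (-15132, 15792) (by decide +kernel)
                   (CovZ.leaf K2_ok TB_l46113 _)
                   (CovZ.leaf K2_ok TB_l46114 _)))
                 (CovZ.n1 (-15156, 15780) (by decide +kernel)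
                  (CovZ.leaf K2_ok TB_l46115 _)
                  (CovZ.leaf K2_ok TB_l46116 _))))))
             (CovZ.n1 (-15120, 15840) (by decide +kernel)
              (CovZ.subM 587135645693458306972370149197334256843920637227079967676822742894208073395788166120108805694277459667583232 (by decide +kernel)
               (CovZ.n2 (-15096, 15816) (by decide +kernel)
                (CovZ.n2 (-15120, 15816) (by decide +kernel)
                 (CovZ.n2 (-15108, 15828) (by decide +kernel)
                  (CovZ.leaf K2_ok TB_l46117 _)
                  (CovZ.leaf K2_ok TB_l46118 _))
                 (CovZ.n1 (-15108, 15804) (by decide +kernel)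
                  (CovZ.leaf K2_ok TB_l46119 _)
                  (CovZ.leaf K2_ok TB_l46120 _)))
                (CovZ.n1 (-15096, 15840) (by decide +kernel)
                 (CovZ.badM (by decide +kernel))
                 (CovZ.n1 (-15108, 15828) (by decide +kernel)
                  (CovZ.n2 (-15108, 15840) (by decide +kernel)
                   (CovZ.leaf K2_ok TB_l46121 _)
                   (CovZ.leaf K2_ok TB_l46122 _))
                  (CovZ.n1 (-15096, 15828) (by decide +kernel)
                   (CovZ.leaf K2_ok TB_l46123 _)
                   (CovZ.leaf K2_ok TB_l46124 _))))))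
              (CovZ.n1 (-15144, 15816) (by decide +kernel)
               (CovZ.n2 (-15144, 15840) (by decide +kernel)
                (CovZ.n2 (-15132, 15828) (by decide +kernel)
                 (CovZ.leaf K2_ok TB_l46125 _)
                 (CovZ.leaf K2_ok TB_l46126 _))
                (CovZ.n1 (-15156, 15828) (by decide +kernel)
                 (CovZ.leaf K2_ok TB_l46127 _)
                 (CovZ.leaf K2_ok TB_l46128 _)))
               (CovZ.subM 587135645693458306972370149197334256843920637227130184490705836340318759711173827451437624537833309382639872 (by decide +kernel)
                (CovZ.n1 (-15120, 15816) (by decide +kernel)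
                 (CovZ.n2 (-15132, 15804) (by decide +kernel)
                  (CovZ.n2 (-15132, 15816) (by decide +kernel)
                   (CovZ.leaf K2_ok TB_l46129 _)
                   (CovZ.leaf K2_ok TB_l46130 _))
                  (CovZ.n1 (-15120, 15804) (by decide +kernel)
                   (CovZ.leaf K2_ok TB_l46131 _)
                   (CovZ.leaf K2_ok TB_l46132 _)))
                 (CovZ.n1 (-15132, 15828) (by decide +kernel)
                  (CovZ.leaf K2_ok TB_l46133 _)
                  (CovZ.leaf K2_ok TB_l46134 _))))))))))

theorem TB_u391 : CovZ TB_M (toL (selN TB_LN 21662143041287656644952993094196621173948096605418733204202076764465711507337183898636845412613227788693841369552371050617111360)) [0, 7, 6, 1] (-15360, 15744) (-15360, 15552) (-15168, 15552) :=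
    (CovZ.n2 (-15264, 15648) (by decide +kernel)
          (CovZ.n2 (-15264, 15552) (by decide +kernel)
           (CovZ.n2 (-15312, 15600) (by decide +kernel)
            (CovZ.subM 21662143041287656640255898969669985681026536968549457725865832197601870075579495071289176612443092265709208799245660342328492352 (by decide +kernel)
             (CovZ.n2 (-15264, 15600) (by decide +kernel)
              (CovZ.n2 (-15288, 15576) (by decide +kernel)
               (CovZ.n2 (-15288, 15600) (by decide +kernel)
                (CovZ.leaf K2_ok TB_l34275 _)
                (CovZ.leaf K2_ok TB_l34276 _))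
               (CovZ.n1 (-15264, 15576) (by decide +kernel)
                (CovZ.leaf K2_ok TB_l34277 _)
                (CovZ.leaf K2_ok TB_l34278 _)))
              (CovZ.n1 (-15288, 15624) (by decide +kernel)
               (CovZ.n2 (-15264, 15624) (by decide +kernel)
                (CovZ.leaf K2_ok TB_l34279 _)
                (CovZ.leaf K2_ok TB_l34280 _))
               (CovZ.n1 (-15288, 15600) (by decide +kernel)
                (CovZ.leaf K2_ok TB_l34281 _)
                (CovZ.leaf K2_ok TB_l34282 _)))))
            (CovZ.n1 (-15312, 15552) (by decide +kernel)
             (CovZ.subM 21662143041287656644365848489524193829833128012934502870628870776451411873014568246159232736501761299098026211404576285979050816 (by decide +kernel)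
              (CovZ.n2 (-15336, 15576) (by decide +kernel)
               (CovZ.n2 (-15312, 15576) (by decide +kernel)
                (CovZ.leaf K2_ok TB_l34283 _)
                (CovZ.leaf K2_ok TB_l34284 _))
               (CovZ.n1 (-15336, 15552) (by decide +kernel)
                (CovZ.leaf K2_ok TB_l34285 _)
                (CovZ.leaf K2_ok TB_l34286 _))))
             (CovZ.subM 21662143041287656640255898969669985681026536968549457725865832197601870075579495071289176612443092265709208799245660342328492352 (by decide +kernel)
              (CovZ.n1 (-15288, 15576) (by decide +kernel)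
               (CovZ.n2 (-15288, 15552) (by decide +kernel)
                (CovZ.leaf K2_ok TB_l34287 _)
                (CovZ.leaf K2_ok TB_l34288 _))
               (CovZ.n1 (-15312, 15576) (by decide +kernel)
                (CovZ.leaf K2_ok TB_l34289 _)
                (CovZ.leaf K2_ok TB_l34290 _))))))
           (CovZ.subM 21662143041287656640255898969669985681026536968549457725865832197601870075579495071645988492918132871383357796174570001652515136 (by decide +kernel)
            (CovZ.n1 (-15216, 15600) (by decide +kernel)
             (CovZ.n2 (-15216, 15552) (by decide +kernel)
              (CovZ.n2 (-15240, 15576) (by decide +kernel)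
               (CovZ.n2 (-15216, 15576) (by decide +kernel)
                (CovZ.n2 (-15228, 15564) (by decide +kernel)
                 (CovZ.leaf K2_ok TB_l34291 _)
                 (CovZ.leaf K2_ok TB_l46135 _))
                (CovZ.n1 (-15228, 15588) (by decide +kernel)
                 (CovZ.leaf K2_ok TB_l46136 _)
                 (CovZ.leaf K2_ok TB_l34292 _)))
               (CovZ.n1 (-15240, 15552) (by decide +kernel)
                (CovZ.n2 (-15252, 15564) (by decide +kernel)
                 (CovZ.leaf K2_ok TB_l34293 _)
                 (CovZ.leaf K2_ok TB_l34294 _))
                (CovZ.n1 (-15228, 15564) (by decide +kernel)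
                 (CovZ.leaf K2_ok TB_l34295 _)
                 (CovZ.leaf K2_ok TB_l34296 _))))
              (CovZ.subM 21661481985318866090456360813617841433097164651373566993519371723551728967231450179999810936724331930186793722779043556745019712 (by decide +kernel)
               (CovZ.n1 (-15192, 15576) (by decide +kernel)
                (CovZ.subM 10889035741470108806543929042202194345984 (by decide +kernel)
                 (CovZ.n2 (-15192, 15552) (by decide +kernel)
                  (CovZ.n2 (-15204, 15564) (by decide +kernel)
                   (CovZ.n2 (-15192, 15564) (by decide +kernel)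
                    (CovZ.leaf K2_ok TB_l46137 _)
                    (CovZ.leaf K2_ok TB_l46138 _))
                   (CovZ.n1 (-15204, 15552) (by decide +kernel)
                    (CovZ.leaf K2_ok TB_l46139 _)
                    (CovZ.leaf K2_ok TB_l46140 _)))
                  (CovZ.badM (by decide +kernel))))
                (CovZ.n1 (-15216, 15576) (by decide +kernel)
                 (CovZ.n2 (-15204, 15588) (by decide +kernel)
                  (CovZ.n2 (-15204, 15576) (by decide +kernel)
                   (CovZ.leaf K2_ok TB_l46141 _)
                   (CovZ.leaf K2_ok TB_l46142 _))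
                  (CovZ.leaf K2_ok TB_l46143 _))
                 (CovZ.n1 (-15204, 15564) (by decide +kernel)
                  (CovZ.leaf K2_ok TB_l46144 _)
                  (CovZ.n1 (-15204, 15576) (by decide +kernel)
                   (CovZ.leaf K2_ok TB_l46145 _)
                   (CovZ.leaf K2_ok TB_l46146 _)))))))
             (CovZ.n1 (-15264, 15600) (by decide +kernel)
              (CovZ.n2 (-15240, 15624) (by decide +kernel)
               (CovZ.n2 (-15240, 15600) (by decide +kernel)
                (CovZ.leaf K2_ok TB_l34297 _)
                (CovZ.n1 (-15228, 15612) (by decide +kernel)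
                 (CovZ.leaf K2_ok TB_l34298 _)
                 (CovZ.leaf K2_ok TB_l34299 _)))
               (CovZ.n1 (-15264, 15624) (by decide +kernel)
                (CovZ.leaf K2_ok TB_l34300 _)
                (CovZ.leaf K2_ok TB_l34301 _)))
              (CovZ.n1 (-15240, 15576) (by decide +kernel)
               (CovZ.n2 (-15264, 15576) (by decide +kernel)
                (CovZ.n2 (-15252, 15588) (by decide +kernel)
                 (CovZ.leaf K2_ok TB_l34302 _)
                 (CovZ.leaf K2_ok TB_l34303 _))
                (CovZ.n1 (-15252, 15564) (by decide +kernel)
                 (CovZ.leaf K2_ok TB_l34304 _)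
                 (CovZ.leaf K2_ok TB_l34305 _)))
               (CovZ.n1 (-15240, 15600) (by decide +kernel)
                (CovZ.n2 (-15228, 15588) (by decide +kernel)
                 (CovZ.leaf K2_ok TB_l34306 _)
                 (CovZ.leaf K2_ok TB_l34307 _))
                (CovZ.leaf K2_ok TB_l34308 _)))))))
          (CovZ.n1 (-15360, 15648) (by decide +kernel)
           (CovZ.n2 (-15312, 15696) (by decide +kernel)
            (CovZ.n2 (-15312, 15648) (by decide +kernel)
             (CovZ.n2 (-15336, 15672) (by decide +kernel)
              (CovZ.leaf K2_ok TB_l34309 _)
              (CovZ.n1 (-15336, 15648) (by decide +kernel)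
               (CovZ.leaf K2_ok TB_l34310 _)
               (CovZ.leaf K2_ok TB_l34311 _)))
             (CovZ.n1 (-15288, 15672) (by decide +kernel)
              (CovZ.n2 (-15288, 15648) (by decide +kernel)
               (CovZ.leaf K2_ok TB_l34312 _)
               (CovZ.leaf K2_ok TB_l34313 _))
              (CovZ.leaf K2_ok TB_l34314 _)))
            (CovZ.n1 (-15360, 15696) (by decide +kernel)
             (CovZ.n2 (-15336, 15720) (by decide +kernel)
              (CovZ.leaf K2_ok TB_l34315 _)
              (CovZ.leaf K2_ok TB_l34316 _))
             (CovZ.n1 (-15336, 15672) (by decide +kernel)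
              (CovZ.leaf K2_ok TB_l34317 _)
              (CovZ.n1 (-15336, 15696) (by decide +kernel)
               (CovZ.leaf K2_ok TB_l34318 _)
               (CovZ.leaf K2_ok TB_l34319 _)))))
           (CovZ.n1 (-15312, 15600) (by decide +kernel)
            (CovZ.n2 (-15360, 15600) (by decide +kernel)
             (CovZ.n2 (-15336, 15624) (by decide +kernel)
              (CovZ.n2 (-15336, 15600) (by decide +kernel)
               (CovZ.leaf K2_ok TB_l34320 _)
               (CovZ.leaf K2_ok TB_l34321 _))
              (CovZ.leaf K2_ok TB_l34322 _))
             (CovZ.n1 (-15336, 15576) (by decide +kernel)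
              (CovZ.leaf K2_ok TB_l34323 _)
              (CovZ.n1 (-15336, 15600) (by decide +kernel)
               (CovZ.leaf K2_ok TB_l34324 _)
               (CovZ.leaf K2_ok TB_l34325 _))))
            (CovZ.n1 (-15312, 15648) (by decide +kernel)
             (CovZ.subM 21662143041287656640255898969669985681026536968549457725865832197608297827756531033104968307165436856648440598251382091074765632 (by decide +kernel)
              (CovZ.n2 (-15288, 15624) (by decide +kernel)
               (CovZ.n2 (-15312, 15624) (by decide +kernel)
                (CovZ.leaf K2_ok TB_l34326 _)
                (CovZ.leaf K2_ok TB_l34327 _))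
               (CovZ.n1 (-15288, 15648) (by decide +kernel)
                (CovZ.leaf K2_ok TB_l34328 _)
                (CovZ.leaf K2_ok TB_l34329 _))))
             (CovZ.n1 (-15336, 15624) (by decide +kernel)
              (CovZ.n2 (-15336, 15648) (by decide +kernel)
               (CovZ.leaf K2_ok TB_l34330 _)
               (CovZ.leaf K2_ok TB_l34331 _))
              (CovZ.n1 (-15312, 15624) (by decide +kernel)
               (CovZ.leaf K2_ok TB_l34332 _)
               (CovZ.leaf K2_ok TB_l34333 _)))))))

theorem TB_u392 : CovZ TB_M (toL (selN TB_LN 21662143041287656644952993094196621173948096605418733204202076764465711507337183898636845412613227788693841369552371050617111360)) [0, 7, 6, 1] (-15360, 15552) (-15360, 15360) (-15168, 15552) :=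
    (CovZ.n1 (-15264, 15456) (by decide +kernel)
          (CovZ.n2 (-15360, 15456) (by decide +kernel)
           (CovZ.n2 (-15312, 15504) (by decide +kernel)
            (CovZ.subM 661055968790554496623321599810703708333510758270133953419690120335121282904847405099211786377555177426795472456077732217152 (by decide +kernel)
             (CovZ.n2 (-15312, 15456) (by decide +kernel)
              (CovZ.n2 (-15336, 15480) (by decide +kernel)
               (CovZ.n2 (-15312, 15480) (by decide +kernel)
                (CovZ.leaf K2_ok TB_l34334 _)
                (CovZ.leaf K2_ok TB_l34335 _))
               (CovZ.n1 (-15336, 15456) (by decide +kernel)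
                (CovZ.leaf K2_ok TB_l34336 _)
                (CovZ.leaf K2_ok TB_l34337 _)))
              (CovZ.n1 (-15288, 15480) (by decide +kernel)
               (CovZ.subM 50216813883093446127019868997875123551633521335449904218432 (by decide +kernel)
                (CovZ.n2 (-15288, 15456) (by decide +kernel)
                 (CovZ.n2 (-15300, 15468) (by decide +kernel)
                  (CovZ.leaf K2_ok TB_l46147 _)
                  (CovZ.leaf K2_ok TB_l46148 _))
                 (CovZ.n1 (-15276, 15468) (by decide +kernel)
                  (CovZ.leaf K2_ok TB_l46149 _)
                  (CovZ.leaf K2_ok TB_l46150 _))))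
               (CovZ.n1 (-15312, 15480) (by decide +kernel)
                (CovZ.n2 (-15300, 15492) (by decide +kernel)
                 (CovZ.leaf K2_ok TB_l34338 _)
                 (CovZ.leaf K2_ok TB_l34339 _))
                (CovZ.n1 (-15300, 15468) (by decide +kernel)
                 (CovZ.leaf K2_ok TB_l34340 _)
                 (CovZ.leaf K2_ok TB_l34341 _))))))
            (CovZ.subM 661055968790553909487675906352396735963361560935877109499052899682905783118066159432688813170845212157375768610881065190208 (by decide +kernel)
             (CovZ.n1 (-15360, 15504) (by decide +kernel)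
              (CovZ.n2 (-15336, 15528) (by decide +kernel)
               (CovZ.n2 (-15336, 15504) (by decide +kernel)
                (CovZ.leaf K2_ok TB_l34342 _)
                (CovZ.leaf K2_ok TB_l34343 _))
               (CovZ.leaf K2_ok TB_l34344 _))
              (CovZ.n1 (-15336, 15480) (by decide +kernel)
               (CovZ.n2 (-15360, 15480) (by decide +kernel)
                (CovZ.leaf K2_ok TB_l34345 _)
                (CovZ.leaf K2_ok TB_l34346 _))
               (CovZ.n1 (-15336, 15504) (by decide +kernel)
                (CovZ.leaf K2_ok TB_l34347 _)
                (CovZ.leaf K2_ok TB_l34348 _))))))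
           (CovZ.subM 661055968790554496623321599810703708333510758270133953419690120335121282904847405099211786377555177426795472456077732217152 (by decide +kernel)
            (CovZ.n1 (-15312, 15408) (by decide +kernel)
             (CovZ.n2 (-15360, 15408) (by decide +kernel)
              (CovZ.n2 (-15336, 15432) (by decide +kernel)
               (CovZ.n2 (-15336, 15408) (by decide +kernel)
                (CovZ.leaf K2_ok TB_l34349 _)
                (CovZ.leaf K2_ok TB_l34350 _))
               (CovZ.n1 (-15360, 15432) (by decide +kernel)
                (CovZ.leaf K2_ok TB_l34351 _)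
                (CovZ.leaf K2_ok TB_l34352 _)))
              (CovZ.n1 (-15336, 15384) (by decide +kernel)
               (CovZ.n2 (-15360, 15384) (by decide +kernel)
                (CovZ.leaf K2_ok TB_l34353 _)
                (CovZ.leaf K2_ok TB_l34354 _))
               (CovZ.n1 (-15336, 15408) (by decide +kernel)
                (CovZ.leaf K2_ok TB_l34355 _)
                (CovZ.leaf K2_ok TB_l34356 _))))
             (CovZ.n1 (-15312, 15456) (by decide +kernel)
              (CovZ.subM 50216813883093446127019868997875123551633521335449904218432 (by decide +kernel)
               (CovZ.n2 (-15288, 15432) (by decide +kernel)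
                (CovZ.n2 (-15312, 15432) (by decide +kernel)
                 (CovZ.leaf K2_ok TB_l46151 _)
                 (CovZ.n1 (-15300, 15420) (by decide +kernel)
                  (CovZ.leaf K2_ok TB_l34357 _)
                  (CovZ.leaf K2_ok TB_l46152 _)))
                (CovZ.n1 (-15288, 15456) (by decide +kernel)
                 (CovZ.n2 (-15276, 15444) (by decide +kernel)
                  (CovZ.leaf K2_ok TB_l46153 _)
                  (CovZ.n1 (-15276, 15456) (by decide +kernel)
                   (CovZ.leaf K2_ok TB_l46154 _)
                   (CovZ.leaf K2_ok TB_l46155 _)))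
                 (CovZ.n1 (-15300, 15444) (by decide +kernel)
                  (CovZ.n2 (-15300, 15456) (by decide +kernel)
                   (CovZ.leaf K2_ok TB_l46156 _)
                   (CovZ.leaf K2_ok TB_l46157 _))
                  (CovZ.leaf K2_ok TB_l46158 _)))))
              (CovZ.n1 (-15336, 15432) (by decide +kernel)
               (CovZ.n2 (-15336, 15456) (by decide +kernel)
                (CovZ.leaf K2_ok TB_l34358 _)
                (CovZ.leaf K2_ok TB_l34359 _))
               (CovZ.n1 (-15312, 15432) (by decide +kernel)
                (CovZ.leaf K2_ok TB_l34360 _)
                (CovZ.leaf K2_ok TB_l34361 _)))))))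
          (CovZ.n1 (-15264, 15552) (by decide +kernel)
           (CovZ.subM 50216813883093446127019868997875123551559734359155066011968 (by decide +kernel)
            (CovZ.n2 (-15216, 15504) (by decide +kernel)
             (CovZ.n2 (-15264, 15504) (by decide +kernel)
              (CovZ.n2 (-15240, 15528) (by decide +kernel)
               (CovZ.n2 (-15240, 15504) (by decide +kernel)
                (CovZ.n2 (-15252, 15516) (by decide +kernel)
                 (CovZ.leaf K2_ok TB_l46159 _)
                 (CovZ.leaf K2_ok TB_l46160 _))
                (CovZ.n1 (-15228, 15516) (by decide +kernel)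
                 (CovZ.n2 (-15228, 15504) (by decide +kernel)
                  (CovZ.leaf K2_ok TB_l46161 _)
                  (CovZ.leaf K2_ok TB_l46162 _))
                 (CovZ.leaf K2_ok TB_l46163 _)))
               (CovZ.n1 (-15264, 15528) (by decide +kernel)
                (CovZ.n2 (-15252, 15540) (by decide +kernel)
                 (CovZ.leaf K2_ok TB_l34362 _)
                 (CovZ.leaf K2_ok TB_l34363 _))
                (CovZ.n1 (-15252, 15516) (by decide +kernel)
                 (CovZ.leaf K2_ok TB_l34364 _)
                 (CovZ.leaf K2_ok TB_l34365 _))))
              (CovZ.n1 (-15240, 15480) (by decide +kernel)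
               (CovZ.n2 (-15264, 15480) (by decide +kernel)
                (CovZ.n2 (-15252, 15492) (by decide +kernel)
                 (CovZ.leaf K2_ok TB_l46164 _)
                 (CovZ.leaf K2_ok TB_l46165 _))
                (CovZ.n1 (-15252, 15468) (by decide +kernel)
                 (CovZ.leaf K2_ok TB_l46166 _)
                 (CovZ.n1 (-15252, 15480) (by decide +kernel)
                  (CovZ.leaf K2_ok TB_l46167 _)
                  (CovZ.leaf K2_ok TB_l46168 _))))
               (CovZ.n1 (-15240, 15504) (by decide +kernel)
                (CovZ.n2 (-15228, 15492) (by decide +kernel)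
                 (CovZ.leaf K2_ok TB_l46169 _)
                 (CovZ.n1 (-15228, 15504) (by decide +kernel)
                  (CovZ.leaf K2_ok TB_l46170 _)
                  (CovZ.leaf K2_ok TB_l46171 _)))
                (CovZ.n1 (-15252, 15492) (by decide +kernel)
                 (CovZ.leaf K2_ok TB_l46172 _)
                 (CovZ.leaf K2_ok TB_l46173 _)))))
             (CovZ.n1 (-15216, 15552) (by decide +kernel)
              (CovZ.subM 10889035741470108806543929042202194345984 (by decide +kernel)
               (CovZ.n2 (-15192, 15528) (by decide +kernel)
                (CovZ.n2 (-15216, 15528) (by decide +kernel)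
                 (CovZ.n2 (-15204, 15540) (by decide +kernel)
                  (CovZ.n2 (-15204, 15528) (by decide +kernel)
                   (CovZ.leaf K2_ok TB_l46174 _)
                   (CovZ.badM (by decide +kernel)))
                  (CovZ.leaf K2_ok TB_l46175 _))
                 (CovZ.n1 (-15204, 15516) (by decide +kernel)
                  (CovZ.leaf K2_ok TB_l46176 _)
                  (CovZ.n1 (-15204, 15528) (by decide +kernel)
                   (CovZ.badM (by decide +kernel))
                   (CovZ.leaf K2_ok TB_l46177 _))))
                (CovZ.n1 (-15192, 15552) (by decide +kernel)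
                 (CovZ.badM (by decide +kernel))
                 (CovZ.n1 (-15204, 15540) (by decide +kernel)
                  (CovZ.n2 (-15204, 15552) (by decide +kernel)
                   (CovZ.badM (by decide +kernel))
                   (CovZ.leaf K2_ok TB_l46178 _))
                  (CovZ.badM (by decide +kernel))))))
              (CovZ.n1 (-15240, 15528) (by decide +kernel)
               (CovZ.n2 (-15240, 15552) (by decide +kernel)
                (CovZ.n2 (-15228, 15540) (by decide +kernel)
                 (CovZ.leaf K2_ok TB_l34366 _)
                 (CovZ.leaf K2_ok TB_l34367 _))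
                (CovZ.n1 (-15252, 15540) (by decide +kernel)
                 (CovZ.leaf K2_ok TB_l34368 _)
                 (CovZ.leaf K2_ok TB_l34369 _)))
               (CovZ.subM 10889035741475062984552709792560140255232 (by decide +kernel)
                (CovZ.n1 (-15216, 15528) (by decide +kernel)
                 (CovZ.n2 (-15228, 15516) (by decide +kernel)
                  (CovZ.n2 (-15228, 15528) (by decide +kernel)
                   (CovZ.leaf K2_ok TB_l46179 _)
                   (CovZ.leaf K2_ok TB_l46180 _))
                  (CovZ.leaf K2_ok TB_l46181 _))
                 (CovZ.n1 (-15228, 15540) (by decide +kernel)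
                  (CovZ.leaf K2_ok TB_l46182 _)
                  (CovZ.n1 (-15228, 15528) (by decide +kernel)
                   (CovZ.leaf K2_ok TB_l46183 _)
                   (CovZ.leaf K2_ok TB_l46184 _)))))))))
           (CovZ.n1 (-15312, 15504) (by decide +kernel)
            (CovZ.n2 (-15312, 15552) (by decide +kernel)
             (CovZ.subM 661055968790549799538156052144247929372317175890732346460474050141108348044891289376522047860150374382714334676611151954240 (by decide +kernel)
              (CovZ.n2 (-15288, 15528) (by decide +kernel)
               (CovZ.n2 (-15312, 15528) (by decide +kernel)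
                (CovZ.leaf K2_ok TB_l34370 _)
                (CovZ.leaf K2_ok TB_l34371 _))
               (CovZ.n1 (-15288, 15552) (by decide +kernel)
                (CovZ.leaf K2_ok TB_l34372 _)
                (CovZ.leaf K2_ok TB_l34373 _))))
             (CovZ.subM 661055968790553909487675906352396735963361560935877109499052899682905783118066159432688813170845212157375768610881065190208 (by decide +kernel)
              (CovZ.n1 (-15336, 15528) (by decide +kernel)
               (CovZ.n2 (-15336, 15552) (by decide +kernel)
                (CovZ.leaf K2_ok TB_l34374 _)
                (CovZ.leaf K2_ok TB_l34375 _))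
               (CovZ.n1 (-15312, 15528) (by decide +kernel)
                (CovZ.leaf K2_ok TB_l34376 _)
                (CovZ.leaf K2_ok TB_l34377 _)))))
            (CovZ.subM 301200586240744111476889543912492926451127175825254866702556808579943551332837420435088326197303036958618943808 (by decide +kernel)
             (CovZ.n1 (-15264, 15504) (by decide +kernel)
              (CovZ.n2 (-15288, 15480) (by decide +kernel)
               (CovZ.n2 (-15288, 15504) (by decide +kernel)
                (CovZ.n2 (-15276, 15492) (by decide +kernel)
                 (CovZ.leaf K2_ok TB_l34378 _)
                 (CovZ.leaf K2_ok TB_l34379 _))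
                (CovZ.n1 (-15300, 15492) (by decide +kernel)
                 (CovZ.leaf K2_ok TB_l34380 _)
                 (CovZ.leaf K2_ok TB_l34381 _)))
               (CovZ.n1 (-15264, 15480) (by decide +kernel)
                (CovZ.n2 (-15276, 15468) (by decide +kernel)
                 (CovZ.leaf K2_ok TB_l46185 _)
                 (CovZ.leaf K2_ok TB_l46186 _))
                (CovZ.n1 (-15276, 15492) (by decide +kernel)
                 (CovZ.leaf K2_ok TB_l46187 _)
                 (CovZ.leaf K2_ok TB_l46188 _))))
              (CovZ.n1 (-15288, 15528) (by decide +kernel)
               (CovZ.n2 (-15264, 15528) (by decide +kernel)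
                (CovZ.n2 (-15276, 15516) (by decide +kernel)
                 (CovZ.leaf K2_ok TB_l34382 _)
                 (CovZ.leaf K2_ok TB_l34383 _))
                (CovZ.leaf K2_ok TB_l34384 _))
               (CovZ.n1 (-15288, 15504) (by decide +kernel)
                (CovZ.leaf K2_ok TB_l34385 _)
                (CovZ.leaf K2_ok TB_l34386 _))))))))

theorem TB_u393 : CovZ TB_M (toL (selN TB_LN 21662143041287656644952993094196621173948096605418733204202076764465711507337183898636845412613227788693841369552371050617111360)) [0, 7, 6, 1] (-14976, 15744) (-15168, 15744) (-15168, 15552) :=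
    (CovZ.subM 21661481985318866091043496459311299740069534800570901250363292360778859151722156016340129696435505751446113004102840916490846528 (by decide +kernel)
          (CovZ.n2 (-15072, 15648) (by decide +kernel)
           (CovZ.n2 (-15168, 15648) (by decide +kernel)
            (CovZ.n2 (-15120, 15696) (by decide +kernel)
             (CovZ.subM 21661481985318866090456360813617841433097164651373566993519371723551728967231450179999800047688590453963844551577569773345570880 (by decide +kernel)
              (CovZ.n2 (-15120, 15648) (by decide +kernel)
               (CovZ.n2 (-15144, 15672) (by decide +kernel)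
                (CovZ.badM (by decide +kernel))
                (CovZ.n1 (-15144, 15648) (by decide +kernel)
                 (CovZ.n2 (-15156, 15660) (by decide +kernel)
                  (CovZ.n2 (-15144, 15660) (by decide +kernel)
                   (CovZ.leaf K2_ok TB_l46189 _)
                   (CovZ.leaf K2_ok TB_l46190 _))
                  (CovZ.n1 (-15156, 15648) (by decide +kernel)
                   (CovZ.leaf K2_ok TB_l46191 _)
                   (CovZ.leaf K2_ok TB_l46192 _)))
                 (CovZ.badM (by decide +kernel))))
               (CovZ.badM (by decide +kernel))))
             (CovZ.n1 (-15168, 15696) (by decide +kernel)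
              (CovZ.n2 (-15144, 15720) (by decide +kernel)
               (CovZ.subM 21661481985318866090456360813617841433097164651373566993519371723551728967231450179999810936724331923994675379565007607108206656 (by decide +kernel)
                (CovZ.n2 (-15144, 15696) (by decide +kernel)
                 (CovZ.n2 (-15156, 15708) (by decide +kernel)
                  (CovZ.leaf K2_ok TB_l46193 _)
                  (CovZ.n1 (-15156, 15696) (by decide +kernel)
                   (CovZ.leaf K2_ok TB_l46194 _)
                   (CovZ.leaf K2_ok TB_l46195 _)))
                 (CovZ.n1 (-15132, 15708) (by decide +kernel)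
                  (CovZ.n2 (-15132, 15696) (by decide +kernel)
                   (CovZ.leaf K2_ok TB_l46196 _)
                   (CovZ.leaf K2_ok TB_l46197 _))
                  (CovZ.leaf K2_ok TB_l46198 _))))
               (CovZ.n1 (-15168, 15720) (by decide +kernel)
                (CovZ.n2 (-15156, 15732) (by decide +kernel)
                 (CovZ.leaf K2_ok TB_l46199 _)
                 (CovZ.leaf K2_ok TB_l46200 _))
                (CovZ.n1 (-15156, 15708) (by decide +kernel)
                 (CovZ.leaf K2_ok TB_l46201 _)
                 (CovZ.n1 (-15156, 15720) (by decide +kernel)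
                  (CovZ.leaf K2_ok TB_l46202 _)
                  (CovZ.leaf K2_ok TB_l46203 _)))))
              (CovZ.subM 21661481985318866090456360813617841433097164651373566993519371723551728967231450179999810936724331923994675379565007607108206656 (by decide +kernel)
               (CovZ.n1 (-15144, 15672) (by decide +kernel)
                (CovZ.n2 (-15168, 15672) (by decide +kernel)
                 (CovZ.n2 (-15156, 15684) (by decide +kernel)
                  (CovZ.n2 (-15156, 15672) (by decide +kernel)
                   (CovZ.leaf K2_ok TB_l46204 _)
                   (CovZ.leaf K2_ok TB_l46205 _))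
                  (CovZ.leaf K2_ok TB_l46206 _))
                 (CovZ.n1 (-15156, 15660) (by decide +kernel)
                  (CovZ.n2 (-15168, 15660) (by decide +kernel)
                   (CovZ.leaf K2_ok TB_l46207 _)
                   (CovZ.leaf K2_ok TB_l46208 _))
                  (CovZ.n1 (-15156, 15672) (by decide +kernel)
                   (CovZ.leaf K2_ok TB_l46209 _)
                   (CovZ.leaf K2_ok TB_l46210 _))))
                (CovZ.n1 (-15144, 15696) (by decide +kernel)
                 (CovZ.n2 (-15132, 15684) (by decide +kernel)
                  (CovZ.n2 (-15144, 15684) (by decide +kernel)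
                   (CovZ.leaf K2_ok TB_l46211 _)
                   (CovZ.leaf K2_ok TB_l46212 _))
                  (CovZ.n1 (-15132, 15696) (by decide +kernel)
                   (CovZ.badM (by decide +kernel))
                   (CovZ.leaf K2_ok TB_l46213 _)))
                 (CovZ.n1 (-15156, 15684) (by decide +kernel)
                  (CovZ.n2 (-15156, 15696) (by decide +kernel)
                   (CovZ.leaf K2_ok TB_l46214 _)
                   (CovZ.leaf K2_ok TB_l46215 _))
                  (CovZ.n1 (-15144, 15684) (by decide +kernel)
                   (CovZ.leaf K2_ok TB_l46216 _)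
                   (CovZ.leaf K2_ok TB_l46217 _))))))))
            (CovZ.subM 21661481985318866090456360813617841433097164651373566993519371723551728967231450179999800047688590453963844551577569773345570880 (by decide +kernel)
             (CovZ.n1 (-15120, 15600) (by decide +kernel)
              (CovZ.n2 (-15168, 15600) (by decide +kernel)
               (CovZ.n2 (-15144, 15624) (by decide +kernel)
                (CovZ.badM (by decide +kernel))
                (CovZ.n1 (-15168, 15624) (by decide +kernel)
                 (CovZ.n2 (-15156, 15636) (by decide +kernel)
                  (CovZ.badM (by decide +kernel))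
                  (CovZ.leaf K2_ok TB_l46218 _))
                 (CovZ.badM (by decide +kernel))))
               (CovZ.badM (by decide +kernel)))
              (CovZ.n1 (-15120, 15648) (by decide +kernel)
               (CovZ.badM (by decide +kernel))
               (CovZ.n1 (-15144, 15624) (by decide +kernel)
                (CovZ.n2 (-15144, 15648) (by decide +kernel)
                 (CovZ.badM (by decide +kernel))
                 (CovZ.n1 (-15156, 15636) (by decide +kernel)
                  (CovZ.n2 (-15156, 15648) (by decide +kernel)
                   (CovZ.badM (by decide +kernel))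
                   (CovZ.leaf K2_ok TB_l46219 _))
                  (CovZ.badM (by decide +kernel))))
                (CovZ.badM (by decide +kernel)))))))
           (CovZ.n1 (-15072, 15744) (by decide +kernel)
            (CovZ.badM (by decide +kernel))
            (CovZ.n1 (-15120, 15696) (by decide +kernel)
             (CovZ.n2 (-15120, 15744) (by decide +kernel)
              (CovZ.n2 (-15096, 15720) (by decide +kernel)
               (CovZ.n2 (-15120, 15720) (by decide +kernel)
                (CovZ.badM (by decide +kernel))
                (CovZ.badM (by decide +kernel)))
               (CovZ.badM (by decide +kernel)))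
              (CovZ.n1 (-15144, 15720) (by decide +kernel)
               (CovZ.n2 (-15144, 15744) (by decide +kernel)
                (CovZ.subM 21661481985318866090456360813617841433097164651373566993519371723551728967231450179999810936724331923994675379565007607108206592 (by decide +kernel)
                 (CovZ.n2 (-15132, 15732) (by decide +kernel)
                  (CovZ.n2 (-15144, 15732) (by decide +kernel)
                   (CovZ.leaf K2_ok TB_l46220 _)
                   (CovZ.leaf K2_ok TB_l46221 _))
                  (CovZ.n1 (-15132, 15744) (by decide +kernel)
                   (CovZ.leaf K2_ok TB_l46222 _)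
                   (CovZ.leaf K2_ok TB_l46223 _))))
                (CovZ.n1 (-15156, 15732) (by decide +kernel)
                 (CovZ.n2 (-15156, 15744) (by decide +kernel)
                  (CovZ.leaf K2_ok TB_l46224 _)
                  (CovZ.leaf K2_ok TB_l46225 _))
                 (CovZ.n1 (-15144, 15732) (by decide +kernel)
                  (CovZ.leaf K2_ok TB_l46226 _)
                  (CovZ.leaf K2_ok TB_l46227 _))))
               (CovZ.subM 21661481985318866090456360813617841433097164651373566993519371723551728967231450179999810936724331923994675379565007607108206592 (by decide +kernel)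
                (CovZ.n1 (-15120, 15720) (by decide +kernel)
                 (CovZ.n2 (-15132, 15708) (by decide +kernel)
                  (CovZ.n2 (-15132, 15720) (by decide +kernel)
                   (CovZ.leaf K2_ok TB_l46228 _)
                   (CovZ.leaf K2_ok TB_l46229 _))
                  (CovZ.n1 (-15120, 15708) (by decide +kernel)
                   (CovZ.leaf K2_ok TB_l46230 _)
                   (CovZ.leaf K2_ok TB_l46231 _)))
                 (CovZ.n1 (-15132, 15732) (by decide +kernel)
                  (CovZ.n2 (-15120, 15732) (by decide +kernel)
                   (CovZ.leaf K2_ok TB_l46232 _)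
                   (CovZ.leaf K2_ok TB_l46233 _))
                  (CovZ.n1 (-15132, 15720) (by decide +kernel)
                   (CovZ.leaf K2_ok TB_l46234 _)
                   (CovZ.leaf K2_ok TB_l46235 _)))))))
             (CovZ.badM (by decide +kernel))))))

theorem TB_u394 : CovZ TB_M (toL (selN TB_LN 21662143041287656644952993094196621173948096605418733204202076764465711507337183898636845412613227788693841369552371050617111360)) [0, 7, 6, 1] (-15168, 15744) (-15360, 15744) (-15168, 15552) :=
    (CovZ.n1 (-15264, 15648) (by decide +kernel)
          (CovZ.n2 (-15264, 15744) (by decide +kernel)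
           (CovZ.subM 21662143041287656640255898969669985681026536968549457725865832197608297827756531034889027923047886707971297986276274716714992448 (by decide +kernel)
            (CovZ.n2 (-15216, 15696) (by decide +kernel)
             (CovZ.n2 (-15264, 15696) (by decide +kernel)
              (CovZ.n2 (-15240, 15720) (by decide +kernel)
               (CovZ.n2 (-15240, 15696) (by decide +kernel)
                (CovZ.leaf K2_ok TB_l34387 _)
                (CovZ.leaf K2_ok TB_l34388 _))
               (CovZ.leaf K2_ok TB_l34389 _))
              (CovZ.n1 (-15240, 15672) (by decide +kernel)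
               (CovZ.n2 (-15264, 15672) (by decide +kernel)
                (CovZ.leaf K2_ok TB_l34390 _)
                (CovZ.leaf K2_ok TB_l34391 _))
               (CovZ.n1 (-15240, 15696) (by decide +kernel)
                (CovZ.leaf K2_ok TB_l34392 _)
                (CovZ.leaf K2_ok TB_l34393 _))))
             (CovZ.n1 (-15216, 15744) (by decide +kernel)
              (CovZ.n2 (-15192, 15720) (by decide +kernel)
               (CovZ.n2 (-15216, 15720) (by decide +kernel)
                (CovZ.leaf K2_ok TB_l34394 _)
                (CovZ.n1 (-15204, 15708) (by decide +kernel)
                 (CovZ.leaf K2_ok TB_l46236 _)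
                 (CovZ.leaf K2_ok TB_l46237 _)))
               (CovZ.n1 (-15192, 15744) (by decide +kernel)
                (CovZ.n2 (-15180, 15732) (by decide +kernel)
                 (CovZ.leaf K2_ok TB_l46238 _)
                 (CovZ.leaf K2_ok TB_l46239 _))
                (CovZ.n1 (-15204, 15732) (by decide +kernel)
                 (CovZ.leaf K2_ok TB_l34395 _)
                 (CovZ.leaf K2_ok TB_l46240 _))))
              (CovZ.n1 (-15240, 15720) (by decide +kernel)
               (CovZ.n2 (-15240, 15744) (by decide +kernel)
                (CovZ.leaf K2_ok TB_l34396 _)
                (CovZ.leaf K2_ok TB_l34397 _))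
               (CovZ.n1 (-15216, 15720) (by decide +kernel)
                (CovZ.leaf K2_ok TB_l34398 _)
                (CovZ.leaf K2_ok TB_l34399 _))))))
           (CovZ.n1 (-15312, 15696) (by decide +kernel)
            (CovZ.n2 (-15312, 15744) (by decide +kernel)
             (CovZ.n2 (-15288, 15720) (by decide +kernel)
              (CovZ.leaf K2_ok TB_l34400 _)
              (CovZ.n1 (-15288, 15744) (by decide +kernel)
               (CovZ.leaf K2_ok TB_l34401 _)
               (CovZ.leaf K2_ok TB_l34402 _)))
             (CovZ.n1 (-15336, 15720) (by decide +kernel)
              (CovZ.n2 (-15336, 15744) (by decide +kernel)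
               (CovZ.leaf K2_ok TB_l34403 _)
               (CovZ.leaf K2_ok TB_l34404 _))
              (CovZ.leaf K2_ok TB_l34405 _)))
            (CovZ.subM 21662143041287656640255898969669985681026536968549457725865832197608297827756531033104968307165436856648440635144870238493868864 (by decide +kernel)
             (CovZ.n1 (-15264, 15696) (by decide +kernel)
              (CovZ.n2 (-15288, 15672) (by decide +kernel)
               (CovZ.n2 (-15288, 15696) (by decide +kernel)
                (CovZ.leaf K2_ok TB_l34406 _)
                (CovZ.leaf K2_ok TB_l34407 _))
               (CovZ.n1 (-15264, 15672) (by decide +kernel)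
                (CovZ.leaf K2_ok TB_l34408 _)
                (CovZ.leaf K2_ok TB_l34409 _)))
              (CovZ.n1 (-15288, 15720) (by decide +kernel)
               (CovZ.n2 (-15264, 15720) (by decide +kernel)
                (CovZ.leaf K2_ok TB_l34410 _)
                (CovZ.leaf K2_ok TB_l34411 _))
               (CovZ.n1 (-15288, 15696) (by decide +kernel)
                (CovZ.leaf K2_ok TB_l34412 _)
                (CovZ.leaf K2_ok TB_l34413 _)))))))
          (CovZ.subM 21662143041287656640255898969669985681026536968549457725865832197601870075579495071645988492918132871383357796174570001652515136 (by decide +kernel)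
           (CovZ.n1 (-15168, 15648) (by decide +kernel)
            (CovZ.n2 (-15216, 15600) (by decide +kernel)
             (CovZ.n2 (-15216, 15648) (by decide +kernel)
              (CovZ.n2 (-15192, 15624) (by decide +kernel)
               (CovZ.n2 (-15216, 15624) (by decide +kernel)
                (CovZ.n2 (-15204, 15636) (by decide +kernel)
                 (CovZ.leaf K2_ok TB_l46241 _)
                 (CovZ.leaf K2_ok TB_l46242 _))
                (CovZ.n1 (-15204, 15612) (by decide +kernel)
                 (CovZ.leaf K2_ok TB_l46243 _)
                 (CovZ.leaf K2_ok TB_l46244 _)))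
               (CovZ.n1 (-15192, 15648) (by decide +kernel)
                (CovZ.n2 (-15180, 15636) (by decide +kernel)
                 (CovZ.leaf K2_ok TB_l46245 _)
                 (CovZ.n1 (-15180, 15648) (by decide +kernel)
                  (CovZ.leaf K2_ok TB_l46246 _)
                  (CovZ.leaf K2_ok TB_l46247 _)))
                (CovZ.n1 (-15204, 15636) (by decide +kernel)
                 (CovZ.leaf K2_ok TB_l46248 _)
                 (CovZ.leaf K2_ok TB_l46249 _))))
              (CovZ.n1 (-15240, 15624) (by decide +kernel)
               (CovZ.n2 (-15240, 15648) (by decide +kernel)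
                (CovZ.n2 (-15228, 15636) (by decide +kernel)
                 (CovZ.leaf K2_ok TB_l34414 _)
                 (CovZ.leaf K2_ok TB_l34415 _))
                (CovZ.leaf K2_ok TB_l34416 _))
               (CovZ.n1 (-15216, 15624) (by decide +kernel)
                (CovZ.leaf K2_ok TB_l34417 _)
                (CovZ.n1 (-15228, 15636) (by decide +kernel)
                 (CovZ.leaf K2_ok TB_l46250 _)
                 (CovZ.leaf K2_ok TB_l34418 _)))))
             (CovZ.subM 21661481985318866090456360813617841433097164651373566993519371723551728967231450179999810936724331930186793722779043556745019712 (by decide +kernel)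
              (CovZ.n1 (-15168, 15600) (by decide +kernel)
               (CovZ.n2 (-15192, 15576) (by decide +kernel)
                (CovZ.n2 (-15192, 15600) (by decide +kernel)
                 (CovZ.n2 (-15180, 15588) (by decide +kernel)
                  (CovZ.leaf K2_ok TB_l46251 _)
                  (CovZ.n1 (-15180, 15600) (by decide +kernel)
                   (CovZ.badM (by decide +kernel))
                   (CovZ.leaf K2_ok TB_l46252 _)))
                 (CovZ.n1 (-15204, 15588) (by decide +kernel)
                  (CovZ.n2 (-15204, 15600) (by decide +kernel)
                   (CovZ.leaf K2_ok TB_l46253 _)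
                   (CovZ.leaf K2_ok TB_l46254 _))
                  (CovZ.leaf K2_ok TB_l46255 _)))
                (CovZ.badM (by decide +kernel)))
               (CovZ.n1 (-15192, 15624) (by decide +kernel)
                (CovZ.subM 21661481985318866090456360813617841433097164651373566993519371723551728967231450179999810936724331923994675379565007607108206656 (by decide +kernel)
                 (CovZ.n2 (-15168, 15624) (by decide +kernel)
                  (CovZ.n2 (-15180, 15612) (by decide +kernel)
                   (CovZ.n2 (-15180, 15624) (by decide +kernel)
                    (CovZ.leaf K2_ok TB_l46256 _)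
                    (CovZ.leaf K2_ok TB_l46257 _))
                   (CovZ.n1 (-15168, 15612) (by decide +kernel)
                    (CovZ.leaf K2_ok TB_l49813 _)
                    (CovZ.leaf K2_ok TB_l49814 _)))
                  (CovZ.n1 (-15180, 15636) (by decide +kernel)
                   (CovZ.leaf K2_ok TB_l46258 _)
                   (CovZ.n1 (-15180, 15624) (by decide +kernel)
                    (CovZ.leaf K2_ok TB_l46259 _)
                    (CovZ.leaf K2_ok TB_l46260 _)))))
                (CovZ.n1 (-15192, 15600) (by decide +kernel)
                 (CovZ.n2 (-15204, 15612) (by decide +kernel)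
                  (CovZ.leaf K2_ok TB_l46261 _)
                  (CovZ.leaf K2_ok TB_l46262 _))
                 (CovZ.n1 (-15180, 15612) (by decide +kernel)
                  (CovZ.n2 (-15180, 15600) (by decide +kernel)
                   (CovZ.leaf K2_ok TB_l46263 _)
                   (CovZ.leaf K2_ok TB_l49815 _))
                  (CovZ.leaf K2_ok TB_l46264 _)))))))
            (CovZ.n1 (-15216, 15696) (by decide +kernel)
             (CovZ.n2 (-15168, 15696) (by decide +kernel)
              (CovZ.n2 (-15192, 15672) (by decide +kernel)
               (CovZ.n2 (-15192, 15696) (by decide +kernel)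
                (CovZ.n2 (-15180, 15684) (by decide +kernel)
                 (CovZ.leaf K2_ok TB_l46265 _)
                 (CovZ.n1 (-15180, 15696) (by decide +kernel)
                  (CovZ.leaf K2_ok TB_l46266 _)
                  (CovZ.leaf K2_ok TB_l46267 _)))
                (CovZ.n1 (-15204, 15684) (by decide +kernel)
                 (CovZ.n2 (-15204, 15696) (by decide +kernel)
                  (CovZ.leaf K2_ok TB_l46268 _)
                  (CovZ.leaf K2_ok TB_l46269 _))
                 (CovZ.leaf K2_ok TB_l46270 _)))
               (CovZ.n1 (-15168, 15672) (by decide +kernel)
                (CovZ.n2 (-15180, 15660) (by decide +kernel)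
                 (CovZ.n2 (-15180, 15672) (by decide +kernel)
                  (CovZ.leaf K2_ok TB_l46271 _)
                  (CovZ.leaf K2_ok TB_l46272 _))
                 (CovZ.leaf K2_ok TB_l46273 _))
                (CovZ.n1 (-15180, 15684) (by decide +kernel)
                 (CovZ.n2 (-15168, 15684) (by decide +kernel)
                  (CovZ.leaf K2_ok TB_l46274 _)
                  (CovZ.leaf K2_ok TB_l46275 _))
                 (CovZ.leaf K2_ok TB_l46276 _))))
              (CovZ.n1 (-15192, 15720) (by decide +kernel)
               (CovZ.n2 (-15168, 15720) (by decide +kernel)
                (CovZ.n2 (-15180, 15708) (by decide +kernel)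
                 (CovZ.n2 (-15180, 15720) (by decide +kernel)
                  (CovZ.leaf K2_ok TB_l46277 _)
                  (CovZ.leaf K2_ok TB_l46278 _))
                 (CovZ.leaf K2_ok TB_l46279 _))
                (CovZ.n1 (-15180, 15732) (by decide +kernel)
                 (CovZ.leaf K2_ok TB_l46280 _)
                 (CovZ.n1 (-15180, 15720) (by decide +kernel)
                  (CovZ.leaf K2_ok TB_l46281 _)
                  (CovZ.leaf K2_ok TB_l46282 _))))
               (CovZ.n1 (-15192, 15696) (by decide +kernel)
                (CovZ.n2 (-15204, 15708) (by decide +kernel)
                 (CovZ.leaf K2_ok TB_l46283 _)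
                 (CovZ.leaf K2_ok TB_l46284 _))
                (CovZ.n1 (-15180, 15708) (by decide +kernel)
                 (CovZ.leaf K2_ok TB_l46285 _)
                 (CovZ.leaf K2_ok TB_l46286 _)))))
             (CovZ.n1 (-15216, 15648) (by decide +kernel)
              (CovZ.n2 (-15240, 15672) (by decide +kernel)
               (CovZ.n2 (-15216, 15672) (by decide +kernel)
                (CovZ.n2 (-15228, 15660) (by decide +kernel)
                 (CovZ.leaf K2_ok TB_l34419 _)
                 (CovZ.leaf K2_ok TB_l46287 _))
                (CovZ.n1 (-15228, 15684) (by decide +kernel)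
                 (CovZ.leaf K2_ok TB_l46288 _)
                 (CovZ.leaf K2_ok TB_l34420 _)))
               (CovZ.n1 (-15240, 15648) (by decide +kernel)
                (CovZ.leaf K2_ok TB_l34421 _)
                (CovZ.leaf K2_ok TB_l34422 _)))
              (CovZ.n1 (-15192, 15672) (by decide +kernel)
               (CovZ.n2 (-15192, 15648) (by decide +kernel)
                (CovZ.n2 (-15204, 15660) (by decide +kernel)
                 (CovZ.leaf K2_ok TB_l46289 _)
                 (CovZ.leaf K2_ok TB_l46290 _))
                (CovZ.n1 (-15180, 15660) (by decide +kernel)
                 (CovZ.n2 (-15180, 15648) (by decide +kernel)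
                  (CovZ.leaf K2_ok TB_l46291 _)
                  (CovZ.leaf K2_ok TB_l46292 _))
                 (CovZ.leaf K2_ok TB_l46293 _)))
               (CovZ.n1 (-15216, 15672) (by decide +kernel)
                (CovZ.n2 (-15204, 15684) (by decide +kernel)
                 (CovZ.leaf K2_ok TB_l46294 _)
                 (CovZ.leaf K2_ok TB_l46295 _))
                (CovZ.n1 (-15204, 15660) (by decide +kernel)
                 (CovZ.leaf K2_ok TB_l46296 _)
                 (CovZ.leaf K2_ok TB_l46297 _)))))))))

theorem TB_u395 : CovZ TB_M (toL (selN TB_LN 21662143041287656644952993094196621173948096605418733204202076764465711507337183898636845412613227788693841369552371050617111360)) [0, 7, 6, 1] (-14976, 16128) (-15168, 16128) (-15168, 15936) :=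
    (CovZ.subM 661055968790549799538156052144573855128530693664535297770619968450768090325351977759383745364980362695943538007945406055168 (by decide +kernel)
          (CovZ.n2 (-15072, 16032) (by decide +kernel)
           (CovZ.n2 (-15168, 16032) (by decide +kernel)
            (CovZ.n2 (-15120, 16080) (by decide +kernel)
             (CovZ.n2 (-15120, 16032) (by decide +kernel)
              (CovZ.n2 (-15144, 16056) (by decide +kernel)
               (CovZ.n2 (-15120, 16056) (by decide +kernel)
                (CovZ.leaf K2_ok TB_l34423 _)
                (CovZ.leaf K2_ok TB_l34424 _))
               (CovZ.n1 (-15144, 16032) (by decide +kernel)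
                (CovZ.leaf K2_ok TB_l34425 _)
                (CovZ.leaf K2_ok TB_l34426 _)))
              (CovZ.n1 (-15096, 16056) (by decide +kernel)
               (CovZ.n2 (-15096, 16032) (by decide +kernel)
                (CovZ.leaf K2_ok TB_l34427 _)
                (CovZ.n1 (-15084, 16044) (by decide +kernel)
                 (CovZ.leaf K2_ok TB_l46298 _)
                 (CovZ.leaf K2_ok TB_l34428 _)))
               (CovZ.n1 (-15120, 16056) (by decide +kernel)
                (CovZ.leaf K2_ok TB_l34429 _)
                (CovZ.leaf K2_ok TB_l34430 _))))
             (CovZ.n1 (-15168, 16080) (by decide +kernel)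
              (CovZ.n2 (-15144, 16104) (by decide +kernel)
               (CovZ.n2 (-15144, 16080) (by decide +kernel)
                (CovZ.leaf K2_ok TB_l34431 _)
                (CovZ.leaf K2_ok TB_l34432 _))
               (CovZ.leaf K2_ok TB_l34433 _))
              (CovZ.n1 (-15144, 16056) (by decide +kernel)
               (CovZ.leaf K2_ok TB_l34434 _)
               (CovZ.n1 (-15144, 16080) (by decide +kernel)
                (CovZ.leaf K2_ok TB_l34435 _)
                (CovZ.leaf K2_ok TB_l34436 _)))))
            (CovZ.n1 (-15120, 15984) (by decide +kernel)
             (CovZ.n2 (-15168, 15984) (by decide +kernel)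
              (CovZ.n2 (-15144, 16008) (by decide +kernel)
               (CovZ.n2 (-15144, 15984) (by decide +kernel)
                (CovZ.leaf K2_ok TB_l34437 _)
                (CovZ.leaf K2_ok TB_l34438 _))
               (CovZ.n1 (-15168, 16008) (by decide +kernel)
                (CovZ.leaf K2_ok TB_l34439 _)
                (CovZ.leaf K2_ok TB_l34440 _)))
              (CovZ.n1 (-15144, 15960) (by decide +kernel)
               (CovZ.n2 (-15168, 15960) (by decide +kernel)
                (CovZ.leaf K2_ok TB_l34441 _)
                (CovZ.leaf K2_ok TB_l34442 _))
               (CovZ.n1 (-15144, 15984) (by decide +kernel)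
                (CovZ.n2 (-15132, 15972) (by decide +kernel)
                 (CovZ.leaf K2_ok TB_l34443 _)
                 (CovZ.leaf K2_ok TB_l34444 _))
                (CovZ.leaf K2_ok TB_l34445 _))))
             (CovZ.n1 (-15120, 16032) (by decide +kernel)
              (CovZ.n2 (-15096, 16008) (by decide +kernel)
               (CovZ.n2 (-15120, 16008) (by decide +kernel)
                (CovZ.leaf K2_ok TB_l34446 _)
                (CovZ.n1 (-15108, 15996) (by decide +kernel)
                 (CovZ.leaf K2_ok TB_l34447 _)
                 (CovZ.leaf K2_ok TB_l34448 _)))
               (CovZ.n1 (-15096, 16032) (by decide +kernel)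
                (CovZ.n2 (-15084, 16020) (by decide +kernel)
                 (CovZ.leaf K2_ok TB_l46299 _)
                 (CovZ.leaf K2_ok TB_l46300 _))
                (CovZ.leaf K2_ok TB_l34449 _)))
              (CovZ.n1 (-15144, 16008) (by decide +kernel)
               (CovZ.n2 (-15144, 16032) (by decide +kernel)
                (CovZ.leaf K2_ok TB_l34450 _)
                (CovZ.leaf K2_ok TB_l34451 _))
               (CovZ.n1 (-15120, 16008) (by decide +kernel)
                (CovZ.leaf K2_ok TB_l34452 _)
                (CovZ.leaf K2_ok TB_l34453 _))))))
           (CovZ.n1 (-15072, 16128) (by decide +kernel)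
            (CovZ.n2 (-15024, 16080) (by decide +kernel)
             (CovZ.n2 (-15072, 16080) (by decide +kernel)
              (CovZ.n2 (-15048, 16104) (by decide +kernel)
               (CovZ.subM 300613450595050653169917173763295592194283255188027786734879985838833397473512853052836343754037242552882561024 (by decide +kernel)
                (CovZ.n2 (-15048, 16080) (by decide +kernel)
                 (CovZ.n2 (-15060, 16092) (by decide +kernel)
                  (CovZ.leaf K2_ok TB_l46301 _)
                  (CovZ.leaf K2_ok TB_l46302 _))
                 (CovZ.n1 (-15036, 16092) (by decide +kernel)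
                  (CovZ.leaf K2_ok TB_l46303 _)
                  (CovZ.leaf K2_ok TB_l46304 _))))
               (CovZ.n1 (-15072, 16104) (by decide +kernel)
                (CovZ.n2 (-15060, 16116) (by decide +kernel)
                 (CovZ.leaf K2_ok TB_l34454 _)
                 (CovZ.leaf K2_ok TB_l34455 _))
                (CovZ.leaf K2_ok TB_l34456 _)))
              (CovZ.subM 300613450595050653169917173763295592194283255188027786734879985838833397473512853052836343754037242552882561024 (by decide +kernel)
               (CovZ.n1 (-15048, 16056) (by decide +kernel)
                (CovZ.n2 (-15072, 16056) (by decide +kernel)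
                 (CovZ.n2 (-15060, 16068) (by decide +kernel)
                  (CovZ.leaf K2_ok TB_l46305 _)
                  (CovZ.leaf K2_ok TB_l46306 _))
                 (CovZ.n1 (-15060, 16044) (by decide +kernel)
                  (CovZ.leaf K2_ok TB_l46307 _)
                  (CovZ.n1 (-15060, 16056) (by decide +kernel)
                   (CovZ.leaf K2_ok TB_l46308 _)
                   (CovZ.leaf K2_ok TB_l46309 _))))
                (CovZ.n1 (-15048, 16080) (by decide +kernel)
                 (CovZ.n2 (-15036, 16068) (by decide +kernel)
                  (CovZ.leaf K2_ok TB_l46310 _)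
                  (CovZ.leaf K2_ok TB_l46311 _))
                 (CovZ.n1 (-15060, 16068) (by decide +kernel)
                  (CovZ.leaf K2_ok TB_l46312 _)
                  (CovZ.leaf K2_ok TB_l46313 _))))))
             (CovZ.n1 (-15024, 16128) (by decide +kernel)
              (CovZ.subM 63657374260452690195888927762843284346741482710642216302484127507029200236492139494637568 (by decide +kernel)
               (CovZ.n2 (-15000, 16104) (by decide +kernel)
                (CovZ.n2 (-15024, 16104) (by decide +kernel)
                 (CovZ.n2 (-15012, 16116) (by decide +kernel)
                  (CovZ.n2 (-15012, 16104) (by decide +kernel)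
                   (CovZ.leaf K2_ok TB_l46314 _)
                   (CovZ.leaf K2_ok TB_l46315 _))
                  (CovZ.leaf K2_ok TB_l46316 _))
                 (CovZ.n1 (-15012, 16092) (by decide +kernel)
                  (CovZ.leaf K2_ok TB_l46317 _)
                  (CovZ.n1 (-15012, 16104) (by decide +kernel)
                   (CovZ.leaf K2_ok TB_l46318 _)
                   (CovZ.leaf K2_ok TB_l46319 _))))
                (CovZ.n1 (-15000, 16128) (by decide +kernel)
                 (CovZ.n2 (-14988, 16116) (by decide +kernel)
                  (CovZ.leaf K2_ok TB_l46320 _)
                  (CovZ.n1 (-14988, 16128) (by decide +kernel)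
                   (CovZ.leaf K2_ok TB_l46321 _)
                   (CovZ.leaf K2_ok TB_l46322 _)))
                 (CovZ.n1 (-15012, 16116) (by decide +kernel)
                  (CovZ.n2 (-15012, 16128) (by decide +kernel)
                   (CovZ.leaf K2_ok TB_l46323 _)
                   (CovZ.leaf K2_ok TB_l46324 _))
                  (CovZ.n1 (-15000, 16116) (by decide +kernel)
                   (CovZ.leaf K2_ok TB_l46325 _)
                   (CovZ.leaf K2_ok TB_l46326 _))))))
              (CovZ.n1 (-15048, 16104) (by decide +kernel)
               (CovZ.n2 (-15048, 16128) (by decide +kernel)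
                (CovZ.n2 (-15036, 16116) (by decide +kernel)
                 (CovZ.leaf K2_ok TB_l46327 _)
                 (CovZ.n1 (-15036, 16128) (by decide +kernel)
                  (CovZ.leaf K2_ok TB_l46328 _)
                  (CovZ.leaf K2_ok TB_l46329 _)))
                (CovZ.n1 (-15060, 16116) (by decide +kernel)
                 (CovZ.leaf K2_ok TB_l34457 _)
                 (CovZ.leaf K2_ok TB_l46330 _)))
               (CovZ.subM 300613450595050653169917173763295592194283255188027786734879985838833397473512853052836343754037242552882561024 (by decide +kernel)
                (CovZ.n1 (-15024, 16104) (by decide +kernel)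
                 (CovZ.n2 (-15036, 16092) (by decide +kernel)
                  (CovZ.leaf K2_ok TB_l46331 _)
                  (CovZ.leaf K2_ok TB_l46332 _))
                 (CovZ.n1 (-15036, 16116) (by decide +kernel)
                  (CovZ.leaf K2_ok TB_l46333 _)
                  (CovZ.leaf K2_ok TB_l46334 _)))))))
            (CovZ.n1 (-15120, 16080) (by decide +kernel)
             (CovZ.n2 (-15120, 16128) (by decide +kernel)
              (CovZ.n2 (-15096, 16104) (by decide +kernel)
               (CovZ.n2 (-15120, 16104) (by decide +kernel)
                (CovZ.leaf K2_ok TB_l34458 _)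
                (CovZ.leaf K2_ok TB_l34459 _))
               (CovZ.n1 (-15096, 16128) (by decide +kernel)
                (CovZ.n2 (-15084, 16116) (by decide +kernel)
                 (CovZ.leaf K2_ok TB_l34460 _)
                 (CovZ.leaf K2_ok TB_l34461 _))
                (CovZ.leaf K2_ok TB_l34462 _)))
              (CovZ.n1 (-15144, 16104) (by decide +kernel)
               (CovZ.n2 (-15144, 16128) (by decide +kernel)
                (CovZ.leaf K2_ok TB_l34463 _)
                (CovZ.leaf K2_ok TB_l34464 _))
               (CovZ.n1 (-15120, 16104) (by decide +kernel)
                (CovZ.leaf K2_ok TB_l34465 _)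
                (CovZ.leaf K2_ok TB_l34466 _))))
             (CovZ.n1 (-15072, 16080) (by decide +kernel)
              (CovZ.n2 (-15096, 16056) (by decide +kernel)
               (CovZ.n2 (-15096, 16080) (by decide +kernel)
                (CovZ.n2 (-15084, 16068) (by decide +kernel)
                 (CovZ.leaf K2_ok TB_l34467 _)
                 (CovZ.leaf K2_ok TB_l34468 _))
                (CovZ.leaf K2_ok TB_l34469 _))
               (CovZ.subM 661055968790549212402510358685940957002167978556475502539836823061140671222150179222662723292768121191345249267576240865792 (by decide +kernel)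
                (CovZ.n1 (-15072, 16056) (by decide +kernel)
                 (CovZ.n2 (-15084, 16044) (by decide +kernel)
                  (CovZ.leaf K2_ok TB_l34470 _)
                  (CovZ.leaf K2_ok TB_l46335 _))
                 (CovZ.n1 (-15084, 16068) (by decide +kernel)
                  (CovZ.leaf K2_ok TB_l46336 _)
                  (CovZ.leaf K2_ok TB_l34471 _)))))
              (CovZ.n1 (-15096, 16104) (by decide +kernel)
               (CovZ.n2 (-15072, 16104) (by decide +kernel)
                (CovZ.leaf K2_ok TB_l34472 _)
                (CovZ.leaf K2_ok TB_l34473 _))
               (CovZ.n1 (-15096, 16080) (by decide +kernel)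
                (CovZ.leaf K2_ok TB_l34474 _)
                (CovZ.leaf K2_ok TB_l34475 _))))))))

end Pool.Agent.TET
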