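import Pool.Agent.Helper38_TET.TB_M
import Pool.Agent.Helper38_TET.TB_L
import Pool.Agent.Helper38_TET.TB_186
import Pool.Agent.Helper38_TET.TB_187
import Pool.Agent.Helper38_TET.TB_225
import Pool.Agent.Helper38_TET.TB_226
import Pool.Agent.Helper38_TET.TB_228
import Pool.Agent.Helper38_TET.TB_229
import Pool.Agent.Helper38_TET.TB_230
import Pool.Agent.Helper38_TET.TB_231
import Pool.Agent.Helper38_TET.TB_232
import Pool.Agent.Helper38_TET.TB_306
import Pool.Agent.Helper38_TET.TB_309
import Pool.Agent.Helper38_TET.TB_310
import Pool.Agent.Helper38_TET.TB_311
import Pool.Agent.Helper38_TET.TB_332
import Pool.Agent.Helper38_TET.TB_U26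

/-!
# MP_c7c9bf_co: certificates, family TB
-/

set_option autoImplicit false
set_option maxRecDepth 100000

namespace Pool.Agent.TET

theorem TB_u396 : CovZ TB_M (toL (selN TB_LN 21662143041287656644952993094196621173948096605418733204202076764465711507337183898636845412613227788693841369552371050617111360)) [0, 7, 6, 1] (-15168, 16128) (-15360, 16128) (-15168, 15936) :=
    (CovZ.n1 (-15264, 16032) (by decide +kernel)
          (CovZ.n2 (-15264, 16128) (by decide +kernel)
           (CovZ.n2 (-15216, 16080) (by decide +kernel)
            (CovZ.subM 661055968790549799538156052144573855128530693664535297770619557074628760023841439018449235495037870884729317346230801531648 (by decide +kernel)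
             (CovZ.n2 (-15264, 16080) (by decide +kernel)
              (CovZ.n2 (-15240, 16104) (by decide +kernel)
               (CovZ.leaf K2_ok TB_l34476 _)
               (CovZ.leaf K2_ok TB_l34477 _))
              (CovZ.n1 (-15240, 16056) (by decide +kernel)
               (CovZ.leaf K2_ok TB_l34478 _)
               (CovZ.n1 (-15240, 16080) (by decide +kernel)
                (CovZ.leaf K2_ok TB_l34479 _)
                (CovZ.leaf K2_ok TB_l34480 _)))))
            (CovZ.n1 (-15216, 16128) (by decide +kernel)
             (CovZ.n2 (-15192, 16104) (by decide +kernel)
              (CovZ.leaf K2_ok TB_l34481 _)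
              (CovZ.n1 (-15192, 16128) (by decide +kernel)
               (CovZ.leaf K2_ok TB_l34482 _)
               (CovZ.leaf K2_ok TB_l34483 _)))
             (CovZ.n1 (-15240, 16104) (by decide +kernel)
              (CovZ.leaf K2_ok TB_l34484 _)
              (CovZ.leaf K2_ok TB_l34485 _))))
           (CovZ.n1 (-15312, 16080) (by decide +kernel)
            (CovZ.n2 (-15312, 16128) (by decide +kernel)
             (CovZ.n2 (-15288, 16104) (by decide +kernel)
              (CovZ.leaf K2_ok TB_l34486 _)
              (CovZ.leaf K2_ok TB_l34487 _))
             (CovZ.leaf K2_ok TB_l34488 _))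
            (CovZ.n1 (-15264, 16080) (by decide +kernel)
             (CovZ.leaf K2_ok TB_l34489 _)
             (CovZ.n1 (-15288, 16104) (by decide +kernel)
              (CovZ.leaf K2_ok TB_l34490 _)
              (CovZ.leaf K2_ok TB_l34491 _)))))
          (CovZ.subM 661055968790549799538156052144573855128530693664535297770619968450768090325351977759383745364980362714842227311469431620352 (by decide +kernel)
           (CovZ.n1 (-15168, 16032) (by decide +kernel)
            (CovZ.n2 (-15216, 15984) (by decide +kernel)
             (CovZ.n2 (-15216, 16032) (by decide +kernel)
              (CovZ.n2 (-15192, 16008) (by decide +kernel)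
               (CovZ.leaf K2_ok TB_l34492 _)
               (CovZ.n1 (-15192, 16032) (by decide +kernel)
                (CovZ.leaf K2_ok TB_l34493 _)
                (CovZ.leaf K2_ok TB_l34494 _)))
              (CovZ.n1 (-15240, 16008) (by decide +kernel)
               (CovZ.n2 (-15240, 16032) (by decide +kernel)
                (CovZ.leaf K2_ok TB_l34495 _)
                (CovZ.leaf K2_ok TB_l34496 _))
               (CovZ.leaf K2_ok TB_l34497 _)))
             (CovZ.n1 (-15168, 15984) (by decide +kernel)
              (CovZ.n2 (-15192, 15960) (by decide +kernel)
               (CovZ.n2 (-15192, 15984) (by decide +kernel)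
                (CovZ.leaf K2_ok TB_l34498 _)
                (CovZ.leaf K2_ok TB_l34499 _))
               (CovZ.n1 (-15168, 15960) (by decide +kernel)
                (CovZ.leaf K2_ok TB_l34500 _)
                (CovZ.leaf K2_ok TB_l34501 _)))
              (CovZ.n1 (-15192, 16008) (by decide +kernel)
               (CovZ.n2 (-15168, 16008) (by decide +kernel)
                (CovZ.leaf K2_ok TB_l34502 _)
                (CovZ.leaf K2_ok TB_l34503 _))
               (CovZ.n1 (-15192, 15984) (by decide +kernel)
                (CovZ.leaf K2_ok TB_l34504 _)
                (CovZ.leaf K2_ok TB_l34505 _)))))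
            (CovZ.n1 (-15216, 16080) (by decide +kernel)
             (CovZ.n2 (-15168, 16080) (by decide +kernel)
              (CovZ.n2 (-15192, 16056) (by decide +kernel)
               (CovZ.n2 (-15192, 16080) (by decide +kernel)
                (CovZ.leaf K2_ok TB_l34506 _)
                (CovZ.leaf K2_ok TB_l34507 _))
               (CovZ.n1 (-15168, 16056) (by decide +kernel)
                (CovZ.leaf K2_ok TB_l34508 _)
                (CovZ.leaf K2_ok TB_l34509 _)))
              (CovZ.n1 (-15192, 16104) (by decide +kernel)
               (CovZ.n2 (-15168, 16104) (by decide +kernel)
                (CovZ.leaf K2_ok TB_l34510 _)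
                (CovZ.leaf K2_ok TB_l34511 _))
               (CovZ.leaf K2_ok TB_l34512 _)))
             (CovZ.n1 (-15216, 16032) (by decide +kernel)
              (CovZ.n2 (-15240, 16056) (by decide +kernel)
               (CovZ.leaf K2_ok TB_l34513 _)
               (CovZ.leaf K2_ok TB_l34514 _))
              (CovZ.n1 (-15192, 16056) (by decide +kernel)
               (CovZ.n2 (-15192, 16032) (by decide +kernel)
                (CovZ.leaf K2_ok TB_l34515 _)
                (CovZ.leaf K2_ok TB_l34516 _))
               (CovZ.leaf K2_ok TB_l34517 _)))))))

theorem TB_u397 : CovZ TB_M (toL (selN TB_LN 661055968790549799538156052144247929372317175890732346460474050141108348044893787049137954190133566533794736135938265580288)) [0, 7, 6, 1] (-14976, 15744) (-14976, 15936) (-15168, 15936) :=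
    (CovZ.n2 (-15072, 15840) (by decide +kernel)
           (CovZ.n2 (-15072, 15936) (by decide +kernel)
            (CovZ.subM 2475880078570760549798248448 (by decide +kernel)
             (CovZ.n2 (-15024, 15888) (by decide +kernel)
              (CovZ.n2 (-15072, 15888) (by decide +kernel)
               (CovZ.n2 (-15048, 15912) (by decide +kernel)
                (CovZ.badM (by decide +kernel))
                (CovZ.n1 (-15072, 15912) (by decide +kernel)
                 (CovZ.n2 (-15060, 15924) (by decide +kernel)
                  (CovZ.n2 (-15060, 15912) (by decide +kernel)
                   (CovZ.leaf K2_ok TB_l46338 _)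
                   (CovZ.badM (by decide +kernel)))
                  (CovZ.n1 (-15072, 15924) (by decide +kernel)
                   (CovZ.leaf K2_ok TB_l46339 _)
                   (CovZ.leaf K2_ok TB_l46340 _)))
                 (CovZ.n1 (-15060, 15900) (by decide +kernel)
                  (CovZ.n2 (-15072, 15900) (by decide +kernel)
                   (CovZ.leaf K2_ok TB_l46341 _)
                   (CovZ.badM (by decide +kernel)))
                  (CovZ.n1 (-15060, 15912) (by decide +kernel)
                   (CovZ.badM (by decide +kernel))
                   (CovZ.leaf K2_ok TB_l46343 _)))))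
               (CovZ.badM (by decide +kernel)))
              (CovZ.n1 (-15024, 15936) (by decide +kernel)
               (CovZ.badM (by decide +kernel))
               (CovZ.n1 (-15048, 15912) (by decide +kernel)
                (CovZ.n2 (-15048, 15936) (by decide +kernel)
                 (CovZ.badM (by decide +kernel))
                 (CovZ.n1 (-15060, 15924) (by decide +kernel)
                  (CovZ.n2 (-15060, 15936) (by decide +kernel)
                   (CovZ.leaf K2_ok TB_l46347 _)
                   (CovZ.leaf K2_ok TB_l46348 _))
                  (CovZ.badM (by decide +kernel))))
                (CovZ.badM (by decide +kernel))))))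
            (CovZ.n1 (-15120, 15888) (by decide +kernel)
             (CovZ.n2 (-15120, 15936) (by decide +kernel)
              (CovZ.n2 (-15096, 15912) (by decide +kernel)
               (CovZ.n2 (-15120, 15912) (by decide +kernel)
                (CovZ.n2 (-15108, 15924) (by decide +kernel)
                 (CovZ.leaf K2_ok TB_l46349 _)
                 (CovZ.leaf K2_ok TB_l46350 _))
                (CovZ.n1 (-15108, 15900) (by decide +kernel)
                 (CovZ.leaf K2_ok TB_l46351 _)
                 (CovZ.leaf K2_ok TB_l46352 _)))
               (CovZ.n1 (-15096, 15936) (by decide +kernel)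
                (CovZ.n2 (-15084, 15924) (by decide +kernel)
                 (CovZ.leaf K2_ok TB_l46353 _)
                 (CovZ.n1 (-15084, 15936) (by decide +kernel)
                  (CovZ.leaf K2_ok TB_l46354 _)
                  (CovZ.leaf K2_ok TB_l46355 _)))
                (CovZ.n1 (-15108, 15924) (by decide +kernel)
                 (CovZ.leaf K2_ok TB_l46356 _)
                 (CovZ.leaf K2_ok TB_l46357 _))))
              (CovZ.n1 (-15144, 15912) (by decide +kernel)
               (CovZ.n2 (-15144, 15936) (by decide +kernel)
                (CovZ.n2 (-15132, 15924) (by decide +kernel)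
                 (CovZ.leaf K2_ok TB_l34518 _)
                 (CovZ.leaf K2_ok TB_l34519 _))
                (CovZ.n1 (-15156, 15924) (by decide +kernel)
                 (CovZ.leaf K2_ok TB_l34520 _)
                 (CovZ.leaf K2_ok TB_l34521 _)))
               (CovZ.n1 (-15120, 15912) (by decide +kernel)
                (CovZ.leaf K2_ok TB_l34522 _)
                (CovZ.n1 (-15132, 15924) (by decide +kernel)
                 (CovZ.leaf K2_ok TB_l46358 _)
                 (CovZ.leaf K2_ok TB_l34523 _)))))
             (CovZ.subM 587135645693458306972370149197334256843920637227130184490705836875536644481101079706829690709924481855389952 (by decide +kernel)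
              (CovZ.n1 (-15072, 15888) (by decide +kernel)
               (CovZ.n2 (-15096, 15864) (by decide +kernel)
                (CovZ.n2 (-15096, 15888) (by decide +kernel)
                 (CovZ.n2 (-15084, 15876) (by decide +kernel)
                  (CovZ.leaf K2_ok TB_l46359 _)
                  (CovZ.n1 (-15084, 15888) (by decide +kernel)
                   (CovZ.leaf K2_ok TB_l46360 _)
                   (CovZ.leaf K2_ok TB_l46361 _)))
                 (CovZ.n1 (-15108, 15876) (by decide +kernel)
                  (CovZ.n2 (-15108, 15888) (by decide +kernel)
                   (CovZ.leaf K2_ok TB_l46362 _)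
                   (CovZ.leaf K2_ok TB_l46363 _))
                  (CovZ.n1 (-15096, 15876) (by decide +kernel)
                   (CovZ.leaf K2_ok TB_l46364 _)
                   (CovZ.leaf K2_ok TB_l46365 _))))
                (CovZ.subM 2475880078570760549798248448 (by decide +kernel)
                 (CovZ.n1 (-15072, 15864) (by decide +kernel)
                  (CovZ.n2 (-15084, 15852) (by decide +kernel)
                   (CovZ.n2 (-15084, 15864) (by decide +kernel)
                    (CovZ.badM (by decide +kernel))
                    (CovZ.leaf K2_ok TB_l46367 _))
                   (CovZ.badM (by decide +kernel)))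
                  (CovZ.n1 (-15084, 15876) (by decide +kernel)
                   (CovZ.badM (by decide +kernel))
                   (CovZ.leaf K2_ok TB_l46370 _)))))
               (CovZ.n1 (-15096, 15912) (by decide +kernel)
                (CovZ.n2 (-15072, 15912) (by decide +kernel)
                 (CovZ.n2 (-15084, 15900) (by decide +kernel)
                  (CovZ.n2 (-15084, 15912) (by decide +kernel)
                   (CovZ.leaf K2_ok TB_l46371 _)
                   (CovZ.leaf K2_ok TB_l46372 _))
                  (CovZ.leaf K2_ok TB_l46373 _))
                 (CovZ.n1 (-15084, 15924) (by decide +kernel)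
                  (CovZ.n2 (-15072, 15924) (by decide +kernel)
                   (CovZ.leaf K2_ok TB_l46374 _)
                   (CovZ.leaf K2_ok TB_l46375 _))
                  (CovZ.leaf K2_ok TB_l46376 _)))
                (CovZ.n1 (-15096, 15888) (by decide +kernel)
                 (CovZ.n2 (-15108, 15900) (by decide +kernel)
                  (CovZ.leaf K2_ok TB_l46377 _)
                  (CovZ.leaf K2_ok TB_l46378 _))
                 (CovZ.n1 (-15084, 15900) (by decide +kernel)
                  (CovZ.n2 (-15084, 15888) (by decide +kernel)
                   (CovZ.leaf K2_ok TB_l46379 _)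
                   (CovZ.leaf K2_ok TB_l46380 _))
                  (CovZ.leaf K2_ok TB_l46381 _))))))))
           (CovZ.badM (by decide +kernel)))

theorem TB_u398 : CovZ TB_M (toL (selN TB_LN 661055968790549799538156052144247929372317175890732346460474050141108348044893787049137954190133566533794736135938265580288)) [0, 7, 6, 1] (-14976, 15936) (-14976, 16128) (-15168, 15936) :=
    (CovZ.n1 (-15072, 16032) (by decide +kernel)
           (CovZ.subM 300613450595050653169917173763295592194283255188027786734879985838833397430977557187719035816503730605484146688 (by decide +kernel)
            (CovZ.n2 (-14976, 16032) (by decide +kernel)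
             (CovZ.n2 (-15024, 15984) (by decide +kernel)
              (CovZ.n2 (-15024, 16032) (by decide +kernel)
               (CovZ.badM (by decide +kernel))
               (CovZ.n1 (-15048, 16008) (by decide +kernel)
                (CovZ.n2 (-15048, 16032) (by decide +kernel)
                 (CovZ.n2 (-15036, 16020) (by decide +kernel)
                  (CovZ.leaf K2_ok TB_l46382 _)
                  (CovZ.n1 (-15036, 16032) (by decide +kernel)
                   (CovZ.leaf K2_ok TB_l46383 _)
                   (CovZ.leaf K2_ok TB_l46384 _)))
                 (CovZ.n1 (-15060, 16020) (by decide +kernel)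
                  (CovZ.leaf K2_ok TB_l46385 _)
                  (CovZ.leaf K2_ok TB_l46386 _)))
                (CovZ.subM 178411406111308021957998506128203229134061568 (by decide +kernel)
                 (CovZ.n1 (-15024, 16008) (by decide +kernel)
                  (CovZ.n2 (-15036, 15996) (by decide +kernel)
                   (CovZ.n2 (-15036, 16008) (by decide +kernel)
                    (CovZ.badM (by decide +kernel))
                    (CovZ.leaf K2_ok TB_l46387 _))
                   (CovZ.badM (by decide +kernel)))
                  (CovZ.n1 (-15036, 16020) (by decide +kernel)
                   (CovZ.n2 (-15024, 16020) (by decide +kernel)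
                    (CovZ.leaf K2_ok TB_l46388 _)
                    (CovZ.leaf K2_ok TB_l46389 _))
                   (CovZ.n1 (-15036, 16008) (by decide +kernel)
                    (CovZ.leaf K2_ok TB_l46390 _)
                    (CovZ.leaf K2_ok TB_l46391 _)))))))
              (CovZ.badM (by decide +kernel)))
             (CovZ.n1 (-15024, 16080) (by decide +kernel)
              (CovZ.subM 1962471022154719075895435624424517535818317824 (by decide +kernel)
               (CovZ.n2 (-14976, 16080) (by decide +kernel)
                (CovZ.n2 (-15000, 16056) (by decide +kernel)
                 (CovZ.n2 (-15000, 16080) (by decide +kernel)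
                  (CovZ.badM (by decide +kernel))
                  (CovZ.n1 (-15012, 16068) (by decide +kernel)
                   (CovZ.n2 (-15012, 16080) (by decide +kernel)
                    (CovZ.leaf K2_ok TB_l46392 _)
                    (CovZ.leaf K2_ok TB_l46393 _))
                   (CovZ.leaf K2_ok TB_l46394 _)))
                 (CovZ.badM (by decide +kernel)))
                (CovZ.n1 (-15000, 16104) (by decide +kernel)
                 (CovZ.subM 1427247692872113380531400453562471018917789696 (by decide +kernel)
                  (CovZ.n2 (-14976, 16104) (by decide +kernel)
                   (CovZ.n2 (-14988, 16092) (by decide +kernel)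
                    (CovZ.n2 (-14988, 16104) (by decide +kernel)
                     (CovZ.badM (by decide +kernel))
                     (CovZ.leaf K2_ok TB_l46395 _))
                    (CovZ.badM (by decide +kernel)))
                   (CovZ.n1 (-14988, 16116) (by decide +kernel)
                    (CovZ.n2 (-14976, 16116) (by decide +kernel)
                     (CovZ.leaf K2_ok TB_l46396 _)
                     (CovZ.leaf K2_ok TB_l46397 _))
                    (CovZ.n1 (-14988, 16104) (by decide +kernel)
                     (CovZ.leaf K2_ok TB_l46398 _)
                     (CovZ.leaf K2_ok TB_l46399 _)))))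
                 (CovZ.n1 (-15000, 16080) (by decide +kernel)
                  (CovZ.n2 (-15012, 16092) (by decide +kernel)
                   (CovZ.leaf K2_ok TB_l46400 _)
                   (CovZ.n1 (-15012, 16080) (by decide +kernel)
                    (CovZ.leaf K2_ok TB_l46401 _)
                    (CovZ.leaf K2_ok TB_l46402 _)))
                  (CovZ.n1 (-14988, 16092) (by decide +kernel)
                   (CovZ.badM (by decide +kernel))
                   (CovZ.leaf K2_ok TB_l46403 _))))))
              (CovZ.n1 (-15024, 16032) (by decide +kernel)
               (CovZ.n2 (-15048, 16056) (by decide +kernel)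
                (CovZ.n2 (-15024, 16056) (by decide +kernel)
                 (CovZ.n2 (-15036, 16044) (by decide +kernel)
                  (CovZ.n2 (-15036, 16056) (by decide +kernel)
                   (CovZ.leaf K2_ok TB_l46404 _)
                   (CovZ.leaf K2_ok TB_l46405 _))
                  (CovZ.leaf K2_ok TB_l46406 _))
                 (CovZ.n1 (-15036, 16068) (by decide +kernel)
                  (CovZ.n2 (-15024, 16068) (by decide +kernel)
                   (CovZ.leaf K2_ok TB_l46407 _)
                   (CovZ.leaf K2_ok TB_l46408 _))
                  (CovZ.leaf K2_ok TB_l46409 _)))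
                (CovZ.n1 (-15048, 16032) (by decide +kernel)
                 (CovZ.n2 (-15060, 16044) (by decide +kernel)
                  (CovZ.leaf K2_ok TB_l46410 _)
                  (CovZ.leaf K2_ok TB_l46411 _))
                 (CovZ.n1 (-15036, 16044) (by decide +kernel)
                  (CovZ.leaf K2_ok TB_l46412 _)
                  (CovZ.leaf K2_ok TB_l46413 _))))
               (CovZ.subM 1962471022154719075895435624424517535818317824 (by decide +kernel)
                (CovZ.n1 (-15000, 16056) (by decide +kernel)
                 (CovZ.badM (by decide +kernel))
                 (CovZ.n1 (-15024, 16056) (by decide +kernel)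
                  (CovZ.n2 (-15012, 16068) (by decide +kernel)
                   (CovZ.n2 (-15012, 16056) (by decide +kernel)
                    (CovZ.leaf K2_ok TB_l46414 _)
                    (CovZ.leaf K2_ok TB_l46415 _))
                   (CovZ.leaf K2_ok TB_l46416 _))
                  (CovZ.n1 (-15012, 16044) (by decide +kernel)
                   (CovZ.leaf K2_ok TB_l46417 _)
                   (CovZ.n1 (-15012, 16056) (by decide +kernel)
                    (CovZ.badM (by decide +kernel))
                    (CovZ.leaf K2_ok TB_l46418 _))))))))))
           (CovZ.n1 (-15072, 15936) (by decide +kernel)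
            (CovZ.n2 (-15120, 15984) (by decide +kernel)
             (CovZ.n2 (-15072, 15984) (by decide +kernel)
              (CovZ.n2 (-15096, 15960) (by decide +kernel)
               (CovZ.n2 (-15096, 15984) (by decide +kernel)
                (CovZ.n2 (-15084, 15972) (by decide +kernel)
                 (CovZ.leaf K2_ok TB_l46419 _)
                 (CovZ.n1 (-15084, 15984) (by decide +kernel)
                  (CovZ.leaf K2_ok TB_l46420 _)
                  (CovZ.leaf K2_ok TB_l46421 _)))
                (CovZ.n1 (-15108, 15972) (by decide +kernel)
                 (CovZ.leaf K2_ok TB_l34524 _)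
                 (CovZ.leaf K2_ok TB_l46422 _)))
               (CovZ.subM 50216813883095408581708475297037799119683900649885912793088 (by decide +kernel)
                (CovZ.n1 (-15072, 15960) (by decide +kernel)
                 (CovZ.n2 (-15084, 15948) (by decide +kernel)
                  (CovZ.n2 (-15084, 15960) (by decide +kernel)
                   (CovZ.leaf K2_ok TB_l46423 _)
                   (CovZ.leaf K2_ok TB_l46424 _))
                  (CovZ.n1 (-15072, 15948) (by decide +kernel)
                   (CovZ.leaf K2_ok TB_l46425 _)
                   (CovZ.leaf K2_ok TB_l46426 _)))
                 (CovZ.n1 (-15084, 15972) (by decide +kernel)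
                  (CovZ.leaf K2_ok TB_l46427 _)
                  (CovZ.leaf K2_ok TB_l46428 _)))))
              (CovZ.n1 (-15096, 16008) (by decide +kernel)
               (CovZ.n2 (-15072, 16008) (by decide +kernel)
                (CovZ.n2 (-15084, 15996) (by decide +kernel)
                 (CovZ.leaf K2_ok TB_l46429 _)
                 (CovZ.n1 (-15072, 15996) (by decide +kernel)
                  (CovZ.leaf K2_ok TB_l46430 _)
                  (CovZ.leaf K2_ok TB_l46431 _)))
                (CovZ.n1 (-15084, 16020) (by decide +kernel)
                 (CovZ.leaf K2_ok TB_l46432 _)
                 (CovZ.leaf K2_ok TB_l46433 _)))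
               (CovZ.n1 (-15096, 15984) (by decide +kernel)
                (CovZ.n2 (-15108, 15996) (by decide +kernel)
                 (CovZ.leaf K2_ok TB_l34525 _)
                 (CovZ.leaf K2_ok TB_l34526 _))
                (CovZ.n1 (-15084, 15996) (by decide +kernel)
                 (CovZ.leaf K2_ok TB_l46434 _)
                 (CovZ.leaf K2_ok TB_l46435 _)))))
             (CovZ.n1 (-15120, 15936) (by decide +kernel)
              (CovZ.n2 (-15144, 15960) (by decide +kernel)
               (CovZ.n2 (-15120, 15960) (by decide +kernel)
                (CovZ.n2 (-15132, 15948) (by decide +kernel)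
                 (CovZ.leaf K2_ok TB_l34527 _)
                 (CovZ.leaf K2_ok TB_l34528 _))
                (CovZ.leaf K2_ok TB_l34529 _))
               (CovZ.n1 (-15144, 15936) (by decide +kernel)
                (CovZ.leaf K2_ok TB_l34530 _)
                (CovZ.leaf K2_ok TB_l34531 _)))
              (CovZ.n1 (-15096, 15960) (by decide +kernel)
               (CovZ.n2 (-15096, 15936) (by decide +kernel)
                (CovZ.n2 (-15108, 15948) (by decide +kernel)
                 (CovZ.leaf K2_ok TB_l46436 _)
                 (CovZ.leaf K2_ok TB_l46437 _))
                (CovZ.n1 (-15084, 15948) (by decide +kernel)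
                 (CovZ.n2 (-15084, 15936) (by decide +kernel)
                  (CovZ.leaf K2_ok TB_l46438 _)
                  (CovZ.leaf K2_ok TB_l46439 _))
                 (CovZ.leaf K2_ok TB_l46440 _)))
               (CovZ.n1 (-15120, 15960) (by decide +kernel)
                (CovZ.n2 (-15108, 15972) (by decide +kernel)
                 (CovZ.leaf K2_ok TB_l46441 _)
                 (CovZ.leaf K2_ok TB_l34532 _))
                (CovZ.n1 (-15108, 15948) (by decide +kernel)
                 (CovZ.leaf K2_ok TB_l34533 _)
                 (CovZ.n1 (-15108, 15960) (by decide +kernel)
                  (CovZ.leaf K2_ok TB_l46442 _)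
                  (CovZ.leaf K2_ok TB_l46443 _)))))))
            (CovZ.n1 (-15024, 15984) (by decide +kernel)
             (CovZ.subM 2475880078570760549798248448 (by decide +kernel)
              (CovZ.n2 (-15024, 15936) (by decide +kernel)
               (CovZ.n2 (-15048, 15960) (by decide +kernel)
                (CovZ.badM (by decide +kernel))
                (CovZ.n1 (-15048, 15936) (by decide +kernel)
                 (CovZ.n2 (-15060, 15948) (by decide +kernel)
                  (CovZ.badM (by decide +kernel))
                  (CovZ.n1 (-15060, 15936) (by decide +kernel)
                   (CovZ.leaf K2_ok TB_l46444 _)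
                   (CovZ.badM (by decide +kernel))))
                 (CovZ.badM (by decide +kernel))))
               (CovZ.badM (by decide +kernel))))
             (CovZ.n1 (-15072, 15984) (by decide +kernel)
              (CovZ.subM 300613450595050653169917173763295592194283255188027786734879985838833397430977557187719035816503730605484146688 (by decide +kernel)
               (CovZ.n2 (-15048, 16008) (by decide +kernel)
                (CovZ.n2 (-15048, 15984) (by decide +kernel)
                 (CovZ.n2 (-15060, 15996) (by decide +kernel)
                  (CovZ.n2 (-15048, 15996) (by decide +kernel)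
                   (CovZ.leaf K2_ok TB_l46445 _)
                   (CovZ.leaf K2_ok TB_l46446 _))
                  (CovZ.n1 (-15060, 15984) (by decide +kernel)
                   (CovZ.leaf K2_ok TB_l46447 _)
                   (CovZ.leaf K2_ok TB_l46448 _)))
                 (CovZ.n1 (-15036, 15996) (by decide +kernel)
                  (CovZ.badM (by decide +kernel))
                  (CovZ.leaf K2_ok TB_l46449 _)))
                (CovZ.n1 (-15072, 16008) (by decide +kernel)
                 (CovZ.n2 (-15060, 16020) (by decide +kernel)
                  (CovZ.n2 (-15060, 16008) (by decide +kernel)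
                   (CovZ.leaf K2_ok TB_l46450 _)
                   (CovZ.leaf K2_ok TB_l46451 _))
                  (CovZ.leaf K2_ok TB_l46452 _))
                 (CovZ.n1 (-15060, 15996) (by decide +kernel)
                  (CovZ.leaf K2_ok TB_l46453 _)
                  (CovZ.n1 (-15060, 16008) (by decide +kernel)
                   (CovZ.leaf K2_ok TB_l46454 _)
                   (CovZ.leaf K2_ok TB_l46455 _))))))
              (CovZ.subM 50216813883095408581708475297037799119683900649885912793088 (by decide +kernel)
               (CovZ.n1 (-15048, 15960) (by decide +kernel)
                (CovZ.n2 (-15072, 15960) (by decide +kernel)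
                 (CovZ.n2 (-15060, 15972) (by decide +kernel)
                  (CovZ.n2 (-15060, 15960) (by decide +kernel)
                   (CovZ.leaf K2_ok TB_l46456 _)
                   (CovZ.leaf K2_ok TB_l46457 _))
                  (CovZ.leaf K2_ok TB_l46458 _))
                 (CovZ.n1 (-15060, 15948) (by decide +kernel)
                  (CovZ.leaf K2_ok TB_l46459 _)
                  (CovZ.n1 (-15060, 15960) (by decide +kernel)
                   (CovZ.badM (by decide +kernel))
                   (CovZ.leaf K2_ok TB_l46460 _))))
                (CovZ.n1 (-15048, 15984) (by decide +kernel)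
                 (CovZ.badM (by decide +kernel))
                 (CovZ.n1 (-15060, 15972) (by decide +kernel)
                  (CovZ.n2 (-15060, 15984) (by decide +kernel)
                   (CovZ.leaf K2_ok TB_l46461 _)
                   (CovZ.leaf K2_ok TB_l46462 _))
                  (CovZ.leaf K2_ok TB_l46463 _)))))))))

theorem TB_u399 : CovZ TB_M (toL (selN TB_LN 21662143041287656644952993094196621173948096605418733204202076764465711507337183898636845412613227788693841369552371050617111360)) [0, 7, 6, 1] (-15360, 16896) (-15360, 16128) (-14592, 16128) :=
    (CovZ.n2 (-14976, 16512) (by decide +kernel)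
      (CovZ.n2 (-14976, 16128) (by decide +kernel)
       (CovZ.n2 (-15168, 16320) (by decide +kernel)
        (CovZ.n2 (-14976, 16320) (by decide +kernel)
         TB_u383
         TB_u384)
        (CovZ.n1 (-15168, 16128) (by decide +kernel)
         (CovZ.n2 (-15264, 16224) (by decide +kernel)
          (CovZ.n2 (-15168, 16224) (by decide +kernel)
           (CovZ.n2 (-15216, 16176) (by decide +kernel)
            (CovZ.n2 (-15216, 16224) (by decide +kernel)
             (CovZ.n2 (-15192, 16200) (by decide +kernel)
              (CovZ.leaf K2_ok TB_l33858 _)
              (CovZ.leaf K2_ok TB_l33859 _))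
             (CovZ.n1 (-15240, 16200) (by decide +kernel)
              (CovZ.leaf K2_ok TB_l33860 _)
              (CovZ.leaf K2_ok TB_l33861 _)))
            (CovZ.n1 (-15168, 16176) (by decide +kernel)
             (CovZ.n2 (-15192, 16152) (by decide +kernel)
              (CovZ.leaf K2_ok TB_l33862 _)
              (CovZ.leaf K2_ok TB_l33863 _))
             (CovZ.n1 (-15192, 16200) (by decide +kernel)
              (CovZ.leaf K2_ok TB_l33864 _)
              (CovZ.leaf K2_ok TB_l33865 _))))
           (CovZ.n1 (-15216, 16272) (by decide +kernel)
            (CovZ.subM 661055968790549799538156052144573855128530693664535297770619968450768090325351977760744874832661640688617154980646840435456 (by decide +kernel)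
             (CovZ.n2 (-15168, 16272) (by decide +kernel)
              (CovZ.n2 (-15192, 16248) (by decide +kernel)
               (CovZ.leaf K2_ok TB_l33866 _)
               (CovZ.leaf K2_ok TB_l33867 _))
              (CovZ.n1 (-15192, 16296) (by decide +kernel)
               (CovZ.leaf K2_ok TB_l33868 _)
               (CovZ.leaf K2_ok TB_l33869 _))))
            (CovZ.n1 (-15216, 16224) (by decide +kernel)
             (CovZ.leaf K2_ok TB_l33870 _)
             (CovZ.n1 (-15192, 16248) (by decide +kernel)
              (CovZ.leaf K2_ok TB_l33871 _)
              (CovZ.leaf K2_ok TB_l33872 _)))))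
          (CovZ.n1 (-15264, 16128) (by decide +kernel)
           (CovZ.n2 (-15312, 16176) (by decide +kernel)
            (CovZ.n2 (-15264, 16176) (by decide +kernel)
             (CovZ.leaf K2_ok TB_l33873 _)
             (CovZ.leaf K2_ok TB_l33874 _))
            (CovZ.n1 (-15312, 16128) (by decide +kernel)
             (CovZ.leaf K2_ok TB_l33875 _)
             (CovZ.leaf K2_ok TB_l33876 _)))
           (CovZ.n1 (-15216, 16176) (by decide +kernel)
            (CovZ.n2 (-15216, 16128) (by decide +kernel)
             (CovZ.n2 (-15240, 16152) (by decide +kernel)
              (CovZ.leaf K2_ok TB_l33877 _)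
              (CovZ.leaf K2_ok TB_l33878 _))
             (CovZ.n1 (-15192, 16152) (by decide +kernel)
              (CovZ.leaf K2_ok TB_l33879 _)
              (CovZ.leaf K2_ok TB_l33880 _)))
            (CovZ.n1 (-15264, 16176) (by decide +kernel)
             (CovZ.leaf K2_ok TB_l33881 _)
             (CovZ.n1 (-15240, 16152) (by decide +kernel)
              (CovZ.leaf K2_ok TB_l33882 _)
              (CovZ.leaf K2_ok TB_l33883 _))))))
         (CovZ.n1 (-15072, 16224) (by decide +kernel)
          (CovZ.subM 661055968790549799538156052144573855128530693664535297770619968450768090325351977759383745364977886815864967247395607806720 (by decide +kernel)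
           (CovZ.n2 (-15072, 16128) (by decide +kernel)
            (CovZ.n2 (-15120, 16176) (by decide +kernel)
             (CovZ.n2 (-15072, 16176) (by decide +kernel)
              (CovZ.n2 (-15096, 16152) (by decide +kernel)
               (CovZ.n2 (-15096, 16176) (by decide +kernel)
                (CovZ.leaf K2_ok TB_l33884 _)
                (CovZ.leaf K2_ok TB_l33885 _))
               (CovZ.n1 (-15072, 16152) (by decide +kernel)
                (CovZ.leaf K2_ok TB_l33886 _)
                (CovZ.leaf K2_ok TB_l33887 _)))
              (CovZ.n1 (-15096, 16200) (by decide +kernel)
               (CovZ.n2 (-15072, 16200) (by decide +kernel)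
                (CovZ.leaf K2_ok TB_l33888 _)
                (CovZ.leaf K2_ok TB_l33889 _))
               (CovZ.n1 (-15096, 16176) (by decide +kernel)
                (CovZ.leaf K2_ok TB_l33890 _)
                (CovZ.leaf K2_ok TB_l33891 _))))
             (CovZ.n1 (-15120, 16128) (by decide +kernel)
              (CovZ.n2 (-15144, 16152) (by decide +kernel)
               (CovZ.leaf K2_ok TB_l33892 _)
               (CovZ.n1 (-15144, 16128) (by decide +kernel)
                (CovZ.leaf K2_ok TB_l33893 _)
                (CovZ.leaf K2_ok TB_l33894 _)))
              (CovZ.n1 (-15096, 16152) (by decide +kernel)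
               (CovZ.n2 (-15096, 16128) (by decide +kernel)
                (CovZ.leaf K2_ok TB_l33895 _)
                (CovZ.leaf K2_ok TB_l33896 _))
               (CovZ.n1 (-15120, 16152) (by decide +kernel)
                (CovZ.leaf K2_ok TB_l33897 _)
                (CovZ.leaf K2_ok TB_l33898 _)))))
            (CovZ.n1 (-15024, 16176) (by decide +kernel)
             (CovZ.n2 (-15024, 16128) (by decide +kernel)
              (CovZ.n2 (-15048, 16152) (by decide +kernel)
               (CovZ.n2 (-15024, 16152) (by decide +kernel)
                (CovZ.n2 (-15036, 16140) (by decide +kernel)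
                 (CovZ.leaf K2_ok TB_l45975 _)
                 (CovZ.leaf K2_ok TB_l45976 _))
                (CovZ.leaf K2_ok TB_l45977 _))
               (CovZ.n1 (-15048, 16128) (by decide +kernel)
                (CovZ.n2 (-15060, 16140) (by decide +kernel)
                 (CovZ.leaf K2_ok TB_l33899 _)
                 (CovZ.leaf K2_ok TB_l33900 _))
                (CovZ.n1 (-15036, 16140) (by decide +kernel)
                 (CovZ.leaf K2_ok TB_l45978 _)
                 (CovZ.leaf K2_ok TB_l45979 _))))
              (CovZ.subM 300613450595050653169917173763295592194283255188027786734879985838833397473507660755977808926408712056553340928 (by decide +kernel)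
               (CovZ.n1 (-15000, 16152) (by decide +kernel)
                (CovZ.n2 (-15000, 16128) (by decide +kernel)
                 (CovZ.n2 (-15012, 16140) (by decide +kernel)
                  (CovZ.leaf K2_ok TB_l45980 _)
                  (CovZ.leaf K2_ok TB_l45981 _))
                 (CovZ.n1 (-14988, 16140) (by decide +kernel)
                  (CovZ.n2 (-14988, 16128) (by decide +kernel)
                   (CovZ.leaf K2_ok TB_l45982 _)
                   (CovZ.leaf K2_ok TB_l45983 _))
                  (CovZ.leaf K2_ok TB_l45984 _)))
                (CovZ.n1 (-15024, 16152) (by decide +kernel)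
                 (CovZ.n2 (-15012, 16164) (by decide +kernel)
                  (CovZ.leaf K2_ok TB_l45985 _)
                  (CovZ.leaf K2_ok TB_l45986 _))
                 (CovZ.n1 (-15012, 16140) (by decide +kernel)
                  (CovZ.leaf K2_ok TB_l45987 _)
                  (CovZ.n1 (-15012, 16152) (by decide +kernel)
                   (CovZ.leaf K2_ok TB_l45988 _)
                   (CovZ.leaf K2_ok TB_l45989 _)))))))
             (CovZ.n1 (-15072, 16176) (by decide +kernel)
              (CovZ.n2 (-15048, 16200) (by decide +kernel)
               (CovZ.n2 (-15048, 16176) (by decide +kernel)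
                (CovZ.leaf K2_ok TB_l33901 _)
                (CovZ.leaf K2_ok TB_l33902 _))
               (CovZ.n1 (-15072, 16200) (by decide +kernel)
                (CovZ.leaf K2_ok TB_l33903 _)
                (CovZ.leaf K2_ok TB_l33904 _)))
              (CovZ.n1 (-15048, 16152) (by decide +kernel)
               (CovZ.n2 (-15072, 16152) (by decide +kernel)
                (CovZ.leaf K2_ok TB_l33905 _)
                (CovZ.n1 (-15060, 16140) (by decide +kernel)
                 (CovZ.leaf K2_ok TB_l33906 _)
                 (CovZ.leaf K2_ok TB_l33907 _)))
               (CovZ.n1 (-15048, 16176) (by decide +kernel)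
                (CovZ.n2 (-15036, 16164) (by decide +kernel)
                 (CovZ.leaf K2_ok TB_l33908 _)
                 (CovZ.leaf K2_ok TB_l33909 _))
                (CovZ.leaf K2_ok TB_l33910 _)))))))
          (CovZ.n1 (-15168, 16224) (by decide +kernel)
           (CovZ.n2 (-15120, 16272) (by decide +kernel)
            (CovZ.subM 661055968790549799538156052144573855128530693664535297770619968450768096311662684266762098327270961640658905061610873684736 (by decide +kernel)
             (CovZ.n2 (-15120, 16224) (by decide +kernel)
              (CovZ.n2 (-15144, 16248) (by decide +kernel)
               (CovZ.leaf K2_ok TB_l33911 _)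
               (CovZ.leaf K2_ok TB_l33912 _))
              (CovZ.n1 (-15096, 16248) (by decide +kernel)
               (CovZ.n2 (-15096, 16224) (by decide +kernel)
                (CovZ.leaf K2_ok TB_l33913 _)
                (CovZ.leaf K2_ok TB_l33914 _))
               (CovZ.leaf K2_ok TB_l33915 _))))
            (CovZ.subM 661055968790549799538156052144573855128530693664535297770619968450768090325351977760744874832661640688617154980646840435456 (by decide +kernel)
             (CovZ.n1 (-15168, 16272) (by decide +kernel)
              (CovZ.n2 (-15144, 16296) (by decide +kernel)
               (CovZ.leaf K2_ok TB_l33916 _)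
               (CovZ.leaf K2_ok TB_l33917 _))
              (CovZ.n1 (-15144, 16248) (by decide +kernel)
               (CovZ.leaf K2_ok TB_l33918 _)
               (CovZ.n1 (-15144, 16272) (by decide +kernel)
                (CovZ.leaf K2_ok TB_l33919 _)
                (CovZ.leaf K2_ok TB_l33920 _))))))
           (CovZ.subM 661055968790549799538156052144573855128530693664535297770619968450768096311662684266762098327270961640658905061610873684736 (by decide +kernel)
            (CovZ.n1 (-15120, 16176) (by decide +kernel)
             (CovZ.n2 (-15168, 16176) (by decide +kernel)
              (CovZ.n2 (-15144, 16200) (by decide +kernel)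
               (CovZ.n2 (-15144, 16176) (by decide +kernel)
                (CovZ.leaf K2_ok TB_l33921 _)
                (CovZ.leaf K2_ok TB_l33922 _))
               (CovZ.leaf K2_ok TB_l33923 _))
              (CovZ.n1 (-15144, 16152) (by decide +kernel)
               (CovZ.leaf K2_ok TB_l33924 _)
               (CovZ.n1 (-15144, 16176) (by decide +kernel)
                (CovZ.leaf K2_ok TB_l33925 _)
                (CovZ.leaf K2_ok TB_l33926 _))))
             (CovZ.n1 (-15120, 16224) (by decide +kernel)
              (CovZ.n2 (-15096, 16200) (by decide +kernel)
               (CovZ.n2 (-15120, 16200) (by decide +kernel)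
                (CovZ.leaf K2_ok TB_l33927 _)
                (CovZ.leaf K2_ok TB_l33928 _))
               (CovZ.n1 (-15096, 16224) (by decide +kernel)
                (CovZ.leaf K2_ok TB_l33929 _)
                (CovZ.leaf K2_ok TB_l33930 _)))
              (CovZ.n1 (-15144, 16200) (by decide +kernel)
               (CovZ.n2 (-15144, 16224) (by decide +kernel)
                (CovZ.leaf K2_ok TB_l33931 _)
                (CovZ.leaf K2_ok TB_l33932 _))
               (CovZ.leaf K2_ok TB_l33933 _)))))))))
       (CovZ.subM 661055968790549212411469337654978099600611265452552230962469323359739011642208906156138838555606558437695173097527302947328 (by decide +kernel)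
        (CovZ.n1 (-14784, 16320) (by decide +kernel)
         (CovZ.badM (by decide +kernel))
         (CovZ.n1 (-14976, 16320) (by decide +kernel)
          TB_u385
          TB_u386))))
      (CovZ.n1 (-15360, 16512) (by decide +kernel)
       TB_u387
       TB_u388))

theorem TB_u400 : CovZ TB_M (toL (selN TB_LN 21662143041287656644952993094196621173948096605418733204202076764465711507337183898636845412613227788693841369552371050617111360)) [0, 7, 6, 1] (-15360, 16128) (-15360, 15360) (-14592, 16128) :=
    (CovZ.n1 (-14976, 15744) (by decide +kernel)
      (CovZ.n2 (-15360, 15744) (by decide +kernel)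
       (CovZ.n2 (-15168, 15936) (by decide +kernel)
        (CovZ.n2 (-15168, 15744) (by decide +kernel)
         TB_u389
         TB_u390)
        (CovZ.n1 (-15360, 15936) (by decide +kernel)
         (CovZ.n2 (-15264, 16032) (by decide +kernel)
          (CovZ.n2 (-15264, 15936) (by decide +kernel)
           (CovZ.n2 (-15312, 15984) (by decide +kernel)
            (CovZ.n2 (-15264, 15984) (by decide +kernel)
             (CovZ.n2 (-15288, 15960) (by decide +kernel)
              (CovZ.leaf K2_ok TB_l34203 _)
              (CovZ.leaf K2_ok TB_l34204 _))
             (CovZ.n1 (-15288, 16008) (by decide +kernel)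
              (CovZ.leaf K2_ok TB_l34205 _)
              (CovZ.leaf K2_ok TB_l34206 _)))
            (CovZ.n1 (-15312, 15936) (by decide +kernel)
             (CovZ.n2 (-15336, 15960) (by decide +kernel)
              (CovZ.leaf K2_ok TB_l34207 _)
              (CovZ.leaf K2_ok TB_l34208 _))
             (CovZ.n1 (-15288, 15960) (by decide +kernel)
              (CovZ.leaf K2_ok TB_l34209 _)
              (CovZ.leaf K2_ok TB_l34210 _))))
           (CovZ.subM 661055968790549799538156052144573855128530693664535297770619968450768090325351977759383745364980440086094682647736612815616 (by decide +kernel)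
            (CovZ.n1 (-15216, 15984) (by decide +kernel)
             (CovZ.n2 (-15216, 15936) (by decide +kernel)
              (CovZ.n2 (-15240, 15960) (by decide +kernel)
               (CovZ.leaf K2_ok TB_l34211 _)
               (CovZ.n1 (-15240, 15936) (by decide +kernel)
                (CovZ.leaf K2_ok TB_l34212 _)
                (CovZ.leaf K2_ok TB_l34213 _)))
              (CovZ.n1 (-15192, 15960) (by decide +kernel)
               (CovZ.n2 (-15192, 15936) (by decide +kernel)
                (CovZ.leaf K2_ok TB_l34214 _)
                (CovZ.leaf K2_ok TB_l34215 _))
               (CovZ.leaf K2_ok TB_l34216 _)))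
             (CovZ.n1 (-15264, 15984) (by decide +kernel)
              (CovZ.n2 (-15240, 16008) (by decide +kernel)
               (CovZ.n2 (-15240, 15984) (by decide +kernel)
                (CovZ.leaf K2_ok TB_l34217 _)
                (CovZ.leaf K2_ok TB_l34218 _))
               (CovZ.leaf K2_ok TB_l34219 _))
              (CovZ.n1 (-15240, 15960) (by decide +kernel)
               (CovZ.leaf K2_ok TB_l34220 _)
               (CovZ.n1 (-15240, 15984) (by decide +kernel)
                (CovZ.leaf K2_ok TB_l34221 _)
                (CovZ.leaf K2_ok TB_l34222 _)))))))
          (CovZ.n1 (-15360, 16032) (by decide +kernel)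
           (CovZ.n2 (-15312, 16080) (by decide +kernel)
            (CovZ.n2 (-15312, 16032) (by decide +kernel)
             (CovZ.leaf K2_ok TB_l34223 _)
             (CovZ.leaf K2_ok TB_l34224 _))
            (CovZ.n1 (-15360, 16080) (by decide +kernel)
             (CovZ.leaf K2_ok TB_l34225 _)
             (CovZ.leaf K2_ok TB_l34226 _)))
           (CovZ.n1 (-15312, 15984) (by decide +kernel)
            (CovZ.n2 (-15360, 15984) (by decide +kernel)
             (CovZ.leaf K2_ok TB_l34227 _)
             (CovZ.n1 (-15336, 15960) (by decide +kernel)
              (CovZ.leaf K2_ok TB_l34228 _)
              (CovZ.leaf K2_ok TB_l34229 _)))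
            (CovZ.n1 (-15312, 16032) (by decide +kernel)
             (CovZ.n2 (-15288, 16008) (by decide +kernel)
              (CovZ.leaf K2_ok TB_l34230 _)
              (CovZ.leaf K2_ok TB_l34231 _))
             (CovZ.n1 (-15336, 16008) (by decide +kernel)
              (CovZ.leaf K2_ok TB_l34232 _)
              (CovZ.leaf K2_ok TB_l34233 _))))))
         (CovZ.n1 (-15264, 15840) (by decide +kernel)
          (CovZ.n2 (-15360, 15840) (by decide +kernel)
           (CovZ.n2 (-15312, 15888) (by decide +kernel)
            (CovZ.n2 (-15312, 15840) (by decide +kernel)
             (CovZ.n2 (-15336, 15864) (by decide +kernel)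
              (CovZ.leaf K2_ok TB_l34234 _)
              (CovZ.leaf K2_ok TB_l34235 _))
             (CovZ.n1 (-15288, 15864) (by decide +kernel)
              (CovZ.leaf K2_ok TB_l34236 _)
              (CovZ.leaf K2_ok TB_l34237 _)))
            (CovZ.n1 (-15360, 15888) (by decide +kernel)
             (CovZ.n2 (-15336, 15912) (by decide +kernel)
              (CovZ.leaf K2_ok TB_l34238 _)
              (CovZ.leaf K2_ok TB_l34239 _))
             (CovZ.n1 (-15336, 15864) (by decide +kernel)
              (CovZ.leaf K2_ok TB_l34240 _)
              (CovZ.leaf K2_ok TB_l34241 _))))
           (CovZ.n1 (-15312, 15792) (by decide +kernel)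
            (CovZ.n2 (-15360, 15792) (by decide +kernel)
             (CovZ.n2 (-15336, 15816) (by decide +kernel)
              (CovZ.leaf K2_ok TB_l34242 _)
              (CovZ.leaf K2_ok TB_l34243 _))
             (CovZ.n1 (-15336, 15768) (by decide +kernel)
              (CovZ.leaf K2_ok TB_l34244 _)
              (CovZ.leaf K2_ok TB_l34245 _)))
            (CovZ.n1 (-15312, 15840) (by decide +kernel)
             (CovZ.n2 (-15288, 15816) (by decide +kernel)
              (CovZ.leaf K2_ok TB_l34246 _)
              (CovZ.n1 (-15288, 15840) (by decide +kernel)
               (CovZ.leaf K2_ok TB_l34247 _)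
               (CovZ.leaf K2_ok TB_l34248 _)))
             (CovZ.n1 (-15336, 15816) (by decide +kernel)
              (CovZ.leaf K2_ok TB_l34249 _)
              (CovZ.leaf K2_ok TB_l34250 _)))))
          (CovZ.n1 (-15264, 15936) (by decide +kernel)
           (CovZ.subM 21662143041287656640255898969669986006952293182067231528817142343520179735321775531977559431433955434326540494539116966448202496 (by decide +kernel)
            (CovZ.n2 (-15216, 15888) (by decide +kernel)
             (CovZ.n2 (-15264, 15888) (by decide +kernel)
              (CovZ.n2 (-15240, 15912) (by decide +kernel)
               (CovZ.n2 (-15240, 15888) (by decide +kernel)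
                (CovZ.leaf K2_ok TB_l34251 _)
                (CovZ.leaf K2_ok TB_l34252 _))
               (CovZ.leaf K2_ok TB_l34253 _))
              (CovZ.n1 (-15240, 15864) (by decide +kernel)
               (CovZ.leaf K2_ok TB_l34254 _)
               (CovZ.n1 (-15240, 15888) (by decide +kernel)
                (CovZ.leaf K2_ok TB_l34255 _)
                (CovZ.leaf K2_ok TB_l34256 _))))
             (CovZ.n1 (-15216, 15936) (by decide +kernel)
              (CovZ.n2 (-15192, 15912) (by decide +kernel)
               (CovZ.n2 (-15216, 15912) (by decide +kernel)
                (CovZ.leaf K2_ok TB_l34257 _)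
                (CovZ.leaf K2_ok TB_l34258 _))
               (CovZ.n1 (-15192, 15936) (by decide +kernel)
                (CovZ.leaf K2_ok TB_l34259 _)
                (CovZ.leaf K2_ok TB_l34260 _)))
              (CovZ.n1 (-15240, 15912) (by decide +kernel)
               (CovZ.n2 (-15240, 15936) (by decide +kernel)
                (CovZ.leaf K2_ok TB_l34261 _)
                (CovZ.leaf K2_ok TB_l34262 _))
               (CovZ.n1 (-15216, 15912) (by decide +kernel)
                (CovZ.leaf K2_ok TB_l34263 _)
                (CovZ.leaf K2_ok TB_l34264 _))))))
           (CovZ.n1 (-15312, 15888) (by decide +kernel)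
            (CovZ.n2 (-15312, 15936) (by decide +kernel)
             (CovZ.n2 (-15288, 15912) (by decide +kernel)
              (CovZ.leaf K2_ok TB_l34265 _)
              (CovZ.n1 (-15288, 15936) (by decide +kernel)
               (CovZ.leaf K2_ok TB_l34266 _)
               (CovZ.leaf K2_ok TB_l34267 _)))
             (CovZ.n1 (-15336, 15912) (by decide +kernel)
              (CovZ.leaf K2_ok TB_l34268 _)
              (CovZ.leaf K2_ok TB_l34269 _)))
            (CovZ.subM 21662143041287656640255898969669986006952293182067231528817142343108803595991474019654757519912167956758018038795132890406454016 (by decide +kernel)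
             (CovZ.n1 (-15264, 15888) (by decide +kernel)
              (CovZ.n2 (-15288, 15864) (by decide +kernel)
               (CovZ.n2 (-15288, 15888) (by decide +kernel)
                (CovZ.leaf K2_ok TB_l34270 _)
                (CovZ.leaf K2_ok TB_l34271 _))
               (CovZ.leaf K2_ok TB_l34272 _))
              (CovZ.n1 (-15288, 15912) (by decide +kernel)
               (CovZ.leaf K2_ok TB_l34273 _)
               (CovZ.leaf K2_ok TB_l34274 _)))))))))
       (CovZ.n1 (-15168, 15552) (by decide +kernel)
        (CovZ.n2 (-15360, 15552) (by decide +kernel)
         TB_u391
         TB_u392)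
        (CovZ.n1 (-15168, 15744) (by decide +kernel)
         TB_u393
         TB_u394)))
      (CovZ.n1 (-14976, 16128) (by decide +kernel)
       (CovZ.n2 (-14784, 15936) (by decide +kernel)
        (CovZ.n2 (-14976, 15936) (by decide +kernel)
         (CovZ.badM (by decide +kernel))
         (CovZ.badM (by decide +kernel)))
        (CovZ.badM (by decide +kernel)))
       (CovZ.n1 (-15168, 15936) (by decide +kernel)
        (CovZ.n2 (-15168, 16128) (by decide +kernel)
         TB_u395
         TB_u396)
        (CovZ.subM 661055968790549799538156052144247929372317175890732346460474050141108348044893787049137954190133566533794736135938265580288 (by decide +kernel)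
         (CovZ.n1 (-14976, 15936) (by decide +kernel)
          TB_u397
          TB_u398)))))

theorem TB_u401 : CovZ TB_M (toL (selN TB_LN 661055968790549212411469337654978099600611265452552230962469323359739020621673538670874625353978266658793644305458051154432)) [0, 7, 6, 1] (-14976, 16896) (-14976, 16704) (-14784, 16704) :=
    (CovZ.n2 (-14880, 16800) (by decide +kernel)
           (CovZ.n2 (-14880, 16704) (by decide +kernel)
            (CovZ.n2 (-14928, 16752) (by decide +kernel)
             (CovZ.n2 (-14880, 16752) (by decide +kernel)
              (CovZ.n2 (-14904, 16728) (by decide +kernel)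
               (CovZ.n2 (-14904, 16752) (by decide +kernel)
                (CovZ.leaf K2_ok TB_l34534 _)
                (CovZ.leaf K2_ok TB_l34535 _))
               (CovZ.n1 (-14880, 16728) (by decide +kernel)
                (CovZ.leaf K2_ok TB_l34536 _)
                (CovZ.leaf K2_ok TB_l34537 _)))
              (CovZ.n1 (-14904, 16776) (by decide +kernel)
               (CovZ.n2 (-14880, 16776) (by decide +kernel)
                (CovZ.leaf K2_ok TB_l34538 _)
                (CovZ.leaf K2_ok TB_l34539 _))
               (CovZ.n1 (-14904, 16752) (by decide +kernel)
                (CovZ.leaf K2_ok TB_l34540 _)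
                (CovZ.leaf K2_ok TB_l34541 _))))
             (CovZ.n1 (-14928, 16704) (by decide +kernel)
              (CovZ.n2 (-14952, 16728) (by decide +kernel)
               (CovZ.leaf K2_ok TB_l34542 _)
               (CovZ.n1 (-14952, 16704) (by decide +kernel)
                (CovZ.leaf K2_ok TB_l34543 _)
                (CovZ.leaf K2_ok TB_l34544 _)))
              (CovZ.n1 (-14904, 16728) (by decide +kernel)
               (CovZ.n2 (-14904, 16704) (by decide +kernel)
                (CovZ.leaf K2_ok TB_l34545 _)
                (CovZ.leaf K2_ok TB_l34546 _))
               (CovZ.leaf K2_ok TB_l34547 _))))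
            (CovZ.subM 661055968790549212411469337654978099600611265452552230962469323359739011642207122091078272082149620587923982823416167137280 (by decide +kernel)
             (CovZ.n1 (-14832, 16752) (by decide +kernel)
              (CovZ.n2 (-14832, 16704) (by decide +kernel)
               (CovZ.n2 (-14856, 16728) (by decide +kernel)
                (CovZ.n2 (-14832, 16728) (by decide +kernel)
                 (CovZ.leaf K2_ok TB_l34548 _)
                 (CovZ.leaf K2_ok TB_l34549 _))
                (CovZ.n1 (-14856, 16704) (by decide +kernel)
                 (CovZ.leaf K2_ok TB_l34550 _)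
                 (CovZ.leaf K2_ok TB_l34551 _)))
               (CovZ.n1 (-14808, 16728) (by decide +kernel)
                (CovZ.subM 661055968790549212402510358686201633949764532322827667699025872048827056619661451498804011062511240374589150454908119416832 (by decide +kernel)
                 (CovZ.n2 (-14808, 16704) (by decide +kernel)
                  (CovZ.n2 (-14820, 16716) (by decide +kernel)
                   (CovZ.leaf K2_ok TB_l46464 _)
                   (CovZ.leaf K2_ok TB_l46465 _))
                  (CovZ.n1 (-14796, 16716) (by decide +kernel)
                   (CovZ.n2 (-14796, 16704) (by decide +kernel)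
                    (CovZ.leaf K2_ok TB_l46466 _)
                    (CovZ.leaf K2_ok TB_l46467 _))
                   (CovZ.leaf K2_ok TB_l46468 _))))
                (CovZ.n1 (-14832, 16728) (by decide +kernel)
                 (CovZ.n2 (-14820, 16740) (by decide +kernel)
                  (CovZ.leaf K2_ok TB_l46469 _)
                  (CovZ.leaf K2_ok TB_l46470 _))
                 (CovZ.n1 (-14820, 16716) (by decide +kernel)
                  (CovZ.leaf K2_ok TB_l46471 _)
                  (CovZ.leaf K2_ok TB_l46472 _)))))
              (CovZ.n1 (-14880, 16752) (by decide +kernel)
               (CovZ.n2 (-14856, 16776) (by decide +kernel)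
                (CovZ.n2 (-14856, 16752) (by decide +kernel)
                 (CovZ.leaf K2_ok TB_l34552 _)
                 (CovZ.leaf K2_ok TB_l34553 _))
                (CovZ.n1 (-14880, 16776) (by decide +kernel)
                 (CovZ.leaf K2_ok TB_l34554 _)
                 (CovZ.leaf K2_ok TB_l34555 _)))
               (CovZ.n1 (-14856, 16728) (by decide +kernel)
                (CovZ.n2 (-14880, 16728) (by decide +kernel)
                 (CovZ.leaf K2_ok TB_l34556 _)
                 (CovZ.leaf K2_ok TB_l34557 _))
                (CovZ.n1 (-14856, 16752) (by decide +kernel)
                 (CovZ.n2 (-14844, 16740) (by decide +kernel)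
                  (CovZ.leaf K2_ok TB_l34558 _)
                  (CovZ.leaf K2_ok TB_l34559 _))
                 (CovZ.leaf K2_ok TB_l34560 _)))))))
           (CovZ.n1 (-14976, 16800) (by decide +kernel)
            (CovZ.n2 (-14928, 16848) (by decide +kernel)
             (CovZ.n2 (-14928, 16800) (by decide +kernel)
              (CovZ.n2 (-14952, 16824) (by decide +kernel)
               (CovZ.leaf K2_ok TB_l34561 _)
               (CovZ.leaf K2_ok TB_l34562 _))
              (CovZ.n1 (-14904, 16824) (by decide +kernel)
               (CovZ.n2 (-14904, 16800) (by decide +kernel)
                (CovZ.leaf K2_ok TB_l34563 _)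
                (CovZ.leaf K2_ok TB_l34564 _))
               (CovZ.leaf K2_ok TB_l34565 _)))
             (CovZ.n1 (-14976, 16848) (by decide +kernel)
              (CovZ.n2 (-14952, 16872) (by decide +kernel)
               (CovZ.leaf K2_ok TB_l34566 _)
               (CovZ.leaf K2_ok TB_l34567 _))
              (CovZ.n1 (-14952, 16824) (by decide +kernel)
               (CovZ.leaf K2_ok TB_l34568 _)
               (CovZ.n1 (-14952, 16848) (by decide +kernel)
                (CovZ.leaf K2_ok TB_l34569 _)
                (CovZ.leaf K2_ok TB_l34570 _)))))
            (CovZ.n1 (-14928, 16752) (by decide +kernel)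
             (CovZ.n2 (-14976, 16752) (by decide +kernel)
              (CovZ.n2 (-14952, 16776) (by decide +kernel)
               (CovZ.n2 (-14952, 16752) (by decide +kernel)
                (CovZ.leaf K2_ok TB_l34571 _)
                (CovZ.leaf K2_ok TB_l34572 _))
               (CovZ.leaf K2_ok TB_l34573 _))
              (CovZ.n1 (-14952, 16728) (by decide +kernel)
               (CovZ.leaf K2_ok TB_l34574 _)
               (CovZ.n1 (-14952, 16752) (by decide +kernel)
                (CovZ.leaf K2_ok TB_l34575 _)
                (CovZ.leaf K2_ok TB_l34576 _))))
             (CovZ.n1 (-14928, 16800) (by decide +kernel)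
              (CovZ.n2 (-14904, 16776) (by decide +kernel)
               (CovZ.leaf K2_ok TB_l34577 _)
               (CovZ.n1 (-14904, 16800) (by decide +kernel)
                (CovZ.leaf K2_ok TB_l34578 _)
                (CovZ.leaf K2_ok TB_l34579 _)))
              (CovZ.n1 (-14952, 16776) (by decide +kernel)
               (CovZ.n2 (-14952, 16800) (by decide +kernel)
                (CovZ.leaf K2_ok TB_l34580 _)
                (CovZ.leaf K2_ok TB_l34581 _))
               (CovZ.leaf K2_ok TB_l34582 _))))))

theorem TB_u402 : CovZ TB_M (toL (selN TB_LN 661055968790549212411469337654978099600611265452552230962469323359739020621673538670874625353978266658793644305458051154432)) [0, 7, 6, 1] (-14976, 16704) (-14976, 16512) (-14784, 16704) :=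
    (CovZ.n1 (-14880, 16608) (by decide +kernel)
           (CovZ.n2 (-14976, 16608) (by decide +kernel)
            (CovZ.n2 (-14928, 16656) (by decide +kernel)
             (CovZ.n2 (-14928, 16608) (by decide +kernel)
              (CovZ.n2 (-14952, 16632) (by decide +kernel)
               (CovZ.n2 (-14928, 16632) (by decide +kernel)
                (CovZ.leaf K2_ok TB_l34583 _)
                (CovZ.leaf K2_ok TB_l34584 _))
               (CovZ.n1 (-14952, 16608) (by decide +kernel)
                (CovZ.leaf K2_ok TB_l34585 _)
                (CovZ.leaf K2_ok TB_l34586 _)))
              (CovZ.n1 (-14904, 16632) (by decide +kernel)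
               (CovZ.n2 (-14904, 16608) (by decide +kernel)
                (CovZ.leaf K2_ok TB_l34587 _)
                (CovZ.leaf K2_ok TB_l34588 _))
               (CovZ.n1 (-14928, 16632) (by decide +kernel)
                (CovZ.leaf K2_ok TB_l34589 _)
                (CovZ.leaf K2_ok TB_l34590 _))))
             (CovZ.n1 (-14976, 16656) (by decide +kernel)
              (CovZ.n2 (-14952, 16680) (by decide +kernel)
               (CovZ.n2 (-14952, 16656) (by decide +kernel)
                (CovZ.leaf K2_ok TB_l34591 _)
                (CovZ.leaf K2_ok TB_l34592 _))
               (CovZ.leaf K2_ok TB_l34593 _))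
              (CovZ.n1 (-14952, 16632) (by decide +kernel)
               (CovZ.leaf K2_ok TB_l34594 _)
               (CovZ.n1 (-14952, 16656) (by decide +kernel)
                (CovZ.leaf K2_ok TB_l34595 _)
                (CovZ.leaf K2_ok TB_l34596 _)))))
            (CovZ.n1 (-14928, 16560) (by decide +kernel)
             (CovZ.n2 (-14976, 16560) (by decide +kernel)
              (CovZ.n2 (-14952, 16584) (by decide +kernel)
               (CovZ.n2 (-14952, 16560) (by decide +kernel)
                (CovZ.leaf K2_ok TB_l34597 _)
                (CovZ.leaf K2_ok TB_l34598 _))
               (CovZ.leaf K2_ok TB_l34599 _))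
              (CovZ.n1 (-14952, 16536) (by decide +kernel)
               (CovZ.leaf K2_ok TB_l34600 _)
               (CovZ.n1 (-14952, 16560) (by decide +kernel)
                (CovZ.leaf K2_ok TB_l34601 _)
                (CovZ.leaf K2_ok TB_l34602 _))))
             (CovZ.n1 (-14928, 16608) (by decide +kernel)
              (CovZ.n2 (-14904, 16584) (by decide +kernel)
               (CovZ.n2 (-14928, 16584) (by decide +kernel)
                (CovZ.leaf K2_ok TB_l34603 _)
                (CovZ.leaf K2_ok TB_l34604 _))
               (CovZ.n1 (-14904, 16608) (by decide +kernel)
                (CovZ.leaf K2_ok TB_l34605 _)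
                (CovZ.leaf K2_ok TB_l34606 _)))
              (CovZ.n1 (-14952, 16584) (by decide +kernel)
               (CovZ.n2 (-14952, 16608) (by decide +kernel)
                (CovZ.leaf K2_ok TB_l34607 _)
                (CovZ.leaf K2_ok TB_l34608 _))
               (CovZ.n1 (-14928, 16584) (by decide +kernel)
                (CovZ.leaf K2_ok TB_l34609 _)
                (CovZ.leaf K2_ok TB_l34610 _))))))
           (CovZ.n1 (-14880, 16704) (by decide +kernel)
            (CovZ.subM 661055968790549212411469337654978099600611265452552230962469316931986834606246019923229902716865385198998037106684550185472 (by decide +kernel)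
             (CovZ.n2 (-14832, 16656) (by decide +kernel)
              (CovZ.n2 (-14880, 16656) (by decide +kernel)
               (CovZ.n2 (-14856, 16680) (by decide +kernel)
                (CovZ.n2 (-14856, 16656) (by decide +kernel)
                 (CovZ.leaf K2_ok TB_l34611 _)
                 (CovZ.n1 (-14844, 16668) (by decide +kernel)
                  (CovZ.leaf K2_ok TB_l34612 _)
                  (CovZ.leaf K2_ok TB_l34613 _)))
                (CovZ.n1 (-14880, 16680) (by decide +kernel)
                 (CovZ.leaf K2_ok TB_l34614 _)
                 (CovZ.leaf K2_ok TB_l34615 _)))
               (CovZ.n1 (-14856, 16632) (by decide +kernel)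
                (CovZ.n2 (-14880, 16632) (by decide +kernel)
                 (CovZ.leaf K2_ok TB_l34616 _)
                 (CovZ.n1 (-14868, 16620) (by decide +kernel)
                  (CovZ.leaf K2_ok TB_l34617 _)
                  (CovZ.leaf K2_ok TB_l34618 _)))
                (CovZ.n1 (-14856, 16656) (by decide +kernel)
                 (CovZ.n2 (-14844, 16644) (by decide +kernel)
                  (CovZ.leaf K2_ok TB_l34619 _)
                  (CovZ.leaf K2_ok TB_l34620 _))
                 (CovZ.n1 (-14868, 16644) (by decide +kernel)
                  (CovZ.leaf K2_ok TB_l34621 _)
                  (CovZ.leaf K2_ok TB_l34622 _)))))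
              (CovZ.n1 (-14832, 16704) (by decide +kernel)
               (CovZ.subM 661055968790549212402510358686201633949764532322827667699025872048827056619661451498804011062511240374589150454908119416832 (by decide +kernel)
                (CovZ.n2 (-14808, 16680) (by decide +kernel)
                 (CovZ.n2 (-14832, 16680) (by decide +kernel)
                  (CovZ.n2 (-14820, 16692) (by decide +kernel)
                   (CovZ.leaf K2_ok TB_l46473 _)
                   (CovZ.leaf K2_ok TB_l46474 _))
                  (CovZ.n1 (-14820, 16668) (by decide +kernel)
                   (CovZ.leaf K2_ok TB_l46475 _)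
                   (CovZ.n1 (-14820, 16680) (by decide +kernel)
                    (CovZ.leaf K2_ok TB_l46476 _)
                    (CovZ.leaf K2_ok TB_l46477 _))))
                 (CovZ.n1 (-14808, 16704) (by decide +kernel)
                  (CovZ.n2 (-14796, 16692) (by decide +kernel)
                   (CovZ.leaf K2_ok TB_l46478 _)
                   (CovZ.n1 (-14796, 16704) (by decide +kernel)
                    (CovZ.leaf K2_ok TB_l46479 _)
                    (CovZ.leaf K2_ok TB_l46480 _)))
                  (CovZ.n1 (-14820, 16692) (by decide +kernel)
                   (CovZ.leaf K2_ok TB_l46481 _)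
                   (CovZ.leaf K2_ok TB_l46482 _)))))
               (CovZ.n1 (-14856, 16680) (by decide +kernel)
                (CovZ.n2 (-14856, 16704) (by decide +kernel)
                 (CovZ.n2 (-14844, 16692) (by decide +kernel)
                  (CovZ.leaf K2_ok TB_l34623 _)
                  (CovZ.leaf K2_ok TB_l34624 _))
                 (CovZ.leaf K2_ok TB_l34625 _))
                (CovZ.n1 (-14832, 16680) (by decide +kernel)
                 (CovZ.n2 (-14844, 16668) (by decide +kernel)
                  (CovZ.leaf K2_ok TB_l34626 _)
                  (CovZ.leaf K2_ok TB_l46483 _))
                 (CovZ.leaf K2_ok TB_l34627 _))))))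
            (CovZ.n1 (-14928, 16656) (by decide +kernel)
             (CovZ.n2 (-14928, 16704) (by decide +kernel)
              (CovZ.n2 (-14904, 16680) (by decide +kernel)
               (CovZ.leaf K2_ok TB_l34628 _)
               (CovZ.n1 (-14904, 16704) (by decide +kernel)
                (CovZ.leaf K2_ok TB_l34629 _)
                (CovZ.leaf K2_ok TB_l34630 _)))
              (CovZ.n1 (-14952, 16680) (by decide +kernel)
               (CovZ.n2 (-14952, 16704) (by decide +kernel)
                (CovZ.leaf K2_ok TB_l34631 _)
                (CovZ.leaf K2_ok TB_l34632 _))
               (CovZ.leaf K2_ok TB_l34633 _)))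
             (CovZ.n1 (-14880, 16656) (by decide +kernel)
              (CovZ.n2 (-14904, 16632) (by decide +kernel)
               (CovZ.n2 (-14904, 16656) (by decide +kernel)
                (CovZ.leaf K2_ok TB_l34634 _)
                (CovZ.leaf K2_ok TB_l34635 _))
               (CovZ.n1 (-14880, 16632) (by decide +kernel)
                (CovZ.leaf K2_ok TB_l34636 _)
                (CovZ.leaf K2_ok TB_l34637 _)))
              (CovZ.n1 (-14904, 16680) (by decide +kernel)
               (CovZ.n2 (-14880, 16680) (by decide +kernel)
                (CovZ.leaf K2_ok TB_l34638 _)
                (CovZ.leaf K2_ok TB_l34639 _))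
               (CovZ.n1 (-14904, 16656) (by decide +kernel)
                (CovZ.leaf K2_ok TB_l34640 _)
                (CovZ.leaf K2_ok TB_l34641 _)))))))

theorem TB_u403 : CovZ TB_M (toL (selN TB_LN 661055968790549212411469337654978099600611265452552230962469323359739020621673538670874625353978266658793644305458051154432)) [0, 7, 6, 1] (-14592, 16896) (-14784, 16896) (-14784, 16704) :=
    (CovZ.subM 661055968790549212402510358686266819101007235877588257961054560773841373306748178115038331158018053029704443152446447943680 (by decide +kernel)
           (CovZ.n2 (-14688, 16800) (by decide +kernel)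
            (CovZ.n2 (-14784, 16800) (by decide +kernel)
             (CovZ.n2 (-14736, 16848) (by decide +kernel)
              (CovZ.subM 661055968790248598951915308033031780433375497183323580332765195679020379190700585665270636417273497675294230160634057588736 (by decide +kernel)
               (CovZ.n2 (-14736, 16800) (by decide +kernel)
                (CovZ.n2 (-14760, 16824) (by decide +kernel)
                 (CovZ.subM 39614081257132168796771975168 (by decide +kernel)
                  (CovZ.n2 (-14736, 16824) (by decide +kernel)
                   (CovZ.n2 (-14748, 16812) (by decide +kernel)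
                    (CovZ.n2 (-14748, 16824) (by decide +kernel)
                     (CovZ.badM (by decide +kernel))
                     (CovZ.leaf K2_ok TB_l46484 _))
                    (CovZ.badM (by decide +kernel)))
                   (CovZ.n1 (-14748, 16836) (by decide +kernel)
                    (CovZ.badM (by decide +kernel))
                    (CovZ.n1 (-14748, 16824) (by decide +kernel)
                     (CovZ.leaf K2_ok TB_l46485 _)
                     (CovZ.badM (by decide +kernel))))))
                 (CovZ.n1 (-14760, 16800) (by decide +kernel)
                  (CovZ.n2 (-14772, 16812) (by decide +kernel)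
                   (CovZ.n2 (-14760, 16812) (by decide +kernel)
                    (CovZ.leaf K2_ok TB_l46486 _)
                    (CovZ.leaf K2_ok TB_l46487 _))
                   (CovZ.n1 (-14772, 16800) (by decide +kernel)
                    (CovZ.leaf K2_ok TB_l46488 _)
                    (CovZ.leaf K2_ok TB_l46489 _)))
                  (CovZ.n1 (-14748, 16812) (by decide +kernel)
                   (CovZ.badM (by decide +kernel))
                   (CovZ.leaf K2_ok TB_l46490 _))))
                (CovZ.badM (by decide +kernel))))
              (CovZ.n1 (-14784, 16848) (by decide +kernel)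
               (CovZ.subM 661055968790248598951915308033096965584618200738084170594794295780174026179297895625290992911652839085775583061713681907712 (by decide +kernel)
                (CovZ.n2 (-14760, 16872) (by decide +kernel)
                 (CovZ.n2 (-14760, 16848) (by decide +kernel)
                  (CovZ.n2 (-14772, 16860) (by decide +kernel)
                   (CovZ.leaf K2_ok TB_l46491 _)
                   (CovZ.leaf K2_ok TB_l46492 _))
                  (CovZ.n1 (-14748, 16860) (by decide +kernel)
                   (CovZ.n2 (-14748, 16848) (by decide +kernel)
                    (CovZ.leaf K2_ok TB_l46493 _)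
                    (CovZ.leaf K2_ok TB_l46494 _))
                   (CovZ.leaf K2_ok TB_l46495 _)))
                 (CovZ.n1 (-14784, 16872) (by decide +kernel)
                  (CovZ.n2 (-14772, 16884) (by decide +kernel)
                   (CovZ.leaf K2_ok TB_l46496 _)
                   (CovZ.leaf K2_ok TB_l34642 _))
                  (CovZ.n1 (-14772, 16860) (by decide +kernel)
                   (CovZ.leaf K2_ok TB_l46497 _)
                   (CovZ.n1 (-14772, 16872) (by decide +kernel)
                    (CovZ.leaf K2_ok TB_l46498 _)
                    (CovZ.leaf K2_ok TB_l46499 _))))))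
               (CovZ.subM 661055968790248598951915308033096965584618200738084170594794295780174026179297895625290992911652837876886656935231926304768 (by decide +kernel)
                (CovZ.n1 (-14760, 16824) (by decide +kernel)
                 (CovZ.n2 (-14784, 16824) (by decide +kernel)
                  (CovZ.n2 (-14772, 16836) (by decide +kernel)
                   (CovZ.n2 (-14772, 16824) (by decide +kernel)
                    (CovZ.leaf K2_ok TB_l46500 _)
                    (CovZ.leaf K2_ok TB_l46501 _))
                   (CovZ.leaf K2_ok TB_l46502 _))
                  (CovZ.n1 (-14772, 16812) (by decide +kernel)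
                   (CovZ.leaf K2_ok TB_l46503 _)
                   (CovZ.n1 (-14772, 16824) (by decide +kernel)
                    (CovZ.leaf K2_ok TB_l46504 _)
                    (CovZ.leaf K2_ok TB_l46505 _))))
                 (CovZ.n1 (-14760, 16848) (by decide +kernel)
                  (CovZ.subM 661055968790248598951915308032771039828404682964281219284648795274405791236311345825189210439754898928848344193820264497152 (by decide +kernel)
                   (CovZ.n2 (-14748, 16836) (by decide +kernel)
                    (CovZ.n2 (-14760, 16836) (by decide +kernel)
                     (CovZ.leaf K2_ok TB_l46506 _)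
                     (CovZ.leaf K2_ok TB_l46507 _))
                    (CovZ.n1 (-14748, 16848) (by decide +kernel)
                     (CovZ.badM (by decide +kernel))
                     (CovZ.leaf K2_ok TB_l46508 _))))
                  (CovZ.n1 (-14772, 16836) (by decide +kernel)
                   (CovZ.n2 (-14772, 16848) (by decide +kernel)
                    (CovZ.leaf K2_ok TB_l46509 _)
                    (CovZ.leaf K2_ok TB_l46510 _))
                   (CovZ.n1 (-14760, 16836) (by decide +kernel)
                    (CovZ.leaf K2_ok TB_l46511 _)
                    (CovZ.leaf K2_ok TB_l46512 _))))))))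
             (CovZ.n1 (-14736, 16752) (by decide +kernel)
              (CovZ.n2 (-14784, 16752) (by decide +kernel)
               (CovZ.subM 661055968790248598951915308033031780433375497183323580332765195679020379190700585665270636417273497675294230160634057588736 (by decide +kernel)
                (CovZ.n2 (-14760, 16776) (by decide +kernel)
                 (CovZ.subM 260740604970814219042361048116400404614587954389239840081425977518598746445885966813793091584 (by decide +kernel)
                  (CovZ.n2 (-14760, 16752) (by decide +kernel)
                   (CovZ.n2 (-14772, 16764) (by decide +kernel)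
                    (CovZ.badM (by decide +kernel))
                    (CovZ.n1 (-14772, 16752) (by decide +kernel)
                     (CovZ.leaf K2_ok TB_l46513 _)
                     (CovZ.badM (by decide +kernel))))
                   (CovZ.badM (by decide +kernel))))
                 (CovZ.n1 (-14784, 16776) (by decide +kernel)
                  (CovZ.n2 (-14772, 16788) (by decide +kernel)
                   (CovZ.n2 (-14772, 16776) (by decide +kernel)
                    (CovZ.leaf K2_ok TB_l46514 _)
                    (CovZ.leaf K2_ok TB_l46515 _))
                   (CovZ.leaf K2_ok TB_l46516 _))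
                  (CovZ.n1 (-14772, 16764) (by decide +kernel)
                   (CovZ.leaf K2_ok TB_l46517 _)
                   (CovZ.n1 (-14772, 16776) (by decide +kernel)
                    (CovZ.leaf K2_ok TB_l46518 _)
                    (CovZ.leaf K2_ok TB_l46519 _))))))
               (CovZ.n1 (-14760, 16728) (by decide +kernel)
                (CovZ.n2 (-14784, 16728) (by decide +kernel)
                 (CovZ.n2 (-14772, 16740) (by decide +kernel)
                  (CovZ.n2 (-14772, 16728) (by decide +kernel)
                   (CovZ.leaf K2_ok TB_l46520 _)
                   (CovZ.badM (by decide +kernel)))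
                  (CovZ.leaf K2_ok TB_l46521 _))
                 (CovZ.n1 (-14772, 16716) (by decide +kernel)
                  (CovZ.leaf K2_ok TB_l46522 _)
                  (CovZ.n1 (-14772, 16728) (by decide +kernel)
                   (CovZ.badM (by decide +kernel))
                   (CovZ.leaf K2_ok TB_l46523 _))))
                (CovZ.subM 260740604970814219042361048116400404614587954389239840081425977518598746445885966813793091584 (by decide +kernel)
                 (CovZ.n1 (-14760, 16752) (by decide +kernel)
                  (CovZ.badM (by decide +kernel))
                  (CovZ.n1 (-14772, 16740) (by decide +kernel)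
                   (CovZ.n2 (-14772, 16752) (by decide +kernel)
                    (CovZ.badM (by decide +kernel))
                    (CovZ.leaf K2_ok TB_l46524 _))
                   (CovZ.badM (by decide +kernel)))))))
              (CovZ.subM 661055968790248598951915308033031780433375497183323580332765195679020379190700585665270636417273497675294230160634057588736 (by decide +kernel)
               (CovZ.n1 (-14736, 16800) (by decide +kernel)
                (CovZ.badM (by decide +kernel))
                (CovZ.n1 (-14760, 16776) (by decide +kernel)
                 (CovZ.n2 (-14760, 16800) (by decide +kernel)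
                  (CovZ.n2 (-14748, 16788) (by decide +kernel)
                   (CovZ.leaf K2_ok TB_l46525 _)
                   (CovZ.badM (by decide +kernel)))
                  (CovZ.n1 (-14772, 16788) (by decide +kernel)
                   (CovZ.n2 (-14772, 16800) (by decide +kernel)
                    (CovZ.leaf K2_ok TB_l46526 _)
                    (CovZ.leaf K2_ok TB_l46527 _))
                   (CovZ.n1 (-14760, 16788) (by decide +kernel)
                    (CovZ.leaf K2_ok TB_l46528 _)
                    (CovZ.leaf K2_ok TB_l46529 _))))
                 (CovZ.badM (by decide +kernel)))))))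
            (CovZ.subM 661055968790248598951915308033096965584618200738084170594794295780174026179297895625290992911613225004518450892916909932544 (by decide +kernel)
             (CovZ.n1 (-14688, 16896) (by decide +kernel)
              (CovZ.badM (by decide +kernel))
              (CovZ.n1 (-14736, 16848) (by decide +kernel)
               (CovZ.n2 (-14736, 16896) (by decide +kernel)
                (CovZ.n2 (-14712, 16872) (by decide +kernel)
                 (CovZ.n2 (-14736, 16872) (by decide +kernel)
                  (CovZ.badM (by decide +kernel))
                  (CovZ.badM (by decide +kernel)))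
                 (CovZ.badM (by decide +kernel)))
                (CovZ.n1 (-14760, 16872) (by decide +kernel)
                 (CovZ.n2 (-14760, 16896) (by decide +kernel)
                  (CovZ.n2 (-14748, 16884) (by decide +kernel)
                   (CovZ.leaf K2_ok TB_l46530 _)
                   (CovZ.badM (by decide +kernel)))
                  (CovZ.n1 (-14772, 16884) (by decide +kernel)
                   (CovZ.n2 (-14772, 16896) (by decide +kernel)
                    (CovZ.leaf K2_ok TB_l46531 _)
                    (CovZ.leaf K2_ok TB_l46532 _))
                   (CovZ.leaf K2_ok TB_l46533 _)))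
                 (CovZ.subM 661055968790248598951915308032836224979647386519041809546677895375559438224908655785209566934094625049183638799621361238016 (by decide +kernel)
                  (CovZ.n1 (-14736, 16872) (by decide +kernel)
                   (CovZ.n2 (-14748, 16860) (by decide +kernel)
                    (CovZ.n2 (-14748, 16872) (by decide +kernel)
                     (CovZ.leaf K2_ok TB_l49776 _)
                     (CovZ.leaf K2_ok TB_l46534 _))
                    (CovZ.badM (by decide +kernel)))
                   (CovZ.n1 (-14748, 16884) (by decide +kernel)
                    (CovZ.badM (by decide +kernel))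
                    (CovZ.n1 (-14748, 16872) (by decide +kernel)
                     (CovZ.leaf K2_ok TB_l46535 _)
                     (CovZ.badM (by decide +kernel))))))))
               (CovZ.badM (by decide +kernel)))))))

theorem TB_u404 : CovZ TB_M (toL (selN TB_LN 661055968790549212411469337654978099600611265452552230962469323359739020621673538670874625353978266658793644305458051154432)) [0, 7, 6, 1] (-14784, 16896) (-14976, 16896) (-14784, 16704) :=
    (CovZ.n1 (-14880, 16800) (by decide +kernel)
           (CovZ.n2 (-14880, 16896) (by decide +kernel)
            (CovZ.n2 (-14832, 16848) (by decide +kernel)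
             (CovZ.n2 (-14880, 16848) (by decide +kernel)
              (CovZ.subM 661055968790549212411469337654978099600611265452552230962469323309522200752269029234081133177634826680647081549224118059008 (by decide +kernel)
               (CovZ.n2 (-14856, 16872) (by decide +kernel)
                (CovZ.n2 (-14856, 16848) (by decide +kernel)
                 (CovZ.leaf K2_ok TB_l34643 _)
                 (CovZ.leaf K2_ok TB_l34644 _))
                (CovZ.n1 (-14880, 16872) (by decide +kernel)
                 (CovZ.leaf K2_ok TB_l34645 _)
                 (CovZ.leaf K2_ok TB_l34646 _))))
              (CovZ.subM 661055968790549212411469337654978099600611265452552230962469323359739014635362475344767448563296158009465925104927804227584 (by decide +kernel)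
               (CovZ.n1 (-14856, 16824) (by decide +kernel)
                (CovZ.n2 (-14880, 16824) (by decide +kernel)
                 (CovZ.leaf K2_ok TB_l34647 _)
                 (CovZ.leaf K2_ok TB_l34648 _))
                (CovZ.n1 (-14856, 16848) (by decide +kernel)
                 (CovZ.n2 (-14844, 16836) (by decide +kernel)
                  (CovZ.leaf K2_ok TB_l34649 _)
                  (CovZ.leaf K2_ok TB_l34650 _))
                 (CovZ.leaf K2_ok TB_l34651 _)))))
             (CovZ.subM 661055968790549212411469337654978099600611265452552230962469323309522200752269029234081133177634826680610188061076698955776 (by decide +kernel)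
              (CovZ.n1 (-14832, 16896) (by decide +kernel)
               (CovZ.subM 661055968790248598951915308033096965584618200738084170594794713584065533516769581136925398675809603230104626585322223828992 (by decide +kernel)
                (CovZ.n2 (-14808, 16872) (by decide +kernel)
                 (CovZ.n2 (-14832, 16872) (by decide +kernel)
                  (CovZ.leaf K2_ok TB_l34652 _)
                  (CovZ.leaf K2_ok TB_l34653 _))
                 (CovZ.n1 (-14808, 16896) (by decide +kernel)
                  (CovZ.n2 (-14796, 16884) (by decide +kernel)
                   (CovZ.leaf K2_ok TB_l34654 _)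
                   (CovZ.leaf K2_ok TB_l46536 _))
                  (CovZ.leaf K2_ok TB_l34655 _))))
               (CovZ.n1 (-14856, 16872) (by decide +kernel)
                (CovZ.n2 (-14856, 16896) (by decide +kernel)
                 (CovZ.leaf K2_ok TB_l34656 _)
                 (CovZ.leaf K2_ok TB_l34657 _))
                (CovZ.n1 (-14832, 16872) (by decide +kernel)
                 (CovZ.leaf K2_ok TB_l34658 _)
                 (CovZ.leaf K2_ok TB_l34659 _))))))
            (CovZ.n1 (-14928, 16848) (by decide +kernel)
             (CovZ.n2 (-14928, 16896) (by decide +kernel)
              (CovZ.n2 (-14904, 16872) (by decide +kernel)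
               (CovZ.leaf K2_ok TB_l34660 _)
               (CovZ.n1 (-14904, 16896) (by decide +kernel)
                (CovZ.leaf K2_ok TB_l34661 _)
                (CovZ.leaf K2_ok TB_l34662 _)))
              (CovZ.n1 (-14952, 16872) (by decide +kernel)
               (CovZ.leaf K2_ok TB_l34663 _)
               (CovZ.leaf K2_ok TB_l34664 _)))
             (CovZ.n1 (-14880, 16848) (by decide +kernel)
              (CovZ.n2 (-14904, 16824) (by decide +kernel)
               (CovZ.n2 (-14904, 16848) (by decide +kernel)
                (CovZ.leaf K2_ok TB_l34665 _)
                (CovZ.leaf K2_ok TB_l34666 _))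
               (CovZ.n1 (-14880, 16824) (by decide +kernel)
                (CovZ.leaf K2_ok TB_l34667 _)
                (CovZ.leaf K2_ok TB_l34668 _)))
              (CovZ.n1 (-14904, 16872) (by decide +kernel)
               (CovZ.leaf K2_ok TB_l34669 _)
               (CovZ.n1 (-14904, 16848) (by decide +kernel)
                (CovZ.leaf K2_ok TB_l34670 _)
                (CovZ.leaf K2_ok TB_l34671 _))))))
           (CovZ.subM 661055968790549212411469337654978099600611265452552230962469323359739011642207122091078272082149620587923982823416167137280 (by decide +kernel)
            (CovZ.n1 (-14784, 16800) (by decide +kernel)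
             (CovZ.n2 (-14832, 16752) (by decide +kernel)
              (CovZ.n2 (-14832, 16800) (by decide +kernel)
               (CovZ.n2 (-14808, 16776) (by decide +kernel)
                (CovZ.n2 (-14832, 16776) (by decide +kernel)
                 (CovZ.leaf K2_ok TB_l34672 _)
                 (CovZ.n1 (-14820, 16764) (by decide +kernel)
                  (CovZ.leaf K2_ok TB_l34673 _)
                  (CovZ.leaf K2_ok TB_l34674 _)))
                (CovZ.subM 661055968790549212402510358686266819101007235877588257961054972099763889725165315348138052171229250455993405383106229174272 (by decide +kernel)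
                 (CovZ.n1 (-14808, 16800) (by decide +kernel)
                  (CovZ.n2 (-14796, 16788) (by decide +kernel)
                   (CovZ.leaf K2_ok TB_l46537 _)
                   (CovZ.n1 (-14796, 16800) (by decide +kernel)
                    (CovZ.leaf K2_ok TB_l46538 _)
                    (CovZ.leaf K2_ok TB_l46539 _)))
                  (CovZ.n1 (-14820, 16788) (by decide +kernel)
                   (CovZ.leaf K2_ok TB_l34675 _)
                   (CovZ.leaf K2_ok TB_l46540 _)))))
               (CovZ.n1 (-14856, 16776) (by decide +kernel)
                (CovZ.n2 (-14856, 16800) (by decide +kernel)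
                 (CovZ.leaf K2_ok TB_l34676 _)
                 (CovZ.leaf K2_ok TB_l34677 _))
                (CovZ.n1 (-14832, 16776) (by decide +kernel)
                 (CovZ.leaf K2_ok TB_l34678 _)
                 (CovZ.leaf K2_ok TB_l34679 _))))
              (CovZ.n1 (-14784, 16752) (by decide +kernel)
               (CovZ.n2 (-14808, 16728) (by decide +kernel)
                (CovZ.n2 (-14808, 16752) (by decide +kernel)
                 (CovZ.n2 (-14796, 16740) (by decide +kernel)
                  (CovZ.leaf K2_ok TB_l46541 _)
                  (CovZ.n1 (-14796, 16752) (by decide +kernel)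
                   (CovZ.leaf K2_ok TB_l46542 _)
                   (CovZ.leaf K2_ok TB_l46543 _)))
                 (CovZ.n1 (-14820, 16740) (by decide +kernel)
                  (CovZ.leaf K2_ok TB_l46544 _)
                  (CovZ.leaf K2_ok TB_l46545 _)))
                (CovZ.subM 661055968790549212402510358686201633949764532322827667699025460672687726318150868155017974663638711619186196763219270303744 (by decide +kernel)
                 (CovZ.n1 (-14784, 16728) (by decide +kernel)
                  (CovZ.n2 (-14796, 16716) (by decide +kernel)
                   (CovZ.n2 (-14796, 16728) (by decide +kernel)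
                    (CovZ.leaf K2_ok TB_l46546 _)
                    (CovZ.leaf K2_ok TB_l46547 _))
                   (CovZ.n1 (-14784, 16716) (by decide +kernel)
                    (CovZ.leaf K2_ok TB_l46548 _)
                    (CovZ.leaf K2_ok TB_l46549 _)))
                  (CovZ.n1 (-14796, 16740) (by decide +kernel)
                   (CovZ.n2 (-14784, 16740) (by decide +kernel)
                    (CovZ.leaf K2_ok TB_l46550 _)
                    (CovZ.leaf K2_ok TB_l46551 _))
                   (CovZ.n1 (-14796, 16728) (by decide +kernel)
                    (CovZ.leaf K2_ok TB_l46552 _)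
                    (CovZ.leaf K2_ok TB_l46553 _))))))
               (CovZ.n1 (-14808, 16776) (by decide +kernel)
                (CovZ.subM 661055968790248598951915308033096965584618200738084170594794295780174026179298609249137345891593367019871381682800117678080 (by decide +kernel)
                 (CovZ.n2 (-14784, 16776) (by decide +kernel)
                  (CovZ.n2 (-14796, 16764) (by decide +kernel)
                   (CovZ.n2 (-14796, 16776) (by decide +kernel)
                    (CovZ.leaf K2_ok TB_l46554 _)
                    (CovZ.leaf K2_ok TB_l46555 _))
                   (CovZ.n1 (-14784, 16764) (by decide +kernel)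
                    (CovZ.leaf K2_ok TB_l46556 _)
                    (CovZ.leaf K2_ok TB_l46557 _)))
                  (CovZ.n1 (-14796, 16788) (by decide +kernel)
                   (CovZ.leaf K2_ok TB_l46558 _)
                   (CovZ.leaf K2_ok TB_l46559 _))))
                (CovZ.n1 (-14808, 16752) (by decide +kernel)
                 (CovZ.n2 (-14820, 16764) (by decide +kernel)
                  (CovZ.leaf K2_ok TB_l46560 _)
                  (CovZ.leaf K2_ok TB_l46561 _))
                 (CovZ.n1 (-14796, 16764) (by decide +kernel)
                  (CovZ.leaf K2_ok TB_l46562 _)
                  (CovZ.leaf K2_ok TB_l46563 _))))))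
             (CovZ.n1 (-14832, 16848) (by decide +kernel)
              (CovZ.subM 661055968790248598951915308033096965584618200738084170594794713584065533516769581136925398675175777930027405372721291329536 (by decide +kernel)
               (CovZ.n2 (-14784, 16848) (by decide +kernel)
                (CovZ.n2 (-14808, 16824) (by decide +kernel)
                 (CovZ.n2 (-14808, 16848) (by decide +kernel)
                  (CovZ.n2 (-14796, 16836) (by decide +kernel)
                   (CovZ.leaf K2_ok TB_l34680 _)
                   (CovZ.leaf K2_ok TB_l34681 _))
                  (CovZ.n1 (-14820, 16836) (by decide +kernel)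
                   (CovZ.leaf K2_ok TB_l34682 _)
                   (CovZ.leaf K2_ok TB_l34683 _)))
                 (CovZ.n1 (-14784, 16824) (by decide +kernel)
                  (CovZ.n2 (-14796, 16812) (by decide +kernel)
                   (CovZ.leaf K2_ok TB_l46564 _)
                   (CovZ.leaf K2_ok TB_l46565 _))
                  (CovZ.n1 (-14796, 16836) (by decide +kernel)
                   (CovZ.leaf K2_ok TB_l46566 _)
                   (CovZ.leaf K2_ok TB_l46567 _))))
                (CovZ.n1 (-14808, 16872) (by decide +kernel)
                 (CovZ.n2 (-14784, 16872) (by decide +kernel)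
                  (CovZ.n2 (-14796, 16860) (by decide +kernel)
                   (CovZ.leaf K2_ok TB_l34684 _)
                   (CovZ.leaf K2_ok TB_l46568 _))
                  (CovZ.n1 (-14796, 16884) (by decide +kernel)
                   (CovZ.leaf K2_ok TB_l34685 _)
                   (CovZ.leaf K2_ok TB_l34686 _)))
                 (CovZ.n1 (-14808, 16848) (by decide +kernel)
                  (CovZ.leaf K2_ok TB_l34687 _)
                  (CovZ.n1 (-14796, 16860) (by decide +kernel)
                   (CovZ.leaf K2_ok TB_l34688 _)
                   (CovZ.leaf K2_ok TB_l34689 _))))))
              (CovZ.n1 (-14832, 16800) (by decide +kernel)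
               (CovZ.n2 (-14856, 16824) (by decide +kernel)
                (CovZ.n2 (-14832, 16824) (by decide +kernel)
                 (CovZ.leaf K2_ok TB_l34690 _)
                 (CovZ.leaf K2_ok TB_l34691 _))
                (CovZ.n1 (-14856, 16800) (by decide +kernel)
                 (CovZ.leaf K2_ok TB_l34692 _)
                 (CovZ.leaf K2_ok TB_l34693 _)))
               (CovZ.n1 (-14808, 16824) (by decide +kernel)
                (CovZ.subM 661055968790549212402510358686266819101007235877588257961054972099763889725165315348138052171229250455993405383106229174272 (by decide +kernel)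
                 (CovZ.n2 (-14808, 16800) (by decide +kernel)
                  (CovZ.n2 (-14820, 16812) (by decide +kernel)
                   (CovZ.leaf K2_ok TB_l34694 _)
                   (CovZ.leaf K2_ok TB_l34695 _))
                  (CovZ.n1 (-14796, 16812) (by decide +kernel)
                   (CovZ.leaf K2_ok TB_l46569 _)
                   (CovZ.leaf K2_ok TB_l46570 _))))
                (CovZ.n1 (-14832, 16824) (by decide +kernel)
                 (CovZ.leaf K2_ok TB_l34696 _)
                 (CovZ.n1 (-14820, 16812) (by decide +kernel)
                  (CovZ.leaf K2_ok TB_l34697 _)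
                  (CovZ.leaf K2_ok TB_l34698 _)))))))))

theorem TB_u405 : CovZ TB_M (toL (selN TB_LN 661055968790549212411469337654978099600611265452552230962469323359739011642207478908445966442221075277084469105408788660736)) [0, 7, 6, 1] (-14784, 16704) (-14880, 16608) (-14784, 16512) :=
    (CovZ.n2 (-14784, 16608) (by decide +kernel)
            (CovZ.n2 (-14832, 16560) (by decide +kernel)
             (CovZ.n2 (-14832, 16608) (by decide +kernel)
              (CovZ.subM 300613450595050653430594121359849358546448414377076774421265383350105673614800622756341445704056888128645890560 (by decide +kernel)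
               (CovZ.n2 (-14808, 16584) (by decide +kernel)
                (CovZ.n2 (-14832, 16584) (by decide +kernel)
                 (CovZ.n2 (-14820, 16596) (by decide +kernel)
                  (CovZ.n2 (-14820, 16584) (by decide +kernel)
                   (CovZ.leaf K2_ok TB_l46632 _)
                   (CovZ.leaf K2_ok TB_l46633 _))
                  (CovZ.leaf K2_ok TB_l46634 _))
                 (CovZ.n1 (-14820, 16572) (by decide +kernel)
                  (CovZ.leaf K2_ok TB_l46635 _)
                  (CovZ.n1 (-14820, 16584) (by decide +kernel)
                   (CovZ.leaf K2_ok TB_l46636 _)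
                   (CovZ.leaf K2_ok TB_l46637 _))))
                (CovZ.n1 (-14808, 16608) (by decide +kernel)
                 (CovZ.n2 (-14796, 16596) (by decide +kernel)
                  (CovZ.leaf K2_ok TB_l46638 _)
                  (CovZ.n1 (-14796, 16608) (by decide +kernel)
                   (CovZ.badM (by decide +kernel))
                   (CovZ.leaf K2_ok TB_l46639 _)))
                 (CovZ.n1 (-14820, 16596) (by decide +kernel)
                  (CovZ.n2 (-14820, 16608) (by decide +kernel)
                   (CovZ.leaf K2_ok TB_l46640 _)
                   (CovZ.leaf K2_ok TB_l46641 _))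
                  (CovZ.leaf K2_ok TB_l46642 _)))))
              (CovZ.n1 (-14856, 16584) (by decide +kernel)
               (CovZ.n2 (-14856, 16608) (by decide +kernel)
                (CovZ.n2 (-14844, 16596) (by decide +kernel)
                 (CovZ.leaf K2_ok TB_l46643 _)
                 (CovZ.n1 (-14844, 16608) (by decide +kernel)
                  (CovZ.leaf K2_ok TB_l46644 _)
                  (CovZ.leaf K2_ok TB_l46645 _)))
                (CovZ.n1 (-14868, 16596) (by decide +kernel)
                 (CovZ.leaf K2_ok TB_l34798 _)
                 (CovZ.leaf K2_ok TB_l46646 _)))
               (CovZ.subM 300613459554029622141874620963878933510421415791421556427396381337364138020335782731144859594553035489823162880 (by decide +kernel)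
                (CovZ.n1 (-14832, 16584) (by decide +kernel)
                 (CovZ.n2 (-14844, 16572) (by decide +kernel)
                  (CovZ.leaf K2_ok TB_l46647 _)
                  (CovZ.leaf K2_ok TB_l46648 _))
                 (CovZ.n1 (-14844, 16596) (by decide +kernel)
                  (CovZ.leaf K2_ok TB_l46649 _)
                  (CovZ.leaf K2_ok TB_l46650 _))))))
             (CovZ.subM 411376139330301510583343786036398872528755403097806876924969472 (by decide +kernel)
              (CovZ.n1 (-14784, 16560) (by decide +kernel)
               (CovZ.n2 (-14808, 16536) (by decide +kernel)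
                (CovZ.n2 (-14808, 16560) (by decide +kernel)
                 (CovZ.n2 (-14796, 16548) (by decide +kernel)
                  (CovZ.n2 (-14808, 16548) (by decide +kernel)
                   (CovZ.leaf K2_ok TB_l46651 _)
                   (CovZ.badM (by decide +kernel)))
                  (CovZ.n1 (-14796, 16560) (by decide +kernel)
                   (CovZ.badM (by decide +kernel))
                   (CovZ.leaf K2_ok TB_l46652 _)))
                 (CovZ.n1 (-14820, 16548) (by decide +kernel)
                  (CovZ.n2 (-14820, 16560) (by decide +kernel)
                   (CovZ.leaf K2_ok TB_l46653 _)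
                   (CovZ.leaf K2_ok TB_l46654 _))
                  (CovZ.n1 (-14808, 16548) (by decide +kernel)
                   (CovZ.leaf K2_ok TB_l46655 _)
                   (CovZ.leaf K2_ok TB_l46656 _))))
                (CovZ.badM (by decide +kernel)))
               (CovZ.n1 (-14808, 16584) (by decide +kernel)
                (CovZ.badM (by decide +kernel))
                (CovZ.n1 (-14808, 16560) (by decide +kernel)
                 (CovZ.n2 (-14820, 16572) (by decide +kernel)
                  (CovZ.n2 (-14808, 16572) (by decide +kernel)
                   (CovZ.leaf K2_ok TB_l46657 _)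
                   (CovZ.leaf K2_ok TB_l46658 _))
                  (CovZ.n1 (-14820, 16560) (by decide +kernel)
                   (CovZ.leaf K2_ok TB_l46659 _)
                   (CovZ.leaf K2_ok TB_l46660 _)))
                 (CovZ.n1 (-14796, 16572) (by decide +kernel)
                  (CovZ.n2 (-14796, 16560) (by decide +kernel)
                   (CovZ.leaf K2_ok TB_l46661 _)
                   (CovZ.badM (by decide +kernel)))
                  (CovZ.leaf K2_ok TB_l46662 _)))))))
            (CovZ.n1 (-14832, 16656) (by decide +kernel)
             (CovZ.subM 300613450595050653430594121359849358546448414377076774421265383350105673614800622756341445740806261087989137408 (by decide +kernel)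
              (CovZ.n2 (-14784, 16656) (by decide +kernel)
               (CovZ.n2 (-14808, 16632) (by decide +kernel)
                (CovZ.n2 (-14808, 16656) (by decide +kernel)
                 (CovZ.n2 (-14796, 16644) (by decide +kernel)
                  (CovZ.leaf K2_ok TB_l46663 _)
                  (CovZ.n1 (-14796, 16656) (by decide +kernel)
                   (CovZ.leaf K2_ok TB_l46664 _)
                   (CovZ.leaf K2_ok TB_l46665 _)))
                 (CovZ.n1 (-14820, 16644) (by decide +kernel)
                  (CovZ.n2 (-14820, 16656) (by decide +kernel)
                   (CovZ.leaf K2_ok TB_l46666 _)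
                   (CovZ.leaf K2_ok TB_l46667 _))
                  (CovZ.n1 (-14808, 16644) (by decide +kernel)
                   (CovZ.leaf K2_ok TB_l46668 _)
                   (CovZ.leaf K2_ok TB_l46669 _))))
                (CovZ.subM 300613450595050653430594121359849358546448414376665398281935081839522329828764223883812690005811176072368095232 (by decide +kernel)
                 (CovZ.n1 (-14784, 16632) (by decide +kernel)
                  (CovZ.n2 (-14796, 16620) (by decide +kernel)
                   (CovZ.n2 (-14796, 16632) (by decide +kernel)
                    (CovZ.badM (by decide +kernel))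
                    (CovZ.leaf K2_ok TB_l46670 _))
                   (CovZ.badM (by decide +kernel)))
                  (CovZ.n1 (-14796, 16644) (by decide +kernel)
                   (CovZ.n2 (-14784, 16644) (by decide +kernel)
                    (CovZ.leaf K2_ok TB_l46671 _)
                    (CovZ.leaf K2_ok TB_l46672 _))
                   (CovZ.n1 (-14796, 16632) (by decide +kernel)
                    (CovZ.leaf K2_ok TB_l46673 _)
                    (CovZ.leaf K2_ok TB_l46674 _))))))
               (CovZ.n1 (-14808, 16680) (by decide +kernel)
                (CovZ.n2 (-14784, 16680) (by decide +kernel)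
                 (CovZ.n2 (-14796, 16668) (by decide +kernel)
                  (CovZ.n2 (-14796, 16680) (by decide +kernel)
                   (CovZ.leaf K2_ok TB_l46675 _)
                   (CovZ.leaf K2_ok TB_l46676 _))
                  (CovZ.leaf K2_ok TB_l46677 _))
                 (CovZ.n1 (-14796, 16692) (by decide +kernel)
                  (CovZ.leaf K2_ok TB_l46678 _)
                  (CovZ.n1 (-14796, 16680) (by decide +kernel)
                   (CovZ.leaf K2_ok TB_l46679 _)
                   (CovZ.leaf K2_ok TB_l46680 _))))
                (CovZ.n1 (-14808, 16656) (by decide +kernel)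
                 (CovZ.n2 (-14820, 16668) (by decide +kernel)
                  (CovZ.leaf K2_ok TB_l46681 _)
                  (CovZ.leaf K2_ok TB_l46682 _))
                 (CovZ.n1 (-14796, 16668) (by decide +kernel)
                  (CovZ.n2 (-14796, 16656) (by decide +kernel)
                   (CovZ.leaf K2_ok TB_l46683 _)
                   (CovZ.leaf K2_ok TB_l46684 _))
                  (CovZ.leaf K2_ok TB_l46685 _))))))
             (CovZ.n1 (-14832, 16608) (by decide +kernel)
              (CovZ.n2 (-14856, 16632) (by decide +kernel)
               (CovZ.n2 (-14832, 16632) (by decide +kernel)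
                (CovZ.n2 (-14844, 16620) (by decide +kernel)
                 (CovZ.leaf K2_ok TB_l34799 _)
                 (CovZ.leaf K2_ok TB_l46686 _))
                (CovZ.n1 (-14844, 16644) (by decide +kernel)
                 (CovZ.leaf K2_ok TB_l46687 _)
                 (CovZ.leaf K2_ok TB_l34800 _)))
               (CovZ.n1 (-14856, 16608) (by decide +kernel)
                (CovZ.n2 (-14868, 16620) (by decide +kernel)
                 (CovZ.leaf K2_ok TB_l34801 _)
                 (CovZ.leaf K2_ok TB_l34802 _))
                (CovZ.n1 (-14844, 16620) (by decide +kernel)
                 (CovZ.leaf K2_ok TB_l34803 _)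
                 (CovZ.leaf K2_ok TB_l34804 _))))
              (CovZ.subM 300613450595050653430594121359849358546448414377076774421265383350105673614800622756341445740950376276064993792 (by decide +kernel)
               (CovZ.n1 (-14808, 16632) (by decide +kernel)
                (CovZ.n2 (-14808, 16608) (by decide +kernel)
                 (CovZ.n2 (-14820, 16620) (by decide +kernel)
                  (CovZ.n2 (-14808, 16620) (by decide +kernel)
                   (CovZ.leaf K2_ok TB_l46688 _)
                   (CovZ.leaf K2_ok TB_l46689 _))
                  (CovZ.n1 (-14820, 16608) (by decide +kernel)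
                   (CovZ.leaf K2_ok TB_l46690 _)
                   (CovZ.leaf K2_ok TB_l46691 _)))
                 (CovZ.n1 (-14796, 16620) (by decide +kernel)
                  (CovZ.badM (by decide +kernel))
                  (CovZ.n1 (-14808, 16620) (by decide +kernel)
                   (CovZ.leaf K2_ok TB_l46692 _)
                   (CovZ.badM (by decide +kernel)))))
                (CovZ.n1 (-14832, 16632) (by decide +kernel)
                 (CovZ.n2 (-14820, 16644) (by decide +kernel)
                  (CovZ.n2 (-14820, 16632) (by decide +kernel)
                   (CovZ.leaf K2_ok TB_l46694 _)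
                   (CovZ.leaf K2_ok TB_l46695 _))
                  (CovZ.leaf K2_ok TB_l46696 _))
                 (CovZ.n1 (-14820, 16620) (by decide +kernel)
                  (CovZ.leaf K2_ok TB_l46697 _)
                  (CovZ.n1 (-14820, 16632) (by decide +kernel)
                   (CovZ.leaf K2_ok TB_l46698 _)
                   (CovZ.leaf K2_ok TB_l46699 _)))))))))

theorem TB_u406 : CovZ TB_M (toL (selN TB_LN 661055968790549212411469337654978099600611265452552230962469323359739011642207478908445966442221075277084469105408788660736)) [0, 7, 6, 1] (-14880, 16608) (-14976, 16512) (-14784, 16512) :=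
    (CovZ.n1 (-14880, 16512) (by decide +kernel)
            (CovZ.n2 (-14928, 16560) (by decide +kernel)
             (CovZ.n2 (-14880, 16560) (by decide +kernel)
              (CovZ.n2 (-14904, 16536) (by decide +kernel)
               (CovZ.n2 (-14904, 16560) (by decide +kernel)
                (CovZ.leaf K2_ok TB_l34805 _)
                (CovZ.leaf K2_ok TB_l34806 _))
               (CovZ.n1 (-14880, 16536) (by decide +kernel)
                (CovZ.n2 (-14892, 16524) (by decide +kernel)
                 (CovZ.n2 (-14892, 16536) (by decide +kernel)
                  (CovZ.leaf K2_ok TB_l46700 _)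
                  (CovZ.leaf K2_ok TB_l46701 _))
                 (CovZ.leaf K2_ok TB_l46702 _))
                (CovZ.leaf K2_ok TB_l46703 _)))
              (CovZ.n1 (-14904, 16584) (by decide +kernel)
               (CovZ.n2 (-14880, 16584) (by decide +kernel)
                (CovZ.n2 (-14892, 16572) (by decide +kernel)
                 (CovZ.leaf K2_ok TB_l34807 _)
                 (CovZ.leaf K2_ok TB_l46704 _))
                (CovZ.leaf K2_ok TB_l34808 _))
               (CovZ.n1 (-14904, 16560) (by decide +kernel)
                (CovZ.leaf K2_ok TB_l34809 _)
                (CovZ.leaf K2_ok TB_l34810 _))))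
             (CovZ.n1 (-14928, 16512) (by decide +kernel)
              (CovZ.n2 (-14952, 16536) (by decide +kernel)
               (CovZ.n2 (-14928, 16536) (by decide +kernel)
                (CovZ.leaf K2_ok TB_l34811 _)
                (CovZ.leaf K2_ok TB_l34812 _))
               (CovZ.n1 (-14952, 16512) (by decide +kernel)
                (CovZ.leaf K2_ok TB_l34813 _)
                (CovZ.leaf K2_ok TB_l34814 _)))
              (CovZ.n1 (-14904, 16536) (by decide +kernel)
               (CovZ.n2 (-14904, 16512) (by decide +kernel)
                (CovZ.leaf K2_ok TB_l46705 _)
                (CovZ.leaf K2_ok TB_l46706 _))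
               (CovZ.n1 (-14928, 16536) (by decide +kernel)
                (CovZ.leaf K2_ok TB_l34815 _)
                (CovZ.leaf K2_ok TB_l34816 _)))))
            (CovZ.n1 (-14832, 16560) (by decide +kernel)
             (CovZ.subM 300613459554029622141874620963878933510421415791421556427396381337364138020335782731144859594553035489823162880 (by decide +kernel)
              (CovZ.n2 (-14832, 16512) (by decide +kernel)
               (CovZ.n2 (-14856, 16536) (by decide +kernel)
                (CovZ.n2 (-14832, 16536) (by decide +kernel)
                 (CovZ.n2 (-14844, 16524) (by decide +kernel)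
                  (CovZ.n2 (-14844, 16536) (by decide +kernel)
                   (CovZ.leaf K2_ok TB_l46707 _)
                   (CovZ.leaf K2_ok TB_l46708 _))
                  (CovZ.leaf K2_ok TB_l46709 _))
                 (CovZ.n1 (-14844, 16548) (by decide +kernel)
                  (CovZ.leaf K2_ok TB_l46710 _)
                  (CovZ.n1 (-14844, 16536) (by decide +kernel)
                   (CovZ.leaf K2_ok TB_l46711 _)
                   (CovZ.leaf K2_ok TB_l46712 _))))
                (CovZ.n1 (-14856, 16512) (by decide +kernel)
                 (CovZ.n2 (-14868, 16524) (by decide +kernel)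
                  (CovZ.leaf K2_ok TB_l46713 _)
                  (CovZ.leaf K2_ok TB_l46714 _))
                 (CovZ.n1 (-14844, 16524) (by decide +kernel)
                  (CovZ.n2 (-14844, 16512) (by decide +kernel)
                   (CovZ.leaf K2_ok TB_l46715 _)
                   (CovZ.leaf K2_ok TB_l46716 _))
                  (CovZ.leaf K2_ok TB_l46717 _))))
               (CovZ.subM 411376139330301510583343786036398872528755403097806876924969472 (by decide +kernel)
                (CovZ.n1 (-14808, 16536) (by decide +kernel)
                 (CovZ.n2 (-14808, 16512) (by decide +kernel)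
                  (CovZ.n2 (-14820, 16524) (by decide +kernel)
                   (CovZ.n2 (-14808, 16524) (by decide +kernel)
                    (CovZ.leaf K2_ok TB_l46718 _)
                    (CovZ.leaf K2_ok TB_l46719 _))
                   (CovZ.n1 (-14820, 16512) (by decide +kernel)
                    (CovZ.leaf K2_ok TB_l46720 _)
                    (CovZ.leaf K2_ok TB_l46721 _)))
                  (CovZ.badM (by decide +kernel)))
                 (CovZ.n1 (-14832, 16536) (by decide +kernel)
                  (CovZ.n2 (-14820, 16548) (by decide +kernel)
                   (CovZ.n2 (-14820, 16536) (by decide +kernel)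
                    (CovZ.leaf K2_ok TB_l46722 _)
                    (CovZ.leaf K2_ok TB_l46723 _))
                   (CovZ.leaf K2_ok TB_l46724 _))
                  (CovZ.n1 (-14820, 16524) (by decide +kernel)
                   (CovZ.leaf K2_ok TB_l46725 _)
                   (CovZ.n1 (-14820, 16536) (by decide +kernel)
                    (CovZ.leaf K2_ok TB_l46726 _)
                    (CovZ.leaf K2_ok TB_l46727 _))))))))
             (CovZ.n1 (-14880, 16560) (by decide +kernel)
              (CovZ.n2 (-14856, 16584) (by decide +kernel)
               (CovZ.n2 (-14856, 16560) (by decide +kernel)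
                (CovZ.n2 (-14868, 16572) (by decide +kernel)
                 (CovZ.leaf K2_ok TB_l46728 _)
                 (CovZ.leaf K2_ok TB_l46729 _))
                (CovZ.n1 (-14844, 16572) (by decide +kernel)
                 (CovZ.leaf K2_ok TB_l46730 _)
                 (CovZ.leaf K2_ok TB_l46731 _)))
               (CovZ.n1 (-14880, 16584) (by decide +kernel)
                (CovZ.leaf K2_ok TB_l34817 _)
                (CovZ.n1 (-14868, 16572) (by decide +kernel)
                 (CovZ.leaf K2_ok TB_l46732 _)
                 (CovZ.leaf K2_ok TB_l46733 _))))
              (CovZ.n1 (-14856, 16536) (by decide +kernel)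
               (CovZ.n2 (-14880, 16536) (by decide +kernel)
                (CovZ.n2 (-14868, 16548) (by decide +kernel)
                 (CovZ.leaf K2_ok TB_l46734 _)
                 (CovZ.leaf K2_ok TB_l46735 _))
                (CovZ.n1 (-14868, 16524) (by decide +kernel)
                 (CovZ.leaf K2_ok TB_l46736 _)
                 (CovZ.n1 (-14868, 16536) (by decide +kernel)
                  (CovZ.leaf K2_ok TB_l46737 _)
                  (CovZ.leaf K2_ok TB_l46738 _))))
               (CovZ.n1 (-14856, 16560) (by decide +kernel)
                (CovZ.n2 (-14844, 16548) (by decide +kernel)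
                 (CovZ.leaf K2_ok TB_l46739 _)
                 (CovZ.n1 (-14844, 16560) (by decide +kernel)
                  (CovZ.leaf K2_ok TB_l46740 _)
                  (CovZ.leaf K2_ok TB_l46741 _)))
                (CovZ.n1 (-14868, 16548) (by decide +kernel)
                 (CovZ.leaf K2_ok TB_l46742 _)
                 (CovZ.leaf K2_ok TB_l46743 _)))))))

theorem TB_u407 : CovZ TB_M (toL (selN TB_LN 21662143041287656644952993094196621173948096605418733204202076764465711507337183898636845412613227788693841369552371050617111360)) [0, 7, 6, 1] (-15360, 16896) (-14976, 16512) (-14592, 16896) :=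
    (CovZ.n2 (-14976, 16896) (by decide +kernel)
       (CovZ.subM 661055968790549212411469337654978099600611265452552230962469323359739020621673538670874625353978266658793644305458051154432 (by decide +kernel)
        (CovZ.n2 (-14784, 16704) (by decide +kernel)
         (CovZ.n2 (-14976, 16704) (by decide +kernel)
          TB_u401
          TB_u402)
         (CovZ.n1 (-14784, 16896) (by decide +kernel)
          TB_u403
          TB_u404)))
       (CovZ.n1 (-15168, 16704) (by decide +kernel)
        (CovZ.n2 (-15168, 16896) (by decide +kernel)
         (CovZ.n2 (-15072, 16800) (by decide +kernel)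
          (CovZ.n2 (-15168, 16800) (by decide +kernel)
           (CovZ.n2 (-15120, 16848) (by decide +kernel)
            (CovZ.n2 (-15120, 16800) (by decide +kernel)
             (CovZ.leaf K2_ok TB_l34699 _)
             (CovZ.leaf K2_ok TB_l34700 _))
            (CovZ.leaf K2_ok TB_l34701 _))
           (CovZ.n1 (-15120, 16752) (by decide +kernel)
            (CovZ.n2 (-15168, 16752) (by decide +kernel)
             (CovZ.leaf K2_ok TB_l34702 _)
             (CovZ.leaf K2_ok TB_l34703 _))
            (CovZ.n1 (-15120, 16800) (by decide +kernel)
             (CovZ.leaf K2_ok TB_l34704 _)
             (CovZ.leaf K2_ok TB_l34705 _))))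
          (CovZ.n1 (-15072, 16896) (by decide +kernel)
           (CovZ.subM 661055968790549212411469337654978099600611265452552230962469323359739020621673717076836218791260876449091948807804524953600 (by decide +kernel)
            (CovZ.n2 (-15024, 16848) (by decide +kernel)
             (CovZ.n2 (-15072, 16848) (by decide +kernel)
              (CovZ.leaf K2_ok TB_l34706 _)
              (CovZ.n1 (-15048, 16824) (by decide +kernel)
               (CovZ.leaf K2_ok TB_l34707 _)
               (CovZ.leaf K2_ok TB_l34708 _)))
             (CovZ.n1 (-15024, 16896) (by decide +kernel)
              (CovZ.n2 (-15000, 16872) (by decide +kernel)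
               (CovZ.leaf K2_ok TB_l34709 _)
               (CovZ.leaf K2_ok TB_l34710 _))
              (CovZ.leaf K2_ok TB_l34711 _))))
           (CovZ.n1 (-15120, 16848) (by decide +kernel)
            (CovZ.n2 (-15120, 16896) (by decide +kernel)
             (CovZ.leaf K2_ok TB_l34712 _)
             (CovZ.leaf K2_ok TB_l34713 _))
            (CovZ.n1 (-15072, 16848) (by decide +kernel)
             (CovZ.leaf K2_ok TB_l34714 _)
             (CovZ.leaf K2_ok TB_l34715 _)))))
         (CovZ.n1 (-15264, 16800) (by decide +kernel)
          (CovZ.n2 (-15264, 16896) (by decide +kernel)
           (CovZ.n2 (-15216, 16848) (by decide +kernel)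
            (CovZ.leaf K2_ok TB_l34716 _)
            (CovZ.n1 (-15216, 16896) (by decide +kernel)
             (CovZ.leaf K2_ok TB_l34717 _)
             (CovZ.leaf K2_ok TB_l34718 _)))
           (CovZ.n1 (-15312, 16848) (by decide +kernel)
            (CovZ.n2 (-15312, 16896) (by decide +kernel)
             (CovZ.leaf K2_ok TB_l34719 _)
             (CovZ.leaf K2_ok TB_l34720 _))
            (CovZ.leaf K2_ok TB_l34721 _)))
          (CovZ.n1 (-15168, 16800) (by decide +kernel)
           (CovZ.n2 (-15216, 16752) (by decide +kernel)
            (CovZ.n2 (-15216, 16800) (by decide +kernel)
             (CovZ.leaf K2_ok TB_l34722 _)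
             (CovZ.leaf K2_ok TB_l34723 _))
            (CovZ.n1 (-15168, 16752) (by decide +kernel)
             (CovZ.leaf K2_ok TB_l34724 _)
             (CovZ.leaf K2_ok TB_l34725 _)))
           (CovZ.n1 (-15216, 16848) (by decide +kernel)
            (CovZ.n2 (-15168, 16848) (by decide +kernel)
             (CovZ.leaf K2_ok TB_l34726 _)
             (CovZ.leaf K2_ok TB_l34727 _))
            (CovZ.n1 (-15216, 16800) (by decide +kernel)
             (CovZ.leaf K2_ok TB_l34728 _)
             (CovZ.leaf K2_ok TB_l34729 _))))))
        (CovZ.n1 (-14976, 16704) (by decide +kernel)
         (CovZ.n2 (-15072, 16608) (by decide +kernel)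
          (CovZ.n2 (-15072, 16704) (by decide +kernel)
           (CovZ.subM 661055968790549212411469337654978099600611265452552230962469323359739020621673717076836218791260257479367454022846428217856 (by decide +kernel)
            (CovZ.n2 (-15024, 16656) (by decide +kernel)
             (CovZ.n2 (-15072, 16656) (by decide +kernel)
              (CovZ.n2 (-15048, 16680) (by decide +kernel)
               (CovZ.leaf K2_ok TB_l34730 _)
               (CovZ.leaf K2_ok TB_l34731 _))
              (CovZ.n1 (-15048, 16632) (by decide +kernel)
               (CovZ.leaf K2_ok TB_l34732 _)
               (CovZ.leaf K2_ok TB_l34733 _)))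
             (CovZ.n1 (-15024, 16704) (by decide +kernel)
              (CovZ.n2 (-15000, 16680) (by decide +kernel)
               (CovZ.leaf K2_ok TB_l34734 _)
               (CovZ.leaf K2_ok TB_l34735 _))
              (CovZ.n1 (-15048, 16680) (by decide +kernel)
               (CovZ.leaf K2_ok TB_l34736 _)
               (CovZ.leaf K2_ok TB_l34737 _)))))
           (CovZ.n1 (-15120, 16656) (by decide +kernel)
            (CovZ.n2 (-15120, 16704) (by decide +kernel)
             (CovZ.leaf K2_ok TB_l34738 _)
             (CovZ.leaf K2_ok TB_l34739 _))
            (CovZ.n1 (-15072, 16656) (by decide +kernel)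
             (CovZ.n2 (-15096, 16632) (by decide +kernel)
              (CovZ.leaf K2_ok TB_l34740 _)
              (CovZ.leaf K2_ok TB_l34741 _))
             (CovZ.leaf K2_ok TB_l34742 _))))
          (CovZ.subM 661055968790549212411469337654978099600611265452552230962469323359739020621673717076836218791260257479367454022846159782400 (by decide +kernel)
           (CovZ.n1 (-14976, 16608) (by decide +kernel)
            (CovZ.n2 (-15024, 16560) (by decide +kernel)
             (CovZ.n2 (-15024, 16608) (by decide +kernel)
              (CovZ.n2 (-15000, 16584) (by decide +kernel)
               (CovZ.leaf K2_ok TB_l34743 _)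
               (CovZ.n1 (-15000, 16608) (by decide +kernel)
                (CovZ.leaf K2_ok TB_l34744 _)
                (CovZ.leaf K2_ok TB_l34745 _)))
              (CovZ.n1 (-15048, 16584) (by decide +kernel)
               (CovZ.leaf K2_ok TB_l34746 _)
               (CovZ.leaf K2_ok TB_l34747 _)))
             (CovZ.n1 (-14976, 16560) (by decide +kernel)
              (CovZ.n2 (-15000, 16536) (by decide +kernel)
               (CovZ.n2 (-15000, 16560) (by decide +kernel)
                (CovZ.leaf K2_ok TB_l34748 _)
                (CovZ.leaf K2_ok TB_l34749 _))
               (CovZ.leaf K2_ok TB_l34750 _))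
              (CovZ.n1 (-15000, 16584) (by decide +kernel)
               (CovZ.leaf K2_ok TB_l34751 _)
               (CovZ.n1 (-15000, 16560) (by decide +kernel)
                (CovZ.leaf K2_ok TB_l34752 _)
                (CovZ.leaf K2_ok TB_l34753 _)))))
            (CovZ.n1 (-15024, 16656) (by decide +kernel)
             (CovZ.n2 (-14976, 16656) (by decide +kernel)
              (CovZ.n2 (-15000, 16632) (by decide +kernel)
               (CovZ.n2 (-15000, 16656) (by decide +kernel)
                (CovZ.leaf K2_ok TB_l34754 _)
                (CovZ.leaf K2_ok TB_l34755 _))
               (CovZ.leaf K2_ok TB_l34756 _))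
              (CovZ.n1 (-15000, 16680) (by decide +kernel)
               (CovZ.leaf K2_ok TB_l34757 _)
               (CovZ.leaf K2_ok TB_l34758 _)))
             (CovZ.n1 (-15024, 16608) (by decide +kernel)
              (CovZ.n2 (-15048, 16632) (by decide +kernel)
               (CovZ.leaf K2_ok TB_l34759 _)
               (CovZ.leaf K2_ok TB_l34760 _))
              (CovZ.n1 (-15000, 16632) (by decide +kernel)
               (CovZ.n2 (-15000, 16608) (by decide +kernel)
                (CovZ.leaf K2_ok TB_l34761 _)
                (CovZ.leaf K2_ok TB_l34762 _))
               (CovZ.leaf K2_ok TB_l34763 _)))))))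
         (CovZ.n1 (-15072, 16800) (by decide +kernel)
          (CovZ.subM 661055968790549212411469337654978099600611265452552230962469323359739020621673717076836218791260876449387096712983877779456 (by decide +kernel)
           (CovZ.n2 (-14976, 16800) (by decide +kernel)
            (CovZ.n2 (-15024, 16752) (by decide +kernel)
             (CovZ.n2 (-15024, 16800) (by decide +kernel)
              (CovZ.n2 (-15000, 16776) (by decide +kernel)
               (CovZ.leaf K2_ok TB_l34764 _)
               (CovZ.leaf K2_ok TB_l34765 _))
              (CovZ.leaf K2_ok TB_l34766 _))
             (CovZ.n1 (-14976, 16752) (by decide +kernel)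
              (CovZ.n2 (-15000, 16728) (by decide +kernel)
               (CovZ.leaf K2_ok TB_l34767 _)
               (CovZ.leaf K2_ok TB_l34768 _))
              (CovZ.n1 (-15000, 16776) (by decide +kernel)
               (CovZ.leaf K2_ok TB_l34769 _)
               (CovZ.leaf K2_ok TB_l34770 _))))
            (CovZ.n1 (-15024, 16848) (by decide +kernel)
             (CovZ.n2 (-14976, 16848) (by decide +kernel)
              (CovZ.n2 (-15000, 16824) (by decide +kernel)
               (CovZ.leaf K2_ok TB_l34771 _)
               (CovZ.leaf K2_ok TB_l34772 _))
              (CovZ.n1 (-15000, 16872) (by decide +kernel)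
               (CovZ.leaf K2_ok TB_l34773 _)
               (CovZ.leaf K2_ok TB_l34774 _)))
             (CovZ.n1 (-15024, 16800) (by decide +kernel)
              (CovZ.n2 (-15048, 16824) (by decide +kernel)
               (CovZ.leaf K2_ok TB_l34775 _)
               (CovZ.leaf K2_ok TB_l34776 _))
              (CovZ.n1 (-15000, 16824) (by decide +kernel)
               (CovZ.leaf K2_ok TB_l34777 _)
               (CovZ.leaf K2_ok TB_l34778 _))))))
          (CovZ.n1 (-15072, 16704) (by decide +kernel)
           (CovZ.n2 (-15120, 16752) (by decide +kernel)
            (CovZ.n2 (-15072, 16752) (by decide +kernel)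
             (CovZ.leaf K2_ok TB_l34779 _)
             (CovZ.leaf K2_ok TB_l34780 _))
            (CovZ.n1 (-15120, 16704) (by decide +kernel)
             (CovZ.leaf K2_ok TB_l34781 _)
             (CovZ.leaf K2_ok TB_l34782 _)))
           (CovZ.subM 661055968790549212411469337654978099600611265452552230962469323359739020621673717076836218791260876449387096712983877779456 (by decide +kernel)
            (CovZ.n1 (-15024, 16752) (by decide +kernel)
             (CovZ.n2 (-15024, 16704) (by decide +kernel)
              (CovZ.n2 (-15048, 16728) (by decide +kernel)
               (CovZ.leaf K2_ok TB_l34783 _)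
               (CovZ.leaf K2_ok TB_l34784 _))
              (CovZ.n1 (-15000, 16728) (by decide +kernel)
               (CovZ.leaf K2_ok TB_l34785 _)
               (CovZ.leaf K2_ok TB_l34786 _)))
             (CovZ.n1 (-15072, 16752) (by decide +kernel)
              (CovZ.leaf K2_ok TB_l34787 _)
              (CovZ.n1 (-15048, 16728) (by decide +kernel)
               (CovZ.leaf K2_ok TB_l34788 _)
               (CovZ.leaf K2_ok TB_l34789 _))))))))))

theorem TB_u408 : CovZ TB_M (toL (selN TB_LN 21662143041287656644952993094196621173948096605418733204202076764465711507337183898636845412613227788693841369552371050617111360)) [0, 7, 6, 1] (-14976, 16512) (-14592, 16128) (-14592, 16896) :=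
    (CovZ.subM 661055968790549212411469337654978099600611265452552230962469323359739011642207478908445966442221075277084469105408788660736 (by decide +kernel)
       (CovZ.n1 (-14592, 16512) (by decide +kernel)
        (CovZ.n2 (-14784, 16320) (by decide +kernel)
         (CovZ.n2 (-14784, 16512) (by decide +kernel)
          (CovZ.badM (by decide +kernel))
          (CovZ.n1 (-14880, 16416) (by decide +kernel)
           (CovZ.n2 (-14880, 16512) (by decide +kernel)
            (CovZ.subM 300613459554029622141874620963878933510421415791421556427396381337364138020335782731144859594553035489823162880 (by decide +kernel)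
             (CovZ.n2 (-14832, 16464) (by decide +kernel)
              (CovZ.n2 (-14880, 16464) (by decide +kernel)
               (CovZ.n2 (-14856, 16488) (by decide +kernel)
                (CovZ.n2 (-14856, 16464) (by decide +kernel)
                 (CovZ.n2 (-14868, 16476) (by decide +kernel)
                  (CovZ.leaf K2_ok TB_l46571 _)
                  (CovZ.leaf K2_ok TB_l46572 _))
                 (CovZ.n1 (-14844, 16476) (by decide +kernel)
                  (CovZ.n2 (-14844, 16464) (by decide +kernel)
                   (CovZ.leaf K2_ok TB_l46573 _)
                   (CovZ.badM (by decide +kernel)))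
                  (CovZ.leaf K2_ok TB_l46574 _)))
                (CovZ.n1 (-14880, 16488) (by decide +kernel)
                 (CovZ.n2 (-14868, 16500) (by decide +kernel)
                  (CovZ.leaf K2_ok TB_l46575 _)
                  (CovZ.leaf K2_ok TB_l46576 _))
                 (CovZ.n1 (-14868, 16476) (by decide +kernel)
                  (CovZ.leaf K2_ok TB_l46577 _)
                  (CovZ.n1 (-14868, 16488) (by decide +kernel)
                   (CovZ.leaf K2_ok TB_l46578 _)
                   (CovZ.leaf K2_ok TB_l46579 _)))))
               (CovZ.n1 (-14856, 16440) (by decide +kernel)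
                (CovZ.n2 (-14880, 16440) (by decide +kernel)
                 (CovZ.n2 (-14868, 16452) (by decide +kernel)
                  (CovZ.n2 (-14868, 16440) (by decide +kernel)
                   (CovZ.leaf K2_ok TB_l46580 _)
                   (CovZ.leaf K2_ok TB_l46581 _))
                  (CovZ.leaf K2_ok TB_l46582 _))
                 (CovZ.n1 (-14868, 16428) (by decide +kernel)
                  (CovZ.leaf K2_ok TB_l46583 _)
                  (CovZ.n1 (-14868, 16440) (by decide +kernel)
                   (CovZ.badM (by decide +kernel))
                   (CovZ.leaf K2_ok TB_l46584 _))))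
                (CovZ.n1 (-14856, 16464) (by decide +kernel)
                 (CovZ.subM 8958978968711216842229769122273777112486581988938598139599956403855167484720643781541956717160138014720 (by decide +kernel)
                  (CovZ.n2 (-14844, 16452) (by decide +kernel)
                   (CovZ.n2 (-14856, 16452) (by decide +kernel)
                    (CovZ.leaf K2_ok TB_l46585 _)
                    (CovZ.badM (by decide +kernel)))
                   (CovZ.n1 (-14844, 16464) (by decide +kernel)
                    (CovZ.badM (by decide +kernel))
                    (CovZ.leaf K2_ok TB_l46586 _))))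
                 (CovZ.n1 (-14868, 16452) (by decide +kernel)
                  (CovZ.n2 (-14868, 16464) (by decide +kernel)
                   (CovZ.leaf K2_ok TB_l46587 _)
                   (CovZ.leaf K2_ok TB_l46588 _))
                  (CovZ.leaf K2_ok TB_l46589 _)))))
              (CovZ.n1 (-14832, 16512) (by decide +kernel)
               (CovZ.subM 411376139330301510583343786036398872528755402953691688849113088 (by decide +kernel)
                (CovZ.n2 (-14808, 16488) (by decide +kernel)
                 (CovZ.n2 (-14832, 16488) (by decide +kernel)
                  (CovZ.n2 (-14820, 16500) (by decide +kernel)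
                   (CovZ.badM (by decide +kernel))
                   (CovZ.leaf K2_ok TB_l46590 _))
                  (CovZ.badM (by decide +kernel)))
                 (CovZ.n1 (-14808, 16512) (by decide +kernel)
                  (CovZ.badM (by decide +kernel))
                  (CovZ.n1 (-14820, 16500) (by decide +kernel)
                   (CovZ.n2 (-14820, 16512) (by decide +kernel)
                    (CovZ.leaf K2_ok TB_l46591 _)
                    (CovZ.leaf K2_ok TB_l46592 _))
                   (CovZ.n1 (-14808, 16500) (by decide +kernel)
                    (CovZ.badM (by decide +kernel))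
                    (CovZ.leaf K2_ok TB_l46593 _))))))
               (CovZ.n1 (-14856, 16488) (by decide +kernel)
                (CovZ.n2 (-14856, 16512) (by decide +kernel)
                 (CovZ.n2 (-14844, 16500) (by decide +kernel)
                  (CovZ.leaf K2_ok TB_l46594 _)
                  (CovZ.n1 (-14844, 16512) (by decide +kernel)
                   (CovZ.leaf K2_ok TB_l46595 _)
                   (CovZ.leaf K2_ok TB_l46596 _)))
                 (CovZ.n1 (-14868, 16500) (by decide +kernel)
                  (CovZ.leaf K2_ok TB_l46597 _)
                  (CovZ.leaf K2_ok TB_l46598 _)))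
                (CovZ.subM 8958978968711280499604029574963973001414756158145461299497841808191571558847332169293593954238102241280 (by decide +kernel)
                 (CovZ.n1 (-14832, 16488) (by decide +kernel)
                  (CovZ.n2 (-14844, 16476) (by decide +kernel)
                   (CovZ.n2 (-14844, 16488) (by decide +kernel)
                    (CovZ.leaf K2_ok TB_l46599 _)
                    (CovZ.leaf K2_ok TB_l46600 _))
                   (CovZ.badM (by decide +kernel)))
                  (CovZ.n1 (-14844, 16500) (by decide +kernel)
                   (CovZ.n2 (-14832, 16500) (by decide +kernel)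
                    (CovZ.leaf K2_ok TB_l46601 _)
                    (CovZ.leaf K2_ok TB_l46602 _))
                   (CovZ.n1 (-14844, 16488) (by decide +kernel)
                    (CovZ.leaf K2_ok TB_l46603 _)
                    (CovZ.leaf K2_ok TB_l46604 _)))))))))
            (CovZ.n1 (-14928, 16464) (by decide +kernel)
             (CovZ.n2 (-14928, 16512) (by decide +kernel)
              (CovZ.n2 (-14904, 16488) (by decide +kernel)
               (CovZ.n2 (-14928, 16488) (by decide +kernel)
                (CovZ.n2 (-14916, 16500) (by decide +kernel)
                 (CovZ.leaf K2_ok TB_l34790 _)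
                 (CovZ.leaf K2_ok TB_l34791 _))
                (CovZ.n1 (-14916, 16476) (by decide +kernel)
                 (CovZ.leaf K2_ok TB_l34792 _)
                 (CovZ.leaf K2_ok TB_l34793 _)))
               (CovZ.n1 (-14904, 16512) (by decide +kernel)
                (CovZ.n2 (-14892, 16500) (by decide +kernel)
                 (CovZ.leaf K2_ok TB_l46605 _)
                 (CovZ.leaf K2_ok TB_l46606 _))
                (CovZ.n1 (-14916, 16500) (by decide +kernel)
                 (CovZ.n2 (-14916, 16512) (by decide +kernel)
                  (CovZ.leaf K2_ok TB_l46607 _)
                  (CovZ.leaf K2_ok TB_l46608 _))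
                 (CovZ.leaf K2_ok TB_l46609 _))))
              (CovZ.n1 (-14952, 16488) (by decide +kernel)
               (CovZ.n2 (-14952, 16512) (by decide +kernel)
                (CovZ.leaf K2_ok TB_l34794 _)
                (CovZ.leaf K2_ok TB_l34795 _))
               (CovZ.n1 (-14928, 16488) (by decide +kernel)
                (CovZ.leaf K2_ok TB_l34796 _)
                (CovZ.leaf K2_ok TB_l34797 _))))
             (CovZ.n1 (-14880, 16464) (by decide +kernel)
              (CovZ.n2 (-14904, 16440) (by decide +kernel)
               (CovZ.n2 (-14904, 16464) (by decide +kernel)
                (CovZ.n2 (-14892, 16452) (by decide +kernel)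
                 (CovZ.leaf K2_ok TB_l46610 _)
                 (CovZ.n1 (-14892, 16464) (by decide +kernel)
                  (CovZ.leaf K2_ok TB_l46611 _)
                  (CovZ.leaf K2_ok TB_l46612 _)))
                (CovZ.n1 (-14916, 16452) (by decide +kernel)
                 (CovZ.n2 (-14916, 16464) (by decide +kernel)
                  (CovZ.leaf K2_ok TB_l46613 _)
                  (CovZ.leaf K2_ok TB_l46614 _))
                 (CovZ.leaf K2_ok TB_l46615 _)))
               (CovZ.subM 300613459554029621881134015993064714468060367675021151812808426947366072602159764026971838803575892807144964608 (by decide +kernel)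
                (CovZ.n1 (-14880, 16440) (by decide +kernel)
                 (CovZ.n2 (-14892, 16428) (by decide +kernel)
                  (CovZ.leaf K2_ok TB_l46616 _)
                  (CovZ.leaf K2_ok TB_l46617 _))
                 (CovZ.n1 (-14892, 16452) (by decide +kernel)
                  (CovZ.leaf K2_ok TB_l46618 _)
                  (CovZ.leaf K2_ok TB_l46619 _)))))
              (CovZ.n1 (-14904, 16488) (by decide +kernel)
               (CovZ.subM 300613459554029622141874620963878933510421415791421556427396381337364138020335782731144859594553035489823162880 (by decide +kernel)
                (CovZ.n2 (-14880, 16488) (by decide +kernel)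
                 (CovZ.n2 (-14892, 16476) (by decide +kernel)
                  (CovZ.leaf K2_ok TB_l46620 _)
                  (CovZ.leaf K2_ok TB_l46621 _))
                 (CovZ.n1 (-14892, 16500) (by decide +kernel)
                  (CovZ.leaf K2_ok TB_l46622 _)
                  (CovZ.leaf K2_ok TB_l46623 _))))
               (CovZ.n1 (-14904, 16464) (by decide +kernel)
                (CovZ.leaf K2_ok TB_l46624 _)
                (CovZ.leaf K2_ok TB_l46625 _))))))
           (CovZ.n1 (-14784, 16416) (by decide +kernel)
            (CovZ.badM (by decide +kernel))
            (CovZ.n1 (-14832, 16464) (by decide +kernel)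
             (CovZ.badM (by decide +kernel))
             (CovZ.badM (by decide +kernel))))))
         (CovZ.badM (by decide +kernel)))
        (CovZ.n1 (-14784, 16704) (by decide +kernel)
         (CovZ.subM 300613450595050653430594121359849358546448414376665398281935081839522329828764223883812690300959081251720921600 (by decide +kernel)
          (CovZ.n2 (-14592, 16704) (by decide +kernel)
           (CovZ.n2 (-14688, 16608) (by decide +kernel)
            (CovZ.n2 (-14688, 16704) (by decide +kernel)
             (CovZ.badM (by decide +kernel))
             (CovZ.n1 (-14736, 16656) (by decide +kernel)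
              (CovZ.n2 (-14736, 16704) (by decide +kernel)
               (CovZ.badM (by decide +kernel))
               (CovZ.n1 (-14760, 16680) (by decide +kernel)
                (CovZ.n2 (-14760, 16704) (by decide +kernel)
                 (CovZ.badM (by decide +kernel))
                 (CovZ.n1 (-14772, 16692) (by decide +kernel)
                  (CovZ.n2 (-14772, 16704) (by decide +kernel)
                   (CovZ.leaf K2_ok TB_l46626 _)
                   (CovZ.leaf K2_ok TB_l46627 _))
                  (CovZ.badM (by decide +kernel))))
                (CovZ.badM (by decide +kernel))))
              (CovZ.badM (by decide +kernel))))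
            (CovZ.badM (by decide +kernel)))
           (CovZ.n1 (-14688, 16800) (by decide +kernel)
            (CovZ.badM (by decide +kernel))
            (CovZ.n1 (-14688, 16704) (by decide +kernel)
             (CovZ.n2 (-14736, 16752) (by decide +kernel)
              (CovZ.badM (by decide +kernel))
              (CovZ.n1 (-14736, 16704) (by decide +kernel)
               (CovZ.n2 (-14760, 16728) (by decide +kernel)
                (CovZ.badM (by decide +kernel))
                (CovZ.n1 (-14760, 16704) (by decide +kernel)
                 (CovZ.n2 (-14772, 16716) (by decide +kernel)
                  (CovZ.badM (by decide +kernel))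
                  (CovZ.n1 (-14772, 16704) (by decide +kernel)
                   (CovZ.leaf K2_ok TB_l46630 _)
                   (CovZ.leaf K2_ok TB_l46631 _)))
                 (CovZ.badM (by decide +kernel))))
               (CovZ.badM (by decide +kernel))))
             (CovZ.badM (by decide +kernel))))))
         (CovZ.n1 (-14784, 16512) (by decide +kernel)
          (CovZ.n2 (-14880, 16608) (by decide +kernel)
           TB_u405
           TB_u406)
          (CovZ.subM 300613450595050653430594121359849358546448414376665398281935081839522329828764223883812690301103196439796777472 (by decide +kernel)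
           (CovZ.n1 (-14688, 16608) (by decide +kernel)
            (CovZ.badM (by decide +kernel))
            (CovZ.n1 (-14784, 16608) (by decide +kernel)
             (CovZ.n2 (-14736, 16656) (by decide +kernel)
              (CovZ.badM (by decide +kernel))
              (CovZ.n1 (-14784, 16656) (by decide +kernel)
               (CovZ.n2 (-14760, 16680) (by decide +kernel)
                (CovZ.badM (by decide +kernel))
                (CovZ.n1 (-14784, 16680) (by decide +kernel)
                 (CovZ.n2 (-14772, 16692) (by decide +kernel)
                  (CovZ.n2 (-14772, 16680) (by decide +kernel)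
                   (CovZ.leaf K2_ok TB_l46744 _)
                   (CovZ.badM (by decide +kernel)))
                  (CovZ.leaf K2_ok TB_l46746 _))
                 (CovZ.n1 (-14772, 16668) (by decide +kernel)
                  (CovZ.leaf K2_ok TB_l46747 _)
                  (CovZ.n1 (-14772, 16680) (by decide +kernel)
                   (CovZ.badM (by decide +kernel))
                   (CovZ.leaf K2_ok TB_l46748 _)))))
               (CovZ.badM (by decide +kernel))))
             (CovZ.n1 (-14736, 16560) (by decide +kernel)
              (CovZ.n2 (-14784, 16560) (by decide +kernel)
               (CovZ.badM (by decide +kernel))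
               (CovZ.badM (by decide +kernel)))
              (CovZ.badM (by decide +kernel))))))))))

theorem TB_u409 : CovZ TB_M (toL (selN TB_LN 21662143041287659049273462208908388356174160084278763128957841492648825873060931511515749678679489155002730941269579353953567568)) [0, 7, 6, 1] (-15360, 16896) (-15360, 17664) (-16128, 17664) :=
    (CovZ.n2 (-15744, 17280) (by decide +kernel)
      (CovZ.n2 (-15744, 17664) (by decide +kernel)
       (CovZ.n2 (-15552, 17472) (by decide +kernel)
        (CovZ.subM 661055968790553909496634885321173074299459788097400793568988102210258420073823031712441123565401263411093807616915698483472 (by decide +kernel)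
         (CovZ.n2 (-15744, 17472) (by decide +kernel)
          (CovZ.n2 (-15648, 17568) (by decide +kernel)
           (CovZ.n2 (-15648, 17472) (by decide +kernel)
            (CovZ.leaf K2_ok TB_l27917 _)
            (CovZ.leaf K2_ok TB_l27918 _))
           (CovZ.leaf K2_ok TB_l27919 _))
          (CovZ.n1 (-15648, 17376) (by decide +kernel)
           (CovZ.leaf K2_ok TB_l27920 _)
           (CovZ.n1 (-15648, 17472) (by decide +kernel)
            (CovZ.leaf K2_ok TB_l27921 _)
            (CovZ.leaf K2_ok TB_l27922 _)))))
        (CovZ.n1 (-15552, 17664) (by decide +kernel)
         (CovZ.subM 661055968790553909496634885321173074299459773276013371192515094370707702114638481855507982355999925803725836772202046947600 (by decide +kernel)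
          (CovZ.n2 (-15456, 17568) (by decide +kernel)
           (CovZ.n2 (-15552, 17568) (by decide +kernel)
            (CovZ.leaf K2_ok TB_l27923 _)
            (CovZ.leaf K2_ok TB_l27924 _))
           (CovZ.n1 (-15456, 17664) (by decide +kernel)
            (CovZ.leaf K2_ok TB_l27925 _)
            (CovZ.leaf K2_ok TB_l27926 _))))
         (CovZ.subM 661055968790553909496634885321173074299459788097400793568988102160041606190729585601754808179739932082238070572918564323600 (by decide +kernel)
          (CovZ.n1 (-15648, 17568) (by decide +kernel)
           (CovZ.n2 (-15648, 17664) (by decide +kernel)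
            (CovZ.leaf K2_ok TB_l27927 _)
            (CovZ.leaf K2_ok TB_l27928 _))
           (CovZ.n1 (-15552, 17568) (by decide +kernel)
            (CovZ.leaf K2_ok TB_l27929 _)
            (CovZ.leaf K2_ok TB_l27930 _))))))
       (CovZ.n1 (-15936, 17472) (by decide +kernel)
        (CovZ.n2 (-15936, 17664) (by decide +kernel)
         (CovZ.n2 (-15840, 17568) (by decide +kernel)
          (CovZ.leaf K2_ok TB_l27931 _)
          (CovZ.leaf K2_ok TB_l27932 _))
         (CovZ.n1 (-16032, 17568) (by decide +kernel)
          (CovZ.leaf K2_ok TB_l27933 _)
          (CovZ.leaf K2_ok TB_l27934 _)))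
        (CovZ.subM 661055968790553909487675906352461857457230018975127016456501520221319821934223075308585950888386234556969600644624389636112 (by decide +kernel)
         (CovZ.n1 (-15744, 17472) (by decide +kernel)
          (CovZ.n2 (-15840, 17376) (by decide +kernel)
           (CovZ.leaf K2_ok TB_l27935 _)
           (CovZ.leaf K2_ok TB_l27936 _))
          (CovZ.n1 (-15840, 17568) (by decide +kernel)
           (CovZ.leaf K2_ok TB_l27937 _)
           (CovZ.n1 (-15840, 17472) (by decide +kernel)
            (CovZ.leaf K2_ok TB_l27938 _)
            (CovZ.leaf K2_ok TB_l27939 _)))))))
      (CovZ.n1 (-15360, 17280) (by decide +kernel)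
       (CovZ.n2 (-15552, 17088) (by decide +kernel)
        (CovZ.n2 (-15552, 17280) (by decide +kernel)
         (CovZ.n2 (-15456, 17184) (by decide +kernel)
          (CovZ.n2 (-15552, 17184) (by decide +kernel)
           (CovZ.leaf K2_ok TB_l27940 _)
           (CovZ.leaf K2_ok TB_l27941 _))
          (CovZ.n1 (-15456, 17280) (by decide +kernel)
           (CovZ.leaf K2_ok TB_l27942 _)
           (CovZ.leaf K2_ok TB_l27943 _)))
         (CovZ.subM 661055968790553909496634885321173074299459773276013371192515087993172338961770826493883086363409066360523054604035104571664 (by decide +kernel)
          (CovZ.n1 (-15648, 17184) (by decide +kernel)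
           (CovZ.n2 (-15648, 17280) (by decide +kernel)
            (CovZ.leaf K2_ok TB_l27944 _)
            (CovZ.leaf K2_ok TB_l27945 _))
           (CovZ.n1 (-15552, 17184) (by decide +kernel)
            (CovZ.leaf K2_ok TB_l27946 _)
            (CovZ.leaf K2_ok TB_l27947 _)))))
        (CovZ.n1 (-15360, 17088) (by decide +kernel)
         (CovZ.n2 (-15456, 16992) (by decide +kernel)
          (CovZ.n2 (-15456, 17088) (by decide +kernel)
           (CovZ.leaf K2_ok TB_l27948 _)
           (CovZ.leaf K2_ok TB_l27949 _))
          (CovZ.n1 (-15360, 16992) (by decide +kernel)
           (CovZ.n2 (-15408, 16944) (by decide +kernel)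
            (CovZ.leaf K2_ok TB_l27950 _)
            (CovZ.leaf K2_ok TB_l27951 _))
           (CovZ.leaf K2_ok TB_l27952 _)))
         (CovZ.n1 (-15456, 17184) (by decide +kernel)
          (CovZ.n2 (-15360, 17184) (by decide +kernel)
           (CovZ.leaf K2_ok TB_l27953 _)
           (CovZ.leaf K2_ok TB_l27954 _))
          (CovZ.n1 (-15456, 17088) (by decide +kernel)
           (CovZ.leaf K2_ok TB_l27955 _)
           (CovZ.leaf K2_ok TB_l27956 _)))))
       (CovZ.n1 (-15552, 17472) (by decide +kernel)
        (CovZ.subM 661055968790553909496634885321173074299459773276013371192515094370707702114638481855507982355999925803725836772202046947600 (by decide +kernel)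
         (CovZ.n2 (-15360, 17472) (by decide +kernel)
          (CovZ.n2 (-15456, 17376) (by decide +kernel)
           (CovZ.n2 (-15456, 17472) (by decide +kernel)
            (CovZ.leaf K2_ok TB_l27957 _)
            (CovZ.leaf K2_ok TB_l27958 _))
           (CovZ.n1 (-15360, 17376) (by decide +kernel)
            (CovZ.leaf K2_ok TB_l27959 _)
            (CovZ.leaf K2_ok TB_l27960 _)))
          (CovZ.n1 (-15456, 17568) (by decide +kernel)
           (CovZ.n2 (-15360, 17568) (by decide +kernel)
            (CovZ.leaf K2_ok TB_l27961 _)
            (CovZ.leaf K2_ok TB_l27962 _))
           (CovZ.n1 (-15456, 17472) (by decide +kernel)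
            (CovZ.leaf K2_ok TB_l27963 _)
            (CovZ.leaf K2_ok TB_l27964 _)))))
        (CovZ.n1 (-15552, 17280) (by decide +kernel)
         (CovZ.subM 661055968790553909496634885321173074299459773276013371192515087993172338961770826493883086363409066360523054604035104571664 (by decide +kernel)
          (CovZ.n2 (-15648, 17376) (by decide +kernel)
           (CovZ.n2 (-15552, 17376) (by decide +kernel)
            (CovZ.leaf K2_ok TB_l27965 _)
            (CovZ.leaf K2_ok TB_l27966 _))
           (CovZ.n1 (-15648, 17280) (by decide +kernel)
            (CovZ.leaf K2_ok TB_l27967 _)
            (CovZ.leaf K2_ok TB_l27968 _))))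
         (CovZ.n1 (-15456, 17376) (by decide +kernel)
          (CovZ.n2 (-15456, 17280) (by decide +kernel)
           (CovZ.leaf K2_ok TB_l27969 _)
           (CovZ.leaf K2_ok TB_l27970 _))
          (CovZ.n1 (-15552, 17376) (by decide +kernel)
           (CovZ.leaf K2_ok TB_l27971 _)
           (CovZ.leaf K2_ok TB_l27972 _)))))))

theorem TB_u410 : CovZ TB_M (toL (selN TB_LN 21662143041287659049273462208908388356174160084278763128957841492648825873060931511515749678679489155002730941269579353953567568)) [0, 7, 6, 1] (-15360, 17664) (-15360, 18432) (-16128, 17664) :=
    (CovZ.n1 (-15744, 18048) (by decide +kernel)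
      (CovZ.subM 305310535760598319625632477582632456085206909823631223295746862182075580538443124901632752420848746698056532240 (by decide +kernel)
       (CovZ.n2 (-15360, 18048) (by decide +kernel)
        (CovZ.n2 (-15552, 17856) (by decide +kernel)
         (CovZ.n2 (-15552, 18048) (by decide +kernel)
          (CovZ.n2 (-15456, 17952) (by decide +kernel)
           (CovZ.n2 (-15552, 17952) (by decide +kernel)
            (CovZ.leaf K2_ok TB_l27973 _)
            (CovZ.leaf K2_ok TB_l27974 _))
           (CovZ.n1 (-15456, 18048) (by decide +kernel)
            (CovZ.n2 (-15408, 18000) (by decide +kernel)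
             (CovZ.leaf K2_ok TB_l27975 _)
             (CovZ.leaf K2_ok TB_l27976 _))
            (CovZ.leaf K2_ok TB_l27977 _)))
          (CovZ.n1 (-15648, 17952) (by decide +kernel)
           (CovZ.n2 (-15648, 18048) (by decide +kernel)
            (CovZ.leaf K2_ok TB_l27978 _)
            (CovZ.leaf K2_ok TB_l27979 _))
           (CovZ.n1 (-15552, 17952) (by decide +kernel)
            (CovZ.leaf K2_ok TB_l27980 _)
            (CovZ.leaf K2_ok TB_l27981 _))))
         (CovZ.n1 (-15360, 17856) (by decide +kernel)
          (CovZ.n2 (-15456, 17760) (by decide +kernel)
           (CovZ.n2 (-15456, 17856) (by decide +kernel)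
            (CovZ.n2 (-15408, 17808) (by decide +kernel)
             (CovZ.leaf K2_ok TB_l27982 _)
             (CovZ.leaf K2_ok TB_l27983 _))
            (CovZ.leaf K2_ok TB_l27984 _))
           (CovZ.n1 (-15360, 17760) (by decide +kernel)
            (CovZ.leaf K2_ok TB_l27985 _)
            (CovZ.n1 (-15408, 17808) (by decide +kernel)
             (CovZ.leaf K2_ok TB_l27986 _)
             (CovZ.leaf K2_ok TB_l27987 _))))
          (CovZ.n1 (-15456, 17952) (by decide +kernel)
           (CovZ.n2 (-15360, 17952) (by decide +kernel)
            (CovZ.n2 (-15408, 17904) (by decide +kernel)
             (CovZ.leaf K2_ok TB_l27988 _)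
             (CovZ.leaf K2_ok TB_l27989 _))
            (CovZ.n1 (-15408, 18000) (by decide +kernel)
             (CovZ.leaf K2_ok TB_l27990 _)
             (CovZ.leaf K2_ok TB_l27991 _)))
           (CovZ.n1 (-15456, 17856) (by decide +kernel)
            (CovZ.leaf K2_ok TB_l27992 _)
            (CovZ.n1 (-15408, 17904) (by decide +kernel)
             (CovZ.leaf K2_ok TB_l27993 _)
             (CovZ.leaf K2_ok TB_l27994 _))))))
        (CovZ.n1 (-15552, 18240) (by decide +kernel)
         (CovZ.n2 (-15360, 18240) (by decide +kernel)
          (CovZ.n2 (-15456, 18144) (by decide +kernel)
           (CovZ.n2 (-15456, 18240) (by decide +kernel)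
            (CovZ.n2 (-15408, 18192) (by decide +kernel)
             (CovZ.leaf K2_ok TB_l27995 _)
             (CovZ.n1 (-15408, 18240) (by decide +kernel)
              (CovZ.leaf K2_ok TB_l27996 _)
              (CovZ.leaf K2_ok TB_l27997 _)))
            (CovZ.n1 (-15504, 18192) (by decide +kernel)
             (CovZ.leaf K2_ok TB_l27998 _)
             (CovZ.leaf K2_ok TB_l27999 _)))
           (CovZ.n1 (-15360, 18144) (by decide +kernel)
            (CovZ.n2 (-15408, 18096) (by decide +kernel)
             (CovZ.n2 (-15408, 18144) (by decide +kernel)
              (CovZ.leaf K2_ok TB_l28000 _)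
              (CovZ.leaf K2_ok TB_l28001 _))
             (CovZ.leaf K2_ok TB_l28002 _))
            (CovZ.subM 305310535760598319625632477582617634697784533350617006209665750129858509264996140483396420502464422253932183808 (by decide +kernel)
             (CovZ.n1 (-15408, 18192) (by decide +kernel)
              (CovZ.n2 (-15360, 18192) (by decide +kernel)
               (CovZ.leaf K2_ok TB_l28003 _)
               (CovZ.leaf K2_ok TB_l28004 _))
              (CovZ.n1 (-15408, 18144) (by decide +kernel)
               (CovZ.leaf K2_ok TB_l28005 _)
               (CovZ.leaf K2_ok TB_l28006 _))))))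
          (CovZ.n1 (-15456, 18336) (by decide +kernel)
           (CovZ.subM 4697085165547666455778961193597316581119543563366279845213617825227348762010481771710837403470519090184060928 (by decide +kernel)
            (CovZ.n2 (-15360, 18336) (by decide +kernel)
             (CovZ.n2 (-15408, 18288) (by decide +kernel)
              (CovZ.n2 (-15408, 18336) (by decide +kernel)
               (CovZ.leaf K2_ok TB_l28007 _)
               (CovZ.leaf K2_ok TB_l28008 _))
              (CovZ.n1 (-15360, 18288) (by decide +kernel)
               (CovZ.leaf K2_ok TB_l28009 _)
               (CovZ.leaf K2_ok TB_l28010 _)))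
             (CovZ.n1 (-15408, 18384) (by decide +kernel)
              (CovZ.n2 (-15360, 18384) (by decide +kernel)
               (CovZ.leaf K2_ok TB_l28011 _)
               (CovZ.n1 (-15384, 18408) (by decide +kernel)
                (CovZ.leaf K2_ok TB_l28012 _)
                (CovZ.leaf K2_ok TB_l28013 _)))
              (CovZ.n1 (-15408, 18336) (by decide +kernel)
               (CovZ.leaf K2_ok TB_l28014 _)
               (CovZ.n1 (-15384, 18360) (by decide +kernel)
                (CovZ.leaf K2_ok TB_l28015 _)
                (CovZ.leaf K2_ok TB_l28016 _))))))
           (CovZ.n1 (-15456, 18240) (by decide +kernel)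
            (CovZ.n2 (-15504, 18288) (by decide +kernel)
             (CovZ.leaf K2_ok TB_l28017 _)
             (CovZ.leaf K2_ok TB_l28018 _))
            (CovZ.subM 4697085165547666455778961193597316581119543563366279845213617825940972608363461712239980388195266658643869696 (by decide +kernel)
             (CovZ.n1 (-15408, 18288) (by decide +kernel)
              (CovZ.n2 (-15408, 18240) (by decide +kernel)
               (CovZ.leaf K2_ok TB_l28019 _)
               (CovZ.leaf K2_ok TB_l28020 _))
              (CovZ.n1 (-15456, 18288) (by decide +kernel)
               (CovZ.leaf K2_ok TB_l28021 _)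
               (CovZ.leaf K2_ok TB_l28022 _)))))))
         (CovZ.n1 (-15552, 18048) (by decide +kernel)
          (CovZ.n2 (-15648, 18144) (by decide +kernel)
           (CovZ.n2 (-15552, 18144) (by decide +kernel)
            (CovZ.leaf K2_ok TB_l28023 _)
            (CovZ.leaf K2_ok TB_l28024 _))
           (CovZ.n1 (-15648, 18048) (by decide +kernel)
            (CovZ.leaf K2_ok TB_l28025 _)
            (CovZ.leaf K2_ok TB_l28026 _)))
          (CovZ.n1 (-15456, 18144) (by decide +kernel)
           (CovZ.n2 (-15456, 18048) (by decide +kernel)
            (CovZ.n2 (-15504, 18096) (by decide +kernel)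
             (CovZ.leaf K2_ok TB_l28027 _)
             (CovZ.leaf K2_ok TB_l28028 _))
            (CovZ.n1 (-15408, 18096) (by decide +kernel)
             (CovZ.leaf K2_ok TB_l28029 _)
             (CovZ.leaf K2_ok TB_l28030 _)))
           (CovZ.n1 (-15552, 18144) (by decide +kernel)
            (CovZ.n2 (-15504, 18192) (by decide +kernel)
             (CovZ.leaf K2_ok TB_l28031 _)
             (CovZ.leaf K2_ok TB_l28032 _))
            (CovZ.n1 (-15504, 18096) (by decide +kernel)
             (CovZ.leaf K2_ok TB_l28033 _)
             (CovZ.leaf K2_ok TB_l28034 _))))))))
      (CovZ.n1 (-15744, 17664) (by decide +kernel)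
       (CovZ.n2 (-15936, 17856) (by decide +kernel)
        (CovZ.subM 305310535760598319690817628825336010845907599794273545717815770912079805117664280750706898035520332475077361680 (by decide +kernel)
         (CovZ.n2 (-15744, 17856) (by decide +kernel)
          (CovZ.n2 (-15840, 17760) (by decide +kernel)
           (CovZ.n2 (-15840, 17856) (by decide +kernel)
            (CovZ.leaf K2_ok TB_l28035 _)
            (CovZ.leaf K2_ok TB_l28036 _))
           (CovZ.leaf K2_ok TB_l28037 _))
          (CovZ.n1 (-15840, 17952) (by decide +kernel)
           (CovZ.leaf K2_ok TB_l28038 _)
           (CovZ.leaf K2_ok TB_l28039 _))))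
        (CovZ.n1 (-15936, 17664) (by decide +kernel)
         (CovZ.n2 (-16032, 17760) (by decide +kernel)
          (CovZ.leaf K2_ok TB_l28040 _)
          (CovZ.leaf K2_ok TB_l28041 _))
         (CovZ.n1 (-15840, 17760) (by decide +kernel)
          (CovZ.leaf K2_ok TB_l28042 _)
          (CovZ.leaf K2_ok TB_l28043 _))))
       (CovZ.n1 (-15552, 17856) (by decide +kernel)
        (CovZ.n2 (-15552, 17664) (by decide +kernel)
         (CovZ.subM 305310544719577288402034471055105133119574284339306885635814954418239776565597740024647234646858547895206019344 (by decide +kernel)
          (CovZ.n2 (-15648, 17760) (by decide +kernel)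
           (CovZ.n2 (-15552, 17760) (by decide +kernel)
            (CovZ.leaf K2_ok TB_l28044 _)
            (CovZ.leaf K2_ok TB_l28045 _))
           (CovZ.n1 (-15648, 17664) (by decide +kernel)
            (CovZ.leaf K2_ok TB_l28046 _)
            (CovZ.leaf K2_ok TB_l28047 _))))
         (CovZ.subM 305310544719577288336849319812386756971561645837198995148263889729826070298415421231860164245131488406521643280 (by decide +kernel)
          (CovZ.n1 (-15456, 17760) (by decide +kernel)
           (CovZ.n2 (-15456, 17664) (by decide +kernel)
            (CovZ.leaf K2_ok TB_l28048 _)
            (CovZ.leaf K2_ok TB_l28049 _))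
           (CovZ.n1 (-15552, 17760) (by decide +kernel)
            (CovZ.leaf K2_ok TB_l28050 _)
            (CovZ.n1 (-15504, 17712) (by decide +kernel)
             (CovZ.leaf K2_ok TB_l28051 _)
             (CovZ.leaf K2_ok TB_l28052 _))))))
        (CovZ.subM 305310544719577288402034471055105133119574284339306885635814954418239776565597740024644816795219318636856606992 (by decide +kernel)
         (CovZ.n1 (-15744, 17856) (by decide +kernel)
          (CovZ.n2 (-15648, 17952) (by decide +kernel)
           (CovZ.n2 (-15648, 17856) (by decide +kernel)
            (CovZ.leaf K2_ok TB_l28053 _)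
            (CovZ.leaf K2_ok TB_l28054 _))
           (CovZ.n1 (-15744, 17952) (by decide +kernel)
            (CovZ.leaf K2_ok TB_l28055 _)
            (CovZ.leaf K2_ok TB_l28056 _)))
          (CovZ.n1 (-15648, 17760) (by decide +kernel)
           (CovZ.leaf K2_ok TB_l28057 _)
           (CovZ.n1 (-15648, 17856) (by decide +kernel)
            (CovZ.leaf K2_ok TB_l28058 _)
            (CovZ.leaf K2_ok TB_l28059 _))))))))

end Pool.Agent.TET
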