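import Pool.Agent.Helper38_TET.TB_M
import Pool.Agent.Helper38_TET.TB_L
import Pool.Agent.Helper38_TET.TB_188
import Pool.Agent.Helper38_TET.TB_189
import Pool.Agent.Helper38_TET.TB_190
import Pool.Agent.Helper38_TET.TB_232
import Pool.Agent.Helper38_TET.TB_233
import Pool.Agent.Helper38_TET.TB_234
import Pool.Agent.Helper38_TET.TB_235
import Pool.Agent.Helper38_TET.TB_236
import Pool.Agent.Helper38_TET.TB_311
import Pool.Agent.Helper38_TET.TB_312
import Pool.Agent.Helper38_TET.TB_313

/-!
# MP_c7c9bf_co: certificates, family TB
-/

set_option autoImplicit false
set_option maxRecDepth 100000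

namespace Pool.Agent.TET

theorem TB_u411 : CovZ TB_M (toL (selN TB_LN 8958978968711280499604029574963973001414762585897647314925360555836294195328245239033870407487524438016)) [0, 7, 6, 1] (-14592, 16896) (-14592, 17280) (-14976, 17280) :=
    (CovZ.n2 (-14784, 17088) (by decide +kernel)
         (CovZ.n2 (-14784, 17280) (by decide +kernel)
          (CovZ.subM 5986310706508739482429976828659757970312463623651328 (by decide +kernel)
           (CovZ.n2 (-14688, 17184) (by decide +kernel)
            (CovZ.n2 (-14784, 17184) (by decide +kernel)
             (CovZ.badM (by decide +kernel))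
             (CovZ.n1 (-14736, 17136) (by decide +kernel)
              (CovZ.n2 (-14784, 17136) (by decide +kernel)
               (CovZ.n2 (-14760, 17160) (by decide +kernel)
                (CovZ.n2 (-14760, 17136) (by decide +kernel)
                 (CovZ.n2 (-14772, 17148) (by decide +kernel)
                  (CovZ.badM (by decide +kernel))
                  (CovZ.leaf K2_ok TB_l46749 _))
                 (CovZ.badM (by decide +kernel)))
                (CovZ.n1 (-14784, 17160) (by decide +kernel)
                 (CovZ.badM (by decide +kernel))
                 (CovZ.n1 (-14772, 17148) (by decide +kernel)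
                  (CovZ.leaf K2_ok TB_l46750 _)
                  (CovZ.badM (by decide +kernel)))))
               (CovZ.n1 (-14760, 17112) (by decide +kernel)
                (CovZ.n2 (-14784, 17112) (by decide +kernel)
                 (CovZ.n2 (-14772, 17124) (by decide +kernel)
                  (CovZ.badM (by decide +kernel))
                  (CovZ.leaf K2_ok TB_l46751 _))
                 (CovZ.badM (by decide +kernel)))
                (CovZ.n1 (-14760, 17136) (by decide +kernel)
                 (CovZ.badM (by decide +kernel))
                 (CovZ.n1 (-14772, 17124) (by decide +kernel)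
                  (CovZ.leaf K2_ok TB_l46752 _)
                  (CovZ.badM (by decide +kernel))))))
              (CovZ.badM (by decide +kernel))))
            (CovZ.badM (by decide +kernel))))
          (CovZ.n1 (-14880, 17184) (by decide +kernel)
           (CovZ.n2 (-14880, 17280) (by decide +kernel)
            (CovZ.subM 8958978968711280499604029574963973001414762585897647314925003738468599834621727290830662228172557254656 (by decide +kernel)
             (CovZ.n2 (-14832, 17232) (by decide +kernel)
              (CovZ.n2 (-14880, 17232) (by decide +kernel)
               (CovZ.n2 (-14856, 17256) (by decide +kernel)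
                (CovZ.n2 (-14856, 17232) (by decide +kernel)
                 (CovZ.leaf K2_ok TB_l34818 _)
                 (CovZ.leaf K2_ok TB_l34819 _))
                (CovZ.leaf K2_ok TB_l34820 _))
               (CovZ.n1 (-14856, 17208) (by decide +kernel)
                (CovZ.leaf K2_ok TB_l34821 _)
                (CovZ.n1 (-14856, 17232) (by decide +kernel)
                 (CovZ.leaf K2_ok TB_l34822 _)
                 (CovZ.leaf K2_ok TB_l34823 _))))
              (CovZ.subM 618970019642690137449562112 (by decide +kernel)
               (CovZ.n1 (-14832, 17280) (by decide +kernel)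
                (CovZ.badM (by decide +kernel))
                (CovZ.n1 (-14856, 17256) (by decide +kernel)
                 (CovZ.n2 (-14856, 17280) (by decide +kernel)
                  (CovZ.leaf K2_ok TB_l34824 _)
                  (CovZ.leaf K2_ok TB_l34825 _))
                 (CovZ.leaf K2_ok TB_l34826 _))))))
            (CovZ.n1 (-14928, 17232) (by decide +kernel)
             (CovZ.n2 (-14928, 17280) (by decide +kernel)
              (CovZ.n2 (-14904, 17256) (by decide +kernel)
               (CovZ.leaf K2_ok TB_l34827 _)
               (CovZ.n1 (-14904, 17280) (by decide +kernel)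
                (CovZ.leaf K2_ok TB_l34828 _)
                (CovZ.leaf K2_ok TB_l34829 _)))
              (CovZ.n1 (-14952, 17256) (by decide +kernel)
               (CovZ.leaf K2_ok TB_l34830 _)
               (CovZ.leaf K2_ok TB_l34831 _)))
             (CovZ.n1 (-14880, 17232) (by decide +kernel)
              (CovZ.n2 (-14904, 17208) (by decide +kernel)
               (CovZ.n2 (-14904, 17232) (by decide +kernel)
                (CovZ.leaf K2_ok TB_l34832 _)
                (CovZ.leaf K2_ok TB_l34833 _))
               (CovZ.leaf K2_ok TB_l34834 _))
              (CovZ.n1 (-14904, 17256) (by decide +kernel)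
               (CovZ.leaf K2_ok TB_l34835 _)
               (CovZ.leaf K2_ok TB_l34836 _)))))
           (CovZ.subM 8958978968711280499604029574963973001414762585897647314925003738468599834621108320811019538035107692544 (by decide +kernel)
            (CovZ.n1 (-14784, 17184) (by decide +kernel)
             (CovZ.n2 (-14832, 17136) (by decide +kernel)
              (CovZ.n2 (-14832, 17184) (by decide +kernel)
               (CovZ.subM 411376139336287821289852525518828849357415160924004152741199872 (by decide +kernel)
                (CovZ.n2 (-14808, 17160) (by decide +kernel)
                 (CovZ.n2 (-14832, 17160) (by decide +kernel)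
                  (CovZ.leaf K2_ok TB_l46753 _)
                  (CovZ.leaf K2_ok TB_l46754 _))
                 (CovZ.n1 (-14808, 17184) (by decide +kernel)
                  (CovZ.n2 (-14796, 17172) (by decide +kernel)
                   (CovZ.leaf K2_ok TB_l46755 _)
                   (CovZ.badM (by decide +kernel)))
                  (CovZ.leaf K2_ok TB_l46756 _))))
               (CovZ.n1 (-14856, 17160) (by decide +kernel)
                (CovZ.n2 (-14856, 17184) (by decide +kernel)
                 (CovZ.leaf K2_ok TB_l34837 _)
                 (CovZ.leaf K2_ok TB_l34838 _))
                (CovZ.n1 (-14832, 17160) (by decide +kernel)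
                 (CovZ.leaf K2_ok TB_l34839 _)
                 (CovZ.leaf K2_ok TB_l34840 _))))
              (CovZ.subM 411376139336287821289852525518828849357415160924004152741199872 (by decide +kernel)
               (CovZ.n1 (-14784, 17136) (by decide +kernel)
                (CovZ.n2 (-14808, 17112) (by decide +kernel)
                 (CovZ.n2 (-14808, 17136) (by decide +kernel)
                  (CovZ.n2 (-14796, 17124) (by decide +kernel)
                   (CovZ.leaf K2_ok TB_l46757 _)
                   (CovZ.leaf K2_ok TB_l46758 _))
                  (CovZ.leaf K2_ok TB_l46759 _))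
                 (CovZ.n1 (-14784, 17112) (by decide +kernel)
                  (CovZ.leaf K2_ok TB_l46760 _)
                  (CovZ.leaf K2_ok TB_l46761 _)))
                (CovZ.n1 (-14808, 17160) (by decide +kernel)
                 (CovZ.n2 (-14784, 17160) (by decide +kernel)
                  (CovZ.n2 (-14796, 17148) (by decide +kernel)
                   (CovZ.leaf K2_ok TB_l46762 _)
                   (CovZ.leaf K2_ok TB_l46763 _))
                  (CovZ.leaf K2_ok TB_l46764 _))
                 (CovZ.n1 (-14808, 17136) (by decide +kernel)
                  (CovZ.leaf K2_ok TB_l46765 _)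
                  (CovZ.leaf K2_ok TB_l46766 _))))))
             (CovZ.n1 (-14832, 17232) (by decide +kernel)
              (CovZ.n2 (-14784, 17232) (by decide +kernel)
               (CovZ.n2 (-14808, 17208) (by decide +kernel)
                (CovZ.badM (by decide +kernel))
                (CovZ.badM (by decide +kernel)))
               (CovZ.badM (by decide +kernel)))
              (CovZ.n1 (-14832, 17184) (by decide +kernel)
               (CovZ.n2 (-14856, 17208) (by decide +kernel)
                (CovZ.n2 (-14832, 17208) (by decide +kernel)
                 (CovZ.leaf K2_ok TB_l34841 _)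
                 (CovZ.leaf K2_ok TB_l34842 _))
                (CovZ.n1 (-14856, 17184) (by decide +kernel)
                 (CovZ.leaf K2_ok TB_l34843 _)
                 (CovZ.leaf K2_ok TB_l34844 _)))
               (CovZ.subM 411376139336287821289852525518828849357415160924004152472764416 (by decide +kernel)
                (CovZ.n1 (-14808, 17208) (by decide +kernel)
                 (CovZ.n2 (-14808, 17184) (by decide +kernel)
                  (CovZ.leaf K2_ok TB_l46767 _)
                  (CovZ.badM (by decide +kernel)))
                 (CovZ.n1 (-14832, 17208) (by decide +kernel)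
                  (CovZ.leaf K2_ok TB_l46768 _)
                  (CovZ.leaf K2_ok TB_l46769 _))))))))))
         (CovZ.n1 (-14592, 17088) (by decide +kernel)
          (CovZ.n2 (-14688, 16992) (by decide +kernel)
           (CovZ.badM (by decide +kernel))
           (CovZ.badM (by decide +kernel)))
          (CovZ.badM (by decide +kernel))))

theorem TB_u412 : CovZ TB_M (toL (selN TB_LN 8958978968711280499604029574963973001414762585897647314925360555836294195328245239033870407487524438016)) [0, 7, 6, 1] (-14592, 17280) (-14592, 17664) (-14976, 17280) :=
    (CovZ.n1 (-14784, 17472) (by decide +kernel)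
         (CovZ.badM (by decide +kernel))
         (CovZ.n1 (-14784, 17280) (by decide +kernel)
          (CovZ.n2 (-14880, 17376) (by decide +kernel)
           (CovZ.subM 618970019642690137449562112 (by decide +kernel)
            (CovZ.n2 (-14784, 17376) (by decide +kernel)
             (CovZ.n2 (-14832, 17328) (by decide +kernel)
              (CovZ.n2 (-14832, 17376) (by decide +kernel)
               (CovZ.n2 (-14808, 17352) (by decide +kernel)
                (CovZ.leaf K2_ok TB_l46770 _)
                (CovZ.n1 (-14808, 17376) (by decide +kernel)
                 (CovZ.leaf K2_ok TB_l46771 _)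
                 (CovZ.leaf K2_ok TB_l46772 _)))
               (CovZ.n1 (-14856, 17352) (by decide +kernel)
                (CovZ.n2 (-14856, 17376) (by decide +kernel)
                 (CovZ.leaf K2_ok TB_l34845 _)
                 (CovZ.leaf K2_ok TB_l34846 _))
                (CovZ.n1 (-14832, 17352) (by decide +kernel)
                 (CovZ.leaf K2_ok TB_l34847 _)
                 (CovZ.leaf K2_ok TB_l34848 _))))
              (CovZ.n1 (-14784, 17328) (by decide +kernel)
               (CovZ.n2 (-14808, 17304) (by decide +kernel)
                (CovZ.n2 (-14808, 17328) (by decide +kernel)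
                 (CovZ.badM (by decide +kernel))
                 (CovZ.leaf K2_ok TB_l46775 _))
                (CovZ.badM (by decide +kernel)))
               (CovZ.n1 (-14808, 17352) (by decide +kernel)
                (CovZ.badM (by decide +kernel))
                (CovZ.n1 (-14808, 17328) (by decide +kernel)
                 (CovZ.leaf K2_ok TB_l46778 _)
                 (CovZ.badM (by decide +kernel))))))
             (CovZ.n1 (-14832, 17424) (by decide +kernel)
              (CovZ.n2 (-14784, 17424) (by decide +kernel)
               (CovZ.n2 (-14808, 17400) (by decide +kernel)
                (CovZ.n2 (-14808, 17424) (by decide +kernel)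
                 (CovZ.n2 (-14796, 17412) (by decide +kernel)
                  (CovZ.leaf K2_ok TB_l46780 _)
                  (CovZ.leaf K2_ok TB_l46781 _))
                 (CovZ.leaf K2_ok TB_l46782 _))
                (CovZ.n1 (-14784, 17400) (by decide +kernel)
                 (CovZ.leaf K2_ok TB_l46783 _)
                 (CovZ.leaf K2_ok TB_l46784 _)))
               (CovZ.n1 (-14808, 17448) (by decide +kernel)
                (CovZ.badM (by decide +kernel))
                (CovZ.n1 (-14808, 17424) (by decide +kernel)
                 (CovZ.leaf K2_ok TB_l46785 _)
                 (CovZ.leaf K2_ok TB_l46786 _))))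
              (CovZ.n1 (-14832, 17376) (by decide +kernel)
               (CovZ.n2 (-14856, 17400) (by decide +kernel)
                (CovZ.n2 (-14832, 17400) (by decide +kernel)
                 (CovZ.leaf K2_ok TB_l34849 _)
                 (CovZ.leaf K2_ok TB_l34850 _))
                (CovZ.n1 (-14856, 17376) (by decide +kernel)
                 (CovZ.leaf K2_ok TB_l34851 _)
                 (CovZ.leaf K2_ok TB_l34852 _)))
               (CovZ.n1 (-14808, 17400) (by decide +kernel)
                (CovZ.n2 (-14808, 17376) (by decide +kernel)
                 (CovZ.leaf K2_ok TB_l46787 _)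
                 (CovZ.leaf K2_ok TB_l46788 _))
                (CovZ.n1 (-14832, 17400) (by decide +kernel)
                 (CovZ.leaf K2_ok TB_l46789 _)
                 (CovZ.leaf K2_ok TB_l46790 _)))))))
           (CovZ.n1 (-14880, 17280) (by decide +kernel)
            (CovZ.n2 (-14928, 17328) (by decide +kernel)
             (CovZ.subM 618970024254376156145385472 (by decide +kernel)
              (CovZ.n2 (-14880, 17328) (by decide +kernel)
               (CovZ.n2 (-14904, 17304) (by decide +kernel)
                (CovZ.n2 (-14904, 17328) (by decide +kernel)
                 (CovZ.leaf K2_ok TB_l34853 _)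
                 (CovZ.leaf K2_ok TB_l34854 _))
                (CovZ.leaf K2_ok TB_l34855 _))
               (CovZ.n1 (-14904, 17352) (by decide +kernel)
                (CovZ.leaf K2_ok TB_l34856 _)
                (CovZ.leaf K2_ok TB_l34857 _))))
             (CovZ.n1 (-14928, 17280) (by decide +kernel)
              (CovZ.n2 (-14952, 17304) (by decide +kernel)
               (CovZ.leaf K2_ok TB_l34858 _)
               (CovZ.leaf K2_ok TB_l34859 _))
              (CovZ.n1 (-14904, 17304) (by decide +kernel)
               (CovZ.leaf K2_ok TB_l34860 _)
               (CovZ.leaf K2_ok TB_l34861 _))))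
            (CovZ.subM 618970019642690137449562112 (by decide +kernel)
             (CovZ.n1 (-14832, 17328) (by decide +kernel)
              (CovZ.n2 (-14832, 17280) (by decide +kernel)
               (CovZ.n2 (-14856, 17304) (by decide +kernel)
                (CovZ.n2 (-14832, 17304) (by decide +kernel)
                 (CovZ.leaf K2_ok TB_l34862 _)
                 (CovZ.leaf K2_ok TB_l34863 _))
                (CovZ.n1 (-14856, 17280) (by decide +kernel)
                 (CovZ.leaf K2_ok TB_l34864 _)
                 (CovZ.leaf K2_ok TB_l34865 _)))
               (CovZ.n1 (-14808, 17304) (by decide +kernel)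
                (CovZ.badM (by decide +kernel))
                (CovZ.n1 (-14832, 17304) (by decide +kernel)
                 (CovZ.leaf K2_ok TB_l46791 _)
                 (CovZ.leaf K2_ok TB_l46792 _))))
              (CovZ.n1 (-14880, 17328) (by decide +kernel)
               (CovZ.n2 (-14856, 17352) (by decide +kernel)
                (CovZ.n2 (-14856, 17328) (by decide +kernel)
                 (CovZ.leaf K2_ok TB_l34866 _)
                 (CovZ.leaf K2_ok TB_l34867 _))
                (CovZ.leaf K2_ok TB_l34868 _))
               (CovZ.n1 (-14856, 17304) (by decide +kernel)
                (CovZ.leaf K2_ok TB_l34869 _)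
                (CovZ.n1 (-14856, 17328) (by decide +kernel)
                 (CovZ.leaf K2_ok TB_l34870 _)
                 (CovZ.leaf K2_ok TB_l34871 _))))))))
          (CovZ.subM 618970019642690137449562112 (by decide +kernel)
           (CovZ.n1 (-14688, 17376) (by decide +kernel)
            (CovZ.badM (by decide +kernel))
            (CovZ.n1 (-14784, 17376) (by decide +kernel)
             (CovZ.n2 (-14736, 17424) (by decide +kernel)
              (CovZ.badM (by decide +kernel))
              (CovZ.n1 (-14784, 17424) (by decide +kernel)
               (CovZ.badM (by decide +kernel))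
               (CovZ.n1 (-14760, 17400) (by decide +kernel)
                (CovZ.n2 (-14784, 17400) (by decide +kernel)
                 (CovZ.leaf K2_ok TB_l46795 _)
                 (CovZ.badM (by decide +kernel)))
                (CovZ.badM (by decide +kernel)))))
             (CovZ.badM (by decide +kernel)))))))

theorem TB_u413 : CovZ TB_M (toL (selN TB_LN 661055968790554496632280578779740850931954045166210682705040913982540105733717209786783016782476740125005564705595843543296)) [0, 7, 6, 1] (-14592, 16896) (-14784, 17088) (-14976, 16896) :=
    (CovZ.subM 661055968790549212411469337654978099600611265452552230962469323309522206738580092560188309968316935329679508729240907415552 (by decide +kernel)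
         (CovZ.n2 (-14784, 16896) (by decide +kernel)
          (CovZ.n2 (-14880, 16992) (by decide +kernel)
           (CovZ.n2 (-14784, 16992) (by decide +kernel)
            (CovZ.n2 (-14832, 16944) (by decide +kernel)
             (CovZ.subM 8958978968711280499604029574963973001414762585897647314925003738468599835254934848740419784899939008512 (by decide +kernel)
              (CovZ.n2 (-14832, 16992) (by decide +kernel)
               (CovZ.subM 417803891510330627038765323582245303302775091953325074869649408 (by decide +kernel)
                (CovZ.n2 (-14808, 16968) (by decide +kernel)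
                 (CovZ.n2 (-14832, 16968) (by decide +kernel)
                  (CovZ.leaf K2_ok TB_l46801 _)
                  (CovZ.leaf K2_ok TB_l46802 _))
                 (CovZ.n1 (-14808, 16992) (by decide +kernel)
                  (CovZ.n2 (-14796, 16980) (by decide +kernel)
                   (CovZ.leaf K2_ok TB_l46803 _)
                   (CovZ.leaf K2_ok TB_l46804 _))
                  (CovZ.leaf K2_ok TB_l46805 _))))
               (CovZ.n1 (-14856, 16968) (by decide +kernel)
                (CovZ.n2 (-14856, 16992) (by decide +kernel)
                 (CovZ.leaf K2_ok TB_l34934 _)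
                 (CovZ.leaf K2_ok TB_l34935 _))
                (CovZ.n1 (-14832, 16968) (by decide +kernel)
                 (CovZ.leaf K2_ok TB_l34936 _)
                 (CovZ.leaf K2_ok TB_l34937 _)))))
             (CovZ.subM 661055968790248598951915308033096965584618200738084170594794713584065536509924934390614575156916526570684584603353880723456 (by decide +kernel)
              (CovZ.n1 (-14784, 16944) (by decide +kernel)
               (CovZ.n2 (-14808, 16920) (by decide +kernel)
                (CovZ.n2 (-14808, 16944) (by decide +kernel)
                 (CovZ.n2 (-14796, 16932) (by decide +kernel)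
                  (CovZ.leaf K2_ok TB_l46806 _)
                  (CovZ.leaf K2_ok TB_l46807 _))
                 (CovZ.n1 (-14820, 16932) (by decide +kernel)
                  (CovZ.leaf K2_ok TB_l46808 _)
                  (CovZ.leaf K2_ok TB_l46809 _)))
                (CovZ.n1 (-14784, 16920) (by decide +kernel)
                 (CovZ.n2 (-14796, 16908) (by decide +kernel)
                  (CovZ.leaf K2_ok TB_l46810 _)
                  (CovZ.leaf K2_ok TB_l46811 _))
                 (CovZ.leaf K2_ok TB_l46812 _)))
               (CovZ.n1 (-14808, 16968) (by decide +kernel)
                (CovZ.n2 (-14784, 16968) (by decide +kernel)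
                 (CovZ.n2 (-14796, 16956) (by decide +kernel)
                  (CovZ.leaf K2_ok TB_l46813 _)
                  (CovZ.leaf K2_ok TB_l46814 _))
                 (CovZ.leaf K2_ok TB_l46815 _))
                (CovZ.n1 (-14808, 16944) (by decide +kernel)
                 (CovZ.leaf K2_ok TB_l46816 _)
                 (CovZ.leaf K2_ok TB_l46817 _))))))
            (CovZ.subM 8958978968711280499604029574963973001414762585897647314925003738468599835254934848740419784899939008512 (by decide +kernel)
             (CovZ.n1 (-14832, 17040) (by decide +kernel)
              (CovZ.subM 417803891516316937745274063064675280130225924104022909184376832 (by decide +kernel)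
               (CovZ.n2 (-14784, 17040) (by decide +kernel)
                (CovZ.n2 (-14808, 17016) (by decide +kernel)
                 (CovZ.n2 (-14808, 17040) (by decide +kernel)
                  (CovZ.n2 (-14796, 17028) (by decide +kernel)
                   (CovZ.leaf K2_ok TB_l46818 _)
                   (CovZ.badM (by decide +kernel)))
                  (CovZ.leaf K2_ok TB_l46819 _))
                 (CovZ.n1 (-14784, 17016) (by decide +kernel)
                  (CovZ.leaf K2_ok TB_l46820 _)
                  (CovZ.n1 (-14796, 17028) (by decide +kernel)
                   (CovZ.badM (by decide +kernel))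
                   (CovZ.leaf K2_ok TB_l46821 _))))
                (CovZ.n1 (-14808, 17064) (by decide +kernel)
                 (CovZ.badM (by decide +kernel))
                 (CovZ.n1 (-14808, 17040) (by decide +kernel)
                  (CovZ.leaf K2_ok TB_l46822 _)
                  (CovZ.badM (by decide +kernel))))))
              (CovZ.n1 (-14832, 16992) (by decide +kernel)
               (CovZ.n2 (-14856, 17016) (by decide +kernel)
                (CovZ.n2 (-14832, 17016) (by decide +kernel)
                 (CovZ.leaf K2_ok TB_l34938 _)
                 (CovZ.leaf K2_ok TB_l34939 _))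
                (CovZ.n1 (-14856, 16992) (by decide +kernel)
                 (CovZ.leaf K2_ok TB_l34940 _)
                 (CovZ.leaf K2_ok TB_l34941 _)))
               (CovZ.subM 417803891516316937745274063064675280130225924104022909184376832 (by decide +kernel)
                (CovZ.n1 (-14808, 17016) (by decide +kernel)
                 (CovZ.n2 (-14808, 16992) (by decide +kernel)
                  (CovZ.leaf K2_ok TB_l46823 _)
                  (CovZ.leaf K2_ok TB_l46824 _))
                 (CovZ.n1 (-14832, 17016) (by decide +kernel)
                  (CovZ.leaf K2_ok TB_l46825 _)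
                  (CovZ.leaf K2_ok TB_l46826 _))))))))
           (CovZ.n1 (-14880, 16896) (by decide +kernel)
            (CovZ.n2 (-14928, 16944) (by decide +kernel)
             (CovZ.n2 (-14880, 16944) (by decide +kernel)
              (CovZ.n2 (-14904, 16920) (by decide +kernel)
               (CovZ.n2 (-14904, 16944) (by decide +kernel)
                (CovZ.leaf K2_ok TB_l34942 _)
                (CovZ.leaf K2_ok TB_l34943 _))
               (CovZ.leaf K2_ok TB_l34944 _))
              (CovZ.n1 (-14904, 16968) (by decide +kernel)
               (CovZ.n2 (-14880, 16968) (by decide +kernel)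
                (CovZ.leaf K2_ok TB_l34945 _)
                (CovZ.leaf K2_ok TB_l34946 _))
               (CovZ.n1 (-14904, 16944) (by decide +kernel)
                (CovZ.leaf K2_ok TB_l34947 _)
                (CovZ.leaf K2_ok TB_l34948 _))))
             (CovZ.n1 (-14928, 16896) (by decide +kernel)
              (CovZ.n2 (-14952, 16920) (by decide +kernel)
               (CovZ.leaf K2_ok TB_l34949 _)
               (CovZ.leaf K2_ok TB_l34950 _))
              (CovZ.n1 (-14904, 16920) (by decide +kernel)
               (CovZ.n2 (-14904, 16896) (by decide +kernel)
                (CovZ.leaf K2_ok TB_l34951 _)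
                (CovZ.leaf K2_ok TB_l34952 _))
               (CovZ.leaf K2_ok TB_l34953 _))))
            (CovZ.n1 (-14832, 16944) (by decide +kernel)
             (CovZ.n2 (-14832, 16896) (by decide +kernel)
              (CovZ.n2 (-14856, 16920) (by decide +kernel)
               (CovZ.n2 (-14832, 16920) (by decide +kernel)
                (CovZ.leaf K2_ok TB_l34954 _)
                (CovZ.leaf K2_ok TB_l34955 _))
               (CovZ.n1 (-14856, 16896) (by decide +kernel)
                (CovZ.leaf K2_ok TB_l34956 _)
                (CovZ.leaf K2_ok TB_l34957 _)))
              (CovZ.subM 661055968790248598951915308033096965584618200738084170594794713584065536509924934390614575156956140651941716772150652698624 (by decide +kernel)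
               (CovZ.n1 (-14808, 16920) (by decide +kernel)
                (CovZ.n2 (-14808, 16896) (by decide +kernel)
                 (CovZ.leaf K2_ok TB_l46827 _)
                 (CovZ.leaf K2_ok TB_l46828 _))
                (CovZ.n1 (-14832, 16920) (by decide +kernel)
                 (CovZ.leaf K2_ok TB_l46829 _)
                 (CovZ.n1 (-14820, 16908) (by decide +kernel)
                  (CovZ.leaf K2_ok TB_l46830 _)
                  (CovZ.leaf K2_ok TB_l46831 _))))))
             (CovZ.n1 (-14880, 16944) (by decide +kernel)
              (CovZ.n2 (-14856, 16968) (by decide +kernel)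
               (CovZ.n2 (-14856, 16944) (by decide +kernel)
                (CovZ.leaf K2_ok TB_l34958 _)
                (CovZ.leaf K2_ok TB_l34959 _))
               (CovZ.leaf K2_ok TB_l34960 _))
              (CovZ.n1 (-14856, 16920) (by decide +kernel)
               (CovZ.leaf K2_ok TB_l34961 _)
               (CovZ.n1 (-14856, 16944) (by decide +kernel)
                (CovZ.leaf K2_ok TB_l34962 _)
                (CovZ.leaf K2_ok TB_l34963 _)))))))
          (CovZ.subM 661055968790248598951915308033096965584618200738084170594794302207926206208414351046828538758043997815281630911673621544960 (by decide +kernel)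
           (CovZ.n1 (-14688, 16992) (by decide +kernel)
            (CovZ.subM 661055968790248598951915308033096965584618200738084170594794295780174026179297895625290992911613225004518450892916909932544 (by decide +kernel)
             (CovZ.n2 (-14688, 16896) (by decide +kernel)
              (CovZ.n2 (-14736, 16944) (by decide +kernel)
               (CovZ.badM (by decide +kernel))
               (CovZ.n1 (-14736, 16896) (by decide +kernel)
                (CovZ.n2 (-14760, 16920) (by decide +kernel)
                 (CovZ.badM (by decide +kernel))
                 (CovZ.n1 (-14760, 16896) (by decide +kernel)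
                  (CovZ.n2 (-14772, 16908) (by decide +kernel)
                   (CovZ.badM (by decide +kernel))
                   (CovZ.leaf K2_ok TB_l46832 _))
                  (CovZ.badM (by decide +kernel))))
                (CovZ.badM (by decide +kernel))))
              (CovZ.badM (by decide +kernel))))
            (CovZ.n1 (-14784, 16992) (by decide +kernel)
             (CovZ.subM 633825300114114700748351602688 (by decide +kernel)
              (CovZ.n2 (-14736, 17040) (by decide +kernel)
               (CovZ.n2 (-14736, 16992) (by decide +kernel)
                (CovZ.n2 (-14760, 17016) (by decide +kernel)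
                 (CovZ.badM (by decide +kernel))
                 (CovZ.n1 (-14760, 16992) (by decide +kernel)
                  (CovZ.n2 (-14772, 17004) (by decide +kernel)
                   (CovZ.badM (by decide +kernel))
                   (CovZ.leaf K2_ok TB_l46833 _))
                  (CovZ.badM (by decide +kernel))))
                (CovZ.badM (by decide +kernel)))
               (CovZ.n1 (-14784, 17040) (by decide +kernel)
                (CovZ.badM (by decide +kernel))
                (CovZ.n1 (-14760, 17016) (by decide +kernel)
                 (CovZ.n2 (-14784, 17016) (by decide +kernel)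
                  (CovZ.badM (by decide +kernel))
                  (CovZ.n1 (-14772, 17004) (by decide +kernel)
                   (CovZ.leaf K2_ok TB_l46834 _)
                   (CovZ.badM (by decide +kernel))))
                 (CovZ.badM (by decide +kernel))))))
             (CovZ.n1 (-14736, 16944) (by decide +kernel)
              (CovZ.n2 (-14784, 16944) (by decide +kernel)
               (CovZ.subM 6427752180029116455421537545846430772791873714087269540823040 (by decide +kernel)
                (CovZ.n2 (-14760, 16968) (by decide +kernel)
                 (CovZ.badM (by decide +kernel))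
                 (CovZ.n1 (-14784, 16968) (by decide +kernel)
                  (CovZ.n2 (-14772, 16980) (by decide +kernel)
                   (CovZ.badM (by decide +kernel))
                   (CovZ.leaf K2_ok TB_l46835 _))
                  (CovZ.badM (by decide +kernel)))))
               (CovZ.subM 661055968790248598951915308033096965584618200738084170594794295780174026179297895625290992911613225004518450892916909932544 (by decide +kernel)
                (CovZ.n1 (-14760, 16920) (by decide +kernel)
                 (CovZ.n2 (-14784, 16920) (by decide +kernel)
                  (CovZ.badM (by decide +kernel))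
                  (CovZ.n1 (-14772, 16908) (by decide +kernel)
                   (CovZ.leaf K2_ok TB_l46836 _)
                   (CovZ.badM (by decide +kernel))))
                 (CovZ.badM (by decide +kernel)))))
              (CovZ.subM 633825300114114700748351602688 (by decide +kernel)
               (CovZ.n1 (-14736, 16992) (by decide +kernel)
                (CovZ.badM (by decide +kernel))
                (CovZ.n1 (-14760, 16968) (by decide +kernel)
                 (CovZ.n2 (-14760, 16992) (by decide +kernel)
                  (CovZ.badM (by decide +kernel))
                  (CovZ.n1 (-14772, 16980) (by decide +kernel)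
                   (CovZ.leaf K2_ok TB_l46837 _)
                   (CovZ.badM (by decide +kernel))))
                 (CovZ.badM (by decide +kernel)))))))))))

theorem TB_u414 : CovZ TB_M (toL (selN TB_LN 661055968790554496632280578779740850931954045166210682705040913982540105733717209786783016782476740125005564705595843543296)) [0, 7, 6, 1] (-14784, 17088) (-14976, 17280) (-14976, 16896) :=
    (CovZ.n1 (-14976, 17088) (by decide +kernel)
         (CovZ.subM 300613459554029621881134015993064714468060367675027529348180559282196934897317056664715213886674869517390184448 (by decide +kernel)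
          (CovZ.n2 (-14880, 17184) (by decide +kernel)
           (CovZ.n2 (-14880, 17088) (by decide +kernel)
            (CovZ.n2 (-14928, 17136) (by decide +kernel)
             (CovZ.n2 (-14880, 17136) (by decide +kernel)
              (CovZ.n2 (-14904, 17112) (by decide +kernel)
               (CovZ.n2 (-14904, 17136) (by decide +kernel)
                (CovZ.leaf K2_ok TB_l34964 _)
                (CovZ.leaf K2_ok TB_l34965 _))
               (CovZ.leaf K2_ok TB_l34966 _))
              (CovZ.n1 (-14904, 17160) (by decide +kernel)
               (CovZ.leaf K2_ok TB_l34967 _)
               (CovZ.leaf K2_ok TB_l34968 _)))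
             (CovZ.n1 (-14928, 17088) (by decide +kernel)
              (CovZ.n2 (-14952, 17112) (by decide +kernel)
               (CovZ.leaf K2_ok TB_l34969 _)
               (CovZ.leaf K2_ok TB_l34970 _))
              (CovZ.n1 (-14904, 17112) (by decide +kernel)
               (CovZ.n2 (-14904, 17088) (by decide +kernel)
                (CovZ.leaf K2_ok TB_l34971 _)
                (CovZ.leaf K2_ok TB_l34972 _))
               (CovZ.leaf K2_ok TB_l34973 _))))
            (CovZ.subM 8958978968711280499604029574963973001414762585897647314925003738468599835254933639814600170270630084608 (by decide +kernel)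
             (CovZ.n1 (-14832, 17136) (by decide +kernel)
              (CovZ.n2 (-14832, 17088) (by decide +kernel)
               (CovZ.n2 (-14856, 17112) (by decide +kernel)
                (CovZ.n2 (-14832, 17112) (by decide +kernel)
                 (CovZ.leaf K2_ok TB_l34974 _)
                 (CovZ.leaf K2_ok TB_l34975 _))
                (CovZ.n1 (-14856, 17088) (by decide +kernel)
                 (CovZ.leaf K2_ok TB_l34976 _)
                 (CovZ.leaf K2_ok TB_l34977 _)))
               (CovZ.n1 (-14808, 17112) (by decide +kernel)
                (CovZ.n2 (-14808, 17088) (by decide +kernel)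
                 (CovZ.leaf K2_ok TB_l46838 _)
                 (CovZ.leaf K2_ok TB_l46839 _))
                (CovZ.leaf K2_ok TB_l46840 _)))
              (CovZ.n1 (-14880, 17136) (by decide +kernel)
               (CovZ.n2 (-14856, 17160) (by decide +kernel)
                (CovZ.n2 (-14856, 17136) (by decide +kernel)
                 (CovZ.leaf K2_ok TB_l34978 _)
                 (CovZ.leaf K2_ok TB_l34979 _))
                (CovZ.leaf K2_ok TB_l34980 _))
               (CovZ.n1 (-14856, 17112) (by decide +kernel)
                (CovZ.leaf K2_ok TB_l34981 _)
                (CovZ.n1 (-14856, 17136) (by decide +kernel)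
                 (CovZ.leaf K2_ok TB_l34982 _)
                 (CovZ.leaf K2_ok TB_l34983 _)))))))
           (CovZ.n1 (-14976, 17184) (by decide +kernel)
            (CovZ.n2 (-14928, 17232) (by decide +kernel)
             (CovZ.n2 (-14928, 17184) (by decide +kernel)
              (CovZ.n2 (-14952, 17208) (by decide +kernel)
               (CovZ.leaf K2_ok TB_l34984 _)
               (CovZ.leaf K2_ok TB_l34985 _))
              (CovZ.n1 (-14904, 17208) (by decide +kernel)
               (CovZ.leaf K2_ok TB_l34986 _)
               (CovZ.leaf K2_ok TB_l34987 _)))
             (CovZ.n1 (-14976, 17232) (by decide +kernel)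
              (CovZ.leaf K2_ok TB_l34988 _)
              (CovZ.n1 (-14952, 17208) (by decide +kernel)
               (CovZ.leaf K2_ok TB_l34989 _)
               (CovZ.leaf K2_ok TB_l34990 _))))
            (CovZ.n1 (-14928, 17136) (by decide +kernel)
             (CovZ.n2 (-14976, 17136) (by decide +kernel)
              (CovZ.n2 (-14952, 17160) (by decide +kernel)
               (CovZ.leaf K2_ok TB_l34991 _)
               (CovZ.leaf K2_ok TB_l34992 _))
              (CovZ.n1 (-14952, 17112) (by decide +kernel)
               (CovZ.leaf K2_ok TB_l34993 _)
               (CovZ.leaf K2_ok TB_l34994 _)))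
             (CovZ.n1 (-14928, 17184) (by decide +kernel)
              (CovZ.n2 (-14904, 17160) (by decide +kernel)
               (CovZ.leaf K2_ok TB_l34995 _)
               (CovZ.leaf K2_ok TB_l34996 _))
              (CovZ.n1 (-14952, 17160) (by decide +kernel)
               (CovZ.leaf K2_ok TB_l34997 _)
               (CovZ.leaf K2_ok TB_l34998 _)))))))
         (CovZ.n1 (-14880, 16992) (by decide +kernel)
          (CovZ.n2 (-14976, 16992) (by decide +kernel)
           (CovZ.subM 661055968790549212411469337654717358995640451233509869914352922904907618784190852720106883990798955553253265452564563886080 (by decide +kernel)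
            (CovZ.n2 (-14928, 17040) (by decide +kernel)
             (CovZ.n2 (-14928, 16992) (by decide +kernel)
              (CovZ.n2 (-14952, 17016) (by decide +kernel)
               (CovZ.leaf K2_ok TB_l34999 _)
               (CovZ.leaf K2_ok TB_l35000 _))
              (CovZ.n1 (-14904, 17016) (by decide +kernel)
               (CovZ.n2 (-14904, 16992) (by decide +kernel)
                (CovZ.leaf K2_ok TB_l35001 _)
                (CovZ.leaf K2_ok TB_l35002 _))
               (CovZ.leaf K2_ok TB_l35003 _)))
             (CovZ.n1 (-14976, 17040) (by decide +kernel)
              (CovZ.leaf K2_ok TB_l35004 _)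
              (CovZ.n1 (-14952, 17016) (by decide +kernel)
               (CovZ.leaf K2_ok TB_l35005 _)
               (CovZ.leaf K2_ok TB_l35006 _)))))
           (CovZ.n1 (-14928, 16944) (by decide +kernel)
            (CovZ.n2 (-14976, 16944) (by decide +kernel)
             (CovZ.n2 (-14952, 16968) (by decide +kernel)
              (CovZ.leaf K2_ok TB_l35007 _)
              (CovZ.leaf K2_ok TB_l35008 _))
             (CovZ.n1 (-14952, 16920) (by decide +kernel)
              (CovZ.leaf K2_ok TB_l35009 _)
              (CovZ.leaf K2_ok TB_l35010 _)))
            (CovZ.subM 661055968790549212411469337654978099600611265452552230962469323309522206738580092560188309968316316359622972550956038750208 (by decide +kernel)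
             (CovZ.n1 (-14928, 16992) (by decide +kernel)
              (CovZ.n2 (-14904, 16968) (by decide +kernel)
               (CovZ.leaf K2_ok TB_l35011 _)
               (CovZ.n1 (-14904, 16992) (by decide +kernel)
                (CovZ.leaf K2_ok TB_l35012 _)
                (CovZ.leaf K2_ok TB_l35013 _)))
              (CovZ.n1 (-14952, 16968) (by decide +kernel)
               (CovZ.leaf K2_ok TB_l35014 _)
               (CovZ.leaf K2_ok TB_l35015 _))))))
          (CovZ.subM 300613459554029621881134015993064714468060367675027529348180559282196934897317056664716422812494484146564890624 (by decide +kernel)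
           (CovZ.n1 (-14880, 17088) (by decide +kernel)
            (CovZ.n2 (-14832, 17040) (by decide +kernel)
             (CovZ.n2 (-14880, 17040) (by decide +kernel)
              (CovZ.n2 (-14856, 17064) (by decide +kernel)
               (CovZ.n2 (-14856, 17040) (by decide +kernel)
                (CovZ.leaf K2_ok TB_l35016 _)
                (CovZ.leaf K2_ok TB_l35017 _))
               (CovZ.leaf K2_ok TB_l35018 _))
              (CovZ.n1 (-14856, 17016) (by decide +kernel)
               (CovZ.leaf K2_ok TB_l35019 _)
               (CovZ.n1 (-14856, 17040) (by decide +kernel)
                (CovZ.leaf K2_ok TB_l35020 _)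
                (CovZ.leaf K2_ok TB_l35021 _))))
             (CovZ.subM 8958978968711280499604029574963973001414762585897647314925003738468599835254933639814600170270630084608 (by decide +kernel)
              (CovZ.n1 (-14832, 17088) (by decide +kernel)
               (CovZ.n2 (-14808, 17064) (by decide +kernel)
                (CovZ.leaf K2_ok TB_l46841 _)
                (CovZ.n1 (-14808, 17088) (by decide +kernel)
                 (CovZ.n2 (-14796, 17076) (by decide +kernel)
                  (CovZ.leaf K2_ok TB_l46842 _)
                  (CovZ.leaf K2_ok TB_l46843 _))
                 (CovZ.leaf K2_ok TB_l46844 _)))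
               (CovZ.n1 (-14856, 17064) (by decide +kernel)
                (CovZ.n2 (-14856, 17088) (by decide +kernel)
                 (CovZ.leaf K2_ok TB_l35022 _)
                 (CovZ.leaf K2_ok TB_l35023 _))
                (CovZ.n1 (-14832, 17064) (by decide +kernel)
                 (CovZ.leaf K2_ok TB_l35024 _)
                 (CovZ.leaf K2_ok TB_l35025 _))))))
            (CovZ.n1 (-14928, 17040) (by decide +kernel)
             (CovZ.n2 (-14928, 17088) (by decide +kernel)
              (CovZ.n2 (-14904, 17064) (by decide +kernel)
               (CovZ.leaf K2_ok TB_l35026 _)
               (CovZ.n1 (-14904, 17088) (by decide +kernel)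
                (CovZ.leaf K2_ok TB_l35027 _)
                (CovZ.leaf K2_ok TB_l35028 _)))
              (CovZ.n1 (-14952, 17064) (by decide +kernel)
               (CovZ.leaf K2_ok TB_l35029 _)
               (CovZ.leaf K2_ok TB_l35030 _)))
             (CovZ.n1 (-14880, 17040) (by decide +kernel)
              (CovZ.n2 (-14904, 17016) (by decide +kernel)
               (CovZ.n2 (-14904, 17040) (by decide +kernel)
                (CovZ.leaf K2_ok TB_l35031 _)
                (CovZ.leaf K2_ok TB_l35032 _))
               (CovZ.leaf K2_ok TB_l35033 _))
              (CovZ.n1 (-14904, 17064) (by decide +kernel)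
               (CovZ.leaf K2_ok TB_l35034 _)
               (CovZ.n1 (-14904, 17040) (by decide +kernel)
                (CovZ.leaf K2_ok TB_l35035 _)
                (CovZ.leaf K2_ok TB_l35036 _)))))))))

theorem TB_u415 : CovZ TB_M (toL (selN TB_LN 661055968790554496632280578779740850931954045282002772050196896074713649921073177988131524142665881854625438637923414180096)) [0, 7, 6, 1] (-15360, 17664) (-14976, 17664) (-14976, 18048) :=
    (CovZ.n2 (-15168, 17856) (by decide +kernel)
        (CovZ.subM 587135645693458306972370149197334256843920637233507719856851859884847495711561206657412068237717077323940096 (by decide +kernel)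
         (CovZ.n2 (-14976, 17856) (by decide +kernel)
          (CovZ.n2 (-15072, 17760) (by decide +kernel)
           (CovZ.n2 (-15072, 17856) (by decide +kernel)
            (CovZ.subM 535223329287797987270809848266584941274333184 (by decide +kernel)
             (CovZ.n2 (-15024, 17808) (by decide +kernel)
              (CovZ.n2 (-15072, 17808) (by decide +kernel)
               (CovZ.n2 (-15048, 17832) (by decide +kernel)
                (CovZ.n2 (-15048, 17808) (by decide +kernel)
                 (CovZ.leaf K2_ok TB_l35037 _)
                 (CovZ.leaf K2_ok TB_l35038 _))
                (CovZ.leaf K2_ok TB_l35039 _))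
               (CovZ.n1 (-15048, 17784) (by decide +kernel)
                (CovZ.leaf K2_ok TB_l35040 _)
                (CovZ.leaf K2_ok TB_l35041 _)))
              (CovZ.subM 178405961593437281990820576115560397590757376 (by decide +kernel)
               (CovZ.n1 (-15024, 17856) (by decide +kernel)
                (CovZ.n2 (-15000, 17832) (by decide +kernel)
                 (CovZ.leaf K2_ok TB_l35042 _)
                 (CovZ.n1 (-15000, 17856) (by decide +kernel)
                  (CovZ.badM (by decide +kernel))
                  (CovZ.leaf K2_ok TB_l46845 _)))
                (CovZ.n1 (-15048, 17832) (by decide +kernel)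
                 (CovZ.n2 (-15048, 17856) (by decide +kernel)
                  (CovZ.leaf K2_ok TB_l35043 _)
                  (CovZ.leaf K2_ok TB_l35044 _))
                 (CovZ.leaf K2_ok TB_l35045 _))))))
            (CovZ.n1 (-15120, 17808) (by decide +kernel)
             (CovZ.n2 (-15120, 17856) (by decide +kernel)
              (CovZ.n2 (-15096, 17832) (by decide +kernel)
               (CovZ.leaf K2_ok TB_l35046 _)
               (CovZ.leaf K2_ok TB_l35047 _))
              (CovZ.leaf K2_ok TB_l35048 _))
             (CovZ.n1 (-15072, 17808) (by decide +kernel)
              (CovZ.leaf K2_ok TB_l35049 _)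
              (CovZ.n1 (-15096, 17832) (by decide +kernel)
               (CovZ.leaf K2_ok TB_l35050 _)
               (CovZ.leaf K2_ok TB_l35051 _)))))
           (CovZ.subM 535223329287797987270809848266584941274333184 (by decide +kernel)
            (CovZ.n1 (-14976, 17760) (by decide +kernel)
             (CovZ.n2 (-15024, 17712) (by decide +kernel)
              (CovZ.n2 (-15024, 17760) (by decide +kernel)
               (CovZ.n2 (-15000, 17736) (by decide +kernel)
                (CovZ.leaf K2_ok TB_l35052 _)
                (CovZ.n1 (-15000, 17760) (by decide +kernel)
                 (CovZ.leaf K2_ok TB_l35053 _)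
                 (CovZ.leaf K2_ok TB_l35054 _)))
               (CovZ.n1 (-15048, 17736) (by decide +kernel)
                (CovZ.leaf K2_ok TB_l35055 _)
                (CovZ.leaf K2_ok TB_l35056 _)))
              (CovZ.n1 (-14976, 17712) (by decide +kernel)
               (CovZ.n2 (-15000, 17688) (by decide +kernel)
                (CovZ.leaf K2_ok TB_l35057 _)
                (CovZ.n1 (-14976, 17688) (by decide +kernel)
                 (CovZ.leaf K2_ok TB_l35058 _)
                 (CovZ.leaf K2_ok TB_l35059 _)))
               (CovZ.n1 (-15000, 17736) (by decide +kernel)
                (CovZ.leaf K2_ok TB_l35060 _)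
                (CovZ.n1 (-15000, 17712) (by decide +kernel)
                 (CovZ.leaf K2_ok TB_l35061 _)
                 (CovZ.leaf K2_ok TB_l35062 _)))))
             (CovZ.n1 (-15024, 17808) (by decide +kernel)
              (CovZ.n2 (-14976, 17808) (by decide +kernel)
               (CovZ.n2 (-15000, 17784) (by decide +kernel)
                (CovZ.leaf K2_ok TB_l35063 _)
                (CovZ.leaf K2_ok TB_l35064 _))
               (CovZ.n1 (-15000, 17832) (by decide +kernel)
                (CovZ.badM (by decide +kernel))
                (CovZ.n1 (-15000, 17808) (by decide +kernel)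
                 (CovZ.leaf K2_ok TB_l35065 _)
                 (CovZ.leaf K2_ok TB_l35066 _))))
              (CovZ.n1 (-15024, 17760) (by decide +kernel)
               (CovZ.n2 (-15048, 17784) (by decide +kernel)
                (CovZ.leaf K2_ok TB_l35067 _)
                (CovZ.leaf K2_ok TB_l35068 _))
               (CovZ.n1 (-15000, 17784) (by decide +kernel)
                (CovZ.n2 (-15000, 17760) (by decide +kernel)
                 (CovZ.leaf K2_ok TB_l35069 _)
                 (CovZ.leaf K2_ok TB_l35070 _))
                (CovZ.leaf K2_ok TB_l35071 _)))))))
          (CovZ.n1 (-15072, 17952) (by decide +kernel)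
           (CovZ.subM 178405961593437281990820573809717388377063424 (by decide +kernel)
            (CovZ.n2 (-14976, 17952) (by decide +kernel)
             (CovZ.n2 (-15024, 17904) (by decide +kernel)
              (CovZ.n2 (-15024, 17952) (by decide +kernel)
               (CovZ.n2 (-15000, 17928) (by decide +kernel)
                (CovZ.leaf K2_ok TB_l46846 _)
                (CovZ.n1 (-15000, 17952) (by decide +kernel)
                 (CovZ.badM (by decide +kernel))
                 (CovZ.leaf K2_ok TB_l46847 _)))
               (CovZ.n1 (-15048, 17928) (by decide +kernel)
                (CovZ.n2 (-15048, 17952) (by decide +kernel)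
                 (CovZ.leaf K2_ok TB_l46848 _)
                 (CovZ.leaf K2_ok TB_l46849 _))
                (CovZ.n1 (-15024, 17928) (by decide +kernel)
                 (CovZ.leaf K2_ok TB_l46850 _)
                 (CovZ.leaf K2_ok TB_l46851 _))))
              (CovZ.n1 (-14976, 17904) (by decide +kernel)
               (CovZ.n2 (-15000, 17880) (by decide +kernel)
                (CovZ.n2 (-15000, 17904) (by decide +kernel)
                 (CovZ.badM (by decide +kernel))
                 (CovZ.leaf K2_ok TB_l46852 _))
                (CovZ.badM (by decide +kernel)))
               (CovZ.n1 (-15000, 17928) (by decide +kernel)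
                (CovZ.badM (by decide +kernel))
                (CovZ.n1 (-15000, 17904) (by decide +kernel)
                 (CovZ.leaf K2_ok TB_l46853 _)
                 (CovZ.badM (by decide +kernel))))))
             (CovZ.n1 (-15024, 18000) (by decide +kernel)
              (CovZ.badM (by decide +kernel))
              (CovZ.n1 (-15024, 17952) (by decide +kernel)
               (CovZ.n2 (-15048, 17976) (by decide +kernel)
                (CovZ.n2 (-15024, 17976) (by decide +kernel)
                 (CovZ.leaf K2_ok TB_l46854 _)
                 (CovZ.badM (by decide +kernel)))
                (CovZ.n1 (-15048, 17952) (by decide +kernel)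
                 (CovZ.leaf K2_ok TB_l46855 _)
                 (CovZ.leaf K2_ok TB_l46856 _)))
               (CovZ.n1 (-15000, 17976) (by decide +kernel)
                (CovZ.n2 (-15000, 17952) (by decide +kernel)
                 (CovZ.leaf K2_ok TB_l46857 _)
                 (CovZ.badM (by decide +kernel)))
                (CovZ.n1 (-15024, 17976) (by decide +kernel)
                 (CovZ.badM (by decide +kernel))
                 (CovZ.leaf K2_ok TB_l46858 _)))))))
           (CovZ.n1 (-15072, 17856) (by decide +kernel)
            (CovZ.n2 (-15120, 17904) (by decide +kernel)
             (CovZ.subM 587135645693458306972370149197334256843920637227079967676822743072608590471354704429931036487306012451143936 (by decide +kernel)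
              (CovZ.n2 (-15072, 17904) (by decide +kernel)
               (CovZ.n2 (-15096, 17880) (by decide +kernel)
                (CovZ.leaf K2_ok TB_l35072 _)
                (CovZ.leaf K2_ok TB_l35073 _))
               (CovZ.n1 (-15096, 17928) (by decide +kernel)
                (CovZ.leaf K2_ok TB_l46859 _)
                (CovZ.leaf K2_ok TB_l35074 _))))
             (CovZ.n1 (-15120, 17856) (by decide +kernel)
              (CovZ.leaf K2_ok TB_l35075 _)
              (CovZ.n1 (-15096, 17880) (by decide +kernel)
               (CovZ.leaf K2_ok TB_l35076 _)
               (CovZ.leaf K2_ok TB_l35077 _))))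
            (CovZ.subM 178405961593437281990820576115560397590757376 (by decide +kernel)
             (CovZ.n1 (-15024, 17904) (by decide +kernel)
              (CovZ.n2 (-15024, 17856) (by decide +kernel)
               (CovZ.n2 (-15048, 17880) (by decide +kernel)
                (CovZ.n2 (-15024, 17880) (by decide +kernel)
                 (CovZ.leaf K2_ok TB_l46860 _)
                 (CovZ.leaf K2_ok TB_l46861 _))
                (CovZ.n1 (-15048, 17856) (by decide +kernel)
                 (CovZ.leaf K2_ok TB_l35078 _)
                 (CovZ.leaf K2_ok TB_l46862 _)))
               (CovZ.n1 (-15000, 17880) (by decide +kernel)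
                (CovZ.n2 (-15000, 17856) (by decide +kernel)
                 (CovZ.leaf K2_ok TB_l46863 _)
                 (CovZ.badM (by decide +kernel)))
                (CovZ.n1 (-15024, 17880) (by decide +kernel)
                 (CovZ.leaf K2_ok TB_l46864 _)
                 (CovZ.leaf K2_ok TB_l46865 _))))
              (CovZ.n1 (-15072, 17904) (by decide +kernel)
               (CovZ.n2 (-15048, 17928) (by decide +kernel)
                (CovZ.n2 (-15048, 17904) (by decide +kernel)
                 (CovZ.leaf K2_ok TB_l46866 _)
                 (CovZ.leaf K2_ok TB_l46867 _))
                (CovZ.leaf K2_ok TB_l46868 _))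
               (CovZ.n1 (-15048, 17880) (by decide +kernel)
                (CovZ.leaf K2_ok TB_l35079 _)
                (CovZ.n1 (-15048, 17904) (by decide +kernel)
                 (CovZ.leaf K2_ok TB_l46869 _)
                 (CovZ.leaf K2_ok TB_l46870 _))))))))))
        (CovZ.n1 (-15168, 17664) (by decide +kernel)
         (CovZ.n2 (-15264, 17760) (by decide +kernel)
          (CovZ.subM 301200586240744111476825886538232473760931286897498451170390096216721226556734421911159015755321480258491777280 (by decide +kernel)
           (CovZ.n2 (-15168, 17760) (by decide +kernel)
            (CovZ.n2 (-15216, 17712) (by decide +kernel)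
             (CovZ.n2 (-15216, 17760) (by decide +kernel)
              (CovZ.leaf K2_ok TB_l35080 _)
              (CovZ.leaf K2_ok TB_l35081 _))
             (CovZ.n1 (-15168, 17712) (by decide +kernel)
              (CovZ.leaf K2_ok TB_l35082 _)
              (CovZ.leaf K2_ok TB_l35083 _)))
            (CovZ.n1 (-15216, 17808) (by decide +kernel)
             (CovZ.n2 (-15168, 17808) (by decide +kernel)
              (CovZ.leaf K2_ok TB_l35084 _)
              (CovZ.leaf K2_ok TB_l35085 _))
             (CovZ.n1 (-15216, 17760) (by decide +kernel)
              (CovZ.leaf K2_ok TB_l35086 _)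
              (CovZ.leaf K2_ok TB_l35087 _)))))
          (CovZ.n1 (-15264, 17664) (by decide +kernel)
           (CovZ.n2 (-15312, 17712) (by decide +kernel)
            (CovZ.leaf K2_ok TB_l35088 _)
            (CovZ.leaf K2_ok TB_l35089 _))
           (CovZ.n1 (-15216, 17712) (by decide +kernel)
            (CovZ.leaf K2_ok TB_l35090 _)
            (CovZ.leaf K2_ok TB_l35091 _))))
         (CovZ.subM 587135645693458306972370149197334256843920637233507719856851859884847495711561207276400977346338693622792448 (by decide +kernel)
          (CovZ.n1 (-15072, 17760) (by decide +kernel)
           (CovZ.n2 (-15072, 17664) (by decide +kernel)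
            (CovZ.n2 (-15120, 17712) (by decide +kernel)
             (CovZ.n2 (-15072, 17712) (by decide +kernel)
              (CovZ.leaf K2_ok TB_l35092 _)
              (CovZ.leaf K2_ok TB_l35093 _))
             (CovZ.n1 (-15120, 17664) (by decide +kernel)
              (CovZ.leaf K2_ok TB_l35094 _)
              (CovZ.leaf K2_ok TB_l35095 _)))
            (CovZ.n1 (-15024, 17712) (by decide +kernel)
             (CovZ.n2 (-15024, 17664) (by decide +kernel)
              (CovZ.n2 (-15048, 17688) (by decide +kernel)
               (CovZ.leaf K2_ok TB_l35096 _)
               (CovZ.leaf K2_ok TB_l35097 _))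
              (CovZ.n1 (-15000, 17688) (by decide +kernel)
               (CovZ.n2 (-15000, 17664) (by decide +kernel)
                (CovZ.leaf K2_ok TB_l35098 _)
                (CovZ.leaf K2_ok TB_l35099 _))
               (CovZ.leaf K2_ok TB_l35100 _)))
             (CovZ.n1 (-15072, 17712) (by decide +kernel)
              (CovZ.n2 (-15048, 17736) (by decide +kernel)
               (CovZ.leaf K2_ok TB_l35101 _)
               (CovZ.leaf K2_ok TB_l35102 _))
              (CovZ.n1 (-15048, 17688) (by decide +kernel)
               (CovZ.leaf K2_ok TB_l35103 _)
               (CovZ.leaf K2_ok TB_l35104 _)))))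
           (CovZ.n1 (-15168, 17760) (by decide +kernel)
            (CovZ.n2 (-15120, 17808) (by decide +kernel)
             (CovZ.n2 (-15120, 17760) (by decide +kernel)
              (CovZ.leaf K2_ok TB_l35105 _)
              (CovZ.leaf K2_ok TB_l35106 _))
             (CovZ.n1 (-15168, 17808) (by decide +kernel)
              (CovZ.leaf K2_ok TB_l35107 _)
              (CovZ.leaf K2_ok TB_l35108 _)))
            (CovZ.n1 (-15120, 17712) (by decide +kernel)
             (CovZ.leaf K2_ok TB_l35109 _)
             (CovZ.n1 (-15120, 17760) (by decide +kernel)
              (CovZ.n2 (-15096, 17736) (by decide +kernel)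
               (CovZ.leaf K2_ok TB_l35110 _)
               (CovZ.leaf K2_ok TB_l35111 _))
              (CovZ.leaf K2_ok TB_l35112 _))))))))

theorem TB_u416 : CovZ TB_M (toL (selN TB_LN 661055968790554496632280578779740850931954045282002772050196896074713649921073177988131524142665881854625438637923414180096)) [0, 7, 6, 1] (-14976, 17664) (-14592, 17664) (-14976, 18048) :=
    (CovZ.subM 356817367694360705279989274456867552897269760 (by decide +kernel)
        (CovZ.n1 (-14784, 17856) (by decide +kernel)
         (CovZ.n2 (-14784, 17664) (by decide +kernel)
          (CovZ.n2 (-14880, 17760) (by decide +kernel)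
           (CovZ.badM (by decide +kernel))
           (CovZ.n1 (-14880, 17664) (by decide +kernel)
            (CovZ.n2 (-14928, 17712) (by decide +kernel)
             (CovZ.subM 4611686018427387904 (by decide +kernel)
              (CovZ.n2 (-14880, 17712) (by decide +kernel)
               (CovZ.n2 (-14904, 17688) (by decide +kernel)
                (CovZ.n2 (-14904, 17712) (by decide +kernel)
                 (CovZ.badM (by decide +kernel))
                 (CovZ.leaf K2_ok TB_l46871 _))
                (CovZ.badM (by decide +kernel)))
               (CovZ.n1 (-14904, 17736) (by decide +kernel)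
                (CovZ.badM (by decide +kernel))
                (CovZ.n1 (-14904, 17712) (by decide +kernel)
                 (CovZ.leaf K2_ok TB_l46872 _)
                 (CovZ.badM (by decide +kernel))))))
             (CovZ.n1 (-14928, 17664) (by decide +kernel)
              (CovZ.n2 (-14952, 17688) (by decide +kernel)
               (CovZ.n2 (-14928, 17688) (by decide +kernel)
                (CovZ.leaf K2_ok TB_l46873 _)
                (CovZ.leaf K2_ok TB_l46874 _))
               (CovZ.n1 (-14952, 17664) (by decide +kernel)
                (CovZ.leaf K2_ok TB_l35113 _)
                (CovZ.leaf K2_ok TB_l46875 _)))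
              (CovZ.subM 4611686018427387904 (by decide +kernel)
               (CovZ.n1 (-14904, 17688) (by decide +kernel)
                (CovZ.n2 (-14904, 17664) (by decide +kernel)
                 (CovZ.leaf K2_ok TB_l46876 _)
                 (CovZ.badM (by decide +kernel)))
                (CovZ.n1 (-14928, 17688) (by decide +kernel)
                 (CovZ.leaf K2_ok TB_l46877 _)
                 (CovZ.leaf K2_ok TB_l46878 _))))))
            (CovZ.badM (by decide +kernel))))
          (CovZ.badM (by decide +kernel)))
         (CovZ.n1 (-14976, 17856) (by decide +kernel)
          (CovZ.badM (by decide +kernel))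
          (CovZ.n1 (-14880, 17760) (by decide +kernel)
           (CovZ.n2 (-14976, 17760) (by decide +kernel)
            (CovZ.n2 (-14928, 17808) (by decide +kernel)
             (CovZ.n2 (-14928, 17760) (by decide +kernel)
              (CovZ.n2 (-14952, 17784) (by decide +kernel)
               (CovZ.n2 (-14928, 17784) (by decide +kernel)
                (CovZ.leaf K2_ok TB_l46879 _)
                (CovZ.leaf K2_ok TB_l46880 _))
               (CovZ.n1 (-14952, 17760) (by decide +kernel)
                (CovZ.leaf K2_ok TB_l35114 _)
                (CovZ.leaf K2_ok TB_l46881 _)))
              (CovZ.subM 4611686018427387904 (by decide +kernel)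
               (CovZ.n1 (-14904, 17784) (by decide +kernel)
                (CovZ.n2 (-14904, 17760) (by decide +kernel)
                 (CovZ.leaf K2_ok TB_l46882 _)
                 (CovZ.badM (by decide +kernel)))
                (CovZ.n1 (-14928, 17784) (by decide +kernel)
                 (CovZ.leaf K2_ok TB_l46883 _)
                 (CovZ.leaf K2_ok TB_l46884 _)))))
             (CovZ.n1 (-14976, 17808) (by decide +kernel)
              (CovZ.badM (by decide +kernel))
              (CovZ.n1 (-14952, 17784) (by decide +kernel)
               (CovZ.leaf K2_ok TB_l35115 _)
               (CovZ.n1 (-14952, 17808) (by decide +kernel)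
                (CovZ.leaf K2_ok TB_l46885 _)
                (CovZ.leaf K2_ok TB_l35116 _)))))
            (CovZ.n1 (-14928, 17712) (by decide +kernel)
             (CovZ.n2 (-14976, 17712) (by decide +kernel)
              (CovZ.n2 (-14952, 17736) (by decide +kernel)
               (CovZ.n2 (-14952, 17712) (by decide +kernel)
                (CovZ.leaf K2_ok TB_l35117 _)
                (CovZ.leaf K2_ok TB_l46886 _))
               (CovZ.leaf K2_ok TB_l35118 _))
              (CovZ.n1 (-14952, 17688) (by decide +kernel)
               (CovZ.leaf K2_ok TB_l35119 _)
               (CovZ.n1 (-14952, 17712) (by decide +kernel)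
                (CovZ.leaf K2_ok TB_l46887 _)
                (CovZ.leaf K2_ok TB_l35120 _))))
             (CovZ.n1 (-14928, 17760) (by decide +kernel)
              (CovZ.subM 4611686018427387904 (by decide +kernel)
               (CovZ.n2 (-14904, 17736) (by decide +kernel)
                (CovZ.n2 (-14928, 17736) (by decide +kernel)
                 (CovZ.leaf K2_ok TB_l46888 _)
                 (CovZ.leaf K2_ok TB_l46889 _))
                (CovZ.n1 (-14904, 17760) (by decide +kernel)
                 (CovZ.badM (by decide +kernel))
                 (CovZ.leaf K2_ok TB_l46890 _))))
              (CovZ.n1 (-14952, 17736) (by decide +kernel)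
               (CovZ.n2 (-14952, 17760) (by decide +kernel)
                (CovZ.leaf K2_ok TB_l46891 _)
                (CovZ.leaf K2_ok TB_l35121 _))
               (CovZ.n1 (-14928, 17736) (by decide +kernel)
                (CovZ.leaf K2_ok TB_l46892 _)
                (CovZ.leaf K2_ok TB_l46893 _))))))
           (CovZ.n1 (-14880, 17856) (by decide +kernel)
            (CovZ.badM (by decide +kernel))
            (CovZ.n1 (-14928, 17808) (by decide +kernel)
             (CovZ.badM (by decide +kernel))
             (CovZ.subM 4611686018427387904 (by decide +kernel)
              (CovZ.n1 (-14880, 17808) (by decide +kernel)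
               (CovZ.n2 (-14904, 17784) (by decide +kernel)
                (CovZ.n2 (-14904, 17808) (by decide +kernel)
                 (CovZ.badM (by decide +kernel))
                 (CovZ.leaf K2_ok TB_l46894 _))
                (CovZ.badM (by decide +kernel)))
               (CovZ.badM (by decide +kernel))))))))))

theorem TB_u417 : CovZ TB_M (toL (selN TB_LN 661055968790554496632280578779740850931954045282002772050196896074713649921073177988131524142665881854625438637923414180096)) [0, 7, 6, 1] (-15360, 18432) (-15360, 18048) (-14976, 18048) :=
    (CovZ.subM 5284220811241124762751331342779829450541087727579142726809328516808362640792422127614344915766925588380647680 (by decide +kernel)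
        (CovZ.n2 (-15168, 18240) (by decide +kernel)
         (CovZ.n2 (-15168, 18048) (by decide +kernel)
          (CovZ.n2 (-15264, 18144) (by decide +kernel)
           (CovZ.subM 587135645693458306972370149197334256843920637227079967676822742894202628877917422439110460371745614860386560 (by decide +kernel)
            (CovZ.n2 (-15168, 18144) (by decide +kernel)
             (CovZ.n2 (-15216, 18096) (by decide +kernel)
              (CovZ.n2 (-15216, 18144) (by decide +kernel)
               (CovZ.n2 (-15192, 18120) (by decide +kernel)
                (CovZ.leaf K2_ok TB_l35122 _)
                (CovZ.n1 (-15192, 18144) (by decide +kernel)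
                 (CovZ.leaf K2_ok TB_l35123 _)
                 (CovZ.leaf K2_ok TB_l35124 _)))
               (CovZ.n1 (-15240, 18120) (by decide +kernel)
                (CovZ.leaf K2_ok TB_l35125 _)
                (CovZ.leaf K2_ok TB_l35126 _)))
              (CovZ.n1 (-15168, 18096) (by decide +kernel)
               (CovZ.n2 (-15192, 18072) (by decide +kernel)
                (CovZ.leaf K2_ok TB_l35127 _)
                (CovZ.leaf K2_ok TB_l35128 _))
               (CovZ.n1 (-15192, 18120) (by decide +kernel)
                (CovZ.leaf K2_ok TB_l35129 _)
                (CovZ.n1 (-15192, 18096) (by decide +kernel)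
                 (CovZ.leaf K2_ok TB_l35130 _)
                 (CovZ.leaf K2_ok TB_l35131 _)))))
             (CovZ.n1 (-15216, 18192) (by decide +kernel)
              (CovZ.n2 (-15168, 18192) (by decide +kernel)
               (CovZ.n2 (-15192, 18168) (by decide +kernel)
                (CovZ.n2 (-15192, 18192) (by decide +kernel)
                 (CovZ.leaf K2_ok TB_l35132 _)
                 (CovZ.leaf K2_ok TB_l35133 _))
                (CovZ.leaf K2_ok TB_l35134 _))
               (CovZ.badM (by decide +kernel)))
              (CovZ.n1 (-15216, 18144) (by decide +kernel)
               (CovZ.n2 (-15240, 18168) (by decide +kernel)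
                (CovZ.leaf K2_ok TB_l35139 _)
                (CovZ.leaf K2_ok TB_l35140 _))
               (CovZ.n1 (-15192, 18168) (by decide +kernel)
                (CovZ.n2 (-15192, 18144) (by decide +kernel)
                 (CovZ.leaf K2_ok TB_l35141 _)
                 (CovZ.leaf K2_ok TB_l35142 _))
                (CovZ.leaf K2_ok TB_l35143 _))))))
           (CovZ.n1 (-15264, 18048) (by decide +kernel)
            (CovZ.n2 (-15312, 18096) (by decide +kernel)
             (CovZ.n2 (-15264, 18096) (by decide +kernel)
              (CovZ.leaf K2_ok TB_l35144 _)
              (CovZ.leaf K2_ok TB_l35145 _))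
             (CovZ.n1 (-15312, 18048) (by decide +kernel)
              (CovZ.leaf K2_ok TB_l35146 _)
              (CovZ.leaf K2_ok TB_l35147 _)))
            (CovZ.subM 587135645693458306972370149197334256843920637233507719856851859349624166423763219386602222276975145263300864 (by decide +kernel)
             (CovZ.n1 (-15216, 18096) (by decide +kernel)
              (CovZ.n2 (-15216, 18048) (by decide +kernel)
               (CovZ.leaf K2_ok TB_l35148 _)
               (CovZ.n1 (-15192, 18072) (by decide +kernel)
                (CovZ.leaf K2_ok TB_l35149 _)
                (CovZ.leaf K2_ok TB_l35150 _)))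
              (CovZ.n1 (-15264, 18096) (by decide +kernel)
               (CovZ.leaf K2_ok TB_l35151 _)
               (CovZ.leaf K2_ok TB_l35152 _))))))
          (CovZ.subM 587135645693458306972370149197334256843920637227079967676822742894202628877917422439110460371745614860386560 (by decide +kernel)
           (CovZ.n1 (-15072, 18144) (by decide +kernel)
            (CovZ.n2 (-15072, 18048) (by decide +kernel)
             (CovZ.n2 (-15120, 18096) (by decide +kernel)
              (CovZ.n2 (-15072, 18096) (by decide +kernel)
               (CovZ.n2 (-15096, 18072) (by decide +kernel)
                (CovZ.n2 (-15096, 18096) (by decide +kernel)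
                 (CovZ.badM (by decide +kernel))
                 (CovZ.leaf K2_ok TB_l35153 _))
                (CovZ.badM (by decide +kernel)))
               (CovZ.n1 (-15096, 18120) (by decide +kernel)
                (CovZ.badM (by decide +kernel))
                (CovZ.n1 (-15096, 18096) (by decide +kernel)
                 (CovZ.leaf K2_ok TB_l35154 _)
                 (CovZ.badM (by decide +kernel)))))
              (CovZ.n1 (-15120, 18048) (by decide +kernel)
               (CovZ.n2 (-15144, 18072) (by decide +kernel)
                (CovZ.leaf K2_ok TB_l35155 _)
                (CovZ.n1 (-15144, 18048) (by decide +kernel)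
                 (CovZ.leaf K2_ok TB_l35156 _)
                 (CovZ.leaf K2_ok TB_l35157 _)))
               (CovZ.n1 (-15096, 18072) (by decide +kernel)
                (CovZ.n2 (-15096, 18048) (by decide +kernel)
                 (CovZ.leaf K2_ok TB_l35158 _)
                 (CovZ.badM (by decide +kernel)))
                (CovZ.leaf K2_ok TB_l35159 _))))
             (CovZ.badM (by decide +kernel)))
            (CovZ.n1 (-15168, 18144) (by decide +kernel)
             (CovZ.n2 (-15120, 18192) (by decide +kernel)
              (CovZ.n2 (-15120, 18144) (by decide +kernel)
               (CovZ.n2 (-15144, 18168) (by decide +kernel)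
                (CovZ.n2 (-15120, 18168) (by decide +kernel)
                 (CovZ.leaf K2_ok TB_l35160 _)
                 (CovZ.leaf K2_ok TB_l35161 _))
                (CovZ.n1 (-15144, 18144) (by decide +kernel)
                 (CovZ.leaf K2_ok TB_l35162 _)
                 (CovZ.leaf K2_ok TB_l35163 _)))
               (CovZ.n1 (-15096, 18168) (by decide +kernel)
                (CovZ.n2 (-15096, 18144) (by decide +kernel)
                 (CovZ.leaf K2_ok TB_l35164 _)
                 (CovZ.badM (by decide +kernel)))
                (CovZ.n1 (-15120, 18168) (by decide +kernel)
                 (CovZ.leaf K2_ok TB_l35165 _)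
                 (CovZ.leaf K2_ok TB_l35166 _))))
              (CovZ.n1 (-15168, 18192) (by decide +kernel)
               (CovZ.badM (by decide +kernel))
               (CovZ.n1 (-15144, 18168) (by decide +kernel)
                (CovZ.n2 (-15168, 18168) (by decide +kernel)
                 (CovZ.leaf K2_ok TB_l35170 _)
                 (CovZ.leaf K2_ok TB_l35171 _))
                (CovZ.n1 (-15144, 18192) (by decide +kernel)
                 (CovZ.leaf K2_ok TB_l35172 _)
                 (CovZ.leaf K2_ok TB_l35173 _)))))
             (CovZ.n1 (-15120, 18096) (by decide +kernel)
              (CovZ.n2 (-15168, 18096) (by decide +kernel)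
               (CovZ.n2 (-15144, 18120) (by decide +kernel)
                (CovZ.n2 (-15144, 18096) (by decide +kernel)
                 (CovZ.leaf K2_ok TB_l35174 _)
                 (CovZ.leaf K2_ok TB_l35175 _))
                (CovZ.leaf K2_ok TB_l35176 _))
               (CovZ.n1 (-15144, 18072) (by decide +kernel)
                (CovZ.leaf K2_ok TB_l35177 _)
                (CovZ.leaf K2_ok TB_l35178 _)))
              (CovZ.n1 (-15120, 18144) (by decide +kernel)
               (CovZ.n2 (-15096, 18120) (by decide +kernel)
                (CovZ.n2 (-15120, 18120) (by decide +kernel)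
                 (CovZ.leaf K2_ok TB_l35179 _)
                 (CovZ.leaf K2_ok TB_l35180 _))
                (CovZ.n1 (-15096, 18144) (by decide +kernel)
                 (CovZ.badM (by decide +kernel))
                 (CovZ.leaf K2_ok TB_l35181 _)))
               (CovZ.n1 (-15144, 18120) (by decide +kernel)
                (CovZ.n2 (-15144, 18144) (by decide +kernel)
                 (CovZ.leaf K2_ok TB_l35182 _)
                 (CovZ.leaf K2_ok TB_l35183 _))
                (CovZ.n1 (-15120, 18120) (by decide +kernel)
                 (CovZ.leaf K2_ok TB_l35184 _)
                 (CovZ.leaf K2_ok TB_l35185 _)))))))))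
         (CovZ.n1 (-15360, 18240) (by decide +kernel)
          (CovZ.n2 (-15264, 18336) (by decide +kernel)
           (CovZ.n2 (-15264, 18240) (by decide +kernel)
            (CovZ.n2 (-15312, 18288) (by decide +kernel)
             (CovZ.subM 73786976294838206464 (by decide +kernel)
              (CovZ.n2 (-15264, 18288) (by decide +kernel)
               (CovZ.n2 (-15288, 18264) (by decide +kernel)
                (CovZ.leaf K2_ok TB_l35186 _)
                (CovZ.badM (by decide +kernel)))
               (CovZ.n1 (-15288, 18312) (by decide +kernel)
                (CovZ.badM (by decide +kernel))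
                (CovZ.leaf K2_ok TB_l35189 _))))
             (CovZ.n1 (-15312, 18240) (by decide +kernel)
              (CovZ.leaf K2_ok TB_l35190 _)
              (CovZ.n1 (-15288, 18264) (by decide +kernel)
               (CovZ.leaf K2_ok TB_l35191 _)
               (CovZ.leaf K2_ok TB_l35192 _))))
            (CovZ.badM (by decide +kernel)))
           (CovZ.n1 (-15360, 18336) (by decide +kernel)
            (CovZ.n2 (-15312, 18384) (by decide +kernel)
             (CovZ.n2 (-15312, 18336) (by decide +kernel)
              (CovZ.n2 (-15336, 18360) (by decide +kernel)
               (CovZ.leaf K2_ok TB_l46903 _)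
               (CovZ.leaf K2_ok TB_l35205 _))
              (CovZ.n1 (-15288, 18360) (by decide +kernel)
               (CovZ.n2 (-15288, 18336) (by decide +kernel)
                (CovZ.leaf K2_ok TB_l46904 _)
                (CovZ.badM (by decide +kernel)))
               (CovZ.leaf K2_ok TB_l46905 _)))
             (CovZ.n1 (-15360, 18384) (by decide +kernel)
              (CovZ.n2 (-15336, 18408) (by decide +kernel)
               (CovZ.n2 (-15336, 18384) (by decide +kernel)
                (CovZ.leaf K2_ok TB_l35207 _)
                (CovZ.leaf K2_ok TB_l46906 _))
               (CovZ.leaf K2_ok TB_l35208 _))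
              (CovZ.n1 (-15336, 18360) (by decide +kernel)
               (CovZ.leaf K2_ok TB_l35209 _)
               (CovZ.leaf K2_ok TB_l35210 _))))
            (CovZ.n1 (-15312, 18288) (by decide +kernel)
             (CovZ.n2 (-15360, 18288) (by decide +kernel)
              (CovZ.leaf K2_ok TB_l35211 _)
              (CovZ.leaf K2_ok TB_l35212 _))
             (CovZ.n1 (-15312, 18336) (by decide +kernel)
              (CovZ.n2 (-15288, 18312) (by decide +kernel)
               (CovZ.leaf K2_ok TB_l35213 _)
               (CovZ.leaf K2_ok TB_l35214 _))
              (CovZ.n1 (-15336, 18312) (by decide +kernel)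
               (CovZ.leaf K2_ok TB_l35215 _)
               (CovZ.leaf K2_ok TB_l35216 _))))))
          (CovZ.n1 (-15264, 18144) (by decide +kernel)
           (CovZ.n2 (-15360, 18144) (by decide +kernel)
            (CovZ.n2 (-15312, 18192) (by decide +kernel)
             (CovZ.n2 (-15312, 18144) (by decide +kernel)
              (CovZ.leaf K2_ok TB_l35217 _)
              (CovZ.leaf K2_ok TB_l35218 _))
             (CovZ.n1 (-15360, 18192) (by decide +kernel)
              (CovZ.leaf K2_ok TB_l35219 _)
              (CovZ.leaf K2_ok TB_l35220 _)))
            (CovZ.n1 (-15312, 18096) (by decide +kernel)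
             (CovZ.leaf K2_ok TB_l35221 _)
             (CovZ.n1 (-15312, 18144) (by decide +kernel)
              (CovZ.leaf K2_ok TB_l35222 _)
              (CovZ.leaf K2_ok TB_l35223 _))))
           (CovZ.n1 (-15264, 18240) (by decide +kernel)
            (CovZ.subM 587135645693458306972370149197334256843920637227079967676822742894202628877917422436692608732516356510974208 (by decide +kernel)
             (CovZ.n2 (-15216, 18192) (by decide +kernel)
              (CovZ.n2 (-15264, 18192) (by decide +kernel)
               (CovZ.badM (by decide +kernel))
               (CovZ.n1 (-15240, 18168) (by decide +kernel)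
                (CovZ.leaf K2_ok TB_l35227 _)
                (CovZ.leaf K2_ok TB_l35228 _)))
              (CovZ.badM (by decide +kernel))))
            (CovZ.n1 (-15312, 18192) (by decide +kernel)
             (CovZ.n2 (-15312, 18240) (by decide +kernel)
              (CovZ.n2 (-15288, 18216) (by decide +kernel)
               (CovZ.leaf K2_ok TB_l35235 _)
               (CovZ.leaf K2_ok TB_l35236 _))
              (CovZ.leaf K2_ok TB_l35237 _))
             (CovZ.n1 (-15264, 18192) (by decide +kernel)
              (CovZ.leaf K2_ok TB_l35238 _)
              (CovZ.n1 (-15288, 18216) (by decide +kernel)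
               (CovZ.badM (by decide +kernel))
               (CovZ.leaf K2_ok TB_l35240 _)))))))))

theorem TB_u418 : CovZ TB_M (toL (selN TB_LN 661055968790554496632280578779740850931954045282002772050196896074713649921073177988131524142665881854625438637923414180096)) [0, 7, 6, 1] (-15360, 18048) (-15360, 17664) (-14976, 18048) :=
    (CovZ.n1 (-15168, 17856) (by decide +kernel)
        (CovZ.n2 (-15360, 17856) (by decide +kernel)
         (CovZ.subM 305897671406291777932604847731814968954628453987844086177342572872931117855467495188445321556288540218837041408 (by decide +kernel)
          (CovZ.n2 (-15264, 17952) (by decide +kernel)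
           (CovZ.n2 (-15264, 17856) (by decide +kernel)
            (CovZ.n2 (-15312, 17904) (by decide +kernel)
             (CovZ.leaf K2_ok TB_l35241 _)
             (CovZ.leaf K2_ok TB_l35242 _))
            (CovZ.n1 (-15216, 17904) (by decide +kernel)
             (CovZ.n2 (-15216, 17856) (by decide +kernel)
              (CovZ.leaf K2_ok TB_l35243 _)
              (CovZ.leaf K2_ok TB_l35244 _))
             (CovZ.leaf K2_ok TB_l35245 _)))
           (CovZ.n1 (-15360, 17952) (by decide +kernel)
            (CovZ.n2 (-15312, 18000) (by decide +kernel)
             (CovZ.leaf K2_ok TB_l35246 _)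
             (CovZ.leaf K2_ok TB_l35247 _))
            (CovZ.n1 (-15312, 17904) (by decide +kernel)
             (CovZ.leaf K2_ok TB_l35248 _)
             (CovZ.n1 (-15312, 17952) (by decide +kernel)
              (CovZ.leaf K2_ok TB_l35249 _)
              (CovZ.leaf K2_ok TB_l35250 _))))))
         (CovZ.n1 (-15264, 17760) (by decide +kernel)
          (CovZ.n2 (-15360, 17760) (by decide +kernel)
           (CovZ.n2 (-15312, 17808) (by decide +kernel)
            (CovZ.leaf K2_ok TB_l35251 _)
            (CovZ.leaf K2_ok TB_l35252 _))
           (CovZ.n1 (-15312, 17712) (by decide +kernel)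
            (CovZ.leaf K2_ok TB_l35253 _)
            (CovZ.leaf K2_ok TB_l35254 _)))
          (CovZ.subM 305897671406291777932604847731814968954628453987844086177342572873287935223161855893725308467256323327698010368 (by decide +kernel)
           (CovZ.n1 (-15264, 17856) (by decide +kernel)
            (CovZ.n2 (-15216, 17808) (by decide +kernel)
             (CovZ.leaf K2_ok TB_l35255 _)
             (CovZ.n1 (-15216, 17856) (by decide +kernel)
              (CovZ.leaf K2_ok TB_l35256 _)
              (CovZ.leaf K2_ok TB_l35257 _)))
            (CovZ.n1 (-15312, 17808) (by decide +kernel)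
             (CovZ.leaf K2_ok TB_l35258 _)
             (CovZ.leaf K2_ok TB_l35259 _))))))
        (CovZ.subM 5284220811241124762751331342779829450541087727579142726809328516808362640797614424472879743395456084709867776 (by decide +kernel)
         (CovZ.n1 (-15168, 18048) (by decide +kernel)
          (CovZ.subM 587135645693458306972370149197334256843920637233507719856851859528030128017200501377422796086692533640364288 (by decide +kernel)
           (CovZ.n2 (-15072, 17952) (by decide +kernel)
            (CovZ.n2 (-15168, 17952) (by decide +kernel)
             (CovZ.n2 (-15120, 18000) (by decide +kernel)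
              (CovZ.n2 (-15120, 17952) (by decide +kernel)
               (CovZ.n2 (-15144, 17976) (by decide +kernel)
                (CovZ.leaf K2_ok TB_l35260 _)
                (CovZ.leaf K2_ok TB_l35261 _))
               (CovZ.n1 (-15096, 17976) (by decide +kernel)
                (CovZ.n2 (-15096, 17952) (by decide +kernel)
                 (CovZ.leaf K2_ok TB_l35262 _)
                 (CovZ.leaf K2_ok TB_l46907 _))
                (CovZ.leaf K2_ok TB_l35263 _)))
              (CovZ.n1 (-15168, 18000) (by decide +kernel)
               (CovZ.n2 (-15144, 18024) (by decide +kernel)
                (CovZ.leaf K2_ok TB_l35264 _)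
                (CovZ.leaf K2_ok TB_l35265 _))
               (CovZ.n1 (-15144, 17976) (by decide +kernel)
                (CovZ.leaf K2_ok TB_l35266 _)
                (CovZ.leaf K2_ok TB_l35267 _))))
             (CovZ.n1 (-15120, 17904) (by decide +kernel)
              (CovZ.n2 (-15168, 17904) (by decide +kernel)
               (CovZ.leaf K2_ok TB_l35268 _)
               (CovZ.leaf K2_ok TB_l35269 _))
              (CovZ.n1 (-15120, 17952) (by decide +kernel)
               (CovZ.n2 (-15096, 17928) (by decide +kernel)
                (CovZ.leaf K2_ok TB_l35270 _)
                (CovZ.n1 (-15096, 17952) (by decide +kernel)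
                 (CovZ.leaf K2_ok TB_l46908 _)
                 (CovZ.leaf K2_ok TB_l35271 _)))
               (CovZ.n1 (-15144, 17928) (by decide +kernel)
                (CovZ.leaf K2_ok TB_l35272 _)
                (CovZ.leaf K2_ok TB_l35273 _)))))
            (CovZ.subM 587135645693458306972370149197334256843920637227079967676822743072608590466162407571396206552932506908229888 (by decide +kernel)
             (CovZ.n1 (-15072, 18048) (by decide +kernel)
              (CovZ.n2 (-15024, 18000) (by decide +kernel)
               (CovZ.n2 (-15072, 18000) (by decide +kernel)
                (CovZ.badM (by decide +kernel))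
                (CovZ.n1 (-15048, 17976) (by decide +kernel)
                 (CovZ.n2 (-15072, 17976) (by decide +kernel)
                  (CovZ.leaf K2_ok TB_l46912 _)
                  (CovZ.leaf K2_ok TB_l46913 _))
                 (CovZ.badM (by decide +kernel))))
               (CovZ.badM (by decide +kernel)))
              (CovZ.n1 (-15120, 18000) (by decide +kernel)
               (CovZ.n2 (-15120, 18048) (by decide +kernel)
                (CovZ.n2 (-15096, 18024) (by decide +kernel)
                 (CovZ.leaf K2_ok TB_l35274 _)
                 (CovZ.n1 (-15096, 18048) (by decide +kernel)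
                  (CovZ.badM (by decide +kernel))
                  (CovZ.leaf K2_ok TB_l35275 _)))
                (CovZ.n1 (-15144, 18024) (by decide +kernel)
                 (CovZ.leaf K2_ok TB_l35276 _)
                 (CovZ.leaf K2_ok TB_l35277 _)))
               (CovZ.n1 (-15072, 18000) (by decide +kernel)
                (CovZ.n2 (-15096, 17976) (by decide +kernel)
                 (CovZ.n2 (-15096, 18000) (by decide +kernel)
                  (CovZ.leaf K2_ok TB_l46917 _)
                  (CovZ.leaf K2_ok TB_l35278 _))
                 (CovZ.leaf K2_ok TB_l46918 _))
                (CovZ.n1 (-15096, 18024) (by decide +kernel)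
                 (CovZ.badM (by decide +kernel))
                 (CovZ.n1 (-15096, 18000) (by decide +kernel)
                  (CovZ.leaf K2_ok TB_l35279 _)
                  (CovZ.badM (by decide +kernel))))))))))
          (CovZ.n1 (-15264, 17952) (by decide +kernel)
           (CovZ.n2 (-15264, 18048) (by decide +kernel)
            (CovZ.subM 587135645693458306972370149197334256843920637233507719856851859528030128012008204518887968458162037579579648 (by decide +kernel)
             (CovZ.n2 (-15216, 18000) (by decide +kernel)
              (CovZ.n2 (-15264, 18000) (by decide +kernel)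
               (CovZ.leaf K2_ok TB_l35280 _)
               (CovZ.leaf K2_ok TB_l35281 _))
              (CovZ.n1 (-15216, 18048) (by decide +kernel)
               (CovZ.n2 (-15192, 18024) (by decide +kernel)
                (CovZ.leaf K2_ok TB_l35282 _)
                (CovZ.leaf K2_ok TB_l35283 _))
               (CovZ.leaf K2_ok TB_l35284 _))))
            (CovZ.n1 (-15312, 18000) (by decide +kernel)
             (CovZ.n2 (-15312, 18048) (by decide +kernel)
              (CovZ.leaf K2_ok TB_l35285 _)
              (CovZ.leaf K2_ok TB_l35286 _))
             (CovZ.n1 (-15264, 18000) (by decide +kernel)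
              (CovZ.leaf K2_ok TB_l35287 _)
              (CovZ.leaf K2_ok TB_l35288 _))))
           (CovZ.subM 587135645693458306972370149197334256843920637233507719856851859528030128017200501377422796086692533908799744 (by decide +kernel)
            (CovZ.n1 (-15168, 17952) (by decide +kernel)
             (CovZ.n2 (-15216, 17904) (by decide +kernel)
              (CovZ.n2 (-15216, 17952) (by decide +kernel)
               (CovZ.leaf K2_ok TB_l35289 _)
               (CovZ.leaf K2_ok TB_l35290 _))
              (CovZ.n1 (-15168, 17904) (by decide +kernel)
               (CovZ.leaf K2_ok TB_l35291 _)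
               (CovZ.leaf K2_ok TB_l35292 _)))
             (CovZ.n1 (-15216, 18000) (by decide +kernel)
              (CovZ.n2 (-15168, 18000) (by decide +kernel)
               (CovZ.leaf K2_ok TB_l35293 _)
               (CovZ.n1 (-15192, 18024) (by decide +kernel)
                (CovZ.leaf K2_ok TB_l35294 _)
                (CovZ.leaf K2_ok TB_l35295 _)))
              (CovZ.n1 (-15216, 17952) (by decide +kernel)
               (CovZ.leaf K2_ok TB_l35296 _)
               (CovZ.leaf K2_ok TB_l35297 _)))))))))

theorem TB_u419 : CovZ TB_M (toL (selN TB_LN 661055968790554496632280578779740850931954045282002772050196896074713649921073177988131524142665881854625438637923414180096)) [0, 7, 6, 1] (-14592, 17664) (-14976, 17664) (-14976, 17280) :=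
    (CovZ.subM 8958978968711216842229769122273777112486588416690784155027519752990287182446601982679637202045748903936 (by decide +kernel)
        (CovZ.n2 (-14784, 17472) (by decide +kernel)
         (CovZ.n2 (-14976, 17472) (by decide +kernel)
          (CovZ.subM 356817367694360705898959294099557690346831872 (by decide +kernel)
           (CovZ.n2 (-14880, 17568) (by decide +kernel)
            (CovZ.n2 (-14880, 17472) (by decide +kernel)
             (CovZ.n2 (-14928, 17520) (by decide +kernel)
              (CovZ.subM 618970024254376155876950016 (by decide +kernel)
               (CovZ.n2 (-14880, 17520) (by decide +kernel)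
                (CovZ.n2 (-14904, 17496) (by decide +kernel)
                 (CovZ.n2 (-14904, 17520) (by decide +kernel)
                  (CovZ.leaf K2_ok TB_l35377 _)
                  (CovZ.leaf K2_ok TB_l35378 _))
                 (CovZ.n1 (-14880, 17496) (by decide +kernel)
                  (CovZ.leaf K2_ok TB_l35379 _)
                  (CovZ.leaf K2_ok TB_l35380 _)))
                (CovZ.n1 (-14904, 17544) (by decide +kernel)
                 (CovZ.badM (by decide +kernel))
                 (CovZ.n1 (-14904, 17520) (by decide +kernel)
                  (CovZ.leaf K2_ok TB_l35383 _)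
                  (CovZ.badM (by decide +kernel))))))
              (CovZ.n1 (-14928, 17472) (by decide +kernel)
               (CovZ.n2 (-14952, 17496) (by decide +kernel)
                (CovZ.leaf K2_ok TB_l35385 _)
                (CovZ.leaf K2_ok TB_l35386 _))
               (CovZ.n1 (-14904, 17496) (by decide +kernel)
                (CovZ.n2 (-14904, 17472) (by decide +kernel)
                 (CovZ.leaf K2_ok TB_l35387 _)
                 (CovZ.leaf K2_ok TB_l35388 _))
                (CovZ.leaf K2_ok TB_l35389 _))))
             (CovZ.subM 618970019642690137449562112 (by decide +kernel)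
              (CovZ.n1 (-14832, 17520) (by decide +kernel)
               (CovZ.n2 (-14832, 17472) (by decide +kernel)
                (CovZ.n2 (-14856, 17496) (by decide +kernel)
                 (CovZ.badM (by decide +kernel))
                 (CovZ.n1 (-14856, 17472) (by decide +kernel)
                  (CovZ.leaf K2_ok TB_l35392 _)
                  (CovZ.leaf K2_ok TB_l35393 _)))
                (CovZ.badM (by decide +kernel)))
               (CovZ.n1 (-14880, 17520) (by decide +kernel)
                (CovZ.badM (by decide +kernel))
                (CovZ.n1 (-14856, 17496) (by decide +kernel)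
                 (CovZ.leaf K2_ok TB_l35398 _)
                 (CovZ.badM (by decide +kernel)))))))
            (CovZ.n1 (-14976, 17568) (by decide +kernel)
             (CovZ.n2 (-14928, 17616) (by decide +kernel)
              (CovZ.n2 (-14928, 17568) (by decide +kernel)
               (CovZ.n2 (-14952, 17592) (by decide +kernel)
                (CovZ.n2 (-14928, 17592) (by decide +kernel)
                 (CovZ.leaf K2_ok TB_l35401 _)
                 (CovZ.leaf K2_ok TB_l35402 _))
                (CovZ.n1 (-14952, 17568) (by decide +kernel)
                 (CovZ.leaf K2_ok TB_l35403 _)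
                 (CovZ.leaf K2_ok TB_l35404 _)))
               (CovZ.n1 (-14904, 17592) (by decide +kernel)
                (CovZ.n2 (-14904, 17568) (by decide +kernel)
                 (CovZ.leaf K2_ok TB_l35405 _)
                 (CovZ.badM (by decide +kernel)))
                (CovZ.leaf K2_ok TB_l35407 _)))
              (CovZ.n1 (-14976, 17616) (by decide +kernel)
               (CovZ.n2 (-14952, 17640) (by decide +kernel)
                (CovZ.n2 (-14952, 17616) (by decide +kernel)
                 (CovZ.leaf K2_ok TB_l35408 _)
                 (CovZ.leaf K2_ok TB_l35409 _))
                (CovZ.leaf K2_ok TB_l35410 _))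
               (CovZ.n1 (-14952, 17592) (by decide +kernel)
                (CovZ.leaf K2_ok TB_l35411 _)
                (CovZ.n1 (-14952, 17616) (by decide +kernel)
                 (CovZ.leaf K2_ok TB_l35412 _)
                 (CovZ.leaf K2_ok TB_l35413 _)))))
             (CovZ.n1 (-14928, 17520) (by decide +kernel)
              (CovZ.n2 (-14976, 17520) (by decide +kernel)
               (CovZ.n2 (-14952, 17544) (by decide +kernel)
                (CovZ.n2 (-14952, 17520) (by decide +kernel)
                 (CovZ.leaf K2_ok TB_l35414 _)
                 (CovZ.leaf K2_ok TB_l35415 _))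
                (CovZ.leaf K2_ok TB_l35416 _))
               (CovZ.n1 (-14952, 17496) (by decide +kernel)
                (CovZ.leaf K2_ok TB_l35417 _)
                (CovZ.leaf K2_ok TB_l35418 _)))
              (CovZ.n1 (-14928, 17568) (by decide +kernel)
               (CovZ.n2 (-14904, 17544) (by decide +kernel)
                (CovZ.leaf K2_ok TB_l35419 _)
                (CovZ.n1 (-14904, 17568) (by decide +kernel)
                 (CovZ.badM (by decide +kernel))
                 (CovZ.leaf K2_ok TB_l35421 _)))
               (CovZ.n1 (-14952, 17544) (by decide +kernel)
                (CovZ.n2 (-14952, 17568) (by decide +kernel)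
                 (CovZ.leaf K2_ok TB_l35422 _)
                 (CovZ.leaf K2_ok TB_l35423 _))
                (CovZ.leaf K2_ok TB_l35424 _)))))))
          (CovZ.n1 (-14880, 17376) (by decide +kernel)
           (CovZ.n2 (-14976, 17376) (by decide +kernel)
            (CovZ.subM 6427752180029116812238905240206502846451053698944211804487680 (by decide +kernel)
             (CovZ.n2 (-14928, 17424) (by decide +kernel)
              (CovZ.n2 (-14928, 17376) (by decide +kernel)
               (CovZ.n2 (-14952, 17400) (by decide +kernel)
                (CovZ.leaf K2_ok TB_l35425 _)
                (CovZ.n1 (-14952, 17376) (by decide +kernel)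
                 (CovZ.leaf K2_ok TB_l35426 _)
                 (CovZ.leaf K2_ok TB_l35427 _)))
               (CovZ.n1 (-14904, 17400) (by decide +kernel)
                (CovZ.n2 (-14904, 17376) (by decide +kernel)
                 (CovZ.leaf K2_ok TB_l35428 _)
                 (CovZ.leaf K2_ok TB_l35429 _))
                (CovZ.leaf K2_ok TB_l35430 _)))
              (CovZ.n1 (-14976, 17424) (by decide +kernel)
               (CovZ.n2 (-14952, 17448) (by decide +kernel)
                (CovZ.leaf K2_ok TB_l35431 _)
                (CovZ.leaf K2_ok TB_l35432 _))
               (CovZ.n1 (-14952, 17400) (by decide +kernel)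
                (CovZ.leaf K2_ok TB_l35433 _)
                (CovZ.leaf K2_ok TB_l35434 _)))))
            (CovZ.n1 (-14928, 17328) (by decide +kernel)
             (CovZ.n2 (-14976, 17328) (by decide +kernel)
              (CovZ.n2 (-14952, 17352) (by decide +kernel)
               (CovZ.leaf K2_ok TB_l35435 _)
               (CovZ.leaf K2_ok TB_l35436 _))
              (CovZ.n1 (-14952, 17304) (by decide +kernel)
               (CovZ.leaf K2_ok TB_l35437 _)
               (CovZ.leaf K2_ok TB_l35438 _)))
             (CovZ.subM 6427752180029116812238905240206502846451053698944211804487680 (by decide +kernel)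
              (CovZ.n1 (-14928, 17376) (by decide +kernel)
               (CovZ.n2 (-14904, 17352) (by decide +kernel)
                (CovZ.leaf K2_ok TB_l35439 _)
                (CovZ.leaf K2_ok TB_l35440 _))
               (CovZ.n1 (-14952, 17352) (by decide +kernel)
                (CovZ.leaf K2_ok TB_l35441 _)
                (CovZ.leaf K2_ok TB_l35442 _))))))
           (CovZ.subM 356817367694360705898959294099557690346831872 (by decide +kernel)
            (CovZ.n1 (-14880, 17472) (by decide +kernel)
             (CovZ.subM 618970019642690137449562112 (by decide +kernel)
              (CovZ.n2 (-14832, 17424) (by decide +kernel)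
               (CovZ.n2 (-14880, 17424) (by decide +kernel)
                (CovZ.n2 (-14856, 17448) (by decide +kernel)
                 (CovZ.n2 (-14856, 17424) (by decide +kernel)
                  (CovZ.leaf K2_ok TB_l35443 _)
                  (CovZ.leaf K2_ok TB_l35444 _))
                 (CovZ.n1 (-14880, 17448) (by decide +kernel)
                  (CovZ.leaf K2_ok TB_l35445 _)
                  (CovZ.leaf K2_ok TB_l35446 _)))
                (CovZ.n1 (-14856, 17400) (by decide +kernel)
                 (CovZ.n2 (-14880, 17400) (by decide +kernel)
                  (CovZ.leaf K2_ok TB_l35447 _)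
                  (CovZ.leaf K2_ok TB_l35448 _))
                 (CovZ.n1 (-14856, 17424) (by decide +kernel)
                  (CovZ.leaf K2_ok TB_l35449 _)
                  (CovZ.leaf K2_ok TB_l35450 _))))
               (CovZ.n1 (-14832, 17472) (by decide +kernel)
                (CovZ.n2 (-14808, 17448) (by decide +kernel)
                 (CovZ.n2 (-14832, 17448) (by decide +kernel)
                  (CovZ.leaf K2_ok TB_l46922 _)
                  (CovZ.leaf K2_ok TB_l46923 _))
                 (CovZ.badM (by decide +kernel)))
                (CovZ.n1 (-14856, 17448) (by decide +kernel)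
                 (CovZ.n2 (-14856, 17472) (by decide +kernel)
                  (CovZ.leaf K2_ok TB_l35451 _)
                  (CovZ.leaf K2_ok TB_l35452 _))
                 (CovZ.n1 (-14832, 17448) (by decide +kernel)
                  (CovZ.leaf K2_ok TB_l35453 _)
                  (CovZ.leaf K2_ok TB_l35454 _))))))
             (CovZ.n1 (-14928, 17424) (by decide +kernel)
              (CovZ.n2 (-14928, 17472) (by decide +kernel)
               (CovZ.n2 (-14904, 17448) (by decide +kernel)
                (CovZ.leaf K2_ok TB_l35455 _)
                (CovZ.n1 (-14904, 17472) (by decide +kernel)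
                 (CovZ.leaf K2_ok TB_l35456 _)
                 (CovZ.leaf K2_ok TB_l35457 _)))
               (CovZ.n1 (-14952, 17448) (by decide +kernel)
                (CovZ.leaf K2_ok TB_l35458 _)
                (CovZ.leaf K2_ok TB_l35459 _)))
              (CovZ.subM 618970024254376155876950016 (by decide +kernel)
               (CovZ.n1 (-14880, 17424) (by decide +kernel)
                (CovZ.n2 (-14904, 17400) (by decide +kernel)
                 (CovZ.n2 (-14904, 17424) (by decide +kernel)
                  (CovZ.leaf K2_ok TB_l35460 _)
                  (CovZ.leaf K2_ok TB_l35461 _))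
                 (CovZ.n1 (-14880, 17400) (by decide +kernel)
                  (CovZ.leaf K2_ok TB_l35462 _)
                  (CovZ.leaf K2_ok TB_l35463 _)))
                (CovZ.n1 (-14904, 17448) (by decide +kernel)
                 (CovZ.leaf K2_ok TB_l35464 _)
                 (CovZ.n1 (-14904, 17424) (by decide +kernel)
                  (CovZ.leaf K2_ok TB_l35465 _)
                  (CovZ.leaf K2_ok TB_l35466 _))))))))))
         (CovZ.subM 356817367694360705279989274456867552897269760 (by decide +kernel)
          (CovZ.n1 (-14784, 17664) (by decide +kernel)
           (CovZ.badM (by decide +kernel))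
           (CovZ.n1 (-14880, 17568) (by decide +kernel)
            (CovZ.n2 (-14880, 17664) (by decide +kernel)
             (CovZ.badM (by decide +kernel))
             (CovZ.n1 (-14928, 17616) (by decide +kernel)
              (CovZ.n2 (-14928, 17664) (by decide +kernel)
               (CovZ.subM 4611686018427387904 (by decide +kernel)
                (CovZ.n2 (-14904, 17640) (by decide +kernel)
                 (CovZ.n2 (-14928, 17640) (by decide +kernel)
                  (CovZ.leaf K2_ok TB_l46924 _)
                  (CovZ.leaf K2_ok TB_l46925 _))
                 (CovZ.n1 (-14904, 17664) (by decide +kernel)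
                  (CovZ.badM (by decide +kernel))
                  (CovZ.leaf K2_ok TB_l46926 _))))
               (CovZ.n1 (-14952, 17640) (by decide +kernel)
                (CovZ.n2 (-14952, 17664) (by decide +kernel)
                 (CovZ.leaf K2_ok TB_l46927 _)
                 (CovZ.leaf K2_ok TB_l35467 _))
                (CovZ.n1 (-14928, 17640) (by decide +kernel)
                 (CovZ.leaf K2_ok TB_l46928 _)
                 (CovZ.leaf K2_ok TB_l46929 _))))
              (CovZ.subM 4611686018427387904 (by decide +kernel)
               (CovZ.n1 (-14880, 17616) (by decide +kernel)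
                (CovZ.n2 (-14904, 17592) (by decide +kernel)
                 (CovZ.n2 (-14904, 17616) (by decide +kernel)
                  (CovZ.badM (by decide +kernel))
                  (CovZ.leaf K2_ok TB_l46930 _))
                 (CovZ.badM (by decide +kernel)))
                (CovZ.n1 (-14904, 17640) (by decide +kernel)
                 (CovZ.badM (by decide +kernel))
                 (CovZ.n1 (-14904, 17616) (by decide +kernel)
                  (CovZ.leaf K2_ok TB_l46931 _)
                  (CovZ.badM (by decide +kernel))))))))
            (CovZ.badM (by decide +kernel)))))))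

theorem TB_u420 : CovZ TB_M (toL (selN TB_LN 661055968790554496632280578779740850931954045282002772050196896074713649921073177988131524142665881854625438637923414180096)) [0, 7, 6, 1] (-14976, 17664) (-15360, 17664) (-14976, 17280) :=
    (CovZ.n1 (-15168, 17472) (by decide +kernel)
        (CovZ.n2 (-15168, 17664) (by decide +kernel)
         (CovZ.subM 301200586240744111476825886538232473760931286897498451170396082527427735296216851887987675522515164758970204416 (by decide +kernel)
          (CovZ.n2 (-15072, 17568) (by decide +kernel)
           (CovZ.n2 (-15168, 17568) (by decide +kernel)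
            (CovZ.n2 (-15120, 17616) (by decide +kernel)
             (CovZ.n2 (-15120, 17568) (by decide +kernel)
              (CovZ.leaf K2_ok TB_l35468 _)
              (CovZ.leaf K2_ok TB_l35469 _))
             (CovZ.leaf K2_ok TB_l35470 _))
            (CovZ.n1 (-15120, 17520) (by decide +kernel)
             (CovZ.leaf K2_ok TB_l35471 _)
             (CovZ.n1 (-15120, 17568) (by decide +kernel)
              (CovZ.leaf K2_ok TB_l35472 _)
              (CovZ.leaf K2_ok TB_l35473 _))))
           (CovZ.n1 (-15072, 17664) (by decide +kernel)
            (CovZ.subM 6427752180029116990644866833643784837271627508661600181551104 (by decide +kernel)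
             (CovZ.n2 (-15024, 17616) (by decide +kernel)
              (CovZ.n2 (-15072, 17616) (by decide +kernel)
               (CovZ.leaf K2_ok TB_l35474 _)
               (CovZ.leaf K2_ok TB_l35475 _))
              (CovZ.n1 (-15024, 17664) (by decide +kernel)
               (CovZ.n2 (-15000, 17640) (by decide +kernel)
                (CovZ.leaf K2_ok TB_l35476 _)
                (CovZ.leaf K2_ok TB_l35477 _))
               (CovZ.n1 (-15048, 17640) (by decide +kernel)
                (CovZ.leaf K2_ok TB_l35478 _)
                (CovZ.leaf K2_ok TB_l35479 _)))))
            (CovZ.n1 (-15120, 17616) (by decide +kernel)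
             (CovZ.n2 (-15120, 17664) (by decide +kernel)
              (CovZ.leaf K2_ok TB_l35480 _)
              (CovZ.leaf K2_ok TB_l35481 _))
             (CovZ.n1 (-15072, 17616) (by decide +kernel)
              (CovZ.leaf K2_ok TB_l35482 _)
              (CovZ.leaf K2_ok TB_l35483 _))))))
         (CovZ.n1 (-15264, 17568) (by decide +kernel)
          (CovZ.n2 (-15264, 17664) (by decide +kernel)
           (CovZ.n2 (-15216, 17616) (by decide +kernel)
            (CovZ.leaf K2_ok TB_l35484 _)
            (CovZ.n1 (-15216, 17664) (by decide +kernel)
             (CovZ.leaf K2_ok TB_l35485 _)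
             (CovZ.leaf K2_ok TB_l35486 _)))
           (CovZ.n1 (-15312, 17616) (by decide +kernel)
            (CovZ.leaf K2_ok TB_l35487 _)
            (CovZ.leaf K2_ok TB_l35488 _)))
          (CovZ.subM 301200586240744111476825886538232473760931286897498451170390096216721227917863889594912869627266654059274174720 (by decide +kernel)
           (CovZ.n1 (-15168, 17568) (by decide +kernel)
            (CovZ.n2 (-15216, 17520) (by decide +kernel)
             (CovZ.n2 (-15216, 17568) (by decide +kernel)
              (CovZ.leaf K2_ok TB_l35489 _)
              (CovZ.leaf K2_ok TB_l35490 _))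
             (CovZ.leaf K2_ok TB_l35491 _))
            (CovZ.n1 (-15216, 17616) (by decide +kernel)
             (CovZ.leaf K2_ok TB_l35492 _)
             (CovZ.leaf K2_ok TB_l35493 _))))))
        (CovZ.subM 301200595199723080188042728768001596034708399384080440108994222127428740641781397854914528491793806605265404160 (by decide +kernel)
         (CovZ.n1 (-14976, 17472) (by decide +kernel)
          (CovZ.n2 (-15072, 17376) (by decide +kernel)
           (CovZ.n2 (-15072, 17472) (by decide +kernel)
            (CovZ.n2 (-15024, 17424) (by decide +kernel)
             (CovZ.n2 (-15072, 17424) (by decide +kernel)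
              (CovZ.leaf K2_ok TB_l35494 _)
              (CovZ.leaf K2_ok TB_l35495 _))
             (CovZ.n1 (-15024, 17472) (by decide +kernel)
              (CovZ.leaf K2_ok TB_l35496 _)
              (CovZ.leaf K2_ok TB_l35497 _)))
            (CovZ.n1 (-15120, 17424) (by decide +kernel)
             (CovZ.n2 (-15120, 17472) (by decide +kernel)
              (CovZ.leaf K2_ok TB_l35498 _)
              (CovZ.leaf K2_ok TB_l35499 _))
             (CovZ.n1 (-15072, 17424) (by decide +kernel)
              (CovZ.leaf K2_ok TB_l35500 _)
              (CovZ.leaf K2_ok TB_l35501 _))))
           (CovZ.n1 (-14976, 17376) (by decide +kernel)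
            (CovZ.n2 (-15024, 17328) (by decide +kernel)
             (CovZ.n2 (-15024, 17376) (by decide +kernel)
              (CovZ.leaf K2_ok TB_l35502 _)
              (CovZ.leaf K2_ok TB_l35503 _))
             (CovZ.n1 (-14976, 17328) (by decide +kernel)
              (CovZ.leaf K2_ok TB_l35504 _)
              (CovZ.leaf K2_ok TB_l35505 _)))
            (CovZ.n1 (-15024, 17424) (by decide +kernel)
             (CovZ.n2 (-14976, 17424) (by decide +kernel)
              (CovZ.leaf K2_ok TB_l35506 _)
              (CovZ.n1 (-15000, 17448) (by decide +kernel)
               (CovZ.leaf K2_ok TB_l35507 _)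
               (CovZ.leaf K2_ok TB_l35508 _)))
             (CovZ.n1 (-15024, 17376) (by decide +kernel)
              (CovZ.leaf K2_ok TB_l35509 _)
              (CovZ.n1 (-15000, 17400) (by decide +kernel)
               (CovZ.leaf K2_ok TB_l35510 _)
               (CovZ.leaf K2_ok TB_l35511 _))))))
          (CovZ.n1 (-15072, 17568) (by decide +kernel)
           (CovZ.subM 6427752180029116990644866833643784837271627508661600181551104 (by decide +kernel)
            (CovZ.n2 (-14976, 17568) (by decide +kernel)
             (CovZ.n2 (-15024, 17520) (by decide +kernel)
              (CovZ.n2 (-15024, 17568) (by decide +kernel)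
               (CovZ.leaf K2_ok TB_l35512 _)
               (CovZ.leaf K2_ok TB_l35513 _))
              (CovZ.n1 (-14976, 17520) (by decide +kernel)
               (CovZ.leaf K2_ok TB_l35514 _)
               (CovZ.leaf K2_ok TB_l35515 _)))
             (CovZ.n1 (-15024, 17616) (by decide +kernel)
              (CovZ.n2 (-14976, 17616) (by decide +kernel)
               (CovZ.n2 (-15000, 17592) (by decide +kernel)
                (CovZ.leaf K2_ok TB_l35516 _)
                (CovZ.leaf K2_ok TB_l35517 _))
               (CovZ.n1 (-15000, 17640) (by decide +kernel)
                (CovZ.leaf K2_ok TB_l35518 _)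
                (CovZ.leaf K2_ok TB_l35519 _)))
              (CovZ.n1 (-15024, 17568) (by decide +kernel)
               (CovZ.leaf K2_ok TB_l35520 _)
               (CovZ.leaf K2_ok TB_l35521 _)))))
           (CovZ.n1 (-15072, 17472) (by decide +kernel)
            (CovZ.n2 (-15120, 17520) (by decide +kernel)
             (CovZ.n2 (-15072, 17520) (by decide +kernel)
              (CovZ.leaf K2_ok TB_l35522 _)
              (CovZ.leaf K2_ok TB_l35523 _))
             (CovZ.n1 (-15120, 17472) (by decide +kernel)
              (CovZ.leaf K2_ok TB_l35524 _)
              (CovZ.leaf K2_ok TB_l35525 _)))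
            (CovZ.subM 6427752180029116990644866833643784837290516974593078762405888 (by decide +kernel)
             (CovZ.n1 (-15024, 17520) (by decide +kernel)
              (CovZ.n2 (-15024, 17472) (by decide +kernel)
               (CovZ.leaf K2_ok TB_l35526 _)
               (CovZ.leaf K2_ok TB_l35527 _))
              (CovZ.n1 (-15072, 17520) (by decide +kernel)
               (CovZ.leaf K2_ok TB_l35528 _)
               (CovZ.leaf K2_ok TB_l35529 _)))))))))

theorem TB_u421 : CovZ TB_M (toL (selN TB_LN 305310535760598319625632477612986657533415416050143401203468514575925744476738912969120657541213491635240960016)) [0, 7, 6, 1] (-15744, 18816) (-15552, 18624) (-15360, 18816) :=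
    (CovZ.n2 (-15552, 18816) (by decide +kernel)
          (CovZ.n2 (-15456, 18720) (by decide +kernel)
           (CovZ.n2 (-15552, 18720) (by decide +kernel)
            (CovZ.n2 (-15504, 18768) (by decide +kernel)
             (CovZ.n2 (-15504, 18720) (by decide +kernel)
              (CovZ.leaf K2_ok TB_l28275 _)
              (CovZ.n1 (-15480, 18744) (by decide +kernel)
               (CovZ.leaf K2_ok TB_l28276 _)
               (CovZ.leaf K2_ok TB_l28277 _)))
             (CovZ.n1 (-15552, 18768) (by decide +kernel)
              (CovZ.leaf K2_ok TB_l28278 _)
              (CovZ.leaf K2_ok TB_l28279 _)))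
            (CovZ.n1 (-15504, 18672) (by decide +kernel)
             (CovZ.n2 (-15552, 18672) (by decide +kernel)
              (CovZ.n2 (-15528, 18696) (by decide +kernel)
               (CovZ.leaf K2_ok TB_l28280 _)
               (CovZ.leaf K2_ok TB_l28281 _))
              (CovZ.n1 (-15528, 18648) (by decide +kernel)
               (CovZ.leaf K2_ok TB_l28282 _)
               (CovZ.leaf K2_ok TB_l28283 _)))
             (CovZ.n1 (-15504, 18720) (by decide +kernel)
              (CovZ.n2 (-15480, 18696) (by decide +kernel)
               (CovZ.leaf K2_ok TB_l28284 _)
               (CovZ.leaf K2_ok TB_l28285 _))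
              (CovZ.n1 (-15528, 18696) (by decide +kernel)
               (CovZ.leaf K2_ok TB_l28286 _)
               (CovZ.leaf K2_ok TB_l28287 _)))))
           (CovZ.n1 (-15456, 18816) (by decide +kernel)
            (CovZ.subM 4697085165547666455778961193597316581229971504908501113632544802568359631703853718327743161523673695135072256 (by decide +kernel)
             (CovZ.n2 (-15408, 18768) (by decide +kernel)
              (CovZ.n2 (-15456, 18768) (by decide +kernel)
               (CovZ.n2 (-15432, 18792) (by decide +kernel)
                (CovZ.leaf K2_ok TB_l28288 _)
                (CovZ.leaf K2_ok TB_l28289 _))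
               (CovZ.n1 (-15432, 18744) (by decide +kernel)
                (CovZ.leaf K2_ok TB_l28290 _)
                (CovZ.leaf K2_ok TB_l28291 _)))
              (CovZ.n1 (-15408, 18816) (by decide +kernel)
               (CovZ.n2 (-15384, 18792) (by decide +kernel)
                (CovZ.leaf K2_ok TB_l28292 _)
                (CovZ.leaf K2_ok TB_l28293 _))
               (CovZ.leaf K2_ok TB_l28294 _))))
            (CovZ.n1 (-15504, 18768) (by decide +kernel)
             (CovZ.n2 (-15504, 18816) (by decide +kernel)
              (CovZ.leaf K2_ok TB_l28295 _)
              (CovZ.leaf K2_ok TB_l28296 _))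
             (CovZ.n1 (-15456, 18768) (by decide +kernel)
              (CovZ.n2 (-15480, 18744) (by decide +kernel)
               (CovZ.leaf K2_ok TB_l28297 _)
               (CovZ.leaf K2_ok TB_l28298 _))
              (CovZ.leaf K2_ok TB_l28299 _)))))
          (CovZ.n1 (-15648, 18720) (by decide +kernel)
           (CovZ.n2 (-15648, 18816) (by decide +kernel)
            (CovZ.n2 (-15600, 18768) (by decide +kernel)
             (CovZ.n2 (-15648, 18768) (by decide +kernel)
              (CovZ.leaf K2_ok TB_l28300 _)
              (CovZ.leaf K2_ok TB_l28301 _))
             (CovZ.n1 (-15600, 18816) (by decide +kernel)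
              (CovZ.leaf K2_ok TB_l28302 _)
              (CovZ.leaf K2_ok TB_l28303 _)))
            (CovZ.n1 (-15696, 18768) (by decide +kernel)
             (CovZ.n2 (-15696, 18816) (by decide +kernel)
              (CovZ.leaf K2_ok TB_l28304 _)
              (CovZ.leaf K2_ok TB_l28305 _))
             (CovZ.n1 (-15648, 18768) (by decide +kernel)
              (CovZ.leaf K2_ok TB_l28306 _)
              (CovZ.leaf K2_ok TB_l28307 _))))
           (CovZ.n1 (-15552, 18720) (by decide +kernel)
            (CovZ.n2 (-15600, 18672) (by decide +kernel)
             (CovZ.n2 (-15600, 18720) (by decide +kernel)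
              (CovZ.n2 (-15576, 18696) (by decide +kernel)
               (CovZ.leaf K2_ok TB_l28308 _)
               (CovZ.leaf K2_ok TB_l28309 _))
              (CovZ.leaf K2_ok TB_l28310 _))
             (CovZ.n1 (-15552, 18672) (by decide +kernel)
              (CovZ.leaf K2_ok TB_l28311 _)
              (CovZ.n1 (-15576, 18696) (by decide +kernel)
               (CovZ.leaf K2_ok TB_l28312 _)
               (CovZ.leaf K2_ok TB_l28313 _))))
            (CovZ.n1 (-15600, 18768) (by decide +kernel)
             (CovZ.n2 (-15552, 18768) (by decide +kernel)
              (CovZ.leaf K2_ok TB_l28314 _)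
              (CovZ.leaf K2_ok TB_l28315 _))
             (CovZ.n1 (-15600, 18720) (by decide +kernel)
              (CovZ.leaf K2_ok TB_l28316 _)
              (CovZ.leaf K2_ok TB_l28317 _))))))

theorem TB_u422 : CovZ TB_M (toL (selN TB_LN 305310535760598319625632477612986657533415416050143401203468514575925744476738912969120657541213491635240960016)) [0, 7, 6, 1] (-15552, 18624) (-15360, 18432) (-15360, 18816) :=
    (CovZ.n1 (-15360, 18624) (by decide +kernel)
          (CovZ.n2 (-15456, 18528) (by decide +kernel)
           (CovZ.n2 (-15456, 18624) (by decide +kernel)
            (CovZ.subM 4697085165547666455778961193597316581119543563366279845213617825227348762010481771710837329683542795345854464 (by decide +kernel)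
             (CovZ.n2 (-15408, 18576) (by decide +kernel)
              (CovZ.n2 (-15456, 18576) (by decide +kernel)
               (CovZ.n2 (-15432, 18600) (by decide +kernel)
                (CovZ.n2 (-15432, 18576) (by decide +kernel)
                 (CovZ.leaf K2_ok TB_l28318 _)
                 (CovZ.leaf K2_ok TB_l28319 _))
                (CovZ.leaf K2_ok TB_l28320 _))
               (CovZ.n1 (-15432, 18552) (by decide +kernel)
                (CovZ.leaf K2_ok TB_l28321 _)
                (CovZ.leaf K2_ok TB_l28322 _)))
              (CovZ.n1 (-15408, 18624) (by decide +kernel)
               (CovZ.n2 (-15384, 18600) (by decide +kernel)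
                (CovZ.leaf K2_ok TB_l28323 _)
                (CovZ.n1 (-15384, 18624) (by decide +kernel)
                 (CovZ.leaf K2_ok TB_l28324 _)
                 (CovZ.leaf K2_ok TB_l28325 _)))
               (CovZ.n1 (-15432, 18600) (by decide +kernel)
                (CovZ.n2 (-15432, 18624) (by decide +kernel)
                 (CovZ.leaf K2_ok TB_l28326 _)
                 (CovZ.leaf K2_ok TB_l28327 _))
                (CovZ.n1 (-15408, 18600) (by decide +kernel)
                 (CovZ.leaf K2_ok TB_l28328 _)
                 (CovZ.leaf K2_ok TB_l28329 _))))))
            (CovZ.n1 (-15504, 18576) (by decide +kernel)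
             (CovZ.n2 (-15504, 18624) (by decide +kernel)
              (CovZ.n2 (-15480, 18600) (by decide +kernel)
               (CovZ.leaf K2_ok TB_l28330 _)
               (CovZ.n1 (-15480, 18624) (by decide +kernel)
                (CovZ.leaf K2_ok TB_l28331 _)
                (CovZ.leaf K2_ok TB_l28332 _)))
              (CovZ.leaf K2_ok TB_l28333 _))
             (CovZ.subM 4697085165547666455778961193597316581119543563359852093036581864125180913641117121300748517708411624004648960 (by decide +kernel)
              (CovZ.n1 (-15456, 18576) (by decide +kernel)
               (CovZ.n2 (-15480, 18552) (by decide +kernel)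
                (CovZ.leaf K2_ok TB_l28334 _)
                (CovZ.leaf K2_ok TB_l28335 _))
               (CovZ.n1 (-15480, 18600) (by decide +kernel)
                (CovZ.leaf K2_ok TB_l28336 _)
                (CovZ.n1 (-15480, 18576) (by decide +kernel)
                 (CovZ.leaf K2_ok TB_l28337 _)
                 (CovZ.leaf K2_ok TB_l28338 _)))))))
           (CovZ.subM 4697085165547666455778961193597316581119543563366279845213617825227348762010481771710837403470519090184060928 (by decide +kernel)
            (CovZ.n1 (-15360, 18528) (by decide +kernel)
             (CovZ.n2 (-15408, 18480) (by decide +kernel)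
              (CovZ.n2 (-15408, 18528) (by decide +kernel)
               (CovZ.n2 (-15384, 18504) (by decide +kernel)
                (CovZ.leaf K2_ok TB_l28339 _)
                (CovZ.n1 (-15384, 18528) (by decide +kernel)
                 (CovZ.leaf K2_ok TB_l28340 _)
                 (CovZ.leaf K2_ok TB_l28341 _)))
               (CovZ.n1 (-15432, 18504) (by decide +kernel)
                (CovZ.leaf K2_ok TB_l28342 _)
                (CovZ.leaf K2_ok TB_l28343 _)))
              (CovZ.n1 (-15360, 18480) (by decide +kernel)
               (CovZ.n2 (-15384, 18456) (by decide +kernel)
                (CovZ.leaf K2_ok TB_l28344 _)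
                (CovZ.leaf K2_ok TB_l28345 _))
               (CovZ.n1 (-15384, 18504) (by decide +kernel)
                (CovZ.n2 (-15360, 18504) (by decide +kernel)
                 (CovZ.leaf K2_ok TB_l28346 _)
                 (CovZ.leaf K2_ok TB_l28347 _))
                (CovZ.n1 (-15384, 18480) (by decide +kernel)
                 (CovZ.leaf K2_ok TB_l28348 _)
                 (CovZ.leaf K2_ok TB_l28349 _)))))
             (CovZ.n1 (-15408, 18576) (by decide +kernel)
              (CovZ.n2 (-15360, 18576) (by decide +kernel)
               (CovZ.n2 (-15384, 18552) (by decide +kernel)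
                (CovZ.n2 (-15384, 18576) (by decide +kernel)
                 (CovZ.leaf K2_ok TB_l28350 _)
                 (CovZ.leaf K2_ok TB_l28351 _))
                (CovZ.n1 (-15360, 18552) (by decide +kernel)
                 (CovZ.leaf K2_ok TB_l28352 _)
                 (CovZ.leaf K2_ok TB_l28353 _)))
               (CovZ.n1 (-15384, 18600) (by decide +kernel)
                (CovZ.n2 (-15360, 18600) (by decide +kernel)
                 (CovZ.leaf K2_ok TB_l28354 _)
                 (CovZ.leaf K2_ok TB_l28355 _))
                (CovZ.n1 (-15384, 18576) (by decide +kernel)
                 (CovZ.leaf K2_ok TB_l28356 _)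
                 (CovZ.leaf K2_ok TB_l28357 _))))
              (CovZ.n1 (-15408, 18528) (by decide +kernel)
               (CovZ.n2 (-15432, 18552) (by decide +kernel)
                (CovZ.leaf K2_ok TB_l28358 _)
                (CovZ.leaf K2_ok TB_l28359 _))
               (CovZ.n1 (-15384, 18552) (by decide +kernel)
                (CovZ.n2 (-15384, 18528) (by decide +kernel)
                 (CovZ.leaf K2_ok TB_l28360 _)
                 (CovZ.leaf K2_ok TB_l28361 _))
                (CovZ.leaf K2_ok TB_l28362 _)))))))
          (CovZ.n1 (-15456, 18720) (by decide +kernel)
           (CovZ.subM 4697085165547666455778961193597316581119543563359852093033588708771927224464635974763345570084156274156634112 (by decide +kernel)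
            (CovZ.n2 (-15360, 18720) (by decide +kernel)
             (CovZ.n2 (-15408, 18672) (by decide +kernel)
              (CovZ.n2 (-15408, 18720) (by decide +kernel)
               (CovZ.n2 (-15384, 18696) (by decide +kernel)
                (CovZ.leaf K2_ok TB_l28363 _)
                (CovZ.leaf K2_ok TB_l28364 _))
               (CovZ.n1 (-15432, 18696) (by decide +kernel)
                (CovZ.leaf K2_ok TB_l28365 _)
                (CovZ.leaf K2_ok TB_l28366 _)))
              (CovZ.n1 (-15360, 18672) (by decide +kernel)
               (CovZ.n2 (-15384, 18648) (by decide +kernel)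
                (CovZ.n2 (-15384, 18672) (by decide +kernel)
                 (CovZ.leaf K2_ok TB_l28367 _)
                 (CovZ.leaf K2_ok TB_l28368 _))
                (CovZ.n1 (-15360, 18648) (by decide +kernel)
                 (CovZ.leaf K2_ok TB_l28369 _)
                 (CovZ.leaf K2_ok TB_l28370 _)))
               (CovZ.n1 (-15384, 18696) (by decide +kernel)
                (CovZ.n2 (-15360, 18696) (by decide +kernel)
                 (CovZ.leaf K2_ok TB_l28371 _)
                 (CovZ.leaf K2_ok TB_l28372 _))
                (CovZ.n1 (-15384, 18672) (by decide +kernel)
                 (CovZ.leaf K2_ok TB_l28373 _)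
                 (CovZ.leaf K2_ok TB_l28374 _)))))
             (CovZ.n1 (-15408, 18768) (by decide +kernel)
              (CovZ.n2 (-15360, 18768) (by decide +kernel)
               (CovZ.n2 (-15384, 18744) (by decide +kernel)
                (CovZ.leaf K2_ok TB_l28375 _)
                (CovZ.leaf K2_ok TB_l28376 _))
               (CovZ.n1 (-15384, 18792) (by decide +kernel)
                (CovZ.leaf K2_ok TB_l28377 _)
                (CovZ.leaf K2_ok TB_l28378 _)))
              (CovZ.n1 (-15408, 18720) (by decide +kernel)
               (CovZ.n2 (-15432, 18744) (by decide +kernel)
                (CovZ.leaf K2_ok TB_l28379 _)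
                (CovZ.leaf K2_ok TB_l28380 _))
               (CovZ.n1 (-15384, 18744) (by decide +kernel)
                (CovZ.leaf K2_ok TB_l28381 _)
                (CovZ.leaf K2_ok TB_l28382 _))))))
           (CovZ.n1 (-15456, 18624) (by decide +kernel)
            (CovZ.n2 (-15504, 18672) (by decide +kernel)
             (CovZ.subM 4697085165547666455778961193597316581119543563359852093036581864125180913641117121310419924265328657402298368 (by decide +kernel)
              (CovZ.n2 (-15456, 18672) (by decide +kernel)
               (CovZ.n2 (-15480, 18648) (by decide +kernel)
                (CovZ.n2 (-15480, 18672) (by decide +kernel)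
                 (CovZ.leaf K2_ok TB_l28383 _)
                 (CovZ.leaf K2_ok TB_l28384 _))
                (CovZ.leaf K2_ok TB_l28385 _))
               (CovZ.n1 (-15480, 18696) (by decide +kernel)
                (CovZ.leaf K2_ok TB_l28386 _)
                (CovZ.leaf K2_ok TB_l28387 _))))
             (CovZ.n1 (-15504, 18624) (by decide +kernel)
              (CovZ.n2 (-15528, 18648) (by decide +kernel)
               (CovZ.leaf K2_ok TB_l28388 _)
               (CovZ.leaf K2_ok TB_l28389 _))
              (CovZ.n1 (-15480, 18648) (by decide +kernel)
               (CovZ.leaf K2_ok TB_l28390 _)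
               (CovZ.leaf K2_ok TB_l28391 _))))
            (CovZ.subM 4697085165547666455778961193597316581119543563359852093033588708771927224464635974763345570084156274156634112 (by decide +kernel)
             (CovZ.n1 (-15408, 18672) (by decide +kernel)
              (CovZ.n2 (-15408, 18624) (by decide +kernel)
               (CovZ.n2 (-15432, 18648) (by decide +kernel)
                (CovZ.n2 (-15408, 18648) (by decide +kernel)
                 (CovZ.leaf K2_ok TB_l28392 _)
                 (CovZ.leaf K2_ok TB_l28393 _))
                (CovZ.n1 (-15432, 18624) (by decide +kernel)
                 (CovZ.leaf K2_ok TB_l28394 _)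
                 (CovZ.leaf K2_ok TB_l28395 _)))
               (CovZ.n1 (-15384, 18648) (by decide +kernel)
                (CovZ.n2 (-15384, 18624) (by decide +kernel)
                 (CovZ.leaf K2_ok TB_l28396 _)
                 (CovZ.leaf K2_ok TB_l28397 _))
                (CovZ.leaf K2_ok TB_l28398 _)))
              (CovZ.n1 (-15456, 18672) (by decide +kernel)
               (CovZ.n2 (-15432, 18696) (by decide +kernel)
                (CovZ.leaf K2_ok TB_l28399 _)
                (CovZ.leaf K2_ok TB_l28400 _))
               (CovZ.n1 (-15432, 18648) (by decide +kernel)
                (CovZ.leaf K2_ok TB_l28401 _)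
                (CovZ.n1 (-15432, 18672) (by decide +kernel)
                 (CovZ.leaf K2_ok TB_l28402 _)
                 (CovZ.leaf K2_ok TB_l28403 _)))))))))

theorem TB_u423 : CovZ TB_M (toL (selN TB_LN 305310535760598319625632477612986657533415416050143401203468514575925744476738912969120657541213491635240960016)) [0, 7, 6, 1] (-15360, 18432) (-15360, 19200) (-16128, 19200) :=
    (CovZ.n2 (-15744, 18816) (by decide +kernel)
       (CovZ.n2 (-15744, 19200) (by decide +kernel)
        (CovZ.n2 (-15552, 19008) (by decide +kernel)
         (CovZ.n2 (-15744, 19008) (by decide +kernel)
          (CovZ.n2 (-15648, 19104) (by decide +kernel)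
           (CovZ.n2 (-15648, 19008) (by decide +kernel)
            (CovZ.n2 (-15696, 19056) (by decide +kernel)
             (CovZ.leaf K2_ok TB_l28226 _)
             (CovZ.leaf K2_ok TB_l28227 _))
            (CovZ.n1 (-15600, 19056) (by decide +kernel)
             (CovZ.leaf K2_ok TB_l28228 _)
             (CovZ.leaf K2_ok TB_l28229 _)))
           (CovZ.n1 (-15744, 19104) (by decide +kernel)
            (CovZ.leaf K2_ok TB_l28230 _)
            (CovZ.n1 (-15696, 19056) (by decide +kernel)
             (CovZ.leaf K2_ok TB_l28231 _)
             (CovZ.leaf K2_ok TB_l28232 _))))
          (CovZ.n1 (-15648, 18912) (by decide +kernel)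
           (CovZ.n2 (-15744, 18912) (by decide +kernel)
            (CovZ.n2 (-15696, 18960) (by decide +kernel)
             (CovZ.leaf K2_ok TB_l28233 _)
             (CovZ.leaf K2_ok TB_l28234 _))
            (CovZ.n1 (-15696, 18864) (by decide +kernel)
             (CovZ.leaf K2_ok TB_l28235 _)
             (CovZ.leaf K2_ok TB_l28236 _)))
           (CovZ.n1 (-15648, 19008) (by decide +kernel)
            (CovZ.n2 (-15600, 18960) (by decide +kernel)
             (CovZ.leaf K2_ok TB_l28237 _)
             (CovZ.leaf K2_ok TB_l28238 _))
            (CovZ.n1 (-15696, 18960) (by decide +kernel)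
             (CovZ.leaf K2_ok TB_l28239 _)
             (CovZ.leaf K2_ok TB_l28240 _)))))
         (CovZ.n1 (-15552, 19200) (by decide +kernel)
          (CovZ.subM 4697085165547666455778961193597316581229971504908501113632544802568359631703853718327743161532680894389813264 (by decide +kernel)
           (CovZ.n2 (-15456, 19104) (by decide +kernel)
            (CovZ.n2 (-15552, 19104) (by decide +kernel)
             (CovZ.n2 (-15504, 19152) (by decide +kernel)
              (CovZ.leaf K2_ok TB_l28241 _)
              (CovZ.leaf K2_ok TB_l28242 _))
             (CovZ.n1 (-15504, 19056) (by decide +kernel)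
              (CovZ.leaf K2_ok TB_l28243 _)
              (CovZ.leaf K2_ok TB_l28244 _)))
            (CovZ.n1 (-15456, 19200) (by decide +kernel)
             (CovZ.n2 (-15408, 19152) (by decide +kernel)
              (CovZ.leaf K2_ok TB_l28245 _)
              (CovZ.leaf K2_ok TB_l28246 _))
             (CovZ.n1 (-15504, 19152) (by decide +kernel)
              (CovZ.leaf K2_ok TB_l28247 _)
              (CovZ.leaf K2_ok TB_l28248 _)))))
          (CovZ.n1 (-15648, 19104) (by decide +kernel)
           (CovZ.n2 (-15648, 19200) (by decide +kernel)
            (CovZ.leaf K2_ok TB_l28249 _)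
            (CovZ.leaf K2_ok TB_l28250 _))
           (CovZ.n1 (-15552, 19104) (by decide +kernel)
            (CovZ.n2 (-15600, 19056) (by decide +kernel)
             (CovZ.leaf K2_ok TB_l28251 _)
             (CovZ.leaf K2_ok TB_l28252 _))
            (CovZ.leaf K2_ok TB_l28253 _)))))
        (CovZ.n1 (-15936, 19008) (by decide +kernel)
         (CovZ.n2 (-15936, 19200) (by decide +kernel)
          (CovZ.n2 (-15840, 19104) (by decide +kernel)
           (CovZ.n2 (-15936, 19104) (by decide +kernel)
            (CovZ.leaf K2_ok TB_l28254 _)
            (CovZ.leaf K2_ok TB_l28255 _))
           (CovZ.n1 (-15840, 19200) (by decide +kernel)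
            (CovZ.leaf K2_ok TB_l28256 _)
            (CovZ.leaf K2_ok TB_l28257 _)))
          (CovZ.n1 (-16032, 19104) (by decide +kernel)
           (CovZ.n2 (-16032, 19200) (by decide +kernel)
            (CovZ.leaf K2_ok TB_l28258 _)
            (CovZ.leaf K2_ok TB_l28259 _))
           (CovZ.n1 (-15936, 19104) (by decide +kernel)
            (CovZ.leaf K2_ok TB_l28260 _)
            (CovZ.leaf K2_ok TB_l28261 _))))
         (CovZ.n1 (-15744, 19008) (by decide +kernel)
          (CovZ.n2 (-15840, 18912) (by decide +kernel)
           (CovZ.n2 (-15840, 19008) (by decide +kernel)
            (CovZ.n2 (-15792, 18960) (by decide +kernel)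
             (CovZ.leaf K2_ok TB_l28262 _)
             (CovZ.leaf K2_ok TB_l28263 _))
            (CovZ.n1 (-15888, 18960) (by decide +kernel)
             (CovZ.leaf K2_ok TB_l28264 _)
             (CovZ.leaf K2_ok TB_l28265 _)))
           (CovZ.n1 (-15744, 18912) (by decide +kernel)
            (CovZ.n2 (-15792, 18864) (by decide +kernel)
             (CovZ.leaf K2_ok TB_l28266 _)
             (CovZ.leaf K2_ok TB_l28267 _))
            (CovZ.n1 (-15792, 18960) (by decide +kernel)
             (CovZ.leaf K2_ok TB_l28268 _)
             (CovZ.leaf K2_ok TB_l28269 _))))
          (CovZ.n1 (-15840, 19104) (by decide +kernel)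
           (CovZ.n2 (-15744, 19104) (by decide +kernel)
            (CovZ.leaf K2_ok TB_l28270 _)
            (CovZ.leaf K2_ok TB_l28271 _))
           (CovZ.n1 (-15840, 19008) (by decide +kernel)
            (CovZ.leaf K2_ok TB_l28272 _)
            (CovZ.n1 (-15792, 19056) (by decide +kernel)
             (CovZ.leaf K2_ok TB_l28273 _)
             (CovZ.leaf K2_ok TB_l28274 _)))))))
       (CovZ.n1 (-15360, 18816) (by decide +kernel)
        (CovZ.n2 (-15552, 18624) (by decide +kernel)
         TB_u421
         TB_u422)
        (CovZ.n1 (-15552, 19008) (by decide +kernel)
         (CovZ.subM 4697085165547666455778961193597316581229971504908501113632544802568359631703853718327743161532680894389813264 (by decide +kernel)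
          (CovZ.n2 (-15360, 19008) (by decide +kernel)
           (CovZ.n2 (-15456, 18912) (by decide +kernel)
            (CovZ.n2 (-15456, 19008) (by decide +kernel)
             (CovZ.n2 (-15408, 18960) (by decide +kernel)
              (CovZ.leaf K2_ok TB_l28404 _)
              (CovZ.n1 (-15408, 19008) (by decide +kernel)
               (CovZ.leaf K2_ok TB_l28405 _)
               (CovZ.leaf K2_ok TB_l28406 _)))
             (CovZ.n1 (-15504, 18960) (by decide +kernel)
              (CovZ.n2 (-15504, 19008) (by decide +kernel)
               (CovZ.leaf K2_ok TB_l28407 _)
               (CovZ.leaf K2_ok TB_l28408 _))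
              (CovZ.leaf K2_ok TB_l28409 _)))
            (CovZ.n1 (-15360, 18912) (by decide +kernel)
             (CovZ.n2 (-15408, 18864) (by decide +kernel)
              (CovZ.n2 (-15408, 18912) (by decide +kernel)
               (CovZ.leaf K2_ok TB_l28410 _)
               (CovZ.leaf K2_ok TB_l28411 _))
              (CovZ.n1 (-15360, 18864) (by decide +kernel)
               (CovZ.leaf K2_ok TB_l28412 _)
               (CovZ.leaf K2_ok TB_l28413 _)))
             (CovZ.n1 (-15408, 18960) (by decide +kernel)
              (CovZ.n2 (-15360, 18960) (by decide +kernel)
               (CovZ.leaf K2_ok TB_l28414 _)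
               (CovZ.leaf K2_ok TB_l28415 _))
              (CovZ.n1 (-15408, 18912) (by decide +kernel)
               (CovZ.leaf K2_ok TB_l28416 _)
               (CovZ.leaf K2_ok TB_l28417 _)))))
           (CovZ.n1 (-15456, 19104) (by decide +kernel)
            (CovZ.n2 (-15360, 19104) (by decide +kernel)
             (CovZ.n2 (-15408, 19056) (by decide +kernel)
              (CovZ.n2 (-15408, 19104) (by decide +kernel)
               (CovZ.leaf K2_ok TB_l28418 _)
               (CovZ.leaf K2_ok TB_l28419 _))
              (CovZ.leaf K2_ok TB_l28420 _))
             (CovZ.n1 (-15408, 19152) (by decide +kernel)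
              (CovZ.leaf K2_ok TB_l28421 _)
              (CovZ.leaf K2_ok TB_l28422 _)))
            (CovZ.n1 (-15456, 19008) (by decide +kernel)
             (CovZ.n2 (-15504, 19056) (by decide +kernel)
              (CovZ.leaf K2_ok TB_l28423 _)
              (CovZ.n1 (-15504, 19008) (by decide +kernel)
               (CovZ.leaf K2_ok TB_l28424 _)
               (CovZ.leaf K2_ok TB_l28425 _)))
             (CovZ.n1 (-15408, 19056) (by decide +kernel)
              (CovZ.n2 (-15408, 19008) (by decide +kernel)
               (CovZ.leaf K2_ok TB_l28426 _)
               (CovZ.leaf K2_ok TB_l28427 _))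
              (CovZ.leaf K2_ok TB_l28428 _))))))
         (CovZ.n1 (-15552, 18816) (by decide +kernel)
          (CovZ.n2 (-15648, 18912) (by decide +kernel)
           (CovZ.n2 (-15552, 18912) (by decide +kernel)
            (CovZ.n2 (-15600, 18864) (by decide +kernel)
             (CovZ.n2 (-15600, 18912) (by decide +kernel)
              (CovZ.leaf K2_ok TB_l28429 _)
              (CovZ.leaf K2_ok TB_l28430 _))
             (CovZ.leaf K2_ok TB_l28431 _))
            (CovZ.n1 (-15600, 18960) (by decide +kernel)
             (CovZ.leaf K2_ok TB_l28432 _)
             (CovZ.leaf K2_ok TB_l28433 _)))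
           (CovZ.n1 (-15648, 18816) (by decide +kernel)
            (CovZ.n2 (-15696, 18864) (by decide +kernel)
             (CovZ.leaf K2_ok TB_l28434 _)
             (CovZ.n1 (-15696, 18816) (by decide +kernel)
              (CovZ.leaf K2_ok TB_l28435 _)
              (CovZ.leaf K2_ok TB_l28436 _)))
            (CovZ.n1 (-15600, 18864) (by decide +kernel)
             (CovZ.n2 (-15600, 18816) (by decide +kernel)
              (CovZ.leaf K2_ok TB_l28437 _)
              (CovZ.leaf K2_ok TB_l28438 _))
             (CovZ.leaf K2_ok TB_l28439 _))))
          (CovZ.n1 (-15456, 18912) (by decide +kernel)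
           (CovZ.n2 (-15456, 18816) (by decide +kernel)
            (CovZ.n2 (-15504, 18864) (by decide +kernel)
             (CovZ.n2 (-15456, 18864) (by decide +kernel)
              (CovZ.leaf K2_ok TB_l28440 _)
              (CovZ.leaf K2_ok TB_l28441 _))
             (CovZ.n1 (-15504, 18816) (by decide +kernel)
              (CovZ.leaf K2_ok TB_l28442 _)
              (CovZ.leaf K2_ok TB_l28443 _)))
            (CovZ.subM 4697085165547666455778961193597316581229971504908501113632544802568359631703853718327743161523673695135072256 (by decide +kernel)
             (CovZ.n1 (-15408, 18864) (by decide +kernel)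
              (CovZ.n2 (-15408, 18816) (by decide +kernel)
               (CovZ.leaf K2_ok TB_l28444 _)
               (CovZ.leaf K2_ok TB_l28445 _))
              (CovZ.n1 (-15456, 18864) (by decide +kernel)
               (CovZ.leaf K2_ok TB_l28446 _)
               (CovZ.leaf K2_ok TB_l28447 _)))))
           (CovZ.n1 (-15552, 18912) (by decide +kernel)
            (CovZ.n2 (-15504, 18960) (by decide +kernel)
             (CovZ.n2 (-15504, 18912) (by decide +kernel)
              (CovZ.leaf K2_ok TB_l28448 _)
              (CovZ.leaf K2_ok TB_l28449 _))
             (CovZ.leaf K2_ok TB_l28450 _))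
            (CovZ.n1 (-15504, 18864) (by decide +kernel)
             (CovZ.leaf K2_ok TB_l28451 _)
             (CovZ.n1 (-15504, 18912) (by decide +kernel)
              (CovZ.leaf K2_ok TB_l28452 _)
              (CovZ.leaf K2_ok TB_l28453 _)))))))))

theorem TB_u424 : CovZ TB_M (toL (selN TB_LN 305310535760598319625632477612986657533415416050143401203468514575925744476738912969120657541213491635240960016)) [0, 7, 6, 1] (-15360, 19200) (-15360, 19968) (-16128, 19200) :=
    (CovZ.n1 (-15744, 19584) (by decide +kernel)
       (CovZ.n2 (-15360, 19584) (by decide +kernel)
        (CovZ.n2 (-15552, 19392) (by decide +kernel)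
         (CovZ.n2 (-15552, 19584) (by decide +kernel)
          (CovZ.subM 4697085165547666455778961193597316581229971504908501113632544802568359631703853718327743161532680894389813264 (by decide +kernel)
           (CovZ.n2 (-15456, 19488) (by decide +kernel)
            (CovZ.n2 (-15552, 19488) (by decide +kernel)
             (CovZ.leaf K2_ok TB_l28454 _)
             (CovZ.leaf K2_ok TB_l28455 _))
            (CovZ.n1 (-15456, 19584) (by decide +kernel)
             (CovZ.n2 (-15408, 19536) (by decide +kernel)
              (CovZ.leaf K2_ok TB_l28456 _)
              (CovZ.leaf K2_ok TB_l28457 _))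
             (CovZ.leaf K2_ok TB_l28458 _))))
          (CovZ.n1 (-15648, 19488) (by decide +kernel)
           (CovZ.n2 (-15648, 19584) (by decide +kernel)
            (CovZ.leaf K2_ok TB_l28459 _)
            (CovZ.leaf K2_ok TB_l28460 _))
           (CovZ.n1 (-15552, 19488) (by decide +kernel)
            (CovZ.leaf K2_ok TB_l28461 _)
            (CovZ.leaf K2_ok TB_l28462 _))))
         (CovZ.subM 4697085165547666455778961193597316581229971504908501113632544802568359631703853718327743161532680894389813264 (by decide +kernel)
          (CovZ.n1 (-15360, 19392) (by decide +kernel)
           (CovZ.n2 (-15456, 19296) (by decide +kernel)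
            (CovZ.n2 (-15456, 19392) (by decide +kernel)
             (CovZ.n2 (-15408, 19344) (by decide +kernel)
              (CovZ.leaf K2_ok TB_l28463 _)
              (CovZ.leaf K2_ok TB_l28464 _))
             (CovZ.leaf K2_ok TB_l28465 _))
            (CovZ.n1 (-15360, 19296) (by decide +kernel)
             (CovZ.n2 (-15408, 19248) (by decide +kernel)
              (CovZ.leaf K2_ok TB_l28466 _)
              (CovZ.leaf K2_ok TB_l28467 _))
             (CovZ.n1 (-15408, 19344) (by decide +kernel)
              (CovZ.leaf K2_ok TB_l28468 _)
              (CovZ.leaf K2_ok TB_l28469 _))))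
           (CovZ.n1 (-15456, 19488) (by decide +kernel)
            (CovZ.n2 (-15360, 19488) (by decide +kernel)
             (CovZ.n2 (-15408, 19440) (by decide +kernel)
              (CovZ.leaf K2_ok TB_l28470 _)
              (CovZ.leaf K2_ok TB_l28471 _))
             (CovZ.leaf K2_ok TB_l28472 _))
            (CovZ.n1 (-15456, 19392) (by decide +kernel)
             (CovZ.leaf K2_ok TB_l28473 _)
             (CovZ.n1 (-15408, 19440) (by decide +kernel)
              (CovZ.leaf K2_ok TB_l28474 _)
              (CovZ.leaf K2_ok TB_l28475 _)))))))
        (CovZ.n1 (-15552, 19776) (by decide +kernel)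
         (CovZ.subM 4697085165547666455778961193597316581229971504908501113632544802568359631703853718327743161532680894389813264 (by decide +kernel)
          (CovZ.n2 (-15360, 19776) (by decide +kernel)
           (CovZ.n2 (-15456, 19680) (by decide +kernel)
            (CovZ.n2 (-15456, 19776) (by decide +kernel)
             (CovZ.leaf K2_ok TB_l28476 _)
             (CovZ.leaf K2_ok TB_l28477 _))
            (CovZ.n1 (-15360, 19680) (by decide +kernel)
             (CovZ.leaf K2_ok TB_l28478 _)
             (CovZ.leaf K2_ok TB_l28479 _)))
           (CovZ.n1 (-15456, 19872) (by decide +kernel)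
            (CovZ.n2 (-15360, 19872) (by decide +kernel)
             (CovZ.leaf K2_ok TB_l28480 _)
             (CovZ.leaf K2_ok TB_l28481 _))
            (CovZ.n1 (-15456, 19776) (by decide +kernel)
             (CovZ.leaf K2_ok TB_l28482 _)
             (CovZ.leaf K2_ok TB_l28483 _)))))
         (CovZ.n1 (-15552, 19584) (by decide +kernel)
          (CovZ.n2 (-15648, 19680) (by decide +kernel)
           (CovZ.n2 (-15552, 19680) (by decide +kernel)
            (CovZ.leaf K2_ok TB_l28484 _)
            (CovZ.leaf K2_ok TB_l28485 _))
           (CovZ.n1 (-15648, 19584) (by decide +kernel)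
            (CovZ.leaf K2_ok TB_l28486 _)
            (CovZ.leaf K2_ok TB_l28487 _)))
          (CovZ.subM 4697085165547666455778961193597316581229971504908501113632544802568359631703853718327743161532680894389813264 (by decide +kernel)
           (CovZ.n1 (-15456, 19680) (by decide +kernel)
            (CovZ.n2 (-15456, 19584) (by decide +kernel)
             (CovZ.leaf K2_ok TB_l28488 _)
             (CovZ.leaf K2_ok TB_l28489 _))
            (CovZ.n1 (-15552, 19680) (by decide +kernel)
             (CovZ.leaf K2_ok TB_l28490 _)
             (CovZ.leaf K2_ok TB_l28491 _)))))))
       (CovZ.n1 (-15744, 19200) (by decide +kernel)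
        (CovZ.n2 (-15936, 19392) (by decide +kernel)
         (CovZ.n2 (-15744, 19392) (by decide +kernel)
          (CovZ.n2 (-15840, 19296) (by decide +kernel)
           (CovZ.n2 (-15840, 19392) (by decide +kernel)
            (CovZ.leaf K2_ok TB_l28492 _)
            (CovZ.leaf K2_ok TB_l28493 _))
           (CovZ.n1 (-15744, 19296) (by decide +kernel)
            (CovZ.leaf K2_ok TB_l28494 _)
            (CovZ.leaf K2_ok TB_l28495 _)))
          (CovZ.n1 (-15840, 19488) (by decide +kernel)
           (CovZ.leaf K2_ok TB_l28496 _)
           (CovZ.n1 (-15840, 19392) (by decide +kernel)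
            (CovZ.leaf K2_ok TB_l28497 _)
            (CovZ.leaf K2_ok TB_l28498 _))))
         (CovZ.n1 (-15936, 19200) (by decide +kernel)
          (CovZ.n2 (-16032, 19296) (by decide +kernel)
           (CovZ.leaf K2_ok TB_l28499 _)
           (CovZ.n1 (-16032, 19200) (by decide +kernel)
            (CovZ.leaf K2_ok TB_l28500 _)
            (CovZ.leaf K2_ok TB_l28501 _)))
          (CovZ.n1 (-15840, 19296) (by decide +kernel)
           (CovZ.n2 (-15840, 19200) (by decide +kernel)
            (CovZ.leaf K2_ok TB_l28502 _)
            (CovZ.leaf K2_ok TB_l28503 _))
           (CovZ.n1 (-15936, 19296) (by decide +kernel)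
            (CovZ.leaf K2_ok TB_l28504 _)
            (CovZ.leaf K2_ok TB_l28505 _)))))
        (CovZ.n1 (-15552, 19392) (by decide +kernel)
         (CovZ.n2 (-15552, 19200) (by decide +kernel)
          (CovZ.n2 (-15648, 19296) (by decide +kernel)
           (CovZ.n2 (-15552, 19296) (by decide +kernel)
            (CovZ.n2 (-15600, 19248) (by decide +kernel)
             (CovZ.leaf K2_ok TB_l28506 _)
             (CovZ.leaf K2_ok TB_l28507 _))
            (CovZ.leaf K2_ok TB_l28508 _))
           (CovZ.n1 (-15648, 19200) (by decide +kernel)
            (CovZ.leaf K2_ok TB_l28509 _)
            (CovZ.leaf K2_ok TB_l28510 _)))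
          (CovZ.subM 4697085165547666455778961193597316581229971504908501113632544802568359631703853718327743161532680894389813264 (by decide +kernel)
           (CovZ.n1 (-15456, 19296) (by decide +kernel)
            (CovZ.n2 (-15456, 19200) (by decide +kernel)
             (CovZ.n2 (-15504, 19248) (by decide +kernel)
              (CovZ.leaf K2_ok TB_l28511 _)
              (CovZ.leaf K2_ok TB_l28512 _))
             (CovZ.n1 (-15408, 19248) (by decide +kernel)
              (CovZ.leaf K2_ok TB_l28513 _)
              (CovZ.leaf K2_ok TB_l28514 _)))
            (CovZ.n1 (-15552, 19296) (by decide +kernel)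
             (CovZ.leaf K2_ok TB_l28515 _)
             (CovZ.n1 (-15504, 19248) (by decide +kernel)
              (CovZ.leaf K2_ok TB_l28516 _)
              (CovZ.leaf K2_ok TB_l28517 _))))))
         (CovZ.n1 (-15744, 19392) (by decide +kernel)
          (CovZ.n2 (-15648, 19488) (by decide +kernel)
           (CovZ.n2 (-15648, 19392) (by decide +kernel)
            (CovZ.leaf K2_ok TB_l28518 _)
            (CovZ.leaf K2_ok TB_l28519 _))
           (CovZ.n1 (-15744, 19488) (by decide +kernel)
            (CovZ.leaf K2_ok TB_l28520 _)
            (CovZ.leaf K2_ok TB_l28521 _)))
          (CovZ.n1 (-15648, 19296) (by decide +kernel)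
           (CovZ.n2 (-15744, 19296) (by decide +kernel)
            (CovZ.leaf K2_ok TB_l28522 _)
            (CovZ.leaf K2_ok TB_l28523 _))
           (CovZ.n1 (-15648, 19392) (by decide +kernel)
            (CovZ.leaf K2_ok TB_l28524 _)
            (CovZ.leaf K2_ok TB_l28525 _)))))))

theorem TB_u425 : CovZ TB_M (toL (selN TB_LN 661055968792958817101395290546662272733087830524402881532724933899223708668554962893224444059946841113861058383957360541712)) [0, 7, 6, 1] (-16896, 18432) (-16128, 18432) (-16128, 19200) :=
    (CovZ.n2 (-16512, 18816) (by decide +kernel)
      (CovZ.subM 305310535760598319625632477612986657533415419420130306845121452948200462505823382523972591495106550262554296336 (by decide +kernel)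
       (CovZ.n2 (-16128, 18816) (by decide +kernel)
        (CovZ.n2 (-16320, 18624) (by decide +kernel)
         (CovZ.n2 (-16320, 18816) (by decide +kernel)
          (CovZ.n2 (-16224, 18720) (by decide +kernel)
           (CovZ.leaf K2_ok TB_l28526 _)
           (CovZ.n1 (-16224, 18816) (by decide +kernel)
            (CovZ.leaf K2_ok TB_l28527 _)
            (CovZ.leaf K2_ok TB_l28528 _)))
          (CovZ.n1 (-16416, 18720) (by decide +kernel)
           (CovZ.leaf K2_ok TB_l28529 _)
           (CovZ.leaf K2_ok TB_l28530 _)))
         (CovZ.n1 (-16128, 18624) (by decide +kernel)
          (CovZ.n2 (-16224, 18528) (by decide +kernel)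
           (CovZ.leaf K2_ok TB_l28531 _)
           (CovZ.leaf K2_ok TB_l28532 _))
          (CovZ.n1 (-16224, 18720) (by decide +kernel)
           (CovZ.leaf K2_ok TB_l28533 _)
           (CovZ.leaf K2_ok TB_l28534 _))))
        (CovZ.n1 (-16320, 19008) (by decide +kernel)
         (CovZ.n2 (-16128, 19008) (by decide +kernel)
          (CovZ.n2 (-16224, 18912) (by decide +kernel)
           (CovZ.n2 (-16224, 19008) (by decide +kernel)
            (CovZ.leaf K2_ok TB_l28535 _)
            (CovZ.leaf K2_ok TB_l28536 _))
           (CovZ.n1 (-16128, 18912) (by decide +kernel)
            (CovZ.leaf K2_ok TB_l28537 _)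
            (CovZ.leaf K2_ok TB_l28538 _)))
          (CovZ.n1 (-16224, 19104) (by decide +kernel)
           (CovZ.n2 (-16128, 19104) (by decide +kernel)
            (CovZ.leaf K2_ok TB_l28539 _)
            (CovZ.leaf K2_ok TB_l28540 _))
           (CovZ.n1 (-16224, 19008) (by decide +kernel)
            (CovZ.leaf K2_ok TB_l28541 _)
            (CovZ.leaf K2_ok TB_l28542 _))))
         (CovZ.n1 (-16320, 18816) (by decide +kernel)
          (CovZ.n2 (-16416, 18912) (by decide +kernel)
           (CovZ.leaf K2_ok TB_l28543 _)
           (CovZ.leaf K2_ok TB_l28544 _))
          (CovZ.n1 (-16224, 18912) (by decide +kernel)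
           (CovZ.n2 (-16224, 18816) (by decide +kernel)
            (CovZ.leaf K2_ok TB_l28545 _)
            (CovZ.leaf K2_ok TB_l28546 _))
           (CovZ.leaf K2_ok TB_l28547 _))))))
      (CovZ.n1 (-16512, 18432) (by decide +kernel)
       (CovZ.n2 (-16704, 18624) (by decide +kernel)
        (CovZ.n2 (-16512, 18624) (by decide +kernel)
         (CovZ.leaf K2_ok TB_l28548 _)
         (CovZ.leaf K2_ok TB_l28549 _))
        (CovZ.n1 (-16704, 18432) (by decide +kernel)
         (CovZ.leaf K2_ok TB_l28550 _)
         (CovZ.leaf K2_ok TB_l28551 _)))
       (CovZ.n1 (-16320, 18624) (by decide +kernel)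
        (CovZ.n2 (-16320, 18432) (by decide +kernel)
         (CovZ.leaf K2_ok TB_l28552 _)
         (CovZ.n1 (-16224, 18528) (by decide +kernel)
          (CovZ.leaf K2_ok TB_l28553 _)
          (CovZ.leaf K2_ok TB_l28554 _)))
        (CovZ.n1 (-16512, 18624) (by decide +kernel)
         (CovZ.leaf K2_ok TB_l28555 _)
         (CovZ.leaf K2_ok TB_l28556 _)))))

end Pool.Agent.TET
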