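import Pool.Agent.Helper38_TET.TB_M
import Pool.Agent.Helper38_TET.TB_L
import Pool.Agent.Helper38_TET.TB_148
import Pool.Agent.Helper38_TET.TB_149
import Pool.Agent.Helper38_TET.TB_150
import Pool.Agent.Helper38_TET.TB_151
import Pool.Agent.Helper38_TET.TB_190
import Pool.Agent.Helper38_TET.TB_191
import Pool.Agent.Helper38_TET.TB_192
import Pool.Agent.Helper38_TET.TB_193
import Pool.Agent.Helper38_TET.TB_194
import Pool.Agent.Helper38_TET.TB_195
import Pool.Agent.Helper38_TET.TB_196
import Pool.Agent.Helper38_TET.TB_236
import Pool.Agent.Helper38_TET.TB_237
import Pool.Agent.Helper38_TET.TB_295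
import Pool.Agent.Helper38_TET.TB_296
import Pool.Agent.Helper38_TET.TB_313

/-!
# MP_c7c9bf_co: certificates, family TB
-/

set_option autoImplicit false
set_option maxRecDepth 100000

namespace Pool.Agent.TET

theorem TB_u426 : CovZ TB_M (toL (selN TB_LN 661055968792958817101395290546662272733087830524402881532724933899223708668554962893224444059946841113861058383957360541712)) [0, 7, 6, 1] (-16128, 18432) (-15360, 18432) (-16128, 19200) :=
    (CovZ.n1 (-15744, 18816) (by decide +kernel)
      (CovZ.n2 (-15744, 18432) (by decide +kernel)
       (CovZ.n2 (-15936, 18624) (by decide +kernel)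
        (CovZ.subM 305310535760598319625632477582632456085317337765173444564168782314758689280190649650720952770243987746542714896 (by decide +kernel)
         (CovZ.n2 (-15744, 18624) (by decide +kernel)
          (CovZ.n2 (-15840, 18528) (by decide +kernel)
           (CovZ.n2 (-15840, 18624) (by decide +kernel)
            (CovZ.n2 (-15792, 18576) (by decide +kernel)
             (CovZ.leaf K2_ok TB_l28557 _)
             (CovZ.leaf K2_ok TB_l28558 _))
            (CovZ.leaf K2_ok TB_l28559 _))
           (CovZ.n1 (-15744, 18528) (by decide +kernel)
            (CovZ.leaf K2_ok TB_l28560 _)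
            (CovZ.n1 (-15792, 18576) (by decide +kernel)
             (CovZ.leaf K2_ok TB_l28561 _)
             (CovZ.leaf K2_ok TB_l28562 _))))
          (CovZ.n1 (-15840, 18720) (by decide +kernel)
           (CovZ.n2 (-15744, 18720) (by decide +kernel)
            (CovZ.n2 (-15792, 18672) (by decide +kernel)
             (CovZ.leaf K2_ok TB_l28563 _)
             (CovZ.leaf K2_ok TB_l28564 _))
            (CovZ.n1 (-15792, 18768) (by decide +kernel)
             (CovZ.leaf K2_ok TB_l28565 _)
             (CovZ.leaf K2_ok TB_l28566 _)))
           (CovZ.n1 (-15840, 18624) (by decide +kernel)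
            (CovZ.leaf K2_ok TB_l28567 _)
            (CovZ.n1 (-15792, 18672) (by decide +kernel)
             (CovZ.leaf K2_ok TB_l28568 _)
             (CovZ.leaf K2_ok TB_l28569 _))))))
        (CovZ.n1 (-15936, 18432) (by decide +kernel)
         (CovZ.n2 (-16032, 18528) (by decide +kernel)
          (CovZ.n2 (-15936, 18528) (by decide +kernel)
           (CovZ.leaf K2_ok TB_l28570 _)
           (CovZ.leaf K2_ok TB_l28571 _))
          (CovZ.leaf K2_ok TB_l28572 _))
         (CovZ.subM 305310535760598319625632477582632456085317337765173444564168782314758689280190649650720952770243987746542714896 (by decide +kernel)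
          (CovZ.n1 (-15840, 18528) (by decide +kernel)
           (CovZ.n2 (-15840, 18432) (by decide +kernel)
            (CovZ.leaf K2_ok TB_l28573 _)
            (CovZ.leaf K2_ok TB_l28574 _))
           (CovZ.n1 (-15936, 18528) (by decide +kernel)
            (CovZ.leaf K2_ok TB_l28575 _)
            (CovZ.leaf K2_ok TB_l28576 _))))))
       (CovZ.subM 305310535760598319625632477582632456085317337765179872316345818275860857128560014301131041655861980024646270992 (by decide +kernel)
        (CovZ.n1 (-15552, 18624) (by decide +kernel)
         (CovZ.n2 (-15552, 18432) (by decide +kernel)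
          (CovZ.n2 (-15648, 18528) (by decide +kernel)
           (CovZ.n2 (-15552, 18528) (by decide +kernel)
            (CovZ.n2 (-15600, 18480) (by decide +kernel)
             (CovZ.n2 (-15600, 18528) (by decide +kernel)
              (CovZ.leaf K2_ok TB_l28577 _)
              (CovZ.leaf K2_ok TB_l28578 _))
             (CovZ.leaf K2_ok TB_l28579 _))
            (CovZ.n1 (-15600, 18576) (by decide +kernel)
             (CovZ.n2 (-15552, 18576) (by decide +kernel)
              (CovZ.leaf K2_ok TB_l28580 _)
              (CovZ.leaf K2_ok TB_l28581 _))
             (CovZ.n1 (-15600, 18528) (by decide +kernel)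
              (CovZ.leaf K2_ok TB_l28582 _)
              (CovZ.leaf K2_ok TB_l28583 _))))
           (CovZ.n1 (-15648, 18432) (by decide +kernel)
            (CovZ.n2 (-15696, 18480) (by decide +kernel)
             (CovZ.leaf K2_ok TB_l28584 _)
             (CovZ.leaf K2_ok TB_l28585 _))
            (CovZ.n1 (-15600, 18480) (by decide +kernel)
             (CovZ.leaf K2_ok TB_l28586 _)
             (CovZ.leaf K2_ok TB_l28587 _))))
          (CovZ.n1 (-15456, 18528) (by decide +kernel)
           (CovZ.n2 (-15456, 18432) (by decide +kernel)
            (CovZ.n2 (-15504, 18480) (by decide +kernel)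
             (CovZ.n2 (-15456, 18480) (by decide +kernel)
              (CovZ.leaf K2_ok TB_l28588 _)
              (CovZ.leaf K2_ok TB_l28589 _))
             (CovZ.n1 (-15504, 18432) (by decide +kernel)
              (CovZ.leaf K2_ok TB_l28590 _)
              (CovZ.leaf K2_ok TB_l28591 _)))
            (CovZ.n1 (-15408, 18480) (by decide +kernel)
             (CovZ.n2 (-15408, 18432) (by decide +kernel)
              (CovZ.n2 (-15432, 18456) (by decide +kernel)
               (CovZ.leaf K2_ok TB_l28592 _)
               (CovZ.leaf K2_ok TB_l28593 _))
              (CovZ.n1 (-15384, 18456) (by decide +kernel)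
               (CovZ.leaf K2_ok TB_l28594 _)
               (CovZ.leaf K2_ok TB_l28595 _)))
             (CovZ.subM 4697085165547666455778961193597316581119543563359852093036581864125180913641117121300748591495387918842855424 (by decide +kernel)
              (CovZ.n1 (-15456, 18480) (by decide +kernel)
               (CovZ.n2 (-15432, 18504) (by decide +kernel)
                (CovZ.leaf K2_ok TB_l28596 _)
                (CovZ.leaf K2_ok TB_l28597 _))
               (CovZ.n1 (-15432, 18456) (by decide +kernel)
                (CovZ.leaf K2_ok TB_l28598 _)
                (CovZ.leaf K2_ok TB_l28599 _))))))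
           (CovZ.n1 (-15552, 18528) (by decide +kernel)
            (CovZ.n2 (-15504, 18576) (by decide +kernel)
             (CovZ.n2 (-15504, 18528) (by decide +kernel)
              (CovZ.leaf K2_ok TB_l28600 _)
              (CovZ.leaf K2_ok TB_l28601 _))
             (CovZ.n1 (-15552, 18576) (by decide +kernel)
              (CovZ.leaf K2_ok TB_l28602 _)
              (CovZ.leaf K2_ok TB_l28603 _)))
            (CovZ.n1 (-15504, 18480) (by decide +kernel)
             (CovZ.leaf K2_ok TB_l28604 _)
             (CovZ.n1 (-15504, 18528) (by decide +kernel)
              (CovZ.leaf K2_ok TB_l28605 _)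
              (CovZ.leaf K2_ok TB_l28606 _))))))
         (CovZ.n1 (-15744, 18624) (by decide +kernel)
          (CovZ.n2 (-15648, 18720) (by decide +kernel)
           (CovZ.n2 (-15648, 18624) (by decide +kernel)
            (CovZ.n2 (-15696, 18672) (by decide +kernel)
             (CovZ.n2 (-15648, 18672) (by decide +kernel)
              (CovZ.leaf K2_ok TB_l28607 _)
              (CovZ.leaf K2_ok TB_l28608 _))
             (CovZ.leaf K2_ok TB_l28609 _))
            (CovZ.n1 (-15600, 18672) (by decide +kernel)
             (CovZ.n2 (-15600, 18624) (by decide +kernel)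
              (CovZ.leaf K2_ok TB_l28610 _)
              (CovZ.leaf K2_ok TB_l28611 _))
             (CovZ.n1 (-15648, 18672) (by decide +kernel)
              (CovZ.leaf K2_ok TB_l28612 _)
              (CovZ.leaf K2_ok TB_l28613 _))))
           (CovZ.n1 (-15744, 18720) (by decide +kernel)
            (CovZ.n2 (-15696, 18768) (by decide +kernel)
             (CovZ.n2 (-15696, 18720) (by decide +kernel)
              (CovZ.leaf K2_ok TB_l28614 _)
              (CovZ.leaf K2_ok TB_l28615 _))
             (CovZ.leaf K2_ok TB_l28616 _))
            (CovZ.n1 (-15696, 18672) (by decide +kernel)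
             (CovZ.leaf K2_ok TB_l28617 _)
             (CovZ.n1 (-15696, 18720) (by decide +kernel)
              (CovZ.leaf K2_ok TB_l28618 _)
              (CovZ.leaf K2_ok TB_l28619 _)))))
          (CovZ.n1 (-15648, 18528) (by decide +kernel)
           (CovZ.n2 (-15744, 18528) (by decide +kernel)
            (CovZ.n2 (-15696, 18576) (by decide +kernel)
             (CovZ.leaf K2_ok TB_l28620 _)
             (CovZ.leaf K2_ok TB_l28621 _))
            (CovZ.n1 (-15696, 18480) (by decide +kernel)
             (CovZ.leaf K2_ok TB_l28622 _)
             (CovZ.leaf K2_ok TB_l28623 _)))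
           (CovZ.n1 (-15648, 18624) (by decide +kernel)
            (CovZ.n2 (-15600, 18576) (by decide +kernel)
             (CovZ.leaf K2_ok TB_l28624 _)
             (CovZ.n1 (-15600, 18624) (by decide +kernel)
              (CovZ.leaf K2_ok TB_l28625 _)
              (CovZ.leaf K2_ok TB_l28626 _)))
            (CovZ.n1 (-15696, 18576) (by decide +kernel)
             (CovZ.leaf K2_ok TB_l28627 _)
             (CovZ.leaf K2_ok TB_l28628 _))))))))
      (CovZ.n1 (-16128, 18816) (by decide +kernel)
       (CovZ.subM 305310535760598319625632477612986657533415416050136973451291478614823576628369548318710568655595499365727338512 (by decide +kernel)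
        (CovZ.n2 (-15936, 19008) (by decide +kernel)
         (CovZ.n2 (-15936, 18816) (by decide +kernel)
          (CovZ.n2 (-16032, 18912) (by decide +kernel)
           (CovZ.n2 (-15936, 18912) (by decide +kernel)
            (CovZ.leaf K2_ok TB_l28629 _)
            (CovZ.leaf K2_ok TB_l28630 _))
           (CovZ.n1 (-16032, 18816) (by decide +kernel)
            (CovZ.leaf K2_ok TB_l28631 _)
            (CovZ.leaf K2_ok TB_l28632 _)))
          (CovZ.n1 (-15840, 18912) (by decide +kernel)
           (CovZ.n2 (-15840, 18816) (by decide +kernel)
            (CovZ.n2 (-15888, 18864) (by decide +kernel)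
             (CovZ.leaf K2_ok TB_l28633 _)
             (CovZ.leaf K2_ok TB_l28634 _))
            (CovZ.n1 (-15792, 18864) (by decide +kernel)
             (CovZ.leaf K2_ok TB_l28635 _)
             (CovZ.leaf K2_ok TB_l28636 _)))
           (CovZ.n1 (-15936, 18912) (by decide +kernel)
            (CovZ.n2 (-15888, 18960) (by decide +kernel)
             (CovZ.leaf K2_ok TB_l28637 _)
             (CovZ.leaf K2_ok TB_l28638 _))
            (CovZ.n1 (-15888, 18864) (by decide +kernel)
             (CovZ.leaf K2_ok TB_l28639 _)
             (CovZ.leaf K2_ok TB_l28640 _)))))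
         (CovZ.n1 (-16128, 19008) (by decide +kernel)
          (CovZ.n2 (-16032, 19104) (by decide +kernel)
           (CovZ.n2 (-16032, 19008) (by decide +kernel)
            (CovZ.leaf K2_ok TB_l28641 _)
            (CovZ.leaf K2_ok TB_l28642 _))
           (CovZ.n1 (-16128, 19104) (by decide +kernel)
            (CovZ.leaf K2_ok TB_l28643 _)
            (CovZ.leaf K2_ok TB_l28644 _)))
          (CovZ.n1 (-16032, 18912) (by decide +kernel)
           (CovZ.n2 (-16128, 18912) (by decide +kernel)
            (CovZ.leaf K2_ok TB_l28645 _)
            (CovZ.leaf K2_ok TB_l28646 _))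
           (CovZ.n1 (-16032, 19008) (by decide +kernel)
            (CovZ.leaf K2_ok TB_l28647 _)
            (CovZ.leaf K2_ok TB_l28648 _))))))
       (CovZ.n1 (-15936, 18624) (by decide +kernel)
        (CovZ.n2 (-16128, 18624) (by decide +kernel)
         (CovZ.n2 (-16032, 18720) (by decide +kernel)
          (CovZ.n2 (-16032, 18624) (by decide +kernel)
           (CovZ.leaf K2_ok TB_l28649 _)
           (CovZ.leaf K2_ok TB_l28650 _))
          (CovZ.n1 (-16128, 18720) (by decide +kernel)
           (CovZ.leaf K2_ok TB_l28651 _)
           (CovZ.leaf K2_ok TB_l28652 _)))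
         (CovZ.n1 (-16032, 18528) (by decide +kernel)
          (CovZ.leaf K2_ok TB_l28653 _)
          (CovZ.n1 (-16032, 18624) (by decide +kernel)
           (CovZ.leaf K2_ok TB_l28654 _)
           (CovZ.leaf K2_ok TB_l28655 _))))
        (CovZ.subM 305310535760598319625632477612986657533415416050136973451291478614823576628369548318710568657901342374941032464 (by decide +kernel)
         (CovZ.n1 (-15936, 18816) (by decide +kernel)
          (CovZ.n2 (-15840, 18720) (by decide +kernel)
           (CovZ.n2 (-15936, 18720) (by decide +kernel)
            (CovZ.leaf K2_ok TB_l28656 _)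
            (CovZ.leaf K2_ok TB_l28657 _))
           (CovZ.n1 (-15840, 18816) (by decide +kernel)
            (CovZ.n2 (-15792, 18768) (by decide +kernel)
             (CovZ.leaf K2_ok TB_l28658 _)
             (CovZ.n1 (-15792, 18816) (by decide +kernel)
              (CovZ.leaf K2_ok TB_l28659 _)
              (CovZ.leaf K2_ok TB_l28660 _)))
            (CovZ.n1 (-15888, 18768) (by decide +kernel)
             (CovZ.leaf K2_ok TB_l28661 _)
             (CovZ.leaf K2_ok TB_l28662 _))))
          (CovZ.n1 (-16032, 18720) (by decide +kernel)
           (CovZ.n2 (-16032, 18816) (by decide +kernel)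
            (CovZ.leaf K2_ok TB_l28663 _)
            (CovZ.leaf K2_ok TB_l28664 _))
           (CovZ.n1 (-15936, 18720) (by decide +kernel)
            (CovZ.leaf K2_ok TB_l28665 _)
            (CovZ.leaf K2_ok TB_l28666 _))))))))

theorem TB_u427 : CovZ TB_M (toL (selN TB_LN 4697085165547666455778961193597316581229971504908501113632544802568359631703853718327743235310614805601189888)) [0, 7, 6, 1] (-15360, 19968) (-15360, 19200) (-14592, 19200) :=
    (CovZ.n2 (-14976, 19584) (by decide +kernel)
      (CovZ.n2 (-14976, 19200) (by decide +kernel)
       (CovZ.n2 (-15168, 19392) (by decide +kernel)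
        (CovZ.badM (by decide +kernel))
        (CovZ.n1 (-15168, 19200) (by decide +kernel)
         (CovZ.n2 (-15264, 19296) (by decide +kernel)
          (CovZ.badM (by decide +kernel))
          (CovZ.n1 (-15264, 19200) (by decide +kernel)
           (CovZ.n2 (-15312, 19248) (by decide +kernel)
            (CovZ.badM (by decide +kernel))
            (CovZ.leaf K2_ok TB_l35543 _))
           (CovZ.badM (by decide +kernel))))
         (CovZ.badM (by decide +kernel))))
       (CovZ.badM (by decide +kernel)))
      (CovZ.n1 (-15360, 19584) (by decide +kernel)
       (CovZ.n2 (-15168, 19776) (by decide +kernel)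
        (CovZ.n2 (-15168, 19584) (by decide +kernel)
         (CovZ.n2 (-15264, 19680) (by decide +kernel)
          (CovZ.badM (by decide +kernel))
          (CovZ.n1 (-15264, 19584) (by decide +kernel)
           (CovZ.leaf K2_ok TB_l35544 _)
           (CovZ.badM (by decide +kernel))))
         (CovZ.badM (by decide +kernel)))
        (CovZ.n1 (-15360, 19776) (by decide +kernel)
         (CovZ.n2 (-15264, 19872) (by decide +kernel)
          (CovZ.n2 (-15264, 19776) (by decide +kernel)
           (CovZ.leaf K2_ok TB_l35545 _)
           (CovZ.badM (by decide +kernel)))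
          (CovZ.n1 (-15360, 19872) (by decide +kernel)
           (CovZ.leaf K2_ok TB_l35546 _)
           (CovZ.leaf K2_ok TB_l35547 _)))
         (CovZ.n1 (-15264, 19680) (by decide +kernel)
          (CovZ.n2 (-15360, 19680) (by decide +kernel)
           (CovZ.leaf K2_ok TB_l35548 _)
           (CovZ.n1 (-15312, 19632) (by decide +kernel)
            (CovZ.leaf K2_ok TB_l35549 _)
            (CovZ.leaf K2_ok TB_l35550 _)))
          (CovZ.n1 (-15264, 19776) (by decide +kernel)
           (CovZ.badM (by decide +kernel))
           (CovZ.leaf K2_ok TB_l35551 _)))))
       (CovZ.n1 (-15168, 19392) (by decide +kernel)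
        (CovZ.n2 (-15360, 19392) (by decide +kernel)
         (CovZ.n2 (-15264, 19488) (by decide +kernel)
          (CovZ.n2 (-15264, 19392) (by decide +kernel)
           (CovZ.n2 (-15312, 19440) (by decide +kernel)
            (CovZ.badM (by decide +kernel))
            (CovZ.leaf K2_ok TB_l35552 _))
           (CovZ.badM (by decide +kernel)))
          (CovZ.n1 (-15360, 19488) (by decide +kernel)
           (CovZ.n2 (-15312, 19536) (by decide +kernel)
            (CovZ.leaf K2_ok TB_l35553 _)
            (CovZ.leaf K2_ok TB_l35554 _))
           (CovZ.n1 (-15312, 19440) (by decide +kernel)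
            (CovZ.leaf K2_ok TB_l35555 _)
            (CovZ.leaf K2_ok TB_l35556 _))))
         (CovZ.n1 (-15264, 19296) (by decide +kernel)
          (CovZ.n2 (-15360, 19296) (by decide +kernel)
           (CovZ.n2 (-15312, 19344) (by decide +kernel)
            (CovZ.n2 (-15312, 19296) (by decide +kernel)
             (CovZ.leaf K2_ok TB_l35557 _)
             (CovZ.badM (by decide +kernel)))
            (CovZ.leaf K2_ok TB_l35558 _))
           (CovZ.n1 (-15312, 19248) (by decide +kernel)
            (CovZ.leaf K2_ok TB_l35559 _)
            (CovZ.leaf K2_ok TB_l35560 _)))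
          (CovZ.n1 (-15264, 19392) (by decide +kernel)
           (CovZ.badM (by decide +kernel))
           (CovZ.n1 (-15312, 19344) (by decide +kernel)
            (CovZ.leaf K2_ok TB_l35561 _)
            (CovZ.badM (by decide +kernel))))))
        (CovZ.n1 (-15168, 19584) (by decide +kernel)
         (CovZ.badM (by decide +kernel))
         (CovZ.n1 (-15264, 19488) (by decide +kernel)
          (CovZ.n2 (-15264, 19584) (by decide +kernel)
           (CovZ.badM (by decide +kernel))
           (CovZ.n1 (-15312, 19536) (by decide +kernel)
            (CovZ.leaf K2_ok TB_l35562 _)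
            (CovZ.badM (by decide +kernel))))
          (CovZ.badM (by decide +kernel)))))))

theorem TB_u428 : CovZ TB_M (toL (selN TB_LN 4697085165547666455778961193597316581229971504908501113632544802568359631703853718327743235310614805601189888)) [0, 7, 6, 1] (-15360, 19200) (-15360, 18432) (-14592, 19200) :=
    (CovZ.n1 (-14976, 18816) (by decide +kernel)
      (CovZ.n2 (-15360, 18816) (by decide +kernel)
       (CovZ.n2 (-15168, 19008) (by decide +kernel)
        (CovZ.n2 (-15168, 18816) (by decide +kernel)
         (CovZ.n2 (-15264, 18912) (by decide +kernel)
          (CovZ.badM (by decide +kernel))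
          (CovZ.n1 (-15264, 18816) (by decide +kernel)
           (CovZ.n2 (-15312, 18864) (by decide +kernel)
            (CovZ.badM (by decide +kernel))
            (CovZ.n1 (-15312, 18816) (by decide +kernel)
             (CovZ.leaf K2_ok TB_l35563 _)
             (CovZ.badM (by decide +kernel))))
           (CovZ.badM (by decide +kernel))))
         (CovZ.badM (by decide +kernel)))
        (CovZ.n1 (-15360, 19008) (by decide +kernel)
         (CovZ.n2 (-15264, 19104) (by decide +kernel)
          (CovZ.n2 (-15264, 19008) (by decide +kernel)
           (CovZ.n2 (-15312, 19056) (by decide +kernel)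
            (CovZ.badM (by decide +kernel))
            (CovZ.n1 (-15312, 19008) (by decide +kernel)
             (CovZ.leaf K2_ok TB_l35564 _)
             (CovZ.badM (by decide +kernel))))
           (CovZ.badM (by decide +kernel)))
          (CovZ.n1 (-15360, 19104) (by decide +kernel)
           (CovZ.n2 (-15312, 19152) (by decide +kernel)
            (CovZ.n2 (-15312, 19104) (by decide +kernel)
             (CovZ.leaf K2_ok TB_l35565 _)
             (CovZ.badM (by decide +kernel)))
            (CovZ.leaf K2_ok TB_l35566 _))
           (CovZ.n1 (-15312, 19056) (by decide +kernel)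
            (CovZ.leaf K2_ok TB_l35567 _)
            (CovZ.n1 (-15312, 19104) (by decide +kernel)
             (CovZ.badM (by decide +kernel))
             (CovZ.leaf K2_ok TB_l35568 _)))))
         (CovZ.n1 (-15264, 18912) (by decide +kernel)
          (CovZ.n2 (-15360, 18912) (by decide +kernel)
           (CovZ.n2 (-15312, 18960) (by decide +kernel)
            (CovZ.n2 (-15312, 18912) (by decide +kernel)
             (CovZ.leaf K2_ok TB_l35569 _)
             (CovZ.badM (by decide +kernel)))
            (CovZ.n1 (-15360, 18960) (by decide +kernel)
             (CovZ.leaf K2_ok TB_l35570 _)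
             (CovZ.leaf K2_ok TB_l35571 _)))
           (CovZ.n1 (-15312, 18864) (by decide +kernel)
            (CovZ.n2 (-15360, 18864) (by decide +kernel)
             (CovZ.leaf K2_ok TB_l35572 _)
             (CovZ.leaf K2_ok TB_l35573 _))
            (CovZ.n1 (-15312, 18912) (by decide +kernel)
             (CovZ.badM (by decide +kernel))
             (CovZ.leaf K2_ok TB_l35574 _))))
          (CovZ.n1 (-15264, 19008) (by decide +kernel)
           (CovZ.badM (by decide +kernel))
           (CovZ.n1 (-15312, 18960) (by decide +kernel)
            (CovZ.n2 (-15312, 19008) (by decide +kernel)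
             (CovZ.badM (by decide +kernel))
             (CovZ.leaf K2_ok TB_l35575 _))
            (CovZ.badM (by decide +kernel)))))))
       (CovZ.n1 (-15168, 18624) (by decide +kernel)
        (CovZ.n2 (-15360, 18624) (by decide +kernel)
         (CovZ.n2 (-15264, 18720) (by decide +kernel)
          (CovZ.n2 (-15264, 18624) (by decide +kernel)
           (CovZ.n2 (-15312, 18672) (by decide +kernel)
            (CovZ.badM (by decide +kernel))
            (CovZ.n1 (-15312, 18624) (by decide +kernel)
             (CovZ.n2 (-15336, 18648) (by decide +kernel)
              (CovZ.badM (by decide +kernel))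
              (CovZ.n1 (-15336, 18624) (by decide +kernel)
               (CovZ.leaf K2_ok TB_l35576 _)
               (CovZ.badM (by decide +kernel))))
             (CovZ.badM (by decide +kernel))))
           (CovZ.badM (by decide +kernel)))
          (CovZ.n1 (-15360, 18720) (by decide +kernel)
           (CovZ.n2 (-15312, 18768) (by decide +kernel)
            (CovZ.n2 (-15312, 18720) (by decide +kernel)
             (CovZ.n2 (-15336, 18744) (by decide +kernel)
              (CovZ.badM (by decide +kernel))
              (CovZ.leaf K2_ok TB_l35577 _))
             (CovZ.badM (by decide +kernel)))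
            (CovZ.n1 (-15360, 18768) (by decide +kernel)
             (CovZ.n2 (-15336, 18792) (by decide +kernel)
              (CovZ.leaf K2_ok TB_l35578 _)
              (CovZ.leaf K2_ok TB_l35579 _))
             (CovZ.n1 (-15336, 18744) (by decide +kernel)
              (CovZ.leaf K2_ok TB_l35580 _)
              (CovZ.leaf K2_ok TB_l35581 _))))
           (CovZ.n1 (-15312, 18672) (by decide +kernel)
            (CovZ.n2 (-15360, 18672) (by decide +kernel)
             (CovZ.n2 (-15336, 18696) (by decide +kernel)
              (CovZ.n2 (-15336, 18672) (by decide +kernel)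
               (CovZ.leaf K2_ok TB_l35582 _)
               (CovZ.badM (by decide +kernel)))
              (CovZ.leaf K2_ok TB_l35583 _))
             (CovZ.n1 (-15336, 18648) (by decide +kernel)
              (CovZ.n2 (-15360, 18648) (by decide +kernel)
               (CovZ.leaf K2_ok TB_l35584 _)
               (CovZ.leaf K2_ok TB_l35585 _))
              (CovZ.n1 (-15336, 18672) (by decide +kernel)
               (CovZ.badM (by decide +kernel))
               (CovZ.leaf K2_ok TB_l35586 _))))
            (CovZ.n1 (-15312, 18720) (by decide +kernel)
             (CovZ.badM (by decide +kernel))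
             (CovZ.n1 (-15336, 18696) (by decide +kernel)
              (CovZ.n2 (-15336, 18720) (by decide +kernel)
               (CovZ.badM (by decide +kernel))
               (CovZ.leaf K2_ok TB_l35587 _))
              (CovZ.badM (by decide +kernel)))))))
         (CovZ.n1 (-15264, 18528) (by decide +kernel)
          (CovZ.n2 (-15360, 18528) (by decide +kernel)
           (CovZ.n2 (-15312, 18576) (by decide +kernel)
            (CovZ.n2 (-15312, 18528) (by decide +kernel)
             (CovZ.n2 (-15336, 18552) (by decide +kernel)
              (CovZ.badM (by decide +kernel))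
              (CovZ.n1 (-15336, 18528) (by decide +kernel)
               (CovZ.leaf K2_ok TB_l35588 _)
               (CovZ.badM (by decide +kernel))))
             (CovZ.badM (by decide +kernel)))
            (CovZ.n1 (-15360, 18576) (by decide +kernel)
             (CovZ.n2 (-15336, 18600) (by decide +kernel)
              (CovZ.n2 (-15336, 18576) (by decide +kernel)
               (CovZ.leaf K2_ok TB_l35589 _)
               (CovZ.badM (by decide +kernel)))
              (CovZ.n1 (-15360, 18600) (by decide +kernel)
               (CovZ.leaf K2_ok TB_l35590 _)
               (CovZ.leaf K2_ok TB_l35591 _)))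
             (CovZ.n1 (-15336, 18552) (by decide +kernel)
              (CovZ.n2 (-15360, 18552) (by decide +kernel)
               (CovZ.leaf K2_ok TB_l35592 _)
               (CovZ.leaf K2_ok TB_l35593 _))
              (CovZ.n1 (-15336, 18576) (by decide +kernel)
               (CovZ.badM (by decide +kernel))
               (CovZ.leaf K2_ok TB_l35594 _)))))
           (CovZ.n1 (-15312, 18480) (by decide +kernel)
            (CovZ.n2 (-15360, 18480) (by decide +kernel)
             (CovZ.n2 (-15336, 18504) (by decide +kernel)
              (CovZ.n2 (-15336, 18480) (by decide +kernel)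
               (CovZ.leaf K2_ok TB_l35595 _)
               (CovZ.leaf K2_ok TB_l46956 _))
              (CovZ.n1 (-15360, 18504) (by decide +kernel)
               (CovZ.leaf K2_ok TB_l35596 _)
               (CovZ.leaf K2_ok TB_l35597 _)))
             (CovZ.n1 (-15336, 18456) (by decide +kernel)
              (CovZ.leaf K2_ok TB_l35598 _)
              (CovZ.n1 (-15336, 18480) (by decide +kernel)
               (CovZ.leaf K2_ok TB_l46957 _)
               (CovZ.leaf K2_ok TB_l35599 _))))
            (CovZ.n1 (-15312, 18528) (by decide +kernel)
             (CovZ.n2 (-15288, 18504) (by decide +kernel)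
              (CovZ.n2 (-15312, 18504) (by decide +kernel)
               (CovZ.badM (by decide +kernel))
               (CovZ.leaf K2_ok TB_l46958 _))
              (CovZ.badM (by decide +kernel)))
             (CovZ.n1 (-15336, 18504) (by decide +kernel)
              (CovZ.n2 (-15336, 18528) (by decide +kernel)
               (CovZ.badM (by decide +kernel))
               (CovZ.leaf K2_ok TB_l35600 _))
              (CovZ.n1 (-15312, 18504) (by decide +kernel)
               (CovZ.leaf K2_ok TB_l46959 _)
               (CovZ.badM (by decide +kernel)))))))
          (CovZ.n1 (-15264, 18624) (by decide +kernel)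
           (CovZ.badM (by decide +kernel))
           (CovZ.n1 (-15312, 18576) (by decide +kernel)
            (CovZ.n2 (-15312, 18624) (by decide +kernel)
             (CovZ.badM (by decide +kernel))
             (CovZ.n1 (-15336, 18600) (by decide +kernel)
              (CovZ.n2 (-15336, 18624) (by decide +kernel)
               (CovZ.badM (by decide +kernel))
               (CovZ.leaf K2_ok TB_l35601 _))
              (CovZ.badM (by decide +kernel))))
            (CovZ.badM (by decide +kernel))))))
        (CovZ.n1 (-15168, 18816) (by decide +kernel)
         (CovZ.badM (by decide +kernel))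
         (CovZ.n1 (-15264, 18720) (by decide +kernel)
          (CovZ.n2 (-15264, 18816) (by decide +kernel)
           (CovZ.badM (by decide +kernel))
           (CovZ.n1 (-15312, 18768) (by decide +kernel)
            (CovZ.n2 (-15312, 18816) (by decide +kernel)
             (CovZ.badM (by decide +kernel))
             (CovZ.n1 (-15336, 18792) (by decide +kernel)
              (CovZ.leaf K2_ok TB_l35602 _)
              (CovZ.badM (by decide +kernel))))
            (CovZ.badM (by decide +kernel))))
          (CovZ.badM (by decide +kernel))))))
      (CovZ.n1 (-14976, 19200) (by decide +kernel)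
       (CovZ.badM (by decide +kernel))
       (CovZ.n1 (-15168, 19008) (by decide +kernel)
        (CovZ.n2 (-15168, 19200) (by decide +kernel)
         (CovZ.badM (by decide +kernel))
         (CovZ.n1 (-15264, 19104) (by decide +kernel)
          (CovZ.n2 (-15264, 19200) (by decide +kernel)
           (CovZ.badM (by decide +kernel))
           (CovZ.n1 (-15312, 19152) (by decide +kernel)
            (CovZ.n2 (-15312, 19200) (by decide +kernel)
             (CovZ.badM (by decide +kernel))
             (CovZ.leaf K2_ok TB_l35603 _))
            (CovZ.badM (by decide +kernel))))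
          (CovZ.badM (by decide +kernel))))
        (CovZ.badM (by decide +kernel)))))

theorem TB_u429 : CovZ TB_M (toL (selN TB_LN 2710218140555999556776544253243338473482208789201395464887012603791042869181951121265590066947059120769987674112)) [0, 7, 6, 1] (-16896, 19968) (-16896, 20736) (-17664, 20736) :=
    (CovZ.n2 (-17280, 20352) (by decide +kernel)
      (CovZ.n2 (-17280, 20736) (by decide +kernel)
       (CovZ.n2 (-17088, 20544) (by decide +kernel)
        (CovZ.n2 (-17280, 20544) (by decide +kernel)
         (CovZ.n2 (-17184, 20640) (by decide +kernel)
          (CovZ.n2 (-17184, 20544) (by decide +kernel)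
           (CovZ.leaf K2_ok TB_l22332 _)
           (CovZ.leaf K2_ok TB_l22333 _))
          (CovZ.n1 (-17280, 20640) (by decide +kernel)
           (CovZ.leaf K2_ok TB_l22334 _)
           (CovZ.leaf K2_ok TB_l22335 _)))
         (CovZ.n1 (-17184, 20448) (by decide +kernel)
          (CovZ.leaf K2_ok TB_l22336 _)
          (CovZ.n1 (-17184, 20544) (by decide +kernel)
           (CovZ.leaf K2_ok TB_l22337 _)
           (CovZ.leaf K2_ok TB_l22338 _))))
        (CovZ.n1 (-17088, 20736) (by decide +kernel)
         (CovZ.n2 (-16992, 20640) (by decide +kernel)
          (CovZ.n2 (-17088, 20640) (by decide +kernel)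
           (CovZ.leaf K2_ok TB_l22339 _)
           (CovZ.leaf K2_ok TB_l22340 _))
          (CovZ.n1 (-16992, 20736) (by decide +kernel)
           (CovZ.n2 (-16944, 20688) (by decide +kernel)
            (CovZ.leaf K2_ok TB_l22341 _)
            (CovZ.leaf K2_ok TB_l22342 _))
           (CovZ.n1 (-17040, 20688) (by decide +kernel)
            (CovZ.leaf K2_ok TB_l22343 _)
            (CovZ.leaf K2_ok TB_l22344 _))))
         (CovZ.n1 (-17184, 20640) (by decide +kernel)
          (CovZ.n2 (-17184, 20736) (by decide +kernel)
           (CovZ.n2 (-17136, 20688) (by decide +kernel)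
            (CovZ.leaf K2_ok TB_l22345 _)
            (CovZ.leaf K2_ok TB_l22346 _))
           (CovZ.leaf K2_ok TB_l22347 _))
          (CovZ.n1 (-17088, 20640) (by decide +kernel)
           (CovZ.leaf K2_ok TB_l22348 _)
           (CovZ.n1 (-17136, 20688) (by decide +kernel)
            (CovZ.leaf K2_ok TB_l22349 _)
            (CovZ.leaf K2_ok TB_l22350 _))))))
       (CovZ.n1 (-17472, 20544) (by decide +kernel)
        (CovZ.n2 (-17472, 20736) (by decide +kernel)
         (CovZ.n2 (-17376, 20640) (by decide +kernel)
          (CovZ.n2 (-17472, 20640) (by decide +kernel)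
           (CovZ.leaf K2_ok TB_l22351 _)
           (CovZ.leaf K2_ok TB_l22352 _))
          (CovZ.n1 (-17376, 20736) (by decide +kernel)
           (CovZ.leaf K2_ok TB_l22353 _)
           (CovZ.leaf K2_ok TB_l22354 _)))
         (CovZ.n1 (-17568, 20640) (by decide +kernel)
          (CovZ.n2 (-17568, 20736) (by decide +kernel)
           (CovZ.leaf K2_ok TB_l22355 _)
           (CovZ.leaf K2_ok TB_l22356 _))
          (CovZ.leaf K2_ok TB_l22357 _)))
        (CovZ.n1 (-17280, 20544) (by decide +kernel)
         (CovZ.n2 (-17376, 20448) (by decide +kernel)
          (CovZ.n2 (-17376, 20544) (by decide +kernel)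
           (CovZ.leaf K2_ok TB_l22358 _)
           (CovZ.leaf K2_ok TB_l22359 _))
          (CovZ.n1 (-17280, 20448) (by decide +kernel)
           (CovZ.leaf K2_ok TB_l22360 _)
           (CovZ.leaf K2_ok TB_l22361 _)))
         (CovZ.n1 (-17376, 20640) (by decide +kernel)
          (CovZ.n2 (-17280, 20640) (by decide +kernel)
           (CovZ.leaf K2_ok TB_l22362 _)
           (CovZ.leaf K2_ok TB_l22363 _))
          (CovZ.n1 (-17376, 20544) (by decide +kernel)
           (CovZ.leaf K2_ok TB_l22364 _)
           (CovZ.leaf K2_ok TB_l22365 _))))))
      (CovZ.n1 (-16896, 20352) (by decide +kernel)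
       (CovZ.n2 (-17088, 20160) (by decide +kernel)
        (CovZ.n2 (-17088, 20352) (by decide +kernel)
         (CovZ.n2 (-16992, 20256) (by decide +kernel)
          (CovZ.leaf K2_ok TB_l22366 _)
          (CovZ.n1 (-16992, 20352) (by decide +kernel)
           (CovZ.leaf K2_ok TB_l22367 _)
           (CovZ.leaf K2_ok TB_l22368 _)))
         (CovZ.n1 (-17184, 20256) (by decide +kernel)
          (CovZ.n2 (-17184, 20352) (by decide +kernel)
           (CovZ.leaf K2_ok TB_l22369 _)
           (CovZ.leaf K2_ok TB_l22370 _))
          (CovZ.leaf K2_ok TB_l22371 _)))
        (CovZ.n1 (-16896, 20160) (by decide +kernel)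
         (CovZ.n2 (-16992, 20064) (by decide +kernel)
          (CovZ.leaf K2_ok TB_l22372 _)
          (CovZ.leaf K2_ok TB_l22373 _))
         (CovZ.n1 (-16992, 20256) (by decide +kernel)
          (CovZ.leaf K2_ok TB_l22374 _)
          (CovZ.n1 (-16992, 20160) (by decide +kernel)
           (CovZ.leaf K2_ok TB_l22375 _)
           (CovZ.leaf K2_ok TB_l22376 _)))))
       (CovZ.n1 (-17088, 20544) (by decide +kernel)
        (CovZ.n2 (-16896, 20544) (by decide +kernel)
         (CovZ.n2 (-16992, 20448) (by decide +kernel)
          (CovZ.n2 (-16992, 20544) (by decide +kernel)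
           (CovZ.leaf K2_ok TB_l22377 _)
           (CovZ.leaf K2_ok TB_l22378 _))
          (CovZ.n1 (-16896, 20448) (by decide +kernel)
           (CovZ.leaf K2_ok TB_l22379 _)
           (CovZ.leaf K2_ok TB_l22380 _)))
         (CovZ.n1 (-16992, 20640) (by decide +kernel)
          (CovZ.n2 (-16896, 20640) (by decide +kernel)
           (CovZ.leaf K2_ok TB_l22381 _)
           (CovZ.n1 (-16944, 20688) (by decide +kernel)
            (CovZ.leaf K2_ok TB_l22382 _)
            (CovZ.leaf K2_ok TB_l22383 _)))
          (CovZ.n1 (-16992, 20544) (by decide +kernel)
           (CovZ.leaf K2_ok TB_l22384 _)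
           (CovZ.leaf K2_ok TB_l22385 _))))
        (CovZ.n1 (-17088, 20352) (by decide +kernel)
         (CovZ.n2 (-17184, 20448) (by decide +kernel)
          (CovZ.n2 (-17088, 20448) (by decide +kernel)
           (CovZ.leaf K2_ok TB_l22386 _)
           (CovZ.leaf K2_ok TB_l22387 _))
          (CovZ.n1 (-17184, 20352) (by decide +kernel)
           (CovZ.leaf K2_ok TB_l22388 _)
           (CovZ.leaf K2_ok TB_l22389 _)))
         (CovZ.n1 (-16992, 20448) (by decide +kernel)
          (CovZ.n2 (-16992, 20352) (by decide +kernel)
           (CovZ.leaf K2_ok TB_l22390 _)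
           (CovZ.leaf K2_ok TB_l22391 _))
          (CovZ.leaf K2_ok TB_l22392 _))))))

theorem TB_u430 : CovZ TB_M (toL (selN TB_LN 2710218140555999556776544253243338473482208789201395464887012603791042869181951121265590066947059120769987674112)) [0, 7, 6, 1] (-16896, 20736) (-16896, 21504) (-17664, 20736) :=
    (CovZ.n1 (-17280, 21120) (by decide +kernel)
      (CovZ.n2 (-16896, 21120) (by decide +kernel)
       (CovZ.n2 (-17088, 20928) (by decide +kernel)
        (CovZ.subM 2705521055355455878659051950017081387638384154726878260670683023774269394119676747051882041178330036201792372736 (by decide +kernel)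
         (CovZ.n2 (-17088, 21120) (by decide +kernel)
          (CovZ.n2 (-16992, 21024) (by decide +kernel)
           (CovZ.n2 (-17088, 21024) (by decide +kernel)
            (CovZ.n2 (-17040, 21072) (by decide +kernel)
             (CovZ.leaf K2_ok TB_l22393 _)
             (CovZ.leaf K2_ok TB_l22394 _))
            (CovZ.n1 (-17040, 20976) (by decide +kernel)
             (CovZ.leaf K2_ok TB_l22395 _)
             (CovZ.leaf K2_ok TB_l22396 _)))
           (CovZ.n1 (-16992, 21120) (by decide +kernel)
            (CovZ.n2 (-16944, 21072) (by decide +kernel)
             (CovZ.leaf K2_ok TB_l22397 _)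
             (CovZ.n1 (-16944, 21120) (by decide +kernel)
              (CovZ.leaf K2_ok TB_l22398 _)
              (CovZ.leaf K2_ok TB_l22399 _)))
            (CovZ.n1 (-17040, 21072) (by decide +kernel)
             (CovZ.leaf K2_ok TB_l22400 _)
             (CovZ.leaf K2_ok TB_l22401 _))))
          (CovZ.n1 (-17184, 21024) (by decide +kernel)
           (CovZ.n2 (-17184, 21120) (by decide +kernel)
            (CovZ.n2 (-17136, 21072) (by decide +kernel)
             (CovZ.leaf K2_ok TB_l22402 _)
             (CovZ.leaf K2_ok TB_l22403 _))
            (CovZ.leaf K2_ok TB_l22404 _))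
           (CovZ.n1 (-17088, 21024) (by decide +kernel)
            (CovZ.n2 (-17136, 20976) (by decide +kernel)
             (CovZ.leaf K2_ok TB_l22405 _)
             (CovZ.leaf K2_ok TB_l22406 _))
            (CovZ.n1 (-17136, 21072) (by decide +kernel)
             (CovZ.leaf K2_ok TB_l22407 _)
             (CovZ.leaf K2_ok TB_l22408 _))))))
        (CovZ.n1 (-16896, 20928) (by decide +kernel)
         (CovZ.n2 (-16992, 20832) (by decide +kernel)
          (CovZ.n2 (-16992, 20928) (by decide +kernel)
           (CovZ.n2 (-16944, 20880) (by decide +kernel)
            (CovZ.leaf K2_ok TB_l22409 _)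
            (CovZ.n1 (-16944, 20928) (by decide +kernel)
             (CovZ.leaf K2_ok TB_l22410 _)
             (CovZ.leaf K2_ok TB_l22411 _)))
           (CovZ.n1 (-17040, 20880) (by decide +kernel)
            (CovZ.leaf K2_ok TB_l22412 _)
            (CovZ.leaf K2_ok TB_l22413 _)))
          (CovZ.n1 (-16896, 20832) (by decide +kernel)
           (CovZ.n2 (-16944, 20784) (by decide +kernel)
            (CovZ.n2 (-16944, 20832) (by decide +kernel)
             (CovZ.leaf K2_ok TB_l22414 _)
             (CovZ.leaf K2_ok TB_l22415 _))
            (CovZ.leaf K2_ok TB_l22416 _))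
           (CovZ.n1 (-16944, 20880) (by decide +kernel)
            (CovZ.leaf K2_ok TB_l22417 _)
            (CovZ.n1 (-16944, 20832) (by decide +kernel)
             (CovZ.leaf K2_ok TB_l22418 _)
             (CovZ.leaf K2_ok TB_l22419 _)))))
         (CovZ.subM 2705521055355455878659051950017081387638384158096871594064512998107646279997130581256525093995901596339743653888 (by decide +kernel)
          (CovZ.n1 (-16992, 21024) (by decide +kernel)
           (CovZ.n2 (-16896, 21024) (by decide +kernel)
            (CovZ.n2 (-16944, 20976) (by decide +kernel)
             (CovZ.n2 (-16944, 21024) (by decide +kernel)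
              (CovZ.leaf K2_ok TB_l22420 _)
              (CovZ.leaf K2_ok TB_l22421 _))
             (CovZ.leaf K2_ok TB_l22422 _))
            (CovZ.n1 (-16944, 21072) (by decide +kernel)
             (CovZ.leaf K2_ok TB_l22423 _)
             (CovZ.n1 (-16944, 21024) (by decide +kernel)
              (CovZ.leaf K2_ok TB_l22424 _)
              (CovZ.leaf K2_ok TB_l22425 _))))
           (CovZ.n1 (-16992, 20928) (by decide +kernel)
            (CovZ.n2 (-17040, 20976) (by decide +kernel)
             (CovZ.leaf K2_ok TB_l22426 _)
             (CovZ.leaf K2_ok TB_l22427 _))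
            (CovZ.n1 (-16944, 20976) (by decide +kernel)
             (CovZ.n2 (-16944, 20928) (by decide +kernel)
              (CovZ.leaf K2_ok TB_l22428 _)
              (CovZ.leaf K2_ok TB_l22429 _))
             (CovZ.leaf K2_ok TB_l22430 _)))))))
       (CovZ.subM 2705521055355455878659051950017081387638380703853704865388789306396338255606950521477588915356486370541294485504 (by decide +kernel)
        (CovZ.n1 (-17088, 21312) (by decide +kernel)
         (CovZ.n2 (-16896, 21312) (by decide +kernel)
          (CovZ.n2 (-16992, 21216) (by decide +kernel)
           (CovZ.n2 (-16992, 21312) (by decide +kernel)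
            (CovZ.n2 (-16944, 21264) (by decide +kernel)
             (CovZ.leaf K2_ok TB_l22431 _)
             (CovZ.n1 (-16944, 21312) (by decide +kernel)
              (CovZ.leaf K2_ok TB_l22432 _)
              (CovZ.leaf K2_ok TB_l22433 _)))
            (CovZ.n1 (-17040, 21264) (by decide +kernel)
             (CovZ.leaf K2_ok TB_l22434 _)
             (CovZ.leaf K2_ok TB_l22435 _)))
           (CovZ.n1 (-16896, 21216) (by decide +kernel)
            (CovZ.n2 (-16944, 21168) (by decide +kernel)
             (CovZ.n2 (-16944, 21216) (by decide +kernel)
              (CovZ.leaf K2_ok TB_l22436 _)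
              (CovZ.leaf K2_ok TB_l22437 _))
             (CovZ.n1 (-16896, 21168) (by decide +kernel)
              (CovZ.leaf K2_ok TB_l22438 _)
              (CovZ.leaf K2_ok TB_l22439 _)))
            (CovZ.n1 (-16944, 21264) (by decide +kernel)
             (CovZ.leaf K2_ok TB_l22440 _)
             (CovZ.n1 (-16944, 21216) (by decide +kernel)
              (CovZ.leaf K2_ok TB_l22441 _)
              (CovZ.leaf K2_ok TB_l22442 _)))))
          (CovZ.n1 (-16992, 21408) (by decide +kernel)
           (CovZ.n2 (-16896, 21408) (by decide +kernel)
            (CovZ.n2 (-16944, 21360) (by decide +kernel)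
             (CovZ.n2 (-16944, 21408) (by decide +kernel)
              (CovZ.leaf K2_ok TB_l22443 _)
              (CovZ.leaf K2_ok TB_l22444 _))
             (CovZ.n1 (-16896, 21360) (by decide +kernel)
              (CovZ.leaf K2_ok TB_l22445 _)
              (CovZ.leaf K2_ok TB_l22446 _)))
            (CovZ.n1 (-16944, 21456) (by decide +kernel)
             (CovZ.n2 (-16896, 21456) (by decide +kernel)
              (CovZ.leaf K2_ok TB_l22447 _)
              (CovZ.leaf K2_ok TB_l22448 _))
             (CovZ.n1 (-16944, 21408) (by decide +kernel)
              (CovZ.leaf K2_ok TB_l22449 _)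
              (CovZ.leaf K2_ok TB_l22450 _))))
           (CovZ.n1 (-16992, 21312) (by decide +kernel)
            (CovZ.n2 (-17040, 21360) (by decide +kernel)
             (CovZ.leaf K2_ok TB_l22451 _)
             (CovZ.leaf K2_ok TB_l22452 _))
            (CovZ.n1 (-16944, 21360) (by decide +kernel)
             (CovZ.n2 (-16944, 21312) (by decide +kernel)
              (CovZ.leaf K2_ok TB_l22453 _)
              (CovZ.leaf K2_ok TB_l22454 _))
             (CovZ.leaf K2_ok TB_l22455 _)))))
         (CovZ.n1 (-17088, 21120) (by decide +kernel)
          (CovZ.n2 (-17184, 21216) (by decide +kernel)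
           (CovZ.n2 (-17088, 21216) (by decide +kernel)
            (CovZ.n2 (-17136, 21168) (by decide +kernel)
             (CovZ.leaf K2_ok TB_l22456 _)
             (CovZ.leaf K2_ok TB_l22457 _))
            (CovZ.n1 (-17136, 21264) (by decide +kernel)
             (CovZ.leaf K2_ok TB_l22458 _)
             (CovZ.leaf K2_ok TB_l22459 _)))
           (CovZ.n1 (-17184, 21120) (by decide +kernel)
            (CovZ.leaf K2_ok TB_l22460 _)
            (CovZ.n1 (-17136, 21168) (by decide +kernel)
             (CovZ.leaf K2_ok TB_l22461 _)
             (CovZ.leaf K2_ok TB_l22462 _))))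
          (CovZ.n1 (-16992, 21216) (by decide +kernel)
           (CovZ.n2 (-16992, 21120) (by decide +kernel)
            (CovZ.n2 (-17040, 21168) (by decide +kernel)
             (CovZ.leaf K2_ok TB_l22463 _)
             (CovZ.leaf K2_ok TB_l22464 _))
            (CovZ.n1 (-16944, 21168) (by decide +kernel)
             (CovZ.n2 (-16944, 21120) (by decide +kernel)
              (CovZ.leaf K2_ok TB_l22465 _)
              (CovZ.leaf K2_ok TB_l22466 _))
             (CovZ.leaf K2_ok TB_l22467 _)))
           (CovZ.n1 (-17088, 21216) (by decide +kernel)
            (CovZ.n2 (-17040, 21264) (by decide +kernel)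
             (CovZ.leaf K2_ok TB_l22468 _)
             (CovZ.leaf K2_ok TB_l22469 _))
            (CovZ.n1 (-17040, 21168) (by decide +kernel)
             (CovZ.leaf K2_ok TB_l22470 _)
             (CovZ.leaf K2_ok TB_l22471 _))))))))
      (CovZ.n1 (-17280, 20736) (by decide +kernel)
       (CovZ.subM 2404907604760405225489198433628046248134296798576593317401639702418277296537368368902457727837794322627558539264 (by decide +kernel)
        (CovZ.n2 (-17472, 20928) (by decide +kernel)
         (CovZ.n2 (-17280, 20928) (by decide +kernel)
          (CovZ.n2 (-17376, 20832) (by decide +kernel)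
           (CovZ.n2 (-17376, 20928) (by decide +kernel)
            (CovZ.leaf K2_ok TB_l22472 _)
            (CovZ.leaf K2_ok TB_l22473 _))
           (CovZ.n1 (-17280, 20832) (by decide +kernel)
            (CovZ.leaf K2_ok TB_l22474 _)
            (CovZ.leaf K2_ok TB_l22475 _)))
          (CovZ.n1 (-17376, 21024) (by decide +kernel)
           (CovZ.n2 (-17280, 21024) (by decide +kernel)
            (CovZ.leaf K2_ok TB_l22476 _)
            (CovZ.leaf K2_ok TB_l22477 _))
           (CovZ.n1 (-17376, 20928) (by decide +kernel)
            (CovZ.leaf K2_ok TB_l22478 _)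
            (CovZ.leaf K2_ok TB_l22479 _))))
         (CovZ.n1 (-17472, 20736) (by decide +kernel)
          (CovZ.n2 (-17568, 20832) (by decide +kernel)
           (CovZ.n2 (-17472, 20832) (by decide +kernel)
            (CovZ.leaf K2_ok TB_l22480 _)
            (CovZ.leaf K2_ok TB_l22481 _))
           (CovZ.n1 (-17568, 20736) (by decide +kernel)
            (CovZ.leaf K2_ok TB_l22482 _)
            (CovZ.leaf K2_ok TB_l22483 _)))
          (CovZ.n1 (-17376, 20832) (by decide +kernel)
           (CovZ.n2 (-17376, 20736) (by decide +kernel)
            (CovZ.leaf K2_ok TB_l22484 _)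
            (CovZ.leaf K2_ok TB_l22485 _))
           (CovZ.n1 (-17472, 20832) (by decide +kernel)
            (CovZ.leaf K2_ok TB_l22486 _)
            (CovZ.leaf K2_ok TB_l22487 _))))))
       (CovZ.n1 (-17088, 20928) (by decide +kernel)
        (CovZ.n2 (-17088, 20736) (by decide +kernel)
         (CovZ.subM 2404907604760405225489198433628046248134296798576593317401639702418277296537368368902457727837794322627558539264 (by decide +kernel)
          (CovZ.n2 (-17184, 20832) (by decide +kernel)
           (CovZ.n2 (-17088, 20832) (by decide +kernel)
            (CovZ.n2 (-17136, 20784) (by decide +kernel)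
             (CovZ.leaf K2_ok TB_l22488 _)
             (CovZ.leaf K2_ok TB_l22489 _))
            (CovZ.n1 (-17136, 20880) (by decide +kernel)
             (CovZ.leaf K2_ok TB_l22490 _)
             (CovZ.leaf K2_ok TB_l22491 _)))
           (CovZ.n1 (-17184, 20736) (by decide +kernel)
            (CovZ.leaf K2_ok TB_l22492 _)
            (CovZ.n1 (-17136, 20784) (by decide +kernel)
             (CovZ.leaf K2_ok TB_l22493 _)
             (CovZ.leaf K2_ok TB_l22494 _)))))
         (CovZ.n1 (-16992, 20832) (by decide +kernel)
          (CovZ.n2 (-16992, 20736) (by decide +kernel)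
           (CovZ.n2 (-17040, 20784) (by decide +kernel)
            (CovZ.leaf K2_ok TB_l22495 _)
            (CovZ.leaf K2_ok TB_l22496 _))
           (CovZ.n1 (-16944, 20784) (by decide +kernel)
            (CovZ.leaf K2_ok TB_l22497 _)
            (CovZ.leaf K2_ok TB_l22498 _)))
          (CovZ.subM 2404907604760405225489198433628046248134296798576593317401639702418277296537368368902457727837794322627558539264 (by decide +kernel)
           (CovZ.n1 (-17088, 20832) (by decide +kernel)
            (CovZ.n2 (-17040, 20880) (by decide +kernel)
             (CovZ.leaf K2_ok TB_l22499 _)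
             (CovZ.leaf K2_ok TB_l22500 _))
            (CovZ.n1 (-17040, 20784) (by decide +kernel)
             (CovZ.leaf K2_ok TB_l22501 _)
             (CovZ.leaf K2_ok TB_l22502 _))))))
        (CovZ.subM 2404907604760405225489198433628046248134296798576593317401639702418277296537368368902457727837794322627558539264 (by decide +kernel)
         (CovZ.n1 (-17280, 20928) (by decide +kernel)
          (CovZ.n2 (-17184, 21024) (by decide +kernel)
           (CovZ.n2 (-17184, 20928) (by decide +kernel)
            (CovZ.leaf K2_ok TB_l22503 _)
            (CovZ.leaf K2_ok TB_l22504 _))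
           (CovZ.n1 (-17280, 21024) (by decide +kernel)
            (CovZ.leaf K2_ok TB_l22505 _)
            (CovZ.leaf K2_ok TB_l22506 _)))
          (CovZ.n1 (-17184, 20832) (by decide +kernel)
           (CovZ.n2 (-17280, 20832) (by decide +kernel)
            (CovZ.leaf K2_ok TB_l22507 _)
            (CovZ.leaf K2_ok TB_l22508 _))
           (CovZ.n1 (-17184, 20928) (by decide +kernel)
            (CovZ.n2 (-17136, 20880) (by decide +kernel)
             (CovZ.leaf K2_ok TB_l22509 _)
             (CovZ.leaf K2_ok TB_l22510 _))
            (CovZ.leaf K2_ok TB_l22511 _))))))))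

theorem TB_u431 : CovZ TB_M (toL (selN TB_LN 2705521055390451890320765292049744978040034184912271259239043480451290447945503145997844097081217175167801917440)) [0, 7, 6, 1] (-18432, 19968) (-17664, 20736) (-18432, 21504) :=
    (CovZ.n2 (-18432, 20736) (by decide +kernel)
     (CovZ.subM 2404907604795401237085726624418006283767737018546069432032045354025773238978609243301499679417125451495752499200 (by decide +kernel)
      (CovZ.n2 (-18048, 21120) (by decide +kernel)
       (CovZ.n2 (-18048, 20736) (by decide +kernel)
        (CovZ.n2 (-18240, 20928) (by decide +kernel)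
         (CovZ.n2 (-18048, 20928) (by decide +kernel)
          (CovZ.leaf K2_ok TB_l22560 _)
          (CovZ.leaf K2_ok TB_l22561 _))
         (CovZ.n1 (-18240, 20736) (by decide +kernel)
          (CovZ.leaf K2_ok TB_l22562 _)
          (CovZ.leaf K2_ok TB_l22563 _)))
        (CovZ.n1 (-17856, 20928) (by decide +kernel)
         (CovZ.n2 (-17856, 20736) (by decide +kernel)
          (CovZ.n2 (-17952, 20832) (by decide +kernel)
           (CovZ.leaf K2_ok TB_l22564 _)
           (CovZ.leaf K2_ok TB_l22565 _))
          (CovZ.n1 (-17760, 20832) (by decide +kernel)
           (CovZ.leaf K2_ok TB_l22566 _)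
           (CovZ.leaf K2_ok TB_l22567 _)))
         (CovZ.n1 (-18048, 20928) (by decide +kernel)
          (CovZ.n2 (-17952, 21024) (by decide +kernel)
           (CovZ.leaf K2_ok TB_l22568 _)
           (CovZ.leaf K2_ok TB_l22569 _))
          (CovZ.n1 (-17952, 20832) (by decide +kernel)
           (CovZ.leaf K2_ok TB_l22570 _)
           (CovZ.leaf K2_ok TB_l22571 _)))))
       (CovZ.n1 (-18432, 21120) (by decide +kernel)
        (CovZ.n2 (-18240, 21312) (by decide +kernel)
         (CovZ.n2 (-18240, 21120) (by decide +kernel)
          (CovZ.leaf K2_ok TB_l22572 _)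
          (CovZ.leaf K2_ok TB_l22573 _))
         (CovZ.n1 (-18432, 21312) (by decide +kernel)
          (CovZ.leaf K2_ok TB_l22574 _)
          (CovZ.leaf K2_ok TB_l22575 _)))
        (CovZ.n1 (-18240, 20928) (by decide +kernel)
         (CovZ.n2 (-18432, 20928) (by decide +kernel)
          (CovZ.leaf K2_ok TB_l22576 _)
          (CovZ.leaf K2_ok TB_l22577 _))
         (CovZ.n1 (-18240, 21120) (by decide +kernel)
          (CovZ.leaf K2_ok TB_l22578 _)
          (CovZ.leaf K2_ok TB_l22579 _))))))
     (CovZ.n1 (-18048, 20352) (by decide +kernel)
      (CovZ.n2 (-18432, 20352) (by decide +kernel)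
       (CovZ.n2 (-18240, 20544) (by decide +kernel)
        (CovZ.n2 (-18240, 20352) (by decide +kernel)
         (CovZ.leaf K2_ok TB_l22580 _)
         (CovZ.leaf K2_ok TB_l22581 _))
        (CovZ.leaf K2_ok TB_l22582 _))
       (CovZ.n1 (-18240, 20160) (by decide +kernel)
        (CovZ.leaf K2_ok TB_l22583 _)
        (CovZ.leaf K2_ok TB_l22584 _)))
      (CovZ.n1 (-18048, 20736) (by decide +kernel)
       (CovZ.subM 2404907604760405225489198433628046248133965514751947370339842834136887999315650715671793549283146521464816173056 (by decide +kernel)
        (CovZ.n2 (-17856, 20544) (by decide +kernel)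
         (CovZ.n2 (-18048, 20544) (by decide +kernel)
          (CovZ.leaf K2_ok TB_l22585 _)
          (CovZ.leaf K2_ok TB_l22586 _))
         (CovZ.n1 (-17856, 20736) (by decide +kernel)
          (CovZ.n2 (-17760, 20640) (by decide +kernel)
           (CovZ.leaf K2_ok TB_l22587 _)
           (CovZ.leaf K2_ok TB_l22588 _))
          (CovZ.n1 (-17952, 20640) (by decide +kernel)
           (CovZ.leaf K2_ok TB_l22589 _)
           (CovZ.leaf K2_ok TB_l22590 _)))))
       (CovZ.subM 2404907604795401237085726624418006167975758219281402657663149224431792475748225297998612483968572639985671503872 (by decide +kernel)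
        (CovZ.n1 (-18240, 20544) (by decide +kernel)
         (CovZ.n2 (-18240, 20736) (by decide +kernel)
          (CovZ.leaf K2_ok TB_l22591 _)
          (CovZ.leaf K2_ok TB_l22592 _))
         (CovZ.n1 (-18048, 20544) (by decide +kernel)
          (CovZ.leaf K2_ok TB_l22593 _)
          (CovZ.leaf K2_ok TB_l22594 _)))))))

theorem TB_u432 : CovZ TB_M (toL (selN TB_LN 2705521055390451890320765292049744978040034184912271259239043480451290447945503145997844097081217175167801917440)) [0, 7, 6, 1] (-17664, 20736) (-16896, 21504) (-18432, 21504) :=
    (CovZ.n1 (-17664, 21504) (by decide +kernel)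
     (CovZ.n2 (-17280, 21120) (by decide +kernel)
      (CovZ.subM 2404907604760405225489198433628046248134296788466613317220149779418146638905006866288528569385079642213704695808 (by decide +kernel)
       (CovZ.n2 (-17664, 21120) (by decide +kernel)
        (CovZ.n2 (-17472, 21312) (by decide +kernel)
         (CovZ.n2 (-17472, 21120) (by decide +kernel)
          (CovZ.n2 (-17568, 21216) (by decide +kernel)
           (CovZ.n2 (-17472, 21216) (by decide +kernel)
            (CovZ.leaf K2_ok TB_l22595 _)
            (CovZ.leaf K2_ok TB_l22596 _))
           (CovZ.n1 (-17568, 21120) (by decide +kernel)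
            (CovZ.leaf K2_ok TB_l22597 _)
            (CovZ.leaf K2_ok TB_l22598 _)))
          (CovZ.n1 (-17376, 21216) (by decide +kernel)
           (CovZ.n2 (-17376, 21120) (by decide +kernel)
            (CovZ.leaf K2_ok TB_l22599 _)
            (CovZ.leaf K2_ok TB_l22600 _))
           (CovZ.n1 (-17472, 21216) (by decide +kernel)
            (CovZ.leaf K2_ok TB_l22601 _)
            (CovZ.leaf K2_ok TB_l22602 _))))
         (CovZ.n1 (-17664, 21312) (by decide +kernel)
          (CovZ.n2 (-17568, 21408) (by decide +kernel)
           (CovZ.n2 (-17568, 21312) (by decide +kernel)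
            (CovZ.leaf K2_ok TB_l22603 _)
            (CovZ.leaf K2_ok TB_l22604 _))
           (CovZ.leaf K2_ok TB_l22605 _))
          (CovZ.n1 (-17568, 21216) (by decide +kernel)
           (CovZ.leaf K2_ok TB_l22606 _)
           (CovZ.n1 (-17568, 21312) (by decide +kernel)
            (CovZ.leaf K2_ok TB_l22607 _)
            (CovZ.leaf K2_ok TB_l22608 _)))))
        (CovZ.n1 (-17472, 20928) (by decide +kernel)
         (CovZ.n2 (-17664, 20928) (by decide +kernel)
          (CovZ.n2 (-17568, 21024) (by decide +kernel)
           (CovZ.n2 (-17568, 20928) (by decide +kernel)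
            (CovZ.leaf K2_ok TB_l22609 _)
            (CovZ.leaf K2_ok TB_l22610 _))
           (CovZ.leaf K2_ok TB_l22611 _))
          (CovZ.n1 (-17568, 20832) (by decide +kernel)
           (CovZ.leaf K2_ok TB_l22612 _)
           (CovZ.n1 (-17568, 20928) (by decide +kernel)
            (CovZ.leaf K2_ok TB_l22613 _)
            (CovZ.leaf K2_ok TB_l22614 _))))
         (CovZ.n1 (-17472, 21120) (by decide +kernel)
          (CovZ.n2 (-17376, 21024) (by decide +kernel)
           (CovZ.n2 (-17472, 21024) (by decide +kernel)
            (CovZ.leaf K2_ok TB_l22615 _)
            (CovZ.leaf K2_ok TB_l22616 _))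
           (CovZ.n1 (-17376, 21120) (by decide +kernel)
            (CovZ.leaf K2_ok TB_l22617 _)
            (CovZ.leaf K2_ok TB_l22618 _)))
          (CovZ.n1 (-17568, 21024) (by decide +kernel)
           (CovZ.n2 (-17568, 21120) (by decide +kernel)
            (CovZ.leaf K2_ok TB_l22619 _)
            (CovZ.leaf K2_ok TB_l22620 _))
           (CovZ.leaf K2_ok TB_l22621 _))))))
      (CovZ.subM 2705521055355455878659051950017081387638380703853704865388789306396338255606950521477588915356486370549884420096 (by decide +kernel)
       (CovZ.n1 (-17280, 21504) (by decide +kernel)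
        (CovZ.n2 (-17088, 21312) (by decide +kernel)
         (CovZ.n2 (-17280, 21312) (by decide +kernel)
          (CovZ.n2 (-17184, 21408) (by decide +kernel)
           (CovZ.n2 (-17184, 21312) (by decide +kernel)
            (CovZ.leaf K2_ok TB_l22622 _)
            (CovZ.n1 (-17136, 21360) (by decide +kernel)
             (CovZ.leaf K2_ok TB_l22623 _)
             (CovZ.leaf K2_ok TB_l22624 _)))
           (CovZ.n1 (-17280, 21408) (by decide +kernel)
            (CovZ.leaf K2_ok TB_l22625 _)
            (CovZ.leaf K2_ok TB_l22626 _)))
          (CovZ.n1 (-17184, 21216) (by decide +kernel)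
           (CovZ.n2 (-17280, 21216) (by decide +kernel)
            (CovZ.leaf K2_ok TB_l22627 _)
            (CovZ.leaf K2_ok TB_l22628 _))
           (CovZ.n1 (-17184, 21312) (by decide +kernel)
            (CovZ.n2 (-17136, 21264) (by decide +kernel)
             (CovZ.leaf K2_ok TB_l22629 _)
             (CovZ.leaf K2_ok TB_l22630 _))
            (CovZ.leaf K2_ok TB_l22631 _))))
         (CovZ.n1 (-17088, 21504) (by decide +kernel)
          (CovZ.n2 (-16992, 21408) (by decide +kernel)
           (CovZ.n2 (-17088, 21408) (by decide +kernel)
            (CovZ.n2 (-17040, 21456) (by decide +kernel)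
             (CovZ.leaf K2_ok TB_l22632 _)
             (CovZ.leaf K2_ok TB_l22633 _))
            (CovZ.n1 (-17040, 21360) (by decide +kernel)
             (CovZ.leaf K2_ok TB_l22634 _)
             (CovZ.leaf K2_ok TB_l22635 _)))
           (CovZ.n1 (-16992, 21504) (by decide +kernel)
            (CovZ.n2 (-16944, 21456) (by decide +kernel)
             (CovZ.leaf K2_ok TB_l22636 _)
             (CovZ.n1 (-16944, 21504) (by decide +kernel)
              (CovZ.leaf K2_ok TB_l22637 _)
              (CovZ.leaf K2_ok TB_l22638 _)))
            (CovZ.n1 (-17040, 21456) (by decide +kernel)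
             (CovZ.leaf K2_ok TB_l22639 _)
             (CovZ.leaf K2_ok TB_l22640 _))))
          (CovZ.n1 (-17184, 21408) (by decide +kernel)
           (CovZ.n2 (-17184, 21504) (by decide +kernel)
            (CovZ.n2 (-17136, 21456) (by decide +kernel)
             (CovZ.leaf K2_ok TB_l22641 _)
             (CovZ.leaf K2_ok TB_l22642 _))
            (CovZ.leaf K2_ok TB_l22643 _))
           (CovZ.n1 (-17088, 21408) (by decide +kernel)
            (CovZ.n2 (-17136, 21360) (by decide +kernel)
             (CovZ.leaf K2_ok TB_l22644 _)
             (CovZ.leaf K2_ok TB_l22645 _))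
            (CovZ.n1 (-17136, 21456) (by decide +kernel)
             (CovZ.leaf K2_ok TB_l22646 _)
             (CovZ.leaf K2_ok TB_l22647 _))))))
        (CovZ.n1 (-17472, 21312) (by decide +kernel)
         (CovZ.n2 (-17472, 21504) (by decide +kernel)
          (CovZ.n2 (-17376, 21408) (by decide +kernel)
           (CovZ.n2 (-17472, 21408) (by decide +kernel)
            (CovZ.leaf K2_ok TB_l22648 _)
            (CovZ.leaf K2_ok TB_l22649 _))
           (CovZ.n1 (-17376, 21504) (by decide +kernel)
            (CovZ.leaf K2_ok TB_l22650 _)
            (CovZ.leaf K2_ok TB_l22651 _)))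
          (CovZ.n1 (-17568, 21408) (by decide +kernel)
           (CovZ.n2 (-17568, 21504) (by decide +kernel)
            (CovZ.leaf K2_ok TB_l22652 _)
            (CovZ.leaf K2_ok TB_l22653 _))
           (CovZ.n1 (-17472, 21408) (by decide +kernel)
            (CovZ.leaf K2_ok TB_l22654 _)
            (CovZ.leaf K2_ok TB_l22655 _))))
         (CovZ.n1 (-17280, 21312) (by decide +kernel)
          (CovZ.n2 (-17376, 21216) (by decide +kernel)
           (CovZ.n2 (-17376, 21312) (by decide +kernel)
            (CovZ.leaf K2_ok TB_l22656 _)
            (CovZ.leaf K2_ok TB_l22657 _))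
           (CovZ.n1 (-17280, 21216) (by decide +kernel)
            (CovZ.leaf K2_ok TB_l22658 _)
            (CovZ.leaf K2_ok TB_l22659 _)))
          (CovZ.n1 (-17376, 21408) (by decide +kernel)
           (CovZ.n2 (-17280, 21408) (by decide +kernel)
            (CovZ.leaf K2_ok TB_l22660 _)
            (CovZ.leaf K2_ok TB_l22661 _))
           (CovZ.n1 (-17376, 21312) (by decide +kernel)
            (CovZ.leaf K2_ok TB_l22662 _)
            (CovZ.leaf K2_ok TB_l22663 _))))))))
     (CovZ.subM 2404907604795401237085726624418006283767737018546069432032045354025773238978609243301499679417125451495752499200 (by decide +kernel)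
      (CovZ.n1 (-18048, 21120) (by decide +kernel)
       (CovZ.n2 (-18048, 21504) (by decide +kernel)
        (CovZ.n2 (-17856, 21312) (by decide +kernel)
         (CovZ.n2 (-18048, 21312) (by decide +kernel)
          (CovZ.n2 (-17952, 21408) (by decide +kernel)
           (CovZ.leaf K2_ok TB_l22664 _)
           (CovZ.leaf K2_ok TB_l22665 _))
          (CovZ.n1 (-17952, 21216) (by decide +kernel)
           (CovZ.leaf K2_ok TB_l22666 _)
           (CovZ.leaf K2_ok TB_l22667 _)))
         (CovZ.n1 (-17856, 21504) (by decide +kernel)
          (CovZ.n2 (-17760, 21408) (by decide +kernel)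
           (CovZ.leaf K2_ok TB_l22668 _)
           (CovZ.leaf K2_ok TB_l22669 _))
          (CovZ.n1 (-17952, 21408) (by decide +kernel)
           (CovZ.leaf K2_ok TB_l22670 _)
           (CovZ.leaf K2_ok TB_l22671 _))))
        (CovZ.n1 (-18240, 21312) (by decide +kernel)
         (CovZ.n2 (-18240, 21504) (by decide +kernel)
          (CovZ.leaf K2_ok TB_l22672 _)
          (CovZ.leaf K2_ok TB_l22673 _))
         (CovZ.n1 (-18048, 21312) (by decide +kernel)
          (CovZ.leaf K2_ok TB_l22674 _)
          (CovZ.leaf K2_ok TB_l22675 _))))
       (CovZ.n1 (-17664, 21120) (by decide +kernel)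
        (CovZ.n2 (-17856, 20928) (by decide +kernel)
         (CovZ.n2 (-17856, 21120) (by decide +kernel)
          (CovZ.n2 (-17760, 21024) (by decide +kernel)
           (CovZ.leaf K2_ok TB_l22676 _)
           (CovZ.leaf K2_ok TB_l22677 _))
          (CovZ.n1 (-17952, 21024) (by decide +kernel)
           (CovZ.leaf K2_ok TB_l22678 _)
           (CovZ.leaf K2_ok TB_l22679 _)))
         (CovZ.n1 (-17664, 20928) (by decide +kernel)
          (CovZ.n2 (-17760, 20832) (by decide +kernel)
           (CovZ.leaf K2_ok TB_l22680 _)
           (CovZ.leaf K2_ok TB_l22681 _))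
          (CovZ.n1 (-17760, 21024) (by decide +kernel)
           (CovZ.leaf K2_ok TB_l22682 _)
           (CovZ.leaf K2_ok TB_l22683 _))))
        (CovZ.n1 (-17856, 21312) (by decide +kernel)
         (CovZ.n2 (-17664, 21312) (by decide +kernel)
          (CovZ.n2 (-17760, 21216) (by decide +kernel)
           (CovZ.leaf K2_ok TB_l22684 _)
           (CovZ.leaf K2_ok TB_l22685 _))
          (CovZ.n1 (-17760, 21408) (by decide +kernel)
           (CovZ.leaf K2_ok TB_l22686 _)
           (CovZ.leaf K2_ok TB_l22687 _)))
         (CovZ.n1 (-17856, 21120) (by decide +kernel)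
          (CovZ.n2 (-17952, 21216) (by decide +kernel)
           (CovZ.leaf K2_ok TB_l22688 _)
           (CovZ.leaf K2_ok TB_l22689 _))
          (CovZ.n1 (-17760, 21216) (by decide +kernel)
           (CovZ.leaf K2_ok TB_l22690 _)
           (CovZ.leaf K2_ok TB_l22691 _))))))))

theorem TB_u433 : CovZ TB_M (toL (selN TB_LN 4697085165547666455778961193593495442285140070459523271127258101609898620497341661687614052456438922897129488)) [0, 7, 6, 1] (-15360, 20736) (-15360, 21120) (-15744, 21120) :=
    (CovZ.n2 (-15552, 20928) (by decide +kernel)
         (CovZ.subM 110427941548649020598956093797129305526671845334939804644810606822555664 (by decide +kernel)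
          (CovZ.n2 (-15552, 21120) (by decide +kernel)
           (CovZ.n2 (-15456, 21024) (by decide +kernel)
            (CovZ.n2 (-15552, 21024) (by decide +kernel)
             (CovZ.subM 16 (by decide +kernel)
              (CovZ.n2 (-15504, 21072) (by decide +kernel)
               (CovZ.n2 (-15504, 21024) (by decide +kernel)
                (CovZ.leaf K2_ok TB_l28856 _)
                (CovZ.badM (by decide +kernel)))
               (CovZ.n1 (-15552, 21072) (by decide +kernel)
                (CovZ.n2 (-15528, 21096) (by decide +kernel)
                 (CovZ.leaf K2_ok TB_l28859 _)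
                 (CovZ.leaf K2_ok TB_l28860 _))
                (CovZ.n1 (-15528, 21048) (by decide +kernel)
                 (CovZ.leaf K2_ok TB_l28861 _)
                 (CovZ.leaf K2_ok TB_l28862 _)))))
             (CovZ.n1 (-15504, 20976) (by decide +kernel)
              (CovZ.leaf K2_ok TB_l28863 _)
              (CovZ.n1 (-15504, 21024) (by decide +kernel)
               (CovZ.leaf K2_ok TB_l28864 _)
               (CovZ.leaf K2_ok TB_l28865 _))))
            (CovZ.subM 16 (by decide +kernel)
             (CovZ.n1 (-15456, 21120) (by decide +kernel)
              (CovZ.badM (by decide +kernel))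
              (CovZ.n1 (-15504, 21072) (by decide +kernel)
               (CovZ.n2 (-15504, 21120) (by decide +kernel)
                (CovZ.badM (by decide +kernel))
                (CovZ.n1 (-15528, 21096) (by decide +kernel)
                 (CovZ.leaf K2_ok TB_l44316 _)
                 (CovZ.badM (by decide +kernel))))
               (CovZ.badM (by decide +kernel))))))
           (CovZ.n1 (-15648, 21024) (by decide +kernel)
            (CovZ.subM 696898287454081973172991196020265592029200 (by decide +kernel)
             (CovZ.n2 (-15648, 21120) (by decide +kernel)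
              (CovZ.n2 (-15600, 21072) (by decide +kernel)
               (CovZ.n2 (-15648, 21072) (by decide +kernel)
                (CovZ.n2 (-15624, 21096) (by decide +kernel)
                 (CovZ.leaf K2_ok TB_l44317 _)
                 (CovZ.leaf K2_ok TB_l44318 _))
                (CovZ.n1 (-15624, 21048) (by decide +kernel)
                 (CovZ.leaf K2_ok TB_l28873 _)
                 (CovZ.leaf K2_ok TB_l28874 _)))
               (CovZ.n1 (-15600, 21120) (by decide +kernel)
                (CovZ.n2 (-15576, 21096) (by decide +kernel)
                 (CovZ.leaf K2_ok TB_l44319 _)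
                 (CovZ.leaf K2_ok TB_l44320 _))
                (CovZ.n1 (-15624, 21096) (by decide +kernel)
                 (CovZ.n2 (-15624, 21120) (by decide +kernel)
                  (CovZ.leaf K2_ok TB_l44321 _)
                  (CovZ.leaf K2_ok TB_l44322 _))
                 (CovZ.leaf K2_ok TB_l44323 _))))
              (CovZ.n1 (-15696, 21072) (by decide +kernel)
               (CovZ.n2 (-15696, 21120) (by decide +kernel)
                (CovZ.n2 (-15672, 21096) (by decide +kernel)
                 (CovZ.leaf K2_ok TB_l44324 _)
                 (CovZ.n1 (-15672, 21120) (by decide +kernel)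
                  (CovZ.leaf K2_ok TB_l44325 _)
                  (CovZ.leaf K2_ok TB_l44326 _)))
                (CovZ.n1 (-15720, 21096) (by decide +kernel)
                 (CovZ.n2 (-15720, 21120) (by decide +kernel)
                  (CovZ.leaf K2_ok TB_l44327 _)
                  (CovZ.leaf K2_ok TB_l28875 _))
                 (CovZ.n1 (-15696, 21096) (by decide +kernel)
                  (CovZ.leaf K2_ok TB_l44328 _)
                  (CovZ.leaf K2_ok TB_l44329 _))))
               (CovZ.n1 (-15648, 21072) (by decide +kernel)
                (CovZ.n2 (-15672, 21048) (by decide +kernel)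
                 (CovZ.leaf K2_ok TB_l28876 _)
                 (CovZ.leaf K2_ok TB_l28877 _))
                (CovZ.n1 (-15672, 21096) (by decide +kernel)
                 (CovZ.leaf K2_ok TB_l44330 _)
                 (CovZ.leaf K2_ok TB_l44331 _))))))
            (CovZ.n1 (-15552, 21024) (by decide +kernel)
             (CovZ.n2 (-15600, 20976) (by decide +kernel)
              (CovZ.n2 (-15600, 21024) (by decide +kernel)
               (CovZ.n2 (-15576, 21000) (by decide +kernel)
                (CovZ.leaf K2_ok TB_l28878 _)
                (CovZ.leaf K2_ok TB_l28879 _))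
               (CovZ.leaf K2_ok TB_l28880 _))
              (CovZ.n1 (-15552, 20976) (by decide +kernel)
               (CovZ.leaf K2_ok TB_l28881 _)
               (CovZ.leaf K2_ok TB_l28882 _)))
             (CovZ.subM 4294967312 (by decide +kernel)
              (CovZ.n1 (-15600, 21072) (by decide +kernel)
               (CovZ.n2 (-15552, 21072) (by decide +kernel)
                (CovZ.n2 (-15576, 21048) (by decide +kernel)
                 (CovZ.leaf K2_ok TB_l28883 _)
                 (CovZ.leaf K2_ok TB_l28884 _))
                (CovZ.n1 (-15576, 21096) (by decide +kernel)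
                 (CovZ.leaf K2_ok TB_l28885 _)
                 (CovZ.leaf K2_ok TB_l28886 _)))
               (CovZ.n1 (-15600, 21024) (by decide +kernel)
                (CovZ.n2 (-15624, 21048) (by decide +kernel)
                 (CovZ.leaf K2_ok TB_l28887 _)
                 (CovZ.leaf K2_ok TB_l28888 _))
                (CovZ.leaf K2_ok TB_l28889 _))))))))
         (CovZ.n1 (-15360, 20928) (by decide +kernel)
          (CovZ.n2 (-15456, 20832) (by decide +kernel)
           (CovZ.n2 (-15456, 20928) (by decide +kernel)
            (CovZ.n2 (-15408, 20880) (by decide +kernel)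
             (CovZ.leaf K2_ok TB_l28890 _)
             (CovZ.n1 (-15408, 20928) (by decide +kernel)
              (CovZ.leaf K2_ok TB_l28891 _)
              (CovZ.leaf K2_ok TB_l28892 _)))
            (CovZ.n1 (-15504, 20880) (by decide +kernel)
             (CovZ.leaf K2_ok TB_l28893 _)
             (CovZ.leaf K2_ok TB_l28894 _)))
           (CovZ.n1 (-15360, 20832) (by decide +kernel)
            (CovZ.n2 (-15408, 20784) (by decide +kernel)
             (CovZ.leaf K2_ok TB_l28895 _)
             (CovZ.leaf K2_ok TB_l28896 _))
            (CovZ.n1 (-15408, 20880) (by decide +kernel)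
             (CovZ.n2 (-15360, 20880) (by decide +kernel)
              (CovZ.leaf K2_ok TB_l28897 _)
              (CovZ.leaf K2_ok TB_l28898 _))
             (CovZ.leaf K2_ok TB_l28899 _))))
          (CovZ.n1 (-15456, 21024) (by decide +kernel)
           (CovZ.n2 (-15360, 21024) (by decide +kernel)
            (CovZ.n2 (-15408, 20976) (by decide +kernel)
             (CovZ.subM 35188667056128 (by decide +kernel)
              (CovZ.n2 (-15408, 21024) (by decide +kernel)
               (CovZ.n2 (-15384, 21000) (by decide +kernel)
                (CovZ.leaf K2_ok TB_l44332 _)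
                (CovZ.badM (by decide +kernel)))
               (CovZ.n1 (-15432, 21000) (by decide +kernel)
                (CovZ.leaf K2_ok TB_l44333 _)
                (CovZ.n1 (-15408, 21000) (by decide +kernel)
                 (CovZ.leaf K2_ok TB_l44334 _)
                 (CovZ.leaf K2_ok TB_l44335 _)))))
             (CovZ.subM 4697085165547666455778961193593495442285032230672854668568079433548853643687193031136750898961451861384626176 (by decide +kernel)
              (CovZ.n1 (-15360, 20976) (by decide +kernel)
               (CovZ.n2 (-15384, 20952) (by decide +kernel)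
                (CovZ.n2 (-15384, 20976) (by decide +kernel)
                 (CovZ.leaf K2_ok TB_l28900 _)
                 (CovZ.leaf K2_ok TB_l28901 _))
                (CovZ.n1 (-15360, 20952) (by decide +kernel)
                 (CovZ.leaf K2_ok TB_l28902 _)
                 (CovZ.leaf K2_ok TB_l28903 _)))
               (CovZ.n1 (-15384, 21000) (by decide +kernel)
                (CovZ.badM (by decide +kernel))
                (CovZ.n1 (-15384, 20976) (by decide +kernel)
                 (CovZ.leaf K2_ok TB_l44336 _)
                 (CovZ.badM (by decide +kernel)))))))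
            (CovZ.subM 35184372088832 (by decide +kernel)
             (CovZ.n1 (-15408, 21072) (by decide +kernel)
              (CovZ.badM (by decide +kernel))
              (CovZ.n1 (-15408, 21024) (by decide +kernel)
               (CovZ.n2 (-15432, 21048) (by decide +kernel)
                (CovZ.n2 (-15408, 21048) (by decide +kernel)
                 (CovZ.leaf K2_ok TB_l44337 _)
                 (CovZ.badM (by decide +kernel)))
                (CovZ.n1 (-15432, 21024) (by decide +kernel)
                 (CovZ.badM (by decide +kernel))
                 (CovZ.leaf K2_ok TB_l44338 _)))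
               (CovZ.badM (by decide +kernel))))))
           (CovZ.n1 (-15456, 20928) (by decide +kernel)
            (CovZ.subM 110427941548649020598956093796432407239217763361766813448790345525493776 (by decide +kernel)
             (CovZ.n2 (-15504, 20976) (by decide +kernel)
              (CovZ.n2 (-15456, 20976) (by decide +kernel)
               (CovZ.leaf K2_ok TB_l28904 _)
               (CovZ.n1 (-15480, 21000) (by decide +kernel)
                (CovZ.leaf K2_ok TB_l44339 _)
                (CovZ.leaf K2_ok TB_l28905 _)))
              (CovZ.leaf K2_ok TB_l28906 _)))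
            (CovZ.n1 (-15408, 20976) (by decide +kernel)
             (CovZ.n2 (-15408, 20928) (by decide +kernel)
              (CovZ.leaf K2_ok TB_l28907 _)
              (CovZ.n1 (-15384, 20952) (by decide +kernel)
               (CovZ.leaf K2_ok TB_l28908 _)
               (CovZ.leaf K2_ok TB_l28909 _)))
             (CovZ.n1 (-15456, 20976) (by decide +kernel)
              (CovZ.n2 (-15432, 21000) (by decide +kernel)
               (CovZ.leaf K2_ok TB_l44340 _)
               (CovZ.leaf K2_ok TB_l44341 _))
              (CovZ.leaf K2_ok TB_l28910 _)))))))

theorem TB_u434 : CovZ TB_M (toL (selN TB_LN 4697085165547666455778961193593495442285140070459523271127258101609898620497341661687614052456438922897129488)) [0, 7, 6, 1] (-15360, 21120) (-15360, 21504) (-15744, 21120) :=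
    (CovZ.subM 696898287454081973172991196020261297061904 (by decide +kernel)
         (CovZ.n1 (-15552, 21312) (by decide +kernel)
          (CovZ.n2 (-15360, 21312) (by decide +kernel)
           (CovZ.n2 (-15456, 21216) (by decide +kernel)
            (CovZ.badM (by decide +kernel))
            (CovZ.badM (by decide +kernel)))
           (CovZ.badM (by decide +kernel)))
          (CovZ.n1 (-15552, 21120) (by decide +kernel)
           (CovZ.n2 (-15648, 21216) (by decide +kernel)
            (CovZ.n2 (-15552, 21216) (by decide +kernel)
             (CovZ.n2 (-15600, 21168) (by decide +kernel)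
              (CovZ.badM (by decide +kernel))
              (CovZ.n1 (-15552, 21168) (by decide +kernel)
               (CovZ.n2 (-15576, 21144) (by decide +kernel)
                (CovZ.n2 (-15576, 21168) (by decide +kernel)
                 (CovZ.leaf K2_ok TB_l44344 _)
                 (CovZ.leaf K2_ok TB_l44345 _))
                (CovZ.n1 (-15552, 21144) (by decide +kernel)
                 (CovZ.leaf K2_ok TB_l44346 _)
                 (CovZ.leaf K2_ok TB_l44347 _)))
               (CovZ.badM (by decide +kernel))))
             (CovZ.badM (by decide +kernel)))
            (CovZ.n1 (-15648, 21120) (by decide +kernel)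
             (CovZ.n2 (-15696, 21168) (by decide +kernel)
              (CovZ.n2 (-15648, 21168) (by decide +kernel)
               (CovZ.n2 (-15672, 21144) (by decide +kernel)
                (CovZ.n2 (-15672, 21168) (by decide +kernel)
                 (CovZ.leaf K2_ok TB_l44348 _)
                 (CovZ.leaf K2_ok TB_l44349 _))
                (CovZ.n1 (-15648, 21144) (by decide +kernel)
                 (CovZ.leaf K2_ok TB_l44350 _)
                 (CovZ.leaf K2_ok TB_l44351 _)))
               (CovZ.badM (by decide +kernel)))
              (CovZ.n1 (-15696, 21120) (by decide +kernel)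
               (CovZ.n2 (-15720, 21144) (by decide +kernel)
                (CovZ.n2 (-15696, 21144) (by decide +kernel)
                 (CovZ.leaf K2_ok TB_l44354 _)
                 (CovZ.leaf K2_ok TB_l44355 _))
                (CovZ.n1 (-15720, 21120) (by decide +kernel)
                 (CovZ.leaf K2_ok TB_l28911 _)
                 (CovZ.leaf K2_ok TB_l44356 _)))
               (CovZ.n1 (-15672, 21144) (by decide +kernel)
                (CovZ.n2 (-15672, 21120) (by decide +kernel)
                 (CovZ.leaf K2_ok TB_l44357 _)
                 (CovZ.leaf K2_ok TB_l44358 _))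
                (CovZ.leaf K2_ok TB_l44359 _))))
             (CovZ.n1 (-15600, 21168) (by decide +kernel)
              (CovZ.n2 (-15600, 21120) (by decide +kernel)
               (CovZ.n2 (-15624, 21144) (by decide +kernel)
                (CovZ.n2 (-15600, 21144) (by decide +kernel)
                 (CovZ.leaf K2_ok TB_l44360 _)
                 (CovZ.leaf K2_ok TB_l44361 _))
                (CovZ.n1 (-15624, 21120) (by decide +kernel)
                 (CovZ.leaf K2_ok TB_l44362 _)
                 (CovZ.leaf K2_ok TB_l44363 _)))
               (CovZ.n1 (-15576, 21144) (by decide +kernel)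
                (CovZ.leaf K2_ok TB_l44364 _)
                (CovZ.leaf K2_ok TB_l44365 _)))
              (CovZ.n1 (-15648, 21168) (by decide +kernel)
               (CovZ.badM (by decide +kernel))
               (CovZ.n1 (-15624, 21144) (by decide +kernel)
                (CovZ.leaf K2_ok TB_l44369 _)
                (CovZ.n1 (-15624, 21168) (by decide +kernel)
                 (CovZ.leaf K2_ok TB_l44370 _)
                 (CovZ.leaf K2_ok TB_l44371 _)))))))
           (CovZ.n1 (-15456, 21216) (by decide +kernel)
            (CovZ.n2 (-15456, 21120) (by decide +kernel)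
             (CovZ.n2 (-15504, 21168) (by decide +kernel)
              (CovZ.badM (by decide +kernel))
              (CovZ.n1 (-15504, 21120) (by decide +kernel)
               (CovZ.n2 (-15528, 21144) (by decide +kernel)
                (CovZ.badM (by decide +kernel))
                (CovZ.n1 (-15528, 21120) (by decide +kernel)
                 (CovZ.leaf K2_ok TB_l44372 _)
                 (CovZ.badM (by decide +kernel))))
               (CovZ.badM (by decide +kernel))))
             (CovZ.badM (by decide +kernel)))
            (CovZ.n1 (-15552, 21216) (by decide +kernel)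
             (CovZ.badM (by decide +kernel))
             (CovZ.n1 (-15504, 21168) (by decide +kernel)
              (CovZ.n2 (-15552, 21168) (by decide +kernel)
               (CovZ.badM (by decide +kernel))
               (CovZ.n1 (-15528, 21144) (by decide +kernel)
                (CovZ.n2 (-15552, 21144) (by decide +kernel)
                 (CovZ.leaf K2_ok TB_l44373 _)
                 (CovZ.leaf K2_ok TB_l44374 _))
                (CovZ.n1 (-15528, 21168) (by decide +kernel)
                 (CovZ.badM (by decide +kernel))
                 (CovZ.leaf K2_ok TB_l44375 _))))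
              (CovZ.badM (by decide +kernel))))))))

theorem TB_u435 : CovZ TB_M (toL (selN TB_LN 2710218140521003545114830911210674883087294873560456484508858420952904592112264787109874288730069419266878373904)) [0, 7, 6, 1] (-15360, 19968) (-15360, 20736) (-16128, 20736) :=
    (CovZ.n2 (-15744, 20352) (by decide +kernel)
      (CovZ.n2 (-15744, 20736) (by decide +kernel)
       (CovZ.subM 4697085165547666455778961193597316581229971504908501113632544802569056529991307800300916152728701155686875152 (by decide +kernel)
        (CovZ.n2 (-15552, 20544) (by decide +kernel)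
         (CovZ.n2 (-15744, 20544) (by decide +kernel)
          (CovZ.n2 (-15648, 20640) (by decide +kernel)
           (CovZ.n2 (-15648, 20544) (by decide +kernel)
            (CovZ.leaf K2_ok TB_l28786 _)
            (CovZ.leaf K2_ok TB_l28787 _))
           (CovZ.n1 (-15744, 20640) (by decide +kernel)
            (CovZ.leaf K2_ok TB_l28788 _)
            (CovZ.leaf K2_ok TB_l28789 _)))
          (CovZ.n1 (-15648, 20448) (by decide +kernel)
           (CovZ.leaf K2_ok TB_l28790 _)
           (CovZ.n1 (-15648, 20544) (by decide +kernel)
            (CovZ.leaf K2_ok TB_l28791 _)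
            (CovZ.leaf K2_ok TB_l28792 _))))
         (CovZ.n1 (-15552, 20736) (by decide +kernel)
          (CovZ.n2 (-15456, 20640) (by decide +kernel)
           (CovZ.n2 (-15552, 20640) (by decide +kernel)
            (CovZ.leaf K2_ok TB_l28793 _)
            (CovZ.leaf K2_ok TB_l28794 _))
           (CovZ.n1 (-15456, 20736) (by decide +kernel)
            (CovZ.leaf K2_ok TB_l28795 _)
            (CovZ.leaf K2_ok TB_l28796 _)))
          (CovZ.n1 (-15648, 20640) (by decide +kernel)
           (CovZ.n2 (-15648, 20736) (by decide +kernel)
            (CovZ.n2 (-15600, 20688) (by decide +kernel)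
             (CovZ.leaf K2_ok TB_l28797 _)
             (CovZ.leaf K2_ok TB_l28798 _))
            (CovZ.n1 (-15696, 20688) (by decide +kernel)
             (CovZ.n2 (-15696, 20736) (by decide +kernel)
              (CovZ.leaf K2_ok TB_l28799 _)
              (CovZ.leaf K2_ok TB_l28800 _))
             (CovZ.leaf K2_ok TB_l28801 _)))
           (CovZ.n1 (-15552, 20640) (by decide +kernel)
            (CovZ.leaf K2_ok TB_l28802 _)
            (CovZ.n1 (-15600, 20688) (by decide +kernel)
             (CovZ.leaf K2_ok TB_l28803 _)
             (CovZ.leaf K2_ok TB_l28804 _)))))))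
       (CovZ.n1 (-15936, 20544) (by decide +kernel)
        (CovZ.n2 (-15936, 20736) (by decide +kernel)
         (CovZ.subM 4697085165547666455778961193597316581229971504908501113632544802569056529991307800291244746171784122289225744 (by decide +kernel)
          (CovZ.n2 (-15840, 20640) (by decide +kernel)
           (CovZ.n2 (-15936, 20640) (by decide +kernel)
            (CovZ.leaf K2_ok TB_l28805 _)
            (CovZ.leaf K2_ok TB_l28806 _))
           (CovZ.n1 (-15840, 20736) (by decide +kernel)
            (CovZ.n2 (-15792, 20688) (by decide +kernel)
             (CovZ.leaf K2_ok TB_l28807 _)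
             (CovZ.leaf K2_ok TB_l28808 _))
            (CovZ.n1 (-15888, 20688) (by decide +kernel)
             (CovZ.leaf K2_ok TB_l28809 _)
             (CovZ.leaf K2_ok TB_l28810 _)))))
         (CovZ.n1 (-16032, 20640) (by decide +kernel)
          (CovZ.subM 30372843974576684692055390259340659159569525827940989581334119823945767277828374544 (by decide +kernel)
           (CovZ.n2 (-16032, 20736) (by decide +kernel)
            (CovZ.n2 (-15984, 20688) (by decide +kernel)
             (CovZ.leaf K2_ok TB_l28811 _)
             (CovZ.leaf K2_ok TB_l28812 _))
            (CovZ.n1 (-16080, 20688) (by decide +kernel)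
             (CovZ.leaf K2_ok TB_l28813 _)
             (CovZ.leaf K2_ok TB_l28814 _))))
          (CovZ.n1 (-15936, 20640) (by decide +kernel)
           (CovZ.leaf K2_ok TB_l28815 _)
           (CovZ.n1 (-15984, 20688) (by decide +kernel)
            (CovZ.leaf K2_ok TB_l28816 _)
            (CovZ.leaf K2_ok TB_l28817 _)))))
        (CovZ.subM 4697085165547666455778961193597316581229971504908501113632544802569056529991307800300916152728701155686875152 (by decide +kernel)
         (CovZ.n1 (-15744, 20544) (by decide +kernel)
          (CovZ.n2 (-15840, 20448) (by decide +kernel)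
           (CovZ.n2 (-15840, 20544) (by decide +kernel)
            (CovZ.leaf K2_ok TB_l28818 _)
            (CovZ.leaf K2_ok TB_l28819 _))
           (CovZ.n1 (-15744, 20448) (by decide +kernel)
            (CovZ.leaf K2_ok TB_l28820 _)
            (CovZ.leaf K2_ok TB_l28821 _)))
          (CovZ.n1 (-15840, 20640) (by decide +kernel)
           (CovZ.n2 (-15744, 20640) (by decide +kernel)
            (CovZ.leaf K2_ok TB_l28822 _)
            (CovZ.n1 (-15792, 20688) (by decide +kernel)
             (CovZ.leaf K2_ok TB_l28823 _)
             (CovZ.leaf K2_ok TB_l28824 _)))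
           (CovZ.n1 (-15840, 20544) (by decide +kernel)
            (CovZ.leaf K2_ok TB_l28825 _)
            (CovZ.leaf K2_ok TB_l28826 _)))))))
      (CovZ.subM 4697085165547666455778961193597316581229971504908501113632544802569056529991307800300916152728701155686875152 (by decide +kernel)
       (CovZ.n1 (-15360, 20352) (by decide +kernel)
        (CovZ.n2 (-15552, 20160) (by decide +kernel)
         (CovZ.n2 (-15552, 20352) (by decide +kernel)
          (CovZ.n2 (-15456, 20256) (by decide +kernel)
           (CovZ.leaf K2_ok TB_l28827 _)
           (CovZ.n1 (-15456, 20352) (by decide +kernel)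
            (CovZ.leaf K2_ok TB_l28828 _)
            (CovZ.leaf K2_ok TB_l28829 _)))
          (CovZ.n1 (-15648, 20256) (by decide +kernel)
           (CovZ.n2 (-15648, 20352) (by decide +kernel)
            (CovZ.leaf K2_ok TB_l28830 _)
            (CovZ.leaf K2_ok TB_l28831 _))
           (CovZ.leaf K2_ok TB_l28832 _)))
         (CovZ.n1 (-15360, 20160) (by decide +kernel)
          (CovZ.n2 (-15456, 20064) (by decide +kernel)
           (CovZ.n2 (-15456, 20160) (by decide +kernel)
            (CovZ.leaf K2_ok TB_l28833 _)
            (CovZ.leaf K2_ok TB_l28834 _))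
           (CovZ.n1 (-15360, 20064) (by decide +kernel)
            (CovZ.leaf K2_ok TB_l28835 _)
            (CovZ.leaf K2_ok TB_l28836 _)))
          (CovZ.n1 (-15456, 20256) (by decide +kernel)
           (CovZ.n2 (-15360, 20256) (by decide +kernel)
            (CovZ.leaf K2_ok TB_l28837 _)
            (CovZ.leaf K2_ok TB_l28838 _))
           (CovZ.n1 (-15456, 20160) (by decide +kernel)
            (CovZ.leaf K2_ok TB_l28839 _)
            (CovZ.leaf K2_ok TB_l28840 _)))))
        (CovZ.n1 (-15552, 20544) (by decide +kernel)
         (CovZ.n2 (-15360, 20544) (by decide +kernel)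
          (CovZ.n2 (-15456, 20448) (by decide +kernel)
           (CovZ.n2 (-15456, 20544) (by decide +kernel)
            (CovZ.leaf K2_ok TB_l28841 _)
            (CovZ.leaf K2_ok TB_l28842 _))
           (CovZ.n1 (-15360, 20448) (by decide +kernel)
            (CovZ.leaf K2_ok TB_l28843 _)
            (CovZ.leaf K2_ok TB_l28844 _)))
          (CovZ.n1 (-15456, 20640) (by decide +kernel)
           (CovZ.n2 (-15360, 20640) (by decide +kernel)
            (CovZ.leaf K2_ok TB_l28845 _)
            (CovZ.leaf K2_ok TB_l28846 _))
           (CovZ.n1 (-15456, 20544) (by decide +kernel)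
            (CovZ.leaf K2_ok TB_l28847 _)
            (CovZ.leaf K2_ok TB_l28848 _))))
         (CovZ.n1 (-15552, 20352) (by decide +kernel)
          (CovZ.n2 (-15648, 20448) (by decide +kernel)
           (CovZ.n2 (-15552, 20448) (by decide +kernel)
            (CovZ.leaf K2_ok TB_l28849 _)
            (CovZ.leaf K2_ok TB_l28850 _))
           (CovZ.n1 (-15648, 20352) (by decide +kernel)
            (CovZ.leaf K2_ok TB_l28851 _)
            (CovZ.leaf K2_ok TB_l28852 _)))
          (CovZ.n1 (-15456, 20448) (by decide +kernel)
           (CovZ.n2 (-15456, 20352) (by decide +kernel)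
            (CovZ.leaf K2_ok TB_l28853 _)
            (CovZ.leaf K2_ok TB_l28854 _))
           (CovZ.leaf K2_ok TB_l28855 _)))))))

theorem TB_u436 : CovZ TB_M (toL (selN TB_LN 2710218140521003545114830911210674883087294873560456484508858420952904592112264787109874288730069419266878373904)) [0, 7, 6, 1] (-15360, 20736) (-15360, 21504) (-16128, 20736) :=
    (CovZ.n1 (-15744, 21120) (by decide +kernel)
      (CovZ.subM 4697085165547666455778961193593495442285140070459523271127258101609898620497341661687614052456438922897129488 (by decide +kernel)
       (CovZ.n2 (-15360, 21120) (by decide +kernel)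
        TB_u433
        TB_u434))
      (CovZ.n1 (-15744, 20736) (by decide +kernel)
       (CovZ.subM 30372843974576684692055390259340659159569525827940989581334119823945767277828374544 (by decide +kernel)
        (CovZ.n2 (-15936, 20928) (by decide +kernel)
         (CovZ.n2 (-15744, 20928) (by decide +kernel)
          (CovZ.n2 (-15840, 20832) (by decide +kernel)
           (CovZ.subM 3705346966129899588871894678412774908782023558666891961892609631960256294813712 (by decide +kernel)
            (CovZ.n2 (-15840, 20928) (by decide +kernel)
             (CovZ.n2 (-15792, 20880) (by decide +kernel)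
              (CovZ.leaf K2_ok TB_l28912 _)
              (CovZ.n1 (-15792, 20928) (by decide +kernel)
               (CovZ.leaf K2_ok TB_l28913 _)
               (CovZ.leaf K2_ok TB_l28914 _)))
             (CovZ.n1 (-15888, 20880) (by decide +kernel)
              (CovZ.n2 (-15888, 20928) (by decide +kernel)
               (CovZ.leaf K2_ok TB_l28915 _)
               (CovZ.leaf K2_ok TB_l28916 _))
              (CovZ.n1 (-15840, 20880) (by decide +kernel)
               (CovZ.leaf K2_ok TB_l28917 _)
               (CovZ.leaf K2_ok TB_l28918 _)))))
           (CovZ.n1 (-15744, 20832) (by decide +kernel)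
            (CovZ.n2 (-15792, 20784) (by decide +kernel)
             (CovZ.n2 (-15792, 20832) (by decide +kernel)
              (CovZ.leaf K2_ok TB_l28919 _)
              (CovZ.leaf K2_ok TB_l28920 _))
             (CovZ.leaf K2_ok TB_l28921 _))
            (CovZ.n1 (-15792, 20880) (by decide +kernel)
             (CovZ.leaf K2_ok TB_l28922 _)
             (CovZ.n1 (-15792, 20832) (by decide +kernel)
              (CovZ.leaf K2_ok TB_l28923 _)
              (CovZ.leaf K2_ok TB_l28924 _)))))
          (CovZ.subM 107839786668602559178668061044976810148650357903782061106648565547024 (by decide +kernel)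
           (CovZ.n1 (-15840, 21024) (by decide +kernel)
            (CovZ.n2 (-15744, 21024) (by decide +kernel)
             (CovZ.n2 (-15792, 20976) (by decide +kernel)
              (CovZ.n2 (-15792, 21024) (by decide +kernel)
               (CovZ.n2 (-15768, 21000) (by decide +kernel)
                (CovZ.leaf K2_ok TB_l28925 _)
                (CovZ.leaf K2_ok TB_l28926 _))
               (CovZ.leaf K2_ok TB_l28927 _))
              (CovZ.n1 (-15744, 20976) (by decide +kernel)
               (CovZ.leaf K2_ok TB_l28928 _)
               (CovZ.n1 (-15768, 21000) (by decide +kernel)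
                (CovZ.leaf K2_ok TB_l28929 _)
                (CovZ.leaf K2_ok TB_l28930 _))))
             (CovZ.subM 696898287454081973172991205027464846770192 (by decide +kernel)
              (CovZ.n1 (-15792, 21072) (by decide +kernel)
               (CovZ.n2 (-15744, 21072) (by decide +kernel)
                (CovZ.n2 (-15768, 21048) (by decide +kernel)
                 (CovZ.leaf K2_ok TB_l28931 _)
                 (CovZ.leaf K2_ok TB_l28932 _))
                (CovZ.n1 (-15768, 21096) (by decide +kernel)
                 (CovZ.leaf K2_ok TB_l28933 _)
                 (CovZ.leaf K2_ok TB_l28934 _)))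
               (CovZ.n1 (-15792, 21024) (by decide +kernel)
                (CovZ.n2 (-15816, 21048) (by decide +kernel)
                 (CovZ.leaf K2_ok TB_l28935 _)
                 (CovZ.leaf K2_ok TB_l28936 _))
                (CovZ.n1 (-15768, 21048) (by decide +kernel)
                 (CovZ.leaf K2_ok TB_l28937 _)
                 (CovZ.leaf K2_ok TB_l28938 _))))))
            (CovZ.n1 (-15840, 20928) (by decide +kernel)
             (CovZ.n2 (-15888, 20976) (by decide +kernel)
              (CovZ.n2 (-15840, 20976) (by decide +kernel)
               (CovZ.leaf K2_ok TB_l28939 _)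
               (CovZ.n1 (-15864, 21000) (by decide +kernel)
                (CovZ.leaf K2_ok TB_l28940 _)
                (CovZ.leaf K2_ok TB_l28941 _)))
              (CovZ.n1 (-15888, 20928) (by decide +kernel)
               (CovZ.leaf K2_ok TB_l28942 _)
               (CovZ.leaf K2_ok TB_l28943 _)))
             (CovZ.n1 (-15792, 20976) (by decide +kernel)
              (CovZ.n2 (-15792, 20928) (by decide +kernel)
               (CovZ.leaf K2_ok TB_l28944 _)
               (CovZ.leaf K2_ok TB_l28945 _))
              (CovZ.n1 (-15840, 20976) (by decide +kernel)
               (CovZ.leaf K2_ok TB_l28946 _)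
               (CovZ.leaf K2_ok TB_l28947 _)))))))
         (CovZ.n1 (-15936, 20736) (by decide +kernel)
          (CovZ.n2 (-16032, 20832) (by decide +kernel)
           (CovZ.n2 (-15936, 20832) (by decide +kernel)
            (CovZ.n2 (-15984, 20784) (by decide +kernel)
             (CovZ.n2 (-15984, 20832) (by decide +kernel)
              (CovZ.leaf K2_ok TB_l28948 _)
              (CovZ.leaf K2_ok TB_l28949 _))
             (CovZ.leaf K2_ok TB_l28950 _))
            (CovZ.n1 (-15984, 20880) (by decide +kernel)
             (CovZ.n2 (-15936, 20880) (by decide +kernel)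
              (CovZ.leaf K2_ok TB_l28951 _)
              (CovZ.leaf K2_ok TB_l28952 _))
             (CovZ.n1 (-15984, 20832) (by decide +kernel)
              (CovZ.leaf K2_ok TB_l28953 _)
              (CovZ.leaf K2_ok TB_l28954 _))))
           (CovZ.n1 (-16032, 20736) (by decide +kernel)
            (CovZ.n2 (-16080, 20784) (by decide +kernel)
             (CovZ.leaf K2_ok TB_l28955 _)
             (CovZ.leaf K2_ok TB_l28956 _))
            (CovZ.n1 (-15984, 20784) (by decide +kernel)
             (CovZ.leaf K2_ok TB_l28957 _)
             (CovZ.leaf K2_ok TB_l28958 _))))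
          (CovZ.n1 (-15840, 20832) (by decide +kernel)
           (CovZ.n2 (-15840, 20736) (by decide +kernel)
            (CovZ.n2 (-15888, 20784) (by decide +kernel)
             (CovZ.leaf K2_ok TB_l28959 _)
             (CovZ.leaf K2_ok TB_l28960 _))
            (CovZ.n1 (-15792, 20784) (by decide +kernel)
             (CovZ.leaf K2_ok TB_l28961 _)
             (CovZ.leaf K2_ok TB_l28962 _)))
           (CovZ.n1 (-15936, 20832) (by decide +kernel)
            (CovZ.n2 (-15888, 20880) (by decide +kernel)
             (CovZ.n2 (-15888, 20832) (by decide +kernel)
              (CovZ.leaf K2_ok TB_l28963 _)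
              (CovZ.leaf K2_ok TB_l28964 _))
             (CovZ.leaf K2_ok TB_l28965 _))
            (CovZ.n1 (-15888, 20784) (by decide +kernel)
             (CovZ.leaf K2_ok TB_l28966 _)
             (CovZ.n1 (-15888, 20832) (by decide +kernel)
              (CovZ.leaf K2_ok TB_l28967 _)
              (CovZ.leaf K2_ok TB_l28968 _))))))))
       (CovZ.subM 4697085165547666455778961193597200789140734188713077542647536114661203260006642159736876695144692143045607440 (by decide +kernel)
        (CovZ.n1 (-15552, 20928) (by decide +kernel)
         (CovZ.n2 (-15552, 20736) (by decide +kernel)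
          (CovZ.n2 (-15648, 20832) (by decide +kernel)
           (CovZ.n2 (-15552, 20832) (by decide +kernel)
            (CovZ.n2 (-15600, 20784) (by decide +kernel)
             (CovZ.n2 (-15600, 20832) (by decide +kernel)
              (CovZ.leaf K2_ok TB_l28969 _)
              (CovZ.leaf K2_ok TB_l28970 _))
             (CovZ.leaf K2_ok TB_l28971 _))
            (CovZ.n1 (-15600, 20880) (by decide +kernel)
             (CovZ.leaf K2_ok TB_l28972 _)
             (CovZ.leaf K2_ok TB_l28973 _)))
           (CovZ.n1 (-15648, 20736) (by decide +kernel)
            (CovZ.n2 (-15696, 20784) (by decide +kernel)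
             (CovZ.leaf K2_ok TB_l28974 _)
             (CovZ.leaf K2_ok TB_l28975 _))
            (CovZ.n1 (-15600, 20784) (by decide +kernel)
             (CovZ.leaf K2_ok TB_l28976 _)
             (CovZ.leaf K2_ok TB_l28977 _))))
          (CovZ.n1 (-15456, 20832) (by decide +kernel)
           (CovZ.n2 (-15456, 20736) (by decide +kernel)
            (CovZ.n2 (-15504, 20784) (by decide +kernel)
             (CovZ.leaf K2_ok TB_l28978 _)
             (CovZ.leaf K2_ok TB_l28979 _))
            (CovZ.leaf K2_ok TB_l28980 _))
           (CovZ.n1 (-15552, 20832) (by decide +kernel)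
            (CovZ.n2 (-15504, 20880) (by decide +kernel)
             (CovZ.leaf K2_ok TB_l28981 _)
             (CovZ.leaf K2_ok TB_l28982 _))
            (CovZ.n1 (-15504, 20784) (by decide +kernel)
             (CovZ.leaf K2_ok TB_l28983 _)
             (CovZ.leaf K2_ok TB_l28984 _)))))
         (CovZ.n1 (-15744, 20928) (by decide +kernel)
          (CovZ.subM 110427941548649020598956093797129305526671845334939804653817806077296656 (by decide +kernel)
           (CovZ.n2 (-15648, 21024) (by decide +kernel)
            (CovZ.n2 (-15648, 20928) (by decide +kernel)
             (CovZ.n2 (-15696, 20976) (by decide +kernel)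
              (CovZ.n2 (-15648, 20976) (by decide +kernel)
               (CovZ.leaf K2_ok TB_l28985 _)
               (CovZ.leaf K2_ok TB_l28986 _))
              (CovZ.n1 (-15696, 20928) (by decide +kernel)
               (CovZ.leaf K2_ok TB_l28987 _)
               (CovZ.leaf K2_ok TB_l28988 _)))
             (CovZ.n1 (-15600, 20976) (by decide +kernel)
              (CovZ.n2 (-15600, 20928) (by decide +kernel)
               (CovZ.leaf K2_ok TB_l28989 _)
               (CovZ.leaf K2_ok TB_l28990 _))
              (CovZ.leaf K2_ok TB_l28991 _)))
            (CovZ.n1 (-15744, 21024) (by decide +kernel)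
             (CovZ.subM 696898287454081973172991196020265592029200 (by decide +kernel)
              (CovZ.n2 (-15696, 21072) (by decide +kernel)
               (CovZ.n2 (-15696, 21024) (by decide +kernel)
                (CovZ.n2 (-15720, 21048) (by decide +kernel)
                 (CovZ.leaf K2_ok TB_l28992 _)
                 (CovZ.leaf K2_ok TB_l28993 _))
                (CovZ.leaf K2_ok TB_l28994 _))
               (CovZ.n1 (-15744, 21072) (by decide +kernel)
                (CovZ.n2 (-15720, 21096) (by decide +kernel)
                 (CovZ.leaf K2_ok TB_l28995 _)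
                 (CovZ.leaf K2_ok TB_l28996 _))
                (CovZ.n1 (-15720, 21048) (by decide +kernel)
                 (CovZ.leaf K2_ok TB_l28997 _)
                 (CovZ.leaf K2_ok TB_l28998 _)))))
             (CovZ.n1 (-15696, 20976) (by decide +kernel)
              (CovZ.leaf K2_ok TB_l28999 _)
              (CovZ.n1 (-15696, 21024) (by decide +kernel)
               (CovZ.leaf K2_ok TB_l29000 _)
               (CovZ.leaf K2_ok TB_l29001 _))))))
          (CovZ.n1 (-15648, 20832) (by decide +kernel)
           (CovZ.n2 (-15744, 20832) (by decide +kernel)
            (CovZ.n2 (-15696, 20880) (by decide +kernel)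
             (CovZ.leaf K2_ok TB_l29002 _)
             (CovZ.leaf K2_ok TB_l29003 _))
            (CovZ.n1 (-15696, 20784) (by decide +kernel)
             (CovZ.leaf K2_ok TB_l29004 _)
             (CovZ.n1 (-15696, 20832) (by decide +kernel)
              (CovZ.leaf K2_ok TB_l29005 _)
              (CovZ.leaf K2_ok TB_l29006 _))))
           (CovZ.n1 (-15648, 20928) (by decide +kernel)
            (CovZ.n2 (-15600, 20880) (by decide +kernel)
             (CovZ.leaf K2_ok TB_l29007 _)
             (CovZ.n1 (-15600, 20928) (by decide +kernel)
              (CovZ.leaf K2_ok TB_l29008 _)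
              (CovZ.leaf K2_ok TB_l29009 _)))
            (CovZ.n1 (-15696, 20880) (by decide +kernel)
             (CovZ.n2 (-15696, 20928) (by decide +kernel)
              (CovZ.leaf K2_ok TB_l29010 _)
              (CovZ.leaf K2_ok TB_l29011 _))
             (CovZ.leaf K2_ok TB_l29012 _)))))))))

theorem TB_u437 : CovZ TB_M (toL (selN TB_LN 2705521055355455878659051950017081387645009841329777202088110312402185996186391314279094770724000810241385201664)) [0, 7, 6, 1] (-16896, 21504) (-16896, 21120) (-16512, 21120) :=
    (CovZ.n2 (-16704, 21312) (by decide +kernel)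
         (CovZ.n2 (-16704, 21120) (by decide +kernel)
          (CovZ.n2 (-16800, 21216) (by decide +kernel)
           (CovZ.subM 30358022579972171686925575944300305621427809005251729803905941489312414932444250112 (by decide +kernel)
            (CovZ.n2 (-16704, 21216) (by decide +kernel)
             (CovZ.n2 (-16752, 21168) (by decide +kernel)
              (CovZ.n2 (-16752, 21216) (by decide +kernel)
               (CovZ.n2 (-16728, 21192) (by decide +kernel)
                (CovZ.leaf K2_ok TB_l29228 _)
                (CovZ.leaf K2_ok TB_l29229 _))
               (CovZ.leaf K2_ok TB_l29230 _))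
              (CovZ.n1 (-16704, 21168) (by decide +kernel)
               (CovZ.n2 (-16728, 21144) (by decide +kernel)
                (CovZ.leaf K2_ok TB_l29231 _)
                (CovZ.leaf K2_ok TB_l29232 _))
               (CovZ.n1 (-16728, 21192) (by decide +kernel)
                (CovZ.leaf K2_ok TB_l29233 _)
                (CovZ.leaf K2_ok TB_l29234 _))))
             (CovZ.n1 (-16752, 21264) (by decide +kernel)
              (CovZ.subM 30358022579971848167565570136622769617246764769683646158172871002442641689121128448 (by decide +kernel)
               (CovZ.n2 (-16704, 21264) (by decide +kernel)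
                (CovZ.n2 (-16728, 21240) (by decide +kernel)
                 (CovZ.leaf K2_ok TB_l29235 _)
                 (CovZ.leaf K2_ok TB_l29236 _))
                (CovZ.n1 (-16728, 21288) (by decide +kernel)
                 (CovZ.leaf K2_ok TB_l29237 _)
                 (CovZ.leaf K2_ok TB_l29238 _))))
              (CovZ.n1 (-16752, 21216) (by decide +kernel)
               (CovZ.leaf K2_ok TB_l29239 _)
               (CovZ.leaf K2_ok TB_l29240 _)))))
           (CovZ.n1 (-16800, 21120) (by decide +kernel)
            (CovZ.n2 (-16848, 21168) (by decide +kernel)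
             (CovZ.n2 (-16800, 21168) (by decide +kernel)
              (CovZ.leaf K2_ok TB_l29241 _)
              (CovZ.leaf K2_ok TB_l29242 _))
             (CovZ.n1 (-16848, 21120) (by decide +kernel)
              (CovZ.leaf K2_ok TB_l29243 _)
              (CovZ.leaf K2_ok TB_l29244 _)))
            (CovZ.subM 30358022579972171686925575944300305621427809005251729803905941489312414932444250112 (by decide +kernel)
             (CovZ.n1 (-16752, 21168) (by decide +kernel)
              (CovZ.n2 (-16752, 21120) (by decide +kernel)
               (CovZ.leaf K2_ok TB_l29245 _)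
               (CovZ.n1 (-16728, 21144) (by decide +kernel)
                (CovZ.leaf K2_ok TB_l29246 _)
                (CovZ.leaf K2_ok TB_l29247 _)))
              (CovZ.n1 (-16800, 21168) (by decide +kernel)
               (CovZ.leaf K2_ok TB_l29248 _)
               (CovZ.leaf K2_ok TB_l29249 _))))))
          (CovZ.subM 30358022579972175056918909338130279954804694882705564008548994306883975072543014912 (by decide +kernel)
           (CovZ.n1 (-16608, 21216) (by decide +kernel)
            (CovZ.n2 (-16608, 21120) (by decide +kernel)
             (CovZ.n2 (-16656, 21168) (by decide +kernel)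
              (CovZ.n2 (-16608, 21168) (by decide +kernel)
               (CovZ.n2 (-16632, 21144) (by decide +kernel)
                (CovZ.n2 (-16632, 21168) (by decide +kernel)
                 (CovZ.leaf K2_ok TB_l29250 _)
                 (CovZ.leaf K2_ok TB_l29251 _))
                (CovZ.n1 (-16608, 21144) (by decide +kernel)
                 (CovZ.leaf K2_ok TB_l29252 _)
                 (CovZ.leaf K2_ok TB_l29253 _)))
               (CovZ.n1 (-16632, 21192) (by decide +kernel)
                (CovZ.n2 (-16608, 21192) (by decide +kernel)
                 (CovZ.leaf K2_ok TB_l29254 _)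
                 (CovZ.leaf K2_ok TB_l29255 _))
                (CovZ.leaf K2_ok TB_l29256 _)))
              (CovZ.n1 (-16656, 21120) (by decide +kernel)
               (CovZ.n2 (-16680, 21144) (by decide +kernel)
                (CovZ.leaf K2_ok TB_l29257 _)
                (CovZ.leaf K2_ok TB_l29258 _))
               (CovZ.n1 (-16632, 21144) (by decide +kernel)
                (CovZ.n2 (-16632, 21120) (by decide +kernel)
                 (CovZ.leaf K2_ok TB_l29259 _)
                 (CovZ.leaf K2_ok TB_l29260 _))
                (CovZ.leaf K2_ok TB_l29261 _))))
             (CovZ.n1 (-16560, 21168) (by decide +kernel)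
              (CovZ.n2 (-16560, 21120) (by decide +kernel)
               (CovZ.n2 (-16584, 21144) (by decide +kernel)
                (CovZ.n2 (-16560, 21144) (by decide +kernel)
                 (CovZ.leaf K2_ok TB_l29262 _)
                 (CovZ.leaf K2_ok TB_l29263 _))
                (CovZ.n1 (-16584, 21120) (by decide +kernel)
                 (CovZ.leaf K2_ok TB_l29264 _)
                 (CovZ.leaf K2_ok TB_l29265 _)))
               (CovZ.n1 (-16536, 21144) (by decide +kernel)
                (CovZ.n2 (-16536, 21120) (by decide +kernel)
                 (CovZ.leaf K2_ok TB_l29266 _)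
                 (CovZ.leaf K2_ok TB_l29267 _))
                (CovZ.n1 (-16560, 21144) (by decide +kernel)
                 (CovZ.leaf K2_ok TB_l29268 _)
                 (CovZ.leaf K2_ok TB_l29269 _))))
              (CovZ.n1 (-16608, 21168) (by decide +kernel)
               (CovZ.n2 (-16584, 21192) (by decide +kernel)
                (CovZ.n2 (-16584, 21168) (by decide +kernel)
                 (CovZ.leaf K2_ok TB_l29270 _)
                 (CovZ.leaf K2_ok TB_l29271 _))
                (CovZ.leaf K2_ok TB_l29272 _))
               (CovZ.n1 (-16584, 21144) (by decide +kernel)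
                (CovZ.n2 (-16608, 21144) (by decide +kernel)
                 (CovZ.leaf K2_ok TB_l29273 _)
                 (CovZ.leaf K2_ok TB_l29274 _))
                (CovZ.n1 (-16584, 21168) (by decide +kernel)
                 (CovZ.leaf K2_ok TB_l29275 _)
                 (CovZ.leaf K2_ok TB_l29276 _))))))
            (CovZ.n1 (-16704, 21216) (by decide +kernel)
             (CovZ.subM 30358022579971848167565570136622769617246764769683646158172871002442641689121128448 (by decide +kernel)
              (CovZ.n2 (-16656, 21264) (by decide +kernel)
               (CovZ.n2 (-16656, 21216) (by decide +kernel)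
                (CovZ.n2 (-16680, 21240) (by decide +kernel)
                 (CovZ.leaf K2_ok TB_l29277 _)
                 (CovZ.leaf K2_ok TB_l29278 _))
                (CovZ.n1 (-16632, 21240) (by decide +kernel)
                 (CovZ.leaf K2_ok TB_l29279 _)
                 (CovZ.leaf K2_ok TB_l29280 _)))
               (CovZ.n1 (-16704, 21264) (by decide +kernel)
                (CovZ.n2 (-16680, 21288) (by decide +kernel)
                 (CovZ.leaf K2_ok TB_l29281 _)
                 (CovZ.leaf K2_ok TB_l29282 _))
                (CovZ.n1 (-16680, 21240) (by decide +kernel)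
                 (CovZ.leaf K2_ok TB_l29283 _)
                 (CovZ.leaf K2_ok TB_l29284 _)))))
             (CovZ.n1 (-16656, 21168) (by decide +kernel)
              (CovZ.n2 (-16704, 21168) (by decide +kernel)
               (CovZ.n2 (-16680, 21192) (by decide +kernel)
                (CovZ.leaf K2_ok TB_l29285 _)
                (CovZ.leaf K2_ok TB_l29286 _))
               (CovZ.n1 (-16680, 21144) (by decide +kernel)
                (CovZ.leaf K2_ok TB_l29287 _)
                (CovZ.leaf K2_ok TB_l29288 _)))
              (CovZ.n1 (-16656, 21216) (by decide +kernel)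
               (CovZ.n2 (-16632, 21192) (by decide +kernel)
                (CovZ.leaf K2_ok TB_l29289 _)
                (CovZ.n1 (-16632, 21216) (by decide +kernel)
                 (CovZ.leaf K2_ok TB_l29290 _)
                 (CovZ.leaf K2_ok TB_l29291 _)))
               (CovZ.n1 (-16680, 21192) (by decide +kernel)
                (CovZ.leaf K2_ok TB_l29292 _)
                (CovZ.leaf K2_ok TB_l29293 _))))))))
         (CovZ.n1 (-16896, 21312) (by decide +kernel)
          (CovZ.subM 2404907604760405225489198433628042542786995708189631765776662423647797421888246385596234186804681617060831199232 (by decide +kernel)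
           (CovZ.n2 (-16800, 21408) (by decide +kernel)
            (CovZ.n2 (-16800, 21312) (by decide +kernel)
             (CovZ.n2 (-16848, 21360) (by decide +kernel)
              (CovZ.n2 (-16800, 21360) (by decide +kernel)
               (CovZ.leaf K2_ok TB_l29294 _)
               (CovZ.leaf K2_ok TB_l29295 _))
              (CovZ.n1 (-16848, 21312) (by decide +kernel)
               (CovZ.leaf K2_ok TB_l29296 _)
               (CovZ.leaf K2_ok TB_l29297 _)))
             (CovZ.subM 30354317233116254049312015865102491604195460130174345660123608359754387369461022720 (by decide +kernel)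
              (CovZ.n1 (-16752, 21360) (by decide +kernel)
               (CovZ.n2 (-16752, 21312) (by decide +kernel)
                (CovZ.leaf K2_ok TB_l29298 _)
                (CovZ.n1 (-16728, 21336) (by decide +kernel)
                 (CovZ.leaf K2_ok TB_l29299 _)
                 (CovZ.leaf K2_ok TB_l29300 _)))
               (CovZ.n1 (-16800, 21360) (by decide +kernel)
                (CovZ.leaf K2_ok TB_l29301 _)
                (CovZ.leaf K2_ok TB_l29302 _)))))
            (CovZ.n1 (-16896, 21408) (by decide +kernel)
             (CovZ.n2 (-16848, 21456) (by decide +kernel)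
              (CovZ.n2 (-16848, 21408) (by decide +kernel)
               (CovZ.leaf K2_ok TB_l29303 _)
               (CovZ.leaf K2_ok TB_l29304 _))
              (CovZ.n1 (-16896, 21456) (by decide +kernel)
               (CovZ.leaf K2_ok TB_l29305 _)
               (CovZ.leaf K2_ok TB_l29306 _)))
             (CovZ.n1 (-16848, 21360) (by decide +kernel)
              (CovZ.n2 (-16896, 21360) (by decide +kernel)
               (CovZ.leaf K2_ok TB_l29307 _)
               (CovZ.leaf K2_ok TB_l29308 _))
              (CovZ.n1 (-16848, 21408) (by decide +kernel)
               (CovZ.leaf K2_ok TB_l29309 _)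
               (CovZ.leaf K2_ok TB_l29310 _))))))
          (CovZ.n1 (-16800, 21216) (by decide +kernel)
           (CovZ.n2 (-16896, 21216) (by decide +kernel)
            (CovZ.subM 2705521055355455878659051950017081387637938776407936932101275124685031829820948261406214611402910188683508482048 (by decide +kernel)
             (CovZ.n2 (-16848, 21264) (by decide +kernel)
              (CovZ.n2 (-16848, 21216) (by decide +kernel)
               (CovZ.leaf K2_ok TB_l29311 _)
               (CovZ.leaf K2_ok TB_l29312 _))
              (CovZ.n1 (-16896, 21264) (by decide +kernel)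
               (CovZ.leaf K2_ok TB_l29313 _)
               (CovZ.leaf K2_ok TB_l29314 _))))
            (CovZ.n1 (-16848, 21168) (by decide +kernel)
             (CovZ.n2 (-16896, 21168) (by decide +kernel)
              (CovZ.leaf K2_ok TB_l29315 _)
              (CovZ.leaf K2_ok TB_l29316 _))
             (CovZ.n1 (-16848, 21216) (by decide +kernel)
              (CovZ.leaf K2_ok TB_l29317 _)
              (CovZ.leaf K2_ok TB_l29318 _))))
           (CovZ.subM 2404907604760405225489198433628046248133851410147671988650741880328909074606278380642861139609659794695420805120 (by decide +kernel)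
            (CovZ.n1 (-16800, 21312) (by decide +kernel)
             (CovZ.subM 30358022579971956007352238739181948285307112848206340706750561164732566103562256384 (by decide +kernel)
              (CovZ.n2 (-16752, 21264) (by decide +kernel)
               (CovZ.n2 (-16800, 21264) (by decide +kernel)
                (CovZ.leaf K2_ok TB_l29319 _)
                (CovZ.leaf K2_ok TB_l29320 _))
               (CovZ.n1 (-16752, 21312) (by decide +kernel)
                (CovZ.n2 (-16728, 21288) (by decide +kernel)
                 (CovZ.leaf K2_ok TB_l29321 _)
                 (CovZ.leaf K2_ok TB_l29322 _))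
                (CovZ.leaf K2_ok TB_l29323 _))))
             (CovZ.n1 (-16848, 21264) (by decide +kernel)
              (CovZ.n2 (-16848, 21312) (by decide +kernel)
               (CovZ.leaf K2_ok TB_l29324 _)
               (CovZ.leaf K2_ok TB_l29325 _))
              (CovZ.n1 (-16800, 21264) (by decide +kernel)
               (CovZ.leaf K2_ok TB_l29326 _)
               (CovZ.leaf K2_ok TB_l29327 _))))))))

theorem TB_u438 : CovZ TB_M (toL (selN TB_LN 2705521055355455878659051950017081387645009841329777202088110312402185996186391314279094770724000810241385201664)) [0, 7, 6, 1] (-16896, 21120) (-16896, 20736) (-16512, 21120) :=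
    (CovZ.n1 (-16704, 20928) (by decide +kernel)
         (CovZ.n2 (-16896, 20928) (by decide +kernel)
          (CovZ.n2 (-16800, 21024) (by decide +kernel)
           (CovZ.n2 (-16800, 20928) (by decide +kernel)
            (CovZ.n2 (-16848, 20976) (by decide +kernel)
             (CovZ.n2 (-16800, 20976) (by decide +kernel)
              (CovZ.leaf K2_ok TB_l29328 _)
              (CovZ.leaf K2_ok TB_l29329 _))
             (CovZ.n1 (-16848, 20928) (by decide +kernel)
              (CovZ.leaf K2_ok TB_l29330 _)
              (CovZ.leaf K2_ok TB_l29331 _)))
            (CovZ.n1 (-16752, 20976) (by decide +kernel)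
             (CovZ.n2 (-16752, 20928) (by decide +kernel)
              (CovZ.leaf K2_ok TB_l29332 _)
              (CovZ.leaf K2_ok TB_l29333 _))
             (CovZ.n1 (-16800, 20976) (by decide +kernel)
              (CovZ.leaf K2_ok TB_l29334 _)
              (CovZ.leaf K2_ok TB_l29335 _))))
           (CovZ.n1 (-16896, 21024) (by decide +kernel)
            (CovZ.n2 (-16848, 21072) (by decide +kernel)
             (CovZ.n2 (-16848, 21024) (by decide +kernel)
              (CovZ.leaf K2_ok TB_l29336 _)
              (CovZ.leaf K2_ok TB_l29337 _))
             (CovZ.leaf K2_ok TB_l29338 _))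
            (CovZ.n1 (-16848, 20976) (by decide +kernel)
             (CovZ.n2 (-16896, 20976) (by decide +kernel)
              (CovZ.leaf K2_ok TB_l29339 _)
              (CovZ.leaf K2_ok TB_l29340 _))
             (CovZ.n1 (-16848, 21024) (by decide +kernel)
              (CovZ.leaf K2_ok TB_l29341 _)
              (CovZ.leaf K2_ok TB_l29342 _)))))
          (CovZ.n1 (-16800, 20832) (by decide +kernel)
           (CovZ.n2 (-16896, 20832) (by decide +kernel)
            (CovZ.n2 (-16848, 20880) (by decide +kernel)
             (CovZ.n2 (-16848, 20832) (by decide +kernel)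
              (CovZ.leaf K2_ok TB_l29343 _)
              (CovZ.leaf K2_ok TB_l29344 _))
             (CovZ.leaf K2_ok TB_l29345 _))
            (CovZ.n1 (-16848, 20784) (by decide +kernel)
             (CovZ.leaf K2_ok TB_l29346 _)
             (CovZ.n1 (-16848, 20832) (by decide +kernel)
              (CovZ.leaf K2_ok TB_l29347 _)
              (CovZ.leaf K2_ok TB_l29348 _))))
           (CovZ.n1 (-16800, 20928) (by decide +kernel)
            (CovZ.n2 (-16752, 20880) (by decide +kernel)
             (CovZ.leaf K2_ok TB_l29349 _)
             (CovZ.n1 (-16752, 20928) (by decide +kernel)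
              (CovZ.leaf K2_ok TB_l29350 _)
              (CovZ.leaf K2_ok TB_l29351 _)))
            (CovZ.n1 (-16848, 20880) (by decide +kernel)
             (CovZ.n2 (-16848, 20928) (by decide +kernel)
              (CovZ.leaf K2_ok TB_l29352 _)
              (CovZ.leaf K2_ok TB_l29353 _))
             (CovZ.n1 (-16800, 20880) (by decide +kernel)
              (CovZ.leaf K2_ok TB_l29354 _)
              (CovZ.leaf K2_ok TB_l29355 _))))))
         (CovZ.n1 (-16704, 21120) (by decide +kernel)
          (CovZ.n2 (-16608, 21024) (by decide +kernel)
           (CovZ.subM 30358022579975632670078971407683945999489605150339457992128225763870831375540158464 (by decide +kernel)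
            (CovZ.n2 (-16704, 21024) (by decide +kernel)
             (CovZ.n2 (-16656, 21072) (by decide +kernel)
              (CovZ.n2 (-16656, 21024) (by decide +kernel)
               (CovZ.n2 (-16680, 21048) (by decide +kernel)
                (CovZ.leaf K2_ok TB_l29356 _)
                (CovZ.leaf K2_ok TB_l29357 _))
               (CovZ.n1 (-16632, 21048) (by decide +kernel)
                (CovZ.leaf K2_ok TB_l29358 _)
                (CovZ.leaf K2_ok TB_l29359 _)))
              (CovZ.n1 (-16704, 21072) (by decide +kernel)
               (CovZ.n2 (-16680, 21096) (by decide +kernel)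
                (CovZ.leaf K2_ok TB_l29360 _)
                (CovZ.leaf K2_ok TB_l29361 _))
               (CovZ.n1 (-16680, 21048) (by decide +kernel)
                (CovZ.leaf K2_ok TB_l29362 _)
                (CovZ.leaf K2_ok TB_l29363 _))))
             (CovZ.n1 (-16656, 20976) (by decide +kernel)
              (CovZ.n2 (-16704, 20976) (by decide +kernel)
               (CovZ.leaf K2_ok TB_l29364 _)
               (CovZ.leaf K2_ok TB_l29365 _))
              (CovZ.n1 (-16656, 21024) (by decide +kernel)
               (CovZ.n2 (-16632, 21000) (by decide +kernel)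
                (CovZ.leaf K2_ok TB_l29366 _)
                (CovZ.leaf K2_ok TB_l29367 _))
               (CovZ.n1 (-16680, 21000) (by decide +kernel)
                (CovZ.leaf K2_ok TB_l29368 _)
                (CovZ.leaf K2_ok TB_l29369 _))))))
           (CovZ.subM 30358022579975625930092304620023997332735833395431789563035079500161556334654914560 (by decide +kernel)
            (CovZ.n1 (-16608, 21120) (by decide +kernel)
             (CovZ.n2 (-16560, 21072) (by decide +kernel)
              (CovZ.n2 (-16608, 21072) (by decide +kernel)
               (CovZ.n2 (-16584, 21096) (by decide +kernel)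
                (CovZ.leaf K2_ok TB_l29370 _)
                (CovZ.leaf K2_ok TB_l29371 _))
               (CovZ.n1 (-16584, 21048) (by decide +kernel)
                (CovZ.leaf K2_ok TB_l29372 _)
                (CovZ.n1 (-16584, 21072) (by decide +kernel)
                 (CovZ.leaf K2_ok TB_l29373 _)
                 (CovZ.leaf K2_ok TB_l29374 _))))
              (CovZ.n1 (-16560, 21120) (by decide +kernel)
               (CovZ.n2 (-16536, 21096) (by decide +kernel)
                (CovZ.leaf K2_ok TB_l29375 _)
                (CovZ.n1 (-16536, 21120) (by decide +kernel)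
                 (CovZ.leaf K2_ok TB_l29376 _)
                 (CovZ.leaf K2_ok TB_l29377 _)))
               (CovZ.n1 (-16584, 21096) (by decide +kernel)
                (CovZ.n2 (-16584, 21120) (by decide +kernel)
                 (CovZ.leaf K2_ok TB_l29378 _)
                 (CovZ.leaf K2_ok TB_l29379 _))
                (CovZ.n1 (-16560, 21096) (by decide +kernel)
                 (CovZ.leaf K2_ok TB_l29380 _)
                 (CovZ.leaf K2_ok TB_l29381 _)))))
             (CovZ.n1 (-16656, 21072) (by decide +kernel)
              (CovZ.n2 (-16656, 21120) (by decide +kernel)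
               (CovZ.n2 (-16632, 21096) (by decide +kernel)
                (CovZ.leaf K2_ok TB_l29382 _)
                (CovZ.n1 (-16632, 21120) (by decide +kernel)
                 (CovZ.leaf K2_ok TB_l29383 _)
                 (CovZ.leaf K2_ok TB_l29384 _)))
               (CovZ.n1 (-16680, 21096) (by decide +kernel)
                (CovZ.leaf K2_ok TB_l29385 _)
                (CovZ.leaf K2_ok TB_l29386 _)))
              (CovZ.n1 (-16608, 21072) (by decide +kernel)
               (CovZ.n2 (-16632, 21048) (by decide +kernel)
                (CovZ.n2 (-16632, 21072) (by decide +kernel)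
                 (CovZ.leaf K2_ok TB_l29387 _)
                 (CovZ.leaf K2_ok TB_l29388 _))
                (CovZ.leaf K2_ok TB_l29389 _))
               (CovZ.n1 (-16632, 21096) (by decide +kernel)
                (CovZ.n2 (-16608, 21096) (by decide +kernel)
                 (CovZ.leaf K2_ok TB_l29390 _)
                 (CovZ.leaf K2_ok TB_l29391 _))
                (CovZ.leaf K2_ok TB_l29392 _)))))))
          (CovZ.n1 (-16800, 21024) (by decide +kernel)
           (CovZ.n2 (-16800, 21120) (by decide +kernel)
            (CovZ.subM 300613450595050653169853516419393162084062988820363914676727267355481702732647836121745498475840390182643826688 (by decide +kernel)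
             (CovZ.n2 (-16752, 21072) (by decide +kernel)
              (CovZ.n2 (-16800, 21072) (by decide +kernel)
               (CovZ.leaf K2_ok TB_l29393 _)
               (CovZ.leaf K2_ok TB_l29394 _))
              (CovZ.n1 (-16752, 21120) (by decide +kernel)
               (CovZ.n2 (-16728, 21096) (by decide +kernel)
                (CovZ.leaf K2_ok TB_l29395 _)
                (CovZ.leaf K2_ok TB_l29396 _))
               (CovZ.leaf K2_ok TB_l29397 _))))
            (CovZ.n1 (-16848, 21072) (by decide +kernel)
             (CovZ.n2 (-16848, 21120) (by decide +kernel)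
              (CovZ.leaf K2_ok TB_l29398 _)
              (CovZ.leaf K2_ok TB_l29399 _))
             (CovZ.n1 (-16800, 21072) (by decide +kernel)
              (CovZ.leaf K2_ok TB_l29400 _)
              (CovZ.leaf K2_ok TB_l29401 _))))
           (CovZ.n1 (-16704, 21024) (by decide +kernel)
            (CovZ.n2 (-16752, 20976) (by decide +kernel)
             (CovZ.n2 (-16752, 21024) (by decide +kernel)
              (CovZ.leaf K2_ok TB_l29402 _)
              (CovZ.leaf K2_ok TB_l29403 _))
             (CovZ.n1 (-16704, 20976) (by decide +kernel)
              (CovZ.leaf K2_ok TB_l29404 _)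
              (CovZ.n1 (-16728, 21000) (by decide +kernel)
               (CovZ.leaf K2_ok TB_l29405 _)
               (CovZ.leaf K2_ok TB_l29406 _))))
            (CovZ.subM 300613450595050653169853516419393162084062992190357248070557241688858588610101670326388551293411950320595107840 (by decide +kernel)
             (CovZ.n1 (-16752, 21072) (by decide +kernel)
              (CovZ.n2 (-16704, 21072) (by decide +kernel)
               (CovZ.n2 (-16728, 21048) (by decide +kernel)
                (CovZ.leaf K2_ok TB_l29407 _)
                (CovZ.leaf K2_ok TB_l29408 _))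
               (CovZ.n1 (-16728, 21096) (by decide +kernel)
                (CovZ.leaf K2_ok TB_l29409 _)
                (CovZ.leaf K2_ok TB_l29410 _)))
              (CovZ.n1 (-16752, 21024) (by decide +kernel)
               (CovZ.n2 (-16776, 21048) (by decide +kernel)
                (CovZ.leaf K2_ok TB_l29411 _)
                (CovZ.leaf K2_ok TB_l29412 _))
               (CovZ.n1 (-16728, 21048) (by decide +kernel)
                (CovZ.leaf K2_ok TB_l29413 _)
                (CovZ.leaf K2_ok TB_l29414 _)))))))))

theorem TB_u439 : CovZ TB_M (toL (selN TB_LN 2710218140521003545114830911210674883087294873560456484508858420952904592112264787109864617323512502233480724496)) [0, 7, 6, 1] (-16128, 20736) (-16512, 21120) (-16896, 20736) :=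
    (CovZ.n2 (-16512, 20736) (by decide +kernel)
       (CovZ.subM 2705521055355455878659051950017081387645120269271325851108709268495982428593630532022649496908883410628965990400 (by decide +kernel)
        (CovZ.n2 (-16704, 20928) (by decide +kernel)
         (CovZ.n2 (-16512, 20928) (by decide +kernel)
          (CovZ.n2 (-16608, 20832) (by decide +kernel)
           (CovZ.n2 (-16608, 20928) (by decide +kernel)
            (CovZ.n2 (-16560, 20880) (by decide +kernel)
             (CovZ.leaf K2_ok TB_l29107 _)
             (CovZ.n1 (-16560, 20928) (by decide +kernel)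
              (CovZ.leaf K2_ok TB_l29108 _)
              (CovZ.leaf K2_ok TB_l29109 _)))
            (CovZ.subM 30358022587043020929192508726017136002461279213649393579630701596357256180710637568 (by decide +kernel)
             (CovZ.n1 (-16656, 20880) (by decide +kernel)
              (CovZ.n2 (-16656, 20928) (by decide +kernel)
               (CovZ.leaf K2_ok TB_l29110 _)
               (CovZ.leaf K2_ok TB_l29111 _))
              (CovZ.n1 (-16608, 20880) (by decide +kernel)
               (CovZ.leaf K2_ok TB_l29112 _)
               (CovZ.leaf K2_ok TB_l29113 _)))))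
           (CovZ.n1 (-16512, 20832) (by decide +kernel)
            (CovZ.n2 (-16560, 20784) (by decide +kernel)
             (CovZ.n2 (-16560, 20832) (by decide +kernel)
              (CovZ.leaf K2_ok TB_l29114 _)
              (CovZ.leaf K2_ok TB_l29115 _))
             (CovZ.leaf K2_ok TB_l29116 _))
            (CovZ.n1 (-16560, 20880) (by decide +kernel)
             (CovZ.n2 (-16512, 20880) (by decide +kernel)
              (CovZ.leaf K2_ok TB_l29117 _)
              (CovZ.leaf K2_ok TB_l29118 _))
             (CovZ.n1 (-16560, 20832) (by decide +kernel)
              (CovZ.leaf K2_ok TB_l29119 _)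
              (CovZ.leaf K2_ok TB_l29120 _)))))
          (CovZ.n1 (-16608, 21024) (by decide +kernel)
           (CovZ.n2 (-16512, 21024) (by decide +kernel)
            (CovZ.n2 (-16560, 20976) (by decide +kernel)
             (CovZ.subM 30358022579975632670078971407683945999489605150339457972321185135304676610557476864 (by decide +kernel)
              (CovZ.n2 (-16560, 21024) (by decide +kernel)
               (CovZ.n2 (-16536, 21000) (by decide +kernel)
                (CovZ.leaf K2_ok TB_l29121 _)
                (CovZ.leaf K2_ok TB_l29122 _))
               (CovZ.n1 (-16584, 21000) (by decide +kernel)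
                (CovZ.leaf K2_ok TB_l29123 _)
                (CovZ.leaf K2_ok TB_l29124 _))))
             (CovZ.n1 (-16512, 20976) (by decide +kernel)
              (CovZ.leaf K2_ok TB_l29125 _)
              (CovZ.n1 (-16536, 21000) (by decide +kernel)
               (CovZ.leaf K2_ok TB_l29126 _)
               (CovZ.leaf K2_ok TB_l29127 _))))
            (CovZ.subM 30358022579975632670078971407683945999489605150339457972321185135304676610557476864 (by decide +kernel)
             (CovZ.n1 (-16560, 21072) (by decide +kernel)
              (CovZ.n2 (-16512, 21072) (by decide +kernel)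
               (CovZ.n2 (-16536, 21048) (by decide +kernel)
                (CovZ.n2 (-16536, 21072) (by decide +kernel)
                 (CovZ.leaf K2_ok TB_l29128 _)
                 (CovZ.leaf K2_ok TB_l29129 _))
                (CovZ.leaf K2_ok TB_l29130 _))
               (CovZ.n1 (-16536, 21096) (by decide +kernel)
                (CovZ.n2 (-16512, 21096) (by decide +kernel)
                 (CovZ.leaf K2_ok TB_l29131 _)
                 (CovZ.leaf K2_ok TB_l29132 _))
                (CovZ.leaf K2_ok TB_l29133 _)))
              (CovZ.n1 (-16560, 21024) (by decide +kernel)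
               (CovZ.n2 (-16584, 21048) (by decide +kernel)
                (CovZ.leaf K2_ok TB_l29134 _)
                (CovZ.leaf K2_ok TB_l29135 _))
               (CovZ.n1 (-16536, 21048) (by decide +kernel)
                (CovZ.leaf K2_ok TB_l29136 _)
                (CovZ.leaf K2_ok TB_l29137 _))))))
           (CovZ.n1 (-16608, 20928) (by decide +kernel)
            (CovZ.subM 30358022587043020929192508726017136002461279213649393579630701596357256180710637568 (by decide +kernel)
             (CovZ.n2 (-16656, 20976) (by decide +kernel)
              (CovZ.n2 (-16608, 20976) (by decide +kernel)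
               (CovZ.leaf K2_ok TB_l29138 _)
               (CovZ.n1 (-16632, 21000) (by decide +kernel)
                (CovZ.leaf K2_ok TB_l29139 _)
                (CovZ.leaf K2_ok TB_l29140 _)))
              (CovZ.n1 (-16656, 20928) (by decide +kernel)
               (CovZ.leaf K2_ok TB_l29141 _)
               (CovZ.leaf K2_ok TB_l29142 _))))
            (CovZ.n1 (-16560, 20976) (by decide +kernel)
             (CovZ.n2 (-16560, 20928) (by decide +kernel)
              (CovZ.leaf K2_ok TB_l29143 _)
              (CovZ.leaf K2_ok TB_l29144 _))
             (CovZ.n1 (-16608, 20976) (by decide +kernel)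
              (CovZ.leaf K2_ok TB_l29145 _)
              (CovZ.leaf K2_ok TB_l29146 _))))))
         (CovZ.n1 (-16704, 20736) (by decide +kernel)
          (CovZ.n2 (-16800, 20832) (by decide +kernel)
           (CovZ.n2 (-16704, 20832) (by decide +kernel)
            (CovZ.n2 (-16752, 20784) (by decide +kernel)
             (CovZ.n2 (-16752, 20832) (by decide +kernel)
              (CovZ.leaf K2_ok TB_l29147 _)
              (CovZ.leaf K2_ok TB_l29148 _))
             (CovZ.leaf K2_ok TB_l29149 _))
            (CovZ.n1 (-16752, 20880) (by decide +kernel)
             (CovZ.n2 (-16704, 20880) (by decide +kernel)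
              (CovZ.leaf K2_ok TB_l29150 _)
              (CovZ.leaf K2_ok TB_l29151 _))
             (CovZ.n1 (-16752, 20832) (by decide +kernel)
              (CovZ.leaf K2_ok TB_l29152 _)
              (CovZ.leaf K2_ok TB_l29153 _))))
           (CovZ.n1 (-16800, 20736) (by decide +kernel)
            (CovZ.n2 (-16848, 20784) (by decide +kernel)
             (CovZ.leaf K2_ok TB_l29154 _)
             (CovZ.leaf K2_ok TB_l29155 _))
            (CovZ.n1 (-16752, 20784) (by decide +kernel)
             (CovZ.leaf K2_ok TB_l29156 _)
             (CovZ.leaf K2_ok TB_l29157 _))))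
          (CovZ.n1 (-16608, 20832) (by decide +kernel)
           (CovZ.n2 (-16608, 20736) (by decide +kernel)
            (CovZ.n2 (-16656, 20784) (by decide +kernel)
             (CovZ.leaf K2_ok TB_l29158 _)
             (CovZ.leaf K2_ok TB_l29159 _))
            (CovZ.n1 (-16560, 20784) (by decide +kernel)
             (CovZ.leaf K2_ok TB_l29160 _)
             (CovZ.leaf K2_ok TB_l29161 _)))
           (CovZ.n1 (-16704, 20832) (by decide +kernel)
            (CovZ.n2 (-16656, 20880) (by decide +kernel)
             (CovZ.n2 (-16656, 20832) (by decide +kernel)
              (CovZ.leaf K2_ok TB_l29162 _)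
              (CovZ.leaf K2_ok TB_l29163 _))
             (CovZ.leaf K2_ok TB_l29164 _))
            (CovZ.n1 (-16656, 20784) (by decide +kernel)
             (CovZ.leaf K2_ok TB_l29165 _)
             (CovZ.n1 (-16656, 20832) (by decide +kernel)
              (CovZ.leaf K2_ok TB_l29166 _)
              (CovZ.leaf K2_ok TB_l29167 _))))))))
       (CovZ.subM 30358022587153448870741157746619085251611662208352546551696003720060132181583986704 (by decide +kernel)
        (CovZ.n1 (-16320, 20928) (by decide +kernel)
         (CovZ.n2 (-16320, 20736) (by decide +kernel)
          (CovZ.n2 (-16416, 20832) (by decide +kernel)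
           (CovZ.n2 (-16320, 20832) (by decide +kernel)
            (CovZ.n2 (-16368, 20784) (by decide +kernel)
             (CovZ.n2 (-16368, 20832) (by decide +kernel)
              (CovZ.leaf K2_ok TB_l29168 _)
              (CovZ.leaf K2_ok TB_l29169 _))
             (CovZ.leaf K2_ok TB_l29170 _))
            (CovZ.n1 (-16368, 20880) (by decide +kernel)
             (CovZ.n2 (-16320, 20880) (by decide +kernel)
              (CovZ.leaf K2_ok TB_l29171 _)
              (CovZ.leaf K2_ok TB_l29172 _))
             (CovZ.n1 (-16368, 20832) (by decide +kernel)
              (CovZ.leaf K2_ok TB_l29173 _)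
              (CovZ.leaf K2_ok TB_l29174 _))))
           (CovZ.n1 (-16416, 20736) (by decide +kernel)
            (CovZ.n2 (-16464, 20784) (by decide +kernel)
             (CovZ.leaf K2_ok TB_l29175 _)
             (CovZ.leaf K2_ok TB_l29176 _))
            (CovZ.n1 (-16368, 20784) (by decide +kernel)
             (CovZ.leaf K2_ok TB_l29177 _)
             (CovZ.leaf K2_ok TB_l29178 _))))
          (CovZ.n1 (-16224, 20832) (by decide +kernel)
           (CovZ.n2 (-16224, 20736) (by decide +kernel)
            (CovZ.n2 (-16272, 20784) (by decide +kernel)
             (CovZ.leaf K2_ok TB_l29179 _)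
             (CovZ.leaf K2_ok TB_l29180 _))
            (CovZ.n1 (-16176, 20784) (by decide +kernel)
             (CovZ.leaf K2_ok TB_l29181 _)
             (CovZ.leaf K2_ok TB_l29182 _)))
           (CovZ.n1 (-16320, 20832) (by decide +kernel)
            (CovZ.n2 (-16272, 20880) (by decide +kernel)
             (CovZ.n2 (-16272, 20832) (by decide +kernel)
              (CovZ.leaf K2_ok TB_l29183 _)
              (CovZ.leaf K2_ok TB_l29184 _))
             (CovZ.leaf K2_ok TB_l29185 _))
            (CovZ.n1 (-16272, 20784) (by decide +kernel)
             (CovZ.leaf K2_ok TB_l29186 _)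
             (CovZ.n1 (-16272, 20832) (by decide +kernel)
              (CovZ.leaf K2_ok TB_l29187 _)
              (CovZ.leaf K2_ok TB_l29188 _))))))
         (CovZ.n1 (-16512, 20928) (by decide +kernel)
          (CovZ.n2 (-16416, 21024) (by decide +kernel)
           (CovZ.n2 (-16416, 20928) (by decide +kernel)
            (CovZ.n2 (-16464, 20976) (by decide +kernel)
             (CovZ.n2 (-16416, 20976) (by decide +kernel)
              (CovZ.leaf K2_ok TB_l29189 _)
              (CovZ.n1 (-16440, 21000) (by decide +kernel)
               (CovZ.leaf K2_ok TB_l29190 _)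
               (CovZ.leaf K2_ok TB_l29191 _)))
             (CovZ.n1 (-16464, 20928) (by decide +kernel)
              (CovZ.leaf K2_ok TB_l29192 _)
              (CovZ.leaf K2_ok TB_l29193 _)))
            (CovZ.n1 (-16368, 20976) (by decide +kernel)
             (CovZ.n2 (-16368, 20928) (by decide +kernel)
              (CovZ.leaf K2_ok TB_l29194 _)
              (CovZ.leaf K2_ok TB_l29195 _))
             (CovZ.leaf K2_ok TB_l29196 _)))
           (CovZ.n1 (-16512, 21024) (by decide +kernel)
            (CovZ.n2 (-16464, 21072) (by decide +kernel)
             (CovZ.n2 (-16464, 21024) (by decide +kernel)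
              (CovZ.n2 (-16488, 21048) (by decide +kernel)
               (CovZ.n2 (-16464, 21048) (by decide +kernel)
                (CovZ.leaf K2_ok TB_l29197 _)
                (CovZ.leaf K2_ok TB_l29198 _))
               (CovZ.leaf K2_ok TB_l29199 _))
              (CovZ.n1 (-16440, 21048) (by decide +kernel)
               (CovZ.leaf K2_ok TB_l29200 _)
               (CovZ.leaf K2_ok TB_l29201 _)))
             (CovZ.n1 (-16512, 21072) (by decide +kernel)
              (CovZ.n2 (-16488, 21096) (by decide +kernel)
               (CovZ.n2 (-16488, 21072) (by decide +kernel)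
                (CovZ.leaf K2_ok TB_l29202 _)
                (CovZ.leaf K2_ok TB_l29203 _))
               (CovZ.leaf K2_ok TB_l29204 _))
              (CovZ.n1 (-16488, 21048) (by decide +kernel)
               (CovZ.leaf K2_ok TB_l29205 _)
               (CovZ.n1 (-16488, 21072) (by decide +kernel)
                (CovZ.leaf K2_ok TB_l29206 _)
                (CovZ.leaf K2_ok TB_l29207 _)))))
            (CovZ.n1 (-16464, 20976) (by decide +kernel)
             (CovZ.n2 (-16512, 20976) (by decide +kernel)
              (CovZ.leaf K2_ok TB_l29208 _)
              (CovZ.n1 (-16488, 20952) (by decide +kernel)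
               (CovZ.leaf K2_ok TB_l29209 _)
               (CovZ.leaf K2_ok TB_l29210 _)))
             (CovZ.n1 (-16464, 21024) (by decide +kernel)
              (CovZ.n2 (-16440, 21000) (by decide +kernel)
               (CovZ.leaf K2_ok TB_l29211 _)
               (CovZ.leaf K2_ok TB_l29212 _))
              (CovZ.n1 (-16488, 21000) (by decide +kernel)
               (CovZ.leaf K2_ok TB_l29213 _)
               (CovZ.leaf K2_ok TB_l29214 _))))))
          (CovZ.n1 (-16416, 20832) (by decide +kernel)
           (CovZ.n2 (-16512, 20832) (by decide +kernel)
            (CovZ.n2 (-16464, 20880) (by decide +kernel)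
             (CovZ.n2 (-16464, 20832) (by decide +kernel)
              (CovZ.leaf K2_ok TB_l29215 _)
              (CovZ.leaf K2_ok TB_l29216 _))
             (CovZ.leaf K2_ok TB_l29217 _))
            (CovZ.n1 (-16464, 20784) (by decide +kernel)
             (CovZ.leaf K2_ok TB_l29218 _)
             (CovZ.n1 (-16464, 20832) (by decide +kernel)
              (CovZ.leaf K2_ok TB_l29219 _)
              (CovZ.leaf K2_ok TB_l29220 _))))
           (CovZ.n1 (-16416, 20928) (by decide +kernel)
            (CovZ.n2 (-16368, 20880) (by decide +kernel)
             (CovZ.leaf K2_ok TB_l29221 _)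
             (CovZ.n1 (-16368, 20928) (by decide +kernel)
              (CovZ.leaf K2_ok TB_l29222 _)
              (CovZ.leaf K2_ok TB_l29223 _)))
            (CovZ.n1 (-16464, 20880) (by decide +kernel)
             (CovZ.n2 (-16464, 20928) (by decide +kernel)
              (CovZ.leaf K2_ok TB_l29224 _)
              (CovZ.leaf K2_ok TB_l29225 _))
             (CovZ.n1 (-16416, 20880) (by decide +kernel)
              (CovZ.leaf K2_ok TB_l29226 _)
              (CovZ.leaf K2_ok TB_l29227 _)))))))))

end Pool.Agent.TET
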