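import Pool.Agent.Helper38_TET.TB_M
import Pool.Agent.Helper38_TET.TB_L
import Pool.Agent.Helper38_TET.TB_12
import Pool.Agent.Helper38_TET.TB_33
import Pool.Agent.Helper38_TET.TB_55
import Pool.Agent.Helper38_TET.TB_77
import Pool.Agent.Helper38_TET.TB_92
import Pool.Agent.Helper38_TET.TB_103
import Pool.Agent.Helper38_TET.TB_124
import Pool.Agent.Helper38_TET.TB_130
import Pool.Agent.Helper38_TET.TB_135
import Pool.Agent.Helper38_TET.TB_147
import Pool.Agent.Helper38_TET.TB_148
import Pool.Agent.Helper38_TET.TB_187
import Pool.Agent.Helper38_TET.TB_188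
import Pool.Agent.Helper38_TET.TB_191
import Pool.Agent.Helper38_TET.TB_224
import Pool.Agent.Helper38_TET.TB_232
import Pool.Agent.Helper38_TET.TB_235
import Pool.Agent.Helper38_TET.TB_236
import Pool.Agent.Helper38_TET.TB_237
import Pool.Agent.Helper38_TET.TB_306
import Pool.Agent.Helper38_TET.TB_313
import Pool.Agent.Helper38_TET.TB_U25
import Pool.Agent.Helper38_TET.TB_U26
import Pool.Agent.Helper38_TET.TB_U27
import Pool.Agent.Helper38_TET.TB_U28
import Pool.Agent.Helper38_TET.TB_U29

/-!
# MP_c7c9bf_co: certificates, family TB
-/

set_option autoImplicit false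
set_option maxRecDepth 100000

namespace Pool.Agent.TET

theorem TB_s9_13 : SqZ TB_M TB_L [0, 7, 6, 1] (-32256) (-4608) 1536 9 13 :=
  SqZ.mk (a := (-18432)) (b := (-16896)) (c := 15360) (d := 16896) (by norm_num) (by norm_num) (by norm_num) (by norm_num)
    (CovZ.topM TB_LL 2785454248334517238464803023892760275987513311241524744869929483971242024694802734785285887034806127876116742752 (by decide +kernel) (CovZ.n2 (-17664, 16128) (by decide +kernel)
    (CovZ.subM 2785371503169766208472479441793470835157190519952276504954942699607936363268414692325514777163779889219386901056 (by decide +kernel)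
     (CovZ.n2 (-16896, 16128) (by decide +kernel)
      (CovZ.n2 (-17280, 15744) (by decide +kernel)
       (CovZ.n2 (-17280, 16128) (by decide +kernel)
        (CovZ.n2 (-17088, 15936) (by decide +kernel)
         (CovZ.n2 (-17280, 15936) (by decide +kernel)
          (CovZ.n2 (-17184, 16032) (by decide +kernel)
           (CovZ.leaf K2_ok TB_l22059 _)
           (CovZ.leaf K2_ok TB_l22060 _))
          (CovZ.n1 (-17184, 15840) (by decide +kernel)
           (CovZ.leaf K2_ok TB_l22061 _)
           (CovZ.leaf K2_ok TB_l22062 _)))
         (CovZ.n1 (-17088, 16128) (by decide +kernel)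
          (CovZ.n2 (-16992, 16032) (by decide +kernel)
           (CovZ.leaf K2_ok TB_l22063 _)
           (CovZ.leaf K2_ok TB_l22064 _))
          (CovZ.leaf K2_ok TB_l22065 _)))
        (CovZ.n1 (-17472, 15936) (by decide +kernel)
         (CovZ.n2 (-17472, 16128) (by decide +kernel)
          (CovZ.n2 (-17376, 16032) (by decide +kernel)
           (CovZ.leaf K2_ok TB_l22066 _)
           (CovZ.leaf K2_ok TB_l22067 _))
          (CovZ.leaf K2_ok TB_l22068 _))
         (CovZ.n1 (-17280, 15936) (by decide +kernel)
          (CovZ.n2 (-17376, 15840) (by decide +kernel)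
           (CovZ.leaf K2_ok TB_l22069 _)
           (CovZ.leaf K2_ok TB_l22070 _))
          (CovZ.leaf K2_ok TB_l22071 _))))
       (CovZ.n1 (-16896, 15744) (by decide +kernel)
        (CovZ.n2 (-17088, 15552) (by decide +kernel)
         (CovZ.n2 (-17088, 15744) (by decide +kernel)
          (CovZ.n2 (-16992, 15648) (by decide +kernel)
           (CovZ.leaf K2_ok TB_l22072 _)
           (CovZ.n1 (-16992, 15744) (by decide +kernel)
            (CovZ.leaf K2_ok TB_l22073 _)
            (CovZ.leaf K2_ok TB_l22074 _)))
          (CovZ.n1 (-17184, 15648) (by decide +kernel)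
           (CovZ.n2 (-17184, 15744) (by decide +kernel)
            (CovZ.leaf K2_ok TB_l22075 _)
            (CovZ.leaf K2_ok TB_l22076 _))
           (CovZ.leaf K2_ok TB_l22077 _)))
         (CovZ.n1 (-16896, 15552) (by decide +kernel)
          (CovZ.n2 (-16992, 15456) (by decide +kernel)
           (CovZ.n2 (-16992, 15552) (by decide +kernel)
            (CovZ.leaf K2_ok TB_l22078 _)
            (CovZ.leaf K2_ok TB_l22079 _))
           (CovZ.n1 (-16896, 15456) (by decide +kernel)
            (CovZ.leaf K2_ok TB_l22080 _)
            (CovZ.leaf K2_ok TB_l22081 _)))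
          (CovZ.n1 (-16992, 15648) (by decide +kernel)
           (CovZ.leaf K2_ok TB_l22082 _)
           (CovZ.n1 (-16992, 15552) (by decide +kernel)
            (CovZ.leaf K2_ok TB_l22083 _)
            (CovZ.leaf K2_ok TB_l22084 _)))))
        (CovZ.n1 (-17088, 15936) (by decide +kernel)
         (CovZ.n2 (-16896, 15936) (by decide +kernel)
          (CovZ.n2 (-16992, 15840) (by decide +kernel)
           (CovZ.leaf K2_ok TB_l22085 _)
           (CovZ.leaf K2_ok TB_l22086 _))
          (CovZ.n1 (-16992, 16032) (by decide +kernel)
           (CovZ.leaf K2_ok TB_l22087 _)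
           (CovZ.leaf K2_ok TB_l22088 _)))
         (CovZ.n1 (-17088, 15744) (by decide +kernel)
          (CovZ.n2 (-17184, 15840) (by decide +kernel)
           (CovZ.leaf K2_ok TB_l22089 _)
           (CovZ.leaf K2_ok TB_l22090 _))
          (CovZ.n1 (-16992, 15840) (by decide +kernel)
           (CovZ.leaf K2_ok TB_l22091 _)
           (CovZ.leaf K2_ok TB_l22092 _))))))
      (CovZ.n1 (-17280, 16512) (by decide +kernel)
       (CovZ.n2 (-16896, 16512) (by decide +kernel)
        (CovZ.n2 (-17088, 16320) (by decide +kernel)
         (CovZ.n2 (-17088, 16512) (by decide +kernel)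
          (CovZ.leaf K2_ok TB_l22093 _)
          (CovZ.leaf K2_ok TB_l22094 _))
         (CovZ.n1 (-16896, 16320) (by decide +kernel)
          (CovZ.leaf K2_ok TB_l22095 _)
          (CovZ.leaf K2_ok TB_l22096 _)))
        (CovZ.n1 (-17088, 16704) (by decide +kernel)
         (CovZ.n2 (-16896, 16704) (by decide +kernel)
          (CovZ.leaf K2_ok TB_l22097 _)
          (CovZ.leaf K2_ok TB_l22098 _))
         (CovZ.n1 (-17088, 16512) (by decide +kernel)
          (CovZ.leaf K2_ok TB_l22099 _)
          (CovZ.leaf K2_ok TB_l22100 _))))
       (CovZ.n1 (-17280, 16128) (by decide +kernel)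
        (CovZ.n2 (-17472, 16320) (by decide +kernel)
         (CovZ.n2 (-17280, 16320) (by decide +kernel)
          (CovZ.leaf K2_ok TB_l22101 _)
          (CovZ.leaf K2_ok TB_l22102 _))
         (CovZ.n1 (-17472, 16128) (by decide +kernel)
          (CovZ.leaf K2_ok TB_l22103 _)
          (CovZ.leaf K2_ok TB_l22104 _)))
        (CovZ.n1 (-17088, 16320) (by decide +kernel)
         (CovZ.n2 (-17088, 16128) (by decide +kernel)
          (CovZ.leaf K2_ok TB_l22105 _)
          (CovZ.leaf K2_ok TB_l22106 _))
         (CovZ.n1 (-17280, 16320) (by decide +kernel)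
          (CovZ.leaf K2_ok TB_l22107 _)
          (CovZ.leaf K2_ok TB_l22108 _)))))))
    (CovZ.n1 (-17664, 15360) (by decide +kernel)
     (CovZ.n2 (-18048, 15744) (by decide +kernel)
      (CovZ.subM 2484767226569179515523487217566759827179122357427456918582884245172117556057464865071682541854017985135258010144 (by decide +kernel)
       (CovZ.n2 (-17664, 15744) (by decide +kernel)
        (CovZ.n2 (-17856, 15552) (by decide +kernel)
         (CovZ.n2 (-17856, 15744) (by decide +kernel)
          (CovZ.leaf K2_ok TB_l22109 _)
          (CovZ.leaf K2_ok TB_l22110 _))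
         (CovZ.n1 (-17664, 15552) (by decide +kernel)
          (CovZ.n2 (-17760, 15456) (by decide +kernel)
           (CovZ.leaf K2_ok TB_l22111 _)
           (CovZ.leaf K2_ok TB_l22112 _))
          (CovZ.leaf K2_ok TB_l22113 _)))
        (CovZ.n1 (-17856, 15936) (by decide +kernel)
         (CovZ.n2 (-17664, 15936) (by decide +kernel)
          (CovZ.leaf K2_ok TB_l22114 _)
          (CovZ.leaf K2_ok TB_l22115 _))
         (CovZ.n1 (-17856, 15744) (by decide +kernel)
          (CovZ.leaf K2_ok TB_l22116 _)
          (CovZ.leaf K2_ok TB_l22117 _)))))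
      (CovZ.n1 (-18048, 15360) (by decide +kernel)
       (CovZ.subM 2484767226604175527120015408371896846384517618079085165613106738044545980186479938130827839546374647724982305312 (by decide +kernel)
        (CovZ.n2 (-18240, 15552) (by decide +kernel)
         (CovZ.n2 (-18048, 15552) (by decide +kernel)
          (CovZ.leaf K2_ok TB_l22118 _)
          (CovZ.leaf K2_ok TB_l22119 _))
         (CovZ.n1 (-18240, 15360) (by decide +kernel)
          (CovZ.n2 (-18336, 15456) (by decide +kernel)
           (CovZ.leaf K2_ok TB_l22120 _)
           (CovZ.leaf K2_ok TB_l22121 _))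
          (CovZ.leaf K2_ok TB_l22122 _))))
       (CovZ.subM 2484767226569179515523487217566759827207391910463911067856217005184004252310704607421692445183963684355939926560 (by decide +kernel)
        (CovZ.n1 (-17856, 15552) (by decide +kernel)
         (CovZ.n2 (-17856, 15360) (by decide +kernel)
          (CovZ.leaf K2_ok TB_l22123 _)
          (CovZ.n1 (-17760, 15456) (by decide +kernel)
           (CovZ.leaf K2_ok TB_l22124 _)
           (CovZ.leaf K2_ok TB_l22125 _)))
         (CovZ.n1 (-18048, 15552) (by decide +kernel)
          (CovZ.leaf K2_ok TB_l22126 _)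
          (CovZ.n1 (-17952, 15456) (by decide +kernel)
           (CovZ.leaf K2_ok TB_l22127 _)
           (CovZ.leaf K2_ok TB_l22128 _)))))))
     (CovZ.n1 (-17280, 15744) (by decide +kernel)
      (CovZ.n2 (-17280, 15360) (by decide +kernel)
       (CovZ.subM 2484767226569179515556079793188586817103340540207285454057875859780536645921011282511023294431054999592200471072 (by decide +kernel)
        (CovZ.n2 (-17472, 15552) (by decide +kernel)
         (CovZ.n2 (-17280, 15552) (by decide +kernel)
          (CovZ.n2 (-17376, 15456) (by decide +kernel)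
           (CovZ.n2 (-17376, 15552) (by decide +kernel)
            (CovZ.leaf K2_ok TB_l22129 _)
            (CovZ.leaf K2_ok TB_l22130 _))
           (CovZ.n1 (-17280, 15456) (by decide +kernel)
            (CovZ.leaf K2_ok TB_l22131 _)
            (CovZ.leaf K2_ok TB_l22132 _)))
          (CovZ.n1 (-17376, 15648) (by decide +kernel)
           (CovZ.leaf K2_ok TB_l22133 _)
           (CovZ.n1 (-17376, 15552) (by decide +kernel)
            (CovZ.leaf K2_ok TB_l22134 _)
            (CovZ.leaf K2_ok TB_l22135 _))))
         (CovZ.n1 (-17472, 15360) (by decide +kernel)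
          (CovZ.n2 (-17568, 15456) (by decide +kernel)
           (CovZ.leaf K2_ok TB_l22136 _)
           (CovZ.n1 (-17568, 15360) (by decide +kernel)
            (CovZ.leaf K2_ok TB_l22137 _)
            (CovZ.leaf K2_ok TB_l22138 _)))
          (CovZ.n1 (-17376, 15456) (by decide +kernel)
           (CovZ.n2 (-17376, 15360) (by decide +kernel)
            (CovZ.leaf K2_ok TB_l22139 _)
            (CovZ.leaf K2_ok TB_l22140 _))
           (CovZ.n1 (-17472, 15456) (by decide +kernel)
            (CovZ.leaf K2_ok TB_l22141 _)
            (CovZ.leaf K2_ok TB_l22142 _))))))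
       (CovZ.subM 2785371503169766208472479441793470835157190519952276504954942699607936363268414692324894598218317584452762632768 (by decide +kernel)
        (CovZ.n1 (-17088, 15552) (by decide +kernel)
         (CovZ.n2 (-17088, 15360) (by decide +kernel)
          (CovZ.n2 (-17184, 15456) (by decide +kernel)
           (CovZ.n2 (-17088, 15456) (by decide +kernel)
            (CovZ.leaf K2_ok TB_l22143 _)
            (CovZ.leaf K2_ok TB_l22144 _))
           (CovZ.n1 (-17184, 15360) (by decide +kernel)
            (CovZ.leaf K2_ok TB_l22145 _)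
            (CovZ.leaf K2_ok TB_l22146 _)))
          (CovZ.n1 (-16992, 15456) (by decide +kernel)
           (CovZ.n2 (-16992, 15360) (by decide +kernel)
            (CovZ.leaf K2_ok TB_l22147 _)
            (CovZ.leaf K2_ok TB_l22148 _))
           (CovZ.n1 (-17088, 15456) (by decide +kernel)
            (CovZ.leaf K2_ok TB_l22149 _)
            (CovZ.leaf K2_ok TB_l22150 _))))
         (CovZ.n1 (-17280, 15552) (by decide +kernel)
          (CovZ.n2 (-17184, 15648) (by decide +kernel)
           (CovZ.n2 (-17184, 15552) (by decide +kernel)
            (CovZ.leaf K2_ok TB_l22151 _)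
            (CovZ.leaf K2_ok TB_l22152 _))
           (CovZ.leaf K2_ok TB_l22153 _))
          (CovZ.n1 (-17184, 15456) (by decide +kernel)
           (CovZ.n2 (-17280, 15456) (by decide +kernel)
            (CovZ.leaf K2_ok TB_l22154 _)
            (CovZ.leaf K2_ok TB_l22155 _))
           (CovZ.n1 (-17184, 15552) (by decide +kernel)
            (CovZ.leaf K2_ok TB_l22156 _)
            (CovZ.leaf K2_ok TB_l22157 _)))))))
      (CovZ.subM 2484767226569179515556079793188586817103340540207285454057875859780536645921011282511023294431054999592200471072 (by decide +kernel)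
       (CovZ.n1 (-17664, 15744) (by decide +kernel)
        (CovZ.n2 (-17472, 15936) (by decide +kernel)
         (CovZ.n2 (-17472, 15744) (by decide +kernel)
          (CovZ.leaf K2_ok TB_l22158 _)
          (CovZ.n1 (-17376, 15840) (by decide +kernel)
           (CovZ.leaf K2_ok TB_l22159 _)
           (CovZ.leaf K2_ok TB_l22160 _)))
         (CovZ.n1 (-17664, 15936) (by decide +kernel)
          (CovZ.leaf K2_ok TB_l22161 _)
          (CovZ.leaf K2_ok TB_l22162 _)))
        (CovZ.n1 (-17472, 15552) (by decide +kernel)
         (CovZ.n2 (-17664, 15552) (by decide +kernel)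
          (CovZ.n2 (-17568, 15648) (by decide +kernel)
           (CovZ.leaf K2_ok TB_l22163 _)
           (CovZ.leaf K2_ok TB_l22164 _))
          (CovZ.n1 (-17568, 15456) (by decide +kernel)
           (CovZ.leaf K2_ok TB_l22165 _)
           (CovZ.n1 (-17568, 15552) (by decide +kernel)
            (CovZ.leaf K2_ok TB_l22166 _)
            (CovZ.leaf K2_ok TB_l22167 _))))
         (CovZ.n1 (-17472, 15744) (by decide +kernel)
          (CovZ.n2 (-17376, 15648) (by decide +kernel)
           (CovZ.leaf K2_ok TB_l22168 _)
           (CovZ.leaf K2_ok TB_l22169 _))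
          (CovZ.n1 (-17568, 15648) (by decide +kernel)
           (CovZ.leaf K2_ok TB_l22170 _)
           (CovZ.leaf K2_ok TB_l22171 _))))))))))
    (CovZ.topM TB_LL 2785454248334517238464803023892760275987513311241524744869929483971242024694802734785285887034806127876116742752 (by decide +kernel) (CovZ.n0 (-17664, 16128) (by decide +kernel)
    (CovZ.n2 (-18432, 16128) (by decide +kernel)
     (CovZ.subM 2484758052609711566833968965073108982290061202154807277914448057332997797412972127664477480534661236478617747968 (by decide +kernel)
      (CovZ.n2 (-18048, 16512) (by decide +kernel)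
       (CovZ.n2 (-18048, 16128) (by decide +kernel)
        (CovZ.n2 (-18240, 16320) (by decide +kernel)
         (CovZ.leaf K2_ok TB_l22172 _)
         (CovZ.leaf K2_ok TB_l22173 _))
        (CovZ.n1 (-17856, 16320) (by decide +kernel)
         (CovZ.n2 (-17856, 16128) (by decide +kernel)
          (CovZ.leaf K2_ok TB_l22174 _)
          (CovZ.leaf K2_ok TB_l22175 _))
         (CovZ.leaf K2_ok TB_l22176 _)))
       (CovZ.n1 (-18432, 16512) (by decide +kernel)
        (CovZ.n2 (-18240, 16704) (by decide +kernel)
         (CovZ.leaf K2_ok TB_l22177 _)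
         (CovZ.leaf K2_ok TB_l22178 _))
        (CovZ.n1 (-18240, 16320) (by decide +kernel)
         (CovZ.leaf K2_ok TB_l22179 _)
         (CovZ.leaf K2_ok TB_l22180 _)))))
     (CovZ.n1 (-18048, 15744) (by decide +kernel)
      (CovZ.subM 2484767226604175527120015408371896846384517618079085165613106738044545980186479938130827839546374647724982305312 (by decide +kernel)
       (CovZ.n2 (-18432, 15744) (by decide +kernel)
        (CovZ.n2 (-18240, 15936) (by decide +kernel)
         (CovZ.n2 (-18240, 15744) (by decide +kernel)
          (CovZ.leaf K2_ok TB_l22181 _)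
          (CovZ.leaf K2_ok TB_l22182 _))
         (CovZ.n1 (-18432, 15936) (by decide +kernel)
          (CovZ.leaf K2_ok TB_l22183 _)
          (CovZ.leaf K2_ok TB_l22184 _)))
        (CovZ.n1 (-18240, 15552) (by decide +kernel)
         (CovZ.n2 (-18432, 15552) (by decide +kernel)
          (CovZ.leaf K2_ok TB_l22185 _)
          (CovZ.n1 (-18336, 15456) (by decide +kernel)
           (CovZ.leaf K2_ok TB_l22186 _)
           (CovZ.leaf K2_ok TB_l22187 _)))
         (CovZ.n1 (-18240, 15744) (by decide +kernel)
          (CovZ.leaf K2_ok TB_l22188 _)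
          (CovZ.leaf K2_ok TB_l22189 _)))))
      (CovZ.subM 2484758052609711566833968965073138654465241113013150956352680693799572337898378575659171044819694451748998644224 (by decide +kernel)
       (CovZ.n1 (-18048, 16128) (by decide +kernel)
        (CovZ.n2 (-17856, 15936) (by decide +kernel)
         (CovZ.n2 (-18048, 15936) (by decide +kernel)
          (CovZ.leaf K2_ok TB_l22190 _)
          (CovZ.leaf K2_ok TB_l22191 _))
         (CovZ.n1 (-17856, 16128) (by decide +kernel)
          (CovZ.leaf K2_ok TB_l22192 _)
          (CovZ.leaf K2_ok TB_l22193 _)))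
        (CovZ.n1 (-18240, 15936) (by decide +kernel)
         (CovZ.n2 (-18240, 16128) (by decide +kernel)
          (CovZ.leaf K2_ok TB_l22194 _)
          (CovZ.leaf K2_ok TB_l22195 _))
         (CovZ.leaf K2_ok TB_l22196 _))))))
    (CovZ.subM 2785371503204762220069007632704847676555180528730393585025704030255899120411732660390943068134333428235789042240 (by decide +kernel)
     (CovZ.n1 (-17664, 16896) (by decide +kernel)
      (CovZ.n2 (-17280, 16512) (by decide +kernel)
       (CovZ.n2 (-17664, 16512) (by decide +kernel)
        (CovZ.n2 (-17472, 16704) (by decide +kernel)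
         (CovZ.n2 (-17472, 16512) (by decide +kernel)
          (CovZ.leaf K2_ok TB_l22197 _)
          (CovZ.leaf K2_ok TB_l22198 _))
         (CovZ.leaf K2_ok TB_l22199 _))
        (CovZ.n1 (-17472, 16320) (by decide +kernel)
         (CovZ.n2 (-17664, 16320) (by decide +kernel)
          (CovZ.leaf K2_ok TB_l22200 _)
          (CovZ.leaf K2_ok TB_l22201 _))
         (CovZ.n1 (-17472, 16512) (by decide +kernel)
          (CovZ.leaf K2_ok TB_l22202 _)
          (CovZ.leaf K2_ok TB_l22203 _))))
       (CovZ.n1 (-17280, 16896) (by decide +kernel)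
        (CovZ.n2 (-17088, 16704) (by decide +kernel)
         (CovZ.leaf K2_ok TB_l22204 _)
         (CovZ.n1 (-17088, 16896) (by decide +kernel)
          (CovZ.leaf K2_ok TB_l22205 _)
          (CovZ.leaf K2_ok TB_l22206 _)))
        (CovZ.n1 (-17472, 16704) (by decide +kernel)
         (CovZ.n2 (-17472, 16896) (by decide +kernel)
          (CovZ.leaf K2_ok TB_l22207 _)
          (CovZ.leaf K2_ok TB_l22208 _))
         (CovZ.leaf K2_ok TB_l22209 _))))
      (CovZ.n1 (-18048, 16512) (by decide +kernel)
       (CovZ.n2 (-18048, 16896) (by decide +kernel)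
        (CovZ.n2 (-17856, 16704) (by decide +kernel)
         (CovZ.leaf K2_ok TB_l22210 _)
         (CovZ.leaf K2_ok TB_l22211 _))
        (CovZ.n1 (-18240, 16704) (by decide +kernel)
         (CovZ.leaf K2_ok TB_l22212 _)
         (CovZ.leaf K2_ok TB_l22213 _)))
       (CovZ.n1 (-17664, 16512) (by decide +kernel)
        (CovZ.n2 (-17856, 16320) (by decide +kernel)
         (CovZ.leaf K2_ok TB_l22214 _)
         (CovZ.leaf K2_ok TB_l22215 _))
        (CovZ.n1 (-17856, 16704) (by decide +kernel)
         (CovZ.leaf K2_ok TB_l22216 _)
         (CovZ.leaf K2_ok TB_l22217 _))))))))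

theorem TB_s10_13 : SqZ TB_M TB_L [0, 7, 6, 1] (-32256) (-4608) 1536 10 13 :=
  SqZ.mk (a := (-16896)) (b := (-15360)) (c := 15360) (d := 16896) (by norm_num) (by norm_num) (by norm_num) (by norm_num)
    (CovZ.topM TB_LL 21662143041287659049273462208908388356174160084278763128957841492648825873060931511515760567715230625033562063828461597585736528 (by decide +kernel) (CovZ.n2 (-16128, 16128) (by decide +kernel)
    (CovZ.n2 (-15360, 16128) (by decide +kernel)
     TB_u375
     TB_u376)
    (CovZ.n1 (-16128, 15360) (by decide +kernel)
     TB_u379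
     TB_u380)))
    (CovZ.topM TB_LL 21662143041287659049273462208908388356174160084278763128957841492648825873060931511515760567715230625033562064981383102192583504 (by decide +kernel) (CovZ.n0 (-16128, 16128) (by decide +kernel)
    TB_u381
    TB_u382))

theorem TB_s11_13 : SqZ TB_M TB_L [0, 7, 6, 1] (-32256) (-4608) 1536 11 13 :=
  SqZ.mk (a := (-15360)) (b := (-13824)) (c := 15360) (d := 16896) (by norm_num) (by norm_num) (by norm_num) (by norm_num)
    (CovZ.topM TB_LL 21661481985318866395766905533195129769946484463760208172990809686468905586111577185685410317530532464092789322047489292147622144 (by decide +kernel) (CovZ.n2 (-14592, 16128) (by decide +kernel)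
    (CovZ.badM (by decide +kernel))
    (CovZ.n1 (-14592, 15360) (by decide +kernel)
     (CovZ.n2 (-14976, 15744) (by decide +kernel)
      (CovZ.badM (by decide +kernel))
      (CovZ.n1 (-14976, 15360) (by decide +kernel)
       (CovZ.n2 (-15168, 15552) (by decide +kernel)
        (CovZ.badM (by decide +kernel))
        (CovZ.n1 (-15168, 15360) (by decide +kernel)
         (CovZ.n2 (-15264, 15456) (by decide +kernel)
          (CovZ.subM 10889035741470108806543929042202194345984 (by decide +kernel)
           (CovZ.n2 (-15168, 15456) (by decide +kernel)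
            (CovZ.n2 (-15216, 15408) (by decide +kernel)
             (CovZ.n2 (-15216, 15456) (by decide +kernel)
              (CovZ.badM (by decide +kernel))
              (CovZ.n1 (-15240, 15432) (by decide +kernel)
               (CovZ.n2 (-15240, 15456) (by decide +kernel)
                (CovZ.badM (by decide +kernel))
                (CovZ.n1 (-15252, 15444) (by decide +kernel)
                 (CovZ.n2 (-15252, 15456) (by decide +kernel)
                  (CovZ.leaf K2_ok TB_l45892 _)
                  (CovZ.leaf K2_ok TB_l45893 _))
                 (CovZ.n1 (-15240, 15444) (by decide +kernel)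
                  (CovZ.leaf K2_ok TB_l45894 _)
                  (CovZ.leaf K2_ok TB_l45895 _))))
               (CovZ.badM (by decide +kernel))))
             (CovZ.badM (by decide +kernel)))
            (CovZ.n1 (-15216, 15504) (by decide +kernel)
             (CovZ.badM (by decide +kernel))
             (CovZ.n1 (-15216, 15456) (by decide +kernel)
              (CovZ.n2 (-15240, 15480) (by decide +kernel)
               (CovZ.subM 10889035741470030830827987437833762635776 (by decide +kernel)
                (CovZ.n2 (-15216, 15480) (by decide +kernel)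
                 (CovZ.n2 (-15228, 15468) (by decide +kernel)
                  (CovZ.n2 (-15228, 15480) (by decide +kernel)
                   (CovZ.badM (by decide +kernel))
                   (CovZ.leaf K2_ok TB_l45896 _))
                  (CovZ.badM (by decide +kernel)))
                 (CovZ.n1 (-15228, 15492) (by decide +kernel)
                  (CovZ.badM (by decide +kernel))
                  (CovZ.n1 (-15228, 15480) (by decide +kernel)
                   (CovZ.leaf K2_ok TB_l45897 _)
                   (CovZ.badM (by decide +kernel))))))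
               (CovZ.n1 (-15240, 15456) (by decide +kernel)
                (CovZ.n2 (-15252, 15468) (by decide +kernel)
                 (CovZ.n2 (-15240, 15468) (by decide +kernel)
                  (CovZ.leaf K2_ok TB_l45898 _)
                  (CovZ.leaf K2_ok TB_l45899 _))
                 (CovZ.leaf K2_ok TB_l45900 _))
                (CovZ.n1 (-15228, 15468) (by decide +kernel)
                 (CovZ.badM (by decide +kernel))
                 (CovZ.leaf K2_ok TB_l45901 _))))
              (CovZ.badM (by decide +kernel))))))
          (CovZ.n1 (-15264, 15360) (by decide +kernel)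
           (CovZ.n2 (-15312, 15408) (by decide +kernel)
            (CovZ.subM 50216813883093446127019868997872647671554950574900105969920 (by decide +kernel)
             (CovZ.n2 (-15264, 15408) (by decide +kernel)
              (CovZ.n2 (-15288, 15384) (by decide +kernel)
               (CovZ.n2 (-15288, 15408) (by decide +kernel)
                (CovZ.n2 (-15276, 15396) (by decide +kernel)
                 (CovZ.leaf K2_ok TB_l45902 _)
                 (CovZ.n1 (-15276, 15408) (by decide +kernel)
                  (CovZ.leaf K2_ok TB_l45903 _)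
                  (CovZ.leaf K2_ok TB_l45904 _)))
                (CovZ.n1 (-15300, 15396) (by decide +kernel)
                 (CovZ.leaf K2_ok TB_l33739 _)
                 (CovZ.leaf K2_ok TB_l45905 _)))
               (CovZ.subM 10889035741470031435290897245182709727232 (by decide +kernel)
                (CovZ.n1 (-15264, 15384) (by decide +kernel)
                 (CovZ.n2 (-15276, 15372) (by decide +kernel)
                  (CovZ.n2 (-15276, 15384) (by decide +kernel)
                   (CovZ.leaf K2_ok TB_l45906 _)
                   (CovZ.leaf K2_ok TB_l45907 _))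
                  (CovZ.badM (by decide +kernel)))
                 (CovZ.n1 (-15276, 15396) (by decide +kernel)
                  (CovZ.n2 (-15264, 15396) (by decide +kernel)
                   (CovZ.leaf K2_ok TB_l45908 _)
                   (CovZ.leaf K2_ok TB_l45909 _))
                  (CovZ.leaf K2_ok TB_l45910 _)))))
              (CovZ.n1 (-15288, 15432) (by decide +kernel)
               (CovZ.n2 (-15264, 15432) (by decide +kernel)
                (CovZ.n2 (-15276, 15420) (by decide +kernel)
                 (CovZ.n2 (-15276, 15432) (by decide +kernel)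
                  (CovZ.leaf K2_ok TB_l45911 _)
                  (CovZ.leaf K2_ok TB_l45912 _))
                 (CovZ.leaf K2_ok TB_l45913 _))
                (CovZ.n1 (-15276, 15444) (by decide +kernel)
                 (CovZ.leaf K2_ok TB_l45914 _)
                 (CovZ.leaf K2_ok TB_l45915 _)))
               (CovZ.n1 (-15288, 15408) (by decide +kernel)
                (CovZ.n2 (-15300, 15420) (by decide +kernel)
                 (CovZ.leaf K2_ok TB_l45916 _)
                 (CovZ.leaf K2_ok TB_l33740 _))
                (CovZ.n1 (-15276, 15420) (by decide +kernel)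
                 (CovZ.n2 (-15276, 15408) (by decide +kernel)
                  (CovZ.leaf K2_ok TB_l45917 _)
                  (CovZ.leaf K2_ok TB_l45918 _))
                 (CovZ.leaf K2_ok TB_l45919 _))))))
            (CovZ.n1 (-15312, 15360) (by decide +kernel)
             (CovZ.n2 (-15336, 15384) (by decide +kernel)
              (CovZ.n2 (-15312, 15384) (by decide +kernel)
               (CovZ.n2 (-15324, 15372) (by decide +kernel)
                (CovZ.leaf K2_ok TB_l33741 _)
                (CovZ.leaf K2_ok TB_l45920 _))
               (CovZ.leaf K2_ok TB_l33742 _))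
              (CovZ.n1 (-15336, 15360) (by decide +kernel)
               (CovZ.leaf K2_ok TB_l33743 _)
               (CovZ.n1 (-15324, 15372) (by decide +kernel)
                (CovZ.leaf K2_ok TB_l33744 _)
                (CovZ.leaf K2_ok TB_l33745 _))))
             (CovZ.subM 50216813883093446127019868997872647671554950574900105969920 (by decide +kernel)
              (CovZ.n1 (-15288, 15384) (by decide +kernel)
               (CovZ.n2 (-15288, 15360) (by decide +kernel)
                (CovZ.n2 (-15300, 15372) (by decide +kernel)
                 (CovZ.leaf K2_ok TB_l45921 _)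
                 (CovZ.leaf K2_ok TB_l45922 _))
                (CovZ.n1 (-15276, 15372) (by decide +kernel)
                 (CovZ.n2 (-15276, 15360) (by decide +kernel)
                  (CovZ.leaf K2_ok TB_l45923 _)
                  (CovZ.badM (by decide +kernel)))
                 (CovZ.leaf K2_ok TB_l45924 _)))
               (CovZ.n1 (-15312, 15384) (by decide +kernel)
                (CovZ.n2 (-15300, 15396) (by decide +kernel)
                 (CovZ.n2 (-15300, 15384) (by decide +kernel)
                  (CovZ.leaf K2_ok TB_l45925 _)
                  (CovZ.leaf K2_ok TB_l45926 _))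
                 (CovZ.leaf K2_ok TB_l33746 _))
                (CovZ.n1 (-15300, 15372) (by decide +kernel)
                 (CovZ.leaf K2_ok TB_l45927 _)
                 (CovZ.leaf K2_ok TB_l45928 _)))))))
           (CovZ.subM 10889035741470108806543929042202194345984 (by decide +kernel)
            (CovZ.n1 (-15216, 15408) (by decide +kernel)
             (CovZ.badM (by decide +kernel))
             (CovZ.n1 (-15264, 15408) (by decide +kernel)
              (CovZ.n2 (-15240, 15432) (by decide +kernel)
               (CovZ.subM 10889035741470030830827987437833762635776 (by decide +kernel)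
                (CovZ.n2 (-15240, 15408) (by decide +kernel)
                 (CovZ.n2 (-15252, 15420) (by decide +kernel)
                  (CovZ.badM (by decide +kernel))
                  (CovZ.n1 (-15252, 15408) (by decide +kernel)
                   (CovZ.leaf K2_ok TB_l45929 _)
                   (CovZ.badM (by decide +kernel))))
                 (CovZ.badM (by decide +kernel))))
               (CovZ.n1 (-15264, 15432) (by decide +kernel)
                (CovZ.n2 (-15252, 15444) (by decide +kernel)
                 (CovZ.n2 (-15252, 15432) (by decide +kernel)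
                  (CovZ.leaf K2_ok TB_l45930 _)
                  (CovZ.leaf K2_ok TB_l45931 _))
                 (CovZ.leaf K2_ok TB_l45932 _))
                (CovZ.n1 (-15252, 15420) (by decide +kernel)
                 (CovZ.leaf K2_ok TB_l45933 _)
                 (CovZ.n1 (-15252, 15432) (by decide +kernel)
                  (CovZ.badM (by decide +kernel))
                  (CovZ.leaf K2_ok TB_l45934 _)))))
              (CovZ.subM 10889035741470030830827987437833762635776 (by decide +kernel)
               (CovZ.n1 (-15240, 15384) (by decide +kernel)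
                (CovZ.n2 (-15264, 15384) (by decide +kernel)
                 (CovZ.n2 (-15252, 15396) (by decide +kernel)
                  (CovZ.badM (by decide +kernel))
                  (CovZ.leaf K2_ok TB_l45935 _))
                 (CovZ.badM (by decide +kernel)))
                (CovZ.n1 (-15240, 15408) (by decide +kernel)
                 (CovZ.badM (by decide +kernel))
                 (CovZ.n1 (-15252, 15396) (by decide +kernel)
                  (CovZ.n2 (-15252, 15408) (by decide +kernel)
                   (CovZ.badM (by decide +kernel))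
                   (CovZ.leaf K2_ok TB_l45936 _))
                  (CovZ.badM (by decide +kernel)))))))))))
         (CovZ.badM (by decide +kernel))))
       (CovZ.badM (by decide +kernel))))
     (CovZ.badM (by decide +kernel)))))
    (CovZ.topM TB_LL 21662143041287656644952993094196621173948096605418733204202076764465711507337183898636845412613227788693841369552371050617111360 (by decide +kernel) (CovZ.n0 (-14592, 16128) (by decide +kernel)
    (CovZ.n2 (-15360, 16128) (by decide +kernel)
     TB_u399
     TB_u400)
    (CovZ.n1 (-14592, 16896) (by decide +kernel)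
     (CovZ.badM (by decide +kernel))
     (CovZ.n1 (-14976, 16512) (by decide +kernel)
      TB_u407
      TB_u408))))

theorem TB_s12_13 : SqZ TB_M TB_L [0, 7, 6, 1] (-32256) (-4608) 1536 12 13 :=
  SqZ.mk (a := (-13824)) (b := (-12288)) (c := 15360) (d := 16896) (by norm_num) (by norm_num) (by norm_num) (by norm_num)
    (CovZ.topM TB_LL 0 (by decide +kernel) (CovZ.badM (by decide +kernel)))
    (CovZ.topM TB_LL 0 (by decide +kernel) (CovZ.badM (by decide +kernel)))

theorem TB_s0_14 : SqZ TB_M TB_L [0, 7, 6, 1] (-32256) (-4608) 1536 0 14 :=
  SqZ.mk (a := (-32256)) (b := (-30720)) (c := 16896) (d := 18432) (by norm_num) (by norm_num) (by norm_num) (by norm_num)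
    (CovZ.topM TB_LL 2353129859973906143154175441529284225823720636258563057311064562201646888730119284886260675824942078871207936 (by decide +kernel) (CovZ.leaf K2_ok TB_l1839 _))
    (CovZ.topM TB_LL 2353129859973906143154175441529284225823720636258563057311064562201646888730119284886260675824942078871207936 (by decide +kernel) (CovZ.leaf K2_ok TB_l1840 _))

theorem TB_s1_14 : SqZ TB_M TB_L [0, 7, 6, 1] (-32256) (-4608) 1536 1 14 :=
  SqZ.mk (a := (-30720)) (b := (-29184)) (c := 16896) (d := 18432) (by norm_num) (by norm_num) (by norm_num) (by norm_num)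
    (CovZ.topM TB_LL 5043456795491623199145623275972558008579490852443297809755944613054516948958865054560048546623859907511181296595369984 (by decide +kernel) (CovZ.leaf K2_ok TB_l4983 _))
    (CovZ.topM TB_LL 5043456795491623199145623275972558008579490852443297809755944613054516948958865054560048546623859907511181296595369984 (by decide +kernel) (CovZ.leaf K2_ok TB_l4984 _))

theorem TB_s2_14 : SqZ TB_M TB_L [0, 7, 6, 1] (-32256) (-4608) 1536 2 14 :=
  SqZ.mk (a := (-29184)) (b := (-27648)) (c := 16896) (d := 18432) (by norm_num) (by norm_num) (by norm_num) (by norm_num)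
    (CovZ.topM TB_LL 5043456793138493339171717132834328964652041523698219635926264656343733324316518645163976051077084924416754786808102912 (by decide +kernel) (CovZ.leaf K2_ok TB_l8274 _))
    (CovZ.topM TB_LL 5043456793138493339171717132834328964652041523698219635926264656343733324316518645163976051077084924416754786808102912 (by decide +kernel) (CovZ.leaf K2_ok TB_l8275 _))

theorem TB_s3_14 : SqZ TB_M TB_L [0, 7, 6, 1] (-32256) (-4608) 1536 3 14 :=
  SqZ.mk (a := (-27648)) (b := (-26112)) (c := 16896) (d := 18432) (by norm_num) (by norm_num) (by norm_num) (by norm_num)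
    (CovZ.topM TB_LL 5043456793138493409163740325890678490535391066932433103450881491608005896667886977445133152830331249669272369090527360 (by decide +kernel) (CovZ.leaf K2_ok TB_l11607 _))
    (CovZ.topM TB_LL 5043456793138493409163740325890678490535391066932433103450881491608005896667886977445133152830331249669272369090527360 (by decide +kernel) (CovZ.leaf K2_ok TB_l11608 _))

theorem TB_s4_14 : SqZ TB_M TB_L [0, 7, 6, 1] (-32256) (-4608) 1536 4 14 :=
  SqZ.mk (a := (-26112)) (b := (-24576)) (c := 16896) (d := 18432) (by norm_num) (by norm_num) (by norm_num) (by norm_num)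
    (CovZ.topM TB_LL 631663411835949099859883151205914022257904644374446960892027670799798706760137269538072325248303414314334467127509124 (by decide +kernel) (CovZ.n2 (-25344, 17664) (by decide +kernel)
    (CovZ.leaf K2_ok TB_l13818 _)
    (CovZ.leaf K2_ok TB_l13819 _)))
    (CovZ.topM TB_LL 631663411835949099859883151205914022257904644374446960892027670799798706760137269538072325248303414314334467127509124 (by decide +kernel) (CovZ.n0 (-25344, 17664) (by decide +kernel)
    (CovZ.leaf K2_ok TB_l13820 _)
    (CovZ.leaf K2_ok TB_l13821 _)))

theorem TB_s5_14 : SqZ TB_M TB_L [0, 7, 6, 1] (-32256) (-4608) 1536 5 14 :=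
  SqZ.mk (a := (-24576)) (b := (-23040)) (c := 16896) (d := 18432) (by norm_num) (by norm_num) (by norm_num) (by norm_num)
    (CovZ.topM TB_LL 631665816743553873388612858716202337208920867230133003189890455038836481108284638392599043323296923625148370437537924 (by decide +kernel) (CovZ.n2 (-23808, 17664) (by decide +kernel)
    (CovZ.n2 (-23040, 17664) (by decide +kernel)
     (CovZ.leaf K2_ok TB_l15557 _)
     (CovZ.leaf K2_ok TB_l15558 _))
    (CovZ.n1 (-23808, 16896) (by decide +kernel)
     (CovZ.leaf K2_ok TB_l15559 _)
     (CovZ.leaf K2_ok TB_l15560 _))))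
    (CovZ.topM TB_LL 631665816743553873388612858716202337208920867230133003189890455038836481108284638392599043323296923625148370437537924 (by decide +kernel) (CovZ.n0 (-23808, 17664) (by decide +kernel)
    (CovZ.leaf K2_ok TB_l15561 _)
    (CovZ.n1 (-23808, 18432) (by decide +kernel)
     (CovZ.leaf K2_ok TB_l15562 _)
     (CovZ.leaf K2_ok TB_l15563 _))))

theorem TB_s6_14 : SqZ TB_M TB_L [0, 7, 6, 1] (-32256) (-4608) 1536 6 14 :=
  SqZ.mk (a := (-23040)) (b := (-21504)) (c := 16896) (d := 18432) (by norm_num) (by norm_num) (by norm_num) (by norm_num)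
    (CovZ.topM TB_LL 631665816743553873402847209822769027054881441568903534078610040645603795480090078617502485370921510588708285885743236 (by decide +kernel) (CovZ.n2 (-22272, 17664) (by decide +kernel)
    (CovZ.n2 (-21504, 17664) (by decide +kernel)
     (CovZ.n2 (-21888, 17280) (by decide +kernel)
      (CovZ.leaf K2_ok TB_l18610 _)
      (CovZ.leaf K2_ok TB_l18611 _))
     (CovZ.n1 (-21888, 18048) (by decide +kernel)
      (CovZ.leaf K2_ok TB_l18612 _)
      (CovZ.leaf K2_ok TB_l18613 _)))
    (CovZ.n1 (-22272, 16896) (by decide +kernel)
     (CovZ.leaf K2_ok TB_l18614 _)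
     (CovZ.n1 (-21888, 17280) (by decide +kernel)
      (CovZ.leaf K2_ok TB_l18615 _)
      (CovZ.leaf K2_ok TB_l18616 _)))))
    (CovZ.topM TB_LL 631665816743553873402847209822769027054881441568903534078610040645603795480090078617502485370921510588708285885743236 (by decide +kernel) (CovZ.n0 (-22272, 17664) (by decide +kernel)
    (CovZ.n2 (-23040, 17664) (by decide +kernel)
     (CovZ.leaf K2_ok TB_l18617 _)
     (CovZ.leaf K2_ok TB_l18618 _))
    (CovZ.n1 (-22272, 18432) (by decide +kernel)
     (CovZ.n2 (-21888, 18048) (by decide +kernel)
      (CovZ.leaf K2_ok TB_l18619 _)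
      (CovZ.leaf K2_ok TB_l18620 _))
     (CovZ.leaf K2_ok TB_l18621 _))))

theorem TB_s7_14 : SqZ TB_M TB_L [0, 7, 6, 1] (-32256) (-4608) 1536 7 14 :=
  SqZ.mk (a := (-21504)) (b := (-19968)) (c := 16896) (d := 18432) (by norm_num) (by norm_num) (by norm_num) (by norm_num)
    (CovZ.topM TB_LL 1233717610416200464652581674333940870813224308169005163010472913405693712106554079876579115905172015296417502494752 (by decide +kernel) (CovZ.n2 (-20736, 17664) (by decide +kernel)
    (CovZ.n2 (-19968, 17664) (by decide +kernel)
     (CovZ.n2 (-20352, 17280) (by decide +kernel)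
      (CovZ.n2 (-20352, 17664) (by decide +kernel)
       (CovZ.leaf K2_ok TB_l19505 _)
       (CovZ.leaf K2_ok TB_l19506 _))
      (CovZ.n1 (-19968, 17280) (by decide +kernel)
       (CovZ.leaf K2_ok TB_l19507 _)
       (CovZ.leaf K2_ok TB_l19508 _)))
     (CovZ.n1 (-20352, 18048) (by decide +kernel)
      (CovZ.leaf K2_ok TB_l19509 _)
      (CovZ.n1 (-20352, 17664) (by decide +kernel)
       (CovZ.leaf K2_ok TB_l19510 _)
       (CovZ.leaf K2_ok TB_l19511 _))))
    (CovZ.n1 (-20736, 16896) (by decide +kernel)
     (CovZ.n2 (-21120, 17280) (by decide +kernel)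
      (CovZ.n2 (-20736, 17280) (by decide +kernel)
       (CovZ.leaf K2_ok TB_l19512 _)
       (CovZ.leaf K2_ok TB_l19513 _))
      (CovZ.n1 (-21120, 16896) (by decide +kernel)
       (CovZ.leaf K2_ok TB_l19514 _)
       (CovZ.leaf K2_ok TB_l19515 _)))
     (CovZ.n1 (-20352, 17280) (by decide +kernel)
      (CovZ.n2 (-20352, 16896) (by decide +kernel)
       (CovZ.leaf K2_ok TB_l19516 _)
       (CovZ.leaf K2_ok TB_l19517 _))
      (CovZ.n1 (-20736, 17280) (by decide +kernel)
       (CovZ.leaf K2_ok TB_l19518 _)
       (CovZ.leaf K2_ok TB_l19519 _))))))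
    (CovZ.topM TB_LL 1233717610416200464652581674333940870813224308169005163010472913405693712106554079876579106233765458379384104845344 (by decide +kernel) (CovZ.n0 (-20736, 17664) (by decide +kernel)
    (CovZ.n2 (-21504, 17664) (by decide +kernel)
     (CovZ.n2 (-21120, 18048) (by decide +kernel)
      (CovZ.leaf K2_ok TB_l19520 _)
      (CovZ.leaf K2_ok TB_l19521 _))
     (CovZ.n1 (-21120, 17280) (by decide +kernel)
      (CovZ.leaf K2_ok TB_l19522 _)
      (CovZ.n1 (-21120, 17664) (by decide +kernel)
       (CovZ.leaf K2_ok TB_l19523 _)
       (CovZ.leaf K2_ok TB_l19524 _))))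
    (CovZ.n1 (-20736, 18432) (by decide +kernel)
     (CovZ.n2 (-20352, 18048) (by decide +kernel)
      (CovZ.leaf K2_ok TB_l19525 _)
      (CovZ.leaf K2_ok TB_l19526 _))
     (CovZ.n1 (-21120, 18048) (by decide +kernel)
      (CovZ.leaf K2_ok TB_l19527 _)
      (CovZ.leaf K2_ok TB_l19528 _)))))

theorem TB_s8_14 : SqZ TB_M TB_L [0, 7, 6, 1] (-32256) (-4608) 1536 8 14 :=
  SqZ.mk (a := (-19968)) (b := (-18432)) (c := 16896) (d := 18432) (by norm_num) (by norm_num) (by norm_num) (by norm_num)
    (CovZ.topM TB_LL 1233797460863931650910840018537844651154405828701402354747201237166365100803730860228115607266128592156750118027808 (by decide +kernel) (CovZ.n2 (-19200, 17664) (by decide +kernel)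
    (CovZ.n2 (-18432, 17664) (by decide +kernel)
     (CovZ.n2 (-18816, 17280) (by decide +kernel)
      (CovZ.n2 (-18816, 17664) (by decide +kernel)
       (CovZ.leaf K2_ok TB_l20267 _)
       (CovZ.leaf K2_ok TB_l20268 _))
      (CovZ.n1 (-18432, 17280) (by decide +kernel)
       (CovZ.leaf K2_ok TB_l20269 _)
       (CovZ.leaf K2_ok TB_l20270 _)))
     (CovZ.n1 (-18816, 18048) (by decide +kernel)
      (CovZ.leaf K2_ok TB_l20271 _)
      (CovZ.n1 (-18816, 17664) (by decide +kernel)
       (CovZ.leaf K2_ok TB_l20272 _)
       (CovZ.leaf K2_ok TB_l20273 _))))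
    (CovZ.n1 (-19200, 16896) (by decide +kernel)
     (CovZ.n2 (-19584, 17280) (by decide +kernel)
      (CovZ.n2 (-19200, 17280) (by decide +kernel)
       (CovZ.leaf K2_ok TB_l20274 _)
       (CovZ.leaf K2_ok TB_l20275 _))
      (CovZ.n1 (-19584, 16896) (by decide +kernel)
       (CovZ.leaf K2_ok TB_l20276 _)
       (CovZ.leaf K2_ok TB_l20277 _)))
     (CovZ.n1 (-18816, 17280) (by decide +kernel)
      (CovZ.n2 (-18816, 16896) (by decide +kernel)
       (CovZ.leaf K2_ok TB_l20278 _)
       (CovZ.leaf K2_ok TB_l20279 _))
      (CovZ.n1 (-19200, 17280) (by decide +kernel)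
       (CovZ.leaf K2_ok TB_l20280 _)
       (CovZ.leaf K2_ok TB_l20281 _))))))
    (CovZ.topM TB_LL 1233797460863931650910840018537844651154405828701402354747201237166365100803730860228115607266128592156750118027808 (by decide +kernel) (CovZ.n0 (-19200, 17664) (by decide +kernel)
    (CovZ.n2 (-19968, 17664) (by decide +kernel)
     (CovZ.n2 (-19584, 18048) (by decide +kernel)
      (CovZ.n2 (-19584, 17664) (by decide +kernel)
       (CovZ.leaf K2_ok TB_l20282 _)
       (CovZ.leaf K2_ok TB_l20283 _))
      (CovZ.leaf K2_ok TB_l20284 _))
     (CovZ.n1 (-19584, 17280) (by decide +kernel)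
      (CovZ.n2 (-19968, 17280) (by decide +kernel)
       (CovZ.leaf K2_ok TB_l20285 _)
       (CovZ.leaf K2_ok TB_l20286 _))
      (CovZ.n1 (-19584, 17664) (by decide +kernel)
       (CovZ.leaf K2_ok TB_l20287 _)
       (CovZ.leaf K2_ok TB_l20288 _))))
    (CovZ.n1 (-19200, 18432) (by decide +kernel)
     (CovZ.n2 (-18816, 18048) (by decide +kernel)
      (CovZ.n2 (-19200, 18048) (by decide +kernel)
       (CovZ.leaf K2_ok TB_l20289 _)
       (CovZ.leaf K2_ok TB_l20290 _))
      (CovZ.n1 (-18816, 18432) (by decide +kernel)
       (CovZ.leaf K2_ok TB_l20291 _)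
       (CovZ.leaf K2_ok TB_l20292 _)))
     (CovZ.n1 (-19584, 18048) (by decide +kernel)
      (CovZ.leaf K2_ok TB_l20293 _)
      (CovZ.leaf K2_ok TB_l20294 _)))))

theorem TB_s9_14 : SqZ TB_M TB_L [0, 7, 6, 1] (-32256) (-4608) 1536 9 14 :=
  SqZ.mk (a := (-18432)) (b := (-16896)) (c := 16896) (d := 18432) (by norm_num) (by norm_num) (by norm_num) (by norm_num)
    (CovZ.topM TB_LL 2785371503204762220069007632704847676555180528730393585025704030255899120411732660390943068134333428235789042240 (by decide +kernel) (CovZ.n2 (-17664, 17664) (by decide +kernel)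
    (CovZ.n2 (-16896, 17664) (by decide +kernel)
     (CovZ.n2 (-17280, 17280) (by decide +kernel)
      (CovZ.n2 (-17280, 17664) (by decide +kernel)
       (CovZ.n2 (-17088, 17472) (by decide +kernel)
        (CovZ.leaf K2_ok TB_l22218 _)
        (CovZ.leaf K2_ok TB_l22219 _))
       (CovZ.leaf K2_ok TB_l22220 _))
      (CovZ.n1 (-16896, 17280) (by decide +kernel)
       (CovZ.n2 (-17088, 17088) (by decide +kernel)
        (CovZ.leaf K2_ok TB_l22221 _)
        (CovZ.leaf K2_ok TB_l22222 _))
       (CovZ.n1 (-17088, 17472) (by decide +kernel)
        (CovZ.leaf K2_ok TB_l22223 _)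
        (CovZ.leaf K2_ok TB_l22224 _))))
     (CovZ.n1 (-17280, 18048) (by decide +kernel)
      (CovZ.n2 (-16896, 18048) (by decide +kernel)
       (CovZ.n2 (-17088, 17856) (by decide +kernel)
        (CovZ.leaf K2_ok TB_l22225 _)
        (CovZ.leaf K2_ok TB_l22226 _))
       (CovZ.n1 (-17088, 18240) (by decide +kernel)
        (CovZ.leaf K2_ok TB_l22227 _)
        (CovZ.leaf K2_ok TB_l22228 _)))
      (CovZ.n1 (-17280, 17664) (by decide +kernel)
       (CovZ.leaf K2_ok TB_l22229 _)
       (CovZ.n1 (-17088, 17856) (by decide +kernel)
        (CovZ.leaf K2_ok TB_l22230 _)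
        (CovZ.leaf K2_ok TB_l22231 _)))))
    (CovZ.n1 (-17664, 16896) (by decide +kernel)
     (CovZ.n2 (-18048, 17280) (by decide +kernel)
      (CovZ.n2 (-17664, 17280) (by decide +kernel)
       (CovZ.leaf K2_ok TB_l22232 _)
       (CovZ.leaf K2_ok TB_l22233 _))
      (CovZ.n1 (-18048, 16896) (by decide +kernel)
       (CovZ.leaf K2_ok TB_l22234 _)
       (CovZ.n1 (-17856, 17088) (by decide +kernel)
        (CovZ.leaf K2_ok TB_l22235 _)
        (CovZ.leaf K2_ok TB_l22236 _))))
     (CovZ.n1 (-17280, 17280) (by decide +kernel)
      (CovZ.n2 (-17280, 16896) (by decide +kernel)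
       (CovZ.n2 (-17472, 17088) (by decide +kernel)
        (CovZ.leaf K2_ok TB_l22237 _)
        (CovZ.leaf K2_ok TB_l22238 _))
       (CovZ.n1 (-17088, 17088) (by decide +kernel)
        (CovZ.n2 (-17088, 16896) (by decide +kernel)
         (CovZ.leaf K2_ok TB_l22239 _)
         (CovZ.leaf K2_ok TB_l22240 _))
        (CovZ.leaf K2_ok TB_l22241 _)))
      (CovZ.n1 (-17664, 17280) (by decide +kernel)
       (CovZ.leaf K2_ok TB_l22242 _)
       (CovZ.n1 (-17472, 17088) (by decide +kernel)
        (CovZ.leaf K2_ok TB_l22243 _)
        (CovZ.leaf K2_ok TB_l22244 _)))))))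
    (CovZ.topM TB_LL 2785371503204762220069007632704847676555180528730393585025704030255899120411732660390943068134333428235789042240 (by decide +kernel) (CovZ.n0 (-17664, 17664) (by decide +kernel)
    (CovZ.n2 (-18432, 17664) (by decide +kernel)
     (CovZ.n2 (-18048, 18048) (by decide +kernel)
      (CovZ.n2 (-18048, 17664) (by decide +kernel)
       (CovZ.leaf K2_ok TB_l22245 _)
       (CovZ.leaf K2_ok TB_l22246 _))
      (CovZ.n1 (-18432, 18048) (by decide +kernel)
       (CovZ.leaf K2_ok TB_l22247 _)
       (CovZ.leaf K2_ok TB_l22248 _)))
     (CovZ.n1 (-18048, 17280) (by decide +kernel)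
      (CovZ.n2 (-18432, 17280) (by decide +kernel)
       (CovZ.leaf K2_ok TB_l22249 _)
       (CovZ.leaf K2_ok TB_l22250 _))
      (CovZ.n1 (-18048, 17664) (by decide +kernel)
       (CovZ.leaf K2_ok TB_l22251 _)
       (CovZ.leaf K2_ok TB_l22252 _))))
    (CovZ.n1 (-17664, 18432) (by decide +kernel)
     (CovZ.n2 (-17280, 18048) (by decide +kernel)
      (CovZ.n2 (-17664, 18048) (by decide +kernel)
       (CovZ.leaf K2_ok TB_l22253 _)
       (CovZ.leaf K2_ok TB_l22254 _))
      (CovZ.n1 (-17280, 18432) (by decide +kernel)
       (CovZ.n2 (-17088, 18240) (by decide +kernel)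
        (CovZ.leaf K2_ok TB_l22255 _)
        (CovZ.leaf K2_ok TB_l22256 _))
       (CovZ.leaf K2_ok TB_l22257 _)))
     (CovZ.n1 (-18048, 18048) (by decide +kernel)
      (CovZ.n2 (-18048, 18432) (by decide +kernel)
       (CovZ.leaf K2_ok TB_l22258 _)
       (CovZ.leaf K2_ok TB_l22259 _))
      (CovZ.n1 (-17664, 18048) (by decide +kernel)
       (CovZ.leaf K2_ok TB_l22260 _)
       (CovZ.leaf K2_ok TB_l22261 _))))))

theorem TB_s10_14 : SqZ TB_M TB_L [0, 7, 6, 1] (-32256) (-4608) 1536 10 14 :=
  SqZ.mk (a := (-16896)) (b := (-15360)) (c := 16896) (d := 18432) (by norm_num) (by norm_num) (by norm_num) (by norm_num)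
    (CovZ.topM TB_LL 21662143041287659049273462208908388356174160084278763128957841492648825873060931511515749678679489155002730941269579353953567568 (by decide +kernel) (CovZ.n2 (-16128, 17664) (by decide +kernel)
    (CovZ.n2 (-15360, 17664) (by decide +kernel)
     TB_u409
     TB_u410)
    (CovZ.n1 (-16128, 16896) (by decide +kernel)
     (CovZ.n2 (-16512, 17280) (by decide +kernel)
      (CovZ.subM 305310535760598319690817628855690212294005681449230458215582324638956538657013133973100127663553944011361354256 (by decide +kernel)
       (CovZ.n2 (-16128, 17280) (by decide +kernel)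
        (CovZ.n2 (-16320, 17088) (by decide +kernel)
         (CovZ.n2 (-16320, 17280) (by decide +kernel)
          (CovZ.leaf K2_ok TB_l28060 _)
          (CovZ.leaf K2_ok TB_l28061 _))
         (CovZ.n1 (-16128, 17088) (by decide +kernel)
          (CovZ.n2 (-16224, 16992) (by decide +kernel)
           (CovZ.leaf K2_ok TB_l28062 _)
           (CovZ.leaf K2_ok TB_l28063 _))
          (CovZ.leaf K2_ok TB_l28064 _)))
        (CovZ.n1 (-16320, 17472) (by decide +kernel)
         (CovZ.n2 (-16128, 17472) (by decide +kernel)
          (CovZ.leaf K2_ok TB_l28065 _)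
          (CovZ.leaf K2_ok TB_l28066 _))
         (CovZ.n1 (-16320, 17280) (by decide +kernel)
          (CovZ.leaf K2_ok TB_l28067 _)
          (CovZ.leaf K2_ok TB_l28068 _)))))
      (CovZ.n1 (-16512, 16896) (by decide +kernel)
       (CovZ.subM 2710218140521003545180016062453378437847885135589550157910325380433044815295119026538698691592929285574532170304 (by decide +kernel)
        (CovZ.n2 (-16704, 17088) (by decide +kernel)
         (CovZ.n2 (-16512, 17088) (by decide +kernel)
          (CovZ.leaf K2_ok TB_l28069 _)
          (CovZ.leaf K2_ok TB_l28070 _))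
         (CovZ.n1 (-16704, 16896) (by decide +kernel)
          (CovZ.leaf K2_ok TB_l28071 _)
          (CovZ.leaf K2_ok TB_l28072 _))))
       (CovZ.n1 (-16320, 17088) (by decide +kernel)
        (CovZ.n2 (-16320, 16896) (by decide +kernel)
         (CovZ.leaf K2_ok TB_l28073 _)
         (CovZ.leaf K2_ok TB_l28074 _))
        (CovZ.n1 (-16512, 17088) (by decide +kernel)
         (CovZ.leaf K2_ok TB_l28075 _)
         (CovZ.leaf K2_ok TB_l28076 _)))))
     (CovZ.n1 (-15744, 17280) (by decide +kernel)
      (CovZ.n2 (-15744, 16896) (by decide +kernel)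
       (CovZ.n2 (-15936, 17088) (by decide +kernel)
        (CovZ.subM 661055968790553909487675906352461857457230004153739594080028506004233740822170870090027913686394114877651302968010976920080 (by decide +kernel)
         (CovZ.n2 (-15744, 17088) (by decide +kernel)
          (CovZ.n2 (-15840, 16992) (by decide +kernel)
           (CovZ.n2 (-15840, 17088) (by decide +kernel)
            (CovZ.leaf K2_ok TB_l28077 _)
            (CovZ.leaf K2_ok TB_l28078 _))
           (CovZ.leaf K2_ok TB_l28079 _))
          (CovZ.n1 (-15840, 17184) (by decide +kernel)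
           (CovZ.leaf K2_ok TB_l28080 _)
           (CovZ.leaf K2_ok TB_l28081 _))))
        (CovZ.n1 (-15936, 16896) (by decide +kernel)
         (CovZ.n2 (-16032, 16992) (by decide +kernel)
          (CovZ.leaf K2_ok TB_l28082 _)
          (CovZ.leaf K2_ok TB_l28083 _))
         (CovZ.n1 (-15840, 16992) (by decide +kernel)
          (CovZ.n2 (-15840, 16896) (by decide +kernel)
           (CovZ.leaf K2_ok TB_l28084 _)
           (CovZ.leaf K2_ok TB_l28085 _))
          (CovZ.leaf K2_ok TB_l28086 _))))
       (CovZ.n1 (-15552, 17088) (by decide +kernel)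
        (CovZ.n2 (-15552, 16896) (by decide +kernel)
         (CovZ.n2 (-15648, 16992) (by decide +kernel)
          (CovZ.n2 (-15552, 16992) (by decide +kernel)
           (CovZ.leaf K2_ok TB_l28087 _)
           (CovZ.leaf K2_ok TB_l28088 _))
          (CovZ.n1 (-15648, 16896) (by decide +kernel)
           (CovZ.leaf K2_ok TB_l28089 _)
           (CovZ.leaf K2_ok TB_l28090 _)))
         (CovZ.n1 (-15456, 16992) (by decide +kernel)
          (CovZ.n2 (-15456, 16896) (by decide +kernel)
           (CovZ.leaf K2_ok TB_l28091 _)
           (CovZ.leaf K2_ok TB_l28092 _))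
          (CovZ.n1 (-15552, 16992) (by decide +kernel)
           (CovZ.leaf K2_ok TB_l28093 _)
           (CovZ.leaf K2_ok TB_l28094 _))))
        (CovZ.n1 (-15744, 17088) (by decide +kernel)
         (CovZ.n2 (-15648, 17184) (by decide +kernel)
          (CovZ.n2 (-15648, 17088) (by decide +kernel)
           (CovZ.leaf K2_ok TB_l28095 _)
           (CovZ.leaf K2_ok TB_l28096 _))
          (CovZ.leaf K2_ok TB_l28097 _))
         (CovZ.n1 (-15648, 16992) (by decide +kernel)
          (CovZ.n2 (-15744, 16992) (by decide +kernel)
           (CovZ.leaf K2_ok TB_l28098 _)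
           (CovZ.leaf K2_ok TB_l28099 _))
          (CovZ.n1 (-15648, 17088) (by decide +kernel)
           (CovZ.leaf K2_ok TB_l28100 _)
           (CovZ.leaf K2_ok TB_l28101 _))))))
      (CovZ.n1 (-16128, 17280) (by decide +kernel)
       (CovZ.n2 (-15936, 17472) (by decide +kernel)
        (CovZ.n2 (-15936, 17280) (by decide +kernel)
         (CovZ.n2 (-16032, 17376) (by decide +kernel)
          (CovZ.leaf K2_ok TB_l28102 _)
          (CovZ.leaf K2_ok TB_l28103 _))
         (CovZ.n1 (-15840, 17376) (by decide +kernel)
          (CovZ.n2 (-15840, 17280) (by decide +kernel)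
           (CovZ.leaf K2_ok TB_l28104 _)
           (CovZ.leaf K2_ok TB_l28105 _))
          (CovZ.leaf K2_ok TB_l28106 _)))
        (CovZ.n1 (-16128, 17472) (by decide +kernel)
         (CovZ.leaf K2_ok TB_l28107 _)
         (CovZ.n1 (-16032, 17376) (by decide +kernel)
          (CovZ.leaf K2_ok TB_l28108 _)
          (CovZ.leaf K2_ok TB_l28109 _))))
       (CovZ.n1 (-15936, 17088) (by decide +kernel)
        (CovZ.n2 (-16128, 17088) (by decide +kernel)
         (CovZ.n2 (-16032, 17184) (by decide +kernel)
          (CovZ.leaf K2_ok TB_l28110 _)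
          (CovZ.leaf K2_ok TB_l28111 _))
         (CovZ.n1 (-16032, 16992) (by decide +kernel)
          (CovZ.leaf K2_ok TB_l28112 _)
          (CovZ.leaf K2_ok TB_l28113 _)))
        (CovZ.n1 (-15936, 17280) (by decide +kernel)
         (CovZ.n2 (-15840, 17184) (by decide +kernel)
          (CovZ.leaf K2_ok TB_l28114 _)
          (CovZ.n1 (-15840, 17280) (by decide +kernel)
           (CovZ.leaf K2_ok TB_l28115 _)
           (CovZ.leaf K2_ok TB_l28116 _)))
         (CovZ.n1 (-16032, 17184) (by decide +kernel)
          (CovZ.leaf K2_ok TB_l28117 _)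
          (CovZ.leaf K2_ok TB_l28118 _)))))))))
    (CovZ.topM TB_LL 21662143041287659049273462208908388356174160084278763128957841492648825873060931511515749678679489155000313089630350095604155216 (by decide +kernel) (CovZ.n0 (-16128, 17664) (by decide +kernel)
    (CovZ.n2 (-16896, 17664) (by decide +kernel)
     (CovZ.n2 (-16512, 18048) (by decide +kernel)
      (CovZ.n2 (-16512, 17664) (by decide +kernel)
       (CovZ.subM 2710218140521003545180016062453378437847885135589550157910325380433044815294952873039225577108816309691997126656 (by decide +kernel)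
        (CovZ.n2 (-16704, 17856) (by decide +kernel)
         (CovZ.n2 (-16512, 17856) (by decide +kernel)
          (CovZ.leaf K2_ok TB_l28119 _)
          (CovZ.leaf K2_ok TB_l28120 _))
         (CovZ.n1 (-16704, 17664) (by decide +kernel)
          (CovZ.leaf K2_ok TB_l28121 _)
          (CovZ.leaf K2_ok TB_l28122 _))))
       (CovZ.subM 305310535760598319690817628855690212294005681449230458215582324638956538657013133973100127663553944011361353744 (by decide +kernel)
        (CovZ.n1 (-16320, 17856) (by decide +kernel)
         (CovZ.n2 (-16320, 17664) (by decide +kernel)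
          (CovZ.leaf K2_ok TB_l28123 _)
          (CovZ.leaf K2_ok TB_l28124 _))
         (CovZ.n1 (-16512, 17856) (by decide +kernel)
          (CovZ.leaf K2_ok TB_l28125 _)
          (CovZ.leaf K2_ok TB_l28126 _)))))
      (CovZ.subM 2710218140521003545180016062453378437847885135589550157910325380433044815294952873039225577108816309691997126656 (by decide +kernel)
       (CovZ.n1 (-16896, 18048) (by decide +kernel)
        (CovZ.n2 (-16704, 18240) (by decide +kernel)
         (CovZ.n2 (-16704, 18048) (by decide +kernel)
          (CovZ.leaf K2_ok TB_l28127 _)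
          (CovZ.leaf K2_ok TB_l28128 _))
         (CovZ.n1 (-16896, 18240) (by decide +kernel)
          (CovZ.leaf K2_ok TB_l28129 _)
          (CovZ.leaf K2_ok TB_l28130 _)))
        (CovZ.n1 (-16704, 17856) (by decide +kernel)
         (CovZ.leaf K2_ok TB_l28131 _)
         (CovZ.n1 (-16704, 18048) (by decide +kernel)
          (CovZ.leaf K2_ok TB_l28132 _)
          (CovZ.leaf K2_ok TB_l28133 _))))))
     (CovZ.n1 (-16512, 17280) (by decide +kernel)
      (CovZ.subM 2710218140521003545180016062453378437847885135589550157910325380433044815295119026538698691592929285574532170304 (by decide +kernel)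
       (CovZ.n2 (-16896, 17280) (by decide +kernel)
        (CovZ.n2 (-16704, 17472) (by decide +kernel)
         (CovZ.n2 (-16704, 17280) (by decide +kernel)
          (CovZ.leaf K2_ok TB_l28134 _)
          (CovZ.leaf K2_ok TB_l28135 _))
         (CovZ.leaf K2_ok TB_l28136 _))
        (CovZ.n1 (-16704, 17088) (by decide +kernel)
         (CovZ.leaf K2_ok TB_l28137 _)
         (CovZ.n1 (-16704, 17280) (by decide +kernel)
          (CovZ.leaf K2_ok TB_l28138 _)
          (CovZ.leaf K2_ok TB_l28139 _)))))
      (CovZ.n1 (-16512, 17664) (by decide +kernel)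
       (CovZ.subM 305310535760598319690817628855690212294005681449230458215582324638956538657013133973100127663553944011361353744 (by decide +kernel)
        (CovZ.n2 (-16320, 17472) (by decide +kernel)
         (CovZ.n2 (-16512, 17472) (by decide +kernel)
          (CovZ.leaf K2_ok TB_l28140 _)
          (CovZ.leaf K2_ok TB_l28141 _))
         (CovZ.n1 (-16320, 17664) (by decide +kernel)
          (CovZ.leaf K2_ok TB_l28142 _)
          (CovZ.leaf K2_ok TB_l28143 _))))
       (CovZ.subM 2710218140521003545180016062453378437847885135589550157910325380433044815294952873039225577108816309691997126656 (by decide +kernel)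
        (CovZ.n1 (-16704, 17472) (by decide +kernel)
         (CovZ.n2 (-16704, 17664) (by decide +kernel)
          (CovZ.leaf K2_ok TB_l28144 _)
          (CovZ.leaf K2_ok TB_l28145 _))
         (CovZ.n1 (-16512, 17472) (by decide +kernel)
          (CovZ.leaf K2_ok TB_l28146 _)
          (CovZ.leaf K2_ok TB_l28147 _)))))))
    (CovZ.n1 (-16128, 18432) (by decide +kernel)
     (CovZ.n2 (-15744, 18048) (by decide +kernel)
      (CovZ.n2 (-16128, 18048) (by decide +kernel)
       (CovZ.subM 305310535760598319625632477612986657533415416050136973451291478614823576628369548992770129057620865018516078608 (by decide +kernel)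
        (CovZ.n2 (-15936, 18240) (by decide +kernel)
         (CovZ.n2 (-15936, 18048) (by decide +kernel)
          (CovZ.n2 (-16032, 18144) (by decide +kernel)
           (CovZ.leaf K2_ok TB_l28148 _)
           (CovZ.leaf K2_ok TB_l28149 _))
          (CovZ.n1 (-15840, 18144) (by decide +kernel)
           (CovZ.n2 (-15840, 18048) (by decide +kernel)
            (CovZ.leaf K2_ok TB_l28150 _)
            (CovZ.leaf K2_ok TB_l28151 _))
           (CovZ.leaf K2_ok TB_l28152 _)))
         (CovZ.n1 (-16128, 18240) (by decide +kernel)
          (CovZ.n2 (-16032, 18336) (by decide +kernel)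
           (CovZ.leaf K2_ok TB_l28153 _)
           (CovZ.leaf K2_ok TB_l28154 _))
          (CovZ.n1 (-16032, 18144) (by decide +kernel)
           (CovZ.leaf K2_ok TB_l28155 _)
           (CovZ.leaf K2_ok TB_l28156 _)))))
       (CovZ.n1 (-15936, 17856) (by decide +kernel)
        (CovZ.subM 305310535760598319690817628855690212294005678079237124821752350305579652779559299768457074919778402384371384336 (by decide +kernel)
         (CovZ.n2 (-16128, 17856) (by decide +kernel)
          (CovZ.n2 (-16032, 17952) (by decide +kernel)
           (CovZ.leaf K2_ok TB_l28157 _)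
           (CovZ.leaf K2_ok TB_l28158 _))
          (CovZ.n1 (-16032, 17760) (by decide +kernel)
           (CovZ.leaf K2_ok TB_l28159 _)
           (CovZ.leaf K2_ok TB_l28160 _))))
        (CovZ.subM 305310535760598319690817628855690212294005678079237074604938467212144692465843179418696513923177682705429168144 (by decide +kernel)
         (CovZ.n1 (-15936, 18048) (by decide +kernel)
          (CovZ.n2 (-15840, 17952) (by decide +kernel)
           (CovZ.leaf K2_ok TB_l28161 _)
           (CovZ.n1 (-15840, 18048) (by decide +kernel)
            (CovZ.leaf K2_ok TB_l28162 _)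
            (CovZ.leaf K2_ok TB_l28163 _)))
          (CovZ.n1 (-16032, 17952) (by decide +kernel)
           (CovZ.leaf K2_ok TB_l28164 _)
           (CovZ.leaf K2_ok TB_l28165 _))))))
      (CovZ.subM 305310535760598319625632477612986657533415416050143401203468514575925744476738912969739627563306139978704224528 (by decide +kernel)
       (CovZ.n1 (-15744, 18432) (by decide +kernel)
        (CovZ.n2 (-15552, 18240) (by decide +kernel)
         (CovZ.n2 (-15744, 18240) (by decide +kernel)
          (CovZ.n2 (-15648, 18336) (by decide +kernel)
           (CovZ.n2 (-15648, 18240) (by decide +kernel)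
            (CovZ.leaf K2_ok TB_l28166 _)
            (CovZ.leaf K2_ok TB_l28167 _))
           (CovZ.n1 (-15744, 18336) (by decide +kernel)
            (CovZ.leaf K2_ok TB_l28168 _)
            (CovZ.leaf K2_ok TB_l28169 _)))
          (CovZ.n1 (-15648, 18144) (by decide +kernel)
           (CovZ.n2 (-15744, 18144) (by decide +kernel)
            (CovZ.leaf K2_ok TB_l28170 _)
            (CovZ.leaf K2_ok TB_l28171 _))
           (CovZ.n1 (-15648, 18240) (by decide +kernel)
            (CovZ.leaf K2_ok TB_l28172 _)
            (CovZ.leaf K2_ok TB_l28173 _))))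
         (CovZ.n1 (-15552, 18432) (by decide +kernel)
          (CovZ.n2 (-15456, 18336) (by decide +kernel)
           (CovZ.n2 (-15552, 18336) (by decide +kernel)
            (CovZ.n2 (-15504, 18384) (by decide +kernel)
             (CovZ.leaf K2_ok TB_l28174 _)
             (CovZ.leaf K2_ok TB_l28175 _))
            (CovZ.n1 (-15504, 18288) (by decide +kernel)
             (CovZ.leaf K2_ok TB_l28176 _)
             (CovZ.n1 (-15504, 18336) (by decide +kernel)
              (CovZ.leaf K2_ok TB_l28177 _)
              (CovZ.leaf K2_ok TB_l28178 _))))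
           (CovZ.subM 4697085165547666455778961193597316581119543563366279845213617825940972608363461712239980388204273857898610704 (by decide +kernel)
            (CovZ.n1 (-15456, 18432) (by decide +kernel)
             (CovZ.n2 (-15408, 18384) (by decide +kernel)
              (CovZ.n2 (-15456, 18384) (by decide +kernel)
               (CovZ.leaf K2_ok TB_l28179 _)
               (CovZ.leaf K2_ok TB_l28180 _))
              (CovZ.n1 (-15408, 18432) (by decide +kernel)
               (CovZ.n2 (-15384, 18408) (by decide +kernel)
                (CovZ.leaf K2_ok TB_l28181 _)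
                (CovZ.leaf K2_ok TB_l28182 _))
               (CovZ.leaf K2_ok TB_l28183 _)))
             (CovZ.n1 (-15504, 18384) (by decide +kernel)
              (CovZ.n2 (-15504, 18432) (by decide +kernel)
               (CovZ.leaf K2_ok TB_l28184 _)
               (CovZ.leaf K2_ok TB_l28185 _))
              (CovZ.n1 (-15456, 18384) (by decide +kernel)
               (CovZ.leaf K2_ok TB_l28186 _)
               (CovZ.leaf K2_ok TB_l28187 _))))))
          (CovZ.n1 (-15648, 18336) (by decide +kernel)
           (CovZ.n2 (-15648, 18432) (by decide +kernel)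
            (CovZ.n2 (-15600, 18384) (by decide +kernel)
             (CovZ.leaf K2_ok TB_l28188 _)
             (CovZ.leaf K2_ok TB_l28189 _))
            (CovZ.leaf K2_ok TB_l28190 _))
           (CovZ.n1 (-15552, 18336) (by decide +kernel)
            (CovZ.n2 (-15600, 18288) (by decide +kernel)
             (CovZ.leaf K2_ok TB_l28191 _)
             (CovZ.leaf K2_ok TB_l28192 _))
            (CovZ.n1 (-15600, 18384) (by decide +kernel)
             (CovZ.leaf K2_ok TB_l28193 _)
             (CovZ.leaf K2_ok TB_l28194 _))))))
        (CovZ.n1 (-15936, 18240) (by decide +kernel)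
         (CovZ.n2 (-15936, 18432) (by decide +kernel)
          (CovZ.n2 (-15840, 18336) (by decide +kernel)
           (CovZ.leaf K2_ok TB_l28195 _)
           (CovZ.n1 (-15840, 18432) (by decide +kernel)
            (CovZ.leaf K2_ok TB_l28196 _)
            (CovZ.leaf K2_ok TB_l28197 _)))
          (CovZ.n1 (-16032, 18336) (by decide +kernel)
           (CovZ.leaf K2_ok TB_l28198 _)
           (CovZ.leaf K2_ok TB_l28199 _)))
         (CovZ.n1 (-15744, 18240) (by decide +kernel)
          (CovZ.n2 (-15840, 18144) (by decide +kernel)
           (CovZ.n2 (-15840, 18240) (by decide +kernel)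
            (CovZ.leaf K2_ok TB_l28200 _)
            (CovZ.leaf K2_ok TB_l28201 _))
           (CovZ.n1 (-15744, 18144) (by decide +kernel)
            (CovZ.leaf K2_ok TB_l28202 _)
            (CovZ.leaf K2_ok TB_l28203 _)))
          (CovZ.n1 (-15840, 18336) (by decide +kernel)
           (CovZ.n2 (-15744, 18336) (by decide +kernel)
            (CovZ.leaf K2_ok TB_l28204 _)
            (CovZ.leaf K2_ok TB_l28205 _))
           (CovZ.n1 (-15840, 18240) (by decide +kernel)
            (CovZ.leaf K2_ok TB_l28206 _)
            (CovZ.leaf K2_ok TB_l28207 _))))))))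
     (CovZ.n1 (-16512, 18048) (by decide +kernel)
      (CovZ.n2 (-16512, 18432) (by decide +kernel)
       (CovZ.subM 305310535760598319690817628855690212294005681449230458215582324638956533212495263238084712249560224931271278608 (by decide +kernel)
        (CovZ.n2 (-16320, 18240) (by decide +kernel)
         (CovZ.n2 (-16512, 18240) (by decide +kernel)
          (CovZ.leaf K2_ok TB_l28208 _)
          (CovZ.leaf K2_ok TB_l28209 _))
         (CovZ.n1 (-16320, 18432) (by decide +kernel)
          (CovZ.n2 (-16224, 18336) (by decide +kernel)
           (CovZ.leaf K2_ok TB_l28210 _)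
           (CovZ.leaf K2_ok TB_l28211 _))
          (CovZ.leaf K2_ok TB_l28212 _))))
       (CovZ.subM 2710218140521003545180016062453378437847885135589550157910325380433044809850435002304210161694822590646266789888 (by decide +kernel)
        (CovZ.n1 (-16704, 18240) (by decide +kernel)
         (CovZ.n2 (-16704, 18432) (by decide +kernel)
          (CovZ.leaf K2_ok TB_l28213 _)
          (CovZ.leaf K2_ok TB_l28214 _))
         (CovZ.n1 (-16512, 18240) (by decide +kernel)
          (CovZ.leaf K2_ok TB_l28215 _)
          (CovZ.leaf K2_ok TB_l28216 _)))))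
      (CovZ.subM 305310535760598319690817628855690212294005681449230458215582324638956538657013133973100127663553943839562661904 (by decide +kernel)
       (CovZ.n1 (-16128, 18048) (by decide +kernel)
        (CovZ.n2 (-16320, 17856) (by decide +kernel)
         (CovZ.n2 (-16320, 18048) (by decide +kernel)
          (CovZ.leaf K2_ok TB_l28217 _)
          (CovZ.leaf K2_ok TB_l28218 _))
         (CovZ.n1 (-16128, 17856) (by decide +kernel)
          (CovZ.leaf K2_ok TB_l28219 _)
          (CovZ.leaf K2_ok TB_l28220 _)))
        (CovZ.n1 (-16320, 18240) (by decide +kernel)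
         (CovZ.n2 (-16128, 18240) (by decide +kernel)
          (CovZ.leaf K2_ok TB_l28221 _)
          (CovZ.n1 (-16224, 18336) (by decide +kernel)
           (CovZ.leaf K2_ok TB_l28222 _)
           (CovZ.leaf K2_ok TB_l28223 _)))
         (CovZ.n1 (-16320, 18048) (by decide +kernel)
          (CovZ.leaf K2_ok TB_l28224 _)
          (CovZ.leaf K2_ok TB_l28225 _)))))))))

theorem TB_s11_14 : SqZ TB_M TB_L [0, 7, 6, 1] (-32256) (-4608) 1536 11 14 :=
  SqZ.mk (a := (-15360)) (b := (-13824)) (c := 16896) (d := 18432) (by norm_num) (by norm_num) (by norm_num) (by norm_num)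
    (CovZ.topM TB_LL 661055968790554496632280578779740850931954045166210682705040913982540105733717209786783016782476740125005564705595843543296 (by decide +kernel) (CovZ.n2 (-14592, 17664) (by decide +kernel)
    (CovZ.badM (by decide +kernel))
    (CovZ.n1 (-14592, 16896) (by decide +kernel)
     (CovZ.n2 (-14976, 17280) (by decide +kernel)
      (CovZ.subM 8958978968711280499604029574963973001414762585897647314925360555836294195328245239033870407487524438016 (by decide +kernel)
       (CovZ.n2 (-14592, 17280) (by decide +kernel)
        TB_u411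
        TB_u412))
      (CovZ.n1 (-14976, 16896) (by decide +kernel)
       (CovZ.n2 (-15168, 17088) (by decide +kernel)
        (CovZ.n2 (-14976, 17088) (by decide +kernel)
         (CovZ.n2 (-15072, 16992) (by decide +kernel)
          (CovZ.n2 (-15072, 17088) (by decide +kernel)
           (CovZ.n2 (-15024, 17040) (by decide +kernel)
            (CovZ.n2 (-15072, 17040) (by decide +kernel)
             (CovZ.leaf K2_ok TB_l34872 _)
             (CovZ.leaf K2_ok TB_l34873 _))
            (CovZ.n1 (-15024, 17088) (by decide +kernel)
             (CovZ.n2 (-15000, 17064) (by decide +kernel)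
              (CovZ.leaf K2_ok TB_l34874 _)
              (CovZ.leaf K2_ok TB_l34875 _))
             (CovZ.leaf K2_ok TB_l34876 _)))
           (CovZ.n1 (-15120, 17040) (by decide +kernel)
            (CovZ.n2 (-15120, 17088) (by decide +kernel)
             (CovZ.leaf K2_ok TB_l34877 _)
             (CovZ.leaf K2_ok TB_l34878 _))
            (CovZ.n1 (-15072, 17040) (by decide +kernel)
             (CovZ.leaf K2_ok TB_l34879 _)
             (CovZ.leaf K2_ok TB_l34880 _))))
          (CovZ.n1 (-14976, 16992) (by decide +kernel)
           (CovZ.n2 (-15024, 16944) (by decide +kernel)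
            (CovZ.n2 (-15024, 16992) (by decide +kernel)
             (CovZ.leaf K2_ok TB_l34881 _)
             (CovZ.leaf K2_ok TB_l34882 _))
            (CovZ.n1 (-14976, 16944) (by decide +kernel)
             (CovZ.n2 (-15000, 16920) (by decide +kernel)
              (CovZ.leaf K2_ok TB_l34883 _)
              (CovZ.leaf K2_ok TB_l34884 _))
             (CovZ.n1 (-15000, 16968) (by decide +kernel)
              (CovZ.leaf K2_ok TB_l34885 _)
              (CovZ.leaf K2_ok TB_l34886 _))))
           (CovZ.n1 (-15024, 17040) (by decide +kernel)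
            (CovZ.subM 661055968790549212411469337654717358995640451233509869914352922904907618784191031126068472235784087838999446639456611729408 (by decide +kernel)
             (CovZ.n2 (-14976, 17040) (by decide +kernel)
              (CovZ.n2 (-15000, 17016) (by decide +kernel)
               (CovZ.leaf K2_ok TB_l34887 _)
               (CovZ.leaf K2_ok TB_l34888 _))
              (CovZ.n1 (-15000, 17064) (by decide +kernel)
               (CovZ.leaf K2_ok TB_l34889 _)
               (CovZ.leaf K2_ok TB_l34890 _))))
            (CovZ.n1 (-15024, 16992) (by decide +kernel)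
             (CovZ.leaf K2_ok TB_l34891 _)
             (CovZ.leaf K2_ok TB_l34892 _)))))
         (CovZ.n1 (-15072, 17184) (by decide +kernel)
          (CovZ.subM 300613459554029621881134015993064714468060367675027529348180559282375340858910493946706034460484586905767247872 (by decide +kernel)
           (CovZ.n2 (-14976, 17184) (by decide +kernel)
            (CovZ.n2 (-15024, 17136) (by decide +kernel)
             (CovZ.n2 (-15024, 17184) (by decide +kernel)
              (CovZ.leaf K2_ok TB_l34893 _)
              (CovZ.leaf K2_ok TB_l34894 _))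
             (CovZ.n1 (-14976, 17136) (by decide +kernel)
              (CovZ.leaf K2_ok TB_l34895 _)
              (CovZ.n1 (-15000, 17160) (by decide +kernel)
               (CovZ.leaf K2_ok TB_l34896 _)
               (CovZ.leaf K2_ok TB_l34897 _))))
            (CovZ.n1 (-15024, 17232) (by decide +kernel)
             (CovZ.n2 (-14976, 17232) (by decide +kernel)
              (CovZ.leaf K2_ok TB_l34898 _)
              (CovZ.leaf K2_ok TB_l34899 _))
             (CovZ.n1 (-15024, 17184) (by decide +kernel)
              (CovZ.leaf K2_ok TB_l34900 _)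
              (CovZ.leaf K2_ok TB_l34901 _)))))
          (CovZ.n1 (-15072, 17088) (by decide +kernel)
           (CovZ.n2 (-15120, 17136) (by decide +kernel)
            (CovZ.n2 (-15072, 17136) (by decide +kernel)
             (CovZ.leaf K2_ok TB_l34902 _)
             (CovZ.leaf K2_ok TB_l34903 _))
            (CovZ.n1 (-15120, 17088) (by decide +kernel)
             (CovZ.leaf K2_ok TB_l34904 _)
             (CovZ.leaf K2_ok TB_l34905 _)))
           (CovZ.subM 661055968790549212411469337654717358995640451233509869914352922904907618784191031126068477428080946373827075169952940949504 (by decide +kernel)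
            (CovZ.n1 (-15024, 17136) (by decide +kernel)
             (CovZ.n2 (-15024, 17088) (by decide +kernel)
              (CovZ.leaf K2_ok TB_l34906 _)
              (CovZ.leaf K2_ok TB_l34907 _))
             (CovZ.n1 (-15072, 17136) (by decide +kernel)
              (CovZ.leaf K2_ok TB_l34908 _)
              (CovZ.leaf K2_ok TB_l34909 _)))))))
        (CovZ.n1 (-15168, 16896) (by decide +kernel)
         (CovZ.n2 (-15264, 16992) (by decide +kernel)
          (CovZ.n2 (-15168, 16992) (by decide +kernel)
           (CovZ.n2 (-15216, 16944) (by decide +kernel)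
            (CovZ.n2 (-15216, 16992) (by decide +kernel)
             (CovZ.leaf K2_ok TB_l34910 _)
             (CovZ.leaf K2_ok TB_l34911 _))
            (CovZ.leaf K2_ok TB_l34912 _))
           (CovZ.n1 (-15216, 17040) (by decide +kernel)
            (CovZ.leaf K2_ok TB_l34913 _)
            (CovZ.leaf K2_ok TB_l34914 _)))
          (CovZ.n1 (-15264, 16896) (by decide +kernel)
           (CovZ.n2 (-15312, 16944) (by decide +kernel)
            (CovZ.leaf K2_ok TB_l34915 _)
            (CovZ.leaf K2_ok TB_l34916 _))
           (CovZ.n1 (-15216, 16944) (by decide +kernel)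
            (CovZ.leaf K2_ok TB_l34917 _)
            (CovZ.leaf K2_ok TB_l34918 _))))
         (CovZ.n1 (-15072, 16992) (by decide +kernel)
          (CovZ.n2 (-15072, 16896) (by decide +kernel)
           (CovZ.n2 (-15120, 16944) (by decide +kernel)
            (CovZ.n2 (-15072, 16944) (by decide +kernel)
             (CovZ.leaf K2_ok TB_l34919 _)
             (CovZ.leaf K2_ok TB_l34920 _))
            (CovZ.n1 (-15120, 16896) (by decide +kernel)
             (CovZ.leaf K2_ok TB_l34921 _)
             (CovZ.leaf K2_ok TB_l34922 _)))
           (CovZ.n1 (-15024, 16944) (by decide +kernel)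
            (CovZ.n2 (-15024, 16896) (by decide +kernel)
             (CovZ.leaf K2_ok TB_l34923 _)
             (CovZ.n1 (-15000, 16920) (by decide +kernel)
              (CovZ.leaf K2_ok TB_l34924 _)
              (CovZ.leaf K2_ok TB_l34925 _)))
            (CovZ.n1 (-15072, 16944) (by decide +kernel)
             (CovZ.leaf K2_ok TB_l34926 _)
             (CovZ.leaf K2_ok TB_l34927 _))))
          (CovZ.n1 (-15168, 16992) (by decide +kernel)
           (CovZ.n2 (-15120, 17040) (by decide +kernel)
            (CovZ.n2 (-15120, 16992) (by decide +kernel)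
             (CovZ.leaf K2_ok TB_l34928 _)
             (CovZ.leaf K2_ok TB_l34929 _))
            (CovZ.leaf K2_ok TB_l34930 _))
           (CovZ.n1 (-15120, 16944) (by decide +kernel)
            (CovZ.leaf K2_ok TB_l34931 _)
            (CovZ.n1 (-15120, 16992) (by decide +kernel)
             (CovZ.leaf K2_ok TB_l34932 _)
             (CovZ.leaf K2_ok TB_l34933 _)))))))
       (CovZ.n1 (-14784, 17088) (by decide +kernel)
        TB_u413
        TB_u414)))
     (CovZ.n1 (-14208, 17280) (by decide +kernel)
      (CovZ.badM (by decide +kernel))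
      (CovZ.n1 (-14592, 17280) (by decide +kernel)
       (CovZ.badM (by decide +kernel))
       (CovZ.badM (by decide +kernel)))))))
    (CovZ.topM TB_LL 661055968790554496632280578779740850931954045282002772050196896074713649921073177988131524142665881854625438637923414180096 (by decide +kernel) (CovZ.n0 (-14592, 17664) (by decide +kernel)
    (CovZ.n2 (-15360, 17664) (by decide +kernel)
     (CovZ.n2 (-14976, 18048) (by decide +kernel)
      (CovZ.n2 (-14976, 17664) (by decide +kernel)
       TB_u415
       TB_u416)
      (CovZ.n1 (-15360, 18048) (by decide +kernel)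
       TB_u417
       TB_u418))
     (CovZ.n1 (-14976, 17280) (by decide +kernel)
      (CovZ.n2 (-15360, 17280) (by decide +kernel)
       (CovZ.n2 (-15168, 17472) (by decide +kernel)
        (CovZ.n2 (-15168, 17280) (by decide +kernel)
         (CovZ.n2 (-15264, 17376) (by decide +kernel)
          (CovZ.subM 301200595199723080188042728768001596034708399384491816248318537327260975559067773821910706677212506807968203008 (by decide +kernel)
           (CovZ.n2 (-15168, 17376) (by decide +kernel)
            (CovZ.n2 (-15216, 17328) (by decide +kernel)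
             (CovZ.n2 (-15216, 17376) (by decide +kernel)
              (CovZ.leaf K2_ok TB_l35298 _)
              (CovZ.leaf K2_ok TB_l35299 _))
             (CovZ.leaf K2_ok TB_l35300 _))
            (CovZ.n1 (-15216, 17424) (by decide +kernel)
             (CovZ.leaf K2_ok TB_l35301 _)
             (CovZ.leaf K2_ok TB_l35302 _))))
          (CovZ.n1 (-15264, 17280) (by decide +kernel)
           (CovZ.n2 (-15312, 17328) (by decide +kernel)
            (CovZ.leaf K2_ok TB_l35303 _)
            (CovZ.leaf K2_ok TB_l35304 _))
           (CovZ.n1 (-15216, 17328) (by decide +kernel)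
            (CovZ.n2 (-15216, 17280) (by decide +kernel)
             (CovZ.leaf K2_ok TB_l35305 _)
             (CovZ.leaf K2_ok TB_l35306 _))
            (CovZ.leaf K2_ok TB_l35307 _))))
         (CovZ.subM 301200595199723080188042728768001596034708399384491816248324523637967482937420736114985512572316902319588376832 (by decide +kernel)
          (CovZ.n1 (-15072, 17376) (by decide +kernel)
           (CovZ.n2 (-15072, 17280) (by decide +kernel)
            (CovZ.n2 (-15120, 17328) (by decide +kernel)
             (CovZ.n2 (-15072, 17328) (by decide +kernel)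
              (CovZ.leaf K2_ok TB_l35308 _)
              (CovZ.leaf K2_ok TB_l35309 _))
             (CovZ.leaf K2_ok TB_l35310 _))
            (CovZ.n1 (-15024, 17328) (by decide +kernel)
             (CovZ.n2 (-15024, 17280) (by decide +kernel)
              (CovZ.leaf K2_ok TB_l35311 _)
              (CovZ.leaf K2_ok TB_l35312 _))
             (CovZ.n1 (-15072, 17328) (by decide +kernel)
              (CovZ.leaf K2_ok TB_l35313 _)
              (CovZ.leaf K2_ok TB_l35314 _))))
           (CovZ.n1 (-15168, 17376) (by decide +kernel)
            (CovZ.n2 (-15120, 17424) (by decide +kernel)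
             (CovZ.n2 (-15120, 17376) (by decide +kernel)
              (CovZ.leaf K2_ok TB_l35315 _)
              (CovZ.leaf K2_ok TB_l35316 _))
             (CovZ.leaf K2_ok TB_l35317 _))
            (CovZ.n1 (-15120, 17328) (by decide +kernel)
             (CovZ.leaf K2_ok TB_l35318 _)
             (CovZ.n1 (-15120, 17376) (by decide +kernel)
              (CovZ.leaf K2_ok TB_l35319 _)
              (CovZ.leaf K2_ok TB_l35320 _)))))))
        (CovZ.n1 (-15360, 17472) (by decide +kernel)
         (CovZ.n2 (-15264, 17568) (by decide +kernel)
          (CovZ.n2 (-15264, 17472) (by decide +kernel)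
           (CovZ.n2 (-15312, 17520) (by decide +kernel)
            (CovZ.leaf K2_ok TB_l35321 _)
            (CovZ.leaf K2_ok TB_l35322 _))
           (CovZ.n1 (-15216, 17520) (by decide +kernel)
            (CovZ.leaf K2_ok TB_l35323 _)
            (CovZ.leaf K2_ok TB_l35324 _)))
          (CovZ.n1 (-15360, 17568) (by decide +kernel)
           (CovZ.n2 (-15312, 17616) (by decide +kernel)
            (CovZ.leaf K2_ok TB_l35325 _)
            (CovZ.leaf K2_ok TB_l35326 _))
           (CovZ.n1 (-15312, 17520) (by decide +kernel)
            (CovZ.leaf K2_ok TB_l35327 _)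
            (CovZ.leaf K2_ok TB_l35328 _))))
         (CovZ.n1 (-15264, 17376) (by decide +kernel)
          (CovZ.n2 (-15360, 17376) (by decide +kernel)
           (CovZ.n2 (-15312, 17424) (by decide +kernel)
            (CovZ.leaf K2_ok TB_l35329 _)
            (CovZ.leaf K2_ok TB_l35330 _))
           (CovZ.n1 (-15312, 17328) (by decide +kernel)
            (CovZ.leaf K2_ok TB_l35331 _)
            (CovZ.leaf K2_ok TB_l35332 _)))
          (CovZ.n1 (-15264, 17472) (by decide +kernel)
           (CovZ.n2 (-15216, 17424) (by decide +kernel)
            (CovZ.leaf K2_ok TB_l35333 _)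
            (CovZ.n1 (-15216, 17472) (by decide +kernel)
             (CovZ.leaf K2_ok TB_l35334 _)
             (CovZ.leaf K2_ok TB_l35335 _)))
           (CovZ.n1 (-15312, 17424) (by decide +kernel)
            (CovZ.leaf K2_ok TB_l35336 _)
            (CovZ.leaf K2_ok TB_l35337 _))))))
       (CovZ.n1 (-15168, 17088) (by decide +kernel)
        (CovZ.n2 (-15360, 17088) (by decide +kernel)
         (CovZ.n2 (-15264, 17184) (by decide +kernel)
          (CovZ.n2 (-15264, 17088) (by decide +kernel)
           (CovZ.n2 (-15312, 17136) (by decide +kernel)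
            (CovZ.leaf K2_ok TB_l35338 _)
            (CovZ.leaf K2_ok TB_l35339 _))
           (CovZ.n1 (-15216, 17136) (by decide +kernel)
            (CovZ.leaf K2_ok TB_l35340 _)
            (CovZ.leaf K2_ok TB_l35341 _)))
          (CovZ.n1 (-15360, 17184) (by decide +kernel)
           (CovZ.leaf K2_ok TB_l35342 _)
           (CovZ.n1 (-15312, 17136) (by decide +kernel)
            (CovZ.leaf K2_ok TB_l35343 _)
            (CovZ.leaf K2_ok TB_l35344 _))))
         (CovZ.n1 (-15264, 16992) (by decide +kernel)
          (CovZ.n2 (-15360, 16992) (by decide +kernel)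
           (CovZ.n2 (-15312, 17040) (by decide +kernel)
            (CovZ.leaf K2_ok TB_l35345 _)
            (CovZ.leaf K2_ok TB_l35346 _))
           (CovZ.n1 (-15312, 16944) (by decide +kernel)
            (CovZ.leaf K2_ok TB_l35347 _)
            (CovZ.leaf K2_ok TB_l35348 _)))
          (CovZ.n1 (-15264, 17088) (by decide +kernel)
           (CovZ.n2 (-15216, 17040) (by decide +kernel)
            (CovZ.leaf K2_ok TB_l35349 _)
            (CovZ.n1 (-15216, 17088) (by decide +kernel)
             (CovZ.leaf K2_ok TB_l35350 _)
             (CovZ.leaf K2_ok TB_l35351 _)))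
           (CovZ.n1 (-15312, 17040) (by decide +kernel)
            (CovZ.leaf K2_ok TB_l35352 _)
            (CovZ.leaf K2_ok TB_l35353 _)))))
        (CovZ.n1 (-15168, 17280) (by decide +kernel)
         (CovZ.n2 (-15072, 17184) (by decide +kernel)
          (CovZ.n2 (-15168, 17184) (by decide +kernel)
           (CovZ.n2 (-15120, 17232) (by decide +kernel)
            (CovZ.n2 (-15120, 17184) (by decide +kernel)
             (CovZ.leaf K2_ok TB_l35354 _)
             (CovZ.leaf K2_ok TB_l35355 _))
            (CovZ.leaf K2_ok TB_l35356 _))
           (CovZ.n1 (-15120, 17136) (by decide +kernel)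
            (CovZ.leaf K2_ok TB_l35357 _)
            (CovZ.n1 (-15120, 17184) (by decide +kernel)
             (CovZ.leaf K2_ok TB_l35358 _)
             (CovZ.leaf K2_ok TB_l35359 _))))
          (CovZ.subM 301200595199723080188106386142262048724904288312254609315857382025269543445253115504027836987934506591656608000 (by decide +kernel)
           (CovZ.n1 (-15072, 17280) (by decide +kernel)
            (CovZ.n2 (-15024, 17232) (by decide +kernel)
             (CovZ.n2 (-15072, 17232) (by decide +kernel)
              (CovZ.leaf K2_ok TB_l35360 _)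
              (CovZ.leaf K2_ok TB_l35361 _))
             (CovZ.n1 (-15024, 17280) (by decide +kernel)
              (CovZ.leaf K2_ok TB_l35362 _)
              (CovZ.leaf K2_ok TB_l35363 _)))
            (CovZ.n1 (-15120, 17232) (by decide +kernel)
             (CovZ.n2 (-15120, 17280) (by decide +kernel)
              (CovZ.leaf K2_ok TB_l35364 _)
              (CovZ.leaf K2_ok TB_l35365 _))
             (CovZ.n1 (-15072, 17232) (by decide +kernel)
              (CovZ.leaf K2_ok TB_l35366 _)
              (CovZ.leaf K2_ok TB_l35367 _))))))
         (CovZ.n1 (-15264, 17184) (by decide +kernel)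
          (CovZ.n2 (-15264, 17280) (by decide +kernel)
           (CovZ.n2 (-15216, 17232) (by decide +kernel)
            (CovZ.leaf K2_ok TB_l35368 _)
            (CovZ.leaf K2_ok TB_l35369 _))
           (CovZ.n1 (-15312, 17232) (by decide +kernel)
            (CovZ.leaf K2_ok TB_l35370 _)
            (CovZ.leaf K2_ok TB_l35371 _)))
          (CovZ.n1 (-15168, 17184) (by decide +kernel)
           (CovZ.n2 (-15216, 17136) (by decide +kernel)
            (CovZ.n2 (-15216, 17184) (by decide +kernel)
             (CovZ.leaf K2_ok TB_l35372 _)
             (CovZ.leaf K2_ok TB_l35373 _))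
            (CovZ.leaf K2_ok TB_l35374 _))
           (CovZ.n1 (-15216, 17232) (by decide +kernel)
            (CovZ.leaf K2_ok TB_l35375 _)
            (CovZ.leaf K2_ok TB_l35376 _)))))))
      (CovZ.n1 (-14976, 17664) (by decide +kernel)
       TB_u419
       TB_u420)))
    (CovZ.subM 5284220811241124762751331342779829450541087727572714974629299399996134624593149392276215379450572050949865728 (by decide +kernel)
     (CovZ.n1 (-14592, 18432) (by decide +kernel)
      (CovZ.badM (by decide +kernel))
      (CovZ.n1 (-14976, 18048) (by decide +kernel)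
       (CovZ.n2 (-14976, 18432) (by decide +kernel)
        (CovZ.badM (by decide +kernel))
        (CovZ.n1 (-15168, 18240) (by decide +kernel)
         (CovZ.subM 4697085165547666455778961193582495193697167090345635006952476656566708666427433982566295073118084504028839936 (by decide +kernel)
          (CovZ.n2 (-15168, 18432) (by decide +kernel)
           (CovZ.badM (by decide +kernel))
           (CovZ.n1 (-15264, 18336) (by decide +kernel)
            (CovZ.n2 (-15264, 18432) (by decide +kernel)
             (CovZ.badM (by decide +kernel))
             (CovZ.n1 (-15312, 18384) (by decide +kernel)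
              (CovZ.n2 (-15312, 18432) (by decide +kernel)
               (CovZ.n2 (-15288, 18408) (by decide +kernel)
                (CovZ.leaf K2_ok TB_l46937 _)
                (CovZ.n1 (-15288, 18432) (by decide +kernel)
                 (CovZ.badM (by decide +kernel))
                 (CovZ.leaf K2_ok TB_l46939 _)))
               (CovZ.n1 (-15336, 18408) (by decide +kernel)
                (CovZ.n2 (-15336, 18432) (by decide +kernel)
                 (CovZ.leaf K2_ok TB_l46940 _)
                 (CovZ.leaf K2_ok TB_l35531 _))
                (CovZ.leaf K2_ok TB_l46941 _)))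
              (CovZ.subM 73786976294838206464 (by decide +kernel)
               (CovZ.n1 (-15264, 18384) (by decide +kernel)
                (CovZ.n2 (-15288, 18360) (by decide +kernel)
                 (CovZ.n2 (-15288, 18384) (by decide +kernel)
                  (CovZ.badM (by decide +kernel))
                  (CovZ.leaf K2_ok TB_l46943 _))
                 (CovZ.badM (by decide +kernel)))
                (CovZ.n1 (-15288, 18408) (by decide +kernel)
                 (CovZ.badM (by decide +kernel))
                 (CovZ.n1 (-15288, 18384) (by decide +kernel)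
                  (CovZ.leaf K2_ok TB_l46946 _)
                  (CovZ.badM (by decide +kernel))))))))
            (CovZ.badM (by decide +kernel)))))
         (CovZ.subM 587135645693458306972370149197334256843920637227079967676822742894202628877917422439110460371745614860386560 (by decide +kernel)
          (CovZ.n1 (-14976, 18240) (by decide +kernel)
           (CovZ.n2 (-15072, 18144) (by decide +kernel)
            (CovZ.n2 (-15072, 18240) (by decide +kernel)
             (CovZ.badM (by decide +kernel))
             (CovZ.n1 (-15120, 18192) (by decide +kernel)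
              (CovZ.badM (by decide +kernel))
              (CovZ.n1 (-15072, 18192) (by decide +kernel)
               (CovZ.n2 (-15096, 18168) (by decide +kernel)
                (CovZ.n2 (-15096, 18192) (by decide +kernel)
                 (CovZ.badM (by decide +kernel))
                 (CovZ.leaf K2_ok TB_l35541 _))
                (CovZ.badM (by decide +kernel)))
               (CovZ.n1 (-15096, 18216) (by decide +kernel)
                (CovZ.badM (by decide +kernel))
                (CovZ.n1 (-15096, 18192) (by decide +kernel)
                 (CovZ.badM (by decide +kernel))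
                 (CovZ.badM (by decide +kernel)))))))
            (CovZ.badM (by decide +kernel)))
           (CovZ.n1 (-15072, 18336) (by decide +kernel)
            (CovZ.badM (by decide +kernel))
            (CovZ.n1 (-15072, 18240) (by decide +kernel)
             (CovZ.badM (by decide +kernel))
             (CovZ.badM (by decide +kernel))))))))
       (CovZ.n1 (-14592, 18048) (by decide +kernel)
        (CovZ.n2 (-14784, 17856) (by decide +kernel)
         (CovZ.badM (by decide +kernel))
         (CovZ.badM (by decide +kernel)))
        (CovZ.badM (by decide +kernel))))))))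

theorem TB_s12_14 : SqZ TB_M TB_L [0, 7, 6, 1] (-32256) (-4608) 1536 12 14 :=
  SqZ.mk (a := (-13824)) (b := (-12288)) (c := 16896) (d := 18432) (by norm_num) (by norm_num) (by norm_num) (by norm_num)
    (CovZ.topM TB_LL 0 (by decide +kernel) (CovZ.badM (by decide +kernel)))
    (CovZ.topM TB_LL 0 (by decide +kernel) (CovZ.badM (by decide +kernel)))

theorem TB_s0_15 : SqZ TB_M TB_L [0, 7, 6, 1] (-32256) (-4608) 1536 0 15 :=
  SqZ.mk (a := (-32256)) (b := (-30720)) (c := 18432) (d := 19968) (by norm_num) (by norm_num) (by norm_num) (by norm_num)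
    (CovZ.topM TB_LL 2353129859973906143154175441529284225823720636258563057311064562201646888730119284886260675824942078871207936 (by decide +kernel) (CovZ.leaf K2_ok TB_l1841 _))
    (CovZ.topM TB_LL 2353129859973906143154175441529284225823720636258563057311064562201646888730119284886260675824942078871207936 (by decide +kernel) (CovZ.leaf K2_ok TB_l1842 _))

theorem TB_s1_15 : SqZ TB_M TB_L [0, 7, 6, 1] (-32256) (-4608) 1536 1 15 :=
  SqZ.mk (a := (-30720)) (b := (-29184)) (c := 18432) (d := 19968) (by norm_num) (by norm_num) (by norm_num) (by norm_num)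
    (CovZ.topM TB_LL 5043456795491623199145623275972558008579490852443297809755944613054516948958865054560048546623859907511181296595369984 (by decide +kernel) (CovZ.leaf K2_ok TB_l4985 _))
    (CovZ.topM TB_LL 5043456795491623199145623275972558008579490852443297809755944613054516948958865054560048546623859907511181296595369984 (by decide +kernel) (CovZ.leaf K2_ok TB_l4986 _))

theorem TB_s2_15 : SqZ TB_M TB_L [0, 7, 6, 1] (-32256) (-4608) 1536 2 15 :=
  SqZ.mk (a := (-29184)) (b := (-27648)) (c := 18432) (d := 19968) (by norm_num) (by norm_num) (by norm_num) (by norm_num)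
    (CovZ.topM TB_LL 5043456793138493339171717132834328964652041523698219635926264656343733324316518645163976051077084924416754786808102912 (by decide +kernel) (CovZ.leaf K2_ok TB_l8276 _))
    (CovZ.topM TB_LL 5043456793138493339171717132834328964652041523698219635926264656343733324316518645163976051077084924416754786808102912 (by decide +kernel) (CovZ.leaf K2_ok TB_l8277 _))

theorem TB_s3_15 : SqZ TB_M TB_L [0, 7, 6, 1] (-32256) (-4608) 1536 3 15 :=
  SqZ.mk (a := (-27648)) (b := (-26112)) (c := 18432) (d := 19968) (by norm_num) (by norm_num) (by norm_num) (by norm_num)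
    (CovZ.topM TB_LL 5043456793138493409163740325890678490535391066932433103450881491608005896667886977445133152830331249669272369090527360 (by decide +kernel) (CovZ.leaf K2_ok TB_l11609 _))
    (CovZ.topM TB_LL 5043456793138493409163740325890678490535391066932433103450881491608005896667886977445133152830331249669272369090527360 (by decide +kernel) (CovZ.leaf K2_ok TB_l11610 _))

theorem TB_s4_15 : SqZ TB_M TB_L [0, 7, 6, 1] (-32256) (-4608) 1536 4 15 :=
  SqZ.mk (a := (-26112)) (b := (-24576)) (c := 18432) (d := 19968) (by norm_num) (by norm_num) (by norm_num) (by norm_num)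
    (CovZ.topM TB_LL 631663411835949099859883151205914022257904644374446960892027670799798706760137269538072325248303414314334467127509124 (by decide +kernel) (CovZ.n2 (-25344, 19200) (by decide +kernel)
    (CovZ.leaf K2_ok TB_l13822 _)
    (CovZ.leaf K2_ok TB_l13823 _)))
    (CovZ.topM TB_LL 631663411835949099859883151205914022257904644374446960892027670799798706760137269538072325248303414314334467127509124 (by decide +kernel) (CovZ.n0 (-25344, 19200) (by decide +kernel)
    (CovZ.leaf K2_ok TB_l13824 _)
    (CovZ.leaf K2_ok TB_l13825 _)))

theorem TB_s5_15 : SqZ TB_M TB_L [0, 7, 6, 1] (-32256) (-4608) 1536 5 15 :=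
  SqZ.mk (a := (-24576)) (b := (-23040)) (c := 18432) (d := 19968) (by norm_num) (by norm_num) (by norm_num) (by norm_num)
    (CovZ.topM TB_LL 631665816743553873388612858716202337208920867230133003189890455038836481108284638392599043323296923625148370437537924 (by decide +kernel) (CovZ.n2 (-23808, 19200) (by decide +kernel)
    (CovZ.n2 (-23040, 19200) (by decide +kernel)
     (CovZ.leaf K2_ok TB_l15564 _)
     (CovZ.leaf K2_ok TB_l15565 _))
    (CovZ.leaf K2_ok TB_l15566 _)))
    (CovZ.topM TB_LL 631665816743553873388612858716202337208920867230133003189890455038836481108284638392599043323296923625148370437537924 (by decide +kernel) (CovZ.n0 (-23808, 19200) (by decide +kernel)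
    (CovZ.leaf K2_ok TB_l15567 _)
    (CovZ.n1 (-23808, 19968) (by decide +kernel)
     (CovZ.leaf K2_ok TB_l15568 _)
     (CovZ.leaf K2_ok TB_l15569 _))))

theorem TB_s6_15 : SqZ TB_M TB_L [0, 7, 6, 1] (-32256) (-4608) 1536 6 15 :=
  SqZ.mk (a := (-23040)) (b := (-21504)) (c := 18432) (d := 19968) (by norm_num) (by norm_num) (by norm_num) (by norm_num)
    (CovZ.topM TB_LL 631665816743553873402847209822769027054881441568903534078610040645603795480090078617502485370921510588708285885743236 (by decide +kernel) (CovZ.n2 (-22272, 19200) (by decide +kernel)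
    (CovZ.n2 (-21504, 19200) (by decide +kernel)
     (CovZ.leaf K2_ok TB_l18622 _)
     (CovZ.leaf K2_ok TB_l18623 _))
    (CovZ.n1 (-22272, 18432) (by decide +kernel)
     (CovZ.leaf K2_ok TB_l18624 _)
     (CovZ.leaf K2_ok TB_l18625 _))))
    (CovZ.topM TB_LL 631665816743553873402847209822769027054881441568903534078610040645603795480090078617502485370921510588708285885743236 (by decide +kernel) (CovZ.n0 (-22272, 19200) (by decide +kernel)
    (CovZ.n2 (-23040, 19200) (by decide +kernel)
     (CovZ.leaf K2_ok TB_l18626 _)
     (CovZ.leaf K2_ok TB_l18627 _))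
    (CovZ.n1 (-22272, 19968) (by decide +kernel)
     (CovZ.leaf K2_ok TB_l18628 _)
     (CovZ.leaf K2_ok TB_l18629 _))))

theorem TB_s7_15 : SqZ TB_M TB_L [0, 7, 6, 1] (-32256) (-4608) 1536 7 15 :=
  SqZ.mk (a := (-21504)) (b := (-19968)) (c := 18432) (d := 19968) (by norm_num) (by norm_num) (by norm_num) (by norm_num)
    (CovZ.topM TB_LL 1233717610416200464652581674333925693712503794660638604714325854664235568303123985036569326449314373189655939153952 (by decide +kernel) (CovZ.n2 (-20736, 19200) (by decide +kernel)
    (CovZ.n2 (-19968, 19200) (by decide +kernel)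
     (CovZ.n2 (-20352, 18816) (by decide +kernel)
      (CovZ.leaf K2_ok TB_l19529 _)
      (CovZ.leaf K2_ok TB_l19530 _))
     (CovZ.n1 (-20352, 19584) (by decide +kernel)
      (CovZ.leaf K2_ok TB_l19531 _)
      (CovZ.leaf K2_ok TB_l19532 _)))
    (CovZ.n1 (-20736, 18432) (by decide +kernel)
     (CovZ.n2 (-21120, 18816) (by decide +kernel)
      (CovZ.leaf K2_ok TB_l19533 _)
      (CovZ.leaf K2_ok TB_l19534 _))
     (CovZ.n1 (-20352, 18816) (by decide +kernel)
      (CovZ.leaf K2_ok TB_l19535 _)
      (CovZ.leaf K2_ok TB_l19536 _)))))
    (CovZ.topM TB_LL 1233717610416200464652581674333925693712503793797920311365505381234891085518495803480180704928016053794340411179040 (by decide +kernel) (CovZ.n0 (-20736, 19200) (by decide +kernel)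
    (CovZ.n2 (-21504, 19200) (by decide +kernel)
     (CovZ.leaf K2_ok TB_l19537 _)
     (CovZ.n1 (-21120, 18816) (by decide +kernel)
      (CovZ.leaf K2_ok TB_l19538 _)
      (CovZ.leaf K2_ok TB_l19539 _)))
    (CovZ.n1 (-20736, 19968) (by decide +kernel)
     (CovZ.n2 (-20352, 19584) (by decide +kernel)
      (CovZ.leaf K2_ok TB_l19540 _)
      (CovZ.leaf K2_ok TB_l19541 _))
     (CovZ.leaf K2_ok TB_l19542 _))))

theorem TB_s8_15 : SqZ TB_M TB_L [0, 7, 6, 1] (-32256) (-4608) 1536 8 15 :=
  SqZ.mk (a := (-19968)) (b := (-18432)) (c := 18432) (d := 19968) (by norm_num) (by norm_num) (by norm_num) (by norm_num)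
    (CovZ.topM TB_LL 1233797451689937186950553972094561040274335198452867320784011833552661146277250211773710181287364251172548536074752 (by decide +kernel) (CovZ.n2 (-19200, 19200) (by decide +kernel)
    (CovZ.n2 (-18432, 19200) (by decide +kernel)
     (CovZ.n2 (-18816, 18816) (by decide +kernel)
      (CovZ.leaf K2_ok TB_l20295 _)
      (CovZ.leaf K2_ok TB_l20296 _))
     (CovZ.n1 (-18816, 19584) (by decide +kernel)
      (CovZ.n2 (-18432, 19584) (by decide +kernel)
       (CovZ.leaf K2_ok TB_l20297 _)
       (CovZ.leaf K2_ok TB_l20298 _))
      (CovZ.leaf K2_ok TB_l20299 _)))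
    (CovZ.n1 (-19200, 18432) (by decide +kernel)
     (CovZ.n2 (-19584, 18816) (by decide +kernel)
      (CovZ.leaf K2_ok TB_l20300 _)
      (CovZ.leaf K2_ok TB_l20301 _))
     (CovZ.n1 (-18816, 18816) (by decide +kernel)
      (CovZ.n2 (-18816, 18432) (by decide +kernel)
       (CovZ.leaf K2_ok TB_l20302 _)
       (CovZ.leaf K2_ok TB_l20303 _))
      (CovZ.leaf K2_ok TB_l20304 _)))))
    (CovZ.topM TB_LL 1233792754604771639284098193133367461600280447087769504144270418970718081859199982556823244217960924718109074555392 (by decide +kernel) (CovZ.n0 (-19200, 19200) (by decide +kernel)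
    (CovZ.n2 (-19968, 19200) (by decide +kernel)
     (CovZ.n2 (-19584, 19584) (by decide +kernel)
      (CovZ.leaf K2_ok TB_l20305 _)
      (CovZ.leaf K2_ok TB_l20306 _))
     (CovZ.n1 (-19584, 18816) (by decide +kernel)
      (CovZ.leaf K2_ok TB_l20307 _)
      (CovZ.leaf K2_ok TB_l20308 _)))
    (CovZ.n1 (-19200, 19968) (by decide +kernel)
     (CovZ.n2 (-18816, 19584) (by decide +kernel)
      (CovZ.leaf K2_ok TB_l20309 _)
      (CovZ.n1 (-18816, 19968) (by decide +kernel)
       (CovZ.leaf K2_ok TB_l20310 _)
       (CovZ.leaf K2_ok TB_l20311 _)))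
     (CovZ.n1 (-19584, 19584) (by decide +kernel)
      (CovZ.leaf K2_ok TB_l20312 _)
      (CovZ.leaf K2_ok TB_l20313 _)))))

theorem TB_s9_15 : SqZ TB_M TB_L [0, 7, 6, 1] (-32256) (-4608) 1536 9 15 :=
  SqZ.mk (a := (-18432)) (b := (-16896)) (c := 18432) (d := 19968) (by norm_num) (by norm_num) (by norm_num) (by norm_num)
    (CovZ.topM TB_LL 2785371503204762220069007632340597258358230630766461700749645914880073557985618591456438106338822124585265299520 (by decide +kernel) (CovZ.n2 (-17664, 19200) (by decide +kernel)
    (CovZ.n2 (-16896, 19200) (by decide +kernel)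
     (CovZ.n2 (-17280, 18816) (by decide +kernel)
      (CovZ.n2 (-17280, 19200) (by decide +kernel)
       (CovZ.n2 (-17088, 19008) (by decide +kernel)
        (CovZ.leaf K2_ok TB_l22262 _)
        (CovZ.n1 (-17088, 19200) (by decide +kernel)
         (CovZ.leaf K2_ok TB_l22263 _)
         (CovZ.leaf K2_ok TB_l22264 _)))
       (CovZ.n1 (-17472, 19008) (by decide +kernel)
        (CovZ.leaf K2_ok TB_l22265 _)
        (CovZ.leaf K2_ok TB_l22266 _)))
      (CovZ.n1 (-16896, 18816) (by decide +kernel)
       (CovZ.n2 (-17088, 18624) (by decide +kernel)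
        (CovZ.n2 (-17088, 18816) (by decide +kernel)
         (CovZ.leaf K2_ok TB_l22267 _)
         (CovZ.leaf K2_ok TB_l22268 _))
        (CovZ.leaf K2_ok TB_l22269 _))
       (CovZ.n1 (-17088, 19008) (by decide +kernel)
        (CovZ.n2 (-16896, 19008) (by decide +kernel)
         (CovZ.leaf K2_ok TB_l22270 _)
         (CovZ.leaf K2_ok TB_l22271 _))
        (CovZ.n1 (-17088, 18816) (by decide +kernel)
         (CovZ.leaf K2_ok TB_l22272 _)
         (CovZ.leaf K2_ok TB_l22273 _)))))
     (CovZ.n1 (-17280, 19584) (by decide +kernel)
      (CovZ.n2 (-16896, 19584) (by decide +kernel)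
       (CovZ.n2 (-17088, 19392) (by decide +kernel)
        (CovZ.n2 (-17088, 19584) (by decide +kernel)
         (CovZ.leaf K2_ok TB_l22274 _)
         (CovZ.leaf K2_ok TB_l22275 _))
        (CovZ.n1 (-16896, 19392) (by decide +kernel)
         (CovZ.leaf K2_ok TB_l22276 _)
         (CovZ.leaf K2_ok TB_l22277 _)))
       (CovZ.n1 (-17088, 19776) (by decide +kernel)
        (CovZ.n2 (-16896, 19776) (by decide +kernel)
         (CovZ.leaf K2_ok TB_l22278 _)
         (CovZ.n1 (-16992, 19872) (by decide +kernel)
          (CovZ.leaf K2_ok TB_l22279 _)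
          (CovZ.leaf K2_ok TB_l22280 _)))
        (CovZ.n1 (-17088, 19584) (by decide +kernel)
         (CovZ.leaf K2_ok TB_l22281 _)
         (CovZ.leaf K2_ok TB_l22282 _))))
      (CovZ.n1 (-17280, 19200) (by decide +kernel)
       (CovZ.n2 (-17472, 19392) (by decide +kernel)
        (CovZ.leaf K2_ok TB_l22283 _)
        (CovZ.leaf K2_ok TB_l22284 _))
       (CovZ.n1 (-17088, 19392) (by decide +kernel)
        (CovZ.n2 (-17088, 19200) (by decide +kernel)
         (CovZ.leaf K2_ok TB_l22285 _)
         (CovZ.leaf K2_ok TB_l22286 _))
        (CovZ.n1 (-17280, 19392) (by decide +kernel)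
         (CovZ.leaf K2_ok TB_l22287 _)
         (CovZ.leaf K2_ok TB_l22288 _))))))
    (CovZ.n1 (-17664, 18432) (by decide +kernel)
     (CovZ.n2 (-18048, 18816) (by decide +kernel)
      (CovZ.n2 (-17664, 18816) (by decide +kernel)
       (CovZ.leaf K2_ok TB_l22289 _)
       (CovZ.leaf K2_ok TB_l22290 _))
      (CovZ.n1 (-18048, 18432) (by decide +kernel)
       (CovZ.leaf K2_ok TB_l22291 _)
       (CovZ.leaf K2_ok TB_l22292 _)))
     (CovZ.n1 (-17280, 18816) (by decide +kernel)
      (CovZ.n2 (-17280, 18432) (by decide +kernel)
       (CovZ.n2 (-17472, 18624) (by decide +kernel)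
        (CovZ.leaf K2_ok TB_l22293 _)
        (CovZ.leaf K2_ok TB_l22294 _))
       (CovZ.n1 (-17088, 18624) (by decide +kernel)
        (CovZ.leaf K2_ok TB_l22295 _)
        (CovZ.leaf K2_ok TB_l22296 _)))
      (CovZ.n1 (-17664, 18816) (by decide +kernel)
       (CovZ.n2 (-17472, 19008) (by decide +kernel)
        (CovZ.leaf K2_ok TB_l22297 _)
        (CovZ.leaf K2_ok TB_l22298 _))
       (CovZ.n1 (-17472, 18624) (by decide +kernel)
        (CovZ.leaf K2_ok TB_l22299 _)
        (CovZ.leaf K2_ok TB_l22300 _)))))))
    (CovZ.topM TB_LL 2785371503204762220069007632340597258358230630766461700749645914880073557985618591456438106338822124585265299520 (by decide +kernel) (CovZ.n0 (-17664, 19200) (by decide +kernel)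
    (CovZ.n2 (-18432, 19200) (by decide +kernel)
     (CovZ.n2 (-18048, 19584) (by decide +kernel)
      (CovZ.n2 (-18048, 19200) (by decide +kernel)
       (CovZ.leaf K2_ok TB_l22301 _)
       (CovZ.leaf K2_ok TB_l22302 _))
      (CovZ.n1 (-18432, 19584) (by decide +kernel)
       (CovZ.leaf K2_ok TB_l22303 _)
       (CovZ.leaf K2_ok TB_l22304 _)))
     (CovZ.n1 (-18048, 18816) (by decide +kernel)
      (CovZ.n2 (-18432, 18816) (by decide +kernel)
       (CovZ.leaf K2_ok TB_l22305 _)
       (CovZ.leaf K2_ok TB_l22306 _))
      (CovZ.n1 (-18048, 19200) (by decide +kernel)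
       (CovZ.leaf K2_ok TB_l22307 _)
       (CovZ.leaf K2_ok TB_l22308 _))))
    (CovZ.n1 (-17664, 19968) (by decide +kernel)
     (CovZ.n2 (-17280, 19584) (by decide +kernel)
      (CovZ.n2 (-17664, 19584) (by decide +kernel)
       (CovZ.n2 (-17472, 19776) (by decide +kernel)
        (CovZ.n2 (-17472, 19584) (by decide +kernel)
         (CovZ.leaf K2_ok TB_l22309 _)
         (CovZ.leaf K2_ok TB_l22310 _))
        (CovZ.leaf K2_ok TB_l22311 _))
       (CovZ.n1 (-17472, 19392) (by decide +kernel)
        (CovZ.leaf K2_ok TB_l22312 _)
        (CovZ.n1 (-17472, 19584) (by decide +kernel)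
         (CovZ.leaf K2_ok TB_l22313 _)
         (CovZ.leaf K2_ok TB_l22314 _))))
      (CovZ.n1 (-17280, 19968) (by decide +kernel)
       (CovZ.n2 (-17088, 19776) (by decide +kernel)
        (CovZ.n2 (-17280, 19776) (by decide +kernel)
         (CovZ.leaf K2_ok TB_l22315 _)
         (CovZ.leaf K2_ok TB_l22316 _))
        (CovZ.n1 (-17088, 19968) (by decide +kernel)
         (CovZ.n2 (-16992, 19872) (by decide +kernel)
          (CovZ.leaf K2_ok TB_l22317 _)
          (CovZ.leaf K2_ok TB_l22318 _))
         (CovZ.n1 (-17184, 19872) (by decide +kernel)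
          (CovZ.leaf K2_ok TB_l22319 _)
          (CovZ.leaf K2_ok TB_l22320 _))))
       (CovZ.n1 (-17472, 19776) (by decide +kernel)
        (CovZ.n2 (-17472, 19968) (by decide +kernel)
         (CovZ.leaf K2_ok TB_l22321 _)
         (CovZ.leaf K2_ok TB_l22322 _))
        (CovZ.n1 (-17280, 19776) (by decide +kernel)
         (CovZ.leaf K2_ok TB_l22323 _)
         (CovZ.leaf K2_ok TB_l22324 _)))))
     (CovZ.n1 (-18048, 19584) (by decide +kernel)
      (CovZ.n2 (-18048, 19968) (by decide +kernel)
       (CovZ.n2 (-17856, 19776) (by decide +kernel)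
        (CovZ.leaf K2_ok TB_l22325 _)
        (CovZ.leaf K2_ok TB_l22326 _))
       (CovZ.leaf K2_ok TB_l22327 _))
      (CovZ.n1 (-17664, 19584) (by decide +kernel)
       (CovZ.n2 (-17856, 19392) (by decide +kernel)
        (CovZ.leaf K2_ok TB_l22328 _)
        (CovZ.leaf K2_ok TB_l22329 _))
       (CovZ.n1 (-17856, 19776) (by decide +kernel)
        (CovZ.leaf K2_ok TB_l22330 _)
        (CovZ.leaf K2_ok TB_l22331 _)))))))

theorem TB_s10_15 : SqZ TB_M TB_L [0, 7, 6, 1] (-32256) (-4608) 1536 10 15 :=
  SqZ.mk (a := (-16896)) (b := (-15360)) (c := 18432) (d := 19968) (by norm_num) (by norm_num) (by norm_num) (by norm_num)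
    (CovZ.topM TB_LL 661055968792958817101395290546662272733087830524402881532724933899223708668554962893224444059946841113861058383957360541712 (by decide +kernel) (CovZ.n2 (-16128, 19200) (by decide +kernel)
    (CovZ.subM 305310535760598319625632477612986657533415416050143401203468514575925744476738912969120657541213491635240960016 (by decide +kernel)
     (CovZ.n2 (-15360, 19200) (by decide +kernel)
      TB_u423
      TB_u424))
    (CovZ.n1 (-16128, 18432) (by decide +kernel)
     TB_u425
     TB_u426)))
    (CovZ.topM TB_LL 661055968792958817101395290546662272733087830524402881532724933899223708668554962893224444059946841113787271407662522335248 (by decide +kernel) (CovZ.n0 (-16128, 19200) (by decide +kernel)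
    (CovZ.n2 (-16896, 19200) (by decide +kernel)
     (CovZ.n2 (-16512, 19584) (by decide +kernel)
      (CovZ.n2 (-16512, 19200) (by decide +kernel)
       (CovZ.subM 2710218140521003545114830911210674883087294873560450056756678391835734849830078507291043451016344640486597885952 (by decide +kernel)
        (CovZ.n2 (-16704, 19392) (by decide +kernel)
         (CovZ.n2 (-16512, 19392) (by decide +kernel)
          (CovZ.n2 (-16608, 19296) (by decide +kernel)
           (CovZ.leaf K2_ok TB_l28667 _)
           (CovZ.leaf K2_ok TB_l28668 _))
          (CovZ.leaf K2_ok TB_l28669 _))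
         (CovZ.n1 (-16704, 19200) (by decide +kernel)
          (CovZ.leaf K2_ok TB_l28670 _)
          (CovZ.n1 (-16608, 19296) (by decide +kernel)
           (CovZ.leaf K2_ok TB_l28671 _)
           (CovZ.leaf K2_ok TB_l28672 _)))))
       (CovZ.subM 305310535760598319625632477612986657533415419420130306845121452948200462505823382523353621473158017115756822544 (by decide +kernel)
        (CovZ.n1 (-16320, 19392) (by decide +kernel)
         (CovZ.n2 (-16320, 19200) (by decide +kernel)
          (CovZ.n2 (-16416, 19296) (by decide +kernel)
           (CovZ.leaf K2_ok TB_l28673 _)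
           (CovZ.leaf K2_ok TB_l28674 _))
          (CovZ.n1 (-16224, 19296) (by decide +kernel)
           (CovZ.n2 (-16224, 19200) (by decide +kernel)
            (CovZ.leaf K2_ok TB_l28675 _)
            (CovZ.leaf K2_ok TB_l28676 _))
           (CovZ.leaf K2_ok TB_l28677 _)))
         (CovZ.n1 (-16512, 19392) (by decide +kernel)
          (CovZ.n2 (-16416, 19488) (by decide +kernel)
           (CovZ.leaf K2_ok TB_l28678 _)
           (CovZ.leaf K2_ok TB_l28679 _))
          (CovZ.n1 (-16416, 19296) (by decide +kernel)
           (CovZ.leaf K2_ok TB_l28680 _)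
           (CovZ.leaf K2_ok TB_l28681 _))))))
      (CovZ.subM 2710218140521003545114830911210674883087294873560450056756678391835734849830078507291043451016344640486597885952 (by decide +kernel)
       (CovZ.n1 (-16896, 19584) (by decide +kernel)
        (CovZ.n2 (-16704, 19776) (by decide +kernel)
         (CovZ.n2 (-16704, 19584) (by decide +kernel)
          (CovZ.leaf K2_ok TB_l28682 _)
          (CovZ.leaf K2_ok TB_l28683 _))
         (CovZ.n1 (-16896, 19776) (by decide +kernel)
          (CovZ.leaf K2_ok TB_l28684 _)
          (CovZ.leaf K2_ok TB_l28685 _)))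
        (CovZ.n1 (-16704, 19392) (by decide +kernel)
         (CovZ.n2 (-16896, 19392) (by decide +kernel)
          (CovZ.leaf K2_ok TB_l28686 _)
          (CovZ.n1 (-16800, 19296) (by decide +kernel)
           (CovZ.leaf K2_ok TB_l28687 _)
           (CovZ.leaf K2_ok TB_l28688 _)))
         (CovZ.n1 (-16704, 19584) (by decide +kernel)
          (CovZ.leaf K2_ok TB_l28689 _)
          (CovZ.leaf K2_ok TB_l28690 _))))))
     (CovZ.n1 (-16512, 18816) (by decide +kernel)
      (CovZ.n2 (-16896, 18816) (by decide +kernel)
       (CovZ.subM 2710218140521003545114830911210674883087294873560450056756678391835734849830078507291043451025568012523452661760 (by decide +kernel)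
        (CovZ.n2 (-16704, 19008) (by decide +kernel)
         (CovZ.n2 (-16704, 18816) (by decide +kernel)
          (CovZ.leaf K2_ok TB_l28691 _)
          (CovZ.leaf K2_ok TB_l28692 _))
         (CovZ.n1 (-16896, 19008) (by decide +kernel)
          (CovZ.leaf K2_ok TB_l28693 _)
          (CovZ.leaf K2_ok TB_l28694 _))))
       (CovZ.n1 (-16704, 18624) (by decide +kernel)
        (CovZ.n2 (-16896, 18624) (by decide +kernel)
         (CovZ.leaf K2_ok TB_l28695 _)
         (CovZ.leaf K2_ok TB_l28696 _))
        (CovZ.n1 (-16704, 18816) (by decide +kernel)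
         (CovZ.leaf K2_ok TB_l28697 _)
         (CovZ.leaf K2_ok TB_l28698 _))))
      (CovZ.n1 (-16512, 19200) (by decide +kernel)
       (CovZ.n2 (-16320, 19008) (by decide +kernel)
        (CovZ.subM 305310535760598319625632477612986657533415419420130306845118459792133584970293921436906045562613432156036399104 (by decide +kernel)
         (CovZ.n2 (-16512, 19008) (by decide +kernel)
          (CovZ.n2 (-16416, 19104) (by decide +kernel)
           (CovZ.leaf K2_ok TB_l28699 _)
           (CovZ.leaf K2_ok TB_l28700 _))
          (CovZ.n1 (-16416, 18912) (by decide +kernel)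
           (CovZ.leaf K2_ok TB_l28701 _)
           (CovZ.leaf K2_ok TB_l28702 _))))
        (CovZ.subM 305310535760598319625632477612986657533415419420130306845121452948200462505823382523353621473158017115756822544 (by decide +kernel)
         (CovZ.n1 (-16320, 19200) (by decide +kernel)
          (CovZ.n2 (-16224, 19104) (by decide +kernel)
           (CovZ.leaf K2_ok TB_l28703 _)
           (CovZ.n1 (-16224, 19200) (by decide +kernel)
            (CovZ.leaf K2_ok TB_l28704 _)
            (CovZ.leaf K2_ok TB_l28705 _)))
          (CovZ.n1 (-16416, 19104) (by decide +kernel)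
           (CovZ.leaf K2_ok TB_l28706 _)
           (CovZ.leaf K2_ok TB_l28707 _)))))
       (CovZ.subM 2710218140521003545114830911210674883087294873560450056756678391835734849830078507291043451016344640486597885952 (by decide +kernel)
        (CovZ.n1 (-16704, 19008) (by decide +kernel)
         (CovZ.n2 (-16704, 19200) (by decide +kernel)
          (CovZ.n2 (-16608, 19104) (by decide +kernel)
           (CovZ.leaf K2_ok TB_l28708 _)
           (CovZ.leaf K2_ok TB_l28709 _))
          (CovZ.leaf K2_ok TB_l28710 _))
         (CovZ.n1 (-16512, 19008) (by decide +kernel)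
          (CovZ.leaf K2_ok TB_l28711 _)
          (CovZ.n1 (-16608, 19104) (by decide +kernel)
           (CovZ.leaf K2_ok TB_l28712 _)
           (CovZ.leaf K2_ok TB_l28713 _))))))))
    (CovZ.n1 (-16128, 19968) (by decide +kernel)
     (CovZ.subM 305310535760598319625632477612986657533415416050143401203468514575925744476738912969120657467426515340402753552 (by decide +kernel)
      (CovZ.n2 (-15744, 19584) (by decide +kernel)
       (CovZ.n2 (-16128, 19584) (by decide +kernel)
        (CovZ.n2 (-15936, 19776) (by decide +kernel)
         (CovZ.n2 (-15936, 19584) (by decide +kernel)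
          (CovZ.n2 (-16032, 19680) (by decide +kernel)
           (CovZ.leaf K2_ok TB_l28714 _)
           (CovZ.leaf K2_ok TB_l28715 _))
          (CovZ.n1 (-15840, 19680) (by decide +kernel)
           (CovZ.n2 (-15840, 19584) (by decide +kernel)
            (CovZ.leaf K2_ok TB_l28716 _)
            (CovZ.leaf K2_ok TB_l28717 _))
           (CovZ.leaf K2_ok TB_l28718 _)))
         (CovZ.n1 (-16128, 19776) (by decide +kernel)
          (CovZ.n2 (-16032, 19872) (by decide +kernel)
           (CovZ.leaf K2_ok TB_l28719 _)
           (CovZ.leaf K2_ok TB_l28720 _))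
          (CovZ.n1 (-16032, 19680) (by decide +kernel)
           (CovZ.leaf K2_ok TB_l28721 _)
           (CovZ.leaf K2_ok TB_l28722 _))))
        (CovZ.n1 (-15936, 19392) (by decide +kernel)
         (CovZ.n2 (-16128, 19392) (by decide +kernel)
          (CovZ.n2 (-16032, 19488) (by decide +kernel)
           (CovZ.n2 (-16032, 19392) (by decide +kernel)
            (CovZ.leaf K2_ok TB_l28723 _)
            (CovZ.leaf K2_ok TB_l28724 _))
           (CovZ.leaf K2_ok TB_l28725 _))
          (CovZ.n1 (-16032, 19296) (by decide +kernel)
           (CovZ.leaf K2_ok TB_l28726 _)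
           (CovZ.n1 (-16032, 19392) (by decide +kernel)
            (CovZ.leaf K2_ok TB_l28727 _)
            (CovZ.leaf K2_ok TB_l28728 _))))
         (CovZ.n1 (-15936, 19584) (by decide +kernel)
          (CovZ.n2 (-15840, 19488) (by decide +kernel)
           (CovZ.leaf K2_ok TB_l28729 _)
           (CovZ.n1 (-15840, 19584) (by decide +kernel)
            (CovZ.leaf K2_ok TB_l28730 _)
            (CovZ.leaf K2_ok TB_l28731 _)))
          (CovZ.n1 (-16032, 19488) (by decide +kernel)
           (CovZ.leaf K2_ok TB_l28732 _)
           (CovZ.leaf K2_ok TB_l28733 _)))))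
       (CovZ.n1 (-15744, 19968) (by decide +kernel)
        (CovZ.n2 (-15552, 19776) (by decide +kernel)
         (CovZ.n2 (-15744, 19776) (by decide +kernel)
          (CovZ.n2 (-15648, 19872) (by decide +kernel)
           (CovZ.n2 (-15648, 19776) (by decide +kernel)
            (CovZ.leaf K2_ok TB_l28734 _)
            (CovZ.leaf K2_ok TB_l28735 _))
           (CovZ.leaf K2_ok TB_l28736 _))
          (CovZ.n1 (-15648, 19680) (by decide +kernel)
           (CovZ.leaf K2_ok TB_l28737 _)
           (CovZ.n1 (-15648, 19776) (by decide +kernel)
            (CovZ.leaf K2_ok TB_l28738 _)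
            (CovZ.leaf K2_ok TB_l28739 _))))
         (CovZ.n1 (-15552, 19968) (by decide +kernel)
          (CovZ.subM 4697085165547666455778961193597316581229971504908501113632544802568359631703853718327743161532680894389813264 (by decide +kernel)
           (CovZ.n2 (-15456, 19872) (by decide +kernel)
            (CovZ.n2 (-15552, 19872) (by decide +kernel)
             (CovZ.leaf K2_ok TB_l28740 _)
             (CovZ.leaf K2_ok TB_l28741 _))
            (CovZ.n1 (-15456, 19968) (by decide +kernel)
             (CovZ.leaf K2_ok TB_l28742 _)
             (CovZ.leaf K2_ok TB_l28743 _))))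
          (CovZ.n1 (-15648, 19872) (by decide +kernel)
           (CovZ.n2 (-15648, 19968) (by decide +kernel)
            (CovZ.leaf K2_ok TB_l28744 _)
            (CovZ.leaf K2_ok TB_l28745 _))
           (CovZ.n1 (-15552, 19872) (by decide +kernel)
            (CovZ.leaf K2_ok TB_l28746 _)
            (CovZ.leaf K2_ok TB_l28747 _)))))
        (CovZ.n1 (-15936, 19776) (by decide +kernel)
         (CovZ.n2 (-15936, 19968) (by decide +kernel)
          (CovZ.n2 (-15840, 19872) (by decide +kernel)
           (CovZ.leaf K2_ok TB_l28748 _)
           (CovZ.n1 (-15840, 19968) (by decide +kernel)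
            (CovZ.leaf K2_ok TB_l28749 _)
            (CovZ.leaf K2_ok TB_l28750 _)))
          (CovZ.n1 (-16032, 19872) (by decide +kernel)
           (CovZ.leaf K2_ok TB_l28751 _)
           (CovZ.leaf K2_ok TB_l28752 _)))
         (CovZ.n1 (-15744, 19776) (by decide +kernel)
          (CovZ.n2 (-15840, 19680) (by decide +kernel)
           (CovZ.n2 (-15840, 19776) (by decide +kernel)
            (CovZ.leaf K2_ok TB_l28753 _)
            (CovZ.leaf K2_ok TB_l28754 _))
           (CovZ.leaf K2_ok TB_l28755 _))
          (CovZ.n1 (-15840, 19872) (by decide +kernel)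
           (CovZ.leaf K2_ok TB_l28756 _)
           (CovZ.leaf K2_ok TB_l28757 _)))))))
     (CovZ.n1 (-16512, 19584) (by decide +kernel)
      (CovZ.n2 (-16512, 19968) (by decide +kernel)
       (CovZ.subM 305310535760598319625632477612986657533415419420130306845121452948200462505823382523353621473158017115756822544 (by decide +kernel)
        (CovZ.n2 (-16320, 19776) (by decide +kernel)
         (CovZ.n2 (-16512, 19776) (by decide +kernel)
          (CovZ.leaf K2_ok TB_l28758 _)
          (CovZ.leaf K2_ok TB_l28759 _))
         (CovZ.n1 (-16320, 19968) (by decide +kernel)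
          (CovZ.n2 (-16224, 19872) (by decide +kernel)
           (CovZ.leaf K2_ok TB_l28760 _)
           (CovZ.leaf K2_ok TB_l28761 _))
          (CovZ.n1 (-16416, 19872) (by decide +kernel)
           (CovZ.leaf K2_ok TB_l28762 _)
           (CovZ.leaf K2_ok TB_l28763 _)))))
       (CovZ.subM 2710218140521003545114830911210674883087294873560450056756678391835734849830078507290424480994396107339934629888 (by decide +kernel)
        (CovZ.n1 (-16704, 19776) (by decide +kernel)
         (CovZ.n2 (-16704, 19968) (by decide +kernel)
          (CovZ.n2 (-16608, 19872) (by decide +kernel)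
           (CovZ.leaf K2_ok TB_l28764 _)
           (CovZ.leaf K2_ok TB_l28765 _))
          (CovZ.n1 (-16800, 19872) (by decide +kernel)
           (CovZ.leaf K2_ok TB_l28766 _)
           (CovZ.leaf K2_ok TB_l28767 _)))
         (CovZ.n1 (-16512, 19776) (by decide +kernel)
          (CovZ.leaf K2_ok TB_l28768 _)
          (CovZ.n1 (-16608, 19872) (by decide +kernel)
           (CovZ.leaf K2_ok TB_l28769 _)
           (CovZ.leaf K2_ok TB_l28770 _))))))
      (CovZ.subM 305310535760598319625632477612986657533415419420130306845121452948200462505823382523353621473158017115756822544 (by decide +kernel)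
       (CovZ.n1 (-16128, 19584) (by decide +kernel)
        (CovZ.n2 (-16320, 19392) (by decide +kernel)
         (CovZ.n2 (-16320, 19584) (by decide +kernel)
          (CovZ.n2 (-16224, 19488) (by decide +kernel)
           (CovZ.leaf K2_ok TB_l28771 _)
           (CovZ.leaf K2_ok TB_l28772 _))
          (CovZ.n1 (-16416, 19488) (by decide +kernel)
           (CovZ.leaf K2_ok TB_l28773 _)
           (CovZ.leaf K2_ok TB_l28774 _)))
         (CovZ.n1 (-16128, 19392) (by decide +kernel)
          (CovZ.n2 (-16224, 19296) (by decide +kernel)
           (CovZ.leaf K2_ok TB_l28775 _)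
           (CovZ.leaf K2_ok TB_l28776 _))
          (CovZ.n1 (-16224, 19488) (by decide +kernel)
           (CovZ.leaf K2_ok TB_l28777 _)
           (CovZ.leaf K2_ok TB_l28778 _))))
        (CovZ.n1 (-16320, 19776) (by decide +kernel)
         (CovZ.n2 (-16128, 19776) (by decide +kernel)
          (CovZ.n2 (-16224, 19680) (by decide +kernel)
           (CovZ.leaf K2_ok TB_l28779 _)
           (CovZ.leaf K2_ok TB_l28780 _))
          (CovZ.n1 (-16224, 19872) (by decide +kernel)
           (CovZ.leaf K2_ok TB_l28781 _)
           (CovZ.leaf K2_ok TB_l28782 _)))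
         (CovZ.n1 (-16320, 19584) (by decide +kernel)
          (CovZ.leaf K2_ok TB_l28783 _)
          (CovZ.n1 (-16224, 19680) (by decide +kernel)
           (CovZ.leaf K2_ok TB_l28784 _)
           (CovZ.leaf K2_ok TB_l28785 _))))))))))

theorem TB_s11_15 : SqZ TB_M TB_L [0, 7, 6, 1] (-32256) (-4608) 1536 11 15 :=
  SqZ.mk (a := (-15360)) (b := (-13824)) (c := 18432) (d := 19968) (by norm_num) (by norm_num) (by norm_num) (by norm_num)
    (CovZ.topM TB_LL 4697085165547666455778961193582495193697167090345635006952476656577859039026699294139480783893637943131242496 (by decide +kernel) (CovZ.n2 (-14592, 19200) (by decide +kernel)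
    (CovZ.badM (by decide +kernel))
    (CovZ.n1 (-14592, 18432) (by decide +kernel)
     (CovZ.n2 (-14976, 18816) (by decide +kernel)
      (CovZ.badM (by decide +kernel))
      (CovZ.n1 (-14976, 18432) (by decide +kernel)
       (CovZ.n2 (-15168, 18624) (by decide +kernel)
        (CovZ.badM (by decide +kernel))
        (CovZ.n1 (-15168, 18432) (by decide +kernel)
         (CovZ.n2 (-15264, 18528) (by decide +kernel)
          (CovZ.badM (by decide +kernel))
          (CovZ.n1 (-15264, 18432) (by decide +kernel)
           (CovZ.n2 (-15312, 18480) (by decide +kernel)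
            (CovZ.subM 73786976294838206464 (by decide +kernel)
             (CovZ.n2 (-15264, 18480) (by decide +kernel)
              (CovZ.n2 (-15288, 18456) (by decide +kernel)
               (CovZ.n2 (-15288, 18480) (by decide +kernel)
                (CovZ.badM (by decide +kernel))
                (CovZ.leaf K2_ok TB_l46948 _))
               (CovZ.badM (by decide +kernel)))
              (CovZ.n1 (-15288, 18504) (by decide +kernel)
               (CovZ.badM (by decide +kernel))
               (CovZ.n1 (-15288, 18480) (by decide +kernel)
                (CovZ.leaf K2_ok TB_l46949 _)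
                (CovZ.badM (by decide +kernel))))))
            (CovZ.n1 (-15312, 18432) (by decide +kernel)
             (CovZ.n2 (-15336, 18456) (by decide +kernel)
              (CovZ.n2 (-15312, 18456) (by decide +kernel)
               (CovZ.leaf K2_ok TB_l46950 _)
               (CovZ.leaf K2_ok TB_l46951 _))
              (CovZ.n1 (-15336, 18432) (by decide +kernel)
               (CovZ.leaf K2_ok TB_l35542 _)
               (CovZ.leaf K2_ok TB_l46952 _)))
             (CovZ.subM 73786976294838206464 (by decide +kernel)
              (CovZ.n1 (-15288, 18456) (by decide +kernel)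
               (CovZ.n2 (-15288, 18432) (by decide +kernel)
                (CovZ.leaf K2_ok TB_l46953 _)
                (CovZ.badM (by decide +kernel)))
               (CovZ.n1 (-15312, 18456) (by decide +kernel)
                (CovZ.leaf K2_ok TB_l46954 _)
                (CovZ.leaf K2_ok TB_l46955 _))))))
           (CovZ.badM (by decide +kernel))))
         (CovZ.badM (by decide +kernel))))
       (CovZ.badM (by decide +kernel))))
     (CovZ.badM (by decide +kernel)))))
    (CovZ.topM TB_LL 4697085165547666455778961193597316581229971504908501113632544802568359631703853718327743235310614805601189888 (by decide +kernel) (CovZ.n0 (-14592, 19200) (by decide +kernel)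
    (CovZ.n2 (-15360, 19200) (by decide +kernel)
     TB_u427
     TB_u428)
    (CovZ.n1 (-14592, 19968) (by decide +kernel)
     (CovZ.badM (by decide +kernel))
     (CovZ.n1 (-14976, 19584) (by decide +kernel)
      (CovZ.n2 (-14976, 19968) (by decide +kernel)
       (CovZ.badM (by decide +kernel))
       (CovZ.n1 (-15168, 19776) (by decide +kernel)
        (CovZ.n2 (-15168, 19968) (by decide +kernel)
         (CovZ.badM (by decide +kernel))
         (CovZ.n1 (-15264, 19872) (by decide +kernel)
          (CovZ.n2 (-15264, 19968) (by decide +kernel)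
           (CovZ.badM (by decide +kernel))
           (CovZ.leaf K2_ok TB_l35604 _))
          (CovZ.badM (by decide +kernel))))
        (CovZ.badM (by decide +kernel))))
      (CovZ.badM (by decide +kernel))))))

theorem TB_s12_15 : SqZ TB_M TB_L [0, 7, 6, 1] (-32256) (-4608) 1536 12 15 :=
  SqZ.mk (a := (-13824)) (b := (-12288)) (c := 18432) (d := 19968) (by norm_num) (by norm_num) (by norm_num) (by norm_num)
    (CovZ.topM TB_LL 0 (by decide +kernel) (CovZ.badM (by decide +kernel)))
    (CovZ.topM TB_LL 0 (by decide +kernel) (CovZ.badM (by decide +kernel)))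

theorem TB_s0_16 : SqZ TB_M TB_L [0, 7, 6, 1] (-32256) (-4608) 1536 0 16 :=
  SqZ.mk (a := (-32256)) (b := (-30720)) (c := 19968) (d := 21504) (by norm_num) (by norm_num) (by norm_num) (by norm_num)
    (CovZ.topM TB_LL 2353129859973906143154175441529284225823720636258563057311064562201646888730119284886260675824942078871207936 (by decide +kernel) (CovZ.leaf K2_ok TB_l1843 _))
    (CovZ.topM TB_LL 2353129859973906143154175441529284225823720636258563057311064562201646888730119284886260675824942078871207936 (by decide +kernel) (CovZ.leaf K2_ok TB_l1844 _))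

theorem TB_s1_16 : SqZ TB_M TB_L [0, 7, 6, 1] (-32256) (-4608) 1536 1 16 :=
  SqZ.mk (a := (-30720)) (b := (-29184)) (c := 19968) (d := 21504) (by norm_num) (by norm_num) (by norm_num) (by norm_num)
    (CovZ.topM TB_LL 5043456795491623199145623275972558008579490852443297809755944613054516948958865054560048546623859907511181296595369984 (by decide +kernel) (CovZ.leaf K2_ok TB_l4987 _))
    (CovZ.topM TB_LL 5043456795491623199145623275972558008579490852443297809755944613054516948958865054560048546623859907511181296595369984 (by decide +kernel) (CovZ.leaf K2_ok TB_l4988 _))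

theorem TB_s2_16 : SqZ TB_M TB_L [0, 7, 6, 1] (-32256) (-4608) 1536 2 16 :=
  SqZ.mk (a := (-29184)) (b := (-27648)) (c := 19968) (d := 21504) (by norm_num) (by norm_num) (by norm_num) (by norm_num)
    (CovZ.topM TB_LL 5043456793138493339171717132834328964652041523698219635926264656343733324316518645163976051077084924416754786808102912 (by decide +kernel) (CovZ.leaf K2_ok TB_l8278 _))
    (CovZ.topM TB_LL 5043456793138493339171717132834328964652041523698219635926264656343733324316518645163976051077084924416754786808102912 (by decide +kernel) (CovZ.leaf K2_ok TB_l8279 _))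

theorem TB_s3_16 : SqZ TB_M TB_L [0, 7, 6, 1] (-32256) (-4608) 1536 3 16 :=
  SqZ.mk (a := (-27648)) (b := (-26112)) (c := 19968) (d := 21504) (by norm_num) (by norm_num) (by norm_num) (by norm_num)
    (CovZ.topM TB_LL 5043456793138493409163740325890678490535391066932433103450881491608005896667886977445133152830331249669272369090527360 (by decide +kernel) (CovZ.leaf K2_ok TB_l11611 _))
    (CovZ.topM TB_LL 5043456793138493409163740325890678490535391066932433103450881491608005896667886977445133152830331249669272369090527360 (by decide +kernel) (CovZ.leaf K2_ok TB_l11612 _))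

theorem TB_s4_16 : SqZ TB_M TB_L [0, 7, 6, 1] (-32256) (-4608) 1536 4 16 :=
  SqZ.mk (a := (-26112)) (b := (-24576)) (c := 19968) (d := 21504) (by norm_num) (by norm_num) (by norm_num) (by norm_num)
    (CovZ.topM TB_LL 631663411835949099859883151205914022257904644374446960892027670799798706760137269538072325248303414314334467127509124 (by decide +kernel) (CovZ.n2 (-25344, 20736) (by decide +kernel)
    (CovZ.leaf K2_ok TB_l13826 _)
    (CovZ.leaf K2_ok TB_l13827 _)))
    (CovZ.topM TB_LL 631663411835949099859883151205914022257904644374446960892027670799798706760137269538072325248303414314334467127509124 (by decide +kernel) (CovZ.n0 (-25344, 20736) (by decide +kernel)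
    (CovZ.leaf K2_ok TB_l13828 _)
    (CovZ.leaf K2_ok TB_l13829 _)))

theorem TB_s5_16 : SqZ TB_M TB_L [0, 7, 6, 1] (-32256) (-4608) 1536 5 16 :=
  SqZ.mk (a := (-24576)) (b := (-23040)) (c := 19968) (d := 21504) (by norm_num) (by norm_num) (by norm_num) (by norm_num)
    (CovZ.topM TB_LL 631665816743553873388612858716202337208920867230133003189890455038836481108284638392599043323296923625148370437537924 (by decide +kernel) (CovZ.n2 (-23808, 20736) (by decide +kernel)
    (CovZ.n2 (-23040, 20736) (by decide +kernel)
     (CovZ.leaf K2_ok TB_l15570 _)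
     (CovZ.leaf K2_ok TB_l15571 _))
    (CovZ.leaf K2_ok TB_l15572 _)))
    (CovZ.topM TB_LL 631665816743553873388612858716202337208920867230133003189890455038836481108284638392599043323296923625148370437537924 (by decide +kernel) (CovZ.n0 (-23808, 20736) (by decide +kernel)
    (CovZ.leaf K2_ok TB_l15573 _)
    (CovZ.leaf K2_ok TB_l15574 _)))

theorem TB_s6_16 : SqZ TB_M TB_L [0, 7, 6, 1] (-32256) (-4608) 1536 6 16 :=
  SqZ.mk (a := (-23040)) (b := (-21504)) (c := 19968) (d := 21504) (by norm_num) (by norm_num) (by norm_num) (by norm_num)
    (CovZ.topM TB_LL 631665816743553873402847209822769027054881441568903534078610040645603795480090078617502485370921510588708285885743236 (by decide +kernel) (CovZ.n2 (-22272, 20736) (by decide +kernel)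
    (CovZ.n2 (-21504, 20736) (by decide +kernel)
     (CovZ.leaf K2_ok TB_l18630 _)
     (CovZ.leaf K2_ok TB_l18631 _))
    (CovZ.n1 (-22272, 19968) (by decide +kernel)
     (CovZ.leaf K2_ok TB_l18632 _)
     (CovZ.leaf K2_ok TB_l18633 _))))
    (CovZ.topM TB_LL 631665816743553873402847209822769027054881441568903534078610040645603795480090078617502485370921510588708285885743236 (by decide +kernel) (CovZ.n0 (-22272, 20736) (by decide +kernel)
    (CovZ.n2 (-23040, 20736) (by decide +kernel)
     (CovZ.leaf K2_ok TB_l18634 _)
     (CovZ.leaf K2_ok TB_l18635 _))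
    (CovZ.n1 (-22272, 21504) (by decide +kernel)
     (CovZ.leaf K2_ok TB_l18636 _)
     (CovZ.leaf K2_ok TB_l18637 _))))

theorem TB_s7_16 : SqZ TB_M TB_L [0, 7, 6, 1] (-32256) (-4608) 1536 7 16 :=
  SqZ.mk (a := (-21504)) (b := (-19968)) (c := 19968) (d := 21504) (by norm_num) (by norm_num) (by norm_num) (by norm_num)
    (CovZ.topM TB_LL 1233717601242206000692295627890642068039993763482241312041122642761306902736774613990193222908545355799236517724160 (by decide +kernel) (CovZ.n2 (-20736, 20736) (by decide +kernel)
    (CovZ.n2 (-19968, 20736) (by decide +kernel)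
     (CovZ.leaf K2_ok TB_l19543 _)
     (CovZ.leaf K2_ok TB_l19544 _))
    (CovZ.n1 (-20736, 19968) (by decide +kernel)
     (CovZ.leaf K2_ok TB_l19545 _)
     (CovZ.n1 (-20352, 20352) (by decide +kernel)
      (CovZ.leaf K2_ok TB_l19546 _)
      (CovZ.leaf K2_ok TB_l19547 _)))))
    (CovZ.topM TB_LL 1233717601242206000692295627890642068039993763482241312041122642761306902736774613990193222908545355799236517724160 (by decide +kernel) (CovZ.n0 (-20736, 20736) (by decide +kernel)
    (CovZ.n2 (-21504, 20736) (by decide +kernel)
     (CovZ.leaf K2_ok TB_l19548 _)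
     (CovZ.leaf K2_ok TB_l19549 _))
    (CovZ.n1 (-20736, 21504) (by decide +kernel)
     (CovZ.leaf K2_ok TB_l19550 _)
     (CovZ.leaf K2_ok TB_l19551 _))))

end Pool.Agent.TET
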