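import Pool.Agent.Helper38_TET.TB_M
import Pool.Agent.Helper38_TET.TB_L
import Pool.Agent.Helper38_TET.TB_151
import Pool.Agent.Helper38_TET.TB_152
import Pool.Agent.Helper38_TET.TB_154
import Pool.Agent.Helper38_TET.TB_155
import Pool.Agent.Helper38_TET.TB_196
import Pool.Agent.Helper38_TET.TB_197
import Pool.Agent.Helper38_TET.TB_198
import Pool.Agent.Helper38_TET.TB_199
import Pool.Agent.Helper38_TET.TB_200
import Pool.Agent.Helper38_TET.TB_201
import Pool.Agent.Helper38_TET.TB_204
import Pool.Agent.Helper38_TET.TB_296
import Pool.Agent.Helper38_TET.TB_297
import Pool.Agent.Helper38_TET.TB_298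
import Pool.Agent.Helper38_TET.TB_299

/-!
# MP_c7c9bf_co: certificates, family TB
-/

set_option autoImplicit false
set_option maxRecDepth 100000

namespace Pool.Agent.TET

theorem TB_u440 : CovZ TB_M (toL (selN TB_LN 30358022587153445500747824352786117762881522641722231200515547954873323897334398992)) [0, 7, 6, 1] (-16128, 21504) (-16128, 21120) (-15744, 21120) :=
    (CovZ.subM 7070845872273599387886856047657281229231283633247839652112153808031711248 (by decide +kernel)
         (CovZ.n2 (-15936, 21312) (by decide +kernel)
          (CovZ.n2 (-15936, 21120) (by decide +kernel)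
           (CovZ.n2 (-16032, 21216) (by decide +kernel)
            (CovZ.subM 696898287454081973172991205027460551802896 (by decide +kernel)
             (CovZ.n2 (-15936, 21216) (by decide +kernel)
              (CovZ.n2 (-15984, 21168) (by decide +kernel)
               (CovZ.badM (by decide +kernel))
               (CovZ.n1 (-15936, 21168) (by decide +kernel)
                (CovZ.n2 (-15960, 21144) (by decide +kernel)
                 (CovZ.n2 (-15960, 21168) (by decide +kernel)
                  (CovZ.leaf K2_ok TB_l44376 _)
                  (CovZ.leaf K2_ok TB_l44377 _))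
                 (CovZ.n1 (-15936, 21144) (by decide +kernel)
                  (CovZ.leaf K2_ok TB_l44378 _)
                  (CovZ.leaf K2_ok TB_l44379 _)))
                (CovZ.badM (by decide +kernel))))
              (CovZ.badM (by decide +kernel))))
            (CovZ.n1 (-16032, 21120) (by decide +kernel)
             (CovZ.n2 (-16080, 21168) (by decide +kernel)
              (CovZ.subM 696898287454081973172991196020261297061904 (by decide +kernel)
               (CovZ.n2 (-16032, 21168) (by decide +kernel)
                (CovZ.n2 (-16056, 21144) (by decide +kernel)
                 (CovZ.n2 (-16056, 21168) (by decide +kernel)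
                  (CovZ.leaf K2_ok TB_l44380 _)
                  (CovZ.leaf K2_ok TB_l44381 _))
                 (CovZ.n1 (-16032, 21144) (by decide +kernel)
                  (CovZ.leaf K2_ok TB_l44382 _)
                  (CovZ.leaf K2_ok TB_l44383 _)))
                (CovZ.badM (by decide +kernel))))
              (CovZ.n1 (-16080, 21120) (by decide +kernel)
               (CovZ.n2 (-16104, 21144) (by decide +kernel)
                (CovZ.n2 (-16080, 21144) (by decide +kernel)
                 (CovZ.leaf K2_ok TB_l44384 _)
                 (CovZ.leaf K2_ok TB_l44385 _))
                (CovZ.n1 (-16104, 21120) (by decide +kernel)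
                 (CovZ.leaf K2_ok TB_l44386 _)
                 (CovZ.leaf K2_ok TB_l44387 _)))
               (CovZ.subM 696898287454081973172991196020261297061904 (by decide +kernel)
                (CovZ.n1 (-16056, 21144) (by decide +kernel)
                 (CovZ.n2 (-16056, 21120) (by decide +kernel)
                  (CovZ.leaf K2_ok TB_l44388 _)
                  (CovZ.leaf K2_ok TB_l44389 _))
                 (CovZ.n1 (-16080, 21144) (by decide +kernel)
                  (CovZ.leaf K2_ok TB_l44390 _)
                  (CovZ.leaf K2_ok TB_l44391 _))))))
             (CovZ.subM 696898287454081973172991205027460551802896 (by decide +kernel)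
              (CovZ.n1 (-15984, 21168) (by decide +kernel)
               (CovZ.n2 (-15984, 21120) (by decide +kernel)
                (CovZ.n2 (-16008, 21144) (by decide +kernel)
                 (CovZ.n2 (-15984, 21144) (by decide +kernel)
                  (CovZ.leaf K2_ok TB_l44392 _)
                  (CovZ.leaf K2_ok TB_l44393 _))
                 (CovZ.n1 (-16008, 21120) (by decide +kernel)
                  (CovZ.leaf K2_ok TB_l44394 _)
                  (CovZ.leaf K2_ok TB_l44395 _)))
                (CovZ.n1 (-15960, 21144) (by decide +kernel)
                 (CovZ.n2 (-15960, 21120) (by decide +kernel)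
                  (CovZ.leaf K2_ok TB_l44396 _)
                  (CovZ.leaf K2_ok TB_l44397 _))
                 (CovZ.n1 (-15984, 21144) (by decide +kernel)
                  (CovZ.leaf K2_ok TB_l44398 _)
                  (CovZ.leaf K2_ok TB_l44399 _))))
               (CovZ.n1 (-16032, 21168) (by decide +kernel)
                (CovZ.n2 (-16008, 21192) (by decide +kernel)
                 (CovZ.n2 (-16008, 21168) (by decide +kernel)
                  (CovZ.badM (by decide +kernel))
                  (CovZ.leaf K2_ok TB_l44400 _))
                 (CovZ.badM (by decide +kernel)))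
                (CovZ.n1 (-16008, 21144) (by decide +kernel)
                 (CovZ.n2 (-16032, 21144) (by decide +kernel)
                  (CovZ.leaf K2_ok TB_l44401 _)
                  (CovZ.leaf K2_ok TB_l44402 _))
                 (CovZ.n1 (-16008, 21168) (by decide +kernel)
                  (CovZ.leaf K2_ok TB_l44403 _)
                  (CovZ.leaf K2_ok TB_l44404 _))))))))
           (CovZ.subM 696898287454081973172991205027460551802896 (by decide +kernel)
            (CovZ.n1 (-15840, 21216) (by decide +kernel)
             (CovZ.n2 (-15840, 21120) (by decide +kernel)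
              (CovZ.n2 (-15888, 21168) (by decide +kernel)
               (CovZ.n2 (-15840, 21168) (by decide +kernel)
                (CovZ.n2 (-15864, 21144) (by decide +kernel)
                 (CovZ.n2 (-15864, 21168) (by decide +kernel)
                  (CovZ.leaf K2_ok TB_l29483 _)
                  (CovZ.leaf K2_ok TB_l29484 _))
                 (CovZ.n1 (-15840, 21144) (by decide +kernel)
                  (CovZ.leaf K2_ok TB_l29485 _)
                  (CovZ.leaf K2_ok TB_l29486 _)))
                (CovZ.badM (by decide +kernel)))
               (CovZ.n1 (-15888, 21120) (by decide +kernel)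
                (CovZ.n2 (-15912, 21144) (by decide +kernel)
                 (CovZ.n2 (-15888, 21144) (by decide +kernel)
                  (CovZ.leaf K2_ok TB_l44405 _)
                  (CovZ.leaf K2_ok TB_l44406 _))
                 (CovZ.n1 (-15912, 21120) (by decide +kernel)
                  (CovZ.leaf K2_ok TB_l44407 _)
                  (CovZ.leaf K2_ok TB_l44408 _)))
                (CovZ.n1 (-15864, 21144) (by decide +kernel)
                 (CovZ.n2 (-15864, 21120) (by decide +kernel)
                  (CovZ.leaf K2_ok TB_l29489 _)
                  (CovZ.leaf K2_ok TB_l29490 _))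
                 (CovZ.n1 (-15888, 21144) (by decide +kernel)
                  (CovZ.leaf K2_ok TB_l29491 _)
                  (CovZ.leaf K2_ok TB_l29492 _)))))
              (CovZ.n1 (-15792, 21168) (by decide +kernel)
               (CovZ.n2 (-15792, 21120) (by decide +kernel)
                (CovZ.n2 (-15816, 21144) (by decide +kernel)
                 (CovZ.n2 (-15792, 21144) (by decide +kernel)
                  (CovZ.leaf K2_ok TB_l29493 _)
                  (CovZ.leaf K2_ok TB_l44409 _))
                 (CovZ.n1 (-15816, 21120) (by decide +kernel)
                  (CovZ.leaf K2_ok TB_l29494 _)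
                  (CovZ.leaf K2_ok TB_l29495 _)))
                (CovZ.n1 (-15768, 21144) (by decide +kernel)
                 (CovZ.n2 (-15768, 21120) (by decide +kernel)
                  (CovZ.leaf K2_ok TB_l29496 _)
                  (CovZ.leaf K2_ok TB_l29497 _))
                 (CovZ.leaf K2_ok TB_l29498 _)))
               (CovZ.n1 (-15840, 21168) (by decide +kernel)
                (CovZ.badM (by decide +kernel))
                (CovZ.n1 (-15816, 21144) (by decide +kernel)
                 (CovZ.n2 (-15840, 21144) (by decide +kernel)
                  (CovZ.leaf K2_ok TB_l29499 _)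
                  (CovZ.leaf K2_ok TB_l29500 _))
                 (CovZ.n1 (-15816, 21168) (by decide +kernel)
                  (CovZ.leaf K2_ok TB_l44410 _)
                  (CovZ.leaf K2_ok TB_l44411 _))))))
             (CovZ.n1 (-15936, 21216) (by decide +kernel)
              (CovZ.badM (by decide +kernel))
              (CovZ.n1 (-15888, 21168) (by decide +kernel)
               (CovZ.n2 (-15936, 21168) (by decide +kernel)
                (CovZ.badM (by decide +kernel))
                (CovZ.n1 (-15912, 21144) (by decide +kernel)
                 (CovZ.n2 (-15936, 21144) (by decide +kernel)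
                  (CovZ.leaf K2_ok TB_l44412 _)
                  (CovZ.leaf K2_ok TB_l44413 _))
                 (CovZ.n1 (-15912, 21168) (by decide +kernel)
                  (CovZ.leaf K2_ok TB_l44414 _)
                  (CovZ.leaf K2_ok TB_l44415 _))))
               (CovZ.badM (by decide +kernel)))))))
          (CovZ.n1 (-16128, 21312) (by decide +kernel)
           (CovZ.badM (by decide +kernel))
           (CovZ.n1 (-16032, 21216) (by decide +kernel)
            (CovZ.n2 (-16128, 21216) (by decide +kernel)
             (CovZ.badM (by decide +kernel))
             (CovZ.n1 (-16080, 21168) (by decide +kernel)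
              (CovZ.n2 (-16128, 21168) (by decide +kernel)
               (CovZ.subM 7067394999100204105993138669725445818217603996788581467629545081073041408 (by decide +kernel)
                (CovZ.n2 (-16104, 21192) (by decide +kernel)
                 (CovZ.n2 (-16104, 21168) (by decide +kernel)
                  (CovZ.leaf K2_ok TB_l44416 _)
                  (CovZ.badM (by decide +kernel)))
                 (CovZ.n1 (-16128, 21192) (by decide +kernel)
                  (CovZ.badM (by decide +kernel))
                  (CovZ.leaf K2_ok TB_l44417 _))))
               (CovZ.n1 (-16104, 21144) (by decide +kernel)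
                (CovZ.n2 (-16128, 21144) (by decide +kernel)
                 (CovZ.leaf K2_ok TB_l44418 _)
                 (CovZ.leaf K2_ok TB_l44419 _))
                (CovZ.n1 (-16104, 21168) (by decide +kernel)
                 (CovZ.leaf K2_ok TB_l44420 _)
                 (CovZ.leaf K2_ok TB_l44421 _))))
              (CovZ.n1 (-16080, 21216) (by decide +kernel)
               (CovZ.badM (by decide +kernel))
               (CovZ.n1 (-16104, 21192) (by decide +kernel)
                (CovZ.badM (by decide +kernel))
                (CovZ.badM (by decide +kernel))))))
            (CovZ.badM (by decide +kernel))))))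

theorem TB_u441 : CovZ TB_M (toL (selN TB_LN 30358022587153445500747824352786117762881522641722231200515547954873323897334398992)) [0, 7, 6, 1] (-16128, 21120) (-16128, 20736) (-15744, 21120) :=
    (CovZ.n1 (-15936, 20928) (by decide +kernel)
         (CovZ.n2 (-16128, 20928) (by decide +kernel)
          (CovZ.n2 (-16032, 21024) (by decide +kernel)
           (CovZ.n2 (-16032, 20928) (by decide +kernel)
            (CovZ.n2 (-16080, 20976) (by decide +kernel)
             (CovZ.n2 (-16032, 20976) (by decide +kernel)
              (CovZ.leaf K2_ok TB_l29503 _)
              (CovZ.n1 (-16056, 21000) (by decide +kernel)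
               (CovZ.leaf K2_ok TB_l29504 _)
               (CovZ.leaf K2_ok TB_l29505 _)))
             (CovZ.n1 (-16080, 20928) (by decide +kernel)
              (CovZ.leaf K2_ok TB_l29506 _)
              (CovZ.leaf K2_ok TB_l29507 _)))
            (CovZ.subM 3705346855701958040222874079456681112349616319449148407166424749359868714024976 (by decide +kernel)
             (CovZ.n1 (-15984, 20976) (by decide +kernel)
              (CovZ.n2 (-15984, 20928) (by decide +kernel)
               (CovZ.leaf K2_ok TB_l29508 _)
               (CovZ.leaf K2_ok TB_l29509 _))
              (CovZ.n1 (-16032, 20976) (by decide +kernel)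
               (CovZ.leaf K2_ok TB_l29510 _)
               (CovZ.leaf K2_ok TB_l29511 _)))))
           (CovZ.n1 (-16128, 21024) (by decide +kernel)
            (CovZ.subM 7071061551846936593005213383777977386276672730403219976682995435511480336 (by decide +kernel)
             (CovZ.n2 (-16080, 21072) (by decide +kernel)
              (CovZ.n2 (-16080, 21024) (by decide +kernel)
               (CovZ.n2 (-16104, 21048) (by decide +kernel)
                (CovZ.leaf K2_ok TB_l29512 _)
                (CovZ.leaf K2_ok TB_l29513 _))
               (CovZ.n1 (-16056, 21048) (by decide +kernel)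
                (CovZ.leaf K2_ok TB_l29514 _)
                (CovZ.leaf K2_ok TB_l29515 _)))
              (CovZ.n1 (-16128, 21072) (by decide +kernel)
               (CovZ.n2 (-16104, 21096) (by decide +kernel)
                (CovZ.leaf K2_ok TB_l29516 _)
                (CovZ.leaf K2_ok TB_l29517 _))
               (CovZ.n1 (-16104, 21048) (by decide +kernel)
                (CovZ.leaf K2_ok TB_l29518 _)
                (CovZ.leaf K2_ok TB_l29519 _)))))
            (CovZ.n1 (-16080, 20976) (by decide +kernel)
             (CovZ.n2 (-16128, 20976) (by decide +kernel)
              (CovZ.leaf K2_ok TB_l29520 _)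
              (CovZ.leaf K2_ok TB_l29521 _))
             (CovZ.subM 3705353926763509887159467084670064889630104308667777030172781661173070101086224 (by decide +kernel)
              (CovZ.n1 (-16080, 21024) (by decide +kernel)
               (CovZ.n2 (-16056, 21000) (by decide +kernel)
                (CovZ.leaf K2_ok TB_l29522 _)
                (CovZ.leaf K2_ok TB_l29523 _))
               (CovZ.n1 (-16104, 21000) (by decide +kernel)
                (CovZ.leaf K2_ok TB_l29524 _)
                (CovZ.leaf K2_ok TB_l29525 _)))))))
          (CovZ.n1 (-16032, 20832) (by decide +kernel)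
           (CovZ.n2 (-16128, 20832) (by decide +kernel)
            (CovZ.n2 (-16080, 20880) (by decide +kernel)
             (CovZ.n2 (-16080, 20832) (by decide +kernel)
              (CovZ.leaf K2_ok TB_l29526 _)
              (CovZ.leaf K2_ok TB_l29527 _))
             (CovZ.leaf K2_ok TB_l29528 _))
            (CovZ.n1 (-16080, 20784) (by decide +kernel)
             (CovZ.leaf K2_ok TB_l29529 _)
             (CovZ.n1 (-16080, 20832) (by decide +kernel)
              (CovZ.leaf K2_ok TB_l29530 _)
              (CovZ.leaf K2_ok TB_l29531 _))))
           (CovZ.n1 (-16032, 20928) (by decide +kernel)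
            (CovZ.n2 (-15984, 20880) (by decide +kernel)
             (CovZ.leaf K2_ok TB_l29532 _)
             (CovZ.n1 (-15984, 20928) (by decide +kernel)
              (CovZ.leaf K2_ok TB_l29533 _)
              (CovZ.leaf K2_ok TB_l29534 _)))
            (CovZ.n1 (-16080, 20880) (by decide +kernel)
             (CovZ.n2 (-16080, 20928) (by decide +kernel)
              (CovZ.leaf K2_ok TB_l29535 _)
              (CovZ.leaf K2_ok TB_l29536 _))
             (CovZ.n1 (-16032, 20880) (by decide +kernel)
              (CovZ.leaf K2_ok TB_l29537 _)
              (CovZ.leaf K2_ok TB_l29538 _))))))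
         (CovZ.n1 (-15936, 21120) (by decide +kernel)
          (CovZ.subM 107839786668602559178668061044976810148650357903782061106648565547024 (by decide +kernel)
           (CovZ.n2 (-15840, 21024) (by decide +kernel)
            (CovZ.n2 (-15936, 21024) (by decide +kernel)
             (CovZ.subM 696898287454081973172991205027464846770192 (by decide +kernel)
              (CovZ.n2 (-15888, 21072) (by decide +kernel)
               (CovZ.n2 (-15888, 21024) (by decide +kernel)
                (CovZ.n2 (-15912, 21048) (by decide +kernel)
                 (CovZ.leaf K2_ok TB_l29539 _)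
                 (CovZ.leaf K2_ok TB_l29540 _))
                (CovZ.n1 (-15864, 21048) (by decide +kernel)
                 (CovZ.leaf K2_ok TB_l29541 _)
                 (CovZ.leaf K2_ok TB_l29542 _)))
               (CovZ.n1 (-15936, 21072) (by decide +kernel)
                (CovZ.n2 (-15912, 21096) (by decide +kernel)
                 (CovZ.leaf K2_ok TB_l29543 _)
                 (CovZ.leaf K2_ok TB_l29544 _))
                (CovZ.n1 (-15912, 21048) (by decide +kernel)
                 (CovZ.leaf K2_ok TB_l29545 _)
                 (CovZ.n1 (-15912, 21072) (by decide +kernel)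
                  (CovZ.leaf K2_ok TB_l29546 _)
                  (CovZ.leaf K2_ok TB_l29547 _))))))
             (CovZ.n1 (-15888, 20976) (by decide +kernel)
              (CovZ.n2 (-15936, 20976) (by decide +kernel)
               (CovZ.leaf K2_ok TB_l29548 _)
               (CovZ.leaf K2_ok TB_l29549 _))
              (CovZ.subM 696898287454081973172991205027466994253840 (by decide +kernel)
               (CovZ.n1 (-15888, 21024) (by decide +kernel)
                (CovZ.n2 (-15864, 21000) (by decide +kernel)
                 (CovZ.leaf K2_ok TB_l29550 _)
                 (CovZ.leaf K2_ok TB_l29551 _))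
                (CovZ.n1 (-15912, 21000) (by decide +kernel)
                 (CovZ.leaf K2_ok TB_l29552 _)
                 (CovZ.leaf K2_ok TB_l29553 _))))))
            (CovZ.subM 696898287454081973172991205027464846770192 (by decide +kernel)
             (CovZ.n1 (-15840, 21120) (by decide +kernel)
              (CovZ.n2 (-15792, 21072) (by decide +kernel)
               (CovZ.n2 (-15840, 21072) (by decide +kernel)
                (CovZ.n2 (-15816, 21096) (by decide +kernel)
                 (CovZ.leaf K2_ok TB_l29554 _)
                 (CovZ.leaf K2_ok TB_l29555 _))
                (CovZ.n1 (-15816, 21048) (by decide +kernel)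
                 (CovZ.leaf K2_ok TB_l29556 _)
                 (CovZ.leaf K2_ok TB_l29557 _)))
               (CovZ.n1 (-15792, 21120) (by decide +kernel)
                (CovZ.n2 (-15768, 21096) (by decide +kernel)
                 (CovZ.leaf K2_ok TB_l29558 _)
                 (CovZ.n1 (-15768, 21120) (by decide +kernel)
                  (CovZ.leaf K2_ok TB_l29559 _)
                  (CovZ.leaf K2_ok TB_l29560 _)))
                (CovZ.n1 (-15816, 21096) (by decide +kernel)
                 (CovZ.n2 (-15816, 21120) (by decide +kernel)
                  (CovZ.leaf K2_ok TB_l29561 _)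
                  (CovZ.leaf K2_ok TB_l29562 _))
                 (CovZ.leaf K2_ok TB_l29563 _))))
              (CovZ.n1 (-15888, 21072) (by decide +kernel)
               (CovZ.n2 (-15888, 21120) (by decide +kernel)
                (CovZ.n2 (-15864, 21096) (by decide +kernel)
                 (CovZ.leaf K2_ok TB_l29564 _)
                 (CovZ.n1 (-15864, 21120) (by decide +kernel)
                  (CovZ.leaf K2_ok TB_l29565 _)
                  (CovZ.leaf K2_ok TB_l29566 _)))
                (CovZ.n1 (-15912, 21096) (by decide +kernel)
                 (CovZ.n2 (-15912, 21120) (by decide +kernel)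
                  (CovZ.leaf K2_ok TB_l44422 _)
                  (CovZ.leaf K2_ok TB_l44423 _))
                 (CovZ.leaf K2_ok TB_l29567 _)))
               (CovZ.n1 (-15840, 21072) (by decide +kernel)
                (CovZ.n2 (-15864, 21048) (by decide +kernel)
                 (CovZ.leaf K2_ok TB_l29568 _)
                 (CovZ.leaf K2_ok TB_l29569 _))
                (CovZ.n1 (-15864, 21096) (by decide +kernel)
                 (CovZ.n2 (-15840, 21096) (by decide +kernel)
                  (CovZ.leaf K2_ok TB_l29570 _)
                  (CovZ.leaf K2_ok TB_l29571 _))
                 (CovZ.leaf K2_ok TB_l29572 _))))))))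
          (CovZ.n1 (-16032, 21024) (by decide +kernel)
           (CovZ.subM 7071061551846936593005213383777977386276672730403219976692002639061188624 (by decide +kernel)
            (CovZ.n2 (-16032, 21120) (by decide +kernel)
             (CovZ.subM 696898287454081973172991205027466994253840 (by decide +kernel)
              (CovZ.n2 (-15984, 21072) (by decide +kernel)
               (CovZ.n2 (-16032, 21072) (by decide +kernel)
                (CovZ.n2 (-16008, 21096) (by decide +kernel)
                 (CovZ.leaf K2_ok TB_l29573 _)
                 (CovZ.leaf K2_ok TB_l29574 _))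
                (CovZ.n1 (-16008, 21048) (by decide +kernel)
                 (CovZ.leaf K2_ok TB_l29575 _)
                 (CovZ.leaf K2_ok TB_l29576 _)))
               (CovZ.n1 (-15984, 21120) (by decide +kernel)
                (CovZ.n2 (-15960, 21096) (by decide +kernel)
                 (CovZ.leaf K2_ok TB_l29577 _)
                 (CovZ.n1 (-15960, 21120) (by decide +kernel)
                  (CovZ.leaf K2_ok TB_l44424 _)
                  (CovZ.leaf K2_ok TB_l44425 _)))
                (CovZ.n1 (-16008, 21096) (by decide +kernel)
                 (CovZ.n2 (-16008, 21120) (by decide +kernel)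
                  (CovZ.leaf K2_ok TB_l29578 _)
                  (CovZ.leaf K2_ok TB_l29579 _))
                 (CovZ.leaf K2_ok TB_l29580 _)))))
             (CovZ.n1 (-16080, 21072) (by decide +kernel)
              (CovZ.subM 7070845872273599387886856047657281229231283633247839652103146604482002960 (by decide +kernel)
               (CovZ.n2 (-16080, 21120) (by decide +kernel)
                (CovZ.n2 (-16056, 21096) (by decide +kernel)
                 (CovZ.leaf K2_ok TB_l29581 _)
                 (CovZ.n1 (-16056, 21120) (by decide +kernel)
                  (CovZ.leaf K2_ok TB_l29582 _)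
                  (CovZ.leaf K2_ok TB_l29583 _)))
                (CovZ.n1 (-16104, 21096) (by decide +kernel)
                 (CovZ.n2 (-16104, 21120) (by decide +kernel)
                  (CovZ.leaf K2_ok TB_l29584 _)
                  (CovZ.leaf K2_ok TB_l29585 _))
                 (CovZ.n1 (-16080, 21096) (by decide +kernel)
                  (CovZ.leaf K2_ok TB_l29586 _)
                  (CovZ.leaf K2_ok TB_l29587 _)))))
              (CovZ.subM 696898287454081973172991196020263444545552 (by decide +kernel)
               (CovZ.n1 (-16032, 21072) (by decide +kernel)
                (CovZ.n2 (-16056, 21048) (by decide +kernel)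
                 (CovZ.n2 (-16056, 21072) (by decide +kernel)
                  (CovZ.leaf K2_ok TB_l29588 _)
                  (CovZ.leaf K2_ok TB_l29589 _))
                 (CovZ.leaf K2_ok TB_l29590 _))
                (CovZ.n1 (-16056, 21096) (by decide +kernel)
                 (CovZ.n2 (-16032, 21096) (by decide +kernel)
                  (CovZ.leaf K2_ok TB_l29591 _)
                  (CovZ.leaf K2_ok TB_l29592 _))
                 (CovZ.leaf K2_ok TB_l29593 _)))))))
           (CovZ.subM 107839786668602559178668061044976810148650357903782061106648565547024 (by decide +kernel)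
            (CovZ.n1 (-15936, 21024) (by decide +kernel)
             (CovZ.n2 (-15984, 20976) (by decide +kernel)
              (CovZ.n2 (-15984, 21024) (by decide +kernel)
               (CovZ.leaf K2_ok TB_l29594 _)
               (CovZ.n1 (-16008, 21000) (by decide +kernel)
                (CovZ.leaf K2_ok TB_l29595 _)
                (CovZ.leaf K2_ok TB_l29596 _)))
              (CovZ.n1 (-15936, 20976) (by decide +kernel)
               (CovZ.leaf K2_ok TB_l29597 _)
               (CovZ.n1 (-15960, 21000) (by decide +kernel)
                (CovZ.leaf K2_ok TB_l29598 _)
                (CovZ.leaf K2_ok TB_l29599 _))))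
             (CovZ.subM 696898287454081973172991205027466994253840 (by decide +kernel)
              (CovZ.n1 (-15984, 21072) (by decide +kernel)
               (CovZ.n2 (-15936, 21072) (by decide +kernel)
                (CovZ.n2 (-15960, 21048) (by decide +kernel)
                 (CovZ.leaf K2_ok TB_l29600 _)
                 (CovZ.leaf K2_ok TB_l29601 _))
                (CovZ.n1 (-15960, 21096) (by decide +kernel)
                 (CovZ.leaf K2_ok TB_l29602 _)
                 (CovZ.leaf K2_ok TB_l29603 _)))
               (CovZ.n1 (-15984, 21024) (by decide +kernel)
                (CovZ.n2 (-16008, 21048) (by decide +kernel)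
                 (CovZ.leaf K2_ok TB_l29604 _)
                 (CovZ.leaf K2_ok TB_l29605 _))
                (CovZ.n1 (-15960, 21048) (by decide +kernel)
                 (CovZ.leaf K2_ok TB_l29606 _)
                 (CovZ.leaf K2_ok TB_l29607 _))))))))))

theorem TB_u442 : CovZ TB_M (toL (selN TB_LN 30358022587153448870741157746619085251611662208352546551696003720060132181583986704)) [0, 7, 6, 1] (-16512, 21120) (-16320, 20928) (-16128, 21120) :=
    (CovZ.n2 (-16320, 21120) (by decide +kernel)
          (CovZ.n2 (-16224, 21024) (by decide +kernel)
           (CovZ.n2 (-16320, 21024) (by decide +kernel)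
            (CovZ.n2 (-16272, 21072) (by decide +kernel)
             (CovZ.n2 (-16272, 21024) (by decide +kernel)
              (CovZ.n2 (-16296, 21048) (by decide +kernel)
               (CovZ.leaf K2_ok TB_l29685 _)
               (CovZ.leaf K2_ok TB_l29686 _))
              (CovZ.n1 (-16248, 21048) (by decide +kernel)
               (CovZ.leaf K2_ok TB_l29687 _)
               (CovZ.leaf K2_ok TB_l29688 _)))
             (CovZ.n1 (-16320, 21072) (by decide +kernel)
              (CovZ.n2 (-16296, 21096) (by decide +kernel)
               (CovZ.n2 (-16296, 21072) (by decide +kernel)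
                (CovZ.leaf K2_ok TB_l29689 _)
                (CovZ.leaf K2_ok TB_l29690 _))
               (CovZ.leaf K2_ok TB_l29691 _))
              (CovZ.n1 (-16296, 21048) (by decide +kernel)
               (CovZ.leaf K2_ok TB_l29692 _)
               (CovZ.n1 (-16296, 21072) (by decide +kernel)
                (CovZ.leaf K2_ok TB_l29693 _)
                (CovZ.leaf K2_ok TB_l29694 _)))))
            (CovZ.n1 (-16272, 20976) (by decide +kernel)
             (CovZ.n2 (-16320, 20976) (by decide +kernel)
              (CovZ.leaf K2_ok TB_l29695 _)
              (CovZ.leaf K2_ok TB_l29696 _))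
             (CovZ.n1 (-16272, 21024) (by decide +kernel)
              (CovZ.n2 (-16248, 21000) (by decide +kernel)
               (CovZ.leaf K2_ok TB_l29697 _)
               (CovZ.leaf K2_ok TB_l29698 _))
              (CovZ.n1 (-16296, 21000) (by decide +kernel)
               (CovZ.leaf K2_ok TB_l29699 _)
               (CovZ.leaf K2_ok TB_l29700 _)))))
           (CovZ.subM 3705353926763509887159467084670064889630104308667777030172781661173070101086224 (by decide +kernel)
            (CovZ.n1 (-16224, 21120) (by decide +kernel)
             (CovZ.n2 (-16176, 21072) (by decide +kernel)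
              (CovZ.n2 (-16224, 21072) (by decide +kernel)
               (CovZ.n2 (-16200, 21096) (by decide +kernel)
                (CovZ.n2 (-16200, 21072) (by decide +kernel)
                 (CovZ.leaf K2_ok TB_l29701 _)
                 (CovZ.leaf K2_ok TB_l29702 _))
                (CovZ.leaf K2_ok TB_l29703 _))
               (CovZ.n1 (-16200, 21048) (by decide +kernel)
                (CovZ.leaf K2_ok TB_l29704 _)
                (CovZ.n1 (-16200, 21072) (by decide +kernel)
                 (CovZ.leaf K2_ok TB_l29705 _)
                 (CovZ.leaf K2_ok TB_l29706 _))))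
              (CovZ.subM 7071061551846936593005213383777977386276672730403219976682995433363996688 (by decide +kernel)
               (CovZ.n1 (-16176, 21120) (by decide +kernel)
                (CovZ.n2 (-16152, 21096) (by decide +kernel)
                 (CovZ.leaf K2_ok TB_l29707 _)
                 (CovZ.n1 (-16152, 21120) (by decide +kernel)
                  (CovZ.leaf K2_ok TB_l29708 _)
                  (CovZ.leaf K2_ok TB_l29709 _)))
                (CovZ.n1 (-16200, 21096) (by decide +kernel)
                 (CovZ.n2 (-16200, 21120) (by decide +kernel)
                  (CovZ.leaf K2_ok TB_l29710 _)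
                  (CovZ.leaf K2_ok TB_l29711 _))
                 (CovZ.n1 (-16176, 21096) (by decide +kernel)
                  (CovZ.leaf K2_ok TB_l29712 _)
                  (CovZ.leaf K2_ok TB_l29713 _))))))
             (CovZ.n1 (-16272, 21072) (by decide +kernel)
              (CovZ.subM 7071061551846936593005213383777977386276672730403219976682995435511480320 (by decide +kernel)
               (CovZ.n2 (-16272, 21120) (by decide +kernel)
                (CovZ.n2 (-16248, 21096) (by decide +kernel)
                 (CovZ.leaf K2_ok TB_l29714 _)
                 (CovZ.n1 (-16248, 21120) (by decide +kernel)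
                  (CovZ.leaf K2_ok TB_l29715 _)
                  (CovZ.leaf K2_ok TB_l29716 _)))
                (CovZ.n1 (-16296, 21096) (by decide +kernel)
                 (CovZ.n2 (-16296, 21120) (by decide +kernel)
                  (CovZ.leaf K2_ok TB_l29717 _)
                  (CovZ.leaf K2_ok TB_l29718 _))
                 (CovZ.n1 (-16272, 21096) (by decide +kernel)
                  (CovZ.leaf K2_ok TB_l29719 _)
                  (CovZ.leaf K2_ok TB_l29720 _)))))
              (CovZ.n1 (-16224, 21072) (by decide +kernel)
               (CovZ.n2 (-16248, 21048) (by decide +kernel)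
                (CovZ.n2 (-16248, 21072) (by decide +kernel)
                 (CovZ.leaf K2_ok TB_l29721 _)
                 (CovZ.leaf K2_ok TB_l29722 _))
                (CovZ.leaf K2_ok TB_l29723 _))
               (CovZ.n1 (-16248, 21096) (by decide +kernel)
                (CovZ.n2 (-16224, 21096) (by decide +kernel)
                 (CovZ.leaf K2_ok TB_l29724 _)
                 (CovZ.leaf K2_ok TB_l29725 _))
                (CovZ.leaf K2_ok TB_l29726 _)))))))
          (CovZ.n1 (-16416, 21024) (by decide +kernel)
           (CovZ.n2 (-16416, 21120) (by decide +kernel)
            (CovZ.n2 (-16368, 21072) (by decide +kernel)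
             (CovZ.n2 (-16416, 21072) (by decide +kernel)
              (CovZ.n2 (-16392, 21096) (by decide +kernel)
               (CovZ.n2 (-16392, 21072) (by decide +kernel)
                (CovZ.leaf K2_ok TB_l29727 _)
                (CovZ.leaf K2_ok TB_l29728 _))
               (CovZ.leaf K2_ok TB_l29729 _))
              (CovZ.n1 (-16392, 21048) (by decide +kernel)
               (CovZ.leaf K2_ok TB_l29730 _)
               (CovZ.n1 (-16392, 21072) (by decide +kernel)
                (CovZ.leaf K2_ok TB_l29731 _)
                (CovZ.leaf K2_ok TB_l29732 _))))
             (CovZ.subM 3705346859375250773622148751480061917956040998732189527696949174748264930607104 (by decide +kernel)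
              (CovZ.n1 (-16368, 21120) (by decide +kernel)
               (CovZ.n2 (-16344, 21096) (by decide +kernel)
                (CovZ.leaf K2_ok TB_l29733 _)
                (CovZ.n1 (-16344, 21120) (by decide +kernel)
                 (CovZ.leaf K2_ok TB_l29734 _)
                 (CovZ.leaf K2_ok TB_l29735 _)))
               (CovZ.n1 (-16392, 21096) (by decide +kernel)
                (CovZ.n2 (-16392, 21120) (by decide +kernel)
                 (CovZ.leaf K2_ok TB_l29736 _)
                 (CovZ.leaf K2_ok TB_l29737 _))
                (CovZ.n1 (-16368, 21096) (by decide +kernel)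
                 (CovZ.leaf K2_ok TB_l29738 _)
                 (CovZ.leaf K2_ok TB_l29739 _))))))
            (CovZ.n1 (-16464, 21072) (by decide +kernel)
             (CovZ.subM 30358022579975625930092304620023997332735833395431789563035079500161556334654914560 (by decide +kernel)
              (CovZ.n2 (-16464, 21120) (by decide +kernel)
               (CovZ.n2 (-16440, 21096) (by decide +kernel)
                (CovZ.leaf K2_ok TB_l29740 _)
                (CovZ.n1 (-16440, 21120) (by decide +kernel)
                 (CovZ.leaf K2_ok TB_l29741 _)
                 (CovZ.leaf K2_ok TB_l29742 _)))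
               (CovZ.n1 (-16488, 21096) (by decide +kernel)
                (CovZ.n2 (-16488, 21120) (by decide +kernel)
                 (CovZ.leaf K2_ok TB_l29743 _)
                 (CovZ.leaf K2_ok TB_l29744 _))
                (CovZ.n1 (-16464, 21096) (by decide +kernel)
                 (CovZ.leaf K2_ok TB_l29745 _)
                 (CovZ.leaf K2_ok TB_l29746 _)))))
             (CovZ.n1 (-16416, 21072) (by decide +kernel)
              (CovZ.n2 (-16440, 21048) (by decide +kernel)
               (CovZ.n2 (-16440, 21072) (by decide +kernel)
                (CovZ.leaf K2_ok TB_l29747 _)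
                (CovZ.leaf K2_ok TB_l29748 _))
               (CovZ.leaf K2_ok TB_l29749 _))
              (CovZ.subM 30358022579975629300085638013853971666112719272885623767678132317733116472606195712 (by decide +kernel)
               (CovZ.n1 (-16440, 21096) (by decide +kernel)
                (CovZ.n2 (-16416, 21096) (by decide +kernel)
                 (CovZ.leaf K2_ok TB_l29750 _)
                 (CovZ.leaf K2_ok TB_l29751 _))
                (CovZ.n1 (-16440, 21072) (by decide +kernel)
                 (CovZ.leaf K2_ok TB_l29752 _)
                 (CovZ.leaf K2_ok TB_l29753 _)))))))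
           (CovZ.n1 (-16320, 21024) (by decide +kernel)
            (CovZ.n2 (-16368, 20976) (by decide +kernel)
             (CovZ.n2 (-16368, 21024) (by decide +kernel)
              (CovZ.n2 (-16344, 21000) (by decide +kernel)
               (CovZ.leaf K2_ok TB_l29754 _)
               (CovZ.leaf K2_ok TB_l29755 _))
              (CovZ.n1 (-16392, 21000) (by decide +kernel)
               (CovZ.leaf K2_ok TB_l29756 _)
               (CovZ.leaf K2_ok TB_l29757 _)))
             (CovZ.n1 (-16320, 20976) (by decide +kernel)
              (CovZ.leaf K2_ok TB_l29758 _)
              (CovZ.n1 (-16344, 21000) (by decide +kernel)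
               (CovZ.leaf K2_ok TB_l29759 _)
               (CovZ.leaf K2_ok TB_l29760 _))))
            (CovZ.n1 (-16368, 21072) (by decide +kernel)
             (CovZ.n2 (-16320, 21072) (by decide +kernel)
              (CovZ.n2 (-16344, 21048) (by decide +kernel)
               (CovZ.n2 (-16344, 21072) (by decide +kernel)
                (CovZ.leaf K2_ok TB_l29761 _)
                (CovZ.leaf K2_ok TB_l29762 _))
               (CovZ.leaf K2_ok TB_l29763 _))
              (CovZ.subM 3705353926763509887159467084670064889630104308667777030172781661173070101086208 (by decide +kernel)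
               (CovZ.n1 (-16344, 21096) (by decide +kernel)
                (CovZ.n2 (-16320, 21096) (by decide +kernel)
                 (CovZ.leaf K2_ok TB_l29764 _)
                 (CovZ.leaf K2_ok TB_l29765 _))
                (CovZ.n1 (-16344, 21072) (by decide +kernel)
                 (CovZ.leaf K2_ok TB_l29766 _)
                 (CovZ.leaf K2_ok TB_l29767 _)))))
             (CovZ.n1 (-16368, 21024) (by decide +kernel)
              (CovZ.n2 (-16392, 21048) (by decide +kernel)
               (CovZ.leaf K2_ok TB_l29768 _)
               (CovZ.leaf K2_ok TB_l29769 _))
              (CovZ.n1 (-16344, 21048) (by decide +kernel)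
               (CovZ.leaf K2_ok TB_l29770 _)
               (CovZ.leaf K2_ok TB_l29771 _)))))))

theorem TB_u443 : CovZ TB_M (toL (selN TB_LN 30358022587153448870741157746619085251611662208352546551696003720060132181583986704)) [0, 7, 6, 1] (-16320, 20928) (-16128, 20736) (-16128, 21120) :=
    (CovZ.n1 (-16128, 20928) (by decide +kernel)
          (CovZ.n2 (-16224, 20832) (by decide +kernel)
           (CovZ.n2 (-16224, 20928) (by decide +kernel)
            (CovZ.n2 (-16176, 20880) (by decide +kernel)
             (CovZ.leaf K2_ok TB_l29772 _)
             (CovZ.n1 (-16176, 20928) (by decide +kernel)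
              (CovZ.leaf K2_ok TB_l29773 _)
              (CovZ.leaf K2_ok TB_l29774 _)))
            (CovZ.n1 (-16272, 20880) (by decide +kernel)
             (CovZ.n2 (-16272, 20928) (by decide +kernel)
              (CovZ.leaf K2_ok TB_l29775 _)
              (CovZ.leaf K2_ok TB_l29776 _))
             (CovZ.n1 (-16224, 20880) (by decide +kernel)
              (CovZ.leaf K2_ok TB_l29777 _)
              (CovZ.leaf K2_ok TB_l29778 _))))
           (CovZ.n1 (-16128, 20832) (by decide +kernel)
            (CovZ.n2 (-16176, 20784) (by decide +kernel)
             (CovZ.n2 (-16176, 20832) (by decide +kernel)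
              (CovZ.leaf K2_ok TB_l29779 _)
              (CovZ.leaf K2_ok TB_l29780 _))
             (CovZ.leaf K2_ok TB_l29781 _))
            (CovZ.n1 (-16176, 20880) (by decide +kernel)
             (CovZ.n2 (-16128, 20880) (by decide +kernel)
              (CovZ.leaf K2_ok TB_l29782 _)
              (CovZ.leaf K2_ok TB_l29783 _))
             (CovZ.n1 (-16176, 20832) (by decide +kernel)
              (CovZ.leaf K2_ok TB_l29784 _)
              (CovZ.leaf K2_ok TB_l29785 _)))))
          (CovZ.n1 (-16224, 21024) (by decide +kernel)
           (CovZ.n2 (-16128, 21024) (by decide +kernel)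
            (CovZ.n2 (-16176, 20976) (by decide +kernel)
             (CovZ.subM 3705353926763509887159467084670064889630104308667777030172781661173070101086224 (by decide +kernel)
              (CovZ.n2 (-16176, 21024) (by decide +kernel)
               (CovZ.n2 (-16152, 21000) (by decide +kernel)
                (CovZ.leaf K2_ok TB_l29786 _)
                (CovZ.leaf K2_ok TB_l29787 _))
               (CovZ.n1 (-16200, 21000) (by decide +kernel)
                (CovZ.leaf K2_ok TB_l29788 _)
                (CovZ.leaf K2_ok TB_l29789 _))))
             (CovZ.n1 (-16128, 20976) (by decide +kernel)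
              (CovZ.leaf K2_ok TB_l29790 _)
              (CovZ.n1 (-16152, 21000) (by decide +kernel)
               (CovZ.leaf K2_ok TB_l29791 _)
               (CovZ.leaf K2_ok TB_l29792 _))))
            (CovZ.subM 3705353926763509887159467084670064889630104308667777030172781661173070101086224 (by decide +kernel)
             (CovZ.n1 (-16176, 21072) (by decide +kernel)
              (CovZ.n2 (-16128, 21072) (by decide +kernel)
               (CovZ.n2 (-16152, 21048) (by decide +kernel)
                (CovZ.leaf K2_ok TB_l29793 _)
                (CovZ.leaf K2_ok TB_l29794 _))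
               (CovZ.n1 (-16152, 21096) (by decide +kernel)
                (CovZ.n2 (-16128, 21096) (by decide +kernel)
                 (CovZ.leaf K2_ok TB_l29795 _)
                 (CovZ.leaf K2_ok TB_l29796 _))
                (CovZ.leaf K2_ok TB_l29797 _)))
              (CovZ.n1 (-16176, 21024) (by decide +kernel)
               (CovZ.n2 (-16200, 21048) (by decide +kernel)
                (CovZ.leaf K2_ok TB_l29798 _)
                (CovZ.leaf K2_ok TB_l29799 _))
               (CovZ.n1 (-16152, 21048) (by decide +kernel)
                (CovZ.leaf K2_ok TB_l29800 _)
                (CovZ.leaf K2_ok TB_l29801 _))))))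
           (CovZ.n1 (-16224, 20928) (by decide +kernel)
            (CovZ.n2 (-16272, 20976) (by decide +kernel)
             (CovZ.n2 (-16224, 20976) (by decide +kernel)
              (CovZ.leaf K2_ok TB_l29802 _)
              (CovZ.n1 (-16248, 21000) (by decide +kernel)
               (CovZ.leaf K2_ok TB_l29803 _)
               (CovZ.leaf K2_ok TB_l29804 _)))
             (CovZ.n1 (-16272, 20928) (by decide +kernel)
              (CovZ.leaf K2_ok TB_l29805 _)
              (CovZ.leaf K2_ok TB_l29806 _)))
            (CovZ.n1 (-16176, 20976) (by decide +kernel)
             (CovZ.n2 (-16176, 20928) (by decide +kernel)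
              (CovZ.leaf K2_ok TB_l29807 _)
              (CovZ.leaf K2_ok TB_l29808 _))
             (CovZ.n1 (-16224, 20976) (by decide +kernel)
              (CovZ.leaf K2_ok TB_l29809 _)
              (CovZ.leaf K2_ok TB_l29810 _))))))

theorem TB_u444 : CovZ TB_M (toL (selN TB_LN 2710218140521003545114830911210674883087294873560456484508858420952904592112264787109864617323512502233480724496)) [0, 7, 6, 1] (-16896, 21504) (-16512, 21120) (-16128, 21504) :=
    (CovZ.subM 2404907604760405225489198433628046248133851629197238659249693205154474231074594519113699291675356226843738013712 (by decide +kernel)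
       (CovZ.n2 (-16512, 21504) (by decide +kernel)
        (CovZ.n2 (-16320, 21312) (by decide +kernel)
         (CovZ.subM 30358022579972175056918909338130279954805391780993018090522167298079995333840076800 (by decide +kernel)
          (CovZ.n2 (-16512, 21312) (by decide +kernel)
           (CovZ.badM (by decide +kernel))
           (CovZ.n1 (-16416, 21216) (by decide +kernel)
            (CovZ.n2 (-16512, 21216) (by decide +kernel)
             (CovZ.badM (by decide +kernel))
             (CovZ.n1 (-16464, 21168) (by decide +kernel)
              (CovZ.n2 (-16512, 21168) (by decide +kernel)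
               (CovZ.badM (by decide +kernel))
               (CovZ.n1 (-16488, 21144) (by decide +kernel)
                (CovZ.n2 (-16512, 21144) (by decide +kernel)
                 (CovZ.leaf K2_ok TB_l29615 _)
                 (CovZ.leaf K2_ok TB_l29616 _))
                (CovZ.badM (by decide +kernel))))
              (CovZ.badM (by decide +kernel))))
            (CovZ.badM (by decide +kernel)))))
         (CovZ.badM (by decide +kernel)))
        (CovZ.n1 (-16704, 21312) (by decide +kernel)
         (CovZ.subM 2404907604760405225489198433628042426994906470873436342205677414959889568618261719955670147347097608048189931520 (by decide +kernel)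
          (CovZ.n2 (-16704, 21504) (by decide +kernel)
           (CovZ.subM 30354201441027016733116592294117482916287606860189680019559568902170379456331382784 (by decide +kernel)
            (CovZ.n2 (-16608, 21408) (by decide +kernel)
             (CovZ.n2 (-16704, 21408) (by decide +kernel)
              (CovZ.badM (by decide +kernel))
              (CovZ.n1 (-16656, 21360) (by decide +kernel)
               (CovZ.n2 (-16704, 21360) (by decide +kernel)
                (CovZ.badM (by decide +kernel))
                (CovZ.n1 (-16680, 21336) (by decide +kernel)
                 (CovZ.leaf K2_ok TB_l29628 _)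
                 (CovZ.badM (by decide +kernel))))
               (CovZ.badM (by decide +kernel))))
             (CovZ.badM (by decide +kernel))))
           (CovZ.n1 (-16800, 21408) (by decide +kernel)
            (CovZ.n2 (-16800, 21504) (by decide +kernel)
             (CovZ.badM (by decide +kernel))
             (CovZ.n1 (-16848, 21456) (by decide +kernel)
              (CovZ.n2 (-16848, 21504) (by decide +kernel)
               (CovZ.badM (by decide +kernel))
               (CovZ.leaf K2_ok TB_l29647 _))
              (CovZ.badM (by decide +kernel))))
            (CovZ.subM 30354201441027016733116592294117482916287606860189680019559568902170379456331382784 (by decide +kernel)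
             (CovZ.n1 (-16704, 21408) (by decide +kernel)
              (CovZ.n2 (-16752, 21360) (by decide +kernel)
               (CovZ.badM (by decide +kernel))
               (CovZ.n1 (-16704, 21360) (by decide +kernel)
                (CovZ.n2 (-16728, 21336) (by decide +kernel)
                 (CovZ.leaf K2_ok TB_l29653 _)
                 (CovZ.leaf K2_ok TB_l29654 _))
                (CovZ.badM (by decide +kernel))))
              (CovZ.badM (by decide +kernel)))))))
         (CovZ.subM 30358022579972175056918909338130279954804694882705564008548994306883975072543014912 (by decide +kernel)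
          (CovZ.n1 (-16512, 21312) (by decide +kernel)
           (CovZ.n2 (-16608, 21216) (by decide +kernel)
            (CovZ.subM 30354201441027016733116592294117482916287606860189680019559568902170379456331382784 (by decide +kernel)
             (CovZ.n2 (-16608, 21312) (by decide +kernel)
              (CovZ.n2 (-16560, 21264) (by decide +kernel)
               (CovZ.n2 (-16608, 21264) (by decide +kernel)
                (CovZ.badM (by decide +kernel))
                (CovZ.n1 (-16584, 21240) (by decide +kernel)
                 (CovZ.leaf K2_ok TB_l44449 _)
                 (CovZ.badM (by decide +kernel))))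
               (CovZ.badM (by decide +kernel)))
              (CovZ.n1 (-16656, 21264) (by decide +kernel)
               (CovZ.n2 (-16656, 21312) (by decide +kernel)
                (CovZ.n2 (-16632, 21288) (by decide +kernel)
                 (CovZ.leaf K2_ok TB_l29664 _)
                 (CovZ.badM (by decide +kernel)))
                (CovZ.n1 (-16680, 21288) (by decide +kernel)
                 (CovZ.leaf K2_ok TB_l29666 _)
                 (CovZ.leaf K2_ok TB_l29667 _)))
               (CovZ.n1 (-16608, 21264) (by decide +kernel)
                (CovZ.n2 (-16632, 21240) (by decide +kernel)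
                 (CovZ.n2 (-16632, 21264) (by decide +kernel)
                  (CovZ.leaf K2_ok TB_l44456 _)
                  (CovZ.leaf K2_ok TB_l29668 _))
                 (CovZ.n1 (-16608, 21240) (by decide +kernel)
                  (CovZ.leaf K2_ok TB_l44457 _)
                  (CovZ.leaf K2_ok TB_l44458 _)))
                (CovZ.n1 (-16632, 21288) (by decide +kernel)
                 (CovZ.badM (by decide +kernel))
                 (CovZ.n1 (-16632, 21264) (by decide +kernel)
                  (CovZ.leaf K2_ok TB_l29669 _)
                  (CovZ.badM (by decide +kernel))))))))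
            (CovZ.n1 (-16512, 21216) (by decide +kernel)
             (CovZ.n2 (-16560, 21168) (by decide +kernel)
              (CovZ.subM 30354317233116254049312015865102491604195460130174345660123608359754388468972650496 (by decide +kernel)
               (CovZ.n2 (-16560, 21216) (by decide +kernel)
                (CovZ.n2 (-16536, 21192) (by decide +kernel)
                 (CovZ.n2 (-16560, 21192) (by decide +kernel)
                  (CovZ.leaf K2_ok TB_l44462 _)
                  (CovZ.leaf K2_ok TB_l29670 _))
                 (CovZ.badM (by decide +kernel)))
                (CovZ.n1 (-16584, 21192) (by decide +kernel)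
                 (CovZ.n2 (-16584, 21216) (by decide +kernel)
                  (CovZ.leaf K2_ok TB_l44463 _)
                  (CovZ.leaf K2_ok TB_l44464 _))
                 (CovZ.n1 (-16560, 21192) (by decide +kernel)
                  (CovZ.leaf K2_ok TB_l29671 _)
                  (CovZ.leaf K2_ok TB_l44465 _)))))
              (CovZ.n1 (-16512, 21168) (by decide +kernel)
               (CovZ.n2 (-16536, 21144) (by decide +kernel)
                (CovZ.n2 (-16536, 21168) (by decide +kernel)
                 (CovZ.leaf K2_ok TB_l29672 _)
                 (CovZ.leaf K2_ok TB_l29673 _))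
                (CovZ.n1 (-16512, 21144) (by decide +kernel)
                 (CovZ.leaf K2_ok TB_l29674 _)
                 (CovZ.leaf K2_ok TB_l29675 _)))
               (CovZ.n1 (-16536, 21192) (by decide +kernel)
                (CovZ.badM (by decide +kernel))
                (CovZ.n1 (-16536, 21168) (by decide +kernel)
                 (CovZ.leaf K2_ok TB_l29676 _)
                 (CovZ.leaf K2_ok TB_l44466 _)))))
             (CovZ.subM 30354201441027016733116592294117482916287606860189680019559568902170379456331382784 (by decide +kernel)
              (CovZ.n1 (-16560, 21264) (by decide +kernel)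
               (CovZ.badM (by decide +kernel))
               (CovZ.n1 (-16560, 21216) (by decide +kernel)
                (CovZ.n2 (-16584, 21240) (by decide +kernel)
                 (CovZ.badM (by decide +kernel))
                 (CovZ.n1 (-16584, 21216) (by decide +kernel)
                  (CovZ.leaf K2_ok TB_l44469 _)
                  (CovZ.leaf K2_ok TB_l44470 _)))
                (CovZ.badM (by decide +kernel)))))))
           (CovZ.subM 30354201441027016733116592294117482916287606860189680019559568902170379456331382784 (by decide +kernel)
            (CovZ.n1 (-16608, 21408) (by decide +kernel)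
             (CovZ.badM (by decide +kernel))
             (CovZ.n1 (-16608, 21312) (by decide +kernel)
              (CovZ.n2 (-16656, 21360) (by decide +kernel)
               (CovZ.badM (by decide +kernel))
               (CovZ.n1 (-16656, 21312) (by decide +kernel)
                (CovZ.n2 (-16680, 21336) (by decide +kernel)
                 (CovZ.badM (by decide +kernel))
                 (CovZ.n1 (-16680, 21312) (by decide +kernel)
                  (CovZ.leaf K2_ok TB_l29681 _)
                  (CovZ.badM (by decide +kernel))))
                (CovZ.badM (by decide +kernel))))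
              (CovZ.badM (by decide +kernel))))))))))

theorem TB_u445 : CovZ TB_M (toL (selN TB_LN 2710218140521003545114830911210674883087294873560456484508858420952904592112264787109864617323512502233480724496)) [0, 7, 6, 1] (-16512, 21120) (-16128, 20736) (-16128, 21504) :=
    (CovZ.subM 30358022587153448870741157746619085251611662208352546551696003720060132181583986704 (by decide +kernel)
       (CovZ.n1 (-16128, 21120) (by decide +kernel)
        (CovZ.n2 (-16320, 20928) (by decide +kernel)
         TB_u442
         TB_u443)
        (CovZ.n1 (-16320, 21312) (by decide +kernel)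
         (CovZ.subM 7070845872273599387886856047657281229231283633247839652103146604482002960 (by decide +kernel)
          (CovZ.n2 (-16128, 21312) (by decide +kernel)
           (CovZ.n2 (-16224, 21216) (by decide +kernel)
            (CovZ.badM (by decide +kernel))
            (CovZ.n1 (-16128, 21216) (by decide +kernel)
             (CovZ.n2 (-16176, 21168) (by decide +kernel)
              (CovZ.badM (by decide +kernel))
              (CovZ.n1 (-16128, 21168) (by decide +kernel)
               (CovZ.n2 (-16152, 21144) (by decide +kernel)
                (CovZ.n2 (-16152, 21168) (by decide +kernel)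
                 (CovZ.leaf K2_ok TB_l44497 _)
                 (CovZ.leaf K2_ok TB_l44498 _))
                (CovZ.n1 (-16128, 21144) (by decide +kernel)
                 (CovZ.leaf K2_ok TB_l44499 _)
                 (CovZ.leaf K2_ok TB_l44500 _)))
               (CovZ.n1 (-16152, 21192) (by decide +kernel)
                (CovZ.n2 (-16128, 21192) (by decide +kernel)
                 (CovZ.leaf K2_ok TB_l44501 _)
                 (CovZ.badM (by decide +kernel)))
                (CovZ.n1 (-16152, 21168) (by decide +kernel)
                 (CovZ.badM (by decide +kernel))
                 (CovZ.leaf K2_ok TB_l44502 _)))))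
             (CovZ.badM (by decide +kernel))))
           (CovZ.badM (by decide +kernel))))
         (CovZ.n1 (-16320, 21120) (by decide +kernel)
          (CovZ.subM 30358022579972175056918909338130279954805391780993018090522167298079995333840076800 (by decide +kernel)
           (CovZ.n2 (-16416, 21216) (by decide +kernel)
            (CovZ.subM 696898287454081973172991196020261297061888 (by decide +kernel)
             (CovZ.n2 (-16320, 21216) (by decide +kernel)
              (CovZ.n2 (-16368, 21168) (by decide +kernel)
               (CovZ.badM (by decide +kernel))
               (CovZ.n1 (-16320, 21168) (by decide +kernel)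
                (CovZ.n2 (-16344, 21144) (by decide +kernel)
                 (CovZ.badM (by decide +kernel))
                 (CovZ.n1 (-16320, 21144) (by decide +kernel)
                  (CovZ.leaf K2_ok TB_l44503 _)
                  (CovZ.badM (by decide +kernel))))
                (CovZ.badM (by decide +kernel))))
              (CovZ.badM (by decide +kernel))))
            (CovZ.n1 (-16416, 21120) (by decide +kernel)
             (CovZ.n2 (-16464, 21168) (by decide +kernel)
              (CovZ.subM 215679573337205118357336120696157045389097155380324579848828881993728 (by decide +kernel)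
               (CovZ.n2 (-16416, 21168) (by decide +kernel)
                (CovZ.n2 (-16440, 21144) (by decide +kernel)
                 (CovZ.badM (by decide +kernel))
                 (CovZ.n1 (-16416, 21144) (by decide +kernel)
                  (CovZ.leaf K2_ok TB_l44504 _)
                  (CovZ.badM (by decide +kernel))))
                (CovZ.badM (by decide +kernel))))
              (CovZ.n1 (-16464, 21120) (by decide +kernel)
               (CovZ.n2 (-16488, 21144) (by decide +kernel)
                (CovZ.n2 (-16464, 21144) (by decide +kernel)
                 (CovZ.leaf K2_ok TB_l29811 _)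
                 (CovZ.badM (by decide +kernel)))
                (CovZ.n1 (-16488, 21120) (by decide +kernel)
                 (CovZ.leaf K2_ok TB_l29812 _)
                 (CovZ.leaf K2_ok TB_l29813 _)))
               (CovZ.subM 3705346855917637613560079197814017232348875077384143782333129558026465619083264 (by decide +kernel)
                (CovZ.n1 (-16440, 21144) (by decide +kernel)
                 (CovZ.n2 (-16440, 21120) (by decide +kernel)
                  (CovZ.leaf K2_ok TB_l29814 _)
                  (CovZ.leaf K2_ok TB_l44505 _))
                 (CovZ.n1 (-16464, 21144) (by decide +kernel)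
                  (CovZ.badM (by decide +kernel))
                  (CovZ.leaf K2_ok TB_l29815 _))))))
             (CovZ.subM 215679573337205118357336121393055332843179128553315775869090179055616 (by decide +kernel)
              (CovZ.n1 (-16368, 21168) (by decide +kernel)
               (CovZ.n2 (-16368, 21120) (by decide +kernel)
                (CovZ.n2 (-16392, 21144) (by decide +kernel)
                 (CovZ.badM (by decide +kernel))
                 (CovZ.n1 (-16392, 21120) (by decide +kernel)
                  (CovZ.leaf K2_ok TB_l44506 _)
                  (CovZ.badM (by decide +kernel))))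
                (CovZ.n1 (-16344, 21144) (by decide +kernel)
                 (CovZ.n2 (-16344, 21120) (by decide +kernel)
                  (CovZ.badM (by decide +kernel))
                  (CovZ.leaf K2_ok TB_l44507 _))
                 (CovZ.badM (by decide +kernel))))
               (CovZ.n1 (-16416, 21168) (by decide +kernel)
                (CovZ.badM (by decide +kernel))
                (CovZ.n1 (-16392, 21144) (by decide +kernel)
                 (CovZ.n2 (-16416, 21144) (by decide +kernel)
                  (CovZ.badM (by decide +kernel))
                  (CovZ.leaf K2_ok TB_l44508 _))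
                 (CovZ.badM (by decide +kernel)))))))))
          (CovZ.subM 7070845872273599387886856047657281229231283633247839652103146604482002960 (by decide +kernel)
           (CovZ.n1 (-16224, 21216) (by decide +kernel)
            (CovZ.n2 (-16224, 21120) (by decide +kernel)
             (CovZ.n2 (-16272, 21168) (by decide +kernel)
              (CovZ.n2 (-16224, 21168) (by decide +kernel)
               (CovZ.n2 (-16248, 21144) (by decide +kernel)
                (CovZ.badM (by decide +kernel))
                (CovZ.n1 (-16224, 21144) (by decide +kernel)
                 (CovZ.leaf K2_ok TB_l29818 _)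
                 (CovZ.badM (by decide +kernel))))
               (CovZ.badM (by decide +kernel)))
              (CovZ.n1 (-16272, 21120) (by decide +kernel)
               (CovZ.n2 (-16296, 21144) (by decide +kernel)
                (CovZ.n2 (-16272, 21144) (by decide +kernel)
                 (CovZ.leaf K2_ok TB_l44509 _)
                 (CovZ.badM (by decide +kernel)))
                (CovZ.n1 (-16296, 21120) (by decide +kernel)
                 (CovZ.leaf K2_ok TB_l44510 _)
                 (CovZ.leaf K2_ok TB_l44511 _)))
               (CovZ.n1 (-16248, 21144) (by decide +kernel)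
                (CovZ.n2 (-16248, 21120) (by decide +kernel)
                 (CovZ.leaf K2_ok TB_l29821 _)
                 (CovZ.leaf K2_ok TB_l29822 _))
                (CovZ.n1 (-16272, 21144) (by decide +kernel)
                 (CovZ.badM (by decide +kernel))
                 (CovZ.leaf K2_ok TB_l29824 _)))))
             (CovZ.n1 (-16176, 21168) (by decide +kernel)
              (CovZ.n2 (-16176, 21120) (by decide +kernel)
               (CovZ.n2 (-16200, 21144) (by decide +kernel)
                (CovZ.n2 (-16176, 21144) (by decide +kernel)
                 (CovZ.leaf K2_ok TB_l44512 _)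
                 (CovZ.leaf K2_ok TB_l44513 _))
                (CovZ.n1 (-16200, 21120) (by decide +kernel)
                 (CovZ.leaf K2_ok TB_l29825 _)
                 (CovZ.leaf K2_ok TB_l44514 _)))
               (CovZ.n1 (-16152, 21144) (by decide +kernel)
                (CovZ.n2 (-16152, 21120) (by decide +kernel)
                 (CovZ.leaf K2_ok TB_l44515 _)
                 (CovZ.leaf K2_ok TB_l44516 _))
                (CovZ.n1 (-16176, 21144) (by decide +kernel)
                 (CovZ.leaf K2_ok TB_l44517 _)
                 (CovZ.leaf K2_ok TB_l44518 _))))
              (CovZ.n1 (-16224, 21168) (by decide +kernel)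
               (CovZ.badM (by decide +kernel))
               (CovZ.n1 (-16200, 21144) (by decide +kernel)
                (CovZ.n2 (-16224, 21144) (by decide +kernel)
                 (CovZ.leaf K2_ok TB_l44519 _)
                 (CovZ.leaf K2_ok TB_l29826 _))
                (CovZ.n1 (-16200, 21168) (by decide +kernel)
                 (CovZ.leaf K2_ok TB_l44520 _)
                 (CovZ.leaf K2_ok TB_l44521 _))))))
            (CovZ.n1 (-16320, 21216) (by decide +kernel)
             (CovZ.badM (by decide +kernel))
             (CovZ.n1 (-16272, 21168) (by decide +kernel)
              (CovZ.n2 (-16320, 21168) (by decide +kernel)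
               (CovZ.badM (by decide +kernel))
               (CovZ.n1 (-16296, 21144) (by decide +kernel)
                (CovZ.n2 (-16320, 21144) (by decide +kernel)
                 (CovZ.badM (by decide +kernel))
                 (CovZ.leaf K2_ok TB_l44522 _))
                (CovZ.badM (by decide +kernel))))
              (CovZ.badM (by decide +kernel))))))))))

theorem TB_u446 : CovZ TB_M (toL (selN TB_LN 2705521055355455878659051949986723365058408532166779289444489000774910446601698791673682973867173955608850235392)) [0, 7, 6, 1] (-16896, 21504) (-16896, 22272) (-17664, 22272) :=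
    (CovZ.n2 (-17280, 21888) (by decide +kernel)
       (CovZ.n2 (-17280, 22272) (by decide +kernel)
        (CovZ.n2 (-17088, 22080) (by decide +kernel)
         (CovZ.n2 (-17280, 22080) (by decide +kernel)
          (CovZ.n2 (-17184, 22176) (by decide +kernel)
           (CovZ.n2 (-17184, 22080) (by decide +kernel)
            (CovZ.leaf K2_ok TB_l22692 _)
            (CovZ.n1 (-17136, 22128) (by decide +kernel)
             (CovZ.leaf K2_ok TB_l22693 _)
             (CovZ.leaf K2_ok TB_l22694 _)))
           (CovZ.n1 (-17280, 22176) (by decide +kernel)
            (CovZ.leaf K2_ok TB_l22695 _)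
            (CovZ.leaf K2_ok TB_l22696 _)))
          (CovZ.n1 (-17184, 21984) (by decide +kernel)
           (CovZ.n2 (-17280, 21984) (by decide +kernel)
            (CovZ.leaf K2_ok TB_l22697 _)
            (CovZ.leaf K2_ok TB_l22698 _))
           (CovZ.n1 (-17184, 22080) (by decide +kernel)
            (CovZ.n2 (-17136, 22032) (by decide +kernel)
             (CovZ.leaf K2_ok TB_l22699 _)
             (CovZ.leaf K2_ok TB_l22700 _))
            (CovZ.leaf K2_ok TB_l22701 _))))
         (CovZ.n1 (-17088, 22272) (by decide +kernel)
          (CovZ.n2 (-16992, 22176) (by decide +kernel)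
           (CovZ.n2 (-17088, 22176) (by decide +kernel)
            (CovZ.n2 (-17040, 22224) (by decide +kernel)
             (CovZ.leaf K2_ok TB_l22702 _)
             (CovZ.leaf K2_ok TB_l22703 _))
            (CovZ.n1 (-17040, 22128) (by decide +kernel)
             (CovZ.leaf K2_ok TB_l22704 _)
             (CovZ.leaf K2_ok TB_l22705 _)))
           (CovZ.n1 (-16992, 22272) (by decide +kernel)
            (CovZ.n2 (-16944, 22224) (by decide +kernel)
             (CovZ.leaf K2_ok TB_l22706 _)
             (CovZ.n1 (-16944, 22272) (by decide +kernel)
              (CovZ.leaf K2_ok TB_l22707 _)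
              (CovZ.leaf K2_ok TB_l22708 _)))
            (CovZ.n1 (-17040, 22224) (by decide +kernel)
             (CovZ.leaf K2_ok TB_l22709 _)
             (CovZ.leaf K2_ok TB_l22710 _))))
          (CovZ.n1 (-17184, 22176) (by decide +kernel)
           (CovZ.n2 (-17184, 22272) (by decide +kernel)
            (CovZ.n2 (-17136, 22224) (by decide +kernel)
             (CovZ.leaf K2_ok TB_l22711 _)
             (CovZ.leaf K2_ok TB_l22712 _))
            (CovZ.leaf K2_ok TB_l22713 _))
           (CovZ.n1 (-17088, 22176) (by decide +kernel)
            (CovZ.n2 (-17136, 22128) (by decide +kernel)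
             (CovZ.leaf K2_ok TB_l22714 _)
             (CovZ.leaf K2_ok TB_l22715 _))
            (CovZ.n1 (-17136, 22224) (by decide +kernel)
             (CovZ.leaf K2_ok TB_l22716 _)
             (CovZ.leaf K2_ok TB_l22717 _))))))
        (CovZ.n1 (-17472, 22080) (by decide +kernel)
         (CovZ.n2 (-17472, 22272) (by decide +kernel)
          (CovZ.n2 (-17376, 22176) (by decide +kernel)
           (CovZ.n2 (-17472, 22176) (by decide +kernel)
            (CovZ.leaf K2_ok TB_l22718 _)
            (CovZ.leaf K2_ok TB_l22719 _))
           (CovZ.n1 (-17376, 22272) (by decide +kernel)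
            (CovZ.leaf K2_ok TB_l22720 _)
            (CovZ.leaf K2_ok TB_l22721 _)))
          (CovZ.n1 (-17568, 22176) (by decide +kernel)
           (CovZ.n2 (-17568, 22272) (by decide +kernel)
            (CovZ.leaf K2_ok TB_l22722 _)
            (CovZ.leaf K2_ok TB_l22723 _))
           (CovZ.leaf K2_ok TB_l22724 _)))
         (CovZ.n1 (-17280, 22080) (by decide +kernel)
          (CovZ.n2 (-17376, 21984) (by decide +kernel)
           (CovZ.n2 (-17376, 22080) (by decide +kernel)
            (CovZ.leaf K2_ok TB_l22725 _)
            (CovZ.leaf K2_ok TB_l22726 _))
           (CovZ.n1 (-17280, 21984) (by decide +kernel)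
            (CovZ.leaf K2_ok TB_l22727 _)
            (CovZ.leaf K2_ok TB_l22728 _)))
          (CovZ.n1 (-17376, 22176) (by decide +kernel)
           (CovZ.n2 (-17280, 22176) (by decide +kernel)
            (CovZ.leaf K2_ok TB_l22729 _)
            (CovZ.leaf K2_ok TB_l22730 _))
           (CovZ.n1 (-17376, 22080) (by decide +kernel)
            (CovZ.leaf K2_ok TB_l22731 _)
            (CovZ.leaf K2_ok TB_l22732 _))))))
       (CovZ.n1 (-16896, 21888) (by decide +kernel)
        (CovZ.n2 (-17088, 21696) (by decide +kernel)
         (CovZ.n2 (-17088, 21888) (by decide +kernel)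
          (CovZ.n2 (-16992, 21792) (by decide +kernel)
           (CovZ.n2 (-17088, 21792) (by decide +kernel)
            (CovZ.n2 (-17040, 21840) (by decide +kernel)
             (CovZ.leaf K2_ok TB_l22733 _)
             (CovZ.leaf K2_ok TB_l22734 _))
            (CovZ.n1 (-17040, 21744) (by decide +kernel)
             (CovZ.leaf K2_ok TB_l22735 _)
             (CovZ.leaf K2_ok TB_l22736 _)))
           (CovZ.n1 (-16992, 21888) (by decide +kernel)
            (CovZ.n2 (-16944, 21840) (by decide +kernel)
             (CovZ.leaf K2_ok TB_l22737 _)
             (CovZ.n1 (-16944, 21888) (by decide +kernel)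
              (CovZ.leaf K2_ok TB_l22738 _)
              (CovZ.leaf K2_ok TB_l22739 _)))
            (CovZ.n1 (-17040, 21840) (by decide +kernel)
             (CovZ.leaf K2_ok TB_l22740 _)
             (CovZ.leaf K2_ok TB_l22741 _))))
          (CovZ.n1 (-17184, 21792) (by decide +kernel)
           (CovZ.n2 (-17184, 21888) (by decide +kernel)
            (CovZ.n2 (-17136, 21840) (by decide +kernel)
             (CovZ.leaf K2_ok TB_l22742 _)
             (CovZ.leaf K2_ok TB_l22743 _))
            (CovZ.leaf K2_ok TB_l22744 _))
           (CovZ.n1 (-17088, 21792) (by decide +kernel)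
            (CovZ.n2 (-17136, 21744) (by decide +kernel)
             (CovZ.leaf K2_ok TB_l22745 _)
             (CovZ.leaf K2_ok TB_l22746 _))
            (CovZ.n1 (-17136, 21840) (by decide +kernel)
             (CovZ.leaf K2_ok TB_l22747 _)
             (CovZ.leaf K2_ok TB_l22748 _)))))
         (CovZ.n1 (-16896, 21696) (by decide +kernel)
          (CovZ.n2 (-16992, 21600) (by decide +kernel)
           (CovZ.n2 (-16992, 21696) (by decide +kernel)
            (CovZ.n2 (-16944, 21648) (by decide +kernel)
             (CovZ.leaf K2_ok TB_l22749 _)
             (CovZ.n1 (-16944, 21696) (by decide +kernel)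
              (CovZ.leaf K2_ok TB_l22750 _)
              (CovZ.leaf K2_ok TB_l22751 _)))
            (CovZ.n1 (-17040, 21648) (by decide +kernel)
             (CovZ.leaf K2_ok TB_l22752 _)
             (CovZ.leaf K2_ok TB_l22753 _)))
           (CovZ.n1 (-16896, 21600) (by decide +kernel)
            (CovZ.n2 (-16944, 21552) (by decide +kernel)
             (CovZ.n2 (-16944, 21600) (by decide +kernel)
              (CovZ.leaf K2_ok TB_l22754 _)
              (CovZ.leaf K2_ok TB_l22755 _))
             (CovZ.leaf K2_ok TB_l22756 _))
            (CovZ.n1 (-16944, 21648) (by decide +kernel)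
             (CovZ.leaf K2_ok TB_l22757 _)
             (CovZ.n1 (-16944, 21600) (by decide +kernel)
              (CovZ.leaf K2_ok TB_l22758 _)
              (CovZ.leaf K2_ok TB_l22759 _)))))
          (CovZ.n1 (-16992, 21792) (by decide +kernel)
           (CovZ.n2 (-16896, 21792) (by decide +kernel)
            (CovZ.n2 (-16944, 21744) (by decide +kernel)
             (CovZ.n2 (-16944, 21792) (by decide +kernel)
              (CovZ.leaf K2_ok TB_l22760 _)
              (CovZ.leaf K2_ok TB_l22761 _))
             (CovZ.leaf K2_ok TB_l22762 _))
            (CovZ.n1 (-16944, 21840) (by decide +kernel)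
             (CovZ.leaf K2_ok TB_l22763 _)
             (CovZ.n1 (-16944, 21792) (by decide +kernel)
              (CovZ.leaf K2_ok TB_l22764 _)
              (CovZ.leaf K2_ok TB_l22765 _))))
           (CovZ.n1 (-16992, 21696) (by decide +kernel)
            (CovZ.n2 (-17040, 21744) (by decide +kernel)
             (CovZ.leaf K2_ok TB_l22766 _)
             (CovZ.leaf K2_ok TB_l22767 _))
            (CovZ.n1 (-16944, 21744) (by decide +kernel)
             (CovZ.n2 (-16944, 21696) (by decide +kernel)
              (CovZ.leaf K2_ok TB_l22768 _)
              (CovZ.leaf K2_ok TB_l22769 _))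
             (CovZ.leaf K2_ok TB_l22770 _))))))
        (CovZ.n1 (-17088, 22080) (by decide +kernel)
         (CovZ.n2 (-16896, 22080) (by decide +kernel)
          (CovZ.n2 (-16992, 21984) (by decide +kernel)
           (CovZ.n2 (-16992, 22080) (by decide +kernel)
            (CovZ.n2 (-16944, 22032) (by decide +kernel)
             (CovZ.leaf K2_ok TB_l22771 _)
             (CovZ.n1 (-16944, 22080) (by decide +kernel)
              (CovZ.leaf K2_ok TB_l22772 _)
              (CovZ.leaf K2_ok TB_l22773 _)))
            (CovZ.n1 (-17040, 22032) (by decide +kernel)
             (CovZ.leaf K2_ok TB_l22774 _)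
             (CovZ.leaf K2_ok TB_l22775 _)))
           (CovZ.n1 (-16896, 21984) (by decide +kernel)
            (CovZ.n2 (-16944, 21936) (by decide +kernel)
             (CovZ.n2 (-16944, 21984) (by decide +kernel)
              (CovZ.leaf K2_ok TB_l22776 _)
              (CovZ.leaf K2_ok TB_l22777 _))
             (CovZ.leaf K2_ok TB_l22778 _))
            (CovZ.n1 (-16944, 22032) (by decide +kernel)
             (CovZ.n2 (-16896, 22032) (by decide +kernel)
              (CovZ.leaf K2_ok TB_l22779 _)
              (CovZ.leaf K2_ok TB_l22780 _))
             (CovZ.n1 (-16944, 21984) (by decide +kernel)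
              (CovZ.leaf K2_ok TB_l22781 _)
              (CovZ.leaf K2_ok TB_l22782 _)))))
          (CovZ.n1 (-16992, 22176) (by decide +kernel)
           (CovZ.n2 (-16896, 22176) (by decide +kernel)
            (CovZ.n2 (-16944, 22128) (by decide +kernel)
             (CovZ.n2 (-16944, 22176) (by decide +kernel)
              (CovZ.leaf K2_ok TB_l22783 _)
              (CovZ.leaf K2_ok TB_l22784 _))
             (CovZ.leaf K2_ok TB_l22785 _))
            (CovZ.n1 (-16944, 22224) (by decide +kernel)
             (CovZ.leaf K2_ok TB_l22786 _)
             (CovZ.n1 (-16944, 22176) (by decide +kernel)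
              (CovZ.leaf K2_ok TB_l22787 _)
              (CovZ.leaf K2_ok TB_l22788 _))))
           (CovZ.n1 (-16992, 22080) (by decide +kernel)
            (CovZ.n2 (-17040, 22128) (by decide +kernel)
             (CovZ.leaf K2_ok TB_l22789 _)
             (CovZ.leaf K2_ok TB_l22790 _))
            (CovZ.n1 (-16944, 22128) (by decide +kernel)
             (CovZ.n2 (-16944, 22080) (by decide +kernel)
              (CovZ.leaf K2_ok TB_l22791 _)
              (CovZ.leaf K2_ok TB_l22792 _))
             (CovZ.leaf K2_ok TB_l22793 _)))))
         (CovZ.n1 (-17088, 21888) (by decide +kernel)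
          (CovZ.n2 (-17184, 21984) (by decide +kernel)
           (CovZ.n2 (-17088, 21984) (by decide +kernel)
            (CovZ.n2 (-17136, 21936) (by decide +kernel)
             (CovZ.leaf K2_ok TB_l22794 _)
             (CovZ.leaf K2_ok TB_l22795 _))
            (CovZ.n1 (-17136, 22032) (by decide +kernel)
             (CovZ.leaf K2_ok TB_l22796 _)
             (CovZ.leaf K2_ok TB_l22797 _)))
           (CovZ.n1 (-17184, 21888) (by decide +kernel)
            (CovZ.leaf K2_ok TB_l22798 _)
            (CovZ.n1 (-17136, 21936) (by decide +kernel)
             (CovZ.leaf K2_ok TB_l22799 _)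
             (CovZ.leaf K2_ok TB_l22800 _))))
          (CovZ.n1 (-16992, 21984) (by decide +kernel)
           (CovZ.n2 (-16992, 21888) (by decide +kernel)
            (CovZ.n2 (-17040, 21936) (by decide +kernel)
             (CovZ.leaf K2_ok TB_l22801 _)
             (CovZ.leaf K2_ok TB_l22802 _))
            (CovZ.n1 (-16944, 21936) (by decide +kernel)
             (CovZ.n2 (-16944, 21888) (by decide +kernel)
              (CovZ.leaf K2_ok TB_l22803 _)
              (CovZ.leaf K2_ok TB_l22804 _))
             (CovZ.leaf K2_ok TB_l22805 _)))
           (CovZ.n1 (-17088, 21984) (by decide +kernel)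
            (CovZ.n2 (-17040, 22032) (by decide +kernel)
             (CovZ.leaf K2_ok TB_l22806 _)
             (CovZ.leaf K2_ok TB_l22807 _))
            (CovZ.n1 (-17040, 21936) (by decide +kernel)
             (CovZ.leaf K2_ok TB_l22808 _)
             (CovZ.leaf K2_ok TB_l22809 _))))))))

theorem TB_u447 : CovZ TB_M (toL (selN TB_LN 2705521055355455878659051949986723365058408532166779289444489000774910446601698791673682973867173955608850235392)) [0, 7, 6, 1] (-16896, 22272) (-16896, 23040) (-17664, 22272) :=
    (CovZ.n1 (-17280, 22656) (by decide +kernel)
       (CovZ.n2 (-16896, 22656) (by decide +kernel)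
        (CovZ.n2 (-17088, 22464) (by decide +kernel)
         (CovZ.n2 (-17088, 22656) (by decide +kernel)
          (CovZ.n2 (-16992, 22560) (by decide +kernel)
           (CovZ.n2 (-17088, 22560) (by decide +kernel)
            (CovZ.n2 (-17040, 22608) (by decide +kernel)
             (CovZ.leaf K2_ok TB_l22810 _)
             (CovZ.leaf K2_ok TB_l22811 _))
            (CovZ.n1 (-17040, 22512) (by decide +kernel)
             (CovZ.leaf K2_ok TB_l22812 _)
             (CovZ.leaf K2_ok TB_l22813 _)))
           (CovZ.n1 (-16992, 22656) (by decide +kernel)
            (CovZ.n2 (-16944, 22608) (by decide +kernel)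
             (CovZ.leaf K2_ok TB_l22814 _)
             (CovZ.n1 (-16944, 22656) (by decide +kernel)
              (CovZ.leaf K2_ok TB_l22815 _)
              (CovZ.leaf K2_ok TB_l22816 _)))
            (CovZ.n1 (-17040, 22608) (by decide +kernel)
             (CovZ.leaf K2_ok TB_l22817 _)
             (CovZ.leaf K2_ok TB_l22818 _))))
          (CovZ.n1 (-17184, 22560) (by decide +kernel)
           (CovZ.n2 (-17184, 22656) (by decide +kernel)
            (CovZ.leaf K2_ok TB_l22819 _)
            (CovZ.leaf K2_ok TB_l22820 _))
           (CovZ.n1 (-17088, 22560) (by decide +kernel)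
            (CovZ.leaf K2_ok TB_l22821 _)
            (CovZ.leaf K2_ok TB_l22822 _))))
         (CovZ.n1 (-16896, 22464) (by decide +kernel)
          (CovZ.n2 (-16992, 22368) (by decide +kernel)
           (CovZ.n2 (-16992, 22464) (by decide +kernel)
            (CovZ.n2 (-16944, 22416) (by decide +kernel)
             (CovZ.leaf K2_ok TB_l22823 _)
             (CovZ.n1 (-16944, 22464) (by decide +kernel)
              (CovZ.leaf K2_ok TB_l22824 _)
              (CovZ.leaf K2_ok TB_l22825 _)))
            (CovZ.n1 (-17040, 22416) (by decide +kernel)
             (CovZ.leaf K2_ok TB_l22826 _)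
             (CovZ.leaf K2_ok TB_l22827 _)))
           (CovZ.n1 (-16896, 22368) (by decide +kernel)
            (CovZ.n2 (-16944, 22320) (by decide +kernel)
             (CovZ.n2 (-16944, 22368) (by decide +kernel)
              (CovZ.leaf K2_ok TB_l22828 _)
              (CovZ.leaf K2_ok TB_l22829 _))
             (CovZ.leaf K2_ok TB_l22830 _))
            (CovZ.n1 (-16944, 22416) (by decide +kernel)
             (CovZ.leaf K2_ok TB_l22831 _)
             (CovZ.n1 (-16944, 22368) (by decide +kernel)
              (CovZ.leaf K2_ok TB_l22832 _)
              (CovZ.leaf K2_ok TB_l22833 _)))))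
          (CovZ.n1 (-16992, 22560) (by decide +kernel)
           (CovZ.n2 (-16896, 22560) (by decide +kernel)
            (CovZ.n2 (-16944, 22512) (by decide +kernel)
             (CovZ.n2 (-16944, 22560) (by decide +kernel)
              (CovZ.leaf K2_ok TB_l22834 _)
              (CovZ.leaf K2_ok TB_l22835 _))
             (CovZ.leaf K2_ok TB_l22836 _))
            (CovZ.n1 (-16944, 22608) (by decide +kernel)
             (CovZ.leaf K2_ok TB_l22837 _)
             (CovZ.leaf K2_ok TB_l22838 _)))
           (CovZ.n1 (-16992, 22464) (by decide +kernel)
            (CovZ.n2 (-17040, 22512) (by decide +kernel)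
             (CovZ.leaf K2_ok TB_l22839 _)
             (CovZ.leaf K2_ok TB_l22840 _))
            (CovZ.n1 (-16944, 22512) (by decide +kernel)
             (CovZ.leaf K2_ok TB_l22841 _)
             (CovZ.leaf K2_ok TB_l22842 _))))))
        (CovZ.n1 (-17088, 22848) (by decide +kernel)
         (CovZ.n2 (-16896, 22848) (by decide +kernel)
          (CovZ.n2 (-16992, 22752) (by decide +kernel)
           (CovZ.n2 (-16992, 22848) (by decide +kernel)
            (CovZ.n2 (-16944, 22800) (by decide +kernel)
             (CovZ.leaf K2_ok TB_l22843 _)
             (CovZ.leaf K2_ok TB_l22844 _))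
            (CovZ.n1 (-17040, 22800) (by decide +kernel)
             (CovZ.leaf K2_ok TB_l22845 _)
             (CovZ.leaf K2_ok TB_l22846 _)))
           (CovZ.n1 (-16896, 22752) (by decide +kernel)
            (CovZ.n2 (-16944, 22704) (by decide +kernel)
             (CovZ.n2 (-16944, 22752) (by decide +kernel)
              (CovZ.leaf K2_ok TB_l22847 _)
              (CovZ.leaf K2_ok TB_l22848 _))
             (CovZ.leaf K2_ok TB_l22849 _))
            (CovZ.n1 (-16944, 22800) (by decide +kernel)
             (CovZ.leaf K2_ok TB_l22850 _)
             (CovZ.leaf K2_ok TB_l22851 _))))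
          (CovZ.n1 (-16992, 22944) (by decide +kernel)
           (CovZ.n2 (-16896, 22944) (by decide +kernel)
            (CovZ.n2 (-16944, 22896) (by decide +kernel)
             (CovZ.leaf K2_ok TB_l22852 _)
             (CovZ.leaf K2_ok TB_l22853 _))
            (CovZ.n1 (-16944, 22992) (by decide +kernel)
             (CovZ.leaf K2_ok TB_l22854 _)
             (CovZ.leaf K2_ok TB_l22855 _)))
           (CovZ.n1 (-16992, 22848) (by decide +kernel)
            (CovZ.n2 (-17040, 22896) (by decide +kernel)
             (CovZ.leaf K2_ok TB_l22856 _)
             (CovZ.leaf K2_ok TB_l22857 _))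
            (CovZ.n1 (-16944, 22896) (by decide +kernel)
             (CovZ.leaf K2_ok TB_l22858 _)
             (CovZ.leaf K2_ok TB_l22859 _)))))
         (CovZ.n1 (-17088, 22656) (by decide +kernel)
          (CovZ.n2 (-17184, 22752) (by decide +kernel)
           (CovZ.n2 (-17088, 22752) (by decide +kernel)
            (CovZ.leaf K2_ok TB_l22860 _)
            (CovZ.leaf K2_ok TB_l22861 _))
           (CovZ.n1 (-17184, 22656) (by decide +kernel)
            (CovZ.leaf K2_ok TB_l22862 _)
            (CovZ.leaf K2_ok TB_l22863 _)))
          (CovZ.n1 (-16992, 22752) (by decide +kernel)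
           (CovZ.n2 (-16992, 22656) (by decide +kernel)
            (CovZ.n2 (-17040, 22704) (by decide +kernel)
             (CovZ.leaf K2_ok TB_l22864 _)
             (CovZ.leaf K2_ok TB_l22865 _))
            (CovZ.n1 (-16944, 22704) (by decide +kernel)
             (CovZ.leaf K2_ok TB_l22866 _)
             (CovZ.leaf K2_ok TB_l22867 _)))
           (CovZ.n1 (-17088, 22752) (by decide +kernel)
            (CovZ.n2 (-17040, 22800) (by decide +kernel)
             (CovZ.leaf K2_ok TB_l22868 _)
             (CovZ.leaf K2_ok TB_l22869 _))
            (CovZ.n1 (-17040, 22704) (by decide +kernel)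
             (CovZ.leaf K2_ok TB_l22870 _)
             (CovZ.leaf K2_ok TB_l22871 _)))))))
       (CovZ.n1 (-17280, 22272) (by decide +kernel)
        (CovZ.n2 (-17472, 22464) (by decide +kernel)
         (CovZ.n2 (-17280, 22464) (by decide +kernel)
          (CovZ.n2 (-17376, 22368) (by decide +kernel)
           (CovZ.n2 (-17376, 22464) (by decide +kernel)
            (CovZ.leaf K2_ok TB_l22872 _)
            (CovZ.leaf K2_ok TB_l22873 _))
           (CovZ.n1 (-17280, 22368) (by decide +kernel)
            (CovZ.leaf K2_ok TB_l22874 _)
            (CovZ.leaf K2_ok TB_l22875 _)))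
          (CovZ.n1 (-17376, 22560) (by decide +kernel)
           (CovZ.n2 (-17280, 22560) (by decide +kernel)
            (CovZ.leaf K2_ok TB_l22876 _)
            (CovZ.leaf K2_ok TB_l22877 _))
           (CovZ.n1 (-17376, 22464) (by decide +kernel)
            (CovZ.leaf K2_ok TB_l22878 _)
            (CovZ.leaf K2_ok TB_l22879 _))))
         (CovZ.n1 (-17472, 22272) (by decide +kernel)
          (CovZ.n2 (-17568, 22368) (by decide +kernel)
           (CovZ.leaf K2_ok TB_l22880 _)
           (CovZ.n1 (-17568, 22272) (by decide +kernel)
            (CovZ.leaf K2_ok TB_l22881 _)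
            (CovZ.leaf K2_ok TB_l22882 _)))
          (CovZ.n1 (-17376, 22368) (by decide +kernel)
           (CovZ.n2 (-17376, 22272) (by decide +kernel)
            (CovZ.leaf K2_ok TB_l22883 _)
            (CovZ.leaf K2_ok TB_l22884 _))
           (CovZ.n1 (-17472, 22368) (by decide +kernel)
            (CovZ.leaf K2_ok TB_l22885 _)
            (CovZ.leaf K2_ok TB_l22886 _)))))
        (CovZ.n1 (-17088, 22464) (by decide +kernel)
         (CovZ.n2 (-17088, 22272) (by decide +kernel)
          (CovZ.n2 (-17184, 22368) (by decide +kernel)
           (CovZ.n2 (-17088, 22368) (by decide +kernel)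
            (CovZ.n2 (-17136, 22320) (by decide +kernel)
             (CovZ.leaf K2_ok TB_l22887 _)
             (CovZ.leaf K2_ok TB_l22888 _))
            (CovZ.n1 (-17136, 22416) (by decide +kernel)
             (CovZ.leaf K2_ok TB_l22889 _)
             (CovZ.leaf K2_ok TB_l22890 _)))
           (CovZ.n1 (-17184, 22272) (by decide +kernel)
            (CovZ.leaf K2_ok TB_l22891 _)
            (CovZ.n1 (-17136, 22320) (by decide +kernel)
             (CovZ.leaf K2_ok TB_l22892 _)
             (CovZ.leaf K2_ok TB_l22893 _))))
          (CovZ.n1 (-16992, 22368) (by decide +kernel)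
           (CovZ.n2 (-16992, 22272) (by decide +kernel)
            (CovZ.n2 (-17040, 22320) (by decide +kernel)
             (CovZ.leaf K2_ok TB_l22894 _)
             (CovZ.leaf K2_ok TB_l22895 _))
            (CovZ.n1 (-16944, 22320) (by decide +kernel)
             (CovZ.n2 (-16944, 22272) (by decide +kernel)
              (CovZ.leaf K2_ok TB_l22896 _)
              (CovZ.leaf K2_ok TB_l22897 _))
             (CovZ.leaf K2_ok TB_l22898 _)))
           (CovZ.n1 (-17088, 22368) (by decide +kernel)
            (CovZ.n2 (-17040, 22416) (by decide +kernel)
             (CovZ.leaf K2_ok TB_l22899 _)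
             (CovZ.leaf K2_ok TB_l22900 _))
            (CovZ.n1 (-17040, 22320) (by decide +kernel)
             (CovZ.leaf K2_ok TB_l22901 _)
             (CovZ.leaf K2_ok TB_l22902 _)))))
         (CovZ.n1 (-17280, 22464) (by decide +kernel)
          (CovZ.n2 (-17184, 22560) (by decide +kernel)
           (CovZ.n2 (-17184, 22464) (by decide +kernel)
            (CovZ.leaf K2_ok TB_l22903 _)
            (CovZ.leaf K2_ok TB_l22904 _))
           (CovZ.n1 (-17280, 22560) (by decide +kernel)
            (CovZ.leaf K2_ok TB_l22905 _)
            (CovZ.leaf K2_ok TB_l22906 _)))
          (CovZ.n1 (-17184, 22368) (by decide +kernel)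
           (CovZ.n2 (-17280, 22368) (by decide +kernel)
            (CovZ.leaf K2_ok TB_l22907 _)
            (CovZ.leaf K2_ok TB_l22908 _))
           (CovZ.n1 (-17184, 22464) (by decide +kernel)
            (CovZ.leaf K2_ok TB_l22909 _)
            (CovZ.leaf K2_ok TB_l22910 _)))))))

theorem TB_u448 : CovZ TB_M (toL (selN TB_LN 2404907604760405225489198433597688225553879454140326177663739961160771007141970865673587213189260369880493883392)) [0, 7, 6, 1] (-16896, 21504) (-16128, 22272) (-16896, 23040) :=
    (CovZ.n2 (-16896, 22272) (by decide +kernel)
     (CovZ.subM 2404907604760405225489198433597688225553879454140319749911559932043601961758072039936110578444927228591858548736 (by decide +kernel)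
      (CovZ.n2 (-16512, 22656) (by decide +kernel)
       (CovZ.n2 (-16512, 22272) (by decide +kernel)
        (CovZ.n2 (-16704, 22464) (by decide +kernel)
         (CovZ.badM (by decide +kernel))
         (CovZ.n1 (-16704, 22272) (by decide +kernel)
          (CovZ.n2 (-16800, 22368) (by decide +kernel)
           (CovZ.badM (by decide +kernel))
           (CovZ.n1 (-16800, 22272) (by decide +kernel)
            (CovZ.n2 (-16848, 22320) (by decide +kernel)
             (CovZ.badM (by decide +kernel))
             (CovZ.n1 (-16848, 22272) (by decide +kernel)
              (CovZ.leaf K2_ok TB_l29912 _)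
              (CovZ.badM (by decide +kernel))))
            (CovZ.badM (by decide +kernel))))
          (CovZ.badM (by decide +kernel))))
        (CovZ.badM (by decide +kernel)))
       (CovZ.n1 (-16896, 22656) (by decide +kernel)
        (CovZ.n2 (-16704, 22848) (by decide +kernel)
         (CovZ.n2 (-16704, 22656) (by decide +kernel)
          (CovZ.n2 (-16800, 22752) (by decide +kernel)
           (CovZ.badM (by decide +kernel))
           (CovZ.n1 (-16800, 22656) (by decide +kernel)
            (CovZ.n2 (-16848, 22704) (by decide +kernel)
             (CovZ.badM (by decide +kernel))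
             (CovZ.n1 (-16848, 22656) (by decide +kernel)
              (CovZ.leaf K2_ok TB_l29955 _)
              (CovZ.badM (by decide +kernel))))
            (CovZ.badM (by decide +kernel))))
          (CovZ.badM (by decide +kernel)))
         (CovZ.n1 (-16896, 22848) (by decide +kernel)
          (CovZ.n2 (-16800, 22944) (by decide +kernel)
           (CovZ.n2 (-16800, 22848) (by decide +kernel)
            (CovZ.n2 (-16848, 22896) (by decide +kernel)
             (CovZ.badM (by decide +kernel))
             (CovZ.n1 (-16848, 22848) (by decide +kernel)
              (CovZ.leaf K2_ok TB_l29983 _)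
              (CovZ.badM (by decide +kernel))))
            (CovZ.badM (by decide +kernel)))
           (CovZ.n1 (-16896, 22944) (by decide +kernel)
            (CovZ.n2 (-16848, 22992) (by decide +kernel)
             (CovZ.n2 (-16848, 22944) (by decide +kernel)
              (CovZ.leaf K2_ok TB_l29989 _)
              (CovZ.badM (by decide +kernel)))
             (CovZ.leaf K2_ok TB_l29991 _))
            (CovZ.n1 (-16848, 22896) (by decide +kernel)
             (CovZ.leaf K2_ok TB_l29992 _)
             (CovZ.n1 (-16848, 22944) (by decide +kernel)
              (CovZ.badM (by decide +kernel))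
              (CovZ.leaf K2_ok TB_l29994 _)))))
          (CovZ.n1 (-16800, 22752) (by decide +kernel)
           (CovZ.n2 (-16896, 22752) (by decide +kernel)
            (CovZ.n2 (-16848, 22800) (by decide +kernel)
             (CovZ.n2 (-16848, 22752) (by decide +kernel)
              (CovZ.leaf K2_ok TB_l29995 _)
              (CovZ.badM (by decide +kernel)))
             (CovZ.leaf K2_ok TB_l29997 _))
            (CovZ.n1 (-16848, 22704) (by decide +kernel)
             (CovZ.leaf K2_ok TB_l29998 _)
             (CovZ.n1 (-16848, 22752) (by decide +kernel)
              (CovZ.badM (by decide +kernel))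
              (CovZ.leaf K2_ok TB_l30000 _))))
           (CovZ.n1 (-16800, 22848) (by decide +kernel)
            (CovZ.badM (by decide +kernel))
            (CovZ.n1 (-16848, 22800) (by decide +kernel)
             (CovZ.n2 (-16848, 22848) (by decide +kernel)
              (CovZ.badM (by decide +kernel))
              (CovZ.leaf K2_ok TB_l30006 _))
             (CovZ.badM (by decide +kernel)))))))
        (CovZ.n1 (-16704, 22464) (by decide +kernel)
         (CovZ.n2 (-16896, 22464) (by decide +kernel)
          (CovZ.n2 (-16800, 22560) (by decide +kernel)
           (CovZ.n2 (-16800, 22464) (by decide +kernel)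
            (CovZ.n2 (-16848, 22512) (by decide +kernel)
             (CovZ.badM (by decide +kernel))
             (CovZ.n1 (-16848, 22464) (by decide +kernel)
              (CovZ.leaf K2_ok TB_l30011 _)
              (CovZ.badM (by decide +kernel))))
            (CovZ.badM (by decide +kernel)))
           (CovZ.n1 (-16896, 22560) (by decide +kernel)
            (CovZ.n2 (-16848, 22608) (by decide +kernel)
             (CovZ.n2 (-16848, 22560) (by decide +kernel)
              (CovZ.leaf K2_ok TB_l30018 _)
              (CovZ.badM (by decide +kernel)))
             (CovZ.leaf K2_ok TB_l30020 _))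
            (CovZ.n1 (-16848, 22512) (by decide +kernel)
             (CovZ.n2 (-16896, 22512) (by decide +kernel)
              (CovZ.leaf K2_ok TB_l30021 _)
              (CovZ.leaf K2_ok TB_l30022 _))
             (CovZ.n1 (-16848, 22560) (by decide +kernel)
              (CovZ.badM (by decide +kernel))
              (CovZ.leaf K2_ok TB_l30024 _)))))
          (CovZ.n1 (-16800, 22368) (by decide +kernel)
           (CovZ.n2 (-16896, 22368) (by decide +kernel)
            (CovZ.n2 (-16848, 22416) (by decide +kernel)
             (CovZ.n2 (-16848, 22368) (by decide +kernel)
              (CovZ.leaf K2_ok TB_l30025 _)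
              (CovZ.badM (by decide +kernel)))
             (CovZ.leaf K2_ok TB_l30027 _))
            (CovZ.n1 (-16848, 22320) (by decide +kernel)
             (CovZ.leaf K2_ok TB_l30028 _)
             (CovZ.n1 (-16848, 22368) (by decide +kernel)
              (CovZ.badM (by decide +kernel))
              (CovZ.leaf K2_ok TB_l30030 _))))
           (CovZ.n1 (-16800, 22464) (by decide +kernel)
            (CovZ.badM (by decide +kernel))
            (CovZ.n1 (-16848, 22416) (by decide +kernel)
             (CovZ.n2 (-16848, 22464) (by decide +kernel)
              (CovZ.badM (by decide +kernel))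
              (CovZ.leaf K2_ok TB_l30036 _))
             (CovZ.badM (by decide +kernel))))))
         (CovZ.n1 (-16704, 22656) (by decide +kernel)
          (CovZ.badM (by decide +kernel))
          (CovZ.n1 (-16800, 22560) (by decide +kernel)
           (CovZ.n2 (-16800, 22656) (by decide +kernel)
            (CovZ.badM (by decide +kernel))
            (CovZ.n1 (-16848, 22608) (by decide +kernel)
             (CovZ.n2 (-16848, 22656) (by decide +kernel)
              (CovZ.badM (by decide +kernel))
              (CovZ.leaf K2_ok TB_l30067 _))
             (CovZ.badM (by decide +kernel))))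
           (CovZ.badM (by decide +kernel))))))))
     (CovZ.n1 (-16512, 21888) (by decide +kernel)
      (CovZ.subM 2404907604760405225489198433597688225553879454140319749911559932043601961758072039936110578444927228591858548736 (by decide +kernel)
       (CovZ.n2 (-16896, 21888) (by decide +kernel)
        (CovZ.n2 (-16704, 22080) (by decide +kernel)
         (CovZ.n2 (-16704, 21888) (by decide +kernel)
          (CovZ.n2 (-16800, 21984) (by decide +kernel)
           (CovZ.badM (by decide +kernel))
           (CovZ.n1 (-16800, 21888) (by decide +kernel)
            (CovZ.n2 (-16848, 21936) (by decide +kernel)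
             (CovZ.badM (by decide +kernel))
             (CovZ.n1 (-16848, 21888) (by decide +kernel)
              (CovZ.leaf K2_ok TB_l30096 _)
              (CovZ.badM (by decide +kernel))))
            (CovZ.badM (by decide +kernel))))
          (CovZ.badM (by decide +kernel)))
         (CovZ.n1 (-16896, 22080) (by decide +kernel)
          (CovZ.n2 (-16800, 22176) (by decide +kernel)
           (CovZ.n2 (-16800, 22080) (by decide +kernel)
            (CovZ.n2 (-16848, 22128) (by decide +kernel)
             (CovZ.badM (by decide +kernel))
             (CovZ.n1 (-16848, 22080) (by decide +kernel)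
              (CovZ.leaf K2_ok TB_l30127 _)
              (CovZ.badM (by decide +kernel))))
            (CovZ.badM (by decide +kernel)))
           (CovZ.n1 (-16896, 22176) (by decide +kernel)
            (CovZ.n2 (-16848, 22224) (by decide +kernel)
             (CovZ.n2 (-16848, 22176) (by decide +kernel)
              (CovZ.leaf K2_ok TB_l30134 _)
              (CovZ.badM (by decide +kernel)))
             (CovZ.leaf K2_ok TB_l30136 _))
            (CovZ.n1 (-16848, 22128) (by decide +kernel)
             (CovZ.leaf K2_ok TB_l30137 _)
             (CovZ.n1 (-16848, 22176) (by decide +kernel)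
              (CovZ.badM (by decide +kernel))
              (CovZ.leaf K2_ok TB_l30139 _)))))
          (CovZ.n1 (-16800, 21984) (by decide +kernel)
           (CovZ.n2 (-16896, 21984) (by decide +kernel)
            (CovZ.n2 (-16848, 22032) (by decide +kernel)
             (CovZ.n2 (-16848, 21984) (by decide +kernel)
              (CovZ.leaf K2_ok TB_l30140 _)
              (CovZ.badM (by decide +kernel)))
             (CovZ.leaf K2_ok TB_l30142 _))
            (CovZ.n1 (-16848, 21936) (by decide +kernel)
             (CovZ.leaf K2_ok TB_l30143 _)
             (CovZ.n1 (-16848, 21984) (by decide +kernel)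
              (CovZ.badM (by decide +kernel))
              (CovZ.leaf K2_ok TB_l30145 _))))
           (CovZ.n1 (-16800, 22080) (by decide +kernel)
            (CovZ.badM (by decide +kernel))
            (CovZ.n1 (-16848, 22032) (by decide +kernel)
             (CovZ.n2 (-16848, 22080) (by decide +kernel)
              (CovZ.badM (by decide +kernel))
              (CovZ.leaf K2_ok TB_l30153 _))
             (CovZ.badM (by decide +kernel)))))))
        (CovZ.n1 (-16704, 21696) (by decide +kernel)
         (CovZ.n2 (-16896, 21696) (by decide +kernel)
          (CovZ.n2 (-16800, 21792) (by decide +kernel)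
           (CovZ.n2 (-16800, 21696) (by decide +kernel)
            (CovZ.n2 (-16848, 21744) (by decide +kernel)
             (CovZ.badM (by decide +kernel))
             (CovZ.n1 (-16848, 21696) (by decide +kernel)
              (CovZ.leaf K2_ok TB_l30158 _)
              (CovZ.badM (by decide +kernel))))
            (CovZ.badM (by decide +kernel)))
           (CovZ.n1 (-16896, 21792) (by decide +kernel)
            (CovZ.n2 (-16848, 21840) (by decide +kernel)
             (CovZ.n2 (-16848, 21792) (by decide +kernel)
              (CovZ.leaf K2_ok TB_l30166 _)
              (CovZ.badM (by decide +kernel)))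
             (CovZ.leaf K2_ok TB_l30168 _))
            (CovZ.n1 (-16848, 21744) (by decide +kernel)
             (CovZ.leaf K2_ok TB_l30169 _)
             (CovZ.n1 (-16848, 21792) (by decide +kernel)
              (CovZ.badM (by decide +kernel))
              (CovZ.leaf K2_ok TB_l30171 _)))))
          (CovZ.n1 (-16800, 21600) (by decide +kernel)
           (CovZ.n2 (-16896, 21600) (by decide +kernel)
            (CovZ.n2 (-16848, 21648) (by decide +kernel)
             (CovZ.n2 (-16848, 21600) (by decide +kernel)
              (CovZ.leaf K2_ok TB_l30172 _)
              (CovZ.badM (by decide +kernel)))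
             (CovZ.n1 (-16896, 21648) (by decide +kernel)
              (CovZ.leaf K2_ok TB_l30174 _)
              (CovZ.leaf K2_ok TB_l30175 _)))
            (CovZ.n1 (-16848, 21552) (by decide +kernel)
             (CovZ.n2 (-16896, 21552) (by decide +kernel)
              (CovZ.leaf K2_ok TB_l30176 _)
              (CovZ.leaf K2_ok TB_l30177 _))
             (CovZ.n1 (-16848, 21600) (by decide +kernel)
              (CovZ.badM (by decide +kernel))
              (CovZ.leaf K2_ok TB_l30179 _))))
           (CovZ.n1 (-16800, 21696) (by decide +kernel)
            (CovZ.badM (by decide +kernel))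
            (CovZ.n1 (-16848, 21648) (by decide +kernel)
             (CovZ.n2 (-16848, 21696) (by decide +kernel)
              (CovZ.badM (by decide +kernel))
              (CovZ.leaf K2_ok TB_l30186 _))
             (CovZ.badM (by decide +kernel))))))
         (CovZ.n1 (-16704, 21888) (by decide +kernel)
          (CovZ.badM (by decide +kernel))
          (CovZ.n1 (-16800, 21792) (by decide +kernel)
           (CovZ.n2 (-16800, 21888) (by decide +kernel)
            (CovZ.badM (by decide +kernel))
            (CovZ.n1 (-16848, 21840) (by decide +kernel)
             (CovZ.n2 (-16848, 21888) (by decide +kernel)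
              (CovZ.badM (by decide +kernel))
              (CovZ.leaf K2_ok TB_l30218 _))
             (CovZ.badM (by decide +kernel))))
           (CovZ.badM (by decide +kernel)))))))
      (CovZ.subM 2404907604760405225489198433597688225553879454140319749911559932043601961758072039936110578444927228591858548736 (by decide +kernel)
       (CovZ.n1 (-16512, 22272) (by decide +kernel)
        (CovZ.badM (by decide +kernel))
        (CovZ.n1 (-16704, 22080) (by decide +kernel)
         (CovZ.n2 (-16704, 22272) (by decide +kernel)
          (CovZ.badM (by decide +kernel))
          (CovZ.n1 (-16800, 22176) (by decide +kernel)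
           (CovZ.n2 (-16800, 22272) (by decide +kernel)
            (CovZ.badM (by decide +kernel))
            (CovZ.n1 (-16848, 22224) (by decide +kernel)
             (CovZ.n2 (-16848, 22272) (by decide +kernel)
              (CovZ.badM (by decide +kernel))
              (CovZ.leaf K2_ok TB_l30260 _))
             (CovZ.badM (by decide +kernel))))
           (CovZ.badM (by decide +kernel))))
         (CovZ.badM (by decide +kernel)))))))

theorem TB_u449 : CovZ TB_M (toL (selN TB_LN 2404907604760405225489198433597688225554321165906514345993955756418787691387028910910329483184457630142181703680)) [0, 7, 6, 1] (-16896, 23040) (-16896, 23808) (-17664, 23808) :=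
    (CovZ.n2 (-17280, 23424) (by decide +kernel)
       (CovZ.n2 (-17280, 23808) (by decide +kernel)
        (CovZ.n2 (-17088, 23616) (by decide +kernel)
         (CovZ.n2 (-17280, 23616) (by decide +kernel)
          (CovZ.n2 (-17184, 23712) (by decide +kernel)
           (CovZ.n2 (-17184, 23616) (by decide +kernel)
            (CovZ.leaf K2_ok TB_l23118 _)
            (CovZ.leaf K2_ok TB_l23119 _))
           (CovZ.n1 (-17280, 23712) (by decide +kernel)
            (CovZ.leaf K2_ok TB_l23120 _)
            (CovZ.leaf K2_ok TB_l23121 _)))
          (CovZ.n1 (-17184, 23520) (by decide +kernel)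
           (CovZ.n2 (-17280, 23520) (by decide +kernel)
            (CovZ.leaf K2_ok TB_l23122 _)
            (CovZ.leaf K2_ok TB_l23123 _))
           (CovZ.n1 (-17184, 23616) (by decide +kernel)
            (CovZ.leaf K2_ok TB_l23124 _)
            (CovZ.leaf K2_ok TB_l23125 _))))
         (CovZ.n1 (-17088, 23808) (by decide +kernel)
          (CovZ.n2 (-16992, 23712) (by decide +kernel)
           (CovZ.n2 (-17088, 23712) (by decide +kernel)
            (CovZ.leaf K2_ok TB_l23126 _)
            (CovZ.leaf K2_ok TB_l23127 _))
           (CovZ.n1 (-16992, 23808) (by decide +kernel)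
            (CovZ.n2 (-16944, 23760) (by decide +kernel)
             (CovZ.leaf K2_ok TB_l23128 _)
             (CovZ.leaf K2_ok TB_l23129 _))
            (CovZ.leaf K2_ok TB_l23130 _)))
          (CovZ.n1 (-17184, 23712) (by decide +kernel)
           (CovZ.n2 (-17184, 23808) (by decide +kernel)
            (CovZ.leaf K2_ok TB_l23131 _)
            (CovZ.leaf K2_ok TB_l23132 _))
           (CovZ.n1 (-17088, 23712) (by decide +kernel)
            (CovZ.leaf K2_ok TB_l23133 _)
            (CovZ.leaf K2_ok TB_l23134 _)))))
        (CovZ.n1 (-17472, 23616) (by decide +kernel)
         (CovZ.n2 (-17472, 23808) (by decide +kernel)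
          (CovZ.n2 (-17376, 23712) (by decide +kernel)
           (CovZ.leaf K2_ok TB_l23135 _)
           (CovZ.n1 (-17376, 23808) (by decide +kernel)
            (CovZ.leaf K2_ok TB_l23136 _)
            (CovZ.leaf K2_ok TB_l23137 _)))
          (CovZ.n1 (-17568, 23712) (by decide +kernel)
           (CovZ.leaf K2_ok TB_l23138 _)
           (CovZ.leaf K2_ok TB_l23139 _)))
         (CovZ.n1 (-17280, 23616) (by decide +kernel)
          (CovZ.n2 (-17376, 23520) (by decide +kernel)
           (CovZ.n2 (-17376, 23616) (by decide +kernel)
            (CovZ.leaf K2_ok TB_l23140 _)
            (CovZ.leaf K2_ok TB_l23141 _))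
           (CovZ.n1 (-17280, 23520) (by decide +kernel)
            (CovZ.leaf K2_ok TB_l23142 _)
            (CovZ.leaf K2_ok TB_l23143 _)))
          (CovZ.n1 (-17376, 23712) (by decide +kernel)
           (CovZ.n2 (-17280, 23712) (by decide +kernel)
            (CovZ.leaf K2_ok TB_l23144 _)
            (CovZ.leaf K2_ok TB_l23145 _))
           (CovZ.n1 (-17376, 23616) (by decide +kernel)
            (CovZ.leaf K2_ok TB_l23146 _)
            (CovZ.leaf K2_ok TB_l23147 _))))))
       (CovZ.n1 (-16896, 23424) (by decide +kernel)
        (CovZ.n2 (-17088, 23232) (by decide +kernel)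
         (CovZ.n2 (-17088, 23424) (by decide +kernel)
          (CovZ.n2 (-16992, 23328) (by decide +kernel)
           (CovZ.n2 (-17088, 23328) (by decide +kernel)
            (CovZ.leaf K2_ok TB_l23148 _)
            (CovZ.leaf K2_ok TB_l23149 _))
           (CovZ.n1 (-16992, 23424) (by decide +kernel)
            (CovZ.n2 (-16944, 23376) (by decide +kernel)
             (CovZ.leaf K2_ok TB_l23150 _)
             (CovZ.leaf K2_ok TB_l23151 _))
            (CovZ.leaf K2_ok TB_l23152 _)))
          (CovZ.n1 (-17184, 23328) (by decide +kernel)
           (CovZ.n2 (-17184, 23424) (by decide +kernel)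
            (CovZ.leaf K2_ok TB_l23153 _)
            (CovZ.leaf K2_ok TB_l23154 _))
           (CovZ.n1 (-17088, 23328) (by decide +kernel)
            (CovZ.leaf K2_ok TB_l23155 _)
            (CovZ.leaf K2_ok TB_l23156 _))))
         (CovZ.n1 (-16896, 23232) (by decide +kernel)
          (CovZ.n2 (-16992, 23136) (by decide +kernel)
           (CovZ.n2 (-16992, 23232) (by decide +kernel)
            (CovZ.n2 (-16944, 23184) (by decide +kernel)
             (CovZ.leaf K2_ok TB_l23157 _)
             (CovZ.leaf K2_ok TB_l23158 _))
            (CovZ.n1 (-17040, 23184) (by decide +kernel)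
             (CovZ.leaf K2_ok TB_l23159 _)
             (CovZ.leaf K2_ok TB_l23160 _)))
           (CovZ.n1 (-16896, 23136) (by decide +kernel)
            (CovZ.n2 (-16944, 23088) (by decide +kernel)
             (CovZ.leaf K2_ok TB_l23161 _)
             (CovZ.leaf K2_ok TB_l23162 _))
            (CovZ.n1 (-16944, 23184) (by decide +kernel)
             (CovZ.leaf K2_ok TB_l23163 _)
             (CovZ.leaf K2_ok TB_l23164 _))))
          (CovZ.n1 (-16992, 23328) (by decide +kernel)
           (CovZ.n2 (-16896, 23328) (by decide +kernel)
            (CovZ.n2 (-16944, 23280) (by decide +kernel)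
             (CovZ.leaf K2_ok TB_l23165 _)
             (CovZ.leaf K2_ok TB_l23166 _))
            (CovZ.n1 (-16944, 23376) (by decide +kernel)
             (CovZ.leaf K2_ok TB_l23167 _)
             (CovZ.leaf K2_ok TB_l23168 _)))
           (CovZ.n1 (-16992, 23232) (by decide +kernel)
            (CovZ.leaf K2_ok TB_l23169 _)
            (CovZ.n1 (-16944, 23280) (by decide +kernel)
             (CovZ.leaf K2_ok TB_l23170 _)
             (CovZ.leaf K2_ok TB_l23171 _))))))
        (CovZ.n1 (-17088, 23616) (by decide +kernel)
         (CovZ.n2 (-16896, 23616) (by decide +kernel)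
          (CovZ.n2 (-16992, 23520) (by decide +kernel)
           (CovZ.n2 (-16992, 23616) (by decide +kernel)
            (CovZ.n2 (-16944, 23568) (by decide +kernel)
             (CovZ.leaf K2_ok TB_l23172 _)
             (CovZ.leaf K2_ok TB_l23173 _))
            (CovZ.leaf K2_ok TB_l23174 _))
           (CovZ.n1 (-16896, 23520) (by decide +kernel)
            (CovZ.n2 (-16944, 23472) (by decide +kernel)
             (CovZ.leaf K2_ok TB_l23175 _)
             (CovZ.leaf K2_ok TB_l23176 _))
            (CovZ.n1 (-16944, 23568) (by decide +kernel)
             (CovZ.leaf K2_ok TB_l23177 _)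
             (CovZ.leaf K2_ok TB_l23178 _))))
          (CovZ.n1 (-16992, 23712) (by decide +kernel)
           (CovZ.n2 (-16896, 23712) (by decide +kernel)
            (CovZ.n2 (-16944, 23664) (by decide +kernel)
             (CovZ.leaf K2_ok TB_l23179 _)
             (CovZ.leaf K2_ok TB_l23180 _))
            (CovZ.n1 (-16944, 23760) (by decide +kernel)
             (CovZ.leaf K2_ok TB_l23181 _)
             (CovZ.leaf K2_ok TB_l23182 _)))
           (CovZ.n1 (-16992, 23616) (by decide +kernel)
            (CovZ.leaf K2_ok TB_l23183 _)
            (CovZ.n1 (-16944, 23664) (by decide +kernel)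
             (CovZ.leaf K2_ok TB_l23184 _)
             (CovZ.leaf K2_ok TB_l23185 _)))))
         (CovZ.n1 (-17088, 23424) (by decide +kernel)
          (CovZ.n2 (-17184, 23520) (by decide +kernel)
           (CovZ.n2 (-17088, 23520) (by decide +kernel)
            (CovZ.leaf K2_ok TB_l23186 _)
            (CovZ.leaf K2_ok TB_l23187 _))
           (CovZ.n1 (-17184, 23424) (by decide +kernel)
            (CovZ.leaf K2_ok TB_l23188 _)
            (CovZ.leaf K2_ok TB_l23189 _)))
          (CovZ.n1 (-16992, 23520) (by decide +kernel)
           (CovZ.n2 (-16992, 23424) (by decide +kernel)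
            (CovZ.leaf K2_ok TB_l23190 _)
            (CovZ.n1 (-16944, 23472) (by decide +kernel)
             (CovZ.leaf K2_ok TB_l23191 _)
             (CovZ.leaf K2_ok TB_l23192 _)))
           (CovZ.n1 (-17088, 23520) (by decide +kernel)
            (CovZ.leaf K2_ok TB_l23193 _)
            (CovZ.leaf K2_ok TB_l23194 _)))))))

theorem TB_u450 : CovZ TB_M (toL (selN TB_LN 2404907604760405225489198433597688225554321165906514345993955756418787691387028910910329483184457630142181703680)) [0, 7, 6, 1] (-16896, 23808) (-16896, 24576) (-17664, 23808) :=
    (CovZ.n1 (-17280, 24192) (by decide +kernel)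
       (CovZ.n2 (-16896, 24192) (by decide +kernel)
        (CovZ.n2 (-17088, 24000) (by decide +kernel)
         (CovZ.n2 (-17088, 24192) (by decide +kernel)
          (CovZ.n2 (-16992, 24096) (by decide +kernel)
           (CovZ.n2 (-17088, 24096) (by decide +kernel)
            (CovZ.leaf K2_ok TB_l23195 _)
            (CovZ.leaf K2_ok TB_l23196 _))
           (CovZ.n1 (-16992, 24192) (by decide +kernel)
            (CovZ.leaf K2_ok TB_l23197 _)
            (CovZ.leaf K2_ok TB_l23198 _)))
          (CovZ.n1 (-17184, 24096) (by decide +kernel)
           (CovZ.n2 (-17184, 24192) (by decide +kernel)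
            (CovZ.leaf K2_ok TB_l23199 _)
            (CovZ.leaf K2_ok TB_l23200 _))
           (CovZ.n1 (-17088, 24096) (by decide +kernel)
            (CovZ.leaf K2_ok TB_l23201 _)
            (CovZ.leaf K2_ok TB_l23202 _))))
         (CovZ.n1 (-16896, 24000) (by decide +kernel)
          (CovZ.n2 (-16992, 23904) (by decide +kernel)
           (CovZ.n2 (-16992, 24000) (by decide +kernel)
            (CovZ.leaf K2_ok TB_l23203 _)
            (CovZ.leaf K2_ok TB_l23204 _))
           (CovZ.n1 (-16896, 23904) (by decide +kernel)
            (CovZ.n2 (-16944, 23856) (by decide +kernel)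
             (CovZ.leaf K2_ok TB_l23205 _)
             (CovZ.leaf K2_ok TB_l23206 _))
            (CovZ.leaf K2_ok TB_l23207 _)))
          (CovZ.n1 (-16992, 24096) (by decide +kernel)
           (CovZ.n2 (-16896, 24096) (by decide +kernel)
            (CovZ.leaf K2_ok TB_l23208 _)
            (CovZ.leaf K2_ok TB_l23209 _))
           (CovZ.n1 (-16992, 24000) (by decide +kernel)
            (CovZ.leaf K2_ok TB_l23210 _)
            (CovZ.leaf K2_ok TB_l23211 _)))))
        (CovZ.n1 (-17088, 24384) (by decide +kernel)
         (CovZ.n2 (-16896, 24384) (by decide +kernel)
          (CovZ.n2 (-16992, 24288) (by decide +kernel)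
           (CovZ.n2 (-16992, 24384) (by decide +kernel)
            (CovZ.leaf K2_ok TB_l23212 _)
            (CovZ.leaf K2_ok TB_l23213 _))
           (CovZ.n1 (-16896, 24288) (by decide +kernel)
            (CovZ.leaf K2_ok TB_l23214 _)
            (CovZ.leaf K2_ok TB_l23215 _)))
          (CovZ.n1 (-16992, 24480) (by decide +kernel)
           (CovZ.n2 (-16896, 24480) (by decide +kernel)
            (CovZ.leaf K2_ok TB_l23216 _)
            (CovZ.leaf K2_ok TB_l23217 _))
           (CovZ.n1 (-16992, 24384) (by decide +kernel)
            (CovZ.leaf K2_ok TB_l23218 _)
            (CovZ.leaf K2_ok TB_l23219 _))))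
         (CovZ.n1 (-17088, 24192) (by decide +kernel)
          (CovZ.n2 (-17184, 24288) (by decide +kernel)
           (CovZ.n2 (-17088, 24288) (by decide +kernel)
            (CovZ.leaf K2_ok TB_l23220 _)
            (CovZ.leaf K2_ok TB_l23221 _))
           (CovZ.n1 (-17184, 24192) (by decide +kernel)
            (CovZ.leaf K2_ok TB_l23222 _)
            (CovZ.leaf K2_ok TB_l23223 _)))
          (CovZ.n1 (-16992, 24288) (by decide +kernel)
           (CovZ.n2 (-16992, 24192) (by decide +kernel)
            (CovZ.leaf K2_ok TB_l23224 _)
            (CovZ.leaf K2_ok TB_l23225 _))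
           (CovZ.leaf K2_ok TB_l23226 _)))))
       (CovZ.n1 (-17280, 23808) (by decide +kernel)
        (CovZ.n2 (-17472, 24000) (by decide +kernel)
         (CovZ.n2 (-17280, 24000) (by decide +kernel)
          (CovZ.n2 (-17376, 23904) (by decide +kernel)
           (CovZ.leaf K2_ok TB_l23227 _)
           (CovZ.leaf K2_ok TB_l23228 _))
          (CovZ.n1 (-17376, 24096) (by decide +kernel)
           (CovZ.leaf K2_ok TB_l23229 _)
           (CovZ.leaf K2_ok TB_l23230 _)))
         (CovZ.n1 (-17472, 23808) (by decide +kernel)
          (CovZ.n2 (-17568, 23904) (by decide +kernel)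
           (CovZ.leaf K2_ok TB_l23231 _)
           (CovZ.leaf K2_ok TB_l23232 _))
          (CovZ.n1 (-17376, 23904) (by decide +kernel)
           (CovZ.n2 (-17376, 23808) (by decide +kernel)
            (CovZ.leaf K2_ok TB_l23233 _)
            (CovZ.leaf K2_ok TB_l23234 _))
           (CovZ.leaf K2_ok TB_l23235 _))))
        (CovZ.n1 (-17088, 24000) (by decide +kernel)
         (CovZ.n2 (-17088, 23808) (by decide +kernel)
          (CovZ.n2 (-17184, 23904) (by decide +kernel)
           (CovZ.n2 (-17088, 23904) (by decide +kernel)
            (CovZ.leaf K2_ok TB_l23236 _)
            (CovZ.leaf K2_ok TB_l23237 _))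
           (CovZ.n1 (-17184, 23808) (by decide +kernel)
            (CovZ.leaf K2_ok TB_l23238 _)
            (CovZ.leaf K2_ok TB_l23239 _)))
          (CovZ.n1 (-16992, 23904) (by decide +kernel)
           (CovZ.n2 (-16992, 23808) (by decide +kernel)
            (CovZ.leaf K2_ok TB_l23240 _)
            (CovZ.n1 (-16944, 23856) (by decide +kernel)
             (CovZ.leaf K2_ok TB_l23241 _)
             (CovZ.leaf K2_ok TB_l23242 _)))
           (CovZ.n1 (-17088, 23904) (by decide +kernel)
            (CovZ.leaf K2_ok TB_l23243 _)
            (CovZ.leaf K2_ok TB_l23244 _))))
         (CovZ.n1 (-17280, 24000) (by decide +kernel)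
          (CovZ.n2 (-17184, 24096) (by decide +kernel)
           (CovZ.n2 (-17184, 24000) (by decide +kernel)
            (CovZ.leaf K2_ok TB_l23245 _)
            (CovZ.leaf K2_ok TB_l23246 _))
           (CovZ.leaf K2_ok TB_l23247 _))
          (CovZ.n1 (-17184, 23904) (by decide +kernel)
           (CovZ.leaf K2_ok TB_l23248 _)
           (CovZ.n1 (-17184, 24000) (by decide +kernel)
            (CovZ.leaf K2_ok TB_l23249 _)
            (CovZ.leaf K2_ok TB_l23250 _)))))))

theorem TB_u451 : CovZ TB_M (toL (selN TB_LN 340282366920938463463374607431768211456)) [0, 7, 6, 1] (-16128, 24576) (-16128, 24960) (-16512, 24960) :=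
    (CovZ.n2 (-16320, 24768) (by decide +kernel)
          (CovZ.n2 (-16320, 24960) (by decide +kernel)
           (CovZ.n2 (-16224, 24864) (by decide +kernel)
            (CovZ.n2 (-16320, 24864) (by decide +kernel)
             (CovZ.n2 (-16272, 24912) (by decide +kernel)
              (CovZ.n2 (-16272, 24864) (by decide +kernel)
               (CovZ.n2 (-16296, 24888) (by decide +kernel)
                (CovZ.leaf K2_ok TB_l44638 _)
                (CovZ.leaf K2_ok TB_l44639 _))
               (CovZ.n1 (-16248, 24888) (by decide +kernel)
                (CovZ.leaf K2_ok TB_l44640 _)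
                (CovZ.leaf K2_ok TB_l44641 _)))
              (CovZ.n1 (-16320, 24912) (by decide +kernel)
               (CovZ.n2 (-16296, 24936) (by decide +kernel)
                (CovZ.leaf K2_ok TB_l44642 _)
                (CovZ.leaf K2_ok TB_l44643 _))
               (CovZ.leaf K2_ok TB_l44644 _)))
             (CovZ.n1 (-16272, 24816) (by decide +kernel)
              (CovZ.n2 (-16320, 24816) (by decide +kernel)
               (CovZ.leaf K2_ok TB_l44645 _)
               (CovZ.leaf K2_ok TB_l44646 _))
              (CovZ.n1 (-16272, 24864) (by decide +kernel)
               (CovZ.n2 (-16248, 24840) (by decide +kernel)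
                (CovZ.leaf K2_ok TB_l44647 _)
                (CovZ.leaf K2_ok TB_l44648 _))
               (CovZ.leaf K2_ok TB_l44649 _))))
            (CovZ.n1 (-16224, 24960) (by decide +kernel)
             (CovZ.n2 (-16176, 24912) (by decide +kernel)
              (CovZ.n2 (-16224, 24912) (by decide +kernel)
               (CovZ.n2 (-16200, 24936) (by decide +kernel)
                (CovZ.leaf K2_ok TB_l44650 _)
                (CovZ.leaf K2_ok TB_l44651 _))
               (CovZ.n1 (-16200, 24888) (by decide +kernel)
                (CovZ.leaf K2_ok TB_l44652 _)
                (CovZ.leaf K2_ok TB_l44653 _)))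
              (CovZ.n1 (-16176, 24960) (by decide +kernel)
               (CovZ.n2 (-16152, 24936) (by decide +kernel)
                (CovZ.leaf K2_ok TB_l44654 _)
                (CovZ.n1 (-16152, 24960) (by decide +kernel)
                 (CovZ.leaf K2_ok TB_l44655 _)
                 (CovZ.leaf K2_ok TB_l44656 _)))
               (CovZ.n1 (-16200, 24936) (by decide +kernel)
                (CovZ.leaf K2_ok TB_l44657 _)
                (CovZ.leaf K2_ok TB_l44658 _))))
             (CovZ.n1 (-16272, 24912) (by decide +kernel)
              (CovZ.n2 (-16272, 24960) (by decide +kernel)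
               (CovZ.n2 (-16248, 24936) (by decide +kernel)
                (CovZ.leaf K2_ok TB_l44659 _)
                (CovZ.leaf K2_ok TB_l44660 _))
               (CovZ.leaf K2_ok TB_l44661 _))
              (CovZ.n1 (-16224, 24912) (by decide +kernel)
               (CovZ.n2 (-16248, 24888) (by decide +kernel)
                (CovZ.leaf K2_ok TB_l44662 _)
                (CovZ.leaf K2_ok TB_l44663 _))
               (CovZ.n1 (-16248, 24936) (by decide +kernel)
                (CovZ.leaf K2_ok TB_l44664 _)
                (CovZ.leaf K2_ok TB_l44665 _))))))
           (CovZ.n1 (-16416, 24864) (by decide +kernel)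
            (CovZ.n2 (-16416, 24960) (by decide +kernel)
             (CovZ.n2 (-16368, 24912) (by decide +kernel)
              (CovZ.leaf K2_ok TB_l44666 _)
              (CovZ.n1 (-16368, 24960) (by decide +kernel)
               (CovZ.leaf K2_ok TB_l44667 _)
               (CovZ.leaf K2_ok TB_l44668 _)))
             (CovZ.n1 (-16464, 24912) (by decide +kernel)
              (CovZ.n2 (-16464, 24960) (by decide +kernel)
               (CovZ.leaf K2_ok TB_l44669 _)
               (CovZ.leaf K2_ok TB_l44670 _))
              (CovZ.leaf K2_ok TB_l44671 _)))
            (CovZ.n1 (-16320, 24864) (by decide +kernel)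
             (CovZ.n2 (-16368, 24816) (by decide +kernel)
              (CovZ.n2 (-16368, 24864) (by decide +kernel)
               (CovZ.leaf K2_ok TB_l44672 _)
               (CovZ.leaf K2_ok TB_l44673 _))
              (CovZ.n1 (-16320, 24816) (by decide +kernel)
               (CovZ.leaf K2_ok TB_l44674 _)
               (CovZ.leaf K2_ok TB_l44675 _)))
             (CovZ.n1 (-16368, 24912) (by decide +kernel)
              (CovZ.n2 (-16320, 24912) (by decide +kernel)
               (CovZ.leaf K2_ok TB_l44676 _)
               (CovZ.leaf K2_ok TB_l44677 _))
              (CovZ.n1 (-16368, 24864) (by decide +kernel)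
               (CovZ.leaf K2_ok TB_l44678 _)
               (CovZ.leaf K2_ok TB_l44679 _))))))
          (CovZ.n1 (-16128, 24768) (by decide +kernel)
           (CovZ.n2 (-16224, 24672) (by decide +kernel)
            (CovZ.n2 (-16224, 24768) (by decide +kernel)
             (CovZ.n2 (-16176, 24720) (by decide +kernel)
              (CovZ.n2 (-16224, 24720) (by decide +kernel)
               (CovZ.n2 (-16200, 24744) (by decide +kernel)
                (CovZ.leaf K2_ok TB_l44680 _)
                (CovZ.leaf K2_ok TB_l44681 _))
               (CovZ.n1 (-16200, 24696) (by decide +kernel)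
                (CovZ.leaf K2_ok TB_l44682 _)
                (CovZ.n1 (-16200, 24720) (by decide +kernel)
                 (CovZ.leaf K2_ok TB_l44683 _)
                 (CovZ.leaf K2_ok TB_l44684 _))))
              (CovZ.n1 (-16176, 24768) (by decide +kernel)
               (CovZ.n2 (-16152, 24744) (by decide +kernel)
                (CovZ.leaf K2_ok TB_l44685 _)
                (CovZ.n1 (-16152, 24768) (by decide +kernel)
                 (CovZ.leaf K2_ok TB_l44686 _)
                 (CovZ.leaf K2_ok TB_l44687 _)))
               (CovZ.n1 (-16200, 24744) (by decide +kernel)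
                (CovZ.n2 (-16200, 24768) (by decide +kernel)
                 (CovZ.leaf K2_ok TB_l44688 _)
                 (CovZ.leaf K2_ok TB_l44689 _))
                (CovZ.leaf K2_ok TB_l44690 _))))
             (CovZ.n1 (-16272, 24720) (by decide +kernel)
              (CovZ.n2 (-16272, 24768) (by decide +kernel)
               (CovZ.n2 (-16248, 24744) (by decide +kernel)
                (CovZ.leaf K2_ok TB_l44691 _)
                (CovZ.leaf K2_ok TB_l44692 _))
               (CovZ.n1 (-16296, 24744) (by decide +kernel)
                (CovZ.leaf K2_ok TB_l44693 _)
                (CovZ.leaf K2_ok TB_l44694 _)))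
              (CovZ.n1 (-16224, 24720) (by decide +kernel)
               (CovZ.n2 (-16248, 24696) (by decide +kernel)
                (CovZ.leaf K2_ok TB_l44695 _)
                (CovZ.leaf K2_ok TB_l44696 _))
               (CovZ.n1 (-16248, 24744) (by decide +kernel)
                (CovZ.leaf K2_ok TB_l44697 _)
                (CovZ.leaf K2_ok TB_l44698 _)))))
            (CovZ.n1 (-16128, 24672) (by decide +kernel)
             (CovZ.badM (by decide +kernel))
             (CovZ.n1 (-16176, 24720) (by decide +kernel)
              (CovZ.n2 (-16128, 24720) (by decide +kernel)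
               (CovZ.n2 (-16152, 24696) (by decide +kernel)
                (CovZ.n2 (-16152, 24720) (by decide +kernel)
                 (CovZ.leaf K2_ok TB_l44699 _)
                 (CovZ.leaf K2_ok TB_l44700 _))
                (CovZ.leaf K2_ok TB_l44701 _))
               (CovZ.n1 (-16152, 24744) (by decide +kernel)
                (CovZ.n2 (-16128, 24744) (by decide +kernel)
                 (CovZ.leaf K2_ok TB_l44702 _)
                 (CovZ.leaf K2_ok TB_l44703 _))
                (CovZ.n1 (-16152, 24720) (by decide +kernel)
                 (CovZ.leaf K2_ok TB_l44704 _)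
                 (CovZ.leaf K2_ok TB_l44705 _))))
              (CovZ.n1 (-16176, 24672) (by decide +kernel)
               (CovZ.n2 (-16200, 24696) (by decide +kernel)
                (CovZ.leaf K2_ok TB_l44706 _)
                (CovZ.n1 (-16200, 24672) (by decide +kernel)
                 (CovZ.leaf K2_ok TB_l44707 _)
                 (CovZ.leaf K2_ok TB_l44708 _)))
               (CovZ.n1 (-16152, 24696) (by decide +kernel)
                (CovZ.n2 (-16152, 24672) (by decide +kernel)
                 (CovZ.leaf K2_ok TB_l44709 _)
                 (CovZ.leaf K2_ok TB_l44710 _))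
                (CovZ.leaf K2_ok TB_l44711 _))))))
           (CovZ.n1 (-16224, 24864) (by decide +kernel)
            (CovZ.n2 (-16128, 24864) (by decide +kernel)
             (CovZ.n2 (-16176, 24816) (by decide +kernel)
              (CovZ.n2 (-16176, 24864) (by decide +kernel)
               (CovZ.n2 (-16152, 24840) (by decide +kernel)
                (CovZ.leaf K2_ok TB_l44712 _)
                (CovZ.n1 (-16152, 24864) (by decide +kernel)
                 (CovZ.leaf K2_ok TB_l44713 _)
                 (CovZ.leaf K2_ok TB_l44714 _)))
               (CovZ.n1 (-16200, 24840) (by decide +kernel)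
                (CovZ.n2 (-16200, 24864) (by decide +kernel)
                 (CovZ.leaf K2_ok TB_l44715 _)
                 (CovZ.leaf K2_ok TB_l44716 _))
                (CovZ.leaf K2_ok TB_l44717 _)))
              (CovZ.n1 (-16128, 24816) (by decide +kernel)
               (CovZ.n2 (-16152, 24792) (by decide +kernel)
                (CovZ.n2 (-16152, 24816) (by decide +kernel)
                 (CovZ.leaf K2_ok TB_l44718 _)
                 (CovZ.leaf K2_ok TB_l44719 _))
                (CovZ.leaf K2_ok TB_l44720 _))
               (CovZ.n1 (-16152, 24840) (by decide +kernel)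
                (CovZ.leaf K2_ok TB_l44721 _)
                (CovZ.n1 (-16152, 24816) (by decide +kernel)
                 (CovZ.leaf K2_ok TB_l44722 _)
                 (CovZ.leaf K2_ok TB_l44723 _)))))
             (CovZ.n1 (-16176, 24912) (by decide +kernel)
              (CovZ.n2 (-16128, 24912) (by decide +kernel)
               (CovZ.n2 (-16152, 24888) (by decide +kernel)
                (CovZ.n2 (-16152, 24912) (by decide +kernel)
                 (CovZ.leaf K2_ok TB_l44724 _)
                 (CovZ.leaf K2_ok TB_l44725 _))
                (CovZ.n1 (-16128, 24888) (by decide +kernel)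
                 (CovZ.leaf K2_ok TB_l44726 _)
                 (CovZ.leaf K2_ok TB_l44727 _)))
               (CovZ.n1 (-16152, 24936) (by decide +kernel)
                (CovZ.n2 (-16128, 24936) (by decide +kernel)
                 (CovZ.leaf K2_ok TB_l44728 _)
                 (CovZ.leaf K2_ok TB_l44729 _))
                (CovZ.n1 (-16152, 24912) (by decide +kernel)
                 (CovZ.leaf K2_ok TB_l44730 _)
                 (CovZ.leaf K2_ok TB_l44731 _))))
              (CovZ.n1 (-16176, 24864) (by decide +kernel)
               (CovZ.n2 (-16200, 24888) (by decide +kernel)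
                (CovZ.leaf K2_ok TB_l44732 _)
                (CovZ.leaf K2_ok TB_l44733 _))
               (CovZ.n1 (-16152, 24888) (by decide +kernel)
                (CovZ.n2 (-16152, 24864) (by decide +kernel)
                 (CovZ.leaf K2_ok TB_l44734 _)
                 (CovZ.leaf K2_ok TB_l44735 _))
                (CovZ.leaf K2_ok TB_l44736 _)))))
            (CovZ.n1 (-16224, 24768) (by decide +kernel)
             (CovZ.n2 (-16272, 24816) (by decide +kernel)
              (CovZ.n2 (-16224, 24816) (by decide +kernel)
               (CovZ.n2 (-16248, 24792) (by decide +kernel)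
                (CovZ.leaf K2_ok TB_l44737 _)
                (CovZ.leaf K2_ok TB_l44738 _))
               (CovZ.n1 (-16248, 24840) (by decide +kernel)
                (CovZ.leaf K2_ok TB_l44739 _)
                (CovZ.leaf K2_ok TB_l44740 _)))
              (CovZ.n1 (-16272, 24768) (by decide +kernel)
               (CovZ.n2 (-16296, 24792) (by decide +kernel)
                (CovZ.leaf K2_ok TB_l44741 _)
                (CovZ.leaf K2_ok TB_l44742 _))
               (CovZ.n1 (-16248, 24792) (by decide +kernel)
                (CovZ.leaf K2_ok TB_l44743 _)
                (CovZ.leaf K2_ok TB_l44744 _))))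
             (CovZ.n1 (-16176, 24816) (by decide +kernel)
              (CovZ.n2 (-16176, 24768) (by decide +kernel)
               (CovZ.n2 (-16200, 24792) (by decide +kernel)
                (CovZ.leaf K2_ok TB_l44745 _)
                (CovZ.leaf K2_ok TB_l44746 _))
               (CovZ.n1 (-16152, 24792) (by decide +kernel)
                (CovZ.n2 (-16152, 24768) (by decide +kernel)
                 (CovZ.leaf K2_ok TB_l44747 _)
                 (CovZ.leaf K2_ok TB_l44748 _))
                (CovZ.leaf K2_ok TB_l44749 _)))
              (CovZ.n1 (-16224, 24816) (by decide +kernel)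
               (CovZ.n2 (-16200, 24840) (by decide +kernel)
                (CovZ.leaf K2_ok TB_l44750 _)
                (CovZ.leaf K2_ok TB_l44751 _))
               (CovZ.n1 (-16200, 24792) (by decide +kernel)
                (CovZ.leaf K2_ok TB_l44752 _)
                (CovZ.n1 (-16200, 24816) (by decide +kernel)
                 (CovZ.leaf K2_ok TB_l44753 _)
                 (CovZ.leaf K2_ok TB_l44754 _)))))))))

theorem TB_u452 : CovZ TB_M (toL (selN TB_LN 340282366920938463463374607431768211456)) [0, 7, 6, 1] (-16128, 24960) (-16128, 25344) (-16512, 24960) :=
    (CovZ.n1 (-16320, 25152) (by decide +kernel)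
          (CovZ.n2 (-16128, 25152) (by decide +kernel)
           (CovZ.n2 (-16224, 25056) (by decide +kernel)
            (CovZ.n2 (-16224, 25152) (by decide +kernel)
             (CovZ.n2 (-16176, 25104) (by decide +kernel)
              (CovZ.n2 (-16224, 25104) (by decide +kernel)
               (CovZ.n2 (-16200, 25128) (by decide +kernel)
                (CovZ.leaf K2_ok TB_l44755 _)
                (CovZ.leaf K2_ok TB_l44756 _))
               (CovZ.n1 (-16200, 25080) (by decide +kernel)
                (CovZ.leaf K2_ok TB_l44757 _)
                (CovZ.leaf K2_ok TB_l44758 _)))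
              (CovZ.n1 (-16176, 25152) (by decide +kernel)
               (CovZ.n2 (-16152, 25128) (by decide +kernel)
                (CovZ.leaf K2_ok TB_l44759 _)
                (CovZ.n1 (-16152, 25152) (by decide +kernel)
                 (CovZ.leaf K2_ok TB_l44760 _)
                 (CovZ.leaf K2_ok TB_l44761 _)))
               (CovZ.n1 (-16200, 25128) (by decide +kernel)
                (CovZ.leaf K2_ok TB_l44762 _)
                (CovZ.leaf K2_ok TB_l44763 _))))
             (CovZ.n1 (-16272, 25104) (by decide +kernel)
              (CovZ.n2 (-16272, 25152) (by decide +kernel)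
               (CovZ.leaf K2_ok TB_l44764 _)
               (CovZ.leaf K2_ok TB_l44765 _))
              (CovZ.n1 (-16224, 25104) (by decide +kernel)
               (CovZ.n2 (-16248, 25080) (by decide +kernel)
                (CovZ.leaf K2_ok TB_l44766 _)
                (CovZ.leaf K2_ok TB_l44767 _))
               (CovZ.n1 (-16248, 25128) (by decide +kernel)
                (CovZ.leaf K2_ok TB_l44768 _)
                (CovZ.leaf K2_ok TB_l44769 _)))))
            (CovZ.n1 (-16128, 25056) (by decide +kernel)
             (CovZ.n2 (-16176, 25008) (by decide +kernel)
              (CovZ.n2 (-16176, 25056) (by decide +kernel)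
               (CovZ.n2 (-16152, 25032) (by decide +kernel)
                (CovZ.leaf K2_ok TB_l44770 _)
                (CovZ.n1 (-16152, 25056) (by decide +kernel)
                 (CovZ.leaf K2_ok TB_l44771 _)
                 (CovZ.leaf K2_ok TB_l44772 _)))
               (CovZ.n1 (-16200, 25032) (by decide +kernel)
                (CovZ.leaf K2_ok TB_l44773 _)
                (CovZ.leaf K2_ok TB_l44774 _)))
              (CovZ.n1 (-16128, 25008) (by decide +kernel)
               (CovZ.n2 (-16152, 24984) (by decide +kernel)
                (CovZ.n2 (-16152, 25008) (by decide +kernel)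
                 (CovZ.leaf K2_ok TB_l44775 _)
                 (CovZ.leaf K2_ok TB_l44776 _))
                (CovZ.leaf K2_ok TB_l44777 _))
               (CovZ.n1 (-16152, 25032) (by decide +kernel)
                (CovZ.leaf K2_ok TB_l44778 _)
                (CovZ.n1 (-16152, 25008) (by decide +kernel)
                 (CovZ.leaf K2_ok TB_l44779 _)
                 (CovZ.leaf K2_ok TB_l44780 _)))))
             (CovZ.n1 (-16176, 25104) (by decide +kernel)
              (CovZ.n2 (-16128, 25104) (by decide +kernel)
               (CovZ.n2 (-16152, 25080) (by decide +kernel)
                (CovZ.n2 (-16152, 25104) (by decide +kernel)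
                 (CovZ.leaf K2_ok TB_l44781 _)
                 (CovZ.leaf K2_ok TB_l44782 _))
                (CovZ.leaf K2_ok TB_l44783 _))
               (CovZ.n1 (-16152, 25128) (by decide +kernel)
                (CovZ.leaf K2_ok TB_l44784 _)
                (CovZ.n1 (-16152, 25104) (by decide +kernel)
                 (CovZ.leaf K2_ok TB_l44785 _)
                 (CovZ.leaf K2_ok TB_l44786 _))))
              (CovZ.n1 (-16176, 25056) (by decide +kernel)
               (CovZ.n2 (-16200, 25080) (by decide +kernel)
                (CovZ.leaf K2_ok TB_l44787 _)
                (CovZ.leaf K2_ok TB_l44788 _))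
               (CovZ.n1 (-16152, 25080) (by decide +kernel)
                (CovZ.leaf K2_ok TB_l44789 _)
                (CovZ.leaf K2_ok TB_l44790 _))))))
           (CovZ.n1 (-16224, 25248) (by decide +kernel)
            (CovZ.n2 (-16128, 25248) (by decide +kernel)
             (CovZ.n2 (-16176, 25200) (by decide +kernel)
              (CovZ.n2 (-16176, 25248) (by decide +kernel)
               (CovZ.n2 (-16152, 25224) (by decide +kernel)
                (CovZ.leaf K2_ok TB_l44791 _)
                (CovZ.n1 (-16152, 25248) (by decide +kernel)
                 (CovZ.leaf K2_ok TB_l44792 _)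
                 (CovZ.leaf K2_ok TB_l44793 _)))
               (CovZ.n1 (-16200, 25224) (by decide +kernel)
                (CovZ.leaf K2_ok TB_l44794 _)
                (CovZ.leaf K2_ok TB_l44795 _)))
              (CovZ.n1 (-16128, 25200) (by decide +kernel)
               (CovZ.n2 (-16152, 25176) (by decide +kernel)
                (CovZ.n2 (-16152, 25200) (by decide +kernel)
                 (CovZ.leaf K2_ok TB_l44796 _)
                 (CovZ.leaf K2_ok TB_l44797 _))
                (CovZ.leaf K2_ok TB_l44798 _))
               (CovZ.n1 (-16152, 25224) (by decide +kernel)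
                (CovZ.leaf K2_ok TB_l44799 _)
                (CovZ.leaf K2_ok TB_l44800 _))))
             (CovZ.n1 (-16176, 25296) (by decide +kernel)
              (CovZ.n2 (-16128, 25296) (by decide +kernel)
               (CovZ.n2 (-16152, 25272) (by decide +kernel)
                (CovZ.leaf K2_ok TB_l44801 _)
                (CovZ.leaf K2_ok TB_l44802 _))
               (CovZ.n1 (-16152, 25320) (by decide +kernel)
                (CovZ.leaf K2_ok TB_l44803 _)
                (CovZ.leaf K2_ok TB_l44804 _)))
              (CovZ.n1 (-16176, 25248) (by decide +kernel)
               (CovZ.n2 (-16200, 25272) (by decide +kernel)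
                (CovZ.leaf K2_ok TB_l44805 _)
                (CovZ.leaf K2_ok TB_l44806 _))
               (CovZ.n1 (-16152, 25272) (by decide +kernel)
                (CovZ.leaf K2_ok TB_l44807 _)
                (CovZ.leaf K2_ok TB_l44808 _)))))
            (CovZ.n1 (-16224, 25152) (by decide +kernel)
             (CovZ.n2 (-16272, 25200) (by decide +kernel)
              (CovZ.n2 (-16224, 25200) (by decide +kernel)
               (CovZ.leaf K2_ok TB_l44809 _)
               (CovZ.leaf K2_ok TB_l44810 _))
              (CovZ.n1 (-16272, 25152) (by decide +kernel)
               (CovZ.leaf K2_ok TB_l44811 _)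
               (CovZ.leaf K2_ok TB_l44812 _)))
             (CovZ.n1 (-16176, 25200) (by decide +kernel)
              (CovZ.n2 (-16176, 25152) (by decide +kernel)
               (CovZ.n2 (-16200, 25176) (by decide +kernel)
                (CovZ.leaf K2_ok TB_l44813 _)
                (CovZ.leaf K2_ok TB_l44814 _))
               (CovZ.n1 (-16152, 25176) (by decide +kernel)
                (CovZ.leaf K2_ok TB_l44815 _)
                (CovZ.leaf K2_ok TB_l44816 _)))
              (CovZ.n1 (-16224, 25200) (by decide +kernel)
               (CovZ.leaf K2_ok TB_l44817 _)
               (CovZ.n1 (-16200, 25176) (by decide +kernel)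
                (CovZ.leaf K2_ok TB_l44818 _)
                (CovZ.leaf K2_ok TB_l44819 _)))))))
          (CovZ.n1 (-16320, 24960) (by decide +kernel)
           (CovZ.n2 (-16416, 25056) (by decide +kernel)
            (CovZ.n2 (-16320, 25056) (by decide +kernel)
             (CovZ.n2 (-16368, 25008) (by decide +kernel)
              (CovZ.n2 (-16368, 25056) (by decide +kernel)
               (CovZ.leaf K2_ok TB_l44820 _)
               (CovZ.leaf K2_ok TB_l44821 _))
              (CovZ.n1 (-16320, 25008) (by decide +kernel)
               (CovZ.leaf K2_ok TB_l44822 _)
               (CovZ.leaf K2_ok TB_l44823 _)))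
             (CovZ.n1 (-16368, 25104) (by decide +kernel)
              (CovZ.n2 (-16320, 25104) (by decide +kernel)
               (CovZ.leaf K2_ok TB_l44824 _)
               (CovZ.leaf K2_ok TB_l44825 _))
              (CovZ.n1 (-16368, 25056) (by decide +kernel)
               (CovZ.leaf K2_ok TB_l44826 _)
               (CovZ.leaf K2_ok TB_l44827 _))))
            (CovZ.n1 (-16416, 24960) (by decide +kernel)
             (CovZ.n2 (-16464, 25008) (by decide +kernel)
              (CovZ.leaf K2_ok TB_l44828 _)
              (CovZ.n1 (-16464, 24960) (by decide +kernel)
               (CovZ.leaf K2_ok TB_l44829 _)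
               (CovZ.leaf K2_ok TB_l44830 _)))
             (CovZ.n1 (-16368, 25008) (by decide +kernel)
              (CovZ.n2 (-16368, 24960) (by decide +kernel)
               (CovZ.leaf K2_ok TB_l44831 _)
               (CovZ.leaf K2_ok TB_l44832 _))
              (CovZ.leaf K2_ok TB_l44833 _))))
           (CovZ.n1 (-16224, 25056) (by decide +kernel)
            (CovZ.n2 (-16224, 24960) (by decide +kernel)
             (CovZ.n2 (-16272, 25008) (by decide +kernel)
              (CovZ.n2 (-16224, 25008) (by decide +kernel)
               (CovZ.n2 (-16248, 24984) (by decide +kernel)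
                (CovZ.leaf K2_ok TB_l44834 _)
                (CovZ.leaf K2_ok TB_l44835 _))
               (CovZ.n1 (-16248, 25032) (by decide +kernel)
                (CovZ.leaf K2_ok TB_l44836 _)
                (CovZ.leaf K2_ok TB_l44837 _)))
              (CovZ.n1 (-16272, 24960) (by decide +kernel)
               (CovZ.n2 (-16296, 24984) (by decide +kernel)
                (CovZ.leaf K2_ok TB_l44838 _)
                (CovZ.leaf K2_ok TB_l44839 _))
               (CovZ.n1 (-16248, 24984) (by decide +kernel)
                (CovZ.leaf K2_ok TB_l44840 _)
                (CovZ.leaf K2_ok TB_l44841 _))))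
             (CovZ.n1 (-16176, 25008) (by decide +kernel)
              (CovZ.n2 (-16176, 24960) (by decide +kernel)
               (CovZ.n2 (-16200, 24984) (by decide +kernel)
                (CovZ.leaf K2_ok TB_l44842 _)
                (CovZ.n1 (-16200, 24960) (by decide +kernel)
                 (CovZ.leaf K2_ok TB_l44843 _)
                 (CovZ.leaf K2_ok TB_l44844 _)))
               (CovZ.n1 (-16152, 24984) (by decide +kernel)
                (CovZ.n2 (-16152, 24960) (by decide +kernel)
                 (CovZ.leaf K2_ok TB_l44845 _)
                 (CovZ.leaf K2_ok TB_l44846 _))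
                (CovZ.leaf K2_ok TB_l44847 _)))
              (CovZ.n1 (-16224, 25008) (by decide +kernel)
               (CovZ.n2 (-16200, 25032) (by decide +kernel)
                (CovZ.leaf K2_ok TB_l44848 _)
                (CovZ.leaf K2_ok TB_l44849 _))
               (CovZ.n1 (-16200, 24984) (by decide +kernel)
                (CovZ.leaf K2_ok TB_l44850 _)
                (CovZ.n1 (-16200, 25008) (by decide +kernel)
                 (CovZ.leaf K2_ok TB_l44851 _)
                 (CovZ.leaf K2_ok TB_l44852 _))))))
            (CovZ.n1 (-16320, 25056) (by decide +kernel)
             (CovZ.n2 (-16272, 25104) (by decide +kernel)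
              (CovZ.n2 (-16272, 25056) (by decide +kernel)
               (CovZ.n2 (-16296, 25080) (by decide +kernel)
                (CovZ.leaf K2_ok TB_l44853 _)
                (CovZ.leaf K2_ok TB_l44854 _))
               (CovZ.n1 (-16248, 25080) (by decide +kernel)
                (CovZ.leaf K2_ok TB_l44855 _)
                (CovZ.leaf K2_ok TB_l44856 _)))
              (CovZ.n1 (-16320, 25104) (by decide +kernel)
               (CovZ.leaf K2_ok TB_l44857 _)
               (CovZ.leaf K2_ok TB_l44858 _)))
             (CovZ.n1 (-16272, 25008) (by decide +kernel)
              (CovZ.n2 (-16320, 25008) (by decide +kernel)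
               (CovZ.leaf K2_ok TB_l44859 _)
               (CovZ.leaf K2_ok TB_l44860 _))
              (CovZ.n1 (-16272, 25056) (by decide +kernel)
               (CovZ.n2 (-16248, 25032) (by decide +kernel)
                (CovZ.leaf K2_ok TB_l44861 _)
                (CovZ.leaf K2_ok TB_l44862 _))
               (CovZ.leaf K2_ok TB_l44863 _)))))))

theorem TB_u453 : CovZ TB_M (toL (selN TB_LN 2404907604760405225489198433597688225553879454140319749911559932043601962098354406857049041908301836023626760192)) [0, 7, 6, 1] (-16896, 24576) (-16128, 24576) (-16128, 25344) :=
    (CovZ.n2 (-16512, 24960) (by decide +kernel)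
       (CovZ.subM 340282366920938463463374607431768211456 (by decide +kernel)
        (CovZ.n2 (-16128, 24960) (by decide +kernel)
         TB_u451
         TB_u452))
       (CovZ.n1 (-16512, 24576) (by decide +kernel)
        (CovZ.n2 (-16704, 24768) (by decide +kernel)
         (CovZ.subM 340282366920938463463374607431768211456 (by decide +kernel)
          (CovZ.n2 (-16512, 24768) (by decide +kernel)
           (CovZ.n2 (-16608, 24672) (by decide +kernel)
            (CovZ.n2 (-16608, 24768) (by decide +kernel)
             (CovZ.n2 (-16560, 24720) (by decide +kernel)
              (CovZ.leaf K2_ok TB_l44864 _)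
              (CovZ.leaf K2_ok TB_l44865 _))
             (CovZ.n1 (-16656, 24720) (by decide +kernel)
              (CovZ.leaf K2_ok TB_l30602 _)
              (CovZ.leaf K2_ok TB_l30603 _)))
            (CovZ.n1 (-16512, 24672) (by decide +kernel)
             (CovZ.badM (by decide +kernel))
             (CovZ.n1 (-16560, 24720) (by decide +kernel)
              (CovZ.leaf K2_ok TB_l44866 _)
              (CovZ.leaf K2_ok TB_l44867 _))))
           (CovZ.n1 (-16608, 24864) (by decide +kernel)
            (CovZ.n2 (-16512, 24864) (by decide +kernel)
             (CovZ.n2 (-16560, 24816) (by decide +kernel)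
              (CovZ.leaf K2_ok TB_l44868 _)
              (CovZ.leaf K2_ok TB_l44869 _))
             (CovZ.n1 (-16560, 24912) (by decide +kernel)
              (CovZ.leaf K2_ok TB_l44870 _)
              (CovZ.leaf K2_ok TB_l44871 _)))
            (CovZ.n1 (-16608, 24768) (by decide +kernel)
             (CovZ.n2 (-16656, 24816) (by decide +kernel)
              (CovZ.leaf K2_ok TB_l30604 _)
              (CovZ.leaf K2_ok TB_l30605 _))
             (CovZ.n1 (-16560, 24816) (by decide +kernel)
              (CovZ.leaf K2_ok TB_l44872 _)
              (CovZ.leaf K2_ok TB_l44873 _))))))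
         (CovZ.n1 (-16704, 24576) (by decide +kernel)
          (CovZ.n2 (-16800, 24672) (by decide +kernel)
           (CovZ.n2 (-16704, 24672) (by decide +kernel)
            (CovZ.badM (by decide +kernel))
            (CovZ.leaf K2_ok TB_l30607 _))
           (CovZ.n1 (-16800, 24576) (by decide +kernel)
            (CovZ.leaf K2_ok TB_l30608 _)
            (CovZ.badM (by decide +kernel))))
          (CovZ.subM 340282366920938463463374607431768211456 (by decide +kernel)
           (CovZ.n1 (-16608, 24672) (by decide +kernel)
            (CovZ.badM (by decide +kernel))
            (CovZ.n1 (-16704, 24672) (by decide +kernel)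
             (CovZ.n2 (-16656, 24720) (by decide +kernel)
              (CovZ.leaf K2_ok TB_l30612 _)
              (CovZ.leaf K2_ok TB_l30613 _))
             (CovZ.badM (by decide +kernel)))))))
        (CovZ.subM 340282366920938463463374607431768211456 (by decide +kernel)
         (CovZ.n1 (-16320, 24768) (by decide +kernel)
          (CovZ.n2 (-16320, 24576) (by decide +kernel)
           (CovZ.n2 (-16416, 24672) (by decide +kernel)
            (CovZ.n2 (-16320, 24672) (by decide +kernel)
             (CovZ.badM (by decide +kernel))
             (CovZ.n1 (-16368, 24720) (by decide +kernel)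
              (CovZ.n2 (-16320, 24720) (by decide +kernel)
               (CovZ.leaf K2_ok TB_l44874 _)
               (CovZ.leaf K2_ok TB_l44875 _))
              (CovZ.n1 (-16368, 24672) (by decide +kernel)
               (CovZ.leaf K2_ok TB_l44876 _)
               (CovZ.leaf K2_ok TB_l44877 _))))
            (CovZ.badM (by decide +kernel)))
           (CovZ.n1 (-16224, 24672) (by decide +kernel)
            (CovZ.badM (by decide +kernel))
            (CovZ.n1 (-16320, 24672) (by decide +kernel)
             (CovZ.n2 (-16272, 24720) (by decide +kernel)
              (CovZ.n2 (-16272, 24672) (by decide +kernel)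
               (CovZ.n2 (-16296, 24696) (by decide +kernel)
                (CovZ.leaf K2_ok TB_l44878 _)
                (CovZ.leaf K2_ok TB_l44879 _))
               (CovZ.n1 (-16248, 24696) (by decide +kernel)
                (CovZ.leaf K2_ok TB_l44880 _)
                (CovZ.leaf K2_ok TB_l44881 _)))
              (CovZ.n1 (-16320, 24720) (by decide +kernel)
               (CovZ.leaf K2_ok TB_l44882 _)
               (CovZ.leaf K2_ok TB_l44883 _)))
             (CovZ.badM (by decide +kernel)))))
          (CovZ.n1 (-16512, 24768) (by decide +kernel)
           (CovZ.n2 (-16416, 24864) (by decide +kernel)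
            (CovZ.n2 (-16416, 24768) (by decide +kernel)
             (CovZ.n2 (-16464, 24816) (by decide +kernel)
              (CovZ.leaf K2_ok TB_l44884 _)
              (CovZ.n1 (-16464, 24768) (by decide +kernel)
               (CovZ.leaf K2_ok TB_l44885 _)
               (CovZ.leaf K2_ok TB_l44886 _)))
             (CovZ.n1 (-16368, 24816) (by decide +kernel)
              (CovZ.n2 (-16368, 24768) (by decide +kernel)
               (CovZ.leaf K2_ok TB_l44887 _)
               (CovZ.leaf K2_ok TB_l44888 _))
              (CovZ.n1 (-16416, 24816) (by decide +kernel)
               (CovZ.leaf K2_ok TB_l44889 _)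
               (CovZ.leaf K2_ok TB_l44890 _))))
            (CovZ.n1 (-16512, 24864) (by decide +kernel)
             (CovZ.n2 (-16464, 24912) (by decide +kernel)
              (CovZ.n2 (-16464, 24864) (by decide +kernel)
               (CovZ.leaf K2_ok TB_l44891 _)
               (CovZ.leaf K2_ok TB_l44892 _))
              (CovZ.leaf K2_ok TB_l44893 _))
             (CovZ.n1 (-16464, 24816) (by decide +kernel)
              (CovZ.leaf K2_ok TB_l44894 _)
              (CovZ.n1 (-16464, 24864) (by decide +kernel)
               (CovZ.leaf K2_ok TB_l44895 _)
               (CovZ.leaf K2_ok TB_l44896 _)))))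
           (CovZ.n1 (-16416, 24672) (by decide +kernel)
            (CovZ.n2 (-16512, 24672) (by decide +kernel)
             (CovZ.n2 (-16464, 24720) (by decide +kernel)
              (CovZ.n2 (-16464, 24672) (by decide +kernel)
               (CovZ.leaf K2_ok TB_l44897 _)
               (CovZ.leaf K2_ok TB_l44898 _))
              (CovZ.leaf K2_ok TB_l44899 _))
             (CovZ.badM (by decide +kernel)))
            (CovZ.n1 (-16416, 24768) (by decide +kernel)
             (CovZ.n2 (-16368, 24720) (by decide +kernel)
              (CovZ.n2 (-16416, 24720) (by decide +kernel)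
               (CovZ.leaf K2_ok TB_l44900 _)
               (CovZ.leaf K2_ok TB_l44901 _))
              (CovZ.n1 (-16368, 24768) (by decide +kernel)
               (CovZ.leaf K2_ok TB_l44902 _)
               (CovZ.leaf K2_ok TB_l44903 _)))
             (CovZ.n1 (-16464, 24720) (by decide +kernel)
              (CovZ.n2 (-16464, 24768) (by decide +kernel)
               (CovZ.leaf K2_ok TB_l44904 _)
               (CovZ.leaf K2_ok TB_l44905 _))
              (CovZ.n1 (-16416, 24720) (by decide +kernel)
               (CovZ.leaf K2_ok TB_l44906 _)
               (CovZ.leaf K2_ok TB_l44907 _))))))))))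

end Pool.Agent.TET
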