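import Pool.Agent.Helper38_TET.TB_M
import Pool.Agent.Helper38_TET.TB_L
import Pool.Agent.Helper38_TET.TB_12
import Pool.Agent.Helper38_TET.TB_33
import Pool.Agent.Helper38_TET.TB_55
import Pool.Agent.Helper38_TET.TB_77
import Pool.Agent.Helper38_TET.TB_92
import Pool.Agent.Helper38_TET.TB_103
import Pool.Agent.Helper38_TET.TB_124
import Pool.Agent.Helper38_TET.TB_130
import Pool.Agent.Helper38_TET.TB_135
import Pool.Agent.Helper38_TET.TB_136
import Pool.Agent.Helper38_TET.TB_150
import Pool.Agent.Helper38_TET.TB_152
import Pool.Agent.Helper38_TET.TB_153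
import Pool.Agent.Helper38_TET.TB_154
import Pool.Agent.Helper38_TET.TB_155
import Pool.Agent.Helper38_TET.TB_156
import Pool.Agent.Helper38_TET.TB_193
import Pool.Agent.Helper38_TET.TB_194
import Pool.Agent.Helper38_TET.TB_196
import Pool.Agent.Helper38_TET.TB_197
import Pool.Agent.Helper38_TET.TB_199
import Pool.Agent.Helper38_TET.TB_202
import Pool.Agent.Helper38_TET.TB_203
import Pool.Agent.Helper38_TET.TB_237
import Pool.Agent.Helper38_TET.TB_296
import Pool.Agent.Helper38_TET.TB_U29
import Pool.Agent.Helper38_TET.TB_U30

/-!
# MP_c7c9bf_co: certificates, family TB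
-/

set_option autoImplicit false
set_option maxRecDepth 100000

namespace Pool.Agent.TET

theorem TB_s8_16 : SqZ TB_M TB_L [0, 7, 6, 1] (-32256) (-4608) 1536 8 16 :=
  SqZ.mk (a := (-19968)) (b := (-18432)) (c := 19968) (d := 21504) (by norm_num) (by norm_num) (by norm_num) (by norm_num)
    (CovZ.topM TB_LL 1233792754604771639284098193133246029973128915781645730209187394497656243428573005078363877884883053636660196704256 (by decide +kernel) (CovZ.n2 (-19200, 20736) (by decide +kernel)
    (CovZ.n2 (-18432, 20736) (by decide +kernel)
     (CovZ.n2 (-18816, 20352) (by decide +kernel)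
      (CovZ.n2 (-18816, 20736) (by decide +kernel)
       (CovZ.n2 (-18624, 20544) (by decide +kernel)
        (CovZ.leaf K2_ok TB_l20314 _)
        (CovZ.leaf K2_ok TB_l20315 _))
       (CovZ.leaf K2_ok TB_l20316 _))
      (CovZ.n1 (-18432, 20352) (by decide +kernel)
       (CovZ.leaf K2_ok TB_l20317 _)
       (CovZ.n1 (-18624, 20544) (by decide +kernel)
        (CovZ.leaf K2_ok TB_l20318 _)
        (CovZ.leaf K2_ok TB_l20319 _))))
     (CovZ.subM 2404907604795401237085726624418006167975647781229874008461060345337865385708624577641747569350618049321686433792 (by decide +kernel)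
      (CovZ.n1 (-18816, 21120) (by decide +kernel)
       (CovZ.n2 (-18432, 21120) (by decide +kernel)
        (CovZ.n2 (-18624, 20928) (by decide +kernel)
         (CovZ.n2 (-18624, 21120) (by decide +kernel)
          (CovZ.leaf K2_ok TB_l20320 _)
          (CovZ.leaf K2_ok TB_l20321 _))
         (CovZ.n1 (-18432, 20928) (by decide +kernel)
          (CovZ.leaf K2_ok TB_l20322 _)
          (CovZ.leaf K2_ok TB_l20323 _)))
        (CovZ.n1 (-18624, 21312) (by decide +kernel)
         (CovZ.n2 (-18432, 21312) (by decide +kernel)
          (CovZ.leaf K2_ok TB_l20324 _)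
          (CovZ.leaf K2_ok TB_l20325 _))
         (CovZ.n1 (-18624, 21120) (by decide +kernel)
          (CovZ.leaf K2_ok TB_l20326 _)
          (CovZ.leaf K2_ok TB_l20327 _))))
       (CovZ.n1 (-18816, 20736) (by decide +kernel)
        (CovZ.n2 (-19008, 20928) (by decide +kernel)
         (CovZ.leaf K2_ok TB_l20328 _)
         (CovZ.leaf K2_ok TB_l20329 _))
        (CovZ.n1 (-18624, 20928) (by decide +kernel)
         (CovZ.n2 (-18624, 20736) (by decide +kernel)
          (CovZ.leaf K2_ok TB_l20330 _)
          (CovZ.leaf K2_ok TB_l20331 _))
         (CovZ.leaf K2_ok TB_l20332 _))))))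
    (CovZ.n1 (-19200, 19968) (by decide +kernel)
     (CovZ.n2 (-19584, 20352) (by decide +kernel)
      (CovZ.leaf K2_ok TB_l20333 _)
      (CovZ.leaf K2_ok TB_l20334 _))
     (CovZ.n1 (-18816, 20352) (by decide +kernel)
      (CovZ.n2 (-18816, 19968) (by decide +kernel)
       (CovZ.leaf K2_ok TB_l20335 _)
       (CovZ.leaf K2_ok TB_l20336 _))
      (CovZ.n1 (-19200, 20352) (by decide +kernel)
       (CovZ.leaf K2_ok TB_l20337 _)
       (CovZ.leaf K2_ok TB_l20338 _))))))
    (CovZ.topM TB_LL 1233792754604771639284098193133246029973121848386646630005081401358986517982754787474367089303415424091579123662849 (by decide +kernel) (CovZ.n0 (-19200, 20736) (by decide +kernel)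
    (CovZ.n2 (-19968, 20736) (by decide +kernel)
     (CovZ.n2 (-19584, 21120) (by decide +kernel)
      (CovZ.n2 (-19584, 20736) (by decide +kernel)
       (CovZ.leaf K2_ok TB_l20339 _)
       (CovZ.leaf K2_ok TB_l20340 _))
      (CovZ.leaf K2_ok TB_l20341 _))
     (CovZ.n1 (-19584, 20352) (by decide +kernel)
      (CovZ.leaf K2_ok TB_l20342 _)
      (CovZ.n1 (-19584, 20736) (by decide +kernel)
       (CovZ.leaf K2_ok TB_l20343 _)
       (CovZ.leaf K2_ok TB_l20344 _))))
    (CovZ.n1 (-19200, 21504) (by decide +kernel)
     (CovZ.subM 2404907604795401237085726624418006167975644330356700613179166627959934247195898352087261484157340468059574534144 (by decide +kernel)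
      (CovZ.n2 (-18816, 21120) (by decide +kernel)
       (CovZ.n2 (-19200, 21120) (by decide +kernel)
        (CovZ.n2 (-19008, 21312) (by decide +kernel)
         (CovZ.leaf K2_ok TB_l20345 _)
         (CovZ.leaf K2_ok TB_l20346 _))
        (CovZ.n1 (-19008, 20928) (by decide +kernel)
         (CovZ.leaf K2_ok TB_l20347 _)
         (CovZ.leaf K2_ok TB_l20348 _)))
       (CovZ.n1 (-18816, 21504) (by decide +kernel)
        (CovZ.n2 (-18624, 21312) (by decide +kernel)
         (CovZ.leaf K2_ok TB_l20349 _)
         (CovZ.n1 (-18624, 21504) (by decide +kernel)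
          (CovZ.leaf K2_ok TB_l20350 _)
          (CovZ.leaf K2_ok TB_l20351 _)))
        (CovZ.n1 (-19008, 21312) (by decide +kernel)
         (CovZ.leaf K2_ok TB_l20352 _)
         (CovZ.leaf K2_ok TB_l20353 _)))))
     (CovZ.n1 (-19584, 21120) (by decide +kernel)
      (CovZ.n2 (-19584, 21504) (by decide +kernel)
       (CovZ.n2 (-19392, 21312) (by decide +kernel)
        (CovZ.leaf K2_ok TB_l20354 _)
        (CovZ.leaf K2_ok TB_l20355 _))
       (CovZ.leaf K2_ok TB_l20356 _))
      (CovZ.n1 (-19200, 21120) (by decide +kernel)
       (CovZ.leaf K2_ok TB_l20357 _)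
       (CovZ.n1 (-19392, 21312) (by decide +kernel)
        (CovZ.leaf K2_ok TB_l20358 _)
        (CovZ.leaf K2_ok TB_l20359 _)))))))

theorem TB_s9_16 : SqZ TB_M TB_L [0, 7, 6, 1] (-32256) (-4608) 1536 9 16 :=
  SqZ.mk (a := (-18432)) (b := (-16896)) (c := 19968) (d := 21504) (by norm_num) (by norm_num) (by norm_num) (by norm_num)
    (CovZ.topM TB_LL 2710218140555999556776544253243338473482208789201395464887012603791042869181951121265590066947059120769987674112 (by decide +kernel) (CovZ.n2 (-17664, 20736) (by decide +kernel)
    (CovZ.n2 (-16896, 20736) (by decide +kernel)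
     TB_u429
     TB_u430)
    (CovZ.n1 (-17664, 19968) (by decide +kernel)
     (CovZ.n2 (-18048, 20352) (by decide +kernel)
      (CovZ.n2 (-17664, 20352) (by decide +kernel)
       (CovZ.n2 (-17856, 20160) (by decide +kernel)
        (CovZ.n2 (-17856, 20352) (by decide +kernel)
         (CovZ.leaf K2_ok TB_l22512 _)
         (CovZ.leaf K2_ok TB_l22513 _))
        (CovZ.n1 (-17664, 20160) (by decide +kernel)
         (CovZ.leaf K2_ok TB_l22514 _)
         (CovZ.leaf K2_ok TB_l22515 _)))
       (CovZ.subM 2404907604760405225489198433628046248141032903011060907658176024139859673378960651259296025115632946269986652160 (by decide +kernel)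
        (CovZ.n1 (-17856, 20544) (by decide +kernel)
         (CovZ.n2 (-17664, 20544) (by decide +kernel)
          (CovZ.n2 (-17760, 20448) (by decide +kernel)
           (CovZ.leaf K2_ok TB_l22516 _)
           (CovZ.leaf K2_ok TB_l22517 _))
          (CovZ.n1 (-17760, 20640) (by decide +kernel)
           (CovZ.leaf K2_ok TB_l22518 _)
           (CovZ.leaf K2_ok TB_l22519 _)))
         (CovZ.n1 (-17856, 20352) (by decide +kernel)
          (CovZ.leaf K2_ok TB_l22520 _)
          (CovZ.leaf K2_ok TB_l22521 _)))))
      (CovZ.n1 (-18048, 19968) (by decide +kernel)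
       (CovZ.n2 (-18240, 20160) (by decide +kernel)
        (CovZ.leaf K2_ok TB_l22522 _)
        (CovZ.leaf K2_ok TB_l22523 _))
       (CovZ.n1 (-17856, 20160) (by decide +kernel)
        (CovZ.n2 (-17856, 19968) (by decide +kernel)
         (CovZ.leaf K2_ok TB_l22524 _)
         (CovZ.leaf K2_ok TB_l22525 _))
        (CovZ.leaf K2_ok TB_l22526 _))))
     (CovZ.n1 (-17280, 20352) (by decide +kernel)
      (CovZ.n2 (-17280, 19968) (by decide +kernel)
       (CovZ.n2 (-17472, 20160) (by decide +kernel)
        (CovZ.n2 (-17280, 20160) (by decide +kernel)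
         (CovZ.n2 (-17376, 20064) (by decide +kernel)
          (CovZ.leaf K2_ok TB_l22527 _)
          (CovZ.leaf K2_ok TB_l22528 _))
         (CovZ.n1 (-17376, 20256) (by decide +kernel)
          (CovZ.leaf K2_ok TB_l22529 _)
          (CovZ.leaf K2_ok TB_l22530 _)))
        (CovZ.n1 (-17472, 19968) (by decide +kernel)
         (CovZ.leaf K2_ok TB_l22531 _)
         (CovZ.leaf K2_ok TB_l22532 _)))
       (CovZ.n1 (-17088, 20160) (by decide +kernel)
        (CovZ.n2 (-17088, 19968) (by decide +kernel)
         (CovZ.n2 (-17184, 20064) (by decide +kernel)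
          (CovZ.leaf K2_ok TB_l22533 _)
          (CovZ.leaf K2_ok TB_l22534 _))
         (CovZ.n1 (-16992, 20064) (by decide +kernel)
          (CovZ.leaf K2_ok TB_l22535 _)
          (CovZ.leaf K2_ok TB_l22536 _)))
        (CovZ.n1 (-17280, 20160) (by decide +kernel)
         (CovZ.n2 (-17184, 20256) (by decide +kernel)
          (CovZ.leaf K2_ok TB_l22537 _)
          (CovZ.leaf K2_ok TB_l22538 _))
         (CovZ.n1 (-17184, 20064) (by decide +kernel)
          (CovZ.leaf K2_ok TB_l22539 _)
          (CovZ.leaf K2_ok TB_l22540 _)))))
      (CovZ.n1 (-17664, 20352) (by decide +kernel)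
       (CovZ.n2 (-17472, 20544) (by decide +kernel)
        (CovZ.n2 (-17472, 20352) (by decide +kernel)
         (CovZ.n2 (-17568, 20448) (by decide +kernel)
          (CovZ.leaf K2_ok TB_l22541 _)
          (CovZ.leaf K2_ok TB_l22542 _))
         (CovZ.n1 (-17376, 20448) (by decide +kernel)
          (CovZ.n2 (-17376, 20352) (by decide +kernel)
           (CovZ.leaf K2_ok TB_l22543 _)
           (CovZ.leaf K2_ok TB_l22544 _))
          (CovZ.leaf K2_ok TB_l22545 _)))
        (CovZ.subM 2404907604760405225489198433628046248141032903011060907658176024139859673378960651259296025115632946269986652160 (by decide +kernel)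
         (CovZ.n1 (-17664, 20544) (by decide +kernel)
          (CovZ.n2 (-17568, 20640) (by decide +kernel)
           (CovZ.n2 (-17568, 20544) (by decide +kernel)
            (CovZ.leaf K2_ok TB_l22546 _)
            (CovZ.leaf K2_ok TB_l22547 _))
           (CovZ.leaf K2_ok TB_l22548 _))
          (CovZ.n1 (-17568, 20448) (by decide +kernel)
           (CovZ.leaf K2_ok TB_l22549 _)
           (CovZ.n1 (-17568, 20544) (by decide +kernel)
            (CovZ.leaf K2_ok TB_l22550 _)
            (CovZ.leaf K2_ok TB_l22551 _))))))
       (CovZ.n1 (-17472, 20160) (by decide +kernel)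
        (CovZ.n2 (-17664, 20160) (by decide +kernel)
         (CovZ.n2 (-17568, 20256) (by decide +kernel)
          (CovZ.leaf K2_ok TB_l22552 _)
          (CovZ.leaf K2_ok TB_l22553 _))
         (CovZ.leaf K2_ok TB_l22554 _))
        (CovZ.n1 (-17472, 20352) (by decide +kernel)
         (CovZ.n2 (-17376, 20256) (by decide +kernel)
          (CovZ.leaf K2_ok TB_l22555 _)
          (CovZ.n1 (-17376, 20352) (by decide +kernel)
           (CovZ.leaf K2_ok TB_l22556 _)
           (CovZ.leaf K2_ok TB_l22557 _)))
         (CovZ.n1 (-17568, 20256) (by decide +kernel)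
          (CovZ.leaf K2_ok TB_l22558 _)
          (CovZ.leaf K2_ok TB_l22559 _)))))))))
    (CovZ.topM TB_LL 2705521055390451890320765292049744978040034184912271259239043480451290447945503145997844097081217175167801917440 (by decide +kernel) (CovZ.n0 (-17664, 20736) (by decide +kernel)
    TB_u431
    TB_u432))

theorem TB_s10_16 : SqZ TB_M TB_L [0, 7, 6, 1] (-32256) (-4608) 1536 10 16 :=
  SqZ.mk (a := (-16896)) (b := (-15360)) (c := 19968) (d := 21504) (by norm_num) (by norm_num) (by norm_num) (by norm_num)
    (CovZ.topM TB_LL 2710218140521003545114830911210674883087294873560456484508858420952904592112264787109874288730069419266878373904 (by decide +kernel) (CovZ.n2 (-16128, 20736) (by decide +kernel)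
    (CovZ.n2 (-15360, 20736) (by decide +kernel)
     TB_u435
     TB_u436)
    (CovZ.n1 (-16128, 19968) (by decide +kernel)
     (CovZ.n2 (-16512, 20352) (by decide +kernel)
      (CovZ.n2 (-16128, 20352) (by decide +kernel)
       (CovZ.n2 (-16320, 20160) (by decide +kernel)
        (CovZ.n2 (-16320, 20352) (by decide +kernel)
         (CovZ.n2 (-16224, 20256) (by decide +kernel)
          (CovZ.leaf K2_ok TB_l29013 _)
          (CovZ.n1 (-16224, 20352) (by decide +kernel)
           (CovZ.leaf K2_ok TB_l29014 _)
           (CovZ.leaf K2_ok TB_l29015 _)))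
         (CovZ.n1 (-16416, 20256) (by decide +kernel)
          (CovZ.n2 (-16416, 20352) (by decide +kernel)
           (CovZ.leaf K2_ok TB_l29016 _)
           (CovZ.leaf K2_ok TB_l29017 _))
          (CovZ.leaf K2_ok TB_l29018 _)))
        (CovZ.n1 (-16128, 20160) (by decide +kernel)
         (CovZ.n2 (-16224, 20064) (by decide +kernel)
          (CovZ.n2 (-16224, 20160) (by decide +kernel)
           (CovZ.leaf K2_ok TB_l29019 _)
           (CovZ.leaf K2_ok TB_l29020 _))
          (CovZ.leaf K2_ok TB_l29021 _))
         (CovZ.n1 (-16224, 20256) (by decide +kernel)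
          (CovZ.leaf K2_ok TB_l29022 _)
          (CovZ.n1 (-16224, 20160) (by decide +kernel)
           (CovZ.leaf K2_ok TB_l29023 _)
           (CovZ.leaf K2_ok TB_l29024 _)))))
       (CovZ.n1 (-16320, 20544) (by decide +kernel)
        (CovZ.subM 4697085165547666455778961223951518029328049789872030000758234257987197567346687614827934988001268746011410448 (by decide +kernel)
         (CovZ.n2 (-16128, 20544) (by decide +kernel)
          (CovZ.n2 (-16224, 20448) (by decide +kernel)
           (CovZ.n2 (-16224, 20544) (by decide +kernel)
            (CovZ.leaf K2_ok TB_l29025 _)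
            (CovZ.leaf K2_ok TB_l29026 _))
           (CovZ.n1 (-16128, 20448) (by decide +kernel)
            (CovZ.leaf K2_ok TB_l29027 _)
            (CovZ.leaf K2_ok TB_l29028 _)))
          (CovZ.n1 (-16224, 20640) (by decide +kernel)
           (CovZ.n2 (-16128, 20640) (by decide +kernel)
            (CovZ.leaf K2_ok TB_l29029 _)
            (CovZ.n1 (-16176, 20688) (by decide +kernel)
             (CovZ.leaf K2_ok TB_l29030 _)
             (CovZ.leaf K2_ok TB_l29031 _)))
           (CovZ.n1 (-16224, 20544) (by decide +kernel)
            (CovZ.leaf K2_ok TB_l29032 _)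
            (CovZ.leaf K2_ok TB_l29033 _)))))
        (CovZ.n1 (-16320, 20352) (by decide +kernel)
         (CovZ.subM 305310535760598319625632477612986657533415419420130306845118459792133584970293921436277385244642050488804704256 (by decide +kernel)
          (CovZ.n2 (-16416, 20448) (by decide +kernel)
           (CovZ.n2 (-16320, 20448) (by decide +kernel)
            (CovZ.leaf K2_ok TB_l29034 _)
            (CovZ.leaf K2_ok TB_l29035 _))
           (CovZ.n1 (-16416, 20352) (by decide +kernel)
            (CovZ.leaf K2_ok TB_l29036 _)
            (CovZ.leaf K2_ok TB_l29037 _))))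
         (CovZ.n1 (-16224, 20448) (by decide +kernel)
          (CovZ.n2 (-16224, 20352) (by decide +kernel)
           (CovZ.leaf K2_ok TB_l29038 _)
           (CovZ.leaf K2_ok TB_l29039 _))
          (CovZ.leaf K2_ok TB_l29040 _)))))
      (CovZ.n1 (-16512, 19968) (by decide +kernel)
       (CovZ.n2 (-16704, 20160) (by decide +kernel)
        (CovZ.subM 305310535760598319625632477612986657533415419420130306845118459792132888072006467354313902549468878739486146560 (by decide +kernel)
         (CovZ.n2 (-16512, 20160) (by decide +kernel)
          (CovZ.n2 (-16608, 20064) (by decide +kernel)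
           (CovZ.n2 (-16608, 20160) (by decide +kernel)
            (CovZ.leaf K2_ok TB_l29041 _)
            (CovZ.leaf K2_ok TB_l29042 _))
           (CovZ.leaf K2_ok TB_l29043 _))
          (CovZ.n1 (-16608, 20256) (by decide +kernel)
           (CovZ.leaf K2_ok TB_l29044 _)
           (CovZ.n1 (-16608, 20160) (by decide +kernel)
            (CovZ.leaf K2_ok TB_l29045 _)
            (CovZ.leaf K2_ok TB_l29046 _)))))
        (CovZ.n1 (-16704, 19968) (by decide +kernel)
         (CovZ.n2 (-16800, 20064) (by decide +kernel)
          (CovZ.leaf K2_ok TB_l29047 _)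
          (CovZ.leaf K2_ok TB_l29048 _))
         (CovZ.n1 (-16608, 20064) (by decide +kernel)
          (CovZ.leaf K2_ok TB_l29049 _)
          (CovZ.leaf K2_ok TB_l29050 _))))
       (CovZ.n1 (-16320, 20160) (by decide +kernel)
        (CovZ.n2 (-16320, 19968) (by decide +kernel)
         (CovZ.n2 (-16416, 20064) (by decide +kernel)
          (CovZ.leaf K2_ok TB_l29051 _)
          (CovZ.leaf K2_ok TB_l29052 _))
         (CovZ.n1 (-16224, 20064) (by decide +kernel)
          (CovZ.leaf K2_ok TB_l29053 _)
          (CovZ.leaf K2_ok TB_l29054 _)))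
        (CovZ.n1 (-16512, 20160) (by decide +kernel)
         (CovZ.n2 (-16416, 20256) (by decide +kernel)
          (CovZ.leaf K2_ok TB_l29055 _)
          (CovZ.leaf K2_ok TB_l29056 _))
         (CovZ.n1 (-16416, 20064) (by decide +kernel)
          (CovZ.leaf K2_ok TB_l29057 _)
          (CovZ.n1 (-16416, 20160) (by decide +kernel)
           (CovZ.leaf K2_ok TB_l29058 _)
           (CovZ.leaf K2_ok TB_l29059 _)))))))
     (CovZ.n1 (-15744, 20352) (by decide +kernel)
      (CovZ.n2 (-15744, 19968) (by decide +kernel)
       (CovZ.n2 (-15936, 20160) (by decide +kernel)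
        (CovZ.subM 4697085165547666455778961193597316581229971504908501113632544802569056529991307800300916152728701155686875152 (by decide +kernel)
         (CovZ.n2 (-15744, 20160) (by decide +kernel)
          (CovZ.n2 (-15840, 20064) (by decide +kernel)
           (CovZ.leaf K2_ok TB_l29060 _)
           (CovZ.leaf K2_ok TB_l29061 _))
          (CovZ.n1 (-15840, 20256) (by decide +kernel)
           (CovZ.leaf K2_ok TB_l29062 _)
           (CovZ.n1 (-15840, 20160) (by decide +kernel)
            (CovZ.leaf K2_ok TB_l29063 _)
            (CovZ.leaf K2_ok TB_l29064 _)))))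
        (CovZ.n1 (-15936, 19968) (by decide +kernel)
         (CovZ.n2 (-16032, 20064) (by decide +kernel)
          (CovZ.leaf K2_ok TB_l29065 _)
          (CovZ.leaf K2_ok TB_l29066 _))
         (CovZ.n1 (-15840, 20064) (by decide +kernel)
          (CovZ.leaf K2_ok TB_l29067 _)
          (CovZ.leaf K2_ok TB_l29068 _))))
       (CovZ.subM 4697085165547666455778961193597316581229971504908501113632544802569056529991307800300916152728701155686875152 (by decide +kernel)
        (CovZ.n1 (-15552, 20160) (by decide +kernel)
         (CovZ.n2 (-15552, 19968) (by decide +kernel)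
          (CovZ.n2 (-15648, 20064) (by decide +kernel)
           (CovZ.leaf K2_ok TB_l29069 _)
           (CovZ.n1 (-15648, 19968) (by decide +kernel)
            (CovZ.leaf K2_ok TB_l29070 _)
            (CovZ.leaf K2_ok TB_l29071 _)))
          (CovZ.n1 (-15456, 20064) (by decide +kernel)
           (CovZ.n2 (-15456, 19968) (by decide +kernel)
            (CovZ.leaf K2_ok TB_l29072 _)
            (CovZ.leaf K2_ok TB_l29073 _))
           (CovZ.leaf K2_ok TB_l29074 _)))
         (CovZ.n1 (-15744, 20160) (by decide +kernel)
          (CovZ.n2 (-15648, 20256) (by decide +kernel)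
           (CovZ.n2 (-15648, 20160) (by decide +kernel)
            (CovZ.leaf K2_ok TB_l29075 _)
            (CovZ.leaf K2_ok TB_l29076 _))
           (CovZ.leaf K2_ok TB_l29077 _))
          (CovZ.n1 (-15648, 20064) (by decide +kernel)
           (CovZ.leaf K2_ok TB_l29078 _)
           (CovZ.n1 (-15648, 20160) (by decide +kernel)
            (CovZ.leaf K2_ok TB_l29079 _)
            (CovZ.leaf K2_ok TB_l29080 _)))))))
      (CovZ.n1 (-16128, 20352) (by decide +kernel)
       (CovZ.n2 (-15936, 20544) (by decide +kernel)
        (CovZ.n2 (-15936, 20352) (by decide +kernel)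
         (CovZ.n2 (-16032, 20448) (by decide +kernel)
          (CovZ.n2 (-15936, 20448) (by decide +kernel)
           (CovZ.leaf K2_ok TB_l29081 _)
           (CovZ.leaf K2_ok TB_l29082 _))
          (CovZ.n1 (-16032, 20352) (by decide +kernel)
           (CovZ.leaf K2_ok TB_l29083 _)
           (CovZ.leaf K2_ok TB_l29084 _)))
         (CovZ.n1 (-15840, 20448) (by decide +kernel)
          (CovZ.n2 (-15840, 20352) (by decide +kernel)
           (CovZ.leaf K2_ok TB_l29085 _)
           (CovZ.leaf K2_ok TB_l29086 _))
          (CovZ.leaf K2_ok TB_l29087 _)))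
        (CovZ.n1 (-16128, 20544) (by decide +kernel)
         (CovZ.n2 (-16032, 20640) (by decide +kernel)
          (CovZ.n2 (-16032, 20544) (by decide +kernel)
           (CovZ.leaf K2_ok TB_l29088 _)
           (CovZ.leaf K2_ok TB_l29089 _))
          (CovZ.n1 (-16128, 20640) (by decide +kernel)
           (CovZ.leaf K2_ok TB_l29090 _)
           (CovZ.leaf K2_ok TB_l29091 _)))
         (CovZ.n1 (-16032, 20448) (by decide +kernel)
          (CovZ.n2 (-16128, 20448) (by decide +kernel)
           (CovZ.leaf K2_ok TB_l29092 _)
           (CovZ.leaf K2_ok TB_l29093 _))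
          (CovZ.n1 (-16032, 20544) (by decide +kernel)
           (CovZ.leaf K2_ok TB_l29094 _)
           (CovZ.leaf K2_ok TB_l29095 _)))))
       (CovZ.n1 (-15936, 20160) (by decide +kernel)
        (CovZ.n2 (-16128, 20160) (by decide +kernel)
         (CovZ.n2 (-16032, 20256) (by decide +kernel)
          (CovZ.leaf K2_ok TB_l29096 _)
          (CovZ.leaf K2_ok TB_l29097 _))
         (CovZ.n1 (-16032, 20064) (by decide +kernel)
          (CovZ.leaf K2_ok TB_l29098 _)
          (CovZ.n1 (-16032, 20160) (by decide +kernel)
           (CovZ.leaf K2_ok TB_l29099 _)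
           (CovZ.leaf K2_ok TB_l29100 _))))
        (CovZ.n1 (-15936, 20352) (by decide +kernel)
         (CovZ.n2 (-15840, 20256) (by decide +kernel)
          (CovZ.leaf K2_ok TB_l29101 _)
          (CovZ.n1 (-15840, 20352) (by decide +kernel)
           (CovZ.leaf K2_ok TB_l29102 _)
           (CovZ.leaf K2_ok TB_l29103 _)))
         (CovZ.n1 (-16032, 20256) (by decide +kernel)
          (CovZ.n2 (-16032, 20352) (by decide +kernel)
           (CovZ.leaf K2_ok TB_l29104 _)
           (CovZ.leaf K2_ok TB_l29105 _))
          (CovZ.leaf K2_ok TB_l29106 _)))))))))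
    (CovZ.topM TB_LL 2710218140521003545114830911210674883087294873560456484508858420952904592112264787109864617323512502233480724496 (by decide +kernel) (CovZ.n0 (-16128, 20736) (by decide +kernel)
    (CovZ.n2 (-16896, 20736) (by decide +kernel)
     (CovZ.n2 (-16512, 21120) (by decide +kernel)
      TB_u439
      (CovZ.subM 2705521055355455878659051950017081387645009841329777202088110312402185996186391314279094770724000810241385201664 (by decide +kernel)
       (CovZ.n1 (-16896, 21120) (by decide +kernel)
        TB_u437
        TB_u438)))
     (CovZ.n1 (-16512, 20352) (by decide +kernel)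
      (CovZ.n2 (-16896, 20352) (by decide +kernel)
       (CovZ.n2 (-16704, 20544) (by decide +kernel)
        (CovZ.n2 (-16704, 20352) (by decide +kernel)
         (CovZ.n2 (-16800, 20448) (by decide +kernel)
          (CovZ.n2 (-16704, 20448) (by decide +kernel)
           (CovZ.leaf K2_ok TB_l29415 _)
           (CovZ.leaf K2_ok TB_l29416 _))
          (CovZ.n1 (-16800, 20352) (by decide +kernel)
           (CovZ.leaf K2_ok TB_l29417 _)
           (CovZ.leaf K2_ok TB_l29418 _)))
         (CovZ.n1 (-16608, 20448) (by decide +kernel)
          (CovZ.n2 (-16608, 20352) (by decide +kernel)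
           (CovZ.leaf K2_ok TB_l29419 _)
           (CovZ.leaf K2_ok TB_l29420 _))
          (CovZ.leaf K2_ok TB_l29421 _)))
        (CovZ.subM 2705521055355455878659051950017081387645120269271325851108709268495982428593630532022649496908883410635408441344 (by decide +kernel)
         (CovZ.n1 (-16896, 20544) (by decide +kernel)
          (CovZ.n2 (-16800, 20640) (by decide +kernel)
           (CovZ.n2 (-16800, 20544) (by decide +kernel)
            (CovZ.leaf K2_ok TB_l29422 _)
            (CovZ.leaf K2_ok TB_l29423 _))
           (CovZ.n1 (-16896, 20640) (by decide +kernel)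
            (CovZ.n2 (-16848, 20688) (by decide +kernel)
             (CovZ.leaf K2_ok TB_l29424 _)
             (CovZ.leaf K2_ok TB_l29425 _))
            (CovZ.leaf K2_ok TB_l29426 _)))
          (CovZ.n1 (-16800, 20448) (by decide +kernel)
           (CovZ.leaf K2_ok TB_l29427 _)
           (CovZ.n1 (-16800, 20544) (by decide +kernel)
            (CovZ.leaf K2_ok TB_l29428 _)
            (CovZ.leaf K2_ok TB_l29429 _))))))
       (CovZ.n1 (-16704, 20160) (by decide +kernel)
        (CovZ.n2 (-16896, 20160) (by decide +kernel)
         (CovZ.n2 (-16800, 20256) (by decide +kernel)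
          (CovZ.leaf K2_ok TB_l29430 _)
          (CovZ.leaf K2_ok TB_l29431 _))
         (CovZ.n1 (-16800, 20064) (by decide +kernel)
          (CovZ.leaf K2_ok TB_l29432 _)
          (CovZ.n1 (-16800, 20160) (by decide +kernel)
           (CovZ.leaf K2_ok TB_l29433 _)
           (CovZ.leaf K2_ok TB_l29434 _))))
        (CovZ.n1 (-16704, 20352) (by decide +kernel)
         (CovZ.n2 (-16608, 20256) (by decide +kernel)
          (CovZ.leaf K2_ok TB_l29435 _)
          (CovZ.n1 (-16608, 20352) (by decide +kernel)
           (CovZ.leaf K2_ok TB_l29436 _)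
           (CovZ.leaf K2_ok TB_l29437 _)))
         (CovZ.n1 (-16800, 20256) (by decide +kernel)
          (CovZ.n2 (-16800, 20352) (by decide +kernel)
           (CovZ.leaf K2_ok TB_l29438 _)
           (CovZ.leaf K2_ok TB_l29439 _))
          (CovZ.leaf K2_ok TB_l29440 _)))))
      (CovZ.n1 (-16512, 20736) (by decide +kernel)
       (CovZ.subM 300613450595050653169853516419407983478664054322313667103706871005136044455594165636397190367107681933984923664 (by decide +kernel)
        (CovZ.n2 (-16320, 20544) (by decide +kernel)
         (CovZ.n2 (-16512, 20544) (by decide +kernel)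
          (CovZ.n2 (-16416, 20640) (by decide +kernel)
           (CovZ.n2 (-16416, 20544) (by decide +kernel)
            (CovZ.leaf K2_ok TB_l29441 _)
            (CovZ.leaf K2_ok TB_l29442 _))
           (CovZ.n1 (-16512, 20640) (by decide +kernel)
            (CovZ.leaf K2_ok TB_l29443 _)
            (CovZ.leaf K2_ok TB_l29444 _)))
          (CovZ.n1 (-16416, 20448) (by decide +kernel)
           (CovZ.leaf K2_ok TB_l29445 _)
           (CovZ.n1 (-16416, 20544) (by decide +kernel)
            (CovZ.leaf K2_ok TB_l29446 _)
            (CovZ.leaf K2_ok TB_l29447 _))))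
         (CovZ.n1 (-16320, 20736) (by decide +kernel)
          (CovZ.n2 (-16224, 20640) (by decide +kernel)
           (CovZ.n2 (-16320, 20640) (by decide +kernel)
            (CovZ.leaf K2_ok TB_l29448 _)
            (CovZ.leaf K2_ok TB_l29449 _))
           (CovZ.n1 (-16224, 20736) (by decide +kernel)
            (CovZ.n2 (-16176, 20688) (by decide +kernel)
             (CovZ.leaf K2_ok TB_l29450 _)
             (CovZ.leaf K2_ok TB_l29451 _))
            (CovZ.n1 (-16272, 20688) (by decide +kernel)
             (CovZ.leaf K2_ok TB_l29452 _)
             (CovZ.leaf K2_ok TB_l29453 _))))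
          (CovZ.n1 (-16416, 20640) (by decide +kernel)
           (CovZ.n2 (-16416, 20736) (by decide +kernel)
            (CovZ.n2 (-16368, 20688) (by decide +kernel)
             (CovZ.leaf K2_ok TB_l29454 _)
             (CovZ.leaf K2_ok TB_l29455 _))
            (CovZ.n1 (-16464, 20688) (by decide +kernel)
             (CovZ.leaf K2_ok TB_l29456 _)
             (CovZ.leaf K2_ok TB_l29457 _)))
           (CovZ.n1 (-16320, 20640) (by decide +kernel)
            (CovZ.leaf K2_ok TB_l29458 _)
            (CovZ.n1 (-16368, 20688) (by decide +kernel)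
             (CovZ.leaf K2_ok TB_l29459 _)
             (CovZ.leaf K2_ok TB_l29460 _)))))))
       (CovZ.n1 (-16704, 20544) (by decide +kernel)
        (CovZ.subM 2705521055355455878659051950017081387645120269271325851108709268495982428593630532022649496908883410628965990400 (by decide +kernel)
         (CovZ.n2 (-16704, 20736) (by decide +kernel)
          (CovZ.n2 (-16608, 20640) (by decide +kernel)
           (CovZ.n2 (-16704, 20640) (by decide +kernel)
            (CovZ.leaf K2_ok TB_l29461 _)
            (CovZ.leaf K2_ok TB_l29462 _))
           (CovZ.n1 (-16608, 20736) (by decide +kernel)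
            (CovZ.n2 (-16560, 20688) (by decide +kernel)
             (CovZ.leaf K2_ok TB_l29463 _)
             (CovZ.leaf K2_ok TB_l29464 _))
            (CovZ.n1 (-16656, 20688) (by decide +kernel)
             (CovZ.leaf K2_ok TB_l29465 _)
             (CovZ.leaf K2_ok TB_l29466 _))))
          (CovZ.n1 (-16800, 20640) (by decide +kernel)
           (CovZ.n2 (-16800, 20736) (by decide +kernel)
            (CovZ.n2 (-16752, 20688) (by decide +kernel)
             (CovZ.leaf K2_ok TB_l29467 _)
             (CovZ.leaf K2_ok TB_l29468 _))
            (CovZ.n1 (-16848, 20688) (by decide +kernel)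
             (CovZ.leaf K2_ok TB_l29469 _)
             (CovZ.leaf K2_ok TB_l29470 _)))
           (CovZ.n1 (-16704, 20640) (by decide +kernel)
            (CovZ.leaf K2_ok TB_l29471 _)
            (CovZ.n1 (-16752, 20688) (by decide +kernel)
             (CovZ.leaf K2_ok TB_l29472 _)
             (CovZ.leaf K2_ok TB_l29473 _))))))
        (CovZ.subM 300613450595050653169853516419407983478664054322313667103703877849068470021777250467357471443562658754648473600 (by decide +kernel)
         (CovZ.n1 (-16512, 20544) (by decide +kernel)
          (CovZ.n2 (-16608, 20448) (by decide +kernel)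
           (CovZ.n2 (-16608, 20544) (by decide +kernel)
            (CovZ.leaf K2_ok TB_l29474 _)
            (CovZ.leaf K2_ok TB_l29475 _))
           (CovZ.n1 (-16512, 20448) (by decide +kernel)
            (CovZ.leaf K2_ok TB_l29476 _)
            (CovZ.leaf K2_ok TB_l29477 _)))
          (CovZ.n1 (-16608, 20640) (by decide +kernel)
           (CovZ.n2 (-16512, 20640) (by decide +kernel)
            (CovZ.leaf K2_ok TB_l29478 _)
            (CovZ.n1 (-16560, 20688) (by decide +kernel)
             (CovZ.leaf K2_ok TB_l29479 _)
             (CovZ.leaf K2_ok TB_l29480 _)))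
           (CovZ.n1 (-16608, 20544) (by decide +kernel)
            (CovZ.leaf K2_ok TB_l29481 _)
            (CovZ.leaf K2_ok TB_l29482 _)))))))))
    (CovZ.n1 (-16128, 21504) (by decide +kernel)
     (CovZ.subM 30358022587153445500747824352786117762881522641722231200515547954873323897334398992 (by decide +kernel)
      (CovZ.n2 (-15744, 21120) (by decide +kernel)
       (CovZ.n2 (-16128, 21120) (by decide +kernel)
        TB_u440
        TB_u441)
       (CovZ.subM 7070845872273599387886856047657281229231283633247839652103146604482002960 (by decide +kernel)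
        (CovZ.n1 (-15744, 21504) (by decide +kernel)
         (CovZ.n2 (-15552, 21312) (by decide +kernel)
          (CovZ.n2 (-15744, 21312) (by decide +kernel)
           (CovZ.badM (by decide +kernel))
           (CovZ.n1 (-15648, 21216) (by decide +kernel)
            (CovZ.n2 (-15744, 21216) (by decide +kernel)
             (CovZ.badM (by decide +kernel))
             (CovZ.n1 (-15696, 21168) (by decide +kernel)
              (CovZ.n2 (-15744, 21168) (by decide +kernel)
               (CovZ.badM (by decide +kernel))
               (CovZ.n1 (-15720, 21144) (by decide +kernel)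
                (CovZ.leaf K2_ok TB_l29609 _)
                (CovZ.n1 (-15720, 21168) (by decide +kernel)
                 (CovZ.leaf K2_ok TB_l44426 _)
                 (CovZ.leaf K2_ok TB_l29610 _))))
              (CovZ.badM (by decide +kernel))))
            (CovZ.badM (by decide +kernel))))
          (CovZ.badM (by decide +kernel)))
         (CovZ.n1 (-15936, 21312) (by decide +kernel)
          (CovZ.badM (by decide +kernel))
          (CovZ.n1 (-15744, 21312) (by decide +kernel)
           (CovZ.n2 (-15840, 21216) (by decide +kernel)
            (CovZ.badM (by decide +kernel))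
            (CovZ.n1 (-15744, 21216) (by decide +kernel)
             (CovZ.n2 (-15792, 21168) (by decide +kernel)
              (CovZ.badM (by decide +kernel))
              (CovZ.n1 (-15744, 21168) (by decide +kernel)
               (CovZ.n2 (-15768, 21144) (by decide +kernel)
                (CovZ.n2 (-15768, 21168) (by decide +kernel)
                 (CovZ.leaf K2_ok TB_l29611 _)
                 (CovZ.leaf K2_ok TB_l29612 _))
                (CovZ.n1 (-15744, 21144) (by decide +kernel)
                 (CovZ.leaf K2_ok TB_l29613 _)
                 (CovZ.leaf K2_ok TB_l29614 _)))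
               (CovZ.badM (by decide +kernel))))
             (CovZ.badM (by decide +kernel))))
           (CovZ.badM (by decide +kernel))))))))
     (CovZ.n1 (-16512, 21120) (by decide +kernel)
      TB_u444
      TB_u445))))

theorem TB_s11_16 : SqZ TB_M TB_L [0, 7, 6, 1] (-32256) (-4608) 1536 11 16 :=
  SqZ.mk (a := (-15360)) (b := (-13824)) (c := 19968) (d := 21504) (by norm_num) (by norm_num) (by norm_num) (by norm_num)
    (CovZ.topM TB_LL 4697085165547666455778961193597316581229971504908501113632544802568359631703853718327743161523638510762983424 (by decide +kernel) (CovZ.n2 (-14592, 20736) (by decide +kernel)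
    (CovZ.badM (by decide +kernel))
    (CovZ.n1 (-14592, 19968) (by decide +kernel)
     (CovZ.n2 (-14976, 20352) (by decide +kernel)
      (CovZ.badM (by decide +kernel))
      (CovZ.n1 (-14976, 19968) (by decide +kernel)
       (CovZ.n2 (-15168, 20160) (by decide +kernel)
        (CovZ.badM (by decide +kernel))
        (CovZ.n1 (-15168, 19968) (by decide +kernel)
         (CovZ.n2 (-15264, 20064) (by decide +kernel)
          (CovZ.badM (by decide +kernel))
          (CovZ.n1 (-15264, 19968) (by decide +kernel)
           (CovZ.leaf K2_ok TB_l35605 _)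
           (CovZ.badM (by decide +kernel))))
         (CovZ.badM (by decide +kernel))))
       (CovZ.badM (by decide +kernel))))
     (CovZ.badM (by decide +kernel)))))
    (CovZ.topM TB_LL 4697085165547666455778961193597316581229971504908501113632544802568359631703853718327743161523638510762983424 (by decide +kernel) (CovZ.n0 (-14592, 20736) (by decide +kernel)
    (CovZ.n2 (-15360, 20736) (by decide +kernel)
     (CovZ.n2 (-14976, 21120) (by decide +kernel)
      (CovZ.n2 (-14976, 20736) (by decide +kernel)
       (CovZ.n2 (-15168, 20928) (by decide +kernel)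
        (CovZ.badM (by decide +kernel))
        (CovZ.n1 (-15168, 20736) (by decide +kernel)
         (CovZ.n2 (-15264, 20832) (by decide +kernel)
          (CovZ.badM (by decide +kernel))
          (CovZ.n1 (-15264, 20736) (by decide +kernel)
           (CovZ.n2 (-15312, 20784) (by decide +kernel)
            (CovZ.badM (by decide +kernel))
            (CovZ.leaf K2_ok TB_l35606 _))
           (CovZ.badM (by decide +kernel))))
         (CovZ.badM (by decide +kernel))))
       (CovZ.badM (by decide +kernel)))
      (CovZ.n1 (-15360, 21120) (by decide +kernel)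
       (CovZ.n2 (-15168, 21312) (by decide +kernel)
        (CovZ.n2 (-15168, 21120) (by decide +kernel)
         (CovZ.badM (by decide +kernel))
         (CovZ.badM (by decide +kernel)))
        (CovZ.badM (by decide +kernel)))
       (CovZ.n1 (-15168, 20928) (by decide +kernel)
        (CovZ.n2 (-15360, 20928) (by decide +kernel)
         (CovZ.subM 4697085165547666455778961193593495442285032230672854668568079433548853643687193031136750898961451861384626176 (by decide +kernel)
          (CovZ.n2 (-15264, 21024) (by decide +kernel)
           (CovZ.n2 (-15264, 20928) (by decide +kernel)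
            (CovZ.n2 (-15312, 20976) (by decide +kernel)
             (CovZ.badM (by decide +kernel))
             (CovZ.n1 (-15312, 20928) (by decide +kernel)
              (CovZ.n2 (-15336, 20952) (by decide +kernel)
               (CovZ.badM (by decide +kernel))
               (CovZ.n1 (-15336, 20928) (by decide +kernel)
                (CovZ.leaf K2_ok TB_l35607 _)
                (CovZ.badM (by decide +kernel))))
              (CovZ.badM (by decide +kernel))))
            (CovZ.badM (by decide +kernel)))
           (CovZ.n1 (-15360, 21024) (by decide +kernel)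
            (CovZ.badM (by decide +kernel))
            (CovZ.n1 (-15312, 20976) (by decide +kernel)
             (CovZ.n2 (-15360, 20976) (by decide +kernel)
              (CovZ.n2 (-15336, 21000) (by decide +kernel)
               (CovZ.n2 (-15336, 20976) (by decide +kernel)
                (CovZ.badM (by decide +kernel))
                (CovZ.badM (by decide +kernel)))
               (CovZ.badM (by decide +kernel)))
              (CovZ.n1 (-15336, 20952) (by decide +kernel)
               (CovZ.leaf K2_ok TB_l35608 _)
               (CovZ.n1 (-15336, 20976) (by decide +kernel)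
                (CovZ.badM (by decide +kernel))
                (CovZ.leaf K2_ok TB_l35609 _))))
             (CovZ.n1 (-15312, 21024) (by decide +kernel)
              (CovZ.badM (by decide +kernel))
              (CovZ.n1 (-15336, 21000) (by decide +kernel)
               (CovZ.badM (by decide +kernel))
               (CovZ.badM (by decide +kernel))))))))
         (CovZ.n1 (-15264, 20832) (by decide +kernel)
          (CovZ.n2 (-15360, 20832) (by decide +kernel)
           (CovZ.n2 (-15312, 20880) (by decide +kernel)
            (CovZ.n2 (-15312, 20832) (by decide +kernel)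
             (CovZ.leaf K2_ok TB_l35610 _)
             (CovZ.badM (by decide +kernel)))
            (CovZ.n1 (-15360, 20880) (by decide +kernel)
             (CovZ.n2 (-15336, 20904) (by decide +kernel)
              (CovZ.leaf K2_ok TB_l35611 _)
              (CovZ.leaf K2_ok TB_l35612 _))
             (CovZ.leaf K2_ok TB_l35613 _)))
           (CovZ.n1 (-15312, 20784) (by decide +kernel)
            (CovZ.leaf K2_ok TB_l35614 _)
            (CovZ.n1 (-15312, 20832) (by decide +kernel)
             (CovZ.badM (by decide +kernel))
             (CovZ.leaf K2_ok TB_l35615 _))))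
          (CovZ.n1 (-15264, 20928) (by decide +kernel)
           (CovZ.badM (by decide +kernel))
           (CovZ.n1 (-15312, 20880) (by decide +kernel)
            (CovZ.n2 (-15312, 20928) (by decide +kernel)
             (CovZ.badM (by decide +kernel))
             (CovZ.n1 (-15336, 20904) (by decide +kernel)
              (CovZ.n2 (-15336, 20928) (by decide +kernel)
               (CovZ.badM (by decide +kernel))
               (CovZ.leaf K2_ok TB_l35616 _))
              (CovZ.badM (by decide +kernel))))
            (CovZ.badM (by decide +kernel))))))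
        (CovZ.n1 (-15168, 21120) (by decide +kernel)
         (CovZ.badM (by decide +kernel))
         (CovZ.n1 (-15264, 21024) (by decide +kernel)
          (CovZ.badM (by decide +kernel))
          (CovZ.badM (by decide +kernel)))))))
     (CovZ.n1 (-14976, 20352) (by decide +kernel)
      (CovZ.n2 (-15360, 20352) (by decide +kernel)
       (CovZ.n2 (-15168, 20544) (by decide +kernel)
        (CovZ.n2 (-15168, 20352) (by decide +kernel)
         (CovZ.n2 (-15264, 20448) (by decide +kernel)
          (CovZ.badM (by decide +kernel))
          (CovZ.n1 (-15264, 20352) (by decide +kernel)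
           (CovZ.leaf K2_ok TB_l35617 _)
           (CovZ.badM (by decide +kernel))))
         (CovZ.badM (by decide +kernel)))
        (CovZ.n1 (-15360, 20544) (by decide +kernel)
         (CovZ.n2 (-15264, 20640) (by decide +kernel)
          (CovZ.n2 (-15264, 20544) (by decide +kernel)
           (CovZ.leaf K2_ok TB_l35618 _)
           (CovZ.badM (by decide +kernel)))
          (CovZ.n1 (-15360, 20640) (by decide +kernel)
           (CovZ.leaf K2_ok TB_l35619 _)
           (CovZ.leaf K2_ok TB_l35620 _)))
         (CovZ.n1 (-15264, 20448) (by decide +kernel)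
          (CovZ.n2 (-15360, 20448) (by decide +kernel)
           (CovZ.leaf K2_ok TB_l35621 _)
           (CovZ.leaf K2_ok TB_l35622 _))
          (CovZ.n1 (-15264, 20544) (by decide +kernel)
           (CovZ.badM (by decide +kernel))
           (CovZ.leaf K2_ok TB_l35623 _)))))
       (CovZ.n1 (-15168, 20160) (by decide +kernel)
        (CovZ.n2 (-15360, 20160) (by decide +kernel)
         (CovZ.n2 (-15264, 20256) (by decide +kernel)
          (CovZ.n2 (-15264, 20160) (by decide +kernel)
           (CovZ.leaf K2_ok TB_l35624 _)
           (CovZ.badM (by decide +kernel)))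
          (CovZ.n1 (-15360, 20256) (by decide +kernel)
           (CovZ.leaf K2_ok TB_l35625 _)
           (CovZ.leaf K2_ok TB_l35626 _)))
         (CovZ.n1 (-15264, 20064) (by decide +kernel)
          (CovZ.n2 (-15360, 20064) (by decide +kernel)
           (CovZ.leaf K2_ok TB_l35627 _)
           (CovZ.leaf K2_ok TB_l35628 _))
          (CovZ.n1 (-15264, 20160) (by decide +kernel)
           (CovZ.badM (by decide +kernel))
           (CovZ.leaf K2_ok TB_l35629 _))))
        (CovZ.n1 (-15168, 20352) (by decide +kernel)
         (CovZ.badM (by decide +kernel))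
         (CovZ.n1 (-15264, 20256) (by decide +kernel)
          (CovZ.n2 (-15264, 20352) (by decide +kernel)
           (CovZ.badM (by decide +kernel))
           (CovZ.leaf K2_ok TB_l35630 _))
          (CovZ.badM (by decide +kernel))))))
      (CovZ.n1 (-14976, 20736) (by decide +kernel)
       (CovZ.badM (by decide +kernel))
       (CovZ.n1 (-15168, 20544) (by decide +kernel)
        (CovZ.n2 (-15168, 20736) (by decide +kernel)
         (CovZ.badM (by decide +kernel))
         (CovZ.n1 (-15264, 20640) (by decide +kernel)
          (CovZ.n2 (-15264, 20736) (by decide +kernel)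
           (CovZ.badM (by decide +kernel))
           (CovZ.n1 (-15312, 20688) (by decide +kernel)
            (CovZ.leaf K2_ok TB_l35631 _)
            (CovZ.badM (by decide +kernel))))
          (CovZ.badM (by decide +kernel))))
        (CovZ.badM (by decide +kernel))))))
    (CovZ.n1 (-14592, 21504) (by decide +kernel)
     (CovZ.badM (by decide +kernel))
     (CovZ.n1 (-14976, 21120) (by decide +kernel)
      (CovZ.n2 (-14976, 21504) (by decide +kernel)
       (CovZ.badM (by decide +kernel))
       (CovZ.n1 (-15168, 21312) (by decide +kernel)
        (CovZ.badM (by decide +kernel))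
        (CovZ.badM (by decide +kernel))))
      (CovZ.badM (by decide +kernel))))))

theorem TB_s12_16 : SqZ TB_M TB_L [0, 7, 6, 1] (-32256) (-4608) 1536 12 16 :=
  SqZ.mk (a := (-13824)) (b := (-12288)) (c := 19968) (d := 21504) (by norm_num) (by norm_num) (by norm_num) (by norm_num)
    (CovZ.topM TB_LL 0 (by decide +kernel) (CovZ.badM (by decide +kernel)))
    (CovZ.topM TB_LL 0 (by decide +kernel) (CovZ.badM (by decide +kernel)))

theorem TB_s0_17 : SqZ TB_M TB_L [0, 7, 6, 1] (-32256) (-4608) 1536 0 17 :=
  SqZ.mk (a := (-32256)) (b := (-30720)) (c := 21504) (d := 23040) (by norm_num) (by norm_num) (by norm_num) (by norm_num)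
    (CovZ.topM TB_LL 2353129859973906143154175441529284225823720636258563057311064562201646888730119284886260675824942078871207936 (by decide +kernel) (CovZ.leaf K2_ok TB_l1845 _))
    (CovZ.topM TB_LL 2353129859973906143154175441529284225823720636258563057311064562201646888730119284886260675824942078871207936 (by decide +kernel) (CovZ.leaf K2_ok TB_l1846 _))

theorem TB_s1_17 : SqZ TB_M TB_L [0, 7, 6, 1] (-32256) (-4608) 1536 1 17 :=
  SqZ.mk (a := (-30720)) (b := (-29184)) (c := 21504) (d := 23040) (by norm_num) (by norm_num) (by norm_num) (by norm_num)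
    (CovZ.topM TB_LL 5043456795491623199145623275972558008579490852443297809755944613054516948958865054560048546623859907511181296595369984 (by decide +kernel) (CovZ.leaf K2_ok TB_l4989 _))
    (CovZ.topM TB_LL 5043456795491623199145623275972558008579490852443297809755944613054516948958865054560048546623859907511181296595369984 (by decide +kernel) (CovZ.leaf K2_ok TB_l4990 _))

theorem TB_s2_17 : SqZ TB_M TB_L [0, 7, 6, 1] (-32256) (-4608) 1536 2 17 :=
  SqZ.mk (a := (-29184)) (b := (-27648)) (c := 21504) (d := 23040) (by norm_num) (by norm_num) (by norm_num) (by norm_num)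
    (CovZ.topM TB_LL 5043456793138493339171717132834328964652041523698219635926264656343733324316518645163976051077084924416754786808102912 (by decide +kernel) (CovZ.leaf K2_ok TB_l8280 _))
    (CovZ.topM TB_LL 5043456793138493339171717132834328964652041523698219635926264656343733324316518645163976051077084924416754786808102912 (by decide +kernel) (CovZ.leaf K2_ok TB_l8281 _))

theorem TB_s3_17 : SqZ TB_M TB_L [0, 7, 6, 1] (-32256) (-4608) 1536 3 17 :=
  SqZ.mk (a := (-27648)) (b := (-26112)) (c := 21504) (d := 23040) (by norm_num) (by norm_num) (by norm_num) (by norm_num)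
    (CovZ.topM TB_LL 5043456793138493409163740325890678490535391066932433103450881491608005896667886977445133152830331249669272369090527360 (by decide +kernel) (CovZ.leaf K2_ok TB_l11613 _))
    (CovZ.topM TB_LL 5043456793138493409163740325890678490535391066932433103450881491608005896667886977445133152830331249669272369090527360 (by decide +kernel) (CovZ.leaf K2_ok TB_l11614 _))

theorem TB_s4_17 : SqZ TB_M TB_L [0, 7, 6, 1] (-32256) (-4608) 1536 4 17 :=
  SqZ.mk (a := (-26112)) (b := (-24576)) (c := 21504) (d := 23040) (by norm_num) (by norm_num) (by norm_num) (by norm_num)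
    (CovZ.topM TB_LL 631663411835949099859883151205914022257904644374446960892027670799798706760137269538072325248303414314334467127509124 (by decide +kernel) (CovZ.leaf K2_ok TB_l13830 _))
    (CovZ.topM TB_LL 631663411835949099859883151205914022257904644374446960892027670799798706760137269538072325248303414314334467127509124 (by decide +kernel) (CovZ.leaf K2_ok TB_l13831 _))

theorem TB_s5_17 : SqZ TB_M TB_L [0, 7, 6, 1] (-32256) (-4608) 1536 5 17 :=
  SqZ.mk (a := (-24576)) (b := (-23040)) (c := 21504) (d := 23040) (by norm_num) (by norm_num) (by norm_num) (by norm_num)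
    (CovZ.topM TB_LL 631665816743553873388612858716202337208920867230133003189890455038836481108284638392599043323296923625148370437537924 (by decide +kernel) (CovZ.n2 (-23808, 22272) (by decide +kernel)
    (CovZ.leaf K2_ok TB_l15575 _)
    (CovZ.leaf K2_ok TB_l15576 _)))
    (CovZ.topM TB_LL 631665816743553873388612858716202337208920867230133003189890455038836481108284638392599043323296923625148370437537924 (by decide +kernel) (CovZ.n0 (-23808, 22272) (by decide +kernel)
    (CovZ.leaf K2_ok TB_l15577 _)
    (CovZ.leaf K2_ok TB_l15578 _)))

theorem TB_s6_17 : SqZ TB_M TB_L [0, 7, 6, 1] (-32256) (-4608) 1536 6 17 :=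
  SqZ.mk (a := (-23040)) (b := (-21504)) (c := 21504) (d := 23040) (by norm_num) (by norm_num) (by norm_num) (by norm_num)
    (CovZ.topM TB_LL 631665816743553873402847209822769027054881441568903534078610040645603795480090078617502485370921510588708285885743236 (by decide +kernel) (CovZ.n2 (-22272, 22272) (by decide +kernel)
    (CovZ.leaf K2_ok TB_l18638 _)
    (CovZ.n1 (-22272, 21504) (by decide +kernel)
     (CovZ.leaf K2_ok TB_l18639 _)
     (CovZ.leaf K2_ok TB_l18640 _))))
    (CovZ.topM TB_LL 631665816743553873402847209822769027054881441568903534078610040645603795480090078617502485370921510588708285885743236 (by decide +kernel) (CovZ.n0 (-22272, 22272) (by decide +kernel)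
    (CovZ.leaf K2_ok TB_l18641 _)
    (CovZ.leaf K2_ok TB_l18642 _)))

theorem TB_s7_17 : SqZ TB_M TB_L [0, 7, 6, 1] (-32256) (-4608) 1536 7 17 :=
  SqZ.mk (a := (-21504)) (b := (-19968)) (c := 21504) (d := 23040) (by norm_num) (by norm_num) (by norm_num) (by norm_num)
    (CovZ.topM TB_LL 1233717601242206000692295627890642068039993763482241312041122642761306902736774613990192913423535534454167792943104 (by decide +kernel) (CovZ.n2 (-20736, 22272) (by decide +kernel)
    (CovZ.n2 (-19968, 22272) (by decide +kernel)
     (CovZ.n2 (-20352, 21888) (by decide +kernel)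
      (CovZ.leaf K2_ok TB_l19552 _)
      (CovZ.leaf K2_ok TB_l19553 _))
     (CovZ.n1 (-20352, 22656) (by decide +kernel)
      (CovZ.n2 (-19968, 22656) (by decide +kernel)
       (CovZ.leaf K2_ok TB_l19554 _)
       (CovZ.leaf K2_ok TB_l19555 _))
      (CovZ.leaf K2_ok TB_l19556 _)))
    (CovZ.n1 (-20736, 21504) (by decide +kernel)
     (CovZ.leaf K2_ok TB_l19557 _)
     (CovZ.n1 (-20352, 21888) (by decide +kernel)
      (CovZ.leaf K2_ok TB_l19558 _)
      (CovZ.leaf K2_ok TB_l19559 _)))))
    (CovZ.topM TB_LL 1233717601242206000692295627890642068039993763482241312041122642761306902736774613990192913423535570482964811907072 (by decide +kernel) (CovZ.n0 (-20736, 22272) (by decide +kernel)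
    (CovZ.n2 (-21504, 22272) (by decide +kernel)
     (CovZ.leaf K2_ok TB_l19560 _)
     (CovZ.leaf K2_ok TB_l19561 _))
    (CovZ.n1 (-20736, 23040) (by decide +kernel)
     (CovZ.n2 (-20352, 22656) (by decide +kernel)
      (CovZ.leaf K2_ok TB_l19562 _)
      (CovZ.n1 (-20352, 23040) (by decide +kernel)
       (CovZ.leaf K2_ok TB_l19563 _)
       (CovZ.leaf K2_ok TB_l19564 _)))
     (CovZ.leaf K2_ok TB_l19565 _))))

theorem TB_s8_17 : SqZ TB_M TB_L [0, 7, 6, 1] (-32256) (-4608) 1536 8 17 :=
  SqZ.mk (a := (-19968)) (b := (-18432)) (c := 21504) (d := 23040) (by norm_num) (by norm_num) (by norm_num) (by norm_num)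
    (CovZ.topM TB_LL 1233792754604771639284098193133003196361593518373966975222425968822184489556953304590912571903040969011321618202625 (by decide +kernel) (CovZ.n2 (-19200, 22272) (by decide +kernel)
    (CovZ.subM 2404907604795401237085726624418006167975644114677127275974048270623813551038852962989487133813117929093242978304 (by decide +kernel)
     (CovZ.n2 (-18432, 22272) (by decide +kernel)
      (CovZ.n2 (-18816, 21888) (by decide +kernel)
       (CovZ.n2 (-18816, 22272) (by decide +kernel)
        (CovZ.n2 (-18624, 22080) (by decide +kernel)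
         (CovZ.leaf K2_ok TB_l20360 _)
         (CovZ.n1 (-18624, 22272) (by decide +kernel)
          (CovZ.leaf K2_ok TB_l20361 _)
          (CovZ.leaf K2_ok TB_l20362 _)))
        (CovZ.n1 (-19008, 22080) (by decide +kernel)
         (CovZ.leaf K2_ok TB_l20363 _)
         (CovZ.leaf K2_ok TB_l20364 _)))
       (CovZ.n1 (-18432, 21888) (by decide +kernel)
        (CovZ.n2 (-18624, 21696) (by decide +kernel)
         (CovZ.n2 (-18624, 21888) (by decide +kernel)
          (CovZ.leaf K2_ok TB_l20365 _)
          (CovZ.leaf K2_ok TB_l20366 _))
         (CovZ.n1 (-18432, 21696) (by decide +kernel)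
          (CovZ.leaf K2_ok TB_l20367 _)
          (CovZ.leaf K2_ok TB_l20368 _)))
        (CovZ.n1 (-18624, 22080) (by decide +kernel)
         (CovZ.n2 (-18432, 22080) (by decide +kernel)
          (CovZ.leaf K2_ok TB_l20369 _)
          (CovZ.leaf K2_ok TB_l20370 _))
         (CovZ.n1 (-18624, 21888) (by decide +kernel)
          (CovZ.leaf K2_ok TB_l20371 _)
          (CovZ.leaf K2_ok TB_l20372 _)))))
      (CovZ.n1 (-18816, 22656) (by decide +kernel)
       (CovZ.n2 (-18432, 22656) (by decide +kernel)
        (CovZ.n2 (-18624, 22464) (by decide +kernel)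
         (CovZ.n2 (-18624, 22656) (by decide +kernel)
          (CovZ.leaf K2_ok TB_l20373 _)
          (CovZ.leaf K2_ok TB_l20374 _))
         (CovZ.n1 (-18432, 22464) (by decide +kernel)
          (CovZ.leaf K2_ok TB_l20375 _)
          (CovZ.leaf K2_ok TB_l20376 _)))
        (CovZ.n1 (-18624, 22848) (by decide +kernel)
         (CovZ.n2 (-18432, 22848) (by decide +kernel)
          (CovZ.leaf K2_ok TB_l20377 _)
          (CovZ.leaf K2_ok TB_l20378 _))
         (CovZ.n1 (-18624, 22656) (by decide +kernel)
          (CovZ.leaf K2_ok TB_l20379 _)
          (CovZ.leaf K2_ok TB_l20380 _))))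
       (CovZ.n1 (-18816, 22272) (by decide +kernel)
        (CovZ.n2 (-19008, 22464) (by decide +kernel)
         (CovZ.leaf K2_ok TB_l20381 _)
         (CovZ.leaf K2_ok TB_l20382 _))
        (CovZ.n1 (-18624, 22464) (by decide +kernel)
         (CovZ.n2 (-18624, 22272) (by decide +kernel)
          (CovZ.leaf K2_ok TB_l20383 _)
          (CovZ.leaf K2_ok TB_l20384 _))
         (CovZ.leaf K2_ok TB_l20385 _))))))
    (CovZ.n1 (-19200, 21504) (by decide +kernel)
     (CovZ.n2 (-19584, 21888) (by decide +kernel)
      (CovZ.n2 (-19200, 21888) (by decide +kernel)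
       (CovZ.n2 (-19392, 21696) (by decide +kernel)
        (CovZ.leaf K2_ok TB_l20386 _)
        (CovZ.leaf K2_ok TB_l20387 _))
       (CovZ.leaf K2_ok TB_l20388 _))
      (CovZ.n1 (-19584, 21504) (by decide +kernel)
       (CovZ.leaf K2_ok TB_l20389 _)
       (CovZ.n1 (-19392, 21696) (by decide +kernel)
        (CovZ.leaf K2_ok TB_l20390 _)
        (CovZ.leaf K2_ok TB_l20391 _))))
     (CovZ.subM 2404907604795401237085726624418006167975644330356700613179166627959934247195898352086642514137697777922124972032 (by decide +kernel)
      (CovZ.n1 (-18816, 21888) (by decide +kernel)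
       (CovZ.n2 (-18816, 21504) (by decide +kernel)
        (CovZ.n2 (-19008, 21696) (by decide +kernel)
         (CovZ.leaf K2_ok TB_l20392 _)
         (CovZ.leaf K2_ok TB_l20393 _))
        (CovZ.n1 (-18624, 21696) (by decide +kernel)
         (CovZ.n2 (-18624, 21504) (by decide +kernel)
          (CovZ.leaf K2_ok TB_l20394 _)
          (CovZ.leaf K2_ok TB_l20395 _))
         (CovZ.leaf K2_ok TB_l20396 _)))
       (CovZ.n1 (-19200, 21888) (by decide +kernel)
        (CovZ.n2 (-19008, 22080) (by decide +kernel)
         (CovZ.leaf K2_ok TB_l20397 _)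
         (CovZ.leaf K2_ok TB_l20398 _))
        (CovZ.n1 (-19008, 21696) (by decide +kernel)
         (CovZ.leaf K2_ok TB_l20399 _)
         (CovZ.leaf K2_ok TB_l20400 _))))))))
    (CovZ.topM TB_LL 1233792754604771639284098193133003196361593518373966975222425968822184489556953304590912571903040969011321618202625 (by decide +kernel) (CovZ.n0 (-19200, 22272) (by decide +kernel)
    (CovZ.n2 (-19968, 22272) (by decide +kernel)
     (CovZ.n2 (-19584, 22656) (by decide +kernel)
      (CovZ.n2 (-19584, 22272) (by decide +kernel)
       (CovZ.leaf K2_ok TB_l20401 _)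
       (CovZ.leaf K2_ok TB_l20402 _))
      (CovZ.n1 (-19968, 22656) (by decide +kernel)
       (CovZ.leaf K2_ok TB_l20403 _)
       (CovZ.leaf K2_ok TB_l20404 _)))
     (CovZ.n1 (-19584, 21888) (by decide +kernel)
      (CovZ.n2 (-19968, 21888) (by decide +kernel)
       (CovZ.leaf K2_ok TB_l20405 _)
       (CovZ.leaf K2_ok TB_l20406 _))
      (CovZ.n1 (-19584, 22272) (by decide +kernel)
       (CovZ.leaf K2_ok TB_l20407 _)
       (CovZ.leaf K2_ok TB_l20408 _))))
    (CovZ.n1 (-19200, 23040) (by decide +kernel)
     (CovZ.subM 2404907604795401237085726624418002462628788412719087053099968813942701898320820967942860181008139751458653372417 (by decide +kernel)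
      (CovZ.n2 (-18816, 22656) (by decide +kernel)
       (CovZ.n2 (-19200, 22656) (by decide +kernel)
        (CovZ.n2 (-19008, 22848) (by decide +kernel)
         (CovZ.leaf K2_ok TB_l20409 _)
         (CovZ.leaf K2_ok TB_l20410 _))
        (CovZ.n1 (-19008, 22464) (by decide +kernel)
         (CovZ.leaf K2_ok TB_l20411 _)
         (CovZ.leaf K2_ok TB_l20412 _)))
       (CovZ.n1 (-18816, 23040) (by decide +kernel)
        (CovZ.n2 (-18624, 22848) (by decide +kernel)
         (CovZ.leaf K2_ok TB_l20413 _)
         (CovZ.n1 (-18624, 23040) (by decide +kernel)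
          (CovZ.leaf K2_ok TB_l20414 _)
          (CovZ.leaf K2_ok TB_l20415 _)))
        (CovZ.n1 (-19008, 22848) (by decide +kernel)
         (CovZ.leaf K2_ok TB_l20416 _)
         (CovZ.leaf K2_ok TB_l20417 _)))))
     (CovZ.subM 1233717601242122876620805729753875579669929613598031178834190020214161938912414370056557772568593955659374439464960 (by decide +kernel)
      (CovZ.n1 (-19584, 22656) (by decide +kernel)
       (CovZ.n2 (-19584, 23040) (by decide +kernel)
        (CovZ.leaf K2_ok TB_l20418 _)
        (CovZ.leaf K2_ok TB_l20419 _))
       (CovZ.n1 (-19200, 22656) (by decide +kernel)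
        (CovZ.leaf K2_ok TB_l20420 _)
        (CovZ.leaf K2_ok TB_l20421 _)))))))

theorem TB_s9_17 : SqZ TB_M TB_L [0, 7, 6, 1] (-32256) (-4608) 1536 9 17 :=
  SqZ.mk (a := (-18432)) (b := (-16896)) (c := 21504) (d := 23040) (by norm_num) (by norm_num) (by norm_num) (by norm_num)
    (CovZ.topM TB_LL 2705521055390451890255580140807041423272262430019782239077962348043029889152464380367623549803482732553373384704 (by decide +kernel) (CovZ.n2 (-17664, 22272) (by decide +kernel)
    (CovZ.subM 2705521055355455878659051949986723365058408532166779289444489000774910446601698791673682973867173955608850235392 (by decide +kernel)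
     (CovZ.n2 (-16896, 22272) (by decide +kernel)
      TB_u446
      TB_u447))
    (CovZ.n1 (-17664, 21504) (by decide +kernel)
     (CovZ.n2 (-18048, 21888) (by decide +kernel)
      (CovZ.n2 (-17664, 21888) (by decide +kernel)
       (CovZ.n2 (-17856, 21696) (by decide +kernel)
        (CovZ.subM 2404907604760405225489198433628042542786995708189631765776662423647797421888246385596234205694147548539412054016 (by decide +kernel)
         (CovZ.n2 (-17856, 21888) (by decide +kernel)
          (CovZ.n2 (-17760, 21792) (by decide +kernel)
           (CovZ.leaf K2_ok TB_l22911 _)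
           (CovZ.leaf K2_ok TB_l22912 _))
          (CovZ.n1 (-17952, 21792) (by decide +kernel)
           (CovZ.leaf K2_ok TB_l22913 _)
           (CovZ.leaf K2_ok TB_l22914 _))))
        (CovZ.n1 (-17664, 21696) (by decide +kernel)
         (CovZ.n2 (-17760, 21600) (by decide +kernel)
          (CovZ.leaf K2_ok TB_l22915 _)
          (CovZ.leaf K2_ok TB_l22916 _))
         (CovZ.n1 (-17760, 21792) (by decide +kernel)
          (CovZ.leaf K2_ok TB_l22917 _)
          (CovZ.leaf K2_ok TB_l22918 _))))
       (CovZ.subM 2404907604760405225489198433628042542786995708189631765776662423647797421888246385596234205694147548539412054016 (by decide +kernel)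
        (CovZ.n1 (-17856, 22080) (by decide +kernel)
         (CovZ.n2 (-17664, 22080) (by decide +kernel)
          (CovZ.n2 (-17760, 21984) (by decide +kernel)
           (CovZ.leaf K2_ok TB_l22919 _)
           (CovZ.leaf K2_ok TB_l22920 _))
          (CovZ.n1 (-17760, 22176) (by decide +kernel)
           (CovZ.leaf K2_ok TB_l22921 _)
           (CovZ.leaf K2_ok TB_l22922 _)))
         (CovZ.n1 (-17856, 21888) (by decide +kernel)
          (CovZ.leaf K2_ok TB_l22923 _)
          (CovZ.n1 (-17760, 21984) (by decide +kernel)
           (CovZ.leaf K2_ok TB_l22924 _)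
           (CovZ.leaf K2_ok TB_l22925 _))))))
      (CovZ.n1 (-18048, 21504) (by decide +kernel)
       (CovZ.n2 (-18240, 21696) (by decide +kernel)
        (CovZ.n2 (-18048, 21696) (by decide +kernel)
         (CovZ.leaf K2_ok TB_l22926 _)
         (CovZ.leaf K2_ok TB_l22927 _))
        (CovZ.n1 (-18240, 21504) (by decide +kernel)
         (CovZ.leaf K2_ok TB_l22928 _)
         (CovZ.leaf K2_ok TB_l22929 _)))
       (CovZ.n1 (-17856, 21696) (by decide +kernel)
        (CovZ.n2 (-17856, 21504) (by decide +kernel)
         (CovZ.n2 (-17952, 21600) (by decide +kernel)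
          (CovZ.leaf K2_ok TB_l22930 _)
          (CovZ.leaf K2_ok TB_l22931 _))
         (CovZ.n1 (-17760, 21600) (by decide +kernel)
          (CovZ.leaf K2_ok TB_l22932 _)
          (CovZ.leaf K2_ok TB_l22933 _)))
        (CovZ.n1 (-18048, 21696) (by decide +kernel)
         (CovZ.n2 (-17952, 21792) (by decide +kernel)
          (CovZ.leaf K2_ok TB_l22934 _)
          (CovZ.leaf K2_ok TB_l22935 _))
         (CovZ.n1 (-17952, 21600) (by decide +kernel)
          (CovZ.leaf K2_ok TB_l22936 _)
          (CovZ.leaf K2_ok TB_l22937 _))))))
     (CovZ.n1 (-17280, 21888) (by decide +kernel)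
      (CovZ.n2 (-17280, 21504) (by decide +kernel)
       (CovZ.n2 (-17472, 21696) (by decide +kernel)
        (CovZ.subM 2404907604760405225489198433628042542787437419955826361859058248022983151517203256570453110433677950089735208960 (by decide +kernel)
         (CovZ.n2 (-17280, 21696) (by decide +kernel)
          (CovZ.n2 (-17376, 21600) (by decide +kernel)
           (CovZ.n2 (-17376, 21696) (by decide +kernel)
            (CovZ.leaf K2_ok TB_l22938 _)
            (CovZ.leaf K2_ok TB_l22939 _))
           (CovZ.n1 (-17280, 21600) (by decide +kernel)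
            (CovZ.leaf K2_ok TB_l22940 _)
            (CovZ.leaf K2_ok TB_l22941 _)))
          (CovZ.n1 (-17376, 21792) (by decide +kernel)
           (CovZ.n2 (-17280, 21792) (by decide +kernel)
            (CovZ.leaf K2_ok TB_l22942 _)
            (CovZ.leaf K2_ok TB_l22943 _))
           (CovZ.n1 (-17376, 21696) (by decide +kernel)
            (CovZ.leaf K2_ok TB_l22944 _)
            (CovZ.leaf K2_ok TB_l22945 _)))))
        (CovZ.n1 (-17472, 21504) (by decide +kernel)
         (CovZ.n2 (-17568, 21600) (by decide +kernel)
          (CovZ.leaf K2_ok TB_l22946 _)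
          (CovZ.n1 (-17568, 21504) (by decide +kernel)
           (CovZ.leaf K2_ok TB_l22947 _)
           (CovZ.leaf K2_ok TB_l22948 _)))
         (CovZ.n1 (-17376, 21600) (by decide +kernel)
          (CovZ.n2 (-17376, 21504) (by decide +kernel)
           (CovZ.leaf K2_ok TB_l22949 _)
           (CovZ.leaf K2_ok TB_l22950 _))
          (CovZ.n1 (-17472, 21600) (by decide +kernel)
           (CovZ.leaf K2_ok TB_l22951 _)
           (CovZ.leaf K2_ok TB_l22952 _)))))
       (CovZ.n1 (-17088, 21696) (by decide +kernel)
        (CovZ.n2 (-17088, 21504) (by decide +kernel)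
         (CovZ.subM 2404907604760405225489198433628042542787437419955826361859058248022983151517203256570453110433677950089735208960 (by decide +kernel)
          (CovZ.n2 (-17184, 21600) (by decide +kernel)
           (CovZ.n2 (-17088, 21600) (by decide +kernel)
            (CovZ.n2 (-17136, 21552) (by decide +kernel)
             (CovZ.leaf K2_ok TB_l22953 _)
             (CovZ.leaf K2_ok TB_l22954 _))
            (CovZ.n1 (-17136, 21648) (by decide +kernel)
             (CovZ.leaf K2_ok TB_l22955 _)
             (CovZ.leaf K2_ok TB_l22956 _)))
           (CovZ.n1 (-17184, 21504) (by decide +kernel)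
            (CovZ.leaf K2_ok TB_l22957 _)
            (CovZ.n1 (-17136, 21552) (by decide +kernel)
             (CovZ.leaf K2_ok TB_l22958 _)
             (CovZ.leaf K2_ok TB_l22959 _)))))
         (CovZ.subM 2705521055355455878659051950017077682291524786216091305309591492379105906731873137333806563337462411499730403328 (by decide +kernel)
          (CovZ.n1 (-16992, 21600) (by decide +kernel)
           (CovZ.n2 (-16992, 21504) (by decide +kernel)
            (CovZ.n2 (-17040, 21552) (by decide +kernel)
             (CovZ.leaf K2_ok TB_l22960 _)
             (CovZ.leaf K2_ok TB_l22961 _))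
            (CovZ.n1 (-16944, 21552) (by decide +kernel)
             (CovZ.n2 (-16944, 21504) (by decide +kernel)
              (CovZ.leaf K2_ok TB_l22962 _)
              (CovZ.leaf K2_ok TB_l22963 _))
             (CovZ.leaf K2_ok TB_l22964 _)))
           (CovZ.n1 (-17088, 21600) (by decide +kernel)
            (CovZ.n2 (-17040, 21648) (by decide +kernel)
             (CovZ.leaf K2_ok TB_l22965 _)
             (CovZ.leaf K2_ok TB_l22966 _))
            (CovZ.n1 (-17040, 21552) (by decide +kernel)
             (CovZ.leaf K2_ok TB_l22967 _)
             (CovZ.leaf K2_ok TB_l22968 _))))))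
        (CovZ.subM 2404907604760405225489198433628042542787437419955826361859058248022983151517203256570453110433677950089735208960 (by decide +kernel)
         (CovZ.n1 (-17280, 21696) (by decide +kernel)
          (CovZ.n2 (-17184, 21792) (by decide +kernel)
           (CovZ.n2 (-17184, 21696) (by decide +kernel)
            (CovZ.leaf K2_ok TB_l22969 _)
            (CovZ.n1 (-17136, 21744) (by decide +kernel)
             (CovZ.leaf K2_ok TB_l22970 _)
             (CovZ.leaf K2_ok TB_l22971 _)))
           (CovZ.n1 (-17280, 21792) (by decide +kernel)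
            (CovZ.leaf K2_ok TB_l22972 _)
            (CovZ.leaf K2_ok TB_l22973 _)))
          (CovZ.n1 (-17184, 21600) (by decide +kernel)
           (CovZ.n2 (-17280, 21600) (by decide +kernel)
            (CovZ.leaf K2_ok TB_l22974 _)
            (CovZ.leaf K2_ok TB_l22975 _))
           (CovZ.n1 (-17184, 21696) (by decide +kernel)
            (CovZ.n2 (-17136, 21648) (by decide +kernel)
             (CovZ.leaf K2_ok TB_l22976 _)
             (CovZ.leaf K2_ok TB_l22977 _))
            (CovZ.leaf K2_ok TB_l22978 _)))))))
      (CovZ.n1 (-17664, 21888) (by decide +kernel)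
       (CovZ.subM 2404907604760405225489198433628042426995348182639630938288073239335075298247218590929889070976093941077093941248 (by decide +kernel)
        (CovZ.n2 (-17472, 22080) (by decide +kernel)
         (CovZ.n2 (-17472, 21888) (by decide +kernel)
          (CovZ.n2 (-17568, 21984) (by decide +kernel)
           (CovZ.leaf K2_ok TB_l22979 _)
           (CovZ.n1 (-17568, 21888) (by decide +kernel)
            (CovZ.leaf K2_ok TB_l22980 _)
            (CovZ.leaf K2_ok TB_l22981 _)))
          (CovZ.n1 (-17376, 21984) (by decide +kernel)
           (CovZ.n2 (-17376, 21888) (by decide +kernel)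
            (CovZ.leaf K2_ok TB_l22982 _)
            (CovZ.leaf K2_ok TB_l22983 _))
           (CovZ.n1 (-17472, 21984) (by decide +kernel)
            (CovZ.leaf K2_ok TB_l22984 _)
            (CovZ.leaf K2_ok TB_l22985 _))))
         (CovZ.n1 (-17664, 22080) (by decide +kernel)
          (CovZ.n2 (-17568, 22176) (by decide +kernel)
           (CovZ.n2 (-17568, 22080) (by decide +kernel)
            (CovZ.leaf K2_ok TB_l22986 _)
            (CovZ.leaf K2_ok TB_l22987 _))
           (CovZ.leaf K2_ok TB_l22988 _))
          (CovZ.n1 (-17568, 21984) (by decide +kernel)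
           (CovZ.leaf K2_ok TB_l22989 _)
           (CovZ.n1 (-17568, 22080) (by decide +kernel)
            (CovZ.leaf K2_ok TB_l22990 _)
            (CovZ.leaf K2_ok TB_l22991 _))))))
       (CovZ.n1 (-17472, 21696) (by decide +kernel)
        (CovZ.n2 (-17664, 21696) (by decide +kernel)
         (CovZ.n2 (-17568, 21792) (by decide +kernel)
          (CovZ.n2 (-17568, 21696) (by decide +kernel)
           (CovZ.leaf K2_ok TB_l22992 _)
           (CovZ.leaf K2_ok TB_l22993 _))
          (CovZ.leaf K2_ok TB_l22994 _))
         (CovZ.n1 (-17568, 21600) (by decide +kernel)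
          (CovZ.leaf K2_ok TB_l22995 _)
          (CovZ.n1 (-17568, 21696) (by decide +kernel)
           (CovZ.leaf K2_ok TB_l22996 _)
           (CovZ.leaf K2_ok TB_l22997 _))))
        (CovZ.subM 2404907604760405225489198433628042542787437419955826361859058248022983151517203256570453110433677948990223581184 (by decide +kernel)
         (CovZ.n1 (-17472, 21888) (by decide +kernel)
          (CovZ.n2 (-17376, 21792) (by decide +kernel)
           (CovZ.n2 (-17472, 21792) (by decide +kernel)
            (CovZ.leaf K2_ok TB_l22998 _)
            (CovZ.leaf K2_ok TB_l22999 _))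
           (CovZ.n1 (-17376, 21888) (by decide +kernel)
            (CovZ.leaf K2_ok TB_l23000 _)
            (CovZ.leaf K2_ok TB_l23001 _)))
          (CovZ.n1 (-17568, 21792) (by decide +kernel)
           (CovZ.n2 (-17568, 21888) (by decide +kernel)
            (CovZ.leaf K2_ok TB_l23002 _)
            (CovZ.leaf K2_ok TB_l23003 _))
           (CovZ.leaf K2_ok TB_l23004 _))))))))))
    (CovZ.topM TB_LL 2705521055390451890255580140807041423272262430019782239077962348043029889152464380367623549803482732553373384704 (by decide +kernel) (CovZ.n0 (-17664, 22272) (by decide +kernel)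
    (CovZ.n2 (-18432, 22272) (by decide +kernel)
     (CovZ.subM 2404907604795401237085726624418002578420877650035282476670953822630609751590805633583424220465723758272271384576 (by decide +kernel)
      (CovZ.n2 (-18048, 22656) (by decide +kernel)
       (CovZ.n2 (-18048, 22272) (by decide +kernel)
        (CovZ.n2 (-18240, 22464) (by decide +kernel)
         (CovZ.n2 (-18048, 22464) (by decide +kernel)
          (CovZ.leaf K2_ok TB_l23005 _)
          (CovZ.leaf K2_ok TB_l23006 _))
         (CovZ.n1 (-18240, 22272) (by decide +kernel)
          (CovZ.leaf K2_ok TB_l23007 _)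
          (CovZ.leaf K2_ok TB_l23008 _)))
        (CovZ.n1 (-17856, 22464) (by decide +kernel)
         (CovZ.n2 (-17856, 22272) (by decide +kernel)
          (CovZ.leaf K2_ok TB_l23009 _)
          (CovZ.n1 (-17760, 22368) (by decide +kernel)
           (CovZ.leaf K2_ok TB_l23010 _)
           (CovZ.leaf K2_ok TB_l23011 _)))
         (CovZ.n1 (-18048, 22464) (by decide +kernel)
          (CovZ.leaf K2_ok TB_l23012 _)
          (CovZ.leaf K2_ok TB_l23013 _))))
       (CovZ.n1 (-18432, 22656) (by decide +kernel)
        (CovZ.n2 (-18240, 22848) (by decide +kernel)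
         (CovZ.n2 (-18240, 22656) (by decide +kernel)
          (CovZ.leaf K2_ok TB_l23014 _)
          (CovZ.leaf K2_ok TB_l23015 _))
         (CovZ.n1 (-18432, 22848) (by decide +kernel)
          (CovZ.leaf K2_ok TB_l23016 _)
          (CovZ.leaf K2_ok TB_l23017 _)))
        (CovZ.n1 (-18240, 22464) (by decide +kernel)
         (CovZ.n2 (-18432, 22464) (by decide +kernel)
          (CovZ.leaf K2_ok TB_l23018 _)
          (CovZ.leaf K2_ok TB_l23019 _))
         (CovZ.n1 (-18240, 22656) (by decide +kernel)
          (CovZ.leaf K2_ok TB_l23020 _)
          (CovZ.leaf K2_ok TB_l23021 _))))))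
     (CovZ.n1 (-18048, 21888) (by decide +kernel)
      (CovZ.n2 (-18432, 21888) (by decide +kernel)
       (CovZ.subM 2404907604795401237085726624418002462628788412719087053099968813942701898320820967942860181008139751458653372416 (by decide +kernel)
        (CovZ.n2 (-18240, 22080) (by decide +kernel)
         (CovZ.n2 (-18240, 21888) (by decide +kernel)
          (CovZ.leaf K2_ok TB_l23022 _)
          (CovZ.leaf K2_ok TB_l23023 _))
         (CovZ.n1 (-18432, 22080) (by decide +kernel)
          (CovZ.leaf K2_ok TB_l23024 _)
          (CovZ.leaf K2_ok TB_l23025 _))))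
       (CovZ.n1 (-18240, 21696) (by decide +kernel)
        (CovZ.n2 (-18432, 21696) (by decide +kernel)
         (CovZ.leaf K2_ok TB_l23026 _)
         (CovZ.leaf K2_ok TB_l23027 _))
        (CovZ.n1 (-18240, 21888) (by decide +kernel)
         (CovZ.leaf K2_ok TB_l23028 _)
         (CovZ.leaf K2_ok TB_l23029 _))))
      (CovZ.n1 (-18048, 22272) (by decide +kernel)
       (CovZ.subM 2404907604760405225489198433628042542786995708189631765776662423647797421888246385596234205694147548539412054016 (by decide +kernel)
        (CovZ.n2 (-17856, 22080) (by decide +kernel)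
         (CovZ.n2 (-18048, 22080) (by decide +kernel)
          (CovZ.leaf K2_ok TB_l23030 _)
          (CovZ.leaf K2_ok TB_l23031 _))
         (CovZ.n1 (-17856, 22272) (by decide +kernel)
          (CovZ.n2 (-17760, 22176) (by decide +kernel)
           (CovZ.leaf K2_ok TB_l23032 _)
           (CovZ.leaf K2_ok TB_l23033 _))
          (CovZ.leaf K2_ok TB_l23034 _))))
       (CovZ.subM 2404907604795401237085726624418002462628788412719087053099968813942701898320820967942860181008139751458653372416 (by decide +kernel)
        (CovZ.n1 (-18240, 22080) (by decide +kernel)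
         (CovZ.n2 (-18240, 22272) (by decide +kernel)
          (CovZ.leaf K2_ok TB_l23035 _)
          (CovZ.leaf K2_ok TB_l23036 _))
         (CovZ.n1 (-18048, 22080) (by decide +kernel)
          (CovZ.leaf K2_ok TB_l23037 _)
          (CovZ.leaf K2_ok TB_l23038 _)))))))
    (CovZ.subM 2705521055390451890255580140776683400692290474012430000338780399757722776304258039660872988638750166441221193728 (by decide +kernel)
     (CovZ.n1 (-17664, 23040) (by decide +kernel)
      (CovZ.n2 (-17280, 22656) (by decide +kernel)
       (CovZ.n2 (-17664, 22656) (by decide +kernel)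
        (CovZ.subM 2404907604760405225489198433597688225554321165906514345993955756418787691387028910910329483184457630142181703680 (by decide +kernel)
         (CovZ.n2 (-17472, 22848) (by decide +kernel)
          (CovZ.n2 (-17472, 22656) (by decide +kernel)
           (CovZ.n2 (-17568, 22752) (by decide +kernel)
            (CovZ.leaf K2_ok TB_l23039 _)
            (CovZ.n1 (-17568, 22656) (by decide +kernel)
             (CovZ.leaf K2_ok TB_l23040 _)
             (CovZ.leaf K2_ok TB_l23041 _)))
           (CovZ.n1 (-17376, 22752) (by decide +kernel)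
            (CovZ.n2 (-17376, 22656) (by decide +kernel)
             (CovZ.leaf K2_ok TB_l23042 _)
             (CovZ.leaf K2_ok TB_l23043 _))
            (CovZ.leaf K2_ok TB_l23044 _)))
          (CovZ.n1 (-17664, 22848) (by decide +kernel)
           (CovZ.n2 (-17568, 22944) (by decide +kernel)
            (CovZ.n2 (-17568, 22848) (by decide +kernel)
             (CovZ.leaf K2_ok TB_l23045 _)
             (CovZ.leaf K2_ok TB_l23046 _))
            (CovZ.leaf K2_ok TB_l23047 _))
           (CovZ.n1 (-17568, 22752) (by decide +kernel)
            (CovZ.leaf K2_ok TB_l23048 _)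
            (CovZ.leaf K2_ok TB_l23049 _)))))
        (CovZ.n1 (-17472, 22464) (by decide +kernel)
         (CovZ.subM 2404907604760405225489198433597688225553879454140319749911559932043601961758072039936110597334393160070439403520 (by decide +kernel)
          (CovZ.n2 (-17664, 22464) (by decide +kernel)
           (CovZ.n2 (-17568, 22560) (by decide +kernel)
            (CovZ.n2 (-17568, 22464) (by decide +kernel)
             (CovZ.leaf K2_ok TB_l23050 _)
             (CovZ.leaf K2_ok TB_l23051 _))
            (CovZ.leaf K2_ok TB_l23052 _))
           (CovZ.n1 (-17568, 22368) (by decide +kernel)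
            (CovZ.leaf K2_ok TB_l23053 _)
            (CovZ.n1 (-17568, 22464) (by decide +kernel)
             (CovZ.leaf K2_ok TB_l23054 _)
             (CovZ.leaf K2_ok TB_l23055 _)))))
         (CovZ.subM 2404907604760405225489198433597688225554321165906514345993955756418787691387028910910329483184457630142181703680 (by decide +kernel)
          (CovZ.n1 (-17472, 22656) (by decide +kernel)
           (CovZ.n2 (-17376, 22560) (by decide +kernel)
            (CovZ.leaf K2_ok TB_l23056 _)
            (CovZ.n1 (-17376, 22656) (by decide +kernel)
             (CovZ.leaf K2_ok TB_l23057 _)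
             (CovZ.leaf K2_ok TB_l23058 _)))
           (CovZ.n1 (-17568, 22560) (by decide +kernel)
            (CovZ.n2 (-17568, 22656) (by decide +kernel)
             (CovZ.leaf K2_ok TB_l23059 _)
             (CovZ.leaf K2_ok TB_l23060 _))
            (CovZ.leaf K2_ok TB_l23061 _))))))
       (CovZ.subM 2404907604760405225489198433597688225554321165906514345993955756418787691387028910910329483184457630142181703680 (by decide +kernel)
        (CovZ.n1 (-17280, 23040) (by decide +kernel)
         (CovZ.n2 (-17088, 22848) (by decide +kernel)
          (CovZ.n2 (-17280, 22848) (by decide +kernel)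
           (CovZ.n2 (-17184, 22944) (by decide +kernel)
            (CovZ.n2 (-17184, 22848) (by decide +kernel)
             (CovZ.leaf K2_ok TB_l23062 _)
             (CovZ.leaf K2_ok TB_l23063 _))
            (CovZ.n1 (-17280, 22944) (by decide +kernel)
             (CovZ.leaf K2_ok TB_l23064 _)
             (CovZ.leaf K2_ok TB_l23065 _)))
           (CovZ.n1 (-17184, 22752) (by decide +kernel)
            (CovZ.n2 (-17280, 22752) (by decide +kernel)
             (CovZ.leaf K2_ok TB_l23066 _)
             (CovZ.leaf K2_ok TB_l23067 _))
            (CovZ.n1 (-17184, 22848) (by decide +kernel)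
             (CovZ.leaf K2_ok TB_l23068 _)
             (CovZ.leaf K2_ok TB_l23069 _))))
          (CovZ.n1 (-17088, 23040) (by decide +kernel)
           (CovZ.n2 (-16992, 22944) (by decide +kernel)
            (CovZ.n2 (-17088, 22944) (by decide +kernel)
             (CovZ.n2 (-17040, 22992) (by decide +kernel)
              (CovZ.leaf K2_ok TB_l23070 _)
              (CovZ.leaf K2_ok TB_l23071 _))
             (CovZ.n1 (-17040, 22896) (by decide +kernel)
              (CovZ.leaf K2_ok TB_l23072 _)
              (CovZ.leaf K2_ok TB_l23073 _)))
            (CovZ.n1 (-16992, 23040) (by decide +kernel)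
             (CovZ.n2 (-16944, 22992) (by decide +kernel)
              (CovZ.leaf K2_ok TB_l23074 _)
              (CovZ.leaf K2_ok TB_l23075 _))
             (CovZ.n1 (-17040, 22992) (by decide +kernel)
              (CovZ.leaf K2_ok TB_l23076 _)
              (CovZ.leaf K2_ok TB_l23077 _))))
           (CovZ.n1 (-17184, 22944) (by decide +kernel)
            (CovZ.n2 (-17184, 23040) (by decide +kernel)
             (CovZ.leaf K2_ok TB_l23078 _)
             (CovZ.leaf K2_ok TB_l23079 _))
            (CovZ.n1 (-17088, 22944) (by decide +kernel)
             (CovZ.leaf K2_ok TB_l23080 _)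
             (CovZ.leaf K2_ok TB_l23081 _)))))
         (CovZ.n1 (-17472, 22848) (by decide +kernel)
          (CovZ.n2 (-17472, 23040) (by decide +kernel)
           (CovZ.n2 (-17376, 22944) (by decide +kernel)
            (CovZ.leaf K2_ok TB_l23082 _)
            (CovZ.n1 (-17376, 23040) (by decide +kernel)
             (CovZ.leaf K2_ok TB_l23083 _)
             (CovZ.leaf K2_ok TB_l23084 _)))
           (CovZ.n1 (-17568, 22944) (by decide +kernel)
            (CovZ.leaf K2_ok TB_l23085 _)
            (CovZ.leaf K2_ok TB_l23086 _)))
          (CovZ.n1 (-17280, 22848) (by decide +kernel)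
           (CovZ.n2 (-17376, 22752) (by decide +kernel)
            (CovZ.n2 (-17376, 22848) (by decide +kernel)
             (CovZ.leaf K2_ok TB_l23087 _)
             (CovZ.leaf K2_ok TB_l23088 _))
            (CovZ.n1 (-17280, 22752) (by decide +kernel)
             (CovZ.leaf K2_ok TB_l23089 _)
             (CovZ.leaf K2_ok TB_l23090 _)))
           (CovZ.n1 (-17376, 22944) (by decide +kernel)
            (CovZ.n2 (-17280, 22944) (by decide +kernel)
             (CovZ.leaf K2_ok TB_l23091 _)
             (CovZ.leaf K2_ok TB_l23092 _))
            (CovZ.n1 (-17376, 22848) (by decide +kernel)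
             (CovZ.leaf K2_ok TB_l23093 _)
             (CovZ.leaf K2_ok TB_l23094 _))))))))
      (CovZ.n1 (-18048, 22656) (by decide +kernel)
       (CovZ.n2 (-18048, 23040) (by decide +kernel)
        (CovZ.subM 2404907604760405225489198433597688225553879454140319749911559932043601961758072039936110597334393160070439403520 (by decide +kernel)
         (CovZ.n2 (-17856, 22848) (by decide +kernel)
          (CovZ.n2 (-18048, 22848) (by decide +kernel)
           (CovZ.leaf K2_ok TB_l23095 _)
           (CovZ.leaf K2_ok TB_l23096 _))
          (CovZ.n1 (-17856, 23040) (by decide +kernel)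
           (CovZ.n2 (-17760, 22944) (by decide +kernel)
            (CovZ.leaf K2_ok TB_l23097 _)
            (CovZ.leaf K2_ok TB_l23098 _))
           (CovZ.leaf K2_ok TB_l23099 _))))
        (CovZ.n1 (-18240, 22848) (by decide +kernel)
         (CovZ.n2 (-18240, 23040) (by decide +kernel)
          (CovZ.leaf K2_ok TB_l23100 _)
          (CovZ.leaf K2_ok TB_l23101 _))
         (CovZ.n1 (-18048, 22848) (by decide +kernel)
          (CovZ.leaf K2_ok TB_l23102 _)
          (CovZ.leaf K2_ok TB_l23103 _))))
       (CovZ.subM 2404907604760405225489198433597688225553879454140319749911559932043601961758072039936110597334393160070439403520 (by decide +kernel)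
        (CovZ.n1 (-17664, 22656) (by decide +kernel)
         (CovZ.n2 (-17856, 22464) (by decide +kernel)
          (CovZ.n2 (-17856, 22656) (by decide +kernel)
           (CovZ.n2 (-17760, 22560) (by decide +kernel)
            (CovZ.leaf K2_ok TB_l23104 _)
            (CovZ.leaf K2_ok TB_l23105 _))
           (CovZ.leaf K2_ok TB_l23106 _))
          (CovZ.n1 (-17664, 22464) (by decide +kernel)
           (CovZ.n2 (-17760, 22368) (by decide +kernel)
            (CovZ.leaf K2_ok TB_l23107 _)
            (CovZ.leaf K2_ok TB_l23108 _))
           (CovZ.n1 (-17760, 22560) (by decide +kernel)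
            (CovZ.leaf K2_ok TB_l23109 _)
            (CovZ.leaf K2_ok TB_l23110 _))))
         (CovZ.n1 (-17856, 22848) (by decide +kernel)
          (CovZ.n2 (-17664, 22848) (by decide +kernel)
           (CovZ.n2 (-17760, 22752) (by decide +kernel)
            (CovZ.leaf K2_ok TB_l23111 _)
            (CovZ.leaf K2_ok TB_l23112 _))
           (CovZ.n1 (-17760, 22944) (by decide +kernel)
            (CovZ.leaf K2_ok TB_l23113 _)
            (CovZ.leaf K2_ok TB_l23114 _)))
          (CovZ.n1 (-17856, 22656) (by decide +kernel)
           (CovZ.leaf K2_ok TB_l23115 _)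
           (CovZ.n1 (-17760, 22752) (by decide +kernel)
            (CovZ.leaf K2_ok TB_l23116 _)
            (CovZ.leaf K2_ok TB_l23117 _)))))))))))

theorem TB_s10_17 : SqZ TB_M TB_L [0, 7, 6, 1] (-32256) (-4608) 1536 10 17 :=
  SqZ.mk (a := (-16896)) (b := (-15360)) (c := 21504) (d := 23040) (by norm_num) (by norm_num) (by norm_num) (by norm_num)
    (CovZ.topM TB_LL 2404907604760405225489198433597688225560946845769433048375903125497119567082734635465732741839318354823615643648 (by decide +kernel) (CovZ.n2 (-16128, 22272) (by decide +kernel)
    (CovZ.n2 (-15360, 22272) (by decide +kernel)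
     (CovZ.n2 (-15744, 21888) (by decide +kernel)
      (CovZ.badM (by decide +kernel))
      (CovZ.badM (by decide +kernel)))
     (CovZ.badM (by decide +kernel)))
    (CovZ.n1 (-16128, 21504) (by decide +kernel)
     (CovZ.n2 (-16512, 21888) (by decide +kernel)
      (CovZ.badM (by decide +kernel))
      (CovZ.n1 (-16512, 21504) (by decide +kernel)
       (CovZ.subM 2404907604760405225489198433597688225553879454140319749911559932043601961758072039936110578444927228591858548736 (by decide +kernel)
        (CovZ.n2 (-16704, 21696) (by decide +kernel)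
         (CovZ.badM (by decide +kernel))
         (CovZ.n1 (-16704, 21504) (by decide +kernel)
          (CovZ.n2 (-16800, 21600) (by decide +kernel)
           (CovZ.badM (by decide +kernel))
           (CovZ.n1 (-16800, 21504) (by decide +kernel)
            (CovZ.n2 (-16848, 21552) (by decide +kernel)
             (CovZ.badM (by decide +kernel))
             (CovZ.n1 (-16848, 21504) (by decide +kernel)
              (CovZ.leaf K2_ok TB_l29856 _)
              (CovZ.badM (by decide +kernel))))
            (CovZ.badM (by decide +kernel))))
          (CovZ.badM (by decide +kernel)))))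
       (CovZ.badM (by decide +kernel))))
     (CovZ.n1 (-15744, 21888) (by decide +kernel)
      (CovZ.n2 (-15744, 21504) (by decide +kernel)
       (CovZ.badM (by decide +kernel))
       (CovZ.badM (by decide +kernel)))
      (CovZ.badM (by decide +kernel))))))
    (CovZ.topM TB_LL 2404907604760405225489198433597688225553879454140326177663739961160771007141970865673587213189260369880493883392 (by decide +kernel) (CovZ.n0 (-16128, 22272) (by decide +kernel)
    TB_u448
    (CovZ.subM 2404907604760405225489198433597688225553879454140319749911559932043601961758072039936110578444927228591858548736 (by decide +kernel)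
     (CovZ.n1 (-16128, 23040) (by decide +kernel)
      (CovZ.badM (by decide +kernel))
      (CovZ.n1 (-16512, 22656) (by decide +kernel)
       (CovZ.n2 (-16512, 23040) (by decide +kernel)
        (CovZ.badM (by decide +kernel))
        (CovZ.n1 (-16704, 22848) (by decide +kernel)
         (CovZ.n2 (-16704, 23040) (by decide +kernel)
          (CovZ.badM (by decide +kernel))
          (CovZ.n1 (-16800, 22944) (by decide +kernel)
           (CovZ.n2 (-16800, 23040) (by decide +kernel)
            (CovZ.badM (by decide +kernel))
            (CovZ.n1 (-16848, 22992) (by decide +kernel)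
             (CovZ.n2 (-16848, 23040) (by decide +kernel)
              (CovZ.badM (by decide +kernel))
              (CovZ.leaf K2_ok TB_l30312 _))
             (CovZ.badM (by decide +kernel))))
           (CovZ.badM (by decide +kernel))))
         (CovZ.badM (by decide +kernel))))
       (CovZ.badM (by decide +kernel)))))))

theorem TB_s11_17 : SqZ TB_M TB_L [0, 7, 6, 1] (-32256) (-4608) 1536 11 17 :=
  SqZ.mk (a := (-15360)) (b := (-13824)) (c := 21504) (d := 23040) (by norm_num) (by norm_num) (by norm_num) (by norm_num)
    (CovZ.topM TB_LL 4697085165547666455778961193593495442174604289124205647969123339752421236447975267774984085512696702378704896 (by decide +kernel) (CovZ.n2 (-14592, 22272) (by decide +kernel)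
    (CovZ.badM (by decide +kernel))
    (CovZ.n1 (-14592, 21504) (by decide +kernel)
     (CovZ.n2 (-14976, 21888) (by decide +kernel)
      (CovZ.badM (by decide +kernel))
      (CovZ.n1 (-14976, 21504) (by decide +kernel)
       (CovZ.badM (by decide +kernel))
       (CovZ.badM (by decide +kernel))))
     (CovZ.badM (by decide +kernel)))))
    (CovZ.topM TB_LL 0 (by decide +kernel) (CovZ.badM (by decide +kernel)))

theorem TB_s12_17 : SqZ TB_M TB_L [0, 7, 6, 1] (-32256) (-4608) 1536 12 17 :=
  SqZ.mk (a := (-13824)) (b := (-12288)) (c := 21504) (d := 23040) (by norm_num) (by norm_num) (by norm_num) (by norm_num)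
    (CovZ.topM TB_LL 0 (by decide +kernel) (CovZ.badM (by decide +kernel)))
    (CovZ.topM TB_LL 0 (by decide +kernel) (CovZ.badM (by decide +kernel)))

theorem TB_s0_18 : SqZ TB_M TB_L [0, 7, 6, 1] (-32256) (-4608) 1536 0 18 :=
  SqZ.mk (a := (-32256)) (b := (-30720)) (c := 23040) (d := 24576) (by norm_num) (by norm_num) (by norm_num) (by norm_num)
    (CovZ.topM TB_LL 2353129859973906143154175441529284225823720636258563057311064562201646888730119284886260675824942078871207936 (by decide +kernel) (CovZ.leaf K2_ok TB_l1847 _))
    (CovZ.topM TB_LL 2353129859973906143154175441529284225823720636258563057311064562201646888730119284886260675824942078871207936 (by decide +kernel) (CovZ.leaf K2_ok TB_l1848 _))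

theorem TB_s1_18 : SqZ TB_M TB_L [0, 7, 6, 1] (-32256) (-4608) 1536 1 18 :=
  SqZ.mk (a := (-30720)) (b := (-29184)) (c := 23040) (d := 24576) (by norm_num) (by norm_num) (by norm_num) (by norm_num)
    (CovZ.topM TB_LL 5043456795491623199145623275972558008579490852443297809755944613054516948958865054560048546623859907511181296595369984 (by decide +kernel) (CovZ.leaf K2_ok TB_l4991 _))
    (CovZ.topM TB_LL 5043456795491623199145623275972558008579490852443297809755944613054516948958865054560048546623859907511181296595369984 (by decide +kernel) (CovZ.leaf K2_ok TB_l4992 _))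

theorem TB_s2_18 : SqZ TB_M TB_L [0, 7, 6, 1] (-32256) (-4608) 1536 2 18 :=
  SqZ.mk (a := (-29184)) (b := (-27648)) (c := 23040) (d := 24576) (by norm_num) (by norm_num) (by norm_num) (by norm_num)
    (CovZ.topM TB_LL 5043456793138493339171717132834328964652041523698219635926264656343733324316518645163976051077084924416754786808102912 (by decide +kernel) (CovZ.leaf K2_ok TB_l8282 _))
    (CovZ.topM TB_LL 5043456793138493339171717132834328964652041523698219635926264656343733324316518645163976051077084924416754786808102912 (by decide +kernel) (CovZ.leaf K2_ok TB_l8283 _))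

theorem TB_s3_18 : SqZ TB_M TB_L [0, 7, 6, 1] (-32256) (-4608) 1536 3 18 :=
  SqZ.mk (a := (-27648)) (b := (-26112)) (c := 23040) (d := 24576) (by norm_num) (by norm_num) (by norm_num) (by norm_num)
    (CovZ.topM TB_LL 5043456793138493409163740325890678490535391066932433103450881491608005896667886977445133152830331249669272369090527360 (by decide +kernel) (CovZ.leaf K2_ok TB_l11615 _))
    (CovZ.topM TB_LL 5043456793138493409163740325890678490535391066932433103450881491608005896667886977445133152830331249669272369090527360 (by decide +kernel) (CovZ.leaf K2_ok TB_l11616 _))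

theorem TB_s4_18 : SqZ TB_M TB_L [0, 7, 6, 1] (-32256) (-4608) 1536 4 18 :=
  SqZ.mk (a := (-26112)) (b := (-24576)) (c := 23040) (d := 24576) (by norm_num) (by norm_num) (by norm_num) (by norm_num)
    (CovZ.topM TB_LL 631663411835949099859883151205914022257904644374446960892027670799798706760137269538072325248303414314334467127509124 (by decide +kernel) (CovZ.leaf K2_ok TB_l13832 _))
    (CovZ.topM TB_LL 631663411835949099859883151205914022257904644374446960892027670799798706760137269538072325248303414314334467127509124 (by decide +kernel) (CovZ.leaf K2_ok TB_l13833 _))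

theorem TB_s5_18 : SqZ TB_M TB_L [0, 7, 6, 1] (-32256) (-4608) 1536 5 18 :=
  SqZ.mk (a := (-24576)) (b := (-23040)) (c := 23040) (d := 24576) (by norm_num) (by norm_num) (by norm_num) (by norm_num)
    (CovZ.topM TB_LL 631665816743553873388612858716202337208920867230133003189890455038836481108284638392599043323296923625148370437537924 (by decide +kernel) (CovZ.leaf K2_ok TB_l15579 _))
    (CovZ.topM TB_LL 631665816743553873388612858716202337208920867230133003189890455038836481108284638392599043323296923625148370437537924 (by decide +kernel) (CovZ.leaf K2_ok TB_l15580 _))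

theorem TB_s6_18 : SqZ TB_M TB_L [0, 7, 6, 1] (-32256) (-4608) 1536 6 18 :=
  SqZ.mk (a := (-23040)) (b := (-21504)) (c := 23040) (d := 24576) (by norm_num) (by norm_num) (by norm_num) (by norm_num)
    (CovZ.topM TB_LL 631665816743553873402847209822769027054881441568903534078610040645603795480090078617502485370921510588708285885743236 (by decide +kernel) (CovZ.n2 (-22272, 23808) (by decide +kernel)
    (CovZ.n2 (-21504, 23808) (by decide +kernel)
     (CovZ.leaf K2_ok TB_l18643 _)
     (CovZ.leaf K2_ok TB_l18644 _))
    (CovZ.leaf K2_ok TB_l18645 _)))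
    (CovZ.topM TB_LL 631665816743553873402847209822769027054881441568903534078610040645603795480090078617502485370921510588708285885743236 (by decide +kernel) (CovZ.n0 (-22272, 23808) (by decide +kernel)
    (CovZ.leaf K2_ok TB_l18646 _)
    (CovZ.leaf K2_ok TB_l18647 _)))

theorem TB_s7_18 : SqZ TB_M TB_L [0, 7, 6, 1] (-32256) (-4608) 1536 7 18 :=
  SqZ.mk (a := (-21504)) (b := (-19968)) (c := 23040) (d := 24576) (by norm_num) (by norm_num) (by norm_num) (by norm_num)
    (CovZ.topM TB_LL 1233717601242206000692295627890642064334646907888123058486851122483293851432135104689694864160892882229744663298048 (by decide +kernel) (CovZ.n2 (-20736, 23808) (by decide +kernel)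
    (CovZ.n2 (-19968, 23808) (by decide +kernel)
     (CovZ.n2 (-20352, 23424) (by decide +kernel)
      (CovZ.n2 (-20352, 23808) (by decide +kernel)
       (CovZ.leaf K2_ok TB_l19566 _)
       (CovZ.leaf K2_ok TB_l19567 _))
      (CovZ.n1 (-19968, 23424) (by decide +kernel)
       (CovZ.leaf K2_ok TB_l19568 _)
       (CovZ.leaf K2_ok TB_l19569 _)))
     (CovZ.n1 (-20352, 24192) (by decide +kernel)
      (CovZ.n2 (-19968, 24192) (by decide +kernel)
       (CovZ.leaf K2_ok TB_l19570 _)
       (CovZ.leaf K2_ok TB_l19571 _))
      (CovZ.leaf K2_ok TB_l19572 _)))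
    (CovZ.n1 (-20736, 23040) (by decide +kernel)
     (CovZ.leaf K2_ok TB_l19573 _)
     (CovZ.n1 (-20352, 23424) (by decide +kernel)
      (CovZ.n2 (-20352, 23040) (by decide +kernel)
       (CovZ.leaf K2_ok TB_l19574 _)
       (CovZ.leaf K2_ok TB_l19575 _))
      (CovZ.leaf K2_ok TB_l19576 _)))))
    (CovZ.topM TB_LL 1233717601242206000692295627890642064334646907888123058486851122483293851432135104689694864160892883355644570140672 (by decide +kernel) (CovZ.n0 (-20736, 23808) (by decide +kernel)
    (CovZ.n2 (-21504, 23808) (by decide +kernel)
     (CovZ.leaf K2_ok TB_l19577 _)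
     (CovZ.leaf K2_ok TB_l19578 _))
    (CovZ.n1 (-20736, 24576) (by decide +kernel)
     (CovZ.n2 (-20352, 24192) (by decide +kernel)
      (CovZ.leaf K2_ok TB_l19579 _)
      (CovZ.leaf K2_ok TB_l19580 _))
     (CovZ.leaf K2_ok TB_l19581 _))))

theorem TB_s8_18 : SqZ TB_M TB_L [0, 7, 6, 1] (-32256) (-4608) 1536 8 18 :=
  SqZ.mk (a := (-19968)) (b := (-18432)) (c := 23040) (d := 24576) (by norm_num) (by norm_num) (by norm_num) (by norm_num)
    (CovZ.topM TB_LL 1233717601242122876620805729753905933871370640614764295426484137697078226519274559736577332156385627999106370666497 (by decide +kernel) (CovZ.n2 (-19200, 23808) (by decide +kernel)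
    (CovZ.subM 2404907604795401237085726624387648261187761395985970460805851331026414291460631287923300612106005399699829325825 (by decide +kernel)
     (CovZ.n2 (-18432, 23808) (by decide +kernel)
      (CovZ.n2 (-18816, 23424) (by decide +kernel)
       (CovZ.n2 (-18816, 23808) (by decide +kernel)
        (CovZ.n2 (-18624, 23616) (by decide +kernel)
         (CovZ.leaf K2_ok TB_l20422 _)
         (CovZ.leaf K2_ok TB_l20423 _))
        (CovZ.n1 (-19008, 23616) (by decide +kernel)
         (CovZ.leaf K2_ok TB_l20424 _)
         (CovZ.leaf K2_ok TB_l20425 _)))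
       (CovZ.n1 (-18432, 23424) (by decide +kernel)
        (CovZ.n2 (-18624, 23232) (by decide +kernel)
         (CovZ.n2 (-18624, 23424) (by decide +kernel)
          (CovZ.leaf K2_ok TB_l20426 _)
          (CovZ.leaf K2_ok TB_l20427 _))
         (CovZ.n1 (-18432, 23232) (by decide +kernel)
          (CovZ.leaf K2_ok TB_l20428 _)
          (CovZ.leaf K2_ok TB_l20429 _)))
        (CovZ.n1 (-18624, 23616) (by decide +kernel)
         (CovZ.n2 (-18432, 23616) (by decide +kernel)
          (CovZ.leaf K2_ok TB_l20430 _)
          (CovZ.leaf K2_ok TB_l20431 _))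
         (CovZ.n1 (-18624, 23424) (by decide +kernel)
          (CovZ.leaf K2_ok TB_l20432 _)
          (CovZ.leaf K2_ok TB_l20433 _)))))
      (CovZ.n1 (-18816, 24192) (by decide +kernel)
       (CovZ.n2 (-18432, 24192) (by decide +kernel)
        (CovZ.n2 (-18624, 24000) (by decide +kernel)
         (CovZ.leaf K2_ok TB_l20434 _)
         (CovZ.leaf K2_ok TB_l20435 _))
        (CovZ.n1 (-18624, 24384) (by decide +kernel)
         (CovZ.leaf K2_ok TB_l20436 _)
         (CovZ.leaf K2_ok TB_l20437 _)))
       (CovZ.n1 (-18816, 23808) (by decide +kernel)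
        (CovZ.leaf K2_ok TB_l20438 _)
        (CovZ.n1 (-18624, 24000) (by decide +kernel)
         (CovZ.leaf K2_ok TB_l20439 _)
         (CovZ.leaf K2_ok TB_l20440 _))))))
    (CovZ.n1 (-19200, 23040) (by decide +kernel)
     (CovZ.n2 (-19584, 23424) (by decide +kernel)
      (CovZ.n2 (-19200, 23424) (by decide +kernel)
       (CovZ.leaf K2_ok TB_l20441 _)
       (CovZ.leaf K2_ok TB_l20442 _))
      (CovZ.n1 (-19584, 23040) (by decide +kernel)
       (CovZ.leaf K2_ok TB_l20443 _)
       (CovZ.leaf K2_ok TB_l20444 _)))
     (CovZ.subM 2404907604795401237085726624418002462628788412719087053099968813942701898320820967942860181008139750359141744641 (by decide +kernel)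
      (CovZ.n1 (-18816, 23424) (by decide +kernel)
       (CovZ.n2 (-18816, 23040) (by decide +kernel)
        (CovZ.n2 (-19008, 23232) (by decide +kernel)
         (CovZ.leaf K2_ok TB_l20445 _)
         (CovZ.leaf K2_ok TB_l20446 _))
        (CovZ.n1 (-18624, 23232) (by decide +kernel)
         (CovZ.n2 (-18624, 23040) (by decide +kernel)
          (CovZ.leaf K2_ok TB_l20447 _)
          (CovZ.leaf K2_ok TB_l20448 _))
         (CovZ.leaf K2_ok TB_l20449 _)))
       (CovZ.n1 (-19200, 23424) (by decide +kernel)
        (CovZ.n2 (-19008, 23616) (by decide +kernel)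
         (CovZ.leaf K2_ok TB_l20450 _)
         (CovZ.leaf K2_ok TB_l20451 _))
        (CovZ.n1 (-19008, 23232) (by decide +kernel)
         (CovZ.leaf K2_ok TB_l20452 _)
         (CovZ.leaf K2_ok TB_l20453 _))))))))
    (CovZ.topM TB_LL 1233717601242122876620805729753905933871483718826910112023577468737125773304287518705977371769705410795989098332161 (by decide +kernel) (CovZ.n0 (-19200, 23808) (by decide +kernel)
    (CovZ.n2 (-19968, 23808) (by decide +kernel)
     (CovZ.n2 (-19584, 24192) (by decide +kernel)
      (CovZ.n2 (-19584, 23808) (by decide +kernel)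
       (CovZ.leaf K2_ok TB_l20454 _)
       (CovZ.leaf K2_ok TB_l20455 _))
      (CovZ.leaf K2_ok TB_l20456 _))
     (CovZ.n1 (-19584, 23424) (by decide +kernel)
      (CovZ.n2 (-19968, 23424) (by decide +kernel)
       (CovZ.leaf K2_ok TB_l20457 _)
       (CovZ.leaf K2_ok TB_l20458 _))
      (CovZ.n1 (-19584, 23808) (by decide +kernel)
       (CovZ.leaf K2_ok TB_l20459 _)
       (CovZ.leaf K2_ok TB_l20460 _))))
    (CovZ.n1 (-19200, 24576) (by decide +kernel)
     (CovZ.subM 2404907604795401237085726624387648261187761395985970460805851331026414291460631287923300612106005399699829325825 (by decide +kernel)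
      (CovZ.n2 (-18816, 24192) (by decide +kernel)
       (CovZ.n2 (-19200, 24192) (by decide +kernel)
        (CovZ.leaf K2_ok TB_l20461 _)
        (CovZ.leaf K2_ok TB_l20462 _))
       (CovZ.n1 (-18816, 24576) (by decide +kernel)
        (CovZ.n2 (-18624, 24384) (by decide +kernel)
         (CovZ.leaf K2_ok TB_l20463 _)
         (CovZ.leaf K2_ok TB_l20464 _))
        (CovZ.leaf K2_ok TB_l20465 _))))
     (CovZ.n1 (-19584, 24192) (by decide +kernel)
      (CovZ.n2 (-19584, 24576) (by decide +kernel)
       (CovZ.leaf K2_ok TB_l20466 _)
       (CovZ.leaf K2_ok TB_l20467 _))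
      (CovZ.n1 (-19200, 24192) (by decide +kernel)
       (CovZ.leaf K2_ok TB_l20468 _)
       (CovZ.leaf K2_ok TB_l20469 _))))))

theorem TB_s9_18 : SqZ TB_M TB_L [0, 7, 6, 1] (-32256) (-4608) 1536 9 18 :=
  SqZ.mk (a := (-18432)) (b := (-16896)) (c := 23040) (d := 24576) (by norm_num) (by norm_num) (by norm_num) (by norm_num)
    (CovZ.topM TB_LL 2705521055390451890255580140776683400692290474012430000338780399757722776304258039660872988638750166441221193728 (by decide +kernel) (CovZ.n2 (-17664, 23808) (by decide +kernel)
    (CovZ.subM 2404907604760405225489198433597688225554321165906514345993955756418787691387028910910329483184457630142181703680 (by decide +kernel)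
     (CovZ.n2 (-16896, 23808) (by decide +kernel)
      TB_u449
      TB_u450))
    (CovZ.n1 (-17664, 23040) (by decide +kernel)
     (CovZ.n2 (-18048, 23424) (by decide +kernel)
      (CovZ.subM 2404907604760405225489198433597688225553879454140319749911559932043601961758072039936110578444927228591858548736 (by decide +kernel)
       (CovZ.n2 (-17664, 23424) (by decide +kernel)
        (CovZ.n2 (-17856, 23232) (by decide +kernel)
         (CovZ.n2 (-17856, 23424) (by decide +kernel)
          (CovZ.n2 (-17760, 23328) (by decide +kernel)
           (CovZ.leaf K2_ok TB_l23251 _)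
           (CovZ.leaf K2_ok TB_l23252 _))
          (CovZ.leaf K2_ok TB_l23253 _))
         (CovZ.n1 (-17664, 23232) (by decide +kernel)
          (CovZ.n2 (-17760, 23136) (by decide +kernel)
           (CovZ.leaf K2_ok TB_l23254 _)
           (CovZ.leaf K2_ok TB_l23255 _))
          (CovZ.n1 (-17760, 23328) (by decide +kernel)
           (CovZ.leaf K2_ok TB_l23256 _)
           (CovZ.leaf K2_ok TB_l23257 _))))
        (CovZ.n1 (-17856, 23616) (by decide +kernel)
         (CovZ.n2 (-17664, 23616) (by decide +kernel)
          (CovZ.n2 (-17760, 23520) (by decide +kernel)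
           (CovZ.leaf K2_ok TB_l23258 _)
           (CovZ.leaf K2_ok TB_l23259 _))
          (CovZ.n1 (-17760, 23712) (by decide +kernel)
           (CovZ.leaf K2_ok TB_l23260 _)
           (CovZ.leaf K2_ok TB_l23261 _)))
         (CovZ.n1 (-17856, 23424) (by decide +kernel)
          (CovZ.leaf K2_ok TB_l23262 _)
          (CovZ.n1 (-17760, 23520) (by decide +kernel)
           (CovZ.leaf K2_ok TB_l23263 _)
           (CovZ.leaf K2_ok TB_l23264 _))))))
      (CovZ.n1 (-18048, 23040) (by decide +kernel)
       (CovZ.n2 (-18240, 23232) (by decide +kernel)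
        (CovZ.n2 (-18048, 23232) (by decide +kernel)
         (CovZ.leaf K2_ok TB_l23265 _)
         (CovZ.leaf K2_ok TB_l23266 _))
        (CovZ.n1 (-18240, 23040) (by decide +kernel)
         (CovZ.leaf K2_ok TB_l23267 _)
         (CovZ.leaf K2_ok TB_l23268 _)))
       (CovZ.subM 2404907604760405225489198433597688225553879454140319749911559932043601961758072039936110578444927228591858548736 (by decide +kernel)
        (CovZ.n1 (-17856, 23232) (by decide +kernel)
         (CovZ.n2 (-17856, 23040) (by decide +kernel)
          (CovZ.leaf K2_ok TB_l23269 _)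
          (CovZ.n1 (-17760, 23136) (by decide +kernel)
           (CovZ.leaf K2_ok TB_l23270 _)
           (CovZ.leaf K2_ok TB_l23271 _)))
         (CovZ.n1 (-18048, 23232) (by decide +kernel)
          (CovZ.leaf K2_ok TB_l23272 _)
          (CovZ.leaf K2_ok TB_l23273 _))))))
     (CovZ.subM 2404907604760405225489198433597688225554321165906514345993955756418787691387028910910329483184457630142181703680 (by decide +kernel)
      (CovZ.n1 (-17280, 23424) (by decide +kernel)
       (CovZ.n2 (-17280, 23040) (by decide +kernel)
        (CovZ.n2 (-17472, 23232) (by decide +kernel)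
         (CovZ.n2 (-17280, 23232) (by decide +kernel)
          (CovZ.n2 (-17376, 23136) (by decide +kernel)
           (CovZ.n2 (-17376, 23232) (by decide +kernel)
            (CovZ.leaf K2_ok TB_l23274 _)
            (CovZ.leaf K2_ok TB_l23275 _))
           (CovZ.n1 (-17280, 23136) (by decide +kernel)
            (CovZ.leaf K2_ok TB_l23276 _)
            (CovZ.leaf K2_ok TB_l23277 _)))
          (CovZ.n1 (-17376, 23328) (by decide +kernel)
           (CovZ.n2 (-17280, 23328) (by decide +kernel)
            (CovZ.leaf K2_ok TB_l23278 _)
            (CovZ.leaf K2_ok TB_l23279 _))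
           (CovZ.n1 (-17376, 23232) (by decide +kernel)
            (CovZ.leaf K2_ok TB_l23280 _)
            (CovZ.leaf K2_ok TB_l23281 _))))
         (CovZ.n1 (-17472, 23040) (by decide +kernel)
          (CovZ.n2 (-17568, 23136) (by decide +kernel)
           (CovZ.leaf K2_ok TB_l23282 _)
           (CovZ.leaf K2_ok TB_l23283 _))
          (CovZ.n1 (-17376, 23136) (by decide +kernel)
           (CovZ.n2 (-17376, 23040) (by decide +kernel)
            (CovZ.leaf K2_ok TB_l23284 _)
            (CovZ.leaf K2_ok TB_l23285 _))
           (CovZ.leaf K2_ok TB_l23286 _))))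
        (CovZ.n1 (-17088, 23232) (by decide +kernel)
         (CovZ.n2 (-17088, 23040) (by decide +kernel)
          (CovZ.n2 (-17184, 23136) (by decide +kernel)
           (CovZ.n2 (-17088, 23136) (by decide +kernel)
            (CovZ.leaf K2_ok TB_l23287 _)
            (CovZ.leaf K2_ok TB_l23288 _))
           (CovZ.n1 (-17184, 23040) (by decide +kernel)
            (CovZ.leaf K2_ok TB_l23289 _)
            (CovZ.leaf K2_ok TB_l23290 _)))
          (CovZ.n1 (-16992, 23136) (by decide +kernel)
           (CovZ.n2 (-16992, 23040) (by decide +kernel)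
            (CovZ.n2 (-17040, 23088) (by decide +kernel)
             (CovZ.leaf K2_ok TB_l23291 _)
             (CovZ.leaf K2_ok TB_l23292 _))
            (CovZ.n1 (-16944, 23088) (by decide +kernel)
             (CovZ.leaf K2_ok TB_l23293 _)
             (CovZ.leaf K2_ok TB_l23294 _)))
           (CovZ.n1 (-17088, 23136) (by decide +kernel)
            (CovZ.leaf K2_ok TB_l23295 _)
            (CovZ.n1 (-17040, 23088) (by decide +kernel)
             (CovZ.leaf K2_ok TB_l23296 _)
             (CovZ.leaf K2_ok TB_l23297 _)))))
         (CovZ.n1 (-17280, 23232) (by decide +kernel)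
          (CovZ.n2 (-17184, 23328) (by decide +kernel)
           (CovZ.n2 (-17184, 23232) (by decide +kernel)
            (CovZ.leaf K2_ok TB_l23298 _)
            (CovZ.leaf K2_ok TB_l23299 _))
           (CovZ.n1 (-17280, 23328) (by decide +kernel)
            (CovZ.leaf K2_ok TB_l23300 _)
            (CovZ.leaf K2_ok TB_l23301 _)))
          (CovZ.n1 (-17184, 23136) (by decide +kernel)
           (CovZ.n2 (-17280, 23136) (by decide +kernel)
            (CovZ.leaf K2_ok TB_l23302 _)
            (CovZ.leaf K2_ok TB_l23303 _))
           (CovZ.n1 (-17184, 23232) (by decide +kernel)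
            (CovZ.leaf K2_ok TB_l23304 _)
            (CovZ.leaf K2_ok TB_l23305 _))))))
       (CovZ.n1 (-17664, 23424) (by decide +kernel)
        (CovZ.n2 (-17472, 23616) (by decide +kernel)
         (CovZ.n2 (-17472, 23424) (by decide +kernel)
          (CovZ.n2 (-17568, 23520) (by decide +kernel)
           (CovZ.leaf K2_ok TB_l23306 _)
           (CovZ.leaf K2_ok TB_l23307 _))
          (CovZ.n1 (-17376, 23520) (by decide +kernel)
           (CovZ.n2 (-17376, 23424) (by decide +kernel)
            (CovZ.leaf K2_ok TB_l23308 _)
            (CovZ.leaf K2_ok TB_l23309 _))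
           (CovZ.leaf K2_ok TB_l23310 _)))
         (CovZ.n1 (-17664, 23616) (by decide +kernel)
          (CovZ.n2 (-17568, 23712) (by decide +kernel)
           (CovZ.leaf K2_ok TB_l23311 _)
           (CovZ.leaf K2_ok TB_l23312 _))
          (CovZ.n1 (-17568, 23520) (by decide +kernel)
           (CovZ.leaf K2_ok TB_l23313 _)
           (CovZ.leaf K2_ok TB_l23314 _))))
        (CovZ.n1 (-17472, 23232) (by decide +kernel)
         (CovZ.n2 (-17664, 23232) (by decide +kernel)
          (CovZ.n2 (-17568, 23328) (by decide +kernel)
           (CovZ.leaf K2_ok TB_l23315 _)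
           (CovZ.leaf K2_ok TB_l23316 _))
          (CovZ.n1 (-17568, 23136) (by decide +kernel)
           (CovZ.leaf K2_ok TB_l23317 _)
           (CovZ.leaf K2_ok TB_l23318 _)))
         (CovZ.n1 (-17472, 23424) (by decide +kernel)
          (CovZ.n2 (-17376, 23328) (by decide +kernel)
           (CovZ.leaf K2_ok TB_l23319 _)
           (CovZ.n1 (-17376, 23424) (by decide +kernel)
            (CovZ.leaf K2_ok TB_l23320 _)
            (CovZ.leaf K2_ok TB_l23321 _)))
          (CovZ.n1 (-17568, 23328) (by decide +kernel)
           (CovZ.leaf K2_ok TB_l23322 _)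
           (CovZ.leaf K2_ok TB_l23323 _))))))))))
    (CovZ.topM TB_LL 2705521055390451890255580140776683400692290474012430000338780399757722776304258039660872988638786195238240157697 (by decide +kernel) (CovZ.n0 (-17664, 23808) (by decide +kernel)
    (CovZ.n2 (-18432, 23808) (by decide +kernel)
     (CovZ.n2 (-18048, 24192) (by decide +kernel)
      (CovZ.n2 (-18048, 23808) (by decide +kernel)
       (CovZ.n2 (-18240, 24000) (by decide +kernel)
        (CovZ.n2 (-18048, 24000) (by decide +kernel)
         (CovZ.leaf K2_ok TB_l23324 _)
         (CovZ.leaf K2_ok TB_l23325 _))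
        (CovZ.n1 (-18240, 23808) (by decide +kernel)
         (CovZ.leaf K2_ok TB_l23326 _)
         (CovZ.leaf K2_ok TB_l23327 _)))
       (CovZ.subM 2404907604760405225489198433597688225553879454140319749911559932043601961758072039936110578444927228591858548737 (by decide +kernel)
        (CovZ.n1 (-17856, 24000) (by decide +kernel)
         (CovZ.n2 (-17856, 23808) (by decide +kernel)
          (CovZ.leaf K2_ok TB_l23328 _)
          (CovZ.leaf K2_ok TB_l23329 _))
         (CovZ.n1 (-18048, 24000) (by decide +kernel)
          (CovZ.leaf K2_ok TB_l23330 _)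
          (CovZ.leaf K2_ok TB_l23331 _)))))
      (CovZ.n1 (-18432, 24192) (by decide +kernel)
       (CovZ.n2 (-18240, 24384) (by decide +kernel)
        (CovZ.n2 (-18240, 24192) (by decide +kernel)
         (CovZ.leaf K2_ok TB_l23332 _)
         (CovZ.leaf K2_ok TB_l23333 _))
        (CovZ.leaf K2_ok TB_l23334 _))
       (CovZ.n1 (-18240, 24000) (by decide +kernel)
        (CovZ.leaf K2_ok TB_l23335 _)
        (CovZ.n1 (-18240, 24192) (by decide +kernel)
         (CovZ.leaf K2_ok TB_l23336 _)
         (CovZ.leaf K2_ok TB_l23337 _)))))
     (CovZ.n1 (-18048, 23424) (by decide +kernel)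
      (CovZ.n2 (-18432, 23424) (by decide +kernel)
       (CovZ.n2 (-18240, 23616) (by decide +kernel)
        (CovZ.n2 (-18240, 23424) (by decide +kernel)
         (CovZ.leaf K2_ok TB_l23338 _)
         (CovZ.leaf K2_ok TB_l23339 _))
        (CovZ.leaf K2_ok TB_l23340 _))
       (CovZ.n1 (-18240, 23232) (by decide +kernel)
        (CovZ.n2 (-18432, 23232) (by decide +kernel)
         (CovZ.leaf K2_ok TB_l23341 _)
         (CovZ.leaf K2_ok TB_l23342 _))
        (CovZ.n1 (-18240, 23424) (by decide +kernel)
         (CovZ.leaf K2_ok TB_l23343 _)
         (CovZ.leaf K2_ok TB_l23344 _))))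
      (CovZ.n1 (-18048, 23808) (by decide +kernel)
       (CovZ.subM 2404907604760405225489198433597688225553879454140319749911559932043601961758072039936110578444927228591858548737 (by decide +kernel)
        (CovZ.n2 (-17856, 23616) (by decide +kernel)
         (CovZ.n2 (-18048, 23616) (by decide +kernel)
          (CovZ.leaf K2_ok TB_l23345 _)
          (CovZ.leaf K2_ok TB_l23346 _))
         (CovZ.n1 (-17856, 23808) (by decide +kernel)
          (CovZ.leaf K2_ok TB_l23347 _)
          (CovZ.leaf K2_ok TB_l23348 _))))
       (CovZ.n1 (-18240, 23616) (by decide +kernel)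
        (CovZ.n2 (-18240, 23808) (by decide +kernel)
         (CovZ.leaf K2_ok TB_l23349 _)
         (CovZ.leaf K2_ok TB_l23350 _))
        (CovZ.n1 (-18048, 23616) (by decide +kernel)
         (CovZ.leaf K2_ok TB_l23351 _)
         (CovZ.leaf K2_ok TB_l23352 _))))))
    (CovZ.n1 (-17664, 24576) (by decide +kernel)
     (CovZ.subM 2404907604760405225489198433597688225554321165906514345993955756418787691387028910910329483184457630142181703681 (by decide +kernel)
      (CovZ.n2 (-17280, 24192) (by decide +kernel)
       (CovZ.n2 (-17664, 24192) (by decide +kernel)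
        (CovZ.n2 (-17472, 24384) (by decide +kernel)
         (CovZ.n2 (-17472, 24192) (by decide +kernel)
          (CovZ.n2 (-17568, 24288) (by decide +kernel)
           (CovZ.leaf K2_ok TB_l23353 _)
           (CovZ.leaf K2_ok TB_l23354 _))
          (CovZ.n1 (-17376, 24288) (by decide +kernel)
           (CovZ.leaf K2_ok TB_l23355 _)
           (CovZ.leaf K2_ok TB_l23356 _)))
         (CovZ.n1 (-17664, 24384) (by decide +kernel)
          (CovZ.leaf K2_ok TB_l23357 _)
          (CovZ.leaf K2_ok TB_l23358 _)))
        (CovZ.n1 (-17472, 24000) (by decide +kernel)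
         (CovZ.n2 (-17664, 24000) (by decide +kernel)
          (CovZ.leaf K2_ok TB_l23359 _)
          (CovZ.n1 (-17568, 23904) (by decide +kernel)
           (CovZ.leaf K2_ok TB_l23360 _)
           (CovZ.leaf K2_ok TB_l23361 _)))
         (CovZ.n1 (-17472, 24192) (by decide +kernel)
          (CovZ.n2 (-17376, 24096) (by decide +kernel)
           (CovZ.leaf K2_ok TB_l23362 _)
           (CovZ.leaf K2_ok TB_l23363 _))
          (CovZ.leaf K2_ok TB_l23364 _))))
       (CovZ.n1 (-17280, 24576) (by decide +kernel)
        (CovZ.n2 (-17088, 24384) (by decide +kernel)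
         (CovZ.n2 (-17280, 24384) (by decide +kernel)
          (CovZ.n2 (-17184, 24480) (by decide +kernel)
           (CovZ.n2 (-17184, 24384) (by decide +kernel)
            (CovZ.leaf K2_ok TB_l23365 _)
            (CovZ.leaf K2_ok TB_l23366 _))
           (CovZ.leaf K2_ok TB_l23367 _))
          (CovZ.n1 (-17184, 24288) (by decide +kernel)
           (CovZ.leaf K2_ok TB_l23368 _)
           (CovZ.n1 (-17184, 24384) (by decide +kernel)
            (CovZ.leaf K2_ok TB_l23369 _)
            (CovZ.leaf K2_ok TB_l23370 _))))
         (CovZ.n1 (-17088, 24576) (by decide +kernel)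
          (CovZ.n2 (-16992, 24480) (by decide +kernel)
           (CovZ.leaf K2_ok TB_l23371 _)
           (CovZ.n1 (-16992, 24576) (by decide +kernel)
            (CovZ.leaf K2_ok TB_l23372 _)
            (CovZ.leaf K2_ok TB_l23373 _)))
          (CovZ.n1 (-17184, 24480) (by decide +kernel)
           (CovZ.n2 (-17184, 24576) (by decide +kernel)
            (CovZ.leaf K2_ok TB_l23374 _)
            (CovZ.leaf K2_ok TB_l23375 _))
           (CovZ.n1 (-17088, 24480) (by decide +kernel)
            (CovZ.leaf K2_ok TB_l23376 _)
            (CovZ.leaf K2_ok TB_l23377 _)))))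
        (CovZ.n1 (-17472, 24384) (by decide +kernel)
         (CovZ.n2 (-17472, 24576) (by decide +kernel)
          (CovZ.n2 (-17376, 24480) (by decide +kernel)
           (CovZ.leaf K2_ok TB_l23378 _)
           (CovZ.leaf K2_ok TB_l23379 _))
          (CovZ.leaf K2_ok TB_l23380 _))
         (CovZ.n1 (-17280, 24384) (by decide +kernel)
          (CovZ.n2 (-17376, 24288) (by decide +kernel)
           (CovZ.leaf K2_ok TB_l23381 _)
           (CovZ.leaf K2_ok TB_l23382 _))
          (CovZ.n1 (-17376, 24480) (by decide +kernel)
           (CovZ.leaf K2_ok TB_l23383 _)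
           (CovZ.leaf K2_ok TB_l23384 _)))))))
     (CovZ.n1 (-18048, 24192) (by decide +kernel)
      (CovZ.n2 (-18048, 24576) (by decide +kernel)
       (CovZ.subM 2404907604760405225489198433597688225553879454140319749911559932043601961758072039936110578444927228591858548737 (by decide +kernel)
        (CovZ.n2 (-17856, 24384) (by decide +kernel)
         (CovZ.n2 (-18048, 24384) (by decide +kernel)
          (CovZ.leaf K2_ok TB_l23385 _)
          (CovZ.leaf K2_ok TB_l23386 _))
         (CovZ.n1 (-17856, 24576) (by decide +kernel)
          (CovZ.leaf K2_ok TB_l23387 _)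
          (CovZ.leaf K2_ok TB_l23388 _))))
       (CovZ.n1 (-18240, 24384) (by decide +kernel)
        (CovZ.n2 (-18240, 24576) (by decide +kernel)
         (CovZ.leaf K2_ok TB_l23389 _)
         (CovZ.leaf K2_ok TB_l23390 _))
        (CovZ.n1 (-18048, 24384) (by decide +kernel)
         (CovZ.leaf K2_ok TB_l23391 _)
         (CovZ.leaf K2_ok TB_l23392 _))))
      (CovZ.subM 2404907604760405225489198433597688225553879454140319749911559932043601961758072039936110578444927228591858548737 (by decide +kernel)
       (CovZ.n1 (-17664, 24192) (by decide +kernel)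
        (CovZ.n2 (-17856, 24000) (by decide +kernel)
         (CovZ.n2 (-17856, 24192) (by decide +kernel)
          (CovZ.leaf K2_ok TB_l23393 _)
          (CovZ.leaf K2_ok TB_l23394 _))
         (CovZ.n1 (-17664, 24000) (by decide +kernel)
          (CovZ.leaf K2_ok TB_l23395 _)
          (CovZ.leaf K2_ok TB_l23396 _)))
        (CovZ.n1 (-17856, 24384) (by decide +kernel)
         (CovZ.n2 (-17664, 24384) (by decide +kernel)
          (CovZ.leaf K2_ok TB_l23397 _)
          (CovZ.leaf K2_ok TB_l23398 _))
         (CovZ.n1 (-17856, 24192) (by decide +kernel)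
          (CovZ.leaf K2_ok TB_l23399 _)
          (CovZ.leaf K2_ok TB_l23400 _)))))))))

theorem TB_s10_18 : SqZ TB_M TB_L [0, 7, 6, 1] (-32256) (-4608) 1536 10 18 :=
  SqZ.mk (a := (-16896)) (b := (-15360)) (c := 23040) (d := 24576) (by norm_num) (by norm_num) (by norm_num) (by norm_num)
    (CovZ.topM TB_LL 2404907604760405225489198433597688225553879454140319749911559932043601961758072039936110578444927228591858548736 (by decide +kernel) (CovZ.n2 (-16128, 23808) (by decide +kernel)
    (CovZ.badM (by decide +kernel))
    (CovZ.n1 (-16128, 23040) (by decide +kernel)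
     (CovZ.n2 (-16512, 23424) (by decide +kernel)
      (CovZ.badM (by decide +kernel))
      (CovZ.n1 (-16512, 23040) (by decide +kernel)
       (CovZ.n2 (-16704, 23232) (by decide +kernel)
        (CovZ.badM (by decide +kernel))
        (CovZ.n1 (-16704, 23040) (by decide +kernel)
         (CovZ.n2 (-16800, 23136) (by decide +kernel)
          (CovZ.badM (by decide +kernel))
          (CovZ.n1 (-16800, 23040) (by decide +kernel)
           (CovZ.n2 (-16848, 23088) (by decide +kernel)
            (CovZ.badM (by decide +kernel))
            (CovZ.n1 (-16848, 23040) (by decide +kernel)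
             (CovZ.leaf K2_ok TB_l30354 _)
             (CovZ.badM (by decide +kernel))))
           (CovZ.badM (by decide +kernel))))
         (CovZ.badM (by decide +kernel))))
       (CovZ.badM (by decide +kernel))))
     (CovZ.badM (by decide +kernel)))))
    (CovZ.topM TB_LL 2404907604760405225489198433597688225553879454140319749911559932043601961758072039936110578444927228591858548736 (by decide +kernel) (CovZ.n0 (-16128, 23808) (by decide +kernel)
    (CovZ.n2 (-16896, 23808) (by decide +kernel)
     (CovZ.n2 (-16512, 24192) (by decide +kernel)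
      (CovZ.n2 (-16512, 23808) (by decide +kernel)
       (CovZ.n2 (-16704, 24000) (by decide +kernel)
        (CovZ.badM (by decide +kernel))
        (CovZ.n1 (-16704, 23808) (by decide +kernel)
         (CovZ.n2 (-16800, 23904) (by decide +kernel)
          (CovZ.badM (by decide +kernel))
          (CovZ.n1 (-16800, 23808) (by decide +kernel)
           (CovZ.n2 (-16848, 23856) (by decide +kernel)
            (CovZ.badM (by decide +kernel))
            (CovZ.leaf K2_ok TB_l30391 _))
           (CovZ.badM (by decide +kernel))))
         (CovZ.badM (by decide +kernel))))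
       (CovZ.badM (by decide +kernel)))
      (CovZ.n1 (-16896, 24192) (by decide +kernel)
       (CovZ.n2 (-16704, 24384) (by decide +kernel)
        (CovZ.n2 (-16704, 24192) (by decide +kernel)
         (CovZ.n2 (-16800, 24288) (by decide +kernel)
          (CovZ.badM (by decide +kernel))
          (CovZ.n1 (-16800, 24192) (by decide +kernel)
           (CovZ.leaf K2_ok TB_l30408 _)
           (CovZ.badM (by decide +kernel))))
         (CovZ.badM (by decide +kernel)))
        (CovZ.n1 (-16896, 24384) (by decide +kernel)
         (CovZ.n2 (-16800, 24480) (by decide +kernel)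
          (CovZ.n2 (-16800, 24384) (by decide +kernel)
           (CovZ.leaf K2_ok TB_l30417 _)
           (CovZ.badM (by decide +kernel)))
          (CovZ.n1 (-16896, 24480) (by decide +kernel)
           (CovZ.leaf K2_ok TB_l30419 _)
           (CovZ.leaf K2_ok TB_l30420 _)))
         (CovZ.n1 (-16800, 24288) (by decide +kernel)
          (CovZ.n2 (-16896, 24288) (by decide +kernel)
           (CovZ.leaf K2_ok TB_l30421 _)
           (CovZ.leaf K2_ok TB_l30422 _))
          (CovZ.n1 (-16800, 24384) (by decide +kernel)
           (CovZ.badM (by decide +kernel))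
           (CovZ.leaf K2_ok TB_l30424 _)))))
       (CovZ.n1 (-16704, 24000) (by decide +kernel)
        (CovZ.n2 (-16896, 24000) (by decide +kernel)
         (CovZ.n2 (-16800, 24096) (by decide +kernel)
          (CovZ.n2 (-16800, 24000) (by decide +kernel)
           (CovZ.n2 (-16848, 24048) (by decide +kernel)
            (CovZ.badM (by decide +kernel))
            (CovZ.leaf K2_ok TB_l30426 _))
           (CovZ.badM (by decide +kernel)))
          (CovZ.n1 (-16896, 24096) (by decide +kernel)
           (CovZ.leaf K2_ok TB_l30429 _)
           (CovZ.n1 (-16848, 24048) (by decide +kernel)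
            (CovZ.leaf K2_ok TB_l30430 _)
            (CovZ.leaf K2_ok TB_l30431 _))))
         (CovZ.n1 (-16800, 23904) (by decide +kernel)
          (CovZ.n2 (-16896, 23904) (by decide +kernel)
           (CovZ.n2 (-16848, 23952) (by decide +kernel)
            (CovZ.leaf K2_ok TB_l30432 _)
            (CovZ.leaf K2_ok TB_l30433 _))
           (CovZ.n1 (-16848, 23856) (by decide +kernel)
            (CovZ.leaf K2_ok TB_l30434 _)
            (CovZ.leaf K2_ok TB_l30435 _)))
          (CovZ.n1 (-16800, 24000) (by decide +kernel)
           (CovZ.badM (by decide +kernel))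
           (CovZ.n1 (-16848, 23952) (by decide +kernel)
            (CovZ.leaf K2_ok TB_l30438 _)
            (CovZ.badM (by decide +kernel))))))
        (CovZ.n1 (-16704, 24192) (by decide +kernel)
         (CovZ.badM (by decide +kernel))
         (CovZ.n1 (-16800, 24096) (by decide +kernel)
          (CovZ.n2 (-16800, 24192) (by decide +kernel)
           (CovZ.badM (by decide +kernel))
           (CovZ.leaf K2_ok TB_l30449 _))
          (CovZ.badM (by decide +kernel)))))))
     (CovZ.n1 (-16512, 23424) (by decide +kernel)
      (CovZ.n2 (-16896, 23424) (by decide +kernel)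
       (CovZ.n2 (-16704, 23616) (by decide +kernel)
        (CovZ.n2 (-16704, 23424) (by decide +kernel)
         (CovZ.n2 (-16800, 23520) (by decide +kernel)
          (CovZ.badM (by decide +kernel))
          (CovZ.n1 (-16800, 23424) (by decide +kernel)
           (CovZ.n2 (-16848, 23472) (by decide +kernel)
            (CovZ.badM (by decide +kernel))
            (CovZ.n1 (-16848, 23424) (by decide +kernel)
             (CovZ.leaf K2_ok TB_l30463 _)
             (CovZ.badM (by decide +kernel))))
           (CovZ.badM (by decide +kernel))))
         (CovZ.badM (by decide +kernel)))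
        (CovZ.n1 (-16896, 23616) (by decide +kernel)
         (CovZ.n2 (-16800, 23712) (by decide +kernel)
          (CovZ.n2 (-16800, 23616) (by decide +kernel)
           (CovZ.n2 (-16848, 23664) (by decide +kernel)
            (CovZ.badM (by decide +kernel))
            (CovZ.leaf K2_ok TB_l30484 _))
           (CovZ.badM (by decide +kernel)))
          (CovZ.n1 (-16896, 23712) (by decide +kernel)
           (CovZ.n2 (-16848, 23760) (by decide +kernel)
            (CovZ.leaf K2_ok TB_l30488 _)
            (CovZ.leaf K2_ok TB_l30489 _))
           (CovZ.n1 (-16848, 23664) (by decide +kernel)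
            (CovZ.leaf K2_ok TB_l30490 _)
            (CovZ.leaf K2_ok TB_l30491 _))))
         (CovZ.n1 (-16800, 23520) (by decide +kernel)
          (CovZ.n2 (-16896, 23520) (by decide +kernel)
           (CovZ.n2 (-16848, 23568) (by decide +kernel)
            (CovZ.leaf K2_ok TB_l30492 _)
            (CovZ.leaf K2_ok TB_l30493 _))
           (CovZ.n1 (-16848, 23472) (by decide +kernel)
            (CovZ.leaf K2_ok TB_l30494 _)
            (CovZ.leaf K2_ok TB_l30495 _)))
          (CovZ.n1 (-16800, 23616) (by decide +kernel)
           (CovZ.badM (by decide +kernel))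
           (CovZ.n1 (-16848, 23568) (by decide +kernel)
            (CovZ.leaf K2_ok TB_l30499 _)
            (CovZ.badM (by decide +kernel)))))))
       (CovZ.n1 (-16704, 23232) (by decide +kernel)
        (CovZ.n2 (-16896, 23232) (by decide +kernel)
         (CovZ.n2 (-16800, 23328) (by decide +kernel)
          (CovZ.n2 (-16800, 23232) (by decide +kernel)
           (CovZ.n2 (-16848, 23280) (by decide +kernel)
            (CovZ.badM (by decide +kernel))
            (CovZ.n1 (-16848, 23232) (by decide +kernel)
             (CovZ.leaf K2_ok TB_l30502 _)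
             (CovZ.badM (by decide +kernel))))
           (CovZ.badM (by decide +kernel)))
          (CovZ.n1 (-16896, 23328) (by decide +kernel)
           (CovZ.n2 (-16848, 23376) (by decide +kernel)
            (CovZ.n2 (-16848, 23328) (by decide +kernel)
             (CovZ.leaf K2_ok TB_l30507 _)
             (CovZ.badM (by decide +kernel)))
            (CovZ.leaf K2_ok TB_l30509 _))
           (CovZ.n1 (-16848, 23280) (by decide +kernel)
            (CovZ.leaf K2_ok TB_l30510 _)
            (CovZ.n1 (-16848, 23328) (by decide +kernel)
             (CovZ.badM (by decide +kernel))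
             (CovZ.leaf K2_ok TB_l30512 _)))))
         (CovZ.n1 (-16800, 23136) (by decide +kernel)
          (CovZ.n2 (-16896, 23136) (by decide +kernel)
           (CovZ.n2 (-16848, 23184) (by decide +kernel)
            (CovZ.n2 (-16848, 23136) (by decide +kernel)
             (CovZ.leaf K2_ok TB_l30513 _)
             (CovZ.badM (by decide +kernel)))
            (CovZ.leaf K2_ok TB_l30515 _))
           (CovZ.n1 (-16848, 23088) (by decide +kernel)
            (CovZ.leaf K2_ok TB_l30516 _)
            (CovZ.n1 (-16848, 23136) (by decide +kernel)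
             (CovZ.badM (by decide +kernel))
             (CovZ.leaf K2_ok TB_l30518 _))))
          (CovZ.n1 (-16800, 23232) (by decide +kernel)
           (CovZ.badM (by decide +kernel))
           (CovZ.n1 (-16848, 23184) (by decide +kernel)
            (CovZ.n2 (-16848, 23232) (by decide +kernel)
             (CovZ.badM (by decide +kernel))
             (CovZ.leaf K2_ok TB_l30524 _))
            (CovZ.badM (by decide +kernel))))))
        (CovZ.n1 (-16704, 23424) (by decide +kernel)
         (CovZ.badM (by decide +kernel))
         (CovZ.n1 (-16800, 23328) (by decide +kernel)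
          (CovZ.n2 (-16800, 23424) (by decide +kernel)
           (CovZ.badM (by decide +kernel))
           (CovZ.n1 (-16848, 23376) (by decide +kernel)
            (CovZ.n2 (-16848, 23424) (by decide +kernel)
             (CovZ.badM (by decide +kernel))
             (CovZ.leaf K2_ok TB_l30544 _))
            (CovZ.badM (by decide +kernel))))
          (CovZ.badM (by decide +kernel))))))
      (CovZ.n1 (-16512, 23808) (by decide +kernel)
       (CovZ.badM (by decide +kernel))
       (CovZ.n1 (-16704, 23616) (by decide +kernel)
        (CovZ.n2 (-16704, 23808) (by decide +kernel)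
         (CovZ.badM (by decide +kernel))
         (CovZ.n1 (-16800, 23712) (by decide +kernel)
          (CovZ.n2 (-16800, 23808) (by decide +kernel)
           (CovZ.badM (by decide +kernel))
           (CovZ.n1 (-16848, 23760) (by decide +kernel)
            (CovZ.leaf K2_ok TB_l30569 _)
            (CovZ.badM (by decide +kernel))))
          (CovZ.badM (by decide +kernel))))
        (CovZ.badM (by decide +kernel))))))
    (CovZ.n1 (-16128, 24576) (by decide +kernel)
     (CovZ.badM (by decide +kernel))
     (CovZ.n1 (-16512, 24192) (by decide +kernel)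
      (CovZ.n2 (-16512, 24576) (by decide +kernel)
       (CovZ.badM (by decide +kernel))
       (CovZ.n1 (-16704, 24384) (by decide +kernel)
        (CovZ.n2 (-16704, 24576) (by decide +kernel)
         (CovZ.badM (by decide +kernel))
         (CovZ.n1 (-16800, 24480) (by decide +kernel)
          (CovZ.n2 (-16800, 24576) (by decide +kernel)
           (CovZ.badM (by decide +kernel))
           (CovZ.leaf K2_ok TB_l30594 _))
          (CovZ.badM (by decide +kernel))))
        (CovZ.badM (by decide +kernel))))
      (CovZ.badM (by decide +kernel))))))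

theorem TB_s11_18 : SqZ TB_M TB_L [0, 7, 6, 1] (-32256) (-4608) 1536 11 18 :=
  SqZ.mk (a := (-15360)) (b := (-13824)) (c := 23040) (d := 24576) (by norm_num) (by norm_num) (by norm_num) (by norm_num)
    (CovZ.topM TB_LL 0 (by decide +kernel) (CovZ.badM (by decide +kernel)))
    (CovZ.topM TB_LL 1419606883389857208104148062281258856159455782592418086487285545274686109596480318996466895925319463985864300012238628776434768805888 (by decide +kernel) (CovZ.n0 (-14592, 23808) (by decide +kernel)
    (CovZ.badM (by decide +kernel))
    (CovZ.n1 (-14592, 24576) (by decide +kernel)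
     (CovZ.badM (by decide +kernel))
     (CovZ.badM (by decide +kernel)))))

theorem TB_s12_18 : SqZ TB_M TB_L [0, 7, 6, 1] (-32256) (-4608) 1536 12 18 :=
  SqZ.mk (a := (-13824)) (b := (-12288)) (c := 23040) (d := 24576) (by norm_num) (by norm_num) (by norm_num) (by norm_num)
    (CovZ.topM TB_LL 0 (by decide +kernel) (CovZ.badM (by decide +kernel)))
    (CovZ.topM TB_LL 0 (by decide +kernel) (CovZ.badM (by decide +kernel)))

theorem TB_s0_19 : SqZ TB_M TB_L [0, 7, 6, 1] (-32256) (-4608) 1536 0 19 :=
  SqZ.mk (a := (-32256)) (b := (-30720)) (c := 24576) (d := 26112) (by norm_num) (by norm_num) (by norm_num) (by norm_num)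
    (CovZ.topM TB_LL 2353129859973906143154175441529284225823720636258563057311064562201646888730119284886260675824942078871207936 (by decide +kernel) (CovZ.leaf K2_ok TB_l1849 _))
    (CovZ.topM TB_LL 2353129859973906143154175441529284225823720636258563057311064562201646888730119284886260675824942078871207936 (by decide +kernel) (CovZ.leaf K2_ok TB_l1850 _))

theorem TB_s1_19 : SqZ TB_M TB_L [0, 7, 6, 1] (-32256) (-4608) 1536 1 19 :=
  SqZ.mk (a := (-30720)) (b := (-29184)) (c := 24576) (d := 26112) (by norm_num) (by norm_num) (by norm_num) (by norm_num)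
    (CovZ.topM TB_LL 5043456795491623199145623275972558008579490852443297809755944613054516948958865054560048546623859907511181296595369984 (by decide +kernel) (CovZ.leaf K2_ok TB_l4993 _))
    (CovZ.topM TB_LL 5043456795491623199145623275972558008579490852443297809755944613054516948958865054560048546623859907511181296595369984 (by decide +kernel) (CovZ.leaf K2_ok TB_l4994 _))

theorem TB_s2_19 : SqZ TB_M TB_L [0, 7, 6, 1] (-32256) (-4608) 1536 2 19 :=
  SqZ.mk (a := (-29184)) (b := (-27648)) (c := 24576) (d := 26112) (by norm_num) (by norm_num) (by norm_num) (by norm_num)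
    (CovZ.topM TB_LL 5043456793138493339171717132834328964652041523698219635926264656343733324316518645163976051077084924416754786808102912 (by decide +kernel) (CovZ.leaf K2_ok TB_l8284 _))
    (CovZ.topM TB_LL 5043456793138493339171717132834328964652041523698219635926264656343733324316518645163976051077084924416754786808102912 (by decide +kernel) (CovZ.leaf K2_ok TB_l8285 _))

theorem TB_s3_19 : SqZ TB_M TB_L [0, 7, 6, 1] (-32256) (-4608) 1536 3 19 :=
  SqZ.mk (a := (-27648)) (b := (-26112)) (c := 24576) (d := 26112) (by norm_num) (by norm_num) (by norm_num) (by norm_num)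
    (CovZ.topM TB_LL 5043456793138493409163740325890678490535391066932433103450881491608005896667886977445133152830331249669272369090527360 (by decide +kernel) (CovZ.leaf K2_ok TB_l11617 _))
    (CovZ.topM TB_LL 5043456793138493409163740325890678490535391066932433103450881491608005896667886977445133152830331249669272369090527360 (by decide +kernel) (CovZ.leaf K2_ok TB_l11618 _))

theorem TB_s4_19 : SqZ TB_M TB_L [0, 7, 6, 1] (-32256) (-4608) 1536 4 19 :=
  SqZ.mk (a := (-26112)) (b := (-24576)) (c := 24576) (d := 26112) (by norm_num) (by norm_num) (by norm_num) (by norm_num)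
    (CovZ.topM TB_LL 631663411835949099859883151205914022257904644374446960892027670799798706760137269538072325248303414314334467127509124 (by decide +kernel) (CovZ.leaf K2_ok TB_l13834 _))
    (CovZ.topM TB_LL 631663411835949099859883151205914022257904644374446960892027670799798706760137269538072325248303414314334467127509124 (by decide +kernel) (CovZ.leaf K2_ok TB_l13835 _))

end Pool.Agent.TET
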