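import Pool.Agent.Helper38_TET.TB_M
import Pool.Agent.Helper38_TET.TB_L
import Pool.Agent.Helper38_TET.TB_237
import Pool.Agent.Helper38_TET.TB_238
import Pool.Agent.Helper38_TET.TB_239
import Pool.Agent.Helper38_TET.TB_240
import Pool.Agent.Helper38_TET.TB_241
import Pool.Agent.Helper38_TET.TB_242
import Pool.Agent.Helper38_TET.TB_246
import Pool.Agent.Helper38_TET.TB_313
import Pool.Agent.Helper38_TET.TB_314
import Pool.Agent.Helper38_TET.TB_315
import Pool.Agent.Helper38_TET.TB_316
import Pool.Agent.Helper38_TET.TB_320
import Pool.Agent.Helper38_TET.TB_321
import Pool.Agent.Helper38_TET.TB_333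

/-!
# MP_c7c9bf_co: certificates, family TB
-/

set_option autoImplicit false
set_option maxRecDepth 100000

namespace Pool.Agent.TET

theorem TB_u468 : CovZ TB_M (toL (selN TB_LN 196256248024066104445037897242781727121170674792068762406077698147819128167180309133180851823009171294576543968665610081500299842682357423344640)) [0, 7, 6, 1] (-14208, 27264) (-14592, 26880) (-13824, 26880) :=
    (CovZ.n1 (-14208, 26880) (by decide +kernel)
       (CovZ.subM 762168912363022817404003004394248711415480097755279626062273779447252295418786529972003050623018550123684630756775623418323743805254433508352 (by decide +kernel)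
        (CovZ.n2 (-14400, 27072) (by decide +kernel)
         (CovZ.n2 (-14208, 27072) (by decide +kernel)
          (CovZ.subM 762145642166990290864647761179972242614403843424065222875050897781117870917414045167635043019103578490912950192288014732455596800176023404544 (by decide +kernel)
           (CovZ.n2 (-14304, 26976) (by decide +kernel)
            (CovZ.n2 (-14304, 27072) (by decide +kernel)
             (CovZ.n2 (-14256, 27024) (by decide +kernel)
              (CovZ.leaf K2_ok TB_l46995 _)
              (CovZ.leaf K2_ok TB_l46996 _))
             (CovZ.n1 (-14352, 27024) (by decide +kernel)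
              (CovZ.leaf K2_ok TB_l46997 _)
              (CovZ.leaf K2_ok TB_l46998 _)))
            (CovZ.subM 762145642166990290864647761179972242614403843424065222377727661371331228762031797020814202918647427257323238359180927679249853060115800784896 (by decide +kernel)
             (CovZ.n1 (-14208, 26976) (by decide +kernel)
              (CovZ.n2 (-14256, 26928) (by decide +kernel)
               (CovZ.n2 (-14256, 26976) (by decide +kernel)
                (CovZ.n2 (-14232, 26952) (by decide +kernel)
                 (CovZ.leaf K2_ok TB_l46999 _)
                 (CovZ.leaf K2_ok TB_l47000 _))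
                (CovZ.n1 (-14280, 26952) (by decide +kernel)
                 (CovZ.leaf K2_ok TB_l47001 _)
                 (CovZ.leaf K2_ok TB_l47002 _)))
               (CovZ.subM 762145642166990290864647761179972242614403843424065222377723867096038022172794340849684107193235344521452755679778443119817280951402522214400 (by decide +kernel)
                (CovZ.n1 (-14208, 26928) (by decide +kernel)
                 (CovZ.badM (by decide +kernel))
                 (CovZ.n1 (-14232, 26952) (by decide +kernel)
                  (CovZ.leaf K2_ok TB_l47003 _)
                  (CovZ.n1 (-14232, 26928) (by decide +kernel)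
                   (CovZ.leaf K2_ok TB_l47004 _)
                   (CovZ.leaf K2_ok TB_l47005 _))))))
              (CovZ.n1 (-14256, 27024) (by decide +kernel)
               (CovZ.leaf K2_ok TB_l47006 _)
               (CovZ.n1 (-14256, 26976) (by decide +kernel)
                (CovZ.leaf K2_ok TB_l47007 _)
                (CovZ.leaf K2_ok TB_l47008 _)))))))
          (CovZ.n1 (-14304, 27168) (by decide +kernel)
           (CovZ.leaf K2_ok TB_l35671 _)
           (CovZ.n1 (-14304, 27072) (by decide +kernel)
            (CovZ.leaf K2_ok TB_l35672 _)
            (CovZ.leaf K2_ok TB_l35673 _))))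
         (CovZ.n1 (-14400, 26880) (by decide +kernel)
          (CovZ.n2 (-14496, 26976) (by decide +kernel)
           (CovZ.subM 762145642166990290864647761179972242614403843424065222875050897781117870917414045167635043019103578490912950192288014741900329765915313831936 (by decide +kernel)
            (CovZ.n2 (-14400, 26976) (by decide +kernel)
             (CovZ.n2 (-14448, 26928) (by decide +kernel)
              (CovZ.n2 (-14448, 26976) (by decide +kernel)
               (CovZ.leaf K2_ok TB_l47009 _)
               (CovZ.leaf K2_ok TB_l47010 _))
              (CovZ.leaf K2_ok TB_l47011 _))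
             (CovZ.leaf K2_ok TB_l47012 _)))
           (CovZ.subM 762145642166990290864647761179972536182226690153220745598778594524545919168038819938959092798412534720382581155676175973936988094164862239744 (by decide +kernel)
            (CovZ.n1 (-14496, 26880) (by decide +kernel)
             (CovZ.n2 (-14544, 26928) (by decide +kernel)
              (CovZ.leaf K2_ok TB_l47013 _)
              (CovZ.n1 (-14544, 26880) (by decide +kernel)
               (CovZ.leaf K2_ok TB_l35674 _)
               (CovZ.leaf K2_ok TB_l47014 _)))
             (CovZ.subM 762145642166990290864647761179972242614403843424065222377727661371331228762031797020814202918647427258003803093022804615621335240718627635200 (by decide +kernel)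
              (CovZ.n1 (-14448, 26928) (by decide +kernel)
               (CovZ.n2 (-14448, 26880) (by decide +kernel)
                (CovZ.leaf K2_ok TB_l47015 _)
                (CovZ.n1 (-14424, 26904) (by decide +kernel)
                 (CovZ.leaf K2_ok TB_l47016 _)
                 (CovZ.leaf K2_ok TB_l47017 _)))
               (CovZ.leaf K2_ok TB_l47018 _))))))
          (CovZ.subM 762145642166990290864647761179972242614403843424065222875050897781117870917414045167635043019103578490912950192288014732455596800176023404544 (by decide +kernel)
           (CovZ.n1 (-14304, 26976) (by decide +kernel)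
            (CovZ.n2 (-14304, 26880) (by decide +kernel)
             (CovZ.n2 (-14352, 26928) (by decide +kernel)
              (CovZ.subM 762145642166990290864647761179972242614403843424065222377727661371331228762031797020814202918647427257323238359180927679249853060115800784896 (by decide +kernel)
               (CovZ.n2 (-14304, 26928) (by decide +kernel)
                (CovZ.n2 (-14328, 26904) (by decide +kernel)
                 (CovZ.n2 (-14328, 26928) (by decide +kernel)
                  (CovZ.leaf K2_ok TB_l47019 _)
                  (CovZ.leaf K2_ok TB_l47020 _))
                 (CovZ.leaf K2_ok TB_l47021 _))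
                (CovZ.leaf K2_ok TB_l47022 _)))
              (CovZ.subM 762145642166990290864647761179972242614403843424065222377723867096038022172794340849684107193235344522133320413620320046743958108672020709376 (by decide +kernel)
               (CovZ.n1 (-14352, 26880) (by decide +kernel)
                (CovZ.n2 (-14376, 26904) (by decide +kernel)
                 (CovZ.leaf K2_ok TB_l47023 _)
                 (CovZ.n1 (-14376, 26880) (by decide +kernel)
                  (CovZ.leaf K2_ok TB_l47024 _)
                  (CovZ.leaf K2_ok TB_l47025 _)))
                (CovZ.n1 (-14328, 26904) (by decide +kernel)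
                 (CovZ.badM (by decide +kernel))
                 (CovZ.leaf K2_ok TB_l47027 _)))))
             (CovZ.subM 762145642166990290864647761179972242614403843424065222377727661371331228762031797020814202918647427257323238359180927679249853060115800784896 (by decide +kernel)
              (CovZ.n1 (-14256, 26928) (by decide +kernel)
               (CovZ.badM (by decide +kernel))
               (CovZ.n1 (-14304, 26928) (by decide +kernel)
                (CovZ.n2 (-14280, 26952) (by decide +kernel)
                 (CovZ.n2 (-14280, 26928) (by decide +kernel)
                  (CovZ.leaf K2_ok TB_l47028 _)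
                  (CovZ.leaf K2_ok TB_l47029 _))
                 (CovZ.leaf K2_ok TB_l47030 _))
                (CovZ.n1 (-14280, 26904) (by decide +kernel)
                 (CovZ.leaf K2_ok TB_l47031 _)
                 (CovZ.n1 (-14280, 26928) (by decide +kernel)
                  (CovZ.badM (by decide +kernel))
                  (CovZ.leaf K2_ok TB_l47032 _)))))))
            (CovZ.n1 (-14400, 26976) (by decide +kernel)
             (CovZ.n2 (-14352, 27024) (by decide +kernel)
              (CovZ.n2 (-14352, 26976) (by decide +kernel)
               (CovZ.leaf K2_ok TB_l47033 _)
               (CovZ.leaf K2_ok TB_l47034 _))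
              (CovZ.leaf K2_ok TB_l47035 _))
             (CovZ.n1 (-14352, 26928) (by decide +kernel)
              (CovZ.leaf K2_ok TB_l47036 _)
              (CovZ.n1 (-14352, 26976) (by decide +kernel)
               (CovZ.leaf K2_ok TB_l47037 _)
               (CovZ.leaf K2_ok TB_l47038 _)))))))))
       (CovZ.subM 1143242124193355939023758045580731745104340047316937704782272227167982031720278893503628746684935161285774354847647182282565453603435167352832 (by decide +kernel)
        (CovZ.n1 (-14016, 27072) (by decide +kernel)
         (CovZ.subM 364838969031193302482766052006283526032980136126251452021507678342183567622466572077817410044533754184710018100175621268147070673354752 (by decide +kernel)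
          (CovZ.n2 (-14016, 26880) (by decide +kernel)
           (CovZ.n2 (-14112, 26976) (by decide +kernel)
            (CovZ.subM 3794275293206589237456171130095725417791726641306518926717703310370089258809556992 (by decide +kernel)
             (CovZ.n2 (-14016, 26976) (by decide +kernel)
              (CovZ.badM (by decide +kernel))
              (CovZ.n1 (-14064, 27024) (by decide +kernel)
               (CovZ.n2 (-14016, 27024) (by decide +kernel)
                (CovZ.badM (by decide +kernel))
                (CovZ.n1 (-14040, 27048) (by decide +kernel)
                 (CovZ.leaf K2_ok TB_l47039 _)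
                 (CovZ.n1 (-14040, 27024) (by decide +kernel)
                  (CovZ.leaf K2_ok TB_l47040 _)
                  (CovZ.leaf K2_ok TB_l47041 _))))
               (CovZ.badM (by decide +kernel)))))
            (CovZ.n1 (-14112, 26880) (by decide +kernel)
             (CovZ.n2 (-14160, 26928) (by decide +kernel)
              (CovZ.badM (by decide +kernel))
              (CovZ.badM (by decide +kernel)))
             (CovZ.badM (by decide +kernel))))
           (CovZ.n1 (-13920, 26976) (by decide +kernel)
            (CovZ.n2 (-13920, 26880) (by decide +kernel)
             (CovZ.badM (by decide +kernel))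
             (CovZ.badM (by decide +kernel)))
            (CovZ.subM 3794275293206589237456171130095725417791726641306518926717703310370089258809556992 (by decide +kernel)
             (CovZ.n1 (-14016, 26976) (by decide +kernel)
              (CovZ.n2 (-13968, 27024) (by decide +kernel)
               (CovZ.badM (by decide +kernel))
               (CovZ.n1 (-14016, 27024) (by decide +kernel)
                (CovZ.n2 (-13992, 27048) (by decide +kernel)
                 (CovZ.badM (by decide +kernel))
                 (CovZ.leaf K2_ok TB_l47045 _))
                (CovZ.badM (by decide +kernel))))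
              (CovZ.badM (by decide +kernel)))))))
         (CovZ.n1 (-14208, 27072) (by decide +kernel)
          (CovZ.n2 (-14112, 27168) (by decide +kernel)
           (CovZ.subM 762168901006167750285145339561063919597586401750477842101878154395753242815290630282021738753687449198070408209162755752174669584694404712448 (by decide +kernel)
            (CovZ.n2 (-14112, 27072) (by decide +kernel)
             (CovZ.leaf K2_ok TB_l35675 _)
             (CovZ.n1 (-14064, 27120) (by decide +kernel)
              (CovZ.n2 (-14064, 27072) (by decide +kernel)
               (CovZ.leaf K2_ok TB_l47046 _)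
               (CovZ.leaf K2_ok TB_l47047 _))
              (CovZ.leaf K2_ok TB_l35676 _))))
           (CovZ.leaf K2_ok TB_l35677 _))
          (CovZ.subM 762145642166990290864647761179972242614403843424065222377727661371331228762031797020814202918653137641890637106869107169110043081183925895168 (by decide +kernel)
           (CovZ.n1 (-14112, 26976) (by decide +kernel)
            (CovZ.n2 (-14208, 26976) (by decide +kernel)
             (CovZ.n2 (-14160, 27024) (by decide +kernel)
              (CovZ.n2 (-14160, 26976) (by decide +kernel)
               (CovZ.n2 (-14184, 27000) (by decide +kernel)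
                (CovZ.leaf K2_ok TB_l47048 _)
                (CovZ.leaf K2_ok TB_l47049 _))
               (CovZ.n1 (-14136, 27000) (by decide +kernel)
                (CovZ.badM (by decide +kernel))
                (CovZ.leaf K2_ok TB_l47052 _)))
              (CovZ.leaf K2_ok TB_l47053 _))
             (CovZ.subM 762145642166990290864647761179972242614403843424065222377723867096038022172794340849684107193235344521452755679778443119817280951402522214400 (by decide +kernel)
              (CovZ.n1 (-14160, 26928) (by decide +kernel)
               (CovZ.n2 (-14208, 26928) (by decide +kernel)
                (CovZ.n2 (-14184, 26952) (by decide +kernel)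
                 (CovZ.n2 (-14184, 26928) (by decide +kernel)
                  (CovZ.leaf K2_ok TB_l47054 _)
                  (CovZ.badM (by decide +kernel)))
                 (CovZ.leaf K2_ok TB_l47055 _))
                (CovZ.badM (by decide +kernel)))
               (CovZ.n1 (-14160, 26976) (by decide +kernel)
                (CovZ.badM (by decide +kernel))
                (CovZ.n1 (-14184, 26952) (by decide +kernel)
                 (CovZ.n2 (-14184, 26976) (by decide +kernel)
                  (CovZ.badM (by decide +kernel))
                  (CovZ.leaf K2_ok TB_l47056 _))
                 (CovZ.badM (by decide +kernel)))))))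
            (CovZ.n1 (-14112, 27072) (by decide +kernel)
             (CovZ.subM 3794275293206589237456171130095725417791726641306518926717703310370089258809556992 (by decide +kernel)
              (CovZ.n2 (-14064, 27024) (by decide +kernel)
               (CovZ.n2 (-14112, 27024) (by decide +kernel)
                (CovZ.leaf K2_ok TB_l47057 _)
                (CovZ.n1 (-14088, 27000) (by decide +kernel)
                 (CovZ.leaf K2_ok TB_l47058 _)
                 (CovZ.n1 (-14088, 27024) (by decide +kernel)
                  (CovZ.badM (by decide +kernel))
                  (CovZ.leaf K2_ok TB_l47060 _))))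
               (CovZ.n1 (-14064, 27072) (by decide +kernel)
                (CovZ.n2 (-14040, 27048) (by decide +kernel)
                 (CovZ.leaf K2_ok TB_l47061 _)
                 (CovZ.leaf K2_ok TB_l47062 _))
                (CovZ.leaf K2_ok TB_l47063 _))))
             (CovZ.n1 (-14160, 27024) (by decide +kernel)
              (CovZ.n2 (-14160, 27072) (by decide +kernel)
               (CovZ.leaf K2_ok TB_l47064 _)
               (CovZ.leaf K2_ok TB_l47065 _))
              (CovZ.n1 (-14112, 27024) (by decide +kernel)
               (CovZ.n2 (-14136, 27000) (by decide +kernel)
                (CovZ.leaf K2_ok TB_l47066 _)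
                (CovZ.leaf K2_ok TB_l47067 _))
               (CovZ.leaf K2_ok TB_l47068 _))))))))))

theorem TB_u469 : CovZ TB_M (toL (selN TB_LN 762145642166990290864647761179972536182226690153220746096101830934332561323421068085779932898868685866180106937179031912709168299372991024129)) [0, 7, 6, 1] (-15360, 26112) (-14976, 26496) (-15360, 26880) :=
    (CovZ.n2 (-15360, 26496) (by decide +kernel)
        (CovZ.n2 (-15168, 26688) (by decide +kernel)
         (CovZ.subM 2037035980128761379475034925865549291147193805748672812981991657887653759341752514190049280 (by decide +kernel)
          (CovZ.n2 (-15168, 26496) (by decide +kernel)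
           (CovZ.n2 (-15264, 26592) (by decide +kernel)
            (CovZ.subM 2037035980128761379475034925865549291147193805748672132417257816010725651999791033335414784 (by decide +kernel)
             (CovZ.n2 (-15168, 26592) (by decide +kernel)
              (CovZ.n2 (-15216, 26544) (by decide +kernel)
               (CovZ.n2 (-15216, 26592) (by decide +kernel)
                (CovZ.n2 (-15192, 26568) (by decide +kernel)
                 (CovZ.leaf K2_ok TB_l35708 _)
                 (CovZ.leaf K2_ok TB_l35709 _))
                (CovZ.leaf K2_ok TB_l35710 _))
               (CovZ.n1 (-15168, 26544) (by decide +kernel)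
                (CovZ.badM (by decide +kernel))
                (CovZ.n1 (-15192, 26568) (by decide +kernel)
                 (CovZ.leaf K2_ok TB_l35711 _)
                 (CovZ.n1 (-15192, 26544) (by decide +kernel)
                  (CovZ.leaf K2_ok TB_l47076 _)
                  (CovZ.leaf K2_ok TB_l47077 _)))))
              (CovZ.n1 (-15216, 26640) (by decide +kernel)
               (CovZ.leaf K2_ok TB_l35712 _)
               (CovZ.n1 (-15216, 26592) (by decide +kernel)
                (CovZ.leaf K2_ok TB_l35713 _)
                (CovZ.leaf K2_ok TB_l35714 _)))))
            (CovZ.n1 (-15264, 26496) (by decide +kernel)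
             (CovZ.n2 (-15312, 26544) (by decide +kernel)
              (CovZ.subM 2037035976334486199346657834225975254382508441212721274228933815673321602776590071153819648 (by decide +kernel)
               (CovZ.n2 (-15264, 26544) (by decide +kernel)
                (CovZ.n2 (-15288, 26520) (by decide +kernel)
                 (CovZ.n2 (-15288, 26544) (by decide +kernel)
                  (CovZ.leaf K2_ok TB_l47078 _)
                  (CovZ.leaf K2_ok TB_l35715 _))
                 (CovZ.leaf K2_ok TB_l47079 _))
                (CovZ.leaf K2_ok TB_l35716 _)))
              (CovZ.n1 (-15312, 26496) (by decide +kernel)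
               (CovZ.n2 (-15336, 26520) (by decide +kernel)
                (CovZ.leaf K2_ok TB_l35717 _)
                (CovZ.n1 (-15336, 26496) (by decide +kernel)
                 (CovZ.leaf K2_ok TB_l47080 _)
                 (CovZ.leaf K2_ok TB_l47081 _)))
               (CovZ.n1 (-15288, 26520) (by decide +kernel)
                (CovZ.n2 (-15288, 26496) (by decide +kernel)
                 (CovZ.leaf K2_ok TB_l47082 _)
                 (CovZ.leaf K2_ok TB_l47083 _))
                (CovZ.leaf K2_ok TB_l35718 _))))
             (CovZ.subM 2037035976334486199346657834225975254382508441212721274228933815673321602776590071153819648 (by decide +kernel)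
              (CovZ.n1 (-15216, 26544) (by decide +kernel)
               (CovZ.badM (by decide +kernel))
               (CovZ.n1 (-15264, 26544) (by decide +kernel)
                (CovZ.n2 (-15240, 26568) (by decide +kernel)
                 (CovZ.leaf K2_ok TB_l35719 _)
                 (CovZ.leaf K2_ok TB_l35720 _))
                (CovZ.n1 (-15240, 26520) (by decide +kernel)
                 (CovZ.leaf K2_ok TB_l47084 _)
                 (CovZ.n1 (-15240, 26544) (by decide +kernel)
                  (CovZ.leaf K2_ok TB_l47085 _)
                  (CovZ.leaf K2_ok TB_l47086 _))))))))
           (CovZ.n1 (-15072, 26592) (by decide +kernel)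
            (CovZ.badM (by decide +kernel))
            (CovZ.n1 (-15168, 26592) (by decide +kernel)
             (CovZ.n2 (-15120, 26640) (by decide +kernel)
              (CovZ.subM 2037035976334486199346657834225975254382508441212721274893547813565779539228493601293991936 (by decide +kernel)
               (CovZ.n2 (-15120, 26592) (by decide +kernel)
                (CovZ.leaf K2_ok TB_l35721 _)
                (CovZ.n1 (-15096, 26616) (by decide +kernel)
                 (CovZ.n2 (-15096, 26592) (by decide +kernel)
                  (CovZ.leaf K2_ok TB_l35722 _)
                  (CovZ.leaf K2_ok TB_l35723 _))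
                 (CovZ.leaf K2_ok TB_l35724 _))))
              (CovZ.leaf K2_ok TB_l35725 _))
             (CovZ.subM 2037035976334486199346657834225975254382508441212721274228933815673321602776590071153819648 (by decide +kernel)
              (CovZ.n1 (-15120, 26544) (by decide +kernel)
               (CovZ.n2 (-15168, 26544) (by decide +kernel)
                (CovZ.n2 (-15144, 26568) (by decide +kernel)
                 (CovZ.badM (by decide +kernel))
                 (CovZ.leaf K2_ok TB_l35726 _))
                (CovZ.badM (by decide +kernel)))
               (CovZ.n1 (-15120, 26592) (by decide +kernel)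
                (CovZ.n2 (-15096, 26568) (by decide +kernel)
                 (CovZ.n2 (-15120, 26568) (by decide +kernel)
                  (CovZ.leaf K2_ok TB_l47087 _)
                  (CovZ.badM (by decide +kernel)))
                 (CovZ.n1 (-15096, 26592) (by decide +kernel)
                  (CovZ.badM (by decide +kernel))
                  (CovZ.leaf K2_ok TB_l47088 _)))
                (CovZ.n1 (-15144, 26568) (by decide +kernel)
                 (CovZ.n2 (-15144, 26592) (by decide +kernel)
                  (CovZ.leaf K2_ok TB_l47089 _)
                  (CovZ.leaf K2_ok TB_l35727 _))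
                 (CovZ.n1 (-15120, 26568) (by decide +kernel)
                  (CovZ.badM (by decide +kernel))
                  (CovZ.leaf K2_ok TB_l47090 _))))))))))
         (CovZ.n1 (-15360, 26688) (by decide +kernel)
          (CovZ.n2 (-15264, 26784) (by decide +kernel)
           (CovZ.n2 (-15264, 26688) (by decide +kernel)
            (CovZ.leaf K2_ok TB_l35728 _)
            (CovZ.leaf K2_ok TB_l35729 _))
           (CovZ.leaf K2_ok TB_l35730 _))
          (CovZ.subM 2037035980128761379475034925865549291147193805748672132417257816165469337539238982034980864 (by decide +kernel)
           (CovZ.n1 (-15264, 26592) (by decide +kernel)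
            (CovZ.n2 (-15360, 26592) (by decide +kernel)
             (CovZ.n2 (-15312, 26640) (by decide +kernel)
              (CovZ.leaf K2_ok TB_l35731 _)
              (CovZ.leaf K2_ok TB_l35732 _))
             (CovZ.n1 (-15312, 26544) (by decide +kernel)
              (CovZ.leaf K2_ok TB_l35733 _)
              (CovZ.n1 (-15312, 26592) (by decide +kernel)
               (CovZ.leaf K2_ok TB_l35734 _)
               (CovZ.leaf K2_ok TB_l35735 _))))
            (CovZ.n1 (-15264, 26688) (by decide +kernel)
             (CovZ.n2 (-15216, 26640) (by decide +kernel)
              (CovZ.leaf K2_ok TB_l35736 _)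
              (CovZ.leaf K2_ok TB_l35737 _))
             (CovZ.n1 (-15312, 26640) (by decide +kernel)
              (CovZ.leaf K2_ok TB_l35738 _)
              (CovZ.leaf K2_ok TB_l35739 _)))))))
        (CovZ.subM 2037035976334486086268445688409378161051468393665936261269964415633709463586539805744365568 (by decide +kernel)
         (CovZ.n1 (-15168, 26304) (by decide +kernel)
          (CovZ.n2 (-15360, 26304) (by decide +kernel)
           (CovZ.n2 (-15264, 26400) (by decide +kernel)
            (CovZ.badM (by decide +kernel))
            (CovZ.n1 (-15360, 26400) (by decide +kernel)
             (CovZ.n2 (-15312, 26448) (by decide +kernel)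
              (CovZ.badM (by decide +kernel))
              (CovZ.n1 (-15360, 26448) (by decide +kernel)
               (CovZ.n2 (-15336, 26472) (by decide +kernel)
                (CovZ.badM (by decide +kernel))
                (CovZ.n1 (-15360, 26472) (by decide +kernel)
                 (CovZ.leaf K2_ok TB_l47091 _)
                 (CovZ.badM (by decide +kernel))))
               (CovZ.badM (by decide +kernel))))
             (CovZ.badM (by decide +kernel))))
           (CovZ.badM (by decide +kernel)))
          (CovZ.n1 (-15168, 26496) (by decide +kernel)
           (CovZ.badM (by decide +kernel))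
           (CovZ.n1 (-15264, 26400) (by decide +kernel)
            (CovZ.n2 (-15264, 26496) (by decide +kernel)
             (CovZ.badM (by decide +kernel))
             (CovZ.n1 (-15312, 26448) (by decide +kernel)
              (CovZ.n2 (-15312, 26496) (by decide +kernel)
               (CovZ.badM (by decide +kernel))
               (CovZ.n1 (-15336, 26472) (by decide +kernel)
                (CovZ.n2 (-15336, 26496) (by decide +kernel)
                 (CovZ.badM (by decide +kernel))
                 (CovZ.leaf K2_ok TB_l47092 _))
                (CovZ.badM (by decide +kernel))))
              (CovZ.badM (by decide +kernel))))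
            (CovZ.badM (by decide +kernel)))))))

theorem TB_u470 : CovZ TB_M (toL (selN TB_LN 762145642166990290864647761179972536182226690153220746096101830934332561323421068085779932898868685866180106937179031912709168299372991024129)) [0, 7, 6, 1] (-14976, 26496) (-14592, 26880) (-15360, 26880) :=
    (CovZ.n1 (-14976, 26880) (by decide +kernel)
        (CovZ.subM 762145642166990290864647761179972536182226690153220745598778594524545919168038819938959092798412534720383245769674068431873367940100964484096 (by decide +kernel)
         (CovZ.n2 (-14784, 26688) (by decide +kernel)
          (CovZ.n2 (-14976, 26688) (by decide +kernel)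
           (CovZ.n2 (-14880, 26784) (by decide +kernel)
            (CovZ.subM 293567822846729155523221054727428507896995244479089274985605177190198941121317713475357458457774519113220096 (by decide +kernel)
             (CovZ.n2 (-14880, 26688) (by decide +kernel)
              (CovZ.n2 (-14928, 26736) (by decide +kernel)
               (CovZ.leaf K2_ok TB_l35740 _)
               (CovZ.n1 (-14928, 26688) (by decide +kernel)
                (CovZ.leaf K2_ok TB_l35741 _)
                (CovZ.leaf K2_ok TB_l35742 _)))
              (CovZ.n1 (-14832, 26736) (by decide +kernel)
               (CovZ.subM 2037035976334486199346657834225975254382508441212721274228933815673321602776590071153819648 (by decide +kernel)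
                (CovZ.n2 (-14832, 26688) (by decide +kernel)
                 (CovZ.n2 (-14856, 26712) (by decide +kernel)
                  (CovZ.leaf K2_ok TB_l35743 _)
                  (CovZ.leaf K2_ok TB_l35744 _))
                 (CovZ.n1 (-14808, 26712) (by decide +kernel)
                  (CovZ.badM (by decide +kernel))
                  (CovZ.leaf K2_ok TB_l35745 _))))
               (CovZ.leaf K2_ok TB_l35746 _))))
            (CovZ.n1 (-14976, 26784) (by decide +kernel)
             (CovZ.leaf K2_ok TB_l35747 _)
             (CovZ.n1 (-14928, 26736) (by decide +kernel)
              (CovZ.leaf K2_ok TB_l35748 _)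
              (CovZ.n1 (-14928, 26784) (by decide +kernel)
               (CovZ.leaf K2_ok TB_l35749 _)
               (CovZ.leaf K2_ok TB_l35750 _)))))
           (CovZ.subM 2037035976334486199346657834225975254382508441212721274893547813565779539228493601293991936 (by decide +kernel)
            (CovZ.n1 (-14880, 26592) (by decide +kernel)
             (CovZ.n2 (-14976, 26592) (by decide +kernel)
              (CovZ.n2 (-14928, 26640) (by decide +kernel)
               (CovZ.n2 (-14928, 26592) (by decide +kernel)
                (CovZ.n2 (-14952, 26616) (by decide +kernel)
                 (CovZ.badM (by decide +kernel))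
                 (CovZ.badM (by decide +kernel)))
                (CovZ.badM (by decide +kernel)))
               (CovZ.n1 (-14976, 26640) (by decide +kernel)
                (CovZ.n2 (-14952, 26664) (by decide +kernel)
                 (CovZ.n2 (-14952, 26640) (by decide +kernel)
                  (CovZ.leaf K2_ok TB_l35751 _)
                  (CovZ.leaf K2_ok TB_l47093 _))
                 (CovZ.leaf K2_ok TB_l35752 _))
                (CovZ.n1 (-14952, 26616) (by decide +kernel)
                 (CovZ.n2 (-14976, 26616) (by decide +kernel)
                  (CovZ.leaf K2_ok TB_l35753 _)
                  (CovZ.badM (by decide +kernel)))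
                 (CovZ.n1 (-14952, 26640) (by decide +kernel)
                  (CovZ.badM (by decide +kernel))
                  (CovZ.leaf K2_ok TB_l35754 _)))))
              (CovZ.badM (by decide +kernel)))
             (CovZ.n1 (-14880, 26688) (by decide +kernel)
              (CovZ.n2 (-14832, 26640) (by decide +kernel)
               (CovZ.n2 (-14880, 26640) (by decide +kernel)
                (CovZ.n2 (-14856, 26664) (by decide +kernel)
                 (CovZ.badM (by decide +kernel))
                 (CovZ.n1 (-14880, 26664) (by decide +kernel)
                  (CovZ.leaf K2_ok TB_l47094 _)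
                  (CovZ.badM (by decide +kernel))))
                (CovZ.badM (by decide +kernel)))
               (CovZ.n1 (-14832, 26688) (by decide +kernel)
                (CovZ.badM (by decide +kernel))
                (CovZ.n1 (-14856, 26664) (by decide +kernel)
                 (CovZ.n2 (-14856, 26688) (by decide +kernel)
                  (CovZ.badM (by decide +kernel))
                  (CovZ.leaf K2_ok TB_l47095 _))
                 (CovZ.badM (by decide +kernel)))))
              (CovZ.n1 (-14928, 26640) (by decide +kernel)
               (CovZ.n2 (-14928, 26688) (by decide +kernel)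
                (CovZ.n2 (-14904, 26664) (by decide +kernel)
                 (CovZ.leaf K2_ok TB_l35755 _)
                 (CovZ.n1 (-14904, 26688) (by decide +kernel)
                  (CovZ.leaf K2_ok TB_l35756 _)
                  (CovZ.leaf K2_ok TB_l35757 _)))
                (CovZ.n1 (-14952, 26664) (by decide +kernel)
                 (CovZ.leaf K2_ok TB_l35758 _)
                 (CovZ.leaf K2_ok TB_l35759 _)))
               (CovZ.n1 (-14880, 26640) (by decide +kernel)
                (CovZ.badM (by decide +kernel))
                (CovZ.n1 (-14904, 26664) (by decide +kernel)
                 (CovZ.leaf K2_ok TB_l47096 _)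
                 (CovZ.badM (by decide +kernel)))))))))
          (CovZ.n1 (-14784, 26880) (by decide +kernel)
           (CovZ.n2 (-14688, 26784) (by decide +kernel)
            (CovZ.n2 (-14784, 26784) (by decide +kernel)
             (CovZ.n2 (-14736, 26832) (by decide +kernel)
              (CovZ.n2 (-14736, 26784) (by decide +kernel)
               (CovZ.leaf K2_ok TB_l35760 _)
               (CovZ.leaf K2_ok TB_l35761 _))
              (CovZ.leaf K2_ok TB_l35762 _))
             (CovZ.subM 293567822846729155523221050933153327768618152839515238220919812654248082932993713137953409234573556931624960 (by decide +kernel)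
              (CovZ.n1 (-14736, 26736) (by decide +kernel)
               (CovZ.n2 (-14784, 26736) (by decide +kernel)
                (CovZ.n2 (-14760, 26760) (by decide +kernel)
                 (CovZ.leaf K2_ok TB_l35763 _)
                 (CovZ.leaf K2_ok TB_l35764 _))
                (CovZ.n1 (-14760, 26712) (by decide +kernel)
                 (CovZ.leaf K2_ok TB_l35765 _)
                 (CovZ.n1 (-14760, 26736) (by decide +kernel)
                  (CovZ.badM (by decide +kernel))
                  (CovZ.leaf K2_ok TB_l35766 _))))
               (CovZ.n1 (-14736, 26784) (by decide +kernel)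
                (CovZ.n2 (-14712, 26760) (by decide +kernel)
                 (CovZ.leaf K2_ok TB_l35767 _)
                 (CovZ.leaf K2_ok TB_l35768 _))
                (CovZ.n1 (-14760, 26760) (by decide +kernel)
                 (CovZ.leaf K2_ok TB_l35769 _)
                 (CovZ.leaf K2_ok TB_l35770 _))))))
            (CovZ.n1 (-14688, 26880) (by decide +kernel)
             (CovZ.n2 (-14640, 26832) (by decide +kernel)
              (CovZ.leaf K2_ok TB_l35771 _)
              (CovZ.n1 (-14640, 26880) (by decide +kernel)
               (CovZ.leaf K2_ok TB_l35772 _)
               (CovZ.leaf K2_ok TB_l35773 _)))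
             (CovZ.n1 (-14736, 26832) (by decide +kernel)
              (CovZ.leaf K2_ok TB_l35774 _)
              (CovZ.n1 (-14688, 26832) (by decide +kernel)
               (CovZ.leaf K2_ok TB_l35775 _)
               (CovZ.leaf K2_ok TB_l35776 _)))))
           (CovZ.n1 (-14880, 26784) (by decide +kernel)
            (CovZ.n2 (-14880, 26880) (by decide +kernel)
             (CovZ.leaf K2_ok TB_l35777 _)
             (CovZ.leaf K2_ok TB_l35778 _))
            (CovZ.n1 (-14784, 26784) (by decide +kernel)
             (CovZ.subM 293567822846729155523221054727428507896995244479089274985605177190198940456703715582899522005870988973047808 (by decide +kernel)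
              (CovZ.n2 (-14832, 26736) (by decide +kernel)
               (CovZ.n2 (-14832, 26784) (by decide +kernel)
                (CovZ.leaf K2_ok TB_l35779 _)
                (CovZ.leaf K2_ok TB_l35780 _))
               (CovZ.n1 (-14784, 26736) (by decide +kernel)
                (CovZ.n2 (-14808, 26712) (by decide +kernel)
                 (CovZ.n2 (-14808, 26736) (by decide +kernel)
                  (CovZ.leaf K2_ok TB_l35781 _)
                  (CovZ.leaf K2_ok TB_l35782 _))
                 (CovZ.leaf K2_ok TB_l35783 _))
                (CovZ.leaf K2_ok TB_l35784 _))))
             (CovZ.n1 (-14832, 26832) (by decide +kernel)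
              (CovZ.leaf K2_ok TB_l35785 _)
              (CovZ.leaf K2_ok TB_l35786 _)))))))
        (CovZ.n1 (-15168, 26688) (by decide +kernel)
         (CovZ.n2 (-15168, 26880) (by decide +kernel)
          (CovZ.n2 (-15072, 26784) (by decide +kernel)
           (CovZ.leaf K2_ok TB_l35787 _)
           (CovZ.n1 (-15072, 26880) (by decide +kernel)
            (CovZ.leaf K2_ok TB_l35788 _)
            (CovZ.leaf K2_ok TB_l35789 _)))
          (CovZ.n1 (-15264, 26784) (by decide +kernel)
           (CovZ.leaf K2_ok TB_l35790 _)
           (CovZ.leaf K2_ok TB_l35791 _)))
         (CovZ.subM 293567822846729155523221054727428507896995244479089274985605177190198941123913861904639039389502774722954240 (by decide +kernel)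
          (CovZ.n1 (-14976, 26688) (by decide +kernel)
           (CovZ.subM 2037035980128761379475034925865549291147193805748672812981991657887652578749005896871837696 (by decide +kernel)
            (CovZ.n2 (-15072, 26592) (by decide +kernel)
             (CovZ.n2 (-15072, 26688) (by decide +kernel)
              (CovZ.n2 (-15024, 26640) (by decide +kernel)
               (CovZ.n2 (-15072, 26640) (by decide +kernel)
                (CovZ.leaf K2_ok TB_l35792 _)
                (CovZ.n1 (-15048, 26616) (by decide +kernel)
                 (CovZ.leaf K2_ok TB_l35793 _)
                 (CovZ.leaf K2_ok TB_l35794 _)))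
               (CovZ.n1 (-15024, 26688) (by decide +kernel)
                (CovZ.n2 (-15000, 26664) (by decide +kernel)
                 (CovZ.leaf K2_ok TB_l35795 _)
                 (CovZ.leaf K2_ok TB_l35796 _))
                (CovZ.leaf K2_ok TB_l35797 _)))
              (CovZ.n1 (-15120, 26640) (by decide +kernel)
               (CovZ.n2 (-15120, 26688) (by decide +kernel)
                (CovZ.leaf K2_ok TB_l35798 _)
                (CovZ.leaf K2_ok TB_l35799 _))
               (CovZ.n1 (-15072, 26640) (by decide +kernel)
                (CovZ.n2 (-15096, 26616) (by decide +kernel)
                 (CovZ.leaf K2_ok TB_l35800 _)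
                 (CovZ.leaf K2_ok TB_l35801 _))
                (CovZ.leaf K2_ok TB_l35802 _))))
             (CovZ.n1 (-14976, 26592) (by decide +kernel)
              (CovZ.badM (by decide +kernel))
              (CovZ.n1 (-15024, 26640) (by decide +kernel)
               (CovZ.n2 (-14976, 26640) (by decide +kernel)
                (CovZ.subM 2037035976334486086268445688409378161051468393665936261934578413526166219445696718566326272 (by decide +kernel)
                 (CovZ.n2 (-15000, 26616) (by decide +kernel)
                  (CovZ.n2 (-15000, 26640) (by decide +kernel)
                   (CovZ.leaf K2_ok TB_l35803 _)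
                   (CovZ.leaf K2_ok TB_l35804 _))
                  (CovZ.n1 (-14976, 26616) (by decide +kernel)
                   (CovZ.badM (by decide +kernel))
                   (CovZ.leaf K2_ok TB_l35805 _))))
                (CovZ.leaf K2_ok TB_l35806 _))
               (CovZ.subM 2037035976334486086268445688409378161051468393665936261934578413526166219445696718566326272 (by decide +kernel)
                (CovZ.n1 (-15024, 26592) (by decide +kernel)
                 (CovZ.n2 (-15048, 26616) (by decide +kernel)
                  (CovZ.leaf K2_ok TB_l47098 _)
                  (CovZ.badM (by decide +kernel)))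
                 (CovZ.n1 (-15000, 26616) (by decide +kernel)
                  (CovZ.badM (by decide +kernel))
                  (CovZ.leaf K2_ok TB_l47099 _))))))))
           (CovZ.n1 (-15072, 26784) (by decide +kernel)
            (CovZ.n2 (-14976, 26784) (by decide +kernel)
             (CovZ.n2 (-15024, 26736) (by decide +kernel)
              (CovZ.leaf K2_ok TB_l35807 _)
              (CovZ.leaf K2_ok TB_l35808 _))
             (CovZ.leaf K2_ok TB_l35809 _))
            (CovZ.n1 (-15072, 26688) (by decide +kernel)
             (CovZ.n2 (-15120, 26736) (by decide +kernel)
              (CovZ.leaf K2_ok TB_l35810 _)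
              (CovZ.leaf K2_ok TB_l35811 _))
             (CovZ.n1 (-15024, 26736) (by decide +kernel)
              (CovZ.n2 (-15024, 26688) (by decide +kernel)
               (CovZ.leaf K2_ok TB_l35812 _)
               (CovZ.leaf K2_ok TB_l35813 _))
              (CovZ.leaf K2_ok TB_l35814 _))))))))

theorem TB_u471 : CovZ TB_M (toL (selN TB_LN 101043727070610382528018712371357184119552583793447783440307865040322079791311179861847730839948394431752204476762838950040689997316454089408645120)) [0, 7, 6, 1] (-13824, 27648) (-13824, 27264) (-13440, 27264) :=
    (CovZ.n2 (-13632, 27456) (by decide +kernel)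
        (CovZ.n2 (-13632, 27264) (by decide +kernel)
         (CovZ.n2 (-13728, 27360) (by decide +kernel)
          (CovZ.n2 (-13632, 27360) (by decide +kernel)
           (CovZ.n2 (-13680, 27312) (by decide +kernel)
            (CovZ.leaf K2_ok TB_l36945 _)
            (CovZ.leaf K2_ok TB_l48071 _))
           (CovZ.n1 (-13680, 27408) (by decide +kernel)
            (CovZ.leaf K2_ok TB_l48072 _)
            (CovZ.n1 (-13680, 27360) (by decide +kernel)
             (CovZ.leaf K2_ok TB_l36946 _)
             (CovZ.leaf K2_ok TB_l48073 _))))
          (CovZ.n1 (-13728, 27264) (by decide +kernel)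
           (CovZ.n2 (-13776, 27312) (by decide +kernel)
            (CovZ.leaf K2_ok TB_l36947 _)
            (CovZ.leaf K2_ok TB_l36948 _))
           (CovZ.n1 (-13680, 27312) (by decide +kernel)
            (CovZ.n2 (-13680, 27264) (by decide +kernel)
             (CovZ.leaf K2_ok TB_l36949 _)
             (CovZ.leaf K2_ok TB_l48074 _))
            (CovZ.leaf K2_ok TB_l36950 _))))
         (CovZ.n1 (-13536, 27360) (by decide +kernel)
          (CovZ.n2 (-13536, 27264) (by decide +kernel)
           (CovZ.n2 (-13584, 27312) (by decide +kernel)
            (CovZ.leaf K2_ok TB_l48075 _)
            (CovZ.n1 (-13584, 27264) (by decide +kernel)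
             (CovZ.leaf K2_ok TB_l48076 _)
             (CovZ.leaf K2_ok TB_l48077 _)))
           (CovZ.subM 100944838650241869133700379109263794787868955227000359171090803392793319615601457904636601716351195392691622327732490833042940464110737594194591744 (by decide +kernel)
            (CovZ.n1 (-13488, 27312) (by decide +kernel)
             (CovZ.n2 (-13488, 27264) (by decide +kernel)
              (CovZ.leaf K2_ok TB_l48078 _)
              (CovZ.n1 (-13464, 27288) (by decide +kernel)
               (CovZ.n2 (-13464, 27264) (by decide +kernel)
                (CovZ.leaf K2_ok TB_l49820 _)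
                (CovZ.badM (by decide +kernel)))
               (CovZ.leaf K2_ok TB_l49821 _)))
             (CovZ.leaf K2_ok TB_l48079 _))))
          (CovZ.n1 (-13632, 27360) (by decide +kernel)
           (CovZ.n2 (-13584, 27408) (by decide +kernel)
            (CovZ.n2 (-13584, 27360) (by decide +kernel)
             (CovZ.leaf K2_ok TB_l48080 _)
             (CovZ.leaf K2_ok TB_l48081 _))
            (CovZ.leaf K2_ok TB_l48082 _))
           (CovZ.n1 (-13584, 27312) (by decide +kernel)
            (CovZ.leaf K2_ok TB_l48083 _)
            (CovZ.n1 (-13584, 27360) (by decide +kernel)
             (CovZ.leaf K2_ok TB_l48084 _)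
             (CovZ.leaf K2_ok TB_l48085 _))))))
        (CovZ.n1 (-13824, 27456) (by decide +kernel)
         (CovZ.n2 (-13728, 27552) (by decide +kernel)
          (CovZ.n2 (-13728, 27456) (by decide +kernel)
           (CovZ.n2 (-13776, 27504) (by decide +kernel)
            (CovZ.leaf K2_ok TB_l36951 _)
            (CovZ.n1 (-13776, 27456) (by decide +kernel)
             (CovZ.leaf K2_ok TB_l36952 _)
             (CovZ.leaf K2_ok TB_l36953 _)))
           (CovZ.n1 (-13680, 27504) (by decide +kernel)
            (CovZ.n2 (-13680, 27456) (by decide +kernel)
             (CovZ.leaf K2_ok TB_l36954 _)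
             (CovZ.leaf K2_ok TB_l48086 _))
            (CovZ.leaf K2_ok TB_l36955 _)))
          (CovZ.n1 (-13824, 27552) (by decide +kernel)
           (CovZ.n2 (-13776, 27600) (by decide +kernel)
            (CovZ.leaf K2_ok TB_l36956 _)
            (CovZ.leaf K2_ok TB_l36957 _))
           (CovZ.n1 (-13776, 27504) (by decide +kernel)
            (CovZ.leaf K2_ok TB_l36958 _)
            (CovZ.n1 (-13776, 27552) (by decide +kernel)
             (CovZ.leaf K2_ok TB_l36959 _)
             (CovZ.leaf K2_ok TB_l36960 _)))))
         (CovZ.n1 (-13728, 27360) (by decide +kernel)
          (CovZ.n2 (-13824, 27360) (by decide +kernel)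
           (CovZ.n2 (-13776, 27408) (by decide +kernel)
            (CovZ.leaf K2_ok TB_l36961 _)
            (CovZ.leaf K2_ok TB_l36962 _))
           (CovZ.n1 (-13776, 27312) (by decide +kernel)
            (CovZ.leaf K2_ok TB_l36963 _)
            (CovZ.leaf K2_ok TB_l36964 _)))
          (CovZ.n1 (-13728, 27456) (by decide +kernel)
           (CovZ.n2 (-13680, 27408) (by decide +kernel)
            (CovZ.leaf K2_ok TB_l36965 _)
            (CovZ.n1 (-13680, 27456) (by decide +kernel)
             (CovZ.leaf K2_ok TB_l48087 _)
             (CovZ.leaf K2_ok TB_l36966 _)))
           (CovZ.n1 (-13776, 27408) (by decide +kernel)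
            (CovZ.leaf K2_ok TB_l36967 _)
            (CovZ.leaf K2_ok TB_l36968 _))))))

theorem TB_u472 : CovZ TB_M (toL (selN TB_LN 101043727070610382528018712371357184119552583793447783440307865040322079791311179861847730839948394431752204476762838950040689997316454089408645120)) [0, 7, 6, 1] (-13824, 27264) (-13824, 26880) (-13440, 27264) :=
    (CovZ.n1 (-13632, 27072) (by decide +kernel)
        (CovZ.n2 (-13824, 27072) (by decide +kernel)
         (CovZ.n2 (-13728, 27168) (by decide +kernel)
          (CovZ.subM 97602485992982153406441877396048010270526711119827299335456584443347582926110368081782427133834557878925426594483298505416919526855825302751232 (by decide +kernel)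
           (CovZ.n2 (-13728, 27072) (by decide +kernel)
            (CovZ.n2 (-13776, 27120) (by decide +kernel)
             (CovZ.subM 23622258539607223942853042995621558824389144610840788562621185256697416661889130527046706053160578806924240314667129799289529622369140736 (by decide +kernel)
              (CovZ.n2 (-13728, 27120) (by decide +kernel)
               (CovZ.badM (by decide +kernel))
               (CovZ.n1 (-13752, 27144) (by decide +kernel)
                (CovZ.leaf K2_ok TB_l36969 _)
                (CovZ.n1 (-13752, 27120) (by decide +kernel)
                 (CovZ.leaf K2_ok TB_l48088 _)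
                 (CovZ.badM (by decide +kernel))))))
             (CovZ.n1 (-13776, 27072) (by decide +kernel)
              (CovZ.n2 (-13800, 27096) (by decide +kernel)
               (CovZ.badM (by decide +kernel))
               (CovZ.badM (by decide +kernel)))
              (CovZ.badM (by decide +kernel))))
            (CovZ.subM 97602485992982153406441877396028771009688627878024428709910359163734354564137237237680735401409945335407921051305176228149612139347371150540800 (by decide +kernel)
             (CovZ.n1 (-13680, 27120) (by decide +kernel)
              (CovZ.badM (by decide +kernel))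
              (CovZ.n1 (-13728, 27120) (by decide +kernel)
               (CovZ.n2 (-13704, 27144) (by decide +kernel)
                (CovZ.badM (by decide +kernel))
                (CovZ.leaf K2_ok TB_l36970 _))
               (CovZ.badM (by decide +kernel)))))))
          (CovZ.n1 (-13824, 27168) (by decide +kernel)
           (CovZ.n2 (-13776, 27216) (by decide +kernel)
            (CovZ.n2 (-13776, 27168) (by decide +kernel)
             (CovZ.leaf K2_ok TB_l36971 _)
             (CovZ.leaf K2_ok TB_l36972 _))
            (CovZ.leaf K2_ok TB_l36973 _))
           (CovZ.subM 23622258539607223942853042995621558824389144610841285889651870336546161281593448477982531921394460474288856409549308197475286584616028160 (by decide +kernel)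
            (CovZ.n1 (-13776, 27120) (by decide +kernel)
             (CovZ.n2 (-13824, 27120) (by decide +kernel)
              (CovZ.n2 (-13800, 27144) (by decide +kernel)
               (CovZ.n2 (-13800, 27120) (by decide +kernel)
                (CovZ.leaf K2_ok TB_l48089 _)
                (CovZ.leaf K2_ok TB_l48090 _))
               (CovZ.leaf K2_ok TB_l36974 _))
              (CovZ.subM 497327030684966770532473887720857604785820687096654405646694842565078402960079519221760 (by decide +kernel)
               (CovZ.n1 (-13800, 27096) (by decide +kernel)
                (CovZ.n2 (-13824, 27096) (by decide +kernel)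
                 (CovZ.leaf K2_ok TB_l48091 _)
                 (CovZ.badM (by decide +kernel)))
                (CovZ.n1 (-13800, 27120) (by decide +kernel)
                 (CovZ.badM (by decide +kernel))
                 (CovZ.leaf K2_ok TB_l48092 _)))))
             (CovZ.n1 (-13776, 27168) (by decide +kernel)
              (CovZ.n2 (-13752, 27144) (by decide +kernel)
               (CovZ.leaf K2_ok TB_l36975 _)
               (CovZ.n1 (-13752, 27168) (by decide +kernel)
                (CovZ.leaf K2_ok TB_l36976 _)
                (CovZ.leaf K2_ok TB_l36977 _)))
              (CovZ.n1 (-13800, 27144) (by decide +kernel)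
               (CovZ.leaf K2_ok TB_l36978 _)
               (CovZ.leaf K2_ok TB_l36979 _)))))))
         (CovZ.n1 (-13728, 26976) (by decide +kernel)
          (CovZ.badM (by decide +kernel))
          (CovZ.n1 (-13728, 27072) (by decide +kernel)
           (CovZ.badM (by decide +kernel))
           (CovZ.badM (by decide +kernel)))))
        (CovZ.n1 (-13632, 27264) (by decide +kernel)
         (CovZ.n2 (-13536, 27168) (by decide +kernel)
          (CovZ.subM 171174497231181800837752302849772335970286271493182448929923513177896118695062957564346278053884768027567450219296829399638689594848677443141632 (by decide +kernel)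
           (CovZ.n2 (-13632, 27168) (by decide +kernel)
            (CovZ.n2 (-13584, 27216) (by decide +kernel)
             (CovZ.subM 381072855331901114156941458419295503980078617389870057882425162464020247331437752993714994147272915686299245964011719006646720097258672488448 (by decide +kernel)
              (CovZ.n2 (-13584, 27168) (by decide +kernel)
               (CovZ.n2 (-13608, 27192) (by decide +kernel)
                (CovZ.leaf K2_ok TB_l48093 _)
                (CovZ.n1 (-13608, 27168) (by decide +kernel)
                 (CovZ.leaf K2_ok TB_l48094 _)
                 (CovZ.badM (by decide +kernel))))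
               (CovZ.n1 (-13560, 27192) (by decide +kernel)
                (CovZ.badM (by decide +kernel))
                (CovZ.n1 (-13584, 27192) (by decide +kernel)
                 (CovZ.leaf K2_ok TB_l48095 _)
                 (CovZ.badM (by decide +kernel))))))
             (CovZ.n1 (-13632, 27216) (by decide +kernel)
              (CovZ.n2 (-13608, 27240) (by decide +kernel)
               (CovZ.leaf K2_ok TB_l48096 _)
               (CovZ.leaf K2_ok TB_l48097 _))
              (CovZ.n1 (-13608, 27192) (by decide +kernel)
               (CovZ.leaf K2_ok TB_l48098 _)
               (CovZ.n1 (-13608, 27216) (by decide +kernel)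
                (CovZ.leaf K2_ok TB_l48099 _)
                (CovZ.leaf K2_ok TB_l48100 _)))))
            (CovZ.subM 103310178801150446658213256818411773539367472359970493192465309922995759122380169133036558509099467947698672668962017247232 (by decide +kernel)
             (CovZ.n1 (-13584, 27120) (by decide +kernel)
              (CovZ.badM (by decide +kernel))
              (CovZ.n1 (-13584, 27168) (by decide +kernel)
               (CovZ.badM (by decide +kernel))
               (CovZ.n1 (-13608, 27144) (by decide +kernel)
                (CovZ.n2 (-13608, 27168) (by decide +kernel)
                 (CovZ.badM (by decide +kernel))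
                 (CovZ.badM (by decide +kernel)))
                (CovZ.badM (by decide +kernel))))))))
          (CovZ.n1 (-13536, 27264) (by decide +kernel)
           (CovZ.subM 100944838417653477359106174133480176263707504233835123751149024102716455877796885708349266251970059164287281348288483919037763525379665073037901824 (by decide +kernel)
            (CovZ.n2 (-13488, 27216) (by decide +kernel)
             (CovZ.subM 73238549590083367898715472176698069250211507752276810465913142950275493805041647895257532957867142608795579931781946709972354903701138698141696 (by decide +kernel)
              (CovZ.n2 (-13536, 27216) (by decide +kernel)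
               (CovZ.n2 (-13512, 27240) (by decide +kernel)
                (CovZ.n2 (-13512, 27216) (by decide +kernel)
                 (CovZ.leaf K2_ok TB_l49822 _)
                 (CovZ.badM (by decide +kernel)))
                (CovZ.leaf K2_ok TB_l48101 _))
               (CovZ.badM (by decide +kernel))))
             (CovZ.n1 (-13488, 27264) (by decide +kernel)
              (CovZ.n2 (-13464, 27240) (by decide +kernel)
               (CovZ.badM (by decide +kernel))
               (CovZ.n1 (-13464, 27264) (by decide +kernel)
                (CovZ.badM (by decide +kernel))
                (CovZ.badM (by decide +kernel))))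
              (CovZ.n1 (-13512, 27240) (by decide +kernel)
               (CovZ.n2 (-13512, 27264) (by decide +kernel)
                (CovZ.leaf K2_ok TB_l48102 _)
                (CovZ.leaf K2_ok TB_l48103 _))
               (CovZ.n1 (-13488, 27240) (by decide +kernel)
                (CovZ.badM (by decide +kernel))
                (CovZ.leaf K2_ok TB_l48104 _))))))
           (CovZ.subM 171174497231181800837752302849772335970286271493182448929923513177896118695062957564346278053884768027567450219296829399638689594848677443141632 (by decide +kernel)
            (CovZ.n1 (-13584, 27216) (by decide +kernel)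
             (CovZ.n2 (-13584, 27264) (by decide +kernel)
              (CovZ.n2 (-13560, 27240) (by decide +kernel)
               (CovZ.leaf K2_ok TB_l48105 _)
               (CovZ.leaf K2_ok TB_l48106 _))
              (CovZ.n1 (-13608, 27240) (by decide +kernel)
               (CovZ.leaf K2_ok TB_l48107 _)
               (CovZ.leaf K2_ok TB_l48108 _)))
             (CovZ.subM 73238549601618063732933797732133900470741381079718184448440264627190572209089496466850345715816676134589658971944301200527688663453271685332992 (by decide +kernel)
              (CovZ.n1 (-13536, 27216) (by decide +kernel)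
               (CovZ.n2 (-13560, 27192) (by decide +kernel)
                (CovZ.n2 (-13560, 27216) (by decide +kernel)
                 (CovZ.badM (by decide +kernel))
                 (CovZ.leaf K2_ok TB_l48109 _))
                (CovZ.badM (by decide +kernel)))
               (CovZ.n1 (-13560, 27240) (by decide +kernel)
                (CovZ.leaf K2_ok TB_l48110 _)
                (CovZ.n1 (-13560, 27216) (by decide +kernel)
                 (CovZ.leaf K2_ok TB_l48111 _)
                 (CovZ.leaf K2_ok TB_l48112 _)))))))))
         (CovZ.n1 (-13728, 27168) (by decide +kernel)
          (CovZ.n2 (-13728, 27264) (by decide +kernel)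
           (CovZ.n2 (-13680, 27216) (by decide +kernel)
            (CovZ.leaf K2_ok TB_l36980 _)
            (CovZ.n1 (-13680, 27264) (by decide +kernel)
             (CovZ.leaf K2_ok TB_l48113 _)
             (CovZ.leaf K2_ok TB_l36981 _)))
           (CovZ.n1 (-13776, 27216) (by decide +kernel)
            (CovZ.n2 (-13776, 27264) (by decide +kernel)
             (CovZ.leaf K2_ok TB_l36982 _)
             (CovZ.leaf K2_ok TB_l36983 _))
            (CovZ.leaf K2_ok TB_l36984 _)))
          (CovZ.subM 171174520490020978297503328727899276344341202750375180123458438594403801458856290199023716252386076043086713791522904967208905254092006680952832 (by decide +kernel)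
           (CovZ.n1 (-13632, 27168) (by decide +kernel)
            (CovZ.subM 97602485992982153406772405695793858967025085164696100031364657937280502069028392275455515873310252185937294084140505869946742707114670991343616 (by decide +kernel)
             (CovZ.n2 (-13680, 27120) (by decide +kernel)
              (CovZ.n2 (-13680, 27168) (by decide +kernel)
               (CovZ.subM 97602462370723613799217934858221064220697095082912527173222310455940795357083948541314017318448897568043563453052232653694047746798527423971328 (by decide +kernel)
                (CovZ.n2 (-13656, 27144) (by decide +kernel)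
                 (CovZ.n2 (-13680, 27144) (by decide +kernel)
                  (CovZ.leaf K2_ok TB_l48114 _)
                  (CovZ.badM (by decide +kernel)))
                 (CovZ.n1 (-13656, 27168) (by decide +kernel)
                  (CovZ.badM (by decide +kernel))
                  (CovZ.leaf K2_ok TB_l48115 _))))
               (CovZ.n1 (-13704, 27144) (by decide +kernel)
                (CovZ.n2 (-13704, 27168) (by decide +kernel)
                 (CovZ.leaf K2_ok TB_l36985 _)
                 (CovZ.leaf K2_ok TB_l36986 _))
                (CovZ.n1 (-13680, 27144) (by decide +kernel)
                 (CovZ.badM (by decide +kernel))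
                 (CovZ.leaf K2_ok TB_l36987 _))))
              (CovZ.n1 (-13632, 27120) (by decide +kernel)
               (CovZ.badM (by decide +kernel))
               (CovZ.n1 (-13656, 27144) (by decide +kernel)
                (CovZ.badM (by decide +kernel))
                (CovZ.badM (by decide +kernel))))))
            (CovZ.n1 (-13680, 27216) (by decide +kernel)
             (CovZ.n2 (-13632, 27216) (by decide +kernel)
              (CovZ.n2 (-13656, 27192) (by decide +kernel)
               (CovZ.n2 (-13656, 27216) (by decide +kernel)
                (CovZ.leaf K2_ok TB_l48116 _)
                (CovZ.leaf K2_ok TB_l48117 _))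
               (CovZ.leaf K2_ok TB_l48118 _))
              (CovZ.leaf K2_ok TB_l48119 _))
             (CovZ.n1 (-13680, 27168) (by decide +kernel)
              (CovZ.n2 (-13704, 27192) (by decide +kernel)
               (CovZ.leaf K2_ok TB_l36988 _)
               (CovZ.leaf K2_ok TB_l36989 _))
              (CovZ.n1 (-13656, 27192) (by decide +kernel)
               (CovZ.n2 (-13656, 27168) (by decide +kernel)
                (CovZ.leaf K2_ok TB_l48120 _)
                (CovZ.leaf K2_ok TB_l48121 _))
               (CovZ.leaf K2_ok TB_l48122 _)))))))))

theorem TB_u473 : CovZ TB_M (toL (selN TB_LN 196256248024775907886732825846833801152311304220148490297373907191062770939817652187979091982507404742539203700658542231506419157070574807747585)) [0, 7, 6, 1] (-14592, 28416) (-14208, 28032) (-13824, 28416) :=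
    (CovZ.n2 (-14208, 28416) (by decide +kernel)
       (CovZ.n2 (-14016, 28224) (by decide +kernel)
        (CovZ.subM 762168935076732951641718334060617414347798949577416624319912230090606329407757260597549394668892951405737647715843126742601904781645116868608 (by decide +kernel)
         (CovZ.n2 (-14208, 28224) (by decide +kernel)
          (CovZ.n2 (-14112, 28320) (by decide +kernel)
           (CovZ.n2 (-14112, 28224) (by decide +kernel)
            (CovZ.n2 (-14160, 28272) (by decide +kernel)
             (CovZ.leaf K2_ok TB_l35887 _)
             (CovZ.leaf K2_ok TB_l35888 _))
            (CovZ.n1 (-14064, 28272) (by decide +kernel)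
             (CovZ.n2 (-14064, 28224) (by decide +kernel)
              (CovZ.leaf K2_ok TB_l35889 _)
              (CovZ.leaf K2_ok TB_l35890 _))
             (CovZ.leaf K2_ok TB_l35891 _)))
           (CovZ.n1 (-14208, 28320) (by decide +kernel)
            (CovZ.n2 (-14160, 28368) (by decide +kernel)
             (CovZ.leaf K2_ok TB_l35892 _)
             (CovZ.leaf K2_ok TB_l35893 _))
            (CovZ.n1 (-14160, 28272) (by decide +kernel)
             (CovZ.leaf K2_ok TB_l35894 _)
             (CovZ.leaf K2_ok TB_l35895 _))))
          (CovZ.n1 (-14112, 28128) (by decide +kernel)
           (CovZ.n2 (-14208, 28128) (by decide +kernel)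
            (CovZ.n2 (-14160, 28176) (by decide +kernel)
             (CovZ.leaf K2_ok TB_l35896 _)
             (CovZ.leaf K2_ok TB_l35897 _))
            (CovZ.n1 (-14160, 28080) (by decide +kernel)
             (CovZ.leaf K2_ok TB_l35898 _)
             (CovZ.leaf K2_ok TB_l35899 _)))
           (CovZ.n1 (-14112, 28224) (by decide +kernel)
            (CovZ.n2 (-14064, 28176) (by decide +kernel)
             (CovZ.leaf K2_ok TB_l35900 _)
             (CovZ.leaf K2_ok TB_l35901 _))
            (CovZ.n1 (-14160, 28176) (by decide +kernel)
             (CovZ.leaf K2_ok TB_l35902 _)
             (CovZ.leaf K2_ok TB_l35903 _))))))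
        (CovZ.n1 (-14016, 28416) (by decide +kernel)
         (CovZ.subM 196256248024775864563582933208028860977894633500284973821933206018596408564928886028148385047740191551366141816701147018881606538008592241395712 (by decide +kernel)
          (CovZ.n2 (-13920, 28320) (by decide +kernel)
           (CovZ.n2 (-14016, 28320) (by decide +kernel)
            (CovZ.n2 (-13968, 28368) (by decide +kernel)
             (CovZ.n2 (-13968, 28320) (by decide +kernel)
              (CovZ.leaf K2_ok TB_l35904 _)
              (CovZ.n1 (-13944, 28344) (by decide +kernel)
               (CovZ.leaf K2_ok TB_l35905 _)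
               (CovZ.leaf K2_ok TB_l35906 _)))
             (CovZ.n1 (-14016, 28368) (by decide +kernel)
              (CovZ.leaf K2_ok TB_l35907 _)
              (CovZ.leaf K2_ok TB_l35908 _)))
            (CovZ.n1 (-13968, 28272) (by decide +kernel)
             (CovZ.n2 (-14016, 28272) (by decide +kernel)
              (CovZ.leaf K2_ok TB_l35909 _)
              (CovZ.leaf K2_ok TB_l35910 _))
             (CovZ.n1 (-13968, 28320) (by decide +kernel)
              (CovZ.leaf K2_ok TB_l35911 _)
              (CovZ.leaf K2_ok TB_l35912 _))))
           (CovZ.n1 (-13920, 28416) (by decide +kernel)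
            (CovZ.n2 (-13872, 28368) (by decide +kernel)
             (CovZ.n2 (-13920, 28368) (by decide +kernel)
              (CovZ.n2 (-13896, 28392) (by decide +kernel)
               (CovZ.leaf K2_ok TB_l35913 _)
               (CovZ.leaf K2_ok TB_l35914 _))
              (CovZ.n1 (-13896, 28344) (by decide +kernel)
               (CovZ.leaf K2_ok TB_l35915 _)
               (CovZ.leaf K2_ok TB_l35916 _)))
             (CovZ.n1 (-13872, 28416) (by decide +kernel)
              (CovZ.n2 (-13848, 28392) (by decide +kernel)
               (CovZ.leaf K2_ok TB_l35917 _)
               (CovZ.n1 (-13848, 28416) (by decide +kernel)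
                (CovZ.leaf K2_ok TB_l47101 _)
                (CovZ.leaf K2_ok TB_l47102 _)))
              (CovZ.n1 (-13896, 28392) (by decide +kernel)
               (CovZ.n2 (-13896, 28416) (by decide +kernel)
                (CovZ.leaf K2_ok TB_l35918 _)
                (CovZ.leaf K2_ok TB_l35919 _))
               (CovZ.leaf K2_ok TB_l35920 _))))
            (CovZ.subM 762168935076732951972246318609655800528422538016767144625300562998839670575337309306527588356761024103574840542855615778131110314339416934400 (by decide +kernel)
             (CovZ.n1 (-13968, 28368) (by decide +kernel)
              (CovZ.n2 (-13968, 28416) (by decide +kernel)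
               (CovZ.n2 (-13944, 28392) (by decide +kernel)
                (CovZ.leaf K2_ok TB_l35921 _)
                (CovZ.leaf K2_ok TB_l35922 _))
               (CovZ.leaf K2_ok TB_l35923 _))
              (CovZ.n1 (-13920, 28368) (by decide +kernel)
               (CovZ.leaf K2_ok TB_l35924 _)
               (CovZ.n1 (-13944, 28392) (by decide +kernel)
                (CovZ.leaf K2_ok TB_l35925 _)
                (CovZ.leaf K2_ok TB_l35926 _))))))))
         (CovZ.subM 762168935076732951641718334060617414347798949577416624319912230090606329407757260597549394668887241021170248968154947252741714760576991758336 (by decide +kernel)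
          (CovZ.n1 (-14112, 28320) (by decide +kernel)
           (CovZ.n2 (-14112, 28416) (by decide +kernel)
            (CovZ.n2 (-14064, 28368) (by decide +kernel)
             (CovZ.leaf K2_ok TB_l35927 _)
             (CovZ.n1 (-14064, 28416) (by decide +kernel)
              (CovZ.leaf K2_ok TB_l35928 _)
              (CovZ.leaf K2_ok TB_l35929 _)))
            (CovZ.n1 (-14160, 28368) (by decide +kernel)
             (CovZ.n2 (-14160, 28416) (by decide +kernel)
              (CovZ.leaf K2_ok TB_l35930 _)
              (CovZ.leaf K2_ok TB_l35931 _))
             (CovZ.leaf K2_ok TB_l35932 _)))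
           (CovZ.n1 (-14016, 28320) (by decide +kernel)
            (CovZ.n2 (-14064, 28272) (by decide +kernel)
             (CovZ.n2 (-14064, 28320) (by decide +kernel)
              (CovZ.leaf K2_ok TB_l35933 _)
              (CovZ.leaf K2_ok TB_l35934 _))
             (CovZ.leaf K2_ok TB_l35935 _))
            (CovZ.n1 (-14064, 28368) (by decide +kernel)
             (CovZ.n2 (-14016, 28368) (by decide +kernel)
              (CovZ.leaf K2_ok TB_l35936 _)
              (CovZ.leaf K2_ok TB_l35937 _))
             (CovZ.n1 (-14064, 28320) (by decide +kernel)
              (CovZ.leaf K2_ok TB_l35938 _)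
              (CovZ.leaf K2_ok TB_l35939 _))))))))
       (CovZ.subM 762168912363022817404003004394248711415480097755279626062273779447252295418786529972003050623018550123684630756775623418323743805254433508352 (by decide +kernel)
        (CovZ.n1 (-14400, 28224) (by decide +kernel)
         (CovZ.n2 (-14400, 28416) (by decide +kernel)
          (CovZ.n2 (-14304, 28320) (by decide +kernel)
           (CovZ.n2 (-14400, 28320) (by decide +kernel)
            (CovZ.leaf K2_ok TB_l35940 _)
            (CovZ.leaf K2_ok TB_l35941 _))
           (CovZ.n1 (-14304, 28416) (by decide +kernel)
            (CovZ.n2 (-14256, 28368) (by decide +kernel)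
             (CovZ.leaf K2_ok TB_l35942 _)
             (CovZ.leaf K2_ok TB_l35943 _))
            (CovZ.leaf K2_ok TB_l35944 _)))
          (CovZ.n1 (-14496, 28320) (by decide +kernel)
           (CovZ.n2 (-14496, 28416) (by decide +kernel)
            (CovZ.leaf K2_ok TB_l35945 _)
            (CovZ.leaf K2_ok TB_l35946 _))
           (CovZ.n1 (-14400, 28320) (by decide +kernel)
            (CovZ.leaf K2_ok TB_l35947 _)
            (CovZ.leaf K2_ok TB_l35948 _))))
         (CovZ.n1 (-14208, 28224) (by decide +kernel)
          (CovZ.n2 (-14304, 28128) (by decide +kernel)
           (CovZ.n2 (-14304, 28224) (by decide +kernel)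
            (CovZ.leaf K2_ok TB_l35949 _)
            (CovZ.leaf K2_ok TB_l35950 _))
           (CovZ.n1 (-14208, 28128) (by decide +kernel)
            (CovZ.leaf K2_ok TB_l35951 _)
            (CovZ.leaf K2_ok TB_l35952 _)))
          (CovZ.n1 (-14304, 28320) (by decide +kernel)
           (CovZ.n2 (-14208, 28320) (by decide +kernel)
            (CovZ.leaf K2_ok TB_l35953 _)
            (CovZ.n1 (-14256, 28368) (by decide +kernel)
             (CovZ.leaf K2_ok TB_l35954 _)
             (CovZ.leaf K2_ok TB_l35955 _)))
           (CovZ.n1 (-14304, 28224) (by decide +kernel)
            (CovZ.leaf K2_ok TB_l35956 _)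
            (CovZ.leaf K2_ok TB_l35957 _)))))))

theorem TB_u474 : CovZ TB_M (toL (selN TB_LN 196256248024775907886732825846833801152311304220148490297373907191062770939817652187979091982507404742539203700658542231506419157070574807747585)) [0, 7, 6, 1] (-14208, 28032) (-13824, 27648) (-13824, 28416) :=
    (CovZ.n1 (-13824, 28032) (by decide +kernel)
       (CovZ.n2 (-14016, 27840) (by decide +kernel)
        (CovZ.n2 (-14016, 28032) (by decide +kernel)
         (CovZ.n2 (-13920, 27936) (by decide +kernel)
          (CovZ.subM 762168935076776274936237445385058838952614812798003291536487175422769086550194638673665991155050741030880416859365798687652023456542308173824 (by decide +kernel)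
           (CovZ.n2 (-14016, 27936) (by decide +kernel)
            (CovZ.n2 (-13968, 27984) (by decide +kernel)
             (CovZ.n2 (-13968, 27936) (by decide +kernel)
              (CovZ.leaf K2_ok TB_l35958 _)
              (CovZ.leaf K2_ok TB_l35959 _))
             (CovZ.leaf K2_ok TB_l35960 _))
            (CovZ.n1 (-13968, 27888) (by decide +kernel)
             (CovZ.leaf K2_ok TB_l35961 _)
             (CovZ.leaf K2_ok TB_l35962 _))))
          (CovZ.n1 (-13920, 28032) (by decide +kernel)
           (CovZ.n2 (-13872, 27984) (by decide +kernel)
            (CovZ.leaf K2_ok TB_l35963 _)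
            (CovZ.n1 (-13872, 28032) (by decide +kernel)
             (CovZ.leaf K2_ok TB_l35964 _)
             (CovZ.leaf K2_ok TB_l35965 _)))
           (CovZ.n1 (-13968, 27984) (by decide +kernel)
            (CovZ.n2 (-13968, 28032) (by decide +kernel)
             (CovZ.leaf K2_ok TB_l35966 _)
             (CovZ.leaf K2_ok TB_l35967 _))
            (CovZ.leaf K2_ok TB_l35968 _))))
         (CovZ.subM 762168935076732951641718334060617414347798949577416624319912230090606329407757260597549394668892951405737648364880234059455358347957158021120 (by decide +kernel)
          (CovZ.n1 (-14112, 27936) (by decide +kernel)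
           (CovZ.n2 (-14112, 28032) (by decide +kernel)
            (CovZ.n2 (-14064, 27984) (by decide +kernel)
             (CovZ.leaf K2_ok TB_l35969 _)
             (CovZ.leaf K2_ok TB_l35970 _))
            (CovZ.leaf K2_ok TB_l35971 _))
           (CovZ.n1 (-14016, 27936) (by decide +kernel)
            (CovZ.n2 (-14064, 27888) (by decide +kernel)
             (CovZ.leaf K2_ok TB_l35972 _)
             (CovZ.leaf K2_ok TB_l35973 _))
            (CovZ.n1 (-14064, 27984) (by decide +kernel)
             (CovZ.leaf K2_ok TB_l35974 _)
             (CovZ.leaf K2_ok TB_l35975 _))))))
        (CovZ.n1 (-13824, 27840) (by decide +kernel)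
         (CovZ.n2 (-13920, 27744) (by decide +kernel)
          (CovZ.n2 (-13920, 27840) (by decide +kernel)
           (CovZ.n2 (-13872, 27792) (by decide +kernel)
            (CovZ.leaf K2_ok TB_l35976 _)
            (CovZ.n1 (-13872, 27840) (by decide +kernel)
             (CovZ.leaf K2_ok TB_l35977 _)
             (CovZ.leaf K2_ok TB_l35978 _)))
           (CovZ.n1 (-13968, 27792) (by decide +kernel)
            (CovZ.n2 (-13968, 27840) (by decide +kernel)
             (CovZ.leaf K2_ok TB_l35979 _)
             (CovZ.leaf K2_ok TB_l35980 _))
            (CovZ.leaf K2_ok TB_l35981 _)))
          (CovZ.n1 (-13824, 27744) (by decide +kernel)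
           (CovZ.n2 (-13872, 27696) (by decide +kernel)
            (CovZ.n2 (-13872, 27744) (by decide +kernel)
             (CovZ.leaf K2_ok TB_l35982 _)
             (CovZ.leaf K2_ok TB_l35983 _))
            (CovZ.leaf K2_ok TB_l35984 _))
           (CovZ.n1 (-13872, 27792) (by decide +kernel)
            (CovZ.leaf K2_ok TB_l35985 _)
            (CovZ.n1 (-13872, 27744) (by decide +kernel)
             (CovZ.leaf K2_ok TB_l35986 _)
             (CovZ.leaf K2_ok TB_l35987 _)))))
         (CovZ.n1 (-13920, 27936) (by decide +kernel)
          (CovZ.n2 (-13824, 27936) (by decide +kernel)
           (CovZ.n2 (-13872, 27888) (by decide +kernel)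
            (CovZ.n2 (-13872, 27936) (by decide +kernel)
             (CovZ.leaf K2_ok TB_l35988 _)
             (CovZ.leaf K2_ok TB_l35989 _))
            (CovZ.leaf K2_ok TB_l35990 _))
           (CovZ.n1 (-13872, 27984) (by decide +kernel)
            (CovZ.n2 (-13824, 27984) (by decide +kernel)
             (CovZ.leaf K2_ok TB_l35991 _)
             (CovZ.leaf K2_ok TB_l35992 _))
            (CovZ.n1 (-13872, 27936) (by decide +kernel)
             (CovZ.leaf K2_ok TB_l35993 _)
             (CovZ.leaf K2_ok TB_l35994 _))))
          (CovZ.n1 (-13920, 27840) (by decide +kernel)
           (CovZ.n2 (-13968, 27888) (by decide +kernel)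
            (CovZ.leaf K2_ok TB_l35995 _)
            (CovZ.leaf K2_ok TB_l35996 _))
           (CovZ.n1 (-13872, 27888) (by decide +kernel)
            (CovZ.n2 (-13872, 27840) (by decide +kernel)
             (CovZ.leaf K2_ok TB_l35997 _)
             (CovZ.leaf K2_ok TB_l35998 _))
            (CovZ.leaf K2_ok TB_l35999 _))))))
       (CovZ.n1 (-14016, 28224) (by decide +kernel)
        (CovZ.n2 (-13824, 28224) (by decide +kernel)
         (CovZ.n2 (-13920, 28128) (by decide +kernel)
          (CovZ.n2 (-13920, 28224) (by decide +kernel)
           (CovZ.n2 (-13872, 28176) (by decide +kernel)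
            (CovZ.n2 (-13920, 28176) (by decide +kernel)
             (CovZ.leaf K2_ok TB_l36000 _)
             (CovZ.leaf K2_ok TB_l36001 _))
            (CovZ.n1 (-13872, 28224) (by decide +kernel)
             (CovZ.leaf K2_ok TB_l36002 _)
             (CovZ.leaf K2_ok TB_l36003 _)))
           (CovZ.subM 762168935076732951972266807652877926230987577115137097207184428288782047806747535215731528254685032418236143706956624827593525103241742780416 (by decide +kernel)
            (CovZ.n1 (-13968, 28176) (by decide +kernel)
             (CovZ.n2 (-13968, 28224) (by decide +kernel)
              (CovZ.leaf K2_ok TB_l36004 _)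
              (CovZ.leaf K2_ok TB_l36005 _))
             (CovZ.n1 (-13920, 28176) (by decide +kernel)
              (CovZ.leaf K2_ok TB_l36006 _)
              (CovZ.leaf K2_ok TB_l36007 _)))))
          (CovZ.n1 (-13824, 28128) (by decide +kernel)
           (CovZ.n2 (-13872, 28080) (by decide +kernel)
            (CovZ.n2 (-13872, 28128) (by decide +kernel)
             (CovZ.leaf K2_ok TB_l36008 _)
             (CovZ.leaf K2_ok TB_l36009 _))
            (CovZ.n1 (-13824, 28080) (by decide +kernel)
             (CovZ.leaf K2_ok TB_l36010 _)
             (CovZ.leaf K2_ok TB_l36011 _)))
           (CovZ.n1 (-13872, 28176) (by decide +kernel)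
            (CovZ.n2 (-13824, 28176) (by decide +kernel)
             (CovZ.leaf K2_ok TB_l36012 _)
             (CovZ.leaf K2_ok TB_l36013 _))
            (CovZ.n1 (-13872, 28128) (by decide +kernel)
             (CovZ.leaf K2_ok TB_l36014 _)
             (CovZ.n1 (-13848, 28152) (by decide +kernel)
              (CovZ.leaf K2_ok TB_l36015 _)
              (CovZ.leaf K2_ok TB_l36016 _))))))
         (CovZ.subM 196256248024775864563582933208028860977894633500284973821933206018596408564928886028148385047740191551366141816701147018881606538008592241395712 (by decide +kernel)
          (CovZ.n1 (-13920, 28320) (by decide +kernel)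
           (CovZ.n2 (-13824, 28320) (by decide +kernel)
            (CovZ.n2 (-13872, 28272) (by decide +kernel)
             (CovZ.n2 (-13872, 28320) (by decide +kernel)
              (CovZ.n2 (-13848, 28296) (by decide +kernel)
               (CovZ.leaf K2_ok TB_l36017 _)
               (CovZ.n1 (-13848, 28320) (by decide +kernel)
                (CovZ.leaf K2_ok TB_l36018 _)
                (CovZ.leaf K2_ok TB_l36019 _)))
              (CovZ.n1 (-13896, 28296) (by decide +kernel)
               (CovZ.leaf K2_ok TB_l36020 _)
               (CovZ.leaf K2_ok TB_l36021 _)))
             (CovZ.n1 (-13824, 28272) (by decide +kernel)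
              (CovZ.n2 (-13848, 28248) (by decide +kernel)
               (CovZ.leaf K2_ok TB_l36022 _)
               (CovZ.leaf K2_ok TB_l36023 _))
              (CovZ.n1 (-13848, 28296) (by decide +kernel)
               (CovZ.leaf K2_ok TB_l36024 _)
               (CovZ.leaf K2_ok TB_l36025 _))))
            (CovZ.n1 (-13872, 28368) (by decide +kernel)
             (CovZ.n2 (-13824, 28368) (by decide +kernel)
              (CovZ.n2 (-13848, 28344) (by decide +kernel)
               (CovZ.n2 (-13848, 28368) (by decide +kernel)
                (CovZ.leaf K2_ok TB_l36026 _)
                (CovZ.leaf K2_ok TB_l36027 _))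
               (CovZ.leaf K2_ok TB_l36028 _))
              (CovZ.n1 (-13848, 28392) (by decide +kernel)
               (CovZ.leaf K2_ok TB_l47103 _)
               (CovZ.n1 (-13848, 28368) (by decide +kernel)
                (CovZ.leaf K2_ok TB_l36029 _)
                (CovZ.leaf K2_ok TB_l36030 _))))
             (CovZ.n1 (-13872, 28320) (by decide +kernel)
              (CovZ.n2 (-13896, 28344) (by decide +kernel)
               (CovZ.leaf K2_ok TB_l36031 _)
               (CovZ.leaf K2_ok TB_l36032 _))
              (CovZ.n1 (-13848, 28344) (by decide +kernel)
               (CovZ.n2 (-13848, 28320) (by decide +kernel)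
                (CovZ.leaf K2_ok TB_l36033 _)
                (CovZ.leaf K2_ok TB_l36034 _))
               (CovZ.leaf K2_ok TB_l36035 _)))))
           (CovZ.n1 (-13920, 28224) (by decide +kernel)
            (CovZ.n2 (-13968, 28272) (by decide +kernel)
             (CovZ.n2 (-13920, 28272) (by decide +kernel)
              (CovZ.leaf K2_ok TB_l36036 _)
              (CovZ.leaf K2_ok TB_l36037 _))
             (CovZ.n1 (-13968, 28224) (by decide +kernel)
              (CovZ.leaf K2_ok TB_l36038 _)
              (CovZ.leaf K2_ok TB_l36039 _)))
            (CovZ.n1 (-13872, 28272) (by decide +kernel)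
             (CovZ.n2 (-13872, 28224) (by decide +kernel)
              (CovZ.leaf K2_ok TB_l36040 _)
              (CovZ.n1 (-13848, 28248) (by decide +kernel)
               (CovZ.leaf K2_ok TB_l36041 _)
               (CovZ.leaf K2_ok TB_l36042 _)))
             (CovZ.n1 (-13920, 28272) (by decide +kernel)
              (CovZ.n2 (-13896, 28296) (by decide +kernel)
               (CovZ.leaf K2_ok TB_l36043 _)
               (CovZ.leaf K2_ok TB_l36044 _))
              (CovZ.leaf K2_ok TB_l36045 _)))))))
        (CovZ.n1 (-14016, 28032) (by decide +kernel)
         (CovZ.subM 762168935076732951641718334060617414347798949577416624319912230090606329407757260597549394668892951405737647715843126742601904781645116868608 (by decide +kernel)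
          (CovZ.n2 (-14112, 28128) (by decide +kernel)
           (CovZ.n2 (-14016, 28128) (by decide +kernel)
            (CovZ.n2 (-14064, 28080) (by decide +kernel)
             (CovZ.leaf K2_ok TB_l36046 _)
             (CovZ.leaf K2_ok TB_l36047 _))
            (CovZ.n1 (-14064, 28176) (by decide +kernel)
             (CovZ.leaf K2_ok TB_l36048 _)
             (CovZ.leaf K2_ok TB_l36049 _)))
           (CovZ.n1 (-14112, 28032) (by decide +kernel)
            (CovZ.n2 (-14160, 28080) (by decide +kernel)
             (CovZ.leaf K2_ok TB_l36050 _)
             (CovZ.leaf K2_ok TB_l36051 _))
            (CovZ.n1 (-14064, 28080) (by decide +kernel)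
             (CovZ.leaf K2_ok TB_l36052 _)
             (CovZ.leaf K2_ok TB_l36053 _)))))
         (CovZ.n1 (-13920, 28128) (by decide +kernel)
          (CovZ.n2 (-13920, 28032) (by decide +kernel)
           (CovZ.n2 (-13968, 28080) (by decide +kernel)
            (CovZ.leaf K2_ok TB_l36054 _)
            (CovZ.n1 (-13968, 28032) (by decide +kernel)
             (CovZ.leaf K2_ok TB_l36055 _)
             (CovZ.leaf K2_ok TB_l36056 _)))
           (CovZ.n1 (-13872, 28080) (by decide +kernel)
            (CovZ.n2 (-13872, 28032) (by decide +kernel)
             (CovZ.leaf K2_ok TB_l36057 _)
             (CovZ.leaf K2_ok TB_l36058 _))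
            (CovZ.leaf K2_ok TB_l36059 _)))
          (CovZ.subM 762168935076732951972266807652877926230987577115137097207184428288782047806747535215731528254690741430785039029420919633127297959420439300096 (by decide +kernel)
           (CovZ.n1 (-14016, 28128) (by decide +kernel)
            (CovZ.n2 (-13968, 28176) (by decide +kernel)
             (CovZ.n2 (-13968, 28128) (by decide +kernel)
              (CovZ.leaf K2_ok TB_l36060 _)
              (CovZ.leaf K2_ok TB_l36061 _))
             (CovZ.leaf K2_ok TB_l36062 _))
            (CovZ.n1 (-13968, 28080) (by decide +kernel)
             (CovZ.leaf K2_ok TB_l36063 _)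
             (CovZ.n1 (-13968, 28128) (by decide +kernel)
              (CovZ.leaf K2_ok TB_l36064 _)
              (CovZ.leaf K2_ok TB_l36065 _)))))))))

theorem TB_u475 : CovZ TB_M (toL (selN TB_LN 196255503729855527352900043961873283545681951707131956881240798889196971063098414216725881401931502163150026254343389840428821492413376564824064)) [0, 7, 6, 1] (-14208, 28800) (-14016, 28608) (-13824, 28800) :=
    (CovZ.subM 195109284394749514461349826862072894109287383916560696929194633212995633396602879322263045612608751895071554546860119095077582108537379358769152 (by decide +kernel)
          (CovZ.n2 (-14016, 28800) (by decide +kernel)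
           (CovZ.n2 (-13920, 28704) (by decide +kernel)
            (CovZ.subM 497323236409899720367528064743914171140503697582360717948238884785100326067785246441472 (by decide +kernel)
             (CovZ.n2 (-14016, 28704) (by decide +kernel)
              (CovZ.n2 (-13968, 28752) (by decide +kernel)
               (CovZ.n2 (-13968, 28704) (by decide +kernel)
                (CovZ.n2 (-13992, 28728) (by decide +kernel)
                 (CovZ.n2 (-13968, 28728) (by decide +kernel)
                  (CovZ.leaf K2_ok TB_l47104 _)
                  (CovZ.leaf K2_ok TB_l47105 _))
                 (CovZ.n1 (-13992, 28704) (by decide +kernel)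
                  (CovZ.leaf K2_ok TB_l47106 _)
                  (CovZ.leaf K2_ok TB_l47107 _)))
                (CovZ.n1 (-13944, 28728) (by decide +kernel)
                 (CovZ.n2 (-13944, 28704) (by decide +kernel)
                  (CovZ.leaf K2_ok TB_l47108 _)
                  (CovZ.leaf K2_ok TB_l47109 _))
                 (CovZ.n1 (-13968, 28728) (by decide +kernel)
                  (CovZ.leaf K2_ok TB_l47110 _)
                  (CovZ.leaf K2_ok TB_l47111 _))))
               (CovZ.n1 (-14016, 28752) (by decide +kernel)
                (CovZ.n2 (-13992, 28776) (by decide +kernel)
                 (CovZ.n2 (-13992, 28752) (by decide +kernel)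
                  (CovZ.leaf K2_ok TB_l47112 _)
                  (CovZ.leaf K2_ok TB_l47113 _))
                 (CovZ.leaf K2_ok TB_l47114 _))
                (CovZ.n1 (-13992, 28728) (by decide +kernel)
                 (CovZ.leaf K2_ok TB_l47115 _)
                 (CovZ.n1 (-13992, 28752) (by decide +kernel)
                  (CovZ.leaf K2_ok TB_l47116 _)
                  (CovZ.leaf K2_ok TB_l47117 _)))))
              (CovZ.n1 (-13968, 28656) (by decide +kernel)
               (CovZ.n2 (-14016, 28656) (by decide +kernel)
                (CovZ.n2 (-13992, 28680) (by decide +kernel)
                 (CovZ.n2 (-13992, 28656) (by decide +kernel)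
                  (CovZ.leaf K2_ok TB_l47118 _)
                  (CovZ.leaf K2_ok TB_l47119 _))
                 (CovZ.leaf K2_ok TB_l47120 _))
                (CovZ.n1 (-13992, 28632) (by decide +kernel)
                 (CovZ.leaf K2_ok TB_l47121 _)
                 (CovZ.leaf K2_ok TB_l47122 _)))
               (CovZ.n1 (-13968, 28704) (by decide +kernel)
                (CovZ.n2 (-13944, 28680) (by decide +kernel)
                 (CovZ.leaf K2_ok TB_l47123 _)
                 (CovZ.n1 (-13944, 28704) (by decide +kernel)
                  (CovZ.leaf K2_ok TB_l47124 _)
                  (CovZ.leaf K2_ok TB_l47125 _)))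
                (CovZ.n1 (-13992, 28680) (by decide +kernel)
                 (CovZ.leaf K2_ok TB_l47126 _)
                 (CovZ.leaf K2_ok TB_l47127 _))))))
            (CovZ.subM 497323236409786642155382248146820840100456150797347717440463976893159497012533375533056 (by decide +kernel)
             (CovZ.n1 (-13920, 28800) (by decide +kernel)
              (CovZ.badM (by decide +kernel))
              (CovZ.n1 (-13968, 28752) (by decide +kernel)
               (CovZ.n2 (-13968, 28800) (by decide +kernel)
                (CovZ.n2 (-13944, 28776) (by decide +kernel)
                 (CovZ.n2 (-13968, 28776) (by decide +kernel)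
                  (CovZ.leaf K2_ok TB_l47128 _)
                  (CovZ.leaf K2_ok TB_l47129 _))
                 (CovZ.badM (by decide +kernel)))
                (CovZ.n1 (-13992, 28776) (by decide +kernel)
                 (CovZ.n2 (-13992, 28800) (by decide +kernel)
                  (CovZ.leaf K2_ok TB_l47130 _)
                  (CovZ.leaf K2_ok TB_l47131 _))
                 (CovZ.n1 (-13968, 28776) (by decide +kernel)
                  (CovZ.leaf K2_ok TB_l47132 _)
                  (CovZ.leaf K2_ok TB_l47133 _))))
               (CovZ.n1 (-13920, 28752) (by decide +kernel)
                (CovZ.n2 (-13944, 28728) (by decide +kernel)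
                 (CovZ.n2 (-13944, 28752) (by decide +kernel)
                  (CovZ.badM (by decide +kernel))
                  (CovZ.leaf K2_ok TB_l47134 _))
                 (CovZ.badM (by decide +kernel)))
                (CovZ.n1 (-13944, 28776) (by decide +kernel)
                 (CovZ.badM (by decide +kernel))
                 (CovZ.n1 (-13944, 28752) (by decide +kernel)
                  (CovZ.leaf K2_ok TB_l47135 _)
                  (CovZ.badM (by decide +kernel)))))))))
           (CovZ.n1 (-14112, 28704) (by decide +kernel)
            (CovZ.subM 497323236409786642155382248146820840100456150797358351264430256220142817541008165699584 (by decide +kernel)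
             (CovZ.n2 (-14112, 28800) (by decide +kernel)
              (CovZ.n2 (-14064, 28752) (by decide +kernel)
               (CovZ.n2 (-14112, 28752) (by decide +kernel)
                (CovZ.n2 (-14088, 28776) (by decide +kernel)
                 (CovZ.leaf K2_ok TB_l47136 _)
                 (CovZ.leaf K2_ok TB_l47137 _))
                (CovZ.leaf K2_ok TB_l47138 _))
               (CovZ.n1 (-14064, 28800) (by decide +kernel)
                (CovZ.n2 (-14040, 28776) (by decide +kernel)
                 (CovZ.leaf K2_ok TB_l47139 _)
                 (CovZ.n1 (-14040, 28800) (by decide +kernel)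
                  (CovZ.leaf K2_ok TB_l47140 _)
                  (CovZ.leaf K2_ok TB_l47141 _)))
                (CovZ.n1 (-14088, 28776) (by decide +kernel)
                 (CovZ.leaf K2_ok TB_l47142 _)
                 (CovZ.leaf K2_ok TB_l47143 _))))
              (CovZ.n1 (-14160, 28752) (by decide +kernel)
               (CovZ.n2 (-14160, 28800) (by decide +kernel)
                (CovZ.leaf K2_ok TB_l47144 _)
                (CovZ.leaf K2_ok TB_l47145 _))
               (CovZ.n1 (-14112, 28752) (by decide +kernel)
                (CovZ.leaf K2_ok TB_l47146 _)
                (CovZ.leaf K2_ok TB_l47147 _)))))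
            (CovZ.subM 497323236409899720367528064743914171140503697582360717948238884785100326067785246441472 (by decide +kernel)
             (CovZ.n1 (-14016, 28704) (by decide +kernel)
              (CovZ.n2 (-14064, 28656) (by decide +kernel)
               (CovZ.n2 (-14064, 28704) (by decide +kernel)
                (CovZ.n2 (-14040, 28680) (by decide +kernel)
                 (CovZ.leaf K2_ok TB_l47148 _)
                 (CovZ.leaf K2_ok TB_l47149 _))
                (CovZ.leaf K2_ok TB_l47150 _))
               (CovZ.n1 (-14016, 28656) (by decide +kernel)
                (CovZ.n2 (-14040, 28632) (by decide +kernel)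
                 (CovZ.leaf K2_ok TB_l47151 _)
                 (CovZ.leaf K2_ok TB_l47152 _))
                (CovZ.n1 (-14040, 28680) (by decide +kernel)
                 (CovZ.leaf K2_ok TB_l47153 _)
                 (CovZ.leaf K2_ok TB_l47154 _))))
              (CovZ.n1 (-14064, 28752) (by decide +kernel)
               (CovZ.n2 (-14016, 28752) (by decide +kernel)
                (CovZ.n2 (-14040, 28728) (by decide +kernel)
                 (CovZ.n2 (-14040, 28752) (by decide +kernel)
                  (CovZ.leaf K2_ok TB_l47155 _)
                  (CovZ.leaf K2_ok TB_l47156 _))
                 (CovZ.leaf K2_ok TB_l47157 _))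
                (CovZ.n1 (-14040, 28776) (by decide +kernel)
                 (CovZ.leaf K2_ok TB_l47158 _)
                 (CovZ.leaf K2_ok TB_l47159 _)))
               (CovZ.n1 (-14064, 28704) (by decide +kernel)
                (CovZ.leaf K2_ok TB_l47160 _)
                (CovZ.n1 (-14040, 28728) (by decide +kernel)
                 (CovZ.leaf K2_ok TB_l47161 _)
                 (CovZ.leaf K2_ok TB_l47162 _)))))))))

theorem TB_u476 : CovZ TB_M (toL (selN TB_LN 196255503729855527352900043961873283545681951707131956881240798889196971063098414216725881401931502163150026254343389840428821492413376564824064)) [0, 7, 6, 1] (-14016, 28608) (-13824, 28416) (-13824, 28800) :=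
    (CovZ.n1 (-13824, 28608) (by decide +kernel)
          (CovZ.n2 (-13920, 28512) (by decide +kernel)
           (CovZ.subM 195871453389804638236213012238514527894180286297072249742497988111835892702057939692187134056116906471378805135793209687404544187817847185997824 (by decide +kernel)
            (CovZ.n2 (-13920, 28608) (by decide +kernel)
             (CovZ.n2 (-13872, 28560) (by decide +kernel)
              (CovZ.n2 (-13920, 28560) (by decide +kernel)
               (CovZ.n2 (-13896, 28584) (by decide +kernel)
                (CovZ.n2 (-13896, 28560) (by decide +kernel)
                 (CovZ.leaf K2_ok TB_l47163 _)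
                 (CovZ.leaf K2_ok TB_l47164 _))
                (CovZ.leaf K2_ok TB_l47165 _))
               (CovZ.n1 (-13896, 28536) (by decide +kernel)
                (CovZ.leaf K2_ok TB_l47166 _)
                (CovZ.n1 (-13896, 28560) (by decide +kernel)
                 (CovZ.leaf K2_ok TB_l47167 _)
                 (CovZ.leaf K2_ok TB_l47168 _))))
              (CovZ.subM 497323236409786642155382248146820840100456150797347758978838845171780525256504009293824 (by decide +kernel)
               (CovZ.n1 (-13872, 28608) (by decide +kernel)
                (CovZ.badM (by decide +kernel))
                (CovZ.n1 (-13896, 28584) (by decide +kernel)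
                 (CovZ.n2 (-13896, 28608) (by decide +kernel)
                  (CovZ.leaf K2_ok TB_l47169 _)
                  (CovZ.leaf K2_ok TB_l47170 _))
                 (CovZ.n1 (-13872, 28584) (by decide +kernel)
                  (CovZ.leaf K2_ok TB_l47171 _)
                  (CovZ.leaf K2_ok TB_l47172 _))))))
             (CovZ.n1 (-13968, 28560) (by decide +kernel)
              (CovZ.subM 497323236409899720367528064743914171140503697930809861675279871371595924077915894972416 (by decide +kernel)
               (CovZ.n2 (-13968, 28608) (by decide +kernel)
                (CovZ.n2 (-13944, 28584) (by decide +kernel)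
                 (CovZ.leaf K2_ok TB_l47173 _)
                 (CovZ.leaf K2_ok TB_l47174 _))
                (CovZ.n1 (-13992, 28584) (by decide +kernel)
                 (CovZ.leaf K2_ok TB_l47175 _)
                 (CovZ.leaf K2_ok TB_l47176 _))))
              (CovZ.n1 (-13920, 28560) (by decide +kernel)
               (CovZ.n2 (-13944, 28536) (by decide +kernel)
                (CovZ.leaf K2_ok TB_l47177 _)
                (CovZ.leaf K2_ok TB_l47178 _))
               (CovZ.subM 497323236409899720367528064743914171140503697930809861675279871371595924077915894972416 (by decide +kernel)
                (CovZ.n1 (-13944, 28584) (by decide +kernel)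
                 (CovZ.n2 (-13920, 28584) (by decide +kernel)
                  (CovZ.leaf K2_ok TB_l47179 _)
                  (CovZ.leaf K2_ok TB_l47180 _))
                 (CovZ.n1 (-13944, 28560) (by decide +kernel)
                  (CovZ.leaf K2_ok TB_l47181 _)
                  (CovZ.leaf K2_ok TB_l47182 _))))))))
           (CovZ.n1 (-13824, 28512) (by decide +kernel)
            (CovZ.n2 (-13872, 28464) (by decide +kernel)
             (CovZ.n2 (-13872, 28512) (by decide +kernel)
              (CovZ.n2 (-13848, 28488) (by decide +kernel)
               (CovZ.leaf K2_ok TB_l47183 _)
               (CovZ.n1 (-13848, 28512) (by decide +kernel)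
                (CovZ.leaf K2_ok TB_l47184 _)
                (CovZ.leaf K2_ok TB_l47185 _)))
              (CovZ.n1 (-13896, 28488) (by decide +kernel)
               (CovZ.n2 (-13896, 28512) (by decide +kernel)
                (CovZ.leaf K2_ok TB_l47186 _)
                (CovZ.leaf K2_ok TB_l47187 _))
               (CovZ.leaf K2_ok TB_l47188 _)))
             (CovZ.n1 (-13824, 28464) (by decide +kernel)
              (CovZ.n2 (-13848, 28440) (by decide +kernel)
               (CovZ.n2 (-13848, 28464) (by decide +kernel)
                (CovZ.leaf K2_ok TB_l47189 _)
                (CovZ.leaf K2_ok TB_l47190 _))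
               (CovZ.n1 (-13824, 28440) (by decide +kernel)
                (CovZ.leaf K2_ok TB_l47191 _)
                (CovZ.leaf K2_ok TB_l47192 _)))
              (CovZ.n1 (-13848, 28488) (by decide +kernel)
               (CovZ.n2 (-13824, 28488) (by decide +kernel)
                (CovZ.leaf K2_ok TB_l47193 _)
                (CovZ.leaf K2_ok TB_l47194 _))
               (CovZ.n1 (-13848, 28464) (by decide +kernel)
                (CovZ.leaf K2_ok TB_l47195 _)
                (CovZ.leaf K2_ok TB_l47196 _)))))
            (CovZ.subM 195871453389804638236213012238514527894180286297072249742497988111835892702057939692187134056116906471378805135793209687404544187817847185997824 (by decide +kernel)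
             (CovZ.n1 (-13872, 28560) (by decide +kernel)
              (CovZ.subM 23261678391226200211994570148540707617028842453559362765180660944871006591847926507076106556632284736872372420000542171130660121653280768 (by decide +kernel)
               (CovZ.n2 (-13824, 28560) (by decide +kernel)
                (CovZ.n2 (-13848, 28536) (by decide +kernel)
                 (CovZ.n2 (-13848, 28560) (by decide +kernel)
                  (CovZ.leaf K2_ok TB_l49816 _)
                  (CovZ.leaf K2_ok TB_l49817 _))
                 (CovZ.n1 (-13824, 28536) (by decide +kernel)
                  (CovZ.leaf K2_ok TB_l49818 _)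
                  (CovZ.leaf K2_ok TB_l49819 _)))
                (CovZ.badM (by decide +kernel))))
              (CovZ.n1 (-13872, 28512) (by decide +kernel)
               (CovZ.n2 (-13896, 28536) (by decide +kernel)
                (CovZ.leaf K2_ok TB_l47197 _)
                (CovZ.n1 (-13896, 28512) (by decide +kernel)
                 (CovZ.leaf K2_ok TB_l47198 _)
                 (CovZ.leaf K2_ok TB_l47199 _)))
               (CovZ.n1 (-13848, 28536) (by decide +kernel)
                (CovZ.n2 (-13848, 28512) (by decide +kernel)
                 (CovZ.leaf K2_ok TB_l47200 _)
                 (CovZ.leaf K2_ok TB_l47201 _))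
                (CovZ.n1 (-13872, 28536) (by decide +kernel)
                 (CovZ.leaf K2_ok TB_l47202 _)
                 (CovZ.leaf K2_ok TB_l47203 _))))))))
          (CovZ.subM 195109284394749514461349826862072894109287383916560696929194633212995633396602879322263045612608751895071543913036152815750598806023303078084608 (by decide +kernel)
           (CovZ.n1 (-13920, 28704) (by decide +kernel)
            (CovZ.n2 (-13824, 28704) (by decide +kernel)
             (CovZ.n2 (-13872, 28656) (by decide +kernel)
              (CovZ.badM (by decide +kernel))
              (CovZ.badM (by decide +kernel)))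
             (CovZ.badM (by decide +kernel)))
            (CovZ.n1 (-13920, 28608) (by decide +kernel)
             (CovZ.n2 (-13968, 28656) (by decide +kernel)
              (CovZ.n2 (-13920, 28656) (by decide +kernel)
               (CovZ.n2 (-13944, 28632) (by decide +kernel)
                (CovZ.n2 (-13944, 28656) (by decide +kernel)
                 (CovZ.leaf K2_ok TB_l47204 _)
                 (CovZ.leaf K2_ok TB_l47205 _))
                (CovZ.n1 (-13920, 28632) (by decide +kernel)
                 (CovZ.leaf K2_ok TB_l47206 _)
                 (CovZ.leaf K2_ok TB_l47207 _)))
               (CovZ.n1 (-13944, 28680) (by decide +kernel)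
                (CovZ.n2 (-13920, 28680) (by decide +kernel)
                 (CovZ.leaf K2_ok TB_l47208 _)
                 (CovZ.leaf K2_ok TB_l47209 _))
                (CovZ.n1 (-13944, 28656) (by decide +kernel)
                 (CovZ.leaf K2_ok TB_l47210 _)
                 (CovZ.leaf K2_ok TB_l47211 _))))
              (CovZ.n1 (-13968, 28608) (by decide +kernel)
               (CovZ.n2 (-13992, 28632) (by decide +kernel)
                (CovZ.leaf K2_ok TB_l47212 _)
                (CovZ.n1 (-13992, 28608) (by decide +kernel)
                 (CovZ.leaf K2_ok TB_l47213 _)
                 (CovZ.leaf K2_ok TB_l47214 _)))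
               (CovZ.n1 (-13944, 28632) (by decide +kernel)
                (CovZ.n2 (-13944, 28608) (by decide +kernel)
                 (CovZ.leaf K2_ok TB_l47215 _)
                 (CovZ.leaf K2_ok TB_l47216 _))
                (CovZ.leaf K2_ok TB_l47217 _))))
             (CovZ.n1 (-13872, 28656) (by decide +kernel)
              (CovZ.n2 (-13872, 28608) (by decide +kernel)
               (CovZ.n2 (-13896, 28632) (by decide +kernel)
                (CovZ.n2 (-13872, 28632) (by decide +kernel)
                 (CovZ.leaf K2_ok TB_l47218 _)
                 (CovZ.leaf K2_ok TB_l47219 _))
                (CovZ.n1 (-13896, 28608) (by decide +kernel)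
                 (CovZ.leaf K2_ok TB_l47220 _)
                 (CovZ.leaf K2_ok TB_l47221 _)))
               (CovZ.badM (by decide +kernel)))
              (CovZ.n1 (-13920, 28656) (by decide +kernel)
               (CovZ.n2 (-13896, 28680) (by decide +kernel)
                (CovZ.n2 (-13896, 28656) (by decide +kernel)
                 (CovZ.leaf K2_ok TB_l47222 _)
                 (CovZ.badM (by decide +kernel)))
                (CovZ.n1 (-13920, 28680) (by decide +kernel)
                 (CovZ.badM (by decide +kernel))
                 (CovZ.leaf K2_ok TB_l47223 _)))
               (CovZ.n1 (-13896, 28632) (by decide +kernel)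
                (CovZ.n2 (-13920, 28632) (by decide +kernel)
                 (CovZ.leaf K2_ok TB_l47224 _)
                 (CovZ.leaf K2_ok TB_l47225 _))
                (CovZ.n1 (-13896, 28656) (by decide +kernel)
                 (CovZ.leaf K2_ok TB_l47226 _)
                 (CovZ.leaf K2_ok TB_l47227 _)))))))))

theorem TB_u477 : CovZ TB_M (toL (selN TB_LN 196256248024775907886732825846833801152311304220148490297373907191062770939817652187979091982507404742539203700658542231506419157070574807747585)) [0, 7, 6, 1] (-13824, 29184) (-14208, 28800) (-13824, 28416) :=
    (CovZ.subM 196255503729855527352900043961873283545681951707131956881240798889196971063098414216725881401931502163150026254343389840428821492413376564824064 (by decide +kernel)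
       (CovZ.n2 (-13824, 28800) (by decide +kernel)
        (CovZ.n2 (-14016, 28608) (by decide +kernel)
         TB_u475
         TB_u476)
        (CovZ.subM 497323236409786642155382248146820840100456150797358351264430256220142817541008165699584 (by decide +kernel)
         (CovZ.n1 (-14016, 28992) (by decide +kernel)
          (CovZ.badM (by decide +kernel))
          (CovZ.n1 (-14016, 28800) (by decide +kernel)
           (CovZ.n2 (-14112, 28896) (by decide +kernel)
            (CovZ.n2 (-14016, 28896) (by decide +kernel)
             (CovZ.n2 (-14064, 28848) (by decide +kernel)
              (CovZ.n2 (-14064, 28896) (by decide +kernel)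
               (CovZ.n2 (-14040, 28872) (by decide +kernel)
                (CovZ.leaf K2_ok TB_l47228 _)
                (CovZ.n1 (-14040, 28896) (by decide +kernel)
                 (CovZ.leaf K2_ok TB_l47229 _)
                 (CovZ.leaf K2_ok TB_l47230 _)))
               (CovZ.n1 (-14088, 28872) (by decide +kernel)
                (CovZ.n2 (-14088, 28896) (by decide +kernel)
                 (CovZ.leaf K2_ok TB_l47231 _)
                 (CovZ.leaf K2_ok TB_l47232 _))
                (CovZ.leaf K2_ok TB_l47233 _)))
              (CovZ.n1 (-14016, 28848) (by decide +kernel)
               (CovZ.n2 (-14040, 28824) (by decide +kernel)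
                (CovZ.n2 (-14040, 28848) (by decide +kernel)
                 (CovZ.leaf K2_ok TB_l47234 _)
                 (CovZ.leaf K2_ok TB_l47235 _))
                (CovZ.leaf K2_ok TB_l47236 _))
               (CovZ.n1 (-14040, 28872) (by decide +kernel)
                (CovZ.n2 (-14016, 28872) (by decide +kernel)
                 (CovZ.leaf K2_ok TB_l47237 _)
                 (CovZ.leaf K2_ok TB_l47238 _))
                (CovZ.n1 (-14040, 28848) (by decide +kernel)
                 (CovZ.leaf K2_ok TB_l47239 _)
                 (CovZ.leaf K2_ok TB_l47240 _)))))
             (CovZ.n1 (-14064, 28944) (by decide +kernel)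
              (CovZ.n2 (-14016, 28944) (by decide +kernel)
               (CovZ.n2 (-14040, 28920) (by decide +kernel)
                (CovZ.n2 (-14040, 28944) (by decide +kernel)
                 (CovZ.leaf K2_ok TB_l47241 _)
                 (CovZ.leaf K2_ok TB_l47242 _))
                (CovZ.n1 (-14016, 28920) (by decide +kernel)
                 (CovZ.leaf K2_ok TB_l47243 _)
                 (CovZ.leaf K2_ok TB_l47244 _)))
               (CovZ.n1 (-14040, 28968) (by decide +kernel)
                (CovZ.badM (by decide +kernel))
                (CovZ.n1 (-14040, 28944) (by decide +kernel)
                 (CovZ.leaf K2_ok TB_l47245 _)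
                 (CovZ.leaf K2_ok TB_l47246 _))))
              (CovZ.n1 (-14064, 28896) (by decide +kernel)
               (CovZ.n2 (-14088, 28920) (by decide +kernel)
                (CovZ.leaf K2_ok TB_l47247 _)
                (CovZ.n1 (-14088, 28896) (by decide +kernel)
                 (CovZ.leaf K2_ok TB_l47248 _)
                 (CovZ.leaf K2_ok TB_l47249 _)))
               (CovZ.n1 (-14040, 28920) (by decide +kernel)
                (CovZ.n2 (-14040, 28896) (by decide +kernel)
                 (CovZ.leaf K2_ok TB_l47250 _)
                 (CovZ.leaf K2_ok TB_l47251 _))
                (CovZ.leaf K2_ok TB_l47252 _)))))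
            (CovZ.n1 (-14112, 28800) (by decide +kernel)
             (CovZ.n2 (-14160, 28848) (by decide +kernel)
              (CovZ.n2 (-14112, 28848) (by decide +kernel)
               (CovZ.n2 (-14136, 28824) (by decide +kernel)
                (CovZ.leaf K2_ok TB_l47253 _)
                (CovZ.leaf K2_ok TB_l47254 _))
               (CovZ.n1 (-14136, 28872) (by decide +kernel)
                (CovZ.leaf K2_ok TB_l47255 _)
                (CovZ.leaf K2_ok TB_l47256 _)))
              (CovZ.n1 (-14160, 28800) (by decide +kernel)
               (CovZ.leaf K2_ok TB_l47257 _)
               (CovZ.n1 (-14136, 28824) (by decide +kernel)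
                (CovZ.leaf K2_ok TB_l47258 _)
                (CovZ.leaf K2_ok TB_l47259 _))))
             (CovZ.n1 (-14064, 28848) (by decide +kernel)
              (CovZ.n2 (-14064, 28800) (by decide +kernel)
               (CovZ.n2 (-14088, 28824) (by decide +kernel)
                (CovZ.leaf K2_ok TB_l47260 _)
                (CovZ.leaf K2_ok TB_l47261 _))
               (CovZ.n1 (-14040, 28824) (by decide +kernel)
                (CovZ.n2 (-14040, 28800) (by decide +kernel)
                 (CovZ.leaf K2_ok TB_l47262 _)
                 (CovZ.leaf K2_ok TB_l47263 _))
                (CovZ.leaf K2_ok TB_l47264 _)))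
              (CovZ.n1 (-14112, 28848) (by decide +kernel)
               (CovZ.n2 (-14088, 28872) (by decide +kernel)
                (CovZ.leaf K2_ok TB_l47265 _)
                (CovZ.leaf K2_ok TB_l47266 _))
               (CovZ.n1 (-14088, 28824) (by decide +kernel)
                (CovZ.leaf K2_ok TB_l47267 _)
                (CovZ.leaf K2_ok TB_l47268 _))))))
           (CovZ.n1 (-13920, 28896) (by decide +kernel)
            (CovZ.n2 (-13920, 28800) (by decide +kernel)
             (CovZ.n2 (-13968, 28848) (by decide +kernel)
              (CovZ.badM (by decide +kernel))
              (CovZ.n1 (-13968, 28800) (by decide +kernel)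
               (CovZ.n2 (-13992, 28824) (by decide +kernel)
                (CovZ.n2 (-13968, 28824) (by decide +kernel)
                 (CovZ.leaf K2_ok TB_l47269 _)
                 (CovZ.leaf K2_ok TB_l47270 _))
                (CovZ.n1 (-13992, 28800) (by decide +kernel)
                 (CovZ.leaf K2_ok TB_l47271 _)
                 (CovZ.leaf K2_ok TB_l47272 _)))
               (CovZ.badM (by decide +kernel))))
             (CovZ.badM (by decide +kernel)))
            (CovZ.n1 (-14016, 28896) (by decide +kernel)
             (CovZ.n2 (-13968, 28944) (by decide +kernel)
              (CovZ.n2 (-13968, 28896) (by decide +kernel)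
               (CovZ.n2 (-13992, 28920) (by decide +kernel)
                (CovZ.badM (by decide +kernel))
                (CovZ.n1 (-13992, 28896) (by decide +kernel)
                 (CovZ.leaf K2_ok TB_l47273 _)
                 (CovZ.badM (by decide +kernel))))
               (CovZ.badM (by decide +kernel)))
              (CovZ.n1 (-14016, 28944) (by decide +kernel)
               (CovZ.badM (by decide +kernel))
               (CovZ.n1 (-13992, 28920) (by decide +kernel)
                (CovZ.n2 (-14016, 28920) (by decide +kernel)
                 (CovZ.badM (by decide +kernel))
                 (CovZ.leaf K2_ok TB_l47274 _))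
                (CovZ.badM (by decide +kernel)))))
             (CovZ.n1 (-13968, 28848) (by decide +kernel)
              (CovZ.n2 (-14016, 28848) (by decide +kernel)
               (CovZ.n2 (-13992, 28872) (by decide +kernel)
                (CovZ.n2 (-13992, 28848) (by decide +kernel)
                 (CovZ.leaf K2_ok TB_l47275 _)
                 (CovZ.badM (by decide +kernel)))
                (CovZ.n1 (-14016, 28872) (by decide +kernel)
                 (CovZ.leaf K2_ok TB_l47276 _)
                 (CovZ.leaf K2_ok TB_l47277 _)))
               (CovZ.n1 (-13992, 28824) (by decide +kernel)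
                (CovZ.n2 (-14016, 28824) (by decide +kernel)
                 (CovZ.leaf K2_ok TB_l47278 _)
                 (CovZ.leaf K2_ok TB_l47279 _))
                (CovZ.n1 (-13992, 28848) (by decide +kernel)
                 (CovZ.leaf K2_ok TB_l47280 _)
                 (CovZ.leaf K2_ok TB_l47281 _))))
              (CovZ.n1 (-13968, 28896) (by decide +kernel)
               (CovZ.badM (by decide +kernel))
               (CovZ.n1 (-13992, 28872) (by decide +kernel)
                (CovZ.n2 (-13992, 28896) (by decide +kernel)
                 (CovZ.badM (by decide +kernel))
                 (CovZ.leaf K2_ok TB_l47282 _))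
                (CovZ.badM (by decide +kernel))))))))))))

theorem TB_u478 : CovZ TB_M (toL (selN TB_LN 196256248024775907886732825846833801152311304220148490297373907191062770939817652187979091982507404742539203700658542231506419157070574807747585)) [0, 7, 6, 1] (-14208, 28800) (-14592, 28416) (-13824, 28416) :=
    (CovZ.n1 (-14208, 28416) (by decide +kernel)
       (CovZ.subM 762168901006167750285145339561064213165409248479633365322929087548967933221297653200160498651283382634016632938100976673643240138653944515584 (by decide +kernel)
        (CovZ.n2 (-14400, 28608) (by decide +kernel)
         (CovZ.n2 (-14208, 28608) (by decide +kernel)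
          (CovZ.n2 (-14304, 28512) (by decide +kernel)
           (CovZ.subM 762168901006167750285145339541824658759503159947607217052979905467491651374633673901181481132726418837898982506592983111114829104230808158208 (by decide +kernel)
            (CovZ.n2 (-14304, 28608) (by decide +kernel)
             (CovZ.n2 (-14256, 28560) (by decide +kernel)
              (CovZ.leaf K2_ok TB_l36066 _)
              (CovZ.leaf K2_ok TB_l36067 _))
             (CovZ.n1 (-14352, 28560) (by decide +kernel)
              (CovZ.leaf K2_ok TB_l36068 _)
              (CovZ.leaf K2_ok TB_l36069 _))))
           (CovZ.n1 (-14208, 28512) (by decide +kernel)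
            (CovZ.n2 (-14256, 28464) (by decide +kernel)
             (CovZ.n2 (-14256, 28512) (by decide +kernel)
              (CovZ.leaf K2_ok TB_l36070 _)
              (CovZ.leaf K2_ok TB_l36071 _))
             (CovZ.leaf K2_ok TB_l36072 _))
            (CovZ.n1 (-14256, 28560) (by decide +kernel)
             (CovZ.leaf K2_ok TB_l36073 _)
             (CovZ.n1 (-14256, 28512) (by decide +kernel)
              (CovZ.leaf K2_ok TB_l36074 _)
              (CovZ.leaf K2_ok TB_l36075 _)))))
          (CovZ.subM 762145642166990290864647761179972242614403843424065222875050897781117870917414045167635043019103578403801038105901582593420955996978692489216 (by decide +kernel)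
           (CovZ.n1 (-14304, 28704) (by decide +kernel)
            (CovZ.n2 (-14208, 28704) (by decide +kernel)
             (CovZ.n2 (-14256, 28656) (by decide +kernel)
              (CovZ.n2 (-14256, 28704) (by decide +kernel)
               (CovZ.leaf K2_ok TB_l36076 _)
               (CovZ.leaf K2_ok TB_l36077 _))
              (CovZ.leaf K2_ok TB_l36078 _))
             (CovZ.n1 (-14256, 28752) (by decide +kernel)
              (CovZ.leaf K2_ok TB_l47283 _)
              (CovZ.n1 (-14256, 28704) (by decide +kernel)
               (CovZ.leaf K2_ok TB_l36079 _)
               (CovZ.leaf K2_ok TB_l47284 _))))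
            (CovZ.n1 (-14304, 28608) (by decide +kernel)
             (CovZ.n2 (-14352, 28656) (by decide +kernel)
              (CovZ.leaf K2_ok TB_l36080 _)
              (CovZ.leaf K2_ok TB_l36081 _))
             (CovZ.n1 (-14256, 28656) (by decide +kernel)
              (CovZ.leaf K2_ok TB_l36082 _)
              (CovZ.leaf K2_ok TB_l36083 _))))))
         (CovZ.n1 (-14400, 28416) (by decide +kernel)
          (CovZ.n2 (-14496, 28512) (by decide +kernel)
           (CovZ.n2 (-14400, 28512) (by decide +kernel)
            (CovZ.leaf K2_ok TB_l36084 _)
            (CovZ.leaf K2_ok TB_l36085 _))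
           (CovZ.n1 (-14496, 28416) (by decide +kernel)
            (CovZ.n2 (-14544, 28464) (by decide +kernel)
             (CovZ.leaf K2_ok TB_l36086 _)
             (CovZ.leaf K2_ok TB_l36087 _))
            (CovZ.leaf K2_ok TB_l36088 _)))
          (CovZ.n1 (-14304, 28512) (by decide +kernel)
           (CovZ.n2 (-14304, 28416) (by decide +kernel)
            (CovZ.leaf K2_ok TB_l36089 _)
            (CovZ.n1 (-14256, 28464) (by decide +kernel)
             (CovZ.n2 (-14256, 28416) (by decide +kernel)
              (CovZ.leaf K2_ok TB_l36090 _)
              (CovZ.leaf K2_ok TB_l36091 _))
             (CovZ.leaf K2_ok TB_l36092 _)))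
           (CovZ.n1 (-14400, 28512) (by decide +kernel)
            (CovZ.n2 (-14352, 28560) (by decide +kernel)
             (CovZ.leaf K2_ok TB_l36093 _)
             (CovZ.leaf K2_ok TB_l36094 _))
            (CovZ.leaf K2_ok TB_l36095 _))))))
       (CovZ.subM 196255503729855527352982696131953151261228963741927549535140803666820105425342944956733186527697469661675262501780093078120342392849498887948288 (by decide +kernel)
        (CovZ.n1 (-14016, 28608) (by decide +kernel)
         (CovZ.n2 (-14016, 28416) (by decide +kernel)
          (CovZ.subM 762168923719877884522860669227432916097728100301770363580567538192321967210268383825700712714988609976068796992184265132016222015502451476480 (by decide +kernel)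
           (CovZ.n2 (-14112, 28512) (by decide +kernel)
            (CovZ.n2 (-14016, 28512) (by decide +kernel)
             (CovZ.n2 (-14064, 28464) (by decide +kernel)
              (CovZ.n2 (-14064, 28512) (by decide +kernel)
               (CovZ.leaf K2_ok TB_l36096 _)
               (CovZ.leaf K2_ok TB_l36097 _))
              (CovZ.n1 (-14016, 28464) (by decide +kernel)
               (CovZ.leaf K2_ok TB_l36098 _)
               (CovZ.leaf K2_ok TB_l36099 _)))
             (CovZ.subM 762168901006167750285145339541824658759503159947607217052979905467491651374633673901181481132726418837207451641785880628236551423525920964608 (by decide +kernel)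
              (CovZ.n1 (-14064, 28560) (by decide +kernel)
               (CovZ.n2 (-14016, 28560) (by decide +kernel)
                (CovZ.leaf K2_ok TB_l47285 _)
                (CovZ.n1 (-14040, 28584) (by decide +kernel)
                 (CovZ.leaf K2_ok TB_l47286 _)
                 (CovZ.leaf K2_ok TB_l47287 _)))
               (CovZ.n1 (-14064, 28512) (by decide +kernel)
                (CovZ.leaf K2_ok TB_l36100 _)
                (CovZ.leaf K2_ok TB_l36101 _)))))
            (CovZ.n1 (-14112, 28416) (by decide +kernel)
             (CovZ.n2 (-14160, 28464) (by decide +kernel)
              (CovZ.leaf K2_ok TB_l36102 _)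
              (CovZ.n1 (-14160, 28416) (by decide +kernel)
               (CovZ.leaf K2_ok TB_l36103 _)
               (CovZ.leaf K2_ok TB_l36104 _)))
             (CovZ.n1 (-14064, 28464) (by decide +kernel)
              (CovZ.n2 (-14064, 28416) (by decide +kernel)
               (CovZ.leaf K2_ok TB_l36105 _)
               (CovZ.leaf K2_ok TB_l36106 _))
              (CovZ.leaf K2_ok TB_l36107 _)))))
          (CovZ.n1 (-13920, 28512) (by decide +kernel)
           (CovZ.n2 (-13920, 28416) (by decide +kernel)
            (CovZ.subM 762168923719877884522860669381347002802394034724735363971753529618414698735524034897482140766870183701312216735135892470492060465831608322048 (by decide +kernel)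
             (CovZ.n2 (-13968, 28464) (by decide +kernel)
              (CovZ.n2 (-13920, 28464) (by decide +kernel)
               (CovZ.n2 (-13944, 28440) (by decide +kernel)
                (CovZ.leaf K2_ok TB_l36108 _)
                (CovZ.leaf K2_ok TB_l36109 _))
               (CovZ.n1 (-13944, 28488) (by decide +kernel)
                (CovZ.leaf K2_ok TB_l47288 _)
                (CovZ.leaf K2_ok TB_l36110 _)))
              (CovZ.n1 (-13968, 28416) (by decide +kernel)
               (CovZ.leaf K2_ok TB_l36111 _)
               (CovZ.n1 (-13944, 28440) (by decide +kernel)
                (CovZ.leaf K2_ok TB_l36112 _)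
                (CovZ.leaf K2_ok TB_l36113 _)))))
            (CovZ.n1 (-13872, 28464) (by decide +kernel)
             (CovZ.n2 (-13872, 28416) (by decide +kernel)
              (CovZ.n2 (-13896, 28440) (by decide +kernel)
               (CovZ.leaf K2_ok TB_l47289 _)
               (CovZ.leaf K2_ok TB_l36114 _))
              (CovZ.n1 (-13848, 28440) (by decide +kernel)
               (CovZ.n2 (-13848, 28416) (by decide +kernel)
                (CovZ.leaf K2_ok TB_l47290 _)
                (CovZ.leaf K2_ok TB_l47291 _))
               (CovZ.leaf K2_ok TB_l47292 _)))
             (CovZ.subM 1143241838497427333685760284691191147968014528537884625869023179901186966425948787643352227019968136363206589472249851387546121255523509602304 (by decide +kernel)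
              (CovZ.n1 (-13920, 28464) (by decide +kernel)
               (CovZ.n2 (-13896, 28488) (by decide +kernel)
                (CovZ.n2 (-13896, 28464) (by decide +kernel)
                 (CovZ.leaf K2_ok TB_l47293 _)
                 (CovZ.leaf K2_ok TB_l47294 _))
                (CovZ.leaf K2_ok TB_l47295 _))
               (CovZ.n1 (-13896, 28440) (by decide +kernel)
                (CovZ.leaf K2_ok TB_l36115 _)
                (CovZ.n1 (-13896, 28464) (by decide +kernel)
                 (CovZ.leaf K2_ok TB_l47296 _)
                 (CovZ.leaf K2_ok TB_l47297 _)))))))
           (CovZ.subM 762168923719877884522860669381347002802394034724735363971753529618414698735524034897482140766870183701312216735135892470344486513241931909120 (by decide +kernel)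
            (CovZ.n1 (-14016, 28512) (by decide +kernel)
             (CovZ.subM 762168901006167750285145339541824658759503159947607217052979905467491651374633673901181481132726418837207451641785880628236551423525920964608 (by decide +kernel)
              (CovZ.n2 (-13968, 28560) (by decide +kernel)
               (CovZ.n2 (-13968, 28512) (by decide +kernel)
                (CovZ.n2 (-13992, 28536) (by decide +kernel)
                 (CovZ.leaf K2_ok TB_l47298 _)
                 (CovZ.leaf K2_ok TB_l47299 _))
                (CovZ.n1 (-13944, 28536) (by decide +kernel)
                 (CovZ.leaf K2_ok TB_l47300 _)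
                 (CovZ.leaf K2_ok TB_l47301 _)))
               (CovZ.n1 (-14016, 28560) (by decide +kernel)
                (CovZ.n2 (-13992, 28584) (by decide +kernel)
                 (CovZ.leaf K2_ok TB_l47302 _)
                 (CovZ.leaf K2_ok TB_l47303 _))
                (CovZ.n1 (-13992, 28536) (by decide +kernel)
                 (CovZ.leaf K2_ok TB_l47304 _)
                 (CovZ.leaf K2_ok TB_l47305 _)))))
             (CovZ.n1 (-13968, 28464) (by decide +kernel)
              (CovZ.n2 (-14016, 28464) (by decide +kernel)
               (CovZ.leaf K2_ok TB_l36116 _)
               (CovZ.n1 (-13992, 28440) (by decide +kernel)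
                (CovZ.leaf K2_ok TB_l36117 _)
                (CovZ.leaf K2_ok TB_l36118 _)))
              (CovZ.n1 (-13968, 28512) (by decide +kernel)
               (CovZ.n2 (-13944, 28488) (by decide +kernel)
                (CovZ.leaf K2_ok TB_l36119 _)
                (CovZ.leaf K2_ok TB_l47306 _))
               (CovZ.leaf K2_ok TB_l36120 _)))))))
         (CovZ.subM 762168923719877884522860669227432916097728100301770363580567538192321967210268383825700712714988609976068796992184265132016222015502451476480 (by decide +kernel)
          (CovZ.n1 (-14208, 28608) (by decide +kernel)
           (CovZ.n2 (-14112, 28704) (by decide +kernel)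
            (CovZ.n2 (-14112, 28608) (by decide +kernel)
             (CovZ.n2 (-14160, 28656) (by decide +kernel)
              (CovZ.n2 (-14112, 28656) (by decide +kernel)
               (CovZ.leaf K2_ok TB_l47307 _)
               (CovZ.leaf K2_ok TB_l47308 _))
              (CovZ.n1 (-14160, 28608) (by decide +kernel)
               (CovZ.leaf K2_ok TB_l36121 _)
               (CovZ.leaf K2_ok TB_l36122 _)))
             (CovZ.subM 762145642166990290864647761179972242614403843424065222875047103505937742540322405593598278333739042452251983531092035164429902515242136502272 (by decide +kernel)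
              (CovZ.n1 (-14064, 28656) (by decide +kernel)
               (CovZ.n2 (-14064, 28608) (by decide +kernel)
                (CovZ.leaf K2_ok TB_l47309 _)
                (CovZ.n1 (-14040, 28632) (by decide +kernel)
                 (CovZ.leaf K2_ok TB_l47310 _)
                 (CovZ.leaf K2_ok TB_l47311 _)))
               (CovZ.n1 (-14112, 28656) (by decide +kernel)
                (CovZ.n2 (-14088, 28680) (by decide +kernel)
                 (CovZ.leaf K2_ok TB_l47312 _)
                 (CovZ.leaf K2_ok TB_l47313 _))
                (CovZ.leaf K2_ok TB_l47314 _)))))
            (CovZ.n1 (-14208, 28704) (by decide +kernel)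
             (CovZ.subM 762145642166990290864647761179972242614403843424065222875047103505937742540322405593598278333739042103813432089642459626296578775217134895104 (by decide +kernel)
              (CovZ.n2 (-14160, 28752) (by decide +kernel)
               (CovZ.n2 (-14160, 28704) (by decide +kernel)
                (CovZ.leaf K2_ok TB_l47315 _)
                (CovZ.leaf K2_ok TB_l47316 _))
               (CovZ.n1 (-14208, 28752) (by decide +kernel)
                (CovZ.leaf K2_ok TB_l47317 _)
                (CovZ.leaf K2_ok TB_l47318 _))))
             (CovZ.n1 (-14160, 28656) (by decide +kernel)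
              (CovZ.leaf K2_ok TB_l36123 _)
              (CovZ.n1 (-14160, 28704) (by decide +kernel)
               (CovZ.leaf K2_ok TB_l47319 _)
               (CovZ.leaf K2_ok TB_l47320 _)))))
           (CovZ.n1 (-14112, 28512) (by decide +kernel)
            (CovZ.n2 (-14208, 28512) (by decide +kernel)
             (CovZ.n2 (-14160, 28560) (by decide +kernel)
              (CovZ.n2 (-14160, 28512) (by decide +kernel)
               (CovZ.leaf K2_ok TB_l36124 _)
               (CovZ.leaf K2_ok TB_l36125 _))
              (CovZ.leaf K2_ok TB_l36126 _))
             (CovZ.n1 (-14160, 28464) (by decide +kernel)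
              (CovZ.leaf K2_ok TB_l36127 _)
              (CovZ.n1 (-14160, 28512) (by decide +kernel)
               (CovZ.leaf K2_ok TB_l36128 _)
               (CovZ.leaf K2_ok TB_l36129 _))))
            (CovZ.n1 (-14112, 28608) (by decide +kernel)
             (CovZ.subM 762168901006167750285145339541824658759503159947607217052979905467491651374633673901181481132726418837207451641785880628236551423525920964608 (by decide +kernel)
              (CovZ.n2 (-14064, 28560) (by decide +kernel)
               (CovZ.n2 (-14112, 28560) (by decide +kernel)
                (CovZ.n2 (-14088, 28584) (by decide +kernel)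
                 (CovZ.leaf K2_ok TB_l36130 _)
                 (CovZ.leaf K2_ok TB_l36131 _))
                (CovZ.leaf K2_ok TB_l36132 _))
               (CovZ.n1 (-14064, 28608) (by decide +kernel)
                (CovZ.leaf K2_ok TB_l47321 _)
                (CovZ.leaf K2_ok TB_l47322 _))))
             (CovZ.n1 (-14160, 28560) (by decide +kernel)
              (CovZ.n2 (-14160, 28608) (by decide +kernel)
               (CovZ.leaf K2_ok TB_l36133 _)
               (CovZ.leaf K2_ok TB_l36134 _))
              (CovZ.n1 (-14112, 28560) (by decide +kernel)
               (CovZ.leaf K2_ok TB_l36135 _)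
               (CovZ.leaf K2_ok TB_l36136 _))))))))))

theorem TB_u479 : CovZ TB_M (toL (selN TB_LN 293567822846729155523718374169563001332561389271064965729980221258260417694060925504514829952575057227154432)) [0, 7, 6, 1] (-13824, 29184) (-14208, 29184) (-14208, 28800) :=
    (CovZ.subM 497323236409786642155382248146820840100456150797358351264430256220142817541008165699584 (by decide +kernel)
         (CovZ.n2 (-14016, 28992) (by decide +kernel)
          (CovZ.n2 (-14208, 28992) (by decide +kernel)
           (CovZ.n2 (-14112, 29088) (by decide +kernel)
            (CovZ.n2 (-14112, 28992) (by decide +kernel)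
             (CovZ.n2 (-14160, 29040) (by decide +kernel)
              (CovZ.n2 (-14112, 29040) (by decide +kernel)
               (CovZ.n2 (-14136, 29016) (by decide +kernel)
                (CovZ.n2 (-14136, 29040) (by decide +kernel)
                 (CovZ.leaf K2_ok TB_l47344 _)
                 (CovZ.leaf K2_ok TB_l47345 _))
                (CovZ.leaf K2_ok TB_l47346 _))
               (CovZ.n1 (-14136, 29064) (by decide +kernel)
                (CovZ.leaf K2_ok TB_l47347 _)
                (CovZ.n1 (-14136, 29040) (by decide +kernel)
                 (CovZ.leaf K2_ok TB_l47348 _)
                 (CovZ.leaf K2_ok TB_l47349 _))))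
              (CovZ.n1 (-14160, 28992) (by decide +kernel)
               (CovZ.n2 (-14184, 29016) (by decide +kernel)
                (CovZ.leaf K2_ok TB_l47350 _)
                (CovZ.leaf K2_ok TB_l47351 _))
               (CovZ.n1 (-14136, 29016) (by decide +kernel)
                (CovZ.n2 (-14136, 28992) (by decide +kernel)
                 (CovZ.leaf K2_ok TB_l47352 _)
                 (CovZ.leaf K2_ok TB_l47353 _))
                (CovZ.leaf K2_ok TB_l47354 _))))
             (CovZ.n1 (-14064, 29040) (by decide +kernel)
              (CovZ.n2 (-14064, 28992) (by decide +kernel)
               (CovZ.n2 (-14088, 29016) (by decide +kernel)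
                (CovZ.leaf K2_ok TB_l47355 _)
                (CovZ.n1 (-14088, 28992) (by decide +kernel)
                 (CovZ.leaf K2_ok TB_l47356 _)
                 (CovZ.leaf K2_ok TB_l47357 _)))
               (CovZ.n1 (-14040, 29016) (by decide +kernel)
                (CovZ.n2 (-14040, 28992) (by decide +kernel)
                 (CovZ.leaf K2_ok TB_l47358 _)
                 (CovZ.badM (by decide +kernel)))
                (CovZ.n1 (-14064, 29016) (by decide +kernel)
                 (CovZ.leaf K2_ok TB_l47359 _)
                 (CovZ.leaf K2_ok TB_l47360 _))))
              (CovZ.n1 (-14112, 29040) (by decide +kernel)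
               (CovZ.n2 (-14088, 29064) (by decide +kernel)
                (CovZ.n2 (-14088, 29040) (by decide +kernel)
                 (CovZ.leaf K2_ok TB_l47361 _)
                 (CovZ.leaf K2_ok TB_l47362 _))
                (CovZ.leaf K2_ok TB_l47363 _))
               (CovZ.n1 (-14088, 29016) (by decide +kernel)
                (CovZ.leaf K2_ok TB_l47364 _)
                (CovZ.n1 (-14088, 29040) (by decide +kernel)
                 (CovZ.leaf K2_ok TB_l47365 _)
                 (CovZ.leaf K2_ok TB_l47366 _))))))
            (CovZ.n1 (-14208, 29088) (by decide +kernel)
             (CovZ.n2 (-14160, 29136) (by decide +kernel)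
              (CovZ.n2 (-14160, 29088) (by decide +kernel)
               (CovZ.n2 (-14184, 29112) (by decide +kernel)
                (CovZ.leaf K2_ok TB_l47367 _)
                (CovZ.leaf K2_ok TB_l47368 _))
               (CovZ.n1 (-14136, 29112) (by decide +kernel)
                (CovZ.n2 (-14136, 29088) (by decide +kernel)
                 (CovZ.leaf K2_ok TB_l47369 _)
                 (CovZ.leaf K2_ok TB_l47370 _))
                (CovZ.leaf K2_ok TB_l47371 _)))
              (CovZ.n1 (-14208, 29136) (by decide +kernel)
               (CovZ.n2 (-14184, 29160) (by decide +kernel)
                (CovZ.leaf K2_ok TB_l47372 _)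
                (CovZ.leaf K2_ok TB_l47373 _))
               (CovZ.n1 (-14184, 29112) (by decide +kernel)
                (CovZ.leaf K2_ok TB_l47374 _)
                (CovZ.leaf K2_ok TB_l47375 _))))
             (CovZ.n1 (-14160, 29040) (by decide +kernel)
              (CovZ.n2 (-14208, 29040) (by decide +kernel)
               (CovZ.n2 (-14184, 29064) (by decide +kernel)
                (CovZ.leaf K2_ok TB_l47376 _)
                (CovZ.leaf K2_ok TB_l47377 _))
               (CovZ.n1 (-14184, 29016) (by decide +kernel)
                (CovZ.leaf K2_ok TB_l47378 _)
                (CovZ.leaf K2_ok TB_l47379 _)))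
              (CovZ.n1 (-14160, 29088) (by decide +kernel)
               (CovZ.n2 (-14136, 29064) (by decide +kernel)
                (CovZ.leaf K2_ok TB_l47380 _)
                (CovZ.n1 (-14136, 29088) (by decide +kernel)
                 (CovZ.leaf K2_ok TB_l47381 _)
                 (CovZ.leaf K2_ok TB_l47382 _)))
               (CovZ.n1 (-14184, 29064) (by decide +kernel)
                (CovZ.leaf K2_ok TB_l47383 _)
                (CovZ.leaf K2_ok TB_l47384 _))))))
           (CovZ.n1 (-14112, 28896) (by decide +kernel)
            (CovZ.n2 (-14208, 28896) (by decide +kernel)
             (CovZ.n2 (-14160, 28944) (by decide +kernel)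
              (CovZ.n2 (-14160, 28896) (by decide +kernel)
               (CovZ.leaf K2_ok TB_l47385 _)
               (CovZ.n1 (-14136, 28920) (by decide +kernel)
                (CovZ.leaf K2_ok TB_l47386 _)
                (CovZ.leaf K2_ok TB_l47387 _)))
              (CovZ.n1 (-14208, 28944) (by decide +kernel)
               (CovZ.leaf K2_ok TB_l47388 _)
               (CovZ.leaf K2_ok TB_l47389 _)))
             (CovZ.n1 (-14160, 28848) (by decide +kernel)
              (CovZ.n2 (-14208, 28848) (by decide +kernel)
               (CovZ.leaf K2_ok TB_l47390 _)
               (CovZ.leaf K2_ok TB_l47391 _))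
              (CovZ.n1 (-14160, 28896) (by decide +kernel)
               (CovZ.n2 (-14136, 28872) (by decide +kernel)
                (CovZ.leaf K2_ok TB_l47392 _)
                (CovZ.leaf K2_ok TB_l47393 _))
               (CovZ.leaf K2_ok TB_l47394 _))))
            (CovZ.n1 (-14112, 28992) (by decide +kernel)
             (CovZ.n2 (-14064, 28944) (by decide +kernel)
              (CovZ.n2 (-14112, 28944) (by decide +kernel)
               (CovZ.n2 (-14088, 28968) (by decide +kernel)
                (CovZ.n2 (-14088, 28944) (by decide +kernel)
                 (CovZ.leaf K2_ok TB_l47395 _)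
                 (CovZ.leaf K2_ok TB_l47396 _))
                (CovZ.leaf K2_ok TB_l47397 _))
               (CovZ.n1 (-14088, 28920) (by decide +kernel)
                (CovZ.leaf K2_ok TB_l47398 _)
                (CovZ.n1 (-14088, 28944) (by decide +kernel)
                 (CovZ.leaf K2_ok TB_l47399 _)
                 (CovZ.leaf K2_ok TB_l47400 _))))
              (CovZ.n1 (-14064, 28992) (by decide +kernel)
               (CovZ.n2 (-14040, 28968) (by decide +kernel)
                (CovZ.leaf K2_ok TB_l47401 _)
                (CovZ.n1 (-14040, 28992) (by decide +kernel)
                 (CovZ.badM (by decide +kernel))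
                 (CovZ.leaf K2_ok TB_l47402 _)))
               (CovZ.n1 (-14088, 28968) (by decide +kernel)
                (CovZ.n2 (-14088, 28992) (by decide +kernel)
                 (CovZ.leaf K2_ok TB_l47403 _)
                 (CovZ.leaf K2_ok TB_l47404 _))
                (CovZ.leaf K2_ok TB_l47405 _))))
             (CovZ.n1 (-14160, 28944) (by decide +kernel)
              (CovZ.n2 (-14160, 28992) (by decide +kernel)
               (CovZ.n2 (-14136, 28968) (by decide +kernel)
                (CovZ.leaf K2_ok TB_l47406 _)
                (CovZ.leaf K2_ok TB_l47407 _))
               (CovZ.leaf K2_ok TB_l47408 _))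
              (CovZ.n1 (-14112, 28944) (by decide +kernel)
               (CovZ.n2 (-14136, 28920) (by decide +kernel)
                (CovZ.leaf K2_ok TB_l47409 _)
                (CovZ.leaf K2_ok TB_l47410 _))
               (CovZ.n1 (-14136, 28968) (by decide +kernel)
                (CovZ.leaf K2_ok TB_l47411 _)
                (CovZ.leaf K2_ok TB_l47412 _)))))))
          (CovZ.n1 (-14016, 29184) (by decide +kernel)
           (CovZ.badM (by decide +kernel))
           (CovZ.n1 (-14112, 29088) (by decide +kernel)
            (CovZ.n2 (-14112, 29184) (by decide +kernel)
             (CovZ.n2 (-14064, 29136) (by decide +kernel)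
              (CovZ.n2 (-14112, 29136) (by decide +kernel)
               (CovZ.n2 (-14088, 29160) (by decide +kernel)
                (CovZ.n2 (-14088, 29136) (by decide +kernel)
                 (CovZ.leaf K2_ok TB_l47413 _)
                 (CovZ.badM (by decide +kernel)))
                (CovZ.n1 (-14112, 29160) (by decide +kernel)
                 (CovZ.badM (by decide +kernel))
                 (CovZ.leaf K2_ok TB_l47415 _)))
               (CovZ.n1 (-14088, 29112) (by decide +kernel)
                (CovZ.n2 (-14112, 29112) (by decide +kernel)
                 (CovZ.leaf K2_ok TB_l47416 _)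
                 (CovZ.leaf K2_ok TB_l47417 _))
                (CovZ.n1 (-14088, 29136) (by decide +kernel)
                 (CovZ.badM (by decide +kernel))
                 (CovZ.leaf K2_ok TB_l47419 _))))
              (CovZ.badM (by decide +kernel)))
             (CovZ.n1 (-14160, 29136) (by decide +kernel)
              (CovZ.n2 (-14160, 29184) (by decide +kernel)
               (CovZ.n2 (-14136, 29160) (by decide +kernel)
                (CovZ.leaf K2_ok TB_l47421 _)
                (CovZ.n1 (-14136, 29184) (by decide +kernel)
                 (CovZ.leaf K2_ok TB_l47422 _)
                 (CovZ.leaf K2_ok TB_l47423 _)))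
               (CovZ.n1 (-14184, 29160) (by decide +kernel)
                (CovZ.n2 (-14184, 29184) (by decide +kernel)
                 (CovZ.leaf K2_ok TB_l47424 _)
                 (CovZ.leaf K2_ok TB_l47425 _))
                (CovZ.leaf K2_ok TB_l47426 _)))
              (CovZ.n1 (-14112, 29136) (by decide +kernel)
               (CovZ.n2 (-14136, 29112) (by decide +kernel)
                (CovZ.n2 (-14136, 29136) (by decide +kernel)
                 (CovZ.leaf K2_ok TB_l47427 _)
                 (CovZ.leaf K2_ok TB_l47428 _))
                (CovZ.leaf K2_ok TB_l47429 _))
               (CovZ.n1 (-14136, 29160) (by decide +kernel)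
                (CovZ.leaf K2_ok TB_l47430 _)
                (CovZ.n1 (-14136, 29136) (by decide +kernel)
                 (CovZ.leaf K2_ok TB_l47431 _)
                 (CovZ.leaf K2_ok TB_l47432 _))))))
            (CovZ.n1 (-14016, 29088) (by decide +kernel)
             (CovZ.n2 (-14064, 29040) (by decide +kernel)
              (CovZ.n2 (-14064, 29088) (by decide +kernel)
               (CovZ.badM (by decide +kernel))
               (CovZ.n1 (-14088, 29064) (by decide +kernel)
                (CovZ.n2 (-14088, 29088) (by decide +kernel)
                 (CovZ.leaf K2_ok TB_l47433 _)
                 (CovZ.leaf K2_ok TB_l47434 _))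
                (CovZ.n1 (-14064, 29064) (by decide +kernel)
                 (CovZ.leaf K2_ok TB_l47435 _)
                 (CovZ.leaf K2_ok TB_l47436 _))))
              (CovZ.badM (by decide +kernel)))
             (CovZ.n1 (-14064, 29136) (by decide +kernel)
              (CovZ.badM (by decide +kernel))
              (CovZ.n1 (-14064, 29088) (by decide +kernel)
               (CovZ.n2 (-14088, 29112) (by decide +kernel)
                (CovZ.badM (by decide +kernel))
                (CovZ.n1 (-14088, 29088) (by decide +kernel)
                 (CovZ.leaf K2_ok TB_l47439 _)
                 (CovZ.leaf K2_ok TB_l47440 _)))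
               (CovZ.badM (by decide +kernel)))))))))

theorem TB_u480 : CovZ TB_M (toL (selN TB_LN 293567822846729155523718374169563001332561389271064965729980221258260417694060925504514829952575057227154432)) [0, 7, 6, 1] (-14208, 29184) (-14592, 29184) (-14208, 28800) :=
    (CovZ.n1 (-14400, 28992) (by decide +kernel)
         (CovZ.n2 (-14400, 29184) (by decide +kernel)
          (CovZ.subM 497323236409786642155382248146820840100456150798038915998272133147069548741473192640512 (by decide +kernel)
           (CovZ.n2 (-14304, 29088) (by decide +kernel)
            (CovZ.n2 (-14400, 29088) (by decide +kernel)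
             (CovZ.n2 (-14352, 29136) (by decide +kernel)
              (CovZ.n2 (-14352, 29088) (by decide +kernel)
               (CovZ.leaf K2_ok TB_l47441 _)
               (CovZ.leaf K2_ok TB_l47442 _))
              (CovZ.leaf K2_ok TB_l47443 _))
             (CovZ.n1 (-14352, 29040) (by decide +kernel)
              (CovZ.leaf K2_ok TB_l47444 _)
              (CovZ.n1 (-14352, 29088) (by decide +kernel)
               (CovZ.leaf K2_ok TB_l47445 _)
               (CovZ.leaf K2_ok TB_l47446 _))))
            (CovZ.n1 (-14304, 29184) (by decide +kernel)
             (CovZ.n2 (-14256, 29136) (by decide +kernel)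
              (CovZ.n2 (-14304, 29136) (by decide +kernel)
               (CovZ.leaf K2_ok TB_l47447 _)
               (CovZ.leaf K2_ok TB_l47448 _))
              (CovZ.n1 (-14256, 29184) (by decide +kernel)
               (CovZ.n2 (-14232, 29160) (by decide +kernel)
                (CovZ.leaf K2_ok TB_l47449 _)
                (CovZ.leaf K2_ok TB_l47450 _))
               (CovZ.leaf K2_ok TB_l47451 _)))
             (CovZ.n1 (-14352, 29136) (by decide +kernel)
              (CovZ.n2 (-14352, 29184) (by decide +kernel)
               (CovZ.leaf K2_ok TB_l47452 _)
               (CovZ.leaf K2_ok TB_l47453 _))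
              (CovZ.n1 (-14304, 29136) (by decide +kernel)
               (CovZ.leaf K2_ok TB_l47454 _)
               (CovZ.leaf K2_ok TB_l47455 _))))))
          (CovZ.n1 (-14496, 29088) (by decide +kernel)
           (CovZ.n2 (-14496, 29184) (by decide +kernel)
            (CovZ.n2 (-14448, 29136) (by decide +kernel)
             (CovZ.leaf K2_ok TB_l47456 _)
             (CovZ.n1 (-14448, 29184) (by decide +kernel)
              (CovZ.leaf K2_ok TB_l47457 _)
              (CovZ.leaf K2_ok TB_l47458 _)))
            (CovZ.n1 (-14544, 29136) (by decide +kernel)
             (CovZ.leaf K2_ok TB_l36314 _)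
             (CovZ.leaf K2_ok TB_l47459 _)))
           (CovZ.subM 497323236409786642155382248146820840100456150798038915998272133156514281707212483067904 (by decide +kernel)
            (CovZ.n1 (-14400, 29088) (by decide +kernel)
             (CovZ.n2 (-14448, 29040) (by decide +kernel)
              (CovZ.n2 (-14448, 29088) (by decide +kernel)
               (CovZ.leaf K2_ok TB_l47460 _)
               (CovZ.leaf K2_ok TB_l47461 _))
              (CovZ.leaf K2_ok TB_l47462 _))
             (CovZ.n1 (-14448, 29136) (by decide +kernel)
              (CovZ.leaf K2_ok TB_l47463 _)
              (CovZ.leaf K2_ok TB_l47464 _))))))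
         (CovZ.subM 497323236409786642155382248146820840100456150798038915998272133147069566755871702122496 (by decide +kernel)
          (CovZ.n1 (-14208, 28992) (by decide +kernel)
           (CovZ.n2 (-14304, 28896) (by decide +kernel)
            (CovZ.n2 (-14304, 28992) (by decide +kernel)
             (CovZ.n2 (-14256, 28944) (by decide +kernel)
              (CovZ.leaf K2_ok TB_l47465 _)
              (CovZ.n1 (-14256, 28992) (by decide +kernel)
               (CovZ.leaf K2_ok TB_l47466 _)
               (CovZ.leaf K2_ok TB_l47467 _)))
             (CovZ.n1 (-14352, 28944) (by decide +kernel)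
              (CovZ.n2 (-14352, 28992) (by decide +kernel)
               (CovZ.leaf K2_ok TB_l47468 _)
               (CovZ.leaf K2_ok TB_l47469 _))
              (CovZ.leaf K2_ok TB_l47470 _)))
            (CovZ.n1 (-14208, 28896) (by decide +kernel)
             (CovZ.n2 (-14256, 28848) (by decide +kernel)
              (CovZ.n2 (-14256, 28896) (by decide +kernel)
               (CovZ.leaf K2_ok TB_l47471 _)
               (CovZ.leaf K2_ok TB_l47472 _))
              (CovZ.n1 (-14208, 28848) (by decide +kernel)
               (CovZ.leaf K2_ok TB_l47473 _)
               (CovZ.leaf K2_ok TB_l47474 _)))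
             (CovZ.n1 (-14256, 28944) (by decide +kernel)
              (CovZ.n2 (-14208, 28944) (by decide +kernel)
               (CovZ.leaf K2_ok TB_l47475 _)
               (CovZ.leaf K2_ok TB_l47476 _))
              (CovZ.n1 (-14256, 28896) (by decide +kernel)
               (CovZ.leaf K2_ok TB_l47477 _)
               (CovZ.leaf K2_ok TB_l47478 _)))))
           (CovZ.n1 (-14304, 29088) (by decide +kernel)
            (CovZ.n2 (-14208, 29088) (by decide +kernel)
             (CovZ.n2 (-14256, 29040) (by decide +kernel)
              (CovZ.n2 (-14256, 29088) (by decide +kernel)
               (CovZ.n2 (-14232, 29064) (by decide +kernel)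
                (CovZ.leaf K2_ok TB_l47479 _)
                (CovZ.leaf K2_ok TB_l47480 _))
               (CovZ.leaf K2_ok TB_l47481 _))
              (CovZ.n1 (-14208, 29040) (by decide +kernel)
               (CovZ.leaf K2_ok TB_l47482 _)
               (CovZ.leaf K2_ok TB_l47483 _)))
             (CovZ.n1 (-14256, 29136) (by decide +kernel)
              (CovZ.n2 (-14208, 29136) (by decide +kernel)
               (CovZ.leaf K2_ok TB_l47484 _)
               (CovZ.n1 (-14232, 29160) (by decide +kernel)
                (CovZ.leaf K2_ok TB_l47485 _)
                (CovZ.leaf K2_ok TB_l47486 _)))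
              (CovZ.n1 (-14256, 29088) (by decide +kernel)
               (CovZ.leaf K2_ok TB_l47487 _)
               (CovZ.n1 (-14232, 29112) (by decide +kernel)
                (CovZ.leaf K2_ok TB_l47488 _)
                (CovZ.leaf K2_ok TB_l47489 _)))))
            (CovZ.n1 (-14304, 28992) (by decide +kernel)
             (CovZ.n2 (-14352, 29040) (by decide +kernel)
              (CovZ.leaf K2_ok TB_l47490 _)
              (CovZ.n1 (-14352, 28992) (by decide +kernel)
               (CovZ.leaf K2_ok TB_l47491 _)
               (CovZ.leaf K2_ok TB_l47492 _)))
             (CovZ.n1 (-14256, 29040) (by decide +kernel)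
              (CovZ.n2 (-14256, 28992) (by decide +kernel)
               (CovZ.leaf K2_ok TB_l47493 _)
               (CovZ.leaf K2_ok TB_l47494 _))
              (CovZ.n1 (-14304, 29040) (by decide +kernel)
               (CovZ.leaf K2_ok TB_l47495 _)
               (CovZ.leaf K2_ok TB_l47496 _))))))))

theorem TB_u481 : CovZ TB_M (toL (selN TB_LN 196256248024775907886732825846833801152311304220148490297373907191062770939817652187979091982507404742539203700658542231506419157070574807747585)) [0, 7, 6, 1] (-15360, 27648) (-14592, 28416) (-15360, 29184) :=
    (CovZ.subM 762145642166990290864647761179972536182226690153220746096101830934332561323421068085779932898868685866180106937179031912709168299372991024129 (by decide +kernel)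
     (CovZ.n2 (-15360, 28416) (by decide +kernel)
      (CovZ.n2 (-14976, 28800) (by decide +kernel)
       (CovZ.n2 (-14976, 28416) (by decide +kernel)
        (CovZ.n2 (-15168, 28608) (by decide +kernel)
         (CovZ.n2 (-14976, 28608) (by decide +kernel)
          (CovZ.n2 (-15072, 28512) (by decide +kernel)
           (CovZ.leaf K2_ok TB_l36227 _)
           (CovZ.leaf K2_ok TB_l36228 _))
          (CovZ.n1 (-15072, 28704) (by decide +kernel)
           (CovZ.leaf K2_ok TB_l36229 _)
           (CovZ.leaf K2_ok TB_l36230 _)))
         (CovZ.n1 (-15168, 28416) (by decide +kernel)
          (CovZ.leaf K2_ok TB_l36231 _)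
          (CovZ.n1 (-15072, 28512) (by decide +kernel)
           (CovZ.leaf K2_ok TB_l36232 _)
           (CovZ.leaf K2_ok TB_l36233 _))))
        (CovZ.n1 (-14784, 28608) (by decide +kernel)
         (CovZ.n2 (-14784, 28416) (by decide +kernel)
          (CovZ.n2 (-14880, 28512) (by decide +kernel)
           (CovZ.leaf K2_ok TB_l36234 _)
           (CovZ.leaf K2_ok TB_l36235 _))
          (CovZ.n1 (-14688, 28512) (by decide +kernel)
           (CovZ.n2 (-14688, 28416) (by decide +kernel)
            (CovZ.leaf K2_ok TB_l36236 _)
            (CovZ.leaf K2_ok TB_l36237 _))
           (CovZ.leaf K2_ok TB_l36238 _)))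
         (CovZ.n1 (-14976, 28608) (by decide +kernel)
          (CovZ.n2 (-14880, 28704) (by decide +kernel)
           (CovZ.leaf K2_ok TB_l36239 _)
           (CovZ.leaf K2_ok TB_l36240 _))
          (CovZ.n1 (-14880, 28512) (by decide +kernel)
           (CovZ.leaf K2_ok TB_l36241 _)
           (CovZ.n1 (-14880, 28608) (by decide +kernel)
            (CovZ.leaf K2_ok TB_l36242 _)
            (CovZ.leaf K2_ok TB_l36243 _))))))
       (CovZ.n1 (-15360, 28800) (by decide +kernel)
        (CovZ.n2 (-15168, 28992) (by decide +kernel)
         (CovZ.n2 (-15168, 28800) (by decide +kernel)
          (CovZ.leaf K2_ok TB_l36244 _)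
          (CovZ.n1 (-15072, 28896) (by decide +kernel)
           (CovZ.leaf K2_ok TB_l36245 _)
           (CovZ.leaf K2_ok TB_l36246 _)))
         (CovZ.n1 (-15360, 28992) (by decide +kernel)
          (CovZ.n2 (-15264, 29088) (by decide +kernel)
           (CovZ.leaf K2_ok TB_l36247 _)
           (CovZ.leaf K2_ok TB_l36248 _))
          (CovZ.leaf K2_ok TB_l36249 _)))
        (CovZ.n1 (-15168, 28608) (by decide +kernel)
         (CovZ.n2 (-15360, 28608) (by decide +kernel)
          (CovZ.leaf K2_ok TB_l36250 _)
          (CovZ.leaf K2_ok TB_l36251 _))
         (CovZ.n1 (-15168, 28800) (by decide +kernel)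
          (CovZ.n2 (-15072, 28704) (by decide +kernel)
           (CovZ.leaf K2_ok TB_l36252 _)
           (CovZ.leaf K2_ok TB_l36253 _))
          (CovZ.leaf K2_ok TB_l36254 _)))))
      (CovZ.n1 (-14976, 28032) (by decide +kernel)
       (CovZ.n2 (-15360, 28032) (by decide +kernel)
        (CovZ.n2 (-15168, 28224) (by decide +kernel)
         (CovZ.n2 (-15168, 28032) (by decide +kernel)
          (CovZ.leaf K2_ok TB_l36255 _)
          (CovZ.n1 (-15072, 28128) (by decide +kernel)
           (CovZ.leaf K2_ok TB_l36256 _)
           (CovZ.leaf K2_ok TB_l36257 _)))
         (CovZ.n1 (-15360, 28224) (by decide +kernel)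
          (CovZ.leaf K2_ok TB_l36258 _)
          (CovZ.leaf K2_ok TB_l36259 _)))
        (CovZ.n1 (-15168, 27840) (by decide +kernel)
         (CovZ.n2 (-15360, 27840) (by decide +kernel)
          (CovZ.leaf K2_ok TB_l36260 _)
          (CovZ.leaf K2_ok TB_l36261 _))
         (CovZ.n1 (-15168, 28032) (by decide +kernel)
          (CovZ.leaf K2_ok TB_l36262 _)
          (CovZ.leaf K2_ok TB_l36263 _))))
       (CovZ.n1 (-14976, 28416) (by decide +kernel)
        (CovZ.n2 (-14784, 28224) (by decide +kernel)
         (CovZ.n2 (-14976, 28224) (by decide +kernel)
          (CovZ.n2 (-14880, 28320) (by decide +kernel)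
           (CovZ.n2 (-14880, 28224) (by decide +kernel)
            (CovZ.leaf K2_ok TB_l36264 _)
            (CovZ.leaf K2_ok TB_l36265 _))
           (CovZ.leaf K2_ok TB_l36266 _))
          (CovZ.leaf K2_ok TB_l36267 _))
         (CovZ.n1 (-14784, 28416) (by decide +kernel)
          (CovZ.n2 (-14688, 28320) (by decide +kernel)
           (CovZ.leaf K2_ok TB_l36268 _)
           (CovZ.n1 (-14688, 28416) (by decide +kernel)
            (CovZ.leaf K2_ok TB_l36269 _)
            (CovZ.leaf K2_ok TB_l36270 _)))
          (CovZ.n1 (-14880, 28320) (by decide +kernel)
           (CovZ.leaf K2_ok TB_l36271 _)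
           (CovZ.leaf K2_ok TB_l36272 _))))
        (CovZ.n1 (-15168, 28224) (by decide +kernel)
         (CovZ.n2 (-15168, 28416) (by decide +kernel)
          (CovZ.leaf K2_ok TB_l36273 _)
          (CovZ.leaf K2_ok TB_l36274 _))
         (CovZ.n1 (-14976, 28224) (by decide +kernel)
          (CovZ.leaf K2_ok TB_l36275 _)
          (CovZ.n1 (-15072, 28320) (by decide +kernel)
           (CovZ.leaf K2_ok TB_l36276 _)
           (CovZ.leaf K2_ok TB_l36277 _))))))))

end Pool.Agent.TET
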