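import Pool.Agent.Helper38_TET.TB_M
import Pool.Agent.Helper38_TET.TB_L
import Pool.Agent.Helper38_TET.TB_241
import Pool.Agent.Helper38_TET.TB_242
import Pool.Agent.Helper38_TET.TB_246
import Pool.Agent.Helper38_TET.TB_247
import Pool.Agent.Helper38_TET.TB_315
import Pool.Agent.Helper38_TET.TB_321
import Pool.Agent.Helper38_TET.TB_322
import Pool.Agent.Helper38_TET.TB_333
import Pool.Agent.Helper38_TET.TB_334
import Pool.Agent.Helper38_TET.TB_335
import Pool.Agent.Helper38_TET.TB_336
import Pool.Agent.Helper38_TET.TB_337
import Pool.Agent.Helper38_TET.TB_338
import Pool.Agent.Helper38_TET.TB_U32

/-!
# MP_c7c9bf_co: certificates, family TB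
-/

set_option autoImplicit false
set_option maxRecDepth 100000

namespace Pool.Agent.TET

theorem TB_u482 : CovZ TB_M (toL (selN TB_LN 196256248024775907886732825846833801152311304220148490297373907191062770939817652187979091982507404742539203700658542231506419157070574807747585)) [0, 7, 6, 1] (-14592, 28416) (-13824, 29184) (-15360, 29184) :=
    (CovZ.n1 (-14592, 29184) (by decide +kernel)
     (CovZ.n2 (-14208, 28800) (by decide +kernel)
      (CovZ.subM 762168901006167750285145339561064213165409248479633365322929087548967933221297653200160498651283382634016632938100976673643240138653944515584 (by decide +kernel)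
       (CovZ.n2 (-14592, 28800) (by decide +kernel)
        (CovZ.n2 (-14400, 28992) (by decide +kernel)
         (CovZ.n2 (-14400, 28800) (by decide +kernel)
          (CovZ.n2 (-14496, 28896) (by decide +kernel)
           (CovZ.subM 762145642166990290864647761179972242614403843424065222875047103505937742540322405593598278333739042104493996823484336562668060955819961745408 (by decide +kernel)
            (CovZ.n2 (-14400, 28896) (by decide +kernel)
             (CovZ.n2 (-14448, 28848) (by decide +kernel)
              (CovZ.n2 (-14448, 28896) (by decide +kernel)
               (CovZ.leaf K2_ok TB_l47323 _)
               (CovZ.leaf K2_ok TB_l47324 _))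
              (CovZ.leaf K2_ok TB_l36278 _))
             (CovZ.n1 (-14448, 28944) (by decide +kernel)
              (CovZ.leaf K2_ok TB_l47325 _)
              (CovZ.leaf K2_ok TB_l47326 _))))
           (CovZ.n1 (-14496, 28800) (by decide +kernel)
            (CovZ.leaf K2_ok TB_l36279 _)
            (CovZ.n1 (-14448, 28848) (by decide +kernel)
             (CovZ.leaf K2_ok TB_l36280 _)
             (CovZ.leaf K2_ok TB_l36281 _))))
          (CovZ.subM 762145642166990290864647761179972242614403843424065222875047103505937742540322405593598278333739042104493996823484336553223327990080671318016 (by decide +kernel)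
           (CovZ.n1 (-14304, 28896) (by decide +kernel)
            (CovZ.n2 (-14304, 28800) (by decide +kernel)
             (CovZ.n2 (-14352, 28848) (by decide +kernel)
              (CovZ.leaf K2_ok TB_l47327 _)
              (CovZ.leaf K2_ok TB_l36282 _))
             (CovZ.n1 (-14256, 28848) (by decide +kernel)
              (CovZ.n2 (-14256, 28800) (by decide +kernel)
               (CovZ.leaf K2_ok TB_l47328 _)
               (CovZ.leaf K2_ok TB_l47329 _))
              (CovZ.leaf K2_ok TB_l47330 _)))
            (CovZ.n1 (-14400, 28896) (by decide +kernel)
             (CovZ.n2 (-14352, 28944) (by decide +kernel)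
              (CovZ.n2 (-14352, 28896) (by decide +kernel)
               (CovZ.leaf K2_ok TB_l47331 _)
               (CovZ.leaf K2_ok TB_l47332 _))
              (CovZ.leaf K2_ok TB_l47333 _))
             (CovZ.n1 (-14352, 28848) (by decide +kernel)
              (CovZ.leaf K2_ok TB_l36283 _)
              (CovZ.n1 (-14352, 28896) (by decide +kernel)
               (CovZ.leaf K2_ok TB_l47334 _)
               (CovZ.leaf K2_ok TB_l47335 _)))))))
         (CovZ.n1 (-14592, 28992) (by decide +kernel)
          (CovZ.subM 762145642166990290864647761179972536182226690153220746096098036659039354734183611914649837173456602781859815916737668307663931012383468684288 (by decide +kernel)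
           (CovZ.n2 (-14496, 29088) (by decide +kernel)
            (CovZ.n2 (-14496, 28992) (by decide +kernel)
             (CovZ.n2 (-14544, 29040) (by decide +kernel)
              (CovZ.leaf K2_ok TB_l47336 _)
              (CovZ.leaf K2_ok TB_l36284 _))
             (CovZ.n1 (-14448, 29040) (by decide +kernel)
              (CovZ.n2 (-14448, 28992) (by decide +kernel)
               (CovZ.leaf K2_ok TB_l47337 _)
               (CovZ.leaf K2_ok TB_l47338 _))
              (CovZ.leaf K2_ok TB_l47339 _)))
            (CovZ.n1 (-14592, 29088) (by decide +kernel)
             (CovZ.n2 (-14544, 29136) (by decide +kernel)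
              (CovZ.leaf K2_ok TB_l36285 _)
              (CovZ.leaf K2_ok TB_l36286 _))
             (CovZ.n1 (-14544, 29040) (by decide +kernel)
              (CovZ.leaf K2_ok TB_l36287 _)
              (CovZ.leaf K2_ok TB_l36288 _)))))
          (CovZ.n1 (-14496, 28896) (by decide +kernel)
           (CovZ.n2 (-14592, 28896) (by decide +kernel)
            (CovZ.n2 (-14544, 28944) (by decide +kernel)
             (CovZ.leaf K2_ok TB_l36289 _)
             (CovZ.leaf K2_ok TB_l36290 _))
            (CovZ.leaf K2_ok TB_l36291 _))
           (CovZ.n1 (-14496, 28992) (by decide +kernel)
            (CovZ.n2 (-14448, 28944) (by decide +kernel)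
             (CovZ.leaf K2_ok TB_l47340 _)
             (CovZ.leaf K2_ok TB_l47341 _))
            (CovZ.leaf K2_ok TB_l36292 _)))))
        (CovZ.n1 (-14400, 28608) (by decide +kernel)
         (CovZ.n2 (-14592, 28608) (by decide +kernel)
          (CovZ.n2 (-14496, 28704) (by decide +kernel)
           (CovZ.n2 (-14496, 28608) (by decide +kernel)
            (CovZ.leaf K2_ok TB_l36293 _)
            (CovZ.leaf K2_ok TB_l36294 _))
           (CovZ.n1 (-14592, 28704) (by decide +kernel)
            (CovZ.leaf K2_ok TB_l36295 _)
            (CovZ.leaf K2_ok TB_l36296 _)))
          (CovZ.n1 (-14496, 28512) (by decide +kernel)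
           (CovZ.n2 (-14592, 28512) (by decide +kernel)
            (CovZ.leaf K2_ok TB_l36297 _)
            (CovZ.leaf K2_ok TB_l36298 _))
           (CovZ.n1 (-14496, 28608) (by decide +kernel)
            (CovZ.leaf K2_ok TB_l36299 _)
            (CovZ.leaf K2_ok TB_l36300 _))))
         (CovZ.n1 (-14400, 28800) (by decide +kernel)
          (CovZ.subM 762145642166990290864647761179972242614403843424065222875050897781117870917414045167635043019103578403801038105901582593420955996978692489216 (by decide +kernel)
           (CovZ.n2 (-14304, 28704) (by decide +kernel)
            (CovZ.n2 (-14400, 28704) (by decide +kernel)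
             (CovZ.n2 (-14352, 28752) (by decide +kernel)
              (CovZ.leaf K2_ok TB_l36301 _)
              (CovZ.leaf K2_ok TB_l36302 _))
             (CovZ.n1 (-14352, 28656) (by decide +kernel)
              (CovZ.leaf K2_ok TB_l36303 _)
              (CovZ.leaf K2_ok TB_l36304 _)))
            (CovZ.n1 (-14304, 28800) (by decide +kernel)
             (CovZ.n2 (-14256, 28752) (by decide +kernel)
              (CovZ.leaf K2_ok TB_l36305 _)
              (CovZ.n1 (-14256, 28800) (by decide +kernel)
               (CovZ.leaf K2_ok TB_l47342 _)
               (CovZ.leaf K2_ok TB_l47343 _)))
             (CovZ.n1 (-14352, 28752) (by decide +kernel)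
              (CovZ.leaf K2_ok TB_l36306 _)
              (CovZ.leaf K2_ok TB_l36307 _)))))
          (CovZ.n1 (-14496, 28704) (by decide +kernel)
           (CovZ.n2 (-14496, 28800) (by decide +kernel)
            (CovZ.n2 (-14448, 28752) (by decide +kernel)
             (CovZ.leaf K2_ok TB_l36308 _)
             (CovZ.leaf K2_ok TB_l36309 _))
            (CovZ.leaf K2_ok TB_l36310 _))
           (CovZ.n1 (-14400, 28704) (by decide +kernel)
            (CovZ.leaf K2_ok TB_l36311 _)
            (CovZ.n1 (-14448, 28752) (by decide +kernel)
             (CovZ.leaf K2_ok TB_l36312 _)
             (CovZ.leaf K2_ok TB_l36313 _))))))))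
      (CovZ.subM 293567822846729155523718374169563001332561389271064965729980221258260417694060925504514829952575057227154432 (by decide +kernel)
       (CovZ.n1 (-14208, 29184) (by decide +kernel)
        TB_u479
        TB_u480)))
     (CovZ.subM 762145642166990290864647761179972536182226690153220746096101830934332561323421068085779932898868685866180106937179031912709168299372991024129 (by decide +kernel)
      (CovZ.n1 (-14976, 28800) (by decide +kernel)
       (CovZ.n2 (-14976, 29184) (by decide +kernel)
        (CovZ.n2 (-14784, 28992) (by decide +kernel)
         (CovZ.n2 (-14976, 28992) (by decide +kernel)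
          (CovZ.n2 (-14880, 29088) (by decide +kernel)
           (CovZ.n2 (-14880, 28992) (by decide +kernel)
            (CovZ.leaf K2_ok TB_l36315 _)
            (CovZ.leaf K2_ok TB_l36316 _))
           (CovZ.leaf K2_ok TB_l36317 _))
          (CovZ.n1 (-14880, 28896) (by decide +kernel)
           (CovZ.leaf K2_ok TB_l36318 _)
           (CovZ.n1 (-14880, 28992) (by decide +kernel)
            (CovZ.leaf K2_ok TB_l36319 _)
            (CovZ.leaf K2_ok TB_l36320 _))))
         (CovZ.n1 (-14784, 29184) (by decide +kernel)
          (CovZ.subM 762145642166990290864647761179972536182226690153220746096098036659152432946329428511743168213504149566872774886137707920983713809266196349952 (by decide +kernel)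
           (CovZ.n2 (-14688, 29088) (by decide +kernel)
            (CovZ.n2 (-14784, 29088) (by decide +kernel)
             (CovZ.leaf K2_ok TB_l36321 _)
             (CovZ.leaf K2_ok TB_l36322 _))
            (CovZ.n1 (-14688, 29184) (by decide +kernel)
             (CovZ.leaf K2_ok TB_l36323 _)
             (CovZ.leaf K2_ok TB_l36324 _))))
          (CovZ.n1 (-14880, 29088) (by decide +kernel)
           (CovZ.n2 (-14880, 29184) (by decide +kernel)
            (CovZ.leaf K2_ok TB_l36325 _)
            (CovZ.leaf K2_ok TB_l36326 _))
           (CovZ.leaf K2_ok TB_l36327 _))))
        (CovZ.n1 (-15168, 28992) (by decide +kernel)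
         (CovZ.n2 (-15168, 29184) (by decide +kernel)
          (CovZ.n2 (-15072, 29088) (by decide +kernel)
           (CovZ.leaf K2_ok TB_l36328 _)
           (CovZ.leaf K2_ok TB_l36329 _))
          (CovZ.n1 (-15264, 29088) (by decide +kernel)
           (CovZ.leaf K2_ok TB_l36330 _)
           (CovZ.leaf K2_ok TB_l36331 _)))
         (CovZ.n1 (-14976, 28992) (by decide +kernel)
          (CovZ.n2 (-15072, 28896) (by decide +kernel)
           (CovZ.n2 (-15072, 28992) (by decide +kernel)
            (CovZ.leaf K2_ok TB_l36332 _)
            (CovZ.leaf K2_ok TB_l36333 _))
           (CovZ.leaf K2_ok TB_l36334 _))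
          (CovZ.n1 (-15072, 29088) (by decide +kernel)
           (CovZ.leaf K2_ok TB_l36335 _)
           (CovZ.leaf K2_ok TB_l36336 _)))))
       (CovZ.n1 (-14592, 28800) (by decide +kernel)
        (CovZ.n2 (-14784, 28608) (by decide +kernel)
         (CovZ.n2 (-14784, 28800) (by decide +kernel)
          (CovZ.n2 (-14688, 28704) (by decide +kernel)
           (CovZ.leaf K2_ok TB_l36337 _)
           (CovZ.n1 (-14688, 28800) (by decide +kernel)
            (CovZ.leaf K2_ok TB_l36338 _)
            (CovZ.leaf K2_ok TB_l36339 _)))
          (CovZ.n1 (-14880, 28704) (by decide +kernel)
           (CovZ.n2 (-14880, 28800) (by decide +kernel)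
            (CovZ.leaf K2_ok TB_l36340 _)
            (CovZ.leaf K2_ok TB_l36341 _))
           (CovZ.leaf K2_ok TB_l36342 _)))
         (CovZ.n1 (-14592, 28608) (by decide +kernel)
          (CovZ.n2 (-14688, 28512) (by decide +kernel)
           (CovZ.n2 (-14688, 28608) (by decide +kernel)
            (CovZ.leaf K2_ok TB_l36343 _)
            (CovZ.leaf K2_ok TB_l36344 _))
           (CovZ.leaf K2_ok TB_l36345 _))
          (CovZ.n1 (-14688, 28704) (by decide +kernel)
           (CovZ.n2 (-14592, 28704) (by decide +kernel)
            (CovZ.leaf K2_ok TB_l36346 _)
            (CovZ.leaf K2_ok TB_l36347 _))
           (CovZ.n1 (-14688, 28608) (by decide +kernel)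
            (CovZ.leaf K2_ok TB_l36348 _)
            (CovZ.leaf K2_ok TB_l36349 _)))))
        (CovZ.n1 (-14784, 28992) (by decide +kernel)
         (CovZ.n2 (-14592, 28992) (by decide +kernel)
          (CovZ.n2 (-14688, 28896) (by decide +kernel)
           (CovZ.n2 (-14688, 28992) (by decide +kernel)
            (CovZ.leaf K2_ok TB_l36350 _)
            (CovZ.leaf K2_ok TB_l36351 _))
           (CovZ.n1 (-14592, 28896) (by decide +kernel)
            (CovZ.leaf K2_ok TB_l36352 _)
            (CovZ.leaf K2_ok TB_l36353 _)))
          (CovZ.subM 762145642166990290864647761179972536182226690153220746096098036659152432946329428511743168213504149566872774886137707920983713809266196349952 (by decide +kernel)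
           (CovZ.n1 (-14688, 29088) (by decide +kernel)
            (CovZ.n2 (-14592, 29088) (by decide +kernel)
             (CovZ.leaf K2_ok TB_l36354 _)
             (CovZ.leaf K2_ok TB_l36355 _))
            (CovZ.n1 (-14688, 28992) (by decide +kernel)
             (CovZ.leaf K2_ok TB_l36356 _)
             (CovZ.n1 (-14640, 29040) (by decide +kernel)
              (CovZ.leaf K2_ok TB_l36357 _)
              (CovZ.leaf K2_ok TB_l36358 _))))))
         (CovZ.n1 (-14784, 28800) (by decide +kernel)
          (CovZ.n2 (-14880, 28896) (by decide +kernel)
           (CovZ.leaf K2_ok TB_l36359 _)
           (CovZ.n1 (-14880, 28800) (by decide +kernel)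
            (CovZ.leaf K2_ok TB_l36360 _)
            (CovZ.leaf K2_ok TB_l36361 _)))
          (CovZ.n1 (-14688, 28896) (by decide +kernel)
           (CovZ.n2 (-14688, 28800) (by decide +kernel)
            (CovZ.leaf K2_ok TB_l36362 _)
            (CovZ.leaf K2_ok TB_l36363 _))
           (CovZ.n1 (-14784, 28896) (by decide +kernel)
            (CovZ.leaf K2_ok TB_l36364 _)
            (CovZ.leaf K2_ok TB_l36365 _)))))))))

theorem TB_u483 : CovZ TB_M (toL (selN TB_LN 138523019045692281719388527685909137299879027328312770856625155876262297685195224774358738163563613249169062016683963080142372737744183069385951232)) [0, 7, 6, 1] (-13440, 27648) (-13440, 27840) (-13632, 27840) :=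
    (CovZ.n2 (-13536, 27744) (by decide +kernel)
          (CovZ.n2 (-13536, 27840) (by decide +kernel)
           (CovZ.subM 101042595737384671942469099016609071627455371552544585499466696848245977223583500688474526601486379754752270003909560858064510235963284593890557952 (by decide +kernel)
            (CovZ.n2 (-13488, 27792) (by decide +kernel)
             (CovZ.n2 (-13536, 27792) (by decide +kernel)
              (CovZ.n2 (-13512, 27816) (by decide +kernel)
               (CovZ.n2 (-13512, 27792) (by decide +kernel)
                (CovZ.leaf K2_ok TB_l48170 _)
                (CovZ.leaf K2_ok TB_l48171 _))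
               (CovZ.leaf K2_ok TB_l48172 _))
              (CovZ.n1 (-13512, 27768) (by decide +kernel)
               (CovZ.leaf K2_ok TB_l48173 _)
               (CovZ.n1 (-13512, 27792) (by decide +kernel)
                (CovZ.leaf K2_ok TB_l48174 _)
                (CovZ.leaf K2_ok TB_l48175 _))))
             (CovZ.n1 (-13488, 27840) (by decide +kernel)
              (CovZ.subM 878325460035253654578972034363220466255006369412784749683495892552176704484502481585698184256360631461334974645074720393357839820636333719683072 (by decide +kernel)
               (CovZ.n2 (-13464, 27816) (by decide +kernel)
                (CovZ.n2 (-13488, 27816) (by decide +kernel)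
                 (CovZ.leaf K2_ok TB_l49899 _)
                 (CovZ.leaf K2_ok TB_l49900 _))
                (CovZ.n1 (-13464, 27840) (by decide +kernel)
                 (CovZ.badM (by decide +kernel))
                 (CovZ.leaf K2_ok TB_l49901 _))))
              (CovZ.n1 (-13512, 27816) (by decide +kernel)
               (CovZ.n2 (-13512, 27840) (by decide +kernel)
                (CovZ.leaf K2_ok TB_l48176 _)
                (CovZ.leaf K2_ok TB_l48177 _))
               (CovZ.n1 (-13488, 27816) (by decide +kernel)
                (CovZ.leaf K2_ok TB_l48178 _)
                (CovZ.leaf K2_ok TB_l48179 _))))))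
           (CovZ.n1 (-13584, 27792) (by decide +kernel)
            (CovZ.n2 (-13584, 27840) (by decide +kernel)
             (CovZ.n2 (-13560, 27816) (by decide +kernel)
              (CovZ.leaf K2_ok TB_l48180 _)
              (CovZ.n1 (-13560, 27840) (by decide +kernel)
               (CovZ.leaf K2_ok TB_l48181 _)
               (CovZ.leaf K2_ok TB_l48182 _)))
             (CovZ.n1 (-13608, 27816) (by decide +kernel)
              (CovZ.leaf K2_ok TB_l48183 _)
              (CovZ.leaf K2_ok TB_l48184 _)))
            (CovZ.subM 101042595737396206638303317342164507458675901425872026873449223969922892301987548537046119414244329288278064082949723212555065569723036726877749248 (by decide +kernel)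
             (CovZ.n1 (-13536, 27792) (by decide +kernel)
              (CovZ.n2 (-13560, 27768) (by decide +kernel)
               (CovZ.n2 (-13560, 27792) (by decide +kernel)
                (CovZ.leaf K2_ok TB_l48185 _)
                (CovZ.leaf K2_ok TB_l48186 _))
               (CovZ.leaf K2_ok TB_l48187 _))
              (CovZ.n1 (-13560, 27816) (by decide +kernel)
               (CovZ.leaf K2_ok TB_l48188 _)
               (CovZ.n1 (-13560, 27792) (by decide +kernel)
                (CovZ.leaf K2_ok TB_l48189 _)
                (CovZ.leaf K2_ok TB_l48190 _)))))))
          (CovZ.subM 101042583828849785638503770184635126227984252519919495535860746478748386491945118778850573703098727825626497279860498743049371421845324684670795776 (by decide +kernel)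
           (CovZ.n1 (-13440, 27744) (by decide +kernel)
            (CovZ.n2 (-13488, 27696) (by decide +kernel)
             (CovZ.n2 (-13488, 27744) (by decide +kernel)
              (CovZ.subM 878134923621872693239476158006717177069790250739609821812716625412428123888409910781292802591569388833353975186639038752385154068474132621688832 (by decide +kernel)
               (CovZ.n2 (-13464, 27720) (by decide +kernel)
                (CovZ.n2 (-13488, 27720) (by decide +kernel)
                 (CovZ.leaf K2_ok TB_l49902 _)
                 (CovZ.leaf K2_ok TB_l49903 _))
                (CovZ.n1 (-13464, 27744) (by decide +kernel)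
                 (CovZ.badM (by decide +kernel))
                 (CovZ.leaf K2_ok TB_l49904 _))))
              (CovZ.n1 (-13512, 27720) (by decide +kernel)
               (CovZ.n2 (-13512, 27744) (by decide +kernel)
                (CovZ.leaf K2_ok TB_l48191 _)
                (CovZ.leaf K2_ok TB_l48192 _))
               (CovZ.leaf K2_ok TB_l48193 _)))
             (CovZ.subM 878134923621872693239476158006717177069790250739609821812716625412428123888409910781292802591569388833353975186639038752385154068474132621688832 (by decide +kernel)
              (CovZ.n1 (-13440, 27696) (by decide +kernel)
               (CovZ.n2 (-13464, 27672) (by decide +kernel)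
                (CovZ.n2 (-13464, 27696) (by decide +kernel)
                 (CovZ.badM (by decide +kernel))
                 (CovZ.leaf K2_ok TB_l49905 _))
                (CovZ.badM (by decide +kernel)))
               (CovZ.n1 (-13464, 27720) (by decide +kernel)
                (CovZ.badM (by decide +kernel))
                (CovZ.n1 (-13464, 27696) (by decide +kernel)
                 (CovZ.leaf K2_ok TB_l49906 _)
                 (CovZ.badM (by decide +kernel)))))))
            (CovZ.n1 (-13488, 27792) (by decide +kernel)
             (CovZ.subM 878134923621872693239476158006717177069790250739609821812716625412428123888409910781292802591569388833353975186639038752385154068474132621688832 (by decide +kernel)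
              (CovZ.n2 (-13440, 27792) (by decide +kernel)
               (CovZ.n2 (-13464, 27768) (by decide +kernel)
                (CovZ.n2 (-13464, 27792) (by decide +kernel)
                 (CovZ.badM (by decide +kernel))
                 (CovZ.leaf K2_ok TB_l49907 _))
                (CovZ.badM (by decide +kernel)))
               (CovZ.n1 (-13464, 27816) (by decide +kernel)
                (CovZ.badM (by decide +kernel))
                (CovZ.n1 (-13464, 27792) (by decide +kernel)
                 (CovZ.leaf K2_ok TB_l49908 _)
                 (CovZ.badM (by decide +kernel))))))
             (CovZ.n1 (-13488, 27744) (by decide +kernel)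
              (CovZ.n2 (-13512, 27768) (by decide +kernel)
               (CovZ.n2 (-13488, 27768) (by decide +kernel)
                (CovZ.leaf K2_ok TB_l48194 _)
                (CovZ.leaf K2_ok TB_l48195 _))
               (CovZ.n1 (-13512, 27744) (by decide +kernel)
                (CovZ.leaf K2_ok TB_l48196 _)
                (CovZ.leaf K2_ok TB_l48197 _)))
              (CovZ.subM 878134923621872693239476158006717177069790250739609821812716625412428123888409910781292802591569388833353975186639038752385154068474132621688832 (by decide +kernel)
               (CovZ.n1 (-13464, 27768) (by decide +kernel)
                (CovZ.n2 (-13464, 27744) (by decide +kernel)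
                 (CovZ.leaf K2_ok TB_l49909 _)
                 (CovZ.badM (by decide +kernel)))
                (CovZ.n1 (-13488, 27768) (by decide +kernel)
                 (CovZ.leaf K2_ok TB_l49910 _)
                 (CovZ.leaf K2_ok TB_l49911 _)))))))))

theorem TB_u484 : CovZ TB_M (toL (selN TB_LN 138523019045692281719388527685909137299879027328312770856625155876262297685195224774358738163563613249169062016683963080142372737744183069385951232)) [0, 7, 6, 1] (-13440, 27840) (-13440, 28032) (-13632, 27840) :=
    (CovZ.n1 (-13536, 27936) (by decide +kernel)
          (CovZ.subM 138521875803934512952961588730343849390778522000161988117994920647595278275001390605095542764849447411228590271327442687953090916118338672758095872 (by decide +kernel)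
           (CovZ.n2 (-13440, 27936) (by decide +kernel)
            (CovZ.n2 (-13488, 27888) (by decide +kernel)
             (CovZ.n2 (-13488, 27936) (by decide +kernel)
              (CovZ.subM 13383629032589203904217233027310404886935928190623189213379229548223120005892099974649025460861151519701952649036633477766612929199771715350036480 (by decide +kernel)
               (CovZ.n2 (-13464, 27912) (by decide +kernel)
                (CovZ.n2 (-13488, 27912) (by decide +kernel)
                 (CovZ.n2 (-13476, 27924) (by decide +kernel)
                  (CovZ.leaf K2_ok TB_l49912 _)
                  (CovZ.n1 (-13488, 27924) (by decide +kernel)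
                   (CovZ.leaf K2_ok TB_l49913 _)
                   (CovZ.leaf K2_ok TB_l49914 _)))
                 (CovZ.n1 (-13476, 27900) (by decide +kernel)
                  (CovZ.leaf K2_ok TB_l49915 _)
                  (CovZ.leaf K2_ok TB_l49916 _)))
                (CovZ.n1 (-13464, 27936) (by decide +kernel)
                 (CovZ.n2 (-13452, 27924) (by decide +kernel)
                  (CovZ.leaf K2_ok TB_l49917 _)
                  (CovZ.n1 (-13452, 27936) (by decide +kernel)
                   (CovZ.leaf K2_ok TB_l49918 _)
                   (CovZ.leaf K2_ok TB_l49919 _)))
                 (CovZ.n1 (-13476, 27924) (by decide +kernel)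
                  (CovZ.leaf K2_ok TB_l49920 _)
                  (CovZ.leaf K2_ok TB_l49921 _)))))
              (CovZ.n1 (-13512, 27912) (by decide +kernel)
               (CovZ.n2 (-13512, 27936) (by decide +kernel)
                (CovZ.leaf K2_ok TB_l49922 _)
                (CovZ.leaf K2_ok TB_l49923 _))
               (CovZ.n1 (-13488, 27912) (by decide +kernel)
                (CovZ.leaf K2_ok TB_l49924 _)
                (CovZ.leaf K2_ok TB_l49925 _))))
             (CovZ.subM 13383629032589203904217233027310404886935928190623189213379229548223120005892099974649025460861151519701952649036633477766612929199771715350036480 (by decide +kernel)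
              (CovZ.n1 (-13440, 27888) (by decide +kernel)
               (CovZ.n2 (-13464, 27864) (by decide +kernel)
                (CovZ.n2 (-13464, 27888) (by decide +kernel)
                 (CovZ.n2 (-13452, 27876) (by decide +kernel)
                  (CovZ.leaf K2_ok TB_l49926 _)
                  (CovZ.leaf K2_ok TB_l49927 _))
                 (CovZ.leaf K2_ok TB_l49928 _))
                (CovZ.subM 12505494108967331210977756869303687709866137939883579391566512922810691882003690063867732658269582130868598673849994439014227775131297582728347648 (by decide +kernel)
                 (CovZ.n1 (-13440, 27864) (by decide +kernel)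
                  (CovZ.n2 (-13452, 27852) (by decide +kernel)
                   (CovZ.leaf K2_ok TB_l49929 _)
                   (CovZ.leaf K2_ok TB_l49930 _))
                  (CovZ.n1 (-13452, 27876) (by decide +kernel)
                   (CovZ.leaf K2_ok TB_l49931 _)
                   (CovZ.leaf K2_ok TB_l49932 _)))))
               (CovZ.n1 (-13464, 27912) (by decide +kernel)
                (CovZ.subM 12505494108967331210977756869303687709866137939883579391566512922810691882003690063867732658269582130868598673849994439014227775131297582728347648 (by decide +kernel)
                 (CovZ.n2 (-13440, 27912) (by decide +kernel)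
                  (CovZ.n2 (-13452, 27900) (by decide +kernel)
                   (CovZ.leaf K2_ok TB_l49933 _)
                   (CovZ.leaf K2_ok TB_l49934 _))
                  (CovZ.n1 (-13452, 27924) (by decide +kernel)
                   (CovZ.leaf K2_ok TB_l49935 _)
                   (CovZ.leaf K2_ok TB_l49936 _))))
                (CovZ.n1 (-13464, 27888) (by decide +kernel)
                 (CovZ.n2 (-13476, 27900) (by decide +kernel)
                  (CovZ.leaf K2_ok TB_l49937 _)
                  (CovZ.leaf K2_ok TB_l49938 _))
                 (CovZ.n1 (-13452, 27900) (by decide +kernel)
                  (CovZ.leaf K2_ok TB_l49939 _)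
                  (CovZ.leaf K2_ok TB_l49940 _)))))))
            (CovZ.n1 (-13488, 27984) (by decide +kernel)
             (CovZ.subM 38357617435117141755270010865655735332924713331942958420252485225226093916450224935611474285369087288980568098007886460930196734634077997800357888 (by decide +kernel)
              (CovZ.n2 (-13440, 27984) (by decide +kernel)
               (CovZ.n2 (-13464, 27960) (by decide +kernel)
                (CovZ.n2 (-13464, 27984) (by decide +kernel)
                 (CovZ.n2 (-13452, 27972) (by decide +kernel)
                  (CovZ.leaf K2_ok TB_l49941 _)
                  (CovZ.n1 (-13452, 27984) (by decide +kernel)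
                   (CovZ.leaf K2_ok TB_l49942 _)
                   (CovZ.leaf K2_ok TB_l49943 _)))
                 (CovZ.n1 (-13476, 27972) (by decide +kernel)
                  (CovZ.leaf K2_ok TB_l49944 _)
                  (CovZ.leaf K2_ok TB_l49945 _)))
                (CovZ.subM 12505494108967331210977756869303687709866137939883579391566512922810691882003690063867732658269582130868598673849994439014227775131297582728347648 (by decide +kernel)
                 (CovZ.n1 (-13440, 27960) (by decide +kernel)
                  (CovZ.n2 (-13452, 27948) (by decide +kernel)
                   (CovZ.n2 (-13452, 27960) (by decide +kernel)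
                    (CovZ.leaf K2_ok TB_l49946 _)
                    (CovZ.leaf K2_ok TB_l49947 _))
                   (CovZ.n1 (-13440, 27948) (by decide +kernel)
                    (CovZ.leaf K2_ok TB_l49948 _)
                    (CovZ.leaf K2_ok TB_l49949 _)))
                  (CovZ.n1 (-13452, 27972) (by decide +kernel)
                   (CovZ.n2 (-13440, 27972) (by decide +kernel)
                    (CovZ.leaf K2_ok TB_l49950 _)
                    (CovZ.leaf K2_ok TB_l49951 _))
                   (CovZ.n1 (-13452, 27960) (by decide +kernel)
                    (CovZ.leaf K2_ok TB_l49952 _)
                    (CovZ.leaf K2_ok TB_l49953 _))))))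
               (CovZ.n1 (-13464, 28008) (by decide +kernel)
                (CovZ.subM 37479482511495269062030534707649018155854923081203348598439768599813665792561815024830181482777517900147214122821247422177811580565603865178669056 (by decide +kernel)
                 (CovZ.n2 (-13440, 28008) (by decide +kernel)
                  (CovZ.n2 (-13452, 27996) (by decide +kernel)
                   (CovZ.n2 (-13452, 28008) (by decide +kernel)
                    (CovZ.leaf K2_ok TB_l49954 _)
                    (CovZ.leaf K2_ok TB_l49955 _))
                   (CovZ.n1 (-13440, 27996) (by decide +kernel)
                    (CovZ.leaf K2_ok TB_l49956 _)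
                    (CovZ.n1 (-13446, 28002) (by decide +kernel)
                     (CovZ.leaf K2_ok TB_l49957 _)
                     (CovZ.leaf K2_ok TB_l49958 _))))
                  (CovZ.n1 (-13452, 28020) (by decide +kernel)
                   (CovZ.n2 (-13440, 28020) (by decide +kernel)
                    (CovZ.leaf K2_ok TB_l49959 _)
                    (CovZ.n1 (-13446, 28026) (by decide +kernel)
                     (CovZ.leaf K2_ok TB_l49960 _)
                     (CovZ.leaf K2_ok TB_l49961 _)))
                   (CovZ.n1 (-13452, 28008) (by decide +kernel)
                    (CovZ.leaf K2_ok TB_l49962 _)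
                    (CovZ.leaf K2_ok TB_l49963 _)))))
                (CovZ.n1 (-13464, 27984) (by decide +kernel)
                 (CovZ.n2 (-13476, 27996) (by decide +kernel)
                  (CovZ.n2 (-13464, 27996) (by decide +kernel)
                   (CovZ.leaf K2_ok TB_l49964 _)
                   (CovZ.leaf K2_ok TB_l49965 _))
                  (CovZ.n1 (-13476, 27984) (by decide +kernel)
                   (CovZ.leaf K2_ok TB_l49966 _)
                   (CovZ.leaf K2_ok TB_l49967 _)))
                 (CovZ.subM 12505494108967331210977756869303687709866137939883579391566512922810691882003690063867732658269582130868598673849994439014227775131297582728347648 (by decide +kernel)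
                  (CovZ.n1 (-13452, 27996) (by decide +kernel)
                   (CovZ.n2 (-13452, 27984) (by decide +kernel)
                    (CovZ.n2 (-13458, 27990) (by decide +kernel)
                     (CovZ.leaf K2_ok TB_l49968 _)
                     (CovZ.leaf K2_ok TB_l49969 _))
                    (CovZ.leaf K2_ok TB_l49970 _))
                   (CovZ.n1 (-13464, 27996) (by decide +kernel)
                    (CovZ.n2 (-13458, 28002) (by decide +kernel)
                     (CovZ.leaf K2_ok TB_l49971 _)
                     (CovZ.leaf K2_ok TB_l49972 _))
                    (CovZ.leaf K2_ok TB_l49973 _))))))))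
             (CovZ.n1 (-13488, 27936) (by decide +kernel)
              (CovZ.n2 (-13512, 27960) (by decide +kernel)
               (CovZ.n2 (-13488, 27960) (by decide +kernel)
                (CovZ.n2 (-13500, 27948) (by decide +kernel)
                 (CovZ.leaf K2_ok TB_l49974 _)
                 (CovZ.leaf K2_ok TB_l49975 _))
                (CovZ.n1 (-13500, 27972) (by decide +kernel)
                 (CovZ.leaf K2_ok TB_l49976 _)
                 (CovZ.leaf K2_ok TB_l49977 _)))
               (CovZ.n1 (-13512, 27936) (by decide +kernel)
                (CovZ.leaf K2_ok TB_l49978 _)
                (CovZ.n1 (-13500, 27948) (by decide +kernel)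
                 (CovZ.leaf K2_ok TB_l49979 _)
                 (CovZ.leaf K2_ok TB_l49980 _))))
              (CovZ.subM 13383629032589203904217233027310404886935928190623189213379229548223120005892099974649025460861151519701952649036633477766612929199771715350036480 (by decide +kernel)
               (CovZ.n1 (-13464, 27960) (by decide +kernel)
                (CovZ.n2 (-13464, 27936) (by decide +kernel)
                 (CovZ.n2 (-13476, 27948) (by decide +kernel)
                  (CovZ.leaf K2_ok TB_l49981 _)
                  (CovZ.n1 (-13476, 27936) (by decide +kernel)
                   (CovZ.leaf K2_ok TB_l49982 _)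
                   (CovZ.leaf K2_ok TB_l49983 _)))
                 (CovZ.n1 (-13452, 27948) (by decide +kernel)
                  (CovZ.n2 (-13452, 27936) (by decide +kernel)
                   (CovZ.leaf K2_ok TB_l49984 _)
                   (CovZ.leaf K2_ok TB_l49985 _))
                  (CovZ.leaf K2_ok TB_l49986 _)))
                (CovZ.n1 (-13488, 27960) (by decide +kernel)
                 (CovZ.n2 (-13476, 27972) (by decide +kernel)
                  (CovZ.leaf K2_ok TB_l49987 _)
                  (CovZ.leaf K2_ok TB_l49988 _))
                 (CovZ.n1 (-13476, 27948) (by decide +kernel)
                  (CovZ.leaf K2_ok TB_l49989 _)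
                  (CovZ.leaf K2_ok TB_l49990 _)))))))))
          (CovZ.n1 (-13536, 27840) (by decide +kernel)
           (CovZ.n2 (-13584, 27888) (by decide +kernel)
            (CovZ.subM 113547887401418109797743029217553954776010266732169660285104192092269219442847313492704686753099461181184759672220191583513206322241765068825952256 (by decide +kernel)
             (CovZ.n2 (-13536, 27888) (by decide +kernel)
              (CovZ.n2 (-13560, 27864) (by decide +kernel)
               (CovZ.n2 (-13560, 27888) (by decide +kernel)
                (CovZ.leaf K2_ok TB_l48198 _)
                (CovZ.leaf K2_ok TB_l48199 _))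
               (CovZ.n1 (-13536, 27864) (by decide +kernel)
                (CovZ.leaf K2_ok TB_l48200 _)
                (CovZ.leaf K2_ok TB_l48201 _)))
              (CovZ.n1 (-13560, 27912) (by decide +kernel)
               (CovZ.n2 (-13536, 27912) (by decide +kernel)
                (CovZ.leaf K2_ok TB_l49991 _)
                (CovZ.leaf K2_ok TB_l49992 _))
               (CovZ.n1 (-13560, 27888) (by decide +kernel)
                (CovZ.leaf K2_ok TB_l48202 _)
                (CovZ.leaf K2_ok TB_l49993 _)))))
            (CovZ.n1 (-13584, 27840) (by decide +kernel)
             (CovZ.n2 (-13608, 27864) (by decide +kernel)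
              (CovZ.leaf K2_ok TB_l48203 _)
              (CovZ.leaf K2_ok TB_l48204 _))
             (CovZ.n1 (-13560, 27864) (by decide +kernel)
              (CovZ.n2 (-13560, 27840) (by decide +kernel)
               (CovZ.leaf K2_ok TB_l48205 _)
               (CovZ.leaf K2_ok TB_l48206 _))
              (CovZ.leaf K2_ok TB_l48207 _))))
           (CovZ.subM 113547887401406575101908810891998518944789736858842218911121664970592304364443265644133093940341511647658965593180029229022650988482012935838760960 (by decide +kernel)
            (CovZ.n1 (-13488, 27888) (by decide +kernel)
             (CovZ.n2 (-13488, 27840) (by decide +kernel)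
              (CovZ.n2 (-13512, 27864) (by decide +kernel)
               (CovZ.n2 (-13488, 27864) (by decide +kernel)
                (CovZ.leaf K2_ok TB_l49994 _)
                (CovZ.leaf K2_ok TB_l49995 _))
               (CovZ.n1 (-13512, 27840) (by decide +kernel)
                (CovZ.leaf K2_ok TB_l48208 _)
                (CovZ.leaf K2_ok TB_l48209 _)))
              (CovZ.subM 13383629032589203904217233027310404886935928190623189213379229548223120005892099974649025460861151519701952649036633477766612929199771715350036480 (by decide +kernel)
               (CovZ.n1 (-13464, 27864) (by decide +kernel)
                (CovZ.n2 (-13464, 27840) (by decide +kernel)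
                 (CovZ.leaf K2_ok TB_l49996 _)
                 (CovZ.n1 (-13452, 27852) (by decide +kernel)
                  (CovZ.leaf K2_ok TB_l49997 _)
                  (CovZ.leaf K2_ok TB_l49998 _)))
                (CovZ.n1 (-13488, 27864) (by decide +kernel)
                 (CovZ.leaf K2_ok TB_l49999 _)
                 (CovZ.leaf K2_ok TB_l50000 _)))))
             (CovZ.n1 (-13536, 27888) (by decide +kernel)
              (CovZ.n2 (-13512, 27912) (by decide +kernel)
               (CovZ.n2 (-13512, 27888) (by decide +kernel)
                (CovZ.leaf K2_ok TB_l50001 _)
                (CovZ.leaf K2_ok TB_l50002 _))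
               (CovZ.n1 (-13536, 27912) (by decide +kernel)
                (CovZ.leaf K2_ok TB_l50003 _)
                (CovZ.leaf K2_ok TB_l50004 _)))
              (CovZ.n1 (-13512, 27864) (by decide +kernel)
               (CovZ.n2 (-13536, 27864) (by decide +kernel)
                (CovZ.leaf K2_ok TB_l48210 _)
                (CovZ.leaf K2_ok TB_l48211 _))
               (CovZ.n1 (-13512, 27888) (by decide +kernel)
                (CovZ.leaf K2_ok TB_l50005 _)
                (CovZ.leaf K2_ok TB_l50006 _))))))))

theorem TB_u485 : CovZ TB_M (toL (selN TB_LN 37479482511495269062030534707649018155854923081203348598439768599813665792561815024830181482777517900147214122821247422177811580565603865178669056)) [0, 7, 6, 1] (-13440, 28032) (-13440, 27936) (-13344, 27936) :=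
    (CovZ.n2 (-13392, 27984) (by decide +kernel)
             (CovZ.n2 (-13392, 27936) (by decide +kernel)
              (CovZ.n2 (-13416, 27960) (by decide +kernel)
               (CovZ.subM 12493091366409822489153645244510729889308995354544233859911204137957178972728092951865600767025492568771031178244388174692208006317310359770234880 (by decide +kernel)
                (CovZ.n2 (-13392, 27960) (by decide +kernel)
                 (CovZ.n2 (-13404, 27948) (by decide +kernel)
                  (CovZ.n2 (-13404, 27960) (by decide +kernel)
                   (CovZ.n2 (-13398, 27954) (by decide +kernel)
                    (CovZ.leaf K2_ok TB_l50016 _)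
                    (CovZ.leaf K2_ok TB_l50017 _))
                   (CovZ.leaf K2_ok TB_l50018 _))
                  (CovZ.n1 (-13392, 27948) (by decide +kernel)
                   (CovZ.n2 (-13398, 27942) (by decide +kernel)
                    (CovZ.leaf K2_ok TB_l50019 _)
                    (CovZ.leaf K2_ok TB_l50020 _))
                   (CovZ.leaf K2_ok TB_l50021 _)))
                 (CovZ.n1 (-13404, 27972) (by decide +kernel)
                  (CovZ.n2 (-13392, 27972) (by decide +kernel)
                   (CovZ.n2 (-13398, 27966) (by decide +kernel)
                    (CovZ.n2 (-13398, 27972) (by decide +kernel)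
                     (CovZ.leaf K2_ok TB_l50022 _)
                     (CovZ.leaf K2_ok TB_l50023 _))
                    (CovZ.leaf K2_ok TB_l50024 _))
                   (CovZ.n1 (-13398, 27978) (by decide +kernel)
                    (CovZ.badM (by decide +kernel))
                    (CovZ.n1 (-13398, 27972) (by decide +kernel)
                     (CovZ.leaf K2_ok TB_l50025 _)
                     (CovZ.leaf K2_ok TB_l50026 _))))
                  (CovZ.n1 (-13404, 27960) (by decide +kernel)
                   (CovZ.leaf K2_ok TB_l50027 _)
                   (CovZ.n1 (-13398, 27966) (by decide +kernel)
                    (CovZ.leaf K2_ok TB_l50028 _)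
                    (CovZ.leaf K2_ok TB_l50029 _))))))
               (CovZ.n1 (-13416, 27936) (by decide +kernel)
                (CovZ.n2 (-13428, 27948) (by decide +kernel)
                 (CovZ.n2 (-13416, 27948) (by decide +kernel)
                  (CovZ.leaf K2_ok TB_l50030 _)
                  (CovZ.leaf K2_ok TB_l50031 _))
                 (CovZ.n1 (-13428, 27936) (by decide +kernel)
                  (CovZ.leaf K2_ok TB_l50032 _)
                  (CovZ.leaf K2_ok TB_l50033 _)))
                (CovZ.subM 12493091366409822489153645244510729889308995354544233859911204137957178972728092951865600767025492568771031178244388174692208006317310359770234880 (by decide +kernel)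
                 (CovZ.n1 (-13404, 27948) (by decide +kernel)
                  (CovZ.n2 (-13404, 27936) (by decide +kernel)
                   (CovZ.leaf K2_ok TB_l50034 _)
                   (CovZ.n1 (-13398, 27942) (by decide +kernel)
                    (CovZ.leaf K2_ok TB_l50035 _)
                    (CovZ.leaf K2_ok TB_l50036 _)))
                  (CovZ.n1 (-13416, 27948) (by decide +kernel)
                   (CovZ.leaf K2_ok TB_l50037 _)
                   (CovZ.n1 (-13410, 27942) (by decide +kernel)
                    (CovZ.leaf K2_ok TB_l50038 _)
                    (CovZ.leaf K2_ok TB_l50039 _)))))))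
              (CovZ.subM 2839213766779714416208296124562517712318911565184836172974571090549372219192960637992933791850638927971728600024477257552869537611776 (by decide +kernel)
               (CovZ.n1 (-13368, 27960) (by decide +kernel)
                (CovZ.n2 (-13368, 27936) (by decide +kernel)
                 (CovZ.n2 (-13380, 27948) (by decide +kernel)
                  (CovZ.badM (by decide +kernel))
                  (CovZ.n1 (-13380, 27936) (by decide +kernel)
                   (CovZ.n2 (-13386, 27942) (by decide +kernel)
                    (CovZ.n2 (-13380, 27942) (by decide +kernel)
                     (CovZ.leaf K2_ok TB_l50040 _)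
                     (CovZ.leaf K2_ok TB_l50041 _))
                    (CovZ.leaf K2_ok TB_l50042 _))
                   (CovZ.n1 (-13374, 27942) (by decide +kernel)
                    (CovZ.badM (by decide +kernel))
                    (CovZ.leaf K2_ok TB_l50043 _))))
                 (CovZ.badM (by decide +kernel)))
                (CovZ.n1 (-13392, 27960) (by decide +kernel)
                 (CovZ.n2 (-13380, 27972) (by decide +kernel)
                  (CovZ.n2 (-13380, 27960) (by decide +kernel)
                   (CovZ.n2 (-13386, 27966) (by decide +kernel)
                    (CovZ.badM (by decide +kernel))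
                    (CovZ.n1 (-13386, 27960) (by decide +kernel)
                     (CovZ.leaf K2_ok TB_l50044 _)
                     (CovZ.badM (by decide +kernel))))
                   (CovZ.badM (by decide +kernel)))
                  (CovZ.n1 (-13392, 27972) (by decide +kernel)
                   (CovZ.badM (by decide +kernel))
                   (CovZ.n1 (-13386, 27966) (by decide +kernel)
                    (CovZ.leaf K2_ok TB_l50045 _)
                    (CovZ.badM (by decide +kernel)))))
                 (CovZ.n1 (-13380, 27948) (by decide +kernel)
                  (CovZ.n2 (-13392, 27948) (by decide +kernel)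
                   (CovZ.n2 (-13386, 27954) (by decide +kernel)
                    (CovZ.n2 (-13386, 27948) (by decide +kernel)
                     (CovZ.leaf K2_ok TB_l50046 _)
                     (CovZ.leaf K2_ok TB_l50047 _))
                    (CovZ.leaf K2_ok TB_l50048 _))
                   (CovZ.n1 (-13386, 27942) (by decide +kernel)
                    (CovZ.leaf K2_ok TB_l50049 _)
                    (CovZ.n1 (-13386, 27948) (by decide +kernel)
                     (CovZ.n2 (-13383, 27945) (by decide +kernel)
                      (CovZ.leaf K2_ok TB_l50050 _)
                      (CovZ.leaf K2_ok TB_l50051 _))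
                     (CovZ.leaf K2_ok TB_l50052 _))))
                  (CovZ.n1 (-13380, 27960) (by decide +kernel)
                   (CovZ.badM (by decide +kernel))
                   (CovZ.n1 (-13386, 27954) (by decide +kernel)
                    (CovZ.leaf K2_ok TB_l50053 _)
                    (CovZ.badM (by decide +kernel)))))))))
             (CovZ.n1 (-13440, 27984) (by decide +kernel)
              (CovZ.n2 (-13416, 28008) (by decide +kernel)
               (CovZ.n2 (-13416, 27984) (by decide +kernel)
                (CovZ.n2 (-13428, 27996) (by decide +kernel)
                 (CovZ.subM 12493091366409822489153645244510729889308995354544233859911204137957178972728092951865600767025492568771031178244388174692208006317310359770234880 (by decide +kernel)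
                  (CovZ.n2 (-13416, 27996) (by decide +kernel)
                   (CovZ.n2 (-13422, 27990) (by decide +kernel)
                    (CovZ.leaf K2_ok TB_l50054 _)
                    (CovZ.n1 (-13416, 27990) (by decide +kernel)
                     (CovZ.leaf K2_ok TB_l50055 _)
                     (CovZ.leaf K2_ok TB_l50056 _)))
                   (CovZ.n1 (-13422, 28002) (by decide +kernel)
                    (CovZ.leaf K2_ok TB_l50057 _)
                    (CovZ.leaf K2_ok TB_l50058 _))))
                 (CovZ.n1 (-13428, 27984) (by decide +kernel)
                  (CovZ.n2 (-13434, 27990) (by decide +kernel)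
                   (CovZ.n2 (-13428, 27990) (by decide +kernel)
                    (CovZ.leaf K2_ok TB_l50059 _)
                    (CovZ.leaf K2_ok TB_l50060 _))
                   (CovZ.leaf K2_ok TB_l50061 _))
                  (CovZ.n1 (-13422, 27990) (by decide +kernel)
                   (CovZ.leaf K2_ok TB_l50062 _)
                   (CovZ.leaf K2_ok TB_l50063 _))))
                (CovZ.subM 12493091366409822489153645244510729889308995354544233859911204137957178972728092951865600767025492568771031178244388174692208006317310359770234880 (by decide +kernel)
                 (CovZ.n1 (-13404, 27996) (by decide +kernel)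
                  (CovZ.n2 (-13404, 27984) (by decide +kernel)
                   (CovZ.n2 (-13410, 27990) (by decide +kernel)
                    (CovZ.leaf K2_ok TB_l50064 _)
                    (CovZ.leaf K2_ok TB_l50065 _))
                   (CovZ.n1 (-13398, 27990) (by decide +kernel)
                    (CovZ.leaf K2_ok TB_l50066 _)
                    (CovZ.leaf K2_ok TB_l50067 _)))
                  (CovZ.n1 (-13416, 27996) (by decide +kernel)
                   (CovZ.n2 (-13410, 28002) (by decide +kernel)
                    (CovZ.leaf K2_ok TB_l50068 _)
                    (CovZ.leaf K2_ok TB_l50069 _))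
                   (CovZ.n1 (-13410, 27990) (by decide +kernel)
                    (CovZ.leaf K2_ok TB_l50070 _)
                    (CovZ.leaf K2_ok TB_l50071 _))))))
               (CovZ.n1 (-13440, 28008) (by decide +kernel)
                (CovZ.n2 (-13428, 28020) (by decide +kernel)
                 (CovZ.n2 (-13428, 28008) (by decide +kernel)
                  (CovZ.leaf K2_ok TB_l50072 _)
                  (CovZ.n1 (-13422, 28014) (by decide +kernel)
                   (CovZ.leaf K2_ok TB_l50073 _)
                   (CovZ.leaf K2_ok TB_l50074 _)))
                 (CovZ.n1 (-13440, 28020) (by decide +kernel)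
                  (CovZ.n2 (-13434, 28026) (by decide +kernel)
                   (CovZ.leaf K2_ok TB_l50075 _)
                   (CovZ.n1 (-13440, 28026) (by decide +kernel)
                    (CovZ.leaf K2_ok TB_l50076 _)
                    (CovZ.leaf K2_ok TB_l50077 _)))
                  (CovZ.n1 (-13434, 28014) (by decide +kernel)
                   (CovZ.leaf K2_ok TB_l50078 _)
                   (CovZ.leaf K2_ok TB_l50079 _))))
                (CovZ.n1 (-13428, 27996) (by decide +kernel)
                 (CovZ.n2 (-13440, 27996) (by decide +kernel)
                  (CovZ.leaf K2_ok TB_l50080 _)
                  (CovZ.n1 (-13434, 27990) (by decide +kernel)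
                   (CovZ.leaf K2_ok TB_l50081 _)
                   (CovZ.leaf K2_ok TB_l50082 _)))
                 (CovZ.n1 (-13428, 28008) (by decide +kernel)
                  (CovZ.n2 (-13422, 28002) (by decide +kernel)
                   (CovZ.leaf K2_ok TB_l50083 _)
                   (CovZ.leaf K2_ok TB_l50084 _))
                  (CovZ.n1 (-13434, 28002) (by decide +kernel)
                   (CovZ.leaf K2_ok TB_l50085 _)
                   (CovZ.leaf K2_ok TB_l50086 _))))))
              (CovZ.n1 (-13416, 27960) (by decide +kernel)
               (CovZ.n2 (-13440, 27960) (by decide +kernel)
                (CovZ.n2 (-13428, 27972) (by decide +kernel)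
                 (CovZ.n2 (-13428, 27960) (by decide +kernel)
                  (CovZ.leaf K2_ok TB_l50087 _)
                  (CovZ.leaf K2_ok TB_l50088 _))
                 (CovZ.n1 (-13440, 27972) (by decide +kernel)
                  (CovZ.n2 (-13434, 27978) (by decide +kernel)
                   (CovZ.leaf K2_ok TB_l50089 _)
                   (CovZ.leaf K2_ok TB_l50090 _))
                  (CovZ.leaf K2_ok TB_l50091 _)))
                (CovZ.n1 (-13428, 27948) (by decide +kernel)
                 (CovZ.n2 (-13440, 27948) (by decide +kernel)
                  (CovZ.leaf K2_ok TB_l50092 _)
                  (CovZ.leaf K2_ok TB_l50093 _))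
                 (CovZ.n1 (-13428, 27960) (by decide +kernel)
                  (CovZ.leaf K2_ok TB_l50094 _)
                  (CovZ.leaf K2_ok TB_l50095 _))))
               (CovZ.n1 (-13416, 27984) (by decide +kernel)
                (CovZ.subM 12493091366409822489153645244510729889308995354544233859911204137957178972728092951865600767025492568771031178244388174692208006317310359770234880 (by decide +kernel)
                 (CovZ.n2 (-13404, 27972) (by decide +kernel)
                  (CovZ.n2 (-13416, 27972) (by decide +kernel)
                   (CovZ.n2 (-13410, 27978) (by decide +kernel)
                    (CovZ.n2 (-13410, 27972) (by decide +kernel)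
                     (CovZ.leaf K2_ok TB_l50096 _)
                     (CovZ.leaf K2_ok TB_l50097 _))
                    (CovZ.leaf K2_ok TB_l50098 _))
                   (CovZ.leaf K2_ok TB_l50099 _))
                  (CovZ.n1 (-13404, 27984) (by decide +kernel)
                   (CovZ.n2 (-13398, 27978) (by decide +kernel)
                    (CovZ.leaf K2_ok TB_l50100 _)
                    (CovZ.n1 (-13398, 27984) (by decide +kernel)
                     (CovZ.badM (by decide +kernel))
                     (CovZ.leaf K2_ok TB_l50101 _)))
                   (CovZ.n1 (-13410, 27978) (by decide +kernel)
                    (CovZ.n2 (-13410, 27984) (by decide +kernel)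
                     (CovZ.leaf K2_ok TB_l50102 _)
                     (CovZ.leaf K2_ok TB_l50103 _))
                    (CovZ.n1 (-13404, 27978) (by decide +kernel)
                     (CovZ.leaf K2_ok TB_l50104 _)
                     (CovZ.leaf K2_ok TB_l50105 _))))))
                (CovZ.n1 (-13428, 27972) (by decide +kernel)
                 (CovZ.n2 (-13428, 27984) (by decide +kernel)
                  (CovZ.leaf K2_ok TB_l50106 _)
                  (CovZ.n1 (-13434, 27978) (by decide +kernel)
                   (CovZ.leaf K2_ok TB_l50107 _)
                   (CovZ.leaf K2_ok TB_l50108 _)))
                 (CovZ.subM 12493091366409822489153645244510729889308995354544233859911204137957178972728092951865600767025492568771031178244388174692208006317310359770234880 (by decide +kernel)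
                  (CovZ.n1 (-13416, 27972) (by decide +kernel)
                   (CovZ.leaf K2_ok TB_l50109 _)
                   (CovZ.n1 (-13422, 27978) (by decide +kernel)
                    (CovZ.leaf K2_ok TB_l50110 _)
                    (CovZ.n1 (-13422, 27972) (by decide +kernel)
                     (CovZ.leaf K2_ok TB_l50111 _)
                     (CovZ.leaf K2_ok TB_l50112 _))))))))))

theorem TB_u486 : CovZ TB_M (toL (selN TB_LN 37479482511495269062030534707649018155854923081203348598439768599813665792561815024830181482777517900147214122821247422177811580565603865178669056)) [0, 7, 6, 1] (-13440, 27936) (-13440, 27840) (-13344, 27936) :=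
    (CovZ.n1 (-13392, 27888) (by decide +kernel)
             (CovZ.n2 (-13440, 27888) (by decide +kernel)
              (CovZ.n2 (-13416, 27912) (by decide +kernel)
               (CovZ.n2 (-13416, 27888) (by decide +kernel)
                (CovZ.n2 (-13428, 27900) (by decide +kernel)
                 (CovZ.leaf K2_ok TB_l50113 _)
                 (CovZ.n1 (-13428, 27888) (by decide +kernel)
                  (CovZ.leaf K2_ok TB_l50114 _)
                  (CovZ.leaf K2_ok TB_l50115 _)))
                (CovZ.n1 (-13404, 27900) (by decide +kernel)
                 (CovZ.n2 (-13404, 27888) (by decide +kernel)
                  (CovZ.leaf K2_ok TB_l50116 _)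
                  (CovZ.badM (by decide +kernel)))
                 (CovZ.leaf K2_ok TB_l50117 _)))
               (CovZ.n1 (-13440, 27912) (by decide +kernel)
                (CovZ.n2 (-13428, 27924) (by decide +kernel)
                 (CovZ.n2 (-13428, 27912) (by decide +kernel)
                  (CovZ.leaf K2_ok TB_l50118 _)
                  (CovZ.leaf K2_ok TB_l50119 _))
                 (CovZ.leaf K2_ok TB_l50120 _))
                (CovZ.n1 (-13428, 27900) (by decide +kernel)
                 (CovZ.leaf K2_ok TB_l50121 _)
                 (CovZ.n1 (-13428, 27912) (by decide +kernel)
                  (CovZ.leaf K2_ok TB_l50122 _)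
                  (CovZ.leaf K2_ok TB_l50123 _)))))
              (CovZ.n1 (-13416, 27864) (by decide +kernel)
               (CovZ.n2 (-13440, 27864) (by decide +kernel)
                (CovZ.n2 (-13428, 27876) (by decide +kernel)
                 (CovZ.n2 (-13428, 27864) (by decide +kernel)
                  (CovZ.leaf K2_ok TB_l50124 _)
                  (CovZ.leaf K2_ok TB_l50125 _))
                 (CovZ.leaf K2_ok TB_l50126 _))
                (CovZ.n1 (-13428, 27852) (by decide +kernel)
                 (CovZ.leaf K2_ok TB_l50127 _)
                 (CovZ.leaf K2_ok TB_l50128 _)))
               (CovZ.n1 (-13416, 27888) (by decide +kernel)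
                (CovZ.n2 (-13404, 27876) (by decide +kernel)
                 (CovZ.leaf K2_ok TB_l50129 _)
                 (CovZ.n1 (-13404, 27888) (by decide +kernel)
                  (CovZ.badM (by decide +kernel))
                  (CovZ.leaf K2_ok TB_l50130 _)))
                (CovZ.n1 (-13428, 27876) (by decide +kernel)
                 (CovZ.n2 (-13428, 27888) (by decide +kernel)
                  (CovZ.leaf K2_ok TB_l50131 _)
                  (CovZ.leaf K2_ok TB_l50132 _))
                 (CovZ.leaf K2_ok TB_l50133 _)))))
             (CovZ.n1 (-13392, 27936) (by decide +kernel)
              (CovZ.subM 2839213766779714416208296124562517712318911565184836172974571090549372219192960637992933791850638927971728600024477257552869537611776 (by decide +kernel)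
               (CovZ.n2 (-13368, 27912) (by decide +kernel)
                (CovZ.n2 (-13392, 27912) (by decide +kernel)
                 (CovZ.n2 (-13380, 27924) (by decide +kernel)
                  (CovZ.badM (by decide +kernel))
                  (CovZ.n1 (-13392, 27924) (by decide +kernel)
                   (CovZ.n2 (-13386, 27930) (by decide +kernel)
                    (CovZ.badM (by decide +kernel))
                    (CovZ.leaf K2_ok TB_l50134 _))
                   (CovZ.badM (by decide +kernel))))
                 (CovZ.badM (by decide +kernel)))
                (CovZ.n1 (-13368, 27936) (by decide +kernel)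
                 (CovZ.badM (by decide +kernel))
                 (CovZ.n1 (-13380, 27924) (by decide +kernel)
                  (CovZ.n2 (-13380, 27936) (by decide +kernel)
                   (CovZ.badM (by decide +kernel))
                   (CovZ.n1 (-13386, 27930) (by decide +kernel)
                    (CovZ.leaf K2_ok TB_l50135 _)
                    (CovZ.badM (by decide +kernel))))
                  (CovZ.badM (by decide +kernel))))))
              (CovZ.n1 (-13416, 27912) (by decide +kernel)
               (CovZ.n2 (-13416, 27936) (by decide +kernel)
                (CovZ.subM 12493091366409822489153645244510729889308995354544233859911204137957178972728092951865600767025492568771031178244388174692208006317310359770234880 (by decide +kernel)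
                 (CovZ.n2 (-13404, 27924) (by decide +kernel)
                  (CovZ.n2 (-13416, 27924) (by decide +kernel)
                   (CovZ.n2 (-13410, 27930) (by decide +kernel)
                    (CovZ.leaf K2_ok TB_l50136 _)
                    (CovZ.leaf K2_ok TB_l50137 _))
                   (CovZ.leaf K2_ok TB_l50138 _))
                  (CovZ.n1 (-13404, 27936) (by decide +kernel)
                   (CovZ.leaf K2_ok TB_l50139 _)
                   (CovZ.n1 (-13410, 27930) (by decide +kernel)
                    (CovZ.leaf K2_ok TB_l50140 _)
                    (CovZ.leaf K2_ok TB_l50141 _)))))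
                (CovZ.n1 (-13428, 27924) (by decide +kernel)
                 (CovZ.n2 (-13428, 27936) (by decide +kernel)
                  (CovZ.leaf K2_ok TB_l50142 _)
                  (CovZ.leaf K2_ok TB_l50143 _))
                 (CovZ.n1 (-13416, 27924) (by decide +kernel)
                  (CovZ.leaf K2_ok TB_l50144 _)
                  (CovZ.leaf K2_ok TB_l50145 _))))
               (CovZ.subM 12493091366409822489153645244510729889308995354544233859911204137957178972728092951865600767025492568771031178244388174692208006317310359770234880 (by decide +kernel)
                (CovZ.n1 (-13392, 27912) (by decide +kernel)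
                 (CovZ.n2 (-13404, 27900) (by decide +kernel)
                  (CovZ.n2 (-13404, 27912) (by decide +kernel)
                   (CovZ.badM (by decide +kernel))
                   (CovZ.leaf K2_ok TB_l50146 _))
                  (CovZ.badM (by decide +kernel)))
                 (CovZ.n1 (-13404, 27924) (by decide +kernel)
                  (CovZ.n2 (-13392, 27924) (by decide +kernel)
                   (CovZ.leaf K2_ok TB_l50147 _)
                   (CovZ.n1 (-13398, 27930) (by decide +kernel)
                    (CovZ.leaf K2_ok TB_l50148 _)
                    (CovZ.leaf K2_ok TB_l50149 _)))
                  (CovZ.n1 (-13404, 27912) (by decide +kernel)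
                   (CovZ.leaf K2_ok TB_l50150 _)
                   (CovZ.leaf K2_ok TB_l50151 _))))))))

theorem TB_u487 : CovZ TB_M (toL (selN TB_LN 138523019045692281719388527685909137299879027328312770856625155876262297685195224774358738163563613249169062016683963080142372737744183069385951232)) [0, 7, 6, 1] (-13056, 28416) (-13440, 28032) (-13056, 27648) :=
    (CovZ.subM 37479482511495269062030534707649018155854923081203348598439768599813665792561815024830181482777517900147214122821247422177811580565603865178669056 (by decide +kernel)
       (CovZ.n2 (-13056, 28032) (by decide +kernel)
        (CovZ.n2 (-13248, 27840) (by decide +kernel)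
         (CovZ.n2 (-13248, 28032) (by decide +kernel)
          (CovZ.badM (by decide +kernel))
          (CovZ.n1 (-13344, 27936) (by decide +kernel)
           (CovZ.n2 (-13344, 28032) (by decide +kernel)
            (CovZ.badM (by decide +kernel))
            (CovZ.n1 (-13392, 27984) (by decide +kernel)
             (CovZ.n2 (-13392, 28032) (by decide +kernel)
              (CovZ.badM (by decide +kernel))
              (CovZ.n1 (-13416, 28008) (by decide +kernel)
               (CovZ.n2 (-13416, 28032) (by decide +kernel)
                (CovZ.subM 12493091366409822489153645244510729889308995354544233859911204137957178972728092951865600767025492568771031178244388174692208006317310359770234880 (by decide +kernel)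
                 (CovZ.n2 (-13404, 28020) (by decide +kernel)
                  (CovZ.n2 (-13416, 28020) (by decide +kernel)
                   (CovZ.n2 (-13410, 28026) (by decide +kernel)
                    (CovZ.n2 (-13410, 28020) (by decide +kernel)
                     (CovZ.leaf K2_ok TB_l49843 _)
                     (CovZ.leaf K2_ok TB_l49844 _))
                    (CovZ.leaf K2_ok TB_l49845 _))
                   (CovZ.n1 (-13410, 28014) (by decide +kernel)
                    (CovZ.leaf K2_ok TB_l49846 _)
                    (CovZ.n1 (-13410, 28020) (by decide +kernel)
                     (CovZ.leaf K2_ok TB_l49847 _)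
                     (CovZ.leaf K2_ok TB_l49848 _))))
                  (CovZ.n1 (-13404, 28032) (by decide +kernel)
                   (CovZ.badM (by decide +kernel))
                   (CovZ.n1 (-13410, 28026) (by decide +kernel)
                    (CovZ.n2 (-13410, 28032) (by decide +kernel)
                     (CovZ.leaf K2_ok TB_l49849 _)
                     (CovZ.leaf K2_ok TB_l49850 _))
                    (CovZ.n1 (-13404, 28026) (by decide +kernel)
                     (CovZ.leaf K2_ok TB_l49851 _)
                     (CovZ.n1 (-13407, 28029) (by decide +kernel)
                      (CovZ.badM (by decide +kernel))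
                      (CovZ.leaf K2_ok TB_l49852 _)))))))
                (CovZ.n1 (-13428, 28020) (by decide +kernel)
                 (CovZ.n2 (-13428, 28032) (by decide +kernel)
                  (CovZ.n2 (-13422, 28026) (by decide +kernel)
                   (CovZ.leaf K2_ok TB_l49853 _)
                   (CovZ.n1 (-13422, 28032) (by decide +kernel)
                    (CovZ.leaf K2_ok TB_l49854 _)
                    (CovZ.leaf K2_ok TB_l49855 _)))
                  (CovZ.n1 (-13434, 28026) (by decide +kernel)
                   (CovZ.n2 (-13434, 28032) (by decide +kernel)
                    (CovZ.leaf K2_ok TB_l49856 _)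
                    (CovZ.leaf K2_ok TB_l49857 _))
                   (CovZ.n1 (-13428, 28026) (by decide +kernel)
                    (CovZ.n2 (-13431, 28023) (by decide +kernel)
                     (CovZ.leaf K2_ok TB_l49858 _)
                     (CovZ.leaf K2_ok TB_l49859 _))
                    (CovZ.leaf K2_ok TB_l49860 _))))
                 (CovZ.subM 12493091366409822489153645244510729889308995354544233859911204137957178972728092951865600767025492568771031178244388174692208006317310359770234880 (by decide +kernel)
                  (CovZ.n1 (-13416, 28020) (by decide +kernel)
                   (CovZ.n2 (-13422, 28014) (by decide +kernel)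
                    (CovZ.n2 (-13422, 28020) (by decide +kernel)
                     (CovZ.leaf K2_ok TB_l49861 _)
                     (CovZ.leaf K2_ok TB_l49862 _))
                    (CovZ.leaf K2_ok TB_l49863 _))
                   (CovZ.n1 (-13422, 28026) (by decide +kernel)
                    (CovZ.n2 (-13416, 28026) (by decide +kernel)
                     (CovZ.n2 (-13419, 28023) (by decide +kernel)
                      (CovZ.leaf K2_ok TB_l49864 _)
                      (CovZ.leaf K2_ok TB_l49865 _))
                     (CovZ.n1 (-13419, 28029) (by decide +kernel)
                      (CovZ.leaf K2_ok TB_l49866 _)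
                      (CovZ.leaf K2_ok TB_l49867 _)))
                    (CovZ.n1 (-13422, 28020) (by decide +kernel)
                     (CovZ.leaf K2_ok TB_l49868 _)
                     (CovZ.leaf K2_ok TB_l49869 _)))))))
               (CovZ.subM 12493091366409822489153645244510729889308995354544233859911204137957178972728092951865600767025492568771031178244388174692208006317310359770234880 (by decide +kernel)
                (CovZ.n1 (-13392, 28008) (by decide +kernel)
                 (CovZ.n2 (-13404, 27996) (by decide +kernel)
                  (CovZ.n2 (-13404, 28008) (by decide +kernel)
                   (CovZ.badM (by decide +kernel))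
                   (CovZ.n1 (-13410, 28002) (by decide +kernel)
                    (CovZ.leaf K2_ok TB_l49870 _)
                    (CovZ.leaf K2_ok TB_l49871 _)))
                  (CovZ.badM (by decide +kernel)))
                 (CovZ.n1 (-13404, 28020) (by decide +kernel)
                  (CovZ.badM (by decide +kernel))
                  (CovZ.n1 (-13404, 28008) (by decide +kernel)
                   (CovZ.n2 (-13410, 28014) (by decide +kernel)
                    (CovZ.n2 (-13404, 28014) (by decide +kernel)
                     (CovZ.leaf K2_ok TB_l49872 _)
                     (CovZ.leaf K2_ok TB_l49873 _))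
                    (CovZ.n1 (-13410, 28008) (by decide +kernel)
                     (CovZ.leaf K2_ok TB_l49874 _)
                     (CovZ.leaf K2_ok TB_l49875 _)))
                   (CovZ.badM (by decide +kernel))))))))
             (CovZ.badM (by decide +kernel))))
           (CovZ.badM (by decide +kernel))))
         (CovZ.badM (by decide +kernel)))
        (CovZ.n1 (-13248, 28224) (by decide +kernel)
         (CovZ.badM (by decide +kernel))
         (CovZ.n1 (-13248, 28032) (by decide +kernel)
          (CovZ.n2 (-13344, 28128) (by decide +kernel)
           (CovZ.badM (by decide +kernel))
           (CovZ.n1 (-13344, 28032) (by decide +kernel)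
            (CovZ.n2 (-13392, 28080) (by decide +kernel)
             (CovZ.badM (by decide +kernel))
             (CovZ.n1 (-13392, 28032) (by decide +kernel)
              (CovZ.n2 (-13416, 28056) (by decide +kernel)
               (CovZ.badM (by decide +kernel))
               (CovZ.n1 (-13416, 28032) (by decide +kernel)
                (CovZ.n2 (-13428, 28044) (by decide +kernel)
                 (CovZ.subM 24973988402533616278586337267177747038237910176744407030003625349348923052739223705400834745783921636862316726827196440363632759949412021525544960 (by decide +kernel)
                  (CovZ.n2 (-13416, 28044) (by decide +kernel)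
                   (CovZ.n2 (-13422, 28038) (by decide +kernel)
                    (CovZ.leaf K2_ok TB_l49876 _)
                    (CovZ.n1 (-13416, 28038) (by decide +kernel)
                     (CovZ.n2 (-13419, 28035) (by decide +kernel)
                      (CovZ.leaf K2_ok TB_l49877 _)
                      (CovZ.leaf K2_ok TB_l49878 _))
                     (CovZ.leaf K2_ok TB_l49879 _)))
                   (CovZ.n1 (-13422, 28050) (by decide +kernel)
                    (CovZ.n2 (-13416, 28050) (by decide +kernel)
                     (CovZ.n2 (-13419, 28047) (by decide +kernel)
                      (CovZ.leaf K2_ok TB_l49880 _)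
                      (CovZ.leaf K2_ok TB_l49881 _))
                     (CovZ.n1 (-13419, 28053) (by decide +kernel)
                      (CovZ.leaf K2_ok TB_l49882 _)
                      (CovZ.leaf K2_ok TB_l49883 _)))
                    (CovZ.leaf K2_ok TB_l49884 _))))
                 (CovZ.n1 (-13428, 28032) (by decide +kernel)
                  (CovZ.n2 (-13434, 28038) (by decide +kernel)
                   (CovZ.leaf K2_ok TB_l49885 _)
                   (CovZ.n1 (-13434, 28032) (by decide +kernel)
                    (CovZ.leaf K2_ok TB_l49886 _)
                    (CovZ.n1 (-13431, 28035) (by decide +kernel)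
                     (CovZ.leaf K2_ok TB_l49887 _)
                     (CovZ.leaf K2_ok TB_l49888 _))))
                  (CovZ.n1 (-13422, 28038) (by decide +kernel)
                   (CovZ.n2 (-13422, 28032) (by decide +kernel)
                    (CovZ.leaf K2_ok TB_l49889 _)
                    (CovZ.leaf K2_ok TB_l49890 _))
                   (CovZ.leaf K2_ok TB_l49891 _))))
                (CovZ.subM 24973988402527937851052777838345330445988785141319769206873255677002973910558124960962448824507935769278615448971252983163583805434306282450321408 (by decide +kernel)
                 (CovZ.n1 (-13404, 28044) (by decide +kernel)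
                  (CovZ.badM (by decide +kernel))
                  (CovZ.n1 (-13416, 28044) (by decide +kernel)
                   (CovZ.n2 (-13410, 28050) (by decide +kernel)
                    (CovZ.n2 (-13410, 28044) (by decide +kernel)
                     (CovZ.leaf K2_ok TB_l49892 _)
                     (CovZ.badM (by decide +kernel)))
                    (CovZ.n1 (-13416, 28050) (by decide +kernel)
                     (CovZ.n2 (-13413, 28053) (by decide +kernel)
                      (CovZ.leaf K2_ok TB_l49893 _)
                      (CovZ.n1 (-13416, 28053) (by decide +kernel)
                       (CovZ.badM (by decide +kernel))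
                       (CovZ.leaf K2_ok TB_l49894 _)))
                     (CovZ.n1 (-13413, 28047) (by decide +kernel)
                      (CovZ.leaf K2_ok TB_l49895 _)
                      (CovZ.leaf K2_ok TB_l49896 _))))
                   (CovZ.n1 (-13410, 28038) (by decide +kernel)
                    (CovZ.n2 (-13416, 28038) (by decide +kernel)
                     (CovZ.leaf K2_ok TB_l49897 _)
                     (CovZ.badM (by decide +kernel)))
                    (CovZ.n1 (-13410, 28044) (by decide +kernel)
                     (CovZ.badM (by decide +kernel))
                     (CovZ.leaf K2_ok TB_l49898 _))))))))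
              (CovZ.badM (by decide +kernel))))
            (CovZ.badM (by decide +kernel))))
          (CovZ.badM (by decide +kernel))))))

theorem TB_u488 : CovZ TB_M (toL (selN TB_LN 138523019045692281719388527685909137299879027328312770856625155876262297685195224774358738163563613249169062016683963080142372737744183069385951232)) [0, 7, 6, 1] (-13440, 28032) (-13824, 27648) (-13056, 27648) :=
    (CovZ.n1 (-13440, 27648) (by decide +kernel)
       (CovZ.n2 (-13632, 27840) (by decide +kernel)
        (CovZ.n2 (-13440, 27840) (by decide +kernel)
         TB_u483
         TB_u484)
        (CovZ.n1 (-13632, 27648) (by decide +kernel)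
         (CovZ.n2 (-13728, 27744) (by decide +kernel)
          (CovZ.n2 (-13632, 27744) (by decide +kernel)
           (CovZ.n2 (-13680, 27696) (by decide +kernel)
            (CovZ.n2 (-13680, 27744) (by decide +kernel)
             (CovZ.leaf K2_ok TB_l48212 _)
             (CovZ.leaf K2_ok TB_l36997 _))
            (CovZ.n1 (-13632, 27696) (by decide +kernel)
             (CovZ.leaf K2_ok TB_l48213 _)
             (CovZ.leaf K2_ok TB_l48214 _)))
           (CovZ.n1 (-13680, 27792) (by decide +kernel)
            (CovZ.n2 (-13632, 27792) (by decide +kernel)
             (CovZ.leaf K2_ok TB_l48215 _)
             (CovZ.n1 (-13656, 27816) (by decide +kernel)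
              (CovZ.leaf K2_ok TB_l48216 _)
              (CovZ.leaf K2_ok TB_l48217 _)))
            (CovZ.n1 (-13680, 27744) (by decide +kernel)
             (CovZ.leaf K2_ok TB_l36998 _)
             (CovZ.leaf K2_ok TB_l48218 _))))
          (CovZ.n1 (-13728, 27648) (by decide +kernel)
           (CovZ.n2 (-13776, 27696) (by decide +kernel)
            (CovZ.leaf K2_ok TB_l36999 _)
            (CovZ.n1 (-13776, 27648) (by decide +kernel)
             (CovZ.leaf K2_ok TB_l37000 _)
             (CovZ.leaf K2_ok TB_l37001 _)))
           (CovZ.n1 (-13680, 27696) (by decide +kernel)
            (CovZ.n2 (-13680, 27648) (by decide +kernel)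
             (CovZ.leaf K2_ok TB_l37002 _)
             (CovZ.leaf K2_ok TB_l48219 _))
            (CovZ.n1 (-13728, 27696) (by decide +kernel)
             (CovZ.leaf K2_ok TB_l37003 _)
             (CovZ.leaf K2_ok TB_l37004 _)))))
         (CovZ.n1 (-13536, 27744) (by decide +kernel)
          (CovZ.subM 101042964901706537146501316983301649671550513857393044861701221321997337797737724902713163898411871565438108898570448619068390307194198378112090112 (by decide +kernel)
           (CovZ.n2 (-13536, 27648) (by decide +kernel)
            (CovZ.n2 (-13584, 27696) (by decide +kernel)
             (CovZ.n2 (-13536, 27696) (by decide +kernel)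
              (CovZ.n2 (-13560, 27672) (by decide +kernel)
               (CovZ.leaf K2_ok TB_l48220 _)
               (CovZ.leaf K2_ok TB_l48221 _))
              (CovZ.n1 (-13560, 27720) (by decide +kernel)
               (CovZ.leaf K2_ok TB_l48222 _)
               (CovZ.leaf K2_ok TB_l48223 _)))
             (CovZ.n1 (-13584, 27648) (by decide +kernel)
              (CovZ.leaf K2_ok TB_l48224 _)
              (CovZ.n1 (-13560, 27672) (by decide +kernel)
               (CovZ.leaf K2_ok TB_l48225 _)
               (CovZ.leaf K2_ok TB_l48226 _))))
            (CovZ.subM 101042583828849785638503770184635126227984252519919495535860746478748386491945118778850573703098727825626497279860498743049371421845324684670795776 (by decide +kernel)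
             (CovZ.n1 (-13488, 27696) (by decide +kernel)
              (CovZ.n2 (-13488, 27648) (by decide +kernel)
               (CovZ.n2 (-13512, 27672) (by decide +kernel)
                (CovZ.leaf K2_ok TB_l48227 _)
                (CovZ.n1 (-13512, 27648) (by decide +kernel)
                 (CovZ.leaf K2_ok TB_l48228 _)
                 (CovZ.leaf K2_ok TB_l48229 _)))
               (CovZ.n1 (-13464, 27672) (by decide +kernel)
                (CovZ.n2 (-13464, 27648) (by decide +kernel)
                 (CovZ.leaf K2_ok TB_l50007 _)
                 (CovZ.badM (by decide +kernel)))
                (CovZ.leaf K2_ok TB_l50008 _)))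
              (CovZ.n1 (-13536, 27696) (by decide +kernel)
               (CovZ.n2 (-13512, 27720) (by decide +kernel)
                (CovZ.n2 (-13512, 27696) (by decide +kernel)
                 (CovZ.leaf K2_ok TB_l48230 _)
                 (CovZ.leaf K2_ok TB_l48231 _))
                (CovZ.leaf K2_ok TB_l48232 _))
               (CovZ.n1 (-13512, 27672) (by decide +kernel)
                (CovZ.leaf K2_ok TB_l48233 _)
                (CovZ.n1 (-13512, 27696) (by decide +kernel)
                 (CovZ.leaf K2_ok TB_l48234 _)
                 (CovZ.leaf K2_ok TB_l48235 _))))))))
          (CovZ.n1 (-13632, 27744) (by decide +kernel)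
           (CovZ.n2 (-13584, 27792) (by decide +kernel)
            (CovZ.subM 101042964901709376360268096697717857967675076375105363773266406158170312368828274274932356859049864499229959537498420347668414784451751247649701888 (by decide +kernel)
             (CovZ.n2 (-13584, 27744) (by decide +kernel)
              (CovZ.n2 (-13608, 27768) (by decide +kernel)
               (CovZ.leaf K2_ok TB_l48236 _)
               (CovZ.leaf K2_ok TB_l48237 _))
              (CovZ.n1 (-13560, 27768) (by decide +kernel)
               (CovZ.n2 (-13560, 27744) (by decide +kernel)
                (CovZ.leaf K2_ok TB_l48238 _)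
                (CovZ.leaf K2_ok TB_l48239 _))
               (CovZ.leaf K2_ok TB_l48240 _))))
            (CovZ.n1 (-13632, 27792) (by decide +kernel)
             (CovZ.n2 (-13608, 27816) (by decide +kernel)
              (CovZ.leaf K2_ok TB_l48241 _)
              (CovZ.leaf K2_ok TB_l48242 _))
             (CovZ.n1 (-13608, 27768) (by decide +kernel)
              (CovZ.leaf K2_ok TB_l48243 _)
              (CovZ.leaf K2_ok TB_l48244 _))))
           (CovZ.subM 101042964901709376360268096697717857967675076375105363773266406158170312368828274274932356859049864499229959537498420347668414784451751247649701888 (by decide +kernel)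
            (CovZ.n1 (-13584, 27696) (by decide +kernel)
             (CovZ.n2 (-13632, 27696) (by decide +kernel)
              (CovZ.n2 (-13608, 27720) (by decide +kernel)
               (CovZ.leaf K2_ok TB_l48245 _)
               (CovZ.leaf K2_ok TB_l48246 _))
              (CovZ.leaf K2_ok TB_l48247 _))
             (CovZ.n1 (-13584, 27744) (by decide +kernel)
              (CovZ.n2 (-13560, 27720) (by decide +kernel)
               (CovZ.leaf K2_ok TB_l48248 _)
               (CovZ.n1 (-13560, 27744) (by decide +kernel)
                (CovZ.leaf K2_ok TB_l48249 _)
                (CovZ.leaf K2_ok TB_l48250 _)))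
              (CovZ.n1 (-13608, 27720) (by decide +kernel)
               (CovZ.leaf K2_ok TB_l48251 _)
               (CovZ.leaf K2_ok TB_l48252 _)))))))))
       (CovZ.subM 37479482511495269062030534707649018155854923081203348598439768599813665792561815024830181482777517900147214122821247422177811580565603865178669056 (by decide +kernel)
        (CovZ.n1 (-13248, 27840) (by decide +kernel)
         (CovZ.badM (by decide +kernel))
         (CovZ.n1 (-13440, 27840) (by decide +kernel)
          (CovZ.n2 (-13344, 27936) (by decide +kernel)
           (CovZ.n2 (-13344, 27840) (by decide +kernel)
            (CovZ.n2 (-13392, 27888) (by decide +kernel)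
             (CovZ.badM (by decide +kernel))
             (CovZ.n1 (-13392, 27840) (by decide +kernel)
              (CovZ.n2 (-13416, 27864) (by decide +kernel)
               (CovZ.subM 12493091366406983275386865530094521593184432836831914948346019301784204401637543579646407806387499634979180539316416446092183529059757490232623104 (by decide +kernel)
                (CovZ.n2 (-13392, 27864) (by decide +kernel)
                 (CovZ.n2 (-13404, 27852) (by decide +kernel)
                  (CovZ.n2 (-13404, 27864) (by decide +kernel)
                   (CovZ.badM (by decide +kernel))
                   (CovZ.leaf K2_ok TB_l50009 _))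
                  (CovZ.badM (by decide +kernel)))
                 (CovZ.n1 (-13404, 27876) (by decide +kernel)
                  (CovZ.badM (by decide +kernel))
                  (CovZ.n1 (-13404, 27864) (by decide +kernel)
                   (CovZ.leaf K2_ok TB_l50010 _)
                   (CovZ.badM (by decide +kernel))))))
               (CovZ.n1 (-13416, 27840) (by decide +kernel)
                (CovZ.n2 (-13428, 27852) (by decide +kernel)
                 (CovZ.leaf K2_ok TB_l50011 _)
                 (CovZ.n1 (-13428, 27840) (by decide +kernel)
                  (CovZ.leaf K2_ok TB_l50012 _)
                  (CovZ.leaf K2_ok TB_l50013 _)))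
                (CovZ.n1 (-13404, 27852) (by decide +kernel)
                 (CovZ.n2 (-13404, 27840) (by decide +kernel)
                  (CovZ.leaf K2_ok TB_l50014 _)
                  (CovZ.badM (by decide +kernel)))
                 (CovZ.leaf K2_ok TB_l50015 _))))
              (CovZ.badM (by decide +kernel))))
            (CovZ.badM (by decide +kernel)))
           (CovZ.n1 (-13440, 27936) (by decide +kernel)
            TB_u485
            TB_u486))
          (CovZ.badM (by decide +kernel))))))

theorem TB_u489 : CovZ TB_M (toL (selN TB_LN 24974369498634833054442037946758261097709581360825034441347878411587466728709887613843940339060578880813891337792313002346230450243384458294067200)) [0, 7, 6, 1] (-13632, 28416) (-13632, 28512) (-13728, 28512) :=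
    (CovZ.n2 (-13680, 28464) (by decide +kernel)
              (CovZ.n2 (-13680, 28512) (by decide +kernel)
               (CovZ.n2 (-13656, 28488) (by decide +kernel)
                (CovZ.subM 26972530784407286953978813183343918267029659869255943643258425360219036082333126060932871022581069815731421700232533946752260607311872 (by decide +kernel)
                 (CovZ.n2 (-13680, 28488) (by decide +kernel)
                  (CovZ.n2 (-13668, 28500) (by decide +kernel)
                   (CovZ.n2 (-13668, 28488) (by decide +kernel)
                    (CovZ.leaf K2_ok TB_l50152 _)
                    (CovZ.n1 (-13662, 28494) (by decide +kernel)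
                     (CovZ.leaf K2_ok TB_l50153 _)
                     (CovZ.leaf K2_ok TB_l50154 _)))
                   (CovZ.n1 (-13680, 28500) (by decide +kernel)
                    (CovZ.leaf K2_ok TB_l50155 _)
                    (CovZ.leaf K2_ok TB_l50156 _)))
                  (CovZ.n1 (-13668, 28476) (by decide +kernel)
                   (CovZ.n2 (-13680, 28476) (by decide +kernel)
                    (CovZ.n2 (-13674, 28482) (by decide +kernel)
                     (CovZ.leaf K2_ok TB_l50157 _)
                     (CovZ.leaf K2_ok TB_l50158 _))
                    (CovZ.leaf K2_ok TB_l50159 _))
                   (CovZ.n1 (-13668, 28488) (by decide +kernel)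
                    (CovZ.n2 (-13662, 28482) (by decide +kernel)
                     (CovZ.leaf K2_ok TB_l50160 _)
                     (CovZ.leaf K2_ok TB_l50161 _))
                    (CovZ.n1 (-13674, 28482) (by decide +kernel)
                     (CovZ.leaf K2_ok TB_l50162 _)
                     (CovZ.leaf K2_ok TB_l50163 _))))))
                (CovZ.n1 (-13656, 28512) (by decide +kernel)
                 (CovZ.n2 (-13644, 28500) (by decide +kernel)
                  (CovZ.subM 26972530784407286953978813183343918267029659869255943643258425360219036082333126060932871022581069815731421700232533946752260607311872 (by decide +kernel)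
                   (CovZ.n2 (-13656, 28500) (by decide +kernel)
                    (CovZ.n2 (-13650, 28506) (by decide +kernel)
                     (CovZ.n2 (-13650, 28500) (by decide +kernel)
                      (CovZ.leaf K2_ok TB_l50164 _)
                      (CovZ.leaf K2_ok TB_l50165 _))
                     (CovZ.leaf K2_ok TB_l50166 _))
                    (CovZ.leaf K2_ok TB_l50167 _)))
                  (CovZ.subM 24133317017627572537770517058781400554710748304071107470283854269669663863140165422939937230730430887759693100208056689199391069700096 (by decide +kernel)
                   (CovZ.n1 (-13644, 28512) (by decide +kernel)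
                    (CovZ.n2 (-13638, 28506) (by decide +kernel)
                     (CovZ.n2 (-13644, 28506) (by decide +kernel)
                      (CovZ.leaf K2_ok TB_l50168 _)
                      (CovZ.leaf K2_ok TB_l50169 _))
                     (CovZ.n1 (-13638, 28512) (by decide +kernel)
                      (CovZ.leaf K2_ok TB_l50170 _)
                      (CovZ.leaf K2_ok TB_l50171 _)))
                    (CovZ.n1 (-13650, 28506) (by decide +kernel)
                     (CovZ.n2 (-13650, 28512) (by decide +kernel)
                      (CovZ.leaf K2_ok TB_l50172 _)
                      (CovZ.leaf K2_ok TB_l50173 _))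
                     (CovZ.leaf K2_ok TB_l50174 _)))))
                 (CovZ.subM 26972530784407286953978813183343918267029659869255943643258425360219036082333126060932871022581069815731421700232533946752260607311872 (by decide +kernel)
                  (CovZ.n1 (-13668, 28500) (by decide +kernel)
                   (CovZ.n2 (-13668, 28512) (by decide +kernel)
                    (CovZ.leaf K2_ok TB_l50175 _)
                    (CovZ.n1 (-13674, 28506) (by decide +kernel)
                     (CovZ.leaf K2_ok TB_l50176 _)
                     (CovZ.leaf K2_ok TB_l50177 _)))
                   (CovZ.n1 (-13656, 28500) (by decide +kernel)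
                    (CovZ.leaf K2_ok TB_l50178 _)
                    (CovZ.n1 (-13662, 28506) (by decide +kernel)
                     (CovZ.leaf K2_ok TB_l50179 _)
                     (CovZ.leaf K2_ok TB_l50180 _)))))))
               (CovZ.n1 (-13704, 28488) (by decide +kernel)
                (CovZ.n2 (-13704, 28512) (by decide +kernel)
                 (CovZ.n2 (-13692, 28500) (by decide +kernel)
                  (CovZ.n2 (-13704, 28500) (by decide +kernel)
                   (CovZ.n2 (-13698, 28506) (by decide +kernel)
                    (CovZ.n2 (-13698, 28500) (by decide +kernel)
                     (CovZ.leaf K2_ok TB_l50181 _)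
                     (CovZ.leaf K2_ok TB_l50182 _))
                    (CovZ.leaf K2_ok TB_l50183 _))
                   (CovZ.leaf K2_ok TB_l50184 _))
                  (CovZ.n1 (-13692, 28512) (by decide +kernel)
                   (CovZ.leaf K2_ok TB_l50185 _)
                   (CovZ.leaf K2_ok TB_l50186 _)))
                 (CovZ.n1 (-13716, 28500) (by decide +kernel)
                  (CovZ.n2 (-13716, 28512) (by decide +kernel)
                   (CovZ.leaf K2_ok TB_l50187 _)
                   (CovZ.leaf K2_ok TB_l50188 _))
                  (CovZ.leaf K2_ok TB_l50189 _)))
                (CovZ.n1 (-13680, 28488) (by decide +kernel)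
                 (CovZ.n2 (-13692, 28476) (by decide +kernel)
                  (CovZ.n2 (-13692, 28488) (by decide +kernel)
                   (CovZ.leaf K2_ok TB_l50190 _)
                   (CovZ.leaf K2_ok TB_l50191 _))
                  (CovZ.n1 (-13680, 28476) (by decide +kernel)
                   (CovZ.leaf K2_ok TB_l50192 _)
                   (CovZ.n1 (-13686, 28482) (by decide +kernel)
                    (CovZ.leaf K2_ok TB_l50193 _)
                    (CovZ.leaf K2_ok TB_l50194 _))))
                 (CovZ.n1 (-13692, 28500) (by decide +kernel)
                  (CovZ.leaf K2_ok TB_l50195 _)
                  (CovZ.n1 (-13692, 28488) (by decide +kernel)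
                   (CovZ.leaf K2_ok TB_l50196 _)
                   (CovZ.leaf K2_ok TB_l50197 _))))))
              (CovZ.n1 (-13632, 28464) (by decide +kernel)
               (CovZ.n2 (-13656, 28440) (by decide +kernel)
                (CovZ.n2 (-13656, 28464) (by decide +kernel)
                 (CovZ.n2 (-13644, 28452) (by decide +kernel)
                  (CovZ.n2 (-13656, 28452) (by decide +kernel)
                   (CovZ.n2 (-13650, 28458) (by decide +kernel)
                    (CovZ.leaf K2_ok TB_l50198 _)
                    (CovZ.leaf K2_ok TB_l50199 _))
                   (CovZ.leaf K2_ok TB_l50200 _))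
                  (CovZ.n1 (-13644, 28464) (by decide +kernel)
                   (CovZ.n2 (-13638, 28458) (by decide +kernel)
                    (CovZ.leaf K2_ok TB_l50201 _)
                    (CovZ.leaf K2_ok TB_l50202 _))
                   (CovZ.n1 (-13650, 28458) (by decide +kernel)
                    (CovZ.n2 (-13650, 28464) (by decide +kernel)
                     (CovZ.leaf K2_ok TB_l50203 _)
                     (CovZ.leaf K2_ok TB_l50204 _))
                    (CovZ.leaf K2_ok TB_l50205 _))))
                 (CovZ.subM 26972530784407286953978813183343918267029659869255943643258425360219036082333126060932871022581069815731421700232533946752260607311872 (by decide +kernel)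
                  (CovZ.n1 (-13668, 28452) (by decide +kernel)
                   (CovZ.n2 (-13668, 28464) (by decide +kernel)
                    (CovZ.leaf K2_ok TB_l50206 _)
                    (CovZ.leaf K2_ok TB_l50207 _))
                   (CovZ.n1 (-13656, 28452) (by decide +kernel)
                    (CovZ.n2 (-13662, 28446) (by decide +kernel)
                     (CovZ.leaf K2_ok TB_l50208 _)
                     (CovZ.leaf K2_ok TB_l50209 _))
                    (CovZ.leaf K2_ok TB_l50210 _)))))
                (CovZ.n1 (-13632, 28440) (by decide +kernel)
                 (CovZ.n2 (-13644, 28428) (by decide +kernel)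
                  (CovZ.n2 (-13644, 28440) (by decide +kernel)
                   (CovZ.n2 (-13638, 28434) (by decide +kernel)
                    (CovZ.leaf K2_ok TB_l50211 _)
                    (CovZ.leaf K2_ok TB_l50212 _))
                   (CovZ.n1 (-13650, 28434) (by decide +kernel)
                    (CovZ.leaf K2_ok TB_l50213 _)
                    (CovZ.leaf K2_ok TB_l50214 _)))
                  (CovZ.n1 (-13632, 28428) (by decide +kernel)
                   (CovZ.leaf K2_ok TB_l50215 _)
                   (CovZ.n1 (-13638, 28434) (by decide +kernel)
                    (CovZ.leaf K2_ok TB_l50216 _)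
                    (CovZ.leaf K2_ok TB_l50217 _))))
                 (CovZ.n1 (-13644, 28452) (by decide +kernel)
                  (CovZ.n2 (-13632, 28452) (by decide +kernel)
                   (CovZ.n2 (-13638, 28446) (by decide +kernel)
                    (CovZ.leaf K2_ok TB_l50218 _)
                    (CovZ.leaf K2_ok TB_l50219 _))
                   (CovZ.n1 (-13638, 28458) (by decide +kernel)
                    (CovZ.leaf K2_ok TB_l50220 _)
                    (CovZ.leaf K2_ok TB_l50221 _)))
                  (CovZ.n1 (-13644, 28440) (by decide +kernel)
                   (CovZ.leaf K2_ok TB_l50222 _)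
                   (CovZ.n1 (-13638, 28446) (by decide +kernel)
                    (CovZ.leaf K2_ok TB_l50223 _)
                    (CovZ.leaf K2_ok TB_l50224 _))))))
               (CovZ.n1 (-13656, 28488) (by decide +kernel)
                (CovZ.n2 (-13632, 28488) (by decide +kernel)
                 (CovZ.n2 (-13644, 28476) (by decide +kernel)
                  (CovZ.n2 (-13644, 28488) (by decide +kernel)
                   (CovZ.n2 (-13638, 28482) (by decide +kernel)
                    (CovZ.leaf K2_ok TB_l50225 _)
                    (CovZ.leaf K2_ok TB_l50226 _))
                   (CovZ.n1 (-13650, 28482) (by decide +kernel)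
                    (CovZ.leaf K2_ok TB_l50227 _)
                    (CovZ.n1 (-13644, 28482) (by decide +kernel)
                     (CovZ.leaf K2_ok TB_l50228 _)
                     (CovZ.leaf K2_ok TB_l50229 _))))
                  (CovZ.n1 (-13632, 28476) (by decide +kernel)
                   (CovZ.n2 (-13638, 28470) (by decide +kernel)
                    (CovZ.leaf K2_ok TB_l50230 _)
                    (CovZ.n1 (-13632, 28470) (by decide +kernel)
                     (CovZ.leaf K2_ok TB_l50231 _)
                     (CovZ.leaf K2_ok TB_l50232 _)))
                   (CovZ.n1 (-13638, 28482) (by decide +kernel)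
                    (CovZ.subM 26972530784407286953978813183343918267029659869255943643258425360219036082333126060932871022581069815731421700232533946752260607311872 (by decide +kernel)
                     (CovZ.n2 (-13632, 28482) (by decide +kernel)
                      (CovZ.n2 (-13635, 28479) (by decide +kernel)
                       (CovZ.leaf K2_ok TB_l50233 _)
                       (CovZ.leaf K2_ok TB_l50234 _))
                      (CovZ.n1 (-13635, 28485) (by decide +kernel)
                       (CovZ.leaf K2_ok TB_l50235 _)
                       (CovZ.leaf K2_ok TB_l50236 _))))
                    (CovZ.n1 (-13638, 28476) (by decide +kernel)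
                     (CovZ.leaf K2_ok TB_l50237 _)
                     (CovZ.leaf K2_ok TB_l50238 _)))))
                 (CovZ.n1 (-13644, 28500) (by decide +kernel)
                  (CovZ.subM 24133317017627572537770517058781400554710748304071107470283854269669663863140165422939937230730430887759693100208056689199391069700096 (by decide +kernel)
                   (CovZ.n2 (-13632, 28500) (by decide +kernel)
                    (CovZ.n2 (-13638, 28494) (by decide +kernel)
                     (CovZ.n2 (-13638, 28500) (by decide +kernel)
                      (CovZ.leaf K2_ok TB_l50239 _)
                      (CovZ.leaf K2_ok TB_l50240 _))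
                     (CovZ.leaf K2_ok TB_l50241 _))
                    (CovZ.n1 (-13638, 28506) (by decide +kernel)
                     (CovZ.n2 (-13632, 28506) (by decide +kernel)
                      (CovZ.leaf K2_ok TB_l50242 _)
                      (CovZ.n1 (-13635, 28509) (by decide +kernel)
                       (CovZ.leaf K2_ok TB_l50243 _)
                       (CovZ.n1 (-13635, 28506) (by decide +kernel)
                        (CovZ.leaf K2_ok TB_l50244 _)
                        (CovZ.leaf K2_ok TB_l50245 _))))
                     (CovZ.n1 (-13638, 28500) (by decide +kernel)
                      (CovZ.leaf K2_ok TB_l50246 _)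
                      (CovZ.leaf K2_ok TB_l50247 _)))))
                  (CovZ.n1 (-13644, 28488) (by decide +kernel)
                   (CovZ.n2 (-13650, 28494) (by decide +kernel)
                    (CovZ.leaf K2_ok TB_l50248 _)
                    (CovZ.n1 (-13650, 28488) (by decide +kernel)
                     (CovZ.leaf K2_ok TB_l50249 _)
                     (CovZ.leaf K2_ok TB_l50250 _)))
                   (CovZ.n1 (-13638, 28494) (by decide +kernel)
                    (CovZ.n2 (-13638, 28488) (by decide +kernel)
                     (CovZ.leaf K2_ok TB_l50251 _)
                     (CovZ.leaf K2_ok TB_l50252 _))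
                    (CovZ.leaf K2_ok TB_l50253 _)))))
                (CovZ.n1 (-13656, 28464) (by decide +kernel)
                 (CovZ.subM 26972530784407286953978813183343918267029659869255943643258425360219036082333126060932871022581069815731421700232533946752260607311872 (by decide +kernel)
                  (CovZ.n2 (-13668, 28476) (by decide +kernel)
                   (CovZ.n2 (-13656, 28476) (by decide +kernel)
                    (CovZ.n2 (-13662, 28470) (by decide +kernel)
                     (CovZ.leaf K2_ok TB_l50254 _)
                     (CovZ.leaf K2_ok TB_l50255 _))
                    (CovZ.n1 (-13662, 28482) (by decide +kernel)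
                     (CovZ.leaf K2_ok TB_l50256 _)
                     (CovZ.leaf K2_ok TB_l50257 _)))
                   (CovZ.n1 (-13668, 28464) (by decide +kernel)
                    (CovZ.leaf K2_ok TB_l50258 _)
                    (CovZ.n1 (-13662, 28470) (by decide +kernel)
                     (CovZ.leaf K2_ok TB_l50259 _)
                     (CovZ.leaf K2_ok TB_l50260 _)))))
                 (CovZ.n1 (-13644, 28476) (by decide +kernel)
                  (CovZ.n2 (-13644, 28464) (by decide +kernel)
                   (CovZ.n2 (-13650, 28470) (by decide +kernel)
                    (CovZ.leaf K2_ok TB_l50261 _)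
                    (CovZ.leaf K2_ok TB_l50262 _))
                   (CovZ.n1 (-13638, 28470) (by decide +kernel)
                    (CovZ.leaf K2_ok TB_l50263 _)
                    (CovZ.leaf K2_ok TB_l50264 _)))
                  (CovZ.subM 26972530784407286953978813183343918267029659869255943643258425360219036082333126060932871022581069815731421700232533946752260607311872 (by decide +kernel)
                   (CovZ.n1 (-13656, 28476) (by decide +kernel)
                    (CovZ.n2 (-13650, 28482) (by decide +kernel)
                     (CovZ.leaf K2_ok TB_l50265 _)
                     (CovZ.leaf K2_ok TB_l50266 _))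
                    (CovZ.n1 (-13650, 28470) (by decide +kernel)
                     (CovZ.leaf K2_ok TB_l50267 _)
                     (CovZ.leaf K2_ok TB_l50268 _)))))))))

theorem TB_u490 : CovZ TB_M (toL (selN TB_LN 29072431085626112098508649424987634925667197001065717130664338451432990639857488612667645340143080137577458768822115756336813030450472624832120832)) [0, 7, 6, 1] (-13824, 28416) (-13632, 28416) (-13632, 28608) :=
    (CovZ.n2 (-13728, 28512) (by decide +kernel)
           (CovZ.subM 24974369498634833054442037946758261097709581360825034441347878411587466728709887613843940339060578880813891337792313002346230450243384458294067200 (by decide +kernel)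
            (CovZ.n2 (-13632, 28512) (by decide +kernel)
             TB_u489
             (CovZ.subM 24973988425789616242278978050339900594529492758348611660432618442183634855429131552810375331584042325910900185843625403164125976564966404103602176 (by decide +kernel)
              (CovZ.n1 (-13680, 28560) (by decide +kernel)
               (CovZ.badM (by decide +kernel))
               (CovZ.n1 (-13680, 28512) (by decide +kernel)
                (CovZ.n2 (-13704, 28536) (by decide +kernel)
                 (CovZ.n2 (-13680, 28536) (by decide +kernel)
                  (CovZ.n2 (-13692, 28524) (by decide +kernel)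
                   (CovZ.n2 (-13692, 28536) (by decide +kernel)
                    (CovZ.badM (by decide +kernel))
                    (CovZ.leaf K2_ok TB_l50269 _))
                   (CovZ.badM (by decide +kernel)))
                  (CovZ.n1 (-13692, 28548) (by decide +kernel)
                   (CovZ.badM (by decide +kernel))
                   (CovZ.n1 (-13692, 28536) (by decide +kernel)
                    (CovZ.leaf K2_ok TB_l50270 _)
                    (CovZ.badM (by decide +kernel)))))
                 (CovZ.n1 (-13704, 28512) (by decide +kernel)
                  (CovZ.n2 (-13716, 28524) (by decide +kernel)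
                   (CovZ.n2 (-13704, 28524) (by decide +kernel)
                    (CovZ.leaf K2_ok TB_l50271 _)
                    (CovZ.leaf K2_ok TB_l50272 _))
                   (CovZ.n1 (-13716, 28512) (by decide +kernel)
                    (CovZ.leaf K2_ok TB_l50273 _)
                    (CovZ.leaf K2_ok TB_l50274 _)))
                  (CovZ.n1 (-13692, 28524) (by decide +kernel)
                   (CovZ.n2 (-13692, 28512) (by decide +kernel)
                    (CovZ.leaf K2_ok TB_l50275 _)
                    (CovZ.badM (by decide +kernel)))
                   (CovZ.n1 (-13704, 28524) (by decide +kernel)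
                    (CovZ.leaf K2_ok TB_l50276 _)
                    (CovZ.leaf K2_ok TB_l50277 _)))))
                (CovZ.n1 (-13656, 28536) (by decide +kernel)
                 (CovZ.n2 (-13656, 28512) (by decide +kernel)
                  (CovZ.badM (by decide +kernel))
                  (CovZ.badM (by decide +kernel)))
                 (CovZ.badM (by decide +kernel))))))))
           (CovZ.n1 (-13728, 28416) (by decide +kernel)
            (CovZ.n2 (-13776, 28464) (by decide +kernel)
             (CovZ.subM 381096106895203389260108412949890981634302747068105099671632833421079743203309837872348680281903391696739979360634051488184307748535793614848 (by decide +kernel)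
              (CovZ.n2 (-13728, 28464) (by decide +kernel)
               (CovZ.n2 (-13752, 28440) (by decide +kernel)
                (CovZ.n2 (-13752, 28464) (by decide +kernel)
                 (CovZ.leaf K2_ok TB_l50278 _)
                 (CovZ.leaf K2_ok TB_l50279 _))
                (CovZ.n1 (-13728, 28440) (by decide +kernel)
                 (CovZ.n2 (-13740, 28428) (by decide +kernel)
                  (CovZ.leaf K2_ok TB_l50280 _)
                  (CovZ.leaf K2_ok TB_l50281 _))
                 (CovZ.n1 (-13740, 28452) (by decide +kernel)
                  (CovZ.leaf K2_ok TB_l50282 _)
                  (CovZ.leaf K2_ok TB_l50283 _))))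
               (CovZ.subM 23285811708243827784532340665599489017583553201863433872650944799140676255711066672499046493863015167760132113100750227819859512722980864 (by decide +kernel)
                (CovZ.n1 (-13752, 28488) (by decide +kernel)
                 (CovZ.n2 (-13728, 28488) (by decide +kernel)
                  (CovZ.n2 (-13740, 28476) (by decide +kernel)
                   (CovZ.n2 (-13740, 28488) (by decide +kernel)
                    (CovZ.leaf K2_ok TB_l50284 _)
                    (CovZ.leaf K2_ok TB_l50285 _))
                   (CovZ.leaf K2_ok TB_l50286 _))
                  (CovZ.n1 (-13740, 28500) (by decide +kernel)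
                   (CovZ.leaf K2_ok TB_l50287 _)
                   (CovZ.leaf K2_ok TB_l50288 _)))
                 (CovZ.n1 (-13752, 28464) (by decide +kernel)
                  (CovZ.n2 (-13764, 28476) (by decide +kernel)
                   (CovZ.leaf K2_ok TB_l50289 _)
                   (CovZ.leaf K2_ok TB_l50290 _))
                  (CovZ.n1 (-13740, 28476) (by decide +kernel)
                   (CovZ.leaf K2_ok TB_l50291 _)
                   (CovZ.leaf K2_ok TB_l50292 _)))))))
             (CovZ.n1 (-13776, 28416) (by decide +kernel)
              (CovZ.n2 (-13800, 28440) (by decide +kernel)
               (CovZ.n2 (-13776, 28440) (by decide +kernel)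
                (CovZ.leaf K2_ok TB_l48253 _)
                (CovZ.leaf K2_ok TB_l50293 _))
               (CovZ.n1 (-13800, 28416) (by decide +kernel)
                (CovZ.leaf K2_ok TB_l48254 _)
                (CovZ.leaf K2_ok TB_l48255 _)))
              (CovZ.subM 195490380592854460108408260895714298092492568171873836059931804866814909703337243636965340617273149652387698735540329258240014686589987521036288 (by decide +kernel)
               (CovZ.n1 (-13752, 28440) (by decide +kernel)
                (CovZ.n2 (-13752, 28416) (by decide +kernel)
                 (CovZ.leaf K2_ok TB_l48256 _)
                 (CovZ.leaf K2_ok TB_l50294 _))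
                (CovZ.n1 (-13776, 28440) (by decide +kernel)
                 (CovZ.leaf K2_ok TB_l50295 _)
                 (CovZ.leaf K2_ok TB_l48257 _))))))
            (CovZ.subM 28096118048950825285823635176551427403458179503490005592207035371212838467529653233964246442124070851973718268913719625241678425922672743600357376 (by decide +kernel)
             (CovZ.n1 (-13680, 28464) (by decide +kernel)
              (CovZ.n2 (-13680, 28416) (by decide +kernel)
               (CovZ.n2 (-13704, 28440) (by decide +kernel)
                (CovZ.n2 (-13680, 28440) (by decide +kernel)
                 (CovZ.n2 (-13692, 28428) (by decide +kernel)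
                  (CovZ.n2 (-13692, 28440) (by decide +kernel)
                   (CovZ.leaf K2_ok TB_l50296 _)
                   (CovZ.leaf K2_ok TB_l50297 _))
                  (CovZ.leaf K2_ok TB_l50298 _))
                 (CovZ.subM 23285811708243827784532340665599489017583553201863433872650944799140676255711066672499046493863015167760132113100750227819859512722980864 (by decide +kernel)
                  (CovZ.n1 (-13692, 28452) (by decide +kernel)
                   (CovZ.n2 (-13680, 28452) (by decide +kernel)
                    (CovZ.leaf K2_ok TB_l50299 _)
                    (CovZ.leaf K2_ok TB_l50300 _))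
                   (CovZ.n1 (-13692, 28440) (by decide +kernel)
                    (CovZ.leaf K2_ok TB_l50301 _)
                    (CovZ.leaf K2_ok TB_l50302 _)))))
                (CovZ.n1 (-13704, 28416) (by decide +kernel)
                 (CovZ.n2 (-13716, 28428) (by decide +kernel)
                  (CovZ.leaf K2_ok TB_l50303 _)
                  (CovZ.leaf K2_ok TB_l50304 _))
                 (CovZ.n1 (-13692, 28428) (by decide +kernel)
                  (CovZ.n2 (-13692, 28416) (by decide +kernel)
                   (CovZ.leaf K2_ok TB_l50305 _)
                   (CovZ.leaf K2_ok TB_l50306 _))
                  (CovZ.leaf K2_ok TB_l50307 _))))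
               (CovZ.n1 (-13656, 28440) (by decide +kernel)
                (CovZ.n2 (-13656, 28416) (by decide +kernel)
                 (CovZ.subM 381072848056025929839610834568799304651120188741692480444805576806444371305433252757968114529488694841790876659327782128950935970923728076800 (by decide +kernel)
                  (CovZ.n2 (-13668, 28428) (by decide +kernel)
                   (CovZ.n2 (-13656, 28428) (by decide +kernel)
                    (CovZ.leaf K2_ok TB_l50308 _)
                    (CovZ.leaf K2_ok TB_l50309 _))
                   (CovZ.n1 (-13668, 28416) (by decide +kernel)
                    (CovZ.leaf K2_ok TB_l50310 _)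
                    (CovZ.n1 (-13662, 28422) (by decide +kernel)
                     (CovZ.leaf K2_ok TB_l50311 _)
                     (CovZ.leaf K2_ok TB_l50312 _)))))
                 (CovZ.n1 (-13644, 28428) (by decide +kernel)
                  (CovZ.n2 (-13644, 28416) (by decide +kernel)
                   (CovZ.leaf K2_ok TB_l50313 _)
                   (CovZ.leaf K2_ok TB_l50314 _))
                  (CovZ.n1 (-13656, 28428) (by decide +kernel)
                   (CovZ.leaf K2_ok TB_l50315 _)
                   (CovZ.leaf K2_ok TB_l50316 _))))
                (CovZ.subM 381072848056025929839610834568799304651120188741692480444805576806444371305433252757968114529488694841790876659327782128950935970923728076800 (by decide +kernel)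
                 (CovZ.n1 (-13680, 28440) (by decide +kernel)
                  (CovZ.n2 (-13668, 28452) (by decide +kernel)
                   (CovZ.n2 (-13668, 28440) (by decide +kernel)
                    (CovZ.leaf K2_ok TB_l50317 _)
                    (CovZ.leaf K2_ok TB_l50318 _))
                   (CovZ.n1 (-13680, 28452) (by decide +kernel)
                    (CovZ.n2 (-13674, 28458) (by decide +kernel)
                     (CovZ.leaf K2_ok TB_l50319 _)
                     (CovZ.leaf K2_ok TB_l50320 _))
                    (CovZ.leaf K2_ok TB_l50321 _)))
                  (CovZ.n1 (-13668, 28428) (by decide +kernel)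
                   (CovZ.leaf K2_ok TB_l50322 _)
                   (CovZ.n1 (-13668, 28440) (by decide +kernel)
                    (CovZ.leaf K2_ok TB_l50323 _)
                    (CovZ.leaf K2_ok TB_l50324 _)))))))
              (CovZ.n1 (-13728, 28464) (by decide +kernel)
               (CovZ.subM 23285811708243827784532340665599489017583553201863433872650944799140676255711066672499046493863015167760132113100750227819859512722980864 (by decide +kernel)
                (CovZ.n2 (-13704, 28488) (by decide +kernel)
                 (CovZ.n2 (-13704, 28464) (by decide +kernel)
                  (CovZ.n2 (-13716, 28476) (by decide +kernel)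
                   (CovZ.leaf K2_ok TB_l50325 _)
                   (CovZ.n1 (-13716, 28464) (by decide +kernel)
                    (CovZ.leaf K2_ok TB_l50326 _)
                    (CovZ.leaf K2_ok TB_l50327 _)))
                  (CovZ.n1 (-13692, 28476) (by decide +kernel)
                   (CovZ.n2 (-13692, 28464) (by decide +kernel)
                    (CovZ.leaf K2_ok TB_l50328 _)
                    (CovZ.leaf K2_ok TB_l50329 _))
                   (CovZ.n1 (-13704, 28476) (by decide +kernel)
                    (CovZ.leaf K2_ok TB_l50330 _)
                    (CovZ.leaf K2_ok TB_l50331 _))))
                 (CovZ.n1 (-13728, 28488) (by decide +kernel)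
                  (CovZ.n2 (-13716, 28500) (by decide +kernel)
                   (CovZ.leaf K2_ok TB_l50332 _)
                   (CovZ.leaf K2_ok TB_l50333 _))
                  (CovZ.n1 (-13716, 28476) (by decide +kernel)
                   (CovZ.n2 (-13728, 28476) (by decide +kernel)
                    (CovZ.leaf K2_ok TB_l50334 _)
                    (CovZ.leaf K2_ok TB_l50335 _))
                   (CovZ.n1 (-13716, 28488) (by decide +kernel)
                    (CovZ.leaf K2_ok TB_l50336 _)
                    (CovZ.leaf K2_ok TB_l50337 _))))))
               (CovZ.n1 (-13704, 28440) (by decide +kernel)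
                (CovZ.n2 (-13728, 28440) (by decide +kernel)
                 (CovZ.n2 (-13716, 28452) (by decide +kernel)
                  (CovZ.leaf K2_ok TB_l50338 _)
                  (CovZ.leaf K2_ok TB_l50339 _))
                 (CovZ.n1 (-13716, 28428) (by decide +kernel)
                  (CovZ.leaf K2_ok TB_l50340 _)
                  (CovZ.leaf K2_ok TB_l50341 _)))
                (CovZ.subM 23285811708243827784532340665599489017583553201863433872650944799140676255711066672499046493863015167760132113100750227819859512722980864 (by decide +kernel)
                 (CovZ.n1 (-13704, 28464) (by decide +kernel)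
                  (CovZ.n2 (-13692, 28452) (by decide +kernel)
                   (CovZ.leaf K2_ok TB_l50342 _)
                   (CovZ.n1 (-13692, 28464) (by decide +kernel)
                    (CovZ.leaf K2_ok TB_l50343 _)
                    (CovZ.leaf K2_ok TB_l50344 _)))
                  (CovZ.n1 (-13716, 28452) (by decide +kernel)
                   (CovZ.n2 (-13716, 28464) (by decide +kernel)
                    (CovZ.leaf K2_ok TB_l50345 _)
                    (CovZ.leaf K2_ok TB_l50346 _))
                   (CovZ.leaf K2_ok TB_l50347 _))))))))))

theorem TB_u491 : CovZ TB_M (toL (selN TB_LN 29072431085626112098508649424987634925667197001065717130664338451432990639857488612667645340143080137577458768822115756336813030450472624832120832)) [0, 7, 6, 1] (-13632, 28416) (-13440, 28416) (-13632, 28608) :=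
    (CovZ.subM 24974369475375993876982617449179899245293436261508510899353700482579780354929430394215206792622465257973457239847912310945712756370277206178398208 (by decide +kernel)
           (CovZ.n1 (-13536, 28512) (by decide +kernel)
            (CovZ.n2 (-13536, 28416) (by decide +kernel)
             (CovZ.n2 (-13584, 28464) (by decide +kernel)
              (CovZ.badM (by decide +kernel))
              (CovZ.n1 (-13584, 28416) (by decide +kernel)
               (CovZ.n2 (-13608, 28440) (by decide +kernel)
                (CovZ.n2 (-13584, 28440) (by decide +kernel)
                 (CovZ.n2 (-13596, 28428) (by decide +kernel)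
                  (CovZ.n2 (-13596, 28440) (by decide +kernel)
                   (CovZ.badM (by decide +kernel))
                   (CovZ.n1 (-13602, 28434) (by decide +kernel)
                    (CovZ.n2 (-13602, 28440) (by decide +kernel)
                     (CovZ.leaf K2_ok TB_l50348 _)
                     (CovZ.leaf K2_ok TB_l50349 _))
                    (CovZ.n1 (-13596, 28434) (by decide +kernel)
                     (CovZ.n2 (-13599, 28431) (by decide +kernel)
                      (CovZ.n2 (-13599, 28434) (by decide +kernel)
                       (CovZ.badM (by decide +kernel))
                       (CovZ.leaf K2_ok TB_l50350 _))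
                      (CovZ.badM (by decide +kernel)))
                     (CovZ.n1 (-13599, 28437) (by decide +kernel)
                      (CovZ.badM (by decide +kernel))
                      (CovZ.n1 (-13599, 28434) (by decide +kernel)
                       (CovZ.leaf K2_ok TB_l50351 _)
                       (CovZ.badM (by decide +kernel)))))))
                  (CovZ.badM (by decide +kernel)))
                 (CovZ.badM (by decide +kernel)))
                (CovZ.n1 (-13608, 28416) (by decide +kernel)
                 (CovZ.n2 (-13620, 28428) (by decide +kernel)
                  (CovZ.n2 (-13608, 28428) (by decide +kernel)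
                   (CovZ.n2 (-13614, 28422) (by decide +kernel)
                    (CovZ.n2 (-13614, 28428) (by decide +kernel)
                     (CovZ.leaf K2_ok TB_l50352 _)
                     (CovZ.leaf K2_ok TB_l50353 _))
                    (CovZ.leaf K2_ok TB_l50354 _))
                   (CovZ.n1 (-13614, 28434) (by decide +kernel)
                    (CovZ.leaf K2_ok TB_l50355 _)
                    (CovZ.n1 (-13614, 28428) (by decide +kernel)
                     (CovZ.leaf K2_ok TB_l50356 _)
                     (CovZ.leaf K2_ok TB_l50357 _))))
                  (CovZ.n1 (-13620, 28416) (by decide +kernel)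
                   (CovZ.n2 (-13626, 28422) (by decide +kernel)
                    (CovZ.n2 (-13620, 28422) (by decide +kernel)
                     (CovZ.leaf K2_ok TB_l50358 _)
                     (CovZ.leaf K2_ok TB_l50359 _))
                    (CovZ.leaf K2_ok TB_l50360 _))
                   (CovZ.n1 (-13614, 28422) (by decide +kernel)
                    (CovZ.leaf K2_ok TB_l50361 _)
                    (CovZ.leaf K2_ok TB_l50362 _))))
                 (CovZ.n1 (-13596, 28428) (by decide +kernel)
                  (CovZ.n2 (-13596, 28416) (by decide +kernel)
                   (CovZ.n2 (-13602, 28422) (by decide +kernel)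
                    (CovZ.n2 (-13596, 28422) (by decide +kernel)
                     (CovZ.n2 (-13599, 28419) (by decide +kernel)
                      (CovZ.leaf K2_ok TB_l50363 _)
                      (CovZ.badM (by decide +kernel)))
                     (CovZ.leaf K2_ok TB_l50364 _))
                    (CovZ.leaf K2_ok TB_l50365 _))
                   (CovZ.badM (by decide +kernel)))
                  (CovZ.n1 (-13608, 28428) (by decide +kernel)
                   (CovZ.n2 (-13602, 28434) (by decide +kernel)
                    (CovZ.n2 (-13602, 28428) (by decide +kernel)
                     (CovZ.n2 (-13605, 28431) (by decide +kernel)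
                      (CovZ.leaf K2_ok TB_l50366 _)
                      (CovZ.leaf K2_ok TB_l50367 _))
                     (CovZ.n1 (-13599, 28431) (by decide +kernel)
                      (CovZ.leaf K2_ok TB_l50368 _)
                      (CovZ.leaf K2_ok TB_l50369 _)))
                    (CovZ.n1 (-13608, 28434) (by decide +kernel)
                     (CovZ.leaf K2_ok TB_l50370 _)
                     (CovZ.n1 (-13605, 28431) (by decide +kernel)
                      (CovZ.leaf K2_ok TB_l50371 _)
                      (CovZ.leaf K2_ok TB_l50372 _))))
                   (CovZ.n1 (-13602, 28422) (by decide +kernel)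
                    (CovZ.leaf K2_ok TB_l50373 _)
                    (CovZ.n1 (-13602, 28428) (by decide +kernel)
                     (CovZ.leaf K2_ok TB_l50374 _)
                     (CovZ.n1 (-13605, 28425) (by decide +kernel)
                      (CovZ.leaf K2_ok TB_l50375 _)
                      (CovZ.leaf K2_ok TB_l50376 _))))))))
               (CovZ.badM (by decide +kernel))))
             (CovZ.badM (by decide +kernel)))
            (CovZ.n1 (-13632, 28512) (by decide +kernel)
             (CovZ.badM (by decide +kernel))
             (CovZ.n1 (-13584, 28464) (by decide +kernel)
              (CovZ.n2 (-13632, 28464) (by decide +kernel)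
               (CovZ.n2 (-13608, 28488) (by decide +kernel)
                (CovZ.n2 (-13608, 28464) (by decide +kernel)
                 (CovZ.n2 (-13620, 28476) (by decide +kernel)
                  (CovZ.badM (by decide +kernel))
                  (CovZ.n1 (-13620, 28464) (by decide +kernel)
                   (CovZ.n2 (-13626, 28470) (by decide +kernel)
                    (CovZ.badM (by decide +kernel))
                    (CovZ.n1 (-13626, 28464) (by decide +kernel)
                     (CovZ.leaf K2_ok TB_l50377 _)
                     (CovZ.badM (by decide +kernel))))
                   (CovZ.badM (by decide +kernel))))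
                 (CovZ.badM (by decide +kernel)))
                (CovZ.n1 (-13632, 28488) (by decide +kernel)
                 (CovZ.n2 (-13620, 28500) (by decide +kernel)
                  (CovZ.n2 (-13620, 28488) (by decide +kernel)
                   (CovZ.n2 (-13626, 28494) (by decide +kernel)
                    (CovZ.badM (by decide +kernel))
                    (CovZ.n1 (-13626, 28488) (by decide +kernel)
                     (CovZ.leaf K2_ok TB_l50378 _)
                     (CovZ.badM (by decide +kernel))))
                   (CovZ.badM (by decide +kernel)))
                  (CovZ.n1 (-13632, 28500) (by decide +kernel)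
                   (CovZ.n2 (-13626, 28506) (by decide +kernel)
                    (CovZ.n2 (-13626, 28500) (by decide +kernel)
                     (CovZ.leaf K2_ok TB_l50379 _)
                     (CovZ.badM (by decide +kernel)))
                    (CovZ.n1 (-13632, 28506) (by decide +kernel)
                     (CovZ.n2 (-13629, 28509) (by decide +kernel)
                      (CovZ.leaf K2_ok TB_l50380 _)
                      (CovZ.leaf K2_ok TB_l50381 _))
                     (CovZ.leaf K2_ok TB_l50382 _)))
                   (CovZ.n1 (-13626, 28494) (by decide +kernel)
                    (CovZ.leaf K2_ok TB_l50383 _)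
                    (CovZ.n1 (-13626, 28500) (by decide +kernel)
                     (CovZ.badM (by decide +kernel))
                     (CovZ.leaf K2_ok TB_l50384 _)))))
                 (CovZ.n1 (-13620, 28476) (by decide +kernel)
                  (CovZ.n2 (-13632, 28476) (by decide +kernel)
                   (CovZ.n2 (-13626, 28482) (by decide +kernel)
                    (CovZ.n2 (-13626, 28476) (by decide +kernel)
                     (CovZ.leaf K2_ok TB_l50385 _)
                     (CovZ.badM (by decide +kernel)))
                    (CovZ.leaf K2_ok TB_l50386 _))
                   (CovZ.n1 (-13626, 28470) (by decide +kernel)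
                    (CovZ.leaf K2_ok TB_l50387 _)
                    (CovZ.n1 (-13626, 28476) (by decide +kernel)
                     (CovZ.badM (by decide +kernel))
                     (CovZ.leaf K2_ok TB_l50388 _))))
                  (CovZ.n1 (-13620, 28488) (by decide +kernel)
                   (CovZ.badM (by decide +kernel))
                   (CovZ.n1 (-13626, 28482) (by decide +kernel)
                    (CovZ.n2 (-13626, 28488) (by decide +kernel)
                     (CovZ.badM (by decide +kernel))
                     (CovZ.leaf K2_ok TB_l50389 _))
                    (CovZ.badM (by decide +kernel)))))))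
               (CovZ.n1 (-13608, 28440) (by decide +kernel)
                (CovZ.n2 (-13632, 28440) (by decide +kernel)
                 (CovZ.n2 (-13620, 28452) (by decide +kernel)
                  (CovZ.n2 (-13620, 28440) (by decide +kernel)
                   (CovZ.n2 (-13626, 28446) (by decide +kernel)
                    (CovZ.n2 (-13620, 28446) (by decide +kernel)
                     (CovZ.leaf K2_ok TB_l50390 _)
                     (CovZ.leaf K2_ok TB_l50391 _))
                    (CovZ.n1 (-13626, 28440) (by decide +kernel)
                     (CovZ.leaf K2_ok TB_l50392 _)
                     (CovZ.leaf K2_ok TB_l50393 _)))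
                   (CovZ.n1 (-13614, 28446) (by decide +kernel)
                    (CovZ.n2 (-13614, 28440) (by decide +kernel)
                     (CovZ.leaf K2_ok TB_l50394 _)
                     (CovZ.badM (by decide +kernel)))
                    (CovZ.n1 (-13620, 28446) (by decide +kernel)
                     (CovZ.leaf K2_ok TB_l50395 _)
                     (CovZ.leaf K2_ok TB_l50396 _))))
                  (CovZ.n1 (-13632, 28452) (by decide +kernel)
                   (CovZ.n2 (-13626, 28458) (by decide +kernel)
                    (CovZ.n2 (-13626, 28452) (by decide +kernel)
                     (CovZ.leaf K2_ok TB_l50397 _)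
                     (CovZ.leaf K2_ok TB_l50398 _))
                    (CovZ.leaf K2_ok TB_l50399 _))
                   (CovZ.n1 (-13626, 28446) (by decide +kernel)
                    (CovZ.leaf K2_ok TB_l50400 _)
                    (CovZ.leaf K2_ok TB_l50401 _))))
                 (CovZ.n1 (-13620, 28428) (by decide +kernel)
                  (CovZ.n2 (-13632, 28428) (by decide +kernel)
                   (CovZ.n2 (-13626, 28434) (by decide +kernel)
                    (CovZ.leaf K2_ok TB_l50402 _)
                    (CovZ.leaf K2_ok TB_l50403 _))
                   (CovZ.n1 (-13626, 28422) (by decide +kernel)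
                    (CovZ.leaf K2_ok TB_l50404 _)
                    (CovZ.n1 (-13626, 28428) (by decide +kernel)
                     (CovZ.leaf K2_ok TB_l50405 _)
                     (CovZ.leaf K2_ok TB_l50406 _))))
                  (CovZ.n1 (-13620, 28440) (by decide +kernel)
                   (CovZ.n2 (-13614, 28434) (by decide +kernel)
                    (CovZ.leaf K2_ok TB_l50407 _)
                    (CovZ.n1 (-13614, 28440) (by decide +kernel)
                     (CovZ.leaf K2_ok TB_l50408 _)
                     (CovZ.leaf K2_ok TB_l50409 _)))
                   (CovZ.n1 (-13626, 28434) (by decide +kernel)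
                    (CovZ.leaf K2_ok TB_l50410 _)
                    (CovZ.leaf K2_ok TB_l50411 _)))))
                (CovZ.n1 (-13608, 28464) (by decide +kernel)
                 (CovZ.badM (by decide +kernel))
                 (CovZ.n1 (-13620, 28452) (by decide +kernel)
                  (CovZ.n2 (-13620, 28464) (by decide +kernel)
                   (CovZ.badM (by decide +kernel))
                   (CovZ.n1 (-13626, 28458) (by decide +kernel)
                    (CovZ.n2 (-13626, 28464) (by decide +kernel)
                     (CovZ.n2 (-13623, 28461) (by decide +kernel)
                      (CovZ.leaf K2_ok TB_l50412 _)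
                      (CovZ.badM (by decide +kernel)))
                     (CovZ.leaf K2_ok TB_l50413 _))
                    (CovZ.leaf K2_ok TB_l50414 _)))
                  (CovZ.badM (by decide +kernel))))))
              (CovZ.n1 (-13584, 28512) (by decide +kernel)
               (CovZ.badM (by decide +kernel))
               (CovZ.n1 (-13608, 28488) (by decide +kernel)
                (CovZ.n2 (-13608, 28512) (by decide +kernel)
                 (CovZ.badM (by decide +kernel))
                 (CovZ.n1 (-13620, 28500) (by decide +kernel)
                  (CovZ.n2 (-13620, 28512) (by decide +kernel)
                   (CovZ.badM (by decide +kernel))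
                   (CovZ.n1 (-13626, 28506) (by decide +kernel)
                    (CovZ.n2 (-13626, 28512) (by decide +kernel)
                     (CovZ.badM (by decide +kernel))
                     (CovZ.n1 (-13629, 28509) (by decide +kernel)
                      (CovZ.badM (by decide +kernel))
                      (CovZ.badM (by decide +kernel))))
                    (CovZ.badM (by decide +kernel))))
                  (CovZ.badM (by decide +kernel))))
                (CovZ.badM (by decide +kernel))))))))

theorem TB_u492 : CovZ TB_M (toL (selN TB_LN 141644767596008273950770124915702303605627625470977742007484312835887669424014990394479044266627105220328888947805369703037820713423471354692241408)) [0, 7, 6, 1] (-13440, 28032) (-13536, 28128) (-13632, 28032) :=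
    (CovZ.n2 (-13536, 28032) (by decide +kernel)
           (CovZ.n2 (-13584, 28080) (by decide +kernel)
            (CovZ.subM 129151295133502901632708287096451936870840461973469401787094369098602199987442241008989148069500465143866852603755117281557796590090221065645064192 (by decide +kernel)
             (CovZ.n2 (-13536, 28080) (by decide +kernel)
              (CovZ.n2 (-13560, 28056) (by decide +kernel)
               (CovZ.n2 (-13560, 28080) (by decide +kernel)
                (CovZ.n2 (-13548, 28068) (by decide +kernel)
                 (CovZ.leaf K2_ok TB_l50489 _)
                 (CovZ.leaf K2_ok TB_l50490 _))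
                (CovZ.leaf K2_ok TB_l50491 _))
               (CovZ.n1 (-13536, 28056) (by decide +kernel)
                (CovZ.n2 (-13548, 28044) (by decide +kernel)
                 (CovZ.leaf K2_ok TB_l50492 _)
                 (CovZ.leaf K2_ok TB_l50493 _))
                (CovZ.n1 (-13548, 28068) (by decide +kernel)
                 (CovZ.leaf K2_ok TB_l50494 _)
                 (CovZ.leaf K2_ok TB_l50495 _))))
              (CovZ.n1 (-13560, 28104) (by decide +kernel)
               (CovZ.n2 (-13536, 28104) (by decide +kernel)
                (CovZ.n2 (-13548, 28092) (by decide +kernel)
                 (CovZ.leaf K2_ok TB_l50496 _)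
                 (CovZ.leaf K2_ok TB_l50497 _))
                (CovZ.n1 (-13548, 28116) (by decide +kernel)
                 (CovZ.leaf K2_ok TB_l50498 _)
                 (CovZ.leaf K2_ok TB_l50499 _)))
               (CovZ.n1 (-13560, 28080) (by decide +kernel)
                (CovZ.n2 (-13572, 28092) (by decide +kernel)
                 (CovZ.leaf K2_ok TB_l50500 _)
                 (CovZ.leaf K2_ok TB_l50501 _))
                (CovZ.n1 (-13548, 28092) (by decide +kernel)
                 (CovZ.leaf K2_ok TB_l50502 _)
                 (CovZ.leaf K2_ok TB_l50503 _))))))
            (CovZ.n1 (-13584, 28032) (by decide +kernel)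
             (CovZ.n2 (-13608, 28056) (by decide +kernel)
              (CovZ.n2 (-13584, 28056) (by decide +kernel)
               (CovZ.leaf K2_ok TB_l48285 _)
               (CovZ.leaf K2_ok TB_l48286 _))
              (CovZ.n1 (-13608, 28032) (by decide +kernel)
               (CovZ.leaf K2_ok TB_l48287 _)
               (CovZ.leaf K2_ok TB_l48288 _)))
             (CovZ.subM 129151295133502912723387063579711375184497198545804215532842670601868500669360563467474379292002957303764477020313429671122640435704508381541695488 (by decide +kernel)
              (CovZ.n1 (-13560, 28056) (by decide +kernel)
               (CovZ.n2 (-13560, 28032) (by decide +kernel)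
                (CovZ.leaf K2_ok TB_l50504 _)
                (CovZ.n1 (-13548, 28044) (by decide +kernel)
                 (CovZ.leaf K2_ok TB_l50505 _)
                 (CovZ.leaf K2_ok TB_l50506 _)))
               (CovZ.n1 (-13584, 28056) (by decide +kernel)
                (CovZ.leaf K2_ok TB_l50507 _)
                (CovZ.leaf K2_ok TB_l50508 _))))))
           (CovZ.subM 129151295133491367326780744506636090667834426745263106208860805701649490792386884184348676666908618850337459383110232134120197151231412533148516352 (by decide +kernel)
            (CovZ.n1 (-13488, 28080) (by decide +kernel)
             (CovZ.n2 (-13488, 28032) (by decide +kernel)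
              (CovZ.n2 (-13512, 28056) (by decide +kernel)
               (CovZ.n2 (-13488, 28056) (by decide +kernel)
                (CovZ.n2 (-13500, 28044) (by decide +kernel)
                 (CovZ.n2 (-13500, 28056) (by decide +kernel)
                  (CovZ.leaf K2_ok TB_l50509 _)
                  (CovZ.leaf K2_ok TB_l50510 _))
                 (CovZ.n1 (-13488, 28044) (by decide +kernel)
                  (CovZ.leaf K2_ok TB_l50511 _)
                  (CovZ.leaf K2_ok TB_l50512 _)))
                (CovZ.n1 (-13500, 28068) (by decide +kernel)
                 (CovZ.n2 (-13488, 28068) (by decide +kernel)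
                  (CovZ.leaf K2_ok TB_l50513 _)
                  (CovZ.leaf K2_ok TB_l50514 _))
                 (CovZ.leaf K2_ok TB_l50515 _)))
               (CovZ.n1 (-13512, 28032) (by decide +kernel)
                (CovZ.n2 (-13524, 28044) (by decide +kernel)
                 (CovZ.leaf K2_ok TB_l50516 _)
                 (CovZ.leaf K2_ok TB_l50517 _))
                (CovZ.n1 (-13500, 28044) (by decide +kernel)
                 (CovZ.n2 (-13500, 28032) (by decide +kernel)
                  (CovZ.leaf K2_ok TB_l50518 _)
                  (CovZ.leaf K2_ok TB_l50519 _))
                 (CovZ.leaf K2_ok TB_l50520 _))))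
              (CovZ.subM 25864526068715836907416704764393630331989405530535681295036835595787838656993780100403452400257573521585088836547413472038062160089426246642958336 (by decide +kernel)
               (CovZ.n1 (-13464, 28056) (by decide +kernel)
                (CovZ.n2 (-13464, 28032) (by decide +kernel)
                 (CovZ.n2 (-13476, 28044) (by decide +kernel)
                  (CovZ.n2 (-13464, 28044) (by decide +kernel)
                   (CovZ.leaf K2_ok TB_l50521 _)
                   (CovZ.leaf K2_ok TB_l50522 _))
                  (CovZ.n1 (-13476, 28032) (by decide +kernel)
                   (CovZ.leaf K2_ok TB_l50523 _)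
                   (CovZ.leaf K2_ok TB_l50524 _)))
                 (CovZ.subM 24986391145093964214177228606386913154919615279796071473224118970375410533105370189622159597666004132751734861360774433285677006020952114021269504 (by decide +kernel)
                  (CovZ.n1 (-13452, 28044) (by decide +kernel)
                   (CovZ.n2 (-13452, 28032) (by decide +kernel)
                    (CovZ.n2 (-13458, 28038) (by decide +kernel)
                     (CovZ.leaf K2_ok TB_l50525 _)
                     (CovZ.leaf K2_ok TB_l50526 _))
                    (CovZ.n1 (-13446, 28038) (by decide +kernel)
                     (CovZ.leaf K2_ok TB_l50527 _)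
                     (CovZ.leaf K2_ok TB_l50528 _)))
                   (CovZ.n1 (-13464, 28044) (by decide +kernel)
                    (CovZ.leaf K2_ok TB_l50529 _)
                    (CovZ.leaf K2_ok TB_l50530 _)))))
                (CovZ.n1 (-13488, 28056) (by decide +kernel)
                 (CovZ.n2 (-13476, 28068) (by decide +kernel)
                  (CovZ.n2 (-13476, 28056) (by decide +kernel)
                   (CovZ.leaf K2_ok TB_l50531 _)
                   (CovZ.leaf K2_ok TB_l50532 _))
                  (CovZ.n1 (-13488, 28068) (by decide +kernel)
                   (CovZ.leaf K2_ok TB_l50533 _)
                   (CovZ.leaf K2_ok TB_l50534 _)))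
                 (CovZ.n1 (-13476, 28044) (by decide +kernel)
                  (CovZ.leaf K2_ok TB_l50535 _)
                  (CovZ.n1 (-13476, 28056) (by decide +kernel)
                   (CovZ.leaf K2_ok TB_l50536 _)
                   (CovZ.leaf K2_ok TB_l50537 _)))))))
             (CovZ.n1 (-13536, 28080) (by decide +kernel)
              (CovZ.n2 (-13512, 28104) (by decide +kernel)
               (CovZ.n2 (-13512, 28080) (by decide +kernel)
                (CovZ.n2 (-13524, 28092) (by decide +kernel)
                 (CovZ.n2 (-13512, 28092) (by decide +kernel)
                  (CovZ.leaf K2_ok TB_l50538 _)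
                  (CovZ.leaf K2_ok TB_l50539 _))
                 (CovZ.n1 (-13524, 28080) (by decide +kernel)
                  (CovZ.leaf K2_ok TB_l50540 _)
                  (CovZ.leaf K2_ok TB_l50541 _)))
                (CovZ.n1 (-13500, 28092) (by decide +kernel)
                 (CovZ.n2 (-13500, 28080) (by decide +kernel)
                  (CovZ.leaf K2_ok TB_l50542 _)
                  (CovZ.leaf K2_ok TB_l50543 _))
                 (CovZ.leaf K2_ok TB_l50544 _)))
               (CovZ.n1 (-13536, 28104) (by decide +kernel)
                (CovZ.n2 (-13524, 28116) (by decide +kernel)
                 (CovZ.n2 (-13524, 28104) (by decide +kernel)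
                  (CovZ.leaf K2_ok TB_l50545 _)
                  (CovZ.leaf K2_ok TB_l50546 _))
                 (CovZ.leaf K2_ok TB_l50547 _))
                (CovZ.n1 (-13524, 28092) (by decide +kernel)
                 (CovZ.leaf K2_ok TB_l50548 _)
                 (CovZ.n1 (-13524, 28104) (by decide +kernel)
                  (CovZ.leaf K2_ok TB_l50549 _)
                  (CovZ.leaf K2_ok TB_l50550 _)))))
              (CovZ.n1 (-13512, 28056) (by decide +kernel)
               (CovZ.n2 (-13536, 28056) (by decide +kernel)
                (CovZ.n2 (-13524, 28068) (by decide +kernel)
                 (CovZ.leaf K2_ok TB_l50551 _)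
                 (CovZ.leaf K2_ok TB_l50552 _))
                (CovZ.n1 (-13524, 28044) (by decide +kernel)
                 (CovZ.leaf K2_ok TB_l50553 _)
                 (CovZ.n1 (-13524, 28056) (by decide +kernel)
                  (CovZ.leaf K2_ok TB_l50554 _)
                  (CovZ.leaf K2_ok TB_l50555 _))))
               (CovZ.n1 (-13512, 28080) (by decide +kernel)
                (CovZ.n2 (-13500, 28068) (by decide +kernel)
                 (CovZ.leaf K2_ok TB_l50556 _)
                 (CovZ.n1 (-13500, 28080) (by decide +kernel)
                  (CovZ.leaf K2_ok TB_l50557 _)
                  (CovZ.leaf K2_ok TB_l50558 _)))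
                (CovZ.n1 (-13524, 28068) (by decide +kernel)
                 (CovZ.leaf K2_ok TB_l50559 _)
                 (CovZ.leaf K2_ok TB_l50560 _))))))))

theorem TB_u493 : CovZ TB_M (toL (selN TB_LN 141644767596008273950770124915702303605627625470977742007484312835887669424014990394479044266627105220328888947805369703037820713423471354692241408)) [0, 7, 6, 1] (-13536, 28128) (-13632, 28224) (-13632, 28032) :=
    (CovZ.n1 (-13632, 28128) (by decide +kernel)
           (CovZ.subM 129139464001655538722652860239720334236331211289702697501925847043725517002086859075887387693571590780383896411482180544821367978630718649079431168 (by decide +kernel)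
            (CovZ.n2 (-13584, 28176) (by decide +kernel)
             (CovZ.n2 (-13584, 28128) (by decide +kernel)
              (CovZ.n2 (-13608, 28152) (by decide +kernel)
               (CovZ.n2 (-13584, 28152) (by decide +kernel)
                (CovZ.n2 (-13596, 28140) (by decide +kernel)
                 (CovZ.leaf K2_ok TB_l50561 _)
                 (CovZ.leaf K2_ok TB_l50562 _))
                (CovZ.n1 (-13596, 28164) (by decide +kernel)
                 (CovZ.leaf K2_ok TB_l50563 _)
                 (CovZ.leaf K2_ok TB_l50564 _)))
               (CovZ.n1 (-13608, 28128) (by decide +kernel)
                (CovZ.leaf K2_ok TB_l50565 _)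
                (CovZ.n1 (-13596, 28140) (by decide +kernel)
                 (CovZ.leaf K2_ok TB_l50566 _)
                 (CovZ.leaf K2_ok TB_l50567 _))))
              (CovZ.n1 (-13560, 28152) (by decide +kernel)
               (CovZ.n2 (-13560, 28128) (by decide +kernel)
                (CovZ.n2 (-13572, 28140) (by decide +kernel)
                 (CovZ.leaf K2_ok TB_l50568 _)
                 (CovZ.leaf K2_ok TB_l50569 _))
                (CovZ.n1 (-13548, 28140) (by decide +kernel)
                 (CovZ.n2 (-13548, 28128) (by decide +kernel)
                  (CovZ.leaf K2_ok TB_l50570 _)
                  (CovZ.leaf K2_ok TB_l50571 _))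
                 (CovZ.leaf K2_ok TB_l50572 _)))
               (CovZ.n1 (-13584, 28152) (by decide +kernel)
                (CovZ.n2 (-13572, 28164) (by decide +kernel)
                 (CovZ.n2 (-13572, 28152) (by decide +kernel)
                  (CovZ.leaf K2_ok TB_l50573 _)
                  (CovZ.leaf K2_ok TB_l50574 _))
                 (CovZ.leaf K2_ok TB_l50575 _))
                (CovZ.n1 (-13572, 28140) (by decide +kernel)
                 (CovZ.leaf K2_ok TB_l50576 _)
                 (CovZ.leaf K2_ok TB_l50577 _)))))
             (CovZ.n1 (-13632, 28176) (by decide +kernel)
              (CovZ.n2 (-13608, 28200) (by decide +kernel)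
               (CovZ.n2 (-13608, 28176) (by decide +kernel)
                (CovZ.leaf K2_ok TB_l50578 _)
                (CovZ.n1 (-13596, 28188) (by decide +kernel)
                 (CovZ.leaf K2_ok TB_l50579 _)
                 (CovZ.leaf K2_ok TB_l50580 _)))
               (CovZ.n1 (-13632, 28200) (by decide +kernel)
                (CovZ.n2 (-13620, 28212) (by decide +kernel)
                 (CovZ.n2 (-13620, 28200) (by decide +kernel)
                  (CovZ.leaf K2_ok TB_l50581 _)
                  (CovZ.leaf K2_ok TB_l50582 _))
                 (CovZ.leaf K2_ok TB_l50583 _))
                (CovZ.n1 (-13620, 28188) (by decide +kernel)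
                 (CovZ.leaf K2_ok TB_l50584 _)
                 (CovZ.leaf K2_ok TB_l50585 _))))
              (CovZ.n1 (-13608, 28152) (by decide +kernel)
               (CovZ.n2 (-13632, 28152) (by decide +kernel)
                (CovZ.n2 (-13620, 28164) (by decide +kernel)
                 (CovZ.leaf K2_ok TB_l50586 _)
                 (CovZ.leaf K2_ok TB_l50587 _))
                (CovZ.leaf K2_ok TB_l50588 _))
               (CovZ.n1 (-13608, 28176) (by decide +kernel)
                (CovZ.n2 (-13596, 28164) (by decide +kernel)
                 (CovZ.leaf K2_ok TB_l50589 _)
                 (CovZ.leaf K2_ok TB_l50590 _))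
                (CovZ.n1 (-13620, 28164) (by decide +kernel)
                 (CovZ.leaf K2_ok TB_l50591 _)
                 (CovZ.leaf K2_ok TB_l50592 _)))))))
           (CovZ.n1 (-13584, 28080) (by decide +kernel)
            (CovZ.n2 (-13632, 28080) (by decide +kernel)
             (CovZ.n2 (-13608, 28104) (by decide +kernel)
              (CovZ.n2 (-13608, 28080) (by decide +kernel)
               (CovZ.leaf K2_ok TB_l48289 _)
               (CovZ.leaf K2_ok TB_l50593 _))
              (CovZ.n1 (-13632, 28104) (by decide +kernel)
               (CovZ.leaf K2_ok TB_l48290 _)
               (CovZ.leaf K2_ok TB_l48291 _)))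
             (CovZ.n1 (-13608, 28056) (by decide +kernel)
              (CovZ.n2 (-13632, 28056) (by decide +kernel)
               (CovZ.leaf K2_ok TB_l48292 _)
               (CovZ.leaf K2_ok TB_l48293 _))
              (CovZ.n1 (-13608, 28080) (by decide +kernel)
               (CovZ.leaf K2_ok TB_l48294 _)
               (CovZ.leaf K2_ok TB_l48295 _))))
            (CovZ.subM 129151676206348118444871346992880147875569649195748894328034664971457301795540613431689700150328063129214111855014643360986525517127369240694751232 (by decide +kernel)
             (CovZ.n1 (-13584, 28128) (by decide +kernel)
              (CovZ.n2 (-13560, 28104) (by decide +kernel)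
               (CovZ.n2 (-13584, 28104) (by decide +kernel)
                (CovZ.n2 (-13572, 28116) (by decide +kernel)
                 (CovZ.leaf K2_ok TB_l50594 _)
                 (CovZ.leaf K2_ok TB_l50595 _))
                (CovZ.leaf K2_ok TB_l50596 _))
               (CovZ.n1 (-13560, 28128) (by decide +kernel)
                (CovZ.n2 (-13548, 28116) (by decide +kernel)
                 (CovZ.leaf K2_ok TB_l50597 _)
                 (CovZ.n1 (-13548, 28128) (by decide +kernel)
                  (CovZ.leaf K2_ok TB_l50598 _)
                  (CovZ.leaf K2_ok TB_l50599 _)))
                (CovZ.n1 (-13572, 28116) (by decide +kernel)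
                 (CovZ.leaf K2_ok TB_l50600 _)
                 (CovZ.leaf K2_ok TB_l50601 _))))
              (CovZ.n1 (-13608, 28104) (by decide +kernel)
               (CovZ.n2 (-13608, 28128) (by decide +kernel)
                (CovZ.leaf K2_ok TB_l50602 _)
                (CovZ.leaf K2_ok TB_l50603 _))
               (CovZ.n1 (-13584, 28104) (by decide +kernel)
                (CovZ.leaf K2_ok TB_l50604 _)
                (CovZ.leaf K2_ok TB_l50605 _)))))))

theorem TB_u494 : CovZ TB_M (toL (selN TB_LN 141644767596008273950770124915702303605627625470977742007484312835887669424014990394479044266627105220328888947805369703037820713423471354692241408)) [0, 7, 6, 1] (-13440, 28032) (-13632, 28224) (-13824, 28032) :=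
    (CovZ.n2 (-13632, 28032) (by decide +kernel)
         (CovZ.n2 (-13728, 28128) (by decide +kernel)
          (CovZ.n2 (-13632, 28128) (by decide +kernel)
           (CovZ.n2 (-13680, 28080) (by decide +kernel)
            (CovZ.n2 (-13680, 28128) (by decide +kernel)
             (CovZ.n2 (-13656, 28104) (by decide +kernel)
              (CovZ.leaf K2_ok TB_l48265 _)
              (CovZ.n1 (-13656, 28128) (by decide +kernel)
               (CovZ.leaf K2_ok TB_l48266 _)
               (CovZ.leaf K2_ok TB_l48267 _)))
             (CovZ.n1 (-13704, 28104) (by decide +kernel)
              (CovZ.n2 (-13704, 28128) (by decide +kernel)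
               (CovZ.leaf K2_ok TB_l37005 _)
               (CovZ.leaf K2_ok TB_l37006 _))
              (CovZ.n1 (-13680, 28104) (by decide +kernel)
               (CovZ.leaf K2_ok TB_l37007 _)
               (CovZ.leaf K2_ok TB_l37008 _))))
            (CovZ.n1 (-13632, 28080) (by decide +kernel)
             (CovZ.n2 (-13656, 28056) (by decide +kernel)
              (CovZ.n2 (-13656, 28080) (by decide +kernel)
               (CovZ.leaf K2_ok TB_l48268 _)
               (CovZ.leaf K2_ok TB_l48269 _))
              (CovZ.n1 (-13632, 28056) (by decide +kernel)
               (CovZ.leaf K2_ok TB_l48270 _)
               (CovZ.leaf K2_ok TB_l48271 _)))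
             (CovZ.n1 (-13656, 28104) (by decide +kernel)
              (CovZ.n2 (-13632, 28104) (by decide +kernel)
               (CovZ.leaf K2_ok TB_l48272 _)
               (CovZ.leaf K2_ok TB_l48273 _))
              (CovZ.n1 (-13656, 28080) (by decide +kernel)
               (CovZ.leaf K2_ok TB_l48274 _)
               (CovZ.leaf K2_ok TB_l48275 _)))))
           (CovZ.n1 (-13680, 28176) (by decide +kernel)
            (CovZ.subM 129139464001655538722652860240035550285902940498054927340604898659389980437985781792123770668407696993920690009649867301045200674029029067772133376 (by decide +kernel)
             (CovZ.n2 (-13632, 28176) (by decide +kernel)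
              (CovZ.n2 (-13656, 28152) (by decide +kernel)
               (CovZ.n2 (-13656, 28176) (by decide +kernel)
                (CovZ.leaf K2_ok TB_l50483 _)
                (CovZ.leaf K2_ok TB_l48276 _))
               (CovZ.n1 (-13632, 28152) (by decide +kernel)
                (CovZ.leaf K2_ok TB_l50484 _)
                (CovZ.leaf K2_ok TB_l50485 _)))
              (CovZ.n1 (-13656, 28200) (by decide +kernel)
               (CovZ.n2 (-13632, 28200) (by decide +kernel)
                (CovZ.leaf K2_ok TB_l50486 _)
                (CovZ.leaf K2_ok TB_l50487 _))
               (CovZ.n1 (-13656, 28176) (by decide +kernel)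
                (CovZ.leaf K2_ok TB_l48277 _)
                (CovZ.leaf K2_ok TB_l50488 _)))))
            (CovZ.n1 (-13680, 28128) (by decide +kernel)
             (CovZ.subM 100165449253630525821202968685906603843553349798633231690113656321349240338440022935552143846463658738672654633902180716511131089895019076388913152 (by decide +kernel)
              (CovZ.n2 (-13704, 28152) (by decide +kernel)
               (CovZ.n2 (-13680, 28152) (by decide +kernel)
                (CovZ.leaf K2_ok TB_l37009 _)
                (CovZ.leaf K2_ok TB_l37010 _))
               (CovZ.n1 (-13704, 28128) (by decide +kernel)
                (CovZ.leaf K2_ok TB_l37011 _)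
                (CovZ.leaf K2_ok TB_l37012 _))))
             (CovZ.subM 129139464001655549813331719375464914553188519416490113714006708981442478161534823525697937414607903239743114407986665727258284518694300983893164032 (by decide +kernel)
              (CovZ.n1 (-13656, 28152) (by decide +kernel)
               (CovZ.n2 (-13656, 28128) (by decide +kernel)
                (CovZ.leaf K2_ok TB_l48278 _)
                (CovZ.leaf K2_ok TB_l48279 _))
               (CovZ.n1 (-13680, 28152) (by decide +kernel)
                (CovZ.leaf K2_ok TB_l48280 _)
                (CovZ.leaf K2_ok TB_l48281 _)))))))
          (CovZ.n1 (-13728, 28032) (by decide +kernel)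
           (CovZ.n2 (-13776, 28080) (by decide +kernel)
            (CovZ.n2 (-13728, 28080) (by decide +kernel)
             (CovZ.n2 (-13752, 28056) (by decide +kernel)
              (CovZ.n2 (-13752, 28080) (by decide +kernel)
               (CovZ.leaf K2_ok TB_l37013 _)
               (CovZ.leaf K2_ok TB_l37014 _))
              (CovZ.leaf K2_ok TB_l37015 _))
             (CovZ.n1 (-13752, 28104) (by decide +kernel)
              (CovZ.leaf K2_ok TB_l37016 _)
              (CovZ.leaf K2_ok TB_l37017 _)))
            (CovZ.n1 (-13776, 28032) (by decide +kernel)
             (CovZ.leaf K2_ok TB_l37018 _)
             (CovZ.n1 (-13752, 28056) (by decide +kernel)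
              (CovZ.leaf K2_ok TB_l37019 _)
              (CovZ.leaf K2_ok TB_l37020 _))))
           (CovZ.n1 (-13680, 28080) (by decide +kernel)
            (CovZ.n2 (-13680, 28032) (by decide +kernel)
             (CovZ.n2 (-13704, 28056) (by decide +kernel)
              (CovZ.leaf K2_ok TB_l37021 _)
              (CovZ.n1 (-13704, 28032) (by decide +kernel)
               (CovZ.leaf K2_ok TB_l37022 _)
               (CovZ.leaf K2_ok TB_l37023 _)))
             (CovZ.n1 (-13656, 28056) (by decide +kernel)
              (CovZ.n2 (-13656, 28032) (by decide +kernel)
               (CovZ.leaf K2_ok TB_l48282 _)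
               (CovZ.leaf K2_ok TB_l48283 _))
              (CovZ.leaf K2_ok TB_l48284 _)))
            (CovZ.n1 (-13728, 28080) (by decide +kernel)
             (CovZ.n2 (-13704, 28104) (by decide +kernel)
              (CovZ.n2 (-13704, 28080) (by decide +kernel)
               (CovZ.leaf K2_ok TB_l37024 _)
               (CovZ.leaf K2_ok TB_l37025 _))
              (CovZ.leaf K2_ok TB_l37026 _))
             (CovZ.n1 (-13704, 28056) (by decide +kernel)
              (CovZ.leaf K2_ok TB_l37027 _)
              (CovZ.n1 (-13704, 28080) (by decide +kernel)
               (CovZ.leaf K2_ok TB_l37028 _)
               (CovZ.leaf K2_ok TB_l37029 _)))))))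
         (CovZ.n1 (-13536, 28128) (by decide +kernel)
          TB_u492
          TB_u493))

theorem TB_u495 : CovZ TB_M (toL (selN TB_LN 141644767596008273950770124915702303605627625470977742007484312835887669424014990394479044266627105220328888947805369703037820713423471354692241408)) [0, 7, 6, 1] (-13632, 28224) (-13824, 28416) (-13824, 28032) :=
    (CovZ.n1 (-13824, 28224) (by decide +kernel)
         (CovZ.n2 (-13728, 28320) (by decide +kernel)
          (CovZ.n2 (-13728, 28224) (by decide +kernel)
           (CovZ.subM 100165401610624027286258393367595097782097256312884347837969651685559570947149423735654077780030779538388688159278986577874875249058093097105229824 (by decide +kernel)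
            (CovZ.n2 (-13776, 28272) (by decide +kernel)
             (CovZ.n2 (-13728, 28272) (by decide +kernel)
              (CovZ.n2 (-13752, 28248) (by decide +kernel)
               (CovZ.n2 (-13752, 28272) (by decide +kernel)
                (CovZ.leaf K2_ok TB_l37030 _)
                (CovZ.leaf K2_ok TB_l37031 _))
               (CovZ.n1 (-13728, 28248) (by decide +kernel)
                (CovZ.leaf K2_ok TB_l37032 _)
                (CovZ.leaf K2_ok TB_l37033 _)))
              (CovZ.subM 100141012205745637241145133288684041009509130257468168416908954633166673544009036229502532851703626211070201144340640743505726227977966790394249216 (by decide +kernel)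
               (CovZ.n1 (-13752, 28296) (by decide +kernel)
                (CovZ.n2 (-13728, 28296) (by decide +kernel)
                 (CovZ.leaf K2_ok TB_l37034 _)
                 (CovZ.leaf K2_ok TB_l37035 _))
                (CovZ.n1 (-13752, 28272) (by decide +kernel)
                 (CovZ.leaf K2_ok TB_l37036 _)
                 (CovZ.leaf K2_ok TB_l37037 _)))))
             (CovZ.n1 (-13776, 28224) (by decide +kernel)
              (CovZ.n2 (-13800, 28248) (by decide +kernel)
               (CovZ.leaf K2_ok TB_l37038 _)
               (CovZ.leaf K2_ok TB_l37039 _))
              (CovZ.n1 (-13752, 28248) (by decide +kernel)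
               (CovZ.n2 (-13752, 28224) (by decide +kernel)
                (CovZ.leaf K2_ok TB_l37040 _)
                (CovZ.leaf K2_ok TB_l37041 _))
               (CovZ.leaf K2_ok TB_l37042 _)))))
           (CovZ.subM 129041623386034057626408741281282949956082714716258366459893792630243872594628119518092850794256439865469561460130172835506394454029958172406448128 (by decide +kernel)
            (CovZ.n1 (-13680, 28272) (by decide +kernel)
             (CovZ.n2 (-13680, 28224) (by decide +kernel)
              (CovZ.n2 (-13704, 28248) (by decide +kernel)
               (CovZ.n2 (-13680, 28248) (by decide +kernel)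
                (CovZ.leaf K2_ok TB_l37043 _)
                (CovZ.leaf K2_ok TB_l37044 _))
               (CovZ.n1 (-13704, 28224) (by decide +kernel)
                (CovZ.leaf K2_ok TB_l37045 _)
                (CovZ.leaf K2_ok TB_l37046 _)))
              (CovZ.n1 (-13656, 28248) (by decide +kernel)
               (CovZ.n2 (-13656, 28224) (by decide +kernel)
                (CovZ.leaf K2_ok TB_l50606 _)
                (CovZ.n1 (-13644, 28236) (by decide +kernel)
                 (CovZ.leaf K2_ok TB_l50607 _)
                 (CovZ.leaf K2_ok TB_l50608 _)))
               (CovZ.n1 (-13680, 28248) (by decide +kernel)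
                (CovZ.n2 (-13668, 28260) (by decide +kernel)
                 (CovZ.leaf K2_ok TB_l50609 _)
                 (CovZ.leaf K2_ok TB_l50610 _))
                (CovZ.leaf K2_ok TB_l50611 _))))
             (CovZ.n1 (-13728, 28272) (by decide +kernel)
              (CovZ.n2 (-13704, 28296) (by decide +kernel)
               (CovZ.n2 (-13704, 28272) (by decide +kernel)
                (CovZ.leaf K2_ok TB_l37047 _)
                (CovZ.leaf K2_ok TB_l50612 _))
               (CovZ.n1 (-13728, 28296) (by decide +kernel)
                (CovZ.leaf K2_ok TB_l48296 _)
                (CovZ.leaf K2_ok TB_l37048 _)))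
              (CovZ.n1 (-13704, 28248) (by decide +kernel)
               (CovZ.n2 (-13728, 28248) (by decide +kernel)
                (CovZ.leaf K2_ok TB_l37049 _)
                (CovZ.leaf K2_ok TB_l37050 _))
               (CovZ.n1 (-13704, 28272) (by decide +kernel)
                (CovZ.leaf K2_ok TB_l37051 _)
                (CovZ.leaf K2_ok TB_l37052 _)))))))
          (CovZ.subM 100165401610624027286258393367595097782097256312884347837969651685559570947149423735654077780030779538388688159278986577874875249058093097105229824 (by decide +kernel)
           (CovZ.n1 (-13824, 28320) (by decide +kernel)
            (CovZ.n2 (-13776, 28368) (by decide +kernel)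
             (CovZ.n2 (-13776, 28320) (by decide +kernel)
              (CovZ.n2 (-13800, 28344) (by decide +kernel)
               (CovZ.n2 (-13776, 28344) (by decide +kernel)
                (CovZ.leaf K2_ok TB_l48297 _)
                (CovZ.leaf K2_ok TB_l48298 _))
               (CovZ.n1 (-13800, 28320) (by decide +kernel)
                (CovZ.leaf K2_ok TB_l37053 _)
                (CovZ.leaf K2_ok TB_l37054 _)))
              (CovZ.subM 100141012112710103080447027566219426667250060036910631351959027678883691045462522759572852432890186826495804176298012721508227499715145076307918848 (by decide +kernel)
               (CovZ.n1 (-13752, 28344) (by decide +kernel)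
                (CovZ.n2 (-13752, 28320) (by decide +kernel)
                 (CovZ.leaf K2_ok TB_l48299 _)
                 (CovZ.leaf K2_ok TB_l48300 _))
                (CovZ.n1 (-13776, 28344) (by decide +kernel)
                 (CovZ.leaf K2_ok TB_l48301 _)
                 (CovZ.leaf K2_ok TB_l48302 _)))))
             (CovZ.n1 (-13824, 28368) (by decide +kernel)
              (CovZ.n2 (-13800, 28392) (by decide +kernel)
               (CovZ.n2 (-13800, 28368) (by decide +kernel)
                (CovZ.leaf K2_ok TB_l48303 _)
                (CovZ.leaf K2_ok TB_l48304 _))
               (CovZ.leaf K2_ok TB_l48305 _))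
              (CovZ.n1 (-13800, 28344) (by decide +kernel)
               (CovZ.leaf K2_ok TB_l37055 _)
               (CovZ.n1 (-13800, 28368) (by decide +kernel)
                (CovZ.leaf K2_ok TB_l48306 _)
                (CovZ.leaf K2_ok TB_l48307 _)))))
            (CovZ.n1 (-13776, 28272) (by decide +kernel)
             (CovZ.n2 (-13824, 28272) (by decide +kernel)
              (CovZ.n2 (-13800, 28296) (by decide +kernel)
               (CovZ.n2 (-13800, 28272) (by decide +kernel)
                (CovZ.leaf K2_ok TB_l37056 _)
                (CovZ.leaf K2_ok TB_l37057 _))
               (CovZ.leaf K2_ok TB_l37058 _))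
              (CovZ.n1 (-13800, 28248) (by decide +kernel)
               (CovZ.leaf K2_ok TB_l37059 _)
               (CovZ.n1 (-13800, 28272) (by decide +kernel)
                (CovZ.leaf K2_ok TB_l37060 _)
                (CovZ.leaf K2_ok TB_l37061 _))))
             (CovZ.n1 (-13776, 28320) (by decide +kernel)
              (CovZ.n2 (-13752, 28296) (by decide +kernel)
               (CovZ.leaf K2_ok TB_l37062 _)
               (CovZ.n1 (-13752, 28320) (by decide +kernel)
                (CovZ.leaf K2_ok TB_l37063 _)
                (CovZ.leaf K2_ok TB_l37064 _)))
              (CovZ.n1 (-13800, 28296) (by decide +kernel)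
               (CovZ.n2 (-13800, 28320) (by decide +kernel)
                (CovZ.leaf K2_ok TB_l37065 _)
                (CovZ.leaf K2_ok TB_l37066 _))
               (CovZ.leaf K2_ok TB_l37067 _)))))))
         (CovZ.n1 (-13728, 28128) (by decide +kernel)
          (CovZ.n2 (-13824, 28128) (by decide +kernel)
           (CovZ.n2 (-13776, 28176) (by decide +kernel)
            (CovZ.n2 (-13776, 28128) (by decide +kernel)
             (CovZ.n2 (-13800, 28152) (by decide +kernel)
              (CovZ.leaf K2_ok TB_l37068 _)
              (CovZ.leaf K2_ok TB_l37069 _))
             (CovZ.n1 (-13752, 28152) (by decide +kernel)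
              (CovZ.n2 (-13752, 28128) (by decide +kernel)
               (CovZ.leaf K2_ok TB_l37070 _)
               (CovZ.leaf K2_ok TB_l37071 _))
              (CovZ.leaf K2_ok TB_l37072 _)))
            (CovZ.subM 245058874740532681743692954742772228166687468066227857784987300311660082962157767352844662858434684604896456252393878484637756916323088081094656 (by decide +kernel)
             (CovZ.n1 (-13824, 28176) (by decide +kernel)
              (CovZ.n2 (-13800, 28200) (by decide +kernel)
               (CovZ.leaf K2_ok TB_l37073 _)
               (CovZ.leaf K2_ok TB_l37074 _))
              (CovZ.n1 (-13800, 28152) (by decide +kernel)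
               (CovZ.leaf K2_ok TB_l37075 _)
               (CovZ.n1 (-13800, 28176) (by decide +kernel)
                (CovZ.leaf K2_ok TB_l37076 _)
                (CovZ.leaf K2_ok TB_l37077 _))))))
           (CovZ.n1 (-13776, 28080) (by decide +kernel)
            (CovZ.n2 (-13824, 28080) (by decide +kernel)
             (CovZ.leaf K2_ok TB_l37078 _)
             (CovZ.leaf K2_ok TB_l37079 _))
            (CovZ.n1 (-13776, 28128) (by decide +kernel)
             (CovZ.n2 (-13752, 28104) (by decide +kernel)
              (CovZ.leaf K2_ok TB_l37080 _)
              (CovZ.leaf K2_ok TB_l37081 _))
             (CovZ.leaf K2_ok TB_l37082 _))))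
          (CovZ.n1 (-13728, 28224) (by decide +kernel)
           (CovZ.n2 (-13680, 28176) (by decide +kernel)
            (CovZ.subM 100165449253630525821202968685906603843553349798633231690113656321349240338440022935552143846463658738672654633902180716511131089895019076388913152 (by decide +kernel)
             (CovZ.n2 (-13728, 28176) (by decide +kernel)
              (CovZ.n2 (-13704, 28200) (by decide +kernel)
               (CovZ.n2 (-13704, 28176) (by decide +kernel)
                (CovZ.leaf K2_ok TB_l37083 _)
                (CovZ.leaf K2_ok TB_l37084 _))
               (CovZ.n1 (-13728, 28200) (by decide +kernel)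
                (CovZ.leaf K2_ok TB_l37085 _)
                (CovZ.leaf K2_ok TB_l37086 _)))
              (CovZ.n1 (-13704, 28152) (by decide +kernel)
               (CovZ.leaf K2_ok TB_l37087 _)
               (CovZ.n1 (-13704, 28176) (by decide +kernel)
                (CovZ.leaf K2_ok TB_l37088 _)
                (CovZ.leaf K2_ok TB_l37089 _)))))
            (CovZ.subM 129139273302251413051790629400393940412343450691878435540688534598631937495563045814157782931936207763233273354646735698066313426383827828824080384 (by decide +kernel)
             (CovZ.n1 (-13680, 28224) (by decide +kernel)
              (CovZ.n2 (-13656, 28200) (by decide +kernel)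
               (CovZ.n2 (-13680, 28200) (by decide +kernel)
                (CovZ.leaf K2_ok TB_l50613 _)
                (CovZ.leaf K2_ok TB_l48308 _))
               (CovZ.n1 (-13656, 28224) (by decide +kernel)
                (CovZ.leaf K2_ok TB_l50614 _)
                (CovZ.leaf K2_ok TB_l50615 _)))
              (CovZ.n1 (-13704, 28200) (by decide +kernel)
               (CovZ.n2 (-13704, 28224) (by decide +kernel)
                (CovZ.leaf K2_ok TB_l37090 _)
                (CovZ.leaf K2_ok TB_l37091 _))
               (CovZ.n1 (-13680, 28200) (by decide +kernel)
                (CovZ.leaf K2_ok TB_l37092 _)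
                (CovZ.leaf K2_ok TB_l37093 _))))))
           (CovZ.n1 (-13776, 28176) (by decide +kernel)
            (CovZ.subM 100165401610624027286258393367595097782097829687538345355847554390783396468884622878546874407632919977753504072555359204059628619329950491875477504 (by decide +kernel)
             (CovZ.n2 (-13776, 28224) (by decide +kernel)
              (CovZ.n2 (-13752, 28200) (by decide +kernel)
               (CovZ.leaf K2_ok TB_l37094 _)
               (CovZ.n1 (-13752, 28224) (by decide +kernel)
                (CovZ.leaf K2_ok TB_l37095 _)
                (CovZ.leaf K2_ok TB_l37096 _)))
              (CovZ.n1 (-13800, 28200) (by decide +kernel)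
               (CovZ.leaf K2_ok TB_l37097 _)
               (CovZ.leaf K2_ok TB_l37098 _))))
            (CovZ.subM 100165401610805736967332295092754157130639077490712614262428077862348187252140826667619596715400368065573884775732215967325790677153323356732260352 (by decide +kernel)
             (CovZ.n1 (-13728, 28176) (by decide +kernel)
              (CovZ.n2 (-13752, 28152) (by decide +kernel)
               (CovZ.n2 (-13752, 28176) (by decide +kernel)
                (CovZ.leaf K2_ok TB_l37099 _)
                (CovZ.leaf K2_ok TB_l37100 _))
               (CovZ.leaf K2_ok TB_l37101 _))
              (CovZ.n1 (-13752, 28200) (by decide +kernel)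
               (CovZ.leaf K2_ok TB_l37102 _)
               (CovZ.n1 (-13752, 28176) (by decide +kernel)
                (CovZ.leaf K2_ok TB_l37103 _)
                (CovZ.leaf K2_ok TB_l37104 _)))))))))

end Pool.Agent.TET
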