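import Pool.Agent.Helper38_TET.TB_M
import Pool.Agent.Helper38_TET.TB_L
import Pool.Agent.Helper38_TET.TB_247
import Pool.Agent.Helper38_TET.TB_322
import Pool.Agent.Helper38_TET.TB_338
import Pool.Agent.Helper38_TET.TB_339
import Pool.Agent.Helper38_TET.TB_340
import Pool.Agent.Helper38_TET.TB_341
import Pool.Agent.Helper38_TET.TB_342
import Pool.Agent.Helper38_TET.TB_343
import Pool.Agent.Helper38_TET.TB_344
import Pool.Agent.Helper38_TET.TB_345

/-!
# MP_c7c9bf_co: certificates, family TB
-/

set_option autoImplicit false
set_option maxRecDepth 100000

namespace Pool.Agent.TET

theorem TB_u496 : CovZ TB_M (toL (selN TB_LN 141644767596008273950770124915702303605627625470977742007484312835887669424014990394479044266627105220328888947805369703037820713423471354692241408)) [0, 7, 6, 1] (-13824, 27648) (-13632, 27840) (-13824, 28032) :=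
    (CovZ.n2 (-13824, 27840) (by decide +kernel)
         (CovZ.n2 (-13728, 27936) (by decide +kernel)
          (CovZ.n2 (-13728, 27840) (by decide +kernel)
           (CovZ.n2 (-13776, 27888) (by decide +kernel)
            (CovZ.n2 (-13728, 27888) (by decide +kernel)
             (CovZ.leaf K2_ok TB_l37105 _)
             (CovZ.leaf K2_ok TB_l37106 _))
            (CovZ.n1 (-13776, 27840) (by decide +kernel)
             (CovZ.leaf K2_ok TB_l37107 _)
             (CovZ.n1 (-13752, 27864) (by decide +kernel)
              (CovZ.leaf K2_ok TB_l37108 _)
              (CovZ.leaf K2_ok TB_l37109 _))))
           (CovZ.n1 (-13680, 27888) (by decide +kernel)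
            (CovZ.n2 (-13680, 27840) (by decide +kernel)
             (CovZ.n2 (-13704, 27864) (by decide +kernel)
              (CovZ.leaf K2_ok TB_l37110 _)
              (CovZ.leaf K2_ok TB_l37111 _))
             (CovZ.n1 (-13656, 27864) (by decide +kernel)
              (CovZ.leaf K2_ok TB_l48309 _)
              (CovZ.leaf K2_ok TB_l48310 _)))
            (CovZ.n1 (-13728, 27888) (by decide +kernel)
             (CovZ.n2 (-13704, 27912) (by decide +kernel)
              (CovZ.leaf K2_ok TB_l37112 _)
              (CovZ.leaf K2_ok TB_l37113 _))
             (CovZ.leaf K2_ok TB_l37114 _))))
          (CovZ.n1 (-13824, 27936) (by decide +kernel)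
           (CovZ.n2 (-13776, 27984) (by decide +kernel)
            (CovZ.n2 (-13776, 27936) (by decide +kernel)
             (CovZ.leaf K2_ok TB_l37115 _)
             (CovZ.leaf K2_ok TB_l37116 _))
            (CovZ.n1 (-13824, 27984) (by decide +kernel)
             (CovZ.leaf K2_ok TB_l37117 _)
             (CovZ.leaf K2_ok TB_l37118 _)))
           (CovZ.n1 (-13776, 27888) (by decide +kernel)
            (CovZ.n2 (-13824, 27888) (by decide +kernel)
             (CovZ.leaf K2_ok TB_l37119 _)
             (CovZ.leaf K2_ok TB_l37120 _))
            (CovZ.n1 (-13776, 27936) (by decide +kernel)
             (CovZ.leaf K2_ok TB_l37121 _)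
             (CovZ.leaf K2_ok TB_l37122 _)))))
         (CovZ.n1 (-13728, 27744) (by decide +kernel)
          (CovZ.n2 (-13824, 27744) (by decide +kernel)
           (CovZ.n2 (-13776, 27792) (by decide +kernel)
            (CovZ.n2 (-13776, 27744) (by decide +kernel)
             (CovZ.leaf K2_ok TB_l37123 _)
             (CovZ.leaf K2_ok TB_l37124 _))
            (CovZ.leaf K2_ok TB_l37125 _))
           (CovZ.n1 (-13776, 27696) (by decide +kernel)
            (CovZ.leaf K2_ok TB_l37126 _)
            (CovZ.n1 (-13776, 27744) (by decide +kernel)
             (CovZ.leaf K2_ok TB_l37127 _)
             (CovZ.leaf K2_ok TB_l37128 _))))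
          (CovZ.n1 (-13728, 27840) (by decide +kernel)
           (CovZ.n2 (-13680, 27792) (by decide +kernel)
            (CovZ.n2 (-13728, 27792) (by decide +kernel)
             (CovZ.leaf K2_ok TB_l37129 _)
             (CovZ.leaf K2_ok TB_l37130 _))
            (CovZ.n1 (-13680, 27840) (by decide +kernel)
             (CovZ.n2 (-13656, 27816) (by decide +kernel)
              (CovZ.leaf K2_ok TB_l48311 _)
              (CovZ.leaf K2_ok TB_l48312 _))
             (CovZ.leaf K2_ok TB_l37131 _)))
           (CovZ.n1 (-13776, 27792) (by decide +kernel)
            (CovZ.n2 (-13776, 27840) (by decide +kernel)
             (CovZ.leaf K2_ok TB_l37132 _)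
             (CovZ.leaf K2_ok TB_l37133 _))
            (CovZ.n1 (-13728, 27792) (by decide +kernel)
             (CovZ.leaf K2_ok TB_l37134 _)
             (CovZ.leaf K2_ok TB_l37135 _))))))

theorem TB_u497 : CovZ TB_M (toL (selN TB_LN 141644767596008273950770124915702303605627625470977742007484312835887669424014990394479044266627105220328888947805369703037820713423471354692241408)) [0, 7, 6, 1] (-13632, 27840) (-13440, 28032) (-13824, 28032) :=
    (CovZ.n1 (-13632, 28032) (by decide +kernel)
         (CovZ.n2 (-13536, 27936) (by decide +kernel)
          (CovZ.n2 (-13632, 27936) (by decide +kernel)
           (CovZ.n2 (-13584, 27984) (by decide +kernel)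
            (CovZ.n2 (-13584, 27936) (by decide +kernel)
             (CovZ.n2 (-13608, 27960) (by decide +kernel)
              (CovZ.n2 (-13584, 27960) (by decide +kernel)
               (CovZ.leaf K2_ok TB_l48313 _)
               (CovZ.leaf K2_ok TB_l48314 _))
              (CovZ.n1 (-13608, 27936) (by decide +kernel)
               (CovZ.leaf K2_ok TB_l48315 _)
               (CovZ.leaf K2_ok TB_l48316 _)))
             (CovZ.subM 138521875803946047648795807055899285221999051873489429491977447769272193353405438453667135577607396944754384350367605042443646249878090805745287168 (by decide +kernel)
              (CovZ.n1 (-13560, 27960) (by decide +kernel)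
               (CovZ.n2 (-13560, 27936) (by decide +kernel)
                (CovZ.leaf K2_ok TB_l48317 _)
                (CovZ.leaf K2_ok TB_l50616 _))
               (CovZ.n1 (-13584, 27960) (by decide +kernel)
                (CovZ.leaf K2_ok TB_l48318 _)
                (CovZ.leaf K2_ok TB_l48319 _)))))
            (CovZ.n1 (-13632, 27984) (by decide +kernel)
             (CovZ.n2 (-13608, 28008) (by decide +kernel)
              (CovZ.n2 (-13608, 27984) (by decide +kernel)
               (CovZ.leaf K2_ok TB_l48320 _)
               (CovZ.leaf K2_ok TB_l48321 _))
              (CovZ.n1 (-13632, 28008) (by decide +kernel)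
               (CovZ.leaf K2_ok TB_l48322 _)
               (CovZ.leaf K2_ok TB_l48323 _)))
             (CovZ.n1 (-13608, 27960) (by decide +kernel)
              (CovZ.leaf K2_ok TB_l48324 _)
              (CovZ.n1 (-13608, 27984) (by decide +kernel)
               (CovZ.leaf K2_ok TB_l48325 _)
               (CovZ.leaf K2_ok TB_l48326 _)))))
           (CovZ.n1 (-13584, 27888) (by decide +kernel)
            (CovZ.n2 (-13632, 27888) (by decide +kernel)
             (CovZ.n2 (-13608, 27912) (by decide +kernel)
              (CovZ.n2 (-13608, 27888) (by decide +kernel)
               (CovZ.leaf K2_ok TB_l48327 _)
               (CovZ.leaf K2_ok TB_l48328 _))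
              (CovZ.leaf K2_ok TB_l48329 _))
             (CovZ.n1 (-13608, 27864) (by decide +kernel)
              (CovZ.leaf K2_ok TB_l48330 _)
              (CovZ.leaf K2_ok TB_l48331 _)))
            (CovZ.n1 (-13584, 27936) (by decide +kernel)
             (CovZ.subM 113547887401418109797743029217553954776010266732169660285104192092269219442847313492704686753099461181184759672220191583513206322241765068825952256 (by decide +kernel)
              (CovZ.n2 (-13560, 27912) (by decide +kernel)
               (CovZ.n2 (-13584, 27912) (by decide +kernel)
                (CovZ.leaf K2_ok TB_l48332 _)
                (CovZ.leaf K2_ok TB_l48333 _))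
               (CovZ.n1 (-13560, 27936) (by decide +kernel)
                (CovZ.leaf K2_ok TB_l50617 _)
                (CovZ.leaf K2_ok TB_l48334 _))))
             (CovZ.n1 (-13608, 27912) (by decide +kernel)
              (CovZ.n2 (-13608, 27936) (by decide +kernel)
               (CovZ.leaf K2_ok TB_l48335 _)
               (CovZ.leaf K2_ok TB_l48336 _))
              (CovZ.leaf K2_ok TB_l48337 _)))))
          (CovZ.n1 (-13536, 28032) (by decide +kernel)
           (CovZ.subM 138521875803934512952961588730343849390778522000161988117994920647595278275001390605095542764849447411228590271327442687953090916118338672758095872 (by decide +kernel)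
            (CovZ.n2 (-13488, 27984) (by decide +kernel)
             (CovZ.n2 (-13536, 27984) (by decide +kernel)
              (CovZ.n2 (-13512, 28008) (by decide +kernel)
               (CovZ.n2 (-13512, 27984) (by decide +kernel)
                (CovZ.n2 (-13524, 27996) (by decide +kernel)
                 (CovZ.leaf K2_ok TB_l50618 _)
                 (CovZ.leaf K2_ok TB_l50619 _))
                (CovZ.n1 (-13500, 27996) (by decide +kernel)
                 (CovZ.n2 (-13500, 27984) (by decide +kernel)
                  (CovZ.leaf K2_ok TB_l50620 _)
                  (CovZ.leaf K2_ok TB_l50621 _))
                 (CovZ.leaf K2_ok TB_l50622 _)))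
               (CovZ.n1 (-13536, 28008) (by decide +kernel)
                (CovZ.n2 (-13524, 28020) (by decide +kernel)
                 (CovZ.leaf K2_ok TB_l50623 _)
                 (CovZ.n1 (-13536, 28020) (by decide +kernel)
                  (CovZ.leaf K2_ok TB_l50624 _)
                  (CovZ.leaf K2_ok TB_l50625 _)))
                (CovZ.n1 (-13524, 27996) (by decide +kernel)
                 (CovZ.leaf K2_ok TB_l50626 _)
                 (CovZ.leaf K2_ok TB_l50627 _))))
              (CovZ.n1 (-13512, 27960) (by decide +kernel)
               (CovZ.n2 (-13536, 27960) (by decide +kernel)
                (CovZ.leaf K2_ok TB_l50628 _)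
                (CovZ.leaf K2_ok TB_l50629 _))
               (CovZ.n1 (-13512, 27984) (by decide +kernel)
                (CovZ.n2 (-13500, 27972) (by decide +kernel)
                 (CovZ.leaf K2_ok TB_l50630 _)
                 (CovZ.leaf K2_ok TB_l50631 _))
                (CovZ.leaf K2_ok TB_l50632 _))))
             (CovZ.n1 (-13488, 28032) (by decide +kernel)
              (CovZ.subM 38357617435117141755270010865655735332924713331942958420252485225226093916450224935611474285369087288980568098007886460930196734634077997800357888 (by decide +kernel)
               (CovZ.n2 (-13464, 28008) (by decide +kernel)
                (CovZ.n2 (-13488, 28008) (by decide +kernel)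
                 (CovZ.n2 (-13476, 28020) (by decide +kernel)
                  (CovZ.n2 (-13476, 28008) (by decide +kernel)
                   (CovZ.leaf K2_ok TB_l50633 _)
                   (CovZ.leaf K2_ok TB_l50634 _))
                  (CovZ.leaf K2_ok TB_l50635 _))
                 (CovZ.n1 (-13476, 27996) (by decide +kernel)
                  (CovZ.leaf K2_ok TB_l50636 _)
                  (CovZ.n1 (-13476, 28008) (by decide +kernel)
                   (CovZ.leaf K2_ok TB_l50637 _)
                   (CovZ.leaf K2_ok TB_l50638 _))))
                (CovZ.n1 (-13464, 28032) (by decide +kernel)
                 (CovZ.subM 37479482511495269062030534707649018155854923081203348598439768599813665792561815024830181482777517900147214122821247422177811580565603865178669056 (by decide +kernel)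
                  (CovZ.n2 (-13452, 28020) (by decide +kernel)
                   (CovZ.n2 (-13464, 28020) (by decide +kernel)
                    (CovZ.leaf K2_ok TB_l50639 _)
                    (CovZ.leaf K2_ok TB_l50640 _))
                   (CovZ.n1 (-13452, 28032) (by decide +kernel)
                    (CovZ.leaf K2_ok TB_l50641 _)
                    (CovZ.leaf K2_ok TB_l50642 _))))
                 (CovZ.n1 (-13476, 28020) (by decide +kernel)
                  (CovZ.n2 (-13476, 28032) (by decide +kernel)
                   (CovZ.leaf K2_ok TB_l50643 _)
                   (CovZ.leaf K2_ok TB_l50644 _))
                  (CovZ.n1 (-13464, 28020) (by decide +kernel)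
                   (CovZ.leaf K2_ok TB_l50645 _)
                   (CovZ.leaf K2_ok TB_l50646 _))))))
              (CovZ.n1 (-13512, 28008) (by decide +kernel)
               (CovZ.n2 (-13512, 28032) (by decide +kernel)
                (CovZ.n2 (-13500, 28020) (by decide +kernel)
                 (CovZ.leaf K2_ok TB_l50647 _)
                 (CovZ.leaf K2_ok TB_l50648 _))
                (CovZ.n1 (-13524, 28020) (by decide +kernel)
                 (CovZ.leaf K2_ok TB_l50649 _)
                 (CovZ.leaf K2_ok TB_l50650 _)))
               (CovZ.n1 (-13488, 28008) (by decide +kernel)
                (CovZ.n2 (-13500, 27996) (by decide +kernel)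
                 (CovZ.leaf K2_ok TB_l50651 _)
                 (CovZ.leaf K2_ok TB_l50652 _))
                (CovZ.n1 (-13500, 28020) (by decide +kernel)
                 (CovZ.leaf K2_ok TB_l50653 _)
                 (CovZ.n1 (-13500, 28008) (by decide +kernel)
                  (CovZ.leaf K2_ok TB_l50654 _)
                  (CovZ.leaf K2_ok TB_l50655 _))))))))
           (CovZ.n1 (-13584, 27984) (by decide +kernel)
            (CovZ.n2 (-13584, 28032) (by decide +kernel)
             (CovZ.subM 138522637949588214639086671703660465194241666277332853557199825493139289391427611248007985261714590180098905792489460854607439083856528131986817024 (by decide +kernel)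
              (CovZ.n2 (-13560, 28008) (by decide +kernel)
               (CovZ.n2 (-13584, 28008) (by decide +kernel)
                (CovZ.leaf K2_ok TB_l50656 _)
                (CovZ.leaf K2_ok TB_l48338 _))
               (CovZ.n1 (-13560, 28032) (by decide +kernel)
                (CovZ.n2 (-13548, 28020) (by decide +kernel)
                 (CovZ.leaf K2_ok TB_l50657 _)
                 (CovZ.leaf K2_ok TB_l50658 _))
                (CovZ.leaf K2_ok TB_l50659 _))))
             (CovZ.n1 (-13608, 28008) (by decide +kernel)
              (CovZ.n2 (-13608, 28032) (by decide +kernel)
               (CovZ.leaf K2_ok TB_l48339 _)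
               (CovZ.leaf K2_ok TB_l48340 _))
              (CovZ.n1 (-13584, 28008) (by decide +kernel)
               (CovZ.leaf K2_ok TB_l48341 _)
               (CovZ.leaf K2_ok TB_l48342 _))))
            (CovZ.subM 138521875803946047648795807055899285221999051873489429491977447769272193353405438453667135577607396944754384350367605042443646249878090805745287168 (by decide +kernel)
             (CovZ.n1 (-13536, 27984) (by decide +kernel)
              (CovZ.n2 (-13560, 27960) (by decide +kernel)
               (CovZ.n2 (-13560, 27984) (by decide +kernel)
                (CovZ.leaf K2_ok TB_l50660 _)
                (CovZ.leaf K2_ok TB_l48343 _))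
               (CovZ.n1 (-13536, 27960) (by decide +kernel)
                (CovZ.leaf K2_ok TB_l50661 _)
                (CovZ.leaf K2_ok TB_l50662 _)))
              (CovZ.n1 (-13560, 28008) (by decide +kernel)
               (CovZ.n2 (-13536, 28008) (by decide +kernel)
                (CovZ.leaf K2_ok TB_l50663 _)
                (CovZ.n1 (-13548, 28020) (by decide +kernel)
                 (CovZ.leaf K2_ok TB_l50664 _)
                 (CovZ.leaf K2_ok TB_l50665 _)))
               (CovZ.n1 (-13560, 27984) (by decide +kernel)
                (CovZ.leaf K2_ok TB_l48344 _)
                (CovZ.leaf K2_ok TB_l50666 _))))))))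
         (CovZ.n1 (-13728, 27936) (by decide +kernel)
          (CovZ.n2 (-13728, 28032) (by decide +kernel)
           (CovZ.n2 (-13680, 27984) (by decide +kernel)
            (CovZ.n2 (-13728, 27984) (by decide +kernel)
             (CovZ.n2 (-13704, 28008) (by decide +kernel)
              (CovZ.leaf K2_ok TB_l37136 _)
              (CovZ.leaf K2_ok TB_l37137 _))
             (CovZ.n1 (-13704, 27960) (by decide +kernel)
              (CovZ.leaf K2_ok TB_l37138 _)
              (CovZ.leaf K2_ok TB_l37139 _)))
            (CovZ.n1 (-13680, 28032) (by decide +kernel)
             (CovZ.n2 (-13656, 28008) (by decide +kernel)
              (CovZ.leaf K2_ok TB_l48345 _)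
              (CovZ.n1 (-13656, 28032) (by decide +kernel)
               (CovZ.leaf K2_ok TB_l48346 _)
               (CovZ.leaf K2_ok TB_l48347 _)))
             (CovZ.n1 (-13704, 28008) (by decide +kernel)
              (CovZ.n2 (-13704, 28032) (by decide +kernel)
               (CovZ.leaf K2_ok TB_l37140 _)
               (CovZ.leaf K2_ok TB_l37141 _))
              (CovZ.leaf K2_ok TB_l37142 _))))
           (CovZ.n1 (-13776, 27984) (by decide +kernel)
            (CovZ.n2 (-13776, 28032) (by decide +kernel)
             (CovZ.n2 (-13752, 28008) (by decide +kernel)
              (CovZ.leaf K2_ok TB_l37143 _)
              (CovZ.leaf K2_ok TB_l37144 _))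
             (CovZ.leaf K2_ok TB_l37145 _))
            (CovZ.n1 (-13728, 27984) (by decide +kernel)
             (CovZ.leaf K2_ok TB_l37146 _)
             (CovZ.n1 (-13752, 28008) (by decide +kernel)
              (CovZ.leaf K2_ok TB_l37147 _)
              (CovZ.leaf K2_ok TB_l37148 _)))))
          (CovZ.n1 (-13632, 27936) (by decide +kernel)
           (CovZ.n2 (-13680, 27888) (by decide +kernel)
            (CovZ.n2 (-13680, 27936) (by decide +kernel)
             (CovZ.n2 (-13656, 27912) (by decide +kernel)
              (CovZ.leaf K2_ok TB_l48348 _)
              (CovZ.n1 (-13656, 27936) (by decide +kernel)
               (CovZ.leaf K2_ok TB_l48349 _)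
               (CovZ.leaf K2_ok TB_l48350 _)))
             (CovZ.n1 (-13704, 27912) (by decide +kernel)
              (CovZ.leaf K2_ok TB_l37149 _)
              (CovZ.leaf K2_ok TB_l37150 _)))
            (CovZ.n1 (-13632, 27888) (by decide +kernel)
             (CovZ.n2 (-13656, 27864) (by decide +kernel)
              (CovZ.leaf K2_ok TB_l48351 _)
              (CovZ.leaf K2_ok TB_l48352 _))
             (CovZ.n1 (-13656, 27912) (by decide +kernel)
              (CovZ.leaf K2_ok TB_l48353 _)
              (CovZ.leaf K2_ok TB_l48354 _))))
           (CovZ.n1 (-13680, 27984) (by decide +kernel)
            (CovZ.n2 (-13632, 27984) (by decide +kernel)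
             (CovZ.n2 (-13656, 27960) (by decide +kernel)
              (CovZ.n2 (-13656, 27984) (by decide +kernel)
               (CovZ.leaf K2_ok TB_l48355 _)
               (CovZ.leaf K2_ok TB_l48356 _))
              (CovZ.leaf K2_ok TB_l48357 _))
             (CovZ.n1 (-13656, 28008) (by decide +kernel)
              (CovZ.leaf K2_ok TB_l48358 _)
              (CovZ.n1 (-13656, 27984) (by decide +kernel)
               (CovZ.leaf K2_ok TB_l48359 _)
               (CovZ.leaf K2_ok TB_l48360 _))))
            (CovZ.n1 (-13680, 27936) (by decide +kernel)
             (CovZ.n2 (-13704, 27960) (by decide +kernel)
              (CovZ.leaf K2_ok TB_l37151 _)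
              (CovZ.leaf K2_ok TB_l37152 _))
             (CovZ.n1 (-13656, 27960) (by decide +kernel)
              (CovZ.leaf K2_ok TB_l48361 _)
              (CovZ.leaf K2_ok TB_l48362 _)))))))

theorem TB_u498 : CovZ TB_M (toL (selN TB_LN 129041623384534242954107357140920936767543402817967704296210449147149668757485598919964868122300137250014763964598947725914116001672008410972817408)) [0, 7, 6, 1] (-13632, 28416) (-13632, 28320) (-13536, 28320) :=
    (CovZ.subM 28291227310189568396441117287347182670412820476483093325393093037321660574111266440656927070234732048104363682836882893004262766201514002881708032 (by decide +kernel)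
             (CovZ.n2 (-13584, 28368) (by decide +kernel)
              (CovZ.n2 (-13584, 28320) (by decide +kernel)
               (CovZ.n2 (-13608, 28344) (by decide +kernel)
                (CovZ.subM 28096118025679741998994977160553167274004858546539106744087997836209199255921201846640243252934612702155928290592440854253555173876368741603737600 (by decide +kernel)
                 (CovZ.n2 (-13584, 28344) (by decide +kernel)
                  (CovZ.n2 (-13596, 28332) (by decide +kernel)
                   (CovZ.n2 (-13596, 28344) (by decide +kernel)
                    (CovZ.n2 (-13590, 28338) (by decide +kernel)
                     (CovZ.leaf K2_ok TB_l50724 _)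
                     (CovZ.leaf K2_ok TB_l50725 _))
                    (CovZ.n1 (-13602, 28338) (by decide +kernel)
                     (CovZ.leaf K2_ok TB_l50726 _)
                     (CovZ.leaf K2_ok TB_l50727 _)))
                   (CovZ.n1 (-13584, 28332) (by decide +kernel)
                    (CovZ.n2 (-13590, 28326) (by decide +kernel)
                     (CovZ.n2 (-13590, 28332) (by decide +kernel)
                      (CovZ.leaf K2_ok TB_l50728 _)
                      (CovZ.leaf K2_ok TB_l50729 _))
                     (CovZ.leaf K2_ok TB_l50730 _))
                    (CovZ.n1 (-13590, 28338) (by decide +kernel)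
                     (CovZ.leaf K2_ok TB_l50731 _)
                     (CovZ.leaf K2_ok TB_l50732 _))))
                  (CovZ.n1 (-13596, 28356) (by decide +kernel)
                   (CovZ.subM 24973988402542311370747100142577384945119382887238383696672003910128657676704031157822113187737774996599859308544109859201207721550667684484481024 (by decide +kernel)
                    (CovZ.n2 (-13584, 28356) (by decide +kernel)
                     (CovZ.n2 (-13590, 28350) (by decide +kernel)
                      (CovZ.leaf K2_ok TB_l50733 _)
                      (CovZ.leaf K2_ok TB_l50734 _))
                     (CovZ.n1 (-13590, 28362) (by decide +kernel)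
                      (CovZ.leaf K2_ok TB_l50735 _)
                      (CovZ.leaf K2_ok TB_l50736 _))))
                   (CovZ.n1 (-13596, 28344) (by decide +kernel)
                    (CovZ.n2 (-13602, 28350) (by decide +kernel)
                     (CovZ.leaf K2_ok TB_l50737 _)
                     (CovZ.n1 (-13602, 28344) (by decide +kernel)
                      (CovZ.leaf K2_ok TB_l50738 _)
                      (CovZ.leaf K2_ok TB_l50739 _)))
                    (CovZ.n1 (-13590, 28350) (by decide +kernel)
                     (CovZ.n2 (-13590, 28344) (by decide +kernel)
                      (CovZ.leaf K2_ok TB_l50740 _)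
                      (CovZ.leaf K2_ok TB_l50741 _))
                     (CovZ.leaf K2_ok TB_l50742 _))))))
                (CovZ.n1 (-13608, 28320) (by decide +kernel)
                 (CovZ.n2 (-13620, 28332) (by decide +kernel)
                  (CovZ.n2 (-13608, 28332) (by decide +kernel)
                   (CovZ.leaf K2_ok TB_l50743 _)
                   (CovZ.leaf K2_ok TB_l50744 _))
                  (CovZ.n1 (-13620, 28320) (by decide +kernel)
                   (CovZ.n2 (-13626, 28326) (by decide +kernel)
                    (CovZ.n2 (-13620, 28326) (by decide +kernel)
                     (CovZ.leaf K2_ok TB_l50745 _)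
                     (CovZ.leaf K2_ok TB_l50746 _))
                    (CovZ.leaf K2_ok TB_l50747 _))
                   (CovZ.leaf K2_ok TB_l50748 _)))
                 (CovZ.n1 (-13596, 28332) (by decide +kernel)
                  (CovZ.n2 (-13596, 28320) (by decide +kernel)
                   (CovZ.n2 (-13602, 28326) (by decide +kernel)
                    (CovZ.leaf K2_ok TB_l50749 _)
                    (CovZ.leaf K2_ok TB_l50750 _))
                   (CovZ.n1 (-13590, 28326) (by decide +kernel)
                    (CovZ.leaf K2_ok TB_l50751 _)
                    (CovZ.leaf K2_ok TB_l50752 _)))
                  (CovZ.n1 (-13608, 28332) (by decide +kernel)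
                   (CovZ.n2 (-13602, 28338) (by decide +kernel)
                    (CovZ.leaf K2_ok TB_l50753 _)
                    (CovZ.leaf K2_ok TB_l50754 _))
                   (CovZ.leaf K2_ok TB_l50755 _)))))
               (CovZ.subM 28095736952858658503849544836672577287883551344617394711476808974275651236910115449469818410881016084483667569531512948171658756887150078482972672 (by decide +kernel)
                (CovZ.n1 (-13560, 28344) (by decide +kernel)
                 (CovZ.n2 (-13560, 28320) (by decide +kernel)
                  (CovZ.n2 (-13572, 28332) (by decide +kernel)
                   (CovZ.n2 (-13560, 28332) (by decide +kernel)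
                    (CovZ.n2 (-13566, 28326) (by decide +kernel)
                     (CovZ.leaf K2_ok TB_l50756 _)
                     (CovZ.n1 (-13560, 28326) (by decide +kernel)
                      (CovZ.leaf K2_ok TB_l50757 _)
                      (CovZ.leaf K2_ok TB_l50758 _)))
                    (CovZ.n1 (-13566, 28338) (by decide +kernel)
                     (CovZ.badM (by decide +kernel))
                     (CovZ.n1 (-13566, 28332) (by decide +kernel)
                      (CovZ.leaf K2_ok TB_l50759 _)
                      (CovZ.leaf K2_ok TB_l50760 _))))
                   (CovZ.n1 (-13572, 28320) (by decide +kernel)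
                    (CovZ.n2 (-13578, 28326) (by decide +kernel)
                     (CovZ.n2 (-13572, 28326) (by decide +kernel)
                      (CovZ.leaf K2_ok TB_l50761 _)
                      (CovZ.leaf K2_ok TB_l50762 _))
                     (CovZ.leaf K2_ok TB_l50763 _))
                    (CovZ.n1 (-13566, 28326) (by decide +kernel)
                     (CovZ.n2 (-13566, 28320) (by decide +kernel)
                      (CovZ.leaf K2_ok TB_l50764 _)
                      (CovZ.leaf K2_ok TB_l50765 _))
                     (CovZ.leaf K2_ok TB_l50766 _))))
                  (CovZ.subM 24973988402530777064819557552761538742113347659032088118438440513175948481648674333181641785145928703070466087899224711763608282691859151987933184 (by decide +kernel)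
                   (CovZ.n1 (-13548, 28332) (by decide +kernel)
                    (CovZ.n2 (-13548, 28320) (by decide +kernel)
                     (CovZ.n2 (-13554, 28326) (by decide +kernel)
                      (CovZ.badM (by decide +kernel))
                      (CovZ.n1 (-13554, 28320) (by decide +kernel)
                       (CovZ.leaf K2_ok TB_l50767 _)
                       (CovZ.badM (by decide +kernel))))
                     (CovZ.badM (by decide +kernel)))
                    (CovZ.n1 (-13560, 28332) (by decide +kernel)
                     (CovZ.badM (by decide +kernel))
                     (CovZ.n1 (-13554, 28326) (by decide +kernel)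
                      (CovZ.n2 (-13560, 28326) (by decide +kernel)
                       (CovZ.badM (by decide +kernel))
                       (CovZ.leaf K2_ok TB_l50768 _))
                      (CovZ.badM (by decide +kernel)))))))
                 (CovZ.n1 (-13584, 28344) (by decide +kernel)
                  (CovZ.n2 (-13572, 28356) (by decide +kernel)
                   (CovZ.n2 (-13572, 28344) (by decide +kernel)
                    (CovZ.n2 (-13578, 28350) (by decide +kernel)
                     (CovZ.leaf K2_ok TB_l50769 _)
                     (CovZ.leaf K2_ok TB_l50770 _))
                    (CovZ.n1 (-13566, 28350) (by decide +kernel)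
                     (CovZ.n2 (-13566, 28344) (by decide +kernel)
                      (CovZ.leaf K2_ok TB_l50771 _)
                      (CovZ.badM (by decide +kernel)))
                     (CovZ.n1 (-13572, 28350) (by decide +kernel)
                      (CovZ.n2 (-13569, 28353) (by decide +kernel)
                       (CovZ.leaf K2_ok TB_l50772 _)
                       (CovZ.leaf K2_ok TB_l50773 _))
                      (CovZ.leaf K2_ok TB_l50774 _))))
                   (CovZ.n1 (-13584, 28356) (by decide +kernel)
                    (CovZ.n2 (-13578, 28362) (by decide +kernel)
                     (CovZ.leaf K2_ok TB_l50775 _)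
                     (CovZ.leaf K2_ok TB_l50776 _))
                    (CovZ.n1 (-13578, 28350) (by decide +kernel)
                     (CovZ.leaf K2_ok TB_l50777 _)
                     (CovZ.leaf K2_ok TB_l50778 _))))
                  (CovZ.n1 (-13572, 28332) (by decide +kernel)
                   (CovZ.n2 (-13584, 28332) (by decide +kernel)
                    (CovZ.n2 (-13578, 28338) (by decide +kernel)
                     (CovZ.n2 (-13578, 28332) (by decide +kernel)
                      (CovZ.leaf K2_ok TB_l50779 _)
                      (CovZ.leaf K2_ok TB_l50780 _))
                     (CovZ.leaf K2_ok TB_l50781 _))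
                    (CovZ.n1 (-13578, 28326) (by decide +kernel)
                     (CovZ.leaf K2_ok TB_l50782 _)
                     (CovZ.leaf K2_ok TB_l50783 _)))
                   (CovZ.n1 (-13572, 28344) (by decide +kernel)
                    (CovZ.n2 (-13566, 28338) (by decide +kernel)
                     (CovZ.leaf K2_ok TB_l50784 _)
                     (CovZ.n1 (-13566, 28344) (by decide +kernel)
                      (CovZ.badM (by decide +kernel))
                      (CovZ.leaf K2_ok TB_l50785 _)))
                    (CovZ.n1 (-13578, 28338) (by decide +kernel)
                     (CovZ.leaf K2_ok TB_l50786 _)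
                     (CovZ.leaf K2_ok TB_l50787 _))))))))
              (CovZ.n1 (-13632, 28368) (by decide +kernel)
               (CovZ.subM 24974369475375993876982617449179899245293436261508510899353700482579780354929430394215206792622465257973457239847912310945712756370277206178398208 (by decide +kernel)
                (CovZ.n2 (-13608, 28392) (by decide +kernel)
                 (CovZ.n2 (-13608, 28368) (by decide +kernel)
                  (CovZ.n2 (-13620, 28380) (by decide +kernel)
                   (CovZ.n2 (-13608, 28380) (by decide +kernel)
                    (CovZ.n2 (-13614, 28374) (by decide +kernel)
                     (CovZ.leaf K2_ok TB_l50788 _)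
                     (CovZ.leaf K2_ok TB_l50789 _))
                    (CovZ.n1 (-13614, 28386) (by decide +kernel)
                     (CovZ.leaf K2_ok TB_l50790 _)
                     (CovZ.leaf K2_ok TB_l50791 _)))
                   (CovZ.n1 (-13620, 28368) (by decide +kernel)
                    (CovZ.n2 (-13626, 28374) (by decide +kernel)
                     (CovZ.leaf K2_ok TB_l50792 _)
                     (CovZ.leaf K2_ok TB_l50793 _))
                    (CovZ.leaf K2_ok TB_l50794 _)))
                  (CovZ.n1 (-13596, 28380) (by decide +kernel)
                   (CovZ.n2 (-13596, 28368) (by decide +kernel)
                    (CovZ.n2 (-13602, 28374) (by decide +kernel)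
                     (CovZ.leaf K2_ok TB_l50795 _)
                     (CovZ.leaf K2_ok TB_l50796 _))
                    (CovZ.n1 (-13590, 28374) (by decide +kernel)
                     (CovZ.leaf K2_ok TB_l50797 _)
                     (CovZ.leaf K2_ok TB_l50798 _)))
                   (CovZ.n1 (-13608, 28380) (by decide +kernel)
                    (CovZ.n2 (-13602, 28386) (by decide +kernel)
                     (CovZ.n2 (-13602, 28380) (by decide +kernel)
                      (CovZ.leaf K2_ok TB_l50799 _)
                      (CovZ.n1 (-13599, 28383) (by decide +kernel)
                       (CovZ.leaf K2_ok TB_l50800 _)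
                       (CovZ.leaf K2_ok TB_l50801 _)))
                     (CovZ.leaf K2_ok TB_l50802 _))
                    (CovZ.n1 (-13602, 28374) (by decide +kernel)
                     (CovZ.leaf K2_ok TB_l50803 _)
                     (CovZ.leaf K2_ok TB_l50804 _)))))
                 (CovZ.n1 (-13632, 28392) (by decide +kernel)
                  (CovZ.n2 (-13620, 28404) (by decide +kernel)
                   (CovZ.n2 (-13620, 28392) (by decide +kernel)
                    (CovZ.n2 (-13626, 28398) (by decide +kernel)
                     (CovZ.leaf K2_ok TB_l50805 _)
                     (CovZ.leaf K2_ok TB_l50806 _))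
                    (CovZ.n1 (-13614, 28398) (by decide +kernel)
                     (CovZ.leaf K2_ok TB_l50807 _)
                     (CovZ.leaf K2_ok TB_l50808 _)))
                   (CovZ.n1 (-13632, 28404) (by decide +kernel)
                    (CovZ.leaf K2_ok TB_l50809 _)
                    (CovZ.leaf K2_ok TB_l50810 _)))
                  (CovZ.n1 (-13620, 28380) (by decide +kernel)
                   (CovZ.n2 (-13632, 28380) (by decide +kernel)
                    (CovZ.n2 (-13626, 28386) (by decide +kernel)
                     (CovZ.leaf K2_ok TB_l50811 _)
                     (CovZ.leaf K2_ok TB_l50812 _))
                    (CovZ.leaf K2_ok TB_l50813 _))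
                   (CovZ.n1 (-13620, 28392) (by decide +kernel)
                    (CovZ.leaf K2_ok TB_l50814 _)
                    (CovZ.n1 (-13626, 28386) (by decide +kernel)
                     (CovZ.leaf K2_ok TB_l50815 _)
                     (CovZ.leaf K2_ok TB_l50816 _)))))))
               (CovZ.n1 (-13608, 28344) (by decide +kernel)
                (CovZ.n2 (-13632, 28344) (by decide +kernel)
                 (CovZ.n2 (-13620, 28356) (by decide +kernel)
                  (CovZ.n2 (-13620, 28344) (by decide +kernel)
                   (CovZ.leaf K2_ok TB_l50817 _)
                   (CovZ.leaf K2_ok TB_l50818 _))
                  (CovZ.leaf K2_ok TB_l50819 _))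
                 (CovZ.n1 (-13620, 28332) (by decide +kernel)
                  (CovZ.leaf K2_ok TB_l50820 _)
                  (CovZ.n1 (-13620, 28344) (by decide +kernel)
                   (CovZ.leaf K2_ok TB_l50821 _)
                   (CovZ.leaf K2_ok TB_l50822 _))))
                (CovZ.subM 24974369475387528182910160038995745448299471489714806477587263879532489549984787218855678195214311551502850460492797458383312195229085738674946048 (by decide +kernel)
                 (CovZ.n1 (-13608, 28368) (by decide +kernel)
                  (CovZ.n2 (-13596, 28356) (by decide +kernel)
                   (CovZ.n2 (-13608, 28356) (by decide +kernel)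
                    (CovZ.leaf K2_ok TB_l50823 _)
                    (CovZ.leaf K2_ok TB_l50824 _))
                   (CovZ.subM 24974369475363217415032108734306961912732904931803075797310368719801394785021958219228838469751497055910129364672039532245602608711289293259145216 (by decide +kernel)
                    (CovZ.n1 (-13596, 28368) (by decide +kernel)
                     (CovZ.n2 (-13590, 28362) (by decide +kernel)
                      (CovZ.leaf K2_ok TB_l50825 _)
                      (CovZ.n1 (-13590, 28368) (by decide +kernel)
                       (CovZ.leaf K2_ok TB_l50826 _)
                       (CovZ.leaf K2_ok TB_l50827 _)))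
                     (CovZ.leaf K2_ok TB_l50828 _))))
                  (CovZ.n1 (-13620, 28356) (by decide +kernel)
                   (CovZ.n2 (-13620, 28368) (by decide +kernel)
                    (CovZ.leaf K2_ok TB_l50829 _)
                    (CovZ.leaf K2_ok TB_l50830 _))
                   (CovZ.n1 (-13608, 28356) (by decide +kernel)
                    (CovZ.leaf K2_ok TB_l50831 _)
                    (CovZ.leaf K2_ok TB_l50832 _)))))))))

theorem TB_u499 : CovZ TB_M (toL (selN TB_LN 129041623384534242954107357140920936767543402817967704296210449147149668757485598919964868122300137250014763964598947725914116001672008410972817408)) [0, 7, 6, 1] (-13632, 28320) (-13632, 28224) (-13536, 28320) :=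
    (CovZ.n1 (-13584, 28272) (by decide +kernel)
             (CovZ.n2 (-13632, 28272) (by decide +kernel)
              (CovZ.subM 129017233863402126908552134112309050991859283188672628128040351311094526266263410939705818425856678305919321447969374795756263282695894560663404544 (by decide +kernel)
               (CovZ.n2 (-13608, 28296) (by decide +kernel)
                (CovZ.n2 (-13608, 28272) (by decide +kernel)
                 (CovZ.n2 (-13620, 28284) (by decide +kernel)
                  (CovZ.leaf K2_ok TB_l50833 _)
                  (CovZ.n1 (-13620, 28272) (by decide +kernel)
                   (CovZ.leaf K2_ok TB_l50834 _)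
                   (CovZ.leaf K2_ok TB_l50835 _)))
                 (CovZ.n1 (-13596, 28284) (by decide +kernel)
                  (CovZ.n2 (-13596, 28272) (by decide +kernel)
                   (CovZ.leaf K2_ok TB_l50836 _)
                   (CovZ.leaf K2_ok TB_l50837 _))
                  (CovZ.n1 (-13608, 28284) (by decide +kernel)
                   (CovZ.leaf K2_ok TB_l50838 _)
                   (CovZ.leaf K2_ok TB_l50839 _))))
                (CovZ.n1 (-13632, 28296) (by decide +kernel)
                 (CovZ.n2 (-13620, 28308) (by decide +kernel)
                  (CovZ.n2 (-13620, 28296) (by decide +kernel)
                   (CovZ.leaf K2_ok TB_l50840 _)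
                   (CovZ.leaf K2_ok TB_l50841 _))
                  (CovZ.leaf K2_ok TB_l50842 _))
                 (CovZ.n1 (-13620, 28284) (by decide +kernel)
                  (CovZ.leaf K2_ok TB_l50843 _)
                  (CovZ.n1 (-13620, 28296) (by decide +kernel)
                   (CovZ.leaf K2_ok TB_l50844 _)
                   (CovZ.leaf K2_ok TB_l50845 _))))))
              (CovZ.n1 (-13608, 28248) (by decide +kernel)
               (CovZ.n2 (-13632, 28248) (by decide +kernel)
                (CovZ.n2 (-13620, 28260) (by decide +kernel)
                 (CovZ.leaf K2_ok TB_l50846 _)
                 (CovZ.leaf K2_ok TB_l50847 _))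
                (CovZ.n1 (-13620, 28236) (by decide +kernel)
                 (CovZ.leaf K2_ok TB_l50848 _)
                 (CovZ.n1 (-13620, 28248) (by decide +kernel)
                  (CovZ.leaf K2_ok TB_l50849 _)
                  (CovZ.leaf K2_ok TB_l50850 _))))
               (CovZ.subM 129017233956437483618389816102622498401523863585938722296017063027125271761385239818220752611609132797281057839746977561358334058188323569126080512 (by decide +kernel)
                (CovZ.n1 (-13608, 28272) (by decide +kernel)
                 (CovZ.n2 (-13596, 28260) (by decide +kernel)
                  (CovZ.leaf K2_ok TB_l50851 _)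
                  (CovZ.leaf K2_ok TB_l50852 _))
                 (CovZ.n1 (-13620, 28260) (by decide +kernel)
                  (CovZ.n2 (-13620, 28272) (by decide +kernel)
                   (CovZ.leaf K2_ok TB_l50853 _)
                   (CovZ.leaf K2_ok TB_l50854 _))
                  (CovZ.leaf K2_ok TB_l50855 _))))))
             (CovZ.subM 28340032914400114927859583244625375335916585358531681244889288068303182624156623991067998283504360009478480861807276875319652979486688755807420416 (by decide +kernel)
              (CovZ.n1 (-13584, 28320) (by decide +kernel)
               (CovZ.n2 (-13560, 28296) (by decide +kernel)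
                (CovZ.n2 (-13584, 28296) (by decide +kernel)
                 (CovZ.subM 28339623558352095396926232120250168405520160574513095582637680611746383404005409638541717325182851394730529048525372840585365629987094475772526592 (by decide +kernel)
                  (CovZ.n2 (-13572, 28308) (by decide +kernel)
                   (CovZ.n2 (-13572, 28296) (by decide +kernel)
                    (CovZ.leaf K2_ok TB_l50856 _)
                    (CovZ.n1 (-13566, 28302) (by decide +kernel)
                     (CovZ.leaf K2_ok TB_l50857 _)
                     (CovZ.leaf K2_ok TB_l50858 _)))
                   (CovZ.n1 (-13584, 28308) (by decide +kernel)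
                    (CovZ.n2 (-13578, 28314) (by decide +kernel)
                     (CovZ.leaf K2_ok TB_l50859 _)
                     (CovZ.leaf K2_ok TB_l50860 _))
                    (CovZ.n1 (-13578, 28302) (by decide +kernel)
                     (CovZ.leaf K2_ok TB_l50861 _)
                     (CovZ.leaf K2_ok TB_l50862 _)))))
                 (CovZ.n1 (-13572, 28284) (by decide +kernel)
                  (CovZ.n2 (-13584, 28284) (by decide +kernel)
                   (CovZ.leaf K2_ok TB_l50863 _)
                   (CovZ.leaf K2_ok TB_l50864 _))
                  (CovZ.subM 28339623558442950237463182981568833881506161141307300752723595369281569678902989549555892065598625276069749494220468155786148902228786300976103424 (by decide +kernel)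
                   (CovZ.n1 (-13572, 28296) (by decide +kernel)
                    (CovZ.n2 (-13566, 28290) (by decide +kernel)
                     (CovZ.leaf K2_ok TB_l50865 _)
                     (CovZ.leaf K2_ok TB_l50866 _))
                    (CovZ.n1 (-13578, 28290) (by decide +kernel)
                     (CovZ.leaf K2_ok TB_l50867 _)
                     (CovZ.leaf K2_ok TB_l50868 _))))))
                (CovZ.subM 28095736952858658503849544836672577287883551344617394711476808974275651236910115449469818410881016084483667569531512948171658756887150078482972672 (by decide +kernel)
                 (CovZ.n1 (-13560, 28320) (by decide +kernel)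
                  (CovZ.n2 (-13548, 28308) (by decide +kernel)
                   (CovZ.n2 (-13560, 28308) (by decide +kernel)
                    (CovZ.n2 (-13554, 28314) (by decide +kernel)
                     (CovZ.n2 (-13554, 28308) (by decide +kernel)
                      (CovZ.leaf K2_ok TB_l50869 _)
                      (CovZ.leaf K2_ok TB_l50870 _))
                     (CovZ.leaf K2_ok TB_l50871 _))
                    (CovZ.n1 (-13554, 28302) (by decide +kernel)
                     (CovZ.n2 (-13560, 28302) (by decide +kernel)
                      (CovZ.leaf K2_ok TB_l50872 _)
                      (CovZ.leaf K2_ok TB_l50873 _))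
                     (CovZ.n1 (-13554, 28308) (by decide +kernel)
                      (CovZ.n2 (-13551, 28305) (by decide +kernel)
                       (CovZ.leaf K2_ok TB_l50874 _)
                       (CovZ.leaf K2_ok TB_l50875 _))
                      (CovZ.leaf K2_ok TB_l50876 _))))
                   (CovZ.subM 24973988402530777064819557552761538742113347659032088118438440513175948481648674333181641785145928703070466087899224711763608282691859151987933184 (by decide +kernel)
                    (CovZ.n1 (-13548, 28320) (by decide +kernel)
                     (CovZ.badM (by decide +kernel))
                     (CovZ.n1 (-13554, 28314) (by decide +kernel)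
                      (CovZ.n2 (-13554, 28320) (by decide +kernel)
                       (CovZ.badM (by decide +kernel))
                       (CovZ.leaf K2_ok TB_l50877 _))
                      (CovZ.badM (by decide +kernel))))))
                  (CovZ.n1 (-13572, 28308) (by decide +kernel)
                   (CovZ.n2 (-13572, 28320) (by decide +kernel)
                    (CovZ.n2 (-13566, 28314) (by decide +kernel)
                     (CovZ.leaf K2_ok TB_l50878 _)
                     (CovZ.n1 (-13566, 28320) (by decide +kernel)
                      (CovZ.leaf K2_ok TB_l50879 _)
                      (CovZ.leaf K2_ok TB_l50880 _)))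
                    (CovZ.n1 (-13578, 28314) (by decide +kernel)
                     (CovZ.n2 (-13578, 28320) (by decide +kernel)
                      (CovZ.leaf K2_ok TB_l50881 _)
                      (CovZ.leaf K2_ok TB_l50882 _))
                     (CovZ.leaf K2_ok TB_l50883 _)))
                   (CovZ.n1 (-13560, 28308) (by decide +kernel)
                    (CovZ.n2 (-13566, 28302) (by decide +kernel)
                     (CovZ.n2 (-13566, 28308) (by decide +kernel)
                      (CovZ.leaf K2_ok TB_l50884 _)
                      (CovZ.leaf K2_ok TB_l50885 _))
                     (CovZ.leaf K2_ok TB_l50886 _))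
                    (CovZ.n1 (-13566, 28314) (by decide +kernel)
                     (CovZ.leaf K2_ok TB_l50887 _)
                     (CovZ.leaf K2_ok TB_l50888 _)))))))
               (CovZ.n1 (-13608, 28296) (by decide +kernel)
                (CovZ.n2 (-13608, 28320) (by decide +kernel)
                 (CovZ.n2 (-13596, 28308) (by decide +kernel)
                  (CovZ.n2 (-13608, 28308) (by decide +kernel)
                   (CovZ.leaf K2_ok TB_l50889 _)
                   (CovZ.leaf K2_ok TB_l50890 _))
                  (CovZ.n1 (-13596, 28320) (by decide +kernel)
                   (CovZ.leaf K2_ok TB_l50891 _)
                   (CovZ.leaf K2_ok TB_l50892 _)))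
                 (CovZ.n1 (-13620, 28308) (by decide +kernel)
                  (CovZ.n2 (-13620, 28320) (by decide +kernel)
                   (CovZ.leaf K2_ok TB_l50893 _)
                   (CovZ.leaf K2_ok TB_l50894 _))
                  (CovZ.n1 (-13608, 28308) (by decide +kernel)
                   (CovZ.leaf K2_ok TB_l50895 _)
                   (CovZ.leaf K2_ok TB_l50896 _))))
                (CovZ.n1 (-13584, 28296) (by decide +kernel)
                 (CovZ.n2 (-13596, 28284) (by decide +kernel)
                  (CovZ.n2 (-13596, 28296) (by decide +kernel)
                   (CovZ.leaf K2_ok TB_l50897 _)
                   (CovZ.leaf K2_ok TB_l50898 _))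
                  (CovZ.n1 (-13584, 28284) (by decide +kernel)
                   (CovZ.leaf K2_ok TB_l50899 _)
                   (CovZ.leaf K2_ok TB_l50900 _)))
                 (CovZ.n1 (-13596, 28308) (by decide +kernel)
                  (CovZ.n2 (-13584, 28308) (by decide +kernel)
                   (CovZ.leaf K2_ok TB_l50901 _)
                   (CovZ.n1 (-13590, 28314) (by decide +kernel)
                    (CovZ.leaf K2_ok TB_l50902 _)
                    (CovZ.leaf K2_ok TB_l50903 _)))
                  (CovZ.n1 (-13596, 28296) (by decide +kernel)
                   (CovZ.leaf K2_ok TB_l50904 _)
                   (CovZ.leaf K2_ok TB_l50905 _))))))))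

theorem TB_u500 : CovZ TB_M (toL (selN TB_LN 129041623384534242954107357140920936767543402817967704296210449147149668757485598919964868122300137250014763964598947725914116001672008410972817408)) [0, 7, 6, 1] (-13824, 28416) (-13728, 28320) (-13632, 28416) :=
    (CovZ.n2 (-13728, 28416) (by decide +kernel)
            (CovZ.subM 29121279904407610391589291563101288403154180976288678238661835615706524106630893465661320371213356327836357517985354259056661123033463594780983296 (by decide +kernel)
             (CovZ.n2 (-13680, 28368) (by decide +kernel)
              (CovZ.n2 (-13728, 28368) (by decide +kernel)
               (CovZ.n2 (-13704, 28392) (by decide +kernel)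
                (CovZ.n2 (-13704, 28368) (by decide +kernel)
                 (CovZ.leaf K2_ok TB_l50954 _)
                 (CovZ.n1 (-13692, 28380) (by decide +kernel)
                  (CovZ.leaf K2_ok TB_l50955 _)
                  (CovZ.leaf K2_ok TB_l50956 _)))
                (CovZ.n1 (-13728, 28392) (by decide +kernel)
                 (CovZ.n2 (-13716, 28404) (by decide +kernel)
                  (CovZ.leaf K2_ok TB_l50957 _)
                  (CovZ.leaf K2_ok TB_l50958 _))
                 (CovZ.leaf K2_ok TB_l50959 _)))
               (CovZ.n1 (-13704, 28344) (by decide +kernel)
                (CovZ.n2 (-13728, 28344) (by decide +kernel)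
                 (CovZ.leaf K2_ok TB_l50960 _)
                 (CovZ.leaf K2_ok TB_l50961 _))
                (CovZ.n1 (-13704, 28368) (by decide +kernel)
                 (CovZ.n2 (-13692, 28356) (by decide +kernel)
                  (CovZ.leaf K2_ok TB_l50962 _)
                  (CovZ.leaf K2_ok TB_l50963 _))
                 (CovZ.leaf K2_ok TB_l50964 _))))
              (CovZ.subM 28291227333345929702005832467715526334583037202120606153081380785711046022592207256749164693645288216895188781974804005247646984059822370124201984 (by decide +kernel)
               (CovZ.n1 (-13680, 28416) (by decide +kernel)
                (CovZ.n2 (-13656, 28392) (by decide +kernel)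
                 (CovZ.n2 (-13680, 28392) (by decide +kernel)
                  (CovZ.n2 (-13668, 28404) (by decide +kernel)
                   (CovZ.n2 (-13668, 28392) (by decide +kernel)
                    (CovZ.leaf K2_ok TB_l50965 _)
                    (CovZ.leaf K2_ok TB_l50966 _))
                   (CovZ.leaf K2_ok TB_l50967 _))
                  (CovZ.n1 (-13668, 28380) (by decide +kernel)
                   (CovZ.leaf K2_ok TB_l50968 _)
                   (CovZ.n1 (-13668, 28392) (by decide +kernel)
                    (CovZ.leaf K2_ok TB_l50969 _)
                    (CovZ.leaf K2_ok TB_l50970 _))))
                 (CovZ.subM 24974369475375993876982617449179899245293436261508510899353700482579780354929430394215206792622465257973457239847912310945712756370277206178398208 (by decide +kernel)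
                  (CovZ.n1 (-13656, 28416) (by decide +kernel)
                   (CovZ.n2 (-13644, 28404) (by decide +kernel)
                    (CovZ.leaf K2_ok TB_l50971 _)
                    (CovZ.n1 (-13644, 28416) (by decide +kernel)
                     (CovZ.leaf K2_ok TB_l50972 _)
                     (CovZ.leaf K2_ok TB_l50973 _)))
                   (CovZ.n1 (-13668, 28404) (by decide +kernel)
                    (CovZ.n2 (-13668, 28416) (by decide +kernel)
                     (CovZ.leaf K2_ok TB_l50974 _)
                     (CovZ.leaf K2_ok TB_l50975 _))
                    (CovZ.n1 (-13656, 28404) (by decide +kernel)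
                     (CovZ.leaf K2_ok TB_l50976 _)
                     (CovZ.leaf K2_ok TB_l50977 _))))))
                (CovZ.n1 (-13704, 28392) (by decide +kernel)
                 (CovZ.n2 (-13704, 28416) (by decide +kernel)
                  (CovZ.n2 (-13692, 28404) (by decide +kernel)
                   (CovZ.leaf K2_ok TB_l50978 _)
                   (CovZ.leaf K2_ok TB_l50979 _))
                  (CovZ.n1 (-13716, 28404) (by decide +kernel)
                   (CovZ.leaf K2_ok TB_l50980 _)
                   (CovZ.leaf K2_ok TB_l50981 _)))
                 (CovZ.n1 (-13680, 28392) (by decide +kernel)
                  (CovZ.n2 (-13692, 28380) (by decide +kernel)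
                   (CovZ.leaf K2_ok TB_l50982 _)
                   (CovZ.leaf K2_ok TB_l50983 _))
                  (CovZ.n1 (-13692, 28404) (by decide +kernel)
                   (CovZ.leaf K2_ok TB_l50984 _)
                   (CovZ.leaf K2_ok TB_l50985 _))))))))
            (CovZ.subM 245058130456924836884857723599920120337121924913161467039741231438016361981809696969976031481891949772310542883523945585560058652048521768732672 (by decide +kernel)
             (CovZ.n1 (-13776, 28368) (by decide +kernel)
              (CovZ.n2 (-13776, 28416) (by decide +kernel)
               (CovZ.subM 196256992295562884755811888977031838178968307964638644508130928350439813163615850751354902505377495717137728962710151124563161268387020785319936 (by decide +kernel)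
                (CovZ.n2 (-13752, 28392) (by decide +kernel)
                 (CovZ.n2 (-13776, 28392) (by decide +kernel)
                  (CovZ.leaf K2_ok TB_l48363 _)
                  (CovZ.leaf K2_ok TB_l48364 _))
                 (CovZ.n1 (-13752, 28416) (by decide +kernel)
                  (CovZ.leaf K2_ok TB_l50986 _)
                  (CovZ.leaf K2_ok TB_l48365 _))))
               (CovZ.n1 (-13800, 28392) (by decide +kernel)
                (CovZ.n2 (-13800, 28416) (by decide +kernel)
                 (CovZ.leaf K2_ok TB_l48366 _)
                 (CovZ.leaf K2_ok TB_l48367 _))
                (CovZ.n1 (-13776, 28392) (by decide +kernel)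
                 (CovZ.leaf K2_ok TB_l48368 _)
                 (CovZ.leaf K2_ok TB_l48369 _))))
              (CovZ.n1 (-13728, 28368) (by decide +kernel)
               (CovZ.n2 (-13752, 28344) (by decide +kernel)
                (CovZ.n2 (-13752, 28368) (by decide +kernel)
                 (CovZ.leaf K2_ok TB_l50987 _)
                 (CovZ.leaf K2_ok TB_l48370 _))
                (CovZ.n1 (-13728, 28344) (by decide +kernel)
                 (CovZ.leaf K2_ok TB_l50988 _)
                 (CovZ.leaf K2_ok TB_l50989 _)))
               (CovZ.subM 196256992295562884755811888977031838178968307964638644508130928350439813163615850751354902505377495717137728962710151124563161268387020785319936 (by decide +kernel)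
                (CovZ.n1 (-13752, 28392) (by decide +kernel)
                 (CovZ.n2 (-13728, 28392) (by decide +kernel)
                  (CovZ.leaf K2_ok TB_l50990 _)
                  (CovZ.leaf K2_ok TB_l50991 _))
                 (CovZ.n1 (-13752, 28368) (by decide +kernel)
                  (CovZ.leaf K2_ok TB_l48371 _)
                  (CovZ.leaf K2_ok TB_l50992 _))))))))

theorem TB_u501 : CovZ TB_M (toL (selN TB_LN 129041623384534242954107357140920936767543402817967704296210449147149668757485598919964868122300137250014763964598947725914116001672008410972817408)) [0, 7, 6, 1] (-13728, 28320) (-13632, 28224) (-13632, 28416) :=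
    (CovZ.n1 (-13632, 28320) (by decide +kernel)
            (CovZ.n2 (-13680, 28272) (by decide +kernel)
             (CovZ.n2 (-13680, 28320) (by decide +kernel)
              (CovZ.subM 129017233956437483618389816102622498401523863585938722296017063027125271761385239818220752611609132797281057839746977561358334058188323569126080512 (by decide +kernel)
               (CovZ.n2 (-13656, 28296) (by decide +kernel)
                (CovZ.n2 (-13680, 28296) (by decide +kernel)
                 (CovZ.n2 (-13668, 28308) (by decide +kernel)
                  (CovZ.leaf K2_ok TB_l50993 _)
                  (CovZ.leaf K2_ok TB_l50994 _))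
                 (CovZ.n1 (-13668, 28284) (by decide +kernel)
                  (CovZ.leaf K2_ok TB_l50995 _)
                  (CovZ.leaf K2_ok TB_l50996 _)))
                (CovZ.n1 (-13656, 28320) (by decide +kernel)
                 (CovZ.n2 (-13644, 28308) (by decide +kernel)
                  (CovZ.leaf K2_ok TB_l50997 _)
                  (CovZ.leaf K2_ok TB_l50998 _))
                 (CovZ.n1 (-13668, 28308) (by decide +kernel)
                  (CovZ.leaf K2_ok TB_l50999 _)
                  (CovZ.leaf K2_ok TB_l51000 _)))))
              (CovZ.subM 100141059842755716300650951757441743345232661624625231994095597423924378944131592936876849923136278143608192566713247483917150104823712031061311488 (by decide +kernel)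
               (CovZ.n1 (-13704, 28296) (by decide +kernel)
                (CovZ.n2 (-13704, 28320) (by decide +kernel)
                 (CovZ.leaf K2_ok TB_l51001 _)
                 (CovZ.leaf K2_ok TB_l48372 _))
                (CovZ.n1 (-13680, 28296) (by decide +kernel)
                 (CovZ.leaf K2_ok TB_l51002 _)
                 (CovZ.leaf K2_ok TB_l51003 _)))))
             (CovZ.n1 (-13632, 28272) (by decide +kernel)
              (CovZ.n2 (-13656, 28248) (by decide +kernel)
               (CovZ.n2 (-13656, 28272) (by decide +kernel)
                (CovZ.n2 (-13644, 28260) (by decide +kernel)
                 (CovZ.leaf K2_ok TB_l51004 _)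
                 (CovZ.leaf K2_ok TB_l51005 _))
                (CovZ.leaf K2_ok TB_l51006 _))
               (CovZ.n1 (-13632, 28248) (by decide +kernel)
                (CovZ.n2 (-13644, 28236) (by decide +kernel)
                 (CovZ.leaf K2_ok TB_l51007 _)
                 (CovZ.leaf K2_ok TB_l51008 _))
                (CovZ.n1 (-13644, 28260) (by decide +kernel)
                 (CovZ.leaf K2_ok TB_l51009 _)
                 (CovZ.leaf K2_ok TB_l51010 _))))
              (CovZ.subM 129017233956437483618389816102622498401523863585938722296017063027125271761385239818220752611609132797281057839746977561358334058188323569126080512 (by decide +kernel)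
               (CovZ.n1 (-13656, 28296) (by decide +kernel)
                (CovZ.n2 (-13632, 28296) (by decide +kernel)
                 (CovZ.n2 (-13644, 28284) (by decide +kernel)
                  (CovZ.n2 (-13644, 28296) (by decide +kernel)
                   (CovZ.leaf K2_ok TB_l51011 _)
                   (CovZ.leaf K2_ok TB_l51012 _))
                  (CovZ.leaf K2_ok TB_l51013 _))
                 (CovZ.n1 (-13644, 28308) (by decide +kernel)
                  (CovZ.leaf K2_ok TB_l51014 _)
                  (CovZ.leaf K2_ok TB_l51015 _)))
                (CovZ.n1 (-13656, 28272) (by decide +kernel)
                 (CovZ.n2 (-13668, 28284) (by decide +kernel)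
                  (CovZ.leaf K2_ok TB_l51016 _)
                  (CovZ.leaf K2_ok TB_l51017 _))
                 (CovZ.n1 (-13644, 28284) (by decide +kernel)
                  (CovZ.leaf K2_ok TB_l51018 _)
                  (CovZ.leaf K2_ok TB_l51019 _)))))))
            (CovZ.subM 29121279904407787842449715295252301421661966133645698170634659667967335017324052801425019931253230886198348182918352492094162652862060649127084032 (by decide +kernel)
             (CovZ.n1 (-13680, 28368) (by decide +kernel)
              (CovZ.subM 28291227310189568396441117287347182670412820476483093325393093037321660574111266440656927070234732048104363682836882893004262766201514002881708032 (by decide +kernel)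
               (CovZ.n2 (-13632, 28368) (by decide +kernel)
                (CovZ.n2 (-13656, 28344) (by decide +kernel)
                 (CovZ.n2 (-13656, 28368) (by decide +kernel)
                  (CovZ.n2 (-13644, 28356) (by decide +kernel)
                   (CovZ.n2 (-13656, 28356) (by decide +kernel)
                    (CovZ.leaf K2_ok TB_l51020 _)
                    (CovZ.leaf K2_ok TB_l51021 _))
                   (CovZ.n1 (-13644, 28368) (by decide +kernel)
                    (CovZ.leaf K2_ok TB_l51022 _)
                    (CovZ.leaf K2_ok TB_l51023 _)))
                  (CovZ.n1 (-13668, 28356) (by decide +kernel)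
                   (CovZ.leaf K2_ok TB_l51024 _)
                   (CovZ.leaf K2_ok TB_l51025 _)))
                 (CovZ.n1 (-13632, 28344) (by decide +kernel)
                  (CovZ.n2 (-13644, 28332) (by decide +kernel)
                   (CovZ.n2 (-13644, 28344) (by decide +kernel)
                    (CovZ.leaf K2_ok TB_l51026 _)
                    (CovZ.leaf K2_ok TB_l51027 _))
                   (CovZ.leaf K2_ok TB_l51028 _))
                  (CovZ.n1 (-13644, 28356) (by decide +kernel)
                   (CovZ.n2 (-13632, 28356) (by decide +kernel)
                    (CovZ.leaf K2_ok TB_l51029 _)
                    (CovZ.leaf K2_ok TB_l51030 _))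
                   (CovZ.n1 (-13644, 28344) (by decide +kernel)
                    (CovZ.leaf K2_ok TB_l51031 _)
                    (CovZ.leaf K2_ok TB_l51032 _)))))
                (CovZ.n1 (-13656, 28392) (by decide +kernel)
                 (CovZ.subM 24974369475375993876982617449179899245293436261508510899353700482579780354929430394215206792622465257973457239847912310945712756370277206178398208 (by decide +kernel)
                  (CovZ.n2 (-13632, 28392) (by decide +kernel)
                   (CovZ.n2 (-13644, 28380) (by decide +kernel)
                    (CovZ.n2 (-13644, 28392) (by decide +kernel)
                     (CovZ.leaf K2_ok TB_l51033 _)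
                     (CovZ.leaf K2_ok TB_l51034 _))
                    (CovZ.n1 (-13632, 28380) (by decide +kernel)
                     (CovZ.leaf K2_ok TB_l51035 _)
                     (CovZ.leaf K2_ok TB_l51036 _)))
                   (CovZ.n1 (-13644, 28404) (by decide +kernel)
                    (CovZ.n2 (-13632, 28404) (by decide +kernel)
                     (CovZ.leaf K2_ok TB_l51037 _)
                     (CovZ.leaf K2_ok TB_l51038 _))
                    (CovZ.n1 (-13644, 28392) (by decide +kernel)
                     (CovZ.leaf K2_ok TB_l51039 _)
                     (CovZ.leaf K2_ok TB_l51040 _)))))
                 (CovZ.n1 (-13656, 28368) (by decide +kernel)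
                  (CovZ.subM 195490357243160442112036901998667730429508818819342253354790220075013999433859456037676219635746853616312303937743707788097509073120550251921408 (by decide +kernel)
                   (CovZ.n2 (-13668, 28380) (by decide +kernel)
                    (CovZ.n2 (-13656, 28380) (by decide +kernel)
                     (CovZ.leaf K2_ok TB_l51041 _)
                     (CovZ.leaf K2_ok TB_l51042 _))
                    (CovZ.n1 (-13668, 28368) (by decide +kernel)
                     (CovZ.leaf K2_ok TB_l51043 _)
                     (CovZ.leaf K2_ok TB_l51044 _))))
                  (CovZ.n1 (-13644, 28380) (by decide +kernel)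
                   (CovZ.n2 (-13644, 28368) (by decide +kernel)
                    (CovZ.leaf K2_ok TB_l51045 _)
                    (CovZ.leaf K2_ok TB_l51046 _))
                   (CovZ.leaf K2_ok TB_l51047 _))))))
              (CovZ.n1 (-13680, 28320) (by decide +kernel)
               (CovZ.n2 (-13704, 28344) (by decide +kernel)
                (CovZ.n2 (-13680, 28344) (by decide +kernel)
                 (CovZ.n2 (-13692, 28332) (by decide +kernel)
                  (CovZ.leaf K2_ok TB_l51048 _)
                  (CovZ.leaf K2_ok TB_l51049 _))
                 (CovZ.n1 (-13692, 28356) (by decide +kernel)
                  (CovZ.leaf K2_ok TB_l51050 _)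
                  (CovZ.leaf K2_ok TB_l51051 _)))
                (CovZ.n1 (-13704, 28320) (by decide +kernel)
                 (CovZ.leaf K2_ok TB_l51052 _)
                 (CovZ.leaf K2_ok TB_l51053 _)))
               (CovZ.n1 (-13656, 28344) (by decide +kernel)
                (CovZ.n2 (-13656, 28320) (by decide +kernel)
                 (CovZ.n2 (-13668, 28332) (by decide +kernel)
                  (CovZ.leaf K2_ok TB_l51054 _)
                  (CovZ.leaf K2_ok TB_l51055 _))
                 (CovZ.n1 (-13644, 28332) (by decide +kernel)
                  (CovZ.n2 (-13644, 28320) (by decide +kernel)
                   (CovZ.leaf K2_ok TB_l51056 _)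
                   (CovZ.leaf K2_ok TB_l51057 _))
                  (CovZ.leaf K2_ok TB_l51058 _)))
                (CovZ.n1 (-13680, 28344) (by decide +kernel)
                 (CovZ.n2 (-13668, 28356) (by decide +kernel)
                  (CovZ.n2 (-13668, 28344) (by decide +kernel)
                   (CovZ.leaf K2_ok TB_l51059 _)
                   (CovZ.leaf K2_ok TB_l51060 _))
                  (CovZ.leaf K2_ok TB_l51061 _))
                 (CovZ.n1 (-13668, 28332) (by decide +kernel)
                  (CovZ.leaf K2_ok TB_l51062 _)
                  (CovZ.n1 (-13668, 28344) (by decide +kernel)
                   (CovZ.leaf K2_ok TB_l51063 _)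
                   (CovZ.leaf K2_ok TB_l51064 _)))))))))

theorem TB_u502 : CovZ TB_M (toL (selN TB_LN 129151676206348118444871367650879172570838366443102270352129659609103644429328716076964552475509039263943690670165875792414281418271132714572709888)) [0, 7, 6, 1] (-13536, 28128) (-13488, 28176) (-13536, 28224) :=
    (CovZ.n2 (-13536, 28176) (by decide +kernel)
              (CovZ.n2 (-13512, 28200) (by decide +kernel)
               (CovZ.n2 (-13512, 28176) (by decide +kernel)
                (CovZ.n2 (-13524, 28188) (by decide +kernel)
                 (CovZ.n2 (-13512, 28188) (by decide +kernel)
                  (CovZ.leaf K2_ok TB_l51065 _)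
                  (CovZ.n1 (-13518, 28194) (by decide +kernel)
                   (CovZ.leaf K2_ok TB_l51066 _)
                   (CovZ.leaf K2_ok TB_l51067 _)))
                 (CovZ.n1 (-13524, 28176) (by decide +kernel)
                  (CovZ.leaf K2_ok TB_l51068 _)
                  (CovZ.n1 (-13518, 28182) (by decide +kernel)
                   (CovZ.leaf K2_ok TB_l51069 _)
                   (CovZ.leaf K2_ok TB_l51070 _))))
                (CovZ.subM 128992560235570308672275652219735735905274550104322570728939528400408131627983860003410605068057693834255771470810817133819112679963746082763046912 (by decide +kernel)
                 (CovZ.n1 (-13500, 28188) (by decide +kernel)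
                  (CovZ.n2 (-13500, 28176) (by decide +kernel)
                   (CovZ.n2 (-13506, 28182) (by decide +kernel)
                    (CovZ.n2 (-13500, 28182) (by decide +kernel)
                     (CovZ.leaf K2_ok TB_l51071 _)
                     (CovZ.leaf K2_ok TB_l51072 _))
                    (CovZ.leaf K2_ok TB_l51073 _))
                   (CovZ.n1 (-13494, 28182) (by decide +kernel)
                    (CovZ.n2 (-13494, 28176) (by decide +kernel)
                     (CovZ.leaf K2_ok TB_l51074 _)
                     (CovZ.leaf K2_ok TB_l51075 _))
                    (CovZ.leaf K2_ok TB_l51076 _)))
                  (CovZ.n1 (-13512, 28188) (by decide +kernel)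
                   (CovZ.n2 (-13506, 28194) (by decide +kernel)
                    (CovZ.leaf K2_ok TB_l51077 _)
                    (CovZ.leaf K2_ok TB_l51078 _))
                   (CovZ.leaf K2_ok TB_l51079 _)))))
               (CovZ.n1 (-13536, 28200) (by decide +kernel)
                (CovZ.subM 129041242288418652658557003629123799931294115181138220173921596238172919740587675957952690390276523917941449693362805944255991373872778492531179520 (by decide +kernel)
                 (CovZ.n2 (-13524, 28212) (by decide +kernel)
                  (CovZ.n2 (-13524, 28200) (by decide +kernel)
                   (CovZ.n2 (-13530, 28206) (by decide +kernel)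
                    (CovZ.leaf K2_ok TB_l51080 _)
                    (CovZ.leaf K2_ok TB_l51081 _))
                   (CovZ.n1 (-13518, 28206) (by decide +kernel)
                    (CovZ.leaf K2_ok TB_l51082 _)
                    (CovZ.leaf K2_ok TB_l51083 _)))
                  (CovZ.n1 (-13536, 28212) (by decide +kernel)
                   (CovZ.n2 (-13530, 28218) (by decide +kernel)
                    (CovZ.leaf K2_ok TB_l51084 _)
                    (CovZ.leaf K2_ok TB_l51085 _))
                   (CovZ.n1 (-13530, 28206) (by decide +kernel)
                    (CovZ.leaf K2_ok TB_l51086 _)
                    (CovZ.n1 (-13530, 28212) (by decide +kernel)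
                     (CovZ.leaf K2_ok TB_l51087 _)
                     (CovZ.leaf K2_ok TB_l51088 _))))))
                (CovZ.n1 (-13524, 28188) (by decide +kernel)
                 (CovZ.n2 (-13536, 28188) (by decide +kernel)
                  (CovZ.leaf K2_ok TB_l51089 _)
                  (CovZ.leaf K2_ok TB_l51090 _))
                 (CovZ.n1 (-13524, 28200) (by decide +kernel)
                  (CovZ.n2 (-13518, 28194) (by decide +kernel)
                   (CovZ.leaf K2_ok TB_l51091 _)
                   (CovZ.leaf K2_ok TB_l51092 _))
                  (CovZ.leaf K2_ok TB_l51093 _)))))
              (CovZ.n1 (-13512, 28152) (by decide +kernel)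
               (CovZ.n2 (-13536, 28152) (by decide +kernel)
                (CovZ.n2 (-13524, 28164) (by decide +kernel)
                 (CovZ.n2 (-13524, 28152) (by decide +kernel)
                  (CovZ.leaf K2_ok TB_l51094 _)
                  (CovZ.leaf K2_ok TB_l51095 _))
                 (CovZ.n1 (-13536, 28164) (by decide +kernel)
                  (CovZ.n2 (-13530, 28170) (by decide +kernel)
                   (CovZ.leaf K2_ok TB_l51096 _)
                   (CovZ.leaf K2_ok TB_l51097 _))
                  (CovZ.leaf K2_ok TB_l51098 _)))
                (CovZ.n1 (-13524, 28140) (by decide +kernel)
                 (CovZ.leaf K2_ok TB_l51099 _)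
                 (CovZ.n1 (-13524, 28152) (by decide +kernel)
                  (CovZ.leaf K2_ok TB_l51100 _)
                  (CovZ.leaf K2_ok TB_l51101 _))))
               (CovZ.n1 (-13512, 28176) (by decide +kernel)
                (CovZ.n2 (-13500, 28164) (by decide +kernel)
                 (CovZ.n2 (-13512, 28164) (by decide +kernel)
                  (CovZ.n2 (-13506, 28170) (by decide +kernel)
                   (CovZ.leaf K2_ok TB_l51102 _)
                   (CovZ.leaf K2_ok TB_l51103 _))
                  (CovZ.leaf K2_ok TB_l51104 _))
                 (CovZ.n1 (-13500, 28176) (by decide +kernel)
                  (CovZ.n2 (-13494, 28170) (by decide +kernel)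
                   (CovZ.leaf K2_ok TB_l51105 _)
                   (CovZ.n1 (-13494, 28176) (by decide +kernel)
                    (CovZ.leaf K2_ok TB_l51106 _)
                    (CovZ.leaf K2_ok TB_l51107 _)))
                  (CovZ.n1 (-13506, 28170) (by decide +kernel)
                   (CovZ.leaf K2_ok TB_l51108 _)
                   (CovZ.n1 (-13500, 28170) (by decide +kernel)
                    (CovZ.leaf K2_ok TB_l51109 _)
                    (CovZ.leaf K2_ok TB_l51110 _)))))
                (CovZ.n1 (-13524, 28164) (by decide +kernel)
                 (CovZ.n2 (-13524, 28176) (by decide +kernel)
                  (CovZ.n2 (-13518, 28170) (by decide +kernel)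
                   (CovZ.leaf K2_ok TB_l51111 _)
                   (CovZ.leaf K2_ok TB_l51112 _))
                  (CovZ.n1 (-13530, 28170) (by decide +kernel)
                   (CovZ.leaf K2_ok TB_l51113 _)
                   (CovZ.leaf K2_ok TB_l51114 _)))
                 (CovZ.n1 (-13512, 28164) (by decide +kernel)
                  (CovZ.leaf K2_ok TB_l51115 _)
                  (CovZ.n1 (-13518, 28170) (by decide +kernel)
                   (CovZ.n2 (-13512, 28170) (by decide +kernel)
                    (CovZ.leaf K2_ok TB_l51116 _)
                    (CovZ.leaf K2_ok TB_l51117 _))
                   (CovZ.leaf K2_ok TB_l51118 _)))))))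

theorem TB_u503 : CovZ TB_M (toL (selN TB_LN 129151676206348118444871367650879172570838366443102270352129659609103644429328716076964552475509039263943690670165875792414281418271132714572709888)) [0, 7, 6, 1] (-13488, 28176) (-13440, 28224) (-13536, 28224) :=
    (CovZ.subM 129041242288418652658557003629123799931294115181138220173921596238172919740587675957952690390276523917941449693362805944255991373872778492531179520 (by decide +kernel)
              (CovZ.n1 (-13488, 28224) (by decide +kernel)
               (CovZ.subM 28876983919598442247098646050019477577315743995206871564613975979630760810945960916249428950158170861901576881115277988633072715130964948035829760 (by decide +kernel)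
                (CovZ.n2 (-13464, 28200) (by decide +kernel)
                 (CovZ.n2 (-13488, 28200) (by decide +kernel)
                  (CovZ.badM (by decide +kernel))
                  (CovZ.n1 (-13476, 28188) (by decide +kernel)
                   (CovZ.n2 (-13488, 28188) (by decide +kernel)
                    (CovZ.subM 3122510695963837649206021306386762870240337581933033039211904355838416919023037158899541708446671074088049651099205892259289764172831350623043584 (by decide +kernel)
                     (CovZ.n2 (-13482, 28194) (by decide +kernel)
                      (CovZ.n2 (-13482, 28188) (by decide +kernel)
                       (CovZ.leaf K2_ok TB_l51119 _)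
                       (CovZ.leaf K2_ok TB_l51120 _))
                      (CovZ.n1 (-13488, 28194) (by decide +kernel)
                       (CovZ.leaf K2_ok TB_l51121 _)
                       (CovZ.leaf K2_ok TB_l51122 _))))
                    (CovZ.n1 (-13482, 28182) (by decide +kernel)
                     (CovZ.leaf K2_ok TB_l51123 _)
                     (CovZ.n1 (-13482, 28188) (by decide +kernel)
                      (CovZ.leaf K2_ok TB_l51124 _)
                      (CovZ.leaf K2_ok TB_l51125 _))))
                   (CovZ.subM 762145642166990290864647761179972242614403843424065222377723867096038022172794340849684107193235344521442121855812163792833978437326241529856 (by decide +kernel)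
                    (CovZ.n1 (-13476, 28200) (by decide +kernel)
                     (CovZ.n2 (-13470, 28194) (by decide +kernel)
                      (CovZ.n2 (-13476, 28194) (by decide +kernel)
                       (CovZ.badM (by decide +kernel))
                       (CovZ.n1 (-13473, 28191) (by decide +kernel)
                        (CovZ.leaf K2_ok TB_l51126 _)
                        (CovZ.badM (by decide +kernel))))
                      (CovZ.badM (by decide +kernel)))
                     (CovZ.n1 (-13482, 28194) (by decide +kernel)
                      (CovZ.n2 (-13482, 28200) (by decide +kernel)
                       (CovZ.n2 (-13479, 28197) (by decide +kernel)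
                        (CovZ.leaf K2_ok TB_l51127 _)
                        (CovZ.badM (by decide +kernel)))
                       (CovZ.n1 (-13485, 28197) (by decide +kernel)
                        (CovZ.leaf K2_ok TB_l51128 _)
                        (CovZ.n1 (-13482, 28197) (by decide +kernel)
                         (CovZ.leaf K2_ok TB_l51129 _)
                         (CovZ.leaf K2_ok TB_l51130 _))))
                      (CovZ.n1 (-13476, 28194) (by decide +kernel)
                       (CovZ.n2 (-13479, 28191) (by decide +kernel)
                        (CovZ.leaf K2_ok TB_l51131 _)
                        (CovZ.leaf K2_ok TB_l51132 _))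
                       (CovZ.n1 (-13479, 28197) (by decide +kernel)
                        (CovZ.badM (by decide +kernel))
                        (CovZ.leaf K2_ok TB_l51133 _))))))))
                 (CovZ.badM (by decide +kernel))))
               (CovZ.n1 (-13512, 28200) (by decide +kernel)
                (CovZ.n2 (-13512, 28224) (by decide +kernel)
                 (CovZ.n2 (-13500, 28212) (by decide +kernel)
                  (CovZ.n2 (-13512, 28212) (by decide +kernel)
                   (CovZ.n2 (-13506, 28218) (by decide +kernel)
                    (CovZ.n2 (-13506, 28212) (by decide +kernel)
                     (CovZ.leaf K2_ok TB_l51134 _)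
                     (CovZ.leaf K2_ok TB_l51135 _))
                    (CovZ.leaf K2_ok TB_l51136 _))
                   (CovZ.n1 (-13506, 28206) (by decide +kernel)
                    (CovZ.n2 (-13512, 28206) (by decide +kernel)
                     (CovZ.n2 (-13509, 28209) (by decide +kernel)
                      (CovZ.leaf K2_ok TB_l51137 _)
                      (CovZ.leaf K2_ok TB_l51138 _))
                     (CovZ.leaf K2_ok TB_l51139 _))
                    (CovZ.n1 (-13506, 28212) (by decide +kernel)
                     (CovZ.leaf K2_ok TB_l51140 _)
                     (CovZ.leaf K2_ok TB_l51141 _))))
                  (CovZ.n1 (-13500, 28224) (by decide +kernel)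
                   (CovZ.subM 3121748550321670658915156658625582897997723178089608973989526631971320881000864364558692024339477838743528208977350080095496930194394024381513728 (by decide +kernel)
                    (CovZ.n2 (-13494, 28218) (by decide +kernel)
                     (CovZ.n2 (-13500, 28218) (by decide +kernel)
                      (CovZ.leaf K2_ok TB_l51142 _)
                      (CovZ.n1 (-13497, 28215) (by decide +kernel)
                       (CovZ.leaf K2_ok TB_l51143 _)
                       (CovZ.leaf K2_ok TB_l51144 _)))
                     (CovZ.n1 (-13494, 28224) (by decide +kernel)
                      (CovZ.badM (by decide +kernel))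
                      (CovZ.leaf K2_ok TB_l51145 _))))
                   (CovZ.n1 (-13506, 28218) (by decide +kernel)
                    (CovZ.n2 (-13506, 28224) (by decide +kernel)
                     (CovZ.leaf K2_ok TB_l51146 _)
                     (CovZ.leaf K2_ok TB_l51147 _))
                    (CovZ.n1 (-13500, 28218) (by decide +kernel)
                     (CovZ.leaf K2_ok TB_l51148 _)
                     (CovZ.leaf K2_ok TB_l51149 _)))))
                 (CovZ.n1 (-13524, 28212) (by decide +kernel)
                  (CovZ.n2 (-13524, 28224) (by decide +kernel)
                   (CovZ.n2 (-13518, 28218) (by decide +kernel)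
                    (CovZ.leaf K2_ok TB_l51150 _)
                    (CovZ.n1 (-13518, 28224) (by decide +kernel)
                     (CovZ.leaf K2_ok TB_l51151 _)
                     (CovZ.leaf K2_ok TB_l51152 _)))
                   (CovZ.n1 (-13530, 28218) (by decide +kernel)
                    (CovZ.leaf K2_ok TB_l51153 _)
                    (CovZ.leaf K2_ok TB_l51154 _)))
                  (CovZ.n1 (-13512, 28212) (by decide +kernel)
                   (CovZ.n2 (-13518, 28206) (by decide +kernel)
                    (CovZ.n2 (-13518, 28212) (by decide +kernel)
                     (CovZ.leaf K2_ok TB_l51155 _)
                     (CovZ.leaf K2_ok TB_l51156 _))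
                    (CovZ.leaf K2_ok TB_l51157 _))
                   (CovZ.n1 (-13518, 28218) (by decide +kernel)
                    (CovZ.n2 (-13512, 28218) (by decide +kernel)
                     (CovZ.leaf K2_ok TB_l51158 _)
                     (CovZ.leaf K2_ok TB_l51159 _))
                    (CovZ.n1 (-13518, 28212) (by decide +kernel)
                     (CovZ.leaf K2_ok TB_l51160 _)
                     (CovZ.leaf K2_ok TB_l51161 _))))))
                (CovZ.n1 (-13488, 28200) (by decide +kernel)
                 (CovZ.n2 (-13500, 28188) (by decide +kernel)
                  (CovZ.n2 (-13500, 28200) (by decide +kernel)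
                   (CovZ.n2 (-13494, 28194) (by decide +kernel)
                    (CovZ.leaf K2_ok TB_l51162 _)
                    (CovZ.n1 (-13494, 28200) (by decide +kernel)
                     (CovZ.leaf K2_ok TB_l51163 _)
                     (CovZ.leaf K2_ok TB_l51164 _)))
                   (CovZ.n1 (-13506, 28194) (by decide +kernel)
                    (CovZ.n2 (-13506, 28200) (by decide +kernel)
                     (CovZ.leaf K2_ok TB_l51165 _)
                     (CovZ.leaf K2_ok TB_l51166 _))
                    (CovZ.n1 (-13500, 28194) (by decide +kernel)
                     (CovZ.leaf K2_ok TB_l51167 _)
                     (CovZ.leaf K2_ok TB_l51168 _))))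
                  (CovZ.subM 28876983919601281460865425764435685873440306512919190476179160815803735382036510288468621910796163795693427520043249717233097192388517817573441536 (by decide +kernel)
                   (CovZ.n1 (-13488, 28188) (by decide +kernel)
                    (CovZ.n2 (-13494, 28182) (by decide +kernel)
                     (CovZ.leaf K2_ok TB_l51169 _)
                     (CovZ.n1 (-13488, 28182) (by decide +kernel)
                      (CovZ.leaf K2_ok TB_l51170 _)
                      (CovZ.n1 (-13491, 28185) (by decide +kernel)
                       (CovZ.leaf K2_ok TB_l51171 _)
                       (CovZ.leaf K2_ok TB_l51172 _))))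
                    (CovZ.n1 (-13494, 28194) (by decide +kernel)
                     (CovZ.subM 28096499098491775500258799144732093316229122723252802246085160032841390829581162119861990532954606843366665100070458875422873569607137633073364992 (by decide +kernel)
                      (CovZ.n2 (-13488, 28194) (by decide +kernel)
                       (CovZ.n2 (-13491, 28191) (by decide +kernel)
                        (CovZ.leaf K2_ok TB_l51173 _)
                        (CovZ.leaf K2_ok TB_l51174 _))
                       (CovZ.n1 (-13491, 28197) (by decide +kernel)
                        (CovZ.leaf K2_ok TB_l51175 _)
                        (CovZ.n1 (-13491, 28194) (by decide +kernel)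
                         (CovZ.leaf K2_ok TB_l51176 _)
                         (CovZ.leaf K2_ok TB_l51177 _)))))
                     (CovZ.n1 (-13494, 28188) (by decide +kernel)
                      (CovZ.leaf K2_ok TB_l51178 _)
                      (CovZ.leaf K2_ok TB_l51179 _))))))
                 (CovZ.n1 (-13500, 28212) (by decide +kernel)
                  (CovZ.subM 3121748550321670658915156658625582897997723178089608973989526631971320881000864364558692024339477838743528208977350080095496930194394024381513728 (by decide +kernel)
                   (CovZ.n2 (-13488, 28212) (by decide +kernel)
                    (CovZ.n2 (-13494, 28206) (by decide +kernel)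
                     (CovZ.n2 (-13494, 28212) (by decide +kernel)
                      (CovZ.n2 (-13491, 28209) (by decide +kernel)
                       (CovZ.leaf K2_ok TB_l51180 _)
                       (CovZ.badM (by decide +kernel)))
                      (CovZ.n1 (-13497, 28209) (by decide +kernel)
                       (CovZ.leaf K2_ok TB_l51181 _)
                       (CovZ.leaf K2_ok TB_l51182 _)))
                     (CovZ.n1 (-13488, 28206) (by decide +kernel)
                      (CovZ.n2 (-13491, 28203) (by decide +kernel)
                       (CovZ.leaf K2_ok TB_l51183 _)
                       (CovZ.leaf K2_ok TB_l51184 _))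
                      (CovZ.n1 (-13491, 28209) (by decide +kernel)
                       (CovZ.badM (by decide +kernel))
                       (CovZ.leaf K2_ok TB_l51185 _))))
                    (CovZ.n1 (-13494, 28218) (by decide +kernel)
                     (CovZ.badM (by decide +kernel))
                     (CovZ.n1 (-13494, 28212) (by decide +kernel)
                      (CovZ.n2 (-13497, 28215) (by decide +kernel)
                       (CovZ.n2 (-13494, 28215) (by decide +kernel)
                        (CovZ.leaf K2_ok TB_l51186 _)
                        (CovZ.leaf K2_ok TB_l51187 _))
                       (CovZ.leaf K2_ok TB_l51188 _))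
                      (CovZ.badM (by decide +kernel))))))
                  (CovZ.n1 (-13500, 28200) (by decide +kernel)
                   (CovZ.n2 (-13506, 28206) (by decide +kernel)
                    (CovZ.n2 (-13500, 28206) (by decide +kernel)
                     (CovZ.leaf K2_ok TB_l51189 _)
                     (CovZ.n1 (-13503, 28209) (by decide +kernel)
                      (CovZ.leaf K2_ok TB_l51190 _)
                      (CovZ.leaf K2_ok TB_l51191 _)))
                    (CovZ.n1 (-13506, 28200) (by decide +kernel)
                     (CovZ.leaf K2_ok TB_l51192 _)
                     (CovZ.leaf K2_ok TB_l51193 _)))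
                   (CovZ.subM 28096499098491775500258799144732093316229122723252802246085160032841390829581162119861990532954606843366665100070458875422873569607137633073364992 (by decide +kernel)
                    (CovZ.n1 (-13494, 28206) (by decide +kernel)
                     (CovZ.n2 (-13494, 28200) (by decide +kernel)
                      (CovZ.leaf K2_ok TB_l51194 _)
                      (CovZ.n1 (-13491, 28203) (by decide +kernel)
                       (CovZ.leaf K2_ok TB_l51195 _)
                       (CovZ.leaf K2_ok TB_l51196 _)))
                     (CovZ.leaf K2_ok TB_l51197 _)))))))))

theorem TB_u504 : CovZ TB_M (toL (selN TB_LN 129151676206348118444871367650879172570838366443102270352129659609103644429328716076964552475509039263943690670165875792414281418271132714572709888)) [0, 7, 6, 1] (-13536, 28128) (-13488, 28080) (-13440, 28128) :=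
    (CovZ.n2 (-13488, 28128) (by decide +kernel)
              (CovZ.subM 25864526068715836907416704764393630331989405530535681295036835595787838656993780100403452400257573521585088836547413472038062160089426246642958336 (by decide +kernel)
               (CovZ.n2 (-13464, 28104) (by decide +kernel)
                (CovZ.n2 (-13488, 28104) (by decide +kernel)
                 (CovZ.n2 (-13476, 28116) (by decide +kernel)
                  (CovZ.n2 (-13476, 28104) (by decide +kernel)
                   (CovZ.n2 (-13482, 28110) (by decide +kernel)
                    (CovZ.leaf K2_ok TB_l51258 _)
                    (CovZ.leaf K2_ok TB_l51259 _))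
                   (CovZ.n1 (-13470, 28110) (by decide +kernel)
                    (CovZ.leaf K2_ok TB_l51260 _)
                    (CovZ.leaf K2_ok TB_l51261 _)))
                  (CovZ.n1 (-13488, 28116) (by decide +kernel)
                   (CovZ.n2 (-13482, 28122) (by decide +kernel)
                    (CovZ.leaf K2_ok TB_l51262 _)
                    (CovZ.leaf K2_ok TB_l51263 _))
                   (CovZ.n1 (-13482, 28110) (by decide +kernel)
                    (CovZ.leaf K2_ok TB_l51264 _)
                    (CovZ.n1 (-13482, 28116) (by decide +kernel)
                     (CovZ.leaf K2_ok TB_l51265 _)
                     (CovZ.leaf K2_ok TB_l51266 _)))))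
                 (CovZ.n1 (-13476, 28092) (by decide +kernel)
                  (CovZ.leaf K2_ok TB_l51267 _)
                  (CovZ.n1 (-13476, 28104) (by decide +kernel)
                   (CovZ.leaf K2_ok TB_l51268 _)
                   (CovZ.n1 (-13482, 28098) (by decide +kernel)
                    (CovZ.n2 (-13482, 28104) (by decide +kernel)
                     (CovZ.leaf K2_ok TB_l51269 _)
                     (CovZ.leaf K2_ok TB_l51270 _))
                    (CovZ.leaf K2_ok TB_l51271 _)))))
                (CovZ.n1 (-13464, 28128) (by decide +kernel)
                 (CovZ.subM 24986391145093964214177228606386913154919615279796071473224118970375410533105370189622159597666004132751734861360774433285677006020952114021269504 (by decide +kernel)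
                  (CovZ.n2 (-13452, 28116) (by decide +kernel)
                   (CovZ.n2 (-13464, 28116) (by decide +kernel)
                    (CovZ.n2 (-13458, 28122) (by decide +kernel)
                     (CovZ.n2 (-13458, 28116) (by decide +kernel)
                      (CovZ.leaf K2_ok TB_l51272 _)
                      (CovZ.leaf K2_ok TB_l51273 _))
                     (CovZ.leaf K2_ok TB_l51274 _))
                    (CovZ.n1 (-13458, 28110) (by decide +kernel)
                     (CovZ.leaf K2_ok TB_l51275 _)
                     (CovZ.n1 (-13458, 28116) (by decide +kernel)
                      (CovZ.n2 (-13455, 28113) (by decide +kernel)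
                       (CovZ.leaf K2_ok TB_l51276 _)
                       (CovZ.leaf K2_ok TB_l51277 _))
                      (CovZ.leaf K2_ok TB_l51278 _))))
                   (CovZ.n1 (-13452, 28128) (by decide +kernel)
                    (CovZ.n2 (-13446, 28122) (by decide +kernel)
                     (CovZ.n2 (-13452, 28122) (by decide +kernel)
                      (CovZ.badM (by decide +kernel))
                      (CovZ.leaf K2_ok TB_l51279 _))
                     (CovZ.badM (by decide +kernel)))
                    (CovZ.n1 (-13458, 28122) (by decide +kernel)
                     (CovZ.n2 (-13458, 28128) (by decide +kernel)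
                      (CovZ.leaf K2_ok TB_l51280 _)
                      (CovZ.leaf K2_ok TB_l51281 _))
                     (CovZ.n1 (-13452, 28122) (by decide +kernel)
                      (CovZ.leaf K2_ok TB_l51282 _)
                      (CovZ.n1 (-13455, 28125) (by decide +kernel)
                       (CovZ.badM (by decide +kernel))
                       (CovZ.leaf K2_ok TB_l51283 _)))))))
                 (CovZ.n1 (-13476, 28116) (by decide +kernel)
                  (CovZ.n2 (-13476, 28128) (by decide +kernel)
                   (CovZ.n2 (-13470, 28122) (by decide +kernel)
                    (CovZ.leaf K2_ok TB_l51284 _)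
                    (CovZ.n1 (-13470, 28128) (by decide +kernel)
                     (CovZ.leaf K2_ok TB_l51285 _)
                     (CovZ.leaf K2_ok TB_l51286 _)))
                   (CovZ.n1 (-13482, 28122) (by decide +kernel)
                    (CovZ.leaf K2_ok TB_l51287 _)
                    (CovZ.leaf K2_ok TB_l51288 _)))
                  (CovZ.n1 (-13464, 28116) (by decide +kernel)
                   (CovZ.n2 (-13470, 28110) (by decide +kernel)
                    (CovZ.n2 (-13470, 28116) (by decide +kernel)
                     (CovZ.leaf K2_ok TB_l51289 _)
                     (CovZ.leaf K2_ok TB_l51290 _))
                    (CovZ.n1 (-13464, 28110) (by decide +kernel)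
                     (CovZ.leaf K2_ok TB_l51291 _)
                     (CovZ.leaf K2_ok TB_l51292 _)))
                   (CovZ.n1 (-13470, 28122) (by decide +kernel)
                    (CovZ.subM 24974184906293633510300099482086765161971493968241232928646975736566450549156509030256988875636737472937133639877927441599932399335041810934267904 (by decide +kernel)
                     (CovZ.n2 (-13464, 28122) (by decide +kernel)
                      (CovZ.n2 (-13467, 28119) (by decide +kernel)
                       (CovZ.leaf K2_ok TB_l51293 _)
                       (CovZ.leaf K2_ok TB_l51294 _))
                      (CovZ.n1 (-13467, 28125) (by decide +kernel)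
                       (CovZ.leaf K2_ok TB_l51295 _)
                       (CovZ.leaf K2_ok TB_l51296 _))))
                    (CovZ.n1 (-13470, 28116) (by decide +kernel)
                     (CovZ.leaf K2_ok TB_l51297 _)
                     (CovZ.leaf K2_ok TB_l51298 _))))))))
              (CovZ.n1 (-13512, 28104) (by decide +kernel)
               (CovZ.n2 (-13512, 28128) (by decide +kernel)
                (CovZ.n2 (-13500, 28116) (by decide +kernel)
                 (CovZ.leaf K2_ok TB_l51299 _)
                 (CovZ.n1 (-13500, 28128) (by decide +kernel)
                  (CovZ.n2 (-13494, 28122) (by decide +kernel)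
                   (CovZ.leaf K2_ok TB_l51300 _)
                   (CovZ.leaf K2_ok TB_l51301 _))
                  (CovZ.leaf K2_ok TB_l51302 _)))
                (CovZ.n1 (-13524, 28116) (by decide +kernel)
                 (CovZ.n2 (-13524, 28128) (by decide +kernel)
                  (CovZ.leaf K2_ok TB_l51303 _)
                  (CovZ.leaf K2_ok TB_l51304 _))
                 (CovZ.n1 (-13512, 28116) (by decide +kernel)
                  (CovZ.leaf K2_ok TB_l51305 _)
                  (CovZ.leaf K2_ok TB_l51306 _))))
               (CovZ.n1 (-13488, 28104) (by decide +kernel)
                (CovZ.n2 (-13500, 28092) (by decide +kernel)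
                 (CovZ.n2 (-13500, 28104) (by decide +kernel)
                  (CovZ.n2 (-13494, 28098) (by decide +kernel)
                   (CovZ.leaf K2_ok TB_l51307 _)
                   (CovZ.leaf K2_ok TB_l51308 _))
                  (CovZ.leaf K2_ok TB_l51309 _))
                 (CovZ.n1 (-13488, 28092) (by decide +kernel)
                  (CovZ.leaf K2_ok TB_l51310 _)
                  (CovZ.leaf K2_ok TB_l51311 _)))
                (CovZ.n1 (-13500, 28116) (by decide +kernel)
                 (CovZ.n2 (-13488, 28116) (by decide +kernel)
                  (CovZ.leaf K2_ok TB_l51312 _)
                  (CovZ.n1 (-13494, 28122) (by decide +kernel)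
                   (CovZ.leaf K2_ok TB_l51313 _)
                   (CovZ.leaf K2_ok TB_l51314 _)))
                 (CovZ.n1 (-13500, 28104) (by decide +kernel)
                  (CovZ.leaf K2_ok TB_l51315 _)
                  (CovZ.leaf K2_ok TB_l51316 _))))))

theorem TB_u505 : CovZ TB_M (toL (selN TB_LN 129151676206348118444871367650879172570838366443102270352129659609103644429328716076964552475509039263943690670165875792414281418271132714572709888)) [0, 7, 6, 1] (-13488, 28080) (-13440, 28032) (-13440, 28128) :=
    (CovZ.subM 25864526068715836907416704764393630331989405530535681295036835595787838656993780100403452400257573521585088836547413472038062160089426246642958336 (by decide +kernel)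
              (CovZ.n1 (-13440, 28080) (by decide +kernel)
               (CovZ.n2 (-13464, 28056) (by decide +kernel)
                (CovZ.n2 (-13464, 28080) (by decide +kernel)
                 (CovZ.subM 24986391145093964214177228606386913154919615279796071473224118970375410533105370189622159597666004132751734861360774433285677006020952114021269504 (by decide +kernel)
                  (CovZ.n2 (-13452, 28068) (by decide +kernel)
                   (CovZ.n2 (-13464, 28068) (by decide +kernel)
                    (CovZ.n2 (-13458, 28074) (by decide +kernel)
                     (CovZ.leaf K2_ok TB_l51317 _)
                     (CovZ.leaf K2_ok TB_l51318 _))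
                    (CovZ.n1 (-13458, 28062) (by decide +kernel)
                     (CovZ.leaf K2_ok TB_l51319 _)
                     (CovZ.leaf K2_ok TB_l51320 _)))
                   (CovZ.n1 (-13452, 28080) (by decide +kernel)
                    (CovZ.n2 (-13446, 28074) (by decide +kernel)
                     (CovZ.leaf K2_ok TB_l51321 _)
                     (CovZ.n1 (-13446, 28080) (by decide +kernel)
                      (CovZ.leaf K2_ok TB_l51322 _)
                      (CovZ.leaf K2_ok TB_l51323 _)))
                    (CovZ.n1 (-13458, 28074) (by decide +kernel)
                     (CovZ.leaf K2_ok TB_l51324 _)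
                     (CovZ.leaf K2_ok TB_l51325 _)))))
                 (CovZ.n1 (-13476, 28068) (by decide +kernel)
                  (CovZ.n2 (-13476, 28080) (by decide +kernel)
                   (CovZ.n2 (-13470, 28074) (by decide +kernel)
                    (CovZ.leaf K2_ok TB_l51326 _)
                    (CovZ.n1 (-13470, 28080) (by decide +kernel)
                     (CovZ.leaf K2_ok TB_l51327 _)
                     (CovZ.leaf K2_ok TB_l51328 _)))
                   (CovZ.leaf K2_ok TB_l51329 _))
                  (CovZ.n1 (-13464, 28068) (by decide +kernel)
                   (CovZ.n2 (-13470, 28062) (by decide +kernel)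
                    (CovZ.leaf K2_ok TB_l51330 _)
                    (CovZ.leaf K2_ok TB_l51331 _))
                   (CovZ.n1 (-13470, 28074) (by decide +kernel)
                    (CovZ.leaf K2_ok TB_l51332 _)
                    (CovZ.leaf K2_ok TB_l51333 _)))))
                (CovZ.subM 24986391145093964214177228606386913154919615279796071473224118970375410533105370189622159597666004132751734861360774433285677006020952114021269504 (by decide +kernel)
                 (CovZ.n1 (-13440, 28056) (by decide +kernel)
                  (CovZ.n2 (-13452, 28044) (by decide +kernel)
                   (CovZ.n2 (-13452, 28056) (by decide +kernel)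
                    (CovZ.n2 (-13446, 28050) (by decide +kernel)
                     (CovZ.leaf K2_ok TB_l51334 _)
                     (CovZ.leaf K2_ok TB_l51335 _))
                    (CovZ.n1 (-13458, 28050) (by decide +kernel)
                     (CovZ.leaf K2_ok TB_l51336 _)
                     (CovZ.leaf K2_ok TB_l51337 _)))
                   (CovZ.n1 (-13440, 28044) (by decide +kernel)
                    (CovZ.n2 (-13446, 28038) (by decide +kernel)
                     (CovZ.leaf K2_ok TB_l51338 _)
                     (CovZ.n1 (-13440, 28038) (by decide +kernel)
                      (CovZ.leaf K2_ok TB_l51339 _)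
                      (CovZ.leaf K2_ok TB_l51340 _)))
                    (CovZ.n1 (-13446, 28050) (by decide +kernel)
                     (CovZ.leaf K2_ok TB_l51341 _)
                     (CovZ.leaf K2_ok TB_l51342 _))))
                  (CovZ.n1 (-13452, 28068) (by decide +kernel)
                   (CovZ.n2 (-13440, 28068) (by decide +kernel)
                    (CovZ.n2 (-13446, 28062) (by decide +kernel)
                     (CovZ.leaf K2_ok TB_l51343 _)
                     (CovZ.leaf K2_ok TB_l51344 _))
                    (CovZ.n1 (-13446, 28074) (by decide +kernel)
                     (CovZ.leaf K2_ok TB_l51345 _)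
                     (CovZ.n1 (-13446, 28068) (by decide +kernel)
                      (CovZ.leaf K2_ok TB_l51346 _)
                      (CovZ.leaf K2_ok TB_l51347 _))))
                   (CovZ.n1 (-13452, 28056) (by decide +kernel)
                    (CovZ.n2 (-13458, 28062) (by decide +kernel)
                     (CovZ.leaf K2_ok TB_l51348 _)
                     (CovZ.leaf K2_ok TB_l51349 _))
                    (CovZ.n1 (-13446, 28062) (by decide +kernel)
                     (CovZ.n2 (-13446, 28056) (by decide +kernel)
                      (CovZ.leaf K2_ok TB_l51350 _)
                      (CovZ.leaf K2_ok TB_l51351 _))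
                     (CovZ.leaf K2_ok TB_l51352 _)))))))
               (CovZ.n1 (-13464, 28104) (by decide +kernel)
                (CovZ.subM 24986391145093964214177228606386913154919615279796071473224118970375410533105370189622159597666004132751734861360774433285677006020952114021269504 (by decide +kernel)
                 (CovZ.n2 (-13440, 28104) (by decide +kernel)
                  (CovZ.n2 (-13452, 28092) (by decide +kernel)
                   (CovZ.n2 (-13452, 28104) (by decide +kernel)
                    (CovZ.n2 (-13446, 28098) (by decide +kernel)
                     (CovZ.leaf K2_ok TB_l51353 _)
                     (CovZ.n1 (-13446, 28104) (by decide +kernel)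
                      (CovZ.n2 (-13443, 28101) (by decide +kernel)
                       (CovZ.leaf K2_ok TB_l51354 _)
                       (CovZ.leaf K2_ok TB_l51355 _))
                      (CovZ.leaf K2_ok TB_l51356 _)))
                    (CovZ.n1 (-13458, 28098) (by decide +kernel)
                     (CovZ.n2 (-13458, 28104) (by decide +kernel)
                      (CovZ.leaf K2_ok TB_l51357 _)
                      (CovZ.leaf K2_ok TB_l51358 _))
                     (CovZ.leaf K2_ok TB_l51359 _)))
                   (CovZ.n1 (-13440, 28092) (by decide +kernel)
                    (CovZ.n2 (-13446, 28086) (by decide +kernel)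
                     (CovZ.n2 (-13446, 28092) (by decide +kernel)
                      (CovZ.leaf K2_ok TB_l51360 _)
                      (CovZ.leaf K2_ok TB_l51361 _))
                     (CovZ.n1 (-13440, 28086) (by decide +kernel)
                      (CovZ.n2 (-13443, 28083) (by decide +kernel)
                       (CovZ.leaf K2_ok TB_l51362 _)
                       (CovZ.leaf K2_ok TB_l51363 _))
                      (CovZ.leaf K2_ok TB_l51364 _)))
                    (CovZ.n1 (-13446, 28098) (by decide +kernel)
                     (CovZ.n2 (-13440, 28098) (by decide +kernel)
                      (CovZ.leaf K2_ok TB_l51365 _)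
                      (CovZ.n1 (-13443, 28101) (by decide +kernel)
                       (CovZ.leaf K2_ok TB_l51366 _)
                       (CovZ.leaf K2_ok TB_l51367 _)))
                     (CovZ.n1 (-13446, 28092) (by decide +kernel)
                      (CovZ.leaf K2_ok TB_l51368 _)
                      (CovZ.leaf K2_ok TB_l51369 _)))))
                  (CovZ.n1 (-13452, 28116) (by decide +kernel)
                   (CovZ.n2 (-13440, 28116) (by decide +kernel)
                    (CovZ.n2 (-13446, 28110) (by decide +kernel)
                     (CovZ.n2 (-13446, 28116) (by decide +kernel)
                      (CovZ.leaf K2_ok TB_l51370 _)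
                      (CovZ.leaf K2_ok TB_l51371 _))
                     (CovZ.n1 (-13440, 28110) (by decide +kernel)
                      (CovZ.n2 (-13443, 28107) (by decide +kernel)
                       (CovZ.leaf K2_ok TB_l51372 _)
                       (CovZ.leaf K2_ok TB_l51373 _))
                      (CovZ.n1 (-13443, 28113) (by decide +kernel)
                       (CovZ.leaf K2_ok TB_l51374 _)
                       (CovZ.leaf K2_ok TB_l51375 _))))
                    (CovZ.subM 24974184906285115868999760338838140273597806415104276193951421228047526835884860913599409993722758671561581723094012255799858967562383202321432576 (by decide +kernel)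
                     (CovZ.n1 (-13446, 28122) (by decide +kernel)
                      (CovZ.subM 5965892249018341357628849815144741217974688288521506638790471554874687276834770154661376144258571346122738777344232788478452010167669096448 (by decide +kernel)
                       (CovZ.n2 (-13440, 28122) (by decide +kernel)
                        (CovZ.n2 (-13443, 28119) (by decide +kernel)
                         (CovZ.badM (by decide +kernel))
                         (CovZ.n1 (-13440, 28119) (by decide +kernel)
                          (CovZ.leaf K2_ok TB_l51376 _)
                          (CovZ.badM (by decide +kernel))))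
                        (CovZ.badM (by decide +kernel))))
                      (CovZ.n1 (-13446, 28116) (by decide +kernel)
                       (CovZ.n2 (-13449, 28119) (by decide +kernel)
                        (CovZ.leaf K2_ok TB_l51377 _)
                        (CovZ.leaf K2_ok TB_l51378 _))
                       (CovZ.leaf K2_ok TB_l51379 _)))))
                   (CovZ.n1 (-13452, 28104) (by decide +kernel)
                    (CovZ.n2 (-13458, 28110) (by decide +kernel)
                     (CovZ.n2 (-13452, 28110) (by decide +kernel)
                      (CovZ.leaf K2_ok TB_l51380 _)
                      (CovZ.leaf K2_ok TB_l51381 _))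
                     (CovZ.n1 (-13458, 28104) (by decide +kernel)
                      (CovZ.leaf K2_ok TB_l51382 _)
                      (CovZ.leaf K2_ok TB_l51383 _)))
                    (CovZ.n1 (-13446, 28110) (by decide +kernel)
                     (CovZ.n2 (-13446, 28104) (by decide +kernel)
                      (CovZ.n2 (-13449, 28107) (by decide +kernel)
                       (CovZ.leaf K2_ok TB_l51384 _)
                       (CovZ.leaf K2_ok TB_l51385 _))
                      (CovZ.leaf K2_ok TB_l51386 _))
                     (CovZ.n1 (-13452, 28110) (by decide +kernel)
                      (CovZ.leaf K2_ok TB_l51387 _)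
                      (CovZ.leaf K2_ok TB_l51388 _)))))))
                (CovZ.n1 (-13464, 28080) (by decide +kernel)
                 (CovZ.n2 (-13476, 28092) (by decide +kernel)
                  (CovZ.n2 (-13464, 28092) (by decide +kernel)
                   (CovZ.n2 (-13470, 28086) (by decide +kernel)
                    (CovZ.leaf K2_ok TB_l51389 _)
                    (CovZ.leaf K2_ok TB_l51390 _))
                   (CovZ.leaf K2_ok TB_l51391 _))
                  (CovZ.n1 (-13476, 28080) (by decide +kernel)
                   (CovZ.leaf K2_ok TB_l51392 _)
                   (CovZ.n1 (-13470, 28086) (by decide +kernel)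
                    (CovZ.leaf K2_ok TB_l51393 _)
                    (CovZ.leaf K2_ok TB_l51394 _))))
                 (CovZ.subM 24986391145093964214177228606386913154919615279796071473224118970375410533105370189622159597666004132751734861360774433285677006020952114021269504 (by decide +kernel)
                  (CovZ.n1 (-13452, 28092) (by decide +kernel)
                   (CovZ.n2 (-13452, 28080) (by decide +kernel)
                    (CovZ.n2 (-13458, 28086) (by decide +kernel)
                     (CovZ.leaf K2_ok TB_l51395 _)
                     (CovZ.n1 (-13458, 28080) (by decide +kernel)
                      (CovZ.leaf K2_ok TB_l51396 _)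
                      (CovZ.leaf K2_ok TB_l51397 _)))
                    (CovZ.n1 (-13446, 28086) (by decide +kernel)
                     (CovZ.n2 (-13446, 28080) (by decide +kernel)
                      (CovZ.n2 (-13449, 28083) (by decide +kernel)
                       (CovZ.leaf K2_ok TB_l51398 _)
                       (CovZ.leaf K2_ok TB_l51399 _))
                      (CovZ.n1 (-13443, 28083) (by decide +kernel)
                       (CovZ.leaf K2_ok TB_l51400 _)
                       (CovZ.leaf K2_ok TB_l51401 _)))
                     (CovZ.leaf K2_ok TB_l51402 _)))
                   (CovZ.n1 (-13464, 28092) (by decide +kernel)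
                    (CovZ.leaf K2_ok TB_l51403 _)
                    (CovZ.n1 (-13458, 28086) (by decide +kernel)
                     (CovZ.leaf K2_ok TB_l51404 _)
                     (CovZ.leaf K2_ok TB_l51405 _)))))))))

theorem TB_u506 : CovZ TB_M (toL (selN TB_LN 129151676206348118444871367650879172570838366443102270352129659609103644429328716076964552475509039263943690670165875792414281418271132714572709888)) [0, 7, 6, 1] (-13632, 28224) (-13536, 28128) (-13440, 28224) :=
    (CovZ.n2 (-13536, 28224) (by decide +kernel)
            (CovZ.n2 (-13488, 28176) (by decide +kernel)
             TB_u502
             TB_u503)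
            (CovZ.n1 (-13584, 28176) (by decide +kernel)
             (CovZ.n2 (-13584, 28224) (by decide +kernel)
              (CovZ.n2 (-13560, 28200) (by decide +kernel)
               (CovZ.n2 (-13584, 28200) (by decide +kernel)
                (CovZ.n2 (-13572, 28212) (by decide +kernel)
                 (CovZ.n2 (-13572, 28200) (by decide +kernel)
                  (CovZ.leaf K2_ok TB_l51198 _)
                  (CovZ.leaf K2_ok TB_l51199 _))
                 (CovZ.leaf K2_ok TB_l51200 _))
                (CovZ.n1 (-13572, 28188) (by decide +kernel)
                 (CovZ.leaf K2_ok TB_l51201 _)
                 (CovZ.n1 (-13572, 28200) (by decide +kernel)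
                  (CovZ.leaf K2_ok TB_l51202 _)
                  (CovZ.leaf K2_ok TB_l51203 _))))
               (CovZ.subM 129041242288430186964484546218939646134300150409344515752155159635125628935643032782593161792868370211470842914007691091693590812731587025027727360 (by decide +kernel)
                (CovZ.n1 (-13560, 28224) (by decide +kernel)
                 (CovZ.n2 (-13548, 28212) (by decide +kernel)
                  (CovZ.n2 (-13560, 28212) (by decide +kernel)
                   (CovZ.n2 (-13554, 28218) (by decide +kernel)
                    (CovZ.leaf K2_ok TB_l51204 _)
                    (CovZ.leaf K2_ok TB_l51205 _))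
                   (CovZ.n1 (-13554, 28206) (by decide +kernel)
                    (CovZ.leaf K2_ok TB_l51206 _)
                    (CovZ.leaf K2_ok TB_l51207 _)))
                  (CovZ.n1 (-13548, 28224) (by decide +kernel)
                   (CovZ.leaf K2_ok TB_l51208 _)
                   (CovZ.n1 (-13554, 28218) (by decide +kernel)
                    (CovZ.leaf K2_ok TB_l51209 _)
                    (CovZ.leaf K2_ok TB_l51210 _))))
                 (CovZ.n1 (-13572, 28212) (by decide +kernel)
                  (CovZ.n2 (-13572, 28224) (by decide +kernel)
                   (CovZ.leaf K2_ok TB_l51211 _)
                   (CovZ.leaf K2_ok TB_l51212 _))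
                  (CovZ.n1 (-13560, 28212) (by decide +kernel)
                   (CovZ.leaf K2_ok TB_l51213 _)
                   (CovZ.leaf K2_ok TB_l51214 _))))))
              (CovZ.n1 (-13608, 28200) (by decide +kernel)
               (CovZ.n2 (-13608, 28224) (by decide +kernel)
                (CovZ.n2 (-13596, 28212) (by decide +kernel)
                 (CovZ.leaf K2_ok TB_l51215 _)
                 (CovZ.n1 (-13596, 28224) (by decide +kernel)
                  (CovZ.leaf K2_ok TB_l51216 _)
                  (CovZ.leaf K2_ok TB_l51217 _)))
                (CovZ.n1 (-13620, 28212) (by decide +kernel)
                 (CovZ.leaf K2_ok TB_l51218 _)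
                 (CovZ.leaf K2_ok TB_l51219 _)))
               (CovZ.n1 (-13584, 28200) (by decide +kernel)
                (CovZ.n2 (-13596, 28188) (by decide +kernel)
                 (CovZ.n2 (-13596, 28200) (by decide +kernel)
                  (CovZ.leaf K2_ok TB_l51220 _)
                  (CovZ.leaf K2_ok TB_l51221 _))
                 (CovZ.leaf K2_ok TB_l51222 _))
                (CovZ.n1 (-13596, 28212) (by decide +kernel)
                 (CovZ.n2 (-13584, 28212) (by decide +kernel)
                  (CovZ.leaf K2_ok TB_l51223 _)
                  (CovZ.leaf K2_ok TB_l51224 _))
                 (CovZ.n1 (-13596, 28200) (by decide +kernel)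
                  (CovZ.n2 (-13602, 28206) (by decide +kernel)
                   (CovZ.leaf K2_ok TB_l51225 _)
                   (CovZ.n1 (-13602, 28200) (by decide +kernel)
                    (CovZ.n2 (-13605, 28203) (by decide +kernel)
                     (CovZ.leaf K2_ok TB_l51226 _)
                     (CovZ.leaf K2_ok TB_l51227 _))
                    (CovZ.leaf K2_ok TB_l51228 _)))
                  (CovZ.leaf K2_ok TB_l51229 _))))))
             (CovZ.n1 (-13536, 28176) (by decide +kernel)
              (CovZ.n2 (-13560, 28152) (by decide +kernel)
               (CovZ.n2 (-13560, 28176) (by decide +kernel)
                (CovZ.n2 (-13548, 28164) (by decide +kernel)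
                 (CovZ.leaf K2_ok TB_l51230 _)
                 (CovZ.n1 (-13548, 28176) (by decide +kernel)
                  (CovZ.leaf K2_ok TB_l51231 _)
                  (CovZ.leaf K2_ok TB_l51232 _)))
                (CovZ.n1 (-13572, 28164) (by decide +kernel)
                 (CovZ.n2 (-13572, 28176) (by decide +kernel)
                  (CovZ.leaf K2_ok TB_l51233 _)
                  (CovZ.leaf K2_ok TB_l51234 _))
                 (CovZ.leaf K2_ok TB_l51235 _)))
               (CovZ.n1 (-13536, 28152) (by decide +kernel)
                (CovZ.n2 (-13548, 28140) (by decide +kernel)
                 (CovZ.n2 (-13548, 28152) (by decide +kernel)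
                  (CovZ.leaf K2_ok TB_l51236 _)
                  (CovZ.leaf K2_ok TB_l51237 _))
                 (CovZ.leaf K2_ok TB_l51238 _))
                (CovZ.n1 (-13548, 28164) (by decide +kernel)
                 (CovZ.n2 (-13536, 28164) (by decide +kernel)
                  (CovZ.leaf K2_ok TB_l51239 _)
                  (CovZ.leaf K2_ok TB_l51240 _))
                 (CovZ.n1 (-13548, 28152) (by decide +kernel)
                  (CovZ.leaf K2_ok TB_l51241 _)
                  (CovZ.leaf K2_ok TB_l51242 _)))))
              (CovZ.n1 (-13560, 28200) (by decide +kernel)
               (CovZ.n2 (-13536, 28200) (by decide +kernel)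
                (CovZ.n2 (-13548, 28188) (by decide +kernel)
                 (CovZ.n2 (-13548, 28200) (by decide +kernel)
                  (CovZ.leaf K2_ok TB_l51243 _)
                  (CovZ.leaf K2_ok TB_l51244 _))
                 (CovZ.n1 (-13536, 28188) (by decide +kernel)
                  (CovZ.leaf K2_ok TB_l51245 _)
                  (CovZ.leaf K2_ok TB_l51246 _)))
                (CovZ.subM 129041242288418652658557003629123799931294115181138220173921596238172919740587675957952690390276523917941449693362805944255991373872778492531179520 (by decide +kernel)
                 (CovZ.n1 (-13548, 28212) (by decide +kernel)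
                  (CovZ.n2 (-13536, 28212) (by decide +kernel)
                   (CovZ.leaf K2_ok TB_l51247 _)
                   (CovZ.n1 (-13542, 28218) (by decide +kernel)
                    (CovZ.leaf K2_ok TB_l51248 _)
                    (CovZ.leaf K2_ok TB_l51249 _)))
                  (CovZ.n1 (-13548, 28200) (by decide +kernel)
                   (CovZ.leaf K2_ok TB_l51250 _)
                   (CovZ.leaf K2_ok TB_l51251 _)))))
               (CovZ.n1 (-13560, 28176) (by decide +kernel)
                (CovZ.n2 (-13572, 28188) (by decide +kernel)
                 (CovZ.leaf K2_ok TB_l51252 _)
                 (CovZ.n1 (-13572, 28176) (by decide +kernel)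
                  (CovZ.leaf K2_ok TB_l51253 _)
                  (CovZ.leaf K2_ok TB_l51254 _)))
                (CovZ.n1 (-13548, 28188) (by decide +kernel)
                 (CovZ.n2 (-13548, 28176) (by decide +kernel)
                  (CovZ.leaf K2_ok TB_l51255 _)
                  (CovZ.leaf K2_ok TB_l51256 _))
                 (CovZ.leaf K2_ok TB_l51257 _)))))))

theorem TB_u507 : CovZ TB_M (toL (selN TB_LN 129151676206348118444871367650879172570838366443102270352129659609103644429328716076964552475509039263943690670165875792414281418271132714572709888)) [0, 7, 6, 1] (-13536, 28128) (-13440, 28032) (-13440, 28224) :=
    (CovZ.n1 (-13440, 28128) (by decide +kernel)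
            (CovZ.n2 (-13488, 28080) (by decide +kernel)
             TB_u504
             TB_u505)
            (CovZ.n1 (-13488, 28176) (by decide +kernel)
             (CovZ.subM 28974634022113648193498275302738810493298912973992412067897876658253818953469572030643283335546176232200019075257097914175258723675611765695053824 (by decide +kernel)
              (CovZ.n2 (-13440, 28176) (by decide +kernel)
               (CovZ.n2 (-13464, 28152) (by decide +kernel)
                (CovZ.n2 (-13464, 28176) (by decide +kernel)
                 (CovZ.badM (by decide +kernel))
                 (CovZ.n1 (-13476, 28164) (by decide +kernel)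
                  (CovZ.n2 (-13476, 28176) (by decide +kernel)
                   (CovZ.n2 (-13470, 28170) (by decide +kernel)
                    (CovZ.n2 (-13476, 28170) (by decide +kernel)
                     (CovZ.leaf K2_ok TB_l51406 _)
                     (CovZ.n1 (-13473, 28167) (by decide +kernel)
                      (CovZ.leaf K2_ok TB_l51407 _)
                      (CovZ.leaf K2_ok TB_l51408 _)))
                    (CovZ.n1 (-13470, 28176) (by decide +kernel)
                     (CovZ.badM (by decide +kernel))
                     (CovZ.leaf K2_ok TB_l51409 _)))
                   (CovZ.n1 (-13482, 28170) (by decide +kernel)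
                    (CovZ.n2 (-13482, 28176) (by decide +kernel)
                     (CovZ.leaf K2_ok TB_l51410 _)
                     (CovZ.leaf K2_ok TB_l51411 _))
                    (CovZ.n1 (-13476, 28170) (by decide +kernel)
                     (CovZ.leaf K2_ok TB_l51412 _)
                     (CovZ.leaf K2_ok TB_l51413 _))))
                  (CovZ.n1 (-13464, 28164) (by decide +kernel)
                   (CovZ.n2 (-13470, 28158) (by decide +kernel)
                    (CovZ.n2 (-13470, 28164) (by decide +kernel)
                     (CovZ.badM (by decide +kernel))
                     (CovZ.n1 (-13473, 28161) (by decide +kernel)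
                      (CovZ.leaf K2_ok TB_l51414 _)
                      (CovZ.leaf K2_ok TB_l51415 _)))
                    (CovZ.badM (by decide +kernel)))
                   (CovZ.n1 (-13470, 28170) (by decide +kernel)
                    (CovZ.badM (by decide +kernel))
                    (CovZ.n1 (-13470, 28164) (by decide +kernel)
                     (CovZ.n2 (-13473, 28167) (by decide +kernel)
                      (CovZ.n2 (-13470, 28167) (by decide +kernel)
                       (CovZ.leaf K2_ok TB_l51416 _)
                       (CovZ.leaf K2_ok TB_l51417 _))
                      (CovZ.leaf K2_ok TB_l51418 _))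
                     (CovZ.badM (by decide +kernel)))))))
                (CovZ.badM (by decide +kernel)))
               (CovZ.subM 28876983919598442247098646050019477577315743995206871564613975979630760810945960916249428950158170861901576881115277988633072715130964948035829760 (by decide +kernel)
                (CovZ.n1 (-13464, 28200) (by decide +kernel)
                 (CovZ.badM (by decide +kernel))
                 (CovZ.n1 (-13464, 28176) (by decide +kernel)
                  (CovZ.n2 (-13476, 28188) (by decide +kernel)
                   (CovZ.badM (by decide +kernel))
                   (CovZ.n1 (-13476, 28176) (by decide +kernel)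
                    (CovZ.n2 (-13482, 28182) (by decide +kernel)
                     (CovZ.n2 (-13476, 28182) (by decide +kernel)
                      (CovZ.leaf K2_ok TB_l51419 _)
                      (CovZ.n1 (-13479, 28185) (by decide +kernel)
                       (CovZ.badM (by decide +kernel))
                       (CovZ.leaf K2_ok TB_l51420 _)))
                     (CovZ.n1 (-13482, 28176) (by decide +kernel)
                      (CovZ.leaf K2_ok TB_l51421 _)
                      (CovZ.leaf K2_ok TB_l51422 _)))
                    (CovZ.badM (by decide +kernel))))
                  (CovZ.badM (by decide +kernel)))))))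
             (CovZ.n1 (-13488, 28128) (by decide +kernel)
              (CovZ.n2 (-13512, 28152) (by decide +kernel)
               (CovZ.n2 (-13488, 28152) (by decide +kernel)
                (CovZ.n2 (-13500, 28140) (by decide +kernel)
                 (CovZ.n2 (-13500, 28152) (by decide +kernel)
                  (CovZ.n2 (-13494, 28146) (by decide +kernel)
                   (CovZ.leaf K2_ok TB_l51423 _)
                   (CovZ.leaf K2_ok TB_l51424 _))
                  (CovZ.leaf K2_ok TB_l51425 _))
                 (CovZ.subM 25852123327612715437625501849303372201239412643331698212647459140540549788852098907682914595825364294363011131795325183078580866456896444326477824 (by decide +kernel)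
                  (CovZ.n1 (-13488, 28140) (by decide +kernel)
                   (CovZ.n2 (-13494, 28134) (by decide +kernel)
                    (CovZ.leaf K2_ok TB_l51426 _)
                    (CovZ.leaf K2_ok TB_l51427 _))
                   (CovZ.n1 (-13494, 28146) (by decide +kernel)
                    (CovZ.leaf K2_ok TB_l51428 _)
                    (CovZ.leaf K2_ok TB_l51429 _)))))
                (CovZ.n1 (-13500, 28164) (by decide +kernel)
                 (CovZ.subM 28974634022116487407265055017155018789423475491704730979463061494426793524560121402862476296184169165991869714185069642775283200933164635232665600 (by decide +kernel)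
                  (CovZ.n2 (-13488, 28164) (by decide +kernel)
                   (CovZ.n2 (-13494, 28158) (by decide +kernel)
                    (CovZ.leaf K2_ok TB_l51430 _)
                    (CovZ.n1 (-13488, 28158) (by decide +kernel)
                     (CovZ.leaf K2_ok TB_l51431 _)
                     (CovZ.leaf K2_ok TB_l51432 _)))
                   (CovZ.n1 (-13494, 28170) (by decide +kernel)
                    (CovZ.leaf K2_ok TB_l51433 _)
                    (CovZ.leaf K2_ok TB_l51434 _))))
                 (CovZ.n1 (-13500, 28152) (by decide +kernel)
                  (CovZ.n2 (-13506, 28158) (by decide +kernel)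
                   (CovZ.leaf K2_ok TB_l51435 _)
                   (CovZ.leaf K2_ok TB_l51436 _))
                  (CovZ.leaf K2_ok TB_l51437 _))))
               (CovZ.n1 (-13512, 28128) (by decide +kernel)
                (CovZ.n2 (-13524, 28140) (by decide +kernel)
                 (CovZ.n2 (-13512, 28140) (by decide +kernel)
                  (CovZ.leaf K2_ok TB_l51438 _)
                  (CovZ.leaf K2_ok TB_l51439 _))
                 (CovZ.n1 (-13524, 28128) (by decide +kernel)
                  (CovZ.leaf K2_ok TB_l51440 _)
                  (CovZ.leaf K2_ok TB_l51441 _)))
                (CovZ.n1 (-13500, 28140) (by decide +kernel)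
                 (CovZ.n2 (-13500, 28128) (by decide +kernel)
                  (CovZ.leaf K2_ok TB_l51442 _)
                  (CovZ.n1 (-13494, 28134) (by decide +kernel)
                   (CovZ.leaf K2_ok TB_l51443 _)
                   (CovZ.leaf K2_ok TB_l51444 _)))
                 (CovZ.n1 (-13512, 28140) (by decide +kernel)
                  (CovZ.leaf K2_ok TB_l51445 _)
                  (CovZ.leaf K2_ok TB_l51446 _)))))
              (CovZ.subM 28974634023570874659297963726857718479230625189840093428728993824033017565694037322144070382996049500867359505038587618137821676114622055874297856 (by decide +kernel)
               (CovZ.n1 (-13464, 28152) (by decide +kernel)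
                (CovZ.n2 (-13464, 28128) (by decide +kernel)
                 (CovZ.n2 (-13476, 28140) (by decide +kernel)
                  (CovZ.n2 (-13464, 28140) (by decide +kernel)
                   (CovZ.n2 (-13470, 28134) (by decide +kernel)
                    (CovZ.n2 (-13470, 28140) (by decide +kernel)
                     (CovZ.leaf K2_ok TB_l51447 _)
                     (CovZ.leaf K2_ok TB_l51448 _))
                    (CovZ.n1 (-13464, 28134) (by decide +kernel)
                     (CovZ.leaf K2_ok TB_l51449 _)
                     (CovZ.leaf K2_ok TB_l51450 _)))
                   (CovZ.n1 (-13470, 28146) (by decide +kernel)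
                    (CovZ.subM 24973988402533616278586337267177747038237910176744407030003625349348923052739223705400834745783921636862316726827196440363632759949412021525544960 (by decide +kernel)
                     (CovZ.n2 (-13464, 28146) (by decide +kernel)
                      (CovZ.n2 (-13467, 28143) (by decide +kernel)
                       (CovZ.leaf K2_ok TB_l51451 _)
                       (CovZ.leaf K2_ok TB_l51452 _))
                      (CovZ.n1 (-13467, 28149) (by decide +kernel)
                       (CovZ.badM (by decide +kernel))
                       (CovZ.leaf K2_ok TB_l51453 _))))
                    (CovZ.leaf K2_ok TB_l51454 _)))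
                  (CovZ.n1 (-13476, 28128) (by decide +kernel)
                   (CovZ.n2 (-13482, 28134) (by decide +kernel)
                    (CovZ.leaf K2_ok TB_l51455 _)
                    (CovZ.leaf K2_ok TB_l51456 _))
                   (CovZ.n1 (-13470, 28134) (by decide +kernel)
                    (CovZ.leaf K2_ok TB_l51457 _)
                    (CovZ.leaf K2_ok TB_l51458 _))))
                 (CovZ.subM 24973988402533616278586337267177747038237910176744407030003625349348923052739223705400834745783921636862316726827196440363632759949412021525544960 (by decide +kernel)
                  (CovZ.n1 (-13452, 28140) (by decide +kernel)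
                   (CovZ.n2 (-13452, 28128) (by decide +kernel)
                    (CovZ.n2 (-13458, 28134) (by decide +kernel)
                     (CovZ.badM (by decide +kernel))
                     (CovZ.n1 (-13458, 28128) (by decide +kernel)
                      (CovZ.n2 (-13461, 28131) (by decide +kernel)
                       (CovZ.leaf K2_ok TB_l51459 _)
                       (CovZ.leaf K2_ok TB_l51460 _))
                      (CovZ.leaf K2_ok TB_l51461 _)))
                    (CovZ.badM (by decide +kernel)))
                   (CovZ.n1 (-13464, 28140) (by decide +kernel)
                    (CovZ.n2 (-13458, 28146) (by decide +kernel)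
                     (CovZ.n2 (-13458, 28140) (by decide +kernel)
                      (CovZ.leaf K2_ok TB_l51462 _)
                      (CovZ.badM (by decide +kernel)))
                     (CovZ.n1 (-13464, 28146) (by decide +kernel)
                      (CovZ.badM (by decide +kernel))
                      (CovZ.n1 (-13461, 28143) (by decide +kernel)
                       (CovZ.leaf K2_ok TB_l51463 _)
                       (CovZ.badM (by decide +kernel)))))
                    (CovZ.n1 (-13458, 28134) (by decide +kernel)
                     (CovZ.leaf K2_ok TB_l51464 _)
                     (CovZ.n1 (-13458, 28140) (by decide +kernel)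
                      (CovZ.badM (by decide +kernel))
                      (CovZ.leaf K2_ok TB_l51465 _)))))))
                (CovZ.n1 (-13488, 28152) (by decide +kernel)
                 (CovZ.n2 (-13476, 28164) (by decide +kernel)
                  (CovZ.n2 (-13476, 28152) (by decide +kernel)
                   (CovZ.n2 (-13482, 28158) (by decide +kernel)
                    (CovZ.n2 (-13476, 28158) (by decide +kernel)
                     (CovZ.leaf K2_ok TB_l51466 _)
                     (CovZ.leaf K2_ok TB_l51467 _))
                    (CovZ.leaf K2_ok TB_l51468 _))
                   (CovZ.n1 (-13470, 28158) (by decide +kernel)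
                    (CovZ.n2 (-13470, 28152) (by decide +kernel)
                     (CovZ.leaf K2_ok TB_l51469 _)
                     (CovZ.n1 (-13467, 28155) (by decide +kernel)
                      (CovZ.leaf K2_ok TB_l51470 _)
                      (CovZ.leaf K2_ok TB_l51471 _)))
                    (CovZ.leaf K2_ok TB_l51472 _)))
                  (CovZ.n1 (-13488, 28164) (by decide +kernel)
                   (CovZ.n2 (-13482, 28170) (by decide +kernel)
                    (CovZ.n2 (-13482, 28164) (by decide +kernel)
                     (CovZ.leaf K2_ok TB_l51473 _)
                     (CovZ.leaf K2_ok TB_l51474 _))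
                    (CovZ.n1 (-13488, 28170) (by decide +kernel)
                     (CovZ.leaf K2_ok TB_l51475 _)
                     (CovZ.leaf K2_ok TB_l51476 _)))
                   (CovZ.n1 (-13482, 28158) (by decide +kernel)
                    (CovZ.leaf K2_ok TB_l51477 _)
                    (CovZ.n1 (-13482, 28164) (by decide +kernel)
                     (CovZ.leaf K2_ok TB_l51478 _)
                     (CovZ.leaf K2_ok TB_l51479 _)))))
                 (CovZ.n1 (-13476, 28140) (by decide +kernel)
                  (CovZ.n2 (-13488, 28140) (by decide +kernel)
                   (CovZ.n2 (-13482, 28146) (by decide +kernel)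
                    (CovZ.leaf K2_ok TB_l51480 _)
                    (CovZ.leaf K2_ok TB_l51481 _))
                   (CovZ.n1 (-13482, 28134) (by decide +kernel)
                    (CovZ.leaf K2_ok TB_l51482 _)
                    (CovZ.leaf K2_ok TB_l51483 _)))
                  (CovZ.n1 (-13476, 28152) (by decide +kernel)
                   (CovZ.n2 (-13470, 28146) (by decide +kernel)
                    (CovZ.n2 (-13476, 28146) (by decide +kernel)
                     (CovZ.n2 (-13473, 28149) (by decide +kernel)
                      (CovZ.leaf K2_ok TB_l51484 _)
                      (CovZ.leaf K2_ok TB_l51485 _))
                     (CovZ.leaf K2_ok TB_l51486 _))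
                    (CovZ.n1 (-13470, 28152) (by decide +kernel)
                     (CovZ.leaf K2_ok TB_l51487 _)
                     (CovZ.leaf K2_ok TB_l51488 _)))
                   (CovZ.n1 (-13482, 28146) (by decide +kernel)
                    (CovZ.n2 (-13482, 28152) (by decide +kernel)
                     (CovZ.leaf K2_ok TB_l51489 _)
                     (CovZ.leaf K2_ok TB_l51490 _))
                    (CovZ.leaf K2_ok TB_l51491 _))))))))))

theorem TB_u508 : CovZ TB_M (toL (selN TB_LN 128260757467311985911717156723836415670207493909184150855392780291383549759222877161565251973072959899406537912317986831045792228348951177568714752)) [0, 7, 6, 1] (-13440, 28224) (-13488, 28272) (-13536, 28224) :=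
    (CovZ.n2 (-13488, 28224) (by decide +kernel)
               (CovZ.n2 (-13512, 28248) (by decide +kernel)
                (CovZ.n2 (-13488, 28248) (by decide +kernel)
                 (CovZ.n2 (-13500, 28236) (by decide +kernel)
                  (CovZ.subM 103237226620454310658779971605672508206112064139129419407869790921664949766360228857152213954722308651946529991273372787290465500435284314365624320 (by decide +kernel)
                   (CovZ.n2 (-13500, 28248) (by decide +kernel)
                    (CovZ.badM (by decide +kernel))
                    (CovZ.n1 (-13506, 28242) (by decide +kernel)
                     (CovZ.n2 (-13506, 28248) (by decide +kernel)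
                      (CovZ.leaf K2_ok TB_l51590 _)
                      (CovZ.n1 (-13509, 28245) (by decide +kernel)
                       (CovZ.leaf K2_ok TB_l51591 _)
                       (CovZ.leaf K2_ok TB_l51592 _)))
                     (CovZ.n1 (-13500, 28242) (by decide +kernel)
                      (CovZ.n2 (-13503, 28239) (by decide +kernel)
                       (CovZ.leaf K2_ok TB_l51593 _)
                       (CovZ.badM (by decide +kernel)))
                      (CovZ.n1 (-13503, 28245) (by decide +kernel)
                       (CovZ.badM (by decide +kernel))
                       (CovZ.n1 (-13503, 28242) (by decide +kernel)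
                        (CovZ.leaf K2_ok TB_l51594 _)
                        (CovZ.badM (by decide +kernel))))))))
                  (CovZ.badM (by decide +kernel)))
                 (CovZ.subM 3121748550321670658915156658625582897997723178089608973989526631971320881000864364558692024339477838743528208977350080095496930194394024381513728 (by decide +kernel)
                  (CovZ.n1 (-13500, 28260) (by decide +kernel)
                   (CovZ.badM (by decide +kernel))
                   (CovZ.n1 (-13500, 28248) (by decide +kernel)
                    (CovZ.n2 (-13506, 28254) (by decide +kernel)
                     (CovZ.badM (by decide +kernel))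
                     (CovZ.n1 (-13506, 28248) (by decide +kernel)
                      (CovZ.leaf K2_ok TB_l51595 _)
                      (CovZ.badM (by decide +kernel))))
                    (CovZ.badM (by decide +kernel))))))
                (CovZ.n1 (-13512, 28224) (by decide +kernel)
                 (CovZ.n2 (-13524, 28236) (by decide +kernel)
                  (CovZ.n2 (-13512, 28236) (by decide +kernel)
                   (CovZ.n2 (-13518, 28230) (by decide +kernel)
                    (CovZ.leaf K2_ok TB_l51596 _)
                    (CovZ.leaf K2_ok TB_l51597 _))
                   (CovZ.n1 (-13518, 28242) (by decide +kernel)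
                    (CovZ.n2 (-13512, 28242) (by decide +kernel)
                     (CovZ.leaf K2_ok TB_l51598 _)
                     (CovZ.n1 (-13515, 28245) (by decide +kernel)
                      (CovZ.leaf K2_ok TB_l51599 _)
                      (CovZ.leaf K2_ok TB_l51600 _)))
                    (CovZ.n1 (-13518, 28236) (by decide +kernel)
                     (CovZ.leaf K2_ok TB_l51601 _)
                     (CovZ.leaf K2_ok TB_l51602 _))))
                  (CovZ.n1 (-13524, 28224) (by decide +kernel)
                   (CovZ.n2 (-13530, 28230) (by decide +kernel)
                    (CovZ.leaf K2_ok TB_l51603 _)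
                    (CovZ.n1 (-13530, 28224) (by decide +kernel)
                     (CovZ.leaf K2_ok TB_l51604 _)
                     (CovZ.leaf K2_ok TB_l51605 _)))
                   (CovZ.n1 (-13518, 28230) (by decide +kernel)
                    (CovZ.n2 (-13518, 28224) (by decide +kernel)
                     (CovZ.leaf K2_ok TB_l51606 _)
                     (CovZ.leaf K2_ok TB_l51607 _))
                    (CovZ.leaf K2_ok TB_l51608 _))))
                 (CovZ.n1 (-13500, 28236) (by decide +kernel)
                  (CovZ.n2 (-13500, 28224) (by decide +kernel)
                   (CovZ.n2 (-13506, 28230) (by decide +kernel)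
                    (CovZ.n2 (-13500, 28230) (by decide +kernel)
                     (CovZ.leaf K2_ok TB_l51609 _)
                     (CovZ.leaf K2_ok TB_l51610 _))
                    (CovZ.n1 (-13506, 28224) (by decide +kernel)
                     (CovZ.leaf K2_ok TB_l51611 _)
                     (CovZ.leaf K2_ok TB_l51612 _)))
                   (CovZ.subM 5678427533559428832416592249125035424637823130369672345949142181098744438385921275985867583701277855943457200048954515105739075223552 (by decide +kernel)
                    (CovZ.n1 (-13494, 28230) (by decide +kernel)
                     (CovZ.n2 (-13494, 28224) (by decide +kernel)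
                      (CovZ.n2 (-13497, 28227) (by decide +kernel)
                       (CovZ.badM (by decide +kernel))
                       (CovZ.leaf K2_ok TB_l51613 _))
                      (CovZ.badM (by decide +kernel)))
                     (CovZ.n1 (-13500, 28230) (by decide +kernel)
                      (CovZ.badM (by decide +kernel))
                      (CovZ.leaf K2_ok TB_l51614 _)))))
                  (CovZ.n1 (-13512, 28236) (by decide +kernel)
                   (CovZ.n2 (-13506, 28242) (by decide +kernel)
                    (CovZ.n2 (-13506, 28236) (by decide +kernel)
                     (CovZ.leaf K2_ok TB_l51615 _)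
                     (CovZ.n1 (-13503, 28239) (by decide +kernel)
                      (CovZ.leaf K2_ok TB_l51616 _)
                      (CovZ.leaf K2_ok TB_l51617 _)))
                    (CovZ.n1 (-13512, 28242) (by decide +kernel)
                     (CovZ.leaf K2_ok TB_l51618 _)
                     (CovZ.leaf K2_ok TB_l51619 _)))
                   (CovZ.n1 (-13506, 28230) (by decide +kernel)
                    (CovZ.leaf K2_ok TB_l51620 _)
                    (CovZ.n1 (-13506, 28236) (by decide +kernel)
                     (CovZ.leaf K2_ok TB_l51621 _)
                     (CovZ.leaf K2_ok TB_l51622 _)))))))
               (CovZ.badM (by decide +kernel)))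

theorem TB_u509 : CovZ TB_M (toL (selN TB_LN 128260757467311985911717156723836415670207493909184150855392780291383549759222877161565251973072959899406537912317986831045792228348951177568714752)) [0, 7, 6, 1] (-13488, 28272) (-13536, 28320) (-13536, 28224) :=
    (CovZ.n1 (-13536, 28272) (by decide +kernel)
               (CovZ.subM 28144514273942972362770559989156041012280275444677920395910235068644113904183268090424533830511543919211796005757428050616776215390777555906723840 (by decide +kernel)
                (CovZ.n2 (-13512, 28296) (by decide +kernel)
                 (CovZ.n2 (-13512, 28272) (by decide +kernel)
                  (CovZ.n2 (-13524, 28284) (by decide +kernel)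
                   (CovZ.badM (by decide +kernel))
                   (CovZ.n1 (-13524, 28272) (by decide +kernel)
                    (CovZ.n2 (-13530, 28278) (by decide +kernel)
                     (CovZ.n2 (-13524, 28278) (by decide +kernel)
                      (CovZ.n2 (-13527, 28275) (by decide +kernel)
                       (CovZ.leaf K2_ok TB_l51623 _)
                       (CovZ.leaf K2_ok TB_l51624 _))
                      (CovZ.n1 (-13527, 28281) (by decide +kernel)
                       (CovZ.badM (by decide +kernel))
                       (CovZ.leaf K2_ok TB_l51625 _)))
                     (CovZ.leaf K2_ok TB_l51626 _))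
                    (CovZ.n1 (-13518, 28278) (by decide +kernel)
                     (CovZ.n2 (-13518, 28272) (by decide +kernel)
                      (CovZ.n2 (-13521, 28275) (by decide +kernel)
                       (CovZ.badM (by decide +kernel))
                       (CovZ.leaf K2_ok TB_l51627 _))
                      (CovZ.badM (by decide +kernel)))
                     (CovZ.leaf K2_ok TB_l51628 _))))
                  (CovZ.badM (by decide +kernel)))
                 (CovZ.n1 (-13536, 28296) (by decide +kernel)
                  (CovZ.badM (by decide +kernel))
                  (CovZ.n1 (-13524, 28284) (by decide +kernel)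
                   (CovZ.n2 (-13536, 28284) (by decide +kernel)
                    (CovZ.n2 (-13530, 28290) (by decide +kernel)
                     (CovZ.n2 (-13530, 28284) (by decide +kernel)
                      (CovZ.n2 (-13533, 28287) (by decide +kernel)
                       (CovZ.leaf K2_ok TB_l51629 _)
                       (CovZ.leaf K2_ok TB_l51630 _))
                      (CovZ.n1 (-13527, 28287) (by decide +kernel)
                       (CovZ.leaf K2_ok TB_l51631 _)
                       (CovZ.leaf K2_ok TB_l51632 _)))
                     (CovZ.n1 (-13536, 28290) (by decide +kernel)
                      (CovZ.n2 (-13533, 28293) (by decide +kernel)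
                       (CovZ.n2 (-13533, 28290) (by decide +kernel)
                        (CovZ.leaf K2_ok TB_l51633 _)
                        (CovZ.leaf K2_ok TB_l51634 _))
                       (CovZ.leaf K2_ok TB_l51635 _))
                      (CovZ.n1 (-13533, 28287) (by decide +kernel)
                       (CovZ.leaf K2_ok TB_l51636 _)
                       (CovZ.n1 (-13533, 28290) (by decide +kernel)
                        (CovZ.leaf K2_ok TB_l51637 _)
                        (CovZ.leaf K2_ok TB_l51638 _)))))
                    (CovZ.n1 (-13530, 28278) (by decide +kernel)
                     (CovZ.leaf K2_ok TB_l51639 _)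
                     (CovZ.n1 (-13530, 28284) (by decide +kernel)
                      (CovZ.n2 (-13527, 28281) (by decide +kernel)
                       (CovZ.leaf K2_ok TB_l51640 _)
                       (CovZ.leaf K2_ok TB_l51641 _))
                      (CovZ.leaf K2_ok TB_l51642 _))))
                   (CovZ.n1 (-13524, 28296) (by decide +kernel)
                    (CovZ.badM (by decide +kernel))
                    (CovZ.n1 (-13530, 28290) (by decide +kernel)
                     (CovZ.n2 (-13530, 28296) (by decide +kernel)
                      (CovZ.badM (by decide +kernel))
                      (CovZ.n1 (-13533, 28293) (by decide +kernel)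
                       (CovZ.leaf K2_ok TB_l51643 _)
                       (CovZ.badM (by decide +kernel))))
                     (CovZ.badM (by decide +kernel))))))))
               (CovZ.n1 (-13512, 28248) (by decide +kernel)
                (CovZ.n2 (-13536, 28248) (by decide +kernel)
                 (CovZ.n2 (-13524, 28260) (by decide +kernel)
                  (CovZ.n2 (-13524, 28248) (by decide +kernel)
                   (CovZ.n2 (-13530, 28254) (by decide +kernel)
                    (CovZ.n2 (-13524, 28254) (by decide +kernel)
                     (CovZ.leaf K2_ok TB_l51644 _)
                     (CovZ.leaf K2_ok TB_l51645 _))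
                    (CovZ.leaf K2_ok TB_l51646 _))
                   (CovZ.subM 28290874520083741381051772106515170761368129617691281078784168075963102772515363324214676969470758390707711719696526151939096020963064749693599744 (by decide +kernel)
                    (CovZ.n1 (-13518, 28254) (by decide +kernel)
                     (CovZ.n2 (-13518, 28248) (by decide +kernel)
                      (CovZ.n2 (-13521, 28251) (by decide +kernel)
                       (CovZ.leaf K2_ok TB_l51647 _)
                       (CovZ.leaf K2_ok TB_l51648 _))
                      (CovZ.n1 (-13515, 28251) (by decide +kernel)
                       (CovZ.leaf K2_ok TB_l51649 _)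
                       (CovZ.leaf K2_ok TB_l51650 _)))
                     (CovZ.n1 (-13524, 28254) (by decide +kernel)
                      (CovZ.n2 (-13521, 28257) (by decide +kernel)
                       (CovZ.leaf K2_ok TB_l51651 _)
                       (CovZ.leaf K2_ok TB_l51652 _))
                      (CovZ.leaf K2_ok TB_l51653 _)))))
                  (CovZ.n1 (-13536, 28260) (by decide +kernel)
                   (CovZ.subM 28339623558340649816428901396509828711768017924985309970390529240924079664296632481783095702610942380382131160346986809666516956042584470449029120 (by decide +kernel)
                    (CovZ.n2 (-13530, 28266) (by decide +kernel)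
                     (CovZ.n2 (-13530, 28260) (by decide +kernel)
                      (CovZ.leaf K2_ok TB_l51654 _)
                      (CovZ.n1 (-13527, 28263) (by decide +kernel)
                       (CovZ.leaf K2_ok TB_l51655 _)
                       (CovZ.leaf K2_ok TB_l51656 _)))
                     (CovZ.leaf K2_ok TB_l51657 _)))
                   (CovZ.n1 (-13530, 28254) (by decide +kernel)
                    (CovZ.leaf K2_ok TB_l51658 _)
                    (CovZ.n1 (-13530, 28260) (by decide +kernel)
                     (CovZ.leaf K2_ok TB_l51659 _)
                     (CovZ.leaf K2_ok TB_l51660 _)))))
                 (CovZ.n1 (-13524, 28236) (by decide +kernel)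
                  (CovZ.n2 (-13536, 28236) (by decide +kernel)
                   (CovZ.n2 (-13530, 28242) (by decide +kernel)
                    (CovZ.n2 (-13530, 28236) (by decide +kernel)
                     (CovZ.leaf K2_ok TB_l51661 _)
                     (CovZ.leaf K2_ok TB_l51662 _))
                    (CovZ.leaf K2_ok TB_l51663 _))
                   (CovZ.n1 (-13530, 28230) (by decide +kernel)
                    (CovZ.leaf K2_ok TB_l51664 _)
                    (CovZ.leaf K2_ok TB_l51665 _)))
                  (CovZ.n1 (-13524, 28248) (by decide +kernel)
                   (CovZ.n2 (-13518, 28242) (by decide +kernel)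
                    (CovZ.n2 (-13524, 28242) (by decide +kernel)
                     (CovZ.n2 (-13521, 28245) (by decide +kernel)
                      (CovZ.leaf K2_ok TB_l51666 _)
                      (CovZ.leaf K2_ok TB_l51667 _))
                     (CovZ.n1 (-13521, 28239) (by decide +kernel)
                      (CovZ.leaf K2_ok TB_l51668 _)
                      (CovZ.leaf K2_ok TB_l51669 _)))
                    (CovZ.n1 (-13518, 28248) (by decide +kernel)
                     (CovZ.leaf K2_ok TB_l51670 _)
                     (CovZ.leaf K2_ok TB_l51671 _)))
                   (CovZ.n1 (-13530, 28242) (by decide +kernel)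
                    (CovZ.leaf K2_ok TB_l51672 _)
                    (CovZ.leaf K2_ok TB_l51673 _)))))
                (CovZ.subM 28144514273948650790304119417988457604529400480102558219040604740990063046364366834862919751787529786795497283613371507816825169905883294981947392 (by decide +kernel)
                 (CovZ.n1 (-13512, 28272) (by decide +kernel)
                  (CovZ.n2 (-13500, 28260) (by decide +kernel)
                   (CovZ.n2 (-13512, 28260) (by decide +kernel)
                    (CovZ.badM (by decide +kernel))
                    (CovZ.n1 (-13506, 28254) (by decide +kernel)
                     (CovZ.n2 (-13512, 28254) (by decide +kernel)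
                      (CovZ.badM (by decide +kernel))
                      (CovZ.n1 (-13509, 28251) (by decide +kernel)
                       (CovZ.leaf K2_ok TB_l51674 _)
                       (CovZ.badM (by decide +kernel))))
                     (CovZ.badM (by decide +kernel))))
                   (CovZ.badM (by decide +kernel)))
                  (CovZ.n1 (-13524, 28260) (by decide +kernel)
                   (CovZ.n2 (-13524, 28272) (by decide +kernel)
                    (CovZ.n2 (-13518, 28266) (by decide +kernel)
                     (CovZ.leaf K2_ok TB_l51675 _)
                     (CovZ.n1 (-13518, 28272) (by decide +kernel)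
                      (CovZ.badM (by decide +kernel))
                      (CovZ.leaf K2_ok TB_l51676 _)))
                    (CovZ.n1 (-13530, 28266) (by decide +kernel)
                     (CovZ.n2 (-13530, 28272) (by decide +kernel)
                      (CovZ.leaf K2_ok TB_l51677 _)
                      (CovZ.leaf K2_ok TB_l51678 _))
                     (CovZ.n1 (-13524, 28266) (by decide +kernel)
                      (CovZ.leaf K2_ok TB_l51679 _)
                      (CovZ.leaf K2_ok TB_l51680 _))))
                   (CovZ.n1 (-13512, 28260) (by decide +kernel)
                    (CovZ.n2 (-13518, 28254) (by decide +kernel)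
                     (CovZ.n2 (-13518, 28260) (by decide +kernel)
                      (CovZ.n2 (-13515, 28257) (by decide +kernel)
                       (CovZ.n2 (-13518, 28257) (by decide +kernel)
                        (CovZ.leaf K2_ok TB_l51681 _)
                        (CovZ.leaf K2_ok TB_l51682 _))
                       (CovZ.leaf K2_ok TB_l51683 _))
                      (CovZ.n1 (-13521, 28257) (by decide +kernel)
                       (CovZ.n2 (-13521, 28260) (by decide +kernel)
                        (CovZ.leaf K2_ok TB_l51684 _)
                        (CovZ.leaf K2_ok TB_l51685 _))
                       (CovZ.leaf K2_ok TB_l51686 _)))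
                     (CovZ.n1 (-13512, 28254) (by decide +kernel)
                      (CovZ.n2 (-13515, 28251) (by decide +kernel)
                       (CovZ.leaf K2_ok TB_l51687 _)
                       (CovZ.leaf K2_ok TB_l51688 _))
                      (CovZ.n1 (-13515, 28257) (by decide +kernel)
                       (CovZ.badM (by decide +kernel))
                       (CovZ.n1 (-13515, 28254) (by decide +kernel)
                        (CovZ.leaf K2_ok TB_l51689 _)
                        (CovZ.leaf K2_ok TB_l51690 _)))))
                    (CovZ.n1 (-13518, 28266) (by decide +kernel)
                     (CovZ.badM (by decide +kernel))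
                     (CovZ.n1 (-13518, 28260) (by decide +kernel)
                      (CovZ.n2 (-13521, 28263) (by decide +kernel)
                       (CovZ.n2 (-13518, 28263) (by decide +kernel)
                        (CovZ.leaf K2_ok TB_l51691 _)
                        (CovZ.leaf K2_ok TB_l51692 _))
                       (CovZ.leaf K2_ok TB_l51693 _))
                      (CovZ.leaf K2_ok TB_l51694 _)))))))))

theorem TB_u510 : CovZ TB_M (toL (selN TB_LN 141644767596008273950770124915702303605627625470977742007484312835887669424014990394479044266627105220328888947805369703037820713423471354692241408)) [0, 7, 6, 1] (-13824, 28416) (-13632, 28224) (-13440, 28416) :=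
    (CovZ.subM 129041623384534242954107357140920936767543402817967704296210449147149668757485598919964868122300137250014763964598947725914116001672008410972817408 (by decide +kernel)
         (CovZ.n2 (-13632, 28416) (by decide +kernel)
          (CovZ.n2 (-13536, 28320) (by decide +kernel)
           (CovZ.n2 (-13632, 28320) (by decide +kernel)
            TB_u498
            TB_u499)
           (CovZ.subM 24974369475387528182910160038995745448299471489714806477587263879532489549984787218855678195214311551502850460492797458383312195229085738674946048 (by decide +kernel)
            (CovZ.n1 (-13536, 28416) (by decide +kernel)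
             (CovZ.badM (by decide +kernel))
             (CovZ.n1 (-13584, 28368) (by decide +kernel)
              (CovZ.n2 (-13584, 28416) (by decide +kernel)
               (CovZ.subM 2839213766779714416208296124562517712318911565184836172974571090549372219192960637992933791850638927971728600024477257552869537611776 (by decide +kernel)
                (CovZ.n2 (-13560, 28392) (by decide +kernel)
                 (CovZ.n2 (-13584, 28392) (by decide +kernel)
                  (CovZ.badM (by decide +kernel))
                  (CovZ.n1 (-13572, 28380) (by decide +kernel)
                   (CovZ.n2 (-13584, 28380) (by decide +kernel)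
                    (CovZ.badM (by decide +kernel))
                    (CovZ.n1 (-13578, 28374) (by decide +kernel)
                     (CovZ.leaf K2_ok TB_l50906 _)
                     (CovZ.badM (by decide +kernel))))
                   (CovZ.badM (by decide +kernel))))
                 (CovZ.badM (by decide +kernel))))
               (CovZ.n1 (-13608, 28392) (by decide +kernel)
                (CovZ.n2 (-13608, 28416) (by decide +kernel)
                 (CovZ.subM 24974369475351860559964989876642128728234654860953800151049629375109496500659760730352066627199525320742726808960152617845504699681077815108698112 (by decide +kernel)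
                  (CovZ.n2 (-13596, 28404) (by decide +kernel)
                   (CovZ.n2 (-13608, 28404) (by decide +kernel)
                    (CovZ.n2 (-13602, 28410) (by decide +kernel)
                     (CovZ.leaf K2_ok TB_l50907 _)
                     (CovZ.leaf K2_ok TB_l50908 _))
                    (CovZ.n1 (-13602, 28398) (by decide +kernel)
                     (CovZ.leaf K2_ok TB_l50909 _)
                     (CovZ.n1 (-13602, 28404) (by decide +kernel)
                      (CovZ.leaf K2_ok TB_l50910 _)
                      (CovZ.leaf K2_ok TB_l50911 _))))
                   (CovZ.n1 (-13596, 28416) (by decide +kernel)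
                    (CovZ.badM (by decide +kernel))
                    (CovZ.n1 (-13602, 28410) (by decide +kernel)
                     (CovZ.n2 (-13602, 28416) (by decide +kernel)
                      (CovZ.leaf K2_ok TB_l50912 _)
                      (CovZ.n1 (-13605, 28413) (by decide +kernel)
                       (CovZ.leaf K2_ok TB_l50913 _)
                       (CovZ.leaf K2_ok TB_l50914 _)))
                     (CovZ.leaf K2_ok TB_l50915 _)))))
                 (CovZ.n1 (-13620, 28404) (by decide +kernel)
                  (CovZ.n2 (-13620, 28416) (by decide +kernel)
                   (CovZ.n2 (-13614, 28410) (by decide +kernel)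
                    (CovZ.leaf K2_ok TB_l50916 _)
                    (CovZ.n1 (-13614, 28416) (by decide +kernel)
                     (CovZ.leaf K2_ok TB_l50917 _)
                     (CovZ.leaf K2_ok TB_l50918 _)))
                   (CovZ.leaf K2_ok TB_l50919 _))
                  (CovZ.subM 24974369475351860559964989876642128728234654860953800151049629375109496500659760730352066627199525320742726808960152617845504699681077815108698112 (by decide +kernel)
                   (CovZ.n1 (-13608, 28404) (by decide +kernel)
                    (CovZ.n2 (-13614, 28398) (by decide +kernel)
                     (CovZ.leaf K2_ok TB_l50920 _)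
                     (CovZ.leaf K2_ok TB_l50921 _))
                    (CovZ.n1 (-13614, 28410) (by decide +kernel)
                     (CovZ.n2 (-13608, 28410) (by decide +kernel)
                      (CovZ.leaf K2_ok TB_l50922 _)
                      (CovZ.leaf K2_ok TB_l50923 _))
                     (CovZ.n1 (-13614, 28404) (by decide +kernel)
                      (CovZ.leaf K2_ok TB_l50924 _)
                      (CovZ.leaf K2_ok TB_l50925 _)))))))
                (CovZ.subM 24974369475351860559964989876642128728234654860953800151049629375109496500659760730352066627199525320742726808960152617845504699681077815108698112 (by decide +kernel)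
                 (CovZ.n1 (-13584, 28392) (by decide +kernel)
                  (CovZ.n2 (-13596, 28380) (by decide +kernel)
                   (CovZ.n2 (-13596, 28392) (by decide +kernel)
                    (CovZ.n2 (-13590, 28386) (by decide +kernel)
                     (CovZ.leaf K2_ok TB_l50926 _)
                     (CovZ.n1 (-13590, 28392) (by decide +kernel)
                      (CovZ.badM (by decide +kernel))
                      (CovZ.leaf K2_ok TB_l50927 _)))
                    (CovZ.n1 (-13602, 28386) (by decide +kernel)
                     (CovZ.n2 (-13602, 28392) (by decide +kernel)
                      (CovZ.leaf K2_ok TB_l50928 _)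
                      (CovZ.leaf K2_ok TB_l50929 _))
                     (CovZ.leaf K2_ok TB_l50930 _)))
                   (CovZ.n1 (-13584, 28380) (by decide +kernel)
                    (CovZ.n2 (-13590, 28374) (by decide +kernel)
                     (CovZ.n2 (-13590, 28380) (by decide +kernel)
                      (CovZ.leaf K2_ok TB_l50931 _)
                      (CovZ.leaf K2_ok TB_l50932 _))
                     (CovZ.leaf K2_ok TB_l50933 _))
                    (CovZ.n1 (-13590, 28386) (by decide +kernel)
                     (CovZ.badM (by decide +kernel))
                     (CovZ.n1 (-13590, 28380) (by decide +kernel)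
                      (CovZ.leaf K2_ok TB_l50934 _)
                      (CovZ.n1 (-13587, 28383) (by decide +kernel)
                       (CovZ.leaf K2_ok TB_l50935 _)
                       (CovZ.leaf K2_ok TB_l50936 _))))))
                  (CovZ.n1 (-13596, 28404) (by decide +kernel)
                   (CovZ.badM (by decide +kernel))
                   (CovZ.n1 (-13596, 28392) (by decide +kernel)
                    (CovZ.n2 (-13602, 28398) (by decide +kernel)
                     (CovZ.n2 (-13596, 28398) (by decide +kernel)
                      (CovZ.leaf K2_ok TB_l50937 _)
                      (CovZ.leaf K2_ok TB_l50938 _))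
                     (CovZ.n1 (-13602, 28392) (by decide +kernel)
                      (CovZ.leaf K2_ok TB_l50939 _)
                      (CovZ.leaf K2_ok TB_l50940 _)))
                    (CovZ.n1 (-13590, 28398) (by decide +kernel)
                     (CovZ.n2 (-13590, 28392) (by decide +kernel)
                      (CovZ.n2 (-13593, 28395) (by decide +kernel)
                       (CovZ.badM (by decide +kernel))
                       (CovZ.leaf K2_ok TB_l50941 _))
                      (CovZ.badM (by decide +kernel)))
                     (CovZ.n1 (-13596, 28398) (by decide +kernel)
                      (CovZ.badM (by decide +kernel))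
                      (CovZ.leaf K2_ok TB_l50942 _)))))))))
              (CovZ.subM 14373519694322304232054499130597745918614489798748233125683766145906196859664363229839227321243859572856876037623916116361402034159616 (by decide +kernel)
               (CovZ.n1 (-13536, 28368) (by decide +kernel)
                (CovZ.n2 (-13560, 28344) (by decide +kernel)
                 (CovZ.n2 (-13560, 28368) (by decide +kernel)
                  (CovZ.badM (by decide +kernel))
                  (CovZ.n1 (-13572, 28356) (by decide +kernel)
                   (CovZ.n2 (-13572, 28368) (by decide +kernel)
                    (CovZ.n2 (-13566, 28362) (by decide +kernel)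
                     (CovZ.leaf K2_ok TB_l50943 _)
                     (CovZ.n1 (-13566, 28368) (by decide +kernel)
                      (CovZ.badM (by decide +kernel))
                      (CovZ.leaf K2_ok TB_l50944 _)))
                    (CovZ.n1 (-13578, 28362) (by decide +kernel)
                     (CovZ.n2 (-13578, 28368) (by decide +kernel)
                      (CovZ.leaf K2_ok TB_l50945 _)
                      (CovZ.leaf K2_ok TB_l50946 _))
                     (CovZ.n1 (-13572, 28362) (by decide +kernel)
                      (CovZ.n2 (-13575, 28359) (by decide +kernel)
                       (CovZ.leaf K2_ok TB_l50947 _)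
                       (CovZ.leaf K2_ok TB_l50948 _))
                      (CovZ.leaf K2_ok TB_l50949 _))))
                   (CovZ.n1 (-13560, 28356) (by decide +kernel)
                    (CovZ.n2 (-13566, 28350) (by decide +kernel)
                     (CovZ.n2 (-13566, 28356) (by decide +kernel)
                      (CovZ.badM (by decide +kernel))
                      (CovZ.n1 (-13569, 28353) (by decide +kernel)
                       (CovZ.leaf K2_ok TB_l50950 _)
                       (CovZ.leaf K2_ok TB_l50951 _)))
                     (CovZ.badM (by decide +kernel)))
                    (CovZ.n1 (-13566, 28362) (by decide +kernel)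
                     (CovZ.badM (by decide +kernel))
                     (CovZ.n1 (-13566, 28356) (by decide +kernel)
                      (CovZ.leaf K2_ok TB_l50952 _)
                      (CovZ.badM (by decide +kernel)))))))
                 (CovZ.badM (by decide +kernel)))
                (CovZ.n1 (-13560, 28392) (by decide +kernel)
                 (CovZ.badM (by decide +kernel))
                 (CovZ.n1 (-13560, 28368) (by decide +kernel)
                  (CovZ.n2 (-13572, 28380) (by decide +kernel)
                   (CovZ.badM (by decide +kernel))
                   (CovZ.n1 (-13572, 28368) (by decide +kernel)
                    (CovZ.n2 (-13578, 28374) (by decide +kernel)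
                     (CovZ.badM (by decide +kernel))
                     (CovZ.n1 (-13578, 28368) (by decide +kernel)
                      (CovZ.leaf K2_ok TB_l50953 _)
                      (CovZ.badM (by decide +kernel))))
                    (CovZ.badM (by decide +kernel))))
                  (CovZ.badM (by decide +kernel))))))))))
          (CovZ.n1 (-13728, 28320) (by decide +kernel)
           TB_u500
           TB_u501)))

end Pool.Agent.TET
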