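import Pool.Agent.Helper38_TET.TB_M
import Pool.Agent.Helper38_TET.TB_L
import Pool.Agent.Helper38_TET.TB_242
import Pool.Agent.Helper38_TET.TB_243
import Pool.Agent.Helper38_TET.TB_244
import Pool.Agent.Helper38_TET.TB_316
import Pool.Agent.Helper38_TET.TB_317
import Pool.Agent.Helper38_TET.TB_318
import Pool.Agent.Helper38_TET.TB_319
import Pool.Agent.Helper38_TET.TB_320
import Pool.Agent.Helper38_TET.TB_322
import Pool.Agent.Helper38_TET.TB_337
import Pool.Agent.Helper38_TET.TB_338
import Pool.Agent.Helper38_TET.TB_339
import Pool.Agent.Helper38_TET.TB_344
import Pool.Agent.Helper38_TET.TB_345
import Pool.Agent.Helper38_TET.TB_U33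
import Pool.Agent.Helper38_TET.TB_U34

/-!
# MP_c7c9bf_co: certificates, family TB
-/

set_option autoImplicit false
set_option maxRecDepth 100000

namespace Pool.Agent.TET

theorem TB_u511 : CovZ TB_M (toL (selN TB_LN 141644767596008273950770124915702303605627625470977742007484312835887669424014990394479044266627105220328888947805369703037820713423471354692241408)) [0, 7, 6, 1] (-13632, 28224) (-13440, 28032) (-13440, 28416) :=
    (CovZ.subM 129151676206348118444871367650879172570838366443102270352129659609103644429328716076964552475509039263943690670165875792414281418271132714572709888 (by decide +kernel)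
         (CovZ.n1 (-13440, 28224) (by decide +kernel)
          (CovZ.n2 (-13536, 28128) (by decide +kernel)
           TB_u506
           TB_u507)
          (CovZ.n1 (-13536, 28320) (by decide +kernel)
           (CovZ.subM 73166725931284011060415504920635904250142551150758452100809337074008160162827790309367170399904280282428574018226116875056707983758759167000576 (by decide +kernel)
            (CovZ.n2 (-13440, 28320) (by decide +kernel)
             (CovZ.n2 (-13488, 28272) (by decide +kernel)
              (CovZ.n2 (-13488, 28320) (by decide +kernel)
               (CovZ.badM (by decide +kernel))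
               (CovZ.n1 (-13512, 28296) (by decide +kernel)
                (CovZ.badM (by decide +kernel))
                (CovZ.badM (by decide +kernel))))
              (CovZ.badM (by decide +kernel)))
             (CovZ.badM (by decide +kernel))))
           (CovZ.n1 (-13536, 28224) (by decide +kernel)
            (CovZ.n2 (-13584, 28272) (by decide +kernel)
             (CovZ.subM 128260757467323520217644699313652261873213529137390446433626343688336258954278233986205723375664806192935931132962871978483391667207759710065262592 (by decide +kernel)
              (CovZ.n2 (-13536, 28272) (by decide +kernel)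
               (CovZ.n2 (-13560, 28248) (by decide +kernel)
                (CovZ.n2 (-13560, 28272) (by decide +kernel)
                 (CovZ.n2 (-13548, 28260) (by decide +kernel)
                  (CovZ.n2 (-13560, 28260) (by decide +kernel)
                   (CovZ.n2 (-13554, 28266) (by decide +kernel)
                    (CovZ.leaf K2_ok TB_l51492 _)
                    (CovZ.leaf K2_ok TB_l51493 _))
                   (CovZ.n1 (-13554, 28254) (by decide +kernel)
                    (CovZ.leaf K2_ok TB_l51494 _)
                    (CovZ.leaf K2_ok TB_l51495 _)))
                  (CovZ.subM 28339628024492046091322391238148631755597879827728855883702265398075794804632318205570810320807627372441580194147396134569830540887636002675359744 (by decide +kernel)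
                   (CovZ.n1 (-13548, 28272) (by decide +kernel)
                    (CovZ.n2 (-13542, 28266) (by decide +kernel)
                     (CovZ.leaf K2_ok TB_l51496 _)
                     (CovZ.n1 (-13542, 28272) (by decide +kernel)
                      (CovZ.leaf K2_ok TB_l51497 _)
                      (CovZ.leaf K2_ok TB_l51498 _)))
                    (CovZ.n1 (-13554, 28266) (by decide +kernel)
                     (CovZ.leaf K2_ok TB_l51499 _)
                     (CovZ.leaf K2_ok TB_l51500 _)))))
                 (CovZ.n1 (-13572, 28260) (by decide +kernel)
                  (CovZ.n2 (-13572, 28272) (by decide +kernel)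
                   (CovZ.leaf K2_ok TB_l51501 _)
                   (CovZ.n1 (-13578, 28266) (by decide +kernel)
                    (CovZ.leaf K2_ok TB_l51502 _)
                    (CovZ.leaf K2_ok TB_l51503 _)))
                  (CovZ.n1 (-13560, 28260) (by decide +kernel)
                   (CovZ.leaf K2_ok TB_l51504 _)
                   (CovZ.leaf K2_ok TB_l51505 _))))
                (CovZ.n1 (-13536, 28248) (by decide +kernel)
                 (CovZ.n2 (-13548, 28236) (by decide +kernel)
                  (CovZ.n2 (-13548, 28248) (by decide +kernel)
                   (CovZ.n2 (-13542, 28242) (by decide +kernel)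
                    (CovZ.leaf K2_ok TB_l51506 _)
                    (CovZ.leaf K2_ok TB_l51507 _))
                   (CovZ.n1 (-13554, 28242) (by decide +kernel)
                    (CovZ.n2 (-13554, 28248) (by decide +kernel)
                     (CovZ.leaf K2_ok TB_l51508 _)
                     (CovZ.leaf K2_ok TB_l51509 _))
                    (CovZ.leaf K2_ok TB_l51510 _)))
                  (CovZ.n1 (-13536, 28236) (by decide +kernel)
                   (CovZ.n2 (-13542, 28230) (by decide +kernel)
                    (CovZ.leaf K2_ok TB_l51511 _)
                    (CovZ.leaf K2_ok TB_l51512 _))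
                   (CovZ.n1 (-13542, 28242) (by decide +kernel)
                    (CovZ.leaf K2_ok TB_l51513 _)
                    (CovZ.leaf K2_ok TB_l51514 _))))
                 (CovZ.n1 (-13548, 28260) (by decide +kernel)
                  (CovZ.n2 (-13536, 28260) (by decide +kernel)
                   (CovZ.n2 (-13542, 28254) (by decide +kernel)
                    (CovZ.n2 (-13542, 28260) (by decide +kernel)
                     (CovZ.leaf K2_ok TB_l51515 _)
                     (CovZ.leaf K2_ok TB_l51516 _))
                    (CovZ.leaf K2_ok TB_l51517 _))
                   (CovZ.n1 (-13542, 28266) (by decide +kernel)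
                    (CovZ.leaf K2_ok TB_l51518 _)
                    (CovZ.leaf K2_ok TB_l51519 _)))
                  (CovZ.n1 (-13548, 28248) (by decide +kernel)
                   (CovZ.leaf K2_ok TB_l51520 _)
                   (CovZ.n1 (-13542, 28254) (by decide +kernel)
                    (CovZ.leaf K2_ok TB_l51521 _)
                    (CovZ.leaf K2_ok TB_l51522 _))))))
               (CovZ.n1 (-13560, 28296) (by decide +kernel)
                (CovZ.subM 28144514273945811576537339703572249308404837962390239307475419904817088475273817462643726791149536853003646644685399779216800692648330425444335616 (by decide +kernel)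
                 (CovZ.n2 (-13536, 28296) (by decide +kernel)
                  (CovZ.n2 (-13548, 28284) (by decide +kernel)
                   (CovZ.n2 (-13548, 28296) (by decide +kernel)
                    (CovZ.n2 (-13542, 28290) (by decide +kernel)
                     (CovZ.leaf K2_ok TB_l51523 _)
                     (CovZ.leaf K2_ok TB_l51524 _))
                    (CovZ.n1 (-13554, 28290) (by decide +kernel)
                     (CovZ.leaf K2_ok TB_l51525 _)
                     (CovZ.leaf K2_ok TB_l51526 _)))
                   (CovZ.n1 (-13536, 28284) (by decide +kernel)
                    (CovZ.n2 (-13542, 28278) (by decide +kernel)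
                     (CovZ.n2 (-13542, 28284) (by decide +kernel)
                      (CovZ.leaf K2_ok TB_l51527 _)
                      (CovZ.leaf K2_ok TB_l51528 _))
                     (CovZ.leaf K2_ok TB_l51529 _))
                    (CovZ.n1 (-13542, 28290) (by decide +kernel)
                     (CovZ.n2 (-13536, 28290) (by decide +kernel)
                      (CovZ.n2 (-13539, 28287) (by decide +kernel)
                       (CovZ.leaf K2_ok TB_l51530 _)
                       (CovZ.leaf K2_ok TB_l51531 _))
                      (CovZ.n1 (-13539, 28293) (by decide +kernel)
                       (CovZ.leaf K2_ok TB_l51532 _)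
                       (CovZ.leaf K2_ok TB_l51533 _)))
                     (CovZ.n1 (-13542, 28284) (by decide +kernel)
                      (CovZ.leaf K2_ok TB_l51534 _)
                      (CovZ.leaf K2_ok TB_l51535 _)))))
                  (CovZ.n1 (-13548, 28308) (by decide +kernel)
                   (CovZ.badM (by decide +kernel))
                   (CovZ.n1 (-13548, 28296) (by decide +kernel)
                    (CovZ.n2 (-13554, 28302) (by decide +kernel)
                     (CovZ.n2 (-13548, 28302) (by decide +kernel)
                      (CovZ.leaf K2_ok TB_l51536 _)
                      (CovZ.n1 (-13551, 28305) (by decide +kernel)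
                       (CovZ.leaf K2_ok TB_l51537 _)
                       (CovZ.leaf K2_ok TB_l51538 _)))
                     (CovZ.n1 (-13554, 28296) (by decide +kernel)
                      (CovZ.leaf K2_ok TB_l51539 _)
                      (CovZ.n1 (-13551, 28299) (by decide +kernel)
                       (CovZ.leaf K2_ok TB_l51540 _)
                       (CovZ.leaf K2_ok TB_l51541 _))))
                    (CovZ.n1 (-13542, 28302) (by decide +kernel)
                     (CovZ.leaf K2_ok TB_l51542 _)
                     (CovZ.n1 (-13548, 28302) (by decide +kernel)
                      (CovZ.n2 (-13545, 28305) (by decide +kernel)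
                       (CovZ.leaf K2_ok TB_l51543 _)
                       (CovZ.leaf K2_ok TB_l51544 _))
                      (CovZ.leaf K2_ok TB_l51545 _)))))))
                (CovZ.n1 (-13560, 28272) (by decide +kernel)
                 (CovZ.n2 (-13572, 28284) (by decide +kernel)
                  (CovZ.subM 28339625047008746320296306692659498945393340076243317406337394851903903056198831273676688817657834417038527095128611521938032075021948963551969280 (by decide +kernel)
                   (CovZ.n2 (-13560, 28284) (by decide +kernel)
                    (CovZ.n2 (-13566, 28278) (by decide +kernel)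
                     (CovZ.leaf K2_ok TB_l51546 _)
                     (CovZ.leaf K2_ok TB_l51547 _))
                    (CovZ.n1 (-13566, 28290) (by decide +kernel)
                     (CovZ.leaf K2_ok TB_l51548 _)
                     (CovZ.leaf K2_ok TB_l51549 _))))
                  (CovZ.n1 (-13572, 28272) (by decide +kernel)
                   (CovZ.leaf K2_ok TB_l51550 _)
                   (CovZ.leaf K2_ok TB_l51551 _)))
                 (CovZ.subM 28339625046997212014368764102843652742387304848037021828103831454951193861143474449036217415065988123509133874483726374500432636163140431055421440 (by decide +kernel)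
                  (CovZ.n1 (-13548, 28284) (by decide +kernel)
                   (CovZ.n2 (-13548, 28272) (by decide +kernel)
                    (CovZ.n2 (-13554, 28278) (by decide +kernel)
                     (CovZ.leaf K2_ok TB_l51552 _)
                     (CovZ.leaf K2_ok TB_l51553 _))
                    (CovZ.n1 (-13542, 28278) (by decide +kernel)
                     (CovZ.leaf K2_ok TB_l51554 _)
                     (CovZ.leaf K2_ok TB_l51555 _)))
                   (CovZ.n1 (-13560, 28284) (by decide +kernel)
                    (CovZ.n2 (-13554, 28290) (by decide +kernel)
                     (CovZ.leaf K2_ok TB_l51556 _)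
                     (CovZ.leaf K2_ok TB_l51557 _))
                    (CovZ.n1 (-13554, 28278) (by decide +kernel)
                     (CovZ.leaf K2_ok TB_l51558 _)
                     (CovZ.n1 (-13554, 28284) (by decide +kernel)
                      (CovZ.leaf K2_ok TB_l51559 _)
                      (CovZ.leaf K2_ok TB_l51560 _))))))))))
             (CovZ.n1 (-13584, 28224) (by decide +kernel)
              (CovZ.n2 (-13608, 28248) (by decide +kernel)
               (CovZ.subM 129041623361251270459629978542820236120421457611266227784766348497059176954654119179763586634921966829143103635068618997775487229720805688148492288 (by decide +kernel)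
                (CovZ.n2 (-13584, 28248) (by decide +kernel)
                 (CovZ.n2 (-13596, 28236) (by decide +kernel)
                  (CovZ.n2 (-13596, 28248) (by decide +kernel)
                   (CovZ.leaf K2_ok TB_l51561 _)
                   (CovZ.leaf K2_ok TB_l51562 _))
                  (CovZ.leaf K2_ok TB_l51563 _))
                 (CovZ.n1 (-13596, 28260) (by decide +kernel)
                  (CovZ.n2 (-13584, 28260) (by decide +kernel)
                   (CovZ.leaf K2_ok TB_l51564 _)
                   (CovZ.leaf K2_ok TB_l51565 _))
                  (CovZ.n1 (-13596, 28248) (by decide +kernel)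
                   (CovZ.leaf K2_ok TB_l51566 _)
                   (CovZ.leaf K2_ok TB_l51567 _)))))
               (CovZ.n1 (-13608, 28224) (by decide +kernel)
                (CovZ.n2 (-13620, 28236) (by decide +kernel)
                 (CovZ.leaf K2_ok TB_l51568 _)
                 (CovZ.leaf K2_ok TB_l51569 _))
                (CovZ.n1 (-13596, 28236) (by decide +kernel)
                 (CovZ.n2 (-13596, 28224) (by decide +kernel)
                  (CovZ.leaf K2_ok TB_l51570 _)
                  (CovZ.leaf K2_ok TB_l51571 _))
                 (CovZ.leaf K2_ok TB_l51572 _))))
              (CovZ.subM 129041242288430186964484546218939646134300150409344515752155159635125628935643032782593161792868370211470842914007691091693590812731587025027727360 (by decide +kernel)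
               (CovZ.n1 (-13560, 28248) (by decide +kernel)
                (CovZ.n2 (-13560, 28224) (by decide +kernel)
                 (CovZ.n2 (-13572, 28236) (by decide +kernel)
                  (CovZ.n2 (-13560, 28236) (by decide +kernel)
                   (CovZ.leaf K2_ok TB_l51573 _)
                   (CovZ.leaf K2_ok TB_l51574 _))
                  (CovZ.n1 (-13572, 28224) (by decide +kernel)
                   (CovZ.leaf K2_ok TB_l51575 _)
                   (CovZ.n1 (-13566, 28230) (by decide +kernel)
                    (CovZ.leaf K2_ok TB_l51576 _)
                    (CovZ.leaf K2_ok TB_l51577 _))))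
                 (CovZ.n1 (-13548, 28236) (by decide +kernel)
                  (CovZ.n2 (-13548, 28224) (by decide +kernel)
                   (CovZ.leaf K2_ok TB_l51578 _)
                   (CovZ.n1 (-13542, 28230) (by decide +kernel)
                    (CovZ.leaf K2_ok TB_l51579 _)
                    (CovZ.leaf K2_ok TB_l51580 _)))
                  (CovZ.leaf K2_ok TB_l51581 _)))
                (CovZ.n1 (-13584, 28248) (by decide +kernel)
                 (CovZ.n2 (-13572, 28260) (by decide +kernel)
                  (CovZ.n2 (-13572, 28248) (by decide +kernel)
                   (CovZ.leaf K2_ok TB_l51582 _)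
                   (CovZ.leaf K2_ok TB_l51583 _))
                  (CovZ.n1 (-13584, 28260) (by decide +kernel)
                   (CovZ.n2 (-13578, 28266) (by decide +kernel)
                    (CovZ.leaf K2_ok TB_l51584 _)
                    (CovZ.leaf K2_ok TB_l51585 _))
                   (CovZ.leaf K2_ok TB_l51586 _)))
                 (CovZ.n1 (-13572, 28236) (by decide +kernel)
                  (CovZ.leaf K2_ok TB_l51587 _)
                  (CovZ.n1 (-13572, 28248) (by decide +kernel)
                   (CovZ.leaf K2_ok TB_l51588 _)
                   (CovZ.leaf K2_ok TB_l51589 _))))))))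
            (CovZ.subM 128260757467311985911717156723836415670207493909184150855392780291383549759222877161565251973072959899406537912317986831045792228348951177568714752 (by decide +kernel)
             (CovZ.n1 (-13488, 28272) (by decide +kernel)
              TB_u508
              TB_u509))))))

theorem TB_u512 : CovZ TB_M (toL (selN TB_LN 141644767596008273950770124915702303605627625470977742007484312835887669424014990394479044266627105220328888947805369703037820713423471354692241408)) [0, 7, 6, 1] (-13824, 29184) (-13824, 28416) (-13056, 28416) :=
    (CovZ.subM 29072431085626112098508649424987634925667197001065717130664338451432990639857488612667645340143080137577458768822115756336813030450472624832120832 (by decide +kernel)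
      (CovZ.n2 (-13440, 28800) (by decide +kernel)
       (CovZ.n2 (-13440, 28416) (by decide +kernel)
        (CovZ.n2 (-13632, 28608) (by decide +kernel)
         (CovZ.n2 (-13440, 28608) (by decide +kernel)
          (CovZ.n2 (-13536, 28512) (by decide +kernel)
           (CovZ.badM (by decide +kernel))
           (CovZ.badM (by decide +kernel)))
          (CovZ.badM (by decide +kernel)))
         (CovZ.n1 (-13632, 28416) (by decide +kernel)
          TB_u490
          TB_u491))
        (CovZ.badM (by decide +kernel)))
       (CovZ.n1 (-13824, 28800) (by decide +kernel)
        (CovZ.subM 24973988402527937851052777838345330445988785141319769206873255677002973910558124960962448824507935769278615448971252983163583805434306282450321408 (by decide +kernel)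
         (CovZ.n2 (-13632, 28992) (by decide +kernel)
          (CovZ.n2 (-13632, 28800) (by decide +kernel)
           (CovZ.n2 (-13728, 28896) (by decide +kernel)
            (CovZ.badM (by decide +kernel))
            (CovZ.n1 (-13728, 28800) (by decide +kernel)
             (CovZ.badM (by decide +kernel))
             (CovZ.badM (by decide +kernel))))
           (CovZ.badM (by decide +kernel)))
          (CovZ.n1 (-13824, 28992) (by decide +kernel)
           (CovZ.badM (by decide +kernel))
           (CovZ.n1 (-13728, 28896) (by decide +kernel)
            (CovZ.badM (by decide +kernel))
            (CovZ.badM (by decide +kernel))))))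
        (CovZ.n1 (-13632, 28608) (by decide +kernel)
         (CovZ.n2 (-13824, 28608) (by decide +kernel)
          (CovZ.subM 24973988402527937851052777838345330445988785141319769206873255677002973910558124960962448824507935769278615448971252983163583805434306282450321408 (by decide +kernel)
           (CovZ.n2 (-13728, 28704) (by decide +kernel)
            (CovZ.n2 (-13728, 28608) (by decide +kernel)
             (CovZ.badM (by decide +kernel))
             (CovZ.n1 (-13680, 28656) (by decide +kernel)
              (CovZ.n2 (-13680, 28608) (by decide +kernel)
               (CovZ.badM (by decide +kernel))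
               (CovZ.badM (by decide +kernel)))
              (CovZ.badM (by decide +kernel))))
            (CovZ.badM (by decide +kernel))))
          (CovZ.n1 (-13728, 28512) (by decide +kernel)
           (CovZ.n2 (-13824, 28512) (by decide +kernel)
            (CovZ.subM 23261678391226200211994570148540707617028842453559362765180660944871006591847926507076106556632284736872372420000542171130660121653280768 (by decide +kernel)
             (CovZ.n2 (-13776, 28560) (by decide +kernel)
              (CovZ.n2 (-13776, 28512) (by decide +kernel)
               (CovZ.n2 (-13800, 28536) (by decide +kernel)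
                (CovZ.n2 (-13776, 28536) (by decide +kernel)
                 (CovZ.n2 (-13788, 28524) (by decide +kernel)
                  (CovZ.leaf K2_ok TB_l50415 _)
                  (CovZ.leaf K2_ok TB_l50416 _))
                 (CovZ.n1 (-13788, 28548) (by decide +kernel)
                  (CovZ.leaf K2_ok TB_l50417 _)
                  (CovZ.leaf K2_ok TB_l50418 _)))
                (CovZ.n1 (-13800, 28512) (by decide +kernel)
                 (CovZ.leaf K2_ok TB_l50419 _)
                 (CovZ.n1 (-13788, 28524) (by decide +kernel)
                  (CovZ.leaf K2_ok TB_l50420 _)
                  (CovZ.leaf K2_ok TB_l50421 _))))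
               (CovZ.n1 (-13752, 28536) (by decide +kernel)
                (CovZ.n2 (-13752, 28512) (by decide +kernel)
                 (CovZ.n2 (-13764, 28524) (by decide +kernel)
                  (CovZ.leaf K2_ok TB_l50422 _)
                  (CovZ.leaf K2_ok TB_l50423 _))
                 (CovZ.n1 (-13740, 28524) (by decide +kernel)
                  (CovZ.n2 (-13740, 28512) (by decide +kernel)
                   (CovZ.leaf K2_ok TB_l50424 _)
                   (CovZ.leaf K2_ok TB_l50425 _))
                  (CovZ.leaf K2_ok TB_l50426 _)))
                (CovZ.n1 (-13776, 28536) (by decide +kernel)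
                 (CovZ.n2 (-13764, 28548) (by decide +kernel)
                  (CovZ.n2 (-13764, 28536) (by decide +kernel)
                   (CovZ.leaf K2_ok TB_l50427 _)
                   (CovZ.leaf K2_ok TB_l50428 _))
                  (CovZ.leaf K2_ok TB_l50429 _))
                 (CovZ.n1 (-13764, 28524) (by decide +kernel)
                  (CovZ.leaf K2_ok TB_l50430 _)
                  (CovZ.n1 (-13764, 28536) (by decide +kernel)
                   (CovZ.leaf K2_ok TB_l50431 _)
                   (CovZ.leaf K2_ok TB_l50432 _))))))
              (CovZ.n1 (-13824, 28560) (by decide +kernel)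
               (CovZ.badM (by decide +kernel))
               (CovZ.n1 (-13800, 28536) (by decide +kernel)
                (CovZ.n2 (-13824, 28536) (by decide +kernel)
                 (CovZ.leaf K2_ok TB_l50433 _)
                 (CovZ.leaf K2_ok TB_l50434 _))
                (CovZ.n1 (-13800, 28560) (by decide +kernel)
                 (CovZ.leaf K2_ok TB_l50435 _)
                 (CovZ.leaf K2_ok TB_l50436 _))))))
            (CovZ.n1 (-13776, 28464) (by decide +kernel)
             (CovZ.n2 (-13824, 28464) (by decide +kernel)
              (CovZ.subM 195109307680561222705177611394413559708776401500113898792131186421805826023500844424756934036240154143588670581626470502861654474437474109097984 (by decide +kernel)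
               (CovZ.n2 (-13800, 28488) (by decide +kernel)
                (CovZ.n2 (-13800, 28464) (by decide +kernel)
                 (CovZ.leaf K2_ok TB_l48258 _)
                 (CovZ.leaf K2_ok TB_l50437 _))
                (CovZ.n1 (-13824, 28488) (by decide +kernel)
                 (CovZ.leaf K2_ok TB_l48259 _)
                 (CovZ.leaf K2_ok TB_l48260 _))))
              (CovZ.n1 (-13800, 28440) (by decide +kernel)
               (CovZ.n2 (-13824, 28440) (by decide +kernel)
                (CovZ.leaf K2_ok TB_l48261 _)
                (CovZ.leaf K2_ok TB_l48262 _))
               (CovZ.n1 (-13800, 28464) (by decide +kernel)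
                (CovZ.leaf K2_ok TB_l50438 _)
                (CovZ.leaf K2_ok TB_l48263 _))))
             (CovZ.subM 23285811708243827784532340665599489017583553201863433876445220092347265493167237802594771905946099487386538556571896155976467557767972864 (by decide +kernel)
              (CovZ.n1 (-13776, 28512) (by decide +kernel)
               (CovZ.subM 23285811708243827784532340665599489017583553201863433872650944799140676255711066672499046493863015167760132113100750227819859512722980864 (by decide +kernel)
                (CovZ.n2 (-13752, 28488) (by decide +kernel)
                 (CovZ.n2 (-13776, 28488) (by decide +kernel)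
                  (CovZ.n2 (-13764, 28500) (by decide +kernel)
                   (CovZ.leaf K2_ok TB_l50439 _)
                   (CovZ.leaf K2_ok TB_l50440 _))
                  (CovZ.n1 (-13764, 28476) (by decide +kernel)
                   (CovZ.leaf K2_ok TB_l50441 _)
                   (CovZ.leaf K2_ok TB_l50442 _)))
                 (CovZ.n1 (-13752, 28512) (by decide +kernel)
                  (CovZ.n2 (-13740, 28500) (by decide +kernel)
                   (CovZ.leaf K2_ok TB_l50443 _)
                   (CovZ.leaf K2_ok TB_l50444 _))
                  (CovZ.n1 (-13764, 28500) (by decide +kernel)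
                   (CovZ.leaf K2_ok TB_l50445 _)
                   (CovZ.leaf K2_ok TB_l50446 _)))))
               (CovZ.n1 (-13800, 28488) (by decide +kernel)
                (CovZ.n2 (-13800, 28512) (by decide +kernel)
                 (CovZ.leaf K2_ok TB_l50447 _)
                 (CovZ.leaf K2_ok TB_l48264 _))
                (CovZ.n1 (-13776, 28488) (by decide +kernel)
                 (CovZ.leaf K2_ok TB_l50448 _)
                 (CovZ.leaf K2_ok TB_l50449 _)))))))
           (CovZ.subM 24973988425789616242278978050339900594529492758348611660432618442183634855429131552810375331584042325910900185843625403164125976564966404103602176 (by decide +kernel)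
            (CovZ.n1 (-13728, 28608) (by decide +kernel)
             (CovZ.n2 (-13680, 28560) (by decide +kernel)
              (CovZ.n2 (-13728, 28560) (by decide +kernel)
               (CovZ.n2 (-13704, 28584) (by decide +kernel)
                (CovZ.n2 (-13704, 28560) (by decide +kernel)
                 (CovZ.n2 (-13716, 28572) (by decide +kernel)
                  (CovZ.n2 (-13704, 28572) (by decide +kernel)
                   (CovZ.n2 (-13710, 28566) (by decide +kernel)
                    (CovZ.badM (by decide +kernel))
                    (CovZ.leaf K2_ok TB_l50450 _))
                   (CovZ.badM (by decide +kernel)))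
                  (CovZ.n1 (-13716, 28560) (by decide +kernel)
                   (CovZ.badM (by decide +kernel))
                   (CovZ.n1 (-13710, 28566) (by decide +kernel)
                    (CovZ.leaf K2_ok TB_l50451 _)
                    (CovZ.badM (by decide +kernel)))))
                 (CovZ.n1 (-13692, 28572) (by decide +kernel)
                  (CovZ.n2 (-13692, 28560) (by decide +kernel)
                   (CovZ.n2 (-13698, 28566) (by decide +kernel)
                    (CovZ.leaf K2_ok TB_l50452 _)
                    (CovZ.leaf K2_ok TB_l50453 _))
                   (CovZ.badM (by decide +kernel)))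
                  (CovZ.n1 (-13704, 28572) (by decide +kernel)
                   (CovZ.badM (by decide +kernel))
                   (CovZ.n1 (-13698, 28566) (by decide +kernel)
                    (CovZ.leaf K2_ok TB_l50454 _)
                    (CovZ.badM (by decide +kernel))))))
                (CovZ.badM (by decide +kernel)))
               (CovZ.n1 (-13704, 28536) (by decide +kernel)
                (CovZ.n2 (-13728, 28536) (by decide +kernel)
                 (CovZ.n2 (-13716, 28548) (by decide +kernel)
                  (CovZ.n2 (-13716, 28536) (by decide +kernel)
                   (CovZ.n2 (-13722, 28542) (by decide +kernel)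
                    (CovZ.leaf K2_ok TB_l50455 _)
                    (CovZ.n1 (-13722, 28536) (by decide +kernel)
                     (CovZ.n2 (-13725, 28539) (by decide +kernel)
                      (CovZ.leaf K2_ok TB_l50456 _)
                      (CovZ.leaf K2_ok TB_l50457 _))
                     (CovZ.leaf K2_ok TB_l50458 _)))
                   (CovZ.leaf K2_ok TB_l50459 _))
                  (CovZ.leaf K2_ok TB_l50460 _))
                 (CovZ.n1 (-13716, 28524) (by decide +kernel)
                  (CovZ.n2 (-13728, 28524) (by decide +kernel)
                   (CovZ.leaf K2_ok TB_l50461 _)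
                   (CovZ.leaf K2_ok TB_l50462 _))
                  (CovZ.n1 (-13716, 28536) (by decide +kernel)
                   (CovZ.leaf K2_ok TB_l50463 _)
                   (CovZ.leaf K2_ok TB_l50464 _))))
                (CovZ.n1 (-13704, 28560) (by decide +kernel)
                 (CovZ.n2 (-13692, 28548) (by decide +kernel)
                  (CovZ.leaf K2_ok TB_l50465 _)
                  (CovZ.n1 (-13692, 28560) (by decide +kernel)
                   (CovZ.badM (by decide +kernel))
                   (CovZ.n1 (-13698, 28554) (by decide +kernel)
                    (CovZ.leaf K2_ok TB_l50466 _)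
                    (CovZ.leaf K2_ok TB_l50467 _))))
                 (CovZ.n1 (-13716, 28548) (by decide +kernel)
                  (CovZ.n2 (-13716, 28560) (by decide +kernel)
                   (CovZ.leaf K2_ok TB_l50468 _)
                   (CovZ.leaf K2_ok TB_l50469 _))
                  (CovZ.n1 (-13704, 28548) (by decide +kernel)
                   (CovZ.leaf K2_ok TB_l50470 _)
                   (CovZ.leaf K2_ok TB_l50471 _))))))
              (CovZ.n1 (-13680, 28608) (by decide +kernel)
               (CovZ.badM (by decide +kernel))
               (CovZ.n1 (-13704, 28584) (by decide +kernel)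
                (CovZ.badM (by decide +kernel))
                (CovZ.n1 (-13680, 28584) (by decide +kernel)
                 (CovZ.n2 (-13692, 28572) (by decide +kernel)
                  (CovZ.badM (by decide +kernel))
                  (CovZ.badM (by decide +kernel)))
                 (CovZ.badM (by decide +kernel))))))
             (CovZ.n1 (-13776, 28560) (by decide +kernel)
              (CovZ.badM (by decide +kernel))
              (CovZ.n1 (-13728, 28560) (by decide +kernel)
               (CovZ.n2 (-13752, 28536) (by decide +kernel)
                (CovZ.n2 (-13752, 28560) (by decide +kernel)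
                 (CovZ.n2 (-13740, 28548) (by decide +kernel)
                  (CovZ.leaf K2_ok TB_l50472 _)
                  (CovZ.n1 (-13740, 28560) (by decide +kernel)
                   (CovZ.leaf K2_ok TB_l50473 _)
                   (CovZ.leaf K2_ok TB_l50474 _)))
                 (CovZ.n1 (-13764, 28548) (by decide +kernel)
                  (CovZ.leaf K2_ok TB_l50475 _)
                  (CovZ.leaf K2_ok TB_l50476 _)))
                (CovZ.n1 (-13728, 28536) (by decide +kernel)
                 (CovZ.n2 (-13740, 28524) (by decide +kernel)
                  (CovZ.n2 (-13740, 28536) (by decide +kernel)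
                   (CovZ.leaf K2_ok TB_l50477 _)
                   (CovZ.leaf K2_ok TB_l50478 _))
                  (CovZ.leaf K2_ok TB_l50479 _))
                 (CovZ.n1 (-13740, 28548) (by decide +kernel)
                  (CovZ.leaf K2_ok TB_l50480 _)
                  (CovZ.n1 (-13740, 28536) (by decide +kernel)
                   (CovZ.leaf K2_ok TB_l50481 _)
                   (CovZ.leaf K2_ok TB_l50482 _)))))
               (CovZ.badM (by decide +kernel))))))))
         (CovZ.subM 24973988402527937851052777838345330445988785141319769206873255677002973910558124960962448824507935769278615448971252983163583805434306282450321408 (by decide +kernel)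
          (CovZ.n1 (-13632, 28800) (by decide +kernel)
           (CovZ.badM (by decide +kernel))
           (CovZ.n1 (-13728, 28704) (by decide +kernel)
            (CovZ.n2 (-13728, 28800) (by decide +kernel)
             (CovZ.badM (by decide +kernel))
             (CovZ.badM (by decide +kernel)))
            (CovZ.badM (by decide +kernel)))))))))

theorem TB_u513 : CovZ TB_M (toL (selN TB_LN 141644767596008273950770124915702303605627625470977742007484312835887669424014990394479044266627105220328888947805369703037820713423471354692241408)) [0, 7, 6, 1] (-13824, 28416) (-13824, 27648) (-13056, 28416) :=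
    (CovZ.n1 (-13440, 28032) (by decide +kernel)
      (CovZ.n2 (-13824, 28032) (by decide +kernel)
       (CovZ.n2 (-13632, 28224) (by decide +kernel)
        TB_u494
        TB_u495)
       (CovZ.n1 (-13632, 27840) (by decide +kernel)
        TB_u496
        TB_u497))
      (CovZ.n1 (-13440, 28416) (by decide +kernel)
       (CovZ.subM 28108901841052123435849690483941259432910827826304466689305653653867878309947308604083315384836689339256083234604036868344917815678677725569089536 (by decide +kernel)
        (CovZ.n2 (-13248, 28224) (by decide +kernel)
         (CovZ.n2 (-13440, 28224) (by decide +kernel)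
          (CovZ.badM (by decide +kernel))
          (CovZ.n1 (-13344, 28128) (by decide +kernel)
           (CovZ.n2 (-13440, 28128) (by decide +kernel)
            (CovZ.n2 (-13392, 28176) (by decide +kernel)
             (CovZ.n2 (-13392, 28128) (by decide +kernel)
              (CovZ.badM (by decide +kernel))
              (CovZ.badM (by decide +kernel)))
             (CovZ.badM (by decide +kernel)))
            (CovZ.n1 (-13392, 28080) (by decide +kernel)
             (CovZ.n2 (-13440, 28080) (by decide +kernel)
              (CovZ.n2 (-13416, 28104) (by decide +kernel)
               (CovZ.n2 (-13416, 28080) (by decide +kernel)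
                (CovZ.n2 (-13428, 28092) (by decide +kernel)
                 (CovZ.badM (by decide +kernel))
                 (CovZ.n1 (-13428, 28080) (by decide +kernel)
                  (CovZ.n2 (-13434, 28086) (by decide +kernel)
                   (CovZ.badM (by decide +kernel))
                   (CovZ.n1 (-13434, 28080) (by decide +kernel)
                    (CovZ.n2 (-13437, 28083) (by decide +kernel)
                     (CovZ.leaf K2_ok TB_l50667 _)
                     (CovZ.leaf K2_ok TB_l50668 _))
                    (CovZ.leaf K2_ok TB_l50669 _)))
                  (CovZ.badM (by decide +kernel))))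
                (CovZ.badM (by decide +kernel)))
               (CovZ.n1 (-13440, 28104) (by decide +kernel)
                (CovZ.subM 12402742557508721824111624792957820557142585339345531655308784853512909275597112002131891244089562097567495605606264322019768813987222958112768 (by decide +kernel)
                 (CovZ.n2 (-13428, 28116) (by decide +kernel)
                  (CovZ.n2 (-13428, 28104) (by decide +kernel)
                   (CovZ.n2 (-13434, 28110) (by decide +kernel)
                    (CovZ.badM (by decide +kernel))
                    (CovZ.n1 (-13434, 28104) (by decide +kernel)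
                     (CovZ.n2 (-13437, 28107) (by decide +kernel)
                      (CovZ.badM (by decide +kernel))
                      (CovZ.leaf K2_ok TB_l50670 _))
                     (CovZ.badM (by decide +kernel))))
                   (CovZ.badM (by decide +kernel)))
                  (CovZ.n1 (-13440, 28116) (by decide +kernel)
                   (CovZ.subM 17874417907877564652388971083581807508824748342022525738442406978250281373284681730437690319152873604270271931341297847741482923250891620352 (by decide +kernel)
                    (CovZ.n2 (-13434, 28122) (by decide +kernel)
                     (CovZ.n2 (-13434, 28116) (by decide +kernel)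
                      (CovZ.n2 (-13437, 28119) (by decide +kernel)
                       (CovZ.badM (by decide +kernel))
                       (CovZ.n1 (-13437, 28116) (by decide +kernel)
                        (CovZ.leaf K2_ok TB_l50671 _)
                        (CovZ.badM (by decide +kernel))))
                      (CovZ.badM (by decide +kernel)))
                     (CovZ.n1 (-13440, 28122) (by decide +kernel)
                      (CovZ.badM (by decide +kernel))
                      (CovZ.n1 (-13437, 28119) (by decide +kernel)
                       (CovZ.n2 (-13440, 28119) (by decide +kernel)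
                        (CovZ.badM (by decide +kernel))
                        (CovZ.leaf K2_ok TB_l50672 _))
                       (CovZ.badM (by decide +kernel))))))
                   (CovZ.n1 (-13434, 28110) (by decide +kernel)
                    (CovZ.n2 (-13440, 28110) (by decide +kernel)
                     (CovZ.n2 (-13437, 28113) (by decide +kernel)
                      (CovZ.leaf K2_ok TB_l50673 _)
                      (CovZ.leaf K2_ok TB_l50674 _))
                     (CovZ.n1 (-13437, 28107) (by decide +kernel)
                      (CovZ.leaf K2_ok TB_l50675 _)
                      (CovZ.n1 (-13437, 28110) (by decide +kernel)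
                       (CovZ.badM (by decide +kernel))
                       (CovZ.leaf K2_ok TB_l50676 _))))
                    (CovZ.n1 (-13434, 28116) (by decide +kernel)
                     (CovZ.badM (by decide +kernel))
                     (CovZ.n1 (-13437, 28113) (by decide +kernel)
                      (CovZ.leaf K2_ok TB_l50677 _)
                      (CovZ.badM (by decide +kernel))))))))
                (CovZ.n1 (-13428, 28092) (by decide +kernel)
                 (CovZ.n2 (-13440, 28092) (by decide +kernel)
                  (CovZ.n2 (-13434, 28098) (by decide +kernel)
                   (CovZ.n2 (-13434, 28092) (by decide +kernel)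
                    (CovZ.n2 (-13437, 28095) (by decide +kernel)
                     (CovZ.badM (by decide +kernel))
                     (CovZ.leaf K2_ok TB_l50678 _))
                    (CovZ.badM (by decide +kernel)))
                   (CovZ.n1 (-13440, 28098) (by decide +kernel)
                    (CovZ.leaf K2_ok TB_l50679 _)
                    (CovZ.leaf K2_ok TB_l50680 _)))
                  (CovZ.n1 (-13434, 28086) (by decide +kernel)
                   (CovZ.n2 (-13440, 28086) (by decide +kernel)
                    (CovZ.leaf K2_ok TB_l50681 _)
                    (CovZ.leaf K2_ok TB_l50682 _))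
                   (CovZ.n1 (-13434, 28092) (by decide +kernel)
                    (CovZ.badM (by decide +kernel))
                    (CovZ.leaf K2_ok TB_l50683 _))))
                 (CovZ.subM 12402742557508721824111624792957820557142585339345531655308784853512909275597112002131891244089562097567495605606264322019768813987222958112768 (by decide +kernel)
                  (CovZ.n1 (-13428, 28104) (by decide +kernel)
                   (CovZ.badM (by decide +kernel))
                   (CovZ.n1 (-13434, 28098) (by decide +kernel)
                    (CovZ.n2 (-13434, 28104) (by decide +kernel)
                     (CovZ.badM (by decide +kernel))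
                     (CovZ.leaf K2_ok TB_l50684 _))
                    (CovZ.badM (by decide +kernel))))))))
              (CovZ.n1 (-13416, 28056) (by decide +kernel)
               (CovZ.n2 (-13440, 28056) (by decide +kernel)
                (CovZ.n2 (-13428, 28068) (by decide +kernel)
                 (CovZ.n2 (-13428, 28056) (by decide +kernel)
                  (CovZ.n2 (-13434, 28062) (by decide +kernel)
                   (CovZ.n2 (-13428, 28062) (by decide +kernel)
                    (CovZ.leaf K2_ok TB_l50685 _)
                    (CovZ.leaf K2_ok TB_l50686 _))
                   (CovZ.leaf K2_ok TB_l50687 _))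
                  (CovZ.subM 24973988402533616278586337267177747038237910176744407030003625349348923052739223705400834745783921636862316726827196440363632759949412021525544960 (by decide +kernel)
                   (CovZ.n1 (-13422, 28062) (by decide +kernel)
                    (CovZ.n2 (-13422, 28056) (by decide +kernel)
                     (CovZ.leaf K2_ok TB_l50688 _)
                     (CovZ.leaf K2_ok TB_l50689 _))
                    (CovZ.n1 (-13428, 28062) (by decide +kernel)
                     (CovZ.n2 (-13425, 28065) (by decide +kernel)
                      (CovZ.leaf K2_ok TB_l50690 _)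
                      (CovZ.leaf K2_ok TB_l50691 _))
                     (CovZ.leaf K2_ok TB_l50692 _)))))
                 (CovZ.n1 (-13440, 28068) (by decide +kernel)
                  (CovZ.n2 (-13434, 28074) (by decide +kernel)
                   (CovZ.n2 (-13434, 28068) (by decide +kernel)
                    (CovZ.leaf K2_ok TB_l50693 _)
                    (CovZ.leaf K2_ok TB_l50694 _))
                   (CovZ.leaf K2_ok TB_l50695 _))
                  (CovZ.n1 (-13434, 28062) (by decide +kernel)
                   (CovZ.leaf K2_ok TB_l50696 _)
                   (CovZ.n1 (-13434, 28068) (by decide +kernel)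
                    (CovZ.leaf K2_ok TB_l50697 _)
                    (CovZ.leaf K2_ok TB_l50698 _)))))
                (CovZ.n1 (-13428, 28044) (by decide +kernel)
                 (CovZ.n2 (-13440, 28044) (by decide +kernel)
                  (CovZ.leaf K2_ok TB_l50699 _)
                  (CovZ.leaf K2_ok TB_l50700 _))
                 (CovZ.n1 (-13428, 28056) (by decide +kernel)
                  (CovZ.subM 24973988402533616278586337267177747038237910176744407030003625349348923052739223705400834745783921636862316726827196440363632759949412021525544960 (by decide +kernel)
                   (CovZ.n2 (-13422, 28050) (by decide +kernel)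
                    (CovZ.leaf K2_ok TB_l50701 _)
                    (CovZ.n1 (-13422, 28056) (by decide +kernel)
                     (CovZ.n2 (-13419, 28053) (by decide +kernel)
                      (CovZ.leaf K2_ok TB_l50702 _)
                      (CovZ.leaf K2_ok TB_l50703 _))
                     (CovZ.n1 (-13425, 28053) (by decide +kernel)
                      (CovZ.leaf K2_ok TB_l50704 _)
                      (CovZ.leaf K2_ok TB_l50705 _)))))
                  (CovZ.n1 (-13434, 28050) (by decide +kernel)
                   (CovZ.leaf K2_ok TB_l50706 _)
                   (CovZ.leaf K2_ok TB_l50707 _)))))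
               (CovZ.n1 (-13416, 28080) (by decide +kernel)
                (CovZ.badM (by decide +kernel))
                (CovZ.n1 (-13428, 28068) (by decide +kernel)
                 (CovZ.n2 (-13428, 28080) (by decide +kernel)
                  (CovZ.n2 (-13422, 28074) (by decide +kernel)
                   (CovZ.n2 (-13428, 28074) (by decide +kernel)
                    (CovZ.leaf K2_ok TB_l50708 _)
                    (CovZ.leaf K2_ok TB_l50709 _))
                   (CovZ.badM (by decide +kernel)))
                  (CovZ.n1 (-13434, 28074) (by decide +kernel)
                   (CovZ.n2 (-13434, 28080) (by decide +kernel)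
                    (CovZ.n2 (-13431, 28077) (by decide +kernel)
                     (CovZ.leaf K2_ok TB_l50710 _)
                     (CovZ.leaf K2_ok TB_l50711 _))
                    (CovZ.leaf K2_ok TB_l50712 _))
                   (CovZ.subM 24973988402527937851052777838345330445988785141319769206873255677002973910558124960962448824507935769278615448971252983163583805434306282450321408 (by decide +kernel)
                    (CovZ.n1 (-13428, 28074) (by decide +kernel)
                     (CovZ.n2 (-13431, 28071) (by decide +kernel)
                      (CovZ.leaf K2_ok TB_l50713 _)
                      (CovZ.leaf K2_ok TB_l50714 _))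
                     (CovZ.n1 (-13431, 28077) (by decide +kernel)
                      (CovZ.n2 (-13428, 28077) (by decide +kernel)
                       (CovZ.leaf K2_ok TB_l50715 _)
                       (CovZ.leaf K2_ok TB_l50716 _))
                      (CovZ.leaf K2_ok TB_l50717 _))))))
                 (CovZ.subM 24973988402527937851052777838345330445988785141319769206873255677002973910558124960962448824507935769278615448971252983163583805434306282450321408 (by decide +kernel)
                  (CovZ.n1 (-13416, 28068) (by decide +kernel)
                   (CovZ.n2 (-13422, 28062) (by decide +kernel)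
                    (CovZ.n2 (-13422, 28068) (by decide +kernel)
                     (CovZ.n2 (-13419, 28065) (by decide +kernel)
                      (CovZ.leaf K2_ok TB_l50718 _)
                      (CovZ.badM (by decide +kernel)))
                     (CovZ.n1 (-13425, 28065) (by decide +kernel)
                      (CovZ.leaf K2_ok TB_l50719 _)
                      (CovZ.leaf K2_ok TB_l50720 _)))
                    (CovZ.n1 (-13416, 28062) (by decide +kernel)
                     (CovZ.n2 (-13419, 28059) (by decide +kernel)
                      (CovZ.leaf K2_ok TB_l50721 _)
                      (CovZ.badM (by decide +kernel)))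
                     (CovZ.n1 (-13419, 28065) (by decide +kernel)
                      (CovZ.badM (by decide +kernel))
                      (CovZ.n1 (-13419, 28062) (by decide +kernel)
                       (CovZ.leaf K2_ok TB_l50722 _)
                       (CovZ.badM (by decide +kernel))))))
                   (CovZ.n1 (-13422, 28074) (by decide +kernel)
                    (CovZ.badM (by decide +kernel))
                    (CovZ.n1 (-13422, 28068) (by decide +kernel)
                     (CovZ.n2 (-13425, 28071) (by decide +kernel)
                      (CovZ.badM (by decide +kernel))
                      (CovZ.leaf K2_ok TB_l50723 _))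
                     (CovZ.badM (by decide +kernel))))))))))
             (CovZ.subM 12402742557508721824111624792957820557142585339345531655308784853512909275597112002131891244089562097567495605606264322019768813987222958112768 (by decide +kernel)
              (CovZ.n1 (-13392, 28128) (by decide +kernel)
               (CovZ.badM (by decide +kernel))
               (CovZ.n1 (-13416, 28104) (by decide +kernel)
                (CovZ.n2 (-13416, 28128) (by decide +kernel)
                 (CovZ.badM (by decide +kernel))
                 (CovZ.n1 (-13428, 28116) (by decide +kernel)
                  (CovZ.n2 (-13428, 28128) (by decide +kernel)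
                   (CovZ.badM (by decide +kernel))
                   (CovZ.n1 (-13434, 28122) (by decide +kernel)
                    (CovZ.badM (by decide +kernel))
                    (CovZ.badM (by decide +kernel))))
                  (CovZ.badM (by decide +kernel))))
                (CovZ.badM (by decide +kernel)))))))
           (CovZ.n1 (-13344, 28224) (by decide +kernel)
            (CovZ.badM (by decide +kernel))
            (CovZ.n1 (-13392, 28176) (by decide +kernel)
             (CovZ.badM (by decide +kernel))
             (CovZ.badM (by decide +kernel))))))
         (CovZ.badM (by decide +kernel))))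
       (CovZ.n1 (-13632, 28224) (by decide +kernel)
        TB_u510
        TB_u511)))

theorem TB_u514 : CovZ TB_M (toL (selN TB_LN 293567822846729155523718374169563001332561389271064965729980221258260417694060925504514829934560658717672448)) [0, 7, 6, 1] (-13824, 29184) (-13824, 29952) (-14592, 29952) :=
    (CovZ.n2 (-14208, 29568) (by decide +kernel)
       (CovZ.n2 (-14208, 29952) (by decide +kernel)
        (CovZ.badM (by decide +kernel))
        (CovZ.n1 (-14400, 29760) (by decide +kernel)
         (CovZ.n2 (-14400, 29952) (by decide +kernel)
          (CovZ.subM 497323236409786642155382248146820840100456150798028282174305853820086246227396911955968 (by decide +kernel)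
           (CovZ.n2 (-14304, 29856) (by decide +kernel)
            (CovZ.n2 (-14400, 29856) (by decide +kernel)
             (CovZ.n2 (-14352, 29904) (by decide +kernel)
              (CovZ.n2 (-14352, 29856) (by decide +kernel)
               (CovZ.n2 (-14376, 29880) (by decide +kernel)
                (CovZ.badM (by decide +kernel))
                (CovZ.n1 (-14376, 29856) (by decide +kernel)
                 (CovZ.leaf K2_ok TB_l47497 _)
                 (CovZ.badM (by decide +kernel))))
               (CovZ.badM (by decide +kernel)))
              (CovZ.n1 (-14400, 29904) (by decide +kernel)
               (CovZ.badM (by decide +kernel))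
               (CovZ.n1 (-14376, 29880) (by decide +kernel)
                (CovZ.n2 (-14400, 29880) (by decide +kernel)
                 (CovZ.leaf K2_ok TB_l47499 _)
                 (CovZ.leaf K2_ok TB_l47500 _))
                (CovZ.n1 (-14376, 29904) (by decide +kernel)
                 (CovZ.badM (by decide +kernel))
                 (CovZ.leaf K2_ok TB_l47501 _)))))
             (CovZ.n1 (-14352, 29808) (by decide +kernel)
              (CovZ.n2 (-14400, 29808) (by decide +kernel)
               (CovZ.n2 (-14376, 29832) (by decide +kernel)
                (CovZ.n2 (-14376, 29808) (by decide +kernel)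
                 (CovZ.leaf K2_ok TB_l47502 _)
                 (CovZ.leaf K2_ok TB_l47503 _))
                (CovZ.n1 (-14400, 29832) (by decide +kernel)
                 (CovZ.leaf K2_ok TB_l47504 _)
                 (CovZ.leaf K2_ok TB_l47505 _)))
               (CovZ.n1 (-14376, 29784) (by decide +kernel)
                (CovZ.n2 (-14400, 29784) (by decide +kernel)
                 (CovZ.leaf K2_ok TB_l47506 _)
                 (CovZ.leaf K2_ok TB_l47507 _))
                (CovZ.n1 (-14376, 29808) (by decide +kernel)
                 (CovZ.leaf K2_ok TB_l47508 _)
                 (CovZ.leaf K2_ok TB_l47509 _))))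
              (CovZ.n1 (-14352, 29856) (by decide +kernel)
               (CovZ.badM (by decide +kernel))
               (CovZ.n1 (-14376, 29832) (by decide +kernel)
                (CovZ.n2 (-14376, 29856) (by decide +kernel)
                 (CovZ.badM (by decide +kernel))
                 (CovZ.leaf K2_ok TB_l47513 _))
                (CovZ.badM (by decide +kernel))))))
            (CovZ.n1 (-14304, 29952) (by decide +kernel)
             (CovZ.badM (by decide +kernel))
             (CovZ.n1 (-14352, 29904) (by decide +kernel)
              (CovZ.badM (by decide +kernel))
              (CovZ.badM (by decide +kernel))))))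
          (CovZ.n1 (-14496, 29856) (by decide +kernel)
           (CovZ.n2 (-14496, 29952) (by decide +kernel)
            (CovZ.subM 497323236409786642155382248146820840100456150798028282174305853829530979193136202383360 (by decide +kernel)
             (CovZ.n2 (-14448, 29904) (by decide +kernel)
              (CovZ.n2 (-14496, 29904) (by decide +kernel)
               (CovZ.n2 (-14472, 29928) (by decide +kernel)
                (CovZ.n2 (-14472, 29904) (by decide +kernel)
                 (CovZ.leaf K2_ok TB_l47516 _)
                 (CovZ.leaf K2_ok TB_l47517 _))
                (CovZ.leaf K2_ok TB_l47518 _))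
               (CovZ.n1 (-14472, 29880) (by decide +kernel)
                (CovZ.leaf K2_ok TB_l47519 _)
                (CovZ.leaf K2_ok TB_l47520 _)))
              (CovZ.n1 (-14448, 29952) (by decide +kernel)
               (CovZ.n2 (-14424, 29928) (by decide +kernel)
                (CovZ.leaf K2_ok TB_l47521 _)
                (CovZ.n1 (-14424, 29952) (by decide +kernel)
                 (CovZ.leaf K2_ok TB_l47522 _)
                 (CovZ.leaf K2_ok TB_l47523 _)))
               (CovZ.n1 (-14472, 29928) (by decide +kernel)
                (CovZ.n2 (-14472, 29952) (by decide +kernel)
                 (CovZ.leaf K2_ok TB_l47524 _)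
                 (CovZ.leaf K2_ok TB_l47525 _))
                (CovZ.leaf K2_ok TB_l47526 _)))))
            (CovZ.n1 (-14544, 29904) (by decide +kernel)
             (CovZ.n2 (-14544, 29952) (by decide +kernel)
              (CovZ.n2 (-14520, 29928) (by decide +kernel)
               (CovZ.leaf K2_ok TB_l47527 _)
               (CovZ.leaf K2_ok TB_l47528 _))
              (CovZ.leaf K2_ok TB_l36366 _))
             (CovZ.subM 497323236409786642155382248146820840100456150798028282174305853829530979193136202383360 (by decide +kernel)
              (CovZ.n1 (-14496, 29904) (by decide +kernel)
               (CovZ.n2 (-14520, 29880) (by decide +kernel)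
                (CovZ.leaf K2_ok TB_l47529 _)
                (CovZ.leaf K2_ok TB_l47530 _))
               (CovZ.n1 (-14520, 29928) (by decide +kernel)
                (CovZ.leaf K2_ok TB_l47531 _)
                (CovZ.leaf K2_ok TB_l47532 _))))))
           (CovZ.subM 497323236409786642155382248146820840100456150798028282174305853829530979193136202383360 (by decide +kernel)
            (CovZ.n1 (-14400, 29856) (by decide +kernel)
             (CovZ.n2 (-14448, 29808) (by decide +kernel)
              (CovZ.n2 (-14448, 29856) (by decide +kernel)
               (CovZ.n2 (-14424, 29832) (by decide +kernel)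
                (CovZ.leaf K2_ok TB_l47533 _)
                (CovZ.n1 (-14424, 29856) (by decide +kernel)
                 (CovZ.leaf K2_ok TB_l47534 _)
                 (CovZ.leaf K2_ok TB_l47535 _)))
               (CovZ.n1 (-14472, 29832) (by decide +kernel)
                (CovZ.leaf K2_ok TB_l47536 _)
                (CovZ.leaf K2_ok TB_l47537 _)))
              (CovZ.n1 (-14400, 29808) (by decide +kernel)
               (CovZ.n2 (-14424, 29784) (by decide +kernel)
                (CovZ.n2 (-14424, 29808) (by decide +kernel)
                 (CovZ.leaf K2_ok TB_l47538 _)
                 (CovZ.leaf K2_ok TB_l47539 _))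
                (CovZ.leaf K2_ok TB_l47540 _))
               (CovZ.n1 (-14424, 29832) (by decide +kernel)
                (CovZ.leaf K2_ok TB_l47541 _)
                (CovZ.n1 (-14424, 29808) (by decide +kernel)
                 (CovZ.leaf K2_ok TB_l47542 _)
                 (CovZ.leaf K2_ok TB_l47543 _)))))
             (CovZ.n1 (-14448, 29904) (by decide +kernel)
              (CovZ.n2 (-14400, 29904) (by decide +kernel)
               (CovZ.n2 (-14424, 29880) (by decide +kernel)
                (CovZ.n2 (-14424, 29904) (by decide +kernel)
                 (CovZ.leaf K2_ok TB_l47544 _)
                 (CovZ.leaf K2_ok TB_l47545 _))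
                (CovZ.leaf K2_ok TB_l47546 _))
               (CovZ.n1 (-14424, 29928) (by decide +kernel)
                (CovZ.n2 (-14400, 29928) (by decide +kernel)
                 (CovZ.leaf K2_ok TB_l47547 _)
                 (CovZ.leaf K2_ok TB_l47548 _))
                (CovZ.n1 (-14424, 29904) (by decide +kernel)
                 (CovZ.leaf K2_ok TB_l47549 _)
                 (CovZ.leaf K2_ok TB_l47550 _))))
              (CovZ.n1 (-14448, 29856) (by decide +kernel)
               (CovZ.n2 (-14472, 29880) (by decide +kernel)
                (CovZ.leaf K2_ok TB_l47551 _)
                (CovZ.leaf K2_ok TB_l47552 _))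
               (CovZ.n1 (-14424, 29880) (by decide +kernel)
                (CovZ.n2 (-14424, 29856) (by decide +kernel)
                 (CovZ.leaf K2_ok TB_l47553 _)
                 (CovZ.leaf K2_ok TB_l47554 _))
                (CovZ.leaf K2_ok TB_l47555 _))))))))
         (CovZ.subM 497323236409786642155382248146820840100456150798028282174305853820086246227396911955968 (by decide +kernel)
          (CovZ.n1 (-14208, 29760) (by decide +kernel)
           (CovZ.n2 (-14304, 29664) (by decide +kernel)
            (CovZ.n2 (-14304, 29760) (by decide +kernel)
             (CovZ.badM (by decide +kernel))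
             (CovZ.n1 (-14352, 29712) (by decide +kernel)
              (CovZ.n2 (-14352, 29760) (by decide +kernel)
               (CovZ.n2 (-14328, 29736) (by decide +kernel)
                (CovZ.n2 (-14352, 29736) (by decide +kernel)
                 (CovZ.leaf K2_ok TB_l47556 _)
                 (CovZ.leaf K2_ok TB_l47557 _))
                (CovZ.badM (by decide +kernel)))
               (CovZ.n1 (-14376, 29736) (by decide +kernel)
                (CovZ.n2 (-14376, 29760) (by decide +kernel)
                 (CovZ.leaf K2_ok TB_l47559 _)
                 (CovZ.leaf K2_ok TB_l47560 _))
                (CovZ.leaf K2_ok TB_l47561 _)))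
              (CovZ.n1 (-14304, 29712) (by decide +kernel)
               (CovZ.n2 (-14328, 29688) (by decide +kernel)
                (CovZ.n2 (-14328, 29712) (by decide +kernel)
                 (CovZ.leaf K2_ok TB_l47562 _)
                 (CovZ.leaf K2_ok TB_l47563 _))
                (CovZ.n1 (-14304, 29688) (by decide +kernel)
                 (CovZ.leaf K2_ok TB_l47564 _)
                 (CovZ.leaf K2_ok TB_l47565 _)))
               (CovZ.n1 (-14328, 29736) (by decide +kernel)
                (CovZ.badM (by decide +kernel))
                (CovZ.n1 (-14328, 29712) (by decide +kernel)
                 (CovZ.leaf K2_ok TB_l47566 _)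
                 (CovZ.badM (by decide +kernel)))))))
            (CovZ.badM (by decide +kernel)))
           (CovZ.n1 (-14304, 29856) (by decide +kernel)
            (CovZ.badM (by decide +kernel))
            (CovZ.n1 (-14304, 29760) (by decide +kernel)
             (CovZ.n2 (-14352, 29808) (by decide +kernel)
              (CovZ.badM (by decide +kernel))
              (CovZ.n1 (-14352, 29760) (by decide +kernel)
               (CovZ.n2 (-14376, 29784) (by decide +kernel)
                (CovZ.leaf K2_ok TB_l47569 _)
                (CovZ.n1 (-14376, 29760) (by decide +kernel)
                 (CovZ.leaf K2_ok TB_l47570 _)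
                 (CovZ.leaf K2_ok TB_l47571 _)))
               (CovZ.badM (by decide +kernel))))
             (CovZ.badM (by decide +kernel))))))))
       (CovZ.subM 10633823966279326983302514076280684544 (by decide +kernel)
        (CovZ.n1 (-13824, 29568) (by decide +kernel)
         (CovZ.n2 (-14016, 29376) (by decide +kernel)
          (CovZ.n2 (-14016, 29568) (by decide +kernel)
           (CovZ.badM (by decide +kernel))
           (CovZ.n1 (-14112, 29472) (by decide +kernel)
            (CovZ.badM (by decide +kernel))
            (CovZ.badM (by decide +kernel))))
          (CovZ.badM (by decide +kernel)))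
         (CovZ.badM (by decide +kernel)))))

theorem TB_u515 : CovZ TB_M (toL (selN TB_LN 293567822846729155523718374169563001332561389271064965729980221258260417694060925504514829934560658717672448)) [0, 7, 6, 1] (-13824, 29952) (-13824, 30720) (-14592, 29952) :=
    (CovZ.n1 (-14208, 30336) (by decide +kernel)
       (CovZ.badM (by decide +kernel))
       (CovZ.n1 (-14208, 29952) (by decide +kernel)
        (CovZ.n2 (-14400, 30144) (by decide +kernel)
         (CovZ.badM (by decide +kernel))
         (CovZ.n1 (-14400, 29952) (by decide +kernel)
          (CovZ.n2 (-14496, 30048) (by decide +kernel)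
           (CovZ.subM 497323236409786642155382248146820840100456150797347717440463976902604229978272665960448 (by decide +kernel)
            (CovZ.n2 (-14400, 30048) (by decide +kernel)
             (CovZ.n2 (-14448, 30000) (by decide +kernel)
              (CovZ.n2 (-14448, 30048) (by decide +kernel)
               (CovZ.n2 (-14424, 30024) (by decide +kernel)
                (CovZ.n2 (-14448, 30024) (by decide +kernel)
                 (CovZ.badM (by decide +kernel))
                 (CovZ.leaf K2_ok TB_l47575 _))
                (CovZ.badM (by decide +kernel)))
               (CovZ.n1 (-14472, 30024) (by decide +kernel)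
                (CovZ.n2 (-14472, 30048) (by decide +kernel)
                 (CovZ.leaf K2_ok TB_l47576 _)
                 (CovZ.leaf K2_ok TB_l47577 _))
                (CovZ.n1 (-14448, 30024) (by decide +kernel)
                 (CovZ.leaf K2_ok TB_l47578 _)
                 (CovZ.leaf K2_ok TB_l47579 _))))
              (CovZ.n1 (-14400, 30000) (by decide +kernel)
               (CovZ.n2 (-14424, 29976) (by decide +kernel)
                (CovZ.n2 (-14424, 30000) (by decide +kernel)
                 (CovZ.badM (by decide +kernel))
                 (CovZ.leaf K2_ok TB_l47580 _))
                (CovZ.badM (by decide +kernel)))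
               (CovZ.n1 (-14424, 30024) (by decide +kernel)
                (CovZ.badM (by decide +kernel))
                (CovZ.n1 (-14424, 30000) (by decide +kernel)
                 (CovZ.leaf K2_ok TB_l47581 _)
                 (CovZ.badM (by decide +kernel))))))
             (CovZ.n1 (-14448, 30096) (by decide +kernel)
              (CovZ.badM (by decide +kernel))
              (CovZ.n1 (-14448, 30048) (by decide +kernel)
               (CovZ.n2 (-14472, 30072) (by decide +kernel)
                (CovZ.n2 (-14448, 30072) (by decide +kernel)
                 (CovZ.leaf K2_ok TB_l47582 _)
                 (CovZ.leaf K2_ok TB_l47583 _))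
                (CovZ.n1 (-14472, 30048) (by decide +kernel)
                 (CovZ.leaf K2_ok TB_l47584 _)
                 (CovZ.leaf K2_ok TB_l47585 _)))
               (CovZ.badM (by decide +kernel))))))
           (CovZ.n1 (-14496, 29952) (by decide +kernel)
            (CovZ.n2 (-14544, 30000) (by decide +kernel)
             (CovZ.subM 497323236409786642155382248146820840100456150797347717440463976902604229978272665960448 (by decide +kernel)
              (CovZ.n2 (-14496, 30000) (by decide +kernel)
               (CovZ.n2 (-14520, 29976) (by decide +kernel)
                (CovZ.leaf K2_ok TB_l47586 _)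
                (CovZ.leaf K2_ok TB_l47587 _))
               (CovZ.n1 (-14520, 30024) (by decide +kernel)
                (CovZ.leaf K2_ok TB_l47588 _)
                (CovZ.n1 (-14520, 30000) (by decide +kernel)
                 (CovZ.leaf K2_ok TB_l47589 _)
                 (CovZ.leaf K2_ok TB_l47590 _)))))
             (CovZ.n1 (-14544, 29952) (by decide +kernel)
              (CovZ.n2 (-14568, 29976) (by decide +kernel)
               (CovZ.leaf K2_ok TB_l47591 _)
               (CovZ.leaf K2_ok TB_l36367 _))
              (CovZ.n1 (-14520, 29976) (by decide +kernel)
               (CovZ.leaf K2_ok TB_l47592 _)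
               (CovZ.leaf K2_ok TB_l47593 _))))
            (CovZ.subM 497323236409786642155382248146820840100456150797347717440463976902604229978272665960448 (by decide +kernel)
             (CovZ.n1 (-14448, 30000) (by decide +kernel)
              (CovZ.n2 (-14448, 29952) (by decide +kernel)
               (CovZ.n2 (-14472, 29976) (by decide +kernel)
                (CovZ.leaf K2_ok TB_l47594 _)
                (CovZ.n1 (-14472, 29952) (by decide +kernel)
                 (CovZ.leaf K2_ok TB_l47595 _)
                 (CovZ.leaf K2_ok TB_l47596 _)))
               (CovZ.n1 (-14424, 29976) (by decide +kernel)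
                (CovZ.n2 (-14424, 29952) (by decide +kernel)
                 (CovZ.leaf K2_ok TB_l47597 _)
                 (CovZ.badM (by decide +kernel)))
                (CovZ.leaf K2_ok TB_l47598 _)))
              (CovZ.n1 (-14496, 30000) (by decide +kernel)
               (CovZ.n2 (-14472, 30024) (by decide +kernel)
                (CovZ.n2 (-14472, 30000) (by decide +kernel)
                 (CovZ.leaf K2_ok TB_l47599 _)
                 (CovZ.leaf K2_ok TB_l47600 _))
                (CovZ.leaf K2_ok TB_l47601 _))
               (CovZ.n1 (-14472, 29976) (by decide +kernel)
                (CovZ.leaf K2_ok TB_l47602 _)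
                (CovZ.n1 (-14472, 30000) (by decide +kernel)
                 (CovZ.leaf K2_ok TB_l47603 _)
                 (CovZ.leaf K2_ok TB_l47604 _))))))))
          (CovZ.badM (by decide +kernel))))
        (CovZ.badM (by decide +kernel))))

theorem TB_u516 : CovZ TB_M (toL (selN TB_LN 293567822846729155523718374169563001332561389271064965729980221258260417694060925504514829934560658717672448)) [0, 7, 6, 1] (-14592, 29184) (-14208, 29184) (-14208, 29568) :=
    (CovZ.n2 (-14400, 29376) (by decide +kernel)
         (CovZ.subM 497323236409786642155382248146820840100456150798038915998272133147069548741473192640512 (by decide +kernel)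
          (CovZ.n2 (-14208, 29376) (by decide +kernel)
           (CovZ.n2 (-14304, 29280) (by decide +kernel)
            (CovZ.n2 (-14304, 29376) (by decide +kernel)
             (CovZ.n2 (-14256, 29328) (by decide +kernel)
              (CovZ.n2 (-14304, 29328) (by decide +kernel)
               (CovZ.n2 (-14280, 29352) (by decide +kernel)
                (CovZ.n2 (-14280, 29328) (by decide +kernel)
                 (CovZ.leaf K2_ok TB_l47605 _)
                 (CovZ.leaf K2_ok TB_l47606 _))
                (CovZ.leaf K2_ok TB_l47607 _))
               (CovZ.n1 (-14280, 29304) (by decide +kernel)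
                (CovZ.leaf K2_ok TB_l47608 _)
                (CovZ.leaf K2_ok TB_l47609 _)))
              (CovZ.n1 (-14256, 29376) (by decide +kernel)
               (CovZ.n2 (-14232, 29352) (by decide +kernel)
                (CovZ.leaf K2_ok TB_l47610 _)
                (CovZ.n1 (-14232, 29376) (by decide +kernel)
                 (CovZ.leaf K2_ok TB_l47611 _)
                 (CovZ.leaf K2_ok TB_l47612 _)))
               (CovZ.n1 (-14280, 29352) (by decide +kernel)
                (CovZ.n2 (-14280, 29376) (by decide +kernel)
                 (CovZ.leaf K2_ok TB_l47613 _)
                 (CovZ.leaf K2_ok TB_l47614 _))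
                (CovZ.leaf K2_ok TB_l47615 _))))
             (CovZ.n1 (-14352, 29328) (by decide +kernel)
              (CovZ.n2 (-14352, 29376) (by decide +kernel)
               (CovZ.n2 (-14328, 29352) (by decide +kernel)
                (CovZ.leaf K2_ok TB_l47616 _)
                (CovZ.leaf K2_ok TB_l47617 _))
               (CovZ.leaf K2_ok TB_l47618 _))
              (CovZ.n1 (-14304, 29328) (by decide +kernel)
               (CovZ.leaf K2_ok TB_l47619 _)
               (CovZ.leaf K2_ok TB_l47620 _))))
            (CovZ.n1 (-14208, 29280) (by decide +kernel)
             (CovZ.n2 (-14256, 29232) (by decide +kernel)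
              (CovZ.n2 (-14256, 29280) (by decide +kernel)
               (CovZ.n2 (-14232, 29256) (by decide +kernel)
                (CovZ.leaf K2_ok TB_l47621 _)
                (CovZ.n1 (-14232, 29280) (by decide +kernel)
                 (CovZ.leaf K2_ok TB_l47622 _)
                 (CovZ.leaf K2_ok TB_l47623 _)))
               (CovZ.n1 (-14280, 29256) (by decide +kernel)
                (CovZ.leaf K2_ok TB_l47624 _)
                (CovZ.leaf K2_ok TB_l47625 _)))
              (CovZ.n1 (-14208, 29232) (by decide +kernel)
               (CovZ.n2 (-14232, 29208) (by decide +kernel)
                (CovZ.leaf K2_ok TB_l47626 _)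
                (CovZ.leaf K2_ok TB_l47627 _))
               (CovZ.n1 (-14232, 29256) (by decide +kernel)
                (CovZ.leaf K2_ok TB_l47628 _)
                (CovZ.leaf K2_ok TB_l47629 _))))
             (CovZ.n1 (-14256, 29328) (by decide +kernel)
              (CovZ.n2 (-14208, 29328) (by decide +kernel)
               (CovZ.n2 (-14232, 29304) (by decide +kernel)
                (CovZ.n2 (-14232, 29328) (by decide +kernel)
                 (CovZ.leaf K2_ok TB_l47630 _)
                 (CovZ.leaf K2_ok TB_l47631 _))
                (CovZ.leaf K2_ok TB_l47632 _))
               (CovZ.n1 (-14232, 29352) (by decide +kernel)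
                (CovZ.leaf K2_ok TB_l47633 _)
                (CovZ.n1 (-14232, 29328) (by decide +kernel)
                 (CovZ.leaf K2_ok TB_l47634 _)
                 (CovZ.leaf K2_ok TB_l47635 _))))
              (CovZ.n1 (-14256, 29280) (by decide +kernel)
               (CovZ.n2 (-14280, 29304) (by decide +kernel)
                (CovZ.leaf K2_ok TB_l47636 _)
                (CovZ.leaf K2_ok TB_l47637 _))
               (CovZ.n1 (-14232, 29304) (by decide +kernel)
                (CovZ.n2 (-14232, 29280) (by decide +kernel)
                 (CovZ.leaf K2_ok TB_l47638 _)
                 (CovZ.leaf K2_ok TB_l47639 _))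
                (CovZ.leaf K2_ok TB_l47640 _))))))
           (CovZ.n1 (-14304, 29472) (by decide +kernel)
            (CovZ.n2 (-14208, 29472) (by decide +kernel)
             (CovZ.n2 (-14256, 29424) (by decide +kernel)
              (CovZ.n2 (-14256, 29472) (by decide +kernel)
               (CovZ.n2 (-14232, 29448) (by decide +kernel)
                (CovZ.leaf K2_ok TB_l47641 _)
                (CovZ.n1 (-14232, 29472) (by decide +kernel)
                 (CovZ.leaf K2_ok TB_l47642 _)
                 (CovZ.leaf K2_ok TB_l47643 _)))
               (CovZ.n1 (-14280, 29448) (by decide +kernel)
                (CovZ.n2 (-14280, 29472) (by decide +kernel)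
                 (CovZ.leaf K2_ok TB_l47644 _)
                 (CovZ.leaf K2_ok TB_l47645 _))
                (CovZ.leaf K2_ok TB_l47646 _)))
              (CovZ.n1 (-14208, 29424) (by decide +kernel)
               (CovZ.n2 (-14232, 29400) (by decide +kernel)
                (CovZ.n2 (-14232, 29424) (by decide +kernel)
                 (CovZ.leaf K2_ok TB_l47647 _)
                 (CovZ.leaf K2_ok TB_l47648 _))
                (CovZ.n1 (-14208, 29400) (by decide +kernel)
                 (CovZ.leaf K2_ok TB_l47649 _)
                 (CovZ.leaf K2_ok TB_l47650 _)))
               (CovZ.n1 (-14232, 29448) (by decide +kernel)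
                (CovZ.n2 (-14208, 29448) (by decide +kernel)
                 (CovZ.leaf K2_ok TB_l47651 _)
                 (CovZ.leaf K2_ok TB_l47652 _))
                (CovZ.n1 (-14232, 29424) (by decide +kernel)
                 (CovZ.leaf K2_ok TB_l47653 _)
                 (CovZ.leaf K2_ok TB_l47654 _)))))
             (CovZ.n1 (-14256, 29520) (by decide +kernel)
              (CovZ.badM (by decide +kernel))
              (CovZ.n1 (-14256, 29472) (by decide +kernel)
               (CovZ.n2 (-14280, 29496) (by decide +kernel)
                (CovZ.leaf K2_ok TB_l47655 _)
                (CovZ.n1 (-14280, 29472) (by decide +kernel)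
                 (CovZ.leaf K2_ok TB_l47656 _)
                 (CovZ.leaf K2_ok TB_l47657 _)))
               (CovZ.n1 (-14232, 29496) (by decide +kernel)
                (CovZ.n2 (-14232, 29472) (by decide +kernel)
                 (CovZ.leaf K2_ok TB_l47658 _)
                 (CovZ.badM (by decide +kernel)))
                (CovZ.n1 (-14256, 29496) (by decide +kernel)
                 (CovZ.leaf K2_ok TB_l47659 _)
                 (CovZ.leaf K2_ok TB_l47660 _))))))
            (CovZ.n1 (-14304, 29376) (by decide +kernel)
             (CovZ.n2 (-14352, 29424) (by decide +kernel)
              (CovZ.n2 (-14304, 29424) (by decide +kernel)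
               (CovZ.n2 (-14328, 29400) (by decide +kernel)
                (CovZ.leaf K2_ok TB_l47661 _)
                (CovZ.leaf K2_ok TB_l47662 _))
               (CovZ.n1 (-14328, 29448) (by decide +kernel)
                (CovZ.leaf K2_ok TB_l47663 _)
                (CovZ.leaf K2_ok TB_l47664 _)))
              (CovZ.n1 (-14352, 29376) (by decide +kernel)
               (CovZ.leaf K2_ok TB_l47665 _)
               (CovZ.n1 (-14328, 29400) (by decide +kernel)
                (CovZ.leaf K2_ok TB_l47666 _)
                (CovZ.leaf K2_ok TB_l47667 _))))
             (CovZ.n1 (-14256, 29424) (by decide +kernel)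
              (CovZ.n2 (-14256, 29376) (by decide +kernel)
               (CovZ.n2 (-14280, 29400) (by decide +kernel)
                (CovZ.leaf K2_ok TB_l47668 _)
                (CovZ.leaf K2_ok TB_l47669 _))
               (CovZ.n1 (-14232, 29400) (by decide +kernel)
                (CovZ.n2 (-14232, 29376) (by decide +kernel)
                 (CovZ.leaf K2_ok TB_l47670 _)
                 (CovZ.leaf K2_ok TB_l47671 _))
                (CovZ.leaf K2_ok TB_l47672 _)))
              (CovZ.n1 (-14304, 29424) (by decide +kernel)
               (CovZ.n2 (-14280, 29448) (by decide +kernel)
                (CovZ.n2 (-14280, 29424) (by decide +kernel)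
                 (CovZ.leaf K2_ok TB_l47673 _)
                 (CovZ.leaf K2_ok TB_l47674 _))
                (CovZ.leaf K2_ok TB_l47675 _))
               (CovZ.n1 (-14280, 29400) (by decide +kernel)
                (CovZ.leaf K2_ok TB_l47676 _)
                (CovZ.n1 (-14280, 29424) (by decide +kernel)
                 (CovZ.leaf K2_ok TB_l47677 _)
                 (CovZ.leaf K2_ok TB_l47678 _)))))))))
         (CovZ.n1 (-14400, 29184) (by decide +kernel)
          (CovZ.n2 (-14496, 29280) (by decide +kernel)
           (CovZ.subM 497323236409786642155382248146820840100456150798038915998272133156514281707212483067904 (by decide +kernel)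
            (CovZ.n2 (-14400, 29280) (by decide +kernel)
             (CovZ.n2 (-14448, 29232) (by decide +kernel)
              (CovZ.n2 (-14448, 29280) (by decide +kernel)
               (CovZ.leaf K2_ok TB_l47679 _)
               (CovZ.leaf K2_ok TB_l47680 _))
              (CovZ.leaf K2_ok TB_l47681 _))
             (CovZ.n1 (-14448, 29328) (by decide +kernel)
              (CovZ.n2 (-14400, 29328) (by decide +kernel)
               (CovZ.leaf K2_ok TB_l47682 _)
               (CovZ.leaf K2_ok TB_l47683 _))
              (CovZ.n1 (-14448, 29280) (by decide +kernel)
               (CovZ.leaf K2_ok TB_l47684 _)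
               (CovZ.leaf K2_ok TB_l47685 _)))))
           (CovZ.n1 (-14496, 29184) (by decide +kernel)
            (CovZ.n2 (-14544, 29232) (by decide +kernel)
             (CovZ.n2 (-14496, 29232) (by decide +kernel)
              (CovZ.leaf K2_ok TB_l47686 _)
              (CovZ.leaf K2_ok TB_l47687 _))
             (CovZ.leaf K2_ok TB_l36455 _))
            (CovZ.n1 (-14448, 29232) (by decide +kernel)
             (CovZ.n2 (-14448, 29184) (by decide +kernel)
              (CovZ.leaf K2_ok TB_l47688 _)
              (CovZ.leaf K2_ok TB_l47689 _))
             (CovZ.leaf K2_ok TB_l47690 _))))
          (CovZ.subM 497323236409786642155382248146820840100456150798038915998272133147069548741473192640512 (by decide +kernel)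
           (CovZ.n1 (-14304, 29280) (by decide +kernel)
            (CovZ.n2 (-14304, 29184) (by decide +kernel)
             (CovZ.n2 (-14352, 29232) (by decide +kernel)
              (CovZ.n2 (-14304, 29232) (by decide +kernel)
               (CovZ.leaf K2_ok TB_l47691 _)
               (CovZ.leaf K2_ok TB_l47692 _))
              (CovZ.n1 (-14352, 29184) (by decide +kernel)
               (CovZ.leaf K2_ok TB_l47693 _)
               (CovZ.leaf K2_ok TB_l47694 _)))
             (CovZ.n1 (-14256, 29232) (by decide +kernel)
              (CovZ.n2 (-14256, 29184) (by decide +kernel)
               (CovZ.leaf K2_ok TB_l47695 _)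
               (CovZ.n1 (-14232, 29208) (by decide +kernel)
                (CovZ.leaf K2_ok TB_l47696 _)
                (CovZ.leaf K2_ok TB_l47697 _)))
              (CovZ.n1 (-14304, 29232) (by decide +kernel)
               (CovZ.n2 (-14280, 29256) (by decide +kernel)
                (CovZ.leaf K2_ok TB_l47698 _)
                (CovZ.leaf K2_ok TB_l47699 _))
               (CovZ.leaf K2_ok TB_l47700 _))))
            (CovZ.n1 (-14400, 29280) (by decide +kernel)
             (CovZ.n2 (-14352, 29328) (by decide +kernel)
              (CovZ.n2 (-14352, 29280) (by decide +kernel)
               (CovZ.leaf K2_ok TB_l47701 _)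
               (CovZ.leaf K2_ok TB_l47702 _))
              (CovZ.n1 (-14400, 29328) (by decide +kernel)
               (CovZ.leaf K2_ok TB_l47703 _)
               (CovZ.leaf K2_ok TB_l47704 _)))
             (CovZ.n1 (-14352, 29232) (by decide +kernel)
              (CovZ.n2 (-14400, 29232) (by decide +kernel)
               (CovZ.leaf K2_ok TB_l47705 _)
               (CovZ.leaf K2_ok TB_l47706 _))
              (CovZ.n1 (-14352, 29280) (by decide +kernel)
               (CovZ.n2 (-14328, 29256) (by decide +kernel)
                (CovZ.leaf K2_ok TB_l47707 _)
                (CovZ.leaf K2_ok TB_l47708 _))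
               (CovZ.leaf K2_ok TB_l47709 _))))))))

theorem TB_u517 : CovZ TB_M (toL (selN TB_LN 293567822846729155523718374169563001332561389271064965729980221258260417694060925504514829934560658717672448)) [0, 7, 6, 1] (-14208, 29184) (-13824, 29184) (-14208, 29568) :=
    (CovZ.subM 497323236409786642155382248146820840100456150797358351264430256220142799526609656217600 (by decide +kernel)
         (CovZ.n1 (-14016, 29376) (by decide +kernel)
          (CovZ.n2 (-14016, 29184) (by decide +kernel)
           (CovZ.n2 (-14112, 29280) (by decide +kernel)
            (CovZ.badM (by decide +kernel))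
            (CovZ.n1 (-14112, 29184) (by decide +kernel)
             (CovZ.n2 (-14160, 29232) (by decide +kernel)
              (CovZ.n2 (-14112, 29232) (by decide +kernel)
               (CovZ.n2 (-14136, 29208) (by decide +kernel)
                (CovZ.n2 (-14136, 29232) (by decide +kernel)
                 (CovZ.leaf K2_ok TB_l47710 _)
                 (CovZ.leaf K2_ok TB_l47711 _))
                (CovZ.n1 (-14112, 29208) (by decide +kernel)
                 (CovZ.leaf K2_ok TB_l47712 _)
                 (CovZ.leaf K2_ok TB_l47713 _)))
               (CovZ.n1 (-14136, 29256) (by decide +kernel)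
                (CovZ.badM (by decide +kernel))
                (CovZ.n1 (-14136, 29232) (by decide +kernel)
                 (CovZ.leaf K2_ok TB_l47714 _)
                 (CovZ.badM (by decide +kernel)))))
              (CovZ.n1 (-14160, 29184) (by decide +kernel)
               (CovZ.n2 (-14184, 29208) (by decide +kernel)
                (CovZ.leaf K2_ok TB_l47715 _)
                (CovZ.n1 (-14184, 29184) (by decide +kernel)
                 (CovZ.leaf K2_ok TB_l47716 _)
                 (CovZ.leaf K2_ok TB_l47717 _)))
               (CovZ.n1 (-14136, 29208) (by decide +kernel)
                (CovZ.n2 (-14136, 29184) (by decide +kernel)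
                 (CovZ.leaf K2_ok TB_l47718 _)
                 (CovZ.leaf K2_ok TB_l47719 _))
                (CovZ.n1 (-14160, 29208) (by decide +kernel)
                 (CovZ.leaf K2_ok TB_l47720 _)
                 (CovZ.leaf K2_ok TB_l47721 _)))))
             (CovZ.badM (by decide +kernel))))
           (CovZ.badM (by decide +kernel)))
          (CovZ.n1 (-14208, 29376) (by decide +kernel)
           (CovZ.n2 (-14112, 29472) (by decide +kernel)
            (CovZ.n2 (-14112, 29376) (by decide +kernel)
             (CovZ.n2 (-14160, 29424) (by decide +kernel)
              (CovZ.badM (by decide +kernel))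
              (CovZ.n1 (-14160, 29376) (by decide +kernel)
               (CovZ.n2 (-14184, 29400) (by decide +kernel)
                (CovZ.badM (by decide +kernel))
                (CovZ.n1 (-14184, 29376) (by decide +kernel)
                 (CovZ.leaf K2_ok TB_l47722 _)
                 (CovZ.badM (by decide +kernel))))
               (CovZ.badM (by decide +kernel))))
             (CovZ.badM (by decide +kernel)))
            (CovZ.n1 (-14208, 29472) (by decide +kernel)
             (CovZ.badM (by decide +kernel))
             (CovZ.n1 (-14160, 29424) (by decide +kernel)
              (CovZ.n2 (-14208, 29424) (by decide +kernel)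
               (CovZ.n2 (-14184, 29448) (by decide +kernel)
                (CovZ.n2 (-14184, 29424) (by decide +kernel)
                 (CovZ.leaf K2_ok TB_l47723 _)
                 (CovZ.badM (by decide +kernel)))
                (CovZ.n1 (-14208, 29448) (by decide +kernel)
                 (CovZ.badM (by decide +kernel))
                 (CovZ.leaf K2_ok TB_l47724 _)))
               (CovZ.n1 (-14184, 29400) (by decide +kernel)
                (CovZ.n2 (-14208, 29400) (by decide +kernel)
                 (CovZ.leaf K2_ok TB_l47725 _)
                 (CovZ.leaf K2_ok TB_l47726 _))
                (CovZ.n1 (-14184, 29424) (by decide +kernel)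
                 (CovZ.badM (by decide +kernel))
                 (CovZ.leaf K2_ok TB_l47727 _))))
              (CovZ.n1 (-14160, 29472) (by decide +kernel)
               (CovZ.badM (by decide +kernel))
               (CovZ.n1 (-14184, 29448) (by decide +kernel)
                (CovZ.badM (by decide +kernel))
                (CovZ.badM (by decide +kernel)))))))
           (CovZ.n1 (-14112, 29280) (by decide +kernel)
            (CovZ.n2 (-14208, 29280) (by decide +kernel)
             (CovZ.n2 (-14160, 29328) (by decide +kernel)
              (CovZ.n2 (-14160, 29280) (by decide +kernel)
               (CovZ.n2 (-14184, 29304) (by decide +kernel)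
                (CovZ.n2 (-14160, 29304) (by decide +kernel)
                 (CovZ.leaf K2_ok TB_l47728 _)
                 (CovZ.leaf K2_ok TB_l47729 _))
                (CovZ.n1 (-14184, 29280) (by decide +kernel)
                 (CovZ.leaf K2_ok TB_l47730 _)
                 (CovZ.leaf K2_ok TB_l47731 _)))
               (CovZ.badM (by decide +kernel)))
              (CovZ.n1 (-14208, 29328) (by decide +kernel)
               (CovZ.n2 (-14184, 29352) (by decide +kernel)
                (CovZ.n2 (-14184, 29328) (by decide +kernel)
                 (CovZ.leaf K2_ok TB_l47732 _)
                 (CovZ.leaf K2_ok TB_l47733 _))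
                (CovZ.n1 (-14208, 29352) (by decide +kernel)
                 (CovZ.leaf K2_ok TB_l47734 _)
                 (CovZ.leaf K2_ok TB_l47735 _)))
               (CovZ.n1 (-14184, 29304) (by decide +kernel)
                (CovZ.leaf K2_ok TB_l47736 _)
                (CovZ.n1 (-14184, 29328) (by decide +kernel)
                 (CovZ.leaf K2_ok TB_l47737 _)
                 (CovZ.leaf K2_ok TB_l47738 _)))))
             (CovZ.n1 (-14160, 29232) (by decide +kernel)
              (CovZ.n2 (-14208, 29232) (by decide +kernel)
               (CovZ.n2 (-14184, 29256) (by decide +kernel)
                (CovZ.n2 (-14184, 29232) (by decide +kernel)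
                 (CovZ.leaf K2_ok TB_l47739 _)
                 (CovZ.leaf K2_ok TB_l47740 _))
                (CovZ.leaf K2_ok TB_l47741 _))
               (CovZ.n1 (-14184, 29208) (by decide +kernel)
                (CovZ.leaf K2_ok TB_l47742 _)
                (CovZ.n1 (-14184, 29232) (by decide +kernel)
                 (CovZ.leaf K2_ok TB_l47743 _)
                 (CovZ.leaf K2_ok TB_l47744 _))))
              (CovZ.n1 (-14160, 29280) (by decide +kernel)
               (CovZ.n2 (-14136, 29256) (by decide +kernel)
                (CovZ.n2 (-14160, 29256) (by decide +kernel)
                 (CovZ.leaf K2_ok TB_l47745 _)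
                 (CovZ.leaf K2_ok TB_l47746 _))
                (CovZ.badM (by decide +kernel)))
               (CovZ.n1 (-14184, 29256) (by decide +kernel)
                (CovZ.n2 (-14184, 29280) (by decide +kernel)
                 (CovZ.leaf K2_ok TB_l47747 _)
                 (CovZ.leaf K2_ok TB_l47748 _))
                (CovZ.leaf K2_ok TB_l47749 _)))))
            (CovZ.n1 (-14112, 29376) (by decide +kernel)
             (CovZ.badM (by decide +kernel))
             (CovZ.n1 (-14160, 29328) (by decide +kernel)
              (CovZ.n2 (-14160, 29376) (by decide +kernel)
               (CovZ.badM (by decide +kernel))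
               (CovZ.n1 (-14184, 29352) (by decide +kernel)
                (CovZ.n2 (-14184, 29376) (by decide +kernel)
                 (CovZ.badM (by decide +kernel))
                 (CovZ.leaf K2_ok TB_l47750 _))
                (CovZ.badM (by decide +kernel))))
              (CovZ.badM (by decide +kernel))))))))

theorem TB_u518 : CovZ TB_M (toL (selN TB_LN 293567822846729155523718374169563001332561389271064965729980221258260417694060925504514829934560658717672448)) [0, 7, 6, 1] (-14592, 29952) (-14592, 29568) (-14208, 29568) :=
    (CovZ.n2 (-14400, 29760) (by decide +kernel)
         (CovZ.n2 (-14400, 29568) (by decide +kernel)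
          (CovZ.n2 (-14496, 29664) (by decide +kernel)
           (CovZ.subM 497323236409786642155382248146820840100456150798028282174305853829530979193136202383360 (by decide +kernel)
            (CovZ.n2 (-14400, 29664) (by decide +kernel)
             (CovZ.n2 (-14448, 29616) (by decide +kernel)
              (CovZ.n2 (-14448, 29664) (by decide +kernel)
               (CovZ.n2 (-14424, 29640) (by decide +kernel)
                (CovZ.leaf K2_ok TB_l47751 _)
                (CovZ.leaf K2_ok TB_l47752 _))
               (CovZ.leaf K2_ok TB_l47753 _))
              (CovZ.n1 (-14400, 29616) (by decide +kernel)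
               (CovZ.n2 (-14424, 29592) (by decide +kernel)
                (CovZ.leaf K2_ok TB_l47754 _)
                (CovZ.leaf K2_ok TB_l47755 _))
               (CovZ.n1 (-14424, 29640) (by decide +kernel)
                (CovZ.leaf K2_ok TB_l47756 _)
                (CovZ.leaf K2_ok TB_l47757 _))))
             (CovZ.n1 (-14448, 29712) (by decide +kernel)
              (CovZ.n2 (-14400, 29712) (by decide +kernel)
               (CovZ.n2 (-14424, 29688) (by decide +kernel)
                (CovZ.leaf K2_ok TB_l47758 _)
                (CovZ.leaf K2_ok TB_l47759 _))
               (CovZ.n1 (-14424, 29736) (by decide +kernel)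
                (CovZ.leaf K2_ok TB_l47760 _)
                (CovZ.leaf K2_ok TB_l47761 _)))
              (CovZ.n1 (-14448, 29664) (by decide +kernel)
               (CovZ.leaf K2_ok TB_l47762 _)
               (CovZ.n1 (-14424, 29688) (by decide +kernel)
                (CovZ.n2 (-14424, 29664) (by decide +kernel)
                 (CovZ.leaf K2_ok TB_l47763 _)
                 (CovZ.leaf K2_ok TB_l47764 _))
                (CovZ.leaf K2_ok TB_l47765 _))))))
           (CovZ.n1 (-14496, 29568) (by decide +kernel)
            (CovZ.n2 (-14544, 29616) (by decide +kernel)
             (CovZ.n2 (-14496, 29616) (by decide +kernel)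
              (CovZ.leaf K2_ok TB_l47766 _)
              (CovZ.leaf K2_ok TB_l47767 _))
             (CovZ.n1 (-14544, 29568) (by decide +kernel)
              (CovZ.leaf K2_ok TB_l36456 _)
              (CovZ.leaf K2_ok TB_l47768 _)))
            (CovZ.subM 497323236409786642155382248146820840100456150798028282174305853829530979193136202383360 (by decide +kernel)
             (CovZ.n1 (-14448, 29616) (by decide +kernel)
              (CovZ.n2 (-14448, 29568) (by decide +kernel)
               (CovZ.leaf K2_ok TB_l47769 _)
               (CovZ.n1 (-14424, 29592) (by decide +kernel)
                (CovZ.leaf K2_ok TB_l47770 _)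
                (CovZ.leaf K2_ok TB_l47771 _)))
              (CovZ.n1 (-14496, 29616) (by decide +kernel)
               (CovZ.n2 (-14472, 29640) (by decide +kernel)
                (CovZ.leaf K2_ok TB_l47772 _)
                (CovZ.leaf K2_ok TB_l47773 _))
               (CovZ.leaf K2_ok TB_l47774 _))))))
          (CovZ.subM 497323236409786642155382248146820840100456150798028282174305853820086246227396911955968 (by decide +kernel)
           (CovZ.n1 (-14304, 29664) (by decide +kernel)
            (CovZ.n2 (-14304, 29568) (by decide +kernel)
             (CovZ.n2 (-14352, 29616) (by decide +kernel)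
              (CovZ.n2 (-14304, 29616) (by decide +kernel)
               (CovZ.n2 (-14328, 29592) (by decide +kernel)
                (CovZ.n2 (-14328, 29616) (by decide +kernel)
                 (CovZ.leaf K2_ok TB_l47775 _)
                 (CovZ.leaf K2_ok TB_l47776 _))
                (CovZ.n1 (-14304, 29592) (by decide +kernel)
                 (CovZ.leaf K2_ok TB_l47777 _)
                 (CovZ.leaf K2_ok TB_l47778 _)))
               (CovZ.n1 (-14328, 29640) (by decide +kernel)
                (CovZ.n2 (-14304, 29640) (by decide +kernel)
                 (CovZ.leaf K2_ok TB_l47779 _)
                 (CovZ.leaf K2_ok TB_l47780 _))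
                (CovZ.n1 (-14328, 29616) (by decide +kernel)
                 (CovZ.leaf K2_ok TB_l47781 _)
                 (CovZ.leaf K2_ok TB_l47782 _))))
              (CovZ.n1 (-14352, 29568) (by decide +kernel)
               (CovZ.n2 (-14376, 29592) (by decide +kernel)
                (CovZ.leaf K2_ok TB_l47783 _)
                (CovZ.leaf K2_ok TB_l47784 _))
               (CovZ.n1 (-14328, 29592) (by decide +kernel)
                (CovZ.n2 (-14328, 29568) (by decide +kernel)
                 (CovZ.leaf K2_ok TB_l47785 _)
                 (CovZ.leaf K2_ok TB_l47786 _))
                (CovZ.leaf K2_ok TB_l47787 _))))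
             (CovZ.n1 (-14256, 29616) (by decide +kernel)
              (CovZ.n2 (-14256, 29568) (by decide +kernel)
               (CovZ.n2 (-14280, 29592) (by decide +kernel)
                (CovZ.badM (by decide +kernel))
                (CovZ.n1 (-14280, 29568) (by decide +kernel)
                 (CovZ.leaf K2_ok TB_l47788 _)
                 (CovZ.leaf K2_ok TB_l47789 _)))
               (CovZ.badM (by decide +kernel)))
              (CovZ.n1 (-14304, 29616) (by decide +kernel)
               (CovZ.n2 (-14280, 29640) (by decide +kernel)
                (CovZ.n2 (-14280, 29616) (by decide +kernel)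
                 (CovZ.leaf K2_ok TB_l47790 _)
                 (CovZ.badM (by decide +kernel)))
                (CovZ.n1 (-14304, 29640) (by decide +kernel)
                 (CovZ.badM (by decide +kernel))
                 (CovZ.leaf K2_ok TB_l47791 _)))
               (CovZ.n1 (-14280, 29592) (by decide +kernel)
                (CovZ.n2 (-14304, 29592) (by decide +kernel)
                 (CovZ.leaf K2_ok TB_l47792 _)
                 (CovZ.leaf K2_ok TB_l47793 _))
                (CovZ.n1 (-14280, 29616) (by decide +kernel)
                 (CovZ.badM (by decide +kernel))
                 (CovZ.leaf K2_ok TB_l47794 _))))))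
            (CovZ.n1 (-14400, 29664) (by decide +kernel)
             (CovZ.n2 (-14352, 29712) (by decide +kernel)
              (CovZ.n2 (-14352, 29664) (by decide +kernel)
               (CovZ.n2 (-14376, 29688) (by decide +kernel)
                (CovZ.leaf K2_ok TB_l47795 _)
                (CovZ.n1 (-14376, 29664) (by decide +kernel)
                 (CovZ.leaf K2_ok TB_l47796 _)
                 (CovZ.leaf K2_ok TB_l47797 _)))
               (CovZ.n1 (-14328, 29688) (by decide +kernel)
                (CovZ.n2 (-14328, 29664) (by decide +kernel)
                 (CovZ.leaf K2_ok TB_l47798 _)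
                 (CovZ.leaf K2_ok TB_l47799 _))
                (CovZ.n1 (-14352, 29688) (by decide +kernel)
                 (CovZ.leaf K2_ok TB_l47800 _)
                 (CovZ.leaf K2_ok TB_l47801 _))))
              (CovZ.n1 (-14400, 29712) (by decide +kernel)
               (CovZ.n2 (-14376, 29736) (by decide +kernel)
                (CovZ.n2 (-14376, 29712) (by decide +kernel)
                 (CovZ.leaf K2_ok TB_l47802 _)
                 (CovZ.leaf K2_ok TB_l47803 _))
                (CovZ.leaf K2_ok TB_l47804 _))
               (CovZ.n1 (-14376, 29688) (by decide +kernel)
                (CovZ.leaf K2_ok TB_l47805 _)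
                (CovZ.n1 (-14376, 29712) (by decide +kernel)
                 (CovZ.leaf K2_ok TB_l47806 _)
                 (CovZ.leaf K2_ok TB_l47807 _)))))
             (CovZ.n1 (-14352, 29616) (by decide +kernel)
              (CovZ.n2 (-14400, 29616) (by decide +kernel)
               (CovZ.n2 (-14376, 29640) (by decide +kernel)
                (CovZ.n2 (-14376, 29616) (by decide +kernel)
                 (CovZ.leaf K2_ok TB_l47808 _)
                 (CovZ.leaf K2_ok TB_l47809 _))
                (CovZ.leaf K2_ok TB_l47810 _))
               (CovZ.n1 (-14376, 29592) (by decide +kernel)
                (CovZ.leaf K2_ok TB_l47811 _)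
                (CovZ.leaf K2_ok TB_l47812 _)))
              (CovZ.n1 (-14352, 29664) (by decide +kernel)
               (CovZ.n2 (-14328, 29640) (by decide +kernel)
                (CovZ.n2 (-14352, 29640) (by decide +kernel)
                 (CovZ.leaf K2_ok TB_l47813 _)
                 (CovZ.leaf K2_ok TB_l47814 _))
                (CovZ.n1 (-14328, 29664) (by decide +kernel)
                 (CovZ.leaf K2_ok TB_l47815 _)
                 (CovZ.leaf K2_ok TB_l47816 _)))
               (CovZ.n1 (-14376, 29640) (by decide +kernel)
                (CovZ.leaf K2_ok TB_l47817 _)
                (CovZ.leaf K2_ok TB_l47818 _))))))))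
         (CovZ.n1 (-14592, 29760) (by decide +kernel)
          (CovZ.n2 (-14496, 29856) (by decide +kernel)
           (CovZ.n2 (-14496, 29760) (by decide +kernel)
            (CovZ.n2 (-14544, 29808) (by decide +kernel)
             (CovZ.n2 (-14496, 29808) (by decide +kernel)
              (CovZ.leaf K2_ok TB_l47819 _)
              (CovZ.leaf K2_ok TB_l47820 _))
             (CovZ.n1 (-14544, 29760) (by decide +kernel)
              (CovZ.leaf K2_ok TB_l36457 _)
              (CovZ.leaf K2_ok TB_l47821 _)))
            (CovZ.subM 497323236409786642155382248146820840100456150798028282174305853829530979193136202383360 (by decide +kernel)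
             (CovZ.n1 (-14448, 29808) (by decide +kernel)
              (CovZ.n2 (-14448, 29760) (by decide +kernel)
               (CovZ.n2 (-14472, 29784) (by decide +kernel)
                (CovZ.leaf K2_ok TB_l47822 _)
                (CovZ.leaf K2_ok TB_l47823 _))
               (CovZ.n1 (-14424, 29784) (by decide +kernel)
                (CovZ.leaf K2_ok TB_l47824 _)
                (CovZ.leaf K2_ok TB_l47825 _)))
              (CovZ.n1 (-14496, 29808) (by decide +kernel)
               (CovZ.n2 (-14472, 29832) (by decide +kernel)
                (CovZ.leaf K2_ok TB_l47826 _)
                (CovZ.leaf K2_ok TB_l47827 _))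
               (CovZ.n1 (-14472, 29784) (by decide +kernel)
                (CovZ.leaf K2_ok TB_l47828 _)
                (CovZ.leaf K2_ok TB_l47829 _))))))
           (CovZ.n1 (-14592, 29856) (by decide +kernel)
            (CovZ.n2 (-14544, 29904) (by decide +kernel)
             (CovZ.n2 (-14544, 29856) (by decide +kernel)
              (CovZ.leaf K2_ok TB_l36458 _)
              (CovZ.leaf K2_ok TB_l47830 _))
             (CovZ.n1 (-14592, 29904) (by decide +kernel)
              (CovZ.n2 (-14568, 29928) (by decide +kernel)
               (CovZ.leaf K2_ok TB_l36459 _)
               (CovZ.leaf K2_ok TB_l36460 _))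
              (CovZ.n1 (-14568, 29880) (by decide +kernel)
               (CovZ.leaf K2_ok TB_l36461 _)
               (CovZ.leaf K2_ok TB_l36462 _))))
            (CovZ.n1 (-14544, 29808) (by decide +kernel)
             (CovZ.n2 (-14592, 29808) (by decide +kernel)
              (CovZ.leaf K2_ok TB_l36463 _)
              (CovZ.leaf K2_ok TB_l36464 _))
             (CovZ.n1 (-14544, 29856) (by decide +kernel)
              (CovZ.leaf K2_ok TB_l47831 _)
              (CovZ.leaf K2_ok TB_l36465 _)))))
          (CovZ.n1 (-14496, 29664) (by decide +kernel)
           (CovZ.n2 (-14592, 29664) (by decide +kernel)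
            (CovZ.n2 (-14544, 29712) (by decide +kernel)
             (CovZ.n2 (-14544, 29664) (by decide +kernel)
              (CovZ.leaf K2_ok TB_l36466 _)
              (CovZ.leaf K2_ok TB_l47832 _))
             (CovZ.n1 (-14592, 29712) (by decide +kernel)
              (CovZ.leaf K2_ok TB_l36467 _)
              (CovZ.leaf K2_ok TB_l36468 _)))
            (CovZ.n1 (-14544, 29616) (by decide +kernel)
             (CovZ.leaf K2_ok TB_l36469 _)
             (CovZ.n1 (-14544, 29664) (by decide +kernel)
              (CovZ.leaf K2_ok TB_l47833 _)
              (CovZ.leaf K2_ok TB_l36470 _))))
           (CovZ.n1 (-14496, 29760) (by decide +kernel)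
            (CovZ.subM 497323236409786642155382248146820840100456150798028282174305853829530979193136202383360 (by decide +kernel)
             (CovZ.n2 (-14448, 29712) (by decide +kernel)
              (CovZ.n2 (-14496, 29712) (by decide +kernel)
               (CovZ.n2 (-14472, 29736) (by decide +kernel)
                (CovZ.leaf K2_ok TB_l47834 _)
                (CovZ.leaf K2_ok TB_l47835 _))
               (CovZ.leaf K2_ok TB_l47836 _))
              (CovZ.n1 (-14448, 29760) (by decide +kernel)
               (CovZ.n2 (-14424, 29736) (by decide +kernel)
                (CovZ.leaf K2_ok TB_l47837 _)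
                (CovZ.leaf K2_ok TB_l47838 _))
               (CovZ.n1 (-14472, 29736) (by decide +kernel)
                (CovZ.leaf K2_ok TB_l47839 _)
                (CovZ.leaf K2_ok TB_l47840 _)))))
            (CovZ.n1 (-14544, 29712) (by decide +kernel)
             (CovZ.n2 (-14544, 29760) (by decide +kernel)
              (CovZ.leaf K2_ok TB_l47841 _)
              (CovZ.leaf K2_ok TB_l36471 _))
             (CovZ.n1 (-14496, 29712) (by decide +kernel)
              (CovZ.leaf K2_ok TB_l47842 _)
              (CovZ.leaf K2_ok TB_l47843 _)))))))

theorem TB_u519 : CovZ TB_M (toL (selN TB_LN 293567822846729155523718374169563001332561389271064965729980221258260417694060925504514829934560658717672448)) [0, 7, 6, 1] (-14592, 29568) (-14592, 29184) (-14208, 29568) :=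
    (CovZ.n1 (-14400, 29376) (by decide +kernel)
         (CovZ.n2 (-14592, 29376) (by decide +kernel)
          (CovZ.n2 (-14496, 29472) (by decide +kernel)
           (CovZ.n2 (-14496, 29376) (by decide +kernel)
            (CovZ.n2 (-14544, 29424) (by decide +kernel)
             (CovZ.leaf K2_ok TB_l47844 _)
             (CovZ.n1 (-14544, 29376) (by decide +kernel)
              (CovZ.leaf K2_ok TB_l36472 _)
              (CovZ.leaf K2_ok TB_l47845 _)))
            (CovZ.n1 (-14448, 29424) (by decide +kernel)
             (CovZ.n2 (-14448, 29376) (by decide +kernel)
              (CovZ.leaf K2_ok TB_l47846 _)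
              (CovZ.leaf K2_ok TB_l47847 _))
             (CovZ.leaf K2_ok TB_l47848 _)))
           (CovZ.n1 (-14592, 29472) (by decide +kernel)
            (CovZ.n2 (-14544, 29520) (by decide +kernel)
             (CovZ.n2 (-14544, 29472) (by decide +kernel)
              (CovZ.leaf K2_ok TB_l36473 _)
              (CovZ.leaf K2_ok TB_l47849 _))
             (CovZ.leaf K2_ok TB_l36474 _))
            (CovZ.n1 (-14544, 29424) (by decide +kernel)
             (CovZ.leaf K2_ok TB_l36475 _)
             (CovZ.n1 (-14544, 29472) (by decide +kernel)
              (CovZ.leaf K2_ok TB_l47850 _)
              (CovZ.leaf K2_ok TB_l36476 _)))))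
          (CovZ.n1 (-14496, 29280) (by decide +kernel)
           (CovZ.n2 (-14592, 29280) (by decide +kernel)
            (CovZ.n2 (-14544, 29328) (by decide +kernel)
             (CovZ.leaf K2_ok TB_l36477 _)
             (CovZ.leaf K2_ok TB_l36478 _))
            (CovZ.n1 (-14544, 29232) (by decide +kernel)
             (CovZ.leaf K2_ok TB_l36479 _)
             (CovZ.n1 (-14544, 29280) (by decide +kernel)
              (CovZ.leaf K2_ok TB_l47851 _)
              (CovZ.leaf K2_ok TB_l36480 _))))
           (CovZ.n1 (-14496, 29376) (by decide +kernel)
            (CovZ.n2 (-14448, 29328) (by decide +kernel)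
             (CovZ.leaf K2_ok TB_l47852 _)
             (CovZ.n1 (-14448, 29376) (by decide +kernel)
              (CovZ.leaf K2_ok TB_l47853 _)
              (CovZ.leaf K2_ok TB_l47854 _)))
            (CovZ.n1 (-14544, 29328) (by decide +kernel)
             (CovZ.leaf K2_ok TB_l36481 _)
             (CovZ.leaf K2_ok TB_l47855 _)))))
         (CovZ.n1 (-14400, 29568) (by decide +kernel)
          (CovZ.subM 497323236409786642155382248146820840100456150798038915998272133147069548741473192640512 (by decide +kernel)
           (CovZ.n2 (-14304, 29472) (by decide +kernel)
            (CovZ.n2 (-14400, 29472) (by decide +kernel)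
             (CovZ.n2 (-14352, 29520) (by decide +kernel)
              (CovZ.n2 (-14352, 29472) (by decide +kernel)
               (CovZ.n2 (-14376, 29496) (by decide +kernel)
                (CovZ.leaf K2_ok TB_l47856 _)
                (CovZ.leaf K2_ok TB_l47857 _))
               (CovZ.n1 (-14328, 29496) (by decide +kernel)
                (CovZ.leaf K2_ok TB_l47858 _)
                (CovZ.leaf K2_ok TB_l47859 _)))
              (CovZ.n1 (-14400, 29520) (by decide +kernel)
               (CovZ.n2 (-14376, 29544) (by decide +kernel)
                (CovZ.n2 (-14376, 29520) (by decide +kernel)
                 (CovZ.leaf K2_ok TB_l47860 _)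
                 (CovZ.leaf K2_ok TB_l47861 _))
                (CovZ.leaf K2_ok TB_l47862 _))
               (CovZ.n1 (-14376, 29496) (by decide +kernel)
                (CovZ.leaf K2_ok TB_l47863 _)
                (CovZ.leaf K2_ok TB_l47864 _))))
             (CovZ.n1 (-14352, 29424) (by decide +kernel)
              (CovZ.n2 (-14400, 29424) (by decide +kernel)
               (CovZ.leaf K2_ok TB_l47865 _)
               (CovZ.leaf K2_ok TB_l47866 _))
              (CovZ.n1 (-14352, 29472) (by decide +kernel)
               (CovZ.n2 (-14328, 29448) (by decide +kernel)
                (CovZ.leaf K2_ok TB_l47867 _)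
                (CovZ.leaf K2_ok TB_l47868 _))
               (CovZ.leaf K2_ok TB_l47869 _))))
            (CovZ.n1 (-14304, 29568) (by decide +kernel)
             (CovZ.n2 (-14256, 29520) (by decide +kernel)
              (CovZ.n2 (-14304, 29520) (by decide +kernel)
               (CovZ.n2 (-14280, 29544) (by decide +kernel)
                (CovZ.n2 (-14280, 29520) (by decide +kernel)
                 (CovZ.leaf K2_ok TB_l47870 _)
                 (CovZ.leaf K2_ok TB_l47871 _))
                (CovZ.n1 (-14304, 29544) (by decide +kernel)
                 (CovZ.leaf K2_ok TB_l47872 _)
                 (CovZ.leaf K2_ok TB_l47873 _)))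
               (CovZ.n1 (-14280, 29496) (by decide +kernel)
                (CovZ.leaf K2_ok TB_l47874 _)
                (CovZ.n1 (-14280, 29520) (by decide +kernel)
                 (CovZ.leaf K2_ok TB_l47875 _)
                 (CovZ.leaf K2_ok TB_l47876 _))))
              (CovZ.n1 (-14256, 29568) (by decide +kernel)
               (CovZ.badM (by decide +kernel))
               (CovZ.n1 (-14280, 29544) (by decide +kernel)
                (CovZ.n2 (-14280, 29568) (by decide +kernel)
                 (CovZ.leaf K2_ok TB_l47877 _)
                 (CovZ.leaf K2_ok TB_l47878 _))
                (CovZ.n1 (-14256, 29544) (by decide +kernel)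
                 (CovZ.leaf K2_ok TB_l47879 _)
                 (CovZ.leaf K2_ok TB_l47880 _)))))
             (CovZ.n1 (-14352, 29520) (by decide +kernel)
              (CovZ.n2 (-14352, 29568) (by decide +kernel)
               (CovZ.n2 (-14328, 29544) (by decide +kernel)
                (CovZ.leaf K2_ok TB_l47881 _)
                (CovZ.n1 (-14328, 29568) (by decide +kernel)
                 (CovZ.leaf K2_ok TB_l47882 _)
                 (CovZ.leaf K2_ok TB_l47883 _)))
               (CovZ.n1 (-14376, 29544) (by decide +kernel)
                (CovZ.leaf K2_ok TB_l47884 _)
                (CovZ.leaf K2_ok TB_l47885 _)))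
              (CovZ.n1 (-14304, 29520) (by decide +kernel)
               (CovZ.n2 (-14328, 29496) (by decide +kernel)
                (CovZ.leaf K2_ok TB_l47886 _)
                (CovZ.leaf K2_ok TB_l47887 _))
               (CovZ.n1 (-14328, 29544) (by decide +kernel)
                (CovZ.leaf K2_ok TB_l47888 _)
                (CovZ.n1 (-14328, 29520) (by decide +kernel)
                 (CovZ.leaf K2_ok TB_l47889 _)
                 (CovZ.leaf K2_ok TB_l47890 _))))))))
          (CovZ.n1 (-14496, 29472) (by decide +kernel)
           (CovZ.n2 (-14496, 29568) (by decide +kernel)
            (CovZ.subM 497323236409786642155382248146820840100456150798028282174305853829530979193136202383360 (by decide +kernel)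
             (CovZ.n2 (-14448, 29520) (by decide +kernel)
              (CovZ.n2 (-14496, 29520) (by decide +kernel)
               (CovZ.leaf K2_ok TB_l47891 _)
               (CovZ.leaf K2_ok TB_l47892 _))
              (CovZ.n1 (-14448, 29568) (by decide +kernel)
               (CovZ.leaf K2_ok TB_l47893 _)
               (CovZ.leaf K2_ok TB_l47894 _))))
            (CovZ.n1 (-14544, 29520) (by decide +kernel)
             (CovZ.n2 (-14544, 29568) (by decide +kernel)
              (CovZ.leaf K2_ok TB_l47895 _)
              (CovZ.leaf K2_ok TB_l36482 _))
             (CovZ.leaf K2_ok TB_l47896 _)))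
           (CovZ.subM 497323236409786642155382248146820840100456150798038915998272133156514281707212483067904 (by decide +kernel)
            (CovZ.n1 (-14400, 29472) (by decide +kernel)
             (CovZ.n2 (-14448, 29424) (by decide +kernel)
              (CovZ.n2 (-14448, 29472) (by decide +kernel)
               (CovZ.leaf K2_ok TB_l47897 _)
               (CovZ.leaf K2_ok TB_l47898 _))
              (CovZ.n1 (-14400, 29424) (by decide +kernel)
               (CovZ.leaf K2_ok TB_l47899 _)
               (CovZ.leaf K2_ok TB_l47900 _)))
             (CovZ.n1 (-14448, 29520) (by decide +kernel)
              (CovZ.n2 (-14400, 29520) (by decide +kernel)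
               (CovZ.leaf K2_ok TB_l47901 _)
               (CovZ.n1 (-14424, 29544) (by decide +kernel)
                (CovZ.leaf K2_ok TB_l47902 _)
                (CovZ.leaf K2_ok TB_l47903 _)))
              (CovZ.n1 (-14448, 29472) (by decide +kernel)
               (CovZ.leaf K2_ok TB_l47904 _)
               (CovZ.leaf K2_ok TB_l47905 _))))))))

theorem TB_u520 : CovZ TB_M (toL (selN TB_LN 195874407622960323963722587719003260573162483841588599958690217972277060244168550502204945972609966841577836918206336154578884170319721922626561)) [0, 7, 6, 1] (-15360, 30720) (-15360, 29952) (-14592, 29952) :=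
    (CovZ.subM 293567822846729155523718374169563001332561389271064965729980221258260407724850957117646963712725526914335745 (by decide +kernel)
      (CovZ.n2 (-14976, 30336) (by decide +kernel)
       (CovZ.n2 (-14976, 29952) (by decide +kernel)
        (CovZ.n2 (-15168, 30144) (by decide +kernel)
         (CovZ.n2 (-14976, 30144) (by decide +kernel)
          (CovZ.n2 (-15072, 30048) (by decide +kernel)
           (CovZ.n2 (-15072, 30144) (by decide +kernel)
            (CovZ.leaf K2_ok TB_l36483 _)
            (CovZ.leaf K2_ok TB_l36484 _))
           (CovZ.n1 (-14976, 30048) (by decide +kernel)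
            (CovZ.leaf K2_ok TB_l36485 _)
            (CovZ.leaf K2_ok TB_l36486 _)))
          (CovZ.n1 (-15072, 30240) (by decide +kernel)
           (CovZ.n2 (-14976, 30240) (by decide +kernel)
            (CovZ.leaf K2_ok TB_l36487 _)
            (CovZ.leaf K2_ok TB_l36488 _))
           (CovZ.n1 (-15072, 30144) (by decide +kernel)
            (CovZ.leaf K2_ok TB_l36489 _)
            (CovZ.leaf K2_ok TB_l36490 _))))
         (CovZ.n1 (-15168, 29952) (by decide +kernel)
          (CovZ.n2 (-15264, 30048) (by decide +kernel)
           (CovZ.leaf K2_ok TB_l36491 _)
           (CovZ.n1 (-15264, 29952) (by decide +kernel)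
            (CovZ.leaf K2_ok TB_l36492 _)
            (CovZ.leaf K2_ok TB_l36493 _)))
          (CovZ.n1 (-15072, 30048) (by decide +kernel)
           (CovZ.n2 (-15072, 29952) (by decide +kernel)
            (CovZ.leaf K2_ok TB_l36494 _)
            (CovZ.leaf K2_ok TB_l36495 _))
           (CovZ.n1 (-15168, 30048) (by decide +kernel)
            (CovZ.leaf K2_ok TB_l36496 _)
            (CovZ.leaf K2_ok TB_l36497 _)))))
        (CovZ.n1 (-14784, 30144) (by decide +kernel)
         (CovZ.n2 (-14784, 29952) (by decide +kernel)
          (CovZ.n2 (-14880, 30048) (by decide +kernel)
           (CovZ.subM 293567822846729155523718374169563001332561389271064965729980221258260407060236959225187846632046582436987904 (by decide +kernel)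
            (CovZ.n2 (-14784, 30048) (by decide +kernel)
             (CovZ.n2 (-14832, 30000) (by decide +kernel)
              (CovZ.leaf K2_ok TB_l36498 _)
              (CovZ.leaf K2_ok TB_l36499 _))
             (CovZ.n1 (-14832, 30096) (by decide +kernel)
              (CovZ.leaf K2_ok TB_l36500 _)
              (CovZ.leaf K2_ok TB_l36501 _))))
           (CovZ.n1 (-14880, 29952) (by decide +kernel)
            (CovZ.leaf K2_ok TB_l36502 _)
            (CovZ.n1 (-14832, 30000) (by decide +kernel)
             (CovZ.n2 (-14832, 29952) (by decide +kernel)
              (CovZ.leaf K2_ok TB_l36503 _)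
              (CovZ.leaf K2_ok TB_l36504 _))
             (CovZ.leaf K2_ok TB_l36505 _))))
          (CovZ.subM 293567822846729155523718374169563001332561389271064965729980221258260407060236959225187846632046582436987904 (by decide +kernel)
           (CovZ.n1 (-14688, 30048) (by decide +kernel)
            (CovZ.n2 (-14688, 29952) (by decide +kernel)
             (CovZ.n2 (-14736, 30000) (by decide +kernel)
              (CovZ.leaf K2_ok TB_l36506 _)
              (CovZ.n1 (-14736, 29952) (by decide +kernel)
               (CovZ.leaf K2_ok TB_l36507 _)
               (CovZ.leaf K2_ok TB_l36508 _)))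
             (CovZ.n1 (-14640, 30000) (by decide +kernel)
              (CovZ.n2 (-14640, 29952) (by decide +kernel)
               (CovZ.leaf K2_ok TB_l36509 _)
               (CovZ.n1 (-14616, 29976) (by decide +kernel)
                (CovZ.leaf K2_ok TB_l36510 _)
                (CovZ.leaf K2_ok TB_l36511 _)))
              (CovZ.n1 (-14688, 30000) (by decide +kernel)
               (CovZ.leaf K2_ok TB_l36512 _)
               (CovZ.leaf K2_ok TB_l36513 _))))
            (CovZ.n1 (-14784, 30048) (by decide +kernel)
             (CovZ.n2 (-14736, 30096) (by decide +kernel)
              (CovZ.n2 (-14736, 30048) (by decide +kernel)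
               (CovZ.leaf K2_ok TB_l36514 _)
               (CovZ.leaf K2_ok TB_l36515 _))
              (CovZ.leaf K2_ok TB_l36516 _))
             (CovZ.n1 (-14736, 30000) (by decide +kernel)
              (CovZ.leaf K2_ok TB_l36517 _)
              (CovZ.n1 (-14736, 30048) (by decide +kernel)
               (CovZ.leaf K2_ok TB_l36518 _)
               (CovZ.leaf K2_ok TB_l36519 _)))))))
         (CovZ.n1 (-14976, 30144) (by decide +kernel)
          (CovZ.subM 293567822846729155523718374169563001332561389271064965729980221258259727160117115240718856334735249040737280 (by decide +kernel)
           (CovZ.n2 (-14880, 30240) (by decide +kernel)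
            (CovZ.n2 (-14880, 30144) (by decide +kernel)
             (CovZ.n2 (-14928, 30192) (by decide +kernel)
              (CovZ.leaf K2_ok TB_l36520 _)
              (CovZ.leaf K2_ok TB_l36521 _))
             (CovZ.n1 (-14832, 30192) (by decide +kernel)
              (CovZ.leaf K2_ok TB_l36522 _)
              (CovZ.leaf K2_ok TB_l36523 _)))
            (CovZ.n1 (-14976, 30240) (by decide +kernel)
             (CovZ.n2 (-14928, 30288) (by decide +kernel)
              (CovZ.leaf K2_ok TB_l36524 _)
              (CovZ.leaf K2_ok TB_l36525 _))
             (CovZ.n1 (-14928, 30192) (by decide +kernel)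
              (CovZ.leaf K2_ok TB_l36526 _)
              (CovZ.leaf K2_ok TB_l36527 _)))))
          (CovZ.n1 (-14880, 30048) (by decide +kernel)
           (CovZ.n2 (-14976, 30048) (by decide +kernel)
            (CovZ.n2 (-14928, 30096) (by decide +kernel)
             (CovZ.leaf K2_ok TB_l36528 _)
             (CovZ.leaf K2_ok TB_l36529 _))
            (CovZ.leaf K2_ok TB_l36530 _))
           (CovZ.n1 (-14880, 30144) (by decide +kernel)
            (CovZ.n2 (-14832, 30096) (by decide +kernel)
             (CovZ.leaf K2_ok TB_l36531 _)
             (CovZ.leaf K2_ok TB_l36532 _))
            (CovZ.n1 (-14928, 30096) (by decide +kernel)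
             (CovZ.leaf K2_ok TB_l36533 _)
             (CovZ.leaf K2_ok TB_l36534 _)))))))
       (CovZ.n1 (-15360, 30336) (by decide +kernel)
        (CovZ.n2 (-15168, 30528) (by decide +kernel)
         (CovZ.n2 (-15168, 30336) (by decide +kernel)
          (CovZ.n2 (-15264, 30432) (by decide +kernel)
           (CovZ.leaf K2_ok TB_l36535 _)
           (CovZ.n1 (-15264, 30336) (by decide +kernel)
            (CovZ.leaf K2_ok TB_l36536 _)
            (CovZ.leaf K2_ok TB_l36537 _)))
          (CovZ.subM 293567822846729155523718374169563001332561389271064965729980221258259727160117115240718856334735249040737280 (by decide +kernel)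
           (CovZ.n1 (-15072, 30432) (by decide +kernel)
            (CovZ.n2 (-15072, 30336) (by decide +kernel)
             (CovZ.leaf K2_ok TB_l36538 _)
             (CovZ.leaf K2_ok TB_l36539 _))
            (CovZ.n1 (-15168, 30432) (by decide +kernel)
             (CovZ.leaf K2_ok TB_l36540 _)
             (CovZ.leaf K2_ok TB_l36541 _)))))
         (CovZ.n1 (-15360, 30528) (by decide +kernel)
          (CovZ.n2 (-15264, 30624) (by decide +kernel)
           (CovZ.n2 (-15264, 30528) (by decide +kernel)
            (CovZ.leaf K2_ok TB_l36542 _)
            (CovZ.leaf K2_ok TB_l36543 _))
           (CovZ.leaf K2_ok TB_l36544 _))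
          (CovZ.n1 (-15264, 30432) (by decide +kernel)
           (CovZ.leaf K2_ok TB_l36545 _)
           (CovZ.n1 (-15264, 30528) (by decide +kernel)
            (CovZ.leaf K2_ok TB_l36546 _)
            (CovZ.leaf K2_ok TB_l36547 _)))))
        (CovZ.n1 (-15168, 30144) (by decide +kernel)
         (CovZ.n2 (-15360, 30144) (by decide +kernel)
          (CovZ.n2 (-15264, 30240) (by decide +kernel)
           (CovZ.n2 (-15264, 30144) (by decide +kernel)
            (CovZ.leaf K2_ok TB_l36548 _)
            (CovZ.leaf K2_ok TB_l36549 _))
           (CovZ.leaf K2_ok TB_l36550 _))
          (CovZ.n1 (-15264, 30048) (by decide +kernel)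
           (CovZ.leaf K2_ok TB_l36551 _)
           (CovZ.n1 (-15264, 30144) (by decide +kernel)
            (CovZ.leaf K2_ok TB_l36552 _)
            (CovZ.leaf K2_ok TB_l36553 _))))
         (CovZ.n1 (-15168, 30336) (by decide +kernel)
          (CovZ.n2 (-15072, 30240) (by decide +kernel)
           (CovZ.n2 (-15168, 30240) (by decide +kernel)
            (CovZ.leaf K2_ok TB_l36554 _)
            (CovZ.leaf K2_ok TB_l36555 _))
           (CovZ.n1 (-15072, 30336) (by decide +kernel)
            (CovZ.leaf K2_ok TB_l36556 _)
            (CovZ.leaf K2_ok TB_l36557 _)))
          (CovZ.n1 (-15264, 30240) (by decide +kernel)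
           (CovZ.n2 (-15264, 30336) (by decide +kernel)
            (CovZ.leaf K2_ok TB_l36558 _)
            (CovZ.leaf K2_ok TB_l36559 _))
           (CovZ.n1 (-15168, 30240) (by decide +kernel)
            (CovZ.leaf K2_ok TB_l36560 _)
            (CovZ.leaf K2_ok TB_l36561 _))))))))

theorem TB_u521 : CovZ TB_M (toL (selN TB_LN 195874407622960323963722587719003260573162483841588599958690217972277060244168550502204945972609966841577836918206336154578884170319721922626561)) [0, 7, 6, 1] (-15360, 29952) (-15360, 29184) (-14592, 29952) :=
    (CovZ.n1 (-14976, 29568) (by decide +kernel)
      (CovZ.n2 (-15360, 29568) (by decide +kernel)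
       (CovZ.subM 293567822846729155523718374169563001332561389271064965729980221258260407724850957117646963730739925423817729 (by decide +kernel)
        (CovZ.n2 (-15168, 29760) (by decide +kernel)
         (CovZ.n2 (-15168, 29568) (by decide +kernel)
          (CovZ.n2 (-15264, 29664) (by decide +kernel)
           (CovZ.leaf K2_ok TB_l36562 _)
           (CovZ.leaf K2_ok TB_l36563 _))
          (CovZ.n1 (-15072, 29664) (by decide +kernel)
           (CovZ.n2 (-15072, 29568) (by decide +kernel)
            (CovZ.leaf K2_ok TB_l36564 _)
            (CovZ.leaf K2_ok TB_l36565 _))
           (CovZ.leaf K2_ok TB_l36566 _)))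
         (CovZ.n1 (-15360, 29760) (by decide +kernel)
          (CovZ.n2 (-15264, 29856) (by decide +kernel)
           (CovZ.n2 (-15264, 29760) (by decide +kernel)
            (CovZ.leaf K2_ok TB_l36567 _)
            (CovZ.leaf K2_ok TB_l36568 _))
           (CovZ.leaf K2_ok TB_l36569 _))
          (CovZ.n1 (-15264, 29664) (by decide +kernel)
           (CovZ.leaf K2_ok TB_l36570 _)
           (CovZ.leaf K2_ok TB_l36571 _)))))
       (CovZ.n1 (-15168, 29376) (by decide +kernel)
        (CovZ.subM 293567822846729155523718374169563114410773535087662059061020268805044750752910481559660340048821622386263041 (by decide +kernel)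
         (CovZ.n2 (-15360, 29376) (by decide +kernel)
          (CovZ.n2 (-15264, 29472) (by decide +kernel)
           (CovZ.leaf K2_ok TB_l36572 _)
           (CovZ.leaf K2_ok TB_l36573 _))
          (CovZ.n1 (-15264, 29280) (by decide +kernel)
           (CovZ.leaf K2_ok TB_l36574 _)
           (CovZ.leaf K2_ok TB_l36575 _))))
        (CovZ.subM 293567822846729155523718374169563001332561389271064965729980221258260418358674923396973947033254001704502273 (by decide +kernel)
         (CovZ.n1 (-15168, 29568) (by decide +kernel)
          (CovZ.n2 (-15072, 29472) (by decide +kernel)
           (CovZ.leaf K2_ok TB_l36576 _)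
           (CovZ.n1 (-15072, 29568) (by decide +kernel)
            (CovZ.leaf K2_ok TB_l36577 _)
            (CovZ.leaf K2_ok TB_l36578 _)))
          (CovZ.n1 (-15264, 29472) (by decide +kernel)
           (CovZ.leaf K2_ok TB_l36579 _)
           (CovZ.leaf K2_ok TB_l36580 _))))))
      (CovZ.subM 293567822846729155523718374169563001332561389271064965729980221258260407724850957117646963712725526914335745 (by decide +kernel)
       (CovZ.n1 (-14976, 29952) (by decide +kernel)
        (CovZ.n2 (-14784, 29760) (by decide +kernel)
         (CovZ.n2 (-14976, 29760) (by decide +kernel)
          (CovZ.n2 (-14880, 29856) (by decide +kernel)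
           (CovZ.n2 (-14880, 29760) (by decide +kernel)
            (CovZ.leaf K2_ok TB_l36581 _)
            (CovZ.leaf K2_ok TB_l36582 _))
           (CovZ.n1 (-14976, 29856) (by decide +kernel)
            (CovZ.leaf K2_ok TB_l36583 _)
            (CovZ.leaf K2_ok TB_l36584 _)))
          (CovZ.n1 (-14880, 29664) (by decide +kernel)
           (CovZ.n2 (-14976, 29664) (by decide +kernel)
            (CovZ.leaf K2_ok TB_l36585 _)
            (CovZ.leaf K2_ok TB_l36586 _))
           (CovZ.n1 (-14880, 29760) (by decide +kernel)
            (CovZ.leaf K2_ok TB_l36587 _)
            (CovZ.leaf K2_ok TB_l36588 _))))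
         (CovZ.n1 (-14784, 29952) (by decide +kernel)
          (CovZ.subM 293567822846729155523718374169563001332561389271064965729980221258260407060236959225187846632046582436987904 (by decide +kernel)
           (CovZ.n2 (-14688, 29856) (by decide +kernel)
            (CovZ.n2 (-14784, 29856) (by decide +kernel)
             (CovZ.n2 (-14736, 29904) (by decide +kernel)
              (CovZ.n2 (-14736, 29856) (by decide +kernel)
               (CovZ.leaf K2_ok TB_l36589 _)
               (CovZ.leaf K2_ok TB_l36590 _))
              (CovZ.leaf K2_ok TB_l36591 _))
             (CovZ.n1 (-14736, 29808) (by decide +kernel)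
              (CovZ.leaf K2_ok TB_l36592 _)
              (CovZ.leaf K2_ok TB_l36593 _)))
            (CovZ.n1 (-14688, 29952) (by decide +kernel)
             (CovZ.n2 (-14640, 29904) (by decide +kernel)
              (CovZ.leaf K2_ok TB_l36594 _)
              (CovZ.n1 (-14640, 29952) (by decide +kernel)
               (CovZ.leaf K2_ok TB_l36595 _)
               (CovZ.leaf K2_ok TB_l36596 _)))
             (CovZ.n1 (-14736, 29904) (by decide +kernel)
              (CovZ.n2 (-14736, 29952) (by decide +kernel)
               (CovZ.leaf K2_ok TB_l36597 _)
               (CovZ.leaf K2_ok TB_l36598 _))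
              (CovZ.leaf K2_ok TB_l36599 _)))))
          (CovZ.n1 (-14880, 29856) (by decide +kernel)
           (CovZ.n2 (-14880, 29952) (by decide +kernel)
            (CovZ.n2 (-14832, 29904) (by decide +kernel)
             (CovZ.leaf K2_ok TB_l36600 _)
             (CovZ.leaf K2_ok TB_l36601 _))
            (CovZ.leaf K2_ok TB_l36602 _))
           (CovZ.subM 293567822846729155523718374169563001332561389271064965729980221258260407060236959225187846632046582436987904 (by decide +kernel)
            (CovZ.n1 (-14784, 29856) (by decide +kernel)
             (CovZ.n2 (-14832, 29808) (by decide +kernel)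
              (CovZ.leaf K2_ok TB_l36603 _)
              (CovZ.leaf K2_ok TB_l36604 _))
             (CovZ.n1 (-14832, 29904) (by decide +kernel)
              (CovZ.leaf K2_ok TB_l36605 _)
              (CovZ.leaf K2_ok TB_l36606 _)))))))
        (CovZ.n1 (-15168, 29760) (by decide +kernel)
         (CovZ.n2 (-15168, 29952) (by decide +kernel)
          (CovZ.n2 (-15072, 29856) (by decide +kernel)
           (CovZ.leaf K2_ok TB_l36607 _)
           (CovZ.n1 (-15072, 29952) (by decide +kernel)
            (CovZ.leaf K2_ok TB_l36608 _)
            (CovZ.leaf K2_ok TB_l36609 _)))
          (CovZ.n1 (-15264, 29856) (by decide +kernel)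
           (CovZ.n2 (-15264, 29952) (by decide +kernel)
            (CovZ.leaf K2_ok TB_l36610 _)
            (CovZ.leaf K2_ok TB_l36611 _))
           (CovZ.leaf K2_ok TB_l36612 _)))
         (CovZ.n1 (-14976, 29760) (by decide +kernel)
          (CovZ.n2 (-15072, 29664) (by decide +kernel)
           (CovZ.n2 (-15072, 29760) (by decide +kernel)
            (CovZ.leaf K2_ok TB_l36613 _)
            (CovZ.leaf K2_ok TB_l36614 _))
           (CovZ.n1 (-14976, 29664) (by decide +kernel)
            (CovZ.leaf K2_ok TB_l36615 _)
            (CovZ.leaf K2_ok TB_l36616 _)))
          (CovZ.n1 (-15072, 29856) (by decide +kernel)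
           (CovZ.n2 (-14976, 29856) (by decide +kernel)
            (CovZ.leaf K2_ok TB_l36617 _)
            (CovZ.leaf K2_ok TB_l36618 _))
           (CovZ.n1 (-15072, 29760) (by decide +kernel)
            (CovZ.leaf K2_ok TB_l36619 _)
            (CovZ.leaf K2_ok TB_l36620 _))))))))

theorem TB_u522 : CovZ TB_M (toL (selN TB_LN 293567822846729155523718374169563001332561389271064965729980221258260407060236959225187846632046582436987904)) [0, 7, 6, 1] (-14592, 30720) (-14592, 30336) (-14208, 30336) :=
    (CovZ.n2 (-14400, 30528) (by decide +kernel)
          (CovZ.n2 (-14400, 30336) (by decide +kernel)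
           (CovZ.n2 (-14496, 30432) (by decide +kernel)
            (CovZ.subM 9444732965739290427392 (by decide +kernel)
             (CovZ.n2 (-14400, 30432) (by decide +kernel)
              (CovZ.n2 (-14448, 30384) (by decide +kernel)
               (CovZ.n2 (-14448, 30432) (by decide +kernel)
                (CovZ.badM (by decide +kernel))
                (CovZ.n1 (-14472, 30408) (by decide +kernel)
                 (CovZ.leaf K2_ok TB_l47906 _)
                 (CovZ.leaf K2_ok TB_l47907 _)))
               (CovZ.badM (by decide +kernel)))
              (CovZ.n1 (-14448, 30480) (by decide +kernel)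
               (CovZ.badM (by decide +kernel))
               (CovZ.n1 (-14448, 30432) (by decide +kernel)
                (CovZ.n2 (-14472, 30456) (by decide +kernel)
                 (CovZ.leaf K2_ok TB_l47908 _)
                 (CovZ.leaf K2_ok TB_l47909 _))
                (CovZ.badM (by decide +kernel))))))
            (CovZ.n1 (-14496, 30336) (by decide +kernel)
             (CovZ.n2 (-14544, 30384) (by decide +kernel)
              (CovZ.subM 9444732965739290427392 (by decide +kernel)
               (CovZ.n2 (-14496, 30384) (by decide +kernel)
                (CovZ.n2 (-14520, 30360) (by decide +kernel)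
                 (CovZ.leaf K2_ok TB_l47910 _)
                 (CovZ.leaf K2_ok TB_l47911 _))
                (CovZ.n1 (-14520, 30408) (by decide +kernel)
                 (CovZ.leaf K2_ok TB_l47912 _)
                 (CovZ.leaf K2_ok TB_l47913 _))))
              (CovZ.n1 (-14544, 30336) (by decide +kernel)
               (CovZ.leaf K2_ok TB_l36621 _)
               (CovZ.leaf K2_ok TB_l47914 _)))
             (CovZ.subM 9444732965739290427392 (by decide +kernel)
              (CovZ.n1 (-14448, 30384) (by decide +kernel)
               (CovZ.n2 (-14448, 30336) (by decide +kernel)
                (CovZ.n2 (-14472, 30360) (by decide +kernel)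
                 (CovZ.leaf K2_ok TB_l47915 _)
                 (CovZ.leaf K2_ok TB_l47916 _))
                (CovZ.badM (by decide +kernel)))
               (CovZ.n1 (-14496, 30384) (by decide +kernel)
                (CovZ.n2 (-14472, 30408) (by decide +kernel)
                 (CovZ.leaf K2_ok TB_l47917 _)
                 (CovZ.leaf K2_ok TB_l47918 _))
                (CovZ.n1 (-14472, 30360) (by decide +kernel)
                 (CovZ.leaf K2_ok TB_l47919 _)
                 (CovZ.n1 (-14472, 30384) (by decide +kernel)
                  (CovZ.leaf K2_ok TB_l47920 _)
                  (CovZ.leaf K2_ok TB_l47921 _))))))))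
           (CovZ.badM (by decide +kernel)))
          (CovZ.n1 (-14592, 30528) (by decide +kernel)
           (CovZ.n2 (-14496, 30624) (by decide +kernel)
            (CovZ.n2 (-14496, 30528) (by decide +kernel)
             (CovZ.n2 (-14544, 30576) (by decide +kernel)
              (CovZ.n2 (-14496, 30576) (by decide +kernel)
               (CovZ.leaf K2_ok TB_l47922 _)
               (CovZ.leaf K2_ok TB_l47923 _))
              (CovZ.n1 (-14544, 30528) (by decide +kernel)
               (CovZ.leaf K2_ok TB_l36622 _)
               (CovZ.leaf K2_ok TB_l47924 _)))
             (CovZ.subM 9444732965739290427392 (by decide +kernel)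
              (CovZ.n1 (-14448, 30576) (by decide +kernel)
               (CovZ.n2 (-14448, 30528) (by decide +kernel)
                (CovZ.leaf K2_ok TB_l47925 _)
                (CovZ.badM (by decide +kernel)))
               (CovZ.n1 (-14496, 30576) (by decide +kernel)
                (CovZ.leaf K2_ok TB_l47926 _)
                (CovZ.leaf K2_ok TB_l47927 _)))))
            (CovZ.n1 (-14592, 30624) (by decide +kernel)
             (CovZ.n2 (-14544, 30672) (by decide +kernel)
              (CovZ.n2 (-14544, 30624) (by decide +kernel)
               (CovZ.leaf K2_ok TB_l36623 _)
               (CovZ.leaf K2_ok TB_l47928 _))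
              (CovZ.leaf K2_ok TB_l36624 _))
             (CovZ.n1 (-14544, 30576) (by decide +kernel)
              (CovZ.n2 (-14592, 30576) (by decide +kernel)
               (CovZ.leaf K2_ok TB_l36625 _)
               (CovZ.leaf K2_ok TB_l36626 _))
              (CovZ.n1 (-14544, 30624) (by decide +kernel)
               (CovZ.leaf K2_ok TB_l47929 _)
               (CovZ.leaf K2_ok TB_l36627 _)))))
           (CovZ.n1 (-14496, 30432) (by decide +kernel)
            (CovZ.n2 (-14592, 30432) (by decide +kernel)
             (CovZ.n2 (-14544, 30480) (by decide +kernel)
              (CovZ.n2 (-14544, 30432) (by decide +kernel)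
               (CovZ.leaf K2_ok TB_l36628 _)
               (CovZ.leaf K2_ok TB_l47930 _))
              (CovZ.n1 (-14592, 30480) (by decide +kernel)
               (CovZ.leaf K2_ok TB_l36629 _)
               (CovZ.leaf K2_ok TB_l36630 _)))
             (CovZ.n1 (-14544, 30384) (by decide +kernel)
              (CovZ.n2 (-14592, 30384) (by decide +kernel)
               (CovZ.leaf K2_ok TB_l36631 _)
               (CovZ.leaf K2_ok TB_l36632 _))
              (CovZ.n1 (-14544, 30432) (by decide +kernel)
               (CovZ.n2 (-14520, 30408) (by decide +kernel)
                (CovZ.leaf K2_ok TB_l47931 _)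
                (CovZ.leaf K2_ok TB_l47932 _))
               (CovZ.leaf K2_ok TB_l36633 _))))
            (CovZ.n1 (-14496, 30528) (by decide +kernel)
             (CovZ.subM 9444732965739290427392 (by decide +kernel)
              (CovZ.n2 (-14448, 30480) (by decide +kernel)
               (CovZ.n2 (-14496, 30480) (by decide +kernel)
                (CovZ.leaf K2_ok TB_l47933 _)
                (CovZ.n1 (-14472, 30456) (by decide +kernel)
                 (CovZ.leaf K2_ok TB_l47934 _)
                 (CovZ.leaf K2_ok TB_l47935 _)))
               (CovZ.n1 (-14448, 30528) (by decide +kernel)
                (CovZ.badM (by decide +kernel))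
                (CovZ.n1 (-14472, 30504) (by decide +kernel)
                 (CovZ.leaf K2_ok TB_l47936 _)
                 (CovZ.leaf K2_ok TB_l47937 _)))))
             (CovZ.n1 (-14544, 30480) (by decide +kernel)
              (CovZ.n2 (-14544, 30528) (by decide +kernel)
               (CovZ.leaf K2_ok TB_l47938 _)
               (CovZ.leaf K2_ok TB_l36634 _))
              (CovZ.n1 (-14496, 30480) (by decide +kernel)
               (CovZ.leaf K2_ok TB_l47939 _)
               (CovZ.leaf K2_ok TB_l47940 _)))))))

theorem TB_u523 : CovZ TB_M (toL (selN TB_LN 293567822846729155523718374169563001332561389271064965729980221258260407060236959225187846632046582436987904)) [0, 7, 6, 1] (-14592, 30336) (-14592, 29952) (-14208, 30336) :=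
    (CovZ.n1 (-14400, 30144) (by decide +kernel)
          (CovZ.n2 (-14592, 30144) (by decide +kernel)
           (CovZ.n2 (-14496, 30240) (by decide +kernel)
            (CovZ.n2 (-14496, 30144) (by decide +kernel)
             (CovZ.n2 (-14544, 30192) (by decide +kernel)
              (CovZ.subM 497323236409786642155382248146820840100456150797347717440463976902604229978272665960448 (by decide +kernel)
               (CovZ.n2 (-14496, 30192) (by decide +kernel)
                (CovZ.n2 (-14520, 30168) (by decide +kernel)
                 (CovZ.n2 (-14520, 30192) (by decide +kernel)
                  (CovZ.leaf K2_ok TB_l47941 _)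
                  (CovZ.leaf K2_ok TB_l47942 _))
                 (CovZ.leaf K2_ok TB_l47943 _))
                (CovZ.n1 (-14520, 30216) (by decide +kernel)
                 (CovZ.leaf K2_ok TB_l47944 _)
                 (CovZ.leaf K2_ok TB_l47945 _))))
              (CovZ.n1 (-14544, 30144) (by decide +kernel)
               (CovZ.n2 (-14568, 30168) (by decide +kernel)
                (CovZ.leaf K2_ok TB_l47946 _)
                (CovZ.leaf K2_ok TB_l36635 _))
               (CovZ.n1 (-14520, 30168) (by decide +kernel)
                (CovZ.leaf K2_ok TB_l47947 _)
                (CovZ.leaf K2_ok TB_l47948 _))))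
             (CovZ.subM 9444732965739290427392 (by decide +kernel)
              (CovZ.n1 (-14448, 30192) (by decide +kernel)
               (CovZ.n2 (-14448, 30144) (by decide +kernel)
                (CovZ.n2 (-14472, 30168) (by decide +kernel)
                 (CovZ.leaf K2_ok TB_l47949 _)
                 (CovZ.n1 (-14472, 30144) (by decide +kernel)
                  (CovZ.leaf K2_ok TB_l47950 _)
                  (CovZ.leaf K2_ok TB_l47951 _)))
                (CovZ.badM (by decide +kernel)))
               (CovZ.n1 (-14496, 30192) (by decide +kernel)
                (CovZ.n2 (-14472, 30216) (by decide +kernel)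
                 (CovZ.n2 (-14472, 30192) (by decide +kernel)
                  (CovZ.leaf K2_ok TB_l47952 _)
                  (CovZ.leaf K2_ok TB_l47953 _))
                 (CovZ.leaf K2_ok TB_l47954 _))
                (CovZ.n1 (-14472, 30168) (by decide +kernel)
                 (CovZ.leaf K2_ok TB_l47955 _)
                 (CovZ.n1 (-14472, 30192) (by decide +kernel)
                  (CovZ.leaf K2_ok TB_l47956 _)
                  (CovZ.leaf K2_ok TB_l47957 _)))))))
            (CovZ.n1 (-14592, 30240) (by decide +kernel)
             (CovZ.n2 (-14544, 30288) (by decide +kernel)
              (CovZ.n2 (-14544, 30240) (by decide +kernel)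
               (CovZ.leaf K2_ok TB_l36636 _)
               (CovZ.n1 (-14520, 30264) (by decide +kernel)
                (CovZ.leaf K2_ok TB_l47958 _)
                (CovZ.leaf K2_ok TB_l47959 _)))
              (CovZ.n1 (-14592, 30288) (by decide +kernel)
               (CovZ.leaf K2_ok TB_l36637 _)
               (CovZ.leaf K2_ok TB_l36638 _)))
             (CovZ.n1 (-14544, 30192) (by decide +kernel)
              (CovZ.n2 (-14592, 30192) (by decide +kernel)
               (CovZ.n2 (-14568, 30216) (by decide +kernel)
                (CovZ.leaf K2_ok TB_l36639 _)
                (CovZ.leaf K2_ok TB_l36640 _))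
               (CovZ.n1 (-14568, 30168) (by decide +kernel)
                (CovZ.leaf K2_ok TB_l36641 _)
                (CovZ.leaf K2_ok TB_l36642 _)))
              (CovZ.n1 (-14544, 30240) (by decide +kernel)
               (CovZ.n2 (-14520, 30216) (by decide +kernel)
                (CovZ.leaf K2_ok TB_l47960 _)
                (CovZ.n1 (-14520, 30240) (by decide +kernel)
                 (CovZ.leaf K2_ok TB_l47961 _)
                 (CovZ.leaf K2_ok TB_l47962 _)))
               (CovZ.n1 (-14568, 30216) (by decide +kernel)
                (CovZ.leaf K2_ok TB_l36643 _)
                (CovZ.leaf K2_ok TB_l47963 _))))))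
           (CovZ.n1 (-14496, 30048) (by decide +kernel)
            (CovZ.n2 (-14592, 30048) (by decide +kernel)
             (CovZ.n2 (-14544, 30096) (by decide +kernel)
              (CovZ.n2 (-14544, 30048) (by decide +kernel)
               (CovZ.n2 (-14568, 30072) (by decide +kernel)
                (CovZ.leaf K2_ok TB_l47964 _)
                (CovZ.leaf K2_ok TB_l36644 _))
               (CovZ.n1 (-14520, 30072) (by decide +kernel)
                (CovZ.n2 (-14520, 30048) (by decide +kernel)
                 (CovZ.leaf K2_ok TB_l47965 _)
                 (CovZ.leaf K2_ok TB_l47966 _))
                (CovZ.leaf K2_ok TB_l47967 _)))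
              (CovZ.n1 (-14592, 30096) (by decide +kernel)
               (CovZ.n2 (-14568, 30120) (by decide +kernel)
                (CovZ.leaf K2_ok TB_l36645 _)
                (CovZ.leaf K2_ok TB_l36646 _))
               (CovZ.n1 (-14568, 30072) (by decide +kernel)
                (CovZ.leaf K2_ok TB_l36647 _)
                (CovZ.leaf K2_ok TB_l36648 _))))
             (CovZ.n1 (-14544, 30000) (by decide +kernel)
              (CovZ.n2 (-14592, 30000) (by decide +kernel)
               (CovZ.n2 (-14568, 30024) (by decide +kernel)
                (CovZ.leaf K2_ok TB_l36649 _)
                (CovZ.leaf K2_ok TB_l36650 _))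
               (CovZ.leaf K2_ok TB_l36651 _))
              (CovZ.n1 (-14544, 30048) (by decide +kernel)
               (CovZ.n2 (-14520, 30024) (by decide +kernel)
                (CovZ.leaf K2_ok TB_l47968 _)
                (CovZ.n1 (-14520, 30048) (by decide +kernel)
                 (CovZ.leaf K2_ok TB_l47969 _)
                 (CovZ.leaf K2_ok TB_l47970 _)))
               (CovZ.n1 (-14568, 30024) (by decide +kernel)
                (CovZ.leaf K2_ok TB_l36652 _)
                (CovZ.leaf K2_ok TB_l47971 _)))))
            (CovZ.n1 (-14496, 30144) (by decide +kernel)
             (CovZ.subM 497323236409786642155382248146820840100456150797347717440463976902604229978272665960448 (by decide +kernel)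
              (CovZ.n2 (-14448, 30096) (by decide +kernel)
               (CovZ.n2 (-14496, 30096) (by decide +kernel)
                (CovZ.n2 (-14472, 30120) (by decide +kernel)
                 (CovZ.n2 (-14472, 30096) (by decide +kernel)
                  (CovZ.leaf K2_ok TB_l47972 _)
                  (CovZ.leaf K2_ok TB_l47973 _))
                 (CovZ.leaf K2_ok TB_l47974 _))
                (CovZ.n1 (-14472, 30072) (by decide +kernel)
                 (CovZ.leaf K2_ok TB_l47975 _)
                 (CovZ.n1 (-14472, 30096) (by decide +kernel)
                  (CovZ.leaf K2_ok TB_l47976 _)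
                  (CovZ.leaf K2_ok TB_l47977 _))))
               (CovZ.n1 (-14448, 30144) (by decide +kernel)
                (CovZ.badM (by decide +kernel))
                (CovZ.n1 (-14472, 30120) (by decide +kernel)
                 (CovZ.n2 (-14472, 30144) (by decide +kernel)
                  (CovZ.leaf K2_ok TB_l47978 _)
                  (CovZ.leaf K2_ok TB_l47979 _))
                 (CovZ.leaf K2_ok TB_l47980 _)))))
             (CovZ.n1 (-14544, 30096) (by decide +kernel)
              (CovZ.n2 (-14544, 30144) (by decide +kernel)
               (CovZ.n2 (-14520, 30120) (by decide +kernel)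
                (CovZ.leaf K2_ok TB_l47981 _)
                (CovZ.n1 (-14520, 30144) (by decide +kernel)
                 (CovZ.leaf K2_ok TB_l47982 _)
                 (CovZ.leaf K2_ok TB_l47983 _)))
               (CovZ.n1 (-14568, 30120) (by decide +kernel)
                (CovZ.leaf K2_ok TB_l36653 _)
                (CovZ.leaf K2_ok TB_l47984 _)))
              (CovZ.subM 497323236409786642155382248146820840100456150797347717440463976902604229978272665960448 (by decide +kernel)
               (CovZ.n1 (-14496, 30096) (by decide +kernel)
                (CovZ.n2 (-14520, 30072) (by decide +kernel)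
                 (CovZ.n2 (-14520, 30096) (by decide +kernel)
                  (CovZ.leaf K2_ok TB_l47985 _)
                  (CovZ.leaf K2_ok TB_l47986 _))
                 (CovZ.leaf K2_ok TB_l47987 _))
                (CovZ.n1 (-14520, 30120) (by decide +kernel)
                 (CovZ.leaf K2_ok TB_l47988 _)
                 (CovZ.n1 (-14520, 30096) (by decide +kernel)
                  (CovZ.leaf K2_ok TB_l47989 _)
                  (CovZ.leaf K2_ok TB_l47990 _)))))))))
          (CovZ.n1 (-14400, 30336) (by decide +kernel)
           (CovZ.badM (by decide +kernel))
           (CovZ.n1 (-14496, 30240) (by decide +kernel)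
            (CovZ.n2 (-14496, 30336) (by decide +kernel)
             (CovZ.subM 9444732965739290427392 (by decide +kernel)
              (CovZ.n2 (-14448, 30288) (by decide +kernel)
               (CovZ.n2 (-14496, 30288) (by decide +kernel)
                (CovZ.n2 (-14472, 30312) (by decide +kernel)
                 (CovZ.leaf K2_ok TB_l47991 _)
                 (CovZ.leaf K2_ok TB_l47992 _))
                (CovZ.n1 (-14472, 30264) (by decide +kernel)
                 (CovZ.leaf K2_ok TB_l47993 _)
                 (CovZ.n1 (-14472, 30288) (by decide +kernel)
                  (CovZ.leaf K2_ok TB_l47994 _)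
                  (CovZ.leaf K2_ok TB_l47995 _))))
               (CovZ.n1 (-14448, 30336) (by decide +kernel)
                (CovZ.badM (by decide +kernel))
                (CovZ.n1 (-14472, 30312) (by decide +kernel)
                 (CovZ.n2 (-14472, 30336) (by decide +kernel)
                  (CovZ.leaf K2_ok TB_l47996 _)
                  (CovZ.leaf K2_ok TB_l47997 _))
                 (CovZ.leaf K2_ok TB_l47998 _)))))
             (CovZ.n1 (-14544, 30288) (by decide +kernel)
              (CovZ.n2 (-14544, 30336) (by decide +kernel)
               (CovZ.n2 (-14520, 30312) (by decide +kernel)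
                (CovZ.leaf K2_ok TB_l47999 _)
                (CovZ.leaf K2_ok TB_l48000 _))
               (CovZ.leaf K2_ok TB_l36654 _))
              (CovZ.subM 9444732965739290427392 (by decide +kernel)
               (CovZ.n1 (-14496, 30288) (by decide +kernel)
                (CovZ.n2 (-14520, 30264) (by decide +kernel)
                 (CovZ.leaf K2_ok TB_l48001 _)
                 (CovZ.leaf K2_ok TB_l48002 _))
                (CovZ.n1 (-14520, 30312) (by decide +kernel)
                 (CovZ.leaf K2_ok TB_l48003 _)
                 (CovZ.leaf K2_ok TB_l48004 _))))))
            (CovZ.subM 9444732965739290427392 (by decide +kernel)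
             (CovZ.n1 (-14400, 30240) (by decide +kernel)
              (CovZ.n2 (-14448, 30192) (by decide +kernel)
               (CovZ.n2 (-14448, 30240) (by decide +kernel)
                (CovZ.badM (by decide +kernel))
                (CovZ.n1 (-14472, 30216) (by decide +kernel)
                 (CovZ.n2 (-14472, 30240) (by decide +kernel)
                  (CovZ.leaf K2_ok TB_l48005 _)
                  (CovZ.leaf K2_ok TB_l48006 _))
                 (CovZ.leaf K2_ok TB_l48007 _)))
               (CovZ.badM (by decide +kernel)))
              (CovZ.n1 (-14448, 30288) (by decide +kernel)
               (CovZ.badM (by decide +kernel))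
               (CovZ.n1 (-14448, 30240) (by decide +kernel)
                (CovZ.n2 (-14472, 30264) (by decide +kernel)
                 (CovZ.leaf K2_ok TB_l48008 _)
                 (CovZ.n1 (-14472, 30240) (by decide +kernel)
                  (CovZ.leaf K2_ok TB_l48009 _)
                  (CovZ.leaf K2_ok TB_l48010 _)))
                (CovZ.badM (by decide +kernel)))))))))

theorem TB_u524 : CovZ TB_M (toL (selN TB_LN 293567822846729155523718374169563001332561389271064965729980221258260407724850957117646963712725526914335745)) [0, 7, 6, 1] (-15360, 30720) (-14976, 30336) (-14592, 30720) :=
    (CovZ.n2 (-14976, 30720) (by decide +kernel)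
        (CovZ.subM 293567822846729155523718374169563001332561389271064965729980221258259727160117115240718856334735249040737280 (by decide +kernel)
         (CovZ.n2 (-14784, 30528) (by decide +kernel)
          (CovZ.n2 (-14976, 30528) (by decide +kernel)
           (CovZ.n2 (-14880, 30624) (by decide +kernel)
            (CovZ.n2 (-14880, 30528) (by decide +kernel)
             (CovZ.leaf K2_ok TB_l36656 _)
             (CovZ.n1 (-14832, 30576) (by decide +kernel)
              (CovZ.leaf K2_ok TB_l36657 _)
              (CovZ.leaf K2_ok TB_l36658 _)))
            (CovZ.n1 (-14976, 30624) (by decide +kernel)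
             (CovZ.leaf K2_ok TB_l36659 _)
             (CovZ.leaf K2_ok TB_l36660 _)))
           (CovZ.n1 (-14880, 30432) (by decide +kernel)
            (CovZ.n2 (-14976, 30432) (by decide +kernel)
             (CovZ.leaf K2_ok TB_l36661 _)
             (CovZ.leaf K2_ok TB_l36662 _))
            (CovZ.n1 (-14880, 30528) (by decide +kernel)
             (CovZ.n2 (-14832, 30480) (by decide +kernel)
              (CovZ.leaf K2_ok TB_l36663 _)
              (CovZ.leaf K2_ok TB_l36664 _))
             (CovZ.leaf K2_ok TB_l36665 _))))
          (CovZ.n1 (-14784, 30720) (by decide +kernel)
           (CovZ.n2 (-14688, 30624) (by decide +kernel)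
            (CovZ.n2 (-14784, 30624) (by decide +kernel)
             (CovZ.n2 (-14736, 30672) (by decide +kernel)
              (CovZ.leaf K2_ok TB_l36666 _)
              (CovZ.leaf K2_ok TB_l36667 _))
             (CovZ.n1 (-14736, 30576) (by decide +kernel)
              (CovZ.leaf K2_ok TB_l36668 _)
              (CovZ.n1 (-14736, 30624) (by decide +kernel)
               (CovZ.leaf K2_ok TB_l36669 _)
               (CovZ.leaf K2_ok TB_l36670 _))))
            (CovZ.n1 (-14688, 30720) (by decide +kernel)
             (CovZ.n2 (-14640, 30672) (by decide +kernel)
              (CovZ.leaf K2_ok TB_l36671 _)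
              (CovZ.n1 (-14640, 30720) (by decide +kernel)
               (CovZ.leaf K2_ok TB_l36672 _)
               (CovZ.leaf K2_ok TB_l36673 _)))
             (CovZ.n1 (-14736, 30672) (by decide +kernel)
              (CovZ.leaf K2_ok TB_l36674 _)
              (CovZ.leaf K2_ok TB_l36675 _))))
           (CovZ.n1 (-14880, 30624) (by decide +kernel)
            (CovZ.n2 (-14880, 30720) (by decide +kernel)
             (CovZ.leaf K2_ok TB_l36676 _)
             (CovZ.leaf K2_ok TB_l36677 _))
            (CovZ.n1 (-14784, 30624) (by decide +kernel)
             (CovZ.n2 (-14832, 30576) (by decide +kernel)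
              (CovZ.leaf K2_ok TB_l36678 _)
              (CovZ.leaf K2_ok TB_l36679 _))
             (CovZ.leaf K2_ok TB_l36680 _))))))
        (CovZ.n1 (-15168, 30528) (by decide +kernel)
         (CovZ.n2 (-15168, 30720) (by decide +kernel)
          (CovZ.n2 (-15072, 30624) (by decide +kernel)
           (CovZ.leaf K2_ok TB_l36681 _)
           (CovZ.n1 (-15072, 30720) (by decide +kernel)
            (CovZ.leaf K2_ok TB_l36682 _)
            (CovZ.leaf K2_ok TB_l36683 _)))
          (CovZ.n1 (-15264, 30624) (by decide +kernel)
           (CovZ.n2 (-15264, 30720) (by decide +kernel)
            (CovZ.leaf K2_ok TB_l36684 _)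
            (CovZ.leaf K2_ok TB_l36685 _))
           (CovZ.leaf K2_ok TB_l36686 _)))
         (CovZ.subM 293567822846729155523718374169563001332561389271064965729980221258259727160117115240718856334735249040737280 (by decide +kernel)
          (CovZ.n1 (-14976, 30528) (by decide +kernel)
           (CovZ.n2 (-15072, 30432) (by decide +kernel)
            (CovZ.n2 (-15072, 30528) (by decide +kernel)
             (CovZ.leaf K2_ok TB_l36687 _)
             (CovZ.leaf K2_ok TB_l36688 _))
            (CovZ.n1 (-14976, 30432) (by decide +kernel)
             (CovZ.leaf K2_ok TB_l36689 _)
             (CovZ.leaf K2_ok TB_l36690 _)))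
           (CovZ.n1 (-15072, 30624) (by decide +kernel)
            (CovZ.n2 (-14976, 30624) (by decide +kernel)
             (CovZ.leaf K2_ok TB_l36691 _)
             (CovZ.leaf K2_ok TB_l36692 _))
            (CovZ.n1 (-15072, 30528) (by decide +kernel)
             (CovZ.leaf K2_ok TB_l36693 _)
             (CovZ.leaf K2_ok TB_l36694 _)))))))

end Pool.Agent.TET
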