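import Pool.Agent.Helper38_TET.TB_M
import Pool.Agent.Helper38_TET.TB_L
import Pool.Agent.Helper38_TET.TB_12
import Pool.Agent.Helper38_TET.TB_33
import Pool.Agent.Helper38_TET.TB_55
import Pool.Agent.Helper38_TET.TB_77
import Pool.Agent.Helper38_TET.TB_92
import Pool.Agent.Helper38_TET.TB_103
import Pool.Agent.Helper38_TET.TB_124
import Pool.Agent.Helper38_TET.TB_130
import Pool.Agent.Helper38_TET.TB_136
import Pool.Agent.Helper38_TET.TB_137
import Pool.Agent.Helper38_TET.TB_156
import Pool.Agent.Helper38_TET.TB_157
import Pool.Agent.Helper38_TET.TB_205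
import Pool.Agent.Helper38_TET.TB_206
import Pool.Agent.Helper38_TET.TB_237
import Pool.Agent.Helper38_TET.TB_238
import Pool.Agent.Helper38_TET.TB_239
import Pool.Agent.Helper38_TET.TB_240
import Pool.Agent.Helper38_TET.TB_241
import Pool.Agent.Helper38_TET.TB_246
import Pool.Agent.Helper38_TET.TB_297
import Pool.Agent.Helper38_TET.TB_313
import Pool.Agent.Helper38_TET.TB_314
import Pool.Agent.Helper38_TET.TB_321
import Pool.Agent.Helper38_TET.TB_331
import Pool.Agent.Helper38_TET.TB_333
import Pool.Agent.Helper38_TET.TB_U30
import Pool.Agent.Helper38_TET.TB_U31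
import Pool.Agent.Helper38_TET.TB_U32
import Pool.Agent.Helper38_TET.TB_U33
import Pool.Agent.Helper38_TET.TB_U35

/-!
# MP_c7c9bf_co: certificates, family TB
-/

set_option autoImplicit false
set_option maxRecDepth 100000

namespace Pool.Agent.TET

theorem TB_s5_19 : SqZ TB_M TB_L [0, 7, 6, 1] (-32256) (-4608) 1536 5 19 :=
  SqZ.mk (a := (-24576)) (b := (-23040)) (c := 24576) (d := 26112) (by norm_num) (by norm_num) (by norm_num) (by norm_num)
    (CovZ.topM TB_LL 631665816743553873388612858716202337208920867230133003189890455038836481108284638392599043323296923625148370437537924 (by decide +kernel) (CovZ.leaf K2_ok TB_l15581 _))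
    (CovZ.topM TB_LL 631665816743553873388612858716202337208920867230133003189890455038836481108284638392599043323296923625148370437537924 (by decide +kernel) (CovZ.leaf K2_ok TB_l15582 _))

theorem TB_s6_19 : SqZ TB_M TB_L [0, 7, 6, 1] (-32256) (-4608) 1536 6 19 :=
  SqZ.mk (a := (-23040)) (b := (-21504)) (c := 24576) (d := 26112) (by norm_num) (by norm_num) (by norm_num) (by norm_num)
    (CovZ.topM TB_LL 631665816743553873402847209822769027054881441568903534078610040645603795480090078617502485061436500767363217160962180 (by decide +kernel) (CovZ.n2 (-22272, 25344) (by decide +kernel)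
    (CovZ.n2 (-21504, 25344) (by decide +kernel)
     (CovZ.leaf K2_ok TB_l18648 _)
     (CovZ.leaf K2_ok TB_l18649 _))
    (CovZ.n1 (-22272, 24576) (by decide +kernel)
     (CovZ.leaf K2_ok TB_l18650 _)
     (CovZ.leaf K2_ok TB_l18651 _))))
    (CovZ.topM TB_LL 631665816743553873402847209822769027054881441568903534078610040645603795480090078617502485061436500767363217160962180 (by decide +kernel) (CovZ.n0 (-22272, 25344) (by decide +kernel)
    (CovZ.leaf K2_ok TB_l18652 _)
    (CovZ.n1 (-22272, 26112) (by decide +kernel)
     (CovZ.leaf K2_ok TB_l18653 _)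
     (CovZ.leaf K2_ok TB_l18654 _))))

theorem TB_s7_19 : SqZ TB_M TB_L [0, 7, 6, 1] (-32256) (-4608) 1536 7 19 :=
  SqZ.mk (a := (-21504)) (b := (-19968)) (c := 24576) (d := 26112) (by norm_num) (by norm_num) (by norm_num) (by norm_num)
    (CovZ.topM TB_LL 1233717601242206000692295627890642064334646907888123058486851122483293851432135104689694864123113951491587896803328 (by decide +kernel) (CovZ.n2 (-20736, 25344) (by decide +kernel)
    (CovZ.n2 (-19968, 25344) (by decide +kernel)
     (CovZ.n2 (-20352, 24960) (by decide +kernel)
      (CovZ.leaf K2_ok TB_l19582 _)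
      (CovZ.n1 (-19968, 24960) (by decide +kernel)
       (CovZ.leaf K2_ok TB_l19583 _)
       (CovZ.leaf K2_ok TB_l19584 _)))
     (CovZ.n1 (-20352, 25728) (by decide +kernel)
      (CovZ.n2 (-19968, 25728) (by decide +kernel)
       (CovZ.leaf K2_ok TB_l19585 _)
       (CovZ.leaf K2_ok TB_l19586 _))
      (CovZ.leaf K2_ok TB_l19587 _)))
    (CovZ.n1 (-20736, 24576) (by decide +kernel)
     (CovZ.n2 (-21120, 24960) (by decide +kernel)
      (CovZ.leaf K2_ok TB_l19588 _)
      (CovZ.leaf K2_ok TB_l19589 _))
     (CovZ.n1 (-20352, 24960) (by decide +kernel)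
      (CovZ.leaf K2_ok TB_l19590 _)
      (CovZ.leaf K2_ok TB_l19591 _)))))
    (CovZ.topM TB_LL 1233717601242206000692295627890642064334646907888123058486851122483293851432135104689694864123113951491587896803328 (by decide +kernel) (CovZ.n0 (-20736, 25344) (by decide +kernel)
    (CovZ.n2 (-21504, 25344) (by decide +kernel)
     (CovZ.leaf K2_ok TB_l19592 _)
     (CovZ.leaf K2_ok TB_l19593 _))
    (CovZ.n1 (-20736, 26112) (by decide +kernel)
     (CovZ.n2 (-20352, 25728) (by decide +kernel)
      (CovZ.leaf K2_ok TB_l19594 _)
      (CovZ.leaf K2_ok TB_l19595 _))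
     (CovZ.leaf K2_ok TB_l19596 _))))

theorem TB_s8_19 : SqZ TB_M TB_L [0, 7, 6, 1] (-32256) (-4608) 1536 8 19 :=
  SqZ.mk (a := (-19968)) (b := (-18432)) (c := 24576) (d := 26112) (by norm_num) (by norm_num) (by norm_num) (by norm_num)
    (CovZ.topM TB_LL 1233717601242122876620805729753875579670042691810176995431283351254209485697767611392878750664266616148764930375681 (by decide +kernel) (CovZ.n2 (-19200, 25344) (by decide +kernel)
    (CovZ.n2 (-18432, 25344) (by decide +kernel)
     (CovZ.n2 (-18816, 24960) (by decide +kernel)
      (CovZ.n2 (-18816, 25344) (by decide +kernel)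
       (CovZ.n2 (-18624, 25152) (by decide +kernel)
        (CovZ.leaf K2_ok TB_l20470 _)
        (CovZ.leaf K2_ok TB_l20471 _))
       (CovZ.leaf K2_ok TB_l20472 _))
      (CovZ.n1 (-18432, 24960) (by decide +kernel)
       (CovZ.n2 (-18624, 24768) (by decide +kernel)
        (CovZ.leaf K2_ok TB_l20473 _)
        (CovZ.leaf K2_ok TB_l20474 _))
       (CovZ.n1 (-18624, 25152) (by decide +kernel)
        (CovZ.leaf K2_ok TB_l20475 _)
        (CovZ.leaf K2_ok TB_l20476 _))))
     (CovZ.n1 (-18816, 25728) (by decide +kernel)
      (CovZ.n2 (-18432, 25728) (by decide +kernel)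
       (CovZ.n2 (-18624, 25536) (by decide +kernel)
        (CovZ.leaf K2_ok TB_l20477 _)
        (CovZ.leaf K2_ok TB_l20478 _))
       (CovZ.leaf K2_ok TB_l20479 _))
      (CovZ.n1 (-18816, 25344) (by decide +kernel)
       (CovZ.leaf K2_ok TB_l20480 _)
       (CovZ.leaf K2_ok TB_l20481 _))))
    (CovZ.n1 (-19200, 24576) (by decide +kernel)
     (CovZ.n2 (-19584, 24960) (by decide +kernel)
      (CovZ.n2 (-19200, 24960) (by decide +kernel)
       (CovZ.leaf K2_ok TB_l20482 _)
       (CovZ.leaf K2_ok TB_l20483 _))
      (CovZ.n1 (-19584, 24576) (by decide +kernel)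
       (CovZ.leaf K2_ok TB_l20484 _)
       (CovZ.leaf K2_ok TB_l20485 _)))
     (CovZ.n1 (-18816, 24960) (by decide +kernel)
      (CovZ.subM 2404907604795401237085726624387648261187761395985970460805851331026414291800913654844239075569380007131597537281 (by decide +kernel)
       (CovZ.n2 (-18816, 24576) (by decide +kernel)
        (CovZ.n2 (-19008, 24768) (by decide +kernel)
         (CovZ.leaf K2_ok TB_l20486 _)
         (CovZ.leaf K2_ok TB_l20487 _))
        (CovZ.n1 (-18624, 24768) (by decide +kernel)
         (CovZ.leaf K2_ok TB_l20488 _)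
         (CovZ.leaf K2_ok TB_l20489 _))))
      (CovZ.n1 (-19200, 24960) (by decide +kernel)
       (CovZ.leaf K2_ok TB_l20490 _)
       (CovZ.leaf K2_ok TB_l20491 _))))))
    (CovZ.topM TB_LL 1233717601242122876620805729753875579670042691810176995431283351254209485697767611392878750664266616148764930375681 (by decide +kernel) (CovZ.n0 (-19200, 25344) (by decide +kernel)
    (CovZ.n2 (-19968, 25344) (by decide +kernel)
     (CovZ.n2 (-19584, 25728) (by decide +kernel)
      (CovZ.n2 (-19584, 25344) (by decide +kernel)
       (CovZ.leaf K2_ok TB_l20492 _)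
       (CovZ.leaf K2_ok TB_l20493 _))
      (CovZ.leaf K2_ok TB_l20494 _))
     (CovZ.n1 (-19584, 24960) (by decide +kernel)
      (CovZ.leaf K2_ok TB_l20495 _)
      (CovZ.n1 (-19584, 25344) (by decide +kernel)
       (CovZ.leaf K2_ok TB_l20496 _)
       (CovZ.leaf K2_ok TB_l20497 _))))
    (CovZ.n1 (-19200, 26112) (by decide +kernel)
     (CovZ.n2 (-18816, 25728) (by decide +kernel)
      (CovZ.n2 (-19200, 25728) (by decide +kernel)
       (CovZ.leaf K2_ok TB_l20498 _)
       (CovZ.leaf K2_ok TB_l20499 _))
      (CovZ.n1 (-18816, 26112) (by decide +kernel)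
       (CovZ.leaf K2_ok TB_l20500 _)
       (CovZ.leaf K2_ok TB_l20501 _)))
     (CovZ.n1 (-19584, 25728) (by decide +kernel)
      (CovZ.n2 (-19584, 26112) (by decide +kernel)
       (CovZ.leaf K2_ok TB_l20502 _)
       (CovZ.leaf K2_ok TB_l20503 _))
      (CovZ.n1 (-19200, 25728) (by decide +kernel)
       (CovZ.leaf K2_ok TB_l20504 _)
       (CovZ.leaf K2_ok TB_l20505 _))))))

theorem TB_s9_19 : SqZ TB_M TB_L [0, 7, 6, 1] (-32256) (-4608) 1536 9 19 :=
  SqZ.mk (a := (-18432)) (b := (-16896)) (c := 24576) (d := 26112) (by norm_num) (by norm_num) (by norm_num) (by norm_num)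
    (CovZ.topM TB_LL 2705521055390451890257617176753017886891637131846655975593162908198935497908135516431205427832242130680245420033 (by decide +kernel) (CovZ.n2 (-17664, 25344) (by decide +kernel)
    (CovZ.n2 (-16896, 25344) (by decide +kernel)
     (CovZ.subM 2404907604760405225489198433597688225554321165906514345993955756418787691727311277831267946647868266370968879105 (by decide +kernel)
      (CovZ.n2 (-17280, 24960) (by decide +kernel)
       (CovZ.n2 (-17280, 25344) (by decide +kernel)
        (CovZ.n2 (-17088, 25152) (by decide +kernel)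
         (CovZ.n2 (-17280, 25152) (by decide +kernel)
          (CovZ.n2 (-17184, 25248) (by decide +kernel)
           (CovZ.leaf K2_ok TB_l23401 _)
           (CovZ.leaf K2_ok TB_l23402 _))
          (CovZ.n1 (-17184, 25056) (by decide +kernel)
           (CovZ.leaf K2_ok TB_l23403 _)
           (CovZ.leaf K2_ok TB_l23404 _)))
         (CovZ.n1 (-17088, 25344) (by decide +kernel)
          (CovZ.n2 (-16992, 25248) (by decide +kernel)
           (CovZ.leaf K2_ok TB_l23405 _)
           (CovZ.n1 (-16992, 25344) (by decide +kernel)
            (CovZ.leaf K2_ok TB_l23406 _)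
            (CovZ.leaf K2_ok TB_l23407 _)))
          (CovZ.n1 (-17184, 25248) (by decide +kernel)
           (CovZ.leaf K2_ok TB_l23408 _)
           (CovZ.leaf K2_ok TB_l23409 _))))
        (CovZ.n1 (-17472, 25152) (by decide +kernel)
         (CovZ.n2 (-17472, 25344) (by decide +kernel)
          (CovZ.leaf K2_ok TB_l23410 _)
          (CovZ.leaf K2_ok TB_l23411 _))
         (CovZ.n1 (-17280, 25152) (by decide +kernel)
          (CovZ.n2 (-17376, 25056) (by decide +kernel)
           (CovZ.leaf K2_ok TB_l23412 _)
           (CovZ.leaf K2_ok TB_l23413 _))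
          (CovZ.n1 (-17376, 25248) (by decide +kernel)
           (CovZ.leaf K2_ok TB_l23414 _)
           (CovZ.leaf K2_ok TB_l23415 _)))))
       (CovZ.n1 (-16896, 24960) (by decide +kernel)
        (CovZ.n2 (-17088, 24768) (by decide +kernel)
         (CovZ.n2 (-17088, 24960) (by decide +kernel)
          (CovZ.n2 (-16992, 24864) (by decide +kernel)
           (CovZ.leaf K2_ok TB_l23416 _)
           (CovZ.n1 (-16992, 24960) (by decide +kernel)
            (CovZ.leaf K2_ok TB_l23417 _)
            (CovZ.leaf K2_ok TB_l23418 _)))
          (CovZ.n1 (-17184, 24864) (by decide +kernel)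
           (CovZ.leaf K2_ok TB_l23419 _)
           (CovZ.leaf K2_ok TB_l23420 _)))
         (CovZ.n1 (-16896, 24768) (by decide +kernel)
          (CovZ.n2 (-16992, 24672) (by decide +kernel)
           (CovZ.n2 (-16992, 24768) (by decide +kernel)
            (CovZ.leaf K2_ok TB_l23421 _)
            (CovZ.leaf K2_ok TB_l23422 _))
           (CovZ.n1 (-16896, 24672) (by decide +kernel)
            (CovZ.leaf K2_ok TB_l23423 _)
            (CovZ.leaf K2_ok TB_l23424 _)))
          (CovZ.n1 (-16992, 24864) (by decide +kernel)
           (CovZ.n2 (-16896, 24864) (by decide +kernel)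
            (CovZ.leaf K2_ok TB_l23425 _)
            (CovZ.leaf K2_ok TB_l23426 _))
           (CovZ.n1 (-16992, 24768) (by decide +kernel)
            (CovZ.leaf K2_ok TB_l23427 _)
            (CovZ.leaf K2_ok TB_l23428 _)))))
        (CovZ.n1 (-17088, 25152) (by decide +kernel)
         (CovZ.n2 (-16896, 25152) (by decide +kernel)
          (CovZ.n2 (-16992, 25056) (by decide +kernel)
           (CovZ.n2 (-16992, 25152) (by decide +kernel)
            (CovZ.leaf K2_ok TB_l23429 _)
            (CovZ.leaf K2_ok TB_l23430 _))
           (CovZ.n1 (-16896, 25056) (by decide +kernel)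
            (CovZ.leaf K2_ok TB_l23431 _)
            (CovZ.leaf K2_ok TB_l23432 _)))
          (CovZ.n1 (-16992, 25248) (by decide +kernel)
           (CovZ.leaf K2_ok TB_l23433 _)
           (CovZ.n1 (-16992, 25152) (by decide +kernel)
            (CovZ.leaf K2_ok TB_l23434 _)
            (CovZ.leaf K2_ok TB_l23435 _))))
         (CovZ.n1 (-17088, 24960) (by decide +kernel)
          (CovZ.n2 (-17184, 25056) (by decide +kernel)
           (CovZ.leaf K2_ok TB_l23436 _)
           (CovZ.leaf K2_ok TB_l23437 _))
          (CovZ.n1 (-16992, 25056) (by decide +kernel)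
           (CovZ.n2 (-16992, 24960) (by decide +kernel)
            (CovZ.leaf K2_ok TB_l23438 _)
            (CovZ.leaf K2_ok TB_l23439 _))
           (CovZ.leaf K2_ok TB_l23440 _)))))))
     (CovZ.n1 (-17280, 25728) (by decide +kernel)
      (CovZ.n2 (-16896, 25728) (by decide +kernel)
       (CovZ.n2 (-17088, 25536) (by decide +kernel)
        (CovZ.n2 (-17088, 25728) (by decide +kernel)
         (CovZ.n2 (-16992, 25632) (by decide +kernel)
          (CovZ.leaf K2_ok TB_l23441 _)
          (CovZ.leaf K2_ok TB_l23442 _))
         (CovZ.n1 (-17184, 25632) (by decide +kernel)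
          (CovZ.leaf K2_ok TB_l23443 _)
          (CovZ.leaf K2_ok TB_l23444 _)))
        (CovZ.subM 2404907604760405225489198433597688225554321165906514345993955756418787691727311277831267946647868266370968879105 (by decide +kernel)
         (CovZ.n1 (-16896, 25536) (by decide +kernel)
          (CovZ.n2 (-16992, 25440) (by decide +kernel)
           (CovZ.n2 (-16992, 25536) (by decide +kernel)
            (CovZ.leaf K2_ok TB_l23445 _)
            (CovZ.leaf K2_ok TB_l23446 _))
           (CovZ.leaf K2_ok TB_l23447 _))
          (CovZ.n1 (-16992, 25632) (by decide +kernel)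
           (CovZ.leaf K2_ok TB_l23448 _)
           (CovZ.leaf K2_ok TB_l23449 _)))))
       (CovZ.n1 (-17088, 25920) (by decide +kernel)
        (CovZ.n2 (-16896, 25920) (by decide +kernel)
         (CovZ.n2 (-16992, 25824) (by decide +kernel)
          (CovZ.leaf K2_ok TB_l23450 _)
          (CovZ.leaf K2_ok TB_l23451 _))
         (CovZ.n1 (-16992, 26016) (by decide +kernel)
          (CovZ.leaf K2_ok TB_l23452 _)
          (CovZ.leaf K2_ok TB_l23453 _)))
        (CovZ.n1 (-17088, 25728) (by decide +kernel)
         (CovZ.n2 (-17184, 25824) (by decide +kernel)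
          (CovZ.leaf K2_ok TB_l23454 _)
          (CovZ.leaf K2_ok TB_l23455 _))
         (CovZ.n1 (-16992, 25824) (by decide +kernel)
          (CovZ.leaf K2_ok TB_l23456 _)
          (CovZ.leaf K2_ok TB_l23457 _)))))
      (CovZ.n1 (-17280, 25344) (by decide +kernel)
       (CovZ.n2 (-17472, 25536) (by decide +kernel)
        (CovZ.n2 (-17280, 25536) (by decide +kernel)
         (CovZ.leaf K2_ok TB_l23458 _)
         (CovZ.leaf K2_ok TB_l23459 _))
        (CovZ.n1 (-17472, 25344) (by decide +kernel)
         (CovZ.leaf K2_ok TB_l23460 _)
         (CovZ.leaf K2_ok TB_l23461 _)))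
       (CovZ.n1 (-17088, 25536) (by decide +kernel)
        (CovZ.subM 2404907604760405225489198433597688225554321165906514345993955756418787691727311277831267946647868266370968879105 (by decide +kernel)
         (CovZ.n2 (-17088, 25344) (by decide +kernel)
          (CovZ.n2 (-17184, 25440) (by decide +kernel)
           (CovZ.leaf K2_ok TB_l23462 _)
           (CovZ.leaf K2_ok TB_l23463 _))
          (CovZ.n1 (-16992, 25440) (by decide +kernel)
           (CovZ.n2 (-16992, 25344) (by decide +kernel)
            (CovZ.leaf K2_ok TB_l23464 _)
            (CovZ.leaf K2_ok TB_l23465 _))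
           (CovZ.leaf K2_ok TB_l23466 _))))
        (CovZ.n1 (-17280, 25536) (by decide +kernel)
         (CovZ.n2 (-17184, 25632) (by decide +kernel)
          (CovZ.leaf K2_ok TB_l23467 _)
          (CovZ.leaf K2_ok TB_l23468 _))
         (CovZ.n1 (-17184, 25440) (by decide +kernel)
          (CovZ.leaf K2_ok TB_l23469 _)
          (CovZ.leaf K2_ok TB_l23470 _)))))))
    (CovZ.n1 (-17664, 24576) (by decide +kernel)
     (CovZ.n2 (-18048, 24960) (by decide +kernel)
      (CovZ.subM 2404907604760405225489198433597688225553879454140319749911559932043601962098354406857049041908337864820645724161 (by decide +kernel)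
       (CovZ.n2 (-17664, 24960) (by decide +kernel)
        (CovZ.n2 (-17856, 24768) (by decide +kernel)
         (CovZ.n2 (-17856, 24960) (by decide +kernel)
          (CovZ.leaf K2_ok TB_l23471 _)
          (CovZ.leaf K2_ok TB_l23472 _))
         (CovZ.n1 (-17664, 24768) (by decide +kernel)
          (CovZ.leaf K2_ok TB_l23473 _)
          (CovZ.leaf K2_ok TB_l23474 _)))
        (CovZ.n1 (-17856, 25152) (by decide +kernel)
         (CovZ.n2 (-17664, 25152) (by decide +kernel)
          (CovZ.leaf K2_ok TB_l23475 _)
          (CovZ.leaf K2_ok TB_l23476 _))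
         (CovZ.n1 (-17856, 24960) (by decide +kernel)
          (CovZ.leaf K2_ok TB_l23477 _)
          (CovZ.leaf K2_ok TB_l23478 _)))))
      (CovZ.n1 (-18048, 24576) (by decide +kernel)
       (CovZ.n2 (-18240, 24768) (by decide +kernel)
        (CovZ.n2 (-18048, 24768) (by decide +kernel)
         (CovZ.leaf K2_ok TB_l23479 _)
         (CovZ.leaf K2_ok TB_l23480 _))
        (CovZ.n1 (-18240, 24576) (by decide +kernel)
         (CovZ.leaf K2_ok TB_l23481 _)
         (CovZ.leaf K2_ok TB_l23482 _)))
       (CovZ.n1 (-17856, 24768) (by decide +kernel)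
        (CovZ.n2 (-17856, 24576) (by decide +kernel)
         (CovZ.leaf K2_ok TB_l23483 _)
         (CovZ.leaf K2_ok TB_l23484 _))
        (CovZ.leaf K2_ok TB_l23485 _))))
     (CovZ.subM 2404907604760405225489198433597688225554321165906514345993955756418787691727311277831267946647868266370968879105 (by decide +kernel)
      (CovZ.n1 (-17280, 24960) (by decide +kernel)
       (CovZ.n2 (-17280, 24576) (by decide +kernel)
        (CovZ.n2 (-17472, 24768) (by decide +kernel)
         (CovZ.n2 (-17280, 24768) (by decide +kernel)
          (CovZ.n2 (-17376, 24672) (by decide +kernel)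
           (CovZ.leaf K2_ok TB_l23486 _)
           (CovZ.leaf K2_ok TB_l23487 _))
          (CovZ.n1 (-17376, 24864) (by decide +kernel)
           (CovZ.leaf K2_ok TB_l23488 _)
           (CovZ.leaf K2_ok TB_l23489 _)))
         (CovZ.n1 (-17472, 24576) (by decide +kernel)
          (CovZ.n2 (-17568, 24672) (by decide +kernel)
           (CovZ.leaf K2_ok TB_l23490 _)
           (CovZ.leaf K2_ok TB_l23491 _))
          (CovZ.n1 (-17376, 24672) (by decide +kernel)
           (CovZ.leaf K2_ok TB_l23492 _)
           (CovZ.leaf K2_ok TB_l23493 _))))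
        (CovZ.n1 (-17088, 24768) (by decide +kernel)
         (CovZ.n2 (-17088, 24576) (by decide +kernel)
          (CovZ.n2 (-17184, 24672) (by decide +kernel)
           (CovZ.n2 (-17088, 24672) (by decide +kernel)
            (CovZ.leaf K2_ok TB_l23494 _)
            (CovZ.leaf K2_ok TB_l23495 _))
           (CovZ.leaf K2_ok TB_l23496 _))
          (CovZ.n1 (-16992, 24672) (by decide +kernel)
           (CovZ.n2 (-16992, 24576) (by decide +kernel)
            (CovZ.leaf K2_ok TB_l23497 _)
            (CovZ.leaf K2_ok TB_l23498 _))
           (CovZ.leaf K2_ok TB_l23499 _)))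
         (CovZ.n1 (-17280, 24768) (by decide +kernel)
          (CovZ.n2 (-17184, 24864) (by decide +kernel)
           (CovZ.leaf K2_ok TB_l23500 _)
           (CovZ.leaf K2_ok TB_l23501 _))
          (CovZ.n1 (-17184, 24672) (by decide +kernel)
           (CovZ.leaf K2_ok TB_l23502 _)
           (CovZ.leaf K2_ok TB_l23503 _)))))
       (CovZ.n1 (-17664, 24960) (by decide +kernel)
        (CovZ.n2 (-17472, 25152) (by decide +kernel)
         (CovZ.n2 (-17472, 24960) (by decide +kernel)
          (CovZ.leaf K2_ok TB_l23504 _)
          (CovZ.leaf K2_ok TB_l23505 _))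
         (CovZ.n1 (-17664, 25152) (by decide +kernel)
          (CovZ.leaf K2_ok TB_l23506 _)
          (CovZ.leaf K2_ok TB_l23507 _)))
        (CovZ.n1 (-17472, 24768) (by decide +kernel)
         (CovZ.n2 (-17664, 24768) (by decide +kernel)
          (CovZ.leaf K2_ok TB_l23508 _)
          (CovZ.leaf K2_ok TB_l23509 _))
         (CovZ.n1 (-17472, 24960) (by decide +kernel)
          (CovZ.n2 (-17376, 24864) (by decide +kernel)
           (CovZ.leaf K2_ok TB_l23510 _)
           (CovZ.leaf K2_ok TB_l23511 _))
          (CovZ.leaf K2_ok TB_l23512 _)))))))))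
    (CovZ.topM TB_LL 2705521055390451890257617176753017886891637131846655975593162908198935497908135516431205427832242130680245485569 (by decide +kernel) (CovZ.n0 (-17664, 25344) (by decide +kernel)
    (CovZ.n2 (-18432, 25344) (by decide +kernel)
     (CovZ.n2 (-18048, 25728) (by decide +kernel)
      (CovZ.n2 (-18048, 25344) (by decide +kernel)
       (CovZ.n2 (-18240, 25536) (by decide +kernel)
        (CovZ.leaf K2_ok TB_l23513 _)
        (CovZ.leaf K2_ok TB_l23514 _))
       (CovZ.n1 (-17856, 25536) (by decide +kernel)
        (CovZ.n2 (-17856, 25344) (by decide +kernel)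
         (CovZ.leaf K2_ok TB_l23515 _)
         (CovZ.leaf K2_ok TB_l23516 _))
        (CovZ.n1 (-18048, 25536) (by decide +kernel)
         (CovZ.leaf K2_ok TB_l23517 _)
         (CovZ.leaf K2_ok TB_l23518 _))))
      (CovZ.n1 (-18432, 25728) (by decide +kernel)
       (CovZ.n2 (-18240, 25920) (by decide +kernel)
        (CovZ.leaf K2_ok TB_l23519 _)
        (CovZ.leaf K2_ok TB_l23520 _))
       (CovZ.n1 (-18240, 25536) (by decide +kernel)
        (CovZ.leaf K2_ok TB_l23521 _)
        (CovZ.leaf K2_ok TB_l23522 _))))
     (CovZ.n1 (-18048, 24960) (by decide +kernel)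
      (CovZ.n2 (-18432, 24960) (by decide +kernel)
       (CovZ.n2 (-18240, 25152) (by decide +kernel)
        (CovZ.n2 (-18240, 24960) (by decide +kernel)
         (CovZ.leaf K2_ok TB_l23523 _)
         (CovZ.leaf K2_ok TB_l23524 _))
        (CovZ.leaf K2_ok TB_l23525 _))
       (CovZ.n1 (-18240, 24768) (by decide +kernel)
        (CovZ.leaf K2_ok TB_l23526 _)
        (CovZ.n1 (-18240, 24960) (by decide +kernel)
         (CovZ.leaf K2_ok TB_l23527 _)
         (CovZ.leaf K2_ok TB_l23528 _))))
      (CovZ.n1 (-18048, 25344) (by decide +kernel)
       (CovZ.n2 (-17856, 25152) (by decide +kernel)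
        (CovZ.leaf K2_ok TB_l23529 _)
        (CovZ.n1 (-17856, 25344) (by decide +kernel)
         (CovZ.leaf K2_ok TB_l23530 _)
         (CovZ.leaf K2_ok TB_l23531 _)))
       (CovZ.n1 (-18240, 25152) (by decide +kernel)
        (CovZ.leaf K2_ok TB_l23532 _)
        (CovZ.n1 (-18048, 25152) (by decide +kernel)
         (CovZ.leaf K2_ok TB_l23533 _)
         (CovZ.leaf K2_ok TB_l23534 _))))))
    (CovZ.n1 (-17664, 26112) (by decide +kernel)
     (CovZ.n2 (-17280, 25728) (by decide +kernel)
      (CovZ.n2 (-17664, 25728) (by decide +kernel)
       (CovZ.n2 (-17472, 25920) (by decide +kernel)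
        (CovZ.n2 (-17472, 25728) (by decide +kernel)
         (CovZ.leaf K2_ok TB_l23535 _)
         (CovZ.leaf K2_ok TB_l23536 _))
        (CovZ.n1 (-17664, 25920) (by decide +kernel)
         (CovZ.leaf K2_ok TB_l23537 _)
         (CovZ.leaf K2_ok TB_l23538 _)))
       (CovZ.n1 (-17472, 25536) (by decide +kernel)
        (CovZ.n2 (-17664, 25536) (by decide +kernel)
         (CovZ.leaf K2_ok TB_l23539 _)
         (CovZ.leaf K2_ok TB_l23540 _))
        (CovZ.n1 (-17472, 25728) (by decide +kernel)
         (CovZ.leaf K2_ok TB_l23541 _)
         (CovZ.leaf K2_ok TB_l23542 _))))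
      (CovZ.n1 (-17280, 26112) (by decide +kernel)
       (CovZ.n2 (-17088, 25920) (by decide +kernel)
        (CovZ.n2 (-17280, 25920) (by decide +kernel)
         (CovZ.leaf K2_ok TB_l23543 _)
         (CovZ.n1 (-17184, 25824) (by decide +kernel)
          (CovZ.leaf K2_ok TB_l23544 _)
          (CovZ.leaf K2_ok TB_l23545 _)))
        (CovZ.n1 (-17088, 26112) (by decide +kernel)
         (CovZ.n2 (-16992, 26016) (by decide +kernel)
          (CovZ.leaf K2_ok TB_l23546 _)
          (CovZ.leaf K2_ok TB_l23547 _))
         (CovZ.leaf K2_ok TB_l23548 _)))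
       (CovZ.n1 (-17472, 25920) (by decide +kernel)
        (CovZ.n2 (-17472, 26112) (by decide +kernel)
         (CovZ.leaf K2_ok TB_l23549 _)
         (CovZ.leaf K2_ok TB_l23550 _))
        (CovZ.n1 (-17280, 25920) (by decide +kernel)
         (CovZ.leaf K2_ok TB_l23551 _)
         (CovZ.leaf K2_ok TB_l23552 _)))))
     (CovZ.n1 (-18048, 25728) (by decide +kernel)
      (CovZ.n2 (-18048, 26112) (by decide +kernel)
       (CovZ.n2 (-17856, 25920) (by decide +kernel)
        (CovZ.leaf K2_ok TB_l23553 _)
        (CovZ.n1 (-17856, 26112) (by decide +kernel)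
         (CovZ.leaf K2_ok TB_l23554 _)
         (CovZ.leaf K2_ok TB_l23555 _)))
       (CovZ.n1 (-18240, 25920) (by decide +kernel)
        (CovZ.leaf K2_ok TB_l23556 _)
        (CovZ.leaf K2_ok TB_l23557 _)))
      (CovZ.n1 (-17664, 25728) (by decide +kernel)
       (CovZ.n2 (-17856, 25536) (by decide +kernel)
        (CovZ.n2 (-17856, 25728) (by decide +kernel)
         (CovZ.leaf K2_ok TB_l23558 _)
         (CovZ.leaf K2_ok TB_l23559 _))
        (CovZ.n1 (-17664, 25536) (by decide +kernel)
         (CovZ.leaf K2_ok TB_l23560 _)
         (CovZ.leaf K2_ok TB_l23561 _)))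
       (CovZ.n1 (-17856, 25920) (by decide +kernel)
        (CovZ.leaf K2_ok TB_l23562 _)
        (CovZ.n1 (-17856, 25728) (by decide +kernel)
         (CovZ.leaf K2_ok TB_l23563 _)
         (CovZ.leaf K2_ok TB_l23564 _))))))))

theorem TB_s10_19 : SqZ TB_M TB_L [0, 7, 6, 1] (-32256) (-4608) 1536 10 19 :=
  SqZ.mk (a := (-16896)) (b := (-15360)) (c := 24576) (d := 26112) (by norm_num) (by norm_num) (by norm_num) (by norm_num)
    (CovZ.topM TB_LL 42607122990838899334083071563538926188724964033581165360310080529366012124515132703741429310267561492463770036702652956672 (by decide +kernel) (CovZ.n2 (-16128, 25344) (by decide +kernel)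
    (CovZ.subM 42607122988433991729322666338049727755127275808027285906169760779454452192471530741983357270331450914018842808110794407936 (by decide +kernel)
     (CovZ.n2 (-15360, 25344) (by decide +kernel)
      (CovZ.n2 (-15744, 24960) (by decide +kernel)
       (CovZ.n2 (-15744, 25344) (by decide +kernel)
        (CovZ.badM (by decide +kernel))
        (CovZ.n1 (-15936, 25152) (by decide +kernel)
         (CovZ.n2 (-15936, 25344) (by decide +kernel)
          (CovZ.badM (by decide +kernel))
          (CovZ.n1 (-16032, 25248) (by decide +kernel)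
           (CovZ.n2 (-16032, 25344) (by decide +kernel)
            (CovZ.badM (by decide +kernel))
            (CovZ.n1 (-16080, 25296) (by decide +kernel)
             (CovZ.n2 (-16080, 25344) (by decide +kernel)
              (CovZ.badM (by decide +kernel))
              (CovZ.n1 (-16104, 25320) (by decide +kernel)
               (CovZ.leaf K2_ok TB_l44636 _)
               (CovZ.badM (by decide +kernel))))
             (CovZ.badM (by decide +kernel))))
           (CovZ.badM (by decide +kernel))))
         (CovZ.badM (by decide +kernel))))
       (CovZ.badM (by decide +kernel)))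
      (CovZ.n1 (-15744, 25728) (by decide +kernel)
       (CovZ.badM (by decide +kernel))
       (CovZ.n1 (-15744, 25344) (by decide +kernel)
        (CovZ.n2 (-15936, 25536) (by decide +kernel)
         (CovZ.n2 (-15744, 25536) (by decide +kernel)
          (CovZ.badM (by decide +kernel))
          (CovZ.n1 (-15840, 25632) (by decide +kernel)
           (CovZ.badM (by decide +kernel))
           (CovZ.badM (by decide +kernel))))
         (CovZ.n1 (-15936, 25344) (by decide +kernel)
          (CovZ.n2 (-16032, 25440) (by decide +kernel)
           (CovZ.n2 (-15936, 25440) (by decide +kernel)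
            (CovZ.badM (by decide +kernel))
            (CovZ.n1 (-15984, 25488) (by decide +kernel)
             (CovZ.badM (by decide +kernel))
             (CovZ.n1 (-15984, 25440) (by decide +kernel)
              (CovZ.n2 (-16008, 25464) (by decide +kernel)
               (CovZ.n2 (-15984, 25464) (by decide +kernel)
                (CovZ.badM (by decide +kernel))
                (CovZ.leaf K2_ok TB_l49693 _))
               (CovZ.badM (by decide +kernel)))
              (CovZ.badM (by decide +kernel)))))
           (CovZ.n1 (-16032, 25344) (by decide +kernel)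
            (CovZ.n2 (-16080, 25392) (by decide +kernel)
             (CovZ.badM (by decide +kernel))
             (CovZ.n1 (-16080, 25344) (by decide +kernel)
              (CovZ.n2 (-16104, 25368) (by decide +kernel)
               (CovZ.badM (by decide +kernel))
               (CovZ.n1 (-16104, 25344) (by decide +kernel)
                (CovZ.leaf K2_ok TB_l44637 _)
                (CovZ.badM (by decide +kernel))))
              (CovZ.badM (by decide +kernel))))
            (CovZ.badM (by decide +kernel))))
          (CovZ.badM (by decide +kernel))))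
        (CovZ.badM (by decide +kernel))))))
    (CovZ.subM 2404907604760405225489198433597688225553879454140319749911559932043601962098354406857049041908301836023626760192 (by decide +kernel)
     (CovZ.n1 (-16128, 24576) (by decide +kernel)
      TB_u453
      TB_u454))))
    (CovZ.topM TB_LL 42607122990838899334083071563540963224705092794960640395235946078657159318320881375873181954085679760179355078902774005761 (by decide +kernel) (CovZ.n0 (-16128, 25344) (by decide +kernel)
    (CovZ.n2 (-16896, 25344) (by decide +kernel)
     TB_u455
     TB_u456)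
    (CovZ.n1 (-16128, 26112) (by decide +kernel)
     (CovZ.subM 42607122988433991729322666338049727755127275808027285906169760779454452192471530741983357270331450914018878836907813371905 (by decide +kernel)
      (CovZ.n2 (-15744, 25728) (by decide +kernel)
       TB_u459
       TB_u460))
     (CovZ.n1 (-16512, 25728) (by decide +kernel)
      TB_u461
      TB_u462))))

theorem TB_s11_19 : SqZ TB_M TB_L [0, 7, 6, 1] (-32256) (-4608) 1536 11 19 :=
  SqZ.mk (a := (-15360)) (b := (-13824)) (c := 24576) (d := 26112) (by norm_num) (by norm_num) (by norm_num) (by norm_num)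
    (CovZ.topM TB_LL 1419606883389857208104148062281258856159455782592418086487285545274686109596480318996466895925319463985864300012238628776434768805888 (by decide +kernel) (CovZ.n2 (-14592, 25344) (by decide +kernel)
    (CovZ.badM (by decide +kernel))
    (CovZ.n1 (-14592, 24576) (by decide +kernel)
     (CovZ.badM (by decide +kernel))
     (CovZ.badM (by decide +kernel)))))
    (CovZ.topM TB_LL 4258820650169571624312444186843776568478367347777254259461856635824058328789440956989400687775958391957592900036715886329304306417664 (by decide +kernel) (CovZ.n0 (-14592, 25344) (by decide +kernel)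
    (CovZ.badM (by decide +kernel))
    (CovZ.n1 (-14592, 26112) (by decide +kernel)
     (CovZ.n2 (-14208, 25728) (by decide +kernel)
      (CovZ.badM (by decide +kernel))
      (CovZ.n1 (-14208, 26112) (by decide +kernel)
       (CovZ.badM (by decide +kernel))
       (CovZ.badM (by decide +kernel))))
     (CovZ.badM (by decide +kernel)))))

theorem TB_s12_19 : SqZ TB_M TB_L [0, 7, 6, 1] (-32256) (-4608) 1536 12 19 :=
  SqZ.mk (a := (-13824)) (b := (-12288)) (c := 24576) (d := 26112) (by norm_num) (by norm_num) (by norm_num) (by norm_num)
    (CovZ.topM TB_LL 95268386980554860590331601724074350902511525924493869576843935061990231944290664728041120997232284194683960916036018077898789497348946919424 (by decide +kernel) (CovZ.n2 (-13056, 25344) (by decide +kernel)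
    (CovZ.badM (by decide +kernel))
    (CovZ.badM (by decide +kernel))))
    (CovZ.topM TB_LL 95268386980554860590331601724074350902511525924493869576843935061990231944290664728041120997232284194683960916036018077898789497348946919424 (by decide +kernel) (CovZ.n0 (-13056, 25344) (by decide +kernel)
    (CovZ.badM (by decide +kernel))
    (CovZ.n1 (-13056, 26112) (by decide +kernel)
     (CovZ.badM (by decide +kernel))
     (CovZ.badM (by decide +kernel)))))

theorem TB_s0_20 : SqZ TB_M TB_L [0, 7, 6, 1] (-32256) (-4608) 1536 0 20 :=
  SqZ.mk (a := (-32256)) (b := (-30720)) (c := 26112) (d := 27648) (by norm_num) (by norm_num) (by norm_num) (by norm_num)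
    (CovZ.topM TB_LL 2353129859973906143154175441529284225823720636258563057311064562201646888730119284886260675824942078871207936 (by decide +kernel) (CovZ.leaf K2_ok TB_l1851 _))
    (CovZ.topM TB_LL 2353129859973906143154175441529284225823720636258563057311064562201646888730119284886260675824942078871207936 (by decide +kernel) (CovZ.leaf K2_ok TB_l1852 _))

theorem TB_s1_20 : SqZ TB_M TB_L [0, 7, 6, 1] (-32256) (-4608) 1536 1 20 :=
  SqZ.mk (a := (-30720)) (b := (-29184)) (c := 26112) (d := 27648) (by norm_num) (by norm_num) (by norm_num) (by norm_num)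
    (CovZ.topM TB_LL 5043456795491623199145623275972558008579490852443297809755944613054516948958865054560048546623859907511181296595369984 (by decide +kernel) (CovZ.leaf K2_ok TB_l4995 _))
    (CovZ.topM TB_LL 5043456795491623199145623275972558008579490852443297809755944613054516948958865054560048546623859907511181296595369984 (by decide +kernel) (CovZ.leaf K2_ok TB_l4996 _))

theorem TB_s2_20 : SqZ TB_M TB_L [0, 7, 6, 1] (-32256) (-4608) 1536 2 20 :=
  SqZ.mk (a := (-29184)) (b := (-27648)) (c := 26112) (d := 27648) (by norm_num) (by norm_num) (by norm_num) (by norm_num)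
    (CovZ.topM TB_LL 5043456793138493339171717132834328964652041523698219635926264656343733324316518645163976051077084924416754786808102912 (by decide +kernel) (CovZ.leaf K2_ok TB_l8286 _))
    (CovZ.topM TB_LL 5043456793138493339171717132834328964652041523698219635926264656343733324316518645163976051077084924416754786808102912 (by decide +kernel) (CovZ.leaf K2_ok TB_l8287 _))

theorem TB_s3_20 : SqZ TB_M TB_L [0, 7, 6, 1] (-32256) (-4608) 1536 3 20 :=
  SqZ.mk (a := (-27648)) (b := (-26112)) (c := 26112) (d := 27648) (by norm_num) (by norm_num) (by norm_num) (by norm_num)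
    (CovZ.topM TB_LL 5043456793138493409163740325890678490535391066932433103450881491608005896667886977445133152830331249669272369090527360 (by decide +kernel) (CovZ.leaf K2_ok TB_l11619 _))
    (CovZ.topM TB_LL 5043456793138493409163740325890678490535391066932433103450881491608005896667886977445133152830331249669272369090527360 (by decide +kernel) (CovZ.leaf K2_ok TB_l11620 _))

theorem TB_s4_20 : SqZ TB_M TB_L [0, 7, 6, 1] (-32256) (-4608) 1536 4 20 :=
  SqZ.mk (a := (-26112)) (b := (-24576)) (c := 26112) (d := 27648) (by norm_num) (by norm_num) (by norm_num) (by norm_num)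
    (CovZ.topM TB_LL 631663411835949099859883151205914022257904644374446960892027670799798706760137269538072325248303414314334467127509124 (by decide +kernel) (CovZ.leaf K2_ok TB_l13836 _))
    (CovZ.topM TB_LL 631663411835949099859883151205914022257904644374446960892027670799798706760137269538072325248303414314334467127509124 (by decide +kernel) (CovZ.leaf K2_ok TB_l13837 _))

theorem TB_s5_20 : SqZ TB_M TB_L [0, 7, 6, 1] (-32256) (-4608) 1536 5 20 :=
  SqZ.mk (a := (-24576)) (b := (-23040)) (c := 26112) (d := 27648) (by norm_num) (by norm_num) (by norm_num) (by norm_num)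
    (CovZ.topM TB_LL 631665816743553873388612858716202337208920867230133003189890455038836481108284638392599043323296923625148370437537924 (by decide +kernel) (CovZ.n2 (-23808, 26880) (by decide +kernel)
    (CovZ.leaf K2_ok TB_l15583 _)
    (CovZ.leaf K2_ok TB_l15584 _)))
    (CovZ.topM TB_LL 631663411835949112983387499888071224927804834531202921070342850772881632126242921033552936495522577621996465736122500 (by decide +kernel) (CovZ.n0 (-23808, 26880) (by decide +kernel)
    (CovZ.leaf K2_ok TB_l15585 _)
    (CovZ.leaf K2_ok TB_l15586 _)))

theorem TB_s6_20 : SqZ TB_M TB_L [0, 7, 6, 1] (-32256) (-4608) 1536 6 20 :=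
  SqZ.mk (a := (-23040)) (b := (-21504)) (c := 26112) (d := 27648) (by norm_num) (by norm_num) (by norm_num) (by norm_num)
    (CovZ.topM TB_LL 631665816743553873402847209822769027054881441568903534078610040645603795480090078617502485061436500767362117649334404 (by decide +kernel) (CovZ.n2 (-22272, 26880) (by decide +kernel)
    (CovZ.n2 (-21504, 26880) (by decide +kernel)
     (CovZ.leaf K2_ok TB_l18655 _)
     (CovZ.leaf K2_ok TB_l18656 _))
    (CovZ.n1 (-22272, 26112) (by decide +kernel)
     (CovZ.leaf K2_ok TB_l18657 _)
     (CovZ.leaf K2_ok TB_l18658 _))))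
    (CovZ.topM TB_LL 631665816743553873402847209822769027054881441568903534078610040645603795480090078617502485061436500767362117649334404 (by decide +kernel) (CovZ.n0 (-22272, 26880) (by decide +kernel)
    (CovZ.leaf K2_ok TB_l18659 _)
    (CovZ.n1 (-22272, 27648) (by decide +kernel)
     (CovZ.leaf K2_ok TB_l18660 _)
     (CovZ.leaf K2_ok TB_l18661 _))))

theorem TB_s7_20 : SqZ TB_M TB_L [0, 7, 6, 1] (-32256) (-4608) 1536 7 20 :=
  SqZ.mk (a := (-21504)) (b := (-19968)) (c := 26112) (d := 27648) (by norm_num) (by norm_num) (by norm_num) (by norm_num)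
    (CovZ.topM TB_LL 1233717601242206000692295627890642064334646907888123058486851122483293851432135104689694864048736679386390984687616 (by decide +kernel) (CovZ.n2 (-20736, 26880) (by decide +kernel)
    (CovZ.n2 (-19968, 26880) (by decide +kernel)
     (CovZ.n2 (-20352, 26496) (by decide +kernel)
      (CovZ.leaf K2_ok TB_l19597 _)
      (CovZ.leaf K2_ok TB_l19598 _))
     (CovZ.n1 (-20352, 27264) (by decide +kernel)
      (CovZ.leaf K2_ok TB_l19599 _)
      (CovZ.leaf K2_ok TB_l19600 _)))
    (CovZ.n1 (-20736, 26112) (by decide +kernel)
     (CovZ.n2 (-21120, 26496) (by decide +kernel)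
      (CovZ.leaf K2_ok TB_l19601 _)
      (CovZ.leaf K2_ok TB_l19602 _))
     (CovZ.n1 (-20352, 26496) (by decide +kernel)
      (CovZ.leaf K2_ok TB_l19603 _)
      (CovZ.leaf K2_ok TB_l19604 _)))))
    (CovZ.topM TB_LL 1233717601242206000692295627890642064334646907888123058486851122483293851432135104689694864048736679386390984687616 (by decide +kernel) (CovZ.n0 (-20736, 26880) (by decide +kernel)
    (CovZ.n2 (-21504, 26880) (by decide +kernel)
     (CovZ.leaf K2_ok TB_l19605 _)
     (CovZ.leaf K2_ok TB_l19606 _))
    (CovZ.n1 (-20736, 27648) (by decide +kernel)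
     (CovZ.n2 (-20352, 27264) (by decide +kernel)
      (CovZ.leaf K2_ok TB_l19607 _)
      (CovZ.leaf K2_ok TB_l19608 _))
     (CovZ.leaf K2_ok TB_l19609 _))))

theorem TB_s8_20 : SqZ TB_M TB_L [0, 7, 6, 1] (-32256) (-4608) 1536 8 20 :=
  SqZ.mk (a := (-19968)) (b := (-18432)) (c := 26112) (d := 27648) (by norm_num) (by norm_num) (by norm_num) (by norm_num)
    (CovZ.topM TB_LL 1233717601242122876620805729753875579670042691810176995431283351254209485697767611392878750665447207769482341679105 (by decide +kernel) (CovZ.n2 (-19200, 26880) (by decide +kernel)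
    (CovZ.n2 (-18432, 26880) (by decide +kernel)
     (CovZ.subM 2404907604795401237085726624387648261300839608131787057899182371073961076813872624244278669999697998435651190785 (by decide +kernel)
      (CovZ.n2 (-18816, 26496) (by decide +kernel)
       (CovZ.n2 (-18816, 26880) (by decide +kernel)
        (CovZ.leaf K2_ok TB_l20506 _)
        (CovZ.leaf K2_ok TB_l20507 _))
       (CovZ.n1 (-18432, 26496) (by decide +kernel)
        (CovZ.leaf K2_ok TB_l20508 _)
        (CovZ.leaf K2_ok TB_l20509 _))))
     (CovZ.n1 (-18816, 27264) (by decide +kernel)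
      (CovZ.n2 (-18432, 27264) (by decide +kernel)
       (CovZ.leaf K2_ok TB_l20510 _)
       (CovZ.leaf K2_ok TB_l20511 _))
      (CovZ.n1 (-18816, 26880) (by decide +kernel)
       (CovZ.leaf K2_ok TB_l20512 _)
       (CovZ.leaf K2_ok TB_l20513 _))))
    (CovZ.n1 (-19200, 26112) (by decide +kernel)
     (CovZ.n2 (-19584, 26496) (by decide +kernel)
      (CovZ.n2 (-19200, 26496) (by decide +kernel)
       (CovZ.leaf K2_ok TB_l20514 _)
       (CovZ.leaf K2_ok TB_l20515 _))
      (CovZ.n1 (-19584, 26112) (by decide +kernel)
       (CovZ.leaf K2_ok TB_l20516 _)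
       (CovZ.leaf K2_ok TB_l20517 _)))
     (CovZ.subM 2404907604795401237085726624387648261300839608131787057899182371073961076813872624244278669999697998435651190785 (by decide +kernel)
      (CovZ.n1 (-18816, 26496) (by decide +kernel)
       (CovZ.n2 (-18816, 26112) (by decide +kernel)
        (CovZ.leaf K2_ok TB_l20518 _)
        (CovZ.leaf K2_ok TB_l20519 _))
       (CovZ.n1 (-19200, 26496) (by decide +kernel)
        (CovZ.leaf K2_ok TB_l20520 _)
        (CovZ.leaf K2_ok TB_l20521 _)))))))
    (CovZ.topM TB_LL 1233717601242122876620805729753875579670042691810176995431283351254209485697767611392878750665447207769482341679105 (by decide +kernel) (CovZ.n0 (-19200, 26880) (by decide +kernel)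
    (CovZ.n2 (-19968, 26880) (by decide +kernel)
     (CovZ.n2 (-19584, 27264) (by decide +kernel)
      (CovZ.leaf K2_ok TB_l20522 _)
      (CovZ.leaf K2_ok TB_l20523 _))
     (CovZ.n1 (-19584, 26496) (by decide +kernel)
      (CovZ.leaf K2_ok TB_l20524 _)
      (CovZ.n1 (-19584, 26880) (by decide +kernel)
       (CovZ.leaf K2_ok TB_l20525 _)
       (CovZ.leaf K2_ok TB_l20526 _))))
    (CovZ.n1 (-19200, 27648) (by decide +kernel)
     (CovZ.n2 (-18816, 27264) (by decide +kernel)
      (CovZ.n2 (-19200, 27264) (by decide +kernel)
       (CovZ.leaf K2_ok TB_l20527 _)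
       (CovZ.leaf K2_ok TB_l20528 _))
      (CovZ.n1 (-18816, 27648) (by decide +kernel)
       (CovZ.leaf K2_ok TB_l20529 _)
       (CovZ.leaf K2_ok TB_l20530 _)))
     (CovZ.n1 (-19584, 27264) (by decide +kernel)
      (CovZ.leaf K2_ok TB_l20531 _)
      (CovZ.leaf K2_ok TB_l20532 _)))))

theorem TB_s9_20 : SqZ TB_M TB_L [0, 7, 6, 1] (-32256) (-4608) 1536 9 20 :=
  SqZ.mk (a := (-18432)) (b := (-16896)) (c := 26112) (d := 27648) (by norm_num) (by norm_num) (by norm_num) (by norm_num)
    (CovZ.topM TB_LL 2405201172618247966241249845438581414515971725905004572126468075214254268821604961723439666821658608901455708161 (by decide +kernel) (CovZ.n2 (-17664, 26880) (by decide +kernel)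
    (CovZ.n2 (-16896, 26880) (by decide +kernel)
     (CovZ.n2 (-17280, 26496) (by decide +kernel)
      (CovZ.n2 (-17280, 26880) (by decide +kernel)
       (CovZ.leaf K2_ok TB_l23565 _)
       (CovZ.leaf K2_ok TB_l23566 _))
      (CovZ.n1 (-16896, 26496) (by decide +kernel)
       (CovZ.n2 (-17088, 26304) (by decide +kernel)
        (CovZ.n2 (-17088, 26496) (by decide +kernel)
         (CovZ.leaf K2_ok TB_l23567 _)
         (CovZ.leaf K2_ok TB_l23568 _))
        (CovZ.n1 (-16896, 26304) (by decide +kernel)
         (CovZ.n2 (-16992, 26208) (by decide +kernel)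
          (CovZ.leaf K2_ok TB_l23569 _)
          (CovZ.leaf K2_ok TB_l23570 _))
         (CovZ.leaf K2_ok TB_l23571 _)))
       (CovZ.leaf K2_ok TB_l23572 _)))
     (CovZ.n1 (-17280, 27264) (by decide +kernel)
      (CovZ.n2 (-16896, 27264) (by decide +kernel)
       (CovZ.leaf K2_ok TB_l23573 _)
       (CovZ.leaf K2_ok TB_l23574 _))
      (CovZ.n1 (-17280, 26880) (by decide +kernel)
       (CovZ.leaf K2_ok TB_l23575 _)
       (CovZ.leaf K2_ok TB_l23576 _))))
    (CovZ.n1 (-17664, 26112) (by decide +kernel)
     (CovZ.n2 (-18048, 26496) (by decide +kernel)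
      (CovZ.n2 (-17664, 26496) (by decide +kernel)
       (CovZ.n2 (-17856, 26304) (by decide +kernel)
        (CovZ.leaf K2_ok TB_l23577 _)
        (CovZ.leaf K2_ok TB_l23578 _))
       (CovZ.leaf K2_ok TB_l23579 _))
      (CovZ.n1 (-18048, 26112) (by decide +kernel)
       (CovZ.n2 (-18240, 26304) (by decide +kernel)
        (CovZ.leaf K2_ok TB_l23580 _)
        (CovZ.leaf K2_ok TB_l23581 _))
       (CovZ.n1 (-17856, 26304) (by decide +kernel)
        (CovZ.leaf K2_ok TB_l23582 _)
        (CovZ.leaf K2_ok TB_l23583 _))))
     (CovZ.n1 (-17280, 26496) (by decide +kernel)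
      (CovZ.n2 (-17280, 26112) (by decide +kernel)
       (CovZ.n2 (-17472, 26304) (by decide +kernel)
        (CovZ.leaf K2_ok TB_l23584 _)
        (CovZ.n1 (-17472, 26112) (by decide +kernel)
         (CovZ.leaf K2_ok TB_l23585 _)
         (CovZ.leaf K2_ok TB_l23586 _)))
       (CovZ.n1 (-17088, 26304) (by decide +kernel)
        (CovZ.n2 (-17088, 26112) (by decide +kernel)
         (CovZ.leaf K2_ok TB_l23587 _)
         (CovZ.n1 (-16992, 26208) (by decide +kernel)
          (CovZ.leaf K2_ok TB_l23588 _)
          (CovZ.leaf K2_ok TB_l23589 _)))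
        (CovZ.leaf K2_ok TB_l23590 _)))
      (CovZ.n1 (-17664, 26496) (by decide +kernel)
       (CovZ.leaf K2_ok TB_l23591 _)
       (CovZ.n1 (-17472, 26304) (by decide +kernel)
        (CovZ.leaf K2_ok TB_l23592 _)
        (CovZ.leaf K2_ok TB_l23593 _)))))))
    (CovZ.topM TB_LL 2405201172618247966241249845438581414515971725905004572126468075214254268821604961723439666821658608901455708161 (by decide +kernel) (CovZ.n0 (-17664, 26880) (by decide +kernel)
    (CovZ.n2 (-18432, 26880) (by decide +kernel)
     (CovZ.n2 (-18048, 27264) (by decide +kernel)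
      (CovZ.n2 (-18048, 26880) (by decide +kernel)
       (CovZ.n2 (-18240, 27072) (by decide +kernel)
        (CovZ.leaf K2_ok TB_l23594 _)
        (CovZ.leaf K2_ok TB_l23595 _))
       (CovZ.leaf K2_ok TB_l23596 _))
      (CovZ.leaf K2_ok TB_l23597 _))
     (CovZ.n1 (-18048, 26496) (by decide +kernel)
      (CovZ.leaf K2_ok TB_l23598 _)
      (CovZ.n1 (-18048, 26880) (by decide +kernel)
       (CovZ.leaf K2_ok TB_l23599 _)
       (CovZ.leaf K2_ok TB_l23600 _))))
    (CovZ.n1 (-17664, 27648) (by decide +kernel)
     (CovZ.n2 (-17280, 27264) (by decide +kernel)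
      (CovZ.leaf K2_ok TB_l23601 _)
      (CovZ.n1 (-17280, 27648) (by decide +kernel)
       (CovZ.n2 (-17088, 27456) (by decide +kernel)
        (CovZ.leaf K2_ok TB_l23602 _)
        (CovZ.leaf K2_ok TB_l23603 _))
       (CovZ.n1 (-17472, 27456) (by decide +kernel)
        (CovZ.n2 (-17472, 27648) (by decide +kernel)
         (CovZ.leaf K2_ok TB_l23604 _)
         (CovZ.leaf K2_ok TB_l23605 _))
        (CovZ.leaf K2_ok TB_l23606 _))))
     (CovZ.n1 (-18048, 27264) (by decide +kernel)
      (CovZ.n2 (-18048, 27648) (by decide +kernel)
       (CovZ.n2 (-17856, 27456) (by decide +kernel)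
        (CovZ.leaf K2_ok TB_l23607 _)
        (CovZ.leaf K2_ok TB_l23608 _))
       (CovZ.leaf K2_ok TB_l23609 _))
      (CovZ.n1 (-17664, 27264) (by decide +kernel)
       (CovZ.leaf K2_ok TB_l23610 _)
       (CovZ.n1 (-17856, 27456) (by decide +kernel)
        (CovZ.leaf K2_ok TB_l23611 _)
        (CovZ.leaf K2_ok TB_l23612 _)))))))

theorem TB_s10_20 : SqZ TB_M TB_L [0, 7, 6, 1] (-32256) (-4608) 1536 10 20 :=
  SqZ.mk (a := (-16896)) (b := (-15360)) (c := 26112) (d := 27648) (by norm_num) (by norm_num) (by norm_num) (by norm_num)
    (CovZ.topM TB_LL 726838724295649497672314647080906440271934055137225163209362074885150224921163385164021199187462915266693273172355649795228219046200321 (by decide +kernel) (CovZ.n2 (-16128, 26880) (by decide +kernel)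
    TB_u465
    TB_u466))
    (CovZ.topM TB_LL 726838724295649497672314647080906440271934055137225163209362074885150224921163385164021199187462915266693273172355649795228219046200321 (by decide +kernel) (CovZ.n0 (-16128, 26880) (by decide +kernel)
    (CovZ.n2 (-16896, 26880) (by decide +kernel)
     (CovZ.n2 (-16512, 27264) (by decide +kernel)
      (CovZ.n2 (-16512, 26880) (by decide +kernel)
       (CovZ.leaf K2_ok TB_l30868 _)
       (CovZ.leaf K2_ok TB_l30869 _))
      (CovZ.n1 (-16896, 27264) (by decide +kernel)
       (CovZ.leaf K2_ok TB_l30870 _)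
       (CovZ.leaf K2_ok TB_l30871 _)))
     (CovZ.n1 (-16512, 26496) (by decide +kernel)
      (CovZ.n2 (-16896, 26496) (by decide +kernel)
       (CovZ.n2 (-16704, 26688) (by decide +kernel)
        (CovZ.n2 (-16704, 26496) (by decide +kernel)
         (CovZ.leaf K2_ok TB_l30872 _)
         (CovZ.leaf K2_ok TB_l30873 _))
        (CovZ.leaf K2_ok TB_l30874 _))
       (CovZ.subM 42607122990838899334083071563540931396014168293435414073680425108086628203762694394751108230422589067380455195386818166785 (by decide +kernel)
        (CovZ.n1 (-16704, 26304) (by decide +kernel)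
         (CovZ.n2 (-16896, 26304) (by decide +kernel)
          (CovZ.leaf K2_ok TB_l30875 _)
          (CovZ.n1 (-16800, 26208) (by decide +kernel)
           (CovZ.leaf K2_ok TB_l30876 _)
           (CovZ.leaf K2_ok TB_l30877 _)))
         (CovZ.n1 (-16704, 26496) (by decide +kernel)
          (CovZ.leaf K2_ok TB_l30878 _)
          (CovZ.leaf K2_ok TB_l30879 _)))))
      (CovZ.n1 (-16512, 26880) (by decide +kernel)
       (CovZ.n2 (-16320, 26688) (by decide +kernel)
        (CovZ.leaf K2_ok TB_l30880 _)
        (CovZ.n1 (-16320, 26880) (by decide +kernel)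
         (CovZ.leaf K2_ok TB_l30881 _)
         (CovZ.leaf K2_ok TB_l30882 _)))
       (CovZ.n1 (-16704, 26688) (by decide +kernel)
        (CovZ.leaf K2_ok TB_l30883 _)
        (CovZ.leaf K2_ok TB_l30884 _)))))
    (CovZ.n1 (-16128, 27648) (by decide +kernel)
     (CovZ.n2 (-15744, 27264) (by decide +kernel)
      (CovZ.n2 (-16128, 27264) (by decide +kernel)
       (CovZ.n2 (-15936, 27456) (by decide +kernel)
        (CovZ.leaf K2_ok TB_l30885 _)
        (CovZ.leaf K2_ok TB_l30886 _))
       (CovZ.leaf K2_ok TB_l30887 _))
      (CovZ.n1 (-15744, 27648) (by decide +kernel)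
       (CovZ.n2 (-15552, 27456) (by decide +kernel)
        (CovZ.leaf K2_ok TB_l30888 _)
        (CovZ.leaf K2_ok TB_l30889 _))
       (CovZ.n1 (-15936, 27456) (by decide +kernel)
        (CovZ.leaf K2_ok TB_l30890 _)
        (CovZ.leaf K2_ok TB_l30891 _))))
     (CovZ.n1 (-16512, 27264) (by decide +kernel)
      (CovZ.n2 (-16512, 27648) (by decide +kernel)
       (CovZ.leaf K2_ok TB_l30892 _)
       (CovZ.leaf K2_ok TB_l30893 _))
      (CovZ.n1 (-16128, 27264) (by decide +kernel)
       (CovZ.leaf K2_ok TB_l30894 _)
       (CovZ.leaf K2_ok TB_l30895 _))))))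

theorem TB_s11_20 : SqZ TB_M TB_L [0, 7, 6, 1] (-32256) (-4608) 1536 11 20 :=
  SqZ.mk (a := (-15360)) (b := (-13824)) (c := 26112) (d := 27648) (by norm_num) (by norm_num) (by norm_num) (by norm_num)
    (CovZ.topM TB_LL 196256248024066104445037897242781727121170674792068762406077698147819128167180309133180851823009171294576543968665610081500299842682357423344640 (by decide +kernel) (CovZ.n2 (-14592, 26880) (by decide +kernel)
    (CovZ.n2 (-13824, 26880) (by decide +kernel)
     (CovZ.subM 762146009845173088837664660154320667028270435452268437035062994731502145311741205427361712883344288368894577334054112287619549099322966541312 (by decide +kernel)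
      (CovZ.n2 (-14208, 26496) (by decide +kernel)
       (CovZ.n2 (-14208, 26880) (by decide +kernel)
        (CovZ.subM 1419606883389857208104148062281258856159455782592418086487285545274686109596480318996466895925319463985864300012238628776434768805888 (by decide +kernel)
         (CovZ.n2 (-14016, 26688) (by decide +kernel)
          (CovZ.badM (by decide +kernel))
          (CovZ.n1 (-14016, 26880) (by decide +kernel)
           (CovZ.n2 (-13920, 26784) (by decide +kernel)
            (CovZ.badM (by decide +kernel))
            (CovZ.n1 (-13920, 26880) (by decide +kernel)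
             (CovZ.badM (by decide +kernel))
             (CovZ.badM (by decide +kernel))))
           (CovZ.badM (by decide +kernel)))))
        (CovZ.n1 (-14400, 26688) (by decide +kernel)
         (CovZ.n2 (-14400, 26880) (by decide +kernel)
          (CovZ.subM 680564733841876926926749214863536422912 (by decide +kernel)
           (CovZ.n2 (-14304, 26784) (by decide +kernel)
            (CovZ.n2 (-14400, 26784) (by decide +kernel)
             (CovZ.n2 (-14352, 26832) (by decide +kernel)
              (CovZ.badM (by decide +kernel))
              (CovZ.n1 (-14400, 26832) (by decide +kernel)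
               (CovZ.n2 (-14376, 26856) (by decide +kernel)
                (CovZ.badM (by decide +kernel))
                (CovZ.n1 (-14400, 26856) (by decide +kernel)
                 (CovZ.leaf K2_ok TB_l46960 _)
                 (CovZ.badM (by decide +kernel))))
               (CovZ.badM (by decide +kernel))))
             (CovZ.badM (by decide +kernel)))
            (CovZ.n1 (-14304, 26880) (by decide +kernel)
             (CovZ.badM (by decide +kernel))
             (CovZ.n1 (-14352, 26832) (by decide +kernel)
              (CovZ.n2 (-14352, 26880) (by decide +kernel)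
               (CovZ.badM (by decide +kernel))
               (CovZ.n1 (-14376, 26856) (by decide +kernel)
                (CovZ.n2 (-14376, 26880) (by decide +kernel)
                 (CovZ.badM (by decide +kernel))
                 (CovZ.leaf K2_ok TB_l46961 _))
                (CovZ.badM (by decide +kernel))))
              (CovZ.badM (by decide +kernel))))))
          (CovZ.n1 (-14496, 26784) (by decide +kernel)
           (CovZ.n2 (-14496, 26880) (by decide +kernel)
            (CovZ.subM 113078212145816597093331040047546785704157527208195876674495433967797272576 (by decide +kernel)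
             (CovZ.n2 (-14448, 26832) (by decide +kernel)
              (CovZ.n2 (-14496, 26832) (by decide +kernel)
               (CovZ.n2 (-14472, 26856) (by decide +kernel)
                (CovZ.n2 (-14472, 26832) (by decide +kernel)
                 (CovZ.leaf K2_ok TB_l46962 _)
                 (CovZ.leaf K2_ok TB_l46963 _))
                (CovZ.leaf K2_ok TB_l46964 _))
               (CovZ.badM (by decide +kernel)))
              (CovZ.n1 (-14448, 26880) (by decide +kernel)
               (CovZ.n2 (-14424, 26856) (by decide +kernel)
                (CovZ.leaf K2_ok TB_l46965 _)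
                (CovZ.n1 (-14424, 26880) (by decide +kernel)
                 (CovZ.leaf K2_ok TB_l46966 _)
                 (CovZ.leaf K2_ok TB_l46967 _)))
               (CovZ.n1 (-14472, 26856) (by decide +kernel)
                (CovZ.leaf K2_ok TB_l46968 _)
                (CovZ.leaf K2_ok TB_l46969 _)))))
            (CovZ.n1 (-14544, 26832) (by decide +kernel)
             (CovZ.n2 (-14544, 26880) (by decide +kernel)
              (CovZ.n2 (-14520, 26856) (by decide +kernel)
               (CovZ.leaf K2_ok TB_l46970 _)
               (CovZ.leaf K2_ok TB_l46971 _))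
              (CovZ.leaf K2_ok TB_l35632 _))
             (CovZ.subM 113078212145816597093331040047546785704157527208195876674495433967797272576 (by decide +kernel)
              (CovZ.n1 (-14496, 26832) (by decide +kernel)
               (CovZ.n2 (-14520, 26808) (by decide +kernel)
                (CovZ.n2 (-14520, 26832) (by decide +kernel)
                 (CovZ.badM (by decide +kernel))
                 (CovZ.leaf K2_ok TB_l46972 _))
                (CovZ.badM (by decide +kernel)))
               (CovZ.n1 (-14520, 26856) (by decide +kernel)
                (CovZ.leaf K2_ok TB_l46973 _)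
                (CovZ.leaf K2_ok TB_l46974 _))))))
           (CovZ.subM 680564733841876936371482180602826850304 (by decide +kernel)
            (CovZ.n1 (-14400, 26784) (by decide +kernel)
             (CovZ.badM (by decide +kernel))
             (CovZ.n1 (-14448, 26832) (by decide +kernel)
              (CovZ.n2 (-14400, 26832) (by decide +kernel)
               (CovZ.badM (by decide +kernel))
               (CovZ.n1 (-14424, 26856) (by decide +kernel)
                (CovZ.leaf K2_ok TB_l46975 _)
                (CovZ.badM (by decide +kernel))))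
              (CovZ.badM (by decide +kernel)))))))
         (CovZ.badM (by decide +kernel))))
       (CovZ.subM 1419606883389857208104148062281258856159455782592418086487285545274686109596480318996466895925319463985864300012238628776434768805888 (by decide +kernel)
        (CovZ.n1 (-13824, 26496) (by decide +kernel)
         (CovZ.n2 (-14016, 26304) (by decide +kernel)
          (CovZ.n2 (-14016, 26496) (by decide +kernel)
           (CovZ.badM (by decide +kernel))
           (CovZ.badM (by decide +kernel)))
          (CovZ.badM (by decide +kernel)))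
         (CovZ.n1 (-14016, 26688) (by decide +kernel)
          (CovZ.badM (by decide +kernel))
          (CovZ.n1 (-14016, 26496) (by decide +kernel)
           (CovZ.badM (by decide +kernel))
           (CovZ.badM (by decide +kernel))))))))
     (CovZ.n1 (-14208, 27264) (by decide +kernel)
      TB_u467
      TB_u468))
    (CovZ.subM 762146009845173088837664660154320667028270435452268437035062994731502145311741205427361712883344288368895241948052004746736593749470424925184 (by decide +kernel)
     (CovZ.n1 (-14592, 26112) (by decide +kernel)
      (CovZ.n2 (-14976, 26496) (by decide +kernel)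
       (CovZ.n2 (-14592, 26496) (by decide +kernel)
        (CovZ.badM (by decide +kernel))
        (CovZ.n1 (-14784, 26688) (by decide +kernel)
         (CovZ.subM 762145642166990290864647761179972536182226690153220745598778594524545919168038819938959092798412534720382581155676175973936898022172314829824 (by decide +kernel)
          (CovZ.n2 (-14592, 26688) (by decide +kernel)
           (CovZ.badM (by decide +kernel))
           (CovZ.n1 (-14688, 26784) (by decide +kernel)
            (CovZ.n2 (-14592, 26784) (by decide +kernel)
             (CovZ.subM 293567822846729155523221050933153214690406007022918144889879765107462389409290471221413162702561810667536384 (by decide +kernel)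
              (CovZ.n2 (-14640, 26736) (by decide +kernel)
               (CovZ.n2 (-14640, 26784) (by decide +kernel)
                (CovZ.badM (by decide +kernel))
                (CovZ.n1 (-14664, 26760) (by decide +kernel)
                 (CovZ.n2 (-14664, 26784) (by decide +kernel)
                  (CovZ.leaf K2_ok TB_l47069 _)
                  (CovZ.leaf K2_ok TB_l47070 _))
                 (CovZ.badM (by decide +kernel))))
               (CovZ.badM (by decide +kernel))))
             (CovZ.n1 (-14640, 26832) (by decide +kernel)
              (CovZ.leaf K2_ok TB_l35678 _)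
              (CovZ.n1 (-14640, 26784) (by decide +kernel)
               (CovZ.leaf K2_ok TB_l35679 _)
               (CovZ.n1 (-14616, 26808) (by decide +kernel)
                (CovZ.n2 (-14616, 26784) (by decide +kernel)
                 (CovZ.leaf K2_ok TB_l35680 _)
                 (CovZ.leaf K2_ok TB_l35681 _))
                (CovZ.leaf K2_ok TB_l35682 _)))))
            (CovZ.subM 293567822846729155523221050933153214690406007022918144889879765107462389409290471221413162702561810667536384 (by decide +kernel)
             (CovZ.n1 (-14688, 26688) (by decide +kernel)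
              (CovZ.n2 (-14736, 26736) (by decide +kernel)
               (CovZ.n2 (-14688, 26736) (by decide +kernel)
                (CovZ.badM (by decide +kernel))
                (CovZ.n1 (-14712, 26760) (by decide +kernel)
                 (CovZ.leaf K2_ok TB_l47071 _)
                 (CovZ.n1 (-14712, 26736) (by decide +kernel)
                  (CovZ.leaf K2_ok TB_l35683 _)
                  (CovZ.leaf K2_ok TB_l47072 _))))
               (CovZ.badM (by decide +kernel)))
              (CovZ.n1 (-14640, 26736) (by decide +kernel)
               (CovZ.badM (by decide +kernel))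
               (CovZ.n1 (-14688, 26736) (by decide +kernel)
                (CovZ.n2 (-14664, 26760) (by decide +kernel)
                 (CovZ.badM (by decide +kernel))
                 (CovZ.leaf K2_ok TB_l47073 _))
                (CovZ.badM (by decide +kernel)))))))))
         (CovZ.n1 (-14784, 26496) (by decide +kernel)
          (CovZ.n2 (-14880, 26592) (by decide +kernel)
           (CovZ.badM (by decide +kernel))
           (CovZ.badM (by decide +kernel)))
          (CovZ.badM (by decide +kernel)))))
       (CovZ.n1 (-14976, 26112) (by decide +kernel)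
        (CovZ.n2 (-15168, 26304) (by decide +kernel)
         (CovZ.badM (by decide +kernel))
         (CovZ.badM (by decide +kernel)))
        (CovZ.badM (by decide +kernel))))
      (CovZ.n1 (-14208, 26496) (by decide +kernel)
       (CovZ.n2 (-14208, 26112) (by decide +kernel)
        (CovZ.badM (by decide +kernel))
        (CovZ.n1 (-14016, 26304) (by decide +kernel)
         (CovZ.badM (by decide +kernel))
         (CovZ.badM (by decide +kernel))))
       (CovZ.subM 762145642166990290864647761179972536182226690153220745598778594524545919168038819938959092798412534720382581155676175973936898022172314829824 (by decide +kernel)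
        (CovZ.n1 (-14592, 26496) (by decide +kernel)
         (CovZ.n2 (-14400, 26688) (by decide +kernel)
          (CovZ.badM (by decide +kernel))
          (CovZ.n1 (-14592, 26688) (by decide +kernel)
           (CovZ.n2 (-14496, 26784) (by decide +kernel)
            (CovZ.badM (by decide +kernel))
            (CovZ.n1 (-14592, 26784) (by decide +kernel)
             (CovZ.n2 (-14544, 26832) (by decide +kernel)
              (CovZ.subM 293567822846729153486185074598667128421960318613539983838411371441526819340480012173230925869188085830386688 (by decide +kernel)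
               (CovZ.n2 (-14544, 26784) (by decide +kernel)
                (CovZ.n2 (-14568, 26808) (by decide +kernel)
                 (CovZ.leaf K2_ok TB_l47074 _)
                 (CovZ.n1 (-14568, 26784) (by decide +kernel)
                  (CovZ.leaf K2_ok TB_l35684 _)
                  (CovZ.badM (by decide +kernel))))
                (CovZ.n1 (-14520, 26808) (by decide +kernel)
                 (CovZ.badM (by decide +kernel))
                 (CovZ.leaf K2_ok TB_l47075 _))))
              (CovZ.n1 (-14592, 26832) (by decide +kernel)
               (CovZ.leaf K2_ok TB_l35685 _)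
               (CovZ.n1 (-14568, 26808) (by decide +kernel)
                (CovZ.leaf K2_ok TB_l35686 _)
                (CovZ.leaf K2_ok TB_l35687 _))))
             (CovZ.badM (by decide +kernel))))
           (CovZ.badM (by decide +kernel))))
         (CovZ.badM (by decide +kernel)))))))))
    (CovZ.topM TB_LL 196256248024775907886732825846833801152311304220148490297373907191062770939817652187979091982507404742539203700658542231506419157070574807747585 (by decide +kernel) (CovZ.n0 (-14592, 26880) (by decide +kernel)
    (CovZ.subM 762145642166990290864647761179972536182226690153220746096101830934332561323421068085779932898868685866180106937179031912709168299372991024129 (by decide +kernel)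
     (CovZ.n2 (-15360, 26880) (by decide +kernel)
      (CovZ.n2 (-14976, 27264) (by decide +kernel)
       (CovZ.n2 (-14976, 26880) (by decide +kernel)
        (CovZ.n2 (-15168, 27072) (by decide +kernel)
         (CovZ.n2 (-14976, 27072) (by decide +kernel)
          (CovZ.leaf K2_ok TB_l35688 _)
          (CovZ.leaf K2_ok TB_l35689 _))
         (CovZ.n1 (-15168, 26880) (by decide +kernel)
          (CovZ.leaf K2_ok TB_l35690 _)
          (CovZ.leaf K2_ok TB_l35691 _)))
        (CovZ.n1 (-14784, 27072) (by decide +kernel)
         (CovZ.n2 (-14784, 26880) (by decide +kernel)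
          (CovZ.n2 (-14880, 26976) (by decide +kernel)
           (CovZ.n2 (-14784, 26976) (by decide +kernel)
            (CovZ.leaf K2_ok TB_l35692 _)
            (CovZ.leaf K2_ok TB_l35693 _))
           (CovZ.n1 (-14880, 26880) (by decide +kernel)
            (CovZ.leaf K2_ok TB_l35694 _)
            (CovZ.leaf K2_ok TB_l35695 _)))
          (CovZ.n1 (-14688, 26976) (by decide +kernel)
           (CovZ.n2 (-14688, 26880) (by decide +kernel)
            (CovZ.leaf K2_ok TB_l35696 _)
            (CovZ.leaf K2_ok TB_l35697 _))
           (CovZ.leaf K2_ok TB_l35698 _)))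
         (CovZ.n1 (-14976, 27072) (by decide +kernel)
          (CovZ.leaf K2_ok TB_l35699 _)
          (CovZ.n1 (-14880, 26976) (by decide +kernel)
           (CovZ.leaf K2_ok TB_l35700 _)
           (CovZ.leaf K2_ok TB_l35701 _)))))
       (CovZ.n1 (-15360, 27264) (by decide +kernel)
        (CovZ.n2 (-15168, 27456) (by decide +kernel)
         (CovZ.n2 (-15168, 27264) (by decide +kernel)
          (CovZ.leaf K2_ok TB_l35702 _)
          (CovZ.leaf K2_ok TB_l35703 _))
         (CovZ.leaf K2_ok TB_l35704 _))
        (CovZ.n1 (-15168, 27072) (by decide +kernel)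
         (CovZ.leaf K2_ok TB_l35705 _)
         (CovZ.n1 (-15168, 27264) (by decide +kernel)
          (CovZ.leaf K2_ok TB_l35706 _)
          (CovZ.leaf K2_ok TB_l35707 _)))))
      (CovZ.n1 (-14976, 26496) (by decide +kernel)
       TB_u469
       TB_u470)))
    (CovZ.n1 (-14592, 27648) (by decide +kernel)
     (CovZ.n2 (-14208, 27264) (by decide +kernel)
      (CovZ.subM 762168912363022817404003004394248711415480097755279626062273779447252295418786529972003050623018550123684630756775623418323743805254433508352 (by decide +kernel)
       (CovZ.n2 (-14592, 27264) (by decide +kernel)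
        (CovZ.n2 (-14400, 27456) (by decide +kernel)
         (CovZ.n2 (-14400, 27264) (by decide +kernel)
          (CovZ.n2 (-14496, 27360) (by decide +kernel)
           (CovZ.leaf K2_ok TB_l35815 _)
           (CovZ.leaf K2_ok TB_l35816 _))
          (CovZ.n1 (-14304, 27360) (by decide +kernel)
           (CovZ.n2 (-14304, 27264) (by decide +kernel)
            (CovZ.leaf K2_ok TB_l35817 _)
            (CovZ.leaf K2_ok TB_l35818 _))
           (CovZ.leaf K2_ok TB_l35819 _)))
         (CovZ.n1 (-14592, 27456) (by decide +kernel)
          (CovZ.n2 (-14496, 27552) (by decide +kernel)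
           (CovZ.leaf K2_ok TB_l35820 _)
           (CovZ.leaf K2_ok TB_l35821 _))
          (CovZ.n1 (-14496, 27360) (by decide +kernel)
           (CovZ.leaf K2_ok TB_l35822 _)
           (CovZ.leaf K2_ok TB_l35823 _))))
        (CovZ.n1 (-14400, 27072) (by decide +kernel)
         (CovZ.n2 (-14592, 27072) (by decide +kernel)
          (CovZ.n2 (-14496, 27168) (by decide +kernel)
           (CovZ.n2 (-14496, 27072) (by decide +kernel)
            (CovZ.leaf K2_ok TB_l35824 _)
            (CovZ.leaf K2_ok TB_l35825 _))
           (CovZ.leaf K2_ok TB_l35826 _))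
          (CovZ.n1 (-14496, 26976) (by decide +kernel)
           (CovZ.n2 (-14592, 26976) (by decide +kernel)
            (CovZ.leaf K2_ok TB_l35827 _)
            (CovZ.n1 (-14544, 26928) (by decide +kernel)
             (CovZ.leaf K2_ok TB_l35828 _)
             (CovZ.leaf K2_ok TB_l35829 _)))
           (CovZ.n1 (-14496, 27072) (by decide +kernel)
            (CovZ.leaf K2_ok TB_l47100 _)
            (CovZ.leaf K2_ok TB_l35830 _))))
         (CovZ.n1 (-14400, 27264) (by decide +kernel)
          (CovZ.n2 (-14304, 27168) (by decide +kernel)
           (CovZ.leaf K2_ok TB_l35831 _)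
           (CovZ.n1 (-14304, 27264) (by decide +kernel)
            (CovZ.leaf K2_ok TB_l35832 _)
            (CovZ.leaf K2_ok TB_l35833 _)))
          (CovZ.n1 (-14496, 27168) (by decide +kernel)
           (CovZ.leaf K2_ok TB_l35834 _)
           (CovZ.leaf K2_ok TB_l35835 _))))))
      (CovZ.n1 (-14208, 27648) (by decide +kernel)
       (CovZ.n2 (-14016, 27456) (by decide +kernel)
        (CovZ.subM 762168935076732951641718334060617414347798949577416624319912230090606329407757260597549394668892951405737648364880234059455358347957158021120 (by decide +kernel)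
         (CovZ.n2 (-14208, 27456) (by decide +kernel)
          (CovZ.n2 (-14112, 27552) (by decide +kernel)
           (CovZ.n2 (-14112, 27456) (by decide +kernel)
            (CovZ.leaf K2_ok TB_l35836 _)
            (CovZ.leaf K2_ok TB_l35837 _))
           (CovZ.n1 (-14208, 27552) (by decide +kernel)
            (CovZ.leaf K2_ok TB_l35838 _)
            (CovZ.leaf K2_ok TB_l35839 _)))
          (CovZ.n1 (-14112, 27360) (by decide +kernel)
           (CovZ.n2 (-14208, 27360) (by decide +kernel)
            (CovZ.leaf K2_ok TB_l35840 _)
            (CovZ.leaf K2_ok TB_l35841 _))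
           (CovZ.n1 (-14112, 27456) (by decide +kernel)
            (CovZ.leaf K2_ok TB_l35842 _)
            (CovZ.leaf K2_ok TB_l35843 _)))))
        (CovZ.n1 (-14016, 27648) (by decide +kernel)
         (CovZ.n2 (-13920, 27552) (by decide +kernel)
          (CovZ.n2 (-14016, 27552) (by decide +kernel)
           (CovZ.leaf K2_ok TB_l35844 _)
           (CovZ.leaf K2_ok TB_l35845 _))
          (CovZ.n1 (-13920, 27648) (by decide +kernel)
           (CovZ.n2 (-13872, 27600) (by decide +kernel)
            (CovZ.leaf K2_ok TB_l35846 _)
            (CovZ.n1 (-13872, 27648) (by decide +kernel)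
             (CovZ.leaf K2_ok TB_l35847 _)
             (CovZ.leaf K2_ok TB_l35848 _)))
           (CovZ.leaf K2_ok TB_l35849 _)))
         (CovZ.subM 762168935076732951641718334060617414347798949577416624319912230090606329407757260597549394668892951405737648364880234059455358347957158021120 (by decide +kernel)
          (CovZ.n1 (-14112, 27552) (by decide +kernel)
           (CovZ.n2 (-14112, 27648) (by decide +kernel)
            (CovZ.leaf K2_ok TB_l35850 _)
            (CovZ.leaf K2_ok TB_l35851 _))
           (CovZ.n1 (-14016, 27552) (by decide +kernel)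
            (CovZ.leaf K2_ok TB_l35852 _)
            (CovZ.leaf K2_ok TB_l35853 _))))))
       (CovZ.subM 762168912363022817404003004394248711415480097755279626062273779447252295418786529972003050623018550123684630756775623418323743805254433508352 (by decide +kernel)
        (CovZ.n1 (-14400, 27456) (by decide +kernel)
         (CovZ.n2 (-14400, 27648) (by decide +kernel)
          (CovZ.n2 (-14304, 27552) (by decide +kernel)
           (CovZ.n2 (-14400, 27552) (by decide +kernel)
            (CovZ.leaf K2_ok TB_l35854 _)
            (CovZ.leaf K2_ok TB_l35855 _))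
           (CovZ.n1 (-14304, 27648) (by decide +kernel)
            (CovZ.leaf K2_ok TB_l35856 _)
            (CovZ.leaf K2_ok TB_l35857 _)))
          (CovZ.n1 (-14496, 27552) (by decide +kernel)
           (CovZ.n2 (-14496, 27648) (by decide +kernel)
            (CovZ.leaf K2_ok TB_l35858 _)
            (CovZ.leaf K2_ok TB_l35859 _))
           (CovZ.leaf K2_ok TB_l35860 _)))
         (CovZ.n1 (-14208, 27456) (by decide +kernel)
          (CovZ.n2 (-14304, 27360) (by decide +kernel)
           (CovZ.leaf K2_ok TB_l35861 _)
           (CovZ.leaf K2_ok TB_l35862 _))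
          (CovZ.n1 (-14304, 27552) (by decide +kernel)
           (CovZ.leaf K2_ok TB_l35863 _)
           (CovZ.n1 (-14304, 27456) (by decide +kernel)
            (CovZ.leaf K2_ok TB_l35864 _)
            (CovZ.n1 (-14256, 27504) (by decide +kernel)
             (CovZ.leaf K2_ok TB_l35865 _)
             (CovZ.leaf K2_ok TB_l35866 _)))))))))
     (CovZ.subM 762145642166990290864647761179972536182226690153220746096101830934332561323421068085779932898868685866180106937179031912709168299372991024129 (by decide +kernel)
      (CovZ.n1 (-14976, 27264) (by decide +kernel)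
       (CovZ.n2 (-14976, 27648) (by decide +kernel)
        (CovZ.n2 (-14784, 27456) (by decide +kernel)
         (CovZ.n2 (-14976, 27456) (by decide +kernel)
          (CovZ.leaf K2_ok TB_l35867 _)
          (CovZ.leaf K2_ok TB_l35868 _))
         (CovZ.n1 (-14784, 27648) (by decide +kernel)
          (CovZ.leaf K2_ok TB_l35869 _)
          (CovZ.leaf K2_ok TB_l35870 _)))
        (CovZ.n1 (-15168, 27456) (by decide +kernel)
         (CovZ.n2 (-15168, 27648) (by decide +kernel)
          (CovZ.leaf K2_ok TB_l35871 _)
          (CovZ.leaf K2_ok TB_l35872 _))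
         (CovZ.n1 (-14976, 27456) (by decide +kernel)
          (CovZ.leaf K2_ok TB_l35873 _)
          (CovZ.leaf K2_ok TB_l35874 _))))
       (CovZ.n1 (-14592, 27264) (by decide +kernel)
        (CovZ.n2 (-14784, 27072) (by decide +kernel)
         (CovZ.n2 (-14784, 27264) (by decide +kernel)
          (CovZ.leaf K2_ok TB_l35875 _)
          (CovZ.leaf K2_ok TB_l35876 _))
         (CovZ.n1 (-14592, 27072) (by decide +kernel)
          (CovZ.n2 (-14688, 26976) (by decide +kernel)
           (CovZ.n2 (-14688, 27072) (by decide +kernel)
            (CovZ.leaf K2_ok TB_l35877 _)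
            (CovZ.leaf K2_ok TB_l35878 _))
           (CovZ.leaf K2_ok TB_l35879 _))
          (CovZ.n1 (-14688, 27168) (by decide +kernel)
           (CovZ.leaf K2_ok TB_l35880 _)
           (CovZ.leaf K2_ok TB_l35881 _))))
        (CovZ.n1 (-14784, 27456) (by decide +kernel)
         (CovZ.n2 (-14592, 27456) (by decide +kernel)
          (CovZ.leaf K2_ok TB_l35882 _)
          (CovZ.leaf K2_ok TB_l35883 _))
         (CovZ.n1 (-14784, 27264) (by decide +kernel)
          (CovZ.leaf K2_ok TB_l35884 _)
          (CovZ.n1 (-14688, 27360) (by decide +kernel)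
           (CovZ.leaf K2_ok TB_l35885 _)
           (CovZ.leaf K2_ok TB_l35886 _))))))))))

theorem TB_s12_20 : SqZ TB_M TB_L [0, 7, 6, 1] (-32256) (-4608) 1536 12 20 :=
  SqZ.mk (a := (-13824)) (b := (-12288)) (c := 26112) (d := 27648) (by norm_num) (by norm_num) (by norm_num) (by norm_num)
    (CovZ.topM TB_LL 100945171925819271993557940610213729791469501858167521622594285906296525315020946788414652196380935224239869183849236742996021289546923304179206144 (by decide +kernel) (CovZ.n2 (-13056, 26880) (by decide +kernel)
    (CovZ.badM (by decide +kernel))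
    (CovZ.n1 (-13056, 26112) (by decide +kernel)
     (CovZ.n2 (-13440, 26496) (by decide +kernel)
      (CovZ.badM (by decide +kernel))
      (CovZ.badM (by decide +kernel)))
     (CovZ.badM (by decide +kernel)))))
    (CovZ.topM TB_LL 101043727070610382528018712371357184119552583793447783440307865040322079791311179861847730839948394431752204476762838950040689997316454089408645120 (by decide +kernel) (CovZ.n0 (-13056, 26880) (by decide +kernel)
    (CovZ.n2 (-13824, 26880) (by decide +kernel)
     (CovZ.n2 (-13440, 27264) (by decide +kernel)
      (CovZ.n2 (-13440, 26880) (by decide +kernel)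
       (CovZ.n2 (-13632, 27072) (by decide +kernel)
        (CovZ.subM 100945171856042754461179348589178859907002318645035478936786848889996481296077511702399257900044411328928062503797611157460256153211362152475000832 (by decide +kernel)
         (CovZ.n2 (-13440, 27072) (by decide +kernel)
          (CovZ.n2 (-13536, 26976) (by decide +kernel)
           (CovZ.n2 (-13536, 27072) (by decide +kernel)
            (CovZ.badM (by decide +kernel))
            (CovZ.badM (by decide +kernel)))
           (CovZ.badM (by decide +kernel)))
          (CovZ.n1 (-13536, 27168) (by decide +kernel)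
           (CovZ.subM 100944790783187422560065191647720440611498338566418089066728966464834017275830180264646264185050264056012376204551647145741249506491264893802512384 (by decide +kernel)
            (CovZ.n2 (-13440, 27168) (by decide +kernel)
             (CovZ.badM (by decide +kernel))
             (CovZ.n1 (-13488, 27216) (by decide +kernel)
              (CovZ.n2 (-13440, 27216) (by decide +kernel)
               (CovZ.badM (by decide +kernel))
               (CovZ.n1 (-13464, 27240) (by decide +kernel)
                (CovZ.badM (by decide +kernel))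
                (CovZ.badM (by decide +kernel))))
              (CovZ.badM (by decide +kernel)))))
           (CovZ.n1 (-13536, 27072) (by decide +kernel)
            (CovZ.n2 (-13584, 27120) (by decide +kernel)
             (CovZ.badM (by decide +kernel))
             (CovZ.badM (by decide +kernel)))
            (CovZ.badM (by decide +kernel))))))
        (CovZ.n1 (-13632, 26880) (by decide +kernel)
         (CovZ.badM (by decide +kernel))
         (CovZ.badM (by decide +kernel))))
       (CovZ.badM (by decide +kernel)))
      (CovZ.n1 (-13824, 27264) (by decide +kernel)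
       TB_u471
       TB_u472))
     (CovZ.subM 99896048971534088668909404353469499049880018744045763009708227359816298360584209609590387303402296859502160835366762639838506201172822564467113984 (by decide +kernel)
      (CovZ.n1 (-13440, 26496) (by decide +kernel)
       (CovZ.badM (by decide +kernel))
       (CovZ.n1 (-13440, 26880) (by decide +kernel)
        (CovZ.badM (by decide +kernel))
        (CovZ.n1 (-13632, 26688) (by decide +kernel)
         (CovZ.n2 (-13632, 26880) (by decide +kernel)
          (CovZ.badM (by decide +kernel))
          (CovZ.badM (by decide +kernel)))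
         (CovZ.badM (by decide +kernel)))))))
    (CovZ.n1 (-13056, 27648) (by decide +kernel)
     (CovZ.badM (by decide +kernel))
     (CovZ.n1 (-13440, 27264) (by decide +kernel)
      (CovZ.n2 (-13440, 27648) (by decide +kernel)
       (CovZ.badM (by decide +kernel))
       (CovZ.n1 (-13632, 27456) (by decide +kernel)
        (CovZ.n2 (-13632, 27648) (by decide +kernel)
         (CovZ.n2 (-13536, 27552) (by decide +kernel)
          (CovZ.n2 (-13632, 27552) (by decide +kernel)
           (CovZ.n2 (-13584, 27600) (by decide +kernel)
            (CovZ.n2 (-13584, 27552) (by decide +kernel)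
             (CovZ.leaf K2_ok TB_l48123 _)
             (CovZ.leaf K2_ok TB_l48124 _))
            (CovZ.n1 (-13632, 27600) (by decide +kernel)
             (CovZ.leaf K2_ok TB_l48125 _)
             (CovZ.leaf K2_ok TB_l48126 _)))
           (CovZ.n1 (-13584, 27504) (by decide +kernel)
            (CovZ.n2 (-13632, 27504) (by decide +kernel)
             (CovZ.leaf K2_ok TB_l48127 _)
             (CovZ.leaf K2_ok TB_l48128 _))
            (CovZ.n1 (-13584, 27552) (by decide +kernel)
             (CovZ.leaf K2_ok TB_l48129 _)
             (CovZ.leaf K2_ok TB_l48130 _))))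
          (CovZ.n1 (-13536, 27648) (by decide +kernel)
           (CovZ.subM 101042393292439243890931054022694831234923598918958639519555152047781612482439575580265361282071929516790366919330034790008423213350715353110413312 (by decide +kernel)
            (CovZ.n2 (-13488, 27600) (by decide +kernel)
             (CovZ.n2 (-13536, 27600) (by decide +kernel)
              (CovZ.n2 (-13512, 27624) (by decide +kernel)
               (CovZ.leaf K2_ok TB_l48131 _)
               (CovZ.leaf K2_ok TB_l48132 _))
              (CovZ.n1 (-13512, 27576) (by decide +kernel)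
               (CovZ.leaf K2_ok TB_l48133 _)
               (CovZ.leaf K2_ok TB_l48134 _)))
             (CovZ.n1 (-13488, 27648) (by decide +kernel)
              (CovZ.n2 (-13464, 27624) (by decide +kernel)
               (CovZ.leaf K2_ok TB_l49823 _)
               (CovZ.n1 (-13464, 27648) (by decide +kernel)
                (CovZ.badM (by decide +kernel))
                (CovZ.leaf K2_ok TB_l49824 _)))
              (CovZ.n1 (-13512, 27624) (by decide +kernel)
               (CovZ.leaf K2_ok TB_l48135 _)
               (CovZ.leaf K2_ok TB_l48136 _)))))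
           (CovZ.n1 (-13584, 27600) (by decide +kernel)
            (CovZ.n2 (-13584, 27648) (by decide +kernel)
             (CovZ.n2 (-13560, 27624) (by decide +kernel)
              (CovZ.leaf K2_ok TB_l48137 _)
              (CovZ.leaf K2_ok TB_l48138 _))
             (CovZ.leaf K2_ok TB_l48139 _))
            (CovZ.n1 (-13536, 27600) (by decide +kernel)
             (CovZ.leaf K2_ok TB_l48140 _)
             (CovZ.n1 (-13560, 27624) (by decide +kernel)
              (CovZ.leaf K2_ok TB_l48141 _)
              (CovZ.leaf K2_ok TB_l48142 _))))))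
         (CovZ.n1 (-13728, 27552) (by decide +kernel)
          (CovZ.n2 (-13728, 27648) (by decide +kernel)
           (CovZ.n2 (-13680, 27600) (by decide +kernel)
            (CovZ.leaf K2_ok TB_l36990 _)
            (CovZ.n1 (-13680, 27648) (by decide +kernel)
             (CovZ.leaf K2_ok TB_l48143 _)
             (CovZ.leaf K2_ok TB_l36991 _)))
           (CovZ.n1 (-13776, 27600) (by decide +kernel)
            (CovZ.n2 (-13776, 27648) (by decide +kernel)
             (CovZ.leaf K2_ok TB_l36992 _)
             (CovZ.leaf K2_ok TB_l36993 _))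
            (CovZ.leaf K2_ok TB_l36994 _)))
          (CovZ.n1 (-13632, 27552) (by decide +kernel)
           (CovZ.n2 (-13680, 27504) (by decide +kernel)
            (CovZ.n2 (-13680, 27552) (by decide +kernel)
             (CovZ.leaf K2_ok TB_l48144 _)
             (CovZ.leaf K2_ok TB_l36995 _))
            (CovZ.leaf K2_ok TB_l48145 _))
           (CovZ.n1 (-13680, 27600) (by decide +kernel)
            (CovZ.n2 (-13632, 27600) (by decide +kernel)
             (CovZ.leaf K2_ok TB_l48146 _)
             (CovZ.leaf K2_ok TB_l48147 _))
            (CovZ.n1 (-13680, 27552) (by decide +kernel)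
             (CovZ.leaf K2_ok TB_l36996 _)
             (CovZ.leaf K2_ok TB_l48148 _))))))
        (CovZ.n1 (-13440, 27456) (by decide +kernel)
         (CovZ.n2 (-13536, 27360) (by decide +kernel)
          (CovZ.n2 (-13536, 27456) (by decide +kernel)
           (CovZ.subM 101042393292439243890931054022694831234923598918958639519555152047781612482439575580265361282071929516790366919330034790008423213350715353110413312 (by decide +kernel)
            (CovZ.n2 (-13488, 27408) (by decide +kernel)
             (CovZ.n2 (-13536, 27408) (by decide +kernel)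
              (CovZ.leaf K2_ok TB_l48149 _)
              (CovZ.leaf K2_ok TB_l48150 _))
             (CovZ.n1 (-13488, 27456) (by decide +kernel)
              (CovZ.leaf K2_ok TB_l49825 _)
              (CovZ.leaf K2_ok TB_l48151 _))))
           (CovZ.n1 (-13584, 27408) (by decide +kernel)
            (CovZ.n2 (-13584, 27456) (by decide +kernel)
             (CovZ.leaf K2_ok TB_l48152 _)
             (CovZ.leaf K2_ok TB_l48153 _))
            (CovZ.n1 (-13536, 27408) (by decide +kernel)
             (CovZ.leaf K2_ok TB_l48154 _)
             (CovZ.leaf K2_ok TB_l48155 _))))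
          (CovZ.subM 100944838650241869133700379109263794787868955227000359171090803392793319615601457904636601716351195392691622327732490833042940464110737594194591744 (by decide +kernel)
           (CovZ.n1 (-13440, 27360) (by decide +kernel)
            (CovZ.n2 (-13488, 27312) (by decide +kernel)
             (CovZ.n2 (-13488, 27360) (by decide +kernel)
              (CovZ.leaf K2_ok TB_l49826 _)
              (CovZ.leaf K2_ok TB_l48156 _))
             (CovZ.n1 (-13440, 27312) (by decide +kernel)
              (CovZ.n2 (-13464, 27288) (by decide +kernel)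
               (CovZ.leaf K2_ok TB_l49827 _)
               (CovZ.badM (by decide +kernel)))
              (CovZ.leaf K2_ok TB_l49828 _)))
            (CovZ.n1 (-13488, 27408) (by decide +kernel)
             (CovZ.n2 (-13440, 27408) (by decide +kernel)
              (CovZ.leaf K2_ok TB_l49829 _)
              (CovZ.leaf K2_ok TB_l49830 _))
             (CovZ.n1 (-13488, 27360) (by decide +kernel)
              (CovZ.leaf K2_ok TB_l48157 _)
              (CovZ.n1 (-13464, 27384) (by decide +kernel)
               (CovZ.leaf K2_ok TB_l49831 _)
               (CovZ.leaf K2_ok TB_l49832 _)))))))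
         (CovZ.n1 (-13536, 27552) (by decide +kernel)
          (CovZ.subM 101042393292439243890931054022694831234923598918958639519555152047781612482439575580265361282071929516790366919330034790008423213350715353110413312 (by decide +kernel)
           (CovZ.n2 (-13440, 27552) (by decide +kernel)
            (CovZ.n2 (-13488, 27504) (by decide +kernel)
             (CovZ.n2 (-13488, 27552) (by decide +kernel)
              (CovZ.n2 (-13464, 27528) (by decide +kernel)
               (CovZ.leaf K2_ok TB_l49833 _)
               (CovZ.leaf K2_ok TB_l49834 _))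
              (CovZ.n1 (-13512, 27528) (by decide +kernel)
               (CovZ.leaf K2_ok TB_l48158 _)
               (CovZ.leaf K2_ok TB_l48159 _)))
             (CovZ.subM 878134923621872693239476158006717177069790250739609821812716625412428123888409910781292802591569388833353975186639038752385154068474132621688832 (by decide +kernel)
              (CovZ.n1 (-13440, 27504) (by decide +kernel)
               (CovZ.n2 (-13464, 27480) (by decide +kernel)
                (CovZ.leaf K2_ok TB_l49835 _)
                (CovZ.badM (by decide +kernel)))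
               (CovZ.n1 (-13464, 27528) (by decide +kernel)
                (CovZ.badM (by decide +kernel))
                (CovZ.leaf K2_ok TB_l49836 _)))))
            (CovZ.n1 (-13488, 27600) (by decide +kernel)
             (CovZ.subM 878134923621872693239476158006717177069790250739609821812716625412428123888409910781292802591569388833353975186639038752385154068474132621688832 (by decide +kernel)
              (CovZ.n2 (-13440, 27600) (by decide +kernel)
               (CovZ.n2 (-13464, 27576) (by decide +kernel)
                (CovZ.n2 (-13464, 27600) (by decide +kernel)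
                 (CovZ.badM (by decide +kernel))
                 (CovZ.leaf K2_ok TB_l49837 _))
                (CovZ.badM (by decide +kernel)))
               (CovZ.n1 (-13464, 27624) (by decide +kernel)
                (CovZ.badM (by decide +kernel))
                (CovZ.n1 (-13464, 27600) (by decide +kernel)
                 (CovZ.leaf K2_ok TB_l49838 _)
                 (CovZ.badM (by decide +kernel))))))
             (CovZ.n1 (-13488, 27552) (by decide +kernel)
              (CovZ.n2 (-13512, 27576) (by decide +kernel)
               (CovZ.leaf K2_ok TB_l48160 _)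
               (CovZ.leaf K2_ok TB_l48161 _))
              (CovZ.n1 (-13464, 27576) (by decide +kernel)
               (CovZ.leaf K2_ok TB_l49839 _)
               (CovZ.leaf K2_ok TB_l49840 _))))))
          (CovZ.n1 (-13536, 27456) (by decide +kernel)
           (CovZ.n2 (-13584, 27504) (by decide +kernel)
            (CovZ.n2 (-13536, 27504) (by decide +kernel)
             (CovZ.leaf K2_ok TB_l48162 _)
             (CovZ.leaf K2_ok TB_l48163 _))
            (CovZ.n1 (-13584, 27456) (by decide +kernel)
             (CovZ.leaf K2_ok TB_l48164 _)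
             (CovZ.leaf K2_ok TB_l48165 _)))
           (CovZ.subM 101042393292439243890931054022694831234923598918958639519555152047781612482439575580265361282071929516790366919330034790008423213350715353110413312 (by decide +kernel)
            (CovZ.n1 (-13488, 27504) (by decide +kernel)
             (CovZ.n2 (-13488, 27456) (by decide +kernel)
              (CovZ.leaf K2_ok TB_l48166 _)
              (CovZ.n1 (-13464, 27480) (by decide +kernel)
               (CovZ.leaf K2_ok TB_l49841 _)
               (CovZ.leaf K2_ok TB_l49842 _)))
             (CovZ.n1 (-13536, 27504) (by decide +kernel)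
              (CovZ.leaf K2_ok TB_l48167 _)
              (CovZ.n1 (-13512, 27480) (by decide +kernel)
               (CovZ.leaf K2_ok TB_l48168 _)
               (CovZ.leaf K2_ok TB_l48169 _))))))))))
      (CovZ.badM (by decide +kernel))))))

theorem TB_s0_21 : SqZ TB_M TB_L [0, 7, 6, 1] (-32256) (-4608) 1536 0 21 :=
  SqZ.mk (a := (-32256)) (b := (-30720)) (c := 27648) (d := 29184) (by norm_num) (by norm_num) (by norm_num) (by norm_num)
    (CovZ.topM TB_LL 2353129859973906143154175441529284225823720636258563057311064562201646888730119284886260675824942078871207936 (by decide +kernel) (CovZ.leaf K2_ok TB_l1853 _))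
    (CovZ.topM TB_LL 2353129859973906143154175441529284225823720636258563057311064562201646888730119284886260675824942078871207936 (by decide +kernel) (CovZ.leaf K2_ok TB_l1854 _))

theorem TB_s1_21 : SqZ TB_M TB_L [0, 7, 6, 1] (-32256) (-4608) 1536 1 21 :=
  SqZ.mk (a := (-30720)) (b := (-29184)) (c := 27648) (d := 29184) (by norm_num) (by norm_num) (by norm_num) (by norm_num)
    (CovZ.topM TB_LL 5043456795491623199145623275972558008579490852443297809755944613054516948958865054560048546623859907511181296595369984 (by decide +kernel) (CovZ.leaf K2_ok TB_l4997 _))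
    (CovZ.topM TB_LL 5043456795491623199145623275972558008579490852443297809755944613054516948958865054560048546623859907511181296595369984 (by decide +kernel) (CovZ.leaf K2_ok TB_l4998 _))

theorem TB_s2_21 : SqZ TB_M TB_L [0, 7, 6, 1] (-32256) (-4608) 1536 2 21 :=
  SqZ.mk (a := (-29184)) (b := (-27648)) (c := 27648) (d := 29184) (by norm_num) (by norm_num) (by norm_num) (by norm_num)
    (CovZ.topM TB_LL 5043456793138493339171717132834328964652041523698219635926264656343733324316518645163976051077084924416754786808102912 (by decide +kernel) (CovZ.leaf K2_ok TB_l8288 _))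
    (CovZ.topM TB_LL 5043456793138493339171717132834328964652041523698219635926264656343733324316518645163976051077084924416754786808102912 (by decide +kernel) (CovZ.leaf K2_ok TB_l8289 _))

theorem TB_s3_21 : SqZ TB_M TB_L [0, 7, 6, 1] (-32256) (-4608) 1536 3 21 :=
  SqZ.mk (a := (-27648)) (b := (-26112)) (c := 27648) (d := 29184) (by norm_num) (by norm_num) (by norm_num) (by norm_num)
    (CovZ.topM TB_LL 5043456793138493409163740325890678490535391066932433103450881491608005896667886977445133152830331249669272369090527360 (by decide +kernel) (CovZ.leaf K2_ok TB_l11621 _))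
    (CovZ.topM TB_LL 5043456793138493409163740325890678490535391066932433103450881491608005896667886977445133152830331249669272369090527360 (by decide +kernel) (CovZ.leaf K2_ok TB_l11622 _))

theorem TB_s4_21 : SqZ TB_M TB_L [0, 7, 6, 1] (-32256) (-4608) 1536 4 21 :=
  SqZ.mk (a := (-26112)) (b := (-24576)) (c := 27648) (d := 29184) (by norm_num) (by norm_num) (by norm_num) (by norm_num)
    (CovZ.topM TB_LL 631663411835949099859883151205914022257904644374446960892027670799798706760137269538072325248303414314334467127509124 (by decide +kernel) (CovZ.leaf K2_ok TB_l13838 _))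
    (CovZ.topM TB_LL 631663411835949099859883151205914022257904644374446960892027670799798706760137269538072325248303414314334467127509124 (by decide +kernel) (CovZ.leaf K2_ok TB_l13839 _))

theorem TB_s5_21 : SqZ TB_M TB_L [0, 7, 6, 1] (-32256) (-4608) 1536 5 21 :=
  SqZ.mk (a := (-24576)) (b := (-23040)) (c := 27648) (d := 29184) (by norm_num) (by norm_num) (by norm_num) (by norm_num)
    (CovZ.topM TB_LL 631663411835949112983387499888071224927804834531202921070342850772881632126242921033552936495522577621996465736122500 (by decide +kernel) (CovZ.n2 (-23808, 28416) (by decide +kernel)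
    (CovZ.leaf K2_ok TB_l15587 _)
    (CovZ.leaf K2_ok TB_l15588 _)))
    (CovZ.topM TB_LL 631663411835949112983387499888071224927804834531202921070342850772881632126242921033552936495522577621996465736122500 (by decide +kernel) (CovZ.n0 (-23808, 28416) (by decide +kernel)
    (CovZ.leaf K2_ok TB_l15589 _)
    (CovZ.leaf K2_ok TB_l15590 _)))

theorem TB_s6_21 : SqZ TB_M TB_L [0, 7, 6, 1] (-32256) (-4608) 1536 6 21 :=
  SqZ.mk (a := (-23040)) (b := (-21504)) (c := 27648) (d := 29184) (by norm_num) (by norm_num) (by norm_num) (by norm_num)
    (CovZ.topM TB_LL 631665816743553873402847209822769027054881441568903534078610040645603795480090078617502485061436500767362117649334404 (by decide +kernel) (CovZ.n2 (-22272, 28416) (by decide +kernel)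
    (CovZ.leaf K2_ok TB_l18662 _)
    (CovZ.leaf K2_ok TB_l18663 _)))
    (CovZ.topM TB_LL 631663411835949112997621850994637914773765408869973451959062436379648946498048361258456378233662154764210212947918980 (by decide +kernel) (CovZ.n0 (-22272, 28416) (by decide +kernel)
    (CovZ.leaf K2_ok TB_l18664 _)
    (CovZ.leaf K2_ok TB_l18665 _)))

theorem TB_s7_21 : SqZ TB_M TB_L [0, 7, 6, 1] (-32256) (-4608) 1536 7 21 :=
  SqZ.mk (a := (-21504)) (b := (-19968)) (c := 27648) (d := 29184) (by norm_num) (by norm_num) (by norm_num) (by norm_num)
    (CovZ.topM TB_LL 1233717601242206000692295627890642064334646907888123058486851122483293851432135104689694864048736679386390984687616 (by decide +kernel) (CovZ.n2 (-20736, 28416) (by decide +kernel)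
    (CovZ.n2 (-19968, 28416) (by decide +kernel)
     (CovZ.leaf K2_ok TB_l19610 _)
     (CovZ.leaf K2_ok TB_l19611 _))
    (CovZ.n1 (-20736, 27648) (by decide +kernel)
     (CovZ.leaf K2_ok TB_l19612 _)
     (CovZ.leaf K2_ok TB_l19613 _))))
    (CovZ.topM TB_LL 1233717601242206000692295627890642064334646907888123058486851122483293851432135104689694864048736679386390984687616 (by decide +kernel) (CovZ.n0 (-20736, 28416) (by decide +kernel)
    (CovZ.n2 (-21504, 28416) (by decide +kernel)
     (CovZ.leaf K2_ok TB_l19614 _)
     (CovZ.leaf K2_ok TB_l19615 _))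
    (CovZ.n1 (-20736, 29184) (by decide +kernel)
     (CovZ.leaf K2_ok TB_l19616 _)
     (CovZ.leaf K2_ok TB_l19617 _))))

theorem TB_s8_21 : SqZ TB_M TB_L [0, 7, 6, 1] (-32256) (-4608) 1536 8 21 :=
  SqZ.mk (a := (-19968)) (b := (-18432)) (c := 27648) (d := 29184) (by norm_num) (by norm_num) (by norm_num) (by norm_num)
    (CovZ.topM TB_LL 1233717601242122876620805729753875579670042691810176995431283351254209485697767611392878750646557741838003760824321 (by decide +kernel) (CovZ.n2 (-19200, 28416) (by decide +kernel)
    (CovZ.n2 (-18432, 28416) (by decide +kernel)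
     (CovZ.n2 (-18816, 28032) (by decide +kernel)
      (CovZ.n2 (-18816, 28416) (by decide +kernel)
       (CovZ.leaf K2_ok TB_l20533 _)
       (CovZ.leaf K2_ok TB_l20534 _))
      (CovZ.n1 (-18432, 28032) (by decide +kernel)
       (CovZ.leaf K2_ok TB_l20535 _)
       (CovZ.leaf K2_ok TB_l20536 _)))
     (CovZ.n1 (-18816, 28800) (by decide +kernel)
      (CovZ.leaf K2_ok TB_l20537 _)
      (CovZ.n1 (-18816, 28416) (by decide +kernel)
       (CovZ.leaf K2_ok TB_l20538 _)
       (CovZ.leaf K2_ok TB_l20539 _))))
    (CovZ.n1 (-19200, 27648) (by decide +kernel)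
     (CovZ.n2 (-19584, 28032) (by decide +kernel)
      (CovZ.leaf K2_ok TB_l20540 _)
      (CovZ.leaf K2_ok TB_l20541 _))
     (CovZ.n1 (-18816, 28032) (by decide +kernel)
      (CovZ.n2 (-18816, 27648) (by decide +kernel)
       (CovZ.leaf K2_ok TB_l20542 _)
       (CovZ.leaf K2_ok TB_l20543 _))
      (CovZ.leaf K2_ok TB_l20544 _)))))
    (CovZ.topM TB_LL 1233717601242122876620805729753875579670042691810176995431283351254209485697767611392878750646557741838003760824321 (by decide +kernel) (CovZ.n0 (-19200, 28416) (by decide +kernel)
    (CovZ.n2 (-19968, 28416) (by decide +kernel)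
     (CovZ.n2 (-19584, 28800) (by decide +kernel)
      (CovZ.leaf K2_ok TB_l20545 _)
      (CovZ.leaf K2_ok TB_l20546 _))
     (CovZ.n1 (-19584, 28032) (by decide +kernel)
      (CovZ.leaf K2_ok TB_l20547 _)
      (CovZ.leaf K2_ok TB_l20548 _)))
    (CovZ.n1 (-19200, 29184) (by decide +kernel)
     (CovZ.n2 (-18816, 28800) (by decide +kernel)
      (CovZ.leaf K2_ok TB_l20549 _)
      (CovZ.n1 (-18816, 29184) (by decide +kernel)
       (CovZ.leaf K2_ok TB_l20550 _)
       (CovZ.leaf K2_ok TB_l20551 _)))
     (CovZ.n1 (-19584, 28800) (by decide +kernel)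
      (CovZ.leaf K2_ok TB_l20552 _)
      (CovZ.leaf K2_ok TB_l20553 _)))))

theorem TB_s9_21 : SqZ TB_M TB_L [0, 7, 6, 1] (-32256) (-4608) 1536 9 21 :=
  SqZ.mk (a := (-18432)) (b := (-16896)) (c := 27648) (d := 29184) (by norm_num) (by norm_num) (by norm_num) (by norm_num)
    (CovZ.topM TB_LL 2405201172618247966241249845438581414515971725905004572126468075214254268821604961723439666821658608901455708161 (by decide +kernel) (CovZ.n2 (-17664, 28416) (by decide +kernel)
    (CovZ.n2 (-16896, 28416) (by decide +kernel)
     (CovZ.n2 (-17280, 28032) (by decide +kernel)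
      (CovZ.n2 (-17280, 28416) (by decide +kernel)
       (CovZ.n2 (-17088, 28224) (by decide +kernel)
        (CovZ.leaf K2_ok TB_l23613 _)
        (CovZ.n1 (-17088, 28416) (by decide +kernel)
         (CovZ.leaf K2_ok TB_l23614 _)
         (CovZ.leaf K2_ok TB_l23615 _)))
       (CovZ.n1 (-17472, 28224) (by decide +kernel)
        (CovZ.leaf K2_ok TB_l23616 _)
        (CovZ.leaf K2_ok TB_l23617 _)))
      (CovZ.n1 (-16896, 28032) (by decide +kernel)
       (CovZ.n2 (-17088, 27840) (by decide +kernel)
        (CovZ.n2 (-17088, 28032) (by decide +kernel)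
         (CovZ.leaf K2_ok TB_l23618 _)
         (CovZ.leaf K2_ok TB_l23619 _))
        (CovZ.leaf K2_ok TB_l23620 _))
       (CovZ.n1 (-17088, 28224) (by decide +kernel)
        (CovZ.leaf K2_ok TB_l23621 _)
        (CovZ.leaf K2_ok TB_l23622 _))))
     (CovZ.n1 (-17280, 28800) (by decide +kernel)
      (CovZ.n2 (-16896, 28800) (by decide +kernel)
       (CovZ.n2 (-17088, 28608) (by decide +kernel)
        (CovZ.n2 (-17088, 28800) (by decide +kernel)
         (CovZ.leaf K2_ok TB_l23623 _)
         (CovZ.leaf K2_ok TB_l23624 _))
        (CovZ.leaf K2_ok TB_l23625 _))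
       (CovZ.n1 (-17088, 28992) (by decide +kernel)
        (CovZ.leaf K2_ok TB_l23626 _)
        (CovZ.leaf K2_ok TB_l23627 _)))
      (CovZ.n1 (-17280, 28416) (by decide +kernel)
       (CovZ.n2 (-17472, 28608) (by decide +kernel)
        (CovZ.leaf K2_ok TB_l23628 _)
        (CovZ.leaf K2_ok TB_l23629 _))
       (CovZ.leaf K2_ok TB_l23630 _))))
    (CovZ.n1 (-17664, 27648) (by decide +kernel)
     (CovZ.n2 (-18048, 28032) (by decide +kernel)
      (CovZ.n2 (-17664, 28032) (by decide +kernel)
       (CovZ.n2 (-17856, 27840) (by decide +kernel)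
        (CovZ.leaf K2_ok TB_l23631 _)
        (CovZ.leaf K2_ok TB_l23632 _))
       (CovZ.leaf K2_ok TB_l23633 _))
      (CovZ.n1 (-18048, 27648) (by decide +kernel)
       (CovZ.leaf K2_ok TB_l23634 _)
       (CovZ.leaf K2_ok TB_l23635 _)))
     (CovZ.n1 (-17280, 28032) (by decide +kernel)
      (CovZ.n2 (-17280, 27648) (by decide +kernel)
       (CovZ.n2 (-17472, 27840) (by decide +kernel)
        (CovZ.leaf K2_ok TB_l23636 _)
        (CovZ.leaf K2_ok TB_l23637 _))
       (CovZ.leaf K2_ok TB_l23638 _))
      (CovZ.n1 (-17664, 28032) (by decide +kernel)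
       (CovZ.leaf K2_ok TB_l23639 _)
       (CovZ.n1 (-17472, 27840) (by decide +kernel)
        (CovZ.leaf K2_ok TB_l23640 _)
        (CovZ.leaf K2_ok TB_l23641 _)))))))
    (CovZ.topM TB_LL 2405201172618247966241249845438581414515971725905004572126468075214254268821604961723439666821658608901455708161 (by decide +kernel) (CovZ.n0 (-17664, 28416) (by decide +kernel)
    (CovZ.n2 (-18432, 28416) (by decide +kernel)
     (CovZ.n2 (-18048, 28800) (by decide +kernel)
      (CovZ.n2 (-18048, 28416) (by decide +kernel)
       (CovZ.leaf K2_ok TB_l23642 _)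
       (CovZ.leaf K2_ok TB_l23643 _))
      (CovZ.n1 (-18432, 28800) (by decide +kernel)
       (CovZ.leaf K2_ok TB_l23644 _)
       (CovZ.leaf K2_ok TB_l23645 _)))
     (CovZ.n1 (-18048, 28032) (by decide +kernel)
      (CovZ.n2 (-18432, 28032) (by decide +kernel)
       (CovZ.leaf K2_ok TB_l23646 _)
       (CovZ.leaf K2_ok TB_l23647 _))
      (CovZ.n1 (-18048, 28416) (by decide +kernel)
       (CovZ.leaf K2_ok TB_l23648 _)
       (CovZ.leaf K2_ok TB_l23649 _))))
    (CovZ.n1 (-17664, 29184) (by decide +kernel)
     (CovZ.n2 (-17280, 28800) (by decide +kernel)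
      (CovZ.n2 (-17664, 28800) (by decide +kernel)
       (CovZ.n2 (-17472, 28992) (by decide +kernel)
        (CovZ.leaf K2_ok TB_l23650 _)
        (CovZ.leaf K2_ok TB_l23651 _))
       (CovZ.n1 (-17472, 28608) (by decide +kernel)
        (CovZ.leaf K2_ok TB_l23652 _)
        (CovZ.leaf K2_ok TB_l23653 _)))
      (CovZ.n1 (-17280, 29184) (by decide +kernel)
       (CovZ.n2 (-17088, 28992) (by decide +kernel)
        (CovZ.leaf K2_ok TB_l23654 _)
        (CovZ.leaf K2_ok TB_l23655 _))
       (CovZ.n1 (-17472, 28992) (by decide +kernel)
        (CovZ.leaf K2_ok TB_l23656 _)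
        (CovZ.leaf K2_ok TB_l23657 _))))
     (CovZ.n1 (-18048, 28800) (by decide +kernel)
      (CovZ.n2 (-18048, 29184) (by decide +kernel)
       (CovZ.leaf K2_ok TB_l23658 _)
       (CovZ.leaf K2_ok TB_l23659 _))
      (CovZ.n1 (-17664, 28800) (by decide +kernel)
       (CovZ.leaf K2_ok TB_l23660 _)
       (CovZ.leaf K2_ok TB_l23661 _))))))

theorem TB_s10_21 : SqZ TB_M TB_L [0, 7, 6, 1] (-32256) (-4608) 1536 10 21 :=
  SqZ.mk (a := (-16896)) (b := (-15360)) (c := 27648) (d := 29184) (by norm_num) (by norm_num) (by norm_num) (by norm_num)
    (CovZ.topM TB_LL 726838724295649497672314647080906440271934055137225163209362074885150224921163385164021199187462915266693273172355649795228219046200321 (by decide +kernel) (CovZ.n2 (-16128, 28416) (by decide +kernel)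
    (CovZ.n2 (-15360, 28416) (by decide +kernel)
     (CovZ.n2 (-15744, 28032) (by decide +kernel)
      (CovZ.n2 (-15744, 28416) (by decide +kernel)
       (CovZ.n2 (-15552, 28224) (by decide +kernel)
        (CovZ.n2 (-15744, 28224) (by decide +kernel)
         (CovZ.leaf K2_ok TB_l30896 _)
         (CovZ.leaf K2_ok TB_l30897 _))
        (CovZ.n1 (-15552, 28416) (by decide +kernel)
         (CovZ.leaf K2_ok TB_l30898 _)
         (CovZ.leaf K2_ok TB_l30899 _)))
       (CovZ.n1 (-15936, 28224) (by decide +kernel)
        (CovZ.leaf K2_ok TB_l30900 _)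
        (CovZ.leaf K2_ok TB_l30901 _)))
      (CovZ.n1 (-15360, 28032) (by decide +kernel)
       (CovZ.n2 (-15552, 27840) (by decide +kernel)
        (CovZ.n2 (-15552, 28032) (by decide +kernel)
         (CovZ.leaf K2_ok TB_l30902 _)
         (CovZ.leaf K2_ok TB_l30903 _))
        (CovZ.leaf K2_ok TB_l30904 _))
       (CovZ.n1 (-15552, 28224) (by decide +kernel)
        (CovZ.leaf K2_ok TB_l30905 _)
        (CovZ.n1 (-15552, 28032) (by decide +kernel)
         (CovZ.leaf K2_ok TB_l30906 _)
         (CovZ.leaf K2_ok TB_l30907 _)))))
     (CovZ.n1 (-15744, 28800) (by decide +kernel)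
      (CovZ.n2 (-15360, 28800) (by decide +kernel)
       (CovZ.n2 (-15552, 28608) (by decide +kernel)
        (CovZ.n2 (-15552, 28800) (by decide +kernel)
         (CovZ.leaf K2_ok TB_l30908 _)
         (CovZ.leaf K2_ok TB_l30909 _))
        (CovZ.n1 (-15360, 28608) (by decide +kernel)
         (CovZ.leaf K2_ok TB_l30910 _)
         (CovZ.leaf K2_ok TB_l30911 _)))
       (CovZ.n1 (-15552, 28992) (by decide +kernel)
        (CovZ.n2 (-15360, 28992) (by decide +kernel)
         (CovZ.leaf K2_ok TB_l30912 _)
         (CovZ.leaf K2_ok TB_l30913 _))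
        (CovZ.n1 (-15552, 28800) (by decide +kernel)
         (CovZ.leaf K2_ok TB_l30914 _)
         (CovZ.leaf K2_ok TB_l30915 _))))
      (CovZ.n1 (-15744, 28416) (by decide +kernel)
       (CovZ.n2 (-15936, 28608) (by decide +kernel)
        (CovZ.leaf K2_ok TB_l30916 _)
        (CovZ.leaf K2_ok TB_l30917 _))
       (CovZ.n1 (-15552, 28608) (by decide +kernel)
        (CovZ.n2 (-15552, 28416) (by decide +kernel)
         (CovZ.leaf K2_ok TB_l30918 _)
         (CovZ.leaf K2_ok TB_l30919 _))
        (CovZ.leaf K2_ok TB_l30920 _)))))
    (CovZ.n1 (-16128, 27648) (by decide +kernel)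
     (CovZ.n2 (-16512, 28032) (by decide +kernel)
      (CovZ.n2 (-16128, 28032) (by decide +kernel)
       (CovZ.leaf K2_ok TB_l30921 _)
       (CovZ.n1 (-16320, 28224) (by decide +kernel)
        (CovZ.leaf K2_ok TB_l30922 _)
        (CovZ.leaf K2_ok TB_l30923 _)))
      (CovZ.n1 (-16512, 27648) (by decide +kernel)
       (CovZ.leaf K2_ok TB_l30924 _)
       (CovZ.leaf K2_ok TB_l30925 _)))
     (CovZ.n1 (-15744, 28032) (by decide +kernel)
      (CovZ.n2 (-15744, 27648) (by decide +kernel)
       (CovZ.n2 (-15936, 27840) (by decide +kernel)
        (CovZ.leaf K2_ok TB_l30926 _)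
        (CovZ.leaf K2_ok TB_l30927 _))
       (CovZ.n1 (-15552, 27840) (by decide +kernel)
        (CovZ.n2 (-15552, 27648) (by decide +kernel)
         (CovZ.leaf K2_ok TB_l30928 _)
         (CovZ.leaf K2_ok TB_l30929 _))
        (CovZ.leaf K2_ok TB_l30930 _)))
      (CovZ.n1 (-16128, 28032) (by decide +kernel)
       (CovZ.n2 (-15936, 28224) (by decide +kernel)
        (CovZ.leaf K2_ok TB_l30931 _)
        (CovZ.leaf K2_ok TB_l30932 _))
       (CovZ.n1 (-15936, 27840) (by decide +kernel)
        (CovZ.leaf K2_ok TB_l30933 _)
        (CovZ.leaf K2_ok TB_l30934 _)))))))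
    (CovZ.topM TB_LL 726838724295649497672314647080906440271934055137225163209362074885150224921163385164021199187462915266693273172355649795228219046200321 (by decide +kernel) (CovZ.n0 (-16128, 28416) (by decide +kernel)
    (CovZ.n2 (-16896, 28416) (by decide +kernel)
     (CovZ.n2 (-16512, 28800) (by decide +kernel)
      (CovZ.n2 (-16512, 28416) (by decide +kernel)
       (CovZ.n2 (-16704, 28608) (by decide +kernel)
        (CovZ.leaf K2_ok TB_l30935 _)
        (CovZ.leaf K2_ok TB_l30936 _))
       (CovZ.n1 (-16320, 28608) (by decide +kernel)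
        (CovZ.leaf K2_ok TB_l30937 _)
        (CovZ.leaf K2_ok TB_l30938 _)))
      (CovZ.n1 (-16896, 28800) (by decide +kernel)
       (CovZ.leaf K2_ok TB_l30939 _)
       (CovZ.n1 (-16704, 28608) (by decide +kernel)
        (CovZ.leaf K2_ok TB_l30940 _)
        (CovZ.n1 (-16704, 28800) (by decide +kernel)
         (CovZ.leaf K2_ok TB_l30941 _)
         (CovZ.leaf K2_ok TB_l30942 _)))))
     (CovZ.n1 (-16512, 28032) (by decide +kernel)
      (CovZ.n2 (-16896, 28032) (by decide +kernel)
       (CovZ.leaf K2_ok TB_l30943 _)
       (CovZ.n1 (-16704, 27840) (by decide +kernel)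
        (CovZ.leaf K2_ok TB_l30944 _)
        (CovZ.leaf K2_ok TB_l30945 _)))
      (CovZ.n1 (-16512, 28416) (by decide +kernel)
       (CovZ.n2 (-16320, 28224) (by decide +kernel)
        (CovZ.leaf K2_ok TB_l30946 _)
        (CovZ.n1 (-16320, 28416) (by decide +kernel)
         (CovZ.leaf K2_ok TB_l30947 _)
         (CovZ.leaf K2_ok TB_l30948 _)))
       (CovZ.n1 (-16704, 28224) (by decide +kernel)
        (CovZ.n2 (-16704, 28416) (by decide +kernel)
         (CovZ.leaf K2_ok TB_l30949 _)
         (CovZ.leaf K2_ok TB_l30950 _))
        (CovZ.leaf K2_ok TB_l30951 _)))))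
    (CovZ.n1 (-16128, 29184) (by decide +kernel)
     (CovZ.n2 (-15744, 28800) (by decide +kernel)
      (CovZ.n2 (-16128, 28800) (by decide +kernel)
       (CovZ.n2 (-15936, 28992) (by decide +kernel)
        (CovZ.n2 (-15936, 28800) (by decide +kernel)
         (CovZ.leaf K2_ok TB_l30952 _)
         (CovZ.leaf K2_ok TB_l30953 _))
        (CovZ.leaf K2_ok TB_l30954 _))
       (CovZ.n1 (-15936, 28608) (by decide +kernel)
        (CovZ.leaf K2_ok TB_l30955 _)
        (CovZ.n1 (-15936, 28800) (by decide +kernel)
         (CovZ.leaf K2_ok TB_l30956 _)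
         (CovZ.leaf K2_ok TB_l30957 _))))
      (CovZ.n1 (-15744, 29184) (by decide +kernel)
       (CovZ.n2 (-15552, 28992) (by decide +kernel)
        (CovZ.n2 (-15744, 28992) (by decide +kernel)
         (CovZ.leaf K2_ok TB_l30958 _)
         (CovZ.leaf K2_ok TB_l30959 _))
        (CovZ.n1 (-15552, 29184) (by decide +kernel)
         (CovZ.leaf K2_ok TB_l30960 _)
         (CovZ.leaf K2_ok TB_l30961 _)))
       (CovZ.n1 (-15936, 28992) (by decide +kernel)
        (CovZ.n2 (-15936, 29184) (by decide +kernel)
         (CovZ.leaf K2_ok TB_l30962 _)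
         (CovZ.leaf K2_ok TB_l30963 _))
        (CovZ.leaf K2_ok TB_l30964 _))))
     (CovZ.n1 (-16512, 28800) (by decide +kernel)
      (CovZ.n2 (-16512, 29184) (by decide +kernel)
       (CovZ.n2 (-16320, 28992) (by decide +kernel)
        (CovZ.leaf K2_ok TB_l30965 _)
        (CovZ.n1 (-16320, 29184) (by decide +kernel)
         (CovZ.leaf K2_ok TB_l30966 _)
         (CovZ.leaf K2_ok TB_l30967 _)))
       (CovZ.n1 (-16704, 28992) (by decide +kernel)
        (CovZ.n2 (-16704, 29184) (by decide +kernel)
         (CovZ.leaf K2_ok TB_l30968 _)
         (CovZ.leaf K2_ok TB_l30969 _))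
        (CovZ.leaf K2_ok TB_l30970 _)))
      (CovZ.n1 (-16128, 28800) (by decide +kernel)
       (CovZ.n2 (-16320, 28608) (by decide +kernel)
        (CovZ.n2 (-16320, 28800) (by decide +kernel)
         (CovZ.leaf K2_ok TB_l30971 _)
         (CovZ.leaf K2_ok TB_l30972 _))
        (CovZ.leaf K2_ok TB_l30973 _))
       (CovZ.n1 (-16320, 28992) (by decide +kernel)
        (CovZ.leaf K2_ok TB_l30974 _)
        (CovZ.leaf K2_ok TB_l30975 _)))))))

theorem TB_s11_21 : SqZ TB_M TB_L [0, 7, 6, 1] (-32256) (-4608) 1536 11 21 :=
  SqZ.mk (a := (-15360)) (b := (-13824)) (c := 27648) (d := 29184) (by norm_num) (by norm_num) (by norm_num) (by norm_num)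
    (CovZ.topM TB_LL 196256248024775907886732825846833801152311304220148490297373907191062770939817652187979091982507404742539203700658542231506419157070574807747585 (by decide +kernel) (CovZ.n2 (-14592, 28416) (by decide +kernel)
    (CovZ.n2 (-13824, 28416) (by decide +kernel)
     (CovZ.n2 (-14208, 28032) (by decide +kernel)
      TB_u473
      TB_u474)
     (CovZ.n1 (-14208, 28800) (by decide +kernel)
      TB_u477
      TB_u478))
    (CovZ.n1 (-14592, 27648) (by decide +kernel)
     (CovZ.subM 762145642166990290864647761179972536182226690153220746096101830934332561323421068085779932898868685866180106937179031912709168299372991024129 (by decide +kernel)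
      (CovZ.n2 (-14976, 28032) (by decide +kernel)
       (CovZ.n2 (-14592, 28032) (by decide +kernel)
        (CovZ.n2 (-14784, 27840) (by decide +kernel)
         (CovZ.n2 (-14784, 28032) (by decide +kernel)
          (CovZ.n2 (-14688, 27936) (by decide +kernel)
           (CovZ.leaf K2_ok TB_l36137 _)
           (CovZ.leaf K2_ok TB_l36138 _))
          (CovZ.leaf K2_ok TB_l36139 _))
         (CovZ.n1 (-14592, 27840) (by decide +kernel)
          (CovZ.n2 (-14688, 27744) (by decide +kernel)
           (CovZ.leaf K2_ok TB_l36140 _)
           (CovZ.leaf K2_ok TB_l36141 _))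
          (CovZ.n1 (-14688, 27936) (by decide +kernel)
           (CovZ.leaf K2_ok TB_l36142 _)
           (CovZ.leaf K2_ok TB_l36143 _))))
        (CovZ.n1 (-14784, 28224) (by decide +kernel)
         (CovZ.n2 (-14592, 28224) (by decide +kernel)
          (CovZ.n2 (-14688, 28128) (by decide +kernel)
           (CovZ.leaf K2_ok TB_l36144 _)
           (CovZ.leaf K2_ok TB_l36145 _))
          (CovZ.n1 (-14688, 28320) (by decide +kernel)
           (CovZ.leaf K2_ok TB_l36146 _)
           (CovZ.leaf K2_ok TB_l36147 _)))
         (CovZ.n1 (-14784, 28032) (by decide +kernel)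
          (CovZ.n2 (-14880, 28128) (by decide +kernel)
           (CovZ.leaf K2_ok TB_l36148 _)
           (CovZ.leaf K2_ok TB_l36149 _))
          (CovZ.n1 (-14688, 28128) (by decide +kernel)
           (CovZ.leaf K2_ok TB_l36150 _)
           (CovZ.leaf K2_ok TB_l36151 _)))))
       (CovZ.n1 (-14976, 27648) (by decide +kernel)
        (CovZ.n2 (-15168, 27840) (by decide +kernel)
         (CovZ.n2 (-14976, 27840) (by decide +kernel)
          (CovZ.leaf K2_ok TB_l36152 _)
          (CovZ.leaf K2_ok TB_l36153 _))
         (CovZ.n1 (-15168, 27648) (by decide +kernel)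
          (CovZ.leaf K2_ok TB_l36154 _)
          (CovZ.leaf K2_ok TB_l36155 _)))
        (CovZ.n1 (-14784, 27840) (by decide +kernel)
         (CovZ.n2 (-14784, 27648) (by decide +kernel)
          (CovZ.leaf K2_ok TB_l36156 _)
          (CovZ.n1 (-14688, 27744) (by decide +kernel)
           (CovZ.leaf K2_ok TB_l36157 _)
           (CovZ.leaf K2_ok TB_l36158 _)))
         (CovZ.n1 (-14976, 27840) (by decide +kernel)
          (CovZ.n2 (-14880, 27936) (by decide +kernel)
           (CovZ.leaf K2_ok TB_l36159 _)
           (CovZ.leaf K2_ok TB_l36160 _))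
          (CovZ.n1 (-14880, 27744) (by decide +kernel)
           (CovZ.leaf K2_ok TB_l36161 _)
           (CovZ.leaf K2_ok TB_l36162 _)))))))
     (CovZ.n1 (-14208, 28032) (by decide +kernel)
      (CovZ.n2 (-14208, 27648) (by decide +kernel)
       (CovZ.subM 762168912363022817404003004394248711415480097755279626062273779447252295418786529972003050623018550123684630756775623418323743805254433508352 (by decide +kernel)
        (CovZ.n2 (-14400, 27840) (by decide +kernel)
         (CovZ.n2 (-14208, 27840) (by decide +kernel)
          (CovZ.n2 (-14304, 27744) (by decide +kernel)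
           (CovZ.n2 (-14304, 27840) (by decide +kernel)
            (CovZ.leaf K2_ok TB_l36163 _)
            (CovZ.leaf K2_ok TB_l36164 _))
           (CovZ.n1 (-14208, 27744) (by decide +kernel)
            (CovZ.leaf K2_ok TB_l36165 _)
            (CovZ.leaf K2_ok TB_l36166 _)))
          (CovZ.n1 (-14304, 27936) (by decide +kernel)
           (CovZ.n2 (-14208, 27936) (by decide +kernel)
            (CovZ.leaf K2_ok TB_l36167 _)
            (CovZ.leaf K2_ok TB_l36168 _))
           (CovZ.n1 (-14304, 27840) (by decide +kernel)
            (CovZ.leaf K2_ok TB_l36169 _)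
            (CovZ.leaf K2_ok TB_l36170 _))))
         (CovZ.n1 (-14400, 27648) (by decide +kernel)
          (CovZ.n2 (-14496, 27744) (by decide +kernel)
           (CovZ.leaf K2_ok TB_l36171 _)
           (CovZ.n1 (-14496, 27648) (by decide +kernel)
            (CovZ.leaf K2_ok TB_l36172 _)
            (CovZ.leaf K2_ok TB_l36173 _)))
          (CovZ.n1 (-14304, 27744) (by decide +kernel)
           (CovZ.n2 (-14304, 27648) (by decide +kernel)
            (CovZ.leaf K2_ok TB_l36174 _)
            (CovZ.leaf K2_ok TB_l36175 _))
           (CovZ.leaf K2_ok TB_l36176 _)))))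
       (CovZ.n1 (-14016, 27840) (by decide +kernel)
        (CovZ.n2 (-14016, 27648) (by decide +kernel)
         (CovZ.subM 762168935076732951641718334060617414347798949577416624319912230090606329407757260597549394668892951405737648364880234059455358347957158021120 (by decide +kernel)
          (CovZ.n2 (-14112, 27744) (by decide +kernel)
           (CovZ.n2 (-14016, 27744) (by decide +kernel)
            (CovZ.leaf K2_ok TB_l36177 _)
            (CovZ.leaf K2_ok TB_l36178 _))
           (CovZ.n1 (-14112, 27648) (by decide +kernel)
            (CovZ.leaf K2_ok TB_l36179 _)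
            (CovZ.n1 (-14064, 27696) (by decide +kernel)
             (CovZ.leaf K2_ok TB_l36180 _)
             (CovZ.leaf K2_ok TB_l36181 _)))))
         (CovZ.n1 (-13920, 27744) (by decide +kernel)
          (CovZ.n2 (-13920, 27648) (by decide +kernel)
           (CovZ.n2 (-13968, 27696) (by decide +kernel)
            (CovZ.leaf K2_ok TB_l36182 _)
            (CovZ.leaf K2_ok TB_l36183 _))
           (CovZ.n1 (-13872, 27696) (by decide +kernel)
            (CovZ.n2 (-13872, 27648) (by decide +kernel)
             (CovZ.leaf K2_ok TB_l36184 _)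
             (CovZ.leaf K2_ok TB_l36185 _))
            (CovZ.leaf K2_ok TB_l36186 _)))
          (CovZ.subM 762168935076776274936237445385058838952614812798003291536487175422769086550194638673665991155050741030880416859365798687652023456542308173824 (by decide +kernel)
           (CovZ.n1 (-14016, 27744) (by decide +kernel)
            (CovZ.n2 (-13968, 27792) (by decide +kernel)
             (CovZ.leaf K2_ok TB_l36187 _)
             (CovZ.leaf K2_ok TB_l36188 _))
            (CovZ.n1 (-13968, 27696) (by decide +kernel)
             (CovZ.leaf K2_ok TB_l36189 _)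
             (CovZ.leaf K2_ok TB_l36190 _))))))
        (CovZ.subM 762168935076732951641718334060617414347798949577416624319912230090606329407757260597549394668892951405737648364880234059455358347957158021120 (by decide +kernel)
         (CovZ.n1 (-14208, 27840) (by decide +kernel)
          (CovZ.n2 (-14112, 27936) (by decide +kernel)
           (CovZ.n2 (-14112, 27840) (by decide +kernel)
            (CovZ.leaf K2_ok TB_l36191 _)
            (CovZ.n1 (-14064, 27888) (by decide +kernel)
             (CovZ.leaf K2_ok TB_l36192 _)
             (CovZ.leaf K2_ok TB_l36193 _)))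
           (CovZ.n1 (-14208, 27936) (by decide +kernel)
            (CovZ.leaf K2_ok TB_l36194 _)
            (CovZ.n1 (-14160, 27888) (by decide +kernel)
             (CovZ.leaf K2_ok TB_l36195 _)
             (CovZ.leaf K2_ok TB_l36196 _))))
          (CovZ.n1 (-14112, 27744) (by decide +kernel)
           (CovZ.n2 (-14208, 27744) (by decide +kernel)
            (CovZ.leaf K2_ok TB_l36197 _)
            (CovZ.leaf K2_ok TB_l36198 _))
           (CovZ.n1 (-14112, 27840) (by decide +kernel)
            (CovZ.n2 (-14064, 27792) (by decide +kernel)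
             (CovZ.leaf K2_ok TB_l36199 _)
             (CovZ.leaf K2_ok TB_l36200 _))
            (CovZ.leaf K2_ok TB_l36201 _)))))))
      (CovZ.subM 762168912363022817404003004394248711415480097755279626062273779447252295418786529972003050623018550123684630756775623418323743805254433508352 (by decide +kernel)
       (CovZ.n1 (-14592, 28032) (by decide +kernel)
        (CovZ.n2 (-14400, 28224) (by decide +kernel)
         (CovZ.n2 (-14400, 28032) (by decide +kernel)
          (CovZ.n2 (-14496, 28128) (by decide +kernel)
           (CovZ.leaf K2_ok TB_l36202 _)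
           (CovZ.n1 (-14496, 28032) (by decide +kernel)
            (CovZ.leaf K2_ok TB_l36203 _)
            (CovZ.leaf K2_ok TB_l36204 _)))
          (CovZ.n1 (-14304, 28128) (by decide +kernel)
           (CovZ.n2 (-14304, 28032) (by decide +kernel)
            (CovZ.leaf K2_ok TB_l36205 _)
            (CovZ.leaf K2_ok TB_l36206 _))
           (CovZ.n1 (-14400, 28128) (by decide +kernel)
            (CovZ.leaf K2_ok TB_l36207 _)
            (CovZ.leaf K2_ok TB_l36208 _))))
         (CovZ.n1 (-14592, 28224) (by decide +kernel)
          (CovZ.n2 (-14496, 28320) (by decide +kernel)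
           (CovZ.n2 (-14496, 28224) (by decide +kernel)
            (CovZ.leaf K2_ok TB_l36209 _)
            (CovZ.leaf K2_ok TB_l36210 _))
           (CovZ.leaf K2_ok TB_l36211 _))
          (CovZ.n1 (-14496, 28128) (by decide +kernel)
           (CovZ.leaf K2_ok TB_l36212 _)
           (CovZ.n1 (-14496, 28224) (by decide +kernel)
            (CovZ.leaf K2_ok TB_l36213 _)
            (CovZ.leaf K2_ok TB_l36214 _)))))
        (CovZ.n1 (-14400, 27840) (by decide +kernel)
         (CovZ.n2 (-14592, 27840) (by decide +kernel)
          (CovZ.n2 (-14496, 27936) (by decide +kernel)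
           (CovZ.n2 (-14496, 27840) (by decide +kernel)
            (CovZ.leaf K2_ok TB_l36215 _)
            (CovZ.leaf K2_ok TB_l36216 _))
           (CovZ.leaf K2_ok TB_l36217 _))
          (CovZ.n1 (-14496, 27744) (by decide +kernel)
           (CovZ.leaf K2_ok TB_l36218 _)
           (CovZ.leaf K2_ok TB_l36219 _)))
         (CovZ.n1 (-14400, 28032) (by decide +kernel)
          (CovZ.n2 (-14304, 27936) (by decide +kernel)
           (CovZ.n2 (-14400, 27936) (by decide +kernel)
            (CovZ.leaf K2_ok TB_l36220 _)
            (CovZ.leaf K2_ok TB_l36221 _))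
           (CovZ.n1 (-14304, 28032) (by decide +kernel)
            (CovZ.leaf K2_ok TB_l36222 _)
            (CovZ.leaf K2_ok TB_l36223 _)))
          (CovZ.n1 (-14496, 27936) (by decide +kernel)
           (CovZ.n2 (-14496, 28032) (by decide +kernel)
            (CovZ.leaf K2_ok TB_l36224 _)
            (CovZ.leaf K2_ok TB_l36225 _))
           (CovZ.leaf K2_ok TB_l36226 _))))))))))
    (CovZ.topM TB_LL 196256248024775907886732825846833801152311304220148490297373907191062770939817652187979091982507404742539203700658542231506419157070574807747585 (by decide +kernel) (CovZ.n0 (-14592, 28416) (by decide +kernel)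
    TB_u481
    TB_u482))

theorem TB_s12_21 : SqZ TB_M TB_L [0, 7, 6, 1] (-32256) (-4608) 1536 12 21 :=
  SqZ.mk (a := (-13824)) (b := (-12288)) (c := 27648) (d := 29184) (by norm_num) (by norm_num) (by norm_num) (by norm_num)
    (CovZ.topM TB_LL 138523019045692281719388527685909137299879027328312770856625155876262297685195224774358738163563613249169062016683963080142372737744183069385951232 (by decide +kernel) (CovZ.n2 (-13056, 28416) (by decide +kernel)
    (CovZ.badM (by decide +kernel))
    (CovZ.n1 (-13056, 27648) (by decide +kernel)
     (CovZ.n2 (-13440, 28032) (by decide +kernel)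
      TB_u487
      TB_u488)
     (CovZ.badM (by decide +kernel)))))
    (CovZ.topM TB_LL 141644767596008273950770124915702303605627625470977742007484312835887669424014990394479044266627105220328888947805369703037820713423471354692241408 (by decide +kernel) (CovZ.n0 (-13056, 28416) (by decide +kernel)
    (CovZ.n2 (-13824, 28416) (by decide +kernel)
     TB_u512
     TB_u513)
    (CovZ.n1 (-13056, 29184) (by decide +kernel)
     (CovZ.badM (by decide +kernel))
     (CovZ.n1 (-13440, 28800) (by decide +kernel)
      (CovZ.badM (by decide +kernel))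
      (CovZ.badM (by decide +kernel))))))

theorem TB_s0_22 : SqZ TB_M TB_L [0, 7, 6, 1] (-32256) (-4608) 1536 0 22 :=
  SqZ.mk (a := (-32256)) (b := (-30720)) (c := 29184) (d := 30720) (by norm_num) (by norm_num) (by norm_num) (by norm_num)
    (CovZ.topM TB_LL 2353129859973906143154175441529284225823720636258563057311064562201646888730119284886260675824942078871207936 (by decide +kernel) (CovZ.leaf K2_ok TB_l1855 _))
    (CovZ.topM TB_LL 2353129859973906143154175441529284225823720636258563057311064562201646888730119284886260675824942078871207936 (by decide +kernel) (CovZ.leaf K2_ok TB_l1856 _))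

theorem TB_s1_22 : SqZ TB_M TB_L [0, 7, 6, 1] (-32256) (-4608) 1536 1 22 :=
  SqZ.mk (a := (-30720)) (b := (-29184)) (c := 29184) (d := 30720) (by norm_num) (by norm_num) (by norm_num) (by norm_num)
    (CovZ.topM TB_LL 5043456795491623199145623275972558008579490852443297809755944613054516948958865054560048546623859907511181296595369984 (by decide +kernel) (CovZ.leaf K2_ok TB_l4999 _))
    (CovZ.topM TB_LL 5043456795491623199145623275972558008579490852443297809755944613054516948958865054560048546623859907511181296595369984 (by decide +kernel) (CovZ.leaf K2_ok TB_l5000 _))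

theorem TB_s2_22 : SqZ TB_M TB_L [0, 7, 6, 1] (-32256) (-4608) 1536 2 22 :=
  SqZ.mk (a := (-29184)) (b := (-27648)) (c := 29184) (d := 30720) (by norm_num) (by norm_num) (by norm_num) (by norm_num)
    (CovZ.topM TB_LL 5043456793138493339171717132834328964652041523698219635926264656343733324316518645163976051077084924416754786808102912 (by decide +kernel) (CovZ.leaf K2_ok TB_l8290 _))
    (CovZ.topM TB_LL 5043456793138493339171717132834328964652041523698219635926264656343733324316518645163976051077084924416754786808102912 (by decide +kernel) (CovZ.leaf K2_ok TB_l8291 _))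

theorem TB_s3_22 : SqZ TB_M TB_L [0, 7, 6, 1] (-32256) (-4608) 1536 3 22 :=
  SqZ.mk (a := (-27648)) (b := (-26112)) (c := 29184) (d := 30720) (by norm_num) (by norm_num) (by norm_num) (by norm_num)
    (CovZ.topM TB_LL 5043456793138493409163740325890678490535391066932433103450881491608005896667886977445133152830331249669272369090527360 (by decide +kernel) (CovZ.leaf K2_ok TB_l11623 _))
    (CovZ.topM TB_LL 5043456793138493409163740325890678490535391066932433103450881491608005896667886977445133152830331249669272369090527360 (by decide +kernel) (CovZ.leaf K2_ok TB_l11624 _))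

theorem TB_s4_22 : SqZ TB_M TB_L [0, 7, 6, 1] (-32256) (-4608) 1536 4 22 :=
  SqZ.mk (a := (-26112)) (b := (-24576)) (c := 29184) (d := 30720) (by norm_num) (by norm_num) (by norm_num) (by norm_num)
    (CovZ.topM TB_LL 631663411835949099859883151205914022257904644374446960892027670799798706760137269538072325248303414314334467127509124 (by decide +kernel) (CovZ.leaf K2_ok TB_l13840 _))
    (CovZ.topM TB_LL 631663411835949099859883151205914022257904644374446960892027670799798706760137269538072325248303414314334467127509124 (by decide +kernel) (CovZ.leaf K2_ok TB_l13841 _))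

theorem TB_s5_22 : SqZ TB_M TB_L [0, 7, 6, 1] (-32256) (-4608) 1536 5 22 :=
  SqZ.mk (a := (-24576)) (b := (-23040)) (c := 29184) (d := 30720) (by norm_num) (by norm_num) (by norm_num) (by norm_num)
    (CovZ.topM TB_LL 631663411835949112983387499888071224927804834531202921070342850772881632126242921033552936495522577621996465736122500 (by decide +kernel) (CovZ.leaf K2_ok TB_l15591 _))
    (CovZ.topM TB_LL 631663411835949112983387499888071224927804834531202921070342850772881540782390587852120548765220532854307737240338564 (by decide +kernel) (CovZ.leaf K2_ok TB_l15592 _))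

theorem TB_s6_22 : SqZ TB_M TB_L [0, 7, 6, 1] (-32256) (-4608) 1536 6 22 :=
  SqZ.mk (a := (-23040)) (b := (-21504)) (c := 29184) (d := 30720) (by norm_num) (by norm_num) (by norm_num) (by norm_num)
    (CovZ.topM TB_LL 631663411835949112997621850994637914773765408869973451959062436379648946498048361258456378233662154764210212947918980 (by decide +kernel) (CovZ.n2 (-22272, 29952) (by decide +kernel)
    (CovZ.leaf K2_ok TB_l18666 _)
    (CovZ.leaf K2_ok TB_l18667 _)))
    (CovZ.topM TB_LL 631663411835949112997621850994637914773765408869973451959062436379648946498048361258456378233662154764210212947918980 (by decide +kernel) (CovZ.n0 (-22272, 29952) (by decide +kernel)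
    (CovZ.leaf K2_ok TB_l18668 _)
    (CovZ.leaf K2_ok TB_l18669 _)))

theorem TB_s7_22 : SqZ TB_M TB_L [0, 7, 6, 1] (-32256) (-4608) 1536 7 22 :=
  SqZ.mk (a := (-21504)) (b := (-19968)) (c := 29184) (d := 30720) (by norm_num) (by norm_num) (by norm_num) (by norm_num)
    (CovZ.topM TB_LL 1233717601242206000692295627890642064334646907888123058486851122483293851432135104689694864048736679386390984687616 (by decide +kernel) (CovZ.n2 (-20736, 29952) (by decide +kernel)
    (CovZ.n2 (-19968, 29952) (by decide +kernel)
     (CovZ.leaf K2_ok TB_l19618 _)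
     (CovZ.leaf K2_ok TB_l19619 _))
    (CovZ.n1 (-20736, 29184) (by decide +kernel)
     (CovZ.leaf K2_ok TB_l19620 _)
     (CovZ.leaf K2_ok TB_l19621 _))))
    (CovZ.topM TB_LL 1231312693637445595466936799759529783218614208958040938939246856528444869390417745643588036274390675108586376429568 (by decide +kernel) (CovZ.n0 (-20736, 29952) (by decide +kernel)
    (CovZ.leaf K2_ok TB_l19622 _)
    (CovZ.n1 (-20736, 30720) (by decide +kernel)
     (CovZ.leaf K2_ok TB_l19623 _)
     (CovZ.leaf K2_ok TB_l19624 _))))

theorem TB_s8_22 : SqZ TB_M TB_L [0, 7, 6, 1] (-32256) (-4608) 1536 8 22 :=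
  SqZ.mk (a := (-19968)) (b := (-18432)) (c := 29184) (d := 30720) (by norm_num) (by norm_num) (by norm_num) (by norm_num)
    (CovZ.topM TB_LL 1233717601242122876620805729753875579670042691810176995431283351254209485697767611392878750646557741838003760824321 (by decide +kernel) (CovZ.n2 (-19200, 29952) (by decide +kernel)
    (CovZ.n2 (-18432, 29952) (by decide +kernel)
     (CovZ.n2 (-18816, 29568) (by decide +kernel)
      (CovZ.leaf K2_ok TB_l20554 _)
      (CovZ.leaf K2_ok TB_l20555 _))
     (CovZ.n1 (-18816, 30336) (by decide +kernel)
      (CovZ.leaf K2_ok TB_l20556 _)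
      (CovZ.leaf K2_ok TB_l20557 _)))
    (CovZ.n1 (-19200, 29184) (by decide +kernel)
     (CovZ.n2 (-19584, 29568) (by decide +kernel)
      (CovZ.leaf K2_ok TB_l20558 _)
      (CovZ.leaf K2_ok TB_l20559 _))
     (CovZ.n1 (-18816, 29568) (by decide +kernel)
      (CovZ.leaf K2_ok TB_l20560 _)
      (CovZ.leaf K2_ok TB_l20561 _)))))
    (CovZ.topM TB_LL 1233717601242122876620805729753875579670042691810176995431283351254209485697767611392878750646557741838003760824321 (by decide +kernel) (CovZ.n0 (-19200, 29952) (by decide +kernel)
    (CovZ.n2 (-19968, 29952) (by decide +kernel)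
     (CovZ.leaf K2_ok TB_l20562 _)
     (CovZ.n1 (-19584, 29568) (by decide +kernel)
      (CovZ.leaf K2_ok TB_l20563 _)
      (CovZ.leaf K2_ok TB_l20564 _)))
    (CovZ.n1 (-19200, 30720) (by decide +kernel)
     (CovZ.n2 (-18816, 30336) (by decide +kernel)
      (CovZ.leaf K2_ok TB_l20565 _)
      (CovZ.leaf K2_ok TB_l20566 _))
     (CovZ.leaf K2_ok TB_l20567 _))))

end Pool.Agent.TET
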