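import Pool.Agent.Helper38_TET.TB_M
import Pool.Agent.Helper38_TET.TB_L
import Pool.Agent.Helper38_TET.TB_124
import Pool.Agent.Helper38_TET.TB_125
import Pool.Agent.Helper38_TET.TB_130
import Pool.Agent.Helper38_TET.TB_131
import Pool.Agent.Helper38_TET.TB_158
import Pool.Agent.Helper38_TET.TB_159
import Pool.Agent.Helper38_TET.TB_207
import Pool.Agent.Helper38_TET.TB_208
import Pool.Agent.Helper38_TET.TB_244
import Pool.Agent.Helper38_TET.TB_245
import Pool.Agent.Helper38_TET.TB_272
import Pool.Agent.Helper38_TET.TB_273
import Pool.Agent.Helper38_TET.TB_277
import Pool.Agent.Helper38_TET.TB_278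
import Pool.Agent.Helper38_TET.TB_304
import Pool.Agent.Helper38_TET.TB_320
import Pool.Agent.Helper38_TET.TB_331
import Pool.Agent.Helper38_TET.TB_332
import Pool.Agent.Helper38_TET.TB_333

/-!
# MP_c7c9bf_co: certificates, family TB
-/

set_option autoImplicit false
set_option maxRecDepth 100000

namespace Pool.Agent.TET

theorem TB_u525 : CovZ TB_M (toL (selN TB_LN 293567822846729155523718374169563001332561389271064965729980221258260407724850957117646963712725526914335745)) [0, 7, 6, 1] (-14976, 30336) (-14592, 29952) (-14592, 30720) :=
    (CovZ.n1 (-14592, 30336) (by decide +kernel)
        (CovZ.n2 (-14784, 30144) (by decide +kernel)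
         (CovZ.subM 293567822846729155523718374169563001332561389271064965729980221258259727160117115240718856334735249040737280 (by decide +kernel)
          (CovZ.n2 (-14784, 30336) (by decide +kernel)
           (CovZ.n2 (-14688, 30240) (by decide +kernel)
            (CovZ.n2 (-14784, 30240) (by decide +kernel)
             (CovZ.n2 (-14736, 30288) (by decide +kernel)
              (CovZ.n2 (-14736, 30240) (by decide +kernel)
               (CovZ.leaf K2_ok TB_l36695 _)
               (CovZ.leaf K2_ok TB_l36696 _))
              (CovZ.leaf K2_ok TB_l36697 _))
             (CovZ.n1 (-14736, 30192) (by decide +kernel)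
              (CovZ.leaf K2_ok TB_l36698 _)
              (CovZ.n1 (-14736, 30240) (by decide +kernel)
               (CovZ.leaf K2_ok TB_l36699 _)
               (CovZ.leaf K2_ok TB_l36700 _))))
            (CovZ.n1 (-14688, 30336) (by decide +kernel)
             (CovZ.n2 (-14640, 30288) (by decide +kernel)
              (CovZ.n2 (-14688, 30288) (by decide +kernel)
               (CovZ.leaf K2_ok TB_l36701 _)
               (CovZ.leaf K2_ok TB_l36702 _))
              (CovZ.n1 (-14640, 30336) (by decide +kernel)
               (CovZ.leaf K2_ok TB_l36703 _)
               (CovZ.leaf K2_ok TB_l36704 _)))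
             (CovZ.n1 (-14736, 30288) (by decide +kernel)
              (CovZ.n2 (-14736, 30336) (by decide +kernel)
               (CovZ.leaf K2_ok TB_l36705 _)
               (CovZ.leaf K2_ok TB_l36706 _))
              (CovZ.leaf K2_ok TB_l36707 _))))
           (CovZ.n1 (-14880, 30240) (by decide +kernel)
            (CovZ.n2 (-14880, 30336) (by decide +kernel)
             (CovZ.n2 (-14832, 30288) (by decide +kernel)
              (CovZ.leaf K2_ok TB_l36708 _)
              (CovZ.leaf K2_ok TB_l36709 _))
             (CovZ.n1 (-14928, 30288) (by decide +kernel)
              (CovZ.leaf K2_ok TB_l36710 _)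
              (CovZ.leaf K2_ok TB_l36711 _)))
            (CovZ.n1 (-14784, 30240) (by decide +kernel)
             (CovZ.n2 (-14832, 30192) (by decide +kernel)
              (CovZ.n2 (-14832, 30240) (by decide +kernel)
               (CovZ.leaf K2_ok TB_l36712 _)
               (CovZ.leaf K2_ok TB_l36713 _))
              (CovZ.leaf K2_ok TB_l36714 _))
             (CovZ.n1 (-14832, 30288) (by decide +kernel)
              (CovZ.leaf K2_ok TB_l36715 _)
              (CovZ.leaf K2_ok TB_l36716 _))))))
         (CovZ.subM 293567822846729155523718374169563001332561389271064965729980221258260407060236959225187846632046582436987904 (by decide +kernel)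
          (CovZ.n1 (-14592, 30144) (by decide +kernel)
           (CovZ.n2 (-14688, 30048) (by decide +kernel)
            (CovZ.n2 (-14688, 30144) (by decide +kernel)
             (CovZ.n2 (-14640, 30096) (by decide +kernel)
              (CovZ.n2 (-14688, 30096) (by decide +kernel)
               (CovZ.leaf K2_ok TB_l36717 _)
               (CovZ.leaf K2_ok TB_l36718 _))
              (CovZ.n1 (-14640, 30144) (by decide +kernel)
               (CovZ.leaf K2_ok TB_l36719 _)
               (CovZ.leaf K2_ok TB_l36720 _)))
             (CovZ.n1 (-14736, 30096) (by decide +kernel)
              (CovZ.n2 (-14736, 30144) (by decide +kernel)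
               (CovZ.leaf K2_ok TB_l36721 _)
               (CovZ.leaf K2_ok TB_l36722 _))
              (CovZ.n1 (-14688, 30096) (by decide +kernel)
               (CovZ.leaf K2_ok TB_l36723 _)
               (CovZ.leaf K2_ok TB_l36724 _))))
            (CovZ.n1 (-14592, 30048) (by decide +kernel)
             (CovZ.n2 (-14640, 30000) (by decide +kernel)
              (CovZ.n2 (-14640, 30048) (by decide +kernel)
               (CovZ.leaf K2_ok TB_l36725 _)
               (CovZ.leaf K2_ok TB_l36726 _))
              (CovZ.n1 (-14592, 30000) (by decide +kernel)
               (CovZ.leaf K2_ok TB_l36727 _)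
               (CovZ.leaf K2_ok TB_l36728 _)))
             (CovZ.n1 (-14640, 30096) (by decide +kernel)
              (CovZ.n2 (-14592, 30096) (by decide +kernel)
               (CovZ.leaf K2_ok TB_l36729 _)
               (CovZ.leaf K2_ok TB_l36730 _))
              (CovZ.n1 (-14640, 30048) (by decide +kernel)
               (CovZ.leaf K2_ok TB_l36731 _)
               (CovZ.leaf K2_ok TB_l36732 _)))))
           (CovZ.n1 (-14688, 30240) (by decide +kernel)
            (CovZ.n2 (-14592, 30240) (by decide +kernel)
             (CovZ.n2 (-14640, 30192) (by decide +kernel)
              (CovZ.n2 (-14640, 30240) (by decide +kernel)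
               (CovZ.leaf K2_ok TB_l36733 _)
               (CovZ.leaf K2_ok TB_l36734 _))
              (CovZ.n1 (-14592, 30192) (by decide +kernel)
               (CovZ.n2 (-14616, 30168) (by decide +kernel)
                (CovZ.leaf K2_ok TB_l36735 _)
                (CovZ.leaf K2_ok TB_l36736 _))
               (CovZ.leaf K2_ok TB_l36737 _)))
             (CovZ.n1 (-14640, 30288) (by decide +kernel)
              (CovZ.n2 (-14592, 30288) (by decide +kernel)
               (CovZ.leaf K2_ok TB_l36738 _)
               (CovZ.leaf K2_ok TB_l36739 _))
              (CovZ.n1 (-14640, 30240) (by decide +kernel)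
               (CovZ.leaf K2_ok TB_l36740 _)
               (CovZ.leaf K2_ok TB_l36741 _))))
            (CovZ.n1 (-14688, 30144) (by decide +kernel)
             (CovZ.n2 (-14736, 30192) (by decide +kernel)
              (CovZ.leaf K2_ok TB_l36742 _)
              (CovZ.n1 (-14736, 30144) (by decide +kernel)
               (CovZ.leaf K2_ok TB_l36743 _)
               (CovZ.leaf K2_ok TB_l36744 _)))
             (CovZ.n1 (-14640, 30192) (by decide +kernel)
              (CovZ.n2 (-14640, 30144) (by decide +kernel)
               (CovZ.leaf K2_ok TB_l36745 _)
               (CovZ.leaf K2_ok TB_l36746 _))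
              (CovZ.n1 (-14688, 30192) (by decide +kernel)
               (CovZ.leaf K2_ok TB_l36747 _)
               (CovZ.leaf K2_ok TB_l36748 _))))))))
        (CovZ.subM 293567822846729155523718374169563001332561389271064965729980221258259727160117115240718856334735249040737280 (by decide +kernel)
         (CovZ.n1 (-14784, 30528) (by decide +kernel)
          (CovZ.n2 (-14592, 30528) (by decide +kernel)
           (CovZ.n2 (-14688, 30432) (by decide +kernel)
            (CovZ.n2 (-14688, 30528) (by decide +kernel)
             (CovZ.n2 (-14640, 30480) (by decide +kernel)
              (CovZ.leaf K2_ok TB_l36749 _)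
              (CovZ.n1 (-14640, 30528) (by decide +kernel)
               (CovZ.leaf K2_ok TB_l36750 _)
               (CovZ.leaf K2_ok TB_l36751 _)))
             (CovZ.n1 (-14736, 30480) (by decide +kernel)
              (CovZ.n2 (-14736, 30528) (by decide +kernel)
               (CovZ.leaf K2_ok TB_l36752 _)
               (CovZ.leaf K2_ok TB_l36753 _))
              (CovZ.leaf K2_ok TB_l36754 _)))
            (CovZ.n1 (-14592, 30432) (by decide +kernel)
             (CovZ.n2 (-14640, 30384) (by decide +kernel)
              (CovZ.n2 (-14640, 30432) (by decide +kernel)
               (CovZ.leaf K2_ok TB_l36755 _)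
               (CovZ.leaf K2_ok TB_l36756 _))
              (CovZ.n1 (-14592, 30384) (by decide +kernel)
               (CovZ.leaf K2_ok TB_l36757 _)
               (CovZ.leaf K2_ok TB_l36758 _)))
             (CovZ.n1 (-14640, 30480) (by decide +kernel)
              (CovZ.n2 (-14592, 30480) (by decide +kernel)
               (CovZ.leaf K2_ok TB_l36759 _)
               (CovZ.leaf K2_ok TB_l36760 _))
              (CovZ.n1 (-14640, 30432) (by decide +kernel)
               (CovZ.leaf K2_ok TB_l36761 _)
               (CovZ.leaf K2_ok TB_l36762 _)))))
           (CovZ.n1 (-14688, 30624) (by decide +kernel)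
            (CovZ.n2 (-14592, 30624) (by decide +kernel)
             (CovZ.n2 (-14640, 30576) (by decide +kernel)
              (CovZ.n2 (-14640, 30624) (by decide +kernel)
               (CovZ.leaf K2_ok TB_l36763 _)
               (CovZ.leaf K2_ok TB_l36764 _))
              (CovZ.leaf K2_ok TB_l36765 _))
             (CovZ.n1 (-14640, 30672) (by decide +kernel)
              (CovZ.leaf K2_ok TB_l36766 _)
              (CovZ.n1 (-14640, 30624) (by decide +kernel)
               (CovZ.leaf K2_ok TB_l36767 _)
               (CovZ.leaf K2_ok TB_l36768 _))))
            (CovZ.n1 (-14688, 30528) (by decide +kernel)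
             (CovZ.n2 (-14736, 30576) (by decide +kernel)
              (CovZ.leaf K2_ok TB_l36769 _)
              (CovZ.leaf K2_ok TB_l36770 _))
             (CovZ.n1 (-14640, 30576) (by decide +kernel)
              (CovZ.n2 (-14640, 30528) (by decide +kernel)
               (CovZ.leaf K2_ok TB_l36771 _)
               (CovZ.leaf K2_ok TB_l36772 _))
              (CovZ.leaf K2_ok TB_l36773 _)))))
          (CovZ.n1 (-14784, 30336) (by decide +kernel)
           (CovZ.n2 (-14880, 30432) (by decide +kernel)
            (CovZ.n2 (-14784, 30432) (by decide +kernel)
             (CovZ.n2 (-14832, 30384) (by decide +kernel)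
              (CovZ.leaf K2_ok TB_l36774 _)
              (CovZ.leaf K2_ok TB_l36775 _))
             (CovZ.n1 (-14832, 30480) (by decide +kernel)
              (CovZ.leaf K2_ok TB_l36776 _)
              (CovZ.leaf K2_ok TB_l36777 _)))
            (CovZ.n1 (-14880, 30336) (by decide +kernel)
             (CovZ.n2 (-14928, 30384) (by decide +kernel)
              (CovZ.leaf K2_ok TB_l36778 _)
              (CovZ.leaf K2_ok TB_l36779 _))
             (CovZ.n1 (-14832, 30384) (by decide +kernel)
              (CovZ.leaf K2_ok TB_l36780 _)
              (CovZ.leaf K2_ok TB_l36781 _))))
           (CovZ.n1 (-14688, 30432) (by decide +kernel)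
            (CovZ.n2 (-14688, 30336) (by decide +kernel)
             (CovZ.n2 (-14736, 30384) (by decide +kernel)
              (CovZ.leaf K2_ok TB_l36782 _)
              (CovZ.leaf K2_ok TB_l36783 _))
             (CovZ.n1 (-14640, 30384) (by decide +kernel)
              (CovZ.n2 (-14640, 30336) (by decide +kernel)
               (CovZ.leaf K2_ok TB_l36784 _)
               (CovZ.leaf K2_ok TB_l36785 _))
              (CovZ.leaf K2_ok TB_l36786 _)))
            (CovZ.n1 (-14784, 30432) (by decide +kernel)
             (CovZ.n2 (-14736, 30480) (by decide +kernel)
              (CovZ.leaf K2_ok TB_l36787 _)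
              (CovZ.leaf K2_ok TB_l36788 _))
             (CovZ.n1 (-14736, 30384) (by decide +kernel)
              (CovZ.leaf K2_ok TB_l36789 _)
              (CovZ.n1 (-14736, 30432) (by decide +kernel)
               (CovZ.leaf K2_ok TB_l36790 _)
               (CovZ.leaf K2_ok TB_l36791 _)))))))))

theorem TB_u526 : CovZ TB_M (toL (selN TB_LN 293567857842740880384678349965812397004350134475646361150651971606290853609775167257511175890994390663987201)) [0, 7, 6, 1] (-18432, 30720) (-17664, 31488) (-18432, 32256) :=
    (CovZ.n2 (-18432, 31488) (by decide +kernel)
     (CovZ.n2 (-18048, 31872) (by decide +kernel)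
      (CovZ.n2 (-18048, 31488) (by decide +kernel)
       (CovZ.n2 (-18240, 31680) (by decide +kernel)
        (CovZ.n2 (-18048, 31680) (by decide +kernel)
         (CovZ.leaf K2_ok TB_l23779 _)
         (CovZ.leaf K2_ok TB_l23780 _))
        (CovZ.leaf K2_ok TB_l23781 _))
       (CovZ.n1 (-17856, 31680) (by decide +kernel)
        (CovZ.leaf K2_ok TB_l23782 _)
        (CovZ.n1 (-18048, 31680) (by decide +kernel)
         (CovZ.leaf K2_ok TB_l23783 _)
         (CovZ.leaf K2_ok TB_l23784 _))))
      (CovZ.subM 34996011726898493275367145155062465903850913201585376177432250083554608737411283514502544465726570496 (by decide +kernel)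
       (CovZ.n1 (-18432, 31872) (by decide +kernel)
        (CovZ.subM 34996011596528190789960035633881941845650710894291398982812329702559247987190014772765161133996769280 (by decide +kernel)
         (CovZ.n2 (-18240, 32064) (by decide +kernel)
          (CovZ.n2 (-18240, 31872) (by decide +kernel)
           (CovZ.n2 (-18336, 31968) (by decide +kernel)
            (CovZ.leaf K2_ok TB_l23785 _)
            (CovZ.leaf K2_ok TB_l23786 _))
           (CovZ.leaf K2_ok TB_l23787 _))
          (CovZ.n1 (-18432, 32064) (by decide +kernel)
           (CovZ.n2 (-18336, 32160) (by decide +kernel)
            (CovZ.leaf K2_ok TB_l23788 _)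
            (CovZ.n1 (-18432, 32160) (by decide +kernel)
             (CovZ.leaf K2_ok TB_l23789 _)
             (CovZ.leaf K2_ok TB_l23790 _)))
           (CovZ.n1 (-18336, 31968) (by decide +kernel)
            (CovZ.leaf K2_ok TB_l23791 _)
            (CovZ.n1 (-18336, 32064) (by decide +kernel)
             (CovZ.leaf K2_ok TB_l23792 _)
             (CovZ.leaf K2_ok TB_l23793 _))))))
        (CovZ.n1 (-18240, 31680) (by decide +kernel)
         (CovZ.leaf K2_ok TB_l23794 _)
         (CovZ.n1 (-18240, 31872) (by decide +kernel)
          (CovZ.n2 (-18144, 31776) (by decide +kernel)
           (CovZ.leaf K2_ok TB_l23795 _)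
           (CovZ.leaf K2_ok TB_l23796 _))
          (CovZ.leaf K2_ok TB_l23797 _))))))
     (CovZ.n1 (-18048, 31104) (by decide +kernel)
      (CovZ.n2 (-18432, 31104) (by decide +kernel)
       (CovZ.leaf K2_ok TB_l23798 _)
       (CovZ.leaf K2_ok TB_l23799 _))
      (CovZ.n1 (-18048, 31488) (by decide +kernel)
       (CovZ.n2 (-17856, 31296) (by decide +kernel)
        (CovZ.leaf K2_ok TB_l23800 _)
        (CovZ.n1 (-17856, 31488) (by decide +kernel)
         (CovZ.leaf K2_ok TB_l23801 _)
         (CovZ.leaf K2_ok TB_l23802 _)))
       (CovZ.n1 (-18240, 31296) (by decide +kernel)
        (CovZ.leaf K2_ok TB_l23803 _)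
        (CovZ.leaf K2_ok TB_l23804 _)))))

theorem TB_u527 : CovZ TB_M (toL (selN TB_LN 293567857842740880384678349965812397004350134475646361150651971606290853609775167257511175890994390663987201)) [0, 7, 6, 1] (-17664, 31488) (-16896, 32256) (-18432, 32256) :=
    (CovZ.n1 (-17664, 32256) (by decide +kernel)
     (CovZ.subM 293567822846729283856487560005776649602484376813742291132388566061446509134686805808973622635102255596994560 (by decide +kernel)
      (CovZ.n2 (-17280, 31872) (by decide +kernel)
       (CovZ.n2 (-17664, 31872) (by decide +kernel)
        (CovZ.subM 293567822846729153486185074598667128421960318613539983838411371441526128139326055432962375951017592485838848 (by decide +kernel)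
         (CovZ.n2 (-17472, 32064) (by decide +kernel)
          (CovZ.n2 (-17472, 31872) (by decide +kernel)
           (CovZ.n2 (-17568, 31968) (by decide +kernel)
            (CovZ.n2 (-17472, 31968) (by decide +kernel)
             (CovZ.n2 (-17520, 31920) (by decide +kernel)
              (CovZ.n2 (-17520, 31968) (by decide +kernel)
               (CovZ.leaf K2_ok TB_l23805 _)
               (CovZ.leaf K2_ok TB_l23806 _))
              (CovZ.leaf K2_ok TB_l23807 _))
             (CovZ.n1 (-17520, 32016) (by decide +kernel)
              (CovZ.n2 (-17472, 32016) (by decide +kernel)
               (CovZ.n2 (-17496, 31992) (by decide +kernel)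
                (CovZ.badM (by decide +kernel))
                (CovZ.leaf K2_ok TB_l49660 _))
               (CovZ.badM (by decide +kernel)))
              (CovZ.leaf K2_ok TB_l23808 _)))
            (CovZ.leaf K2_ok TB_l23809 _))
           (CovZ.n1 (-17376, 31968) (by decide +kernel)
            (CovZ.n2 (-17376, 31872) (by decide +kernel)
             (CovZ.n2 (-17424, 31920) (by decide +kernel)
              (CovZ.n2 (-17376, 31920) (by decide +kernel)
               (CovZ.leaf K2_ok TB_l23810 _)
               (CovZ.leaf K2_ok TB_l23811 _))
              (CovZ.leaf K2_ok TB_l23812 _))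
             (CovZ.n1 (-17328, 31920) (by decide +kernel)
              (CovZ.leaf K2_ok TB_l23813 _)
              (CovZ.leaf K2_ok TB_l23814 _)))
            (CovZ.n1 (-17472, 31968) (by decide +kernel)
             (CovZ.n2 (-17424, 32016) (by decide +kernel)
              (CovZ.leaf K2_ok TB_l49661 _)
              (CovZ.n1 (-17472, 32016) (by decide +kernel)
               (CovZ.badM (by decide +kernel))
               (CovZ.n1 (-17448, 31992) (by decide +kernel)
                (CovZ.leaf K2_ok TB_l49662 _)
                (CovZ.badM (by decide +kernel)))))
             (CovZ.n1 (-17424, 31920) (by decide +kernel)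
              (CovZ.leaf K2_ok TB_l23815 _)
              (CovZ.n1 (-17424, 31968) (by decide +kernel)
               (CovZ.n2 (-17400, 31944) (by decide +kernel)
                (CovZ.leaf K2_ok TB_l23816 _)
                (CovZ.badM (by decide +kernel)))
               (CovZ.leaf K2_ok TB_l23817 _))))))
          (CovZ.n1 (-17664, 32064) (by decide +kernel)
           (CovZ.badM (by decide +kernel))
           (CovZ.n1 (-17568, 31968) (by decide +kernel)
            (CovZ.n2 (-17664, 31968) (by decide +kernel)
             (CovZ.n2 (-17616, 32016) (by decide +kernel)
              (CovZ.leaf K2_ok TB_l23818 _)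
              (CovZ.leaf K2_ok TB_l23819 _))
             (CovZ.n1 (-17616, 31920) (by decide +kernel)
              (CovZ.leaf K2_ok TB_l23820 _)
              (CovZ.n1 (-17616, 31968) (by decide +kernel)
               (CovZ.leaf K2_ok TB_l23821 _)
               (CovZ.leaf K2_ok TB_l23822 _))))
            (CovZ.n1 (-17568, 32064) (by decide +kernel)
             (CovZ.n2 (-17520, 32016) (by decide +kernel)
              (CovZ.n2 (-17568, 32016) (by decide +kernel)
               (CovZ.badM (by decide +kernel))
               (CovZ.leaf K2_ok TB_l23824 _))
              (CovZ.badM (by decide +kernel)))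
             (CovZ.n1 (-17616, 32016) (by decide +kernel)
              (CovZ.n2 (-17616, 32064) (by decide +kernel)
               (CovZ.n2 (-17592, 32040) (by decide +kernel)
                (CovZ.leaf K2_ok TB_l23828 _)
                (CovZ.badM (by decide +kernel)))
               (CovZ.n1 (-17640, 32040) (by decide +kernel)
                (CovZ.leaf K2_ok TB_l23830 _)
                (CovZ.leaf K2_ok TB_l23831 _)))
              (CovZ.n1 (-17568, 32016) (by decide +kernel)
               (CovZ.leaf K2_ok TB_l23832 _)
               (CovZ.leaf K2_ok TB_l23833 _))))))))
        (CovZ.n1 (-17472, 31680) (by decide +kernel)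
         (CovZ.n2 (-17664, 31680) (by decide +kernel)
          (CovZ.leaf K2_ok TB_l23834 _)
          (CovZ.n1 (-17568, 31584) (by decide +kernel)
           (CovZ.leaf K2_ok TB_l23835 _)
           (CovZ.leaf K2_ok TB_l23836 _)))
         (CovZ.n1 (-17472, 31872) (by decide +kernel)
          (CovZ.n2 (-17376, 31776) (by decide +kernel)
           (CovZ.leaf K2_ok TB_l23837 _)
           (CovZ.subM 293567822846729283856487560005776649602484376813742291132388566061446168852314814113365560804566788223270912 (by decide +kernel)
            (CovZ.n1 (-17376, 31872) (by decide +kernel)
             (CovZ.n2 (-17328, 31824) (by decide +kernel)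
              (CovZ.leaf K2_ok TB_l23838 _)
              (CovZ.n1 (-17328, 31872) (by decide +kernel)
               (CovZ.leaf K2_ok TB_l23839 _)
               (CovZ.leaf K2_ok TB_l23840 _)))
             (CovZ.n1 (-17424, 31824) (by decide +kernel)
              (CovZ.leaf K2_ok TB_l23841 _)
              (CovZ.leaf K2_ok TB_l23842 _)))))
          (CovZ.n1 (-17568, 31776) (by decide +kernel)
           (CovZ.n2 (-17568, 31872) (by decide +kernel)
            (CovZ.n2 (-17520, 31824) (by decide +kernel)
             (CovZ.leaf K2_ok TB_l23843 _)
             (CovZ.leaf K2_ok TB_l23844 _))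
            (CovZ.leaf K2_ok TB_l23845 _))
           (CovZ.n1 (-17472, 31776) (by decide +kernel)
            (CovZ.leaf K2_ok TB_l23846 _)
            (CovZ.leaf K2_ok TB_l23847 _))))))
       (CovZ.subM 293567822846729153486185074598667128421960318613539983838411371441526128139326055587704879708768622241382400 (by decide +kernel)
        (CovZ.n1 (-17280, 32256) (by decide +kernel)
         (CovZ.n2 (-17088, 32064) (by decide +kernel)
          (CovZ.n2 (-17280, 32064) (by decide +kernel)
           (CovZ.badM (by decide +kernel))
           (CovZ.n1 (-17184, 31968) (by decide +kernel)
            (CovZ.n2 (-17280, 31968) (by decide +kernel)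
             (CovZ.badM (by decide +kernel))
             (CovZ.n1 (-17232, 31920) (by decide +kernel)
              (CovZ.n2 (-17280, 31920) (by decide +kernel)
               (CovZ.badM (by decide +kernel))
               (CovZ.n1 (-17256, 31896) (by decide +kernel)
                (CovZ.leaf K2_ok TB_l23850 _)
                (CovZ.badM (by decide +kernel))))
              (CovZ.badM (by decide +kernel))))
            (CovZ.badM (by decide +kernel))))
          (CovZ.badM (by decide +kernel)))
         (CovZ.n1 (-17472, 32064) (by decide +kernel)
          (CovZ.badM (by decide +kernel))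
          (CovZ.n1 (-17280, 32064) (by decide +kernel)
           (CovZ.n2 (-17376, 31968) (by decide +kernel)
            (CovZ.badM (by decide +kernel))
            (CovZ.n1 (-17280, 31968) (by decide +kernel)
             (CovZ.n2 (-17328, 31920) (by decide +kernel)
              (CovZ.badM (by decide +kernel))
              (CovZ.n1 (-17280, 31920) (by decide +kernel)
               (CovZ.leaf K2_ok TB_l23855 _)
               (CovZ.badM (by decide +kernel))))
             (CovZ.badM (by decide +kernel))))
           (CovZ.badM (by decide +kernel))))))))
     (CovZ.n1 (-18048, 31872) (by decide +kernel)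
      (CovZ.subM 293567857842740750014375864558702762303902164264250878129810354253855830698574042622977147563257221875761152 (by decide +kernel)
       (CovZ.n2 (-18048, 32256) (by decide +kernel)
        (CovZ.n2 (-17856, 32064) (by decide +kernel)
         (CovZ.n2 (-18048, 32064) (by decide +kernel)
          (CovZ.badM (by decide +kernel))
          (CovZ.n1 (-17952, 31968) (by decide +kernel)
           (CovZ.leaf K2_ok TB_l23869 _)
           (CovZ.n1 (-17952, 32064) (by decide +kernel)
            (CovZ.n2 (-17904, 32016) (by decide +kernel)
             (CovZ.leaf K2_ok TB_l23870 _)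
             (CovZ.badM (by decide +kernel)))
            (CovZ.n1 (-18000, 32016) (by decide +kernel)
             (CovZ.badM (by decide +kernel))
             (CovZ.leaf K2_ok TB_l23874 _)))))
         (CovZ.n1 (-17856, 32256) (by decide +kernel)
          (CovZ.n2 (-17760, 32160) (by decide +kernel)
           (CovZ.badM (by decide +kernel))
           (CovZ.badM (by decide +kernel)))
          (CovZ.badM (by decide +kernel))))
        (CovZ.n1 (-18240, 32064) (by decide +kernel)
         (CovZ.n2 (-18240, 32256) (by decide +kernel)
          (CovZ.n2 (-18144, 32160) (by decide +kernel)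
           (CovZ.n2 (-18240, 32160) (by decide +kernel)
            (CovZ.badM (by decide +kernel))
            (CovZ.n1 (-18192, 32112) (by decide +kernel)
             (CovZ.leaf K2_ok TB_l23883 _)
             (CovZ.badM (by decide +kernel))))
           (CovZ.badM (by decide +kernel)))
          (CovZ.n1 (-18336, 32160) (by decide +kernel)
           (CovZ.n2 (-18336, 32256) (by decide +kernel)
            (CovZ.n2 (-18288, 32208) (by decide +kernel)
             (CovZ.leaf K2_ok TB_l23893 _)
             (CovZ.badM (by decide +kernel)))
            (CovZ.n1 (-18384, 32208) (by decide +kernel)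
             (CovZ.n2 (-18384, 32256) (by decide +kernel)
              (CovZ.badM (by decide +kernel))
              (CovZ.leaf K2_ok TB_l23897 _))
             (CovZ.leaf K2_ok TB_l23898 _)))
           (CovZ.n1 (-18240, 32160) (by decide +kernel)
            (CovZ.n2 (-18288, 32112) (by decide +kernel)
             (CovZ.leaf K2_ok TB_l23899 _)
             (CovZ.leaf K2_ok TB_l23900 _))
            (CovZ.n1 (-18288, 32208) (by decide +kernel)
             (CovZ.badM (by decide +kernel))
             (CovZ.leaf K2_ok TB_l23902 _)))))
         (CovZ.n1 (-18048, 32064) (by decide +kernel)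
          (CovZ.n2 (-18144, 31968) (by decide +kernel)
           (CovZ.n2 (-18144, 32064) (by decide +kernel)
            (CovZ.leaf K2_ok TB_l23903 _)
            (CovZ.leaf K2_ok TB_l23904 _))
           (CovZ.leaf K2_ok TB_l23905 _))
          (CovZ.n1 (-18144, 32160) (by decide +kernel)
           (CovZ.badM (by decide +kernel))
           (CovZ.leaf K2_ok TB_l23913 _))))))
      (CovZ.subM 293567822846729283856487560005776649602484376813742291132388566061446509134686805654231117724429721234604032 (by decide +kernel)
       (CovZ.n1 (-17664, 31872) (by decide +kernel)
        (CovZ.n2 (-17856, 31680) (by decide +kernel)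
         (CovZ.n2 (-17856, 31872) (by decide +kernel)
          (CovZ.n2 (-17760, 31776) (by decide +kernel)
           (CovZ.leaf K2_ok TB_l23914 _)
           (CovZ.n1 (-17760, 31872) (by decide +kernel)
            (CovZ.leaf K2_ok TB_l23915 _)
            (CovZ.leaf K2_ok TB_l23916 _)))
          (CovZ.n1 (-17952, 31776) (by decide +kernel)
           (CovZ.n2 (-17952, 31872) (by decide +kernel)
            (CovZ.leaf K2_ok TB_l23917 _)
            (CovZ.leaf K2_ok TB_l23918 _))
           (CovZ.leaf K2_ok TB_l23919 _)))
         (CovZ.n1 (-17664, 31680) (by decide +kernel)
          (CovZ.leaf K2_ok TB_l23920 _)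
          (CovZ.n1 (-17760, 31776) (by decide +kernel)
           (CovZ.leaf K2_ok TB_l23921 _)
           (CovZ.leaf K2_ok TB_l23922 _))))
        (CovZ.subM 293567822846729153486185074598667128421960318613539983838411371441526128139326055432962375987046389504802816 (by decide +kernel)
         (CovZ.n1 (-17856, 32064) (by decide +kernel)
          (CovZ.n2 (-17664, 32064) (by decide +kernel)
           (CovZ.n2 (-17760, 31968) (by decide +kernel)
            (CovZ.n2 (-17760, 32064) (by decide +kernel)
             (CovZ.n2 (-17712, 32016) (by decide +kernel)
              (CovZ.badM (by decide +kernel))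
              (CovZ.n1 (-17712, 32064) (by decide +kernel)
               (CovZ.leaf K2_ok TB_l23924 _)
               (CovZ.badM (by decide +kernel))))
             (CovZ.badM (by decide +kernel)))
            (CovZ.n1 (-17664, 31968) (by decide +kernel)
             (CovZ.n2 (-17712, 31920) (by decide +kernel)
              (CovZ.leaf K2_ok TB_l23929 _)
              (CovZ.leaf K2_ok TB_l23930 _))
             (CovZ.n1 (-17712, 32016) (by decide +kernel)
              (CovZ.leaf K2_ok TB_l23931 _)
              (CovZ.leaf K2_ok TB_l23932 _))))
           (CovZ.n1 (-17760, 32160) (by decide +kernel)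
            (CovZ.badM (by decide +kernel))
            (CovZ.n1 (-17760, 32064) (by decide +kernel)
             (CovZ.badM (by decide +kernel))
             (CovZ.n1 (-17712, 32112) (by decide +kernel)
              (CovZ.leaf K2_ok TB_l49663 _)
              (CovZ.badM (by decide +kernel))))))
          (CovZ.n1 (-17856, 31872) (by decide +kernel)
           (CovZ.n2 (-17952, 31968) (by decide +kernel)
            (CovZ.n2 (-17856, 31968) (by decide +kernel)
             (CovZ.leaf K2_ok TB_l23934 _)
             (CovZ.leaf K2_ok TB_l23935 _))
            (CovZ.leaf K2_ok TB_l23936 _))
           (CovZ.n1 (-17760, 31968) (by decide +kernel)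
            (CovZ.leaf K2_ok TB_l23937 _)
            (CovZ.n1 (-17856, 31968) (by decide +kernel)
             (CovZ.badM (by decide +kernel))
             (CovZ.leaf K2_ok TB_l23939 _))))))))))

theorem TB_u528 : CovZ TB_M (toL (selN TB_LN 726838724295649497672314647080906440271934053100189183080600695410115299055614094016827393438790783514049455054087934170779522185659393)) [0, 7, 6, 1] (-16128, 31488) (-15744, 31104) (-15360, 31488) :=
    (CovZ.n2 (-15744, 31488) (by decide +kernel)
       (CovZ.subM 726838724295606890549323808181572357200370514173503134880157327602599606726937907164602422155289694367298723515697588500092719586149377 (by decide +kernel)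
        (CovZ.n2 (-15552, 31296) (by decide +kernel)
         (CovZ.n2 (-15744, 31296) (by decide +kernel)
          (CovZ.subM 726838724295606890549323807888004534353641360687318060281490199180639288113397923326191050713763565563358670190277277250093101566919680 (by decide +kernel)
           (CovZ.n2 (-15648, 31392) (by decide +kernel)
            (CovZ.n2 (-15648, 31296) (by decide +kernel)
             (CovZ.n2 (-15696, 31344) (by decide +kernel)
              (CovZ.n2 (-15648, 31344) (by decide +kernel)
               (CovZ.n2 (-15672, 31320) (by decide +kernel)
                (CovZ.n2 (-15672, 31344) (by decide +kernel)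
                 (CovZ.leaf K2_ok TB_l45560 _)
                 (CovZ.leaf K2_ok TB_l45561 _))
                (CovZ.leaf K2_ok TB_l31097 _))
               (CovZ.n1 (-15672, 31368) (by decide +kernel)
                (CovZ.badM (by decide +kernel))
                (CovZ.leaf K2_ok TB_l45562 _)))
              (CovZ.leaf K2_ok TB_l31098 _))
             (CovZ.n1 (-15600, 31344) (by decide +kernel)
              (CovZ.n2 (-15600, 31296) (by decide +kernel)
               (CovZ.n2 (-15624, 31320) (by decide +kernel)
                (CovZ.leaf K2_ok TB_l31099 _)
                (CovZ.leaf K2_ok TB_l31100 _))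
               (CovZ.n1 (-15576, 31320) (by decide +kernel)
                (CovZ.leaf K2_ok TB_l31101 _)
                (CovZ.leaf K2_ok TB_l31102 _)))
              (CovZ.n1 (-15648, 31344) (by decide +kernel)
               (CovZ.badM (by decide +kernel))
               (CovZ.n1 (-15624, 31320) (by decide +kernel)
                (CovZ.leaf K2_ok TB_l31103 _)
                (CovZ.badM (by decide +kernel))))))
            (CovZ.n1 (-15744, 31392) (by decide +kernel)
             (CovZ.badM (by decide +kernel))
             (CovZ.n1 (-15696, 31344) (by decide +kernel)
              (CovZ.n2 (-15744, 31344) (by decide +kernel)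
               (CovZ.n2 (-15720, 31368) (by decide +kernel)
                (CovZ.leaf K2_ok TB_l45563 _)
                (CovZ.leaf K2_ok TB_l45564 _))
               (CovZ.n1 (-15720, 31320) (by decide +kernel)
                (CovZ.leaf K2_ok TB_l31104 _)
                (CovZ.leaf K2_ok TB_l31105 _)))
              (CovZ.n1 (-15696, 31392) (by decide +kernel)
               (CovZ.n2 (-15672, 31368) (by decide +kernel)
                (CovZ.leaf K2_ok TB_l45565 _)
                (CovZ.badM (by decide +kernel)))
               (CovZ.n1 (-15720, 31368) (by decide +kernel)
                (CovZ.badM (by decide +kernel))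
                (CovZ.n1 (-15696, 31368) (by decide +kernel)
                 (CovZ.leaf K2_ok TB_l45566 _)
                 (CovZ.badM (by decide +kernel)))))))))
          (CovZ.n1 (-15648, 31200) (by decide +kernel)
           (CovZ.n2 (-15744, 31200) (by decide +kernel)
            (CovZ.leaf K2_ok TB_l31106 _)
            (CovZ.n1 (-15696, 31152) (by decide +kernel)
             (CovZ.leaf K2_ok TB_l31107 _)
             (CovZ.n1 (-15696, 31200) (by decide +kernel)
              (CovZ.leaf K2_ok TB_l31108 _)
              (CovZ.leaf K2_ok TB_l31109 _))))
           (CovZ.n1 (-15648, 31296) (by decide +kernel)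
            (CovZ.n2 (-15600, 31248) (by decide +kernel)
             (CovZ.leaf K2_ok TB_l31110 _)
             (CovZ.n1 (-15600, 31296) (by decide +kernel)
              (CovZ.n2 (-15576, 31272) (by decide +kernel)
               (CovZ.leaf K2_ok TB_l31111 _)
               (CovZ.leaf K2_ok TB_l31112 _))
              (CovZ.n1 (-15624, 31272) (by decide +kernel)
               (CovZ.leaf K2_ok TB_l31113 _)
               (CovZ.leaf K2_ok TB_l31114 _))))
            (CovZ.n1 (-15696, 31248) (by decide +kernel)
             (CovZ.n2 (-15696, 31296) (by decide +kernel)
              (CovZ.n2 (-15672, 31272) (by decide +kernel)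
               (CovZ.leaf K2_ok TB_l31115 _)
               (CovZ.leaf K2_ok TB_l31116 _))
              (CovZ.leaf K2_ok TB_l31117 _))
             (CovZ.n1 (-15648, 31248) (by decide +kernel)
              (CovZ.leaf K2_ok TB_l31118 _)
              (CovZ.leaf K2_ok TB_l31119 _))))))
         (CovZ.subM 664613997892457936451903530140172288 (by decide +kernel)
          (CovZ.n1 (-15552, 31488) (by decide +kernel)
           (CovZ.n2 (-15456, 31392) (by decide +kernel)
            (CovZ.n2 (-15552, 31392) (by decide +kernel)
             (CovZ.badM (by decide +kernel))
             (CovZ.n1 (-15504, 31344) (by decide +kernel)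
              (CovZ.badM (by decide +kernel))
              (CovZ.badM (by decide +kernel))))
            (CovZ.badM (by decide +kernel)))
           (CovZ.badM (by decide +kernel))))))
       (CovZ.subM 726838724295649497672312242173301679866708563901258262155965354888505776487717361616794893686031677059955057074153670890997300240385025 (by decide +kernel)
        (CovZ.n1 (-15936, 31296) (by decide +kernel)
         (CovZ.n2 (-15936, 31488) (by decide +kernel)
          (CovZ.n2 (-15840, 31392) (by decide +kernel)
           (CovZ.n2 (-15936, 31392) (by decide +kernel)
            (CovZ.subM 726838724295648206547373198425439029060393408909136022704401811854789042544499107454572513823907893812989292204543520360821828643456000 (by decide +kernel)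
             (CovZ.n2 (-15888, 31440) (by decide +kernel)
              (CovZ.n2 (-15888, 31392) (by decide +kernel)
               (CovZ.n2 (-15912, 31416) (by decide +kernel)
                (CovZ.leaf K2_ok TB_l45567 _)
                (CovZ.leaf K2_ok TB_l45568 _))
               (CovZ.leaf K2_ok TB_l45569 _))
              (CovZ.n1 (-15936, 31440) (by decide +kernel)
               (CovZ.n2 (-15912, 31464) (by decide +kernel)
                (CovZ.leaf K2_ok TB_l45570 _)
                (CovZ.leaf K2_ok TB_l45571 _))
               (CovZ.n1 (-15912, 31416) (by decide +kernel)
                (CovZ.leaf K2_ok TB_l45572 _)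
                (CovZ.n1 (-15912, 31440) (by decide +kernel)
                 (CovZ.leaf K2_ok TB_l45573 _)
                 (CovZ.leaf K2_ok TB_l45574 _))))))
            (CovZ.n1 (-15888, 31344) (by decide +kernel)
             (CovZ.leaf K2_ok TB_l31120 _)
             (CovZ.n1 (-15888, 31392) (by decide +kernel)
              (CovZ.n2 (-15864, 31368) (by decide +kernel)
               (CovZ.leaf K2_ok TB_l31121 _)
               (CovZ.leaf K2_ok TB_l45575 _))
              (CovZ.leaf K2_ok TB_l31122 _))))
           (CovZ.subM 41315998049390537434494706752048221817962422911612674149754431101184128381463110144328254822918872802251330879940817059840 (by decide +kernel)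
            (CovZ.n1 (-15840, 31488) (by decide +kernel)
             (CovZ.n2 (-15792, 31440) (by decide +kernel)
              (CovZ.badM (by decide +kernel))
              (CovZ.badM (by decide +kernel)))
             (CovZ.n1 (-15888, 31440) (by decide +kernel)
              (CovZ.n2 (-15888, 31488) (by decide +kernel)
               (CovZ.badM (by decide +kernel))
               (CovZ.n1 (-15912, 31464) (by decide +kernel)
                (CovZ.n2 (-15912, 31488) (by decide +kernel)
                 (CovZ.badM (by decide +kernel))
                 (CovZ.leaf K2_ok TB_l49773 _))
                (CovZ.badM (by decide +kernel))))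
              (CovZ.n1 (-15840, 31440) (by decide +kernel)
               (CovZ.n2 (-15864, 31416) (by decide +kernel)
                (CovZ.n2 (-15864, 31440) (by decide +kernel)
                 (CovZ.badM (by decide +kernel))
                 (CovZ.leaf K2_ok TB_l45576 _))
                (CovZ.badM (by decide +kernel)))
               (CovZ.n1 (-15864, 31464) (by decide +kernel)
                (CovZ.badM (by decide +kernel))
                (CovZ.leaf K2_ok TB_l45577 _)))))))
          (CovZ.n1 (-16032, 31392) (by decide +kernel)
           (CovZ.subM 42607122988433991729322666338049695926440145581682187961705879382920685763277879711729441080637084494315944678509122683904 (by decide +kernel)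
            (CovZ.n2 (-16032, 31488) (by decide +kernel)
             (CovZ.n2 (-15984, 31440) (by decide +kernel)
              (CovZ.n2 (-16032, 31440) (by decide +kernel)
               (CovZ.leaf K2_ok TB_l45578 _)
               (CovZ.n1 (-16008, 31416) (by decide +kernel)
                (CovZ.leaf K2_ok TB_l31123 _)
                (CovZ.leaf K2_ok TB_l45579 _)))
              (CovZ.subM 42607122988433991729322666338049695926440145581682187961705879382920685763277879711389158713715991288347659398542992080896 (by decide +kernel)
               (CovZ.n1 (-15984, 31488) (by decide +kernel)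
                (CovZ.n2 (-15960, 31464) (by decide +kernel)
                 (CovZ.leaf K2_ok TB_l45580 _)
                 (CovZ.n1 (-15960, 31488) (by decide +kernel)
                  (CovZ.leaf K2_ok TB_l45581 _)
                  (CovZ.leaf K2_ok TB_l45582 _)))
                (CovZ.n1 (-16008, 31464) (by decide +kernel)
                 (CovZ.n2 (-16008, 31488) (by decide +kernel)
                  (CovZ.leaf K2_ok TB_l45583 _)
                  (CovZ.leaf K2_ok TB_l45584 _))
                 (CovZ.leaf K2_ok TB_l45585 _)))))
             (CovZ.n1 (-16080, 31440) (by decide +kernel)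
              (CovZ.n2 (-16080, 31488) (by decide +kernel)
               (CovZ.n2 (-16056, 31464) (by decide +kernel)
                (CovZ.leaf K2_ok TB_l45586 _)
                (CovZ.n1 (-16056, 31488) (by decide +kernel)
                 (CovZ.leaf K2_ok TB_l45587 _)
                 (CovZ.leaf K2_ok TB_l45588 _)))
               (CovZ.n1 (-16104, 31464) (by decide +kernel)
                (CovZ.leaf K2_ok TB_l45589 _)
                (CovZ.leaf K2_ok TB_l45590 _)))
              (CovZ.n1 (-16032, 31440) (by decide +kernel)
               (CovZ.leaf K2_ok TB_l31124 _)
               (CovZ.n1 (-16056, 31464) (by decide +kernel)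
                (CovZ.leaf K2_ok TB_l45591 _)
                (CovZ.leaf K2_ok TB_l45592 _))))))
           (CovZ.n1 (-15936, 31392) (by decide +kernel)
            (CovZ.n2 (-15984, 31344) (by decide +kernel)
             (CovZ.n2 (-15984, 31392) (by decide +kernel)
              (CovZ.leaf K2_ok TB_l31125 _)
              (CovZ.leaf K2_ok TB_l31126 _))
             (CovZ.leaf K2_ok TB_l31127 _))
            (CovZ.subM 42607122988433991729322666338049727755127275808027285906169760779454452192471530741643074903410667193060378873213388588032 (by decide +kernel)
             (CovZ.n1 (-15984, 31440) (by decide +kernel)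
              (CovZ.n2 (-15936, 31440) (by decide +kernel)
               (CovZ.n2 (-15960, 31416) (by decide +kernel)
                (CovZ.leaf K2_ok TB_l45593 _)
                (CovZ.leaf K2_ok TB_l45594 _))
               (CovZ.n1 (-15960, 31464) (by decide +kernel)
                (CovZ.n2 (-15936, 31464) (by decide +kernel)
                 (CovZ.leaf K2_ok TB_l45595 _)
                 (CovZ.leaf K2_ok TB_l45596 _))
                (CovZ.leaf K2_ok TB_l45597 _)))
              (CovZ.leaf K2_ok TB_l31128 _))))))
         (CovZ.n1 (-15744, 31296) (by decide +kernel)
          (CovZ.n2 (-15840, 31200) (by decide +kernel)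
           (CovZ.n2 (-15840, 31296) (by decide +kernel)
            (CovZ.n2 (-15792, 31248) (by decide +kernel)
             (CovZ.leaf K2_ok TB_l31129 _)
             (CovZ.n1 (-15792, 31296) (by decide +kernel)
              (CovZ.leaf K2_ok TB_l31130 _)
              (CovZ.leaf K2_ok TB_l31131 _)))
            (CovZ.n1 (-15888, 31248) (by decide +kernel)
             (CovZ.n2 (-15888, 31296) (by decide +kernel)
              (CovZ.leaf K2_ok TB_l31132 _)
              (CovZ.leaf K2_ok TB_l31133 _))
             (CovZ.leaf K2_ok TB_l31134 _)))
           (CovZ.n1 (-15744, 31200) (by decide +kernel)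
            (CovZ.n2 (-15792, 31152) (by decide +kernel)
             (CovZ.leaf K2_ok TB_l31135 _)
             (CovZ.leaf K2_ok TB_l31136 _))
            (CovZ.n1 (-15792, 31248) (by decide +kernel)
             (CovZ.leaf K2_ok TB_l31137 _)
             (CovZ.leaf K2_ok TB_l31138 _))))
          (CovZ.n1 (-15840, 31392) (by decide +kernel)
           (CovZ.subM 726838724295606890549323807888004534353641360687318060281490199180639288113397923326191050713763565563358670190277277250093101566919680 (by decide +kernel)
            (CovZ.n2 (-15744, 31392) (by decide +kernel)
             (CovZ.n2 (-15792, 31344) (by decide +kernel)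
              (CovZ.n2 (-15792, 31392) (by decide +kernel)
               (CovZ.n2 (-15768, 31368) (by decide +kernel)
                (CovZ.leaf K2_ok TB_l45598 _)
                (CovZ.n1 (-15768, 31392) (by decide +kernel)
                 (CovZ.leaf K2_ok TB_l45599 _)
                 (CovZ.badM (by decide +kernel))))
               (CovZ.n1 (-15816, 31368) (by decide +kernel)
                (CovZ.leaf K2_ok TB_l49812 _)
                (CovZ.leaf K2_ok TB_l45600 _)))
              (CovZ.n1 (-15744, 31344) (by decide +kernel)
               (CovZ.n2 (-15768, 31320) (by decide +kernel)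
                (CovZ.leaf K2_ok TB_l31139 _)
                (CovZ.leaf K2_ok TB_l31140 _))
               (CovZ.n1 (-15768, 31368) (by decide +kernel)
                (CovZ.leaf K2_ok TB_l45601 _)
                (CovZ.leaf K2_ok TB_l45602 _))))
             (CovZ.n1 (-15792, 31440) (by decide +kernel)
              (CovZ.badM (by decide +kernel))
              (CovZ.n1 (-15792, 31392) (by decide +kernel)
               (CovZ.badM (by decide +kernel))
               (CovZ.n1 (-15768, 31416) (by decide +kernel)
                (CovZ.leaf K2_ok TB_l45603 _)
                (CovZ.badM (by decide +kernel)))))))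
           (CovZ.n1 (-15840, 31296) (by decide +kernel)
            (CovZ.n2 (-15888, 31344) (by decide +kernel)
             (CovZ.n2 (-15840, 31344) (by decide +kernel)
              (CovZ.leaf K2_ok TB_l31141 _)
              (CovZ.leaf K2_ok TB_l31142 _))
             (CovZ.leaf K2_ok TB_l31143 _))
            (CovZ.n1 (-15792, 31344) (by decide +kernel)
             (CovZ.leaf K2_ok TB_l31144 _)
             (CovZ.leaf K2_ok TB_l31145 _))))))))

theorem TB_u529 : CovZ TB_M (toL (selN TB_LN 726838724295649497672314647080906440271934053100189183080600695410115299055614094016827393438790783514049455054087934170779522185659393)) [0, 7, 6, 1] (-15744, 31104) (-15360, 30720) (-15360, 31488) :=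
    (CovZ.subM 726838724295606890549323808181572357200370514174000458116567114244754988975084728004702878306087042084739187492595470400742819532702721 (by decide +kernel)
       (CovZ.n1 (-15360, 31104) (by decide +kernel)
        (CovZ.n2 (-15552, 30912) (by decide +kernel)
         (CovZ.n2 (-15552, 31104) (by decide +kernel)
          (CovZ.n2 (-15456, 31008) (by decide +kernel)
           (CovZ.leaf K2_ok TB_l31146 _)
           (CovZ.n1 (-15456, 31104) (by decide +kernel)
            (CovZ.n2 (-15408, 31056) (by decide +kernel)
             (CovZ.leaf K2_ok TB_l31147 _)
             (CovZ.n1 (-15408, 31104) (by decide +kernel)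
              (CovZ.leaf K2_ok TB_l31148 _)
              (CovZ.leaf K2_ok TB_l31149 _)))
            (CovZ.n1 (-15504, 31056) (by decide +kernel)
             (CovZ.leaf K2_ok TB_l31150 _)
             (CovZ.leaf K2_ok TB_l31151 _))))
          (CovZ.n1 (-15648, 31008) (by decide +kernel)
           (CovZ.n2 (-15648, 31104) (by decide +kernel)
            (CovZ.n2 (-15600, 31056) (by decide +kernel)
             (CovZ.leaf K2_ok TB_l31152 _)
             (CovZ.leaf K2_ok TB_l31153 _))
            (CovZ.leaf K2_ok TB_l31154 _))
           (CovZ.n1 (-15552, 31008) (by decide +kernel)
            (CovZ.leaf K2_ok TB_l31155 _)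
            (CovZ.leaf K2_ok TB_l31156 _))))
         (CovZ.n1 (-15360, 30912) (by decide +kernel)
          (CovZ.n2 (-15456, 30816) (by decide +kernel)
           (CovZ.n2 (-15456, 30912) (by decide +kernel)
            (CovZ.leaf K2_ok TB_l31157 _)
            (CovZ.leaf K2_ok TB_l31158 _))
           (CovZ.leaf K2_ok TB_l31159 _))
          (CovZ.n1 (-15456, 31008) (by decide +kernel)
           (CovZ.n2 (-15360, 31008) (by decide +kernel)
            (CovZ.leaf K2_ok TB_l31160 _)
            (CovZ.leaf K2_ok TB_l31161 _))
           (CovZ.leaf K2_ok TB_l31162 _))))
        (CovZ.n1 (-15552, 31296) (by decide +kernel)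
         (CovZ.n2 (-15360, 31296) (by decide +kernel)
          (CovZ.n2 (-15456, 31200) (by decide +kernel)
           (CovZ.n2 (-15456, 31296) (by decide +kernel)
            (CovZ.subM 667210146476469035768462030078542849 (by decide +kernel)
             (CovZ.n2 (-15408, 31248) (by decide +kernel)
              (CovZ.n2 (-15456, 31248) (by decide +kernel)
               (CovZ.n2 (-15432, 31272) (by decide +kernel)
                (CovZ.leaf K2_ok TB_l45604 _)
                (CovZ.leaf K2_ok TB_l45605 _))
               (CovZ.n1 (-15432, 31224) (by decide +kernel)
                (CovZ.leaf K2_ok TB_l31163 _)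
                (CovZ.n1 (-15432, 31248) (by decide +kernel)
                 (CovZ.leaf K2_ok TB_l45606 _)
                 (CovZ.leaf K2_ok TB_l45607 _))))
              (CovZ.badM (by decide +kernel))))
            (CovZ.n1 (-15504, 31248) (by decide +kernel)
             (CovZ.subM 726838724295606890549323807888004534353641360687318060281490199180639288113397923326191050713763566227972667927992708791324097344700417 (by decide +kernel)
              (CovZ.n2 (-15504, 31296) (by decide +kernel)
               (CovZ.n2 (-15480, 31272) (by decide +kernel)
                (CovZ.leaf K2_ok TB_l31164 _)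
                (CovZ.n1 (-15480, 31296) (by decide +kernel)
                 (CovZ.leaf K2_ok TB_l45608 _)
                 (CovZ.leaf K2_ok TB_l31165 _)))
               (CovZ.n1 (-15528, 31272) (by decide +kernel)
                (CovZ.n2 (-15528, 31296) (by decide +kernel)
                 (CovZ.leaf K2_ok TB_l31166 _)
                 (CovZ.leaf K2_ok TB_l31167 _))
                (CovZ.leaf K2_ok TB_l31168 _))))
             (CovZ.n1 (-15456, 31248) (by decide +kernel)
              (CovZ.n2 (-15480, 31224) (by decide +kernel)
               (CovZ.n2 (-15480, 31248) (by decide +kernel)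
                (CovZ.leaf K2_ok TB_l45609 _)
                (CovZ.leaf K2_ok TB_l31169 _))
               (CovZ.leaf K2_ok TB_l31170 _))
              (CovZ.n1 (-15480, 31272) (by decide +kernel)
               (CovZ.leaf K2_ok TB_l45610 _)
               (CovZ.leaf K2_ok TB_l31171 _)))))
           (CovZ.n1 (-15360, 31200) (by decide +kernel)
            (CovZ.n2 (-15408, 31152) (by decide +kernel)
             (CovZ.n2 (-15408, 31200) (by decide +kernel)
              (CovZ.n2 (-15384, 31176) (by decide +kernel)
               (CovZ.leaf K2_ok TB_l31172 _)
               (CovZ.leaf K2_ok TB_l45611 _))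
              (CovZ.n1 (-15432, 31176) (by decide +kernel)
               (CovZ.leaf K2_ok TB_l31173 _)
               (CovZ.leaf K2_ok TB_l31174 _)))
             (CovZ.n1 (-15360, 31152) (by decide +kernel)
              (CovZ.leaf K2_ok TB_l31175 _)
              (CovZ.leaf K2_ok TB_l31176 _)))
            (CovZ.n1 (-15408, 31248) (by decide +kernel)
             (CovZ.subM 667210146321726530858915395622993921 (by decide +kernel)
              (CovZ.n2 (-15360, 31248) (by decide +kernel)
               (CovZ.n2 (-15384, 31224) (by decide +kernel)
                (CovZ.n2 (-15384, 31248) (by decide +kernel)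
                 (CovZ.leaf K2_ok TB_l45612 _)
                 (CovZ.leaf K2_ok TB_l45613 _))
                (CovZ.n1 (-15360, 31224) (by decide +kernel)
                 (CovZ.leaf K2_ok TB_l45614 _)
                 (CovZ.leaf K2_ok TB_l45615 _)))
               (CovZ.badM (by decide +kernel))))
             (CovZ.n1 (-15408, 31200) (by decide +kernel)
              (CovZ.n2 (-15432, 31224) (by decide +kernel)
               (CovZ.leaf K2_ok TB_l45616 _)
               (CovZ.leaf K2_ok TB_l31177 _))
              (CovZ.leaf K2_ok TB_l45617 _)))))
          (CovZ.subM 664613997892457936451903530140172288 (by decide +kernel)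
           (CovZ.n1 (-15456, 31392) (by decide +kernel)
            (CovZ.badM (by decide +kernel))
            (CovZ.n1 (-15456, 31296) (by decide +kernel)
             (CovZ.n2 (-15504, 31344) (by decide +kernel)
              (CovZ.badM (by decide +kernel))
              (CovZ.n1 (-15504, 31296) (by decide +kernel)
               (CovZ.badM (by decide +kernel))
               (CovZ.badM (by decide +kernel))))
             (CovZ.badM (by decide +kernel))))))
         (CovZ.n1 (-15552, 31104) (by decide +kernel)
          (CovZ.n2 (-15648, 31200) (by decide +kernel)
           (CovZ.n2 (-15552, 31200) (by decide +kernel)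
            (CovZ.n2 (-15600, 31152) (by decide +kernel)
             (CovZ.n2 (-15600, 31200) (by decide +kernel)
              (CovZ.leaf K2_ok TB_l31178 _)
              (CovZ.leaf K2_ok TB_l31179 _))
             (CovZ.leaf K2_ok TB_l31180 _))
            (CovZ.subM 726838724295606890549323808181572357200370514173503134880157327602599606726937907164602422155289693702684725623239652048189189445911553 (by decide +kernel)
             (CovZ.n1 (-15600, 31248) (by decide +kernel)
              (CovZ.n2 (-15552, 31248) (by decide +kernel)
               (CovZ.n2 (-15576, 31224) (by decide +kernel)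
                (CovZ.leaf K2_ok TB_l31181 _)
                (CovZ.leaf K2_ok TB_l31182 _))
               (CovZ.n1 (-15576, 31272) (by decide +kernel)
                (CovZ.leaf K2_ok TB_l31183 _)
                (CovZ.leaf K2_ok TB_l31184 _)))
              (CovZ.leaf K2_ok TB_l31185 _))))
           (CovZ.leaf K2_ok TB_l31186 _))
          (CovZ.n1 (-15456, 31200) (by decide +kernel)
           (CovZ.n2 (-15456, 31104) (by decide +kernel)
            (CovZ.n2 (-15504, 31152) (by decide +kernel)
             (CovZ.leaf K2_ok TB_l31187 _)
             (CovZ.leaf K2_ok TB_l31188 _))
            (CovZ.n1 (-15408, 31152) (by decide +kernel)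
             (CovZ.leaf K2_ok TB_l31189 _)
             (CovZ.leaf K2_ok TB_l31190 _)))
           (CovZ.n1 (-15552, 31200) (by decide +kernel)
            (CovZ.n2 (-15504, 31248) (by decide +kernel)
             (CovZ.leaf K2_ok TB_l31191 _)
             (CovZ.n1 (-15552, 31248) (by decide +kernel)
              (CovZ.leaf K2_ok TB_l31192 _)
              (CovZ.n1 (-15528, 31224) (by decide +kernel)
               (CovZ.leaf K2_ok TB_l31193 _)
               (CovZ.leaf K2_ok TB_l31194 _))))
            (CovZ.n1 (-15504, 31152) (by decide +kernel)
             (CovZ.leaf K2_ok TB_l31195 _)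
             (CovZ.n1 (-15504, 31200) (by decide +kernel)
              (CovZ.leaf K2_ok TB_l31196 _)
              (CovZ.leaf K2_ok TB_l31197 _)))))))))

theorem TB_u530 : CovZ TB_M (toL (selN TB_LN 41315998051795738607077958706690874607947579577949877619749482994545760295684502602300829769988559120598346066716916745216)) [0, 7, 6, 1] (-16128, 31488) (-16512, 31872) (-16896, 31488) :=
    (CovZ.n2 (-16512, 31488) (by decide +kernel)
        (CovZ.n2 (-16704, 31680) (by decide +kernel)
         (CovZ.subM 41315998049390831002317553481201676174349891352395998165609163244634200363640900640542757730052448540972791188610627928064 (by decide +kernel)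
          (CovZ.n2 (-16512, 31680) (by decide +kernel)
           (CovZ.n2 (-16608, 31584) (by decide +kernel)
            (CovZ.n2 (-16608, 31680) (by decide +kernel)
             (CovZ.n2 (-16560, 31632) (by decide +kernel)
              (CovZ.leaf K2_ok TB_l31258 _)
              (CovZ.n1 (-16560, 31680) (by decide +kernel)
               (CovZ.n2 (-16536, 31656) (by decide +kernel)
                (CovZ.leaf K2_ok TB_l45625 _)
                (CovZ.badM (by decide +kernel)))
               (CovZ.n1 (-16584, 31656) (by decide +kernel)
                (CovZ.leaf K2_ok TB_l45626 _)
                (CovZ.leaf K2_ok TB_l45627 _))))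
             (CovZ.n1 (-16656, 31632) (by decide +kernel)
              (CovZ.n2 (-16656, 31680) (by decide +kernel)
               (CovZ.n2 (-16632, 31656) (by decide +kernel)
                (CovZ.leaf K2_ok TB_l31259 _)
                (CovZ.leaf K2_ok TB_l45628 _))
               (CovZ.leaf K2_ok TB_l31260 _))
              (CovZ.n1 (-16608, 31632) (by decide +kernel)
               (CovZ.leaf K2_ok TB_l31261 _)
               (CovZ.leaf K2_ok TB_l31262 _))))
            (CovZ.n1 (-16512, 31584) (by decide +kernel)
             (CovZ.n2 (-16560, 31536) (by decide +kernel)
              (CovZ.n2 (-16560, 31584) (by decide +kernel)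
               (CovZ.leaf K2_ok TB_l31263 _)
               (CovZ.leaf K2_ok TB_l31264 _))
              (CovZ.leaf K2_ok TB_l31265 _))
             (CovZ.n1 (-16560, 31632) (by decide +kernel)
              (CovZ.n2 (-16512, 31632) (by decide +kernel)
               (CovZ.leaf K2_ok TB_l31266 _)
               (CovZ.leaf K2_ok TB_l45629 _))
              (CovZ.leaf K2_ok TB_l31267 _))))
           (CovZ.n1 (-16608, 31776) (by decide +kernel)
            (CovZ.badM (by decide +kernel))
            (CovZ.n1 (-16608, 31680) (by decide +kernel)
             (CovZ.n2 (-16656, 31728) (by decide +kernel)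
              (CovZ.badM (by decide +kernel))
              (CovZ.leaf K2_ok TB_l45630 _))
             (CovZ.badM (by decide +kernel))))))
         (CovZ.n1 (-16704, 31488) (by decide +kernel)
          (CovZ.n2 (-16800, 31584) (by decide +kernel)
           (CovZ.subM 293567822846729153486185074598667128421960318613539983838411371441526468421692976526169523674996771420897280 (by decide +kernel)
            (CovZ.n2 (-16704, 31584) (by decide +kernel)
             (CovZ.n2 (-16752, 31536) (by decide +kernel)
              (CovZ.leaf K2_ok TB_l31268 _)
              (CovZ.leaf K2_ok TB_l31269 _))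
             (CovZ.n1 (-16752, 31632) (by decide +kernel)
              (CovZ.leaf K2_ok TB_l31270 _)
              (CovZ.leaf K2_ok TB_l31271 _))))
           (CovZ.leaf K2_ok TB_l31272 _))
          (CovZ.subM 41315998049390831002317553481201676174349891352395998165609163244634200363640900640542757730052448542153382809328039231488 (by decide +kernel)
           (CovZ.n1 (-16608, 31584) (by decide +kernel)
            (CovZ.leaf K2_ok TB_l31273 _)
            (CovZ.n1 (-16704, 31584) (by decide +kernel)
             (CovZ.leaf K2_ok TB_l31274 _)
             (CovZ.n1 (-16656, 31536) (by decide +kernel)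
              (CovZ.leaf K2_ok TB_l31275 _)
              (CovZ.leaf K2_ok TB_l31276 _)))))))
        (CovZ.subM 41315998049390831002317553481201676174349891352395998165609163244634200363640900640542757730052448540972791188610627929088 (by decide +kernel)
         (CovZ.n1 (-16320, 31680) (by decide +kernel)
          (CovZ.n2 (-16320, 31488) (by decide +kernel)
           (CovZ.n2 (-16416, 31584) (by decide +kernel)
            (CovZ.n2 (-16320, 31584) (by decide +kernel)
             (CovZ.n2 (-16368, 31536) (by decide +kernel)
              (CovZ.n2 (-16368, 31584) (by decide +kernel)
               (CovZ.n2 (-16344, 31560) (by decide +kernel)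
                (CovZ.leaf K2_ok TB_l31277 _)
                (CovZ.leaf K2_ok TB_l45631 _))
               (CovZ.leaf K2_ok TB_l31278 _))
              (CovZ.n1 (-16320, 31536) (by decide +kernel)
               (CovZ.leaf K2_ok TB_l31279 _)
               (CovZ.leaf K2_ok TB_l31280 _)))
             (CovZ.subM 10384593871812160167733527020830720 (by decide +kernel)
              (CovZ.n1 (-16368, 31632) (by decide +kernel)
               (CovZ.badM (by decide +kernel))
               (CovZ.n1 (-16368, 31584) (by decide +kernel)
                (CovZ.n2 (-16392, 31608) (by decide +kernel)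
                 (CovZ.leaf K2_ok TB_l45632 _)
                 (CovZ.leaf K2_ok TB_l45633 _))
                (CovZ.leaf K2_ok TB_l45634 _)))))
            (CovZ.n1 (-16416, 31488) (by decide +kernel)
             (CovZ.n2 (-16464, 31536) (by decide +kernel)
              (CovZ.leaf K2_ok TB_l31281 _)
              (CovZ.leaf K2_ok TB_l31282 _))
             (CovZ.n1 (-16368, 31536) (by decide +kernel)
              (CovZ.leaf K2_ok TB_l31283 _)
              (CovZ.leaf K2_ok TB_l31284 _))))
           (CovZ.n1 (-16224, 31584) (by decide +kernel)
            (CovZ.n2 (-16224, 31488) (by decide +kernel)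
             (CovZ.n2 (-16272, 31536) (by decide +kernel)
              (CovZ.n2 (-16224, 31536) (by decide +kernel)
               (CovZ.n2 (-16248, 31512) (by decide +kernel)
                (CovZ.leaf K2_ok TB_l45635 _)
                (CovZ.leaf K2_ok TB_l31285 _))
               (CovZ.n1 (-16248, 31560) (by decide +kernel)
                (CovZ.leaf K2_ok TB_l45636 _)
                (CovZ.leaf K2_ok TB_l45637 _)))
              (CovZ.leaf K2_ok TB_l31286 _))
             (CovZ.n1 (-16176, 31536) (by decide +kernel)
              (CovZ.leaf K2_ok TB_l31287 _)
              (CovZ.n1 (-16224, 31536) (by decide +kernel)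
               (CovZ.leaf K2_ok TB_l45638 _)
               (CovZ.n1 (-16200, 31512) (by decide +kernel)
                (CovZ.leaf K2_ok TB_l31288 _)
                (CovZ.leaf K2_ok TB_l45639 _)))))
            (CovZ.n1 (-16320, 31584) (by decide +kernel)
             (CovZ.badM (by decide +kernel))
             (CovZ.n1 (-16272, 31536) (by decide +kernel)
              (CovZ.leaf K2_ok TB_l31289 _)
              (CovZ.subM 340292751514655533118631668424426651648 (by decide +kernel)
               (CovZ.n1 (-16272, 31584) (by decide +kernel)
                (CovZ.n2 (-16248, 31560) (by decide +kernel)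
                 (CovZ.leaf K2_ok TB_l45640 _)
                 (CovZ.badM (by decide +kernel)))
                (CovZ.n1 (-16296, 31560) (by decide +kernel)
                 (CovZ.n2 (-16296, 31584) (by decide +kernel)
                  (CovZ.leaf K2_ok TB_l45641 _)
                  (CovZ.leaf K2_ok TB_l45642 _))
                 (CovZ.leaf K2_ok TB_l45643 _))))))))
          (CovZ.n1 (-16512, 31680) (by decide +kernel)
           (CovZ.badM (by decide +kernel))
           (CovZ.n1 (-16416, 31584) (by decide +kernel)
            (CovZ.n2 (-16512, 31584) (by decide +kernel)
             (CovZ.subM 10384593871812160167733527020830720 (by decide +kernel)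
              (CovZ.n2 (-16464, 31632) (by decide +kernel)
               (CovZ.leaf K2_ok TB_l31290 _)
               (CovZ.n1 (-16512, 31632) (by decide +kernel)
                (CovZ.leaf K2_ok TB_l45644 _)
                (CovZ.n1 (-16488, 31608) (by decide +kernel)
                 (CovZ.leaf K2_ok TB_l31291 _)
                 (CovZ.leaf K2_ok TB_l45645 _)))))
             (CovZ.n1 (-16464, 31536) (by decide +kernel)
              (CovZ.leaf K2_ok TB_l31292 _)
              (CovZ.n1 (-16464, 31584) (by decide +kernel)
               (CovZ.leaf K2_ok TB_l31293 _)
               (CovZ.leaf K2_ok TB_l31294 _))))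
            (CovZ.subM 10384593871812160167733527020830720 (by decide +kernel)
             (CovZ.n1 (-16416, 31680) (by decide +kernel)
              (CovZ.n2 (-16368, 31632) (by decide +kernel)
               (CovZ.n2 (-16416, 31632) (by decide +kernel)
                (CovZ.badM (by decide +kernel))
                (CovZ.n1 (-16392, 31608) (by decide +kernel)
                 (CovZ.leaf K2_ok TB_l45646 _)
                 (CovZ.badM (by decide +kernel))))
               (CovZ.badM (by decide +kernel)))
              (CovZ.n1 (-16464, 31632) (by decide +kernel)
               (CovZ.badM (by decide +kernel))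
               (CovZ.n1 (-16416, 31632) (by decide +kernel)
                (CovZ.n2 (-16440, 31608) (by decide +kernel)
                 (CovZ.leaf K2_ok TB_l45647 _)
                 (CovZ.leaf K2_ok TB_l45648 _))
                (CovZ.badM (by decide +kernel)))))))))))

theorem TB_u531 : CovZ TB_M (toL (selN TB_LN 41315998051795738607077958706690874607947579577949877619749482994545760295684502602300829769988559120598346066716916745216)) [0, 7, 6, 1] (-16512, 31872) (-16896, 32256) (-16896, 31488) :=
    (CovZ.n1 (-16896, 31872) (by decide +kernel)
        (CovZ.subM 2404907604760405225358828131112281116032698930082119547604265954848982041717359051177430175258920757891514236928 (by decide +kernel)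
         (CovZ.n2 (-16704, 32064) (by decide +kernel)
          (CovZ.n2 (-16704, 31872) (by decide +kernel)
           (CovZ.n2 (-16800, 31968) (by decide +kernel)
            (CovZ.badM (by decide +kernel))
            (CovZ.n1 (-16800, 31872) (by decide +kernel)
             (CovZ.n2 (-16848, 31920) (by decide +kernel)
              (CovZ.badM (by decide +kernel))
              (CovZ.n1 (-16848, 31872) (by decide +kernel)
               (CovZ.badM (by decide +kernel))
               (CovZ.badM (by decide +kernel))))
             (CovZ.badM (by decide +kernel))))
           (CovZ.badM (by decide +kernel)))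
          (CovZ.badM (by decide +kernel))))
        (CovZ.n1 (-16704, 31680) (by decide +kernel)
         (CovZ.n2 (-16896, 31680) (by decide +kernel)
          (CovZ.subM 2405201172583251954642684618672286892682301414458933289895398343415043487886211365991698283324635997214099931136 (by decide +kernel)
           (CovZ.n2 (-16800, 31776) (by decide +kernel)
            (CovZ.n2 (-16800, 31680) (by decide +kernel)
             (CovZ.n2 (-16848, 31728) (by decide +kernel)
              (CovZ.n2 (-16800, 31728) (by decide +kernel)
               (CovZ.leaf K2_ok TB_l31295 _)
               (CovZ.leaf K2_ok TB_l31296 _))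
              (CovZ.leaf K2_ok TB_l31297 _))
             (CovZ.subM 293567822846729153486185074598667128421960318613539983838411371441526128139326055587704879708768622241382400 (by decide +kernel)
              (CovZ.n1 (-16752, 31728) (by decide +kernel)
               (CovZ.leaf K2_ok TB_l31298 _)
               (CovZ.n1 (-16800, 31728) (by decide +kernel)
                (CovZ.leaf K2_ok TB_l31299 _)
                (CovZ.n1 (-16776, 31704) (by decide +kernel)
                 (CovZ.leaf K2_ok TB_l31300 _)
                 (CovZ.leaf K2_ok TB_l31301 _))))))
            (CovZ.n1 (-16896, 31776) (by decide +kernel)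
             (CovZ.n2 (-16848, 31824) (by decide +kernel)
              (CovZ.n2 (-16848, 31776) (by decide +kernel)
               (CovZ.n2 (-16872, 31800) (by decide +kernel)
                (CovZ.badM (by decide +kernel))
                (CovZ.leaf K2_ok TB_l31303 _))
               (CovZ.badM (by decide +kernel)))
              (CovZ.n1 (-16896, 31824) (by decide +kernel)
               (CovZ.n2 (-16872, 31848) (by decide +kernel)
                (CovZ.leaf K2_ok TB_l45649 _)
                (CovZ.badM (by decide +kernel)))
               (CovZ.n1 (-16872, 31800) (by decide +kernel)
                (CovZ.leaf K2_ok TB_l31305 _)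
                (CovZ.n1 (-16872, 31824) (by decide +kernel)
                 (CovZ.badM (by decide +kernel))
                 (CovZ.leaf K2_ok TB_l31306 _)))))
             (CovZ.n1 (-16848, 31728) (by decide +kernel)
              (CovZ.leaf K2_ok TB_l31307 _)
              (CovZ.n1 (-16848, 31776) (by decide +kernel)
               (CovZ.n2 (-16824, 31752) (by decide +kernel)
                (CovZ.leaf K2_ok TB_l31308 _)
                (CovZ.badM (by decide +kernel)))
               (CovZ.n1 (-16872, 31752) (by decide +kernel)
                (CovZ.leaf K2_ok TB_l31310 _)
                (CovZ.leaf K2_ok TB_l31311 _)))))))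
          (CovZ.n1 (-16800, 31584) (by decide +kernel)
           (CovZ.n2 (-16896, 31584) (by decide +kernel)
            (CovZ.leaf K2_ok TB_l31312 _)
            (CovZ.leaf K2_ok TB_l31313 _))
           (CovZ.subM 2405201172583251954642684618672286892682301414458933289895398343415043487886211365991698283324635997214099931136 (by decide +kernel)
            (CovZ.n1 (-16800, 31680) (by decide +kernel)
             (CovZ.n2 (-16752, 31632) (by decide +kernel)
              (CovZ.leaf K2_ok TB_l31314 _)
              (CovZ.n1 (-16752, 31680) (by decide +kernel)
               (CovZ.leaf K2_ok TB_l31315 _)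
               (CovZ.leaf K2_ok TB_l31316 _)))
             (CovZ.n1 (-16848, 31632) (by decide +kernel)
              (CovZ.n2 (-16848, 31680) (by decide +kernel)
               (CovZ.leaf K2_ok TB_l31317 _)
               (CovZ.leaf K2_ok TB_l31318 _))
              (CovZ.leaf K2_ok TB_l31319 _))))))
         (CovZ.subM 2404907604760405225489198433597688225553879454140319749911559932043601961758082424529982390605094962118879379456 (by decide +kernel)
          (CovZ.n1 (-16704, 31872) (by decide +kernel)
           (CovZ.subM 10384593871812160167733527020830720 (by decide +kernel)
            (CovZ.n2 (-16608, 31776) (by decide +kernel)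
             (CovZ.n2 (-16704, 31776) (by decide +kernel)
              (CovZ.badM (by decide +kernel))
              (CovZ.n1 (-16656, 31728) (by decide +kernel)
               (CovZ.n2 (-16704, 31728) (by decide +kernel)
                (CovZ.badM (by decide +kernel))
                (CovZ.n1 (-16680, 31704) (by decide +kernel)
                 (CovZ.leaf K2_ok TB_l45653 _)
                 (CovZ.badM (by decide +kernel))))
               (CovZ.badM (by decide +kernel))))
             (CovZ.badM (by decide +kernel))))
           (CovZ.n1 (-16800, 31776) (by decide +kernel)
            (CovZ.n2 (-16800, 31872) (by decide +kernel)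
             (CovZ.badM (by decide +kernel))
             (CovZ.n1 (-16848, 31824) (by decide +kernel)
              (CovZ.n2 (-16848, 31872) (by decide +kernel)
               (CovZ.badM (by decide +kernel))
               (CovZ.n1 (-16872, 31848) (by decide +kernel)
                (CovZ.badM (by decide +kernel))
                (CovZ.badM (by decide +kernel))))
              (CovZ.badM (by decide +kernel))))
            (CovZ.subM 154742504910672534362390528 (by decide +kernel)
             (CovZ.n1 (-16704, 31776) (by decide +kernel)
              (CovZ.n2 (-16752, 31728) (by decide +kernel)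
               (CovZ.badM (by decide +kernel))
               (CovZ.n1 (-16704, 31728) (by decide +kernel)
                (CovZ.n2 (-16728, 31704) (by decide +kernel)
                 (CovZ.leaf K2_ok TB_l45657 _)
                 (CovZ.leaf K2_ok TB_l45658 _))
                (CovZ.badM (by decide +kernel))))
              (CovZ.badM (by decide +kernel)))))))))

theorem TB_u532 : CovZ TB_M (toL (selN TB_LN 293567822846729155523718374169563001332561389271064965729980221258259727160117115240720036963510663377912833)) [0, 7, 6, 1] (-14592, 31488) (-14976, 31104) (-14592, 30720) :=
    (CovZ.n2 (-14592, 31104) (by decide +kernel)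
       (CovZ.n2 (-14784, 30912) (by decide +kernel)
        (CovZ.subM 497323236409786642155382248146820840100456150797347720036612560903078221950315902534656 (by decide +kernel)
         (CovZ.n2 (-14784, 31104) (by decide +kernel)
          (CovZ.n2 (-14688, 31008) (by decide +kernel)
           (CovZ.n2 (-14784, 31008) (by decide +kernel)
            (CovZ.badM (by decide +kernel))
            (CovZ.n1 (-14736, 30960) (by decide +kernel)
             (CovZ.n2 (-14784, 30960) (by decide +kernel)
              (CovZ.badM (by decide +kernel))
              (CovZ.n1 (-14760, 30936) (by decide +kernel)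
               (CovZ.leaf K2_ok TB_l36792 _)
               (CovZ.n1 (-14760, 30960) (by decide +kernel)
                (CovZ.leaf K2_ok TB_l36793 _)
                (CovZ.leaf K2_ok TB_l36794 _))))
             (CovZ.badM (by decide +kernel))))
           (CovZ.badM (by decide +kernel)))
          (CovZ.n1 (-14880, 31008) (by decide +kernel)
           (CovZ.n2 (-14880, 31104) (by decide +kernel)
            (CovZ.n2 (-14832, 31056) (by decide +kernel)
             (CovZ.n2 (-14880, 31056) (by decide +kernel)
              (CovZ.badM (by decide +kernel))
              (CovZ.n1 (-14856, 31032) (by decide +kernel)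
               (CovZ.leaf K2_ok TB_l48020 _)
               (CovZ.badM (by decide +kernel))))
             (CovZ.badM (by decide +kernel)))
            (CovZ.n1 (-14928, 31056) (by decide +kernel)
             (CovZ.badM (by decide +kernel))
             (CovZ.n1 (-14880, 31056) (by decide +kernel)
              (CovZ.n2 (-14904, 31032) (by decide +kernel)
               (CovZ.badM (by decide +kernel))
               (CovZ.n1 (-14880, 31032) (by decide +kernel)
                (CovZ.leaf K2_ok TB_l48021 _)
                (CovZ.badM (by decide +kernel))))
              (CovZ.badM (by decide +kernel)))))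
           (CovZ.n1 (-14784, 31008) (by decide +kernel)
            (CovZ.n2 (-14832, 30960) (by decide +kernel)
             (CovZ.n2 (-14832, 31008) (by decide +kernel)
              (CovZ.n2 (-14808, 30984) (by decide +kernel)
               (CovZ.leaf K2_ok TB_l36795 _)
               (CovZ.badM (by decide +kernel)))
              (CovZ.n1 (-14856, 30984) (by decide +kernel)
               (CovZ.n2 (-14856, 31008) (by decide +kernel)
                (CovZ.leaf K2_ok TB_l48022 _)
                (CovZ.leaf K2_ok TB_l48023 _))
               (CovZ.leaf K2_ok TB_l36796 _)))
             (CovZ.n1 (-14784, 30960) (by decide +kernel)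
              (CovZ.n2 (-14808, 30936) (by decide +kernel)
               (CovZ.n2 (-14808, 30960) (by decide +kernel)
                (CovZ.leaf K2_ok TB_l36797 _)
                (CovZ.leaf K2_ok TB_l36798 _))
               (CovZ.leaf K2_ok TB_l36799 _))
              (CovZ.n1 (-14808, 30984) (by decide +kernel)
               (CovZ.badM (by decide +kernel))
               (CovZ.leaf K2_ok TB_l36800 _))))
            (CovZ.n1 (-14832, 31056) (by decide +kernel)
             (CovZ.badM (by decide +kernel))
             (CovZ.n1 (-14832, 31008) (by decide +kernel)
              (CovZ.n2 (-14856, 31032) (by decide +kernel)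
               (CovZ.n2 (-14832, 31032) (by decide +kernel)
                (CovZ.leaf K2_ok TB_l48024 _)
                (CovZ.badM (by decide +kernel)))
               (CovZ.leaf K2_ok TB_l48025 _))
              (CovZ.badM (by decide +kernel))))))))
        (CovZ.subM 293567822846729155523221050933153214690406007022918144889879765107462378778062653371367760385819185525031936 (by decide +kernel)
         (CovZ.n1 (-14592, 30912) (by decide +kernel)
          (CovZ.n2 (-14688, 30816) (by decide +kernel)
           (CovZ.n2 (-14688, 30912) (by decide +kernel)
            (CovZ.n2 (-14640, 30864) (by decide +kernel)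
             (CovZ.n2 (-14688, 30864) (by decide +kernel)
              (CovZ.leaf K2_ok TB_l36801 _)
              (CovZ.n1 (-14664, 30840) (by decide +kernel)
               (CovZ.leaf K2_ok TB_l36802 _)
               (CovZ.leaf K2_ok TB_l36803 _)))
             (CovZ.n1 (-14640, 30912) (by decide +kernel)
              (CovZ.n2 (-14616, 30888) (by decide +kernel)
               (CovZ.leaf K2_ok TB_l36804 _)
               (CovZ.n1 (-14616, 30912) (by decide +kernel)
                (CovZ.leaf K2_ok TB_l36805 _)
                (CovZ.leaf K2_ok TB_l36806 _)))
              (CovZ.n1 (-14664, 30888) (by decide +kernel)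
               (CovZ.n2 (-14664, 30912) (by decide +kernel)
                (CovZ.leaf K2_ok TB_l48026 _)
                (CovZ.leaf K2_ok TB_l48027 _))
               (CovZ.leaf K2_ok TB_l36807 _))))
            (CovZ.n1 (-14736, 30864) (by decide +kernel)
             (CovZ.subM 2596148584014641091420652172215296 (by decide +kernel)
              (CovZ.n2 (-14736, 30912) (by decide +kernel)
               (CovZ.n2 (-14712, 30888) (by decide +kernel)
                (CovZ.leaf K2_ok TB_l36808 _)
                (CovZ.n1 (-14712, 30912) (by decide +kernel)
                 (CovZ.leaf K2_ok TB_l48028 _)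
                 (CovZ.leaf K2_ok TB_l36809 _)))
               (CovZ.n1 (-14760, 30888) (by decide +kernel)
                (CovZ.leaf K2_ok TB_l36810 _)
                (CovZ.leaf K2_ok TB_l36811 _))))
             (CovZ.n1 (-14688, 30864) (by decide +kernel)
              (CovZ.leaf K2_ok TB_l36812 _)
              (CovZ.leaf K2_ok TB_l36813 _))))
           (CovZ.n1 (-14592, 30816) (by decide +kernel)
            (CovZ.n2 (-14640, 30768) (by decide +kernel)
             (CovZ.n2 (-14640, 30816) (by decide +kernel)
              (CovZ.leaf K2_ok TB_l36814 _)
              (CovZ.leaf K2_ok TB_l36815 _))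
             (CovZ.leaf K2_ok TB_l36816 _))
            (CovZ.n1 (-14640, 30864) (by decide +kernel)
             (CovZ.n2 (-14592, 30864) (by decide +kernel)
              (CovZ.n2 (-14616, 30840) (by decide +kernel)
               (CovZ.n2 (-14616, 30864) (by decide +kernel)
                (CovZ.leaf K2_ok TB_l36817 _)
                (CovZ.leaf K2_ok TB_l36818 _))
               (CovZ.leaf K2_ok TB_l36819 _))
              (CovZ.n1 (-14616, 30888) (by decide +kernel)
               (CovZ.leaf K2_ok TB_l36820 _)
               (CovZ.leaf K2_ok TB_l36821 _)))
             (CovZ.leaf K2_ok TB_l36822 _))))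
          (CovZ.subM 2596148584009918724937782527001600 (by decide +kernel)
           (CovZ.n1 (-14688, 31008) (by decide +kernel)
            (CovZ.badM (by decide +kernel))
            (CovZ.n1 (-14688, 30912) (by decide +kernel)
             (CovZ.n2 (-14736, 30960) (by decide +kernel)
              (CovZ.n2 (-14688, 30960) (by decide +kernel)
               (CovZ.n2 (-14712, 30936) (by decide +kernel)
                (CovZ.badM (by decide +kernel))
                (CovZ.leaf K2_ok TB_l48029 _))
               (CovZ.badM (by decide +kernel)))
              (CovZ.n1 (-14736, 30912) (by decide +kernel)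
               (CovZ.n2 (-14760, 30936) (by decide +kernel)
                (CovZ.leaf K2_ok TB_l36823 _)
                (CovZ.leaf K2_ok TB_l36824 _))
               (CovZ.leaf K2_ok TB_l36825 _)))
             (CovZ.n1 (-14640, 30960) (by decide +kernel)
              (CovZ.n2 (-14640, 30912) (by decide +kernel)
               (CovZ.n2 (-14664, 30936) (by decide +kernel)
                (CovZ.badM (by decide +kernel))
                (CovZ.leaf K2_ok TB_l48030 _))
               (CovZ.badM (by decide +kernel)))
              (CovZ.n1 (-14688, 30960) (by decide +kernel)
               (CovZ.badM (by decide +kernel))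
               (CovZ.n1 (-14664, 30936) (by decide +kernel)
                (CovZ.leaf K2_ok TB_l48031 _)
                (CovZ.badM (by decide +kernel)))))))))))
       (CovZ.badM (by decide +kernel)))

theorem TB_u533 : CovZ TB_M (toL (selN TB_LN 293567822846729155523718374169563001332561389271064965729980221258259727160117115240720036963510663377912833)) [0, 7, 6, 1] (-14976, 31104) (-15360, 30720) (-14592, 30720) :=
    (CovZ.n1 (-14976, 30720) (by decide +kernel)
       (CovZ.n2 (-15168, 30912) (by decide +kernel)
        (CovZ.subM 293567822846729153486682397835076915064115700861686804678511827592323476523976665886337556571398542857339904 (by decide +kernel)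
         (CovZ.n2 (-14976, 30912) (by decide +kernel)
          (CovZ.n2 (-15072, 30816) (by decide +kernel)
           (CovZ.n2 (-15072, 30912) (by decide +kernel)
            (CovZ.n2 (-15024, 30864) (by decide +kernel)
             (CovZ.leaf K2_ok TB_l36826 _)
             (CovZ.n1 (-15024, 30912) (by decide +kernel)
              (CovZ.leaf K2_ok TB_l36827 _)
              (CovZ.leaf K2_ok TB_l36828 _)))
            (CovZ.n1 (-15120, 30864) (by decide +kernel)
             (CovZ.leaf K2_ok TB_l36829 _)
             (CovZ.leaf K2_ok TB_l36830 _)))
           (CovZ.n1 (-14976, 30816) (by decide +kernel)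
            (CovZ.leaf K2_ok TB_l36831 _)
            (CovZ.leaf K2_ok TB_l36832 _)))
          (CovZ.n1 (-15072, 31008) (by decide +kernel)
           (CovZ.n2 (-14976, 31008) (by decide +kernel)
            (CovZ.n2 (-15024, 30960) (by decide +kernel)
             (CovZ.n2 (-15024, 31008) (by decide +kernel)
              (CovZ.n2 (-15000, 30984) (by decide +kernel)
               (CovZ.leaf K2_ok TB_l36833 _)
               (CovZ.leaf K2_ok TB_l36834 _))
              (CovZ.leaf K2_ok TB_l36835 _))
             (CovZ.leaf K2_ok TB_l36836 _))
            (CovZ.n1 (-15024, 31056) (by decide +kernel)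
             (CovZ.subM 497323236409786642155382248146820840100456150797347720036612560903078221950315902534656 (by decide +kernel)
              (CovZ.n2 (-14976, 31056) (by decide +kernel)
               (CovZ.n2 (-15000, 31032) (by decide +kernel)
                (CovZ.n2 (-15000, 31056) (by decide +kernel)
                 (CovZ.leaf K2_ok TB_l36837 _)
                 (CovZ.leaf K2_ok TB_l36838 _))
                (CovZ.leaf K2_ok TB_l36839 _))
               (CovZ.badM (by decide +kernel))))
             (CovZ.leaf K2_ok TB_l36840 _)))
           (CovZ.n1 (-15072, 30912) (by decide +kernel)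
            (CovZ.n2 (-15120, 30960) (by decide +kernel)
             (CovZ.leaf K2_ok TB_l36841 _)
             (CovZ.leaf K2_ok TB_l36842 _))
            (CovZ.leaf K2_ok TB_l36843 _)))))
        (CovZ.n1 (-15168, 30720) (by decide +kernel)
         (CovZ.n2 (-15264, 30816) (by decide +kernel)
          (CovZ.n2 (-15168, 30816) (by decide +kernel)
           (CovZ.leaf K2_ok TB_l36844 _)
           (CovZ.leaf K2_ok TB_l36845 _))
          (CovZ.n1 (-15264, 30720) (by decide +kernel)
           (CovZ.leaf K2_ok TB_l36846 _)
           (CovZ.leaf K2_ok TB_l36847 _)))
         (CovZ.n1 (-15072, 30816) (by decide +kernel)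
          (CovZ.n2 (-15072, 30720) (by decide +kernel)
           (CovZ.leaf K2_ok TB_l36848 _)
           (CovZ.leaf K2_ok TB_l36849 _))
          (CovZ.leaf K2_ok TB_l36850 _))))
       (CovZ.n1 (-14784, 30912) (by decide +kernel)
        (CovZ.n2 (-14784, 30720) (by decide +kernel)
         (CovZ.n2 (-14880, 30816) (by decide +kernel)
          (CovZ.subM 293567822846729155523718374169563001332561389271064965729980221258259726495503117348260919882831718900564992 (by decide +kernel)
           (CovZ.n2 (-14784, 30816) (by decide +kernel)
            (CovZ.n2 (-14832, 30768) (by decide +kernel)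
             (CovZ.leaf K2_ok TB_l36851 _)
             (CovZ.leaf K2_ok TB_l36852 _))
            (CovZ.n1 (-14832, 30864) (by decide +kernel)
             (CovZ.leaf K2_ok TB_l36853 _)
             (CovZ.leaf K2_ok TB_l36854 _))))
          (CovZ.n1 (-14880, 30720) (by decide +kernel)
           (CovZ.leaf K2_ok TB_l36855 _)
           (CovZ.leaf K2_ok TB_l36856 _)))
         (CovZ.subM 293567822846729155523718374169563001332561389271064965729980221258259726495503117348260919882831718900564992 (by decide +kernel)
          (CovZ.n1 (-14688, 30816) (by decide +kernel)
           (CovZ.n2 (-14688, 30720) (by decide +kernel)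
            (CovZ.n2 (-14736, 30768) (by decide +kernel)
             (CovZ.leaf K2_ok TB_l36857 _)
             (CovZ.leaf K2_ok TB_l36858 _))
            (CovZ.n1 (-14640, 30768) (by decide +kernel)
             (CovZ.leaf K2_ok TB_l36859 _)
             (CovZ.leaf K2_ok TB_l36860 _)))
           (CovZ.n1 (-14784, 30816) (by decide +kernel)
            (CovZ.n2 (-14736, 30864) (by decide +kernel)
             (CovZ.leaf K2_ok TB_l36861 _)
             (CovZ.leaf K2_ok TB_l36862 _))
            (CovZ.n1 (-14736, 30768) (by decide +kernel)
             (CovZ.leaf K2_ok TB_l36863 _)
             (CovZ.n1 (-14736, 30816) (by decide +kernel)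
              (CovZ.leaf K2_ok TB_l36864 _)
              (CovZ.leaf K2_ok TB_l36865 _)))))))
        (CovZ.subM 293567822846729153486682397835076915064115700861686804678511827592323476523976665886337556571398542857339904 (by decide +kernel)
         (CovZ.n1 (-14976, 30912) (by decide +kernel)
          (CovZ.n2 (-14880, 31008) (by decide +kernel)
           (CovZ.n2 (-14880, 30912) (by decide +kernel)
            (CovZ.n2 (-14928, 30960) (by decide +kernel)
             (CovZ.n2 (-14880, 30960) (by decide +kernel)
              (CovZ.leaf K2_ok TB_l36866 _)
              (CovZ.leaf K2_ok TB_l36867 _))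
             (CovZ.leaf K2_ok TB_l36868 _))
            (CovZ.subM 497323236409786642155382248146820840100456150797347720036612560903078221950315902534656 (by decide +kernel)
             (CovZ.n1 (-14832, 30960) (by decide +kernel)
              (CovZ.leaf K2_ok TB_l36869 _)
              (CovZ.n1 (-14880, 30960) (by decide +kernel)
               (CovZ.leaf K2_ok TB_l36870 _)
               (CovZ.n1 (-14856, 30936) (by decide +kernel)
                (CovZ.leaf K2_ok TB_l36871 _)
                (CovZ.leaf K2_ok TB_l36872 _))))))
           (CovZ.n1 (-14976, 31008) (by decide +kernel)
            (CovZ.subM 497323236409786642155382248146820840100456150797347720036612560903078221950315902534656 (by decide +kernel)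
             (CovZ.n2 (-14928, 31056) (by decide +kernel)
              (CovZ.n2 (-14928, 31008) (by decide +kernel)
               (CovZ.n2 (-14952, 31032) (by decide +kernel)
                (CovZ.leaf K2_ok TB_l48032 _)
                (CovZ.leaf K2_ok TB_l36873 _))
               (CovZ.n1 (-14904, 31032) (by decide +kernel)
                (CovZ.leaf K2_ok TB_l48033 _)
                (CovZ.leaf K2_ok TB_l48034 _)))
              (CovZ.n1 (-14976, 31056) (by decide +kernel)
               (CovZ.badM (by decide +kernel))
               (CovZ.n1 (-14952, 31032) (by decide +kernel)
                (CovZ.leaf K2_ok TB_l36874 _)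
                (CovZ.badM (by decide +kernel))))))
            (CovZ.n1 (-14928, 30960) (by decide +kernel)
             (CovZ.leaf K2_ok TB_l36875 _)
             (CovZ.subM 497323236409786642155382248146820840100456150797347720036612560903078221950315902534656 (by decide +kernel)
              (CovZ.n1 (-14928, 31008) (by decide +kernel)
               (CovZ.n2 (-14904, 30984) (by decide +kernel)
                (CovZ.leaf K2_ok TB_l36876 _)
                (CovZ.n1 (-14904, 31008) (by decide +kernel)
                 (CovZ.leaf K2_ok TB_l36877 _)
                 (CovZ.leaf K2_ok TB_l36878 _)))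
               (CovZ.n1 (-14952, 30984) (by decide +kernel)
                (CovZ.leaf K2_ok TB_l36879 _)
                (CovZ.leaf K2_ok TB_l36880 _)))))))
          (CovZ.n1 (-14880, 30816) (by decide +kernel)
           (CovZ.n2 (-14976, 30816) (by decide +kernel)
            (CovZ.leaf K2_ok TB_l36881 _)
            (CovZ.n1 (-14928, 30768) (by decide +kernel)
             (CovZ.leaf K2_ok TB_l36882 _)
             (CovZ.leaf K2_ok TB_l36883 _)))
           (CovZ.n1 (-14880, 30912) (by decide +kernel)
            (CovZ.n2 (-14832, 30864) (by decide +kernel)
             (CovZ.leaf K2_ok TB_l36884 _)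
             (CovZ.n1 (-14832, 30912) (by decide +kernel)
              (CovZ.n2 (-14808, 30888) (by decide +kernel)
               (CovZ.leaf K2_ok TB_l36885 _)
               (CovZ.leaf K2_ok TB_l36886 _))
              (CovZ.leaf K2_ok TB_l36887 _)))
            (CovZ.n1 (-14928, 30864) (by decide +kernel)
             (CovZ.n2 (-14928, 30912) (by decide +kernel)
              (CovZ.leaf K2_ok TB_l36888 _)
              (CovZ.leaf K2_ok TB_l36889 _))
             (CovZ.leaf K2_ok TB_l36890 _))))))))

theorem TB_u534 : CovZ TB_M (toL (selN TB_LN 631663411835949078001610254466447124813729774988031606308351542088249872341866325517770932710944425502704665268322436)) [0, 7, 6, 1] (-21504, 33024) (-21504, 33792) (-22272, 33024) :=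
    (CovZ.n1 (-21888, 33408) (by decide +kernel)
      (CovZ.subM 14234351106566689845960574338770530889523054676787318003173717689758049753406367316747523352166400 (by decide +kernel)
       (CovZ.n2 (-21504, 33408) (by decide +kernel)
        (CovZ.n2 (-21696, 33216) (by decide +kernel)
         (CovZ.n2 (-21696, 33408) (by decide +kernel)
          (CovZ.subM 12882671810397988934444974665335111192001030720483725496277768929911464081426841337680442138034176 (by decide +kernel)
           (CovZ.n2 (-21600, 33312) (by decide +kernel)
            (CovZ.n2 (-21696, 33312) (by decide +kernel)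
             (CovZ.n2 (-21648, 33360) (by decide +kernel)
              (CovZ.leaf K2_ok TB_l40814 _)
              (CovZ.n1 (-21696, 33360) (by decide +kernel)
               (CovZ.leaf K2_ok TB_l40815 _)
               (CovZ.leaf K2_ok TB_l40816 _)))
             (CovZ.n1 (-21648, 33264) (by decide +kernel)
              (CovZ.leaf K2_ok TB_l18693 _)
              (CovZ.n1 (-21648, 33312) (by decide +kernel)
               (CovZ.leaf K2_ok TB_l40817 _)
               (CovZ.leaf K2_ok TB_l40818 _))))
            (CovZ.n1 (-21600, 33408) (by decide +kernel)
             (CovZ.subM 8543948143683640329580086824678208459214287159446774557322840664022580263434915220446299325202432 (by decide +kernel)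
              (CovZ.n2 (-21552, 33360) (by decide +kernel)
               (CovZ.n2 (-21600, 33360) (by decide +kernel)
                (CovZ.badM (by decide +kernel))
                (CovZ.n1 (-21576, 33336) (by decide +kernel)
                 (CovZ.leaf K2_ok TB_l40821 _)
                 (CovZ.n1 (-21576, 33360) (by decide +kernel)
                  (CovZ.leaf K2_ok TB_l40822 _)
                  (CovZ.leaf K2_ok TB_l40823 _))))
               (CovZ.badM (by decide +kernel))))
             (CovZ.n1 (-21648, 33360) (by decide +kernel)
              (CovZ.subM 4338723666714348604864887840656902732786743561036950938954928265888883817991926117234141739089920 (by decide +kernel)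
               (CovZ.n2 (-21648, 33408) (by decide +kernel)
                (CovZ.badM (by decide +kernel))
                (CovZ.n1 (-21672, 33384) (by decide +kernel)
                 (CovZ.n2 (-21672, 33408) (by decide +kernel)
                  (CovZ.badM (by decide +kernel))
                  (CovZ.leaf K2_ok TB_l40829 _))
                 (CovZ.badM (by decide +kernel)))))
              (CovZ.n1 (-21600, 33360) (by decide +kernel)
               (CovZ.n2 (-21624, 33336) (by decide +kernel)
                (CovZ.leaf K2_ok TB_l40831 _)
                (CovZ.leaf K2_ok TB_l40832 _))
               (CovZ.badM (by decide +kernel)))))))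
          (CovZ.n1 (-21792, 33312) (by decide +kernel)
           (CovZ.n2 (-21792, 33408) (by decide +kernel)
            (CovZ.subM 13967352727076576085661196625499336875197716562852477578957474172685340437477660878903378930827264 (by decide +kernel)
             (CovZ.n2 (-21744, 33360) (by decide +kernel)
              (CovZ.n2 (-21792, 33360) (by decide +kernel)
               (CovZ.leaf K2_ok TB_l40835 _)
               (CovZ.leaf K2_ok TB_l18694 _))
              (CovZ.n1 (-21744, 33408) (by decide +kernel)
               (CovZ.n2 (-21720, 33384) (by decide +kernel)
                (CovZ.leaf K2_ok TB_l40836 _)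
                (CovZ.n1 (-21720, 33408) (by decide +kernel)
                 (CovZ.leaf K2_ok TB_l40837 _)
                 (CovZ.leaf K2_ok TB_l40838 _)))
               (CovZ.n1 (-21768, 33384) (by decide +kernel)
                (CovZ.leaf K2_ok TB_l40839 _)
                (CovZ.leaf K2_ok TB_l40840 _)))))
            (CovZ.n1 (-21840, 33360) (by decide +kernel)
             (CovZ.n2 (-21840, 33408) (by decide +kernel)
              (CovZ.leaf K2_ok TB_l18695 _)
              (CovZ.leaf K2_ok TB_l18696 _))
             (CovZ.n1 (-21792, 33360) (by decide +kernel)
              (CovZ.leaf K2_ok TB_l18697 _)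
              (CovZ.leaf K2_ok TB_l18698 _))))
           (CovZ.n1 (-21696, 33312) (by decide +kernel)
            (CovZ.n2 (-21744, 33264) (by decide +kernel)
             (CovZ.leaf K2_ok TB_l18699 _)
             (CovZ.leaf K2_ok TB_l18700 _))
            (CovZ.n1 (-21744, 33360) (by decide +kernel)
             (CovZ.n2 (-21696, 33360) (by decide +kernel)
              (CovZ.leaf K2_ok TB_l40841 _)
              (CovZ.leaf K2_ok TB_l40842 _))
             (CovZ.leaf K2_ok TB_l18701 _)))))
         (CovZ.n1 (-21504, 33216) (by decide +kernel)
          (CovZ.n2 (-21600, 33120) (by decide +kernel)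
           (CovZ.n2 (-21600, 33216) (by decide +kernel)
            (CovZ.n2 (-21552, 33168) (by decide +kernel)
             (CovZ.leaf K2_ok TB_l18702 _)
             (CovZ.leaf K2_ok TB_l18703 _))
            (CovZ.leaf K2_ok TB_l18704 _))
           (CovZ.n1 (-21504, 33120) (by decide +kernel)
            (CovZ.leaf K2_ok TB_l18705 _)
            (CovZ.leaf K2_ok TB_l18706 _)))
          (CovZ.n1 (-21600, 33312) (by decide +kernel)
           (CovZ.subM 8543948143683640329580086824678208459214287160195063395636262958142866897785652126510136787206144 (by decide +kernel)
            (CovZ.n2 (-21504, 33312) (by decide +kernel)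
             (CovZ.n2 (-21552, 33264) (by decide +kernel)
              (CovZ.n2 (-21552, 33312) (by decide +kernel)
               (CovZ.leaf K2_ok TB_l40843 _)
               (CovZ.leaf K2_ok TB_l40844 _))
              (CovZ.leaf K2_ok TB_l40845 _))
             (CovZ.n1 (-21552, 33360) (by decide +kernel)
              (CovZ.n2 (-21504, 33360) (by decide +kernel)
               (CovZ.n2 (-21528, 33336) (by decide +kernel)
                (CovZ.n2 (-21528, 33360) (by decide +kernel)
                 (CovZ.leaf K2_ok TB_l40846 _)
                 (CovZ.leaf K2_ok TB_l40847 _))
                (CovZ.leaf K2_ok TB_l40848 _))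
               (CovZ.badM (by decide +kernel)))
              (CovZ.leaf K2_ok TB_l40850 _))))
           (CovZ.n1 (-21600, 33216) (by decide +kernel)
            (CovZ.leaf K2_ok TB_l18707 _)
            (CovZ.leaf K2_ok TB_l18708 _)))))
        (CovZ.subM 5690402962883049516380487514092322430308767516590952957641706896203657698816577250673004426297344 (by decide +kernel)
         (CovZ.n1 (-21696, 33600) (by decide +kernel)
          (CovZ.n2 (-21504, 33600) (by decide +kernel)
           (CovZ.n2 (-21600, 33504) (by decide +kernel)
            (CovZ.badM (by decide +kernel))
            (CovZ.badM (by decide +kernel)))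
           (CovZ.badM (by decide +kernel)))
          (CovZ.n1 (-21696, 33408) (by decide +kernel)
           (CovZ.n2 (-21792, 33504) (by decide +kernel)
            (CovZ.subM 4355411065432480714883598947736352358682077190117862288720139528449994909599587371531196130394112 (by decide +kernel)
             (CovZ.n2 (-21696, 33504) (by decide +kernel)
              (CovZ.n2 (-21744, 33456) (by decide +kernel)
               (CovZ.badM (by decide +kernel))
               (CovZ.n1 (-21696, 33456) (by decide +kernel)
                (CovZ.n2 (-21720, 33432) (by decide +kernel)
                 (CovZ.badM (by decide +kernel))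
                 (CovZ.n1 (-21696, 33432) (by decide +kernel)
                  (CovZ.leaf K2_ok TB_l40851 _)
                  (CovZ.badM (by decide +kernel))))
                (CovZ.badM (by decide +kernel))))
              (CovZ.badM (by decide +kernel))))
            (CovZ.n1 (-21792, 33408) (by decide +kernel)
             (CovZ.n2 (-21840, 33456) (by decide +kernel)
              (CovZ.n2 (-21792, 33456) (by decide +kernel)
               (CovZ.n2 (-21816, 33432) (by decide +kernel)
                (CovZ.n2 (-21816, 33456) (by decide +kernel)
                 (CovZ.leaf K2_ok TB_l40852 _)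
                 (CovZ.leaf K2_ok TB_l40853 _))
                (CovZ.n1 (-21792, 33432) (by decide +kernel)
                 (CovZ.leaf K2_ok TB_l40854 _)
                 (CovZ.leaf K2_ok TB_l40855 _)))
               (CovZ.badM (by decide +kernel)))
              (CovZ.n1 (-21840, 33408) (by decide +kernel)
               (CovZ.leaf K2_ok TB_l40857 _)
               (CovZ.n1 (-21816, 33432) (by decide +kernel)
                (CovZ.leaf K2_ok TB_l40858 _)
                (CovZ.leaf K2_ok TB_l40859 _))))
             (CovZ.n1 (-21744, 33456) (by decide +kernel)
              (CovZ.n2 (-21744, 33408) (by decide +kernel)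
               (CovZ.n2 (-21768, 33432) (by decide +kernel)
                (CovZ.n2 (-21744, 33432) (by decide +kernel)
                 (CovZ.leaf K2_ok TB_l40860 _)
                 (CovZ.leaf K2_ok TB_l40861 _))
                (CovZ.leaf K2_ok TB_l40862 _))
               (CovZ.n1 (-21720, 33432) (by decide +kernel)
                (CovZ.leaf K2_ok TB_l40863 _)
                (CovZ.n1 (-21744, 33432) (by decide +kernel)
                 (CovZ.badM (by decide +kernel))
                 (CovZ.leaf K2_ok TB_l40864 _))))
              (CovZ.n1 (-21792, 33456) (by decide +kernel)
               (CovZ.badM (by decide +kernel))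
               (CovZ.n1 (-21768, 33432) (by decide +kernel)
                (CovZ.n2 (-21792, 33432) (by decide +kernel)
                 (CovZ.leaf K2_ok TB_l40865 _)
                 (CovZ.leaf K2_ok TB_l40866 _))
                (CovZ.n1 (-21768, 33456) (by decide +kernel)
                 (CovZ.leaf K2_ok TB_l40867 _)
                 (CovZ.leaf K2_ok TB_l40868 _)))))))
           (CovZ.subM 4338723666714348604864887840656902732786743561036950938954928265888883817991926117234141739089920 (by decide +kernel)
            (CovZ.n1 (-21600, 33504) (by decide +kernel)
             (CovZ.n2 (-21600, 33408) (by decide +kernel)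
              (CovZ.n2 (-21648, 33456) (by decide +kernel)
               (CovZ.badM (by decide +kernel))
               (CovZ.n1 (-21648, 33408) (by decide +kernel)
                (CovZ.n2 (-21672, 33432) (by decide +kernel)
                 (CovZ.badM (by decide +kernel))
                 (CovZ.leaf K2_ok TB_l40869 _))
                (CovZ.badM (by decide +kernel))))
              (CovZ.badM (by decide +kernel)))
             (CovZ.n1 (-21696, 33504) (by decide +kernel)
              (CovZ.badM (by decide +kernel))
              (CovZ.n1 (-21648, 33456) (by decide +kernel)
               (CovZ.n2 (-21696, 33456) (by decide +kernel)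
                (CovZ.badM (by decide +kernel))
                (CovZ.n1 (-21672, 33432) (by decide +kernel)
                 (CovZ.n2 (-21696, 33432) (by decide +kernel)
                  (CovZ.badM (by decide +kernel))
                  (CovZ.leaf K2_ok TB_l40871 _))
                 (CovZ.badM (by decide +kernel))))
               (CovZ.badM (by decide +kernel)))))))))))
      (CovZ.n1 (-21888, 33024) (by decide +kernel)
       (CovZ.subM 74380758993728972118511036296337896952897283705045260771514832915156851083134212482797866962724585476 (by decide +kernel)
        (CovZ.n2 (-22080, 33216) (by decide +kernel)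
         (CovZ.n2 (-21888, 33216) (by decide +kernel)
          (CovZ.n2 (-21984, 33120) (by decide +kernel)
           (CovZ.n2 (-21984, 33216) (by decide +kernel)
            (CovZ.leaf K2_ok TB_l18709 _)
            (CovZ.leaf K2_ok TB_l18710 _))
           (CovZ.leaf K2_ok TB_l18711 _))
          (CovZ.subM 14234351106566689845960574338770530889523054628147059175200854373663117903200240947656250265436160 (by decide +kernel)
           (CovZ.n1 (-21984, 33312) (by decide +kernel)
            (CovZ.n2 (-21888, 33312) (by decide +kernel)
             (CovZ.leaf K2_ok TB_l18712 _)
             (CovZ.n1 (-21936, 33360) (by decide +kernel)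
              (CovZ.leaf K2_ok TB_l18713 _)
              (CovZ.leaf K2_ok TB_l18714 _)))
            (CovZ.leaf K2_ok TB_l18715 _))))
         (CovZ.leaf K2_ok TB_l18716 _)))
       (CovZ.subM 70006257544162948269766031842102654222190944843259585283627833122808254024133435910469169188089888768 (by decide +kernel)
        (CovZ.n1 (-21696, 33216) (by decide +kernel)
         (CovZ.n2 (-21696, 33024) (by decide +kernel)
          (CovZ.n2 (-21792, 33120) (by decide +kernel)
           (CovZ.leaf K2_ok TB_l18717 _)
           (CovZ.leaf K2_ok TB_l18718 _))
          (CovZ.n1 (-21600, 33120) (by decide +kernel)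
           (CovZ.leaf K2_ok TB_l18719 _)
           (CovZ.leaf K2_ok TB_l18720 _)))
         (CovZ.n1 (-21888, 33216) (by decide +kernel)
          (CovZ.n2 (-21792, 33312) (by decide +kernel)
           (CovZ.leaf K2_ok TB_l18721 _)
           (CovZ.n1 (-21888, 33312) (by decide +kernel)
            (CovZ.n2 (-21840, 33360) (by decide +kernel)
             (CovZ.leaf K2_ok TB_l18722 _)
             (CovZ.leaf K2_ok TB_l18723 _))
            (CovZ.n1 (-21840, 33264) (by decide +kernel)
             (CovZ.leaf K2_ok TB_l18724 _)
             (CovZ.leaf K2_ok TB_l18725 _))))
          (CovZ.n1 (-21792, 33120) (by decide +kernel)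
           (CovZ.leaf K2_ok TB_l18726 _)
           (CovZ.n1 (-21792, 33216) (by decide +kernel)
            (CovZ.leaf K2_ok TB_l18727 _)
            (CovZ.leaf K2_ok TB_l18728 _))))))))

theorem TB_u535 : CovZ TB_M (toL (selN TB_LN 631663411835949069252607355334399427323720866517546144895673818514651837800470477583838649279089995702588119714103428)) [0, 7, 6, 1] (-21504, 33792) (-22272, 33792) (-22272, 33024) :=
    (CovZ.n2 (-21888, 33408) (by decide +kernel)
      (CovZ.n2 (-22272, 33408) (by decide +kernel)
       (CovZ.subM 5690402962883049516380487514092322430308767516590952957641706896203657698816577250673004426297348 (by decide +kernel)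
        (CovZ.n2 (-22080, 33600) (by decide +kernel)
         (CovZ.n2 (-22080, 33408) (by decide +kernel)
          (CovZ.subM 16687398718132110018711107079449625895333629081094037469877625425886552211750789674511382872068 (by decide +kernel)
           (CovZ.n2 (-22176, 33504) (by decide +kernel)
            (CovZ.n2 (-22080, 33504) (by decide +kernel)
             (CovZ.n2 (-22128, 33456) (by decide +kernel)
              (CovZ.n2 (-22128, 33504) (by decide +kernel)
               (CovZ.n2 (-22104, 33480) (by decide +kernel)
                (CovZ.leaf K2_ok TB_l18764 _)
                (CovZ.leaf K2_ok TB_l18765 _))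
               (CovZ.n1 (-22152, 33480) (by decide +kernel)
                (CovZ.leaf K2_ok TB_l18766 _)
                (CovZ.leaf K2_ok TB_l18767 _)))
              (CovZ.n1 (-22080, 33456) (by decide +kernel)
               (CovZ.leaf K2_ok TB_l18768 _)
               (CovZ.leaf K2_ok TB_l18769 _)))
             (CovZ.n1 (-22128, 33552) (by decide +kernel)
              (CovZ.badM (by decide +kernel))
              (CovZ.n1 (-22128, 33504) (by decide +kernel)
               (CovZ.n2 (-22152, 33528) (by decide +kernel)
                (CovZ.leaf K2_ok TB_l18770 _)
                (CovZ.leaf K2_ok TB_l18771 _))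
               (CovZ.n1 (-22104, 33528) (by decide +kernel)
                (CovZ.leaf K2_ok TB_l18772 _)
                (CovZ.n1 (-22128, 33528) (by decide +kernel)
                 (CovZ.badM (by decide +kernel))
                 (CovZ.leaf K2_ok TB_l18773 _))))))
            (CovZ.n1 (-22176, 33408) (by decide +kernel)
             (CovZ.n2 (-22224, 33456) (by decide +kernel)
              (CovZ.leaf K2_ok TB_l18774 _)
              (CovZ.leaf K2_ok TB_l18775 _))
             (CovZ.n1 (-22128, 33456) (by decide +kernel)
              (CovZ.leaf K2_ok TB_l18776 _)
              (CovZ.leaf K2_ok TB_l18777 _)))))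
          (CovZ.n1 (-21984, 33504) (by decide +kernel)
           (CovZ.n2 (-21984, 33408) (by decide +kernel)
            (CovZ.n2 (-22032, 33456) (by decide +kernel)
             (CovZ.n2 (-21984, 33456) (by decide +kernel)
              (CovZ.leaf K2_ok TB_l18778 _)
              (CovZ.n1 (-22008, 33480) (by decide +kernel)
               (CovZ.leaf K2_ok TB_l40887 _)
               (CovZ.leaf K2_ok TB_l18779 _)))
             (CovZ.leaf K2_ok TB_l18780 _))
            (CovZ.n1 (-21936, 33456) (by decide +kernel)
             (CovZ.leaf K2_ok TB_l18781 _)
             (CovZ.n1 (-21984, 33456) (by decide +kernel)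
              (CovZ.n2 (-21960, 33480) (by decide +kernel)
               (CovZ.leaf K2_ok TB_l40888 _)
               (CovZ.leaf K2_ok TB_l40889 _))
              (CovZ.n1 (-21960, 33432) (by decide +kernel)
               (CovZ.leaf K2_ok TB_l18782 _)
               (CovZ.leaf K2_ok TB_l18783 _)))))
           (CovZ.n1 (-22080, 33504) (by decide +kernel)
            (CovZ.badM (by decide +kernel))
            (CovZ.n1 (-22032, 33456) (by decide +kernel)
             (CovZ.n2 (-22080, 33456) (by decide +kernel)
              (CovZ.leaf K2_ok TB_l18785 _)
              (CovZ.leaf K2_ok TB_l18786 _))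
             (CovZ.subM 1067993517960455041197510853084776057301352261178509072678187166775885323494409810388938035036160 (by decide +kernel)
              (CovZ.n1 (-22032, 33504) (by decide +kernel)
               (CovZ.n2 (-22008, 33480) (by decide +kernel)
                (CovZ.leaf K2_ok TB_l18787 _)
                (CovZ.n1 (-22008, 33504) (by decide +kernel)
                 (CovZ.leaf K2_ok TB_l40892 _)
                 (CovZ.leaf K2_ok TB_l18788 _)))
               (CovZ.n1 (-22056, 33480) (by decide +kernel)
                (CovZ.n2 (-22056, 33504) (by decide +kernel)
                 (CovZ.leaf K2_ok TB_l18789 _)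
                 (CovZ.leaf K2_ok TB_l18790 _))
                (CovZ.leaf K2_ok TB_l18791 _))))))))
         (CovZ.subM 16687398718132110018711107079449625895333629081094037469877625425886552211750789674511382872068 (by decide +kernel)
          (CovZ.n1 (-22272, 33600) (by decide +kernel)
           (CovZ.n2 (-22176, 33696) (by decide +kernel)
            (CovZ.n2 (-22176, 33600) (by decide +kernel)
             (CovZ.badM (by decide +kernel))
             (CovZ.badM (by decide +kernel)))
            (CovZ.badM (by decide +kernel)))
           (CovZ.n1 (-22176, 33504) (by decide +kernel)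
            (CovZ.n2 (-22272, 33504) (by decide +kernel)
             (CovZ.n2 (-22224, 33552) (by decide +kernel)
              (CovZ.leaf K2_ok TB_l18792 _)
              (CovZ.n1 (-22272, 33552) (by decide +kernel)
               (CovZ.n2 (-22248, 33576) (by decide +kernel)
                (CovZ.leaf K2_ok TB_l18793 _)
                (CovZ.n1 (-22272, 33576) (by decide +kernel)
                 (CovZ.leaf K2_ok TB_l40893 _)
                 (CovZ.leaf K2_ok TB_l18794 _)))
               (CovZ.n1 (-22248, 33528) (by decide +kernel)
                (CovZ.leaf K2_ok TB_l18795 _)
                (CovZ.n1 (-22248, 33552) (by decide +kernel)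
                 (CovZ.leaf K2_ok TB_l18796 _)
                 (CovZ.leaf K2_ok TB_l18797 _)))))
             (CovZ.n1 (-22224, 33456) (by decide +kernel)
              (CovZ.leaf K2_ok TB_l18798 _)
              (CovZ.n1 (-22224, 33504) (by decide +kernel)
               (CovZ.leaf K2_ok TB_l18799 _)
               (CovZ.leaf K2_ok TB_l18800 _))))
            (CovZ.n1 (-22176, 33600) (by decide +kernel)
             (CovZ.n2 (-22128, 33552) (by decide +kernel)
              (CovZ.n2 (-22176, 33552) (by decide +kernel)
               (CovZ.badM (by decide +kernel))
               (CovZ.n1 (-22152, 33528) (by decide +kernel)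
                (CovZ.leaf K2_ok TB_l18801 _)
                (CovZ.badM (by decide +kernel))))
              (CovZ.badM (by decide +kernel)))
             (CovZ.n1 (-22224, 33552) (by decide +kernel)
              (CovZ.n2 (-22224, 33600) (by decide +kernel)
               (CovZ.badM (by decide +kernel))
               (CovZ.n1 (-22248, 33576) (by decide +kernel)
                (CovZ.n2 (-22248, 33600) (by decide +kernel)
                 (CovZ.badM (by decide +kernel))
                 (CovZ.leaf K2_ok TB_l40894 _))
                (CovZ.badM (by decide +kernel))))
              (CovZ.n1 (-22176, 33552) (by decide +kernel)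
               (CovZ.n2 (-22200, 33528) (by decide +kernel)
                (CovZ.n2 (-22200, 33552) (by decide +kernel)
                 (CovZ.leaf K2_ok TB_l18804 _)
                 (CovZ.leaf K2_ok TB_l18805 _))
                (CovZ.leaf K2_ok TB_l18806 _))
               (CovZ.badM (by decide +kernel))))))))))
       (CovZ.n1 (-22080, 33216) (by decide +kernel)
        (CovZ.subM 74375085278164807201104674519930884080092870271157750912594661085886073311987607656336868469681160196 (by decide +kernel)
         (CovZ.n2 (-22272, 33216) (by decide +kernel)
          (CovZ.n2 (-22176, 33312) (by decide +kernel)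
           (CovZ.leaf K2_ok TB_l18807 _)
           (CovZ.leaf K2_ok TB_l18808 _))
          (CovZ.n1 (-22176, 33120) (by decide +kernel)
           (CovZ.leaf K2_ok TB_l18809 _)
           (CovZ.leaf K2_ok TB_l18810 _))))
        (CovZ.subM 14234351106566689845960574338770530889523054628147059175200854373663117903200240947656250265436164 (by decide +kernel)
         (CovZ.n1 (-22080, 33408) (by decide +kernel)
          (CovZ.n2 (-21984, 33312) (by decide +kernel)
           (CovZ.n2 (-22080, 33312) (by decide +kernel)
            (CovZ.leaf K2_ok TB_l18811 _)
            (CovZ.leaf K2_ok TB_l18812 _))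
           (CovZ.n1 (-21984, 33408) (by decide +kernel)
            (CovZ.n2 (-21936, 33360) (by decide +kernel)
             (CovZ.leaf K2_ok TB_l18813 _)
             (CovZ.n1 (-21936, 33408) (by decide +kernel)
              (CovZ.leaf K2_ok TB_l18814 _)
              (CovZ.leaf K2_ok TB_l18815 _)))
            (CovZ.n1 (-22032, 33360) (by decide +kernel)
             (CovZ.n2 (-22032, 33408) (by decide +kernel)
              (CovZ.leaf K2_ok TB_l18816 _)
              (CovZ.leaf K2_ok TB_l18817 _))
             (CovZ.leaf K2_ok TB_l18818 _))))
          (CovZ.subM 8560635542401772439598797931757658085109620740637200255029025102885346756595414486657757222010884 (by decide +kernel)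
           (CovZ.n1 (-22176, 33312) (by decide +kernel)
            (CovZ.n2 (-22176, 33408) (by decide +kernel)
             (CovZ.n2 (-22128, 33360) (by decide +kernel)
              (CovZ.leaf K2_ok TB_l18819 _)
              (CovZ.leaf K2_ok TB_l18820 _))
             (CovZ.n1 (-22224, 33360) (by decide +kernel)
              (CovZ.leaf K2_ok TB_l18821 _)
              (CovZ.leaf K2_ok TB_l18822 _)))
            (CovZ.n1 (-22080, 33312) (by decide +kernel)
             (CovZ.leaf K2_ok TB_l18823 _)
             (CovZ.leaf K2_ok TB_l18824 _))))))))
      (CovZ.subM 5690402962883049516380487514092322430308767516590952957641706896203657698816577250673004426297348 (by decide +kernel)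
       (CovZ.n1 (-21888, 33792) (by decide +kernel)
        (CovZ.n2 (-21696, 33600) (by decide +kernel)
         (CovZ.n2 (-21888, 33600) (by decide +kernel)
          (CovZ.badM (by decide +kernel))
          (CovZ.n1 (-21792, 33504) (by decide +kernel)
           (CovZ.n2 (-21888, 33504) (by decide +kernel)
            (CovZ.badM (by decide +kernel))
            (CovZ.n1 (-21840, 33456) (by decide +kernel)
             (CovZ.n2 (-21888, 33456) (by decide +kernel)
              (CovZ.badM (by decide +kernel))
              (CovZ.n1 (-21864, 33432) (by decide +kernel)
               (CovZ.leaf K2_ok TB_l40897 _)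
               (CovZ.n1 (-21864, 33456) (by decide +kernel)
                (CovZ.leaf K2_ok TB_l40898 _)
                (CovZ.leaf K2_ok TB_l40899 _))))
             (CovZ.badM (by decide +kernel))))
           (CovZ.badM (by decide +kernel))))
         (CovZ.badM (by decide +kernel)))
        (CovZ.n1 (-22080, 33600) (by decide +kernel)
         (CovZ.n2 (-22080, 33792) (by decide +kernel)
          (CovZ.badM (by decide +kernel))
          (CovZ.n1 (-22176, 33696) (by decide +kernel)
           (CovZ.badM (by decide +kernel))
           (CovZ.badM (by decide +kernel))))
         (CovZ.n1 (-21888, 33600) (by decide +kernel)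
          (CovZ.n2 (-21984, 33504) (by decide +kernel)
           (CovZ.badM (by decide +kernel))
           (CovZ.n1 (-21888, 33504) (by decide +kernel)
            (CovZ.n2 (-21936, 33456) (by decide +kernel)
             (CovZ.subM 1067993517960455041197510853084776057301352261178326384973520803911109862890320275011481043468288 (by decide +kernel)
              (CovZ.n2 (-21936, 33504) (by decide +kernel)
               (CovZ.n2 (-21912, 33480) (by decide +kernel)
                (CovZ.n2 (-21936, 33480) (by decide +kernel)
                 (CovZ.badM (by decide +kernel))
                 (CovZ.leaf K2_ok TB_l40901 _))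
                (CovZ.badM (by decide +kernel)))
               (CovZ.n1 (-21960, 33480) (by decide +kernel)
                (CovZ.badM (by decide +kernel))
                (CovZ.n1 (-21936, 33480) (by decide +kernel)
                 (CovZ.leaf K2_ok TB_l40902 _)
                 (CovZ.badM (by decide +kernel))))))
             (CovZ.n1 (-21888, 33456) (by decide +kernel)
              (CovZ.n2 (-21912, 33432) (by decide +kernel)
               (CovZ.leaf K2_ok TB_l40903 _)
               (CovZ.leaf K2_ok TB_l40904 _))
              (CovZ.n1 (-21912, 33480) (by decide +kernel)
               (CovZ.badM (by decide +kernel))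
               (CovZ.leaf K2_ok TB_l40906 _))))
            (CovZ.badM (by decide +kernel))))
          (CovZ.badM (by decide +kernel)))))))

theorem TB_u536 : CovZ TB_M (toL (selN TB_LN 631663411835949069252607355334399427323720866517546144895673818514651837800470477583838649279089995702588119714103428)) [0, 7, 6, 1] (-22272, 33792) (-23040, 33792) (-22272, 33024) :=
    (CovZ.subM 74366524642622405428665075721999126422111408154271818767799793282102057728554298424484578308401397892 (by decide +kernel)
      (CovZ.n1 (-22656, 33408) (by decide +kernel)
       (CovZ.n2 (-22656, 33792) (by decide +kernel)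
        (CovZ.subM 74366524642622405428665075721999126422007760650369223021163905284301266748239385479134825476849139716 (by decide +kernel)
         (CovZ.n2 (-22464, 33600) (by decide +kernel)
          (CovZ.n2 (-22656, 33600) (by decide +kernel)
           (CovZ.badM (by decide +kernel))
           (CovZ.n1 (-22560, 33504) (by decide +kernel)
            (CovZ.n2 (-22656, 33504) (by decide +kernel)
             (CovZ.badM (by decide +kernel))
             (CovZ.leaf K2_ok TB_l18826 _))
            (CovZ.badM (by decide +kernel))))
          (CovZ.n1 (-22464, 33792) (by decide +kernel)
           (CovZ.n2 (-22368, 33696) (by decide +kernel)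
            (CovZ.badM (by decide +kernel))
            (CovZ.badM (by decide +kernel)))
           (CovZ.badM (by decide +kernel)))))
        (CovZ.subM 74366524642622405428665075721999126422110604685201798216110886191848236379340202381201546761316860036 (by decide +kernel)
         (CovZ.n1 (-22848, 33600) (by decide +kernel)
          (CovZ.subM 4374501449566023848745004454235242730809182896619000250486226786729740404960172838049125095505395840 (by decide +kernel)
           (CovZ.n2 (-22848, 33792) (by decide +kernel)
            (CovZ.n2 (-22752, 33696) (by decide +kernel)
             (CovZ.n2 (-22848, 33696) (by decide +kernel)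
              (CovZ.badM (by decide +kernel))
              (CovZ.n1 (-22800, 33648) (by decide +kernel)
               (CovZ.n2 (-22848, 33648) (by decide +kernel)
                (CovZ.badM (by decide +kernel))
                (CovZ.leaf K2_ok TB_l40916 _))
               (CovZ.badM (by decide +kernel))))
             (CovZ.badM (by decide +kernel)))
            (CovZ.n1 (-22944, 33696) (by decide +kernel)
             (CovZ.n2 (-22944, 33792) (by decide +kernel)
              (CovZ.badM (by decide +kernel))
              (CovZ.n1 (-22992, 33744) (by decide +kernel)
               (CovZ.n2 (-22992, 33792) (by decide +kernel)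
                (CovZ.badM (by decide +kernel))
                (CovZ.n1 (-23016, 33768) (by decide +kernel)
                 (CovZ.n2 (-23016, 33792) (by decide +kernel)
                  (CovZ.badM (by decide +kernel))
                  (CovZ.leaf K2_ok TB_l40921 _))
                 (CovZ.badM (by decide +kernel))))
               (CovZ.badM (by decide +kernel))))
             (CovZ.n1 (-22848, 33696) (by decide +kernel)
              (CovZ.n2 (-22896, 33648) (by decide +kernel)
               (CovZ.badM (by decide +kernel))
               (CovZ.n1 (-22848, 33648) (by decide +kernel)
                (CovZ.leaf K2_ok TB_l40929 _)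
                (CovZ.badM (by decide +kernel))))
              (CovZ.badM (by decide +kernel))))))
          (CovZ.n1 (-22656, 33600) (by decide +kernel)
           (CovZ.n2 (-22752, 33504) (by decide +kernel)
            (CovZ.subM 4374501449566023848745004454235242730706338861786424872851541212819905998398751846447026354046107648 (by decide +kernel)
             (CovZ.n2 (-22752, 33600) (by decide +kernel)
              (CovZ.n2 (-22704, 33552) (by decide +kernel)
               (CovZ.leaf K2_ok TB_l18833 _)
               (CovZ.badM (by decide +kernel)))
              (CovZ.n1 (-22800, 33552) (by decide +kernel)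
               (CovZ.leaf K2_ok TB_l18836 _)
               (CovZ.leaf K2_ok TB_l18837 _))))
            (CovZ.n1 (-22656, 33504) (by decide +kernel)
             (CovZ.leaf K2_ok TB_l18838 _)
             (CovZ.leaf K2_ok TB_l18839 _)))
           (CovZ.subM 4374501449566023848745004454235242730706338861786424872851541212819905998398751846447026354046107648 (by decide +kernel)
            (CovZ.n1 (-22752, 33696) (by decide +kernel)
             (CovZ.badM (by decide +kernel))
             (CovZ.n1 (-22752, 33600) (by decide +kernel)
              (CovZ.n2 (-22800, 33648) (by decide +kernel)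
               (CovZ.badM (by decide +kernel))
               (CovZ.leaf K2_ok TB_l40943 _))
              (CovZ.badM (by decide +kernel)))))))))
       (CovZ.n1 (-22272, 33408) (by decide +kernel)
        (CovZ.n2 (-22464, 33216) (by decide +kernel)
         (CovZ.subM 74366524642622405428665075721999126422008564119391352516301676265347437329540646580631716873266790404 (by decide +kernel)
          (CovZ.n2 (-22464, 33408) (by decide +kernel)
           (CovZ.n2 (-22368, 33312) (by decide +kernel)
            (CovZ.leaf K2_ok TB_l18840 _)
            (CovZ.n1 (-22368, 33408) (by decide +kernel)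
             (CovZ.leaf K2_ok TB_l18841 _)
             (CovZ.leaf K2_ok TB_l18842 _)))
           (CovZ.n1 (-22560, 33312) (by decide +kernel)
            (CovZ.n2 (-22560, 33408) (by decide +kernel)
             (CovZ.leaf K2_ok TB_l18843 _)
             (CovZ.leaf K2_ok TB_l18844 _))
            (CovZ.leaf K2_ok TB_l18845 _))))
         (CovZ.n1 (-22272, 33216) (by decide +kernel)
          (CovZ.n2 (-22368, 33120) (by decide +kernel)
           (CovZ.leaf K2_ok TB_l18846 _)
           (CovZ.leaf K2_ok TB_l18847 _))
          (CovZ.n1 (-22368, 33312) (by decide +kernel)
           (CovZ.leaf K2_ok TB_l18848 _)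
           (CovZ.leaf K2_ok TB_l18849 _))))
        (CovZ.subM 74366524642622405428665075721999126422007760650369223021163905284301266748239385479134825476849139716 (by decide +kernel)
         (CovZ.n1 (-22464, 33600) (by decide +kernel)
          (CovZ.n2 (-22272, 33600) (by decide +kernel)
           (CovZ.n2 (-22368, 33504) (by decide +kernel)
            (CovZ.n2 (-22368, 33600) (by decide +kernel)
             (CovZ.n2 (-22320, 33552) (by decide +kernel)
              (CovZ.n2 (-22368, 33552) (by decide +kernel)
               (CovZ.n2 (-22344, 33576) (by decide +kernel)
                (CovZ.leaf K2_ok TB_l18850 _)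
                (CovZ.badM (by decide +kernel)))
               (CovZ.n1 (-22344, 33528) (by decide +kernel)
                (CovZ.leaf K2_ok TB_l18852 _)
                (CovZ.leaf K2_ok TB_l18853 _)))
              (CovZ.n1 (-22320, 33600) (by decide +kernel)
               (CovZ.n2 (-22296, 33576) (by decide +kernel)
                (CovZ.n2 (-22320, 33576) (by decide +kernel)
                 (CovZ.badM (by decide +kernel))
                 (CovZ.leaf K2_ok TB_l18854 _))
                (CovZ.badM (by decide +kernel)))
               (CovZ.n1 (-22344, 33576) (by decide +kernel)
                (CovZ.badM (by decide +kernel))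
                (CovZ.leaf K2_ok TB_l18855 _))))
             (CovZ.n1 (-22416, 33552) (by decide +kernel)
              (CovZ.badM (by decide +kernel))
              (CovZ.n1 (-22368, 33552) (by decide +kernel)
               (CovZ.leaf K2_ok TB_l18860 _)
               (CovZ.badM (by decide +kernel)))))
            (CovZ.n1 (-22272, 33504) (by decide +kernel)
             (CovZ.n2 (-22320, 33456) (by decide +kernel)
              (CovZ.n2 (-22320, 33504) (by decide +kernel)
               (CovZ.leaf K2_ok TB_l18863 _)
               (CovZ.leaf K2_ok TB_l18864 _))
              (CovZ.leaf K2_ok TB_l18865 _))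
             (CovZ.n1 (-22320, 33552) (by decide +kernel)
              (CovZ.n2 (-22272, 33552) (by decide +kernel)
               (CovZ.n2 (-22296, 33528) (by decide +kernel)
                (CovZ.leaf K2_ok TB_l18866 _)
                (CovZ.leaf K2_ok TB_l18867 _))
               (CovZ.n1 (-22296, 33576) (by decide +kernel)
                (CovZ.n2 (-22272, 33576) (by decide +kernel)
                 (CovZ.leaf K2_ok TB_l18868 _)
                 (CovZ.badM (by decide +kernel)))
                (CovZ.leaf K2_ok TB_l18869 _)))
              (CovZ.leaf K2_ok TB_l18870 _))))
           (CovZ.n1 (-22368, 33696) (by decide +kernel)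
            (CovZ.badM (by decide +kernel))
            (CovZ.n1 (-22368, 33600) (by decide +kernel)
             (CovZ.badM (by decide +kernel))
             (CovZ.badM (by decide +kernel)))))
          (CovZ.n1 (-22464, 33408) (by decide +kernel)
           (CovZ.n2 (-22560, 33504) (by decide +kernel)
            (CovZ.n2 (-22464, 33504) (by decide +kernel)
             (CovZ.n2 (-22512, 33456) (by decide +kernel)
              (CovZ.leaf K2_ok TB_l18873 _)
              (CovZ.leaf K2_ok TB_l18874 _))
             (CovZ.n1 (-22512, 33552) (by decide +kernel)
              (CovZ.n2 (-22464, 33552) (by decide +kernel)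
               (CovZ.leaf K2_ok TB_l18875 _)
               (CovZ.badM (by decide +kernel)))
              (CovZ.leaf K2_ok TB_l18877 _)))
            (CovZ.leaf K2_ok TB_l18878 _))
           (CovZ.n1 (-22368, 33504) (by decide +kernel)
            (CovZ.leaf K2_ok TB_l18879 _)
            (CovZ.n1 (-22464, 33504) (by decide +kernel)
             (CovZ.n2 (-22416, 33552) (by decide +kernel)
              (CovZ.leaf K2_ok TB_l18880 _)
              (CovZ.n1 (-22464, 33552) (by decide +kernel)
               (CovZ.badM (by decide +kernel))
               (CovZ.leaf K2_ok TB_l18882 _)))
             (CovZ.n1 (-22416, 33456) (by decide +kernel)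
              (CovZ.leaf K2_ok TB_l18883 _)
              (CovZ.leaf K2_ok TB_l18884 _))))))))))

theorem TB_u537 : CovZ TB_M (toL (selN TB_LN 8749002899132047697490008908470485461412677723572849859882897842116602481460381250042613921415692288)) [0, 7, 6, 1] (-20736, 33024) (-20352, 32640) (-19968, 33024) :=
    (CovZ.n2 (-20352, 33024) (by decide +kernel)
        (CovZ.subM 36028798096900096 (by decide +kernel)
         (CovZ.n2 (-20160, 32832) (by decide +kernel)
          (CovZ.n2 (-20352, 32832) (by decide +kernel)
           (CovZ.n2 (-20256, 32928) (by decide +kernel)
            (CovZ.n2 (-20256, 32832) (by decide +kernel)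
             (CovZ.n2 (-20304, 32880) (by decide +kernel)
              (CovZ.leaf K2_ok TB_l41620 _)
              (CovZ.leaf K2_ok TB_l41621 _))
             (CovZ.n1 (-20208, 32880) (by decide +kernel)
              (CovZ.leaf K2_ok TB_l41622 _)
              (CovZ.leaf K2_ok TB_l41623 _)))
            (CovZ.n1 (-20352, 32928) (by decide +kernel)
             (CovZ.n2 (-20304, 32976) (by decide +kernel)
              (CovZ.leaf K2_ok TB_l41624 _)
              (CovZ.n1 (-20352, 32976) (by decide +kernel)
               (CovZ.badM (by decide +kernel))
               (CovZ.n1 (-20328, 32952) (by decide +kernel)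
                (CovZ.leaf K2_ok TB_l41625 _)
                (CovZ.leaf K2_ok TB_l41626 _))))
             (CovZ.n1 (-20304, 32880) (by decide +kernel)
              (CovZ.leaf K2_ok TB_l41627 _)
              (CovZ.n1 (-20304, 32928) (by decide +kernel)
               (CovZ.leaf K2_ok TB_l41628 _)
               (CovZ.leaf K2_ok TB_l41629 _)))))
           (CovZ.n1 (-20256, 32736) (by decide +kernel)
            (CovZ.leaf K2_ok TB_l19646 _)
            (CovZ.n1 (-20256, 32832) (by decide +kernel)
             (CovZ.n2 (-20208, 32784) (by decide +kernel)
              (CovZ.leaf K2_ok TB_l41630 _)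
              (CovZ.leaf K2_ok TB_l41631 _))
             (CovZ.leaf K2_ok TB_l41632 _))))
          (CovZ.n1 (-20160, 33024) (by decide +kernel)
           (CovZ.n2 (-20064, 32928) (by decide +kernel)
            (CovZ.n2 (-20160, 32928) (by decide +kernel)
             (CovZ.n2 (-20112, 32976) (by decide +kernel)
              (CovZ.n2 (-20112, 32928) (by decide +kernel)
               (CovZ.n2 (-20136, 32952) (by decide +kernel)
                (CovZ.badM (by decide +kernel))
                (CovZ.leaf K2_ok TB_l41633 _))
               (CovZ.badM (by decide +kernel)))
              (CovZ.n1 (-20160, 32976) (by decide +kernel)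
               (CovZ.badM (by decide +kernel))
               (CovZ.n1 (-20136, 32952) (by decide +kernel)
                (CovZ.n2 (-20160, 32952) (by decide +kernel)
                 (CovZ.badM (by decide +kernel))
                 (CovZ.leaf K2_ok TB_l41634 _))
                (CovZ.badM (by decide +kernel)))))
             (CovZ.n1 (-20112, 32880) (by decide +kernel)
              (CovZ.n2 (-20160, 32880) (by decide +kernel)
               (CovZ.leaf K2_ok TB_l41635 _)
               (CovZ.leaf K2_ok TB_l41636 _))
              (CovZ.n1 (-20112, 32928) (by decide +kernel)
               (CovZ.n2 (-20088, 32904) (by decide +kernel)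
                (CovZ.leaf K2_ok TB_l41637 _)
                (CovZ.n1 (-20088, 32928) (by decide +kernel)
                 (CovZ.leaf K2_ok TB_l41638 _)
                 (CovZ.leaf K2_ok TB_l41639 _)))
               (CovZ.n1 (-20136, 32904) (by decide +kernel)
                (CovZ.n2 (-20136, 32928) (by decide +kernel)
                 (CovZ.leaf K2_ok TB_l41640 _)
                 (CovZ.leaf K2_ok TB_l41641 _))
                (CovZ.leaf K2_ok TB_l41642 _)))))
            (CovZ.n1 (-20064, 33024) (by decide +kernel)
             (CovZ.n2 (-20016, 32976) (by decide +kernel)
              (CovZ.badM (by decide +kernel))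
              (CovZ.badM (by decide +kernel)))
             (CovZ.badM (by decide +kernel))))
           (CovZ.n1 (-20256, 32928) (by decide +kernel)
            (CovZ.n2 (-20256, 33024) (by decide +kernel)
             (CovZ.n2 (-20208, 32976) (by decide +kernel)
              (CovZ.n2 (-20256, 32976) (by decide +kernel)
               (CovZ.badM (by decide +kernel))
               (CovZ.n1 (-20232, 32952) (by decide +kernel)
                (CovZ.leaf K2_ok TB_l41643 _)
                (CovZ.badM (by decide +kernel))))
              (CovZ.badM (by decide +kernel)))
             (CovZ.n1 (-20304, 32976) (by decide +kernel)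
              (CovZ.badM (by decide +kernel))
              (CovZ.n1 (-20256, 32976) (by decide +kernel)
               (CovZ.n2 (-20280, 32952) (by decide +kernel)
                (CovZ.n2 (-20280, 32976) (by decide +kernel)
                 (CovZ.leaf K2_ok TB_l41644 _)
                 (CovZ.leaf K2_ok TB_l41645 _))
                (CovZ.leaf K2_ok TB_l41646 _))
               (CovZ.badM (by decide +kernel)))))
            (CovZ.n1 (-20160, 32928) (by decide +kernel)
             (CovZ.n2 (-20208, 32880) (by decide +kernel)
              (CovZ.n2 (-20208, 32928) (by decide +kernel)
               (CovZ.n2 (-20184, 32904) (by decide +kernel)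
                (CovZ.leaf K2_ok TB_l41647 _)
                (CovZ.leaf K2_ok TB_l41648 _))
               (CovZ.leaf K2_ok TB_l41649 _))
              (CovZ.n1 (-20160, 32880) (by decide +kernel)
               (CovZ.leaf K2_ok TB_l41650 _)
               (CovZ.leaf K2_ok TB_l41651 _)))
             (CovZ.n1 (-20208, 32976) (by decide +kernel)
              (CovZ.n2 (-20160, 32976) (by decide +kernel)
               (CovZ.n2 (-20184, 32952) (by decide +kernel)
                (CovZ.badM (by decide +kernel))
                (CovZ.n1 (-20160, 32952) (by decide +kernel)
                 (CovZ.leaf K2_ok TB_l41652 _)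
                 (CovZ.badM (by decide +kernel))))
               (CovZ.badM (by decide +kernel)))
              (CovZ.n1 (-20208, 32928) (by decide +kernel)
               (CovZ.n2 (-20232, 32952) (by decide +kernel)
                (CovZ.leaf K2_ok TB_l41653 _)
                (CovZ.leaf K2_ok TB_l41654 _))
               (CovZ.n1 (-20184, 32952) (by decide +kernel)
                (CovZ.leaf K2_ok TB_l41655 _)
                (CovZ.leaf K2_ok TB_l41656 _)))))))))
        (CovZ.subM 8749002899132047697490008908470485461412677723572849768539045508935170093730079204085974891294097408 (by decide +kernel)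
         (CovZ.n1 (-20544, 32832) (by decide +kernel)
          (CovZ.n2 (-20544, 33024) (by decide +kernel)
           (CovZ.n2 (-20448, 32928) (by decide +kernel)
            (CovZ.n2 (-20544, 32928) (by decide +kernel)
             (CovZ.n2 (-20496, 32976) (by decide +kernel)
              (CovZ.leaf K2_ok TB_l41657 _)
              (CovZ.leaf K2_ok TB_l41658 _))
             (CovZ.n1 (-20496, 32880) (by decide +kernel)
              (CovZ.leaf K2_ok TB_l41659 _)
              (CovZ.leaf K2_ok TB_l41660 _)))
            (CovZ.n1 (-20448, 33024) (by decide +kernel)
             (CovZ.n2 (-20400, 32976) (by decide +kernel)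
              (CovZ.n2 (-20448, 32976) (by decide +kernel)
               (CovZ.leaf K2_ok TB_l41661 _)
               (CovZ.leaf K2_ok TB_l41662 _))
              (CovZ.n1 (-20400, 33024) (by decide +kernel)
               (CovZ.n2 (-20376, 33000) (by decide +kernel)
                (CovZ.leaf K2_ok TB_l41663 _)
                (CovZ.badM (by decide +kernel)))
               (CovZ.n1 (-20424, 33000) (by decide +kernel)
                (CovZ.badM (by decide +kernel))
                (CovZ.leaf K2_ok TB_l41664 _))))
             (CovZ.n1 (-20496, 32976) (by decide +kernel)
              (CovZ.n2 (-20496, 33024) (by decide +kernel)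
               (CovZ.n2 (-20472, 33000) (by decide +kernel)
                (CovZ.leaf K2_ok TB_l41665 _)
                (CovZ.badM (by decide +kernel)))
               (CovZ.n1 (-20520, 33000) (by decide +kernel)
                (CovZ.leaf K2_ok TB_l41666 _)
                (CovZ.leaf K2_ok TB_l41667 _)))
              (CovZ.n1 (-20448, 32976) (by decide +kernel)
               (CovZ.leaf K2_ok TB_l41668 _)
               (CovZ.leaf K2_ok TB_l41669 _)))))
           (CovZ.n1 (-20640, 32928) (by decide +kernel)
            (CovZ.n2 (-20640, 33024) (by decide +kernel)
             (CovZ.n2 (-20592, 32976) (by decide +kernel)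
              (CovZ.leaf K2_ok TB_l41670 _)
              (CovZ.n1 (-20592, 33024) (by decide +kernel)
               (CovZ.leaf K2_ok TB_l41671 _)
               (CovZ.leaf K2_ok TB_l41672 _)))
             (CovZ.n1 (-20688, 32976) (by decide +kernel)
              (CovZ.n2 (-20688, 33024) (by decide +kernel)
               (CovZ.leaf K2_ok TB_l41673 _)
               (CovZ.leaf K2_ok TB_l41674 _))
              (CovZ.leaf K2_ok TB_l41675 _)))
            (CovZ.n1 (-20544, 32928) (by decide +kernel)
             (CovZ.n2 (-20592, 32880) (by decide +kernel)
              (CovZ.leaf K2_ok TB_l41676 _)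
              (CovZ.leaf K2_ok TB_l41677 _))
             (CovZ.n1 (-20592, 32976) (by decide +kernel)
              (CovZ.leaf K2_ok TB_l41678 _)
              (CovZ.leaf K2_ok TB_l41679 _)))))
          (CovZ.n1 (-20352, 32832) (by decide +kernel)
           (CovZ.n2 (-20448, 32736) (by decide +kernel)
            (CovZ.n2 (-20448, 32832) (by decide +kernel)
             (CovZ.leaf K2_ok TB_l41680 _)
             (CovZ.leaf K2_ok TB_l41681 _))
            (CovZ.leaf K2_ok TB_l19647 _))
           (CovZ.n1 (-20448, 32928) (by decide +kernel)
            (CovZ.n2 (-20352, 32928) (by decide +kernel)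
             (CovZ.n2 (-20400, 32880) (by decide +kernel)
              (CovZ.n2 (-20400, 32928) (by decide +kernel)
               (CovZ.leaf K2_ok TB_l41682 _)
               (CovZ.leaf K2_ok TB_l41683 _))
              (CovZ.leaf K2_ok TB_l41684 _))
             (CovZ.n1 (-20400, 32976) (by decide +kernel)
              (CovZ.n2 (-20352, 32976) (by decide +kernel)
               (CovZ.n2 (-20376, 32952) (by decide +kernel)
                (CovZ.leaf K2_ok TB_l41685 _)
                (CovZ.leaf K2_ok TB_l41686 _))
               (CovZ.n1 (-20376, 33000) (by decide +kernel)
                (CovZ.badM (by decide +kernel))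
                (CovZ.leaf K2_ok TB_l41687 _)))
              (CovZ.leaf K2_ok TB_l41688 _)))
            (CovZ.leaf K2_ok TB_l41689 _))))))

theorem TB_u538 : CovZ TB_M (toL (selN TB_LN 8749002899132047697490008908470485461412677723572849859882897842116602481460381250042613921415692288)) [0, 7, 6, 1] (-20352, 32640) (-19968, 32256) (-19968, 33024) :=
    (CovZ.n1 (-19968, 32640) (by decide +kernel)
        (CovZ.n2 (-20160, 32448) (by decide +kernel)
         (CovZ.subM 91343852333181432387730302044803717526592684032 (by decide +kernel)
          (CovZ.n2 (-20160, 32640) (by decide +kernel)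
           (CovZ.n2 (-20064, 32544) (by decide +kernel)
            (CovZ.leaf K2_ok TB_l19648 _)
            (CovZ.n1 (-20064, 32640) (by decide +kernel)
             (CovZ.leaf K2_ok TB_l19649 _)
             (CovZ.leaf K2_ok TB_l19650 _)))
           (CovZ.n1 (-20256, 32544) (by decide +kernel)
            (CovZ.leaf K2_ok TB_l19651 _)
            (CovZ.leaf K2_ok TB_l19652 _))))
         (CovZ.n1 (-19968, 32448) (by decide +kernel)
          (CovZ.leaf K2_ok TB_l19653 _)
          (CovZ.leaf K2_ok TB_l19654 _)))
        (CovZ.subM 91343852333181432387730302044803717526592684032 (by decide +kernel)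
         (CovZ.n1 (-20160, 32832) (by decide +kernel)
          (CovZ.n2 (-19968, 32832) (by decide +kernel)
           (CovZ.n2 (-20064, 32736) (by decide +kernel)
            (CovZ.n2 (-20064, 32832) (by decide +kernel)
             (CovZ.n2 (-20016, 32784) (by decide +kernel)
              (CovZ.leaf K2_ok TB_l41690 _)
              (CovZ.n1 (-20016, 32832) (by decide +kernel)
               (CovZ.leaf K2_ok TB_l41691 _)
               (CovZ.leaf K2_ok TB_l41692 _)))
             (CovZ.n1 (-20112, 32784) (by decide +kernel)
              (CovZ.n2 (-20112, 32832) (by decide +kernel)
               (CovZ.leaf K2_ok TB_l41693 _)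
               (CovZ.leaf K2_ok TB_l41694 _))
              (CovZ.leaf K2_ok TB_l41695 _)))
            (CovZ.n1 (-19968, 32736) (by decide +kernel)
             (CovZ.leaf K2_ok TB_l41696 _)
             (CovZ.n1 (-20016, 32784) (by decide +kernel)
              (CovZ.leaf K2_ok TB_l41697 _)
              (CovZ.leaf K2_ok TB_l41698 _))))
           (CovZ.n1 (-20064, 32928) (by decide +kernel)
            (CovZ.n2 (-19968, 32928) (by decide +kernel)
             (CovZ.n2 (-20016, 32880) (by decide +kernel)
              (CovZ.n2 (-20016, 32928) (by decide +kernel)
               (CovZ.n2 (-19992, 32904) (by decide +kernel)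
                (CovZ.n2 (-20016, 32904) (by decide +kernel)
                 (CovZ.badM (by decide +kernel))
                 (CovZ.leaf K2_ok TB_l41699 _))
                (CovZ.badM (by decide +kernel)))
               (CovZ.n1 (-20040, 32904) (by decide +kernel)
                (CovZ.n2 (-20040, 32928) (by decide +kernel)
                 (CovZ.leaf K2_ok TB_l41700 _)
                 (CovZ.leaf K2_ok TB_l41701 _))
                (CovZ.leaf K2_ok TB_l41702 _)))
              (CovZ.n1 (-19968, 32880) (by decide +kernel)
               (CovZ.n2 (-19992, 32856) (by decide +kernel)
                (CovZ.n2 (-19992, 32880) (by decide +kernel)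
                 (CovZ.leaf K2_ok TB_l41703 _)
                 (CovZ.leaf K2_ok TB_l41704 _))
                (CovZ.leaf K2_ok TB_l41705 _))
               (CovZ.n1 (-19992, 32904) (by decide +kernel)
                (CovZ.n2 (-19968, 32904) (by decide +kernel)
                 (CovZ.leaf K2_ok TB_l41706 _)
                 (CovZ.badM (by decide +kernel)))
                (CovZ.leaf K2_ok TB_l41707 _))))
             (CovZ.n1 (-20016, 32976) (by decide +kernel)
              (CovZ.badM (by decide +kernel))
              (CovZ.n1 (-20016, 32928) (by decide +kernel)
               (CovZ.badM (by decide +kernel))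
               (CovZ.badM (by decide +kernel)))))
            (CovZ.n1 (-20064, 32832) (by decide +kernel)
             (CovZ.n2 (-20112, 32880) (by decide +kernel)
              (CovZ.n2 (-20064, 32880) (by decide +kernel)
               (CovZ.leaf K2_ok TB_l41708 _)
               (CovZ.n1 (-20088, 32904) (by decide +kernel)
                (CovZ.leaf K2_ok TB_l41709 _)
                (CovZ.leaf K2_ok TB_l41710 _)))
              (CovZ.leaf K2_ok TB_l41711 _))
             (CovZ.n1 (-20016, 32880) (by decide +kernel)
              (CovZ.leaf K2_ok TB_l41712 _)
              (CovZ.n1 (-20064, 32880) (by decide +kernel)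
               (CovZ.leaf K2_ok TB_l41713 _)
               (CovZ.n1 (-20040, 32856) (by decide +kernel)
                (CovZ.leaf K2_ok TB_l41714 _)
                (CovZ.leaf K2_ok TB_l41715 _)))))))
          (CovZ.n1 (-20160, 32640) (by decide +kernel)
           (CovZ.n2 (-20256, 32736) (by decide +kernel)
            (CovZ.n2 (-20160, 32736) (by decide +kernel)
             (CovZ.leaf K2_ok TB_l41716 _)
             (CovZ.leaf K2_ok TB_l41717 _))
            (CovZ.leaf K2_ok TB_l19655 _))
           (CovZ.n1 (-20064, 32736) (by decide +kernel)
            (CovZ.leaf K2_ok TB_l41718 _)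
            (CovZ.n1 (-20160, 32736) (by decide +kernel)
             (CovZ.leaf K2_ok TB_l41719 _)
             (CovZ.leaf K2_ok TB_l41720 _)))))))

end Pool.Agent.TET
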