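import Pool.Agent.Helper38_TET.TB_M
import Pool.Agent.Helper38_TET.TB_L
import Pool.Agent.Helper38_TET.TB_12
import Pool.Agent.Helper38_TET.TB_33
import Pool.Agent.Helper38_TET.TB_55
import Pool.Agent.Helper38_TET.TB_77
import Pool.Agent.Helper38_TET.TB_92
import Pool.Agent.Helper38_TET.TB_103
import Pool.Agent.Helper38_TET.TB_104
import Pool.Agent.Helper38_TET.TB_124
import Pool.Agent.Helper38_TET.TB_125
import Pool.Agent.Helper38_TET.TB_130
import Pool.Agent.Helper38_TET.TB_137
import Pool.Agent.Helper38_TET.TB_157
import Pool.Agent.Helper38_TET.TB_158
import Pool.Agent.Helper38_TET.TB_206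
import Pool.Agent.Helper38_TET.TB_207
import Pool.Agent.Helper38_TET.TB_208
import Pool.Agent.Helper38_TET.TB_209
import Pool.Agent.Helper38_TET.TB_242
import Pool.Agent.Helper38_TET.TB_243
import Pool.Agent.Helper38_TET.TB_244
import Pool.Agent.Helper38_TET.TB_245
import Pool.Agent.Helper38_TET.TB_246
import Pool.Agent.Helper38_TET.TB_269
import Pool.Agent.Helper38_TET.TB_272
import Pool.Agent.Helper38_TET.TB_283
import Pool.Agent.Helper38_TET.TB_304
import Pool.Agent.Helper38_TET.TB_320
import Pool.Agent.Helper38_TET.TB_332
import Pool.Agent.Helper38_TET.TB_U35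
import Pool.Agent.Helper38_TET.TB_U36

/-!
# MP_c7c9bf_co: certificates, family TB
-/

set_option autoImplicit false
set_option maxRecDepth 100000

namespace Pool.Agent.TET

theorem TB_s9_22 : SqZ TB_M TB_L [0, 7, 6, 1] (-32256) (-4608) 1536 9 22 :=
  SqZ.mk (a := (-18432)) (b := (-16896)) (c := 29184) (d := 30720) (by norm_num) (by norm_num) (by norm_num) (by norm_num)
    (CovZ.topM TB_LL 2405201172618247966241249845438581414515971725905004572126468075214254268821604961723439666821658608901455708161 (by decide +kernel) (CovZ.n2 (-17664, 29952) (by decide +kernel)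
    (CovZ.n2 (-16896, 29952) (by decide +kernel)
     (CovZ.n2 (-17280, 29568) (by decide +kernel)
      (CovZ.n2 (-17280, 29952) (by decide +kernel)
       (CovZ.n2 (-17088, 29760) (by decide +kernel)
        (CovZ.leaf K2_ok TB_l23662 _)
        (CovZ.leaf K2_ok TB_l23663 _))
       (CovZ.leaf K2_ok TB_l23664 _))
      (CovZ.n1 (-16896, 29568) (by decide +kernel)
       (CovZ.n2 (-17088, 29376) (by decide +kernel)
        (CovZ.leaf K2_ok TB_l23665 _)
        (CovZ.leaf K2_ok TB_l23666 _))
       (CovZ.n1 (-17088, 29760) (by decide +kernel)
        (CovZ.leaf K2_ok TB_l23667 _)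
        (CovZ.leaf K2_ok TB_l23668 _))))
     (CovZ.n1 (-17280, 30336) (by decide +kernel)
      (CovZ.n2 (-16896, 30336) (by decide +kernel)
       (CovZ.n2 (-17088, 30144) (by decide +kernel)
        (CovZ.leaf K2_ok TB_l23669 _)
        (CovZ.leaf K2_ok TB_l23670 _))
       (CovZ.leaf K2_ok TB_l23671 _))
      (CovZ.n1 (-17280, 29952) (by decide +kernel)
       (CovZ.leaf K2_ok TB_l23672 _)
       (CovZ.leaf K2_ok TB_l23673 _))))
    (CovZ.n1 (-17664, 29184) (by decide +kernel)
     (CovZ.n2 (-18048, 29568) (by decide +kernel)
      (CovZ.n2 (-17664, 29568) (by decide +kernel)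
       (CovZ.leaf K2_ok TB_l23674 _)
       (CovZ.leaf K2_ok TB_l23675 _))
      (CovZ.n1 (-18048, 29184) (by decide +kernel)
       (CovZ.leaf K2_ok TB_l23676 _)
       (CovZ.leaf K2_ok TB_l23677 _)))
     (CovZ.n1 (-17280, 29568) (by decide +kernel)
      (CovZ.n2 (-17280, 29184) (by decide +kernel)
       (CovZ.leaf K2_ok TB_l23678 _)
       (CovZ.n1 (-17088, 29376) (by decide +kernel)
        (CovZ.leaf K2_ok TB_l23679 _)
        (CovZ.leaf K2_ok TB_l23680 _)))
      (CovZ.n1 (-17664, 29568) (by decide +kernel)
       (CovZ.leaf K2_ok TB_l23681 _)
       (CovZ.leaf K2_ok TB_l23682 _))))))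
    (CovZ.topM TB_LL 2405201172618247966239212809462246928429703280216595193965416606820588332570968821274085285521895272195272310785 (by decide +kernel) (CovZ.n0 (-17664, 29952) (by decide +kernel)
    (CovZ.n2 (-18432, 29952) (by decide +kernel)
     (CovZ.n2 (-18048, 30336) (by decide +kernel)
      (CovZ.n2 (-18048, 29952) (by decide +kernel)
       (CovZ.leaf K2_ok TB_l23683 _)
       (CovZ.leaf K2_ok TB_l23684 _))
      (CovZ.leaf K2_ok TB_l23685 _))
     (CovZ.n1 (-18048, 29568) (by decide +kernel)
      (CovZ.leaf K2_ok TB_l23686 _)
      (CovZ.n1 (-18048, 29952) (by decide +kernel)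
       (CovZ.leaf K2_ok TB_l23687 _)
       (CovZ.leaf K2_ok TB_l23688 _))))
    (CovZ.n1 (-17664, 30720) (by decide +kernel)
     (CovZ.n2 (-17280, 30336) (by decide +kernel)
      (CovZ.n2 (-17664, 30336) (by decide +kernel)
       (CovZ.leaf K2_ok TB_l23689 _)
       (CovZ.leaf K2_ok TB_l23690 _))
      (CovZ.n1 (-17280, 30720) (by decide +kernel)
       (CovZ.leaf K2_ok TB_l23691 _)
       (CovZ.leaf K2_ok TB_l23692 _)))
     (CovZ.n1 (-18048, 30336) (by decide +kernel)
      (CovZ.n2 (-18048, 30720) (by decide +kernel)
       (CovZ.leaf K2_ok TB_l23693 _)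
       (CovZ.leaf K2_ok TB_l23694 _))
      (CovZ.n1 (-17664, 30336) (by decide +kernel)
       (CovZ.leaf K2_ok TB_l23695 _)
       (CovZ.leaf K2_ok TB_l23696 _))))))

theorem TB_s10_22 : SqZ TB_M TB_L [0, 7, 6, 1] (-32256) (-4608) 1536 10 22 :=
  SqZ.mk (a := (-16896)) (b := (-15360)) (c := 29184) (d := 30720) (by norm_num) (by norm_num) (by norm_num) (by norm_num)
    (CovZ.topM TB_LL 726838724295649497672314647080906440271934055137225163209362074885150224921163385164021199187462915266693273172355649795228219046200321 (by decide +kernel) (CovZ.n2 (-16128, 29952) (by decide +kernel)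
    (CovZ.n2 (-15360, 29952) (by decide +kernel)
     (CovZ.n2 (-15744, 29568) (by decide +kernel)
      (CovZ.n2 (-15744, 29952) (by decide +kernel)
       (CovZ.subM 726838724295606890549323808181572357200370516211036434451053313591412823201059982387211319518808305679849036886590089946876408443765761 (by decide +kernel)
        (CovZ.n2 (-15552, 29760) (by decide +kernel)
         (CovZ.n2 (-15744, 29760) (by decide +kernel)
          (CovZ.leaf K2_ok TB_l30976 _)
          (CovZ.leaf K2_ok TB_l30977 _))
         (CovZ.n1 (-15552, 29952) (by decide +kernel)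
          (CovZ.n2 (-15456, 29856) (by decide +kernel)
           (CovZ.leaf K2_ok TB_l30978 _)
           (CovZ.leaf K2_ok TB_l30979 _))
          (CovZ.leaf K2_ok TB_l30980 _))))
       (CovZ.n1 (-15936, 29760) (by decide +kernel)
        (CovZ.n2 (-15936, 29952) (by decide +kernel)
         (CovZ.leaf K2_ok TB_l30981 _)
         (CovZ.leaf K2_ok TB_l30982 _))
        (CovZ.n1 (-15744, 29760) (by decide +kernel)
         (CovZ.leaf K2_ok TB_l30983 _)
         (CovZ.leaf K2_ok TB_l30984 _))))
      (CovZ.subM 726838724295606890549323808181572357200370516211036434451053313591412823201059982387211319518808316313673003165917073249390484724450305 (by decide +kernel)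
       (CovZ.n1 (-15360, 29568) (by decide +kernel)
        (CovZ.n2 (-15552, 29376) (by decide +kernel)
         (CovZ.n2 (-15552, 29568) (by decide +kernel)
          (CovZ.leaf K2_ok TB_l30985 _)
          (CovZ.leaf K2_ok TB_l30986 _))
         (CovZ.n1 (-15360, 29376) (by decide +kernel)
          (CovZ.leaf K2_ok TB_l30987 _)
          (CovZ.leaf K2_ok TB_l30988 _)))
        (CovZ.n1 (-15552, 29760) (by decide +kernel)
         (CovZ.n2 (-15360, 29760) (by decide +kernel)
          (CovZ.n2 (-15456, 29664) (by decide +kernel)
           (CovZ.leaf K2_ok TB_l30989 _)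
           (CovZ.leaf K2_ok TB_l30990 _))
          (CovZ.n1 (-15456, 29856) (by decide +kernel)
           (CovZ.leaf K2_ok TB_l30991 _)
           (CovZ.leaf K2_ok TB_l30992 _)))
         (CovZ.n1 (-15552, 29568) (by decide +kernel)
          (CovZ.leaf K2_ok TB_l30993 _)
          (CovZ.n1 (-15456, 29664) (by decide +kernel)
           (CovZ.leaf K2_ok TB_l30994 _)
           (CovZ.leaf K2_ok TB_l30995 _)))))))
     (CovZ.n1 (-15744, 30336) (by decide +kernel)
      (CovZ.subM 726838724295606890549323808181572357200370516211036434451053200513200677384462889056171271972023292720879636846976770164079525716100097 (by decide +kernel)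
       (CovZ.n2 (-15360, 30336) (by decide +kernel)
        (CovZ.n2 (-15552, 30144) (by decide +kernel)
         (CovZ.n2 (-15552, 30336) (by decide +kernel)
          (CovZ.n2 (-15456, 30240) (by decide +kernel)
           (CovZ.leaf K2_ok TB_l30996 _)
           (CovZ.leaf K2_ok TB_l30997 _))
          (CovZ.n1 (-15648, 30240) (by decide +kernel)
           (CovZ.leaf K2_ok TB_l30998 _)
           (CovZ.leaf K2_ok TB_l30999 _)))
         (CovZ.n1 (-15360, 30144) (by decide +kernel)
          (CovZ.n2 (-15456, 30048) (by decide +kernel)
           (CovZ.leaf K2_ok TB_l31000 _)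
           (CovZ.leaf K2_ok TB_l31001 _))
          (CovZ.n1 (-15456, 30240) (by decide +kernel)
           (CovZ.leaf K2_ok TB_l31002 _)
           (CovZ.leaf K2_ok TB_l31003 _))))
        (CovZ.n1 (-15552, 30528) (by decide +kernel)
         (CovZ.n2 (-15360, 30528) (by decide +kernel)
          (CovZ.n2 (-15456, 30432) (by decide +kernel)
           (CovZ.leaf K2_ok TB_l31004 _)
           (CovZ.leaf K2_ok TB_l31005 _))
          (CovZ.n1 (-15456, 30624) (by decide +kernel)
           (CovZ.leaf K2_ok TB_l31006 _)
           (CovZ.leaf K2_ok TB_l31007 _)))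
         (CovZ.n1 (-15552, 30336) (by decide +kernel)
          (CovZ.leaf K2_ok TB_l31008 _)
          (CovZ.n1 (-15456, 30432) (by decide +kernel)
           (CovZ.leaf K2_ok TB_l31009 _)
           (CovZ.leaf K2_ok TB_l31010 _))))))
      (CovZ.n1 (-15744, 29952) (by decide +kernel)
       (CovZ.n2 (-15936, 30144) (by decide +kernel)
        (CovZ.n2 (-15744, 30144) (by decide +kernel)
         (CovZ.leaf K2_ok TB_l31011 _)
         (CovZ.leaf K2_ok TB_l31012 _))
        (CovZ.n1 (-15936, 29952) (by decide +kernel)
         (CovZ.leaf K2_ok TB_l31013 _)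
         (CovZ.leaf K2_ok TB_l31014 _)))
       (CovZ.subM 726838724295606890549323808181572357200370516211036434451053200513200677384462889056171271972023292720879636846976770164079525716100097 (by decide +kernel)
        (CovZ.n1 (-15552, 30144) (by decide +kernel)
         (CovZ.n2 (-15552, 29952) (by decide +kernel)
          (CovZ.leaf K2_ok TB_l31015 _)
          (CovZ.n1 (-15456, 30048) (by decide +kernel)
           (CovZ.leaf K2_ok TB_l31016 _)
           (CovZ.leaf K2_ok TB_l31017 _)))
         (CovZ.n1 (-15744, 30144) (by decide +kernel)
          (CovZ.leaf K2_ok TB_l31018 _)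
          (CovZ.leaf K2_ok TB_l31019 _)))))))
    (CovZ.n1 (-16128, 29184) (by decide +kernel)
     (CovZ.n2 (-16512, 29568) (by decide +kernel)
      (CovZ.n2 (-16128, 29568) (by decide +kernel)
       (CovZ.n2 (-16320, 29376) (by decide +kernel)
        (CovZ.n2 (-16320, 29568) (by decide +kernel)
         (CovZ.leaf K2_ok TB_l31020 _)
         (CovZ.leaf K2_ok TB_l31021 _))
        (CovZ.leaf K2_ok TB_l31022 _))
       (CovZ.subM 42607122988434285297145513067205251473501445371141696679704848441513513212740335786722809146700409512580589981139304776705 (by decide +kernel)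
        (CovZ.n1 (-16320, 29760) (by decide +kernel)
         (CovZ.n2 (-16128, 29760) (by decide +kernel)
          (CovZ.leaf K2_ok TB_l31023 _)
          (CovZ.leaf K2_ok TB_l31024 _))
         (CovZ.n1 (-16320, 29568) (by decide +kernel)
          (CovZ.leaf K2_ok TB_l31025 _)
          (CovZ.leaf K2_ok TB_l31026 _)))))
      (CovZ.n1 (-16512, 29184) (by decide +kernel)
       (CovZ.n2 (-16704, 29376) (by decide +kernel)
        (CovZ.leaf K2_ok TB_l31027 _)
        (CovZ.n1 (-16704, 29184) (by decide +kernel)
         (CovZ.leaf K2_ok TB_l31028 _)
         (CovZ.leaf K2_ok TB_l31029 _)))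
       (CovZ.n1 (-16320, 29376) (by decide +kernel)
        (CovZ.leaf K2_ok TB_l31030 _)
        (CovZ.leaf K2_ok TB_l31031 _))))
     (CovZ.n1 (-15744, 29568) (by decide +kernel)
      (CovZ.n2 (-15744, 29184) (by decide +kernel)
       (CovZ.n2 (-15936, 29376) (by decide +kernel)
        (CovZ.n2 (-15744, 29376) (by decide +kernel)
         (CovZ.leaf K2_ok TB_l31032 _)
         (CovZ.leaf K2_ok TB_l31033 _))
        (CovZ.n1 (-15936, 29184) (by decide +kernel)
         (CovZ.leaf K2_ok TB_l31034 _)
         (CovZ.leaf K2_ok TB_l31035 _)))
       (CovZ.subM 726838724295606890549323808181572357200370516211036434451053313591412823201059982387211319518808316313673003165917073249390484724450305 (by decide +kernel)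
        (CovZ.n1 (-15552, 29376) (by decide +kernel)
         (CovZ.n2 (-15552, 29184) (by decide +kernel)
          (CovZ.leaf K2_ok TB_l31036 _)
          (CovZ.leaf K2_ok TB_l31037 _))
         (CovZ.n1 (-15744, 29376) (by decide +kernel)
          (CovZ.leaf K2_ok TB_l31038 _)
          (CovZ.leaf K2_ok TB_l31039 _)))))
      (CovZ.n1 (-16128, 29568) (by decide +kernel)
       (CovZ.n2 (-15936, 29760) (by decide +kernel)
        (CovZ.n2 (-15936, 29568) (by decide +kernel)
         (CovZ.leaf K2_ok TB_l31040 _)
         (CovZ.leaf K2_ok TB_l31041 _))
        (CovZ.leaf K2_ok TB_l31042 _))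
       (CovZ.n1 (-15936, 29376) (by decide +kernel)
        (CovZ.leaf K2_ok TB_l31043 _)
        (CovZ.n1 (-15936, 29568) (by decide +kernel)
         (CovZ.leaf K2_ok TB_l31044 _)
         (CovZ.leaf K2_ok TB_l31045 _))))))))
    (CovZ.topM TB_LL 726838724295649497672314647080906440271934055137225163209362074885150224921163385164021199187462915266693273172355649795228219046200321 (by decide +kernel) (CovZ.n0 (-16128, 29952) (by decide +kernel)
    (CovZ.n2 (-16896, 29952) (by decide +kernel)
     (CovZ.n2 (-16512, 30336) (by decide +kernel)
      (CovZ.n2 (-16512, 29952) (by decide +kernel)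
       (CovZ.n2 (-16704, 30144) (by decide +kernel)
        (CovZ.leaf K2_ok TB_l31046 _)
        (CovZ.leaf K2_ok TB_l31047 _))
       (CovZ.n1 (-16320, 30144) (by decide +kernel)
        (CovZ.n2 (-16320, 29952) (by decide +kernel)
         (CovZ.leaf K2_ok TB_l31048 _)
         (CovZ.leaf K2_ok TB_l31049 _))
        (CovZ.leaf K2_ok TB_l31050 _)))
      (CovZ.n1 (-16896, 30336) (by decide +kernel)
       (CovZ.n2 (-16704, 30528) (by decide +kernel)
        (CovZ.leaf K2_ok TB_l31051 _)
        (CovZ.leaf K2_ok TB_l31052 _))
       (CovZ.n1 (-16704, 30144) (by decide +kernel)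
        (CovZ.leaf K2_ok TB_l31053 _)
        (CovZ.leaf K2_ok TB_l31054 _))))
     (CovZ.n1 (-16512, 29568) (by decide +kernel)
      (CovZ.n2 (-16896, 29568) (by decide +kernel)
       (CovZ.n2 (-16704, 29760) (by decide +kernel)
        (CovZ.n2 (-16704, 29568) (by decide +kernel)
         (CovZ.leaf K2_ok TB_l31055 _)
         (CovZ.leaf K2_ok TB_l31056 _))
        (CovZ.leaf K2_ok TB_l31057 _))
       (CovZ.n1 (-16704, 29376) (by decide +kernel)
        (CovZ.leaf K2_ok TB_l31058 _)
        (CovZ.n1 (-16704, 29568) (by decide +kernel)
         (CovZ.leaf K2_ok TB_l31059 _)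
         (CovZ.leaf K2_ok TB_l31060 _))))
      (CovZ.n1 (-16512, 29952) (by decide +kernel)
       (CovZ.n2 (-16320, 29760) (by decide +kernel)
        (CovZ.leaf K2_ok TB_l31061 _)
        (CovZ.n1 (-16320, 29952) (by decide +kernel)
         (CovZ.leaf K2_ok TB_l31062 _)
         (CovZ.leaf K2_ok TB_l31063 _)))
       (CovZ.n1 (-16704, 29760) (by decide +kernel)
        (CovZ.n2 (-16704, 29952) (by decide +kernel)
         (CovZ.leaf K2_ok TB_l31064 _)
         (CovZ.leaf K2_ok TB_l31065 _))
        (CovZ.leaf K2_ok TB_l31066 _)))))
    (CovZ.n1 (-16128, 30720) (by decide +kernel)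
     (CovZ.n2 (-15744, 30336) (by decide +kernel)
      (CovZ.n2 (-16128, 30336) (by decide +kernel)
       (CovZ.subM 726838724295649497672312242173301679866708563901755585392375141530661158735864182456895349836829024777395521051051552791647400186938369 (by decide +kernel)
        (CovZ.n2 (-15936, 30528) (by decide +kernel)
         (CovZ.n2 (-15936, 30336) (by decide +kernel)
          (CovZ.leaf K2_ok TB_l31067 _)
          (CovZ.leaf K2_ok TB_l31068 _))
         (CovZ.n1 (-16128, 30528) (by decide +kernel)
          (CovZ.leaf K2_ok TB_l31069 _)
          (CovZ.leaf K2_ok TB_l31070 _))))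
       (CovZ.n1 (-15936, 30144) (by decide +kernel)
        (CovZ.n2 (-16128, 30144) (by decide +kernel)
         (CovZ.leaf K2_ok TB_l31071 _)
         (CovZ.leaf K2_ok TB_l31072 _))
        (CovZ.n1 (-15936, 30336) (by decide +kernel)
         (CovZ.leaf K2_ok TB_l31073 _)
         (CovZ.leaf K2_ok TB_l31074 _))))
      (CovZ.n1 (-15744, 30720) (by decide +kernel)
       (CovZ.subM 726838724295606890549323808181572357200370514174000458116567114244754988975084728004702878306087042084739187492595470400742819532702721 (by decide +kernel)
        (CovZ.n2 (-15552, 30528) (by decide +kernel)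
         (CovZ.n2 (-15744, 30528) (by decide +kernel)
          (CovZ.leaf K2_ok TB_l31075 _)
          (CovZ.n1 (-15648, 30432) (by decide +kernel)
           (CovZ.leaf K2_ok TB_l31076 _)
           (CovZ.leaf K2_ok TB_l31077 _)))
         (CovZ.n1 (-15552, 30720) (by decide +kernel)
          (CovZ.n2 (-15456, 30624) (by decide +kernel)
           (CovZ.leaf K2_ok TB_l31078 _)
           (CovZ.leaf K2_ok TB_l31079 _))
          (CovZ.leaf K2_ok TB_l31080 _))))
       (CovZ.subM 726838724295649497672312242173301679866708563901755585392375141530661158735864182456895349836829024777395521051051552791647400186938369 (by decide +kernel)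
        (CovZ.n1 (-15936, 30528) (by decide +kernel)
         (CovZ.n2 (-15936, 30720) (by decide +kernel)
          (CovZ.leaf K2_ok TB_l31081 _)
          (CovZ.leaf K2_ok TB_l31082 _))
         (CovZ.n1 (-15744, 30528) (by decide +kernel)
          (CovZ.leaf K2_ok TB_l31083 _)
          (CovZ.leaf K2_ok TB_l31084 _))))))
     (CovZ.n1 (-16512, 30336) (by decide +kernel)
      (CovZ.n2 (-16512, 30720) (by decide +kernel)
       (CovZ.n2 (-16320, 30528) (by decide +kernel)
        (CovZ.leaf K2_ok TB_l31085 _)
        (CovZ.n1 (-16320, 30720) (by decide +kernel)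
         (CovZ.leaf K2_ok TB_l31086 _)
         (CovZ.leaf K2_ok TB_l31087 _)))
       (CovZ.n1 (-16704, 30528) (by decide +kernel)
        (CovZ.leaf K2_ok TB_l31088 _)
        (CovZ.leaf K2_ok TB_l31089 _)))
      (CovZ.subM 42607122988434285297145513067205251473501445371028618467559031844420182172692789001709850177300369899260807184256577111041 (by decide +kernel)
       (CovZ.n1 (-16128, 30336) (by decide +kernel)
        (CovZ.n2 (-16320, 30144) (by decide +kernel)
         (CovZ.n2 (-16320, 30336) (by decide +kernel)
          (CovZ.leaf K2_ok TB_l31090 _)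
          (CovZ.leaf K2_ok TB_l31091 _))
         (CovZ.n1 (-16128, 30144) (by decide +kernel)
          (CovZ.leaf K2_ok TB_l31092 _)
          (CovZ.leaf K2_ok TB_l31093 _)))
        (CovZ.n1 (-16320, 30528) (by decide +kernel)
         (CovZ.leaf K2_ok TB_l31094 _)
         (CovZ.n1 (-16320, 30336) (by decide +kernel)
          (CovZ.leaf K2_ok TB_l31095 _)
          (CovZ.leaf K2_ok TB_l31096 _)))))))))

theorem TB_s11_22 : SqZ TB_M TB_L [0, 7, 6, 1] (-32256) (-4608) 1536 11 22 :=
  SqZ.mk (a := (-15360)) (b := (-13824)) (c := 29184) (d := 30720) (by norm_num) (by norm_num) (by norm_num) (by norm_num)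
    (CovZ.topM TB_LL 195874407622960323963722587719003260573162483841588599958690217972277060244168550502204945972609966841577836918206336154578884170319721922626561 (by decide +kernel) (CovZ.n2 (-14592, 29952) (by decide +kernel)
    (CovZ.subM 293567822846729155523718374169563001332561389271064965729980221258260417694060925504514829934560658717672448 (by decide +kernel)
     (CovZ.n2 (-13824, 29952) (by decide +kernel)
      TB_u514
      TB_u515))
    (CovZ.n1 (-14592, 29184) (by decide +kernel)
     (CovZ.n2 (-14976, 29568) (by decide +kernel)
      (CovZ.subM 293567822846729155523718374169563001332561389271064965729980221258260418358674923396972766386464188857844736 (by decide +kernel)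
       (CovZ.n2 (-14592, 29568) (by decide +kernel)
        (CovZ.n2 (-14784, 29376) (by decide +kernel)
         (CovZ.n2 (-14784, 29568) (by decide +kernel)
          (CovZ.n2 (-14688, 29472) (by decide +kernel)
           (CovZ.n2 (-14784, 29472) (by decide +kernel)
            (CovZ.leaf K2_ok TB_l36368 _)
            (CovZ.leaf K2_ok TB_l36369 _))
           (CovZ.n1 (-14688, 29568) (by decide +kernel)
            (CovZ.n2 (-14640, 29520) (by decide +kernel)
             (CovZ.leaf K2_ok TB_l36370 _)
             (CovZ.leaf K2_ok TB_l36371 _))
            (CovZ.leaf K2_ok TB_l36372 _)))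
          (CovZ.n1 (-14880, 29472) (by decide +kernel)
           (CovZ.n2 (-14880, 29568) (by decide +kernel)
            (CovZ.leaf K2_ok TB_l36373 _)
            (CovZ.leaf K2_ok TB_l36374 _))
           (CovZ.n1 (-14784, 29472) (by decide +kernel)
            (CovZ.leaf K2_ok TB_l36375 _)
            (CovZ.leaf K2_ok TB_l36376 _))))
         (CovZ.n1 (-14592, 29376) (by decide +kernel)
          (CovZ.n2 (-14688, 29280) (by decide +kernel)
           (CovZ.n2 (-14688, 29376) (by decide +kernel)
            (CovZ.n2 (-14640, 29328) (by decide +kernel)
             (CovZ.leaf K2_ok TB_l36377 _)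
             (CovZ.leaf K2_ok TB_l36378 _))
            (CovZ.leaf K2_ok TB_l36379 _))
           (CovZ.n1 (-14592, 29280) (by decide +kernel)
            (CovZ.leaf K2_ok TB_l36380 _)
            (CovZ.n1 (-14640, 29328) (by decide +kernel)
             (CovZ.leaf K2_ok TB_l36381 _)
             (CovZ.leaf K2_ok TB_l36382 _))))
          (CovZ.n1 (-14688, 29472) (by decide +kernel)
           (CovZ.n2 (-14592, 29472) (by decide +kernel)
            (CovZ.n2 (-14640, 29424) (by decide +kernel)
             (CovZ.n2 (-14640, 29472) (by decide +kernel)
              (CovZ.leaf K2_ok TB_l36383 _)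
              (CovZ.leaf K2_ok TB_l36384 _))
             (CovZ.leaf K2_ok TB_l36385 _))
            (CovZ.n1 (-14640, 29520) (by decide +kernel)
             (CovZ.leaf K2_ok TB_l36386 _)
             (CovZ.leaf K2_ok TB_l36387 _)))
           (CovZ.n1 (-14688, 29376) (by decide +kernel)
            (CovZ.leaf K2_ok TB_l36388 _)
            (CovZ.n1 (-14640, 29424) (by decide +kernel)
             (CovZ.leaf K2_ok TB_l36389 _)
             (CovZ.leaf K2_ok TB_l36390 _))))))
        (CovZ.n1 (-14784, 29760) (by decide +kernel)
         (CovZ.n2 (-14592, 29760) (by decide +kernel)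
          (CovZ.n2 (-14688, 29664) (by decide +kernel)
           (CovZ.n2 (-14688, 29760) (by decide +kernel)
            (CovZ.n2 (-14640, 29712) (by decide +kernel)
             (CovZ.leaf K2_ok TB_l36391 _)
             (CovZ.n1 (-14640, 29760) (by decide +kernel)
              (CovZ.leaf K2_ok TB_l36392 _)
              (CovZ.leaf K2_ok TB_l36393 _)))
            (CovZ.n1 (-14736, 29712) (by decide +kernel)
             (CovZ.leaf K2_ok TB_l36394 _)
             (CovZ.leaf K2_ok TB_l36395 _)))
           (CovZ.n1 (-14592, 29664) (by decide +kernel)
            (CovZ.n2 (-14640, 29616) (by decide +kernel)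
             (CovZ.n2 (-14640, 29664) (by decide +kernel)
              (CovZ.leaf K2_ok TB_l36396 _)
              (CovZ.leaf K2_ok TB_l36397 _))
             (CovZ.leaf K2_ok TB_l36398 _))
            (CovZ.n1 (-14640, 29712) (by decide +kernel)
             (CovZ.leaf K2_ok TB_l36399 _)
             (CovZ.n1 (-14640, 29664) (by decide +kernel)
              (CovZ.leaf K2_ok TB_l36400 _)
              (CovZ.leaf K2_ok TB_l36401 _)))))
          (CovZ.n1 (-14688, 29856) (by decide +kernel)
           (CovZ.n2 (-14592, 29856) (by decide +kernel)
            (CovZ.n2 (-14640, 29808) (by decide +kernel)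
             (CovZ.n2 (-14640, 29856) (by decide +kernel)
              (CovZ.leaf K2_ok TB_l36402 _)
              (CovZ.leaf K2_ok TB_l36403 _))
             (CovZ.leaf K2_ok TB_l36404 _))
            (CovZ.n1 (-14640, 29904) (by decide +kernel)
             (CovZ.n2 (-14592, 29904) (by decide +kernel)
              (CovZ.leaf K2_ok TB_l36405 _)
              (CovZ.leaf K2_ok TB_l36406 _))
             (CovZ.n1 (-14640, 29856) (by decide +kernel)
              (CovZ.leaf K2_ok TB_l36407 _)
              (CovZ.leaf K2_ok TB_l36408 _))))
           (CovZ.n1 (-14688, 29760) (by decide +kernel)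
            (CovZ.n2 (-14736, 29808) (by decide +kernel)
             (CovZ.leaf K2_ok TB_l36409 _)
             (CovZ.leaf K2_ok TB_l36410 _))
            (CovZ.n1 (-14640, 29808) (by decide +kernel)
             (CovZ.n2 (-14640, 29760) (by decide +kernel)
              (CovZ.leaf K2_ok TB_l36411 _)
              (CovZ.leaf K2_ok TB_l36412 _))
             (CovZ.leaf K2_ok TB_l36413 _)))))
         (CovZ.n1 (-14784, 29568) (by decide +kernel)
          (CovZ.n2 (-14880, 29664) (by decide +kernel)
           (CovZ.n2 (-14784, 29664) (by decide +kernel)
            (CovZ.leaf K2_ok TB_l36414 _)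
            (CovZ.leaf K2_ok TB_l36415 _))
           (CovZ.n1 (-14880, 29568) (by decide +kernel)
            (CovZ.leaf K2_ok TB_l36416 _)
            (CovZ.leaf K2_ok TB_l36417 _)))
          (CovZ.n1 (-14688, 29664) (by decide +kernel)
           (CovZ.n2 (-14688, 29568) (by decide +kernel)
            (CovZ.n2 (-14736, 29616) (by decide +kernel)
             (CovZ.leaf K2_ok TB_l36418 _)
             (CovZ.leaf K2_ok TB_l36419 _))
            (CovZ.n1 (-14640, 29616) (by decide +kernel)
             (CovZ.n2 (-14640, 29568) (by decide +kernel)
              (CovZ.leaf K2_ok TB_l36420 _)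
              (CovZ.leaf K2_ok TB_l36421 _))
             (CovZ.leaf K2_ok TB_l36422 _)))
           (CovZ.n1 (-14784, 29664) (by decide +kernel)
            (CovZ.n2 (-14736, 29712) (by decide +kernel)
             (CovZ.leaf K2_ok TB_l36423 _)
             (CovZ.leaf K2_ok TB_l36424 _))
            (CovZ.n1 (-14736, 29616) (by decide +kernel)
             (CovZ.leaf K2_ok TB_l36425 _)
             (CovZ.leaf K2_ok TB_l36426 _))))))))
      (CovZ.n1 (-14976, 29184) (by decide +kernel)
       (CovZ.n2 (-15168, 29376) (by decide +kernel)
        (CovZ.subM 293567822846729155523718374169563114410773535087662059061020268805045431317644323436586086187275470094992384 (by decide +kernel)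
         (CovZ.n2 (-14976, 29376) (by decide +kernel)
          (CovZ.n2 (-15072, 29280) (by decide +kernel)
           (CovZ.n2 (-15072, 29376) (by decide +kernel)
            (CovZ.leaf K2_ok TB_l36427 _)
            (CovZ.leaf K2_ok TB_l36428 _))
           (CovZ.leaf K2_ok TB_l36429 _))
          (CovZ.n1 (-15072, 29472) (by decide +kernel)
           (CovZ.leaf K2_ok TB_l36430 _)
           (CovZ.n1 (-15072, 29376) (by decide +kernel)
            (CovZ.leaf K2_ok TB_l36431 _)
            (CovZ.leaf K2_ok TB_l36432 _)))))
        (CovZ.n1 (-15168, 29184) (by decide +kernel)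
         (CovZ.n2 (-15264, 29280) (by decide +kernel)
          (CovZ.leaf K2_ok TB_l36433 _)
          (CovZ.leaf K2_ok TB_l36434 _))
         (CovZ.n1 (-15072, 29280) (by decide +kernel)
          (CovZ.leaf K2_ok TB_l36435 _)
          (CovZ.leaf K2_ok TB_l36436 _))))
       (CovZ.subM 762145642166990290864647761179972536182226690153220746096098036659152432946329428511743168213504149566873439500135600378920165712796336522240 (by decide +kernel)
        (CovZ.n1 (-14784, 29376) (by decide +kernel)
         (CovZ.n2 (-14784, 29184) (by decide +kernel)
          (CovZ.n2 (-14880, 29280) (by decide +kernel)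
           (CovZ.n2 (-14784, 29280) (by decide +kernel)
            (CovZ.leaf K2_ok TB_l36437 _)
            (CovZ.leaf K2_ok TB_l36438 _))
           (CovZ.n1 (-14880, 29184) (by decide +kernel)
            (CovZ.leaf K2_ok TB_l36439 _)
            (CovZ.leaf K2_ok TB_l36440 _)))
          (CovZ.n1 (-14688, 29280) (by decide +kernel)
           (CovZ.n2 (-14688, 29184) (by decide +kernel)
            (CovZ.leaf K2_ok TB_l36441 _)
            (CovZ.n1 (-14640, 29232) (by decide +kernel)
             (CovZ.leaf K2_ok TB_l36442 _)
             (CovZ.leaf K2_ok TB_l36443 _)))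
           (CovZ.n1 (-14784, 29280) (by decide +kernel)
            (CovZ.leaf K2_ok TB_l36444 _)
            (CovZ.leaf K2_ok TB_l36445 _))))
         (CovZ.n1 (-14976, 29376) (by decide +kernel)
          (CovZ.n2 (-14880, 29472) (by decide +kernel)
           (CovZ.n2 (-14880, 29376) (by decide +kernel)
            (CovZ.leaf K2_ok TB_l36446 _)
            (CovZ.leaf K2_ok TB_l36447 _))
           (CovZ.n1 (-14976, 29472) (by decide +kernel)
            (CovZ.leaf K2_ok TB_l36448 _)
            (CovZ.n1 (-14928, 29424) (by decide +kernel)
             (CovZ.n2 (-14976, 29424) (by decide +kernel)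
              (CovZ.leaf K2_ok TB_l36449 _)
              (CovZ.leaf K2_ok TB_l36450 _))
             (CovZ.leaf K2_ok TB_l36451 _))))
          (CovZ.n1 (-14880, 29280) (by decide +kernel)
           (CovZ.leaf K2_ok TB_l36452 _)
           (CovZ.n1 (-14880, 29376) (by decide +kernel)
            (CovZ.leaf K2_ok TB_l36453 _)
            (CovZ.leaf K2_ok TB_l36454 _))))))))
     (CovZ.subM 293567822846729155523718374169563001332561389271064965729980221258260417694060925504514829934560658717672448 (by decide +kernel)
      (CovZ.n1 (-14208, 29568) (by decide +kernel)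
       (CovZ.n2 (-14208, 29184) (by decide +kernel)
        TB_u516
        TB_u517)
       (CovZ.n1 (-14592, 29568) (by decide +kernel)
        TB_u518
        TB_u519))))))
    (CovZ.topM TB_LL 195874407622960323963722587719003260573162483841588599958690217972277060244168550502204945972609966841577836918206336154578884170319721922626561 (by decide +kernel) (CovZ.n0 (-14592, 29952) (by decide +kernel)
    (CovZ.n2 (-15360, 29952) (by decide +kernel)
     TB_u520
     TB_u521)
    (CovZ.subM 293567822846729155523718374169563001332561389271064965729980221258260407724850957117646963712725526914335745 (by decide +kernel)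
     (CovZ.n1 (-14592, 30720) (by decide +kernel)
      (CovZ.subM 293567822846729155523718374169563001332561389271064965729980221258260407060236959225187846632046582436987904 (by decide +kernel)
       (CovZ.n2 (-14208, 30336) (by decide +kernel)
        (CovZ.n2 (-14592, 30336) (by decide +kernel)
         TB_u522
         TB_u523)
        (CovZ.n1 (-14208, 30720) (by decide +kernel)
         (CovZ.badM (by decide +kernel))
         (CovZ.n1 (-14400, 30528) (by decide +kernel)
          (CovZ.n2 (-14400, 30720) (by decide +kernel)
           (CovZ.badM (by decide +kernel))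
           (CovZ.n1 (-14496, 30624) (by decide +kernel)
            (CovZ.n2 (-14496, 30720) (by decide +kernel)
             (CovZ.subM 9444732965739290427392 (by decide +kernel)
              (CovZ.n2 (-14448, 30672) (by decide +kernel)
               (CovZ.n2 (-14496, 30672) (by decide +kernel)
                (CovZ.leaf K2_ok TB_l48011 _)
                (CovZ.n1 (-14472, 30648) (by decide +kernel)
                 (CovZ.leaf K2_ok TB_l48012 _)
                 (CovZ.leaf K2_ok TB_l48013 _)))
               (CovZ.n1 (-14448, 30720) (by decide +kernel)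
                (CovZ.badM (by decide +kernel))
                (CovZ.leaf K2_ok TB_l48014 _))))
             (CovZ.n1 (-14544, 30672) (by decide +kernel)
              (CovZ.n2 (-14544, 30720) (by decide +kernel)
               (CovZ.leaf K2_ok TB_l48015 _)
               (CovZ.leaf K2_ok TB_l36655 _))
              (CovZ.n1 (-14496, 30672) (by decide +kernel)
               (CovZ.leaf K2_ok TB_l48016 _)
               (CovZ.leaf K2_ok TB_l48017 _))))
            (CovZ.subM 9444732965739290427392 (by decide +kernel)
             (CovZ.n1 (-14400, 30624) (by decide +kernel)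
              (CovZ.n2 (-14448, 30576) (by decide +kernel)
               (CovZ.n2 (-14448, 30624) (by decide +kernel)
                (CovZ.badM (by decide +kernel))
                (CovZ.leaf K2_ok TB_l48018 _))
               (CovZ.badM (by decide +kernel)))
              (CovZ.n1 (-14448, 30672) (by decide +kernel)
               (CovZ.badM (by decide +kernel))
               (CovZ.n1 (-14448, 30624) (by decide +kernel)
                (CovZ.leaf K2_ok TB_l48019 _)
                (CovZ.badM (by decide +kernel))))))))
          (CovZ.badM (by decide +kernel))))))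
      (CovZ.n1 (-14976, 30336) (by decide +kernel)
       TB_u524
       TB_u525)))))

theorem TB_s12_22 : SqZ TB_M TB_L [0, 7, 6, 1] (-32256) (-4608) 1536 12 22 :=
  SqZ.mk (a := (-13824)) (b := (-12288)) (c := 29184) (d := 30720) (by norm_num) (by norm_num) (by norm_num) (by norm_num)
    (CovZ.topM TB_LL 0 (by decide +kernel) (CovZ.badM (by decide +kernel)))
    (CovZ.topM TB_LL 0 (by decide +kernel) (CovZ.badM (by decide +kernel)))

theorem TB_s0_23 : SqZ TB_M TB_L [0, 7, 6, 1] (-32256) (-4608) 1536 0 23 :=
  SqZ.mk (a := (-32256)) (b := (-30720)) (c := 30720) (d := 32256) (by norm_num) (by norm_num) (by norm_num) (by norm_num)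
    (CovZ.topM TB_LL 2353129859973906143154175441529284225823720636258563057311064562201646888730119284886260675824942078871207936 (by decide +kernel) (CovZ.leaf K2_ok TB_l1857 _))
    (CovZ.topM TB_LL 2353129859973906143154175441529284225823720636258563057311064562201646888730119284886260675824942078871207936 (by decide +kernel) (CovZ.leaf K2_ok TB_l1858 _))

theorem TB_s1_23 : SqZ TB_M TB_L [0, 7, 6, 1] (-32256) (-4608) 1536 1 23 :=
  SqZ.mk (a := (-30720)) (b := (-29184)) (c := 30720) (d := 32256) (by norm_num) (by norm_num) (by norm_num) (by norm_num)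
    (CovZ.topM TB_LL 5043456795491623199145623275972558008579490852443297809755944613054516948958865054560048546623859907511181296595369984 (by decide +kernel) (CovZ.leaf K2_ok TB_l5001 _))
    (CovZ.topM TB_LL 5043456795491623199145623275972558008579490852443297809755944613054516948958865054560048546623859907511181296595369984 (by decide +kernel) (CovZ.leaf K2_ok TB_l5002 _))

theorem TB_s2_23 : SqZ TB_M TB_L [0, 7, 6, 1] (-32256) (-4608) 1536 2 23 :=
  SqZ.mk (a := (-29184)) (b := (-27648)) (c := 30720) (d := 32256) (by norm_num) (by norm_num) (by norm_num) (by norm_num)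
    (CovZ.topM TB_LL 5043456793138493339171717132834328964652041523698219635926264656343733324316518645163976051077084924416754786808102912 (by decide +kernel) (CovZ.leaf K2_ok TB_l8292 _))
    (CovZ.topM TB_LL 5043456793138493339171717132834328964652041523698219635926264656343733324316518645163976051077084924416754786808102912 (by decide +kernel) (CovZ.leaf K2_ok TB_l8293 _))

theorem TB_s3_23 : SqZ TB_M TB_L [0, 7, 6, 1] (-32256) (-4608) 1536 3 23 :=
  SqZ.mk (a := (-27648)) (b := (-26112)) (c := 30720) (d := 32256) (by norm_num) (by norm_num) (by norm_num) (by norm_num)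
    (CovZ.topM TB_LL 5043456793138493409163740325890678490535391066932433103450881491608005896667886977445133152830331249669272369090527360 (by decide +kernel) (CovZ.leaf K2_ok TB_l11625 _))
    (CovZ.topM TB_LL 5043456793138493409163740325890678490535391066932433103450881491608005896667886977445133152830331249669272369090527232 (by decide +kernel) (CovZ.leaf K2_ok TB_l11626 _))

theorem TB_s4_23 : SqZ TB_M TB_L [0, 7, 6, 1] (-32256) (-4608) 1536 4 23 :=
  SqZ.mk (a := (-26112)) (b := (-24576)) (c := 30720) (d := 32256) (by norm_num) (by norm_num) (by norm_num) (by norm_num)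
    (CovZ.topM TB_LL 631663411835949099859883151205914022257904644374446960892027670799798706760137269538072325248303414314334467127509124 (by decide +kernel) (CovZ.leaf K2_ok TB_l13842 _))
    (CovZ.topM TB_LL 631663411835949064863871554677723232297869010492505115241316776508399723947807566978824338058288642738123634758647940 (by decide +kernel) (CovZ.n0 (-25344, 31488) (by decide +kernel)
    (CovZ.leaf K2_ok TB_l13843 _)
    (CovZ.n1 (-25344, 32256) (by decide +kernel)
     (CovZ.leaf K2_ok TB_l13844 _)
     (CovZ.leaf K2_ok TB_l13845 _))))

theorem TB_s5_23 : SqZ TB_M TB_L [0, 7, 6, 1] (-32256) (-4608) 1536 5 23 :=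
  SqZ.mk (a := (-24576)) (b := (-23040)) (c := 30720) (d := 32256) (by norm_num) (by norm_num) (by norm_num) (by norm_num)
    (CovZ.topM TB_LL 631663411835949112983387499888071224927804834531202921070342850772881540782390587852120548765220532854307737240338564 (by decide +kernel) (CovZ.n2 (-23808, 31488) (by decide +kernel)
    (CovZ.n2 (-23040, 31488) (by decide +kernel)
     (CovZ.leaf K2_ok TB_l15593 _)
     (CovZ.leaf K2_ok TB_l15594 _))
    (CovZ.leaf K2_ok TB_l15595 _)))
    (CovZ.topM TB_LL 631663411835949104234384600756023527437795926060717459657665127200031795079308162212308551967716839960255029148123268 (by decide +kernel) (CovZ.n0 (-23808, 31488) (by decide +kernel)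
    (CovZ.leaf K2_ok TB_l15596 _)
    (CovZ.n1 (-23808, 32256) (by decide +kernel)
     (CovZ.n2 (-23424, 31872) (by decide +kernel)
      (CovZ.leaf K2_ok TB_l15597 _)
      (CovZ.leaf K2_ok TB_l15598 _))
     (CovZ.leaf K2_ok TB_l15599 _))))

theorem TB_s6_23 : SqZ TB_M TB_L [0, 7, 6, 1] (-32256) (-4608) 1536 6 23 :=
  SqZ.mk (a := (-23040)) (b := (-21504)) (c := 30720) (d := 32256) (by norm_num) (by norm_num) (by norm_num) (by norm_num)
    (CovZ.topM TB_LL 631663411835949112997621850994637914773765408869973451959062436379648946498048361258456378233662154764210212947918980 (by decide +kernel) (CovZ.n2 (-22272, 31488) (by decide +kernel)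
    (CovZ.n2 (-21504, 31488) (by decide +kernel)
     (CovZ.leaf K2_ok TB_l18670 _)
     (CovZ.n1 (-21888, 31872) (by decide +kernel)
      (CovZ.leaf K2_ok TB_l18671 _)
      (CovZ.leaf K2_ok TB_l18672 _)))
    (CovZ.leaf K2_ok TB_l18673 _)))
    (CovZ.topM TB_LL 631663411835949112997621850994637914773765408869973451959062436379648855154196028077023990503360109996521484452135044 (by decide +kernel) (CovZ.n0 (-22272, 31488) (by decide +kernel)
    (CovZ.n2 (-23040, 31488) (by decide +kernel)
     (CovZ.leaf K2_ok TB_l18674 _)
     (CovZ.leaf K2_ok TB_l18675 _))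
    (CovZ.n1 (-22272, 32256) (by decide +kernel)
     (CovZ.n2 (-21888, 31872) (by decide +kernel)
      (CovZ.leaf K2_ok TB_l18676 _)
      (CovZ.n1 (-21888, 32256) (by decide +kernel)
       (CovZ.leaf K2_ok TB_l18677 _)
       (CovZ.leaf K2_ok TB_l18678 _)))
     (CovZ.n1 (-22656, 31872) (by decide +kernel)
      (CovZ.leaf K2_ok TB_l18679 _)
      (CovZ.leaf K2_ok TB_l18680 _)))))

theorem TB_s7_23 : SqZ TB_M TB_L [0, 7, 6, 1] (-32256) (-4608) 1536 7 23 :=
  SqZ.mk (a := (-21504)) (b := (-19968)) (c := 30720) (d := 32256) (by norm_num) (by norm_num) (by norm_num) (by norm_num)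
    (CovZ.topM TB_LL 1231312693637445595466936799759529783218614208958040938939246856528444869390417745643588036274390675108586376429568 (by decide +kernel) (CovZ.n2 (-20736, 31488) (by decide +kernel)
    (CovZ.n2 (-19968, 31488) (by decide +kernel)
     (CovZ.n2 (-20352, 31104) (by decide +kernel)
      (CovZ.leaf K2_ok TB_l19625 _)
      (CovZ.leaf K2_ok TB_l19626 _))
     (CovZ.n1 (-20352, 31872) (by decide +kernel)
      (CovZ.n2 (-19968, 31872) (by decide +kernel)
       (CovZ.leaf K2_ok TB_l19627 _)
       (CovZ.leaf K2_ok TB_l19628 _))
      (CovZ.leaf K2_ok TB_l19629 _)))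
    (CovZ.n1 (-20736, 30720) (by decide +kernel)
     (CovZ.leaf K2_ok TB_l19630 _)
     (CovZ.leaf K2_ok TB_l19631 _))))
    (CovZ.topM TB_LL 1231312693637445595466936799759529783218614208958040938939246856528444869390417745643588036274390675108586376429568 (by decide +kernel) (CovZ.n0 (-20736, 31488) (by decide +kernel)
    (CovZ.n2 (-21504, 31488) (by decide +kernel)
     (CovZ.leaf K2_ok TB_l19632 _)
     (CovZ.n1 (-21120, 31104) (by decide +kernel)
      (CovZ.leaf K2_ok TB_l19633 _)
      (CovZ.leaf K2_ok TB_l19634 _)))
    (CovZ.n1 (-20736, 32256) (by decide +kernel)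
     (CovZ.subM 48119516075596564821602158517768194095969929786944651275542098130934474776650760412581775934964662272 (by decide +kernel)
      (CovZ.n2 (-20352, 31872) (by decide +kernel)
       (CovZ.n2 (-20736, 31872) (by decide +kernel)
        (CovZ.leaf K2_ok TB_l19635 _)
        (CovZ.leaf K2_ok TB_l19636 _))
       (CovZ.n1 (-20352, 32256) (by decide +kernel)
        (CovZ.n2 (-20160, 32064) (by decide +kernel)
         (CovZ.leaf K2_ok TB_l19637 _)
         (CovZ.n1 (-20160, 32256) (by decide +kernel)
          (CovZ.leaf K2_ok TB_l19638 _)
          (CovZ.leaf K2_ok TB_l19639 _)))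
        (CovZ.n1 (-20544, 32064) (by decide +kernel)
         (CovZ.leaf K2_ok TB_l19640 _)
         (CovZ.leaf K2_ok TB_l19641 _)))))
     (CovZ.n1 (-21120, 31872) (by decide +kernel)
      (CovZ.n2 (-21120, 32256) (by decide +kernel)
       (CovZ.leaf K2_ok TB_l19642 _)
       (CovZ.leaf K2_ok TB_l19643 _))
      (CovZ.n1 (-20736, 31872) (by decide +kernel)
       (CovZ.leaf K2_ok TB_l19644 _)
       (CovZ.leaf K2_ok TB_l19645 _))))))

theorem TB_s8_23 : SqZ TB_M TB_L [0, 7, 6, 1] (-32256) (-4608) 1536 8 23 :=
  SqZ.mk (a := (-19968)) (b := (-18432)) (c := 30720) (d := 32256) (by norm_num) (by norm_num) (by norm_num) (by norm_num)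
    (CovZ.topM TB_LL 34996011726898493275367145268140678049667510294916416681698296762420740076102407058123784992011091969 (by decide +kernel) (CovZ.n2 (-19200, 31488) (by decide +kernel)
    (CovZ.n2 (-18432, 31488) (by decide +kernel)
     (CovZ.n2 (-18816, 31104) (by decide +kernel)
      (CovZ.n2 (-18816, 31488) (by decide +kernel)
       (CovZ.n2 (-18624, 31296) (by decide +kernel)
        (CovZ.leaf K2_ok TB_l20568 _)
        (CovZ.leaf K2_ok TB_l20569 _))
       (CovZ.leaf K2_ok TB_l20570 _))
      (CovZ.n1 (-18432, 31104) (by decide +kernel)
       (CovZ.leaf K2_ok TB_l20571 _)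
       (CovZ.leaf K2_ok TB_l20572 _)))
     (CovZ.n1 (-18816, 31872) (by decide +kernel)
      (CovZ.subM 34996011726898493275367145155062465903850913201585376177432250083554608737411283514502544465726570496 (by decide +kernel)
       (CovZ.n2 (-18432, 31872) (by decide +kernel)
        (CovZ.n2 (-18624, 31680) (by decide +kernel)
         (CovZ.n2 (-18624, 31872) (by decide +kernel)
          (CovZ.leaf K2_ok TB_l20573 _)
          (CovZ.leaf K2_ok TB_l20574 _))
         (CovZ.leaf K2_ok TB_l20575 _))
        (CovZ.subM 34996011596528190789960035633881941845650710894291398982812329702559247987190015953356781851408072704 (by decide +kernel)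
         (CovZ.n1 (-18624, 32064) (by decide +kernel)
          (CovZ.n2 (-18432, 32064) (by decide +kernel)
           (CovZ.n2 (-18528, 31968) (by decide +kernel)
            (CovZ.n2 (-18528, 32064) (by decide +kernel)
             (CovZ.leaf K2_ok TB_l20576 _)
             (CovZ.leaf K2_ok TB_l20577 _))
            (CovZ.leaf K2_ok TB_l20578 _))
           (CovZ.n1 (-18528, 32160) (by decide +kernel)
            (CovZ.n2 (-18432, 32160) (by decide +kernel)
             (CovZ.leaf K2_ok TB_l20579 _)
             (CovZ.leaf K2_ok TB_l20580 _))
            (CovZ.leaf K2_ok TB_l20581 _)))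
          (CovZ.leaf K2_ok TB_l20582 _)))))
      (CovZ.leaf K2_ok TB_l20583 _)))
    (CovZ.n1 (-19200, 30720) (by decide +kernel)
     (CovZ.n2 (-19584, 31104) (by decide +kernel)
      (CovZ.leaf K2_ok TB_l20584 _)
      (CovZ.leaf K2_ok TB_l20585 _))
     (CovZ.n1 (-18816, 31104) (by decide +kernel)
      (CovZ.leaf K2_ok TB_l20586 _)
      (CovZ.leaf K2_ok TB_l20587 _)))))
    (CovZ.topM TB_LL 34996011726898493275367145268140678049667510294916416681698296762420740076102407058123784992011091969 (by decide +kernel) (CovZ.n0 (-19200, 31488) (by decide +kernel)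
    (CovZ.n2 (-19968, 31488) (by decide +kernel)
     (CovZ.n2 (-19584, 31872) (by decide +kernel)
      (CovZ.leaf K2_ok TB_l20588 _)
      (CovZ.n1 (-19968, 31872) (by decide +kernel)
       (CovZ.leaf K2_ok TB_l20589 _)
       (CovZ.leaf K2_ok TB_l20590 _)))
     (CovZ.n1 (-19584, 31104) (by decide +kernel)
      (CovZ.leaf K2_ok TB_l20591 _)
      (CovZ.n1 (-19584, 31488) (by decide +kernel)
       (CovZ.leaf K2_ok TB_l20592 _)
       (CovZ.leaf K2_ok TB_l20593 _))))
    (CovZ.n1 (-19200, 32256) (by decide +kernel)
     (CovZ.n2 (-18816, 31872) (by decide +kernel)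
      (CovZ.subM 34996011726898493275367145155062465903850913201585376177432249743272236745870419138210331047145537536 (by decide +kernel)
       (CovZ.n2 (-19200, 31872) (by decide +kernel)
        (CovZ.n2 (-19008, 32064) (by decide +kernel)
         (CovZ.leaf K2_ok TB_l20594 _)
         (CovZ.n1 (-19200, 32064) (by decide +kernel)
          (CovZ.leaf K2_ok TB_l20595 _)
          (CovZ.leaf K2_ok TB_l20596 _)))
        (CovZ.n1 (-19008, 31680) (by decide +kernel)
         (CovZ.leaf K2_ok TB_l20597 _)
         (CovZ.n1 (-19008, 31872) (by decide +kernel)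
          (CovZ.leaf K2_ok TB_l20598 _)
          (CovZ.leaf K2_ok TB_l20599 _)))))
      (CovZ.subM 34996011596528190789960035633881941845650710894291398982812329702559247987190015953356781851408072704 (by decide +kernel)
       (CovZ.n1 (-18816, 32256) (by decide +kernel)
        (CovZ.n2 (-18624, 32064) (by decide +kernel)
         (CovZ.n2 (-18816, 32064) (by decide +kernel)
          (CovZ.leaf K2_ok TB_l20600 _)
          (CovZ.n1 (-18720, 31968) (by decide +kernel)
           (CovZ.leaf K2_ok TB_l20601 _)
           (CovZ.leaf K2_ok TB_l20602 _)))
         (CovZ.n1 (-18624, 32256) (by decide +kernel)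
          (CovZ.n2 (-18528, 32160) (by decide +kernel)
           (CovZ.leaf K2_ok TB_l20603 _)
           (CovZ.n1 (-18528, 32256) (by decide +kernel)
            (CovZ.n2 (-18480, 32208) (by decide +kernel)
             (CovZ.leaf K2_ok TB_l20604 _)
             (CovZ.leaf K2_ok TB_l20605 _))
            (CovZ.leaf K2_ok TB_l20606 _)))
          (CovZ.n1 (-18720, 32160) (by decide +kernel)
           (CovZ.n2 (-18720, 32256) (by decide +kernel)
            (CovZ.leaf K2_ok TB_l20607 _)
            (CovZ.leaf K2_ok TB_l20608 _))
           (CovZ.leaf K2_ok TB_l20609 _))))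
        (CovZ.n1 (-19008, 32064) (by decide +kernel)
         (CovZ.n2 (-19008, 32256) (by decide +kernel)
          (CovZ.n2 (-18912, 32160) (by decide +kernel)
           (CovZ.leaf K2_ok TB_l20610 _)
           (CovZ.n1 (-18912, 32256) (by decide +kernel)
            (CovZ.leaf K2_ok TB_l20611 _)
            (CovZ.leaf K2_ok TB_l20612 _)))
          (CovZ.n1 (-19104, 32160) (by decide +kernel)
           (CovZ.leaf K2_ok TB_l20613 _)
           (CovZ.leaf K2_ok TB_l20614 _)))
         (CovZ.n1 (-18816, 32064) (by decide +kernel)
          (CovZ.leaf K2_ok TB_l20615 _)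
          (CovZ.n1 (-18912, 32160) (by decide +kernel)
           (CovZ.leaf K2_ok TB_l20616 _)
           (CovZ.leaf K2_ok TB_l20617 _)))))))
     (CovZ.n1 (-19584, 31872) (by decide +kernel)
      (CovZ.subM 34996011596528190789960035633881941845650710894291399074156182035740680374920317998124470580981792768 (by decide +kernel)
       (CovZ.n2 (-19584, 32256) (by decide +kernel)
        (CovZ.n2 (-19392, 32064) (by decide +kernel)
         (CovZ.leaf K2_ok TB_l20618 _)
         (CovZ.n1 (-19392, 32256) (by decide +kernel)
          (CovZ.n2 (-19296, 32160) (by decide +kernel)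
           (CovZ.leaf K2_ok TB_l20619 _)
           (CovZ.leaf K2_ok TB_l20620 _))
          (CovZ.leaf K2_ok TB_l20621 _)))
        (CovZ.n1 (-19776, 32064) (by decide +kernel)
         (CovZ.n2 (-19776, 32256) (by decide +kernel)
          (CovZ.leaf K2_ok TB_l20622 _)
          (CovZ.leaf K2_ok TB_l20623 _))
         (CovZ.leaf K2_ok TB_l20624 _))))
      (CovZ.subM 34996011726898493275367145155062465903850913201585376177432249743272236745870419138210331047145537536 (by decide +kernel)
       (CovZ.n1 (-19200, 31872) (by decide +kernel)
        (CovZ.n2 (-19392, 31680) (by decide +kernel)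
         (CovZ.leaf K2_ok TB_l20625 _)
         (CovZ.leaf K2_ok TB_l20626 _))
        (CovZ.n1 (-19392, 32064) (by decide +kernel)
         (CovZ.n2 (-19200, 32064) (by decide +kernel)
          (CovZ.leaf K2_ok TB_l20627 _)
          (CovZ.leaf K2_ok TB_l20628 _))
         (CovZ.leaf K2_ok TB_l20629 _))))))))

theorem TB_s9_23 : SqZ TB_M TB_L [0, 7, 6, 1] (-32256) (-4608) 1536 9 23 :=
  SqZ.mk (a := (-18432)) (b := (-16896)) (c := 30720) (d := 32256) (by norm_num) (by norm_num) (by norm_num) (by norm_num)
    (CovZ.topM TB_LL 2405201172618247966239212809462246928429703280216595193965416606820588332570968821274085285521894146295365468161 (by decide +kernel) (CovZ.n2 (-17664, 31488) (by decide +kernel)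
    (CovZ.n2 (-16896, 31488) (by decide +kernel)
     (CovZ.n2 (-17280, 31104) (by decide +kernel)
      (CovZ.n2 (-17280, 31488) (by decide +kernel)
       (CovZ.n2 (-17088, 31296) (by decide +kernel)
        (CovZ.leaf K2_ok TB_l23697 _)
        (CovZ.n1 (-17088, 31488) (by decide +kernel)
         (CovZ.n2 (-16992, 31392) (by decide +kernel)
          (CovZ.leaf K2_ok TB_l23698 _)
          (CovZ.n1 (-16992, 31488) (by decide +kernel)
           (CovZ.leaf K2_ok TB_l23699 _)
           (CovZ.leaf K2_ok TB_l23700 _)))
         (CovZ.n1 (-17184, 31392) (by decide +kernel)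
          (CovZ.leaf K2_ok TB_l23701 _)
          (CovZ.leaf K2_ok TB_l23702 _))))
       (CovZ.n1 (-17472, 31296) (by decide +kernel)
        (CovZ.n2 (-17472, 31488) (by decide +kernel)
         (CovZ.leaf K2_ok TB_l23703 _)
         (CovZ.leaf K2_ok TB_l23704 _))
        (CovZ.leaf K2_ok TB_l23705 _)))
      (CovZ.n1 (-16896, 31104) (by decide +kernel)
       (CovZ.n2 (-17088, 30912) (by decide +kernel)
        (CovZ.n2 (-17088, 31104) (by decide +kernel)
         (CovZ.leaf K2_ok TB_l23706 _)
         (CovZ.leaf K2_ok TB_l23707 _))
        (CovZ.leaf K2_ok TB_l23708 _))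
       (CovZ.n1 (-17088, 31296) (by decide +kernel)
        (CovZ.n2 (-16896, 31296) (by decide +kernel)
         (CovZ.leaf K2_ok TB_l23709 _)
         (CovZ.leaf K2_ok TB_l23710 _))
        (CovZ.leaf K2_ok TB_l23711 _))))
     (CovZ.n1 (-17280, 31872) (by decide +kernel)
      (CovZ.n2 (-16896, 31872) (by decide +kernel)
       (CovZ.n2 (-17088, 31680) (by decide +kernel)
        (CovZ.subM 293567822846729283856487560005776650044196143008338373528212941247175797809190859089413718163246859721670656 (by decide +kernel)
         (CovZ.n2 (-17088, 31872) (by decide +kernel)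
          (CovZ.n2 (-16992, 31776) (by decide +kernel)
           (CovZ.n2 (-17088, 31776) (by decide +kernel)
            (CovZ.n2 (-17040, 31824) (by decide +kernel)
             (CovZ.leaf K2_ok TB_l23712 _)
             (CovZ.n1 (-17088, 31824) (by decide +kernel)
              (CovZ.leaf K2_ok TB_l23713 _)
              (CovZ.leaf K2_ok TB_l23714 _)))
            (CovZ.n1 (-17040, 31728) (by decide +kernel)
             (CovZ.leaf K2_ok TB_l23715 _)
             (CovZ.n1 (-17040, 31776) (by decide +kernel)
              (CovZ.leaf K2_ok TB_l23716 _)
              (CovZ.leaf K2_ok TB_l23717 _))))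
           (CovZ.n1 (-16992, 31872) (by decide +kernel)
            (CovZ.n2 (-16944, 31824) (by decide +kernel)
             (CovZ.n2 (-16992, 31824) (by decide +kernel)
              (CovZ.n2 (-16968, 31848) (by decide +kernel)
               (CovZ.leaf K2_ok TB_l42407 _)
               (CovZ.leaf K2_ok TB_l42408 _))
              (CovZ.n1 (-16968, 31800) (by decide +kernel)
               (CovZ.leaf K2_ok TB_l23718 _)
               (CovZ.leaf K2_ok TB_l23719 _)))
             (CovZ.subM 441711766194596082395824375185729628956870974218904739530401550323154944 (by decide +kernel)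
              (CovZ.n1 (-16944, 31872) (by decide +kernel)
               (CovZ.badM (by decide +kernel))
               (CovZ.n1 (-16968, 31848) (by decide +kernel)
                (CovZ.n2 (-16968, 31872) (by decide +kernel)
                 (CovZ.badM (by decide +kernel))
                 (CovZ.leaf K2_ok TB_l42409 _))
                (CovZ.badM (by decide +kernel))))))
            (CovZ.n1 (-17040, 31824) (by decide +kernel)
             (CovZ.subM 441711766194596082395824375185729628956870974218904739530401550323154944 (by decide +kernel)
              (CovZ.n2 (-17040, 31872) (by decide +kernel)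
               (CovZ.n2 (-17016, 31848) (by decide +kernel)
                (CovZ.leaf K2_ok TB_l23720 _)
                (CovZ.n1 (-17016, 31872) (by decide +kernel)
                 (CovZ.leaf K2_ok TB_l42410 _)
                 (CovZ.leaf K2_ok TB_l42411 _)))
               (CovZ.n1 (-17064, 31848) (by decide +kernel)
                (CovZ.badM (by decide +kernel))
                (CovZ.leaf K2_ok TB_l23721 _))))
             (CovZ.n1 (-16992, 31824) (by decide +kernel)
              (CovZ.leaf K2_ok TB_l23722 _)
              (CovZ.n1 (-17016, 31848) (by decide +kernel)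
               (CovZ.leaf K2_ok TB_l42412 _)
               (CovZ.leaf K2_ok TB_l23723 _))))))
          (CovZ.n1 (-17184, 31776) (by decide +kernel)
           (CovZ.subM 293567822846729283856487560005776649602484376813742291132388566061446168852314814113365560804566788223303680 (by decide +kernel)
            (CovZ.n2 (-17184, 31872) (by decide +kernel)
             (CovZ.n2 (-17136, 31824) (by decide +kernel)
              (CovZ.leaf K2_ok TB_l23724 _)
              (CovZ.n1 (-17136, 31872) (by decide +kernel)
               (CovZ.n2 (-17112, 31848) (by decide +kernel)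
                (CovZ.leaf K2_ok TB_l23725 _)
                (CovZ.badM (by decide +kernel)))
               (CovZ.n1 (-17160, 31848) (by decide +kernel)
                (CovZ.badM (by decide +kernel))
                (CovZ.leaf K2_ok TB_l23726 _))))
             (CovZ.n1 (-17232, 31824) (by decide +kernel)
              (CovZ.n2 (-17232, 31872) (by decide +kernel)
               (CovZ.leaf K2_ok TB_l23727 _)
               (CovZ.leaf K2_ok TB_l23728 _))
              (CovZ.leaf K2_ok TB_l23729 _))))
           (CovZ.n1 (-17088, 31776) (by decide +kernel)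
            (CovZ.n2 (-17136, 31728) (by decide +kernel)
             (CovZ.leaf K2_ok TB_l23730 _)
             (CovZ.leaf K2_ok TB_l23731 _))
            (CovZ.n1 (-17136, 31824) (by decide +kernel)
             (CovZ.n2 (-17088, 31824) (by decide +kernel)
              (CovZ.leaf K2_ok TB_l23732 _)
              (CovZ.leaf K2_ok TB_l23733 _))
             (CovZ.leaf K2_ok TB_l23734 _))))))
        (CovZ.n1 (-16896, 31680) (by decide +kernel)
         (CovZ.n2 (-16992, 31584) (by decide +kernel)
          (CovZ.n2 (-16992, 31680) (by decide +kernel)
           (CovZ.n2 (-16944, 31632) (by decide +kernel)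
            (CovZ.leaf K2_ok TB_l23735 _)
            (CovZ.leaf K2_ok TB_l23736 _))
           (CovZ.leaf K2_ok TB_l23737 _))
          (CovZ.n1 (-16896, 31584) (by decide +kernel)
           (CovZ.leaf K2_ok TB_l23738 _)
           (CovZ.leaf K2_ok TB_l23739 _)))
         (CovZ.subM 2405201172583251954642684618672286892682743126225127885977794167790229217515168236965917188064166398764423086080 (by decide +kernel)
          (CovZ.n1 (-16992, 31776) (by decide +kernel)
           (CovZ.n2 (-16896, 31776) (by decide +kernel)
            (CovZ.n2 (-16944, 31728) (by decide +kernel)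
             (CovZ.n2 (-16944, 31776) (by decide +kernel)
              (CovZ.leaf K2_ok TB_l23740 _)
              (CovZ.leaf K2_ok TB_l23741 _))
             (CovZ.leaf K2_ok TB_l23742 _))
            (CovZ.n1 (-16944, 31824) (by decide +kernel)
             (CovZ.n2 (-16896, 31824) (by decide +kernel)
              (CovZ.n2 (-16920, 31800) (by decide +kernel)
               (CovZ.n2 (-16920, 31824) (by decide +kernel)
                (CovZ.leaf K2_ok TB_l23743 _)
                (CovZ.leaf K2_ok TB_l23744 _))
               (CovZ.leaf K2_ok TB_l23745 _))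
              (CovZ.badM (by decide +kernel)))
             (CovZ.leaf K2_ok TB_l23746 _)))
           (CovZ.n1 (-16992, 31680) (by decide +kernel)
            (CovZ.n2 (-17040, 31728) (by decide +kernel)
             (CovZ.leaf K2_ok TB_l23747 _)
             (CovZ.leaf K2_ok TB_l23748 _))
            (CovZ.leaf K2_ok TB_l23749 _))))))
       (CovZ.subM 293567822846729153486185074598667128863672084808136066234235746627255757096197029806609619239170172564537344 (by decide +kernel)
        (CovZ.n1 (-17088, 32064) (by decide +kernel)
         (CovZ.n2 (-16896, 32064) (by decide +kernel)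
          (CovZ.n2 (-16992, 31968) (by decide +kernel)
           (CovZ.badM (by decide +kernel))
           (CovZ.n1 (-16896, 31968) (by decide +kernel)
            (CovZ.n2 (-16944, 31920) (by decide +kernel)
             (CovZ.badM (by decide +kernel))
             (CovZ.badM (by decide +kernel)))
            (CovZ.badM (by decide +kernel))))
          (CovZ.badM (by decide +kernel)))
         (CovZ.n1 (-17088, 31872) (by decide +kernel)
          (CovZ.n2 (-17184, 31968) (by decide +kernel)
           (CovZ.badM (by decide +kernel))
           (CovZ.n1 (-17184, 31872) (by decide +kernel)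
            (CovZ.n2 (-17232, 31920) (by decide +kernel)
             (CovZ.badM (by decide +kernel))
             (CovZ.leaf K2_ok TB_l23750 _))
            (CovZ.badM (by decide +kernel))))
          (CovZ.n1 (-16992, 31968) (by decide +kernel)
           (CovZ.n2 (-16992, 31872) (by decide +kernel)
            (CovZ.badM (by decide +kernel))
            (CovZ.n1 (-16944, 31920) (by decide +kernel)
             (CovZ.n2 (-16944, 31872) (by decide +kernel)
              (CovZ.n2 (-16968, 31896) (by decide +kernel)
               (CovZ.badM (by decide +kernel))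
               (CovZ.leaf K2_ok TB_l42413 _))
              (CovZ.badM (by decide +kernel)))
             (CovZ.badM (by decide +kernel))))
           (CovZ.badM (by decide +kernel)))))))
      (CovZ.n1 (-17280, 31488) (by decide +kernel)
       (CovZ.subM 2405201172583251954642684618672286892682743126225127885977794167790229217855450603886700910203257983176259174400 (by decide +kernel)
        (CovZ.n2 (-17472, 31680) (by decide +kernel)
         (CovZ.n2 (-17280, 31680) (by decide +kernel)
          (CovZ.n2 (-17376, 31584) (by decide +kernel)
           (CovZ.n2 (-17376, 31680) (by decide +kernel)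
            (CovZ.leaf K2_ok TB_l23751 _)
            (CovZ.leaf K2_ok TB_l23752 _))
           (CovZ.leaf K2_ok TB_l23753 _))
          (CovZ.n1 (-17376, 31776) (by decide +kernel)
           (CovZ.n2 (-17280, 31776) (by decide +kernel)
            (CovZ.leaf K2_ok TB_l23754 _)
            (CovZ.leaf K2_ok TB_l23755 _))
           (CovZ.leaf K2_ok TB_l23756 _)))
         (CovZ.leaf K2_ok TB_l23757 _)))
       (CovZ.n1 (-17088, 31680) (by decide +kernel)
        (CovZ.n2 (-17088, 31488) (by decide +kernel)
         (CovZ.n2 (-17184, 31584) (by decide +kernel)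
          (CovZ.leaf K2_ok TB_l23758 _)
          (CovZ.leaf K2_ok TB_l23759 _))
         (CovZ.n1 (-16992, 31584) (by decide +kernel)
          (CovZ.leaf K2_ok TB_l23760 _)
          (CovZ.leaf K2_ok TB_l23761 _)))
        (CovZ.subM 2405201172583251954642684618672286892682743126225127885977794167790229217855450603886700910203257983176259174400 (by decide +kernel)
         (CovZ.n1 (-17280, 31680) (by decide +kernel)
          (CovZ.n2 (-17184, 31776) (by decide +kernel)
           (CovZ.leaf K2_ok TB_l23762 _)
           (CovZ.n1 (-17280, 31776) (by decide +kernel)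
            (CovZ.leaf K2_ok TB_l23763 _)
            (CovZ.n1 (-17232, 31728) (by decide +kernel)
             (CovZ.leaf K2_ok TB_l23764 _)
             (CovZ.leaf K2_ok TB_l23765 _))))
          (CovZ.n1 (-17184, 31584) (by decide +kernel)
           (CovZ.leaf K2_ok TB_l23766 _)
           (CovZ.n1 (-17184, 31680) (by decide +kernel)
            (CovZ.leaf K2_ok TB_l23767 _)
            (CovZ.leaf K2_ok TB_l23768 _)))))))))
    (CovZ.n1 (-17664, 30720) (by decide +kernel)
     (CovZ.n2 (-18048, 31104) (by decide +kernel)
      (CovZ.n2 (-17664, 31104) (by decide +kernel)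
       (CovZ.leaf K2_ok TB_l23769 _)
       (CovZ.n1 (-17856, 31296) (by decide +kernel)
        (CovZ.leaf K2_ok TB_l23770 _)
        (CovZ.leaf K2_ok TB_l23771 _)))
      (CovZ.n1 (-18048, 30720) (by decide +kernel)
       (CovZ.leaf K2_ok TB_l23772 _)
       (CovZ.leaf K2_ok TB_l23773 _)))
     (CovZ.n1 (-17280, 31104) (by decide +kernel)
      (CovZ.n2 (-17280, 30720) (by decide +kernel)
       (CovZ.leaf K2_ok TB_l23774 _)
       (CovZ.leaf K2_ok TB_l23775 _))
      (CovZ.n1 (-17664, 31104) (by decide +kernel)
       (CovZ.leaf K2_ok TB_l23776 _)
       (CovZ.n1 (-17472, 30912) (by decide +kernel)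
        (CovZ.leaf K2_ok TB_l23777 _)
        (CovZ.leaf K2_ok TB_l23778 _)))))))
    (CovZ.topM TB_LL 293567857842740880384678349965812397004350134475646361150651971606290853609775167257511175890994390663987201 (by decide +kernel) (CovZ.n0 (-17664, 31488) (by decide +kernel)
    TB_u526
    TB_u527))

theorem TB_s10_23 : SqZ TB_M TB_L [0, 7, 6, 1] (-32256) (-4608) 1536 10 23 :=
  SqZ.mk (a := (-16896)) (b := (-15360)) (c := 30720) (d := 32256) (by norm_num) (by norm_num) (by norm_num) (by norm_num)
    (CovZ.topM TB_LL 726838724295649497672314647080906440271934053100189183080600695410115299055614094016827393438790783514049455054087934170779522185659393 (by decide +kernel) (CovZ.n2 (-16128, 31488) (by decide +kernel)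
    (CovZ.n2 (-15360, 31488) (by decide +kernel)
     (CovZ.n2 (-15744, 31104) (by decide +kernel)
      TB_u528
      TB_u529)
     (CovZ.subM 42607122988433991729322666338049727755127275808027285906169760779454452192471530741984024480477772639369108976889099191296 (by decide +kernel)
      (CovZ.n1 (-15744, 31872) (by decide +kernel)
       (CovZ.badM (by decide +kernel))
       (CovZ.n1 (-15744, 31488) (by decide +kernel)
        (CovZ.n2 (-15936, 31680) (by decide +kernel)
         (CovZ.badM (by decide +kernel))
         (CovZ.n1 (-15936, 31488) (by decide +kernel)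
          (CovZ.n2 (-16032, 31584) (by decide +kernel)
           (CovZ.n2 (-15936, 31584) (by decide +kernel)
            (CovZ.n2 (-15984, 31536) (by decide +kernel)
             (CovZ.badM (by decide +kernel))
             (CovZ.badM (by decide +kernel)))
            (CovZ.badM (by decide +kernel)))
           (CovZ.n1 (-16032, 31488) (by decide +kernel)
            (CovZ.n2 (-16080, 31536) (by decide +kernel)
             (CovZ.n2 (-16032, 31536) (by decide +kernel)
              (CovZ.n2 (-16056, 31512) (by decide +kernel)
               (CovZ.badM (by decide +kernel))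
               (CovZ.leaf K2_ok TB_l45618 _))
              (CovZ.badM (by decide +kernel)))
             (CovZ.n1 (-16080, 31488) (by decide +kernel)
              (CovZ.n2 (-16104, 31512) (by decide +kernel)
               (CovZ.leaf K2_ok TB_l45619 _)
               (CovZ.leaf K2_ok TB_l45620 _))
              (CovZ.n1 (-16056, 31512) (by decide +kernel)
               (CovZ.leaf K2_ok TB_l45621 _)
               (CovZ.leaf K2_ok TB_l45622 _))))
            (CovZ.subM 1291124939043454294827959586001505937164852896414611756415329678270323811008420597314833061233785985373208646979032186880 (by decide +kernel)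
             (CovZ.n1 (-15984, 31536) (by decide +kernel)
              (CovZ.n2 (-15984, 31488) (by decide +kernel)
               (CovZ.n2 (-16008, 31512) (by decide +kernel)
                (CovZ.n2 (-15984, 31512) (by decide +kernel)
                 (CovZ.leaf K2_ok TB_l49774 _)
                 (CovZ.leaf K2_ok TB_l49775 _))
                (CovZ.leaf K2_ok TB_l45623 _))
               (CovZ.badM (by decide +kernel)))
              (CovZ.n1 (-16032, 31536) (by decide +kernel)
               (CovZ.badM (by decide +kernel))
               (CovZ.n1 (-16008, 31512) (by decide +kernel)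
                (CovZ.n2 (-16032, 31512) (by decide +kernel)
                 (CovZ.badM (by decide +kernel))
                 (CovZ.leaf K2_ok TB_l45624 _))
                (CovZ.badM (by decide +kernel))))))))
          (CovZ.badM (by decide +kernel))))
        (CovZ.badM (by decide +kernel))))))
    (CovZ.n1 (-16128, 30720) (by decide +kernel)
     (CovZ.n2 (-16512, 31104) (by decide +kernel)
      (CovZ.n2 (-16128, 31104) (by decide +kernel)
       (CovZ.n2 (-16320, 30912) (by decide +kernel)
        (CovZ.n2 (-16320, 31104) (by decide +kernel)
         (CovZ.n2 (-16224, 31008) (by decide +kernel)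
          (CovZ.leaf K2_ok TB_l31198 _)
          (CovZ.leaf K2_ok TB_l31199 _))
         (CovZ.leaf K2_ok TB_l31200 _))
        (CovZ.n1 (-16128, 30912) (by decide +kernel)
         (CovZ.leaf K2_ok TB_l31201 _)
         (CovZ.leaf K2_ok TB_l31202 _)))
       (CovZ.subM 42607122988434285297145513067203213940201874475155707866488374319438290603842972268111496596387038620079179226247466058753 (by decide +kernel)
        (CovZ.n1 (-16320, 31296) (by decide +kernel)
         (CovZ.n2 (-16128, 31296) (by decide +kernel)
          (CovZ.n2 (-16224, 31200) (by decide +kernel)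
           (CovZ.n2 (-16224, 31296) (by decide +kernel)
            (CovZ.leaf K2_ok TB_l31203 _)
            (CovZ.leaf K2_ok TB_l31204 _))
           (CovZ.leaf K2_ok TB_l31205 _))
          (CovZ.n1 (-16224, 31392) (by decide +kernel)
           (CovZ.n2 (-16128, 31392) (by decide +kernel)
            (CovZ.n2 (-16176, 31344) (by decide +kernel)
             (CovZ.leaf K2_ok TB_l31206 _)
             (CovZ.leaf K2_ok TB_l31207 _))
            (CovZ.n1 (-16176, 31440) (by decide +kernel)
             (CovZ.n2 (-16128, 31440) (by decide +kernel)
              (CovZ.leaf K2_ok TB_l31208 _)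
              (CovZ.leaf K2_ok TB_l31209 _))
             (CovZ.leaf K2_ok TB_l31210 _)))
           (CovZ.leaf K2_ok TB_l31211 _)))
         (CovZ.n1 (-16320, 31104) (by decide +kernel)
          (CovZ.n2 (-16416, 31200) (by decide +kernel)
           (CovZ.leaf K2_ok TB_l31212 _)
           (CovZ.leaf K2_ok TB_l31213 _))
          (CovZ.leaf K2_ok TB_l31214 _)))))
      (CovZ.n1 (-16512, 30720) (by decide +kernel)
       (CovZ.n2 (-16704, 30912) (by decide +kernel)
        (CovZ.leaf K2_ok TB_l31215 _)
        (CovZ.leaf K2_ok TB_l31216 _))
       (CovZ.n1 (-16320, 30912) (by decide +kernel)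
        (CovZ.n2 (-16320, 30720) (by decide +kernel)
         (CovZ.leaf K2_ok TB_l31217 _)
         (CovZ.leaf K2_ok TB_l31218 _))
        (CovZ.leaf K2_ok TB_l31219 _))))
     (CovZ.n1 (-15744, 31104) (by decide +kernel)
      (CovZ.n2 (-15744, 30720) (by decide +kernel)
       (CovZ.n2 (-15936, 30912) (by decide +kernel)
        (CovZ.n2 (-15744, 30912) (by decide +kernel)
         (CovZ.n2 (-15840, 30816) (by decide +kernel)
          (CovZ.leaf K2_ok TB_l31220 _)
          (CovZ.leaf K2_ok TB_l31221 _))
         (CovZ.n1 (-15840, 31008) (by decide +kernel)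
          (CovZ.leaf K2_ok TB_l31222 _)
          (CovZ.leaf K2_ok TB_l31223 _)))
        (CovZ.n1 (-15936, 30720) (by decide +kernel)
         (CovZ.leaf K2_ok TB_l31224 _)
         (CovZ.leaf K2_ok TB_l31225 _)))
       (CovZ.subM 726838724295606890549323808181572357200370514174000458116567114244754988975084728004702878306087042084739187492595470400742819532702721 (by decide +kernel)
        (CovZ.n1 (-15552, 30912) (by decide +kernel)
         (CovZ.n2 (-15552, 30720) (by decide +kernel)
          (CovZ.leaf K2_ok TB_l31226 _)
          (CovZ.leaf K2_ok TB_l31227 _))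
         (CovZ.n1 (-15744, 30912) (by decide +kernel)
          (CovZ.leaf K2_ok TB_l31228 _)
          (CovZ.n1 (-15648, 30816) (by decide +kernel)
           (CovZ.leaf K2_ok TB_l31229 _)
           (CovZ.n1 (-15648, 30912) (by decide +kernel)
            (CovZ.leaf K2_ok TB_l31230 _)
            (CovZ.leaf K2_ok TB_l31231 _)))))))
      (CovZ.n1 (-16128, 31104) (by decide +kernel)
       (CovZ.n2 (-15936, 31296) (by decide +kernel)
        (CovZ.n2 (-15936, 31104) (by decide +kernel)
         (CovZ.n2 (-16032, 31200) (by decide +kernel)
          (CovZ.n2 (-15936, 31200) (by decide +kernel)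
           (CovZ.leaf K2_ok TB_l31232 _)
           (CovZ.leaf K2_ok TB_l31233 _))
          (CovZ.leaf K2_ok TB_l31234 _))
         (CovZ.n1 (-15840, 31200) (by decide +kernel)
          (CovZ.leaf K2_ok TB_l31235 _)
          (CovZ.n1 (-15936, 31200) (by decide +kernel)
           (CovZ.leaf K2_ok TB_l31236 _)
           (CovZ.leaf K2_ok TB_l31237 _))))
        (CovZ.subM 42607122988434285297145513067203213940201874475155707866488374319438290603842972268111496596387038620079179226247466058753 (by decide +kernel)
         (CovZ.n1 (-16128, 31296) (by decide +kernel)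
          (CovZ.n2 (-16032, 31392) (by decide +kernel)
           (CovZ.n2 (-16032, 31296) (by decide +kernel)
            (CovZ.n2 (-16080, 31344) (by decide +kernel)
             (CovZ.leaf K2_ok TB_l31238 _)
             (CovZ.leaf K2_ok TB_l31239 _))
            (CovZ.leaf K2_ok TB_l31240 _))
           (CovZ.n1 (-16128, 31392) (by decide +kernel)
            (CovZ.n2 (-16080, 31440) (by decide +kernel)
             (CovZ.leaf K2_ok TB_l31241 _)
             (CovZ.leaf K2_ok TB_l31242 _))
            (CovZ.n1 (-16080, 31344) (by decide +kernel)
             (CovZ.leaf K2_ok TB_l31243 _)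
             (CovZ.n1 (-16080, 31392) (by decide +kernel)
              (CovZ.leaf K2_ok TB_l31244 _)
              (CovZ.leaf K2_ok TB_l31245 _)))))
          (CovZ.n1 (-16032, 31200) (by decide +kernel)
           (CovZ.leaf K2_ok TB_l31246 _)
           (CovZ.n1 (-16032, 31296) (by decide +kernel)
            (CovZ.n2 (-15984, 31248) (by decide +kernel)
             (CovZ.leaf K2_ok TB_l31247 _)
             (CovZ.leaf K2_ok TB_l31248 _))
            (CovZ.leaf K2_ok TB_l31249 _))))))
       (CovZ.n1 (-15936, 30912) (by decide +kernel)
        (CovZ.n2 (-16128, 30912) (by decide +kernel)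
         (CovZ.leaf K2_ok TB_l31250 _)
         (CovZ.leaf K2_ok TB_l31251 _))
        (CovZ.n1 (-15936, 31104) (by decide +kernel)
         (CovZ.n2 (-15840, 31008) (by decide +kernel)
          (CovZ.leaf K2_ok TB_l31252 _)
          (CovZ.n1 (-15840, 31104) (by decide +kernel)
           (CovZ.leaf K2_ok TB_l31253 _)
           (CovZ.leaf K2_ok TB_l31254 _)))
         (CovZ.n1 (-16032, 31008) (by decide +kernel)
          (CovZ.n2 (-16032, 31104) (by decide +kernel)
           (CovZ.leaf K2_ok TB_l31255 _)
           (CovZ.leaf K2_ok TB_l31256 _))
          (CovZ.leaf K2_ok TB_l31257 _)))))))))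
    (CovZ.topM TB_LL 726838724295649497672314647080906440271934053100189183080600695410115299055614094016827393438790783514049455054087934169653622278816769 (by decide +kernel) (CovZ.n0 (-16128, 31488) (by decide +kernel)
    (CovZ.n2 (-16896, 31488) (by decide +kernel)
     (CovZ.subM 41315998051795738607077958706690874607947579577949877619749482994545760295684502602300829769988559120598346066716916745216 (by decide +kernel)
      (CovZ.n2 (-16512, 31872) (by decide +kernel)
       TB_u530
       TB_u531))
     (CovZ.n1 (-16512, 31104) (by decide +kernel)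
      (CovZ.n2 (-16896, 31104) (by decide +kernel)
       (CovZ.n2 (-16704, 31296) (by decide +kernel)
        (CovZ.leaf K2_ok TB_l31327 _)
        (CovZ.n1 (-16896, 31296) (by decide +kernel)
         (CovZ.leaf K2_ok TB_l31328 _)
         (CovZ.n1 (-16800, 31200) (by decide +kernel)
          (CovZ.leaf K2_ok TB_l31329 _)
          (CovZ.leaf K2_ok TB_l31330 _))))
       (CovZ.n1 (-16704, 30912) (by decide +kernel)
        (CovZ.leaf K2_ok TB_l31331 _)
        (CovZ.n1 (-16704, 31104) (by decide +kernel)
         (CovZ.leaf K2_ok TB_l31332 _)
         (CovZ.leaf K2_ok TB_l31333 _))))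
      (CovZ.n1 (-16512, 31488) (by decide +kernel)
       (CovZ.subM 42607122988434285297145513067203213940201874475155707866488374319438290603842972268111496596387038620079179226247466058753 (by decide +kernel)
        (CovZ.n2 (-16320, 31296) (by decide +kernel)
         (CovZ.n2 (-16512, 31296) (by decide +kernel)
          (CovZ.n2 (-16416, 31392) (by decide +kernel)
           (CovZ.leaf K2_ok TB_l31334 _)
           (CovZ.leaf K2_ok TB_l31335 _))
          (CovZ.n1 (-16416, 31200) (by decide +kernel)
           (CovZ.leaf K2_ok TB_l31336 _)
           (CovZ.n1 (-16416, 31296) (by decide +kernel)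
            (CovZ.leaf K2_ok TB_l31337 _)
            (CovZ.leaf K2_ok TB_l31338 _))))
         (CovZ.n1 (-16320, 31488) (by decide +kernel)
          (CovZ.n2 (-16224, 31392) (by decide +kernel)
           (CovZ.n2 (-16320, 31392) (by decide +kernel)
            (CovZ.leaf K2_ok TB_l31339 _)
            (CovZ.n1 (-16272, 31344) (by decide +kernel)
             (CovZ.leaf K2_ok TB_l31340 _)
             (CovZ.leaf K2_ok TB_l31341 _)))
           (CovZ.n1 (-16224, 31488) (by decide +kernel)
            (CovZ.n2 (-16176, 31440) (by decide +kernel)
             (CovZ.leaf K2_ok TB_l31342 _)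
             (CovZ.n1 (-16176, 31488) (by decide +kernel)
              (CovZ.n2 (-16152, 31464) (by decide +kernel)
               (CovZ.leaf K2_ok TB_l31343 _)
               (CovZ.leaf K2_ok TB_l45661 _))
              (CovZ.leaf K2_ok TB_l31344 _)))
            (CovZ.n1 (-16272, 31440) (by decide +kernel)
             (CovZ.n2 (-16272, 31488) (by decide +kernel)
              (CovZ.leaf K2_ok TB_l31345 _)
              (CovZ.leaf K2_ok TB_l31346 _))
             (CovZ.leaf K2_ok TB_l31347 _))))
          (CovZ.n1 (-16416, 31392) (by decide +kernel)
           (CovZ.subM 41315998049390831002317553481201676174349891352395998165609163244634200363640900640542757730052448542153382809328039231488 (by decide +kernel)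
            (CovZ.n2 (-16416, 31488) (by decide +kernel)
             (CovZ.n2 (-16368, 31440) (by decide +kernel)
              (CovZ.leaf K2_ok TB_l31348 _)
              (CovZ.n1 (-16368, 31488) (by decide +kernel)
               (CovZ.leaf K2_ok TB_l31349 _)
               (CovZ.leaf K2_ok TB_l31350 _)))
             (CovZ.n1 (-16464, 31440) (by decide +kernel)
              (CovZ.leaf K2_ok TB_l31351 _)
              (CovZ.leaf K2_ok TB_l31352 _))))
           (CovZ.n1 (-16320, 31392) (by decide +kernel)
            (CovZ.leaf K2_ok TB_l31353 _)
            (CovZ.leaf K2_ok TB_l31354 _))))))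
       (CovZ.n1 (-16704, 31296) (by decide +kernel)
        (CovZ.subM 41315998051795738607077958706690874607947579577949877619749482994545760295684502602300829769988559120598346066716916744193 (by decide +kernel)
         (CovZ.n2 (-16704, 31488) (by decide +kernel)
          (CovZ.n2 (-16608, 31392) (by decide +kernel)
           (CovZ.leaf K2_ok TB_l31355 _)
           (CovZ.n1 (-16608, 31488) (by decide +kernel)
            (CovZ.leaf K2_ok TB_l31356 _)
            (CovZ.leaf K2_ok TB_l31357 _)))
          (CovZ.n1 (-16800, 31392) (by decide +kernel)
           (CovZ.n2 (-16800, 31488) (by decide +kernel)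
            (CovZ.leaf K2_ok TB_l31358 _)
            (CovZ.leaf K2_ok TB_l31359 _))
           (CovZ.leaf K2_ok TB_l31360 _))))
        (CovZ.subM 42607122988434285297145513067203182111514744248810609922024492922904524174649321237857580406692517457871370424111431942145 (by decide +kernel)
         (CovZ.n1 (-16512, 31296) (by decide +kernel)
          (CovZ.n2 (-16608, 31200) (by decide +kernel)
           (CovZ.leaf K2_ok TB_l31361 _)
           (CovZ.leaf K2_ok TB_l31362 _))
          (CovZ.n1 (-16608, 31392) (by decide +kernel)
           (CovZ.n2 (-16512, 31392) (by decide +kernel)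
            (CovZ.leaf K2_ok TB_l31363 _)
            (CovZ.leaf K2_ok TB_l31364 _))
           (CovZ.leaf K2_ok TB_l31365 _))))))))
    (CovZ.subM 41315998051795445039255111977537388422872980910821455659430869454561921884313061076173357654079293139888275817358549877760 (by decide +kernel)
     (CovZ.n1 (-16128, 32256) (by decide +kernel)
      (CovZ.subM 41315998049390537434494706752048189989275292685267576205290549704650361952269459114415285614143182561443348588766691329024 (by decide +kernel)
       (CovZ.n2 (-15744, 31872) (by decide +kernel)
        (CovZ.n2 (-16128, 31872) (by decide +kernel)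
         (CovZ.badM (by decide +kernel))
         (CovZ.n1 (-15936, 31680) (by decide +kernel)
          (CovZ.n2 (-16128, 31680) (by decide +kernel)
           (CovZ.badM (by decide +kernel))
           (CovZ.n1 (-16032, 31584) (by decide +kernel)
            (CovZ.n2 (-16128, 31584) (by decide +kernel)
             (CovZ.badM (by decide +kernel))
             (CovZ.n1 (-16080, 31536) (by decide +kernel)
              (CovZ.n2 (-16128, 31536) (by decide +kernel)
               (CovZ.n2 (-16104, 31560) (by decide +kernel)
                (CovZ.leaf K2_ok TB_l45662 _)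
                (CovZ.n1 (-16128, 31560) (by decide +kernel)
                 (CovZ.badM (by decide +kernel))
                 (CovZ.leaf K2_ok TB_l45663 _)))
               (CovZ.n1 (-16104, 31512) (by decide +kernel)
                (CovZ.leaf K2_ok TB_l45664 _)
                (CovZ.n1 (-16104, 31536) (by decide +kernel)
                 (CovZ.leaf K2_ok TB_l45665 _)
                 (CovZ.leaf K2_ok TB_l45666 _))))
              (CovZ.n1 (-16080, 31584) (by decide +kernel)
               (CovZ.badM (by decide +kernel))
               (CovZ.n1 (-16104, 31560) (by decide +kernel)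
                (CovZ.badM (by decide +kernel))
                (CovZ.badM (by decide +kernel))))))
            (CovZ.badM (by decide +kernel))))
          (CovZ.badM (by decide +kernel))))
        (CovZ.badM (by decide +kernel))))
      (CovZ.n1 (-16512, 31872) (by decide +kernel)
       (CovZ.n2 (-16512, 32256) (by decide +kernel)
        (CovZ.badM (by decide +kernel))
        (CovZ.n1 (-16704, 32064) (by decide +kernel)
         (CovZ.badM (by decide +kernel))
         (CovZ.badM (by decide +kernel))))
       (CovZ.subM 41315998049390537434494706752048189989275292685267576205290549704650361952269459114414618403996860836093082419988386546688 (by decide +kernel)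
        (CovZ.n1 (-16128, 31872) (by decide +kernel)
         (CovZ.n2 (-16320, 31680) (by decide +kernel)
          (CovZ.badM (by decide +kernel))
          (CovZ.n1 (-16128, 31680) (by decide +kernel)
           (CovZ.n2 (-16224, 31584) (by decide +kernel)
            (CovZ.badM (by decide +kernel))
            (CovZ.n1 (-16128, 31584) (by decide +kernel)
             (CovZ.n2 (-16176, 31536) (by decide +kernel)
              (CovZ.n2 (-16176, 31584) (by decide +kernel)
               (CovZ.n2 (-16152, 31560) (by decide +kernel)
                (CovZ.leaf K2_ok TB_l45667 _)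
                (CovZ.badM (by decide +kernel)))
               (CovZ.n1 (-16200, 31560) (by decide +kernel)
                (CovZ.badM (by decide +kernel))
                (CovZ.leaf K2_ok TB_l45668 _)))
              (CovZ.n1 (-16128, 31536) (by decide +kernel)
               (CovZ.n2 (-16152, 31512) (by decide +kernel)
                (CovZ.n2 (-16152, 31536) (by decide +kernel)
                 (CovZ.leaf K2_ok TB_l45669 _)
                 (CovZ.leaf K2_ok TB_l45670 _))
                (CovZ.leaf K2_ok TB_l45671 _))
               (CovZ.n1 (-16152, 31560) (by decide +kernel)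
                (CovZ.n2 (-16128, 31560) (by decide +kernel)
                 (CovZ.leaf K2_ok TB_l45672 _)
                 (CovZ.badM (by decide +kernel)))
                (CovZ.leaf K2_ok TB_l45673 _))))
             (CovZ.badM (by decide +kernel))))
           (CovZ.badM (by decide +kernel))))
         (CovZ.badM (by decide +kernel)))))))))

theorem TB_s11_23 : SqZ TB_M TB_L [0, 7, 6, 1] (-32256) (-4608) 1536 11 23 :=
  SqZ.mk (a := (-15360)) (b := (-13824)) (c := 30720) (d := 32256) (by norm_num) (by norm_num) (by norm_num) (by norm_num)
    (CovZ.topM TB_LL 293567822846729155523718374169563001332561389271064965729980221258259727160117115240720036963510663377912833 (by decide +kernel) (CovZ.n2 (-14592, 31488) (by decide +kernel)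
    (CovZ.subM 2037035976334486086268445688409378161051468393665936250636140449354395466862785315119038464 (by decide +kernel)
     (CovZ.n2 (-13824, 31488) (by decide +kernel)
      (CovZ.n2 (-14208, 31104) (by decide +kernel)
       (CovZ.n2 (-14208, 31488) (by decide +kernel)
        (CovZ.badM (by decide +kernel))
        (CovZ.n1 (-14400, 31296) (by decide +kernel)
         (CovZ.badM (by decide +kernel))
         (CovZ.badM (by decide +kernel))))
       (CovZ.badM (by decide +kernel)))
      (CovZ.badM (by decide +kernel))))
    (CovZ.n1 (-14592, 30720) (by decide +kernel)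
     (CovZ.n2 (-14976, 31104) (by decide +kernel)
      TB_u532
      TB_u533)
     (CovZ.subM 293567822846729155523221050933153214690406007022918144889879765107462378778062653371367760385819185525031936 (by decide +kernel)
      (CovZ.n1 (-14208, 31104) (by decide +kernel)
       (CovZ.n2 (-14208, 30720) (by decide +kernel)
        (CovZ.n2 (-14400, 30912) (by decide +kernel)
         (CovZ.badM (by decide +kernel))
         (CovZ.n1 (-14400, 30720) (by decide +kernel)
          (CovZ.n2 (-14496, 30816) (by decide +kernel)
           (CovZ.subM 9444732965739290427392 (by decide +kernel)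
            (CovZ.n2 (-14400, 30816) (by decide +kernel)
             (CovZ.n2 (-14448, 30768) (by decide +kernel)
              (CovZ.n2 (-14448, 30816) (by decide +kernel)
               (CovZ.badM (by decide +kernel))
               (CovZ.n1 (-14472, 30792) (by decide +kernel)
                (CovZ.n2 (-14472, 30816) (by decide +kernel)
                 (CovZ.leaf K2_ok TB_l48035 _)
                 (CovZ.leaf K2_ok TB_l48036 _))
                (CovZ.leaf K2_ok TB_l48037 _)))
              (CovZ.badM (by decide +kernel)))
             (CovZ.n1 (-14448, 30864) (by decide +kernel)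
              (CovZ.badM (by decide +kernel))
              (CovZ.n1 (-14448, 30816) (by decide +kernel)
               (CovZ.n2 (-14472, 30840) (by decide +kernel)
                (CovZ.n2 (-14448, 30840) (by decide +kernel)
                 (CovZ.leaf K2_ok TB_l48038 _)
                 (CovZ.badM (by decide +kernel)))
                (CovZ.leaf K2_ok TB_l48039 _))
               (CovZ.badM (by decide +kernel))))))
           (CovZ.n1 (-14496, 30720) (by decide +kernel)
            (CovZ.n2 (-14544, 30768) (by decide +kernel)
             (CovZ.n2 (-14496, 30768) (by decide +kernel)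
              (CovZ.leaf K2_ok TB_l48040 _)
              (CovZ.leaf K2_ok TB_l48041 _))
             (CovZ.n1 (-14544, 30720) (by decide +kernel)
              (CovZ.leaf K2_ok TB_l36891 _)
              (CovZ.leaf K2_ok TB_l48042 _)))
            (CovZ.subM 9444732965739290427392 (by decide +kernel)
             (CovZ.n1 (-14448, 30768) (by decide +kernel)
              (CovZ.n2 (-14448, 30720) (by decide +kernel)
               (CovZ.leaf K2_ok TB_l48043 _)
               (CovZ.badM (by decide +kernel)))
              (CovZ.n1 (-14496, 30768) (by decide +kernel)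
               (CovZ.leaf K2_ok TB_l48044 _)
               (CovZ.n1 (-14472, 30744) (by decide +kernel)
                (CovZ.leaf K2_ok TB_l48045 _)
                (CovZ.leaf K2_ok TB_l48046 _)))))))
          (CovZ.badM (by decide +kernel))))
        (CovZ.badM (by decide +kernel)))
       (CovZ.n1 (-14592, 31104) (by decide +kernel)
        (CovZ.n2 (-14400, 31296) (by decide +kernel)
         (CovZ.n2 (-14400, 31104) (by decide +kernel)
          (CovZ.badM (by decide +kernel))
          (CovZ.badM (by decide +kernel)))
         (CovZ.badM (by decide +kernel)))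
        (CovZ.n1 (-14400, 30912) (by decide +kernel)
         (CovZ.n2 (-14592, 30912) (by decide +kernel)
          (CovZ.subM 2037035976334486086268445688409378161051468393665936250636140449354381299763336706183397376 (by decide +kernel)
           (CovZ.n2 (-14496, 31008) (by decide +kernel)
            (CovZ.n2 (-14496, 30912) (by decide +kernel)
             (CovZ.n2 (-14544, 30960) (by decide +kernel)
              (CovZ.badM (by decide +kernel))
              (CovZ.n1 (-14544, 30912) (by decide +kernel)
               (CovZ.n2 (-14568, 30936) (by decide +kernel)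
                (CovZ.badM (by decide +kernel))
                (CovZ.n1 (-14568, 30912) (by decide +kernel)
                 (CovZ.leaf K2_ok TB_l48047 _)
                 (CovZ.badM (by decide +kernel))))
               (CovZ.badM (by decide +kernel))))
             (CovZ.badM (by decide +kernel)))
            (CovZ.badM (by decide +kernel))))
          (CovZ.n1 (-14496, 30816) (by decide +kernel)
           (CovZ.n2 (-14592, 30816) (by decide +kernel)
            (CovZ.n2 (-14544, 30864) (by decide +kernel)
             (CovZ.n2 (-14544, 30816) (by decide +kernel)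
              (CovZ.n2 (-14568, 30840) (by decide +kernel)
               (CovZ.leaf K2_ok TB_l48048 _)
               (CovZ.leaf K2_ok TB_l36892 _))
              (CovZ.leaf K2_ok TB_l48049 _))
             (CovZ.n1 (-14592, 30864) (by decide +kernel)
              (CovZ.n2 (-14568, 30888) (by decide +kernel)
               (CovZ.leaf K2_ok TB_l36893 _)
               (CovZ.leaf K2_ok TB_l36894 _))
              (CovZ.n1 (-14568, 30840) (by decide +kernel)
               (CovZ.leaf K2_ok TB_l36895 _)
               (CovZ.n1 (-14568, 30864) (by decide +kernel)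
                (CovZ.badM (by decide +kernel))
                (CovZ.leaf K2_ok TB_l36896 _)))))
            (CovZ.n1 (-14544, 30768) (by decide +kernel)
             (CovZ.leaf K2_ok TB_l36897 _)
             (CovZ.n1 (-14544, 30816) (by decide +kernel)
              (CovZ.n2 (-14520, 30792) (by decide +kernel)
               (CovZ.leaf K2_ok TB_l48050 _)
               (CovZ.leaf K2_ok TB_l48051 _))
              (CovZ.leaf K2_ok TB_l36898 _))))
           (CovZ.n1 (-14496, 30912) (by decide +kernel)
            (CovZ.subM 9444732965739290427392 (by decide +kernel)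
             (CovZ.n2 (-14448, 30864) (by decide +kernel)
              (CovZ.n2 (-14496, 30864) (by decide +kernel)
               (CovZ.badM (by decide +kernel))
               (CovZ.n1 (-14472, 30840) (by decide +kernel)
                (CovZ.leaf K2_ok TB_l48052 _)
                (CovZ.badM (by decide +kernel))))
              (CovZ.badM (by decide +kernel))))
            (CovZ.n1 (-14544, 30864) (by decide +kernel)
             (CovZ.subM 2037035976334486086268445688409378161051468393665936250636140449509128527040492110191002624 (by decide +kernel)
              (CovZ.n2 (-14544, 30912) (by decide +kernel)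
               (CovZ.badM (by decide +kernel))
               (CovZ.n1 (-14568, 30888) (by decide +kernel)
                (CovZ.n2 (-14568, 30912) (by decide +kernel)
                 (CovZ.badM (by decide +kernel))
                 (CovZ.leaf K2_ok TB_l36899 _))
                (CovZ.badM (by decide +kernel)))))
             (CovZ.n1 (-14496, 30864) (by decide +kernel)
              (CovZ.n2 (-14520, 30840) (by decide +kernel)
               (CovZ.badM (by decide +kernel))
               (CovZ.leaf K2_ok TB_l48053 _))
              (CovZ.badM (by decide +kernel)))))))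
         (CovZ.n1 (-14400, 31104) (by decide +kernel)
          (CovZ.badM (by decide +kernel))
          (CovZ.n1 (-14496, 31008) (by decide +kernel)
           (CovZ.badM (by decide +kernel))
           (CovZ.badM (by decide +kernel)))))))))))
    (CovZ.topM TB_LL 293567822846729153486682397835076915064115700861686804678511827592323476523976665886338737200173957194515457 (by decide +kernel) (CovZ.n0 (-14592, 31488) (by decide +kernel)
    (CovZ.n2 (-15360, 31488) (by decide +kernel)
     (CovZ.n2 (-14976, 31872) (by decide +kernel)
      (CovZ.n2 (-14976, 31488) (by decide +kernel)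
       (CovZ.badM (by decide +kernel))
       (CovZ.badM (by decide +kernel)))
      (CovZ.badM (by decide +kernel)))
     (CovZ.n1 (-14976, 31104) (by decide +kernel)
      (CovZ.n2 (-15360, 31104) (by decide +kernel)
       (CovZ.n2 (-15168, 31296) (by decide +kernel)
        (CovZ.n2 (-15168, 31104) (by decide +kernel)
         (CovZ.n2 (-15264, 31200) (by decide +kernel)
          (CovZ.subM 2596148584009918724937782527001600 (by decide +kernel)
           (CovZ.n2 (-15168, 31200) (by decide +kernel)
            (CovZ.n2 (-15216, 31152) (by decide +kernel)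
             (CovZ.badM (by decide +kernel))
             (CovZ.n1 (-15168, 31152) (by decide +kernel)
              (CovZ.n2 (-15192, 31128) (by decide +kernel)
               (CovZ.badM (by decide +kernel))
               (CovZ.leaf K2_ok TB_l48054 _))
              (CovZ.badM (by decide +kernel))))
            (CovZ.badM (by decide +kernel))))
          (CovZ.n1 (-15264, 31104) (by decide +kernel)
           (CovZ.n2 (-15312, 31152) (by decide +kernel)
            (CovZ.subM 667210146476467855176841312667173888 (by decide +kernel)
             (CovZ.n2 (-15264, 31152) (by decide +kernel)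
              (CovZ.n2 (-15288, 31128) (by decide +kernel)
               (CovZ.leaf K2_ok TB_l36900 _)
               (CovZ.leaf K2_ok TB_l36901 _))
              (CovZ.n1 (-15288, 31176) (by decide +kernel)
               (CovZ.leaf K2_ok TB_l48055 _)
               (CovZ.leaf K2_ok TB_l48056 _))))
            (CovZ.leaf K2_ok TB_l36902 _))
           (CovZ.subM 667210146476467855176841312667173888 (by decide +kernel)
            (CovZ.n1 (-15216, 31152) (by decide +kernel)
             (CovZ.leaf K2_ok TB_l36903 _)
             (CovZ.n1 (-15264, 31152) (by decide +kernel)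
              (CovZ.leaf K2_ok TB_l48057 _)
              (CovZ.n1 (-15240, 31128) (by decide +kernel)
               (CovZ.leaf K2_ok TB_l36904 _)
               (CovZ.n1 (-15240, 31152) (by decide +kernel)
                (CovZ.leaf K2_ok TB_l48058 _)
                (CovZ.leaf K2_ok TB_l48059 _))))))))
         (CovZ.subM 2596148584009918724937782527001600 (by decide +kernel)
          (CovZ.n1 (-15072, 31200) (by decide +kernel)
           (CovZ.n2 (-15072, 31104) (by decide +kernel)
            (CovZ.n2 (-15120, 31152) (by decide +kernel)
             (CovZ.badM (by decide +kernel))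
             (CovZ.n1 (-15120, 31104) (by decide +kernel)
              (CovZ.n2 (-15144, 31128) (by decide +kernel)
               (CovZ.badM (by decide +kernel))
               (CovZ.leaf K2_ok TB_l48060 _))
              (CovZ.badM (by decide +kernel))))
            (CovZ.badM (by decide +kernel)))
           (CovZ.n1 (-15168, 31200) (by decide +kernel)
            (CovZ.badM (by decide +kernel))
            (CovZ.n1 (-15120, 31152) (by decide +kernel)
             (CovZ.n2 (-15168, 31152) (by decide +kernel)
              (CovZ.badM (by decide +kernel))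
              (CovZ.n1 (-15144, 31128) (by decide +kernel)
               (CovZ.leaf K2_ok TB_l48061 _)
               (CovZ.badM (by decide +kernel))))
             (CovZ.badM (by decide +kernel)))))))
        (CovZ.n1 (-15360, 31296) (by decide +kernel)
         (CovZ.n2 (-15264, 31392) (by decide +kernel)
          (CovZ.n2 (-15264, 31296) (by decide +kernel)
           (CovZ.badM (by decide +kernel))
           (CovZ.badM (by decide +kernel)))
          (CovZ.badM (by decide +kernel)))
         (CovZ.n1 (-15264, 31200) (by decide +kernel)
          (CovZ.n2 (-15360, 31200) (by decide +kernel)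
           (CovZ.subM 667210146321726530858915395622993921 (by decide +kernel)
            (CovZ.n2 (-15312, 31248) (by decide +kernel)
             (CovZ.n2 (-15312, 31200) (by decide +kernel)
              (CovZ.n2 (-15336, 31224) (by decide +kernel)
               (CovZ.badM (by decide +kernel))
               (CovZ.leaf K2_ok TB_l48062 _))
              (CovZ.badM (by decide +kernel)))
             (CovZ.n1 (-15360, 31248) (by decide +kernel)
              (CovZ.badM (by decide +kernel))
              (CovZ.n1 (-15336, 31224) (by decide +kernel)
               (CovZ.leaf K2_ok TB_l48063 _)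
               (CovZ.n1 (-15336, 31248) (by decide +kernel)
                (CovZ.badM (by decide +kernel))
                (CovZ.leaf K2_ok TB_l48064 _))))))
           (CovZ.n1 (-15312, 31152) (by decide +kernel)
            (CovZ.n2 (-15360, 31152) (by decide +kernel)
             (CovZ.leaf K2_ok TB_l36905 _)
             (CovZ.n1 (-15336, 31128) (by decide +kernel)
              (CovZ.leaf K2_ok TB_l36906 _)
              (CovZ.leaf K2_ok TB_l36907 _)))
            (CovZ.n1 (-15312, 31200) (by decide +kernel)
             (CovZ.n2 (-15288, 31176) (by decide +kernel)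
              (CovZ.leaf K2_ok TB_l48065 _)
              (CovZ.badM (by decide +kernel)))
             (CovZ.n1 (-15336, 31176) (by decide +kernel)
              (CovZ.n2 (-15336, 31200) (by decide +kernel)
               (CovZ.leaf K2_ok TB_l48066 _)
               (CovZ.leaf K2_ok TB_l48067 _))
              (CovZ.leaf K2_ok TB_l48068 _)))))
          (CovZ.n1 (-15264, 31296) (by decide +kernel)
           (CovZ.badM (by decide +kernel))
           (CovZ.n1 (-15312, 31248) (by decide +kernel)
            (CovZ.badM (by decide +kernel))
            (CovZ.badM (by decide +kernel)))))))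
       (CovZ.n1 (-15168, 30912) (by decide +kernel)
        (CovZ.n2 (-15360, 30912) (by decide +kernel)
         (CovZ.n2 (-15264, 31008) (by decide +kernel)
          (CovZ.leaf K2_ok TB_l36908 _)
          (CovZ.n1 (-15360, 31008) (by decide +kernel)
           (CovZ.leaf K2_ok TB_l36909 _)
           (CovZ.n1 (-15312, 30960) (by decide +kernel)
            (CovZ.leaf K2_ok TB_l36910 _)
            (CovZ.n1 (-15312, 31008) (by decide +kernel)
             (CovZ.leaf K2_ok TB_l36911 _)
             (CovZ.leaf K2_ok TB_l36912 _)))))
         (CovZ.n1 (-15264, 30816) (by decide +kernel)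
          (CovZ.leaf K2_ok TB_l36913 _)
          (CovZ.n1 (-15264, 30912) (by decide +kernel)
           (CovZ.leaf K2_ok TB_l36914 _)
           (CovZ.leaf K2_ok TB_l36915 _))))
        (CovZ.n1 (-15168, 31104) (by decide +kernel)
         (CovZ.subM 293567822846729153486682397835076915064115700861686804678511827592323476523976665886323389471949933921698816 (by decide +kernel)
          (CovZ.n2 (-15072, 31008) (by decide +kernel)
           (CovZ.n2 (-15168, 31008) (by decide +kernel)
            (CovZ.n2 (-15120, 31056) (by decide +kernel)
             (CovZ.leaf K2_ok TB_l36916 _)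
             (CovZ.leaf K2_ok TB_l36917 _))
            (CovZ.n1 (-15120, 30960) (by decide +kernel)
             (CovZ.leaf K2_ok TB_l36918 _)
             (CovZ.n1 (-15120, 31008) (by decide +kernel)
              (CovZ.leaf K2_ok TB_l36919 _)
              (CovZ.leaf K2_ok TB_l36920 _))))
           (CovZ.n1 (-15072, 31104) (by decide +kernel)
            (CovZ.n2 (-15024, 31056) (by decide +kernel)
             (CovZ.n2 (-15072, 31056) (by decide +kernel)
              (CovZ.leaf K2_ok TB_l36921 _)
              (CovZ.n1 (-15048, 31032) (by decide +kernel)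
               (CovZ.leaf K2_ok TB_l36922 _)
               (CovZ.n1 (-15048, 31056) (by decide +kernel)
                (CovZ.leaf K2_ok TB_l36923 _)
                (CovZ.leaf K2_ok TB_l36924 _))))
             (CovZ.badM (by decide +kernel)))
            (CovZ.n1 (-15120, 31056) (by decide +kernel)
             (CovZ.subM 2596148584009918724937782527001600 (by decide +kernel)
              (CovZ.n2 (-15120, 31104) (by decide +kernel)
               (CovZ.n2 (-15096, 31080) (by decide +kernel)
                (CovZ.leaf K2_ok TB_l36925 _)
                (CovZ.n1 (-15096, 31104) (by decide +kernel)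
                 (CovZ.leaf K2_ok TB_l48069 _)
                 (CovZ.leaf K2_ok TB_l48070 _)))
               (CovZ.n1 (-15144, 31080) (by decide +kernel)
                (CovZ.n2 (-15144, 31104) (by decide +kernel)
                 (CovZ.leaf K2_ok TB_l36926 _)
                 (CovZ.leaf K2_ok TB_l36927 _))
                (CovZ.leaf K2_ok TB_l36928 _))))
             (CovZ.n1 (-15072, 31056) (by decide +kernel)
              (CovZ.n2 (-15096, 31032) (by decide +kernel)
               (CovZ.leaf K2_ok TB_l36929 _)
               (CovZ.leaf K2_ok TB_l36930 _))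
              (CovZ.leaf K2_ok TB_l36931 _))))))
         (CovZ.n1 (-15264, 31008) (by decide +kernel)
          (CovZ.n2 (-15264, 31104) (by decide +kernel)
           (CovZ.subM 293567822846729153486682397835076915064115700861686804678511827592323476523976665886323389471949933921698816 (by decide +kernel)
            (CovZ.n2 (-15216, 31056) (by decide +kernel)
             (CovZ.leaf K2_ok TB_l36932 _)
             (CovZ.n1 (-15216, 31104) (by decide +kernel)
              (CovZ.n2 (-15192, 31080) (by decide +kernel)
               (CovZ.leaf K2_ok TB_l36933 _)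
               (CovZ.leaf K2_ok TB_l36934 _))
              (CovZ.leaf K2_ok TB_l36935 _))))
           (CovZ.n1 (-15312, 31056) (by decide +kernel)
            (CovZ.n2 (-15312, 31104) (by decide +kernel)
             (CovZ.leaf K2_ok TB_l36936 _)
             (CovZ.leaf K2_ok TB_l36937 _))
            (CovZ.leaf K2_ok TB_l36938 _)))
          (CovZ.subM 293567822846729153486682397835076915064115700861686804678511827592323476523976665886323389471949933921698816 (by decide +kernel)
           (CovZ.n1 (-15168, 31008) (by decide +kernel)
            (CovZ.n2 (-15216, 30960) (by decide +kernel)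
             (CovZ.n2 (-15216, 31008) (by decide +kernel)
              (CovZ.leaf K2_ok TB_l36939 _)
              (CovZ.leaf K2_ok TB_l36940 _))
             (CovZ.leaf K2_ok TB_l36941 _))
            (CovZ.n1 (-15216, 31056) (by decide +kernel)
             (CovZ.n2 (-15168, 31056) (by decide +kernel)
              (CovZ.leaf K2_ok TB_l36942 _)
              (CovZ.leaf K2_ok TB_l36943 _))
             (CovZ.leaf K2_ok TB_l36944 _))))))))
      (CovZ.subM 1180592746617318211585 (by decide +kernel)
       (CovZ.n1 (-14976, 31488) (by decide +kernel)
        (CovZ.badM (by decide +kernel))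
        (CovZ.n1 (-15168, 31296) (by decide +kernel)
         (CovZ.n2 (-15168, 31488) (by decide +kernel)
          (CovZ.badM (by decide +kernel))
          (CovZ.n1 (-15264, 31392) (by decide +kernel)
           (CovZ.badM (by decide +kernel))
           (CovZ.badM (by decide +kernel))))
         (CovZ.badM (by decide +kernel)))))))
    (CovZ.n1 (-14592, 32256) (by decide +kernel)
     (CovZ.badM (by decide +kernel))
     (CovZ.n1 (-14976, 31872) (by decide +kernel)
      (CovZ.badM (by decide +kernel))
      (CovZ.badM (by decide +kernel))))))

theorem TB_s12_23 : SqZ TB_M TB_L [0, 7, 6, 1] (-32256) (-4608) 1536 12 23 :=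
  SqZ.mk (a := (-13824)) (b := (-12288)) (c := 30720) (d := 32256) (by norm_num) (by norm_num) (by norm_num) (by norm_num)
    (CovZ.topM TB_LL 0 (by decide +kernel) (CovZ.badM (by decide +kernel)))
    (CovZ.topM TB_LL 0 (by decide +kernel) (CovZ.badM (by decide +kernel)))

theorem TB_s0_24 : SqZ TB_M TB_L [0, 7, 6, 1] (-32256) (-4608) 1536 0 24 :=
  SqZ.mk (a := (-32256)) (b := (-30720)) (c := 32256) (d := 33792) (by norm_num) (by norm_num) (by norm_num) (by norm_num)
    (CovZ.topM TB_LL 2353129859973906143154175441529284225823720636258563057311064562201646888730119284886260675824942078871207936 (by decide +kernel) (CovZ.leaf K2_ok TB_l1859 _))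
    (CovZ.topM TB_LL 2353129859973906143154175441529284225823720636258563057311064562201646888730119284886260675824942078871207936 (by decide +kernel) (CovZ.leaf K2_ok TB_l1860 _))

theorem TB_s1_24 : SqZ TB_M TB_L [0, 7, 6, 1] (-32256) (-4608) 1536 1 24 :=
  SqZ.mk (a := (-30720)) (b := (-29184)) (c := 32256) (d := 33792) (by norm_num) (by norm_num) (by norm_num) (by norm_num)
    (CovZ.topM TB_LL 5043456795491623199145623275972558008579490852443297809755944613054516948958865054560048546623859907511181296595369984 (by decide +kernel) (CovZ.leaf K2_ok TB_l5003 _))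
    (CovZ.topM TB_LL 5043456795491623199145623275972558008579490852443297809755944613054516948958865054560048546623859907511181296595369984 (by decide +kernel) (CovZ.leaf K2_ok TB_l5004 _))

theorem TB_s2_24 : SqZ TB_M TB_L [0, 7, 6, 1] (-32256) (-4608) 1536 2 24 :=
  SqZ.mk (a := (-29184)) (b := (-27648)) (c := 32256) (d := 33792) (by norm_num) (by norm_num) (by norm_num) (by norm_num)
    (CovZ.topM TB_LL 5043456793138493339171717132834328964652041523698219635926264656343733324316518645163976051077084924416754786808102912 (by decide +kernel) (CovZ.leaf K2_ok TB_l8294 _))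
    (CovZ.topM TB_LL 5043456793138493339171717132834328964652041523698219635926264656343733324316518645163976051077084924416754786808102912 (by decide +kernel) (CovZ.n0 (-28416, 33024) (by decide +kernel)
    (CovZ.leaf K2_ok TB_l8295 _)
    (CovZ.leaf K2_ok TB_l8296 _)))

theorem TB_s3_24 : SqZ TB_M TB_L [0, 7, 6, 1] (-32256) (-4608) 1536 3 24 :=
  SqZ.mk (a := (-27648)) (b := (-26112)) (c := 32256) (d := 33792) (by norm_num) (by norm_num) (by norm_num) (by norm_num)
    (CovZ.topM TB_LL 5043456793138493409163740325890678490535391066932433103450881491608005896667886977445133152830331249669272369090527232 (by decide +kernel) (CovZ.n2 (-26880, 33024) (by decide +kernel)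
    (CovZ.n2 (-26112, 33024) (by decide +kernel)
     (CovZ.leaf K2_ok TB_l11627 _)
     (CovZ.leaf K2_ok TB_l11628 _))
    (CovZ.leaf K2_ok TB_l11629 _)))
    (CovZ.topM TB_LL 5043456793138493409163740325890678490535391066932433103450881491608005896667886977445133152830331249669272369090527232 (by decide +kernel) (CovZ.n0 (-26880, 33024) (by decide +kernel)
    (CovZ.leaf K2_ok TB_l11630 _)
    (CovZ.n1 (-26880, 33792) (by decide +kernel)
     (CovZ.leaf K2_ok TB_l11631 _)
     (CovZ.leaf K2_ok TB_l11632 _))))

theorem TB_s4_24 : SqZ TB_M TB_L [0, 7, 6, 1] (-32256) (-4608) 1536 4 24 :=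
  SqZ.mk (a := (-26112)) (b := (-24576)) (c := 32256) (d := 33792) (by norm_num) (by norm_num) (by norm_num) (by norm_num)
    (CovZ.topM TB_LL 631663411835949064863871554677723232297869010492505115241316776508399723947807566978824338058288642738123634756550788 (by decide +kernel) (CovZ.n2 (-25344, 33024) (by decide +kernel)
    (CovZ.n2 (-24576, 33024) (by decide +kernel)
     (CovZ.n2 (-24960, 32640) (by decide +kernel)
      (CovZ.leaf K2_ok TB_l13846 _)
      (CovZ.leaf K2_ok TB_l13847 _))
     (CovZ.n1 (-24960, 33408) (by decide +kernel)
      (CovZ.n2 (-24576, 33408) (by decide +kernel)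
       (CovZ.leaf K2_ok TB_l13848 _)
       (CovZ.leaf K2_ok TB_l13849 _))
      (CovZ.leaf K2_ok TB_l13850 _)))
    (CovZ.leaf K2_ok TB_l13851 _)))
    (CovZ.topM TB_LL 631663411835949064863871554677723232297869010492505115241316776508399723947807566978824338058288642738123634756550660 (by decide +kernel) (CovZ.n0 (-25344, 33024) (by decide +kernel)
    (CovZ.n2 (-26112, 33024) (by decide +kernel)
     (CovZ.leaf K2_ok TB_l13852 _)
     (CovZ.leaf K2_ok TB_l13853 _))
    (CovZ.n1 (-25344, 33792) (by decide +kernel)
     (CovZ.n2 (-24960, 33408) (by decide +kernel)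
      (CovZ.n2 (-25344, 33408) (by decide +kernel)
       (CovZ.leaf K2_ok TB_l13854 _)
       (CovZ.leaf K2_ok TB_l13855 _))
      (CovZ.subM 631663411835949064863871554661808888732755837943532883299811902052187938644139541079847305663238386159108938292002816 (by decide +kernel)
       (CovZ.n1 (-24960, 33792) (by decide +kernel)
        (CovZ.n2 (-24768, 33600) (by decide +kernel)
         (CovZ.leaf K2_ok TB_l13856 _)
         (CovZ.n1 (-24768, 33792) (by decide +kernel)
          (CovZ.leaf K2_ok TB_l13857 _)
          (CovZ.leaf K2_ok TB_l13858 _)))
        (CovZ.n1 (-25152, 33600) (by decide +kernel)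
         (CovZ.leaf K2_ok TB_l13859 _)
         (CovZ.leaf K2_ok TB_l13860 _)))))
     (CovZ.n1 (-25728, 33408) (by decide +kernel)
      (CovZ.n2 (-25728, 33792) (by decide +kernel)
       (CovZ.leaf K2_ok TB_l13861 _)
       (CovZ.leaf K2_ok TB_l13862 _))
      (CovZ.leaf K2_ok TB_l13863 _)))))

theorem TB_s5_24 : SqZ TB_M TB_L [0, 7, 6, 1] (-32256) (-4608) 1536 5 24 :=
  SqZ.mk (a := (-24576)) (b := (-23040)) (c := 32256) (d := 33792) (by norm_num) (by norm_num) (by norm_num) (by norm_num)
    (CovZ.topM TB_LL 631663411835949069238373004227832737477760292178775614006954232908632812266978459653060564777702068384044196777164932 (by decide +kernel) (CovZ.n2 (-23808, 33024) (by decide +kernel)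
    (CovZ.n2 (-23040, 33024) (by decide +kernel)
     (CovZ.n2 (-23424, 32640) (by decide +kernel)
      (CovZ.n2 (-23424, 33024) (by decide +kernel)
       (CovZ.n2 (-23232, 32832) (by decide +kernel)
        (CovZ.leaf K2_ok TB_l15600 _)
        (CovZ.leaf K2_ok TB_l15601 _))
       (CovZ.leaf K2_ok TB_l15602 _))
      (CovZ.n1 (-23040, 32640) (by decide +kernel)
       (CovZ.leaf K2_ok TB_l15603 _)
       (CovZ.leaf K2_ok TB_l15604 _)))
     (CovZ.n1 (-23424, 33408) (by decide +kernel)
      (CovZ.n2 (-23040, 33408) (by decide +kernel)
       (CovZ.n2 (-23232, 33216) (by decide +kernel)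
        (CovZ.n2 (-23232, 33408) (by decide +kernel)
         (CovZ.leaf K2_ok TB_l15605 _)
         (CovZ.leaf K2_ok TB_l15606 _))
        (CovZ.n1 (-23040, 33216) (by decide +kernel)
         (CovZ.leaf K2_ok TB_l15607 _)
         (CovZ.leaf K2_ok TB_l15608 _)))
       (CovZ.subM 631663411835949069238373004227832737477760292178775614006150763838612808635610182188200886160034364138982930286379136 (by decide +kernel)
        (CovZ.n1 (-23232, 33600) (by decide +kernel)
         (CovZ.n2 (-23040, 33600) (by decide +kernel)
          (CovZ.n2 (-23136, 33504) (by decide +kernel)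
           (CovZ.n2 (-23136, 33600) (by decide +kernel)
            (CovZ.leaf K2_ok TB_l15609 _)
            (CovZ.leaf K2_ok TB_l15610 _))
           (CovZ.leaf K2_ok TB_l15611 _))
          (CovZ.subM 74366524642622405428665075721999126422110604685201798216110886191848236379340202381201546760259895424 (by decide +kernel)
           (CovZ.n1 (-23136, 33696) (by decide +kernel)
            (CovZ.n2 (-23040, 33696) (by decide +kernel)
             (CovZ.n2 (-23088, 33648) (by decide +kernel)
              (CovZ.n2 (-23088, 33696) (by decide +kernel)
               (CovZ.leaf K2_ok TB_l40377 _)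
               (CovZ.leaf K2_ok TB_l40378 _))
              (CovZ.leaf K2_ok TB_l40379 _))
             (CovZ.n1 (-23088, 33744) (by decide +kernel)
              (CovZ.n2 (-23040, 33744) (by decide +kernel)
               (CovZ.n2 (-23064, 33720) (by decide +kernel)
                (CovZ.leaf K2_ok TB_l40380 _)
                (CovZ.leaf K2_ok TB_l40381 _))
               (CovZ.n1 (-23064, 33768) (by decide +kernel)
                (CovZ.n2 (-23040, 33768) (by decide +kernel)
                 (CovZ.leaf K2_ok TB_l40382 _)
                 (CovZ.leaf K2_ok TB_l40383 _))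
                (CovZ.leaf K2_ok TB_l40384 _)))
              (CovZ.leaf K2_ok TB_l40385 _)))
            (CovZ.leaf K2_ok TB_l40386 _))))
         (CovZ.leaf K2_ok TB_l15612 _))))
      (CovZ.n1 (-23424, 33024) (by decide +kernel)
       (CovZ.n2 (-23616, 33216) (by decide +kernel)
        (CovZ.leaf K2_ok TB_l15613 _)
        (CovZ.leaf K2_ok TB_l15614 _))
       (CovZ.n1 (-23232, 33216) (by decide +kernel)
        (CovZ.leaf K2_ok TB_l15615 _)
        (CovZ.leaf K2_ok TB_l15616 _)))))
    (CovZ.n1 (-23808, 32256) (by decide +kernel)
     (CovZ.n2 (-24192, 32640) (by decide +kernel)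
      (CovZ.leaf K2_ok TB_l15617 _)
      (CovZ.leaf K2_ok TB_l15618 _))
     (CovZ.n1 (-23424, 32640) (by decide +kernel)
      (CovZ.leaf K2_ok TB_l15619 _)
      (CovZ.leaf K2_ok TB_l15620 _)))))
    (CovZ.topM TB_LL 631663411835949069238373004227832737477760292178775614006954232860742326614919432829362220179254906395958599208927364 (by decide +kernel) (CovZ.n0 (-23808, 33024) (by decide +kernel)
    (CovZ.n2 (-24576, 33024) (by decide +kernel)
     (CovZ.n2 (-24192, 33408) (by decide +kernel)
      (CovZ.leaf K2_ok TB_l15621 _)
      (CovZ.subM 631663411835949064863871554661808888732755837943532883300615371074317430927415136714098124847927548757010061944160260 (by decide +kernel)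
       (CovZ.n1 (-24576, 33408) (by decide +kernel)
        (CovZ.n2 (-24384, 33600) (by decide +kernel)
         (CovZ.leaf K2_ok TB_l15622 _)
         (CovZ.leaf K2_ok TB_l15623 _))
        (CovZ.n1 (-24384, 33216) (by decide +kernel)
         (CovZ.leaf K2_ok TB_l15624 _)
         (CovZ.leaf K2_ok TB_l15625 _)))))
     (CovZ.n1 (-24192, 32640) (by decide +kernel)
      (CovZ.leaf K2_ok TB_l15626 _)
      (CovZ.n1 (-24192, 33024) (by decide +kernel)
       (CovZ.leaf K2_ok TB_l15627 _)
       (CovZ.leaf K2_ok TB_l15628 _))))
    (CovZ.n1 (-23808, 33792) (by decide +kernel)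
     (CovZ.n2 (-23424, 33408) (by decide +kernel)
      (CovZ.subM 631663411835949064863871554661808888732755837943532883300615371074317430921839950414465469062543619188847971567665284 (by decide +kernel)
       (CovZ.n2 (-23808, 33408) (by decide +kernel)
        (CovZ.n2 (-23616, 33600) (by decide +kernel)
         (CovZ.leaf K2_ok TB_l15629 _)
         (CovZ.n1 (-23808, 33600) (by decide +kernel)
          (CovZ.n2 (-23712, 33696) (by decide +kernel)
           (CovZ.leaf K2_ok TB_l15630 _)
           (CovZ.leaf K2_ok TB_l15631 _))
          (CovZ.n1 (-23712, 33504) (by decide +kernel)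
           (CovZ.leaf K2_ok TB_l15632 _)
           (CovZ.leaf K2_ok TB_l15633 _))))
        (CovZ.n1 (-23616, 33216) (by decide +kernel)
         (CovZ.leaf K2_ok TB_l15634 _)
         (CovZ.n1 (-23616, 33408) (by decide +kernel)
          (CovZ.leaf K2_ok TB_l15635 _)
          (CovZ.leaf K2_ok TB_l15636 _)))))
      (CovZ.subM 631663411835949069238373004227832737477760292178775614006150763838612808635610182188200886160034364138982930286379136 (by decide +kernel)
       (CovZ.n1 (-23424, 33792) (by decide +kernel)
        (CovZ.n2 (-23232, 33600) (by decide +kernel)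
         (CovZ.n2 (-23424, 33600) (by decide +kernel)
          (CovZ.n2 (-23328, 33696) (by decide +kernel)
           (CovZ.leaf K2_ok TB_l15637 _)
           (CovZ.n1 (-23424, 33696) (by decide +kernel)
            (CovZ.leaf K2_ok TB_l40387 _)
            (CovZ.leaf K2_ok TB_l15638 _)))
          (CovZ.n1 (-23328, 33504) (by decide +kernel)
           (CovZ.leaf K2_ok TB_l15639 _)
           (CovZ.n1 (-23328, 33600) (by decide +kernel)
            (CovZ.leaf K2_ok TB_l15640 _)
            (CovZ.leaf K2_ok TB_l15641 _))))
         (CovZ.subM 74366524642622405428665075721999126422110604685201798216110886191848236379340202381201546760259895424 (by decide +kernel)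
          (CovZ.n1 (-23232, 33792) (by decide +kernel)
           (CovZ.n2 (-23136, 33696) (by decide +kernel)
            (CovZ.n2 (-23232, 33696) (by decide +kernel)
             (CovZ.n2 (-23184, 33744) (by decide +kernel)
              (CovZ.leaf K2_ok TB_l40388 _)
              (CovZ.n1 (-23232, 33744) (by decide +kernel)
               (CovZ.leaf K2_ok TB_l40389 _)
               (CovZ.leaf K2_ok TB_l40390 _)))
             (CovZ.n1 (-23184, 33648) (by decide +kernel)
              (CovZ.leaf K2_ok TB_l40391 _)
              (CovZ.leaf K2_ok TB_l40392 _)))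
            (CovZ.n1 (-23136, 33792) (by decide +kernel)
             (CovZ.n2 (-23088, 33744) (by decide +kernel)
              (CovZ.n2 (-23136, 33744) (by decide +kernel)
               (CovZ.leaf K2_ok TB_l40393 _)
               (CovZ.leaf K2_ok TB_l40394 _))
              (CovZ.n1 (-23088, 33792) (by decide +kernel)
               (CovZ.n2 (-23064, 33768) (by decide +kernel)
                (CovZ.leaf K2_ok TB_l40395 _)
                (CovZ.n1 (-23064, 33792) (by decide +kernel)
                 (CovZ.leaf K2_ok TB_l40396 _)
                 (CovZ.badM (by decide +kernel))))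
               (CovZ.n1 (-23112, 33768) (by decide +kernel)
                (CovZ.n2 (-23112, 33792) (by decide +kernel)
                 (CovZ.leaf K2_ok TB_l40397 _)
                 (CovZ.leaf K2_ok TB_l40398 _))
                (CovZ.leaf K2_ok TB_l40399 _))))
             (CovZ.n1 (-23184, 33744) (by decide +kernel)
              (CovZ.n2 (-23184, 33792) (by decide +kernel)
               (CovZ.n2 (-23160, 33768) (by decide +kernel)
                (CovZ.leaf K2_ok TB_l40400 _)
                (CovZ.leaf K2_ok TB_l40401 _))
               (CovZ.n1 (-23208, 33768) (by decide +kernel)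
                (CovZ.leaf K2_ok TB_l40402 _)
                (CovZ.leaf K2_ok TB_l40403 _)))
              (CovZ.n1 (-23136, 33744) (by decide +kernel)
               (CovZ.leaf K2_ok TB_l40404 _)
               (CovZ.leaf K2_ok TB_l40405 _)))))
           (CovZ.n1 (-23328, 33696) (by decide +kernel)
            (CovZ.n2 (-23328, 33792) (by decide +kernel)
             (CovZ.n2 (-23280, 33744) (by decide +kernel)
              (CovZ.leaf K2_ok TB_l40406 _)
              (CovZ.n1 (-23280, 33792) (by decide +kernel)
               (CovZ.n2 (-23256, 33768) (by decide +kernel)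
                (CovZ.leaf K2_ok TB_l40407 _)
                (CovZ.leaf K2_ok TB_l40408 _))
               (CovZ.leaf K2_ok TB_l40409 _)))
             (CovZ.n1 (-23376, 33744) (by decide +kernel)
              (CovZ.n2 (-23376, 33792) (by decide +kernel)
               (CovZ.leaf K2_ok TB_l40410 _)
               (CovZ.leaf K2_ok TB_l40411 _))
              (CovZ.leaf K2_ok TB_l40412 _)))
            (CovZ.n1 (-23232, 33696) (by decide +kernel)
             (CovZ.n2 (-23280, 33648) (by decide +kernel)
              (CovZ.leaf K2_ok TB_l40413 _)
              (CovZ.leaf K2_ok TB_l40414 _))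
             (CovZ.n1 (-23280, 33744) (by decide +kernel)
              (CovZ.leaf K2_ok TB_l40415 _)
              (CovZ.leaf K2_ok TB_l40416 _)))))))
        (CovZ.n1 (-23616, 33600) (by decide +kernel)
         (CovZ.subM 631663411835949064863871554661808888732755837943532883299811902052187935784068969368294887761282517691956575149752320 (by decide +kernel)
          (CovZ.n2 (-23616, 33792) (by decide +kernel)
           (CovZ.n2 (-23520, 33696) (by decide +kernel)
            (CovZ.n2 (-23616, 33696) (by decide +kernel)
             (CovZ.leaf K2_ok TB_l15642 _)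
             (CovZ.leaf K2_ok TB_l15643 _))
            (CovZ.n1 (-23520, 33792) (by decide +kernel)
             (CovZ.n2 (-23472, 33744) (by decide +kernel)
              (CovZ.leaf K2_ok TB_l15644 _)
              (CovZ.n1 (-23472, 33792) (by decide +kernel)
               (CovZ.leaf K2_ok TB_l40417 _)
               (CovZ.leaf K2_ok TB_l40418 _)))
             (CovZ.n1 (-23568, 33744) (by decide +kernel)
              (CovZ.leaf K2_ok TB_l15645 _)
              (CovZ.leaf K2_ok TB_l15646 _))))
           (CovZ.n1 (-23712, 33696) (by decide +kernel)
            (CovZ.n2 (-23712, 33792) (by decide +kernel)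
             (CovZ.n2 (-23664, 33744) (by decide +kernel)
              (CovZ.leaf K2_ok TB_l15647 _)
              (CovZ.leaf K2_ok TB_l15648 _))
             (CovZ.leaf K2_ok TB_l15649 _))
            (CovZ.n1 (-23616, 33696) (by decide +kernel)
             (CovZ.leaf K2_ok TB_l15650 _)
             (CovZ.leaf K2_ok TB_l15651 _)))))
         (CovZ.n1 (-23424, 33600) (by decide +kernel)
          (CovZ.n2 (-23520, 33504) (by decide +kernel)
           (CovZ.leaf K2_ok TB_l15652 _)
           (CovZ.leaf K2_ok TB_l15653 _))
          (CovZ.n1 (-23520, 33696) (by decide +kernel)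
           (CovZ.n2 (-23424, 33696) (by decide +kernel)
            (CovZ.leaf K2_ok TB_l15654 _)
            (CovZ.leaf K2_ok TB_l15655 _))
           (CovZ.leaf K2_ok TB_l15656 _)))))))
     (CovZ.n1 (-24192, 33408) (by decide +kernel)
      (CovZ.subM 631663411835949064863871554661808888732755837943532883299811902052187935789644155667927543546666447260118665526509568 (by decide +kernel)
       (CovZ.n2 (-24192, 33792) (by decide +kernel)
        (CovZ.n2 (-24000, 33600) (by decide +kernel)
         (CovZ.n2 (-24192, 33600) (by decide +kernel)
          (CovZ.leaf K2_ok TB_l15657 _)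
          (CovZ.leaf K2_ok TB_l15658 _))
         (CovZ.n1 (-24000, 33792) (by decide +kernel)
          (CovZ.n2 (-23904, 33696) (by decide +kernel)
           (CovZ.leaf K2_ok TB_l15659 _)
           (CovZ.n1 (-23904, 33792) (by decide +kernel)
            (CovZ.leaf K2_ok TB_l15660 _)
            (CovZ.leaf K2_ok TB_l15661 _)))
          (CovZ.n1 (-24096, 33696) (by decide +kernel)
           (CovZ.n2 (-24096, 33792) (by decide +kernel)
            (CovZ.leaf K2_ok TB_l15662 _)
            (CovZ.leaf K2_ok TB_l15663 _))
           (CovZ.leaf K2_ok TB_l15664 _))))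
        (CovZ.n1 (-24384, 33600) (by decide +kernel)
         (CovZ.n2 (-24384, 33792) (by decide +kernel)
          (CovZ.n2 (-24288, 33696) (by decide +kernel)
           (CovZ.leaf K2_ok TB_l15665 _)
           (CovZ.leaf K2_ok TB_l15666 _))
          (CovZ.leaf K2_ok TB_l15667 _))
         (CovZ.n1 (-24192, 33600) (by decide +kernel)
          (CovZ.leaf K2_ok TB_l15668 _)
          (CovZ.leaf K2_ok TB_l15669 _)))))
      (CovZ.subM 631663411835949064863871554661808888732755837943532883300615371074317430921839950414465469062543619188847971567665284 (by decide +kernel)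
       (CovZ.n1 (-23808, 33408) (by decide +kernel)
        (CovZ.n2 (-24000, 33216) (by decide +kernel)
         (CovZ.leaf K2_ok TB_l15670 _)
         (CovZ.leaf K2_ok TB_l15671 _))
        (CovZ.n1 (-24000, 33600) (by decide +kernel)
         (CovZ.n2 (-23808, 33600) (by decide +kernel)
          (CovZ.leaf K2_ok TB_l15672 _)
          (CovZ.n1 (-23904, 33696) (by decide +kernel)
           (CovZ.leaf K2_ok TB_l15673 _)
           (CovZ.leaf K2_ok TB_l15674 _)))
         (CovZ.leaf K2_ok TB_l15675 _))))))))

theorem TB_s6_24 : SqZ TB_M TB_L [0, 7, 6, 1] (-32256) (-4608) 1536 6 24 :=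
  SqZ.mk (a := (-23040)) (b := (-21504)) (c := 32256) (d := 33792) (by norm_num) (by norm_num) (by norm_num) (by norm_num)
    (CovZ.topM TB_LL 631663411835949078001610254466447124813729774988031606308351542088249872341866325517770932710944425502704665268322436 (by decide +kernel) (CovZ.n2 (-22272, 33024) (by decide +kernel)
    (CovZ.n2 (-21504, 33024) (by decide +kernel)
     (CovZ.n2 (-21888, 32640) (by decide +kernel)
      (CovZ.n2 (-21888, 33024) (by decide +kernel)
       (CovZ.n2 (-21696, 32832) (by decide +kernel)
        (CovZ.leaf K2_ok TB_l18681 _)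
        (CovZ.n1 (-21696, 33024) (by decide +kernel)
         (CovZ.n2 (-21600, 32928) (by decide +kernel)
          (CovZ.leaf K2_ok TB_l18682 _)
          (CovZ.leaf K2_ok TB_l18683 _))
         (CovZ.leaf K2_ok TB_l18684 _)))
       (CovZ.n1 (-22080, 32832) (by decide +kernel)
        (CovZ.n2 (-22080, 33024) (by decide +kernel)
         (CovZ.leaf K2_ok TB_l18685 _)
         (CovZ.leaf K2_ok TB_l18686 _))
        (CovZ.leaf K2_ok TB_l18687 _)))
      (CovZ.n1 (-21504, 32640) (by decide +kernel)
       (CovZ.n2 (-21696, 32448) (by decide +kernel)
        (CovZ.leaf K2_ok TB_l18688 _)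
        (CovZ.leaf K2_ok TB_l18689 _))
       (CovZ.n1 (-21696, 32832) (by decide +kernel)
        (CovZ.n2 (-21504, 32832) (by decide +kernel)
         (CovZ.leaf K2_ok TB_l18690 _)
         (CovZ.leaf K2_ok TB_l18691 _))
        (CovZ.leaf K2_ok TB_l18692 _))))
     TB_u534)
    (CovZ.n1 (-22272, 32256) (by decide +kernel)
     (CovZ.n2 (-22656, 32640) (by decide +kernel)
      (CovZ.n2 (-22272, 32640) (by decide +kernel)
       (CovZ.leaf K2_ok TB_l18729 _)
       (CovZ.leaf K2_ok TB_l18730 _))
      (CovZ.leaf K2_ok TB_l18731 _))
     (CovZ.n1 (-21888, 32640) (by decide +kernel)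
      (CovZ.leaf K2_ok TB_l18732 _)
      (CovZ.n1 (-22272, 32640) (by decide +kernel)
       (CovZ.leaf K2_ok TB_l18733 _)
       (CovZ.leaf K2_ok TB_l18734 _))))))
    (CovZ.topM TB_LL 631663411835949069252607355334399427323720866517546144895673818514651837800470477583838649279089995702588119714103428 (by decide +kernel) (CovZ.n0 (-22272, 33024) (by decide +kernel)
    (CovZ.n2 (-23040, 33024) (by decide +kernel)
     (CovZ.n2 (-22656, 33408) (by decide +kernel)
      (CovZ.n2 (-22656, 33024) (by decide +kernel)
       (CovZ.n2 (-22848, 33216) (by decide +kernel)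
        (CovZ.n2 (-22656, 33216) (by decide +kernel)
         (CovZ.leaf K2_ok TB_l18735 _)
         (CovZ.leaf K2_ok TB_l18736 _))
        (CovZ.leaf K2_ok TB_l18737 _))
       (CovZ.n1 (-22464, 33216) (by decide +kernel)
        (CovZ.leaf K2_ok TB_l18738 _)
        (CovZ.n1 (-22656, 33216) (by decide +kernel)
         (CovZ.leaf K2_ok TB_l18739 _)
         (CovZ.leaf K2_ok TB_l18740 _))))
      (CovZ.subM 631663411835949069238373004227832737477760292178775614006954232860742326609344246529729564393870976827796508828237956 (by decide +kernel)
       (CovZ.n1 (-23040, 33408) (by decide +kernel)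
        (CovZ.n2 (-22848, 33600) (by decide +kernel)
         (CovZ.n2 (-22848, 33408) (by decide +kernel)
          (CovZ.n2 (-22944, 33504) (by decide +kernel)
           (CovZ.n2 (-22848, 33504) (by decide +kernel)
            (CovZ.leaf K2_ok TB_l18741 _)
            (CovZ.leaf K2_ok TB_l18742 _))
           (CovZ.leaf K2_ok TB_l18743 _))
          (CovZ.n1 (-22752, 33504) (by decide +kernel)
           (CovZ.leaf K2_ok TB_l18744 _)
           (CovZ.n1 (-22848, 33504) (by decide +kernel)
            (CovZ.leaf K2_ok TB_l18745 _)
            (CovZ.leaf K2_ok TB_l18746 _))))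
         (CovZ.subM 74366524642622405428665075721999126422110604685201798581486295524573965930261410560272301675316772992 (by decide +kernel)
          (CovZ.n1 (-23040, 33600) (by decide +kernel)
           (CovZ.n2 (-22944, 33696) (by decide +kernel)
            (CovZ.n2 (-22944, 33600) (by decide +kernel)
             (CovZ.n2 (-22992, 33648) (by decide +kernel)
              (CovZ.leaf K2_ok TB_l40872 _)
              (CovZ.leaf K2_ok TB_l40873 _))
             (CovZ.n1 (-22896, 33648) (by decide +kernel)
              (CovZ.leaf K2_ok TB_l40874 _)
              (CovZ.leaf K2_ok TB_l40875 _)))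
            (CovZ.n1 (-23040, 33696) (by decide +kernel)
             (CovZ.subM 4374501449566023848745004454235242730809182896619000250486226786729740404960172838049125095522173056 (by decide +kernel)
              (CovZ.n2 (-22992, 33744) (by decide +kernel)
               (CovZ.leaf K2_ok TB_l40876 _)
               (CovZ.n1 (-23040, 33744) (by decide +kernel)
                (CovZ.n2 (-23016, 33768) (by decide +kernel)
                 (CovZ.leaf K2_ok TB_l40877 _)
                 (CovZ.n1 (-23040, 33768) (by decide +kernel)
                  (CovZ.leaf K2_ok TB_l40878 _)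
                  (CovZ.leaf K2_ok TB_l40879 _)))
                (CovZ.n1 (-23016, 33720) (by decide +kernel)
                 (CovZ.leaf K2_ok TB_l40880 _)
                 (CovZ.leaf K2_ok TB_l40881 _)))))
             (CovZ.n1 (-22992, 33648) (by decide +kernel)
              (CovZ.leaf K2_ok TB_l40882 _)
              (CovZ.n1 (-22992, 33696) (by decide +kernel)
               (CovZ.leaf K2_ok TB_l40883 _)
               (CovZ.leaf K2_ok TB_l40884 _)))))
           (CovZ.n1 (-22944, 33504) (by decide +kernel)
            (CovZ.leaf K2_ok TB_l18747 _)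
            (CovZ.n1 (-22944, 33600) (by decide +kernel)
             (CovZ.n2 (-22896, 33552) (by decide +kernel)
              (CovZ.leaf K2_ok TB_l18748 _)
              (CovZ.leaf K2_ok TB_l18749 _))
             (CovZ.leaf K2_ok TB_l18750 _))))))
        (CovZ.n1 (-22848, 33216) (by decide +kernel)
         (CovZ.n2 (-23040, 33216) (by decide +kernel)
          (CovZ.leaf K2_ok TB_l18751 _)
          (CovZ.leaf K2_ok TB_l18752 _))
         (CovZ.n1 (-22848, 33408) (by decide +kernel)
          (CovZ.n2 (-22752, 33312) (by decide +kernel)
           (CovZ.leaf K2_ok TB_l18753 _)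
           (CovZ.leaf K2_ok TB_l18754 _))
          (CovZ.n1 (-22944, 33312) (by decide +kernel)
           (CovZ.leaf K2_ok TB_l18755 _)
           (CovZ.leaf K2_ok TB_l18756 _)))))))
     (CovZ.n1 (-22656, 32640) (by decide +kernel)
      (CovZ.n2 (-23040, 32640) (by decide +kernel)
       (CovZ.leaf K2_ok TB_l18757 _)
       (CovZ.leaf K2_ok TB_l18758 _))
      (CovZ.n1 (-22656, 33024) (by decide +kernel)
       (CovZ.n2 (-22464, 32832) (by decide +kernel)
        (CovZ.leaf K2_ok TB_l18759 _)
        (CovZ.n1 (-22464, 33024) (by decide +kernel)
         (CovZ.leaf K2_ok TB_l18760 _)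
         (CovZ.leaf K2_ok TB_l18761 _)))
       (CovZ.n1 (-22848, 32832) (by decide +kernel)
        (CovZ.leaf K2_ok TB_l18762 _)
        (CovZ.leaf K2_ok TB_l18763 _)))))
    (CovZ.n1 (-22272, 33792) (by decide +kernel)
     TB_u535
     TB_u536)))

end Pool.Agent.TET
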