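import Pool.Agent.Helper38_TET.TB_M
import Pool.Agent.Helper38_TET.TB_L
import Pool.Agent.Helper38_TET.TB_34
import Pool.Agent.Helper38_TET.TB_35
import Pool.Agent.Helper38_TET.TB_56
import Pool.Agent.Helper38_TET.TB_57
import Pool.Agent.Helper38_TET.TB_77
import Pool.Agent.Helper38_TET.TB_78
import Pool.Agent.Helper38_TET.TB_104
import Pool.Agent.Helper38_TET.TB_105
import Pool.Agent.Helper38_TET.TB_131
import Pool.Agent.Helper38_TET.TB_137
import Pool.Agent.Helper38_TET.TB_138
import Pool.Agent.Helper38_TET.TB_261
import Pool.Agent.Helper38_TET.TB_264
import Pool.Agent.Helper38_TET.TB_269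
import Pool.Agent.Helper38_TET.TB_278
import Pool.Agent.Helper38_TET.TB_280
import Pool.Agent.Helper38_TET.TB_323

/-!
# MP_c7c9bf_co: certificates, family TB
-/

set_option autoImplicit false
set_option maxRecDepth 100000

namespace Pool.Agent.TET

theorem TB_u539 : CovZ TB_M (toL (selN TB_LN 83124071489898136766484664717294290091879652661102269497287929053460362688012688322946278635817926656)) [0, 7, 6, 1] (-21504, 33792) (-21504, 33024) (-20736, 33024) :=
    (CovZ.subM 8757546847275731337819588995295163669871892010733046293436319102796231164312697572495504684009652224 (by decide +kernel)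
      (CovZ.n2 (-21120, 33408) (by decide +kernel)
       (CovZ.n2 (-21120, 33024) (by decide +kernel)
        (CovZ.n2 (-21312, 33216) (by decide +kernel)
         (CovZ.subM 1667025305080561141076078012317010319296121798656 (by decide +kernel)
          (CovZ.n2 (-21120, 33216) (by decide +kernel)
           (CovZ.n2 (-21216, 33120) (by decide +kernel)
            (CovZ.n2 (-21216, 33216) (by decide +kernel)
             (CovZ.n2 (-21168, 33168) (by decide +kernel)
              (CovZ.leaf K2_ok TB_l19682 _)
              (CovZ.n1 (-21168, 33216) (by decide +kernel)
               (CovZ.n2 (-21144, 33192) (by decide +kernel)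
                (CovZ.leaf K2_ok TB_l41727 _)
                (CovZ.leaf K2_ok TB_l41728 _))
               (CovZ.leaf K2_ok TB_l41729 _)))
             (CovZ.n1 (-21264, 33168) (by decide +kernel)
              (CovZ.n2 (-21264, 33216) (by decide +kernel)
               (CovZ.leaf K2_ok TB_l19683 _)
               (CovZ.leaf K2_ok TB_l19684 _))
              (CovZ.leaf K2_ok TB_l19685 _)))
            (CovZ.n1 (-21120, 33120) (by decide +kernel)
             (CovZ.n2 (-21168, 33072) (by decide +kernel)
              (CovZ.leaf K2_ok TB_l19686 _)
              (CovZ.leaf K2_ok TB_l19687 _))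
             (CovZ.n1 (-21168, 33168) (by decide +kernel)
              (CovZ.n2 (-21120, 33168) (by decide +kernel)
               (CovZ.leaf K2_ok TB_l41730 _)
               (CovZ.leaf K2_ok TB_l41731 _))
              (CovZ.leaf K2_ok TB_l19688 _))))
           (CovZ.n1 (-21216, 33312) (by decide +kernel)
            (CovZ.n2 (-21120, 33312) (by decide +kernel)
             (CovZ.n2 (-21168, 33264) (by decide +kernel)
              (CovZ.badM (by decide +kernel))
              (CovZ.n1 (-21120, 33264) (by decide +kernel)
               (CovZ.n2 (-21144, 33240) (by decide +kernel)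
                (CovZ.badM (by decide +kernel))
                (CovZ.leaf K2_ok TB_l41734 _))
               (CovZ.badM (by decide +kernel))))
             (CovZ.badM (by decide +kernel)))
            (CovZ.n1 (-21216, 33216) (by decide +kernel)
             (CovZ.badM (by decide +kernel))
             (CovZ.n1 (-21168, 33264) (by decide +kernel)
              (CovZ.n2 (-21168, 33216) (by decide +kernel)
               (CovZ.leaf K2_ok TB_l41738 _)
               (CovZ.leaf K2_ok TB_l41739 _))
              (CovZ.badM (by decide +kernel)))))))
         (CovZ.n1 (-21312, 33024) (by decide +kernel)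
          (CovZ.n2 (-21408, 33120) (by decide +kernel)
           (CovZ.n2 (-21312, 33120) (by decide +kernel)
            (CovZ.leaf K2_ok TB_l19690 _)
            (CovZ.leaf K2_ok TB_l19691 _))
           (CovZ.leaf K2_ok TB_l19692 _))
          (CovZ.n1 (-21216, 33120) (by decide +kernel)
           (CovZ.leaf K2_ok TB_l19693 _)
           (CovZ.n1 (-21312, 33120) (by decide +kernel)
            (CovZ.leaf K2_ok TB_l19694 _)
            (CovZ.leaf K2_ok TB_l19695 _)))))
        (CovZ.subM 8749002899132047697490008908470485461412677723572851412728387506200953072875516009904372004214013952 (by decide +kernel)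
         (CovZ.n1 (-20928, 33216) (by decide +kernel)
          (CovZ.n2 (-20928, 33024) (by decide +kernel)
           (CovZ.n2 (-21024, 33120) (by decide +kernel)
            (CovZ.n2 (-20928, 33120) (by decide +kernel)
             (CovZ.n2 (-20976, 33072) (by decide +kernel)
              (CovZ.n2 (-20976, 33120) (by decide +kernel)
               (CovZ.leaf K2_ok TB_l41743 _)
               (CovZ.leaf K2_ok TB_l41744 _))
              (CovZ.leaf K2_ok TB_l41745 _))
             (CovZ.n1 (-20976, 33168) (by decide +kernel)
              (CovZ.n2 (-20928, 33168) (by decide +kernel)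
               (CovZ.n2 (-20952, 33144) (by decide +kernel)
                (CovZ.badM (by decide +kernel))
                (CovZ.leaf K2_ok TB_l41746 _))
               (CovZ.badM (by decide +kernel)))
              (CovZ.leaf K2_ok TB_l41747 _)))
            (CovZ.leaf K2_ok TB_l19696 _))
           (CovZ.n1 (-20832, 33120) (by decide +kernel)
            (CovZ.n2 (-20832, 33024) (by decide +kernel)
             (CovZ.n2 (-20880, 33072) (by decide +kernel)
              (CovZ.n2 (-20832, 33072) (by decide +kernel)
               (CovZ.leaf K2_ok TB_l41748 _)
               (CovZ.leaf K2_ok TB_l41749 _))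
              (CovZ.leaf K2_ok TB_l41750 _))
             (CovZ.n1 (-20784, 33072) (by decide +kernel)
              (CovZ.leaf K2_ok TB_l41751 _)
              (CovZ.leaf K2_ok TB_l41752 _)))
            (CovZ.n1 (-20928, 33120) (by decide +kernel)
             (CovZ.n2 (-20880, 33168) (by decide +kernel)
              (CovZ.leaf K2_ok TB_l41753 _)
              (CovZ.n1 (-20928, 33168) (by decide +kernel)
               (CovZ.badM (by decide +kernel))
               (CovZ.n1 (-20904, 33144) (by decide +kernel)
                (CovZ.leaf K2_ok TB_l41754 _)
                (CovZ.badM (by decide +kernel)))))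
             (CovZ.n1 (-20880, 33072) (by decide +kernel)
              (CovZ.leaf K2_ok TB_l41755 _)
              (CovZ.n1 (-20880, 33120) (by decide +kernel)
               (CovZ.leaf K2_ok TB_l41756 _)
               (CovZ.leaf K2_ok TB_l41757 _))))))
          (CovZ.n1 (-21120, 33216) (by decide +kernel)
           (CovZ.n2 (-21024, 33312) (by decide +kernel)
            (CovZ.n2 (-21024, 33216) (by decide +kernel)
             (CovZ.n2 (-21072, 33264) (by decide +kernel)
              (CovZ.badM (by decide +kernel))
              (CovZ.n1 (-21072, 33216) (by decide +kernel)
               (CovZ.n2 (-21096, 33240) (by decide +kernel)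
                (CovZ.badM (by decide +kernel))
                (CovZ.leaf K2_ok TB_l41758 _))
               (CovZ.badM (by decide +kernel))))
             (CovZ.badM (by decide +kernel)))
            (CovZ.n1 (-21120, 33312) (by decide +kernel)
             (CovZ.badM (by decide +kernel))
             (CovZ.n1 (-21072, 33264) (by decide +kernel)
              (CovZ.n2 (-21120, 33264) (by decide +kernel)
               (CovZ.n2 (-21096, 33288) (by decide +kernel)
                (CovZ.n2 (-21096, 33264) (by decide +kernel)
                 (CovZ.badM (by decide +kernel))
                 (CovZ.badM (by decide +kernel)))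
                (CovZ.badM (by decide +kernel)))
               (CovZ.n1 (-21096, 33240) (by decide +kernel)
                (CovZ.leaf K2_ok TB_l41759 _)
                (CovZ.n1 (-21096, 33264) (by decide +kernel)
                 (CovZ.badM (by decide +kernel))
                 (CovZ.leaf K2_ok TB_l41760 _))))
              (CovZ.n1 (-21072, 33312) (by decide +kernel)
               (CovZ.badM (by decide +kernel))
               (CovZ.n1 (-21096, 33288) (by decide +kernel)
                (CovZ.badM (by decide +kernel))
                (CovZ.badM (by decide +kernel)))))))
           (CovZ.n1 (-21024, 33120) (by decide +kernel)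
            (CovZ.n2 (-21120, 33120) (by decide +kernel)
             (CovZ.n2 (-21072, 33168) (by decide +kernel)
              (CovZ.leaf K2_ok TB_l41761 _)
              (CovZ.n1 (-21120, 33168) (by decide +kernel)
               (CovZ.leaf K2_ok TB_l41762 _)
               (CovZ.leaf K2_ok TB_l41763 _)))
             (CovZ.n1 (-21072, 33072) (by decide +kernel)
              (CovZ.leaf K2_ok TB_l19697 _)
              (CovZ.leaf K2_ok TB_l41764 _)))
            (CovZ.n1 (-21024, 33216) (by decide +kernel)
             (CovZ.n2 (-20976, 33168) (by decide +kernel)
              (CovZ.n2 (-21024, 33168) (by decide +kernel)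
               (CovZ.badM (by decide +kernel))
               (CovZ.n1 (-21000, 33144) (by decide +kernel)
                (CovZ.leaf K2_ok TB_l41765 _)
                (CovZ.badM (by decide +kernel))))
              (CovZ.badM (by decide +kernel)))
             (CovZ.n1 (-21072, 33168) (by decide +kernel)
              (CovZ.n2 (-21072, 33216) (by decide +kernel)
               (CovZ.badM (by decide +kernel))
               (CovZ.n1 (-21096, 33192) (by decide +kernel)
                (CovZ.leaf K2_ok TB_l41766 _)
                (CovZ.badM (by decide +kernel))))
              (CovZ.n1 (-21024, 33168) (by decide +kernel)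
               (CovZ.leaf K2_ok TB_l41767 _)
               (CovZ.badM (by decide +kernel))))))))))
       (CovZ.n1 (-21504, 33408) (by decide +kernel)
        (CovZ.subM 8543948143683640329580086824678208458410818138065385570160615549107510135920461094241283377987584 (by decide +kernel)
         (CovZ.n2 (-21312, 33600) (by decide +kernel)
          (CovZ.n2 (-21312, 33408) (by decide +kernel)
           (CovZ.n2 (-21408, 33504) (by decide +kernel)
            (CovZ.badM (by decide +kernel))
            (CovZ.n1 (-21408, 33408) (by decide +kernel)
             (CovZ.badM (by decide +kernel))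
             (CovZ.badM (by decide +kernel))))
           (CovZ.badM (by decide +kernel)))
          (CovZ.badM (by decide +kernel))))
        (CovZ.n1 (-21312, 33216) (by decide +kernel)
         (CovZ.n2 (-21504, 33216) (by decide +kernel)
          (CovZ.subM 8543948143683640329580086824678208459214287160195063395636262958142866897785652126510136787206144 (by decide +kernel)
           (CovZ.n2 (-21408, 33312) (by decide +kernel)
            (CovZ.n2 (-21408, 33216) (by decide +kernel)
             (CovZ.n2 (-21456, 33264) (by decide +kernel)
              (CovZ.n2 (-21408, 33264) (by decide +kernel)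
               (CovZ.leaf K2_ok TB_l41768 _)
               (CovZ.leaf K2_ok TB_l41769 _))
              (CovZ.leaf K2_ok TB_l41770 _))
             (CovZ.n1 (-21360, 33264) (by decide +kernel)
              (CovZ.leaf K2_ok TB_l19698 _)
              (CovZ.n1 (-21408, 33264) (by decide +kernel)
               (CovZ.badM (by decide +kernel))
               (CovZ.leaf K2_ok TB_l19700 _))))
            (CovZ.n1 (-21504, 33312) (by decide +kernel)
             (CovZ.n2 (-21456, 33360) (by decide +kernel)
              (CovZ.n2 (-21456, 33312) (by decide +kernel)
               (CovZ.n2 (-21480, 33336) (by decide +kernel)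
                (CovZ.badM (by decide +kernel))
                (CovZ.leaf K2_ok TB_l41772 _))
               (CovZ.n1 (-21432, 33336) (by decide +kernel)
                (CovZ.leaf K2_ok TB_l41773 _)
                (CovZ.badM (by decide +kernel))))
              (CovZ.n1 (-21504, 33360) (by decide +kernel)
               (CovZ.n2 (-21480, 33384) (by decide +kernel)
                (CovZ.leaf K2_ok TB_l41775 _)
                (CovZ.badM (by decide +kernel)))
               (CovZ.n1 (-21480, 33336) (by decide +kernel)
                (CovZ.leaf K2_ok TB_l41776 _)
                (CovZ.n1 (-21480, 33360) (by decide +kernel)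
                 (CovZ.badM (by decide +kernel))
                 (CovZ.leaf K2_ok TB_l41777 _)))))
             (CovZ.n1 (-21456, 33264) (by decide +kernel)
              (CovZ.leaf K2_ok TB_l41778 _)
              (CovZ.n1 (-21456, 33312) (by decide +kernel)
               (CovZ.n2 (-21432, 33288) (by decide +kernel)
                (CovZ.leaf K2_ok TB_l41779 _)
                (CovZ.leaf K2_ok TB_l41780 _))
               (CovZ.n1 (-21480, 33288) (by decide +kernel)
                (CovZ.leaf K2_ok TB_l41781 _)
                (CovZ.leaf K2_ok TB_l41782 _)))))))
          (CovZ.n1 (-21408, 33120) (by decide +kernel)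
           (CovZ.n2 (-21504, 33120) (by decide +kernel)
            (CovZ.leaf K2_ok TB_l19701 _)
            (CovZ.leaf K2_ok TB_l19702 _))
           (CovZ.n1 (-21408, 33216) (by decide +kernel)
            (CovZ.n2 (-21360, 33168) (by decide +kernel)
             (CovZ.leaf K2_ok TB_l19703 _)
             (CovZ.n1 (-21360, 33216) (by decide +kernel)
              (CovZ.leaf K2_ok TB_l19704 _)
              (CovZ.leaf K2_ok TB_l19705 _)))
            (CovZ.n1 (-21456, 33168) (by decide +kernel)
             (CovZ.leaf K2_ok TB_l19706 _)
             (CovZ.leaf K2_ok TB_l19707 _)))))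
         (CovZ.subM 8543948143683640329580086824678208459214287160194880707931596595278091437181562591132679795638272 (by decide +kernel)
          (CovZ.n1 (-21312, 33408) (by decide +kernel)
           (CovZ.badM (by decide +kernel))
           (CovZ.n1 (-21408, 33312) (by decide +kernel)
            (CovZ.n2 (-21408, 33408) (by decide +kernel)
             (CovZ.badM (by decide +kernel))
             (CovZ.n1 (-21456, 33360) (by decide +kernel)
              (CovZ.n2 (-21456, 33408) (by decide +kernel)
               (CovZ.badM (by decide +kernel))
               (CovZ.n1 (-21480, 33384) (by decide +kernel)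
                (CovZ.badM (by decide +kernel))
                (CovZ.badM (by decide +kernel))))
              (CovZ.n1 (-21408, 33360) (by decide +kernel)
               (CovZ.n2 (-21432, 33336) (by decide +kernel)
                (CovZ.badM (by decide +kernel))
                (CovZ.badM (by decide +kernel)))
               (CovZ.badM (by decide +kernel)))))
            (CovZ.badM (by decide +kernel)))))))))

theorem TB_u540 : CovZ TB_M (toL (selN TB_LN 83124071489898136766484664717294290091879652661102269497287929053460362688012688322946278635817926656)) [0, 7, 6, 1] (-21504, 33024) (-21504, 32256) (-20736, 33024) :=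
    (CovZ.n1 (-21120, 32640) (by decide +kernel)
      (CovZ.n2 (-21504, 32640) (by decide +kernel)
       (CovZ.n2 (-21312, 32832) (by decide +kernel)
        (CovZ.leaf K2_ok TB_l19715 _)
        (CovZ.n1 (-21504, 32832) (by decide +kernel)
         (CovZ.leaf K2_ok TB_l19716 _)
         (CovZ.leaf K2_ok TB_l19717 _)))
       (CovZ.n1 (-21312, 32448) (by decide +kernel)
        (CovZ.leaf K2_ok TB_l19718 _)
        (CovZ.n1 (-21312, 32640) (by decide +kernel)
         (CovZ.leaf K2_ok TB_l19719 _)
         (CovZ.leaf K2_ok TB_l19720 _))))
      (CovZ.n1 (-21120, 33024) (by decide +kernel)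
       (CovZ.subM 8749002899132047697490008908470485461412677723572851412728387506200953072875516009904372004218208256 (by decide +kernel)
        (CovZ.n2 (-20928, 32832) (by decide +kernel)
         (CovZ.n2 (-21120, 32832) (by decide +kernel)
          (CovZ.leaf K2_ok TB_l19721 _)
          (CovZ.n1 (-21024, 32736) (by decide +kernel)
           (CovZ.leaf K2_ok TB_l19722 _)
           (CovZ.leaf K2_ok TB_l19723 _)))
         (CovZ.n1 (-20928, 33024) (by decide +kernel)
          (CovZ.n2 (-20832, 32928) (by decide +kernel)
           (CovZ.leaf K2_ok TB_l19724 _)
           (CovZ.subM 8749002899132047697490008908470485461412677723572849768539045508935170093730079204085974891289903104 (by decide +kernel)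
            (CovZ.n1 (-20832, 33024) (by decide +kernel)
             (CovZ.n2 (-20784, 32976) (by decide +kernel)
              (CovZ.leaf K2_ok TB_l41793 _)
              (CovZ.leaf K2_ok TB_l41794 _))
             (CovZ.n1 (-20880, 32976) (by decide +kernel)
              (CovZ.leaf K2_ok TB_l41795 _)
              (CovZ.leaf K2_ok TB_l41796 _)))))
          (CovZ.n1 (-21024, 32928) (by decide +kernel)
           (CovZ.n2 (-21024, 33024) (by decide +kernel)
            (CovZ.leaf K2_ok TB_l19725 _)
            (CovZ.leaf K2_ok TB_l19726 _))
           (CovZ.n1 (-20928, 32928) (by decide +kernel)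
            (CovZ.leaf K2_ok TB_l19727 _)
            (CovZ.leaf K2_ok TB_l19728 _))))))
       (CovZ.n1 (-21312, 32832) (by decide +kernel)
        (CovZ.n2 (-21312, 33024) (by decide +kernel)
         (CovZ.n2 (-21216, 32928) (by decide +kernel)
          (CovZ.leaf K2_ok TB_l19729 _)
          (CovZ.n1 (-21216, 33024) (by decide +kernel)
           (CovZ.leaf K2_ok TB_l19730 _)
           (CovZ.leaf K2_ok TB_l19731 _)))
         (CovZ.n1 (-21408, 32928) (by decide +kernel)
          (CovZ.n2 (-21408, 33024) (by decide +kernel)
           (CovZ.leaf K2_ok TB_l19732 _)
           (CovZ.leaf K2_ok TB_l19733 _))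
          (CovZ.leaf K2_ok TB_l19734 _)))
        (CovZ.n1 (-21120, 32832) (by decide +kernel)
         (CovZ.leaf K2_ok TB_l19735 _)
         (CovZ.n1 (-21216, 32928) (by decide +kernel)
          (CovZ.leaf K2_ok TB_l19736 _)
          (CovZ.leaf K2_ok TB_l19737 _))))))

theorem TB_u541 : CovZ TB_M (toL (selN TB_LN 34996011596528190789960035746960153991467307987622439121702967048699649774959930137315646746298155008)) [0, 7, 6, 1] (-18432, 33792) (-19200, 33024) (-18432, 32256) :=
    (CovZ.subM 34996011596528190789960035633881941845650710894291398982812329702559247987190014771576210832370958336 (by decide +kernel)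
     (CovZ.n2 (-18432, 33024) (by decide +kernel)
      (CovZ.n2 (-18816, 32640) (by decide +kernel)
       (CovZ.badM (by decide +kernel))
       (CovZ.n1 (-18432, 32640) (by decide +kernel)
        (CovZ.n2 (-18624, 32448) (by decide +kernel)
         (CovZ.badM (by decide +kernel))
         (CovZ.n1 (-18432, 32448) (by decide +kernel)
          (CovZ.n2 (-18528, 32352) (by decide +kernel)
           (CovZ.n2 (-18528, 32448) (by decide +kernel)
            (CovZ.n2 (-18480, 32400) (by decide +kernel)
             (CovZ.n2 (-18528, 32400) (by decide +kernel)
              (CovZ.badM (by decide +kernel))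
              (CovZ.n1 (-18504, 32376) (by decide +kernel)
               (CovZ.leaf K2_ok TB_l42026 _)
               (CovZ.badM (by decide +kernel))))
             (CovZ.badM (by decide +kernel)))
            (CovZ.n1 (-18576, 32400) (by decide +kernel)
             (CovZ.badM (by decide +kernel))
             (CovZ.n1 (-18528, 32400) (by decide +kernel)
              (CovZ.n2 (-18552, 32376) (by decide +kernel)
               (CovZ.badM (by decide +kernel))
               (CovZ.leaf K2_ok TB_l42030 _))
              (CovZ.badM (by decide +kernel)))))
           (CovZ.n1 (-18432, 32352) (by decide +kernel)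
            (CovZ.n2 (-18480, 32304) (by decide +kernel)
             (CovZ.n2 (-18480, 32352) (by decide +kernel)
              (CovZ.n2 (-18456, 32328) (by decide +kernel)
               (CovZ.leaf K2_ok TB_l20630 _)
               (CovZ.leaf K2_ok TB_l42031 _))
              (CovZ.leaf K2_ok TB_l20631 _))
             (CovZ.n1 (-18432, 32304) (by decide +kernel)
              (CovZ.leaf K2_ok TB_l20632 _)
              (CovZ.leaf K2_ok TB_l20633 _)))
            (CovZ.n1 (-18480, 32400) (by decide +kernel)
             (CovZ.n2 (-18432, 32400) (by decide +kernel)
              (CovZ.n2 (-18456, 32376) (by decide +kernel)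
               (CovZ.n2 (-18456, 32400) (by decide +kernel)
                (CovZ.leaf K2_ok TB_l42032 _)
                (CovZ.leaf K2_ok TB_l42033 _))
               (CovZ.leaf K2_ok TB_l42034 _))
              (CovZ.badM (by decide +kernel)))
             (CovZ.n1 (-18480, 32352) (by decide +kernel)
              (CovZ.leaf K2_ok TB_l42035 _)
              (CovZ.leaf K2_ok TB_l42036 _)))))
          (CovZ.badM (by decide +kernel))))
        (CovZ.badM (by decide +kernel))))
      (CovZ.badM (by decide +kernel))))

theorem TB_u542 : CovZ TB_M (toL (selN TB_LN 34996011596528190789960035746960153991467307987622439121702967048699649774959930137315646746298155008)) [0, 7, 6, 1] (-19200, 33024) (-19968, 32256) (-18432, 32256) :=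
    (CovZ.n1 (-19200, 32256) (by decide +kernel)
     (CovZ.n2 (-19584, 32640) (by decide +kernel)
      (CovZ.subM 36028797018963968 (by decide +kernel)
       (CovZ.n2 (-19200, 32640) (by decide +kernel)
        (CovZ.n2 (-19392, 32448) (by decide +kernel)
         (CovZ.n2 (-19392, 32640) (by decide +kernel)
          (CovZ.n2 (-19296, 32544) (by decide +kernel)
           (CovZ.n2 (-19392, 32544) (by decide +kernel)
            (CovZ.leaf K2_ok TB_l20634 _)
            (CovZ.n1 (-19344, 32496) (by decide +kernel)
             (CovZ.leaf K2_ok TB_l20635 _)
             (CovZ.leaf K2_ok TB_l20636 _)))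
           (CovZ.n1 (-19296, 32640) (by decide +kernel)
            (CovZ.n2 (-19248, 32592) (by decide +kernel)
             (CovZ.leaf K2_ok TB_l20637 _)
             (CovZ.badM (by decide +kernel)))
            (CovZ.n1 (-19344, 32592) (by decide +kernel)
             (CovZ.n2 (-19344, 32640) (by decide +kernel)
              (CovZ.n2 (-19320, 32616) (by decide +kernel)
               (CovZ.leaf K2_ok TB_l20643 _)
               (CovZ.badM (by decide +kernel)))
              (CovZ.leaf K2_ok TB_l20645 _))
             (CovZ.leaf K2_ok TB_l20646 _))))
          (CovZ.n1 (-19488, 32544) (by decide +kernel)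
           (CovZ.n2 (-19488, 32640) (by decide +kernel)
            (CovZ.n2 (-19440, 32592) (by decide +kernel)
             (CovZ.leaf K2_ok TB_l20647 _)
             (CovZ.n1 (-19440, 32640) (by decide +kernel)
              (CovZ.leaf K2_ok TB_l20648 _)
              (CovZ.leaf K2_ok TB_l20649 _)))
            (CovZ.n1 (-19536, 32592) (by decide +kernel)
             (CovZ.n2 (-19536, 32640) (by decide +kernel)
              (CovZ.leaf K2_ok TB_l20650 _)
              (CovZ.leaf K2_ok TB_l20651 _))
             (CovZ.leaf K2_ok TB_l20652 _)))
           (CovZ.n1 (-19392, 32544) (by decide +kernel)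
            (CovZ.leaf K2_ok TB_l20653 _)
            (CovZ.n1 (-19440, 32592) (by decide +kernel)
             (CovZ.leaf K2_ok TB_l20654 _)
             (CovZ.leaf K2_ok TB_l20655 _)))))
         (CovZ.n1 (-19200, 32448) (by decide +kernel)
          (CovZ.n2 (-19296, 32352) (by decide +kernel)
           (CovZ.n2 (-19296, 32448) (by decide +kernel)
            (CovZ.leaf K2_ok TB_l20656 _)
            (CovZ.leaf K2_ok TB_l20657 _))
           (CovZ.leaf K2_ok TB_l20658 _))
          (CovZ.n1 (-19296, 32544) (by decide +kernel)
           (CovZ.n2 (-19200, 32544) (by decide +kernel)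
            (CovZ.n2 (-19248, 32496) (by decide +kernel)
             (CovZ.n2 (-19248, 32544) (by decide +kernel)
              (CovZ.leaf K2_ok TB_l20659 _)
              (CovZ.leaf K2_ok TB_l20660 _))
             (CovZ.leaf K2_ok TB_l20661 _))
            (CovZ.n1 (-19248, 32592) (by decide +kernel)
             (CovZ.n2 (-19200, 32592) (by decide +kernel)
              (CovZ.leaf K2_ok TB_l20662 _)
              (CovZ.badM (by decide +kernel)))
             (CovZ.leaf K2_ok TB_l20664 _)))
           (CovZ.leaf K2_ok TB_l20665 _))))
        (CovZ.n1 (-19392, 32832) (by decide +kernel)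
         (CovZ.badM (by decide +kernel))
         (CovZ.n1 (-19392, 32640) (by decide +kernel)
          (CovZ.n2 (-19488, 32736) (by decide +kernel)
           (CovZ.badM (by decide +kernel))
           (CovZ.n1 (-19488, 32640) (by decide +kernel)
            (CovZ.n2 (-19536, 32688) (by decide +kernel)
             (CovZ.n2 (-19488, 32688) (by decide +kernel)
              (CovZ.leaf K2_ok TB_l20672 _)
              (CovZ.leaf K2_ok TB_l20673 _))
             (CovZ.leaf K2_ok TB_l20674 _))
            (CovZ.n1 (-19440, 32688) (by decide +kernel)
             (CovZ.leaf K2_ok TB_l20675 _)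
             (CovZ.n1 (-19488, 32688) (by decide +kernel)
              (CovZ.badM (by decide +kernel))
              (CovZ.n1 (-19464, 32664) (by decide +kernel)
               (CovZ.leaf K2_ok TB_l20677 _)
               (CovZ.leaf K2_ok TB_l20678 _))))))
          (CovZ.badM (by decide +kernel))))))
      (CovZ.n1 (-19584, 32256) (by decide +kernel)
       (CovZ.n2 (-19776, 32448) (by decide +kernel)
        (CovZ.subM 1188950301625810944 (by decide +kernel)
         (CovZ.n2 (-19584, 32448) (by decide +kernel)
          (CovZ.n2 (-19680, 32352) (by decide +kernel)
           (CovZ.leaf K2_ok TB_l20686 _)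
           (CovZ.leaf K2_ok TB_l20687 _))
          (CovZ.n1 (-19680, 32544) (by decide +kernel)
           (CovZ.n2 (-19584, 32544) (by decide +kernel)
            (CovZ.leaf K2_ok TB_l20688 _)
            (CovZ.leaf K2_ok TB_l20689 _))
           (CovZ.leaf K2_ok TB_l20690 _))))
        (CovZ.leaf K2_ok TB_l20691 _))
       (CovZ.subM 1188950301625810944 (by decide +kernel)
        (CovZ.n1 (-19392, 32448) (by decide +kernel)
         (CovZ.n2 (-19392, 32256) (by decide +kernel)
          (CovZ.leaf K2_ok TB_l20692 _)
          (CovZ.leaf K2_ok TB_l20693 _))
         (CovZ.n1 (-19584, 32448) (by decide +kernel)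
          (CovZ.n2 (-19488, 32544) (by decide +kernel)
           (CovZ.leaf K2_ok TB_l20694 _)
           (CovZ.n1 (-19584, 32544) (by decide +kernel)
            (CovZ.leaf K2_ok TB_l20695 _)
            (CovZ.leaf K2_ok TB_l20696 _)))
          (CovZ.n1 (-19488, 32352) (by decide +kernel)
           (CovZ.leaf K2_ok TB_l20697 _)
           (CovZ.n1 (-19488, 32448) (by decide +kernel)
            (CovZ.leaf K2_ok TB_l20698 _)
            (CovZ.leaf K2_ok TB_l20699 _))))))))
     (CovZ.subM 34996011596528190789960035633881941845650710894291398982812329702559247987190014771612239629389922304 (by decide +kernel)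
      (CovZ.n1 (-18816, 32640) (by decide +kernel)
       (CovZ.n2 (-18816, 32256) (by decide +kernel)
        (CovZ.n2 (-19008, 32448) (by decide +kernel)
         (CovZ.n2 (-18816, 32448) (by decide +kernel)
          (CovZ.n2 (-18912, 32352) (by decide +kernel)
           (CovZ.n2 (-18912, 32448) (by decide +kernel)
            (CovZ.n2 (-18864, 32400) (by decide +kernel)
             (CovZ.leaf K2_ok TB_l20700 _)
             (CovZ.badM (by decide +kernel)))
            (CovZ.n1 (-18960, 32400) (by decide +kernel)
             (CovZ.n2 (-18960, 32448) (by decide +kernel)
              (CovZ.leaf K2_ok TB_l20703 _)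
              (CovZ.leaf K2_ok TB_l20704 _))
             (CovZ.leaf K2_ok TB_l20705 _)))
           (CovZ.n1 (-18816, 32352) (by decide +kernel)
            (CovZ.leaf K2_ok TB_l20706 _)
            (CovZ.n1 (-18864, 32400) (by decide +kernel)
             (CovZ.leaf K2_ok TB_l20707 _)
             (CovZ.leaf K2_ok TB_l20708 _))))
          (CovZ.n1 (-18912, 32544) (by decide +kernel)
           (CovZ.badM (by decide +kernel))
           (CovZ.n1 (-18912, 32448) (by decide +kernel)
            (CovZ.n2 (-18960, 32496) (by decide +kernel)
             (CovZ.badM (by decide +kernel))
             (CovZ.leaf K2_ok TB_l20712 _))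
            (CovZ.badM (by decide +kernel)))))
         (CovZ.n1 (-19008, 32256) (by decide +kernel)
          (CovZ.n2 (-19104, 32352) (by decide +kernel)
           (CovZ.n2 (-19008, 32352) (by decide +kernel)
            (CovZ.leaf K2_ok TB_l20717 _)
            (CovZ.leaf K2_ok TB_l20718 _))
           (CovZ.leaf K2_ok TB_l20719 _))
          (CovZ.n1 (-18912, 32352) (by decide +kernel)
           (CovZ.leaf K2_ok TB_l20720 _)
           (CovZ.n1 (-19008, 32352) (by decide +kernel)
            (CovZ.leaf K2_ok TB_l20721 _)
            (CovZ.leaf K2_ok TB_l20722 _)))))
        (CovZ.n1 (-18624, 32448) (by decide +kernel)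
         (CovZ.n2 (-18624, 32256) (by decide +kernel)
          (CovZ.n2 (-18720, 32352) (by decide +kernel)
           (CovZ.n2 (-18624, 32352) (by decide +kernel)
            (CovZ.n2 (-18672, 32304) (by decide +kernel)
             (CovZ.n2 (-18672, 32352) (by decide +kernel)
              (CovZ.leaf K2_ok TB_l20723 _)
              (CovZ.leaf K2_ok TB_l20724 _))
             (CovZ.leaf K2_ok TB_l20725 _))
            (CovZ.badM (by decide +kernel)))
           (CovZ.leaf K2_ok TB_l20729 _))
          (CovZ.n1 (-18528, 32352) (by decide +kernel)
           (CovZ.n2 (-18528, 32256) (by decide +kernel)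
            (CovZ.n2 (-18576, 32304) (by decide +kernel)
             (CovZ.leaf K2_ok TB_l20730 _)
             (CovZ.leaf K2_ok TB_l20731 _))
            (CovZ.n1 (-18480, 32304) (by decide +kernel)
             (CovZ.leaf K2_ok TB_l20732 _)
             (CovZ.leaf K2_ok TB_l20733 _)))
           (CovZ.n1 (-18624, 32352) (by decide +kernel)
            (CovZ.n2 (-18576, 32400) (by decide +kernel)
             (CovZ.leaf K2_ok TB_l20734 _)
             (CovZ.badM (by decide +kernel)))
            (CovZ.n1 (-18576, 32304) (by decide +kernel)
             (CovZ.leaf K2_ok TB_l20736 _)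
             (CovZ.n1 (-18576, 32352) (by decide +kernel)
              (CovZ.leaf K2_ok TB_l20737 _)
              (CovZ.leaf K2_ok TB_l20738 _))))))
         (CovZ.n1 (-18816, 32448) (by decide +kernel)
          (CovZ.badM (by decide +kernel))
          (CovZ.n1 (-18720, 32352) (by decide +kernel)
           (CovZ.n2 (-18816, 32352) (by decide +kernel)
            (CovZ.leaf K2_ok TB_l20741 _)
            (CovZ.n1 (-18768, 32304) (by decide +kernel)
             (CovZ.leaf K2_ok TB_l20742 _)
             (CovZ.leaf K2_ok TB_l20743 _)))
           (CovZ.badM (by decide +kernel))))))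
       (CovZ.n1 (-19200, 32640) (by decide +kernel)
        (CovZ.badM (by decide +kernel))
        (CovZ.n1 (-19008, 32448) (by decide +kernel)
         (CovZ.n2 (-19200, 32448) (by decide +kernel)
          (CovZ.n2 (-19104, 32544) (by decide +kernel)
           (CovZ.n2 (-19104, 32448) (by decide +kernel)
            (CovZ.n2 (-19152, 32496) (by decide +kernel)
             (CovZ.leaf K2_ok TB_l20752 _)
             (CovZ.leaf K2_ok TB_l20753 _))
            (CovZ.leaf K2_ok TB_l20754 _))
           (CovZ.n1 (-19200, 32544) (by decide +kernel)
            (CovZ.n2 (-19152, 32592) (by decide +kernel)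
             (CovZ.leaf K2_ok TB_l20755 _)
             (CovZ.n1 (-19200, 32592) (by decide +kernel)
              (CovZ.badM (by decide +kernel))
              (CovZ.n1 (-19176, 32568) (by decide +kernel)
               (CovZ.leaf K2_ok TB_l20757 _)
               (CovZ.badM (by decide +kernel)))))
            (CovZ.n1 (-19152, 32496) (by decide +kernel)
             (CovZ.leaf K2_ok TB_l20759 _)
             (CovZ.n1 (-19152, 32544) (by decide +kernel)
              (CovZ.leaf K2_ok TB_l20760 _)
              (CovZ.leaf K2_ok TB_l20761 _)))))
          (CovZ.n1 (-19104, 32352) (by decide +kernel)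
           (CovZ.leaf K2_ok TB_l20762 _)
           (CovZ.n1 (-19104, 32448) (by decide +kernel)
            (CovZ.n2 (-19056, 32400) (by decide +kernel)
             (CovZ.leaf K2_ok TB_l20763 _)
             (CovZ.leaf K2_ok TB_l20764 _))
            (CovZ.leaf K2_ok TB_l20765 _))))
         (CovZ.n1 (-19008, 32640) (by decide +kernel)
          (CovZ.n2 (-18912, 32544) (by decide +kernel)
           (CovZ.n2 (-19008, 32544) (by decide +kernel)
            (CovZ.badM (by decide +kernel))
            (CovZ.n1 (-18960, 32496) (by decide +kernel)
             (CovZ.leaf K2_ok TB_l20766 _)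
             (CovZ.badM (by decide +kernel))))
           (CovZ.badM (by decide +kernel)))
          (CovZ.n1 (-19104, 32544) (by decide +kernel)
           (CovZ.badM (by decide +kernel))
           (CovZ.n1 (-19008, 32544) (by decide +kernel)
            (CovZ.n2 (-19056, 32496) (by decide +kernel)
             (CovZ.badM (by decide +kernel))
             (CovZ.n1 (-19008, 32496) (by decide +kernel)
              (CovZ.leaf K2_ok TB_l20776 _)
              (CovZ.badM (by decide +kernel))))
            (CovZ.badM (by decide +kernel))))))))))

theorem TB_u543 : CovZ TB_M (toL (selN TB_LN 631663411835949069238373004227832737477760292178775614006150763838612808641185368487833541945418293707145020663136256)) [0, 7, 6, 1] (-24576, 33792) (-23808, 33792) (-23808, 34560) :=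
    (CovZ.n2 (-24192, 34176) (by decide +kernel)
      (CovZ.subM 631663411835949064863871554661808888732755837943532883299811902052187935784068969368294887761282517691956575149752320 (by decide +kernel)
       (CovZ.n2 (-23808, 34176) (by decide +kernel)
        (CovZ.n2 (-24000, 33984) (by decide +kernel)
         (CovZ.n2 (-24000, 34176) (by decide +kernel)
          (CovZ.n2 (-23904, 34080) (by decide +kernel)
           (CovZ.n2 (-24000, 34080) (by decide +kernel)
            (CovZ.badM (by decide +kernel))
            (CovZ.n1 (-23952, 34032) (by decide +kernel)
             (CovZ.n2 (-24000, 34032) (by decide +kernel)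
              (CovZ.n2 (-23976, 34056) (by decide +kernel)
               (CovZ.leaf K2_ok TB_l15676 _)
               (CovZ.leaf K2_ok TB_l15677 _))
              (CovZ.n1 (-23976, 34008) (by decide +kernel)
               (CovZ.leaf K2_ok TB_l15678 _)
               (CovZ.leaf K2_ok TB_l15679 _)))
             (CovZ.badM (by decide +kernel))))
           (CovZ.badM (by decide +kernel)))
          (CovZ.n1 (-24096, 34080) (by decide +kernel)
           (CovZ.n2 (-24096, 34176) (by decide +kernel)
            (CovZ.n2 (-24048, 34128) (by decide +kernel)
             (CovZ.n2 (-24096, 34128) (by decide +kernel)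
              (CovZ.n2 (-24072, 34152) (by decide +kernel)
               (CovZ.leaf K2_ok TB_l15680 _)
               (CovZ.leaf K2_ok TB_l15681 _))
              (CovZ.n1 (-24072, 34104) (by decide +kernel)
               (CovZ.leaf K2_ok TB_l15682 _)
               (CovZ.leaf K2_ok TB_l15683 _)))
             (CovZ.badM (by decide +kernel)))
            (CovZ.n1 (-24144, 34128) (by decide +kernel)
             (CovZ.n2 (-24144, 34176) (by decide +kernel)
              (CovZ.n2 (-24120, 34152) (by decide +kernel)
               (CovZ.leaf K2_ok TB_l15684 _)
               (CovZ.n1 (-24120, 34176) (by decide +kernel)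
                (CovZ.leaf K2_ok TB_l15685 _)
                (CovZ.leaf K2_ok TB_l15686 _)))
              (CovZ.n1 (-24168, 34152) (by decide +kernel)
               (CovZ.leaf K2_ok TB_l15687 _)
               (CovZ.leaf K2_ok TB_l15688 _)))
             (CovZ.n1 (-24096, 34128) (by decide +kernel)
              (CovZ.n2 (-24120, 34104) (by decide +kernel)
               (CovZ.leaf K2_ok TB_l15689 _)
               (CovZ.leaf K2_ok TB_l15690 _))
              (CovZ.n1 (-24120, 34152) (by decide +kernel)
               (CovZ.leaf K2_ok TB_l15691 _)
               (CovZ.leaf K2_ok TB_l15692 _)))))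
           (CovZ.n1 (-24000, 34080) (by decide +kernel)
            (CovZ.n2 (-24048, 34032) (by decide +kernel)
             (CovZ.n2 (-24048, 34080) (by decide +kernel)
              (CovZ.n2 (-24024, 34056) (by decide +kernel)
               (CovZ.leaf K2_ok TB_l15693 _)
               (CovZ.leaf K2_ok TB_l15694 _))
              (CovZ.n1 (-24072, 34056) (by decide +kernel)
               (CovZ.leaf K2_ok TB_l15695 _)
               (CovZ.leaf K2_ok TB_l15696 _)))
             (CovZ.n1 (-24000, 34032) (by decide +kernel)
              (CovZ.n2 (-24024, 34008) (by decide +kernel)
               (CovZ.leaf K2_ok TB_l15697 _)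
               (CovZ.leaf K2_ok TB_l15698 _))
              (CovZ.leaf K2_ok TB_l15699 _)))
            (CovZ.n1 (-24048, 34128) (by decide +kernel)
             (CovZ.badM (by decide +kernel))
             (CovZ.leaf K2_ok TB_l15700 _)))))
         (CovZ.n1 (-23808, 33984) (by decide +kernel)
          (CovZ.n2 (-23904, 33888) (by decide +kernel)
           (CovZ.n2 (-23904, 33984) (by decide +kernel)
            (CovZ.n2 (-23856, 33936) (by decide +kernel)
             (CovZ.n2 (-23904, 33936) (by decide +kernel)
              (CovZ.leaf K2_ok TB_l15701 _)
              (CovZ.leaf K2_ok TB_l15702 _))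
             (CovZ.n1 (-23856, 33984) (by decide +kernel)
              (CovZ.n2 (-23832, 33960) (by decide +kernel)
               (CovZ.leaf K2_ok TB_l15703 _)
               (CovZ.badM (by decide +kernel)))
              (CovZ.n1 (-23880, 33960) (by decide +kernel)
               (CovZ.n2 (-23880, 33984) (by decide +kernel)
                (CovZ.leaf K2_ok TB_l15704 _)
                (CovZ.leaf K2_ok TB_l15705 _))
               (CovZ.leaf K2_ok TB_l15706 _))))
            (CovZ.n1 (-23952, 33936) (by decide +kernel)
             (CovZ.n2 (-23952, 33984) (by decide +kernel)
              (CovZ.n2 (-23928, 33960) (by decide +kernel)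
               (CovZ.leaf K2_ok TB_l15707 _)
               (CovZ.leaf K2_ok TB_l15708 _))
              (CovZ.leaf K2_ok TB_l15709 _))
             (CovZ.n1 (-23904, 33936) (by decide +kernel)
              (CovZ.leaf K2_ok TB_l15710 _)
              (CovZ.leaf K2_ok TB_l15711 _))))
           (CovZ.n1 (-23808, 33888) (by decide +kernel)
            (CovZ.n2 (-23856, 33840) (by decide +kernel)
             (CovZ.n2 (-23856, 33888) (by decide +kernel)
              (CovZ.leaf K2_ok TB_l15712 _)
              (CovZ.leaf K2_ok TB_l15713 _))
             (CovZ.leaf K2_ok TB_l15714 _))
            (CovZ.n1 (-23856, 33936) (by decide +kernel)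
             (CovZ.n2 (-23808, 33936) (by decide +kernel)
              (CovZ.n2 (-23832, 33912) (by decide +kernel)
               (CovZ.leaf K2_ok TB_l15715 _)
               (CovZ.leaf K2_ok TB_l15716 _))
              (CovZ.n1 (-23832, 33960) (by decide +kernel)
               (CovZ.badM (by decide +kernel))
               (CovZ.leaf K2_ok TB_l15717 _)))
             (CovZ.leaf K2_ok TB_l15718 _))))
          (CovZ.n1 (-23904, 34080) (by decide +kernel)
           (CovZ.badM (by decide +kernel))
           (CovZ.n1 (-23904, 33984) (by decide +kernel)
            (CovZ.n2 (-23952, 34032) (by decide +kernel)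
             (CovZ.badM (by decide +kernel))
             (CovZ.leaf K2_ok TB_l15719 _))
            (CovZ.badM (by decide +kernel))))))
        (CovZ.n1 (-24000, 34368) (by decide +kernel)
         (CovZ.badM (by decide +kernel))
         (CovZ.n1 (-24000, 34176) (by decide +kernel)
          (CovZ.n2 (-24096, 34272) (by decide +kernel)
           (CovZ.badM (by decide +kernel))
           (CovZ.n1 (-24096, 34176) (by decide +kernel)
            (CovZ.n2 (-24144, 34224) (by decide +kernel)
             (CovZ.badM (by decide +kernel))
             (CovZ.leaf K2_ok TB_l15720 _))
            (CovZ.badM (by decide +kernel))))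
          (CovZ.badM (by decide +kernel))))))
      (CovZ.n1 (-24192, 33792) (by decide +kernel)
       (CovZ.n2 (-24384, 33984) (by decide +kernel)
        (CovZ.subM 631663411835949064863871554661808888732755837943532883299811902052187935784068969368294887761282517691956575150014464 (by decide +kernel)
         (CovZ.n2 (-24192, 33984) (by decide +kernel)
          (CovZ.n2 (-24288, 33888) (by decide +kernel)
           (CovZ.n2 (-24288, 33984) (by decide +kernel)
            (CovZ.leaf K2_ok TB_l15721 _)
            (CovZ.leaf K2_ok TB_l15722 _))
           (CovZ.leaf K2_ok TB_l15723 _))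
          (CovZ.n1 (-24288, 34080) (by decide +kernel)
           (CovZ.n2 (-24192, 34080) (by decide +kernel)
            (CovZ.n2 (-24240, 34032) (by decide +kernel)
             (CovZ.leaf K2_ok TB_l15724 _)
             (CovZ.leaf K2_ok TB_l15725 _))
            (CovZ.n1 (-24240, 34128) (by decide +kernel)
             (CovZ.leaf K2_ok TB_l15726 _)
             (CovZ.leaf K2_ok TB_l15727 _)))
           (CovZ.leaf K2_ok TB_l15728 _))))
        (CovZ.leaf K2_ok TB_l15729 _))
       (CovZ.subM 631663411835949064863871554661808888732755837943532883299811902052187935784068969368294887761282517691956575150014464 (by decide +kernel)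
        (CovZ.n1 (-24000, 33984) (by decide +kernel)
         (CovZ.n2 (-24000, 33792) (by decide +kernel)
          (CovZ.n2 (-24096, 33888) (by decide +kernel)
           (CovZ.n2 (-24000, 33888) (by decide +kernel)
            (CovZ.leaf K2_ok TB_l15730 _)
            (CovZ.n1 (-24048, 33936) (by decide +kernel)
             (CovZ.leaf K2_ok TB_l15731 _)
             (CovZ.leaf K2_ok TB_l15732 _)))
           (CovZ.leaf K2_ok TB_l15733 _))
          (CovZ.n1 (-23904, 33888) (by decide +kernel)
           (CovZ.leaf K2_ok TB_l15734 _)
           (CovZ.n1 (-24000, 33888) (by decide +kernel)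
            (CovZ.n2 (-23952, 33936) (by decide +kernel)
             (CovZ.leaf K2_ok TB_l15735 _)
             (CovZ.leaf K2_ok TB_l15736 _))
            (CovZ.n1 (-23952, 33840) (by decide +kernel)
             (CovZ.leaf K2_ok TB_l15737 _)
             (CovZ.leaf K2_ok TB_l15738 _)))))
         (CovZ.n1 (-24192, 33984) (by decide +kernel)
          (CovZ.n2 (-24096, 34080) (by decide +kernel)
           (CovZ.n2 (-24096, 33984) (by decide +kernel)
            (CovZ.n2 (-24144, 34032) (by decide +kernel)
             (CovZ.leaf K2_ok TB_l15739 _)
             (CovZ.leaf K2_ok TB_l15740 _))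
            (CovZ.n1 (-24048, 34032) (by decide +kernel)
             (CovZ.leaf K2_ok TB_l15741 _)
             (CovZ.leaf K2_ok TB_l15742 _)))
           (CovZ.n1 (-24192, 34080) (by decide +kernel)
            (CovZ.n2 (-24144, 34128) (by decide +kernel)
             (CovZ.leaf K2_ok TB_l15743 _)
             (CovZ.leaf K2_ok TB_l15744 _))
            (CovZ.n1 (-24144, 34032) (by decide +kernel)
             (CovZ.leaf K2_ok TB_l15745 _)
             (CovZ.n1 (-24144, 34080) (by decide +kernel)
              (CovZ.leaf K2_ok TB_l15746 _)
              (CovZ.leaf K2_ok TB_l15747 _)))))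
          (CovZ.n1 (-24096, 33888) (by decide +kernel)
           (CovZ.n2 (-24192, 33888) (by decide +kernel)
            (CovZ.leaf K2_ok TB_l15748 _)
            (CovZ.leaf K2_ok TB_l15749 _))
           (CovZ.n1 (-24096, 33984) (by decide +kernel)
            (CovZ.n2 (-24048, 33936) (by decide +kernel)
             (CovZ.leaf K2_ok TB_l15750 _)
             (CovZ.n1 (-24048, 33984) (by decide +kernel)
              (CovZ.leaf K2_ok TB_l15751 _)
              (CovZ.leaf K2_ok TB_l15752 _)))
            (CovZ.n1 (-24144, 33936) (by decide +kernel)
             (CovZ.leaf K2_ok TB_l15753 _)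
             (CovZ.leaf K2_ok TB_l15754 _)))))))))

theorem TB_u544 : CovZ TB_M (toL (selN TB_LN 631663411835949069238373004227832737477760292178775614006150763838612808641185368487833541945418293707145020663136256)) [0, 7, 6, 1] (-23808, 33792) (-23040, 33792) (-23808, 34560) :=
    (CovZ.n1 (-23424, 34176) (by decide +kernel)
      (CovZ.n2 (-23424, 33792) (by decide +kernel)
       (CovZ.subM 631663411835949064863871554661808888732755837943532883299811902052187935784068969368294887761282517691956575149752320 (by decide +kernel)
        (CovZ.n2 (-23616, 33984) (by decide +kernel)
         (CovZ.n2 (-23424, 33984) (by decide +kernel)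
          (CovZ.n2 (-23520, 33888) (by decide +kernel)
           (CovZ.badM (by decide +kernel))
           (CovZ.n1 (-23424, 33888) (by decide +kernel)
            (CovZ.n2 (-23472, 33840) (by decide +kernel)
             (CovZ.n2 (-23472, 33888) (by decide +kernel)
              (CovZ.n2 (-23448, 33864) (by decide +kernel)
               (CovZ.leaf K2_ok TB_l40422 _)
               (CovZ.badM (by decide +kernel)))
              (CovZ.n1 (-23496, 33864) (by decide +kernel)
               (CovZ.badM (by decide +kernel))
               (CovZ.leaf K2_ok TB_l40423 _)))
             (CovZ.n1 (-23424, 33840) (by decide +kernel)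
              (CovZ.leaf K2_ok TB_l40424 _)
              (CovZ.n1 (-23448, 33864) (by decide +kernel)
               (CovZ.leaf K2_ok TB_l40425 _)
               (CovZ.leaf K2_ok TB_l40426 _))))
            (CovZ.badM (by decide +kernel))))
          (CovZ.badM (by decide +kernel)))
         (CovZ.n1 (-23616, 33792) (by decide +kernel)
          (CovZ.n2 (-23712, 33888) (by decide +kernel)
           (CovZ.n2 (-23616, 33888) (by decide +kernel)
            (CovZ.n2 (-23664, 33840) (by decide +kernel)
             (CovZ.n2 (-23664, 33888) (by decide +kernel)
              (CovZ.leaf K2_ok TB_l15755 _)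
              (CovZ.leaf K2_ok TB_l15756 _))
             (CovZ.n1 (-23616, 33840) (by decide +kernel)
              (CovZ.leaf K2_ok TB_l15757 _)
              (CovZ.leaf K2_ok TB_l15758 _)))
            (CovZ.n1 (-23664, 33936) (by decide +kernel)
             (CovZ.badM (by decide +kernel))
             (CovZ.leaf K2_ok TB_l15760 _)))
           (CovZ.n1 (-23712, 33792) (by decide +kernel)
            (CovZ.leaf K2_ok TB_l15761 _)
            (CovZ.n1 (-23664, 33840) (by decide +kernel)
             (CovZ.leaf K2_ok TB_l15762 _)
             (CovZ.leaf K2_ok TB_l15763 _))))
          (CovZ.n1 (-23520, 33888) (by decide +kernel)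
           (CovZ.n2 (-23520, 33792) (by decide +kernel)
            (CovZ.n2 (-23568, 33840) (by decide +kernel)
             (CovZ.n2 (-23520, 33840) (by decide +kernel)
              (CovZ.leaf K2_ok TB_l15764 _)
              (CovZ.leaf K2_ok TB_l15765 _))
             (CovZ.leaf K2_ok TB_l15766 _))
            (CovZ.n1 (-23472, 33840) (by decide +kernel)
             (CovZ.leaf K2_ok TB_l40427 _)
             (CovZ.n1 (-23520, 33840) (by decide +kernel)
              (CovZ.leaf K2_ok TB_l40428 _)
              (CovZ.leaf K2_ok TB_l40429 _))))
           (CovZ.n1 (-23616, 33888) (by decide +kernel)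
            (CovZ.badM (by decide +kernel))
            (CovZ.n1 (-23568, 33840) (by decide +kernel)
             (CovZ.n2 (-23616, 33840) (by decide +kernel)
              (CovZ.leaf K2_ok TB_l15772 _)
              (CovZ.leaf K2_ok TB_l15773 _))
             (CovZ.n1 (-23568, 33888) (by decide +kernel)
              (CovZ.n2 (-23544, 33864) (by decide +kernel)
               (CovZ.leaf K2_ok TB_l15774 _)
               (CovZ.leaf K2_ok TB_l15775 _))
              (CovZ.n1 (-23592, 33864) (by decide +kernel)
               (CovZ.leaf K2_ok TB_l15776 _)
               (CovZ.leaf K2_ok TB_l15777 _)))))))))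
       (CovZ.subM 4374501449566023848745004454235242730809182896619000250486226786729740404960172838049125095522172928 (by decide +kernel)
        (CovZ.n1 (-23232, 33984) (by decide +kernel)
         (CovZ.n2 (-23232, 33792) (by decide +kernel)
          (CovZ.n2 (-23328, 33888) (by decide +kernel)
           (CovZ.n2 (-23232, 33888) (by decide +kernel)
            (CovZ.n2 (-23280, 33840) (by decide +kernel)
             (CovZ.badM (by decide +kernel))
             (CovZ.n1 (-23232, 33840) (by decide +kernel)
              (CovZ.n2 (-23256, 33816) (by decide +kernel)
               (CovZ.badM (by decide +kernel))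
               (CovZ.leaf K2_ok TB_l40430 _))
              (CovZ.badM (by decide +kernel))))
            (CovZ.badM (by decide +kernel)))
           (CovZ.n1 (-23328, 33792) (by decide +kernel)
            (CovZ.n2 (-23376, 33840) (by decide +kernel)
             (CovZ.n2 (-23328, 33840) (by decide +kernel)
              (CovZ.n2 (-23352, 33816) (by decide +kernel)
               (CovZ.n2 (-23352, 33840) (by decide +kernel)
                (CovZ.leaf K2_ok TB_l40431 _)
                (CovZ.leaf K2_ok TB_l40432 _))
               (CovZ.leaf K2_ok TB_l40433 _))
              (CovZ.badM (by decide +kernel)))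
             (CovZ.leaf K2_ok TB_l40434 _))
            (CovZ.n1 (-23280, 33840) (by decide +kernel)
             (CovZ.n2 (-23280, 33792) (by decide +kernel)
              (CovZ.n2 (-23304, 33816) (by decide +kernel)
               (CovZ.leaf K2_ok TB_l40435 _)
               (CovZ.leaf K2_ok TB_l40436 _))
              (CovZ.n1 (-23256, 33816) (by decide +kernel)
               (CovZ.leaf K2_ok TB_l40437 _)
               (CovZ.leaf K2_ok TB_l40438 _)))
             (CovZ.n1 (-23328, 33840) (by decide +kernel)
              (CovZ.badM (by decide +kernel))
              (CovZ.n1 (-23304, 33816) (by decide +kernel)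
               (CovZ.leaf K2_ok TB_l40439 _)
               (CovZ.n1 (-23304, 33840) (by decide +kernel)
                (CovZ.leaf K2_ok TB_l40440 _)
                (CovZ.leaf K2_ok TB_l40441 _)))))))
          (CovZ.n1 (-23136, 33888) (by decide +kernel)
           (CovZ.n2 (-23136, 33792) (by decide +kernel)
            (CovZ.n2 (-23184, 33840) (by decide +kernel)
             (CovZ.badM (by decide +kernel))
             (CovZ.n1 (-23184, 33792) (by decide +kernel)
              (CovZ.n2 (-23208, 33816) (by decide +kernel)
               (CovZ.badM (by decide +kernel))
               (CovZ.leaf K2_ok TB_l40442 _))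
              (CovZ.badM (by decide +kernel))))
            (CovZ.n1 (-23088, 33840) (by decide +kernel)
             (CovZ.n2 (-23088, 33792) (by decide +kernel)
              (CovZ.badM (by decide +kernel))
              (CovZ.n1 (-23064, 33816) (by decide +kernel)
               (CovZ.n2 (-23064, 33792) (by decide +kernel)
                (CovZ.badM (by decide +kernel))
                (CovZ.leaf K2_ok TB_l40443 _))
               (CovZ.badM (by decide +kernel))))
             (CovZ.badM (by decide +kernel))))
           (CovZ.n1 (-23232, 33888) (by decide +kernel)
            (CovZ.badM (by decide +kernel))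
            (CovZ.n1 (-23184, 33840) (by decide +kernel)
             (CovZ.n2 (-23232, 33840) (by decide +kernel)
              (CovZ.badM (by decide +kernel))
              (CovZ.n1 (-23208, 33816) (by decide +kernel)
               (CovZ.leaf K2_ok TB_l40444 _)
               (CovZ.badM (by decide +kernel))))
             (CovZ.badM (by decide +kernel))))))
         (CovZ.n1 (-23424, 33984) (by decide +kernel)
          (CovZ.badM (by decide +kernel))
          (CovZ.n1 (-23328, 33888) (by decide +kernel)
           (CovZ.n2 (-23424, 33888) (by decide +kernel)
            (CovZ.badM (by decide +kernel))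
            (CovZ.n1 (-23376, 33840) (by decide +kernel)
             (CovZ.n2 (-23424, 33840) (by decide +kernel)
              (CovZ.n2 (-23400, 33864) (by decide +kernel)
               (CovZ.leaf K2_ok TB_l40445 _)
               (CovZ.n1 (-23424, 33864) (by decide +kernel)
                (CovZ.badM (by decide +kernel))
                (CovZ.leaf K2_ok TB_l40446 _)))
              (CovZ.n1 (-23400, 33816) (by decide +kernel)
               (CovZ.leaf K2_ok TB_l40447 _)
               (CovZ.leaf K2_ok TB_l40448 _)))
             (CovZ.badM (by decide +kernel))))
           (CovZ.badM (by decide +kernel)))))))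
      (CovZ.subM 631663411835949064863871554661808888732755837943532883299811902052187935784068969368294887761282517691956575149752320 (by decide +kernel)
       (CovZ.n1 (-23808, 34176) (by decide +kernel)
        (CovZ.badM (by decide +kernel))
        (CovZ.n1 (-23616, 33984) (by decide +kernel)
         (CovZ.n2 (-23808, 33984) (by decide +kernel)
          (CovZ.badM (by decide +kernel))
          (CovZ.n1 (-23712, 33888) (by decide +kernel)
           (CovZ.n2 (-23808, 33888) (by decide +kernel)
            (CovZ.n2 (-23760, 33936) (by decide +kernel)
             (CovZ.leaf K2_ok TB_l15778 _)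
             (CovZ.n1 (-23808, 33936) (by decide +kernel)
              (CovZ.badM (by decide +kernel))
              (CovZ.n1 (-23784, 33912) (by decide +kernel)
               (CovZ.leaf K2_ok TB_l15779 _)
               (CovZ.leaf K2_ok TB_l40451 _))))
            (CovZ.n1 (-23760, 33840) (by decide +kernel)
             (CovZ.leaf K2_ok TB_l15780 _)
             (CovZ.n1 (-23760, 33888) (by decide +kernel)
              (CovZ.leaf K2_ok TB_l15781 _)
              (CovZ.leaf K2_ok TB_l15782 _))))
           (CovZ.n1 (-23712, 33984) (by decide +kernel)
            (CovZ.n2 (-23664, 33936) (by decide +kernel)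
             (CovZ.n2 (-23712, 33936) (by decide +kernel)
              (CovZ.badM (by decide +kernel))
              (CovZ.n1 (-23688, 33912) (by decide +kernel)
               (CovZ.leaf K2_ok TB_l15784 _)
               (CovZ.badM (by decide +kernel))))
             (CovZ.badM (by decide +kernel)))
            (CovZ.n1 (-23760, 33936) (by decide +kernel)
             (CovZ.badM (by decide +kernel))
             (CovZ.n1 (-23712, 33936) (by decide +kernel)
              (CovZ.n2 (-23736, 33912) (by decide +kernel)
               (CovZ.leaf K2_ok TB_l15788 _)
               (CovZ.leaf K2_ok TB_l15789 _))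
              (CovZ.badM (by decide +kernel)))))))
         (CovZ.badM (by decide +kernel))))))

theorem TB_u545 : CovZ TB_M (toL (selN TB_LN 5043456795491623199145623275972558008579490852443297809755944613054516948958865054558425953855567773877265516492488704)) [0, 7, 6, 1] (-30720, 36864) (-30336, 36480) (-29952, 36864) :=
    (CovZ.n2 (-30336, 36864) (by decide +kernel)
       (CovZ.subM 2353129580005813370928649121848999154768185864470844701120192796219333371414874282129669568242890767054405632 (by decide +kernel)
        (CovZ.n2 (-30144, 36672) (by decide +kernel)
         (CovZ.n2 (-30336, 36672) (by decide +kernel)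
          (CovZ.n2 (-30240, 36768) (by decide +kernel)
           (CovZ.n2 (-30240, 36672) (by decide +kernel)
            (CovZ.n2 (-30288, 36720) (by decide +kernel)
             (CovZ.subM 4586997231980143039137442357386515727368604171610781048463105268432103650128915183576145463390850452029440 (by decide +kernel)
              (CovZ.n2 (-30240, 36720) (by decide +kernel)
               (CovZ.leaf K2_ok TB_l5175 _)
               (CovZ.n1 (-30264, 36744) (by decide +kernel)
                (CovZ.n2 (-30240, 36744) (by decide +kernel)
                 (CovZ.leaf K2_ok TB_l5176 _)
                 (CovZ.badM (by decide +kernel)))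
                (CovZ.leaf K2_ok TB_l5177 _))))
             (CovZ.leaf K2_ok TB_l5178 _))
            (CovZ.subM 4586997231980143039137442357386515727368604171610781048463105268432103650128915183576145463390850452029440 (by decide +kernel)
             (CovZ.n1 (-30192, 36720) (by decide +kernel)
              (CovZ.leaf K2_ok TB_l5179 _)
              (CovZ.n1 (-30240, 36720) (by decide +kernel)
               (CovZ.n2 (-30216, 36744) (by decide +kernel)
                (CovZ.leaf K2_ok TB_l5180 _)
                (CovZ.leaf K2_ok TB_l5181 _))
               (CovZ.leaf K2_ok TB_l5182 _)))))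
           (CovZ.n1 (-30336, 36768) (by decide +kernel)
            (CovZ.badM (by decide +kernel))
            (CovZ.n1 (-30288, 36720) (by decide +kernel)
             (CovZ.n2 (-30336, 36720) (by decide +kernel)
              (CovZ.leaf K2_ok TB_l5183 _)
              (CovZ.leaf K2_ok TB_l5184 _))
             (CovZ.subM 2353129580005813370928617553479500486670783370558308111597434067239917523894640886246625008847532625026351104 (by decide +kernel)
              (CovZ.n1 (-30288, 36768) (by decide +kernel)
               (CovZ.n2 (-30264, 36744) (by decide +kernel)
                (CovZ.leaf K2_ok TB_l5185 _)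
                (CovZ.badM (by decide +kernel)))
               (CovZ.n1 (-30312, 36744) (by decide +kernel)
                (CovZ.n2 (-30312, 36768) (by decide +kernel)
                 (CovZ.leaf K2_ok TB_l5186 _)
                 (CovZ.leaf K2_ok TB_l5187 _))
                (CovZ.leaf K2_ok TB_l5188 _)))))))
          (CovZ.n1 (-30240, 36576) (by decide +kernel)
           (CovZ.leaf K2_ok TB_l5189 _)
           (CovZ.n1 (-30240, 36672) (by decide +kernel)
            (CovZ.n2 (-30192, 36624) (by decide +kernel)
             (CovZ.leaf K2_ok TB_l5190 _)
             (CovZ.n1 (-30192, 36672) (by decide +kernel)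
              (CovZ.leaf K2_ok TB_l5191 _)
              (CovZ.leaf K2_ok TB_l5192 _)))
            (CovZ.n1 (-30288, 36624) (by decide +kernel)
             (CovZ.leaf K2_ok TB_l5193 _)
             (CovZ.leaf K2_ok TB_l5194 _)))))
         (CovZ.subM 2353129580005813370928617553479500486670783423214453945876027416198931365729857045694172709122088252181839872 (by decide +kernel)
          (CovZ.n1 (-30144, 36864) (by decide +kernel)
           (CovZ.n2 (-30048, 36768) (by decide +kernel)
            (CovZ.n2 (-30144, 36768) (by decide +kernel)
             (CovZ.badM (by decide +kernel))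
             (CovZ.n1 (-30096, 36720) (by decide +kernel)
              (CovZ.n2 (-30144, 36720) (by decide +kernel)
               (CovZ.badM (by decide +kernel))
               (CovZ.n1 (-30120, 36696) (by decide +kernel)
                (CovZ.leaf K2_ok TB_l5196 _)
                (CovZ.leaf K2_ok TB_l5197 _)))
              (CovZ.badM (by decide +kernel))))
            (CovZ.badM (by decide +kernel)))
           (CovZ.n1 (-30240, 36768) (by decide +kernel)
            (CovZ.badM (by decide +kernel))
            (CovZ.n1 (-30144, 36768) (by decide +kernel)
             (CovZ.n2 (-30192, 36720) (by decide +kernel)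
              (CovZ.n2 (-30192, 36768) (by decide +kernel)
               (CovZ.n2 (-30168, 36744) (by decide +kernel)
                (CovZ.n2 (-30192, 36744) (by decide +kernel)
                 (CovZ.badM (by decide +kernel))
                 (CovZ.leaf K2_ok TB_l5200 _))
                (CovZ.badM (by decide +kernel)))
               (CovZ.n1 (-30216, 36744) (by decide +kernel)
                (CovZ.badM (by decide +kernel))
                (CovZ.n1 (-30192, 36744) (by decide +kernel)
                 (CovZ.leaf K2_ok TB_l5201 _)
                 (CovZ.badM (by decide +kernel)))))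
              (CovZ.n1 (-30144, 36720) (by decide +kernel)
               (CovZ.leaf K2_ok TB_l5202 _)
               (CovZ.n1 (-30168, 36744) (by decide +kernel)
                (CovZ.badM (by decide +kernel))
                (CovZ.leaf K2_ok TB_l5203 _))))
             (CovZ.badM (by decide +kernel))))))))
       (CovZ.n1 (-30528, 36672) (by decide +kernel)
        (CovZ.n2 (-30528, 36864) (by decide +kernel)
         (CovZ.subM 2353129859973906143154175441529284225823720629676531879971313312572192725622410614054734678752403380942929920 (by decide +kernel)
          (CovZ.n2 (-30432, 36768) (by decide +kernel)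
           (CovZ.n2 (-30528, 36768) (by decide +kernel)
            (CovZ.n2 (-30480, 36816) (by decide +kernel)
             (CovZ.n2 (-30480, 36768) (by decide +kernel)
              (CovZ.n2 (-30504, 36792) (by decide +kernel)
               (CovZ.n2 (-30480, 36792) (by decide +kernel)
                (CovZ.leaf K2_ok TB_l5204 _)
                (CovZ.badM (by decide +kernel)))
               (CovZ.leaf K2_ok TB_l5205 _))
              (CovZ.n1 (-30456, 36792) (by decide +kernel)
               (CovZ.leaf K2_ok TB_l5206 _)
               (CovZ.n1 (-30480, 36792) (by decide +kernel)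
                (CovZ.badM (by decide +kernel))
                (CovZ.leaf K2_ok TB_l5207 _))))
             (CovZ.n1 (-30528, 36816) (by decide +kernel)
              (CovZ.badM (by decide +kernel))
              (CovZ.n1 (-30504, 36792) (by decide +kernel)
               (CovZ.leaf K2_ok TB_l5208 _)
               (CovZ.n1 (-30504, 36816) (by decide +kernel)
                (CovZ.badM (by decide +kernel))
                (CovZ.leaf K2_ok TB_l48490 _)))))
            (CovZ.n1 (-30480, 36720) (by decide +kernel)
             (CovZ.leaf K2_ok TB_l5209 _)
             (CovZ.n1 (-30480, 36768) (by decide +kernel)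
              (CovZ.n2 (-30456, 36744) (by decide +kernel)
               (CovZ.leaf K2_ok TB_l5210 _)
               (CovZ.leaf K2_ok TB_l5211 _))
              (CovZ.leaf K2_ok TB_l5212 _))))
           (CovZ.subM 2348542862741926000115007887804068211295752773844960436797936155234266171658352966890022040446597964587073536 (by decide +kernel)
            (CovZ.n1 (-30432, 36864) (by decide +kernel)
             (CovZ.n2 (-30384, 36816) (by decide +kernel)
              (CovZ.n2 (-30432, 36816) (by decide +kernel)
               (CovZ.badM (by decide +kernel))
               (CovZ.n1 (-30408, 36792) (by decide +kernel)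
                (CovZ.n2 (-30432, 36792) (by decide +kernel)
                 (CovZ.badM (by decide +kernel))
                 (CovZ.leaf K2_ok TB_l5213 _))
                (CovZ.badM (by decide +kernel))))
              (CovZ.badM (by decide +kernel)))
             (CovZ.n1 (-30480, 36816) (by decide +kernel)
              (CovZ.badM (by decide +kernel))
              (CovZ.n1 (-30432, 36816) (by decide +kernel)
               (CovZ.n2 (-30456, 36792) (by decide +kernel)
                (CovZ.badM (by decide +kernel))
                (CovZ.n1 (-30432, 36792) (by decide +kernel)
                 (CovZ.leaf K2_ok TB_l5214 _)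
                 (CovZ.badM (by decide +kernel))))
               (CovZ.badM (by decide +kernel))))))))
         (CovZ.n1 (-30624, 36768) (by decide +kernel)
          (CovZ.n2 (-30624, 36864) (by decide +kernel)
           (CovZ.subM 2353129859973906143154175441529284225823720629676544434174784085933720397201257029387566883463292309011955712 (by decide +kernel)
            (CovZ.n2 (-30576, 36816) (by decide +kernel)
             (CovZ.n2 (-30624, 36816) (by decide +kernel)
              (CovZ.badM (by decide +kernel))
              (CovZ.n1 (-30600, 36792) (by decide +kernel)
               (CovZ.leaf K2_ok TB_l5215 _)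
               (CovZ.n1 (-30600, 36816) (by decide +kernel)
                (CovZ.leaf K2_ok TB_l5216 _)
                (CovZ.leaf K2_ok TB_l5217 _))))
             (CovZ.badM (by decide +kernel))))
           (CovZ.n1 (-30672, 36816) (by decide +kernel)
            (CovZ.subM 4586997231980143023254181494548954843531083621826589582111422581719811434070452960645587472286073118261248 (by decide +kernel)
             (CovZ.n2 (-30672, 36864) (by decide +kernel)
              (CovZ.n2 (-30648, 36840) (by decide +kernel)
               (CovZ.n2 (-30672, 36840) (by decide +kernel)
                (CovZ.badM (by decide +kernel))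
                (CovZ.leaf K2_ok TB_l5218 _))
               (CovZ.badM (by decide +kernel)))
              (CovZ.n1 (-30696, 36840) (by decide +kernel)
               (CovZ.badM (by decide +kernel))
               (CovZ.n1 (-30672, 36840) (by decide +kernel)
                (CovZ.leaf K2_ok TB_l5219 _)
                (CovZ.badM (by decide +kernel))))))
            (CovZ.n1 (-30624, 36816) (by decide +kernel)
             (CovZ.n2 (-30648, 36792) (by decide +kernel)
              (CovZ.leaf K2_ok TB_l5220 _)
              (CovZ.leaf K2_ok TB_l5221 _))
             (CovZ.n1 (-30648, 36840) (by decide +kernel)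
              (CovZ.badM (by decide +kernel))
              (CovZ.leaf K2_ok TB_l5222 _)))))
          (CovZ.subM 2353129859973906143154175441529284225823720629676544434174784085933720397201257029387566883463292309011955712 (by decide +kernel)
           (CovZ.n1 (-30528, 36768) (by decide +kernel)
            (CovZ.n2 (-30576, 36720) (by decide +kernel)
             (CovZ.n2 (-30576, 36768) (by decide +kernel)
              (CovZ.leaf K2_ok TB_l5223 _)
              (CovZ.leaf K2_ok TB_l5224 _))
             (CovZ.leaf K2_ok TB_l5225 _))
            (CovZ.n1 (-30576, 36816) (by decide +kernel)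
             (CovZ.n2 (-30528, 36816) (by decide +kernel)
              (CovZ.n2 (-30552, 36792) (by decide +kernel)
               (CovZ.n2 (-30552, 36816) (by decide +kernel)
                (CovZ.leaf K2_ok TB_l5226 _)
                (CovZ.leaf K2_ok TB_l5227 _))
               (CovZ.leaf K2_ok TB_l5228 _))
              (CovZ.badM (by decide +kernel)))
             (CovZ.leaf K2_ok TB_l5229 _))))))
        (CovZ.subM 2353129859973906143154175441529284225823720629676531879971313312572192725622410614054734678752403380942929920 (by decide +kernel)
         (CovZ.n1 (-30336, 36672) (by decide +kernel)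
          (CovZ.n2 (-30432, 36576) (by decide +kernel)
           (CovZ.n2 (-30432, 36672) (by decide +kernel)
            (CovZ.leaf K2_ok TB_l5230 _)
            (CovZ.leaf K2_ok TB_l5231 _))
           (CovZ.n1 (-30336, 36576) (by decide +kernel)
            (CovZ.leaf K2_ok TB_l5232 _)
            (CovZ.leaf K2_ok TB_l5233 _)))
          (CovZ.n1 (-30432, 36768) (by decide +kernel)
           (CovZ.n2 (-30336, 36768) (by decide +kernel)
            (CovZ.n2 (-30384, 36720) (by decide +kernel)
             (CovZ.subM 2353129580005813370928618039146723543103051153079930651755754076800641128764737358647275143848159553483964416 (by decide +kernel)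
              (CovZ.n2 (-30384, 36768) (by decide +kernel)
               (CovZ.n2 (-30360, 36744) (by decide +kernel)
                (CovZ.leaf K2_ok TB_l5234 _)
                (CovZ.leaf K2_ok TB_l5235 _))
               (CovZ.n1 (-30408, 36744) (by decide +kernel)
                (CovZ.leaf K2_ok TB_l5236 _)
                (CovZ.leaf K2_ok TB_l5237 _))))
             (CovZ.n1 (-30336, 36720) (by decide +kernel)
              (CovZ.leaf K2_ok TB_l5238 _)
              (CovZ.leaf K2_ok TB_l5239 _)))
            (CovZ.subM 2348542582773833227889481568123783140240218008639273282466744292735628551184369069369903867836911305636184064 (by decide +kernel)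
             (CovZ.n1 (-30384, 36816) (by decide +kernel)
              (CovZ.badM (by decide +kernel))
              (CovZ.n1 (-30384, 36768) (by decide +kernel)
               (CovZ.n2 (-30408, 36792) (by decide +kernel)
                (CovZ.badM (by decide +kernel))
                (CovZ.leaf K2_ok TB_l5240 _))
               (CovZ.badM (by decide +kernel))))))
           (CovZ.n1 (-30432, 36672) (by decide +kernel)
            (CovZ.n2 (-30480, 36720) (by decide +kernel)
             (CovZ.leaf K2_ok TB_l5241 _)
             (CovZ.leaf K2_ok TB_l5242 _))
            (CovZ.n1 (-30384, 36720) (by decide +kernel)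
             (CovZ.leaf K2_ok TB_l5243 _)
             (CovZ.leaf K2_ok TB_l5244 _))))))))

theorem TB_u546 : CovZ TB_M (toL (selN TB_LN 5043456795491623199145623275972558008579490852443297809755944613054516948958865054558425953855567773877265516492488704)) [0, 7, 6, 1] (-30336, 36480) (-29952, 36096) (-29952, 36864) :=
    (CovZ.n1 (-29952, 36480) (by decide +kernel)
       (CovZ.n2 (-30144, 36288) (by decide +kernel)
        (CovZ.n2 (-30144, 36480) (by decide +kernel)
         (CovZ.n2 (-30048, 36384) (by decide +kernel)
          (CovZ.leaf K2_ok TB_l5245 _)
          (CovZ.leaf K2_ok TB_l5246 _))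
         (CovZ.leaf K2_ok TB_l5247 _))
        (CovZ.n1 (-29952, 36288) (by decide +kernel)
         (CovZ.leaf K2_ok TB_l5248 _)
         (CovZ.leaf K2_ok TB_l5249 _)))
       (CovZ.subM 2353129580005813370928649121848999154768185864470845093439054180890155772957549639978486007206145357921648640 (by decide +kernel)
        (CovZ.n1 (-30144, 36672) (by decide +kernel)
         (CovZ.n2 (-29952, 36672) (by decide +kernel)
          (CovZ.n2 (-30048, 36576) (by decide +kernel)
           (CovZ.subM 4586997231980143039137442357386515727368604171611173367321566935979843386967865662727151860606129454186496 (by decide +kernel)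
            (CovZ.n2 (-30048, 36672) (by decide +kernel)
             (CovZ.n2 (-30000, 36624) (by decide +kernel)
              (CovZ.leaf K2_ok TB_l5250 _)
              (CovZ.n1 (-30000, 36672) (by decide +kernel)
               (CovZ.leaf K2_ok TB_l5251 _)
               (CovZ.leaf K2_ok TB_l5252 _)))
             (CovZ.n1 (-30096, 36624) (by decide +kernel)
              (CovZ.n2 (-30096, 36672) (by decide +kernel)
               (CovZ.leaf K2_ok TB_l5253 _)
               (CovZ.leaf K2_ok TB_l5254 _))
              (CovZ.leaf K2_ok TB_l5255 _))))
           (CovZ.n1 (-29952, 36576) (by decide +kernel)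
            (CovZ.leaf K2_ok TB_l5256 _)
            (CovZ.n1 (-30000, 36624) (by decide +kernel)
             (CovZ.leaf K2_ok TB_l5257 _)
             (CovZ.leaf K2_ok TB_l5258 _))))
          (CovZ.subM 4586997231980143039136956690163459295100874306134467487594906334270080352087552709624717134534828152061952 (by decide +kernel)
           (CovZ.n1 (-30048, 36768) (by decide +kernel)
            (CovZ.n2 (-29952, 36768) (by decide +kernel)
             (CovZ.n2 (-30000, 36720) (by decide +kernel)
              (CovZ.badM (by decide +kernel))
              (CovZ.n1 (-29952, 36720) (by decide +kernel)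
               (CovZ.n2 (-29976, 36696) (by decide +kernel)
                (CovZ.badM (by decide +kernel))
                (CovZ.leaf K2_ok TB_l5261 _))
               (CovZ.badM (by decide +kernel))))
             (CovZ.badM (by decide +kernel)))
            (CovZ.n1 (-30048, 36672) (by decide +kernel)
             (CovZ.n2 (-30096, 36720) (by decide +kernel)
              (CovZ.n2 (-30048, 36720) (by decide +kernel)
               (CovZ.n2 (-30072, 36696) (by decide +kernel)
                (CovZ.badM (by decide +kernel))
                (CovZ.leaf K2_ok TB_l5263 _))
               (CovZ.badM (by decide +kernel)))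
              (CovZ.leaf K2_ok TB_l5265 _))
             (CovZ.n1 (-30000, 36720) (by decide +kernel)
              (CovZ.leaf K2_ok TB_l5266 _)
              (CovZ.n1 (-30048, 36720) (by decide +kernel)
               (CovZ.badM (by decide +kernel))
               (CovZ.n1 (-30024, 36696) (by decide +kernel)
                (CovZ.leaf K2_ok TB_l5267 _)
                (CovZ.badM (by decide +kernel)))))))))
         (CovZ.n1 (-30144, 36480) (by decide +kernel)
          (CovZ.n2 (-30240, 36576) (by decide +kernel)
           (CovZ.n2 (-30144, 36576) (by decide +kernel)
            (CovZ.leaf K2_ok TB_l5270 _)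
            (CovZ.leaf K2_ok TB_l5271 _))
           (CovZ.leaf K2_ok TB_l5272 _))
          (CovZ.n1 (-30048, 36576) (by decide +kernel)
           (CovZ.leaf K2_ok TB_l5273 _)
           (CovZ.n1 (-30144, 36576) (by decide +kernel)
            (CovZ.leaf K2_ok TB_l5274 _)
            (CovZ.leaf K2_ok TB_l5275 _)))))))

theorem TB_u547 : CovZ TB_M (toL (selN TB_LN 5043456793138493339171717132834328964652041523698219635823420621511157946681833071252843570301030225907523421266509824)) [0, 7, 6, 1] (-27648, 36864) (-28416, 36864) (-28416, 36096) :=
    (CovZ.n2 (-28032, 36480) (by decide +kernel)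
      (CovZ.subM 5043456793138493339171717132834296910615319799168549464701954894898234191666047568051185587693871842504024582966476800 (by decide +kernel)
       (CovZ.n2 (-28416, 36480) (by decide +kernel)
        (CovZ.subM 537919488 (by decide +kernel)
         (CovZ.n2 (-28224, 36672) (by decide +kernel)
          (CovZ.n2 (-28224, 36480) (by decide +kernel)
           (CovZ.n2 (-28320, 36576) (by decide +kernel)
            (CovZ.badM (by decide +kernel))
            (CovZ.n1 (-28320, 36480) (by decide +kernel)
             (CovZ.n2 (-28368, 36528) (by decide +kernel)
              (CovZ.badM (by decide +kernel))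
              (CovZ.n1 (-28368, 36480) (by decide +kernel)
               (CovZ.badM (by decide +kernel))
               (CovZ.badM (by decide +kernel))))
             (CovZ.badM (by decide +kernel))))
           (CovZ.n1 (-28128, 36576) (by decide +kernel)
            (CovZ.n2 (-28128, 36480) (by decide +kernel)
             (CovZ.badM (by decide +kernel))
             (CovZ.badM (by decide +kernel)))
            (CovZ.badM (by decide +kernel))))
          (CovZ.badM (by decide +kernel))))
        (CovZ.n1 (-28224, 36288) (by decide +kernel)
         (CovZ.n2 (-28416, 36288) (by decide +kernel)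
          (CovZ.subM 6607729237992973859124300454697215844575089906733657414121291776 (by decide +kernel)
           (CovZ.n2 (-28320, 36384) (by decide +kernel)
            (CovZ.leaf K2_ok TB_l8478 _)
            (CovZ.n1 (-28416, 36384) (by decide +kernel)
             (CovZ.n2 (-28368, 36432) (by decide +kernel)
              (CovZ.leaf K2_ok TB_l8479 _)
              (CovZ.n1 (-28416, 36432) (by decide +kernel)
               (CovZ.leaf K2_ok TB_l8480 _)
               (CovZ.leaf K2_ok TB_l8481 _)))
             (CovZ.n1 (-28368, 36336) (by decide +kernel)
              (CovZ.leaf K2_ok TB_l8482 _)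
              (CovZ.leaf K2_ok TB_l8483 _)))))
          (CovZ.n1 (-28320, 36192) (by decide +kernel)
           (CovZ.leaf K2_ok TB_l8484 _)
           (CovZ.n1 (-28320, 36288) (by decide +kernel)
            (CovZ.leaf K2_ok TB_l8485 _)
            (CovZ.leaf K2_ok TB_l8486 _))))
         (CovZ.subM 6607729237992973859124300449380303861435426415118429173536784384 (by decide +kernel)
          (CovZ.n1 (-28224, 36480) (by decide +kernel)
           (CovZ.n2 (-28128, 36384) (by decide +kernel)
            (CovZ.subM 6607729237992968013117751125768631046696095549986350549268692992 (by decide +kernel)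
             (CovZ.n2 (-28224, 36384) (by decide +kernel)
              (CovZ.n2 (-28176, 36432) (by decide +kernel)
               (CovZ.leaf K2_ok TB_l8487 _)
               (CovZ.n1 (-28224, 36432) (by decide +kernel)
                (CovZ.badM (by decide +kernel))
                (CovZ.n1 (-28200, 36408) (by decide +kernel)
                 (CovZ.leaf K2_ok TB_l8490 _)
                 (CovZ.leaf K2_ok TB_l8491 _))))
              (CovZ.n1 (-28176, 36336) (by decide +kernel)
               (CovZ.leaf K2_ok TB_l8492 _)
               (CovZ.n1 (-28176, 36384) (by decide +kernel)
                (CovZ.leaf K2_ok TB_l8493 _)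
                (CovZ.leaf K2_ok TB_l8494 _)))))
            (CovZ.subM 6582018229284824168619876751497049952489597428995232418416820224 (by decide +kernel)
             (CovZ.n1 (-28128, 36480) (by decide +kernel)
              (CovZ.n2 (-28080, 36432) (by decide +kernel)
               (CovZ.n2 (-28128, 36432) (by decide +kernel)
                (CovZ.badM (by decide +kernel))
                (CovZ.n1 (-28104, 36408) (by decide +kernel)
                 (CovZ.leaf K2_ok TB_l8495 _)
                 (CovZ.leaf K2_ok TB_l39203 _)))
               (CovZ.n1 (-28080, 36480) (by decide +kernel)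
                (CovZ.n2 (-28056, 36456) (by decide +kernel)
                 (CovZ.badM (by decide +kernel))
                 (CovZ.badM (by decide +kernel)))
                (CovZ.badM (by decide +kernel))))
              (CovZ.n1 (-28176, 36432) (by decide +kernel)
               (CovZ.badM (by decide +kernel))
               (CovZ.n1 (-28128, 36432) (by decide +kernel)
                (CovZ.n2 (-28152, 36408) (by decide +kernel)
                 (CovZ.leaf K2_ok TB_l8503 _)
                 (CovZ.leaf K2_ok TB_l8504 _))
                (CovZ.badM (by decide +kernel)))))))
           (CovZ.n1 (-28320, 36384) (by decide +kernel)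
            (CovZ.n2 (-28320, 36480) (by decide +kernel)
             (CovZ.n2 (-28272, 36432) (by decide +kernel)
              (CovZ.n2 (-28320, 36432) (by decide +kernel)
               (CovZ.badM (by decide +kernel))
               (CovZ.leaf K2_ok TB_l8507 _))
              (CovZ.badM (by decide +kernel)))
             (CovZ.n1 (-28368, 36432) (by decide +kernel)
              (CovZ.subM 25711008708149690504423697883253908945828986123196755119964160 (by decide +kernel)
               (CovZ.n2 (-28368, 36480) (by decide +kernel)
                (CovZ.n2 (-28344, 36456) (by decide +kernel)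
                 (CovZ.leaf K2_ok TB_l8514 _)
                 (CovZ.badM (by decide +kernel)))
                (CovZ.n1 (-28392, 36456) (by decide +kernel)
                 (CovZ.n2 (-28392, 36480) (by decide +kernel)
                  (CovZ.leaf K2_ok TB_l8517 _)
                  (CovZ.leaf K2_ok TB_l8518 _))
                 (CovZ.leaf K2_ok TB_l8519 _))))
              (CovZ.n1 (-28320, 36432) (by decide +kernel)
               (CovZ.leaf K2_ok TB_l8520 _)
               (CovZ.n1 (-28344, 36456) (by decide +kernel)
                (CovZ.badM (by decide +kernel))
                (CovZ.leaf K2_ok TB_l8522 _)))))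
            (CovZ.subM 6607729237992968013117751125768631046696095549986350549268692992 (by decide +kernel)
             (CovZ.n1 (-28224, 36384) (by decide +kernel)
              (CovZ.n2 (-28272, 36336) (by decide +kernel)
               (CovZ.leaf K2_ok TB_l8523 _)
               (CovZ.leaf K2_ok TB_l8524 _))
              (CovZ.n1 (-28272, 36432) (by decide +kernel)
               (CovZ.n2 (-28224, 36432) (by decide +kernel)
                (CovZ.leaf K2_ok TB_l8525 _)
                (CovZ.badM (by decide +kernel)))
               (CovZ.leaf K2_ok TB_l8529 _))))))))))
      (CovZ.subM 2854495385411919762116571938898990272766803968 (by decide +kernel)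
       (CovZ.n1 (-28032, 36864) (by decide +kernel)
        (CovZ.n2 (-27840, 36672) (by decide +kernel)
         (CovZ.badM (by decide +kernel))
         (CovZ.badM (by decide +kernel)))
        (CovZ.n1 (-28224, 36672) (by decide +kernel)
         (CovZ.badM (by decide +kernel))
         (CovZ.badM (by decide +kernel))))))

theorem TB_u548 : CovZ TB_M (toL (selN TB_LN 5043456793138493339171717132834328964652041523698219635823420621511157946681833071252843570301030225907523421266509824)) [0, 7, 6, 1] (-28416, 36864) (-29184, 36864) (-28416, 36096) :=
    (CovZ.n1 (-28800, 36480) (by decide +kernel)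
      (CovZ.subM 25711008708240303605938219181094520545120887285643664057958400 (by decide +kernel)
       (CovZ.n2 (-28800, 36864) (by decide +kernel)
        (CovZ.n2 (-28608, 36672) (by decide +kernel)
         (CovZ.n2 (-28800, 36672) (by decide +kernel)
          (CovZ.badM (by decide +kernel))
          (CovZ.n1 (-28704, 36576) (by decide +kernel)
           (CovZ.n2 (-28800, 36576) (by decide +kernel)
            (CovZ.badM (by decide +kernel))
            (CovZ.n1 (-28752, 36528) (by decide +kernel)
             (CovZ.n2 (-28800, 36528) (by decide +kernel)
              (CovZ.badM (by decide +kernel))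
              (CovZ.n1 (-28776, 36504) (by decide +kernel)
               (CovZ.leaf K2_ok TB_l8532 _)
               (CovZ.n1 (-28776, 36528) (by decide +kernel)
                (CovZ.leaf K2_ok TB_l8533 _)
                (CovZ.leaf K2_ok TB_l8534 _))))
             (CovZ.badM (by decide +kernel))))
           (CovZ.badM (by decide +kernel))))
         (CovZ.badM (by decide +kernel)))
        (CovZ.n1 (-28992, 36672) (by decide +kernel)
         (CovZ.badM (by decide +kernel))
         (CovZ.n1 (-28800, 36672) (by decide +kernel)
          (CovZ.n2 (-28896, 36576) (by decide +kernel)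
           (CovZ.n2 (-28896, 36672) (by decide +kernel)
            (CovZ.n2 (-28848, 36624) (by decide +kernel)
             (CovZ.badM (by decide +kernel))
             (CovZ.badM (by decide +kernel)))
            (CovZ.badM (by decide +kernel)))
           (CovZ.n1 (-28800, 36576) (by decide +kernel)
            (CovZ.n2 (-28848, 36528) (by decide +kernel)
             (CovZ.n2 (-28848, 36576) (by decide +kernel)
              (CovZ.n2 (-28824, 36552) (by decide +kernel)
               (CovZ.badM (by decide +kernel))
               (CovZ.badM (by decide +kernel)))
              (CovZ.badM (by decide +kernel)))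
             (CovZ.n1 (-28800, 36528) (by decide +kernel)
              (CovZ.n2 (-28824, 36504) (by decide +kernel)
               (CovZ.leaf K2_ok TB_l8537 _)
               (CovZ.leaf K2_ok TB_l8538 _))
              (CovZ.n1 (-28824, 36552) (by decide +kernel)
               (CovZ.badM (by decide +kernel))
               (CovZ.leaf K2_ok TB_l8540 _))))
            (CovZ.n1 (-28848, 36624) (by decide +kernel)
             (CovZ.badM (by decide +kernel))
             (CovZ.n1 (-28848, 36576) (by decide +kernel)
              (CovZ.badM (by decide +kernel))
              (CovZ.badM (by decide +kernel))))))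
          (CovZ.badM (by decide +kernel))))))
      (CovZ.subM 5043456793138493339171717132834296910615319799168549464701954894898234191666047568051185587693871842504024582429605888 (by decide +kernel)
       (CovZ.n1 (-28416, 36480) (by decide +kernel)
        (CovZ.n2 (-28608, 36288) (by decide +kernel)
         (CovZ.n2 (-28608, 36480) (by decide +kernel)
          (CovZ.n2 (-28512, 36384) (by decide +kernel)
           (CovZ.n2 (-28608, 36384) (by decide +kernel)
            (CovZ.n2 (-28560, 36432) (by decide +kernel)
             (CovZ.leaf K2_ok TB_l8541 _)
             (CovZ.leaf K2_ok TB_l8542 _))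
            (CovZ.leaf K2_ok TB_l8543 _))
           (CovZ.subM 6607729237992973859124300449380303861435426415118429172999913472 (by decide +kernel)
            (CovZ.n1 (-28512, 36480) (by decide +kernel)
             (CovZ.n2 (-28464, 36432) (by decide +kernel)
              (CovZ.leaf K2_ok TB_l8544 _)
              (CovZ.n1 (-28464, 36480) (by decide +kernel)
               (CovZ.n2 (-28440, 36456) (by decide +kernel)
                (CovZ.leaf K2_ok TB_l8545 _)
                (CovZ.n1 (-28440, 36480) (by decide +kernel)
                 (CovZ.leaf K2_ok TB_l8546 _)
                 (CovZ.leaf K2_ok TB_l8547 _)))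
               (CovZ.n1 (-28488, 36456) (by decide +kernel)
                (CovZ.leaf K2_ok TB_l8548 _)
                (CovZ.leaf K2_ok TB_l8549 _))))
             (CovZ.n1 (-28560, 36432) (by decide +kernel)
              (CovZ.n2 (-28560, 36480) (by decide +kernel)
               (CovZ.n2 (-28536, 36456) (by decide +kernel)
                (CovZ.leaf K2_ok TB_l8550 _)
                (CovZ.leaf K2_ok TB_l8551 _))
               (CovZ.leaf K2_ok TB_l8552 _))
              (CovZ.n1 (-28512, 36432) (by decide +kernel)
               (CovZ.leaf K2_ok TB_l8553 _)
               (CovZ.leaf K2_ok TB_l8554 _))))))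
          (CovZ.n1 (-28704, 36384) (by decide +kernel)
           (CovZ.subM 6582018229284830014626426080425634750368591785742539282732548096 (by decide +kernel)
            (CovZ.n2 (-28704, 36480) (by decide +kernel)
             (CovZ.n2 (-28656, 36432) (by decide +kernel)
              (CovZ.leaf K2_ok TB_l8555 _)
              (CovZ.n1 (-28656, 36480) (by decide +kernel)
               (CovZ.leaf K2_ok TB_l8556 _)
               (CovZ.leaf K2_ok TB_l8557 _)))
             (CovZ.n1 (-28752, 36432) (by decide +kernel)
              (CovZ.n2 (-28752, 36480) (by decide +kernel)
               (CovZ.leaf K2_ok TB_l8558 _)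
               (CovZ.leaf K2_ok TB_l8559 _))
              (CovZ.leaf K2_ok TB_l8560 _))))
           (CovZ.n1 (-28608, 36384) (by decide +kernel)
            (CovZ.leaf K2_ok TB_l8561 _)
            (CovZ.n1 (-28656, 36432) (by decide +kernel)
             (CovZ.leaf K2_ok TB_l8562 _)
             (CovZ.leaf K2_ok TB_l8563 _)))))
         (CovZ.n1 (-28416, 36288) (by decide +kernel)
          (CovZ.n2 (-28512, 36192) (by decide +kernel)
           (CovZ.n2 (-28512, 36288) (by decide +kernel)
            (CovZ.leaf K2_ok TB_l8564 _)
            (CovZ.leaf K2_ok TB_l8565 _))
           (CovZ.leaf K2_ok TB_l8566 _))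
          (CovZ.n1 (-28512, 36384) (by decide +kernel)
           (CovZ.n2 (-28416, 36384) (by decide +kernel)
            (CovZ.leaf K2_ok TB_l8567 _)
            (CovZ.n1 (-28464, 36432) (by decide +kernel)
             (CovZ.n2 (-28416, 36432) (by decide +kernel)
              (CovZ.leaf K2_ok TB_l8568 _)
              (CovZ.leaf K2_ok TB_l8569 _))
             (CovZ.leaf K2_ok TB_l8570 _)))
           (CovZ.leaf K2_ok TB_l8571 _))))
        (CovZ.subM 25711008708143844497874379588493077346161612606346372510121984 (by decide +kernel)
         (CovZ.n1 (-28608, 36672) (by decide +kernel)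
          (CovZ.badM (by decide +kernel))
          (CovZ.n1 (-28608, 36480) (by decide +kernel)
           (CovZ.n2 (-28704, 36576) (by decide +kernel)
            (CovZ.badM (by decide +kernel))
            (CovZ.n1 (-28704, 36480) (by decide +kernel)
             (CovZ.n2 (-28752, 36528) (by decide +kernel)
              (CovZ.badM (by decide +kernel))
              (CovZ.leaf K2_ok TB_l8578 _))
             (CovZ.badM (by decide +kernel))))
           (CovZ.n1 (-28512, 36576) (by decide +kernel)
            (CovZ.n2 (-28512, 36480) (by decide +kernel)
             (CovZ.badM (by decide +kernel))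
             (CovZ.n1 (-28464, 36528) (by decide +kernel)
              (CovZ.n2 (-28464, 36480) (by decide +kernel)
               (CovZ.badM (by decide +kernel))
               (CovZ.n1 (-28440, 36504) (by decide +kernel)
                (CovZ.leaf K2_ok TB_l39205 _)
                (CovZ.badM (by decide +kernel))))
              (CovZ.badM (by decide +kernel))))
            (CovZ.badM (by decide +kernel)))))))))

theorem TB_u549 : CovZ TB_M (toL (selN TB_LN 5043456793138493409163740325890678490535391066932433103347233987753301023895430422489128164967649156570282231201005568)) [0, 7, 6, 1] (-26112, 36864) (-26880, 36096) (-26112, 35328) :=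
    (CovZ.subM 15914343565113172548972231940698266883214599680010512370339127930811469530174496803127296 (by decide +kernel)
     (CovZ.n2 (-26112, 36096) (by decide +kernel)
      (CovZ.n2 (-26496, 35712) (by decide +kernel)
       (CovZ.n2 (-26496, 36096) (by decide +kernel)
        (CovZ.n2 (-26304, 35904) (by decide +kernel)
         (CovZ.n2 (-26496, 35904) (by decide +kernel)
          (CovZ.badM (by decide +kernel))
          (CovZ.n1 (-26400, 35808) (by decide +kernel)
           (CovZ.n2 (-26496, 35808) (by decide +kernel)
            (CovZ.n2 (-26448, 35856) (by decide +kernel)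
             (CovZ.leaf K2_ok TB_l39652 _)
             (CovZ.n1 (-26496, 35856) (by decide +kernel)
              (CovZ.badM (by decide +kernel))
              (CovZ.leaf K2_ok TB_l39653 _)))
            (CovZ.n1 (-26448, 35760) (by decide +kernel)
             (CovZ.leaf K2_ok TB_l11661 _)
             (CovZ.n1 (-26448, 35808) (by decide +kernel)
              (CovZ.leaf K2_ok TB_l39654 _)
              (CovZ.leaf K2_ok TB_l39655 _))))
           (CovZ.n1 (-26400, 35904) (by decide +kernel)
            (CovZ.n2 (-26352, 35856) (by decide +kernel)
             (CovZ.n2 (-26400, 35856) (by decide +kernel)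
              (CovZ.badM (by decide +kernel))
              (CovZ.leaf K2_ok TB_l39656 _))
             (CovZ.badM (by decide +kernel)))
            (CovZ.n1 (-26448, 35856) (by decide +kernel)
             (CovZ.badM (by decide +kernel))
             (CovZ.n1 (-26400, 35856) (by decide +kernel)
              (CovZ.leaf K2_ok TB_l39657 _)
              (CovZ.badM (by decide +kernel)))))))
         (CovZ.badM (by decide +kernel)))
        (CovZ.n1 (-26688, 35904) (by decide +kernel)
         (CovZ.n2 (-26688, 36096) (by decide +kernel)
          (CovZ.badM (by decide +kernel))
          (CovZ.n1 (-26784, 36000) (by decide +kernel)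
           (CovZ.badM (by decide +kernel))
           (CovZ.badM (by decide +kernel))))
         (CovZ.n1 (-26496, 35904) (by decide +kernel)
          (CovZ.n2 (-26592, 35808) (by decide +kernel)
           (CovZ.n2 (-26592, 35904) (by decide +kernel)
            (CovZ.n2 (-26544, 35856) (by decide +kernel)
             (CovZ.n2 (-26592, 35856) (by decide +kernel)
              (CovZ.badM (by decide +kernel))
              (CovZ.leaf K2_ok TB_l39658 _))
             (CovZ.badM (by decide +kernel)))
            (CovZ.n1 (-26640, 35856) (by decide +kernel)
             (CovZ.n2 (-26640, 35904) (by decide +kernel)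
              (CovZ.n2 (-26616, 35880) (by decide +kernel)
               (CovZ.leaf K2_ok TB_l39659 _)
               (CovZ.badM (by decide +kernel)))
              (CovZ.n1 (-26664, 35880) (by decide +kernel)
               (CovZ.badM (by decide +kernel))
               (CovZ.leaf K2_ok TB_l39660 _)))
             (CovZ.n1 (-26592, 35856) (by decide +kernel)
              (CovZ.leaf K2_ok TB_l39661 _)
              (CovZ.leaf K2_ok TB_l39662 _))))
           (CovZ.n1 (-26496, 35808) (by decide +kernel)
            (CovZ.n2 (-26544, 35760) (by decide +kernel)
             (CovZ.leaf K2_ok TB_l39663 _)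
             (CovZ.leaf K2_ok TB_l11662 _))
            (CovZ.n1 (-26544, 35856) (by decide +kernel)
             (CovZ.n2 (-26496, 35856) (by decide +kernel)
              (CovZ.leaf K2_ok TB_l39664 _)
              (CovZ.badM (by decide +kernel)))
             (CovZ.leaf K2_ok TB_l39665 _))))
          (CovZ.badM (by decide +kernel)))))
       (CovZ.n1 (-26112, 35712) (by decide +kernel)
        (CovZ.n2 (-26304, 35520) (by decide +kernel)
         (CovZ.n2 (-26304, 35712) (by decide +kernel)
          (CovZ.n2 (-26208, 35616) (by decide +kernel)
           (CovZ.n2 (-26304, 35616) (by decide +kernel)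
            (CovZ.leaf K2_ok TB_l11663 _)
            (CovZ.leaf K2_ok TB_l11664 _))
           (CovZ.n1 (-26208, 35712) (by decide +kernel)
            (CovZ.n2 (-26160, 35664) (by decide +kernel)
             (CovZ.leaf K2_ok TB_l11665 _)
             (CovZ.n1 (-26160, 35712) (by decide +kernel)
              (CovZ.leaf K2_ok TB_l11666 _)
              (CovZ.leaf K2_ok TB_l11667 _)))
            (CovZ.n1 (-26256, 35664) (by decide +kernel)
             (CovZ.leaf K2_ok TB_l11668 _)
             (CovZ.leaf K2_ok TB_l11669 _))))
          (CovZ.n1 (-26400, 35616) (by decide +kernel)
           (CovZ.n2 (-26400, 35712) (by decide +kernel)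
            (CovZ.leaf K2_ok TB_l11670 _)
            (CovZ.leaf K2_ok TB_l11671 _))
           (CovZ.n1 (-26304, 35616) (by decide +kernel)
            (CovZ.leaf K2_ok TB_l11672 _)
            (CovZ.leaf K2_ok TB_l11673 _))))
         (CovZ.n1 (-26112, 35520) (by decide +kernel)
          (CovZ.n2 (-26208, 35424) (by decide +kernel)
           (CovZ.n2 (-26208, 35520) (by decide +kernel)
            (CovZ.leaf K2_ok TB_l11674 _)
            (CovZ.leaf K2_ok TB_l11675 _))
           (CovZ.leaf K2_ok TB_l11676 _))
          (CovZ.n1 (-26208, 35616) (by decide +kernel)
           (CovZ.n2 (-26112, 35616) (by decide +kernel)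
            (CovZ.n2 (-26160, 35568) (by decide +kernel)
             (CovZ.leaf K2_ok TB_l11677 _)
             (CovZ.leaf K2_ok TB_l11678 _))
            (CovZ.n1 (-26160, 35664) (by decide +kernel)
             (CovZ.leaf K2_ok TB_l11679 _)
             (CovZ.leaf K2_ok TB_l11680 _)))
           (CovZ.leaf K2_ok TB_l11681 _))))
        (CovZ.n1 (-26304, 35904) (by decide +kernel)
         (CovZ.n2 (-26112, 35904) (by decide +kernel)
          (CovZ.n2 (-26208, 35808) (by decide +kernel)
           (CovZ.badM (by decide +kernel))
           (CovZ.n1 (-26112, 35808) (by decide +kernel)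
            (CovZ.n2 (-26160, 35760) (by decide +kernel)
             (CovZ.badM (by decide +kernel))
             (CovZ.n1 (-26112, 35760) (by decide +kernel)
              (CovZ.n2 (-26136, 35736) (by decide +kernel)
               (CovZ.leaf K2_ok TB_l39666 _)
               (CovZ.leaf K2_ok TB_l39667 _))
              (CovZ.badM (by decide +kernel))))
            (CovZ.badM (by decide +kernel))))
          (CovZ.badM (by decide +kernel)))
         (CovZ.n1 (-26304, 35712) (by decide +kernel)
          (CovZ.n2 (-26400, 35808) (by decide +kernel)
           (CovZ.n2 (-26304, 35808) (by decide +kernel)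
            (CovZ.n2 (-26352, 35760) (by decide +kernel)
             (CovZ.n2 (-26352, 35808) (by decide +kernel)
              (CovZ.leaf K2_ok TB_l39668 _)
              (CovZ.leaf K2_ok TB_l39669 _))
             (CovZ.leaf K2_ok TB_l39670 _))
            (CovZ.n1 (-26352, 35856) (by decide +kernel)
             (CovZ.badM (by decide +kernel))
             (CovZ.leaf K2_ok TB_l39671 _)))
           (CovZ.leaf K2_ok TB_l11682 _))
          (CovZ.n1 (-26208, 35808) (by decide +kernel)
           (CovZ.n2 (-26208, 35712) (by decide +kernel)
            (CovZ.n2 (-26256, 35760) (by decide +kernel)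
             (CovZ.n2 (-26208, 35760) (by decide +kernel)
              (CovZ.leaf K2_ok TB_l39672 _)
              (CovZ.leaf K2_ok TB_l39673 _))
             (CovZ.leaf K2_ok TB_l39674 _))
            (CovZ.n1 (-26160, 35760) (by decide +kernel)
             (CovZ.leaf K2_ok TB_l39675 _)
             (CovZ.n1 (-26208, 35760) (by decide +kernel)
              (CovZ.leaf K2_ok TB_l39676 _)
              (CovZ.leaf K2_ok TB_l39677 _))))
           (CovZ.n1 (-26304, 35808) (by decide +kernel)
            (CovZ.badM (by decide +kernel))
            (CovZ.n1 (-26256, 35760) (by decide +kernel)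
             (CovZ.leaf K2_ok TB_l39678 _)
             (CovZ.n1 (-26256, 35808) (by decide +kernel)
              (CovZ.leaf K2_ok TB_l39679 _)
              (CovZ.leaf K2_ok TB_l39680 _)))))))))
      (CovZ.n1 (-26496, 36480) (by decide +kernel)
       (CovZ.badM (by decide +kernel))
       (CovZ.n1 (-26496, 36096) (by decide +kernel)
        (CovZ.badM (by decide +kernel))
        (CovZ.badM (by decide +kernel))))))

theorem TB_u550 : CovZ TB_M (toL (selN TB_LN 5043456793138493409163740325890678490535391066932433103347233987753301023895430422489128164967649156570282231201005568)) [0, 7, 6, 1] (-26880, 36096) (-27648, 35328) (-26112, 35328) :=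
    (CovZ.n1 (-26880, 35328) (by decide +kernel)
     (CovZ.n2 (-27264, 35712) (by decide +kernel)
      (CovZ.subM 15914343565113172548972231966409275591358444177884886641920222137309590521292628192133120 (by decide +kernel)
       (CovZ.n2 (-26880, 35712) (by decide +kernel)
        (CovZ.n2 (-27072, 35520) (by decide +kernel)
         (CovZ.n2 (-27072, 35712) (by decide +kernel)
          (CovZ.n2 (-26976, 35616) (by decide +kernel)
           (CovZ.leaf K2_ok TB_l11683 _)
           (CovZ.leaf K2_ok TB_l11684 _))
          (CovZ.leaf K2_ok TB_l11685 _))
         (CovZ.n1 (-26880, 35520) (by decide +kernel)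
          (CovZ.leaf K2_ok TB_l11686 _)
          (CovZ.leaf K2_ok TB_l11687 _)))
        (CovZ.n1 (-27072, 35904) (by decide +kernel)
         (CovZ.n2 (-26880, 35904) (by decide +kernel)
          (CovZ.n2 (-26976, 35808) (by decide +kernel)
           (CovZ.n2 (-26976, 35904) (by decide +kernel)
            (CovZ.n2 (-26928, 35856) (by decide +kernel)
             (CovZ.leaf K2_ok TB_l11688 _)
             (CovZ.leaf K2_ok TB_l11689 _))
            (CovZ.leaf K2_ok TB_l11690 _))
           (CovZ.n1 (-26880, 35808) (by decide +kernel)
            (CovZ.leaf K2_ok TB_l11691 _)
            (CovZ.leaf K2_ok TB_l11692 _)))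
          (CovZ.n1 (-26976, 36000) (by decide +kernel)
           (CovZ.subM 15914343565113172548972231940698266883214599680010512370339127930811469530174496803127296 (by decide +kernel)
            (CovZ.n2 (-26880, 36000) (by decide +kernel)
             (CovZ.n2 (-26928, 35952) (by decide +kernel)
              (CovZ.n2 (-26928, 36000) (by decide +kernel)
               (CovZ.n2 (-26904, 35976) (by decide +kernel)
                (CovZ.leaf K2_ok TB_l11693 _)
                (CovZ.badM (by decide +kernel)))
               (CovZ.leaf K2_ok TB_l11696 _))
              (CovZ.n1 (-26880, 35952) (by decide +kernel)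
               (CovZ.leaf K2_ok TB_l11697 _)
               (CovZ.leaf K2_ok TB_l11698 _)))
             (CovZ.badM (by decide +kernel))))
           (CovZ.leaf K2_ok TB_l11700 _)))
         (CovZ.leaf K2_ok TB_l11701 _))))
      (CovZ.leaf K2_ok TB_l11702 _))
     (CovZ.subM 15914343565113172548972231966409275591358809464091238573527280492374896501454096151347200 (by decide +kernel)
      (CovZ.n1 (-26496, 35712) (by decide +kernel)
       (CovZ.n2 (-26496, 35328) (by decide +kernel)
        (CovZ.n2 (-26688, 35520) (by decide +kernel)
         (CovZ.subM 15914343565113172548972231940698266883214599680010512370014609377153042803391340782813184 (by decide +kernel)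
          (CovZ.n2 (-26496, 35520) (by decide +kernel)
           (CovZ.n2 (-26592, 35424) (by decide +kernel)
            (CovZ.leaf K2_ok TB_l11703 _)
            (CovZ.leaf K2_ok TB_l11704 _))
           (CovZ.n1 (-26592, 35616) (by decide +kernel)
            (CovZ.leaf K2_ok TB_l11705 _)
            (CovZ.leaf K2_ok TB_l11706 _))))
         (CovZ.leaf K2_ok TB_l11707 _))
        (CovZ.n1 (-26304, 35520) (by decide +kernel)
         (CovZ.leaf K2_ok TB_l11708 _)
         (CovZ.subM 15914343565113172548972231940698266883214599680010512370014609377153042803391340782813184 (by decide +kernel)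
          (CovZ.n1 (-26496, 35520) (by decide +kernel)
           (CovZ.n2 (-26400, 35616) (by decide +kernel)
            (CovZ.leaf K2_ok TB_l11709 _)
            (CovZ.leaf K2_ok TB_l11710 _))
           (CovZ.n1 (-26400, 35424) (by decide +kernel)
            (CovZ.leaf K2_ok TB_l11711 _)
            (CovZ.leaf K2_ok TB_l11712 _))))))
       (CovZ.n1 (-26880, 35712) (by decide +kernel)
        (CovZ.n2 (-26688, 35904) (by decide +kernel)
         (CovZ.n2 (-26688, 35712) (by decide +kernel)
          (CovZ.n2 (-26784, 35808) (by decide +kernel)
           (CovZ.subM 15914343565113172548972231940698266883214599680010512370014609377153042803391340782551040 (by decide +kernel)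
            (CovZ.n2 (-26688, 35808) (by decide +kernel)
             (CovZ.n2 (-26736, 35760) (by decide +kernel)
              (CovZ.leaf K2_ok TB_l11713 _)
              (CovZ.leaf K2_ok TB_l11714 _))
             (CovZ.n1 (-26736, 35856) (by decide +kernel)
              (CovZ.n2 (-26688, 35856) (by decide +kernel)
               (CovZ.leaf K2_ok TB_l11715 _)
               (CovZ.leaf K2_ok TB_l11716 _))
              (CovZ.leaf K2_ok TB_l11717 _))))
           (CovZ.leaf K2_ok TB_l11718 _))
          (CovZ.subM 15914343565113172548972231940698266883214599680010512370014609377153042803391340782551040 (by decide +kernel)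
           (CovZ.n1 (-26592, 35808) (by decide +kernel)
            (CovZ.leaf K2_ok TB_l11719 _)
            (CovZ.n1 (-26688, 35808) (by decide +kernel)
             (CovZ.n2 (-26640, 35856) (by decide +kernel)
              (CovZ.leaf K2_ok TB_l11720 _)
              (CovZ.n1 (-26688, 35856) (by decide +kernel)
               (CovZ.leaf K2_ok TB_l39681 _)
               (CovZ.leaf K2_ok TB_l11721 _)))
             (CovZ.n1 (-26640, 35760) (by decide +kernel)
              (CovZ.leaf K2_ok TB_l11722 _)
              (CovZ.leaf K2_ok TB_l11723 _))))))
         (CovZ.n1 (-26880, 35904) (by decide +kernel)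
          (CovZ.subM 15914343565113172548972231940698266883214599680010512370339127930811469530174496803127296 (by decide +kernel)
           (CovZ.n2 (-26784, 36000) (by decide +kernel)
            (CovZ.n2 (-26784, 35904) (by decide +kernel)
             (CovZ.n2 (-26832, 35952) (by decide +kernel)
              (CovZ.badM (by decide +kernel))
              (CovZ.n1 (-26832, 35904) (by decide +kernel)
               (CovZ.n2 (-26856, 35928) (by decide +kernel)
                (CovZ.leaf K2_ok TB_l11725 _)
                (CovZ.leaf K2_ok TB_l11726 _))
               (CovZ.n1 (-26808, 35928) (by decide +kernel)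
                (CovZ.leaf K2_ok TB_l11727 _)
                (CovZ.n1 (-26832, 35928) (by decide +kernel)
                 (CovZ.badM (by decide +kernel))
                 (CovZ.leaf K2_ok TB_l11729 _)))))
             (CovZ.badM (by decide +kernel)))
            (CovZ.n1 (-26880, 36000) (by decide +kernel)
             (CovZ.badM (by decide +kernel))
             (CovZ.n1 (-26832, 35952) (by decide +kernel)
              (CovZ.n2 (-26880, 35952) (by decide +kernel)
               (CovZ.n2 (-26856, 35976) (by decide +kernel)
                (CovZ.leaf K2_ok TB_l11732 _)
                (CovZ.n1 (-26880, 35976) (by decide +kernel)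
                 (CovZ.badM (by decide +kernel))
                 (CovZ.leaf K2_ok TB_l11733 _)))
               (CovZ.n1 (-26856, 35928) (by decide +kernel)
                (CovZ.leaf K2_ok TB_l11734 _)
                (CovZ.n1 (-26856, 35952) (by decide +kernel)
                 (CovZ.badM (by decide +kernel))
                 (CovZ.leaf K2_ok TB_l11736 _))))
              (CovZ.n1 (-26832, 36000) (by decide +kernel)
               (CovZ.badM (by decide +kernel))
               (CovZ.n1 (-26856, 35976) (by decide +kernel)
                (CovZ.badM (by decide +kernel))
                (CovZ.badM (by decide +kernel))))))))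
          (CovZ.n1 (-26784, 35808) (by decide +kernel)
           (CovZ.n2 (-26880, 35808) (by decide +kernel)
            (CovZ.n2 (-26832, 35856) (by decide +kernel)
             (CovZ.leaf K2_ok TB_l11737 _)
             (CovZ.leaf K2_ok TB_l11738 _))
            (CovZ.n1 (-26832, 35760) (by decide +kernel)
             (CovZ.leaf K2_ok TB_l11739 _)
             (CovZ.leaf K2_ok TB_l11740 _)))
           (CovZ.subM 15914343565113172548972231940698266883214599680010512370339127930811469530174496803127296 (by decide +kernel)
            (CovZ.n1 (-26784, 35904) (by decide +kernel)
             (CovZ.n2 (-26736, 35856) (by decide +kernel)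
              (CovZ.n2 (-26784, 35856) (by decide +kernel)
               (CovZ.leaf K2_ok TB_l11741 _)
               (CovZ.leaf K2_ok TB_l11742 _))
              (CovZ.n1 (-26736, 35904) (by decide +kernel)
               (CovZ.n2 (-26712, 35880) (by decide +kernel)
                (CovZ.leaf K2_ok TB_l11743 _)
                (CovZ.n1 (-26712, 35904) (by decide +kernel)
                 (CovZ.leaf K2_ok TB_l39682 _)
                 (CovZ.leaf K2_ok TB_l39683 _)))
               (CovZ.n1 (-26760, 35880) (by decide +kernel)
                (CovZ.n2 (-26760, 35904) (by decide +kernel)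
                 (CovZ.leaf K2_ok TB_l11744 _)
                 (CovZ.leaf K2_ok TB_l11745 _))
                (CovZ.leaf K2_ok TB_l11746 _))))
             (CovZ.n1 (-26832, 35856) (by decide +kernel)
              (CovZ.n2 (-26832, 35904) (by decide +kernel)
               (CovZ.n2 (-26808, 35880) (by decide +kernel)
                (CovZ.leaf K2_ok TB_l11747 _)
                (CovZ.n1 (-26808, 35904) (by decide +kernel)
                 (CovZ.leaf K2_ok TB_l11748 _)
                 (CovZ.leaf K2_ok TB_l11749 _)))
               (CovZ.n1 (-26856, 35880) (by decide +kernel)
                (CovZ.leaf K2_ok TB_l11750 _)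
                (CovZ.leaf K2_ok TB_l11751 _)))
              (CovZ.n1 (-26784, 35856) (by decide +kernel)
               (CovZ.leaf K2_ok TB_l11752 _)
               (CovZ.leaf K2_ok TB_l11753 _))))))))
        (CovZ.n1 (-26688, 35520) (by decide +kernel)
         (CovZ.n2 (-26880, 35520) (by decide +kernel)
          (CovZ.leaf K2_ok TB_l11754 _)
          (CovZ.leaf K2_ok TB_l11755 _))
         (CovZ.n1 (-26688, 35712) (by decide +kernel)
          (CovZ.n2 (-26592, 35616) (by decide +kernel)
           (CovZ.leaf K2_ok TB_l11756 _)
           (CovZ.n1 (-26592, 35712) (by decide +kernel)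
            (CovZ.leaf K2_ok TB_l11757 _)
            (CovZ.leaf K2_ok TB_l11758 _)))
          (CovZ.n1 (-26784, 35616) (by decide +kernel)
           (CovZ.n2 (-26784, 35712) (by decide +kernel)
            (CovZ.leaf K2_ok TB_l11759 _)
            (CovZ.leaf K2_ok TB_l11760 _))
           (CovZ.leaf K2_ok TB_l11761 _))))))))

end Pool.Agent.TET
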