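import Pool.Agent.Helper38_TET.TB_M
import Pool.Agent.Helper38_TET.TB_L
import Pool.Agent.Helper38_TET.TB_12
import Pool.Agent.Helper38_TET.TB_33
import Pool.Agent.Helper38_TET.TB_34
import Pool.Agent.Helper38_TET.TB_55
import Pool.Agent.Helper38_TET.TB_56
import Pool.Agent.Helper38_TET.TB_77
import Pool.Agent.Helper38_TET.TB_78
import Pool.Agent.Helper38_TET.TB_92
import Pool.Agent.Helper38_TET.TB_93
import Pool.Agent.Helper38_TET.TB_105
import Pool.Agent.Helper38_TET.TB_131
import Pool.Agent.Helper38_TET.TB_138
import Pool.Agent.Helper38_TET.TB_159
import Pool.Agent.Helper38_TET.TB_256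
import Pool.Agent.Helper38_TET.TB_261
import Pool.Agent.Helper38_TET.TB_278
import Pool.Agent.Helper38_TET.TB_279
import Pool.Agent.Helper38_TET.TB_280
import Pool.Agent.Helper38_TET.TB_283
import Pool.Agent.Helper38_TET.TB_325
import Pool.Agent.Helper38_TET.TB_U36
import Pool.Agent.Helper38_TET.TB_U37

/-!
# MP_c7c9bf_co: certificates, family TB
-/

set_option autoImplicit false
set_option maxRecDepth 100000

namespace Pool.Agent.TET

theorem TB_s7_24 : SqZ TB_M TB_L [0, 7, 6, 1] (-32256) (-4608) 1536 7 24 :=
  SqZ.mk (a := (-21504)) (b := (-19968)) (c := 32256) (d := 33792) (by norm_num) (by norm_num) (by norm_num) (by norm_num)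
    (CovZ.topM TB_LL 83124071489898136766484664717294290091879652661102269588631781386641795075742990367713967364313710592 (by decide +kernel) (CovZ.n2 (-20736, 33024) (by decide +kernel)
    (CovZ.subM 8749002899132047697490008908470485461412677723572849859882897842116602481460381250042613921415692288 (by decide +kernel)
     (CovZ.n2 (-19968, 33024) (by decide +kernel)
      (CovZ.n2 (-20352, 32640) (by decide +kernel)
       TB_u537
       TB_u538)
      (CovZ.subM 8749002899132047697490008908470485461412677723572849768539045508935170093730079204122003688308867072 (by decide +kernel)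
       (CovZ.n1 (-20352, 33408) (by decide +kernel)
        (CovZ.badM (by decide +kernel))
        (CovZ.n1 (-20352, 33024) (by decide +kernel)
         (CovZ.n2 (-20544, 33216) (by decide +kernel)
          (CovZ.badM (by decide +kernel))
          (CovZ.n1 (-20544, 33024) (by decide +kernel)
           (CovZ.n2 (-20640, 33120) (by decide +kernel)
            (CovZ.badM (by decide +kernel))
            (CovZ.n1 (-20640, 33024) (by decide +kernel)
             (CovZ.n2 (-20688, 33072) (by decide +kernel)
              (CovZ.n2 (-20640, 33072) (by decide +kernel)
               (CovZ.n2 (-20664, 33048) (by decide +kernel)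
                (CovZ.badM (by decide +kernel))
                (CovZ.leaf K2_ok TB_l41721 _))
               (CovZ.badM (by decide +kernel)))
              (CovZ.leaf K2_ok TB_l41722 _))
             (CovZ.n1 (-20592, 33072) (by decide +kernel)
              (CovZ.leaf K2_ok TB_l41723 _)
              (CovZ.n1 (-20640, 33072) (by decide +kernel)
               (CovZ.badM (by decide +kernel))
               (CovZ.n1 (-20616, 33048) (by decide +kernel)
                (CovZ.leaf K2_ok TB_l41724 _)
                (CovZ.badM (by decide +kernel)))))))
           (CovZ.badM (by decide +kernel))))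
         (CovZ.n1 (-20160, 33216) (by decide +kernel)
          (CovZ.n2 (-20160, 33024) (by decide +kernel)
           (CovZ.badM (by decide +kernel))
           (CovZ.badM (by decide +kernel)))
          (CovZ.badM (by decide +kernel))))))))
    (CovZ.n1 (-20736, 32256) (by decide +kernel)
     (CovZ.n2 (-21120, 32640) (by decide +kernel)
      (CovZ.subM 8749002899132047697490008908470485461412677723572851412728387506200953072875516011057293508825055232 (by decide +kernel)
       (CovZ.n2 (-20736, 32640) (by decide +kernel)
        (CovZ.n2 (-20928, 32448) (by decide +kernel)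
         (CovZ.n2 (-20928, 32640) (by decide +kernel)
          (CovZ.leaf K2_ok TB_l19656 _)
          (CovZ.leaf K2_ok TB_l19657 _))
         (CovZ.leaf K2_ok TB_l19658 _))
        (CovZ.n1 (-20928, 32832) (by decide +kernel)
         (CovZ.subM 8749002899132047697490008908470485461412677723572849768539045508935170093730079204085974891294097408 (by decide +kernel)
          (CovZ.n2 (-20736, 32832) (by decide +kernel)
           (CovZ.n2 (-20832, 32736) (by decide +kernel)
            (CovZ.leaf K2_ok TB_l19659 _)
            (CovZ.leaf K2_ok TB_l19660 _))
           (CovZ.n1 (-20832, 32928) (by decide +kernel)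
            (CovZ.n2 (-20736, 32928) (by decide +kernel)
             (CovZ.leaf K2_ok TB_l19661 _)
             (CovZ.leaf K2_ok TB_l41725 _))
            (CovZ.leaf K2_ok TB_l19662 _))))
         (CovZ.leaf K2_ok TB_l19663 _))))
      (CovZ.leaf K2_ok TB_l19664 _))
     (CovZ.subM 8749002899132047697490008908470485461412677723572849859882897842116602481460382430634234638826995712 (by decide +kernel)
      (CovZ.n1 (-20352, 32640) (by decide +kernel)
       (CovZ.n2 (-20352, 32256) (by decide +kernel)
        (CovZ.n2 (-20544, 32448) (by decide +kernel)
         (CovZ.n2 (-20352, 32448) (by decide +kernel)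
          (CovZ.leaf K2_ok TB_l19665 _)
          (CovZ.leaf K2_ok TB_l19666 _))
         (CovZ.leaf K2_ok TB_l19667 _))
        (CovZ.n1 (-20160, 32448) (by decide +kernel)
         (CovZ.leaf K2_ok TB_l19668 _)
         (CovZ.n1 (-20352, 32448) (by decide +kernel)
          (CovZ.leaf K2_ok TB_l19669 _)
          (CovZ.leaf K2_ok TB_l19670 _))))
       (CovZ.n1 (-20736, 32640) (by decide +kernel)
        (CovZ.subM 8749002899132047697490008908470485461412677723572849768539045508935170093730079204085974891294097408 (by decide +kernel)
         (CovZ.n2 (-20544, 32832) (by decide +kernel)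
          (CovZ.n2 (-20544, 32640) (by decide +kernel)
           (CovZ.leaf K2_ok TB_l19671 _)
           (CovZ.leaf K2_ok TB_l19672 _))
          (CovZ.n1 (-20736, 32832) (by decide +kernel)
           (CovZ.n2 (-20640, 32928) (by decide +kernel)
            (CovZ.leaf K2_ok TB_l19673 _)
            (CovZ.n1 (-20736, 32928) (by decide +kernel)
             (CovZ.leaf K2_ok TB_l41726 _)
             (CovZ.leaf K2_ok TB_l19674 _)))
           (CovZ.n1 (-20640, 32736) (by decide +kernel)
            (CovZ.leaf K2_ok TB_l19675 _)
            (CovZ.n1 (-20640, 32832) (by decide +kernel)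
             (CovZ.leaf K2_ok TB_l19676 _)
             (CovZ.leaf K2_ok TB_l19677 _))))))
        (CovZ.n1 (-20544, 32448) (by decide +kernel)
         (CovZ.leaf K2_ok TB_l19678 _)
         (CovZ.n1 (-20544, 32640) (by decide +kernel)
          (CovZ.n2 (-20448, 32544) (by decide +kernel)
           (CovZ.leaf K2_ok TB_l19679 _)
           (CovZ.leaf K2_ok TB_l19680 _))
          (CovZ.leaf K2_ok TB_l19681 _)))))))))
    (CovZ.topM TB_LL 83124071489898136766484664717294290091879652661102269497287929053460362688012688322946278635817926656 (by decide +kernel) (CovZ.n0 (-20736, 33024) (by decide +kernel)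
    (CovZ.n2 (-21504, 33024) (by decide +kernel)
     TB_u539
     TB_u540)
    (CovZ.subM 8757546847275731337819588995295163669871892010733046110748614436433366388852093482996156024037048320 (by decide +kernel)
     (CovZ.n1 (-20736, 33792) (by decide +kernel)
      (CovZ.subM 8749002899132047697490008908470485461412677723572849768539045508935170093730079204122003688308867072 (by decide +kernel)
       (CovZ.n2 (-20352, 33408) (by decide +kernel)
        (CovZ.n2 (-20736, 33408) (by decide +kernel)
         (CovZ.badM (by decide +kernel))
         (CovZ.n1 (-20544, 33216) (by decide +kernel)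
          (CovZ.n2 (-20736, 33216) (by decide +kernel)
           (CovZ.n2 (-20640, 33312) (by decide +kernel)
            (CovZ.n2 (-20640, 33216) (by decide +kernel)
             (CovZ.badM (by decide +kernel))
             (CovZ.badM (by decide +kernel)))
            (CovZ.badM (by decide +kernel)))
           (CovZ.n1 (-20640, 33120) (by decide +kernel)
            (CovZ.n2 (-20736, 33120) (by decide +kernel)
             (CovZ.n2 (-20688, 33168) (by decide +kernel)
              (CovZ.n2 (-20688, 33120) (by decide +kernel)
               (CovZ.n2 (-20712, 33144) (by decide +kernel)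
                (CovZ.badM (by decide +kernel))
                (CovZ.leaf K2_ok TB_l41797 _))
               (CovZ.badM (by decide +kernel)))
              (CovZ.n1 (-20736, 33168) (by decide +kernel)
               (CovZ.badM (by decide +kernel))
               (CovZ.n1 (-20712, 33144) (by decide +kernel)
                (CovZ.n2 (-20736, 33144) (by decide +kernel)
                 (CovZ.badM (by decide +kernel))
                 (CovZ.leaf K2_ok TB_l41798 _))
                (CovZ.badM (by decide +kernel)))))
             (CovZ.n1 (-20688, 33072) (by decide +kernel)
              (CovZ.n2 (-20736, 33072) (by decide +kernel)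
               (CovZ.leaf K2_ok TB_l41799 _)
               (CovZ.leaf K2_ok TB_l41800 _))
              (CovZ.n1 (-20688, 33120) (by decide +kernel)
               (CovZ.badM (by decide +kernel))
               (CovZ.n1 (-20712, 33096) (by decide +kernel)
                (CovZ.n2 (-20712, 33120) (by decide +kernel)
                 (CovZ.badM (by decide +kernel))
                 (CovZ.leaf K2_ok TB_l41801 _))
                (CovZ.badM (by decide +kernel))))))
            (CovZ.n1 (-20640, 33216) (by decide +kernel)
             (CovZ.badM (by decide +kernel))
             (CovZ.n1 (-20688, 33168) (by decide +kernel)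
              (CovZ.badM (by decide +kernel))
              (CovZ.badM (by decide +kernel))))))
          (CovZ.n1 (-20544, 33408) (by decide +kernel)
           (CovZ.badM (by decide +kernel))
           (CovZ.n1 (-20640, 33312) (by decide +kernel)
            (CovZ.badM (by decide +kernel))
            (CovZ.badM (by decide +kernel))))))
        (CovZ.badM (by decide +kernel))))
      (CovZ.n1 (-21120, 33408) (by decide +kernel)
       (CovZ.n2 (-21120, 33792) (by decide +kernel)
        (CovZ.badM (by decide +kernel))
        (CovZ.n1 (-21312, 33600) (by decide +kernel)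
         (CovZ.badM (by decide +kernel))
         (CovZ.badM (by decide +kernel))))
       (CovZ.subM 8749002899132047697490008908470485461412677723572851230040682839838088297414911920368994547222446080 (by decide +kernel)
        (CovZ.n1 (-20736, 33408) (by decide +kernel)
         (CovZ.n2 (-20928, 33216) (by decide +kernel)
          (CovZ.n2 (-20928, 33408) (by decide +kernel)
           (CovZ.badM (by decide +kernel))
           (CovZ.n1 (-21024, 33312) (by decide +kernel)
            (CovZ.badM (by decide +kernel))
            (CovZ.badM (by decide +kernel))))
          (CovZ.n1 (-20736, 33216) (by decide +kernel)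
           (CovZ.n2 (-20832, 33120) (by decide +kernel)
            (CovZ.n2 (-20832, 33216) (by decide +kernel)
             (CovZ.n2 (-20784, 33168) (by decide +kernel)
              (CovZ.n2 (-20832, 33168) (by decide +kernel)
               (CovZ.badM (by decide +kernel))
               (CovZ.n1 (-20808, 33144) (by decide +kernel)
                (CovZ.leaf K2_ok TB_l41802 _)
                (CovZ.badM (by decide +kernel))))
              (CovZ.badM (by decide +kernel)))
             (CovZ.n1 (-20880, 33168) (by decide +kernel)
              (CovZ.badM (by decide +kernel))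
              (CovZ.n1 (-20832, 33168) (by decide +kernel)
               (CovZ.n2 (-20856, 33144) (by decide +kernel)
                (CovZ.badM (by decide +kernel))
                (CovZ.leaf K2_ok TB_l41803 _))
               (CovZ.badM (by decide +kernel)))))
            (CovZ.n1 (-20736, 33120) (by decide +kernel)
             (CovZ.n2 (-20784, 33072) (by decide +kernel)
              (CovZ.n2 (-20784, 33120) (by decide +kernel)
               (CovZ.n2 (-20760, 33096) (by decide +kernel)
                (CovZ.leaf K2_ok TB_l41804 _)
                (CovZ.leaf K2_ok TB_l41805 _))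
               (CovZ.n1 (-20808, 33096) (by decide +kernel)
                (CovZ.leaf K2_ok TB_l41806 _)
                (CovZ.leaf K2_ok TB_l41807 _)))
              (CovZ.n1 (-20736, 33072) (by decide +kernel)
               (CovZ.leaf K2_ok TB_l41808 _)
               (CovZ.leaf K2_ok TB_l41809 _)))
             (CovZ.n1 (-20784, 33168) (by decide +kernel)
              (CovZ.n2 (-20736, 33168) (by decide +kernel)
               (CovZ.n2 (-20760, 33144) (by decide +kernel)
                (CovZ.badM (by decide +kernel))
                (CovZ.n1 (-20736, 33144) (by decide +kernel)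
                 (CovZ.leaf K2_ok TB_l41810 _)
                 (CovZ.badM (by decide +kernel))))
               (CovZ.badM (by decide +kernel)))
              (CovZ.n1 (-20784, 33120) (by decide +kernel)
               (CovZ.n2 (-20808, 33144) (by decide +kernel)
                (CovZ.leaf K2_ok TB_l41811 _)
                (CovZ.leaf K2_ok TB_l41812 _))
               (CovZ.n1 (-20760, 33144) (by decide +kernel)
                (CovZ.leaf K2_ok TB_l41813 _)
                (CovZ.n1 (-20784, 33144) (by decide +kernel)
                 (CovZ.badM (by decide +kernel))
                 (CovZ.leaf K2_ok TB_l41814 _)))))))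
           (CovZ.badM (by decide +kernel))))
         (CovZ.badM (by decide +kernel)))))))))

theorem TB_s8_24 : SqZ TB_M TB_L [0, 7, 6, 1] (-32256) (-4608) 1536 8 24 :=
  SqZ.mk (a := (-19968)) (b := (-18432)) (c := 32256) (d := 33792) (by norm_num) (by norm_num) (by norm_num) (by norm_num)
    (CovZ.topM TB_LL 34996011596528190789960035746960153991467307987622439121702967048699649774959930137315646746298155008 (by decide +kernel) (CovZ.n2 (-19200, 33024) (by decide +kernel)
    TB_u541
    TB_u542))
    (CovZ.topM TB_LL 113078212145816597093331040138890637346140401787769915365739435913927196672 (by decide +kernel) (CovZ.n0 (-19200, 33024) (by decide +kernel)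
    (CovZ.n2 (-19968, 33024) (by decide +kernel)
     (CovZ.subM 91343852333181432387730302044767688728495783936 (by decide +kernel)
      (CovZ.n2 (-19584, 33408) (by decide +kernel)
       (CovZ.n2 (-19584, 33024) (by decide +kernel)
        (CovZ.n2 (-19776, 33216) (by decide +kernel)
         (CovZ.badM (by decide +kernel))
         (CovZ.n1 (-19776, 33024) (by decide +kernel)
          (CovZ.n2 (-19872, 33120) (by decide +kernel)
           (CovZ.badM (by decide +kernel))
           (CovZ.n1 (-19872, 33024) (by decide +kernel)
            (CovZ.badM (by decide +kernel))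
            (CovZ.badM (by decide +kernel))))
          (CovZ.badM (by decide +kernel))))
        (CovZ.badM (by decide +kernel)))
       (CovZ.badM (by decide +kernel))))
     (CovZ.n1 (-19584, 32640) (by decide +kernel)
      (CovZ.n2 (-19968, 32640) (by decide +kernel)
       (CovZ.n2 (-19776, 32832) (by decide +kernel)
        (CovZ.n2 (-19776, 32640) (by decide +kernel)
         (CovZ.n2 (-19872, 32736) (by decide +kernel)
          (CovZ.subM 36028797018963968 (by decide +kernel)
           (CovZ.n2 (-19776, 32736) (by decide +kernel)
            (CovZ.n2 (-19824, 32688) (by decide +kernel)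
             (CovZ.n2 (-19824, 32736) (by decide +kernel)
              (CovZ.leaf K2_ok TB_l42037 _)
              (CovZ.leaf K2_ok TB_l42038 _))
             (CovZ.leaf K2_ok TB_l20779 _))
            (CovZ.n1 (-19824, 32784) (by decide +kernel)
             (CovZ.n2 (-19776, 32784) (by decide +kernel)
              (CovZ.leaf K2_ok TB_l42039 _)
              (CovZ.leaf K2_ok TB_l42040 _))
             (CovZ.leaf K2_ok TB_l42041 _))))
          (CovZ.leaf K2_ok TB_l20780 _))
         (CovZ.subM 36028797018963968 (by decide +kernel)
          (CovZ.n1 (-19680, 32736) (by decide +kernel)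
           (CovZ.n2 (-19680, 32640) (by decide +kernel)
            (CovZ.n2 (-19728, 32688) (by decide +kernel)
             (CovZ.leaf K2_ok TB_l20781 _)
             (CovZ.leaf K2_ok TB_l20782 _))
            (CovZ.n1 (-19632, 32688) (by decide +kernel)
             (CovZ.leaf K2_ok TB_l20783 _)
             (CovZ.leaf K2_ok TB_l20784 _)))
           (CovZ.n1 (-19776, 32736) (by decide +kernel)
            (CovZ.n2 (-19728, 32784) (by decide +kernel)
             (CovZ.leaf K2_ok TB_l20785 _)
             (CovZ.n1 (-19776, 32784) (by decide +kernel)
              (CovZ.leaf K2_ok TB_l42042 _)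
              (CovZ.n1 (-19752, 32760) (by decide +kernel)
               (CovZ.leaf K2_ok TB_l42043 _)
               (CovZ.leaf K2_ok TB_l42044 _))))
            (CovZ.n1 (-19728, 32688) (by decide +kernel)
             (CovZ.leaf K2_ok TB_l20786 _)
             (CovZ.n1 (-19728, 32736) (by decide +kernel)
              (CovZ.leaf K2_ok TB_l20787 _)
              (CovZ.leaf K2_ok TB_l20788 _)))))))
        (CovZ.n1 (-19968, 32832) (by decide +kernel)
         (CovZ.n2 (-19872, 32928) (by decide +kernel)
          (CovZ.n2 (-19872, 32832) (by decide +kernel)
           (CovZ.n2 (-19920, 32880) (by decide +kernel)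
            (CovZ.n2 (-19872, 32880) (by decide +kernel)
             (CovZ.n2 (-19896, 32856) (by decide +kernel)
              (CovZ.badM (by decide +kernel))
              (CovZ.leaf K2_ok TB_l42045 _))
             (CovZ.badM (by decide +kernel)))
            (CovZ.n1 (-19920, 32832) (by decide +kernel)
             (CovZ.leaf K2_ok TB_l42046 _)
             (CovZ.leaf K2_ok TB_l42047 _)))
           (CovZ.subM 36028797018963968 (by decide +kernel)
            (CovZ.n1 (-19824, 32880) (by decide +kernel)
             (CovZ.n2 (-19824, 32832) (by decide +kernel)
              (CovZ.n2 (-19848, 32856) (by decide +kernel)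
               (CovZ.badM (by decide +kernel))
               (CovZ.leaf K2_ok TB_l42048 _))
              (CovZ.badM (by decide +kernel)))
             (CovZ.n1 (-19872, 32880) (by decide +kernel)
              (CovZ.badM (by decide +kernel))
              (CovZ.n1 (-19848, 32856) (by decide +kernel)
               (CovZ.leaf K2_ok TB_l42049 _)
               (CovZ.badM (by decide +kernel)))))))
          (CovZ.n1 (-19968, 32928) (by decide +kernel)
           (CovZ.n2 (-19920, 32976) (by decide +kernel)
            (CovZ.n2 (-19920, 32928) (by decide +kernel)
             (CovZ.badM (by decide +kernel))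
             (CovZ.badM (by decide +kernel)))
            (CovZ.badM (by decide +kernel)))
           (CovZ.n1 (-19920, 32880) (by decide +kernel)
            (CovZ.n2 (-19968, 32880) (by decide +kernel)
             (CovZ.n2 (-19944, 32904) (by decide +kernel)
              (CovZ.leaf K2_ok TB_l42050 _)
              (CovZ.n1 (-19968, 32904) (by decide +kernel)
               (CovZ.badM (by decide +kernel))
               (CovZ.leaf K2_ok TB_l42051 _)))
             (CovZ.n1 (-19944, 32856) (by decide +kernel)
              (CovZ.leaf K2_ok TB_l42052 _)
              (CovZ.n1 (-19944, 32880) (by decide +kernel)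
               (CovZ.leaf K2_ok TB_l42053 _)
               (CovZ.leaf K2_ok TB_l42054 _))))
            (CovZ.n1 (-19920, 32928) (by decide +kernel)
             (CovZ.badM (by decide +kernel))
             (CovZ.n1 (-19944, 32904) (by decide +kernel)
              (CovZ.badM (by decide +kernel))
              (CovZ.badM (by decide +kernel)))))))
         (CovZ.n1 (-19872, 32736) (by decide +kernel)
          (CovZ.n2 (-19968, 32736) (by decide +kernel)
           (CovZ.n2 (-19920, 32784) (by decide +kernel)
            (CovZ.leaf K2_ok TB_l42055 _)
            (CovZ.leaf K2_ok TB_l42056 _))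
           (CovZ.n1 (-19920, 32688) (by decide +kernel)
            (CovZ.leaf K2_ok TB_l42057 _)
            (CovZ.leaf K2_ok TB_l42058 _)))
          (CovZ.n1 (-19872, 32832) (by decide +kernel)
           (CovZ.subM 36028797018963968 (by decide +kernel)
            (CovZ.n2 (-19824, 32784) (by decide +kernel)
             (CovZ.n2 (-19872, 32784) (by decide +kernel)
              (CovZ.leaf K2_ok TB_l42059 _)
              (CovZ.leaf K2_ok TB_l42060 _))
             (CovZ.n1 (-19824, 32832) (by decide +kernel)
              (CovZ.n2 (-19800, 32808) (by decide +kernel)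
               (CovZ.leaf K2_ok TB_l42061 _)
               (CovZ.n1 (-19800, 32832) (by decide +kernel)
                (CovZ.leaf K2_ok TB_l42062 _)
                (CovZ.leaf K2_ok TB_l42063 _)))
              (CovZ.n1 (-19848, 32808) (by decide +kernel)
               (CovZ.leaf K2_ok TB_l42064 _)
               (CovZ.leaf K2_ok TB_l42065 _)))))
           (CovZ.n1 (-19920, 32784) (by decide +kernel)
            (CovZ.n2 (-19920, 32832) (by decide +kernel)
             (CovZ.n2 (-19896, 32808) (by decide +kernel)
              (CovZ.leaf K2_ok TB_l42066 _)
              (CovZ.leaf K2_ok TB_l42067 _))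
             (CovZ.leaf K2_ok TB_l42068 _))
            (CovZ.n1 (-19872, 32784) (by decide +kernel)
             (CovZ.leaf K2_ok TB_l42069 _)
             (CovZ.leaf K2_ok TB_l42070 _)))))))
       (CovZ.n1 (-19776, 32448) (by decide +kernel)
        (CovZ.n2 (-19968, 32448) (by decide +kernel)
         (CovZ.leaf K2_ok TB_l20789 _)
         (CovZ.n1 (-19872, 32352) (by decide +kernel)
          (CovZ.leaf K2_ok TB_l20790 _)
          (CovZ.leaf K2_ok TB_l20791 _)))
        (CovZ.n1 (-19776, 32640) (by decide +kernel)
         (CovZ.subM 36028797018963968 (by decide +kernel)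
          (CovZ.n2 (-19680, 32544) (by decide +kernel)
           (CovZ.leaf K2_ok TB_l20792 _)
           (CovZ.n1 (-19680, 32640) (by decide +kernel)
            (CovZ.n2 (-19632, 32592) (by decide +kernel)
             (CovZ.leaf K2_ok TB_l20793 _)
             (CovZ.leaf K2_ok TB_l20794 _))
            (CovZ.leaf K2_ok TB_l20795 _))))
         (CovZ.n1 (-19872, 32544) (by decide +kernel)
          (CovZ.n2 (-19872, 32640) (by decide +kernel)
           (CovZ.leaf K2_ok TB_l20796 _)
           (CovZ.leaf K2_ok TB_l20797 _))
          (CovZ.leaf K2_ok TB_l20798 _)))))
      (CovZ.n1 (-19584, 33024) (by decide +kernel)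
       (CovZ.subM 36028797018963968 (by decide +kernel)
        (CovZ.n2 (-19392, 32832) (by decide +kernel)
         (CovZ.n2 (-19584, 32832) (by decide +kernel)
          (CovZ.badM (by decide +kernel))
          (CovZ.n1 (-19488, 32736) (by decide +kernel)
           (CovZ.n2 (-19584, 32736) (by decide +kernel)
            (CovZ.badM (by decide +kernel))
            (CovZ.n1 (-19536, 32688) (by decide +kernel)
             (CovZ.n2 (-19584, 32688) (by decide +kernel)
              (CovZ.leaf K2_ok TB_l20806 _)
              (CovZ.leaf K2_ok TB_l20807 _))
             (CovZ.n1 (-19536, 32736) (by decide +kernel)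
              (CovZ.n2 (-19512, 32712) (by decide +kernel)
               (CovZ.leaf K2_ok TB_l20808 _)
               (CovZ.badM (by decide +kernel)))
              (CovZ.n1 (-19560, 32712) (by decide +kernel)
               (CovZ.badM (by decide +kernel))
               (CovZ.leaf K2_ok TB_l20812 _)))))
           (CovZ.badM (by decide +kernel))))
         (CovZ.badM (by decide +kernel))))
       (CovZ.n1 (-19776, 32832) (by decide +kernel)
        (CovZ.subM 91343852333181432387730302044767688729573720064 (by decide +kernel)
         (CovZ.n2 (-19776, 33024) (by decide +kernel)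
          (CovZ.badM (by decide +kernel))
          (CovZ.n1 (-19872, 32928) (by decide +kernel)
           (CovZ.n2 (-19872, 33024) (by decide +kernel)
            (CovZ.badM (by decide +kernel))
            (CovZ.n1 (-19920, 32976) (by decide +kernel)
             (CovZ.badM (by decide +kernel))
             (CovZ.badM (by decide +kernel))))
           (CovZ.badM (by decide +kernel)))))
        (CovZ.subM 36028797018963968 (by decide +kernel)
         (CovZ.n1 (-19584, 32832) (by decide +kernel)
          (CovZ.n2 (-19680, 32736) (by decide +kernel)
           (CovZ.n2 (-19680, 32832) (by decide +kernel)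
            (CovZ.n2 (-19632, 32784) (by decide +kernel)
             (CovZ.n2 (-19680, 32784) (by decide +kernel)
              (CovZ.badM (by decide +kernel))
              (CovZ.n1 (-19656, 32760) (by decide +kernel)
               (CovZ.leaf K2_ok TB_l20815 _)
               (CovZ.badM (by decide +kernel))))
             (CovZ.badM (by decide +kernel)))
            (CovZ.n1 (-19728, 32784) (by decide +kernel)
             (CovZ.badM (by decide +kernel))
             (CovZ.n1 (-19680, 32784) (by decide +kernel)
              (CovZ.n2 (-19704, 32760) (by decide +kernel)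
               (CovZ.leaf K2_ok TB_l20819 _)
               (CovZ.leaf K2_ok TB_l20820 _))
              (CovZ.badM (by decide +kernel)))))
           (CovZ.n1 (-19584, 32736) (by decide +kernel)
            (CovZ.n2 (-19632, 32688) (by decide +kernel)
             (CovZ.n2 (-19632, 32736) (by decide +kernel)
              (CovZ.n2 (-19608, 32712) (by decide +kernel)
               (CovZ.leaf K2_ok TB_l20823 _)
               (CovZ.leaf K2_ok TB_l20824 _))
              (CovZ.leaf K2_ok TB_l20825 _))
             (CovZ.n1 (-19584, 32688) (by decide +kernel)
              (CovZ.leaf K2_ok TB_l20826 _)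
              (CovZ.leaf K2_ok TB_l20827 _)))
            (CovZ.n1 (-19632, 32784) (by decide +kernel)
             (CovZ.badM (by decide +kernel))
             (CovZ.leaf K2_ok TB_l20831 _))))
          (CovZ.badM (by decide +kernel))))))))
    (CovZ.n1 (-19200, 33792) (by decide +kernel)
     (CovZ.badM (by decide +kernel))
     (CovZ.n1 (-19584, 33408) (by decide +kernel)
      (CovZ.badM (by decide +kernel))
      (CovZ.badM (by decide +kernel))))))

theorem TB_s9_24 : SqZ TB_M TB_L [0, 7, 6, 1] (-32256) (-4608) 1536 9 24 :=
  SqZ.mk (a := (-18432)) (b := (-16896)) (c := 32256) (d := 33792) (by norm_num) (by norm_num) (by norm_num) (by norm_num)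
    (CovZ.topM TB_LL 293567857842740750014375864558702762303902164264250878129810354253855830698574042777719651284979454612340736 (by decide +kernel) (CovZ.n2 (-17664, 33024) (by decide +kernel)
    (CovZ.badM (by decide +kernel))
    (CovZ.n1 (-17664, 32256) (by decide +kernel)
     (CovZ.n2 (-18048, 32640) (by decide +kernel)
      (CovZ.badM (by decide +kernel))
      (CovZ.n1 (-18048, 32256) (by decide +kernel)
       (CovZ.n2 (-18240, 32448) (by decide +kernel)
        (CovZ.badM (by decide +kernel))
        (CovZ.n1 (-18240, 32256) (by decide +kernel)
         (CovZ.n2 (-18336, 32352) (by decide +kernel)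
          (CovZ.badM (by decide +kernel))
          (CovZ.n1 (-18336, 32256) (by decide +kernel)
           (CovZ.n2 (-18384, 32304) (by decide +kernel)
            (CovZ.badM (by decide +kernel))
            (CovZ.leaf K2_ok TB_l23941 _))
           (CovZ.badM (by decide +kernel))))
         (CovZ.badM (by decide +kernel))))
       (CovZ.badM (by decide +kernel))))
     (CovZ.badM (by decide +kernel)))))
    (CovZ.topM TB_LL 293567857842740750014375864558702762303902164264250878129810354253855830698574042777719651284979454612340736 (by decide +kernel) (CovZ.n0 (-17664, 33024) (by decide +kernel)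
    (CovZ.n2 (-18432, 33024) (by decide +kernel)
     (CovZ.badM (by decide +kernel))
     (CovZ.n1 (-18048, 32640) (by decide +kernel)
      (CovZ.n2 (-18432, 32640) (by decide +kernel)
       (CovZ.badM (by decide +kernel))
       (CovZ.n1 (-18240, 32448) (by decide +kernel)
        (CovZ.n2 (-18432, 32448) (by decide +kernel)
         (CovZ.badM (by decide +kernel))
         (CovZ.n1 (-18336, 32352) (by decide +kernel)
          (CovZ.n2 (-18432, 32352) (by decide +kernel)
           (CovZ.n2 (-18384, 32400) (by decide +kernel)
            (CovZ.n2 (-18384, 32352) (by decide +kernel)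
             (CovZ.n2 (-18408, 32376) (by decide +kernel)
              (CovZ.badM (by decide +kernel))
              (CovZ.leaf K2_ok TB_l42424 _))
             (CovZ.badM (by decide +kernel)))
            (CovZ.n1 (-18432, 32400) (by decide +kernel)
             (CovZ.badM (by decide +kernel))
             (CovZ.n1 (-18408, 32376) (by decide +kernel)
              (CovZ.leaf K2_ok TB_l42425 _)
              (CovZ.n1 (-18408, 32400) (by decide +kernel)
               (CovZ.badM (by decide +kernel))
               (CovZ.leaf K2_ok TB_l42426 _)))))
           (CovZ.n1 (-18384, 32304) (by decide +kernel)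
            (CovZ.n2 (-18432, 32304) (by decide +kernel)
             (CovZ.leaf K2_ok TB_l23945 _)
             (CovZ.leaf K2_ok TB_l23946 _))
            (CovZ.n1 (-18384, 32352) (by decide +kernel)
             (CovZ.badM (by decide +kernel))
             (CovZ.n1 (-18408, 32328) (by decide +kernel)
              (CovZ.leaf K2_ok TB_l42427 _)
              (CovZ.badM (by decide +kernel))))))
          (CovZ.n1 (-18336, 32448) (by decide +kernel)
           (CovZ.badM (by decide +kernel))
           (CovZ.n1 (-18384, 32400) (by decide +kernel)
            (CovZ.badM (by decide +kernel))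
            (CovZ.badM (by decide +kernel))))))
        (CovZ.badM (by decide +kernel))))
      (CovZ.badM (by decide +kernel))))
    (CovZ.badM (by decide +kernel))))

theorem TB_s10_24 : SqZ TB_M TB_L [0, 7, 6, 1] (-32256) (-4608) 1536 10 24 :=
  SqZ.mk (a := (-16896)) (b := (-15360)) (c := 32256) (d := 33792) (by norm_num) (by norm_num) (by norm_num) (by norm_num)
    (CovZ.topM TB_LL 2404907604760405225358828131112281116032698930082119547604265954848982041717359046106827774346003151904701415424 (by decide +kernel) (CovZ.n2 (-16128, 33024) (by decide +kernel)
    (CovZ.badM (by decide +kernel))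
    (CovZ.n1 (-16128, 32256) (by decide +kernel)
     (CovZ.n2 (-16512, 32640) (by decide +kernel)
      (CovZ.badM (by decide +kernel))
      (CovZ.n1 (-16512, 32256) (by decide +kernel)
       (CovZ.badM (by decide +kernel))
       (CovZ.badM (by decide +kernel))))
     (CovZ.badM (by decide +kernel)))))
    (CovZ.topM TB_LL 0 (by decide +kernel) (CovZ.badM (by decide +kernel)))

theorem TB_s11_24 : SqZ TB_M TB_L [0, 7, 6, 1] (-32256) (-4608) 1536 11 24 :=
  SqZ.mk (a := (-15360)) (b := (-13824)) (c := 32256) (d := 33792) (by norm_num) (by norm_num) (by norm_num) (by norm_num)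
    (CovZ.topM TB_LL 0 (by decide +kernel) (CovZ.badM (by decide +kernel)))
    (CovZ.topM TB_LL 0 (by decide +kernel) (CovZ.badM (by decide +kernel)))

theorem TB_s12_24 : SqZ TB_M TB_L [0, 7, 6, 1] (-32256) (-4608) 1536 12 24 :=
  SqZ.mk (a := (-13824)) (b := (-12288)) (c := 32256) (d := 33792) (by norm_num) (by norm_num) (by norm_num) (by norm_num)
    (CovZ.topM TB_LL 0 (by decide +kernel) (CovZ.badM (by decide +kernel)))
    (CovZ.topM TB_LL 0 (by decide +kernel) (CovZ.badM (by decide +kernel)))

theorem TB_s0_25 : SqZ TB_M TB_L [0, 7, 6, 1] (-32256) (-4608) 1536 0 25 :=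
  SqZ.mk (a := (-32256)) (b := (-30720)) (c := 33792) (d := 35328) (by norm_num) (by norm_num) (by norm_num) (by norm_num)
    (CovZ.topM TB_LL 2353129859973906143154175441529284225823720636258563057311064562201646888730119284886260675824942078871207936 (by decide +kernel) (CovZ.leaf K2_ok TB_l1861 _))
    (CovZ.topM TB_LL 2353129859973906143154175441529284225823720636258563057311064562201646888730119284886260675824942078871207936 (by decide +kernel) (CovZ.leaf K2_ok TB_l1862 _))

theorem TB_s1_25 : SqZ TB_M TB_L [0, 7, 6, 1] (-32256) (-4608) 1536 1 25 :=
  SqZ.mk (a := (-30720)) (b := (-29184)) (c := 33792) (d := 35328) (by norm_num) (by norm_num) (by norm_num) (by norm_num)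
    (CovZ.topM TB_LL 5043456795491623199145623275972558008579490852443297809755944613054516948958865054560048546623859907511181296595369984 (by decide +kernel) (CovZ.n2 (-29952, 34560) (by decide +kernel)
    (CovZ.n2 (-29184, 34560) (by decide +kernel)
     (CovZ.leaf K2_ok TB_l5005 _)
     (CovZ.leaf K2_ok TB_l5006 _))
    (CovZ.leaf K2_ok TB_l5007 _)))
    (CovZ.topM TB_LL 5043456795491623199145623275972558008579490852443297809755944613054516948958865054558750472409226200604048672513064960 (by decide +kernel) (CovZ.n0 (-29952, 34560) (by decide +kernel)
    (CovZ.leaf K2_ok TB_l5008 _)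
    (CovZ.n1 (-29952, 35328) (by decide +kernel)
     (CovZ.n2 (-29568, 34944) (by decide +kernel)
      (CovZ.leaf K2_ok TB_l5009 _)
      (CovZ.leaf K2_ok TB_l5010 _))
     (CovZ.leaf K2_ok TB_l5011 _))))

theorem TB_s2_25 : SqZ TB_M TB_L [0, 7, 6, 1] (-32256) (-4608) 1536 2 25 :=
  SqZ.mk (a := (-29184)) (b := (-27648)) (c := 33792) (d := 35328) (by norm_num) (by norm_num) (by norm_num) (by norm_num)
    (CovZ.topM TB_LL 5043456793138493339171717132834328964652041523698219635926264656343733324316518645163976051077084924416754786808102912 (by decide +kernel) (CovZ.n2 (-28416, 34560) (by decide +kernel)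
    (CovZ.n2 (-27648, 34560) (by decide +kernel)
     (CovZ.leaf K2_ok TB_l8297 _)
     (CovZ.leaf K2_ok TB_l8298 _))
    (CovZ.leaf K2_ok TB_l8299 _)))
    (CovZ.topM TB_LL 5043456793138493339171717132834328964652041523698219635926264656343733324316518645163976051077084924416754786808102912 (by decide +kernel) (CovZ.n0 (-28416, 34560) (by decide +kernel)
    (CovZ.n2 (-29184, 34560) (by decide +kernel)
     (CovZ.leaf K2_ok TB_l8300 _)
     (CovZ.leaf K2_ok TB_l8301 _))
    (CovZ.n1 (-28416, 35328) (by decide +kernel)
     (CovZ.n2 (-28032, 34944) (by decide +kernel)
      (CovZ.leaf K2_ok TB_l8302 _)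
      (CovZ.n1 (-28032, 35328) (by decide +kernel)
       (CovZ.leaf K2_ok TB_l8303 _)
       (CovZ.leaf K2_ok TB_l8304 _)))
     (CovZ.n1 (-28800, 34944) (by decide +kernel)
      (CovZ.leaf K2_ok TB_l8305 _)
      (CovZ.leaf K2_ok TB_l8306 _)))))

theorem TB_s3_25 : SqZ TB_M TB_L [0, 7, 6, 1] (-32256) (-4608) 1536 3 25 :=
  SqZ.mk (a := (-27648)) (b := (-26112)) (c := 33792) (d := 35328) (by norm_num) (by norm_num) (by norm_num) (by norm_num)
    (CovZ.topM TB_LL 5043456793138493409163740325890678490535391066932433103450078022585876401530115996398962571529070148172380972668682240 (by decide +kernel) (CovZ.n2 (-26880, 34560) (by decide +kernel)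
    (CovZ.n2 (-26112, 34560) (by decide +kernel)
     (CovZ.n2 (-26496, 34176) (by decide +kernel)
      (CovZ.n2 (-26496, 34560) (by decide +kernel)
       (CovZ.leaf K2_ok TB_l11633 _)
       (CovZ.leaf K2_ok TB_l11634 _))
      (CovZ.n1 (-26112, 34176) (by decide +kernel)
       (CovZ.leaf K2_ok TB_l11635 _)
       (CovZ.leaf K2_ok TB_l11636 _)))
     (CovZ.subM 69992023193072295923485184440312855923370678237557599846069393321796201921052417412001858824742109184 (by decide +kernel)
      (CovZ.n1 (-26496, 34944) (by decide +kernel)
       (CovZ.n2 (-26112, 34944) (by decide +kernel)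
        (CovZ.n2 (-26304, 34752) (by decide +kernel)
         (CovZ.leaf K2_ok TB_l11637 _)
         (CovZ.leaf K2_ok TB_l11638 _))
        (CovZ.n1 (-26304, 35136) (by decide +kernel)
         (CovZ.n2 (-26112, 35136) (by decide +kernel)
          (CovZ.leaf K2_ok TB_l11639 _)
          (CovZ.leaf K2_ok TB_l11640 _))
         (CovZ.leaf K2_ok TB_l11641 _)))
       (CovZ.leaf K2_ok TB_l11642 _))))
    (CovZ.leaf K2_ok TB_l11643 _)))
    (CovZ.topM TB_LL 5043456793138493409163740325890678490535391066932433103450078022585876401530115996398962571529070148172380972668682240 (by decide +kernel) (CovZ.n0 (-26880, 34560) (by decide +kernel)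
    (CovZ.n2 (-27648, 34560) (by decide +kernel)
     (CovZ.leaf K2_ok TB_l11644 _)
     (CovZ.n1 (-27264, 34176) (by decide +kernel)
      (CovZ.leaf K2_ok TB_l11645 _)
      (CovZ.leaf K2_ok TB_l11646 _)))
    (CovZ.n1 (-26880, 35328) (by decide +kernel)
     (CovZ.subM 69992023193072295923485184440312855923370678237557599846069393321796201921052417412001858824742109184 (by decide +kernel)
      (CovZ.n2 (-26496, 34944) (by decide +kernel)
       (CovZ.n2 (-26880, 34944) (by decide +kernel)
        (CovZ.leaf K2_ok TB_l11647 _)
        (CovZ.leaf K2_ok TB_l11648 _))
       (CovZ.n1 (-26496, 35328) (by decide +kernel)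
        (CovZ.n2 (-26304, 35136) (by decide +kernel)
         (CovZ.leaf K2_ok TB_l11649 _)
         (CovZ.n1 (-26304, 35328) (by decide +kernel)
          (CovZ.n2 (-26208, 35232) (by decide +kernel)
           (CovZ.leaf K2_ok TB_l11650 _)
           (CovZ.leaf K2_ok TB_l11651 _))
          (CovZ.leaf K2_ok TB_l11652 _)))
        (CovZ.n1 (-26688, 35136) (by decide +kernel)
         (CovZ.n2 (-26688, 35328) (by decide +kernel)
          (CovZ.leaf K2_ok TB_l11653 _)
          (CovZ.leaf K2_ok TB_l11654 _))
         (CovZ.leaf K2_ok TB_l11655 _)))))
     (CovZ.n1 (-27264, 34944) (by decide +kernel)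
      (CovZ.n2 (-27264, 35328) (by decide +kernel)
       (CovZ.n2 (-27072, 35136) (by decide +kernel)
        (CovZ.leaf K2_ok TB_l11656 _)
        (CovZ.leaf K2_ok TB_l11657 _))
       (CovZ.leaf K2_ok TB_l11658 _))
      (CovZ.n1 (-26880, 34944) (by decide +kernel)
       (CovZ.leaf K2_ok TB_l11659 _)
       (CovZ.leaf K2_ok TB_l11660 _))))))

theorem TB_s4_25 : SqZ TB_M TB_L [0, 7, 6, 1] (-32256) (-4608) 1536 4 25 :=
  SqZ.mk (a := (-26112)) (b := (-24576)) (c := 33792) (d := 35328) (by norm_num) (by norm_num) (by norm_num) (by norm_num)
    (CovZ.topM TB_LL 631663411835949064863871554677723232297869010492505115240513307486270228810036585932653756757027541241232238334705664 (by decide +kernel) (CovZ.n2 (-25344, 34560) (by decide +kernel)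
    (CovZ.n2 (-24576, 34560) (by decide +kernel)
     (CovZ.n2 (-24960, 34176) (by decide +kernel)
      (CovZ.n2 (-24960, 34560) (by decide +kernel)
       (CovZ.subM 631663411835949064863871554661808888732755837943532883299811902052187935784068969368294887761282517691956575150014464 (by decide +kernel)
        (CovZ.n2 (-24768, 34368) (by decide +kernel)
         (CovZ.n2 (-24960, 34368) (by decide +kernel)
          (CovZ.leaf K2_ok TB_l13864 _)
          (CovZ.n1 (-24864, 34272) (by decide +kernel)
           (CovZ.leaf K2_ok TB_l13865 _)
           (CovZ.leaf K2_ok TB_l13866 _)))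
         (CovZ.subM 631663411835948994871848361605427308812684570179649191895546078636814592524723990339964506819831982937436168952741888 (by decide +kernel)
          (CovZ.n1 (-24768, 34560) (by decide +kernel)
           (CovZ.n2 (-24672, 34464) (by decide +kernel)
            (CovZ.n2 (-24768, 34464) (by decide +kernel)
             (CovZ.leaf K2_ok TB_l13867 _)
             (CovZ.leaf K2_ok TB_l13868 _))
            (CovZ.n1 (-24672, 34560) (by decide +kernel)
             (CovZ.n2 (-24624, 34512) (by decide +kernel)
              (CovZ.badM (by decide +kernel))
              (CovZ.n1 (-24624, 34560) (by decide +kernel)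
               (CovZ.n2 (-24600, 34536) (by decide +kernel)
                (CovZ.badM (by decide +kernel))
                (CovZ.leaf K2_ok TB_l13871 _))
               (CovZ.badM (by decide +kernel))))
             (CovZ.badM (by decide +kernel))))
           (CovZ.n1 (-24864, 34464) (by decide +kernel)
            (CovZ.n2 (-24864, 34560) (by decide +kernel)
             (CovZ.leaf K2_ok TB_l13875 _)
             (CovZ.leaf K2_ok TB_l13876 _))
            (CovZ.n1 (-24768, 34464) (by decide +kernel)
             (CovZ.leaf K2_ok TB_l13877 _)
             (CovZ.leaf K2_ok TB_l13878 _)))))))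
       (CovZ.subM 69992023193056381579920071267763883691404265823415373711489249697165979693979230652724265592945901568 (by decide +kernel)
        (CovZ.n1 (-25152, 34368) (by decide +kernel)
         (CovZ.n2 (-25152, 34560) (by decide +kernel)
          (CovZ.n2 (-25056, 34464) (by decide +kernel)
           (CovZ.leaf K2_ok TB_l13879 _)
           (CovZ.leaf K2_ok TB_l13880 _))
          (CovZ.leaf K2_ok TB_l13881 _))
         (CovZ.n1 (-24960, 34368) (by decide +kernel)
          (CovZ.leaf K2_ok TB_l13882 _)
          (CovZ.leaf K2_ok TB_l13883 _)))))
      (CovZ.n1 (-24576, 34176) (by decide +kernel)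
       (CovZ.n2 (-24768, 33984) (by decide +kernel)
        (CovZ.n2 (-24768, 34176) (by decide +kernel)
         (CovZ.n2 (-24672, 34080) (by decide +kernel)
          (CovZ.leaf K2_ok TB_l13884 _)
          (CovZ.leaf K2_ok TB_l13885 _))
         (CovZ.leaf K2_ok TB_l13886 _))
        (CovZ.n1 (-24576, 33984) (by decide +kernel)
         (CovZ.leaf K2_ok TB_l13887 _)
         (CovZ.leaf K2_ok TB_l13888 _)))
       (CovZ.subM 631663411835949064863871554661808888732755837943532883299811902052187935784068969368294887761282517691956575150014464 (by decide +kernel)
        (CovZ.n1 (-24768, 34368) (by decide +kernel)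
         (CovZ.n2 (-24576, 34368) (by decide +kernel)
          (CovZ.n2 (-24672, 34272) (by decide +kernel)
           (CovZ.n2 (-24672, 34368) (by decide +kernel)
            (CovZ.leaf K2_ok TB_l13889 _)
            (CovZ.leaf K2_ok TB_l13890 _))
           (CovZ.n1 (-24576, 34272) (by decide +kernel)
            (CovZ.leaf K2_ok TB_l13891 _)
            (CovZ.leaf K2_ok TB_l13892 _)))
          (CovZ.subM 631663411835948994871848361605427308812684570179649191895546078636814592524723990339964506819831982937436168952741888 (by decide +kernel)
           (CovZ.n1 (-24672, 34464) (by decide +kernel)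
            (CovZ.n2 (-24576, 34464) (by decide +kernel)
             (CovZ.n2 (-24624, 34416) (by decide +kernel)
              (CovZ.leaf K2_ok TB_l13893 _)
              (CovZ.leaf K2_ok TB_l13894 _))
             (CovZ.n1 (-24624, 34512) (by decide +kernel)
              (CovZ.n2 (-24576, 34512) (by decide +kernel)
               (CovZ.leaf K2_ok TB_l13895 _)
               (CovZ.leaf K2_ok TB_l13896 _))
              (CovZ.leaf K2_ok TB_l13897 _)))
            (CovZ.leaf K2_ok TB_l13898 _))))
         (CovZ.leaf K2_ok TB_l13899 _)))))
     (CovZ.subM 631663411835949064863871554661808888732755837943532883196967867219612561003878780870380243316433464988848106456219648 (by decide +kernel)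
      (CovZ.n1 (-24960, 34944) (by decide +kernel)
       (CovZ.badM (by decide +kernel))
       (CovZ.n1 (-24960, 34560) (by decide +kernel)
        (CovZ.n2 (-25152, 34752) (by decide +kernel)
         (CovZ.subM 365375409332725729550921208179070754913983135744 (by decide +kernel)
          (CovZ.n2 (-24960, 34752) (by decide +kernel)
           (CovZ.n2 (-25056, 34656) (by decide +kernel)
            (CovZ.badM (by decide +kernel))
            (CovZ.n1 (-24960, 34656) (by decide +kernel)
             (CovZ.leaf K2_ok TB_l13903 _)
             (CovZ.badM (by decide +kernel))))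
           (CovZ.badM (by decide +kernel))))
         (CovZ.leaf K2_ok TB_l13910 _))
        (CovZ.subM 631663411835948994871848361605427308812684570179649191895546078636814592524723990339964506819831982937436168952741888 (by decide +kernel)
         (CovZ.n1 (-24768, 34752) (by decide +kernel)
          (CovZ.n2 (-24768, 34560) (by decide +kernel)
           (CovZ.n2 (-24864, 34656) (by decide +kernel)
            (CovZ.badM (by decide +kernel))
            (CovZ.leaf K2_ok TB_l13917 _))
           (CovZ.n1 (-24672, 34656) (by decide +kernel)
            (CovZ.n2 (-24672, 34560) (by decide +kernel)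
             (CovZ.badM (by decide +kernel))
             (CovZ.n1 (-24624, 34608) (by decide +kernel)
              (CovZ.leaf K2_ok TB_l13921 _)
              (CovZ.badM (by decide +kernel))))
            (CovZ.badM (by decide +kernel))))
          (CovZ.n1 (-24960, 34752) (by decide +kernel)
           (CovZ.badM (by decide +kernel))
           (CovZ.n1 (-24864, 34656) (by decide +kernel)
            (CovZ.n2 (-24960, 34656) (by decide +kernel)
             (CovZ.badM (by decide +kernel))
             (CovZ.n1 (-24912, 34608) (by decide +kernel)
              (CovZ.leaf K2_ok TB_l13933 _)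
              (CovZ.badM (by decide +kernel))))
            (CovZ.badM (by decide +kernel))))))))))
    (CovZ.n1 (-25344, 33792) (by decide +kernel)
     (CovZ.n2 (-25728, 34176) (by decide +kernel)
      (CovZ.subM 69992023193056381579920071267763883691404265823415373711494824883465612349764614582292427683322396672 (by decide +kernel)
       (CovZ.n2 (-25344, 34176) (by decide +kernel)
        (CovZ.n2 (-25536, 33984) (by decide +kernel)
         (CovZ.leaf K2_ok TB_l13941 _)
         (CovZ.leaf K2_ok TB_l13942 _))
        (CovZ.n1 (-25536, 34368) (by decide +kernel)
         (CovZ.leaf K2_ok TB_l13943 _)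
         (CovZ.leaf K2_ok TB_l13944 _))))
      (CovZ.leaf K2_ok TB_l13945 _))
     (CovZ.n1 (-24960, 34176) (by decide +kernel)
      (CovZ.leaf K2_ok TB_l13946 _)
      (CovZ.subM 69992023193056381579920071267763883691404265823415373711494824883465612349764614582292427683322396672 (by decide +kernel)
       (CovZ.n1 (-25344, 34176) (by decide +kernel)
        (CovZ.n2 (-25152, 34368) (by decide +kernel)
         (CovZ.leaf K2_ok TB_l13947 _)
         (CovZ.n1 (-25344, 34368) (by decide +kernel)
          (CovZ.leaf K2_ok TB_l13948 _)
          (CovZ.leaf K2_ok TB_l13949 _)))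
        (CovZ.n1 (-25152, 33984) (by decide +kernel)
         (CovZ.leaf K2_ok TB_l13950 _)
         (CovZ.n1 (-25152, 34176) (by decide +kernel)
          (CovZ.leaf K2_ok TB_l13951 _)
          (CovZ.leaf K2_ok TB_l13952 _)))))))))
    (CovZ.topM TB_LL 631663411835949064863871554677723232297869010492505115240513307486270228810036585932653756757027541241232238334705664 (by decide +kernel) (CovZ.n0 (-25344, 34560) (by decide +kernel)
    (CovZ.n2 (-26112, 34560) (by decide +kernel)
     (CovZ.n2 (-25728, 34944) (by decide +kernel)
      (CovZ.n2 (-25728, 34560) (by decide +kernel)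
       (CovZ.n2 (-25920, 34752) (by decide +kernel)
        (CovZ.n2 (-25728, 34752) (by decide +kernel)
         (CovZ.leaf K2_ok TB_l13953 _)
         (CovZ.leaf K2_ok TB_l13954 _))
        (CovZ.leaf K2_ok TB_l13955 _))
       (CovZ.n1 (-25536, 34752) (by decide +kernel)
        (CovZ.leaf K2_ok TB_l13956 _)
        (CovZ.n1 (-25728, 34752) (by decide +kernel)
         (CovZ.leaf K2_ok TB_l13957 _)
         (CovZ.leaf K2_ok TB_l13958 _))))
      (CovZ.n1 (-26112, 34944) (by decide +kernel)
       (CovZ.n2 (-25920, 35136) (by decide +kernel)
        (CovZ.leaf K2_ok TB_l13959 _)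
        (CovZ.n1 (-26112, 35136) (by decide +kernel)
         (CovZ.leaf K2_ok TB_l13960 _)
         (CovZ.leaf K2_ok TB_l13961 _)))
       (CovZ.n1 (-25920, 34752) (by decide +kernel)
        (CovZ.leaf K2_ok TB_l13962 _)
        (CovZ.n1 (-25920, 34944) (by decide +kernel)
         (CovZ.leaf K2_ok TB_l13963 _)
         (CovZ.leaf K2_ok TB_l13964 _)))))
     (CovZ.n1 (-25728, 34176) (by decide +kernel)
      (CovZ.n2 (-26112, 34176) (by decide +kernel)
       (CovZ.leaf K2_ok TB_l13965 _)
       (CovZ.leaf K2_ok TB_l13966 _))
      (CovZ.n1 (-25728, 34560) (by decide +kernel)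
       (CovZ.n2 (-25536, 34368) (by decide +kernel)
        (CovZ.leaf K2_ok TB_l13967 _)
        (CovZ.n1 (-25536, 34560) (by decide +kernel)
         (CovZ.leaf K2_ok TB_l13968 _)
         (CovZ.leaf K2_ok TB_l13969 _)))
       (CovZ.n1 (-25920, 34368) (by decide +kernel)
        (CovZ.leaf K2_ok TB_l13970 _)
        (CovZ.leaf K2_ok TB_l13971 _)))))
    (CovZ.n1 (-25344, 35328) (by decide +kernel)
     (CovZ.subM 631663411835949064863871554661808888732755837943532883196967867219612561003878780870380243316433464988848106456219648 (by decide +kernel)
      (CovZ.n2 (-24960, 34944) (by decide +kernel)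
       (CovZ.n2 (-25344, 34944) (by decide +kernel)
        (CovZ.subM 2854495385411919762116571938898990272765493248 (by decide +kernel)
         (CovZ.n2 (-25152, 35136) (by decide +kernel)
          (CovZ.n2 (-25152, 34944) (by decide +kernel)
           (CovZ.n2 (-25248, 35040) (by decide +kernel)
            (CovZ.badM (by decide +kernel))
            (CovZ.leaf K2_ok TB_l13972 _))
           (CovZ.badM (by decide +kernel)))
          (CovZ.n1 (-25344, 35136) (by decide +kernel)
           (CovZ.badM (by decide +kernel))
           (CovZ.n1 (-25248, 35040) (by decide +kernel)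
            (CovZ.n2 (-25344, 35040) (by decide +kernel)
             (CovZ.badM (by decide +kernel))
             (CovZ.n1 (-25296, 34992) (by decide +kernel)
              (CovZ.leaf K2_ok TB_l13973 _)
              (CovZ.badM (by decide +kernel))))
            (CovZ.badM (by decide +kernel))))))
        (CovZ.n1 (-25152, 34752) (by decide +kernel)
         (CovZ.n2 (-25344, 34752) (by decide +kernel)
          (CovZ.n2 (-25248, 34848) (by decide +kernel)
           (CovZ.leaf K2_ok TB_l13975 _)
           (CovZ.leaf K2_ok TB_l13976 _))
          (CovZ.n1 (-25248, 34656) (by decide +kernel)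
           (CovZ.leaf K2_ok TB_l13977 _)
           (CovZ.n1 (-25248, 34752) (by decide +kernel)
            (CovZ.leaf K2_ok TB_l13978 _)
            (CovZ.leaf K2_ok TB_l13979 _))))
         (CovZ.subM 2854495385411919762116571938898990272765493248 (by decide +kernel)
          (CovZ.n1 (-25152, 34944) (by decide +kernel)
           (CovZ.badM (by decide +kernel))
           (CovZ.n1 (-25248, 34848) (by decide +kernel)
            (CovZ.n2 (-25248, 34944) (by decide +kernel)
             (CovZ.badM (by decide +kernel))
             (CovZ.leaf K2_ok TB_l13987 _))
            (CovZ.badM (by decide +kernel)))))))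
       (CovZ.badM (by decide +kernel))))
     (CovZ.subM 69992023193072295923485184440312855923242123194016880624020461168108951738511598816204290151520927744 (by decide +kernel)
      (CovZ.n1 (-25728, 34944) (by decide +kernel)
       (CovZ.n2 (-25728, 35328) (by decide +kernel)
        (CovZ.subM 368229904718137649313037780117969745186748891136 (by decide +kernel)
         (CovZ.n2 (-25536, 35136) (by decide +kernel)
          (CovZ.n2 (-25728, 35136) (by decide +kernel)
           (CovZ.n2 (-25632, 35232) (by decide +kernel)
            (CovZ.leaf K2_ok TB_l13990 _)
            (CovZ.n1 (-25728, 35232) (by decide +kernel)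
             (CovZ.badM (by decide +kernel))
             (CovZ.leaf K2_ok TB_l13992 _)))
           (CovZ.n1 (-25632, 35040) (by decide +kernel)
            (CovZ.leaf K2_ok TB_l13993 _)
            (CovZ.n1 (-25632, 35136) (by decide +kernel)
             (CovZ.leaf K2_ok TB_l13994 _)
             (CovZ.leaf K2_ok TB_l13995 _))))
          (CovZ.badM (by decide +kernel))))
        (CovZ.n1 (-25920, 35136) (by decide +kernel)
         (CovZ.subM 15914343565113172548972231940698266883214965055419845095744160298361221874146254765686784 (by decide +kernel)
          (CovZ.n2 (-25920, 35328) (by decide +kernel)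
           (CovZ.n2 (-25824, 35232) (by decide +kernel)
            (CovZ.leaf K2_ok TB_l13998 _)
            (CovZ.n1 (-25824, 35328) (by decide +kernel)
             (CovZ.n2 (-25776, 35280) (by decide +kernel)
              (CovZ.leaf K2_ok TB_l13999 _)
              (CovZ.badM (by decide +kernel)))
             (CovZ.leaf K2_ok TB_l14001 _)))
           (CovZ.n1 (-26016, 35232) (by decide +kernel)
            (CovZ.n2 (-26016, 35328) (by decide +kernel)
             (CovZ.leaf K2_ok TB_l14002 _)
             (CovZ.leaf K2_ok TB_l14003 _))
            (CovZ.leaf K2_ok TB_l14004 _))))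
         (CovZ.subM 368229904718137649313037780117969745186748891136 (by decide +kernel)
          (CovZ.n1 (-25728, 35136) (by decide +kernel)
           (CovZ.n2 (-25824, 35040) (by decide +kernel)
            (CovZ.leaf K2_ok TB_l14005 _)
            (CovZ.leaf K2_ok TB_l14006 _))
           (CovZ.n1 (-25824, 35232) (by decide +kernel)
            (CovZ.n2 (-25728, 35232) (by decide +kernel)
             (CovZ.leaf K2_ok TB_l14007 _)
             (CovZ.leaf K2_ok TB_l14008 _))
            (CovZ.leaf K2_ok TB_l14009 _))))))
       (CovZ.n1 (-25344, 34944) (by decide +kernel)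
        (CovZ.n2 (-25536, 34752) (by decide +kernel)
         (CovZ.subM 368229904718137649313037780117969745186748891136 (by decide +kernel)
          (CovZ.n2 (-25536, 34944) (by decide +kernel)
           (CovZ.n2 (-25440, 34848) (by decide +kernel)
            (CovZ.leaf K2_ok TB_l14010 _)
            (CovZ.n1 (-25440, 34944) (by decide +kernel)
             (CovZ.leaf K2_ok TB_l14011 _)
             (CovZ.leaf K2_ok TB_l14012 _)))
           (CovZ.n1 (-25632, 34848) (by decide +kernel)
            (CovZ.leaf K2_ok TB_l14013 _)
            (CovZ.leaf K2_ok TB_l14014 _))))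
         (CovZ.n1 (-25344, 34752) (by decide +kernel)
          (CovZ.n2 (-25440, 34656) (by decide +kernel)
           (CovZ.leaf K2_ok TB_l14015 _)
           (CovZ.leaf K2_ok TB_l14016 _))
          (CovZ.n1 (-25440, 34848) (by decide +kernel)
           (CovZ.leaf K2_ok TB_l14017 _)
           (CovZ.leaf K2_ok TB_l14018 _))))
        (CovZ.subM 368229904718137649313037780117969745186748891136 (by decide +kernel)
         (CovZ.n1 (-25536, 35136) (by decide +kernel)
          (CovZ.n2 (-25344, 35136) (by decide +kernel)
           (CovZ.n2 (-25440, 35040) (by decide +kernel)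
            (CovZ.n2 (-25440, 35136) (by decide +kernel)
             (CovZ.n2 (-25392, 35088) (by decide +kernel)
              (CovZ.leaf K2_ok TB_l14019 _)
              (CovZ.badM (by decide +kernel)))
             (CovZ.n1 (-25488, 35088) (by decide +kernel)
              (CovZ.badM (by decide +kernel))
              (CovZ.leaf K2_ok TB_l14021 _)))
            (CovZ.n1 (-25344, 35040) (by decide +kernel)
             (CovZ.leaf K2_ok TB_l14022 _)
             (CovZ.leaf K2_ok TB_l14023 _)))
           (CovZ.badM (by decide +kernel)))
          (CovZ.n1 (-25536, 34944) (by decide +kernel)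
           (CovZ.n2 (-25632, 35040) (by decide +kernel)
            (CovZ.n2 (-25536, 35040) (by decide +kernel)
             (CovZ.leaf K2_ok TB_l14025 _)
             (CovZ.leaf K2_ok TB_l14026 _))
            (CovZ.leaf K2_ok TB_l14027 _))
           (CovZ.n1 (-25440, 35040) (by decide +kernel)
            (CovZ.leaf K2_ok TB_l14028 _)
            (CovZ.n1 (-25536, 35040) (by decide +kernel)
             (CovZ.leaf K2_ok TB_l14029 _)
             (CovZ.leaf K2_ok TB_l14030 _))))))))))))

theorem TB_s5_25 : SqZ TB_M TB_L [0, 7, 6, 1] (-32256) (-4608) 1536 5 25 :=
  SqZ.mk (a := (-24576)) (b := (-23040)) (c := 33792) (d := 35328) (by norm_num) (by norm_num) (by norm_num) (by norm_num)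
    (CovZ.topM TB_LL 631663411835949069238373004227832737477760292178775614006150763838612808641185368487833541945418293707145020663136256 (by decide +kernel) (CovZ.n2 (-23808, 34560) (by decide +kernel)
    (CovZ.subM 16777216 (by decide +kernel)
     (CovZ.n2 (-23040, 34560) (by decide +kernel)
      (CovZ.n2 (-23424, 34176) (by decide +kernel)
       (CovZ.n2 (-23424, 34560) (by decide +kernel)
        (CovZ.n2 (-23232, 34368) (by decide +kernel)
         (CovZ.badM (by decide +kernel))
         (CovZ.badM (by decide +kernel)))
        (CovZ.badM (by decide +kernel)))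
       (CovZ.n1 (-23040, 34176) (by decide +kernel)
        (CovZ.n2 (-23232, 33984) (by decide +kernel)
         (CovZ.n2 (-23232, 34176) (by decide +kernel)
          (CovZ.n2 (-23136, 34080) (by decide +kernel)
           (CovZ.badM (by decide +kernel))
           (CovZ.badM (by decide +kernel)))
          (CovZ.badM (by decide +kernel)))
         (CovZ.n1 (-23040, 33984) (by decide +kernel)
          (CovZ.n2 (-23136, 33888) (by decide +kernel)
           (CovZ.n2 (-23136, 33984) (by decide +kernel)
            (CovZ.n2 (-23088, 33936) (by decide +kernel)
             (CovZ.badM (by decide +kernel))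
             (CovZ.badM (by decide +kernel)))
            (CovZ.badM (by decide +kernel)))
           (CovZ.n1 (-23040, 33888) (by decide +kernel)
            (CovZ.n2 (-23088, 33840) (by decide +kernel)
             (CovZ.n2 (-23088, 33888) (by decide +kernel)
              (CovZ.badM (by decide +kernel))
              (CovZ.badM (by decide +kernel)))
             (CovZ.badM (by decide +kernel)))
            (CovZ.n1 (-23088, 33936) (by decide +kernel)
             (CovZ.badM (by decide +kernel))
             (CovZ.n1 (-23088, 33888) (by decide +kernel)
              (CovZ.badM (by decide +kernel))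
              (CovZ.badM (by decide +kernel))))))
          (CovZ.n1 (-23136, 34080) (by decide +kernel)
           (CovZ.badM (by decide +kernel))
           (CovZ.n1 (-23136, 33984) (by decide +kernel)
            (CovZ.badM (by decide +kernel))
            (CovZ.badM (by decide +kernel))))))
        (CovZ.n1 (-23232, 34368) (by decide +kernel)
         (CovZ.badM (by decide +kernel))
         (CovZ.n1 (-23232, 34176) (by decide +kernel)
          (CovZ.badM (by decide +kernel))
          (CovZ.badM (by decide +kernel))))))
      (CovZ.n1 (-23424, 34944) (by decide +kernel)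
       (CovZ.badM (by decide +kernel))
       (CovZ.n1 (-23424, 34560) (by decide +kernel)
        (CovZ.badM (by decide +kernel))
        (CovZ.badM (by decide +kernel))))))
    (CovZ.n1 (-23808, 33792) (by decide +kernel)
     TB_u543
     TB_u544)))
    (CovZ.topM TB_LL 631663411835949069238373004227832737477760292178775614006150763838612808641185368487833541945418293707145020663136256 (by decide +kernel) (CovZ.n0 (-23808, 34560) (by decide +kernel)
    (CovZ.n2 (-24576, 34560) (by decide +kernel)
     (CovZ.badM (by decide +kernel))
     (CovZ.n1 (-24192, 34176) (by decide +kernel)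
      (CovZ.n2 (-24576, 34176) (by decide +kernel)
       (CovZ.subM 631663411835949064863871554661808888732755837943532883196967867219612558149383395458460481199861526089857833690464256 (by decide +kernel)
        (CovZ.n2 (-24384, 34368) (by decide +kernel)
         (CovZ.n2 (-24384, 34176) (by decide +kernel)
          (CovZ.n2 (-24480, 34272) (by decide +kernel)
           (CovZ.n2 (-24384, 34272) (by decide +kernel)
            (CovZ.n2 (-24432, 34224) (by decide +kernel)
             (CovZ.leaf K2_ok TB_l15790 _)
             (CovZ.leaf K2_ok TB_l15791 _))
            (CovZ.n1 (-24432, 34320) (by decide +kernel)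
             (CovZ.leaf K2_ok TB_l15792 _)
             (CovZ.leaf K2_ok TB_l15793 _)))
           (CovZ.leaf K2_ok TB_l15794 _))
          (CovZ.n1 (-24288, 34272) (by decide +kernel)
           (CovZ.n2 (-24288, 34176) (by decide +kernel)
            (CovZ.n2 (-24336, 34224) (by decide +kernel)
             (CovZ.leaf K2_ok TB_l15795 _)
             (CovZ.leaf K2_ok TB_l15796 _))
            (CovZ.n1 (-24240, 34224) (by decide +kernel)
             (CovZ.leaf K2_ok TB_l15797 _)
             (CovZ.n1 (-24288, 34224) (by decide +kernel)
              (CovZ.leaf K2_ok TB_l15798 _)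
              (CovZ.leaf K2_ok TB_l15799 _))))
           (CovZ.n1 (-24384, 34272) (by decide +kernel)
            (CovZ.n2 (-24336, 34320) (by decide +kernel)
             (CovZ.leaf K2_ok TB_l15800 _)
             (CovZ.n1 (-24384, 34320) (by decide +kernel)
              (CovZ.leaf K2_ok TB_l48688 _)
              (CovZ.leaf K2_ok TB_l15801 _)))
            (CovZ.n1 (-24336, 34224) (by decide +kernel)
             (CovZ.leaf K2_ok TB_l15802 _)
             (CovZ.n1 (-24336, 34272) (by decide +kernel)
              (CovZ.leaf K2_ok TB_l15803 _)
              (CovZ.leaf K2_ok TB_l15804 _))))))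
         (CovZ.n1 (-24576, 34368) (by decide +kernel)
          (CovZ.n2 (-24480, 34464) (by decide +kernel)
           (CovZ.n2 (-24480, 34368) (by decide +kernel)
            (CovZ.n2 (-24528, 34416) (by decide +kernel)
             (CovZ.n2 (-24480, 34416) (by decide +kernel)
              (CovZ.leaf K2_ok TB_l15805 _)
              (CovZ.leaf K2_ok TB_l15806 _))
             (CovZ.leaf K2_ok TB_l15807 _))
            (CovZ.n1 (-24432, 34416) (by decide +kernel)
             (CovZ.leaf K2_ok TB_l15808 _)
             (CovZ.n1 (-24480, 34416) (by decide +kernel)
              (CovZ.leaf K2_ok TB_l15809 _)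
              (CovZ.leaf K2_ok TB_l15810 _))))
           (CovZ.n1 (-24576, 34464) (by decide +kernel)
            (CovZ.n2 (-24528, 34512) (by decide +kernel)
             (CovZ.leaf K2_ok TB_l15811 _)
             (CovZ.n1 (-24576, 34512) (by decide +kernel)
              (CovZ.leaf K2_ok TB_l15812 _)
              (CovZ.leaf K2_ok TB_l15813 _)))
            (CovZ.n1 (-24528, 34416) (by decide +kernel)
             (CovZ.leaf K2_ok TB_l15814 _)
             (CovZ.n1 (-24528, 34464) (by decide +kernel)
              (CovZ.leaf K2_ok TB_l15815 _)
              (CovZ.leaf K2_ok TB_l15816 _)))))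
          (CovZ.n1 (-24480, 34272) (by decide +kernel)
           (CovZ.n2 (-24576, 34272) (by decide +kernel)
            (CovZ.leaf K2_ok TB_l15817 _)
            (CovZ.leaf K2_ok TB_l15818 _))
           (CovZ.n1 (-24480, 34368) (by decide +kernel)
            (CovZ.n2 (-24432, 34320) (by decide +kernel)
             (CovZ.leaf K2_ok TB_l15819 _)
             (CovZ.n1 (-24432, 34368) (by decide +kernel)
              (CovZ.leaf K2_ok TB_l15820 _)
              (CovZ.leaf K2_ok TB_l15821 _)))
            (CovZ.n1 (-24528, 34320) (by decide +kernel)
             (CovZ.leaf K2_ok TB_l15822 _)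
             (CovZ.leaf K2_ok TB_l15823 _)))))))
       (CovZ.n1 (-24384, 33984) (by decide +kernel)
        (CovZ.n2 (-24576, 33984) (by decide +kernel)
         (CovZ.leaf K2_ok TB_l15824 _)
         (CovZ.n1 (-24480, 33888) (by decide +kernel)
          (CovZ.leaf K2_ok TB_l15825 _)
          (CovZ.leaf K2_ok TB_l15826 _)))
        (CovZ.subM 631663411835949064863871554661808888732755837943532883299811902052187935784068969368294887761282517691956575150014464 (by decide +kernel)
         (CovZ.n1 (-24384, 34176) (by decide +kernel)
          (CovZ.n2 (-24288, 34080) (by decide +kernel)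
           (CovZ.n2 (-24384, 34080) (by decide +kernel)
            (CovZ.leaf K2_ok TB_l15827 _)
            (CovZ.leaf K2_ok TB_l15828 _))
           (CovZ.n1 (-24288, 34176) (by decide +kernel)
            (CovZ.n2 (-24240, 34128) (by decide +kernel)
             (CovZ.leaf K2_ok TB_l15829 _)
             (CovZ.n1 (-24240, 34176) (by decide +kernel)
              (CovZ.leaf K2_ok TB_l15830 _)
              (CovZ.leaf K2_ok TB_l15831 _)))
            (CovZ.n1 (-24336, 34128) (by decide +kernel)
             (CovZ.leaf K2_ok TB_l15832 _)
             (CovZ.leaf K2_ok TB_l15833 _))))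
          (CovZ.n1 (-24480, 34080) (by decide +kernel)
           (CovZ.n2 (-24480, 34176) (by decide +kernel)
            (CovZ.leaf K2_ok TB_l15834 _)
            (CovZ.leaf K2_ok TB_l15835 _))
           (CovZ.n1 (-24384, 34080) (by decide +kernel)
            (CovZ.leaf K2_ok TB_l15836 _)
            (CovZ.leaf K2_ok TB_l15837 _)))))))
      (CovZ.subM 631663411835948994871848361605427308812684570179649191895546078636814227149314657614234955898623803866681254969606144 (by decide +kernel)
       (CovZ.n1 (-24192, 34560) (by decide +kernel)
        (CovZ.n2 (-24000, 34368) (by decide +kernel)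
         (CovZ.n2 (-24192, 34368) (by decide +kernel)
          (CovZ.badM (by decide +kernel))
          (CovZ.n1 (-24096, 34272) (by decide +kernel)
           (CovZ.n2 (-24192, 34272) (by decide +kernel)
            (CovZ.badM (by decide +kernel))
            (CovZ.n1 (-24144, 34224) (by decide +kernel)
             (CovZ.n2 (-24192, 34224) (by decide +kernel)
              (CovZ.n2 (-24168, 34248) (by decide +kernel)
               (CovZ.leaf K2_ok TB_l15838 _)
               (CovZ.leaf K2_ok TB_l15839 _))
              (CovZ.n1 (-24168, 34200) (by decide +kernel)
               (CovZ.leaf K2_ok TB_l15840 _)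
               (CovZ.n1 (-24168, 34224) (by decide +kernel)
                (CovZ.leaf K2_ok TB_l15841 _)
                (CovZ.leaf K2_ok TB_l15842 _))))
             (CovZ.badM (by decide +kernel))))
           (CovZ.badM (by decide +kernel))))
         (CovZ.badM (by decide +kernel)))
        (CovZ.n1 (-24384, 34368) (by decide +kernel)
         (CovZ.n2 (-24384, 34560) (by decide +kernel)
          (CovZ.n2 (-24288, 34464) (by decide +kernel)
           (CovZ.n2 (-24384, 34464) (by decide +kernel)
            (CovZ.badM (by decide +kernel))
            (CovZ.n1 (-24336, 34416) (by decide +kernel)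
             (CovZ.n2 (-24384, 34416) (by decide +kernel)
              (CovZ.badM (by decide +kernel))
              (CovZ.n1 (-24360, 34392) (by decide +kernel)
               (CovZ.leaf K2_ok TB_l48689 _)
               (CovZ.badM (by decide +kernel))))
             (CovZ.badM (by decide +kernel))))
           (CovZ.badM (by decide +kernel)))
          (CovZ.n1 (-24480, 34464) (by decide +kernel)
           (CovZ.n2 (-24480, 34560) (by decide +kernel)
            (CovZ.n2 (-24432, 34512) (by decide +kernel)
             (CovZ.n2 (-24480, 34512) (by decide +kernel)
              (CovZ.badM (by decide +kernel))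
              (CovZ.n1 (-24456, 34488) (by decide +kernel)
               (CovZ.leaf K2_ok TB_l15843 _)
               (CovZ.badM (by decide +kernel))))
             (CovZ.badM (by decide +kernel)))
            (CovZ.n1 (-24528, 34512) (by decide +kernel)
             (CovZ.n2 (-24528, 34560) (by decide +kernel)
              (CovZ.n2 (-24504, 34536) (by decide +kernel)
               (CovZ.leaf K2_ok TB_l15844 _)
               (CovZ.badM (by decide +kernel)))
              (CovZ.n1 (-24552, 34536) (by decide +kernel)
               (CovZ.n2 (-24552, 34560) (by decide +kernel)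
                (CovZ.leaf K2_ok TB_l15845 _)
                (CovZ.leaf K2_ok TB_l15846 _))
               (CovZ.leaf K2_ok TB_l15847 _)))
             (CovZ.n1 (-24480, 34512) (by decide +kernel)
              (CovZ.n2 (-24504, 34488) (by decide +kernel)
               (CovZ.n2 (-24504, 34512) (by decide +kernel)
                (CovZ.leaf K2_ok TB_l15848 _)
                (CovZ.leaf K2_ok TB_l15849 _))
               (CovZ.leaf K2_ok TB_l15850 _))
              (CovZ.n1 (-24504, 34536) (by decide +kernel)
               (CovZ.badM (by decide +kernel))
               (CovZ.leaf K2_ok TB_l15851 _)))))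
           (CovZ.n1 (-24384, 34464) (by decide +kernel)
            (CovZ.n2 (-24432, 34416) (by decide +kernel)
             (CovZ.n2 (-24432, 34464) (by decide +kernel)
              (CovZ.n2 (-24408, 34440) (by decide +kernel)
               (CovZ.leaf K2_ok TB_l48690 _)
               (CovZ.badM (by decide +kernel)))
              (CovZ.n1 (-24456, 34440) (by decide +kernel)
               (CovZ.leaf K2_ok TB_l15852 _)
               (CovZ.leaf K2_ok TB_l15853 _)))
             (CovZ.n1 (-24384, 34416) (by decide +kernel)
              (CovZ.n2 (-24408, 34392) (by decide +kernel)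
               (CovZ.leaf K2_ok TB_l48691 _)
               (CovZ.leaf K2_ok TB_l48692 _))
              (CovZ.n1 (-24408, 34440) (by decide +kernel)
               (CovZ.badM (by decide +kernel))
               (CovZ.leaf K2_ok TB_l48693 _))))
            (CovZ.n1 (-24432, 34512) (by decide +kernel)
             (CovZ.badM (by decide +kernel))
             (CovZ.n1 (-24432, 34464) (by decide +kernel)
              (CovZ.n2 (-24456, 34488) (by decide +kernel)
               (CovZ.badM (by decide +kernel))
               (CovZ.leaf K2_ok TB_l15855 _))
              (CovZ.badM (by decide +kernel)))))))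
         (CovZ.n1 (-24192, 34368) (by decide +kernel)
          (CovZ.n2 (-24288, 34272) (by decide +kernel)
           (CovZ.n2 (-24288, 34368) (by decide +kernel)
            (CovZ.n2 (-24240, 34320) (by decide +kernel)
             (CovZ.n2 (-24288, 34320) (by decide +kernel)
              (CovZ.badM (by decide +kernel))
              (CovZ.n1 (-24264, 34296) (by decide +kernel)
               (CovZ.leaf K2_ok TB_l48694 _)
               (CovZ.badM (by decide +kernel))))
             (CovZ.badM (by decide +kernel)))
            (CovZ.n1 (-24336, 34320) (by decide +kernel)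
             (CovZ.n2 (-24336, 34368) (by decide +kernel)
              (CovZ.n2 (-24312, 34344) (by decide +kernel)
               (CovZ.leaf K2_ok TB_l48695 _)
               (CovZ.badM (by decide +kernel)))
              (CovZ.n1 (-24360, 34344) (by decide +kernel)
               (CovZ.leaf K2_ok TB_l48696 _)
               (CovZ.leaf K2_ok TB_l48697 _)))
             (CovZ.n1 (-24288, 34320) (by decide +kernel)
              (CovZ.n2 (-24312, 34296) (by decide +kernel)
               (CovZ.leaf K2_ok TB_l48698 _)
               (CovZ.leaf K2_ok TB_l48699 _))
              (CovZ.n1 (-24312, 34344) (by decide +kernel)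
               (CovZ.badM (by decide +kernel))
               (CovZ.leaf K2_ok TB_l48700 _)))))
           (CovZ.n1 (-24192, 34272) (by decide +kernel)
            (CovZ.n2 (-24240, 34224) (by decide +kernel)
             (CovZ.n2 (-24240, 34272) (by decide +kernel)
              (CovZ.n2 (-24216, 34248) (by decide +kernel)
               (CovZ.leaf K2_ok TB_l48701 _)
               (CovZ.badM (by decide +kernel)))
              (CovZ.n1 (-24264, 34248) (by decide +kernel)
               (CovZ.leaf K2_ok TB_l48702 _)
               (CovZ.leaf K2_ok TB_l48703 _)))
             (CovZ.n1 (-24192, 34224) (by decide +kernel)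
              (CovZ.n2 (-24216, 34200) (by decide +kernel)
               (CovZ.leaf K2_ok TB_l15857 _)
               (CovZ.leaf K2_ok TB_l15858 _))
              (CovZ.leaf K2_ok TB_l15859 _)))
            (CovZ.n1 (-24240, 34320) (by decide +kernel)
             (CovZ.badM (by decide +kernel))
             (CovZ.n1 (-24240, 34272) (by decide +kernel)
              (CovZ.n2 (-24264, 34296) (by decide +kernel)
               (CovZ.badM (by decide +kernel))
               (CovZ.leaf K2_ok TB_l48704 _))
              (CovZ.badM (by decide +kernel))))))
          (CovZ.n1 (-24288, 34464) (by decide +kernel)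
           (CovZ.badM (by decide +kernel))
           (CovZ.n1 (-24288, 34368) (by decide +kernel)
            (CovZ.n2 (-24336, 34416) (by decide +kernel)
             (CovZ.badM (by decide +kernel))
             (CovZ.n1 (-24336, 34368) (by decide +kernel)
              (CovZ.n2 (-24360, 34392) (by decide +kernel)
               (CovZ.badM (by decide +kernel))
               (CovZ.leaf K2_ok TB_l48705 _))
              (CovZ.badM (by decide +kernel))))
            (CovZ.badM (by decide +kernel))))))))))
    (CovZ.n1 (-23808, 35328) (by decide +kernel)
     (CovZ.n2 (-23424, 34944) (by decide +kernel)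
      (CovZ.badM (by decide +kernel))
      (CovZ.badM (by decide +kernel)))
     (CovZ.badM (by decide +kernel)))))

theorem TB_s6_25 : SqZ TB_M TB_L [0, 7, 6, 1] (-32256) (-4608) 1536 6 25 :=
  SqZ.mk (a := (-23040)) (b := (-21504)) (c := 33792) (d := 35328) (by norm_num) (by norm_num) (by norm_num) (by norm_num)
    (CovZ.topM TB_LL 182687704666362864775460604089535377456991568000 (by decide +kernel) (CovZ.n2 (-22272, 34560) (by decide +kernel)
    (CovZ.badM (by decide +kernel))
    (CovZ.n1 (-22272, 33792) (by decide +kernel)
     (CovZ.n2 (-22656, 34176) (by decide +kernel)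
      (CovZ.badM (by decide +kernel))
      (CovZ.n1 (-22656, 33792) (by decide +kernel)
       (CovZ.n2 (-22848, 33984) (by decide +kernel)
        (CovZ.badM (by decide +kernel))
        (CovZ.n1 (-22848, 33792) (by decide +kernel)
         (CovZ.n2 (-22944, 33888) (by decide +kernel)
          (CovZ.badM (by decide +kernel))
          (CovZ.n1 (-22944, 33792) (by decide +kernel)
           (CovZ.n2 (-22992, 33840) (by decide +kernel)
            (CovZ.badM (by decide +kernel))
            (CovZ.n1 (-22992, 33792) (by decide +kernel)
             (CovZ.n2 (-23016, 33816) (by decide +kernel)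
              (CovZ.badM (by decide +kernel))
              (CovZ.n1 (-23016, 33792) (by decide +kernel)
               (CovZ.badM (by decide +kernel))
               (CovZ.badM (by decide +kernel))))
             (CovZ.badM (by decide +kernel))))
           (CovZ.badM (by decide +kernel))))
         (CovZ.badM (by decide +kernel))))
       (CovZ.badM (by decide +kernel))))
     (CovZ.badM (by decide +kernel)))))
    (CovZ.topM TB_LL 182687704666362864775460604089535377456991567872 (by decide +kernel) (CovZ.n0 (-22272, 34560) (by decide +kernel)
    (CovZ.n2 (-23040, 34560) (by decide +kernel)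
     (CovZ.badM (by decide +kernel))
     (CovZ.n1 (-22656, 34176) (by decide +kernel)
      (CovZ.badM (by decide +kernel))
      (CovZ.badM (by decide +kernel))))
    (CovZ.badM (by decide +kernel))))

theorem TB_s7_25 : SqZ TB_M TB_L [0, 7, 6, 1] (-32256) (-4608) 1536 7 25 :=
  SqZ.mk (a := (-21504)) (b := (-19968)) (c := 33792) (d := 35328) (by norm_num) (by norm_num) (by norm_num) (by norm_num)
    (CovZ.topM TB_LL 48638774490372449117818631232797898894149435030241280 (by decide +kernel) (CovZ.n2 (-20736, 34560) (by decide +kernel)
    (CovZ.badM (by decide +kernel))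
    (CovZ.n1 (-20736, 33792) (by decide +kernel)
     (CovZ.n2 (-21120, 34176) (by decide +kernel)
      (CovZ.badM (by decide +kernel))
      (CovZ.n1 (-21120, 33792) (by decide +kernel)
       (CovZ.badM (by decide +kernel))
       (CovZ.badM (by decide +kernel))))
     (CovZ.badM (by decide +kernel)))))
    (CovZ.topM TB_LL 0 (by decide +kernel) (CovZ.badM (by decide +kernel)))

theorem TB_s8_25 : SqZ TB_M TB_L [0, 7, 6, 1] (-32256) (-4608) 1536 8 25 :=
  SqZ.mk (a := (-19968)) (b := (-18432)) (c := 33792) (d := 35328) (by norm_num) (by norm_num) (by norm_num) (by norm_num)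
    (CovZ.topM TB_LL 91343852333181432387730302044767688728495783936 (by decide +kernel) (CovZ.n2 (-19200, 34560) (by decide +kernel)
    (CovZ.badM (by decide +kernel))
    (CovZ.n1 (-19200, 33792) (by decide +kernel)
     (CovZ.badM (by decide +kernel))
     (CovZ.badM (by decide +kernel)))))
    (CovZ.topM TB_LL 0 (by decide +kernel) (CovZ.badM (by decide +kernel)))

theorem TB_s9_25 : SqZ TB_M TB_L [0, 7, 6, 1] (-32256) (-4608) 1536 9 25 :=
  SqZ.mk (a := (-18432)) (b := (-16896)) (c := 33792) (d := 35328) (by norm_num) (by norm_num) (by norm_num) (by norm_num)
    (CovZ.topM TB_LL 0 (by decide +kernel) (CovZ.badM (by decide +kernel)))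
    (CovZ.topM TB_LL 0 (by decide +kernel) (CovZ.badM (by decide +kernel)))

theorem TB_s10_25 : SqZ TB_M TB_L [0, 7, 6, 1] (-32256) (-4608) 1536 10 25 :=
  SqZ.mk (a := (-16896)) (b := (-15360)) (c := 33792) (d := 35328) (by norm_num) (by norm_num) (by norm_num) (by norm_num)
    (CovZ.topM TB_LL 0 (by decide +kernel) (CovZ.badM (by decide +kernel)))
    (CovZ.topM TB_LL 0 (by decide +kernel) (CovZ.badM (by decide +kernel)))

theorem TB_s11_25 : SqZ TB_M TB_L [0, 7, 6, 1] (-32256) (-4608) 1536 11 25 :=
  SqZ.mk (a := (-15360)) (b := (-13824)) (c := 33792) (d := 35328) (by norm_num) (by norm_num) (by norm_num) (by norm_num)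
    (CovZ.topM TB_LL 0 (by decide +kernel) (CovZ.badM (by decide +kernel)))
    (CovZ.topM TB_LL 0 (by decide +kernel) (CovZ.badM (by decide +kernel)))

theorem TB_s12_25 : SqZ TB_M TB_L [0, 7, 6, 1] (-32256) (-4608) 1536 12 25 :=
  SqZ.mk (a := (-13824)) (b := (-12288)) (c := 33792) (d := 35328) (by norm_num) (by norm_num) (by norm_num) (by norm_num)
    (CovZ.topM TB_LL 0 (by decide +kernel) (CovZ.badM (by decide +kernel)))
    (CovZ.topM TB_LL 0 (by decide +kernel) (CovZ.badM (by decide +kernel)))

theorem TB_s0_26 : SqZ TB_M TB_L [0, 7, 6, 1] (-32256) (-4608) 1536 0 26 :=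
  SqZ.mk (a := (-32256)) (b := (-30720)) (c := 35328) (d := 36864) (by norm_num) (by norm_num) (by norm_num) (by norm_num)
    (CovZ.topM TB_LL 2353129859973906143154175441529284225823720636258563057311064562201646888730119284886260675824942078871207936 (by decide +kernel) (CovZ.n2 (-31488, 36096) (by decide +kernel)
    (CovZ.n2 (-30720, 36096) (by decide +kernel)
     (CovZ.leaf K2_ok TB_l1863 _)
     (CovZ.n1 (-31104, 36480) (by decide +kernel)
      (CovZ.n2 (-30720, 36480) (by decide +kernel)
       (CovZ.leaf K2_ok TB_l1864 _)
       (CovZ.n1 (-30912, 36672) (by decide +kernel)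
        (CovZ.n2 (-30720, 36672) (by decide +kernel)
         (CovZ.leaf K2_ok TB_l1865 _)
         (CovZ.n1 (-30816, 36768) (by decide +kernel)
          (CovZ.n2 (-30720, 36768) (by decide +kernel)
           (CovZ.leaf K2_ok TB_l1866 _)
           (CovZ.n1 (-30768, 36816) (by decide +kernel)
            (CovZ.n2 (-30720, 36816) (by decide +kernel)
             (CovZ.leaf K2_ok TB_l1867 _)
             (CovZ.n1 (-30744, 36840) (by decide +kernel)
              (CovZ.n2 (-30720, 36840) (by decide +kernel)
               (CovZ.leaf K2_ok TB_l1868 _)
               (CovZ.leaf K2_ok TB_l1869 _))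
              (CovZ.leaf K2_ok TB_l1870 _)))
            (CovZ.leaf K2_ok TB_l1871 _)))
          (CovZ.leaf K2_ok TB_l1872 _)))
        (CovZ.leaf K2_ok TB_l1873 _)))
      (CovZ.leaf K2_ok TB_l1874 _)))
    (CovZ.leaf K2_ok TB_l1875 _)))
    (CovZ.topM TB_LL 2353129859973906143154175441529284225823720636258563057311064562201646888730119284886260675824942078871207936 (by decide +kernel) (CovZ.n0 (-31488, 36096) (by decide +kernel)
    (CovZ.leaf K2_ok TB_l1876 _)
    (CovZ.n1 (-31488, 36864) (by decide +kernel)
     (CovZ.n2 (-31104, 36480) (by decide +kernel)
      (CovZ.leaf K2_ok TB_l1877 _)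
      (CovZ.n1 (-31104, 36864) (by decide +kernel)
       (CovZ.n2 (-30912, 36672) (by decide +kernel)
        (CovZ.leaf K2_ok TB_l1878 _)
        (CovZ.n1 (-30912, 36864) (by decide +kernel)
         (CovZ.n2 (-30816, 36768) (by decide +kernel)
          (CovZ.leaf K2_ok TB_l1879 _)
          (CovZ.n1 (-30816, 36864) (by decide +kernel)
           (CovZ.n2 (-30768, 36816) (by decide +kernel)
            (CovZ.leaf K2_ok TB_l1880 _)
            (CovZ.n1 (-30768, 36864) (by decide +kernel)
             (CovZ.n2 (-30744, 36840) (by decide +kernel)
              (CovZ.leaf K2_ok TB_l1881 _)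
              (CovZ.leaf K2_ok TB_l1882 _))
             (CovZ.leaf K2_ok TB_l1883 _)))
           (CovZ.leaf K2_ok TB_l1884 _)))
         (CovZ.leaf K2_ok TB_l1885 _)))
       (CovZ.leaf K2_ok TB_l1886 _)))
     (CovZ.leaf K2_ok TB_l1887 _))))

theorem TB_s1_26 : SqZ TB_M TB_L [0, 7, 6, 1] (-32256) (-4608) 1536 1 26 :=
  SqZ.mk (a := (-30720)) (b := (-29184)) (c := 35328) (d := 36864) (by norm_num) (by norm_num) (by norm_num) (by norm_num)
    (CovZ.topM TB_LL 5043456795491623199145623275972558008579490852443297809755944613054516948958865054558750472409226200604048672513064960 (by decide +kernel) (CovZ.n2 (-29952, 36096) (by decide +kernel)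
    (CovZ.n2 (-29184, 36096) (by decide +kernel)
     (CovZ.n2 (-29568, 35712) (by decide +kernel)
      (CovZ.n2 (-29568, 36096) (by decide +kernel)
       (CovZ.n2 (-29376, 35904) (by decide +kernel)
        (CovZ.leaf K2_ok TB_l5012 _)
        (CovZ.leaf K2_ok TB_l5013 _))
       (CovZ.n1 (-29760, 35904) (by decide +kernel)
        (CovZ.leaf K2_ok TB_l5014 _)
        (CovZ.leaf K2_ok TB_l5015 _)))
      (CovZ.n1 (-29184, 35712) (by decide +kernel)
       (CovZ.leaf K2_ok TB_l5016 _)
       (CovZ.leaf K2_ok TB_l5017 _)))
     (CovZ.n1 (-29568, 36480) (by decide +kernel)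
      (CovZ.subM 15946397601834897078642462300328057059561712577820347991080131659369045652155236665524224 (by decide +kernel)
       (CovZ.n2 (-29184, 36480) (by decide +kernel)
        (CovZ.n2 (-29376, 36288) (by decide +kernel)
         (CovZ.n2 (-29376, 36480) (by decide +kernel)
          (CovZ.n2 (-29280, 36384) (by decide +kernel)
           (CovZ.leaf K2_ok TB_l5018 _)
           (CovZ.n1 (-29280, 36480) (by decide +kernel)
            (CovZ.leaf K2_ok TB_l5019 _)
            (CovZ.leaf K2_ok TB_l5020 _)))
          (CovZ.n1 (-29472, 36384) (by decide +kernel)
           (CovZ.n2 (-29472, 36480) (by decide +kernel)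
            (CovZ.leaf K2_ok TB_l5021 _)
            (CovZ.leaf K2_ok TB_l5022 _))
           (CovZ.leaf K2_ok TB_l5023 _)))
         (CovZ.n1 (-29184, 36288) (by decide +kernel)
          (CovZ.leaf K2_ok TB_l5024 _)
          (CovZ.n1 (-29280, 36384) (by decide +kernel)
           (CovZ.leaf K2_ok TB_l5025 _)
           (CovZ.leaf K2_ok TB_l5026 _))))
        (CovZ.subM 15915314899559285413507744327797512921357726101587520755305731598676877878558679701127168 (by decide +kernel)
         (CovZ.n1 (-29376, 36672) (by decide +kernel)
          (CovZ.n2 (-29184, 36672) (by decide +kernel)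
           (CovZ.n2 (-29280, 36576) (by decide +kernel)
            (CovZ.subM 2923008849848105469063155049362134201402241581056 (by decide +kernel)
             (CovZ.n2 (-29280, 36672) (by decide +kernel)
              (CovZ.n2 (-29232, 36624) (by decide +kernel)
               (CovZ.n2 (-29280, 36624) (by decide +kernel)
                (CovZ.badM (by decide +kernel))
                (CovZ.n1 (-29256, 36600) (by decide +kernel)
                 (CovZ.leaf K2_ok TB_l5027 _)
                 (CovZ.badM (by decide +kernel))))
               (CovZ.badM (by decide +kernel)))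
              (CovZ.n1 (-29328, 36624) (by decide +kernel)
               (CovZ.badM (by decide +kernel))
               (CovZ.n1 (-29280, 36624) (by decide +kernel)
                (CovZ.n2 (-29304, 36600) (by decide +kernel)
                 (CovZ.badM (by decide +kernel))
                 (CovZ.n1 (-29280, 36600) (by decide +kernel)
                  (CovZ.leaf K2_ok TB_l5030 _)
                  (CovZ.badM (by decide +kernel))))
                (CovZ.badM (by decide +kernel))))))
            (CovZ.n1 (-29184, 36576) (by decide +kernel)
             (CovZ.n2 (-29232, 36528) (by decide +kernel)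
              (CovZ.subM 96459113639025892234098984343204247459381924331520 (by decide +kernel)
               (CovZ.n2 (-29232, 36576) (by decide +kernel)
                (CovZ.n2 (-29208, 36552) (by decide +kernel)
                 (CovZ.leaf K2_ok TB_l5032 _)
                 (CovZ.leaf K2_ok TB_l5033 _))
                (CovZ.n1 (-29256, 36552) (by decide +kernel)
                 (CovZ.leaf K2_ok TB_l5034 _)
                 (CovZ.leaf K2_ok TB_l5035 _))))
              (CovZ.n1 (-29184, 36528) (by decide +kernel)
               (CovZ.leaf K2_ok TB_l5036 _)
               (CovZ.leaf K2_ok TB_l5037 _)))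
             (CovZ.subM 96459113639025892234098984343204247459381924331520 (by decide +kernel)
              (CovZ.n1 (-29232, 36624) (by decide +kernel)
               (CovZ.n2 (-29184, 36624) (by decide +kernel)
                (CovZ.n2 (-29208, 36600) (by decide +kernel)
                 (CovZ.badM (by decide +kernel))
                 (CovZ.n1 (-29184, 36600) (by decide +kernel)
                  (CovZ.leaf K2_ok TB_l38425 _)
                  (CovZ.badM (by decide +kernel))))
                (CovZ.badM (by decide +kernel)))
               (CovZ.n1 (-29232, 36576) (by decide +kernel)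
                (CovZ.n2 (-29256, 36600) (by decide +kernel)
                 (CovZ.n2 (-29232, 36600) (by decide +kernel)
                  (CovZ.leaf K2_ok TB_l5038 _)
                  (CovZ.badM (by decide +kernel)))
                 (CovZ.leaf K2_ok TB_l5039 _))
                (CovZ.n1 (-29208, 36600) (by decide +kernel)
                 (CovZ.leaf K2_ok TB_l5040 _)
                 (CovZ.n1 (-29232, 36600) (by decide +kernel)
                  (CovZ.badM (by decide +kernel))
                  (CovZ.leaf K2_ok TB_l5041 _))))))))
           (CovZ.n1 (-29280, 36768) (by decide +kernel)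
            (CovZ.badM (by decide +kernel))
            (CovZ.n1 (-29280, 36672) (by decide +kernel)
             (CovZ.badM (by decide +kernel))
             (CovZ.badM (by decide +kernel)))))
          (CovZ.n1 (-29376, 36480) (by decide +kernel)
           (CovZ.n2 (-29472, 36576) (by decide +kernel)
            (CovZ.n2 (-29376, 36576) (by decide +kernel)
             (CovZ.n2 (-29424, 36528) (by decide +kernel)
              (CovZ.n2 (-29424, 36576) (by decide +kernel)
               (CovZ.leaf K2_ok TB_l5042 _)
               (CovZ.leaf K2_ok TB_l5043 _))
              (CovZ.leaf K2_ok TB_l5044 _))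
             (CovZ.badM (by decide +kernel)))
            (CovZ.leaf K2_ok TB_l5047 _))
           (CovZ.n1 (-29280, 36576) (by decide +kernel)
            (CovZ.n2 (-29280, 36480) (by decide +kernel)
             (CovZ.n2 (-29328, 36528) (by decide +kernel)
              (CovZ.leaf K2_ok TB_l5048 _)
              (CovZ.leaf K2_ok TB_l5049 _))
             (CovZ.n1 (-29232, 36528) (by decide +kernel)
              (CovZ.leaf K2_ok TB_l5050 _)
              (CovZ.leaf K2_ok TB_l5051 _)))
            (CovZ.n1 (-29376, 36576) (by decide +kernel)
             (CovZ.subM 2923003274661805836407369665432566039311865085952 (by decide +kernel)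
              (CovZ.n2 (-29328, 36624) (by decide +kernel)
               (CovZ.n2 (-29328, 36576) (by decide +kernel)
                (CovZ.badM (by decide +kernel))
                (CovZ.n1 (-29304, 36600) (by decide +kernel)
                 (CovZ.leaf K2_ok TB_l5054 _)
                 (CovZ.badM (by decide +kernel))))
               (CovZ.badM (by decide +kernel))))
             (CovZ.n1 (-29328, 36528) (by decide +kernel)
              (CovZ.leaf K2_ok TB_l5057 _)
              (CovZ.n1 (-29328, 36576) (by decide +kernel)
               (CovZ.leaf K2_ok TB_l5058 _)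
               (CovZ.leaf K2_ok TB_l5059 _))))))))))
      (CovZ.n1 (-29568, 36096) (by decide +kernel)
       (CovZ.n2 (-29760, 36288) (by decide +kernel)
        (CovZ.n2 (-29568, 36288) (by decide +kernel)
         (CovZ.leaf K2_ok TB_l5060 _)
         (CovZ.leaf K2_ok TB_l5061 _))
        (CovZ.leaf K2_ok TB_l5062 _))
       (CovZ.n1 (-29376, 36288) (by decide +kernel)
        (CovZ.leaf K2_ok TB_l5063 _)
        (CovZ.n1 (-29568, 36288) (by decide +kernel)
         (CovZ.leaf K2_ok TB_l5064 _)
         (CovZ.leaf K2_ok TB_l5065 _))))))
    (CovZ.n1 (-29952, 35328) (by decide +kernel)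
     (CovZ.n2 (-30336, 35712) (by decide +kernel)
      (CovZ.n2 (-29952, 35712) (by decide +kernel)
       (CovZ.leaf K2_ok TB_l5066 _)
       (CovZ.leaf K2_ok TB_l5067 _))
      (CovZ.leaf K2_ok TB_l5068 _))
     (CovZ.n1 (-29568, 35712) (by decide +kernel)
      (CovZ.leaf K2_ok TB_l5069 _)
      (CovZ.leaf K2_ok TB_l5070 _)))))
    (CovZ.topM TB_LL 5043456795491623199145623275972558008579490852443297809755944613054516948958865054558425953855567773877265516492488704 (by decide +kernel) (CovZ.n0 (-29952, 36096) (by decide +kernel)
    (CovZ.n2 (-30720, 36096) (by decide +kernel)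
     (CovZ.n2 (-30336, 36480) (by decide +kernel)
      (CovZ.n2 (-30336, 36096) (by decide +kernel)
       (CovZ.n2 (-30528, 36288) (by decide +kernel)
        (CovZ.leaf K2_ok TB_l5071 _)
        (CovZ.leaf K2_ok TB_l5072 _))
       (CovZ.n1 (-30144, 36288) (by decide +kernel)
        (CovZ.leaf K2_ok TB_l5073 _)
        (CovZ.leaf K2_ok TB_l5074 _)))
      (CovZ.n1 (-30720, 36480) (by decide +kernel)
       (CovZ.n2 (-30528, 36672) (by decide +kernel)
        (CovZ.n2 (-30528, 36480) (by decide +kernel)
         (CovZ.n2 (-30624, 36576) (by decide +kernel)
          (CovZ.leaf K2_ok TB_l5075 _)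
          (CovZ.leaf K2_ok TB_l5076 _))
         (CovZ.leaf K2_ok TB_l5077 _))
        (CovZ.n1 (-30720, 36672) (by decide +kernel)
         (CovZ.n2 (-30624, 36768) (by decide +kernel)
          (CovZ.leaf K2_ok TB_l5078 _)
          (CovZ.n1 (-30720, 36768) (by decide +kernel)
           (CovZ.n2 (-30672, 36816) (by decide +kernel)
            (CovZ.leaf K2_ok TB_l5079 _)
            (CovZ.n1 (-30720, 36816) (by decide +kernel)
             (CovZ.n2 (-30696, 36840) (by decide +kernel)
              (CovZ.leaf K2_ok TB_l5080 _)
              (CovZ.n1 (-30720, 36840) (by decide +kernel)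
               (CovZ.leaf K2_ok TB_l5081 _)
               (CovZ.leaf K2_ok TB_l5082 _)))
             (CovZ.n1 (-30696, 36792) (by decide +kernel)
              (CovZ.leaf K2_ok TB_l5083 _)
              (CovZ.leaf K2_ok TB_l5084 _))))
           (CovZ.n1 (-30672, 36720) (by decide +kernel)
            (CovZ.leaf K2_ok TB_l5085 _)
            (CovZ.n1 (-30672, 36768) (by decide +kernel)
             (CovZ.leaf K2_ok TB_l5086 _)
             (CovZ.leaf K2_ok TB_l5087 _)))))
         (CovZ.n1 (-30624, 36576) (by decide +kernel)
          (CovZ.leaf K2_ok TB_l5088 _)
          (CovZ.n1 (-30624, 36672) (by decide +kernel)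
           (CovZ.leaf K2_ok TB_l5089 _)
           (CovZ.leaf K2_ok TB_l5090 _)))))
       (CovZ.n1 (-30528, 36288) (by decide +kernel)
        (CovZ.leaf K2_ok TB_l5091 _)
        (CovZ.n1 (-30528, 36480) (by decide +kernel)
         (CovZ.leaf K2_ok TB_l5092 _)
         (CovZ.leaf K2_ok TB_l5093 _)))))
     (CovZ.n1 (-30336, 35712) (by decide +kernel)
      (CovZ.leaf K2_ok TB_l5094 _)
      (CovZ.n1 (-30336, 36096) (by decide +kernel)
       (CovZ.leaf K2_ok TB_l5095 _)
       (CovZ.leaf K2_ok TB_l5096 _))))
    (CovZ.n1 (-29952, 36864) (by decide +kernel)
     (CovZ.n2 (-29568, 36480) (by decide +kernel)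
      (CovZ.n2 (-29952, 36480) (by decide +kernel)
       (CovZ.subM 4586997231980143039168525059662127392503315562123488220791997893850435106620941693450300186188936355250176 (by decide +kernel)
        (CovZ.n2 (-29760, 36672) (by decide +kernel)
         (CovZ.n2 (-29760, 36480) (by decide +kernel)
          (CovZ.n2 (-29856, 36576) (by decide +kernel)
           (CovZ.subM 15915314899559285413507744327797512921264189991223156668908039983999106197138609641881600 (by decide +kernel)
            (CovZ.n2 (-29760, 36576) (by decide +kernel)
             (CovZ.leaf K2_ok TB_l5097 _)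
             (CovZ.n1 (-29808, 36624) (by decide +kernel)
              (CovZ.n2 (-29760, 36624) (by decide +kernel)
               (CovZ.leaf K2_ok TB_l5098 _)
               (CovZ.n1 (-29784, 36648) (by decide +kernel)
                (CovZ.leaf K2_ok TB_l5099 _)
                (CovZ.leaf K2_ok TB_l5100 _)))
              (CovZ.leaf K2_ok TB_l5101 _))))
           (CovZ.leaf K2_ok TB_l5102 _))
          (CovZ.subM 15915314899559285413507744327797512921357726096012334455673075813292948310396589324632064 (by decide +kernel)
           (CovZ.n1 (-29664, 36576) (by decide +kernel)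
            (CovZ.leaf K2_ok TB_l5103 _)
            (CovZ.n1 (-29760, 36576) (by decide +kernel)
             (CovZ.n2 (-29712, 36624) (by decide +kernel)
              (CovZ.leaf K2_ok TB_l5104 _)
              (CovZ.n1 (-29760, 36624) (by decide +kernel)
               (CovZ.leaf K2_ok TB_l5105 _)
               (CovZ.leaf K2_ok TB_l5106 _)))
             (CovZ.n1 (-29712, 36528) (by decide +kernel)
              (CovZ.leaf K2_ok TB_l5107 _)
              (CovZ.leaf K2_ok TB_l5108 _))))))
         (CovZ.n1 (-29952, 36672) (by decide +kernel)
          (CovZ.subM 392318858461667547739736838950479151006397215279002157056 (by decide +kernel)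
           (CovZ.n2 (-29856, 36768) (by decide +kernel)
            (CovZ.n2 (-29856, 36672) (by decide +kernel)
             (CovZ.n2 (-29904, 36720) (by decide +kernel)
              (CovZ.badM (by decide +kernel))
              (CovZ.n1 (-29904, 36672) (by decide +kernel)
               (CovZ.n2 (-29928, 36696) (by decide +kernel)
                (CovZ.badM (by decide +kernel))
                (CovZ.leaf K2_ok TB_l5111 _))
               (CovZ.badM (by decide +kernel))))
             (CovZ.badM (by decide +kernel)))
            (CovZ.n1 (-29952, 36768) (by decide +kernel)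
             (CovZ.badM (by decide +kernel))
             (CovZ.n1 (-29904, 36720) (by decide +kernel)
              (CovZ.n2 (-29952, 36720) (by decide +kernel)
               (CovZ.n2 (-29928, 36744) (by decide +kernel)
                (CovZ.n2 (-29928, 36720) (by decide +kernel)
                 (CovZ.badM (by decide +kernel))
                 (CovZ.badM (by decide +kernel)))
                (CovZ.badM (by decide +kernel)))
               (CovZ.n1 (-29928, 36696) (by decide +kernel)
                (CovZ.leaf K2_ok TB_l5119 _)
                (CovZ.n1 (-29928, 36720) (by decide +kernel)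
                 (CovZ.badM (by decide +kernel))
                 (CovZ.leaf K2_ok TB_l5120 _))))
              (CovZ.n1 (-29904, 36768) (by decide +kernel)
               (CovZ.badM (by decide +kernel))
               (CovZ.n1 (-29928, 36744) (by decide +kernel)
                (CovZ.badM (by decide +kernel))
                (CovZ.badM (by decide +kernel))))))))
          (CovZ.n1 (-29856, 36576) (by decide +kernel)
           (CovZ.n2 (-29952, 36576) (by decide +kernel)
            (CovZ.leaf K2_ok TB_l5121 _)
            (CovZ.leaf K2_ok TB_l5122 _))
           (CovZ.subM 4586997231980143039136956690163459295100874306134467487594906334270080352087552709624717134534828152061952 (by decide +kernel)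
            (CovZ.n1 (-29856, 36672) (by decide +kernel)
             (CovZ.n2 (-29808, 36624) (by decide +kernel)
              (CovZ.leaf K2_ok TB_l5123 _)
              (CovZ.n1 (-29808, 36672) (by decide +kernel)
               (CovZ.n2 (-29784, 36648) (by decide +kernel)
                (CovZ.leaf K2_ok TB_l5124 _)
                (CovZ.badM (by decide +kernel)))
               (CovZ.n1 (-29832, 36648) (by decide +kernel)
                (CovZ.badM (by decide +kernel))
                (CovZ.leaf K2_ok TB_l5127 _))))
             (CovZ.n1 (-29904, 36624) (by decide +kernel)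
              (CovZ.n2 (-29904, 36672) (by decide +kernel)
               (CovZ.n2 (-29880, 36648) (by decide +kernel)
                (CovZ.leaf K2_ok TB_l5128 _)
                (CovZ.leaf K2_ok TB_l5129 _))
               (CovZ.leaf K2_ok TB_l5130 _))
              (CovZ.leaf K2_ok TB_l5131 _))))))))
       (CovZ.n1 (-29760, 36288) (by decide +kernel)
        (CovZ.n2 (-29952, 36288) (by decide +kernel)
         (CovZ.leaf K2_ok TB_l5132 _)
         (CovZ.leaf K2_ok TB_l5133 _))
        (CovZ.subM 4586997231980143039168525059662127392503322144141717505622012520276488947695776363724627852587013479858176 (by decide +kernel)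
         (CovZ.n1 (-29760, 36480) (by decide +kernel)
          (CovZ.n2 (-29664, 36384) (by decide +kernel)
           (CovZ.leaf K2_ok TB_l5134 _)
           (CovZ.n1 (-29664, 36480) (by decide +kernel)
            (CovZ.leaf K2_ok TB_l5135 _)
            (CovZ.leaf K2_ok TB_l5136 _)))
          (CovZ.n1 (-29856, 36384) (by decide +kernel)
           (CovZ.n2 (-29856, 36480) (by decide +kernel)
            (CovZ.leaf K2_ok TB_l5137 _)
            (CovZ.leaf K2_ok TB_l5138 _))
           (CovZ.leaf K2_ok TB_l5139 _))))))
      (CovZ.subM 4586997231980143039136956690163459295100874306134467487691365447909106244321651693967921381994210076393472 (by decide +kernel)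
       (CovZ.n1 (-29568, 36864) (by decide +kernel)
        (CovZ.n2 (-29376, 36672) (by decide +kernel)
         (CovZ.n2 (-29568, 36672) (by decide +kernel)
          (CovZ.badM (by decide +kernel))
          (CovZ.n1 (-29472, 36576) (by decide +kernel)
           (CovZ.n2 (-29568, 36576) (by decide +kernel)
            (CovZ.subM 971334446112864535459730953411759453321203419526069760625906204869452142602604249088 (by decide +kernel)
             (CovZ.n2 (-29520, 36624) (by decide +kernel)
              (CovZ.leaf K2_ok TB_l5140 _)
              (CovZ.n1 (-29568, 36624) (by decide +kernel)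
               (CovZ.badM (by decide +kernel))
               (CovZ.n1 (-29544, 36600) (by decide +kernel)
                (CovZ.leaf K2_ok TB_l5143 _)
                (CovZ.badM (by decide +kernel))))))
            (CovZ.n1 (-29520, 36528) (by decide +kernel)
             (CovZ.leaf K2_ok TB_l5145 _)
             (CovZ.n1 (-29520, 36576) (by decide +kernel)
              (CovZ.leaf K2_ok TB_l5146 _)
              (CovZ.leaf K2_ok TB_l5147 _))))
           (CovZ.badM (by decide +kernel))))
         (CovZ.n1 (-29376, 36864) (by decide +kernel)
          (CovZ.n2 (-29280, 36768) (by decide +kernel)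
           (CovZ.badM (by decide +kernel))
           (CovZ.badM (by decide +kernel)))
          (CovZ.badM (by decide +kernel))))
        (CovZ.n1 (-29760, 36672) (by decide +kernel)
         (CovZ.n2 (-29760, 36864) (by decide +kernel)
          (CovZ.badM (by decide +kernel))
          (CovZ.n1 (-29856, 36768) (by decide +kernel)
           (CovZ.badM (by decide +kernel))
           (CovZ.badM (by decide +kernel))))
         (CovZ.n1 (-29568, 36672) (by decide +kernel)
          (CovZ.n2 (-29664, 36576) (by decide +kernel)
           (CovZ.subM 15915314899559285413507691671651678642667918028934653027855473166785973356543670621306880 (by decide +kernel)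
            (CovZ.n2 (-29664, 36672) (by decide +kernel)
             (CovZ.n2 (-29616, 36624) (by decide +kernel)
              (CovZ.n2 (-29664, 36624) (by decide +kernel)
               (CovZ.badM (by decide +kernel))
               (CovZ.leaf K2_ok TB_l5159 _))
              (CovZ.badM (by decide +kernel)))
             (CovZ.n1 (-29712, 36624) (by decide +kernel)
              (CovZ.badM (by decide +kernel))
              (CovZ.n1 (-29664, 36624) (by decide +kernel)
               (CovZ.leaf K2_ok TB_l5166 _)
               (CovZ.badM (by decide +kernel))))))
           (CovZ.n1 (-29568, 36576) (by decide +kernel)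
            (CovZ.n2 (-29616, 36528) (by decide +kernel)
             (CovZ.leaf K2_ok TB_l5169 _)
             (CovZ.leaf K2_ok TB_l5170 _))
            (CovZ.n1 (-29616, 36624) (by decide +kernel)
             (CovZ.n2 (-29568, 36624) (by decide +kernel)
              (CovZ.leaf K2_ok TB_l5171 _)
              (CovZ.badM (by decide +kernel)))
             (CovZ.leaf K2_ok TB_l5174 _))))
          (CovZ.badM (by decide +kernel)))))))
     (CovZ.n1 (-30336, 36480) (by decide +kernel)
      TB_u545
      TB_u546))))

theorem TB_s2_26 : SqZ TB_M TB_L [0, 7, 6, 1] (-32256) (-4608) 1536 2 26 :=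
  SqZ.mk (a := (-29184)) (b := (-27648)) (c := 35328) (d := 36864) (by norm_num) (by norm_num) (by norm_num) (by norm_num)
    (CovZ.topM TB_LL 5043456793138493339171717132834328964652041523698219635823420621511157946681833071254141644515663932814656045348814848 (by decide +kernel) (CovZ.n2 (-28416, 36096) (by decide +kernel)
    (CovZ.n2 (-27648, 36096) (by decide +kernel)
     (CovZ.n2 (-28032, 35712) (by decide +kernel)
      (CovZ.n2 (-28032, 36096) (by decide +kernel)
       (CovZ.n2 (-27840, 35904) (by decide +kernel)
        (CovZ.leaf K2_ok TB_l8307 _)
        (CovZ.n1 (-27840, 36096) (by decide +kernel)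
         (CovZ.leaf K2_ok TB_l8308 _)
         (CovZ.leaf K2_ok TB_l8309 _)))
       (CovZ.n1 (-28224, 35904) (by decide +kernel)
        (CovZ.n2 (-28224, 36096) (by decide +kernel)
         (CovZ.leaf K2_ok TB_l8310 _)
         (CovZ.leaf K2_ok TB_l8311 _))
        (CovZ.leaf K2_ok TB_l8312 _)))
      (CovZ.n1 (-27648, 35712) (by decide +kernel)
       (CovZ.leaf K2_ok TB_l8313 _)
       (CovZ.n1 (-27840, 35904) (by decide +kernel)
        (CovZ.n2 (-27648, 35904) (by decide +kernel)
         (CovZ.leaf K2_ok TB_l8314 _)
         (CovZ.leaf K2_ok TB_l8315 _))
        (CovZ.leaf K2_ok TB_l8316 _))))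
     (CovZ.n1 (-28032, 36480) (by decide +kernel)
      (CovZ.subM 5043456793138493339171717132834296910615319799168549412020098051911491155051530222129388716706653380729004766041210880 (by decide +kernel)
       (CovZ.n2 (-27648, 36480) (by decide +kernel)
        (CovZ.n2 (-27840, 36288) (by decide +kernel)
         (CovZ.n2 (-27840, 36480) (by decide +kernel)
          (CovZ.n2 (-27744, 36384) (by decide +kernel)
           (CovZ.subM 5043456793138493339171717132818382567050206626619577180079399785028276555371519688490428100556212664557567836690579456 (by decide +kernel)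
            (CovZ.n2 (-27840, 36384) (by decide +kernel)
             (CovZ.n2 (-27792, 36432) (by decide +kernel)
              (CovZ.n2 (-27792, 36384) (by decide +kernel)
               (CovZ.n2 (-27816, 36408) (by decide +kernel)
                (CovZ.n2 (-27792, 36408) (by decide +kernel)
                 (CovZ.leaf K2_ok TB_l8317 _)
                 (CovZ.badM (by decide +kernel)))
                (CovZ.leaf K2_ok TB_l8318 _))
               (CovZ.n1 (-27768, 36408) (by decide +kernel)
                (CovZ.leaf K2_ok TB_l8319 _)
                (CovZ.leaf K2_ok TB_l8320 _)))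
              (CovZ.n1 (-27840, 36432) (by decide +kernel)
               (CovZ.badM (by decide +kernel))
               (CovZ.n1 (-27816, 36408) (by decide +kernel)
                (CovZ.leaf K2_ok TB_l8321 _)
                (CovZ.badM (by decide +kernel)))))
             (CovZ.n1 (-27792, 36336) (by decide +kernel)
              (CovZ.leaf K2_ok TB_l8322 _)
              (CovZ.n1 (-27792, 36384) (by decide +kernel)
               (CovZ.n2 (-27768, 36360) (by decide +kernel)
                (CovZ.leaf K2_ok TB_l8323 _)
                (CovZ.leaf K2_ok TB_l8324 _))
               (CovZ.n1 (-27816, 36360) (by decide +kernel)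
                (CovZ.leaf K2_ok TB_l8325 _)
                (CovZ.leaf K2_ok TB_l8326 _))))))
           (CovZ.subM 6582018229284824171474372115641321782047515401433309726160191488 (by decide +kernel)
            (CovZ.n1 (-27744, 36480) (by decide +kernel)
             (CovZ.n2 (-27696, 36432) (by decide +kernel)
              (CovZ.n2 (-27744, 36432) (by decide +kernel)
               (CovZ.badM (by decide +kernel))
               (CovZ.n1 (-27720, 36408) (by decide +kernel)
                (CovZ.n2 (-27744, 36408) (by decide +kernel)
                 (CovZ.badM (by decide +kernel))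
                 (CovZ.leaf K2_ok TB_l8327 _))
                (CovZ.badM (by decide +kernel))))
              (CovZ.badM (by decide +kernel)))
             (CovZ.n1 (-27792, 36432) (by decide +kernel)
              (CovZ.badM (by decide +kernel))
              (CovZ.n1 (-27744, 36432) (by decide +kernel)
               (CovZ.n2 (-27768, 36408) (by decide +kernel)
                (CovZ.badM (by decide +kernel))
                (CovZ.n1 (-27744, 36408) (by decide +kernel)
                 (CovZ.leaf K2_ok TB_l8328 _)
                 (CovZ.badM (by decide +kernel))))
               (CovZ.badM (by decide +kernel)))))))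
          (CovZ.subM 5043456793138493339171717132818382567050206626619577180079399785028276555371519709758076033114866631018480801176092672 (by decide +kernel)
           (CovZ.n1 (-27936, 36384) (by decide +kernel)
            (CovZ.n2 (-27936, 36480) (by decide +kernel)
             (CovZ.n2 (-27888, 36432) (by decide +kernel)
              (CovZ.n2 (-27936, 36432) (by decide +kernel)
               (CovZ.badM (by decide +kernel))
               (CovZ.n1 (-27912, 36408) (by decide +kernel)
                (CovZ.leaf K2_ok TB_l8330 _)
                (CovZ.badM (by decide +kernel))))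
              (CovZ.badM (by decide +kernel)))
             (CovZ.n1 (-27984, 36432) (by decide +kernel)
              (CovZ.badM (by decide +kernel))
              (CovZ.n1 (-27936, 36432) (by decide +kernel)
               (CovZ.n2 (-27960, 36408) (by decide +kernel)
                (CovZ.badM (by decide +kernel))
                (CovZ.leaf K2_ok TB_l8333 _))
               (CovZ.badM (by decide +kernel)))))
            (CovZ.n1 (-27840, 36384) (by decide +kernel)
             (CovZ.n2 (-27888, 36336) (by decide +kernel)
              (CovZ.n2 (-27888, 36384) (by decide +kernel)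
               (CovZ.leaf K2_ok TB_l8334 _)
               (CovZ.leaf K2_ok TB_l8335 _))
              (CovZ.leaf K2_ok TB_l8336 _))
             (CovZ.n1 (-27888, 36432) (by decide +kernel)
              (CovZ.n2 (-27840, 36432) (by decide +kernel)
               (CovZ.n2 (-27864, 36408) (by decide +kernel)
                (CovZ.badM (by decide +kernel))
                (CovZ.leaf K2_ok TB_l8339 _))
               (CovZ.badM (by decide +kernel)))
              (CovZ.n1 (-27888, 36384) (by decide +kernel)
               (CovZ.n2 (-27912, 36408) (by decide +kernel)
                (CovZ.leaf K2_ok TB_l8340 _)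
                (CovZ.leaf K2_ok TB_l8341 _))
               (CovZ.leaf K2_ok TB_l8342 _)))))))
         (CovZ.n1 (-27648, 36288) (by decide +kernel)
          (CovZ.n2 (-27744, 36192) (by decide +kernel)
           (CovZ.n2 (-27744, 36288) (by decide +kernel)
            (CovZ.leaf K2_ok TB_l8343 _)
            (CovZ.leaf K2_ok TB_l8344 _))
           (CovZ.n1 (-27648, 36192) (by decide +kernel)
            (CovZ.leaf K2_ok TB_l8345 _)
            (CovZ.leaf K2_ok TB_l8346 _)))
          (CovZ.n1 (-27744, 36384) (by decide +kernel)
           (CovZ.n2 (-27648, 36384) (by decide +kernel)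
            (CovZ.n2 (-27696, 36336) (by decide +kernel)
             (CovZ.subM 5043456793138493339171717132818382567050206626619577180079399785028276558226015073902347862672784603456558108919463936 (by decide +kernel)
              (CovZ.n2 (-27696, 36384) (by decide +kernel)
               (CovZ.n2 (-27672, 36360) (by decide +kernel)
                (CovZ.leaf K2_ok TB_l8347 _)
                (CovZ.leaf K2_ok TB_l8348 _))
               (CovZ.n1 (-27720, 36360) (by decide +kernel)
                (CovZ.leaf K2_ok TB_l8349 _)
                (CovZ.leaf K2_ok TB_l8350 _))))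
             (CovZ.n1 (-27648, 36336) (by decide +kernel)
              (CovZ.leaf K2_ok TB_l8351 _)
              (CovZ.leaf K2_ok TB_l8352 _)))
            (CovZ.subM 5043456793138493339171717132818382567050206626619577180079399785028276558226015073902347862672784603456558108919463936 (by decide +kernel)
             (CovZ.n1 (-27696, 36432) (by decide +kernel)
              (CovZ.n2 (-27648, 36432) (by decide +kernel)
               (CovZ.n2 (-27672, 36408) (by decide +kernel)
                (CovZ.badM (by decide +kernel))
                (CovZ.n1 (-27648, 36408) (by decide +kernel)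
                 (CovZ.leaf K2_ok TB_l8353 _)
                 (CovZ.badM (by decide +kernel))))
               (CovZ.badM (by decide +kernel)))
              (CovZ.n1 (-27696, 36384) (by decide +kernel)
               (CovZ.n2 (-27720, 36408) (by decide +kernel)
                (CovZ.n2 (-27696, 36408) (by decide +kernel)
                 (CovZ.leaf K2_ok TB_l8354 _)
                 (CovZ.badM (by decide +kernel)))
                (CovZ.leaf K2_ok TB_l8355 _))
               (CovZ.n1 (-27672, 36408) (by decide +kernel)
                (CovZ.leaf K2_ok TB_l8356 _)
                (CovZ.n1 (-27696, 36408) (by decide +kernel)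
                 (CovZ.badM (by decide +kernel))
                 (CovZ.leaf K2_ok TB_l8357 _)))))))
           (CovZ.n1 (-27744, 36288) (by decide +kernel)
            (CovZ.n2 (-27792, 36336) (by decide +kernel)
             (CovZ.leaf K2_ok TB_l8358 _)
             (CovZ.leaf K2_ok TB_l8359 _))
            (CovZ.n1 (-27696, 36336) (by decide +kernel)
             (CovZ.leaf K2_ok TB_l8360 _)
             (CovZ.leaf K2_ok TB_l8361 _))))))
        (CovZ.subM 2854495385411919762116571938898990272765755392 (by decide +kernel)
         (CovZ.n1 (-27840, 36672) (by decide +kernel)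
          (CovZ.badM (by decide +kernel))
          (CovZ.n1 (-27840, 36480) (by decide +kernel)
           (CovZ.badM (by decide +kernel))
           (CovZ.n1 (-27744, 36576) (by decide +kernel)
            (CovZ.n2 (-27744, 36480) (by decide +kernel)
             (CovZ.badM (by decide +kernel))
             (CovZ.badM (by decide +kernel)))
            (CovZ.badM (by decide +kernel))))))))
      (CovZ.n1 (-28032, 36096) (by decide +kernel)
       (CovZ.subM 5043456793138493339171717132834296910615319799168549464701954894898234191666047568051185587693871842504024582966476800 (by decide +kernel)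
        (CovZ.n2 (-28224, 36288) (by decide +kernel)
         (CovZ.subM 5043456793138493339171717132834296910615319799168549412045809060619634996694909210987751974581945855914000000581894144 (by decide +kernel)
          (CovZ.n2 (-28032, 36288) (by decide +kernel)
           (CovZ.n2 (-28128, 36192) (by decide +kernel)
            (CovZ.n2 (-28128, 36288) (by decide +kernel)
             (CovZ.leaf K2_ok TB_l8362 _)
             (CovZ.leaf K2_ok TB_l8363 _))
            (CovZ.leaf K2_ok TB_l8364 _))
           (CovZ.n1 (-28128, 36384) (by decide +kernel)
            (CovZ.subM 6582018229284824168619876751497049952489597428995232418416820224 (by decide +kernel)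
             (CovZ.n2 (-28032, 36384) (by decide +kernel)
              (CovZ.n2 (-28080, 36336) (by decide +kernel)
               (CovZ.n2 (-28080, 36384) (by decide +kernel)
                (CovZ.leaf K2_ok TB_l8365 _)
                (CovZ.leaf K2_ok TB_l8366 _))
               (CovZ.leaf K2_ok TB_l8367 _))
              (CovZ.n1 (-28080, 36432) (by decide +kernel)
               (CovZ.n2 (-28032, 36432) (by decide +kernel)
                (CovZ.n2 (-28056, 36408) (by decide +kernel)
                 (CovZ.n2 (-28056, 36432) (by decide +kernel)
                  (CovZ.leaf K2_ok TB_l8368 _)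
                  (CovZ.leaf K2_ok TB_l39198 _))
                 (CovZ.leaf K2_ok TB_l8369 _))
                (CovZ.n1 (-28056, 36456) (by decide +kernel)
                 (CovZ.badM (by decide +kernel))
                 (CovZ.leaf K2_ok TB_l8370 _)))
               (CovZ.leaf K2_ok TB_l8371 _))))
            (CovZ.leaf K2_ok TB_l8372 _))))
         (CovZ.n1 (-28224, 36096) (by decide +kernel)
          (CovZ.n2 (-28320, 36192) (by decide +kernel)
           (CovZ.leaf K2_ok TB_l8373 _)
           (CovZ.leaf K2_ok TB_l8374 _))
          (CovZ.leaf K2_ok TB_l8375 _))))
       (CovZ.subM 5043456793138493339171717132834296910615319799168549412045809060619634999549404596400969810913151501720122897429954560 (by decide +kernel)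
        (CovZ.n1 (-27840, 36288) (by decide +kernel)
         (CovZ.n2 (-27840, 36096) (by decide +kernel)
          (CovZ.n2 (-27936, 36192) (by decide +kernel)
           (CovZ.leaf K2_ok TB_l8376 _)
           (CovZ.leaf K2_ok TB_l8377 _))
          (CovZ.n1 (-27744, 36192) (by decide +kernel)
           (CovZ.leaf K2_ok TB_l8378 _)
           (CovZ.leaf K2_ok TB_l8379 _)))
         (CovZ.n1 (-28032, 36288) (by decide +kernel)
          (CovZ.subM 5043456793138493339171717132818382567050206626619577180079399785028276555371519709758076033114866631018480801176092672 (by decide +kernel)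
           (CovZ.n2 (-27936, 36384) (by decide +kernel)
            (CovZ.n2 (-27936, 36288) (by decide +kernel)
             (CovZ.leaf K2_ok TB_l8380 _)
             (CovZ.leaf K2_ok TB_l8381 _))
            (CovZ.n1 (-28032, 36384) (by decide +kernel)
             (CovZ.n2 (-27984, 36432) (by decide +kernel)
              (CovZ.leaf K2_ok TB_l8382 _)
              (CovZ.n1 (-28032, 36432) (by decide +kernel)
               (CovZ.badM (by decide +kernel))
               (CovZ.n1 (-28008, 36408) (by decide +kernel)
                (CovZ.leaf K2_ok TB_l8384 _)
                (CovZ.n1 (-28008, 36432) (by decide +kernel)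
                 (CovZ.badM (by decide +kernel))
                 (CovZ.leaf K2_ok TB_l8386 _)))))
             (CovZ.n1 (-27984, 36336) (by decide +kernel)
              (CovZ.leaf K2_ok TB_l8387 _)
              (CovZ.n1 (-27984, 36384) (by decide +kernel)
               (CovZ.leaf K2_ok TB_l8388 _)
               (CovZ.leaf K2_ok TB_l8389 _))))))
          (CovZ.n1 (-27936, 36192) (by decide +kernel)
           (CovZ.leaf K2_ok TB_l8390 _)
           (CovZ.n1 (-27936, 36288) (by decide +kernel)
            (CovZ.leaf K2_ok TB_l8391 _)
            (CovZ.leaf K2_ok TB_l8392 _)))))))))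
    (CovZ.n1 (-28416, 35328) (by decide +kernel)
     (CovZ.n2 (-28800, 35712) (by decide +kernel)
      (CovZ.n2 (-28416, 35712) (by decide +kernel)
       (CovZ.leaf K2_ok TB_l8393 _)
       (CovZ.n1 (-28608, 35904) (by decide +kernel)
        (CovZ.leaf K2_ok TB_l8394 _)
        (CovZ.leaf K2_ok TB_l8395 _)))
      (CovZ.leaf K2_ok TB_l8396 _))
     (CovZ.n1 (-28032, 35712) (by decide +kernel)
      (CovZ.leaf K2_ok TB_l8397 _)
      (CovZ.n1 (-28416, 35712) (by decide +kernel)
       (CovZ.leaf K2_ok TB_l8398 _)
       (CovZ.leaf K2_ok TB_l8399 _))))))
    (CovZ.topM TB_LL 5043456793138493339171717132834328964652041523698219635823420621511157946681833071252843570301030225907523421266509824 (by decide +kernel) (CovZ.n0 (-28416, 36096) (by decide +kernel)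
    (CovZ.n2 (-29184, 36096) (by decide +kernel)
     (CovZ.n2 (-28800, 36480) (by decide +kernel)
      (CovZ.n2 (-28800, 36096) (by decide +kernel)
       (CovZ.n2 (-28992, 36288) (by decide +kernel)
        (CovZ.subM 15914343565113172548972291178862330446637960416530235518578412862104519489658068281589760 (by decide +kernel)
         (CovZ.n2 (-28800, 36288) (by decide +kernel)
          (CovZ.n2 (-28896, 36192) (by decide +kernel)
           (CovZ.leaf K2_ok TB_l8400 _)
           (CovZ.leaf K2_ok TB_l8401 _))
          (CovZ.n1 (-28896, 36384) (by decide +kernel)
           (CovZ.n2 (-28800, 36384) (by decide +kernel)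
            (CovZ.leaf K2_ok TB_l8402 _)
            (CovZ.leaf K2_ok TB_l8403 _))
           (CovZ.leaf K2_ok TB_l8404 _))))
        (CovZ.leaf K2_ok TB_l8405 _))
       (CovZ.subM 5043456793138493339171717132834296910615319799168549464701954894898234191666047568051185587693871842504024582429605888 (by decide +kernel)
        (CovZ.n1 (-28608, 36288) (by decide +kernel)
         (CovZ.leaf K2_ok TB_l8406 _)
         (CovZ.n1 (-28800, 36288) (by decide +kernel)
          (CovZ.n2 (-28704, 36384) (by decide +kernel)
           (CovZ.leaf K2_ok TB_l8407 _)
           (CovZ.n1 (-28800, 36384) (by decide +kernel)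
            (CovZ.leaf K2_ok TB_l8408 _)
            (CovZ.leaf K2_ok TB_l8409 _)))
          (CovZ.n1 (-28704, 36192) (by decide +kernel)
           (CovZ.leaf K2_ok TB_l8410 _)
           (CovZ.leaf K2_ok TB_l8411 _))))))
      (CovZ.n1 (-29184, 36480) (by decide +kernel)
       (CovZ.subM 971334446112864535459730953411759549780317058557278906708030211565314830225649958912 (by decide +kernel)
        (CovZ.n2 (-28992, 36672) (by decide +kernel)
         (CovZ.n2 (-28992, 36480) (by decide +kernel)
          (CovZ.n2 (-29088, 36576) (by decide +kernel)
           (CovZ.badM (by decide +kernel))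
           (CovZ.n1 (-29088, 36480) (by decide +kernel)
            (CovZ.n2 (-29136, 36528) (by decide +kernel)
             (CovZ.n2 (-29088, 36528) (by decide +kernel)
              (CovZ.leaf K2_ok TB_l8421 _)
              (CovZ.n1 (-29112, 36552) (by decide +kernel)
               (CovZ.badM (by decide +kernel))
               (CovZ.leaf K2_ok TB_l8423 _)))
             (CovZ.leaf K2_ok TB_l8424 _))
            (CovZ.n1 (-29040, 36528) (by decide +kernel)
             (CovZ.leaf K2_ok TB_l8425 _)
             (CovZ.n1 (-29088, 36528) (by decide +kernel)
              (CovZ.badM (by decide +kernel))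
              (CovZ.leaf K2_ok TB_l8427 _)))))
          (CovZ.n1 (-28896, 36576) (by decide +kernel)
           (CovZ.n2 (-28896, 36480) (by decide +kernel)
            (CovZ.badM (by decide +kernel))
            (CovZ.n1 (-28848, 36528) (by decide +kernel)
             (CovZ.leaf K2_ok TB_l8432 _)
             (CovZ.badM (by decide +kernel))))
           (CovZ.badM (by decide +kernel))))
         (CovZ.n1 (-29184, 36672) (by decide +kernel)
          (CovZ.badM (by decide +kernel))
          (CovZ.n1 (-29088, 36576) (by decide +kernel)
           (CovZ.n2 (-29184, 36576) (by decide +kernel)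
            (CovZ.n2 (-29136, 36624) (by decide +kernel)
             (CovZ.n2 (-29136, 36576) (by decide +kernel)
              (CovZ.n2 (-29160, 36600) (by decide +kernel)
               (CovZ.badM (by decide +kernel))
               (CovZ.leaf K2_ok TB_l39199 _))
              (CovZ.badM (by decide +kernel)))
             (CovZ.n1 (-29184, 36624) (by decide +kernel)
              (CovZ.badM (by decide +kernel))
              (CovZ.n1 (-29160, 36600) (by decide +kernel)
               (CovZ.n2 (-29184, 36600) (by decide +kernel)
                (CovZ.badM (by decide +kernel))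
                (CovZ.leaf K2_ok TB_l39200 _))
               (CovZ.badM (by decide +kernel)))))
            (CovZ.n1 (-29136, 36528) (by decide +kernel)
             (CovZ.leaf K2_ok TB_l8447 _)
             (CovZ.n1 (-29136, 36576) (by decide +kernel)
              (CovZ.n2 (-29112, 36552) (by decide +kernel)
               (CovZ.leaf K2_ok TB_l8448 _)
               (CovZ.badM (by decide +kernel)))
              (CovZ.n1 (-29160, 36552) (by decide +kernel)
               (CovZ.leaf K2_ok TB_l8451 _)
               (CovZ.leaf K2_ok TB_l8452 _)))))
           (CovZ.n1 (-29088, 36672) (by decide +kernel)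
            (CovZ.badM (by decide +kernel))
            (CovZ.n1 (-29136, 36624) (by decide +kernel)
             (CovZ.badM (by decide +kernel))
             (CovZ.badM (by decide +kernel))))))))
       (CovZ.n1 (-28992, 36288) (by decide +kernel)
        (CovZ.n2 (-29184, 36288) (by decide +kernel)
         (CovZ.n2 (-29088, 36384) (by decide +kernel)
          (CovZ.leaf K2_ok TB_l8453 _)
          (CovZ.leaf K2_ok TB_l8454 _))
         (CovZ.leaf K2_ok TB_l8455 _))
        (CovZ.subM 15915314899559285413507750909815742206187740728013601180940481967268663621097962433675264 (by decide +kernel)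
         (CovZ.n1 (-28992, 36480) (by decide +kernel)
          (CovZ.n2 (-28896, 36384) (by decide +kernel)
           (CovZ.n2 (-28992, 36384) (by decide +kernel)
            (CovZ.leaf K2_ok TB_l8456 _)
            (CovZ.leaf K2_ok TB_l8457 _))
           (CovZ.n1 (-28896, 36480) (by decide +kernel)
            (CovZ.n2 (-28848, 36432) (by decide +kernel)
             (CovZ.leaf K2_ok TB_l8458 _)
             (CovZ.n1 (-28848, 36480) (by decide +kernel)
              (CovZ.leaf K2_ok TB_l8459 _)
              (CovZ.leaf K2_ok TB_l8460 _)))
            (CovZ.n1 (-28944, 36432) (by decide +kernel)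
             (CovZ.n2 (-28944, 36480) (by decide +kernel)
              (CovZ.leaf K2_ok TB_l8461 _)
              (CovZ.leaf K2_ok TB_l8462 _))
             (CovZ.leaf K2_ok TB_l8463 _))))
          (CovZ.n1 (-29088, 36384) (by decide +kernel)
           (CovZ.n2 (-29088, 36480) (by decide +kernel)
            (CovZ.n2 (-29040, 36432) (by decide +kernel)
             (CovZ.leaf K2_ok TB_l8464 _)
             (CovZ.leaf K2_ok TB_l8465 _))
            (CovZ.n1 (-29136, 36432) (by decide +kernel)
             (CovZ.leaf K2_ok TB_l8466 _)
             (CovZ.leaf K2_ok TB_l8467 _)))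
           (CovZ.n1 (-28992, 36384) (by decide +kernel)
            (CovZ.leaf K2_ok TB_l8468 _)
            (CovZ.leaf K2_ok TB_l8469 _))))))))
     (CovZ.n1 (-28800, 35712) (by decide +kernel)
      (CovZ.n2 (-29184, 35712) (by decide +kernel)
       (CovZ.leaf K2_ok TB_l8470 _)
       (CovZ.leaf K2_ok TB_l8471 _))
      (CovZ.n1 (-28800, 36096) (by decide +kernel)
       (CovZ.n2 (-28608, 35904) (by decide +kernel)
        (CovZ.leaf K2_ok TB_l8472 _)
        (CovZ.n1 (-28608, 36096) (by decide +kernel)
         (CovZ.leaf K2_ok TB_l8473 _)
         (CovZ.leaf K2_ok TB_l8474 _)))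
       (CovZ.n1 (-28992, 35904) (by decide +kernel)
        (CovZ.n2 (-28992, 36096) (by decide +kernel)
         (CovZ.leaf K2_ok TB_l8475 _)
         (CovZ.leaf K2_ok TB_l8476 _))
        (CovZ.leaf K2_ok TB_l8477 _)))))
    (CovZ.n1 (-28416, 36864) (by decide +kernel)
     TB_u547
     TB_u548)))

theorem TB_s3_26 : SqZ TB_M TB_L [0, 7, 6, 1] (-32256) (-4608) 1536 3 26 :=
  SqZ.mk (a := (-27648)) (b := (-26112)) (c := 35328) (d := 36864) (by norm_num) (by norm_num) (by norm_num) (by norm_num)
    (CovZ.topM TB_LL 5043456793138493409163740325890678490535391066932433103347233987753301023895430422489128164967649156570282231201005568 (by decide +kernel) (CovZ.n2 (-26880, 36096) (by decide +kernel)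
    TB_u549
    TB_u550))
    (CovZ.topM TB_LL 5043456793138493409163740325890678490535391066932433103347233987753301023895430422489128164967649156570282231201005568 (by decide +kernel) (CovZ.n0 (-26880, 36096) (by decide +kernel)
    (CovZ.n2 (-27648, 36096) (by decide +kernel)
     (CovZ.subM 5043456793138493339171717132834296910615319799168549412020098051911491155051530200861740784147999414268091801555697664 (by decide +kernel)
      (CovZ.n2 (-27264, 36480) (by decide +kernel)
       (CovZ.n2 (-27264, 36096) (by decide +kernel)
        (CovZ.n2 (-27456, 36288) (by decide +kernel)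
         (CovZ.subM 2854495385411919762116571938898990272765755392 (by decide +kernel)
          (CovZ.n2 (-27264, 36288) (by decide +kernel)
           (CovZ.n2 (-27360, 36192) (by decide +kernel)
            (CovZ.n2 (-27360, 36288) (by decide +kernel)
             (CovZ.n2 (-27312, 36240) (by decide +kernel)
              (CovZ.leaf K2_ok TB_l11762 _)
              (CovZ.badM (by decide +kernel)))
             (CovZ.n1 (-27408, 36240) (by decide +kernel)
              (CovZ.badM (by decide +kernel))
              (CovZ.leaf K2_ok TB_l11766 _)))
            (CovZ.n1 (-27264, 36192) (by decide +kernel)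
             (CovZ.leaf K2_ok TB_l11767 _)
             (CovZ.leaf K2_ok TB_l11768 _)))
           (CovZ.badM (by decide +kernel))))
         (CovZ.n1 (-27456, 36096) (by decide +kernel)
          (CovZ.n2 (-27552, 36192) (by decide +kernel)
           (CovZ.n2 (-27456, 36192) (by decide +kernel)
            (CovZ.leaf K2_ok TB_l11774 _)
            (CovZ.leaf K2_ok TB_l11775 _))
           (CovZ.leaf K2_ok TB_l11776 _))
          (CovZ.n1 (-27360, 36192) (by decide +kernel)
           (CovZ.leaf K2_ok TB_l11777 _)
           (CovZ.n1 (-27456, 36192) (by decide +kernel)
            (CovZ.leaf K2_ok TB_l11778 _)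
            (CovZ.leaf K2_ok TB_l11779 _)))))
        (CovZ.subM 2854495385411919762116571938898990272765755392 (by decide +kernel)
         (CovZ.n1 (-27072, 36288) (by decide +kernel)
          (CovZ.n2 (-27072, 36096) (by decide +kernel)
           (CovZ.n2 (-27168, 36192) (by decide +kernel)
            (CovZ.badM (by decide +kernel))
            (CovZ.leaf K2_ok TB_l11780 _))
           (CovZ.badM (by decide +kernel)))
          (CovZ.n1 (-27264, 36288) (by decide +kernel)
           (CovZ.badM (by decide +kernel))
           (CovZ.n1 (-27168, 36192) (by decide +kernel)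
            (CovZ.n2 (-27264, 36192) (by decide +kernel)
             (CovZ.badM (by decide +kernel))
             (CovZ.n1 (-27216, 36144) (by decide +kernel)
              (CovZ.leaf K2_ok TB_l11786 _)
              (CovZ.badM (by decide +kernel))))
            (CovZ.badM (by decide +kernel)))))))
       (CovZ.n1 (-27648, 36480) (by decide +kernel)
        (CovZ.subM 5043456793138493339171717132818382567050206626619577173497381555743452386751642958262324154839902908930381006841577472 (by decide +kernel)
         (CovZ.n2 (-27456, 36672) (by decide +kernel)
          (CovZ.n2 (-27456, 36480) (by decide +kernel)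
           (CovZ.n2 (-27552, 36576) (by decide +kernel)
            (CovZ.badM (by decide +kernel))
            (CovZ.n1 (-27552, 36480) (by decide +kernel)
             (CovZ.n2 (-27600, 36528) (by decide +kernel)
              (CovZ.badM (by decide +kernel))
              (CovZ.n1 (-27600, 36480) (by decide +kernel)
               (CovZ.badM (by decide +kernel))
               (CovZ.badM (by decide +kernel))))
             (CovZ.badM (by decide +kernel))))
           (CovZ.badM (by decide +kernel)))
          (CovZ.badM (by decide +kernel))))
        (CovZ.n1 (-27456, 36288) (by decide +kernel)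
         (CovZ.n2 (-27648, 36288) (by decide +kernel)
          (CovZ.n2 (-27552, 36384) (by decide +kernel)
           (CovZ.n2 (-27552, 36288) (by decide +kernel)
            (CovZ.n2 (-27600, 36336) (by decide +kernel)
             (CovZ.n2 (-27552, 36336) (by decide +kernel)
              (CovZ.leaf K2_ok TB_l11789 _)
              (CovZ.n1 (-27576, 36360) (by decide +kernel)
               (CovZ.badM (by decide +kernel))
               (CovZ.leaf K2_ok TB_l11790 _)))
             (CovZ.leaf K2_ok TB_l11791 _))
            (CovZ.n1 (-27504, 36336) (by decide +kernel)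
             (CovZ.leaf K2_ok TB_l11792 _)
             (CovZ.n1 (-27552, 36336) (by decide +kernel)
              (CovZ.badM (by decide +kernel))
              (CovZ.leaf K2_ok TB_l11793 _))))
           (CovZ.n1 (-27648, 36384) (by decide +kernel)
            (CovZ.subM 5043456793138493339171717132818382567050206626619577180079399785028276555371519688491726174770846371464700460236275712 (by decide +kernel)
             (CovZ.n2 (-27600, 36432) (by decide +kernel)
              (CovZ.n2 (-27600, 36384) (by decide +kernel)
               (CovZ.n2 (-27624, 36408) (by decide +kernel)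
                (CovZ.badM (by decide +kernel))
                (CovZ.leaf K2_ok TB_l11794 _))
               (CovZ.badM (by decide +kernel)))
              (CovZ.n1 (-27648, 36432) (by decide +kernel)
               (CovZ.badM (by decide +kernel))
               (CovZ.n1 (-27624, 36408) (by decide +kernel)
                (CovZ.n2 (-27648, 36408) (by decide +kernel)
                 (CovZ.badM (by decide +kernel))
                 (CovZ.leaf K2_ok TB_l11795 _))
                (CovZ.badM (by decide +kernel))))))
            (CovZ.n1 (-27600, 36336) (by decide +kernel)
             (CovZ.leaf K2_ok TB_l11796 _)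
             (CovZ.n1 (-27600, 36384) (by decide +kernel)
              (CovZ.n2 (-27576, 36360) (by decide +kernel)
               (CovZ.leaf K2_ok TB_l11797 _)
               (CovZ.badM (by decide +kernel)))
              (CovZ.n1 (-27624, 36360) (by decide +kernel)
               (CovZ.leaf K2_ok TB_l11798 _)
               (CovZ.leaf K2_ok TB_l11799 _))))))
          (CovZ.n1 (-27552, 36192) (by decide +kernel)
           (CovZ.leaf K2_ok TB_l11800 _)
           (CovZ.n1 (-27552, 36288) (by decide +kernel)
            (CovZ.n2 (-27504, 36240) (by decide +kernel)
             (CovZ.leaf K2_ok TB_l11801 _)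
             (CovZ.leaf K2_ok TB_l11802 _))
            (CovZ.n1 (-27600, 36240) (by decide +kernel)
             (CovZ.leaf K2_ok TB_l11803 _)
             (CovZ.leaf K2_ok TB_l11804 _)))))
         (CovZ.subM 5043456793138493339171717132818382567050206626619577180079399785028276555371519688491726174770846371464700460236013568 (by decide +kernel)
          (CovZ.n1 (-27456, 36480) (by decide +kernel)
           (CovZ.badM (by decide +kernel))
           (CovZ.n1 (-27552, 36384) (by decide +kernel)
            (CovZ.n2 (-27552, 36480) (by decide +kernel)
             (CovZ.badM (by decide +kernel))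
             (CovZ.n1 (-27600, 36432) (by decide +kernel)
              (CovZ.n2 (-27600, 36480) (by decide +kernel)
               (CovZ.badM (by decide +kernel))
               (CovZ.badM (by decide +kernel)))
              (CovZ.badM (by decide +kernel))))
            (CovZ.badM (by decide +kernel)))))))))
     (CovZ.n1 (-27264, 35712) (by decide +kernel)
      (CovZ.n2 (-27648, 35712) (by decide +kernel)
       (CovZ.n2 (-27456, 35904) (by decide +kernel)
        (CovZ.leaf K2_ok TB_l11807 _)
        (CovZ.leaf K2_ok TB_l11808 _))
       (CovZ.n1 (-27456, 35520) (by decide +kernel)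
        (CovZ.leaf K2_ok TB_l11809 _)
        (CovZ.leaf K2_ok TB_l11810 _)))
      (CovZ.n1 (-27264, 36096) (by decide +kernel)
       (CovZ.subM 15914343565113172548972231966409275591358444177884886641920222137309590521292628192133120 (by decide +kernel)
        (CovZ.n2 (-27072, 35904) (by decide +kernel)
         (CovZ.n2 (-27264, 35904) (by decide +kernel)
          (CovZ.leaf K2_ok TB_l11811 _)
          (CovZ.n1 (-27168, 35808) (by decide +kernel)
           (CovZ.leaf K2_ok TB_l11812 _)
           (CovZ.leaf K2_ok TB_l11813 _)))
         (CovZ.n1 (-27072, 36096) (by decide +kernel)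
          (CovZ.n2 (-26976, 36000) (by decide +kernel)
           (CovZ.n2 (-27072, 36000) (by decide +kernel)
            (CovZ.n2 (-27024, 36048) (by decide +kernel)
             (CovZ.leaf K2_ok TB_l11814 _)
             (CovZ.leaf K2_ok TB_l11815 _))
            (CovZ.n1 (-27024, 35952) (by decide +kernel)
             (CovZ.leaf K2_ok TB_l11816 _)
             (CovZ.leaf K2_ok TB_l11817 _)))
           (CovZ.badM (by decide +kernel)))
          (CovZ.n1 (-27168, 36000) (by decide +kernel)
           (CovZ.n2 (-27168, 36096) (by decide +kernel)
            (CovZ.n2 (-27120, 36048) (by decide +kernel)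
             (CovZ.leaf K2_ok TB_l11823 _)
             (CovZ.leaf K2_ok TB_l11824 _))
            (CovZ.leaf K2_ok TB_l11825 _))
           (CovZ.n1 (-27072, 36000) (by decide +kernel)
            (CovZ.leaf K2_ok TB_l11826 _)
            (CovZ.leaf K2_ok TB_l11827 _))))))
       (CovZ.n1 (-27456, 35904) (by decide +kernel)
        (CovZ.subM 5043456793138493339171717132834296910615319799168549412045809060619634999460201594339199385788354662168616486920519680 (by decide +kernel)
         (CovZ.n2 (-27456, 36096) (by decide +kernel)
          (CovZ.n2 (-27360, 36000) (by decide +kernel)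
           (CovZ.leaf K2_ok TB_l11828 _)
           (CovZ.leaf K2_ok TB_l11829 _))
          (CovZ.n1 (-27552, 36000) (by decide +kernel)
           (CovZ.leaf K2_ok TB_l11830 _)
           (CovZ.leaf K2_ok TB_l11831 _))))
        (CovZ.n1 (-27264, 35904) (by decide +kernel)
         (CovZ.leaf K2_ok TB_l11832 _)
         (CovZ.leaf K2_ok TB_l11833 _))))))
    (CovZ.subM 5043456793138493339171717132818382567050206626619577180079399785028276555371519688491726174770846371464700460236013568 (by decide +kernel)
     (CovZ.n1 (-26880, 36864) (by decide +kernel)
      (CovZ.badM (by decide +kernel))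
      (CovZ.n1 (-27264, 36480) (by decide +kernel)
       (CovZ.n2 (-27264, 36864) (by decide +kernel)
        (CovZ.badM (by decide +kernel))
        (CovZ.n1 (-27456, 36672) (by decide +kernel)
         (CovZ.n2 (-27456, 36864) (by decide +kernel)
          (CovZ.badM (by decide +kernel))
          (CovZ.badM (by decide +kernel)))
         (CovZ.badM (by decide +kernel))))
       (CovZ.badM (by decide +kernel)))))))

end Pool.Agent.TET
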