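import Pool.Agent.Helper38_TET.RegB
import Pool.Agent.Helper38_TET.TB_S0
import Pool.Agent.Helper38_TET.TB_S1
import Pool.Agent.Helper38_TET.TB_S2
import Pool.Agent.Helper38_TET.TB_S3
import Pool.Agent.Helper38_TET.TB_S4
import Pool.Agent.Helper38_TET.TB_S5
import Pool.Agent.Helper38_TET.TB_S6
import Pool.Agent.Helper38_TET.TB_S7
import Pool.Agent.Helper38_TET.TB_S8
import Pool.Agent.Helper38_TET.TB_S9
import Pool.Agent.Helper38_TET.TB_S10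

/-!
# MP_c7c9bf_co: certificates, family TB
-/

set_option autoImplicit false
set_option maxRecDepth 100000

namespace Pool.Agent.TET

theorem TB_r0 : ∀ i < 13, SqZ TB_M TB_L [0, 7, 6, 1] (-32256) (-4608) 1536 i 0
  | 0, _ => TB_s0_0
  | 1, _ => TB_s1_0
  | 2, _ => TB_s2_0
  | 3, _ => TB_s3_0
  | 4, _ => TB_s4_0
  | 5, _ => TB_s5_0
  | 6, _ => TB_s6_0
  | 7, _ => TB_s7_0
  | 8, _ => TB_s8_0
  | 9, _ => TB_s9_0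
  | 10, _ => TB_s10_0
  | 11, _ => TB_s11_0
  | 12, _ => TB_s12_0
  | n + 13, h => absurd h (by omega)

theorem TB_r1 : ∀ i < 13, SqZ TB_M TB_L [0, 7, 6, 1] (-32256) (-4608) 1536 i 1
  | 0, _ => TB_s0_1
  | 1, _ => TB_s1_1
  | 2, _ => TB_s2_1
  | 3, _ => TB_s3_1
  | 4, _ => TB_s4_1
  | 5, _ => TB_s5_1
  | 6, _ => TB_s6_1
  | 7, _ => TB_s7_1
  | 8, _ => TB_s8_1
  | 9, _ => TB_s9_1
  | 10, _ => TB_s10_1
  | 11, _ => TB_s11_1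
  | 12, _ => TB_s12_1
  | n + 13, h => absurd h (by omega)

theorem TB_r2 : ∀ i < 13, SqZ TB_M TB_L [0, 7, 6, 1] (-32256) (-4608) 1536 i 2
  | 0, _ => TB_s0_2
  | 1, _ => TB_s1_2
  | 2, _ => TB_s2_2
  | 3, _ => TB_s3_2
  | 4, _ => TB_s4_2
  | 5, _ => TB_s5_2
  | 6, _ => TB_s6_2
  | 7, _ => TB_s7_2
  | 8, _ => TB_s8_2
  | 9, _ => TB_s9_2
  | 10, _ => TB_s10_2
  | 11, _ => TB_s11_2
  | 12, _ => TB_s12_2
  | n + 13, h => absurd h (by omega)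

theorem TB_r3 : ∀ i < 13, SqZ TB_M TB_L [0, 7, 6, 1] (-32256) (-4608) 1536 i 3
  | 0, _ => TB_s0_3
  | 1, _ => TB_s1_3
  | 2, _ => TB_s2_3
  | 3, _ => TB_s3_3
  | 4, _ => TB_s4_3
  | 5, _ => TB_s5_3
  | 6, _ => TB_s6_3
  | 7, _ => TB_s7_3
  | 8, _ => TB_s8_3
  | 9, _ => TB_s9_3
  | 10, _ => TB_s10_3
  | 11, _ => TB_s11_3
  | 12, _ => TB_s12_3
  | n + 13, h => absurd h (by omega)

theorem TB_r4 : ∀ i < 13, SqZ TB_M TB_L [0, 7, 6, 1] (-32256) (-4608) 1536 i 4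
  | 0, _ => TB_s0_4
  | 1, _ => TB_s1_4
  | 2, _ => TB_s2_4
  | 3, _ => TB_s3_4
  | 4, _ => TB_s4_4
  | 5, _ => TB_s5_4
  | 6, _ => TB_s6_4
  | 7, _ => TB_s7_4
  | 8, _ => TB_s8_4
  | 9, _ => TB_s9_4
  | 10, _ => TB_s10_4
  | 11, _ => TB_s11_4
  | 12, _ => TB_s12_4
  | n + 13, h => absurd h (by omega)

theorem TB_r5 : ∀ i < 13, SqZ TB_M TB_L [0, 7, 6, 1] (-32256) (-4608) 1536 i 5
  | 0, _ => TB_s0_5
  | 1, _ => TB_s1_5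
  | 2, _ => TB_s2_5
  | 3, _ => TB_s3_5
  | 4, _ => TB_s4_5
  | 5, _ => TB_s5_5
  | 6, _ => TB_s6_5
  | 7, _ => TB_s7_5
  | 8, _ => TB_s8_5
  | 9, _ => TB_s9_5
  | 10, _ => TB_s10_5
  | 11, _ => TB_s11_5
  | 12, _ => TB_s12_5
  | n + 13, h => absurd h (by omega)

theorem TB_r6 : ∀ i < 13, SqZ TB_M TB_L [0, 7, 6, 1] (-32256) (-4608) 1536 i 6
  | 0, _ => TB_s0_6
  | 1, _ => TB_s1_6
  | 2, _ => TB_s2_6
  | 3, _ => TB_s3_6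
  | 4, _ => TB_s4_6
  | 5, _ => TB_s5_6
  | 6, _ => TB_s6_6
  | 7, _ => TB_s7_6
  | 8, _ => TB_s8_6
  | 9, _ => TB_s9_6
  | 10, _ => TB_s10_6
  | 11, _ => TB_s11_6
  | 12, _ => TB_s12_6
  | n + 13, h => absurd h (by omega)

theorem TB_r7 : ∀ i < 13, SqZ TB_M TB_L [0, 7, 6, 1] (-32256) (-4608) 1536 i 7
  | 0, _ => TB_s0_7
  | 1, _ => TB_s1_7
  | 2, _ => TB_s2_7
  | 3, _ => TB_s3_7
  | 4, _ => TB_s4_7
  | 5, _ => TB_s5_7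
  | 6, _ => TB_s6_7
  | 7, _ => TB_s7_7
  | 8, _ => TB_s8_7
  | 9, _ => TB_s9_7
  | 10, _ => TB_s10_7
  | 11, _ => TB_s11_7
  | 12, _ => TB_s12_7
  | n + 13, h => absurd h (by omega)

theorem TB_r8 : ∀ i < 13, SqZ TB_M TB_L [0, 7, 6, 1] (-32256) (-4608) 1536 i 8
  | 0, _ => TB_s0_8
  | 1, _ => TB_s1_8
  | 2, _ => TB_s2_8
  | 3, _ => TB_s3_8
  | 4, _ => TB_s4_8
  | 5, _ => TB_s5_8
  | 6, _ => TB_s6_8
  | 7, _ => TB_s7_8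
  | 8, _ => TB_s8_8
  | 9, _ => TB_s9_8
  | 10, _ => TB_s10_8
  | 11, _ => TB_s11_8
  | 12, _ => TB_s12_8
  | n + 13, h => absurd h (by omega)

theorem TB_r9 : ∀ i < 13, SqZ TB_M TB_L [0, 7, 6, 1] (-32256) (-4608) 1536 i 9
  | 0, _ => TB_s0_9
  | 1, _ => TB_s1_9
  | 2, _ => TB_s2_9
  | 3, _ => TB_s3_9
  | 4, _ => TB_s4_9
  | 5, _ => TB_s5_9
  | 6, _ => TB_s6_9
  | 7, _ => TB_s7_9
  | 8, _ => TB_s8_9
  | 9, _ => TB_s9_9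
  | 10, _ => TB_s10_9
  | 11, _ => TB_s11_9
  | 12, _ => TB_s12_9
  | n + 13, h => absurd h (by omega)

theorem TB_r10 : ∀ i < 13, SqZ TB_M TB_L [0, 7, 6, 1] (-32256) (-4608) 1536 i 10
  | 0, _ => TB_s0_10
  | 1, _ => TB_s1_10
  | 2, _ => TB_s2_10
  | 3, _ => TB_s3_10
  | 4, _ => TB_s4_10
  | 5, _ => TB_s5_10
  | 6, _ => TB_s6_10
  | 7, _ => TB_s7_10
  | 8, _ => TB_s8_10
  | 9, _ => TB_s9_10
  | 10, _ => TB_s10_10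
  | 11, _ => TB_s11_10
  | 12, _ => TB_s12_10
  | n + 13, h => absurd h (by omega)

theorem TB_r11 : ∀ i < 13, SqZ TB_M TB_L [0, 7, 6, 1] (-32256) (-4608) 1536 i 11
  | 0, _ => TB_s0_11
  | 1, _ => TB_s1_11
  | 2, _ => TB_s2_11
  | 3, _ => TB_s3_11
  | 4, _ => TB_s4_11
  | 5, _ => TB_s5_11
  | 6, _ => TB_s6_11
  | 7, _ => TB_s7_11
  | 8, _ => TB_s8_11
  | 9, _ => TB_s9_11
  | 10, _ => TB_s10_11
  | 11, _ => TB_s11_11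
  | 12, _ => TB_s12_11
  | n + 13, h => absurd h (by omega)

theorem TB_r12 : ∀ i < 13, SqZ TB_M TB_L [0, 7, 6, 1] (-32256) (-4608) 1536 i 12
  | 0, _ => TB_s0_12
  | 1, _ => TB_s1_12
  | 2, _ => TB_s2_12
  | 3, _ => TB_s3_12
  | 4, _ => TB_s4_12
  | 5, _ => TB_s5_12
  | 6, _ => TB_s6_12
  | 7, _ => TB_s7_12
  | 8, _ => TB_s8_12
  | 9, _ => TB_s9_12
  | 10, _ => TB_s10_12
  | 11, _ => TB_s11_12
  | 12, _ => TB_s12_12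
  | n + 13, h => absurd h (by omega)

theorem TB_r13 : ∀ i < 13, SqZ TB_M TB_L [0, 7, 6, 1] (-32256) (-4608) 1536 i 13
  | 0, _ => TB_s0_13
  | 1, _ => TB_s1_13
  | 2, _ => TB_s2_13
  | 3, _ => TB_s3_13
  | 4, _ => TB_s4_13
  | 5, _ => TB_s5_13
  | 6, _ => TB_s6_13
  | 7, _ => TB_s7_13
  | 8, _ => TB_s8_13
  | 9, _ => TB_s9_13
  | 10, _ => TB_s10_13
  | 11, _ => TB_s11_13
  | 12, _ => TB_s12_13
  | n + 13, h => absurd h (by omega)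

theorem TB_r14 : ∀ i < 13, SqZ TB_M TB_L [0, 7, 6, 1] (-32256) (-4608) 1536 i 14
  | 0, _ => TB_s0_14
  | 1, _ => TB_s1_14
  | 2, _ => TB_s2_14
  | 3, _ => TB_s3_14
  | 4, _ => TB_s4_14
  | 5, _ => TB_s5_14
  | 6, _ => TB_s6_14
  | 7, _ => TB_s7_14
  | 8, _ => TB_s8_14
  | 9, _ => TB_s9_14
  | 10, _ => TB_s10_14
  | 11, _ => TB_s11_14
  | 12, _ => TB_s12_14
  | n + 13, h => absurd h (by omega)

theorem TB_r15 : ∀ i < 13, SqZ TB_M TB_L [0, 7, 6, 1] (-32256) (-4608) 1536 i 15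
  | 0, _ => TB_s0_15
  | 1, _ => TB_s1_15
  | 2, _ => TB_s2_15
  | 3, _ => TB_s3_15
  | 4, _ => TB_s4_15
  | 5, _ => TB_s5_15
  | 6, _ => TB_s6_15
  | 7, _ => TB_s7_15
  | 8, _ => TB_s8_15
  | 9, _ => TB_s9_15
  | 10, _ => TB_s10_15
  | 11, _ => TB_s11_15
  | 12, _ => TB_s12_15
  | n + 13, h => absurd h (by omega)

theorem TB_r16 : ∀ i < 13, SqZ TB_M TB_L [0, 7, 6, 1] (-32256) (-4608) 1536 i 16
  | 0, _ => TB_s0_16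
  | 1, _ => TB_s1_16
  | 2, _ => TB_s2_16
  | 3, _ => TB_s3_16
  | 4, _ => TB_s4_16
  | 5, _ => TB_s5_16
  | 6, _ => TB_s6_16
  | 7, _ => TB_s7_16
  | 8, _ => TB_s8_16
  | 9, _ => TB_s9_16
  | 10, _ => TB_s10_16
  | 11, _ => TB_s11_16
  | 12, _ => TB_s12_16
  | n + 13, h => absurd h (by omega)

theorem TB_r17 : ∀ i < 13, SqZ TB_M TB_L [0, 7, 6, 1] (-32256) (-4608) 1536 i 17
  | 0, _ => TB_s0_17
  | 1, _ => TB_s1_17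
  | 2, _ => TB_s2_17
  | 3, _ => TB_s3_17
  | 4, _ => TB_s4_17
  | 5, _ => TB_s5_17
  | 6, _ => TB_s6_17
  | 7, _ => TB_s7_17
  | 8, _ => TB_s8_17
  | 9, _ => TB_s9_17
  | 10, _ => TB_s10_17
  | 11, _ => TB_s11_17
  | 12, _ => TB_s12_17
  | n + 13, h => absurd h (by omega)

theorem TB_r18 : ∀ i < 13, SqZ TB_M TB_L [0, 7, 6, 1] (-32256) (-4608) 1536 i 18
  | 0, _ => TB_s0_18
  | 1, _ => TB_s1_18
  | 2, _ => TB_s2_18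
  | 3, _ => TB_s3_18
  | 4, _ => TB_s4_18
  | 5, _ => TB_s5_18
  | 6, _ => TB_s6_18
  | 7, _ => TB_s7_18
  | 8, _ => TB_s8_18
  | 9, _ => TB_s9_18
  | 10, _ => TB_s10_18
  | 11, _ => TB_s11_18
  | 12, _ => TB_s12_18
  | n + 13, h => absurd h (by omega)

theorem TB_r19 : ∀ i < 13, SqZ TB_M TB_L [0, 7, 6, 1] (-32256) (-4608) 1536 i 19
  | 0, _ => TB_s0_19
  | 1, _ => TB_s1_19
  | 2, _ => TB_s2_19
  | 3, _ => TB_s3_19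
  | 4, _ => TB_s4_19
  | 5, _ => TB_s5_19
  | 6, _ => TB_s6_19
  | 7, _ => TB_s7_19
  | 8, _ => TB_s8_19
  | 9, _ => TB_s9_19
  | 10, _ => TB_s10_19
  | 11, _ => TB_s11_19
  | 12, _ => TB_s12_19
  | n + 13, h => absurd h (by omega)

theorem TB_r20 : ∀ i < 13, SqZ TB_M TB_L [0, 7, 6, 1] (-32256) (-4608) 1536 i 20
  | 0, _ => TB_s0_20
  | 1, _ => TB_s1_20
  | 2, _ => TB_s2_20
  | 3, _ => TB_s3_20
  | 4, _ => TB_s4_20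
  | 5, _ => TB_s5_20
  | 6, _ => TB_s6_20
  | 7, _ => TB_s7_20
  | 8, _ => TB_s8_20
  | 9, _ => TB_s9_20
  | 10, _ => TB_s10_20
  | 11, _ => TB_s11_20
  | 12, _ => TB_s12_20
  | n + 13, h => absurd h (by omega)

theorem TB_r21 : ∀ i < 13, SqZ TB_M TB_L [0, 7, 6, 1] (-32256) (-4608) 1536 i 21
  | 0, _ => TB_s0_21
  | 1, _ => TB_s1_21
  | 2, _ => TB_s2_21
  | 3, _ => TB_s3_21
  | 4, _ => TB_s4_21
  | 5, _ => TB_s5_21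
  | 6, _ => TB_s6_21
  | 7, _ => TB_s7_21
  | 8, _ => TB_s8_21
  | 9, _ => TB_s9_21
  | 10, _ => TB_s10_21
  | 11, _ => TB_s11_21
  | 12, _ => TB_s12_21
  | n + 13, h => absurd h (by omega)

theorem TB_r22 : ∀ i < 13, SqZ TB_M TB_L [0, 7, 6, 1] (-32256) (-4608) 1536 i 22
  | 0, _ => TB_s0_22
  | 1, _ => TB_s1_22
  | 2, _ => TB_s2_22
  | 3, _ => TB_s3_22
  | 4, _ => TB_s4_22
  | 5, _ => TB_s5_22
  | 6, _ => TB_s6_22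
  | 7, _ => TB_s7_22
  | 8, _ => TB_s8_22
  | 9, _ => TB_s9_22
  | 10, _ => TB_s10_22
  | 11, _ => TB_s11_22
  | 12, _ => TB_s12_22
  | n + 13, h => absurd h (by omega)

theorem TB_r23 : ∀ i < 13, SqZ TB_M TB_L [0, 7, 6, 1] (-32256) (-4608) 1536 i 23
  | 0, _ => TB_s0_23
  | 1, _ => TB_s1_23
  | 2, _ => TB_s2_23
  | 3, _ => TB_s3_23
  | 4, _ => TB_s4_23
  | 5, _ => TB_s5_23
  | 6, _ => TB_s6_23
  | 7, _ => TB_s7_23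
  | 8, _ => TB_s8_23
  | 9, _ => TB_s9_23
  | 10, _ => TB_s10_23
  | 11, _ => TB_s11_23
  | 12, _ => TB_s12_23
  | n + 13, h => absurd h (by omega)

theorem TB_r24 : ∀ i < 13, SqZ TB_M TB_L [0, 7, 6, 1] (-32256) (-4608) 1536 i 24
  | 0, _ => TB_s0_24
  | 1, _ => TB_s1_24
  | 2, _ => TB_s2_24
  | 3, _ => TB_s3_24
  | 4, _ => TB_s4_24
  | 5, _ => TB_s5_24
  | 6, _ => TB_s6_24
  | 7, _ => TB_s7_24
  | 8, _ => TB_s8_24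
  | 9, _ => TB_s9_24
  | 10, _ => TB_s10_24
  | 11, _ => TB_s11_24
  | 12, _ => TB_s12_24
  | n + 13, h => absurd h (by omega)

theorem TB_r25 : ∀ i < 13, SqZ TB_M TB_L [0, 7, 6, 1] (-32256) (-4608) 1536 i 25
  | 0, _ => TB_s0_25
  | 1, _ => TB_s1_25
  | 2, _ => TB_s2_25
  | 3, _ => TB_s3_25
  | 4, _ => TB_s4_25
  | 5, _ => TB_s5_25
  | 6, _ => TB_s6_25
  | 7, _ => TB_s7_25
  | 8, _ => TB_s8_25
  | 9, _ => TB_s9_25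
  | 10, _ => TB_s10_25
  | 11, _ => TB_s11_25
  | 12, _ => TB_s12_25
  | n + 13, h => absurd h (by omega)

theorem TB_r26 : ∀ i < 13, SqZ TB_M TB_L [0, 7, 6, 1] (-32256) (-4608) 1536 i 26
  | 0, _ => TB_s0_26
  | 1, _ => TB_s1_26
  | 2, _ => TB_s2_26
  | 3, _ => TB_s3_26
  | 4, _ => TB_s4_26
  | 5, _ => TB_s5_26
  | 6, _ => TB_s6_26
  | 7, _ => TB_s7_26
  | 8, _ => TB_s8_26
  | 9, _ => TB_s9_26
  | 10, _ => TB_s10_26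
  | 11, _ => TB_s11_26
  | 12, _ => TB_s12_26
  | n + 13, h => absurd h (by omega)

theorem TB_r27 : ∀ i < 13, SqZ TB_M TB_L [0, 7, 6, 1] (-32256) (-4608) 1536 i 27
  | 0, _ => TB_s0_27
  | 1, _ => TB_s1_27
  | 2, _ => TB_s2_27
  | 3, _ => TB_s3_27
  | 4, _ => TB_s4_27
  | 5, _ => TB_s5_27
  | 6, _ => TB_s6_27
  | 7, _ => TB_s7_27
  | 8, _ => TB_s8_27
  | 9, _ => TB_s9_27
  | 10, _ => TB_s10_27
  | 11, _ => TB_s11_27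
  | 12, _ => TB_s12_27
  | n + 13, h => absurd h (by omega)

theorem TB_rows : ∀ j < 28, ∀ i < 13, SqZ TB_M TB_L [0, 7, 6, 1] (-32256) (-4608) 1536 i j
  | 0, _ => TB_r0
  | 1, _ => TB_r1
  | 2, _ => TB_r2
  | 3, _ => TB_r3
  | 4, _ => TB_r4
  | 5, _ => TB_r5
  | 6, _ => TB_r6
  | 7, _ => TB_r7
  | 8, _ => TB_r8
  | 9, _ => TB_r9
  | 10, _ => TB_r10
  | 11, _ => TB_r11
  | 12, _ => TB_r12
  | 13, _ => TB_r13
  | 14, _ => TB_r14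
  | 15, _ => TB_r15
  | 16, _ => TB_r16
  | 17, _ => TB_r17
  | 18, _ => TB_r18
  | 19, _ => TB_r19
  | 20, _ => TB_r20
  | 21, _ => TB_r21
  | 22, _ => TB_r22
  | 23, _ => TB_r23
  | 24, _ => TB_r24
  | 25, _ => TB_r25
  | 26, _ => TB_r26
  | 27, _ => TB_r27
  | n + 28, h => absurd h (by omega)

theorem TB_cov (X Y : ℝ) (h1 : ((-32256 : ℤ) : ℝ) ≤ X) (h2 : X ≤ (-12288 : ℤ)) (h3 : ((-4608 : ℤ) : ℝ) ≤ Y)
    (h4 : Y ≤ (38400 : ℤ)) : Out TB_L X Y ∨ GoodV [0, 7, 6, 1] (TB_M.v X Y) := by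
  push_cast at h1 h2 h3 h4
  refine gridZ (by norm_num) (by norm_num) (by norm_num) TB_rows ?_ ?_ ?_ ?_ <;> push_cast <;> linarith

theorem TB_fr (x y : ℝ) : swp (VB x y) =
    TB_M.v (30720 * x / (1 : ℤ)) (30720 * y / (1 : ℤ)) := by
  funext i j
  fin_cases i <;> fin_cases j <;> simp [swp, VB, FM.v, Z3.ev, TB_M] <;> ring

end Pool.Agent.TET
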