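import Pool.Agent.Helper38_TET.TB_C

/-!
# MP_c7c9bf_co: certificates, family TB
-/

set_option autoImplicit false
set_option maxRecDepth 100000

namespace Pool.Agent.TET

theorem TB_rg0 : ROK [.q ⟨-5, -5, 10, 0⟩ ⟨-15, 5, 10, 0⟩, .q ⟨4, 6, -10, 0⟩ ⟨-16, 6, 10, 0⟩, .q ⟨15, -5, -10, 0⟩ ⟨5075, -3982, 758, -1851⟩, .q ⟨16, -6, -10, 0⟩ ⟨5075, -3982, 758, -1851⟩, .q ⟨15, -5, -10, 0⟩ ⟨203, -3923, -271, 3991⟩, .q ⟨16, -6, -10, 0⟩ ⟨203, -3923, -271, 3991⟩, .q ⟨15, -5, -10, 0⟩ ⟨1847, 3796, -3022, -2621⟩, .q ⟨16, -6, -10, 0⟩ ⟨1847, 3796, -3022, -2621⟩] := by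
  refine rok_bs (s := -1) (nlo := 5) (nhi := 6) (q := 10) (by decide) (by decide) (by decide) (by decide) (k := 1) (by decide) (Q := [(758, 1851, 3982), (-271, -3991, 3923), (-3022, 2621, -3796)])
    (P := [⟨-153600, -10, 0⟩, ⟨184320, 10, 0⟩, ⟨122327040, 758, 1851⟩, ⟨120514560, -271, -3991⟩, ⟨-116613120, -3022, 2621⟩]) rfl rfl
    (List.mem_of_getElem? (i := 0) rfl) TB_fr TB_cov ?_
  · intro X Y h
    simp only [List.forall_mem_cons, List.not_mem_nil, false_imp_iff, implies_true, and_true] at h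
    push_cast at h ⊢
    obtain ⟨h0, h1, h2, h3, h4⟩ := h
    refine ⟨⟨?_, ?_⟩, ?_, ?_⟩ <;> linarith

theorem TB_rg1 : ROK [.q ⟨-2, -38, 40, 0⟩ ⟨-78, 38, 40, 0⟩, .q ⟨-1, 41, -40, 0⟩ ⟨-81, 41, 40, 0⟩, .q ⟨78, -38, -40, 0⟩ ⟨2029, -29, 0, -2000⟩, .q ⟨81, -41, -40, 0⟩ ⟨2029, -29, 0, -2000⟩, .q ⟨78, -38, -40, 0⟩ ⟨-749, -51, 0, 800⟩, .q ⟨81, -41, -40, 0⟩ ⟨-749, -51, 0, 800⟩] := by
  refine rok_bs (s := -1) (nlo := 38) (nhi := 41) (q := 40) (by decide) (by decide) (by decide) (by decide) (k := 1) (by decide) (Q := [(0, 2000, 29), (0, -800, 51)])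
    (P := [⟨-1167360, -40, 0⟩, ⟨1259520, 40, 0⟩, ⟨890880, 0, 2000⟩, ⟨1566720, 0, -800⟩]) rfl rfl
    (List.mem_of_getElem? (i := 1) rfl) TB_fr TB_cov ?_
  · intro X Y h
    simp only [List.forall_mem_cons, List.not_mem_nil, false_imp_iff, implies_true, and_true] at h
    push_cast at h ⊢
    obtain ⟨h0, h1, h2, h3⟩ := h
    refine ⟨⟨?_, ?_⟩, ?_, ?_⟩ <;> linarith

theorem TB_rg2 : ROK [.q ⟨-11, -29, 40, 0⟩ ⟨-69, 29, 40, 0⟩, .q ⟨8, 32, -40, 0⟩ ⟨-72, 32, 40, 0⟩, .q ⟨69, -29, -40, 0⟩ ⟨2929, 947, 122, -3998⟩, .q ⟨72, -32, -40, 0⟩ ⟨2929, 947, 122, -3998⟩, .q ⟨69, -29, -40, 0⟩ ⟨55, -2459, 457, 1947⟩, .q ⟨72, -32, -40, 0⟩ ⟨55, -2459, 457, 1947⟩] := by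
  refine rok_bs (s := -1) (nlo := 29) (nhi := 32) (q := 40) (by decide) (by decide) (by decide) (by decide) (k := 1) (by decide) (Q := [(122, 3998, -947), (457, -1947, 2459)])
    (P := [⟨-890880, -40, 0⟩, ⟨983040, 40, 0⟩, ⟨-29091840, 122, 3998⟩, ⟨75540480, 457, -1947⟩]) rfl rfl
    (List.mem_of_getElem? (i := 2) rfl) TB_fr TB_cov ?_
  · intro X Y h
    simp only [List.forall_mem_cons, List.not_mem_nil, false_imp_iff, implies_true, and_true] at h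
    push_cast at h ⊢
    obtain ⟨h0, h1, h2, h3⟩ := h
    refine ⟨⟨?_, ?_⟩, ?_, ?_⟩ <;> linarith

theorem TB_rg3 : ROK [.q ⟨-20, -20, 40, 0⟩ ⟨-60, 20, 40, 0⟩, .q ⟨17, 23, -40, 0⟩ ⟨-63, 23, 40, 0⟩, .q ⟨60, -20, -40, 0⟩ ⟨1466, -1244, 183, -405⟩, .q ⟨63, -23, -40, 0⟩ ⟨1466, -1244, 183, -405⟩, .q ⟨60, -20, -40, 0⟩ ⟨-1183, -815, -1647, 3645⟩, .q ⟨63, -23, -40, 0⟩ ⟨-1183, -815, -1647, 3645⟩, .q ⟨60, -20, -40, 0⟩ ⟨1183, -589, 2516, -3110⟩, .q ⟨63, -23, -40, 0⟩ ⟨1183, -589, 2516, -3110⟩] := by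
  refine rok_bs (s := -1) (nlo := 20) (nhi := 23) (q := 40) (by decide) (by decide) (by decide) (by decide) (k := 1) (by decide) (Q := [(183, 405, 1244), (-1647, -3645, 815), (2516, 3110, 589)])
    (P := [⟨-614400, -40, 0⟩, ⟨706560, 40, 0⟩, ⟨38215680, 183, 405⟩, ⟨25036800, -1647, -3645⟩, ⟨18094080, 2516, 3110⟩]) rfl rfl
    (List.mem_of_getElem? (i := 3) rfl) TB_fr TB_cov ?_
  · intro X Y h
    simp only [List.forall_mem_cons, List.not_mem_nil, false_imp_iff, implies_true, and_true] at h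
    push_cast at h ⊢
    obtain ⟨h0, h1, h2, h3, h4⟩ := h
    refine ⟨⟨?_, ?_⟩, ?_, ?_⟩ <;> linarith

theorem TB_rg4 : ROK [.q ⟨-79, -81, 160, 0⟩ ⟨-241, 81, 160, 0⟩, .q ⟨76, 84, -160, 0⟩ ⟨-244, 84, 160, 0⟩, .q ⟨241, -81, -160, 0⟩ ⟨407, 393, 0, -800⟩, .q ⟨244, -84, -160, 0⟩ ⟨407, 393, 0, -800⟩, .q ⟨241, -81, -160, 0⟩ ⟨-249, -551, 0, 800⟩, .q ⟨244, -84, -160, 0⟩ ⟨-249, -551, 0, 800⟩, .q ⟨241, -81, -160, 0⟩ ⟨2706, 2745, -3481, -1970⟩, .q ⟨244, -84, -160, 0⟩ ⟨2706, 2745, -3481, -1970⟩] := by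
  refine rok_bs (s := -1) (nlo := 81) (nhi := 84) (q := 160) (by decide) (by decide) (by decide) (by decide) (k := 1) (by decide) (Q := [(0, 800, -393), (0, -800, 551), (-3481, 1970, -2745)])
    (P := [⟨-2488320, -160, 0⟩, ⟨2580480, 160, 0⟩, ⟨-12072960, 0, 800⟩, ⟨16926720, 0, -800⟩, ⟨-84326400, -3481, 1970⟩]) rfl rfl
    (List.mem_of_getElem? (i := 4) rfl) TB_fr TB_cov ?_
  · intro X Y h
    simp only [List.forall_mem_cons, List.not_mem_nil, false_imp_iff, implies_true, and_true] at h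
    push_cast at h ⊢
    obtain ⟨h0, h1, h2, h3, h4⟩ := h
    refine ⟨⟨?_, ?_⟩, ?_, ?_⟩ <;> linarith

theorem TB_rg5 : ROK [.q ⟨-10, -10, 20, 0⟩ ⟨-30, 10, 20, 0⟩, .q ⟨7, 13, -20, 0⟩ ⟨-33, 13, 20, 0⟩, .q ⟨30, -10, -20, 0⟩ ⟨952, -726, 2713, -2939⟩, .q ⟨33, -13, -20, 0⟩ ⟨952, -726, 2713, -2939⟩, .q ⟨30, -10, -20, 0⟩ ⟨-314, 88, -2713, 2939⟩, .q ⟨33, -13, -20, 0⟩ ⟨-314, 88, -2713, 2939⟩] := by
  refine rok_bs (s := -1) (nlo := 10) (nhi := 13) (q := 20) (by decide) (by decide) (by decide) (by decide) (k := 1) (by decide) (Q := [(2713, 2939, 726), (-2713, -2939, -88)])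
    (P := [⟨-307200, -20, 0⟩, ⟨399360, 20, 0⟩, ⟨22302720, 2713, 2939⟩, ⟨-2703360, -2713, -2939⟩]) rfl rfl
    (List.mem_of_getElem? (i := 5) rfl) TB_fr TB_cov ?_
  · intro X Y h
    simp only [List.forall_mem_cons, List.not_mem_nil, false_imp_iff, implies_true, and_true] at h
    push_cast at h ⊢
    obtain ⟨h0, h1, h2, h3⟩ := h
    refine ⟨⟨?_, ?_⟩, ?_, ?_⟩ <;> linarith

theorem TB_rg6 : ROK [.q ⟨-21, -19, 40, 0⟩ ⟨-59, 19, 40, 0⟩, .q ⟨18, 22, -40, 0⟩ ⟨-62, 22, 40, 0⟩, .q ⟨59, -19, -40, 0⟩ ⟨253, 247, 0, -500⟩, .q ⟨62, -22, -40, 0⟩ ⟨253, 247, 0, -500⟩, .q ⟨59, -19, -40, 0⟩ ⟨5021, -7021, 0, 2000⟩, .q ⟨62, -22, -40, 0⟩ ⟨5021, -7021, 0, 2000⟩, .q ⟨59, -19, -40, 0⟩ ⟨2792, 2795, -3239, -2348⟩, .q ⟨62, -22, -40, 0⟩ ⟨2792, 2795, -3239, -2348⟩, .q ⟨59, -19, -40, 0⟩ ⟨210, 112, -2985, 2663⟩, .q ⟨62, -22, -40, 0⟩ ⟨210, 112, -2985,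 2663⟩] := by
  refine rok_bs (s := -1) (nlo := 19) (nhi := 22) (q := 40) (by decide) (by decide) (by decide) (by decide) (k := 1) (by decide) (Q := [(0, 500, -247), (0, -2000, 7021), (-3239, 2348, -2795), (-2985, -2663, -112)])
    (P := [⟨-583680, -40, 0⟩, ⟨675840, 40, 0⟩, ⟨-7587840, 0, 500⟩, ⟨215685120, 0, -2000⟩, ⟨-85862400, -3239, 2348⟩, ⟨-3440640, -2985, -2663⟩]) rfl rfl
    (List.mem_of_getElem? (i := 6) rfl) TB_fr TB_cov ?_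
  · intro X Y h
    simp only [List.forall_mem_cons, List.not_mem_nil, false_imp_iff, implies_true, and_true] at h
    push_cast at h ⊢
    obtain ⟨h0, h1, h2, h3, h4, h5⟩ := h
    refine ⟨⟨?_, ?_⟩, ?_, ?_⟩ <;> linarith

theorem TB_rg7 : ROK [.q ⟨-5, -15, 20, 0⟩ ⟨-35, 15, 20, 0⟩, .q ⟨3, 17, -20, 0⟩ ⟨-37, 17, 20, 0⟩, .q ⟨35, -15, -20, 0⟩ ⟨2979, 1117, -97, -3999⟩, .q ⟨37, -17, -20, 0⟩ ⟨2979, 1117, -97, -3999⟩, .q ⟨35, -15, -20, 0⟩ ⟨-271, -5319, 2363, 3227⟩, .q ⟨37, -17, -20, 0⟩ ⟨-271, -5319, 2363, 3227⟩] := by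
  refine rok_bs (s := -1) (nlo := 15) (nhi := 17) (q := 20) (by decide) (by decide) (by decide) (by decide) (k := 1) (by decide) (Q := [(-97, 3999, -1117), (2363, -3227, 5319)])
    (P := [⟨-460800, -20, 0⟩, ⟨522240, 20, 0⟩, ⟨-34314240, -97, 3999⟩, ⟨163399680, 2363, -3227⟩]) rfl rfl
    (List.mem_of_getElem? (i := 7) rfl) TB_fr TB_cov ?_
  · intro X Y h
    simp only [List.forall_mem_cons, List.not_mem_nil, false_imp_iff, implies_true, and_true] at h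
    push_cast at h ⊢
    obtain ⟨h0, h1, h2, h3⟩ := h
    refine ⟨⟨?_, ?_⟩, ?_, ?_⟩ <;> linarith

theorem TB_rg8 : ROK [.q ⟨-244, -236, 480, 0⟩ ⟨-716, 236, 480, 0⟩, .q ⟨237, 243, -480, 0⟩ ⟨-723, 243, 480, 0⟩, .q ⟨716, -236, -480, 0⟩ ⟨1225, 1196, 1346, -3767⟩, .q ⟨723, -243, -480, 0⟩ ⟨1225, 1196, 1346, -3767⟩, .q ⟨716, -236, -480, 0⟩ ⟨-1827, -2552, 399, 3980⟩, .q ⟨723, -243, -480, 0⟩ ⟨-1827, -2552, 399, 3980⟩, .q ⟨716, -236, -480, 0⟩ ⟨883, 880, -1216, -547⟩, .q ⟨723, -243, -480, 0⟩ ⟨883, 880, -1216, -547⟩] := by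
  refine rok_bs (s := -1) (nlo := 236) (nhi := 243) (q := 480) (by decide) (by decide) (by decide) (by decide) (k := 1) (by decide) (Q := [(1346, 3767, -1196), (399, -3980, 2552), (-1216, 547, -880)])
    (P := [⟨-7249920, -480, 0⟩, ⟨7464960, 480, 0⟩, ⟨-36741120, 1346, 3767⟩, ⟨78397440, 399, -3980⟩, ⟨-27033600, -1216, 547⟩]) rfl rfl
    (List.mem_of_getElem? (i := 8) rfl) TB_fr TB_cov ?_
  · intro X Y h
    simp only [List.forall_mem_cons, List.not_mem_nil, false_imp_iff, implies_true, and_true] at h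
    push_cast at h ⊢
    obtain ⟨h0, h1, h2, h3, h4⟩ := h
    refine ⟨⟨?_, ?_⟩, ?_, ?_⟩ <;> linarith

theorem TB_rg9 : ROK [.q ⟨-11, -9, 20, 0⟩ ⟨-29, 9, 20, 0⟩, .q ⟨8, 12, -20, 0⟩ ⟨-32, 12, 20, 0⟩, .q ⟨29, -9, -20, 0⟩ ⟨2029, 1971, 0, -4000⟩, .q ⟨32, -12, -20, 0⟩ ⟨2029, 1971, 0, -4000⟩, .q ⟨29, -9, -20, 0⟩ ⟨-1038, -1391, -1340, 3769⟩, .q ⟨32, -12, -20, 0⟩ ⟨-1038, -1391, -1340, 3769⟩, .q ⟨29, -9, -20, 0⟩ ⟨2685, 2705, -3554, -1836⟩, .q ⟨32, -12, -20, 0⟩ ⟨2685, 2705, -3554, -1836⟩] := by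
  refine rok_bs (s := -1) (nlo := 9) (nhi := 12) (q := 20) (by decide) (by decide) (by decide) (by decide) (k := 1) (by decide) (Q := [(0, 4000, -1971), (-1340, -3769, 1391), (-3554, 1836, -2705)])
    (P := [⟨-276480, -20, 0⟩, ⟨368640, 20, 0⟩, ⟨-60549120, 0, 4000⟩, ⟨42731520, -1340, -3769⟩, ⟨-83097600, -3554, 1836⟩]) rfl rfl
    (List.mem_of_getElem? (i := 9) rfl) TB_fr TB_cov ?_
  · intro X Y h
    simp only [List.forall_mem_cons, List.not_mem_nil, false_imp_iff, implies_true, and_true] at h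
    push_cast at h ⊢
    obtain ⟨h0, h1, h2, h3, h4⟩ := h
    refine ⟨⟨?_, ?_⟩, ?_, ?_⟩ <;> linarith

theorem TB_rg10 : ROK [.q ⟨-21, -19, 40, 0⟩ ⟨-59, 19, 40, 0⟩, .q ⟨19, 21, -40, 0⟩ ⟨-61, 21, 40, 0⟩, .q ⟨59, -19, -40, 0⟩ ⟨511, 3489, 0, -4000⟩, .q ⟨61, -21, -40, 0⟩ ⟨511, 3489, 0, -4000⟩, .q ⟨59, -19, -40, 0⟩ ⟨790, -3044, -1467, 3721⟩, .q ⟨61, -21, -40, 0⟩ ⟨790, -3044, -1467, 3721⟩] := by
  refine rok_bs (s := -1) (nlo := 19) (nhi := 21) (q := 40) (by decide) (by decide) (by decide) (by decide) (k := 1) (by decide) (Q := [(0, 4000, -3489), (-1467, -3721, 3044)])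
    (P := [⟨-583680, -40, 0⟩, ⟨645120, 40, 0⟩, ⟨-107182080, 0, 4000⟩, ⟨93511680, -1467, -3721⟩]) rfl rfl
    (List.mem_of_getElem? (i := 10) rfl) TB_fr TB_cov ?_
  · intro X Y h
    simp only [List.forall_mem_cons, List.not_mem_nil, false_imp_iff, implies_true, and_true] at h
    push_cast at h ⊢
    obtain ⟨h0, h1, h2, h3⟩ := h
    refine ⟨⟨?_, ?_⟩, ?_, ?_⟩ <;> linarith

theorem TB_rg11 : ROK [.q ⟨-44, -36, 80, 0⟩ ⟨-116, 36, 80, 0⟩, .q ⟨41, 39, -80, 0⟩ ⟨-119, 39, 80, 0⟩, .q ⟨116, -36, -80, 0⟩ ⟨471, 3529, 0, -4000⟩, .q ⟨119, -39, -80, 0⟩ ⟨471, 3529, 0, -4000⟩, .q ⟨116, -36, -80, 0⟩ ⟨-289, -3711, 0, 4000⟩, .q ⟨119, -39, -80, 0⟩ ⟨-289, -3711, 0, 4000⟩] := by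
  refine rok_bs (s := -1) (nlo := 36) (nhi := 39) (q := 80) (by decide) (by decide) (by decide) (by decide) (k := 1) (by decide) (Q := [(0, 4000, -3529), (0, -4000, 3711)])
    (P := [⟨-1105920, -80, 0⟩, ⟨1198080, 80, 0⟩, ⟨-108410880, 0, 4000⟩, ⟨114001920, 0, -4000⟩]) rfl rfl
    (List.mem_of_getElem? (i := 11) rfl) TB_fr TB_cov ?_
  · intro X Y h
    simp only [List.forall_mem_cons, List.not_mem_nil, false_imp_iff, implies_true, and_true] at h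
    push_cast at h ⊢
    obtain ⟨h0, h1, h2, h3⟩ := h
    refine ⟨⟨?_, ?_⟩, ?_, ?_⟩ <;> linarith

theorem TB_rg12 : ROK [.q ⟨-231, -249, 480, 0⟩ ⟨-729, 249, 480, 0⟩, .q ⟨221, 259, -480, 0⟩ ⟨-739, 259, 480, 0⟩, .q ⟨729, -249, -480, 0⟩ ⟨3543, -2543, 0, -1000⟩, .q ⟨739, -259, -480, 0⟩ ⟨3543, -2543, 0, -1000⟩, .q ⟨729, -249, -480, 0⟩ ⟨-2153, -1847, 0, 4000⟩, .q ⟨739, -259, -480, 0⟩ ⟨-2153, -1847, 0, 4000⟩, .q ⟨729, -249, -480, 0⟩ ⟨-601, -1565, 3696, -1530⟩, .q ⟨739, -259, -480, 0⟩ ⟨-601, -1565, 3696, -1530⟩, .q ⟨729, -249, -480, 0⟩ ⟨-924, -554, -1991, 3469⟩, .q ⟨739, -259, -480, 0⟩ ⟨-924, -554, -1991, 3469⟩] := by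
  refine rok_bs (s := -1) (nlo := 249) (nhi := 259) (q := 480) (by decide) (by decide) (by decide) (by decide) (k := 1) (by decide) (Q := [(0, 1000, 2543), (0, -4000, 1847), (3696, 1530, 1565), (-1991, -3469, 554)])
    (P := [⟨-7649280, -480, 0⟩, ⟨7956480, 480, 0⟩, ⟨78120960, 0, 1000⟩, ⟨56739840, 0, -4000⟩, ⟨48076800, 3696, 1530⟩, ⟨17018880, -1991, -3469⟩]) rfl rfl
    (List.mem_of_getElem? (i := 12) rfl) TB_fr TB_cov ?_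
  · intro X Y h
    simp only [List.forall_mem_cons, List.not_mem_nil, false_imp_iff, implies_true, and_true] at h
    push_cast at h ⊢
    obtain ⟨h0, h1, h2, h3, h4, h5⟩ := h
    refine ⟨⟨?_, ?_⟩, ?_, ?_⟩ <;> linarith

theorem TB_rg13 : ROK [.q ⟨-3, -7, 10, 0⟩ ⟨-17, 7, 10, 0⟩, .q ⟨2, 8, -10, 0⟩ ⟨-18, 8, 10, 0⟩, .q ⟨17, -7, -10, 0⟩ ⟨3033, 967, 0, -4000⟩, .q ⟨18, -8, -10, 0⟩ ⟨3033, 967, 0, -4000⟩, .q ⟨17, -7, -10, 0⟩ ⟨-763, 400, -1221, 1584⟩, .q ⟨18, -8, -10, 0⟩ ⟨-763, 400, -1221, 1584⟩, .q ⟨17, -7, -10, 0⟩ ⟨2428, -153, 1452, -3727⟩, .q ⟨18, -8, -10, 0⟩ ⟨2428, -153, 1452, -3727⟩] := by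
  refine rok_bs (s := -1) (nlo := 7) (nhi := 8) (q := 10) (by decide) (by decide) (by decide) (by decide) (k := 1) (by decide) (Q := [(0, 4000, -967), (-1221, -1584, -400), (1452, 3727, 153)])
    (P := [⟨-215040, -10, 0⟩, ⟨245760, 10, 0⟩, ⟨-29706240, 0, 4000⟩, ⟨-12288000, -1221, -1584⟩, ⟨4700160, 1452, 3727⟩]) rfl rfl
    (List.mem_of_getElem? (i := 13) rfl) TB_fr TB_cov ?_
  · intro X Y h
    simp only [List.forall_mem_cons, List.not_mem_nil, false_imp_iff, implies_true, and_true] at h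
    push_cast at h ⊢
    obtain ⟨h0, h1, h2, h3, h4⟩ := h
    refine ⟨⟨?_, ?_⟩, ?_, ?_⟩ <;> linarith

theorem TB_rg14 : ROK [.q ⟨-13, -67, 80, 0⟩ ⟨-147, 67, 80, 0⟩, .q ⟨10, 70, -80, 0⟩ ⟨-150, 70, 80, 0⟩, .q ⟨147, -67, -80, 0⟩ ⟨4064, 463, -568, -3959⟩, .q ⟨150, -70, -80, 0⟩ ⟨4064, 463, -568, -3959⟩, .q ⟨147, -67, -80, 0⟩ ⟨-3278, 1444, -1759, 3593⟩, .q ⟨150, -70, -80, 0⟩ ⟨-3278, 1444, -1759, 3593⟩] := by
  refine rok_bs (s := -1) (nlo := 67) (nhi := 70) (q := 80) (by decide) (by decide) (by decide) (by decide) (k := 1) (by decide) (Q := [(-568, 3959, -463), (-1759, -3593, -1444)])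
    (P := [⟨-2058240, -80, 0⟩, ⟨2150400, 80, 0⟩, ⟨-14223360, -568, 3959⟩, ⟨-44359680, -1759, -3593⟩]) rfl rfl
    (List.mem_of_getElem? (i := 14) rfl) TB_fr TB_cov ?_
  · intro X Y h
    simp only [List.forall_mem_cons, List.not_mem_nil, false_imp_iff, implies_true, and_true] at h
    push_cast at h ⊢
    obtain ⟨h0, h1, h2, h3⟩ := h
    refine ⟨⟨?_, ?_⟩, ?_, ?_⟩ <;> linarith

theorem TB_rg15 : ROK [.q ⟨-9, -11, 20, 0⟩ ⟨-31, 11, 20, 0⟩, .q ⟨6, 14, -20, 0⟩ ⟨-34, 14, 20, 0⟩, .q ⟨31, -11, -20, 0⟩ ⟨13541, -9541, 0, -4000⟩, .q ⟨34, -14, -20, 0⟩ ⟨13541, -9541, 0, -4000⟩, .q ⟨31, -11, -20, 0⟩ ⟨0, -4303, 315, 3988⟩, .q ⟨34, -14, -20, 0⟩ ⟨0, -4303, 315, 3988⟩, .q ⟨31, -11, -20, 0⟩ ⟨904, 962, -797, -1069⟩, .q ⟨34, -14, -20, 0⟩ ⟨904, 962, -797, -1069⟩] := by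
  refine rok_bs (s := -1) (nlo := 11) (nhi := 14) (q := 20) (by decide) (by decide) (by decide) (by decide) (k := 1) (by decide) (Q := [(0, 4000, 9541), (315, -3988, 4303), (-797, 1069, -962)])
    (P := [⟨-337920, -20, 0⟩, ⟨430080, 20, 0⟩, ⟨293099520, 0, 4000⟩, ⟨132188160, 315, -3988⟩, ⟨-29552640, -797, 1069⟩]) rfl rfl
    (List.mem_of_getElem? (i := 15) rfl) TB_fr TB_cov ?_
  · intro X Y h
    simp only [List.forall_mem_cons, List.not_mem_nil, false_imp_iff, implies_true, and_true] at h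
    push_cast at h ⊢
    obtain ⟨h0, h1, h2, h3, h4⟩ := h
    refine ⟨⟨?_, ?_⟩, ?_, ?_⟩ <;> linarith

theorem TB_rg16 : ROK [.q ⟨-20, -20, 40, 0⟩ ⟨-60, 20, 40, 0⟩, .q ⟨17, 23, -40, 0⟩ ⟨-63, 23, 40, 0⟩, .q ⟨60, -20, -40, 0⟩ ⟨933, 3774, -785, -3922⟩, .q ⟨63, -23, -40, 0⟩ ⟨933, 3774, -785, -3922⟩, .q ⟨60, -20, -40, 0⟩ ⟨-327, -4380, 785, 3922⟩, .q ⟨63, -23, -40, 0⟩ ⟨-327, -4380, 785, 3922⟩] := by
  refine rok_bs (s := -1) (nlo := 20) (nhi := 23) (q := 40) (by decide) (by decide) (by decide) (by decide) (k := 1) (by decide) (Q := [(-785, 3922, -3774), (785, -3922, 4380)])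
    (P := [⟨-614400, -40, 0⟩, ⟨706560, 40, 0⟩, ⟨-115937280, -785, 3922⟩, ⟨134553600, 785, -3922⟩]) rfl rfl
    (List.mem_of_getElem? (i := 16) rfl) TB_fr TB_cov ?_
  · intro X Y h
    simp only [List.forall_mem_cons, List.not_mem_nil, false_imp_iff, implies_true, and_true] at h
    push_cast at h ⊢
    obtain ⟨h0, h1, h2, h3⟩ := h
    refine ⟨⟨?_, ?_⟩, ?_, ?_⟩ <;> linarith

theorem TB_rg17 : ROK [.q ⟨-10, -10, 20, 0⟩ ⟨-30, 10, 20, 0⟩, .q ⟨7, 13, -20, 0⟩ ⟨-33, 13, 20, 0⟩, .q ⟨30, -10, -20, 0⟩ ⟨511, 489, 0, -1000⟩, .q ⟨33, -13, -20, 0⟩ ⟨511, 489, 0, -1000⟩, .q ⟨30, -10, -20, 0⟩ ⟨-87, -278, -178, 543⟩, .q ⟨33, -13, -20, 0⟩ ⟨-87, -278, -178, 543⟩, .q ⟨30, -10, -20, 0⟩ ⟨2787, 2867, -2926, -2728⟩, .q ⟨33, -13, -20, 0⟩ ⟨2787, 2867, -2926, -2728⟩] := by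
  refine rok_bs (s := -1) (nlo := 10) (nhi := 13) (q := 20) (by decide) (by decide) (by decide) (by decide) (k := 1) (by decide) (Q := [(0, 1000, -489), (-178, -543, 278), (-2926, 2728, -2867)])
    (P := [⟨-307200, -20, 0⟩, ⟨399360, 20, 0⟩, ⟨-15022080, 0, 1000⟩, ⟨8540160, -178, -543⟩, ⟨-88074240, -2926, 2728⟩]) rfl rfl
    (List.mem_of_getElem? (i := 17) rfl) TB_fr TB_cov ?_
  · intro X Y h
    simp only [List.forall_mem_cons, List.not_mem_nil, false_imp_iff, implies_true, and_true] at h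
    push_cast at h ⊢
    obtain ⟨h0, h1, h2, h3, h4⟩ := h
    refine ⟨⟨?_, ?_⟩, ?_, ?_⟩ <;> linarith

theorem TB_rg18 : ROK [.q ⟨-5, -15, 20, 0⟩ ⟨-35, 15, 20, 0⟩, .q ⟨2, 18, -20, 0⟩ ⟨-38, 18, 20, 0⟩, .q ⟨35, -15, -20, 0⟩ ⟨2835, 2741, -2311, -3265⟩, .q ⟨38, -18, -20, 0⟩ ⟨2835, 2741, -2311, -3265⟩, .q ⟨35, -15, -20, 0⟩ ⟨832, -1721, -2349, 3238⟩, .q ⟨38, -18, -20, 0⟩ ⟨832, -1721, -2349, 3238⟩] := by
  refine rok_bs (s := -1) (nlo := 15) (nhi := 18) (q := 20) (by decide) (by decide) (by decide) (by decide) (k := 1) (by decide) (Q := [(-2311, 3265, -2741), (-2349, -3238, 1721)])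
    (P := [⟨-460800, -20, 0⟩, ⟨552960, 20, 0⟩, ⟨-84203520, -2311, 3265⟩, ⟨52869120, -2349, -3238⟩]) rfl rfl
    (List.mem_of_getElem? (i := 18) rfl) TB_fr TB_cov ?_
  · intro X Y h
    simp only [List.forall_mem_cons, List.not_mem_nil, false_imp_iff, implies_true, and_true] at h
    push_cast at h ⊢
    obtain ⟨h0, h1, h2, h3⟩ := h
    refine ⟨⟨?_, ?_⟩, ?_, ?_⟩ <;> linarith

theorem TB_rg19 : ROK [.q ⟨-3, -17, 20, 0⟩ ⟨-37, 17, 20, 0⟩, .q ⟨0, 20, -20, 0⟩ ⟨-40, 20, 20, 0⟩, .q ⟨37, -17, -20, 0⟩ ⟨811, -11, 0, -800⟩, .q ⟨40, -20, -20, 0⟩ ⟨811, -11, 0, -800⟩, .q ⟨37, -17, -20, 0⟩ ⟨-3567, 991, -1230, 3806⟩, .q ⟨40, -20, -20, 0⟩ ⟨-3567, 991, -1230, 3806⟩, .q ⟨37, -17, -20, 0⟩ ⟨2001, 462, -536, -1927⟩, .q ⟨40, -20, -20, 0⟩ ⟨2001, 462, -536, -1927⟩] := by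
  refine rok_bs (s := -1) (nlo := 17) (nhi := 20) (q := 20) (by decide) (by decide) (by decide) (by decide) (k := 1) (by decide) (Q := [(0, 800, 11), (-1230, -3806, -991), (-536, 1927, -462)])
    (P := [⟨-522240, -20, 0⟩, ⟨614400, 20, 0⟩, ⟨337920, 0, 800⟩, ⟨-30443520, -1230, -3806⟩, ⟨-14192640, -536, 1927⟩]) rfl rfl
    (List.mem_of_getElem? (i := 19) rfl) TB_fr TB_cov ?_
  · intro X Y h
    simp only [List.forall_mem_cons, List.not_mem_nil, false_imp_iff, implies_true, and_true] at h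
    push_cast at h ⊢
    obtain ⟨h0, h1, h2, h3, h4⟩ := h
    refine ⟨⟨?_, ?_⟩, ?_, ?_⟩ <;> linarith

theorem TB_rg20 : ROK [.q ⟨-3, -37, 40, 0⟩ ⟨-77, 37, 40, 0⟩, .q ⟨0, 40, -40, 0⟩ ⟨-80, 40, 40, 0⟩, .q ⟨77, -37, -40, 0⟩ ⟨3321, 1315, -697, -3939⟩, .q ⟨80, -40, -40, 0⟩ ⟨3321, 1315, -697, -3939⟩, .q ⟨77, -37, -40, 0⟩ ⟨685, -5321, 697, 3939⟩, .q ⟨80, -40, -40, 0⟩ ⟨685, -5321, 697, 3939⟩] := by
  refine rok_bs (s := -1) (nlo := 37) (nhi := 40) (q := 40) (by decide) (by decide) (by decide) (by decide) (k := 1) (by decide) (Q := [(-697, 3939, -1315), (697, -3939, 5321)])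
    (P := [⟨-1136640, -40, 0⟩, ⟨1228800, 40, 0⟩, ⟨-40396800, -697, 3939⟩, ⟨163461120, 697, -3939⟩]) rfl rfl
    (List.mem_of_getElem? (i := 20) rfl) TB_fr TB_cov ?_
  · intro X Y h
    simp only [List.forall_mem_cons, List.not_mem_nil, false_imp_iff, implies_true, and_true] at h
    push_cast at h ⊢
    obtain ⟨h0, h1, h2, h3⟩ := h
    refine ⟨⟨?_, ?_⟩, ?_, ?_⟩ <;> linarith

theorem TB_rg21 : ROK [.q ⟨-2, -3, 5, 0⟩ ⟨-8, 3, 5, 0⟩, .q ⟨1, 4, -5, 0⟩ ⟨-9, 4, 5, 0⟩, .q ⟨8, -3, -5, 0⟩ ⟨2681, 921, 380, -3982⟩, .q ⟨9, -4, -5, 0⟩ ⟨2681, 921, 380, -3982⟩, .q ⟨8, -3, -5, 0⟩ ⟨-86, -4591, 748, 3929⟩, .q ⟨9, -4, -5, 0⟩ ⟨-86, -4591, 748, 3929⟩] := by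
  refine rok_bs (s := -1) (nlo := 3) (nhi := 4) (q := 5) (by decide) (by decide) (by decide) (by decide) (k := 1) (by decide) (Q := [(380, 3982, -921), (748, -3929, 4591)])
    (P := [⟨-92160, -5, 0⟩, ⟨122880, 5, 0⟩, ⟨-28293120, 380, 3982⟩, ⟨141035520, 748, -3929⟩]) rfl rfl
    (List.mem_of_getElem? (i := 21) rfl) TB_fr TB_cov ?_
  · intro X Y h
    simp only [List.forall_mem_cons, List.not_mem_nil, false_imp_iff, implies_true, and_true] at h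
    push_cast at h ⊢
    obtain ⟨h0, h1, h2, h3⟩ := h
    refine ⟨⟨?_, ?_⟩, ?_, ?_⟩ <;> linarith

theorem TB_rg22 : ROK [.q ⟨-7, -13, 20, 0⟩ ⟨-33, 13, 20, 0⟩, .q ⟨3, 17, -20, 0⟩ ⟨-37, 17, 20, 0⟩, .q ⟨33, -13, -20, 0⟩ ⟨1479, 521, 0, -2000⟩, .q ⟨37, -17, -20, 0⟩ ⟨1479, 521, 0, -2000⟩, .q ⟨33, -13, -20, 0⟩ ⟨283, -4283, 0, 4000⟩, .q ⟨37, -17, -20, 0⟩ ⟨283, -4283, 0, 4000⟩, .q ⟨33, -13, -20, 0⟩ ⟨2739, 2914, -2939, -2714⟩, .q ⟨37, -17, -20, 0⟩ ⟨2739, 2914, -2939, -2714⟩] := by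
  refine rok_bs (s := -1) (nlo := 13) (nhi := 17) (q := 20) (by decide) (by decide) (by decide) (by decide) (k := 1) (by decide) (Q := [(0, 2000, -521), (0, -4000, 4283), (-2939, 2714, -2914)])
    (P := [⟨-399360, -20, 0⟩, ⟨522240, 20, 0⟩, ⟨-16005120, 0, 2000⟩, ⟨131573760, 0, -4000⟩, ⟨-89518080, -2939, 2714⟩]) rfl rfl
    (List.mem_of_getElem? (i := 22) rfl) TB_fr TB_cov ?_
  · intro X Y h
    simp only [List.forall_mem_cons, List.not_mem_nil, false_imp_iff, implies_true, and_true] at h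
    push_cast at h ⊢
    obtain ⟨h0, h1, h2, h3, h4⟩ := h
    refine ⟨⟨?_, ?_⟩, ?_, ?_⟩ <;> linarith

theorem TB_rg23 : ROK [.q ⟨-3, -17, 20, 0⟩ ⟨-37, 17, 20, 0⟩, .q ⟨0, 20, -20, 0⟩ ⟨-40, 20, 20, 0⟩, .q ⟨37, -17, -20, 0⟩ ⟨3335, 1159, -529, -3965⟩, .q ⟨40, -20, -20, 0⟩ ⟨3335, 1159, -529, -3965⟩, .q ⟨37, -17, -20, 0⟩ ⟨671, -1875, -2162, 3366⟩, .q ⟨40, -20, -20, 0⟩ ⟨671, -1875, -2162, 3366⟩, .q ⟨37, -17, -20, 0⟩ ⟨1960, 3526, -3433, -2053⟩, .q ⟨40, -20, -20, 0⟩ ⟨1960, 3526, -3433, -2053⟩] := by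
  refine rok_bs (s := -1) (nlo := 17) (nhi := 20) (q := 20) (by decide) (by decide) (by decide) (by decide) (k := 1) (by decide) (Q := [(-529, 3965, -1159), (-2162, -3366, 1875), (-3433, 2053, -3526)])
    (P := [⟨-522240, -20, 0⟩, ⟨614400, 20, 0⟩, ⟨-35604480, -529, 3965⟩, ⟨57600000, -2162, -3366⟩, ⟨-108318720, -3433, 2053⟩]) rfl rfl
    (List.mem_of_getElem? (i := 23) rfl) TB_fr TB_cov ?_
  · intro X Y h
    simp only [List.forall_mem_cons, List.not_mem_nil, false_imp_iff, implies_true, and_true] at h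
    push_cast at h ⊢
    obtain ⟨h0, h1, h2, h3, h4⟩ := h
    refine ⟨⟨?_, ?_⟩, ?_, ?_⟩ <;> linarith

end Pool.Agent.TET
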