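import Pool.Agent.Helper38_TET.TB_C

/-!
# MP_c7c9bf_co: certificates, family TB
-/

set_option autoImplicit false
set_option maxRecDepth 100000

namespace Pool.Agent.TET

theorem TB_rg312 : ROK [.q ⟨-289, -671, 960, 0⟩ ⟨-1631, 671, 960, 0⟩, .q ⟨282, 678, -960, 0⟩ ⟨-1638, 678, 960, 0⟩, .q ⟨1631, -671, -960, 0⟩ ⟨14779, -11005, 220, -3994⟩, .q ⟨1638, -678, -960, 0⟩ ⟨14779, -11005, 220, -3994⟩, .q ⟨1631, -671, -960, 0⟩ ⟨-1386, -501, -110, 1997⟩, .q ⟨1638, -678, -960, 0⟩ ⟨-1386, -501, -110, 1997⟩, .q ⟨1631, -671, -960, 0⟩ ⟨2395, 3011, -3536, -1870⟩, .q ⟨1638, -678, -960, 0⟩ ⟨2395, 3011, -3536, -1870⟩, .q ⟨1631, -671, -960, 0⟩ ⟨-732, 1561, -3212, 2383⟩, .q ⟨1638, -678, -960, 0⟩ ⟨-732, 1561, -3212, 2383⟩] := by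
  refine rok_bs (s := -1) (nlo := 671) (nhi := 678) (q := 960) (by decide) (by decide) (by decide) (by decide) (k := 1) (by decide) (Q := [(220, 3994, 11005), (-110, -1997, 501), (-3536, 1870, -3011), (-3212, -2383, -1561)])
    (P := [⟨-20613120, -960, 0⟩, ⟨20828160, 960, 0⟩, ⟨338073600, 220, 3994⟩, ⟨15390720, -110, -1997⟩, ⟨-92497920, -3536, 1870⟩, ⟨-47953920, -3212, -2383⟩]) rfl rfl
    (List.mem_of_getElem? (i := 312) rfl) TB_fr TB_cov ?_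
  · intro X Y h
    simp only [List.forall_mem_cons, List.not_mem_nil, false_imp_iff, implies_true, and_true] at h
    push_cast at h ⊢
    obtain ⟨h0, h1, h2, h3, h4, h5⟩ := h
    refine ⟨⟨?_, ?_⟩, ?_, ?_⟩ <;> linarith

theorem TB_rg313 : ROK [.q ⟨-280, -680, 960, 0⟩ ⟨-1640, 680, 960, 0⟩, .q ⟨269, 691, -960, 0⟩ ⟨-1651, 691, 960, 0⟩, .q ⟨1640, -680, -960, 0⟩ ⟨561, 239, 0, -800⟩, .q ⟨1651, -691, -960, 0⟩ ⟨561, 239, 0, -800⟩, .q ⟨1640, -680, -960, 0⟩ ⟨71, -871, 0, 800⟩, .q ⟨1651, -691, -960, 0⟩ ⟨71, -871, 0, 800⟩, .q ⟨1640, -680, -960, 0⟩ ⟨924, -1419, 3065, -2570⟩, .q ⟨1651, -691, -960, 0⟩ ⟨924, -1419, 3065, -2570⟩] := by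
  refine rok_bs (s := -1) (nlo := 680) (nhi := 691) (q := 960) (by decide) (by decide) (by decide) (by decide) (k := 1) (by decide) (Q := [(0, 800, -239), (0, -800, 871), (3065, 2570, 1419)])
    (P := [⟨-20889600, -960, 0⟩, ⟨21227520, 960, 0⟩, ⟨-7342080, 0, 800⟩, ⟨26757120, 0, -800⟩, ⟨43591680, 3065, 2570⟩]) rfl rfl
    (List.mem_of_getElem? (i := 313) rfl) TB_fr TB_cov ?_
  · intro X Y h
    simp only [List.forall_mem_cons, List.not_mem_nil, false_imp_iff, implies_true, and_true] at h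
    push_cast at h ⊢
    obtain ⟨h0, h1, h2, h3, h4⟩ := h
    refine ⟨⟨?_, ?_⟩, ?_, ?_⟩ <;> linarith

theorem TB_rg314 : ROK [.q ⟨-289, -671, 960, 0⟩ ⟨-1631, 671, 960, 0⟩, .q ⟨280, 680, -960, 0⟩ ⟨-1640, 680, 960, 0⟩, .q ⟨1631, -671, -960, 0⟩ ⟨12080, -11829, 2700, -2951⟩, .q ⟨1640, -680, -960, 0⟩ ⟨12080, -11829, 2700, -2951⟩, .q ⟨1631, -671, -960, 0⟩ ⟨10710, -10961, -2700, 2951⟩, .q ⟨1640, -680, -960, 0⟩ ⟨10710, -10961, -2700, 2951⟩, .q ⟨1631, -671, -960, 0⟩ ⟨2287, 3036, -3618, -1705⟩, .q ⟨1640, -680, -960, 0⟩ ⟨2287, 3036, -3618, -1705⟩, .q ⟨1631, -671, -960, 0⟩ ⟨-743, 1554, -3205, 2394⟩, .q ⟨1640, -680, -960, 0⟩ ⟨-743, 1554, -3205, 2394⟩] := by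
  refine rok_bs (s := -1) (nlo := 671) (nhi := 680) (q := 960) (by decide) (by decide) (by decide) (by decide) (k := 1) (by decide) (Q := [(2700, 2951, 11829), (-2700, -2951, 10961), (-3618, 1705, -3036), (-3205, -2394, -1554)])
    (P := [⟨-20613120, -960, 0⟩, ⟨20889600, 960, 0⟩, ⟨363386880, 2700, 2951⟩, ⟨336721920, -2700, -2951⟩, ⟨-93265920, -3618, 1705⟩, ⟨-47738880, -3205, -2394⟩]) rfl rfl
    (List.mem_of_getElem? (i := 314) rfl) TB_fr TB_cov ?_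
  · intro X Y h
    simp only [List.forall_mem_cons, List.not_mem_nil, false_imp_iff, implies_true, and_true] at h
    push_cast at h ⊢
    obtain ⟨h0, h1, h2, h3, h4, h5⟩ := h
    refine ⟨⟨?_, ?_⟩, ?_, ?_⟩ <;> linarith

theorem TB_rg315 : ROK [.q ⟨-94, -226, 320, 0⟩ ⟨-546, 226, 320, 0⟩, .q ⟨91, 229, -320, 0⟩ ⟨-549, 229, 320, 0⟩, .q ⟨546, -226, -320, 0⟩ ⟨3006, 1874, -1009, -3871⟩, .q ⟨549, -229, -320, 0⟩ ⟨3006, 1874, -1009, -3871⟩, .q ⟨546, -226, -320, 0⟩ ⟨292, -4488, 201, 3995⟩, .q ⟨549, -229, -320, 0⟩ ⟨292, -4488, 201, 3995⟩, .q ⟨546, -226, -320, 0⟩ ⟨672, -59, 585, -1198⟩, .q ⟨549, -229, -320, 0⟩ ⟨672, -59, 585, -1198⟩] := by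
  refine rok_bs (s := -1) (nlo := 226) (nhi := 229) (q := 320) (by decide) (by decide) (by decide) (by decide) (k := 1) (by decide) (Q := [(-1009, 3871, -1874), (201, -3995, 4488), (585, 1198, 59)])
    (P := [⟨-6942720, -320, 0⟩, ⟨7034880, 320, 0⟩, ⟨-57569280, -1009, 3871⟩, ⟨137871360, 201, -3995⟩, ⟨1812480, 585, 1198⟩]) rfl rfl
    (List.mem_of_getElem? (i := 315) rfl) TB_fr TB_cov ?_
  · intro X Y h
    simp only [List.forall_mem_cons, List.not_mem_nil, false_imp_iff, implies_true, and_true] at h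
    push_cast at h ⊢
    obtain ⟨h0, h1, h2, h3, h4⟩ := h
    refine ⟨⟨?_, ?_⟩, ?_, ?_⟩ <;> linarith

theorem TB_rg316 : ROK [.q ⟨-293, -667, 960, 0⟩ ⟨-1627, 667, 960, 0⟩, .q ⟨282, 678, -960, 0⟩ ⟨-1638, 678, 960, 0⟩, .q ⟨1627, -667, -960, 0⟩ ⟨18, 7, 0, -25⟩, .q ⟨1638, -678, -960, 0⟩ ⟨18, 7, 0, -25⟩, .q ⟨1627, -667, -960, 0⟩ ⟨-1421, -579, 0, 2000⟩, .q ⟨1638, -678, -960, 0⟩ ⟨-1421, -579, 0, 2000⟩, .q ⟨1627, -667, -960, 0⟩ ⟨-158, 954, -1755, 959⟩, .q ⟨1638, -678, -960, 0⟩ ⟨-158, 954, -1755, 959⟩] := by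
  refine rok_bs (s := -1) (nlo := 667) (nhi := 678) (q := 960) (by decide) (by decide) (by decide) (by decide) (k := 1) (by decide) (Q := [(0, 25, -7), (0, -2000, 579), (-1755, -959, -954)])
    (P := [⟨-20490240, -960, 0⟩, ⟨20828160, 960, 0⟩, ⟨-215040, 0, 25⟩, ⟨17786880, 0, -2000⟩, ⟨-29306880, -1755, -959⟩]) rfl rfl
    (List.mem_of_getElem? (i := 316) rfl) TB_fr TB_cov ?_
  · intro X Y h
    simp only [List.forall_mem_cons, List.not_mem_nil, false_imp_iff, implies_true, and_true] at h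
    push_cast at h ⊢
    obtain ⟨h0, h1, h2, h3, h4⟩ := h
    refine ⟨⟨?_, ?_⟩, ?_, ?_⟩ <;> linarith

theorem TB_rg317 : ROK [.q ⟨-278, -682, 960, 0⟩ ⟨-1642, 682, 960, 0⟩, .q ⟨271, 689, -960, 0⟩ ⟨-1649, 689, 960, 0⟩, .q ⟨1642, -682, -960, 0⟩ ⟨2799, 1178, 23, -4000⟩, .q ⟨1649, -689, -960, 0⟩ ⟨2799, 1178, 23, -4000⟩, .q ⟨1642, -682, -960, 0⟩ ⟨362, -4339, -23, 4000⟩, .q ⟨1649, -689, -960, 0⟩ ⟨362, -4339, -23, 4000⟩, .q ⟨1642, -682, -960, 0⟩ ⟨126, -2098, 3637, -1665⟩, .q ⟨1649, -689, -960, 0⟩ ⟨126, -2098, 3637, -1665⟩] := by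
  refine rok_bs (s := -1) (nlo := 682) (nhi := 689) (q := 960) (by decide) (by decide) (by decide) (by decide) (k := 1) (by decide) (Q := [(23, 4000, -1178), (-23, -4000, 4339), (3637, 1665, 2098)])
    (P := [⟨-20951040, -960, 0⟩, ⟨21166080, 960, 0⟩, ⟨-36188160, 23, 4000⟩, ⟨133294080, -23, -4000⟩, ⟨64450560, 3637, 1665⟩]) rfl rfl
    (List.mem_of_getElem? (i := 317) rfl) TB_fr TB_cov ?_
  · intro X Y h
    simp only [List.forall_mem_cons, List.not_mem_nil, false_imp_iff, implies_true, and_true] at h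
    push_cast at h ⊢
    obtain ⟨h0, h1, h2, h3, h4⟩ := h
    refine ⟨⟨?_, ?_⟩, ?_, ?_⟩ <;> linarith

theorem TB_rg318 : ROK [.q ⟨-143, -337, 480, 0⟩ ⟨-817, 337, 480, 0⟩, .q ⟨132, 348, -480, 0⟩ ⟨-828, 348, 480, 0⟩, .q ⟨817, -337, -480, 0⟩ ⟨14600, -11279, 629, -3950⟩, .q ⟨828, -348, -480, 0⟩ ⟨14600, -11279, 629, -3950⟩, .q ⟨817, -337, -480, 0⟩ ⟨-2595, -726, -629, 3950⟩, .q ⟨828, -348, -480, 0⟩ ⟨-2595, -726, -629, 3950⟩, .q ⟨817, -337, -480, 0⟩ ⟨3199, 1541, -826, -3914⟩, .q ⟨828, -348, -480, 0⟩ ⟨3199, 1541, -826, -3914⟩, .q ⟨817, -337, -480, 0⟩ ⟨-214, 1989, -3573, 1798⟩, .q ⟨828, -348, -480, 0⟩ ⟨-214, 1989, -3573, 1798⟩] := by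
  refine rok_bs (s := -1) (nlo := 337) (nhi := 348) (q := 480) (by decide) (by decide) (by decide) (by decide) (k := 1) (by decide) (Q := [(629, 3950, 11279), (-629, -3950, 726), (-826, 3914, -1541), (-3573, -1798, -1989)])
    (P := [⟨-10352640, -480, 0⟩, ⟨10690560, 480, 0⟩, ⟨346490880, 629, 3950⟩, ⟨22302720, -629, -3950⟩, ⟨-47339520, -826, 3914⟩, ⟨-61102080, -3573, -1798⟩]) rfl rfl
    (List.mem_of_getElem? (i := 318) rfl) TB_fr TB_cov ?_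
  · intro X Y h
    simp only [List.forall_mem_cons, List.not_mem_nil, false_imp_iff, implies_true, and_true] at h
    push_cast at h ⊢
    obtain ⟨h0, h1, h2, h3, h4, h5⟩ := h
    refine ⟨⟨?_, ?_⟩, ?_, ?_⟩ <;> linarith

theorem TB_rg319 : ROK [.q ⟨-279, -681, 960, 0⟩ ⟨-1641, 681, 960, 0⟩, .q ⟨271, 689, -960, 0⟩ ⟨-1649, 689, 960, 0⟩, .q ⟨1641, -681, -960, 0⟩ ⟨3027, 2078, -1335, -3770⟩, .q ⟨1649, -689, -960, 0⟩ ⟨3027, 2078, -1335, -3770⟩, .q ⟨1641, -681, -960, 0⟩ ⟨325, -1717, -535, 1927⟩, .q ⟨1649, -689, -960, 0⟩ ⟨325, -1717, -535, 1927⟩, .q ⟨1641, -681, -960, 0⟩ ⟨975, -1370, 3019, -2624⟩, .q ⟨1649, -689, -960, 0⟩ ⟨975, -1370, 3019, -2624⟩] := by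
  refine rok_bs (s := -1) (nlo := 681) (nhi := 689) (q := 960) (by decide) (by decide) (by decide) (by decide) (k := 1) (by decide) (Q := [(-1335, 3770, -2078), (-535, -1927, 1717), (3019, 2624, 1370)])
    (P := [⟨-20920320, -960, 0⟩, ⟨21166080, 960, 0⟩, ⟨-63836160, -1335, 3770⟩, ⟨52746240, -535, -1927⟩, ⟨42086400, 3019, 2624⟩]) rfl rfl
    (List.mem_of_getElem? (i := 319) rfl) TB_fr TB_cov ?_
  · intro X Y h
    simp only [List.forall_mem_cons, List.not_mem_nil, false_imp_iff, implies_true, and_true] at h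
    push_cast at h ⊢
    obtain ⟨h0, h1, h2, h3, h4⟩ := h
    refine ⟨⟨?_, ?_⟩, ?_, ?_⟩ <;> linarith

theorem TB_rg320 : ROK [.q ⟨-142, -338, 480, 0⟩ ⟨-818, 338, 480, 0⟩, .q ⟨135, 345, -480, 0⟩ ⟨-825, 345, 480, 0⟩, .q ⟨818, -338, -480, 0⟩ ⟨759, 241, 0, -1000⟩, .q ⟨825, -345, -480, 0⟩ ⟨759, 241, 0, -1000⟩, .q ⟨818, -338, -480, 0⟩ ⟨9191, -13191, 0, 4000⟩, .q ⟨825, -345, -480, 0⟩ ⟨9191, -13191, 0, 4000⟩, .q ⟨818, -338, -480, 0⟩ ⟨-2271, -3077, 3595, 1753⟩, .q ⟨825, -345, -480, 0⟩ ⟨-2271, -3077, 3595, 1753⟩] := by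
  refine rok_bs (s := -1) (nlo := 338) (nhi := 345) (q := 480) (by decide) (by decide) (by decide) (by decide) (k := 1) (by decide) (Q := [(0, 1000, -241), (0, -4000, 13191), (3595, -1753, 3077)])
    (P := [⟨-10383360, -480, 0⟩, ⟨10598400, 480, 0⟩, ⟨-7403520, 0, 1000⟩, ⟨405227520, 0, -4000⟩, ⟨94525440, 3595, -1753⟩]) rfl rfl
    (List.mem_of_getElem? (i := 320) rfl) TB_fr TB_cov ?_
  · intro X Y h
    simp only [List.forall_mem_cons, List.not_mem_nil, false_imp_iff, implies_true, and_true] at h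
    push_cast at h ⊢
    obtain ⟨h0, h1, h2, h3, h4⟩ := h
    refine ⟨⟨?_, ?_⟩, ?_, ?_⟩ <;> linarith

theorem TB_rg321 : ROK [.q ⟨-94, -226, 320, 0⟩ ⟨-546, 226, 320, 0⟩, .q ⟨91, 229, -320, 0⟩ ⟨-549, 229, 320, 0⟩, .q ⟨546, -226, -320, 0⟩ ⟨2807, 1199, -6, -4000⟩, .q ⟨549, -229, -320, 0⟩ ⟨2807, 1199, -6, -4000⟩, .q ⟨546, -226, -320, 0⟩ ⟨175, -2178, 3, 2000⟩, .q ⟨549, -229, -320, 0⟩ ⟨175, -2178, 3, 2000⟩, .q ⟨546, -226, -320, 0⟩ ⟨553, -1755, 3365, -2163⟩, .q ⟨549, -229, -320, 0⟩ ⟨553, -1755, 3365, -2163⟩] := by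
  refine rok_bs (s := -1) (nlo := 226) (nhi := 229) (q := 320) (by decide) (by decide) (by decide) (by decide) (k := 1) (by decide) (Q := [(-6, 4000, -1199), (3, -2000, 2178), (3365, 2163, 1755)])
    (P := [⟨-6942720, -320, 0⟩, ⟨7034880, 320, 0⟩, ⟨-36833280, -6, 4000⟩, ⟨66908160, 3, -2000⟩, ⟨53913600, 3365, 2163⟩]) rfl rfl
    (List.mem_of_getElem? (i := 321) rfl) TB_fr TB_cov ?_
  · intro X Y h
    simp only [List.forall_mem_cons, List.not_mem_nil, false_imp_iff, implies_true, and_true] at h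
    push_cast at h ⊢
    obtain ⟨h0, h1, h2, h3, h4⟩ := h
    refine ⟨⟨?_, ?_⟩, ?_, ?_⟩ <;> linarith

theorem TB_rg322 : ROK [.q ⟨-48, -112, 160, 0⟩ ⟨-272, 112, 160, 0⟩, .q ⟨45, 115, -160, 0⟩ ⟨-275, 115, 160, 0⟩, .q ⟨272, -112, -160, 0⟩ ⟨2801, 1183, 16, -4000⟩, .q ⟨275, -115, -160, 0⟩ ⟨2801, 1183, 16, -4000⟩, .q ⟨272, -112, -160, 0⟩ ⟨163, -4708, 588, 3957⟩, .q ⟨275, -115, -160, 0⟩ ⟨163, -4708, 588, 3957⟩, .q ⟨272, -112, -160, 0⟩ ⟨805, -346, 1166, -1625⟩, .q ⟨275, -115, -160, 0⟩ ⟨805, -346, 1166, -1625⟩] := by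
  refine rok_bs (s := -1) (nlo := 112) (nhi := 115) (q := 160) (by decide) (by decide) (by decide) (by decide) (k := 1) (by decide) (Q := [(16, 4000, -1183), (588, -3957, 4708), (1166, 1625, 346)])
    (P := [⟨-3440640, -160, 0⟩, ⟨3532800, 160, 0⟩, ⟨-36341760, 16, 4000⟩, ⟨144629760, 588, -3957⟩, ⟨10629120, 1166, 1625⟩]) rfl rfl
    (List.mem_of_getElem? (i := 322) rfl) TB_fr TB_cov ?_
  · intro X Y h
    simp only [List.forall_mem_cons, List.not_mem_nil, false_imp_iff, implies_true, and_true] at h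
    push_cast at h ⊢
    obtain ⟨h0, h1, h2, h3, h4⟩ := h
    refine ⟨⟨?_, ?_⟩, ?_, ?_⟩ <;> linarith

theorem TB_rg323 : ROK [.q ⟨-289, -671, 960, 0⟩ ⟨-1631, 671, 960, 0⟩, .q ⟨281, 679, -960, 0⟩ ⟨-1639, 679, 960, 0⟩, .q ⟨1631, -671, -960, 0⟩ ⟨2291, -1491, 0, -800⟩, .q ⟨1639, -679, -960, 0⟩ ⟨2291, -1491, 0, -800⟩, .q ⟨1631, -671, -960, 0⟩ ⟨5851, -9851, 0, 4000⟩, .q ⟨1639, -679, -960, 0⟩ ⟨5851, -9851, 0, 4000⟩, .q ⟨1631, -671, -960, 0⟩ ⟨2593, 2975, -3284, -2284⟩, .q ⟨1639, -679, -960, 0⟩ ⟨2593, 2975, -3284, -2284⟩, .q ⟨1631, -671, -960, 0⟩ ⟨-863, 1440, -3102, 2525⟩, .q ⟨1639, -679, -960, 0⟩ ⟨-863, 1440, -3102, 2525⟩] := by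
  refine rok_bs (s := -1) (nlo := 671) (nhi := 679) (q := 960) (by decide) (by decide) (by decide) (by decide) (k := 1) (by decide) (Q := [(0, 800, 1491), (0, -4000, 9851), (-3284, 2284, -2975), (-3102, -2525, -1440)])
    (P := [⟨-20613120, -960, 0⟩, ⟨20858880, 960, 0⟩, ⟨45803520, 0, 800⟩, ⟨302622720, 0, -4000⟩, ⟨-91392000, -3284, 2284⟩, ⟨-44236800, -3102, -2525⟩]) rfl rfl
    (List.mem_of_getElem? (i := 323) rfl) TB_fr TB_cov ?_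
  · intro X Y h
    simp only [List.forall_mem_cons, List.not_mem_nil, false_imp_iff, implies_true, and_true] at h
    push_cast at h ⊢
    obtain ⟨h0, h1, h2, h3, h4, h5⟩ := h
    refine ⟨⟨?_, ?_⟩, ?_, ?_⟩ <;> linarith

theorem TB_rg324 : ROK [.q ⟨-291, -669, 960, 0⟩ ⟨-1629, 669, 960, 0⟩, .q ⟨280, 680, -960, 0⟩ ⟨-1640, 680, 960, 0⟩, .q ⟨1629, -669, -960, 0⟩ ⟨7427, -5427, 0, -2000⟩, .q ⟨1640, -680, -960, 0⟩ ⟨7427, -5427, 0, -2000⟩, .q ⟨1629, -669, -960, 0⟩ ⟨-1421, -579, 0, 2000⟩, .q ⟨1640, -680, -960, 0⟩ ⟨-1421, -579, 0, 2000⟩, .q ⟨1629, -669, -960, 0⟩ ⟨2247, 3024, -3662, -1609⟩, .q ⟨1640, -680, -960, 0⟩ ⟨2247, 3024, -3662, -1609⟩, .q ⟨1629, -669, -960, 0⟩ ⟨-1308, 1020, -2681, 2969⟩, .q ⟨1640, -680, -960, 0⟩ ⟨-1308, 1020, -2681, 2969⟩] := by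
  refine rok_bs (s := -1) (nlo := 669) (nhi := 680) (q := 960) (by decide) (by decide) (by decide) (by decide) (k := 1) (by decide) (Q := [(0, 2000, 5427), (0, -2000, 579), (-3662, 1609, -3024), (-2681, -2969, -1020)])
    (P := [⟨-20551680, -960, 0⟩, ⟨20889600, 960, 0⟩, ⟨166717440, 0, 2000⟩, ⟨17786880, 0, -2000⟩, ⟨-92897280, -3662, 1609⟩, ⟨-31334400, -2681, -2969⟩]) rfl rfl
    (List.mem_of_getElem? (i := 324) rfl) TB_fr TB_cov ?_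
  · intro X Y h
    simp only [List.forall_mem_cons, List.not_mem_nil, false_imp_iff, implies_true, and_true] at h
    push_cast at h ⊢
    obtain ⟨h0, h1, h2, h3, h4, h5⟩ := h
    refine ⟨⟨?_, ?_⟩, ?_, ?_⟩ <;> linarith

theorem TB_rg325 : ROK [.q ⟨-291, -669, 960, 0⟩ ⟨-1629, 669, 960, 0⟩, .q ⟨283, 677, -960, 0⟩ ⟨-1637, 677, 960, 0⟩, .q ⟨1629, -669, -960, 0⟩ ⟨12250, -11936, 2667, -2981⟩, .q ⟨1637, -677, -960, 0⟩ ⟨12250, -11936, 2667, -2981⟩, .q ⟨1629, -669, -960, 0⟩ ⟨-1325, 1011, -2667, 2981⟩, .q ⟨1637, -677, -960, 0⟩ ⟨-1325, 1011, -2667, 2981⟩, .q ⟨1629, -669, -960, 0⟩ ⟨2165, 3022, -3722, -1465⟩, .q ⟨1637, -677, -960, 0⟩ ⟨2165, 3022, -3722, -1465⟩] := by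
  refine rok_bs (s := -1) (nlo := 669) (nhi := 677) (q := 960) (by decide) (by decide) (by decide) (by decide) (k := 1) (by decide) (Q := [(2667, 2981, 11936), (-2667, -2981, -1011), (-3722, 1465, -3022)])
    (P := [⟨-20551680, -960, 0⟩, ⟨20797440, 960, 0⟩, ⟨366673920, 2667, 2981⟩, ⟨-31057920, -2667, -2981⟩, ⟨-92835840, -3722, 1465⟩]) rfl rfl
    (List.mem_of_getElem? (i := 325) rfl) TB_fr TB_cov ?_
  · intro X Y h
    simp only [List.forall_mem_cons, List.not_mem_nil, false_imp_iff, implies_true, and_true] at h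
    push_cast at h ⊢
    obtain ⟨h0, h1, h2, h3, h4⟩ := h
    refine ⟨⟨?_, ?_⟩, ?_, ?_⟩ <;> linarith

theorem TB_rg326 : ROK [.q ⟨-281, -679, 960, 0⟩ ⟨-1639, 679, 960, 0⟩, .q ⟨274, 686, -960, 0⟩ ⟨-1646, 686, 960, 0⟩, .q ⟨1639, -679, -960, 0⟩ ⟨3170, 1367, -579, -3958⟩, .q ⟨1646, -686, -960, 0⟩ ⟨3170, 1367, -579, -3958⟩, .q ⟨1639, -679, -960, 0⟩ ⟨9053, -13590, 579, 3958⟩, .q ⟨1646, -686, -960, 0⟩ ⟨9053, -13590, 579, 3958⟩, .q ⟨1639, -679, -960, 0⟩ ⟨-2515, -3028, 3336, 2207⟩, .q ⟨1646, -686, -960, 0⟩ ⟨-2515, -3028, 3336, 2207⟩] := by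
  refine rok_bs (s := -1) (nlo := 679) (nhi := 686) (q := 960) (by decide) (by decide) (by decide) (by decide) (k := 1) (by decide) (Q := [(-579, 3958, -1367), (579, -3958, 13590), (3336, -2207, 3028)])
    (P := [⟨-20858880, -960, 0⟩, ⟨21073920, 960, 0⟩, ⟨-41994240, -579, 3958⟩, ⟨417484800, 579, -3958⟩, ⟨93020160, 3336, -2207⟩]) rfl rfl
    (List.mem_of_getElem? (i := 326) rfl) TB_fr TB_cov ?_
  · intro X Y h
    simp only [List.forall_mem_cons, List.not_mem_nil, false_imp_iff, implies_true, and_true] at h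
    push_cast at h ⊢
    obtain ⟨h0, h1, h2, h3, h4⟩ := h
    refine ⟨⟨?_, ?_⟩, ?_, ?_⟩ <;> linarith

theorem TB_rg327 : ROK [.q ⟨-7, -13, 20, 0⟩ ⟨-33, 13, 20, 0⟩, .q ⟨5, 15, -20, 0⟩ ⟨-35, 15, 20, 0⟩, .q ⟨33, -13, -20, 0⟩ ⟨14511, -10511, 0, -4000⟩, .q ⟨35, -15, -20, 0⟩ ⟨14511, -10511, 0, -4000⟩, .q ⟨33, -13, -20, 0⟩ ⟨-1412, -559, -29, 2000⟩, .q ⟨35, -15, -20, 0⟩ ⟨-1412, -559, -29, 2000⟩, .q ⟨33, -13, -20, 0⟩ ⟨1508, 812, -351, -1969⟩, .q ⟨35, -15, -20, 0⟩ ⟨1508, 812, -351, -1969⟩, .q ⟨33, -13, -20, 0⟩ ⟨-752, 1543, -3196, 2405⟩, .q ⟨35, -15, -20, 0⟩ ⟨-752, 1543, -3196, 2405⟩] := by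
  refine rok_bs (s := -1) (nlo := 13) (nhi := 15) (q := 20) (by decide) (by decide) (by decide) (by decide) (k := 1) (by decide) (Q := [(0, 4000, 10511), (-29, -2000, 559), (-351, 1969, -812), (-3196, -2405, -1543)])
    (P := [⟨-399360, -20, 0⟩, ⟨460800, 20, 0⟩, ⟨322897920, 0, 4000⟩, ⟨17172480, -29, -2000⟩, ⟨-24944640, -351, 1969⟩, ⟨-47400960, -3196, -2405⟩]) rfl rfl
    (List.mem_of_getElem? (i := 327) rfl) TB_fr TB_cov ?_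
  · intro X Y h
    simp only [List.forall_mem_cons, List.not_mem_nil, false_imp_iff, implies_true, and_true] at h
    push_cast at h ⊢
    obtain ⟨h0, h1, h2, h3, h4, h5⟩ := h
    refine ⟨⟨?_, ?_⟩, ?_, ?_⟩ <;> linarith

theorem TB_rg328 : ROK [.q ⟨-281, -679, 960, 0⟩ ⟨-1639, 679, 960, 0⟩, .q ⟨270, 690, -960, 0⟩ ⟨-1650, 690, 960, 0⟩, .q ⟨1639, -679, -960, 0⟩ ⟨5834, -5145, 1027, -1716⟩, .q ⟨1650, -690, -960, 0⟩ ⟨5834, -5145, 1027, -1716⟩, .q ⟨1639, -679, -960, 0⟩ ⟨-1819, 441, -2054, 3432⟩, .q ⟨1650, -690, -960, 0⟩ ⟨-1819, 441, -2054, 3432⟩, .q ⟨1639, -679, -960, 0⟩ ⟨190, -2177, 3642, -1655⟩, .q ⟨1650, -690, -960, 0⟩ ⟨190, -2177, 3642, -1655⟩, .q ⟨1639, -679, -960, 0⟩ ⟨-2961, -2610, 2293, 3278⟩, .q ⟨1650, -690, -960, 0⟩ ⟨-2961, -2610, 2293, 3278⟩] := by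
  refine rok_bs (s := -1) (nlo := 679) (nhi := 690) (q := 960) (by decide) (by decide) (by decide) (by decide) (k := 1) (by decide) (Q := [(1027, 1716, 5145), (-2054, -3432, -441), (3642, 1655, 2177), (2293, -3278, 2610)])
    (P := [⟨-20858880, -960, 0⟩, ⟨21196800, 960, 0⟩, ⟨158054400, 1027, 1716⟩, ⟨-13547520, -2054, -3432⟩, ⟨66877440, 3642, 1655⟩, ⟨80179200, 2293, -3278⟩]) rfl rfl
    (List.mem_of_getElem? (i := 328) rfl) TB_fr TB_cov ?_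
  · intro X Y h
    simp only [List.forall_mem_cons, List.not_mem_nil, false_imp_iff, implies_true, and_true] at h
    push_cast at h ⊢
    obtain ⟨h0, h1, h2, h3, h4, h5⟩ := h
    refine ⟨⟨?_, ?_⟩, ?_, ?_⟩ <;> linarith

theorem TB_rg329 : ROK [.q ⟨-7, -13, 20, 0⟩ ⟨-33, 13, 20, 0⟩, .q ⟨4, 16, -20, 0⟩ ⟨-36, 16, 20, 0⟩, .q ⟨33, -13, -20, 0⟩ ⟨3014, 1587, -655, -3946⟩, .q ⟨36, -16, -20, 0⟩ ⟨3014, 1587, -655, -3946⟩, .q ⟨33, -13, -20, 0⟩ ⟨-3000, -1601, 655, 3946⟩, .q ⟨36, -16, -20, 0⟩ ⟨-3000, -1601, 655, 3946⟩, .q ⟨33, -13, -20, 0⟩ ⟨69, 2180, -3720, 1471⟩, .q ⟨36, -16, -20, 0⟩ ⟨69, 2180, -3720, 1471⟩] := by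
  refine rok_bs (s := -1) (nlo := 13) (nhi := 16) (q := 20) (by decide) (by decide) (by decide) (by decide) (k := 1) (by decide) (Q := [(-655, 3946, -1587), (655, -3946, 1601), (-3720, -1471, -2180)])
    (P := [⟨-399360, -20, 0⟩, ⟨491520, 20, 0⟩, ⟨-48752640, -655, 3946⟩, ⟨49182720, 655, -3946⟩, ⟨-66969600, -3720, -1471⟩]) rfl rfl
    (List.mem_of_getElem? (i := 329) rfl) TB_fr TB_cov ?_
  · intro X Y h
    simp only [List.forall_mem_cons, List.not_mem_nil, false_imp_iff, implies_true, and_true] at h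
    push_cast at h ⊢
    obtain ⟨h0, h1, h2, h3, h4⟩ := h
    refine ⟨⟨?_, ?_⟩, ?_, ?_⟩ <;> linarith

theorem TB_rg330 : ROK [.q ⟨-6, -474, 480, 0⟩ ⟨-954, 474, 480, 0⟩, .q ⟨1, 479, -480, 0⟩ ⟨-959, 479, 480, 0⟩, .q ⟨954, -474, -480, 0⟩ ⟨3907, -1225, 1149, -3831⟩, .q ⟨959, -479, -480, 0⟩ ⟨3907, -1225, 1149, -3831⟩, .q ⟨954, -474, -480, 0⟩ ⟨-3550, 868, -1149, 3831⟩, .q ⟨959, -479, -480, 0⟩ ⟨-3550, 868, -1149, 3831⟩] := by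
  refine rok_bs (s := -1) (nlo := 474) (nhi := 479) (q := 480) (by decide) (by decide) (by decide) (by decide) (k := 1) (by decide) (Q := [(1149, 3831, 1225), (-1149, -3831, -868)])
    (P := [⟨-14561280, -480, 0⟩, ⟨14714880, 480, 0⟩, ⟨37632000, 1149, 3831⟩, ⟨-26664960, -1149, -3831⟩]) rfl rfl
    (List.mem_of_getElem? (i := 330) rfl) TB_fr TB_cov ?_
  · intro X Y h
    simp only [List.forall_mem_cons, List.not_mem_nil, false_imp_iff, implies_true, and_true] at h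
    push_cast at h ⊢
    obtain ⟨h0, h1, h2, h3⟩ := h
    refine ⟨⟨?_, ?_⟩, ?_, ?_⟩ <;> linarith

theorem TB_rg331 : ROK [.q ⟨-13, -27, 40, 0⟩ ⟨-67, 27, 40, 0⟩, .q ⟨10, 30, -40, 0⟩ ⟨-70, 30, 40, 0⟩, .q ⟨67, -27, -40, 0⟩ ⟨1483, -1208, 2688, -2963⟩, .q ⟨70, -30, -40, 0⟩ ⟨1483, -1208, 2688, -2963⟩, .q ⟨67, -27, -40, 0⟩ ⟨967, -1242, -2688, 2963⟩, .q ⟨70, -30, -40, 0⟩ ⟨967, -1242, -2688, 2963⟩, .q ⟨67, -27, -40, 0⟩ ⟨2307, 2998, -3634, -1671⟩, .q ⟨70, -30, -40, 0⟩ ⟨2307, 2998, -3634, -1671⟩] := by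
  refine rok_bs (s := -1) (nlo := 27) (nhi := 30) (q := 40) (by decide) (by decide) (by decide) (by decide) (k := 1) (by decide) (Q := [(2688, 2963, 1208), (-2688, -2963, 1242), (-3634, 1671, -2998)])
    (P := [⟨-829440, -40, 0⟩, ⟨921600, 40, 0⟩, ⟨37109760, 2688, 2963⟩, ⟨38154240, -2688, -2963⟩, ⟨-92098560, -3634, 1671⟩]) rfl rfl
    (List.mem_of_getElem? (i := 331) rfl) TB_fr TB_cov ?_
  · intro X Y h
    simp only [List.forall_mem_cons, List.not_mem_nil, false_imp_iff, implies_true, and_true] at h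
    push_cast at h ⊢
    obtain ⟨h0, h1, h2, h3, h4⟩ := h
    refine ⟨⟨?_, ?_⟩, ?_, ?_⟩ <;> linarith

theorem TB_rg332 : ROK [.q ⟨-13, -27, 40, 0⟩ ⟨-67, 27, 40, 0⟩, .q ⟨10, 30, -40, 0⟩ ⟨-70, 30, 40, 0⟩, .q ⟨67, -27, -40, 0⟩ ⟨1584, 901, -567, -1918⟩, .q ⟨70, -30, -40, 0⟩ ⟨1584, 901, -567, -1918⟩, .q ⟨67, -27, -40, 0⟩ ⟨-431, -5088, 2138, 3381⟩, .q ⟨70, -30, -40, 0⟩ ⟨-431, -5088, 2138, 3381⟩, .q ⟨67, -27, -40, 0⟩ ⟨2465, 2980, -3489, -1956⟩, .q ⟨70, -30, -40, 0⟩ ⟨2465, 2980, -3489, -1956⟩] := by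
  refine rok_bs (s := -1) (nlo := 27) (nhi := 30) (q := 40) (by decide) (by decide) (by decide) (by decide) (k := 1) (by decide) (Q := [(-567, 1918, -901), (2138, -3381, 5088), (-3489, 1956, -2980)])
    (P := [⟨-829440, -40, 0⟩, ⟨921600, 40, 0⟩, ⟨-27678720, -567, 1918⟩, ⟨156303360, 2138, -3381⟩, ⟨-91545600, -3489, 1956⟩]) rfl rfl
    (List.mem_of_getElem? (i := 332) rfl) TB_fr TB_cov ?_
  · intro X Y h
    simp only [List.forall_mem_cons, List.not_mem_nil, false_imp_iff, implies_true, and_true] at h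
    push_cast at h ⊢
    obtain ⟨h0, h1, h2, h3, h4⟩ := h
    refine ⟨⟨?_, ?_⟩, ?_, ?_⟩ <;> linarith

theorem TB_rg333 : ROK [.q ⟨-444, -516, 960, 0⟩ ⟨-1476, 516, 960, 0⟩, .q ⟨433, 527, -960, 0⟩ ⟨-1487, 527, 960, 0⟩, .q ⟨1476, -516, -960, 0⟩ ⟨12384, -12031, 2646, -2999⟩, .q ⟨1487, -527, -960, 0⟩ ⟨12384, -12031, 2646, -2999⟩, .q ⟨1476, -516, -960, 0⟩ ⟨-360, 7, -2646, 2999⟩, .q ⟨1487, -527, -960, 0⟩ ⟨-360, 7, -2646, 2999⟩, .q ⟨1476, -516, -960, 0⟩ ⟨1256, 1357, -1848, -765⟩, .q ⟨1487, -527, -960, 0⟩ ⟨1256, 1357, -1848, -765⟩, .q ⟨1476, -516, -960, 0⟩ ⟨-1838, -1621, -509, 3968⟩, .q ⟨1487, -527, -960, 0⟩ ⟨-1838, -1621, -509, 3968⟩] := by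
  refine rok_bs (s := -1) (nlo := 516) (nhi := 527) (q := 960) (by decide) (by decide) (by decide) (by decide) (k := 1) (by decide) (Q := [(2646, 2999, 12031), (-2646, -2999, -7), (-1848, 765, -1357), (-509, -3968, 1621)])
    (P := [⟨-15851520, -960, 0⟩, ⟨16189440, 960, 0⟩, ⟨369592320, 2646, 2999⟩, ⟨-215040, -2646, -2999⟩, ⟨-41687040, -1848, 765⟩, ⟨49797120, -509, -3968⟩]) rfl rfl
    (List.mem_of_getElem? (i := 333) rfl) TB_fr TB_cov ?_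
  · intro X Y h
    simp only [List.forall_mem_cons, List.not_mem_nil, false_imp_iff, implies_true, and_true] at h
    push_cast at h ⊢
    obtain ⟨h0, h1, h2, h3, h4, h5⟩ := h
    refine ⟨⟨?_, ?_⟩, ?_, ?_⟩ <;> linarith

theorem TB_rg334 : ROK [.q ⟨-2, -3, 5, 0⟩ ⟨-8, 3, 5, 0⟩, .q ⟨1, 4, -5, 0⟩ ⟨-9, 4, 5, 0⟩, .q ⟨8, -3, -5, 0⟩ ⟨3056, 1815, -997, -3874⟩, .q ⟨9, -4, -5, 0⟩ ⟨3056, 1815, -997, -3874⟩, .q ⟨8, -3, -5, 0⟩ ⟨-189, -4682, 997, 3874⟩, .q ⟨9, -4, -5, 0⟩ ⟨-189, -4682, 997, 3874⟩] := by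
  refine rok_bs (s := -1) (nlo := 3) (nhi := 4) (q := 5) (by decide) (by decide) (by decide) (by decide) (k := 1) (by decide) (Q := [(-997, 3874, -1815), (997, -3874, 4682)])
    (P := [⟨-92160, -5, 0⟩, ⟨122880, 5, 0⟩, ⟨-55756800, -997, 3874⟩, ⟨143831040, 997, -3874⟩]) rfl rfl
    (List.mem_of_getElem? (i := 334) rfl) TB_fr TB_cov ?_
  · intro X Y h
    simp only [List.forall_mem_cons, List.not_mem_nil, false_imp_iff, implies_true, and_true] at h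
    push_cast at h ⊢
    obtain ⟨h0, h1, h2, h3⟩ := h
    refine ⟨⟨?_, ?_⟩, ?_, ?_⟩ <;> linarith

theorem TB_rg335 : ROK [.q ⟨-6, -14, 20, 0⟩ ⟨-34, 14, 20, 0⟩, .q ⟨3, 17, -20, 0⟩ ⟨-37, 17, 20, 0⟩, .q ⟨34, -14, -20, 0⟩ ⟨2375, -240, 1552, -3687⟩, .q ⟨37, -17, -20, 0⟩ ⟨2375, -240, 1552, -3687⟩, .q ⟨34, -14, -20, 0⟩ ⟨735, -2870, -1552, 3687⟩, .q ⟨37, -17, -20, 0⟩ ⟨735, -2870, -1552, 3687⟩, .q ⟨34, -14, -20, 0⟩ ⟨1546, 1253, -1197, -1602⟩, .q ⟨37, -17, -20, 0⟩ ⟨1546, 1253, -1197, -1602⟩] := by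
  refine rok_bs (s := -1) (nlo := 14) (nhi := 17) (q := 20) (by decide) (by decide) (by decide) (by decide) (k := 1) (by decide) (Q := [(1552, 3687, 240), (-1552, -3687, 2870), (-1197, 1602, -1253)])
    (P := [⟨-430080, -20, 0⟩, ⟨522240, 20, 0⟩, ⟨7372800, 1552, 3687⟩, ⟨88166400, -1552, -3687⟩, ⟨-38492160, -1197, 1602⟩]) rfl rfl
    (List.mem_of_getElem? (i := 335) rfl) TB_fr TB_cov ?_
  · intro X Y h
    simp only [List.forall_mem_cons, List.not_mem_nil, false_imp_iff, implies_true, and_true] at h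
    push_cast at h ⊢
    obtain ⟨h0, h1, h2, h3, h4⟩ := h
    refine ⟨⟨?_, ?_⟩, ?_, ?_⟩ <;> linarith

end Pool.Agent.TET
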