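import Pool.Agent.Helper38_TET.TB_M
import Pool.Agent.Helper38_TET.TB_L
import Pool.Agent.Helper38_TET.TB_12
import Pool.Agent.Helper38_TET.TB_13
import Pool.Agent.Helper38_TET.TB_93
import Pool.Agent.Helper38_TET.TB_267

/-!
# MP_c7c9bf_co: certificates, family TB
-/

set_option autoImplicit false
set_option maxRecDepth 100000

namespace Pool.Agent.TET

theorem TB_s4_26 : SqZ TB_M TB_L [0, 7, 6, 1] (-32256) (-4608) 1536 4 26 :=
  SqZ.mk (a := (-26112)) (b := (-24576)) (c := 35328) (d := 36864) (by norm_num) (by norm_num) (by norm_num) (by norm_num)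
    (CovZ.topM TB_LL 631663411835948994871848361621341652377797742728621423836244345520028826829325169984249565275776846670072595752157184 (by decide +kernel) (CovZ.n2 (-25344, 36096) (by decide +kernel)
    (CovZ.badM (by decide +kernel))
    (CovZ.n1 (-25344, 35328) (by decide +kernel)
     (CovZ.n2 (-25728, 35712) (by decide +kernel)
      (CovZ.badM (by decide +kernel))
      (CovZ.n1 (-25728, 35328) (by decide +kernel)
       (CovZ.n2 (-25920, 35520) (by decide +kernel)
        (CovZ.badM (by decide +kernel))
        (CovZ.n1 (-25920, 35328) (by decide +kernel)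
         (CovZ.n2 (-26016, 35424) (by decide +kernel)
          (CovZ.n2 (-25920, 35424) (by decide +kernel)
           (CovZ.leaf K2_ok TB_l14031 _)
           (CovZ.badM (by decide +kernel)))
          (CovZ.leaf K2_ok TB_l14033 _))
         (CovZ.n1 (-25824, 35424) (by decide +kernel)
          (CovZ.leaf K2_ok TB_l14034 _)
          (CovZ.n1 (-25920, 35424) (by decide +kernel)
           (CovZ.badM (by decide +kernel))
           (CovZ.n1 (-25872, 35376) (by decide +kernel)
            (CovZ.leaf K2_ok TB_l14035 _)
            (CovZ.badM (by decide +kernel)))))))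
       (CovZ.badM (by decide +kernel))))
     (CovZ.badM (by decide +kernel)))))
    (CovZ.topM TB_LL 631663411835948994871848361621341652377797742728621423836244345520028826829325169984249565275776846670072595752157184 (by decide +kernel) (CovZ.n0 (-25344, 36096) (by decide +kernel)
    (CovZ.n2 (-26112, 36096) (by decide +kernel)
     (CovZ.badM (by decide +kernel))
     (CovZ.n1 (-25728, 35712) (by decide +kernel)
      (CovZ.n2 (-26112, 35712) (by decide +kernel)
       (CovZ.n2 (-25920, 35904) (by decide +kernel)
        (CovZ.n2 (-25920, 35712) (by decide +kernel)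
         (CovZ.n2 (-26016, 35808) (by decide +kernel)
          (CovZ.badM (by decide +kernel))
          (CovZ.n1 (-26016, 35712) (by decide +kernel)
           (CovZ.n2 (-26064, 35760) (by decide +kernel)
            (CovZ.badM (by decide +kernel))
            (CovZ.leaf K2_ok TB_l40122 _))
           (CovZ.badM (by decide +kernel))))
         (CovZ.badM (by decide +kernel)))
        (CovZ.n1 (-26112, 35904) (by decide +kernel)
         (CovZ.badM (by decide +kernel))
         (CovZ.n1 (-26016, 35808) (by decide +kernel)
          (CovZ.n2 (-26112, 35808) (by decide +kernel)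
           (CovZ.badM (by decide +kernel))
           (CovZ.n1 (-26064, 35760) (by decide +kernel)
            (CovZ.n2 (-26112, 35760) (by decide +kernel)
             (CovZ.badM (by decide +kernel))
             (CovZ.n1 (-26088, 35736) (by decide +kernel)
              (CovZ.leaf K2_ok TB_l40123 _)
              (CovZ.n1 (-26088, 35760) (by decide +kernel)
               (CovZ.badM (by decide +kernel))
               (CovZ.leaf K2_ok TB_l40124 _))))
            (CovZ.badM (by decide +kernel))))
          (CovZ.badM (by decide +kernel)))))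
       (CovZ.n1 (-25920, 35520) (by decide +kernel)
        (CovZ.n2 (-26112, 35520) (by decide +kernel)
         (CovZ.n2 (-26016, 35616) (by decide +kernel)
          (CovZ.leaf K2_ok TB_l14036 _)
          (CovZ.n1 (-26112, 35616) (by decide +kernel)
           (CovZ.n2 (-26064, 35664) (by decide +kernel)
            (CovZ.leaf K2_ok TB_l14037 _)
            (CovZ.leaf K2_ok TB_l14038 _))
           (CovZ.n1 (-26064, 35568) (by decide +kernel)
            (CovZ.leaf K2_ok TB_l14039 _)
            (CovZ.leaf K2_ok TB_l14040 _))))
         (CovZ.n1 (-26016, 35424) (by decide +kernel)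
          (CovZ.leaf K2_ok TB_l14041 _)
          (CovZ.n1 (-26016, 35520) (by decide +kernel)
           (CovZ.badM (by decide +kernel))
           (CovZ.leaf K2_ok TB_l14044 _))))
        (CovZ.n1 (-25920, 35712) (by decide +kernel)
         (CovZ.badM (by decide +kernel))
         (CovZ.n1 (-26016, 35616) (by decide +kernel)
          (CovZ.n2 (-26016, 35712) (by decide +kernel)
           (CovZ.badM (by decide +kernel))
           (CovZ.n1 (-26064, 35664) (by decide +kernel)
            (CovZ.n2 (-26064, 35712) (by decide +kernel)
             (CovZ.badM (by decide +kernel))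
             (CovZ.n1 (-26088, 35688) (by decide +kernel)
              (CovZ.leaf K2_ok TB_l14055 _)
              (CovZ.badM (by decide +kernel))))
            (CovZ.badM (by decide +kernel))))
          (CovZ.badM (by decide +kernel))))))
      (CovZ.badM (by decide +kernel))))
    (CovZ.badM (by decide +kernel))))

theorem TB_s5_26 : SqZ TB_M TB_L [0, 7, 6, 1] (-32256) (-4608) 1536 5 26 :=
  SqZ.mk (a := (-24576)) (b := (-23040)) (c := 35328) (d := 36864) (by norm_num) (by norm_num) (by norm_num) (by norm_num)
    (CovZ.topM TB_LL 16777216 (by decide +kernel) (CovZ.n2 (-23808, 36096) (by decide +kernel)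
    (CovZ.badM (by decide +kernel))
    (CovZ.n1 (-23808, 35328) (by decide +kernel)
     (CovZ.badM (by decide +kernel))
     (CovZ.badM (by decide +kernel)))))
    (CovZ.topM TB_LL 16777216 (by decide +kernel) (CovZ.n0 (-23808, 36096) (by decide +kernel)
    (CovZ.badM (by decide +kernel))
    (CovZ.badM (by decide +kernel))))

theorem TB_s6_26 : SqZ TB_M TB_L [0, 7, 6, 1] (-32256) (-4608) 1536 6 26 :=
  SqZ.mk (a := (-23040)) (b := (-21504)) (c := 35328) (d := 36864) (by norm_num) (by norm_num) (by norm_num) (by norm_num)
    (CovZ.topM TB_LL 0 (by decide +kernel) (CovZ.badM (by decide +kernel)))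
    (CovZ.topM TB_LL 0 (by decide +kernel) (CovZ.badM (by decide +kernel)))

theorem TB_s7_26 : SqZ TB_M TB_L [0, 7, 6, 1] (-32256) (-4608) 1536 7 26 :=
  SqZ.mk (a := (-21504)) (b := (-19968)) (c := 35328) (d := 36864) (by norm_num) (by norm_num) (by norm_num) (by norm_num)
    (CovZ.topM TB_LL 0 (by decide +kernel) (CovZ.badM (by decide +kernel)))
    (CovZ.topM TB_LL 0 (by decide +kernel) (CovZ.badM (by decide +kernel)))

theorem TB_s8_26 : SqZ TB_M TB_L [0, 7, 6, 1] (-32256) (-4608) 1536 8 26 :=
  SqZ.mk (a := (-19968)) (b := (-18432)) (c := 35328) (d := 36864) (by norm_num) (by norm_num) (by norm_num) (by norm_num)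
    (CovZ.topM TB_LL 0 (by decide +kernel) (CovZ.badM (by decide +kernel)))
    (CovZ.topM TB_LL 0 (by decide +kernel) (CovZ.badM (by decide +kernel)))

theorem TB_s9_26 : SqZ TB_M TB_L [0, 7, 6, 1] (-32256) (-4608) 1536 9 26 :=
  SqZ.mk (a := (-18432)) (b := (-16896)) (c := 35328) (d := 36864) (by norm_num) (by norm_num) (by norm_num) (by norm_num)
    (CovZ.topM TB_LL 0 (by decide +kernel) (CovZ.badM (by decide +kernel)))
    (CovZ.topM TB_LL 0 (by decide +kernel) (CovZ.badM (by decide +kernel)))

theorem TB_s10_26 : SqZ TB_M TB_L [0, 7, 6, 1] (-32256) (-4608) 1536 10 26 :=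
  SqZ.mk (a := (-16896)) (b := (-15360)) (c := 35328) (d := 36864) (by norm_num) (by norm_num) (by norm_num) (by norm_num)
    (CovZ.topM TB_LL 0 (by decide +kernel) (CovZ.badM (by decide +kernel)))
    (CovZ.topM TB_LL 0 (by decide +kernel) (CovZ.badM (by decide +kernel)))

theorem TB_s11_26 : SqZ TB_M TB_L [0, 7, 6, 1] (-32256) (-4608) 1536 11 26 :=
  SqZ.mk (a := (-15360)) (b := (-13824)) (c := 35328) (d := 36864) (by norm_num) (by norm_num) (by norm_num) (by norm_num)
    (CovZ.topM TB_LL 0 (by decide +kernel) (CovZ.badM (by decide +kernel)))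
    (CovZ.topM TB_LL 0 (by decide +kernel) (CovZ.badM (by decide +kernel)))

theorem TB_s12_26 : SqZ TB_M TB_L [0, 7, 6, 1] (-32256) (-4608) 1536 12 26 :=
  SqZ.mk (a := (-13824)) (b := (-12288)) (c := 35328) (d := 36864) (by norm_num) (by norm_num) (by norm_num) (by norm_num)
    (CovZ.topM TB_LL 0 (by decide +kernel) (CovZ.badM (by decide +kernel)))
    (CovZ.topM TB_LL 0 (by decide +kernel) (CovZ.badM (by decide +kernel)))

theorem TB_s0_27 : SqZ TB_M TB_L [0, 7, 6, 1] (-32256) (-4608) 1536 0 27 :=
  SqZ.mk (a := (-32256)) (b := (-30720)) (c := 36864) (d := 38400) (by norm_num) (by norm_num) (by norm_num) (by norm_num)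
    (CovZ.topM TB_LL 2353129580005813370928649121848999154768185864470857279843592223435082776727273131867448710853605650061066240 (by decide +kernel) (CovZ.n2 (-31488, 37632) (by decide +kernel)
    (CovZ.badM (by decide +kernel))
    (CovZ.n1 (-31488, 36864) (by decide +kernel)
     (CovZ.subM 1457001669169296803242252977686428838078333028621462942388957485555201215229270687744 (by decide +kernel)
      (CovZ.n2 (-31872, 37248) (by decide +kernel)
       (CovZ.n2 (-31488, 37248) (by decide +kernel)
        (CovZ.leaf K2_ok TB_l1890 _)
        (CovZ.n1 (-31680, 37440) (by decide +kernel)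
         (CovZ.badM (by decide +kernel))
         (CovZ.leaf K2_ok TB_l1896 _)))
       (CovZ.leaf K2_ok TB_l1897 _)))
     (CovZ.n1 (-31104, 37248) (by decide +kernel)
      (CovZ.n2 (-31104, 36864) (by decide +kernel)
       (CovZ.subM 4586997231980143023223098792273343178396372231326827399712683227551872527518208311404734918150363650457600 (by decide +kernel)
        (CovZ.n2 (-31296, 37056) (by decide +kernel)
         (CovZ.n2 (-31104, 37056) (by decide +kernel)
          (CovZ.leaf K2_ok TB_l1898 _)
          (CovZ.n1 (-31200, 37152) (by decide +kernel)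
           (CovZ.badM (by decide +kernel))
           (CovZ.leaf K2_ok TB_l1903 _)))
         (CovZ.leaf K2_ok TB_l1904 _)))
       (CovZ.n1 (-30912, 37056) (by decide +kernel)
        (CovZ.n2 (-30912, 36864) (by decide +kernel)
         (CovZ.subM 4586997231980143023223098792273343178396372231314273196241909866024200948671792978572530207261435581431808 (by decide +kernel)
          (CovZ.n2 (-31008, 36960) (by decide +kernel)
           (CovZ.n2 (-30912, 36960) (by decide +kernel)
            (CovZ.leaf K2_ok TB_l1905 _)
            (CovZ.n1 (-30960, 37008) (by decide +kernel)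
             (CovZ.badM (by decide +kernel))
             (CovZ.leaf K2_ok TB_l1906 _)))
           (CovZ.leaf K2_ok TB_l1907 _)))
         (CovZ.n1 (-30816, 36960) (by decide +kernel)
          (CovZ.n2 (-30816, 36864) (by decide +kernel)
           (CovZ.n2 (-30864, 36912) (by decide +kernel)
            (CovZ.n2 (-30816, 36912) (by decide +kernel)
             (CovZ.leaf K2_ok TB_l1908 _)
             (CovZ.badM (by decide +kernel)))
            (CovZ.leaf K2_ok TB_l1910 _))
           (CovZ.subM 31568369498668097402441256390779764094033874623739418569670840443797020628469810200576 (by decide +kernel)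
            (CovZ.n1 (-30768, 36912) (by decide +kernel)
             (CovZ.leaf K2_ok TB_l1911 _)
             (CovZ.n1 (-30816, 36912) (by decide +kernel)
              (CovZ.badM (by decide +kernel))
              (CovZ.n1 (-30792, 36888) (by decide +kernel)
               (CovZ.leaf K2_ok TB_l1912 _)
               (CovZ.badM (by decide +kernel)))))))
          (CovZ.n1 (-30912, 36960) (by decide +kernel)
           (CovZ.badM (by decide +kernel))
           (CovZ.n1 (-30864, 36912) (by decide +kernel)
            (CovZ.leaf K2_ok TB_l1915 _)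
            (CovZ.badM (by decide +kernel))))))
        (CovZ.subM 4586997231980143023223098792273343178396372231314273196241909866024200948671792978572530207261435581431808 (by decide +kernel)
         (CovZ.n1 (-31104, 37056) (by decide +kernel)
          (CovZ.badM (by decide +kernel))
          (CovZ.n1 (-31008, 36960) (by decide +kernel)
           (CovZ.leaf K2_ok TB_l1930 _)
           (CovZ.n1 (-31008, 37056) (by decide +kernel)
            (CovZ.n2 (-30960, 37008) (by decide +kernel)
             (CovZ.leaf K2_ok TB_l1931 _)
             (CovZ.badM (by decide +kernel)))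
            (CovZ.leaf K2_ok TB_l1933 _)))))))
      (CovZ.subM 4586997231980143023223098792273343178396372231326827399712683227551872527518208311404734918150363650457600 (by decide +kernel)
       (CovZ.n1 (-31488, 37248) (by decide +kernel)
        (CovZ.badM (by decide +kernel))
        (CovZ.n1 (-31296, 37056) (by decide +kernel)
         (CovZ.leaf K2_ok TB_l1957 _)
         (CovZ.n1 (-31296, 37248) (by decide +kernel)
          (CovZ.n2 (-31200, 37152) (by decide +kernel)
           (CovZ.badM (by decide +kernel))
           (CovZ.badM (by decide +kernel)))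
          (CovZ.badM (by decide +kernel))))))))))
    (CovZ.topM TB_LL 2353129580005813370928649121848999154768185864470857279843592223435082776727273131867448710853605650061066240 (by decide +kernel) (CovZ.n0 (-31488, 37632) (by decide +kernel)
    (CovZ.subM 1457001669169296803242252977686428838078333028621462942388957485555201215229270687744 (by decide +kernel)
     (CovZ.n2 (-32256, 37632) (by decide +kernel)
      (CovZ.badM (by decide +kernel))
      (CovZ.n1 (-31872, 37248) (by decide +kernel)
       (CovZ.badM (by decide +kernel))
       (CovZ.n1 (-31872, 37632) (by decide +kernel)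
        (CovZ.n2 (-31680, 37440) (by decide +kernel)
         (CovZ.badM (by decide +kernel))
         (CovZ.badM (by decide +kernel)))
        (CovZ.badM (by decide +kernel))))))
    (CovZ.badM (by decide +kernel))))

theorem TB_s1_27 : SqZ TB_M TB_L [0, 7, 6, 1] (-32256) (-4608) 1536 1 27 :=
  SqZ.mk (a := (-30720)) (b := (-29184)) (c := 36864) (d := 38400) (by norm_num) (by norm_num) (by norm_num) (by norm_num)
    (CovZ.topM TB_LL 392318858461673122926036471606264534935965377369378652160 (by decide +kernel) (CovZ.n2 (-29952, 37632) (by decide +kernel)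
    (CovZ.n2 (-29184, 37632) (by decide +kernel)
     (CovZ.n2 (-29568, 37248) (by decide +kernel)
      (CovZ.badM (by decide +kernel))
      (CovZ.badM (by decide +kernel)))
     (CovZ.badM (by decide +kernel)))
    (CovZ.n1 (-29952, 36864) (by decide +kernel)
     (CovZ.badM (by decide +kernel))
     (CovZ.n1 (-29568, 37248) (by decide +kernel)
      (CovZ.n2 (-29568, 36864) (by decide +kernel)
       (CovZ.n2 (-29760, 37056) (by decide +kernel)
        (CovZ.badM (by decide +kernel))
        (CovZ.n1 (-29760, 36864) (by decide +kernel)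
         (CovZ.badM (by decide +kernel))
         (CovZ.badM (by decide +kernel))))
       (CovZ.badM (by decide +kernel)))
      (CovZ.badM (by decide +kernel))))))
    (CovZ.topM TB_LL 5575186299632655785383929568162090376495104 (by decide +kernel) (CovZ.n0 (-29952, 37632) (by decide +kernel)
    (CovZ.badM (by decide +kernel))
    (CovZ.badM (by decide +kernel))))

theorem TB_s2_27 : SqZ TB_M TB_L [0, 7, 6, 1] (-32256) (-4608) 1536 2 27 :=
  SqZ.mk (a := (-29184)) (b := (-27648)) (c := 36864) (d := 38400) (by norm_num) (by norm_num) (by norm_num) (by norm_num)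
    (CovZ.topM TB_LL 25711008708237383457158937470265892152363902003366384374120448 (by decide +kernel) (CovZ.n2 (-28416, 37632) (by decide +kernel)
    (CovZ.badM (by decide +kernel))
    (CovZ.n1 (-28416, 36864) (by decide +kernel)
     (CovZ.n2 (-28800, 37248) (by decide +kernel)
      (CovZ.badM (by decide +kernel))
      (CovZ.n1 (-28800, 36864) (by decide +kernel)
       (CovZ.badM (by decide +kernel))
       (CovZ.badM (by decide +kernel))))
     (CovZ.n1 (-28032, 37248) (by decide +kernel)
      (CovZ.n2 (-28032, 36864) (by decide +kernel)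
       (CovZ.badM (by decide +kernel))
       (CovZ.badM (by decide +kernel)))
      (CovZ.badM (by decide +kernel))))))
    (CovZ.topM TB_LL 25711008708143847352369759683500856323070059890108404691369984 (by decide +kernel) (CovZ.n0 (-28416, 37632) (by decide +kernel)
    (CovZ.n2 (-29184, 37632) (by decide +kernel)
     (CovZ.badM (by decide +kernel))
     (CovZ.n1 (-28800, 37248) (by decide +kernel)
      (CovZ.badM (by decide +kernel))
      (CovZ.badM (by decide +kernel))))
    (CovZ.badM (by decide +kernel))))

theorem TB_s3_27 : SqZ TB_M TB_L [0, 7, 6, 1] (-32256) (-4608) 1536 3 27 :=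
  SqZ.mk (a := (-27648)) (b := (-26112)) (c := 36864) (d := 38400) (by norm_num) (by norm_num) (by norm_num) (by norm_num)
    (CovZ.topM TB_LL 1298074214633706907132624082305024 (by decide +kernel) (CovZ.n2 (-26880, 37632) (by decide +kernel)
    (CovZ.badM (by decide +kernel))
    (CovZ.n1 (-26880, 36864) (by decide +kernel)
     (CovZ.n2 (-27264, 37248) (by decide +kernel)
      (CovZ.badM (by decide +kernel))
      (CovZ.n1 (-27264, 36864) (by decide +kernel)
       (CovZ.n2 (-27456, 37056) (by decide +kernel)
        (CovZ.badM (by decide +kernel))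
        (CovZ.n1 (-27456, 36864) (by decide +kernel)
         (CovZ.badM (by decide +kernel))
         (CovZ.badM (by decide +kernel))))
       (CovZ.badM (by decide +kernel))))
     (CovZ.badM (by decide +kernel)))))
    (CovZ.topM TB_LL 0 (by decide +kernel) (CovZ.badM (by decide +kernel)))

theorem TB_s4_27 : SqZ TB_M TB_L [0, 7, 6, 1] (-32256) (-4608) 1536 4 27 :=
  SqZ.mk (a := (-26112)) (b := (-24576)) (c := 36864) (d := 38400) (by norm_num) (by norm_num) (by norm_num) (by norm_num)
    (CovZ.topM TB_LL 0 (by decide +kernel) (CovZ.badM (by decide +kernel)))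
    (CovZ.topM TB_LL 0 (by decide +kernel) (CovZ.badM (by decide +kernel)))

theorem TB_s5_27 : SqZ TB_M TB_L [0, 7, 6, 1] (-32256) (-4608) 1536 5 27 :=
  SqZ.mk (a := (-24576)) (b := (-23040)) (c := 36864) (d := 38400) (by norm_num) (by norm_num) (by norm_num) (by norm_num)
    (CovZ.topM TB_LL 0 (by decide +kernel) (CovZ.badM (by decide +kernel)))
    (CovZ.topM TB_LL 0 (by decide +kernel) (CovZ.badM (by decide +kernel)))

theorem TB_s6_27 : SqZ TB_M TB_L [0, 7, 6, 1] (-32256) (-4608) 1536 6 27 :=
  SqZ.mk (a := (-23040)) (b := (-21504)) (c := 36864) (d := 38400) (by norm_num) (by norm_num) (by norm_num) (by norm_num)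
    (CovZ.topM TB_LL 0 (by decide +kernel) (CovZ.badM (by decide +kernel)))
    (CovZ.topM TB_LL 0 (by decide +kernel) (CovZ.badM (by decide +kernel)))

theorem TB_s7_27 : SqZ TB_M TB_L [0, 7, 6, 1] (-32256) (-4608) 1536 7 27 :=
  SqZ.mk (a := (-21504)) (b := (-19968)) (c := 36864) (d := 38400) (by norm_num) (by norm_num) (by norm_num) (by norm_num)
    (CovZ.topM TB_LL 0 (by decide +kernel) (CovZ.badM (by decide +kernel)))
    (CovZ.topM TB_LL 0 (by decide +kernel) (CovZ.badM (by decide +kernel)))

theorem TB_s8_27 : SqZ TB_M TB_L [0, 7, 6, 1] (-32256) (-4608) 1536 8 27 :=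
  SqZ.mk (a := (-19968)) (b := (-18432)) (c := 36864) (d := 38400) (by norm_num) (by norm_num) (by norm_num) (by norm_num)
    (CovZ.topM TB_LL 0 (by decide +kernel) (CovZ.badM (by decide +kernel)))
    (CovZ.topM TB_LL 0 (by decide +kernel) (CovZ.badM (by decide +kernel)))

theorem TB_s9_27 : SqZ TB_M TB_L [0, 7, 6, 1] (-32256) (-4608) 1536 9 27 :=
  SqZ.mk (a := (-18432)) (b := (-16896)) (c := 36864) (d := 38400) (by norm_num) (by norm_num) (by norm_num) (by norm_num)
    (CovZ.topM TB_LL 0 (by decide +kernel) (CovZ.badM (by decide +kernel)))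
    (CovZ.topM TB_LL 0 (by decide +kernel) (CovZ.badM (by decide +kernel)))

theorem TB_s10_27 : SqZ TB_M TB_L [0, 7, 6, 1] (-32256) (-4608) 1536 10 27 :=
  SqZ.mk (a := (-16896)) (b := (-15360)) (c := 36864) (d := 38400) (by norm_num) (by norm_num) (by norm_num) (by norm_num)
    (CovZ.topM TB_LL 0 (by decide +kernel) (CovZ.badM (by decide +kernel)))
    (CovZ.topM TB_LL 0 (by decide +kernel) (CovZ.badM (by decide +kernel)))

theorem TB_s11_27 : SqZ TB_M TB_L [0, 7, 6, 1] (-32256) (-4608) 1536 11 27 :=
  SqZ.mk (a := (-15360)) (b := (-13824)) (c := 36864) (d := 38400) (by norm_num) (by norm_num) (by norm_num) (by norm_num)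
    (CovZ.topM TB_LL 0 (by decide +kernel) (CovZ.badM (by decide +kernel)))
    (CovZ.topM TB_LL 0 (by decide +kernel) (CovZ.badM (by decide +kernel)))

theorem TB_s12_27 : SqZ TB_M TB_L [0, 7, 6, 1] (-32256) (-4608) 1536 12 27 :=
  SqZ.mk (a := (-13824)) (b := (-12288)) (c := 36864) (d := 38400) (by norm_num) (by norm_num) (by norm_num) (by norm_num)
    (CovZ.topM TB_LL 0 (by decide +kernel) (CovZ.badM (by decide +kernel)))
    (CovZ.topM TB_LL 0 (by decide +kernel) (CovZ.badM (by decide +kernel)))

end Pool.Agent.TET
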