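import Pool.Agent.Helper38_TET.TB_M
import Pool.Agent.Helper38_TET.TB_L
import Pool.Agent.Helper38_TET.TB_164
import Pool.Agent.Helper38_TET.TB_165
import Pool.Agent.Helper38_TET.TB_166
import Pool.Agent.Helper38_TET.TB_167
import Pool.Agent.Helper38_TET.TB_168
import Pool.Agent.Helper38_TET.TB_169
import Pool.Agent.Helper38_TET.TB_214
import Pool.Agent.Helper38_TET.TB_215
import Pool.Agent.Helper38_TET.TB_216
import Pool.Agent.Helper38_TET.TB_217
import Pool.Agent.Helper38_TET.TB_218
import Pool.Agent.Helper38_TET.TB_304
import Pool.Agent.Helper38_TET.TB_305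

/-!
# MP_c7c9bf_co: certificates, family TB
-/

set_option autoImplicit false
set_option maxRecDepth 100000

namespace Pool.Agent.TET

theorem TB_u296 : CovZ TB_M (toL (selN TB_LN 19701079499366619114949045631818930773366406241863615572779353154442716649891588170386982791289462120889382279843880)) [0, 7, 6, 1] (-16128, 9984) (-16896, 9216) (-15360, 9216) :=
    (CovZ.n1 (-16128, 9216) (by decide +kernel)
     (CovZ.n2 (-16512, 9600) (by decide +kernel)
      (CovZ.n2 (-16128, 9600) (by decide +kernel)
       (CovZ.n2 (-16320, 9408) (by decide +kernel)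
        (CovZ.n2 (-16320, 9600) (by decide +kernel)
         (CovZ.n2 (-16224, 9504) (by decide +kernel)
          (CovZ.leaf K2_ok TB_l24721 _)
          (CovZ.n1 (-16224, 9600) (by decide +kernel)
           (CovZ.leaf K2_ok TB_l24722 _)
           (CovZ.leaf K2_ok TB_l24723 _)))
         (CovZ.n1 (-16416, 9504) (by decide +kernel)
          (CovZ.n2 (-16416, 9600) (by decide +kernel)
           (CovZ.leaf K2_ok TB_l24724 _)
           (CovZ.leaf K2_ok TB_l24725 _))
          (CovZ.leaf K2_ok TB_l24726 _)))
        (CovZ.n1 (-16128, 9408) (by decide +kernel)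
         (CovZ.n2 (-16224, 9312) (by decide +kernel)
          (CovZ.n2 (-16224, 9408) (by decide +kernel)
           (CovZ.leaf K2_ok TB_l24727 _)
           (CovZ.leaf K2_ok TB_l24728 _))
          (CovZ.leaf K2_ok TB_l24729 _))
         (CovZ.n1 (-16224, 9504) (by decide +kernel)
          (CovZ.leaf K2_ok TB_l24730 _)
          (CovZ.n1 (-16224, 9408) (by decide +kernel)
           (CovZ.leaf K2_ok TB_l24731 _)
           (CovZ.leaf K2_ok TB_l24732 _)))))
       (CovZ.n1 (-16320, 9792) (by decide +kernel)
        (CovZ.n2 (-16128, 9792) (by decide +kernel)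
         (CovZ.n2 (-16224, 9696) (by decide +kernel)
          (CovZ.n2 (-16224, 9792) (by decide +kernel)
           (CovZ.leaf K2_ok TB_l24733 _)
           (CovZ.leaf K2_ok TB_l24734 _))
          (CovZ.leaf K2_ok TB_l24735 _))
         (CovZ.n1 (-16224, 9888) (by decide +kernel)
          (CovZ.leaf K2_ok TB_l24736 _)
          (CovZ.n1 (-16224, 9792) (by decide +kernel)
           (CovZ.leaf K2_ok TB_l24737 _)
           (CovZ.leaf K2_ok TB_l24738 _))))
        (CovZ.n1 (-16320, 9600) (by decide +kernel)
         (CovZ.n2 (-16416, 9696) (by decide +kernel)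
          (CovZ.leaf K2_ok TB_l24739 _)
          (CovZ.n1 (-16416, 9600) (by decide +kernel)
           (CovZ.leaf K2_ok TB_l24740 _)
           (CovZ.leaf K2_ok TB_l24741 _)))
         (CovZ.n1 (-16224, 9696) (by decide +kernel)
          (CovZ.n2 (-16224, 9600) (by decide +kernel)
           (CovZ.leaf K2_ok TB_l24742 _)
           (CovZ.leaf K2_ok TB_l24743 _))
          (CovZ.leaf K2_ok TB_l24744 _)))))
      (CovZ.n1 (-16512, 9216) (by decide +kernel)
       (CovZ.n2 (-16704, 9408) (by decide +kernel)
        (CovZ.n2 (-16512, 9408) (by decide +kernel)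
         (CovZ.n2 (-16608, 9312) (by decide +kernel)
          (CovZ.n2 (-16608, 9408) (by decide +kernel)
           (CovZ.leaf K2_ok TB_l24745 _)
           (CovZ.leaf K2_ok TB_l24746 _))
          (CovZ.leaf K2_ok TB_l24747 _))
         (CovZ.n1 (-16608, 9504) (by decide +kernel)
          (CovZ.leaf K2_ok TB_l24748 _)
          (CovZ.n1 (-16608, 9408) (by decide +kernel)
           (CovZ.leaf K2_ok TB_l24749 _)
           (CovZ.leaf K2_ok TB_l24750 _))))
        (CovZ.n1 (-16704, 9216) (by decide +kernel)
         (CovZ.n2 (-16800, 9312) (by decide +kernel)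
          (CovZ.leaf K2_ok TB_l24751 _)
          (CovZ.n1 (-16800, 9216) (by decide +kernel)
           (CovZ.leaf K2_ok TB_l24752 _)
           (CovZ.leaf K2_ok TB_l24753 _)))
         (CovZ.n1 (-16608, 9312) (by decide +kernel)
          (CovZ.n2 (-16608, 9216) (by decide +kernel)
           (CovZ.leaf K2_ok TB_l24754 _)
           (CovZ.leaf K2_ok TB_l24755 _))
          (CovZ.leaf K2_ok TB_l24756 _))))
       (CovZ.n1 (-16320, 9408) (by decide +kernel)
        (CovZ.n2 (-16320, 9216) (by decide +kernel)
         (CovZ.n2 (-16416, 9312) (by decide +kernel)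
          (CovZ.leaf K2_ok TB_l24757 _)
          (CovZ.n1 (-16416, 9216) (by decide +kernel)
           (CovZ.leaf K2_ok TB_l24758 _)
           (CovZ.leaf K2_ok TB_l24759 _)))
         (CovZ.n1 (-16224, 9312) (by decide +kernel)
          (CovZ.n2 (-16224, 9216) (by decide +kernel)
           (CovZ.leaf K2_ok TB_l24760 _)
           (CovZ.leaf K2_ok TB_l24761 _))
          (CovZ.leaf K2_ok TB_l24762 _)))
        (CovZ.n1 (-16512, 9408) (by decide +kernel)
         (CovZ.n2 (-16416, 9504) (by decide +kernel)
          (CovZ.n2 (-16416, 9408) (by decide +kernel)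
           (CovZ.leaf K2_ok TB_l24763 _)
           (CovZ.leaf K2_ok TB_l24764 _))
          (CovZ.leaf K2_ok TB_l24765 _))
         (CovZ.n1 (-16416, 9312) (by decide +kernel)
          (CovZ.leaf K2_ok TB_l24766 _)
          (CovZ.n1 (-16416, 9408) (by decide +kernel)
           (CovZ.leaf K2_ok TB_l24767 _)
           (CovZ.leaf K2_ok TB_l24768 _)))))))
     (CovZ.subM 75153362648762664335433756167482823384376238251179457497264996548709029041772462111963599007359974221904089128 (by decide +kernel)
      (CovZ.n1 (-15744, 9600) (by decide +kernel)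
       (CovZ.n2 (-15744, 9216) (by decide +kernel)
        (CovZ.n2 (-15936, 9408) (by decide +kernel)
         (CovZ.subM 1042970377070224002094478404447283198863468790045285135074781196649029645025656588058809602088 (by decide +kernel)
          (CovZ.n2 (-15744, 9408) (by decide +kernel)
           (CovZ.n2 (-15840, 9312) (by decide +kernel)
            (CovZ.n2 (-15840, 9408) (by decide +kernel)
             (CovZ.leaf K2_ok TB_l24769 _)
             (CovZ.leaf K2_ok TB_l24770 _))
            (CovZ.n1 (-15744, 9312) (by decide +kernel)
             (CovZ.leaf K2_ok TB_l24771 _)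
             (CovZ.leaf K2_ok TB_l24772 _)))
           (CovZ.n1 (-15840, 9504) (by decide +kernel)
            (CovZ.leaf K2_ok TB_l24773 _)
            (CovZ.n1 (-15840, 9408) (by decide +kernel)
             (CovZ.leaf K2_ok TB_l24774 _)
             (CovZ.leaf K2_ok TB_l24775 _)))))
         (CovZ.n1 (-15936, 9216) (by decide +kernel)
          (CovZ.n2 (-16032, 9312) (by decide +kernel)
           (CovZ.leaf K2_ok TB_l24776 _)
           (CovZ.n1 (-16032, 9216) (by decide +kernel)
            (CovZ.leaf K2_ok TB_l24777 _)
            (CovZ.leaf K2_ok TB_l24778 _)))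
          (CovZ.n1 (-15840, 9312) (by decide +kernel)
           (CovZ.n2 (-15840, 9216) (by decide +kernel)
            (CovZ.leaf K2_ok TB_l24779 _)
            (CovZ.leaf K2_ok TB_l24780 _))
           (CovZ.leaf K2_ok TB_l24781 _))))
        (CovZ.subM 1042970377070224002094478404447283198863468790045285135074781196649029645025656587509053784104 (by decide +kernel)
         (CovZ.n1 (-15552, 9408) (by decide +kernel)
          (CovZ.n2 (-15552, 9216) (by decide +kernel)
           (CovZ.n2 (-15648, 9312) (by decide +kernel)
            (CovZ.leaf K2_ok TB_l24782 _)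
            (CovZ.n1 (-15648, 9216) (by decide +kernel)
             (CovZ.leaf K2_ok TB_l24783 _)
             (CovZ.leaf K2_ok TB_l24784 _)))
           (CovZ.n1 (-15456, 9312) (by decide +kernel)
            (CovZ.n2 (-15456, 9216) (by decide +kernel)
             (CovZ.leaf K2_ok TB_l24785 _)
             (CovZ.leaf K2_ok TB_l24786 _))
            (CovZ.leaf K2_ok TB_l24787 _)))
          (CovZ.n1 (-15744, 9408) (by decide +kernel)
           (CovZ.n2 (-15648, 9504) (by decide +kernel)
            (CovZ.n2 (-15648, 9408) (by decide +kernel)
             (CovZ.leaf K2_ok TB_l24788 _)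
             (CovZ.leaf K2_ok TB_l24789 _))
            (CovZ.leaf K2_ok TB_l24790 _))
           (CovZ.n1 (-15648, 9312) (by decide +kernel)
            (CovZ.leaf K2_ok TB_l24791 _)
            (CovZ.n1 (-15648, 9408) (by decide +kernel)
             (CovZ.leaf K2_ok TB_l24792 _)
             (CovZ.leaf K2_ok TB_l24793 _)))))))
       (CovZ.n1 (-16128, 9600) (by decide +kernel)
        (CovZ.n2 (-15936, 9792) (by decide +kernel)
         (CovZ.n2 (-15936, 9600) (by decide +kernel)
          (CovZ.n2 (-16032, 9696) (by decide +kernel)
           (CovZ.leaf K2_ok TB_l24794 _)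
           (CovZ.n1 (-16032, 9600) (by decide +kernel)
            (CovZ.leaf K2_ok TB_l24795 _)
            (CovZ.leaf K2_ok TB_l24796 _)))
          (CovZ.n1 (-15840, 9696) (by decide +kernel)
           (CovZ.n2 (-15840, 9600) (by decide +kernel)
            (CovZ.leaf K2_ok TB_l24797 _)
            (CovZ.leaf K2_ok TB_l24798 _))
           (CovZ.leaf K2_ok TB_l24799 _)))
         (CovZ.n1 (-16128, 9792) (by decide +kernel)
          (CovZ.n2 (-16032, 9888) (by decide +kernel)
           (CovZ.n2 (-16032, 9792) (by decide +kernel)
            (CovZ.leaf K2_ok TB_l24800 _)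
            (CovZ.leaf K2_ok TB_l24801 _))
           (CovZ.leaf K2_ok TB_l24802 _))
          (CovZ.n1 (-16032, 9696) (by decide +kernel)
           (CovZ.leaf K2_ok TB_l24803 _)
           (CovZ.n1 (-16032, 9792) (by decide +kernel)
            (CovZ.leaf K2_ok TB_l24804 _)
            (CovZ.leaf K2_ok TB_l24805 _)))))
        (CovZ.n1 (-15936, 9408) (by decide +kernel)
         (CovZ.n2 (-16128, 9408) (by decide +kernel)
          (CovZ.n2 (-16032, 9504) (by decide +kernel)
           (CovZ.n2 (-16032, 9408) (by decide +kernel)
            (CovZ.leaf K2_ok TB_l24806 _)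
            (CovZ.leaf K2_ok TB_l24807 _))
           (CovZ.leaf K2_ok TB_l24808 _))
          (CovZ.n1 (-16032, 9312) (by decide +kernel)
           (CovZ.leaf K2_ok TB_l24809 _)
           (CovZ.n1 (-16032, 9408) (by decide +kernel)
            (CovZ.leaf K2_ok TB_l24810 _)
            (CovZ.leaf K2_ok TB_l24811 _))))
         (CovZ.n1 (-15936, 9600) (by decide +kernel)
          (CovZ.n2 (-15840, 9504) (by decide +kernel)
           (CovZ.leaf K2_ok TB_l24812 _)
           (CovZ.n1 (-15840, 9600) (by decide +kernel)
            (CovZ.leaf K2_ok TB_l24813 _)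
            (CovZ.leaf K2_ok TB_l24814 _)))
          (CovZ.n1 (-16032, 9504) (by decide +kernel)
           (CovZ.n2 (-16032, 9600) (by decide +kernel)
            (CovZ.leaf K2_ok TB_l24815 _)
            (CovZ.leaf K2_ok TB_l24816 _))
           (CovZ.leaf K2_ok TB_l24817 _))))))))

theorem TB_u297 : CovZ TB_M (toL (selN TB_LN 19701079499366619114949045631819173606977934457997480505517706094306046950746639829030882146676062841652696066297896)) [0, 7, 6, 1] (-16896, 9216) (-16128, 9984) (-16896, 10752) :=
    (CovZ.n2 (-16896, 9984) (by decide +kernel)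
     (CovZ.n2 (-16512, 10368) (by decide +kernel)
      (CovZ.n2 (-16512, 9984) (by decide +kernel)
       (CovZ.n2 (-16704, 10176) (by decide +kernel)
        (CovZ.n2 (-16512, 10176) (by decide +kernel)
         (CovZ.n2 (-16608, 10080) (by decide +kernel)
          (CovZ.n2 (-16608, 10176) (by decide +kernel)
           (CovZ.leaf K2_ok TB_l24818 _)
           (CovZ.leaf K2_ok TB_l24819 _))
          (CovZ.leaf K2_ok TB_l24820 _))
         (CovZ.n1 (-16608, 10272) (by decide +kernel)
          (CovZ.leaf K2_ok TB_l24821 _)
          (CovZ.n1 (-16608, 10176) (by decide +kernel)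
           (CovZ.leaf K2_ok TB_l24822 _)
           (CovZ.leaf K2_ok TB_l24823 _))))
        (CovZ.n1 (-16704, 9984) (by decide +kernel)
         (CovZ.n2 (-16800, 10080) (by decide +kernel)
          (CovZ.leaf K2_ok TB_l24824 _)
          (CovZ.n1 (-16800, 9984) (by decide +kernel)
           (CovZ.leaf K2_ok TB_l24825 _)
           (CovZ.leaf K2_ok TB_l24826 _)))
         (CovZ.n1 (-16608, 10080) (by decide +kernel)
          (CovZ.n2 (-16608, 9984) (by decide +kernel)
           (CovZ.leaf K2_ok TB_l24827 _)
           (CovZ.leaf K2_ok TB_l24828 _))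
          (CovZ.leaf K2_ok TB_l24829 _))))
       (CovZ.n1 (-16320, 10176) (by decide +kernel)
        (CovZ.n2 (-16320, 9984) (by decide +kernel)
         (CovZ.n2 (-16416, 10080) (by decide +kernel)
          (CovZ.leaf K2_ok TB_l24830 _)
          (CovZ.n1 (-16416, 9984) (by decide +kernel)
           (CovZ.leaf K2_ok TB_l24831 _)
           (CovZ.leaf K2_ok TB_l24832 _)))
         (CovZ.n1 (-16224, 10080) (by decide +kernel)
          (CovZ.n2 (-16224, 9984) (by decide +kernel)
           (CovZ.leaf K2_ok TB_l24833 _)
           (CovZ.leaf K2_ok TB_l24834 _))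
          (CovZ.leaf K2_ok TB_l24835 _)))
        (CovZ.n1 (-16512, 10176) (by decide +kernel)
         (CovZ.n2 (-16416, 10272) (by decide +kernel)
          (CovZ.n2 (-16416, 10176) (by decide +kernel)
           (CovZ.leaf K2_ok TB_l24836 _)
           (CovZ.leaf K2_ok TB_l24837 _))
          (CovZ.leaf K2_ok TB_l24838 _))
         (CovZ.n1 (-16416, 10080) (by decide +kernel)
          (CovZ.leaf K2_ok TB_l24839 _)
          (CovZ.n1 (-16416, 10176) (by decide +kernel)
           (CovZ.leaf K2_ok TB_l24840 _)
           (CovZ.leaf K2_ok TB_l24841 _))))))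
      (CovZ.n1 (-16896, 10368) (by decide +kernel)
       (CovZ.n2 (-16704, 10560) (by decide +kernel)
        (CovZ.n2 (-16704, 10368) (by decide +kernel)
         (CovZ.n2 (-16800, 10464) (by decide +kernel)
          (CovZ.leaf K2_ok TB_l24842 _)
          (CovZ.n1 (-16800, 10368) (by decide +kernel)
           (CovZ.leaf K2_ok TB_l24843 _)
           (CovZ.leaf K2_ok TB_l24844 _)))
         (CovZ.n1 (-16608, 10464) (by decide +kernel)
          (CovZ.n2 (-16608, 10368) (by decide +kernel)
           (CovZ.leaf K2_ok TB_l24845 _)
           (CovZ.leaf K2_ok TB_l24846 _))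
          (CovZ.leaf K2_ok TB_l24847 _)))
        (CovZ.n1 (-16896, 10560) (by decide +kernel)
         (CovZ.n2 (-16800, 10656) (by decide +kernel)
          (CovZ.n2 (-16800, 10560) (by decide +kernel)
           (CovZ.leaf K2_ok TB_l24848 _)
           (CovZ.leaf K2_ok TB_l24849 _))
          (CovZ.leaf K2_ok TB_l24850 _))
         (CovZ.n1 (-16800, 10464) (by decide +kernel)
          (CovZ.leaf K2_ok TB_l24851 _)
          (CovZ.n1 (-16800, 10560) (by decide +kernel)
           (CovZ.leaf K2_ok TB_l24852 _)
           (CovZ.leaf K2_ok TB_l24853 _)))))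
       (CovZ.n1 (-16704, 10176) (by decide +kernel)
        (CovZ.n2 (-16896, 10176) (by decide +kernel)
         (CovZ.n2 (-16800, 10272) (by decide +kernel)
          (CovZ.n2 (-16800, 10176) (by decide +kernel)
           (CovZ.leaf K2_ok TB_l24854 _)
           (CovZ.leaf K2_ok TB_l24855 _))
          (CovZ.leaf K2_ok TB_l24856 _))
         (CovZ.n1 (-16800, 10080) (by decide +kernel)
          (CovZ.leaf K2_ok TB_l24857 _)
          (CovZ.n1 (-16800, 10176) (by decide +kernel)
           (CovZ.leaf K2_ok TB_l24858 _)
           (CovZ.leaf K2_ok TB_l24859 _))))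
        (CovZ.n1 (-16704, 10368) (by decide +kernel)
         (CovZ.n2 (-16608, 10272) (by decide +kernel)
          (CovZ.leaf K2_ok TB_l24860 _)
          (CovZ.n1 (-16608, 10368) (by decide +kernel)
           (CovZ.leaf K2_ok TB_l24861 _)
           (CovZ.leaf K2_ok TB_l24862 _)))
         (CovZ.n1 (-16800, 10272) (by decide +kernel)
          (CovZ.n2 (-16800, 10368) (by decide +kernel)
           (CovZ.leaf K2_ok TB_l24863 _)
           (CovZ.leaf K2_ok TB_l24864 _))
          (CovZ.leaf K2_ok TB_l24865 _))))))
     (CovZ.n1 (-16512, 9600) (by decide +kernel)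
      (CovZ.n2 (-16896, 9600) (by decide +kernel)
       (CovZ.n2 (-16704, 9792) (by decide +kernel)
        (CovZ.n2 (-16704, 9600) (by decide +kernel)
         (CovZ.n2 (-16800, 9696) (by decide +kernel)
          (CovZ.leaf K2_ok TB_l24866 _)
          (CovZ.n1 (-16800, 9600) (by decide +kernel)
           (CovZ.leaf K2_ok TB_l24867 _)
           (CovZ.leaf K2_ok TB_l24868 _)))
         (CovZ.n1 (-16608, 9696) (by decide +kernel)
          (CovZ.n2 (-16608, 9600) (by decide +kernel)
           (CovZ.leaf K2_ok TB_l24869 _)
           (CovZ.leaf K2_ok TB_l24870 _))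
          (CovZ.leaf K2_ok TB_l24871 _)))
        (CovZ.n1 (-16896, 9792) (by decide +kernel)
         (CovZ.n2 (-16800, 9888) (by decide +kernel)
          (CovZ.n2 (-16800, 9792) (by decide +kernel)
           (CovZ.leaf K2_ok TB_l24872 _)
           (CovZ.leaf K2_ok TB_l24873 _))
          (CovZ.leaf K2_ok TB_l24874 _))
         (CovZ.n1 (-16800, 9696) (by decide +kernel)
          (CovZ.leaf K2_ok TB_l24875 _)
          (CovZ.n1 (-16800, 9792) (by decide +kernel)
           (CovZ.leaf K2_ok TB_l24876 _)
           (CovZ.leaf K2_ok TB_l24877 _)))))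
       (CovZ.n1 (-16704, 9408) (by decide +kernel)
        (CovZ.n2 (-16896, 9408) (by decide +kernel)
         (CovZ.n2 (-16800, 9504) (by decide +kernel)
          (CovZ.n2 (-16800, 9408) (by decide +kernel)
           (CovZ.leaf K2_ok TB_l24878 _)
           (CovZ.leaf K2_ok TB_l24879 _))
          (CovZ.leaf K2_ok TB_l24880 _))
         (CovZ.n1 (-16800, 9312) (by decide +kernel)
          (CovZ.leaf K2_ok TB_l24881 _)
          (CovZ.n1 (-16800, 9408) (by decide +kernel)
           (CovZ.leaf K2_ok TB_l24882 _)
           (CovZ.leaf K2_ok TB_l24883 _))))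
        (CovZ.n1 (-16704, 9600) (by decide +kernel)
         (CovZ.n2 (-16608, 9504) (by decide +kernel)
          (CovZ.leaf K2_ok TB_l24884 _)
          (CovZ.n1 (-16608, 9600) (by decide +kernel)
           (CovZ.leaf K2_ok TB_l24885 _)
           (CovZ.leaf K2_ok TB_l24886 _)))
         (CovZ.n1 (-16800, 9504) (by decide +kernel)
          (CovZ.n2 (-16800, 9600) (by decide +kernel)
           (CovZ.leaf K2_ok TB_l24887 _)
           (CovZ.leaf K2_ok TB_l24888 _))
          (CovZ.leaf K2_ok TB_l24889 _)))))
      (CovZ.n1 (-16512, 9984) (by decide +kernel)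
       (CovZ.n2 (-16320, 9792) (by decide +kernel)
        (CovZ.n2 (-16512, 9792) (by decide +kernel)
         (CovZ.n2 (-16416, 9888) (by decide +kernel)
          (CovZ.n2 (-16416, 9792) (by decide +kernel)
           (CovZ.leaf K2_ok TB_l24890 _)
           (CovZ.leaf K2_ok TB_l24891 _))
          (CovZ.leaf K2_ok TB_l24892 _))
         (CovZ.n1 (-16416, 9696) (by decide +kernel)
          (CovZ.leaf K2_ok TB_l24893 _)
          (CovZ.n1 (-16416, 9792) (by decide +kernel)
           (CovZ.leaf K2_ok TB_l24894 _)
           (CovZ.leaf K2_ok TB_l24895 _))))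
        (CovZ.n1 (-16320, 9984) (by decide +kernel)
         (CovZ.n2 (-16224, 9888) (by decide +kernel)
          (CovZ.leaf K2_ok TB_l24896 _)
          (CovZ.n1 (-16224, 9984) (by decide +kernel)
           (CovZ.leaf K2_ok TB_l24897 _)
           (CovZ.leaf K2_ok TB_l24898 _)))
         (CovZ.n1 (-16416, 9888) (by decide +kernel)
          (CovZ.n2 (-16416, 9984) (by decide +kernel)
           (CovZ.leaf K2_ok TB_l24899 _)
           (CovZ.leaf K2_ok TB_l24900 _))
          (CovZ.leaf K2_ok TB_l24901 _))))
       (CovZ.n1 (-16704, 9792) (by decide +kernel)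
        (CovZ.n2 (-16704, 9984) (by decide +kernel)
         (CovZ.n2 (-16608, 9888) (by decide +kernel)
          (CovZ.leaf K2_ok TB_l24902 _)
          (CovZ.n1 (-16608, 9984) (by decide +kernel)
           (CovZ.leaf K2_ok TB_l24903 _)
           (CovZ.leaf K2_ok TB_l24904 _)))
         (CovZ.n1 (-16800, 9888) (by decide +kernel)
          (CovZ.n2 (-16800, 9984) (by decide +kernel)
           (CovZ.leaf K2_ok TB_l24905 _)
           (CovZ.leaf K2_ok TB_l24906 _))
          (CovZ.leaf K2_ok TB_l24907 _)))
        (CovZ.n1 (-16512, 9792) (by decide +kernel)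
         (CovZ.n2 (-16608, 9696) (by decide +kernel)
          (CovZ.n2 (-16608, 9792) (by decide +kernel)
           (CovZ.leaf K2_ok TB_l24908 _)
           (CovZ.leaf K2_ok TB_l24909 _))
          (CovZ.leaf K2_ok TB_l24910 _))
         (CovZ.n1 (-16608, 9888) (by decide +kernel)
          (CovZ.leaf K2_ok TB_l24911 _)
          (CovZ.n1 (-16608, 9792) (by decide +kernel)
           (CovZ.leaf K2_ok TB_l24912 _)
           (CovZ.leaf K2_ok TB_l24913 _))))))))

theorem TB_u298 : CovZ TB_M (toL (selN TB_LN 19701079499366619114949045631819173606977934457997480505517706094306046950746639829030882146676062841652696066297896)) [0, 7, 6, 1] (-16128, 9984) (-15360, 10752) (-16896, 10752) :=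
    (CovZ.n1 (-16128, 10752) (by decide +kernel)
     (CovZ.subM 75153362788746710721546519570156577448120139498715039427370455810259202733526894217200511542483319809277693992 (by decide +kernel)
      (CovZ.n2 (-15744, 10368) (by decide +kernel)
       (CovZ.n2 (-16128, 10368) (by decide +kernel)
        (CovZ.n2 (-15936, 10560) (by decide +kernel)
         (CovZ.n2 (-15936, 10368) (by decide +kernel)
          (CovZ.n2 (-16032, 10464) (by decide +kernel)
           (CovZ.leaf K2_ok TB_l24914 _)
           (CovZ.n1 (-16032, 10368) (by decide +kernel)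
            (CovZ.leaf K2_ok TB_l24915 _)
            (CovZ.leaf K2_ok TB_l24916 _)))
          (CovZ.n1 (-15840, 10464) (by decide +kernel)
           (CovZ.n2 (-15840, 10368) (by decide +kernel)
            (CovZ.leaf K2_ok TB_l24917 _)
            (CovZ.leaf K2_ok TB_l24918 _))
           (CovZ.leaf K2_ok TB_l24919 _)))
         (CovZ.n1 (-16128, 10560) (by decide +kernel)
          (CovZ.n2 (-16032, 10656) (by decide +kernel)
           (CovZ.n2 (-16032, 10560) (by decide +kernel)
            (CovZ.leaf K2_ok TB_l24920 _)
            (CovZ.leaf K2_ok TB_l24921 _))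
           (CovZ.leaf K2_ok TB_l24922 _))
          (CovZ.n1 (-16032, 10464) (by decide +kernel)
           (CovZ.leaf K2_ok TB_l24923 _)
           (CovZ.n1 (-16032, 10560) (by decide +kernel)
            (CovZ.leaf K2_ok TB_l24924 _)
            (CovZ.leaf K2_ok TB_l24925 _)))))
        (CovZ.n1 (-15936, 10176) (by decide +kernel)
         (CovZ.n2 (-16128, 10176) (by decide +kernel)
          (CovZ.n2 (-16032, 10272) (by decide +kernel)
           (CovZ.n2 (-16032, 10176) (by decide +kernel)
            (CovZ.leaf K2_ok TB_l24926 _)
            (CovZ.leaf K2_ok TB_l24927 _))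
           (CovZ.leaf K2_ok TB_l24928 _))
          (CovZ.n1 (-16032, 10080) (by decide +kernel)
           (CovZ.leaf K2_ok TB_l24929 _)
           (CovZ.n1 (-16032, 10176) (by decide +kernel)
            (CovZ.leaf K2_ok TB_l24930 _)
            (CovZ.leaf K2_ok TB_l24931 _))))
         (CovZ.n1 (-15936, 10368) (by decide +kernel)
          (CovZ.n2 (-15840, 10272) (by decide +kernel)
           (CovZ.leaf K2_ok TB_l24932 _)
           (CovZ.n1 (-15840, 10368) (by decide +kernel)
            (CovZ.leaf K2_ok TB_l24933 _)
            (CovZ.leaf K2_ok TB_l24934 _)))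
          (CovZ.n1 (-16032, 10272) (by decide +kernel)
           (CovZ.n2 (-16032, 10368) (by decide +kernel)
            (CovZ.leaf K2_ok TB_l24935 _)
            (CovZ.leaf K2_ok TB_l24936 _))
           (CovZ.leaf K2_ok TB_l24937 _)))))
       (CovZ.n1 (-15744, 10752) (by decide +kernel)
        (CovZ.subM 1042970377070224031042500713776332054756215042217262098392277363059480139899873934556060975144 (by decide +kernel)
         (CovZ.n2 (-15552, 10560) (by decide +kernel)
          (CovZ.n2 (-15744, 10560) (by decide +kernel)
           (CovZ.n2 (-15648, 10656) (by decide +kernel)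
            (CovZ.n2 (-15648, 10560) (by decide +kernel)
             (CovZ.leaf K2_ok TB_l24938 _)
             (CovZ.leaf K2_ok TB_l24939 _))
            (CovZ.leaf K2_ok TB_l24940 _))
           (CovZ.n1 (-15648, 10464) (by decide +kernel)
            (CovZ.leaf K2_ok TB_l24941 _)
            (CovZ.n1 (-15648, 10560) (by decide +kernel)
             (CovZ.leaf K2_ok TB_l24942 _)
             (CovZ.leaf K2_ok TB_l24943 _))))
          (CovZ.n1 (-15552, 10752) (by decide +kernel)
           (CovZ.n2 (-15456, 10656) (by decide +kernel)
            (CovZ.n2 (-15552, 10656) (by decide +kernel)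
             (CovZ.leaf K2_ok TB_l24944 _)
             (CovZ.leaf K2_ok TB_l24945 _))
            (CovZ.n1 (-15456, 10752) (by decide +kernel)
             (CovZ.leaf K2_ok TB_l24946 _)
             (CovZ.leaf K2_ok TB_l24947 _)))
           (CovZ.n1 (-15648, 10656) (by decide +kernel)
            (CovZ.n2 (-15648, 10752) (by decide +kernel)
             (CovZ.leaf K2_ok TB_l24948 _)
             (CovZ.leaf K2_ok TB_l24949 _))
            (CovZ.leaf K2_ok TB_l24950 _)))))
        (CovZ.n1 (-15936, 10560) (by decide +kernel)
         (CovZ.n2 (-15936, 10752) (by decide +kernel)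
          (CovZ.n2 (-15840, 10656) (by decide +kernel)
           (CovZ.leaf K2_ok TB_l24951 _)
           (CovZ.n1 (-15840, 10752) (by decide +kernel)
            (CovZ.leaf K2_ok TB_l24952 _)
            (CovZ.leaf K2_ok TB_l24953 _)))
          (CovZ.n1 (-16032, 10656) (by decide +kernel)
           (CovZ.n2 (-16032, 10752) (by decide +kernel)
            (CovZ.leaf K2_ok TB_l24954 _)
            (CovZ.leaf K2_ok TB_l24955 _))
           (CovZ.leaf K2_ok TB_l24956 _)))
         (CovZ.subM 1042970377070224031042500713776332054756215042217262098392277363059480139899873935105816793128 (by decide +kernel)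
          (CovZ.n1 (-15744, 10560) (by decide +kernel)
           (CovZ.n2 (-15840, 10464) (by decide +kernel)
            (CovZ.n2 (-15840, 10560) (by decide +kernel)
             (CovZ.leaf K2_ok TB_l24957 _)
             (CovZ.leaf K2_ok TB_l24958 _))
            (CovZ.leaf K2_ok TB_l24959 _))
           (CovZ.n1 (-15840, 10656) (by decide +kernel)
            (CovZ.leaf K2_ok TB_l24960 _)
            (CovZ.n1 (-15840, 10560) (by decide +kernel)
             (CovZ.leaf K2_ok TB_l24961 _)
             (CovZ.leaf K2_ok TB_l24962 _)))))))))
     (CovZ.n1 (-16512, 10368) (by decide +kernel)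
      (CovZ.n2 (-16512, 10752) (by decide +kernel)
       (CovZ.n2 (-16320, 10560) (by decide +kernel)
        (CovZ.n2 (-16512, 10560) (by decide +kernel)
         (CovZ.n2 (-16416, 10656) (by decide +kernel)
          (CovZ.n2 (-16416, 10560) (by decide +kernel)
           (CovZ.leaf K2_ok TB_l24963 _)
           (CovZ.leaf K2_ok TB_l24964 _))
          (CovZ.leaf K2_ok TB_l24965 _))
         (CovZ.n1 (-16416, 10464) (by decide +kernel)
          (CovZ.leaf K2_ok TB_l24966 _)
          (CovZ.n1 (-16416, 10560) (by decide +kernel)
           (CovZ.leaf K2_ok TB_l24967 _)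
           (CovZ.leaf K2_ok TB_l24968 _))))
        (CovZ.n1 (-16320, 10752) (by decide +kernel)
         (CovZ.n2 (-16224, 10656) (by decide +kernel)
          (CovZ.leaf K2_ok TB_l24969 _)
          (CovZ.n1 (-16224, 10752) (by decide +kernel)
           (CovZ.leaf K2_ok TB_l24970 _)
           (CovZ.leaf K2_ok TB_l24971 _)))
         (CovZ.n1 (-16416, 10656) (by decide +kernel)
          (CovZ.n2 (-16416, 10752) (by decide +kernel)
           (CovZ.leaf K2_ok TB_l24972 _)
           (CovZ.leaf K2_ok TB_l24973 _))
          (CovZ.leaf K2_ok TB_l24974 _))))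
       (CovZ.n1 (-16704, 10560) (by decide +kernel)
        (CovZ.n2 (-16704, 10752) (by decide +kernel)
         (CovZ.n2 (-16608, 10656) (by decide +kernel)
          (CovZ.leaf K2_ok TB_l24975 _)
          (CovZ.n1 (-16608, 10752) (by decide +kernel)
           (CovZ.leaf K2_ok TB_l24976 _)
           (CovZ.leaf K2_ok TB_l24977 _)))
         (CovZ.n1 (-16800, 10656) (by decide +kernel)
          (CovZ.n2 (-16800, 10752) (by decide +kernel)
           (CovZ.leaf K2_ok TB_l24978 _)
           (CovZ.leaf K2_ok TB_l24979 _))
          (CovZ.leaf K2_ok TB_l24980 _)))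
        (CovZ.n1 (-16512, 10560) (by decide +kernel)
         (CovZ.n2 (-16608, 10464) (by decide +kernel)
          (CovZ.n2 (-16608, 10560) (by decide +kernel)
           (CovZ.leaf K2_ok TB_l24981 _)
           (CovZ.leaf K2_ok TB_l24982 _))
          (CovZ.leaf K2_ok TB_l24983 _))
         (CovZ.n1 (-16608, 10656) (by decide +kernel)
          (CovZ.leaf K2_ok TB_l24984 _)
          (CovZ.n1 (-16608, 10560) (by decide +kernel)
           (CovZ.leaf K2_ok TB_l24985 _)
           (CovZ.leaf K2_ok TB_l24986 _))))))
      (CovZ.n1 (-16128, 10368) (by decide +kernel)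
       (CovZ.n2 (-16320, 10176) (by decide +kernel)
        (CovZ.n2 (-16320, 10368) (by decide +kernel)
         (CovZ.n2 (-16224, 10272) (by decide +kernel)
          (CovZ.leaf K2_ok TB_l24987 _)
          (CovZ.n1 (-16224, 10368) (by decide +kernel)
           (CovZ.leaf K2_ok TB_l24988 _)
           (CovZ.leaf K2_ok TB_l24989 _)))
         (CovZ.n1 (-16416, 10272) (by decide +kernel)
          (CovZ.n2 (-16416, 10368) (by decide +kernel)
           (CovZ.leaf K2_ok TB_l24990 _)
           (CovZ.leaf K2_ok TB_l24991 _))
          (CovZ.leaf K2_ok TB_l24992 _)))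
        (CovZ.n1 (-16128, 10176) (by decide +kernel)
         (CovZ.n2 (-16224, 10080) (by decide +kernel)
          (CovZ.n2 (-16224, 10176) (by decide +kernel)
           (CovZ.leaf K2_ok TB_l24993 _)
           (CovZ.leaf K2_ok TB_l24994 _))
          (CovZ.leaf K2_ok TB_l24995 _))
         (CovZ.n1 (-16224, 10272) (by decide +kernel)
          (CovZ.leaf K2_ok TB_l24996 _)
          (CovZ.n1 (-16224, 10176) (by decide +kernel)
           (CovZ.leaf K2_ok TB_l24997 _)
           (CovZ.leaf K2_ok TB_l24998 _)))))
       (CovZ.n1 (-16320, 10560) (by decide +kernel)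
        (CovZ.n2 (-16128, 10560) (by decide +kernel)
         (CovZ.n2 (-16224, 10464) (by decide +kernel)
          (CovZ.n2 (-16224, 10560) (by decide +kernel)
           (CovZ.leaf K2_ok TB_l24999 _)
           (CovZ.leaf K2_ok TB_l25000 _))
          (CovZ.leaf K2_ok TB_l25001 _))
         (CovZ.n1 (-16224, 10656) (by decide +kernel)
          (CovZ.leaf K2_ok TB_l25002 _)
          (CovZ.n1 (-16224, 10560) (by decide +kernel)
           (CovZ.leaf K2_ok TB_l25003 _)
           (CovZ.leaf K2_ok TB_l25004 _))))
        (CovZ.n1 (-16320, 10368) (by decide +kernel)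
         (CovZ.n2 (-16416, 10464) (by decide +kernel)
          (CovZ.leaf K2_ok TB_l25005 _)
          (CovZ.n1 (-16416, 10368) (by decide +kernel)
           (CovZ.leaf K2_ok TB_l25006 _)
           (CovZ.leaf K2_ok TB_l25007 _)))
         (CovZ.n1 (-16224, 10464) (by decide +kernel)
          (CovZ.n2 (-16224, 10368) (by decide +kernel)
           (CovZ.leaf K2_ok TB_l25008 _)
           (CovZ.leaf K2_ok TB_l25009 _))
          (CovZ.leaf K2_ok TB_l25010 _)))))))

theorem TB_u299 : CovZ TB_M (toL (selN TB_LN 7957186959686283300714416125615969330164290246202152562356755923215164984937165044580392)) [0, 7, 6, 1] (-14592, 9984) (-15360, 9216) (-13824, 9216) :=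
    (CovZ.n1 (-14592, 9216) (by decide +kernel)
     (CovZ.n2 (-14976, 9600) (by decide +kernel)
      (CovZ.subM 28948022309329048855892746252171976963317496166410141009864396001978282409984 (by decide +kernel)
       (CovZ.n2 (-14592, 9600) (by decide +kernel)
        (CovZ.badM (by decide +kernel))
        (CovZ.n1 (-14784, 9792) (by decide +kernel)
         (CovZ.n2 (-14592, 9792) (by decide +kernel)
          (CovZ.n2 (-14688, 9696) (by decide +kernel)
           (CovZ.n2 (-14688, 9792) (by decide +kernel)
            (CovZ.n2 (-14640, 9744) (by decide +kernel)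
             (CovZ.n2 (-14688, 9744) (by decide +kernel)
              (CovZ.n2 (-14664, 9768) (by decide +kernel)
               (CovZ.leaf K2_ok TB_l45679 _)
               (CovZ.leaf K2_ok TB_l45680 _))
              (CovZ.n1 (-14664, 9720) (by decide +kernel)
               (CovZ.leaf K2_ok TB_l45681 _)
               (CovZ.leaf K2_ok TB_l45682 _)))
             (CovZ.leaf K2_ok TB_l45683 _))
            (CovZ.n1 (-14736, 9744) (by decide +kernel)
             (CovZ.n2 (-14736, 9792) (by decide +kernel)
              (CovZ.n2 (-14712, 9768) (by decide +kernel)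
               (CovZ.leaf K2_ok TB_l32219 _)
               (CovZ.leaf K2_ok TB_l32220 _))
              (CovZ.leaf K2_ok TB_l32221 _))
             (CovZ.n1 (-14688, 9744) (by decide +kernel)
              (CovZ.leaf K2_ok TB_l32222 _)
              (CovZ.leaf K2_ok TB_l32223 _))))
           (CovZ.n1 (-14592, 9696) (by decide +kernel)
            (CovZ.n2 (-14640, 9648) (by decide +kernel)
             (CovZ.n2 (-14640, 9696) (by decide +kernel)
              (CovZ.n2 (-14616, 9672) (by decide +kernel)
               (CovZ.leaf K2_ok TB_l45684 _)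
               (CovZ.leaf K2_ok TB_l45685 _))
              (CovZ.n1 (-14664, 9672) (by decide +kernel)
               (CovZ.leaf K2_ok TB_l45686 _)
               (CovZ.leaf K2_ok TB_l45687 _)))
             (CovZ.n1 (-14592, 9648) (by decide +kernel)
              (CovZ.badM (by decide +kernel))
              (CovZ.n1 (-14616, 9672) (by decide +kernel)
               (CovZ.leaf K2_ok TB_l45688 _)
               (CovZ.badM (by decide +kernel)))))
            (CovZ.n1 (-14640, 9744) (by decide +kernel)
             (CovZ.n2 (-14592, 9744) (by decide +kernel)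
              (CovZ.n2 (-14616, 9720) (by decide +kernel)
               (CovZ.leaf K2_ok TB_l45689 _)
               (CovZ.leaf K2_ok TB_l45690 _))
              (CovZ.n1 (-14616, 9768) (by decide +kernel)
               (CovZ.leaf K2_ok TB_l45691 _)
               (CovZ.leaf K2_ok TB_l45692 _)))
             (CovZ.n1 (-14640, 9696) (by decide +kernel)
              (CovZ.n2 (-14664, 9720) (by decide +kernel)
               (CovZ.leaf K2_ok TB_l45693 _)
               (CovZ.leaf K2_ok TB_l45694 _))
              (CovZ.n1 (-14616, 9720) (by decide +kernel)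
               (CovZ.leaf K2_ok TB_l45695 _)
               (CovZ.leaf K2_ok TB_l45696 _))))))
          (CovZ.n1 (-14688, 9888) (by decide +kernel)
           (CovZ.n2 (-14592, 9888) (by decide +kernel)
            (CovZ.leaf K2_ok TB_l45697 _)
            (CovZ.n1 (-14640, 9936) (by decide +kernel)
             (CovZ.leaf K2_ok TB_l45698 _)
             (CovZ.leaf K2_ok TB_l45699 _)))
           (CovZ.n1 (-14688, 9792) (by decide +kernel)
            (CovZ.n2 (-14736, 9840) (by decide +kernel)
             (CovZ.leaf K2_ok TB_l32224 _)
             (CovZ.n1 (-14736, 9792) (by decide +kernel)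
              (CovZ.leaf K2_ok TB_l32225 _)
              (CovZ.leaf K2_ok TB_l32226 _)))
            (CovZ.n1 (-14640, 9840) (by decide +kernel)
             (CovZ.n2 (-14640, 9792) (by decide +kernel)
              (CovZ.leaf K2_ok TB_l45700 _)
              (CovZ.leaf K2_ok TB_l45701 _))
             (CovZ.leaf K2_ok TB_l45702 _)))))
         (CovZ.n1 (-14784, 9600) (by decide +kernel)
          (CovZ.n2 (-14880, 9696) (by decide +kernel)
           (CovZ.n2 (-14784, 9696) (by decide +kernel)
            (CovZ.n2 (-14832, 9648) (by decide +kernel)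
             (CovZ.n2 (-14832, 9696) (by decide +kernel)
              (CovZ.leaf K2_ok TB_l32227 _)
              (CovZ.leaf K2_ok TB_l32228 _))
             (CovZ.leaf K2_ok TB_l32229 _))
            (CovZ.n1 (-14832, 9744) (by decide +kernel)
             (CovZ.n2 (-14784, 9744) (by decide +kernel)
              (CovZ.leaf K2_ok TB_l32230 _)
              (CovZ.leaf K2_ok TB_l32231 _))
             (CovZ.n1 (-14832, 9696) (by decide +kernel)
              (CovZ.leaf K2_ok TB_l32232 _)
              (CovZ.leaf K2_ok TB_l32233 _))))
           (CovZ.n1 (-14880, 9600) (by decide +kernel)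
            (CovZ.n2 (-14928, 9648) (by decide +kernel)
             (CovZ.leaf K2_ok TB_l32234 _)
             (CovZ.badM (by decide +kernel)))
            (CovZ.n1 (-14832, 9648) (by decide +kernel)
             (CovZ.badM (by decide +kernel))
             (CovZ.leaf K2_ok TB_l32238 _))))
          (CovZ.n1 (-14688, 9696) (by decide +kernel)
           (CovZ.n2 (-14688, 9600) (by decide +kernel)
            (CovZ.n2 (-14736, 9648) (by decide +kernel)
             (CovZ.n2 (-14688, 9648) (by decide +kernel)
              (CovZ.badM (by decide +kernel))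
              (CovZ.leaf K2_ok TB_l32240 _))
             (CovZ.badM (by decide +kernel)))
            (CovZ.n1 (-14640, 9648) (by decide +kernel)
             (CovZ.badM (by decide +kernel))
             (CovZ.n1 (-14688, 9648) (by decide +kernel)
              (CovZ.n2 (-14664, 9672) (by decide +kernel)
               (CovZ.badM (by decide +kernel))
               (CovZ.leaf K2_ok TB_l45703 _))
              (CovZ.badM (by decide +kernel)))))
           (CovZ.n1 (-14784, 9696) (by decide +kernel)
            (CovZ.n2 (-14736, 9744) (by decide +kernel)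
             (CovZ.n2 (-14736, 9696) (by decide +kernel)
              (CovZ.leaf K2_ok TB_l32244 _)
              (CovZ.n1 (-14712, 9720) (by decide +kernel)
               (CovZ.leaf K2_ok TB_l32245 _)
               (CovZ.leaf K2_ok TB_l32246 _)))
             (CovZ.n1 (-14784, 9744) (by decide +kernel)
              (CovZ.leaf K2_ok TB_l32247 _)
              (CovZ.leaf K2_ok TB_l32248 _)))
            (CovZ.n1 (-14736, 9648) (by decide +kernel)
             (CovZ.n2 (-14784, 9648) (by decide +kernel)
              (CovZ.leaf K2_ok TB_l32249 _)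
              (CovZ.badM (by decide +kernel)))
             (CovZ.n1 (-14736, 9696) (by decide +kernel)
              (CovZ.n2 (-14712, 9672) (by decide +kernel)
               (CovZ.leaf K2_ok TB_l32251 _)
               (CovZ.leaf K2_ok TB_l32252 _))
              (CovZ.leaf K2_ok TB_l32253 _)))))))))
      (CovZ.n1 (-14976, 9216) (by decide +kernel)
       (CovZ.n2 (-15168, 9408) (by decide +kernel)
        (CovZ.badM (by decide +kernel))
        (CovZ.n1 (-15168, 9216) (by decide +kernel)
         (CovZ.n2 (-15264, 9312) (by decide +kernel)
          (CovZ.badM (by decide +kernel))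
          (CovZ.n1 (-15264, 9216) (by decide +kernel)
           (CovZ.leaf K2_ok TB_l32272 _)
           (CovZ.badM (by decide +kernel))))
         (CovZ.badM (by decide +kernel))))
       (CovZ.badM (by decide +kernel))))
     (CovZ.subM 28948022309329048855892746252171976963317496166410141009864396001978282409984 (by decide +kernel)
      (CovZ.n1 (-14208, 9600) (by decide +kernel)
       (CovZ.badM (by decide +kernel))
       (CovZ.n1 (-14592, 9600) (by decide +kernel)
        (CovZ.n2 (-14400, 9792) (by decide +kernel)
         (CovZ.n2 (-14400, 9600) (by decide +kernel)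
          (CovZ.n2 (-14496, 9696) (by decide +kernel)
           (CovZ.n2 (-14400, 9696) (by decide +kernel)
            (CovZ.n2 (-14448, 9648) (by decide +kernel)
             (CovZ.n2 (-14448, 9696) (by decide +kernel)
              (CovZ.n2 (-14424, 9672) (by decide +kernel)
               (CovZ.leaf K2_ok TB_l45704 _)
               (CovZ.badM (by decide +kernel)))
              (CovZ.n1 (-14472, 9672) (by decide +kernel)
               (CovZ.leaf K2_ok TB_l45705 _)
               (CovZ.leaf K2_ok TB_l45706 _)))
             (CovZ.n1 (-14400, 9648) (by decide +kernel)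
              (CovZ.badM (by decide +kernel))
              (CovZ.n1 (-14424, 9672) (by decide +kernel)
               (CovZ.badM (by decide +kernel))
               (CovZ.badM (by decide +kernel)))))
            (CovZ.n1 (-14448, 9744) (by decide +kernel)
             (CovZ.badM (by decide +kernel))
             (CovZ.n1 (-14448, 9696) (by decide +kernel)
              (CovZ.n2 (-14472, 9720) (by decide +kernel)
               (CovZ.leaf K2_ok TB_l45707 _)
               (CovZ.leaf K2_ok TB_l45708 _))
              (CovZ.badM (by decide +kernel)))))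
           (CovZ.n1 (-14496, 9600) (by decide +kernel)
            (CovZ.n2 (-14544, 9648) (by decide +kernel)
             (CovZ.n2 (-14496, 9648) (by decide +kernel)
              (CovZ.badM (by decide +kernel))
              (CovZ.n1 (-14520, 9672) (by decide +kernel)
               (CovZ.leaf K2_ok TB_l45709 _)
               (CovZ.badM (by decide +kernel))))
             (CovZ.badM (by decide +kernel)))
            (CovZ.n1 (-14448, 9648) (by decide +kernel)
             (CovZ.badM (by decide +kernel))
             (CovZ.n1 (-14496, 9648) (by decide +kernel)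
              (CovZ.n2 (-14472, 9672) (by decide +kernel)
               (CovZ.badM (by decide +kernel))
               (CovZ.n1 (-14496, 9672) (by decide +kernel)
                (CovZ.leaf K2_ok TB_l45710 _)
                (CovZ.badM (by decide +kernel))))
              (CovZ.badM (by decide +kernel))))))
          (CovZ.badM (by decide +kernel)))
         (CovZ.n1 (-14592, 9792) (by decide +kernel)
          (CovZ.n2 (-14496, 9888) (by decide +kernel)
           (CovZ.n2 (-14496, 9792) (by decide +kernel)
            (CovZ.n2 (-14544, 9840) (by decide +kernel)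
             (CovZ.leaf K2_ok TB_l45711 _)
             (CovZ.leaf K2_ok TB_l45712 _))
            (CovZ.n1 (-14448, 9840) (by decide +kernel)
             (CovZ.leaf K2_ok TB_l45713 _)
             (CovZ.leaf K2_ok TB_l45714 _)))
           (CovZ.n1 (-14592, 9888) (by decide +kernel)
            (CovZ.leaf K2_ok TB_l45715 _)
            (CovZ.n1 (-14544, 9840) (by decide +kernel)
             (CovZ.leaf K2_ok TB_l45716 _)
             (CovZ.leaf K2_ok TB_l45717 _))))
          (CovZ.n1 (-14496, 9696) (by decide +kernel)
           (CovZ.n2 (-14592, 9696) (by decide +kernel)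
            (CovZ.n2 (-14544, 9744) (by decide +kernel)
             (CovZ.n2 (-14544, 9696) (by decide +kernel)
              (CovZ.n2 (-14568, 9720) (by decide +kernel)
               (CovZ.leaf K2_ok TB_l45718 _)
               (CovZ.n1 (-14568, 9696) (by decide +kernel)
                (CovZ.leaf K2_ok TB_l45719 _)
                (CovZ.leaf K2_ok TB_l45720 _)))
              (CovZ.n1 (-14520, 9720) (by decide +kernel)
               (CovZ.n2 (-14520, 9696) (by decide +kernel)
                (CovZ.leaf K2_ok TB_l45721 _)
                (CovZ.leaf K2_ok TB_l45722 _))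
               (CovZ.leaf K2_ok TB_l45723 _)))
             (CovZ.n1 (-14592, 9744) (by decide +kernel)
              (CovZ.leaf K2_ok TB_l45724 _)
              (CovZ.n1 (-14568, 9720) (by decide +kernel)
               (CovZ.leaf K2_ok TB_l45725 _)
               (CovZ.leaf K2_ok TB_l45726 _))))
            (CovZ.n1 (-14544, 9648) (by decide +kernel)
             (CovZ.n2 (-14592, 9648) (by decide +kernel)
              (CovZ.n2 (-14568, 9672) (by decide +kernel)
               (CovZ.badM (by decide +kernel))
               (CovZ.leaf K2_ok TB_l45727 _))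
              (CovZ.badM (by decide +kernel)))
             (CovZ.n1 (-14544, 9696) (by decide +kernel)
              (CovZ.n2 (-14520, 9672) (by decide +kernel)
               (CovZ.n2 (-14544, 9672) (by decide +kernel)
                (CovZ.leaf K2_ok TB_l45728 _)
                (CovZ.badM (by decide +kernel)))
               (CovZ.leaf K2_ok TB_l45729 _))
              (CovZ.n1 (-14568, 9672) (by decide +kernel)
               (CovZ.n2 (-14568, 9696) (by decide +kernel)
                (CovZ.leaf K2_ok TB_l45730 _)
                (CovZ.leaf K2_ok TB_l45731 _))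
               (CovZ.leaf K2_ok TB_l45732 _)))))
           (CovZ.n1 (-14496, 9792) (by decide +kernel)
            (CovZ.n2 (-14448, 9744) (by decide +kernel)
             (CovZ.n2 (-14496, 9744) (by decide +kernel)
              (CovZ.leaf K2_ok TB_l45733 _)
              (CovZ.n1 (-14472, 9720) (by decide +kernel)
               (CovZ.leaf K2_ok TB_l45734 _)
               (CovZ.leaf K2_ok TB_l45735 _)))
             (CovZ.leaf K2_ok TB_l45736 _))
            (CovZ.n1 (-14544, 9744) (by decide +kernel)
             (CovZ.leaf K2_ok TB_l45737 _)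
             (CovZ.leaf K2_ok TB_l45738 _))))))
        (CovZ.badM (by decide +kernel))))))

theorem TB_u300 : CovZ TB_M (toL (selN TB_LN 7957186959686283300714416125615969330164290246202152562356755923215164984937165044580392)) [0, 7, 6, 1] (-15360, 10752) (-15360, 9984) (-14592, 9984) :=
    (CovZ.n2 (-14976, 10368) (by decide +kernel)
      (CovZ.n2 (-14976, 9984) (by decide +kernel)
       (CovZ.n2 (-15168, 10176) (by decide +kernel)
        (CovZ.subM 28948022309329048855892746252171976963317496166410141009864396001978282409984 (by decide +kernel)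
         (CovZ.n2 (-14976, 10176) (by decide +kernel)
          (CovZ.n2 (-15072, 10080) (by decide +kernel)
           (CovZ.n2 (-15072, 10176) (by decide +kernel)
            (CovZ.n2 (-15024, 10128) (by decide +kernel)
             (CovZ.leaf K2_ok TB_l32326 _)
             (CovZ.leaf K2_ok TB_l32327 _))
            (CovZ.leaf K2_ok TB_l32328 _))
           (CovZ.n1 (-14976, 10080) (by decide +kernel)
            (CovZ.leaf K2_ok TB_l32329 _)
            (CovZ.n1 (-15024, 10128) (by decide +kernel)
             (CovZ.leaf K2_ok TB_l32330 _)
             (CovZ.leaf K2_ok TB_l32331 _))))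
          (CovZ.n1 (-15072, 10272) (by decide +kernel)
           (CovZ.n2 (-14976, 10272) (by decide +kernel)
            (CovZ.n2 (-15024, 10224) (by decide +kernel)
             (CovZ.leaf K2_ok TB_l32332 _)
             (CovZ.leaf K2_ok TB_l32333 _))
            (CovZ.n1 (-15024, 10320) (by decide +kernel)
             (CovZ.leaf K2_ok TB_l32334 _)
             (CovZ.leaf K2_ok TB_l32335 _)))
           (CovZ.n1 (-15072, 10176) (by decide +kernel)
            (CovZ.leaf K2_ok TB_l32336 _)
            (CovZ.leaf K2_ok TB_l32337 _)))))
        (CovZ.n1 (-15168, 9984) (by decide +kernel)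
         (CovZ.n2 (-15264, 10080) (by decide +kernel)
          (CovZ.n2 (-15168, 10080) (by decide +kernel)
           (CovZ.leaf K2_ok TB_l32338 _)
           (CovZ.leaf K2_ok TB_l32339 _))
          (CovZ.n1 (-15264, 9984) (by decide +kernel)
           (CovZ.leaf K2_ok TB_l32340 _)
           (CovZ.leaf K2_ok TB_l32341 _)))
         (CovZ.subM 28948022309329048855892746252171976963317496166410141009864396001978282409984 (by decide +kernel)
          (CovZ.n1 (-15072, 10080) (by decide +kernel)
           (CovZ.n2 (-15072, 9984) (by decide +kernel)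
            (CovZ.leaf K2_ok TB_l32342 _)
            (CovZ.n1 (-15024, 10032) (by decide +kernel)
             (CovZ.leaf K2_ok TB_l32343 _)
             (CovZ.leaf K2_ok TB_l32344 _)))
           (CovZ.n1 (-15168, 10080) (by decide +kernel)
            (CovZ.leaf K2_ok TB_l32345 _)
            (CovZ.n1 (-15120, 10032) (by decide +kernel)
             (CovZ.leaf K2_ok TB_l32346 _)
             (CovZ.leaf K2_ok TB_l32347 _)))))))
       (CovZ.subM 28948022309329048855892746252171976963317496166410141009864396001978282409984 (by decide +kernel)
        (CovZ.n1 (-14784, 10176) (by decide +kernel)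
         (CovZ.n2 (-14784, 9984) (by decide +kernel)
          (CovZ.n2 (-14880, 10080) (by decide +kernel)
           (CovZ.n2 (-14784, 10080) (by decide +kernel)
            (CovZ.leaf K2_ok TB_l32348 _)
            (CovZ.n1 (-14832, 10128) (by decide +kernel)
             (CovZ.leaf K2_ok TB_l32349 _)
             (CovZ.leaf K2_ok TB_l32350 _)))
           (CovZ.n1 (-14880, 9984) (by decide +kernel)
            (CovZ.leaf K2_ok TB_l32351 _)
            (CovZ.leaf K2_ok TB_l32352 _)))
          (CovZ.n1 (-14688, 10080) (by decide +kernel)
           (CovZ.n2 (-14688, 9984) (by decide +kernel)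
            (CovZ.n2 (-14736, 10032) (by decide +kernel)
             (CovZ.leaf K2_ok TB_l32353 _)
             (CovZ.leaf K2_ok TB_l32354 _))
            (CovZ.n1 (-14640, 10032) (by decide +kernel)
             (CovZ.leaf K2_ok TB_l45739 _)
             (CovZ.leaf K2_ok TB_l45740 _)))
           (CovZ.n1 (-14784, 10080) (by decide +kernel)
            (CovZ.leaf K2_ok TB_l32355 _)
            (CovZ.n1 (-14736, 10032) (by decide +kernel)
             (CovZ.leaf K2_ok TB_l32356 _)
             (CovZ.leaf K2_ok TB_l32357 _)))))
         (CovZ.n1 (-14976, 10176) (by decide +kernel)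
          (CovZ.n2 (-14880, 10272) (by decide +kernel)
           (CovZ.n2 (-14880, 10176) (by decide +kernel)
            (CovZ.n2 (-14928, 10224) (by decide +kernel)
             (CovZ.leaf K2_ok TB_l32358 _)
             (CovZ.leaf K2_ok TB_l32359 _))
            (CovZ.n1 (-14832, 10224) (by decide +kernel)
             (CovZ.leaf K2_ok TB_l32360 _)
             (CovZ.leaf K2_ok TB_l32361 _)))
           (CovZ.n1 (-14976, 10272) (by decide +kernel)
            (CovZ.n2 (-14928, 10320) (by decide +kernel)
             (CovZ.leaf K2_ok TB_l32362 _)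
             (CovZ.leaf K2_ok TB_l32363 _))
            (CovZ.n1 (-14928, 10224) (by decide +kernel)
             (CovZ.leaf K2_ok TB_l32364 _)
             (CovZ.n1 (-14928, 10272) (by decide +kernel)
              (CovZ.leaf K2_ok TB_l32365 _)
              (CovZ.leaf K2_ok TB_l32366 _)))))
          (CovZ.n1 (-14880, 10080) (by decide +kernel)
           (CovZ.n2 (-14976, 10080) (by decide +kernel)
            (CovZ.leaf K2_ok TB_l32367 _)
            (CovZ.leaf K2_ok TB_l32368 _))
           (CovZ.n1 (-14880, 10176) (by decide +kernel)
            (CovZ.n2 (-14832, 10128) (by decide +kernel)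
             (CovZ.leaf K2_ok TB_l32369 _)
             (CovZ.leaf K2_ok TB_l32370 _))
            (CovZ.leaf K2_ok TB_l32371 _)))))))
      (CovZ.n1 (-15360, 10368) (by decide +kernel)
       (CovZ.n2 (-15168, 10560) (by decide +kernel)
        (CovZ.n2 (-15168, 10368) (by decide +kernel)
         (CovZ.n2 (-15264, 10464) (by decide +kernel)
          (CovZ.n2 (-15168, 10464) (by decide +kernel)
           (CovZ.leaf K2_ok TB_l32372 _)
           (CovZ.leaf K2_ok TB_l32373 _))
          (CovZ.n1 (-15264, 10368) (by decide +kernel)
           (CovZ.leaf K2_ok TB_l32374 _)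
           (CovZ.leaf K2_ok TB_l32375 _)))
         (CovZ.subM 28948022309329048855892746252171976963317496166410141009864396001978282409984 (by decide +kernel)
          (CovZ.n1 (-15072, 10464) (by decide +kernel)
           (CovZ.n2 (-15072, 10368) (by decide +kernel)
            (CovZ.leaf K2_ok TB_l32376 _)
            (CovZ.n1 (-15024, 10416) (by decide +kernel)
             (CovZ.leaf K2_ok TB_l32377 _)
             (CovZ.leaf K2_ok TB_l32378 _)))
           (CovZ.n1 (-15168, 10464) (by decide +kernel)
            (CovZ.leaf K2_ok TB_l32379 _)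
            (CovZ.leaf K2_ok TB_l32380 _)))))
        (CovZ.n1 (-15360, 10560) (by decide +kernel)
         (CovZ.n2 (-15264, 10656) (by decide +kernel)
          (CovZ.n2 (-15264, 10560) (by decide +kernel)
           (CovZ.leaf K2_ok TB_l32381 _)
           (CovZ.leaf K2_ok TB_l32382 _))
          (CovZ.n1 (-15360, 10656) (by decide +kernel)
           (CovZ.leaf K2_ok TB_l32383 _)
           (CovZ.leaf K2_ok TB_l32384 _)))
         (CovZ.n1 (-15264, 10464) (by decide +kernel)
          (CovZ.n2 (-15360, 10464) (by decide +kernel)
           (CovZ.leaf K2_ok TB_l32385 _)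
           (CovZ.leaf K2_ok TB_l32386 _))
          (CovZ.n1 (-15264, 10560) (by decide +kernel)
           (CovZ.leaf K2_ok TB_l32387 _)
           (CovZ.leaf K2_ok TB_l32388 _)))))
       (CovZ.n1 (-15168, 10176) (by decide +kernel)
        (CovZ.n2 (-15360, 10176) (by decide +kernel)
         (CovZ.n2 (-15264, 10272) (by decide +kernel)
          (CovZ.n2 (-15264, 10176) (by decide +kernel)
           (CovZ.leaf K2_ok TB_l32389 _)
           (CovZ.leaf K2_ok TB_l32390 _))
          (CovZ.leaf K2_ok TB_l32391 _))
         (CovZ.n1 (-15264, 10080) (by decide +kernel)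
          (CovZ.leaf K2_ok TB_l32392 _)
          (CovZ.n1 (-15264, 10176) (by decide +kernel)
           (CovZ.leaf K2_ok TB_l32393 _)
           (CovZ.leaf K2_ok TB_l32394 _))))
        (CovZ.n1 (-15168, 10368) (by decide +kernel)
         (CovZ.subM 28948022309329048855892746252171976963317496166410141009864396001978282409984 (by decide +kernel)
          (CovZ.n2 (-15072, 10272) (by decide +kernel)
           (CovZ.n2 (-15168, 10272) (by decide +kernel)
            (CovZ.leaf K2_ok TB_l32395 _)
            (CovZ.leaf K2_ok TB_l32396 _))
           (CovZ.n1 (-15072, 10368) (by decide +kernel)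
            (CovZ.n2 (-15024, 10320) (by decide +kernel)
             (CovZ.leaf K2_ok TB_l32397 _)
             (CovZ.leaf K2_ok TB_l32398 _))
            (CovZ.leaf K2_ok TB_l32399 _))))
         (CovZ.n1 (-15264, 10272) (by decide +kernel)
          (CovZ.n2 (-15264, 10368) (by decide +kernel)
           (CovZ.n2 (-15216, 10320) (by decide +kernel)
            (CovZ.leaf K2_ok TB_l32400 _)
            (CovZ.leaf K2_ok TB_l32401 _))
           (CovZ.leaf K2_ok TB_l32402 _))
          (CovZ.n1 (-15168, 10272) (by decide +kernel)
           (CovZ.leaf K2_ok TB_l32403 _)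
           (CovZ.leaf K2_ok TB_l32404 _)))))))

theorem TB_u301 : CovZ TB_M (toL (selN TB_LN 7957186959686283300714416125615969330164290246202152562356755923215164984937165044580392)) [0, 7, 6, 1] (-15360, 9984) (-15360, 9216) (-14592, 9984) :=
    (CovZ.n1 (-14976, 9600) (by decide +kernel)
      (CovZ.n2 (-15360, 9600) (by decide +kernel)
       (CovZ.n2 (-15168, 9792) (by decide +kernel)
        (CovZ.n2 (-15168, 9600) (by decide +kernel)
         (CovZ.n2 (-15264, 9696) (by decide +kernel)
          (CovZ.n2 (-15168, 9696) (by decide +kernel)
           (CovZ.leaf K2_ok TB_l32405 _)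
           (CovZ.leaf K2_ok TB_l32406 _))
          (CovZ.n1 (-15264, 9600) (by decide +kernel)
           (CovZ.leaf K2_ok TB_l32407 _)
           (CovZ.leaf K2_ok TB_l32408 _)))
         (CovZ.subM 28948022309329048855892746252171976963317496166410141009864396001978282409984 (by decide +kernel)
          (CovZ.n1 (-15072, 9696) (by decide +kernel)
           (CovZ.n2 (-15072, 9600) (by decide +kernel)
            (CovZ.leaf K2_ok TB_l32409 _)
            (CovZ.n1 (-15024, 9648) (by decide +kernel)
             (CovZ.badM (by decide +kernel))
             (CovZ.leaf K2_ok TB_l32411 _)))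
           (CovZ.n1 (-15168, 9696) (by decide +kernel)
            (CovZ.leaf K2_ok TB_l32412 _)
            (CovZ.leaf K2_ok TB_l32413 _)))))
        (CovZ.n1 (-15360, 9792) (by decide +kernel)
         (CovZ.n2 (-15264, 9888) (by decide +kernel)
          (CovZ.n2 (-15264, 9792) (by decide +kernel)
           (CovZ.leaf K2_ok TB_l32414 _)
           (CovZ.leaf K2_ok TB_l32415 _))
          (CovZ.n1 (-15360, 9888) (by decide +kernel)
           (CovZ.leaf K2_ok TB_l32416 _)
           (CovZ.leaf K2_ok TB_l32417 _)))
         (CovZ.n1 (-15264, 9696) (by decide +kernel)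
          (CovZ.n2 (-15360, 9696) (by decide +kernel)
           (CovZ.leaf K2_ok TB_l32418 _)
           (CovZ.leaf K2_ok TB_l32419 _))
          (CovZ.n1 (-15264, 9792) (by decide +kernel)
           (CovZ.leaf K2_ok TB_l32420 _)
           (CovZ.leaf K2_ok TB_l32421 _)))))
       (CovZ.n1 (-15168, 9408) (by decide +kernel)
        (CovZ.n2 (-15360, 9408) (by decide +kernel)
         (CovZ.n2 (-15264, 9504) (by decide +kernel)
          (CovZ.n2 (-15264, 9408) (by decide +kernel)
           (CovZ.leaf K2_ok TB_l32422 _)
           (CovZ.badM (by decide +kernel)))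
          (CovZ.n1 (-15360, 9504) (by decide +kernel)
           (CovZ.leaf K2_ok TB_l32424 _)
           (CovZ.leaf K2_ok TB_l32425 _)))
         (CovZ.n1 (-15264, 9312) (by decide +kernel)
          (CovZ.leaf K2_ok TB_l32426 _)
          (CovZ.n1 (-15264, 9408) (by decide +kernel)
           (CovZ.badM (by decide +kernel))
           (CovZ.leaf K2_ok TB_l32428 _))))
        (CovZ.n1 (-15168, 9600) (by decide +kernel)
         (CovZ.badM (by decide +kernel))
         (CovZ.n1 (-15264, 9504) (by decide +kernel)
          (CovZ.n2 (-15264, 9600) (by decide +kernel)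
           (CovZ.badM (by decide +kernel))
           (CovZ.leaf K2_ok TB_l32436 _))
          (CovZ.badM (by decide +kernel))))))
      (CovZ.n1 (-14976, 9984) (by decide +kernel)
       (CovZ.subM 28948022309329048855892746252171976963317496166410141009864396001978282409984 (by decide +kernel)
        (CovZ.n2 (-14784, 9792) (by decide +kernel)
         (CovZ.n2 (-14976, 9792) (by decide +kernel)
          (CovZ.n2 (-14880, 9888) (by decide +kernel)
           (CovZ.n2 (-14880, 9792) (by decide +kernel)
            (CovZ.n2 (-14928, 9840) (by decide +kernel)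
             (CovZ.leaf K2_ok TB_l32439 _)
             (CovZ.leaf K2_ok TB_l32440 _))
            (CovZ.n1 (-14832, 9840) (by decide +kernel)
             (CovZ.n2 (-14832, 9792) (by decide +kernel)
              (CovZ.leaf K2_ok TB_l32441 _)
              (CovZ.leaf K2_ok TB_l32442 _))
             (CovZ.leaf K2_ok TB_l32443 _)))
           (CovZ.n1 (-14976, 9888) (by decide +kernel)
            (CovZ.n2 (-14928, 9936) (by decide +kernel)
             (CovZ.leaf K2_ok TB_l32444 _)
             (CovZ.leaf K2_ok TB_l32445 _))
            (CovZ.n1 (-14928, 9840) (by decide +kernel)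
             (CovZ.leaf K2_ok TB_l32446 _)
             (CovZ.leaf K3_ok TB_l32447 _))))
          (CovZ.n1 (-14880, 9696) (by decide +kernel)
           (CovZ.n2 (-14976, 9696) (by decide +kernel)
            (CovZ.n2 (-14928, 9744) (by decide +kernel)
             (CovZ.n2 (-14928, 9696) (by decide +kernel)
              (CovZ.leaf K2_ok TB_l32448 _)
              (CovZ.leaf K2_ok TB_l32449 _))
             (CovZ.leaf K2_ok TB_l32450 _))
            (CovZ.n1 (-14928, 9648) (by decide +kernel)
             (CovZ.leaf K2_ok TB_l32451 _)
             (CovZ.n1 (-14928, 9696) (by decide +kernel)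
              (CovZ.leaf K2_ok TB_l32452 _)
              (CovZ.leaf K2_ok TB_l32453 _))))
           (CovZ.n1 (-14880, 9792) (by decide +kernel)
            (CovZ.n2 (-14832, 9744) (by decide +kernel)
             (CovZ.n2 (-14880, 9744) (by decide +kernel)
              (CovZ.leaf K2_ok TB_l32454 _)
              (CovZ.leaf K2_ok TB_l32455 _))
             (CovZ.n1 (-14832, 9792) (by decide +kernel)
              (CovZ.leaf K2_ok TB_l32456 _)
              (CovZ.leaf K2_ok TB_l32457 _)))
            (CovZ.n1 (-14928, 9744) (by decide +kernel)
             (CovZ.n2 (-14928, 9792) (by decide +kernel)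
              (CovZ.leaf K2_ok TB_l32458 _)
              (CovZ.leaf K2_ok TB_l32459 _))
             (CovZ.leaf K2_ok TB_l32460 _)))))
         (CovZ.n1 (-14784, 9984) (by decide +kernel)
          (CovZ.n2 (-14688, 9888) (by decide +kernel)
           (CovZ.n2 (-14784, 9888) (by decide +kernel)
            (CovZ.n2 (-14736, 9936) (by decide +kernel)
             (CovZ.leaf K2_ok TB_l32461 _)
             (CovZ.leaf K2_ok TB_l32462 _))
            (CovZ.n1 (-14736, 9840) (by decide +kernel)
             (CovZ.leaf K2_ok TB_l32463 _)
             (CovZ.leaf K2_ok TB_l32464 _)))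
           (CovZ.n1 (-14688, 9984) (by decide +kernel)
            (CovZ.n2 (-14640, 9936) (by decide +kernel)
             (CovZ.leaf K2_ok TB_l45741 _)
             (CovZ.leaf K2_ok TB_l45742 _))
            (CovZ.leaf K2_ok TB_l32465 _)))
          (CovZ.n1 (-14880, 9888) (by decide +kernel)
           (CovZ.n2 (-14880, 9984) (by decide +kernel)
            (CovZ.n2 (-14832, 9936) (by decide +kernel)
             (CovZ.leaf K2_ok TB_l32466 _)
             (CovZ.leaf K2_ok TB_l32467 _))
            (CovZ.leaf K2_ok TB_l32468 _))
           (CovZ.n1 (-14784, 9888) (by decide +kernel)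
            (CovZ.n2 (-14832, 9840) (by decide +kernel)
             (CovZ.leaf K2_ok TB_l32469 _)
             (CovZ.leaf K2_ok TB_l32470 _))
            (CovZ.n1 (-14832, 9936) (by decide +kernel)
             (CovZ.leaf K2_ok TB_l32471 _)
             (CovZ.leaf K2_ok TB_l32472 _)))))))
       (CovZ.n1 (-15168, 9792) (by decide +kernel)
        (CovZ.n2 (-15168, 9984) (by decide +kernel)
         (CovZ.subM 28948022309329048855892746252171976963317496166410141009864396001978282409984 (by decide +kernel)
          (CovZ.n2 (-15072, 9888) (by decide +kernel)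
           (CovZ.n2 (-15168, 9888) (by decide +kernel)
            (CovZ.leaf K2_ok TB_l32473 _)
            (CovZ.leaf K2_ok TB_l32474 _))
           (CovZ.n1 (-15072, 9984) (by decide +kernel)
            (CovZ.n2 (-15024, 9936) (by decide +kernel)
             (CovZ.leaf K2_ok TB_l32475 _)
             (CovZ.leaf K2_ok TB_l32476 _))
            (CovZ.leaf K2_ok TB_l32477 _))))
         (CovZ.n1 (-15264, 9888) (by decide +kernel)
          (CovZ.n2 (-15264, 9984) (by decide +kernel)
           (CovZ.leaf K2_ok TB_l32478 _)
           (CovZ.n1 (-15312, 9936) (by decide +kernel)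
            (CovZ.leaf K2_ok TB_l32479 _)
            (CovZ.leaf K2_ok TB_l32480 _)))
          (CovZ.n1 (-15168, 9888) (by decide +kernel)
           (CovZ.leaf K2_ok TB_l32481 _)
           (CovZ.leaf K2_ok TB_l32482 _))))
        (CovZ.subM 28948022309329048855892746252171976963317496166410141009864396001978282409984 (by decide +kernel)
         (CovZ.n1 (-14976, 9792) (by decide +kernel)
          (CovZ.n2 (-15072, 9696) (by decide +kernel)
           (CovZ.n2 (-15072, 9792) (by decide +kernel)
            (CovZ.n2 (-15024, 9744) (by decide +kernel)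
             (CovZ.n2 (-15072, 9744) (by decide +kernel)
              (CovZ.leaf K2_ok TB_l32483 _)
              (CovZ.leaf K2_ok TB_l32484 _))
             (CovZ.leaf K2_ok TB_l32485 _))
            (CovZ.leaf K2_ok TB_l32486 _))
           (CovZ.n1 (-14976, 9696) (by decide +kernel)
            (CovZ.n2 (-15024, 9648) (by decide +kernel)
             (CovZ.leaf K2_ok TB_l32487 _)
             (CovZ.leaf K2_ok TB_l32488 _))
            (CovZ.n1 (-15024, 9744) (by decide +kernel)
             (CovZ.leaf K2_ok TB_l32489 _)
             (CovZ.leaf K2_ok TB_l32490 _))))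
          (CovZ.n1 (-15072, 9888) (by decide +kernel)
           (CovZ.n2 (-14976, 9888) (by decide +kernel)
            (CovZ.n2 (-15024, 9840) (by decide +kernel)
             (CovZ.leaf K2_ok TB_l32491 _)
             (CovZ.leaf K2_ok TB_l32492 _))
            (CovZ.n1 (-15024, 9936) (by decide +kernel)
             (CovZ.leaf K2_ok TB_l32493 _)
             (CovZ.leaf K2_ok TB_l32494 _)))
           (CovZ.n1 (-15072, 9792) (by decide +kernel)
            (CovZ.leaf K2_ok TB_l32495 _)
            (CovZ.n1 (-15024, 9840) (by decide +kernel)
             (CovZ.leaf K2_ok TB_l32496 _)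
             (CovZ.leaf K2_ok TB_l32497 _)))))))))

theorem TB_u302 : CovZ TB_M (toL (selN TB_LN 7957186959686283300714416125615969330164290246202152562356755923215164984937165044580392)) [0, 7, 6, 1] (-14592, 10752) (-15360, 10752) (-14592, 9984) :=
    (CovZ.n1 (-14976, 10368) (by decide +kernel)
      (CovZ.n2 (-14976, 10752) (by decide +kernel)
       (CovZ.subM 28948022309329048855892746252171976963317496166410141009864396001978282409984 (by decide +kernel)
        (CovZ.n2 (-14784, 10560) (by decide +kernel)
         (CovZ.n2 (-14976, 10560) (by decide +kernel)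
          (CovZ.n2 (-14880, 10656) (by decide +kernel)
           (CovZ.n2 (-14880, 10560) (by decide +kernel)
            (CovZ.n2 (-14928, 10608) (by decide +kernel)
             (CovZ.leaf K2_ok TB_l32498 _)
             (CovZ.leaf K2_ok TB_l32499 _))
            (CovZ.n1 (-14832, 10608) (by decide +kernel)
             (CovZ.n2 (-14832, 10560) (by decide +kernel)
              (CovZ.leaf K2_ok TB_l32500 _)
              (CovZ.badM (by decide +kernel)))
             (CovZ.leaf K2_ok TB_l32502 _)))
           (CovZ.n1 (-14976, 10656) (by decide +kernel)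
            (CovZ.n2 (-14928, 10704) (by decide +kernel)
             (CovZ.leaf K2_ok TB_l32503 _)
             (CovZ.leaf K2_ok TB_l32504 _))
            (CovZ.n1 (-14928, 10608) (by decide +kernel)
             (CovZ.leaf K2_ok TB_l32505 _)
             (CovZ.leaf K2_ok TB_l32506 _))))
          (CovZ.n1 (-14880, 10464) (by decide +kernel)
           (CovZ.n2 (-14976, 10464) (by decide +kernel)
            (CovZ.n2 (-14928, 10512) (by decide +kernel)
             (CovZ.leaf K2_ok TB_l32507 _)
             (CovZ.leaf K2_ok TB_l32508 _))
            (CovZ.n1 (-14928, 10416) (by decide +kernel)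
             (CovZ.leaf K2_ok TB_l32509 _)
             (CovZ.n1 (-14928, 10464) (by decide +kernel)
              (CovZ.leaf K2_ok TB_l32510 _)
              (CovZ.leaf K2_ok TB_l32511 _))))
           (CovZ.n1 (-14880, 10560) (by decide +kernel)
            (CovZ.n2 (-14832, 10512) (by decide +kernel)
             (CovZ.leaf K2_ok TB_l32512 _)
             (CovZ.n1 (-14832, 10560) (by decide +kernel)
              (CovZ.leaf K2_ok TB_l32513 _)
              (CovZ.leaf K2_ok TB_l32514 _)))
            (CovZ.n1 (-14928, 10512) (by decide +kernel)
             (CovZ.leaf K2_ok TB_l32515 _)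
             (CovZ.leaf K2_ok TB_l32516 _)))))
         (CovZ.n1 (-14784, 10752) (by decide +kernel)
          (CovZ.badM (by decide +kernel))
          (CovZ.n1 (-14880, 10656) (by decide +kernel)
           (CovZ.n2 (-14880, 10752) (by decide +kernel)
            (CovZ.n2 (-14832, 10704) (by decide +kernel)
             (CovZ.leaf K2_ok TB_l32529 _)
             (CovZ.badM (by decide +kernel)))
            (CovZ.n1 (-14928, 10704) (by decide +kernel)
             (CovZ.n2 (-14928, 10752) (by decide +kernel)
              (CovZ.leaf K2_ok TB_l32532 _)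
              (CovZ.leaf K2_ok TB_l32533 _))
             (CovZ.leaf K2_ok TB_l32534 _)))
           (CovZ.n1 (-14784, 10656) (by decide +kernel)
            (CovZ.n2 (-14832, 10608) (by decide +kernel)
             (CovZ.n2 (-14832, 10656) (by decide +kernel)
              (CovZ.badM (by decide +kernel))
              (CovZ.leaf K2_ok TB_l32536 _))
             (CovZ.badM (by decide +kernel)))
            (CovZ.n1 (-14832, 10704) (by decide +kernel)
             (CovZ.badM (by decide +kernel))
             (CovZ.n1 (-14832, 10656) (by decide +kernel)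
              (CovZ.leaf K2_ok TB_l32541 _)
              (CovZ.badM (by decide +kernel)))))))))
       (CovZ.n1 (-15168, 10560) (by decide +kernel)
        (CovZ.n2 (-15168, 10752) (by decide +kernel)
         (CovZ.subM 28948022309329048855892746252171976963317496166410141009864396001978282409984 (by decide +kernel)
          (CovZ.n2 (-15072, 10656) (by decide +kernel)
           (CovZ.n2 (-15168, 10656) (by decide +kernel)
            (CovZ.leaf K2_ok TB_l32543 _)
            (CovZ.n1 (-15120, 10608) (by decide +kernel)
             (CovZ.leaf K2_ok TB_l32544 _)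
             (CovZ.leaf K2_ok TB_l32545 _)))
           (CovZ.n1 (-15072, 10752) (by decide +kernel)
            (CovZ.n2 (-15024, 10704) (by decide +kernel)
             (CovZ.leaf K2_ok TB_l32546 _)
             (CovZ.leaf K2_ok TB_l32547 _))
            (CovZ.leaf K2_ok TB_l32548 _))))
         (CovZ.n1 (-15264, 10656) (by decide +kernel)
          (CovZ.n2 (-15264, 10752) (by decide +kernel)
           (CovZ.leaf K2_ok TB_l32549 _)
           (CovZ.leaf K2_ok TB_l32550 _))
          (CovZ.n1 (-15168, 10656) (by decide +kernel)
           (CovZ.leaf K2_ok TB_l32551 _)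
           (CovZ.leaf K2_ok TB_l32552 _))))
        (CovZ.subM 28948022309329048855892746252171976963317496166410141009864396001978282409984 (by decide +kernel)
         (CovZ.n1 (-14976, 10560) (by decide +kernel)
          (CovZ.n2 (-15072, 10464) (by decide +kernel)
           (CovZ.n2 (-15072, 10560) (by decide +kernel)
            (CovZ.n2 (-15024, 10512) (by decide +kernel)
             (CovZ.leaf K2_ok TB_l32553 _)
             (CovZ.leaf K2_ok TB_l32554 _))
            (CovZ.leaf K2_ok TB_l32555 _))
           (CovZ.n1 (-14976, 10464) (by decide +kernel)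
            (CovZ.n2 (-15024, 10416) (by decide +kernel)
             (CovZ.leaf K2_ok TB_l32556 _)
             (CovZ.leaf K2_ok TB_l32557 _))
            (CovZ.n1 (-15024, 10512) (by decide +kernel)
             (CovZ.leaf K2_ok TB_l32558 _)
             (CovZ.leaf K2_ok TB_l32559 _))))
          (CovZ.n1 (-15072, 10656) (by decide +kernel)
           (CovZ.n2 (-14976, 10656) (by decide +kernel)
            (CovZ.n2 (-15024, 10608) (by decide +kernel)
             (CovZ.leaf K2_ok TB_l32560 _)
             (CovZ.leaf K2_ok TB_l32561 _))
            (CovZ.n1 (-15024, 10704) (by decide +kernel)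
             (CovZ.leaf K2_ok TB_l32562 _)
             (CovZ.leaf K2_ok TB_l32563 _)))
           (CovZ.n1 (-15072, 10560) (by decide +kernel)
            (CovZ.leaf K2_ok TB_l32564 _)
            (CovZ.n1 (-15024, 10608) (by decide +kernel)
             (CovZ.leaf K2_ok TB_l32565 _)
             (CovZ.leaf K2_ok TB_l32566 _))))))))
      (CovZ.subM 28948022309329048855892746252171976963317496166410141009864396001978282409984 (by decide +kernel)
       (CovZ.n1 (-14592, 10368) (by decide +kernel)
        (CovZ.n2 (-14784, 10176) (by decide +kernel)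
         (CovZ.n2 (-14784, 10368) (by decide +kernel)
          (CovZ.n2 (-14688, 10272) (by decide +kernel)
           (CovZ.n2 (-14784, 10272) (by decide +kernel)
            (CovZ.n2 (-14736, 10320) (by decide +kernel)
             (CovZ.n2 (-14736, 10272) (by decide +kernel)
              (CovZ.leaf K2_ok TB_l32567 _)
              (CovZ.leaf K2_ok TB_l32568 _))
             (CovZ.n1 (-14784, 10320) (by decide +kernel)
              (CovZ.leaf K2_ok TB_l32569 _)
              (CovZ.leaf K2_ok TB_l32570 _)))
            (CovZ.n1 (-14736, 10224) (by decide +kernel)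
             (CovZ.leaf K2_ok TB_l32571 _)
             (CovZ.n1 (-14736, 10272) (by decide +kernel)
              (CovZ.leaf K2_ok TB_l32572 _)
              (CovZ.leaf K2_ok TB_l32573 _))))
           (CovZ.n1 (-14688, 10368) (by decide +kernel)
            (CovZ.badM (by decide +kernel))
            (CovZ.n1 (-14736, 10320) (by decide +kernel)
             (CovZ.n2 (-14736, 10368) (by decide +kernel)
              (CovZ.leaf K2_ok TB_l32574 _)
              (CovZ.leaf K2_ok TB_l32575 _))
             (CovZ.n1 (-14688, 10320) (by decide +kernel)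
              (CovZ.leaf K2_ok TB_l32576 _)
              (CovZ.leaf K2_ok TB_l32577 _)))))
          (CovZ.n1 (-14880, 10272) (by decide +kernel)
           (CovZ.n2 (-14880, 10368) (by decide +kernel)
            (CovZ.n2 (-14832, 10320) (by decide +kernel)
             (CovZ.leaf K2_ok TB_l32578 _)
             (CovZ.n1 (-14832, 10368) (by decide +kernel)
              (CovZ.leaf K2_ok TB_l32579 _)
              (CovZ.leaf K2_ok TB_l32580 _)))
            (CovZ.n1 (-14928, 10320) (by decide +kernel)
             (CovZ.n2 (-14928, 10368) (by decide +kernel)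
              (CovZ.leaf K2_ok TB_l32581 _)
              (CovZ.leaf K2_ok TB_l32582 _))
             (CovZ.leaf K2_ok TB_l32583 _)))
           (CovZ.n1 (-14784, 10272) (by decide +kernel)
            (CovZ.n2 (-14832, 10224) (by decide +kernel)
             (CovZ.n2 (-14832, 10272) (by decide +kernel)
              (CovZ.leaf K2_ok TB_l32584 _)
              (CovZ.leaf K2_ok TB_l32585 _))
             (CovZ.leaf K2_ok TB_l32586 _))
            (CovZ.n1 (-14832, 10320) (by decide +kernel)
             (CovZ.leaf K2_ok TB_l32587 _)
             (CovZ.n1 (-14832, 10272) (by decide +kernel)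
              (CovZ.leaf K2_ok TB_l32588 _)
              (CovZ.leaf K2_ok TB_l32589 _))))))
         (CovZ.n1 (-14592, 10176) (by decide +kernel)
          (CovZ.n2 (-14688, 10080) (by decide +kernel)
           (CovZ.n2 (-14688, 10176) (by decide +kernel)
            (CovZ.n2 (-14640, 10128) (by decide +kernel)
             (CovZ.leaf K2_ok TB_l45744 _)
             (CovZ.n1 (-14640, 10176) (by decide +kernel)
              (CovZ.badM (by decide +kernel))
              (CovZ.leaf K2_ok TB_l45745 _)))
            (CovZ.n1 (-14736, 10128) (by decide +kernel)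
             (CovZ.leaf K2_ok TB_l32590 _)
             (CovZ.leaf K2_ok TB_l32591 _)))
           (CovZ.n1 (-14592, 10080) (by decide +kernel)
            (CovZ.n2 (-14640, 10032) (by decide +kernel)
             (CovZ.leaf K2_ok TB_l45746 _)
             (CovZ.leaf K2_ok TB_l45747 _))
            (CovZ.n1 (-14640, 10128) (by decide +kernel)
             (CovZ.badM (by decide +kernel))
             (CovZ.leaf K2_ok TB_l45748 _))))
          (CovZ.n1 (-14688, 10272) (by decide +kernel)
           (CovZ.badM (by decide +kernel))
           (CovZ.n1 (-14688, 10176) (by decide +kernel)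
            (CovZ.n2 (-14736, 10224) (by decide +kernel)
             (CovZ.leaf K2_ok TB_l32592 _)
             (CovZ.leaf K2_ok TB_l32593 _))
            (CovZ.n1 (-14640, 10224) (by decide +kernel)
             (CovZ.n2 (-14640, 10176) (by decide +kernel)
              (CovZ.leaf K2_ok TB_l45749 _)
              (CovZ.badM (by decide +kernel)))
             (CovZ.n1 (-14688, 10224) (by decide +kernel)
              (CovZ.leaf K2_ok TB_l45750 _)
              (CovZ.leaf K2_ok TB_l45751 _)))))))
        (CovZ.n1 (-14784, 10560) (by decide +kernel)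
         (CovZ.badM (by decide +kernel))
         (CovZ.n1 (-14784, 10368) (by decide +kernel)
          (CovZ.n2 (-14880, 10464) (by decide +kernel)
           (CovZ.n2 (-14784, 10464) (by decide +kernel)
            (CovZ.n2 (-14832, 10416) (by decide +kernel)
             (CovZ.n2 (-14832, 10464) (by decide +kernel)
              (CovZ.leaf K2_ok TB_l32602 _)
              (CovZ.leaf K2_ok TB_l32603 _))
             (CovZ.leaf K2_ok TB_l32604 _))
            (CovZ.n1 (-14832, 10512) (by decide +kernel)
             (CovZ.leaf K2_ok TB_l32605 _)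
             (CovZ.n1 (-14832, 10464) (by decide +kernel)
              (CovZ.leaf K2_ok TB_l32606 _)
              (CovZ.leaf K2_ok TB_l32607 _))))
           (CovZ.n1 (-14880, 10368) (by decide +kernel)
            (CovZ.n2 (-14928, 10416) (by decide +kernel)
             (CovZ.leaf K2_ok TB_l32608 _)
             (CovZ.n1 (-14928, 10368) (by decide +kernel)
              (CovZ.leaf K2_ok TB_l32609 _)
              (CovZ.leaf K2_ok TB_l32610 _)))
            (CovZ.n1 (-14832, 10416) (by decide +kernel)
             (CovZ.n2 (-14832, 10368) (by decide +kernel)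
              (CovZ.leaf K2_ok TB_l32611 _)
              (CovZ.leaf K2_ok TB_l32612 _))
             (CovZ.leaf K2_ok TB_l32613 _))))
          (CovZ.n1 (-14688, 10464) (by decide +kernel)
           (CovZ.n2 (-14688, 10368) (by decide +kernel)
            (CovZ.n2 (-14736, 10416) (by decide +kernel)
             (CovZ.badM (by decide +kernel))
             (CovZ.n1 (-14736, 10368) (by decide +kernel)
              (CovZ.leaf K2_ok TB_l32616 _)
              (CovZ.badM (by decide +kernel))))
            (CovZ.badM (by decide +kernel)))
           (CovZ.n1 (-14784, 10464) (by decide +kernel)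
            (CovZ.badM (by decide +kernel))
            (CovZ.n1 (-14736, 10416) (by decide +kernel)
             (CovZ.n2 (-14784, 10416) (by decide +kernel)
              (CovZ.leaf K2_ok TB_l32622 _)
              (CovZ.leaf K2_ok TB_l32623 _))
             (CovZ.badM (by decide +kernel))))))))))

theorem TB_u303 : CovZ TB_M (toL (selN TB_LN 19701079499366619114949045631819295023783698566064412971886882564237712101174080587750960384951671523170521391829032)) [0, 7, 6, 1] (-15360, 12288) (-16128, 11520) (-15360, 10752) :=
    (CovZ.subM 75153362788746710721546519691573383212228206431181408603840387475409630174285614295438787151164837634603225128 (by decide +kernel)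
     (CovZ.n2 (-15360, 11520) (by decide +kernel)
      (CovZ.n2 (-15744, 11136) (by decide +kernel)
       (CovZ.n2 (-15744, 11520) (by decide +kernel)
        (CovZ.subM 139984047429083140230064173578028481158934898333380638148511417202514355008240501217634244492783517736 (by decide +kernel)
         (CovZ.n2 (-15552, 11328) (by decide +kernel)
          (CovZ.n2 (-15744, 11328) (by decide +kernel)
           (CovZ.n2 (-15648, 11424) (by decide +kernel)
            (CovZ.n2 (-15648, 11328) (by decide +kernel)
             (CovZ.leaf K2_ok TB_l25011 _)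
             (CovZ.leaf K2_ok TB_l25012 _))
            (CovZ.leaf K2_ok TB_l25013 _))
           (CovZ.n1 (-15648, 11232) (by decide +kernel)
            (CovZ.leaf K2_ok TB_l25014 _)
            (CovZ.n1 (-15648, 11328) (by decide +kernel)
             (CovZ.leaf K2_ok TB_l25015 _)
             (CovZ.leaf K2_ok TB_l25016 _))))
          (CovZ.n1 (-15552, 11520) (by decide +kernel)
           (CovZ.n2 (-15456, 11424) (by decide +kernel)
            (CovZ.leaf K2_ok TB_l25017 _)
            (CovZ.n1 (-15456, 11520) (by decide +kernel)
             (CovZ.leaf K2_ok TB_l25018 _)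
             (CovZ.leaf K2_ok TB_l25019 _)))
           (CovZ.n1 (-15648, 11424) (by decide +kernel)
            (CovZ.n2 (-15648, 11520) (by decide +kernel)
             (CovZ.leaf K2_ok TB_l25020 _)
             (CovZ.leaf K2_ok TB_l25021 _))
            (CovZ.leaf K2_ok TB_l25022 _)))))
        (CovZ.n1 (-15936, 11328) (by decide +kernel)
         (CovZ.n2 (-15936, 11520) (by decide +kernel)
          (CovZ.n2 (-15840, 11424) (by decide +kernel)
           (CovZ.leaf K2_ok TB_l25023 _)
           (CovZ.n1 (-15840, 11520) (by decide +kernel)
            (CovZ.leaf K2_ok TB_l25024 _)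
            (CovZ.leaf K2_ok TB_l25025 _)))
          (CovZ.n1 (-16032, 11424) (by decide +kernel)
           (CovZ.n2 (-16032, 11520) (by decide +kernel)
            (CovZ.leaf K2_ok TB_l25026 _)
            (CovZ.leaf K2_ok TB_l25027 _))
           (CovZ.leaf K2_ok TB_l25028 _)))
         (CovZ.subM 139984047429083140230064173578028481158934898333380638148511417202514355008240501217634245042539335720 (by decide +kernel)
          (CovZ.n1 (-15744, 11328) (by decide +kernel)
           (CovZ.n2 (-15840, 11232) (by decide +kernel)
            (CovZ.n2 (-15840, 11328) (by decide +kernel)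
             (CovZ.leaf K2_ok TB_l25029 _)
             (CovZ.leaf K2_ok TB_l25030 _))
            (CovZ.leaf K2_ok TB_l25031 _))
           (CovZ.n1 (-15840, 11424) (by decide +kernel)
            (CovZ.leaf K2_ok TB_l25032 _)
            (CovZ.n1 (-15840, 11328) (by decide +kernel)
             (CovZ.leaf K2_ok TB_l25033 _)
             (CovZ.leaf K2_ok TB_l25034 _)))))))
       (CovZ.subM 1042970377070224031042500713776332054756215042217262098392277363059480139899873934556060975144 (by decide +kernel)
        (CovZ.n1 (-15360, 11136) (by decide +kernel)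
         (CovZ.n2 (-15552, 10944) (by decide +kernel)
          (CovZ.n2 (-15552, 11136) (by decide +kernel)
           (CovZ.n2 (-15456, 11040) (by decide +kernel)
            (CovZ.leaf K2_ok TB_l25035 _)
            (CovZ.n1 (-15456, 11136) (by decide +kernel)
             (CovZ.leaf K2_ok TB_l25036 _)
             (CovZ.leaf K2_ok TB_l25037 _)))
           (CovZ.n1 (-15648, 11040) (by decide +kernel)
            (CovZ.n2 (-15648, 11136) (by decide +kernel)
             (CovZ.leaf K2_ok TB_l25038 _)
             (CovZ.leaf K2_ok TB_l25039 _))
            (CovZ.leaf K2_ok TB_l25040 _)))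
          (CovZ.n1 (-15360, 10944) (by decide +kernel)
           (CovZ.n2 (-15456, 10848) (by decide +kernel)
            (CovZ.n2 (-15456, 10944) (by decide +kernel)
             (CovZ.leaf K2_ok TB_l25041 _)
             (CovZ.leaf K2_ok TB_l25042 _))
            (CovZ.leaf K2_ok TB_l25043 _))
           (CovZ.n1 (-15456, 11040) (by decide +kernel)
            (CovZ.leaf K2_ok TB_l25044 _)
            (CovZ.n1 (-15456, 10944) (by decide +kernel)
             (CovZ.leaf K2_ok TB_l25045 _)
             (CovZ.leaf K2_ok TB_l25046 _)))))
         (CovZ.n1 (-15552, 11328) (by decide +kernel)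
          (CovZ.n2 (-15360, 11328) (by decide +kernel)
           (CovZ.n2 (-15456, 11232) (by decide +kernel)
            (CovZ.n2 (-15456, 11328) (by decide +kernel)
             (CovZ.leaf K2_ok TB_l25047 _)
             (CovZ.leaf K2_ok TB_l25048 _))
            (CovZ.n1 (-15360, 11232) (by decide +kernel)
             (CovZ.leaf K2_ok TB_l25049 _)
             (CovZ.leaf K2_ok TB_l25050 _)))
           (CovZ.n1 (-15456, 11424) (by decide +kernel)
            (CovZ.n2 (-15360, 11424) (by decide +kernel)
             (CovZ.leaf K2_ok TB_l25051 _)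
             (CovZ.leaf K2_ok TB_l25052 _))
            (CovZ.n1 (-15456, 11328) (by decide +kernel)
             (CovZ.leaf K2_ok TB_l25053 _)
             (CovZ.leaf K2_ok TB_l25054 _))))
          (CovZ.n1 (-15552, 11136) (by decide +kernel)
           (CovZ.n2 (-15648, 11232) (by decide +kernel)
            (CovZ.leaf K2_ok TB_l25055 _)
            (CovZ.n1 (-15648, 11136) (by decide +kernel)
             (CovZ.leaf K2_ok TB_l25056 _)
             (CovZ.leaf K2_ok TB_l25057 _)))
           (CovZ.n1 (-15456, 11232) (by decide +kernel)
            (CovZ.n2 (-15456, 11136) (by decide +kernel)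
             (CovZ.leaf K2_ok TB_l25058 _)
             (CovZ.leaf K2_ok TB_l25059 _))
            (CovZ.leaf K2_ok TB_l25060 _)))))))
      (CovZ.n1 (-15744, 11904) (by decide +kernel)
       (CovZ.subM 139984047429083140351480979342136548091401267509850569813661844643273075086478776826315762318109048872 (by decide +kernel)
        (CovZ.n2 (-15360, 11904) (by decide +kernel)
         (CovZ.n2 (-15552, 11712) (by decide +kernel)
          (CovZ.n2 (-15552, 11904) (by decide +kernel)
           (CovZ.n2 (-15456, 11808) (by decide +kernel)
            (CovZ.leaf K2_ok TB_l25061 _)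
            (CovZ.n1 (-15456, 11904) (by decide +kernel)
             (CovZ.leaf K2_ok TB_l25062 _)
             (CovZ.leaf K2_ok TB_l25063 _)))
           (CovZ.n1 (-15648, 11808) (by decide +kernel)
            (CovZ.n2 (-15648, 11904) (by decide +kernel)
             (CovZ.leaf K2_ok TB_l25064 _)
             (CovZ.leaf K2_ok TB_l25065 _))
            (CovZ.leaf K2_ok TB_l25066 _)))
          (CovZ.n1 (-15360, 11712) (by decide +kernel)
           (CovZ.n2 (-15456, 11616) (by decide +kernel)
            (CovZ.n2 (-15456, 11712) (by decide +kernel)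
             (CovZ.leaf K2_ok TB_l25067 _)
             (CovZ.leaf K2_ok TB_l25068 _))
            (CovZ.n1 (-15360, 11616) (by decide +kernel)
             (CovZ.leaf K2_ok TB_l25069 _)
             (CovZ.leaf K2_ok TB_l25070 _)))
           (CovZ.n1 (-15456, 11808) (by decide +kernel)
            (CovZ.leaf K2_ok TB_l25071 _)
            (CovZ.n1 (-15456, 11712) (by decide +kernel)
             (CovZ.leaf K2_ok TB_l25072 _)
             (CovZ.leaf K2_ok TB_l25073 _)))))
         (CovZ.n1 (-15552, 12096) (by decide +kernel)
          (CovZ.n2 (-15360, 12096) (by decide +kernel)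
           (CovZ.n2 (-15456, 12000) (by decide +kernel)
            (CovZ.n2 (-15456, 12096) (by decide +kernel)
             (CovZ.leaf K2_ok TB_l25074 _)
             (CovZ.leaf K2_ok TB_l25075 _))
            (CovZ.n1 (-15360, 12000) (by decide +kernel)
             (CovZ.leaf K2_ok TB_l25076 _)
             (CovZ.leaf K2_ok TB_l25077 _)))
           (CovZ.n1 (-15456, 12192) (by decide +kernel)
            (CovZ.leaf K2_ok TB_l25078 _)
            (CovZ.n1 (-15456, 12096) (by decide +kernel)
             (CovZ.leaf K2_ok TB_l25079 _)
             (CovZ.leaf K2_ok TB_l25080 _))))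
          (CovZ.n1 (-15552, 11904) (by decide +kernel)
           (CovZ.n2 (-15648, 12000) (by decide +kernel)
            (CovZ.leaf K2_ok TB_l25081 _)
            (CovZ.n1 (-15648, 11904) (by decide +kernel)
             (CovZ.leaf K2_ok TB_l25082 _)
             (CovZ.leaf K2_ok TB_l25083 _)))
           (CovZ.n1 (-15456, 12000) (by decide +kernel)
            (CovZ.n2 (-15456, 11904) (by decide +kernel)
             (CovZ.leaf K2_ok TB_l25084 _)
             (CovZ.leaf K2_ok TB_l25085 _))
            (CovZ.leaf K2_ok TB_l25086 _))))))
       (CovZ.n1 (-15744, 11520) (by decide +kernel)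
        (CovZ.n2 (-15936, 11712) (by decide +kernel)
         (CovZ.n2 (-15744, 11712) (by decide +kernel)
          (CovZ.n2 (-15840, 11616) (by decide +kernel)
           (CovZ.n2 (-15840, 11712) (by decide +kernel)
            (CovZ.leaf K2_ok TB_l25087 _)
            (CovZ.leaf K2_ok TB_l25088 _))
           (CovZ.leaf K2_ok TB_l25089 _))
          (CovZ.n1 (-15840, 11808) (by decide +kernel)
           (CovZ.leaf K2_ok TB_l25090 _)
           (CovZ.n1 (-15840, 11712) (by decide +kernel)
            (CovZ.leaf K2_ok TB_l25091 _)
            (CovZ.leaf K2_ok TB_l25092 _))))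
         (CovZ.n1 (-15936, 11520) (by decide +kernel)
          (CovZ.n2 (-16032, 11616) (by decide +kernel)
           (CovZ.leaf K2_ok TB_l25093 _)
           (CovZ.n1 (-16032, 11520) (by decide +kernel)
            (CovZ.leaf K2_ok TB_l25094 _)
            (CovZ.leaf K2_ok TB_l25095 _)))
          (CovZ.n1 (-15840, 11616) (by decide +kernel)
           (CovZ.n2 (-15840, 11520) (by decide +kernel)
            (CovZ.leaf K2_ok TB_l25096 _)
            (CovZ.leaf K2_ok TB_l25097 _))
           (CovZ.leaf K2_ok TB_l25098 _))))
        (CovZ.subM 139984047429083140351480979342136548091401267509850569813661844643273075086478776826315762318109048872 (by decide +kernel)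
         (CovZ.n1 (-15552, 11712) (by decide +kernel)
          (CovZ.n2 (-15552, 11520) (by decide +kernel)
           (CovZ.n2 (-15648, 11616) (by decide +kernel)
            (CovZ.leaf K2_ok TB_l25099 _)
            (CovZ.n1 (-15648, 11520) (by decide +kernel)
             (CovZ.leaf K2_ok TB_l25100 _)
             (CovZ.leaf K2_ok TB_l25101 _)))
           (CovZ.n1 (-15456, 11616) (by decide +kernel)
            (CovZ.n2 (-15456, 11520) (by decide +kernel)
             (CovZ.leaf K2_ok TB_l25102 _)
             (CovZ.leaf K2_ok TB_l25103 _))
            (CovZ.leaf K2_ok TB_l25104 _)))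
          (CovZ.n1 (-15744, 11712) (by decide +kernel)
           (CovZ.n2 (-15648, 11808) (by decide +kernel)
            (CovZ.n2 (-15648, 11712) (by decide +kernel)
             (CovZ.leaf K2_ok TB_l25105 _)
             (CovZ.leaf K2_ok TB_l25106 _))
            (CovZ.leaf K2_ok TB_l25107 _))
           (CovZ.n1 (-15648, 11616) (by decide +kernel)
            (CovZ.leaf K2_ok TB_l25108 _)
            (CovZ.n1 (-15648, 11712) (by decide +kernel)
             (CovZ.leaf K2_ok TB_l25109 _)
             (CovZ.leaf K2_ok TB_l25110 _))))))))))

theorem TB_u304 : CovZ TB_M (toL (selN TB_LN 19701079499366619114949045631819295023783698566064412971886882564237712101174080587750960384951671523170521391829032)) [0, 7, 6, 1] (-16128, 11520) (-16896, 10752) (-15360, 10752) :=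
    (CovZ.n1 (-16128, 10752) (by decide +kernel)
     (CovZ.n2 (-16512, 11136) (by decide +kernel)
      (CovZ.n2 (-16128, 11136) (by decide +kernel)
       (CovZ.n2 (-16320, 10944) (by decide +kernel)
        (CovZ.n2 (-16320, 11136) (by decide +kernel)
         (CovZ.n2 (-16224, 11040) (by decide +kernel)
          (CovZ.leaf K2_ok TB_l25111 _)
          (CovZ.n1 (-16224, 11136) (by decide +kernel)
           (CovZ.leaf K2_ok TB_l25112 _)
           (CovZ.leaf K2_ok TB_l25113 _)))
         (CovZ.n1 (-16416, 11040) (by decide +kernel)
          (CovZ.n2 (-16416, 11136) (by decide +kernel)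
           (CovZ.leaf K2_ok TB_l25114 _)
           (CovZ.leaf K2_ok TB_l25115 _))
          (CovZ.leaf K2_ok TB_l25116 _)))
        (CovZ.n1 (-16128, 10944) (by decide +kernel)
         (CovZ.n2 (-16224, 10848) (by decide +kernel)
          (CovZ.n2 (-16224, 10944) (by decide +kernel)
           (CovZ.leaf K2_ok TB_l25117 _)
           (CovZ.leaf K2_ok TB_l25118 _))
          (CovZ.leaf K2_ok TB_l25119 _))
         (CovZ.n1 (-16224, 11040) (by decide +kernel)
          (CovZ.leaf K2_ok TB_l25120 _)
          (CovZ.n1 (-16224, 10944) (by decide +kernel)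
           (CovZ.leaf K2_ok TB_l25121 _)
           (CovZ.leaf K2_ok TB_l25122 _)))))
       (CovZ.n1 (-16320, 11328) (by decide +kernel)
        (CovZ.n2 (-16128, 11328) (by decide +kernel)
         (CovZ.n2 (-16224, 11232) (by decide +kernel)
          (CovZ.n2 (-16224, 11328) (by decide +kernel)
           (CovZ.leaf K2_ok TB_l25123 _)
           (CovZ.leaf K2_ok TB_l25124 _))
          (CovZ.leaf K2_ok TB_l25125 _))
         (CovZ.n1 (-16224, 11424) (by decide +kernel)
          (CovZ.leaf K2_ok TB_l25126 _)
          (CovZ.n1 (-16224, 11328) (by decide +kernel)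
           (CovZ.leaf K2_ok TB_l25127 _)
           (CovZ.leaf K2_ok TB_l25128 _))))
        (CovZ.n1 (-16320, 11136) (by decide +kernel)
         (CovZ.n2 (-16416, 11232) (by decide +kernel)
          (CovZ.leaf K2_ok TB_l25129 _)
          (CovZ.n1 (-16416, 11136) (by decide +kernel)
           (CovZ.leaf K2_ok TB_l25130 _)
           (CovZ.leaf K2_ok TB_l25131 _)))
         (CovZ.n1 (-16224, 11232) (by decide +kernel)
          (CovZ.n2 (-16224, 11136) (by decide +kernel)
           (CovZ.leaf K2_ok TB_l25132 _)
           (CovZ.leaf K2_ok TB_l25133 _))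
          (CovZ.leaf K2_ok TB_l25134 _)))))
      (CovZ.n1 (-16512, 10752) (by decide +kernel)
       (CovZ.n2 (-16704, 10944) (by decide +kernel)
        (CovZ.n2 (-16512, 10944) (by decide +kernel)
         (CovZ.n2 (-16608, 10848) (by decide +kernel)
          (CovZ.n2 (-16608, 10944) (by decide +kernel)
           (CovZ.leaf K2_ok TB_l25135 _)
           (CovZ.leaf K2_ok TB_l25136 _))
          (CovZ.leaf K2_ok TB_l25137 _))
         (CovZ.n1 (-16608, 11040) (by decide +kernel)
          (CovZ.leaf K2_ok TB_l25138 _)
          (CovZ.n1 (-16608, 10944) (by decide +kernel)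
           (CovZ.leaf K2_ok TB_l25139 _)
           (CovZ.leaf K2_ok TB_l25140 _))))
        (CovZ.n1 (-16704, 10752) (by decide +kernel)
         (CovZ.n2 (-16800, 10848) (by decide +kernel)
          (CovZ.leaf K2_ok TB_l25141 _)
          (CovZ.n1 (-16800, 10752) (by decide +kernel)
           (CovZ.leaf K2_ok TB_l25142 _)
           (CovZ.leaf K2_ok TB_l25143 _)))
         (CovZ.n1 (-16608, 10848) (by decide +kernel)
          (CovZ.n2 (-16608, 10752) (by decide +kernel)
           (CovZ.leaf K2_ok TB_l25144 _)
           (CovZ.leaf K2_ok TB_l25145 _))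
          (CovZ.leaf K2_ok TB_l25146 _))))
       (CovZ.n1 (-16320, 10944) (by decide +kernel)
        (CovZ.n2 (-16320, 10752) (by decide +kernel)
         (CovZ.n2 (-16416, 10848) (by decide +kernel)
          (CovZ.leaf K2_ok TB_l25147 _)
          (CovZ.n1 (-16416, 10752) (by decide +kernel)
           (CovZ.leaf K2_ok TB_l25148 _)
           (CovZ.leaf K2_ok TB_l25149 _)))
         (CovZ.n1 (-16224, 10848) (by decide +kernel)
          (CovZ.n2 (-16224, 10752) (by decide +kernel)
           (CovZ.leaf K2_ok TB_l25150 _)
           (CovZ.leaf K2_ok TB_l25151 _))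
          (CovZ.leaf K2_ok TB_l25152 _)))
        (CovZ.n1 (-16512, 10944) (by decide +kernel)
         (CovZ.n2 (-16416, 11040) (by decide +kernel)
          (CovZ.n2 (-16416, 10944) (by decide +kernel)
           (CovZ.leaf K2_ok TB_l25153 _)
           (CovZ.leaf K2_ok TB_l25154 _))
          (CovZ.leaf K2_ok TB_l25155 _))
         (CovZ.n1 (-16416, 10848) (by decide +kernel)
          (CovZ.leaf K2_ok TB_l25156 _)
          (CovZ.n1 (-16416, 10944) (by decide +kernel)
           (CovZ.leaf K2_ok TB_l25157 _)
           (CovZ.leaf K2_ok TB_l25158 _)))))))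
     (CovZ.subM 75153362788746710721546519570156577448120139498715039427370455810259202733526894217200511542483319809277693992 (by decide +kernel)
      (CovZ.n1 (-15744, 11136) (by decide +kernel)
       (CovZ.n2 (-15744, 10752) (by decide +kernel)
        (CovZ.n2 (-15936, 10944) (by decide +kernel)
         (CovZ.subM 139984047429083140230064173578028481158934898333380638148511417202514355008240198986179341385245659176 (by decide +kernel)
          (CovZ.n2 (-15744, 10944) (by decide +kernel)
           (CovZ.n2 (-15840, 10848) (by decide +kernel)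
            (CovZ.n2 (-15840, 10944) (by decide +kernel)
             (CovZ.leaf K2_ok TB_l25159 _)
             (CovZ.leaf K2_ok TB_l25160 _))
            (CovZ.leaf K2_ok TB_l25161 _))
           (CovZ.n1 (-15840, 11040) (by decide +kernel)
            (CovZ.leaf K2_ok TB_l25162 _)
            (CovZ.n1 (-15840, 10944) (by decide +kernel)
             (CovZ.leaf K2_ok TB_l25163 _)
             (CovZ.leaf K2_ok TB_l25164 _)))))
         (CovZ.n1 (-15936, 10752) (by decide +kernel)
          (CovZ.n2 (-16032, 10848) (by decide +kernel)
           (CovZ.leaf K2_ok TB_l25165 _)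
           (CovZ.n1 (-16032, 10752) (by decide +kernel)
            (CovZ.leaf K2_ok TB_l25166 _)
            (CovZ.leaf K2_ok TB_l25167 _)))
          (CovZ.n1 (-15840, 10848) (by decide +kernel)
           (CovZ.n2 (-15840, 10752) (by decide +kernel)
            (CovZ.leaf K2_ok TB_l25168 _)
            (CovZ.leaf K2_ok TB_l25169 _))
           (CovZ.leaf K2_ok TB_l25170 _))))
        (CovZ.subM 1042970377070224031042500713776332054756215042217262098392277363059480139899873934556060975144 (by decide +kernel)
         (CovZ.n1 (-15552, 10944) (by decide +kernel)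
          (CovZ.n2 (-15552, 10752) (by decide +kernel)
           (CovZ.n2 (-15648, 10848) (by decide +kernel)
            (CovZ.leaf K2_ok TB_l25171 _)
            (CovZ.n1 (-15648, 10752) (by decide +kernel)
             (CovZ.leaf K2_ok TB_l25172 _)
             (CovZ.leaf K2_ok TB_l25173 _)))
           (CovZ.n1 (-15456, 10848) (by decide +kernel)
            (CovZ.n2 (-15456, 10752) (by decide +kernel)
             (CovZ.leaf K2_ok TB_l25174 _)
             (CovZ.leaf K2_ok TB_l25175 _))
            (CovZ.leaf K2_ok TB_l25176 _)))
          (CovZ.n1 (-15744, 10944) (by decide +kernel)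
           (CovZ.n2 (-15648, 11040) (by decide +kernel)
            (CovZ.n2 (-15648, 10944) (by decide +kernel)
             (CovZ.leaf K2_ok TB_l25177 _)
             (CovZ.leaf K2_ok TB_l25178 _))
            (CovZ.leaf K2_ok TB_l25179 _))
           (CovZ.n1 (-15648, 10848) (by decide +kernel)
            (CovZ.leaf K2_ok TB_l25180 _)
            (CovZ.n1 (-15648, 10944) (by decide +kernel)
             (CovZ.leaf K2_ok TB_l25181 _)
             (CovZ.leaf K2_ok TB_l25182 _)))))))
       (CovZ.n1 (-16128, 11136) (by decide +kernel)
        (CovZ.n2 (-15936, 11328) (by decide +kernel)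
         (CovZ.n2 (-15936, 11136) (by decide +kernel)
          (CovZ.n2 (-16032, 11232) (by decide +kernel)
           (CovZ.leaf K2_ok TB_l25183 _)
           (CovZ.n1 (-16032, 11136) (by decide +kernel)
            (CovZ.leaf K2_ok TB_l25184 _)
            (CovZ.leaf K2_ok TB_l25185 _)))
          (CovZ.n1 (-15840, 11232) (by decide +kernel)
           (CovZ.n2 (-15840, 11136) (by decide +kernel)
            (CovZ.leaf K2_ok TB_l25186 _)
            (CovZ.leaf K2_ok TB_l25187 _))
           (CovZ.leaf K2_ok TB_l25188 _)))
         (CovZ.n1 (-16128, 11328) (by decide +kernel)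
          (CovZ.n2 (-16032, 11424) (by decide +kernel)
           (CovZ.n2 (-16032, 11328) (by decide +kernel)
            (CovZ.leaf K2_ok TB_l25189 _)
            (CovZ.leaf K2_ok TB_l25190 _))
           (CovZ.leaf K2_ok TB_l25191 _))
          (CovZ.n1 (-16032, 11232) (by decide +kernel)
           (CovZ.leaf K2_ok TB_l25192 _)
           (CovZ.n1 (-16032, 11328) (by decide +kernel)
            (CovZ.leaf K2_ok TB_l25193 _)
            (CovZ.leaf K2_ok TB_l25194 _)))))
        (CovZ.n1 (-15936, 10944) (by decide +kernel)
         (CovZ.n2 (-16128, 10944) (by decide +kernel)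
          (CovZ.n2 (-16032, 11040) (by decide +kernel)
           (CovZ.n2 (-16032, 10944) (by decide +kernel)
            (CovZ.leaf K2_ok TB_l25195 _)
            (CovZ.leaf K2_ok TB_l25196 _))
           (CovZ.leaf K2_ok TB_l25197 _))
          (CovZ.n1 (-16032, 10848) (by decide +kernel)
           (CovZ.leaf K2_ok TB_l25198 _)
           (CovZ.n1 (-16032, 10944) (by decide +kernel)
            (CovZ.leaf K2_ok TB_l25199 _)
            (CovZ.leaf K2_ok TB_l25200 _))))
         (CovZ.n1 (-15936, 11136) (by decide +kernel)
          (CovZ.n2 (-15840, 11040) (by decide +kernel)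
           (CovZ.leaf K2_ok TB_l25201 _)
           (CovZ.n1 (-15840, 11136) (by decide +kernel)
            (CovZ.leaf K2_ok TB_l25202 _)
            (CovZ.leaf K2_ok TB_l25203 _)))
          (CovZ.n1 (-16032, 11040) (by decide +kernel)
           (CovZ.n2 (-16032, 11136) (by decide +kernel)
            (CovZ.leaf K2_ok TB_l25204 _)
            (CovZ.leaf K2_ok TB_l25205 _))
           (CovZ.leaf K2_ok TB_l25206 _))))))))

theorem TB_u305 : CovZ TB_M (toL (selN TB_LN 19701079499366619114949045631819295023783698566064412978314634741273673203341928957118146096240939957104686139445288)) [0, 7, 6, 1] (-16896, 10752) (-16128, 11520) (-16896, 12288) :=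
    (CovZ.n2 (-16896, 11520) (by decide +kernel)
     (CovZ.n2 (-16512, 11904) (by decide +kernel)
      (CovZ.n2 (-16512, 11520) (by decide +kernel)
       (CovZ.n2 (-16704, 11712) (by decide +kernel)
        (CovZ.n2 (-16512, 11712) (by decide +kernel)
         (CovZ.n2 (-16608, 11616) (by decide +kernel)
          (CovZ.n2 (-16608, 11712) (by decide +kernel)
           (CovZ.leaf K2_ok TB_l25207 _)
           (CovZ.leaf K2_ok TB_l25208 _))
          (CovZ.leaf K2_ok TB_l25209 _))
         (CovZ.n1 (-16608, 11808) (by decide +kernel)
          (CovZ.leaf K2_ok TB_l25210 _)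
          (CovZ.n1 (-16608, 11712) (by decide +kernel)
           (CovZ.leaf K2_ok TB_l25211 _)
           (CovZ.leaf K2_ok TB_l25212 _))))
        (CovZ.n1 (-16704, 11520) (by decide +kernel)
         (CovZ.n2 (-16800, 11616) (by decide +kernel)
          (CovZ.leaf K2_ok TB_l25213 _)
          (CovZ.n1 (-16800, 11520) (by decide +kernel)
           (CovZ.leaf K2_ok TB_l25214 _)
           (CovZ.leaf K2_ok TB_l25215 _)))
         (CovZ.n1 (-16608, 11616) (by decide +kernel)
          (CovZ.n2 (-16608, 11520) (by decide +kernel)
           (CovZ.leaf K2_ok TB_l25216 _)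
           (CovZ.leaf K2_ok TB_l25217 _))
          (CovZ.leaf K2_ok TB_l25218 _))))
       (CovZ.n1 (-16320, 11712) (by decide +kernel)
        (CovZ.n2 (-16320, 11520) (by decide +kernel)
         (CovZ.n2 (-16416, 11616) (by decide +kernel)
          (CovZ.leaf K2_ok TB_l25219 _)
          (CovZ.n1 (-16416, 11520) (by decide +kernel)
           (CovZ.leaf K2_ok TB_l25220 _)
           (CovZ.leaf K2_ok TB_l25221 _)))
         (CovZ.n1 (-16224, 11616) (by decide +kernel)
          (CovZ.n2 (-16224, 11520) (by decide +kernel)
           (CovZ.leaf K2_ok TB_l25222 _)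
           (CovZ.leaf K2_ok TB_l25223 _))
          (CovZ.leaf K2_ok TB_l25224 _)))
        (CovZ.n1 (-16512, 11712) (by decide +kernel)
         (CovZ.n2 (-16416, 11808) (by decide +kernel)
          (CovZ.n2 (-16416, 11712) (by decide +kernel)
           (CovZ.leaf K2_ok TB_l25225 _)
           (CovZ.leaf K2_ok TB_l25226 _))
          (CovZ.leaf K2_ok TB_l25227 _))
         (CovZ.n1 (-16416, 11616) (by decide +kernel)
          (CovZ.leaf K2_ok TB_l25228 _)
          (CovZ.n1 (-16416, 11712) (by decide +kernel)
           (CovZ.leaf K2_ok TB_l25229 _)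
           (CovZ.leaf K2_ok TB_l25230 _))))))
      (CovZ.n1 (-16896, 11904) (by decide +kernel)
       (CovZ.n2 (-16704, 12096) (by decide +kernel)
        (CovZ.n2 (-16704, 11904) (by decide +kernel)
         (CovZ.n2 (-16800, 12000) (by decide +kernel)
          (CovZ.leaf K2_ok TB_l25231 _)
          (CovZ.n1 (-16800, 11904) (by decide +kernel)
           (CovZ.leaf K2_ok TB_l25232 _)
           (CovZ.leaf K2_ok TB_l25233 _)))
         (CovZ.n1 (-16608, 12000) (by decide +kernel)
          (CovZ.n2 (-16608, 11904) (by decide +kernel)
           (CovZ.leaf K2_ok TB_l25234 _)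
           (CovZ.leaf K2_ok TB_l25235 _))
          (CovZ.leaf K2_ok TB_l25236 _)))
        (CovZ.n1 (-16896, 12096) (by decide +kernel)
         (CovZ.n2 (-16800, 12192) (by decide +kernel)
          (CovZ.leaf K2_ok TB_l25237 _)
          (CovZ.leaf K2_ok TB_l25238 _))
         (CovZ.n1 (-16800, 12000) (by decide +kernel)
          (CovZ.leaf K2_ok TB_l25239 _)
          (CovZ.n1 (-16800, 12096) (by decide +kernel)
           (CovZ.leaf K2_ok TB_l25240 _)
           (CovZ.leaf K2_ok TB_l25241 _)))))
       (CovZ.n1 (-16704, 11712) (by decide +kernel)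
        (CovZ.n2 (-16896, 11712) (by decide +kernel)
         (CovZ.n2 (-16800, 11808) (by decide +kernel)
          (CovZ.n2 (-16800, 11712) (by decide +kernel)
           (CovZ.leaf K2_ok TB_l25242 _)
           (CovZ.leaf K2_ok TB_l25243 _))
          (CovZ.leaf K2_ok TB_l25244 _))
         (CovZ.n1 (-16800, 11616) (by decide +kernel)
          (CovZ.leaf K2_ok TB_l25245 _)
          (CovZ.n1 (-16800, 11712) (by decide +kernel)
           (CovZ.leaf K2_ok TB_l25246 _)
           (CovZ.leaf K2_ok TB_l25247 _))))
        (CovZ.n1 (-16704, 11904) (by decide +kernel)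
         (CovZ.n2 (-16608, 11808) (by decide +kernel)
          (CovZ.leaf K2_ok TB_l25248 _)
          (CovZ.n1 (-16608, 11904) (by decide +kernel)
           (CovZ.leaf K2_ok TB_l25249 _)
           (CovZ.leaf K2_ok TB_l25250 _)))
         (CovZ.n1 (-16800, 11808) (by decide +kernel)
          (CovZ.n2 (-16800, 11904) (by decide +kernel)
           (CovZ.leaf K2_ok TB_l25251 _)
           (CovZ.leaf K2_ok TB_l25252 _))
          (CovZ.leaf K2_ok TB_l25253 _))))))
     (CovZ.n1 (-16512, 11136) (by decide +kernel)
      (CovZ.n2 (-16896, 11136) (by decide +kernel)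
       (CovZ.n2 (-16704, 11328) (by decide +kernel)
        (CovZ.n2 (-16704, 11136) (by decide +kernel)
         (CovZ.n2 (-16800, 11232) (by decide +kernel)
          (CovZ.leaf K2_ok TB_l25254 _)
          (CovZ.n1 (-16800, 11136) (by decide +kernel)
           (CovZ.leaf K2_ok TB_l25255 _)
           (CovZ.leaf K2_ok TB_l25256 _)))
         (CovZ.n1 (-16608, 11232) (by decide +kernel)
          (CovZ.n2 (-16608, 11136) (by decide +kernel)
           (CovZ.leaf K2_ok TB_l25257 _)
           (CovZ.leaf K2_ok TB_l25258 _))
          (CovZ.leaf K2_ok TB_l25259 _)))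
        (CovZ.n1 (-16896, 11328) (by decide +kernel)
         (CovZ.n2 (-16800, 11424) (by decide +kernel)
          (CovZ.n2 (-16800, 11328) (by decide +kernel)
           (CovZ.leaf K2_ok TB_l25260 _)
           (CovZ.leaf K2_ok TB_l25261 _))
          (CovZ.leaf K2_ok TB_l25262 _))
         (CovZ.n1 (-16800, 11232) (by decide +kernel)
          (CovZ.leaf K2_ok TB_l25263 _)
          (CovZ.n1 (-16800, 11328) (by decide +kernel)
           (CovZ.leaf K2_ok TB_l25264 _)
           (CovZ.leaf K2_ok TB_l25265 _)))))
       (CovZ.n1 (-16704, 10944) (by decide +kernel)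
        (CovZ.n2 (-16896, 10944) (by decide +kernel)
         (CovZ.n2 (-16800, 11040) (by decide +kernel)
          (CovZ.n2 (-16800, 10944) (by decide +kernel)
           (CovZ.leaf K2_ok TB_l25266 _)
           (CovZ.leaf K2_ok TB_l25267 _))
          (CovZ.leaf K2_ok TB_l25268 _))
         (CovZ.n1 (-16800, 10848) (by decide +kernel)
          (CovZ.leaf K2_ok TB_l25269 _)
          (CovZ.n1 (-16800, 10944) (by decide +kernel)
           (CovZ.leaf K2_ok TB_l25270 _)
           (CovZ.leaf K2_ok TB_l25271 _))))
        (CovZ.n1 (-16704, 11136) (by decide +kernel)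
         (CovZ.n2 (-16608, 11040) (by decide +kernel)
          (CovZ.leaf K2_ok TB_l25272 _)
          (CovZ.n1 (-16608, 11136) (by decide +kernel)
           (CovZ.leaf K2_ok TB_l25273 _)
           (CovZ.leaf K2_ok TB_l25274 _)))
         (CovZ.n1 (-16800, 11040) (by decide +kernel)
          (CovZ.n2 (-16800, 11136) (by decide +kernel)
           (CovZ.leaf K2_ok TB_l25275 _)
           (CovZ.leaf K2_ok TB_l25276 _))
          (CovZ.leaf K2_ok TB_l25277 _)))))
      (CovZ.n1 (-16512, 11520) (by decide +kernel)
       (CovZ.n2 (-16320, 11328) (by decide +kernel)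
        (CovZ.n2 (-16512, 11328) (by decide +kernel)
         (CovZ.n2 (-16416, 11424) (by decide +kernel)
          (CovZ.n2 (-16416, 11328) (by decide +kernel)
           (CovZ.leaf K2_ok TB_l25278 _)
           (CovZ.leaf K2_ok TB_l25279 _))
          (CovZ.leaf K2_ok TB_l25280 _))
         (CovZ.n1 (-16416, 11232) (by decide +kernel)
          (CovZ.leaf K2_ok TB_l25281 _)
          (CovZ.n1 (-16416, 11328) (by decide +kernel)
           (CovZ.leaf K2_ok TB_l25282 _)
           (CovZ.leaf K2_ok TB_l25283 _))))
        (CovZ.n1 (-16320, 11520) (by decide +kernel)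
         (CovZ.n2 (-16224, 11424) (by decide +kernel)
          (CovZ.leaf K2_ok TB_l25284 _)
          (CovZ.n1 (-16224, 11520) (by decide +kernel)
           (CovZ.leaf K2_ok TB_l25285 _)
           (CovZ.leaf K2_ok TB_l25286 _)))
         (CovZ.n1 (-16416, 11424) (by decide +kernel)
          (CovZ.n2 (-16416, 11520) (by decide +kernel)
           (CovZ.leaf K2_ok TB_l25287 _)
           (CovZ.leaf K2_ok TB_l25288 _))
          (CovZ.leaf K2_ok TB_l25289 _))))
       (CovZ.n1 (-16704, 11328) (by decide +kernel)
        (CovZ.n2 (-16704, 11520) (by decide +kernel)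
         (CovZ.n2 (-16608, 11424) (by decide +kernel)
          (CovZ.leaf K2_ok TB_l25290 _)
          (CovZ.n1 (-16608, 11520) (by decide +kernel)
           (CovZ.leaf K2_ok TB_l25291 _)
           (CovZ.leaf K2_ok TB_l25292 _)))
         (CovZ.n1 (-16800, 11424) (by decide +kernel)
          (CovZ.n2 (-16800, 11520) (by decide +kernel)
           (CovZ.leaf K2_ok TB_l25293 _)
           (CovZ.leaf K2_ok TB_l25294 _))
          (CovZ.leaf K2_ok TB_l25295 _)))
        (CovZ.n1 (-16512, 11328) (by decide +kernel)
         (CovZ.n2 (-16608, 11232) (by decide +kernel)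
          (CovZ.n2 (-16608, 11328) (by decide +kernel)
           (CovZ.leaf K2_ok TB_l25296 _)
           (CovZ.leaf K2_ok TB_l25297 _))
          (CovZ.leaf K2_ok TB_l25298 _))
         (CovZ.n1 (-16608, 11424) (by decide +kernel)
          (CovZ.leaf K2_ok TB_l25299 _)
          (CovZ.n1 (-16608, 11328) (by decide +kernel)
           (CovZ.leaf K2_ok TB_l25300 _)
           (CovZ.leaf K2_ok TB_l25301 _))))))))

theorem TB_u306 : CovZ TB_M (toL (selN TB_LN 19701079499366619114949045631819295023783698566064412978314634741273673203341928957118146096240939957104686139445288)) [0, 7, 6, 1] (-16128, 11520) (-15360, 12288) (-16896, 12288) :=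
    (CovZ.n1 (-16128, 12288) (by decide +kernel)
     (CovZ.subM 75153362788746710721546519691573383212228206431181408603840387475409630174285634577848390802835261581854511144 (by decide +kernel)
      (CovZ.n2 (-15744, 11904) (by decide +kernel)
       (CovZ.n2 (-16128, 11904) (by decide +kernel)
        (CovZ.n2 (-15936, 12096) (by decide +kernel)
         (CovZ.n2 (-15936, 11904) (by decide +kernel)
          (CovZ.n2 (-16032, 12000) (by decide +kernel)
           (CovZ.leaf K2_ok TB_l25302 _)
           (CovZ.n1 (-16032, 11904) (by decide +kernel)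
            (CovZ.leaf K2_ok TB_l25303 _)
            (CovZ.leaf K2_ok TB_l25304 _)))
          (CovZ.n1 (-15840, 12000) (by decide +kernel)
           (CovZ.n2 (-15840, 11904) (by decide +kernel)
            (CovZ.leaf K2_ok TB_l25305 _)
            (CovZ.leaf K2_ok TB_l25306 _))
           (CovZ.leaf K2_ok TB_l25307 _)))
         (CovZ.n1 (-16128, 12096) (by decide +kernel)
          (CovZ.n2 (-16032, 12192) (by decide +kernel)
           (CovZ.n2 (-16032, 12096) (by decide +kernel)
            (CovZ.leaf K2_ok TB_l25308 _)
            (CovZ.leaf K2_ok TB_l25309 _))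
           (CovZ.leaf K2_ok TB_l25310 _))
          (CovZ.n1 (-16032, 12000) (by decide +kernel)
           (CovZ.leaf K2_ok TB_l25311 _)
           (CovZ.n1 (-16032, 12096) (by decide +kernel)
            (CovZ.leaf K2_ok TB_l25312 _)
            (CovZ.leaf K2_ok TB_l25313 _)))))
        (CovZ.n1 (-15936, 11712) (by decide +kernel)
         (CovZ.n2 (-16128, 11712) (by decide +kernel)
          (CovZ.n2 (-16032, 11808) (by decide +kernel)
           (CovZ.n2 (-16032, 11712) (by decide +kernel)
            (CovZ.leaf K2_ok TB_l25314 _)
            (CovZ.leaf K2_ok TB_l25315 _))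
           (CovZ.leaf K2_ok TB_l25316 _))
          (CovZ.n1 (-16032, 11616) (by decide +kernel)
           (CovZ.leaf K2_ok TB_l25317 _)
           (CovZ.n1 (-16032, 11712) (by decide +kernel)
            (CovZ.leaf K2_ok TB_l25318 _)
            (CovZ.leaf K2_ok TB_l25319 _))))
         (CovZ.n1 (-15936, 11904) (by decide +kernel)
          (CovZ.n2 (-15840, 11808) (by decide +kernel)
           (CovZ.leaf K2_ok TB_l25320 _)
           (CovZ.n1 (-15840, 11904) (by decide +kernel)
            (CovZ.leaf K2_ok TB_l25321 _)
            (CovZ.leaf K2_ok TB_l25322 _)))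
          (CovZ.n1 (-16032, 11808) (by decide +kernel)
           (CovZ.n2 (-16032, 11904) (by decide +kernel)
            (CovZ.leaf K2_ok TB_l25323 _)
            (CovZ.leaf K2_ok TB_l25324 _))
           (CovZ.leaf K2_ok TB_l25325 _)))))
       (CovZ.n1 (-15744, 12288) (by decide +kernel)
        (CovZ.subM 139984047429083140351480979342136548091401267509850569813661844643273075086478776826315762318109048872 (by decide +kernel)
         (CovZ.n2 (-15552, 12096) (by decide +kernel)
          (CovZ.n2 (-15744, 12096) (by decide +kernel)
           (CovZ.n2 (-15648, 12192) (by decide +kernel)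
            (CovZ.n2 (-15648, 12096) (by decide +kernel)
             (CovZ.leaf K2_ok TB_l25326 _)
             (CovZ.leaf K2_ok TB_l25327 _))
            (CovZ.leaf K2_ok TB_l25328 _))
           (CovZ.n1 (-15648, 12000) (by decide +kernel)
            (CovZ.leaf K2_ok TB_l25329 _)
            (CovZ.n1 (-15648, 12096) (by decide +kernel)
             (CovZ.leaf K2_ok TB_l25330 _)
             (CovZ.leaf K2_ok TB_l25331 _))))
          (CovZ.n1 (-15552, 12288) (by decide +kernel)
           (CovZ.n2 (-15456, 12192) (by decide +kernel)
            (CovZ.leaf K2_ok TB_l25332 _)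
            (CovZ.n1 (-15456, 12288) (by decide +kernel)
             (CovZ.leaf K2_ok TB_l25333 _)
             (CovZ.leaf K2_ok TB_l25334 _)))
           (CovZ.n1 (-15648, 12192) (by decide +kernel)
            (CovZ.n2 (-15648, 12288) (by decide +kernel)
             (CovZ.leaf K2_ok TB_l25335 _)
             (CovZ.leaf K2_ok TB_l25336 _))
            (CovZ.leaf K2_ok TB_l25337 _)))))
        (CovZ.n1 (-15936, 12096) (by decide +kernel)
         (CovZ.n2 (-15936, 12288) (by decide +kernel)
          (CovZ.n2 (-15840, 12192) (by decide +kernel)
           (CovZ.leaf K2_ok TB_l25338 _)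
           (CovZ.n1 (-15840, 12288) (by decide +kernel)
            (CovZ.leaf K2_ok TB_l25339 _)
            (CovZ.leaf K2_ok TB_l25340 _)))
          (CovZ.n1 (-16032, 12192) (by decide +kernel)
           (CovZ.n2 (-16032, 12288) (by decide +kernel)
            (CovZ.leaf K2_ok TB_l25341 _)
            (CovZ.leaf K2_ok TB_l25342 _))
           (CovZ.leaf K2_ok TB_l25343 _)))
         (CovZ.n1 (-15744, 12096) (by decide +kernel)
          (CovZ.n2 (-15840, 12000) (by decide +kernel)
           (CovZ.n2 (-15840, 12096) (by decide +kernel)
            (CovZ.leaf K2_ok TB_l25344 _)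
            (CovZ.leaf K2_ok TB_l25345 _))
           (CovZ.leaf K2_ok TB_l25346 _))
          (CovZ.n1 (-15840, 12192) (by decide +kernel)
           (CovZ.leaf K2_ok TB_l25347 _)
           (CovZ.n1 (-15840, 12096) (by decide +kernel)
            (CovZ.leaf K2_ok TB_l25348 _)
            (CovZ.leaf K2_ok TB_l25349 _))))))))
     (CovZ.n1 (-16512, 11904) (by decide +kernel)
      (CovZ.n2 (-16512, 12288) (by decide +kernel)
       (CovZ.n2 (-16320, 12096) (by decide +kernel)
        (CovZ.n2 (-16512, 12096) (by decide +kernel)
         (CovZ.n2 (-16416, 12192) (by decide +kernel)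
          (CovZ.n2 (-16416, 12096) (by decide +kernel)
           (CovZ.leaf K2_ok TB_l25350 _)
           (CovZ.leaf K2_ok TB_l25351 _))
          (CovZ.leaf K2_ok TB_l25352 _))
         (CovZ.n1 (-16416, 12000) (by decide +kernel)
          (CovZ.leaf K2_ok TB_l25353 _)
          (CovZ.n1 (-16416, 12096) (by decide +kernel)
           (CovZ.leaf K2_ok TB_l25354 _)
           (CovZ.leaf K2_ok TB_l25355 _))))
        (CovZ.n1 (-16320, 12288) (by decide +kernel)
         (CovZ.n2 (-16224, 12192) (by decide +kernel)
          (CovZ.leaf K2_ok TB_l25356 _)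
          (CovZ.n1 (-16224, 12288) (by decide +kernel)
           (CovZ.leaf K2_ok TB_l25357 _)
           (CovZ.leaf K2_ok TB_l25358 _)))
         (CovZ.n1 (-16416, 12192) (by decide +kernel)
          (CovZ.n2 (-16416, 12288) (by decide +kernel)
           (CovZ.leaf K2_ok TB_l25359 _)
           (CovZ.leaf K2_ok TB_l25360 _))
          (CovZ.leaf K2_ok TB_l25361 _))))
       (CovZ.n1 (-16704, 12096) (by decide +kernel)
        (CovZ.n2 (-16704, 12288) (by decide +kernel)
         (CovZ.n2 (-16608, 12192) (by decide +kernel)
          (CovZ.leaf K2_ok TB_l25362 _)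
          (CovZ.n1 (-16608, 12288) (by decide +kernel)
           (CovZ.leaf K2_ok TB_l25363 _)
           (CovZ.leaf K2_ok TB_l25364 _)))
         (CovZ.n1 (-16800, 12192) (by decide +kernel)
          (CovZ.n2 (-16800, 12288) (by decide +kernel)
           (CovZ.leaf K2_ok TB_l25365 _)
           (CovZ.leaf K2_ok TB_l25366 _))
          (CovZ.leaf K2_ok TB_l25367 _)))
        (CovZ.n1 (-16512, 12096) (by decide +kernel)
         (CovZ.n2 (-16608, 12000) (by decide +kernel)
          (CovZ.n2 (-16608, 12096) (by decide +kernel)
           (CovZ.leaf K2_ok TB_l25368 _)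
           (CovZ.leaf K2_ok TB_l25369 _))
          (CovZ.leaf K2_ok TB_l25370 _))
         (CovZ.n1 (-16608, 12192) (by decide +kernel)
          (CovZ.leaf K2_ok TB_l25371 _)
          (CovZ.n1 (-16608, 12096) (by decide +kernel)
           (CovZ.leaf K2_ok TB_l25372 _)
           (CovZ.leaf K2_ok TB_l25373 _))))))
      (CovZ.n1 (-16128, 11904) (by decide +kernel)
       (CovZ.n2 (-16320, 11712) (by decide +kernel)
        (CovZ.n2 (-16320, 11904) (by decide +kernel)
         (CovZ.n2 (-16224, 11808) (by decide +kernel)
          (CovZ.leaf K2_ok TB_l25374 _)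
          (CovZ.n1 (-16224, 11904) (by decide +kernel)
           (CovZ.leaf K2_ok TB_l25375 _)
           (CovZ.leaf K2_ok TB_l25376 _)))
         (CovZ.n1 (-16416, 11808) (by decide +kernel)
          (CovZ.n2 (-16416, 11904) (by decide +kernel)
           (CovZ.leaf K2_ok TB_l25377 _)
           (CovZ.leaf K2_ok TB_l25378 _))
          (CovZ.leaf K2_ok TB_l25379 _)))
        (CovZ.n1 (-16128, 11712) (by decide +kernel)
         (CovZ.n2 (-16224, 11616) (by decide +kernel)
          (CovZ.n2 (-16224, 11712) (by decide +kernel)
           (CovZ.leaf K2_ok TB_l25380 _)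
           (CovZ.leaf K2_ok TB_l25381 _))
          (CovZ.leaf K2_ok TB_l25382 _))
         (CovZ.n1 (-16224, 11808) (by decide +kernel)
          (CovZ.leaf K2_ok TB_l25383 _)
          (CovZ.n1 (-16224, 11712) (by decide +kernel)
           (CovZ.leaf K2_ok TB_l25384 _)
           (CovZ.leaf K2_ok TB_l25385 _)))))
       (CovZ.n1 (-16320, 12096) (by decide +kernel)
        (CovZ.n2 (-16128, 12096) (by decide +kernel)
         (CovZ.n2 (-16224, 12000) (by decide +kernel)
          (CovZ.n2 (-16224, 12096) (by decide +kernel)
           (CovZ.leaf K2_ok TB_l25386 _)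
           (CovZ.leaf K2_ok TB_l25387 _))
          (CovZ.leaf K2_ok TB_l25388 _))
         (CovZ.n1 (-16224, 12192) (by decide +kernel)
          (CovZ.leaf K2_ok TB_l25389 _)
          (CovZ.n1 (-16224, 12096) (by decide +kernel)
           (CovZ.leaf K2_ok TB_l25390 _)
           (CovZ.leaf K2_ok TB_l25391 _))))
        (CovZ.n1 (-16320, 11904) (by decide +kernel)
         (CovZ.n2 (-16416, 12000) (by decide +kernel)
          (CovZ.leaf K2_ok TB_l25392 _)
          (CovZ.n1 (-16416, 11904) (by decide +kernel)
           (CovZ.leaf K2_ok TB_l25393 _)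
           (CovZ.leaf K2_ok TB_l25394 _)))
         (CovZ.n1 (-16224, 12000) (by decide +kernel)
          (CovZ.n2 (-16224, 11904) (by decide +kernel)
           (CovZ.leaf K2_ok TB_l25395 _)
           (CovZ.leaf K2_ok TB_l25396 _))
          (CovZ.leaf K2_ok TB_l25397 _)))))))

theorem TB_u307 : CovZ TB_M (toL (selN TB_LN 7957308376492047408781348591985145800095955396629593321076834161490773666454990370111528)) [0, 7, 6, 1] (-15360, 10752) (-14592, 10752) (-14592, 11520) :=
    (CovZ.n2 (-14976, 11136) (by decide +kernel)
      (CovZ.subM 121416805764108066932466369176469931665150427440758720078238275608681517825325531136 (by decide +kernel)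
       (CovZ.n2 (-14592, 11136) (by decide +kernel)
        (CovZ.badM (by decide +kernel))
        (CovZ.n1 (-14784, 11328) (by decide +kernel)
         (CovZ.n2 (-14592, 11328) (by decide +kernel)
          (CovZ.n2 (-14688, 11232) (by decide +kernel)
           (CovZ.n2 (-14688, 11328) (by decide +kernel)
            (CovZ.n2 (-14640, 11280) (by decide +kernel)
             (CovZ.n2 (-14688, 11280) (by decide +kernel)
              (CovZ.n2 (-14664, 11304) (by decide +kernel)
               (CovZ.leaf K2_ok TB_l45752 _)
               (CovZ.leaf K2_ok TB_l45753 _))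
              (CovZ.n1 (-14664, 11256) (by decide +kernel)
               (CovZ.leaf K2_ok TB_l45754 _)
               (CovZ.leaf K2_ok TB_l45755 _)))
             (CovZ.n1 (-14640, 11328) (by decide +kernel)
              (CovZ.n2 (-14616, 11304) (by decide +kernel)
               (CovZ.leaf K2_ok TB_l45756 _)
               (CovZ.leaf K2_ok TB_l45757 _))
              (CovZ.n1 (-14664, 11304) (by decide +kernel)
               (CovZ.leaf K2_ok TB_l45758 _)
               (CovZ.leaf K2_ok TB_l45759 _))))
            (CovZ.n1 (-14736, 11280) (by decide +kernel)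
             (CovZ.n2 (-14736, 11328) (by decide +kernel)
              (CovZ.leaf K2_ok TB_l32659 _)
              (CovZ.leaf K2_ok TB_l32660 _))
             (CovZ.n1 (-14688, 11280) (by decide +kernel)
              (CovZ.leaf K2_ok TB_l32661 _)
              (CovZ.n1 (-14712, 11304) (by decide +kernel)
               (CovZ.leaf K2_ok TB_l45760 _)
               (CovZ.leaf K2_ok TB_l32662 _)))))
           (CovZ.n1 (-14592, 11232) (by decide +kernel)
            (CovZ.n2 (-14640, 11184) (by decide +kernel)
             (CovZ.n2 (-14640, 11232) (by decide +kernel)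
              (CovZ.n2 (-14616, 11208) (by decide +kernel)
               (CovZ.leaf K2_ok TB_l45761 _)
               (CovZ.leaf K2_ok TB_l45762 _))
              (CovZ.n1 (-14664, 11208) (by decide +kernel)
               (CovZ.leaf K2_ok TB_l45763 _)
               (CovZ.leaf K2_ok TB_l45764 _)))
             (CovZ.n1 (-14592, 11184) (by decide +kernel)
              (CovZ.badM (by decide +kernel))
              (CovZ.n1 (-14616, 11208) (by decide +kernel)
               (CovZ.leaf K2_ok TB_l45765 _)
               (CovZ.leaf K2_ok TB_l45766 _))))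
            (CovZ.n1 (-14640, 11280) (by decide +kernel)
             (CovZ.n2 (-14592, 11280) (by decide +kernel)
              (CovZ.n2 (-14616, 11256) (by decide +kernel)
               (CovZ.n2 (-14616, 11280) (by decide +kernel)
                (CovZ.leaf K2_ok TB_l45767 _)
                (CovZ.leaf K2_ok TB_l45768 _))
               (CovZ.leaf K2_ok TB_l45769 _))
              (CovZ.n1 (-14616, 11304) (by decide +kernel)
               (CovZ.badM (by decide +kernel))
               (CovZ.leaf K2_ok TB_l45770 _)))
             (CovZ.n1 (-14640, 11232) (by decide +kernel)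
              (CovZ.n2 (-14664, 11256) (by decide +kernel)
               (CovZ.leaf K2_ok TB_l45771 _)
               (CovZ.leaf K2_ok TB_l45772 _))
              (CovZ.n1 (-14616, 11256) (by decide +kernel)
               (CovZ.leaf K2_ok TB_l45773 _)
               (CovZ.leaf K2_ok TB_l45774 _))))))
          (CovZ.n1 (-14688, 11424) (by decide +kernel)
           (CovZ.badM (by decide +kernel))
           (CovZ.n1 (-14688, 11328) (by decide +kernel)
            (CovZ.n2 (-14736, 11376) (by decide +kernel)
             (CovZ.n2 (-14688, 11376) (by decide +kernel)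
              (CovZ.leaf K2_ok TB_l32663 _)
              (CovZ.leaf K2_ok TB_l32664 _))
             (CovZ.n1 (-14736, 11328) (by decide +kernel)
              (CovZ.leaf K2_ok TB_l32665 _)
              (CovZ.leaf K2_ok TB_l32666 _)))
            (CovZ.n1 (-14640, 11376) (by decide +kernel)
             (CovZ.n2 (-14640, 11328) (by decide +kernel)
              (CovZ.n2 (-14664, 11352) (by decide +kernel)
               (CovZ.leaf K2_ok TB_l45775 _)
               (CovZ.leaf K2_ok TB_l45776 _))
              (CovZ.n1 (-14616, 11352) (by decide +kernel)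
               (CovZ.leaf K2_ok TB_l45777 _)
               (CovZ.leaf K2_ok TB_l45778 _)))
             (CovZ.n1 (-14688, 11376) (by decide +kernel)
              (CovZ.n2 (-14664, 11400) (by decide +kernel)
               (CovZ.leaf K2_ok TB_l45779 _)
               (CovZ.leaf K2_ok TB_l45780 _))
              (CovZ.n1 (-14664, 11352) (by decide +kernel)
               (CovZ.leaf K2_ok TB_l45781 _)
               (CovZ.leaf K2_ok TB_l45782 _)))))))
         (CovZ.n1 (-14784, 11136) (by decide +kernel)
          (CovZ.n2 (-14880, 11232) (by decide +kernel)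
           (CovZ.n2 (-14784, 11232) (by decide +kernel)
            (CovZ.badM (by decide +kernel))
            (CovZ.n1 (-14832, 11280) (by decide +kernel)
             (CovZ.leaf K2_ok TB_l32670 _)
             (CovZ.badM (by decide +kernel))))
           (CovZ.badM (by decide +kernel)))
          (CovZ.n1 (-14688, 11232) (by decide +kernel)
           (CovZ.badM (by decide +kernel))
           (CovZ.n1 (-14784, 11232) (by decide +kernel)
            (CovZ.n2 (-14736, 11280) (by decide +kernel)
             (CovZ.n2 (-14736, 11232) (by decide +kernel)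
              (CovZ.leaf K2_ok TB_l32682 _)
              (CovZ.leaf K2_ok TB_l32683 _))
             (CovZ.n1 (-14784, 11280) (by decide +kernel)
              (CovZ.leaf K2_ok TB_l32684 _)
              (CovZ.leaf K2_ok TB_l32685 _)))
            (CovZ.badM (by decide +kernel))))))))
      (CovZ.n1 (-14976, 10752) (by decide +kernel)
       (CovZ.n2 (-15168, 10944) (by decide +kernel)
        (CovZ.subM 28948022309329048855892746252171976963317496166410141009864396001978282409984 (by decide +kernel)
         (CovZ.n2 (-14976, 10944) (by decide +kernel)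
          (CovZ.n2 (-15072, 10848) (by decide +kernel)
           (CovZ.n2 (-15072, 10944) (by decide +kernel)
            (CovZ.n2 (-15024, 10896) (by decide +kernel)
             (CovZ.leaf K2_ok TB_l32691 _)
             (CovZ.leaf K2_ok TB_l32692 _))
            (CovZ.leaf K2_ok TB_l32693 _))
           (CovZ.n1 (-14976, 10848) (by decide +kernel)
            (CovZ.n2 (-15024, 10800) (by decide +kernel)
             (CovZ.leaf K2_ok TB_l32694 _)
             (CovZ.leaf K2_ok TB_l32695 _))
            (CovZ.n1 (-15024, 10896) (by decide +kernel)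
             (CovZ.leaf K2_ok TB_l32696 _)
             (CovZ.leaf K2_ok TB_l32697 _))))
          (CovZ.n1 (-15072, 11040) (by decide +kernel)
           (CovZ.n2 (-14976, 11040) (by decide +kernel)
            (CovZ.n2 (-15024, 10992) (by decide +kernel)
             (CovZ.n2 (-15024, 11040) (by decide +kernel)
              (CovZ.badM (by decide +kernel))
              (CovZ.leaf K2_ok TB_l32699 _))
             (CovZ.badM (by decide +kernel)))
            (CovZ.n1 (-15024, 11088) (by decide +kernel)
             (CovZ.badM (by decide +kernel))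
             (CovZ.leaf K2_ok TB_l32702 _)))
           (CovZ.n1 (-15072, 10944) (by decide +kernel)
            (CovZ.leaf K2_ok TB_l32703 _)
            (CovZ.n1 (-15024, 10992) (by decide +kernel)
             (CovZ.leaf K2_ok TB_l32704 _)
             (CovZ.leaf K2_ok TB_l32705 _))))))
        (CovZ.n1 (-15168, 10752) (by decide +kernel)
         (CovZ.n2 (-15264, 10848) (by decide +kernel)
          (CovZ.n2 (-15168, 10848) (by decide +kernel)
           (CovZ.leaf K2_ok TB_l32706 _)
           (CovZ.leaf K2_ok TB_l32707 _))
          (CovZ.n1 (-15264, 10752) (by decide +kernel)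
           (CovZ.leaf K2_ok TB_l32708 _)
           (CovZ.leaf K2_ok TB_l32709 _)))
         (CovZ.subM 28948022309329048855892746252171976963317496166410141009864396001978282409984 (by decide +kernel)
          (CovZ.n1 (-15072, 10848) (by decide +kernel)
           (CovZ.n2 (-15072, 10752) (by decide +kernel)
            (CovZ.leaf K2_ok TB_l32710 _)
            (CovZ.n1 (-15024, 10800) (by decide +kernel)
             (CovZ.leaf K2_ok TB_l32711 _)
             (CovZ.leaf K2_ok TB_l32712 _)))
           (CovZ.n1 (-15168, 10848) (by decide +kernel)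
            (CovZ.leaf K2_ok TB_l32713 _)
            (CovZ.leaf K2_ok TB_l32714 _))))))
       (CovZ.subM 28948022309329048855892746252171976963317496166410141009864396001978282409984 (by decide +kernel)
        (CovZ.n1 (-14784, 10944) (by decide +kernel)
         (CovZ.n2 (-14784, 10752) (by decide +kernel)
          (CovZ.n2 (-14880, 10848) (by decide +kernel)
           (CovZ.badM (by decide +kernel))
           (CovZ.n1 (-14880, 10752) (by decide +kernel)
            (CovZ.n2 (-14928, 10800) (by decide +kernel)
             (CovZ.badM (by decide +kernel))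
             (CovZ.n1 (-14928, 10752) (by decide +kernel)
              (CovZ.leaf K2_ok TB_l32724 _)
              (CovZ.leaf K2_ok TB_l32725 _)))
            (CovZ.badM (by decide +kernel))))
          (CovZ.badM (by decide +kernel)))
         (CovZ.n1 (-14976, 10944) (by decide +kernel)
          (CovZ.badM (by decide +kernel))
          (CovZ.n1 (-14880, 10848) (by decide +kernel)
           (CovZ.n2 (-14976, 10848) (by decide +kernel)
            (CovZ.n2 (-14928, 10896) (by decide +kernel)
             (CovZ.n2 (-14928, 10848) (by decide +kernel)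
              (CovZ.leaf K2_ok TB_l32752 _)
              (CovZ.badM (by decide +kernel)))
             (CovZ.leaf K2_ok TB_l32754 _))
            (CovZ.n1 (-14928, 10800) (by decide +kernel)
             (CovZ.leaf K2_ok TB_l32755 _)
             (CovZ.leaf K2_ok TB_l32756 _)))
           (CovZ.badM (by decide +kernel))))))))

theorem TB_u308 : CovZ TB_M (toL (selN TB_LN 7957308376492047408781348591985145800095955396629593321076834161490773666454990370111528)) [0, 7, 6, 1] (-14592, 10752) (-13824, 10752) (-14592, 11520) :=
    (CovZ.subM 121416805764108066932466369176469931665150427440758720078238275608681517825325531136 (by decide +kernel)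
      (CovZ.n1 (-14208, 11136) (by decide +kernel)
       (CovZ.n2 (-14208, 10752) (by decide +kernel)
        (CovZ.n2 (-14400, 10944) (by decide +kernel)
         (CovZ.n2 (-14208, 10944) (by decide +kernel)
          (CovZ.badM (by decide +kernel))
          (CovZ.n1 (-14304, 11040) (by decide +kernel)
           (CovZ.badM (by decide +kernel))
           (CovZ.badM (by decide +kernel))))
         (CovZ.badM (by decide +kernel)))
        (CovZ.badM (by decide +kernel)))
       (CovZ.n1 (-14592, 11136) (by decide +kernel)
        (CovZ.n2 (-14400, 11328) (by decide +kernel)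
         (CovZ.n2 (-14400, 11136) (by decide +kernel)
          (CovZ.n2 (-14496, 11232) (by decide +kernel)
           (CovZ.badM (by decide +kernel))
           (CovZ.n1 (-14496, 11136) (by decide +kernel)
            (CovZ.n2 (-14544, 11184) (by decide +kernel)
             (CovZ.n2 (-14496, 11184) (by decide +kernel)
              (CovZ.n2 (-14520, 11160) (by decide +kernel)
               (CovZ.n2 (-14520, 11184) (by decide +kernel)
                (CovZ.badM (by decide +kernel))
                (CovZ.leaf K2_ok TB_l45783 _))
               (CovZ.badM (by decide +kernel)))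
              (CovZ.n1 (-14520, 11208) (by decide +kernel)
               (CovZ.badM (by decide +kernel))
               (CovZ.n1 (-14520, 11184) (by decide +kernel)
                (CovZ.leaf K2_ok TB_l45784 _)
                (CovZ.badM (by decide +kernel)))))
             (CovZ.n1 (-14544, 11136) (by decide +kernel)
              (CovZ.n2 (-14568, 11160) (by decide +kernel)
               (CovZ.leaf K2_ok TB_l45785 _)
               (CovZ.badM (by decide +kernel)))
              (CovZ.n1 (-14520, 11160) (by decide +kernel)
               (CovZ.n2 (-14520, 11136) (by decide +kernel)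
                (CovZ.leaf K2_ok TB_l45786 _)
                (CovZ.leaf K2_ok TB_l45787 _))
               (CovZ.leaf K2_ok TB_l45788 _))))
            (CovZ.badM (by decide +kernel))))
          (CovZ.badM (by decide +kernel)))
         (CovZ.n1 (-14592, 11328) (by decide +kernel)
          (CovZ.badM (by decide +kernel))
          (CovZ.n1 (-14496, 11232) (by decide +kernel)
           (CovZ.n2 (-14592, 11232) (by decide +kernel)
            (CovZ.n2 (-14544, 11280) (by decide +kernel)
             (CovZ.n2 (-14544, 11232) (by decide +kernel)
              (CovZ.n2 (-14568, 11256) (by decide +kernel)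
               (CovZ.badM (by decide +kernel))
               (CovZ.n1 (-14568, 11232) (by decide +kernel)
                (CovZ.leaf K2_ok TB_l45789 _)
                (CovZ.badM (by decide +kernel))))
              (CovZ.badM (by decide +kernel)))
             (CovZ.n1 (-14592, 11280) (by decide +kernel)
              (CovZ.badM (by decide +kernel))
              (CovZ.n1 (-14568, 11256) (by decide +kernel)
               (CovZ.leaf K2_ok TB_l45790 _)
               (CovZ.badM (by decide +kernel)))))
            (CovZ.n1 (-14544, 11184) (by decide +kernel)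
             (CovZ.n2 (-14592, 11184) (by decide +kernel)
              (CovZ.n2 (-14568, 11208) (by decide +kernel)
               (CovZ.n2 (-14568, 11184) (by decide +kernel)
                (CovZ.leaf K2_ok TB_l45791 _)
                (CovZ.leaf K2_ok TB_l45792 _))
               (CovZ.leaf K2_ok TB_l45793 _))
              (CovZ.n1 (-14568, 11160) (by decide +kernel)
               (CovZ.badM (by decide +kernel))
               (CovZ.n1 (-14568, 11184) (by decide +kernel)
                (CovZ.leaf K2_ok TB_l45794 _)
                (CovZ.leaf K2_ok TB_l45795 _))))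
             (CovZ.n1 (-14544, 11232) (by decide +kernel)
              (CovZ.n2 (-14520, 11208) (by decide +kernel)
               (CovZ.leaf K2_ok TB_l45796 _)
               (CovZ.badM (by decide +kernel)))
              (CovZ.n1 (-14568, 11208) (by decide +kernel)
               (CovZ.n2 (-14568, 11232) (by decide +kernel)
                (CovZ.leaf K2_ok TB_l45797 _)
                (CovZ.leaf K2_ok TB_l45798 _))
               (CovZ.leaf K2_ok TB_l45799 _)))))
           (CovZ.badM (by decide +kernel)))))
        (CovZ.n1 (-14400, 10944) (by decide +kernel)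
         (CovZ.badM (by decide +kernel))
         (CovZ.n1 (-14400, 11136) (by decide +kernel)
          (CovZ.n2 (-14304, 11040) (by decide +kernel)
           (CovZ.n2 (-14400, 11040) (by decide +kernel)
            (CovZ.badM (by decide +kernel))
            (CovZ.badM (by decide +kernel)))
           (CovZ.badM (by decide +kernel)))
          (CovZ.n1 (-14496, 11040) (by decide +kernel)
           (CovZ.n2 (-14496, 11136) (by decide +kernel)
            (CovZ.n2 (-14448, 11088) (by decide +kernel)
             (CovZ.badM (by decide +kernel))
             (CovZ.badM (by decide +kernel)))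
            (CovZ.badM (by decide +kernel)))
           (CovZ.n1 (-14400, 11040) (by decide +kernel)
            (CovZ.badM (by decide +kernel))
            (CovZ.n1 (-14448, 11088) (by decide +kernel)
             (CovZ.badM (by decide +kernel))
             (CovZ.badM (by decide +kernel))))))))))

end Pool.Agent.TET
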