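import Pool.Agent.Helper38_TET.TB_M
import Pool.Agent.Helper38_TET.TB_L
import Pool.Agent.Helper38_TET.TB_204
import Pool.Agent.Helper38_TET.TB_205
import Pool.Agent.Helper38_TET.TB_237
import Pool.Agent.Helper38_TET.TB_299
import Pool.Agent.Helper38_TET.TB_300
import Pool.Agent.Helper38_TET.TB_301
import Pool.Agent.Helper38_TET.TB_302
import Pool.Agent.Helper38_TET.TB_303
import Pool.Agent.Helper38_TET.TB_304
import Pool.Agent.Helper38_TET.TB_313
import Pool.Agent.Helper38_TET.TB_331
import Pool.Agent.Helper38_TET.TB_332

/-!
# MP_c7c9bf_co: certificates, family TB
-/

set_option autoImplicit false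
set_option maxRecDepth 100000

namespace Pool.Agent.TET

theorem TB_u454 : CovZ TB_M (toL (selN TB_LN 2404907604760405225489198433597688225553879454140319749911559932043601962098354406857049041908301836023626760192)) [0, 7, 6, 1] (-16128, 24576) (-15360, 24576) (-16128, 25344) :=
    (CovZ.subM 340282366920938463463374607431768211456 (by decide +kernel)
       (CovZ.n1 (-15744, 24960) (by decide +kernel)
        (CovZ.n2 (-15744, 24576) (by decide +kernel)
         (CovZ.n2 (-15936, 24768) (by decide +kernel)
          (CovZ.badM (by decide +kernel))
          (CovZ.n1 (-15936, 24576) (by decide +kernel)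
           (CovZ.n2 (-16032, 24672) (by decide +kernel)
            (CovZ.badM (by decide +kernel))
            (CovZ.badM (by decide +kernel)))
           (CovZ.badM (by decide +kernel))))
         (CovZ.badM (by decide +kernel)))
        (CovZ.n1 (-16128, 24960) (by decide +kernel)
         (CovZ.n2 (-15936, 25152) (by decide +kernel)
          (CovZ.n2 (-15936, 24960) (by decide +kernel)
           (CovZ.n2 (-16032, 25056) (by decide +kernel)
            (CovZ.badM (by decide +kernel))
            (CovZ.n1 (-16032, 24960) (by decide +kernel)
             (CovZ.n2 (-16080, 25008) (by decide +kernel)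
              (CovZ.badM (by decide +kernel))
              (CovZ.n1 (-16080, 24960) (by decide +kernel)
               (CovZ.n2 (-16104, 24984) (by decide +kernel)
                (CovZ.badM (by decide +kernel))
                (CovZ.n1 (-16104, 24960) (by decide +kernel)
                 (CovZ.leaf K2_ok TB_l44908 _)
                 (CovZ.badM (by decide +kernel))))
               (CovZ.badM (by decide +kernel))))
             (CovZ.badM (by decide +kernel))))
           (CovZ.badM (by decide +kernel)))
          (CovZ.n1 (-16128, 25152) (by decide +kernel)
           (CovZ.n2 (-16032, 25248) (by decide +kernel)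
            (CovZ.n2 (-16032, 25152) (by decide +kernel)
             (CovZ.n2 (-16080, 25200) (by decide +kernel)
              (CovZ.badM (by decide +kernel))
              (CovZ.n1 (-16080, 25152) (by decide +kernel)
               (CovZ.n2 (-16104, 25176) (by decide +kernel)
                (CovZ.badM (by decide +kernel))
                (CovZ.n1 (-16104, 25152) (by decide +kernel)
                 (CovZ.leaf K2_ok TB_l44909 _)
                 (CovZ.badM (by decide +kernel))))
               (CovZ.badM (by decide +kernel))))
             (CovZ.badM (by decide +kernel)))
            (CovZ.n1 (-16128, 25248) (by decide +kernel)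
             (CovZ.n2 (-16080, 25296) (by decide +kernel)
              (CovZ.n2 (-16080, 25248) (by decide +kernel)
               (CovZ.n2 (-16104, 25272) (by decide +kernel)
                (CovZ.badM (by decide +kernel))
                (CovZ.leaf K2_ok TB_l44910 _))
               (CovZ.badM (by decide +kernel)))
              (CovZ.n1 (-16128, 25296) (by decide +kernel)
               (CovZ.n2 (-16104, 25320) (by decide +kernel)
                (CovZ.n2 (-16104, 25296) (by decide +kernel)
                 (CovZ.leaf K2_ok TB_l44911 _)
                 (CovZ.badM (by decide +kernel)))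
                (CovZ.leaf K2_ok TB_l44912 _))
               (CovZ.n1 (-16104, 25272) (by decide +kernel)
                (CovZ.leaf K2_ok TB_l44913 _)
                (CovZ.n1 (-16104, 25296) (by decide +kernel)
                 (CovZ.badM (by decide +kernel))
                 (CovZ.leaf K2_ok TB_l44914 _)))))
             (CovZ.n1 (-16080, 25200) (by decide +kernel)
              (CovZ.n2 (-16128, 25200) (by decide +kernel)
               (CovZ.n2 (-16104, 25224) (by decide +kernel)
                (CovZ.n2 (-16104, 25200) (by decide +kernel)
                 (CovZ.leaf K2_ok TB_l44915 _)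
                 (CovZ.badM (by decide +kernel)))
                (CovZ.leaf K2_ok TB_l44916 _))
               (CovZ.n1 (-16104, 25176) (by decide +kernel)
                (CovZ.leaf K2_ok TB_l44917 _)
                (CovZ.n1 (-16104, 25200) (by decide +kernel)
                 (CovZ.badM (by decide +kernel))
                 (CovZ.leaf K2_ok TB_l44918 _))))
              (CovZ.n1 (-16080, 25248) (by decide +kernel)
               (CovZ.badM (by decide +kernel))
               (CovZ.n1 (-16104, 25224) (by decide +kernel)
                (CovZ.n2 (-16104, 25248) (by decide +kernel)
                 (CovZ.badM (by decide +kernel))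
                 (CovZ.leaf K2_ok TB_l44919 _))
                (CovZ.badM (by decide +kernel)))))))
           (CovZ.n1 (-16032, 25056) (by decide +kernel)
            (CovZ.n2 (-16128, 25056) (by decide +kernel)
             (CovZ.n2 (-16080, 25104) (by decide +kernel)
              (CovZ.n2 (-16080, 25056) (by decide +kernel)
               (CovZ.n2 (-16104, 25080) (by decide +kernel)
                (CovZ.badM (by decide +kernel))
                (CovZ.n1 (-16104, 25056) (by decide +kernel)
                 (CovZ.leaf K2_ok TB_l44920 _)
                 (CovZ.badM (by decide +kernel))))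
               (CovZ.badM (by decide +kernel)))
              (CovZ.n1 (-16128, 25104) (by decide +kernel)
               (CovZ.n2 (-16104, 25128) (by decide +kernel)
                (CovZ.n2 (-16104, 25104) (by decide +kernel)
                 (CovZ.leaf K2_ok TB_l44921 _)
                 (CovZ.badM (by decide +kernel)))
                (CovZ.leaf K2_ok TB_l44922 _))
               (CovZ.n1 (-16104, 25080) (by decide +kernel)
                (CovZ.n2 (-16128, 25080) (by decide +kernel)
                 (CovZ.leaf K2_ok TB_l44923 _)
                 (CovZ.leaf K2_ok TB_l44924 _))
                (CovZ.n1 (-16104, 25104) (by decide +kernel)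
                 (CovZ.badM (by decide +kernel))
                 (CovZ.leaf K2_ok TB_l44925 _)))))
             (CovZ.n1 (-16080, 25008) (by decide +kernel)
              (CovZ.n2 (-16128, 25008) (by decide +kernel)
               (CovZ.n2 (-16104, 25032) (by decide +kernel)
                (CovZ.n2 (-16104, 25008) (by decide +kernel)
                 (CovZ.leaf K2_ok TB_l44926 _)
                 (CovZ.badM (by decide +kernel)))
                (CovZ.leaf K2_ok TB_l44927 _))
               (CovZ.n1 (-16104, 24984) (by decide +kernel)
                (CovZ.n2 (-16128, 24984) (by decide +kernel)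
                 (CovZ.leaf K2_ok TB_l44928 _)
                 (CovZ.leaf K2_ok TB_l44929 _))
                (CovZ.n1 (-16104, 25008) (by decide +kernel)
                 (CovZ.badM (by decide +kernel))
                 (CovZ.leaf K2_ok TB_l44930 _))))
              (CovZ.n1 (-16080, 25056) (by decide +kernel)
               (CovZ.badM (by decide +kernel))
               (CovZ.n1 (-16104, 25032) (by decide +kernel)
                (CovZ.n2 (-16104, 25056) (by decide +kernel)
                 (CovZ.badM (by decide +kernel))
                 (CovZ.leaf K2_ok TB_l44931 _))
                (CovZ.badM (by decide +kernel))))))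
            (CovZ.n1 (-16032, 25152) (by decide +kernel)
             (CovZ.badM (by decide +kernel))
             (CovZ.n1 (-16080, 25104) (by decide +kernel)
              (CovZ.n2 (-16080, 25152) (by decide +kernel)
               (CovZ.badM (by decide +kernel))
               (CovZ.n1 (-16104, 25128) (by decide +kernel)
                (CovZ.n2 (-16104, 25152) (by decide +kernel)
                 (CovZ.badM (by decide +kernel))
                 (CovZ.leaf K2_ok TB_l44932 _))
                (CovZ.badM (by decide +kernel))))
              (CovZ.badM (by decide +kernel)))))))
         (CovZ.n1 (-15936, 24768) (by decide +kernel)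
          (CovZ.n2 (-16128, 24768) (by decide +kernel)
           (CovZ.n2 (-16032, 24864) (by decide +kernel)
            (CovZ.n2 (-16032, 24768) (by decide +kernel)
             (CovZ.n2 (-16080, 24816) (by decide +kernel)
              (CovZ.badM (by decide +kernel))
              (CovZ.n1 (-16080, 24768) (by decide +kernel)
               (CovZ.n2 (-16104, 24792) (by decide +kernel)
                (CovZ.badM (by decide +kernel))
                (CovZ.n1 (-16104, 24768) (by decide +kernel)
                 (CovZ.leaf K2_ok TB_l44933 _)
                 (CovZ.badM (by decide +kernel))))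
               (CovZ.badM (by decide +kernel))))
             (CovZ.badM (by decide +kernel)))
            (CovZ.n1 (-16128, 24864) (by decide +kernel)
             (CovZ.n2 (-16080, 24912) (by decide +kernel)
              (CovZ.n2 (-16080, 24864) (by decide +kernel)
               (CovZ.n2 (-16104, 24888) (by decide +kernel)
                (CovZ.badM (by decide +kernel))
                (CovZ.n1 (-16104, 24864) (by decide +kernel)
                 (CovZ.leaf K2_ok TB_l44934 _)
                 (CovZ.badM (by decide +kernel))))
               (CovZ.badM (by decide +kernel)))
              (CovZ.n1 (-16128, 24912) (by decide +kernel)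
               (CovZ.n2 (-16104, 24936) (by decide +kernel)
                (CovZ.n2 (-16104, 24912) (by decide +kernel)
                 (CovZ.leaf K2_ok TB_l44935 _)
                 (CovZ.badM (by decide +kernel)))
                (CovZ.n1 (-16128, 24936) (by decide +kernel)
                 (CovZ.leaf K2_ok TB_l44936 _)
                 (CovZ.leaf K2_ok TB_l44937 _)))
               (CovZ.n1 (-16104, 24888) (by decide +kernel)
                (CovZ.n2 (-16128, 24888) (by decide +kernel)
                 (CovZ.leaf K2_ok TB_l44938 _)
                 (CovZ.leaf K2_ok TB_l44939 _))
                (CovZ.n1 (-16104, 24912) (by decide +kernel)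
                 (CovZ.badM (by decide +kernel))
                 (CovZ.leaf K2_ok TB_l44940 _)))))
             (CovZ.n1 (-16080, 24816) (by decide +kernel)
              (CovZ.n2 (-16128, 24816) (by decide +kernel)
               (CovZ.n2 (-16104, 24840) (by decide +kernel)
                (CovZ.n2 (-16104, 24816) (by decide +kernel)
                 (CovZ.leaf K2_ok TB_l44941 _)
                 (CovZ.badM (by decide +kernel)))
                (CovZ.n1 (-16128, 24840) (by decide +kernel)
                 (CovZ.leaf K2_ok TB_l44942 _)
                 (CovZ.leaf K2_ok TB_l44943 _)))
               (CovZ.n1 (-16104, 24792) (by decide +kernel)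
                (CovZ.n2 (-16128, 24792) (by decide +kernel)
                 (CovZ.leaf K2_ok TB_l44944 _)
                 (CovZ.leaf K2_ok TB_l44945 _))
                (CovZ.n1 (-16104, 24816) (by decide +kernel)
                 (CovZ.badM (by decide +kernel))
                 (CovZ.leaf K2_ok TB_l44946 _))))
              (CovZ.n1 (-16080, 24864) (by decide +kernel)
               (CovZ.badM (by decide +kernel))
               (CovZ.n1 (-16104, 24840) (by decide +kernel)
                (CovZ.n2 (-16104, 24864) (by decide +kernel)
                 (CovZ.badM (by decide +kernel))
                 (CovZ.leaf K2_ok TB_l44947 _))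
                (CovZ.badM (by decide +kernel)))))))
           (CovZ.n1 (-16032, 24672) (by decide +kernel)
            (CovZ.n2 (-16128, 24672) (by decide +kernel)
             (CovZ.n2 (-16080, 24720) (by decide +kernel)
              (CovZ.n2 (-16080, 24672) (by decide +kernel)
               (CovZ.n2 (-16104, 24696) (by decide +kernel)
                (CovZ.badM (by decide +kernel))
                (CovZ.n1 (-16104, 24672) (by decide +kernel)
                 (CovZ.leaf K2_ok TB_l44948 _)
                 (CovZ.badM (by decide +kernel))))
               (CovZ.badM (by decide +kernel)))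
              (CovZ.n1 (-16128, 24720) (by decide +kernel)
               (CovZ.n2 (-16104, 24744) (by decide +kernel)
                (CovZ.n2 (-16104, 24720) (by decide +kernel)
                 (CovZ.leaf K2_ok TB_l44949 _)
                 (CovZ.badM (by decide +kernel)))
                (CovZ.n1 (-16128, 24744) (by decide +kernel)
                 (CovZ.leaf K2_ok TB_l44950 _)
                 (CovZ.leaf K2_ok TB_l44951 _)))
               (CovZ.n1 (-16104, 24696) (by decide +kernel)
                (CovZ.n2 (-16128, 24696) (by decide +kernel)
                 (CovZ.leaf K2_ok TB_l44952 _)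
                 (CovZ.leaf K2_ok TB_l44953 _))
                (CovZ.n1 (-16104, 24720) (by decide +kernel)
                 (CovZ.badM (by decide +kernel))
                 (CovZ.leaf K2_ok TB_l44954 _)))))
             (CovZ.badM (by decide +kernel)))
            (CovZ.n1 (-16032, 24768) (by decide +kernel)
             (CovZ.badM (by decide +kernel))
             (CovZ.n1 (-16080, 24720) (by decide +kernel)
              (CovZ.n2 (-16080, 24768) (by decide +kernel)
               (CovZ.badM (by decide +kernel))
               (CovZ.n1 (-16104, 24744) (by decide +kernel)
                (CovZ.n2 (-16104, 24768) (by decide +kernel)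
                 (CovZ.badM (by decide +kernel))
                 (CovZ.leaf K2_ok TB_l44955 _))
                (CovZ.badM (by decide +kernel))))
              (CovZ.badM (by decide +kernel))))))
          (CovZ.n1 (-15936, 24960) (by decide +kernel)
           (CovZ.badM (by decide +kernel))
           (CovZ.n1 (-16032, 24864) (by decide +kernel)
            (CovZ.n2 (-16032, 24960) (by decide +kernel)
             (CovZ.badM (by decide +kernel))
             (CovZ.n1 (-16080, 24912) (by decide +kernel)
              (CovZ.n2 (-16080, 24960) (by decide +kernel)
               (CovZ.badM (by decide +kernel))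
               (CovZ.n1 (-16104, 24936) (by decide +kernel)
                (CovZ.n2 (-16104, 24960) (by decide +kernel)
                 (CovZ.badM (by decide +kernel))
                 (CovZ.leaf K2_ok TB_l44956 _))
                (CovZ.badM (by decide +kernel))))
              (CovZ.badM (by decide +kernel))))
            (CovZ.badM (by decide +kernel))))))))

theorem TB_u455 : CovZ TB_M (toL (selN TB_LN 42607122990838899334083071563540963224705092794960640395235946078657159318320881375873181954085679760179355078902774005761)) [0, 7, 6, 1] (-16896, 26112) (-16896, 25344) (-16128, 25344) :=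
    (CovZ.n2 (-16512, 25728) (by decide +kernel)
      (CovZ.subM 42607122990838899334083071563538894360037833807236067415846199132832245695321481673487502735979323260600704173573960400897 (by decide +kernel)
       (CovZ.n2 (-16512, 25344) (by decide +kernel)
        (CovZ.n2 (-16704, 25536) (by decide +kernel)
         (CovZ.subM 42607122988433991729322666338049695926440145581682187961705879382920685763277879711729430696043212682155776944982101852161 (by decide +kernel)
          (CovZ.n2 (-16512, 25536) (by decide +kernel)
           (CovZ.n2 (-16608, 25440) (by decide +kernel)
            (CovZ.n2 (-16608, 25536) (by decide +kernel)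
             (CovZ.leaf K2_ok TB_l44957 _)
             (CovZ.leaf K2_ok TB_l30616 _))
            (CovZ.n1 (-16512, 25440) (by decide +kernel)
             (CovZ.n2 (-16560, 25392) (by decide +kernel)
              (CovZ.leaf K2_ok TB_l44958 _)
              (CovZ.leaf K2_ok TB_l44959 _))
             (CovZ.n1 (-16560, 25488) (by decide +kernel)
              (CovZ.leaf K2_ok TB_l44960 _)
              (CovZ.leaf K2_ok TB_l44961 _))))
           (CovZ.n1 (-16608, 25632) (by decide +kernel)
            (CovZ.n2 (-16512, 25632) (by decide +kernel)
             (CovZ.leaf K2_ok TB_l44962 _)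
             (CovZ.leaf K2_ok TB_l44963 _))
            (CovZ.n1 (-16608, 25536) (by decide +kernel)
             (CovZ.leaf K2_ok TB_l30617 _)
             (CovZ.leaf K2_ok TB_l44964 _)))))
         (CovZ.n1 (-16704, 25344) (by decide +kernel)
          (CovZ.n2 (-16800, 25440) (by decide +kernel)
           (CovZ.n2 (-16704, 25440) (by decide +kernel)
            (CovZ.leaf K2_ok TB_l30618 _)
            (CovZ.leaf K2_ok TB_l30619 _))
           (CovZ.n1 (-16800, 25344) (by decide +kernel)
            (CovZ.leaf K2_ok TB_l30620 _)
            (CovZ.leaf K2_ok TB_l30621 _)))
          (CovZ.subM 41315998049390537434494706752048189989275292685267576205290549704650361952269459114414608019403143766437825358995728105473 (by decide +kernel)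
           (CovZ.n1 (-16608, 25440) (by decide +kernel)
            (CovZ.n2 (-16608, 25344) (by decide +kernel)
             (CovZ.leaf K2_ok TB_l30622 _)
             (CovZ.leaf K2_ok TB_l44965 _))
            (CovZ.n1 (-16704, 25440) (by decide +kernel)
             (CovZ.leaf K2_ok TB_l30623 _)
             (CovZ.leaf K2_ok TB_l30624 _))))))
        (CovZ.subM 42607122988433991729322666338049695926440145581682187961705879382920685763277879711729430696043212682155776944982101852161 (by decide +kernel)
         (CovZ.n1 (-16320, 25536) (by decide +kernel)
          (CovZ.n2 (-16320, 25344) (by decide +kernel)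
           (CovZ.n2 (-16416, 25440) (by decide +kernel)
            (CovZ.n2 (-16320, 25440) (by decide +kernel)
             (CovZ.n2 (-16368, 25392) (by decide +kernel)
              (CovZ.n2 (-16368, 25440) (by decide +kernel)
               (CovZ.leaf K2_ok TB_l44966 _)
               (CovZ.leaf K2_ok TB_l44967 _))
              (CovZ.leaf K2_ok TB_l44968 _))
             (CovZ.n1 (-16368, 25488) (by decide +kernel)
              (CovZ.leaf K2_ok TB_l44969 _)
              (CovZ.n1 (-16368, 25440) (by decide +kernel)
               (CovZ.leaf K2_ok TB_l44970 _)
               (CovZ.leaf K2_ok TB_l44971 _))))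
            (CovZ.n1 (-16416, 25344) (by decide +kernel)
             (CovZ.n2 (-16464, 25392) (by decide +kernel)
              (CovZ.leaf K2_ok TB_l44972 _)
              (CovZ.leaf K2_ok TB_l44973 _))
             (CovZ.n1 (-16368, 25392) (by decide +kernel)
              (CovZ.n2 (-16368, 25344) (by decide +kernel)
               (CovZ.leaf K2_ok TB_l44974 _)
               (CovZ.leaf K2_ok TB_l44975 _))
              (CovZ.leaf K2_ok TB_l44976 _))))
           (CovZ.n1 (-16224, 25440) (by decide +kernel)
            (CovZ.n2 (-16224, 25344) (by decide +kernel)
             (CovZ.n2 (-16272, 25392) (by decide +kernel)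
              (CovZ.n2 (-16224, 25392) (by decide +kernel)
               (CovZ.leaf K2_ok TB_l44977 _)
               (CovZ.leaf K2_ok TB_l44978 _))
              (CovZ.n1 (-16272, 25344) (by decide +kernel)
               (CovZ.leaf K2_ok TB_l44979 _)
               (CovZ.leaf K2_ok TB_l44980 _)))
             (CovZ.n1 (-16176, 25392) (by decide +kernel)
              (CovZ.n2 (-16176, 25344) (by decide +kernel)
               (CovZ.n2 (-16200, 25368) (by decide +kernel)
                (CovZ.leaf K2_ok TB_l44981 _)
                (CovZ.leaf K2_ok TB_l44982 _))
               (CovZ.n1 (-16152, 25368) (by decide +kernel)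
                (CovZ.leaf K2_ok TB_l44983 _)
                (CovZ.leaf K2_ok TB_l44984 _)))
              (CovZ.n1 (-16224, 25392) (by decide +kernel)
               (CovZ.leaf K2_ok TB_l44985 _)
               (CovZ.n1 (-16200, 25368) (by decide +kernel)
                (CovZ.leaf K2_ok TB_l44986 _)
                (CovZ.leaf K2_ok TB_l44987 _)))))
            (CovZ.n1 (-16320, 25440) (by decide +kernel)
             (CovZ.n2 (-16272, 25488) (by decide +kernel)
              (CovZ.n2 (-16272, 25440) (by decide +kernel)
               (CovZ.leaf K2_ok TB_l44988 _)
               (CovZ.leaf K2_ok TB_l44989 _))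
              (CovZ.leaf K2_ok TB_l44990 _))
             (CovZ.n1 (-16272, 25392) (by decide +kernel)
              (CovZ.n2 (-16320, 25392) (by decide +kernel)
               (CovZ.leaf K2_ok TB_l44991 _)
               (CovZ.leaf K2_ok TB_l44992 _))
              (CovZ.n1 (-16272, 25440) (by decide +kernel)
               (CovZ.leaf K2_ok TB_l44993 _)
               (CovZ.leaf K2_ok TB_l44994 _))))))
          (CovZ.n1 (-16512, 25536) (by decide +kernel)
           (CovZ.n2 (-16416, 25632) (by decide +kernel)
            (CovZ.n2 (-16416, 25536) (by decide +kernel)
             (CovZ.n2 (-16464, 25584) (by decide +kernel)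
              (CovZ.leaf K2_ok TB_l44995 _)
              (CovZ.leaf K2_ok TB_l44996 _))
             (CovZ.n1 (-16368, 25584) (by decide +kernel)
              (CovZ.leaf K2_ok TB_l44997 _)
              (CovZ.leaf K2_ok TB_l44998 _)))
            (CovZ.n1 (-16512, 25632) (by decide +kernel)
             (CovZ.n2 (-16464, 25680) (by decide +kernel)
              (CovZ.leaf K2_ok TB_l44999 _)
              (CovZ.leaf K2_ok TB_l45000 _))
             (CovZ.n1 (-16464, 25584) (by decide +kernel)
              (CovZ.leaf K2_ok TB_l45001 _)
              (CovZ.leaf K2_ok TB_l45002 _))))
           (CovZ.n1 (-16416, 25440) (by decide +kernel)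
            (CovZ.n2 (-16512, 25440) (by decide +kernel)
             (CovZ.n2 (-16464, 25488) (by decide +kernel)
              (CovZ.leaf K2_ok TB_l45003 _)
              (CovZ.leaf K2_ok TB_l45004 _))
             (CovZ.n1 (-16464, 25392) (by decide +kernel)
              (CovZ.leaf K2_ok TB_l45005 _)
              (CovZ.leaf K2_ok TB_l45006 _)))
            (CovZ.n1 (-16416, 25536) (by decide +kernel)
             (CovZ.n2 (-16368, 25488) (by decide +kernel)
              (CovZ.leaf K2_ok TB_l45007 _)
              (CovZ.n1 (-16368, 25536) (by decide +kernel)
               (CovZ.leaf K2_ok TB_l45008 _)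
               (CovZ.leaf K2_ok TB_l45009 _)))
             (CovZ.n1 (-16464, 25488) (by decide +kernel)
              (CovZ.leaf K2_ok TB_l45010 _)
              (CovZ.leaf K2_ok TB_l45011 _)))))))))
      (CovZ.n1 (-16896, 25728) (by decide +kernel)
       (CovZ.n2 (-16704, 25920) (by decide +kernel)
        (CovZ.subM 42607122990838899334083071563538894360037833807236067415846199132832245695321481673487502735979323260600740202370979364865 (by decide +kernel)
         (CovZ.n2 (-16704, 25728) (by decide +kernel)
          (CovZ.n2 (-16800, 25824) (by decide +kernel)
           (CovZ.n2 (-16704, 25824) (by decide +kernel)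
            (CovZ.leaf K2_ok TB_l30625 _)
            (CovZ.leaf K2_ok TB_l30626 _))
           (CovZ.n1 (-16800, 25728) (by decide +kernel)
            (CovZ.leaf K2_ok TB_l30627 _)
            (CovZ.leaf K2_ok TB_l30628 _)))
          (CovZ.subM 42607122988433991729322666338049695926440145581682187961705879382920685763277879711729430696043212682155812973779120816129 (by decide +kernel)
           (CovZ.n1 (-16608, 25824) (by decide +kernel)
            (CovZ.n2 (-16608, 25728) (by decide +kernel)
             (CovZ.leaf K2_ok TB_l30629 _)
             (CovZ.leaf K2_ok TB_l45012 _))
            (CovZ.n1 (-16704, 25824) (by decide +kernel)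
             (CovZ.leaf K2_ok TB_l30630 _)
             (CovZ.leaf K2_ok TB_l30631 _))))))
        (CovZ.n1 (-16896, 25920) (by decide +kernel)
         (CovZ.n2 (-16800, 26016) (by decide +kernel)
          (CovZ.n2 (-16800, 25920) (by decide +kernel)
           (CovZ.leaf K2_ok TB_l30632 _)
           (CovZ.leaf K2_ok TB_l30633 _))
          (CovZ.leaf K2_ok TB_l30634 _))
         (CovZ.n1 (-16800, 25824) (by decide +kernel)
          (CovZ.leaf K2_ok TB_l30635 _)
          (CovZ.n1 (-16800, 25920) (by decide +kernel)
           (CovZ.leaf K2_ok TB_l30636 _)
           (CovZ.leaf K2_ok TB_l30637 _)))))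
       (CovZ.subM 42607122990838899334083071563538894360037833807236067415846199132832245695321481673487502735979323260600740202370979364865 (by decide +kernel)
        (CovZ.n1 (-16704, 25536) (by decide +kernel)
         (CovZ.n2 (-16896, 25536) (by decide +kernel)
          (CovZ.n2 (-16800, 25632) (by decide +kernel)
           (CovZ.n2 (-16800, 25536) (by decide +kernel)
            (CovZ.leaf K2_ok TB_l30638 _)
            (CovZ.leaf K2_ok TB_l30639 _))
           (CovZ.leaf K2_ok TB_l30640 _))
          (CovZ.n1 (-16800, 25440) (by decide +kernel)
           (CovZ.leaf K2_ok TB_l30641 _)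
           (CovZ.n1 (-16800, 25536) (by decide +kernel)
            (CovZ.leaf K2_ok TB_l30642 _)
            (CovZ.leaf K2_ok TB_l30643 _))))
         (CovZ.n1 (-16704, 25728) (by decide +kernel)
          (CovZ.subM 42607122988433991729322666338049695926440145581682187961705879382920685763277879711729430696043212682155812973779120816129 (by decide +kernel)
           (CovZ.n2 (-16608, 25632) (by decide +kernel)
            (CovZ.n2 (-16704, 25632) (by decide +kernel)
             (CovZ.leaf K2_ok TB_l30644 _)
             (CovZ.leaf K2_ok TB_l30645 _))
            (CovZ.n1 (-16608, 25728) (by decide +kernel)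
             (CovZ.leaf K2_ok TB_l45013 _)
             (CovZ.leaf K2_ok TB_l30646 _))))
          (CovZ.n1 (-16800, 25632) (by decide +kernel)
           (CovZ.n2 (-16800, 25728) (by decide +kernel)
            (CovZ.leaf K2_ok TB_l30647 _)
            (CovZ.leaf K2_ok TB_l30648 _))
           (CovZ.n1 (-16704, 25632) (by decide +kernel)
            (CovZ.leaf K2_ok TB_l30649 _)
            (CovZ.leaf K2_ok TB_l30650 _))))))))

theorem TB_u456 : CovZ TB_M (toL (selN TB_LN 42607122990838899334083071563540963224705092794960640395235946078657159318320881375873181954085679760179355078902774005761)) [0, 7, 6, 1] (-16896, 25344) (-16896, 24576) (-16128, 25344) :=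
    (CovZ.subM 2404907604760405225489198433597688225553879454140319749911559932043601962098354406857049041908301836023626760193 (by decide +kernel)
      (CovZ.n1 (-16512, 24960) (by decide +kernel)
       (CovZ.n2 (-16896, 24960) (by decide +kernel)
        (CovZ.n2 (-16704, 25152) (by decide +kernel)
         (CovZ.n2 (-16704, 24960) (by decide +kernel)
          (CovZ.n2 (-16800, 25056) (by decide +kernel)
           (CovZ.n2 (-16704, 25056) (by decide +kernel)
            (CovZ.leaf K2_ok TB_l30651 _)
            (CovZ.leaf K2_ok TB_l30652 _))
           (CovZ.n1 (-16800, 24960) (by decide +kernel)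
            (CovZ.leaf K2_ok TB_l30653 _)
            (CovZ.leaf K2_ok TB_l30654 _)))
          (CovZ.subM 340282366920938463463374607431768211456 (by decide +kernel)
           (CovZ.n1 (-16608, 25056) (by decide +kernel)
            (CovZ.n2 (-16608, 24960) (by decide +kernel)
             (CovZ.n2 (-16656, 25008) (by decide +kernel)
              (CovZ.leaf K2_ok TB_l30655 _)
              (CovZ.leaf K2_ok TB_l30656 _))
             (CovZ.n1 (-16560, 25008) (by decide +kernel)
              (CovZ.leaf K2_ok TB_l45014 _)
              (CovZ.leaf K2_ok TB_l45015 _)))
            (CovZ.n1 (-16704, 25056) (by decide +kernel)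
             (CovZ.leaf K2_ok TB_l30657 _)
             (CovZ.n1 (-16656, 25008) (by decide +kernel)
              (CovZ.leaf K2_ok TB_l30658 _)
              (CovZ.leaf K2_ok TB_l30659 _))))))
         (CovZ.n1 (-16896, 25152) (by decide +kernel)
          (CovZ.n2 (-16800, 25248) (by decide +kernel)
           (CovZ.n2 (-16800, 25152) (by decide +kernel)
            (CovZ.leaf K2_ok TB_l30660 _)
            (CovZ.leaf K2_ok TB_l30661 _))
           (CovZ.n1 (-16896, 25248) (by decide +kernel)
            (CovZ.leaf K2_ok TB_l30662 _)
            (CovZ.leaf K2_ok TB_l30663 _)))
          (CovZ.n1 (-16800, 25056) (by decide +kernel)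
           (CovZ.n2 (-16896, 25056) (by decide +kernel)
            (CovZ.leaf K2_ok TB_l30664 _)
            (CovZ.leaf K2_ok TB_l30665 _))
           (CovZ.n1 (-16800, 25152) (by decide +kernel)
            (CovZ.leaf K2_ok TB_l30666 _)
            (CovZ.leaf K2_ok TB_l30667 _)))))
        (CovZ.n1 (-16704, 24768) (by decide +kernel)
         (CovZ.n2 (-16896, 24768) (by decide +kernel)
          (CovZ.n2 (-16800, 24864) (by decide +kernel)
           (CovZ.n2 (-16800, 24768) (by decide +kernel)
            (CovZ.leaf K2_ok TB_l30668 _)
            (CovZ.leaf K2_ok TB_l30669 _))
           (CovZ.n1 (-16896, 24864) (by decide +kernel)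
            (CovZ.leaf K2_ok TB_l30670 _)
            (CovZ.leaf K2_ok TB_l30671 _)))
          (CovZ.n1 (-16800, 24672) (by decide +kernel)
           (CovZ.n2 (-16896, 24672) (by decide +kernel)
            (CovZ.leaf K2_ok TB_l30672 _)
            (CovZ.leaf K2_ok TB_l30673 _))
           (CovZ.n1 (-16800, 24768) (by decide +kernel)
            (CovZ.leaf K2_ok TB_l30674 _)
            (CovZ.leaf K2_ok TB_l30675 _))))
         (CovZ.n1 (-16704, 24960) (by decide +kernel)
          (CovZ.subM 340282366920938463463374607431768211456 (by decide +kernel)
           (CovZ.n2 (-16608, 24864) (by decide +kernel)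
            (CovZ.n2 (-16704, 24864) (by decide +kernel)
             (CovZ.leaf K2_ok TB_l30676 _)
             (CovZ.n1 (-16656, 24816) (by decide +kernel)
              (CovZ.leaf K2_ok TB_l30677 _)
              (CovZ.leaf K2_ok TB_l30678 _)))
            (CovZ.n1 (-16608, 24960) (by decide +kernel)
             (CovZ.n2 (-16560, 24912) (by decide +kernel)
              (CovZ.leaf K2_ok TB_l45016 _)
              (CovZ.leaf K2_ok TB_l45017 _))
             (CovZ.n1 (-16656, 24912) (by decide +kernel)
              (CovZ.leaf K2_ok TB_l30679 _)
              (CovZ.leaf K2_ok TB_l30680 _)))))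
          (CovZ.n1 (-16800, 24864) (by decide +kernel)
           (CovZ.n2 (-16800, 24960) (by decide +kernel)
            (CovZ.leaf K2_ok TB_l30681 _)
            (CovZ.leaf K2_ok TB_l30682 _))
           (CovZ.n1 (-16704, 24864) (by decide +kernel)
            (CovZ.leaf K2_ok TB_l30683 _)
            (CovZ.leaf K2_ok TB_l30684 _))))))
       (CovZ.n1 (-16512, 25344) (by decide +kernel)
        (CovZ.subM 340282366920938463463374607431768211456 (by decide +kernel)
         (CovZ.n2 (-16320, 25152) (by decide +kernel)
          (CovZ.n2 (-16512, 25152) (by decide +kernel)
           (CovZ.n2 (-16416, 25248) (by decide +kernel)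
            (CovZ.n2 (-16416, 25152) (by decide +kernel)
             (CovZ.n2 (-16464, 25200) (by decide +kernel)
              (CovZ.leaf K2_ok TB_l45018 _)
              (CovZ.leaf K2_ok TB_l45019 _))
             (CovZ.n1 (-16368, 25200) (by decide +kernel)
              (CovZ.n2 (-16368, 25152) (by decide +kernel)
               (CovZ.leaf K2_ok TB_l45020 _)
               (CovZ.leaf K2_ok TB_l45021 _))
              (CovZ.leaf K2_ok TB_l45022 _)))
            (CovZ.n1 (-16512, 25248) (by decide +kernel)
             (CovZ.n2 (-16464, 25296) (by decide +kernel)
              (CovZ.leaf K2_ok TB_l45023 _)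
              (CovZ.leaf K2_ok TB_l45024 _))
             (CovZ.n1 (-16464, 25200) (by decide +kernel)
              (CovZ.leaf K2_ok TB_l45025 _)
              (CovZ.leaf K2_ok TB_l45026 _))))
           (CovZ.n1 (-16416, 25056) (by decide +kernel)
            (CovZ.n2 (-16512, 25056) (by decide +kernel)
             (CovZ.n2 (-16464, 25104) (by decide +kernel)
              (CovZ.leaf K2_ok TB_l45027 _)
              (CovZ.leaf K2_ok TB_l45028 _))
             (CovZ.n1 (-16464, 25008) (by decide +kernel)
              (CovZ.leaf K2_ok TB_l45029 _)
              (CovZ.n1 (-16464, 25056) (by decide +kernel)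
               (CovZ.leaf K2_ok TB_l45030 _)
               (CovZ.leaf K2_ok TB_l45031 _))))
            (CovZ.n1 (-16416, 25152) (by decide +kernel)
             (CovZ.n2 (-16368, 25104) (by decide +kernel)
              (CovZ.leaf K2_ok TB_l45032 _)
              (CovZ.n1 (-16368, 25152) (by decide +kernel)
               (CovZ.leaf K2_ok TB_l45033 _)
               (CovZ.leaf K2_ok TB_l45034 _)))
             (CovZ.n1 (-16464, 25104) (by decide +kernel)
              (CovZ.n2 (-16464, 25152) (by decide +kernel)
               (CovZ.leaf K2_ok TB_l45035 _)
               (CovZ.leaf K2_ok TB_l45036 _))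
              (CovZ.leaf K2_ok TB_l45037 _)))))
          (CovZ.n1 (-16320, 25344) (by decide +kernel)
           (CovZ.n2 (-16224, 25248) (by decide +kernel)
            (CovZ.n2 (-16320, 25248) (by decide +kernel)
             (CovZ.n2 (-16272, 25296) (by decide +kernel)
              (CovZ.n2 (-16272, 25248) (by decide +kernel)
               (CovZ.leaf K2_ok TB_l45038 _)
               (CovZ.leaf K2_ok TB_l45039 _))
              (CovZ.n1 (-16320, 25296) (by decide +kernel)
               (CovZ.leaf K2_ok TB_l45040 _)
               (CovZ.leaf K2_ok TB_l45041 _)))
             (CovZ.n1 (-16272, 25200) (by decide +kernel)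
              (CovZ.n2 (-16320, 25200) (by decide +kernel)
               (CovZ.leaf K2_ok TB_l45042 _)
               (CovZ.leaf K2_ok TB_l45043 _))
              (CovZ.n1 (-16272, 25248) (by decide +kernel)
               (CovZ.leaf K2_ok TB_l45044 _)
               (CovZ.leaf K2_ok TB_l45045 _))))
            (CovZ.n1 (-16224, 25344) (by decide +kernel)
             (CovZ.n2 (-16176, 25296) (by decide +kernel)
              (CovZ.n2 (-16224, 25296) (by decide +kernel)
               (CovZ.leaf K2_ok TB_l45046 _)
               (CovZ.leaf K2_ok TB_l45047 _))
              (CovZ.n1 (-16176, 25344) (by decide +kernel)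
               (CovZ.n2 (-16152, 25320) (by decide +kernel)
                (CovZ.leaf K2_ok TB_l45048 _)
                (CovZ.leaf K2_ok TB_l45049 _))
               (CovZ.n1 (-16200, 25320) (by decide +kernel)
                (CovZ.leaf K2_ok TB_l45050 _)
                (CovZ.leaf K2_ok TB_l45051 _))))
             (CovZ.n1 (-16272, 25296) (by decide +kernel)
              (CovZ.n2 (-16272, 25344) (by decide +kernel)
               (CovZ.leaf K2_ok TB_l45052 _)
               (CovZ.leaf K2_ok TB_l45053 _))
              (CovZ.n1 (-16224, 25296) (by decide +kernel)
               (CovZ.leaf K2_ok TB_l45054 _)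
               (CovZ.leaf K2_ok TB_l45055 _)))))
           (CovZ.n1 (-16416, 25248) (by decide +kernel)
            (CovZ.n2 (-16416, 25344) (by decide +kernel)
             (CovZ.n2 (-16368, 25296) (by decide +kernel)
              (CovZ.leaf K2_ok TB_l45056 _)
              (CovZ.n1 (-16368, 25344) (by decide +kernel)
               (CovZ.leaf K2_ok TB_l45057 _)
               (CovZ.leaf K2_ok TB_l45058 _)))
             (CovZ.n1 (-16464, 25296) (by decide +kernel)
              (CovZ.leaf K2_ok TB_l45059 _)
              (CovZ.leaf K2_ok TB_l45060 _)))
            (CovZ.n1 (-16320, 25248) (by decide +kernel)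
             (CovZ.n2 (-16368, 25200) (by decide +kernel)
              (CovZ.n2 (-16368, 25248) (by decide +kernel)
               (CovZ.leaf K2_ok TB_l45061 _)
               (CovZ.leaf K2_ok TB_l45062 _))
              (CovZ.leaf K2_ok TB_l45063 _))
             (CovZ.n1 (-16368, 25296) (by decide +kernel)
              (CovZ.n2 (-16320, 25296) (by decide +kernel)
               (CovZ.leaf K2_ok TB_l45064 _)
               (CovZ.leaf K2_ok TB_l45065 _))
              (CovZ.n1 (-16368, 25248) (by decide +kernel)
               (CovZ.leaf K2_ok TB_l45066 _)
               (CovZ.leaf K2_ok TB_l45067 _))))))))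
        (CovZ.n1 (-16704, 25152) (by decide +kernel)
         (CovZ.n2 (-16704, 25344) (by decide +kernel)
          (CovZ.subM 340282366920938463463374607431768211457 (by decide +kernel)
           (CovZ.n2 (-16608, 25248) (by decide +kernel)
            (CovZ.n2 (-16704, 25248) (by decide +kernel)
             (CovZ.leaf K2_ok TB_l30685 _)
             (CovZ.leaf K2_ok TB_l30686 _))
            (CovZ.n1 (-16608, 25344) (by decide +kernel)
             (CovZ.n2 (-16560, 25296) (by decide +kernel)
              (CovZ.leaf K2_ok TB_l45068 _)
              (CovZ.leaf K2_ok TB_l45069 _))
             (CovZ.leaf K2_ok TB_l30687 _))))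
          (CovZ.n1 (-16800, 25248) (by decide +kernel)
           (CovZ.n2 (-16800, 25344) (by decide +kernel)
            (CovZ.leaf K2_ok TB_l30688 _)
            (CovZ.leaf K2_ok TB_l30689 _))
           (CovZ.n1 (-16704, 25248) (by decide +kernel)
            (CovZ.leaf K2_ok TB_l30690 _)
            (CovZ.leaf K2_ok TB_l30691 _))))
         (CovZ.subM 340282366920938463463374607431768211456 (by decide +kernel)
          (CovZ.n1 (-16512, 25152) (by decide +kernel)
           (CovZ.n2 (-16608, 25056) (by decide +kernel)
            (CovZ.n2 (-16608, 25152) (by decide +kernel)
             (CovZ.n2 (-16560, 25104) (by decide +kernel)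
              (CovZ.leaf K2_ok TB_l45070 _)
              (CovZ.leaf K2_ok TB_l45071 _))
             (CovZ.leaf K2_ok TB_l30692 _))
            (CovZ.n1 (-16512, 25056) (by decide +kernel)
             (CovZ.n2 (-16560, 25008) (by decide +kernel)
              (CovZ.leaf K2_ok TB_l45072 _)
              (CovZ.leaf K2_ok TB_l45073 _))
             (CovZ.n1 (-16560, 25104) (by decide +kernel)
              (CovZ.leaf K2_ok TB_l45074 _)
              (CovZ.leaf K2_ok TB_l45075 _))))
           (CovZ.n1 (-16608, 25248) (by decide +kernel)
            (CovZ.n2 (-16512, 25248) (by decide +kernel)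
             (CovZ.n2 (-16560, 25200) (by decide +kernel)
              (CovZ.leaf K2_ok TB_l45076 _)
              (CovZ.leaf K2_ok TB_l45077 _))
             (CovZ.n1 (-16560, 25296) (by decide +kernel)
              (CovZ.leaf K2_ok TB_l45078 _)
              (CovZ.leaf K2_ok TB_l45079 _)))
            (CovZ.n1 (-16608, 25152) (by decide +kernel)
             (CovZ.n2 (-16656, 25200) (by decide +kernel)
              (CovZ.leaf K2_ok TB_l30693 _)
              (CovZ.leaf K2_ok TB_l30694 _))
             (CovZ.n1 (-16560, 25200) (by decide +kernel)
              (CovZ.leaf K2_ok TB_l45080 _)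
              (CovZ.leaf K2_ok TB_l45081 _))))))))))

theorem TB_u457 : CovZ TB_M (toL (selN TB_LN 42607122988433991729322666338049727755127275808027285906169760779454452192471530741983357270331450914018878836907813371905)) [0, 7, 6, 1] (-15744, 25728) (-15936, 25920) (-16128, 25728) :=
    (CovZ.n2 (-15936, 25728) (by decide +kernel)
          (CovZ.n2 (-16032, 25824) (by decide +kernel)
           (CovZ.subM 42607122988433991729322666338049727755127275808027285906169760779454452192471530741643074903410512450555468200679026196480 (by decide +kernel)
            (CovZ.n2 (-15936, 25824) (by decide +kernel)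
             (CovZ.n2 (-15984, 25776) (by decide +kernel)
              (CovZ.n2 (-15984, 25824) (by decide +kernel)
               (CovZ.n2 (-15960, 25800) (by decide +kernel)
                (CovZ.leaf K2_ok TB_l45082 _)
                (CovZ.n1 (-15960, 25824) (by decide +kernel)
                 (CovZ.leaf K2_ok TB_l45083 _)
                 (CovZ.leaf K2_ok TB_l45084 _)))
               (CovZ.n1 (-16008, 25800) (by decide +kernel)
                (CovZ.n2 (-16008, 25824) (by decide +kernel)
                 (CovZ.leaf K2_ok TB_l45085 _)
                 (CovZ.leaf K2_ok TB_l45086 _))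
                (CovZ.leaf K2_ok TB_l45087 _)))
              (CovZ.n1 (-15936, 25776) (by decide +kernel)
               (CovZ.n2 (-15960, 25752) (by decide +kernel)
                (CovZ.n2 (-15960, 25776) (by decide +kernel)
                 (CovZ.leaf K2_ok TB_l45088 _)
                 (CovZ.leaf K2_ok TB_l45089 _))
                (CovZ.n1 (-15936, 25752) (by decide +kernel)
                 (CovZ.leaf K2_ok TB_l45090 _)
                 (CovZ.leaf K2_ok TB_l45091 _)))
               (CovZ.n1 (-15960, 25800) (by decide +kernel)
                (CovZ.n2 (-15936, 25800) (by decide +kernel)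
                 (CovZ.leaf K2_ok TB_l45092 _)
                 (CovZ.leaf K2_ok TB_l45093 _))
                (CovZ.n1 (-15960, 25776) (by decide +kernel)
                 (CovZ.leaf K2_ok TB_l45094 _)
                 (CovZ.leaf K2_ok TB_l45095 _)))))
             (CovZ.n1 (-15984, 25872) (by decide +kernel)
              (CovZ.n2 (-15936, 25872) (by decide +kernel)
               (CovZ.n2 (-15960, 25848) (by decide +kernel)
                (CovZ.n2 (-15960, 25872) (by decide +kernel)
                 (CovZ.leaf K2_ok TB_l45096 _)
                 (CovZ.leaf K2_ok TB_l45097 _))
                (CovZ.leaf K2_ok TB_l45098 _))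
               (CovZ.n1 (-15960, 25896) (by decide +kernel)
                (CovZ.n2 (-15936, 25896) (by decide +kernel)
                 (CovZ.leaf K2_ok TB_l45099 _)
                 (CovZ.leaf K2_ok TB_l45100 _))
                (CovZ.n1 (-15960, 25872) (by decide +kernel)
                 (CovZ.leaf K2_ok TB_l45101 _)
                 (CovZ.leaf K2_ok TB_l45102 _))))
              (CovZ.n1 (-15984, 25824) (by decide +kernel)
               (CovZ.n2 (-16008, 25848) (by decide +kernel)
                (CovZ.leaf K2_ok TB_l45103 _)
                (CovZ.leaf K2_ok TB_l45104 _))
               (CovZ.n1 (-15960, 25848) (by decide +kernel)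
                (CovZ.n2 (-15960, 25824) (by decide +kernel)
                 (CovZ.leaf K2_ok TB_l45105 _)
                 (CovZ.leaf K2_ok TB_l45106 _))
                (CovZ.leaf K2_ok TB_l45107 _))))))
           (CovZ.subM 42607122988433991729322666338049695926440145581682187961705879382920685763277879711729441080636929751811034005974760292352 (by decide +kernel)
            (CovZ.n1 (-16032, 25728) (by decide +kernel)
             (CovZ.n2 (-16080, 25776) (by decide +kernel)
              (CovZ.n2 (-16032, 25776) (by decide +kernel)
               (CovZ.n2 (-16056, 25752) (by decide +kernel)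
                (CovZ.leaf K2_ok TB_l45108 _)
                (CovZ.leaf K2_ok TB_l45109 _))
               (CovZ.n1 (-16056, 25800) (by decide +kernel)
                (CovZ.leaf K2_ok TB_l45110 _)
                (CovZ.leaf K2_ok TB_l45111 _)))
              (CovZ.n1 (-16080, 25728) (by decide +kernel)
               (CovZ.n2 (-16104, 25752) (by decide +kernel)
                (CovZ.leaf K2_ok TB_l49694 _)
                (CovZ.leaf K2_ok TB_l45112 _))
               (CovZ.n1 (-16056, 25752) (by decide +kernel)
                (CovZ.leaf K2_ok TB_l49695 _)
                (CovZ.leaf K2_ok TB_l49696 _))))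
             (CovZ.n1 (-15984, 25776) (by decide +kernel)
              (CovZ.n2 (-15984, 25728) (by decide +kernel)
               (CovZ.n2 (-16008, 25752) (by decide +kernel)
                (CovZ.leaf K2_ok TB_l45113 _)
                (CovZ.leaf K2_ok TB_l49697 _))
               (CovZ.n1 (-15960, 25752) (by decide +kernel)
                (CovZ.n2 (-15960, 25728) (by decide +kernel)
                 (CovZ.leaf K2_ok TB_l45114 _)
                 (CovZ.leaf K2_ok TB_l45115 _))
                (CovZ.leaf K2_ok TB_l45116 _)))
              (CovZ.n1 (-16032, 25776) (by decide +kernel)
               (CovZ.n2 (-16008, 25800) (by decide +kernel)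
                (CovZ.leaf K2_ok TB_l45117 _)
                (CovZ.leaf K2_ok TB_l45118 _))
               (CovZ.n1 (-16008, 25752) (by decide +kernel)
                (CovZ.leaf K2_ok TB_l45119 _)
                (CovZ.n1 (-16008, 25776) (by decide +kernel)
                 (CovZ.leaf K2_ok TB_l45120 _)
                 (CovZ.leaf K2_ok TB_l45121 _))))))))
          (CovZ.subM 41315998049390537434494706752048221817962422911612674149754431101184128381463110144328252226770443534837516614692652449792 (by decide +kernel)
           (CovZ.n1 (-15840, 25824) (by decide +kernel)
            (CovZ.n2 (-15840, 25728) (by decide +kernel)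
             (CovZ.n2 (-15888, 25776) (by decide +kernel)
              (CovZ.badM (by decide +kernel))
              (CovZ.n1 (-15888, 25728) (by decide +kernel)
               (CovZ.n2 (-15912, 25752) (by decide +kernel)
                (CovZ.badM (by decide +kernel))
                (CovZ.n1 (-15912, 25728) (by decide +kernel)
                 (CovZ.leaf K2_ok TB_l45122 _)
                 (CovZ.badM (by decide +kernel))))
               (CovZ.badM (by decide +kernel))))
             (CovZ.badM (by decide +kernel)))
            (CovZ.n1 (-15936, 25824) (by decide +kernel)
             (CovZ.n2 (-15888, 25872) (by decide +kernel)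
              (CovZ.n2 (-15888, 25824) (by decide +kernel)
               (CovZ.n2 (-15912, 25848) (by decide +kernel)
                (CovZ.badM (by decide +kernel))
                (CovZ.n1 (-15912, 25824) (by decide +kernel)
                 (CovZ.leaf K2_ok TB_l45123 _)
                 (CovZ.badM (by decide +kernel))))
               (CovZ.badM (by decide +kernel)))
              (CovZ.n1 (-15936, 25872) (by decide +kernel)
               (CovZ.n2 (-15912, 25896) (by decide +kernel)
                (CovZ.n2 (-15912, 25872) (by decide +kernel)
                 (CovZ.leaf K2_ok TB_l45124 _)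
                 (CovZ.badM (by decide +kernel)))
                (CovZ.n1 (-15936, 25896) (by decide +kernel)
                 (CovZ.leaf K2_ok TB_l45125 _)
                 (CovZ.leaf K2_ok TB_l45126 _)))
               (CovZ.n1 (-15912, 25848) (by decide +kernel)
                (CovZ.n2 (-15936, 25848) (by decide +kernel)
                 (CovZ.leaf K2_ok TB_l45127 _)
                 (CovZ.leaf K2_ok TB_l45128 _))
                (CovZ.n1 (-15912, 25872) (by decide +kernel)
                 (CovZ.badM (by decide +kernel))
                 (CovZ.leaf K2_ok TB_l45129 _)))))
             (CovZ.n1 (-15888, 25776) (by decide +kernel)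
              (CovZ.n2 (-15936, 25776) (by decide +kernel)
               (CovZ.n2 (-15912, 25800) (by decide +kernel)
                (CovZ.n2 (-15912, 25776) (by decide +kernel)
                 (CovZ.leaf K2_ok TB_l45130 _)
                 (CovZ.badM (by decide +kernel)))
                (CovZ.n1 (-15936, 25800) (by decide +kernel)
                 (CovZ.leaf K2_ok TB_l45131 _)
                 (CovZ.leaf K2_ok TB_l45132 _)))
               (CovZ.n1 (-15912, 25752) (by decide +kernel)
                (CovZ.n2 (-15936, 25752) (by decide +kernel)
                 (CovZ.leaf K2_ok TB_l45133 _)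
                 (CovZ.leaf K2_ok TB_l45134 _))
                (CovZ.n1 (-15912, 25776) (by decide +kernel)
                 (CovZ.badM (by decide +kernel))
                 (CovZ.leaf K2_ok TB_l45135 _))))
              (CovZ.n1 (-15888, 25824) (by decide +kernel)
               (CovZ.badM (by decide +kernel))
               (CovZ.n1 (-15912, 25800) (by decide +kernel)
                (CovZ.n2 (-15912, 25824) (by decide +kernel)
                 (CovZ.badM (by decide +kernel))
                 (CovZ.leaf K2_ok TB_l45136 _))
                (CovZ.badM (by decide +kernel)))))))))

theorem TB_u458 : CovZ TB_M (toL (selN TB_LN 42607122988433991729322666338049727755127275808027285906169760779454452192471530741983357270331450914018878836907813371905)) [0, 7, 6, 1] (-15936, 25920) (-16128, 26112) (-16128, 25728) :=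
    (CovZ.n1 (-16128, 25920) (by decide +kernel)
          (CovZ.n2 (-16032, 26016) (by decide +kernel)
           (CovZ.n2 (-16032, 25920) (by decide +kernel)
            (CovZ.n2 (-16080, 25968) (by decide +kernel)
             (CovZ.n2 (-16032, 25968) (by decide +kernel)
              (CovZ.n2 (-16056, 25944) (by decide +kernel)
               (CovZ.leaf K2_ok TB_l45137 _)
               (CovZ.leaf K2_ok TB_l45138 _))
              (CovZ.n1 (-16056, 25992) (by decide +kernel)
               (CovZ.leaf K2_ok TB_l45139 _)
               (CovZ.leaf K2_ok TB_l45140 _)))
             (CovZ.n1 (-16080, 25920) (by decide +kernel)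
              (CovZ.leaf K2_ok TB_l45141 _)
              (CovZ.n1 (-16056, 25944) (by decide +kernel)
               (CovZ.leaf K2_ok TB_l45142 _)
               (CovZ.leaf K2_ok TB_l45143 _))))
            (CovZ.n1 (-15984, 25968) (by decide +kernel)
             (CovZ.subM 42607122988433991729322666338049727755127275808027285906169760779454452192471530741643074903410512450555468200679026196480 (by decide +kernel)
              (CovZ.n2 (-15984, 25920) (by decide +kernel)
               (CovZ.n2 (-16008, 25944) (by decide +kernel)
                (CovZ.leaf K2_ok TB_l45144 _)
                (CovZ.leaf K2_ok TB_l45145 _))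
               (CovZ.n1 (-15960, 25944) (by decide +kernel)
                (CovZ.n2 (-15960, 25920) (by decide +kernel)
                 (CovZ.leaf K2_ok TB_l45146 _)
                 (CovZ.leaf K2_ok TB_l45147 _))
                (CovZ.leaf K2_ok TB_l45148 _))))
             (CovZ.n1 (-16032, 25968) (by decide +kernel)
              (CovZ.n2 (-16008, 25992) (by decide +kernel)
               (CovZ.leaf K2_ok TB_l45149 _)
               (CovZ.leaf K2_ok TB_l45150 _))
              (CovZ.n1 (-16008, 25944) (by decide +kernel)
               (CovZ.leaf K2_ok TB_l45151 _)
               (CovZ.leaf K2_ok TB_l45152 _)))))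
           (CovZ.n1 (-16128, 26016) (by decide +kernel)
            (CovZ.n2 (-16080, 26064) (by decide +kernel)
             (CovZ.n2 (-16080, 26016) (by decide +kernel)
              (CovZ.leaf K2_ok TB_l45153 _)
              (CovZ.leaf K2_ok TB_l45154 _))
             (CovZ.n1 (-16128, 26064) (by decide +kernel)
              (CovZ.leaf K2_ok TB_l45155 _)
              (CovZ.leaf K2_ok TB_l45156 _)))
            (CovZ.n1 (-16080, 25968) (by decide +kernel)
             (CovZ.n2 (-16128, 25968) (by decide +kernel)
              (CovZ.leaf K2_ok TB_l45157 _)
              (CovZ.leaf K2_ok TB_l45158 _))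
             (CovZ.n1 (-16080, 26016) (by decide +kernel)
              (CovZ.n2 (-16056, 25992) (by decide +kernel)
               (CovZ.leaf K2_ok TB_l45159 _)
               (CovZ.leaf K2_ok TB_l45160 _))
              (CovZ.leaf K2_ok TB_l45161 _)))))
          (CovZ.n1 (-16032, 25824) (by decide +kernel)
           (CovZ.n2 (-16128, 25824) (by decide +kernel)
            (CovZ.n2 (-16080, 25872) (by decide +kernel)
             (CovZ.subM 42607122988433991729322666338049695926440145581682187961705879382920685763277879711729441080636929751811034005974760292352 (by decide +kernel)
              (CovZ.n2 (-16080, 25824) (by decide +kernel)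
               (CovZ.n2 (-16104, 25848) (by decide +kernel)
                (CovZ.leaf K2_ok TB_l45162 _)
                (CovZ.leaf K2_ok TB_l45163 _))
               (CovZ.n1 (-16056, 25848) (by decide +kernel)
                (CovZ.leaf K2_ok TB_l45164 _)
                (CovZ.leaf K2_ok TB_l45165 _))))
             (CovZ.n1 (-16128, 25872) (by decide +kernel)
              (CovZ.n2 (-16104, 25896) (by decide +kernel)
               (CovZ.leaf K2_ok TB_l45166 _)
               (CovZ.leaf K2_ok TB_l45167 _))
              (CovZ.leaf K2_ok TB_l45168 _)))
            (CovZ.subM 42607122988433991729322666338049695926440145581682187961705879382920685763277879711729441080636929751811034005974760292352 (by decide +kernel)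
             (CovZ.n1 (-16080, 25776) (by decide +kernel)
              (CovZ.n2 (-16128, 25776) (by decide +kernel)
               (CovZ.leaf K2_ok TB_l45169 _)
               (CovZ.leaf K2_ok TB_l45170 _))
              (CovZ.n1 (-16080, 25824) (by decide +kernel)
               (CovZ.n2 (-16056, 25800) (by decide +kernel)
                (CovZ.leaf K2_ok TB_l45171 _)
                (CovZ.leaf K2_ok TB_l45172 _))
               (CovZ.leaf K2_ok TB_l45173 _)))))
           (CovZ.n1 (-16032, 25920) (by decide +kernel)
            (CovZ.subM 42607122988433991729322666338049727755127275808027285906169760779454452192471530741643074903410512450555468200679026196480 (by decide +kernel)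
             (CovZ.n2 (-15984, 25872) (by decide +kernel)
              (CovZ.n2 (-16032, 25872) (by decide +kernel)
               (CovZ.n2 (-16008, 25896) (by decide +kernel)
                (CovZ.leaf K2_ok TB_l45174 _)
                (CovZ.leaf K2_ok TB_l45175 _))
               (CovZ.n1 (-16008, 25848) (by decide +kernel)
                (CovZ.leaf K2_ok TB_l45176 _)
                (CovZ.n1 (-16008, 25872) (by decide +kernel)
                 (CovZ.leaf K2_ok TB_l45177 _)
                 (CovZ.leaf K2_ok TB_l45178 _))))
              (CovZ.n1 (-15984, 25920) (by decide +kernel)
               (CovZ.n2 (-15960, 25896) (by decide +kernel)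
                (CovZ.leaf K2_ok TB_l45179 _)
                (CovZ.n1 (-15960, 25920) (by decide +kernel)
                 (CovZ.leaf K2_ok TB_l45180 _)
                 (CovZ.leaf K2_ok TB_l45181 _)))
               (CovZ.n1 (-16008, 25896) (by decide +kernel)
                (CovZ.leaf K2_ok TB_l45182 _)
                (CovZ.leaf K2_ok TB_l45183 _)))))
            (CovZ.n1 (-16080, 25872) (by decide +kernel)
             (CovZ.n2 (-16080, 25920) (by decide +kernel)
              (CovZ.n2 (-16056, 25896) (by decide +kernel)
               (CovZ.leaf K2_ok TB_l45184 _)
               (CovZ.leaf K2_ok TB_l45185 _))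
              (CovZ.leaf K2_ok TB_l45186 _))
             (CovZ.subM 42607122988433991729322666338049727755127275808027285906169760779454452192471530741643074903410512450555468200679026196480 (by decide +kernel)
              (CovZ.n1 (-16032, 25872) (by decide +kernel)
               (CovZ.n2 (-16056, 25848) (by decide +kernel)
                (CovZ.leaf K2_ok TB_l45187 _)
                (CovZ.leaf K2_ok TB_l45188 _))
               (CovZ.n1 (-16056, 25896) (by decide +kernel)
                (CovZ.leaf K2_ok TB_l45189 _)
                (CovZ.leaf K2_ok TB_l45190 _))))))))

theorem TB_u459 : CovZ TB_M (toL (selN TB_LN 42607122988433991729322666338049727755127275808027285906169760779454452192471530741983357270331450914018878836907813371905)) [0, 7, 6, 1] (-16128, 25344) (-15744, 25728) (-16128, 26112) :=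
    (CovZ.n2 (-16128, 25728) (by decide +kernel)
        (CovZ.n2 (-15936, 25920) (by decide +kernel)
         TB_u457
         TB_u458)
        (CovZ.subM 42607122988433991729322666338049695926440145581682187961705879382920685763277879711729441080636929751811034005974760292352 (by decide +kernel)
         (CovZ.n1 (-15936, 25536) (by decide +kernel)
          (CovZ.n2 (-16128, 25536) (by decide +kernel)
           (CovZ.n2 (-16032, 25632) (by decide +kernel)
            (CovZ.n2 (-16032, 25536) (by decide +kernel)
             (CovZ.n2 (-16080, 25584) (by decide +kernel)
              (CovZ.n2 (-16032, 25584) (by decide +kernel)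
               (CovZ.n2 (-16056, 25560) (by decide +kernel)
                (CovZ.n2 (-16056, 25584) (by decide +kernel)
                 (CovZ.leaf K2_ok TB_l49698 _)
                 (CovZ.leaf K2_ok TB_l49699 _))
                (CovZ.leaf K2_ok TB_l49700 _))
               (CovZ.n1 (-16056, 25608) (by decide +kernel)
                (CovZ.leaf K2_ok TB_l49701 _)
                (CovZ.n1 (-16056, 25584) (by decide +kernel)
                 (CovZ.leaf K2_ok TB_l49702 _)
                 (CovZ.leaf K2_ok TB_l49703 _))))
              (CovZ.n1 (-16080, 25536) (by decide +kernel)
               (CovZ.n2 (-16104, 25560) (by decide +kernel)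
                (CovZ.leaf K2_ok TB_l49704 _)
                (CovZ.leaf K2_ok TB_l45191 _))
               (CovZ.n1 (-16056, 25560) (by decide +kernel)
                (CovZ.n2 (-16056, 25536) (by decide +kernel)
                 (CovZ.leaf K2_ok TB_l49705 _)
                 (CovZ.leaf K2_ok TB_l49706 _))
                (CovZ.leaf K2_ok TB_l49707 _))))
             (CovZ.n1 (-15984, 25584) (by decide +kernel)
              (CovZ.n2 (-15984, 25536) (by decide +kernel)
               (CovZ.n2 (-16008, 25560) (by decide +kernel)
                (CovZ.n2 (-15984, 25560) (by decide +kernel)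
                 (CovZ.leaf K2_ok TB_l49708 _)
                 (CovZ.leaf K2_ok TB_l49709 _))
                (CovZ.n1 (-16008, 25536) (by decide +kernel)
                 (CovZ.leaf K2_ok TB_l49710 _)
                 (CovZ.leaf K2_ok TB_l49711 _)))
               (CovZ.badM (by decide +kernel)))
              (CovZ.n1 (-16032, 25584) (by decide +kernel)
               (CovZ.n2 (-16008, 25608) (by decide +kernel)
                (CovZ.n2 (-16008, 25584) (by decide +kernel)
                 (CovZ.leaf K2_ok TB_l49712 _)
                 (CovZ.leaf K2_ok TB_l49713 _))
                (CovZ.leaf K2_ok TB_l49714 _))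
               (CovZ.n1 (-16008, 25560) (by decide +kernel)
                (CovZ.n2 (-16032, 25560) (by decide +kernel)
                 (CovZ.leaf K2_ok TB_l49715 _)
                 (CovZ.leaf K2_ok TB_l49716 _))
                (CovZ.n1 (-16008, 25584) (by decide +kernel)
                 (CovZ.leaf K2_ok TB_l49717 _)
                 (CovZ.leaf K2_ok TB_l49718 _))))))
            (CovZ.n1 (-16128, 25632) (by decide +kernel)
             (CovZ.n2 (-16080, 25680) (by decide +kernel)
              (CovZ.n2 (-16080, 25632) (by decide +kernel)
               (CovZ.n2 (-16104, 25656) (by decide +kernel)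
                (CovZ.leaf K2_ok TB_l49719 _)
                (CovZ.leaf K2_ok TB_l45192 _))
               (CovZ.n1 (-16056, 25656) (by decide +kernel)
                (CovZ.leaf K2_ok TB_l49720 _)
                (CovZ.leaf K2_ok TB_l49721 _)))
              (CovZ.n1 (-16128, 25680) (by decide +kernel)
               (CovZ.leaf K2_ok TB_l45193 _)
               (CovZ.leaf K2_ok TB_l45194 _)))
             (CovZ.n1 (-16080, 25584) (by decide +kernel)
              (CovZ.n2 (-16128, 25584) (by decide +kernel)
               (CovZ.n2 (-16104, 25608) (by decide +kernel)
                (CovZ.leaf K2_ok TB_l45195 _)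
                (CovZ.leaf K2_ok TB_l45196 _))
               (CovZ.n1 (-16104, 25560) (by decide +kernel)
                (CovZ.leaf K2_ok TB_l45197 _)
                (CovZ.leaf K2_ok TB_l45198 _)))
              (CovZ.n1 (-16080, 25632) (by decide +kernel)
               (CovZ.n2 (-16056, 25608) (by decide +kernel)
                (CovZ.leaf K2_ok TB_l49722 _)
                (CovZ.n1 (-16056, 25632) (by decide +kernel)
                 (CovZ.leaf K2_ok TB_l49723 _)
                 (CovZ.leaf K2_ok TB_l49724 _)))
               (CovZ.n1 (-16104, 25608) (by decide +kernel)
                (CovZ.leaf K2_ok TB_l45199 _)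
                (CovZ.leaf K2_ok TB_l49725 _))))))
           (CovZ.n1 (-16032, 25440) (by decide +kernel)
            (CovZ.n2 (-16128, 25440) (by decide +kernel)
             (CovZ.n2 (-16080, 25488) (by decide +kernel)
              (CovZ.n2 (-16080, 25440) (by decide +kernel)
               (CovZ.n2 (-16104, 25464) (by decide +kernel)
                (CovZ.badM (by decide +kernel))
                (CovZ.leaf K2_ok TB_l45200 _))
               (CovZ.badM (by decide +kernel)))
              (CovZ.n1 (-16128, 25488) (by decide +kernel)
               (CovZ.n2 (-16104, 25512) (by decide +kernel)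
                (CovZ.leaf K2_ok TB_l45201 _)
                (CovZ.leaf K2_ok TB_l45202 _))
               (CovZ.n1 (-16104, 25464) (by decide +kernel)
                (CovZ.leaf K2_ok TB_l45203 _)
                (CovZ.leaf K2_ok TB_l45204 _))))
             (CovZ.n1 (-16080, 25392) (by decide +kernel)
              (CovZ.n2 (-16128, 25392) (by decide +kernel)
               (CovZ.n2 (-16104, 25416) (by decide +kernel)
                (CovZ.leaf K2_ok TB_l45205 _)
                (CovZ.leaf K2_ok TB_l45206 _))
               (CovZ.n1 (-16104, 25368) (by decide +kernel)
                (CovZ.leaf K2_ok TB_l45207 _)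
                (CovZ.leaf K2_ok TB_l45208 _)))
              (CovZ.n1 (-16080, 25440) (by decide +kernel)
               (CovZ.badM (by decide +kernel))
               (CovZ.n1 (-16104, 25416) (by decide +kernel)
                (CovZ.leaf K2_ok TB_l45209 _)
                (CovZ.badM (by decide +kernel))))))
            (CovZ.n1 (-16032, 25536) (by decide +kernel)
             (CovZ.n2 (-15984, 25488) (by decide +kernel)
              (CovZ.n2 (-16032, 25488) (by decide +kernel)
               (CovZ.n2 (-16008, 25512) (by decide +kernel)
                (CovZ.n2 (-16008, 25488) (by decide +kernel)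
                 (CovZ.leaf K2_ok TB_l49726 _)
                 (CovZ.leaf K2_ok TB_l49727 _))
                (CovZ.n1 (-16032, 25512) (by decide +kernel)
                 (CovZ.leaf K2_ok TB_l49728 _)
                 (CovZ.leaf K2_ok TB_l49729 _)))
               (CovZ.n1 (-16008, 25464) (by decide +kernel)
                (CovZ.n2 (-16032, 25464) (by decide +kernel)
                 (CovZ.leaf K2_ok TB_l49730 _)
                 (CovZ.badM (by decide +kernel)))
                (CovZ.n1 (-16008, 25488) (by decide +kernel)
                 (CovZ.leaf K2_ok TB_l49731 _)
                 (CovZ.leaf K2_ok TB_l49732 _))))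
              (CovZ.n1 (-15984, 25536) (by decide +kernel)
               (CovZ.badM (by decide +kernel))
               (CovZ.n1 (-16008, 25512) (by decide +kernel)
                (CovZ.n2 (-16008, 25536) (by decide +kernel)
                 (CovZ.leaf K2_ok TB_l49733 _)
                 (CovZ.leaf K2_ok TB_l49734 _))
                (CovZ.n1 (-15984, 25512) (by decide +kernel)
                 (CovZ.leaf K2_ok TB_l49735 _)
                 (CovZ.leaf K2_ok TB_l49736 _)))))
             (CovZ.n1 (-16080, 25488) (by decide +kernel)
              (CovZ.n2 (-16080, 25536) (by decide +kernel)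
               (CovZ.n2 (-16056, 25512) (by decide +kernel)
                (CovZ.leaf K2_ok TB_l49737 _)
                (CovZ.n1 (-16056, 25536) (by decide +kernel)
                 (CovZ.leaf K2_ok TB_l49738 _)
                 (CovZ.leaf K2_ok TB_l49739 _)))
               (CovZ.n1 (-16104, 25512) (by decide +kernel)
                (CovZ.n2 (-16104, 25536) (by decide +kernel)
                 (CovZ.leaf K2_ok TB_l49740 _)
                 (CovZ.leaf K2_ok TB_l45210 _))
                (CovZ.leaf K2_ok TB_l49741 _)))
              (CovZ.n1 (-16032, 25488) (by decide +kernel)
               (CovZ.n2 (-16056, 25464) (by decide +kernel)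
                (CovZ.n2 (-16056, 25488) (by decide +kernel)
                 (CovZ.leaf K2_ok TB_l49742 _)
                 (CovZ.badM (by decide +kernel)))
                (CovZ.leaf K2_ok TB_l49743 _))
               (CovZ.n1 (-16056, 25512) (by decide +kernel)
                (CovZ.leaf K2_ok TB_l49744 _)
                (CovZ.n1 (-16056, 25488) (by decide +kernel)
                 (CovZ.leaf K2_ok TB_l49745 _)
                 (CovZ.leaf K2_ok TB_l49746 _))))))))
          (CovZ.n1 (-15936, 25728) (by decide +kernel)
           (CovZ.n2 (-15840, 25632) (by decide +kernel)
            (CovZ.badM (by decide +kernel))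
            (CovZ.n1 (-15840, 25728) (by decide +kernel)
             (CovZ.badM (by decide +kernel))
             (CovZ.n1 (-15888, 25680) (by decide +kernel)
              (CovZ.n2 (-15888, 25728) (by decide +kernel)
               (CovZ.badM (by decide +kernel))
               (CovZ.n1 (-15912, 25704) (by decide +kernel)
                (CovZ.n2 (-15912, 25728) (by decide +kernel)
                 (CovZ.badM (by decide +kernel))
                 (CovZ.badM (by decide +kernel)))
                (CovZ.badM (by decide +kernel))))
              (CovZ.badM (by decide +kernel)))))
           (CovZ.n1 (-16032, 25632) (by decide +kernel)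
            (CovZ.n2 (-16032, 25728) (by decide +kernel)
             (CovZ.n2 (-15984, 25680) (by decide +kernel)
              (CovZ.n2 (-16032, 25680) (by decide +kernel)
               (CovZ.n2 (-16008, 25704) (by decide +kernel)
                (CovZ.n2 (-16008, 25680) (by decide +kernel)
                 (CovZ.leaf K2_ok TB_l49747 _)
                 (CovZ.leaf K2_ok TB_l49748 _))
                (CovZ.leaf K2_ok TB_l49749 _))
               (CovZ.n1 (-16008, 25656) (by decide +kernel)
                (CovZ.leaf K2_ok TB_l49750 _)
                (CovZ.n1 (-16008, 25680) (by decide +kernel)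
                 (CovZ.leaf K2_ok TB_l49751 _)
                 (CovZ.leaf K2_ok TB_l49752 _))))
              (CovZ.n1 (-15984, 25728) (by decide +kernel)
               (CovZ.n2 (-15960, 25704) (by decide +kernel)
                (CovZ.leaf K2_ok TB_l49753 _)
                (CovZ.n1 (-15960, 25728) (by decide +kernel)
                 (CovZ.leaf K2_ok TB_l49754 _)
                 (CovZ.leaf K2_ok TB_l49755 _)))
               (CovZ.n1 (-16008, 25704) (by decide +kernel)
                (CovZ.n2 (-16008, 25728) (by decide +kernel)
                 (CovZ.leaf K2_ok TB_l49756 _)
                 (CovZ.leaf K2_ok TB_l49757 _))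
                (CovZ.leaf K2_ok TB_l49758 _))))
             (CovZ.n1 (-16080, 25680) (by decide +kernel)
              (CovZ.n2 (-16080, 25728) (by decide +kernel)
               (CovZ.n2 (-16056, 25704) (by decide +kernel)
                (CovZ.leaf K2_ok TB_l49759 _)
                (CovZ.n1 (-16056, 25728) (by decide +kernel)
                 (CovZ.leaf K2_ok TB_l49760 _)
                 (CovZ.leaf K2_ok TB_l49761 _)))
               (CovZ.leaf K2_ok TB_l45211 _))
              (CovZ.n1 (-16032, 25680) (by decide +kernel)
               (CovZ.n2 (-16056, 25656) (by decide +kernel)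
                (CovZ.n2 (-16056, 25680) (by decide +kernel)
                 (CovZ.leaf K2_ok TB_l49762 _)
                 (CovZ.leaf K2_ok TB_l49763 _))
                (CovZ.leaf K2_ok TB_l49764 _))
               (CovZ.n1 (-16056, 25704) (by decide +kernel)
                (CovZ.leaf K2_ok TB_l49765 _)
                (CovZ.leaf K2_ok TB_l49766 _)))))
            (CovZ.n1 (-15936, 25632) (by decide +kernel)
             (CovZ.n2 (-15984, 25584) (by decide +kernel)
              (CovZ.n2 (-15984, 25632) (by decide +kernel)
               (CovZ.badM (by decide +kernel))
               (CovZ.n1 (-16008, 25608) (by decide +kernel)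
                (CovZ.n2 (-16008, 25632) (by decide +kernel)
                 (CovZ.leaf K2_ok TB_l49767 _)
                 (CovZ.leaf K2_ok TB_l49768 _))
                (CovZ.leaf K2_ok TB_l49769 _)))
              (CovZ.badM (by decide +kernel)))
             (CovZ.n1 (-15984, 25680) (by decide +kernel)
              (CovZ.badM (by decide +kernel))
              (CovZ.n1 (-15984, 25632) (by decide +kernel)
               (CovZ.n2 (-16008, 25656) (by decide +kernel)
                (CovZ.leaf K2_ok TB_l49770 _)
                (CovZ.n1 (-16008, 25632) (by decide +kernel)
                 (CovZ.leaf K2_ok TB_l49771 _)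
                 (CovZ.leaf K2_ok TB_l49772 _)))
               (CovZ.badM (by decide +kernel))))))))))

theorem TB_u460 : CovZ TB_M (toL (selN TB_LN 42607122988433991729322666338049727755127275808027285906169760779454452192471530741983357270331450914018878836907813371905)) [0, 7, 6, 1] (-15744, 25728) (-15360, 26112) (-16128, 26112) :=
    (CovZ.n1 (-15744, 26112) (by decide +kernel)
        (CovZ.badM (by decide +kernel))
        (CovZ.n1 (-15936, 25920) (by decide +kernel)
         (CovZ.n2 (-15936, 26112) (by decide +kernel)
          (CovZ.subM 41315998049390537434494706752048221817962422911612674149754431101184128381463110144328252226770443534837516614692652449792 (by decide +kernel)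
           (CovZ.n2 (-15840, 26016) (by decide +kernel)
            (CovZ.n2 (-15936, 26016) (by decide +kernel)
             (CovZ.n2 (-15888, 26064) (by decide +kernel)
              (CovZ.n2 (-15888, 26016) (by decide +kernel)
               (CovZ.n2 (-15912, 26040) (by decide +kernel)
                (CovZ.n2 (-15888, 26040) (by decide +kernel)
                 (CovZ.leaf K2_ok TB_l45212 _)
                 (CovZ.leaf K2_ok TB_l45213 _))
                (CovZ.n1 (-15912, 26016) (by decide +kernel)
                 (CovZ.leaf K2_ok TB_l45214 _)
                 (CovZ.leaf K2_ok TB_l45215 _)))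
               (CovZ.n1 (-15864, 26040) (by decide +kernel)
                (CovZ.n2 (-15864, 26016) (by decide +kernel)
                 (CovZ.leaf K2_ok TB_l45216 _)
                 (CovZ.badM (by decide +kernel)))
                (CovZ.n1 (-15888, 26040) (by decide +kernel)
                 (CovZ.leaf K2_ok TB_l45217 _)
                 (CovZ.leaf K2_ok TB_l45218 _))))
              (CovZ.n1 (-15936, 26064) (by decide +kernel)
               (CovZ.n2 (-15912, 26088) (by decide +kernel)
                (CovZ.n2 (-15912, 26064) (by decide +kernel)
                 (CovZ.leaf K2_ok TB_l45219 _)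
                 (CovZ.leaf K2_ok TB_l45220 _))
                (CovZ.leaf K2_ok TB_l45221 _))
               (CovZ.n1 (-15912, 26040) (by decide +kernel)
                (CovZ.leaf K2_ok TB_l45222 _)
                (CovZ.n1 (-15912, 26064) (by decide +kernel)
                 (CovZ.leaf K2_ok TB_l45223 _)
                 (CovZ.leaf K2_ok TB_l45224 _)))))
             (CovZ.n1 (-15888, 25968) (by decide +kernel)
              (CovZ.n2 (-15936, 25968) (by decide +kernel)
               (CovZ.n2 (-15912, 25992) (by decide +kernel)
                (CovZ.n2 (-15912, 25968) (by decide +kernel)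
                 (CovZ.leaf K2_ok TB_l45225 _)
                 (CovZ.leaf K2_ok TB_l45226 _))
                (CovZ.leaf K2_ok TB_l45227 _))
               (CovZ.n1 (-15912, 25944) (by decide +kernel)
                (CovZ.n2 (-15936, 25944) (by decide +kernel)
                 (CovZ.leaf K2_ok TB_l45228 _)
                 (CovZ.leaf K2_ok TB_l45229 _))
                (CovZ.n1 (-15912, 25968) (by decide +kernel)
                 (CovZ.leaf K2_ok TB_l45230 _)
                 (CovZ.leaf K2_ok TB_l45231 _))))
              (CovZ.n1 (-15888, 26016) (by decide +kernel)
               (CovZ.n2 (-15864, 25992) (by decide +kernel)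
                (CovZ.n2 (-15888, 25992) (by decide +kernel)
                 (CovZ.leaf K2_ok TB_l45232 _)
                 (CovZ.leaf K2_ok TB_l45233 _))
                (CovZ.n1 (-15864, 26016) (by decide +kernel)
                 (CovZ.badM (by decide +kernel))
                 (CovZ.leaf K2_ok TB_l45234 _)))
               (CovZ.n1 (-15912, 25992) (by decide +kernel)
                (CovZ.n2 (-15912, 26016) (by decide +kernel)
                 (CovZ.leaf K2_ok TB_l45235 _)
                 (CovZ.leaf K2_ok TB_l45236 _))
                (CovZ.n1 (-15888, 25992) (by decide +kernel)
                 (CovZ.leaf K2_ok TB_l45237 _)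
                 (CovZ.leaf K2_ok TB_l45238 _))))))
            (CovZ.n1 (-15840, 26112) (by decide +kernel)
             (CovZ.badM (by decide +kernel))
             (CovZ.n1 (-15888, 26064) (by decide +kernel)
              (CovZ.n2 (-15888, 26112) (by decide +kernel)
               (CovZ.n2 (-15864, 26088) (by decide +kernel)
                (CovZ.n2 (-15888, 26088) (by decide +kernel)
                 (CovZ.leaf K2_ok TB_l45239 _)
                 (CovZ.leaf K2_ok TB_l45240 _))
                (CovZ.n1 (-15864, 26112) (by decide +kernel)
                 (CovZ.badM (by decide +kernel))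
                 (CovZ.leaf K2_ok TB_l45241 _)))
               (CovZ.n1 (-15912, 26088) (by decide +kernel)
                (CovZ.n2 (-15912, 26112) (by decide +kernel)
                 (CovZ.leaf K2_ok TB_l45242 _)
                 (CovZ.leaf K2_ok TB_l45243 _))
                (CovZ.n1 (-15888, 26088) (by decide +kernel)
                 (CovZ.leaf K2_ok TB_l45244 _)
                 (CovZ.leaf K2_ok TB_l45245 _))))
              (CovZ.n1 (-15840, 26064) (by decide +kernel)
               (CovZ.n2 (-15864, 26040) (by decide +kernel)
                (CovZ.n2 (-15864, 26064) (by decide +kernel)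
                 (CovZ.badM (by decide +kernel))
                 (CovZ.leaf K2_ok TB_l45246 _))
                (CovZ.badM (by decide +kernel)))
               (CovZ.n1 (-15864, 26088) (by decide +kernel)
                (CovZ.badM (by decide +kernel))
                (CovZ.n1 (-15864, 26064) (by decide +kernel)
                 (CovZ.leaf K2_ok TB_l45247 _)
                 (CovZ.badM (by decide +kernel)))))))))
          (CovZ.n1 (-16032, 26016) (by decide +kernel)
           (CovZ.n2 (-16032, 26112) (by decide +kernel)
            (CovZ.n2 (-15984, 26064) (by decide +kernel)
             (CovZ.n2 (-16032, 26064) (by decide +kernel)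
              (CovZ.n2 (-16008, 26088) (by decide +kernel)
               (CovZ.leaf K2_ok TB_l45248 _)
               (CovZ.leaf K2_ok TB_l45249 _))
              (CovZ.n1 (-16008, 26040) (by decide +kernel)
               (CovZ.leaf K2_ok TB_l45250 _)
               (CovZ.leaf K2_ok TB_l45251 _)))
             (CovZ.n1 (-15984, 26112) (by decide +kernel)
              (CovZ.n2 (-15960, 26088) (by decide +kernel)
               (CovZ.leaf K2_ok TB_l45252 _)
               (CovZ.leaf K2_ok TB_l45253 _))
              (CovZ.n1 (-16008, 26088) (by decide +kernel)
               (CovZ.leaf K2_ok TB_l45254 _)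
               (CovZ.leaf K2_ok TB_l45255 _))))
            (CovZ.n1 (-16080, 26064) (by decide +kernel)
             (CovZ.n2 (-16080, 26112) (by decide +kernel)
              (CovZ.leaf K2_ok TB_l45256 _)
              (CovZ.leaf K2_ok TB_l45257 _))
             (CovZ.n1 (-16032, 26064) (by decide +kernel)
              (CovZ.leaf K2_ok TB_l45258 _)
              (CovZ.n1 (-16056, 26088) (by decide +kernel)
               (CovZ.leaf K2_ok TB_l45259 _)
               (CovZ.leaf K2_ok TB_l45260 _)))))
           (CovZ.n1 (-15936, 26016) (by decide +kernel)
            (CovZ.n2 (-15984, 25968) (by decide +kernel)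
             (CovZ.n2 (-15984, 26016) (by decide +kernel)
              (CovZ.n2 (-15960, 25992) (by decide +kernel)
               (CovZ.leaf K2_ok TB_l45261 _)
               (CovZ.n1 (-15960, 26016) (by decide +kernel)
                (CovZ.leaf K2_ok TB_l45262 _)
                (CovZ.leaf K2_ok TB_l45263 _)))
              (CovZ.n1 (-16008, 25992) (by decide +kernel)
               (CovZ.leaf K2_ok TB_l45264 _)
               (CovZ.leaf K2_ok TB_l45265 _)))
             (CovZ.subM 41315998049390537434494706752048221817962422911612674149754431101184128381463110144328252226770443534837516614692652449792 (by decide +kernel)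
              (CovZ.n1 (-15936, 25968) (by decide +kernel)
               (CovZ.n2 (-15960, 25944) (by decide +kernel)
                (CovZ.n2 (-15960, 25968) (by decide +kernel)
                 (CovZ.leaf K2_ok TB_l45266 _)
                 (CovZ.leaf K2_ok TB_l45267 _))
                (CovZ.leaf K2_ok TB_l45268 _))
               (CovZ.n1 (-15960, 25992) (by decide +kernel)
                (CovZ.leaf K2_ok TB_l45269 _)
                (CovZ.n1 (-15960, 25968) (by decide +kernel)
                 (CovZ.leaf K2_ok TB_l45270 _)
                 (CovZ.leaf K2_ok TB_l45271 _))))))
            (CovZ.n1 (-15984, 26064) (by decide +kernel)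
             (CovZ.subM 41315998049390537434494706752048221817962422911612674149754431101184128381463110144328252226770443534837516614692652449793 (by decide +kernel)
              (CovZ.n2 (-15936, 26064) (by decide +kernel)
               (CovZ.n2 (-15960, 26040) (by decide +kernel)
                (CovZ.n2 (-15960, 26064) (by decide +kernel)
                 (CovZ.leaf K2_ok TB_l45272 _)
                 (CovZ.leaf K2_ok TB_l45273 _))
                (CovZ.leaf K2_ok TB_l45274 _))
               (CovZ.n1 (-15960, 26088) (by decide +kernel)
                (CovZ.leaf K2_ok TB_l45275 _)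
                (CovZ.leaf K2_ok TB_l45276 _))))
             (CovZ.n1 (-15984, 26016) (by decide +kernel)
              (CovZ.n2 (-16008, 26040) (by decide +kernel)
               (CovZ.leaf K2_ok TB_l45277 _)
               (CovZ.leaf K2_ok TB_l45278 _))
              (CovZ.n1 (-15960, 26040) (by decide +kernel)
               (CovZ.leaf K2_ok TB_l45279 _)
               (CovZ.leaf K2_ok TB_l45280 _)))))))
         (CovZ.subM 41315998049390537434494706752048221817962422911612674149754431101184128381463110144328252226770443534837516614692652449792 (by decide +kernel)
          (CovZ.n1 (-15744, 25920) (by decide +kernel)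
           (CovZ.n2 (-15840, 25824) (by decide +kernel)
            (CovZ.n2 (-15840, 25920) (by decide +kernel)
             (CovZ.badM (by decide +kernel))
             (CovZ.n1 (-15888, 25872) (by decide +kernel)
              (CovZ.n2 (-15888, 25920) (by decide +kernel)
               (CovZ.n2 (-15864, 25896) (by decide +kernel)
                (CovZ.n2 (-15888, 25896) (by decide +kernel)
                 (CovZ.leaf K2_ok TB_l45281 _)
                 (CovZ.badM (by decide +kernel)))
                (CovZ.n1 (-15864, 25920) (by decide +kernel)
                 (CovZ.badM (by decide +kernel))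
                 (CovZ.leaf K2_ok TB_l45282 _)))
               (CovZ.n1 (-15912, 25896) (by decide +kernel)
                (CovZ.n2 (-15912, 25920) (by decide +kernel)
                 (CovZ.leaf K2_ok TB_l45283 _)
                 (CovZ.leaf K2_ok TB_l45284 _))
                (CovZ.n1 (-15888, 25896) (by decide +kernel)
                 (CovZ.badM (by decide +kernel))
                 (CovZ.leaf K2_ok TB_l45285 _))))
              (CovZ.n1 (-15840, 25872) (by decide +kernel)
               (CovZ.badM (by decide +kernel))
               (CovZ.n1 (-15864, 25896) (by decide +kernel)
                (CovZ.badM (by decide +kernel))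
                (CovZ.badM (by decide +kernel))))))
            (CovZ.badM (by decide +kernel)))
           (CovZ.n1 (-15840, 26016) (by decide +kernel)
            (CovZ.badM (by decide +kernel))
            (CovZ.n1 (-15840, 25920) (by decide +kernel)
             (CovZ.n2 (-15888, 25968) (by decide +kernel)
              (CovZ.n2 (-15840, 25968) (by decide +kernel)
               (CovZ.n2 (-15864, 25944) (by decide +kernel)
                (CovZ.n2 (-15864, 25968) (by decide +kernel)
                 (CovZ.badM (by decide +kernel))
                 (CovZ.leaf K2_ok TB_l45286 _))
                (CovZ.badM (by decide +kernel)))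
               (CovZ.n1 (-15864, 25992) (by decide +kernel)
                (CovZ.badM (by decide +kernel))
                (CovZ.n1 (-15864, 25968) (by decide +kernel)
                 (CovZ.leaf K2_ok TB_l45287 _)
                 (CovZ.badM (by decide +kernel)))))
              (CovZ.n1 (-15888, 25920) (by decide +kernel)
               (CovZ.n2 (-15912, 25944) (by decide +kernel)
                (CovZ.n2 (-15888, 25944) (by decide +kernel)
                 (CovZ.leaf K2_ok TB_l45288 _)
                 (CovZ.leaf K2_ok TB_l45289 _))
                (CovZ.n1 (-15912, 25920) (by decide +kernel)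
                 (CovZ.leaf K2_ok TB_l45290 _)
                 (CovZ.leaf K2_ok TB_l45291 _)))
               (CovZ.n1 (-15864, 25944) (by decide +kernel)
                (CovZ.n2 (-15864, 25920) (by decide +kernel)
                 (CovZ.leaf K2_ok TB_l45292 _)
                 (CovZ.badM (by decide +kernel)))
                (CovZ.n1 (-15888, 25944) (by decide +kernel)
                 (CovZ.leaf K2_ok TB_l45293 _)
                 (CovZ.leaf K2_ok TB_l45294 _)))))
             (CovZ.badM (by decide +kernel))))))))

theorem TB_u461 : CovZ TB_M (toL (selN TB_LN 42607122990838899334083071563540963224705092794960640395235946078657159318320881375873181954085679760179355078902774005761)) [0, 7, 6, 1] (-16896, 26112) (-16512, 25728) (-16128, 26112) :=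
    (CovZ.n2 (-16512, 26112) (by decide +kernel)
       (CovZ.subM 42607122988433991729322666338051764791103610294226632564003986754708834700912743463246952380180844908638426096396631277569 (by decide +kernel)
        (CovZ.n2 (-16320, 25920) (by decide +kernel)
         (CovZ.n2 (-16512, 25920) (by decide +kernel)
          (CovZ.n2 (-16416, 26016) (by decide +kernel)
           (CovZ.n2 (-16416, 25920) (by decide +kernel)
            (CovZ.n2 (-16464, 25968) (by decide +kernel)
             (CovZ.leaf K2_ok TB_l45295 _)
             (CovZ.leaf K2_ok TB_l45296 _))
            (CovZ.n1 (-16368, 25968) (by decide +kernel)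
             (CovZ.leaf K2_ok TB_l45297 _)
             (CovZ.leaf K2_ok TB_l45298 _)))
           (CovZ.n1 (-16512, 26016) (by decide +kernel)
            (CovZ.leaf K2_ok TB_l30695 _)
            (CovZ.leaf K2_ok TB_l45299 _)))
          (CovZ.subM 42607122988433991729322666338049695926440145581682187961705879382920685763277879711729441080636929751811070034771779256321 (by decide +kernel)
           (CovZ.n1 (-16416, 25824) (by decide +kernel)
            (CovZ.n2 (-16512, 25824) (by decide +kernel)
             (CovZ.leaf K2_ok TB_l45300 _)
             (CovZ.n1 (-16464, 25776) (by decide +kernel)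
              (CovZ.leaf K2_ok TB_l45301 _)
              (CovZ.leaf K2_ok TB_l45302 _)))
            (CovZ.n1 (-16416, 25920) (by decide +kernel)
             (CovZ.n2 (-16368, 25872) (by decide +kernel)
              (CovZ.leaf K2_ok TB_l45303 _)
              (CovZ.leaf K2_ok TB_l45304 _))
             (CovZ.leaf K2_ok TB_l45305 _)))))
         (CovZ.n1 (-16320, 26112) (by decide +kernel)
          (CovZ.n2 (-16224, 26016) (by decide +kernel)
           (CovZ.n2 (-16320, 26016) (by decide +kernel)
            (CovZ.n2 (-16272, 26064) (by decide +kernel)
             (CovZ.leaf K2_ok TB_l45306 _)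
             (CovZ.leaf K2_ok TB_l45307 _))
            (CovZ.n1 (-16272, 25968) (by decide +kernel)
             (CovZ.leaf K2_ok TB_l45308 _)
             (CovZ.n1 (-16272, 26016) (by decide +kernel)
              (CovZ.leaf K2_ok TB_l45309 _)
              (CovZ.leaf K2_ok TB_l45310 _))))
           (CovZ.n1 (-16224, 26112) (by decide +kernel)
            (CovZ.n2 (-16176, 26064) (by decide +kernel)
             (CovZ.leaf K2_ok TB_l45311 _)
             (CovZ.n1 (-16176, 26112) (by decide +kernel)
              (CovZ.leaf K2_ok TB_l45312 _)
              (CovZ.leaf K2_ok TB_l45313 _)))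
            (CovZ.n1 (-16272, 26064) (by decide +kernel)
             (CovZ.n2 (-16272, 26112) (by decide +kernel)
              (CovZ.leaf K2_ok TB_l45314 _)
              (CovZ.leaf K2_ok TB_l45315 _))
             (CovZ.leaf K2_ok TB_l45316 _))))
          (CovZ.n1 (-16416, 26016) (by decide +kernel)
           (CovZ.n2 (-16416, 26112) (by decide +kernel)
            (CovZ.n2 (-16368, 26064) (by decide +kernel)
             (CovZ.leaf K2_ok TB_l45317 _)
             (CovZ.leaf K2_ok TB_l45318 _))
            (CovZ.leaf K2_ok TB_l30696 _))
           (CovZ.n1 (-16320, 26016) (by decide +kernel)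
            (CovZ.n2 (-16368, 25968) (by decide +kernel)
             (CovZ.leaf K2_ok TB_l45319 _)
             (CovZ.leaf K2_ok TB_l45320 _))
            (CovZ.n1 (-16368, 26064) (by decide +kernel)
             (CovZ.leaf K2_ok TB_l45321 _)
             (CovZ.leaf K2_ok TB_l45322 _)))))))
       (CovZ.n1 (-16704, 25920) (by decide +kernel)
        (CovZ.n2 (-16704, 26112) (by decide +kernel)
         (CovZ.subM 42607122988433991729322666338051732962416480067881534619540105358175068271719092432993036190486323746430617294260597161985 (by decide +kernel)
          (CovZ.n2 (-16608, 26016) (by decide +kernel)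
           (CovZ.n2 (-16704, 26016) (by decide +kernel)
            (CovZ.leaf K2_ok TB_l30697 _)
            (CovZ.leaf K2_ok TB_l30698 _))
           (CovZ.n1 (-16608, 26112) (by decide +kernel)
            (CovZ.leaf K2_ok TB_l30699 _)
            (CovZ.leaf K2_ok TB_l30700 _))))
         (CovZ.n1 (-16800, 26016) (by decide +kernel)
          (CovZ.n2 (-16800, 26112) (by decide +kernel)
           (CovZ.leaf K2_ok TB_l30701 _)
           (CovZ.leaf K2_ok TB_l30702 _))
          (CovZ.leaf K2_ok TB_l30703 _)))
        (CovZ.subM 42607122988433991729322666338051732962416480067881534619540105358175068271719092432993036190486323746430617294260597161985 (by decide +kernel)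
         (CovZ.n1 (-16512, 25920) (by decide +kernel)
          (CovZ.n2 (-16608, 25824) (by decide +kernel)
           (CovZ.n2 (-16608, 25920) (by decide +kernel)
            (CovZ.leaf K2_ok TB_l45323 _)
            (CovZ.leaf K2_ok TB_l30704 _))
           (CovZ.n1 (-16512, 25824) (by decide +kernel)
            (CovZ.leaf K2_ok TB_l45324 _)
            (CovZ.leaf K2_ok TB_l45325 _)))
          (CovZ.n1 (-16608, 26016) (by decide +kernel)
           (CovZ.n2 (-16512, 26016) (by decide +kernel)
            (CovZ.leaf K2_ok TB_l45326 _)
            (CovZ.leaf K2_ok TB_l30705 _))
           (CovZ.n1 (-16608, 25920) (by decide +kernel)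
            (CovZ.leaf K2_ok TB_l30706 _)
            (CovZ.leaf K2_ok TB_l45327 _)))))))

theorem TB_u462 : CovZ TB_M (toL (selN TB_LN 42607122990838899334083071563540963224705092794960640395235946078657159318320881375873181954085679760179355078902774005761)) [0, 7, 6, 1] (-16512, 25728) (-16128, 25344) (-16128, 26112) :=
    (CovZ.subM 42607122988433991729322666338049727755127275808027285906169760779454452192471530741983357270331450914018878836907813371905 (by decide +kernel)
       (CovZ.n1 (-16128, 25728) (by decide +kernel)
        (CovZ.subM 42607122988433991729322666338049695926440145581682187961705879382920685763277879711729430696043212682155776944982101852161 (by decide +kernel)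
         (CovZ.n2 (-16320, 25536) (by decide +kernel)
          (CovZ.n2 (-16320, 25728) (by decide +kernel)
           (CovZ.n2 (-16224, 25632) (by decide +kernel)
            (CovZ.n2 (-16320, 25632) (by decide +kernel)
             (CovZ.n2 (-16272, 25680) (by decide +kernel)
              (CovZ.n2 (-16272, 25632) (by decide +kernel)
               (CovZ.leaf K2_ok TB_l45328 _)
               (CovZ.leaf K2_ok TB_l45329 _))
              (CovZ.leaf K2_ok TB_l45330 _))
             (CovZ.n1 (-16272, 25584) (by decide +kernel)
              (CovZ.leaf K2_ok TB_l45331 _)
              (CovZ.n1 (-16272, 25632) (by decide +kernel)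
               (CovZ.leaf K2_ok TB_l45332 _)
               (CovZ.leaf K2_ok TB_l45333 _))))
            (CovZ.n1 (-16224, 25728) (by decide +kernel)
             (CovZ.n2 (-16176, 25680) (by decide +kernel)
              (CovZ.n2 (-16224, 25680) (by decide +kernel)
               (CovZ.leaf K2_ok TB_l45334 _)
               (CovZ.leaf K2_ok TB_l45335 _))
              (CovZ.n1 (-16176, 25728) (by decide +kernel)
               (CovZ.leaf K2_ok TB_l45336 _)
               (CovZ.leaf K2_ok TB_l45337 _)))
             (CovZ.n1 (-16272, 25680) (by decide +kernel)
              (CovZ.n2 (-16272, 25728) (by decide +kernel)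
               (CovZ.leaf K2_ok TB_l45338 _)
               (CovZ.leaf K2_ok TB_l45339 _))
              (CovZ.leaf K2_ok TB_l45340 _))))
           (CovZ.n1 (-16416, 25632) (by decide +kernel)
            (CovZ.n2 (-16416, 25728) (by decide +kernel)
             (CovZ.n2 (-16368, 25680) (by decide +kernel)
              (CovZ.leaf K2_ok TB_l45341 _)
              (CovZ.leaf K2_ok TB_l45342 _))
             (CovZ.n1 (-16464, 25680) (by decide +kernel)
              (CovZ.leaf K2_ok TB_l45343 _)
              (CovZ.leaf K2_ok TB_l45344 _)))
            (CovZ.n1 (-16320, 25632) (by decide +kernel)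
             (CovZ.n2 (-16368, 25584) (by decide +kernel)
              (CovZ.n2 (-16368, 25632) (by decide +kernel)
               (CovZ.leaf K2_ok TB_l45345 _)
               (CovZ.leaf K2_ok TB_l45346 _))
              (CovZ.leaf K2_ok TB_l45347 _))
             (CovZ.n1 (-16368, 25680) (by decide +kernel)
              (CovZ.leaf K2_ok TB_l45348 _)
              (CovZ.leaf K2_ok TB_l45349 _)))))
          (CovZ.n1 (-16128, 25536) (by decide +kernel)
           (CovZ.n2 (-16224, 25440) (by decide +kernel)
            (CovZ.n2 (-16224, 25536) (by decide +kernel)
             (CovZ.n2 (-16176, 25488) (by decide +kernel)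
              (CovZ.n2 (-16224, 25488) (by decide +kernel)
               (CovZ.leaf K2_ok TB_l45350 _)
               (CovZ.leaf K2_ok TB_l45351 _))
              (CovZ.n1 (-16176, 25536) (by decide +kernel)
               (CovZ.n2 (-16152, 25512) (by decide +kernel)
                (CovZ.leaf K2_ok TB_l45352 _)
                (CovZ.leaf K2_ok TB_l45353 _))
               (CovZ.leaf K2_ok TB_l45354 _)))
             (CovZ.n1 (-16272, 25488) (by decide +kernel)
              (CovZ.n2 (-16272, 25536) (by decide +kernel)
               (CovZ.leaf K2_ok TB_l45355 _)
               (CovZ.leaf K2_ok TB_l45356 _))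
              (CovZ.n1 (-16224, 25488) (by decide +kernel)
               (CovZ.leaf K2_ok TB_l45357 _)
               (CovZ.leaf K2_ok TB_l45358 _))))
            (CovZ.n1 (-16128, 25440) (by decide +kernel)
             (CovZ.n2 (-16176, 25392) (by decide +kernel)
              (CovZ.n2 (-16176, 25440) (by decide +kernel)
               (CovZ.n2 (-16152, 25416) (by decide +kernel)
                (CovZ.leaf K2_ok TB_l45359 _)
                (CovZ.leaf K2_ok TB_l45360 _))
               (CovZ.leaf K2_ok TB_l45361 _))
              (CovZ.n1 (-16128, 25392) (by decide +kernel)
               (CovZ.n2 (-16152, 25368) (by decide +kernel)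
                (CovZ.leaf K2_ok TB_l45362 _)
                (CovZ.leaf K2_ok TB_l45363 _))
               (CovZ.n1 (-16152, 25416) (by decide +kernel)
                (CovZ.leaf K2_ok TB_l45364 _)
                (CovZ.leaf K2_ok TB_l45365 _))))
             (CovZ.n1 (-16176, 25488) (by decide +kernel)
              (CovZ.n2 (-16128, 25488) (by decide +kernel)
               (CovZ.n2 (-16152, 25464) (by decide +kernel)
                (CovZ.leaf K2_ok TB_l45366 _)
                (CovZ.leaf K2_ok TB_l45367 _))
               (CovZ.n1 (-16152, 25512) (by decide +kernel)
                (CovZ.leaf K2_ok TB_l45368 _)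
                (CovZ.leaf K2_ok TB_l45369 _)))
              (CovZ.n1 (-16176, 25440) (by decide +kernel)
               (CovZ.leaf K2_ok TB_l45370 _)
               (CovZ.n1 (-16152, 25464) (by decide +kernel)
                (CovZ.leaf K2_ok TB_l45371 _)
                (CovZ.leaf K2_ok TB_l45372 _))))))
           (CovZ.n1 (-16224, 25632) (by decide +kernel)
            (CovZ.n2 (-16128, 25632) (by decide +kernel)
             (CovZ.n2 (-16176, 25584) (by decide +kernel)
              (CovZ.n2 (-16176, 25632) (by decide +kernel)
               (CovZ.leaf K2_ok TB_l45373 _)
               (CovZ.leaf K2_ok TB_l45374 _))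
              (CovZ.n1 (-16128, 25584) (by decide +kernel)
               (CovZ.n2 (-16152, 25560) (by decide +kernel)
                (CovZ.leaf K2_ok TB_l45375 _)
                (CovZ.leaf K2_ok TB_l45376 _))
               (CovZ.leaf K2_ok TB_l45377 _)))
             (CovZ.n1 (-16176, 25680) (by decide +kernel)
              (CovZ.n2 (-16128, 25680) (by decide +kernel)
               (CovZ.leaf K2_ok TB_l45378 _)
               (CovZ.leaf K2_ok TB_l45379 _))
              (CovZ.n1 (-16176, 25632) (by decide +kernel)
               (CovZ.leaf K2_ok TB_l45380 _)
               (CovZ.leaf K2_ok TB_l45381 _))))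
            (CovZ.n1 (-16224, 25536) (by decide +kernel)
             (CovZ.n2 (-16272, 25584) (by decide +kernel)
              (CovZ.n2 (-16224, 25584) (by decide +kernel)
               (CovZ.leaf K2_ok TB_l45382 _)
               (CovZ.leaf K2_ok TB_l45383 _))
              (CovZ.n1 (-16272, 25536) (by decide +kernel)
               (CovZ.leaf K2_ok TB_l45384 _)
               (CovZ.leaf K2_ok TB_l45385 _)))
             (CovZ.n1 (-16176, 25584) (by decide +kernel)
              (CovZ.n2 (-16176, 25536) (by decide +kernel)
               (CovZ.leaf K2_ok TB_l45386 _)
               (CovZ.n1 (-16152, 25560) (by decide +kernel)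
                (CovZ.leaf K2_ok TB_l45387 _)
                (CovZ.leaf K2_ok TB_l45388 _)))
              (CovZ.n1 (-16224, 25584) (by decide +kernel)
               (CovZ.leaf K2_ok TB_l45389 _)
               (CovZ.leaf K2_ok TB_l45390 _))))))))
        (CovZ.n1 (-16320, 25920) (by decide +kernel)
         (CovZ.n2 (-16128, 25920) (by decide +kernel)
          (CovZ.n2 (-16224, 25824) (by decide +kernel)
           (CovZ.n2 (-16224, 25920) (by decide +kernel)
            (CovZ.n2 (-16176, 25872) (by decide +kernel)
             (CovZ.n2 (-16224, 25872) (by decide +kernel)
              (CovZ.leaf K2_ok TB_l45391 _)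
              (CovZ.leaf K2_ok TB_l45392 _))
             (CovZ.n1 (-16176, 25920) (by decide +kernel)
              (CovZ.leaf K2_ok TB_l45393 _)
              (CovZ.leaf K2_ok TB_l45394 _)))
            (CovZ.n1 (-16272, 25872) (by decide +kernel)
             (CovZ.n2 (-16272, 25920) (by decide +kernel)
              (CovZ.leaf K2_ok TB_l45395 _)
              (CovZ.leaf K2_ok TB_l45396 _))
             (CovZ.leaf K2_ok TB_l45397 _)))
           (CovZ.n1 (-16128, 25824) (by decide +kernel)
            (CovZ.n2 (-16176, 25776) (by decide +kernel)
             (CovZ.n2 (-16176, 25824) (by decide +kernel)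
              (CovZ.leaf K2_ok TB_l45398 _)
              (CovZ.leaf K2_ok TB_l45399 _))
             (CovZ.n1 (-16128, 25776) (by decide +kernel)
              (CovZ.leaf K2_ok TB_l45400 _)
              (CovZ.leaf K2_ok TB_l45401 _)))
            (CovZ.n1 (-16176, 25872) (by decide +kernel)
             (CovZ.n2 (-16128, 25872) (by decide +kernel)
              (CovZ.leaf K2_ok TB_l45402 _)
              (CovZ.leaf K2_ok TB_l45403 _))
             (CovZ.n1 (-16176, 25824) (by decide +kernel)
              (CovZ.leaf K2_ok TB_l45404 _)
              (CovZ.leaf K2_ok TB_l45405 _)))))
          (CovZ.n1 (-16224, 26016) (by decide +kernel)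
           (CovZ.n2 (-16128, 26016) (by decide +kernel)
            (CovZ.n2 (-16176, 25968) (by decide +kernel)
             (CovZ.n2 (-16176, 26016) (by decide +kernel)
              (CovZ.leaf K2_ok TB_l45406 _)
              (CovZ.leaf K2_ok TB_l45407 _))
             (CovZ.n1 (-16128, 25968) (by decide +kernel)
              (CovZ.leaf K2_ok TB_l45408 _)
              (CovZ.leaf K2_ok TB_l45409 _)))
            (CovZ.n1 (-16176, 26064) (by decide +kernel)
             (CovZ.n2 (-16128, 26064) (by decide +kernel)
              (CovZ.leaf K2_ok TB_l45410 _)
              (CovZ.leaf K2_ok TB_l45411 _))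
             (CovZ.n1 (-16176, 26016) (by decide +kernel)
              (CovZ.leaf K2_ok TB_l45412 _)
              (CovZ.leaf K2_ok TB_l45413 _))))
           (CovZ.n1 (-16224, 25920) (by decide +kernel)
            (CovZ.n2 (-16272, 25968) (by decide +kernel)
             (CovZ.leaf K2_ok TB_l45414 _)
             (CovZ.n1 (-16272, 25920) (by decide +kernel)
              (CovZ.leaf K2_ok TB_l45415 _)
              (CovZ.leaf K2_ok TB_l45416 _)))
            (CovZ.n1 (-16176, 25968) (by decide +kernel)
             (CovZ.n2 (-16176, 25920) (by decide +kernel)
              (CovZ.leaf K2_ok TB_l45417 _)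
              (CovZ.leaf K2_ok TB_l45418 _))
             (CovZ.leaf K2_ok TB_l45419 _)))))
         (CovZ.n1 (-16320, 25728) (by decide +kernel)
          (CovZ.n2 (-16416, 25824) (by decide +kernel)
           (CovZ.n2 (-16320, 25824) (by decide +kernel)
            (CovZ.n2 (-16368, 25776) (by decide +kernel)
             (CovZ.leaf K2_ok TB_l45420 _)
             (CovZ.leaf K2_ok TB_l45421 _))
            (CovZ.n1 (-16368, 25872) (by decide +kernel)
             (CovZ.leaf K2_ok TB_l45422 _)
             (CovZ.leaf K2_ok TB_l45423 _)))
           (CovZ.subM 42607122988433991729322666338049695926440145581682187961705879382920685763277879711729430696043212682155776944982101852161 (by decide +kernel)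
            (CovZ.n1 (-16416, 25728) (by decide +kernel)
             (CovZ.n2 (-16464, 25776) (by decide +kernel)
              (CovZ.leaf K2_ok TB_l45424 _)
              (CovZ.leaf K2_ok TB_l45425 _))
             (CovZ.n1 (-16368, 25776) (by decide +kernel)
              (CovZ.leaf K2_ok TB_l45426 _)
              (CovZ.leaf K2_ok TB_l45427 _)))))
          (CovZ.n1 (-16224, 25824) (by decide +kernel)
           (CovZ.n2 (-16224, 25728) (by decide +kernel)
            (CovZ.n2 (-16272, 25776) (by decide +kernel)
             (CovZ.n2 (-16224, 25776) (by decide +kernel)
              (CovZ.leaf K2_ok TB_l45428 _)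
              (CovZ.leaf K2_ok TB_l45429 _))
             (CovZ.n1 (-16272, 25728) (by decide +kernel)
              (CovZ.leaf K2_ok TB_l45430 _)
              (CovZ.leaf K2_ok TB_l45431 _)))
            (CovZ.n1 (-16176, 25776) (by decide +kernel)
             (CovZ.n2 (-16176, 25728) (by decide +kernel)
              (CovZ.leaf K2_ok TB_l45432 _)
              (CovZ.leaf K2_ok TB_l45433 _))
             (CovZ.n1 (-16224, 25776) (by decide +kernel)
              (CovZ.leaf K2_ok TB_l45434 _)
              (CovZ.leaf K2_ok TB_l45435 _))))
           (CovZ.n1 (-16320, 25824) (by decide +kernel)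
            (CovZ.n2 (-16272, 25872) (by decide +kernel)
             (CovZ.n2 (-16272, 25824) (by decide +kernel)
              (CovZ.leaf K2_ok TB_l45436 _)
              (CovZ.leaf K2_ok TB_l45437 _))
             (CovZ.leaf K2_ok TB_l45438 _))
            (CovZ.n1 (-16272, 25776) (by decide +kernel)
             (CovZ.leaf K2_ok TB_l45439 _)
             (CovZ.n1 (-16272, 25824) (by decide +kernel)
              (CovZ.leaf K2_ok TB_l45440 _)
              (CovZ.leaf K2_ok TB_l45441 _)))))))))

theorem TB_u463 : CovZ TB_M (toL (selN TB_LN 726838724295649497672312241879733857019979412452109167686059605941580383739726668925577327993177680670676671175447912361384912544137217)) [0, 7, 6, 1] (-16128, 26112) (-15744, 26112) (-15744, 26496) :=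
    (CovZ.n2 (-15936, 26304) (by decide +kernel)
         (CovZ.n2 (-15744, 26304) (by decide +kernel)
          (CovZ.subM 41315998049390537434494706752050258853938757397812020807588657076438510889904322865591847336619837529457099902978489319425 (by decide +kernel)
           (CovZ.n2 (-15840, 26208) (by decide +kernel)
            (CovZ.n2 (-15840, 26304) (by decide +kernel)
             (CovZ.subM 2037035976334486199346657834225975254382508441212721263595109849393994619582162385930027009 (by decide +kernel)
              (CovZ.n2 (-15792, 26256) (by decide +kernel)
               (CovZ.n2 (-15840, 26256) (by decide +kernel)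
                (CovZ.n2 (-15816, 26280) (by decide +kernel)
                 (CovZ.n2 (-15816, 26256) (by decide +kernel)
                  (CovZ.leaf K2_ok TB_l45465 _)
                  (CovZ.leaf K2_ok TB_l45466 _))
                 (CovZ.leaf K2_ok TB_l45467 _))
                (CovZ.n1 (-15816, 26232) (by decide +kernel)
                 (CovZ.leaf K2_ok TB_l45468 _)
                 (CovZ.n1 (-15816, 26256) (by decide +kernel)
                  (CovZ.badM (by decide +kernel))
                  (CovZ.leaf K2_ok TB_l45469 _))))
               (CovZ.n1 (-15792, 26304) (by decide +kernel)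
                (CovZ.n2 (-15768, 26280) (by decide +kernel)
                 (CovZ.n2 (-15792, 26280) (by decide +kernel)
                  (CovZ.leaf K2_ok TB_l45470 _)
                  (CovZ.badM (by decide +kernel)))
                 (CovZ.n1 (-15768, 26304) (by decide +kernel)
                  (CovZ.badM (by decide +kernel))
                  (CovZ.leaf K2_ok TB_l45471 _)))
                (CovZ.n1 (-15816, 26280) (by decide +kernel)
                 (CovZ.n2 (-15816, 26304) (by decide +kernel)
                  (CovZ.leaf K2_ok TB_l45472 _)
                  (CovZ.leaf K2_ok TB_l45473 _))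
                 (CovZ.leaf K2_ok TB_l45474 _)))))
             (CovZ.n1 (-15888, 26256) (by decide +kernel)
              (CovZ.n2 (-15888, 26304) (by decide +kernel)
               (CovZ.n2 (-15864, 26280) (by decide +kernel)
                (CovZ.leaf K2_ok TB_l45475 _)
                (CovZ.n1 (-15864, 26304) (by decide +kernel)
                 (CovZ.leaf K2_ok TB_l45476 _)
                 (CovZ.leaf K2_ok TB_l45477 _)))
               (CovZ.n1 (-15912, 26280) (by decide +kernel)
                (CovZ.leaf K2_ok TB_l45478 _)
                (CovZ.leaf K2_ok TB_l45479 _)))
              (CovZ.n1 (-15840, 26256) (by decide +kernel)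
               (CovZ.n2 (-15864, 26232) (by decide +kernel)
                (CovZ.n2 (-15864, 26256) (by decide +kernel)
                 (CovZ.leaf K2_ok TB_l45480 _)
                 (CovZ.leaf K2_ok TB_l45481 _))
                (CovZ.leaf K2_ok TB_l45482 _))
               (CovZ.n1 (-15864, 26280) (by decide +kernel)
                (CovZ.leaf K2_ok TB_l45483 _)
                (CovZ.n1 (-15864, 26256) (by decide +kernel)
                 (CovZ.leaf K2_ok TB_l45484 _)
                 (CovZ.leaf K2_ok TB_l45485 _))))))
            (CovZ.badM (by decide +kernel))))
          (CovZ.n1 (-15840, 26400) (by decide +kernel)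
           (CovZ.subM 726838724295606890549323807888004534353641362724354040410251578655674213978947214473384856462435686679582373445206910288120319506972673 (by decide +kernel)
            (CovZ.n2 (-15744, 26400) (by decide +kernel)
             (CovZ.n2 (-15792, 26352) (by decide +kernel)
              (CovZ.n2 (-15792, 26400) (by decide +kernel)
               (CovZ.leaf K2_ok TB_l30818 _)
               (CovZ.leaf K2_ok TB_l30819 _))
              (CovZ.n1 (-15744, 26352) (by decide +kernel)
               (CovZ.n2 (-15768, 26328) (by decide +kernel)
                (CovZ.n2 (-15768, 26352) (by decide +kernel)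
                 (CovZ.leaf K2_ok TB_l45486 _)
                 (CovZ.leaf K2_ok TB_l45487 _))
                (CovZ.leaf K2_ok TB_l45488 _))
               (CovZ.leaf K2_ok TB_l30820 _)))
             (CovZ.n1 (-15792, 26448) (by decide +kernel)
              (CovZ.leaf K2_ok TB_l30821 _)
              (CovZ.n1 (-15792, 26400) (by decide +kernel)
               (CovZ.leaf K2_ok TB_l30822 _)
               (CovZ.leaf K2_ok TB_l30823 _)))))
           (CovZ.n1 (-15840, 26304) (by decide +kernel)
            (CovZ.n2 (-15888, 26352) (by decide +kernel)
             (CovZ.leaf K2_ok TB_l30824 _)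
             (CovZ.n1 (-15888, 26304) (by decide +kernel)
              (CovZ.leaf K2_ok TB_l30825 _)
              (CovZ.leaf K2_ok TB_l30826 _)))
            (CovZ.subM 726838724295606890549323807888004534353641362724354036615976398527297122339373177708699491926484829155872371000260797516822887465549825 (by decide +kernel)
             (CovZ.n1 (-15792, 26352) (by decide +kernel)
              (CovZ.n2 (-15792, 26304) (by decide +kernel)
               (CovZ.n2 (-15816, 26328) (by decide +kernel)
                (CovZ.leaf K2_ok TB_l45489 _)
                (CovZ.n1 (-15816, 26304) (by decide +kernel)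
                 (CovZ.leaf K2_ok TB_l45490 _)
                 (CovZ.leaf K2_ok TB_l45491 _)))
               (CovZ.n1 (-15768, 26328) (by decide +kernel)
                (CovZ.n2 (-15768, 26304) (by decide +kernel)
                 (CovZ.leaf K2_ok TB_l45492 _)
                 (CovZ.leaf K2_ok TB_l45493 _))
                (CovZ.leaf K2_ok TB_l45494 _)))
              (CovZ.leaf K2_ok TB_l30827 _))))))
         (CovZ.n1 (-15936, 26112) (by decide +kernel)
          (CovZ.n2 (-16032, 26208) (by decide +kernel)
           (CovZ.n2 (-15936, 26208) (by decide +kernel)
            (CovZ.subM 42607122988433991729322666338049727755127275808027285906169760779454452192471530741643074903410512450555504229476045160449 (by decide +kernel)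
             (CovZ.n2 (-15984, 26160) (by decide +kernel)
              (CovZ.n2 (-15984, 26208) (by decide +kernel)
               (CovZ.n2 (-15960, 26184) (by decide +kernel)
                (CovZ.leaf K2_ok TB_l45495 _)
                (CovZ.leaf K2_ok TB_l45496 _))
               (CovZ.leaf K2_ok TB_l45497 _))
              (CovZ.n1 (-15936, 26160) (by decide +kernel)
               (CovZ.n2 (-15960, 26136) (by decide +kernel)
                (CovZ.leaf K2_ok TB_l45498 _)
                (CovZ.leaf K2_ok TB_l45499 _))
               (CovZ.n1 (-15960, 26184) (by decide +kernel)
                (CovZ.leaf K2_ok TB_l45500 _)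
                (CovZ.leaf K2_ok TB_l45501 _)))))
            (CovZ.n1 (-15984, 26256) (by decide +kernel)
             (CovZ.n2 (-15936, 26256) (by decide +kernel)
              (CovZ.n2 (-15960, 26232) (by decide +kernel)
               (CovZ.leaf K2_ok TB_l45502 _)
               (CovZ.leaf K2_ok TB_l45503 _))
              (CovZ.leaf K2_ok TB_l45504 _))
             (CovZ.n1 (-15984, 26208) (by decide +kernel)
              (CovZ.leaf K2_ok TB_l45505 _)
              (CovZ.n1 (-15960, 26232) (by decide +kernel)
               (CovZ.leaf K2_ok TB_l45506 _)
               (CovZ.leaf K2_ok TB_l45507 _)))))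
           (CovZ.subM 42607122988433991729322666338049727755127275808027285906169760779454452192471530741983357270331450914018878836907813371905 (by decide +kernel)
            (CovZ.n1 (-16032, 26112) (by decide +kernel)
             (CovZ.n2 (-16080, 26160) (by decide +kernel)
              (CovZ.n2 (-16032, 26160) (by decide +kernel)
               (CovZ.leaf K2_ok TB_l45508 _)
               (CovZ.leaf K2_ok TB_l45509 _))
              (CovZ.n1 (-16080, 26112) (by decide +kernel)
               (CovZ.leaf K2_ok TB_l45510 _)
               (CovZ.leaf K2_ok TB_l45511 _)))
             (CovZ.n1 (-15984, 26160) (by decide +kernel)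
              (CovZ.n2 (-15984, 26112) (by decide +kernel)
               (CovZ.n2 (-16008, 26136) (by decide +kernel)
                (CovZ.leaf K2_ok TB_l45512 _)
                (CovZ.leaf K2_ok TB_l45513 _))
               (CovZ.n1 (-15960, 26136) (by decide +kernel)
                (CovZ.leaf K2_ok TB_l45514 _)
                (CovZ.leaf K2_ok TB_l45515 _)))
              (CovZ.n1 (-16032, 26160) (by decide +kernel)
               (CovZ.leaf K2_ok TB_l45516 _)
               (CovZ.leaf K2_ok TB_l45517 _))))))
          (CovZ.subM 41315998049390537434494706752050258853938757397812020807588657076438510889904322865591847336619837529457099902978489319425 (by decide +kernel)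
           (CovZ.n1 (-15840, 26208) (by decide +kernel)
            (CovZ.subM 41315998049390537434494706752048221817962422911612674149754431101184128381463110144328252226770443534837516614692652449792 (by decide +kernel)
             (CovZ.n2 (-15840, 26112) (by decide +kernel)
              (CovZ.n2 (-15888, 26160) (by decide +kernel)
               (CovZ.n2 (-15840, 26160) (by decide +kernel)
                (CovZ.n2 (-15864, 26136) (by decide +kernel)
                 (CovZ.n2 (-15864, 26160) (by decide +kernel)
                  (CovZ.badM (by decide +kernel))
                  (CovZ.leaf K2_ok TB_l45518 _))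
                 (CovZ.badM (by decide +kernel)))
                (CovZ.n1 (-15864, 26184) (by decide +kernel)
                 (CovZ.badM (by decide +kernel))
                 (CovZ.n1 (-15864, 26160) (by decide +kernel)
                  (CovZ.leaf K2_ok TB_l45519 _)
                  (CovZ.badM (by decide +kernel)))))
               (CovZ.n1 (-15888, 26112) (by decide +kernel)
                (CovZ.n2 (-15912, 26136) (by decide +kernel)
                 (CovZ.leaf K2_ok TB_l45520 _)
                 (CovZ.n1 (-15912, 26112) (by decide +kernel)
                  (CovZ.leaf K2_ok TB_l45521 _)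
                  (CovZ.leaf K2_ok TB_l45522 _)))
                (CovZ.n1 (-15864, 26136) (by decide +kernel)
                 (CovZ.n2 (-15864, 26112) (by decide +kernel)
                  (CovZ.leaf K2_ok TB_l45523 _)
                  (CovZ.badM (by decide +kernel)))
                 (CovZ.leaf K2_ok TB_l45524 _))))
              (CovZ.badM (by decide +kernel))))
            (CovZ.n1 (-15936, 26208) (by decide +kernel)
             (CovZ.n2 (-15888, 26256) (by decide +kernel)
              (CovZ.n2 (-15888, 26208) (by decide +kernel)
               (CovZ.n2 (-15912, 26232) (by decide +kernel)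
                (CovZ.leaf K2_ok TB_l45525 _)
                (CovZ.n1 (-15912, 26208) (by decide +kernel)
                 (CovZ.leaf K2_ok TB_l45526 _)
                 (CovZ.leaf K2_ok TB_l45527 _)))
               (CovZ.n1 (-15864, 26232) (by decide +kernel)
                (CovZ.n2 (-15864, 26208) (by decide +kernel)
                 (CovZ.leaf K2_ok TB_l45528 _)
                 (CovZ.leaf K2_ok TB_l45529 _))
                (CovZ.leaf K2_ok TB_l45530 _)))
              (CovZ.n1 (-15936, 26256) (by decide +kernel)
               (CovZ.n2 (-15912, 26280) (by decide +kernel)
                (CovZ.leaf K2_ok TB_l45531 _)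
                (CovZ.leaf K2_ok TB_l45532 _))
               (CovZ.n1 (-15912, 26232) (by decide +kernel)
                (CovZ.leaf K2_ok TB_l45533 _)
                (CovZ.n1 (-15912, 26256) (by decide +kernel)
                 (CovZ.leaf K2_ok TB_l45534 _)
                 (CovZ.leaf K2_ok TB_l45535 _)))))
             (CovZ.n1 (-15888, 26160) (by decide +kernel)
              (CovZ.n2 (-15936, 26160) (by decide +kernel)
               (CovZ.n2 (-15912, 26184) (by decide +kernel)
                (CovZ.n2 (-15912, 26160) (by decide +kernel)
                 (CovZ.leaf K2_ok TB_l45536 _)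
                 (CovZ.leaf K2_ok TB_l45537 _))
                (CovZ.leaf K2_ok TB_l45538 _))
               (CovZ.n1 (-15912, 26136) (by decide +kernel)
                (CovZ.leaf K2_ok TB_l45539 _)
                (CovZ.n1 (-15912, 26160) (by decide +kernel)
                 (CovZ.leaf K2_ok TB_l45540 _)
                 (CovZ.leaf K2_ok TB_l45541 _))))
              (CovZ.n1 (-15888, 26208) (by decide +kernel)
               (CovZ.n2 (-15864, 26184) (by decide +kernel)
                (CovZ.leaf K2_ok TB_l45542 _)
                (CovZ.n1 (-15864, 26208) (by decide +kernel)
                 (CovZ.leaf K2_ok TB_l45543 _)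
                 (CovZ.leaf K2_ok TB_l45544 _)))
               (CovZ.n1 (-15912, 26184) (by decide +kernel)
                (CovZ.n2 (-15912, 26208) (by decide +kernel)
                 (CovZ.leaf K2_ok TB_l45545 _)
                 (CovZ.leaf K2_ok TB_l45546 _))
                (CovZ.leaf K2_ok TB_l45547 _)))))))))

theorem TB_u464 : CovZ TB_M (toL (selN TB_LN 726838724295649497672312241879733857019979412452109167686059605941580383739726668925577327993177680670676671175447912361384912544137217)) [0, 7, 6, 1] (-15744, 26112) (-15360, 26112) (-15744, 26496) :=
    (CovZ.n1 (-15552, 26304) (by decide +kernel)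
         (CovZ.badM (by decide +kernel))
         (CovZ.subM 726838724295606890549323807888004534353641362724354040410251578655674213978947214473384856462435686679582373445206910288120319506972673 (by decide +kernel)
          (CovZ.n1 (-15744, 26304) (by decide +kernel)
           (CovZ.n2 (-15648, 26400) (by decide +kernel)
            (CovZ.subM 2037035976334486199346657834225975254382508441212721263595109849393994619583288285836869632 (by decide +kernel)
             (CovZ.n2 (-15648, 26304) (by decide +kernel)
              (CovZ.n2 (-15696, 26352) (by decide +kernel)
               (CovZ.n2 (-15648, 26352) (by decide +kernel)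
                (CovZ.badM (by decide +kernel))
                (CovZ.n1 (-15672, 26376) (by decide +kernel)
                 (CovZ.leaf K2_ok TB_l45548 _)
                 (CovZ.n1 (-15672, 26352) (by decide +kernel)
                  (CovZ.leaf K2_ok TB_l45549 _)
                  (CovZ.leaf K2_ok TB_l45550 _))))
               (CovZ.badM (by decide +kernel)))
              (CovZ.n1 (-15600, 26352) (by decide +kernel)
               (CovZ.badM (by decide +kernel))
               (CovZ.n1 (-15648, 26352) (by decide +kernel)
                (CovZ.n2 (-15624, 26376) (by decide +kernel)
                 (CovZ.badM (by decide +kernel))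
                 (CovZ.leaf K2_ok TB_l45551 _))
                (CovZ.badM (by decide +kernel))))))
            (CovZ.n1 (-15744, 26400) (by decide +kernel)
             (CovZ.n2 (-15696, 26448) (by decide +kernel)
              (CovZ.n2 (-15696, 26400) (by decide +kernel)
               (CovZ.leaf K2_ok TB_l30828 _)
               (CovZ.leaf K2_ok TB_l30829 _))
              (CovZ.leaf K2_ok TB_l30830 _))
             (CovZ.n1 (-15696, 26352) (by decide +kernel)
              (CovZ.n2 (-15744, 26352) (by decide +kernel)
               (CovZ.leaf K2_ok TB_l30831 _)
               (CovZ.n1 (-15720, 26328) (by decide +kernel)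
                (CovZ.leaf K2_ok TB_l45552 _)
                (CovZ.n1 (-15720, 26352) (by decide +kernel)
                 (CovZ.leaf K2_ok TB_l45553 _)
                 (CovZ.leaf K2_ok TB_l45554 _))))
              (CovZ.n1 (-15696, 26400) (by decide +kernel)
               (CovZ.n2 (-15672, 26376) (by decide +kernel)
                (CovZ.leaf K2_ok TB_l30832 _)
                (CovZ.leaf K2_ok TB_l30833 _))
               (CovZ.leaf K2_ok TB_l30834 _)))))
           (CovZ.badM (by decide +kernel)))))

theorem TB_u465 : CovZ TB_M (toL (selN TB_LN 726838724295649497672314647080906440271934055137225163209362074885150224921163385164021199187462915266693273172355649795228219046200321)) [0, 7, 6, 1] (-15360, 27648) (-16128, 26880) (-15360, 26112) :=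
    (CovZ.n2 (-15360, 26880) (by decide +kernel)
     (CovZ.n2 (-15744, 26496) (by decide +kernel)
      (CovZ.n2 (-15744, 26880) (by decide +kernel)
       (CovZ.subM 726838724295606890549323808181572357200370516210539115008918707077634532592487198311796227903961826119942541633970026451617789352412161 (by decide +kernel)
        (CovZ.n2 (-15552, 26688) (by decide +kernel)
         (CovZ.n2 (-15744, 26688) (by decide +kernel)
          (CovZ.leaf K2_ok TB_l30707 _)
          (CovZ.n1 (-15648, 26592) (by decide +kernel)
           (CovZ.leaf K2_ok TB_l30708 _)
           (CovZ.n1 (-15648, 26688) (by decide +kernel)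
            (CovZ.leaf K2_ok TB_l30709 _)
            (CovZ.leaf K2_ok TB_l30710 _))))
         (CovZ.n1 (-15552, 26880) (by decide +kernel)
          (CovZ.n2 (-15456, 26784) (by decide +kernel)
           (CovZ.leaf K2_ok TB_l30711 _)
           (CovZ.leaf K2_ok TB_l30712 _))
          (CovZ.leaf K2_ok TB_l30713 _))))
       (CovZ.n1 (-15936, 26688) (by decide +kernel)
        (CovZ.n2 (-15936, 26880) (by decide +kernel)
         (CovZ.leaf K2_ok TB_l30714 _)
         (CovZ.leaf K2_ok TB_l30715 _))
        (CovZ.n1 (-15744, 26688) (by decide +kernel)
         (CovZ.n2 (-15840, 26592) (by decide +kernel)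
          (CovZ.leaf K2_ok TB_l30716 _)
          (CovZ.leaf K2_ok TB_l30717 _))
         (CovZ.leaf K2_ok TB_l30718 _))))
      (CovZ.subM 726838724295606890549323808181572357200370516210539115008918707077634532592487198311796227903961826119942541633970026451617789352412161 (by decide +kernel)
       (CovZ.n1 (-15360, 26496) (by decide +kernel)
        (CovZ.n2 (-15552, 26304) (by decide +kernel)
         (CovZ.n2 (-15552, 26496) (by decide +kernel)
          (CovZ.subM 726838724295606890549323807888004534353641362724354036615976398527297122339373177708699491926484839789696337279588961338900087119609856 (by decide +kernel)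
           (CovZ.n2 (-15456, 26400) (by decide +kernel)
            (CovZ.n2 (-15552, 26400) (by decide +kernel)
             (CovZ.n2 (-15504, 26448) (by decide +kernel)
              (CovZ.subM 726838724295606890549323807888004534353641362724354036615976398527297122339373177708699491926484829155872371000260797480794090446520320 (by decide +kernel)
               (CovZ.n2 (-15504, 26400) (by decide +kernel)
                (CovZ.n2 (-15528, 26424) (by decide +kernel)
                 (CovZ.leaf K2_ok TB_l30719 _)
                 (CovZ.n1 (-15528, 26400) (by decide +kernel)
                  (CovZ.leaf K2_ok TB_l45442 _)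
                  (CovZ.leaf K2_ok TB_l45443 _)))
                (CovZ.n1 (-15480, 26424) (by decide +kernel)
                 (CovZ.badM (by decide +kernel))
                 (CovZ.leaf K2_ok TB_l30720 _))))
              (CovZ.n1 (-15552, 26448) (by decide +kernel)
               (CovZ.leaf K2_ok TB_l30721 _)
               (CovZ.n1 (-15528, 26424) (by decide +kernel)
                (CovZ.leaf K2_ok TB_l30722 _)
                (CovZ.leaf K2_ok TB_l30723 _))))
             (CovZ.badM (by decide +kernel)))
            (CovZ.n1 (-15456, 26496) (by decide +kernel)
             (CovZ.n2 (-15408, 26448) (by decide +kernel)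
              (CovZ.subM 2037035976334486199346657834225975254382508441212721263595109849393994619547259488817971200 (by decide +kernel)
               (CovZ.n2 (-15456, 26448) (by decide +kernel)
                (CovZ.n2 (-15432, 26472) (by decide +kernel)
                 (CovZ.n2 (-15432, 26448) (by decide +kernel)
                  (CovZ.leaf K2_ok TB_l45444 _)
                  (CovZ.leaf K2_ok TB_l45445 _))
                 (CovZ.leaf K2_ok TB_l30724 _))
                (CovZ.badM (by decide +kernel))))
              (CovZ.n1 (-15408, 26496) (by decide +kernel)
               (CovZ.n2 (-15384, 26472) (by decide +kernel)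
                (CovZ.leaf K2_ok TB_l45446 _)
                (CovZ.n1 (-15384, 26496) (by decide +kernel)
                 (CovZ.leaf K2_ok TB_l45447 _)
                 (CovZ.leaf K2_ok TB_l45448 _)))
               (CovZ.n1 (-15432, 26472) (by decide +kernel)
                (CovZ.leaf K2_ok TB_l30725 _)
                (CovZ.leaf K2_ok TB_l45449 _))))
             (CovZ.n1 (-15504, 26448) (by decide +kernel)
              (CovZ.n2 (-15504, 26496) (by decide +kernel)
               (CovZ.n2 (-15480, 26472) (by decide +kernel)
                (CovZ.leaf K2_ok TB_l30726 _)
                (CovZ.leaf K2_ok TB_l30727 _))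
               (CovZ.leaf K2_ok TB_l30728 _))
              (CovZ.n1 (-15456, 26448) (by decide +kernel)
               (CovZ.n2 (-15480, 26424) (by decide +kernel)
                (CovZ.n2 (-15480, 26448) (by decide +kernel)
                 (CovZ.leaf K2_ok TB_l45450 _)
                 (CovZ.leaf K2_ok TB_l30729 _))
                (CovZ.badM (by decide +kernel)))
               (CovZ.n1 (-15480, 26472) (by decide +kernel)
                (CovZ.leaf K2_ok TB_l30730 _)
                (CovZ.n1 (-15480, 26448) (by decide +kernel)
                 (CovZ.leaf K2_ok TB_l30731 _)
                 (CovZ.leaf K2_ok TB_l45451 _))))))))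
          (CovZ.subM 726838724295606890549323807888004534353641362724354040410251578655674213978947214473384856462435686679582373445206910288120319506972673 (by decide +kernel)
           (CovZ.n1 (-15648, 26400) (by decide +kernel)
            (CovZ.n2 (-15648, 26496) (by decide +kernel)
             (CovZ.n2 (-15600, 26448) (by decide +kernel)
              (CovZ.leaf K2_ok TB_l30732 _)
              (CovZ.n1 (-15600, 26496) (by decide +kernel)
               (CovZ.leaf K2_ok TB_l30733 _)
               (CovZ.leaf K2_ok TB_l30734 _)))
             (CovZ.n1 (-15696, 26448) (by decide +kernel)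
              (CovZ.leaf K2_ok TB_l30735 _)
              (CovZ.leaf K2_ok TB_l30736 _)))
            (CovZ.n1 (-15552, 26400) (by decide +kernel)
             (CovZ.subM 2037035976334486199346657834225975254382508441212721263595109849393994619583288285836869632 (by decide +kernel)
              (CovZ.n2 (-15600, 26352) (by decide +kernel)
               (CovZ.n2 (-15600, 26400) (by decide +kernel)
                (CovZ.n2 (-15576, 26376) (by decide +kernel)
                 (CovZ.n2 (-15600, 26376) (by decide +kernel)
                  (CovZ.leaf K2_ok TB_l45452 _)
                  (CovZ.badM (by decide +kernel)))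
                 (CovZ.n1 (-15576, 26400) (by decide +kernel)
                  (CovZ.badM (by decide +kernel))
                  (CovZ.leaf K2_ok TB_l45453 _)))
                (CovZ.n1 (-15624, 26376) (by decide +kernel)
                 (CovZ.n2 (-15624, 26400) (by decide +kernel)
                  (CovZ.leaf K2_ok TB_l45454 _)
                  (CovZ.leaf K2_ok TB_l45455 _))
                 (CovZ.leaf K2_ok TB_l45456 _)))
               (CovZ.badM (by decide +kernel))))
             (CovZ.n1 (-15600, 26448) (by decide +kernel)
              (CovZ.leaf K2_ok TB_l30737 _)
              (CovZ.n1 (-15600, 26400) (by decide +kernel)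
               (CovZ.leaf K2_ok TB_l30738 _)
               (CovZ.n1 (-15576, 26424) (by decide +kernel)
                (CovZ.n2 (-15576, 26400) (by decide +kernel)
                 (CovZ.leaf K2_ok TB_l45457 _)
                 (CovZ.leaf K2_ok TB_l45458 _))
                (CovZ.leaf K2_ok TB_l30739 _))))))))
         (CovZ.subM 726838724295606890549323807888004534353641362724354036615976285449084976522776084377659444379699826830726937239975641520074407372980224 (by decide +kernel)
          (CovZ.n1 (-15360, 26304) (by decide +kernel)
           (CovZ.badM (by decide +kernel))
           (CovZ.n1 (-15456, 26400) (by decide +kernel)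
            (CovZ.n2 (-15360, 26400) (by decide +kernel)
             (CovZ.badM (by decide +kernel))
             (CovZ.n1 (-15408, 26448) (by decide +kernel)
              (CovZ.n2 (-15360, 26448) (by decide +kernel)
               (CovZ.badM (by decide +kernel))
               (CovZ.n1 (-15384, 26472) (by decide +kernel)
                (CovZ.leaf K2_ok TB_l45459 _)
                (CovZ.badM (by decide +kernel))))
              (CovZ.badM (by decide +kernel))))
            (CovZ.badM (by decide +kernel))))))
        (CovZ.n1 (-15552, 26688) (by decide +kernel)
         (CovZ.n2 (-15360, 26688) (by decide +kernel)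
          (CovZ.n2 (-15456, 26592) (by decide +kernel)
           (CovZ.n2 (-15456, 26688) (by decide +kernel)
            (CovZ.leaf K2_ok TB_l30740 _)
            (CovZ.leaf K2_ok TB_l30741 _))
           (CovZ.n1 (-15360, 26592) (by decide +kernel)
            (CovZ.n2 (-15408, 26544) (by decide +kernel)
             (CovZ.n2 (-15408, 26592) (by decide +kernel)
              (CovZ.leaf K2_ok TB_l30742 _)
              (CovZ.leaf K2_ok TB_l30743 _))
             (CovZ.leaf K2_ok TB_l30744 _))
            (CovZ.leaf K2_ok TB_l30745 _)))
          (CovZ.n1 (-15456, 26784) (by decide +kernel)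
           (CovZ.leaf K2_ok TB_l30746 _)
           (CovZ.n1 (-15456, 26688) (by decide +kernel)
            (CovZ.leaf K2_ok TB_l30747 _)
            (CovZ.leaf K2_ok TB_l30748 _))))
         (CovZ.n1 (-15552, 26496) (by decide +kernel)
          (CovZ.n2 (-15648, 26592) (by decide +kernel)
           (CovZ.leaf K2_ok TB_l30749 _)
           (CovZ.n1 (-15648, 26496) (by decide +kernel)
            (CovZ.leaf K2_ok TB_l30750 _)
            (CovZ.leaf K2_ok TB_l30751 _)))
          (CovZ.n1 (-15456, 26592) (by decide +kernel)
           (CovZ.n2 (-15456, 26496) (by decide +kernel)
            (CovZ.n2 (-15504, 26544) (by decide +kernel)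
             (CovZ.leaf K2_ok TB_l30752 _)
             (CovZ.n1 (-15504, 26496) (by decide +kernel)
              (CovZ.leaf K2_ok TB_l30753 _)
              (CovZ.leaf K2_ok TB_l30754 _)))
            (CovZ.n1 (-15408, 26544) (by decide +kernel)
             (CovZ.n2 (-15408, 26496) (by decide +kernel)
              (CovZ.leaf K2_ok TB_l30755 _)
              (CovZ.leaf K2_ok TB_l30756 _))
             (CovZ.leaf K2_ok TB_l30757 _)))
           (CovZ.n1 (-15552, 26592) (by decide +kernel)
            (CovZ.leaf K2_ok TB_l30758 _)
            (CovZ.n1 (-15504, 26544) (by decide +kernel)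
             (CovZ.leaf K2_ok TB_l30759 _)
             (CovZ.leaf K2_ok TB_l30760 _)))))))))
     (CovZ.n1 (-15744, 27264) (by decide +kernel)
      (CovZ.n2 (-15360, 27264) (by decide +kernel)
       (CovZ.n2 (-15552, 27072) (by decide +kernel)
        (CovZ.leaf K2_ok TB_l30761 _)
        (CovZ.leaf K2_ok TB_l30762 _))
       (CovZ.n1 (-15552, 27456) (by decide +kernel)
        (CovZ.leaf K2_ok TB_l30763 _)
        (CovZ.leaf K2_ok TB_l30764 _)))
      (CovZ.n1 (-15744, 26880) (by decide +kernel)
       (CovZ.n2 (-15936, 27072) (by decide +kernel)
        (CovZ.leaf K2_ok TB_l30765 _)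
        (CovZ.leaf K2_ok TB_l30766 _))
       (CovZ.n1 (-15552, 27072) (by decide +kernel)
        (CovZ.n2 (-15552, 26880) (by decide +kernel)
         (CovZ.leaf K2_ok TB_l30767 _)
         (CovZ.leaf K2_ok TB_l30768 _))
        (CovZ.leaf K2_ok TB_l30769 _)))))

theorem TB_u466 : CovZ TB_M (toL (selN TB_LN 726838724295649497672314647080906440271934055137225163209362074885150224921163385164021199187462915266693273172355649795228219046200321)) [0, 7, 6, 1] (-16128, 26880) (-16896, 26112) (-15360, 26112) :=
    (CovZ.n1 (-16128, 26112) (by decide +kernel)
     (CovZ.n2 (-16512, 26496) (by decide +kernel)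
      (CovZ.subM 42607122988434285297145513067205250976182003236535182901414239868729437797648720940232615416238877565533864266037970666497 (by decide +kernel)
       (CovZ.n2 (-16128, 26496) (by decide +kernel)
        (CovZ.n2 (-16320, 26304) (by decide +kernel)
         (CovZ.n2 (-16320, 26496) (by decide +kernel)
          (CovZ.n2 (-16224, 26400) (by decide +kernel)
           (CovZ.leaf K2_ok TB_l30770 _)
           (CovZ.n1 (-16224, 26496) (by decide +kernel)
            (CovZ.leaf K2_ok TB_l30771 _)
            (CovZ.leaf K2_ok TB_l30772 _)))
          (CovZ.n1 (-16416, 26400) (by decide +kernel)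
           (CovZ.leaf K2_ok TB_l30773 _)
           (CovZ.leaf K2_ok TB_l30774 _)))
         (CovZ.n1 (-16128, 26304) (by decide +kernel)
          (CovZ.n2 (-16224, 26208) (by decide +kernel)
           (CovZ.n2 (-16224, 26304) (by decide +kernel)
            (CovZ.n2 (-16176, 26256) (by decide +kernel)
             (CovZ.leaf K2_ok TB_l30775 _)
             (CovZ.leaf K2_ok TB_l30776 _))
            (CovZ.n1 (-16272, 26256) (by decide +kernel)
             (CovZ.leaf K2_ok TB_l30777 _)
             (CovZ.leaf K2_ok TB_l30778 _)))
           (CovZ.subM 42607122988433991729322666338051764791103610294226632564003986754708834700912743463246952380180844908638426096396631277569 (by decide +kernel)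
            (CovZ.n1 (-16128, 26208) (by decide +kernel)
             (CovZ.n2 (-16176, 26160) (by decide +kernel)
              (CovZ.n2 (-16176, 26208) (by decide +kernel)
               (CovZ.leaf K2_ok TB_l45460 _)
               (CovZ.leaf K2_ok TB_l30779 _))
              (CovZ.leaf K2_ok TB_l45461 _))
             (CovZ.n1 (-16176, 26256) (by decide +kernel)
              (CovZ.leaf K2_ok TB_l30780 _)
              (CovZ.n1 (-16176, 26208) (by decide +kernel)
               (CovZ.leaf K2_ok TB_l30781 _)
               (CovZ.leaf K2_ok TB_l30782 _))))))
          (CovZ.n1 (-16224, 26400) (by decide +kernel)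
           (CovZ.leaf K2_ok TB_l30783 _)
           (CovZ.n1 (-16224, 26304) (by decide +kernel)
            (CovZ.leaf K2_ok TB_l30784 _)
            (CovZ.leaf K2_ok TB_l30785 _)))))
        (CovZ.n1 (-16320, 26688) (by decide +kernel)
         (CovZ.leaf K2_ok TB_l30786 _)
         (CovZ.n1 (-16320, 26496) (by decide +kernel)
          (CovZ.leaf K2_ok TB_l30787 _)
          (CovZ.leaf K2_ok TB_l30788 _)))))
      (CovZ.n1 (-16512, 26112) (by decide +kernel)
       (CovZ.subM 42607122990838899334083071563540931396014168293435414073680425108086628203762694394751108230422589067380455195386818166785 (by decide +kernel)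
        (CovZ.n2 (-16704, 26304) (by decide +kernel)
         (CovZ.n2 (-16512, 26304) (by decide +kernel)
          (CovZ.n2 (-16608, 26208) (by decide +kernel)
           (CovZ.n2 (-16608, 26304) (by decide +kernel)
            (CovZ.leaf K2_ok TB_l30789 _)
            (CovZ.leaf K2_ok TB_l30790 _))
           (CovZ.leaf K2_ok TB_l30791 _))
          (CovZ.leaf K2_ok TB_l30792 _))
         (CovZ.n1 (-16704, 26112) (by decide +kernel)
          (CovZ.n2 (-16800, 26208) (by decide +kernel)
           (CovZ.leaf K2_ok TB_l30793 _)
           (CovZ.n1 (-16800, 26112) (by decide +kernel)
            (CovZ.leaf K2_ok TB_l30794 _)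
            (CovZ.leaf K2_ok TB_l30795 _)))
          (CovZ.n1 (-16608, 26208) (by decide +kernel)
           (CovZ.n2 (-16608, 26112) (by decide +kernel)
            (CovZ.leaf K2_ok TB_l30796 _)
            (CovZ.leaf K2_ok TB_l30797 _))
           (CovZ.leaf K2_ok TB_l30798 _)))))
       (CovZ.subM 42607122988433991729322666338051764791107404569406760941095626328745599386277279414104476090183444597256108066363035156481 (by decide +kernel)
        (CovZ.n1 (-16320, 26304) (by decide +kernel)
         (CovZ.n2 (-16320, 26112) (by decide +kernel)
          (CovZ.n2 (-16416, 26208) (by decide +kernel)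
           (CovZ.n2 (-16320, 26208) (by decide +kernel)
            (CovZ.n2 (-16368, 26160) (by decide +kernel)
             (CovZ.leaf K2_ok TB_l30799 _)
             (CovZ.leaf K2_ok TB_l30800 _))
            (CovZ.leaf K2_ok TB_l30801 _))
           (CovZ.n1 (-16416, 26112) (by decide +kernel)
            (CovZ.leaf K2_ok TB_l30802 _)
            (CovZ.n1 (-16368, 26160) (by decide +kernel)
             (CovZ.leaf K2_ok TB_l30803 _)
             (CovZ.leaf K2_ok TB_l30804 _))))
          (CovZ.n1 (-16224, 26208) (by decide +kernel)
           (CovZ.n2 (-16224, 26112) (by decide +kernel)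
            (CovZ.n2 (-16272, 26160) (by decide +kernel)
             (CovZ.leaf K2_ok TB_l30805 _)
             (CovZ.leaf K2_ok TB_l45462 _))
            (CovZ.n1 (-16176, 26160) (by decide +kernel)
             (CovZ.n2 (-16176, 26112) (by decide +kernel)
              (CovZ.leaf K2_ok TB_l45463 _)
              (CovZ.leaf K2_ok TB_l45464 _))
             (CovZ.leaf K2_ok TB_l30806 _)))
           (CovZ.n1 (-16320, 26208) (by decide +kernel)
            (CovZ.n2 (-16272, 26256) (by decide +kernel)
             (CovZ.leaf K2_ok TB_l30807 _)
             (CovZ.leaf K2_ok TB_l30808 _))
            (CovZ.n1 (-16272, 26160) (by decide +kernel)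
             (CovZ.leaf K2_ok TB_l30809 _)
             (CovZ.leaf K2_ok TB_l30810 _)))))
         (CovZ.n1 (-16512, 26304) (by decide +kernel)
          (CovZ.n2 (-16416, 26400) (by decide +kernel)
           (CovZ.n2 (-16416, 26304) (by decide +kernel)
            (CovZ.leaf K2_ok TB_l30811 _)
            (CovZ.leaf K2_ok TB_l30812 _))
           (CovZ.leaf K2_ok TB_l30813 _))
          (CovZ.n1 (-16416, 26208) (by decide +kernel)
           (CovZ.n2 (-16512, 26208) (by decide +kernel)
            (CovZ.leaf K2_ok TB_l30814 _)
            (CovZ.leaf K2_ok TB_l30815 _))
           (CovZ.n1 (-16416, 26304) (by decide +kernel)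
            (CovZ.leaf K2_ok TB_l30816 _)
            (CovZ.leaf K2_ok TB_l30817 _))))))))
     (CovZ.n1 (-15744, 26496) (by decide +kernel)
      (CovZ.subM 726838724295649497672312241879733857019979412452109167686059605941580383739726668925577327993177680670676671175447912361384912544137217 (by decide +kernel)
       (CovZ.n2 (-15744, 26112) (by decide +kernel)
        TB_u463
        TB_u464))
      (CovZ.n1 (-16128, 26496) (by decide +kernel)
       (CovZ.n2 (-15936, 26688) (by decide +kernel)
        (CovZ.subM 726838724295649497672312242173301679866708565938294242284726734363540702353266652763988699434703798176178760483826989431317769954066433 (by decide +kernel)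
         (CovZ.n2 (-15936, 26496) (by decide +kernel)
          (CovZ.n2 (-16032, 26592) (by decide +kernel)
           (CovZ.leaf K2_ok TB_l30835 _)
           (CovZ.leaf K2_ok TB_l30836 _))
          (CovZ.n1 (-15840, 26592) (by decide +kernel)
           (CovZ.n2 (-15840, 26496) (by decide +kernel)
            (CovZ.leaf K2_ok TB_l30837 _)
            (CovZ.leaf K2_ok TB_l30838 _))
           (CovZ.leaf K2_ok TB_l30839 _))))
        (CovZ.leaf K2_ok TB_l30840 _))
       (CovZ.subM 726838724295649497672312241879733857019979412452109167686059605941580383739726668925577327993177670036852704896120929130928430301380609 (by decide +kernel)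
        (CovZ.n1 (-15936, 26304) (by decide +kernel)
         (CovZ.n2 (-16128, 26304) (by decide +kernel)
          (CovZ.n2 (-16032, 26400) (by decide +kernel)
           (CovZ.n2 (-16032, 26304) (by decide +kernel)
            (CovZ.leaf K2_ok TB_l30841 _)
            (CovZ.n1 (-15984, 26352) (by decide +kernel)
             (CovZ.n2 (-15984, 26304) (by decide +kernel)
              (CovZ.leaf K2_ok TB_l30842 _)
              (CovZ.leaf K2_ok TB_l30843 _))
             (CovZ.leaf K2_ok TB_l30844 _)))
           (CovZ.leaf K2_ok TB_l30845 _))
          (CovZ.n1 (-16032, 26208) (by decide +kernel)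
           (CovZ.n2 (-16128, 26208) (by decide +kernel)
            (CovZ.n2 (-16080, 26256) (by decide +kernel)
             (CovZ.n2 (-16080, 26208) (by decide +kernel)
              (CovZ.leaf K2_ok TB_l30846 _)
              (CovZ.leaf K2_ok TB_l30847 _))
             (CovZ.leaf K2_ok TB_l30848 _))
            (CovZ.n1 (-16080, 26160) (by decide +kernel)
             (CovZ.n2 (-16128, 26160) (by decide +kernel)
              (CovZ.leaf K2_ok TB_l45555 _)
              (CovZ.leaf K2_ok TB_l45556 _))
             (CovZ.n1 (-16080, 26208) (by decide +kernel)
              (CovZ.leaf K2_ok TB_l45557 _)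
              (CovZ.leaf K2_ok TB_l45558 _))))
           (CovZ.n1 (-16032, 26304) (by decide +kernel)
            (CovZ.n2 (-15984, 26256) (by decide +kernel)
             (CovZ.n2 (-16032, 26256) (by decide +kernel)
              (CovZ.leaf K2_ok TB_l30849 _)
              (CovZ.leaf K2_ok TB_l45559 _))
             (CovZ.n1 (-15984, 26304) (by decide +kernel)
              (CovZ.leaf K2_ok TB_l30850 _)
              (CovZ.leaf K2_ok TB_l30851 _)))
            (CovZ.n1 (-16080, 26256) (by decide +kernel)
             (CovZ.n2 (-16080, 26304) (by decide +kernel)
              (CovZ.leaf K2_ok TB_l30852 _)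
              (CovZ.leaf K2_ok TB_l30853 _))
             (CovZ.n1 (-16032, 26256) (by decide +kernel)
              (CovZ.leaf K2_ok TB_l30854 _)
              (CovZ.leaf K2_ok TB_l30855 _))))))
         (CovZ.n1 (-15936, 26496) (by decide +kernel)
          (CovZ.n2 (-15840, 26400) (by decide +kernel)
           (CovZ.n2 (-15936, 26400) (by decide +kernel)
            (CovZ.leaf K2_ok TB_l30856 _)
            (CovZ.n1 (-15888, 26352) (by decide +kernel)
             (CovZ.leaf K2_ok TB_l30857 _)
             (CovZ.n1 (-15888, 26400) (by decide +kernel)
              (CovZ.leaf K2_ok TB_l30858 _)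
              (CovZ.leaf K2_ok TB_l30859 _))))
           (CovZ.n1 (-15840, 26496) (by decide +kernel)
            (CovZ.n2 (-15792, 26448) (by decide +kernel)
             (CovZ.leaf K2_ok TB_l30860 _)
             (CovZ.leaf K2_ok TB_l30861 _))
            (CovZ.leaf K2_ok TB_l30862 _)))
          (CovZ.n1 (-16032, 26400) (by decide +kernel)
           (CovZ.n2 (-16032, 26496) (by decide +kernel)
            (CovZ.leaf K2_ok TB_l30863 _)
            (CovZ.leaf K2_ok TB_l30864 _))
           (CovZ.n1 (-15936, 26400) (by decide +kernel)
            (CovZ.n2 (-15984, 26352) (by decide +kernel)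
             (CovZ.leaf K2_ok TB_l30865 _)
             (CovZ.leaf K2_ok TB_l30866 _))
            (CovZ.leaf K2_ok TB_l30867 _)))))))))

theorem TB_u467 : CovZ TB_M (toL (selN TB_LN 196256248024066104445037897242781727121170674792068762406077698147819128167180309133180851823009171294576543968665610081500299842682357423344640)) [0, 7, 6, 1] (-13824, 27648) (-14208, 27264) (-13824, 26880) :=
    (CovZ.n2 (-13824, 27264) (by decide +kernel)
       (CovZ.n2 (-14016, 27072) (by decide +kernel)
        (CovZ.n2 (-14016, 27264) (by decide +kernel)
         (CovZ.subM 381840762040830582917950687240485427300085666486686912432087450495875941288550546976791000115344859680561434357383817087203598331268858644480 (by decide +kernel)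
          (CovZ.n2 (-13920, 27168) (by decide +kernel)
           (CovZ.n2 (-14016, 27168) (by decide +kernel)
            (CovZ.leaf K2_ok TB_l35633 _)
            (CovZ.n1 (-13968, 27120) (by decide +kernel)
             (CovZ.leaf K2_ok TB_l35634 _)
             (CovZ.n1 (-13968, 27168) (by decide +kernel)
              (CovZ.leaf K2_ok TB_l35635 _)
              (CovZ.leaf K2_ok TB_l35636 _))))
           (CovZ.n1 (-13920, 27264) (by decide +kernel)
            (CovZ.n2 (-13872, 27216) (by decide +kernel)
             (CovZ.leaf K2_ok TB_l35637 _)
             (CovZ.leaf K2_ok TB_l35638 _))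
            (CovZ.leaf K2_ok TB_l35639 _))))
         (CovZ.subM 762168935076732951641718334060617414347798949577416624319912230090606329407757260597549394668892951405737627595692799920144844225971841140736 (by decide +kernel)
          (CovZ.n1 (-14112, 27168) (by decide +kernel)
           (CovZ.n2 (-14112, 27264) (by decide +kernel)
            (CovZ.leaf K2_ok TB_l35640 _)
            (CovZ.leaf K2_ok TB_l35641 _))
           (CovZ.n1 (-14016, 27168) (by decide +kernel)
            (CovZ.n2 (-14064, 27120) (by decide +kernel)
             (CovZ.leaf K2_ok TB_l35642 _)
             (CovZ.leaf K2_ok TB_l35643 _))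
            (CovZ.leaf K2_ok TB_l35644 _)))))
        (CovZ.subM 381840762040830582917950687240485427300085666486686912432087450495875941288550546976791000115344859680561434357383817087203598331268858644480 (by decide +kernel)
         (CovZ.n1 (-13824, 27072) (by decide +kernel)
          (CovZ.subM 364838969031193302482766052006283526032980136126251452021507678342183567622466572077817410044533743592424426689127258993876965026430976 (by decide +kernel)
           (CovZ.n2 (-13920, 26976) (by decide +kernel)
            (CovZ.n2 (-13920, 27072) (by decide +kernel)
             (CovZ.n2 (-13872, 27024) (by decide +kernel)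
              (CovZ.badM (by decide +kernel))
              (CovZ.n1 (-13872, 27072) (by decide +kernel)
               (CovZ.badM (by decide +kernel))
               (CovZ.badM (by decide +kernel))))
             (CovZ.subM 3794275293206589237456171130095725417791726641306518926717703310370089258809556992 (by decide +kernel)
              (CovZ.n1 (-13968, 27024) (by decide +kernel)
               (CovZ.n2 (-13968, 27072) (by decide +kernel)
                (CovZ.n2 (-13944, 27048) (by decide +kernel)
                 (CovZ.n2 (-13968, 27048) (by decide +kernel)
                  (CovZ.leaf K2_ok TB_l46976 _)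
                  (CovZ.badM (by decide +kernel)))
                 (CovZ.n1 (-13944, 27072) (by decide +kernel)
                  (CovZ.badM (by decide +kernel))
                  (CovZ.leaf K2_ok TB_l46977 _)))
                (CovZ.n1 (-13992, 27048) (by decide +kernel)
                 (CovZ.n2 (-13992, 27072) (by decide +kernel)
                  (CovZ.leaf K2_ok TB_l46978 _)
                  (CovZ.leaf K2_ok TB_l46979 _))
                 (CovZ.leaf K2_ok TB_l46980 _)))
               (CovZ.badM (by decide +kernel)))))
            (CovZ.n1 (-13824, 26976) (by decide +kernel)
             (CovZ.badM (by decide +kernel))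
             (CovZ.n1 (-13872, 27024) (by decide +kernel)
              (CovZ.badM (by decide +kernel))
              (CovZ.badM (by decide +kernel))))))
          (CovZ.n1 (-13920, 27168) (by decide +kernel)
           (CovZ.n2 (-13824, 27168) (by decide +kernel)
            (CovZ.n2 (-13872, 27120) (by decide +kernel)
             (CovZ.n2 (-13872, 27168) (by decide +kernel)
              (CovZ.n2 (-13848, 27144) (by decide +kernel)
               (CovZ.leaf K2_ok TB_l35645 _)
               (CovZ.leaf K2_ok TB_l35646 _))
              (CovZ.leaf K2_ok TB_l35647 _))
             (CovZ.subM 23623678146490613800061147143683840083245304066623878307738357622091435967703044958301528388290385793752842273849320436104063019384834048 (by decide +kernel)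
              (CovZ.n1 (-13824, 27120) (by decide +kernel)
               (CovZ.subM 364838969031193302482766052006283526032980136126748775257917351906126804054016299586877818648894527453084156744714973282362375316441088 (by decide +kernel)
                (CovZ.n2 (-13848, 27096) (by decide +kernel)
                 (CovZ.n2 (-13848, 27120) (by decide +kernel)
                  (CovZ.leaf K2_ok TB_l46981 _)
                  (CovZ.leaf K2_ok TB_l46982 _))
                 (CovZ.n1 (-13824, 27096) (by decide +kernel)
                  (CovZ.badM (by decide +kernel))
                  (CovZ.leaf K2_ok TB_l46983 _))))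
               (CovZ.leaf K2_ok TB_l35648 _))))
            (CovZ.n1 (-13872, 27216) (by decide +kernel)
             (CovZ.leaf K2_ok TB_l35649 _)
             (CovZ.n1 (-13872, 27168) (by decide +kernel)
              (CovZ.leaf K2_ok TB_l35650 _)
              (CovZ.leaf K2_ok TB_l35651 _))))
           (CovZ.subM 23623678146490613800061147143683840083245304066623878307738357622091435967703044958301528388290385793773611461283459599044232415025301504 (by decide +kernel)
            (CovZ.n1 (-13920, 27072) (by decide +kernel)
             (CovZ.n2 (-13968, 27120) (by decide +kernel)
              (CovZ.leaf K2_ok TB_l35652 _)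
              (CovZ.subM 497327030685079848744619704317950935825873944353347070064730742454192789402548351010816 (by decide +kernel)
               (CovZ.n1 (-13968, 27072) (by decide +kernel)
                (CovZ.leaf K2_ok TB_l46984 _)
                (CovZ.n1 (-13944, 27096) (by decide +kernel)
                 (CovZ.n2 (-13944, 27072) (by decide +kernel)
                  (CovZ.leaf K2_ok TB_l46985 _)
                  (CovZ.leaf K2_ok TB_l46986 _))
                 (CovZ.leaf K2_ok TB_l46987 _)))))
             (CovZ.n1 (-13872, 27120) (by decide +kernel)
              (CovZ.subM 364838969031193302482766052006283526032980136126748775257917351906126804054016299586877818648894527494622531612993594310606345950201856 (by decide +kernel)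
               (CovZ.n2 (-13872, 27072) (by decide +kernel)
                (CovZ.n2 (-13896, 27096) (by decide +kernel)
                 (CovZ.leaf K2_ok TB_l46988 _)
                 (CovZ.n1 (-13896, 27072) (by decide +kernel)
                  (CovZ.leaf K2_ok TB_l46989 _)
                  (CovZ.leaf K2_ok TB_l46990 _)))
                (CovZ.n1 (-13848, 27096) (by decide +kernel)
                 (CovZ.badM (by decide +kernel))
                 (CovZ.leaf K2_ok TB_l46991 _))))
              (CovZ.n1 (-13920, 27120) (by decide +kernel)
               (CovZ.leaf K2_ok TB_l35653 _)
               (CovZ.n1 (-13896, 27096) (by decide +kernel)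
                (CovZ.leaf K2_ok TB_l46992 _)
                (CovZ.n1 (-13896, 27120) (by decide +kernel)
                 (CovZ.leaf K2_ok TB_l46993 _)
                 (CovZ.leaf K2_ok TB_l46994 _)))))))))))
       (CovZ.n1 (-14016, 27456) (by decide +kernel)
        (CovZ.n2 (-13824, 27456) (by decide +kernel)
         (CovZ.n2 (-13920, 27360) (by decide +kernel)
          (CovZ.n2 (-13920, 27456) (by decide +kernel)
           (CovZ.leaf K2_ok TB_l35654 _)
           (CovZ.leaf K2_ok TB_l35655 _))
          (CovZ.n1 (-13824, 27360) (by decide +kernel)
           (CovZ.leaf K2_ok TB_l35656 _)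
           (CovZ.leaf K2_ok TB_l35657 _)))
         (CovZ.n1 (-13920, 27552) (by decide +kernel)
          (CovZ.n2 (-13824, 27552) (by decide +kernel)
           (CovZ.leaf K2_ok TB_l35658 _)
           (CovZ.n1 (-13872, 27600) (by decide +kernel)
            (CovZ.leaf K2_ok TB_l35659 _)
            (CovZ.leaf K2_ok TB_l35660 _)))
          (CovZ.n1 (-13920, 27456) (by decide +kernel)
           (CovZ.leaf K2_ok TB_l35661 _)
           (CovZ.leaf K2_ok TB_l35662 _))))
        (CovZ.n1 (-14016, 27264) (by decide +kernel)
         (CovZ.subM 762168935076732951641718334060617414347798949577416624319912230090606329407757260597549394668892951405737648364880234059455358347957158021120 (by decide +kernel)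
          (CovZ.n2 (-14112, 27360) (by decide +kernel)
           (CovZ.n2 (-14016, 27360) (by decide +kernel)
            (CovZ.leaf K2_ok TB_l35663 _)
            (CovZ.leaf K2_ok TB_l35664 _))
           (CovZ.n1 (-14112, 27264) (by decide +kernel)
            (CovZ.leaf K2_ok TB_l35665 _)
            (CovZ.leaf K2_ok TB_l35666 _))))
         (CovZ.n1 (-13920, 27360) (by decide +kernel)
          (CovZ.n2 (-13920, 27264) (by decide +kernel)
           (CovZ.leaf K2_ok TB_l35667 _)
           (CovZ.leaf K2_ok TB_l35668 _))
          (CovZ.n1 (-14016, 27360) (by decide +kernel)
           (CovZ.leaf K2_ok TB_l35669 _)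
           (CovZ.leaf K2_ok TB_l35670 _))))))

end Pool.Agent.TET
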