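import Pool.Agent.Helper38_TET.TB_M
import Pool.Agent.Helper38_TET.TB_L
import Pool.Agent.Helper38_TET.TB_7
import Pool.Agent.Helper38_TET.TB_8
import Pool.Agent.Helper38_TET.TB_9
import Pool.Agent.Helper38_TET.TB_43
import Pool.Agent.Helper38_TET.TB_47
import Pool.Agent.Helper38_TET.TB_48
import Pool.Agent.Helper38_TET.TB_49
import Pool.Agent.Helper38_TET.TB_248
import Pool.Agent.Helper38_TET.TB_249
import Pool.Agent.Helper38_TET.TB_250
import Pool.Agent.Helper38_TET.TB_256
import Pool.Agent.Helper38_TET.TB_257
import Pool.Agent.Helper38_TET.TB_323
import Pool.Agent.Helper38_TET.TB_U7

/-!
# MP_c7c9bf_co: certificates, family TB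
-/

set_option autoImplicit false
set_option maxRecDepth 100000

namespace Pool.Agent.TET

theorem TB_u118 : CovZ TB_M (toL (selN TB_LN 307828210105309724687083354212046285692538008111914290133922817980954203665151088609012791366354659178062918189056)) [0, 7, 6, 1] (-28224, 1920) (-28416, 1920) (-28224, 1728) :=
    (CovZ.n1 (-28320, 1824) (by decide +kernel)
            (CovZ.subM 36695977855841153353429674302840352545061402987940143052213126305983180593603959468990397595592187302641664 (by decide +kernel)
             (CovZ.n2 (-28320, 1920) (by decide +kernel)
              (CovZ.n2 (-28272, 1872) (by decide +kernel)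
               (CovZ.n2 (-28320, 1872) (by decide +kernel)
                (CovZ.subM 1018517988167243043134222845027441359186337217910452716596745477168558582698458284833112064 (by decide +kernel)
                 (CovZ.n2 (-28296, 1896) (by decide +kernel)
                  (CovZ.n2 (-28296, 1872) (by decide +kernel)
                   (CovZ.leaf K2_ok TB_l7230 _)
                   (CovZ.leaf K2_ok TB_l7231 _))
                  (CovZ.n1 (-28320, 1896) (by decide +kernel)
                   (CovZ.n2 (-28308, 1908) (by decide +kernel)
                    (CovZ.leaf K2_ok TB_l7232 _)
                    (CovZ.leaf K2_ok TB_l7233 _))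
                   (CovZ.leaf K2_ok TB_l7234 _))))
                (CovZ.n1 (-28296, 1848) (by decide +kernel)
                 (CovZ.leaf K2_ok TB_l7235 _)
                 (CovZ.n1 (-28296, 1872) (by decide +kernel)
                  (CovZ.leaf K2_ok TB_l7236 _)
                  (CovZ.leaf K2_ok TB_l7237 _))))
               (CovZ.subM 67108864 (by decide +kernel)
                (CovZ.n1 (-28272, 1920) (by decide +kernel)
                 (CovZ.n2 (-28248, 1896) (by decide +kernel)
                  (CovZ.n2 (-28272, 1896) (by decide +kernel)
                   (CovZ.leaf K2_ok TB_l7238 _)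
                   (CovZ.leaf K2_ok TB_l7239 _))
                  (CovZ.n1 (-28248, 1920) (by decide +kernel)
                   (CovZ.n2 (-28236, 1908) (by decide +kernel)
                    (CovZ.leaf K2_ok TB_l7240 _)
                    (CovZ.leaf K2_ok TB_l38544 _))
                   (CovZ.n1 (-28260, 1908) (by decide +kernel)
                    (CovZ.leaf K2_ok TB_l38545 _)
                    (CovZ.leaf K2_ok TB_l7241 _))))
                 (CovZ.n1 (-28296, 1896) (by decide +kernel)
                  (CovZ.n2 (-28296, 1920) (by decide +kernel)
                   (CovZ.n2 (-28284, 1908) (by decide +kernel)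
                    (CovZ.leaf K2_ok TB_l7242 _)
                    (CovZ.leaf K2_ok TB_l7243 _))
                   (CovZ.n1 (-28308, 1908) (by decide +kernel)
                    (CovZ.leaf K2_ok TB_l7244 _)
                    (CovZ.leaf K2_ok TB_l7245 _)))
                  (CovZ.n1 (-28272, 1896) (by decide +kernel)
                   (CovZ.leaf K2_ok TB_l7246 _)
                   (CovZ.n1 (-28284, 1908) (by decide +kernel)
                    (CovZ.leaf K2_ok TB_l7247 _)
                    (CovZ.leaf K2_ok TB_l7248 _)))))))
              (CovZ.n1 (-28368, 1872) (by decide +kernel)
               (CovZ.n2 (-28368, 1920) (by decide +kernel)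
                (CovZ.n2 (-28344, 1896) (by decide +kernel)
                 (CovZ.n2 (-28368, 1896) (by decide +kernel)
                  (CovZ.n2 (-28356, 1908) (by decide +kernel)
                   (CovZ.leaf K2_ok TB_l7249 _)
                   (CovZ.leaf K2_ok TB_l7250 _))
                  (CovZ.leaf K2_ok TB_l7251 _))
                 (CovZ.subM 822752278660603021077484591278675252491367932816789931741413376 (by decide +kernel)
                  (CovZ.n1 (-28344, 1920) (by decide +kernel)
                   (CovZ.n2 (-28332, 1908) (by decide +kernel)
                    (CovZ.leaf K2_ok TB_l7252 _)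
                    (CovZ.leaf K2_ok TB_l7253 _))
                   (CovZ.n1 (-28356, 1908) (by decide +kernel)
                    (CovZ.leaf K2_ok TB_l7254 _)
                    (CovZ.leaf K2_ok TB_l7255 _)))))
                (CovZ.n1 (-28392, 1896) (by decide +kernel)
                 (CovZ.n2 (-28392, 1920) (by decide +kernel)
                  (CovZ.leaf K2_ok TB_l7256 _)
                  (CovZ.n1 (-28404, 1908) (by decide +kernel)
                   (CovZ.leaf K2_ok TB_l7257 _)
                   (CovZ.leaf K2_ok TB_l7258 _)))
                 (CovZ.n1 (-28368, 1896) (by decide +kernel)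
                  (CovZ.leaf K2_ok TB_l7259 _)
                  (CovZ.leaf K2_ok TB_l7260 _))))
               (CovZ.n1 (-28320, 1872) (by decide +kernel)
                (CovZ.n2 (-28344, 1848) (by decide +kernel)
                 (CovZ.n2 (-28344, 1872) (by decide +kernel)
                  (CovZ.leaf K2_ok TB_l7261 _)
                  (CovZ.leaf K2_ok TB_l7262 _))
                 (CovZ.n1 (-28320, 1848) (by decide +kernel)
                  (CovZ.leaf K2_ok TB_l7263 _)
                  (CovZ.leaf K2_ok TB_l7264 _)))
                (CovZ.n1 (-28344, 1896) (by decide +kernel)
                 (CovZ.n2 (-28320, 1896) (by decide +kernel)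
                  (CovZ.leaf K2_ok TB_l7265 _)
                  (CovZ.n1 (-28332, 1908) (by decide +kernel)
                   (CovZ.leaf K2_ok TB_l7266 _)
                   (CovZ.leaf K2_ok TB_l7267 _)))
                 (CovZ.n1 (-28344, 1872) (by decide +kernel)
                  (CovZ.leaf K2_ok TB_l7268 _)
                  (CovZ.leaf K2_ok TB_l7269 _)))))))
            (CovZ.n1 (-28224, 1824) (by decide +kernel)
             (CovZ.n2 (-28272, 1776) (by decide +kernel)
              (CovZ.subM 36695977855841153352435027830020779260750638491646501372012214004388485158723031515204078601567120551575552 (by decide +kernel)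
               (CovZ.n2 (-28272, 1824) (by decide +kernel)
                (CovZ.n2 (-28248, 1800) (by decide +kernel)
                 (CovZ.leaf K2_ok TB_l7270 _)
                 (CovZ.n1 (-28248, 1824) (by decide +kernel)
                  (CovZ.leaf K2_ok TB_l7271 _)
                  (CovZ.leaf K2_ok TB_l7272 _)))
                (CovZ.n1 (-28296, 1800) (by decide +kernel)
                 (CovZ.n2 (-28296, 1824) (by decide +kernel)
                  (CovZ.leaf K2_ok TB_l7273 _)
                  (CovZ.leaf K2_ok TB_l7274 _))
                 (CovZ.leaf K2_ok TB_l7275 _))))
              (CovZ.n1 (-28224, 1776) (by decide +kernel)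
               (CovZ.n2 (-28248, 1752) (by decide +kernel)
                (CovZ.n2 (-28248, 1776) (by decide +kernel)
                 (CovZ.leaf K2_ok TB_l7276 _)
                 (CovZ.leaf K2_ok TB_l7277 _))
                (CovZ.leaf K2_ok TB_l7278 _))
               (CovZ.subM 36695977855841153352435027830020779260750638491646501372012214004388485158723031515204078601567120551575552 (by decide +kernel)
                (CovZ.n1 (-28248, 1800) (by decide +kernel)
                 (CovZ.leaf K2_ok TB_l7279 _)
                 (CovZ.n1 (-28248, 1776) (by decide +kernel)
                  (CovZ.n2 (-28260, 1788) (by decide +kernel)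
                   (CovZ.leaf K2_ok TB_l7280 _)
                   (CovZ.leaf K2_ok TB_l7281 _))
                  (CovZ.leaf K2_ok TB_l7282 _))))))
             (CovZ.subM 36695977855841153352435027830020779260750638491646501372012214004388485158723031515204078601567120551575552 (by decide +kernel)
              (CovZ.n1 (-28272, 1872) (by decide +kernel)
               (CovZ.n2 (-28224, 1872) (by decide +kernel)
                (CovZ.n2 (-28248, 1848) (by decide +kernel)
                 (CovZ.n2 (-28248, 1872) (by decide +kernel)
                  (CovZ.leaf K2_ok TB_l7283 _)
                  (CovZ.leaf K2_ok TB_l7284 _))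
                 (CovZ.n1 (-28224, 1848) (by decide +kernel)
                  (CovZ.leaf K2_ok TB_l7285 _)
                  (CovZ.leaf K2_ok TB_l7286 _)))
                (CovZ.n1 (-28248, 1896) (by decide +kernel)
                 (CovZ.n2 (-28224, 1896) (by decide +kernel)
                  (CovZ.n2 (-28236, 1884) (by decide +kernel)
                   (CovZ.leaf K2_ok TB_l7287 _)
                   (CovZ.leaf K2_ok TB_l7288 _))
                  (CovZ.n1 (-28236, 1908) (by decide +kernel)
                   (CovZ.leaf K2_ok TB_l38546 _)
                   (CovZ.leaf K2_ok TB_l7289 _)))
                 (CovZ.n1 (-28248, 1872) (by decide +kernel)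
                  (CovZ.leaf K2_ok TB_l7290 _)
                  (CovZ.leaf K2_ok TB_l7291 _))))
               (CovZ.n1 (-28272, 1824) (by decide +kernel)
                (CovZ.n2 (-28296, 1848) (by decide +kernel)
                 (CovZ.n2 (-28272, 1848) (by decide +kernel)
                  (CovZ.leaf K2_ok TB_l7292 _)
                  (CovZ.leaf K2_ok TB_l7293 _))
                 (CovZ.n1 (-28296, 1824) (by decide +kernel)
                  (CovZ.leaf K2_ok TB_l7294 _)
                  (CovZ.leaf K2_ok TB_l7295 _)))
                (CovZ.n1 (-28248, 1848) (by decide +kernel)
                 (CovZ.n2 (-28248, 1824) (by decide +kernel)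
                  (CovZ.leaf K2_ok TB_l7296 _)
                  (CovZ.leaf K2_ok TB_l7297 _))
                 (CovZ.n1 (-28272, 1848) (by decide +kernel)
                  (CovZ.n2 (-28260, 1860) (by decide +kernel)
                   (CovZ.leaf K2_ok TB_l7298 _)
                   (CovZ.leaf K2_ok TB_l7299 _))
                  (CovZ.leaf K2_ok TB_l7300 _))))))))

theorem TB_u119 : CovZ TB_M (toL (selN TB_LN 322786472687387189770558264163315199247170199174190029950476072374268409785608399096550609554734786665082365982558650370)) [0, 7, 6, 1] (-27648, 3072) (-28416, 2304) (-27648, 1536) :=
    (CovZ.subM 146783911423364576744087183772153137495290923804771006133460516927186301971618002785035715663981659079835648 (by decide +kernel)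
     (CovZ.n2 (-27648, 2304) (by decide +kernel)
      (CovZ.n2 (-28032, 1920) (by decide +kernel)
       (CovZ.n2 (-28032, 2304) (by decide +kernel)
        (CovZ.n2 (-27840, 2112) (by decide +kernel)
         (CovZ.badM (by decide +kernel))
         (CovZ.badM (by decide +kernel)))
        (CovZ.badM (by decide +kernel)))
       (CovZ.n1 (-27648, 1920) (by decide +kernel)
        (CovZ.n2 (-27840, 1728) (by decide +kernel)
         (CovZ.subM 146783911423364576743092537299333564210980159308376930729712446429252177600113071401865689199059852012290048 (by decide +kernel)
          (CovZ.n2 (-27840, 1920) (by decide +kernel)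
           (CovZ.n2 (-27744, 1824) (by decide +kernel)
            (CovZ.n2 (-27840, 1824) (by decide +kernel)
             (CovZ.badM (by decide +kernel))
             (CovZ.n1 (-27792, 1776) (by decide +kernel)
              (CovZ.n2 (-27840, 1776) (by decide +kernel)
               (CovZ.badM (by decide +kernel))
               (CovZ.n1 (-27816, 1752) (by decide +kernel)
                (CovZ.n2 (-27840, 1752) (by decide +kernel)
                 (CovZ.badM (by decide +kernel))
                 (CovZ.n1 (-27828, 1740) (by decide +kernel)
                  (CovZ.leaf K2_ok TB_l38488 _)
                  (CovZ.badM (by decide +kernel))))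
                (CovZ.badM (by decide +kernel))))
              (CovZ.badM (by decide +kernel))))
            (CovZ.badM (by decide +kernel)))
           (CovZ.n1 (-27936, 1824) (by decide +kernel)
            (CovZ.badM (by decide +kernel))
            (CovZ.n1 (-27840, 1824) (by decide +kernel)
             (CovZ.n2 (-27888, 1776) (by decide +kernel)
              (CovZ.badM (by decide +kernel))
              (CovZ.n1 (-27840, 1776) (by decide +kernel)
               (CovZ.n2 (-27864, 1752) (by decide +kernel)
                (CovZ.badM (by decide +kernel))
                (CovZ.n1 (-27840, 1752) (by decide +kernel)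
                 (CovZ.n2 (-27852, 1740) (by decide +kernel)
                  (CovZ.badM (by decide +kernel))
                  (CovZ.leaf K2_ok TB_l38489 _))
                 (CovZ.badM (by decide +kernel))))
               (CovZ.badM (by decide +kernel))))
             (CovZ.badM (by decide +kernel))))))
         TB_u108)
        (CovZ.n1 (-27840, 2112) (by decide +kernel)
         (CovZ.badM (by decide +kernel))
         (CovZ.n1 (-27840, 1920) (by decide +kernel)
          (CovZ.badM (by decide +kernel))
          (CovZ.badM (by decide +kernel))))))
      (CovZ.n1 (-28032, 2688) (by decide +kernel)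
       (CovZ.badM (by decide +kernel))
       (CovZ.n1 (-28032, 2304) (by decide +kernel)
        (CovZ.badM (by decide +kernel))
        (CovZ.badM (by decide +kernel))))))

theorem TB_u120 : CovZ TB_M (toL (selN TB_LN 322786472687387189770558264163315199247170199174190029950476072374268409785608399096550609554734786665082365982558650370)) [0, 7, 6, 1] (-28416, 2304) (-29184, 1536) (-27648, 1536) :=
    (CovZ.n1 (-28416, 1536) (by decide +kernel)
     (CovZ.subM 307865786786634106018729587890889757861712651842771638739598553639984683476772044834030639120014042634697012412418 (by decide +kernel)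
      (CovZ.n2 (-28800, 1920) (by decide +kernel)
       (CovZ.n2 (-28416, 1920) (by decide +kernel)
        (CovZ.n2 (-28608, 1728) (by decide +kernel)
         TB_u109
         TB_u110)
        (CovZ.subM 307865786786634106018729584906948442265402734721932326857778730888428221072708950359800889504341161310170843709440 (by decide +kernel)
         (CovZ.n1 (-28608, 2112) (by decide +kernel)
          (CovZ.subM 9166661893505187388208005598664954003392210792574197719141307274586083781751805109499592704 (by decide +kernel)
           (CovZ.n2 (-28416, 2112) (by decide +kernel)
            (CovZ.n2 (-28512, 2016) (by decide +kernel)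
             (CovZ.badM (by decide +kernel))
             (CovZ.n1 (-28416, 2016) (by decide +kernel)
              (CovZ.n2 (-28464, 1968) (by decide +kernel)
               (CovZ.n2 (-28464, 2016) (by decide +kernel)
                (CovZ.n2 (-28440, 1992) (by decide +kernel)
                 (CovZ.badM (by decide +kernel))
                 (CovZ.badM (by decide +kernel)))
                (CovZ.badM (by decide +kernel)))
               (CovZ.n1 (-28416, 1968) (by decide +kernel)
                (CovZ.n2 (-28440, 1944) (by decide +kernel)
                 (CovZ.n2 (-28440, 1968) (by decide +kernel)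
                  (CovZ.n2 (-28428, 1956) (by decide +kernel)
                   (CovZ.badM (by decide +kernel))
                   (CovZ.badM (by decide +kernel)))
                  (CovZ.badM (by decide +kernel)))
                 (CovZ.n1 (-28416, 1944) (by decide +kernel)
                  (CovZ.n2 (-28428, 1932) (by decide +kernel)
                   (CovZ.leaf K2_ok TB_l38519 _)
                   (CovZ.leaf K2_ok TB_l6550 _))
                  (CovZ.n1 (-28428, 1956) (by decide +kernel)
                   (CovZ.badM (by decide +kernel))
                   (CovZ.leaf K2_ok TB_l38520 _))))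
                (CovZ.n1 (-28440, 1992) (by decide +kernel)
                 (CovZ.badM (by decide +kernel))
                 (CovZ.n1 (-28440, 1968) (by decide +kernel)
                  (CovZ.badM (by decide +kernel))
                  (CovZ.badM (by decide +kernel))))))
              (CovZ.badM (by decide +kernel))))
            (CovZ.badM (by decide +kernel))))
          (CovZ.n1 (-28608, 1920) (by decide +kernel)
           (CovZ.badM (by decide +kernel))
           (CovZ.subM 36695977855841153352435027830020779260750638491646501372012214004388485158723031515204078601567120484466688 (by decide +kernel)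
            (CovZ.n1 (-28512, 2016) (by decide +kernel)
             (CovZ.n2 (-28512, 1920) (by decide +kernel)
              (CovZ.badM (by decide +kernel))
              (CovZ.n1 (-28464, 1968) (by decide +kernel)
               (CovZ.n2 (-28464, 1920) (by decide +kernel)
                (CovZ.badM (by decide +kernel))
                (CovZ.n1 (-28440, 1944) (by decide +kernel)
                 (CovZ.n2 (-28440, 1920) (by decide +kernel)
                  (CovZ.badM (by decide +kernel))
                  (CovZ.leaf K2_ok TB_l6551 _))
                 (CovZ.badM (by decide +kernel))))
               (CovZ.badM (by decide +kernel))))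
             (CovZ.badM (by decide +kernel))))))))
       (CovZ.n1 (-28800, 1536) (by decide +kernel)
        TB_u111
        TB_u112)))
     (CovZ.n1 (-28032, 1920) (by decide +kernel)
      (CovZ.n2 (-28032, 1536) (by decide +kernel)
       (CovZ.subM 322781542626650360341095915229964375180971085816304781875471259599762358923680673248809410992825713333418637552833789952 (by decide +kernel)
        (CovZ.n2 (-28224, 1728) (by decide +kernel)
         TB_u113
         TB_u114))
       (CovZ.subM 322786467877571693562420814686717001728680458038007449376301449114720109116783723054192584636644382138142529736086126592 (by decide +kernel)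
        (CovZ.n1 (-27840, 1728) (by decide +kernel)
         TB_u115
         TB_u116)))
      (CovZ.subM 322781542626650360341095915229964375180971085816304781875471259599762358923680673248809410992825713333418637552833789952 (by decide +kernel)
       (CovZ.n1 (-28416, 1920) (by decide +kernel)
        (CovZ.subM 9166661893505187388208005598665054437019976979466419091772078597248741419438916534051799040 (by decide +kernel)
         (CovZ.n2 (-28224, 2112) (by decide +kernel)
          (CovZ.n2 (-28224, 1920) (by decide +kernel)
           (CovZ.n2 (-28320, 2016) (by decide +kernel)
            (CovZ.badM (by decide +kernel))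
            (CovZ.n1 (-28320, 1920) (by decide +kernel)
             (CovZ.n2 (-28368, 1968) (by decide +kernel)
              (CovZ.badM (by decide +kernel))
              (CovZ.n1 (-28368, 1920) (by decide +kernel)
               (CovZ.n2 (-28392, 1944) (by decide +kernel)
                (CovZ.badM (by decide +kernel))
                (CovZ.n1 (-28392, 1920) (by decide +kernel)
                 (CovZ.n2 (-28404, 1932) (by decide +kernel)
                  (CovZ.leaf K2_ok TB_l7101 _)
                  (CovZ.leaf K2_ok TB_l7102 _))
                 (CovZ.leaf K2_ok TB_l7103 _)))
               (CovZ.badM (by decide +kernel))))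
             (CovZ.badM (by decide +kernel))))
           (CovZ.n1 (-28128, 2016) (by decide +kernel)
            (CovZ.n2 (-28128, 1920) (by decide +kernel)
             (CovZ.badM (by decide +kernel))
             (CovZ.badM (by decide +kernel)))
            (CovZ.badM (by decide +kernel))))
          (CovZ.n1 (-28416, 2112) (by decide +kernel)
           (CovZ.badM (by decide +kernel))
           (CovZ.n1 (-28320, 2016) (by decide +kernel)
            (CovZ.n2 (-28416, 2016) (by decide +kernel)
             (CovZ.badM (by decide +kernel))
             (CovZ.n1 (-28368, 1968) (by decide +kernel)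
              (CovZ.n2 (-28416, 1968) (by decide +kernel)
               (CovZ.badM (by decide +kernel))
               (CovZ.n1 (-28392, 1944) (by decide +kernel)
                (CovZ.n2 (-28416, 1944) (by decide +kernel)
                 (CovZ.badM (by decide +kernel))
                 (CovZ.n1 (-28404, 1932) (by decide +kernel)
                  (CovZ.leaf K2_ok TB_l7115 _)
                  (CovZ.leaf K2_ok TB_l38531 _)))
                (CovZ.badM (by decide +kernel))))
              (CovZ.badM (by decide +kernel))))
            (CovZ.badM (by decide +kernel))))))
        (CovZ.n1 (-28224, 1728) (by decide +kernel)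
         (CovZ.n2 (-28416, 1728) (by decide +kernel)
          (CovZ.subM 307865786786634106018729585901594915084976019032696823151420506870311826788180291572785547892691128365886876942336 (by decide +kernel)
           (CovZ.n2 (-28320, 1824) (by decide +kernel)
            (CovZ.n2 (-28320, 1728) (by decide +kernel)
             (CovZ.n2 (-28368, 1776) (by decide +kernel)
              (CovZ.n2 (-28320, 1776) (by decide +kernel)
               (CovZ.n2 (-28344, 1752) (by decide +kernel)
                (CovZ.leaf K2_ok TB_l7116 _)
                (CovZ.leaf K2_ok TB_l7117 _))
               (CovZ.n1 (-28344, 1800) (by decide +kernel)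
                (CovZ.leaf K2_ok TB_l7118 _)
                (CovZ.n1 (-28344, 1776) (by decide +kernel)
                 (CovZ.leaf K2_ok TB_l7119 _)
                 (CovZ.leaf K2_ok TB_l7120 _))))
              (CovZ.n1 (-28368, 1728) (by decide +kernel)
               (CovZ.n2 (-28392, 1752) (by decide +kernel)
                (CovZ.leaf K2_ok TB_l7121 _)
                (CovZ.leaf K2_ok TB_l7122 _))
               (CovZ.n1 (-28344, 1752) (by decide +kernel)
                (CovZ.leaf K2_ok TB_l7123 _)
                (CovZ.leaf K2_ok TB_l7124 _))))
             (CovZ.n1 (-28272, 1776) (by decide +kernel)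
              (CovZ.n2 (-28272, 1728) (by decide +kernel)
               (CovZ.n2 (-28296, 1752) (by decide +kernel)
                (CovZ.leaf K2_ok TB_l7125 _)
                (CovZ.leaf K2_ok TB_l7126 _))
               (CovZ.n1 (-28248, 1752) (by decide +kernel)
                (CovZ.leaf K2_ok TB_l7127 _)
                (CovZ.leaf K2_ok TB_l7128 _)))
              (CovZ.n1 (-28320, 1776) (by decide +kernel)
               (CovZ.n2 (-28296, 1800) (by decide +kernel)
                (CovZ.leaf K2_ok TB_l7129 _)
                (CovZ.leaf K2_ok TB_l7130 _))
               (CovZ.n1 (-28296, 1752) (by decide +kernel)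
                (CovZ.leaf K2_ok TB_l7131 _)
                (CovZ.leaf K2_ok TB_l7132 _)))))
            (CovZ.n1 (-28416, 1824) (by decide +kernel)
             (CovZ.subM 36695977855841153353429674302840352545061402987940143052213126305983180593603959468990397595592187302641664 (by decide +kernel)
              (CovZ.n2 (-28368, 1872) (by decide +kernel)
               (CovZ.n2 (-28368, 1824) (by decide +kernel)
                (CovZ.n2 (-28392, 1848) (by decide +kernel)
                 (CovZ.n2 (-28368, 1848) (by decide +kernel)
                  (CovZ.leaf K2_ok TB_l7133 _)
                  (CovZ.leaf K2_ok TB_l7134 _))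
                 (CovZ.leaf K2_ok TB_l7135 _))
                (CovZ.n1 (-28344, 1848) (by decide +kernel)
                 (CovZ.leaf K2_ok TB_l7136 _)
                 (CovZ.leaf K2_ok TB_l7137 _)))
               (CovZ.n1 (-28416, 1872) (by decide +kernel)
                (CovZ.n2 (-28392, 1896) (by decide +kernel)
                 (CovZ.n2 (-28392, 1872) (by decide +kernel)
                  (CovZ.leaf K2_ok TB_l7138 _)
                  (CovZ.leaf K2_ok TB_l7139 _))
                 (CovZ.n1 (-28416, 1896) (by decide +kernel)
                  (CovZ.leaf K2_ok TB_l7140 _)
                  (CovZ.leaf K2_ok TB_l7141 _)))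
                (CovZ.n1 (-28392, 1848) (by decide +kernel)
                 (CovZ.leaf K2_ok TB_l7142 _)
                 (CovZ.n1 (-28392, 1872) (by decide +kernel)
                  (CovZ.leaf K2_ok TB_l7143 _)
                  (CovZ.leaf K2_ok TB_l7144 _))))))
             (CovZ.n1 (-28368, 1776) (by decide +kernel)
              (CovZ.n2 (-28416, 1776) (by decide +kernel)
               (CovZ.n2 (-28392, 1800) (by decide +kernel)
                (CovZ.leaf K2_ok TB_l7145 _)
                (CovZ.leaf K2_ok TB_l7146 _))
               (CovZ.n1 (-28392, 1752) (by decide +kernel)
                (CovZ.leaf K2_ok TB_l7147 _)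
                (CovZ.leaf K2_ok TB_l7148 _)))
              (CovZ.n1 (-28368, 1824) (by decide +kernel)
               (CovZ.n2 (-28344, 1800) (by decide +kernel)
                (CovZ.leaf K2_ok TB_l7149 _)
                (CovZ.n1 (-28344, 1824) (by decide +kernel)
                 (CovZ.leaf K2_ok TB_l7150 _)
                 (CovZ.leaf K2_ok TB_l7151 _)))
               (CovZ.n1 (-28392, 1800) (by decide +kernel)
                (CovZ.leaf K2_ok TB_l7152 _)
                (CovZ.leaf K2_ok TB_l7153 _)))))))
          (CovZ.n1 (-28320, 1632) (by decide +kernel)
           (CovZ.n2 (-28416, 1632) (by decide +kernel)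
            (CovZ.n2 (-28368, 1680) (by decide +kernel)
             (CovZ.n2 (-28368, 1632) (by decide +kernel)
              (CovZ.leaf K2_ok TB_l7154 _)
              (CovZ.leaf K2_ok TB_l7155 _))
             (CovZ.n1 (-28416, 1680) (by decide +kernel)
              (CovZ.leaf K2_ok TB_l7156 _)
              (CovZ.leaf K2_ok TB_l7157 _)))
            (CovZ.n1 (-28368, 1584) (by decide +kernel)
             (CovZ.n2 (-28416, 1584) (by decide +kernel)
              (CovZ.leaf K2_ok TB_l7158 _)
              (CovZ.leaf K2_ok TB_l7159 _))
             (CovZ.n1 (-28368, 1632) (by decide +kernel)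
              (CovZ.leaf K2_ok TB_l7160 _)
              (CovZ.leaf K2_ok TB_l7161 _))))
           (CovZ.n1 (-28320, 1728) (by decide +kernel)
            (CovZ.n2 (-28272, 1680) (by decide +kernel)
             (CovZ.n2 (-28320, 1680) (by decide +kernel)
              (CovZ.n2 (-28296, 1704) (by decide +kernel)
               (CovZ.leaf K2_ok TB_l7162 _)
               (CovZ.leaf K2_ok TB_l7163 _))
              (CovZ.leaf K2_ok TB_l7164 _))
             (CovZ.n1 (-28272, 1728) (by decide +kernel)
              (CovZ.n2 (-28248, 1704) (by decide +kernel)
               (CovZ.leaf K2_ok TB_l7165 _)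
               (CovZ.leaf K2_ok TB_l7166 _))
              (CovZ.leaf K2_ok TB_l7167 _)))
            (CovZ.n1 (-28368, 1680) (by decide +kernel)
             (CovZ.n2 (-28368, 1728) (by decide +kernel)
              (CovZ.n2 (-28344, 1704) (by decide +kernel)
               (CovZ.leaf K2_ok TB_l7168 _)
               (CovZ.leaf K2_ok TB_l7169 _))
              (CovZ.leaf K2_ok TB_l7170 _))
             (CovZ.n1 (-28320, 1680) (by decide +kernel)
              (CovZ.leaf K2_ok TB_l7171 _)
              (CovZ.leaf K2_ok TB_l7172 _))))))
         (CovZ.subM 307828210105309724687083354212046285692538008111914290133922817980954203665151088609012791366354659178062918189056 (by decide +kernel)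
          (CovZ.n1 (-28224, 1920) (by decide +kernel)
           TB_u117
           TB_u118)))))))

theorem TB_u121 : CovZ TB_M (toL (selN TB_LN 307865750090656250177576235455861927840933391092133147093097181627770679088286886112266774516163670469073164042242)) [0, 7, 6, 1] (-29184, 2304) (-29184, 1920) (-28800, 1920) :=
    (CovZ.subM 1989292945639146568621528995801159664426990588713160332950252298922520721005973554069506 (by decide +kernel)
         (CovZ.n2 (-28992, 2112) (by decide +kernel)
          (CovZ.n2 (-28992, 1920) (by decide +kernel)
           (CovZ.n2 (-29088, 2016) (by decide +kernel)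
            (CovZ.n2 (-28992, 2016) (by decide +kernel)
             (CovZ.n2 (-29040, 1968) (by decide +kernel)
              (CovZ.subM 1989292945639146568621528995801159448919805154273315054444181112617043975615719172734976 (by decide +kernel)
               (CovZ.n2 (-29040, 2016) (by decide +kernel)
                (CovZ.n2 (-29016, 1992) (by decide +kernel)
                 (CovZ.n2 (-29040, 1992) (by decide +kernel)
                  (CovZ.badM (by decide +kernel))
                  (CovZ.leaf K2_ok TB_l7302 _))
                 (CovZ.badM (by decide +kernel)))
                (CovZ.n1 (-29064, 1992) (by decide +kernel)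
                 (CovZ.n2 (-29064, 2016) (by decide +kernel)
                  (CovZ.leaf K2_ok TB_l7305 _)
                  (CovZ.leaf K2_ok TB_l7306 _))
                 (CovZ.n1 (-29040, 1992) (by decide +kernel)
                  (CovZ.leaf K2_ok TB_l7307 _)
                  (CovZ.leaf K2_ok TB_l7308 _)))))
              (CovZ.n1 (-28992, 1968) (by decide +kernel)
               (CovZ.n2 (-29016, 1944) (by decide +kernel)
                (CovZ.n2 (-29016, 1968) (by decide +kernel)
                 (CovZ.leaf K2_ok TB_l7309 _)
                 (CovZ.leaf K2_ok TB_l7310 _))
                (CovZ.leaf K2_ok TB_l7311 _))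
               (CovZ.n1 (-29016, 1992) (by decide +kernel)
                (CovZ.badM (by decide +kernel))
                (CovZ.n1 (-29016, 1968) (by decide +kernel)
                 (CovZ.leaf K2_ok TB_l7314 _)
                 (CovZ.leaf K2_ok TB_l7315 _)))))
             (CovZ.badM (by decide +kernel)))
            (CovZ.n1 (-29088, 1920) (by decide +kernel)
             (CovZ.n2 (-29136, 1968) (by decide +kernel)
              (CovZ.n2 (-29088, 1968) (by decide +kernel)
               (CovZ.n2 (-29112, 1944) (by decide +kernel)
                (CovZ.n2 (-29112, 1968) (by decide +kernel)
                 (CovZ.leaf K2_ok TB_l7323 _)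
                 (CovZ.leaf K2_ok TB_l7324 _))
                (CovZ.leaf K2_ok TB_l7325 _))
               (CovZ.n1 (-29112, 1992) (by decide +kernel)
                (CovZ.n2 (-29088, 1992) (by decide +kernel)
                 (CovZ.leaf K2_ok TB_l7326 _)
                 (CovZ.leaf K2_ok TB_l7327 _))
                (CovZ.n1 (-29112, 1968) (by decide +kernel)
                 (CovZ.leaf K2_ok TB_l7328 _)
                 (CovZ.leaf K2_ok TB_l7329 _))))
              (CovZ.n1 (-29136, 1920) (by decide +kernel)
               (CovZ.n2 (-29160, 1944) (by decide +kernel)
                (CovZ.leaf K2_ok TB_l7330 _)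
                (CovZ.n1 (-29160, 1920) (by decide +kernel)
                 (CovZ.leaf K2_ok TB_l7331 _)
                 (CovZ.leaf K2_ok TB_l7332 _)))
               (CovZ.n1 (-29112, 1944) (by decide +kernel)
                (CovZ.n2 (-29112, 1920) (by decide +kernel)
                 (CovZ.leaf K2_ok TB_l7333 _)
                 (CovZ.leaf K2_ok TB_l7334 _))
                (CovZ.leaf K2_ok TB_l7335 _))))
             (CovZ.n1 (-29040, 1968) (by decide +kernel)
              (CovZ.n2 (-29040, 1920) (by decide +kernel)
               (CovZ.n2 (-29064, 1944) (by decide +kernel)
                (CovZ.leaf K2_ok TB_l7336 _)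
                (CovZ.leaf K2_ok TB_l7337 _))
               (CovZ.n1 (-29016, 1944) (by decide +kernel)
                (CovZ.leaf K2_ok TB_l7338 _)
                (CovZ.leaf K2_ok TB_l7339 _)))
              (CovZ.n1 (-29088, 1968) (by decide +kernel)
               (CovZ.n2 (-29064, 1992) (by decide +kernel)
                (CovZ.n2 (-29064, 1968) (by decide +kernel)
                 (CovZ.leaf K2_ok TB_l7340 _)
                 (CovZ.leaf K2_ok TB_l7341 _))
                (CovZ.leaf K2_ok TB_l7342 _))
               (CovZ.n1 (-29064, 1944) (by decide +kernel)
                (CovZ.leaf K2_ok TB_l7343 _)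
                (CovZ.n1 (-29064, 1968) (by decide +kernel)
                 (CovZ.leaf K2_ok TB_l7344 _)
                 (CovZ.leaf K2_ok TB_l7345 _)))))))
           (CovZ.n1 (-28896, 2016) (by decide +kernel)
            (CovZ.n2 (-28896, 1920) (by decide +kernel)
             (CovZ.n2 (-28944, 1968) (by decide +kernel)
              (CovZ.badM (by decide +kernel))
              (CovZ.n1 (-28944, 1920) (by decide +kernel)
               (CovZ.n2 (-28968, 1944) (by decide +kernel)
                (CovZ.leaf K2_ok TB_l7348 _)
                (CovZ.leaf K2_ok TB_l7349 _))
               (CovZ.subM 1989292945639146568621528995801159448919805154273315054444181112617043975615719172734976 (by decide +kernel)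
                (CovZ.n1 (-28920, 1944) (by decide +kernel)
                 (CovZ.n2 (-28920, 1920) (by decide +kernel)
                  (CovZ.leaf K2_ok TB_l7350 _)
                  (CovZ.badM (by decide +kernel)))
                 (CovZ.n1 (-28944, 1944) (by decide +kernel)
                  (CovZ.badM (by decide +kernel))
                  (CovZ.leaf K2_ok TB_l7352 _))))))
             (CovZ.badM (by decide +kernel)))
            (CovZ.n1 (-28992, 2016) (by decide +kernel)
             (CovZ.badM (by decide +kernel))
             (CovZ.n1 (-28944, 1968) (by decide +kernel)
              (CovZ.n2 (-28992, 1968) (by decide +kernel)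
               (CovZ.badM (by decide +kernel))
               (CovZ.n1 (-28968, 1944) (by decide +kernel)
                (CovZ.leaf K2_ok TB_l7362 _)
                (CovZ.n1 (-28968, 1968) (by decide +kernel)
                 (CovZ.leaf K2_ok TB_l7363 _)
                 (CovZ.leaf K2_ok TB_l7364 _))))
              (CovZ.badM (by decide +kernel))))))
          (CovZ.n1 (-29184, 2112) (by decide +kernel)
           (CovZ.badM (by decide +kernel))
           (CovZ.n1 (-29088, 2016) (by decide +kernel)
            (CovZ.n2 (-29184, 2016) (by decide +kernel)
             (CovZ.subM 3213876280079923159320031479475703598833053939907975943553024 (by decide +kernel)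
              (CovZ.n2 (-29136, 2064) (by decide +kernel)
               (CovZ.n2 (-29136, 2016) (by decide +kernel)
                (CovZ.n2 (-29160, 2040) (by decide +kernel)
                 (CovZ.n2 (-29136, 2040) (by decide +kernel)
                  (CovZ.leaf K2_ok TB_l7372 _)
                  (CovZ.leaf K2_ok TB_l38547 _))
                 (CovZ.n1 (-29160, 2016) (by decide +kernel)
                  (CovZ.leaf K2_ok TB_l7373 _)
                  (CovZ.leaf K2_ok TB_l7374 _)))
                (CovZ.n1 (-29112, 2040) (by decide +kernel)
                 (CovZ.n2 (-29112, 2016) (by decide +kernel)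
                  (CovZ.leaf K2_ok TB_l7375 _)
                  (CovZ.leaf K2_ok TB_l7376 _))
                 (CovZ.n1 (-29136, 2040) (by decide +kernel)
                  (CovZ.badM (by decide +kernel))
                  (CovZ.leaf K2_ok TB_l7377 _))))
               (CovZ.n1 (-29184, 2064) (by decide +kernel)
                (CovZ.n2 (-29160, 2088) (by decide +kernel)
                 (CovZ.n2 (-29160, 2064) (by decide +kernel)
                  (CovZ.n2 (-29172, 2076) (by decide +kernel)
                   (CovZ.badM (by decide +kernel))
                   (CovZ.leaf K2_ok TB_l38548 _))
                  (CovZ.badM (by decide +kernel)))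
                 (CovZ.badM (by decide +kernel)))
                (CovZ.n1 (-29160, 2040) (by decide +kernel)
                 (CovZ.n2 (-29184, 2040) (by decide +kernel)
                  (CovZ.n2 (-29172, 2052) (by decide +kernel)
                   (CovZ.leaf K2_ok TB_l38549 _)
                   (CovZ.leaf K2_ok TB_l38550 _))
                  (CovZ.leaf K2_ok TB_l7378 _))
                 (CovZ.n1 (-29160, 2064) (by decide +kernel)
                  (CovZ.n2 (-29148, 2052) (by decide +kernel)
                   (CovZ.leaf K2_ok TB_l38551 _)
                   (CovZ.badM (by decide +kernel)))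
                  (CovZ.n1 (-29172, 2052) (by decide +kernel)
                   (CovZ.leaf K2_ok TB_l38552 _)
                   (CovZ.leaf K2_ok TB_l38553 _)))))))
             (CovZ.n1 (-29136, 1968) (by decide +kernel)
              (CovZ.n2 (-29184, 1968) (by decide +kernel)
               (CovZ.n2 (-29160, 1992) (by decide +kernel)
                (CovZ.n2 (-29160, 1968) (by decide +kernel)
                 (CovZ.leaf K2_ok TB_l7379 _)
                 (CovZ.leaf K2_ok TB_l7380 _))
                (CovZ.n1 (-29184, 1992) (by decide +kernel)
                 (CovZ.leaf K2_ok TB_l7381 _)
                 (CovZ.leaf K2_ok TB_l7382 _)))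
               (CovZ.n1 (-29160, 1944) (by decide +kernel)
                (CovZ.leaf K2_ok TB_l7383 _)
                (CovZ.n1 (-29160, 1968) (by decide +kernel)
                 (CovZ.leaf K2_ok TB_l7384 _)
                 (CovZ.leaf K2_ok TB_l7385 _))))
              (CovZ.n1 (-29136, 2016) (by decide +kernel)
               (CovZ.n2 (-29112, 1992) (by decide +kernel)
                (CovZ.leaf K2_ok TB_l7386 _)
                (CovZ.n1 (-29112, 2016) (by decide +kernel)
                 (CovZ.leaf K2_ok TB_l7387 _)
                 (CovZ.leaf K2_ok TB_l7388 _)))
               (CovZ.n1 (-29160, 1992) (by decide +kernel)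
                (CovZ.n2 (-29160, 2016) (by decide +kernel)
                 (CovZ.leaf K2_ok TB_l7389 _)
                 (CovZ.leaf K2_ok TB_l7390 _))
                (CovZ.n1 (-29136, 1992) (by decide +kernel)
                 (CovZ.leaf K2_ok TB_l7391 _)
                 (CovZ.leaf K2_ok TB_l7392 _))))))
            (CovZ.badM (by decide +kernel))))))

theorem TB_u122 : CovZ TB_M (toL (selN TB_LN 307865750090656250177576235455861927840933391092133147093097181627770679088286886112266774516163670469073164042242)) [0, 7, 6, 1] (-29184, 1920) (-29184, 1536) (-28800, 1920) :=
    (CovZ.n1 (-28992, 1728) (by decide +kernel)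
         (CovZ.n2 (-29184, 1728) (by decide +kernel)
          (CovZ.n2 (-29088, 1824) (by decide +kernel)
           (CovZ.n2 (-29088, 1728) (by decide +kernel)
            (CovZ.n2 (-29136, 1776) (by decide +kernel)
             (CovZ.n2 (-29088, 1776) (by decide +kernel)
              (CovZ.leaf K2_ok TB_l7395 _)
              (CovZ.leaf K2_ok TB_l7396 _))
             (CovZ.n1 (-29136, 1728) (by decide +kernel)
              (CovZ.leaf K2_ok TB_l7397 _)
              (CovZ.leaf K2_ok TB_l7398 _)))
            (CovZ.n1 (-29040, 1776) (by decide +kernel)
             (CovZ.n2 (-29040, 1728) (by decide +kernel)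
              (CovZ.leaf K2_ok TB_l7399 _)
              (CovZ.leaf K2_ok TB_l7400 _))
             (CovZ.n1 (-29088, 1776) (by decide +kernel)
              (CovZ.leaf K2_ok TB_l7401 _)
              (CovZ.leaf K2_ok TB_l7402 _))))
           (CovZ.n1 (-29184, 1824) (by decide +kernel)
            (CovZ.subM 2983939418458719852932293492094801440408874194425909415227869449603163691202235441610754 (by decide +kernel)
             (CovZ.n2 (-29136, 1872) (by decide +kernel)
              (CovZ.n2 (-29136, 1824) (by decide +kernel)
               (CovZ.n2 (-29160, 1848) (by decide +kernel)
                (CovZ.leaf K2_ok TB_l7403 _)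
                (CovZ.leaf K2_ok TB_l7404 _))
               (CovZ.leaf K2_ok TB_l7405 _))
              (CovZ.n1 (-29184, 1872) (by decide +kernel)
               (CovZ.n2 (-29160, 1896) (by decide +kernel)
                (CovZ.leaf K2_ok TB_l7406 _)
                (CovZ.leaf K2_ok TB_l7407 _))
               (CovZ.n1 (-29160, 1848) (by decide +kernel)
                (CovZ.leaf K2_ok TB_l7408 _)
                (CovZ.leaf K2_ok TB_l7409 _)))))
            (CovZ.n1 (-29136, 1776) (by decide +kernel)
             (CovZ.n2 (-29184, 1776) (by decide +kernel)
              (CovZ.leaf K2_ok TB_l7410 _)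
              (CovZ.leaf K2_ok TB_l7411 _))
             (CovZ.n1 (-29136, 1824) (by decide +kernel)
              (CovZ.leaf K2_ok TB_l7412 _)
              (CovZ.leaf K2_ok TB_l7413 _)))))
          (CovZ.n1 (-29088, 1632) (by decide +kernel)
           (CovZ.n2 (-29184, 1632) (by decide +kernel)
            (CovZ.n2 (-29136, 1680) (by decide +kernel)
             (CovZ.n2 (-29136, 1632) (by decide +kernel)
              (CovZ.leaf K2_ok TB_l7414 _)
              (CovZ.leaf K2_ok TB_l7415 _))
             (CovZ.leaf K2_ok TB_l7416 _))
            (CovZ.n1 (-29136, 1584) (by decide +kernel)
             (CovZ.leaf K2_ok TB_l7417 _)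
             (CovZ.n1 (-29136, 1632) (by decide +kernel)
              (CovZ.leaf K2_ok TB_l7418 _)
              (CovZ.leaf K2_ok TB_l7419 _))))
           (CovZ.n1 (-29088, 1728) (by decide +kernel)
            (CovZ.n2 (-29040, 1680) (by decide +kernel)
             (CovZ.n2 (-29088, 1680) (by decide +kernel)
              (CovZ.leaf K2_ok TB_l7420 _)
              (CovZ.leaf K2_ok TB_l7421 _))
             (CovZ.n1 (-29040, 1728) (by decide +kernel)
              (CovZ.leaf K2_ok TB_l7422 _)
              (CovZ.leaf K2_ok TB_l7423 _)))
            (CovZ.n1 (-29136, 1680) (by decide +kernel)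
             (CovZ.n2 (-29136, 1728) (by decide +kernel)
              (CovZ.leaf K2_ok TB_l7424 _)
              (CovZ.leaf K2_ok TB_l7425 _))
             (CovZ.leaf K2_ok TB_l7426 _)))))
         (CovZ.n1 (-28992, 1920) (by decide +kernel)
          (CovZ.subM 37576681324381331646234673488047851157863853076025212732757064418709598808936034811883201597045355872773996544 (by decide +kernel)
           (CovZ.n2 (-28896, 1824) (by decide +kernel)
            (CovZ.n2 (-28992, 1824) (by decide +kernel)
             (CovZ.n2 (-28944, 1872) (by decide +kernel)
              (CovZ.n2 (-28944, 1824) (by decide +kernel)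
               (CovZ.n2 (-28968, 1848) (by decide +kernel)
                (CovZ.leaf K2_ok TB_l7427 _)
                (CovZ.leaf K2_ok TB_l7428 _))
               (CovZ.n1 (-28920, 1848) (by decide +kernel)
                (CovZ.n2 (-28920, 1824) (by decide +kernel)
                 (CovZ.leaf K2_ok TB_l7429 _)
                 (CovZ.leaf K2_ok TB_l7430 _))
                (CovZ.leaf K2_ok TB_l7431 _)))
              (CovZ.n1 (-28992, 1872) (by decide +kernel)
               (CovZ.n2 (-28968, 1896) (by decide +kernel)
                (CovZ.n2 (-28968, 1872) (by decide +kernel)
                 (CovZ.leaf K2_ok TB_l7432 _)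
                 (CovZ.leaf K2_ok TB_l7433 _))
                (CovZ.leaf K2_ok TB_l7434 _))
               (CovZ.n1 (-28968, 1848) (by decide +kernel)
                (CovZ.leaf K2_ok TB_l7435 _)
                (CovZ.leaf K2_ok TB_l7436 _))))
             (CovZ.n1 (-28944, 1776) (by decide +kernel)
              (CovZ.n2 (-28992, 1776) (by decide +kernel)
               (CovZ.n2 (-28968, 1800) (by decide +kernel)
                (CovZ.leaf K2_ok TB_l7437 _)
                (CovZ.leaf K2_ok TB_l7438 _))
               (CovZ.n1 (-28968, 1752) (by decide +kernel)
                (CovZ.leaf K2_ok TB_l7439 _)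
                (CovZ.leaf K2_ok TB_l7440 _)))
              (CovZ.n1 (-28944, 1824) (by decide +kernel)
               (CovZ.n2 (-28920, 1800) (by decide +kernel)
                (CovZ.leaf K2_ok TB_l7441 _)
                (CovZ.n1 (-28920, 1824) (by decide +kernel)
                 (CovZ.leaf K2_ok TB_l7442 _)
                 (CovZ.leaf K2_ok TB_l7443 _)))
               (CovZ.n1 (-28968, 1800) (by decide +kernel)
                (CovZ.leaf K2_ok TB_l7444 _)
                (CovZ.leaf K2_ok TB_l7445 _)))))
            (CovZ.n1 (-28896, 1920) (by decide +kernel)
             (CovZ.n2 (-28848, 1872) (by decide +kernel)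
              (CovZ.n2 (-28896, 1872) (by decide +kernel)
               (CovZ.n2 (-28872, 1896) (by decide +kernel)
                (CovZ.n2 (-28872, 1872) (by decide +kernel)
                 (CovZ.leaf K2_ok TB_l38554 _)
                 (CovZ.leaf K2_ok TB_l38555 _))
                (CovZ.leaf K2_ok TB_l38556 _))
               (CovZ.n1 (-28872, 1848) (by decide +kernel)
                (CovZ.leaf K2_ok TB_l7446 _)
                (CovZ.n1 (-28872, 1872) (by decide +kernel)
                 (CovZ.leaf K2_ok TB_l7447 _)
                 (CovZ.leaf K2_ok TB_l7448 _))))
              (CovZ.subM 1989292945639146568621528995801159472865047980302828466293353411840624969658517956853760 (by decide +kernel)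
               (CovZ.n1 (-28848, 1920) (by decide +kernel)
                (CovZ.n2 (-28824, 1896) (by decide +kernel)
                 (CovZ.n2 (-28848, 1896) (by decide +kernel)
                  (CovZ.badM (by decide +kernel))
                  (CovZ.n1 (-28836, 1884) (by decide +kernel)
                   (CovZ.leaf K2_ok TB_l38557 _)
                   (CovZ.badM (by decide +kernel))))
                 (CovZ.badM (by decide +kernel)))
                (CovZ.n1 (-28872, 1896) (by decide +kernel)
                 (CovZ.badM (by decide +kernel))
                 (CovZ.n1 (-28848, 1896) (by decide +kernel)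
                  (CovZ.leaf K2_ok TB_l38558 _)
                  (CovZ.badM (by decide +kernel)))))))
             (CovZ.n1 (-28944, 1872) (by decide +kernel)
              (CovZ.subM 1989292945639146568621528995801159664426990588538935761086731805629272922000908229804032 (by decide +kernel)
               (CovZ.n2 (-28944, 1920) (by decide +kernel)
                (CovZ.n2 (-28920, 1896) (by decide +kernel)
                 (CovZ.leaf K2_ok TB_l7449 _)
                 (CovZ.n1 (-28920, 1920) (by decide +kernel)
                  (CovZ.leaf K2_ok TB_l38559 _)
                  (CovZ.leaf K2_ok TB_l7450 _)))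
                (CovZ.n1 (-28968, 1896) (by decide +kernel)
                 (CovZ.n2 (-28968, 1920) (by decide +kernel)
                  (CovZ.leaf K2_ok TB_l7451 _)
                  (CovZ.leaf K2_ok TB_l7452 _))
                 (CovZ.leaf K2_ok TB_l7453 _))))
              (CovZ.n1 (-28896, 1872) (by decide +kernel)
               (CovZ.n2 (-28920, 1848) (by decide +kernel)
                (CovZ.n2 (-28920, 1872) (by decide +kernel)
                 (CovZ.leaf K2_ok TB_l7454 _)
                 (CovZ.leaf K2_ok TB_l7455 _))
                (CovZ.leaf K2_ok TB_l7456 _))
               (CovZ.n1 (-28920, 1896) (by decide +kernel)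
                (CovZ.leaf K2_ok TB_l38560 _)
                (CovZ.n1 (-28920, 1872) (by decide +kernel)
                 (CovZ.leaf K2_ok TB_l7457 _)
                 (CovZ.leaf K2_ok TB_l38561 _))))))))
          (CovZ.n1 (-29088, 1824) (by decide +kernel)
           (CovZ.subM 2983939418458719852932293492094801440408874194425909415227869449603163691202235441610754 (by decide +kernel)
            (CovZ.n2 (-29088, 1920) (by decide +kernel)
             (CovZ.n2 (-29040, 1872) (by decide +kernel)
              (CovZ.n2 (-29088, 1872) (by decide +kernel)
               (CovZ.n2 (-29064, 1896) (by decide +kernel)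
                (CovZ.leaf K2_ok TB_l7458 _)
                (CovZ.leaf K2_ok TB_l7459 _))
               (CovZ.n1 (-29064, 1848) (by decide +kernel)
                (CovZ.leaf K2_ok TB_l7460 _)
                (CovZ.leaf K2_ok TB_l7461 _)))
              (CovZ.n1 (-29040, 1920) (by decide +kernel)
               (CovZ.n2 (-29016, 1896) (by decide +kernel)
                (CovZ.leaf K2_ok TB_l7462 _)
                (CovZ.leaf K2_ok TB_l7463 _))
               (CovZ.n1 (-29064, 1896) (by decide +kernel)
                (CovZ.leaf K2_ok TB_l7464 _)
                (CovZ.leaf K2_ok TB_l7465 _))))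
             (CovZ.n1 (-29136, 1872) (by decide +kernel)
              (CovZ.n2 (-29136, 1920) (by decide +kernel)
               (CovZ.n2 (-29112, 1896) (by decide +kernel)
                (CovZ.leaf K2_ok TB_l7466 _)
                (CovZ.leaf K2_ok TB_l7467 _))
               (CovZ.n1 (-29160, 1896) (by decide +kernel)
                (CovZ.n2 (-29160, 1920) (by decide +kernel)
                 (CovZ.leaf K2_ok TB_l7468 _)
                 (CovZ.leaf K2_ok TB_l7469 _))
                (CovZ.leaf K2_ok TB_l7470 _)))
              (CovZ.n1 (-29088, 1872) (by decide +kernel)
               (CovZ.leaf K2_ok TB_l7471 _)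
               (CovZ.n1 (-29112, 1896) (by decide +kernel)
                (CovZ.leaf K2_ok TB_l7472 _)
                (CovZ.leaf K2_ok TB_l7473 _))))))
           (CovZ.subM 37576681324381331646234673488047851157863853076025212732757064418709598808936034811883201597045355872773996544 (by decide +kernel)
            (CovZ.n1 (-28992, 1824) (by decide +kernel)
             (CovZ.n2 (-29040, 1776) (by decide +kernel)
              (CovZ.n2 (-29040, 1824) (by decide +kernel)
               (CovZ.leaf K2_ok TB_l7474 _)
               (CovZ.leaf K2_ok TB_l7475 _))
              (CovZ.n1 (-28992, 1776) (by decide +kernel)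
               (CovZ.leaf K2_ok TB_l7476 _)
               (CovZ.leaf K2_ok TB_l7477 _)))
             (CovZ.n1 (-29040, 1872) (by decide +kernel)
              (CovZ.n2 (-28992, 1872) (by decide +kernel)
               (CovZ.leaf K2_ok TB_l7478 _)
               (CovZ.n1 (-29016, 1896) (by decide +kernel)
                (CovZ.leaf K2_ok TB_l7479 _)
                (CovZ.leaf K2_ok TB_l7480 _)))
              (CovZ.n1 (-29040, 1824) (by decide +kernel)
               (CovZ.n2 (-29064, 1848) (by decide +kernel)
                (CovZ.leaf K2_ok TB_l7481 _)
                (CovZ.leaf K2_ok TB_l7482 _))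
               (CovZ.leaf K2_ok TB_l7483 _))))))))

theorem TB_u123 : CovZ TB_M (toL (selN TB_LN 603580031050075214568786047986113315572886838087991686924121045696074321436944805819289549095782169096720744448)) [0, 7, 6, 1] (-30720, 4992) (-30912, 4992) (-30912, 4800) :=
    (CovZ.n2 (-30816, 4896) (by decide +kernel)
          (CovZ.n2 (-30912, 4896) (by decide +kernel)
           (CovZ.n2 (-30864, 4944) (by decide +kernel)
            (CovZ.subM 2353129859973908229063068810441201667633463157817617751233827771615200081141957483103887458812501947561541632 (by decide +kernel)
             (CovZ.n2 (-30864, 4896) (by decide +kernel)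
              (CovZ.n2 (-30888, 4920) (by decide +kernel)
               (CovZ.leaf K2_ok TB_l1202 _)
               (CovZ.n1 (-30888, 4896) (by decide +kernel)
                (CovZ.leaf K2_ok TB_l1203 _)
                (CovZ.leaf K2_ok TB_l1204 _)))
              (CovZ.n1 (-30840, 4920) (by decide +kernel)
               (CovZ.leaf K2_ok TB_l1205 _)
               (CovZ.leaf K2_ok TB_l1206 _))))
            (CovZ.subM 2353129859973908229063069781775647780497998564892425328714687743859605765376501949562544627990088923010301952 (by decide +kernel)
             (CovZ.n1 (-30912, 4944) (by decide +kernel)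
              (CovZ.n2 (-30888, 4968) (by decide +kernel)
               (CovZ.leaf K2_ok TB_l1207 _)
               (CovZ.leaf K2_ok TB_l1208 _))
              (CovZ.n1 (-30888, 4920) (by decide +kernel)
               (CovZ.leaf K2_ok TB_l1209 _)
               (CovZ.n1 (-30888, 4944) (by decide +kernel)
                (CovZ.leaf K2_ok TB_l1210 _)
                (CovZ.leaf K2_ok TB_l1211 _))))))
           (CovZ.subM 2353129859973908229063068810441201667633463157817617751233734235510410903355192447274593616699243967878791168 (by decide +kernel)
            (CovZ.n1 (-30864, 4848) (by decide +kernel)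
             (CovZ.n2 (-30912, 4848) (by decide +kernel)
              (CovZ.n2 (-30888, 4872) (by decide +kernel)
               (CovZ.n2 (-30888, 4848) (by decide +kernel)
                (CovZ.n2 (-30900, 4860) (by decide +kernel)
                 (CovZ.leaf K2_ok TB_l37203 _)
                 (CovZ.leaf K2_ok TB_l37204 _))
                (CovZ.n1 (-30876, 4860) (by decide +kernel)
                 (CovZ.leaf K2_ok TB_l37205 _)
                 (CovZ.leaf K2_ok TB_l37206 _)))
               (CovZ.n1 (-30912, 4872) (by decide +kernel)
                (CovZ.leaf K2_ok TB_l37207 _)
                (CovZ.n1 (-30900, 4860) (by decide +kernel)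
                 (CovZ.n2 (-30912, 4860) (by decide +kernel)
                  (CovZ.leaf K2_ok TB_l37208 _)
                  (CovZ.leaf K2_ok TB_l37209 _))
                 (CovZ.n1 (-30900, 4872) (by decide +kernel)
                  (CovZ.leaf K2_ok TB_l37210 _)
                  (CovZ.leaf K2_ok TB_l37211 _)))))
              (CovZ.subM 2348542862741928086039846682983374437319602245317256521998012916031205560667158356758356454880696498972000256 (by decide +kernel)
               (CovZ.n1 (-30888, 4824) (by decide +kernel)
                (CovZ.n2 (-30912, 4824) (by decide +kernel)
                 (CovZ.n2 (-30900, 4836) (by decide +kernel)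
                  (CovZ.n2 (-30900, 4824) (by decide +kernel)
                   (CovZ.n2 (-30906, 4830) (by decide +kernel)
                    (CovZ.leaf K2_ok TB_l37212 _)
                    (CovZ.leaf K2_ok TB_l37213 _))
                   (CovZ.n1 (-30894, 4830) (by decide +kernel)
                    (CovZ.leaf K2_ok TB_l37214 _)
                    (CovZ.leaf K2_ok TB_l37215 _)))
                  (CovZ.n1 (-30912, 4836) (by decide +kernel)
                   (CovZ.n2 (-30906, 4842) (by decide +kernel)
                    (CovZ.leaf K2_ok TB_l37216 _)
                    (CovZ.leaf K2_ok TB_l37217 _))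
                   (CovZ.leaf K2_ok TB_l37218 _)))
                 (CovZ.subM 2085924839766513752338888384931203236916703635113918720651407820138886450957656787131798913024 (by decide +kernel)
                  (CovZ.n1 (-30900, 4812) (by decide +kernel)
                   (CovZ.n2 (-30912, 4812) (by decide +kernel)
                    (CovZ.n2 (-30906, 4818) (by decide +kernel)
                     (CovZ.leaf K2_ok TB_l37219 _)
                     (CovZ.leaf K2_ok TB_l37220 _))
                    (CovZ.badM (by decide +kernel)))
                   (CovZ.n1 (-30900, 4824) (by decide +kernel)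
                    (CovZ.n2 (-30894, 4818) (by decide +kernel)
                     (CovZ.leaf K2_ok TB_l37221 _)
                     (CovZ.leaf K2_ok TB_l37222 _))
                    (CovZ.n1 (-30906, 4818) (by decide +kernel)
                     (CovZ.n2 (-30906, 4824) (by decide +kernel)
                      (CovZ.leaf K2_ok TB_l37223 _)
                      (CovZ.leaf K2_ok TB_l37224 _))
                     (CovZ.leaf K2_ok TB_l37225 _))))))
                (CovZ.n1 (-30888, 4848) (by decide +kernel)
                 (CovZ.n2 (-30876, 4836) (by decide +kernel)
                  (CovZ.n2 (-30888, 4836) (by decide +kernel)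
                   (CovZ.leaf K2_ok TB_l37226 _)
                   (CovZ.leaf K2_ok TB_l37227 _))
                  (CovZ.leaf K2_ok TB_l37228 _))
                 (CovZ.n1 (-30900, 4836) (by decide +kernel)
                  (CovZ.n2 (-30900, 4848) (by decide +kernel)
                   (CovZ.leaf K2_ok TB_l37229 _)
                   (CovZ.leaf K2_ok TB_l37230 _))
                  (CovZ.n1 (-30888, 4836) (by decide +kernel)
                   (CovZ.n2 (-30894, 4830) (by decide +kernel)
                    (CovZ.leaf K2_ok TB_l37231 _)
                    (CovZ.n1 (-30888, 4830) (by decide +kernel)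
                     (CovZ.leaf K2_ok TB_l37232 _)
                     (CovZ.leaf K2_ok TB_l37233 _)))
                   (CovZ.leaf K2_ok TB_l37234 _)))))))
             (CovZ.n1 (-30864, 4896) (by decide +kernel)
              (CovZ.n2 (-30840, 4872) (by decide +kernel)
               (CovZ.n2 (-30864, 4872) (by decide +kernel)
                (CovZ.leaf K2_ok TB_l37235 _)
                (CovZ.n1 (-30852, 4860) (by decide +kernel)
                 (CovZ.leaf K2_ok TB_l37236 _)
                 (CovZ.leaf K2_ok TB_l37237 _)))
               (CovZ.n1 (-30840, 4896) (by decide +kernel)
                (CovZ.leaf K2_ok TB_l37238 _)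
                (CovZ.leaf K2_ok TB_l37239 _)))
              (CovZ.n1 (-30888, 4872) (by decide +kernel)
               (CovZ.n2 (-30888, 4896) (by decide +kernel)
                (CovZ.leaf K2_ok TB_l37240 _)
                (CovZ.leaf K2_ok TB_l37241 _))
               (CovZ.n1 (-30864, 4872) (by decide +kernel)
                (CovZ.n2 (-30876, 4860) (by decide +kernel)
                 (CovZ.n2 (-30876, 4872) (by decide +kernel)
                  (CovZ.leaf K2_ok TB_l37242 _)
                  (CovZ.leaf K2_ok TB_l37243 _))
                 (CovZ.leaf K2_ok TB_l37244 _))
                (CovZ.n1 (-30876, 4884) (by decide +kernel)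
                 (CovZ.leaf K2_ok TB_l37245 _)
                 (CovZ.leaf K2_ok TB_l37246 _))))))))
          (CovZ.n1 (-30816, 4992) (by decide +kernel)
           (CovZ.n2 (-30768, 4944) (by decide +kernel)
            (CovZ.n2 (-30816, 4944) (by decide +kernel)
             (CovZ.n2 (-30792, 4968) (by decide +kernel)
              (CovZ.leaf K2_ok TB_l1212 _)
              (CovZ.leaf K2_ok TB_l1213 _))
             (CovZ.n1 (-30792, 4920) (by decide +kernel)
              (CovZ.leaf K2_ok TB_l1214 _)
              (CovZ.n1 (-30792, 4944) (by decide +kernel)
               (CovZ.leaf K2_ok TB_l1215 _)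
               (CovZ.leaf K2_ok TB_l1216 _))))
            (CovZ.n1 (-30768, 4992) (by decide +kernel)
             (CovZ.leaf K2_ok TB_l1217 _)
             (CovZ.n1 (-30792, 4968) (by decide +kernel)
              (CovZ.leaf K2_ok TB_l1218 _)
              (CovZ.leaf K2_ok TB_l1219 _))))
           (CovZ.n1 (-30864, 4944) (by decide +kernel)
            (CovZ.n2 (-30864, 4992) (by decide +kernel)
             (CovZ.n2 (-30840, 4968) (by decide +kernel)
              (CovZ.leaf K2_ok TB_l1220 _)
              (CovZ.leaf K2_ok TB_l1221 _))
             (CovZ.n1 (-30888, 4968) (by decide +kernel)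
              (CovZ.leaf K2_ok TB_l1222 _)
              (CovZ.leaf K2_ok TB_l1223 _)))
            (CovZ.n1 (-30816, 4944) (by decide +kernel)
             (CovZ.n2 (-30840, 4920) (by decide +kernel)
              (CovZ.leaf K2_ok TB_l1224 _)
              (CovZ.leaf K2_ok TB_l1225 _))
             (CovZ.n1 (-30840, 4968) (by decide +kernel)
              (CovZ.leaf K2_ok TB_l1226 _)
              (CovZ.leaf K2_ok TB_l1227 _))))))

theorem TB_u124 : CovZ TB_M (toL (selN TB_LN 603580031050075214568786047986113315572886838087991686924121045696074321436944805819289549095782169096720744448)) [0, 7, 6, 1] (-30912, 4992) (-31104, 4992) (-30912, 4800) :=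
    (CovZ.subM 2353129859973908229063069781775647780497998564892425328714687743859605765376501949562544627990088923010301952 (by decide +kernel)
          (CovZ.n1 (-31008, 4896) (by decide +kernel)
           (CovZ.n2 (-31008, 4992) (by decide +kernel)
            (CovZ.n2 (-30960, 4944) (by decide +kernel)
             (CovZ.n2 (-31008, 4944) (by decide +kernel)
              (CovZ.n2 (-30984, 4968) (by decide +kernel)
               (CovZ.n2 (-30984, 4944) (by decide +kernel)
                (CovZ.leaf K2_ok TB_l37247 _)
                (CovZ.leaf K2_ok TB_l37248 _))
               (CovZ.leaf K2_ok TB_l1228 _))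
              (CovZ.n1 (-30984, 4920) (by decide +kernel)
               (CovZ.n2 (-31008, 4920) (by decide +kernel)
                (CovZ.leaf K2_ok TB_l37249 _)
                (CovZ.leaf K2_ok TB_l37250 _))
               (CovZ.n1 (-30984, 4944) (by decide +kernel)
                (CovZ.leaf K2_ok TB_l37251 _)
                (CovZ.leaf K2_ok TB_l37252 _))))
             (CovZ.n1 (-30960, 4992) (by decide +kernel)
              (CovZ.n2 (-30936, 4968) (by decide +kernel)
               (CovZ.leaf K2_ok TB_l1229 _)
               (CovZ.leaf K2_ok TB_l1230 _))
              (CovZ.n1 (-30984, 4968) (by decide +kernel)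
               (CovZ.n2 (-30984, 4992) (by decide +kernel)
                (CovZ.leaf K2_ok TB_l1231 _)
                (CovZ.leaf K2_ok TB_l1232 _))
               (CovZ.leaf K2_ok TB_l1233 _))))
            (CovZ.n1 (-31056, 4944) (by decide +kernel)
             (CovZ.n2 (-31056, 4992) (by decide +kernel)
              (CovZ.n2 (-31032, 4968) (by decide +kernel)
               (CovZ.n2 (-31056, 4968) (by decide +kernel)
                (CovZ.leaf K2_ok TB_l1234 _)
                (CovZ.n1 (-31044, 4956) (by decide +kernel)
                 (CovZ.leaf K2_ok TB_l37253 _)
                 (CovZ.leaf K2_ok TB_l37254 _)))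
               (CovZ.n1 (-31032, 4992) (by decide +kernel)
                (CovZ.leaf K2_ok TB_l1235 _)
                (CovZ.leaf K2_ok TB_l1236 _)))
              (CovZ.n1 (-31080, 4968) (by decide +kernel)
               (CovZ.n2 (-31080, 4992) (by decide +kernel)
                (CovZ.leaf K2_ok TB_l1237 _)
                (CovZ.leaf K2_ok TB_l1238 _))
               (CovZ.n1 (-31056, 4968) (by decide +kernel)
                (CovZ.leaf K2_ok TB_l37255 _)
                (CovZ.leaf K2_ok TB_l1239 _))))
             (CovZ.n1 (-31008, 4944) (by decide +kernel)
              (CovZ.n2 (-31032, 4920) (by decide +kernel)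
               (CovZ.n2 (-31032, 4944) (by decide +kernel)
                (CovZ.n2 (-31020, 4932) (by decide +kernel)
                 (CovZ.leaf K2_ok TB_l37256 _)
                 (CovZ.leaf K2_ok TB_l37257 _))
                (CovZ.n1 (-31044, 4932) (by decide +kernel)
                 (CovZ.leaf K2_ok TB_l37258 _)
                 (CovZ.leaf K2_ok TB_l37259 _)))
               (CovZ.n1 (-31008, 4920) (by decide +kernel)
                (CovZ.n2 (-31020, 4908) (by decide +kernel)
                 (CovZ.leaf K2_ok TB_l37260 _)
                 (CovZ.leaf K2_ok TB_l37261 _))
                (CovZ.n1 (-31020, 4932) (by decide +kernel)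
                 (CovZ.leaf K2_ok TB_l37262 _)
                 (CovZ.leaf K2_ok TB_l37263 _))))
              (CovZ.n1 (-31032, 4968) (by decide +kernel)
               (CovZ.n2 (-31008, 4968) (by decide +kernel)
                (CovZ.leaf K2_ok TB_l37264 _)
                (CovZ.leaf K2_ok TB_l1240 _))
               (CovZ.n1 (-31032, 4944) (by decide +kernel)
                (CovZ.n2 (-31044, 4956) (by decide +kernel)
                 (CovZ.leaf K2_ok TB_l37265 _)
                 (CovZ.leaf K2_ok TB_l37266 _))
                (CovZ.leaf K2_ok TB_l37267 _))))))
           (CovZ.n1 (-30912, 4896) (by decide +kernel)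
            (CovZ.n2 (-30960, 4848) (by decide +kernel)
             (CovZ.n2 (-30960, 4896) (by decide +kernel)
              (CovZ.n2 (-30936, 4872) (by decide +kernel)
               (CovZ.n2 (-30960, 4872) (by decide +kernel)
                (CovZ.n2 (-30948, 4884) (by decide +kernel)
                 (CovZ.leaf K2_ok TB_l37268 _)
                 (CovZ.leaf K2_ok TB_l37269 _))
                (CovZ.subM 2348542862741928086039846682983374437319602245317256521998012916031205560667158356758356454880696498972000256 (by decide +kernel)
                 (CovZ.n1 (-30948, 4860) (by decide +kernel)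
                  (CovZ.n2 (-30960, 4860) (by decide +kernel)
                   (CovZ.leaf K2_ok TB_l37270 _)
                   (CovZ.n1 (-30954, 4854) (by decide +kernel)
                    (CovZ.badM (by decide +kernel))
                    (CovZ.leaf K2_ok TB_l37271 _)))
                  (CovZ.n1 (-30948, 4872) (by decide +kernel)
                   (CovZ.leaf K2_ok TB_l37272 _)
                   (CovZ.leaf K2_ok TB_l37273 _)))))
               (CovZ.n1 (-30936, 4896) (by decide +kernel)
                (CovZ.n2 (-30924, 4884) (by decide +kernel)
                 (CovZ.leaf K2_ok TB_l37274 _)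
                 (CovZ.leaf K2_ok TB_l37275 _))
                (CovZ.n1 (-30948, 4884) (by decide +kernel)
                 (CovZ.n2 (-30948, 4896) (by decide +kernel)
                  (CovZ.leaf K2_ok TB_l37276 _)
                  (CovZ.leaf K2_ok TB_l37277 _))
                 (CovZ.leaf K2_ok TB_l37278 _))))
              (CovZ.subM 2348542862741926000115006916469622098431217314114421732124301011348918139519262459001687054369570344384069632 (by decide +kernel)
               (CovZ.n1 (-30984, 4872) (by decide +kernel)
                (CovZ.n2 (-30984, 4896) (by decide +kernel)
                 (CovZ.n2 (-30972, 4884) (by decide +kernel)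
                  (CovZ.leaf K2_ok TB_l37279 _)
                  (CovZ.n1 (-30972, 4896) (by decide +kernel)
                   (CovZ.leaf K2_ok TB_l37280 _)
                   (CovZ.leaf K2_ok TB_l37281 _)))
                 (CovZ.n1 (-30996, 4884) (by decide +kernel)
                  (CovZ.n2 (-30996, 4896) (by decide +kernel)
                   (CovZ.leaf K2_ok TB_l37282 _)
                   (CovZ.leaf K2_ok TB_l37283 _))
                  (CovZ.leaf K2_ok TB_l37284 _)))
                (CovZ.n1 (-30960, 4872) (by decide +kernel)
                 (CovZ.subM 2348542862741926000115006916469622098431217314114019580774449148258263175525785783466958559324083412235452416 (by decide +kernel)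
                  (CovZ.n2 (-30972, 4860) (by decide +kernel)
                   (CovZ.n2 (-30972, 4872) (by decide +kernel)
                    (CovZ.leaf K2_ok TB_l37285 _)
                    (CovZ.leaf K2_ok TB_l48373 _))
                   (CovZ.n1 (-30960, 4860) (by decide +kernel)
                    (CovZ.badM (by decide +kernel))
                    (CovZ.leaf K2_ok TB_l37286 _))))
                 (CovZ.n1 (-30972, 4884) (by decide +kernel)
                  (CovZ.leaf K2_ok TB_l37287 _)
                  (CovZ.leaf K2_ok TB_l37288 _))))))
             (CovZ.n1 (-30912, 4848) (by decide +kernel)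
              (CovZ.subM 279968094858150366086194037409943919696408936651290721944498996535552549913294657456495927795940065280 (by decide +kernel)
               (CovZ.n2 (-30936, 4824) (by decide +kernel)
                (CovZ.n2 (-30936, 4848) (by decide +kernel)
                 (CovZ.n2 (-30924, 4836) (by decide +kernel)
                  (CovZ.n2 (-30936, 4836) (by decide +kernel)
                   (CovZ.leaf K2_ok TB_l37289 _)
                   (CovZ.n1 (-30930, 4830) (by decide +kernel)
                    (CovZ.badM (by decide +kernel))
                    (CovZ.leaf K2_ok TB_l37290 _)))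
                  (CovZ.n1 (-30924, 4848) (by decide +kernel)
                   (CovZ.leaf K2_ok TB_l37291 _)
                   (CovZ.leaf K2_ok TB_l37292 _)))
                 (CovZ.n1 (-30948, 4836) (by decide +kernel)
                  (CovZ.n2 (-30948, 4848) (by decide +kernel)
                   (CovZ.leaf K2_ok TB_l37293 _)
                   (CovZ.badM (by decide +kernel)))
                  (CovZ.n1 (-30936, 4836) (by decide +kernel)
                   (CovZ.badM (by decide +kernel))
                   (CovZ.leaf K2_ok TB_l37294 _))))
                (CovZ.n1 (-30912, 4824) (by decide +kernel)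
                 (CovZ.n2 (-30924, 4812) (by decide +kernel)
                  (CovZ.n2 (-30924, 4824) (by decide +kernel)
                   (CovZ.n2 (-30918, 4818) (by decide +kernel)
                    (CovZ.badM (by decide +kernel))
                    (CovZ.leaf K2_ok TB_l37295 _))
                   (CovZ.badM (by decide +kernel)))
                  (CovZ.n1 (-30912, 4812) (by decide +kernel)
                   (CovZ.n2 (-30918, 4806) (by decide +kernel)
                    (CovZ.n2 (-30918, 4812) (by decide +kernel)
                     (CovZ.leaf K2_ok TB_l37296 _)
                     (CovZ.badM (by decide +kernel)))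
                    (CovZ.badM (by decide +kernel)))
                   (CovZ.n1 (-30918, 4818) (by decide +kernel)
                    (CovZ.leaf K2_ok TB_l37297 _)
                    (CovZ.leaf K2_ok TB_l37298 _))))
                 (CovZ.n1 (-30924, 4836) (by decide +kernel)
                  (CovZ.n2 (-30912, 4836) (by decide +kernel)
                   (CovZ.n2 (-30918, 4830) (by decide +kernel)
                    (CovZ.n2 (-30918, 4836) (by decide +kernel)
                     (CovZ.leaf K2_ok TB_l37299 _)
                     (CovZ.leaf K2_ok TB_l37300 _))
                    (CovZ.leaf K2_ok TB_l37301 _))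
                   (CovZ.leaf K2_ok TB_l37302 _))
                  (CovZ.n1 (-30924, 4824) (by decide +kernel)
                   (CovZ.n2 (-30930, 4830) (by decide +kernel)
                    (CovZ.leaf K2_ok TB_l37303 _)
                    (CovZ.leaf K2_ok TB_l37304 _))
                   (CovZ.n1 (-30918, 4830) (by decide +kernel)
                    (CovZ.leaf K2_ok TB_l37305 _)
                    (CovZ.leaf K2_ok TB_l37306 _)))))))
              (CovZ.n1 (-30936, 4872) (by decide +kernel)
               (CovZ.n2 (-30912, 4872) (by decide +kernel)
                (CovZ.n2 (-30924, 4860) (by decide +kernel)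
                 (CovZ.n2 (-30924, 4872) (by decide +kernel)
                  (CovZ.leaf K2_ok TB_l37307 _)
                  (CovZ.leaf K2_ok TB_l37308 _))
                 (CovZ.n1 (-30912, 4860) (by decide +kernel)
                  (CovZ.leaf K2_ok TB_l37309 _)
                  (CovZ.leaf K2_ok TB_l37310 _)))
                (CovZ.n1 (-30924, 4884) (by decide +kernel)
                 (CovZ.leaf K2_ok TB_l37311 _)
                 (CovZ.leaf K2_ok TB_l37312 _)))
               (CovZ.subM 2348542862741928086039846682983374437319602245317256521998012916031205560667158356758356454880696498972000256 (by decide +kernel)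
                (CovZ.n1 (-30936, 4848) (by decide +kernel)
                 (CovZ.n2 (-30948, 4860) (by decide +kernel)
                  (CovZ.n2 (-30936, 4860) (by decide +kernel)
                   (CovZ.leaf K2_ok TB_l37313 _)
                   (CovZ.leaf K2_ok TB_l37314 _))
                  (CovZ.n1 (-30948, 4848) (by decide +kernel)
                   (CovZ.leaf K2_ok TB_l37315 _)
                   (CovZ.leaf K2_ok TB_l37316 _)))
                 (CovZ.n1 (-30924, 4860) (by decide +kernel)
                  (CovZ.n2 (-30924, 4848) (by decide +kernel)
                   (CovZ.leaf K2_ok TB_l37317 _)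
                   (CovZ.leaf K2_ok TB_l37318 _))
                  (CovZ.leaf K2_ok TB_l37319 _)))))))
            (CovZ.n1 (-30960, 4944) (by decide +kernel)
             (CovZ.n2 (-30912, 4944) (by decide +kernel)
              (CovZ.n2 (-30936, 4920) (by decide +kernel)
               (CovZ.n2 (-30936, 4944) (by decide +kernel)
                (CovZ.leaf K2_ok TB_l1241 _)
                (CovZ.leaf K2_ok TB_l1242 _))
               (CovZ.n1 (-30912, 4920) (by decide +kernel)
                (CovZ.leaf K2_ok TB_l1243 _)
                (CovZ.leaf K2_ok TB_l1244 _)))
              (CovZ.n1 (-30936, 4968) (by decide +kernel)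
               (CovZ.leaf K2_ok TB_l1245 _)
               (CovZ.leaf K2_ok TB_l1246 _)))
             (CovZ.n1 (-30960, 4896) (by decide +kernel)
              (CovZ.n2 (-30984, 4920) (by decide +kernel)
               (CovZ.n2 (-30960, 4920) (by decide +kernel)
                (CovZ.n2 (-30972, 4908) (by decide +kernel)
                 (CovZ.leaf K2_ok TB_l37320 _)
                 (CovZ.leaf K2_ok TB_l37321 _))
                (CovZ.n1 (-30972, 4932) (by decide +kernel)
                 (CovZ.leaf K2_ok TB_l37322 _)
                 (CovZ.leaf K2_ok TB_l37323 _)))
               (CovZ.n1 (-30984, 4896) (by decide +kernel)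
                (CovZ.n2 (-30996, 4908) (by decide +kernel)
                 (CovZ.leaf K2_ok TB_l37324 _)
                 (CovZ.leaf K2_ok TB_l37325 _))
                (CovZ.n1 (-30972, 4908) (by decide +kernel)
                 (CovZ.leaf K2_ok TB_l37326 _)
                 (CovZ.leaf K2_ok TB_l37327 _))))
              (CovZ.n1 (-30936, 4920) (by decide +kernel)
               (CovZ.n2 (-30936, 4896) (by decide +kernel)
                (CovZ.n2 (-30948, 4908) (by decide +kernel)
                 (CovZ.leaf K2_ok TB_l37328 _)
                 (CovZ.leaf K2_ok TB_l37329 _))
                (CovZ.leaf K2_ok TB_l37330 _))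
               (CovZ.n1 (-30960, 4920) (by decide +kernel)
                (CovZ.leaf K2_ok TB_l37331 _)
                (CovZ.leaf K2_ok TB_l37332 _))))))))

theorem TB_u125 : CovZ TB_M (toL (selN TB_LN 603580031050075214568786047986113315572886838087991686924121045696074321436944805819289549095782169096720744448)) [0, 7, 6, 1] (-30720, 4608) (-30720, 4800) (-30912, 4800) :=
    (CovZ.subM 4586997231980143023221641790604173881593182634884523355991735874220917847317370193469294526436855740628992 (by decide +kernel)
          (CovZ.n2 (-30816, 4704) (by decide +kernel)
           (CovZ.n2 (-30816, 4800) (by decide +kernel)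
            (CovZ.n2 (-30768, 4752) (by decide +kernel)
             (CovZ.n2 (-30816, 4752) (by decide +kernel)
              (CovZ.n2 (-30792, 4776) (by decide +kernel)
               (CovZ.n2 (-30792, 4752) (by decide +kernel)
                (CovZ.badM (by decide +kernel))
                (CovZ.n1 (-30780, 4764) (by decide +kernel)
                 (CovZ.badM (by decide +kernel))
                 (CovZ.n1 (-30792, 4764) (by decide +kernel)
                  (CovZ.n2 (-30786, 4770) (by decide +kernel)
                   (CovZ.badM (by decide +kernel))
                   (CovZ.leaf K2_ok TB_l37333 _))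
                  (CovZ.badM (by decide +kernel)))))
               (CovZ.badM (by decide +kernel)))
              (CovZ.badM (by decide +kernel)))
             (CovZ.n1 (-30768, 4800) (by decide +kernel)
              (CovZ.n2 (-30744, 4776) (by decide +kernel)
               (CovZ.n2 (-30768, 4776) (by decide +kernel)
                (CovZ.n2 (-30756, 4788) (by decide +kernel)
                 (CovZ.n2 (-30756, 4776) (by decide +kernel)
                  (CovZ.n2 (-30762, 4782) (by decide +kernel)
                   (CovZ.leaf K2_ok TB_l37334 _)
                   (CovZ.badM (by decide +kernel)))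
                  (CovZ.leaf K2_ok TB_l37335 _))
                 (CovZ.n1 (-30768, 4788) (by decide +kernel)
                  (CovZ.leaf K2_ok TB_l37336 _)
                  (CovZ.n1 (-30762, 4782) (by decide +kernel)
                   (CovZ.leaf K2_ok TB_l37337 _)
                   (CovZ.leaf K2_ok TB_l37338 _))))
                (CovZ.badM (by decide +kernel)))
               (CovZ.n1 (-30744, 4800) (by decide +kernel)
                (CovZ.n2 (-30732, 4788) (by decide +kernel)
                 (CovZ.n2 (-30744, 4788) (by decide +kernel)
                  (CovZ.leaf K2_ok TB_l37339 _)
                  (CovZ.leaf K2_ok TB_l37340 _))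
                 (CovZ.leaf K2_ok TB_l37341 _))
                (CovZ.n1 (-30756, 4788) (by decide +kernel)
                 (CovZ.n2 (-30756, 4800) (by decide +kernel)
                  (CovZ.leaf K2_ok TB_l37342 _)
                  (CovZ.leaf K2_ok TB_l37343 _))
                 (CovZ.n1 (-30744, 4788) (by decide +kernel)
                  (CovZ.leaf K2_ok TB_l37344 _)
                  (CovZ.leaf K2_ok TB_l37345 _)))))
              (CovZ.n1 (-30792, 4776) (by decide +kernel)
               (CovZ.n2 (-30792, 4800) (by decide +kernel)
                (CovZ.n2 (-30780, 4788) (by decide +kernel)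
                 (CovZ.n2 (-30792, 4788) (by decide +kernel)
                  (CovZ.leaf K2_ok TB_l37346 _)
                  (CovZ.n1 (-30786, 4782) (by decide +kernel)
                   (CovZ.leaf K2_ok TB_l37347 _)
                   (CovZ.leaf K2_ok TB_l37348 _)))
                 (CovZ.n1 (-30780, 4800) (by decide +kernel)
                  (CovZ.n2 (-30774, 4794) (by decide +kernel)
                   (CovZ.leaf K2_ok TB_l37349 _)
                   (CovZ.leaf K2_ok TB_l37350 _))
                  (CovZ.leaf K2_ok TB_l37351 _)))
                (CovZ.n1 (-30804, 4788) (by decide +kernel)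
                 (CovZ.n2 (-30804, 4800) (by decide +kernel)
                  (CovZ.leaf K2_ok TB_l37352 _)
                  (CovZ.badM (by decide +kernel)))
                 (CovZ.n1 (-30792, 4788) (by decide +kernel)
                  (CovZ.n2 (-30798, 4782) (by decide +kernel)
                   (CovZ.leaf K2_ok TB_l37353 _)
                   (CovZ.leaf K2_ok TB_l37354 _))
                  (CovZ.n1 (-30798, 4794) (by decide +kernel)
                   (CovZ.leaf K2_ok TB_l37355 _)
                   (CovZ.leaf K2_ok TB_l37356 _)))))
               (CovZ.n1 (-30768, 4776) (by decide +kernel)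
                (CovZ.n2 (-30780, 4764) (by decide +kernel)
                 (CovZ.n2 (-30780, 4776) (by decide +kernel)
                  (CovZ.badM (by decide +kernel))
                  (CovZ.n1 (-30786, 4770) (by decide +kernel)
                   (CovZ.leaf K2_ok TB_l37357 _)
                   (CovZ.badM (by decide +kernel))))
                 (CovZ.badM (by decide +kernel)))
                (CovZ.n1 (-30780, 4788) (by decide +kernel)
                 (CovZ.n2 (-30768, 4788) (by decide +kernel)
                  (CovZ.leaf K2_ok TB_l37358 _)
                  (CovZ.n1 (-30774, 4794) (by decide +kernel)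
                   (CovZ.leaf K2_ok TB_l37359 _)
                   (CovZ.leaf K2_ok TB_l37360 _)))
                 (CovZ.n1 (-30780, 4776) (by decide +kernel)
                  (CovZ.n2 (-30786, 4782) (by decide +kernel)
                   (CovZ.leaf K2_ok TB_l37361 _)
                   (CovZ.leaf K2_ok TB_l37362 _))
                  (CovZ.leaf K2_ok TB_l37363 _)))))))
            (CovZ.badM (by decide +kernel)))
           (CovZ.n1 (-30720, 4704) (by decide +kernel)
            (CovZ.badM (by decide +kernel))
            (CovZ.n1 (-30768, 4752) (by decide +kernel)
             (CovZ.n2 (-30720, 4752) (by decide +kernel)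
              (CovZ.badM (by decide +kernel))
              (CovZ.n1 (-30744, 4776) (by decide +kernel)
               (CovZ.n2 (-30720, 4776) (by decide +kernel)
                (CovZ.badM (by decide +kernel))
                (CovZ.n1 (-30732, 4788) (by decide +kernel)
                 (CovZ.leaf K2_ok TB_l37364 _)
                 (CovZ.badM (by decide +kernel))))
               (CovZ.badM (by decide +kernel))))
             (CovZ.badM (by decide +kernel))))))

theorem TB_u126 : CovZ TB_M (toL (selN TB_LN 603580031050075214568786047986113315572886838087991686924121045696074321436944805819289549095782169096720744448)) [0, 7, 6, 1] (-30720, 4800) (-30720, 4992) (-30912, 4800) :=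
    (CovZ.n1 (-30816, 4896) (by decide +kernel)
          (CovZ.n2 (-30720, 4896) (by decide +kernel)
           (CovZ.n2 (-30768, 4848) (by decide +kernel)
            (CovZ.n2 (-30768, 4896) (by decide +kernel)
             (CovZ.n2 (-30744, 4872) (by decide +kernel)
              (CovZ.n2 (-30768, 4872) (by decide +kernel)
               (CovZ.leaf K2_ok TB_l37365 _)
               (CovZ.leaf K2_ok TB_l37366 _))
              (CovZ.n1 (-30744, 4896) (by decide +kernel)
               (CovZ.leaf K2_ok TB_l1247 _)
               (CovZ.leaf K2_ok TB_l1248 _)))
             (CovZ.subM 2353129859973908229063068810441201667633463157817617751233827771615200081141957483103887458812501947561541632 (by decide +kernel)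
              (CovZ.n1 (-30792, 4872) (by decide +kernel)
               (CovZ.n2 (-30792, 4896) (by decide +kernel)
                (CovZ.leaf K2_ok TB_l37367 _)
                (CovZ.leaf K2_ok TB_l37368 _))
               (CovZ.n1 (-30768, 4872) (by decide +kernel)
                (CovZ.leaf K2_ok TB_l37369 _)
                (CovZ.n1 (-30780, 4884) (by decide +kernel)
                 (CovZ.leaf K2_ok TB_l37370 _)
                 (CovZ.leaf K2_ok TB_l37371 _))))))
            (CovZ.n1 (-30720, 4848) (by decide +kernel)
             (CovZ.subM 2353129859973906143138229043927449328745078226614380834530096198588415590141535901018477226476417524215840768 (by decide +kernel)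
              (CovZ.n2 (-30744, 4824) (by decide +kernel)
               (CovZ.n2 (-30744, 4848) (by decide +kernel)
                (CovZ.leaf K2_ok TB_l37372 _)
                (CovZ.n1 (-30756, 4836) (by decide +kernel)
                 (CovZ.leaf K2_ok TB_l37373 _)
                 (CovZ.leaf K2_ok TB_l37374 _)))
               (CovZ.n1 (-30720, 4824) (by decide +kernel)
                (CovZ.n2 (-30732, 4812) (by decide +kernel)
                 (CovZ.leaf K2_ok TB_l37375 _)
                 (CovZ.leaf K2_ok TB_l37376 _))
                (CovZ.n1 (-30732, 4836) (by decide +kernel)
                 (CovZ.leaf K2_ok TB_l37377 _)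
                 (CovZ.leaf K2_ok TB_l37378 _)))))
             (CovZ.n1 (-30744, 4872) (by decide +kernel)
              (CovZ.n2 (-30720, 4872) (by decide +kernel)
               (CovZ.leaf K2_ok TB_l37379 _)
               (CovZ.leaf K2_ok TB_l1249 _))
              (CovZ.n1 (-30744, 4848) (by decide +kernel)
               (CovZ.leaf K2_ok TB_l37380 _)
               (CovZ.leaf K2_ok TB_l37381 _)))))
           (CovZ.n1 (-30768, 4944) (by decide +kernel)
            (CovZ.n2 (-30720, 4944) (by decide +kernel)
             (CovZ.leaf K2_ok TB_l1250 _)
             (CovZ.leaf K2_ok TB_l1251 _))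
            (CovZ.n1 (-30768, 4896) (by decide +kernel)
             (CovZ.n2 (-30792, 4920) (by decide +kernel)
              (CovZ.leaf K2_ok TB_l1252 _)
              (CovZ.leaf K2_ok TB_l1253 _))
             (CovZ.n1 (-30744, 4920) (by decide +kernel)
              (CovZ.leaf K2_ok TB_l1254 _)
              (CovZ.leaf K2_ok TB_l1255 _)))))
          (CovZ.n1 (-30816, 4800) (by decide +kernel)
           (CovZ.subM 2353129859973908229063068810441201667633463157817617751233734235510410903355192447274593616699243967878791168 (by decide +kernel)
            (CovZ.n2 (-30864, 4848) (by decide +kernel)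
             (CovZ.n2 (-30816, 4848) (by decide +kernel)
              (CovZ.n2 (-30840, 4824) (by decide +kernel)
               (CovZ.n2 (-30840, 4848) (by decide +kernel)
                (CovZ.n2 (-30828, 4836) (by decide +kernel)
                 (CovZ.leaf K2_ok TB_l37382 _)
                 (CovZ.leaf K2_ok TB_l37383 _))
                (CovZ.n1 (-30852, 4836) (by decide +kernel)
                 (CovZ.leaf K2_ok TB_l37384 _)
                 (CovZ.n1 (-30840, 4836) (by decide +kernel)
                  (CovZ.leaf K2_ok TB_l37385 _)
                  (CovZ.leaf K2_ok TB_l37386 _))))
               (CovZ.n1 (-30816, 4824) (by decide +kernel)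
                (CovZ.badM (by decide +kernel))
                (CovZ.n1 (-30828, 4836) (by decide +kernel)
                 (CovZ.n2 (-30816, 4836) (by decide +kernel)
                  (CovZ.leaf K2_ok TB_l37387 _)
                  (CovZ.leaf K2_ok TB_l37388 _))
                 (CovZ.n1 (-30828, 4824) (by decide +kernel)
                  (CovZ.leaf K2_ok TB_l37389 _)
                  (CovZ.leaf K2_ok TB_l37390 _)))))
              (CovZ.n1 (-30840, 4872) (by decide +kernel)
               (CovZ.n2 (-30816, 4872) (by decide +kernel)
                (CovZ.leaf K2_ok TB_l37391 _)
                (CovZ.leaf K2_ok TB_l37392 _))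
               (CovZ.n1 (-30840, 4848) (by decide +kernel)
                (CovZ.n2 (-30852, 4860) (by decide +kernel)
                 (CovZ.leaf K2_ok TB_l37393 _)
                 (CovZ.leaf K2_ok TB_l37394 _))
                (CovZ.leaf K2_ok TB_l37395 _))))
             (CovZ.subM 2348542862741928086039846682983374437319602245317256521998012916031205560667158356758356454880696498972000256 (by decide +kernel)
              (CovZ.n1 (-30864, 4800) (by decide +kernel)
               (CovZ.n2 (-30888, 4824) (by decide +kernel)
                (CovZ.n2 (-30864, 4824) (by decide +kernel)
                 (CovZ.subM 2085924839766513752338888384931203236916703635113918720651407820138886450957656787131798913024 (by decide +kernel)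
                  (CovZ.n2 (-30876, 4812) (by decide +kernel)
                   (CovZ.n2 (-30876, 4824) (by decide +kernel)
                    (CovZ.badM (by decide +kernel))
                    (CovZ.n1 (-30882, 4818) (by decide +kernel)
                     (CovZ.leaf K2_ok TB_l37396 _)
                     (CovZ.badM (by decide +kernel))))
                   (CovZ.badM (by decide +kernel))))
                 (CovZ.n1 (-30876, 4836) (by decide +kernel)
                  (CovZ.n2 (-30864, 4836) (by decide +kernel)
                   (CovZ.leaf K2_ok TB_l37397 _)
                   (CovZ.leaf K2_ok TB_l37398 _))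
                  (CovZ.n1 (-30876, 4824) (by decide +kernel)
                   (CovZ.n2 (-30882, 4830) (by decide +kernel)
                    (CovZ.leaf K2_ok TB_l37399 _)
                    (CovZ.leaf K2_ok TB_l37400 _))
                   (CovZ.leaf K2_ok TB_l37401 _))))
                (CovZ.subM 2085924839766513752338888384931203236916703635113918720651407820138886450957656787131798913024 (by decide +kernel)
                 (CovZ.n1 (-30888, 4800) (by decide +kernel)
                  (CovZ.n2 (-30900, 4812) (by decide +kernel)
                   (CovZ.n2 (-30888, 4812) (by decide +kernel)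
                    (CovZ.badM (by decide +kernel))
                    (CovZ.n1 (-30894, 4818) (by decide +kernel)
                     (CovZ.leaf K2_ok TB_l37402 _)
                     (CovZ.badM (by decide +kernel))))
                   (CovZ.badM (by decide +kernel)))
                  (CovZ.n1 (-30876, 4812) (by decide +kernel)
                   (CovZ.badM (by decide +kernel))
                   (CovZ.n1 (-30888, 4812) (by decide +kernel)
                    (CovZ.leaf K2_ok TB_l37403 _)
                    (CovZ.badM (by decide +kernel)))))))
               (CovZ.n1 (-30840, 4824) (by decide +kernel)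
                (CovZ.badM (by decide +kernel))
                (CovZ.n1 (-30864, 4824) (by decide +kernel)
                 (CovZ.n2 (-30852, 4836) (by decide +kernel)
                  (CovZ.n2 (-30852, 4824) (by decide +kernel)
                   (CovZ.leaf K2_ok TB_l37404 _)
                   (CovZ.leaf K2_ok TB_l37405 _))
                  (CovZ.n1 (-30864, 4836) (by decide +kernel)
                   (CovZ.leaf K2_ok TB_l37406 _)
                   (CovZ.leaf K2_ok TB_l37407 _)))
                 (CovZ.badM (by decide +kernel))))))))
           (CovZ.n1 (-30768, 4848) (by decide +kernel)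
            (CovZ.subM 2353129859973906143138229043927449328745078226614380834530096198588415590141535901018477226476417524215840768 (by decide +kernel)
             (CovZ.n2 (-30768, 4800) (by decide +kernel)
              (CovZ.n2 (-30792, 4824) (by decide +kernel)
               (CovZ.n2 (-30768, 4824) (by decide +kernel)
                (CovZ.n2 (-30780, 4812) (by decide +kernel)
                 (CovZ.leaf K2_ok TB_l37408 _)
                 (CovZ.n1 (-30768, 4812) (by decide +kernel)
                  (CovZ.leaf K2_ok TB_l37409 _)
                  (CovZ.leaf K2_ok TB_l37410 _)))
                (CovZ.n1 (-30780, 4836) (by decide +kernel)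
                 (CovZ.leaf K2_ok TB_l37411 _)
                 (CovZ.leaf K2_ok TB_l37412 _)))
               (CovZ.subM 2353129580005813370912702238579941201257275731542802659552217959837544452438840523006537742162759860562690048 (by decide +kernel)
                (CovZ.n1 (-30792, 4800) (by decide +kernel)
                 (CovZ.n2 (-30804, 4812) (by decide +kernel)
                  (CovZ.n2 (-30792, 4812) (by decide +kernel)
                   (CovZ.leaf K2_ok TB_l37413 _)
                   (CovZ.leaf K2_ok TB_l37414 _))
                  (CovZ.n1 (-30804, 4800) (by decide +kernel)
                   (CovZ.badM (by decide +kernel))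
                   (CovZ.leaf K2_ok TB_l37415 _)))
                 (CovZ.n1 (-30780, 4812) (by decide +kernel)
                  (CovZ.leaf K2_ok TB_l37416 _)
                  (CovZ.leaf K2_ok TB_l37417 _)))))
              (CovZ.n1 (-30744, 4824) (by decide +kernel)
               (CovZ.subM 2353129580005813370912702238579941201257275731543204394063282707406429942961925813657168292911205558772563968 (by decide +kernel)
                (CovZ.n2 (-30744, 4800) (by decide +kernel)
                 (CovZ.n2 (-30756, 4812) (by decide +kernel)
                  (CovZ.leaf K2_ok TB_l37418 _)
                  (CovZ.leaf K2_ok TB_l37419 _))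
                 (CovZ.n1 (-30732, 4812) (by decide +kernel)
                  (CovZ.leaf K2_ok TB_l37420 _)
                  (CovZ.leaf K2_ok TB_l37421 _))))
               (CovZ.n1 (-30768, 4824) (by decide +kernel)
                (CovZ.n2 (-30756, 4836) (by decide +kernel)
                 (CovZ.leaf K2_ok TB_l37422 _)
                 (CovZ.leaf K2_ok TB_l37423 _))
                (CovZ.n1 (-30756, 4812) (by decide +kernel)
                 (CovZ.leaf K2_ok TB_l37424 _)
                 (CovZ.leaf K2_ok TB_l37425 _))))))
            (CovZ.subM 2353129859973908229063068810441201667633463157817617751233734235510410903355192447274593616699243967878791168 (by decide +kernel)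
             (CovZ.n1 (-30816, 4848) (by decide +kernel)
              (CovZ.n2 (-30792, 4872) (by decide +kernel)
               (CovZ.n2 (-30792, 4848) (by decide +kernel)
                (CovZ.n2 (-30804, 4860) (by decide +kernel)
                 (CovZ.leaf K2_ok TB_l37426 _)
                 (CovZ.leaf K2_ok TB_l37427 _))
                (CovZ.leaf K2_ok TB_l37428 _))
               (CovZ.n1 (-30816, 4872) (by decide +kernel)
                (CovZ.leaf K2_ok TB_l37429 _)
                (CovZ.leaf K2_ok TB_l37430 _)))
              (CovZ.n1 (-30792, 4824) (by decide +kernel)
               (CovZ.n2 (-30816, 4824) (by decide +kernel)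
                (CovZ.leaf K2_ok TB_l37431 _)
                (CovZ.n1 (-30804, 4812) (by decide +kernel)
                 (CovZ.badM (by decide +kernel))
                 (CovZ.n1 (-30804, 4824) (by decide +kernel)
                  (CovZ.leaf K2_ok TB_l37432 _)
                  (CovZ.leaf K2_ok TB_l37433 _))))
               (CovZ.n1 (-30792, 4848) (by decide +kernel)
                (CovZ.n2 (-30780, 4836) (by decide +kernel)
                 (CovZ.leaf K2_ok TB_l37434 _)
                 (CovZ.leaf K2_ok TB_l37435 _))
                (CovZ.n1 (-30804, 4836) (by decide +kernel)
                 (CovZ.leaf K2_ok TB_l37436 _)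
                 (CovZ.leaf K2_ok TB_l37437 _)))))))))

theorem TB_u127 : CovZ TB_M (toL (selN TB_LN 603580031050075214568786047986113315572886838087991686924121045696074321436944805819289549095782169096720744448)) [0, 7, 6, 1] (-31488, 5376) (-31104, 4992) (-30720, 5376) :=
    (CovZ.n2 (-31104, 5376) (by decide +kernel)
       (CovZ.n2 (-30912, 5184) (by decide +kernel)
        (CovZ.n2 (-31104, 5184) (by decide +kernel)
         (CovZ.n2 (-31008, 5280) (by decide +kernel)
          (CovZ.n2 (-31008, 5184) (by decide +kernel)
           (CovZ.n2 (-31056, 5232) (by decide +kernel)
            (CovZ.leaf K2_ok TB_l1127 _)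
            (CovZ.leaf K2_ok TB_l1128 _))
           (CovZ.leaf K2_ok TB_l1129 _))
          (CovZ.n1 (-31104, 5280) (by decide +kernel)
           (CovZ.leaf K2_ok TB_l1130 _)
           (CovZ.n1 (-31056, 5232) (by decide +kernel)
            (CovZ.leaf K2_ok TB_l1131 _)
            (CovZ.leaf K2_ok TB_l1132 _))))
         (CovZ.n1 (-31008, 5088) (by decide +kernel)
          (CovZ.subM 601231488467301381340880621963056589761297048536513992359073885484572907169601655032805789216106108196153720832 (by decide +kernel)
           (CovZ.n2 (-31104, 5088) (by decide +kernel)
            (CovZ.n2 (-31056, 5136) (by decide +kernel)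
             (CovZ.n2 (-31056, 5088) (by decide +kernel)
              (CovZ.leaf K2_ok TB_l1133 _)
              (CovZ.leaf K2_ok TB_l1134 _))
             (CovZ.leaf K2_ok TB_l1135 _))
            (CovZ.n1 (-31056, 5040) (by decide +kernel)
             (CovZ.n2 (-31104, 5040) (by decide +kernel)
              (CovZ.n2 (-31080, 5064) (by decide +kernel)
               (CovZ.leaf K2_ok TB_l1136 _)
               (CovZ.leaf K2_ok TB_l1137 _))
              (CovZ.n1 (-31080, 5016) (by decide +kernel)
               (CovZ.leaf K2_ok TB_l1138 _)
               (CovZ.n1 (-31080, 5040) (by decide +kernel)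
                (CovZ.leaf K2_ok TB_l1139 _)
                (CovZ.leaf K2_ok TB_l1140 _))))
             (CovZ.n1 (-31056, 5088) (by decide +kernel)
              (CovZ.leaf K2_ok TB_l1141 _)
              (CovZ.n1 (-31080, 5064) (by decide +kernel)
               (CovZ.leaf K2_ok TB_l1142 _)
               (CovZ.leaf K2_ok TB_l1143 _))))))
          (CovZ.n1 (-31008, 5184) (by decide +kernel)
           (CovZ.n2 (-30960, 5136) (by decide +kernel)
            (CovZ.leaf K2_ok TB_l1144 _)
            (CovZ.leaf K2_ok TB_l1145 _))
           (CovZ.n1 (-31056, 5136) (by decide +kernel)
            (CovZ.leaf K2_ok TB_l1146 _)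
            (CovZ.leaf K2_ok TB_l1147 _)))))
        (CovZ.n1 (-30912, 5376) (by decide +kernel)
         (CovZ.n2 (-30816, 5280) (by decide +kernel)
          (CovZ.n2 (-30912, 5280) (by decide +kernel)
           (CovZ.leaf K2_ok TB_l1148 _)
           (CovZ.leaf K2_ok TB_l1149 _))
          (CovZ.n1 (-30816, 5376) (by decide +kernel)
           (CovZ.leaf K2_ok TB_l1150 _)
           (CovZ.leaf K2_ok TB_l1151 _)))
         (CovZ.n1 (-31008, 5280) (by decide +kernel)
          (CovZ.n2 (-31008, 5376) (by decide +kernel)
           (CovZ.leaf K2_ok TB_l1152 _)
           (CovZ.leaf K2_ok TB_l1153 _))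
          (CovZ.n1 (-30912, 5280) (by decide +kernel)
           (CovZ.leaf K2_ok TB_l1154 _)
           (CovZ.leaf K2_ok TB_l1155 _)))))
       (CovZ.n1 (-31296, 5184) (by decide +kernel)
        (CovZ.n2 (-31296, 5376) (by decide +kernel)
         (CovZ.n2 (-31200, 5280) (by decide +kernel)
          (CovZ.n2 (-31296, 5280) (by decide +kernel)
           (CovZ.leaf K2_ok TB_l1156 _)
           (CovZ.n1 (-31248, 5232) (by decide +kernel)
            (CovZ.leaf K2_ok TB_l1157 _)
            (CovZ.leaf K2_ok TB_l1158 _)))
          (CovZ.n1 (-31200, 5376) (by decide +kernel)
           (CovZ.leaf K2_ok TB_l1159 _)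
           (CovZ.leaf K2_ok TB_l1160 _)))
         (CovZ.subM 601226901190101306339707034235071948177471535710126718753216835746734138372171762014155171581238823493568561152 (by decide +kernel)
          (CovZ.n1 (-31392, 5280) (by decide +kernel)
           (CovZ.n2 (-31392, 5376) (by decide +kernel)
            (CovZ.n2 (-31344, 5328) (by decide +kernel)
             (CovZ.leaf K2_ok TB_l1161 _)
             (CovZ.leaf K2_ok TB_l1162 _))
            (CovZ.n1 (-31440, 5328) (by decide +kernel)
             (CovZ.leaf K2_ok TB_l1163 _)
             (CovZ.leaf K2_ok TB_l1164 _)))
           (CovZ.n1 (-31296, 5280) (by decide +kernel)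
            (CovZ.n2 (-31344, 5232) (by decide +kernel)
             (CovZ.n2 (-31344, 5280) (by decide +kernel)
              (CovZ.leaf K2_ok TB_l1165 _)
              (CovZ.leaf K2_ok TB_l1166 _))
             (CovZ.leaf K2_ok TB_l1167 _))
            (CovZ.n1 (-31344, 5328) (by decide +kernel)
             (CovZ.leaf K2_ok TB_l1168 _)
             (CovZ.leaf K2_ok TB_l1169 _))))))
        (CovZ.n1 (-31104, 5184) (by decide +kernel)
         (CovZ.subM 601231488467301379254955782196542837422408663605310755442370250370654186518193834893919338258449321064354807808 (by decide +kernel)
          (CovZ.n2 (-31200, 5088) (by decide +kernel)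
           (CovZ.n2 (-31200, 5184) (by decide +kernel)
            (CovZ.n2 (-31152, 5136) (by decide +kernel)
             (CovZ.n2 (-31200, 5136) (by decide +kernel)
              (CovZ.leaf K2_ok TB_l1170 _)
              (CovZ.n1 (-31176, 5112) (by decide +kernel)
               (CovZ.leaf K2_ok TB_l1171 _)
               (CovZ.leaf K2_ok TB_l1172 _)))
             (CovZ.n1 (-31152, 5184) (by decide +kernel)
              (CovZ.leaf K2_ok TB_l1173 _)
              (CovZ.leaf K2_ok TB_l1174 _)))
            (CovZ.subM 601226901190101306339707034235071948177471535710126718754749325441593477906918436226566149899725483992021991424 (by decide +kernel)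
             (CovZ.n1 (-31248, 5136) (by decide +kernel)
              (CovZ.n2 (-31248, 5184) (by decide +kernel)
               (CovZ.leaf K2_ok TB_l1175 _)
               (CovZ.leaf K2_ok TB_l1176 _))
              (CovZ.n1 (-31200, 5136) (by decide +kernel)
               (CovZ.leaf K2_ok TB_l1177 _)
               (CovZ.n1 (-31224, 5160) (by decide +kernel)
                (CovZ.leaf K2_ok TB_l1178 _)
                (CovZ.leaf K2_ok TB_l1179 _))))))
           (CovZ.n1 (-31104, 5088) (by decide +kernel)
            (CovZ.n2 (-31152, 5040) (by decide +kernel)
             (CovZ.n2 (-31152, 5088) (by decide +kernel)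
              (CovZ.n2 (-31128, 5064) (by decide +kernel)
               (CovZ.leaf K2_ok TB_l1180 _)
               (CovZ.leaf K2_ok TB_l1181 _))
              (CovZ.n1 (-31176, 5064) (by decide +kernel)
               (CovZ.leaf K2_ok TB_l1182 _)
               (CovZ.leaf K2_ok TB_l1183 _)))
             (CovZ.n1 (-31104, 5040) (by decide +kernel)
              (CovZ.n2 (-31128, 5016) (by decide +kernel)
               (CovZ.n2 (-31128, 5040) (by decide +kernel)
                (CovZ.leaf K2_ok TB_l1184 _)
                (CovZ.leaf K2_ok TB_l1185 _))
               (CovZ.n1 (-31104, 5016) (by decide +kernel)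
                (CovZ.leaf K2_ok TB_l1186 _)
                (CovZ.leaf K2_ok TB_l1187 _)))
              (CovZ.n1 (-31128, 5064) (by decide +kernel)
               (CovZ.leaf K2_ok TB_l1188 _)
               (CovZ.leaf K2_ok TB_l1189 _))))
            (CovZ.n1 (-31152, 5136) (by decide +kernel)
             (CovZ.leaf K2_ok TB_l1190 _)
             (CovZ.n1 (-31152, 5088) (by decide +kernel)
              (CovZ.n2 (-31176, 5112) (by decide +kernel)
               (CovZ.leaf K2_ok TB_l1191 _)
               (CovZ.leaf K2_ok TB_l1192 _))
              (CovZ.leaf K2_ok TB_l1193 _))))))
         (CovZ.n1 (-31200, 5280) (by decide +kernel)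
          (CovZ.n2 (-31104, 5280) (by decide +kernel)
           (CovZ.n2 (-31152, 5232) (by decide +kernel)
            (CovZ.leaf K2_ok TB_l1194 _)
            (CovZ.leaf K2_ok TB_l1195 _))
           (CovZ.n1 (-31152, 5328) (by decide +kernel)
            (CovZ.leaf K2_ok TB_l1196 _)
            (CovZ.leaf K2_ok TB_l1197 _)))
          (CovZ.subM 601231488467301379254955782196542837422408663605310755442370256216660735841805507708658669123581399688084979712 (by decide +kernel)
           (CovZ.n1 (-31200, 5184) (by decide +kernel)
            (CovZ.n2 (-31248, 5232) (by decide +kernel)
             (CovZ.leaf K2_ok TB_l1198 _)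
             (CovZ.leaf K2_ok TB_l1199 _))
            (CovZ.n1 (-31152, 5232) (by decide +kernel)
             (CovZ.leaf K2_ok TB_l1200 _)
             (CovZ.leaf K2_ok TB_l1201 _))))))))

theorem TB_u128 : CovZ TB_M (toL (selN TB_LN 603580031050075214568786047986113315572886838087991686924121045696074321436944805819289549095782169096720744448)) [0, 7, 6, 1] (-31104, 4992) (-30720, 4608) (-30720, 5376) :=
    (CovZ.n1 (-30720, 4992) (by decide +kernel)
       (CovZ.n2 (-30912, 4800) (by decide +kernel)
        (CovZ.n2 (-30912, 4992) (by decide +kernel)
         TB_u123
         TB_u124)
        (CovZ.n1 (-30720, 4800) (by decide +kernel)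
         TB_u125
         TB_u126))
       (CovZ.n1 (-30912, 5184) (by decide +kernel)
        (CovZ.n2 (-30720, 5184) (by decide +kernel)
         (CovZ.n2 (-30816, 5088) (by decide +kernel)
          (CovZ.n2 (-30816, 5184) (by decide +kernel)
           (CovZ.n2 (-30768, 5136) (by decide +kernel)
            (CovZ.leaf K2_ok TB_l1256 _)
            (CovZ.leaf K2_ok TB_l1257 _))
           (CovZ.n1 (-30864, 5136) (by decide +kernel)
            (CovZ.leaf K2_ok TB_l1258 _)
            (CovZ.leaf K2_ok TB_l1259 _)))
          (CovZ.n1 (-30720, 5088) (by decide +kernel)
           (CovZ.n2 (-30768, 5040) (by decide +kernel)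
            (CovZ.leaf K2_ok TB_l1260 _)
            (CovZ.leaf K2_ok TB_l1261 _))
           (CovZ.n1 (-30768, 5136) (by decide +kernel)
            (CovZ.leaf K2_ok TB_l1262 _)
            (CovZ.leaf K2_ok TB_l1263 _))))
         (CovZ.n1 (-30816, 5280) (by decide +kernel)
          (CovZ.n2 (-30720, 5280) (by decide +kernel)
           (CovZ.leaf K2_ok TB_l1264 _)
           (CovZ.leaf K2_ok TB_l1265 _))
          (CovZ.n1 (-30816, 5184) (by decide +kernel)
           (CovZ.n2 (-30864, 5232) (by decide +kernel)
            (CovZ.leaf K2_ok TB_l1266 _)
            (CovZ.leaf K2_ok TB_l1267 _))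
           (CovZ.leaf K2_ok TB_l1268 _))))
        (CovZ.n1 (-30912, 4992) (by decide +kernel)
         (CovZ.n2 (-31008, 5088) (by decide +kernel)
          (CovZ.n2 (-30912, 5088) (by decide +kernel)
           (CovZ.n2 (-30960, 5040) (by decide +kernel)
            (CovZ.n2 (-30960, 5088) (by decide +kernel)
             (CovZ.leaf K2_ok TB_l1269 _)
             (CovZ.leaf K2_ok TB_l1270 _))
            (CovZ.n1 (-30912, 5040) (by decide +kernel)
             (CovZ.leaf K2_ok TB_l1271 _)
             (CovZ.n1 (-30936, 5064) (by decide +kernel)
              (CovZ.leaf K2_ok TB_l1272 _)
              (CovZ.leaf K2_ok TB_l1273 _))))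
           (CovZ.n1 (-30960, 5136) (by decide +kernel)
            (CovZ.leaf K2_ok TB_l1274 _)
            (CovZ.leaf K2_ok TB_l1275 _)))
          (CovZ.n1 (-31008, 4992) (by decide +kernel)
           (CovZ.subM 601231488467301381340880621963056589761297048536513992359073885484572907169601655032805789216106108196153720832 (by decide +kernel)
            (CovZ.n2 (-31056, 5040) (by decide +kernel)
             (CovZ.n2 (-31008, 5040) (by decide +kernel)
              (CovZ.n2 (-31032, 5016) (by decide +kernel)
               (CovZ.leaf K2_ok TB_l1276 _)
               (CovZ.leaf K2_ok TB_l1277 _))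
              (CovZ.n1 (-31032, 5064) (by decide +kernel)
               (CovZ.leaf K2_ok TB_l1278 _)
               (CovZ.leaf K2_ok TB_l1279 _)))
             (CovZ.n1 (-31056, 4992) (by decide +kernel)
              (CovZ.n2 (-31080, 5016) (by decide +kernel)
               (CovZ.leaf K2_ok TB_l1280 _)
               (CovZ.leaf K2_ok TB_l1281 _))
              (CovZ.n1 (-31032, 5016) (by decide +kernel)
               (CovZ.leaf K2_ok TB_l1282 _)
               (CovZ.leaf K2_ok TB_l1283 _)))))
           (CovZ.n1 (-30960, 5040) (by decide +kernel)
            (CovZ.subM 2353129859973908229063069781775647780497998564892425328714687743859605765376501949562544627990088923010301952 (by decide +kernel)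
             (CovZ.n2 (-30960, 4992) (by decide +kernel)
              (CovZ.n2 (-30984, 5016) (by decide +kernel)
               (CovZ.leaf K2_ok TB_l1284 _)
               (CovZ.leaf K2_ok TB_l1285 _))
              (CovZ.n1 (-30936, 5016) (by decide +kernel)
               (CovZ.leaf K2_ok TB_l1286 _)
               (CovZ.leaf K2_ok TB_l1287 _))))
            (CovZ.n1 (-31008, 5040) (by decide +kernel)
             (CovZ.leaf K2_ok TB_l1288 _)
             (CovZ.n1 (-30984, 5016) (by decide +kernel)
              (CovZ.leaf K2_ok TB_l1289 _)
              (CovZ.leaf K2_ok TB_l1290 _))))))
         (CovZ.n1 (-30816, 5088) (by decide +kernel)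
          (CovZ.n2 (-30816, 4992) (by decide +kernel)
           (CovZ.n2 (-30864, 5040) (by decide +kernel)
            (CovZ.leaf K2_ok TB_l1291 _)
            (CovZ.n1 (-30864, 4992) (by decide +kernel)
             (CovZ.n2 (-30888, 5016) (by decide +kernel)
              (CovZ.leaf K2_ok TB_l1292 _)
              (CovZ.leaf K2_ok TB_l1293 _))
             (CovZ.leaf K2_ok TB_l1294 _)))
           (CovZ.n1 (-30768, 5040) (by decide +kernel)
            (CovZ.leaf K2_ok TB_l1295 _)
            (CovZ.leaf K2_ok TB_l1296 _)))
          (CovZ.n1 (-30912, 5088) (by decide +kernel)
           (CovZ.n2 (-30864, 5136) (by decide +kernel)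
            (CovZ.leaf K2_ok TB_l1297 _)
            (CovZ.leaf K2_ok TB_l1298 _))
           (CovZ.n1 (-30864, 5040) (by decide +kernel)
            (CovZ.leaf K2_ok TB_l1299 _)
            (CovZ.n1 (-30864, 5088) (by decide +kernel)
             (CovZ.leaf K2_ok TB_l1300 _)
             (CovZ.leaf K2_ok TB_l1301 _))))))))

theorem TB_u129 : CovZ TB_M (toL (selN TB_LN 601226901470069399111932560554752233248527070475332418855602852385127740262319778304637582148575353481774235648)) [0, 7, 6, 1] (-31104, 4992) (-31296, 5184) (-31488, 4992) :=
    (CovZ.n2 (-31296, 4992) (by decide +kernel)
          (CovZ.subM 601226901190101306339707034235071948177471535710126718753216829900727589048560089199415840716106744869838389248 (by decide +kernel)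
           (CovZ.n2 (-31392, 5088) (by decide +kernel)
            (CovZ.n2 (-31296, 5088) (by decide +kernel)
             (CovZ.n2 (-31344, 5040) (by decide +kernel)
              (CovZ.n2 (-31344, 5088) (by decide +kernel)
               (CovZ.n2 (-31320, 5064) (by decide +kernel)
                (CovZ.n2 (-31344, 5064) (by decide +kernel)
                 (CovZ.leaf K2_ok TB_l1382 _)
                 (CovZ.leaf K2_ok TB_l1383 _))
                (CovZ.n1 (-31320, 5088) (by decide +kernel)
                 (CovZ.leaf K2_ok TB_l1384 _)
                 (CovZ.leaf K2_ok TB_l1385 _)))
               (CovZ.n1 (-31368, 5064) (by decide +kernel)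
                (CovZ.n2 (-31368, 5088) (by decide +kernel)
                 (CovZ.leaf K2_ok TB_l1386 _)
                 (CovZ.leaf K2_ok TB_l1387 _))
                (CovZ.n1 (-31344, 5064) (by decide +kernel)
                 (CovZ.leaf K2_ok TB_l1388 _)
                 (CovZ.leaf K2_ok TB_l1389 _))))
              (CovZ.n1 (-31296, 5040) (by decide +kernel)
               (CovZ.n2 (-31320, 5016) (by decide +kernel)
                (CovZ.n2 (-31320, 5040) (by decide +kernel)
                 (CovZ.n2 (-31308, 5028) (by decide +kernel)
                  (CovZ.leaf K2_ok TB_l37497 _)
                  (CovZ.leaf K2_ok TB_l37498 _))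
                 (CovZ.n1 (-31332, 5028) (by decide +kernel)
                  (CovZ.n2 (-31332, 5040) (by decide +kernel)
                   (CovZ.leaf K2_ok TB_l37499 _)
                   (CovZ.leaf K2_ok TB_l37500 _))
                  (CovZ.leaf K2_ok TB_l37501 _)))
                (CovZ.n1 (-31296, 5016) (by decide +kernel)
                 (CovZ.n2 (-31308, 5004) (by decide +kernel)
                  (CovZ.leaf K2_ok TB_l37502 _)
                  (CovZ.leaf K2_ok TB_l37503 _))
                 (CovZ.n1 (-31308, 5028) (by decide +kernel)
                  (CovZ.leaf K2_ok TB_l37504 _)
                  (CovZ.leaf K2_ok TB_l37505 _))))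
               (CovZ.n1 (-31320, 5064) (by decide +kernel)
                (CovZ.n2 (-31296, 5064) (by decide +kernel)
                 (CovZ.leaf K2_ok TB_l37506 _)
                 (CovZ.leaf K2_ok TB_l1390 _))
                (CovZ.n1 (-31320, 5040) (by decide +kernel)
                 (CovZ.n2 (-31332, 5052) (by decide +kernel)
                  (CovZ.leaf K2_ok TB_l37507 _)
                  (CovZ.leaf K2_ok TB_l37508 _))
                 (CovZ.leaf K2_ok TB_l37509 _)))))
             (CovZ.n1 (-31344, 5136) (by decide +kernel)
              (CovZ.n2 (-31296, 5136) (by decide +kernel)
               (CovZ.n2 (-31320, 5112) (by decide +kernel)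
                (CovZ.n2 (-31320, 5136) (by decide +kernel)
                 (CovZ.leaf K2_ok TB_l1391 _)
                 (CovZ.leaf K2_ok TB_l1392 _))
                (CovZ.leaf K2_ok TB_l1393 _))
               (CovZ.n1 (-31320, 5160) (by decide +kernel)
                (CovZ.leaf K2_ok TB_l1394 _)
                (CovZ.leaf K2_ok TB_l1395 _)))
              (CovZ.n1 (-31344, 5088) (by decide +kernel)
               (CovZ.n2 (-31368, 5112) (by decide +kernel)
                (CovZ.n2 (-31344, 5112) (by decide +kernel)
                 (CovZ.leaf K2_ok TB_l1396 _)
                 (CovZ.leaf K2_ok TB_l1397 _))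
                (CovZ.leaf K2_ok TB_l1398 _))
               (CovZ.n1 (-31320, 5112) (by decide +kernel)
                (CovZ.n2 (-31320, 5088) (by decide +kernel)
                 (CovZ.leaf K2_ok TB_l1399 _)
                 (CovZ.leaf K2_ok TB_l1400 _))
                (CovZ.leaf K2_ok TB_l1401 _)))))
            (CovZ.n1 (-31392, 4992) (by decide +kernel)
             (CovZ.n2 (-31440, 5040) (by decide +kernel)
              (CovZ.n2 (-31392, 5040) (by decide +kernel)
               (CovZ.badM (by decide +kernel))
               (CovZ.n1 (-31416, 5064) (by decide +kernel)
                (CovZ.n2 (-31392, 5064) (by decide +kernel)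
                 (CovZ.n2 (-31404, 5052) (by decide +kernel)
                  (CovZ.leaf K2_ok TB_l37510 _)
                  (CovZ.leaf K2_ok TB_l37511 _))
                 (CovZ.leaf K2_ok TB_l1402 _))
                (CovZ.n1 (-31416, 5040) (by decide +kernel)
                 (CovZ.n2 (-31428, 5052) (by decide +kernel)
                  (CovZ.leaf K2_ok TB_l37512 _)
                  (CovZ.badM (by decide +kernel)))
                 (CovZ.n1 (-31404, 5052) (by decide +kernel)
                  (CovZ.badM (by decide +kernel))
                  (CovZ.leaf K2_ok TB_l37513 _)))))
              (CovZ.badM (by decide +kernel)))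
             (CovZ.n1 (-31344, 5040) (by decide +kernel)
              (CovZ.subM 485667223056432267729865878440390794331173869915363802010973398418040556311376035840 (by decide +kernel)
               (CovZ.n2 (-31344, 4992) (by decide +kernel)
                (CovZ.n2 (-31368, 5016) (by decide +kernel)
                 (CovZ.n2 (-31344, 5016) (by decide +kernel)
                  (CovZ.badM (by decide +kernel))
                  (CovZ.n1 (-31356, 5028) (by decide +kernel)
                   (CovZ.n2 (-31344, 5028) (by decide +kernel)
                    (CovZ.badM (by decide +kernel))
                    (CovZ.leaf K2_ok TB_l37514 _))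
                   (CovZ.badM (by decide +kernel))))
                 (CovZ.badM (by decide +kernel)))
                (CovZ.n1 (-31320, 5016) (by decide +kernel)
                 (CovZ.badM (by decide +kernel))
                 (CovZ.n1 (-31344, 5016) (by decide +kernel)
                  (CovZ.n2 (-31332, 5028) (by decide +kernel)
                   (CovZ.leaf K2_ok TB_l37515 _)
                   (CovZ.leaf K2_ok TB_l37516 _))
                  (CovZ.badM (by decide +kernel))))))
              (CovZ.n1 (-31392, 5040) (by decide +kernel)
               (CovZ.n2 (-31368, 5064) (by decide +kernel)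
                (CovZ.n2 (-31368, 5040) (by decide +kernel)
                 (CovZ.n2 (-31380, 5052) (by decide +kernel)
                  (CovZ.leaf K2_ok TB_l37517 _)
                  (CovZ.leaf K2_ok TB_l37518 _))
                 (CovZ.leaf K2_ok TB_l37519 _))
                (CovZ.n1 (-31392, 5064) (by decide +kernel)
                 (CovZ.leaf K2_ok TB_l1403 _)
                 (CovZ.n1 (-31380, 5052) (by decide +kernel)
                  (CovZ.leaf K2_ok TB_l37520 _)
                  (CovZ.leaf K2_ok TB_l37521 _))))
               (CovZ.subM 485667223056432267729865878440390794331173869915363802010973398418040556311376035840 (by decide +kernel)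
                (CovZ.n1 (-31368, 5016) (by decide +kernel)
                 (CovZ.badM (by decide +kernel))
                 (CovZ.n1 (-31368, 5040) (by decide +kernel)
                  (CovZ.leaf K2_ok TB_l37522 _)
                  (CovZ.n1 (-31380, 5028) (by decide +kernel)
                   (CovZ.n2 (-31380, 5040) (by decide +kernel)
                    (CovZ.leaf K2_ok TB_l37523 _)
                    (CovZ.badM (by decide +kernel)))
                   (CovZ.n1 (-31368, 5028) (by decide +kernel)
                    (CovZ.badM (by decide +kernel))
                    (CovZ.leaf K2_ok TB_l37524 _)))))))))))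
          (CovZ.n1 (-31200, 5088) (by decide +kernel)
           (CovZ.n2 (-31200, 4992) (by decide +kernel)
            (CovZ.n2 (-31248, 5040) (by decide +kernel)
             (CovZ.n2 (-31200, 5040) (by decide +kernel)
              (CovZ.subM 1457001669169296803189596831853682836729347967477578674699859206313224696015846637568 (by decide +kernel)
               (CovZ.n2 (-31224, 5016) (by decide +kernel)
                (CovZ.n2 (-31224, 5040) (by decide +kernel)
                 (CovZ.leaf K2_ok TB_l1404 _)
                 (CovZ.leaf K2_ok TB_l1405 _))
                (CovZ.n1 (-31200, 5016) (by decide +kernel)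
                 (CovZ.n2 (-31212, 5004) (by decide +kernel)
                  (CovZ.leaf K2_ok TB_l37525 _)
                  (CovZ.leaf K2_ok TB_l37526 _))
                 (CovZ.leaf K2_ok TB_l1406 _))))
              (CovZ.n1 (-31224, 5064) (by decide +kernel)
               (CovZ.leaf K2_ok TB_l1407 _)
               (CovZ.leaf K2_ok TB_l1408 _)))
             (CovZ.subM 1457001669169296803189596831852150341188482078619220327672708897129605956893663035392 (by decide +kernel)
              (CovZ.n1 (-31248, 4992) (by decide +kernel)
               (CovZ.n2 (-31272, 5016) (by decide +kernel)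
                (CovZ.n2 (-31248, 5016) (by decide +kernel)
                 (CovZ.n2 (-31260, 5004) (by decide +kernel)
                  (CovZ.leaf K2_ok TB_l37527 _)
                  (CovZ.leaf K2_ok TB_l37528 _))
                 (CovZ.n1 (-31260, 5028) (by decide +kernel)
                  (CovZ.leaf K2_ok TB_l37529 _)
                  (CovZ.leaf K2_ok TB_l37530 _)))
                (CovZ.n1 (-31272, 4992) (by decide +kernel)
                 (CovZ.n2 (-31284, 5004) (by decide +kernel)
                  (CovZ.leaf K2_ok TB_l37531 _)
                  (CovZ.badM (by decide +kernel)))
                 (CovZ.leaf K2_ok TB_l37532 _)))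
               (CovZ.n1 (-31224, 5016) (by decide +kernel)
                (CovZ.n2 (-31224, 4992) (by decide +kernel)
                 (CovZ.n2 (-31236, 5004) (by decide +kernel)
                  (CovZ.leaf K2_ok TB_l37533 _)
                  (CovZ.leaf K2_ok TB_l37534 _))
                 (CovZ.leaf K2_ok TB_l37535 _))
                (CovZ.n1 (-31248, 5016) (by decide +kernel)
                 (CovZ.leaf K2_ok TB_l1409 _)
                 (CovZ.n1 (-31236, 5004) (by decide +kernel)
                  (CovZ.leaf K2_ok TB_l37536 _)
                  (CovZ.leaf K2_ok TB_l37537 _)))))))
            (CovZ.n1 (-31152, 5040) (by decide +kernel)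
             (CovZ.n2 (-31152, 4992) (by decide +kernel)
              (CovZ.n2 (-31176, 5016) (by decide +kernel)
               (CovZ.n2 (-31152, 5016) (by decide +kernel)
                (CovZ.leaf K2_ok TB_l1410 _)
                (CovZ.leaf K2_ok TB_l1411 _))
               (CovZ.n1 (-31176, 4992) (by decide +kernel)
                (CovZ.leaf K2_ok TB_l37538 _)
                (CovZ.leaf K2_ok TB_l37539 _)))
              (CovZ.n1 (-31128, 5016) (by decide +kernel)
               (CovZ.n2 (-31128, 4992) (by decide +kernel)
                (CovZ.leaf K2_ok TB_l1412 _)
                (CovZ.leaf K2_ok TB_l1413 _))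
               (CovZ.leaf K2_ok TB_l1414 _)))
             (CovZ.n1 (-31200, 5040) (by decide +kernel)
              (CovZ.n2 (-31176, 5064) (by decide +kernel)
               (CovZ.leaf K2_ok TB_l1415 _)
               (CovZ.leaf K2_ok TB_l1416 _))
              (CovZ.n1 (-31176, 5016) (by decide +kernel)
               (CovZ.n2 (-31200, 5016) (by decide +kernel)
                (CovZ.leaf K2_ok TB_l1417 _)
                (CovZ.leaf K2_ok TB_l37540 _))
               (CovZ.n1 (-31176, 5040) (by decide +kernel)
                (CovZ.leaf K2_ok TB_l1418 _)
                (CovZ.leaf K2_ok TB_l1419 _))))))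
           (CovZ.n1 (-31296, 5088) (by decide +kernel)
            (CovZ.n2 (-31248, 5136) (by decide +kernel)
             (CovZ.n2 (-31248, 5088) (by decide +kernel)
              (CovZ.n2 (-31272, 5112) (by decide +kernel)
               (CovZ.leaf K2_ok TB_l1420 _)
               (CovZ.leaf K2_ok TB_l1421 _))
              (CovZ.leaf K2_ok TB_l1422 _))
             (CovZ.n1 (-31296, 5136) (by decide +kernel)
              (CovZ.leaf K2_ok TB_l1423 _)
              (CovZ.n1 (-31272, 5112) (by decide +kernel)
               (CovZ.leaf K2_ok TB_l1424 _)
               (CovZ.leaf K2_ok TB_l1425 _))))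
            (CovZ.n1 (-31248, 5040) (by decide +kernel)
             (CovZ.subM 601226901190101306339707034235071948177471535710126718753216829900727589048560089199415840716106744869838389248 (by decide +kernel)
              (CovZ.n2 (-31296, 5040) (by decide +kernel)
               (CovZ.n2 (-31272, 5064) (by decide +kernel)
                (CovZ.n2 (-31272, 5040) (by decide +kernel)
                 (CovZ.leaf K2_ok TB_l1426 _)
                 (CovZ.leaf K2_ok TB_l1427 _))
                (CovZ.leaf K2_ok TB_l1428 _))
               (CovZ.n1 (-31272, 5016) (by decide +kernel)
                (CovZ.n2 (-31296, 5016) (by decide +kernel)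
                 (CovZ.leaf K2_ok TB_l37541 _)
                 (CovZ.n1 (-31284, 5004) (by decide +kernel)
                  (CovZ.leaf K2_ok TB_l37542 _)
                  (CovZ.leaf K2_ok TB_l37543 _)))
                (CovZ.n1 (-31272, 5040) (by decide +kernel)
                 (CovZ.leaf K2_ok TB_l37544 _)
                 (CovZ.leaf K2_ok TB_l37545 _)))))
             (CovZ.n1 (-31248, 5088) (by decide +kernel)
              (CovZ.n2 (-31224, 5064) (by decide +kernel)
               (CovZ.leaf K2_ok TB_l1429 _)
               (CovZ.leaf K2_ok TB_l1430 _))
              (CovZ.subM 601226901190101306339707034235071948177471535710126718753216829900727589048560089199415840716106744869838389248 (by decide +kernel)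
               (CovZ.n1 (-31272, 5064) (by decide +kernel)
                (CovZ.n2 (-31272, 5088) (by decide +kernel)
                 (CovZ.leaf K2_ok TB_l1431 _)
                 (CovZ.leaf K2_ok TB_l1432 _))
                (CovZ.n1 (-31248, 5064) (by decide +kernel)
                 (CovZ.leaf K2_ok TB_l1433 _)
                 (CovZ.leaf K2_ok TB_l1434 _)))))))))

theorem TB_u130 : CovZ TB_M (toL (selN TB_LN 601226901470069399111932560554752233248527070475332418855602852385127740262319778304637582148575353481774235648)) [0, 7, 6, 1] (-31296, 5184) (-31488, 5376) (-31488, 4992) :=
    (CovZ.n1 (-31488, 5184) (by decide +kernel)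
          (CovZ.n2 (-31392, 5280) (by decide +kernel)
           (CovZ.n2 (-31392, 5184) (by decide +kernel)
            (CovZ.n2 (-31440, 5232) (by decide +kernel)
             (CovZ.leaf K2_ok TB_l1435 _)
             (CovZ.n1 (-31440, 5184) (by decide +kernel)
              (CovZ.n2 (-31464, 5208) (by decide +kernel)
               (CovZ.leaf K2_ok TB_l1436 _)
               (CovZ.leaf K2_ok TB_l1437 _))
              (CovZ.n1 (-31416, 5208) (by decide +kernel)
               (CovZ.leaf K2_ok TB_l1438 _)
               (CovZ.leaf K2_ok TB_l1439 _))))
            (CovZ.n1 (-31344, 5232) (by decide +kernel)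
             (CovZ.n2 (-31344, 5184) (by decide +kernel)
              (CovZ.n2 (-31368, 5208) (by decide +kernel)
               (CovZ.leaf K2_ok TB_l1440 _)
               (CovZ.leaf K2_ok TB_l1441 _))
              (CovZ.leaf K2_ok TB_l1442 _))
             (CovZ.leaf K2_ok TB_l1443 _)))
           (CovZ.n1 (-31488, 5280) (by decide +kernel)
            (CovZ.n2 (-31440, 5328) (by decide +kernel)
             (CovZ.leaf K2_ok TB_l1444 _)
             (CovZ.leaf K2_ok TB_l1445 _))
            (CovZ.n1 (-31440, 5232) (by decide +kernel)
             (CovZ.n2 (-31488, 5232) (by decide +kernel)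
              (CovZ.leaf K2_ok TB_l1446 _)
              (CovZ.n1 (-31464, 5208) (by decide +kernel)
               (CovZ.leaf K2_ok TB_l1447 _)
               (CovZ.leaf K2_ok TB_l1448 _)))
             (CovZ.n1 (-31440, 5280) (by decide +kernel)
              (CovZ.leaf K2_ok TB_l1449 _)
              (CovZ.leaf K2_ok TB_l1450 _)))))
          (CovZ.subM 601226901190101306339707034235071948177471535710126718753216829900727589048560089199415840716106744869838389248 (by decide +kernel)
           (CovZ.n1 (-31392, 5088) (by decide +kernel)
            (CovZ.n2 (-31488, 5088) (by decide +kernel)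
             (CovZ.n2 (-31440, 5136) (by decide +kernel)
              (CovZ.n2 (-31440, 5088) (by decide +kernel)
               (CovZ.n2 (-31464, 5112) (by decide +kernel)
                (CovZ.n2 (-31440, 5112) (by decide +kernel)
                 (CovZ.leaf K2_ok TB_l1451 _)
                 (CovZ.leaf K2_ok TB_l1452 _))
                (CovZ.n1 (-31464, 5088) (by decide +kernel)
                 (CovZ.n2 (-31476, 5100) (by decide +kernel)
                  (CovZ.leaf K2_ok TB_l37546 _)
                  (CovZ.leaf K2_ok TB_l37547 _))
                 (CovZ.leaf K2_ok TB_l37548 _)))
               (CovZ.n1 (-31416, 5112) (by decide +kernel)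
                (CovZ.n2 (-31416, 5088) (by decide +kernel)
                 (CovZ.leaf K2_ok TB_l1453 _)
                 (CovZ.leaf K2_ok TB_l1454 _))
                (CovZ.leaf K2_ok TB_l1455 _)))
              (CovZ.n1 (-31488, 5136) (by decide +kernel)
               (CovZ.n2 (-31464, 5160) (by decide +kernel)
                (CovZ.leaf K2_ok TB_l1456 _)
                (CovZ.leaf K2_ok TB_l1457 _))
               (CovZ.n1 (-31464, 5112) (by decide +kernel)
                (CovZ.n2 (-31488, 5112) (by decide +kernel)
                 (CovZ.leaf K2_ok TB_l37549 _)
                 (CovZ.leaf K2_ok TB_l37550 _))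
                (CovZ.n1 (-31464, 5136) (by decide +kernel)
                 (CovZ.leaf K2_ok TB_l1458 _)
                 (CovZ.leaf K2_ok TB_l1459 _)))))
             (CovZ.n1 (-31440, 5040) (by decide +kernel)
              (CovZ.n2 (-31488, 5040) (by decide +kernel)
               (CovZ.n2 (-31464, 5064) (by decide +kernel)
                (CovZ.badM (by decide +kernel))
                (CovZ.n1 (-31488, 5064) (by decide +kernel)
                 (CovZ.leaf K2_ok TB_l37551 _)
                 (CovZ.badM (by decide +kernel))))
               (CovZ.badM (by decide +kernel)))
              (CovZ.n1 (-31440, 5088) (by decide +kernel)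
               (CovZ.n2 (-31416, 5064) (by decide +kernel)
                (CovZ.n2 (-31440, 5064) (by decide +kernel)
                 (CovZ.leaf K2_ok TB_l37552 _)
                 (CovZ.n1 (-31428, 5052) (by decide +kernel)
                  (CovZ.badM (by decide +kernel))
                  (CovZ.n1 (-31428, 5064) (by decide +kernel)
                   (CovZ.leaf K2_ok TB_l37553 _)
                   (CovZ.leaf K2_ok TB_l37554 _))))
                (CovZ.n1 (-31416, 5088) (by decide +kernel)
                 (CovZ.leaf K2_ok TB_l1460 _)
                 (CovZ.n1 (-31428, 5076) (by decide +kernel)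
                  (CovZ.leaf K2_ok TB_l37555 _)
                  (CovZ.leaf K2_ok TB_l37556 _))))
               (CovZ.n1 (-31464, 5064) (by decide +kernel)
                (CovZ.n2 (-31464, 5088) (by decide +kernel)
                 (CovZ.leaf K2_ok TB_l37557 _)
                 (CovZ.leaf K2_ok TB_l37558 _))
                (CovZ.n1 (-31440, 5064) (by decide +kernel)
                 (CovZ.badM (by decide +kernel))
                 (CovZ.n1 (-31452, 5076) (by decide +kernel)
                  (CovZ.leaf K2_ok TB_l37559 _)
                  (CovZ.leaf K2_ok TB_l37560 _)))))))
            (CovZ.n1 (-31392, 5184) (by decide +kernel)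
             (CovZ.n2 (-31344, 5136) (by decide +kernel)
              (CovZ.n2 (-31392, 5136) (by decide +kernel)
               (CovZ.n2 (-31368, 5160) (by decide +kernel)
                (CovZ.leaf K2_ok TB_l1461 _)
                (CovZ.leaf K2_ok TB_l1462 _))
               (CovZ.n1 (-31368, 5112) (by decide +kernel)
                (CovZ.leaf K2_ok TB_l1463 _)
                (CovZ.leaf K2_ok TB_l1464 _)))
              (CovZ.n1 (-31344, 5184) (by decide +kernel)
               (CovZ.n2 (-31320, 5160) (by decide +kernel)
                (CovZ.leaf K2_ok TB_l1465 _)
                (CovZ.leaf K2_ok TB_l1466 _))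
               (CovZ.n1 (-31368, 5160) (by decide +kernel)
                (CovZ.leaf K2_ok TB_l1467 _)
                (CovZ.leaf K2_ok TB_l1468 _))))
             (CovZ.n1 (-31440, 5136) (by decide +kernel)
              (CovZ.n2 (-31440, 5184) (by decide +kernel)
               (CovZ.n2 (-31416, 5160) (by decide +kernel)
                (CovZ.leaf K2_ok TB_l1469 _)
                (CovZ.leaf K2_ok TB_l1470 _))
               (CovZ.n1 (-31464, 5160) (by decide +kernel)
                (CovZ.leaf K2_ok TB_l1471 _)
                (CovZ.leaf K2_ok TB_l1472 _)))
              (CovZ.n1 (-31392, 5136) (by decide +kernel)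
               (CovZ.n2 (-31416, 5112) (by decide +kernel)
                (CovZ.n2 (-31416, 5136) (by decide +kernel)
                 (CovZ.leaf K2_ok TB_l1473 _)
                 (CovZ.leaf K2_ok TB_l1474 _))
                (CovZ.leaf K2_ok TB_l1475 _))
               (CovZ.n1 (-31416, 5160) (by decide +kernel)
                (CovZ.leaf K2_ok TB_l1476 _)
                (CovZ.leaf K2_ok TB_l1477 _))))))))

theorem TB_u131 : CovZ TB_M (toL (selN TB_LN 603580031050075214568786047986113315572886838087991686924121045696074321436944805819289549095782169096720744448)) [0, 7, 6, 1] (-32256, 4608) (-31488, 4608) (-31488, 5376) :=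
    (CovZ.subM 601226901190101306339707034235071948177471535710126718753216835746734138372171762014155171581238823493568561152 (by decide +kernel)
      (CovZ.n2 (-31872, 4992) (by decide +kernel)
       (CovZ.n2 (-31488, 4992) (by decide +kernel)
        (CovZ.badM (by decide +kernel))
        (CovZ.n1 (-31680, 5184) (by decide +kernel)
         (CovZ.n2 (-31488, 5184) (by decide +kernel)
          (CovZ.n2 (-31584, 5088) (by decide +kernel)
           (CovZ.n2 (-31584, 5184) (by decide +kernel)
            (CovZ.n2 (-31536, 5136) (by decide +kernel)
             (CovZ.badM (by decide +kernel))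
             (CovZ.n1 (-31536, 5184) (by decide +kernel)
              (CovZ.n2 (-31512, 5160) (by decide +kernel)
               (CovZ.badM (by decide +kernel))
               (CovZ.n1 (-31512, 5184) (by decide +kernel)
                (CovZ.leaf K2_ok TB_l1339 _)
                (CovZ.badM (by decide +kernel))))
              (CovZ.badM (by decide +kernel))))
            (CovZ.badM (by decide +kernel)))
           (CovZ.n1 (-31488, 5088) (by decide +kernel)
            (CovZ.subM 1457001669169296803189596430117639276440913193128697242382058266578857511195454210048 (by decide +kernel)
             (CovZ.n2 (-31536, 5040) (by decide +kernel)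
              (CovZ.n2 (-31536, 5088) (by decide +kernel)
               (CovZ.n2 (-31512, 5064) (by decide +kernel)
                (CovZ.badM (by decide +kernel))
                (CovZ.n1 (-31512, 5088) (by decide +kernel)
                 (CovZ.n2 (-31500, 5076) (by decide +kernel)
                  (CovZ.badM (by decide +kernel))
                  (CovZ.n1 (-31500, 5088) (by decide +kernel)
                   (CovZ.leaf K2_ok TB_l37438 _)
                   (CovZ.badM (by decide +kernel))))
                 (CovZ.badM (by decide +kernel))))
               (CovZ.badM (by decide +kernel)))
              (CovZ.n1 (-31488, 5040) (by decide +kernel)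
               (CovZ.badM (by decide +kernel))
               (CovZ.n1 (-31512, 5064) (by decide +kernel)
                (CovZ.n2 (-31488, 5064) (by decide +kernel)
                 (CovZ.badM (by decide +kernel))
                 (CovZ.n1 (-31500, 5076) (by decide +kernel)
                  (CovZ.leaf K2_ok TB_l37439 _)
                  (CovZ.badM (by decide +kernel))))
                (CovZ.badM (by decide +kernel))))))
            (CovZ.n1 (-31536, 5136) (by decide +kernel)
             (CovZ.n2 (-31488, 5136) (by decide +kernel)
              (CovZ.n2 (-31512, 5112) (by decide +kernel)
               (CovZ.n2 (-31512, 5136) (by decide +kernel)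
                (CovZ.leaf K2_ok TB_l37440 _)
                (CovZ.badM (by decide +kernel)))
               (CovZ.n1 (-31488, 5112) (by decide +kernel)
                (CovZ.leaf K2_ok TB_l37441 _)
                (CovZ.n1 (-31500, 5124) (by decide +kernel)
                 (CovZ.leaf K2_ok TB_l37442 _)
                 (CovZ.leaf K2_ok TB_l37443 _))))
              (CovZ.n1 (-31512, 5160) (by decide +kernel)
               (CovZ.n2 (-31488, 5160) (by decide +kernel)
                (CovZ.leaf K2_ok TB_l1351 _)
                (CovZ.leaf K2_ok TB_l1352 _))
               (CovZ.n1 (-31512, 5136) (by decide +kernel)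
                (CovZ.badM (by decide +kernel))
                (CovZ.leaf K2_ok TB_l1354 _))))
             (CovZ.n1 (-31536, 5088) (by decide +kernel)
              (CovZ.badM (by decide +kernel))
              (CovZ.n1 (-31512, 5112) (by decide +kernel)
               (CovZ.n2 (-31512, 5088) (by decide +kernel)
                (CovZ.badM (by decide +kernel))
                (CovZ.n1 (-31500, 5100) (by decide +kernel)
                 (CovZ.leaf K2_ok TB_l37444 _)
                 (CovZ.badM (by decide +kernel))))
               (CovZ.badM (by decide +kernel)))))))
          (CovZ.n1 (-31584, 5280) (by decide +kernel)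
           (CovZ.n2 (-31488, 5280) (by decide +kernel)
            (CovZ.n2 (-31536, 5232) (by decide +kernel)
             (CovZ.n2 (-31536, 5280) (by decide +kernel)
              (CovZ.leaf K2_ok TB_l1355 _)
              (CovZ.leaf K2_ok TB_l1356 _))
             (CovZ.n1 (-31488, 5232) (by decide +kernel)
              (CovZ.n2 (-31512, 5208) (by decide +kernel)
               (CovZ.leaf K2_ok TB_l1357 _)
               (CovZ.leaf K2_ok TB_l1358 _))
              (CovZ.n1 (-31512, 5256) (by decide +kernel)
               (CovZ.leaf K2_ok TB_l1359 _)
               (CovZ.leaf K2_ok TB_l1360 _))))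
            (CovZ.n1 (-31536, 5328) (by decide +kernel)
             (CovZ.leaf K2_ok TB_l1361 _)
             (CovZ.leaf K2_ok TB_l1362 _)))
           (CovZ.n1 (-31584, 5184) (by decide +kernel)
            (CovZ.badM (by decide +kernel))
            (CovZ.n1 (-31536, 5232) (by decide +kernel)
             (CovZ.n2 (-31536, 5184) (by decide +kernel)
              (CovZ.badM (by decide +kernel))
              (CovZ.n1 (-31512, 5208) (by decide +kernel)
               (CovZ.leaf K2_ok TB_l1375 _)
               (CovZ.badM (by decide +kernel))))
             (CovZ.badM (by decide +kernel))))))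
         (CovZ.n1 (-31680, 4992) (by decide +kernel)
          (CovZ.badM (by decide +kernel))
          (CovZ.n1 (-31584, 5088) (by decide +kernel)
           (CovZ.badM (by decide +kernel))
           (CovZ.badM (by decide +kernel))))))
       (CovZ.badM (by decide +kernel))))

theorem TB_u132 : CovZ TB_M (toL (selN TB_LN 603580031050075214568786047986113315572886838087991686924121045696074321436944805819289549095782169096720744448)) [0, 7, 6, 1] (-31488, 4608) (-30720, 4608) (-31488, 5376) :=
    (CovZ.n1 (-31104, 4992) (by decide +kernel)
      (CovZ.subM 2348542862741928086039878251352873105417004686573631976806794750125309556208057967705923339189400424309325824 (by decide +kernel)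
       (CovZ.n2 (-31104, 4608) (by decide +kernel)
        (CovZ.subM 279968092772225526805347508127487802495071565988573433732310733311719736921952270622779455351195435008 (by decide +kernel)
         (CovZ.n2 (-31296, 4800) (by decide +kernel)
          (CovZ.n2 (-31104, 4800) (by decide +kernel)
           (CovZ.badM (by decide +kernel))
           (CovZ.n1 (-31200, 4896) (by decide +kernel)
            (CovZ.n2 (-31104, 4896) (by decide +kernel)
             (CovZ.badM (by decide +kernel))
             (CovZ.n1 (-31152, 4944) (by decide +kernel)
              (CovZ.n2 (-31104, 4944) (by decide +kernel)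
               (CovZ.subM 401734511064747568885490523085290650630550748445698208825344 (by decide +kernel)
                (CovZ.n2 (-31128, 4920) (by decide +kernel)
                 (CovZ.n2 (-31128, 4944) (by decide +kernel)
                  (CovZ.n2 (-31116, 4932) (by decide +kernel)
                   (CovZ.badM (by decide +kernel))
                   (CovZ.n1 (-31116, 4944) (by decide +kernel)
                    (CovZ.leaf K2_ok TB_l37445 _)
                    (CovZ.badM (by decide +kernel))))
                  (CovZ.badM (by decide +kernel)))
                 (CovZ.n1 (-31104, 4920) (by decide +kernel)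
                  (CovZ.badM (by decide +kernel))
                  (CovZ.n1 (-31116, 4932) (by decide +kernel)
                   (CovZ.n2 (-31104, 4932) (by decide +kernel)
                    (CovZ.badM (by decide +kernel))
                    (CovZ.leaf K2_ok TB_l37451 _))
                   (CovZ.badM (by decide +kernel))))))
               (CovZ.n1 (-31128, 4968) (by decide +kernel)
                (CovZ.n2 (-31104, 4968) (by decide +kernel)
                 (CovZ.leaf K2_ok TB_l37453 _)
                 (CovZ.leaf K2_ok TB_l1380 _))
                (CovZ.n1 (-31128, 4944) (by decide +kernel)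
                 (CovZ.n2 (-31140, 4956) (by decide +kernel)
                  (CovZ.leaf K2_ok TB_l37454 _)
                  (CovZ.badM (by decide +kernel)))
                 (CovZ.leaf K2_ok TB_l37455 _))))
              (CovZ.badM (by decide +kernel))))
            (CovZ.badM (by decide +kernel))))
          (CovZ.badM (by decide +kernel))))
        (CovZ.n1 (-30912, 4800) (by decide +kernel)
         (CovZ.n2 (-30912, 4608) (by decide +kernel)
          (CovZ.badM (by decide +kernel))
          (CovZ.n1 (-30816, 4704) (by decide +kernel)
           (CovZ.badM (by decide +kernel))
           (CovZ.badM (by decide +kernel))))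
         (CovZ.n1 (-31104, 4800) (by decide +kernel)
          (CovZ.n2 (-31008, 4896) (by decide +kernel)
           (CovZ.subM 2348542582773833227889480596789337027375682548908319872239786512398097883472955470614008182003507825215537152 (by decide +kernel)
            (CovZ.n2 (-31008, 4800) (by decide +kernel)
             (CovZ.n2 (-31056, 4848) (by decide +kernel)
              (CovZ.n2 (-31008, 4848) (by decide +kernel)
               (CovZ.badM (by decide +kernel))
               (CovZ.n1 (-31032, 4872) (by decide +kernel)
                (CovZ.n2 (-31008, 4872) (by decide +kernel)
                 (CovZ.badM (by decide +kernel))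
                 (CovZ.n1 (-31020, 4884) (by decide +kernel)
                  (CovZ.n2 (-31008, 4884) (by decide +kernel)
                   (CovZ.badM (by decide +kernel))
                   (CovZ.leaf K2_ok TB_l37456 _))
                  (CovZ.badM (by decide +kernel))))
                (CovZ.badM (by decide +kernel))))
              (CovZ.badM (by decide +kernel)))
             (CovZ.n1 (-30960, 4848) (by decide +kernel)
              (CovZ.badM (by decide +kernel))
              (CovZ.n1 (-31008, 4848) (by decide +kernel)
               (CovZ.n2 (-30984, 4872) (by decide +kernel)
                (CovZ.badM (by decide +kernel))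
                (CovZ.n1 (-31008, 4872) (by decide +kernel)
                 (CovZ.n2 (-30996, 4884) (by decide +kernel)
                  (CovZ.badM (by decide +kernel))
                  (CovZ.leaf K2_ok TB_l37457 _))
                 (CovZ.badM (by decide +kernel))))
               (CovZ.badM (by decide +kernel))))))
           (CovZ.subM 279968092772225526805347508127487802495071565988573433732310733311719736921952270622779455351195435008 (by decide +kernel)
            (CovZ.n1 (-31104, 4896) (by decide +kernel)
             (CovZ.n2 (-31056, 4944) (by decide +kernel)
              (CovZ.n2 (-31056, 4896) (by decide +kernel)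
               (CovZ.n2 (-31080, 4920) (by decide +kernel)
                (CovZ.n2 (-31056, 4920) (by decide +kernel)
                 (CovZ.badM (by decide +kernel))
                 (CovZ.n1 (-31068, 4932) (by decide +kernel)
                  (CovZ.n2 (-31056, 4932) (by decide +kernel)
                   (CovZ.leaf K2_ok TB_l37462 _)
                   (CovZ.leaf K2_ok TB_l37463 _))
                  (CovZ.n1 (-31068, 4920) (by decide +kernel)
                   (CovZ.leaf K2_ok TB_l37464 _)
                   (CovZ.leaf K2_ok TB_l37465 _))))
                (CovZ.badM (by decide +kernel)))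
               (CovZ.n1 (-31032, 4920) (by decide +kernel)
                (CovZ.n2 (-31032, 4896) (by decide +kernel)
                 (CovZ.n2 (-31044, 4908) (by decide +kernel)
                  (CovZ.leaf K2_ok TB_l37474 _)
                  (CovZ.badM (by decide +kernel)))
                 (CovZ.leaf K2_ok TB_l37476 _))
                (CovZ.n1 (-31056, 4920) (by decide +kernel)
                 (CovZ.n2 (-31044, 4932) (by decide +kernel)
                  (CovZ.leaf K2_ok TB_l37477 _)
                  (CovZ.leaf K2_ok TB_l37478 _))
                 (CovZ.n1 (-31044, 4908) (by decide +kernel)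
                  (CovZ.badM (by decide +kernel))
                  (CovZ.leaf K2_ok TB_l37480 _)))))
              (CovZ.n1 (-31104, 4944) (by decide +kernel)
               (CovZ.n2 (-31080, 4968) (by decide +kernel)
                (CovZ.n2 (-31080, 4944) (by decide +kernel)
                 (CovZ.n2 (-31092, 4956) (by decide +kernel)
                  (CovZ.leaf K2_ok TB_l37481 _)
                  (CovZ.leaf K2_ok TB_l37482 _))
                 (CovZ.leaf K2_ok TB_l37483 _))
                (CovZ.n1 (-31104, 4968) (by decide +kernel)
                 (CovZ.leaf K2_ok TB_l1381 _)
                 (CovZ.leaf K2_ok TB_l37484 _)))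
               (CovZ.n1 (-31080, 4920) (by decide +kernel)
                (CovZ.n2 (-31104, 4920) (by decide +kernel)
                 (CovZ.n2 (-31092, 4932) (by decide +kernel)
                  (CovZ.badM (by decide +kernel))
                  (CovZ.leaf K2_ok TB_l37487 _))
                 (CovZ.badM (by decide +kernel)))
                (CovZ.n1 (-31080, 4944) (by decide +kernel)
                 (CovZ.n2 (-31068, 4932) (by decide +kernel)
                  (CovZ.leaf K2_ok TB_l37492 _)
                  (CovZ.leaf K2_ok TB_l37493 _))
                 (CovZ.n1 (-31092, 4932) (by decide +kernel)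
                  (CovZ.leaf K2_ok TB_l37494 _)
                  (CovZ.leaf K2_ok TB_l37495 _))))))
             (CovZ.subM 1532495540865888858358347027150309183618739122183602176 (by decide +kernel)
              (CovZ.n1 (-31056, 4848) (by decide +kernel)
               (CovZ.badM (by decide +kernel))
               (CovZ.n1 (-31056, 4896) (by decide +kernel)
                (CovZ.n2 (-31032, 4872) (by decide +kernel)
                 (CovZ.badM (by decide +kernel))
                 (CovZ.n1 (-31032, 4896) (by decide +kernel)
                  (CovZ.n2 (-31020, 4884) (by decide +kernel)
                   (CovZ.badM (by decide +kernel))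
                   (CovZ.n1 (-31020, 4896) (by decide +kernel)
                    (CovZ.leaf K2_ok TB_l37496 _)
                    (CovZ.badM (by decide +kernel))))
                  (CovZ.badM (by decide +kernel))))
                (CovZ.badM (by decide +kernel))))))))
          (CovZ.badM (by decide +kernel))))))
      (CovZ.subM 601226901470069399111932560554752233248527070475332418855602852385127740262319778304637582148575353481774235648 (by decide +kernel)
       (CovZ.n1 (-31488, 4992) (by decide +kernel)
        (CovZ.n2 (-31296, 5184) (by decide +kernel)
         TB_u129
         TB_u130)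
        (CovZ.n1 (-31296, 4800) (by decide +kernel)
         (CovZ.badM (by decide +kernel))
         (CovZ.n1 (-31296, 4992) (by decide +kernel)
          (CovZ.n2 (-31200, 4896) (by decide +kernel)
           (CovZ.badM (by decide +kernel))
           (CovZ.n1 (-31200, 4992) (by decide +kernel)
            (CovZ.n2 (-31152, 4944) (by decide +kernel)
             (CovZ.subM 485667223056432267729865878440390794331173869915363802010973398418040556311376035840 (by decide +kernel)
              (CovZ.n2 (-31200, 4944) (by decide +kernel)
               (CovZ.n2 (-31176, 4968) (by decide +kernel)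
                (CovZ.badM (by decide +kernel))
                (CovZ.n1 (-31200, 4968) (by decide +kernel)
                 (CovZ.leaf K2_ok TB_l37561 _)
                 (CovZ.badM (by decide +kernel))))
               (CovZ.badM (by decide +kernel))))
             (CovZ.n1 (-31152, 4992) (by decide +kernel)
              (CovZ.n2 (-31128, 4968) (by decide +kernel)
               (CovZ.subM 485667223056432267729865878441923289872039758773722149038123707601659295433559638016 (by decide +kernel)
                (CovZ.n2 (-31152, 4968) (by decide +kernel)
                 (CovZ.n2 (-31140, 4980) (by decide +kernel)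
                  (CovZ.leaf K2_ok TB_l37562 _)
                  (CovZ.leaf K2_ok TB_l37563 _))
                 (CovZ.n1 (-31140, 4956) (by decide +kernel)
                  (CovZ.leaf K2_ok TB_l37564 _)
                  (CovZ.leaf K2_ok TB_l37565 _))))
               (CovZ.n1 (-31128, 4992) (by decide +kernel)
                (CovZ.leaf K2_ok TB_l1478 _)
                (CovZ.leaf K2_ok TB_l1479 _)))
              (CovZ.subM 485667223056432267729865878441923289872039758773722149038123707601659295433559638016 (by decide +kernel)
               (CovZ.n1 (-31176, 4968) (by decide +kernel)
                (CovZ.n2 (-31176, 4992) (by decide +kernel)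
                 (CovZ.n2 (-31164, 4980) (by decide +kernel)
                  (CovZ.leaf K2_ok TB_l37566 _)
                  (CovZ.leaf K2_ok TB_l37567 _))
                 (CovZ.n1 (-31188, 4980) (by decide +kernel)
                  (CovZ.n2 (-31188, 4992) (by decide +kernel)
                   (CovZ.leaf K2_ok TB_l37568 _)
                   (CovZ.leaf K2_ok TB_l37569 _))
                  (CovZ.leaf K2_ok TB_l37570 _)))
                (CovZ.n1 (-31152, 4968) (by decide +kernel)
                 (CovZ.n2 (-31164, 4956) (by decide +kernel)
                  (CovZ.n2 (-31164, 4968) (by decide +kernel)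
                   (CovZ.leaf K2_ok TB_l37571 _)
                   (CovZ.leaf K2_ok TB_l37572 _))
                  (CovZ.n1 (-31152, 4956) (by decide +kernel)
                   (CovZ.badM (by decide +kernel))
                   (CovZ.leaf K2_ok TB_l37573 _)))
                 (CovZ.n1 (-31164, 4980) (by decide +kernel)
                  (CovZ.leaf K2_ok TB_l37574 _)
                  (CovZ.leaf K2_ok TB_l37575 _)))))))
            (CovZ.subM 485667223056432267729865878440390794331173869915363802010973398418040556311376035840 (by decide +kernel)
             (CovZ.n1 (-31248, 4944) (by decide +kernel)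
              (CovZ.n2 (-31248, 4992) (by decide +kernel)
               (CovZ.n2 (-31224, 4968) (by decide +kernel)
                (CovZ.badM (by decide +kernel))
                (CovZ.n1 (-31224, 4992) (by decide +kernel)
                 (CovZ.n2 (-31212, 4980) (by decide +kernel)
                  (CovZ.leaf K2_ok TB_l37576 _)
                  (CovZ.n1 (-31212, 4992) (by decide +kernel)
                   (CovZ.leaf K2_ok TB_l37577 _)
                   (CovZ.leaf K2_ok TB_l37578 _)))
                 (CovZ.n1 (-31236, 4980) (by decide +kernel)
                  (CovZ.n2 (-31236, 4992) (by decide +kernel)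
                   (CovZ.leaf K2_ok TB_l37579 _)
                   (CovZ.badM (by decide +kernel)))
                  (CovZ.leaf K2_ok TB_l37580 _))))
               (CovZ.badM (by decide +kernel)))
              (CovZ.n1 (-31200, 4944) (by decide +kernel)
               (CovZ.badM (by decide +kernel))
               (CovZ.n1 (-31224, 4968) (by decide +kernel)
                (CovZ.n2 (-31200, 4968) (by decide +kernel)
                 (CovZ.badM (by decide +kernel))
                 (CovZ.n1 (-31212, 4980) (by decide +kernel)
                  (CovZ.leaf K2_ok TB_l37581 _)
                  (CovZ.badM (by decide +kernel))))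
                (CovZ.badM (by decide +kernel))))))))
          (CovZ.badM (by decide +kernel)))))))

end Pool.Agent.TET
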