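import Pool.Agent.Helper38_TET.CovN

/-!
# MP_c7c9bf_co: certificates, family TC
-/

set_option autoImplicit false
set_option maxRecDepth 100000

namespace Pool.Agent.TET

/-- the polygons -/
def TC_L : List (List Z3) :=
  [[⟨6758400, -3452, -230⟩, ⟨5038080, -1419, -2888⟩, ⟨-6635520, 3712, -241⟩, ⟨-5160960, 1752, 2425⟩],
   [⟨6144000, -2869, -849⟩, ⟨-3072000, 2828, -2828⟩, ⟨-4792320, 1041, 3571⟩],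
   [⟨368640, -1718, 3612⟩, ⟨5529600, -2164, -1749⟩, ⟨-122880, 83, -42⟩],
   [⟨4423680, -638, -3949⟩, ⟨-6021120, 2815, 1015⟩, ⟨1720320, -2259, 3301⟩, ⟨6144000, -2867, -857⟩],
   [⟨4792320, -990, -3586⟩, ⟨-6512640, 3452, 236⟩, ⟨-4792320, 1364, 2914⟩, ⟨6881280, -3930, 743⟩],
   [⟨-5529600, 2358, 1478⟩, ⟨5283840, -3550, 1844⟩, ⟨2580480, -828, -1246⟩, ⟨0, 205, -456⟩],
   [⟨6389760, -3833, 1143⟩, ⟨2457600, -673, -1461⟩, ⟨-3809280, 3129, -2492⟩, ⟨-5529600, 2406, 1397⟩, ⟨-245760, -1379, 3755⟩],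
   [⟨1597440, -1414, 1414⟩, ⟨6144000, -2871, -843⟩, ⟨4669440, -913, -3606⟩, ⟨-6512640, 3460, 0⟩],
   [⟨5160960, -1357, -3182⟩, ⟨-1597440, 865, 0⟩, ⟨-4915200, 1343, 3188⟩, ⟨6512640, -3458, 91⟩],
   [⟨6635520, -3459, -50⟩, ⟨1228800, -81, -1331⟩, ⟨-1597440, 865, 0⟩, ⟨-245760, -47, 442⟩],
   [⟨-2334720, 2541, -3089⟩, ⟨-4669440, 1051, 3568⟩, ⟨6635520, -3459, -49⟩, ⟨5775360, -2148, -2083⟩],
   [⟨-4669440, 3450, -2025⟩, ⟨-5283840, 1629, 2774⟩, ⟨6758400, -3701, 373⟩, ⟨5406720, -1675, -2747⟩],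
   [⟨6758400, -3453, -215⟩, ⟨2334720, -464, -1801⟩, ⟨-5775360, 2190, 2039⟩]]

/-- the polygons in natural numbers -/
def TC_LN : List (List N6) :=
  [[⟨0, 3452, 0, 230, 489365504, 0⟩, ⟨0, 1419, 0, 2888, 569565184, 0⟩, ⟨3712, 0, 0, 241, 0, 461586432⟩, ⟨1752, 0, 2425, 0, 0, 552648704⟩],
   [⟨0, 2869, 0, 849, 493469696, 0⟩, ⟨2828, 0, 0, 2828, 0, 3072000⟩, ⟨1041, 0, 3571, 0, 0, 609296384⟩],
   [⟨0, 1718, 3612, 0, 0, 247881728⟩, ⟨0, 2164, 0, 1749, 518414336, 0⟩, ⟨83, 0, 0, 42, 0, 5496832⟩],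
   [⟨0, 638, 0, 3949, 605650944, 0⟩, ⟨2815, 0, 1015, 0, 0, 508026880⟩, ⟨0, 2259, 3301, 0, 0, 134856704⟩, ⟨0, 2867, 0, 857, 494256128, 0⟩],
   [⟨0, 990, 0, 3586, 604577792, 0⟩, ⟨3452, 0, 236, 0, 0, 489906176⟩, ⟨1364, 0, 2914, 0, 0, 565518336⟩, ⟨0, 3930, 743, 0, 424607744, 0⟩],
   [⟨2358, 0, 1478, 0, 0, 508321792⟩, ⟨0, 3550, 1844, 0, 228892672, 0⟩, ⟨0, 828, 0, 1246, 274423808, 0⟩, ⟨205, 0, 0, 456, 32899072, 0⟩],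
   [⟨0, 3833, 1143, 0, 358973440, 0⟩, ⟨0, 673, 0, 1461, 282165248, 0⟩, ⟨3129, 0, 0, 2492, 0, 87302144⟩, ⟨2406, 0, 1397, 0, 0, 503996416⟩, ⟨0, 1379, 3755, 0, 0, 311672832⟩],
   [⟨0, 1414, 1414, 0, 1597440, 0⟩, ⟨0, 2871, 0, 843, 492945408, 0⟩, ⟨0, 913, 0, 3606, 596983808, 0⟩, ⟨3460, 0, 0, 0, 0, 460021760⟩],
   [⟨0, 1357, 0, 3182, 600096768, 0⟩, ⟨865, 0, 0, 0, 0, 114974720⟩, ⟨1343, 0, 3188, 0, 0, 598802432⟩, ⟨0, 3458, 91, 0, 447832064, 0⟩],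
   [⟨0, 3459, 0, 50, 466567168, 0⟩, ⟨0, 81, 0, 1331, 186302464, 0⟩, ⟨865, 0, 0, 0, 0, 114974720⟩, ⟨0, 47, 442, 0, 0, 52019200⟩],
   [⟨2541, 0, 0, 3089, 69492736, 0⟩, ⟨1051, 0, 3568, 0, 0, 610091008⟩, ⟨0, 3459, 0, 49, 466436096, 0⟩, ⟨0, 2148, 0, 2083, 560340992, 0⟩],
   [⟨3450, 0, 0, 2025, 0, 191447040⟩, ⟨1629, 0, 2774, 0, 0, 582393856⟩, ⟨0, 3701, 373, 0, 442966016, 0⟩, ⟨0, 1675, 0, 2747, 585007104, 0⟩],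
   [⟨0, 3453, 0, 215, 487530496, 0⟩, ⟨0, 464, 0, 1801, 299212800, 0⟩, ⟨2190, 0, 2039, 0, 0, 560078848⟩]]

theorem TC_LL : toL TC_LN = TC_L := eqLL_eq (by decide +kernel)

end Pool.Agent.TET
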