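import Pool.Agent.Helper38_TET.TC_M
import Pool.Agent.Helper38_TET.TC_L
import Pool.Agent.Helper38_TET.TC_2
import Pool.Agent.Helper38_TET.TC_3
import Pool.Agent.Helper38_TET.TC_4
import Pool.Agent.Helper38_TET.TC_5
import Pool.Agent.Helper38_TET.TC_6
import Pool.Agent.Helper38_TET.TC_7
import Pool.Agent.Helper38_TET.TC_8

/-!
# MP_c7c9bf_co: certificates, family TC
-/

set_option autoImplicit false
set_option maxRecDepth 100000

namespace Pool.Agent.TET

theorem TC_u0 : CovZ TC_M (toL (selN TC_LN 8191)) [0, 7, 4, 3] (1888, 768) (1904, 784) (1888, 800) :=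
    (CovZ.n2 (1888, 784) (by decide +kernel)
     (CovZ.n2 (1896, 792) (by decide +kernel)
      (CovZ.n2 (1896, 784) (by decide +kernel)
       (CovZ.n2 (1892, 788) (by decide +kernel)
        (CovZ.n2 (1896, 788) (by decide +kernel)
         (CovZ.n2 (1894, 786) (by decide +kernel)
          (CovZ.leaf K2_ok TC_l843 _)
          (CovZ.leaf K2_ok TC_l844 _))
         (CovZ.leaf K2_ok TC_l845 _))
        (CovZ.n1 (1892, 784) (by decide +kernel)
         (CovZ.leaf K2_ok TC_l846 _)
         (CovZ.leaf K2_ok TC_l847 _)))
       (CovZ.n1 (1900, 788) (by decide +kernel)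
        (CovZ.n2 (1900, 784) (by decide +kernel)
         (CovZ.leaf K2_ok TC_l848 _)
         (CovZ.n1 (1902, 786) (by decide +kernel)
          (CovZ.leaf K2_ok TC_l849 _)
          (CovZ.leaf K2_ok TC_l850 _)))
        (CovZ.n1 (1896, 788) (by decide +kernel)
         (CovZ.n2 (1898, 790) (by decide +kernel)
          (CovZ.leaf K2_ok TC_l851 _)
          (CovZ.leaf K2_ok TC_l852 _))
         (CovZ.n1 (1898, 786) (by decide +kernel)
          (CovZ.leaf K2_ok TC_l853 _)
          (CovZ.leaf K2_ok TC_l854 _)))))
      (CovZ.n1 (1888, 792) (by decide +kernel)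
       (CovZ.n2 (1892, 796) (by decide +kernel)
        (CovZ.n2 (1892, 792) (by decide +kernel)
         (CovZ.leaf K2_ok TC_l855 _)
         (CovZ.n1 (1894, 794) (by decide +kernel)
          (CovZ.leaf K2_ok TC_l856 _)
          (CovZ.leaf K2_ok TC_l857 _)))
        (CovZ.n1 (1888, 796) (by decide +kernel)
         (CovZ.n2 (1890, 798) (by decide +kernel)
          (CovZ.leaf K2_ok TC_l858 _)
          (CovZ.leaf K2_ok TC_l859 _))
         (CovZ.n1 (1890, 794) (by decide +kernel)
          (CovZ.leaf K2_ok TC_l860 _)
          (CovZ.leaf K2_ok TC_l861 _))))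
       (CovZ.n1 (1892, 788) (by decide +kernel)
        (CovZ.n2 (1888, 788) (by decide +kernel)
         (CovZ.n2 (1890, 790) (by decide +kernel)
          (CovZ.leaf K2_ok TC_l862 _)
          (CovZ.leaf K2_ok TC_l863 _))
         (CovZ.n1 (1890, 786) (by decide +kernel)
          (CovZ.leaf K2_ok TC_l864 _)
          (CovZ.leaf K2_ok TC_l865 _)))
        (CovZ.n1 (1892, 792) (by decide +kernel)
         (CovZ.n2 (1894, 790) (by decide +kernel)
          (CovZ.leaf K2_ok TC_l866 _)
          (CovZ.leaf K2_ok TC_l867 _))
         (CovZ.n1 (1890, 790) (by decide +kernel)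
          (CovZ.leaf K2_ok TC_l868 _)
          (CovZ.leaf K2_ok TC_l869 _))))))
     (CovZ.n1 (1896, 776) (by decide +kernel)
      (CovZ.n2 (1888, 776) (by decide +kernel)
       (CovZ.n2 (1892, 780) (by decide +kernel)
        (CovZ.n2 (1892, 776) (by decide +kernel)
         (CovZ.leaf K2_ok TC_l870 _)
         (CovZ.leaf K2_ok TC_l871 _))
        (CovZ.n1 (1888, 780) (by decide +kernel)
         (CovZ.leaf K2_ok TC_l872 _)
         (CovZ.leaf K2_ok TC_l873 _)))
       (CovZ.n1 (1892, 772) (by decide +kernel)
        (CovZ.n2 (1888, 772) (by decide +kernel)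
         (CovZ.leaf K2_ok TC_l874 _)
         (CovZ.leaf K2_ok TC_l875 _))
        (CovZ.n1 (1892, 776) (by decide +kernel)
         (CovZ.leaf K2_ok TC_l876 _)
         (CovZ.leaf K2_ok TC_l877 _))))
      (CovZ.n1 (1896, 784) (by decide +kernel)
       (CovZ.n2 (1900, 780) (by decide +kernel)
        (CovZ.n2 (1896, 780) (by decide +kernel)
         (CovZ.n2 (1898, 782) (by decide +kernel)
          (CovZ.leaf K2_ok TC_l878 _)
          (CovZ.leaf K2_ok TC_l879 _))
         (CovZ.n1 (1898, 778) (by decide +kernel)
          (CovZ.leaf K2_ok TC_l880 _)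
          (CovZ.leaf K2_ok TC_l881 _)))
        (CovZ.n1 (1900, 784) (by decide +kernel)
         (CovZ.n2 (1902, 782) (by decide +kernel)
          (CovZ.leaf K2_ok TC_l882 _)
          (CovZ.leaf K2_ok TC_l883 _))
         (CovZ.n1 (1898, 782) (by decide +kernel)
          (CovZ.leaf K2_ok TC_l884 _)
          (CovZ.leaf K2_ok TC_l885 _))))
       (CovZ.n1 (1892, 780) (by decide +kernel)
        (CovZ.n2 (1892, 784) (by decide +kernel)
         (CovZ.n2 (1894, 782) (by decide +kernel)
          (CovZ.leaf K2_ok TC_l886 _)
          (CovZ.leaf K2_ok TC_l887 _))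
         (CovZ.leaf K2_ok TC_l888 _))
        (CovZ.n1 (1896, 780) (by decide +kernel)
         (CovZ.leaf K2_ok TC_l889 _)
         (CovZ.leaf K2_ok TC_l890 _))))))

theorem TC_u1 : CovZ TC_M (toL (selN TC_LN 8191)) [0, 7, 4, 3] (1904, 784) (1920, 800) (1888, 800) :=
    (CovZ.n1 (1904, 800) (by decide +kernel)
     (CovZ.n2 (1912, 792) (by decide +kernel)
      (CovZ.n2 (1904, 792) (by decide +kernel)
       (CovZ.n2 (1908, 796) (by decide +kernel)
        (CovZ.n2 (1908, 792) (by decide +kernel)
         (CovZ.n2 (1906, 794) (by decide +kernel)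
          (CovZ.n2 (1908, 794) (by decide +kernel)
           (CovZ.n2 (1907, 793) (by decide +kernel)
            (CovZ.leaf K2_ok TC_l891 _)
            (CovZ.leaf K2_ok TC_l1241 _))
           (CovZ.leaf K2_ok TC_l892 _))
          (CovZ.n1 (1906, 792) (by decide +kernel)
           (CovZ.leaf K2_ok TC_l893 _)
           (CovZ.n1 (1907, 793) (by decide +kernel)
            (CovZ.leaf K2_ok TC_l894 _)
            (CovZ.leaf K2_ok TC_l895 _))))
         (CovZ.badM (by decide +kernel)))
        (CovZ.n1 (1904, 796) (by decide +kernel)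
         (CovZ.n2 (1906, 798) (by decide +kernel)
          (CovZ.n2 (1906, 796) (by decide +kernel)
           (CovZ.leaf K2_ok TC_l896 _)
           (CovZ.n1 (1907, 797) (by decide +kernel)
            (CovZ.leaf K2_ok TC_l1242 _)
            (CovZ.leaf K2_ok TC_l1243 _)))
          (CovZ.n1 (1904, 798) (by decide +kernel)
           (CovZ.n2 (1905, 799) (by decide +kernel)
            (CovZ.leaf K2_ok TC_l897 _)
            (CovZ.leaf K2_ok TC_l898 _))
           (CovZ.leaf K2_ok TC_l899 _)))
         (CovZ.n1 (1906, 794) (by decide +kernel)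
          (CovZ.n2 (1904, 794) (by decide +kernel)
           (CovZ.leaf K2_ok TC_l900 _)
           (CovZ.leaf K2_ok TC_l901 _))
          (CovZ.n1 (1906, 796) (by decide +kernel)
           (CovZ.n2 (1907, 795) (by decide +kernel)
            (CovZ.leaf K2_ok TC_l902 _)
            (CovZ.leaf K2_ok TC_l1244 _))
           (CovZ.leaf K2_ok TC_l903 _)))))
       (CovZ.n1 (1908, 788) (by decide +kernel)
        (CovZ.n2 (1904, 788) (by decide +kernel)
         (CovZ.n2 (1906, 790) (by decide +kernel)
          (CovZ.n2 (1906, 788) (by decide +kernel)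
           (CovZ.leaf K2_ok TC_l904 _)
           (CovZ.leaf K2_ok TC_l905 _))
          (CovZ.n1 (1904, 790) (by decide +kernel)
           (CovZ.leaf K2_ok TC_l906 _)
           (CovZ.leaf K2_ok TC_l907 _)))
         (CovZ.n1 (1906, 786) (by decide +kernel)
          (CovZ.leaf K2_ok TC_l908 _)
          (CovZ.n1 (1906, 788) (by decide +kernel)
           (CovZ.leaf K2_ok TC_l909 _)
           (CovZ.leaf K2_ok TC_l910 _))))
        (CovZ.n1 (1908, 792) (by decide +kernel)
         (CovZ.subM 4226 (by decide +kernel)
          (CovZ.n2 (1910, 790) (by decide +kernel)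
           (CovZ.n2 (1908, 790) (by decide +kernel)
            (CovZ.n2 (1909, 791) (by decide +kernel)
             (CovZ.leaf K2_ok TC_l1245 _)
             (CovZ.leaf K2_ok TC_l1246 _))
            (CovZ.n1 (1909, 789) (by decide +kernel)
             (CovZ.leaf K2_ok TC_l911 _)
             (CovZ.leaf K2_ok TC_l1247 _)))
           (CovZ.badM (by decide +kernel))))
         (CovZ.n1 (1906, 790) (by decide +kernel)
          (CovZ.n2 (1906, 792) (by decide +kernel)
           (CovZ.n2 (1907, 791) (by decide +kernel)
            (CovZ.leaf K2_ok TC_l912 _)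
            (CovZ.leaf K2_ok TC_l913 _))
           (CovZ.leaf K2_ok TC_l914 _))
          (CovZ.n1 (1908, 790) (by decide +kernel)
           (CovZ.leaf K2_ok TC_l915 _)
           (CovZ.leaf K2_ok TC_l916 _))))))
      (CovZ.n1 (1912, 800) (by decide +kernel)
       (CovZ.badM (by decide +kernel))
       (CovZ.n1 (1908, 796) (by decide +kernel)
        (CovZ.n2 (1908, 800) (by decide +kernel)
         (CovZ.badM (by decide +kernel))
         (CovZ.n1 (1906, 798) (by decide +kernel)
          (CovZ.n2 (1906, 800) (by decide +kernel)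
           (CovZ.n2 (1907, 799) (by decide +kernel)
            (CovZ.leaf K2_ok TC_l1248 _)
            (CovZ.leaf K2_ok TC_l1249 _))
           (CovZ.n1 (1905, 799) (by decide +kernel)
            (CovZ.leaf K2_ok TC_l917 _)
            (CovZ.leaf K2_ok TC_l918 _)))
          (CovZ.n1 (1908, 798) (by decide +kernel)
           (CovZ.n2 (1907, 797) (by decide +kernel)
            (CovZ.leaf K2_ok TC_l1250 _)
            (CovZ.leaf K2_ok TC_l1251 _))
           (CovZ.leaf K2_ok TC_l1252 _))))
        (CovZ.badM (by decide +kernel)))))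
     (CovZ.n1 (1896, 792) (by decide +kernel)
      (CovZ.n2 (1896, 800) (by decide +kernel)
       (CovZ.n2 (1900, 796) (by decide +kernel)
        (CovZ.n2 (1896, 796) (by decide +kernel)
         (CovZ.n2 (1898, 798) (by decide +kernel)
          (CovZ.leaf K2_ok TC_l919 _)
          (CovZ.n1 (1896, 798) (by decide +kernel)
           (CovZ.leaf K2_ok TC_l920 _)
           (CovZ.leaf K2_ok TC_l921 _)))
         (CovZ.n1 (1898, 794) (by decide +kernel)
          (CovZ.leaf K2_ok TC_l922 _)
          (CovZ.n1 (1898, 796) (by decide +kernel)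
           (CovZ.leaf K2_ok TC_l923 _)
           (CovZ.leaf K2_ok TC_l924 _))))
        (CovZ.n1 (1900, 800) (by decide +kernel)
         (CovZ.n2 (1902, 798) (by decide +kernel)
          (CovZ.n2 (1900, 798) (by decide +kernel)
           (CovZ.leaf K2_ok TC_l925 _)
           (CovZ.leaf K2_ok TC_l926 _))
          (CovZ.n1 (1902, 800) (by decide +kernel)
           (CovZ.n2 (1903, 799) (by decide +kernel)
            (CovZ.leaf K2_ok TC_l927 _)
            (CovZ.leaf K2_ok TC_l928 _))
           (CovZ.leaf K2_ok TC_l929 _)))
         (CovZ.n1 (1898, 798) (by decide +kernel)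
          (CovZ.n2 (1898, 800) (by decide +kernel)
           (CovZ.leaf K2_ok TC_l930 _)
           (CovZ.leaf K2_ok TC_l931 _))
          (CovZ.leaf K2_ok TC_l932 _))))
       (CovZ.n1 (1892, 796) (by decide +kernel)
        (CovZ.n2 (1892, 800) (by decide +kernel)
         (CovZ.n2 (1894, 798) (by decide +kernel)
          (CovZ.leaf K2_ok TC_l933 _)
          (CovZ.n1 (1894, 800) (by decide +kernel)
           (CovZ.leaf K2_ok TC_l934 _)
           (CovZ.leaf K2_ok TC_l935 _)))
         (CovZ.n1 (1890, 798) (by decide +kernel)
          (CovZ.leaf K2_ok TC_l936 _)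
          (CovZ.leaf K2_ok TC_l937 _)))
        (CovZ.n1 (1896, 796) (by decide +kernel)
         (CovZ.n2 (1894, 794) (by decide +kernel)
          (CovZ.leaf K2_ok TC_l938 _)
          (CovZ.leaf K2_ok TC_l939 _))
         (CovZ.n1 (1894, 798) (by decide +kernel)
          (CovZ.leaf K2_ok TC_l940 _)
          (CovZ.leaf K2_ok TC_l941 _)))))
      (CovZ.n1 (1904, 792) (by decide +kernel)
       (CovZ.n2 (1900, 788) (by decide +kernel)
        (CovZ.n2 (1900, 792) (by decide +kernel)
         (CovZ.n2 (1902, 790) (by decide +kernel)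
          (CovZ.leaf K2_ok TC_l942 _)
          (CovZ.n1 (1902, 792) (by decide +kernel)
           (CovZ.leaf K2_ok TC_l943 _)
           (CovZ.leaf K2_ok TC_l944 _)))
         (CovZ.n1 (1898, 790) (by decide +kernel)
          (CovZ.leaf K2_ok TC_l945 _)
          (CovZ.leaf K2_ok TC_l946 _)))
        (CovZ.n1 (1904, 788) (by decide +kernel)
         (CovZ.n2 (1902, 786) (by decide +kernel)
          (CovZ.leaf K2_ok TC_l947 _)
          (CovZ.leaf K2_ok TC_l948 _))
         (CovZ.leaf K2_ok TC_l949 _)))
       (CovZ.n1 (1900, 796) (by decide +kernel)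
        (CovZ.n2 (1904, 796) (by decide +kernel)
         (CovZ.n2 (1902, 794) (by decide +kernel)
          (CovZ.n2 (1902, 796) (by decide +kernel)
           (CovZ.leaf K2_ok TC_l950 _)
           (CovZ.leaf K2_ok TC_l951 _))
          (CovZ.leaf K2_ok TC_l952 _))
         (CovZ.n1 (1902, 798) (by decide +kernel)
          (CovZ.n2 (1904, 798) (by decide +kernel)
           (CovZ.leaf K2_ok TC_l953 _)
           (CovZ.leaf K2_ok TC_l954 _))
          (CovZ.n1 (1902, 796) (by decide +kernel)
           (CovZ.leaf K2_ok TC_l955 _)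
           (CovZ.leaf K2_ok TC_l956 _))))
        (CovZ.n1 (1900, 792) (by decide +kernel)
         (CovZ.n2 (1898, 794) (by decide +kernel)
          (CovZ.leaf K2_ok TC_l957 _)
          (CovZ.leaf K2_ok TC_l958 _))
         (CovZ.n1 (1902, 794) (by decide +kernel)
          (CovZ.leaf K2_ok TC_l959 _)
          (CovZ.n1 (1900, 794) (by decide +kernel)
           (CovZ.leaf K2_ok TC_l960 _)
           (CovZ.leaf K2_ok TC_l961 _))))))))

theorem TC_u2 : CovZ TC_M (toL (selN TC_LN 7167)) [0, 7, 4, 3] (1888, 832) (1872, 816) (1888, 800) :=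
    (CovZ.n2 (1888, 816) (by decide +kernel)
     (CovZ.n2 (1880, 808) (by decide +kernel)
      (CovZ.n2 (1880, 816) (by decide +kernel)
       (CovZ.n2 (1884, 812) (by decide +kernel)
        (CovZ.n2 (1880, 812) (by decide +kernel)
         (CovZ.n2 (1882, 814) (by decide +kernel)
          (CovZ.n2 (1882, 812) (by decide +kernel)
           (CovZ.leaf K2_ok TC_l393 _)
           (CovZ.leaf K2_ok TC_l394 _))
          (CovZ.n1 (1880, 814) (by decide +kernel)
           (CovZ.leaf K2_ok TC_l395 _)
           (CovZ.leaf K2_ok TC_l396 _)))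
         (CovZ.n1 (1882, 810) (by decide +kernel)
          (CovZ.n2 (1880, 810) (by decide +kernel)
           (CovZ.leaf K2_ok TC_l397 _)
           (CovZ.leaf K2_ok TC_l398 _))
          (CovZ.n1 (1882, 812) (by decide +kernel)
           (CovZ.leaf K2_ok TC_l399 _)
           (CovZ.leaf K2_ok TC_l400 _))))
        (CovZ.n1 (1884, 816) (by decide +kernel)
         (CovZ.n2 (1886, 814) (by decide +kernel)
          (CovZ.n2 (1884, 814) (by decide +kernel)
           (CovZ.n2 (1885, 815) (by decide +kernel)
            (CovZ.leaf K2_ok TC_l401 _)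
            (CovZ.leaf K2_ok TC_l402 _))
           (CovZ.leaf K2_ok TC_l403 _))
          (CovZ.n1 (1886, 816) (by decide +kernel)
           (CovZ.leaf K2_ok TC_l404 _)
           (CovZ.n1 (1885, 815) (by decide +kernel)
            (CovZ.leaf K2_ok TC_l405 _)
            (CovZ.leaf K2_ok TC_l406 _))))
         (CovZ.n1 (1882, 814) (by decide +kernel)
          (CovZ.n2 (1882, 816) (by decide +kernel)
           (CovZ.n2 (1883, 815) (by decide +kernel)
            (CovZ.leaf K2_ok TC_l407 _)
            (CovZ.leaf K2_ok TC_l408 _))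
           (CovZ.leaf K2_ok TC_l409 _))
          (CovZ.leaf K2_ok TC_l410 _))))
       (CovZ.n1 (1876, 812) (by decide +kernel)
        (CovZ.n2 (1876, 816) (by decide +kernel)
         (CovZ.n2 (1878, 814) (by decide +kernel)
          (CovZ.n2 (1876, 814) (by decide +kernel)
           (CovZ.leaf K2_ok TC_l411 _)
           (CovZ.leaf K2_ok TC_l412 _))
          (CovZ.n1 (1878, 816) (by decide +kernel)
           (CovZ.leaf K2_ok TC_l413 _)
           (CovZ.leaf K2_ok TC_l414 _)))
         (CovZ.n1 (1874, 814) (by decide +kernel)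
          (CovZ.n2 (1874, 816) (by decide +kernel)
           (CovZ.leaf K2_ok TC_l415 _)
           (CovZ.leaf K2_ok TC_l416 _))
          (CovZ.leaf K2_ok TC_l417 _)))
        (CovZ.n1 (1880, 812) (by decide +kernel)
         (CovZ.n2 (1878, 810) (by decide +kernel)
          (CovZ.n2 (1878, 812) (by decide +kernel)
           (CovZ.leaf K2_ok TC_l418 _)
           (CovZ.leaf K2_ok TC_l419 _))
          (CovZ.leaf K2_ok TC_l420 _))
         (CovZ.n1 (1878, 814) (by decide +kernel)
          (CovZ.leaf K2_ok TC_l421 _)
          (CovZ.leaf K2_ok TC_l422 _)))))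
      (CovZ.n1 (1888, 808) (by decide +kernel)
       (CovZ.n2 (1884, 804) (by decide +kernel)
        (CovZ.n2 (1884, 808) (by decide +kernel)
         (CovZ.n2 (1886, 806) (by decide +kernel)
          (CovZ.leaf K2_ok TC_l423 _)
          (CovZ.n1 (1886, 808) (by decide +kernel)
           (CovZ.leaf K2_ok TC_l424 _)
           (CovZ.leaf K2_ok TC_l425 _)))
         (CovZ.n1 (1882, 806) (by decide +kernel)
          (CovZ.leaf K2_ok TC_l426 _)
          (CovZ.leaf K2_ok TC_l427 _)))
        (CovZ.n1 (1888, 804) (by decide +kernel)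
         (CovZ.n2 (1886, 802) (by decide +kernel)
          (CovZ.leaf K2_ok TC_l428 _)
          (CovZ.leaf K2_ok TC_l429 _))
         (CovZ.leaf K2_ok TC_l430 _)))
       (CovZ.n1 (1884, 812) (by decide +kernel)
        (CovZ.n2 (1888, 812) (by decide +kernel)
         (CovZ.n2 (1886, 810) (by decide +kernel)
          (CovZ.n2 (1886, 812) (by decide +kernel)
           (CovZ.leaf K2_ok TC_l431 _)
           (CovZ.leaf K2_ok TC_l432 _))
          (CovZ.leaf K2_ok TC_l433 _))
         (CovZ.n1 (1886, 814) (by decide +kernel)
          (CovZ.n2 (1888, 814) (by decide +kernel)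
           (CovZ.n2 (1887, 813) (by decide +kernel)
            (CovZ.leaf K2_ok TC_l434 _)
            (CovZ.leaf K2_ok TC_l435 _))
           (CovZ.leaf K2_ok TC_l436 _))
          (CovZ.n1 (1886, 812) (by decide +kernel)
           (CovZ.leaf K2_ok TC_l437 _)
           (CovZ.leaf K2_ok TC_l438 _))))
        (CovZ.n1 (1884, 808) (by decide +kernel)
         (CovZ.leaf K2_ok TC_l439 _)
         (CovZ.n1 (1886, 810) (by decide +kernel)
          (CovZ.n2 (1886, 808) (by decide +kernel)
           (CovZ.leaf K2_ok TC_l440 _)
           (CovZ.leaf K2_ok TC_l441 _))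
          (CovZ.n1 (1884, 810) (by decide +kernel)
           (CovZ.leaf K2_ok TC_l442 _)
           (CovZ.leaf K2_ok TC_l443 _)))))))
     (CovZ.n1 (1880, 824) (by decide +kernel)
      (CovZ.subM 2465 (by decide +kernel)
       (CovZ.n2 (1888, 824) (by decide +kernel)
        (CovZ.n2 (1884, 820) (by decide +kernel)
         (CovZ.badM (by decide +kernel))
         (CovZ.n1 (1888, 820) (by decide +kernel)
          (CovZ.n2 (1886, 818) (by decide +kernel)
           (CovZ.n2 (1886, 820) (by decide +kernel)
            (CovZ.n2 (1887, 819) (by decide +kernel)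
             (CovZ.leaf K2_ok TC_l1204 _)
             (CovZ.badM (by decide +kernel)))
            (CovZ.n1 (1885, 819) (by decide +kernel)
             (CovZ.badM (by decide +kernel))
             (CovZ.leaf K2_ok TC_l1205 _)))
           (CovZ.n1 (1888, 818) (by decide +kernel)
            (CovZ.n2 (1887, 817) (by decide +kernel)
             (CovZ.leaf K2_ok TC_l444 _)
             (CovZ.leaf K2_ok TC_l445 _))
            (CovZ.leaf K2_ok TC_l1206 _)))
          (CovZ.badM (by decide +kernel))))
        (CovZ.badM (by decide +kernel))))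
      (CovZ.n1 (1880, 816) (by decide +kernel)
       (CovZ.subM 2425 (by decide +kernel)
        (CovZ.n2 (1876, 820) (by decide +kernel)
         (CovZ.n2 (1880, 820) (by decide +kernel)
          (CovZ.n2 (1878, 818) (by decide +kernel)
           (CovZ.n2 (1878, 820) (by decide +kernel)
            (CovZ.leaf K2_ok TC_l446 _)
            (CovZ.n1 (1877, 819) (by decide +kernel)
             (CovZ.leaf K2_ok TC_l447 _)
             (CovZ.leaf K2_ok TC_l448 _)))
           (CovZ.n1 (1880, 818) (by decide +kernel)
            (CovZ.leaf K2_ok TC_l449 _)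
            (CovZ.leaf K2_ok TC_l450 _)))
          (CovZ.subM 2337 (by decide +kernel)
           (CovZ.n1 (1878, 822) (by decide +kernel)
            (CovZ.n2 (1880, 822) (by decide +kernel)
             (CovZ.n2 (1879, 821) (by decide +kernel)
              (CovZ.leaf K2_ok TC_l451 _)
              (CovZ.leaf K2_ok TC_l452 _))
             (CovZ.leaf K2_ok TC_l453 _))
            (CovZ.n1 (1878, 820) (by decide +kernel)
             (CovZ.leaf K2_ok TC_l454 _)
             (CovZ.n1 (1879, 821) (by decide +kernel)
              (CovZ.leaf K2_ok TC_l455 _)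
              (CovZ.leaf K2_ok TC_l456 _))))))
         (CovZ.n1 (1876, 816) (by decide +kernel)
          (CovZ.n2 (1874, 818) (by decide +kernel)
           (CovZ.leaf K2_ok TC_l457 _)
           (CovZ.n1 (1874, 816) (by decide +kernel)
            (CovZ.leaf K2_ok TC_l458 _)
            (CovZ.leaf K2_ok TC_l459 _)))
          (CovZ.n1 (1878, 818) (by decide +kernel)
           (CovZ.n2 (1878, 816) (by decide +kernel)
            (CovZ.leaf K2_ok TC_l460 _)
            (CovZ.n1 (1879, 817) (by decide +kernel)
             (CovZ.leaf K2_ok TC_l461 _)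
             (CovZ.leaf K2_ok TC_l462 _)))
           (CovZ.n1 (1876, 818) (by decide +kernel)
            (CovZ.n2 (1877, 819) (by decide +kernel)
             (CovZ.leaf K2_ok TC_l463 _)
             (CovZ.leaf K2_ok TC_l464 _))
            (CovZ.leaf K2_ok TC_l465 _))))))
       (CovZ.n1 (1884, 820) (by decide +kernel)
        (CovZ.n2 (1884, 816) (by decide +kernel)
         (CovZ.n2 (1882, 818) (by decide +kernel)
          (CovZ.n2 (1884, 818) (by decide +kernel)
           (CovZ.n2 (1883, 817) (by decide +kernel)
            (CovZ.leaf K2_ok TC_l466 _)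
            (CovZ.leaf K2_ok TC_l467 _))
           (CovZ.leaf K2_ok TC_l468 _))
          (CovZ.n1 (1882, 816) (by decide +kernel)
           (CovZ.leaf K2_ok TC_l469 _)
           (CovZ.n1 (1883, 817) (by decide +kernel)
            (CovZ.leaf K2_ok TC_l470 _)
            (CovZ.leaf K2_ok TC_l471 _))))
         (CovZ.subM 2481 (by decide +kernel)
          (CovZ.n1 (1886, 818) (by decide +kernel)
           (CovZ.n2 (1886, 816) (by decide +kernel)
            (CovZ.leaf K2_ok TC_l472 _)
            (CovZ.n1 (1887, 817) (by decide +kernel)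
             (CovZ.leaf K2_ok TC_l473 _)
             (CovZ.leaf K2_ok TC_l474 _)))
           (CovZ.n1 (1884, 818) (by decide +kernel)
            (CovZ.n2 (1885, 819) (by decide +kernel)
             (CovZ.leaf K2_ok TC_l475 _)
             (CovZ.leaf K2_ok TC_l476 _))
            (CovZ.n1 (1885, 817) (by decide +kernel)
             (CovZ.leaf K2_ok TC_l477 _)
             (CovZ.leaf K2_ok TC_l478 _))))))
        (CovZ.n1 (1880, 820) (by decide +kernel)
         (CovZ.subM 2337 (by decide +kernel)
          (CovZ.n2 (1882, 822) (by decide +kernel)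
           (CovZ.n2 (1882, 820) (by decide +kernel)
            (CovZ.leaf K2_ok TC_l479 _)
            (CovZ.n1 (1883, 821) (by decide +kernel)
             (CovZ.leaf K2_ok TC_l480 _)
             (CovZ.leaf K2_ok TC_l481 _)))
           (CovZ.n1 (1880, 822) (by decide +kernel)
            (CovZ.badM (by decide +kernel))
            (CovZ.n1 (1881, 821) (by decide +kernel)
             (CovZ.leaf K2_ok TC_l482 _)
             (CovZ.leaf K2_ok TC_l483 _)))))
         (CovZ.n1 (1882, 818) (by decide +kernel)
          (CovZ.n2 (1880, 818) (by decide +kernel)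
           (CovZ.n2 (1881, 819) (by decide +kernel)
            (CovZ.leaf K2_ok TC_l484 _)
            (CovZ.leaf K2_ok TC_l485 _))
           (CovZ.leaf K2_ok TC_l486 _))
          (CovZ.n1 (1882, 820) (by decide +kernel)
           (CovZ.leaf K2_ok TC_l487 _)
           (CovZ.n1 (1881, 819) (by decide +kernel)
            (CovZ.leaf K2_ok TC_l488 _)
            (CovZ.leaf K2_ok TC_l489 _)))))))))

theorem TC_u3 : CovZ TC_M (toL (selN TC_LN 7167)) [0, 7, 4, 3] (1872, 816) (1856, 800) (1888, 800) :=
    (CovZ.n1 (1872, 800) (by decide +kernel)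
     (CovZ.n2 (1864, 808) (by decide +kernel)
      (CovZ.n2 (1872, 808) (by decide +kernel)
       (CovZ.n2 (1868, 804) (by decide +kernel)
        (CovZ.n2 (1868, 808) (by decide +kernel)
         (CovZ.n2 (1870, 806) (by decide +kernel)
          (CovZ.leaf K2_ok TC_l490 _)
          (CovZ.leaf K2_ok TC_l491 _))
         (CovZ.n1 (1866, 806) (by decide +kernel)
          (CovZ.leaf K2_ok TC_l492 _)
          (CovZ.leaf K2_ok TC_l493 _)))
        (CovZ.n1 (1872, 804) (by decide +kernel)
         (CovZ.n2 (1870, 802) (by decide +kernel)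
          (CovZ.leaf K2_ok TC_l494 _)
          (CovZ.leaf K2_ok TC_l495 _))
         (CovZ.leaf K2_ok TC_l496 _)))
       (CovZ.n1 (1868, 812) (by decide +kernel)
        (CovZ.n2 (1872, 812) (by decide +kernel)
         (CovZ.n2 (1870, 810) (by decide +kernel)
          (CovZ.leaf K2_ok TC_l497 _)
          (CovZ.leaf K2_ok TC_l498 _))
         (CovZ.leaf K2_ok TC_l499 _))
        (CovZ.n1 (1868, 808) (by decide +kernel)
         (CovZ.leaf K2_ok TC_l500 _)
         (CovZ.n1 (1870, 810) (by decide +kernel)
          (CovZ.leaf K2_ok TC_l501 _)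
          (CovZ.leaf K2_ok TC_l502 _)))))
      (CovZ.subM 889 (by decide +kernel)
       (CovZ.n1 (1864, 800) (by decide +kernel)
        (CovZ.n2 (1860, 804) (by decide +kernel)
         (CovZ.n2 (1864, 804) (by decide +kernel)
          (CovZ.n2 (1862, 802) (by decide +kernel)
           (CovZ.leaf K2_ok TC_l503 _)
           (CovZ.leaf K2_ok TC_l504 _))
          (CovZ.leaf K2_ok TC_l505 _))
         (CovZ.n1 (1860, 800) (by decide +kernel)
          (CovZ.leaf K2_ok TC_l506 _)
          (CovZ.leaf K2_ok TC_l507 _)))
        (CovZ.n1 (1868, 804) (by decide +kernel)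
         (CovZ.n2 (1868, 800) (by decide +kernel)
          (CovZ.leaf K2_ok TC_l508 _)
          (CovZ.n1 (1870, 802) (by decide +kernel)
           (CovZ.leaf K2_ok TC_l509 _)
           (CovZ.leaf K2_ok TC_l510 _)))
         (CovZ.n1 (1864, 804) (by decide +kernel)
          (CovZ.n2 (1866, 806) (by decide +kernel)
           (CovZ.leaf K2_ok TC_l511 _)
           (CovZ.leaf K2_ok TC_l512 _))
          (CovZ.n1 (1866, 802) (by decide +kernel)
           (CovZ.leaf K2_ok TC_l513 _)
           (CovZ.leaf K2_ok TC_l514 _)))))))
     (CovZ.n1 (1880, 808) (by decide +kernel)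
      (CovZ.n2 (1880, 800) (by decide +kernel)
       (CovZ.n2 (1876, 804) (by decide +kernel)
        (CovZ.n2 (1880, 804) (by decide +kernel)
         (CovZ.n2 (1878, 802) (by decide +kernel)
          (CovZ.leaf K2_ok TC_l515 _)
          (CovZ.leaf K2_ok TC_l516 _))
         (CovZ.leaf K2_ok TC_l517 _))
        (CovZ.n1 (1876, 800) (by decide +kernel)
         (CovZ.leaf K2_ok TC_l518 _)
         (CovZ.n1 (1878, 802) (by decide +kernel)
          (CovZ.leaf K2_ok TC_l519 _)
          (CovZ.leaf K2_ok TC_l520 _))))
       (CovZ.n1 (1884, 804) (by decide +kernel)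
        (CovZ.n2 (1884, 800) (by decide +kernel)
         (CovZ.leaf K2_ok TC_l521 _)
         (CovZ.n1 (1886, 802) (by decide +kernel)
          (CovZ.leaf K2_ok TC_l522 _)
          (CovZ.leaf K2_ok TC_l523 _)))
        (CovZ.n1 (1880, 804) (by decide +kernel)
         (CovZ.n2 (1882, 806) (by decide +kernel)
          (CovZ.leaf K2_ok TC_l524 _)
          (CovZ.leaf K2_ok TC_l525 _))
         (CovZ.n1 (1882, 802) (by decide +kernel)
          (CovZ.leaf K2_ok TC_l526 _)
          (CovZ.leaf K2_ok TC_l527 _)))))
      (CovZ.n1 (1872, 808) (by decide +kernel)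
       (CovZ.n2 (1876, 812) (by decide +kernel)
        (CovZ.n2 (1876, 808) (by decide +kernel)
         (CovZ.n2 (1874, 810) (by decide +kernel)
          (CovZ.leaf K2_ok TC_l528 _)
          (CovZ.leaf K2_ok TC_l529 _))
         (CovZ.n1 (1878, 810) (by decide +kernel)
          (CovZ.leaf K2_ok TC_l530 _)
          (CovZ.n1 (1876, 810) (by decide +kernel)
           (CovZ.leaf K2_ok TC_l531 _)
           (CovZ.leaf K2_ok TC_l532 _))))
        (CovZ.n1 (1872, 812) (by decide +kernel)
         (CovZ.n2 (1874, 814) (by decide +kernel)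
          (CovZ.leaf K2_ok TC_l533 _)
          (CovZ.leaf K2_ok TC_l534 _))
         (CovZ.n1 (1874, 810) (by decide +kernel)
          (CovZ.leaf K2_ok TC_l535 _)
          (CovZ.leaf K2_ok TC_l536 _))))
       (CovZ.n1 (1876, 804) (by decide +kernel)
        (CovZ.n2 (1872, 804) (by decide +kernel)
         (CovZ.n2 (1874, 806) (by decide +kernel)
          (CovZ.leaf K2_ok TC_l537 _)
          (CovZ.leaf K2_ok TC_l538 _))
         (CovZ.n1 (1874, 802) (by decide +kernel)
          (CovZ.leaf K2_ok TC_l539 _)
          (CovZ.leaf K2_ok TC_l540 _)))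
        (CovZ.n1 (1876, 808) (by decide +kernel)
         (CovZ.n2 (1878, 806) (by decide +kernel)
          (CovZ.leaf K2_ok TC_l541 _)
          (CovZ.leaf K2_ok TC_l542 _))
         (CovZ.n1 (1874, 806) (by decide +kernel)
          (CovZ.leaf K2_ok TC_l543 _)
          (CovZ.leaf K2_ok TC_l544 _)))))))

theorem TC_u4 : CovZ TC_M (toL (selN TC_LN 7161)) [0, 7, 4, 3] (1888, 832) (1872, 832) (1872, 816) :=
    (CovZ.n2 (1880, 824) (by decide +kernel)
      (CovZ.n2 (1872, 824) (by decide +kernel)
       (CovZ.subM 2081 (by decide +kernel)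
        (CovZ.n2 (1876, 828) (by decide +kernel)
         (CovZ.n2 (1876, 824) (by decide +kernel)
          (CovZ.n2 (1874, 826) (by decide +kernel)
           (CovZ.n2 (1876, 826) (by decide +kernel)
            (CovZ.n2 (1875, 825) (by decide +kernel)
             (CovZ.leaf K2_ok TC_l620 _)
             (CovZ.leaf K2_ok TC_l621 _))
            (CovZ.badM (by decide +kernel)))
           (CovZ.n1 (1874, 824) (by decide +kernel)
            (CovZ.leaf K2_ok TC_l622 _)
            (CovZ.n1 (1875, 825) (by decide +kernel)
             (CovZ.leaf K2_ok TC_l623 _)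
             (CovZ.leaf K2_ok TC_l624 _))))
          (CovZ.n1 (1878, 826) (by decide +kernel)
           (CovZ.n2 (1878, 824) (by decide +kernel)
            (CovZ.leaf K2_ok TC_l625 _)
            (CovZ.badM (by decide +kernel)))
           (CovZ.n1 (1876, 826) (by decide +kernel)
            (CovZ.badM (by decide +kernel))
            (CovZ.n1 (1877, 825) (by decide +kernel)
             (CovZ.leaf K2_ok TC_l626 _)
             (CovZ.badM (by decide +kernel))))))
         (CovZ.n1 (1872, 828) (by decide +kernel)
          (CovZ.badM (by decide +kernel))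
          (CovZ.n1 (1874, 826) (by decide +kernel)
           (CovZ.n2 (1872, 826) (by decide +kernel)
            (CovZ.n2 (1873, 827) (by decide +kernel)
             (CovZ.leaf K2_ok TC_l627 _)
             (CovZ.leaf K2_ok TC_l628 _))
            (CovZ.n1 (1873, 825) (by decide +kernel)
             (CovZ.leaf K2_ok TC_l629 _)
             (CovZ.leaf K2_ok TC_l630 _)))
           (CovZ.badM (by decide +kernel))))))
       (CovZ.n1 (1876, 820) (by decide +kernel)
        (CovZ.n2 (1872, 820) (by decide +kernel)
         (CovZ.subM 2337 (by decide +kernel)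
          (CovZ.n2 (1874, 822) (by decide +kernel)
           (CovZ.n2 (1874, 820) (by decide +kernel)
            (CovZ.leaf K2_ok TC_l631 _)
            (CovZ.leaf K2_ok TC_l632 _))
           (CovZ.n1 (1872, 822) (by decide +kernel)
            (CovZ.n2 (1873, 823) (by decide +kernel)
             (CovZ.leaf K2_ok TC_l633 _)
             (CovZ.leaf K2_ok TC_l634 _))
            (CovZ.leaf K2_ok TC_l635 _))))
         (CovZ.n1 (1874, 818) (by decide +kernel)
          (CovZ.n2 (1872, 818) (by decide +kernel)
           (CovZ.leaf K2_ok TC_l636 _)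
           (CovZ.leaf K2_ok TC_l637 _))
          (CovZ.n1 (1874, 820) (by decide +kernel)
           (CovZ.leaf K2_ok TC_l638 _)
           (CovZ.leaf K2_ok TC_l639 _))))
        (CovZ.subM 2337 (by decide +kernel)
         (CovZ.n1 (1876, 824) (by decide +kernel)
          (CovZ.n2 (1878, 822) (by decide +kernel)
           (CovZ.n2 (1876, 822) (by decide +kernel)
            (CovZ.n2 (1877, 823) (by decide +kernel)
             (CovZ.leaf K2_ok TC_l640 _)
             (CovZ.leaf K2_ok TC_l641 _))
            (CovZ.leaf K2_ok TC_l642 _))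
           (CovZ.n1 (1878, 824) (by decide +kernel)
            (CovZ.n2 (1879, 823) (by decide +kernel)
             (CovZ.leaf K2_ok TC_l643 _)
             (CovZ.badM (by decide +kernel)))
            (CovZ.n1 (1877, 823) (by decide +kernel)
             (CovZ.leaf K2_ok TC_l644 _)
             (CovZ.leaf K2_ok TC_l645 _))))
          (CovZ.n1 (1874, 822) (by decide +kernel)
           (CovZ.n2 (1874, 824) (by decide +kernel)
            (CovZ.n2 (1875, 823) (by decide +kernel)
             (CovZ.leaf K2_ok TC_l646 _)
             (CovZ.leaf K2_ok TC_l647 _))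
            (CovZ.n1 (1873, 823) (by decide +kernel)
             (CovZ.leaf K2_ok TC_l648 _)
             (CovZ.leaf K2_ok TC_l649 _)))
           (CovZ.n1 (1876, 822) (by decide +kernel)
            (CovZ.n2 (1875, 821) (by decide +kernel)
             (CovZ.leaf K2_ok TC_l650 _)
             (CovZ.leaf K2_ok TC_l651 _))
            (CovZ.leaf K2_ok TC_l652 _)))))))
      (CovZ.badM (by decide +kernel)))

theorem TC_u5 : CovZ TC_M (toL (selN TC_LN 7161)) [0, 7, 4, 3] (1872, 832) (1856, 832) (1872, 816) :=
    (CovZ.n1 (1864, 824) (by decide +kernel)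
      (CovZ.subM 2337 (by decide +kernel)
       (CovZ.n2 (1864, 832) (by decide +kernel)
        (CovZ.n2 (1868, 828) (by decide +kernel)
         (CovZ.n2 (1864, 828) (by decide +kernel)
          (CovZ.n2 (1866, 830) (by decide +kernel)
           (CovZ.n2 (1866, 828) (by decide +kernel)
            (CovZ.leaf K2_ok TC_l653 _)
            (CovZ.n1 (1867, 829) (by decide +kernel)
             (CovZ.leaf K2_ok TC_l654 _)
             (CovZ.leaf K2_ok TC_l655 _)))
           (CovZ.n1 (1864, 830) (by decide +kernel)
            (CovZ.n2 (1865, 831) (by decide +kernel)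
             (CovZ.leaf K2_ok TC_l656 _)
             (CovZ.leaf K2_ok TC_l657 _))
            (CovZ.n1 (1865, 829) (by decide +kernel)
             (CovZ.leaf K2_ok TC_l658 _)
             (CovZ.leaf K2_ok TC_l659 _))))
          (CovZ.n1 (1866, 826) (by decide +kernel)
           (CovZ.n2 (1864, 826) (by decide +kernel)
            (CovZ.leaf K2_ok TC_l660 _)
            (CovZ.leaf K2_ok TC_l661 _))
           (CovZ.n1 (1866, 828) (by decide +kernel)
            (CovZ.n2 (1867, 827) (by decide +kernel)
             (CovZ.leaf K2_ok TC_l662 _)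
             (CovZ.leaf K2_ok TC_l663 _))
            (CovZ.n1 (1865, 827) (by decide +kernel)
             (CovZ.leaf K2_ok TC_l664 _)
             (CovZ.leaf K2_ok TC_l665 _)))))
         (CovZ.n1 (1868, 832) (by decide +kernel)
          (CovZ.n2 (1870, 830) (by decide +kernel)
           (CovZ.n2 (1868, 830) (by decide +kernel)
            (CovZ.badM (by decide +kernel))
            (CovZ.n1 (1869, 829) (by decide +kernel)
             (CovZ.leaf K2_ok TC_l666 _)
             (CovZ.n1 (1869, 830) (by decide +kernel)
              (CovZ.leaf K2_ok TC_l667 _)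
              (CovZ.leaf K2_ok TC_l668 _))))
           (CovZ.badM (by decide +kernel)))
          (CovZ.n1 (1866, 830) (by decide +kernel)
           (CovZ.n2 (1866, 832) (by decide +kernel)
            (CovZ.n2 (1867, 831) (by decide +kernel)
             (CovZ.leaf K2_ok TC_l669 _)
             (CovZ.badM (by decide +kernel)))
            (CovZ.n1 (1865, 831) (by decide +kernel)
             (CovZ.leaf K2_ok TC_l670 _)
             (CovZ.leaf K2_ok TC_l671 _)))
           (CovZ.n1 (1868, 830) (by decide +kernel)
            (CovZ.n2 (1867, 829) (by decide +kernel)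
             (CovZ.leaf K2_ok TC_l672 _)
             (CovZ.leaf K2_ok TC_l673 _))
            (CovZ.leaf K2_ok TC_l674 _)))))
        (CovZ.n1 (1860, 828) (by decide +kernel)
         (CovZ.n2 (1860, 832) (by decide +kernel)
          (CovZ.n2 (1862, 830) (by decide +kernel)
           (CovZ.n2 (1860, 830) (by decide +kernel)
            (CovZ.n2 (1861, 831) (by decide +kernel)
             (CovZ.leaf K2_ok TC_l675 _)
             (CovZ.leaf K2_ok TC_l676 _))
            (CovZ.leaf K2_ok TC_l677 _))
           (CovZ.n1 (1862, 832) (by decide +kernel)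
            (CovZ.n2 (1863, 831) (by decide +kernel)
             (CovZ.leaf K2_ok TC_l678 _)
             (CovZ.leaf K2_ok TC_l679 _))
            (CovZ.n1 (1861, 831) (by decide +kernel)
             (CovZ.leaf K2_ok TC_l680 _)
             (CovZ.leaf K2_ok TC_l681 _))))
          (CovZ.n1 (1858, 830) (by decide +kernel)
           (CovZ.n2 (1858, 832) (by decide +kernel)
            (CovZ.leaf K2_ok TC_l682 _)
            (CovZ.n1 (1857, 831) (by decide +kernel)
             (CovZ.leaf K2_ok TC_l683 _)
             (CovZ.leaf K2_ok TC_l684 _)))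
           (CovZ.n1 (1860, 830) (by decide +kernel)
            (CovZ.n2 (1859, 829) (by decide +kernel)
             (CovZ.leaf K2_ok TC_l685 _)
             (CovZ.leaf K2_ok TC_l686 _))
            (CovZ.leaf K2_ok TC_l687 _))))
         (CovZ.n1 (1864, 828) (by decide +kernel)
          (CovZ.n2 (1862, 826) (by decide +kernel)
           (CovZ.n2 (1862, 828) (by decide +kernel)
            (CovZ.leaf K2_ok TC_l688 _)
            (CovZ.leaf K2_ok TC_l689 _))
           (CovZ.n1 (1864, 826) (by decide +kernel)
            (CovZ.leaf K2_ok TC_l690 _)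
            (CovZ.leaf K2_ok TC_l691 _)))
          (CovZ.n1 (1862, 830) (by decide +kernel)
           (CovZ.n2 (1864, 830) (by decide +kernel)
            (CovZ.n2 (1863, 829) (by decide +kernel)
             (CovZ.leaf K2_ok TC_l692 _)
             (CovZ.leaf K2_ok TC_l693 _))
            (CovZ.leaf K2_ok TC_l694 _))
           (CovZ.n1 (1862, 828) (by decide +kernel)
            (CovZ.leaf K2_ok TC_l695 _)
            (CovZ.n1 (1863, 829) (by decide +kernel)
             (CovZ.leaf K2_ok TC_l696 _)
             (CovZ.leaf K2_ok TC_l697 _))))))))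
      (CovZ.n1 (1872, 824) (by decide +kernel)
       (CovZ.n2 (1868, 820) (by decide +kernel)
        (CovZ.subM 2353 (by decide +kernel)
         (CovZ.n2 (1868, 824) (by decide +kernel)
          (CovZ.n2 (1870, 822) (by decide +kernel)
           (CovZ.n2 (1868, 822) (by decide +kernel)
            (CovZ.n2 (1869, 823) (by decide +kernel)
             (CovZ.leaf K2_ok TC_l698 _)
             (CovZ.leaf K2_ok TC_l699 _))
            (CovZ.leaf K2_ok TC_l700 _))
           (CovZ.n1 (1870, 824) (by decide +kernel)
            (CovZ.leaf K2_ok TC_l701 _)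
            (CovZ.n1 (1869, 823) (by decide +kernel)
             (CovZ.leaf K2_ok TC_l702 _)
             (CovZ.leaf K2_ok TC_l703 _))))
          (CovZ.n1 (1866, 822) (by decide +kernel)
           (CovZ.n2 (1866, 824) (by decide +kernel)
            (CovZ.leaf K2_ok TC_l704 _)
            (CovZ.leaf K2_ok TC_l705 _))
           (CovZ.n1 (1868, 822) (by decide +kernel)
            (CovZ.leaf K2_ok TC_l706 _)
            (CovZ.leaf K2_ok TC_l707 _)))))
        (CovZ.n1 (1872, 820) (by decide +kernel)
         (CovZ.n2 (1870, 818) (by decide +kernel)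
          (CovZ.n2 (1870, 820) (by decide +kernel)
           (CovZ.leaf K2_ok TC_l708 _)
           (CovZ.leaf K2_ok TC_l709 _))
          (CovZ.leaf K2_ok TC_l710 _))
         (CovZ.subM 2417 (by decide +kernel)
          (CovZ.n1 (1870, 822) (by decide +kernel)
           (CovZ.n2 (1872, 822) (by decide +kernel)
            (CovZ.leaf K2_ok TC_l711 _)
            (CovZ.leaf K2_ok TC_l712 _))
           (CovZ.n1 (1870, 820) (by decide +kernel)
            (CovZ.leaf K2_ok TC_l713 _)
            (CovZ.leaf K2_ok TC_l714 _))))))
       (CovZ.subM 2337 (by decide +kernel)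
        (CovZ.n1 (1868, 828) (by decide +kernel)
         (CovZ.n2 (1872, 828) (by decide +kernel)
          (CovZ.n2 (1870, 826) (by decide +kernel)
           (CovZ.n2 (1870, 828) (by decide +kernel)
            (CovZ.n2 (1871, 827) (by decide +kernel)
             (CovZ.leaf K2_ok TC_l715 _)
             (CovZ.leaf K2_ok TC_l716 _))
            (CovZ.n1 (1869, 827) (by decide +kernel)
             (CovZ.leaf K2_ok TC_l717 _)
             (CovZ.leaf K2_ok TC_l718 _)))
           (CovZ.n1 (1872, 826) (by decide +kernel)
            (CovZ.n2 (1871, 825) (by decide +kernel)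
             (CovZ.leaf K2_ok TC_l719 _)
             (CovZ.leaf K2_ok TC_l720 _))
            (CovZ.leaf K2_ok TC_l721 _)))
          (CovZ.n1 (1870, 830) (by decide +kernel)
           (CovZ.badM (by decide +kernel))
           (CovZ.n1 (1870, 828) (by decide +kernel)
            (CovZ.leaf K2_ok TC_l722 _)
            (CovZ.n1 (1871, 829) (by decide +kernel)
             (CovZ.leaf K2_ok TC_l723 _)
             (CovZ.leaf K2_ok TC_l724 _)))))
         (CovZ.n1 (1868, 824) (by decide +kernel)
          (CovZ.n2 (1866, 826) (by decide +kernel)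
           (CovZ.n2 (1868, 826) (by decide +kernel)
            (CovZ.n2 (1867, 825) (by decide +kernel)
             (CovZ.leaf K2_ok TC_l725 _)
             (CovZ.leaf K2_ok TC_l726 _))
            (CovZ.leaf K2_ok TC_l727 _))
           (CovZ.n1 (1866, 824) (by decide +kernel)
            (CovZ.leaf K2_ok TC_l728 _)
            (CovZ.leaf K2_ok TC_l729 _)))
          (CovZ.n1 (1870, 826) (by decide +kernel)
           (CovZ.n2 (1870, 824) (by decide +kernel)
            (CovZ.leaf K2_ok TC_l730 _)
            (CovZ.n1 (1871, 825) (by decide +kernel)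
             (CovZ.leaf K2_ok TC_l731 _)
             (CovZ.leaf K2_ok TC_l732 _)))
           (CovZ.n1 (1868, 826) (by decide +kernel)
            (CovZ.n2 (1869, 827) (by decide +kernel)
             (CovZ.leaf K2_ok TC_l733 _)
             (CovZ.leaf K2_ok TC_l734 _))
            (CovZ.n1 (1869, 825) (by decide +kernel)
             (CovZ.leaf K2_ok TC_l735 _)
             (CovZ.leaf K2_ok TC_l736 _)))))))))

theorem TC_u6 : CovZ TC_M (toL (selN TC_LN 8191)) [0, 7, 4, 3] (1888, 800) (1904, 800) (1904, 816) :=
    (CovZ.n2 (1896, 808) (by decide +kernel)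
      (CovZ.n2 (1904, 808) (by decide +kernel)
       (CovZ.n2 (1900, 804) (by decide +kernel)
        (CovZ.n2 (1900, 808) (by decide +kernel)
         (CovZ.n2 (1902, 806) (by decide +kernel)
          (CovZ.n2 (1900, 806) (by decide +kernel)
           (CovZ.n2 (1901, 807) (by decide +kernel)
            (CovZ.leaf K2_ok TC_l962 _)
            (CovZ.leaf K2_ok TC_l963 _))
           (CovZ.n1 (1901, 805) (by decide +kernel)
            (CovZ.leaf K2_ok TC_l964 _)
            (CovZ.leaf K2_ok TC_l965 _)))
          (CovZ.n1 (1902, 808) (by decide +kernel)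
           (CovZ.n2 (1903, 807) (by decide +kernel)
            (CovZ.leaf K2_ok TC_l966 _)
            (CovZ.leaf K2_ok TC_l967 _))
           (CovZ.n1 (1901, 807) (by decide +kernel)
            (CovZ.leaf K2_ok TC_l968 _)
            (CovZ.leaf K2_ok TC_l969 _))))
         (CovZ.n1 (1898, 806) (by decide +kernel)
          (CovZ.n2 (1898, 808) (by decide +kernel)
           (CovZ.n2 (1899, 807) (by decide +kernel)
            (CovZ.leaf K2_ok TC_l970 _)
            (CovZ.leaf K2_ok TC_l971 _))
           (CovZ.n1 (1897, 807) (by decide +kernel)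
            (CovZ.leaf K2_ok TC_l972 _)
            (CovZ.leaf K2_ok TC_l973 _)))
          (CovZ.n1 (1900, 806) (by decide +kernel)
           (CovZ.n2 (1899, 805) (by decide +kernel)
            (CovZ.leaf K2_ok TC_l974 _)
            (CovZ.leaf K2_ok TC_l975 _))
           (CovZ.leaf K2_ok TC_l976 _))))
        (CovZ.n1 (1904, 804) (by decide +kernel)
         (CovZ.n2 (1902, 802) (by decide +kernel)
          (CovZ.n2 (1902, 804) (by decide +kernel)
           (CovZ.n2 (1903, 803) (by decide +kernel)
            (CovZ.leaf K2_ok TC_l977 _)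
            (CovZ.leaf K2_ok TC_l978 _))
           (CovZ.n1 (1901, 803) (by decide +kernel)
            (CovZ.leaf K2_ok TC_l979 _)
            (CovZ.leaf K2_ok TC_l980 _)))
          (CovZ.n1 (1904, 802) (by decide +kernel)
           (CovZ.n2 (1903, 801) (by decide +kernel)
            (CovZ.leaf K2_ok TC_l981 _)
            (CovZ.leaf K2_ok TC_l982 _))
           (CovZ.leaf K2_ok TC_l983 _)))
         (CovZ.n1 (1902, 806) (by decide +kernel)
          (CovZ.n2 (1904, 806) (by decide +kernel)
           (CovZ.n2 (1903, 805) (by decide +kernel)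
            (CovZ.leaf K2_ok TC_l984 _)
            (CovZ.leaf K2_ok TC_l985 _))
           (CovZ.leaf K2_ok TC_l986 _))
          (CovZ.n1 (1902, 804) (by decide +kernel)
           (CovZ.leaf K2_ok TC_l987 _)
           (CovZ.n1 (1903, 805) (by decide +kernel)
            (CovZ.leaf K2_ok TC_l988 _)
            (CovZ.leaf K2_ok TC_l989 _))))))
       (CovZ.n1 (1900, 812) (by decide +kernel)
        (CovZ.subM 1435 (by decide +kernel)
         (CovZ.n2 (1904, 812) (by decide +kernel)
          (CovZ.n2 (1902, 810) (by decide +kernel)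
           (CovZ.n2 (1902, 812) (by decide +kernel)
            (CovZ.n2 (1903, 811) (by decide +kernel)
             (CovZ.leaf K2_ok TC_l990 _)
             (CovZ.leaf K2_ok TC_l991 _))
            (CovZ.n1 (1901, 811) (by decide +kernel)
             (CovZ.leaf K2_ok TC_l992 _)
             (CovZ.leaf K2_ok TC_l993 _)))
           (CovZ.n1 (1904, 810) (by decide +kernel)
            (CovZ.n2 (1903, 809) (by decide +kernel)
             (CovZ.leaf K2_ok TC_l994 _)
             (CovZ.leaf K2_ok TC_l995 _))
            (CovZ.n1 (1903, 811) (by decide +kernel)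
             (CovZ.leaf K2_ok TC_l996 _)
             (CovZ.leaf K2_ok TC_l997 _))))
          (CovZ.subM 138 (by decide +kernel)
           (CovZ.n1 (1902, 814) (by decide +kernel)
            (CovZ.badM (by decide +kernel))
            (CovZ.n1 (1902, 812) (by decide +kernel)
             (CovZ.n2 (1901, 813) (by decide +kernel)
              (CovZ.n2 (1902, 813) (by decide +kernel)
               (CovZ.leaf K2_ok TC_l1253 _)
               (CovZ.leaf K2_ok TC_l1254 _))
              (CovZ.leaf K2_ok TC_l998 _))
             (CovZ.badM (by decide +kernel)))))))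
        (CovZ.n1 (1900, 808) (by decide +kernel)
         (CovZ.n2 (1898, 810) (by decide +kernel)
          (CovZ.n2 (1900, 810) (by decide +kernel)
           (CovZ.n2 (1899, 809) (by decide +kernel)
            (CovZ.leaf K2_ok TC_l999 _)
            (CovZ.leaf K2_ok TC_l1000 _))
           (CovZ.leaf K2_ok TC_l1001 _))
          (CovZ.n1 (1898, 808) (by decide +kernel)
           (CovZ.leaf K2_ok TC_l1002 _)
           (CovZ.n1 (1899, 809) (by decide +kernel)
            (CovZ.leaf K2_ok TC_l1003 _)
            (CovZ.leaf K2_ok TC_l1004 _))))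
         (CovZ.n1 (1902, 810) (by decide +kernel)
          (CovZ.n2 (1902, 808) (by decide +kernel)
           (CovZ.n2 (1901, 809) (by decide +kernel)
            (CovZ.leaf K2_ok TC_l1005 _)
            (CovZ.leaf K2_ok TC_l1006 _))
           (CovZ.n1 (1903, 809) (by decide +kernel)
            (CovZ.leaf K2_ok TC_l1007 _)
            (CovZ.leaf K2_ok TC_l1008 _)))
          (CovZ.n1 (1900, 810) (by decide +kernel)
           (CovZ.n2 (1901, 811) (by decide +kernel)
            (CovZ.leaf K2_ok TC_l1009 _)
            (CovZ.leaf K2_ok TC_l1010 _))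
           (CovZ.n1 (1901, 809) (by decide +kernel)
            (CovZ.leaf K2_ok TC_l1011 _)
            (CovZ.leaf K2_ok TC_l1012 _)))))))
      (CovZ.n1 (1896, 800) (by decide +kernel)
       (CovZ.n2 (1892, 804) (by decide +kernel)
        (CovZ.n2 (1896, 804) (by decide +kernel)
         (CovZ.n2 (1894, 802) (by decide +kernel)
          (CovZ.n2 (1894, 804) (by decide +kernel)
           (CovZ.leaf K2_ok TC_l1013 _)
           (CovZ.leaf K2_ok TC_l1014 _))
          (CovZ.leaf K2_ok TC_l1015 _))
         (CovZ.n1 (1894, 806) (by decide +kernel)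
          (CovZ.leaf K2_ok TC_l1016 _)
          (CovZ.n1 (1894, 804) (by decide +kernel)
           (CovZ.leaf K2_ok TC_l1017 _)
           (CovZ.leaf K2_ok TC_l1018 _))))
        (CovZ.n1 (1892, 800) (by decide +kernel)
         (CovZ.leaf K2_ok TC_l1019 _)
         (CovZ.n1 (1894, 802) (by decide +kernel)
          (CovZ.n2 (1894, 800) (by decide +kernel)
           (CovZ.leaf K2_ok TC_l1020 _)
           (CovZ.leaf K2_ok TC_l1021 _))
          (CovZ.leaf K2_ok TC_l1022 _))))
       (CovZ.n1 (1900, 804) (by decide +kernel)
        (CovZ.n2 (1900, 800) (by decide +kernel)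
         (CovZ.n2 (1898, 802) (by decide +kernel)
          (CovZ.leaf K2_ok TC_l1023 _)
          (CovZ.n1 (1898, 800) (by decide +kernel)
           (CovZ.leaf K2_ok TC_l1024 _)
           (CovZ.leaf K2_ok TC_l1025 _)))
         (CovZ.n1 (1902, 802) (by decide +kernel)
          (CovZ.n2 (1902, 800) (by decide +kernel)
           (CovZ.leaf K2_ok TC_l1026 _)
           (CovZ.leaf K2_ok TC_l1027 _))
          (CovZ.n1 (1900, 802) (by decide +kernel)
           (CovZ.n2 (1901, 803) (by decide +kernel)
            (CovZ.leaf K2_ok TC_l1028 _)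
            (CovZ.leaf K2_ok TC_l1029 _))
           (CovZ.leaf K2_ok TC_l1030 _))))
        (CovZ.n1 (1896, 804) (by decide +kernel)
         (CovZ.n2 (1898, 806) (by decide +kernel)
          (CovZ.n2 (1898, 804) (by decide +kernel)
           (CovZ.leaf K2_ok TC_l1031 _)
           (CovZ.n1 (1899, 805) (by decide +kernel)
            (CovZ.leaf K2_ok TC_l1032 _)
            (CovZ.leaf K2_ok TC_l1033 _)))
          (CovZ.n1 (1896, 806) (by decide +kernel)
           (CovZ.leaf K2_ok TC_l1034 _)
           (CovZ.leaf K2_ok TC_l1035 _)))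
         (CovZ.n1 (1898, 802) (by decide +kernel)
          (CovZ.n2 (1896, 802) (by decide +kernel)
           (CovZ.leaf K2_ok TC_l1036 _)
           (CovZ.leaf K2_ok TC_l1037 _))
          (CovZ.n1 (1898, 804) (by decide +kernel)
           (CovZ.leaf K2_ok TC_l1038 _)
           (CovZ.leaf K2_ok TC_l1039 _)))))))

theorem TC_u7 : CovZ TC_M (toL (selN TC_LN 8191)) [0, 7, 4, 3] (1904, 800) (1920, 800) (1904, 816) :=
    (CovZ.n1 (1912, 808) (by decide +kernel)
      (CovZ.n2 (1912, 800) (by decide +kernel)
       (CovZ.n2 (1908, 804) (by decide +kernel)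
        (CovZ.badM (by decide +kernel))
        (CovZ.n1 (1908, 800) (by decide +kernel)
         (CovZ.n2 (1906, 802) (by decide +kernel)
          (CovZ.n2 (1908, 802) (by decide +kernel)
           (CovZ.n2 (1907, 801) (by decide +kernel)
            (CovZ.leaf K2_ok TC_l1040 _)
            (CovZ.leaf K2_ok TC_l1255 _))
           (CovZ.leaf K2_ok TC_l1041 _))
          (CovZ.n1 (1906, 800) (by decide +kernel)
           (CovZ.leaf K2_ok TC_l1042 _)
           (CovZ.n1 (1907, 801) (by decide +kernel)
            (CovZ.leaf K2_ok TC_l1256 _)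
            (CovZ.leaf K2_ok TC_l1043 _))))
         (CovZ.badM (by decide +kernel))))
       (CovZ.badM (by decide +kernel)))
      (CovZ.n1 (1904, 808) (by decide +kernel)
       (CovZ.subM 1296 (by decide +kernel)
        (CovZ.n2 (1908, 812) (by decide +kernel)
         (CovZ.n2 (1908, 808) (by decide +kernel)
          (CovZ.n2 (1906, 810) (by decide +kernel)
           (CovZ.badM (by decide +kernel))
           (CovZ.n1 (1906, 808) (by decide +kernel)
            (CovZ.leaf K2_ok TC_l1257 _)
            (CovZ.badM (by decide +kernel))))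
          (CovZ.badM (by decide +kernel)))
         (CovZ.n1 (1904, 812) (by decide +kernel)
          (CovZ.badM (by decide +kernel))
          (CovZ.n1 (1906, 810) (by decide +kernel)
           (CovZ.n2 (1904, 810) (by decide +kernel)
            (CovZ.n2 (1905, 811) (by decide +kernel)
             (CovZ.n2 (1905, 810) (by decide +kernel)
              (CovZ.leaf K2_ok TC_l1044 _)
              (CovZ.badM (by decide +kernel)))
             (CovZ.leaf K2_ok TC_l1045 _))
            (CovZ.n1 (1905, 809) (by decide +kernel)
             (CovZ.leaf K2_ok TC_l1046 _)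
             (CovZ.n1 (1905, 810) (by decide +kernel)
              (CovZ.badM (by decide +kernel))
              (CovZ.leaf K2_ok TC_l1047 _))))
           (CovZ.n1 (1906, 812) (by decide +kernel)
            (CovZ.badM (by decide +kernel))
            (CovZ.n1 (1905, 811) (by decide +kernel)
             (CovZ.badM (by decide +kernel))
             (CovZ.badM (by decide +kernel))))))))
       (CovZ.n1 (1908, 804) (by decide +kernel)
        (CovZ.n2 (1904, 804) (by decide +kernel)
         (CovZ.n2 (1906, 806) (by decide +kernel)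
          (CovZ.n2 (1906, 804) (by decide +kernel)
           (CovZ.leaf K2_ok TC_l1048 _)
           (CovZ.n1 (1907, 805) (by decide +kernel)
            (CovZ.leaf K2_ok TC_l1049 _)
            (CovZ.leaf K2_ok TC_l1050 _)))
          (CovZ.n1 (1904, 806) (by decide +kernel)
           (CovZ.n2 (1905, 807) (by decide +kernel)
            (CovZ.leaf K2_ok TC_l1051 _)
            (CovZ.n1 (1904, 807) (by decide +kernel)
             (CovZ.leaf K2_ok TC_l1052 _)
             (CovZ.leaf K2_ok TC_l1053 _)))
           (CovZ.n1 (1905, 805) (by decide +kernel)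
            (CovZ.leaf K2_ok TC_l1054 _)
            (CovZ.leaf K2_ok TC_l1055 _))))
         (CovZ.n1 (1906, 802) (by decide +kernel)
          (CovZ.n2 (1904, 802) (by decide +kernel)
           (CovZ.n2 (1905, 803) (by decide +kernel)
            (CovZ.leaf K2_ok TC_l1056 _)
            (CovZ.leaf K2_ok TC_l1057 _))
           (CovZ.n1 (1905, 801) (by decide +kernel)
            (CovZ.leaf K2_ok TC_l1058 _)
            (CovZ.leaf K2_ok TC_l1059 _)))
          (CovZ.n1 (1906, 804) (by decide +kernel)
           (CovZ.n2 (1907, 803) (by decide +kernel)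
            (CovZ.leaf K2_ok TC_l1060 _)
            (CovZ.leaf K2_ok TC_l1061 _))
           (CovZ.n1 (1905, 803) (by decide +kernel)
            (CovZ.leaf K2_ok TC_l1062 _)
            (CovZ.leaf K2_ok TC_l1063 _)))))
        (CovZ.subM 7936 (by decide +kernel)
         (CovZ.n1 (1908, 808) (by decide +kernel)
          (CovZ.badM (by decide +kernel))
          (CovZ.n1 (1906, 806) (by decide +kernel)
           (CovZ.n2 (1906, 808) (by decide +kernel)
            (CovZ.n2 (1907, 807) (by decide +kernel)
             (CovZ.leaf K2_ok TC_l1258 _)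
             (CovZ.n1 (1907, 808) (by decide +kernel)
              (CovZ.badM (by decide +kernel))
              (CovZ.leaf K2_ok TC_l1259 _)))
            (CovZ.n1 (1905, 807) (by decide +kernel)
             (CovZ.n2 (1905, 808) (by decide +kernel)
              (CovZ.leaf K2_ok TC_l1260 _)
              (CovZ.leaf K2_ok TC_l1261 _))
             (CovZ.leaf K2_ok TC_l1262 _)))
           (CovZ.n1 (1908, 806) (by decide +kernel)
            (CovZ.n2 (1907, 805) (by decide +kernel)
             (CovZ.n2 (1907, 806) (by decide +kernel)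
              (CovZ.leaf K2_ok TC_l1263 _)
              (CovZ.leaf K2_ok TC_l1264 _))
             (CovZ.leaf K2_ok TC_l1265 _))
            (CovZ.n1 (1907, 807) (by decide +kernel)
             (CovZ.badM (by decide +kernel))
             (CovZ.leaf K2_ok TC_l1266 _)))))))))

theorem TC_u8 : CovZ TC_M (toL (selN TC_LN 7167)) [0, 7, 4, 3] (1888, 800) (1904, 816) (1888, 832) :=
    (CovZ.n2 (1888, 816) (by decide +kernel)
     (CovZ.subM 2471 (by decide +kernel)
      (CovZ.n2 (1896, 824) (by decide +kernel)
       (CovZ.n2 (1896, 816) (by decide +kernel)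
        (CovZ.n2 (1892, 820) (by decide +kernel)
         (CovZ.subM 4 (by decide +kernel)
          (CovZ.n2 (1896, 820) (by decide +kernel)
           (CovZ.n2 (1894, 818) (by decide +kernel)
            (CovZ.n2 (1894, 820) (by decide +kernel)
             (CovZ.n2 (1895, 819) (by decide +kernel)
              (CovZ.leaf K2_ok TC_l1064 _)
              (CovZ.badM (by decide +kernel)))
             (CovZ.badM (by decide +kernel)))
            (CovZ.n1 (1896, 818) (by decide +kernel)
             (CovZ.n2 (1895, 817) (by decide +kernel)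
              (CovZ.leaf K2_ok TC_l1065 _)
              (CovZ.badM (by decide +kernel)))
             (CovZ.leaf K2_ok TC_l1066 _)))
           (CovZ.n1 (1894, 822) (by decide +kernel)
            (CovZ.badM (by decide +kernel))
            (CovZ.n1 (1894, 820) (by decide +kernel)
             (CovZ.badM (by decide +kernel))
             (CovZ.badM (by decide +kernel))))))
         (CovZ.n1 (1892, 816) (by decide +kernel)
          (CovZ.n2 (1890, 818) (by decide +kernel)
           (CovZ.badM (by decide +kernel))
           (CovZ.n1 (1890, 816) (by decide +kernel)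
            (CovZ.leaf K2_ok TC_l1067 _)
            (CovZ.n1 (1891, 817) (by decide +kernel)
             (CovZ.leaf K2_ok TC_l1267 _)
             (CovZ.leaf K2_ok TC_l1268 _))))
          (CovZ.subM 4 (by decide +kernel)
           (CovZ.n1 (1894, 818) (by decide +kernel)
            (CovZ.n2 (1894, 816) (by decide +kernel)
             (CovZ.n2 (1893, 817) (by decide +kernel)
              (CovZ.leaf K2_ok TC_l1068 _)
              (CovZ.leaf K2_ok TC_l1069 _))
             (CovZ.n1 (1895, 817) (by decide +kernel)
              (CovZ.leaf K2_ok TC_l1070 _)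
              (CovZ.leaf K2_ok TC_l1071 _)))
            (CovZ.badM (by decide +kernel))))))
        (CovZ.subM 2 (by decide +kernel)
         (CovZ.n1 (1900, 820) (by decide +kernel)
          (CovZ.n2 (1900, 816) (by decide +kernel)
           (CovZ.badM (by decide +kernel))
           (CovZ.n1 (1902, 818) (by decide +kernel)
            (CovZ.n2 (1902, 816) (by decide +kernel)
             (CovZ.badM (by decide +kernel))
             (CovZ.badM (by decide +kernel)))
            (CovZ.badM (by decide +kernel))))
          (CovZ.badM (by decide +kernel)))))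
       (CovZ.n1 (1888, 824) (by decide +kernel)
        (CovZ.badM (by decide +kernel))
        (CovZ.n1 (1892, 820) (by decide +kernel)
         (CovZ.n2 (1888, 820) (by decide +kernel)
          (CovZ.badM (by decide +kernel))
          (CovZ.n1 (1890, 818) (by decide +kernel)
           (CovZ.n2 (1888, 818) (by decide +kernel)
            (CovZ.badM (by decide +kernel))
            (CovZ.n1 (1889, 817) (by decide +kernel)
             (CovZ.leaf K2_ok TC_l1072 _)
             (CovZ.badM (by decide +kernel))))
           (CovZ.badM (by decide +kernel))))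
         (CovZ.badM (by decide +kernel))))))
     (CovZ.n1 (1896, 808) (by decide +kernel)
      (CovZ.n2 (1888, 808) (by decide +kernel)
       (CovZ.n2 (1892, 812) (by decide +kernel)
        (CovZ.n2 (1892, 808) (by decide +kernel)
         (CovZ.n2 (1890, 810) (by decide +kernel)
          (CovZ.leaf K2_ok TC_l1073 _)
          (CovZ.n1 (1890, 808) (by decide +kernel)
           (CovZ.leaf K2_ok TC_l1074 _)
           (CovZ.leaf K2_ok TC_l1075 _)))
         (CovZ.n1 (1894, 810) (by decide +kernel)
          (CovZ.n2 (1894, 808) (by decide +kernel)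
           (CovZ.leaf K2_ok TC_l1076 _)
           (CovZ.n1 (1895, 809) (by decide +kernel)
            (CovZ.leaf K2_ok TC_l1077 _)
            (CovZ.leaf K2_ok TC_l1078 _)))
          (CovZ.n1 (1892, 810) (by decide +kernel)
           (CovZ.n2 (1893, 811) (by decide +kernel)
            (CovZ.leaf K2_ok TC_l1079 _)
            (CovZ.leaf K2_ok TC_l1080 _))
           (CovZ.leaf K2_ok TC_l1081 _))))
        (CovZ.n1 (1888, 812) (by decide +kernel)
         (CovZ.n2 (1890, 814) (by decide +kernel)
          (CovZ.n2 (1890, 812) (by decide +kernel)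
           (CovZ.leaf K2_ok TC_l1082 _)
           (CovZ.n1 (1891, 813) (by decide +kernel)
            (CovZ.leaf K2_ok TC_l1083 _)
            (CovZ.leaf K2_ok TC_l1084 _)))
          (CovZ.n1 (1888, 814) (by decide +kernel)
           (CovZ.n2 (1889, 815) (by decide +kernel)
            (CovZ.leaf K2_ok TC_l1085 _)
            (CovZ.leaf K2_ok TC_l1086 _))
           (CovZ.leaf K2_ok TC_l1087 _)))
         (CovZ.n1 (1890, 810) (by decide +kernel)
          (CovZ.n2 (1888, 810) (by decide +kernel)
           (CovZ.leaf K2_ok TC_l1088 _)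
           (CovZ.leaf K2_ok TC_l1089 _))
          (CovZ.n1 (1890, 812) (by decide +kernel)
           (CovZ.leaf K2_ok TC_l1090 _)
           (CovZ.leaf K2_ok TC_l1091 _)))))
       (CovZ.n1 (1892, 804) (by decide +kernel)
        (CovZ.n2 (1888, 804) (by decide +kernel)
         (CovZ.n2 (1890, 806) (by decide +kernel)
          (CovZ.leaf K2_ok TC_l1092 _)
          (CovZ.n1 (1888, 806) (by decide +kernel)
           (CovZ.leaf K2_ok TC_l1093 _)
           (CovZ.leaf K2_ok TC_l1094 _)))
         (CovZ.n1 (1890, 802) (by decide +kernel)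
          (CovZ.leaf K2_ok TC_l1095 _)
          (CovZ.n1 (1890, 804) (by decide +kernel)
           (CovZ.leaf K2_ok TC_l1096 _)
           (CovZ.leaf K2_ok TC_l1097 _))))
        (CovZ.n1 (1892, 808) (by decide +kernel)
         (CovZ.n2 (1894, 806) (by decide +kernel)
          (CovZ.n2 (1892, 806) (by decide +kernel)
           (CovZ.leaf K2_ok TC_l1098 _)
           (CovZ.leaf K2_ok TC_l1099 _))
          (CovZ.n1 (1894, 808) (by decide +kernel)
           (CovZ.leaf K2_ok TC_l1100 _)
           (CovZ.leaf K2_ok TC_l1101 _)))
         (CovZ.n1 (1890, 806) (by decide +kernel)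
          (CovZ.n2 (1890, 808) (by decide +kernel)
           (CovZ.leaf K2_ok TC_l1102 _)
           (CovZ.leaf K2_ok TC_l1103 _))
          (CovZ.n1 (1892, 806) (by decide +kernel)
           (CovZ.leaf K2_ok TC_l1104 _)
           (CovZ.leaf K2_ok TC_l1105 _))))))
      (CovZ.n1 (1896, 816) (by decide +kernel)
       (CovZ.n2 (1900, 812) (by decide +kernel)
        (CovZ.n2 (1896, 812) (by decide +kernel)
         (CovZ.n2 (1898, 814) (by decide +kernel)
          (CovZ.n2 (1898, 812) (by decide +kernel)
           (CovZ.leaf K2_ok TC_l1106 _)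
           (CovZ.n1 (1899, 813) (by decide +kernel)
            (CovZ.leaf K2_ok TC_l1107 _)
            (CovZ.leaf K2_ok TC_l1108 _)))
          (CovZ.subM 2461 (by decide +kernel)
           (CovZ.n1 (1896, 814) (by decide +kernel)
            (CovZ.n2 (1897, 815) (by decide +kernel)
             (CovZ.leaf K2_ok TC_l1109 _)
             (CovZ.leaf K2_ok TC_l1110 _))
            (CovZ.n1 (1897, 813) (by decide +kernel)
             (CovZ.leaf K2_ok TC_l1111 _)
             (CovZ.leaf K2_ok TC_l1112 _)))))
         (CovZ.n1 (1898, 810) (by decide +kernel)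
          (CovZ.n2 (1896, 810) (by decide +kernel)
           (CovZ.n2 (1897, 811) (by decide +kernel)
            (CovZ.leaf K2_ok TC_l1113 _)
            (CovZ.leaf K2_ok TC_l1114 _))
           (CovZ.leaf K2_ok TC_l1115 _))
          (CovZ.n1 (1898, 812) (by decide +kernel)
           (CovZ.n2 (1899, 811) (by decide +kernel)
            (CovZ.leaf K2_ok TC_l1116 _)
            (CovZ.leaf K2_ok TC_l1117 _))
           (CovZ.n1 (1897, 811) (by decide +kernel)
            (CovZ.leaf K2_ok TC_l1118 _)
            (CovZ.leaf K2_ok TC_l1119 _)))))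
        (CovZ.subM 138 (by decide +kernel)
         (CovZ.n1 (1900, 816) (by decide +kernel)
          (CovZ.n2 (1902, 814) (by decide +kernel)
           (CovZ.n2 (1900, 814) (by decide +kernel)
            (CovZ.n2 (1901, 815) (by decide +kernel)
             (CovZ.n2 (1901, 814) (by decide +kernel)
              (CovZ.leaf K2_ok TC_l1120 _)
              (CovZ.badM (by decide +kernel)))
             (CovZ.badM (by decide +kernel)))
            (CovZ.n1 (1901, 813) (by decide +kernel)
             (CovZ.leaf K2_ok TC_l1121 _)
             (CovZ.n1 (1901, 814) (by decide +kernel)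
              (CovZ.leaf K2_ok TC_l1269 _)
              (CovZ.leaf K2_ok TC_l1122 _))))
           (CovZ.n1 (1902, 816) (by decide +kernel)
            (CovZ.badM (by decide +kernel))
            (CovZ.n1 (1901, 815) (by decide +kernel)
             (CovZ.badM (by decide +kernel))
             (CovZ.badM (by decide +kernel)))))
          (CovZ.n1 (1898, 814) (by decide +kernel)
           (CovZ.n2 (1898, 816) (by decide +kernel)
            (CovZ.n2 (1899, 815) (by decide +kernel)
             (CovZ.leaf K2_ok TC_l1270 _)
             (CovZ.badM (by decide +kernel)))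
            (CovZ.n1 (1897, 815) (by decide +kernel)
             (CovZ.badM (by decide +kernel))
             (CovZ.leaf K2_ok TC_l1271 _)))
           (CovZ.n1 (1900, 814) (by decide +kernel)
            (CovZ.n2 (1899, 813) (by decide +kernel)
             (CovZ.leaf K2_ok TC_l1123 _)
             (CovZ.leaf K2_ok TC_l1124 _))
            (CovZ.leaf K2_ok TC_l1272 _))))))
       (CovZ.n1 (1892, 812) (by decide +kernel)
        (CovZ.n2 (1892, 816) (by decide +kernel)
         (CovZ.n2 (1894, 814) (by decide +kernel)
          (CovZ.n2 (1892, 814) (by decide +kernel)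
           (CovZ.n2 (1893, 815) (by decide +kernel)
            (CovZ.leaf K2_ok TC_l1125 _)
            (CovZ.leaf K2_ok TC_l1126 _))
           (CovZ.leaf K2_ok TC_l1127 _))
          (CovZ.subM 396 (by decide +kernel)
           (CovZ.n1 (1894, 816) (by decide +kernel)
            (CovZ.n2 (1895, 815) (by decide +kernel)
             (CovZ.leaf K2_ok TC_l1128 _)
             (CovZ.leaf K2_ok TC_l1129 _))
            (CovZ.n1 (1893, 815) (by decide +kernel)
             (CovZ.leaf K2_ok TC_l1130 _)
             (CovZ.leaf K2_ok TC_l1131 _)))))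
         (CovZ.n1 (1890, 814) (by decide +kernel)
          (CovZ.subM 2489 (by decide +kernel)
           (CovZ.n2 (1890, 816) (by decide +kernel)
            (CovZ.n2 (1891, 815) (by decide +kernel)
             (CovZ.leaf K2_ok TC_l1132 _)
             (CovZ.leaf K2_ok TC_l1133 _))
            (CovZ.n1 (1889, 815) (by decide +kernel)
             (CovZ.leaf K2_ok TC_l1134 _)
             (CovZ.leaf K2_ok TC_l1135 _))))
          (CovZ.n1 (1892, 814) (by decide +kernel)
           (CovZ.n2 (1891, 813) (by decide +kernel)
            (CovZ.leaf K2_ok TC_l1136 _)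
            (CovZ.leaf K2_ok TC_l1137 _))
           (CovZ.leaf K2_ok TC_l1138 _))))
        (CovZ.n1 (1896, 812) (by decide +kernel)
         (CovZ.n2 (1894, 810) (by decide +kernel)
          (CovZ.n2 (1894, 812) (by decide +kernel)
           (CovZ.n2 (1895, 811) (by decide +kernel)
            (CovZ.leaf K2_ok TC_l1139 _)
            (CovZ.leaf K2_ok TC_l1140 _))
           (CovZ.n1 (1893, 811) (by decide +kernel)
            (CovZ.leaf K2_ok TC_l1141 _)
            (CovZ.leaf K2_ok TC_l1142 _)))
          (CovZ.n1 (1896, 810) (by decide +kernel)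
           (CovZ.n2 (1895, 809) (by decide +kernel)
            (CovZ.leaf K2_ok TC_l1143 _)
            (CovZ.leaf K2_ok TC_l1144 _))
           (CovZ.leaf K2_ok TC_l1145 _)))
         (CovZ.n1 (1894, 814) (by decide +kernel)
          (CovZ.n2 (1896, 814) (by decide +kernel)
           (CovZ.n2 (1895, 813) (by decide +kernel)
            (CovZ.leaf K2_ok TC_l1146 _)
            (CovZ.leaf K2_ok TC_l1147 _))
           (CovZ.leaf K2_ok TC_l1148 _))
          (CovZ.n1 (1894, 812) (by decide +kernel)
           (CovZ.leaf K2_ok TC_l1149 _)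
           (CovZ.n1 (1895, 813) (by decide +kernel)
            (CovZ.leaf K2_ok TC_l1150 _)
            (CovZ.leaf K2_ok TC_l1151 _)))))))))

end Pool.Agent.TET
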