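import Pool.Agent.Helper38_TET.TC_M
import Pool.Agent.Helper38_TET.TC_L
import Pool.Agent.Helper38_TET.TC_0
import Pool.Agent.Helper38_TET.TC_1
import Pool.Agent.Helper38_TET.TC_2
import Pool.Agent.Helper38_TET.TC_3
import Pool.Agent.Helper38_TET.TC_4
import Pool.Agent.Helper38_TET.TC_5
import Pool.Agent.Helper38_TET.TC_8
import Pool.Agent.Helper38_TET.TC_U0

/-!
# MP_c7c9bf_co: certificates, family TC
-/

set_option autoImplicit false
set_option maxRecDepth 100000

namespace Pool.Agent.TET

theorem TC_s0_0 : SqZ TC_M TC_L [0, 7, 4, 3] 1824 736 32 0 0 :=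
  SqZ.mk (a := 1824) (b := 1856) (c := 736) (d := 768) (by norm_num) (by norm_num) (by norm_num) (by norm_num)
    (CovZ.topM TC_LL 1856 (by decide +kernel) (CovZ.n2 (1840, 752) (by decide +kernel)
    (CovZ.n2 (1856, 752) (by decide +kernel)
     (CovZ.n2 (1848, 744) (by decide +kernel)
      (CovZ.n2 (1848, 752) (by decide +kernel)
       (CovZ.badM (by decide +kernel))
       (CovZ.leaf K2_ok TC_l1152 _))
      (CovZ.badM (by decide +kernel)))
     (CovZ.n1 (1848, 760) (by decide +kernel)
      (CovZ.leaf K2_ok TC_l0 _)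
      (CovZ.n1 (1848, 752) (by decide +kernel)
       (CovZ.leaf K2_ok TC_l1153 _)
       (CovZ.leaf K2_ok TC_l1154 _))))
    (CovZ.n1 (1840, 736) (by decide +kernel)
     (CovZ.badM (by decide +kernel))
     (CovZ.n1 (1848, 744) (by decide +kernel)
      (CovZ.badM (by decide +kernel))
      (CovZ.n1 (1840, 744) (by decide +kernel)
       (CovZ.leaf K2_ok TC_l1155 _)
       (CovZ.badM (by decide +kernel)))))))
    (CovZ.topM TC_LL 1856 (by decide +kernel) (CovZ.n0 (1840, 752) (by decide +kernel)
    (CovZ.badM (by decide +kernel))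
    (CovZ.n1 (1840, 768) (by decide +kernel)
     (CovZ.n2 (1848, 760) (by decide +kernel)
      (CovZ.n2 (1840, 760) (by decide +kernel)
       (CovZ.leaf K2_ok TC_l1156 _)
       (CovZ.leaf K2_ok TC_l1157 _))
      (CovZ.n1 (1848, 768) (by decide +kernel)
       (CovZ.n2 (1852, 764) (by decide +kernel)
        (CovZ.leaf K2_ok TC_l1158 _)
        (CovZ.leaf K2_ok TC_l1 _))
       (CovZ.n1 (1844, 764) (by decide +kernel)
        (CovZ.leaf K2_ok TC_l1159 _)
        (CovZ.leaf K2_ok TC_l1160 _))))
     (CovZ.n1 (1832, 760) (by decide +kernel)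
      (CovZ.badM (by decide +kernel))
      (CovZ.leaf K2_ok TC_l1161 _)))))

theorem TC_s1_0 : SqZ TC_M TC_L [0, 7, 4, 3] 1824 736 32 1 0 :=
  SqZ.mk (a := 1856) (b := 1888) (c := 736) (d := 768) (by norm_num) (by norm_num) (by norm_num) (by norm_num)
    (CovZ.topM TC_LL 2033 (by decide +kernel) (CovZ.n2 (1872, 752) (by decide +kernel)
    (CovZ.n2 (1888, 752) (by decide +kernel)
     (CovZ.subM 416 (by decide +kernel)
      (CovZ.n2 (1880, 744) (by decide +kernel)
       (CovZ.n2 (1880, 752) (by decide +kernel)
        (CovZ.n2 (1884, 748) (by decide +kernel)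
         (CovZ.leaf K2_ok TC_l1200 _)
         (CovZ.leaf K2_ok TC_l1201 _))
        (CovZ.n1 (1876, 748) (by decide +kernel)
         (CovZ.leaf K2_ok TC_l251 _)
         (CovZ.leaf K2_ok TC_l252 _)))
       (CovZ.n1 (1888, 744) (by decide +kernel)
        (CovZ.badM (by decide +kernel))
        (CovZ.leaf K2_ok TC_l1202 _))))
     (CovZ.n1 (1880, 760) (by decide +kernel)
      (CovZ.n2 (1888, 760) (by decide +kernel)
       (CovZ.n2 (1884, 756) (by decide +kernel)
        (CovZ.leaf K2_ok TC_l253 _)
        (CovZ.leaf K2_ok TC_l254 _))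
       (CovZ.leaf K2_ok TC_l255 _))
      (CovZ.n1 (1880, 752) (by decide +kernel)
       (CovZ.leaf K2_ok TC_l256 _)
       (CovZ.n1 (1884, 756) (by decide +kernel)
        (CovZ.leaf K2_ok TC_l1203 _)
        (CovZ.leaf K2_ok TC_l257 _)))))
    (CovZ.subM 160 (by decide +kernel)
     (CovZ.n1 (1872, 736) (by decide +kernel)
      (CovZ.badM (by decide +kernel))
      (CovZ.n1 (1880, 744) (by decide +kernel)
       (CovZ.badM (by decide +kernel))
       (CovZ.n1 (1872, 744) (by decide +kernel)
        (CovZ.n2 (1876, 748) (by decide +kernel)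
         (CovZ.leaf K2_ok TC_l258 _)
         (CovZ.badM (by decide +kernel)))
        (CovZ.leaf K2_ok TC_l259 _)))))))
    (CovZ.topM TC_LL 2041 (by decide +kernel) (CovZ.n0 (1872, 752) (by decide +kernel)
    (CovZ.subM 1864 (by decide +kernel)
     (CovZ.n2 (1856, 752) (by decide +kernel)
      (CovZ.n2 (1864, 760) (by decide +kernel)
       (CovZ.n2 (1864, 752) (by decide +kernel)
        (CovZ.leaf K2_ok TC_l260 _)
        (CovZ.n1 (1868, 756) (by decide +kernel)
         (CovZ.leaf K2_ok TC_l261 _)
         (CovZ.leaf K2_ok TC_l262 _)))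
       (CovZ.n1 (1856, 760) (by decide +kernel)
        (CovZ.n2 (1860, 764) (by decide +kernel)
         (CovZ.leaf K2_ok TC_l263 _)
         (CovZ.leaf K2_ok TC_l264 _))
        (CovZ.n1 (1860, 756) (by decide +kernel)
         (CovZ.leaf K2_ok TC_l265 _)
         (CovZ.leaf K2_ok TC_l266 _))))
      (CovZ.n1 (1864, 744) (by decide +kernel)
       (CovZ.badM (by decide +kernel))
       (CovZ.n1 (1864, 752) (by decide +kernel)
        (CovZ.n2 (1868, 748) (by decide +kernel)
         (CovZ.leaf K2_ok TC_l267 _)
         (CovZ.leaf K2_ok TC_l268 _))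
        (CovZ.leaf K2_ok TC_l269 _)))))
    (CovZ.n1 (1872, 768) (by decide +kernel)
     (CovZ.n2 (1880, 760) (by decide +kernel)
      (CovZ.n2 (1872, 760) (by decide +kernel)
       (CovZ.n2 (1876, 764) (by decide +kernel)
        (CovZ.leaf K2_ok TC_l270 _)
        (CovZ.leaf K2_ok TC_l271 _))
       (CovZ.n1 (1876, 756) (by decide +kernel)
        (CovZ.leaf K2_ok TC_l272 _)
        (CovZ.leaf K2_ok TC_l273 _)))
      (CovZ.n1 (1880, 768) (by decide +kernel)
       (CovZ.n2 (1884, 764) (by decide +kernel)
        (CovZ.leaf K2_ok TC_l274 _)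
        (CovZ.leaf K2_ok TC_l275 _))
       (CovZ.n1 (1876, 764) (by decide +kernel)
        (CovZ.leaf K2_ok TC_l276 _)
        (CovZ.leaf K2_ok TC_l277 _))))
     (CovZ.n1 (1864, 760) (by decide +kernel)
      (CovZ.n2 (1864, 768) (by decide +kernel)
       (CovZ.n2 (1868, 764) (by decide +kernel)
        (CovZ.leaf K2_ok TC_l278 _)
        (CovZ.leaf K2_ok TC_l279 _))
       (CovZ.n1 (1860, 764) (by decide +kernel)
        (CovZ.leaf K2_ok TC_l280 _)
        (CovZ.leaf K2_ok TC_l281 _)))
      (CovZ.n1 (1872, 760) (by decide +kernel)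
       (CovZ.n2 (1868, 756) (by decide +kernel)
        (CovZ.leaf K2_ok TC_l282 _)
        (CovZ.leaf K2_ok TC_l283 _))
       (CovZ.leaf K2_ok TC_l284 _))))))

theorem TC_s2_0 : SqZ TC_M TC_L [0, 7, 4, 3] 1824 736 32 2 0 :=
  SqZ.mk (a := 1888) (b := 1920) (c := 736) (d := 768) (by norm_num) (by norm_num) (by norm_num) (by norm_num)
    (CovZ.topM TC_LL 1809 (by decide +kernel) (CovZ.n2 (1904, 752) (by decide +kernel)
    (CovZ.n2 (1920, 752) (by decide +kernel)
     (CovZ.n2 (1912, 744) (by decide +kernel)
      (CovZ.n2 (1912, 752) (by decide +kernel)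
       (CovZ.badM (by decide +kernel))
       (CovZ.n1 (1908, 748) (by decide +kernel)
        (CovZ.n2 (1908, 752) (by decide +kernel)
         (CovZ.badM (by decide +kernel))
         (CovZ.leaf K2_ok TC_l761 _))
        (CovZ.badM (by decide +kernel))))
      (CovZ.badM (by decide +kernel)))
     (CovZ.n1 (1912, 760) (by decide +kernel)
      (CovZ.badM (by decide +kernel))
      (CovZ.n1 (1912, 752) (by decide +kernel)
       (CovZ.n2 (1908, 756) (by decide +kernel)
        (CovZ.badM (by decide +kernel))
        (CovZ.n1 (1908, 752) (by decide +kernel)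
         (CovZ.leaf K2_ok TC_l762 _)
         (CovZ.badM (by decide +kernel))))
       (CovZ.badM (by decide +kernel)))))
    (CovZ.n1 (1904, 736) (by decide +kernel)
     (CovZ.n2 (1896, 744) (by decide +kernel)
      (CovZ.n2 (1904, 744) (by decide +kernel)
       (CovZ.n2 (1900, 740) (by decide +kernel)
        (CovZ.leaf K2_ok TC_l1210 _)
        (CovZ.leaf K2_ok TC_l1211 _))
       (CovZ.n1 (1900, 748) (by decide +kernel)
        (CovZ.leaf K2_ok TC_l1212 _)
        (CovZ.leaf K2_ok TC_l1213 _)))
      (CovZ.n1 (1896, 736) (by decide +kernel)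
       (CovZ.leaf K2_ok TC_l1214 _)
       (CovZ.n1 (1900, 740) (by decide +kernel)
        (CovZ.badM (by decide +kernel))
        (CovZ.leaf K2_ok TC_l1215 _))))
     (CovZ.n1 (1912, 744) (by decide +kernel)
      (CovZ.badM (by decide +kernel))
      (CovZ.n1 (1904, 744) (by decide +kernel)
       (CovZ.n2 (1908, 748) (by decide +kernel)
        (CovZ.n2 (1908, 744) (by decide +kernel)
         (CovZ.leaf K2_ok TC_l1216 _)
         (CovZ.badM (by decide +kernel)))
        (CovZ.n1 (1904, 748) (by decide +kernel)
         (CovZ.leaf K2_ok TC_l1217 _)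
         (CovZ.leaf K2_ok TC_l1218 _)))
       (CovZ.badM (by decide +kernel)))))))
    (CovZ.topM TC_LL 2001 (by decide +kernel) (CovZ.n0 (1904, 752) (by decide +kernel)
    (CovZ.n2 (1888, 752) (by decide +kernel)
     (CovZ.n2 (1896, 760) (by decide +kernel)
      (CovZ.n2 (1896, 752) (by decide +kernel)
       (CovZ.leaf K2_ok TC_l763 _)
       (CovZ.n1 (1900, 756) (by decide +kernel)
        (CovZ.leaf K2_ok TC_l764 _)
        (CovZ.n1 (1896, 756) (by decide +kernel)
         (CovZ.leaf K2_ok TC_l765 _)
         (CovZ.leaf K2_ok TC_l766 _))))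
      (CovZ.n1 (1888, 760) (by decide +kernel)
       (CovZ.n2 (1892, 764) (by decide +kernel)
        (CovZ.leaf K2_ok TC_l767 _)
        (CovZ.n1 (1888, 764) (by decide +kernel)
         (CovZ.leaf K2_ok TC_l768 _)
         (CovZ.leaf K2_ok TC_l769 _)))
       (CovZ.n1 (1892, 756) (by decide +kernel)
        (CovZ.leaf K2_ok TC_l770 _)
        (CovZ.n1 (1892, 760) (by decide +kernel)
         (CovZ.leaf K2_ok TC_l771 _)
         (CovZ.leaf K2_ok TC_l772 _)))))
     (CovZ.subM 1280 (by decide +kernel)
      (CovZ.n1 (1896, 744) (by decide +kernel)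
       (CovZ.n2 (1888, 744) (by decide +kernel)
        (CovZ.n2 (1892, 748) (by decide +kernel)
         (CovZ.leaf K2_ok TC_l1219 _)
         (CovZ.leaf K2_ok TC_l1220 _))
        (CovZ.n1 (1892, 740) (by decide +kernel)
         (CovZ.badM (by decide +kernel))
         (CovZ.leaf K2_ok TC_l1221 _)))
       (CovZ.n1 (1896, 752) (by decide +kernel)
        (CovZ.n2 (1900, 748) (by decide +kernel)
         (CovZ.leaf K2_ok TC_l1222 _)
         (CovZ.n1 (1900, 752) (by decide +kernel)
          (CovZ.leaf K2_ok TC_l1223 _)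
          (CovZ.leaf K2_ok TC_l1224 _)))
        (CovZ.n1 (1892, 748) (by decide +kernel)
         (CovZ.leaf K2_ok TC_l1225 _)
         (CovZ.leaf K2_ok TC_l1226 _))))))
    (CovZ.n1 (1904, 768) (by decide +kernel)
     (CovZ.subM 1537 (by decide +kernel)
      (CovZ.n2 (1912, 760) (by decide +kernel)
       (CovZ.n2 (1904, 760) (by decide +kernel)
        (CovZ.n2 (1908, 764) (by decide +kernel)
         (CovZ.n2 (1908, 760) (by decide +kernel)
          (CovZ.leaf K2_ok TC_l773 _)
          (CovZ.badM (by decide +kernel)))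
         (CovZ.n1 (1904, 764) (by decide +kernel)
          (CovZ.n2 (1906, 766) (by decide +kernel)
           (CovZ.leaf K2_ok TC_l774 _)
           (CovZ.leaf K2_ok TC_l775 _))
          (CovZ.n1 (1906, 762) (by decide +kernel)
           (CovZ.leaf K2_ok TC_l776 _)
           (CovZ.leaf K2_ok TC_l777 _))))
        (CovZ.n1 (1908, 756) (by decide +kernel)
         (CovZ.n2 (1904, 756) (by decide +kernel)
          (CovZ.leaf K2_ok TC_l778 _)
          (CovZ.leaf K2_ok TC_l779 _))
         (CovZ.n1 (1908, 760) (by decide +kernel)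
          (CovZ.badM (by decide +kernel))
          (CovZ.n1 (1906, 758) (by decide +kernel)
           (CovZ.leaf K2_ok TC_l780 _)
           (CovZ.leaf K2_ok TC_l781 _)))))
       (CovZ.n1 (1912, 768) (by decide +kernel)
        (CovZ.badM (by decide +kernel))
        (CovZ.n1 (1908, 764) (by decide +kernel)
         (CovZ.n2 (1908, 768) (by decide +kernel)
          (CovZ.badM (by decide +kernel))
          (CovZ.n1 (1906, 766) (by decide +kernel)
           (CovZ.leaf K2_ok TC_l782 _)
           (CovZ.leaf K2_ok TC_l783 _)))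
         (CovZ.badM (by decide +kernel))))))
     (CovZ.n1 (1896, 760) (by decide +kernel)
      (CovZ.n2 (1896, 768) (by decide +kernel)
       (CovZ.n2 (1900, 764) (by decide +kernel)
        (CovZ.n2 (1896, 764) (by decide +kernel)
         (CovZ.leaf K2_ok TC_l784 _)
         (CovZ.leaf K2_ok TC_l785 _))
        (CovZ.n1 (1900, 768) (by decide +kernel)
         (CovZ.leaf K2_ok TC_l786 _)
         (CovZ.leaf K2_ok TC_l787 _)))
       (CovZ.n1 (1892, 764) (by decide +kernel)
        (CovZ.n2 (1892, 768) (by decide +kernel)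
         (CovZ.leaf K2_ok TC_l788 _)
         (CovZ.leaf K2_ok TC_l789 _))
        (CovZ.leaf K2_ok TC_l790 _)))
      (CovZ.subM 1793 (by decide +kernel)
       (CovZ.n1 (1904, 760) (by decide +kernel)
        (CovZ.n2 (1900, 756) (by decide +kernel)
         (CovZ.n2 (1900, 760) (by decide +kernel)
          (CovZ.leaf K2_ok TC_l791 _)
          (CovZ.leaf K2_ok TC_l792 _))
         (CovZ.leaf K2_ok TC_l793 _))
        (CovZ.n1 (1900, 764) (by decide +kernel)
         (CovZ.n2 (1904, 764) (by decide +kernel)
          (CovZ.leaf K2_ok TC_l794 _)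
          (CovZ.leaf K2_ok TC_l795 _))
         (CovZ.n1 (1900, 760) (by decide +kernel)
          (CovZ.leaf K2_ok TC_l796 _)
          (CovZ.n1 (1902, 762) (by decide +kernel)
           (CovZ.leaf K2_ok TC_l797 _)
           (CovZ.leaf K2_ok TC_l798 _))))))))))

theorem TC_s0_1 : SqZ TC_M TC_L [0, 7, 4, 3] 1824 736 32 0 1 :=
  SqZ.mk (a := 1824) (b := 1856) (c := 768) (d := 800) (by norm_num) (by norm_num) (by norm_num) (by norm_num)
    (CovZ.topM TC_LL 1913 (by decide +kernel) (CovZ.n2 (1840, 784) (by decide +kernel)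
    (CovZ.n2 (1856, 784) (by decide +kernel)
     (CovZ.n2 (1848, 776) (by decide +kernel)
      (CovZ.n2 (1848, 784) (by decide +kernel)
       (CovZ.n2 (1852, 780) (by decide +kernel)
        (CovZ.leaf K2_ok TC_l2 _)
        (CovZ.leaf K2_ok TC_l3 _))
       (CovZ.n1 (1844, 780) (by decide +kernel)
        (CovZ.leaf K2_ok TC_l4 _)
        (CovZ.leaf K2_ok TC_l5 _)))
      (CovZ.n1 (1856, 776) (by decide +kernel)
       (CovZ.n2 (1852, 772) (by decide +kernel)
        (CovZ.leaf K2_ok TC_l6 _)
        (CovZ.leaf K2_ok TC_l7 _))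
       (CovZ.leaf K2_ok TC_l8 _)))
     (CovZ.n1 (1848, 792) (by decide +kernel)
      (CovZ.n2 (1856, 792) (by decide +kernel)
       (CovZ.n2 (1852, 788) (by decide +kernel)
        (CovZ.n2 (1852, 792) (by decide +kernel)
         (CovZ.leaf K2_ok TC_l9 _)
         (CovZ.leaf K2_ok TC_l10 _))
        (CovZ.leaf K2_ok TC_l11 _))
       (CovZ.n1 (1852, 796) (by decide +kernel)
        (CovZ.leaf K2_ok TC_l12 _)
        (CovZ.leaf K2_ok TC_l13 _)))
      (CovZ.n1 (1848, 784) (by decide +kernel)
       (CovZ.leaf K2_ok TC_l14 _)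
       (CovZ.n1 (1852, 788) (by decide +kernel)
        (CovZ.leaf K2_ok TC_l15 _)
        (CovZ.leaf K2_ok TC_l16 _)))))
    (CovZ.n1 (1840, 768) (by decide +kernel)
     (CovZ.n2 (1832, 776) (by decide +kernel)
      (CovZ.n2 (1840, 776) (by decide +kernel)
       (CovZ.badM (by decide +kernel))
       (CovZ.leaf K2_ok TC_l17 _))
      (CovZ.badM (by decide +kernel)))
     (CovZ.n1 (1848, 776) (by decide +kernel)
      (CovZ.n2 (1848, 768) (by decide +kernel)
       (CovZ.leaf K2_ok TC_l18 _)
       (CovZ.n1 (1852, 772) (by decide +kernel)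
        (CovZ.leaf K2_ok TC_l19 _)
        (CovZ.leaf K2_ok TC_l20 _)))
      (CovZ.subM 848 (by decide +kernel)
       (CovZ.n1 (1840, 776) (by decide +kernel)
        (CovZ.n2 (1844, 780) (by decide +kernel)
         (CovZ.leaf K2_ok TC_l21 _)
         (CovZ.leaf K2_ok TC_l22 _))
        (CovZ.n1 (1844, 772) (by decide +kernel)
         (CovZ.badM (by decide +kernel))
         (CovZ.leaf K2_ok TC_l23 _))))))))
    (CovZ.topM TC_LL 889 (by decide +kernel) (CovZ.n0 (1840, 784) (by decide +kernel)
    (CovZ.subM 16 (by decide +kernel)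
     (CovZ.n2 (1824, 784) (by decide +kernel)
      (CovZ.n2 (1832, 792) (by decide +kernel)
       (CovZ.n2 (1832, 784) (by decide +kernel)
        (CovZ.badM (by decide +kernel))
        (CovZ.n1 (1836, 788) (by decide +kernel)
         (CovZ.leaf K2_ok TC_l24 _)
         (CovZ.leaf K2_ok TC_l25 _)))
       (CovZ.badM (by decide +kernel)))
      (CovZ.n1 (1832, 776) (by decide +kernel)
       (CovZ.badM (by decide +kernel))
       (CovZ.n1 (1832, 784) (by decide +kernel)
        (CovZ.n2 (1836, 780) (by decide +kernel)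
         (CovZ.badM (by decide +kernel))
         (CovZ.leaf K2_ok TC_l26 _))
        (CovZ.badM (by decide +kernel))))))
    (CovZ.n1 (1840, 800) (by decide +kernel)
     (CovZ.n2 (1848, 792) (by decide +kernel)
      (CovZ.subM 785 (by decide +kernel)
       (CovZ.n2 (1840, 792) (by decide +kernel)
        (CovZ.n2 (1844, 796) (by decide +kernel)
         (CovZ.leaf K2_ok TC_l27 _)
         (CovZ.leaf K2_ok TC_l28 _))
        (CovZ.n1 (1844, 788) (by decide +kernel)
         (CovZ.leaf K2_ok TC_l29 _)
         (CovZ.leaf K2_ok TC_l30 _))))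
      (CovZ.n1 (1848, 800) (by decide +kernel)
       (CovZ.n2 (1852, 796) (by decide +kernel)
        (CovZ.n2 (1848, 796) (by decide +kernel)
         (CovZ.leaf K2_ok TC_l31 _)
         (CovZ.leaf K2_ok TC_l32 _))
        (CovZ.n1 (1852, 800) (by decide +kernel)
         (CovZ.leaf K2_ok TC_l33 _)
         (CovZ.leaf K2_ok TC_l34 _)))
       (CovZ.n1 (1844, 796) (by decide +kernel)
        (CovZ.n2 (1844, 800) (by decide +kernel)
         (CovZ.leaf K2_ok TC_l35 _)
         (CovZ.leaf K2_ok TC_l36 _))
        (CovZ.leaf K2_ok TC_l37 _))))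
     (CovZ.subM 17 (by decide +kernel)
      (CovZ.n1 (1832, 792) (by decide +kernel)
       (CovZ.n2 (1832, 800) (by decide +kernel)
        (CovZ.n2 (1836, 796) (by decide +kernel)
         (CovZ.leaf K2_ok TC_l38 _)
         (CovZ.n1 (1836, 800) (by decide +kernel)
          (CovZ.leaf K2_ok TC_l39 _)
          (CovZ.leaf K2_ok TC_l40 _)))
        (CovZ.n1 (1828, 796) (by decide +kernel)
         (CovZ.leaf K2_ok TC_l41 _)
         (CovZ.leaf K2_ok TC_l42 _)))
       (CovZ.n1 (1840, 792) (by decide +kernel)
        (CovZ.n2 (1836, 788) (by decide +kernel)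
         (CovZ.leaf K2_ok TC_l43 _)
         (CovZ.leaf K2_ok TC_l44 _))
        (CovZ.leaf K2_ok TC_l45 _)))))))

theorem TC_s1_1 : SqZ TC_M TC_L [0, 7, 4, 3] 1824 736 32 1 1 :=
  SqZ.mk (a := 1856) (b := 1888) (c := 768) (d := 800) (by norm_num) (by norm_num) (by norm_num) (by norm_num)
    (CovZ.topM TC_LL 4095 (by decide +kernel) (CovZ.n2 (1872, 784) (by decide +kernel)
    (CovZ.n2 (1888, 784) (by decide +kernel)
     (CovZ.n2 (1880, 776) (by decide +kernel)
      (CovZ.n2 (1880, 784) (by decide +kernel)
       (CovZ.n2 (1884, 780) (by decide +kernel)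
        (CovZ.n2 (1880, 780) (by decide +kernel)
         (CovZ.leaf K2_ok TC_l285 _)
         (CovZ.leaf K2_ok TC_l286 _))
        (CovZ.n1 (1884, 784) (by decide +kernel)
         (CovZ.leaf K2_ok TC_l287 _)
         (CovZ.leaf K2_ok TC_l288 _)))
       (CovZ.n1 (1876, 780) (by decide +kernel)
        (CovZ.n2 (1876, 784) (by decide +kernel)
         (CovZ.leaf K2_ok TC_l289 _)
         (CovZ.leaf K2_ok TC_l290 _))
        (CovZ.leaf K2_ok TC_l291 _)))
      (CovZ.n1 (1888, 776) (by decide +kernel)
       (CovZ.n2 (1884, 772) (by decide +kernel)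
        (CovZ.n2 (1884, 776) (by decide +kernel)
         (CovZ.leaf K2_ok TC_l292 _)
         (CovZ.leaf K2_ok TC_l293 _))
        (CovZ.leaf K2_ok TC_l294 _))
       (CovZ.n1 (1884, 780) (by decide +kernel)
        (CovZ.leaf K2_ok TC_l295 _)
        (CovZ.n1 (1884, 776) (by decide +kernel)
         (CovZ.leaf K2_ok TC_l296 _)
         (CovZ.leaf K2_ok TC_l297 _)))))
     (CovZ.n1 (1880, 792) (by decide +kernel)
      (CovZ.n2 (1888, 792) (by decide +kernel)
       (CovZ.n2 (1884, 788) (by decide +kernel)
        (CovZ.n2 (1884, 792) (by decide +kernel)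
         (CovZ.n2 (1886, 790) (by decide +kernel)
          (CovZ.leaf K2_ok TC_l298 _)
          (CovZ.leaf K2_ok TC_l299 _))
         (CovZ.n1 (1882, 790) (by decide +kernel)
          (CovZ.leaf K2_ok TC_l300 _)
          (CovZ.leaf K2_ok TC_l301 _)))
        (CovZ.n1 (1888, 788) (by decide +kernel)
         (CovZ.leaf K2_ok TC_l302 _)
         (CovZ.leaf K2_ok TC_l303 _)))
       (CovZ.n1 (1884, 796) (by decide +kernel)
        (CovZ.n2 (1888, 796) (by decide +kernel)
         (CovZ.n2 (1886, 794) (by decide +kernel)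
          (CovZ.leaf K2_ok TC_l304 _)
          (CovZ.leaf K2_ok TC_l305 _))
         (CovZ.leaf K2_ok TC_l306 _))
        (CovZ.n1 (1884, 792) (by decide +kernel)
         (CovZ.leaf K2_ok TC_l307 _)
         (CovZ.n1 (1886, 794) (by decide +kernel)
          (CovZ.leaf K2_ok TC_l308 _)
          (CovZ.leaf K2_ok TC_l309 _)))))
      (CovZ.n1 (1880, 784) (by decide +kernel)
       (CovZ.n2 (1876, 788) (by decide +kernel)
        (CovZ.leaf K2_ok TC_l310 _)
        (CovZ.n1 (1876, 784) (by decide +kernel)
         (CovZ.leaf K2_ok TC_l311 _)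
         (CovZ.leaf K2_ok TC_l312 _)))
       (CovZ.n1 (1884, 788) (by decide +kernel)
        (CovZ.n2 (1884, 784) (by decide +kernel)
         (CovZ.leaf K2_ok TC_l313 _)
         (CovZ.leaf K2_ok TC_l314 _))
        (CovZ.n1 (1880, 788) (by decide +kernel)
         (CovZ.leaf K2_ok TC_l315 _)
         (CovZ.leaf K2_ok TC_l316 _))))))
    (CovZ.n1 (1872, 768) (by decide +kernel)
     (CovZ.n2 (1864, 776) (by decide +kernel)
      (CovZ.n2 (1872, 776) (by decide +kernel)
       (CovZ.n2 (1868, 772) (by decide +kernel)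
        (CovZ.leaf K2_ok TC_l317 _)
        (CovZ.leaf K2_ok TC_l318 _))
       (CovZ.leaf K2_ok TC_l319 _))
      (CovZ.n1 (1864, 768) (by decide +kernel)
       (CovZ.leaf K2_ok TC_l320 _)
       (CovZ.n1 (1868, 772) (by decide +kernel)
        (CovZ.leaf K2_ok TC_l321 _)
        (CovZ.leaf K2_ok TC_l322 _))))
     (CovZ.n1 (1880, 776) (by decide +kernel)
      (CovZ.n2 (1880, 768) (by decide +kernel)
       (CovZ.leaf K2_ok TC_l323 _)
       (CovZ.n1 (1884, 772) (by decide +kernel)
        (CovZ.leaf K2_ok TC_l324 _)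
        (CovZ.n1 (1880, 772) (by decide +kernel)
         (CovZ.leaf K2_ok TC_l325 _)
         (CovZ.leaf K2_ok TC_l326 _))))
      (CovZ.n1 (1872, 776) (by decide +kernel)
       (CovZ.n2 (1876, 780) (by decide +kernel)
        (CovZ.leaf K2_ok TC_l327 _)
        (CovZ.n1 (1872, 780) (by decide +kernel)
         (CovZ.leaf K2_ok TC_l328 _)
         (CovZ.leaf K2_ok TC_l329 _)))
       (CovZ.n1 (1876, 772) (by decide +kernel)
        (CovZ.leaf K2_ok TC_l330 _)
        (CovZ.leaf K2_ok TC_l331 _)))))))
    (CovZ.topM TC_LL 4095 (by decide +kernel) (CovZ.n0 (1872, 784) (by decide +kernel)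
    (CovZ.n2 (1856, 784) (by decide +kernel)
     (CovZ.n2 (1864, 792) (by decide +kernel)
      (CovZ.n2 (1864, 784) (by decide +kernel)
       (CovZ.n2 (1860, 788) (by decide +kernel)
        (CovZ.leaf K2_ok TC_l332 _)
        (CovZ.leaf K2_ok TC_l333 _))
       (CovZ.n1 (1868, 788) (by decide +kernel)
        (CovZ.n2 (1868, 784) (by decide +kernel)
         (CovZ.leaf K2_ok TC_l334 _)
         (CovZ.leaf K2_ok TC_l335 _))
        (CovZ.n1 (1864, 788) (by decide +kernel)
         (CovZ.leaf K2_ok TC_l336 _)
         (CovZ.leaf K2_ok TC_l337 _))))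
      (CovZ.subM 889 (by decide +kernel)
       (CovZ.n1 (1856, 792) (by decide +kernel)
        (CovZ.n2 (1860, 796) (by decide +kernel)
         (CovZ.n2 (1860, 792) (by decide +kernel)
          (CovZ.leaf K2_ok TC_l338 _)
          (CovZ.leaf K2_ok TC_l339 _))
         (CovZ.n1 (1856, 796) (by decide +kernel)
          (CovZ.leaf K2_ok TC_l340 _)
          (CovZ.leaf K2_ok TC_l341 _)))
        (CovZ.n1 (1860, 788) (by decide +kernel)
         (CovZ.leaf K2_ok TC_l342 _)
         (CovZ.n1 (1860, 792) (by decide +kernel)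
          (CovZ.leaf K2_ok TC_l343 _)
          (CovZ.leaf K2_ok TC_l344 _))))))
     (CovZ.n1 (1864, 776) (by decide +kernel)
      (CovZ.subM 1912 (by decide +kernel)
       (CovZ.n2 (1856, 776) (by decide +kernel)
        (CovZ.n2 (1860, 780) (by decide +kernel)
         (CovZ.leaf K2_ok TC_l345 _)
         (CovZ.leaf K2_ok TC_l346 _))
        (CovZ.n1 (1860, 772) (by decide +kernel)
         (CovZ.leaf K2_ok TC_l347 _)
         (CovZ.leaf K2_ok TC_l348 _))))
      (CovZ.n1 (1864, 784) (by decide +kernel)
       (CovZ.n2 (1868, 780) (by decide +kernel)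
        (CovZ.leaf K2_ok TC_l349 _)
        (CovZ.n1 (1868, 784) (by decide +kernel)
         (CovZ.leaf K2_ok TC_l350 _)
         (CovZ.leaf K2_ok TC_l351 _)))
       (CovZ.n1 (1860, 780) (by decide +kernel)
        (CovZ.leaf K2_ok TC_l352 _)
        (CovZ.leaf K2_ok TC_l353 _)))))
    (CovZ.n1 (1872, 800) (by decide +kernel)
     (CovZ.n2 (1880, 792) (by decide +kernel)
      (CovZ.n2 (1872, 792) (by decide +kernel)
       (CovZ.n2 (1876, 796) (by decide +kernel)
        (CovZ.n2 (1876, 792) (by decide +kernel)
         (CovZ.leaf K2_ok TC_l354 _)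
         (CovZ.n1 (1878, 794) (by decide +kernel)
          (CovZ.leaf K2_ok TC_l355 _)
          (CovZ.leaf K2_ok TC_l356 _)))
        (CovZ.n1 (1872, 796) (by decide +kernel)
         (CovZ.n2 (1874, 798) (by decide +kernel)
          (CovZ.leaf K2_ok TC_l357 _)
          (CovZ.leaf K2_ok TC_l358 _))
         (CovZ.leaf K2_ok TC_l359 _)))
       (CovZ.n1 (1876, 788) (by decide +kernel)
        (CovZ.n2 (1872, 788) (by decide +kernel)
         (CovZ.leaf K2_ok TC_l360 _)
         (CovZ.leaf K2_ok TC_l361 _))
        (CovZ.n1 (1876, 792) (by decide +kernel)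
         (CovZ.leaf K2_ok TC_l362 _)
         (CovZ.leaf K2_ok TC_l363 _))))
      (CovZ.n1 (1880, 800) (by decide +kernel)
       (CovZ.n2 (1884, 796) (by decide +kernel)
        (CovZ.n2 (1880, 796) (by decide +kernel)
         (CovZ.n2 (1882, 798) (by decide +kernel)
          (CovZ.leaf K2_ok TC_l364 _)
          (CovZ.leaf K2_ok TC_l365 _))
         (CovZ.n1 (1882, 794) (by decide +kernel)
          (CovZ.leaf K2_ok TC_l366 _)
          (CovZ.leaf K2_ok TC_l367 _)))
        (CovZ.n1 (1884, 800) (by decide +kernel)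
         (CovZ.n2 (1886, 798) (by decide +kernel)
          (CovZ.leaf K2_ok TC_l368 _)
          (CovZ.leaf K2_ok TC_l369 _))
         (CovZ.n1 (1882, 798) (by decide +kernel)
          (CovZ.leaf K2_ok TC_l370 _)
          (CovZ.leaf K2_ok TC_l371 _))))
       (CovZ.n1 (1876, 796) (by decide +kernel)
        (CovZ.subM 889 (by decide +kernel)
         (CovZ.n2 (1876, 800) (by decide +kernel)
          (CovZ.n2 (1878, 798) (by decide +kernel)
           (CovZ.leaf K2_ok TC_l372 _)
           (CovZ.leaf K2_ok TC_l373 _))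
          (CovZ.n1 (1874, 798) (by decide +kernel)
           (CovZ.leaf K2_ok TC_l374 _)
           (CovZ.leaf K2_ok TC_l375 _))))
        (CovZ.n1 (1880, 796) (by decide +kernel)
         (CovZ.n2 (1878, 794) (by decide +kernel)
          (CovZ.leaf K2_ok TC_l376 _)
          (CovZ.leaf K2_ok TC_l377 _))
         (CovZ.leaf K2_ok TC_l378 _)))))
     (CovZ.n1 (1864, 792) (by decide +kernel)
      (CovZ.subM 889 (by decide +kernel)
       (CovZ.n2 (1864, 800) (by decide +kernel)
        (CovZ.n2 (1868, 796) (by decide +kernel)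
         (CovZ.n2 (1864, 796) (by decide +kernel)
          (CovZ.leaf K2_ok TC_l379 _)
          (CovZ.leaf K2_ok TC_l380 _))
         (CovZ.n1 (1868, 800) (by decide +kernel)
          (CovZ.leaf K2_ok TC_l381 _)
          (CovZ.n1 (1866, 798) (by decide +kernel)
           (CovZ.leaf K2_ok TC_l382 _)
           (CovZ.leaf K2_ok TC_l383 _))))
        (CovZ.n1 (1860, 796) (by decide +kernel)
         (CovZ.n2 (1860, 800) (by decide +kernel)
          (CovZ.leaf K2_ok TC_l384 _)
          (CovZ.leaf K2_ok TC_l385 _))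
         (CovZ.leaf K2_ok TC_l386 _))))
      (CovZ.n1 (1872, 792) (by decide +kernel)
       (CovZ.n2 (1868, 788) (by decide +kernel)
        (CovZ.n2 (1868, 792) (by decide +kernel)
         (CovZ.leaf K2_ok TC_l387 _)
         (CovZ.leaf K2_ok TC_l388 _))
        (CovZ.leaf K2_ok TC_l389 _))
       (CovZ.n1 (1868, 796) (by decide +kernel)
        (CovZ.leaf K2_ok TC_l390 _)
        (CovZ.n1 (1868, 792) (by decide +kernel)
         (CovZ.leaf K2_ok TC_l391 _)
         (CovZ.leaf K2_ok TC_l392 _))))))))

theorem TC_s2_1 : SqZ TC_M TC_L [0, 7, 4, 3] 1824 736 32 2 1 :=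
  SqZ.mk (a := 1888) (b := 1920) (c := 768) (d := 800) (by norm_num) (by norm_num) (by norm_num) (by norm_num)
    (CovZ.topM TC_LL 8155 (by decide +kernel) (CovZ.n2 (1904, 784) (by decide +kernel)
    (CovZ.n2 (1920, 784) (by decide +kernel)
     (CovZ.n2 (1912, 776) (by decide +kernel)
      (CovZ.n2 (1912, 784) (by decide +kernel)
       (CovZ.n2 (1916, 780) (by decide +kernel)
        (CovZ.n2 (1912, 780) (by decide +kernel)
         (CovZ.badM (by decide +kernel))
         (CovZ.badM (by decide +kernel)))
        (CovZ.badM (by decide +kernel)))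
       (CovZ.n1 (1908, 780) (by decide +kernel)
        (CovZ.n2 (1908, 784) (by decide +kernel)
         (CovZ.subM 4224 (by decide +kernel)
          (CovZ.n2 (1910, 782) (by decide +kernel)
           (CovZ.n2 (1908, 782) (by decide +kernel)
            (CovZ.n2 (1909, 783) (by decide +kernel)
             (CovZ.leaf K2_ok TC_l1227 _)
             (CovZ.leaf K2_ok TC_l1228 _))
            (CovZ.leaf K2_ok TC_l1229 _))
           (CovZ.n1 (1910, 784) (by decide +kernel)
            (CovZ.n2 (1911, 783) (by decide +kernel)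
             (CovZ.leaf K2_ok TC_l1230 _)
             (CovZ.badM (by decide +kernel)))
            (CovZ.n1 (1909, 783) (by decide +kernel)
             (CovZ.leaf K2_ok TC_l1231 _)
             (CovZ.leaf K2_ok TC_l1232 _)))))
         (CovZ.n1 (1906, 782) (by decide +kernel)
          (CovZ.leaf K2_ok TC_l799 _)
          (CovZ.leaf K2_ok TC_l1233 _)))
        (CovZ.subM 4224 (by decide +kernel)
         (CovZ.n1 (1912, 780) (by decide +kernel)
          (CovZ.n2 (1910, 778) (by decide +kernel)
           (CovZ.n2 (1910, 780) (by decide +kernel)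
            (CovZ.badM (by decide +kernel))
            (CovZ.leaf K2_ok TC_l1234 _))
           (CovZ.badM (by decide +kernel)))
          (CovZ.n1 (1910, 782) (by decide +kernel)
           (CovZ.n2 (1912, 782) (by decide +kernel)
            (CovZ.n2 (1911, 781) (by decide +kernel)
             (CovZ.leaf K2_ok TC_l1235 _)
             (CovZ.badM (by decide +kernel)))
            (CovZ.leaf K2_ok TC_l1236 _))
           (CovZ.n1 (1910, 780) (by decide +kernel)
            (CovZ.leaf K2_ok TC_l1237 _)
            (CovZ.n1 (1911, 781) (by decide +kernel)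
             (CovZ.badM (by decide +kernel))
             (CovZ.leaf K2_ok TC_l1238 _))))))))
      (CovZ.badM (by decide +kernel)))
     (CovZ.n1 (1912, 792) (by decide +kernel)
      (CovZ.badM (by decide +kernel))
      (CovZ.n1 (1912, 784) (by decide +kernel)
       (CovZ.n2 (1908, 788) (by decide +kernel)
        (CovZ.subM 4226 (by decide +kernel)
         (CovZ.n2 (1912, 788) (by decide +kernel)
          (CovZ.n2 (1910, 786) (by decide +kernel)
           (CovZ.n2 (1910, 788) (by decide +kernel)
            (CovZ.badM (by decide +kernel))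
            (CovZ.n1 (1909, 787) (by decide +kernel)
             (CovZ.leaf K2_ok TC_l800 _)
             (CovZ.badM (by decide +kernel))))
           (CovZ.badM (by decide +kernel)))
          (CovZ.n1 (1910, 790) (by decide +kernel)
           (CovZ.badM (by decide +kernel))
           (CovZ.n1 (1910, 788) (by decide +kernel)
            (CovZ.leaf K2_ok TC_l801 _)
            (CovZ.badM (by decide +kernel))))))
        (CovZ.n1 (1908, 784) (by decide +kernel)
         (CovZ.n2 (1906, 786) (by decide +kernel)
          (CovZ.leaf K2_ok TC_l802 _)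
          (CovZ.leaf K2_ok TC_l803 _))
         (CovZ.subM 4234 (by decide +kernel)
          (CovZ.n1 (1910, 786) (by decide +kernel)
           (CovZ.n2 (1910, 784) (by decide +kernel)
            (CovZ.leaf K2_ok TC_l804 _)
            (CovZ.badM (by decide +kernel)))
           (CovZ.n1 (1908, 786) (by decide +kernel)
            (CovZ.n2 (1909, 787) (by decide +kernel)
             (CovZ.leaf K2_ok TC_l805 _)
             (CovZ.leaf K2_ok TC_l806 _))
            (CovZ.n1 (1909, 785) (by decide +kernel)
             (CovZ.leaf K2_ok TC_l807 _)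
             (CovZ.leaf K2_ok TC_l808 _)))))))
       (CovZ.badM (by decide +kernel)))))
    (CovZ.n1 (1904, 768) (by decide +kernel)
     (CovZ.n2 (1896, 776) (by decide +kernel)
      (CovZ.n2 (1904, 776) (by decide +kernel)
       (CovZ.n2 (1900, 772) (by decide +kernel)
        (CovZ.n2 (1900, 776) (by decide +kernel)
         (CovZ.n2 (1902, 774) (by decide +kernel)
          (CovZ.leaf K2_ok TC_l809 _)
          (CovZ.leaf K2_ok TC_l810 _))
         (CovZ.n1 (1898, 774) (by decide +kernel)
          (CovZ.leaf K2_ok TC_l811 _)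
          (CovZ.leaf K2_ok TC_l812 _)))
        (CovZ.n1 (1904, 772) (by decide +kernel)
         (CovZ.n2 (1902, 770) (by decide +kernel)
          (CovZ.leaf K2_ok TC_l813 _)
          (CovZ.leaf K2_ok TC_l814 _))
         (CovZ.leaf K2_ok TC_l815 _)))
       (CovZ.n1 (1900, 780) (by decide +kernel)
        (CovZ.n2 (1904, 780) (by decide +kernel)
         (CovZ.n2 (1902, 778) (by decide +kernel)
          (CovZ.leaf K2_ok TC_l816 _)
          (CovZ.leaf K2_ok TC_l817 _))
         (CovZ.leaf K2_ok TC_l818 _))
        (CovZ.n1 (1900, 776) (by decide +kernel)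
         (CovZ.leaf K2_ok TC_l819 _)
         (CovZ.n1 (1902, 778) (by decide +kernel)
          (CovZ.leaf K2_ok TC_l820 _)
          (CovZ.leaf K2_ok TC_l821 _)))))
      (CovZ.n1 (1896, 768) (by decide +kernel)
       (CovZ.n2 (1892, 772) (by decide +kernel)
        (CovZ.leaf K2_ok TC_l822 _)
        (CovZ.n1 (1892, 768) (by decide +kernel)
         (CovZ.leaf K2_ok TC_l823 _)
         (CovZ.leaf K2_ok TC_l824 _)))
       (CovZ.n1 (1900, 772) (by decide +kernel)
        (CovZ.n2 (1900, 768) (by decide +kernel)
         (CovZ.leaf K2_ok TC_l825 _)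
         (CovZ.n1 (1902, 770) (by decide +kernel)
          (CovZ.leaf K2_ok TC_l826 _)
          (CovZ.leaf K2_ok TC_l827 _)))
        (CovZ.n1 (1896, 772) (by decide +kernel)
         (CovZ.leaf K2_ok TC_l828 _)
         (CovZ.leaf K2_ok TC_l829 _)))))
     (CovZ.subM 1673 (by decide +kernel)
      (CovZ.n1 (1912, 776) (by decide +kernel)
       (CovZ.n2 (1912, 768) (by decide +kernel)
        (CovZ.n2 (1908, 772) (by decide +kernel)
         (CovZ.badM (by decide +kernel))
         (CovZ.n1 (1908, 768) (by decide +kernel)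
          (CovZ.leaf K2_ok TC_l830 _)
          (CovZ.badM (by decide +kernel))))
        (CovZ.badM (by decide +kernel)))
       (CovZ.n1 (1904, 776) (by decide +kernel)
        (CovZ.n2 (1908, 780) (by decide +kernel)
         (CovZ.n2 (1908, 776) (by decide +kernel)
          (CovZ.n2 (1906, 778) (by decide +kernel)
           (CovZ.leaf K2_ok TC_l1239 _)
           (CovZ.leaf K2_ok TC_l831 _))
          (CovZ.n1 (1910, 778) (by decide +kernel)
           (CovZ.badM (by decide +kernel))
           (CovZ.n1 (1908, 778) (by decide +kernel)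
            (CovZ.leaf K2_ok TC_l1240 _)
            (CovZ.badM (by decide +kernel)))))
         (CovZ.n1 (1904, 780) (by decide +kernel)
          (CovZ.n2 (1906, 782) (by decide +kernel)
           (CovZ.leaf K2_ok TC_l832 _)
           (CovZ.leaf K2_ok TC_l833 _))
          (CovZ.n1 (1906, 778) (by decide +kernel)
           (CovZ.leaf K2_ok TC_l834 _)
           (CovZ.leaf K2_ok TC_l835 _))))
        (CovZ.n1 (1908, 772) (by decide +kernel)
         (CovZ.n2 (1904, 772) (by decide +kernel)
          (CovZ.n2 (1906, 774) (by decide +kernel)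
           (CovZ.n2 (1906, 772) (by decide +kernel)
            (CovZ.leaf K2_ok TC_l836 _)
            (CovZ.leaf K2_ok TC_l837 _))
           (CovZ.leaf K2_ok TC_l838 _))
          (CovZ.n1 (1906, 770) (by decide +kernel)
           (CovZ.leaf K2_ok TC_l839 _)
           (CovZ.leaf K2_ok TC_l840 _)))
         (CovZ.n1 (1908, 776) (by decide +kernel)
          (CovZ.badM (by decide +kernel))
          (CovZ.n1 (1906, 774) (by decide +kernel)
           (CovZ.leaf K2_ok TC_l841 _)
           (CovZ.leaf K2_ok TC_l842 _))))))))))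
    (CovZ.topM TC_LL 8191 (by decide +kernel) (CovZ.n0 (1904, 784) (by decide +kernel)
    TC_u0
    TC_u1))

theorem TC_s0_2 : SqZ TC_M TC_L [0, 7, 4, 3] 1824 736 32 0 2 :=
  SqZ.mk (a := 1824) (b := 1856) (c := 800) (d := 832) (by norm_num) (by norm_num) (by norm_num) (by norm_num)
    (CovZ.topM TC_LL 2937 (by decide +kernel) (CovZ.n2 (1840, 816) (by decide +kernel)
    (CovZ.n2 (1856, 816) (by decide +kernel)
     (CovZ.n2 (1848, 808) (by decide +kernel)
      (CovZ.n2 (1848, 816) (by decide +kernel)
       (CovZ.n2 (1852, 812) (by decide +kernel)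
        (CovZ.n2 (1848, 812) (by decide +kernel)
         (CovZ.n2 (1850, 814) (by decide +kernel)
          (CovZ.leaf K2_ok TC_l46 _)
          (CovZ.leaf K2_ok TC_l47 _))
         (CovZ.leaf K2_ok TC_l48 _))
        (CovZ.n1 (1852, 816) (by decide +kernel)
         (CovZ.n2 (1854, 814) (by decide +kernel)
          (CovZ.leaf K2_ok TC_l49 _)
          (CovZ.leaf K2_ok TC_l50 _))
         (CovZ.n1 (1850, 814) (by decide +kernel)
          (CovZ.leaf K2_ok TC_l51 _)
          (CovZ.leaf K2_ok TC_l52 _))))
       (CovZ.n1 (1844, 812) (by decide +kernel)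
        (CovZ.n2 (1844, 816) (by decide +kernel)
         (CovZ.n2 (1846, 814) (by decide +kernel)
          (CovZ.leaf K2_ok TC_l53 _)
          (CovZ.leaf K2_ok TC_l54 _))
         (CovZ.leaf K2_ok TC_l55 _))
        (CovZ.n1 (1848, 812) (by decide +kernel)
         (CovZ.leaf K2_ok TC_l56 _)
         (CovZ.leaf K2_ok TC_l57 _))))
      (CovZ.n1 (1856, 808) (by decide +kernel)
       (CovZ.n2 (1852, 804) (by decide +kernel)
        (CovZ.n2 (1852, 808) (by decide +kernel)
         (CovZ.leaf K2_ok TC_l58 _)
         (CovZ.leaf K2_ok TC_l59 _))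
        (CovZ.leaf K2_ok TC_l60 _))
       (CovZ.n1 (1852, 812) (by decide +kernel)
        (CovZ.n2 (1856, 812) (by decide +kernel)
         (CovZ.n2 (1854, 810) (by decide +kernel)
          (CovZ.leaf K2_ok TC_l61 _)
          (CovZ.leaf K2_ok TC_l62 _))
         (CovZ.leaf K2_ok TC_l63 _))
        (CovZ.n1 (1852, 808) (by decide +kernel)
         (CovZ.leaf K2_ok TC_l64 _)
         (CovZ.n1 (1854, 810) (by decide +kernel)
          (CovZ.leaf K2_ok TC_l65 _)
          (CovZ.leaf K2_ok TC_l66 _))))))
     (CovZ.n1 (1848, 824) (by decide +kernel)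
      (CovZ.n2 (1856, 824) (by decide +kernel)
       (CovZ.n2 (1852, 820) (by decide +kernel)
        (CovZ.n2 (1852, 824) (by decide +kernel)
         (CovZ.n2 (1854, 822) (by decide +kernel)
          (CovZ.leaf K2_ok TC_l67 _)
          (CovZ.leaf K2_ok TC_l68 _))
         (CovZ.n1 (1850, 822) (by decide +kernel)
          (CovZ.leaf K2_ok TC_l69 _)
          (CovZ.leaf K2_ok TC_l70 _)))
        (CovZ.n1 (1856, 820) (by decide +kernel)
         (CovZ.n2 (1854, 818) (by decide +kernel)
          (CovZ.leaf K2_ok TC_l71 _)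
          (CovZ.leaf K2_ok TC_l72 _))
         (CovZ.n1 (1854, 822) (by decide +kernel)
          (CovZ.leaf K2_ok TC_l73 _)
          (CovZ.leaf K2_ok TC_l74 _))))
       (CovZ.n1 (1852, 828) (by decide +kernel)
        (CovZ.n2 (1856, 828) (by decide +kernel)
         (CovZ.n2 (1854, 826) (by decide +kernel)
          (CovZ.n2 (1854, 828) (by decide +kernel)
           (CovZ.leaf K2_ok TC_l75 _)
           (CovZ.leaf K2_ok TC_l76 _))
          (CovZ.leaf K2_ok TC_l77 _))
         (CovZ.n1 (1854, 830) (by decide +kernel)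
          (CovZ.leaf K2_ok TC_l78 _)
          (CovZ.n1 (1854, 828) (by decide +kernel)
           (CovZ.leaf K2_ok TC_l79 _)
           (CovZ.leaf K2_ok TC_l80 _))))
        (CovZ.n1 (1852, 824) (by decide +kernel)
         (CovZ.leaf K2_ok TC_l81 _)
         (CovZ.n1 (1854, 826) (by decide +kernel)
          (CovZ.leaf K2_ok TC_l82 _)
          (CovZ.leaf K2_ok TC_l83 _)))))
      (CovZ.n1 (1848, 816) (by decide +kernel)
       (CovZ.n2 (1844, 820) (by decide +kernel)
        (CovZ.n2 (1848, 820) (by decide +kernel)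
         (CovZ.n2 (1846, 818) (by decide +kernel)
          (CovZ.leaf K2_ok TC_l84 _)
          (CovZ.leaf K2_ok TC_l85 _))
         (CovZ.leaf K2_ok TC_l86 _))
        (CovZ.n1 (1844, 816) (by decide +kernel)
         (CovZ.leaf K2_ok TC_l87 _)
         (CovZ.n1 (1846, 818) (by decide +kernel)
          (CovZ.leaf K2_ok TC_l88 _)
          (CovZ.leaf K2_ok TC_l89 _))))
       (CovZ.n1 (1852, 820) (by decide +kernel)
        (CovZ.n2 (1852, 816) (by decide +kernel)
         (CovZ.leaf K2_ok TC_l90 _)
         (CovZ.n1 (1854, 818) (by decide +kernel)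
          (CovZ.leaf K2_ok TC_l91 _)
          (CovZ.leaf K2_ok TC_l92 _)))
        (CovZ.n1 (1848, 820) (by decide +kernel)
         (CovZ.n2 (1850, 822) (by decide +kernel)
          (CovZ.leaf K2_ok TC_l93 _)
          (CovZ.leaf K2_ok TC_l94 _))
         (CovZ.n1 (1850, 818) (by decide +kernel)
          (CovZ.leaf K2_ok TC_l95 _)
          (CovZ.leaf K2_ok TC_l96 _)))))))
    (CovZ.n1 (1840, 800) (by decide +kernel)
     (CovZ.subM 49 (by decide +kernel)
      (CovZ.n2 (1832, 808) (by decide +kernel)
       (CovZ.n2 (1840, 808) (by decide +kernel)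
        (CovZ.n2 (1836, 804) (by decide +kernel)
         (CovZ.n2 (1836, 808) (by decide +kernel)
          (CovZ.leaf K2_ok TC_l97 _)
          (CovZ.leaf K2_ok TC_l98 _))
         (CovZ.leaf K2_ok TC_l99 _))
        (CovZ.n1 (1836, 812) (by decide +kernel)
         (CovZ.leaf K2_ok TC_l100 _)
         (CovZ.n1 (1836, 808) (by decide +kernel)
          (CovZ.leaf K2_ok TC_l101 _)
          (CovZ.leaf K2_ok TC_l102 _))))
       (CovZ.n1 (1832, 800) (by decide +kernel)
        (CovZ.leaf K2_ok TC_l103 _)
        (CovZ.n1 (1836, 804) (by decide +kernel)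
         (CovZ.leaf K2_ok TC_l104 _)
         (CovZ.n1 (1832, 804) (by decide +kernel)
          (CovZ.leaf K2_ok TC_l105 _)
          (CovZ.leaf K2_ok TC_l106 _))))))
     (CovZ.n1 (1848, 808) (by decide +kernel)
      (CovZ.n2 (1848, 800) (by decide +kernel)
       (CovZ.n2 (1844, 804) (by decide +kernel)
        (CovZ.leaf K2_ok TC_l107 _)
        (CovZ.n1 (1844, 800) (by decide +kernel)
         (CovZ.leaf K2_ok TC_l108 _)
         (CovZ.leaf K2_ok TC_l109 _)))
       (CovZ.n1 (1852, 804) (by decide +kernel)
        (CovZ.n2 (1852, 800) (by decide +kernel)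
         (CovZ.leaf K2_ok TC_l110 _)
         (CovZ.leaf K2_ok TC_l111 _))
        (CovZ.n1 (1848, 804) (by decide +kernel)
         (CovZ.leaf K2_ok TC_l112 _)
         (CovZ.leaf K2_ok TC_l113 _))))
      (CovZ.n1 (1840, 808) (by decide +kernel)
       (CovZ.n2 (1844, 812) (by decide +kernel)
        (CovZ.n2 (1844, 808) (by decide +kernel)
         (CovZ.leaf K2_ok TC_l114 _)
         (CovZ.leaf K2_ok TC_l115 _))
        (CovZ.n1 (1840, 812) (by decide +kernel)
         (CovZ.leaf K2_ok TC_l116 _)
         (CovZ.leaf K2_ok TC_l117 _)))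
       (CovZ.n1 (1844, 804) (by decide +kernel)
        (CovZ.n2 (1840, 804) (by decide +kernel)
         (CovZ.leaf K2_ok TC_l118 _)
         (CovZ.leaf K2_ok TC_l119 _))
        (CovZ.n1 (1844, 808) (by decide +kernel)
         (CovZ.leaf K2_ok TC_l120 _)
         (CovZ.leaf K2_ok TC_l121 _))))))))
    (CovZ.topM TC_LL 2873 (by decide +kernel) (CovZ.n0 (1840, 816) (by decide +kernel)
    (CovZ.subM 48 (by decide +kernel)
     (CovZ.n2 (1824, 816) (by decide +kernel)
      (CovZ.n2 (1832, 824) (by decide +kernel)
       (CovZ.n2 (1832, 816) (by decide +kernel)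
        (CovZ.n2 (1828, 820) (by decide +kernel)
         (CovZ.leaf K2_ok TC_l122 _)
         (CovZ.n1 (1828, 816) (by decide +kernel)
          (CovZ.badM (by decide +kernel))
          (CovZ.leaf K2_ok TC_l123 _)))
        (CovZ.n1 (1836, 820) (by decide +kernel)
         (CovZ.n2 (1836, 816) (by decide +kernel)
          (CovZ.leaf K2_ok TC_l124 _)
          (CovZ.leaf K2_ok TC_l125 _))
         (CovZ.n1 (1832, 820) (by decide +kernel)
          (CovZ.leaf K2_ok TC_l126 _)
          (CovZ.leaf K2_ok TC_l127 _))))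
       (CovZ.n1 (1824, 824) (by decide +kernel)
        (CovZ.n2 (1828, 828) (by decide +kernel)
         (CovZ.n2 (1828, 824) (by decide +kernel)
          (CovZ.badM (by decide +kernel))
          (CovZ.n1 (1830, 826) (by decide +kernel)
           (CovZ.leaf K2_ok TC_l128 _)
           (CovZ.badM (by decide +kernel))))
         (CovZ.badM (by decide +kernel)))
        (CovZ.n1 (1828, 820) (by decide +kernel)
         (CovZ.badM (by decide +kernel))
         (CovZ.n1 (1828, 824) (by decide +kernel)
          (CovZ.n2 (1830, 822) (by decide +kernel)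
           (CovZ.leaf K2_ok TC_l129 _)
           (CovZ.leaf K2_ok TC_l130 _))
          (CovZ.badM (by decide +kernel))))))
      (CovZ.n1 (1832, 808) (by decide +kernel)
       (CovZ.n2 (1824, 808) (by decide +kernel)
        (CovZ.n2 (1828, 812) (by decide +kernel)
         (CovZ.leaf K2_ok TC_l131 _)
         (CovZ.badM (by decide +kernel)))
        (CovZ.n1 (1828, 804) (by decide +kernel)
         (CovZ.badM (by decide +kernel))
         (CovZ.n1 (1828, 808) (by decide +kernel)
          (CovZ.leaf K2_ok TC_l132 _)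
          (CovZ.badM (by decide +kernel)))))
       (CovZ.n1 (1832, 816) (by decide +kernel)
        (CovZ.n2 (1836, 812) (by decide +kernel)
         (CovZ.n2 (1832, 812) (by decide +kernel)
          (CovZ.leaf K2_ok TC_l133 _)
          (CovZ.leaf K2_ok TC_l134 _))
         (CovZ.n1 (1836, 816) (by decide +kernel)
          (CovZ.leaf K2_ok TC_l135 _)
          (CovZ.leaf K2_ok TC_l136 _)))
        (CovZ.n1 (1828, 812) (by decide +kernel)
         (CovZ.n2 (1828, 816) (by decide +kernel)
          (CovZ.leaf K2_ok TC_l137 _)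
          (CovZ.badM (by decide +kernel)))
         (CovZ.leaf K2_ok TC_l138 _))))))
    (CovZ.n1 (1840, 832) (by decide +kernel)
     (CovZ.n2 (1848, 824) (by decide +kernel)
      (CovZ.n2 (1840, 824) (by decide +kernel)
       (CovZ.n2 (1844, 828) (by decide +kernel)
        (CovZ.n2 (1844, 824) (by decide +kernel)
         (CovZ.n2 (1842, 826) (by decide +kernel)
          (CovZ.leaf K2_ok TC_l139 _)
          (CovZ.leaf K2_ok TC_l140 _))
         (CovZ.n1 (1846, 826) (by decide +kernel)
          (CovZ.leaf K2_ok TC_l141 _)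
          (CovZ.leaf K2_ok TC_l142 _)))
        (CovZ.subM 2097 (by decide +kernel)
         (CovZ.n1 (1840, 828) (by decide +kernel)
          (CovZ.n2 (1842, 830) (by decide +kernel)
           (CovZ.leaf K2_ok TC_l143 _)
           (CovZ.leaf K2_ok TC_l144 _))
          (CovZ.n1 (1842, 826) (by decide +kernel)
           (CovZ.leaf K2_ok TC_l145 _)
           (CovZ.leaf K2_ok TC_l146 _)))))
       (CovZ.n1 (1844, 820) (by decide +kernel)
        (CovZ.subM 57 (by decide +kernel)
         (CovZ.n2 (1840, 820) (by decide +kernel)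
          (CovZ.n2 (1842, 822) (by decide +kernel)
           (CovZ.leaf K2_ok TC_l147 _)
           (CovZ.leaf K2_ok TC_l148 _))
          (CovZ.n1 (1842, 818) (by decide +kernel)
           (CovZ.leaf K2_ok TC_l149 _)
           (CovZ.leaf K2_ok TC_l150 _))))
        (CovZ.n1 (1844, 824) (by decide +kernel)
         (CovZ.n2 (1846, 822) (by decide +kernel)
          (CovZ.leaf K2_ok TC_l151 _)
          (CovZ.leaf K2_ok TC_l152 _))
         (CovZ.n1 (1842, 822) (by decide +kernel)
          (CovZ.leaf K2_ok TC_l153 _)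
          (CovZ.leaf K2_ok TC_l154 _)))))
      (CovZ.n1 (1848, 832) (by decide +kernel)
       (CovZ.n2 (1852, 828) (by decide +kernel)
        (CovZ.n2 (1848, 828) (by decide +kernel)
         (CovZ.subM 2337 (by decide +kernel)
          (CovZ.n2 (1850, 830) (by decide +kernel)
           (CovZ.n2 (1850, 828) (by decide +kernel)
            (CovZ.leaf K2_ok TC_l155 _)
            (CovZ.leaf K2_ok TC_l156 _))
           (CovZ.n1 (1848, 830) (by decide +kernel)
            (CovZ.leaf K2_ok TC_l157 _)
            (CovZ.leaf K2_ok TC_l158 _))))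
         (CovZ.n1 (1850, 826) (by decide +kernel)
          (CovZ.leaf K2_ok TC_l159 _)
          (CovZ.n1 (1850, 828) (by decide +kernel)
           (CovZ.leaf K2_ok TC_l160 _)
           (CovZ.leaf K2_ok TC_l161 _))))
        (CovZ.subM 2337 (by decide +kernel)
         (CovZ.n1 (1852, 832) (by decide +kernel)
          (CovZ.n2 (1854, 830) (by decide +kernel)
           (CovZ.n2 (1852, 830) (by decide +kernel)
            (CovZ.leaf K2_ok TC_l162 _)
            (CovZ.leaf K2_ok TC_l163 _))
           (CovZ.n1 (1854, 832) (by decide +kernel)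
            (CovZ.leaf K2_ok TC_l164 _)
            (CovZ.leaf K2_ok TC_l165 _)))
          (CovZ.n1 (1850, 830) (by decide +kernel)
           (CovZ.n2 (1850, 832) (by decide +kernel)
            (CovZ.leaf K2_ok TC_l166 _)
            (CovZ.leaf K2_ok TC_l167 _))
           (CovZ.leaf K2_ok TC_l168 _)))))
       (CovZ.n1 (1844, 828) (by decide +kernel)
        (CovZ.subM 2337 (by decide +kernel)
         (CovZ.n2 (1844, 832) (by decide +kernel)
          (CovZ.n2 (1846, 830) (by decide +kernel)
           (CovZ.n2 (1844, 830) (by decide +kernel)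
            (CovZ.leaf K2_ok TC_l169 _)
            (CovZ.leaf K2_ok TC_l170 _))
           (CovZ.n1 (1846, 832) (by decide +kernel)
            (CovZ.leaf K2_ok TC_l171 _)
            (CovZ.leaf K2_ok TC_l172 _)))
          (CovZ.n1 (1842, 830) (by decide +kernel)
           (CovZ.leaf K2_ok TC_l173 _)
           (CovZ.leaf K2_ok TC_l174 _))))
        (CovZ.n1 (1848, 828) (by decide +kernel)
         (CovZ.n2 (1846, 826) (by decide +kernel)
          (CovZ.leaf K2_ok TC_l175 _)
          (CovZ.leaf K2_ok TC_l176 _))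
         (CovZ.n1 (1846, 830) (by decide +kernel)
          (CovZ.leaf K2_ok TC_l177 _)
          (CovZ.leaf K2_ok TC_l178 _))))))
     (CovZ.subM 2104 (by decide +kernel)
      (CovZ.n1 (1832, 824) (by decide +kernel)
       (CovZ.n2 (1832, 832) (by decide +kernel)
        (CovZ.n2 (1836, 828) (by decide +kernel)
         (CovZ.n2 (1832, 828) (by decide +kernel)
          (CovZ.n2 (1834, 830) (by decide +kernel)
           (CovZ.leaf K2_ok TC_l179 _)
           (CovZ.leaf K2_ok TC_l180 _))
          (CovZ.n1 (1834, 826) (by decide +kernel)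
           (CovZ.leaf K2_ok TC_l181 _)
           (CovZ.leaf K2_ok TC_l182 _)))
         (CovZ.n1 (1836, 832) (by decide +kernel)
          (CovZ.n2 (1838, 830) (by decide +kernel)
           (CovZ.leaf K2_ok TC_l183 _)
           (CovZ.badM (by decide +kernel)))
          (CovZ.n1 (1834, 830) (by decide +kernel)
           (CovZ.leaf K2_ok TC_l184 _)
           (CovZ.leaf K2_ok TC_l185 _))))
        (CovZ.n1 (1828, 828) (by decide +kernel)
         (CovZ.n2 (1828, 832) (by decide +kernel)
          (CovZ.n2 (1830, 830) (by decide +kernel)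
           (CovZ.leaf K2_ok TC_l186 _)
           (CovZ.leaf K2_ok TC_l187 _))
          (CovZ.badM (by decide +kernel)))
         (CovZ.n1 (1832, 828) (by decide +kernel)
          (CovZ.n2 (1830, 826) (by decide +kernel)
           (CovZ.leaf K2_ok TC_l188 _)
           (CovZ.leaf K2_ok TC_l189 _))
          (CovZ.leaf K2_ok TC_l190 _))))
       (CovZ.n1 (1840, 824) (by decide +kernel)
        (CovZ.n2 (1836, 820) (by decide +kernel)
         (CovZ.n2 (1836, 824) (by decide +kernel)
          (CovZ.n2 (1838, 822) (by decide +kernel)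
           (CovZ.leaf K2_ok TC_l191 _)
           (CovZ.leaf K2_ok TC_l192 _))
          (CovZ.n1 (1834, 822) (by decide +kernel)
           (CovZ.leaf K2_ok TC_l193 _)
           (CovZ.leaf K2_ok TC_l194 _)))
         (CovZ.n1 (1840, 820) (by decide +kernel)
          (CovZ.n2 (1838, 818) (by decide +kernel)
           (CovZ.leaf K2_ok TC_l195 _)
           (CovZ.leaf K2_ok TC_l196 _))
          (CovZ.leaf K2_ok TC_l197 _)))
        (CovZ.n1 (1836, 828) (by decide +kernel)
         (CovZ.n2 (1840, 828) (by decide +kernel)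
          (CovZ.n2 (1838, 826) (by decide +kernel)
           (CovZ.leaf K2_ok TC_l198 _)
           (CovZ.leaf K2_ok TC_l199 _))
          (CovZ.leaf K2_ok TC_l200 _))
         (CovZ.n1 (1836, 824) (by decide +kernel)
          (CovZ.leaf K2_ok TC_l201 _)
          (CovZ.n1 (1838, 826) (by decide +kernel)
           (CovZ.leaf K2_ok TC_l202 _)
           (CovZ.leaf K2_ok TC_l203 _))))))))))

theorem TC_s1_2 : SqZ TC_M TC_L [0, 7, 4, 3] 1824 736 32 1 2 :=
  SqZ.mk (a := 1856) (b := 1888) (c := 800) (d := 832) (by norm_num) (by norm_num) (by norm_num) (by norm_num)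
    (CovZ.topM TC_LL 7167 (by decide +kernel) (CovZ.n2 (1872, 816) (by decide +kernel)
    TC_u2
    TC_u3))
    (CovZ.topM TC_LL 7161 (by decide +kernel) (CovZ.n0 (1872, 816) (by decide +kernel)
    (CovZ.n2 (1856, 816) (by decide +kernel)
     (CovZ.n2 (1864, 824) (by decide +kernel)
      (CovZ.n2 (1864, 816) (by decide +kernel)
       (CovZ.subM 2361 (by decide +kernel)
        (CovZ.n2 (1860, 820) (by decide +kernel)
         (CovZ.n2 (1864, 820) (by decide +kernel)
          (CovZ.n2 (1862, 818) (by decide +kernel)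
           (CovZ.n2 (1862, 820) (by decide +kernel)
            (CovZ.leaf K2_ok TC_l545 _)
            (CovZ.leaf K2_ok TC_l546 _))
           (CovZ.leaf K2_ok TC_l547 _))
          (CovZ.n1 (1862, 822) (by decide +kernel)
           (CovZ.leaf K2_ok TC_l548 _)
           (CovZ.leaf K2_ok TC_l549 _)))
         (CovZ.n1 (1860, 816) (by decide +kernel)
          (CovZ.leaf K2_ok TC_l550 _)
          (CovZ.n1 (1862, 818) (by decide +kernel)
           (CovZ.leaf K2_ok TC_l551 _)
           (CovZ.leaf K2_ok TC_l552 _)))))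
       (CovZ.n1 (1868, 820) (by decide +kernel)
        (CovZ.n2 (1868, 816) (by decide +kernel)
         (CovZ.n2 (1866, 818) (by decide +kernel)
          (CovZ.leaf K2_ok TC_l553 _)
          (CovZ.leaf K2_ok TC_l554 _))
         (CovZ.n1 (1870, 818) (by decide +kernel)
          (CovZ.leaf K2_ok TC_l555 _)
          (CovZ.n1 (1868, 818) (by decide +kernel)
           (CovZ.leaf K2_ok TC_l556 _)
           (CovZ.leaf K2_ok TC_l557 _))))
        (CovZ.subM 2361 (by decide +kernel)
         (CovZ.n1 (1864, 820) (by decide +kernel)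
          (CovZ.n2 (1866, 822) (by decide +kernel)
           (CovZ.leaf K2_ok TC_l558 _)
           (CovZ.n1 (1864, 822) (by decide +kernel)
            (CovZ.leaf K2_ok TC_l559 _)
            (CovZ.leaf K2_ok TC_l560 _)))
          (CovZ.n1 (1866, 818) (by decide +kernel)
           (CovZ.leaf K2_ok TC_l561 _)
           (CovZ.n1 (1866, 820) (by decide +kernel)
            (CovZ.leaf K2_ok TC_l562 _)
            (CovZ.leaf K2_ok TC_l563 _)))))))
      (CovZ.subM 2361 (by decide +kernel)
       (CovZ.n1 (1856, 824) (by decide +kernel)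
        (CovZ.n2 (1860, 828) (by decide +kernel)
         (CovZ.n2 (1860, 824) (by decide +kernel)
          (CovZ.n2 (1858, 826) (by decide +kernel)
           (CovZ.n2 (1860, 826) (by decide +kernel)
            (CovZ.leaf K2_ok TC_l564 _)
            (CovZ.leaf K2_ok TC_l565 _))
           (CovZ.n1 (1858, 824) (by decide +kernel)
            (CovZ.leaf K2_ok TC_l566 _)
            (CovZ.leaf K2_ok TC_l567 _)))
          (CovZ.n1 (1862, 826) (by decide +kernel)
           (CovZ.n2 (1862, 824) (by decide +kernel)
            (CovZ.leaf K2_ok TC_l568 _)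
            (CovZ.leaf K2_ok TC_l569 _))
           (CovZ.n1 (1860, 826) (by decide +kernel)
            (CovZ.n2 (1861, 827) (by decide +kernel)
             (CovZ.leaf K2_ok TC_l570 _)
             (CovZ.leaf K2_ok TC_l571 _))
            (CovZ.leaf K2_ok TC_l572 _))))
         (CovZ.n1 (1856, 828) (by decide +kernel)
          (CovZ.n2 (1858, 830) (by decide +kernel)
           (CovZ.n2 (1858, 828) (by decide +kernel)
            (CovZ.leaf K2_ok TC_l573 _)
            (CovZ.leaf K2_ok TC_l574 _))
           (CovZ.n1 (1856, 830) (by decide +kernel)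
            (CovZ.leaf K2_ok TC_l575 _)
            (CovZ.leaf K2_ok TC_l576 _)))
          (CovZ.n1 (1858, 826) (by decide +kernel)
           (CovZ.n2 (1856, 826) (by decide +kernel)
            (CovZ.leaf K2_ok TC_l577 _)
            (CovZ.leaf K2_ok TC_l578 _))
           (CovZ.n1 (1858, 828) (by decide +kernel)
            (CovZ.leaf K2_ok TC_l579 _)
            (CovZ.leaf K2_ok TC_l580 _)))))
        (CovZ.n1 (1860, 820) (by decide +kernel)
         (CovZ.n2 (1856, 820) (by decide +kernel)
          (CovZ.n2 (1858, 822) (by decide +kernel)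
           (CovZ.leaf K2_ok TC_l581 _)
           (CovZ.leaf K2_ok TC_l582 _))
          (CovZ.n1 (1858, 818) (by decide +kernel)
           (CovZ.leaf K2_ok TC_l583 _)
           (CovZ.leaf K2_ok TC_l584 _)))
         (CovZ.n1 (1860, 824) (by decide +kernel)
          (CovZ.n2 (1862, 822) (by decide +kernel)
           (CovZ.n2 (1860, 822) (by decide +kernel)
            (CovZ.leaf K2_ok TC_l585 _)
            (CovZ.leaf K2_ok TC_l586 _))
           (CovZ.n1 (1862, 824) (by decide +kernel)
            (CovZ.leaf K2_ok TC_l587 _)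
            (CovZ.leaf K2_ok TC_l588 _)))
          (CovZ.n1 (1858, 822) (by decide +kernel)
           (CovZ.n2 (1858, 824) (by decide +kernel)
            (CovZ.leaf K2_ok TC_l589 _)
            (CovZ.leaf K2_ok TC_l590 _))
           (CovZ.leaf K2_ok TC_l591 _)))))))
     (CovZ.n1 (1864, 808) (by decide +kernel)
      (CovZ.n2 (1856, 808) (by decide +kernel)
       (CovZ.n2 (1860, 812) (by decide +kernel)
        (CovZ.n2 (1860, 808) (by decide +kernel)
         (CovZ.leaf K2_ok TC_l592 _)
         (CovZ.n1 (1862, 810) (by decide +kernel)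
          (CovZ.leaf K2_ok TC_l593 _)
          (CovZ.leaf K2_ok TC_l594 _)))
        (CovZ.n1 (1856, 812) (by decide +kernel)
         (CovZ.n2 (1858, 814) (by decide +kernel)
          (CovZ.leaf K2_ok TC_l595 _)
          (CovZ.leaf K2_ok TC_l596 _))
         (CovZ.n1 (1858, 810) (by decide +kernel)
          (CovZ.leaf K2_ok TC_l597 _)
          (CovZ.leaf K2_ok TC_l598 _))))
       (CovZ.n1 (1860, 804) (by decide +kernel)
        (CovZ.n2 (1856, 804) (by decide +kernel)
         (CovZ.leaf K2_ok TC_l599 _)
         (CovZ.leaf K2_ok TC_l600 _))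
        (CovZ.n1 (1860, 808) (by decide +kernel)
         (CovZ.n2 (1862, 806) (by decide +kernel)
          (CovZ.leaf K2_ok TC_l601 _)
          (CovZ.leaf K2_ok TC_l602 _))
         (CovZ.n1 (1858, 806) (by decide +kernel)
          (CovZ.leaf K2_ok TC_l603 _)
          (CovZ.leaf K2_ok TC_l604 _)))))
      (CovZ.n1 (1864, 816) (by decide +kernel)
       (CovZ.n2 (1868, 812) (by decide +kernel)
        (CovZ.n2 (1864, 812) (by decide +kernel)
         (CovZ.n2 (1866, 814) (by decide +kernel)
          (CovZ.leaf K2_ok TC_l605 _)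
          (CovZ.leaf K2_ok TC_l606 _))
         (CovZ.n1 (1866, 810) (by decide +kernel)
          (CovZ.leaf K2_ok TC_l607 _)
          (CovZ.leaf K2_ok TC_l608 _)))
        (CovZ.n1 (1868, 816) (by decide +kernel)
         (CovZ.n2 (1870, 814) (by decide +kernel)
          (CovZ.leaf K2_ok TC_l609 _)
          (CovZ.leaf K2_ok TC_l610 _))
         (CovZ.n1 (1866, 814) (by decide +kernel)
          (CovZ.leaf K2_ok TC_l611 _)
          (CovZ.leaf K2_ok TC_l612 _))))
       (CovZ.n1 (1860, 812) (by decide +kernel)
        (CovZ.subM 2361 (by decide +kernel)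
         (CovZ.n2 (1860, 816) (by decide +kernel)
          (CovZ.n2 (1862, 814) (by decide +kernel)
           (CovZ.leaf K2_ok TC_l613 _)
           (CovZ.leaf K2_ok TC_l614 _))
          (CovZ.n1 (1858, 814) (by decide +kernel)
           (CovZ.leaf K2_ok TC_l615 _)
           (CovZ.leaf K2_ok TC_l616 _))))
        (CovZ.n1 (1864, 812) (by decide +kernel)
         (CovZ.n2 (1862, 810) (by decide +kernel)
          (CovZ.leaf K2_ok TC_l617 _)
          (CovZ.leaf K2_ok TC_l618 _))
         (CovZ.leaf K2_ok TC_l619 _))))))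
    (CovZ.n1 (1872, 832) (by decide +kernel)
     TC_u4
     TC_u5)))

theorem TC_s2_2 : SqZ TC_M TC_L [0, 7, 4, 3] 1824 736 32 2 2 :=
  SqZ.mk (a := 1888) (b := 1920) (c := 800) (d := 832) (by norm_num) (by norm_num) (by norm_num) (by norm_num)
    (CovZ.topM TC_LL 8191 (by decide +kernel) (CovZ.n2 (1904, 816) (by decide +kernel)
    (CovZ.subM 4880 (by decide +kernel)
     (CovZ.n2 (1920, 816) (by decide +kernel)
      (CovZ.n2 (1912, 808) (by decide +kernel)
       (CovZ.n2 (1912, 816) (by decide +kernel)
        (CovZ.badM (by decide +kernel))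
        (CovZ.n1 (1908, 812) (by decide +kernel)
         (CovZ.badM (by decide +kernel))
         (CovZ.badM (by decide +kernel))))
       (CovZ.badM (by decide +kernel)))
      (CovZ.badM (by decide +kernel))))
    (CovZ.n1 (1904, 800) (by decide +kernel)
     TC_u6
     TC_u7)))
    (CovZ.topM TC_LL 7167 (by decide +kernel) (CovZ.n0 (1904, 816) (by decide +kernel)
    TC_u8
    (CovZ.subM 2 (by decide +kernel)
     (CovZ.n1 (1904, 832) (by decide +kernel)
      (CovZ.badM (by decide +kernel))
      (CovZ.n1 (1896, 824) (by decide +kernel)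
       (CovZ.badM (by decide +kernel))
       (CovZ.n1 (1904, 824) (by decide +kernel)
        (CovZ.n2 (1900, 820) (by decide +kernel)
         (CovZ.badM (by decide +kernel))
         (CovZ.badM (by decide +kernel)))
        (CovZ.badM (by decide +kernel))))))))

theorem TC_s0_3 : SqZ TC_M TC_L [0, 7, 4, 3] 1824 736 32 0 3 :=
  SqZ.mk (a := 1824) (b := 1856) (c := 832) (d := 864) (by norm_num) (by norm_num) (by norm_num) (by norm_num)
    (CovZ.topM TC_LL 2353 (by decide +kernel) (CovZ.n2 (1840, 848) (by decide +kernel)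
    (CovZ.n2 (1856, 848) (by decide +kernel)
     (CovZ.n2 (1848, 840) (by decide +kernel)
      (CovZ.n2 (1848, 848) (by decide +kernel)
       (CovZ.n2 (1852, 844) (by decide +kernel)
        (CovZ.n2 (1848, 844) (by decide +kernel)
         (CovZ.badM (by decide +kernel))
         (CovZ.n1 (1850, 842) (by decide +kernel)
          (CovZ.n2 (1848, 842) (by decide +kernel)
           (CovZ.badM (by decide +kernel))
           (CovZ.n1 (1849, 841) (by decide +kernel)
            (CovZ.leaf K2_ok TC_l1162 _)
            (CovZ.badM (by decide +kernel))))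
          (CovZ.badM (by decide +kernel))))
        (CovZ.badM (by decide +kernel)))
       (CovZ.n1 (1844, 844) (by decide +kernel)
        (CovZ.badM (by decide +kernel))
        (CovZ.n1 (1848, 844) (by decide +kernel)
         (CovZ.n2 (1846, 842) (by decide +kernel)
          (CovZ.badM (by decide +kernel))
          (CovZ.n1 (1848, 842) (by decide +kernel)
           (CovZ.n2 (1847, 841) (by decide +kernel)
            (CovZ.leaf K2_ok TC_l1163 _)
            (CovZ.leaf K2_ok TC_l1164 _))
           (CovZ.leaf K2_ok TC_l1165 _)))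
         (CovZ.badM (by decide +kernel)))))
      (CovZ.n1 (1856, 840) (by decide +kernel)
       (CovZ.n2 (1852, 836) (by decide +kernel)
        (CovZ.n2 (1852, 840) (by decide +kernel)
         (CovZ.n2 (1854, 838) (by decide +kernel)
          (CovZ.n2 (1852, 838) (by decide +kernel)
           (CovZ.n2 (1853, 839) (by decide +kernel)
            (CovZ.leaf K2_ok TC_l1166 _)
            (CovZ.leaf K2_ok TC_l1167 _))
           (CovZ.n1 (1853, 837) (by decide +kernel)
            (CovZ.leaf K2_ok TC_l1168 _)
            (CovZ.leaf K2_ok TC_l1169 _)))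
          (CovZ.badM (by decide +kernel)))
         (CovZ.n1 (1850, 838) (by decide +kernel)
          (CovZ.n2 (1850, 840) (by decide +kernel)
           (CovZ.n2 (1851, 839) (by decide +kernel)
            (CovZ.leaf K2_ok TC_l1170 _)
            (CovZ.leaf K2_ok TC_l1171 _))
           (CovZ.n1 (1849, 839) (by decide +kernel)
            (CovZ.leaf K2_ok TC_l1172 _)
            (CovZ.leaf K2_ok TC_l1173 _)))
          (CovZ.n1 (1852, 838) (by decide +kernel)
           (CovZ.n2 (1851, 837) (by decide +kernel)
            (CovZ.leaf K2_ok TC_l1174 _)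
            (CovZ.leaf K2_ok TC_l1175 _))
           (CovZ.leaf K2_ok TC_l1176 _))))
        (CovZ.n1 (1856, 836) (by decide +kernel)
         (CovZ.n2 (1854, 834) (by decide +kernel)
          (CovZ.n2 (1854, 836) (by decide +kernel)
           (CovZ.n2 (1855, 835) (by decide +kernel)
            (CovZ.leaf K2_ok TC_l1177 _)
            (CovZ.leaf K2_ok TC_l1178 _))
           (CovZ.n1 (1853, 835) (by decide +kernel)
            (CovZ.leaf K2_ok TC_l1179 _)
            (CovZ.leaf K2_ok TC_l1180 _)))
          (CovZ.n1 (1856, 834) (by decide +kernel)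
           (CovZ.n2 (1855, 833) (by decide +kernel)
            (CovZ.leaf K2_ok TC_l204 _)
            (CovZ.leaf K2_ok TC_l205 _))
           (CovZ.leaf K2_ok TC_l206 _)))
         (CovZ.n1 (1854, 838) (by decide +kernel)
          (CovZ.n2 (1856, 838) (by decide +kernel)
           (CovZ.n2 (1855, 837) (by decide +kernel)
            (CovZ.leaf K2_ok TC_l1181 _)
            (CovZ.leaf K2_ok TC_l1182 _))
           (CovZ.badM (by decide +kernel)))
          (CovZ.n1 (1854, 836) (by decide +kernel)
           (CovZ.leaf K2_ok TC_l1183 _)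
           (CovZ.n1 (1855, 837) (by decide +kernel)
            (CovZ.leaf K2_ok TC_l1184 _)
            (CovZ.leaf K2_ok TC_l1185 _))))))
       (CovZ.n1 (1852, 844) (by decide +kernel)
        (CovZ.badM (by decide +kernel))
        (CovZ.n1 (1852, 840) (by decide +kernel)
         (CovZ.n2 (1850, 842) (by decide +kernel)
          (CovZ.badM (by decide +kernel))
          (CovZ.n1 (1850, 840) (by decide +kernel)
           (CovZ.leaf K2_ok TC_l1186 _)
           (CovZ.n1 (1851, 841) (by decide +kernel)
            (CovZ.leaf K2_ok TC_l1187 _)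
            (CovZ.leaf K2_ok TC_l1188 _))))
         (CovZ.badM (by decide +kernel))))))
     (CovZ.badM (by decide +kernel)))
    (CovZ.n1 (1840, 832) (by decide +kernel)
     (CovZ.n2 (1832, 840) (by decide +kernel)
      (CovZ.badM (by decide +kernel))
      (CovZ.n1 (1832, 832) (by decide +kernel)
       (CovZ.n2 (1828, 836) (by decide +kernel)
        (CovZ.badM (by decide +kernel))
        (CovZ.n1 (1828, 832) (by decide +kernel)
         (CovZ.badM (by decide +kernel))
         (CovZ.badM (by decide +kernel))))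
       (CovZ.badM (by decide +kernel))))
     (CovZ.n1 (1848, 840) (by decide +kernel)
      (CovZ.n2 (1848, 832) (by decide +kernel)
       (CovZ.n2 (1844, 836) (by decide +kernel)
        (CovZ.n2 (1848, 836) (by decide +kernel)
         (CovZ.n2 (1846, 834) (by decide +kernel)
          (CovZ.n2 (1846, 836) (by decide +kernel)
           (CovZ.leaf K2_ok TC_l207 _)
           (CovZ.leaf K2_ok TC_l208 _))
          (CovZ.leaf K2_ok TC_l209 _))
         (CovZ.n1 (1846, 838) (by decide +kernel)
          (CovZ.n2 (1848, 838) (by decide +kernel)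
           (CovZ.n2 (1847, 837) (by decide +kernel)
            (CovZ.leaf K2_ok TC_l1189 _)
            (CovZ.leaf K2_ok TC_l210 _))
           (CovZ.leaf K2_ok TC_l1190 _))
          (CovZ.n1 (1846, 836) (by decide +kernel)
           (CovZ.leaf K2_ok TC_l211 _)
           (CovZ.n1 (1847, 837) (by decide +kernel)
            (CovZ.leaf K2_ok TC_l212 _)
            (CovZ.leaf K2_ok TC_l213 _)))))
        (CovZ.n1 (1844, 832) (by decide +kernel)
         (CovZ.n2 (1842, 834) (by decide +kernel)
          (CovZ.leaf K2_ok TC_l214 _)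
          (CovZ.leaf K2_ok TC_l215 _))
         (CovZ.n1 (1846, 834) (by decide +kernel)
          (CovZ.n2 (1846, 832) (by decide +kernel)
           (CovZ.leaf K2_ok TC_l216 _)
           (CovZ.leaf K2_ok TC_l217 _))
          (CovZ.n1 (1844, 834) (by decide +kernel)
           (CovZ.leaf K2_ok TC_l218 _)
           (CovZ.leaf K2_ok TC_l219 _)))))
       (CovZ.n1 (1852, 836) (by decide +kernel)
        (CovZ.n2 (1852, 832) (by decide +kernel)
         (CovZ.n2 (1850, 834) (by decide +kernel)
          (CovZ.n2 (1852, 834) (by decide +kernel)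
           (CovZ.leaf K2_ok TC_l220 _)
           (CovZ.leaf K2_ok TC_l221 _))
          (CovZ.n1 (1850, 832) (by decide +kernel)
           (CovZ.leaf K2_ok TC_l222 _)
           (CovZ.leaf K2_ok TC_l223 _)))
         (CovZ.n1 (1854, 834) (by decide +kernel)
          (CovZ.n2 (1854, 832) (by decide +kernel)
           (CovZ.leaf K2_ok TC_l224 _)
           (CovZ.n1 (1855, 833) (by decide +kernel)
            (CovZ.leaf K2_ok TC_l225 _)
            (CovZ.leaf K2_ok TC_l226 _)))
          (CovZ.n1 (1852, 834) (by decide +kernel)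
           (CovZ.n2 (1853, 835) (by decide +kernel)
            (CovZ.leaf K2_ok TC_l227 _)
            (CovZ.leaf K2_ok TC_l228 _))
           (CovZ.leaf K2_ok TC_l229 _))))
        (CovZ.n1 (1848, 836) (by decide +kernel)
         (CovZ.n2 (1850, 838) (by decide +kernel)
          (CovZ.n2 (1850, 836) (by decide +kernel)
           (CovZ.leaf K2_ok TC_l230 _)
           (CovZ.n1 (1851, 837) (by decide +kernel)
            (CovZ.leaf K2_ok TC_l1191 _)
            (CovZ.leaf K2_ok TC_l1192 _)))
          (CovZ.n1 (1848, 838) (by decide +kernel)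
           (CovZ.n2 (1849, 839) (by decide +kernel)
            (CovZ.leaf K2_ok TC_l1193 _)
            (CovZ.leaf K2_ok TC_l1194 _))
           (CovZ.n1 (1849, 837) (by decide +kernel)
            (CovZ.leaf K2_ok TC_l231 _)
            (CovZ.leaf K2_ok TC_l1195 _))))
         (CovZ.n1 (1850, 834) (by decide +kernel)
          (CovZ.n2 (1848, 834) (by decide +kernel)
           (CovZ.leaf K2_ok TC_l232 _)
           (CovZ.leaf K2_ok TC_l233 _))
          (CovZ.n1 (1850, 836) (by decide +kernel)
           (CovZ.n2 (1851, 835) (by decide +kernel)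
            (CovZ.leaf K2_ok TC_l234 _)
            (CovZ.leaf K2_ok TC_l235 _))
           (CovZ.leaf K2_ok TC_l236 _))))))
      (CovZ.n1 (1840, 840) (by decide +kernel)
       (CovZ.n2 (1844, 844) (by decide +kernel)
        (CovZ.n2 (1844, 840) (by decide +kernel)
         (CovZ.n2 (1842, 842) (by decide +kernel)
          (CovZ.badM (by decide +kernel))
          (CovZ.n1 (1842, 840) (by decide +kernel)
           (CovZ.badM (by decide +kernel))
           (CovZ.badM (by decide +kernel))))
         (CovZ.n1 (1846, 842) (by decide +kernel)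
          (CovZ.n2 (1846, 840) (by decide +kernel)
           (CovZ.badM (by decide +kernel))
           (CovZ.n1 (1847, 841) (by decide +kernel)
            (CovZ.leaf K2_ok TC_l1196 _)
            (CovZ.badM (by decide +kernel))))
          (CovZ.badM (by decide +kernel))))
        (CovZ.n1 (1840, 844) (by decide +kernel)
         (CovZ.badM (by decide +kernel))
         (CovZ.n1 (1842, 842) (by decide +kernel)
          (CovZ.badM (by decide +kernel))
          (CovZ.badM (by decide +kernel)))))
       (CovZ.n1 (1844, 836) (by decide +kernel)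
        (CovZ.n2 (1840, 836) (by decide +kernel)
         (CovZ.n2 (1842, 838) (by decide +kernel)
          (CovZ.n2 (1842, 836) (by decide +kernel)
           (CovZ.leaf K2_ok TC_l237 _)
           (CovZ.leaf K2_ok TC_l238 _))
          (CovZ.n1 (1840, 838) (by decide +kernel)
           (CovZ.leaf K2_ok TC_l239 _)
           (CovZ.leaf K2_ok TC_l240 _)))
         (CovZ.n1 (1842, 834) (by decide +kernel)
          (CovZ.n2 (1840, 834) (by decide +kernel)
           (CovZ.leaf K2_ok TC_l241 _)
           (CovZ.leaf K2_ok TC_l242 _))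
          (CovZ.n1 (1842, 836) (by decide +kernel)
           (CovZ.leaf K2_ok TC_l243 _)
           (CovZ.leaf K2_ok TC_l244 _))))
        (CovZ.n1 (1844, 840) (by decide +kernel)
         (CovZ.n2 (1846, 838) (by decide +kernel)
          (CovZ.n2 (1844, 838) (by decide +kernel)
           (CovZ.n2 (1845, 839) (by decide +kernel)
            (CovZ.leaf K2_ok TC_l245 _)
            (CovZ.leaf K2_ok TC_l246 _))
           (CovZ.leaf K2_ok TC_l247 _))
          (CovZ.n1 (1846, 840) (by decide +kernel)
           (CovZ.n2 (1847, 839) (by decide +kernel)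
            (CovZ.leaf K2_ok TC_l1197 _)
            (CovZ.leaf K2_ok TC_l1198 _))
           (CovZ.n1 (1845, 839) (by decide +kernel)
            (CovZ.badM (by decide +kernel))
            (CovZ.leaf K2_ok TC_l1199 _))))
         (CovZ.n1 (1842, 838) (by decide +kernel)
          (CovZ.n2 (1842, 840) (by decide +kernel)
           (CovZ.leaf K2_ok TC_l248 _)
           (CovZ.n1 (1841, 839) (by decide +kernel)
            (CovZ.badM (by decide +kernel))
            (CovZ.leaf K2_ok TC_l249 _)))
          (CovZ.leaf K2_ok TC_l250 _)))))))))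
    (CovZ.topM TC_LL 273 (by decide +kernel) (CovZ.n0 (1840, 848) (by decide +kernel)
    (CovZ.n2 (1824, 848) (by decide +kernel)
     (CovZ.badM (by decide +kernel))
     (CovZ.n1 (1832, 840) (by decide +kernel)
      (CovZ.n2 (1824, 840) (by decide +kernel)
       (CovZ.badM (by decide +kernel))
       (CovZ.n1 (1828, 836) (by decide +kernel)
        (CovZ.badM (by decide +kernel))
        (CovZ.badM (by decide +kernel))))
      (CovZ.badM (by decide +kernel))))
    (CovZ.badM (by decide +kernel))))

theorem TC_s1_3 : SqZ TC_M TC_L [0, 7, 4, 3] 1824 736 32 1 3 :=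
  SqZ.mk (a := 1856) (b := 1888) (c := 832) (d := 864) (by norm_num) (by norm_num) (by norm_num) (by norm_num)
    (CovZ.topM TC_LL 2081 (by decide +kernel) (CovZ.n2 (1872, 848) (by decide +kernel)
    (CovZ.badM (by decide +kernel))
    (CovZ.n1 (1872, 832) (by decide +kernel)
     (CovZ.n2 (1864, 840) (by decide +kernel)
      (CovZ.badM (by decide +kernel))
      (CovZ.n1 (1864, 832) (by decide +kernel)
       (CovZ.n2 (1860, 836) (by decide +kernel)
        (CovZ.n2 (1864, 836) (by decide +kernel)
         (CovZ.n2 (1862, 834) (by decide +kernel)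
          (CovZ.badM (by decide +kernel))
          (CovZ.n1 (1864, 834) (by decide +kernel)
           (CovZ.n2 (1863, 833) (by decide +kernel)
            (CovZ.badM (by decide +kernel))
            (CovZ.leaf K2_ok TC_l737 _))
           (CovZ.badM (by decide +kernel))))
         (CovZ.badM (by decide +kernel)))
        (CovZ.n1 (1860, 832) (by decide +kernel)
         (CovZ.n2 (1858, 834) (by decide +kernel)
          (CovZ.n2 (1860, 834) (by decide +kernel)
           (CovZ.n2 (1859, 833) (by decide +kernel)
            (CovZ.leaf K2_ok TC_l738 _)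
            (CovZ.leaf K2_ok TC_l739 _))
           (CovZ.leaf K2_ok TC_l740 _))
          (CovZ.n1 (1858, 832) (by decide +kernel)
           (CovZ.leaf K2_ok TC_l741 _)
           (CovZ.n1 (1859, 833) (by decide +kernel)
            (CovZ.leaf K2_ok TC_l742 _)
            (CovZ.leaf K2_ok TC_l743 _))))
         (CovZ.n1 (1862, 834) (by decide +kernel)
          (CovZ.n2 (1862, 832) (by decide +kernel)
           (CovZ.n2 (1861, 833) (by decide +kernel)
            (CovZ.leaf K2_ok TC_l744 _)
            (CovZ.leaf K2_ok TC_l745 _))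
           (CovZ.n1 (1863, 833) (by decide +kernel)
            (CovZ.leaf K2_ok TC_l746 _)
            (CovZ.leaf K2_ok TC_l747 _)))
          (CovZ.n1 (1860, 834) (by decide +kernel)
           (CovZ.n2 (1861, 835) (by decide +kernel)
            (CovZ.leaf K2_ok TC_l748 _)
            (CovZ.leaf K2_ok TC_l749 _))
           (CovZ.n1 (1861, 833) (by decide +kernel)
            (CovZ.leaf K2_ok TC_l750 _)
            (CovZ.leaf K2_ok TC_l751 _))))))
       (CovZ.n1 (1868, 836) (by decide +kernel)
        (CovZ.n2 (1868, 832) (by decide +kernel)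
         (CovZ.n2 (1866, 834) (by decide +kernel)
          (CovZ.badM (by decide +kernel))
          (CovZ.n1 (1866, 832) (by decide +kernel)
           (CovZ.leaf K2_ok TC_l752 _)
           (CovZ.badM (by decide +kernel))))
         (CovZ.badM (by decide +kernel)))
        (CovZ.n1 (1864, 836) (by decide +kernel)
         (CovZ.badM (by decide +kernel))
         (CovZ.n1 (1866, 834) (by decide +kernel)
          (CovZ.n2 (1864, 834) (by decide +kernel)
           (CovZ.badM (by decide +kernel))
           (CovZ.n1 (1865, 833) (by decide +kernel)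
            (CovZ.leaf K2_ok TC_l753 _)
            (CovZ.badM (by decide +kernel))))
          (CovZ.badM (by decide +kernel)))))))
     (CovZ.badM (by decide +kernel)))))
    (CovZ.topM TC_LL 2081 (by decide +kernel) (CovZ.n0 (1872, 848) (by decide +kernel)
    (CovZ.n2 (1856, 848) (by decide +kernel)
     (CovZ.badM (by decide +kernel))
     (CovZ.n1 (1864, 840) (by decide +kernel)
      (CovZ.n2 (1856, 840) (by decide +kernel)
       (CovZ.badM (by decide +kernel))
       (CovZ.n1 (1860, 836) (by decide +kernel)
        (CovZ.n2 (1856, 836) (by decide +kernel)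
         (CovZ.n2 (1858, 838) (by decide +kernel)
          (CovZ.n2 (1858, 836) (by decide +kernel)
           (CovZ.leaf K2_ok TC_l1207 _)
           (CovZ.n1 (1859, 837) (by decide +kernel)
            (CovZ.leaf K2_ok TC_l754 _)
            (CovZ.badM (by decide +kernel))))
          (CovZ.n1 (1856, 838) (by decide +kernel)
           (CovZ.badM (by decide +kernel))
           (CovZ.n1 (1857, 837) (by decide +kernel)
            (CovZ.leaf K2_ok TC_l1208 _)
            (CovZ.badM (by decide +kernel)))))
         (CovZ.n1 (1858, 834) (by decide +kernel)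
          (CovZ.n2 (1856, 834) (by decide +kernel)
           (CovZ.n2 (1857, 835) (by decide +kernel)
            (CovZ.leaf K2_ok TC_l755 _)
            (CovZ.leaf K2_ok TC_l756 _))
           (CovZ.leaf K2_ok TC_l757 _))
          (CovZ.n1 (1858, 836) (by decide +kernel)
           (CovZ.n2 (1859, 835) (by decide +kernel)
            (CovZ.leaf K2_ok TC_l758 _)
            (CovZ.leaf K2_ok TC_l759 _))
           (CovZ.n1 (1857, 835) (by decide +kernel)
            (CovZ.leaf K2_ok TC_l1209 _)
            (CovZ.leaf K2_ok TC_l760 _)))))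
        (CovZ.badM (by decide +kernel))))
      (CovZ.badM (by decide +kernel))))
    (CovZ.badM (by decide +kernel))))

theorem TC_s2_3 : SqZ TC_M TC_L [0, 7, 4, 3] 1824 736 32 2 3 :=
  SqZ.mk (a := 1888) (b := 1920) (c := 832) (d := 864) (by norm_num) (by norm_num) (by norm_num) (by norm_num)
    (CovZ.topM TC_LL 2 (by decide +kernel) (CovZ.n2 (1904, 848) (by decide +kernel)
    (CovZ.badM (by decide +kernel))
    (CovZ.n1 (1904, 832) (by decide +kernel)
     (CovZ.badM (by decide +kernel))
     (CovZ.badM (by decide +kernel)))))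
    (CovZ.topM TC_LL 0 (by decide +kernel) (CovZ.badM (by decide +kernel)))

end Pool.Agent.TET
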