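import Pool.Agent.Helper38_TET.RegS
import Pool.Agent.Helper38_TET.TC_S0

/-!
# MP_c7c9bf_co: certificates, family TC
-/

set_option autoImplicit false
set_option maxRecDepth 100000

namespace Pool.Agent.TET

theorem TC_r0 : ∀ i < 3, SqZ TC_M TC_L [0, 7, 4, 3] 1824 736 32 i 0
  | 0, _ => TC_s0_0
  | 1, _ => TC_s1_0
  | 2, _ => TC_s2_0
  | n + 3, h => absurd h (by omega)

theorem TC_r1 : ∀ i < 3, SqZ TC_M TC_L [0, 7, 4, 3] 1824 736 32 i 1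
  | 0, _ => TC_s0_1
  | 1, _ => TC_s1_1
  | 2, _ => TC_s2_1
  | n + 3, h => absurd h (by omega)

theorem TC_r2 : ∀ i < 3, SqZ TC_M TC_L [0, 7, 4, 3] 1824 736 32 i 2
  | 0, _ => TC_s0_2
  | 1, _ => TC_s1_2
  | 2, _ => TC_s2_2
  | n + 3, h => absurd h (by omega)

theorem TC_r3 : ∀ i < 3, SqZ TC_M TC_L [0, 7, 4, 3] 1824 736 32 i 3
  | 0, _ => TC_s0_3
  | 1, _ => TC_s1_3
  | 2, _ => TC_s2_3
  | n + 3, h => absurd h (by omega)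

theorem TC_rows : ∀ j < 4, ∀ i < 3, SqZ TC_M TC_L [0, 7, 4, 3] 1824 736 32 i j
  | 0, _ => TC_r0
  | 1, _ => TC_r1
  | 2, _ => TC_r2
  | 3, _ => TC_r3
  | n + 4, h => absurd h (by omega)

theorem TC_cov (X Y : ℝ) (h1 : ((1824 : ℤ) : ℝ) ≤ X) (h2 : X ≤ (1920 : ℤ)) (h3 : ((736 : ℤ) : ℝ) ≤ Y)
    (h4 : Y ≤ (864 : ℤ)) : Out TC_L X Y ∨ GoodV [0, 7, 4, 3] (TC_M.v X Y) := by
  push_cast at h1 h2 h3 h4
  refine gridZ (by norm_num) (by norm_num) (by norm_num) TC_rows ?_ ?_ ?_ ?_ <;> push_cast <;> linarith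

theorem TC_sc : ∀ a : Fin 3, (![1, 1, 320] : Fin 3 → ℝ) a ≠ 0 := by
  intro a
  fin_cases a <;> simp

theorem TC_fr (x y : ℝ) : scl ![1, 1, 320] (VV ((36 : ℤ) : ℝ) ((-41 : ℤ) : ℝ) ((80 : ℤ) : ℝ) (x / (4 : ℤ)) (y / (4 : ℤ))) =
    TC_M.v (30720 * x / (1 : ℤ)) (30720 * y / (1 : ℤ)) := by
  funext i j
  fin_cases i <;> fin_cases j <;> simp [scl, VV, FM.v, Z3.ev, TC_M] <;> ring

end Pool.Agent.TET
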