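import Pool.Agent.Helper38_TET.TC_C

/-!
# MP_c7c9bf_co: certificates, family TC
-/

set_option autoImplicit false
set_option maxRecDepth 100000

namespace Pool.Agent.TET

theorem TC_rg0 : ROK [.q ⟨-75, 36, -41, 80⟩ ⟨-1772, -5888, -9940, 17600⟩, .q ⟨-75, 36, -41, 80⟩ ⟨4928, 228, -18276, 13120⟩, .q ⟨-75, 36, -41, 80⟩ ⟨2316, 7072, 7892, -17280⟩, .q ⟨-75, 36, -41, 80⟩ ⟨-4108, 960, 16588, -13440⟩] := by
  refine rok_w (v := ⟨-75, 36, -41, 80⟩) (q := 4) (by decide) (by decide) (by decide) TC_sc (k := 1) (by decide) (Q := [(-3452, -230, 220), (-1419, -2888, 164), (3712, -241, -216), (1752, 2425, -168)])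
    (P := [⟨6758400, -3452, -230⟩, ⟨5038080, -1419, -2888⟩, ⟨-6635520, 3712, -241⟩, ⟨-5160960, 1752, 2425⟩]) rfl rfl
    (List.mem_of_getElem? (i := 0) rfl) TC_fr TC_cov ?_
  · intro X Y h
    simp only [List.forall_mem_cons, List.not_mem_nil, false_imp_iff, implies_true, and_true] at h
    push_cast at h ⊢
    obtain ⟨h0, h1, h2, h3⟩ := h
    refine ⟨⟨?_, ?_⟩, ?_, ?_⟩ <;> linarith

theorem TC_rg1 : ROK [.q ⟨-75, 36, -41, 80⟩ ⟨-128, -4276, -11596, 16000⟩, .q ⟨-75, 36, -41, 80⟩ ⟨7500, 7712, -7212, -8000⟩, .q ⟨-75, 36, -41, 80⟩ ⟨-6748, -1452, 20680, -12480⟩] := by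
  refine rok_w (v := ⟨-75, 36, -41, 80⟩) (q := 4) (by decide) (by decide) (by decide) TC_sc (k := 1) (by decide) (Q := [(-2869, -849, 200), (2828, -2828, -100), (1041, 3571, -156)])
    (P := [⟨6144000, -2869, -849⟩, ⟨-3072000, 2828, -2828⟩, ⟨-4792320, 1041, 3571⟩]) rfl rfl
    (List.mem_of_getElem? (i := 1) rfl) TC_fr TC_cov ?_
  · intro X Y h
    simp only [List.forall_mem_cons, List.not_mem_nil, false_imp_iff, implies_true, and_true] at h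
    push_cast at h ⊢
    obtain ⟨h0, h1, h2⟩ := h
    refine ⟨⟨?_, ?_⟩, ?_, ?_⟩ <;> linarith

theorem TC_rg2 : ROK [.q ⟨-75, 36, -41, 80⟩ ⟨-8476, -6440, 13956, 960⟩, .q ⟨-75, 36, -41, 80⟩ ⟨2152, -2176, -14376, 14400⟩, .q ⟨-75, 36, -41, 80⟩ ⟨136, 188, -4, -320⟩] := by
  refine rok_w (v := ⟨-75, 36, -41, 80⟩) (q := 4) (by decide) (by decide) (by decide) TC_sc (k := 1) (by decide) (Q := [(-1718, 3612, 12), (-2164, -1749, 180), (83, -42, -4)])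
    (P := [⟨368640, -1718, 3612⟩, ⟨5529600, -2164, -1749⟩, ⟨-122880, 83, -42⟩]) rfl rfl
    (List.mem_of_getElem? (i := 2) rfl) TC_fr TC_cov ?_
  · intro X Y h
    simp only [List.forall_mem_cons, List.not_mem_nil, false_imp_iff, implies_true, and_true] at h
    push_cast at h ⊢
    obtain ⟨h0, h1, h2⟩ := h
    refine ⟨⟨?_, ?_⟩, ?_, ?_⟩ <;> linarith

theorem TC_rg3 : ROK [.q ⟨-75, 36, -41, 80⟩ ⟨7548, 2632, -21700, 11520⟩, .q ⟨-75, 36, -41, 80⟩ ⟨-620, 4204, 12096, -15680⟩, .q ⟨-75, 36, -41, 80⟩ ⟨-8368, -7020, 10908, 4480⟩, .q ⟨-75, 36, -41, 80⟩ ⟨-104, -4268, -11628, 16000⟩] := by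
  refine rok_w (v := ⟨-75, 36, -41, 80⟩) (q := 4) (by decide) (by decide) (by decide) TC_sc (k := 1) (by decide) (Q := [(-638, -3949, 144), (2815, 1015, -196), (-2259, 3301, 56), (-2867, -857, 200)])
    (P := [⟨4423680, -638, -3949⟩, ⟨-6021120, 2815, 1015⟩, ⟨1720320, -2259, 3301⟩, ⟨6144000, -2867, -857⟩]) rfl rfl
    (List.mem_of_getElem? (i := 3) rfl) TC_fr TC_cov ?_
  · intro X Y h
    simp only [List.forall_mem_cons, List.not_mem_nil, false_imp_iff, implies_true, and_true] at h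
    push_cast at h ⊢
    obtain ⟨h0, h1, h2, h3⟩ := h
    refine ⟨⟨?_, ?_⟩, ?_, ?_⟩ <;> linarith

theorem TC_rg4 : ROK [.q ⟨-75, 36, -41, 80⟩ ⟨6604, 1656, -20740, 12480⟩, .q ⟨-75, 36, -41, 80⟩ ⟨1148, 6176, 9636, -16960⟩, .q ⟨-75, 36, -41, 80⟩ ⟨-5412, -160, 18052, -12480⟩, .q ⟨-75, 36, -41, 80⟩ ⟨-4052, -7656, -6212, 17920⟩] := by
  refine rok_w (v := ⟨-75, 36, -41, 80⟩) (q := 4) (by decide) (by decide) (by decide) TC_sc (k := 1) (by decide) (Q := [(-990, -3586, 156), (3452, 236, -212), (1364, 2914, -156), (-3930, 743, 224)])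
    (P := [⟨4792320, -990, -3586⟩, ⟨-6512640, 3452, 236⟩, ⟨-4792320, 1364, 2914⟩, ⟨6881280, -3930, 743⟩]) rfl rfl
    (List.mem_of_getElem? (i := 4) rfl) TC_fr TC_cov ?_
  · intro X Y h
    simp only [List.forall_mem_cons, List.not_mem_nil, false_imp_iff, implies_true, and_true] at h
    push_cast at h ⊢
    obtain ⟨h0, h1, h2, h3⟩ := h
    refine ⟨⟨?_, ?_⟩, ?_, ?_⟩ <;> linarith

theorem TC_rg5 : ROK [.q ⟨-75, 36, -41, 80⟩ ⟨-1844, 2952, 13292, -14400⟩, .q ⟨-75, 36, -41, 80⟩ ⟨-6076, -8008, 324, 13760⟩, .q ⟨-75, 36, -41, 80⟩ ⟨1996, -288, -8428, 6720⟩, .q ⟨-75, 36, -41, 80⟩ ⟨1004, 820, -1824, 0⟩] := by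
  refine rok_w (v := ⟨-75, 36, -41, 80⟩) (q := 4) (by decide) (by decide) (by decide) TC_sc (k := 1) (by decide) (Q := [(2358, 1478, -180), (-3550, 1844, 172), (-828, -1246, 84), (205, -456, 0)])
    (P := [⟨-5529600, 2358, 1478⟩, ⟨5283840, -3550, 1844⟩, ⟨2580480, -828, -1246⟩, ⟨0, 205, -456⟩]) rfl rfl
    (List.mem_of_getElem? (i := 5) rfl) TC_fr TC_cov ?_
  · intro X Y h
    simp only [List.forall_mem_cons, List.not_mem_nil, false_imp_iff, implies_true, and_true] at h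
    push_cast at h ⊢
    obtain ⟨h0, h1, h2, h3⟩ := h
    refine ⟨⟨?_, ?_⟩, ?_, ?_⟩ <;> linarith

theorem TC_rg6 : ROK [.q ⟨-75, 36, -41, 80⟩ ⟨-4840, -7844, -3956, 16640⟩, .q ⟨-75, 36, -41, 80⟩ ⟨2536, 188, -9124, 6400⟩, .q ⟨-75, 36, -41, 80⟩ ⟨6752, 8052, -4884, -9920⟩, .q ⟨-75, 36, -41, 80⟩ ⟨-1712, 3144, 12968, -14400⟩, .q ⟨-75, 36, -41, 80⟩ ⟨-8904, -5804, 15348, -640⟩] := by
  refine rok_w (v := ⟨-75, 36, -41, 80⟩) (q := 4) (by decide) (by decide) (by decide) TC_sc (k := 1) (by decide) (Q := [(-3833, 1143, 208), (-673, -1461, 80), (3129, -2492, -124), (2406, 1397, -180), (-1379, 3755, -8)])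
    (P := [⟨6389760, -3833, 1143⟩, ⟨2457600, -673, -1461⟩, ⟨-3809280, 3129, -2492⟩, ⟨-5529600, 2406, 1397⟩, ⟨-245760, -1379, 3755⟩]) rfl rfl
    (List.mem_of_getElem? (i := 6) rfl) TC_fr TC_cov ?_
  · intro X Y h
    simp only [List.forall_mem_cons, List.not_mem_nil, false_imp_iff, implies_true, and_true] at h
    push_cast at h ⊢
    obtain ⟨h0, h1, h2, h3, h4⟩ := h
    refine ⟨⟨?_, ?_⟩, ?_, ?_⟩ <;> linarith

theorem TC_rg7 : ROK [.q ⟨-75, 36, -41, 80⟩ ⟨-3900, -3784, 3524, 4160⟩, .q ⟨-75, 36, -41, 80⟩ ⟨-144, -4284, -11572, 16000⟩, .q ⟨-75, 36, -41, 80⟩ ⟨6676, 1820, -20656, 12160⟩, .q ⟨-75, 36, -41, 80⟩ ⟨2060, 6208, 8692, -16960⟩] := by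
  refine rok_w (v := ⟨-75, 36, -41, 80⟩) (q := 4) (by decide) (by decide) (by decide) TC_sc (k := 1) (by decide) (Q := [(-1414, 1414, 52), (-2871, -843, 200), (-913, -3606, 152), (3460, 0, -212)])
    (P := [⟨1597440, -1414, 1414⟩, ⟨6144000, -2871, -843⟩, ⟨4669440, -913, -3606⟩, ⟨-6512640, 3460, 0⟩]) rfl rfl
    (List.mem_of_getElem? (i := 7) rfl) TC_fr TC_cov ?_
  · intro X Y h
    simp only [List.forall_mem_cons, List.not_mem_nil, false_imp_iff, implies_true, and_true] at h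
    push_cast at h ⊢
    obtain ⟨h0, h1, h2, h3⟩ := h
    refine ⟨⟨?_, ?_⟩, ?_, ?_⟩ <;> linarith

theorem TC_rg8 : ROK [.q ⟨-75, 36, -41, 80⟩ ⟨5556, 620, -19616, 13440⟩, .q ⟨-75, 36, -41, 80⟩ ⟨440, 1588, 2132, -4160⟩, .q ⟨-75, 36, -41, 80⟩ ⟨-6124, -388, 19312, -12800⟩, .q ⟨-75, 36, -41, 80⟩ ⟨-2432, -6200, -8328, 16960⟩] := by
  refine rok_w (v := ⟨-75, 36, -41, 80⟩) (q := 4) (by decide) (by decide) (by decide) TC_sc (k := 1) (by decide) (Q := [(-1357, -3182, 168), (865, 0, -52), (1343, 3188, -160), (-3458, 91, 212)])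
    (P := [⟨5160960, -1357, -3182⟩, ⟨-1597440, 865, 0⟩, ⟨-4915200, 1343, 3188⟩, ⟨6512640, -3458, 91⟩]) rfl rfl
    (List.mem_of_getElem? (i := 8) rfl) TC_fr TC_cov ?_
  · intro X Y h
    simp only [List.forall_mem_cons, List.not_mem_nil, false_imp_iff, implies_true, and_true] at h
    push_cast at h ⊢
    obtain ⟨h0, h1, h2, h3⟩ := h
    refine ⟨⟨?_, ?_⟩, ?_, ?_⟩ <;> linarith

theorem TC_rg9 : ROK [.q ⟨-75, 36, -41, 80⟩ ⟨-2164, -6060, -9056, 17280⟩, .q ⟨-75, 36, -41, 80⟩ ⟨2648, 1116, -6964, 3200⟩, .q ⟨-75, 36, -41, 80⟩ ⟨440, 1588, 2132, -4160⟩, .q ⟨-75, 36, -41, 80⟩ ⟨-980, -476, 2096, -640⟩] := by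
  refine rok_w (v := ⟨-75, 36, -41, 80⟩) (q := 4) (by decide) (by decide) (by decide) TC_sc (k := 1) (by decide) (Q := [(-3459, -50, 216), (-81, -1331, 40), (865, 0, -52), (-47, 442, -8)])
    (P := [⟨6635520, -3459, -50⟩, ⟨1228800, -81, -1331⟩, ⟨-1597440, 865, 0⟩, ⟨-245760, -47, 442⟩]) rfl rfl
    (List.mem_of_getElem? (i := 9) rfl) TC_fr TC_cov ?_
  · intro X Y h
    simp only [List.forall_mem_cons, List.not_mem_nil, false_imp_iff, implies_true, and_true] at h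
    push_cast at h ⊢
    obtain ⟨h0, h1, h2, h3⟩ := h
    refine ⟨⟨?_, ?_⟩, ?_, ?_⟩ <;> linarith

theorem TC_rg10 : ROK [.q ⟨-75, 36, -41, 80⟩ ⟨7892, 7428, -9240, -6080⟩, .q ⟨-75, 36, -41, 80⟩ ⟨-7076, -1268, 20504, -12160⟩, .q ⟨-75, 36, -41, 80⟩ ⟨-2168, -6060, -9052, 17280⟩, .q ⟨-75, 36, -41, 80⟩ ⟨2824, -1824, -16040, 15040⟩] := by
  refine rok_w (v := ⟨-75, 36, -41, 80⟩) (q := 4) (by decide) (by decide) (by decide) TC_sc (k := 1) (by decide) (Q := [(2541, -3089, -76), (1051, 3568, -152), (-3459, -49, 216), (-2148, -2083, 188)])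
    (P := [⟨-2334720, 2541, -3089⟩, ⟨-4669440, 1051, 3568⟩, ⟨6635520, -3459, -49⟩, ⟨5775360, -2148, -2083⟩]) rfl rfl
    (List.mem_of_getElem? (i := 10) rfl) TC_fr TC_cov ?_
  · intro X Y h
    simp only [List.forall_mem_cons, List.not_mem_nil, false_imp_iff, implies_true, and_true] at h
    push_cast at h ⊢
    obtain ⟨h0, h1, h2, h3⟩ := h
    refine ⟨⟨?_, ?_⟩, ?_, ?_⟩ <;> linarith

theorem TC_rg11 : ROK [.q ⟨-75, 36, -41, 80⟩ ⟨5700, 8328, -1868, -12160⟩, .q ⟨-75, 36, -41, 80⟩ ⟨-4712, 324, 18148, -13760⟩, .q ⟨-75, 36, -41, 80⟩ ⟨-3188, -6884, -7528, 17600⟩, .q ⟨-75, 36, -41, 80⟩ ⟨4488, -364, -18204, 14080⟩] := by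
  refine rok_w (v := ⟨-75, 36, -41, 80⟩) (q := 4) (by decide) (by decide) (by decide) TC_sc (k := 1) (by decide) (Q := [(3450, -2025, -152), (1629, 2774, -172), (-3701, 373, 220), (-1675, -2747, 176)])
    (P := [⟨-4669440, 3450, -2025⟩, ⟨-5283840, 1629, 2774⟩, ⟨6758400, -3701, 373⟩, ⟨5406720, -1675, -2747⟩]) rfl rfl
    (List.mem_of_getElem? (i := 11) rfl) TC_fr TC_cov ?_
  · intro X Y h
    simp only [List.forall_mem_cons, List.not_mem_nil, false_imp_iff, implies_true, and_true] at h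
    push_cast at h ⊢
    obtain ⟨h0, h1, h2, h3⟩ := h
    refine ⟨⟨?_, ?_⟩, ?_, ?_⟩ <;> linarith

theorem TC_rg12 : ROK [.q ⟨-75, 36, -41, 80⟩ ⟨-1828, -5892, -9880, 17600⟩, .q ⟨-75, 36, -41, 80⟩ ⟨3360, 880, -10320, 6080⟩, .q ⟨-75, 36, -41, 80⟩ ⟨-2816, 1992, 15864, -15040⟩] := by
  refine rok_w (v := ⟨-75, 36, -41, 80⟩) (q := 4) (by decide) (by decide) (by decide) TC_sc (k := 1) (by decide) (Q := [(-3453, -215, 220), (-464, -1801, 76), (2190, 2039, -188)])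
    (P := [⟨6758400, -3453, -215⟩, ⟨2334720, -464, -1801⟩, ⟨-5775360, 2190, 2039⟩]) rfl rfl
    (List.mem_of_getElem? (i := 12) rfl) TC_fr TC_cov ?_
  · intro X Y h
    simp only [List.forall_mem_cons, List.not_mem_nil, false_imp_iff, implies_true, and_true] at h
    push_cast at h ⊢
    obtain ⟨h0, h1, h2⟩ := h
    refine ⟨⟨?_, ?_⟩, ?_, ?_⟩ <;> linarith

end Pool.Agent.TET
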