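import Pool.Agent.Helper38_TET.TD_M
import Pool.Agent.Helper38_TET.TD_L
import Pool.Agent.Helper38_TET.TD_25
import Pool.Agent.Helper38_TET.TD_26
import Pool.Agent.Helper38_TET.TD_56
import Pool.Agent.Helper38_TET.TD_57
import Pool.Agent.Helper38_TET.TD_69
import Pool.Agent.Helper38_TET.TD_70
import Pool.Agent.Helper38_TET.TD_71
import Pool.Agent.Helper38_TET.TD_84
import Pool.Agent.Helper38_TET.TD_85
import Pool.Agent.Helper38_TET.TD_100
import Pool.Agent.Helper38_TET.TD_101
import Pool.Agent.Helper38_TET.TD_116
import Pool.Agent.Helper38_TET.TD_117
import Pool.Agent.Helper38_TET.TD_120
import Pool.Agent.Helper38_TET.TD_121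
import Pool.Agent.Helper38_TET.TD_124
import Pool.Agent.Helper38_TET.TD_125
import Pool.Agent.Helper38_TET.TD_127

/-!
# MP_c7c9bf_co: certificates, family TD
-/

set_option autoImplicit false
set_option maxRecDepth 100000

namespace Pool.Agent.TET

theorem TD_u0 : CovZ TD_M (toL (selN TD_LN 8749002899140999515745385068029282341879320498694657985141142949487986747878609515236699118053196800)) [0, 7, 6, 1] (29184, 15360) (28416, 15360) (28416, 14592) :=
    (CovZ.n2 (28800, 14976) (by decide +kernel)
      (CovZ.subM 8749002899140004869272565494744971577383026857014457067130209034002462504968535580790122866070880256 (by decide +kernel)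
       (CovZ.n2 (28416, 14976) (by decide +kernel)
        (CovZ.n2 (28608, 15168) (by decide +kernel)
         (CovZ.n2 (28608, 14976) (by decide +kernel)
          (CovZ.n2 (28512, 15072) (by decide +kernel)
           (CovZ.subM 7957171782556586274486115970349133441607321248720646774405523038746141714883265930788864 (by decide +kernel)
            (CovZ.n2 (28608, 15072) (by decide +kernel)
             (CovZ.badM (by decide +kernel))
             (CovZ.n1 (28560, 15120) (by decide +kernel)
              (CovZ.n2 (28608, 15120) (by decide +kernel)
               (CovZ.n2 (28584, 15096) (by decide +kernel)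
                (CovZ.leaf K2_ok TD_l8407 _)
                (CovZ.leaf K2_ok TD_l8408 _))
               (CovZ.leaf K2_ok TD_l8409 _))
              (CovZ.n1 (28560, 15072) (by decide +kernel)
               (CovZ.n2 (28536, 15096) (by decide +kernel)
                (CovZ.leaf K2_ok TD_l8410 _)
                (CovZ.badM (by decide +kernel)))
               (CovZ.leaf K2_ok TD_l8412 _)))))
           (CovZ.badM (by decide +kernel)))
          (CovZ.subM 7957171782556586274486115970349133441607321248720646774405523038746141714883265930788864 (by decide +kernel)
           (CovZ.n1 (28704, 15072) (by decide +kernel)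
            (CovZ.n2 (28704, 14976) (by decide +kernel)
             (CovZ.n2 (28656, 15024) (by decide +kernel)
              (CovZ.n2 (28704, 15024) (by decide +kernel)
               (CovZ.badM (by decide +kernel))
               (CovZ.n1 (28680, 15048) (by decide +kernel)
                (CovZ.leaf K2_ok TD_l8413 _)
                (CovZ.badM (by decide +kernel))))
              (CovZ.badM (by decide +kernel)))
             (CovZ.n1 (28752, 15024) (by decide +kernel)
              (CovZ.badM (by decide +kernel))
              (CovZ.n1 (28704, 15024) (by decide +kernel)
               (CovZ.leaf K2_ok TD_l8414 _)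
               (CovZ.badM (by decide +kernel)))))
            (CovZ.n1 (28608, 15072) (by decide +kernel)
             (CovZ.n2 (28656, 15120) (by decide +kernel)
              (CovZ.n2 (28656, 15072) (by decide +kernel)
               (CovZ.n2 (28632, 15096) (by decide +kernel)
                (CovZ.leaf K2_ok TD_l8415 _)
                (CovZ.leaf K2_ok TD_l8416 _))
               (CovZ.leaf K2_ok TD_l8417 _))
              (CovZ.leaf K2_ok TD_l8418 _))
             (CovZ.n1 (28656, 15024) (by decide +kernel)
              (CovZ.badM (by decide +kernel))
              (CovZ.n1 (28656, 15072) (by decide +kernel)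
               (CovZ.leaf K2_ok TD_l8420 _)
               (CovZ.n1 (28632, 15048) (by decide +kernel)
                (CovZ.leaf K2_ok TD_l8421 _)
                (CovZ.leaf K2_ok TD_l8422 _))))))))
         (CovZ.n1 (28416, 15168) (by decide +kernel)
          (CovZ.n2 (28512, 15264) (by decide +kernel)
           (CovZ.n2 (28512, 15168) (by decide +kernel)
            (CovZ.n2 (28464, 15216) (by decide +kernel)
             (CovZ.n2 (28512, 15216) (by decide +kernel)
              (CovZ.leaf K2_ok TD_l8423 _)
              (CovZ.leaf K2_ok TD_l8424 _))
             (CovZ.n1 (28464, 15168) (by decide +kernel)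
              (CovZ.leaf K2_ok TD_l8425 _)
              (CovZ.leaf K2_ok TD_l8426 _)))
            (CovZ.n1 (28560, 15216) (by decide +kernel)
             (CovZ.n2 (28560, 15168) (by decide +kernel)
              (CovZ.leaf K2_ok TD_l8427 _)
              (CovZ.leaf K2_ok TD_l8428 _))
             (CovZ.leaf K2_ok TD_l8429 _)))
           (CovZ.n1 (28416, 15264) (by decide +kernel)
            (CovZ.n2 (28464, 15312) (by decide +kernel)
             (CovZ.n2 (28464, 15264) (by decide +kernel)
              (CovZ.leaf K2_ok TD_l8430 _)
              (CovZ.leaf K2_ok TD_l8431 _))
             (CovZ.leaf K2_ok TD_l8432 _))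
            (CovZ.n1 (28464, 15216) (by decide +kernel)
             (CovZ.leaf K2_ok TD_l8433 _)
             (CovZ.n1 (28464, 15264) (by decide +kernel)
              (CovZ.leaf K2_ok TD_l8434 _)
              (CovZ.leaf K2_ok TD_l8435 _)))))
          (CovZ.n1 (28512, 15072) (by decide +kernel)
           (CovZ.subM 7957171782556586274486115970349133441607298412757563479047426106170630522961083806875648 (by decide +kernel)
            (CovZ.n2 (28416, 15072) (by decide +kernel)
             (CovZ.n2 (28464, 15120) (by decide +kernel)
              (CovZ.badM (by decide +kernel))
              (CovZ.n1 (28416, 15120) (by decide +kernel)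
               (CovZ.leaf K2_ok TD_l8436 _)
               (CovZ.badM (by decide +kernel))))
             (CovZ.badM (by decide +kernel))))
           (CovZ.n1 (28512, 15168) (by decide +kernel)
            (CovZ.subM 7957171782556586274486115970349133441607321248720646774405523038746141714883265930788864 (by decide +kernel)
             (CovZ.n2 (28560, 15120) (by decide +kernel)
              (CovZ.n2 (28512, 15120) (by decide +kernel)
               (CovZ.leaf K2_ok TD_l8438 _)
               (CovZ.leaf K2_ok TD_l8439 _))
              (CovZ.n1 (28560, 15168) (by decide +kernel)
               (CovZ.leaf K2_ok TD_l8440 _)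
               (CovZ.leaf K2_ok TD_l8441 _))))
            (CovZ.n1 (28464, 15120) (by decide +kernel)
             (CovZ.n2 (28464, 15168) (by decide +kernel)
              (CovZ.leaf K2_ok TD_l8442 _)
              (CovZ.n1 (28440, 15144) (by decide +kernel)
               (CovZ.leaf K2_ok TD_l8443 _)
               (CovZ.leaf K2_ok TD_l8444 _)))
             (CovZ.subM 7957171782556586274486115970349133441607321248720646774405523038746141714883265930788864 (by decide +kernel)
              (CovZ.n1 (28512, 15120) (by decide +kernel)
               (CovZ.n2 (28488, 15096) (by decide +kernel)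
                (CovZ.leaf K2_ok TD_l8445 _)
                (CovZ.leaf K2_ok TD_l8446 _))
               (CovZ.n1 (28488, 15144) (by decide +kernel)
                (CovZ.leaf K2_ok TD_l8447 _)
                (CovZ.leaf K2_ok TD_l8448 _)))))))))
        (CovZ.badM (by decide +kernel))))
      (CovZ.n1 (28800, 15360) (by decide +kernel)
       (CovZ.n2 (28992, 15168) (by decide +kernel)
        (CovZ.subM 8749002899140004869272565494744971577383026857014457067130209034085539254705092822846610807355146240 (by decide +kernel)
         (CovZ.n2 (28800, 15168) (by decide +kernel)
          (CovZ.n2 (28896, 15264) (by decide +kernel)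
           (CovZ.n2 (28896, 15168) (by decide +kernel)
            (CovZ.n2 (28848, 15216) (by decide +kernel)
             (CovZ.leaf K2_ok TD_l8449 _)
             (CovZ.leaf K2_ok TD_l8450 _))
            (CovZ.leaf K2_ok TD_l8451 _))
           (CovZ.leaf K2_ok TD_l8452 _))
          (CovZ.n1 (28896, 15072) (by decide +kernel)
           (CovZ.n2 (28800, 15072) (by decide +kernel)
            (CovZ.n2 (28848, 15120) (by decide +kernel)
             (CovZ.n2 (28848, 15072) (by decide +kernel)
              (CovZ.leaf K2_ok TD_l8453 _)
              (CovZ.leaf K2_ok TD_l8454 _))
             (CovZ.leaf K2_ok TD_l8455 _))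
            (CovZ.n1 (28848, 15024) (by decide +kernel)
             (CovZ.n2 (28800, 15024) (by decide +kernel)
              (CovZ.leaf K2_ok TD_l8456 _)
              (CovZ.n1 (28824, 15000) (by decide +kernel)
               (CovZ.leaf K2_ok TD_l18497 _)
               (CovZ.leaf K2_ok TD_l8457 _)))
             (CovZ.n1 (28848, 15072) (by decide +kernel)
              (CovZ.leaf K2_ok TD_l8458 _)
              (CovZ.leaf K2_ok TD_l8459 _))))
           (CovZ.n1 (28896, 15168) (by decide +kernel)
            (CovZ.n2 (28944, 15120) (by decide +kernel)
             (CovZ.leaf K2_ok TD_l8460 _)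
             (CovZ.leaf K2_ok TD_l8461 _))
            (CovZ.n1 (28848, 15120) (by decide +kernel)
             (CovZ.leaf K2_ok TD_l8462 _)
             (CovZ.leaf K2_ok TD_l8463 _))))))
        (CovZ.n1 (28992, 15360) (by decide +kernel)
         (CovZ.n2 (29088, 15264) (by decide +kernel)
          (CovZ.leaf K2_ok TD_l8464 _)
          (CovZ.n1 (29088, 15360) (by decide +kernel)
           (CovZ.leaf K2_ok TD_l8465 _)
           (CovZ.leaf K2_ok TD_l8466 _)))
         (CovZ.subM 8749002899140004869272565494744971577383026857014457067130209034085539254705092822846610807355147264 (by decide +kernel)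
          (CovZ.n1 (28896, 15264) (by decide +kernel)
           (CovZ.n2 (28896, 15360) (by decide +kernel)
            (CovZ.leaf K2_ok TD_l8467 _)
            (CovZ.leaf K2_ok TD_l8468 _))
           (CovZ.n1 (28992, 15264) (by decide +kernel)
            (CovZ.n2 (28944, 15216) (by decide +kernel)
             (CovZ.leaf K2_ok TD_l8469 _)
             (CovZ.leaf K2_ok TD_l8470 _))
            (CovZ.leaf K2_ok TD_l8471 _))))))
       (CovZ.subM 8749002899140004869272565494744971577383026857014457067130209034085539254705092822846610807355179008 (by decide +kernel)
        (CovZ.n1 (28608, 15168) (by decide +kernel)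
         (CovZ.n2 (28608, 15360) (by decide +kernel)
          (CovZ.n2 (28704, 15264) (by decide +kernel)
           (CovZ.n2 (28608, 15264) (by decide +kernel)
            (CovZ.leaf K2_ok TD_l8472 _)
            (CovZ.leaf K2_ok TD_l8473 _))
           (CovZ.n1 (28704, 15360) (by decide +kernel)
            (CovZ.leaf K2_ok TD_l8474 _)
            (CovZ.n1 (28656, 15312) (by decide +kernel)
             (CovZ.leaf K2_ok TD_l8475 _)
             (CovZ.leaf K2_ok TD_l8476 _))))
          (CovZ.n1 (28512, 15264) (by decide +kernel)
           (CovZ.n2 (28512, 15360) (by decide +kernel)
            (CovZ.leaf K2_ok TD_l8477 _)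
            (CovZ.n1 (28464, 15312) (by decide +kernel)
             (CovZ.leaf K2_ok TD_l8478 _)
             (CovZ.leaf K2_ok TD_l8479 _)))
           (CovZ.n1 (28608, 15264) (by decide +kernel)
            (CovZ.n2 (28560, 15216) (by decide +kernel)
             (CovZ.leaf K2_ok TD_l8480 _)
             (CovZ.leaf K2_ok TD_l8481 _))
            (CovZ.n1 (28560, 15312) (by decide +kernel)
             (CovZ.leaf K2_ok TD_l8482 _)
             (CovZ.leaf K2_ok TD_l8483 _)))))
         (CovZ.n1 (28800, 15168) (by decide +kernel)
          (CovZ.n2 (28704, 15072) (by decide +kernel)
           (CovZ.n2 (28704, 15168) (by decide +kernel)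
            (CovZ.n2 (28752, 15120) (by decide +kernel)
             (CovZ.leaf K2_ok TD_l8484 _)
             (CovZ.n1 (28752, 15168) (by decide +kernel)
              (CovZ.leaf K2_ok TD_l8485 _)
              (CovZ.leaf K2_ok TD_l8486 _)))
            (CovZ.subM 7957171782556586274486115970349133441607321248720646774405523038746141714883265930788864 (by decide +kernel)
             (CovZ.n1 (28656, 15120) (by decide +kernel)
              (CovZ.n2 (28656, 15168) (by decide +kernel)
               (CovZ.leaf K2_ok TD_l8487 _)
               (CovZ.leaf K2_ok TD_l8488 _))
              (CovZ.n1 (28704, 15120) (by decide +kernel)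
               (CovZ.leaf K2_ok TD_l8489 _)
               (CovZ.leaf K2_ok TD_l8490 _)))))
           (CovZ.n1 (28800, 15072) (by decide +kernel)
            (CovZ.subM 7957171782556586274486115970349133441607298412757563479047423630290551952200534008594432 (by decide +kernel)
             (CovZ.n2 (28752, 15024) (by decide +kernel)
              (CovZ.n2 (28752, 15072) (by decide +kernel)
               (CovZ.leaf K2_ok TD_l8491 _)
               (CovZ.n1 (28728, 15048) (by decide +kernel)
                (CovZ.leaf K2_ok TD_l8492 _)
                (CovZ.leaf K2_ok TD_l8493 _)))
              (CovZ.n1 (28800, 15024) (by decide +kernel)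
               (CovZ.n2 (28776, 15000) (by decide +kernel)
                (CovZ.leaf K2_ok TD_l18498 _)
                (CovZ.leaf K2_ok TD_l18499 _))
               (CovZ.n1 (28776, 15048) (by decide +kernel)
                (CovZ.leaf K2_ok TD_l8494 _)
                (CovZ.leaf K2_ok TD_l8495 _)))))
            (CovZ.n1 (28752, 15120) (by decide +kernel)
             (CovZ.n2 (28800, 15120) (by decide +kernel)
              (CovZ.leaf K2_ok TD_l8496 _)
              (CovZ.leaf K2_ok TD_l8497 _))
             (CovZ.n1 (28752, 15072) (by decide +kernel)
              (CovZ.leaf K2_ok TD_l8498 _)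
              (CovZ.leaf K2_ok TD_l8499 _)))))
          (CovZ.n1 (28704, 15264) (by decide +kernel)
           (CovZ.n2 (28800, 15264) (by decide +kernel)
            (CovZ.n2 (28752, 15216) (by decide +kernel)
             (CovZ.leaf K2_ok TD_l8500 _)
             (CovZ.leaf K2_ok TD_l8501 _))
            (CovZ.leaf K2_ok TD_l8502 _))
           (CovZ.n1 (28704, 15168) (by decide +kernel)
            (CovZ.n2 (28656, 15216) (by decide +kernel)
             (CovZ.leaf K2_ok TD_l8503 _)
             (CovZ.n1 (28656, 15168) (by decide +kernel)
              (CovZ.leaf K2_ok TD_l8504 _)
              (CovZ.leaf K2_ok TD_l8505 _)))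
            (CovZ.n1 (28752, 15216) (by decide +kernel)
             (CovZ.leaf K2_ok TD_l8506 _)
             (CovZ.leaf K2_ok TD_l8507 _)))))))))

theorem TD_u1 : CovZ TD_M (toL (selN TD_LN 8749002899140999515745385068029282341879320498694657985141142949487986747878609515236699118053196800)) [0, 7, 6, 1] (28416, 15360) (27648, 15360) (28416, 14592) :=
    (CovZ.subM 8749002899140999515745385068029282341879320498694657979432152178581070473908908395382158063470477312 (by decide +kernel)
      (CovZ.n1 (28032, 14976) (by decide +kernel)
       (CovZ.n2 (28032, 15360) (by decide +kernel)
        (CovZ.n2 (28224, 15168) (by decide +kernel)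
         (CovZ.subM 8749002899140004869272565494744971577383026857014457066951803072414217517360369756038175424224722944 (by decide +kernel)
          (CovZ.n2 (28032, 15168) (by decide +kernel)
           (CovZ.n2 (28128, 15264) (by decide +kernel)
            (CovZ.n2 (28128, 15168) (by decide +kernel)
             (CovZ.n2 (28080, 15216) (by decide +kernel)
              (CovZ.n2 (28128, 15216) (by decide +kernel)
               (CovZ.badM (by decide +kernel))
               (CovZ.n1 (28104, 15240) (by decide +kernel)
                (CovZ.leaf K2_ok TD_l17412 _)
                (CovZ.badM (by decide +kernel))))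
              (CovZ.badM (by decide +kernel)))
             (CovZ.n1 (28176, 15216) (by decide +kernel)
              (CovZ.badM (by decide +kernel))
              (CovZ.n1 (28128, 15216) (by decide +kernel)
               (CovZ.n2 (28152, 15240) (by decide +kernel)
                (CovZ.leaf K2_ok TD_l17413 _)
                (CovZ.leaf K2_ok TD_l17414 _))
               (CovZ.badM (by decide +kernel)))))
            (CovZ.n1 (28032, 15264) (by decide +kernel)
             (CovZ.n2 (28080, 15312) (by decide +kernel)
              (CovZ.n2 (28080, 15264) (by decide +kernel)
               (CovZ.n2 (28056, 15288) (by decide +kernel)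
                (CovZ.leaf K2_ok TD_l17415 _)
                (CovZ.leaf K2_ok TD_l17416 _))
               (CovZ.leaf K2_ok TD_l17417 _))
              (CovZ.n1 (28032, 15312) (by decide +kernel)
               (CovZ.leaf K2_ok TD_l8508 _)
               (CovZ.leaf K2_ok TD_l17418 _)))
             (CovZ.n1 (28080, 15216) (by decide +kernel)
              (CovZ.badM (by decide +kernel))
              (CovZ.n1 (28080, 15264) (by decide +kernel)
               (CovZ.leaf K2_ok TD_l17419 _)
               (CovZ.n1 (28056, 15240) (by decide +kernel)
                (CovZ.leaf K2_ok TD_l17420 _)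
                (CovZ.leaf K2_ok TD_l17421 _))))))
           (CovZ.badM (by decide +kernel))))
         (CovZ.n1 (28224, 15360) (by decide +kernel)
          (CovZ.n2 (28320, 15264) (by decide +kernel)
           (CovZ.subM 8749002899140004869272565494744971577383026857014457066951803072414217517360369756038175424224722944 (by decide +kernel)
            (CovZ.n2 (28224, 15264) (by decide +kernel)
             (CovZ.n2 (28272, 15312) (by decide +kernel)
              (CovZ.n2 (28272, 15264) (by decide +kernel)
               (CovZ.leaf K2_ok TD_l8509 _)
               (CovZ.leaf K2_ok TD_l8510 _))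
              (CovZ.leaf K2_ok TD_l8511 _))
             (CovZ.n1 (28272, 15216) (by decide +kernel)
              (CovZ.n2 (28224, 15216) (by decide +kernel)
               (CovZ.leaf K2_ok TD_l17422 _)
               (CovZ.leaf K2_ok TD_l17423 _))
              (CovZ.n1 (28272, 15264) (by decide +kernel)
               (CovZ.leaf K2_ok TD_l8512 _)
               (CovZ.n1 (28248, 15240) (by decide +kernel)
                (CovZ.leaf K2_ok TD_l8513 _)
                (CovZ.leaf K2_ok TD_l8514 _))))))
           (CovZ.n1 (28320, 15360) (by decide +kernel)
            (CovZ.n2 (28368, 15312) (by decide +kernel)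
             (CovZ.leaf K2_ok TD_l8515 _)
             (CovZ.leaf K2_ok TD_l8516 _))
            (CovZ.n1 (28272, 15312) (by decide +kernel)
             (CovZ.leaf K2_ok TD_l8517 _)
             (CovZ.n1 (28320, 15312) (by decide +kernel)
              (CovZ.leaf K2_ok TD_l8518 _)
              (CovZ.leaf K2_ok TD_l8519 _)))))
          (CovZ.subM 8749002899140004869272565494744971577383026857014457066951803072414217517360369756038175424224722944 (by decide +kernel)
           (CovZ.n1 (28128, 15264) (by decide +kernel)
            (CovZ.n2 (28128, 15360) (by decide +kernel)
             (CovZ.n2 (28176, 15312) (by decide +kernel)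
              (CovZ.leaf K2_ok TD_l8520 _)
              (CovZ.n1 (28176, 15360) (by decide +kernel)
               (CovZ.leaf K2_ok TD_l8521 _)
               (CovZ.leaf K2_ok TD_l8522 _)))
             (CovZ.n1 (28080, 15312) (by decide +kernel)
              (CovZ.n2 (28080, 15360) (by decide +kernel)
               (CovZ.leaf K2_ok TD_l8523 _)
               (CovZ.leaf K2_ok TD_l8524 _))
              (CovZ.n1 (28128, 15312) (by decide +kernel)
               (CovZ.n2 (28104, 15288) (by decide +kernel)
                (CovZ.leaf K2_ok TD_l8525 _)
                (CovZ.leaf K2_ok TD_l8526 _))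
               (CovZ.leaf K2_ok TD_l8527 _))))
            (CovZ.n1 (28224, 15264) (by decide +kernel)
             (CovZ.n2 (28176, 15216) (by decide +kernel)
              (CovZ.n2 (28176, 15264) (by decide +kernel)
               (CovZ.leaf K2_ok TD_l17424 _)
               (CovZ.n1 (28152, 15240) (by decide +kernel)
                (CovZ.leaf K2_ok TD_l17425 _)
                (CovZ.leaf K2_ok TD_l17426 _)))
              (CovZ.n1 (28224, 15216) (by decide +kernel)
               (CovZ.n2 (28200, 15192) (by decide +kernel)
                (CovZ.leaf K2_ok TD_l17427 _)
                (CovZ.leaf K2_ok TD_l17428 _))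
               (CovZ.n1 (28200, 15240) (by decide +kernel)
                (CovZ.leaf K2_ok TD_l17429 _)
                (CovZ.leaf K2_ok TD_l17430 _))))
             (CovZ.n1 (28176, 15312) (by decide +kernel)
              (CovZ.n2 (28224, 15312) (by decide +kernel)
               (CovZ.leaf K2_ok TD_l8528 _)
               (CovZ.leaf K2_ok TD_l8529 _))
              (CovZ.n1 (28176, 15264) (by decide +kernel)
               (CovZ.leaf K2_ok TD_l8530 _)
               (CovZ.leaf K2_ok TD_l8531 _))))))))
        (CovZ.n1 (27840, 15168) (by decide +kernel)
         (CovZ.n2 (27840, 15360) (by decide +kernel)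
          (CovZ.subM 8749002899140004869272565494744971577383026857014457066951803072414217517360369756038175424224722944 (by decide +kernel)
           (CovZ.n2 (27936, 15264) (by decide +kernel)
            (CovZ.n2 (27840, 15264) (by decide +kernel)
             (CovZ.n2 (27888, 15312) (by decide +kernel)
              (CovZ.badM (by decide +kernel))
              (CovZ.n1 (27840, 15312) (by decide +kernel)
               (CovZ.leaf K2_ok TD_l17431 _)
               (CovZ.badM (by decide +kernel))))
             (CovZ.badM (by decide +kernel)))
            (CovZ.n1 (27936, 15360) (by decide +kernel)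
             (CovZ.n2 (27984, 15312) (by decide +kernel)
              (CovZ.n2 (27936, 15312) (by decide +kernel)
               (CovZ.leaf K2_ok TD_l17432 _)
               (CovZ.leaf K2_ok TD_l17433 _))
              (CovZ.n1 (27984, 15360) (by decide +kernel)
               (CovZ.leaf K2_ok TD_l8532 _)
               (CovZ.n1 (27960, 15336) (by decide +kernel)
                (CovZ.leaf K2_ok TD_l17434 _)
                (CovZ.leaf K2_ok TD_l17435 _))))
             (CovZ.n1 (27888, 15312) (by decide +kernel)
              (CovZ.n2 (27888, 15360) (by decide +kernel)
               (CovZ.leaf K2_ok TD_l17436 _)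
               (CovZ.n1 (27864, 15336) (by decide +kernel)
                (CovZ.leaf K2_ok TD_l17437 _)
                (CovZ.leaf K2_ok TD_l17438 _)))
              (CovZ.n1 (27936, 15312) (by decide +kernel)
               (CovZ.n2 (27912, 15288) (by decide +kernel)
                (CovZ.leaf K2_ok TD_l17439 _)
                (CovZ.leaf K2_ok TD_l17440 _))
               (CovZ.n1 (27912, 15336) (by decide +kernel)
                (CovZ.leaf K2_ok TD_l17441 _)
                (CovZ.leaf K2_ok TD_l17442 _)))))))
          (CovZ.subM 8749002899140004869272565494744971577383026857014457066952151521557944558346956251636185554873253888 (by decide +kernel)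
           (CovZ.n1 (27744, 15264) (by decide +kernel)
            (CovZ.n2 (27744, 15360) (by decide +kernel)
             (CovZ.n2 (27792, 15312) (by decide +kernel)
              (CovZ.badM (by decide +kernel))
              (CovZ.n1 (27792, 15360) (by decide +kernel)
               (CovZ.leaf K2_ok TD_l17443 _)
               (CovZ.n1 (27768, 15336) (by decide +kernel)
                (CovZ.leaf K2_ok TD_l17444 _)
                (CovZ.leaf K2_ok TD_l17445 _))))
             (CovZ.n1 (27696, 15312) (by decide +kernel)
              (CovZ.n2 (27696, 15360) (by decide +kernel)
               (CovZ.badM (by decide +kernel))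
               (CovZ.n1 (27672, 15336) (by decide +kernel)
                (CovZ.n2 (27672, 15360) (by decide +kernel)
                 (CovZ.badM (by decide +kernel))
                 (CovZ.badM (by decide +kernel)))
                (CovZ.badM (by decide +kernel))))
              (CovZ.badM (by decide +kernel))))
            (CovZ.n1 (27840, 15264) (by decide +kernel)
             (CovZ.badM (by decide +kernel))
             (CovZ.n1 (27792, 15312) (by decide +kernel)
              (CovZ.n2 (27840, 15312) (by decide +kernel)
               (CovZ.badM (by decide +kernel))
               (CovZ.n1 (27816, 15336) (by decide +kernel)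
                (CovZ.leaf K2_ok TD_l17447 _)
                (CovZ.n1 (27816, 15312) (by decide +kernel)
                 (CovZ.leaf K2_ok TD_l18500 _)
                 (CovZ.leaf K2_ok TD_l18501 _))))
              (CovZ.badM (by decide +kernel)))))))
         (CovZ.subM 8749002899140004869272565494744971577383026857014457066951803072414217517360369756038175424224722944 (by decide +kernel)
          (CovZ.n1 (28032, 15168) (by decide +kernel)
           (CovZ.badM (by decide +kernel))
           (CovZ.n1 (27936, 15264) (by decide +kernel)
            (CovZ.n2 (28032, 15264) (by decide +kernel)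
             (CovZ.badM (by decide +kernel))
             (CovZ.n1 (27984, 15312) (by decide +kernel)
              (CovZ.n2 (28032, 15312) (by decide +kernel)
               (CovZ.n2 (28008, 15288) (by decide +kernel)
                (CovZ.leaf K2_ok TD_l17448 _)
                (CovZ.leaf K2_ok TD_l17449 _))
               (CovZ.leaf K2_ok TD_l8533 _))
              (CovZ.n1 (27984, 15264) (by decide +kernel)
               (CovZ.n2 (27960, 15288) (by decide +kernel)
                (CovZ.leaf K2_ok TD_l17450 _)
                (CovZ.badM (by decide +kernel)))
               (CovZ.leaf K2_ok TD_l17451 _))))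
            (CovZ.badM (by decide +kernel)))))))
       (CovZ.n1 (28416, 14976) (by decide +kernel)
        (CovZ.badM (by decide +kernel))
        (CovZ.n1 (28224, 15168) (by decide +kernel)
         (CovZ.n2 (28416, 15168) (by decide +kernel)
          (CovZ.subM 7957171782556586274486115970349133441607298412757563479047426106170630522961083806875648 (by decide +kernel)
           (CovZ.n2 (28320, 15072) (by decide +kernel)
            (CovZ.n2 (28320, 15168) (by decide +kernel)
             (CovZ.n2 (28368, 15120) (by decide +kernel)
              (CovZ.badM (by decide +kernel))
              (CovZ.n1 (28368, 15168) (by decide +kernel)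
               (CovZ.leaf K2_ok TD_l8534 _)
               (CovZ.n1 (28344, 15144) (by decide +kernel)
                (CovZ.leaf K2_ok TD_l8535 _)
                (CovZ.leaf K2_ok TD_l8536 _))))
             (CovZ.badM (by decide +kernel)))
            (CovZ.n1 (28416, 15072) (by decide +kernel)
             (CovZ.badM (by decide +kernel))
             (CovZ.n1 (28368, 15120) (by decide +kernel)
              (CovZ.n2 (28416, 15120) (by decide +kernel)
               (CovZ.badM (by decide +kernel))
               (CovZ.n1 (28392, 15144) (by decide +kernel)
                (CovZ.leaf K2_ok TD_l8537 _)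
                (CovZ.badM (by decide +kernel))))
              (CovZ.badM (by decide +kernel))))))
          (CovZ.n1 (28320, 15264) (by decide +kernel)
           (CovZ.n2 (28416, 15264) (by decide +kernel)
            (CovZ.subM 7957171782556586274486115970349133441607321248720646774405523038746141714883265930821632 (by decide +kernel)
             (CovZ.n2 (28368, 15216) (by decide +kernel)
              (CovZ.n2 (28368, 15264) (by decide +kernel)
               (CovZ.leaf K2_ok TD_l8538 _)
               (CovZ.leaf K2_ok TD_l8539 _))
              (CovZ.n1 (28416, 15216) (by decide +kernel)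
               (CovZ.leaf K2_ok TD_l8540 _)
               (CovZ.leaf K2_ok TD_l8541 _))))
            (CovZ.n1 (28368, 15312) (by decide +kernel)
             (CovZ.leaf K2_ok TD_l8542 _)
             (CovZ.n1 (28368, 15264) (by decide +kernel)
              (CovZ.leaf K2_ok TD_l8543 _)
              (CovZ.leaf K2_ok TD_l8544 _))))
           (CovZ.subM 7957171782556586274486115970349133441607321248720646774405523038746141714883265930821632 (by decide +kernel)
            (CovZ.n1 (28320, 15168) (by decide +kernel)
             (CovZ.n2 (28272, 15216) (by decide +kernel)
              (CovZ.n2 (28320, 15216) (by decide +kernel)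
               (CovZ.n2 (28296, 15192) (by decide +kernel)
                (CovZ.leaf K2_ok TD_l8545 _)
                (CovZ.leaf K2_ok TD_l8546 _))
               (CovZ.leaf K2_ok TD_l8547 _))
              (CovZ.n1 (28272, 15168) (by decide +kernel)
               (CovZ.n2 (28248, 15192) (by decide +kernel)
                (CovZ.leaf K2_ok TD_l17452 _)
                (CovZ.badM (by decide +kernel)))
               (CovZ.leaf K2_ok TD_l8548 _)))
             (CovZ.n1 (28368, 15216) (by decide +kernel)
              (CovZ.n2 (28368, 15168) (by decide +kernel)
               (CovZ.n2 (28344, 15192) (by decide +kernel)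
                (CovZ.leaf K2_ok TD_l8549 _)
                (CovZ.leaf K2_ok TD_l8550 _))
               (CovZ.leaf K2_ok TD_l8551 _))
              (CovZ.leaf K2_ok TD_l8552 _))))))
         (CovZ.badM (by decide +kernel))))))

theorem TD_u2 : CovZ TD_M (toL (selN TD_LN 8749002899140004869272565494758775070076607984589326584563753855814280996882577473754986770077910144)) [0, 7, 6, 1] (30720, 13824) (30720, 14592) (29952, 14592) :=
    (CovZ.subM 7957171782556586274486115970349133441607326957711417598245044796009940942173630407704576 (by decide +kernel)
      (CovZ.n2 (30336, 14208) (by decide +kernel)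
       (CovZ.n2 (30336, 14592) (by decide +kernel)
        (CovZ.n2 (30528, 14400) (by decide +kernel)
         (CovZ.n2 (30336, 14400) (by decide +kernel)
          (CovZ.n2 (30432, 14496) (by decide +kernel)
           (CovZ.badM (by decide +kernel))
           (CovZ.n1 (30336, 14496) (by decide +kernel)
            (CovZ.n2 (30384, 14544) (by decide +kernel)
             (CovZ.badM (by decide +kernel))
             (CovZ.n1 (30336, 14544) (by decide +kernel)
              (CovZ.leaf K2_ok TD_l10351 _)
              (CovZ.badM (by decide +kernel))))
            (CovZ.badM (by decide +kernel))))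
          (CovZ.badM (by decide +kernel)))
         (CovZ.n1 (30528, 14592) (by decide +kernel)
          (CovZ.n2 (30624, 14496) (by decide +kernel)
           (CovZ.n2 (30528, 14496) (by decide +kernel)
            (CovZ.n2 (30576, 14544) (by decide +kernel)
             (CovZ.n2 (30576, 14496) (by decide +kernel)
              (CovZ.leaf K2_ok TD_l10353 _)
              (CovZ.leaf K2_ok TD_l10354 _))
             (CovZ.leaf K2_ok TD_l10355 _))
            (CovZ.n1 (30576, 14448) (by decide +kernel)
             (CovZ.badM (by decide +kernel))
             (CovZ.n1 (30576, 14496) (by decide +kernel)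
              (CovZ.leaf K2_ok TD_l10357 _)
              (CovZ.n1 (30552, 14472) (by decide +kernel)
               (CovZ.leaf K2_ok TD_l10358 _)
               (CovZ.leaf K2_ok TD_l10359 _)))))
           (CovZ.n1 (30624, 14592) (by decide +kernel)
            (CovZ.n2 (30672, 14544) (by decide +kernel)
             (CovZ.leaf K2_ok TD_l10360 _)
             (CovZ.leaf K2_ok TD_l10361 _))
            (CovZ.n1 (30576, 14544) (by decide +kernel)
             (CovZ.n2 (30576, 14592) (by decide +kernel)
              (CovZ.leaf K2_ok TD_l10362 _)
              (CovZ.leaf K2_ok TD_l10363 _))
             (CovZ.n1 (30624, 14544) (by decide +kernel)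
              (CovZ.leaf K2_ok TD_l10364 _)
              (CovZ.leaf K2_ok TD_l10365 _)))))
          (CovZ.n1 (30432, 14496) (by decide +kernel)
           (CovZ.n2 (30432, 14592) (by decide +kernel)
            (CovZ.n2 (30480, 14544) (by decide +kernel)
             (CovZ.leaf K2_ok TD_l10366 _)
             (CovZ.n1 (30480, 14592) (by decide +kernel)
              (CovZ.leaf K2_ok TD_l10367 _)
              (CovZ.leaf K2_ok TD_l10368 _)))
            (CovZ.n1 (30384, 14544) (by decide +kernel)
             (CovZ.n2 (30384, 14592) (by decide +kernel)
              (CovZ.leaf K2_ok TD_l10369 _)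
              (CovZ.leaf K2_ok TD_l10370 _))
             (CovZ.n1 (30432, 14544) (by decide +kernel)
              (CovZ.n2 (30408, 14520) (by decide +kernel)
               (CovZ.leaf K2_ok TD_l10371 _)
               (CovZ.leaf K2_ok TD_l10372 _))
              (CovZ.leaf K2_ok TD_l10373 _))))
           (CovZ.n1 (30528, 14496) (by decide +kernel)
            (CovZ.badM (by decide +kernel))
            (CovZ.n1 (30480, 14544) (by decide +kernel)
             (CovZ.n2 (30528, 14544) (by decide +kernel)
              (CovZ.n2 (30504, 14520) (by decide +kernel)
               (CovZ.leaf K2_ok TD_l10378 _)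
               (CovZ.leaf K2_ok TD_l10379 _))
              (CovZ.leaf K2_ok TD_l10380 _))
             (CovZ.n1 (30480, 14496) (by decide +kernel)
              (CovZ.n2 (30456, 14520) (by decide +kernel)
               (CovZ.leaf K2_ok TD_l10381 _)
               (CovZ.badM (by decide +kernel)))
              (CovZ.leaf K2_ok TD_l10383 _)))))))
        (CovZ.n1 (30144, 14400) (by decide +kernel)
         (CovZ.n2 (30144, 14592) (by decide +kernel)
          (CovZ.n2 (30240, 14496) (by decide +kernel)
           (CovZ.badM (by decide +kernel))
           (CovZ.n1 (30240, 14592) (by decide +kernel)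
            (CovZ.n2 (30288, 14544) (by decide +kernel)
             (CovZ.n2 (30240, 14544) (by decide +kernel)
              (CovZ.leaf K2_ok TD_l10385 _)
              (CovZ.badM (by decide +kernel)))
             (CovZ.n1 (30288, 14592) (by decide +kernel)
              (CovZ.leaf K2_ok TD_l10387 _)
              (CovZ.n1 (30264, 14568) (by decide +kernel)
               (CovZ.leaf K2_ok TD_l10388 _)
               (CovZ.leaf K2_ok TD_l10389 _))))
            (CovZ.n1 (30192, 14544) (by decide +kernel)
             (CovZ.n2 (30192, 14592) (by decide +kernel)
              (CovZ.leaf K2_ok TD_l10390 _)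
              (CovZ.badM (by decide +kernel)))
             (CovZ.n1 (30240, 14544) (by decide +kernel)
              (CovZ.badM (by decide +kernel))
              (CovZ.n1 (30216, 14568) (by decide +kernel)
               (CovZ.leaf K2_ok TD_l10393 _)
               (CovZ.badM (by decide +kernel)))))))
          (CovZ.n1 (30048, 14496) (by decide +kernel)
           (CovZ.n2 (30048, 14592) (by decide +kernel)
            (CovZ.badM (by decide +kernel))
            (CovZ.badM (by decide +kernel)))
           (CovZ.badM (by decide +kernel))))
         (CovZ.n1 (30336, 14400) (by decide +kernel)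
          (CovZ.badM (by decide +kernel))
          (CovZ.n1 (30240, 14496) (by decide +kernel)
           (CovZ.n2 (30336, 14496) (by decide +kernel)
            (CovZ.badM (by decide +kernel))
            (CovZ.n1 (30288, 14544) (by decide +kernel)
             (CovZ.n2 (30336, 14544) (by decide +kernel)
              (CovZ.badM (by decide +kernel))
              (CovZ.n1 (30312, 14568) (by decide +kernel)
               (CovZ.leaf K2_ok TD_l10398 _)
               (CovZ.badM (by decide +kernel))))
             (CovZ.badM (by decide +kernel))))
           (CovZ.badM (by decide +kernel))))))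
       (CovZ.n1 (30720, 14208) (by decide +kernel)
        (CovZ.badM (by decide +kernel))
        (CovZ.n1 (30528, 14400) (by decide +kernel)
         (CovZ.n2 (30720, 14400) (by decide +kernel)
          (CovZ.badM (by decide +kernel))
          (CovZ.n1 (30624, 14496) (by decide +kernel)
           (CovZ.n2 (30720, 14496) (by decide +kernel)
            (CovZ.n2 (30672, 14448) (by decide +kernel)
             (CovZ.n2 (30672, 14496) (by decide +kernel)
              (CovZ.leaf K2_ok TD_l10402 _)
              (CovZ.n1 (30648, 14472) (by decide +kernel)
               (CovZ.leaf K2_ok TD_l10403 _)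
               (CovZ.leaf K2_ok TD_l10404 _)))
             (CovZ.n1 (30720, 14448) (by decide +kernel)
              (CovZ.badM (by decide +kernel))
              (CovZ.leaf K2_ok TD_l10407 _)))
            (CovZ.n1 (30672, 14544) (by decide +kernel)
             (CovZ.n2 (30720, 14544) (by decide +kernel)
              (CovZ.leaf K2_ok TD_l10408 _)
              (CovZ.leaf K2_ok TD_l10409 _))
             (CovZ.n1 (30672, 14496) (by decide +kernel)
              (CovZ.leaf K2_ok TD_l10410 _)
              (CovZ.leaf K2_ok TD_l10411 _))))
           (CovZ.n1 (30624, 14400) (by decide +kernel)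
            (CovZ.n2 (30576, 14448) (by decide +kernel)
             (CovZ.n2 (30624, 14448) (by decide +kernel)
              (CovZ.badM (by decide +kernel))
              (CovZ.n1 (30600, 14472) (by decide +kernel)
               (CovZ.leaf K2_ok TD_l10414 _)
               (CovZ.badM (by decide +kernel))))
             (CovZ.badM (by decide +kernel)))
            (CovZ.n1 (30672, 14448) (by decide +kernel)
             (CovZ.badM (by decide +kernel))
             (CovZ.n1 (30624, 14448) (by decide +kernel)
              (CovZ.leaf K2_ok TD_l10420 _)
              (CovZ.badM (by decide +kernel)))))))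
         (CovZ.badM (by decide +kernel))))))

theorem TD_u3 : CovZ TD_M (toL (selN TD_LN 8749002899140004869272565494758775070076607984589326584563753855814280996882577473754986770077910144)) [0, 7, 6, 1] (30720, 14592) (30720, 15360) (29952, 14592) :=
    (CovZ.n1 (30336, 14976) (by decide +kernel)
      (CovZ.subM 8749002899132047697490008908470485461412677723572849751412073196463651523506527649262864172182470784 (by decide +kernel)
       (CovZ.n2 (30720, 14976) (by decide +kernel)
        (CovZ.n2 (30528, 14784) (by decide +kernel)
         (CovZ.n2 (30528, 14976) (by decide +kernel)
          (CovZ.n2 (30624, 14880) (by decide +kernel)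
           (CovZ.leaf K2_ok TD_l10423 _)
           (CovZ.leaf K2_ok TD_l10424 _))
          (CovZ.n1 (30432, 14880) (by decide +kernel)
           (CovZ.n2 (30432, 14976) (by decide +kernel)
            (CovZ.leaf K2_ok TD_l10425 _)
            (CovZ.leaf K2_ok TD_l10426 _))
           (CovZ.n1 (30528, 14880) (by decide +kernel)
            (CovZ.leaf K2_ok TD_l10427 _)
            (CovZ.leaf K2_ok TD_l10428 _))))
         (CovZ.n1 (30720, 14784) (by decide +kernel)
          (CovZ.subM 5708990770823839524233143877798050914275229696 (by decide +kernel)
           (CovZ.n2 (30624, 14688) (by decide +kernel)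
            (CovZ.n2 (30624, 14784) (by decide +kernel)
             (CovZ.leaf K2_ok TD_l10429 _)
             (CovZ.n1 (30576, 14736) (by decide +kernel)
              (CovZ.leaf K2_ok TD_l10430 _)
              (CovZ.leaf K2_ok TD_l10431 _)))
            (CovZ.n1 (30720, 14688) (by decide +kernel)
             (CovZ.n2 (30672, 14640) (by decide +kernel)
              (CovZ.leaf K2_ok TD_l10432 _)
              (CovZ.leaf K2_ok TD_l10433 _))
             (CovZ.leaf K2_ok TD_l10434 _))))
          (CovZ.n1 (30624, 14880) (by decide +kernel)
           (CovZ.n2 (30720, 14880) (by decide +kernel)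
            (CovZ.leaf K2_ok TD_l10435 _)
            (CovZ.leaf K2_ok TD_l10436 _))
           (CovZ.n1 (30624, 14784) (by decide +kernel)
            (CovZ.leaf K2_ok TD_l10437 _)
            (CovZ.leaf K2_ok TD_l10438 _)))))
        (CovZ.n1 (30528, 15168) (by decide +kernel)
         (CovZ.n2 (30720, 15168) (by decide +kernel)
          (CovZ.n2 (30624, 15072) (by decide +kernel)
           (CovZ.leaf K2_ok TD_l10439 _)
           (CovZ.leaf K2_ok TD_l10440 _))
          (CovZ.leaf K2_ok TD_l10441 _))
         (CovZ.n1 (30528, 14976) (by decide +kernel)
          (CovZ.n2 (30432, 15072) (by decide +kernel)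
           (CovZ.leaf K2_ok TD_l10442 _)
           (CovZ.leaf K2_ok TD_l10443 _))
          (CovZ.leaf K2_ok TD_l10444 _)))))
      (CovZ.subM 7957171782556586274486115970349133441607326957711417681321794532567182998661571692003328 (by decide +kernel)
       (CovZ.n1 (30336, 14592) (by decide +kernel)
        (CovZ.n2 (30144, 14784) (by decide +kernel)
         (CovZ.subM 5708990770823839524233143877798050914292006912 (by decide +kernel)
          (CovZ.n2 (30336, 14784) (by decide +kernel)
           (CovZ.n2 (30240, 14688) (by decide +kernel)
            (CovZ.n2 (30240, 14784) (by decide +kernel)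
             (CovZ.leaf K2_ok TD_l10445 _)
             (CovZ.n1 (30192, 14736) (by decide +kernel)
              (CovZ.leaf K2_ok TD_l10446 _)
              (CovZ.leaf K2_ok TD_l10447 _)))
            (CovZ.n1 (30336, 14688) (by decide +kernel)
             (CovZ.n2 (30288, 14640) (by decide +kernel)
              (CovZ.n2 (30288, 14688) (by decide +kernel)
               (CovZ.leaf K2_ok TD_l10448 _)
               (CovZ.leaf K2_ok TD_l10449 _))
              (CovZ.n1 (30336, 14640) (by decide +kernel)
               (CovZ.leaf K2_ok TD_l10450 _)
               (CovZ.leaf K2_ok TD_l10451 _)))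
             (CovZ.n1 (30288, 14736) (by decide +kernel)
              (CovZ.leaf K2_ok TD_l10452 _)
              (CovZ.leaf K2_ok TD_l10453 _))))
           (CovZ.n1 (30240, 14880) (by decide +kernel)
            (CovZ.n2 (30336, 14880) (by decide +kernel)
             (CovZ.leaf K2_ok TD_l10454 _)
             (CovZ.leaf K2_ok TD_l10455 _))
            (CovZ.n1 (30240, 14784) (by decide +kernel)
             (CovZ.n2 (30192, 14832) (by decide +kernel)
              (CovZ.leaf K2_ok TD_l10456 _)
              (CovZ.leaf K2_ok TD_l10457 _))
             (CovZ.leaf K2_ok TD_l10458 _)))))
         (CovZ.n1 (30144, 14592) (by decide +kernel)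
          (CovZ.n2 (30048, 14688) (by decide +kernel)
           (CovZ.subM 5708990770823839524233143877798050914275229696 (by decide +kernel)
            (CovZ.n2 (30144, 14688) (by decide +kernel)
             (CovZ.n2 (30096, 14640) (by decide +kernel)
              (CovZ.n2 (30096, 14688) (by decide +kernel)
               (CovZ.leaf K2_ok TD_l10459 _)
               (CovZ.leaf K2_ok TD_l10460 _))
              (CovZ.n1 (30144, 14640) (by decide +kernel)
               (CovZ.n2 (30120, 14616) (by decide +kernel)
                (CovZ.leaf K2_ok TD_l10461 _)
                (CovZ.leaf K2_ok TD_l10462 _))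
               (CovZ.leaf K2_ok TD_l10463 _)))
             (CovZ.n1 (30096, 14736) (by decide +kernel)
              (CovZ.leaf K2_ok TD_l10464 _)
              (CovZ.n1 (30096, 14688) (by decide +kernel)
               (CovZ.leaf K2_ok TD_l10465 _)
               (CovZ.leaf K2_ok TD_l10466 _)))))
           (CovZ.subM 7957171782556586274486115970349133441607304121748334302886947863434429750251448283693056 (by decide +kernel)
            (CovZ.n1 (30048, 14592) (by decide +kernel)
             (CovZ.n2 (30000, 14640) (by decide +kernel)
              (CovZ.n2 (30048, 14640) (by decide +kernel)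
               (CovZ.badM (by decide +kernel))
               (CovZ.leaf K2_ok TD_l10469 _))
              (CovZ.n1 (30000, 14592) (by decide +kernel)
               (CovZ.n2 (29976, 14616) (by decide +kernel)
                (CovZ.badM (by decide +kernel))
                (CovZ.badM (by decide +kernel)))
               (CovZ.badM (by decide +kernel))))
             (CovZ.n1 (30096, 14640) (by decide +kernel)
              (CovZ.n2 (30096, 14592) (by decide +kernel)
               (CovZ.n2 (30072, 14616) (by decide +kernel)
                (CovZ.leaf K2_ok TD_l10472 _)
                (CovZ.badM (by decide +kernel)))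
               (CovZ.leaf K2_ok TD_l10474 _))
              (CovZ.n1 (30048, 14640) (by decide +kernel)
               (CovZ.leaf K2_ok TD_l10475 _)
               (CovZ.leaf K2_ok TD_l10476 _))))))
          (CovZ.subM 5708990770823839524233143877798050914275229696 (by decide +kernel)
           (CovZ.n1 (30240, 14688) (by decide +kernel)
            (CovZ.n2 (30240, 14592) (by decide +kernel)
             (CovZ.n2 (30192, 14640) (by decide +kernel)
              (CovZ.n2 (30240, 14640) (by decide +kernel)
               (CovZ.leaf K2_ok TD_l10477 _)
               (CovZ.leaf K2_ok TD_l10478 _))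
              (CovZ.n1 (30192, 14592) (by decide +kernel)
               (CovZ.n2 (30168, 14616) (by decide +kernel)
                (CovZ.leaf K2_ok TD_l10479 _)
                (CovZ.leaf K2_ok TD_l10480 _))
               (CovZ.leaf K2_ok TD_l10481 _)))
             (CovZ.n1 (30288, 14640) (by decide +kernel)
              (CovZ.n2 (30288, 14592) (by decide +kernel)
               (CovZ.leaf K2_ok TD_l10482 _)
               (CovZ.leaf K2_ok TD_l10483 _))
              (CovZ.leaf K2_ok TD_l10484 _)))
            (CovZ.n1 (30144, 14688) (by decide +kernel)
             (CovZ.n2 (30192, 14736) (by decide +kernel)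
              (CovZ.leaf K2_ok TD_l10485 _)
              (CovZ.leaf K2_ok TD_l10486 _))
             (CovZ.n1 (30192, 14640) (by decide +kernel)
              (CovZ.n2 (30144, 14640) (by decide +kernel)
               (CovZ.leaf K2_ok TD_l10487 _)
               (CovZ.leaf K2_ok TD_l10488 _))
              (CovZ.n1 (30192, 14688) (by decide +kernel)
               (CovZ.leaf K2_ok TD_l10489 _)
               (CovZ.leaf K2_ok TD_l10490 _))))))))
        (CovZ.subM 5708990770823839524233143877798050914292006912 (by decide +kernel)
         (CovZ.n1 (30528, 14784) (by decide +kernel)
          (CovZ.n2 (30528, 14592) (by decide +kernel)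
           (CovZ.n2 (30432, 14688) (by decide +kernel)
            (CovZ.n2 (30528, 14688) (by decide +kernel)
             (CovZ.n2 (30480, 14640) (by decide +kernel)
              (CovZ.leaf K2_ok TD_l10491 _)
              (CovZ.leaf K2_ok TD_l10492 _))
             (CovZ.n1 (30480, 14736) (by decide +kernel)
              (CovZ.leaf K2_ok TD_l10493 _)
              (CovZ.leaf K2_ok TD_l10494 _)))
            (CovZ.n1 (30432, 14592) (by decide +kernel)
             (CovZ.n2 (30384, 14640) (by decide +kernel)
              (CovZ.n2 (30432, 14640) (by decide +kernel)
               (CovZ.leaf K2_ok TD_l10495 _)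
               (CovZ.leaf K2_ok TD_l10496 _))
              (CovZ.n1 (30384, 14592) (by decide +kernel)
               (CovZ.leaf K2_ok TD_l10497 _)
               (CovZ.leaf K2_ok TD_l10498 _)))
             (CovZ.n1 (30480, 14640) (by decide +kernel)
              (CovZ.n2 (30480, 14592) (by decide +kernel)
               (CovZ.leaf K2_ok TD_l10499 _)
               (CovZ.leaf K2_ok TD_l10500 _))
              (CovZ.leaf K2_ok TD_l10501 _))))
           (CovZ.n1 (30624, 14688) (by decide +kernel)
            (CovZ.n2 (30624, 14592) (by decide +kernel)
             (CovZ.n2 (30576, 14640) (by decide +kernel)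
              (CovZ.leaf K2_ok TD_l10502 _)
              (CovZ.leaf K2_ok TD_l10503 _))
             (CovZ.leaf K2_ok TD_l10504 _))
            (CovZ.n1 (30528, 14688) (by decide +kernel)
             (CovZ.leaf K2_ok TD_l10505 _)
             (CovZ.leaf K2_ok TD_l10506 _))))
          (CovZ.n1 (30336, 14784) (by decide +kernel)
           (CovZ.n2 (30432, 14880) (by decide +kernel)
            (CovZ.n2 (30432, 14784) (by decide +kernel)
             (CovZ.leaf K2_ok TD_l10507 _)
             (CovZ.leaf K2_ok TD_l10508 _))
            (CovZ.leaf K2_ok TD_l10509 _))
           (CovZ.n1 (30432, 14688) (by decide +kernel)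
            (CovZ.n2 (30336, 14688) (by decide +kernel)
             (CovZ.leaf K2_ok TD_l10510 _)
             (CovZ.n1 (30384, 14640) (by decide +kernel)
              (CovZ.leaf K2_ok TD_l10511 _)
              (CovZ.leaf K2_ok TD_l10512 _)))
            (CovZ.n1 (30432, 14784) (by decide +kernel)
             (CovZ.leaf K2_ok TD_l10513 _)
             (CovZ.n1 (30384, 14736) (by decide +kernel)
              (CovZ.leaf K2_ok TD_l10514 _)
              (CovZ.leaf K2_ok TD_l10515 _))))))))))

theorem TD_u4 : CovZ TD_M (toL (selN TD_LN 8749002899140004869272565494758775070076607984589326584563753855814280996882577473754986770077910144)) [0, 7, 6, 1] (29952, 14592) (29568, 14976) (29184, 14592) :=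
    (CovZ.n2 (29568, 14592) (by decide +kernel)
       (CovZ.n2 (29376, 14784) (by decide +kernel)
        (CovZ.subM 7957171782556586274486115970349133441607326957711417681321794532567182998661571692003328 (by decide +kernel)
         (CovZ.n2 (29568, 14784) (by decide +kernel)
          (CovZ.subM 7957171782556586274486115970349133441607304121748334302886947863434429750181079539515392 (by decide +kernel)
           (CovZ.n2 (29472, 14688) (by decide +kernel)
            (CovZ.n2 (29472, 14784) (by decide +kernel)
             (CovZ.n2 (29520, 14736) (by decide +kernel)
              (CovZ.badM (by decide +kernel))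
              (CovZ.n1 (29520, 14784) (by decide +kernel)
               (CovZ.leaf K2_ok TD_l10516 _)
               (CovZ.n1 (29496, 14760) (by decide +kernel)
                (CovZ.leaf K2_ok TD_l18633 _)
                (CovZ.leaf K2_ok TD_l18634 _))))
             (CovZ.badM (by decide +kernel)))
            (CovZ.n1 (29568, 14688) (by decide +kernel)
             (CovZ.badM (by decide +kernel))
             (CovZ.n1 (29520, 14736) (by decide +kernel)
              (CovZ.n2 (29568, 14736) (by decide +kernel)
               (CovZ.badM (by decide +kernel))
               (CovZ.n1 (29544, 14760) (by decide +kernel)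
                (CovZ.leaf K2_ok TD_l10517 _)
                (CovZ.badM (by decide +kernel))))
              (CovZ.badM (by decide +kernel))))))
          (CovZ.n1 (29472, 14880) (by decide +kernel)
           (CovZ.n2 (29568, 14880) (by decide +kernel)
            (CovZ.n2 (29520, 14832) (by decide +kernel)
             (CovZ.n2 (29520, 14880) (by decide +kernel)
              (CovZ.leaf K2_ok TD_l10519 _)
              (CovZ.leaf K2_ok TD_l10520 _))
             (CovZ.n1 (29568, 14832) (by decide +kernel)
              (CovZ.leaf K2_ok TD_l10521 _)
              (CovZ.leaf K2_ok TD_l10522 _)))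
            (CovZ.n1 (29520, 14928) (by decide +kernel)
             (CovZ.leaf K2_ok TD_l10523 _)
             (CovZ.n1 (29520, 14880) (by decide +kernel)
              (CovZ.leaf K2_ok TD_l10524 _)
              (CovZ.leaf K2_ok TD_l10525 _))))
           (CovZ.n1 (29472, 14784) (by decide +kernel)
            (CovZ.n2 (29424, 14832) (by decide +kernel)
             (CovZ.n2 (29472, 14832) (by decide +kernel)
              (CovZ.n2 (29448, 14808) (by decide +kernel)
               (CovZ.leaf K2_ok TD_l10526 _)
               (CovZ.leaf K2_ok TD_l10527 _))
              (CovZ.leaf K2_ok TD_l10528 _))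
             (CovZ.subM 7957171782556586274486115970349133441607304121748334302886947863434429750181079539515392 (by decide +kernel)
              (CovZ.n1 (29424, 14784) (by decide +kernel)
               (CovZ.n2 (29400, 14808) (by decide +kernel)
                (CovZ.leaf K2_ok TD_l10529 _)
                (CovZ.badM (by decide +kernel)))
               (CovZ.n1 (29448, 14808) (by decide +kernel)
                (CovZ.leaf K2_ok TD_l18635 _)
                (CovZ.leaf K2_ok TD_l10530 _)))))
            (CovZ.n1 (29520, 14832) (by decide +kernel)
             (CovZ.n2 (29520, 14784) (by decide +kernel)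
              (CovZ.n2 (29496, 14808) (by decide +kernel)
               (CovZ.leaf K2_ok TD_l10531 _)
               (CovZ.leaf K2_ok TD_l17959 _))
              (CovZ.leaf K2_ok TD_l10532 _))
             (CovZ.leaf K2_ok TD_l10533 _))))))
        (CovZ.badM (by decide +kernel)))
       (CovZ.subM 7957171782556586274486115970349133441607326957711417681321794532567182998661571692003328 (by decide +kernel)
        (CovZ.n1 (29760, 14784) (by decide +kernel)
         (CovZ.subM 7957171782556586274486115970349133441607304121748334302886947863434429750251448283758592 (by decide +kernel)
          (CovZ.n2 (29760, 14592) (by decide +kernel)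
           (CovZ.n2 (29664, 14688) (by decide +kernel)
            (CovZ.n2 (29760, 14688) (by decide +kernel)
             (CovZ.badM (by decide +kernel))
             (CovZ.n1 (29712, 14736) (by decide +kernel)
              (CovZ.n2 (29760, 14736) (by decide +kernel)
               (CovZ.n2 (29736, 14712) (by decide +kernel)
                (CovZ.leaf K2_ok TD_l17960 _)
                (CovZ.leaf K2_ok TD_l17961 _))
               (CovZ.leaf K2_ok TD_l10534 _))
              (CovZ.n1 (29712, 14688) (by decide +kernel)
               (CovZ.n2 (29688, 14712) (by decide +kernel)
                (CovZ.leaf K2_ok TD_l18636 _)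
                (CovZ.badM (by decide +kernel)))
               (CovZ.n1 (29736, 14712) (by decide +kernel)
                (CovZ.leaf K2_ok TD_l18637 _)
                (CovZ.leaf K2_ok TD_l18638 _)))))
            (CovZ.badM (by decide +kernel)))
           (CovZ.n1 (29856, 14688) (by decide +kernel)
            (CovZ.n2 (29856, 14592) (by decide +kernel)
             (CovZ.n2 (29808, 14640) (by decide +kernel)
              (CovZ.n2 (29856, 14640) (by decide +kernel)
               (CovZ.badM (by decide +kernel))
               (CovZ.n1 (29832, 14664) (by decide +kernel)
                (CovZ.leaf K2_ok TD_l10535 _)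
                (CovZ.badM (by decide +kernel))))
              (CovZ.badM (by decide +kernel)))
             (CovZ.n1 (29904, 14640) (by decide +kernel)
              (CovZ.badM (by decide +kernel))
              (CovZ.n1 (29856, 14640) (by decide +kernel)
               (CovZ.n2 (29880, 14664) (by decide +kernel)
                (CovZ.leaf K2_ok TD_l18639 _)
                (CovZ.leaf K2_ok TD_l10536 _))
               (CovZ.badM (by decide +kernel)))))
            (CovZ.n1 (29760, 14688) (by decide +kernel)
             (CovZ.n2 (29808, 14736) (by decide +kernel)
              (CovZ.n2 (29808, 14688) (by decide +kernel)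
               (CovZ.n2 (29784, 14712) (by decide +kernel)
                (CovZ.leaf K2_ok TD_l17962 _)
                (CovZ.leaf K2_ok TD_l18640 _))
               (CovZ.leaf K2_ok TD_l10537 _))
              (CovZ.leaf K2_ok TD_l10538 _))
             (CovZ.n1 (29808, 14640) (by decide +kernel)
              (CovZ.badM (by decide +kernel))
              (CovZ.n1 (29808, 14688) (by decide +kernel)
               (CovZ.leaf K2_ok TD_l10539 _)
               (CovZ.n1 (29784, 14664) (by decide +kernel)
                (CovZ.leaf K2_ok TD_l18641 _)
                (CovZ.leaf K2_ok TD_l18642 _))))))))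
         (CovZ.n1 (29568, 14784) (by decide +kernel)
          (CovZ.n2 (29664, 14880) (by decide +kernel)
           (CovZ.n2 (29664, 14784) (by decide +kernel)
            (CovZ.n2 (29616, 14832) (by decide +kernel)
             (CovZ.n2 (29664, 14832) (by decide +kernel)
              (CovZ.leaf K2_ok TD_l10540 _)
              (CovZ.leaf K2_ok TD_l10541 _))
             (CovZ.n1 (29616, 14784) (by decide +kernel)
              (CovZ.leaf K2_ok TD_l10542 _)
              (CovZ.leaf K2_ok TD_l10543 _)))
            (CovZ.n1 (29712, 14832) (by decide +kernel)
             (CovZ.n2 (29712, 14784) (by decide +kernel)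
              (CovZ.leaf K2_ok TD_l10544 _)
              (CovZ.leaf K2_ok TD_l10545 _))
             (CovZ.leaf K2_ok TD_l10546 _)))
           (CovZ.n1 (29568, 14880) (by decide +kernel)
            (CovZ.n2 (29616, 14928) (by decide +kernel)
             (CovZ.n2 (29616, 14880) (by decide +kernel)
              (CovZ.leaf K2_ok TD_l10547 _)
              (CovZ.leaf K2_ok TD_l10548 _))
             (CovZ.leaf K2_ok TD_l10549 _))
            (CovZ.n1 (29616, 14832) (by decide +kernel)
             (CovZ.leaf K2_ok TD_l10550 _)
             (CovZ.n1 (29616, 14880) (by decide +kernel)
              (CovZ.leaf K2_ok TD_l10551 _)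
              (CovZ.leaf K2_ok TD_l10552 _)))))
          (CovZ.subM 7957171782556586274486115970349133441607304121748334302886947863434429750251448283758592 (by decide +kernel)
           (CovZ.n1 (29664, 14688) (by decide +kernel)
            (CovZ.n2 (29568, 14688) (by decide +kernel)
             (CovZ.n2 (29616, 14736) (by decide +kernel)
              (CovZ.badM (by decide +kernel))
              (CovZ.n1 (29568, 14736) (by decide +kernel)
               (CovZ.leaf K2_ok TD_l10553 _)
               (CovZ.badM (by decide +kernel))))
             (CovZ.badM (by decide +kernel)))
            (CovZ.n1 (29664, 14784) (by decide +kernel)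
             (CovZ.n2 (29712, 14736) (by decide +kernel)
              (CovZ.n2 (29664, 14736) (by decide +kernel)
               (CovZ.leaf K2_ok TD_l10554 _)
               (CovZ.leaf K2_ok TD_l18643 _))
              (CovZ.n1 (29712, 14784) (by decide +kernel)
               (CovZ.leaf K2_ok TD_l10555 _)
               (CovZ.leaf K2_ok TD_l10556 _)))
             (CovZ.n1 (29616, 14736) (by decide +kernel)
              (CovZ.n2 (29616, 14784) (by decide +kernel)
               (CovZ.leaf K2_ok TD_l10557 _)
               (CovZ.n1 (29592, 14760) (by decide +kernel)
                (CovZ.leaf K2_ok TD_l10558 _)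
                (CovZ.leaf K2_ok TD_l10559 _)))
              (CovZ.n1 (29664, 14736) (by decide +kernel)
               (CovZ.n2 (29640, 14712) (by decide +kernel)
                (CovZ.leaf K2_ok TD_l18644 _)
                (CovZ.leaf K2_ok TD_l18645 _))
               (CovZ.n1 (29640, 14760) (by decide +kernel)
                (CovZ.leaf K2_ok TD_l10560 _)
                (CovZ.leaf K2_ok TD_l10561 _)))))))))))

theorem TD_u5 : CovZ TD_M (toL (selN TD_LN 8749002899140004869272565494758775070076607984589326584563753855814280996882577473754986770077910144)) [0, 7, 6, 1] (29568, 14976) (29184, 15360) (29184, 14592) :=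
    (CovZ.n1 (29184, 14976) (by decide +kernel)
       (CovZ.n2 (29376, 15168) (by decide +kernel)
        (CovZ.n2 (29376, 14976) (by decide +kernel)
         (CovZ.n2 (29280, 15072) (by decide +kernel)
          (CovZ.n2 (29376, 15072) (by decide +kernel)
           (CovZ.n2 (29328, 15024) (by decide +kernel)
            (CovZ.leaf K2_ok TD_l10562 _)
            (CovZ.leaf K2_ok TD_l10563 _))
           (CovZ.leaf K2_ok TD_l10564 _))
          (CovZ.n1 (29280, 14976) (by decide +kernel)
           (CovZ.n2 (29232, 15024) (by decide +kernel)
            (CovZ.leaf K2_ok TD_l10565 _)
            (CovZ.n1 (29232, 14976) (by decide +kernel)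
             (CovZ.leaf K2_ok TD_l10566 _)
             (CovZ.leaf K2_ok TD_l10567 _)))
           (CovZ.n1 (29328, 15024) (by decide +kernel)
            (CovZ.leaf K2_ok TD_l10568 _)
            (CovZ.leaf K2_ok TD_l10569 _))))
         (CovZ.n1 (29472, 15072) (by decide +kernel)
          (CovZ.n2 (29472, 14976) (by decide +kernel)
           (CovZ.n2 (29424, 15024) (by decide +kernel)
            (CovZ.leaf K2_ok TD_l10570 _)
            (CovZ.leaf K2_ok TD_l10571 _))
           (CovZ.leaf K2_ok TD_l10572 _))
          (CovZ.leaf K2_ok TD_l10573 _)))
        (CovZ.n1 (29184, 15168) (by decide +kernel)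
         (CovZ.n2 (29280, 15264) (by decide +kernel)
          (CovZ.n2 (29280, 15168) (by decide +kernel)
           (CovZ.leaf K2_ok TD_l10574 _)
           (CovZ.leaf K2_ok TD_l10575 _))
          (CovZ.leaf K2_ok TD_l10576 _))
         (CovZ.n1 (29280, 15072) (by decide +kernel)
          (CovZ.n2 (29184, 15072) (by decide +kernel)
           (CovZ.leaf K2_ok TD_l10577 _)
           (CovZ.leaf K2_ok TD_l10578 _))
          (CovZ.n1 (29280, 15168) (by decide +kernel)
           (CovZ.leaf K2_ok TD_l10579 _)
           (CovZ.n1 (29232, 15120) (by decide +kernel)
            (CovZ.leaf K2_ok TD_l10580 _)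
            (CovZ.leaf K2_ok TD_l10581 _))))))
       (CovZ.n1 (29376, 14784) (by decide +kernel)
        (CovZ.n2 (29184, 14784) (by decide +kernel)
         (CovZ.n2 (29280, 14880) (by decide +kernel)
          (CovZ.subM 7957171782556586274486115970349133441607304300154295974208682732277417987855912871657472 (by decide +kernel)
           (CovZ.n2 (29280, 14784) (by decide +kernel)
            (CovZ.n2 (29232, 14832) (by decide +kernel)
             (CovZ.n2 (29280, 14832) (by decide +kernel)
              (CovZ.badM (by decide +kernel))
              (CovZ.n1 (29256, 14856) (by decide +kernel)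
               (CovZ.leaf K2_ok TD_l10582 _)
               (CovZ.leaf K2_ok TD_l10583 _)))
             (CovZ.badM (by decide +kernel)))
            (CovZ.n1 (29328, 14832) (by decide +kernel)
             (CovZ.badM (by decide +kernel))
             (CovZ.n1 (29280, 14832) (by decide +kernel)
              (CovZ.n2 (29304, 14856) (by decide +kernel)
               (CovZ.leaf K2_ok TD_l10584 _)
               (CovZ.leaf K2_ok TD_l10585 _))
              (CovZ.badM (by decide +kernel))))))
          (CovZ.n1 (29184, 14880) (by decide +kernel)
           (CovZ.n2 (29232, 14928) (by decide +kernel)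
            (CovZ.n2 (29232, 14880) (by decide +kernel)
             (CovZ.n2 (29208, 14904) (by decide +kernel)
              (CovZ.leaf K2_ok TD_l10586 _)
              (CovZ.leaf K2_ok TD_l10587 _))
             (CovZ.leaf K2_ok TD_l10588 _))
            (CovZ.leaf K2_ok TD_l10589 _))
           (CovZ.subM 7957171782556586274486115970349133441607304300154295974208682732277417987855912871657472 (by decide +kernel)
            (CovZ.n1 (29232, 14832) (by decide +kernel)
             (CovZ.n2 (29184, 14832) (by decide +kernel)
              (CovZ.n2 (29208, 14856) (by decide +kernel)
               (CovZ.leaf K2_ok TD_l10590 _)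
               (CovZ.leaf K2_ok TD_l10591 _))
              (CovZ.badM (by decide +kernel)))
             (CovZ.n1 (29232, 14880) (by decide +kernel)
              (CovZ.leaf K2_ok TD_l10592 _)
              (CovZ.n1 (29208, 14856) (by decide +kernel)
               (CovZ.leaf K2_ok TD_l10593 _)
               (CovZ.leaf K2_ok TD_l10594 _)))))))
         (CovZ.badM (by decide +kernel)))
        (CovZ.n1 (29376, 14976) (by decide +kernel)
         (CovZ.subM 7957171782556586274486115970349133441607326957711417681321794532567182998661571692003328 (by decide +kernel)
          (CovZ.n2 (29472, 14880) (by decide +kernel)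
           (CovZ.n2 (29376, 14880) (by decide +kernel)
            (CovZ.n2 (29424, 14928) (by decide +kernel)
             (CovZ.n2 (29424, 14880) (by decide +kernel)
              (CovZ.leaf K2_ok TD_l10595 _)
              (CovZ.leaf K2_ok TD_l10596 _))
             (CovZ.leaf K2_ok TD_l10597 _))
            (CovZ.n1 (29424, 14832) (by decide +kernel)
             (CovZ.n2 (29376, 14832) (by decide +kernel)
              (CovZ.leaf K2_ok TD_l10598 _)
              (CovZ.leaf K2_ok TD_l10599 _))
             (CovZ.n1 (29424, 14880) (by decide +kernel)
              (CovZ.leaf K2_ok TD_l10600 _)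
              (CovZ.n1 (29400, 14856) (by decide +kernel)
               (CovZ.leaf K2_ok TD_l10601 _)
               (CovZ.leaf K2_ok TD_l10602 _)))))
           (CovZ.n1 (29472, 14976) (by decide +kernel)
            (CovZ.n2 (29520, 14928) (by decide +kernel)
             (CovZ.leaf K2_ok TD_l10603 _)
             (CovZ.leaf K2_ok TD_l10604 _))
            (CovZ.n1 (29424, 14928) (by decide +kernel)
             (CovZ.n2 (29424, 14976) (by decide +kernel)
              (CovZ.leaf K2_ok TD_l10605 _)
              (CovZ.leaf K2_ok TD_l10606 _))
             (CovZ.leaf K2_ok TD_l10607 _)))))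
         (CovZ.n1 (29280, 14880) (by decide +kernel)
          (CovZ.n2 (29280, 14976) (by decide +kernel)
           (CovZ.n2 (29328, 14928) (by decide +kernel)
            (CovZ.leaf K2_ok TD_l10608 _)
            (CovZ.n1 (29328, 14976) (by decide +kernel)
             (CovZ.leaf K2_ok TD_l10609 _)
             (CovZ.leaf K2_ok TD_l10610 _)))
           (CovZ.n1 (29232, 14928) (by decide +kernel)
            (CovZ.n2 (29232, 14976) (by decide +kernel)
             (CovZ.leaf K2_ok TD_l10611 _)
             (CovZ.leaf K2_ok TD_l10612 _))
            (CovZ.n1 (29280, 14928) (by decide +kernel)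
             (CovZ.leaf K2_ok TD_l10613 _)
             (CovZ.leaf K2_ok TD_l10614 _))))
          (CovZ.subM 7957171782556586274486115970349133441607326957711417681321794532567182998661571692003328 (by decide +kernel)
           (CovZ.n1 (29376, 14880) (by decide +kernel)
            (CovZ.subM 7957171782556586274486115970349133441607304121748334385963697599991671806669020823814144 (by decide +kernel)
             (CovZ.n2 (29328, 14832) (by decide +kernel)
              (CovZ.n2 (29328, 14880) (by decide +kernel)
               (CovZ.leaf K2_ok TD_l10615 _)
               (CovZ.n1 (29304, 14856) (by decide +kernel)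
                (CovZ.leaf K2_ok TD_l10616 _)
                (CovZ.leaf K2_ok TD_l10617 _)))
              (CovZ.n1 (29376, 14832) (by decide +kernel)
               (CovZ.n2 (29352, 14808) (by decide +kernel)
                (CovZ.leaf K2_ok TD_l10618 _)
                (CovZ.leaf K2_ok TD_l10619 _))
               (CovZ.n1 (29352, 14856) (by decide +kernel)
                (CovZ.leaf K2_ok TD_l10620 _)
                (CovZ.leaf K2_ok TD_l10621 _)))))
            (CovZ.n1 (29328, 14928) (by decide +kernel)
             (CovZ.n2 (29376, 14928) (by decide +kernel)
              (CovZ.leaf K2_ok TD_l10622 _)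
              (CovZ.leaf K2_ok TD_l10623 _))
             (CovZ.n1 (29328, 14880) (by decide +kernel)
              (CovZ.leaf K2_ok TD_l10624 _)
              (CovZ.leaf K2_ok TD_l10625 _)))))))))

theorem TD_u6 : CovZ TD_M (toL (selN TD_LN 8749002899140004869272565494758775070076607984589326584563753855814280996882577473754986770077910144)) [0, 7, 6, 1] (30720, 15360) (29952, 15360) (29952, 14592) :=
    (CovZ.n2 (30336, 14976) (by decide +kernel)
      (CovZ.n2 (29952, 14976) (by decide +kernel)
       (CovZ.n2 (30144, 15168) (by decide +kernel)
        (CovZ.n2 (30144, 14976) (by decide +kernel)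
         (CovZ.n2 (30048, 15072) (by decide +kernel)
          (CovZ.n2 (30144, 15072) (by decide +kernel)
           (CovZ.leaf K2_ok TD_l10626 _)
           (CovZ.leaf K2_ok TD_l10627 _))
          (CovZ.n1 (30048, 14976) (by decide +kernel)
           (CovZ.leaf K2_ok TD_l10628 _)
           (CovZ.leaf K2_ok TD_l10629 _)))
         (CovZ.n1 (30240, 15072) (by decide +kernel)
          (CovZ.n2 (30240, 14976) (by decide +kernel)
           (CovZ.leaf K2_ok TD_l10630 _)
           (CovZ.leaf K2_ok TD_l10631 _))
          (CovZ.leaf K2_ok TD_l10632 _)))
        (CovZ.n1 (29952, 15168) (by decide +kernel)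
         (CovZ.leaf K2_ok TD_l10633 _)
         (CovZ.n1 (30048, 15072) (by decide +kernel)
          (CovZ.leaf K2_ok TD_l10634 _)
          (CovZ.leaf K2_ok TD_l10635 _))))
       (CovZ.subM 7957171782556586274486115970349133441607326957711417681321794532567182998661571692003328 (by decide +kernel)
        (CovZ.n1 (30144, 14784) (by decide +kernel)
         (CovZ.n2 (29952, 14784) (by decide +kernel)
          (CovZ.n2 (30048, 14880) (by decide +kernel)
           (CovZ.n2 (30048, 14784) (by decide +kernel)
            (CovZ.n2 (30000, 14832) (by decide +kernel)
             (CovZ.leaf K2_ok TD_l10636 _)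
             (CovZ.leaf K2_ok TD_l10637 _))
            (CovZ.leaf K2_ok TD_l10638 _))
           (CovZ.n1 (29952, 14880) (by decide +kernel)
            (CovZ.leaf K2_ok TD_l10639 _)
            (CovZ.leaf K2_ok TD_l10640 _)))
          (CovZ.n1 (30048, 14688) (by decide +kernel)
           (CovZ.n2 (29952, 14688) (by decide +kernel)
            (CovZ.n2 (30000, 14736) (by decide +kernel)
             (CovZ.n2 (30000, 14688) (by decide +kernel)
              (CovZ.leaf K2_ok TD_l10641 _)
              (CovZ.leaf K2_ok TD_l10642 _))
             (CovZ.leaf K2_ok TD_l10643 _))
            (CovZ.subM 7957171782556586274486115970349133441607304121748334302886947863434429750251448283693056 (by decide +kernel)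
             (CovZ.n1 (30000, 14640) (by decide +kernel)
              (CovZ.n2 (29952, 14640) (by decide +kernel)
               (CovZ.leaf K2_ok TD_l10644 _)
               (CovZ.n1 (29976, 14616) (by decide +kernel)
                (CovZ.leaf K2_ok TD_l18646 _)
                (CovZ.leaf K2_ok TD_l10645 _)))
              (CovZ.n1 (30000, 14688) (by decide +kernel)
               (CovZ.leaf K2_ok TD_l10646 _)
               (CovZ.n1 (29976, 14664) (by decide +kernel)
                (CovZ.leaf K2_ok TD_l10647 _)
                (CovZ.leaf K2_ok TD_l10648 _))))))
           (CovZ.n1 (30048, 14784) (by decide +kernel)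
            (CovZ.n2 (30096, 14736) (by decide +kernel)
             (CovZ.leaf K2_ok TD_l10649 _)
             (CovZ.leaf K2_ok TD_l10650 _))
            (CovZ.n1 (30000, 14736) (by decide +kernel)
             (CovZ.leaf K2_ok TD_l10651 _)
             (CovZ.n1 (30048, 14736) (by decide +kernel)
              (CovZ.leaf K2_ok TD_l10652 _)
              (CovZ.leaf K2_ok TD_l10653 _))))))
         (CovZ.n1 (30144, 14976) (by decide +kernel)
          (CovZ.n2 (30240, 14880) (by decide +kernel)
           (CovZ.leaf K2_ok TD_l10654 _)
           (CovZ.n1 (30240, 14976) (by decide +kernel)
            (CovZ.leaf K2_ok TD_l10655 _)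
            (CovZ.leaf K2_ok TD_l10656 _)))
          (CovZ.n1 (30048, 14880) (by decide +kernel)
           (CovZ.n2 (30048, 14976) (by decide +kernel)
            (CovZ.leaf K2_ok TD_l10657 _)
            (CovZ.n1 (30000, 14928) (by decide +kernel)
             (CovZ.leaf K2_ok TD_l10658 _)
             (CovZ.leaf K2_ok TD_l10659 _)))
           (CovZ.n1 (30144, 14880) (by decide +kernel)
            (CovZ.n2 (30096, 14832) (by decide +kernel)
             (CovZ.leaf K2_ok TD_l10660 _)
             (CovZ.leaf K2_ok TD_l10661 _))
            (CovZ.leaf K2_ok TD_l10662 _)))))))
      (CovZ.n1 (30336, 15360) (by decide +kernel)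
       (CovZ.subM 8749002899132047697490008908470485461412677723572849751412073196463651523506527649262864172182470784 (by decide +kernel)
        (CovZ.n2 (30528, 15168) (by decide +kernel)
         (CovZ.n2 (30336, 15168) (by decide +kernel)
          (CovZ.leaf K2_ok TD_l10663 _)
          (CovZ.leaf K2_ok TD_l10664 _))
         (CovZ.n1 (30528, 15360) (by decide +kernel)
          (CovZ.leaf K2_ok TD_l10665 _)
          (CovZ.n1 (30432, 15264) (by decide +kernel)
           (CovZ.leaf K2_ok TD_l10666 _)
           (CovZ.leaf K2_ok TD_l10667 _)))))
       (CovZ.n1 (30144, 15168) (by decide +kernel)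
        (CovZ.n2 (30144, 15360) (by decide +kernel)
         (CovZ.leaf K2_ok TD_l10668 _)
         (CovZ.n1 (30048, 15264) (by decide +kernel)
          (CovZ.leaf K2_ok TD_l10669 _)
          (CovZ.leaf K2_ok TD_l10670 _)))
        (CovZ.subM 8749002899132047697490008908470485461412677723572849751412073196463651523506527649262864172182470784 (by decide +kernel)
         (CovZ.n1 (30336, 15168) (by decide +kernel)
          (CovZ.n2 (30240, 15072) (by decide +kernel)
           (CovZ.leaf K2_ok TD_l10671 _)
           (CovZ.leaf K2_ok TD_l10672 _))
          (CovZ.n1 (30240, 15264) (by decide +kernel)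
           (CovZ.leaf K2_ok TD_l10673 _)
           (CovZ.leaf K2_ok TD_l10674 _)))))))

theorem TD_u7 : CovZ TD_M (toL (selN TD_LN 8749002899140004869272565494758775070076607984589326584563753855814280996882577473754986770077910144)) [0, 7, 6, 1] (29952, 15360) (29184, 15360) (29952, 14592) :=
    (CovZ.n1 (29568, 14976) (by decide +kernel)
      (CovZ.n2 (29568, 15360) (by decide +kernel)
       (CovZ.n2 (29760, 15168) (by decide +kernel)
        (CovZ.n2 (29568, 15168) (by decide +kernel)
         (CovZ.n2 (29664, 15264) (by decide +kernel)
          (CovZ.n2 (29664, 15168) (by decide +kernel)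
           (CovZ.leaf K2_ok TD_l10675 _)
           (CovZ.leaf K2_ok TD_l10676 _))
          (CovZ.leaf K2_ok TD_l10677 _))
         (CovZ.n1 (29664, 15072) (by decide +kernel)
          (CovZ.leaf K2_ok TD_l10678 _)
          (CovZ.n1 (29664, 15168) (by decide +kernel)
           (CovZ.leaf K2_ok TD_l10679 _)
           (CovZ.leaf K2_ok TD_l10680 _))))
        (CovZ.n1 (29760, 15360) (by decide +kernel)
         (CovZ.leaf K2_ok TD_l10681 _)
         (CovZ.n1 (29664, 15264) (by decide +kernel)
          (CovZ.leaf K2_ok TD_l10682 _)
          (CovZ.leaf K2_ok TD_l10683 _))))
       (CovZ.n1 (29376, 15168) (by decide +kernel)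
        (CovZ.n2 (29376, 15360) (by decide +kernel)
         (CovZ.n2 (29472, 15264) (by decide +kernel)
          (CovZ.leaf K2_ok TD_l10684 _)
          (CovZ.leaf K2_ok TD_l10685 _))
         (CovZ.n1 (29280, 15264) (by decide +kernel)
          (CovZ.leaf K2_ok TD_l10686 _)
          (CovZ.n1 (29376, 15264) (by decide +kernel)
           (CovZ.leaf K2_ok TD_l10687 _)
           (CovZ.leaf K2_ok TD_l10688 _))))
        (CovZ.n1 (29568, 15168) (by decide +kernel)
         (CovZ.n2 (29472, 15072) (by decide +kernel)
          (CovZ.n2 (29472, 15168) (by decide +kernel)
           (CovZ.leaf K2_ok TD_l10689 _)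
           (CovZ.leaf K2_ok TD_l10690 _))
          (CovZ.n1 (29568, 15072) (by decide +kernel)
           (CovZ.n2 (29520, 15024) (by decide +kernel)
            (CovZ.leaf K2_ok TD_l10691 _)
            (CovZ.leaf K2_ok TD_l10692 _))
           (CovZ.leaf K2_ok TD_l10693 _)))
         (CovZ.n1 (29472, 15264) (by decide +kernel)
          (CovZ.leaf K2_ok TD_l10694 _)
          (CovZ.n1 (29472, 15168) (by decide +kernel)
           (CovZ.leaf K2_ok TD_l10695 _)
           (CovZ.leaf K2_ok TD_l10696 _))))))
      (CovZ.n1 (29952, 14976) (by decide +kernel)
       (CovZ.subM 7957171782556586274486115970349133441607326957711417681321794532567182998661571692003328 (by decide +kernel)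
        (CovZ.n2 (29760, 14784) (by decide +kernel)
         (CovZ.n2 (29760, 14976) (by decide +kernel)
          (CovZ.n2 (29856, 14880) (by decide +kernel)
           (CovZ.n2 (29760, 14880) (by decide +kernel)
            (CovZ.leaf K2_ok TD_l10697 _)
            (CovZ.n1 (29808, 14832) (by decide +kernel)
             (CovZ.leaf K2_ok TD_l10698 _)
             (CovZ.leaf K2_ok TD_l10699 _)))
           (CovZ.n1 (29856, 14976) (by decide +kernel)
            (CovZ.leaf K2_ok TD_l10700 _)
            (CovZ.n1 (29808, 14928) (by decide +kernel)
             (CovZ.leaf K2_ok TD_l10701 _)
             (CovZ.leaf K2_ok TD_l10702 _))))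
          (CovZ.n1 (29664, 14880) (by decide +kernel)
           (CovZ.n2 (29664, 14976) (by decide +kernel)
            (CovZ.leaf K2_ok TD_l10703 _)
            (CovZ.n1 (29616, 14928) (by decide +kernel)
             (CovZ.leaf K2_ok TD_l10704 _)
             (CovZ.leaf K2_ok TD_l10705 _)))
           (CovZ.n1 (29760, 14880) (by decide +kernel)
            (CovZ.n2 (29712, 14832) (by decide +kernel)
             (CovZ.leaf K2_ok TD_l10706 _)
             (CovZ.n1 (29760, 14832) (by decide +kernel)
              (CovZ.leaf K2_ok TD_l10707 _)
              (CovZ.leaf K2_ok TD_l10708 _)))
            (CovZ.n1 (29712, 14928) (by decide +kernel)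
             (CovZ.leaf K2_ok TD_l10709 _)
             (CovZ.leaf K2_ok TD_l10710 _)))))
         (CovZ.n1 (29952, 14784) (by decide +kernel)
          (CovZ.n2 (29856, 14688) (by decide +kernel)
           (CovZ.n2 (29856, 14784) (by decide +kernel)
            (CovZ.n2 (29904, 14736) (by decide +kernel)
             (CovZ.leaf K2_ok TD_l10711 _)
             (CovZ.n1 (29904, 14784) (by decide +kernel)
              (CovZ.leaf K2_ok TD_l10712 _)
              (CovZ.leaf K2_ok TD_l10713 _)))
            (CovZ.n1 (29808, 14736) (by decide +kernel)
             (CovZ.n2 (29808, 14784) (by decide +kernel)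
              (CovZ.leaf K2_ok TD_l10714 _)
              (CovZ.leaf K2_ok TD_l10715 _))
             (CovZ.n1 (29856, 14736) (by decide +kernel)
              (CovZ.n2 (29832, 14712) (by decide +kernel)
               (CovZ.leaf K2_ok TD_l10716 _)
               (CovZ.leaf K2_ok TD_l10717 _))
              (CovZ.leaf K2_ok TD_l10718 _))))
           (CovZ.n1 (29952, 14688) (by decide +kernel)
            (CovZ.subM 7957171782556586274486115970349133441607304121748334302886947863434429750181079539515392 (by decide +kernel)
             (CovZ.n2 (29904, 14640) (by decide +kernel)
              (CovZ.n2 (29904, 14688) (by decide +kernel)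
               (CovZ.leaf K2_ok TD_l10719 _)
               (CovZ.n1 (29880, 14664) (by decide +kernel)
                (CovZ.leaf K2_ok TD_l10720 _)
                (CovZ.leaf K2_ok TD_l10721 _)))
              (CovZ.n1 (29952, 14640) (by decide +kernel)
               (CovZ.n2 (29928, 14616) (by decide +kernel)
                (CovZ.leaf K2_ok TD_l18647 _)
                (CovZ.leaf K2_ok TD_l18648 _))
               (CovZ.n1 (29928, 14664) (by decide +kernel)
                (CovZ.leaf K2_ok TD_l10722 _)
                (CovZ.leaf K2_ok TD_l10723 _)))))
            (CovZ.n1 (29904, 14736) (by decide +kernel)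
             (CovZ.n2 (29952, 14736) (by decide +kernel)
              (CovZ.leaf K2_ok TD_l10724 _)
              (CovZ.leaf K2_ok TD_l10725 _))
             (CovZ.n1 (29904, 14688) (by decide +kernel)
              (CovZ.leaf K2_ok TD_l10726 _)
              (CovZ.leaf K2_ok TD_l10727 _)))))
          (CovZ.n1 (29856, 14880) (by decide +kernel)
           (CovZ.n2 (29952, 14880) (by decide +kernel)
            (CovZ.n2 (29904, 14832) (by decide +kernel)
             (CovZ.leaf K2_ok TD_l10728 _)
             (CovZ.leaf K2_ok TD_l10729 _))
            (CovZ.n1 (29904, 14928) (by decide +kernel)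
             (CovZ.leaf K2_ok TD_l10730 _)
             (CovZ.leaf K2_ok TD_l10731 _)))
           (CovZ.n1 (29856, 14784) (by decide +kernel)
            (CovZ.n2 (29808, 14832) (by decide +kernel)
             (CovZ.leaf K2_ok TD_l10732 _)
             (CovZ.n1 (29808, 14784) (by decide +kernel)
              (CovZ.leaf K2_ok TD_l10733 _)
              (CovZ.leaf K2_ok TD_l10734 _)))
            (CovZ.n1 (29904, 14832) (by decide +kernel)
             (CovZ.leaf K2_ok TD_l10735 _)
             (CovZ.leaf K2_ok TD_l10736 _)))))))
       (CovZ.n1 (29760, 15168) (by decide +kernel)
        (CovZ.n2 (29952, 15168) (by decide +kernel)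
         (CovZ.n2 (29856, 15072) (by decide +kernel)
          (CovZ.leaf K2_ok TD_l10737 _)
          (CovZ.n1 (29952, 15072) (by decide +kernel)
           (CovZ.leaf K2_ok TD_l10738 _)
           (CovZ.leaf K2_ok TD_l10739 _)))
         (CovZ.n1 (29856, 15264) (by decide +kernel)
          (CovZ.leaf K2_ok TD_l10740 _)
          (CovZ.leaf K2_ok TD_l10741 _)))
        (CovZ.n1 (29760, 14976) (by decide +kernel)
         (CovZ.n2 (29664, 15072) (by decide +kernel)
          (CovZ.n2 (29760, 15072) (by decide +kernel)
           (CovZ.leaf K2_ok TD_l10742 _)
           (CovZ.leaf K2_ok TD_l10743 _))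
          (CovZ.n1 (29664, 14976) (by decide +kernel)
           (CovZ.leaf K2_ok TD_l10744 _)
           (CovZ.leaf K2_ok TD_l10745 _)))
         (CovZ.n1 (29856, 15072) (by decide +kernel)
          (CovZ.n2 (29856, 14976) (by decide +kernel)
           (CovZ.leaf K2_ok TD_l10746 _)
           (CovZ.leaf K2_ok TD_l10747 _))
          (CovZ.leaf K2_ok TD_l10748 _))))))

theorem TD_u8 : CovZ TD_M (toL (selN TD_LN 8749002899132047697490008908470485461412677723572849751412073196463651523506527649262864172182470784)) [0, 7, 6, 1] (30720, 15360) (30720, 14592) (31488, 14592) :=
    (CovZ.n2 (31104, 14976) (by decide +kernel)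
      (CovZ.n2 (31104, 14592) (by decide +kernel)
       (CovZ.n2 (30912, 14784) (by decide +kernel)
        (CovZ.subM 5708990770823839526709023956368811464073478144 (by decide +kernel)
         (CovZ.n2 (31104, 14784) (by decide +kernel)
          (CovZ.n2 (31008, 14688) (by decide +kernel)
           (CovZ.n2 (31008, 14784) (by decide +kernel)
            (CovZ.leaf K2_ok TD_l12675 _)
            (CovZ.leaf K2_ok TD_l12676 _))
           (CovZ.n1 (31104, 14688) (by decide +kernel)
            (CovZ.leaf K2_ok TD_l12677 _)
            (CovZ.leaf K2_ok TD_l12678 _)))
          (CovZ.n1 (31008, 14880) (by decide +kernel)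
           (CovZ.leaf K2_ok TD_l12679 _)
           (CovZ.n1 (31008, 14784) (by decide +kernel)
            (CovZ.leaf K2_ok TD_l12680 _)
            (CovZ.leaf K2_ok TD_l12681 _)))))
        (CovZ.subM 5708990770823839524233143877798050914275229696 (by decide +kernel)
         (CovZ.n1 (30912, 14592) (by decide +kernel)
          (CovZ.n2 (30816, 14688) (by decide +kernel)
           (CovZ.n2 (30912, 14688) (by decide +kernel)
            (CovZ.n2 (30864, 14640) (by decide +kernel)
             (CovZ.leaf K2_ok TD_l12682 _)
             (CovZ.leaf K2_ok TD_l12683 _))
            (CovZ.leaf K2_ok TD_l12684 _))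
           (CovZ.n1 (30816, 14592) (by decide +kernel)
            (CovZ.n2 (30768, 14640) (by decide +kernel)
             (CovZ.leaf K2_ok TD_l12685 _)
             (CovZ.leaf K2_ok TD_l12686 _))
            (CovZ.leaf K2_ok TD_l12687 _)))
          (CovZ.n1 (31008, 14688) (by decide +kernel)
           (CovZ.n2 (31008, 14592) (by decide +kernel)
            (CovZ.leaf K2_ok TD_l12688 _)
            (CovZ.leaf K2_ok TD_l12689 _))
           (CovZ.leaf K2_ok TD_l12690 _)))))
       (CovZ.subM 5708990770823839526709023956368811464073478144 (by decide +kernel)
        (CovZ.n1 (31296, 14784) (by decide +kernel)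
         (CovZ.n2 (31296, 14592) (by decide +kernel)
          (CovZ.n2 (31200, 14688) (by decide +kernel)
           (CovZ.n2 (31296, 14688) (by decide +kernel)
            (CovZ.leaf K2_ok TD_l12691 _)
            (CovZ.leaf K2_ok TD_l12692 _))
           (CovZ.n1 (31200, 14592) (by decide +kernel)
            (CovZ.leaf K2_ok TD_l12693 _)
            (CovZ.leaf K2_ok TD_l12694 _)))
          (CovZ.n1 (31392, 14688) (by decide +kernel)
           (CovZ.n2 (31392, 14592) (by decide +kernel)
            (CovZ.leaf K2_ok TD_l12695 _)
            (CovZ.leaf K2_ok TD_l12696 _))
           (CovZ.leaf K2_ok TD_l12697 _)))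
         (CovZ.n1 (31104, 14784) (by decide +kernel)
          (CovZ.n2 (31200, 14880) (by decide +kernel)
           (CovZ.leaf K2_ok TD_l12698 _)
           (CovZ.leaf K2_ok TD_l12699 _))
          (CovZ.n1 (31200, 14688) (by decide +kernel)
           (CovZ.leaf K2_ok TD_l12700 _)
           (CovZ.n1 (31200, 14784) (by decide +kernel)
            (CovZ.leaf K2_ok TD_l12701 _)
            (CovZ.leaf K2_ok TD_l12702 _)))))))
      (CovZ.n1 (30720, 14976) (by decide +kernel)
       (CovZ.n2 (30912, 15168) (by decide +kernel)
        (CovZ.n2 (30912, 14976) (by decide +kernel)
         (CovZ.n2 (30816, 15072) (by decide +kernel)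
          (CovZ.leaf K2_ok TD_l12703 _)
          (CovZ.leaf K2_ok TD_l12704 _))
         (CovZ.leaf K2_ok TD_l12705 _))
        (CovZ.leaf K2_ok TD_l12706 _))
       (CovZ.n1 (30912, 14784) (by decide +kernel)
        (CovZ.n2 (30720, 14784) (by decide +kernel)
         (CovZ.n2 (30816, 14880) (by decide +kernel)
          (CovZ.n2 (30816, 14784) (by decide +kernel)
           (CovZ.leaf K2_ok TD_l12707 _)
           (CovZ.leaf K2_ok TD_l12708 _))
          (CovZ.leaf K2_ok TD_l12709 _))
         (CovZ.subM 5708990770823839524233143877798050914275229696 (by decide +kernel)
          (CovZ.n1 (30816, 14688) (by decide +kernel)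
           (CovZ.n2 (30720, 14688) (by decide +kernel)
            (CovZ.leaf K2_ok TD_l12710 _)
            (CovZ.leaf K2_ok TD_l12711 _))
           (CovZ.n1 (30816, 14784) (by decide +kernel)
            (CovZ.leaf K2_ok TD_l12712 _)
            (CovZ.leaf K2_ok TD_l12713 _)))))
        (CovZ.n1 (30912, 14976) (by decide +kernel)
         (CovZ.n2 (31008, 14880) (by decide +kernel)
          (CovZ.leaf K2_ok TD_l12714 _)
          (CovZ.leaf K2_ok TD_l12715 _))
         (CovZ.n1 (30816, 14880) (by decide +kernel)
          (CovZ.leaf K2_ok TD_l12716 _)
          (CovZ.leaf K2_ok TD_l12717 _))))))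

theorem TD_u9 : CovZ TD_M (toL (selN TD_LN 8749002899132047697490008908470485461412677723572849751412073196463651523506527649262864172182470784)) [0, 7, 6, 1] (30720, 14592) (30720, 13824) (31488, 14592) :=
    (CovZ.subM 5708990770823839524233143877798050914275229696 (by decide +kernel)
      (CovZ.n1 (31104, 14208) (by decide +kernel)
       (CovZ.n2 (30720, 14208) (by decide +kernel)
        (CovZ.n2 (30912, 14400) (by decide +kernel)
         (CovZ.n2 (30912, 14208) (by decide +kernel)
          (CovZ.n2 (30816, 14304) (by decide +kernel)
           (CovZ.n2 (30912, 14304) (by decide +kernel)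
            (CovZ.badM (by decide +kernel))
            (CovZ.n1 (30864, 14352) (by decide +kernel)
             (CovZ.n2 (30912, 14352) (by decide +kernel)
              (CovZ.badM (by decide +kernel))
              (CovZ.n1 (30888, 14376) (by decide +kernel)
               (CovZ.leaf K2_ok TD_l12718 _)
               (CovZ.badM (by decide +kernel))))
             (CovZ.badM (by decide +kernel))))
           (CovZ.badM (by decide +kernel)))
          (CovZ.n1 (31008, 14304) (by decide +kernel)
           (CovZ.badM (by decide +kernel))
           (CovZ.n1 (30912, 14304) (by decide +kernel)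
            (CovZ.n2 (30960, 14352) (by decide +kernel)
             (CovZ.badM (by decide +kernel))
             (CovZ.n1 (30912, 14352) (by decide +kernel)
              (CovZ.n2 (30936, 14376) (by decide +kernel)
               (CovZ.badM (by decide +kernel))
               (CovZ.leaf K2_ok TD_l12720 _))
              (CovZ.badM (by decide +kernel))))
            (CovZ.badM (by decide +kernel)))))
         (CovZ.n1 (30720, 14400) (by decide +kernel)
          (CovZ.n2 (30816, 14496) (by decide +kernel)
           (CovZ.n2 (30816, 14400) (by decide +kernel)
            (CovZ.n2 (30768, 14448) (by decide +kernel)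
             (CovZ.n2 (30816, 14448) (by decide +kernel)
              (CovZ.n2 (30792, 14424) (by decide +kernel)
               (CovZ.leaf K2_ok TD_l12721 _)
               (CovZ.leaf K2_ok TD_l12722 _))
              (CovZ.leaf K2_ok TD_l12723 _))
             (CovZ.n1 (30768, 14400) (by decide +kernel)
              (CovZ.n2 (30744, 14424) (by decide +kernel)
               (CovZ.leaf K2_ok TD_l12724 _)
               (CovZ.badM (by decide +kernel)))
              (CovZ.leaf K2_ok TD_l12726 _)))
            (CovZ.n1 (30864, 14448) (by decide +kernel)
             (CovZ.n2 (30864, 14400) (by decide +kernel)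
              (CovZ.n2 (30840, 14424) (by decide +kernel)
               (CovZ.leaf K2_ok TD_l12727 _)
               (CovZ.leaf K2_ok TD_l12728 _))
              (CovZ.leaf K2_ok TD_l12729 _))
             (CovZ.leaf K2_ok TD_l12730 _)))
           (CovZ.n1 (30720, 14496) (by decide +kernel)
            (CovZ.n2 (30768, 14544) (by decide +kernel)
             (CovZ.n2 (30768, 14496) (by decide +kernel)
              (CovZ.leaf K2_ok TD_l12731 _)
              (CovZ.leaf K2_ok TD_l12732 _))
             (CovZ.leaf K2_ok TD_l12733 _))
            (CovZ.n1 (30768, 14448) (by decide +kernel)
             (CovZ.n2 (30720, 14448) (by decide +kernel)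
              (CovZ.leaf K2_ok TD_l12734 _)
              (CovZ.leaf K2_ok TD_l12735 _))
             (CovZ.n1 (30768, 14496) (by decide +kernel)
              (CovZ.leaf K2_ok TD_l12736 _)
              (CovZ.leaf K2_ok TD_l12737 _)))))
          (CovZ.n1 (30816, 14304) (by decide +kernel)
           (CovZ.badM (by decide +kernel))
           (CovZ.n1 (30816, 14400) (by decide +kernel)
            (CovZ.n2 (30864, 14352) (by decide +kernel)
             (CovZ.badM (by decide +kernel))
             (CovZ.n1 (30864, 14400) (by decide +kernel)
              (CovZ.n2 (30888, 14376) (by decide +kernel)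
               (CovZ.badM (by decide +kernel))
               (CovZ.leaf K2_ok TD_l12739 _))
              (CovZ.badM (by decide +kernel))))
            (CovZ.badM (by decide +kernel))))))
        (CovZ.badM (by decide +kernel)))
       (CovZ.n1 (31104, 14592) (by decide +kernel)
        (CovZ.n2 (31296, 14400) (by decide +kernel)
         (CovZ.n2 (31104, 14400) (by decide +kernel)
          (CovZ.n2 (31200, 14496) (by decide +kernel)
           (CovZ.n2 (31200, 14400) (by decide +kernel)
            (CovZ.n2 (31152, 14448) (by decide +kernel)
             (CovZ.n2 (31200, 14448) (by decide +kernel)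
              (CovZ.leaf K2_ok TD_l12742 _)
              (CovZ.leaf K2_ok TD_l12743 _))
             (CovZ.n1 (31152, 14400) (by decide +kernel)
              (CovZ.leaf K2_ok TD_l12744 _)
              (CovZ.leaf K2_ok TD_l12745 _)))
            (CovZ.n1 (31248, 14448) (by decide +kernel)
             (CovZ.n2 (31248, 14400) (by decide +kernel)
              (CovZ.leaf K2_ok TD_l12746 _)
              (CovZ.leaf K2_ok TD_l12747 _))
             (CovZ.leaf K2_ok TD_l12748 _)))
           (CovZ.n1 (31104, 14496) (by decide +kernel)
            (CovZ.leaf K2_ok TD_l12749 _)
            (CovZ.n1 (31152, 14448) (by decide +kernel)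
             (CovZ.leaf K2_ok TD_l12750 _)
             (CovZ.leaf K2_ok TD_l12751 _))))
          (CovZ.n1 (31200, 14304) (by decide +kernel)
           (CovZ.n2 (31104, 14304) (by decide +kernel)
            (CovZ.n2 (31152, 14352) (by decide +kernel)
             (CovZ.n2 (31152, 14304) (by decide +kernel)
              (CovZ.n2 (31128, 14328) (by decide +kernel)
               (CovZ.leaf K2_ok TD_l17991 _)
               (CovZ.badM (by decide +kernel)))
              (CovZ.n1 (31176, 14328) (by decide +kernel)
               (CovZ.leaf K2_ok TD_l17992 _)
               (CovZ.leaf K2_ok TD_l17993 _)))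
             (CovZ.n1 (31104, 14352) (by decide +kernel)
              (CovZ.leaf K2_ok TD_l12752 _)
              (CovZ.leaf K2_ok TD_l12753 _)))
            (CovZ.badM (by decide +kernel)))
           (CovZ.n1 (31200, 14400) (by decide +kernel)
            (CovZ.n2 (31248, 14352) (by decide +kernel)
             (CovZ.n2 (31200, 14352) (by decide +kernel)
              (CovZ.leaf K2_ok TD_l12754 _)
              (CovZ.leaf K2_ok TD_l12755 _))
             (CovZ.n1 (31248, 14400) (by decide +kernel)
              (CovZ.leaf K2_ok TD_l12756 _)
              (CovZ.leaf K2_ok TD_l12757 _)))
            (CovZ.n1 (31152, 14352) (by decide +kernel)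
             (CovZ.n2 (31152, 14400) (by decide +kernel)
              (CovZ.leaf K2_ok TD_l12758 _)
              (CovZ.leaf K2_ok TD_l12759 _))
             (CovZ.n1 (31200, 14352) (by decide +kernel)
              (CovZ.n2 (31176, 14328) (by decide +kernel)
               (CovZ.leaf K2_ok TD_l12760 _)
               (CovZ.leaf K2_ok TD_l12761 _))
              (CovZ.leaf K2_ok TD_l12762 _))))))
         (CovZ.n1 (31296, 14592) (by decide +kernel)
          (CovZ.n2 (31392, 14496) (by decide +kernel)
           (CovZ.n2 (31296, 14496) (by decide +kernel)
            (CovZ.leaf K2_ok TD_l12763 _)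
            (CovZ.leaf K2_ok TD_l12764 _))
           (CovZ.n1 (31392, 14592) (by decide +kernel)
            (CovZ.leaf K2_ok TD_l12765 _)
            (CovZ.n1 (31344, 14544) (by decide +kernel)
             (CovZ.leaf K2_ok TD_l12766 _)
             (CovZ.leaf K2_ok TD_l12767 _))))
          (CovZ.n1 (31200, 14496) (by decide +kernel)
           (CovZ.n2 (31200, 14592) (by decide +kernel)
            (CovZ.leaf K2_ok TD_l12768 _)
            (CovZ.n1 (31152, 14544) (by decide +kernel)
             (CovZ.leaf K2_ok TD_l12769 _)
             (CovZ.leaf K2_ok TD_l12770 _)))
           (CovZ.n1 (31296, 14496) (by decide +kernel)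
            (CovZ.n2 (31248, 14448) (by decide +kernel)
             (CovZ.leaf K2_ok TD_l12771 _)
             (CovZ.leaf K2_ok TD_l12772 _))
            (CovZ.n1 (31248, 14544) (by decide +kernel)
             (CovZ.leaf K2_ok TD_l12773 _)
             (CovZ.leaf K2_ok TD_l12774 _))))))
        (CovZ.n1 (30912, 14400) (by decide +kernel)
         (CovZ.n2 (30912, 14592) (by decide +kernel)
          (CovZ.n2 (31008, 14496) (by decide +kernel)
           (CovZ.n2 (30912, 14496) (by decide +kernel)
            (CovZ.n2 (30960, 14544) (by decide +kernel)
             (CovZ.leaf K2_ok TD_l12775 _)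
             (CovZ.leaf K2_ok TD_l12776 _))
            (CovZ.n1 (30960, 14448) (by decide +kernel)
             (CovZ.leaf K2_ok TD_l12777 _)
             (CovZ.n1 (30960, 14496) (by decide +kernel)
              (CovZ.leaf K2_ok TD_l12778 _)
              (CovZ.leaf K2_ok TD_l12779 _))))
           (CovZ.n1 (31008, 14592) (by decide +kernel)
            (CovZ.leaf K2_ok TD_l12780 _)
            (CovZ.n1 (30960, 14544) (by decide +kernel)
             (CovZ.leaf K2_ok TD_l12781 _)
             (CovZ.leaf K2_ok TD_l12782 _))))
          (CovZ.n1 (30816, 14496) (by decide +kernel)
           (CovZ.n2 (30816, 14592) (by decide +kernel)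
            (CovZ.n2 (30864, 14544) (by decide +kernel)
             (CovZ.leaf K2_ok TD_l12783 _)
             (CovZ.leaf K2_ok TD_l12784 _))
            (CovZ.n1 (30768, 14544) (by decide +kernel)
             (CovZ.leaf K2_ok TD_l12785 _)
             (CovZ.leaf K2_ok TD_l12786 _)))
           (CovZ.n1 (30912, 14496) (by decide +kernel)
            (CovZ.n2 (30864, 14448) (by decide +kernel)
             (CovZ.n2 (30864, 14496) (by decide +kernel)
              (CovZ.leaf K2_ok TD_l12787 _)
              (CovZ.leaf K2_ok TD_l12788 _))
             (CovZ.n1 (30912, 14448) (by decide +kernel)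
              (CovZ.leaf K2_ok TD_l12789 _)
              (CovZ.leaf K2_ok TD_l12790 _)))
            (CovZ.n1 (30864, 14544) (by decide +kernel)
             (CovZ.leaf K2_ok TD_l12791 _)
             (CovZ.n1 (30864, 14496) (by decide +kernel)
              (CovZ.leaf K2_ok TD_l12792 _)
              (CovZ.leaf K2_ok TD_l12793 _))))))
         (CovZ.n1 (31104, 14400) (by decide +kernel)
          (CovZ.n2 (31008, 14304) (by decide +kernel)
           (CovZ.n2 (31008, 14400) (by decide +kernel)
            (CovZ.n2 (31056, 14352) (by decide +kernel)
             (CovZ.n2 (31008, 14352) (by decide +kernel)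
              (CovZ.leaf K2_ok TD_l12794 _)
              (CovZ.badM (by decide +kernel)))
             (CovZ.n1 (31056, 14400) (by decide +kernel)
              (CovZ.leaf K2_ok TD_l12795 _)
              (CovZ.n1 (31032, 14376) (by decide +kernel)
               (CovZ.leaf K2_ok TD_l12796 _)
               (CovZ.leaf K2_ok TD_l12797 _))))
            (CovZ.n1 (30960, 14352) (by decide +kernel)
             (CovZ.n2 (30960, 14400) (by decide +kernel)
              (CovZ.leaf K2_ok TD_l12798 _)
              (CovZ.n1 (30936, 14376) (by decide +kernel)
               (CovZ.leaf K2_ok TD_l12799 _)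
               (CovZ.leaf K2_ok TD_l12800 _)))
             (CovZ.n1 (31008, 14352) (by decide +kernel)
              (CovZ.badM (by decide +kernel))
              (CovZ.n1 (30984, 14376) (by decide +kernel)
               (CovZ.leaf K2_ok TD_l12802 _)
               (CovZ.badM (by decide +kernel))))))
           (CovZ.n1 (31104, 14304) (by decide +kernel)
            (CovZ.badM (by decide +kernel))
            (CovZ.n1 (31056, 14352) (by decide +kernel)
             (CovZ.n2 (31104, 14352) (by decide +kernel)
              (CovZ.n2 (31080, 14328) (by decide +kernel)
               (CovZ.leaf K2_ok TD_l17994 _)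
               (CovZ.leaf K2_ok TD_l17995 _))
              (CovZ.n1 (31080, 14376) (by decide +kernel)
               (CovZ.leaf K2_ok TD_l12804 _)
               (CovZ.leaf K2_ok TD_l12805 _)))
             (CovZ.badM (by decide +kernel)))))
          (CovZ.n1 (31008, 14496) (by decide +kernel)
           (CovZ.n2 (31104, 14496) (by decide +kernel)
            (CovZ.n2 (31056, 14448) (by decide +kernel)
             (CovZ.leaf K2_ok TD_l12806 _)
             (CovZ.n1 (31104, 14448) (by decide +kernel)
              (CovZ.leaf K2_ok TD_l12807 _)
              (CovZ.leaf K2_ok TD_l12808 _)))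
            (CovZ.n1 (31056, 14544) (by decide +kernel)
             (CovZ.leaf K2_ok TD_l12809 _)
             (CovZ.leaf K2_ok TD_l12810 _)))
           (CovZ.n1 (31008, 14400) (by decide +kernel)
            (CovZ.n2 (30960, 14448) (by decide +kernel)
             (CovZ.n2 (31008, 14448) (by decide +kernel)
              (CovZ.leaf K2_ok TD_l12811 _)
              (CovZ.leaf K2_ok TD_l12812 _))
             (CovZ.n1 (30960, 14400) (by decide +kernel)
              (CovZ.leaf K2_ok TD_l12813 _)
              (CovZ.leaf K2_ok TD_l12814 _)))
            (CovZ.n1 (31056, 14448) (by decide +kernel)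
             (CovZ.n2 (31056, 14400) (by decide +kernel)
              (CovZ.leaf K2_ok TD_l12815 _)
              (CovZ.leaf K2_ok TD_l12816 _))
             (CovZ.leaf K2_ok TD_l12817 _)))))))))

theorem TD_u10 : CovZ TD_M (toL (selN TD_LN 311373741114969054114857049580390680099402708753719976273568032473221628386257003564851299781715576356993)) [0, 7, 6, 1] (26112, 16128) (25728, 16128) (25728, 15744) :=
    (CovZ.n2 (25920, 15936) (by decide +kernel)
        (CovZ.subM 286687327265757318441466372212138691298706392333571892524241594607511953594244731329384923807949311180800 (by decide +kernel)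
         (CovZ.n2 (25728, 15936) (by decide +kernel)
          (CovZ.n2 (25824, 16032) (by decide +kernel)
           (CovZ.n2 (25824, 15936) (by decide +kernel)
            (CovZ.badM (by decide +kernel))
            (CovZ.n1 (25872, 15984) (by decide +kernel)
             (CovZ.badM (by decide +kernel))
             (CovZ.badM (by decide +kernel))))
           (CovZ.subM 266998379490113760299377823699135562974358676971585644003966440240393804411292354438494695718912 (by decide +kernel)
            (CovZ.n1 (25728, 16032) (by decide +kernel)
             (CovZ.n2 (25776, 16080) (by decide +kernel)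
              (CovZ.badM (by decide +kernel))
              (CovZ.n1 (25728, 16080) (by decide +kernel)
               (CovZ.n2 (25752, 16104) (by decide +kernel)
                (CovZ.badM (by decide +kernel))
                (CovZ.n1 (25728, 16104) (by decide +kernel)
                 (CovZ.n2 (25740, 16116) (by decide +kernel)
                  (CovZ.n2 (25740, 16104) (by decide +kernel)
                   (CovZ.leaf K2_ok TD_l18094 _)
                   (CovZ.leaf K2_ok TD_l18095 _))
                  (CovZ.leaf K2_ok TD_l14936 _))
                 (CovZ.badM (by decide +kernel))))
               (CovZ.badM (by decide +kernel))))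
             (CovZ.badM (by decide +kernel)))))
          (CovZ.n1 (25824, 15840) (by decide +kernel)
           (CovZ.badM (by decide +kernel))
           (CovZ.n1 (25824, 15936) (by decide +kernel)
            (CovZ.badM (by decide +kernel))
            (CovZ.badM (by decide +kernel))))))
        (CovZ.n1 (25920, 16128) (by decide +kernel)
         (CovZ.n2 (26016, 16032) (by decide +kernel)
          (CovZ.subM 291202914931019990242973732640109845287371465701165934013020366260994978286845190304118299919051061723136 (by decide +kernel)
           (CovZ.n2 (25920, 16032) (by decide +kernel)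
            (CovZ.n2 (25968, 16080) (by decide +kernel)
             (CovZ.n2 (25968, 16032) (by decide +kernel)
              (CovZ.subM 286688420624121330457314798163874426410253505943928662158874163488848718330350526606054181126043126988800 (by decide +kernel)
               (CovZ.n2 (25944, 16056) (by decide +kernel)
                (CovZ.n2 (25968, 16056) (by decide +kernel)
                 (CovZ.n2 (25956, 16044) (by decide +kernel)
                  (CovZ.leaf K2_ok TD_l14937 _)
                  (CovZ.leaf K2_ok TD_l14938 _))
                 (CovZ.leaf K2_ok TD_l14939 _))
                (CovZ.n1 (25944, 16032) (by decide +kernel)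
                 (CovZ.n2 (25932, 16044) (by decide +kernel)
                  (CovZ.leaf K2_ok TD_l14940 _)
                  (CovZ.badM (by decide +kernel)))
                 (CovZ.leaf K2_ok TD_l14941 _))))
              (CovZ.n1 (25992, 16056) (by decide +kernel)
               (CovZ.n2 (25992, 16032) (by decide +kernel)
                (CovZ.leaf K2_ok TD_l14942 _)
                (CovZ.leaf K2_ok TD_l14943 _))
               (CovZ.leaf K2_ok TD_l14944 _)))
             (CovZ.subM 286688420891119709947428558463252250109389068918287339130459807492815158570744331017346535564537822707712 (by decide +kernel)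
              (CovZ.n1 (25920, 16080) (by decide +kernel)
               (CovZ.n2 (25944, 16104) (by decide +kernel)
                (CovZ.n2 (25944, 16080) (by decide +kernel)
                 (CovZ.leaf K2_ok TD_l14945 _)
                 (CovZ.leaf K2_ok TD_l14946 _))
                (CovZ.leaf K2_ok TD_l14947 _))
               (CovZ.subM 286688420624121330457314798163874426410253505943928662158874163488848718330350526606054181126043126988800 (by decide +kernel)
                (CovZ.n1 (25944, 16056) (by decide +kernel)
                 (CovZ.n2 (25920, 16056) (by decide +kernel)
                  (CovZ.leaf K2_ok TD_l14948 _)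
                  (CovZ.n1 (25932, 16044) (by decide +kernel)
                   (CovZ.leaf K2_ok TD_l14949 _)
                   (CovZ.leaf K2_ok TD_l14950 _)))
                 (CovZ.n1 (25944, 16080) (by decide +kernel)
                  (CovZ.leaf K2_ok TD_l14951 _)
                  (CovZ.n1 (25932, 16068) (by decide +kernel)
                   (CovZ.leaf K2_ok TD_l14952 _)
                   (CovZ.leaf K2_ok TD_l14953 _))))))))
            (CovZ.subM 291201821038659219246897786089618462777553020428913735349759163691545179227161460295524083493278949834752 (by decide +kernel)
             (CovZ.n1 (25968, 15984) (by decide +kernel)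
              (CovZ.badM (by decide +kernel))
              (CovZ.n1 (25968, 16032) (by decide +kernel)
               (CovZ.n2 (25992, 16008) (by decide +kernel)
                (CovZ.n2 (25968, 16008) (by decide +kernel)
                 (CovZ.leaf K2_ok TD_l14954 _)
                 (CovZ.badM (by decide +kernel)))
                (CovZ.n1 (25992, 16032) (by decide +kernel)
                 (CovZ.leaf K2_ok TD_l14955 _)
                 (CovZ.n1 (25980, 16020) (by decide +kernel)
                  (CovZ.leaf K2_ok TD_l14956 _)
                  (CovZ.leaf K2_ok TD_l14957 _))))
               (CovZ.badM (by decide +kernel)))))))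
          (CovZ.n1 (26016, 16128) (by decide +kernel)
           (CovZ.subM 311360617610620228728562293544046241961705802370466246287261538867181636788552136904216885978128141385728 (by decide +kernel)
            (CovZ.n2 (26064, 16080) (by decide +kernel)
             (CovZ.n2 (26016, 16080) (by decide +kernel)
              (CovZ.leaf K2_ok TD_l3892 _)
              (CovZ.n1 (26040, 16056) (by decide +kernel)
               (CovZ.leaf K2_ok TD_l14958 _)
               (CovZ.leaf K2_ok TD_l14959 _)))
             (CovZ.n1 (26064, 16128) (by decide +kernel)
              (CovZ.leaf K2_ok TD_l3893 _)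
              (CovZ.n1 (26040, 16104) (by decide +kernel)
               (CovZ.leaf K2_ok TD_l3894 _)
               (CovZ.leaf K2_ok TD_l3895 _)))))
           (CovZ.subM 291202914931019990305139137191333177282230833417159485884266350679919806079680430458359875836248789614592 (by decide +kernel)
            (CovZ.n1 (25968, 16080) (by decide +kernel)
             (CovZ.n2 (25968, 16128) (by decide +kernel)
              (CovZ.leaf K2_ok TD_l3896 _)
              (CovZ.n1 (25944, 16104) (by decide +kernel)
               (CovZ.leaf K2_ok TD_l3897 _)
               (CovZ.leaf K2_ok TD_l3898 _)))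
             (CovZ.n1 (26016, 16080) (by decide +kernel)
              (CovZ.n2 (25992, 16056) (by decide +kernel)
               (CovZ.n2 (25992, 16080) (by decide +kernel)
                (CovZ.leaf K2_ok TD_l14960 _)
                (CovZ.leaf K2_ok TD_l14961 _))
               (CovZ.n1 (26016, 16056) (by decide +kernel)
                (CovZ.n2 (26004, 16044) (by decide +kernel)
                 (CovZ.leaf K2_ok TD_l14962 _)
                 (CovZ.leaf K2_ok TD_l14963 _))
                (CovZ.leaf K2_ok TD_l14964 _)))
              (CovZ.n1 (25992, 16104) (by decide +kernel)
               (CovZ.leaf K2_ok TD_l3899 _)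
               (CovZ.leaf K2_ok TD_l14965 _)))))))
         (CovZ.subM 286687327265757318441466372212138691298706392333571892524241594607511953594244731329384923807949311180800 (by decide +kernel)
          (CovZ.n1 (25824, 16032) (by decide +kernel)
           (CovZ.n2 (25824, 16128) (by decide +kernel)
            (CovZ.n2 (25872, 16080) (by decide +kernel)
             (CovZ.subM 266998379490113760299377823699135562974358676971585644003966440240393804411292354438494695718912 (by decide +kernel)
              (CovZ.n2 (25824, 16080) (by decide +kernel)
               (CovZ.n2 (25848, 16104) (by decide +kernel)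
                (CovZ.n2 (25848, 16080) (by decide +kernel)
                 (CovZ.n2 (25836, 16092) (by decide +kernel)
                  (CovZ.leaf K2_ok TD_l14966 _)
                  (CovZ.badM (by decide +kernel)))
                 (CovZ.leaf K2_ok TD_l14968 _))
                (CovZ.n1 (25824, 16104) (by decide +kernel)
                 (CovZ.leaf K2_ok TD_l14969 _)
                 (CovZ.n1 (25836, 16092) (by decide +kernel)
                  (CovZ.badM (by decide +kernel))
                  (CovZ.leaf K2_ok TD_l14971 _))))
               (CovZ.badM (by decide +kernel))))
             (CovZ.n1 (25872, 16128) (by decide +kernel)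
              (CovZ.n2 (25896, 16104) (by decide +kernel)
               (CovZ.leaf K2_ok TD_l14976 _)
               (CovZ.n1 (25896, 16128) (by decide +kernel)
                (CovZ.leaf K2_ok TD_l14977 _)
                (CovZ.leaf K2_ok TD_l14978 _)))
              (CovZ.subM 266998379490113760299377823699135562974358676971585644003966440240393804411292354438494695718912 (by decide +kernel)
               (CovZ.n1 (25848, 16104) (by decide +kernel)
                (CovZ.n2 (25848, 16128) (by decide +kernel)
                 (CovZ.leaf K2_ok TD_l14979 _)
                 (CovZ.n1 (25836, 16116) (by decide +kernel)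
                  (CovZ.leaf K2_ok TD_l14980 _)
                  (CovZ.leaf K2_ok TD_l14981 _)))
                (CovZ.n1 (25872, 16104) (by decide +kernel)
                 (CovZ.leaf K2_ok TD_l14982 _)
                 (CovZ.leaf K2_ok TD_l14983 _))))))
            (CovZ.subM 266998379490113760299377823699135562974358676971585644003966440240393804411292354438494695718912 (by decide +kernel)
             (CovZ.n1 (25776, 16080) (by decide +kernel)
              (CovZ.n2 (25776, 16128) (by decide +kernel)
               (CovZ.n2 (25800, 16104) (by decide +kernel)
                (CovZ.n2 (25776, 16104) (by decide +kernel)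
                 (CovZ.n2 (25788, 16116) (by decide +kernel)
                  (CovZ.leaf K2_ok TD_l14984 _)
                  (CovZ.leaf K2_ok TD_l14985 _))
                 (CovZ.badM (by decide +kernel)))
                (CovZ.n1 (25800, 16128) (by decide +kernel)
                 (CovZ.leaf K2_ok TD_l14986 _)
                 (CovZ.n1 (25788, 16116) (by decide +kernel)
                  (CovZ.leaf K2_ok TD_l14987 _)
                  (CovZ.leaf K2_ok TD_l14988 _))))
               (CovZ.n1 (25752, 16104) (by decide +kernel)
                (CovZ.n2 (25752, 16128) (by decide +kernel)
                 (CovZ.n2 (25764, 16116) (by decide +kernel)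
                  (CovZ.leaf K2_ok TD_l14989 _)
                  (CovZ.leaf K2_ok TD_l14990 _))
                 (CovZ.n1 (25740, 16116) (by decide +kernel)
                  (CovZ.leaf K2_ok TD_l14991 _)
                  (CovZ.leaf K2_ok TD_l14992 _)))
                (CovZ.n1 (25776, 16104) (by decide +kernel)
                 (CovZ.badM (by decide +kernel))
                 (CovZ.n1 (25764, 16116) (by decide +kernel)
                  (CovZ.leaf K2_ok TD_l14993 _)
                  (CovZ.leaf K2_ok TD_l18096 _)))))
              (CovZ.n1 (25824, 16080) (by decide +kernel)
               (CovZ.badM (by decide +kernel))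
               (CovZ.n1 (25800, 16104) (by decide +kernel)
                (CovZ.n2 (25824, 16104) (by decide +kernel)
                 (CovZ.badM (by decide +kernel))
                 (CovZ.n1 (25812, 16116) (by decide +kernel)
                  (CovZ.leaf K2_ok TD_l14996 _)
                  (CovZ.leaf K2_ok TD_l14997 _)))
                (CovZ.badM (by decide +kernel)))))))
           (CovZ.n1 (25920, 16032) (by decide +kernel)
            (CovZ.subM 2993155353253689176481146537402947624255349848014848 (by decide +kernel)
             (CovZ.n2 (25872, 15984) (by decide +kernel)
              (CovZ.n2 (25872, 16032) (by decide +kernel)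
               (CovZ.n2 (25896, 16008) (by decide +kernel)
                (CovZ.badM (by decide +kernel))
                (CovZ.n1 (25896, 16032) (by decide +kernel)
                 (CovZ.n2 (25908, 16020) (by decide +kernel)
                  (CovZ.badM (by decide +kernel))
                  (CovZ.leaf K2_ok TD_l14998 _))
                 (CovZ.badM (by decide +kernel))))
               (CovZ.badM (by decide +kernel)))
              (CovZ.badM (by decide +kernel))))
            (CovZ.n1 (25872, 16080) (by decide +kernel)
             (CovZ.n2 (25920, 16080) (by decide +kernel)
              (CovZ.subM 286687326998758938951352611912760867599570829359213215552655950603545513353850926918092569369454615461888 (by decide +kernel)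
               (CovZ.n2 (25896, 16056) (by decide +kernel)
                (CovZ.n2 (25896, 16080) (by decide +kernel)
                 (CovZ.leaf K2_ok TD_l14999 _)
                 (CovZ.n1 (25884, 16068) (by decide +kernel)
                  (CovZ.leaf K2_ok TD_l18097 _)
                  (CovZ.leaf K2_ok TD_l18098 _)))
                (CovZ.n1 (25920, 16056) (by decide +kernel)
                 (CovZ.n2 (25908, 16044) (by decide +kernel)
                  (CovZ.leaf K2_ok TD_l15000 _)
                  (CovZ.leaf K2_ok TD_l15001 _))
                 (CovZ.leaf K2_ok TD_l15002 _))))
              (CovZ.n1 (25896, 16104) (by decide +kernel)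
               (CovZ.n2 (25920, 16104) (by decide +kernel)
                (CovZ.n2 (25908, 16092) (by decide +kernel)
                 (CovZ.leaf K2_ok TD_l15003 _)
                 (CovZ.leaf K2_ok TD_l15004 _))
                (CovZ.leaf K2_ok TD_l15005 _))
               (CovZ.n1 (25896, 16080) (by decide +kernel)
                (CovZ.leaf K2_ok TD_l15006 _)
                (CovZ.leaf K2_ok TD_l15007 _))))
             (CovZ.subM 286687326998758938951352611912760867599570829359213215552655950603545513353850926918092569369454615461888 (by decide +kernel)
              (CovZ.n1 (25872, 16032) (by decide +kernel)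
               (CovZ.badM (by decide +kernel))
               (CovZ.n1 (25896, 16056) (by decide +kernel)
                (CovZ.n2 (25896, 16032) (by decide +kernel)
                 (CovZ.n2 (25884, 16044) (by decide +kernel)
                  (CovZ.leaf K2_ok TD_l18099 _)
                  (CovZ.badM (by decide +kernel)))
                 (CovZ.n1 (25908, 16044) (by decide +kernel)
                  (CovZ.n2 (25908, 16032) (by decide +kernel)
                   (CovZ.badM (by decide +kernel))
                   (CovZ.leaf K2_ok TD_l15009 _))
                  (CovZ.leaf K2_ok TD_l18100 _)))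
                (CovZ.n1 (25872, 16056) (by decide +kernel)
                 (CovZ.leaf K2_ok TD_l18101 _)
                 (CovZ.n1 (25884, 16044) (by decide +kernel)
                  (CovZ.badM (by decide +kernel))
                  (CovZ.leaf K2_ok TD_l18102 _))))))))))))

theorem TD_u11 : CovZ TD_M (toL (selN TD_LN 311373741114969054114857049580390680099402708753719976273568032473221628386257003564851299781715576356993)) [0, 7, 6, 1] (25728, 16128) (25344, 16128) (25728, 15744) :=
    (CovZ.subM 266998379490113760301186964665527079878831362683631183127898874349934764717261487004647948288000 (by decide +kernel)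
        (CovZ.n1 (25536, 15936) (by decide +kernel)
         (CovZ.n2 (25536, 16128) (by decide +kernel)
          (CovZ.n2 (25632, 16032) (by decide +kernel)
           (CovZ.badM (by decide +kernel))
           (CovZ.n1 (25632, 16128) (by decide +kernel)
            (CovZ.n2 (25680, 16080) (by decide +kernel)
             (CovZ.n2 (25632, 16080) (by decide +kernel)
              (CovZ.n2 (25656, 16104) (by decide +kernel)
               (CovZ.badM (by decide +kernel))
               (CovZ.badM (by decide +kernel)))
              (CovZ.badM (by decide +kernel)))
             (CovZ.n1 (25680, 16128) (by decide +kernel)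
              (CovZ.n2 (25704, 16104) (by decide +kernel)
               (CovZ.badM (by decide +kernel))
               (CovZ.n1 (25704, 16128) (by decide +kernel)
                (CovZ.n2 (25716, 16116) (by decide +kernel)
                 (CovZ.badM (by decide +kernel))
                 (CovZ.leaf K2_ok TD_l15010 _))
                (CovZ.badM (by decide +kernel))))
              (CovZ.n1 (25656, 16104) (by decide +kernel)
               (CovZ.n2 (25656, 16128) (by decide +kernel)
                (CovZ.badM (by decide +kernel))
                (CovZ.badM (by decide +kernel)))
               (CovZ.badM (by decide +kernel)))))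
            (CovZ.badM (by decide +kernel))))
          (CovZ.badM (by decide +kernel)))
         (CovZ.n1 (25728, 15936) (by decide +kernel)
          (CovZ.n2 (25632, 15840) (by decide +kernel)
           (CovZ.n2 (25632, 15936) (by decide +kernel)
            (CovZ.badM (by decide +kernel))
            (CovZ.badM (by decide +kernel)))
           (CovZ.badM (by decide +kernel)))
          (CovZ.n1 (25632, 16032) (by decide +kernel)
           (CovZ.n2 (25728, 16032) (by decide +kernel)
            (CovZ.badM (by decide +kernel))
            (CovZ.n1 (25680, 16080) (by decide +kernel)
             (CovZ.n2 (25728, 16080) (by decide +kernel)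
              (CovZ.badM (by decide +kernel))
              (CovZ.n1 (25704, 16104) (by decide +kernel)
               (CovZ.n2 (25728, 16104) (by decide +kernel)
                (CovZ.badM (by decide +kernel))
                (CovZ.n1 (25716, 16116) (by decide +kernel)
                 (CovZ.leaf K2_ok TD_l15011 _)
                 (CovZ.n1 (25716, 16104) (by decide +kernel)
                  (CovZ.badM (by decide +kernel))
                  (CovZ.leaf K2_ok TD_l15012 _))))
               (CovZ.badM (by decide +kernel))))
             (CovZ.badM (by decide +kernel))))
           (CovZ.n1 (25632, 15936) (by decide +kernel)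
            (CovZ.badM (by decide +kernel))
            (CovZ.badM (by decide +kernel)))))))

theorem TD_u12 : CovZ TD_M (toL (selN TD_LN 266998379490113760416979055628279862000043294644544161340368644218961131605970058618030744797184)) [0, 7, 6, 1] (25728, 16512) (25536, 16320) (25728, 16128) :=
    (CovZ.n2 (25728, 16320) (by decide +kernel)
          (CovZ.n2 (25632, 16224) (by decide +kernel)
           (CovZ.n2 (25632, 16320) (by decide +kernel)
            (CovZ.n2 (25680, 16272) (by decide +kernel)
             (CovZ.n2 (25632, 16272) (by decide +kernel)
              (CovZ.leaf K2_ok TD_l3938 _)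
              (CovZ.leaf K2_ok TD_l3939 _))
             (CovZ.n1 (25680, 16320) (by decide +kernel)
              (CovZ.leaf K2_ok TD_l3940 _)
              (CovZ.n1 (25656, 16296) (by decide +kernel)
               (CovZ.leaf K2_ok TD_l3941 _)
               (CovZ.leaf K2_ok TD_l3942 _))))
            (CovZ.subM 93536104800066822506505860124670100695796265517056 (by decide +kernel)
             (CovZ.n1 (25584, 16272) (by decide +kernel)
              (CovZ.n2 (25584, 16320) (by decide +kernel)
               (CovZ.leaf K2_ok TD_l3943 _)
               (CovZ.n1 (25560, 16296) (by decide +kernel)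
                (CovZ.leaf K2_ok TD_l15044 _)
                (CovZ.n1 (25584, 16296) (by decide +kernel)
                 (CovZ.leaf K2_ok TD_l15045 _)
                 (CovZ.leaf K2_ok TD_l15046 _))))
              (CovZ.n1 (25632, 16272) (by decide +kernel)
               (CovZ.n2 (25608, 16248) (by decide +kernel)
                (CovZ.leaf K2_ok TD_l3944 _)
                (CovZ.leaf K2_ok TD_l3945 _))
               (CovZ.n1 (25608, 16296) (by decide +kernel)
                (CovZ.leaf K2_ok TD_l3946 _)
                (CovZ.leaf K2_ok TD_l3947 _))))))
           (CovZ.n1 (25728, 16224) (by decide +kernel)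
            (CovZ.n2 (25680, 16176) (by decide +kernel)
             (CovZ.n2 (25680, 16224) (by decide +kernel)
              (CovZ.n2 (25704, 16200) (by decide +kernel)
               (CovZ.leaf K2_ok TD_l15047 _)
               (CovZ.leaf K2_ok TD_l15048 _))
              (CovZ.subM 1809251394333065553493296734296853360954730750748370864713374660783444590592 (by decide +kernel)
               (CovZ.n1 (25656, 16200) (by decide +kernel)
                (CovZ.n2 (25656, 16224) (by decide +kernel)
                 (CovZ.leaf K2_ok TD_l15049 _)
                 (CovZ.leaf K2_ok TD_l15050 _))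
                (CovZ.n1 (25680, 16200) (by decide +kernel)
                 (CovZ.leaf K2_ok TD_l15051 _)
                 (CovZ.leaf K2_ok TD_l15052 _)))))
             (CovZ.subM 266998379490113760415169802508510209748909051145094447200015901854312604949409264949322013736960 (by decide +kernel)
              (CovZ.n1 (25728, 16176) (by decide +kernel)
               (CovZ.n2 (25704, 16152) (by decide +kernel)
                (CovZ.n2 (25704, 16176) (by decide +kernel)
                 (CovZ.leaf K2_ok TD_l15053 _)
                 (CovZ.n1 (25692, 16164) (by decide +kernel)
                  (CovZ.leaf K2_ok TD_l15054 _)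
                  (CovZ.leaf K2_ok TD_l15055 _)))
                (CovZ.n1 (25728, 16152) (by decide +kernel)
                 (CovZ.n2 (25716, 16140) (by decide +kernel)
                  (CovZ.leaf K2_ok TD_l15056 _)
                  (CovZ.leaf K2_ok TD_l15057 _))
                 (CovZ.leaf K2_ok TD_l15058 _)))
               (CovZ.n1 (25704, 16200) (by decide +kernel)
                (CovZ.n2 (25728, 16200) (by decide +kernel)
                 (CovZ.leaf K2_ok TD_l15059 _)
                 (CovZ.leaf K2_ok TD_l15060 _))
                (CovZ.n1 (25704, 16176) (by decide +kernel)
                 (CovZ.leaf K2_ok TD_l15061 _)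
                 (CovZ.leaf K2_ok TD_l15062 _))))))
            (CovZ.n1 (25680, 16272) (by decide +kernel)
             (CovZ.n2 (25728, 16272) (by decide +kernel)
              (CovZ.n2 (25704, 16248) (by decide +kernel)
               (CovZ.leaf K2_ok TD_l3948 _)
               (CovZ.leaf K2_ok TD_l3949 _))
              (CovZ.leaf K2_ok TD_l3950 _))
             (CovZ.n1 (25680, 16224) (by decide +kernel)
              (CovZ.n2 (25656, 16248) (by decide +kernel)
               (CovZ.leaf K2_ok TD_l3951 _)
               (CovZ.n1 (25656, 16224) (by decide +kernel)
                (CovZ.leaf K2_ok TD_l15063 _)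
                (CovZ.leaf K2_ok TD_l15064 _)))
              (CovZ.n1 (25704, 16248) (by decide +kernel)
               (CovZ.n2 (25704, 16224) (by decide +kernel)
                (CovZ.leaf K2_ok TD_l15065 _)
                (CovZ.leaf K2_ok TD_l15066 _))
               (CovZ.leaf K2_ok TD_l3952 _))))))
          (CovZ.n1 (25632, 16416) (by decide +kernel)
           (CovZ.n2 (25728, 16416) (by decide +kernel)
            (CovZ.n2 (25680, 16368) (by decide +kernel)
             (CovZ.leaf K2_ok TD_l3953 _)
             (CovZ.leaf K2_ok TD_l3954 _))
            (CovZ.n1 (25680, 16464) (by decide +kernel)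
             (CovZ.leaf K2_ok TD_l3955 _)
             (CovZ.leaf K2_ok TD_l3956 _)))
           (CovZ.n1 (25632, 16320) (by decide +kernel)
            (CovZ.subM 1725436586697640946952225070369323185619283722137286382176564771028992 (by decide +kernel)
             (CovZ.n2 (25584, 16368) (by decide +kernel)
              (CovZ.n2 (25632, 16368) (by decide +kernel)
               (CovZ.leaf K2_ok TD_l3957 _)
               (CovZ.leaf K2_ok TD_l3958 _))
              (CovZ.n1 (25584, 16320) (by decide +kernel)
               (CovZ.n2 (25560, 16344) (by decide +kernel)
                (CovZ.leaf K2_ok TD_l3959 _)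
                (CovZ.leaf K2_ok TD_l15067 _))
               (CovZ.leaf K2_ok TD_l3960 _))))
            (CovZ.n1 (25680, 16368) (by decide +kernel)
             (CovZ.n2 (25680, 16320) (by decide +kernel)
              (CovZ.leaf K2_ok TD_l3961 _)
              (CovZ.leaf K2_ok TD_l3962 _))
             (CovZ.leaf K2_ok TD_l3963 _)))))

theorem TD_u13 : CovZ TD_M (toL (selN TD_LN 266998379490113760416979055628279862000043294644544161340368644218961131605970058618030744797184)) [0, 7, 6, 1] (25536, 16320) (25344, 16128) (25728, 16128) :=
    (CovZ.n1 (25536, 16128) (by decide +kernel)
          (CovZ.subM 10889035741470030830827987437816582766592 (by decide +kernel)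
           (CovZ.n2 (25440, 16224) (by decide +kernel)
            (CovZ.n2 (25536, 16224) (by decide +kernel)
             (CovZ.badM (by decide +kernel))
             (CovZ.n1 (25488, 16272) (by decide +kernel)
              (CovZ.n2 (25536, 16272) (by decide +kernel)
               (CovZ.n2 (25512, 16248) (by decide +kernel)
                (CovZ.n2 (25512, 16272) (by decide +kernel)
                 (CovZ.leaf K2_ok TD_l15068 _)
                 (CovZ.leaf K2_ok TD_l15069 _))
                (CovZ.n1 (25536, 16248) (by decide +kernel)
                 (CovZ.n2 (25524, 16236) (by decide +kernel)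
                  (CovZ.leaf K2_ok TD_l15070 _)
                  (CovZ.leaf K2_ok TD_l15071 _))
                 (CovZ.leaf K2_ok TD_l15072 _)))
               (CovZ.n1 (25512, 16296) (by decide +kernel)
                (CovZ.leaf K2_ok TD_l15073 _)
                (CovZ.n1 (25512, 16272) (by decide +kernel)
                 (CovZ.leaf K2_ok TD_l15074 _)
                 (CovZ.leaf K2_ok TD_l15075 _))))
              (CovZ.n1 (25488, 16224) (by decide +kernel)
               (CovZ.n2 (25464, 16248) (by decide +kernel)
                (CovZ.n2 (25488, 16248) (by decide +kernel)
                 (CovZ.badM (by decide +kernel))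
                 (CovZ.n1 (25476, 16260) (by decide +kernel)
                  (CovZ.leaf K2_ok TD_l15076 _)
                  (CovZ.badM (by decide +kernel))))
                (CovZ.badM (by decide +kernel)))
               (CovZ.n1 (25512, 16248) (by decide +kernel)
                (CovZ.n2 (25512, 16224) (by decide +kernel)
                 (CovZ.n2 (25500, 16236) (by decide +kernel)
                  (CovZ.leaf K2_ok TD_l15077 _)
                  (CovZ.badM (by decide +kernel)))
                 (CovZ.n1 (25524, 16236) (by decide +kernel)
                  (CovZ.badM (by decide +kernel))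
                  (CovZ.leaf K2_ok TD_l15079 _)))
                (CovZ.n1 (25488, 16248) (by decide +kernel)
                 (CovZ.leaf K2_ok TD_l15080 _)
                 (CovZ.leaf K2_ok TD_l15081 _))))))
            (CovZ.badM (by decide +kernel))))
          (CovZ.n1 (25632, 16224) (by decide +kernel)
           (CovZ.n2 (25632, 16128) (by decide +kernel)
            (CovZ.subM 93536104800066822506505860124670100695796265517056 (by decide +kernel)
             (CovZ.n2 (25584, 16176) (by decide +kernel)
              (CovZ.n2 (25632, 16176) (by decide +kernel)
               (CovZ.badM (by decide +kernel))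
               (CovZ.n1 (25608, 16200) (by decide +kernel)
                (CovZ.n2 (25632, 16200) (by decide +kernel)
                 (CovZ.n2 (25620, 16188) (by decide +kernel)
                  (CovZ.leaf K2_ok TD_l15082 _)
                  (CovZ.leaf K2_ok TD_l15083 _))
                 (CovZ.leaf K2_ok TD_l15084 _))
                (CovZ.n1 (25608, 16176) (by decide +kernel)
                 (CovZ.n2 (25596, 16188) (by decide +kernel)
                  (CovZ.n2 (25608, 16188) (by decide +kernel)
                   (CovZ.badM (by decide +kernel))
                   (CovZ.leaf K2_ok TD_l15085 _))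
                  (CovZ.badM (by decide +kernel)))
                 (CovZ.leaf K2_ok TD_l15086 _))))
              (CovZ.badM (by decide +kernel))))
            (CovZ.n1 (25680, 16176) (by decide +kernel)
             (CovZ.subM 266998379490113760416979053902843275302402347692319090971045458599677409468683676441465973637120 (by decide +kernel)
              (CovZ.n2 (25680, 16128) (by decide +kernel)
               (CovZ.subM 1809251394333065553493296640760748560887908244242510740043273964987179073536 (by decide +kernel)
                (CovZ.n2 (25656, 16152) (by decide +kernel)
                 (CovZ.n2 (25680, 16152) (by decide +kernel)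
                  (CovZ.n2 (25668, 16140) (by decide +kernel)
                   (CovZ.leaf K2_ok TD_l18106 _)
                   (CovZ.badM (by decide +kernel)))
                  (CovZ.n1 (25668, 16164) (by decide +kernel)
                   (CovZ.leaf K2_ok TD_l15087 _)
                   (CovZ.leaf K2_ok TD_l15088 _)))
                 (CovZ.n1 (25656, 16128) (by decide +kernel)
                  (CovZ.badM (by decide +kernel))
                  (CovZ.n1 (25668, 16140) (by decide +kernel)
                   (CovZ.badM (by decide +kernel))
                   (CovZ.leaf K2_ok TD_l18107 _)))))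
               (CovZ.n1 (25704, 16152) (by decide +kernel)
                (CovZ.n2 (25704, 16128) (by decide +kernel)
                 (CovZ.badM (by decide +kernel))
                 (CovZ.n1 (25716, 16140) (by decide +kernel)
                  (CovZ.n2 (25716, 16128) (by decide +kernel)
                   (CovZ.badM (by decide +kernel))
                   (CovZ.leaf K2_ok TD_l15089 _))
                  (CovZ.badM (by decide +kernel))))
                (CovZ.n1 (25680, 16152) (by decide +kernel)
                 (CovZ.n2 (25692, 16164) (by decide +kernel)
                  (CovZ.leaf K2_ok TD_l15090 _)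
                  (CovZ.leaf K2_ok TD_l15091 _))
                 (CovZ.badM (by decide +kernel))))))
             (CovZ.subM 1809251394333065553493296734296853360954730750748370864713374660783444590592 (by decide +kernel)
              (CovZ.n1 (25632, 16176) (by decide +kernel)
               (CovZ.n2 (25656, 16200) (by decide +kernel)
                (CovZ.n2 (25656, 16176) (by decide +kernel)
                 (CovZ.n2 (25644, 16188) (by decide +kernel)
                  (CovZ.leaf K2_ok TD_l15092 _)
                  (CovZ.badM (by decide +kernel)))
                 (CovZ.leaf K2_ok TD_l15093 _))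
                (CovZ.leaf K2_ok TD_l15094 _))
               (CovZ.n1 (25656, 16152) (by decide +kernel)
                (CovZ.badM (by decide +kernel))
                (CovZ.n1 (25656, 16176) (by decide +kernel)
                 (CovZ.leaf K2_ok TD_l15095 _)
                 (CovZ.badM (by decide +kernel))))))))
           (CovZ.subM 93536104800066822506505860124670100695796265517056 (by decide +kernel)
            (CovZ.n1 (25536, 16224) (by decide +kernel)
             (CovZ.n2 (25584, 16272) (by decide +kernel)
              (CovZ.n2 (25584, 16224) (by decide +kernel)
               (CovZ.n2 (25560, 16248) (by decide +kernel)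
                (CovZ.n2 (25584, 16248) (by decide +kernel)
                 (CovZ.leaf K2_ok TD_l15096 _)
                 (CovZ.leaf K2_ok TD_l15097 _))
                (CovZ.n1 (25560, 16224) (by decide +kernel)
                 (CovZ.n2 (25548, 16236) (by decide +kernel)
                  (CovZ.leaf K2_ok TD_l15098 _)
                  (CovZ.leaf K2_ok TD_l15099 _))
                 (CovZ.leaf K2_ok TD_l15100 _)))
               (CovZ.n1 (25608, 16248) (by decide +kernel)
                (CovZ.n2 (25608, 16224) (by decide +kernel)
                 (CovZ.leaf K2_ok TD_l15101 _)
                 (CovZ.leaf K2_ok TD_l15102 _))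
                (CovZ.leaf K2_ok TD_l3964 _)))
              (CovZ.n1 (25536, 16272) (by decide +kernel)
               (CovZ.n2 (25560, 16296) (by decide +kernel)
                (CovZ.n2 (25560, 16272) (by decide +kernel)
                 (CovZ.leaf K2_ok TD_l15103 _)
                 (CovZ.leaf K2_ok TD_l15104 _))
                (CovZ.leaf K2_ok TD_l15105 _))
               (CovZ.n1 (25560, 16248) (by decide +kernel)
                (CovZ.n2 (25536, 16248) (by decide +kernel)
                 (CovZ.leaf K2_ok TD_l15106 _)
                 (CovZ.leaf K2_ok TD_l15107 _))
                (CovZ.n1 (25560, 16272) (by decide +kernel)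
                 (CovZ.leaf K2_ok TD_l15108 _)
                 (CovZ.leaf K2_ok TD_l15109 _)))))
             (CovZ.n1 (25584, 16176) (by decide +kernel)
              (CovZ.badM (by decide +kernel))
              (CovZ.n1 (25584, 16224) (by decide +kernel)
               (CovZ.n2 (25608, 16200) (by decide +kernel)
                (CovZ.n2 (25584, 16200) (by decide +kernel)
                 (CovZ.leaf K2_ok TD_l15110 _)
                 (CovZ.n1 (25596, 16188) (by decide +kernel)
                  (CovZ.leaf K2_ok TD_l15111 _)
                  (CovZ.leaf K2_ok TD_l15112 _)))
                (CovZ.n1 (25608, 16224) (by decide +kernel)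
                 (CovZ.leaf K2_ok TD_l15113 _)
                 (CovZ.leaf K2_ok TD_l15114 _)))
               (CovZ.n1 (25560, 16200) (by decide +kernel)
                (CovZ.n2 (25560, 16224) (by decide +kernel)
                 (CovZ.leaf K2_ok TD_l15115 _)
                 (CovZ.n1 (25548, 16212) (by decide +kernel)
                  (CovZ.leaf K2_ok TD_l15116 _)
                  (CovZ.leaf K2_ok TD_l15117 _)))
                (CovZ.n1 (25584, 16200) (by decide +kernel)
                 (CovZ.n2 (25572, 16188) (by decide +kernel)
                  (CovZ.leaf K2_ok TD_l15118 _)
                  (CovZ.n1 (25584, 16188) (by decide +kernel)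
                   (CovZ.badM (by decide +kernel))
                   (CovZ.leaf K2_ok TD_l15119 _)))
                 (CovZ.n1 (25572, 16212) (by decide +kernel)
                  (CovZ.leaf K2_ok TD_l15120 _)
                  (CovZ.leaf K2_ok TD_l15121 _))))))))))

theorem TD_u14 : CovZ TD_M (toL (selN TD_LN 311373741114969054114857049580390680099402708753719976273568032473221628386257003564851299781715576356993)) [0, 7, 6, 1] (26112, 15360) (26112, 16128) (25344, 16128) :=
    (CovZ.n2 (25728, 15744) (by decide +kernel)
      (CovZ.n2 (25728, 16128) (by decide +kernel)
       TD_u10
       TD_u11)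
      (CovZ.subM 311360617610620228728562293544046241961705802370466243294106185613492460307405599501269261722778293370880 (by decide +kernel)
       (CovZ.n1 (26112, 15744) (by decide +kernel)
        (CovZ.n2 (25920, 15552) (by decide +kernel)
         (CovZ.n2 (25920, 15744) (by decide +kernel)
          (CovZ.badM (by decide +kernel))
          (CovZ.badM (by decide +kernel)))
         (CovZ.badM (by decide +kernel)))
        (CovZ.n1 (25920, 15936) (by decide +kernel)
         (CovZ.n2 (26112, 15936) (by decide +kernel)
          (CovZ.subM 237142198758886286520822197771233871779380204010518486970061815888819645149347840 (by decide +kernel)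
           (CovZ.n2 (26016, 15840) (by decide +kernel)
            (CovZ.n2 (26016, 15936) (by decide +kernel)
             (CovZ.n2 (26064, 15888) (by decide +kernel)
              (CovZ.badM (by decide +kernel))
              (CovZ.n1 (26064, 15936) (by decide +kernel)
               (CovZ.n2 (26088, 15912) (by decide +kernel)
                (CovZ.badM (by decide +kernel))
                (CovZ.n1 (26088, 15936) (by decide +kernel)
                 (CovZ.badM (by decide +kernel))
                 (CovZ.badM (by decide +kernel))))
               (CovZ.badM (by decide +kernel))))
             (CovZ.badM (by decide +kernel)))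
            (CovZ.badM (by decide +kernel))))
          (CovZ.n1 (26016, 16032) (by decide +kernel)
           (CovZ.n2 (26112, 16032) (by decide +kernel)
            (CovZ.n2 (26064, 15984) (by decide +kernel)
             (CovZ.n2 (26064, 16032) (by decide +kernel)
              (CovZ.n2 (26088, 16008) (by decide +kernel)
               (CovZ.leaf K2_ok TD_l15013 _)
               (CovZ.n1 (26088, 16032) (by decide +kernel)
                (CovZ.leaf K2_ok TD_l15014 _)
                (CovZ.leaf K2_ok TD_l15015 _)))
              (CovZ.subM 309119778976081653490845965295175989427331213571964378250241935871763507903327469226579613863474238586880 (by decide +kernel)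
               (CovZ.n1 (26040, 16008) (by decide +kernel)
                (CovZ.n2 (26040, 16032) (by decide +kernel)
                 (CovZ.leaf K2_ok TD_l15016 _)
                 (CovZ.leaf K2_ok TD_l15017 _))
                (CovZ.n1 (26064, 16008) (by decide +kernel)
                 (CovZ.leaf K2_ok TD_l15018 _)
                 (CovZ.leaf K2_ok TD_l15019 _)))))
             (CovZ.subM 311359523718259457701403644717943194315490969922340830878843973950343504904960813056749543472887700127744 (by decide +kernel)
              (CovZ.n1 (26112, 15984) (by decide +kernel)
               (CovZ.n2 (26088, 15960) (by decide +kernel)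
                (CovZ.n2 (26088, 15984) (by decide +kernel)
                 (CovZ.leaf K2_ok TD_l15020 _)
                 (CovZ.n1 (26076, 15972) (by decide +kernel)
                  (CovZ.leaf K2_ok TD_l15021 _)
                  (CovZ.leaf K2_ok TD_l15022 _)))
                (CovZ.subM 20157702679600238454505621486125970927899838640285290927113077130876618978392924966817156801627546451968 (by decide +kernel)
                 (CovZ.n1 (26112, 15960) (by decide +kernel)
                  (CovZ.n2 (26100, 15948) (by decide +kernel)
                   (CovZ.leaf K2_ok TD_l15023 _)
                   (CovZ.n1 (26112, 15948) (by decide +kernel)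
                    (CovZ.badM (by decide +kernel))
                    (CovZ.leaf K2_ok TD_l15024 _)))
                  (CovZ.n1 (26100, 15972) (by decide +kernel)
                   (CovZ.leaf K2_ok TD_l15025 _)
                   (CovZ.leaf K2_ok TD_l15026 _)))))
               (CovZ.n1 (26088, 16008) (by decide +kernel)
                (CovZ.n2 (26112, 16008) (by decide +kernel)
                 (CovZ.leaf K2_ok TD_l15027 _)
                 (CovZ.leaf K2_ok TD_l15028 _))
                (CovZ.n1 (26088, 15984) (by decide +kernel)
                 (CovZ.leaf K2_ok TD_l15029 _)
                 (CovZ.leaf K2_ok TD_l15030 _))))))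
            (CovZ.n1 (26064, 16080) (by decide +kernel)
             (CovZ.n2 (26112, 16080) (by decide +kernel)
              (CovZ.n2 (26088, 16056) (by decide +kernel)
               (CovZ.leaf K2_ok TD_l3900 _)
               (CovZ.leaf K2_ok TD_l3901 _))
              (CovZ.n1 (26088, 16104) (by decide +kernel)
               (CovZ.leaf K2_ok TD_l3902 _)
               (CovZ.leaf K2_ok TD_l3903 _)))
             (CovZ.n1 (26064, 16032) (by decide +kernel)
              (CovZ.n2 (26040, 16056) (by decide +kernel)
               (CovZ.leaf K2_ok TD_l15031 _)
               (CovZ.n1 (26040, 16032) (by decide +kernel)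
                (CovZ.leaf K2_ok TD_l15032 _)
                (CovZ.leaf K2_ok TD_l15033 _)))
              (CovZ.n1 (26088, 16056) (by decide +kernel)
               (CovZ.n2 (26088, 16032) (by decide +kernel)
                (CovZ.leaf K2_ok TD_l15034 _)
                (CovZ.leaf K2_ok TD_l15035 _))
               (CovZ.leaf K2_ok TD_l15036 _)))))
           (CovZ.subM 311359523718259457639238240166719862322316598873044193994764677979801921899962909844330747054667239260160 (by decide +kernel)
            (CovZ.n1 (26016, 15936) (by decide +kernel)
             (CovZ.subM 291201821038659219246897786089618462777553020428913735349759163691545179227161460295524083493278949834752 (by decide +kernel)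
              (CovZ.n2 (25968, 15984) (by decide +kernel)
               (CovZ.n2 (26016, 15984) (by decide +kernel)
                (CovZ.badM (by decide +kernel))
                (CovZ.n1 (25992, 16008) (by decide +kernel)
                 (CovZ.n2 (26016, 16008) (by decide +kernel)
                  (CovZ.n2 (26004, 15996) (by decide +kernel)
                   (CovZ.leaf K2_ok TD_l18103 _)
                   (CovZ.leaf K2_ok TD_l18104 _))
                  (CovZ.n1 (26004, 16020) (by decide +kernel)
                   (CovZ.leaf K2_ok TD_l15037 _)
                   (CovZ.leaf K2_ok TD_l15038 _)))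
                 (CovZ.n1 (25992, 15984) (by decide +kernel)
                  (CovZ.badM (by decide +kernel))
                  (CovZ.n1 (26004, 15996) (by decide +kernel)
                   (CovZ.badM (by decide +kernel))
                   (CovZ.badM (by decide +kernel))))))
               (CovZ.badM (by decide +kernel))))
             (CovZ.n1 (26064, 15984) (by decide +kernel)
              (CovZ.subM 20157702679600238392340454077101399544763578444130458645005514288256742672801449548806663561388289425408 (by decide +kernel)
               (CovZ.n2 (26064, 15936) (by decide +kernel)
                (CovZ.subM 17917957937422434181782774654334196380355412124698037887925753330549863996108011819410593243628616810496 (by decide +kernel)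
                 (CovZ.n2 (26040, 15960) (by decide +kernel)
                  (CovZ.n2 (26064, 15960) (by decide +kernel)
                   (CovZ.badM (by decide +kernel))
                   (CovZ.n1 (26052, 15972) (by decide +kernel)
                    (CovZ.leaf K2_ok TD_l15039 _)
                    (CovZ.badM (by decide +kernel))))
                  (CovZ.badM (by decide +kernel))))
                (CovZ.n1 (26088, 15960) (by decide +kernel)
                 (CovZ.n2 (26088, 15936) (by decide +kernel)
                  (CovZ.badM (by decide +kernel))
                  (CovZ.n1 (26100, 15948) (by decide +kernel)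
                   (CovZ.badM (by decide +kernel))
                   (CovZ.badM (by decide +kernel))))
                 (CovZ.n1 (26064, 15960) (by decide +kernel)
                  (CovZ.n2 (26076, 15972) (by decide +kernel)
                   (CovZ.leaf K2_ok TD_l18902 _)
                   (CovZ.leaf K2_ok TD_l15040 _))
                  (CovZ.badM (by decide +kernel))))))
              (CovZ.n1 (26016, 15984) (by decide +kernel)
               (CovZ.n2 (26040, 16008) (by decide +kernel)
                (CovZ.n2 (26040, 15984) (by decide +kernel)
                 (CovZ.n2 (26028, 15996) (by decide +kernel)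
                  (CovZ.leaf K2_ok TD_l18903 _)
                  (CovZ.badM (by decide +kernel)))
                 (CovZ.leaf K2_ok TD_l15041 _))
                (CovZ.n1 (26016, 16008) (by decide +kernel)
                 (CovZ.leaf K2_ok TD_l15042 _)
                 (CovZ.leaf K2_ok TD_l18105 _)))
               (CovZ.n1 (26040, 15960) (by decide +kernel)
                (CovZ.badM (by decide +kernel))
                (CovZ.n1 (26040, 15984) (by decide +kernel)
                 (CovZ.leaf K2_ok TD_l15043 _)
                 (CovZ.badM (by decide +kernel))))))))))
         (CovZ.n1 (25920, 15744) (by decide +kernel)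
          (CovZ.badM (by decide +kernel))
          (CovZ.n1 (26016, 15840) (by decide +kernel)
           (CovZ.badM (by decide +kernel))
           (CovZ.badM (by decide +kernel))))))))

end Pool.Agent.TET
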