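import Pool.Agent.Helper38_TET.TD_M
import Pool.Agent.Helper38_TET.TD_L
import Pool.Agent.Helper38_TET.TD_26
import Pool.Agent.Helper38_TET.TD_27
import Pool.Agent.Helper38_TET.TD_42
import Pool.Agent.Helper38_TET.TD_43
import Pool.Agent.Helper38_TET.TD_44
import Pool.Agent.Helper38_TET.TD_101
import Pool.Agent.Helper38_TET.TD_102
import Pool.Agent.Helper38_TET.TD_106
import Pool.Agent.Helper38_TET.TD_107
import Pool.Agent.Helper38_TET.TD_108
import Pool.Agent.Helper38_TET.TD_123
import Pool.Agent.Helper38_TET.TD_127
import Pool.Agent.Helper38_TET.TD_U0

/-!
# MP_c7c9bf_co: certificates, family TD
-/

set_option autoImplicit false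
set_option maxRecDepth 100000

namespace Pool.Agent.TET

theorem TD_u15 : CovZ TD_M (toL (selN TD_LN 311373741114969054114857049580390680099402708753719976273568032473221628386257003564851299781715576356993)) [0, 7, 6, 1] (26112, 16128) (26112, 16896) (25344, 16128) :=
    (CovZ.n1 (25728, 16512) (by decide +kernel)
      (CovZ.n2 (26112, 16512) (by decide +kernel)
       (CovZ.n2 (25920, 16320) (by decide +kernel)
        (CovZ.n2 (25920, 16512) (by decide +kernel)
         (CovZ.n2 (26016, 16416) (by decide +kernel)
          (CovZ.leaf K2_ok TD_l3904 _)
          (CovZ.n1 (26016, 16512) (by decide +kernel)
           (CovZ.leaf K2_ok TD_l3905 _)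
           (CovZ.leaf K2_ok TD_l3906 _)))
         (CovZ.subM 286687327265757318503631776880963363925215021026629726138472340240746567395199759973682944735839005048832 (by decide +kernel)
          (CovZ.n1 (25824, 16416) (by decide +kernel)
           (CovZ.n2 (25824, 16512) (by decide +kernel)
            (CovZ.leaf K2_ok TD_l3907 _)
            (CovZ.n1 (25776, 16464) (by decide +kernel)
             (CovZ.leaf K2_ok TD_l3908 _)
             (CovZ.leaf K2_ok TD_l3909 _)))
           (CovZ.n1 (25920, 16416) (by decide +kernel)
            (CovZ.n2 (25872, 16368) (by decide +kernel)
             (CovZ.leaf K2_ok TD_l3910 _)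
             (CovZ.leaf K2_ok TD_l3911 _))
            (CovZ.n1 (25872, 16464) (by decide +kernel)
             (CovZ.leaf K2_ok TD_l3912 _)
             (CovZ.leaf K2_ok TD_l3913 _))))))
        (CovZ.n1 (26112, 16320) (by decide +kernel)
         (CovZ.n2 (26016, 16224) (by decide +kernel)
          (CovZ.n2 (26016, 16320) (by decide +kernel)
           (CovZ.leaf K2_ok TD_l3914 _)
           (CovZ.n1 (25968, 16272) (by decide +kernel)
            (CovZ.leaf K2_ok TD_l3915 _)
            (CovZ.leaf K2_ok TD_l3916 _)))
          (CovZ.n1 (26112, 16224) (by decide +kernel)
           (CovZ.n2 (26064, 16176) (by decide +kernel)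
            (CovZ.n2 (26064, 16224) (by decide +kernel)
             (CovZ.leaf K2_ok TD_l3917 _)
             (CovZ.leaf K2_ok TD_l3918 _))
            (CovZ.n1 (26112, 16176) (by decide +kernel)
             (CovZ.leaf K2_ok TD_l3919 _)
             (CovZ.leaf K2_ok TD_l3920 _)))
           (CovZ.n1 (26064, 16272) (by decide +kernel)
            (CovZ.leaf K2_ok TD_l3921 _)
            (CovZ.leaf K2_ok TD_l3922 _))))
         (CovZ.n1 (26016, 16416) (by decide +kernel)
          (CovZ.n2 (26112, 16416) (by decide +kernel)
           (CovZ.leaf K2_ok TD_l3923 _)
           (CovZ.leaf K2_ok TD_l3924 _))
          (CovZ.n1 (26016, 16320) (by decide +kernel)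
           (CovZ.n2 (25968, 16368) (by decide +kernel)
            (CovZ.leaf K2_ok TD_l3925 _)
            (CovZ.leaf K2_ok TD_l3926 _))
           (CovZ.leaf K2_ok TD_l3927 _)))))
       (CovZ.n1 (25920, 16704) (by decide +kernel)
        (CovZ.n2 (26112, 16704) (by decide +kernel)
         (CovZ.n2 (26016, 16608) (by decide +kernel)
          (CovZ.leaf K2_ok TD_l3928 _)
          (CovZ.leaf K2_ok TD_l3929 _))
         (CovZ.n1 (26016, 16800) (by decide +kernel)
          (CovZ.leaf K2_ok TD_l3930 _)
          (CovZ.leaf K2_ok TD_l3931 _)))
        (CovZ.n1 (25920, 16512) (by decide +kernel)
         (CovZ.n2 (25824, 16608) (by decide +kernel)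
          (CovZ.leaf K2_ok TD_l3932 _)
          (CovZ.n1 (25824, 16512) (by decide +kernel)
           (CovZ.leaf K2_ok TD_l3933 _)
           (CovZ.leaf K2_ok TD_l3934 _)))
         (CovZ.n1 (26016, 16608) (by decide +kernel)
          (CovZ.n2 (26016, 16512) (by decide +kernel)
           (CovZ.leaf K2_ok TD_l3935 _)
           (CovZ.leaf K2_ok TD_l3936 _))
          (CovZ.leaf K2_ok TD_l3937 _)))))
      (CovZ.n1 (25728, 16128) (by decide +kernel)
       (CovZ.subM 266998379490113760416979055628279862000043294644544161340368644218961131605970058618030744797184 (by decide +kernel)
        (CovZ.n2 (25536, 16320) (by decide +kernel)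
         TD_u12
         TD_u13))
       (CovZ.n1 (25920, 16320) (by decide +kernel)
        (CovZ.n2 (25920, 16128) (by decide +kernel)
         (CovZ.subM 286687327265757318503631776879154112530881955473136429497711591669650188143328476359718789857761330069504 (by decide +kernel)
          (CovZ.n2 (25824, 16224) (by decide +kernel)
           (CovZ.n2 (25920, 16224) (by decide +kernel)
            (CovZ.n2 (25872, 16176) (by decide +kernel)
             (CovZ.n2 (25872, 16224) (by decide +kernel)
              (CovZ.leaf K2_ok TD_l3965 _)
              (CovZ.n1 (25848, 16200) (by decide +kernel)
               (CovZ.leaf K2_ok TD_l3966 _)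
               (CovZ.leaf K2_ok TD_l3967 _)))
             (CovZ.n1 (25920, 16176) (by decide +kernel)
              (CovZ.n2 (25896, 16152) (by decide +kernel)
               (CovZ.leaf K2_ok TD_l3968 _)
               (CovZ.leaf K2_ok TD_l3969 _))
              (CovZ.leaf K2_ok TD_l3970 _)))
            (CovZ.n1 (25872, 16272) (by decide +kernel)
             (CovZ.leaf K2_ok TD_l3971 _)
             (CovZ.n1 (25872, 16224) (by decide +kernel)
              (CovZ.leaf K2_ok TD_l3972 _)
              (CovZ.leaf K2_ok TD_l3973 _))))
           (CovZ.n1 (25824, 16128) (by decide +kernel)
            (CovZ.subM 266998379490113760415169912936451758397929662073809656647179846996642309287384644571108986585088 (by decide +kernel)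
             (CovZ.n2 (25776, 16176) (by decide +kernel)
              (CovZ.n2 (25824, 16176) (by decide +kernel)
               (CovZ.n2 (25800, 16152) (by decide +kernel)
                (CovZ.leaf K2_ok TD_l15122 _)
                (CovZ.leaf K2_ok TD_l15123 _))
               (CovZ.n1 (25800, 16200) (by decide +kernel)
                (CovZ.leaf K2_ok TD_l3974 _)
                (CovZ.leaf K2_ok TD_l3975 _)))
              (CovZ.n1 (25776, 16128) (by decide +kernel)
               (CovZ.n2 (25752, 16152) (by decide +kernel)
                (CovZ.n2 (25776, 16152) (by decide +kernel)
                 (CovZ.leaf K2_ok TD_l15124 _)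
                 (CovZ.leaf K2_ok TD_l15125 _))
                (CovZ.n1 (25752, 16128) (by decide +kernel)
                 (CovZ.n2 (25740, 16140) (by decide +kernel)
                  (CovZ.leaf K2_ok TD_l15126 _)
                  (CovZ.leaf K2_ok TD_l15127 _))
                 (CovZ.leaf K2_ok TD_l15128 _)))
               (CovZ.n1 (25800, 16152) (by decide +kernel)
                (CovZ.n2 (25800, 16128) (by decide +kernel)
                 (CovZ.leaf K2_ok TD_l15129 _)
                 (CovZ.leaf K2_ok TD_l15130 _))
                (CovZ.leaf K2_ok TD_l15131 _)))))
            (CovZ.n1 (25872, 16176) (by decide +kernel)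
             (CovZ.n2 (25872, 16128) (by decide +kernel)
              (CovZ.n2 (25848, 16152) (by decide +kernel)
               (CovZ.leaf K2_ok TD_l3976 _)
               (CovZ.n1 (25848, 16128) (by decide +kernel)
                (CovZ.leaf K2_ok TD_l15132 _)
                (CovZ.leaf K2_ok TD_l15133 _)))
              (CovZ.n1 (25896, 16152) (by decide +kernel)
               (CovZ.leaf K2_ok TD_l15134 _)
               (CovZ.leaf K2_ok TD_l3977 _)))
             (CovZ.n1 (25824, 16176) (by decide +kernel)
              (CovZ.leaf K2_ok TD_l3978 _)
              (CovZ.leaf K2_ok TD_l3979 _))))))
         (CovZ.n1 (26016, 16224) (by decide +kernel)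
          (CovZ.n2 (26016, 16128) (by decide +kernel)
           (CovZ.subM 291202914931019990305139137307125266519547028840730470986490363323133212835928935334452165968863080611840 (by decide +kernel)
            (CovZ.n2 (25968, 16176) (by decide +kernel)
             (CovZ.n2 (26016, 16176) (by decide +kernel)
              (CovZ.n2 (25992, 16152) (by decide +kernel)
               (CovZ.leaf K2_ok TD_l3980 _)
               (CovZ.leaf K2_ok TD_l3981 _))
              (CovZ.leaf K2_ok TD_l3982 _))
             (CovZ.n1 (25968, 16128) (by decide +kernel)
              (CovZ.n2 (25944, 16152) (by decide +kernel)
               (CovZ.leaf K2_ok TD_l3983 _)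
               (CovZ.leaf K2_ok TD_l3984 _))
              (CovZ.leaf K2_ok TD_l3985 _))))
           (CovZ.n1 (26064, 16176) (by decide +kernel)
            (CovZ.n2 (26064, 16128) (by decide +kernel)
             (CovZ.leaf K2_ok TD_l3986 _)
             (CovZ.leaf K2_ok TD_l3987 _))
            (CovZ.leaf K2_ok TD_l3988 _)))
          (CovZ.subM 291202914931019990305139137307125266519547028840730470986490363323133212835928935334452165968863080611840 (by decide +kernel)
           (CovZ.n1 (25920, 16224) (by decide +kernel)
            (CovZ.n2 (25968, 16272) (by decide +kernel)
             (CovZ.n2 (25968, 16224) (by decide +kernel)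
              (CovZ.leaf K2_ok TD_l3989 _)
              (CovZ.leaf K2_ok TD_l3990 _))
             (CovZ.leaf K2_ok TD_l3991 _))
            (CovZ.n1 (25968, 16176) (by decide +kernel)
             (CovZ.leaf K2_ok TD_l3992 _)
             (CovZ.n1 (25968, 16224) (by decide +kernel)
              (CovZ.leaf K2_ok TD_l3993 _)
              (CovZ.leaf K2_ok TD_l3994 _)))))))
        (CovZ.subM 286687327265757318503631776880963363925215021026629726138472340240746567395199759973682944735839005048832 (by decide +kernel)
         (CovZ.n1 (25728, 16320) (by decide +kernel)
          (CovZ.n2 (25824, 16416) (by decide +kernel)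
           (CovZ.n2 (25824, 16320) (by decide +kernel)
            (CovZ.n2 (25776, 16368) (by decide +kernel)
             (CovZ.leaf K2_ok TD_l3995 _)
             (CovZ.n1 (25776, 16320) (by decide +kernel)
              (CovZ.leaf K2_ok TD_l3996 _)
              (CovZ.leaf K2_ok TD_l3997 _)))
            (CovZ.n1 (25872, 16368) (by decide +kernel)
             (CovZ.leaf K2_ok TD_l3998 _)
             (CovZ.leaf K2_ok TD_l3999 _)))
           (CovZ.n1 (25728, 16416) (by decide +kernel)
            (CovZ.leaf K2_ok TD_l4000 _)
            (CovZ.leaf K2_ok TD_l4001 _)))
          (CovZ.n1 (25824, 16224) (by decide +kernel)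
           (CovZ.n2 (25728, 16224) (by decide +kernel)
            (CovZ.n2 (25776, 16272) (by decide +kernel)
             (CovZ.n2 (25776, 16224) (by decide +kernel)
              (CovZ.n2 (25752, 16248) (by decide +kernel)
               (CovZ.leaf K2_ok TD_l4002 _)
               (CovZ.leaf K2_ok TD_l4003 _))
              (CovZ.leaf K2_ok TD_l4004 _))
             (CovZ.leaf K2_ok TD_l4005 _))
            (CovZ.subM 266998379490113760415169912936451758397929662073809656647179846996642309287384644571108986585088 (by decide +kernel)
             (CovZ.n1 (25776, 16176) (by decide +kernel)
              (CovZ.n2 (25728, 16176) (by decide +kernel)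
               (CovZ.n2 (25752, 16200) (by decide +kernel)
                (CovZ.n2 (25752, 16176) (by decide +kernel)
                 (CovZ.leaf K2_ok TD_l15135 _)
                 (CovZ.leaf K2_ok TD_l15136 _))
                (CovZ.leaf K2_ok TD_l15137 _))
               (CovZ.n1 (25752, 16152) (by decide +kernel)
                (CovZ.n2 (25728, 16152) (by decide +kernel)
                 (CovZ.leaf K2_ok TD_l15138 _)
                 (CovZ.leaf K2_ok TD_l15139 _))
                (CovZ.n1 (25752, 16176) (by decide +kernel)
                 (CovZ.leaf K2_ok TD_l15140 _)
                 (CovZ.leaf K2_ok TD_l15141 _))))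
              (CovZ.n1 (25776, 16224) (by decide +kernel)
               (CovZ.leaf K2_ok TD_l4006 _)
               (CovZ.n1 (25752, 16200) (by decide +kernel)
                (CovZ.leaf K2_ok TD_l4007 _)
                (CovZ.leaf K2_ok TD_l4008 _))))))
           (CovZ.n1 (25824, 16320) (by decide +kernel)
            (CovZ.n2 (25872, 16272) (by decide +kernel)
             (CovZ.leaf K2_ok TD_l4009 _)
             (CovZ.leaf K2_ok TD_l4010 _))
            (CovZ.n1 (25776, 16272) (by decide +kernel)
             (CovZ.n2 (25776, 16320) (by decide +kernel)
              (CovZ.leaf K2_ok TD_l4011 _)
              (CovZ.leaf K2_ok TD_l4012 _))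
             (CovZ.n1 (25824, 16272) (by decide +kernel)
              (CovZ.leaf K2_ok TD_l4013 _)
              (CovZ.leaf K2_ok TD_l4014 _))))))))))

theorem TD_u16 : CovZ TD_M (toL (selN TD_LN 1725436586697640946858688965580145398854247892843444268918585088278528)) [0, 7, 6, 1] (24576, 16896) (24960, 16512) (25344, 16896) :=
    (CovZ.n2 (24960, 16896) (by decide +kernel)
        (CovZ.n2 (25152, 16704) (by decide +kernel)
         (CovZ.n2 (24960, 16704) (by decide +kernel)
          (CovZ.n2 (25056, 16800) (by decide +kernel)
           (CovZ.n2 (25056, 16704) (by decide +kernel)
            (CovZ.n2 (25008, 16752) (by decide +kernel)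
             (CovZ.leaf K2_ok TD_l4086 _)
             (CovZ.leaf K2_ok TD_l4087 _))
            (CovZ.n1 (25104, 16752) (by decide +kernel)
             (CovZ.leaf K2_ok TD_l4088 _)
             (CovZ.leaf K2_ok TD_l4089 _)))
           (CovZ.n1 (24960, 16800) (by decide +kernel)
            (CovZ.leaf K2_ok TD_l4090 _)
            (CovZ.leaf K2_ok TD_l4091 _)))
          (CovZ.n1 (25056, 16608) (by decide +kernel)
           (CovZ.n2 (24960, 16608) (by decide +kernel)
            (CovZ.n2 (25008, 16656) (by decide +kernel)
             (CovZ.n2 (25008, 16608) (by decide +kernel)
              (CovZ.leaf K2_ok TD_l4092 _)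
              (CovZ.leaf K2_ok TD_l4093 _))
             (CovZ.leaf K2_ok TD_l4094 _))
            (CovZ.n1 (25008, 16560) (by decide +kernel)
             (CovZ.badM (by decide +kernel))
             (CovZ.n1 (25008, 16608) (by decide +kernel)
              (CovZ.leaf K2_ok TD_l15178 _)
              (CovZ.n1 (24984, 16584) (by decide +kernel)
               (CovZ.leaf K2_ok TD_l15179 _)
               (CovZ.leaf K2_ok TD_l15180 _)))))
           (CovZ.n1 (25056, 16704) (by decide +kernel)
            (CovZ.n2 (25104, 16656) (by decide +kernel)
             (CovZ.leaf K2_ok TD_l4095 _)
             (CovZ.leaf K2_ok TD_l4096 _))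
            (CovZ.n1 (25008, 16656) (by decide +kernel)
             (CovZ.n2 (25008, 16704) (by decide +kernel)
              (CovZ.leaf K2_ok TD_l4097 _)
              (CovZ.leaf K2_ok TD_l4098 _))
             (CovZ.n1 (25056, 16656) (by decide +kernel)
              (CovZ.leaf K2_ok TD_l4099 _)
              (CovZ.leaf K2_ok TD_l4100 _))))))
         (CovZ.n1 (25152, 16896) (by decide +kernel)
          (CovZ.n2 (25248, 16800) (by decide +kernel)
           (CovZ.leaf K2_ok TD_l4101 _)
           (CovZ.n1 (25248, 16896) (by decide +kernel)
            (CovZ.leaf K2_ok TD_l4102 _)
            (CovZ.leaf K2_ok TD_l4103 _)))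
          (CovZ.n1 (25056, 16800) (by decide +kernel)
           (CovZ.n2 (25056, 16896) (by decide +kernel)
            (CovZ.leaf K2_ok TD_l4104 _)
            (CovZ.leaf K2_ok TD_l4105 _))
           (CovZ.n1 (25152, 16800) (by decide +kernel)
            (CovZ.n2 (25104, 16752) (by decide +kernel)
             (CovZ.leaf K2_ok TD_l4106 _)
             (CovZ.leaf K2_ok TD_l4107 _))
            (CovZ.leaf K2_ok TD_l4108 _)))))
        (CovZ.n1 (24768, 16704) (by decide +kernel)
         (CovZ.n2 (24768, 16896) (by decide +kernel)
          (CovZ.n2 (24864, 16800) (by decide +kernel)
           (CovZ.n2 (24768, 16800) (by decide +kernel)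
            (CovZ.n2 (24816, 16848) (by decide +kernel)
             (CovZ.leaf K2_ok TD_l4109 _)
             (CovZ.leaf K2_ok TD_l4110 _))
            (CovZ.n1 (24816, 16752) (by decide +kernel)
             (CovZ.leaf K2_ok TD_l4111 _)
             (CovZ.leaf K2_ok TD_l4112 _)))
           (CovZ.n1 (24864, 16896) (by decide +kernel)
            (CovZ.leaf K2_ok TD_l4113 _)
            (CovZ.n1 (24816, 16848) (by decide +kernel)
             (CovZ.leaf K2_ok TD_l4114 _)
             (CovZ.leaf K2_ok TD_l4115 _))))
          (CovZ.n1 (24672, 16800) (by decide +kernel)
           (CovZ.n2 (24672, 16896) (by decide +kernel)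
            (CovZ.leaf K2_ok TD_l4116 _)
            (CovZ.n1 (24624, 16848) (by decide +kernel)
             (CovZ.leaf K2_ok TD_l15181 _)
             (CovZ.n1 (24672, 16848) (by decide +kernel)
              (CovZ.leaf K2_ok TD_l15182 _)
              (CovZ.leaf K2_ok TD_l15183 _))))
           (CovZ.n1 (24768, 16800) (by decide +kernel)
            (CovZ.n2 (24720, 16752) (by decide +kernel)
             (CovZ.n2 (24720, 16800) (by decide +kernel)
              (CovZ.leaf K2_ok TD_l4117 _)
              (CovZ.badM (by decide +kernel)))
             (CovZ.n1 (24768, 16752) (by decide +kernel)
              (CovZ.badM (by decide +kernel))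
              (CovZ.leaf K2_ok TD_l4121 _)))
            (CovZ.n1 (24720, 16848) (by decide +kernel)
             (CovZ.leaf K2_ok TD_l4122 _)
             (CovZ.n1 (24720, 16800) (by decide +kernel)
              (CovZ.leaf K2_ok TD_l4123 _)
              (CovZ.leaf K2_ok TD_l4124 _))))))
         (CovZ.n1 (24960, 16704) (by decide +kernel)
          (CovZ.n2 (24864, 16608) (by decide +kernel)
           (CovZ.n2 (24864, 16704) (by decide +kernel)
            (CovZ.n2 (24912, 16656) (by decide +kernel)
             (CovZ.n2 (24864, 16656) (by decide +kernel)
              (CovZ.leaf K2_ok TD_l4125 _)
              (CovZ.badM (by decide +kernel)))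
             (CovZ.n1 (24912, 16704) (by decide +kernel)
              (CovZ.leaf K2_ok TD_l4127 _)
              (CovZ.leaf K2_ok TD_l4128 _)))
            (CovZ.n1 (24816, 16656) (by decide +kernel)
             (CovZ.n2 (24816, 16704) (by decide +kernel)
              (CovZ.leaf K2_ok TD_l4129 _)
              (CovZ.badM (by decide +kernel)))
             (CovZ.n1 (24864, 16656) (by decide +kernel)
              (CovZ.badM (by decide +kernel))
              (CovZ.n1 (24840, 16680) (by decide +kernel)
               (CovZ.leaf K2_ok TD_l4132 _)
               (CovZ.badM (by decide +kernel))))))
           (CovZ.n1 (24960, 16608) (by decide +kernel)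
            (CovZ.badM (by decide +kernel))
            (CovZ.n1 (24912, 16656) (by decide +kernel)
             (CovZ.n2 (24960, 16656) (by decide +kernel)
              (CovZ.n2 (24936, 16632) (by decide +kernel)
               (CovZ.leaf K2_ok TD_l4134 _)
               (CovZ.leaf K2_ok TD_l4135 _))
              (CovZ.leaf K2_ok TD_l4136 _))
             (CovZ.badM (by decide +kernel)))))
          (CovZ.n1 (24864, 16800) (by decide +kernel)
           (CovZ.n2 (24960, 16800) (by decide +kernel)
            (CovZ.n2 (24912, 16752) (by decide +kernel)
             (CovZ.leaf K2_ok TD_l4139 _)
             (CovZ.leaf K2_ok TD_l4140 _))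
            (CovZ.n1 (24912, 16848) (by decide +kernel)
             (CovZ.leaf K2_ok TD_l4141 _)
             (CovZ.leaf K2_ok TD_l4142 _)))
           (CovZ.n1 (24864, 16704) (by decide +kernel)
            (CovZ.n2 (24816, 16752) (by decide +kernel)
             (CovZ.n2 (24864, 16752) (by decide +kernel)
              (CovZ.leaf K2_ok TD_l4143 _)
              (CovZ.leaf K2_ok TD_l4144 _))
             (CovZ.n1 (24816, 16704) (by decide +kernel)
              (CovZ.leaf K2_ok TD_l4145 _)
              (CovZ.leaf K2_ok TD_l4146 _)))
            (CovZ.n1 (24912, 16752) (by decide +kernel)
             (CovZ.n2 (24912, 16704) (by decide +kernel)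
              (CovZ.leaf K2_ok TD_l4147 _)
              (CovZ.leaf K2_ok TD_l4148 _))
             (CovZ.leaf K2_ok TD_l4149 _)))))))

theorem TD_u17 : CovZ TD_M (toL (selN TD_LN 1725436586697640946858688965580145398854247892843444268918585088278528)) [0, 7, 6, 1] (24960, 16512) (25344, 16128) (25344, 16896) :=
    (CovZ.n1 (25344, 16512) (by decide +kernel)
        (CovZ.n2 (25152, 16320) (by decide +kernel)
         (CovZ.n2 (25152, 16512) (by decide +kernel)
          (CovZ.n2 (25248, 16416) (by decide +kernel)
           (CovZ.n2 (25152, 16416) (by decide +kernel)
            (CovZ.n2 (25200, 16464) (by decide +kernel)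
             (CovZ.badM (by decide +kernel))
             (CovZ.n1 (25152, 16464) (by decide +kernel)
              (CovZ.n2 (25176, 16488) (by decide +kernel)
               (CovZ.n2 (25176, 16464) (by decide +kernel)
                (CovZ.leaf K2_ok TD_l15186 _)
                (CovZ.leaf K2_ok TD_l15187 _))
               (CovZ.leaf K2_ok TD_l15188 _))
              (CovZ.badM (by decide +kernel))))
            (CovZ.badM (by decide +kernel)))
           (CovZ.n1 (25248, 16512) (by decide +kernel)
            (CovZ.n2 (25296, 16464) (by decide +kernel)
             (CovZ.n2 (25248, 16464) (by decide +kernel)
              (CovZ.leaf K2_ok TD_l15190 _)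
              (CovZ.leaf K2_ok TD_l15191 _))
             (CovZ.n1 (25296, 16512) (by decide +kernel)
              (CovZ.leaf K2_ok TD_l4150 _)
              (CovZ.leaf K2_ok TD_l15192 _)))
            (CovZ.n1 (25200, 16464) (by decide +kernel)
             (CovZ.n2 (25200, 16512) (by decide +kernel)
              (CovZ.leaf K2_ok TD_l15193 _)
              (CovZ.n1 (25176, 16488) (by decide +kernel)
               (CovZ.leaf K2_ok TD_l15194 _)
               (CovZ.leaf K2_ok TD_l15195 _)))
             (CovZ.n1 (25248, 16464) (by decide +kernel)
              (CovZ.n2 (25224, 16440) (by decide +kernel)
               (CovZ.leaf K2_ok TD_l15196 _)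
               (CovZ.leaf K2_ok TD_l15197 _))
              (CovZ.n1 (25224, 16488) (by decide +kernel)
               (CovZ.leaf K2_ok TD_l15198 _)
               (CovZ.leaf K2_ok TD_l15199 _))))))
          (CovZ.n1 (25056, 16416) (by decide +kernel)
           (CovZ.n2 (25056, 16512) (by decide +kernel)
            (CovZ.n2 (25104, 16464) (by decide +kernel)
             (CovZ.badM (by decide +kernel))
             (CovZ.n1 (25104, 16512) (by decide +kernel)
              (CovZ.n2 (25128, 16488) (by decide +kernel)
               (CovZ.badM (by decide +kernel))
               (CovZ.leaf K2_ok TD_l15200 _))
              (CovZ.badM (by decide +kernel))))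
            (CovZ.badM (by decide +kernel)))
           (CovZ.n1 (25152, 16416) (by decide +kernel)
            (CovZ.badM (by decide +kernel))
            (CovZ.n1 (25104, 16464) (by decide +kernel)
             (CovZ.n2 (25152, 16464) (by decide +kernel)
              (CovZ.badM (by decide +kernel))
              (CovZ.n1 (25128, 16488) (by decide +kernel)
               (CovZ.leaf K2_ok TD_l15201 _)
               (CovZ.badM (by decide +kernel))))
             (CovZ.badM (by decide +kernel))))))
         (CovZ.n1 (25344, 16320) (by decide +kernel)
          (CovZ.badM (by decide +kernel))
          (CovZ.n1 (25248, 16416) (by decide +kernel)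
           (CovZ.n2 (25344, 16416) (by decide +kernel)
            (CovZ.n2 (25296, 16368) (by decide +kernel)
             (CovZ.n2 (25296, 16416) (by decide +kernel)
              (CovZ.n2 (25320, 16392) (by decide +kernel)
               (CovZ.leaf K2_ok TD_l15202 _)
               (CovZ.leaf K2_ok TD_l15203 _))
              (CovZ.n1 (25272, 16392) (by decide +kernel)
               (CovZ.leaf K2_ok TD_l15204 _)
               (CovZ.n1 (25296, 16392) (by decide +kernel)
                (CovZ.badM (by decide +kernel))
                (CovZ.leaf K2_ok TD_l15206 _))))
             (CovZ.n1 (25344, 16368) (by decide +kernel)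
              (CovZ.n2 (25320, 16344) (by decide +kernel)
               (CovZ.n2 (25320, 16368) (by decide +kernel)
                (CovZ.leaf K2_ok TD_l15207 _)
                (CovZ.badM (by decide +kernel)))
               (CovZ.n1 (25344, 16344) (by decide +kernel)
                (CovZ.badM (by decide +kernel))
                (CovZ.leaf K2_ok TD_l15208 _)))
              (CovZ.n1 (25320, 16392) (by decide +kernel)
               (CovZ.leaf K2_ok TD_l15209 _)
               (CovZ.n1 (25320, 16368) (by decide +kernel)
                (CovZ.leaf K2_ok TD_l15210 _)
                (CovZ.leaf K2_ok TD_l15211 _)))))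
            (CovZ.n1 (25296, 16464) (by decide +kernel)
             (CovZ.n2 (25344, 16464) (by decide +kernel)
              (CovZ.n2 (25320, 16440) (by decide +kernel)
               (CovZ.leaf K2_ok TD_l4151 _)
               (CovZ.leaf K2_ok TD_l4152 _))
              (CovZ.leaf K2_ok TD_l4153 _))
             (CovZ.n1 (25296, 16416) (by decide +kernel)
              (CovZ.n2 (25272, 16440) (by decide +kernel)
               (CovZ.leaf K2_ok TD_l15212 _)
               (CovZ.leaf K2_ok TD_l15213 _))
              (CovZ.n1 (25320, 16440) (by decide +kernel)
               (CovZ.leaf K2_ok TD_l15214 _)
               (CovZ.leaf K2_ok TD_l15215 _)))))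
           (CovZ.n1 (25248, 16320) (by decide +kernel)
            (CovZ.badM (by decide +kernel))
            (CovZ.n1 (25296, 16368) (by decide +kernel)
             (CovZ.badM (by decide +kernel))
             (CovZ.badM (by decide +kernel)))))))
        (CovZ.n1 (25152, 16704) (by decide +kernel)
         (CovZ.n2 (25344, 16704) (by decide +kernel)
          (CovZ.n2 (25248, 16608) (by decide +kernel)
           (CovZ.n2 (25248, 16704) (by decide +kernel)
            (CovZ.leaf K2_ok TD_l4154 _)
            (CovZ.n1 (25200, 16656) (by decide +kernel)
             (CovZ.leaf K2_ok TD_l4155 _)
             (CovZ.leaf K2_ok TD_l4156 _)))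
           (CovZ.n1 (25344, 16608) (by decide +kernel)
            (CovZ.n2 (25296, 16560) (by decide +kernel)
             (CovZ.leaf K2_ok TD_l4157 _)
             (CovZ.leaf K2_ok TD_l4158 _))
            (CovZ.n1 (25296, 16656) (by decide +kernel)
             (CovZ.leaf K2_ok TD_l4159 _)
             (CovZ.leaf K2_ok TD_l4160 _))))
          (CovZ.n1 (25248, 16800) (by decide +kernel)
           (CovZ.n2 (25344, 16800) (by decide +kernel)
            (CovZ.leaf K2_ok TD_l4161 _)
            (CovZ.leaf K2_ok TD_l4162 _))
           (CovZ.n1 (25248, 16704) (by decide +kernel)
            (CovZ.leaf K2_ok TD_l4163 _)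
            (CovZ.leaf K2_ok TD_l4164 _))))
         (CovZ.n1 (25152, 16512) (by decide +kernel)
          (CovZ.n2 (25056, 16608) (by decide +kernel)
           (CovZ.n2 (25152, 16608) (by decide +kernel)
            (CovZ.n2 (25104, 16560) (by decide +kernel)
             (CovZ.n2 (25104, 16608) (by decide +kernel)
              (CovZ.leaf K2_ok TD_l15216 _)
              (CovZ.leaf K2_ok TD_l15217 _))
             (CovZ.n1 (25152, 16560) (by decide +kernel)
              (CovZ.n2 (25128, 16536) (by decide +kernel)
               (CovZ.leaf K2_ok TD_l15218 _)
               (CovZ.leaf K2_ok TD_l15219 _))
              (CovZ.leaf K2_ok TD_l15220 _)))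
            (CovZ.n1 (25104, 16656) (by decide +kernel)
             (CovZ.leaf K2_ok TD_l4165 _)
             (CovZ.n1 (25104, 16608) (by decide +kernel)
              (CovZ.leaf K2_ok TD_l4166 _)
              (CovZ.leaf K2_ok TD_l4167 _))))
           (CovZ.n1 (25056, 16512) (by decide +kernel)
            (CovZ.n2 (25008, 16560) (by decide +kernel)
             (CovZ.n2 (25056, 16560) (by decide +kernel)
              (CovZ.badM (by decide +kernel))
              (CovZ.n1 (25032, 16584) (by decide +kernel)
               (CovZ.leaf K2_ok TD_l15223 _)
               (CovZ.badM (by decide +kernel))))
             (CovZ.badM (by decide +kernel)))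
            (CovZ.n1 (25104, 16560) (by decide +kernel)
             (CovZ.n2 (25104, 16512) (by decide +kernel)
              (CovZ.n2 (25080, 16536) (by decide +kernel)
               (CovZ.leaf K2_ok TD_l15225 _)
               (CovZ.badM (by decide +kernel)))
              (CovZ.leaf K2_ok TD_l15226 _))
             (CovZ.leaf K2_ok TD_l15227 _))))
          (CovZ.n1 (25248, 16608) (by decide +kernel)
           (CovZ.n2 (25248, 16512) (by decide +kernel)
            (CovZ.n2 (25200, 16560) (by decide +kernel)
             (CovZ.n2 (25248, 16560) (by decide +kernel)
              (CovZ.leaf K2_ok TD_l15228 _)
              (CovZ.leaf K2_ok TD_l4168 _))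
             (CovZ.n1 (25200, 16512) (by decide +kernel)
              (CovZ.leaf K2_ok TD_l15229 _)
              (CovZ.leaf K2_ok TD_l15230 _)))
            (CovZ.n1 (25296, 16560) (by decide +kernel)
             (CovZ.n2 (25296, 16512) (by decide +kernel)
              (CovZ.leaf K2_ok TD_l4169 _)
              (CovZ.leaf K2_ok TD_l4170 _))
             (CovZ.leaf K2_ok TD_l4171 _)))
           (CovZ.n1 (25152, 16608) (by decide +kernel)
            (CovZ.n2 (25200, 16656) (by decide +kernel)
             (CovZ.leaf K2_ok TD_l4172 _)
             (CovZ.leaf K2_ok TD_l4173 _))
            (CovZ.n1 (25200, 16560) (by decide +kernel)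
             (CovZ.leaf K2_ok TD_l15231 _)
             (CovZ.n1 (25200, 16608) (by decide +kernel)
              (CovZ.leaf K2_ok TD_l4174 _)
              (CovZ.leaf K2_ok TD_l4175 _))))))))

theorem TD_u18 : CovZ TD_M (toL (selN TD_LN 4596520521635848257140367372422503640783845070923433472690522197644334032571426165206543849290918583599104)) [0, 7, 6, 1] (26880, 15744) (26688, 15744) (26688, 15552) :=
    (CovZ.subM 4587557168165687474274281151174315992662660389710870909858902676049086700144764656376382325593569274888192 (by decide +kernel)
             (CovZ.n2 (26784, 15648) (by decide +kernel)
              (CovZ.n2 (26688, 15648) (by decide +kernel)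
               (CovZ.n2 (26736, 15696) (by decide +kernel)
                (CovZ.n2 (26736, 15648) (by decide +kernel)
                 (CovZ.n2 (26712, 15672) (by decide +kernel)
                  (CovZ.n2 (26736, 15672) (by decide +kernel)
                   (CovZ.badM (by decide +kernel))
                   (CovZ.n1 (26724, 15684) (by decide +kernel)
                    (CovZ.leaf K2_ok TD_l18915 _)
                    (CovZ.badM (by decide +kernel))))
                  (CovZ.badM (by decide +kernel)))
                 (CovZ.n1 (26760, 15672) (by decide +kernel)
                  (CovZ.n2 (26760, 15648) (by decide +kernel)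
                   (CovZ.n2 (26748, 15660) (by decide +kernel)
                    (CovZ.n2 (26760, 15660) (by decide +kernel)
                     (CovZ.badM (by decide +kernel))
                     (CovZ.leaf K2_ok TD_l18916 _))
                    (CovZ.badM (by decide +kernel)))
                   (CovZ.n1 (26772, 15660) (by decide +kernel)
                    (CovZ.n2 (26772, 15648) (by decide +kernel)
                     (CovZ.leaf K2_ok TD_l18917 _)
                     (CovZ.leaf K2_ok TD_l18918 _))
                    (CovZ.n1 (26760, 15660) (by decide +kernel)
                     (CovZ.leaf K2_ok TD_l18919 _)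
                     (CovZ.leaf K2_ok TD_l18920 _))))
                  (CovZ.n1 (26736, 15672) (by decide +kernel)
                   (CovZ.n2 (26748, 15684) (by decide +kernel)
                    (CovZ.leaf K2_ok TD_l18921 _)
                    (CovZ.leaf K2_ok TD_l18922 _))
                   (CovZ.n1 (26748, 15660) (by decide +kernel)
                    (CovZ.badM (by decide +kernel))
                    (CovZ.n1 (26748, 15672) (by decide +kernel)
                     (CovZ.leaf K2_ok TD_l18923 _)
                     (CovZ.badM (by decide +kernel)))))))
                (CovZ.n1 (26688, 15696) (by decide +kernel)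
                 (CovZ.n2 (26712, 15720) (by decide +kernel)
                  (CovZ.n2 (26712, 15696) (by decide +kernel)
                   (CovZ.n2 (26700, 15708) (by decide +kernel)
                    (CovZ.leaf K2_ok TD_l18924 _)
                    (CovZ.n1 (26700, 15696) (by decide +kernel)
                     (CovZ.leaf K2_ok TD_l18925 _)
                     (CovZ.leaf K2_ok TD_l18926 _)))
                   (CovZ.leaf K2_ok TD_l18927 _))
                  (CovZ.n1 (26688, 15720) (by decide +kernel)
                   (CovZ.leaf K2_ok TD_l15874 _)
                   (CovZ.leaf K2_ok TD_l18928 _)))
                 (CovZ.n1 (26712, 15672) (by decide +kernel)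
                  (CovZ.n2 (26688, 15672) (by decide +kernel)
                   (CovZ.n2 (26700, 15684) (by decide +kernel)
                    (CovZ.badM (by decide +kernel))
                    (CovZ.leaf K2_ok TD_l18929 _))
                   (CovZ.badM (by decide +kernel)))
                  (CovZ.n1 (26712, 15696) (by decide +kernel)
                   (CovZ.leaf K2_ok TD_l18930 _)
                   (CovZ.n1 (26700, 15684) (by decide +kernel)
                    (CovZ.leaf K2_ok TD_l18931 _)
                    (CovZ.badM (by decide +kernel)))))))
               (CovZ.badM (by decide +kernel)))
              (CovZ.n1 (26784, 15744) (by decide +kernel)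
               (CovZ.n2 (26832, 15696) (by decide +kernel)
                (CovZ.n2 (26784, 15696) (by decide +kernel)
                 (CovZ.n2 (26808, 15720) (by decide +kernel)
                  (CovZ.n2 (26808, 15696) (by decide +kernel)
                   (CovZ.leaf K2_ok TD_l18932 _)
                   (CovZ.badM (by decide +kernel)))
                  (CovZ.leaf K2_ok TD_l18933 _))
                 (CovZ.n1 (26808, 15672) (by decide +kernel)
                  (CovZ.n2 (26784, 15672) (by decide +kernel)
                   (CovZ.leaf K2_ok TD_l18934 _)
                   (CovZ.n1 (26796, 15660) (by decide +kernel)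
                    (CovZ.leaf K2_ok TD_l18935 _)
                    (CovZ.leaf K2_ok TD_l18936 _)))
                  (CovZ.n1 (26808, 15696) (by decide +kernel)
                   (CovZ.badM (by decide +kernel))
                   (CovZ.leaf K2_ok TD_l18937 _))))
                (CovZ.n1 (26832, 15744) (by decide +kernel)
                 (CovZ.badM (by decide +kernel))
                 (CovZ.n1 (26808, 15720) (by decide +kernel)
                  (CovZ.leaf K2_ok TD_l18938 _)
                  (CovZ.badM (by decide +kernel)))))
               (CovZ.n1 (26736, 15696) (by decide +kernel)
                (CovZ.n2 (26736, 15744) (by decide +kernel)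
                 (CovZ.n2 (26760, 15720) (by decide +kernel)
                  (CovZ.leaf K2_ok TD_l15875 _)
                  (CovZ.n1 (26760, 15744) (by decide +kernel)
                   (CovZ.leaf K2_ok TD_l18939 _)
                   (CovZ.leaf K2_ok TD_l15876 _)))
                 (CovZ.n1 (26712, 15720) (by decide +kernel)
                  (CovZ.n2 (26712, 15744) (by decide +kernel)
                   (CovZ.leaf K2_ok TD_l15877 _)
                   (CovZ.leaf K2_ok TD_l15878 _))
                  (CovZ.n1 (26736, 15720) (by decide +kernel)
                   (CovZ.n2 (26724, 15708) (by decide +kernel)
                    (CovZ.leaf K2_ok TD_l18940 _)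
                    (CovZ.leaf K2_ok TD_l18941 _))
                   (CovZ.leaf K2_ok TD_l15879 _))))
                (CovZ.n1 (26784, 15696) (by decide +kernel)
                 (CovZ.n2 (26760, 15672) (by decide +kernel)
                  (CovZ.n2 (26760, 15696) (by decide +kernel)
                   (CovZ.n2 (26772, 15684) (by decide +kernel)
                    (CovZ.leaf K2_ok TD_l18942 _)
                    (CovZ.leaf K2_ok TD_l18943 _))
                   (CovZ.n1 (26748, 15684) (by decide +kernel)
                    (CovZ.leaf K2_ok TD_l18944 _)
                    (CovZ.leaf K2_ok TD_l18945 _)))
                  (CovZ.n1 (26784, 15672) (by decide +kernel)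
                   (CovZ.n2 (26772, 15660) (by decide +kernel)
                    (CovZ.leaf K2_ok TD_l18946 _)
                    (CovZ.n1 (26784, 15660) (by decide +kernel)
                     (CovZ.leaf K2_ok TD_l18947 _)
                     (CovZ.leaf K2_ok TD_l18948 _)))
                   (CovZ.n1 (26772, 15684) (by decide +kernel)
                    (CovZ.leaf K2_ok TD_l18949 _)
                    (CovZ.leaf K2_ok TD_l18950 _))))
                 (CovZ.n1 (26760, 15720) (by decide +kernel)
                  (CovZ.n2 (26784, 15720) (by decide +kernel)
                   (CovZ.leaf K2_ok TD_l18951 _)
                   (CovZ.leaf K2_ok TD_l18952 _))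
                  (CovZ.n1 (26760, 15696) (by decide +kernel)
                   (CovZ.leaf K2_ok TD_l18953 _)
                   (CovZ.leaf K2_ok TD_l18954 _))))))))

theorem TD_u19 : CovZ TD_M (toL (selN TD_LN 4596520521635848257140367372422503640783845070923433472690522197644334032571426165206543849290918583599104)) [0, 7, 6, 1] (26688, 15744) (26496, 15744) (26688, 15552) :=
    (CovZ.n1 (26592, 15648) (by decide +kernel)
             (CovZ.n2 (26592, 15744) (by decide +kernel)
              (CovZ.subM 4587561542667137040298129896178770227905391096049732696283775527590299520050763055128228772619923320995840 (by decide +kernel)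
               (CovZ.n2 (26640, 15696) (by decide +kernel)
                (CovZ.n2 (26592, 15696) (by decide +kernel)
                 (CovZ.n2 (26616, 15720) (by decide +kernel)
                  (CovZ.badM (by decide +kernel))
                  (CovZ.n1 (26592, 15720) (by decide +kernel)
                   (CovZ.n2 (26604, 15732) (by decide +kernel)
                    (CovZ.badM (by decide +kernel))
                    (CovZ.leaf K2_ok TD_l15880 _))
                   (CovZ.badM (by decide +kernel))))
                 (CovZ.badM (by decide +kernel)))
                (CovZ.n1 (26640, 15744) (by decide +kernel)
                 (CovZ.n2 (26664, 15720) (by decide +kernel)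
                  (CovZ.n2 (26640, 15720) (by decide +kernel)
                   (CovZ.n2 (26652, 15732) (by decide +kernel)
                    (CovZ.leaf K2_ok TD_l18955 _)
                    (CovZ.leaf K2_ok TD_l15881 _))
                   (CovZ.n1 (26652, 15708) (by decide +kernel)
                    (CovZ.leaf K2_ok TD_l18956 _)
                    (CovZ.n1 (26652, 15720) (by decide +kernel)
                     (CovZ.leaf K2_ok TD_l18957 _)
                     (CovZ.leaf K2_ok TD_l18958 _))))
                  (CovZ.n1 (26664, 15744) (by decide +kernel)
                   (CovZ.leaf K2_ok TD_l15882 _)
                   (CovZ.n1 (26652, 15732) (by decide +kernel)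
                    (CovZ.leaf K2_ok TD_l15883 _)
                    (CovZ.leaf K2_ok TD_l15884 _))))
                 (CovZ.n1 (26616, 15720) (by decide +kernel)
                  (CovZ.n2 (26616, 15744) (by decide +kernel)
                   (CovZ.leaf K2_ok TD_l15885 _)
                   (CovZ.n1 (26604, 15732) (by decide +kernel)
                    (CovZ.leaf K2_ok TD_l15886 _)
                    (CovZ.leaf K2_ok TD_l15887 _)))
                  (CovZ.n1 (26640, 15720) (by decide +kernel)
                   (CovZ.n2 (26628, 15708) (by decide +kernel)
                    (CovZ.n2 (26628, 15720) (by decide +kernel)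
                     (CovZ.leaf K2_ok TD_l18959 _)
                     (CovZ.badM (by decide +kernel)))
                    (CovZ.n1 (26640, 15708) (by decide +kernel)
                     (CovZ.badM (by decide +kernel))
                     (CovZ.leaf K2_ok TD_l18960 _)))
                   (CovZ.n1 (26628, 15732) (by decide +kernel)
                    (CovZ.leaf K2_ok TD_l15888 _)
                    (CovZ.leaf K2_ok TD_l18341 _)))))))
              (CovZ.subM 4595956210948854240063871678297547037717400674062189494511195276926165217277627836326126640296382552866816 (by decide +kernel)
               (CovZ.n1 (26544, 15696) (by decide +kernel)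
                (CovZ.n2 (26544, 15744) (by decide +kernel)
                 (CovZ.n2 (26568, 15720) (by decide +kernel)
                  (CovZ.n2 (26544, 15720) (by decide +kernel)
                   (CovZ.n2 (26556, 15732) (by decide +kernel)
                    (CovZ.n2 (26556, 15720) (by decide +kernel)
                     (CovZ.leaf K2_ok TD_l18342 _)
                     (CovZ.n1 (26562, 15726) (by decide +kernel)
                      (CovZ.n2 (26562, 15720) (by decide +kernel)
                       (CovZ.leaf K2_ok TD_l18343 _)
                       (CovZ.badM (by decide +kernel)))
                      (CovZ.leaf K2_ok TD_l18344 _)))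
                    (CovZ.leaf K2_ok TD_l15889 _))
                   (CovZ.n1 (26556, 15708) (by decide +kernel)
                    (CovZ.badM (by decide +kernel))
                    (CovZ.n1 (26556, 15720) (by decide +kernel)
                     (CovZ.n2 (26562, 15714) (by decide +kernel)
                      (CovZ.badM (by decide +kernel))
                      (CovZ.leaf K2_ok TD_l18345 _))
                     (CovZ.badM (by decide +kernel)))))
                  (CovZ.n1 (26568, 15744) (by decide +kernel)
                   (CovZ.n2 (26580, 15732) (by decide +kernel)
                    (CovZ.badM (by decide +kernel))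
                    (CovZ.leaf K2_ok TD_l15891 _))
                   (CovZ.n1 (26556, 15732) (by decide +kernel)
                    (CovZ.n2 (26556, 15744) (by decide +kernel)
                     (CovZ.leaf K2_ok TD_l15892 _)
                     (CovZ.n1 (26550, 15738) (by decide +kernel)
                      (CovZ.leaf K2_ok TD_l15893 _)
                      (CovZ.leaf K2_ok TD_l15894 _)))
                    (CovZ.n1 (26568, 15732) (by decide +kernel)
                     (CovZ.n2 (26562, 15726) (by decide +kernel)
                      (CovZ.leaf K2_ok TD_l18346 _)
                      (CovZ.badM (by decide +kernel)))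
                     (CovZ.leaf K2_ok TD_l15895 _)))))
                 (CovZ.n1 (26520, 15720) (by decide +kernel)
                  (CovZ.n2 (26520, 15744) (by decide +kernel)
                   (CovZ.n2 (26532, 15732) (by decide +kernel)
                    (CovZ.badM (by decide +kernel))
                    (CovZ.n1 (26532, 15744) (by decide +kernel)
                     (CovZ.leaf K2_ok TD_l15897 _)
                     (CovZ.n1 (26526, 15738) (by decide +kernel)
                      (CovZ.leaf K2_ok TD_l15898 _)
                      (CovZ.leaf K2_ok TD_l15899 _))))
                   (CovZ.badM (by decide +kernel)))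
                  (CovZ.n1 (26544, 15720) (by decide +kernel)
                   (CovZ.badM (by decide +kernel))
                   (CovZ.n1 (26532, 15732) (by decide +kernel)
                    (CovZ.n2 (26544, 15732) (by decide +kernel)
                     (CovZ.badM (by decide +kernel))
                     (CovZ.leaf K2_ok TD_l15900 _))
                    (CovZ.badM (by decide +kernel))))))
                (CovZ.n1 (26592, 15696) (by decide +kernel)
                 (CovZ.n2 (26568, 15672) (by decide +kernel)
                  (CovZ.n2 (26568, 15696) (by decide +kernel)
                   (CovZ.badM (by decide +kernel))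
                   (CovZ.badM (by decide +kernel)))
                  (CovZ.badM (by decide +kernel)))
                 (CovZ.n1 (26568, 15720) (by decide +kernel)
                  (CovZ.n2 (26592, 15720) (by decide +kernel)
                   (CovZ.badM (by decide +kernel))
                   (CovZ.n1 (26580, 15732) (by decide +kernel)
                    (CovZ.leaf K2_ok TD_l15901 _)
                    (CovZ.badM (by decide +kernel))))
                  (CovZ.n1 (26568, 15696) (by decide +kernel)
                   (CovZ.n2 (26556, 15708) (by decide +kernel)
                    (CovZ.n2 (26568, 15708) (by decide +kernel)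
                     (CovZ.badM (by decide +kernel))
                     (CovZ.n1 (26562, 15714) (by decide +kernel)
                      (CovZ.badM (by decide +kernel))
                      (CovZ.badM (by decide +kernel))))
                    (CovZ.badM (by decide +kernel)))
                   (CovZ.badM (by decide +kernel))))))))
             (CovZ.subM 4587561542667137040298129896178770227905391096049732696283775527590299520050763055128228772619923320995840 (by decide +kernel)
              (CovZ.n1 (26688, 15648) (by decide +kernel)
               (CovZ.n2 (26640, 15600) (by decide +kernel)
                (CovZ.n2 (26640, 15648) (by decide +kernel)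
                 (CovZ.badM (by decide +kernel))
                 (CovZ.badM (by decide +kernel)))
                (CovZ.badM (by decide +kernel)))
               (CovZ.n1 (26640, 15696) (by decide +kernel)
                (CovZ.n2 (26688, 15696) (by decide +kernel)
                 (CovZ.n2 (26664, 15672) (by decide +kernel)
                  (CovZ.n2 (26664, 15696) (by decide +kernel)
                   (CovZ.n2 (26676, 15684) (by decide +kernel)
                    (CovZ.badM (by decide +kernel))
                    (CovZ.leaf K2_ok TD_l18961 _))
                   (CovZ.badM (by decide +kernel)))
                  (CovZ.n1 (26688, 15672) (by decide +kernel)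
                   (CovZ.badM (by decide +kernel))
                   (CovZ.n1 (26676, 15684) (by decide +kernel)
                    (CovZ.n2 (26688, 15684) (by decide +kernel)
                     (CovZ.badM (by decide +kernel))
                     (CovZ.n1 (26682, 15690) (by decide +kernel)
                      (CovZ.leaf K2_ok TD_l18962 _)
                      (CovZ.badM (by decide +kernel))))
                    (CovZ.badM (by decide +kernel)))))
                 (CovZ.n1 (26664, 15720) (by decide +kernel)
                  (CovZ.n2 (26688, 15720) (by decide +kernel)
                   (CovZ.n2 (26676, 15708) (by decide +kernel)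
                    (CovZ.n2 (26676, 15720) (by decide +kernel)
                     (CovZ.leaf K2_ok TD_l18963 _)
                     (CovZ.leaf K2_ok TD_l18964 _))
                    (CovZ.leaf K2_ok TD_l18965 _))
                   (CovZ.n1 (26676, 15732) (by decide +kernel)
                    (CovZ.leaf K2_ok TD_l15902 _)
                    (CovZ.leaf K2_ok TD_l18966 _)))
                  (CovZ.n1 (26664, 15696) (by decide +kernel)
                   (CovZ.n2 (26652, 15708) (by decide +kernel)
                    (CovZ.n2 (26664, 15708) (by decide +kernel)
                     (CovZ.leaf K2_ok TD_l18967 _)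
                     (CovZ.leaf K2_ok TD_l18968 _))
                    (CovZ.badM (by decide +kernel)))
                   (CovZ.n1 (26676, 15708) (by decide +kernel)
                    (CovZ.n2 (26676, 15696) (by decide +kernel)
                     (CovZ.leaf K2_ok TD_l18969 _)
                     (CovZ.leaf K2_ok TD_l18970 _))
                    (CovZ.leaf K2_ok TD_l18971 _)))))
                (CovZ.n1 (26640, 15648) (by decide +kernel)
                 (CovZ.badM (by decide +kernel))
                 (CovZ.badM (by decide +kernel)))))))

theorem TD_u20 : CovZ TD_M (toL (selN TD_LN 4650344387738306994065576737107181197764046917038685752740900711598867002015802598961918369274392049876992)) [0, 7, 6, 1] (26880, 15744) (26880, 16128) (26496, 15744) :=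
    (CovZ.n1 (26688, 15936) (by decide +kernel)
          (CovZ.subM 4587557168165687474274403042727647740680898657774410378242198172324643263289689476796989401276690286510080 (by decide +kernel)
           (CovZ.n2 (26880, 15936) (by decide +kernel)
            (CovZ.n2 (26784, 15840) (by decide +kernel)
             (CovZ.n2 (26784, 15936) (by decide +kernel)
              (CovZ.n2 (26832, 15888) (by decide +kernel)
               (CovZ.leaf K2_ok TD_l15903 _)
               (CovZ.leaf K2_ok TD_l15904 _))
              (CovZ.n1 (26736, 15888) (by decide +kernel)
               (CovZ.leaf K2_ok TD_l15905 _)
               (CovZ.n1 (26784, 15888) (by decide +kernel)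
                (CovZ.leaf K2_ok TD_l15906 _)
                (CovZ.leaf K2_ok TD_l15907 _))))
             (CovZ.subM 559936185544451052639360570142111177370198042911221562393057623319470662343617926507509297732342775808 (by decide +kernel)
              (CovZ.n1 (26880, 15840) (by decide +kernel)
               (CovZ.n2 (26832, 15792) (by decide +kernel)
                (CovZ.n2 (26832, 15840) (by decide +kernel)
                 (CovZ.badM (by decide +kernel))
                 (CovZ.leaf K2_ok TD_l18347 _))
                (CovZ.badM (by decide +kernel)))
               (CovZ.n1 (26832, 15888) (by decide +kernel)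
                (CovZ.badM (by decide +kernel))
                (CovZ.n1 (26832, 15840) (by decide +kernel)
                 (CovZ.leaf K2_ok TD_l15909 _)
                 (CovZ.badM (by decide +kernel)))))))
            (CovZ.n1 (26784, 16032) (by decide +kernel)
             (CovZ.n2 (26880, 16032) (by decide +kernel)
              (CovZ.n2 (26832, 15984) (by decide +kernel)
               (CovZ.leaf K2_ok TD_l15911 _)
               (CovZ.badM (by decide +kernel)))
              (CovZ.leaf K2_ok TD_l15913 _))
             (CovZ.n1 (26784, 15936) (by decide +kernel)
              (CovZ.n2 (26736, 15984) (by decide +kernel)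
               (CovZ.leaf K2_ok TD_l15914 _)
               (CovZ.leaf K2_ok TD_l15915 _))
              (CovZ.leaf K2_ok TD_l15916 _)))))
          (CovZ.n1 (26688, 15744) (by decide +kernel)
           (CovZ.n2 (26592, 15840) (by decide +kernel)
            (CovZ.subM 4587631534690330096679710290997605631753881362246926873726308977439339606330470823054739762483352779620352 (by decide +kernel)
             (CovZ.n2 (26688, 15840) (by decide +kernel)
              (CovZ.n2 (26640, 15792) (by decide +kernel)
               (CovZ.n2 (26640, 15840) (by decide +kernel)
                (CovZ.leaf K2_ok TD_l15917 _)
                (CovZ.n1 (26616, 15816) (by decide +kernel)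
                 (CovZ.leaf K2_ok TD_l15918 _)
                 (CovZ.leaf K2_ok TD_l15919 _)))
               (CovZ.subM 4587557168165687474274281151637486116566829736458479311228284778276500725824722844994339470371116529221632 (by decide +kernel)
                (CovZ.n1 (26688, 15792) (by decide +kernel)
                 (CovZ.n2 (26664, 15768) (by decide +kernel)
                  (CovZ.n2 (26664, 15792) (by decide +kernel)
                   (CovZ.leaf K2_ok TD_l15920 _)
                   (CovZ.leaf K2_ok TD_l15921 _))
                  (CovZ.n1 (26688, 15768) (by decide +kernel)
                   (CovZ.leaf K2_ok TD_l15922 _)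
                   (CovZ.leaf K2_ok TD_l15923 _)))
                 (CovZ.n1 (26664, 15816) (by decide +kernel)
                  (CovZ.leaf K2_ok TD_l15924 _)
                  (CovZ.n1 (26664, 15792) (by decide +kernel)
                   (CovZ.leaf K2_ok TD_l15925 _)
                   (CovZ.leaf K2_ok TD_l15926 _))))))
              (CovZ.n1 (26640, 15888) (by decide +kernel)
               (CovZ.n2 (26688, 15888) (by decide +kernel)
                (CovZ.n2 (26664, 15864) (by decide +kernel)
                 (CovZ.leaf K2_ok TD_l15927 _)
                 (CovZ.leaf K2_ok TD_l15928 _))
                (CovZ.leaf K2_ok TD_l15929 _))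
               (CovZ.n1 (26640, 15840) (by decide +kernel)
                (CovZ.n2 (26616, 15864) (by decide +kernel)
                 (CovZ.leaf K2_ok TD_l15930 _)
                 (CovZ.leaf K2_ok TD_l15931 _))
                (CovZ.leaf K2_ok TD_l15932 _)))))
            (CovZ.subM 4596590513659041313521947292956941970283471939399921560826089518932175611076934593114031577416366263631872 (by decide +kernel)
             (CovZ.n1 (26592, 15744) (by decide +kernel)
              (CovZ.n2 (26544, 15792) (by decide +kernel)
               (CovZ.n2 (26592, 15792) (by decide +kernel)
                (CovZ.n2 (26568, 15768) (by decide +kernel)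
                 (CovZ.n2 (26568, 15792) (by decide +kernel)
                  (CovZ.leaf K2_ok TD_l15933 _)
                  (CovZ.n1 (26556, 15780) (by decide +kernel)
                   (CovZ.leaf K2_ok TD_l15934 _)
                   (CovZ.leaf K2_ok TD_l15935 _)))
                 (CovZ.n1 (26592, 15768) (by decide +kernel)
                  (CovZ.n2 (26580, 15756) (by decide +kernel)
                   (CovZ.leaf K2_ok TD_l15936 _)
                   (CovZ.leaf K2_ok TD_l15937 _))
                  (CovZ.leaf K2_ok TD_l15938 _)))
                (CovZ.n1 (26568, 15816) (by decide +kernel)
                 (CovZ.n2 (26592, 15816) (by decide +kernel)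
                  (CovZ.leaf K2_ok TD_l15939 _)
                  (CovZ.leaf K2_ok TD_l15940 _))
                 (CovZ.n1 (26568, 15792) (by decide +kernel)
                  (CovZ.leaf K2_ok TD_l15941 _)
                  (CovZ.leaf K2_ok TD_l15942 _))))
               (CovZ.subM 4595956210948854240063871678760717161513730234141195336701909318805500720263037447253921495149515366203392 (by decide +kernel)
                (CovZ.n1 (26544, 15744) (by decide +kernel)
                 (CovZ.n2 (26520, 15768) (by decide +kernel)
                  (CovZ.n2 (26544, 15768) (by decide +kernel)
                   (CovZ.n2 (26532, 15756) (by decide +kernel)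
                    (CovZ.n2 (26532, 15768) (by decide +kernel)
                     (CovZ.leaf K2_ok TD_l15943 _)
                     (CovZ.leaf K2_ok TD_l15944 _))
                    (CovZ.n1 (26544, 15756) (by decide +kernel)
                     (CovZ.leaf K2_ok TD_l15945 _)
                     (CovZ.leaf K2_ok TD_l15946 _)))
                   (CovZ.n1 (26532, 15780) (by decide +kernel)
                    (CovZ.leaf K2_ok TD_l15947 _)
                    (CovZ.leaf K2_ok TD_l15948 _)))
                  (CovZ.subM 119034269502808113673815302172228670016080060063762396708181354481740898562473984 (by decide +kernel)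
                   (CovZ.n1 (26520, 15744) (by decide +kernel)
                    (CovZ.n2 (26508, 15756) (by decide +kernel)
                     (CovZ.n2 (26520, 15756) (by decide +kernel)
                      (CovZ.n2 (26514, 15750) (by decide +kernel)
                       (CovZ.leaf K2_ok TD_l18348 _)
                       (CovZ.leaf K2_ok TD_l18349 _))
                      (CovZ.leaf K2_ok TD_l15949 _))
                     (CovZ.badM (by decide +kernel)))
                    (CovZ.n1 (26532, 15756) (by decide +kernel)
                     (CovZ.n2 (26532, 15744) (by decide +kernel)
                      (CovZ.n2 (26526, 15750) (by decide +kernel)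
                       (CovZ.leaf K2_ok TD_l15950 _)
                       (CovZ.leaf K2_ok TD_l15951 _))
                      (CovZ.leaf K2_ok TD_l15952 _))
                     (CovZ.leaf K2_ok TD_l15953 _)))))
                 (CovZ.n1 (26568, 15768) (by decide +kernel)
                  (CovZ.n2 (26568, 15744) (by decide +kernel)
                   (CovZ.n2 (26556, 15756) (by decide +kernel)
                    (CovZ.leaf K2_ok TD_l15954 _)
                    (CovZ.leaf K2_ok TD_l15955 _))
                   (CovZ.n1 (26580, 15756) (by decide +kernel)
                    (CovZ.leaf K2_ok TD_l15956 _)
                    (CovZ.leaf K2_ok TD_l15957 _)))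
                  (CovZ.n1 (26544, 15768) (by decide +kernel)
                   (CovZ.n2 (26556, 15780) (by decide +kernel)
                    (CovZ.leaf K2_ok TD_l15958 _)
                    (CovZ.leaf K2_ok TD_l15959 _))
                   (CovZ.n1 (26556, 15756) (by decide +kernel)
                    (CovZ.leaf K2_ok TD_l15960 _)
                    (CovZ.leaf K2_ok TD_l15961 _)))))))
              (CovZ.n1 (26640, 15792) (by decide +kernel)
               (CovZ.subM 4587561542667137040298129896641940351701720656128738538474489569469635023036172666056023627473056134332416 (by decide +kernel)
                (CovZ.n2 (26640, 15744) (by decide +kernel)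
                 (CovZ.n2 (26616, 15768) (by decide +kernel)
                  (CovZ.n2 (26640, 15768) (by decide +kernel)
                   (CovZ.n2 (26628, 15756) (by decide +kernel)
                    (CovZ.leaf K2_ok TD_l15962 _)
                    (CovZ.leaf K2_ok TD_l15963 _))
                   (CovZ.leaf K2_ok TD_l15964 _))
                  (CovZ.n1 (26616, 15744) (by decide +kernel)
                   (CovZ.leaf K2_ok TD_l15965 _)
                   (CovZ.leaf K2_ok TD_l15966 _)))
                 (CovZ.n1 (26664, 15768) (by decide +kernel)
                  (CovZ.n2 (26664, 15744) (by decide +kernel)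
                   (CovZ.leaf K2_ok TD_l15967 _)
                   (CovZ.leaf K2_ok TD_l15968 _))
                  (CovZ.leaf K2_ok TD_l15969 _))))
               (CovZ.n1 (26592, 15792) (by decide +kernel)
                (CovZ.n2 (26616, 15816) (by decide +kernel)
                 (CovZ.n2 (26616, 15792) (by decide +kernel)
                  (CovZ.leaf K2_ok TD_l15970 _)
                  (CovZ.leaf K2_ok TD_l15971 _))
                 (CovZ.leaf K2_ok TD_l15972 _))
                (CovZ.subM 4587561542667137040298129896641940351701720656128738538474489569469635023036172666056023627473056134332416 (by decide +kernel)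
                 (CovZ.n1 (26616, 15768) (by decide +kernel)
                  (CovZ.n2 (26592, 15768) (by decide +kernel)
                   (CovZ.leaf K2_ok TD_l15973 _)
                   (CovZ.leaf K2_ok TD_l15974 _))
                  (CovZ.n1 (26616, 15792) (by decide +kernel)
                   (CovZ.leaf K2_ok TD_l15975 _)
                   (CovZ.leaf K2_ok TD_l15976 _)))))))))
           (CovZ.subM 4587557168165687474274281625921883632613966191405233906813955345270357916329037969819906907631190036971520 (by decide +kernel)
            (CovZ.n1 (26784, 15840) (by decide +kernel)
             (CovZ.n2 (26784, 15744) (by decide +kernel)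
              (CovZ.n2 (26736, 15792) (by decide +kernel)
               (CovZ.n2 (26784, 15792) (by decide +kernel)
                (CovZ.n2 (26760, 15768) (by decide +kernel)
                 (CovZ.leaf K2_ok TD_l15977 _)
                 (CovZ.leaf K2_ok TD_l18974 _))
                (CovZ.leaf K2_ok TD_l15978 _))
               (CovZ.n1 (26736, 15744) (by decide +kernel)
                (CovZ.n2 (26712, 15768) (by decide +kernel)
                 (CovZ.leaf K2_ok TD_l15979 _)
                 (CovZ.n1 (26712, 15744) (by decide +kernel)
                  (CovZ.leaf K2_ok TD_l15980 _)
                  (CovZ.leaf K2_ok TD_l15981 _)))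
                (CovZ.n1 (26760, 15768) (by decide +kernel)
                 (CovZ.leaf K2_ok TD_l15982 _)
                 (CovZ.leaf K2_ok TD_l15983 _))))
              (CovZ.subM 559936185544451052639360570142111177370198042911221562393057623319470662343617926507509297732342775808 (by decide +kernel)
               (CovZ.n1 (26832, 15792) (by decide +kernel)
                (CovZ.n2 (26832, 15744) (by decide +kernel)
                 (CovZ.n2 (26808, 15768) (by decide +kernel)
                  (CovZ.badM (by decide +kernel))
                  (CovZ.leaf K2_ok TD_l18975 _))
                 (CovZ.badM (by decide +kernel)))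
                (CovZ.n1 (26784, 15792) (by decide +kernel)
                 (CovZ.leaf K2_ok TD_l18350 _)
                 (CovZ.leaf K2_ok TD_l18976 _)))))
             (CovZ.n1 (26688, 15840) (by decide +kernel)
              (CovZ.n2 (26736, 15888) (by decide +kernel)
               (CovZ.n2 (26736, 15840) (by decide +kernel)
                (CovZ.leaf K2_ok TD_l15984 _)
                (CovZ.leaf K2_ok TD_l15985 _))
               (CovZ.leaf K2_ok TD_l15986 _))
              (CovZ.n1 (26736, 15792) (by decide +kernel)
               (CovZ.n2 (26688, 15792) (by decide +kernel)
                (CovZ.leaf K2_ok TD_l15987 _)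
                (CovZ.n1 (26712, 15768) (by decide +kernel)
                 (CovZ.leaf K2_ok TD_l15988 _)
                 (CovZ.n1 (26712, 15792) (by decide +kernel)
                  (CovZ.leaf K2_ok TD_l15989 _)
                  (CovZ.leaf K2_ok TD_l15990 _))))
               (CovZ.n1 (26736, 15840) (by decide +kernel)
                (CovZ.leaf K2_ok TD_l15991 _)
                (CovZ.n1 (26712, 15816) (by decide +kernel)
                 (CovZ.leaf K2_ok TD_l15992 _)
                 (CovZ.leaf K2_ok TD_l15993 _)))))))))

theorem TD_u21 : CovZ TD_M (toL (selN TD_LN 5517170450147596678178765189158591949017484878851954140789693505848731542697869082486149412574737132080257)) [0, 7, 6, 1] (27648, 16896) (26880, 16128) (27648, 15360) :=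
    (CovZ.subM 8749005572390687516197448457534532125089678726809738270773094315655855699891870267517449341694430337 (by decide +kernel)
     (CovZ.n2 (27648, 16128) (by decide +kernel)
      (CovZ.n2 (27264, 15744) (by decide +kernel)
       (CovZ.n2 (27264, 16128) (by decide +kernel)
        (CovZ.n2 (27456, 15936) (by decide +kernel)
         (CovZ.subM 8749005050774174571563156889311862310802551759691654388377896151462107345211359486190885251336683649 (by decide +kernel)
          (CovZ.n2 (27264, 15936) (by decide +kernel)
           (CovZ.n2 (27360, 16032) (by decide +kernel)
            (CovZ.n2 (27360, 15936) (by decide +kernel)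
             (CovZ.leaf K2_ok TD_l6449 _)
             (CovZ.leaf K2_ok TD_l6450 _))
            (CovZ.leaf K2_ok TD_l6451 _))
           (CovZ.n1 (27360, 15840) (by decide +kernel)
            (CovZ.leaf K2_ok TD_l6452 _)
            (CovZ.n1 (27360, 15936) (by decide +kernel)
             (CovZ.leaf K2_ok TD_l6453 _)
             (CovZ.leaf K2_ok TD_l6454 _)))))
         (CovZ.n1 (27456, 16128) (by decide +kernel)
          (CovZ.leaf K2_ok TD_l6455 _)
          (CovZ.n1 (27360, 16032) (by decide +kernel)
           (CovZ.leaf K2_ok TD_l6456 _)
           (CovZ.leaf K2_ok TD_l6457 _))))
        (CovZ.subM 8749005050260936991588257187685719976532583816462945156069477892547740617582585887284654313884926081 (by decide +kernel)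
         (CovZ.n1 (27072, 15936) (by decide +kernel)
          (CovZ.n2 (27072, 16128) (by decide +kernel)
           (CovZ.n2 (27168, 16032) (by decide +kernel)
            (CovZ.leaf K2_ok TD_l6458 _)
            (CovZ.leaf K2_ok TD_l6459 _))
           (CovZ.n1 (26976, 16032) (by decide +kernel)
            (CovZ.n2 (26976, 16128) (by decide +kernel)
             (CovZ.leaf K2_ok TD_l6460 _)
             (CovZ.leaf K2_ok TD_l6461 _))
            (CovZ.n1 (27072, 16032) (by decide +kernel)
             (CovZ.leaf K2_ok TD_l6462 _)
             (CovZ.leaf K2_ok TD_l6463 _))))
          (CovZ.n1 (27264, 15936) (by decide +kernel)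
           (CovZ.subM 8749004985075785748884470729824964306376475982028441308894041990054154880944906123919497810333974528 (by decide +kernel)
            (CovZ.n2 (27168, 15840) (by decide +kernel)
             (CovZ.n2 (27168, 15936) (by decide +kernel)
              (CovZ.leaf K2_ok TD_l6464 _)
              (CovZ.n1 (27120, 15888) (by decide +kernel)
               (CovZ.leaf K2_ok TD_l6465 _)
               (CovZ.leaf K2_ok TD_l6466 _)))
             (CovZ.n1 (27264, 15840) (by decide +kernel)
              (CovZ.n2 (27216, 15792) (by decide +kernel)
               (CovZ.leaf K2_ok TD_l6467 _)
               (CovZ.leaf K2_ok TD_l6468 _))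
              (CovZ.leaf K2_ok TD_l6469 _))))
           (CovZ.n1 (27168, 16032) (by decide +kernel)
            (CovZ.n2 (27264, 16032) (by decide +kernel)
             (CovZ.leaf K2_ok TD_l6470 _)
             (CovZ.leaf K2_ok TD_l6471 _))
            (CovZ.n1 (27168, 15936) (by decide +kernel)
             (CovZ.leaf K2_ok TD_l6472 _)
             (CovZ.leaf K2_ok TD_l6473 _)))))))
       (CovZ.n1 (27648, 15744) (by decide +kernel)
        (CovZ.subM 8749004985575098276342758928484779537696090858661954660673774171315206709596557064169684511047601152 (by decide +kernel)
         (CovZ.n2 (27456, 15552) (by decide +kernel)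
          (CovZ.n2 (27456, 15744) (by decide +kernel)
           (CovZ.n2 (27552, 15648) (by decide +kernel)
            (CovZ.n2 (27456, 15648) (by decide +kernel)
             (CovZ.leaf K2_ok TD_l6474 _)
             (CovZ.n1 (27504, 15600) (by decide +kernel)
              (CovZ.leaf K2_ok TD_l15858 _)
              (CovZ.leaf K2_ok TD_l6475 _)))
            (CovZ.n1 (27552, 15744) (by decide +kernel)
             (CovZ.leaf K2_ok TD_l6476 _)
             (CovZ.n1 (27504, 15696) (by decide +kernel)
              (CovZ.leaf K2_ok TD_l6477 _)
              (CovZ.leaf K2_ok TD_l6478 _))))
           (CovZ.subM 8749004985567141104560202342210293421712886219716903761392895221115838636933579870276251158266822656 (by decide +kernel)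
            (CovZ.n1 (27360, 15648) (by decide +kernel)
             (CovZ.n2 (27360, 15744) (by decide +kernel)
              (CovZ.leaf K2_ok TD_l6479 _)
              (CovZ.n1 (27312, 15696) (by decide +kernel)
               (CovZ.leaf K2_ok TD_l6480 _)
               (CovZ.leaf K2_ok TD_l6481 _)))
             (CovZ.n1 (27456, 15648) (by decide +kernel)
              (CovZ.subM 8749002899641306691573630430037596883515022312875574151828009955765951977945992893634538794580492288 (by decide +kernel)
               (CovZ.n2 (27408, 15600) (by decide +kernel)
                (CovZ.n2 (27408, 15648) (by decide +kernel)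
                 (CovZ.leaf K2_ok TD_l15859 _)
                 (CovZ.leaf K2_ok TD_l15860 _))
                (CovZ.n1 (27456, 15600) (by decide +kernel)
                 (CovZ.leaf K2_ok TD_l15861 _)
                 (CovZ.leaf K2_ok TD_l15862 _))))
              (CovZ.n1 (27408, 15696) (by decide +kernel)
               (CovZ.leaf K2_ok TD_l6482 _)
               (CovZ.n1 (27408, 15648) (by decide +kernel)
                (CovZ.leaf K2_ok TD_l15863 _)
                (CovZ.leaf K2_ok TD_l15864 _)))))))
          (CovZ.n1 (27648, 15552) (by decide +kernel)
           (CovZ.subM 8749002899140004869272565494744971577383026858163828722601568166655932824494604012254046956858412032 (by decide +kernel)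
            (CovZ.n2 (27552, 15456) (by decide +kernel)
             (CovZ.n2 (27552, 15552) (by decide +kernel)
              (CovZ.n2 (27600, 15504) (by decide +kernel)
               (CovZ.leaf K2_ok TD_l6483 _)
               (CovZ.n1 (27600, 15552) (by decide +kernel)
                (CovZ.leaf K2_ok TD_l6484 _)
                (CovZ.leaf K2_ok TD_l6485 _)))
              (CovZ.subM 8749002899132047697490008908470485461412677724339097516136375303962712551359244780301432399899688960 (by decide +kernel)
               (CovZ.n1 (27504, 15504) (by decide +kernel)
                (CovZ.n2 (27504, 15552) (by decide +kernel)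
                 (CovZ.leaf K2_ok TD_l6486 _)
                 (CovZ.n1 (27480, 15528) (by decide +kernel)
                  (CovZ.leaf K2_ok TD_l15865 _)
                  (CovZ.leaf K2_ok TD_l15866 _)))
                (CovZ.n1 (27552, 15504) (by decide +kernel)
                 (CovZ.n2 (27528, 15480) (by decide +kernel)
                  (CovZ.leaf K2_ok TD_l15867 _)
                  (CovZ.leaf K2_ok TD_l15868 _))
                 (CovZ.leaf K2_ok TD_l6487 _)))))
             (CovZ.n1 (27648, 15456) (by decide +kernel)
              (CovZ.n2 (27600, 15408) (by decide +kernel)
               (CovZ.n2 (27600, 15456) (by decide +kernel)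
                (CovZ.leaf K2_ok TD_l6488 _)
                (CovZ.n1 (27576, 15432) (by decide +kernel)
                 (CovZ.leaf K2_ok TD_l15869 _)
                 (CovZ.leaf K2_ok TD_l15870 _)))
               (CovZ.n1 (27648, 15408) (by decide +kernel)
                (CovZ.n2 (27624, 15384) (by decide +kernel)
                 (CovZ.leaf K2_ok TD_l6489 _)
                 (CovZ.leaf K2_ok TD_l6490 _))
                (CovZ.n1 (27624, 15432) (by decide +kernel)
                 (CovZ.leaf K2_ok TD_l6491 _)
                 (CovZ.leaf K2_ok TD_l6492 _))))
              (CovZ.n1 (27600, 15504) (by decide +kernel)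
               (CovZ.n2 (27648, 15504) (by decide +kernel)
                (CovZ.n2 (27624, 15480) (by decide +kernel)
                 (CovZ.leaf K2_ok TD_l6493 _)
                 (CovZ.leaf K2_ok TD_l6494 _))
                (CovZ.leaf K2_ok TD_l6495 _))
               (CovZ.n1 (27600, 15456) (by decide +kernel)
                (CovZ.n2 (27576, 15480) (by decide +kernel)
                 (CovZ.leaf K2_ok TD_l15871 _)
                 (CovZ.leaf K2_ok TD_l15872 _))
                (CovZ.leaf K2_ok TD_l6496 _))))))
           (CovZ.n1 (27552, 15648) (by decide +kernel)
            (CovZ.n2 (27648, 15648) (by decide +kernel)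
             (CovZ.n2 (27600, 15600) (by decide +kernel)
              (CovZ.leaf K2_ok TD_l6497 _)
              (CovZ.leaf K2_ok TD_l6498 _))
             (CovZ.n1 (27600, 15696) (by decide +kernel)
              (CovZ.leaf K2_ok TD_l6499 _)
              (CovZ.leaf K2_ok TD_l6500 _)))
            (CovZ.n1 (27552, 15552) (by decide +kernel)
             (CovZ.n2 (27504, 15600) (by decide +kernel)
              (CovZ.leaf K2_ok TD_l6501 _)
              (CovZ.n1 (27504, 15552) (by decide +kernel)
               (CovZ.leaf K2_ok TD_l15873 _)
               (CovZ.leaf K2_ok TD_l6502 _)))
             (CovZ.n1 (27600, 15600) (by decide +kernel)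
              (CovZ.n2 (27600, 15552) (by decide +kernel)
               (CovZ.leaf K2_ok TD_l6503 _)
               (CovZ.leaf K2_ok TD_l6504 _))
              (CovZ.leaf K2_ok TD_l6505 _)))))))
        (CovZ.n1 (27456, 15936) (by decide +kernel)
         (CovZ.subM 8749005050782131743345481891407869581832537240431824422819708921223595241299179065044222828634754177 (by decide +kernel)
          (CovZ.n2 (27648, 15936) (by decide +kernel)
           (CovZ.n2 (27552, 15840) (by decide +kernel)
            (CovZ.n2 (27552, 15936) (by decide +kernel)
             (CovZ.leaf K2_ok TD_l6506 _)
             (CovZ.leaf K2_ok TD_l6507 _))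
            (CovZ.n1 (27648, 15840) (by decide +kernel)
             (CovZ.leaf K2_ok TD_l6508 _)
             (CovZ.leaf K2_ok TD_l6509 _)))
           (CovZ.n1 (27552, 16032) (by decide +kernel)
            (CovZ.leaf K2_ok TD_l6510 _)
            (CovZ.leaf K2_ok TD_l6511 _))))
         (CovZ.subM 8749004985596980500641927130803804902434337995541212954442721758002789152952638322042623817775369216 (by decide +kernel)
          (CovZ.n1 (27456, 15744) (by decide +kernel)
           (CovZ.n2 (27360, 15840) (by decide +kernel)
            (CovZ.n2 (27456, 15840) (by decide +kernel)
             (CovZ.n2 (27408, 15792) (by decide +kernel)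
              (CovZ.leaf K2_ok TD_l6512 _)
              (CovZ.leaf K2_ok TD_l6513 _))
             (CovZ.leaf K2_ok TD_l6514 _))
            (CovZ.n1 (27360, 15744) (by decide +kernel)
             (CovZ.n2 (27312, 15792) (by decide +kernel)
              (CovZ.leaf K2_ok TD_l6515 _)
              (CovZ.leaf K2_ok TD_l6516 _))
             (CovZ.leaf K2_ok TD_l6517 _)))
           (CovZ.n1 (27552, 15840) (by decide +kernel)
            (CovZ.n2 (27552, 15744) (by decide +kernel)
             (CovZ.leaf K2_ok TD_l6518 _)
             (CovZ.leaf K2_ok TD_l6519 _))
            (CovZ.leaf K2_ok TD_l6520 _)))))))
      (CovZ.n1 (27264, 16512) (by decide +kernel)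
       (CovZ.n2 (27648, 16512) (by decide +kernel)
        (CovZ.n2 (27456, 16320) (by decide +kernel)
         (CovZ.n2 (27456, 16512) (by decide +kernel)
          (CovZ.leaf K2_ok TD_l6521 _)
          (CovZ.leaf K2_ok TD_l6522 _))
         (CovZ.n1 (27648, 16320) (by decide +kernel)
          (CovZ.n2 (27552, 16224) (by decide +kernel)
           (CovZ.leaf K2_ok TD_l6523 _)
           (CovZ.leaf K2_ok TD_l6524 _))
          (CovZ.leaf K2_ok TD_l6525 _)))
        (CovZ.n1 (27456, 16704) (by decide +kernel)
         (CovZ.leaf K2_ok TD_l6526 _)
         (CovZ.n1 (27456, 16512) (by decide +kernel)
          (CovZ.leaf K2_ok TD_l6527 _)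
          (CovZ.leaf K2_ok TD_l6528 _))))
       (CovZ.n1 (27264, 16128) (by decide +kernel)
        (CovZ.n2 (27072, 16320) (by decide +kernel)
         (CovZ.n2 (27264, 16320) (by decide +kernel)
          (CovZ.n2 (27168, 16224) (by decide +kernel)
           (CovZ.leaf K2_ok TD_l6529 _)
           (CovZ.leaf K2_ok TD_l6530 _))
          (CovZ.leaf K2_ok TD_l6531 _))
         (CovZ.n1 (27072, 16128) (by decide +kernel)
          (CovZ.n2 (26976, 16224) (by decide +kernel)
           (CovZ.leaf K2_ok TD_l6532 _)
           (CovZ.n1 (26976, 16128) (by decide +kernel)
            (CovZ.leaf K2_ok TD_l6533 _)
            (CovZ.leaf K2_ok TD_l6534 _)))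
          (CovZ.leaf K2_ok TD_l6535 _)))
        (CovZ.n1 (27456, 16320) (by decide +kernel)
         (CovZ.n2 (27456, 16128) (by decide +kernel)
          (CovZ.n2 (27360, 16224) (by decide +kernel)
           (CovZ.leaf K2_ok TD_l6536 _)
           (CovZ.leaf K2_ok TD_l6537 _))
          (CovZ.leaf K2_ok TD_l6538 _))
         (CovZ.leaf K2_ok TD_l6539 _))))))

theorem TD_u22 : CovZ TD_M (toL (selN TD_LN 5517170450147596678178765189158591949017484878851954140789693505848731542697869082486149412574737132080257)) [0, 7, 6, 1] (26880, 16128) (26112, 15360) (27648, 15360) :=
    (CovZ.subM 4943785953521230483015323788238224819351541372656821237524328651849054326022052674866143113974876647607296 (by decide +kernel)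
     (CovZ.n1 (26880, 15360) (by decide +kernel)
      (CovZ.n2 (26496, 15744) (by decide +kernel)
       (CovZ.subM 4650344387738306994065576737107181197764046917038685752740900711598867002015802598961918369274392049876992 (by decide +kernel)
        (CovZ.n2 (26880, 15744) (by decide +kernel)
         (CovZ.subM 4596520521635848257140367372422503640783845070923433472690522197644334032571426165206543849290918583599104 (by decide +kernel)
          (CovZ.n2 (26688, 15552) (by decide +kernel)
           (CovZ.n2 (26688, 15744) (by decide +kernel)
            TD_u18
            TD_u19)
           (CovZ.subM 4587557168165687474274281151174315992662660389710870909858902676049086700144764656376382325593569274888192 (by decide +kernel)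
            (CovZ.n1 (26880, 15552) (by decide +kernel)
             (CovZ.badM (by decide +kernel))
             (CovZ.n1 (26784, 15648) (by decide +kernel)
              (CovZ.n2 (26880, 15648) (by decide +kernel)
               (CovZ.n2 (26832, 15600) (by decide +kernel)
                (CovZ.n2 (26832, 15648) (by decide +kernel)
                 (CovZ.badM (by decide +kernel))
                 (CovZ.n1 (26808, 15624) (by decide +kernel)
                  (CovZ.n2 (26808, 15648) (by decide +kernel)
                   (CovZ.badM (by decide +kernel))
                   (CovZ.n1 (26796, 15636) (by decide +kernel)
                    (CovZ.leaf K2_ok TD_l18972 _)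
                    (CovZ.badM (by decide +kernel))))
                  (CovZ.badM (by decide +kernel))))
                (CovZ.badM (by decide +kernel)))
               (CovZ.n1 (26832, 15696) (by decide +kernel)
                (CovZ.badM (by decide +kernel))
                (CovZ.n1 (26832, 15648) (by decide +kernel)
                 (CovZ.n2 (26808, 15672) (by decide +kernel)
                  (CovZ.badM (by decide +kernel))
                  (CovZ.n1 (26808, 15648) (by decide +kernel)
                   (CovZ.n2 (26796, 15660) (by decide +kernel)
                    (CovZ.badM (by decide +kernel))
                    (CovZ.n1 (26796, 15648) (by decide +kernel)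
                     (CovZ.leaf K2_ok TD_l18973 _)
                     (CovZ.badM (by decide +kernel))))
                   (CovZ.badM (by decide +kernel))))
                 (CovZ.badM (by decide +kernel)))))
              (CovZ.badM (by decide +kernel)))))))
         TD_u20))
       (CovZ.subM 8963353470160782866078543769531126661199770911245879548589105078437301537053446537841408724422344441856 (by decide +kernel)
        (CovZ.n1 (26496, 15360) (by decide +kernel)
         (CovZ.n2 (26304, 15552) (by decide +kernel)
          (CovZ.n2 (26496, 15552) (by decide +kernel)
           (CovZ.n2 (26400, 15456) (by decide +kernel)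
            (CovZ.n2 (26400, 15552) (by decide +kernel)
             (CovZ.badM (by decide +kernel))
             (CovZ.badM (by decide +kernel)))
            (CovZ.badM (by decide +kernel)))
           (CovZ.n1 (26400, 15648) (by decide +kernel)
            (CovZ.n2 (26496, 15648) (by decide +kernel)
             (CovZ.n2 (26448, 15600) (by decide +kernel)
              (CovZ.n2 (26448, 15648) (by decide +kernel)
               (CovZ.badM (by decide +kernel))
               (CovZ.badM (by decide +kernel)))
              (CovZ.badM (by decide +kernel)))
             (CovZ.n1 (26448, 15696) (by decide +kernel)
              (CovZ.n2 (26496, 15696) (by decide +kernel)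
               (CovZ.n2 (26472, 15672) (by decide +kernel)
                (CovZ.n2 (26472, 15696) (by decide +kernel)
                 (CovZ.badM (by decide +kernel))
                 (CovZ.badM (by decide +kernel)))
                (CovZ.badM (by decide +kernel)))
               (CovZ.n1 (26472, 15720) (by decide +kernel)
                (CovZ.badM (by decide +kernel))
                (CovZ.n1 (26472, 15696) (by decide +kernel)
                 (CovZ.badM (by decide +kernel))
                 (CovZ.badM (by decide +kernel)))))
              (CovZ.n1 (26448, 15648) (by decide +kernel)
               (CovZ.badM (by decide +kernel))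
               (CovZ.n1 (26472, 15672) (by decide +kernel)
                (CovZ.badM (by decide +kernel))
                (CovZ.badM (by decide +kernel))))))
            (CovZ.n1 (26400, 15552) (by decide +kernel)
             (CovZ.badM (by decide +kernel))
             (CovZ.n1 (26448, 15600) (by decide +kernel)
              (CovZ.badM (by decide +kernel))
              (CovZ.badM (by decide +kernel))))))
          (CovZ.n1 (26304, 15360) (by decide +kernel)
           (CovZ.badM (by decide +kernel))
           (CovZ.n1 (26400, 15456) (by decide +kernel)
            (CovZ.badM (by decide +kernel))
            (CovZ.badM (by decide +kernel)))))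
         (CovZ.n1 (26688, 15552) (by decide +kernel)
          (CovZ.n2 (26688, 15360) (by decide +kernel)
           (CovZ.n2 (26592, 15456) (by decide +kernel)
            (CovZ.badM (by decide +kernel))
            (CovZ.badM (by decide +kernel)))
           (CovZ.badM (by decide +kernel)))
          (CovZ.n1 (26496, 15552) (by decide +kernel)
           (CovZ.n2 (26592, 15648) (by decide +kernel)
            (CovZ.n2 (26592, 15552) (by decide +kernel)
             (CovZ.badM (by decide +kernel))
             (CovZ.badM (by decide +kernel)))
            (CovZ.badM (by decide +kernel)))
           (CovZ.n1 (26592, 15456) (by decide +kernel)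
            (CovZ.badM (by decide +kernel))
            (CovZ.n1 (26592, 15552) (by decide +kernel)
             (CovZ.badM (by decide +kernel))
             (CovZ.badM (by decide +kernel)))))))))
      (CovZ.subM 2086464932803152149806511797443463747071277297047799862496483261338495938349084130769511664640 (by decide +kernel)
       (CovZ.n1 (27264, 15744) (by decide +kernel)
        (CovZ.subM 517216165866178107841598380571027072351196966367286291361992319019766228895360238959479808 (by decide +kernel)
         (CovZ.n2 (27264, 15360) (by decide +kernel)
          (CovZ.badM (by decide +kernel))
          (CovZ.n1 (27456, 15552) (by decide +kernel)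
           (CovZ.n2 (27456, 15360) (by decide +kernel)
            (CovZ.n2 (27360, 15456) (by decide +kernel)
             (CovZ.badM (by decide +kernel))
             (CovZ.badM (by decide +kernel)))
            (CovZ.n1 (27552, 15456) (by decide +kernel)
             (CovZ.subM 7957171782556586274486115970349133824731206465192862693220273135359231952614556958723072 (by decide +kernel)
              (CovZ.n2 (27552, 15360) (by decide +kernel)
               (CovZ.badM (by decide +kernel))
               (CovZ.n1 (27600, 15408) (by decide +kernel)
                (CovZ.n2 (27600, 15360) (by decide +kernel)
                 (CovZ.badM (by decide +kernel))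
                 (CovZ.n1 (27624, 15384) (by decide +kernel)
                  (CovZ.badM (by decide +kernel))
                  (CovZ.badM (by decide +kernel))))
                (CovZ.n1 (27552, 15408) (by decide +kernel)
                 (CovZ.n2 (27576, 15432) (by decide +kernel)
                  (CovZ.badM (by decide +kernel))
                  (CovZ.badM (by decide +kernel)))
                 (CovZ.badM (by decide +kernel))))))
             (CovZ.n1 (27456, 15456) (by decide +kernel)
              (CovZ.n2 (27504, 15504) (by decide +kernel)
               (CovZ.badM (by decide +kernel))
               (CovZ.badM (by decide +kernel)))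
              (CovZ.badM (by decide +kernel)))))
           (CovZ.subM 509258994083621521567112264600677937760217989469148999489598532309252405133376120908955648 (by decide +kernel)
            (CovZ.n1 (27264, 15552) (by decide +kernel)
             (CovZ.n2 (27360, 15648) (by decide +kernel)
              (CovZ.n2 (27360, 15552) (by decide +kernel)
               (CovZ.badM (by decide +kernel))
               (CovZ.n1 (27408, 15600) (by decide +kernel)
                (CovZ.n2 (27408, 15552) (by decide +kernel)
                 (CovZ.badM (by decide +kernel))
                 (CovZ.badM (by decide +kernel)))
                (CovZ.badM (by decide +kernel))))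
              (CovZ.badM (by decide +kernel)))
             (CovZ.n1 (27360, 15456) (by decide +kernel)
              (CovZ.badM (by decide +kernel))
              (CovZ.n1 (27360, 15552) (by decide +kernel)
               (CovZ.n2 (27408, 15504) (by decide +kernel)
                (CovZ.badM (by decide +kernel))
                (CovZ.n1 (27408, 15552) (by decide +kernel)
                 (CovZ.badM (by decide +kernel))
                 (CovZ.badM (by decide +kernel))))
               (CovZ.badM (by decide +kernel)))))))))
        (CovZ.subM 2085943738051394693405532956004907545432205296432226197423381745307661026844212670263547920384 (by decide +kernel)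
         (CovZ.n1 (26880, 15744) (by decide +kernel)
          (CovZ.n2 (27072, 15936) (by decide +kernel)
           (CovZ.subM 2085940754111976003101501545708976583984957495242763199598014269523006408027871282844737208320 (by decide +kernel)
            (CovZ.n2 (27072, 15744) (by decide +kernel)
             (CovZ.badM (by decide +kernel))
             (CovZ.n1 (27168, 15840) (by decide +kernel)
              (CovZ.n2 (27168, 15744) (by decide +kernel)
               (CovZ.badM (by decide +kernel))
               (CovZ.n1 (27216, 15792) (by decide +kernel)
                (CovZ.badM (by decide +kernel))
                (CovZ.badM (by decide +kernel))))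
              (CovZ.badM (by decide +kernel)))))
           (CovZ.subM 2983939418690304031406925937628053417826856086111947913641580011565998769827280859430912 (by decide +kernel)
            (CovZ.n1 (26880, 15936) (by decide +kernel)
             (CovZ.n2 (26976, 16032) (by decide +kernel)
              (CovZ.n2 (26976, 15936) (by decide +kernel)
               (CovZ.badM (by decide +kernel))
               (CovZ.n1 (27024, 15984) (by decide +kernel)
                (CovZ.badM (by decide +kernel))
                (CovZ.badM (by decide +kernel))))
              (CovZ.n1 (26880, 16032) (by decide +kernel)
               (CovZ.n2 (26928, 16080) (by decide +kernel)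
                (CovZ.badM (by decide +kernel))
                (CovZ.badM (by decide +kernel)))
               (CovZ.badM (by decide +kernel))))
             (CovZ.badM (by decide +kernel)))))
          (CovZ.n1 (27072, 15552) (by decide +kernel)
           (CovZ.badM (by decide +kernel))
           (CovZ.n1 (27072, 15744) (by decide +kernel)
            (CovZ.badM (by decide +kernel))
            (CovZ.badM (by decide +kernel))))))))))

theorem TD_u23 : CovZ TD_M (toL (selN TD_LN 5196277793875698824874994611617127792028116257394552636676973666696579048115223071449502132928111662202880)) [0, 7, 6, 1] (26112, 15744) (26304, 15744) (26304, 15936) :=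
    (CovZ.n2 (26208, 15840) (by decide +kernel)
            (CovZ.subM 609210569872362745271636276929256114714954169861617877491148055489931777960511665431383246040751090434048 (by decide +kernel)
             (CovZ.n2 (26304, 15840) (by decide +kernel)
              (CovZ.subM 573374653997517877902709018100701863576232886866107045619762459421434595712064176106602134322531654434816 (by decide +kernel)
               (CovZ.n2 (26256, 15792) (by decide +kernel)
                (CovZ.n2 (26256, 15840) (by decide +kernel)
                 (CovZ.n2 (26280, 15816) (by decide +kernel)
                  (CovZ.badM (by decide +kernel))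
                  (CovZ.n1 (26280, 15840) (by decide +kernel)
                   (CovZ.n2 (26292, 15828) (by decide +kernel)
                    (CovZ.badM (by decide +kernel))
                    (CovZ.n1 (26292, 15840) (by decide +kernel)
                     (CovZ.badM (by decide +kernel))
                     (CovZ.badM (by decide +kernel))))
                   (CovZ.badM (by decide +kernel))))
                 (CovZ.n1 (26232, 15816) (by decide +kernel)
                  (CovZ.n2 (26232, 15840) (by decide +kernel)
                   (CovZ.badM (by decide +kernel))
                   (CovZ.badM (by decide +kernel)))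
                  (CovZ.badM (by decide +kernel))))
                (CovZ.badM (by decide +kernel))))
              (CovZ.n1 (26256, 15888) (by decide +kernel)
               (CovZ.n2 (26304, 15888) (by decide +kernel)
                (CovZ.subM 609210569872362745271635683140157230613652057083670271307083171878646515753977659111110130614660350607360 (by decide +kernel)
                 (CovZ.n2 (26280, 15864) (by decide +kernel)
                  (CovZ.n2 (26280, 15888) (by decide +kernel)
                   (CovZ.n2 (26292, 15876) (by decide +kernel)
                    (CovZ.leaf K2_ok TD_l15994 _)
                    (CovZ.leaf K2_ok TD_l15995 _))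
                   (CovZ.n1 (26268, 15876) (by decide +kernel)
                    (CovZ.leaf K2_ok TD_l15996 _)
                    (CovZ.leaf K2_ok TD_l15997 _)))
                  (CovZ.n1 (26304, 15864) (by decide +kernel)
                   (CovZ.subM 573374653997517877902709018100701865409509285943359259800963180386316605998051108051624238814694324830208 (by decide +kernel)
                    (CovZ.n2 (26292, 15852) (by decide +kernel)
                     (CovZ.n2 (26292, 15864) (by decide +kernel)
                      (CovZ.leaf K2_ok TD_l15998 _)
                      (CovZ.badM (by decide +kernel)))
                     (CovZ.n1 (26304, 15852) (by decide +kernel)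
                      (CovZ.leaf K2_ok TD_l15999 _)
                      (CovZ.leaf K2_ok TD_l16000 _))))
                   (CovZ.n1 (26292, 15876) (by decide +kernel)
                    (CovZ.leaf K2_ok TD_l16001 _)
                    (CovZ.leaf K2_ok TD_l16002 _)))))
                (CovZ.n1 (26280, 15912) (by decide +kernel)
                 (CovZ.n2 (26304, 15912) (by decide +kernel)
                  (CovZ.leaf K2_ok TD_l16003 _)
                  (CovZ.leaf K2_ok TD_l16004 _))
                 (CovZ.n1 (26280, 15888) (by decide +kernel)
                  (CovZ.n2 (26268, 15900) (by decide +kernel)
                   (CovZ.leaf K2_ok TD_l16005 _)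
                   (CovZ.leaf K2_ok TD_l16006 _))
                  (CovZ.leaf K2_ok TD_l16007 _))))
               (CovZ.subM 609210569872362745271635683140157228888215470386029324448394919933236505621140945211498216571597486030848 (by decide +kernel)
                (CovZ.n1 (26256, 15840) (by decide +kernel)
                 (CovZ.subM 35835915874844867368926665039455365204129607103852441857783465362715803931827218315545547908627428278272 (by decide +kernel)
                  (CovZ.n2 (26232, 15864) (by decide +kernel)
                   (CovZ.n2 (26256, 15864) (by decide +kernel)
                    (CovZ.badM (by decide +kernel))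
                    (CovZ.n1 (26244, 15876) (by decide +kernel)
                     (CovZ.n2 (26256, 15876) (by decide +kernel)
                      (CovZ.leaf K2_ok TD_l16008 _)
                      (CovZ.leaf K2_ok TD_l16009 _))
                     (CovZ.n1 (26244, 15864) (by decide +kernel)
                      (CovZ.n2 (26238, 15870) (by decide +kernel)
                       (CovZ.leaf K2_ok TD_l16010 _)
                       (CovZ.n1 (26238, 15864) (by decide +kernel)
                        (CovZ.badM (by decide +kernel))
                        (CovZ.leaf K2_ok TD_l16011 _)))
                      (CovZ.n1 (26250, 15870) (by decide +kernel)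
                       (CovZ.badM (by decide +kernel))
                       (CovZ.leaf K2_ok TD_l16012 _)))))
                   (CovZ.n1 (26232, 15840) (by decide +kernel)
                    (CovZ.badM (by decide +kernel))
                    (CovZ.badM (by decide +kernel)))))
                 (CovZ.n1 (26280, 15864) (by decide +kernel)
                  (CovZ.subM 573374653997517877902709018100701863684072699245718312942274214817060242885273865009027600024063268880384 (by decide +kernel)
                   (CovZ.n2 (26280, 15840) (by decide +kernel)
                    (CovZ.badM (by decide +kernel))
                    (CovZ.n1 (26292, 15852) (by decide +kernel)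
                     (CovZ.n2 (26292, 15840) (by decide +kernel)
                      (CovZ.badM (by decide +kernel))
                      (CovZ.leaf K2_ok TD_l16013 _))
                     (CovZ.badM (by decide +kernel)))))
                  (CovZ.subM 35835915874844867368926665039455365204142771140311011506119991492329909755926551059485891799966025777152 (by decide +kernel)
                   (CovZ.n1 (26256, 15864) (by decide +kernel)
                    (CovZ.n2 (26268, 15876) (by decide +kernel)
                     (CovZ.n2 (26268, 15864) (by decide +kernel)
                      (CovZ.leaf K2_ok TD_l16014 _)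
                      (CovZ.leaf K2_ok TD_l16015 _))
                     (CovZ.leaf K2_ok TD_l16016 _))
                    (CovZ.badM (by decide +kernel))))))))))
            (CovZ.subM 573374653997517877902709018100701863576232886866107045619762459421434595712064176106602134322531654434816 (by decide +kernel)
             (CovZ.n1 (26208, 15744) (by decide +kernel)
              (CovZ.badM (by decide +kernel))
              (CovZ.n1 (26256, 15792) (by decide +kernel)
               (CovZ.n2 (26256, 15744) (by decide +kernel)
                (CovZ.badM (by decide +kernel))
                (CovZ.badM (by decide +kernel)))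
               (CovZ.n1 (26208, 15792) (by decide +kernel)
                (CovZ.n2 (26232, 15816) (by decide +kernel)
                 (CovZ.badM (by decide +kernel))
                 (CovZ.badM (by decide +kernel)))
                (CovZ.badM (by decide +kernel)))))))

theorem TD_u24 : CovZ TD_M (toL (selN TD_LN 5196277793875698824874994611617127792028116257394552636676973666696579048115223071449502132928111662202880)) [0, 7, 6, 1] (26304, 15744) (26496, 15744) (26304, 15936) :=
    (CovZ.n1 (26400, 15840) (by decide +kernel)
            (CovZ.subM 4587067224003336079603358453258999325877982681129905448986099548322758284971600632681262757214311369670656 (by decide +kernel)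
             (CovZ.n2 (26400, 15744) (by decide +kernel)
              (CovZ.n2 (26352, 15792) (by decide +kernel)
               (CovZ.n2 (26400, 15792) (by decide +kernel)
                (CovZ.badM (by decide +kernel))
                (CovZ.n1 (26376, 15816) (by decide +kernel)
                 (CovZ.n2 (26400, 15816) (by decide +kernel)
                  (CovZ.badM (by decide +kernel))
                  (CovZ.n1 (26388, 15828) (by decide +kernel)
                   (CovZ.leaf K2_ok TD_l16017 _)
                   (CovZ.n1 (26388, 15816) (by decide +kernel)
                    (CovZ.leaf K2_ok TD_l16018 _)
                    (CovZ.leaf K2_ok TD_l16019 _))))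
                 (CovZ.badM (by decide +kernel))))
               (CovZ.badM (by decide +kernel)))
              (CovZ.n1 (26448, 15792) (by decide +kernel)
               (CovZ.subM 30105973238102312042662451337175195714422037542861294936140445377333028666212352 (by decide +kernel)
                (CovZ.n2 (26448, 15744) (by decide +kernel)
                 (CovZ.n2 (26424, 15768) (by decide +kernel)
                  (CovZ.badM (by decide +kernel))
                  (CovZ.badM (by decide +kernel)))
                 (CovZ.n1 (26472, 15768) (by decide +kernel)
                  (CovZ.subM 30105944968549275588512785685556356784768711840550443525877929963663614999003136 (by decide +kernel)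
                   (CovZ.n2 (26472, 15744) (by decide +kernel)
                    (CovZ.n2 (26460, 15756) (by decide +kernel)
                     (CovZ.n2 (26472, 15756) (by decide +kernel)
                      (CovZ.badM (by decide +kernel))
                      (CovZ.leaf K2_ok TD_l18351 _))
                     (CovZ.badM (by decide +kernel)))
                    (CovZ.n1 (26484, 15756) (by decide +kernel)
                     (CovZ.n2 (26484, 15744) (by decide +kernel)
                      (CovZ.badM (by decide +kernel))
                      (CovZ.n1 (26490, 15750) (by decide +kernel)
                       (CovZ.leaf K2_ok TD_l18352 _)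
                       (CovZ.badM (by decide +kernel))))
                     (CovZ.n1 (26472, 15756) (by decide +kernel)
                      (CovZ.n2 (26478, 15762) (by decide +kernel)
                       (CovZ.badM (by decide +kernel))
                       (CovZ.leaf K2_ok TD_l18353 _))
                      (CovZ.badM (by decide +kernel))))))
                  (CovZ.subM 463170123796329560079005842190714041879335502985409610927794854853132813336576 (by decide +kernel)
                   (CovZ.n1 (26448, 15768) (by decide +kernel)
                    (CovZ.n2 (26460, 15780) (by decide +kernel)
                     (CovZ.n2 (26460, 15768) (by decide +kernel)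
                      (CovZ.badM (by decide +kernel))
                      (CovZ.leaf K2_ok TD_l18354 _))
                     (CovZ.badM (by decide +kernel)))
                    (CovZ.n1 (26460, 15756) (by decide +kernel)
                     (CovZ.badM (by decide +kernel))
                     (CovZ.n1 (26460, 15768) (by decide +kernel)
                      (CovZ.leaf K2_ok TD_l18355 _)
                      (CovZ.badM (by decide +kernel)))))))))
               (CovZ.n1 (26400, 15792) (by decide +kernel)
                (CovZ.n2 (26424, 15816) (by decide +kernel)
                 (CovZ.subM 4586997231980143023221641909175301530157950546222524229131607207218563289535257202447933076022516806320128 (by decide +kernel)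
                  (CovZ.n2 (26424, 15792) (by decide +kernel)
                   (CovZ.n2 (26412, 15804) (by decide +kernel)
                    (CovZ.n2 (26424, 15804) (by decide +kernel)
                     (CovZ.badM (by decide +kernel))
                     (CovZ.leaf K2_ok TD_l16020 _))
                    (CovZ.badM (by decide +kernel)))
                   (CovZ.n1 (26436, 15804) (by decide +kernel)
                    (CovZ.badM (by decide +kernel))
                    (CovZ.leaf K2_ok TD_l16022 _))))
                 (CovZ.n1 (26400, 15816) (by decide +kernel)
                  (CovZ.n2 (26412, 15828) (by decide +kernel)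
                   (CovZ.leaf K2_ok TD_l16023 _)
                   (CovZ.leaf K2_ok TD_l16024 _))
                  (CovZ.n1 (26412, 15804) (by decide +kernel)
                   (CovZ.badM (by decide +kernel))
                   (CovZ.n1 (26412, 15816) (by decide +kernel)
                    (CovZ.leaf K2_ok TD_l16025 _)
                    (CovZ.badM (by decide +kernel))))))
                (CovZ.n1 (26424, 15768) (by decide +kernel)
                 (CovZ.badM (by decide +kernel))
                 (CovZ.n1 (26424, 15792) (by decide +kernel)
                  (CovZ.badM (by decide +kernel))
                  (CovZ.badM (by decide +kernel))))))))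
            (CovZ.n1 (26304, 15840) (by decide +kernel)
             (CovZ.n2 (26352, 15888) (by decide +kernel)
              (CovZ.subM 5196277793875698824874990312018031459565267484415327723120136093631635762885594875306958884547091392102400 (by decide +kernel)
               (CovZ.n2 (26352, 15840) (by decide +kernel)
                (CovZ.n2 (26328, 15864) (by decide +kernel)
                 (CovZ.n2 (26352, 15864) (by decide +kernel)
                  (CovZ.n2 (26340, 15852) (by decide +kernel)
                   (CovZ.leaf K2_ok TD_l16026 _)
                   (CovZ.leaf K2_ok TD_l16027 _))
                  (CovZ.n1 (26340, 15876) (by decide +kernel)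
                   (CovZ.leaf K2_ok TD_l16028 _)
                   (CovZ.leaf K2_ok TD_l16029 _)))
                 (CovZ.subM 22765651081213807592431117555198117763836110614748328676596316046886928406095593472 (by decide +kernel)
                  (CovZ.n1 (26328, 15840) (by decide +kernel)
                   (CovZ.subM 7588550360258587459678225325743551930506490443410685932350980232371834594944614400 (by decide +kernel)
                    (CovZ.n2 (26316, 15852) (by decide +kernel)
                     (CovZ.n2 (26328, 15852) (by decide +kernel)
                      (CovZ.leaf K2_ok TD_l16030 _)
                      (CovZ.leaf K2_ok TD_l16031 _))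
                     (CovZ.n1 (26316, 15840) (by decide +kernel)
                      (CovZ.n2 (26310, 15846) (by decide +kernel)
                       (CovZ.leaf K2_ok TD_l16032 _)
                       (CovZ.badM (by decide +kernel)))
                      (CovZ.leaf K2_ok TD_l16033 _))))
                   (CovZ.n1 (26340, 15852) (by decide +kernel)
                    (CovZ.n2 (26340, 15840) (by decide +kernel)
                     (CovZ.leaf K2_ok TD_l16034 _)
                     (CovZ.leaf K2_ok TD_l16035 _))
                    (CovZ.leaf K2_ok TD_l16036 _)))))
                (CovZ.n1 (26376, 15864) (by decide +kernel)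
                 (CovZ.n2 (26376, 15840) (by decide +kernel)
                  (CovZ.n2 (26364, 15852) (by decide +kernel)
                   (CovZ.leaf K2_ok TD_l16037 _)
                   (CovZ.leaf K2_ok TD_l16038 _))
                  (CovZ.leaf K2_ok TD_l16039 _))
                 (CovZ.n1 (26352, 15864) (by decide +kernel)
                  (CovZ.leaf K2_ok TD_l16040 _)
                  (CovZ.leaf K2_ok TD_l16041 _)))))
              (CovZ.n1 (26304, 15888) (by decide +kernel)
               (CovZ.n2 (26328, 15912) (by decide +kernel)
                (CovZ.n2 (26328, 15888) (by decide +kernel)
                 (CovZ.n2 (26316, 15900) (by decide +kernel)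
                  (CovZ.leaf K2_ok TD_l16042 _)
                  (CovZ.leaf K2_ok TD_l16043 _))
                 (CovZ.leaf K2_ok TD_l16044 _))
                (CovZ.leaf K2_ok TD_l16045 _))
               (CovZ.subM 609210569872362745271650978812005834398605377861837187600692175721801657202575085807882715684781997162496 (by decide +kernel)
                (CovZ.n1 (26328, 15864) (by decide +kernel)
                 (CovZ.n2 (26304, 15864) (by decide +kernel)
                  (CovZ.n2 (26316, 15876) (by decide +kernel)
                   (CovZ.leaf K2_ok TD_l16046 _)
                   (CovZ.leaf K2_ok TD_l16047 _))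
                  (CovZ.n1 (26316, 15852) (by decide +kernel)
                   (CovZ.leaf K2_ok TD_l16048 _)
                   (CovZ.leaf K2_ok TD_l16049 _)))
                 (CovZ.n1 (26328, 15888) (by decide +kernel)
                  (CovZ.leaf K2_ok TD_l16050 _)
                  (CovZ.n1 (26316, 15876) (by decide +kernel)
                   (CovZ.leaf K2_ok TD_l16051 _)
                   (CovZ.leaf K2_ok TD_l16052 _)))))))
             (CovZ.subM 4587067224003336079603358423153054359054143679314368391429604686166230344965432949486743964371134441324544 (by decide +kernel)
              (CovZ.n1 (26352, 15792) (by decide +kernel)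
               (CovZ.n2 (26304, 15792) (by decide +kernel)
                (CovZ.n2 (26328, 15816) (by decide +kernel)
                 (CovZ.badM (by decide +kernel))
                 (CovZ.badM (by decide +kernel)))
                (CovZ.badM (by decide +kernel)))
               (CovZ.n1 (26352, 15840) (by decide +kernel)
                (CovZ.n2 (26376, 15816) (by decide +kernel)
                 (CovZ.subM 69992023193056381716513977752828896193107380835454154153070276273577971574106683562987823932270182400 (by decide +kernel)
                  (CovZ.n2 (26352, 15816) (by decide +kernel)
                   (CovZ.n2 (26364, 15828) (by decide +kernel)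
                    (CovZ.n2 (26364, 15816) (by decide +kernel)
                     (CovZ.badM (by decide +kernel))
                     (CovZ.leaf K2_ok TD_l16053 _))
                    (CovZ.n1 (26352, 15828) (by decide +kernel)
                     (CovZ.leaf K2_ok TD_l16054 _)
                     (CovZ.badM (by decide +kernel))))
                   (CovZ.badM (by decide +kernel))))
                 (CovZ.n1 (26376, 15840) (by decide +kernel)
                  (CovZ.n2 (26388, 15828) (by decide +kernel)
                   (CovZ.leaf K2_ok TD_l16055 _)
                   (CovZ.n1 (26388, 15840) (by decide +kernel)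
                    (CovZ.leaf K2_ok TD_l16056 _)
                    (CovZ.leaf K2_ok TD_l16057 _)))
                  (CovZ.n1 (26364, 15828) (by decide +kernel)
                   (CovZ.leaf K2_ok TD_l16058 _)
                   (CovZ.n1 (26376, 15828) (by decide +kernel)
                    (CovZ.leaf K2_ok TD_l16059 _)
                    (CovZ.leaf K2_ok TD_l16060 _)))))
                (CovZ.subM 15177100720956945569339589870401424522295189427700755521488378411153884442206928896 (by decide +kernel)
                 (CovZ.n1 (26328, 15816) (by decide +kernel)
                  (CovZ.n2 (26328, 15840) (by decide +kernel)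
                   (CovZ.n2 (26340, 15828) (by decide +kernel)
                    (CovZ.leaf K2_ok TD_l16061 _)
                    (CovZ.n1 (26340, 15840) (by decide +kernel)
                     (CovZ.leaf K2_ok TD_l16062 _)
                     (CovZ.n1 (26334, 15834) (by decide +kernel)
                      (CovZ.leaf K2_ok TD_l16063 _)
                      (CovZ.leaf K2_ok TD_l16064 _))))
                   (CovZ.n1 (26316, 15828) (by decide +kernel)
                    (CovZ.n2 (26316, 15840) (by decide +kernel)
                     (CovZ.leaf K2_ok TD_l18356 _)
                     (CovZ.badM (by decide +kernel)))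
                    (CovZ.n1 (26328, 15828) (by decide +kernel)
                     (CovZ.badM (by decide +kernel))
                     (CovZ.leaf K2_ok TD_l18357 _))))
                  (CovZ.n1 (26352, 15816) (by decide +kernel)
                   (CovZ.badM (by decide +kernel))
                   (CovZ.n1 (26340, 15828) (by decide +kernel)
                    (CovZ.n2 (26352, 15828) (by decide +kernel)
                     (CovZ.n2 (26346, 15822) (by decide +kernel)
                      (CovZ.leaf K2_ok TD_l16065 _)
                      (CovZ.badM (by decide +kernel)))
                     (CovZ.leaf K2_ok TD_l16066 _))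
                    (CovZ.n1 (26340, 15816) (by decide +kernel)
                     (CovZ.n2 (26334, 15822) (by decide +kernel)
                      (CovZ.leaf K2_ok TD_l16067 _)
                      (CovZ.badM (by decide +kernel)))
                     (CovZ.n1 (26346, 15822) (by decide +kernel)
                      (CovZ.badM (by decide +kernel))
                      (CovZ.leaf K2_ok TD_l16068 _))))))))))))

theorem TD_u25 : CovZ TD_M (toL (selN TD_LN 5517161701142024287522335488260926209722599405954081345008585087542201069906483495623921110322202768703488)) [0, 7, 6, 1] (26112, 16128) (26112, 15744) (26496, 15744) :=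
    (CovZ.n2 (26304, 15936) (by decide +kernel)
         (CovZ.subM 5196277793875698824874994611617127792028116257394552636676973666696579048115223071449502132928111662202880 (by decide +kernel)
          (CovZ.n2 (26304, 15744) (by decide +kernel)
           TD_u23
           TD_u24))
         (CovZ.n1 (26112, 15936) (by decide +kernel)
          (CovZ.n2 (26208, 16032) (by decide +kernel)
           (CovZ.subM 920570093590622202973100392907882602452188265448714355225427680071891897823289143012897986426236037103616 (by decide +kernel)
            (CovZ.n2 (26208, 15936) (by decide +kernel)
             (CovZ.subM 311359523718259457701464591196597724999152227176723049120602874882014678353890346922011437678589022175232 (by decide +kernel)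
              (CovZ.n2 (26160, 15984) (by decide +kernel)
               (CovZ.n2 (26208, 15984) (by decide +kernel)
                (CovZ.n2 (26184, 15960) (by decide +kernel)
                 (CovZ.n2 (26184, 15984) (by decide +kernel)
                  (CovZ.leaf K2_ok TD_l16069 _)
                  (CovZ.leaf K2_ok TD_l16070 _))
                 (CovZ.n1 (26208, 15960) (by decide +kernel)
                  (CovZ.leaf K2_ok TD_l16071 _)
                  (CovZ.leaf K2_ok TD_l16072 _)))
                (CovZ.n1 (26184, 16008) (by decide +kernel)
                 (CovZ.leaf K2_ok TD_l6589 _)
                 (CovZ.n1 (26184, 15984) (by decide +kernel)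
                  (CovZ.leaf K2_ok TD_l16073 _)
                  (CovZ.leaf K2_ok TD_l16074 _))))
               (CovZ.n1 (26160, 15936) (by decide +kernel)
                (CovZ.subM 24637192163955846378297269637476219054197468185574696755145870104712838008472795937360796505275782660096 (by decide +kernel)
                 (CovZ.n2 (26136, 15960) (by decide +kernel)
                  (CovZ.n2 (26160, 15960) (by decide +kernel)
                   (CovZ.n2 (26148, 15948) (by decide +kernel)
                    (CovZ.leaf K2_ok TD_l16075 _)
                    (CovZ.leaf K2_ok TD_l16076 _))
                   (CovZ.leaf K2_ok TD_l16077 _))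
                  (CovZ.subM 62165404551223330269422781018352605012557024424854764312713782495574505288657048436736 (by decide +kernel)
                   (CovZ.n1 (26136, 15936) (by decide +kernel)
                    (CovZ.n2 (26124, 15948) (by decide +kernel)
                     (CovZ.n2 (26136, 15948) (by decide +kernel)
                      (CovZ.badM (by decide +kernel))
                      (CovZ.leaf K2_ok TD_l16078 _))
                     (CovZ.badM (by decide +kernel)))
                    (CovZ.n1 (26148, 15948) (by decide +kernel)
                     (CovZ.badM (by decide +kernel))
                     (CovZ.leaf K2_ok TD_l16079 _))))))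
                (CovZ.n1 (26184, 15960) (by decide +kernel)
                 (CovZ.n2 (26184, 15936) (by decide +kernel)
                  (CovZ.n2 (26172, 15948) (by decide +kernel)
                   (CovZ.leaf K2_ok TD_l16080 _)
                   (CovZ.leaf K2_ok TD_l16081 _))
                  (CovZ.leaf K2_ok TD_l16082 _))
                 (CovZ.leaf K2_ok TD_l16083 _)))))
             (CovZ.n1 (26256, 15984) (by decide +kernel)
              (CovZ.n2 (26256, 15936) (by decide +kernel)
               (CovZ.subM 347160435037559652636472325659322411158422695993689663543201958664923897877726493965437325391544857919488 (by decide +kernel)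
                (CovZ.n2 (26232, 15960) (by decide +kernel)
                 (CovZ.n2 (26256, 15960) (by decide +kernel)
                  (CovZ.leaf K2_ok TD_l16084 _)
                  (CovZ.leaf K2_ok TD_l16085 _))
                 (CovZ.n1 (26232, 15936) (by decide +kernel)
                  (CovZ.leaf K2_ok TD_l16086 _)
                  (CovZ.leaf K2_ok TD_l16087 _))))
               (CovZ.n1 (26280, 15960) (by decide +kernel)
                (CovZ.n2 (26280, 15936) (by decide +kernel)
                 (CovZ.leaf K2_ok TD_l16088 _)
                 (CovZ.leaf K2_ok TD_l16089 _))
                (CovZ.leaf K2_ok TD_l16090 _)))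
              (CovZ.n1 (26208, 15984) (by decide +kernel)
               (CovZ.n2 (26232, 16008) (by decide +kernel)
                (CovZ.leaf K2_ok TD_l6590 _)
                (CovZ.leaf K2_ok TD_l6591 _))
               (CovZ.n1 (26232, 15960) (by decide +kernel)
                (CovZ.leaf K2_ok TD_l16091 _)
                (CovZ.leaf K2_ok TD_l16092 _))))))
           (CovZ.subM 311360617610620228728623477164899531531653580447046232769736865925367644923859210745200498314436805787648 (by decide +kernel)
            (CovZ.n1 (26112, 16032) (by decide +kernel)
             (CovZ.n2 (26160, 16080) (by decide +kernel)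
              (CovZ.n2 (26160, 16032) (by decide +kernel)
               (CovZ.n2 (26136, 16056) (by decide +kernel)
                (CovZ.leaf K2_ok TD_l6592 _)
                (CovZ.leaf K2_ok TD_l6593 _))
               (CovZ.leaf K2_ok TD_l6594 _))
              (CovZ.n1 (26112, 16080) (by decide +kernel)
               (CovZ.leaf K2_ok TD_l6595 _)
               (CovZ.leaf K2_ok TD_l6596 _)))
             (CovZ.n1 (26160, 15984) (by decide +kernel)
              (CovZ.subM 311359523718259457701403644717943194315490969922340830878843973950343504904960813056749543472887700127744 (by decide +kernel)
               (CovZ.n2 (26112, 15984) (by decide +kernel)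
                (CovZ.n2 (26136, 16008) (by decide +kernel)
                 (CovZ.n2 (26136, 15984) (by decide +kernel)
                  (CovZ.leaf K2_ok TD_l16093 _)
                  (CovZ.leaf K2_ok TD_l16094 _))
                 (CovZ.leaf K2_ok TD_l16095 _))
                (CovZ.subM 24637192163955846875620506047262861209579716332395536855602020902060565833530489900175550578801816633344 (by decide +kernel)
                 (CovZ.n1 (26136, 15960) (by decide +kernel)
                  (CovZ.n2 (26112, 15960) (by decide +kernel)
                   (CovZ.n2 (26124, 15972) (by decide +kernel)
                    (CovZ.leaf K2_ok TD_l16096 _)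
                    (CovZ.leaf K2_ok TD_l16097 _))
                   (CovZ.n1 (26124, 15948) (by decide +kernel)
                    (CovZ.leaf K2_ok TD_l16098 _)
                    (CovZ.leaf K2_ok TD_l16099 _)))
                  (CovZ.n1 (26136, 15984) (by decide +kernel)
                   (CovZ.leaf K2_ok TD_l16100 _)
                   (CovZ.n1 (26124, 15972) (by decide +kernel)
                    (CovZ.leaf K2_ok TD_l16101 _)
                    (CovZ.leaf K2_ok TD_l16102 _)))))))
              (CovZ.n1 (26160, 16032) (by decide +kernel)
               (CovZ.n2 (26184, 16008) (by decide +kernel)
                (CovZ.leaf K2_ok TD_l16103 _)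
                (CovZ.leaf K2_ok TD_l6597 _))
               (CovZ.n1 (26136, 16008) (by decide +kernel)
                (CovZ.n2 (26136, 16032) (by decide +kernel)
                 (CovZ.leaf K2_ok TD_l16104 _)
                 (CovZ.leaf K2_ok TD_l16105 _))
                (CovZ.leaf K2_ok TD_l16106 _)))))))
          (CovZ.subM 609210569872362745271696985332138168748420403046212242439144451071008767198629650377414424129936583426048 (by decide +kernel)
           (CovZ.n1 (26208, 15840) (by decide +kernel)
            (CovZ.n2 (26112, 15840) (by decide +kernel)
             (CovZ.n2 (26160, 15888) (by decide +kernel)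
              (CovZ.badM (by decide +kernel))
              (CovZ.badM (by decide +kernel)))
             (CovZ.badM (by decide +kernel)))
            (CovZ.n1 (26208, 15936) (by decide +kernel)
             (CovZ.n2 (26256, 15888) (by decide +kernel)
              (CovZ.subM 35835915874844867368927140257426602466047738693479013244107429286616715402880616799026969949299695157248 (by decide +kernel)
               (CovZ.n2 (26208, 15888) (by decide +kernel)
                (CovZ.n2 (26232, 15912) (by decide +kernel)
                 (CovZ.n2 (26232, 15888) (by decide +kernel)
                  (CovZ.n2 (26220, 15900) (by decide +kernel)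
                   (CovZ.n2 (26232, 15900) (by decide +kernel)
                    (CovZ.badM (by decide +kernel))
                    (CovZ.leaf K2_ok TD_l16107 _))
                   (CovZ.badM (by decide +kernel)))
                  (CovZ.n1 (26244, 15900) (by decide +kernel)
                   (CovZ.n2 (26244, 15888) (by decide +kernel)
                    (CovZ.leaf K2_ok TD_l16108 _)
                    (CovZ.leaf K2_ok TD_l16109 _))
                   (CovZ.leaf K2_ok TD_l16110 _)))
                 (CovZ.subM 475217971237261918131589626571386323607111977734981083133911989059666888171192320 (by decide +kernel)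
                  (CovZ.n1 (26208, 15912) (by decide +kernel)
                   (CovZ.n2 (26220, 15924) (by decide +kernel)
                    (CovZ.leaf K2_ok TD_l16111 _)
                    (CovZ.leaf K2_ok TD_l16112 _))
                   (CovZ.n1 (26220, 15900) (by decide +kernel)
                    (CovZ.leaf K2_ok TD_l16113 _)
                    (CovZ.leaf K2_ok TD_l16114 _)))))
                (CovZ.subM 35835915874844867368926665039455365204129607103852441857783822174638980421797482887037910282411523964928 (by decide +kernel)
                 (CovZ.n1 (26232, 15864) (by decide +kernel)
                  (CovZ.badM (by decide +kernel))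
                  (CovZ.n1 (26232, 15888) (by decide +kernel)
                   (CovZ.n2 (26244, 15876) (by decide +kernel)
                    (CovZ.leaf K2_ok TD_l16115 _)
                    (CovZ.n1 (26244, 15888) (by decide +kernel)
                     (CovZ.leaf K2_ok TD_l16116 _)
                     (CovZ.leaf K2_ok TD_l16117 _)))
                   (CovZ.badM (by decide +kernel)))))))
              (CovZ.n1 (26256, 15936) (by decide +kernel)
               (CovZ.n2 (26280, 15912) (by decide +kernel)
                (CovZ.n2 (26256, 15912) (by decide +kernel)
                 (CovZ.leaf K2_ok TD_l16118 _)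
                 (CovZ.leaf K2_ok TD_l16119 _))
                (CovZ.n1 (26280, 15936) (by decide +kernel)
                 (CovZ.leaf K2_ok TD_l16120 _)
                 (CovZ.leaf K2_ok TD_l16121 _)))
               (CovZ.subM 35835915874844867368927140257426602466047738693479013244107429286616715402880616799026969949299695157248 (by decide +kernel)
                (CovZ.n1 (26232, 15912) (by decide +kernel)
                 (CovZ.n2 (26232, 15936) (by decide +kernel)
                  (CovZ.leaf K2_ok TD_l16122 _)
                  (CovZ.n1 (26220, 15924) (by decide +kernel)
                   (CovZ.leaf K2_ok TD_l16123 _)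
                   (CovZ.leaf K2_ok TD_l16124 _)))
                 (CovZ.n1 (26256, 15912) (by decide +kernel)
                  (CovZ.n2 (26244, 15900) (by decide +kernel)
                   (CovZ.leaf K2_ok TD_l16125 _)
                   (CovZ.leaf K2_ok TD_l16126 _))
                  (CovZ.n1 (26244, 15924) (by decide +kernel)
                   (CovZ.leaf K2_ok TD_l16127 _)
                   (CovZ.leaf K2_ok TD_l16128 _)))))))
             (CovZ.subM 61183620853291295384364774220936334319645881131547729230854286527875382289568366592 (by decide +kernel)
              (CovZ.n1 (26160, 15888) (by decide +kernel)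
               (CovZ.n2 (26160, 15936) (by decide +kernel)
                (CovZ.n2 (26184, 15912) (by decide +kernel)
                 (CovZ.subM 61182687279570094082661464924280431000113306520818548716598204073198368132207476736 (by decide +kernel)
                  (CovZ.n2 (26160, 15912) (by decide +kernel)
                   (CovZ.n2 (26172, 15924) (by decide +kernel)
                    (CovZ.n2 (26172, 15912) (by decide +kernel)
                     (CovZ.badM (by decide +kernel))
                     (CovZ.leaf K2_ok TD_l16129 _))
                    (CovZ.badM (by decide +kernel)))
                   (CovZ.badM (by decide +kernel))))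
                 (CovZ.n1 (26184, 15936) (by decide +kernel)
                  (CovZ.leaf K2_ok TD_l16130 _)
                  (CovZ.n1 (26172, 15924) (by decide +kernel)
                   (CovZ.leaf K2_ok TD_l16131 _)
                   (CovZ.leaf K2_ok TD_l16132 _))))
                (CovZ.badM (by decide +kernel)))
               (CovZ.n1 (26208, 15888) (by decide +kernel)
                (CovZ.badM (by decide +kernel))
                (CovZ.n1 (26184, 15912) (by decide +kernel)
                 (CovZ.n2 (26208, 15912) (by decide +kernel)
                  (CovZ.n2 (26196, 15900) (by decide +kernel)
                   (CovZ.leaf K2_ok TD_l16133 _)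
                   (CovZ.leaf K2_ok TD_l16134 _))
                  (CovZ.n1 (26196, 15924) (by decide +kernel)
                   (CovZ.leaf K2_ok TD_l16135 _)
                   (CovZ.n1 (26196, 15912) (by decide +kernel)
                    (CovZ.leaf K2_ok TD_l16136 _)
                    (CovZ.leaf K2_ok TD_l16137 _))))
                 (CovZ.subM 933573719475865116611655709044630567005354366067737013039858038223526304940032 (by decide +kernel)
                  (CovZ.n1 (26184, 15888) (by decide +kernel)
                   (CovZ.badM (by decide +kernel))
                   (CovZ.n1 (26196, 15900) (by decide +kernel)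
                    (CovZ.n2 (26196, 15888) (by decide +kernel)
                     (CovZ.badM (by decide +kernel))
                     (CovZ.leaf K2_ok TD_l18358 _))
                    (CovZ.badM (by decide +kernel))))))))))))))

theorem TD_u26 : CovZ TD_M (toL (selN TD_LN 5517161701142024287522335488260926209722599405954081345008585087542201069906483495623921110322202768703488)) [0, 7, 6, 1] (26112, 15744) (26112, 15360) (26496, 15744) :=
    (CovZ.subM 573374653997517877902830464549269087674584422516369957394598247960833757420804982637457977110883888922624 (by decide +kernel)
         (CovZ.n1 (26304, 15552) (by decide +kernel)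
          (CovZ.n2 (26112, 15552) (by decide +kernel)
           (CovZ.n2 (26208, 15648) (by decide +kernel)
            (CovZ.badM (by decide +kernel))
            (CovZ.badM (by decide +kernel)))
           (CovZ.badM (by decide +kernel)))
          (CovZ.n1 (26304, 15744) (by decide +kernel)
           (CovZ.subM 29642803114305982482583445494984481672542702039875885325212650522479895852875776 (by decide +kernel)
            (CovZ.n2 (26400, 15648) (by decide +kernel)
             (CovZ.badM (by decide +kernel))
             (CovZ.n1 (26400, 15744) (by decide +kernel)
              (CovZ.n2 (26448, 15696) (by decide +kernel)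
               (CovZ.badM (by decide +kernel))
               (CovZ.n1 (26448, 15744) (by decide +kernel)
                (CovZ.n2 (26472, 15720) (by decide +kernel)
                 (CovZ.badM (by decide +kernel))
                 (CovZ.n1 (26472, 15744) (by decide +kernel)
                  (CovZ.n2 (26484, 15732) (by decide +kernel)
                   (CovZ.badM (by decide +kernel))
                   (CovZ.n1 (26484, 15744) (by decide +kernel)
                    (CovZ.n2 (26490, 15738) (by decide +kernel)
                     (CovZ.badM (by decide +kernel))
                     (CovZ.n1 (26490, 15744) (by decide +kernel)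
                      (CovZ.badM (by decide +kernel))
                      (CovZ.badM (by decide +kernel))))
                    (CovZ.badM (by decide +kernel))))
                  (CovZ.badM (by decide +kernel))))
                (CovZ.badM (by decide +kernel))))
              (CovZ.badM (by decide +kernel)))))
           (CovZ.subM 573374653997517877902709018100701863576232886866107045619762459421434595712064176106602134322531654434816 (by decide +kernel)
            (CovZ.n1 (26208, 15648) (by decide +kernel)
             (CovZ.n2 (26208, 15744) (by decide +kernel)
              (CovZ.n2 (26256, 15696) (by decide +kernel)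
               (CovZ.badM (by decide +kernel))
               (CovZ.n1 (26256, 15744) (by decide +kernel)
                (CovZ.badM (by decide +kernel))
                (CovZ.badM (by decide +kernel))))
              (CovZ.badM (by decide +kernel)))
             (CovZ.badM (by decide +kernel)))))))

theorem TD_u27 : CovZ TD_M (toL (selN TD_LN 5517161701142024287522335488260926209722599405954081345008585087542201069906483495623921110322202768703488)) [0, 7, 6, 1] (26880, 16128) (26496, 16128) (26496, 15744) :=
    (CovZ.subM 5223719041735824871999425401253971498609748403156333680230567760287450645800632369716931816526470885408768 (by decide +kernel)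
         (CovZ.n2 (26688, 15936) (by decide +kernel)
          (CovZ.n2 (26496, 15936) (by decide +kernel)
           (CovZ.n2 (26592, 16032) (by decide +kernel)
            (CovZ.n2 (26592, 15936) (by decide +kernel)
             (CovZ.n2 (26544, 15984) (by decide +kernel)
              (CovZ.leaf K2_ok TD_l16138 _)
              (CovZ.n1 (26544, 15936) (by decide +kernel)
               (CovZ.leaf K2_ok TD_l6598 _)
               (CovZ.leaf K2_ok TD_l16139 _)))
             (CovZ.n1 (26640, 15984) (by decide +kernel)
              (CovZ.n2 (26640, 15936) (by decide +kernel)
               (CovZ.leaf K2_ok TD_l16140 _)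
               (CovZ.leaf K2_ok TD_l16141 _))
              (CovZ.leaf K2_ok TD_l16142 _)))
            (CovZ.n1 (26496, 16032) (by decide +kernel)
             (CovZ.n2 (26544, 16080) (by decide +kernel)
              (CovZ.leaf K2_ok TD_l6599 _)
              (CovZ.leaf K2_ok TD_l6600 _))
             (CovZ.n1 (26544, 15984) (by decide +kernel)
              (CovZ.leaf K2_ok TD_l6601 _)
              (CovZ.leaf K2_ok TD_l6602 _))))
           (CovZ.n1 (26592, 15840) (by decide +kernel)
            (CovZ.n2 (26496, 15840) (by decide +kernel)
             (CovZ.n2 (26544, 15888) (by decide +kernel)
              (CovZ.n2 (26544, 15840) (by decide +kernel)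
               (CovZ.n2 (26520, 15864) (by decide +kernel)
                (CovZ.leaf K2_ok TD_l16143 _)
                (CovZ.n1 (26520, 15840) (by decide +kernel)
                 (CovZ.leaf K2_ok TD_l16144 _)
                 (CovZ.leaf K2_ok TD_l16145 _)))
               (CovZ.leaf K2_ok TD_l16146 _))
              (CovZ.n1 (26496, 15888) (by decide +kernel)
               (CovZ.leaf K2_ok TD_l6603 _)
               (CovZ.leaf K2_ok TD_l6604 _)))
             (CovZ.subM 4596590513659041313521947322599716815036417967834093723050559304778624411210469908423352154197041434591232 (by decide +kernel)
              (CovZ.n1 (26544, 15792) (by decide +kernel)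
               (CovZ.n2 (26496, 15792) (by decide +kernel)
                (CovZ.n2 (26520, 15816) (by decide +kernel)
                 (CovZ.n2 (26520, 15792) (by decide +kernel)
                  (CovZ.n2 (26508, 15804) (by decide +kernel)
                   (CovZ.leaf K2_ok TD_l16147 _)
                   (CovZ.leaf K2_ok TD_l16148 _))
                  (CovZ.leaf K2_ok TD_l16149 _))
                 (CovZ.leaf K2_ok TD_l16150 _))
                (CovZ.subM 4595956210948854240063871708403492006266676262575367498926013729242616794667021841355063001175276554027008 (by decide +kernel)
                 (CovZ.n1 (26520, 15768) (by decide +kernel)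
                  (CovZ.n2 (26496, 15768) (by decide +kernel)
                   (CovZ.n2 (26508, 15780) (by decide +kernel)
                    (CovZ.n2 (26508, 15768) (by decide +kernel)
                     (CovZ.leaf K2_ok TD_l16151 _)
                     (CovZ.leaf K2_ok TD_l16152 _))
                    (CovZ.leaf K2_ok TD_l16153 _))
                   (CovZ.subM 148677044347561059702249474334452774426517176138166381102282495987766659750297600 (by decide +kernel)
                    (CovZ.n1 (26508, 15756) (by decide +kernel)
                     (CovZ.n2 (26496, 15756) (by decide +kernel)
                      (CovZ.leaf K2_ok TD_l16154 _)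
                      (CovZ.badM (by decide +kernel)))
                     (CovZ.n1 (26508, 15768) (by decide +kernel)
                      (CovZ.leaf K2_ok TD_l16155 _)
                      (CovZ.leaf K2_ok TD_l16156 _)))))
                  (CovZ.n1 (26520, 15792) (by decide +kernel)
                   (CovZ.leaf K2_ok TD_l16157 _)
                   (CovZ.n1 (26508, 15780) (by decide +kernel)
                    (CovZ.leaf K2_ok TD_l16158 _)
                    (CovZ.leaf K2_ok TD_l16159 _))))))
               (CovZ.n1 (26544, 15840) (by decide +kernel)
                (CovZ.n2 (26568, 15816) (by decide +kernel)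
                 (CovZ.leaf K2_ok TD_l16160 _)
                 (CovZ.leaf K2_ok TD_l16161 _))
                (CovZ.n1 (26520, 15816) (by decide +kernel)
                 (CovZ.n2 (26520, 15840) (by decide +kernel)
                  (CovZ.leaf K2_ok TD_l16162 _)
                  (CovZ.leaf K2_ok TD_l16163 _))
                 (CovZ.n1 (26544, 15816) (by decide +kernel)
                  (CovZ.n2 (26532, 15804) (by decide +kernel)
                   (CovZ.leaf K2_ok TD_l16164 _)
                   (CovZ.leaf K2_ok TD_l16165 _))
                  (CovZ.leaf K2_ok TD_l16166 _)))))))
            (CovZ.n1 (26592, 15936) (by decide +kernel)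
             (CovZ.subM 4587631534690330096679831737446144584573759857050275505882443913713229165184084376639669020781853276110848 (by decide +kernel)
              (CovZ.n2 (26640, 15888) (by decide +kernel)
               (CovZ.n2 (26592, 15888) (by decide +kernel)
                (CovZ.leaf K2_ok TD_l16167 _)
                (CovZ.leaf K2_ok TD_l16168 _))
               (CovZ.n1 (26640, 15936) (by decide +kernel)
                (CovZ.leaf K2_ok TD_l16169 _)
                (CovZ.leaf K2_ok TD_l16170 _))))
             (CovZ.n1 (26544, 15888) (by decide +kernel)
              (CovZ.n2 (26544, 15936) (by decide +kernel)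
               (CovZ.leaf K2_ok TD_l16171 _)
               (CovZ.n1 (26520, 15912) (by decide +kernel)
                (CovZ.leaf K2_ok TD_l6605 _)
                (CovZ.leaf K2_ok TD_l16172 _)))
              (CovZ.n1 (26592, 15888) (by decide +kernel)
               (CovZ.n2 (26568, 15864) (by decide +kernel)
                (CovZ.leaf K2_ok TD_l16173 _)
                (CovZ.leaf K2_ok TD_l16174 _))
               (CovZ.leaf K2_ok TD_l16175 _))))))
          (CovZ.n1 (26688, 16128) (by decide +kernel)
           (CovZ.subM 5160931822163205352177108296195944322358422520198293768259754136374672295374451129858376039206573123305472 (by decide +kernel)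
            (CovZ.n2 (26784, 16032) (by decide +kernel)
             (CovZ.n2 (26688, 16032) (by decide +kernel)
              (CovZ.leaf K2_ok TD_l6606 _)
              (CovZ.leaf K2_ok TD_l16176 _))
             (CovZ.n1 (26784, 16128) (by decide +kernel)
              (CovZ.leaf K2_ok TD_l6607 _)
              (CovZ.leaf K2_ok TD_l6608 _))))
           (CovZ.n1 (26592, 16032) (by decide +kernel)
            (CovZ.n2 (26592, 16128) (by decide +kernel)
             (CovZ.leaf K2_ok TD_l6609 _)
             (CovZ.n1 (26544, 16080) (by decide +kernel)
              (CovZ.leaf K2_ok TD_l6610 _)
              (CovZ.leaf K2_ok TD_l6611 _)))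
            (CovZ.subM 5161006188687847974582536961271666321498337691039986735172107768543653985375883983093208894058735865954304 (by decide +kernel)
             (CovZ.n1 (26688, 16032) (by decide +kernel)
              (CovZ.n2 (26640, 15984) (by decide +kernel)
               (CovZ.leaf K2_ok TD_l16177 _)
               (CovZ.leaf K2_ok TD_l16178 _))
              (CovZ.n1 (26640, 16080) (by decide +kernel)
               (CovZ.leaf K2_ok TD_l6612 _)
               (CovZ.leaf K2_ok TD_l16179 _))))))))

theorem TD_u28 : CovZ TD_M (toL (selN TD_LN 5517161701142024287522335488260926209722599405954081345008585087542201069906483495623921110322202768703488)) [0, 7, 6, 1] (26496, 16128) (26112, 16128) (26496, 15744) :=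
    (CovZ.n1 (26304, 15936) (by decide +kernel)
         (CovZ.n2 (26304, 16128) (by decide +kernel)
          (CovZ.n2 (26400, 16032) (by decide +kernel)
           (CovZ.n2 (26304, 16032) (by decide +kernel)
            (CovZ.n2 (26352, 16080) (by decide +kernel)
             (CovZ.n2 (26352, 16032) (by decide +kernel)
              (CovZ.leaf K2_ok TD_l6613 _)
              (CovZ.leaf K2_ok TD_l6614 _))
             (CovZ.leaf K2_ok TD_l6615 _))
            (CovZ.subM 5503122823554058002218748118761728496198296131982957424044212370815697065117514765380345855864385602322432 (by decide +kernel)
             (CovZ.n1 (26352, 15984) (by decide +kernel)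
              (CovZ.n2 (26304, 15984) (by decide +kernel)
               (CovZ.leaf K2_ok TD_l6616 _)
               (CovZ.leaf K2_ok TD_l6617 _))
              (CovZ.n1 (26352, 16032) (by decide +kernel)
               (CovZ.leaf K2_ok TD_l6618 _)
               (CovZ.n1 (26328, 16008) (by decide +kernel)
                (CovZ.leaf K2_ok TD_l6619 _)
                (CovZ.leaf K2_ok TD_l6620 _))))))
           (CovZ.n1 (26400, 16128) (by decide +kernel)
            (CovZ.leaf K2_ok TD_l6621 _)
            (CovZ.n1 (26352, 16080) (by decide +kernel)
             (CovZ.leaf K2_ok TD_l6622 _)
             (CovZ.leaf K2_ok TD_l6623 _))))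
          (CovZ.n1 (26208, 16032) (by decide +kernel)
           (CovZ.n2 (26208, 16128) (by decide +kernel)
            (CovZ.n2 (26256, 16080) (by decide +kernel)
             (CovZ.leaf K2_ok TD_l6624 _)
             (CovZ.n1 (26256, 16128) (by decide +kernel)
              (CovZ.leaf K2_ok TD_l6625 _)
              (CovZ.leaf K2_ok TD_l6626 _)))
            (CovZ.subM 311360617610620228728623477164927801084690034596319565529748752621620884666209220648530444013657487704064 (by decide +kernel)
             (CovZ.n1 (26160, 16080) (by decide +kernel)
              (CovZ.n2 (26160, 16128) (by decide +kernel)
               (CovZ.leaf K2_ok TD_l6627 _)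
               (CovZ.leaf K2_ok TD_l6628 _))
              (CovZ.n1 (26208, 16080) (by decide +kernel)
               (CovZ.n2 (26184, 16056) (by decide +kernel)
                (CovZ.leaf K2_ok TD_l6629 _)
                (CovZ.leaf K2_ok TD_l6630 _))
               (CovZ.leaf K2_ok TD_l6631 _)))))
           (CovZ.n1 (26304, 16032) (by decide +kernel)
            (CovZ.subM 920570093590622202910934988356659272182765484430361750212870661222223433143231145901253049299669365030912 (by decide +kernel)
             (CovZ.n2 (26256, 15984) (by decide +kernel)
              (CovZ.n2 (26256, 16032) (by decide +kernel)
               (CovZ.leaf K2_ok TD_l6632 _)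
               (CovZ.n1 (26232, 16008) (by decide +kernel)
                (CovZ.leaf K2_ok TD_l6633 _)
                (CovZ.leaf K2_ok TD_l6634 _)))
              (CovZ.n1 (26304, 15984) (by decide +kernel)
               (CovZ.n2 (26280, 15960) (by decide +kernel)
                (CovZ.leaf K2_ok TD_l6635 _)
                (CovZ.leaf K2_ok TD_l6636 _))
               (CovZ.n1 (26280, 16008) (by decide +kernel)
                (CovZ.leaf K2_ok TD_l6637 _)
                (CovZ.leaf K2_ok TD_l6638 _)))))
            (CovZ.n1 (26256, 16080) (by decide +kernel)
             (CovZ.n2 (26304, 16080) (by decide +kernel)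
              (CovZ.leaf K2_ok TD_l6639 _)
              (CovZ.leaf K2_ok TD_l6640 _))
             (CovZ.n1 (26256, 16032) (by decide +kernel)
              (CovZ.leaf K2_ok TD_l6641 _)
              (CovZ.leaf K2_ok TD_l6642 _))))))
         (CovZ.n1 (26496, 15936) (by decide +kernel)
          (CovZ.subM 5494728155272340801955622540507327227330556226239931473627269352317370781876037387030365781185339164983296 (by decide +kernel)
           (CovZ.n2 (26400, 15840) (by decide +kernel)
            (CovZ.n2 (26400, 15936) (by decide +kernel)
             (CovZ.n2 (26448, 15888) (by decide +kernel)
              (CovZ.n2 (26400, 15888) (by decide +kernel)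
               (CovZ.n2 (26424, 15912) (by decide +kernel)
                (CovZ.leaf K2_ok TD_l16180 _)
                (CovZ.leaf K2_ok TD_l6643 _))
               (CovZ.n1 (26424, 15864) (by decide +kernel)
                (CovZ.leaf K2_ok TD_l16181 _)
                (CovZ.n1 (26424, 15888) (by decide +kernel)
                 (CovZ.leaf K2_ok TD_l16182 _)
                 (CovZ.leaf K2_ok TD_l16183 _))))
              (CovZ.n1 (26448, 15936) (by decide +kernel)
               (CovZ.leaf K2_ok TD_l6644 _)
               (CovZ.n1 (26424, 15912) (by decide +kernel)
                (CovZ.leaf K2_ok TD_l6645 _)
                (CovZ.leaf K2_ok TD_l6646 _))))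
             (CovZ.n1 (26352, 15888) (by decide +kernel)
              (CovZ.n2 (26352, 15936) (by decide +kernel)
               (CovZ.n2 (26376, 15912) (by decide +kernel)
                (CovZ.leaf K2_ok TD_l16184 _)
                (CovZ.leaf K2_ok TD_l6647 _))
               (CovZ.n1 (26328, 15912) (by decide +kernel)
                (CovZ.n2 (26328, 15936) (by decide +kernel)
                 (CovZ.leaf K2_ok TD_l16185 _)
                 (CovZ.leaf K2_ok TD_l16186 _))
                (CovZ.n1 (26352, 15912) (by decide +kernel)
                 (CovZ.leaf K2_ok TD_l16187 _)
                 (CovZ.leaf K2_ok TD_l16188 _))))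
              (CovZ.n1 (26400, 15888) (by decide +kernel)
               (CovZ.subM 5196277793875698824874990786302428975612403939362082318705806660625492953349345180925222980959270397280256 (by decide +kernel)
                (CovZ.n2 (26376, 15864) (by decide +kernel)
                 (CovZ.n2 (26376, 15888) (by decide +kernel)
                  (CovZ.leaf K2_ok TD_l16189 _)
                  (CovZ.leaf K2_ok TD_l16190 _))
                 (CovZ.n1 (26400, 15864) (by decide +kernel)
                  (CovZ.n2 (26388, 15852) (by decide +kernel)
                   (CovZ.leaf K2_ok TD_l16191 _)
                   (CovZ.leaf K2_ok TD_l16192 _))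
                  (CovZ.leaf K2_ok TD_l16193 _))))
               (CovZ.n1 (26376, 15912) (by decide +kernel)
                (CovZ.leaf K2_ok TD_l6648 _)
                (CovZ.n1 (26376, 15888) (by decide +kernel)
                 (CovZ.leaf K2_ok TD_l16194 _)
                 (CovZ.leaf K2_ok TD_l16195 _))))))
            (CovZ.n1 (26496, 15840) (by decide +kernel)
             (CovZ.subM 4587627160188880530656005402379501693809536158320890199919221677847792803053949140499995809106907795292160 (by decide +kernel)
              (CovZ.n2 (26448, 15792) (by decide +kernel)
               (CovZ.n2 (26448, 15840) (by decide +kernel)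
                (CovZ.n2 (26472, 15816) (by decide +kernel)
                 (CovZ.n2 (26448, 15816) (by decide +kernel)
                  (CovZ.leaf K2_ok TD_l16196 _)
                  (CovZ.n1 (26460, 15804) (by decide +kernel)
                   (CovZ.leaf K2_ok TD_l18359 _)
                   (CovZ.leaf K2_ok TD_l18360 _)))
                 (CovZ.n1 (26472, 15840) (by decide +kernel)
                  (CovZ.leaf K2_ok TD_l16197 _)
                  (CovZ.leaf K2_ok TD_l16198 _)))
                (CovZ.subM 4587067224003336079603366011703414614082890371764800973941644792498689029272660596336372868175367468220416 (by decide +kernel)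
                 (CovZ.n1 (26424, 15816) (by decide +kernel)
                  (CovZ.n2 (26424, 15840) (by decide +kernel)
                   (CovZ.leaf K2_ok TD_l16199 _)
                   (CovZ.n1 (26412, 15828) (by decide +kernel)
                    (CovZ.leaf K2_ok TD_l16200 _)
                    (CovZ.leaf K2_ok TD_l16201 _)))
                  (CovZ.subM 4587067224003336079603229417796901722954554892950204112508509611484452650038462321726359256266060632948736 (by decide +kernel)
                   (CovZ.n1 (26448, 15816) (by decide +kernel)
                    (CovZ.n2 (26436, 15804) (by decide +kernel)
                     (CovZ.leaf K2_ok TD_l16202 _)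
                     (CovZ.n1 (26448, 15804) (by decide +kernel)
                      (CovZ.leaf K2_ok TD_l18361 _)
                      (CovZ.leaf K2_ok TD_l18362 _)))
                    (CovZ.n1 (26436, 15828) (by decide +kernel)
                     (CovZ.leaf K2_ok TD_l16203 _)
                     (CovZ.n1 (26436, 15816) (by decide +kernel)
                      (CovZ.leaf K2_ok TD_l16204 _)
                      (CovZ.leaf K2_ok TD_l16205 _))))))))
               (CovZ.n1 (26496, 15792) (by decide +kernel)
                (CovZ.subM 4586997231980143023221641939281218229154189680586428900786779148248094352911852118781718561957104108699648 (by decide +kernel)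
                 (CovZ.n2 (26472, 15768) (by decide +kernel)
                  (CovZ.n2 (26472, 15792) (by decide +kernel)
                   (CovZ.n2 (26484, 15780) (by decide +kernel)
                    (CovZ.leaf K2_ok TD_l18363 _)
                    (CovZ.leaf K2_ok TD_l16206 _))
                   (CovZ.n1 (26460, 15780) (by decide +kernel)
                    (CovZ.n2 (26460, 15792) (by decide +kernel)
                     (CovZ.leaf K2_ok TD_l18364 _)
                     (CovZ.leaf K2_ok TD_l18365 _))
                    (CovZ.n1 (26472, 15780) (by decide +kernel)
                     (CovZ.leaf K2_ok TD_l18366 _)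
                     (CovZ.leaf K2_ok TD_l18367 _))))
                  (CovZ.n1 (26496, 15768) (by decide +kernel)
                   (CovZ.subM 148677044347561059702249474334452774426517176138166381102282495987766659750297600 (by decide +kernel)
                    (CovZ.n2 (26484, 15756) (by decide +kernel)
                     (CovZ.n2 (26484, 15768) (by decide +kernel)
                      (CovZ.leaf K2_ok TD_l16207 _)
                      (CovZ.n1 (26478, 15762) (by decide +kernel)
                       (CovZ.leaf K2_ok TD_l18368 _)
                       (CovZ.leaf K2_ok TD_l18369 _)))
                     (CovZ.n1 (26496, 15756) (by decide +kernel)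
                      (CovZ.n2 (26490, 15750) (by decide +kernel)
                       (CovZ.leaf K2_ok TD_l16208 _)
                       (CovZ.badM (by decide +kernel)))
                      (CovZ.n1 (26490, 15762) (by decide +kernel)
                       (CovZ.leaf K2_ok TD_l16209 _)
                       (CovZ.leaf K2_ok TD_l16210 _)))))
                   (CovZ.n1 (26484, 15780) (by decide +kernel)
                    (CovZ.leaf K2_ok TD_l16211 _)
                    (CovZ.n1 (26484, 15768) (by decide +kernel)
                     (CovZ.leaf K2_ok TD_l18370 _)
                     (CovZ.leaf K2_ok TD_l16212 _))))))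
                (CovZ.n1 (26472, 15816) (by decide +kernel)
                 (CovZ.n2 (26496, 15816) (by decide +kernel)
                  (CovZ.n2 (26484, 15804) (by decide +kernel)
                   (CovZ.leaf K2_ok TD_l16213 _)
                   (CovZ.leaf K2_ok TD_l16214 _))
                  (CovZ.leaf K2_ok TD_l16215 _))
                 (CovZ.subM 4586997231980143023221641939281218229154189680586428900786779148248094352911852118781718561957104108699648 (by decide +kernel)
                  (CovZ.n1 (26472, 15792) (by decide +kernel)
                   (CovZ.n2 (26460, 15804) (by decide +kernel)
                    (CovZ.n2 (26472, 15804) (by decide +kernel)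
                     (CovZ.leaf K2_ok TD_l18371 _)
                     (CovZ.leaf K2_ok TD_l18372 _))
                    (CovZ.n1 (26460, 15792) (by decide +kernel)
                     (CovZ.leaf K2_ok TD_l18373 _)
                     (CovZ.leaf K2_ok TD_l18374 _)))
                   (CovZ.leaf K2_ok TD_l16216 _)))))))
             (CovZ.n1 (26448, 15888) (by decide +kernel)
              (CovZ.n2 (26496, 15888) (by decide +kernel)
               (CovZ.n2 (26472, 15864) (by decide +kernel)
                (CovZ.leaf K2_ok TD_l16217 _)
                (CovZ.leaf K2_ok TD_l16218 _))
               (CovZ.n1 (26472, 15912) (by decide +kernel)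
                (CovZ.leaf K2_ok TD_l6649 _)
                (CovZ.leaf K2_ok TD_l6650 _)))
              (CovZ.n1 (26448, 15840) (by decide +kernel)
               (CovZ.subM 4622903139878180946972285562476907238687826105372371090912720485209505871214446735865121703891107919691776 (by decide +kernel)
                (CovZ.n2 (26424, 15864) (by decide +kernel)
                 (CovZ.n2 (26448, 15864) (by decide +kernel)
                  (CovZ.leaf K2_ok TD_l16219 _)
                  (CovZ.leaf K2_ok TD_l16220 _))
                 (CovZ.n1 (26424, 15840) (by decide +kernel)
                  (CovZ.leaf K2_ok TD_l16221 _)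
                  (CovZ.leaf K2_ok TD_l16222 _))))
               (CovZ.n1 (26472, 15864) (by decide +kernel)
                (CovZ.n2 (26472, 15840) (by decide +kernel)
                 (CovZ.leaf K2_ok TD_l16223 _)
                 (CovZ.leaf K2_ok TD_l16224 _))
                (CovZ.leaf K2_ok TD_l16225 _)))))))
          (CovZ.n1 (26400, 16032) (by decide +kernel)
           (CovZ.n2 (26496, 16032) (by decide +kernel)
            (CovZ.subM 5510406368467585431429524636471306447705349293369600749309826536011957997580150669610951281195116729991168 (by decide +kernel)
             (CovZ.n2 (26448, 15984) (by decide +kernel)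
              (CovZ.n2 (26448, 16032) (by decide +kernel)
               (CovZ.leaf K2_ok TD_l6651 _)
               (CovZ.leaf K2_ok TD_l6652 _))
              (CovZ.n1 (26496, 15984) (by decide +kernel)
               (CovZ.leaf K2_ok TD_l6653 _)
               (CovZ.leaf K2_ok TD_l6654 _))))
            (CovZ.n1 (26448, 16080) (by decide +kernel)
             (CovZ.leaf K2_ok TD_l6655 _)
             (CovZ.n1 (26448, 16032) (by decide +kernel)
              (CovZ.leaf K2_ok TD_l6656 _)
              (CovZ.leaf K2_ok TD_l6657 _))))
           (CovZ.n1 (26400, 15936) (by decide +kernel)
            (CovZ.subM 5503122823554058002218687410358846442164829898798369187581801048539362568046991583826590615856445728489472 (by decide +kernel)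
             (CovZ.n2 (26352, 15984) (by decide +kernel)
              (CovZ.n2 (26400, 15984) (by decide +kernel)
               (CovZ.n2 (26376, 15960) (by decide +kernel)
                (CovZ.leaf K2_ok TD_l6658 _)
                (CovZ.leaf K2_ok TD_l6659 _))
               (CovZ.leaf K2_ok TD_l6660 _))
              (CovZ.n1 (26352, 15936) (by decide +kernel)
               (CovZ.n2 (26328, 15960) (by decide +kernel)
                (CovZ.leaf K2_ok TD_l6661 _)
                (CovZ.n1 (26328, 15936) (by decide +kernel)
                 (CovZ.leaf K2_ok TD_l16226 _)
                 (CovZ.leaf K2_ok TD_l16227 _)))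
               (CovZ.leaf K2_ok TD_l6662 _))))
            (CovZ.n1 (26448, 15984) (by decide +kernel)
             (CovZ.n2 (26448, 15936) (by decide +kernel)
              (CovZ.leaf K2_ok TD_l6663 _)
              (CovZ.leaf K2_ok TD_l6664 _))
             (CovZ.leaf K2_ok TD_l6665 _))))))

end Pool.Agent.TET
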