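import Pool.Agent.Helper38_TET.TD_M
import Pool.Agent.Helper38_TET.TD_L
import Pool.Agent.Helper38_TET.TD_13
import Pool.Agent.Helper38_TET.TD_14
import Pool.Agent.Helper38_TET.TD_15
import Pool.Agent.Helper38_TET.TD_28
import Pool.Agent.Helper38_TET.TD_29
import Pool.Agent.Helper38_TET.TD_30
import Pool.Agent.Helper38_TET.TD_31
import Pool.Agent.Helper38_TET.TD_32
import Pool.Agent.Helper38_TET.TD_33
import Pool.Agent.Helper38_TET.TD_57
import Pool.Agent.Helper38_TET.TD_99
import Pool.Agent.Helper38_TET.TD_102
import Pool.Agent.Helper38_TET.TD_117

/-!
# MP_c7c9bf_co: certificates, family TD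
-/

set_option autoImplicit false
set_option maxRecDepth 100000

namespace Pool.Agent.TET

theorem TD_u29 : CovZ TD_M (toL (selN TD_LN 8749002964344085963329190815848344065965118299088601514947985203527836952379018647429277098746956929)) [0, 7, 6, 1] (27648, 15360) (28416, 15360) (28416, 16128) :=
    (CovZ.n2 (28032, 15744) (by decide +kernel)
      (CovZ.subM 8749002964325156111976120255349037099176709138236689411927732151004980897375686901235021317266328705 (by decide +kernel)
       (CovZ.n2 (28416, 15744) (by decide +kernel)
        (CovZ.n2 (28224, 15552) (by decide +kernel)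
         (CovZ.n2 (28224, 15744) (by decide +kernel)
          (CovZ.n2 (28320, 15648) (by decide +kernel)
           (CovZ.leaf K2_ok TD_l8578 _)
           (CovZ.leaf K2_ok TD_l8579 _))
          (CovZ.n1 (28128, 15648) (by decide +kernel)
           (CovZ.leaf K2_ok TD_l8580 _)
           (CovZ.n1 (28224, 15648) (by decide +kernel)
            (CovZ.leaf K2_ok TD_l8581 _)
            (CovZ.leaf K2_ok TD_l8582 _))))
         (CovZ.n1 (28416, 15552) (by decide +kernel)
          (CovZ.subM 8749002899140004869272565494744971577383026857014457067130209034085539254705092822846610807422290944 (by decide +kernel)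
           (CovZ.n2 (28320, 15456) (by decide +kernel)
            (CovZ.n2 (28320, 15552) (by decide +kernel)
             (CovZ.leaf K2_ok TD_l8583 _)
             (CovZ.leaf K2_ok TD_l8584 _))
            (CovZ.n1 (28416, 15456) (by decide +kernel)
             (CovZ.n2 (28368, 15408) (by decide +kernel)
              (CovZ.leaf K2_ok TD_l8585 _)
              (CovZ.leaf K2_ok TD_l8586 _))
             (CovZ.leaf K2_ok TD_l8587 _))))
          (CovZ.n1 (28320, 15648) (by decide +kernel)
           (CovZ.leaf K2_ok TD_l8588 _)
           (CovZ.n1 (28320, 15552) (by decide +kernel)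
            (CovZ.leaf K2_ok TD_l8589 _)
            (CovZ.leaf K2_ok TD_l8590 _)))))
        (CovZ.n1 (28224, 15936) (by decide +kernel)
         (CovZ.n2 (28416, 15936) (by decide +kernel)
          (CovZ.n2 (28320, 15840) (by decide +kernel)
           (CovZ.leaf K2_ok TD_l8591 _)
           (CovZ.leaf K2_ok TD_l8592 _))
          (CovZ.leaf K2_ok TD_l8593 _))
         (CovZ.n1 (28224, 15744) (by decide +kernel)
          (CovZ.n2 (28128, 15840) (by decide +kernel)
           (CovZ.leaf K2_ok TD_l8594 _)
           (CovZ.leaf K2_ok TD_l8595 _))
          (CovZ.leaf K2_ok TD_l8596 _)))))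
      (CovZ.subM 8749002899142988808691024214597903870871907832244288767393201682015925464774022669787721508849830912 (by decide +kernel)
       (CovZ.n1 (28032, 15360) (by decide +kernel)
        (CovZ.n2 (27840, 15552) (by decide +kernel)
         (CovZ.subM 8749002899140004869272565494744971577383026857014457067130209035331690498277571375123169376636816384 (by decide +kernel)
          (CovZ.n2 (28032, 15552) (by decide +kernel)
           (CovZ.n2 (27936, 15456) (by decide +kernel)
            (CovZ.n2 (27936, 15552) (by decide +kernel)
             (CovZ.leaf K2_ok TD_l8597 _)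
             (CovZ.n1 (27888, 15504) (by decide +kernel)
              (CovZ.leaf K2_ok TD_l8598 _)
              (CovZ.leaf K2_ok TD_l8599 _)))
            (CovZ.n1 (28032, 15456) (by decide +kernel)
             (CovZ.n2 (27984, 15408) (by decide +kernel)
              (CovZ.leaf K2_ok TD_l8600 _)
              (CovZ.n1 (28032, 15408) (by decide +kernel)
               (CovZ.leaf K2_ok TD_l8601 _)
               (CovZ.leaf K2_ok TD_l8602 _)))
             (CovZ.n1 (27984, 15504) (by decide +kernel)
              (CovZ.leaf K2_ok TD_l8603 _)
              (CovZ.leaf K2_ok TD_l8604 _))))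
           (CovZ.n1 (27936, 15648) (by decide +kernel)
            (CovZ.n2 (28032, 15648) (by decide +kernel)
             (CovZ.leaf K2_ok TD_l8605 _)
             (CovZ.leaf K2_ok TD_l8606 _))
            (CovZ.n1 (27936, 15552) (by decide +kernel)
             (CovZ.leaf K2_ok TD_l8607 _)
             (CovZ.leaf K2_ok TD_l8608 _)))))
         (CovZ.n1 (27840, 15360) (by decide +kernel)
          (CovZ.n2 (27744, 15456) (by decide +kernel)
           (CovZ.subM 8749002899140004869272565494744971577383026858163828722601219717512205783508017516656036826209881088 (by decide +kernel)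
            (CovZ.n2 (27840, 15456) (by decide +kernel)
             (CovZ.n2 (27792, 15408) (by decide +kernel)
              (CovZ.n2 (27792, 15456) (by decide +kernel)
               (CovZ.leaf K2_ok TD_l8609 _)
               (CovZ.n1 (27768, 15432) (by decide +kernel)
                (CovZ.leaf K2_ok TD_l8610 _)
                (CovZ.leaf K2_ok TD_l8611 _)))
              (CovZ.n1 (27840, 15408) (by decide +kernel)
               (CovZ.n2 (27816, 15384) (by decide +kernel)
                (CovZ.leaf K2_ok TD_l8612 _)
                (CovZ.leaf K2_ok TD_l8613 _))
               (CovZ.leaf K2_ok TD_l8614 _)))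
             (CovZ.n1 (27792, 15504) (by decide +kernel)
              (CovZ.leaf K2_ok TD_l8615 _)
              (CovZ.n1 (27792, 15456) (by decide +kernel)
               (CovZ.leaf K2_ok TD_l8616 _)
               (CovZ.leaf K2_ok TD_l8617 _)))))
           (CovZ.subM 8749002899140004869272565494744971577383026857397580952168623737476759310919449420444677395766610944 (by decide +kernel)
            (CovZ.n1 (27744, 15360) (by decide +kernel)
             (CovZ.n2 (27696, 15408) (by decide +kernel)
              (CovZ.n2 (27744, 15408) (by decide +kernel)
               (CovZ.n2 (27720, 15384) (by decide +kernel)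
                (CovZ.leaf K2_ok TD_l8618 _)
                (CovZ.leaf K2_ok TD_l8619 _))
               (CovZ.leaf K2_ok TD_l8620 _))
              (CovZ.n1 (27696, 15360) (by decide +kernel)
               (CovZ.n2 (27672, 15384) (by decide +kernel)
                (CovZ.leaf K2_ok TD_l8621 _)
                (CovZ.n1 (27672, 15360) (by decide +kernel)
                 (CovZ.n2 (27660, 15372) (by decide +kernel)
                  (CovZ.badM (by decide +kernel))
                  (CovZ.badM (by decide +kernel)))
                 (CovZ.badM (by decide +kernel))))
               (CovZ.n1 (27720, 15384) (by decide +kernel)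
                (CovZ.leaf K2_ok TD_l17453 _)
                (CovZ.leaf K2_ok TD_l8622 _))))
             (CovZ.n1 (27792, 15408) (by decide +kernel)
              (CovZ.n2 (27792, 15360) (by decide +kernel)
               (CovZ.n2 (27768, 15384) (by decide +kernel)
                (CovZ.leaf K2_ok TD_l8623 _)
                (CovZ.leaf K2_ok TD_l17454 _))
               (CovZ.leaf K2_ok TD_l8624 _))
              (CovZ.n1 (27744, 15408) (by decide +kernel)
               (CovZ.leaf K2_ok TD_l8625 _)
               (CovZ.leaf K2_ok TD_l8626 _))))))
          (CovZ.subM 8749002899140004869272565494744971577383026857014457066951803073743445513145285628941982484572179456 (by decide +kernel)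
           (CovZ.n1 (27936, 15456) (by decide +kernel)
            (CovZ.n2 (27936, 15360) (by decide +kernel)
             (CovZ.n2 (27888, 15408) (by decide +kernel)
              (CovZ.n2 (27936, 15408) (by decide +kernel)
               (CovZ.leaf K2_ok TD_l8627 _)
               (CovZ.leaf K2_ok TD_l8628 _))
              (CovZ.n1 (27888, 15360) (by decide +kernel)
               (CovZ.n2 (27864, 15384) (by decide +kernel)
                (CovZ.leaf K2_ok TD_l8629 _)
                (CovZ.leaf K2_ok TD_l17455 _))
               (CovZ.leaf K2_ok TD_l8630 _)))
             (CovZ.n1 (27984, 15408) (by decide +kernel)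
              (CovZ.n2 (27984, 15360) (by decide +kernel)
               (CovZ.leaf K2_ok TD_l8631 _)
               (CovZ.leaf K2_ok TD_l8632 _))
              (CovZ.leaf K2_ok TD_l8633 _)))
            (CovZ.n1 (27840, 15456) (by decide +kernel)
             (CovZ.n2 (27888, 15504) (by decide +kernel)
              (CovZ.n2 (27888, 15456) (by decide +kernel)
               (CovZ.leaf K2_ok TD_l8634 _)
               (CovZ.leaf K2_ok TD_l8635 _))
              (CovZ.leaf K2_ok TD_l8636 _))
             (CovZ.n1 (27888, 15408) (by decide +kernel)
              (CovZ.leaf K2_ok TD_l8637 _)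
              (CovZ.n1 (27888, 15456) (by decide +kernel)
               (CovZ.leaf K2_ok TD_l8638 _)
               (CovZ.leaf K2_ok TD_l8639 _))))))))
        (CovZ.n1 (28224, 15552) (by decide +kernel)
         (CovZ.subM 8749002899140004869272565494744971577383026857014457067130209035331690500753451453693929926418336768 (by decide +kernel)
          (CovZ.n2 (28224, 15360) (by decide +kernel)
           (CovZ.n2 (28128, 15456) (by decide +kernel)
            (CovZ.n2 (28224, 15456) (by decide +kernel)
             (CovZ.n2 (28176, 15408) (by decide +kernel)
              (CovZ.leaf K2_ok TD_l8640 _)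
              (CovZ.leaf K2_ok TD_l8641 _))
             (CovZ.leaf K2_ok TD_l8642 _))
            (CovZ.n1 (28128, 15360) (by decide +kernel)
             (CovZ.n2 (28080, 15408) (by decide +kernel)
              (CovZ.leaf K2_ok TD_l8643 _)
              (CovZ.n1 (28080, 15360) (by decide +kernel)
               (CovZ.leaf K2_ok TD_l8644 _)
               (CovZ.leaf K2_ok TD_l8645 _)))
             (CovZ.n1 (28176, 15408) (by decide +kernel)
              (CovZ.leaf K2_ok TD_l8646 _)
              (CovZ.leaf K2_ok TD_l8647 _))))
           (CovZ.n1 (28320, 15456) (by decide +kernel)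
            (CovZ.n2 (28320, 15360) (by decide +kernel)
             (CovZ.n2 (28272, 15408) (by decide +kernel)
              (CovZ.leaf K2_ok TD_l8648 _)
              (CovZ.leaf K2_ok TD_l8649 _))
             (CovZ.leaf K2_ok TD_l8650 _))
            (CovZ.leaf K2_ok TD_l8651 _))))
         (CovZ.subM 8749002899140004869272565494744971577383026857014457067130209035331690498277571375123169376636816384 (by decide +kernel)
          (CovZ.n1 (28032, 15552) (by decide +kernel)
           (CovZ.n2 (28128, 15648) (by decide +kernel)
            (CovZ.n2 (28128, 15552) (by decide +kernel)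
             (CovZ.leaf K2_ok TD_l8652 _)
             (CovZ.leaf K2_ok TD_l8653 _))
            (CovZ.leaf K2_ok TD_l8654 _))
           (CovZ.n1 (28128, 15456) (by decide +kernel)
            (CovZ.n2 (28032, 15456) (by decide +kernel)
             (CovZ.leaf K2_ok TD_l8655 _)
             (CovZ.leaf K2_ok TD_l8656 _))
            (CovZ.n1 (28128, 15552) (by decide +kernel)
             (CovZ.leaf K2_ok TD_l8657 _)
             (CovZ.n1 (28080, 15504) (by decide +kernel)
              (CovZ.leaf K2_ok TD_l8658 _)
              (CovZ.leaf K2_ok TD_l8659 _))))))))))

theorem TD_u30 : CovZ TD_M (toL (selN TD_LN 8749002964344085963329190815848344065965118299088601514947985203527836952379018647429277098746956929)) [0, 7, 6, 1] (28416, 15360) (29184, 15360) (28416, 16128) :=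
    (CovZ.subM 8749002899140004869272565494758775070076607984589700728982910566961665658753411268934801844896648321 (by decide +kernel)
      (CovZ.n1 (28800, 15744) (by decide +kernel)
       (CovZ.n2 (28800, 15360) (by decide +kernel)
        (CovZ.n2 (28608, 15552) (by decide +kernel)
         (CovZ.n2 (28800, 15552) (by decide +kernel)
          (CovZ.n2 (28704, 15456) (by decide +kernel)
           (CovZ.leaf K2_ok TD_l8660 _)
           (CovZ.n1 (28800, 15456) (by decide +kernel)
            (CovZ.leaf K2_ok TD_l8661 _)
            (CovZ.leaf K2_ok TD_l8662 _)))
          (CovZ.n1 (28704, 15648) (by decide +kernel)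
           (CovZ.leaf K2_ok TD_l8663 _)
           (CovZ.leaf K2_ok TD_l8664 _)))
         (CovZ.subM 8749002899140004869272565494744971577383026857014457067130209034085539254705092822846610807422290944 (by decide +kernel)
          (CovZ.n1 (28608, 15360) (by decide +kernel)
           (CovZ.n2 (28512, 15456) (by decide +kernel)
            (CovZ.n2 (28608, 15456) (by decide +kernel)
             (CovZ.leaf K2_ok TD_l8665 _)
             (CovZ.leaf K2_ok TD_l8666 _))
            (CovZ.n1 (28512, 15360) (by decide +kernel)
             (CovZ.leaf K2_ok TD_l8667 _)
             (CovZ.leaf K2_ok TD_l8668 _)))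
           (CovZ.n1 (28704, 15456) (by decide +kernel)
            (CovZ.n2 (28704, 15360) (by decide +kernel)
             (CovZ.leaf K2_ok TD_l8669 _)
             (CovZ.leaf K2_ok TD_l8670 _))
            (CovZ.leaf K2_ok TD_l8671 _)))))
        (CovZ.n1 (28992, 15552) (by decide +kernel)
         (CovZ.n2 (28992, 15360) (by decide +kernel)
          (CovZ.n2 (28896, 15456) (by decide +kernel)
           (CovZ.leaf K2_ok TD_l8672 _)
           (CovZ.n1 (28896, 15360) (by decide +kernel)
            (CovZ.leaf K2_ok TD_l8673 _)
            (CovZ.leaf K2_ok TD_l8674 _)))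
          (CovZ.n1 (29088, 15456) (by decide +kernel)
           (CovZ.leaf K2_ok TD_l8675 _)
           (CovZ.leaf K2_ok TD_l8676 _)))
         (CovZ.n1 (28800, 15552) (by decide +kernel)
          (CovZ.leaf K2_ok TD_l8677 _)
          (CovZ.n1 (28896, 15456) (by decide +kernel)
           (CovZ.leaf K2_ok TD_l8678 _)
           (CovZ.leaf K2_ok TD_l8679 _)))))
       (CovZ.n1 (28416, 15744) (by decide +kernel)
        (CovZ.n2 (28608, 15936) (by decide +kernel)
         (CovZ.n2 (28608, 15744) (by decide +kernel)
          (CovZ.n2 (28512, 15840) (by decide +kernel)
           (CovZ.leaf K2_ok TD_l8680 _)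
           (CovZ.leaf K2_ok TD_l8681 _))
          (CovZ.leaf K2_ok TD_l8682 _))
         (CovZ.leaf K2_ok TD_l8683 _))
        (CovZ.n1 (28608, 15552) (by decide +kernel)
         (CovZ.n2 (28416, 15552) (by decide +kernel)
          (CovZ.n2 (28512, 15648) (by decide +kernel)
           (CovZ.n2 (28512, 15552) (by decide +kernel)
            (CovZ.leaf K2_ok TD_l8684 _)
            (CovZ.leaf K2_ok TD_l8685 _))
           (CovZ.leaf K2_ok TD_l8686 _))
          (CovZ.n1 (28512, 15456) (by decide +kernel)
           (CovZ.leaf K2_ok TD_l8687 _)
           (CovZ.n1 (28512, 15552) (by decide +kernel)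
            (CovZ.leaf K2_ok TD_l8688 _)
            (CovZ.leaf K2_ok TD_l8689 _))))
         (CovZ.n1 (28608, 15744) (by decide +kernel)
          (CovZ.leaf K2_ok TD_l8690 _)
          (CovZ.n1 (28512, 15648) (by decide +kernel)
           (CovZ.leaf K2_ok TD_l8691 _)
           (CovZ.leaf K2_ok TD_l8692 _)))))))

theorem TD_u31 : CovZ TD_M (toL (selN TD_LN 311373741114969054114857049580390680099402708753719976273568032473221628386257003564851299781715643482241)) [0, 7, 6, 1] (24576, 16896) (25344, 17664) (24576, 18432) :=
    (CovZ.subM 1725436586697640946858689143986106987099233025129190450105477136121856 (by decide +kernel)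
     (CovZ.n2 (24576, 17664) (by decide +kernel)
      (CovZ.n2 (24960, 18048) (by decide +kernel)
       (CovZ.n2 (24960, 17664) (by decide +kernel)
        (CovZ.n2 (24768, 17856) (by decide +kernel)
         (CovZ.n2 (24960, 17856) (by decide +kernel)
          (CovZ.n2 (24864, 17760) (by decide +kernel)
           (CovZ.n2 (24864, 17856) (by decide +kernel)
            (CovZ.leaf K2_ok TD_l4241 _)
            (CovZ.leaf K2_ok TD_l4242 _))
           (CovZ.leaf K2_ok TD_l4243 _))
          (CovZ.n1 (24864, 17952) (by decide +kernel)
           (CovZ.n2 (24960, 17952) (by decide +kernel)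
            (CovZ.leaf K2_ok TD_l4244 _)
            (CovZ.leaf K2_ok TD_l4245 _))
           (CovZ.n1 (24864, 17856) (by decide +kernel)
            (CovZ.n2 (24816, 17904) (by decide +kernel)
             (CovZ.leaf K2_ok TD_l4246 _)
             (CovZ.leaf K2_ok TD_l4247 _))
            (CovZ.leaf K2_ok TD_l4248 _))))
         (CovZ.n1 (24768, 17664) (by decide +kernel)
          (CovZ.n2 (24672, 17760) (by decide +kernel)
           (CovZ.n2 (24768, 17760) (by decide +kernel)
            (CovZ.leaf K2_ok TD_l4249 _)
            (CovZ.n1 (24720, 17808) (by decide +kernel)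
             (CovZ.leaf K2_ok TD_l4250 _)
             (CovZ.leaf K2_ok TD_l4251 _)))
           (CovZ.n1 (24672, 17664) (by decide +kernel)
            (CovZ.n2 (24624, 17712) (by decide +kernel)
             (CovZ.leaf K2_ok TD_l4252 _)
             (CovZ.leaf K2_ok TD_l4253 _))
            (CovZ.leaf K2_ok TD_l4254 _)))
          (CovZ.n1 (24864, 17760) (by decide +kernel)
           (CovZ.n2 (24864, 17664) (by decide +kernel)
            (CovZ.leaf K2_ok TD_l4255 _)
            (CovZ.leaf K2_ok TD_l4256 _))
           (CovZ.leaf K2_ok TD_l4257 _))))
        (CovZ.n1 (25152, 17856) (by decide +kernel)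
         (CovZ.n2 (25152, 17664) (by decide +kernel)
          (CovZ.n2 (25056, 17760) (by decide +kernel)
           (CovZ.leaf K2_ok TD_l4258 _)
           (CovZ.leaf K2_ok TD_l4259 _))
          (CovZ.leaf K2_ok TD_l4260 _))
         (CovZ.n1 (24960, 17856) (by decide +kernel)
          (CovZ.n2 (25056, 17952) (by decide +kernel)
           (CovZ.leaf K2_ok TD_l4261 _)
           (CovZ.leaf K2_ok TD_l4262 _))
          (CovZ.leaf K2_ok TD_l4263 _))))
       (CovZ.n1 (24576, 18048) (by decide +kernel)
        (CovZ.n2 (24768, 18240) (by decide +kernel)
         (CovZ.n2 (24768, 18048) (by decide +kernel)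
          (CovZ.n2 (24672, 18144) (by decide +kernel)
           (CovZ.n2 (24768, 18144) (by decide +kernel)
            (CovZ.n2 (24720, 18096) (by decide +kernel)
             (CovZ.n2 (24720, 18144) (by decide +kernel)
              (CovZ.leaf K2_ok TD_l4264 _)
              (CovZ.leaf K2_ok TD_l4265 _))
             (CovZ.n1 (24768, 18096) (by decide +kernel)
              (CovZ.leaf K2_ok TD_l4266 _)
              (CovZ.leaf K2_ok TD_l4267 _)))
            (CovZ.n1 (24720, 18192) (by decide +kernel)
             (CovZ.n2 (24768, 18192) (by decide +kernel)
              (CovZ.leaf K2_ok TD_l4268 _)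
              (CovZ.badM (by decide +kernel)))
             (CovZ.n1 (24720, 18144) (by decide +kernel)
              (CovZ.badM (by decide +kernel))
              (CovZ.leaf K2_ok TD_l4272 _))))
           (CovZ.n1 (24672, 18048) (by decide +kernel)
            (CovZ.n2 (24624, 18096) (by decide +kernel)
             (CovZ.n2 (24672, 18096) (by decide +kernel)
              (CovZ.n2 (24648, 18072) (by decide +kernel)
               (CovZ.badM (by decide +kernel))
               (CovZ.leaf K2_ok TD_l15232 _))
              (CovZ.badM (by decide +kernel)))
             (CovZ.n1 (24624, 18048) (by decide +kernel)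
              (CovZ.badM (by decide +kernel))
              (CovZ.leaf K2_ok TD_l15233 _)))
            (CovZ.n1 (24720, 18096) (by decide +kernel)
             (CovZ.n2 (24720, 18048) (by decide +kernel)
              (CovZ.leaf K2_ok TD_l4273 _)
              (CovZ.leaf K2_ok TD_l4274 _))
             (CovZ.leaf K2_ok TD_l4275 _))))
          (CovZ.n1 (24864, 18144) (by decide +kernel)
           (CovZ.n2 (24864, 18048) (by decide +kernel)
            (CovZ.n2 (24816, 18096) (by decide +kernel)
             (CovZ.leaf K2_ok TD_l4276 _)
             (CovZ.leaf K2_ok TD_l4277 _))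
            (CovZ.leaf K2_ok TD_l4278 _))
           (CovZ.n1 (24768, 18144) (by decide +kernel)
            (CovZ.n2 (24816, 18192) (by decide +kernel)
             (CovZ.leaf K2_ok TD_l4279 _)
             (CovZ.leaf K2_ok TD_l4280 _))
            (CovZ.leaf K2_ok TD_l4281 _))))
         (CovZ.badM (by decide +kernel)))
        (CovZ.n1 (24768, 17856) (by decide +kernel)
         (CovZ.n2 (24576, 17856) (by decide +kernel)
          (CovZ.n2 (24672, 17952) (by decide +kernel)
           (CovZ.n2 (24672, 17856) (by decide +kernel)
            (CovZ.n2 (24624, 17904) (by decide +kernel)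
             (CovZ.n2 (24672, 17904) (by decide +kernel)
              (CovZ.leaf K2_ok TD_l4290 _)
              (CovZ.leaf K2_ok TD_l4291 _))
             (CovZ.n1 (24624, 17856) (by decide +kernel)
              (CovZ.leaf K2_ok TD_l4292 _)
              (CovZ.leaf K2_ok TD_l4293 _)))
            (CovZ.leaf K2_ok TD_l4294 _))
           (CovZ.n1 (24576, 17952) (by decide +kernel)
            (CovZ.n2 (24624, 18000) (by decide +kernel)
             (CovZ.n2 (24624, 17952) (by decide +kernel)
              (CovZ.n2 (24600, 17976) (by decide +kernel)
               (CovZ.leaf K2_ok TD_l15234 _)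
               (CovZ.leaf K2_ok TD_l15235 _))
              (CovZ.leaf K2_ok TD_l15236 _))
             (CovZ.n1 (24576, 18000) (by decide +kernel)
              (CovZ.leaf K2_ok TD_l15237 _)
              (CovZ.leaf K2_ok TD_l15238 _)))
            (CovZ.n1 (24624, 17904) (by decide +kernel)
             (CovZ.leaf K2_ok TD_l15239 _)
             (CovZ.n1 (24624, 17952) (by decide +kernel)
              (CovZ.leaf K2_ok TD_l15240 _)
              (CovZ.leaf K2_ok TD_l15241 _)))))
          (CovZ.n1 (24672, 17760) (by decide +kernel)
           (CovZ.n2 (24576, 17760) (by decide +kernel)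
            (CovZ.n2 (24624, 17808) (by decide +kernel)
             (CovZ.leaf K2_ok TD_l4295 _)
             (CovZ.leaf K2_ok TD_l4296 _))
            (CovZ.leaf K2_ok TD_l4297 _))
           (CovZ.n1 (24672, 17856) (by decide +kernel)
            (CovZ.leaf K2_ok TD_l4298 _)
            (CovZ.n1 (24624, 17808) (by decide +kernel)
             (CovZ.leaf K2_ok TD_l4299 _)
             (CovZ.leaf K2_ok TD_l4300 _)))))
         (CovZ.n1 (24768, 18048) (by decide +kernel)
          (CovZ.n2 (24864, 17952) (by decide +kernel)
           (CovZ.n2 (24768, 17952) (by decide +kernel)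
            (CovZ.leaf K2_ok TD_l4301 _)
            (CovZ.leaf K2_ok TD_l4302 _))
           (CovZ.n1 (24864, 18048) (by decide +kernel)
            (CovZ.leaf K2_ok TD_l4303 _)
            (CovZ.n1 (24816, 18000) (by decide +kernel)
             (CovZ.leaf K2_ok TD_l4304 _)
             (CovZ.leaf K2_ok TD_l4305 _))))
          (CovZ.n1 (24672, 17952) (by decide +kernel)
           (CovZ.n2 (24672, 18048) (by decide +kernel)
            (CovZ.n2 (24720, 18000) (by decide +kernel)
             (CovZ.leaf K2_ok TD_l4306 _)
             (CovZ.n1 (24720, 18048) (by decide +kernel)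
              (CovZ.leaf K2_ok TD_l4307 _)
              (CovZ.leaf K2_ok TD_l4308 _)))
            (CovZ.n1 (24624, 18000) (by decide +kernel)
             (CovZ.n2 (24624, 18048) (by decide +kernel)
              (CovZ.leaf K2_ok TD_l15242 _)
              (CovZ.n1 (24600, 18024) (by decide +kernel)
               (CovZ.badM (by decide +kernel))
               (CovZ.leaf K2_ok TD_l15243 _)))
             (CovZ.n1 (24672, 18000) (by decide +kernel)
              (CovZ.leaf K2_ok TD_l15244 _)
              (CovZ.n1 (24648, 18024) (by decide +kernel)
               (CovZ.leaf K2_ok TD_l15245 _)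
               (CovZ.leaf K2_ok TD_l15246 _)))))
           (CovZ.n1 (24768, 17952) (by decide +kernel)
            (CovZ.n2 (24720, 17904) (by decide +kernel)
             (CovZ.leaf K2_ok TD_l4309 _)
             (CovZ.leaf K2_ok TD_l4310 _))
            (CovZ.n1 (24720, 18000) (by decide +kernel)
             (CovZ.leaf K2_ok TD_l4311 _)
             (CovZ.leaf K2_ok TD_l4312 _))))))))
      (CovZ.n1 (24960, 17280) (by decide +kernel)
       (CovZ.n2 (24576, 17280) (by decide +kernel)
        (CovZ.n2 (24768, 17472) (by decide +kernel)
         (CovZ.n2 (24768, 17280) (by decide +kernel)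
          (CovZ.n2 (24672, 17376) (by decide +kernel)
           (CovZ.leaf K2_ok TD_l4313 _)
           (CovZ.leaf K2_ok TD_l4314 _))
          (CovZ.leaf K2_ok TD_l4315 _))
         (CovZ.n1 (24576, 17472) (by decide +kernel)
          (CovZ.n2 (24672, 17568) (by decide +kernel)
           (CovZ.n2 (24672, 17472) (by decide +kernel)
            (CovZ.leaf K2_ok TD_l4316 _)
            (CovZ.leaf K2_ok TD_l4317 _))
           (CovZ.leaf K2_ok TD_l4318 _))
          (CovZ.n1 (24672, 17376) (by decide +kernel)
           (CovZ.leaf K2_ok TD_l4319 _)
           (CovZ.n1 (24672, 17472) (by decide +kernel)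
            (CovZ.leaf K2_ok TD_l4320 _)
            (CovZ.leaf K2_ok TD_l4321 _)))))
        (CovZ.n1 (24768, 17088) (by decide +kernel)
         (CovZ.n2 (24576, 17088) (by decide +kernel)
          (CovZ.n2 (24672, 17184) (by decide +kernel)
           (CovZ.n2 (24672, 17088) (by decide +kernel)
            (CovZ.leaf K2_ok TD_l4322 _)
            (CovZ.leaf K2_ok TD_l4323 _))
           (CovZ.leaf K2_ok TD_l4324 _))
          (CovZ.n1 (24672, 16992) (by decide +kernel)
           (CovZ.n2 (24576, 16992) (by decide +kernel)
            (CovZ.leaf K2_ok TD_l4325 _)
            (CovZ.leaf K2_ok TD_l4326 _))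
           (CovZ.n1 (24672, 17088) (by decide +kernel)
            (CovZ.leaf K2_ok TD_l4327 _)
            (CovZ.n1 (24624, 17040) (by decide +kernel)
             (CovZ.leaf K2_ok TD_l4328 _)
             (CovZ.leaf K2_ok TD_l4329 _)))))
         (CovZ.n1 (24768, 17280) (by decide +kernel)
          (CovZ.leaf K2_ok TD_l4330 _)
          (CovZ.n1 (24672, 17184) (by decide +kernel)
           (CovZ.n2 (24672, 17280) (by decide +kernel)
            (CovZ.leaf K2_ok TD_l4331 _)
            (CovZ.leaf K2_ok TD_l4332 _))
           (CovZ.leaf K2_ok TD_l4333 _)))))
       (CovZ.n1 (24960, 17664) (by decide +kernel)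
        (CovZ.n2 (25152, 17472) (by decide +kernel)
         (CovZ.leaf K2_ok TD_l4334 _)
         (CovZ.n1 (25152, 17664) (by decide +kernel)
          (CovZ.leaf K2_ok TD_l4335 _)
          (CovZ.leaf K2_ok TD_l4336 _)))
        (CovZ.n1 (24768, 17472) (by decide +kernel)
         (CovZ.n2 (24768, 17664) (by decide +kernel)
          (CovZ.n2 (24864, 17568) (by decide +kernel)
           (CovZ.leaf K2_ok TD_l4337 _)
           (CovZ.leaf K2_ok TD_l4338 _))
          (CovZ.n1 (24672, 17568) (by decide +kernel)
           (CovZ.n2 (24672, 17664) (by decide +kernel)
            (CovZ.leaf K2_ok TD_l4339 _)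
            (CovZ.n1 (24624, 17616) (by decide +kernel)
             (CovZ.leaf K2_ok TD_l4340 _)
             (CovZ.leaf K2_ok TD_l4341 _)))
           (CovZ.n1 (24768, 17568) (by decide +kernel)
            (CovZ.leaf K2_ok TD_l4342 _)
            (CovZ.leaf K2_ok TD_l4343 _))))
         (CovZ.n1 (24960, 17472) (by decide +kernel)
          (CovZ.n2 (24864, 17376) (by decide +kernel)
           (CovZ.leaf K2_ok TD_l4344 _)
           (CovZ.leaf K2_ok TD_l4345 _))
          (CovZ.n1 (24864, 17568) (by decide +kernel)
           (CovZ.leaf K2_ok TD_l4346 _)
           (CovZ.leaf K2_ok TD_l4347 _))))))))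

theorem TD_u32 : CovZ TD_M (toL (selN TD_LN 311373741114969054114857049580390680099402708753719976273568032473221628386257003564851299781715643482241)) [0, 7, 6, 1] (25344, 17664) (26112, 18432) (24576, 18432) :=
    (CovZ.n1 (25344, 18432) (by decide +kernel)
     (CovZ.n2 (25728, 18048) (by decide +kernel)
      (CovZ.subM 266998379490113760416979055628279862803512316774039477517311278634527565152817736696319277400064 (by decide +kernel)
       (CovZ.n2 (25344, 18048) (by decide +kernel)
        (CovZ.n2 (25536, 18240) (by decide +kernel)
         (CovZ.n2 (25536, 18048) (by decide +kernel)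
          (CovZ.n2 (25440, 18144) (by decide +kernel)
           (CovZ.leaf K2_ok TD_l4348 _)
           (CovZ.leaf K2_ok TD_l4349 _))
          (CovZ.leaf K2_ok TD_l4350 _))
         (CovZ.n1 (25344, 18240) (by decide +kernel)
          (CovZ.leaf K2_ok TD_l4351 _)
          (CovZ.leaf K2_ok TD_l4352 _)))
        (CovZ.n1 (25536, 17856) (by decide +kernel)
         (CovZ.leaf K2_ok TD_l4353 _)
         (CovZ.n1 (25536, 18048) (by decide +kernel)
          (CovZ.leaf K2_ok TD_l4354 _)
          (CovZ.leaf K2_ok TD_l4355 _)))))
      (CovZ.n1 (25728, 18432) (by decide +kernel)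
       (CovZ.n2 (25920, 18240) (by decide +kernel)
        (CovZ.leaf K2_ok TD_l4356 _)
        (CovZ.leaf K2_ok TD_l4357 _))
       (CovZ.subM 266998379490113760416979055628279862803512316774039477517311278634527565152817736696319277400064 (by decide +kernel)
        (CovZ.n1 (25536, 18240) (by decide +kernel)
         (CovZ.n2 (25536, 18432) (by decide +kernel)
          (CovZ.leaf K2_ok TD_l4358 _)
          (CovZ.n1 (25440, 18336) (by decide +kernel)
           (CovZ.leaf K2_ok TD_l4359 _)
           (CovZ.leaf K2_ok TD_l4360 _)))
         (CovZ.n1 (25728, 18240) (by decide +kernel)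
          (CovZ.leaf K2_ok TD_l4361 _)
          (CovZ.leaf K2_ok TD_l4362 _))))))
     (CovZ.subM 1725436586697640946858689143986106987099233025129190450105477203230720 (by decide +kernel)
      (CovZ.n1 (24960, 18048) (by decide +kernel)
       (CovZ.n2 (24960, 18432) (by decide +kernel)
        (CovZ.n2 (25152, 18240) (by decide +kernel)
         (CovZ.n2 (24960, 18240) (by decide +kernel)
          (CovZ.n2 (25056, 18336) (by decide +kernel)
           (CovZ.n2 (25056, 18240) (by decide +kernel)
            (CovZ.n2 (25008, 18288) (by decide +kernel)
             (CovZ.leaf K2_ok TD_l4363 _)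
             (CovZ.leaf K2_ok TD_l4364 _))
            (CovZ.leaf K2_ok TD_l4365 _))
           (CovZ.n1 (24960, 18336) (by decide +kernel)
            (CovZ.leaf K2_ok TD_l4366 _)
            (CovZ.leaf K2_ok TD_l4367 _)))
          (CovZ.n1 (25056, 18144) (by decide +kernel)
           (CovZ.leaf K2_ok TD_l4368 _)
           (CovZ.n1 (25056, 18240) (by decide +kernel)
            (CovZ.leaf K2_ok TD_l4369 _)
            (CovZ.leaf K2_ok TD_l4370 _))))
         (CovZ.n1 (25152, 18432) (by decide +kernel)
          (CovZ.n2 (25248, 18336) (by decide +kernel)
           (CovZ.leaf K2_ok TD_l4371 _)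
           (CovZ.n1 (25248, 18432) (by decide +kernel)
            (CovZ.leaf K2_ok TD_l4372 _)
            (CovZ.leaf K2_ok TD_l4373 _)))
          (CovZ.n1 (25056, 18336) (by decide +kernel)
           (CovZ.n2 (25056, 18432) (by decide +kernel)
            (CovZ.leaf K2_ok TD_l4374 _)
            (CovZ.n1 (25008, 18384) (by decide +kernel)
             (CovZ.leaf K2_ok TD_l4375 _)
             (CovZ.leaf K2_ok TD_l4376 _)))
           (CovZ.n1 (25152, 18336) (by decide +kernel)
            (CovZ.leaf K2_ok TD_l4377 _)
            (CovZ.leaf K2_ok TD_l4378 _)))))
        (CovZ.n1 (24768, 18240) (by decide +kernel)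
         (CovZ.n2 (24768, 18432) (by decide +kernel)
          (CovZ.n2 (24864, 18336) (by decide +kernel)
           (CovZ.n2 (24768, 18336) (by decide +kernel)
            (CovZ.badM (by decide +kernel))
            (CovZ.n1 (24816, 18288) (by decide +kernel)
             (CovZ.leaf K2_ok TD_l4382 _)
             (CovZ.n1 (24816, 18336) (by decide +kernel)
              (CovZ.leaf K2_ok TD_l4383 _)
              (CovZ.leaf K2_ok TD_l4384 _))))
           (CovZ.badM (by decide +kernel)))
          (CovZ.n1 (24672, 18336) (by decide +kernel)
           (CovZ.badM (by decide +kernel))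
           (CovZ.n1 (24768, 18336) (by decide +kernel)
            (CovZ.n2 (24720, 18288) (by decide +kernel)
             (CovZ.n2 (24720, 18336) (by decide +kernel)
              (CovZ.leaf K2_ok TD_l15247 _)
              (CovZ.badM (by decide +kernel)))
             (CovZ.n1 (24768, 18288) (by decide +kernel)
              (CovZ.badM (by decide +kernel))
              (CovZ.n1 (24744, 18312) (by decide +kernel)
               (CovZ.leaf K2_ok TD_l4394 _)
               (CovZ.badM (by decide +kernel)))))
            (CovZ.badM (by decide +kernel)))))
         (CovZ.n1 (24960, 18240) (by decide +kernel)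
          (CovZ.n2 (24864, 18144) (by decide +kernel)
           (CovZ.n2 (24864, 18240) (by decide +kernel)
            (CovZ.leaf K2_ok TD_l4396 _)
            (CovZ.n1 (24816, 18192) (by decide +kernel)
             (CovZ.n2 (24816, 18240) (by decide +kernel)
              (CovZ.leaf K2_ok TD_l4397 _)
              (CovZ.leaf K2_ok TD_l4398 _))
             (CovZ.leaf K2_ok TD_l4399 _)))
           (CovZ.n1 (24960, 18144) (by decide +kernel)
            (CovZ.n2 (24912, 18096) (by decide +kernel)
             (CovZ.leaf K2_ok TD_l4400 _)
             (CovZ.leaf K2_ok TD_l4401 _))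
            (CovZ.n1 (24912, 18192) (by decide +kernel)
             (CovZ.leaf K2_ok TD_l4402 _)
             (CovZ.leaf K2_ok TD_l4403 _))))
          (CovZ.n1 (24864, 18336) (by decide +kernel)
           (CovZ.n2 (24960, 18336) (by decide +kernel)
            (CovZ.n2 (24912, 18288) (by decide +kernel)
             (CovZ.leaf K2_ok TD_l4404 _)
             (CovZ.leaf K2_ok TD_l4405 _))
            (CovZ.n1 (24912, 18384) (by decide +kernel)
             (CovZ.n2 (24960, 18384) (by decide +kernel)
              (CovZ.leaf K2_ok TD_l4406 _)
              (CovZ.leaf K2_ok TD_l4407 _))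
             (CovZ.n1 (24912, 18336) (by decide +kernel)
              (CovZ.leaf K2_ok TD_l4408 _)
              (CovZ.leaf K2_ok TD_l4409 _))))
           (CovZ.n1 (24864, 18240) (by decide +kernel)
            (CovZ.n2 (24816, 18288) (by decide +kernel)
             (CovZ.n2 (24864, 18288) (by decide +kernel)
              (CovZ.leaf K2_ok TD_l4410 _)
              (CovZ.leaf K2_ok TD_l4411 _))
             (CovZ.n1 (24816, 18240) (by decide +kernel)
              (CovZ.leaf K2_ok TD_l4412 _)
              (CovZ.leaf K2_ok TD_l4413 _)))
            (CovZ.n1 (24912, 18288) (by decide +kernel)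
             (CovZ.leaf K2_ok TD_l4414 _)
             (CovZ.leaf K2_ok TD_l4415 _)))))))
       (CovZ.n1 (25344, 18048) (by decide +kernel)
        (CovZ.n2 (25152, 17856) (by decide +kernel)
         (CovZ.n2 (25152, 18048) (by decide +kernel)
          (CovZ.leaf K2_ok TD_l4416 _)
          (CovZ.n1 (25056, 17952) (by decide +kernel)
           (CovZ.leaf K2_ok TD_l4417 _)
           (CovZ.leaf K2_ok TD_l4418 _)))
         (CovZ.n1 (25344, 17856) (by decide +kernel)
          (CovZ.leaf K2_ok TD_l4419 _)
          (CovZ.n1 (25248, 17952) (by decide +kernel)
           (CovZ.leaf K2_ok TD_l4420 _)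
           (CovZ.leaf K2_ok TD_l4421 _))))
        (CovZ.n1 (25152, 18240) (by decide +kernel)
         (CovZ.n2 (25344, 18240) (by decide +kernel)
          (CovZ.n2 (25248, 18144) (by decide +kernel)
           (CovZ.n2 (25248, 18240) (by decide +kernel)
            (CovZ.leaf K2_ok TD_l4422 _)
            (CovZ.leaf K2_ok TD_l4423 _))
           (CovZ.leaf K2_ok TD_l4424 _))
          (CovZ.n1 (25248, 18336) (by decide +kernel)
           (CovZ.leaf K2_ok TD_l4425 _)
           (CovZ.n1 (25248, 18240) (by decide +kernel)
            (CovZ.leaf K2_ok TD_l4426 _)
            (CovZ.leaf K2_ok TD_l4427 _))))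
         (CovZ.n1 (25152, 18048) (by decide +kernel)
          (CovZ.n2 (25056, 18144) (by decide +kernel)
           (CovZ.n2 (25152, 18144) (by decide +kernel)
            (CovZ.leaf K2_ok TD_l4428 _)
            (CovZ.leaf K2_ok TD_l4429 _))
           (CovZ.n1 (25056, 18048) (by decide +kernel)
            (CovZ.leaf K2_ok TD_l4430 _)
            (CovZ.leaf K2_ok TD_l4431 _)))
          (CovZ.n1 (25248, 18144) (by decide +kernel)
           (CovZ.leaf K2_ok TD_l4432 _)
           (CovZ.leaf K2_ok TD_l4433 _))))))))

theorem TD_u33 : CovZ TD_M (toL (selN TD_LN 311373741123312753474408771827277560485055946302761156523069997539187009978682984777111209585583671361701)) [0, 7, 6, 1] (26112, 19968) (25344, 19200) (26112, 18432) :=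
    (CovZ.n2 (26112, 19200) (by decide +kernel)
     (CovZ.n2 (25728, 18816) (by decide +kernel)
      (CovZ.n2 (25728, 19200) (by decide +kernel)
       (CovZ.n2 (25920, 19008) (by decide +kernel)
        (CovZ.leaf K2_ok TD_l4434 _)
        (CovZ.n1 (25920, 19200) (by decide +kernel)
         (CovZ.leaf K2_ok TD_l4435 _)
         (CovZ.n1 (25824, 19104) (by decide +kernel)
          (CovZ.leaf K2_ok TD_l4436 _)
          (CovZ.leaf K2_ok TD_l4437 _))))
       (CovZ.subM 266998379490113760416979053902843276105871369915350511948054915521750322110221097905688154357760 (by decide +kernel)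
        (CovZ.n1 (25536, 19008) (by decide +kernel)
         (CovZ.n2 (25536, 19200) (by decide +kernel)
          (CovZ.n2 (25632, 19104) (by decide +kernel)
           (CovZ.leaf K2_ok TD_l4438 _)
           (CovZ.leaf K2_ok TD_l4439 _))
          (CovZ.subM 618970019642690137449693184 (by decide +kernel)
           (CovZ.n1 (25440, 19104) (by decide +kernel)
            (CovZ.n2 (25440, 19200) (by decide +kernel)
             (CovZ.leaf K2_ok TD_l4440 _)
             (CovZ.n1 (25392, 19152) (by decide +kernel)
              (CovZ.leaf K2_ok TD_l4441 _)
              (CovZ.leaf K2_ok TD_l4442 _)))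
            (CovZ.n1 (25536, 19104) (by decide +kernel)
             (CovZ.leaf K2_ok TD_l4443 _)
             (CovZ.leaf K2_ok TD_l4444 _)))))
         (CovZ.n1 (25728, 19008) (by decide +kernel)
          (CovZ.n2 (25632, 18912) (by decide +kernel)
           (CovZ.leaf K2_ok TD_l4445 _)
           (CovZ.leaf K2_ok TD_l4446 _))
          (CovZ.n1 (25632, 19104) (by decide +kernel)
           (CovZ.leaf K2_ok TD_l4447 _)
           (CovZ.leaf K2_ok TD_l4448 _))))))
      (CovZ.n1 (26112, 18816) (by decide +kernel)
       (CovZ.n2 (25920, 18624) (by decide +kernel)
        (CovZ.n2 (25920, 18816) (by decide +kernel)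
         (CovZ.leaf K2_ok TD_l4449 _)
         (CovZ.n1 (25824, 18720) (by decide +kernel)
          (CovZ.leaf K2_ok TD_l4450 _)
          (CovZ.leaf K2_ok TD_l4451 _)))
        (CovZ.n1 (26112, 18624) (by decide +kernel)
         (CovZ.leaf K2_ok TD_l4452 _)
         (CovZ.leaf K2_ok TD_l4453 _)))
       (CovZ.n1 (25920, 19008) (by decide +kernel)
        (CovZ.n2 (26112, 19008) (by decide +kernel)
         (CovZ.leaf K2_ok TD_l4454 _)
         (CovZ.leaf K2_ok TD_l4455 _))
        (CovZ.n1 (25920, 18816) (by decide +kernel)
         (CovZ.n2 (25824, 18912) (by decide +kernel)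
          (CovZ.leaf K2_ok TD_l4456 _)
          (CovZ.leaf K2_ok TD_l4457 _))
         (CovZ.leaf K2_ok TD_l4458 _)))))
     (CovZ.n1 (25728, 19584) (by decide +kernel)
      (CovZ.n2 (26112, 19584) (by decide +kernel)
       (CovZ.n2 (25920, 19392) (by decide +kernel)
        (CovZ.n2 (25920, 19584) (by decide +kernel)
         (CovZ.leaf K2_ok TD_l4459 _)
         (CovZ.n1 (25824, 19488) (by decide +kernel)
          (CovZ.leaf K2_ok TD_l4460 _)
          (CovZ.leaf K2_ok TD_l4461 _)))
        (CovZ.n1 (26112, 19392) (by decide +kernel)
         (CovZ.leaf K2_ok TD_l4462 _)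
         (CovZ.n1 (26016, 19488) (by decide +kernel)
          (CovZ.leaf K2_ok TD_l4463 _)
          (CovZ.leaf K2_ok TD_l4464 _))))
       (CovZ.n1 (25920, 19776) (by decide +kernel)
        (CovZ.n2 (26112, 19776) (by decide +kernel)
         (CovZ.n2 (26016, 19680) (by decide +kernel)
          (CovZ.leaf K2_ok TD_l4465 _)
          (CovZ.leaf K2_ok TD_l4466 _))
         (CovZ.n1 (26016, 19872) (by decide +kernel)
          (CovZ.leaf K2_ok TD_l4467 _)
          (CovZ.leaf K2_ok TD_l4468 _)))
        (CovZ.n1 (25920, 19584) (by decide +kernel)
         (CovZ.n2 (25824, 19680) (by decide +kernel)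
          (CovZ.leaf K2_ok TD_l4469 _)
          (CovZ.leaf K2_ok TD_l4470 _))
         (CovZ.leaf K2_ok TD_l4471 _))))
      (CovZ.n1 (25728, 19200) (by decide +kernel)
       (CovZ.subM 266998379490599427640035486170573141582577249642011113646928914680875653985480083989571160916000 (by decide +kernel)
        (CovZ.n2 (25536, 19392) (by decide +kernel)
         (CovZ.n2 (25728, 19392) (by decide +kernel)
          (CovZ.n2 (25632, 19296) (by decide +kernel)
           (CovZ.n2 (25632, 19392) (by decide +kernel)
            (CovZ.leaf K2_ok TD_l4472 _)
            (CovZ.leaf K2_ok TD_l4473 _))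
           (CovZ.n1 (25728, 19296) (by decide +kernel)
            (CovZ.leaf K2_ok TD_l4474 _)
            (CovZ.leaf K2_ok TD_l4475 _)))
          (CovZ.n1 (25632, 19488) (by decide +kernel)
           (CovZ.n2 (25728, 19488) (by decide +kernel)
            (CovZ.leaf K2_ok TD_l4476 _)
            (CovZ.leaf K2_ok TD_l4477 _))
           (CovZ.n1 (25632, 19392) (by decide +kernel)
            (CovZ.leaf K2_ok TD_l4478 _)
            (CovZ.leaf K2_ok TD_l4479 _))))
         (CovZ.n1 (25536, 19200) (by decide +kernel)
          (CovZ.subM 618970019642690137449693184 (by decide +kernel)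
           (CovZ.n2 (25440, 19296) (by decide +kernel)
            (CovZ.n2 (25536, 19296) (by decide +kernel)
             (CovZ.leaf K2_ok TD_l4480 _)
             (CovZ.n1 (25488, 19344) (by decide +kernel)
              (CovZ.leaf K2_ok TD_l4481 _)
              (CovZ.leaf K2_ok TD_l4482 _)))
            (CovZ.n1 (25440, 19200) (by decide +kernel)
             (CovZ.n2 (25392, 19248) (by decide +kernel)
              (CovZ.leaf K2_ok TD_l4483 _)
              (CovZ.leaf K2_ok TD_l4484 _))
             (CovZ.leaf K2_ok TD_l4485 _))))
          (CovZ.n1 (25632, 19296) (by decide +kernel)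
           (CovZ.n2 (25632, 19200) (by decide +kernel)
            (CovZ.leaf K2_ok TD_l4486 _)
            (CovZ.leaf K2_ok TD_l4487 _))
           (CovZ.leaf K2_ok TD_l4488 _)))))
       (CovZ.n1 (25920, 19392) (by decide +kernel)
        (CovZ.n2 (25920, 19200) (by decide +kernel)
         (CovZ.n2 (25824, 19296) (by decide +kernel)
          (CovZ.leaf K2_ok TD_l4489 _)
          (CovZ.leaf K2_ok TD_l4490 _))
         (CovZ.leaf K2_ok TD_l4491 _))
        (CovZ.n1 (25728, 19392) (by decide +kernel)
         (CovZ.n2 (25824, 19488) (by decide +kernel)
          (CovZ.leaf K2_ok TD_l4492 _)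
          (CovZ.leaf K2_ok TD_l4493 _))
         (CovZ.leaf K2_ok TD_l4494 _))))))

theorem TD_u34 : CovZ TD_M (toL (selN TD_LN 311373741123312753474408771827277560485055946302761156523069997539187009978682984777111209585583671361701)) [0, 7, 6, 1] (25344, 19200) (24576, 18432) (26112, 18432) :=
    (CovZ.n1 (25344, 18432) (by decide +kernel)
     (CovZ.subM 1725436586697640946858689143986106987099233025129190450105477136121856 (by decide +kernel)
      (CovZ.n2 (24960, 18816) (by decide +kernel)
       (CovZ.n2 (25344, 18816) (by decide +kernel)
        (CovZ.n2 (25152, 18624) (by decide +kernel)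
         (CovZ.n2 (25152, 18816) (by decide +kernel)
          (CovZ.n2 (25248, 18720) (by decide +kernel)
           (CovZ.badM (by decide +kernel))
           (CovZ.n1 (25248, 18816) (by decide +kernel)
            (CovZ.leaf K2_ok TD_l4497 _)
            (CovZ.badM (by decide +kernel))))
          (CovZ.badM (by decide +kernel)))
         (CovZ.n1 (25344, 18624) (by decide +kernel)
          (CovZ.n2 (25248, 18528) (by decide +kernel)
           (CovZ.n2 (25248, 18624) (by decide +kernel)
            (CovZ.leaf K2_ok TD_l4512 _)
            (CovZ.leaf K2_ok TD_l4513 _))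
           (CovZ.n1 (25344, 18528) (by decide +kernel)
            (CovZ.leaf K2_ok TD_l4514 _)
            (CovZ.leaf K2_ok TD_l4515 _)))
          (CovZ.n1 (25248, 18720) (by decide +kernel)
           (CovZ.n2 (25344, 18720) (by decide +kernel)
            (CovZ.leaf K2_ok TD_l4516 _)
            (CovZ.leaf K2_ok TD_l4517 _))
           (CovZ.n1 (25248, 18624) (by decide +kernel)
            (CovZ.n2 (25200, 18672) (by decide +kernel)
             (CovZ.leaf K2_ok TD_l4518 _)
             (CovZ.leaf K2_ok TD_l4519 _))
            (CovZ.leaf K2_ok TD_l4520 _)))))
        (CovZ.n1 (25152, 19008) (by decide +kernel)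
         (CovZ.n2 (25344, 19008) (by decide +kernel)
          (CovZ.n2 (25248, 18912) (by decide +kernel)
           (CovZ.n2 (25248, 19008) (by decide +kernel)
            (CovZ.leaf K2_ok TD_l4521 _)
            (CovZ.badM (by decide +kernel)))
           (CovZ.n1 (25344, 18912) (by decide +kernel)
            (CovZ.n2 (25296, 18864) (by decide +kernel)
             (CovZ.leaf K2_ok TD_l4523 _)
             (CovZ.leaf K2_ok TD_l4524 _))
            (CovZ.n1 (25296, 18960) (by decide +kernel)
             (CovZ.leaf K2_ok TD_l4525 _)
             (CovZ.leaf K2_ok TD_l4526 _))))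
          (CovZ.n1 (25248, 19104) (by decide +kernel)
           (CovZ.n2 (25344, 19104) (by decide +kernel)
            (CovZ.n2 (25296, 19056) (by decide +kernel)
             (CovZ.leaf K2_ok TD_l4527 _)
             (CovZ.leaf K2_ok TD_l4528 _))
            (CovZ.n1 (25296, 19152) (by decide +kernel)
             (CovZ.leaf K2_ok TD_l4529 _)
             (CovZ.leaf K2_ok TD_l4530 _)))
           (CovZ.n1 (25248, 19008) (by decide +kernel)
            (CovZ.badM (by decide +kernel))
            (CovZ.n1 (25296, 19056) (by decide +kernel)
             (CovZ.leaf K2_ok TD_l4531 _)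
             (CovZ.badM (by decide +kernel))))))
         (CovZ.n1 (25152, 18816) (by decide +kernel)
          (CovZ.badM (by decide +kernel))
          (CovZ.n1 (25248, 18912) (by decide +kernel)
           (CovZ.n2 (25248, 18816) (by decide +kernel)
            (CovZ.badM (by decide +kernel))
            (CovZ.leaf K2_ok TD_l4543 _))
           (CovZ.badM (by decide +kernel))))))
       (CovZ.n1 (24960, 18432) (by decide +kernel)
        (CovZ.badM (by decide +kernel))
        (CovZ.n1 (25152, 18624) (by decide +kernel)
         (CovZ.n2 (25152, 18432) (by decide +kernel)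
          (CovZ.n2 (25056, 18528) (by decide +kernel)
           (CovZ.n2 (25152, 18528) (by decide +kernel)
            (CovZ.n2 (25104, 18480) (by decide +kernel)
             (CovZ.leaf K2_ok TD_l4578 _)
             (CovZ.leaf K2_ok TD_l4579 _))
            (CovZ.n1 (25104, 18576) (by decide +kernel)
             (CovZ.leaf K2_ok TD_l4580 _)
             (CovZ.leaf K2_ok TD_l4581 _)))
           (CovZ.n1 (25056, 18432) (by decide +kernel)
            (CovZ.n2 (25008, 18480) (by decide +kernel)
             (CovZ.leaf K2_ok TD_l4582 _)
             (CovZ.leaf K2_ok TD_l4583 _))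
            (CovZ.leaf K2_ok TD_l4584 _)))
          (CovZ.n1 (25248, 18528) (by decide +kernel)
           (CovZ.n2 (25248, 18432) (by decide +kernel)
            (CovZ.leaf K2_ok TD_l4585 _)
            (CovZ.leaf K2_ok TD_l4586 _))
           (CovZ.leaf K2_ok TD_l4587 _)))
         (CovZ.badM (by decide +kernel))))))
     (CovZ.n1 (25728, 18816) (by decide +kernel)
      (CovZ.n2 (25728, 18432) (by decide +kernel)
       (CovZ.subM 266998379490113760416979055628279862803512316774039477517311278634527565152817736696319210291200 (by decide +kernel)
        (CovZ.n2 (25536, 18624) (by decide +kernel)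
         (CovZ.n2 (25728, 18624) (by decide +kernel)
          (CovZ.n2 (25632, 18528) (by decide +kernel)
           (CovZ.leaf K2_ok TD_l4613 _)
           (CovZ.leaf K2_ok TD_l4614 _))
          (CovZ.n1 (25632, 18720) (by decide +kernel)
           (CovZ.leaf K2_ok TD_l4615 _)
           (CovZ.leaf K2_ok TD_l4616 _)))
         (CovZ.n1 (25536, 18432) (by decide +kernel)
          (CovZ.n2 (25440, 18528) (by decide +kernel)
           (CovZ.leaf K2_ok TD_l4617 _)
           (CovZ.leaf K2_ok TD_l4618 _))
          (CovZ.leaf K2_ok TD_l4619 _))))
       (CovZ.n1 (25920, 18624) (by decide +kernel)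
        (CovZ.n2 (25920, 18432) (by decide +kernel)
         (CovZ.leaf K2_ok TD_l4620 _)
         (CovZ.leaf K2_ok TD_l4621 _))
        (CovZ.leaf K2_ok TD_l4622 _)))
      (CovZ.subM 266998379490113760416979055628279862803512316774039477517311278634527565152817736696319210291200 (by decide +kernel)
       (CovZ.n1 (25344, 18816) (by decide +kernel)
        (CovZ.n2 (25536, 19008) (by decide +kernel)
         (CovZ.n2 (25536, 18816) (by decide +kernel)
          (CovZ.subM 178405961588244985751255765823877029497536512 (by decide +kernel)
           (CovZ.n2 (25440, 18912) (by decide +kernel)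
            (CovZ.n2 (25536, 18912) (by decide +kernel)
             (CovZ.leaf K2_ok TD_l4623 _)
             (CovZ.leaf K2_ok TD_l4624 _))
            (CovZ.n1 (25440, 18816) (by decide +kernel)
             (CovZ.leaf K2_ok TD_l4625 _)
             (CovZ.leaf K2_ok TD_l4626 _))))
          (CovZ.n1 (25632, 18912) (by decide +kernel)
           (CovZ.leaf K2_ok TD_l4627 _)
           (CovZ.leaf K2_ok TD_l4628 _)))
         (CovZ.subM 618970019642690137449693184 (by decide +kernel)
          (CovZ.n1 (25344, 19008) (by decide +kernel)
           (CovZ.n2 (25440, 19104) (by decide +kernel)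
            (CovZ.n2 (25440, 19008) (by decide +kernel)
             (CovZ.leaf K2_ok TD_l4629 _)
             (CovZ.leaf K2_ok TD_l4630 _))
            (CovZ.leaf K2_ok TD_l4631 _))
           (CovZ.n1 (25440, 18912) (by decide +kernel)
            (CovZ.leaf K2_ok TD_l4632 _)
            (CovZ.n1 (25440, 19008) (by decide +kernel)
             (CovZ.leaf K2_ok TD_l4633 _)
             (CovZ.leaf K2_ok TD_l4634 _))))))
        (CovZ.n1 (25536, 18624) (by decide +kernel)
         (CovZ.n2 (25344, 18624) (by decide +kernel)
          (CovZ.n2 (25440, 18720) (by decide +kernel)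
           (CovZ.leaf K2_ok TD_l4635 _)
           (CovZ.leaf K2_ok TD_l4636 _))
          (CovZ.leaf K2_ok TD_l4637 _))
         (CovZ.n1 (25536, 18816) (by decide +kernel)
          (CovZ.leaf K2_ok TD_l4638 _)
          (CovZ.n1 (25440, 18720) (by decide +kernel)
           (CovZ.leaf K2_ok TD_l4639 _)
           (CovZ.leaf K2_ok TD_l4640 _))))))))

theorem TD_u35 : CovZ TD_M (toL (selN TD_LN 311374014529653351350899318390055948462711277917973300062727078885140505852851058921533001555507868221605)) [0, 7, 6, 1] (26112, 19968) (25344, 19968) (25344, 19200) :=
    (CovZ.n2 (25728, 19584) (by decide +kernel)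
      (CovZ.subM 275342078849665482663865050865385373629421987262893599248646441115048282778029956712331212898336 (by decide +kernel)
       (CovZ.n2 (25344, 19584) (by decide +kernel)
        (CovZ.n2 (25536, 19776) (by decide +kernel)
         (CovZ.n2 (25536, 19584) (by decide +kernel)
          (CovZ.subM 8343699359551722246885996962120848356876388600751593606707465254329733105386659411223717756960 (by decide +kernel)
           (CovZ.n2 (25440, 19680) (by decide +kernel)
            (CovZ.n2 (25536, 19680) (by decide +kernel)
             (CovZ.n2 (25488, 19632) (by decide +kernel)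
              (CovZ.leaf K2_ok TD_l4643 _)
              (CovZ.leaf K2_ok TD_l4644 _))
             (CovZ.n1 (25488, 19728) (by decide +kernel)
              (CovZ.leaf K2_ok TD_l4645 _)
              (CovZ.n1 (25488, 19680) (by decide +kernel)
               (CovZ.leaf K2_ok TD_l4646 _)
               (CovZ.leaf K2_ok TD_l4647 _))))
            (CovZ.subM 485667223056432267729865476705879726660601709763034880313572072454368764187530903552 (by decide +kernel)
             (CovZ.n1 (25440, 19584) (by decide +kernel)
              (CovZ.n2 (25392, 19632) (by decide +kernel)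
               (CovZ.n2 (25440, 19632) (by decide +kernel)
                (CovZ.leaf K2_ok TD_l4648 _)
                (CovZ.leaf K2_ok TD_l4649 _))
               (CovZ.n1 (25392, 19584) (by decide +kernel)
                (CovZ.leaf K2_ok TD_l4650 _)
                (CovZ.leaf K2_ok TD_l4651 _)))
              (CovZ.n1 (25488, 19632) (by decide +kernel)
               (CovZ.n2 (25488, 19584) (by decide +kernel)
                (CovZ.leaf K2_ok TD_l4652 _)
                (CovZ.leaf K2_ok TD_l4653 _))
               (CovZ.leaf K2_ok TD_l4654 _))))))
          (CovZ.n1 (25632, 19680) (by decide +kernel)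
           (CovZ.n2 (25632, 19584) (by decide +kernel)
            (CovZ.n2 (25584, 19632) (by decide +kernel)
             (CovZ.leaf K2_ok TD_l4655 _)
             (CovZ.leaf K2_ok TD_l4656 _))
            (CovZ.leaf K2_ok TD_l4657 _))
           (CovZ.leaf K2_ok TD_l4658 _)))
         (CovZ.n1 (25344, 19776) (by decide +kernel)
          (CovZ.n2 (25440, 19872) (by decide +kernel)
           (CovZ.n2 (25440, 19776) (by decide +kernel)
            (CovZ.n2 (25392, 19824) (by decide +kernel)
             (CovZ.leaf K2_ok TD_l4659 _)
             (CovZ.n1 (25392, 19776) (by decide +kernel)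
              (CovZ.leaf K2_ok TD_l4660 _)
              (CovZ.leaf K2_ok TD_l4661 _)))
            (CovZ.n1 (25488, 19824) (by decide +kernel)
             (CovZ.leaf K2_ok TD_l4662 _)
             (CovZ.leaf K2_ok TD_l4663 _)))
           (CovZ.n1 (25344, 19872) (by decide +kernel)
            (CovZ.leaf K2_ok TD_l4664 _)
            (CovZ.leaf K2_ok TD_l4665 _)))
          (CovZ.n1 (25440, 19680) (by decide +kernel)
           (CovZ.subM 8343699359551722246885996962542097523550617347543265717442149559471333150750422673839622340608 (by decide +kernel)
            (CovZ.n2 (25344, 19680) (by decide +kernel)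
             (CovZ.n2 (25392, 19728) (by decide +kernel)
              (CovZ.n2 (25392, 19680) (by decide +kernel)
               (CovZ.n2 (25368, 19704) (by decide +kernel)
                (CovZ.leaf K2_ok TD_l4666 _)
                (CovZ.leaf K2_ok TD_l4667 _))
               (CovZ.leaf K2_ok TD_l4668 _))
              (CovZ.leaf K2_ok TD_l4669 _))
             (CovZ.n1 (25392, 19632) (by decide +kernel)
              (CovZ.leaf K2_ok TD_l4670 _)
              (CovZ.n1 (25392, 19680) (by decide +kernel)
               (CovZ.leaf K2_ok TD_l4671 _)
               (CovZ.leaf K2_ok TD_l4672 _)))))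
           (CovZ.n1 (25440, 19776) (by decide +kernel)
            (CovZ.leaf K2_ok TD_l4673 _)
            (CovZ.n1 (25392, 19728) (by decide +kernel)
             (CovZ.n2 (25392, 19776) (by decide +kernel)
              (CovZ.leaf K2_ok TD_l4674 _)
              (CovZ.leaf K2_ok TD_l4675 _))
             (CovZ.n1 (25440, 19728) (by decide +kernel)
              (CovZ.leaf K2_ok TD_l4676 _)
              (CovZ.leaf K2_ok TD_l4677 _)))))))
        (CovZ.n1 (25536, 19392) (by decide +kernel)
         (CovZ.subM 618970019642690137449693184 (by decide +kernel)
          (CovZ.n2 (25344, 19392) (by decide +kernel)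
           (CovZ.n2 (25440, 19488) (by decide +kernel)
            (CovZ.n2 (25440, 19392) (by decide +kernel)
             (CovZ.n2 (25392, 19440) (by decide +kernel)
              (CovZ.leaf K2_ok TD_l4678 _)
              (CovZ.leaf K2_ok TD_l4679 _))
             (CovZ.leaf K2_ok TD_l4680 _))
            (CovZ.n1 (25344, 19488) (by decide +kernel)
             (CovZ.n2 (25392, 19536) (by decide +kernel)
              (CovZ.n2 (25392, 19488) (by decide +kernel)
               (CovZ.leaf K2_ok TD_l4681 _)
               (CovZ.leaf K2_ok TD_l4682 _))
              (CovZ.leaf K2_ok TD_l4683 _))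
             (CovZ.n1 (25392, 19440) (by decide +kernel)
              (CovZ.leaf K2_ok TD_l4684 _)
              (CovZ.leaf K2_ok TD_l4685 _))))
           (CovZ.n1 (25440, 19296) (by decide +kernel)
            (CovZ.n2 (25344, 19296) (by decide +kernel)
             (CovZ.n2 (25392, 19344) (by decide +kernel)
              (CovZ.leaf K2_ok TD_l4686 _)
              (CovZ.leaf K2_ok TD_l4687 _))
             (CovZ.leaf K2_ok TD_l4688 _))
            (CovZ.n1 (25440, 19392) (by decide +kernel)
             (CovZ.leaf K2_ok TD_l4689 _)
             (CovZ.n1 (25392, 19344) (by decide +kernel)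
              (CovZ.leaf K2_ok TD_l4690 _)
              (CovZ.leaf K2_ok TD_l4691 _))))))
         (CovZ.n1 (25536, 19584) (by decide +kernel)
          (CovZ.n2 (25632, 19488) (by decide +kernel)
           (CovZ.leaf K2_ok TD_l4692 _)
           (CovZ.n1 (25632, 19584) (by decide +kernel)
            (CovZ.leaf K2_ok TD_l4693 _)
            (CovZ.leaf K2_ok TD_l4694 _)))
          (CovZ.subM 485667223056432267729865476705879726660601709763034880313572072454368764187530903552 (by decide +kernel)
           (CovZ.n1 (25440, 19488) (by decide +kernel)
            (CovZ.n2 (25440, 19584) (by decide +kernel)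
             (CovZ.leaf K2_ok TD_l4695 _)
             (CovZ.subM 618970019642690137449693184 (by decide +kernel)
              (CovZ.n1 (25392, 19536) (by decide +kernel)
               (CovZ.n2 (25392, 19584) (by decide +kernel)
                (CovZ.leaf K2_ok TD_l4696 _)
                (CovZ.leaf K2_ok TD_l4697 _))
               (CovZ.n1 (25440, 19536) (by decide +kernel)
                (CovZ.leaf K2_ok TD_l4698 _)
                (CovZ.leaf K2_ok TD_l4699 _)))))
            (CovZ.n1 (25536, 19488) (by decide +kernel)
             (CovZ.n2 (25488, 19440) (by decide +kernel)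
              (CovZ.leaf K2_ok TD_l4700 _)
              (CovZ.leaf K2_ok TD_l4701 _))
             (CovZ.n1 (25488, 19536) (by decide +kernel)
              (CovZ.leaf K2_ok TD_l4702 _)
              (CovZ.leaf K2_ok TD_l4703 _)))))))))
      (CovZ.n1 (25728, 19968) (by decide +kernel)
       (CovZ.n2 (25920, 19776) (by decide +kernel)
        (CovZ.subM 286687327274101017863183499127849359162320532656008418756821778149024364291286911145742842267189511340064 (by decide +kernel)
         (CovZ.n2 (25728, 19776) (by decide +kernel)
          (CovZ.n2 (25824, 19872) (by decide +kernel)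
           (CovZ.leaf K2_ok TD_l4704 _)
           (CovZ.leaf K2_ok TD_l4705 _))
          (CovZ.n1 (25824, 19680) (by decide +kernel)
           (CovZ.leaf K2_ok TD_l4706 _)
           (CovZ.leaf K2_ok TD_l4707 _))))
        (CovZ.n1 (25920, 19968) (by decide +kernel)
         (CovZ.leaf K2_ok TD_l4708 _)
         (CovZ.n1 (25824, 19872) (by decide +kernel)
          (CovZ.leaf K2_ok TD_l4709 _)
          (CovZ.leaf K2_ok TD_l4710 _))))
       (CovZ.subM 275342078849665482663865934288917762821586778911643970707904354856996720587509017515431859208224 (by decide +kernel)
        (CovZ.n1 (25536, 19776) (by decide +kernel)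
         (CovZ.n2 (25536, 19968) (by decide +kernel)
          (CovZ.n2 (25632, 19872) (by decide +kernel)
           (CovZ.leaf K2_ok TD_l4711 _)
           (CovZ.leaf K2_ok TD_l4712 _))
          (CovZ.n1 (25440, 19872) (by decide +kernel)
           (CovZ.n2 (25440, 19968) (by decide +kernel)
            (CovZ.leaf K2_ok TD_l4713 _)
            (CovZ.leaf K2_ok TD_l4714 _))
           (CovZ.n1 (25536, 19872) (by decide +kernel)
            (CovZ.n2 (25488, 19824) (by decide +kernel)
             (CovZ.leaf K2_ok TD_l4715 _)
             (CovZ.leaf K2_ok TD_l4716 _))
            (CovZ.leaf K2_ok TD_l4717 _))))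
         (CovZ.n1 (25728, 19776) (by decide +kernel)
          (CovZ.n2 (25632, 19680) (by decide +kernel)
           (CovZ.n2 (25632, 19776) (by decide +kernel)
            (CovZ.leaf K2_ok TD_l4718 _)
            (CovZ.leaf K2_ok TD_l4719 _))
           (CovZ.n1 (25728, 19680) (by decide +kernel)
            (CovZ.leaf K2_ok TD_l4720 _)
            (CovZ.leaf K2_ok TD_l4721 _)))
          (CovZ.n1 (25632, 19872) (by decide +kernel)
           (CovZ.n2 (25728, 19872) (by decide +kernel)
            (CovZ.leaf K2_ok TD_l4722 _)
            (CovZ.leaf K2_ok TD_l4723 _))
           (CovZ.n1 (25632, 19776) (by decide +kernel)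
            (CovZ.leaf K2_ok TD_l4724 _)
            (CovZ.leaf K2_ok TD_l4725 _))))))))

theorem TD_u36 : CovZ TD_M (toL (selN TD_LN 311374014529653351350899318390055948462711277917973300062727078885140505852851058921533001555507868221605)) [0, 7, 6, 1] (25344, 19968) (24576, 19968) (25344, 19200) :=
    (CovZ.subM 273414684297236042268809664386665212766669729478999097818938767950823878642676393091076134287720480 (by decide +kernel)
      (CovZ.n1 (24960, 19584) (by decide +kernel)
       (CovZ.n2 (24960, 19968) (by decide +kernel)
        (CovZ.n2 (25152, 19776) (by decide +kernel)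
         (CovZ.subM 1099511627776 (by decide +kernel)
          (CovZ.n2 (24960, 19776) (by decide +kernel)
           (CovZ.n2 (25056, 19872) (by decide +kernel)
            (CovZ.n2 (25056, 19776) (by decide +kernel)
             (CovZ.badM (by decide +kernel))
             (CovZ.n1 (25104, 19824) (by decide +kernel)
              (CovZ.badM (by decide +kernel))
              (CovZ.badM (by decide +kernel))))
            (CovZ.badM (by decide +kernel)))
           (CovZ.n1 (25056, 19680) (by decide +kernel)
            (CovZ.badM (by decide +kernel))
            (CovZ.n1 (25056, 19776) (by decide +kernel)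
             (CovZ.badM (by decide +kernel))
             (CovZ.badM (by decide +kernel))))))
         (CovZ.n1 (25152, 19968) (by decide +kernel)
          (CovZ.n2 (25248, 19872) (by decide +kernel)
           (CovZ.subM 485667223056432267729865476705879726660601709763034880312953102434726074050089582592 (by decide +kernel)
            (CovZ.n2 (25152, 19872) (by decide +kernel)
             (CovZ.n2 (25200, 19920) (by decide +kernel)
              (CovZ.n2 (25200, 19872) (by decide +kernel)
               (CovZ.n2 (25176, 19896) (by decide +kernel)
                (CovZ.leaf K2_ok TD_l15249 _)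
                (CovZ.badM (by decide +kernel)))
               (CovZ.leaf K2_ok TD_l4726 _))
              (CovZ.n1 (25152, 19920) (by decide +kernel)
               (CovZ.leaf K2_ok TD_l15250 _)
               (CovZ.leaf K2_ok TD_l15251 _)))
             (CovZ.n1 (25200, 19824) (by decide +kernel)
              (CovZ.badM (by decide +kernel))
              (CovZ.n1 (25200, 19872) (by decide +kernel)
               (CovZ.leaf K2_ok TD_l4727 _)
               (CovZ.badM (by decide +kernel))))))
           (CovZ.n1 (25248, 19968) (by decide +kernel)
            (CovZ.leaf K2_ok TD_l4728 _)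
            (CovZ.n1 (25200, 19920) (by decide +kernel)
             (CovZ.leaf K2_ok TD_l4729 _)
             (CovZ.leaf K2_ok TD_l4730 _))))
          (CovZ.subM 485667223056432267729865476705879726660601709763034880312953102434726072950569566208 (by decide +kernel)
           (CovZ.n1 (25056, 19872) (by decide +kernel)
            (CovZ.n2 (25056, 19968) (by decide +kernel)
             (CovZ.n2 (25104, 19920) (by decide +kernel)
              (CovZ.badM (by decide +kernel))
              (CovZ.n1 (25104, 19968) (by decide +kernel)
               (CovZ.leaf K2_ok TD_l15252 _)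
               (CovZ.badM (by decide +kernel))))
             (CovZ.badM (by decide +kernel)))
            (CovZ.n1 (25152, 19872) (by decide +kernel)
             (CovZ.n2 (25104, 19824) (by decide +kernel)
              (CovZ.n2 (25104, 19872) (by decide +kernel)
               (CovZ.badM (by decide +kernel))
               (CovZ.badM (by decide +kernel)))
              (CovZ.badM (by decide +kernel)))
             (CovZ.n1 (25104, 19920) (by decide +kernel)
              (CovZ.n2 (25152, 19920) (by decide +kernel)
               (CovZ.badM (by decide +kernel))
               (CovZ.n1 (25128, 19944) (by decide +kernel)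
                (CovZ.leaf K2_ok TD_l15253 _)
                (CovZ.badM (by decide +kernel))))
              (CovZ.n1 (25104, 19872) (by decide +kernel)
               (CovZ.badM (by decide +kernel))
               (CovZ.badM (by decide +kernel)))))))))
        (CovZ.subM 273406340597876490546562778389702670669146178861651554553221325801244124899921990402939147127881728 (by decide +kernel)
         (CovZ.n1 (24768, 19776) (by decide +kernel)
          (CovZ.n2 (24768, 19968) (by decide +kernel)
           (CovZ.n2 (24864, 19872) (by decide +kernel)
            (CovZ.badM (by decide +kernel))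
            (CovZ.n1 (24864, 19968) (by decide +kernel)
             (CovZ.badM (by decide +kernel))
             (CovZ.badM (by decide +kernel))))
           (CovZ.badM (by decide +kernel)))
          (CovZ.badM (by decide +kernel)))))
       (CovZ.n1 (25344, 19584) (by decide +kernel)
        (CovZ.subM 618970019642690137449562112 (by decide +kernel)
         (CovZ.n2 (25152, 19392) (by decide +kernel)
          (CovZ.n2 (25152, 19584) (by decide +kernel)
           (CovZ.n2 (25248, 19488) (by decide +kernel)
            (CovZ.badM (by decide +kernel))
            (CovZ.n1 (25248, 19584) (by decide +kernel)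
             (CovZ.n2 (25296, 19536) (by decide +kernel)
              (CovZ.badM (by decide +kernel))
              (CovZ.n1 (25296, 19584) (by decide +kernel)
               (CovZ.leaf K2_ok TD_l4731 _)
               (CovZ.badM (by decide +kernel))))
             (CovZ.badM (by decide +kernel))))
           (CovZ.badM (by decide +kernel)))
          (CovZ.n1 (25344, 19392) (by decide +kernel)
           (CovZ.n2 (25248, 19296) (by decide +kernel)
            (CovZ.n2 (25248, 19392) (by decide +kernel)
             (CovZ.n2 (25296, 19344) (by decide +kernel)
              (CovZ.badM (by decide +kernel))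
              (CovZ.n1 (25296, 19392) (by decide +kernel)
               (CovZ.leaf K2_ok TD_l4732 _)
               (CovZ.badM (by decide +kernel))))
             (CovZ.badM (by decide +kernel)))
            (CovZ.n1 (25344, 19296) (by decide +kernel)
             (CovZ.n2 (25296, 19248) (by decide +kernel)
              (CovZ.n2 (25296, 19296) (by decide +kernel)
               (CovZ.leaf K2_ok TD_l4733 _)
               (CovZ.badM (by decide +kernel)))
              (CovZ.leaf K2_ok TD_l4734 _))
             (CovZ.n1 (25296, 19344) (by decide +kernel)
              (CovZ.n2 (25344, 19344) (by decide +kernel)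
               (CovZ.leaf K2_ok TD_l4735 _)
               (CovZ.leaf K2_ok TD_l4736 _))
              (CovZ.n1 (25296, 19296) (by decide +kernel)
               (CovZ.badM (by decide +kernel))
               (CovZ.leaf K2_ok TD_l4737 _)))))
           (CovZ.n1 (25248, 19488) (by decide +kernel)
            (CovZ.n2 (25344, 19488) (by decide +kernel)
             (CovZ.n2 (25296, 19440) (by decide +kernel)
              (CovZ.n2 (25296, 19488) (by decide +kernel)
               (CovZ.leaf K2_ok TD_l4738 _)
               (CovZ.badM (by decide +kernel)))
              (CovZ.n1 (25344, 19440) (by decide +kernel)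
               (CovZ.leaf K2_ok TD_l4739 _)
               (CovZ.leaf K2_ok TD_l4740 _)))
             (CovZ.n1 (25296, 19536) (by decide +kernel)
              (CovZ.n2 (25344, 19536) (by decide +kernel)
               (CovZ.n2 (25320, 19512) (by decide +kernel)
                (CovZ.leaf K2_ok TD_l4741 _)
                (CovZ.leaf K2_ok TD_l4742 _))
               (CovZ.n1 (25320, 19560) (by decide +kernel)
                (CovZ.leaf K2_ok TD_l4743 _)
                (CovZ.leaf K2_ok TD_l4744 _)))
              (CovZ.n1 (25296, 19488) (by decide +kernel)
               (CovZ.badM (by decide +kernel))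
               (CovZ.leaf K2_ok TD_l4745 _))))
            (CovZ.n1 (25248, 19392) (by decide +kernel)
             (CovZ.badM (by decide +kernel))
             (CovZ.n1 (25296, 19440) (by decide +kernel)
              (CovZ.n2 (25296, 19392) (by decide +kernel)
               (CovZ.badM (by decide +kernel))
               (CovZ.leaf K2_ok TD_l4746 _))
              (CovZ.badM (by decide +kernel))))))))
        (CovZ.n1 (25152, 19776) (by decide +kernel)
         (CovZ.n2 (25344, 19776) (by decide +kernel)
          (CovZ.subM 8343699359551722246885996962542097523550617347543265717442149559471333150750422673839622193152 (by decide +kernel)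
           (CovZ.n2 (25248, 19680) (by decide +kernel)
            (CovZ.n2 (25248, 19776) (by decide +kernel)
             (CovZ.n2 (25296, 19728) (by decide +kernel)
              (CovZ.n2 (25248, 19728) (by decide +kernel)
               (CovZ.n2 (25272, 19752) (by decide +kernel)
                (CovZ.badM (by decide +kernel))
                (CovZ.badM (by decide +kernel)))
               (CovZ.badM (by decide +kernel)))
              (CovZ.n1 (25296, 19776) (by decide +kernel)
               (CovZ.leaf K2_ok TD_l4747 _)
               (CovZ.n1 (25272, 19752) (by decide +kernel)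
                (CovZ.leaf K2_ok TD_l15254 _)
                (CovZ.leaf K2_ok TD_l15255 _))))
             (CovZ.badM (by decide +kernel)))
            (CovZ.n1 (25344, 19680) (by decide +kernel)
             (CovZ.subM 618970019642690137449562112 (by decide +kernel)
              (CovZ.n2 (25296, 19632) (by decide +kernel)
               (CovZ.n2 (25296, 19680) (by decide +kernel)
                (CovZ.leaf K2_ok TD_l4748 _)
                (CovZ.badM (by decide +kernel)))
               (CovZ.n1 (25344, 19632) (by decide +kernel)
                (CovZ.n2 (25320, 19608) (by decide +kernel)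
                 (CovZ.leaf K2_ok TD_l4749 _)
                 (CovZ.leaf K2_ok TD_l4750 _))
                (CovZ.n1 (25320, 19656) (by decide +kernel)
                 (CovZ.leaf K2_ok TD_l4751 _)
                 (CovZ.leaf K2_ok TD_l4752 _)))))
             (CovZ.n1 (25296, 19728) (by decide +kernel)
              (CovZ.n2 (25344, 19728) (by decide +kernel)
               (CovZ.n2 (25320, 19704) (by decide +kernel)
                (CovZ.leaf K2_ok TD_l15256 _)
                (CovZ.leaf K2_ok TD_l15257 _))
               (CovZ.n1 (25320, 19752) (by decide +kernel)
                (CovZ.leaf K2_ok TD_l4753 _)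
                (CovZ.badM (by decide +kernel))))
              (CovZ.n1 (25296, 19680) (by decide +kernel)
               (CovZ.badM (by decide +kernel))
               (CovZ.n1 (25320, 19704) (by decide +kernel)
                (CovZ.leaf K2_ok TD_l4754 _)
                (CovZ.badM (by decide +kernel))))))))
          (CovZ.n1 (25248, 19872) (by decide +kernel)
           (CovZ.n2 (25344, 19872) (by decide +kernel)
            (CovZ.n2 (25296, 19824) (by decide +kernel)
             (CovZ.leaf K2_ok TD_l4755 _)
             (CovZ.leaf K2_ok TD_l4756 _))
            (CovZ.n1 (25296, 19920) (by decide +kernel)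
             (CovZ.leaf K2_ok TD_l4757 _)
             (CovZ.n1 (25296, 19872) (by decide +kernel)
              (CovZ.leaf K2_ok TD_l4758 _)
              (CovZ.leaf K2_ok TD_l4759 _))))
           (CovZ.subM 8343699359551722246885996962542097523550617347543265717442149559470714180730779983702181019648 (by decide +kernel)
            (CovZ.n1 (25248, 19776) (by decide +kernel)
             (CovZ.subM 485667223056432267729865476705879726660601709763034880312953102434726074050089582592 (by decide +kernel)
              (CovZ.n2 (25200, 19824) (by decide +kernel)
               (CovZ.n2 (25248, 19824) (by decide +kernel)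
                (CovZ.n2 (25224, 19800) (by decide +kernel)
                 (CovZ.leaf K2_ok TD_l4760 _)
                 (CovZ.leaf K2_ok TD_l4761 _))
                (CovZ.leaf K2_ok TD_l4762 _))
               (CovZ.n1 (25200, 19776) (by decide +kernel)
                (CovZ.badM (by decide +kernel))
                (CovZ.n1 (25224, 19800) (by decide +kernel)
                 (CovZ.badM (by decide +kernel))
                 (CovZ.leaf K2_ok TD_l4763 _)))))
             (CovZ.n1 (25296, 19824) (by decide +kernel)
              (CovZ.n2 (25296, 19776) (by decide +kernel)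
               (CovZ.n2 (25272, 19800) (by decide +kernel)
                (CovZ.leaf K2_ok TD_l4764 _)
                (CovZ.leaf K2_ok TD_l4765 _))
               (CovZ.leaf K2_ok TD_l4766 _))
              (CovZ.leaf K2_ok TD_l4767 _))))))
         (CovZ.subM 8343699359066055023829564694812232046844737620882664007679114679158380048315696599789540999168 (by decide +kernel)
          (CovZ.n1 (25152, 19584) (by decide +kernel)
           (CovZ.badM (by decide +kernel))
           (CovZ.n1 (25248, 19680) (by decide +kernel)
            (CovZ.subM 618970019642690137449562112 (by decide +kernel)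
             (CovZ.n2 (25248, 19584) (by decide +kernel)
              (CovZ.badM (by decide +kernel))
              (CovZ.n1 (25296, 19632) (by decide +kernel)
               (CovZ.n2 (25296, 19584) (by decide +kernel)
                (CovZ.badM (by decide +kernel))
                (CovZ.n1 (25320, 19608) (by decide +kernel)
                 (CovZ.leaf K2_ok TD_l4768 _)
                 (CovZ.badM (by decide +kernel))))
               (CovZ.badM (by decide +kernel)))))
            (CovZ.badM (by decide +kernel)))))))))

theorem TD_u37 : CovZ TD_M (toL (selN TD_LN 4271974071842305832013100728084286377208581001665096282306265348016431461570250703240370495447588)) [0, 7, 6, 1] (24576, 19968) (24576, 20736) (23808, 20736) :=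
    (CovZ.subM 485667223057315691262254668870677361724534171784713605734820008203308575909679735328 (by decide +kernel)
      (CovZ.n2 (24192, 20352) (by decide +kernel)
       (CovZ.n2 (24192, 20736) (by decide +kernel)
        (CovZ.n2 (24384, 20544) (by decide +kernel)
         (CovZ.badM (by decide +kernel))
         (CovZ.n1 (24384, 20736) (by decide +kernel)
          (CovZ.n2 (24480, 20640) (by decide +kernel)
           (CovZ.subM 20282409603652247447649508130816 (by decide +kernel)
            (CovZ.n2 (24384, 20640) (by decide +kernel)
             (CovZ.n2 (24432, 20688) (by decide +kernel)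
              (CovZ.n2 (24432, 20640) (by decide +kernel)
               (CovZ.leaf K2_ok TD_l2013 _)
               (CovZ.leaf K2_ok TD_l2014 _))
              (CovZ.leaf K2_ok TD_l2015 _))
             (CovZ.n1 (24432, 20592) (by decide +kernel)
              (CovZ.badM (by decide +kernel))
              (CovZ.n1 (24432, 20640) (by decide +kernel)
               (CovZ.leaf K2_ok TD_l2016 _)
               (CovZ.n1 (24408, 20616) (by decide +kernel)
                (CovZ.leaf K2_ok TD_l2017 _)
                (CovZ.leaf K2_ok TD_l2018 _))))))
           (CovZ.n1 (24480, 20736) (by decide +kernel)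
            (CovZ.leaf K2_ok TD_l2019 _)
            (CovZ.n1 (24432, 20688) (by decide +kernel)
             (CovZ.leaf K2_ok TD_l2020 _)
             (CovZ.leaf K2_ok TD_l2021 _))))
          (CovZ.subM 20282409603652247447649508130816 (by decide +kernel)
           (CovZ.n1 (24288, 20640) (by decide +kernel)
            (CovZ.n2 (24288, 20736) (by decide +kernel)
             (CovZ.n2 (24336, 20688) (by decide +kernel)
              (CovZ.badM (by decide +kernel))
              (CovZ.n1 (24336, 20736) (by decide +kernel)
               (CovZ.leaf K2_ok TD_l2022 _)
               (CovZ.n1 (24312, 20712) (by decide +kernel)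
                (CovZ.leaf K2_ok TD_l2023 _)
                (CovZ.leaf K2_ok TD_l2024 _))))
             (CovZ.badM (by decide +kernel)))
            (CovZ.n1 (24384, 20640) (by decide +kernel)
             (CovZ.badM (by decide +kernel))
             (CovZ.n1 (24336, 20688) (by decide +kernel)
              (CovZ.n2 (24384, 20688) (by decide +kernel)
               (CovZ.n2 (24360, 20664) (by decide +kernel)
                (CovZ.leaf K2_ok TD_l2025 _)
                (CovZ.leaf K2_ok TD_l2026 _))
               (CovZ.leaf K2_ok TD_l2027 _))
              (CovZ.badM (by decide +kernel))))))))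
        (CovZ.badM (by decide +kernel)))
       (CovZ.n1 (24576, 20352) (by decide +kernel)
        (CovZ.n2 (24384, 20160) (by decide +kernel)
         (CovZ.n2 (24384, 20352) (by decide +kernel)
          (CovZ.badM (by decide +kernel))
          (CovZ.badM (by decide +kernel)))
         (CovZ.badM (by decide +kernel)))
        (CovZ.n1 (24384, 20544) (by decide +kernel)
         (CovZ.n2 (24576, 20544) (by decide +kernel)
          (CovZ.n2 (24480, 20448) (by decide +kernel)
           (CovZ.n2 (24480, 20544) (by decide +kernel)
            (CovZ.n2 (24528, 20496) (by decide +kernel)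
             (CovZ.badM (by decide +kernel))
             (CovZ.n1 (24528, 20544) (by decide +kernel)
              (CovZ.leaf K2_ok TD_l2028 _)
              (CovZ.n1 (24504, 20520) (by decide +kernel)
               (CovZ.leaf K2_ok TD_l2029 _)
               (CovZ.leaf K2_ok TD_l2030 _))))
            (CovZ.badM (by decide +kernel)))
           (CovZ.n1 (24576, 20448) (by decide +kernel)
            (CovZ.badM (by decide +kernel))
            (CovZ.n1 (24528, 20496) (by decide +kernel)
             (CovZ.n2 (24576, 20496) (by decide +kernel)
              (CovZ.n2 (24552, 20472) (by decide +kernel)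
               (CovZ.leaf K2_ok TD_l2031 _)
               (CovZ.leaf K2_ok TD_l2032 _))
              (CovZ.leaf K2_ok TD_l2033 _))
             (CovZ.n1 (24528, 20448) (by decide +kernel)
              (CovZ.badM (by decide +kernel))
              (CovZ.n1 (24552, 20472) (by decide +kernel)
               (CovZ.badM (by decide +kernel))
               (CovZ.badM (by decide +kernel)))))))
          (CovZ.n1 (24480, 20640) (by decide +kernel)
           (CovZ.n2 (24576, 20640) (by decide +kernel)
            (CovZ.n2 (24528, 20592) (by decide +kernel)
             (CovZ.leaf K2_ok TD_l2034 _)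
             (CovZ.leaf K2_ok TD_l2035 _))
            (CovZ.n1 (24528, 20688) (by decide +kernel)
             (CovZ.leaf K2_ok TD_l2036 _)
             (CovZ.leaf K2_ok TD_l2037 _)))
           (CovZ.n1 (24480, 20544) (by decide +kernel)
            (CovZ.subM 20282409603652247447649508130816 (by decide +kernel)
             (CovZ.n2 (24432, 20592) (by decide +kernel)
              (CovZ.n2 (24480, 20592) (by decide +kernel)
               (CovZ.n2 (24456, 20568) (by decide +kernel)
                (CovZ.leaf K2_ok TD_l2038 _)
                (CovZ.leaf K2_ok TD_l2039 _))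
               (CovZ.leaf K2_ok TD_l2040 _))
              (CovZ.badM (by decide +kernel))))
            (CovZ.n1 (24528, 20592) (by decide +kernel)
             (CovZ.n2 (24528, 20544) (by decide +kernel)
              (CovZ.leaf K2_ok TD_l2041 _)
              (CovZ.leaf K2_ok TD_l2042 _))
             (CovZ.leaf K2_ok TD_l2043 _)))))
         (CovZ.n1 (24384, 20352) (by decide +kernel)
          (CovZ.badM (by decide +kernel))
          (CovZ.n1 (24480, 20448) (by decide +kernel)
           (CovZ.badM (by decide +kernel))
           (CovZ.badM (by decide +kernel))))))))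

theorem TD_u38 : CovZ TD_M (toL (selN TD_LN 4271974071842305832013100728084286377208581001665096282306265348016431461570250703240370495447588)) [0, 7, 6, 1] (24576, 20736) (24576, 21504) (23808, 20736) :=
    (CovZ.n1 (24192, 21120) (by decide +kernel)
      (CovZ.n2 (24576, 21120) (by decide +kernel)
       (CovZ.n2 (24384, 20928) (by decide +kernel)
        (CovZ.n2 (24384, 21120) (by decide +kernel)
         (CovZ.n2 (24480, 21024) (by decide +kernel)
          (CovZ.n2 (24384, 21024) (by decide +kernel)
           (CovZ.n2 (24432, 21072) (by decide +kernel)
            (CovZ.leaf K2_ok TD_l2044 _)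
            (CovZ.leaf K2_ok TD_l2045 _))
           (CovZ.leaf K2_ok TD_l2046 _))
          (CovZ.n1 (24480, 21120) (by decide +kernel)
           (CovZ.leaf K2_ok TD_l2047 _)
           (CovZ.n1 (24432, 21072) (by decide +kernel)
            (CovZ.leaf K2_ok TD_l2048 _)
            (CovZ.leaf K2_ok TD_l2049 _))))
         (CovZ.subM 485667223057315691262254668870671376141723987686400101645642931924193849061205344292 (by decide +kernel)
          (CovZ.n1 (24288, 21024) (by decide +kernel)
           (CovZ.n2 (24288, 21120) (by decide +kernel)
            (CovZ.leaf K2_ok TD_l2050 _)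
            (CovZ.n1 (24240, 21072) (by decide +kernel)
             (CovZ.leaf K2_ok TD_l2051 _)
             (CovZ.leaf K2_ok TD_l2052 _)))
           (CovZ.n1 (24384, 21024) (by decide +kernel)
            (CovZ.n2 (24336, 20976) (by decide +kernel)
             (CovZ.leaf K2_ok TD_l2053 _)
             (CovZ.leaf K2_ok TD_l2054 _))
            (CovZ.leaf K2_ok TD_l2055 _)))))
        (CovZ.n1 (24576, 20928) (by decide +kernel)
         (CovZ.subM 485667223057315691262254668870677361724534171784713605733582068164023197833938084384 (by decide +kernel)
          (CovZ.n2 (24480, 20832) (by decide +kernel)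
           (CovZ.n2 (24480, 20928) (by decide +kernel)
            (CovZ.leaf K2_ok TD_l2056 _)
            (CovZ.n1 (24432, 20880) (by decide +kernel)
             (CovZ.leaf K2_ok TD_l2057 _)
             (CovZ.leaf K2_ok TD_l2058 _)))
           (CovZ.n1 (24576, 20832) (by decide +kernel)
            (CovZ.n2 (24528, 20784) (by decide +kernel)
             (CovZ.leaf K2_ok TD_l2059 _)
             (CovZ.leaf K2_ok TD_l2060 _))
            (CovZ.leaf K2_ok TD_l2061 _))))
         (CovZ.n1 (24480, 21024) (by decide +kernel)
          (CovZ.n2 (24576, 21024) (by decide +kernel)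
           (CovZ.n2 (24528, 20976) (by decide +kernel)
            (CovZ.leaf K2_ok TD_l2062 _)
            (CovZ.leaf K2_ok TD_l2063 _))
           (CovZ.leaf K2_ok TD_l2064 _))
          (CovZ.n1 (24480, 20928) (by decide +kernel)
           (CovZ.leaf K2_ok TD_l2065 _)
           (CovZ.n1 (24528, 20976) (by decide +kernel)
            (CovZ.leaf K2_ok TD_l2066 _)
            (CovZ.leaf K2_ok TD_l2067 _))))))
       (CovZ.n1 (24384, 21312) (by decide +kernel)
        (CovZ.n2 (24576, 21312) (by decide +kernel)
         (CovZ.n2 (24480, 21216) (by decide +kernel)
          (CovZ.leaf K2_ok TD_l2068 _)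
          (CovZ.n1 (24576, 21216) (by decide +kernel)
           (CovZ.leaf K2_ok TD_l2069 _)
           (CovZ.leaf K2_ok TD_l2070 _)))
         (CovZ.n1 (24480, 21408) (by decide +kernel)
          (CovZ.leaf K2_ok TD_l2071 _)
          (CovZ.n1 (24480, 21312) (by decide +kernel)
           (CovZ.leaf K2_ok TD_l2072 _)
           (CovZ.leaf K2_ok TD_l2073 _))))
        (CovZ.n1 (24384, 21120) (by decide +kernel)
         (CovZ.subM 485667223057315691262254668870671376141723987686400101645642931924193849198644297764 (by decide +kernel)
          (CovZ.n2 (24288, 21216) (by decide +kernel)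
           (CovZ.n2 (24384, 21216) (by decide +kernel)
            (CovZ.n2 (24336, 21168) (by decide +kernel)
             (CovZ.leaf K2_ok TD_l2074 _)
             (CovZ.leaf K2_ok TD_l2075 _))
            (CovZ.leaf K2_ok TD_l2076 _))
           (CovZ.n1 (24288, 21120) (by decide +kernel)
            (CovZ.n2 (24240, 21168) (by decide +kernel)
             (CovZ.leaf K2_ok TD_l2077 _)
             (CovZ.leaf K2_ok TD_l2078 _))
            (CovZ.n1 (24336, 21168) (by decide +kernel)
             (CovZ.leaf K2_ok TD_l2079 _)
             (CovZ.leaf K2_ok TD_l2080 _)))))
         (CovZ.n1 (24480, 21216) (by decide +kernel)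
          (CovZ.n2 (24480, 21120) (by decide +kernel)
           (CovZ.leaf K2_ok TD_l2081 _)
           (CovZ.leaf K2_ok TD_l2082 _))
          (CovZ.leaf K2_ok TD_l2083 _)))))
      (CovZ.n1 (24192, 20736) (by decide +kernel)
       (CovZ.subM 485667223057315691262254668870671376141723987686400101646880871963479227137081212960 (by decide +kernel)
        (CovZ.n2 (24000, 20928) (by decide +kernel)
         (CovZ.n2 (24192, 20928) (by decide +kernel)
          (CovZ.subM 20282409603652247447649508130816 (by decide +kernel)
           (CovZ.n2 (24096, 20832) (by decide +kernel)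
            (CovZ.n2 (24096, 20928) (by decide +kernel)
             (CovZ.n2 (24144, 20880) (by decide +kernel)
              (CovZ.n2 (24096, 20880) (by decide +kernel)
               (CovZ.n2 (24120, 20904) (by decide +kernel)
                (CovZ.leaf K2_ok TD_l2084 _)
                (CovZ.leaf K2_ok TD_l2085 _))
               (CovZ.n1 (24120, 20856) (by decide +kernel)
                (CovZ.badM (by decide +kernel))
                (CovZ.leaf K2_ok TD_l2086 _)))
              (CovZ.n1 (24144, 20928) (by decide +kernel)
               (CovZ.leaf K2_ok TD_l2087 _)
               (CovZ.leaf K2_ok TD_l2088 _)))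
             (CovZ.n1 (24048, 20880) (by decide +kernel)
              (CovZ.n2 (24048, 20928) (by decide +kernel)
               (CovZ.leaf K2_ok TD_l2089 _)
               (CovZ.badM (by decide +kernel)))
              (CovZ.n1 (24096, 20880) (by decide +kernel)
               (CovZ.badM (by decide +kernel))
               (CovZ.n1 (24072, 20904) (by decide +kernel)
                (CovZ.leaf K2_ok TD_l2090 _)
                (CovZ.badM (by decide +kernel))))))
            (CovZ.n1 (24192, 20832) (by decide +kernel)
             (CovZ.badM (by decide +kernel))
             (CovZ.n1 (24144, 20880) (by decide +kernel)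
              (CovZ.n2 (24192, 20880) (by decide +kernel)
               (CovZ.n2 (24168, 20856) (by decide +kernel)
                (CovZ.leaf K2_ok TD_l2093 _)
                (CovZ.leaf K2_ok TD_l2094 _))
               (CovZ.leaf K2_ok TD_l2095 _))
              (CovZ.n1 (24144, 20832) (by decide +kernel)
               (CovZ.n2 (24120, 20856) (by decide +kernel)
                (CovZ.leaf K2_ok TD_l2096 _)
                (CovZ.badM (by decide +kernel)))
               (CovZ.n1 (24168, 20856) (by decide +kernel)
                (CovZ.badM (by decide +kernel))
                (CovZ.leaf K2_ok TD_l2098 _)))))))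
          (CovZ.n1 (24096, 21024) (by decide +kernel)
           (CovZ.n2 (24192, 21024) (by decide +kernel)
            (CovZ.subM 485667223056432267729865476705879726660601709763034900595362706086991533933435289600 (by decide +kernel)
             (CovZ.n2 (24144, 20976) (by decide +kernel)
              (CovZ.n2 (24144, 21024) (by decide +kernel)
               (CovZ.leaf K2_ok TD_l2099 _)
               (CovZ.leaf K2_ok TD_l2100 _))
              (CovZ.n1 (24192, 20976) (by decide +kernel)
               (CovZ.leaf K2_ok TD_l2101 _)
               (CovZ.leaf K2_ok TD_l2102 _))))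
            (CovZ.n1 (24144, 21072) (by decide +kernel)
             (CovZ.leaf K2_ok TD_l2103 _)
             (CovZ.n1 (24144, 21024) (by decide +kernel)
              (CovZ.leaf K2_ok TD_l2104 _)
              (CovZ.leaf K2_ok TD_l2105 _))))
           (CovZ.subM 20282409603652247447649508130816 (by decide +kernel)
            (CovZ.n1 (24096, 20928) (by decide +kernel)
             (CovZ.n2 (24048, 20976) (by decide +kernel)
              (CovZ.n2 (24096, 20976) (by decide +kernel)
               (CovZ.n2 (24072, 20952) (by decide +kernel)
                (CovZ.leaf K2_ok TD_l2106 _)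
                (CovZ.leaf K2_ok TD_l2107 _))
               (CovZ.leaf K2_ok TD_l2108 _))
              (CovZ.n1 (24048, 20928) (by decide +kernel)
               (CovZ.n2 (24024, 20952) (by decide +kernel)
                (CovZ.leaf K2_ok TD_l2109 _)
                (CovZ.badM (by decide +kernel)))
               (CovZ.leaf K2_ok TD_l2110 _)))
             (CovZ.n1 (24144, 20976) (by decide +kernel)
              (CovZ.n2 (24144, 20928) (by decide +kernel)
               (CovZ.leaf K2_ok TD_l2111 _)
               (CovZ.leaf K2_ok TD_l2112 _))
              (CovZ.leaf K2_ok TD_l2113 _))))))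
         (CovZ.badM (by decide +kernel))))
       (CovZ.subM 485667223057315691262254668870677362455284990450165064835424484522164705462881100320 (by decide +kernel)
        (CovZ.n1 (24384, 20928) (by decide +kernel)
         (CovZ.n2 (24384, 20736) (by decide +kernel)
          (CovZ.subM 485667223057315691262254668870671375410973169020948642543800515566052337034215817248 (by decide +kernel)
           (CovZ.n2 (24288, 20832) (by decide +kernel)
            (CovZ.n2 (24384, 20832) (by decide +kernel)
             (CovZ.n2 (24336, 20784) (by decide +kernel)
              (CovZ.leaf K2_ok TD_l2114 _)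
              (CovZ.leaf K2_ok TD_l2115 _))
             (CovZ.n1 (24336, 20880) (by decide +kernel)
              (CovZ.leaf K2_ok TD_l2116 _)
              (CovZ.n1 (24336, 20832) (by decide +kernel)
               (CovZ.leaf K2_ok TD_l2117 _)
               (CovZ.leaf K2_ok TD_l2118 _))))
            (CovZ.subM 20282409603652247447649508130816 (by decide +kernel)
             (CovZ.n1 (24288, 20736) (by decide +kernel)
              (CovZ.n2 (24240, 20784) (by decide +kernel)
               (CovZ.n2 (24288, 20784) (by decide +kernel)
                (CovZ.n2 (24264, 20760) (by decide +kernel)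
                 (CovZ.leaf K2_ok TD_l2119 _)
                 (CovZ.leaf K2_ok TD_l2120 _))
                (CovZ.leaf K2_ok TD_l2121 _))
               (CovZ.badM (by decide +kernel)))
              (CovZ.n1 (24336, 20784) (by decide +kernel)
               (CovZ.n2 (24336, 20736) (by decide +kernel)
                (CovZ.leaf K2_ok TD_l2124 _)
                (CovZ.leaf K2_ok TD_l2125 _))
               (CovZ.leaf K2_ok TD_l2126 _))))))
          (CovZ.n1 (24480, 20832) (by decide +kernel)
           (CovZ.n2 (24480, 20736) (by decide +kernel)
            (CovZ.n2 (24432, 20784) (by decide +kernel)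
             (CovZ.leaf K2_ok TD_l2127 _)
             (CovZ.leaf K2_ok TD_l2128 _))
            (CovZ.n1 (24528, 20784) (by decide +kernel)
             (CovZ.leaf K2_ok TD_l2129 _)
             (CovZ.leaf K2_ok TD_l2130 _)))
           (CovZ.n1 (24384, 20832) (by decide +kernel)
            (CovZ.n2 (24432, 20880) (by decide +kernel)
             (CovZ.leaf K2_ok TD_l2131 _)
             (CovZ.leaf K2_ok TD_l2132 _))
            (CovZ.leaf K2_ok TD_l2133 _))))
         (CovZ.subM 485667223057315691262254668870671376141723987686400101645642931924193846862182088736 (by decide +kernel)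
          (CovZ.n1 (24192, 20928) (by decide +kernel)
           (CovZ.n2 (24288, 21024) (by decide +kernel)
            (CovZ.n2 (24288, 20928) (by decide +kernel)
             (CovZ.n2 (24240, 20976) (by decide +kernel)
              (CovZ.leaf K2_ok TD_l2134 _)
              (CovZ.n1 (24240, 20928) (by decide +kernel)
               (CovZ.leaf K2_ok TD_l2135 _)
               (CovZ.leaf K2_ok TD_l2136 _)))
             (CovZ.n1 (24336, 20976) (by decide +kernel)
              (CovZ.leaf K2_ok TD_l2137 _)
              (CovZ.leaf K2_ok TD_l2138 _)))
            (CovZ.n1 (24192, 21024) (by decide +kernel)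
             (CovZ.n2 (24240, 21072) (by decide +kernel)
              (CovZ.leaf K2_ok TD_l2139 _)
              (CovZ.leaf K2_ok TD_l2140 _))
             (CovZ.leaf K2_ok TD_l2141 _)))
           (CovZ.n1 (24288, 20832) (by decide +kernel)
            (CovZ.subM 20282409603652247447649508130816 (by decide +kernel)
             (CovZ.n2 (24192, 20832) (by decide +kernel)
              (CovZ.n2 (24240, 20880) (by decide +kernel)
               (CovZ.n2 (24240, 20832) (by decide +kernel)
                (CovZ.leaf K2_ok TD_l2142 _)
                (CovZ.leaf K2_ok TD_l2143 _))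
               (CovZ.leaf K2_ok TD_l2144 _))
              (CovZ.n1 (24240, 20784) (by decide +kernel)
               (CovZ.badM (by decide +kernel))
               (CovZ.n1 (24240, 20832) (by decide +kernel)
                (CovZ.leaf K2_ok TD_l2148 _)
                (CovZ.n1 (24216, 20808) (by decide +kernel)
                 (CovZ.leaf K2_ok TD_l2149 _)
                 (CovZ.leaf K2_ok TD_l2150 _))))))
            (CovZ.n1 (24288, 20928) (by decide +kernel)
             (CovZ.leaf K2_ok TD_l2151 _)
             (CovZ.n1 (24240, 20880) (by decide +kernel)
              (CovZ.leaf K2_ok TD_l2152 _)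
              (CovZ.leaf K2_ok TD_l2153 _))))))))))

theorem TD_u39 : CovZ TD_M (toL (selN TD_LN 4271974071842305832013100728084286377208581001665096282306265348016431461570250703240370495447588)) [0, 7, 6, 1] (23808, 20736) (24192, 21120) (23808, 21504) :=
    (CovZ.subM 485667223057315691262254668870671376141723987686400101646880871963479227275593908256 (by decide +kernel)
       (CovZ.n2 (23808, 21120) (by decide +kernel)
        (CovZ.n2 (24000, 21312) (by decide +kernel)
         (CovZ.n2 (24000, 21120) (by decide +kernel)
          (CovZ.n2 (23904, 21216) (by decide +kernel)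
           (CovZ.n2 (24000, 21216) (by decide +kernel)
            (CovZ.n2 (23952, 21168) (by decide +kernel)
             (CovZ.n2 (23952, 21216) (by decide +kernel)
              (CovZ.leaf K2_ok TD_l2154 _)
              (CovZ.leaf K2_ok TD_l2155 _))
             (CovZ.n1 (24000, 21168) (by decide +kernel)
              (CovZ.n2 (23976, 21144) (by decide +kernel)
               (CovZ.leaf K2_ok TD_l2156 _)
               (CovZ.leaf K2_ok TD_l2157 _))
              (CovZ.leaf K2_ok TD_l2158 _)))
            (CovZ.n1 (23952, 21264) (by decide +kernel)
             (CovZ.leaf K2_ok TD_l2159 _)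
             (CovZ.n1 (23952, 21216) (by decide +kernel)
              (CovZ.leaf K2_ok TD_l2160 _)
              (CovZ.leaf K2_ok TD_l2161 _))))
           (CovZ.subM 730750818665451479385489960049674337889812480000 (by decide +kernel)
            (CovZ.n1 (23904, 21120) (by decide +kernel)
             (CovZ.n2 (23856, 21168) (by decide +kernel)
              (CovZ.n2 (23904, 21168) (by decide +kernel)
               (CovZ.n2 (23880, 21144) (by decide +kernel)
                (CovZ.leaf K2_ok TD_l2162 _)
                (CovZ.leaf K2_ok TD_l2163 _))
               (CovZ.leaf K2_ok TD_l2164 _))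
              (CovZ.subM 20282409603652247447649508130816 (by decide +kernel)
               (CovZ.n1 (23856, 21120) (by decide +kernel)
                (CovZ.n2 (23832, 21144) (by decide +kernel)
                 (CovZ.leaf K2_ok TD_l14831 _)
                 (CovZ.badM (by decide +kernel)))
                (CovZ.n1 (23880, 21144) (by decide +kernel)
                 (CovZ.leaf K2_ok TD_l2165 _)
                 (CovZ.leaf K2_ok TD_l2166 _)))))
             (CovZ.n1 (23952, 21168) (by decide +kernel)
              (CovZ.n2 (23952, 21120) (by decide +kernel)
               (CovZ.leaf K2_ok TD_l2167 _)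
               (CovZ.leaf K2_ok TD_l2168 _))
              (CovZ.n1 (23904, 21168) (by decide +kernel)
               (CovZ.leaf K2_ok TD_l2169 _)
               (CovZ.leaf K2_ok TD_l2170 _))))))
          (CovZ.n1 (24096, 21216) (by decide +kernel)
           (CovZ.n2 (24096, 21120) (by decide +kernel)
            (CovZ.n2 (24048, 21168) (by decide +kernel)
             (CovZ.leaf K2_ok TD_l2171 _)
             (CovZ.n1 (24048, 21120) (by decide +kernel)
              (CovZ.leaf K2_ok TD_l2172 _)
              (CovZ.leaf K2_ok TD_l2173 _)))
            (CovZ.n1 (24144, 21168) (by decide +kernel)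
             (CovZ.leaf K2_ok TD_l2174 _)
             (CovZ.leaf K2_ok TD_l2175 _)))
           (CovZ.n1 (24000, 21216) (by decide +kernel)
            (CovZ.n2 (24048, 21264) (by decide +kernel)
             (CovZ.leaf K2_ok TD_l2176 _)
             (CovZ.leaf K2_ok TD_l2177 _))
            (CovZ.n1 (24048, 21168) (by decide +kernel)
             (CovZ.leaf K2_ok TD_l2178 _)
             (CovZ.leaf K2_ok TD_l2179 _)))))
         (CovZ.n1 (23808, 21312) (by decide +kernel)
          (CovZ.n2 (23904, 21408) (by decide +kernel)
           (CovZ.n2 (23904, 21312) (by decide +kernel)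
            (CovZ.n2 (23856, 21360) (by decide +kernel)
             (CovZ.n2 (23904, 21360) (by decide +kernel)
              (CovZ.leaf K2_ok TD_l2180 _)
              (CovZ.leaf K2_ok TD_l2181 _))
             (CovZ.n1 (23856, 21312) (by decide +kernel)
              (CovZ.leaf K2_ok TD_l2182 _)
              (CovZ.leaf K2_ok TD_l2183 _)))
            (CovZ.n1 (23952, 21360) (by decide +kernel)
             (CovZ.n2 (23952, 21312) (by decide +kernel)
              (CovZ.leaf K2_ok TD_l2184 _)
              (CovZ.leaf K2_ok TD_l2185 _))
             (CovZ.leaf K2_ok TD_l2186 _)))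
           (CovZ.n1 (23808, 21408) (by decide +kernel)
            (CovZ.n2 (23856, 21456) (by decide +kernel)
             (CovZ.n2 (23856, 21408) (by decide +kernel)
              (CovZ.leaf K2_ok TD_l2187 _)
              (CovZ.leaf K2_ok TD_l2188 _))
             (CovZ.leaf K2_ok TD_l2189 _))
            (CovZ.leaf K2_ok TD_l2190 _)))
          (CovZ.n1 (23904, 21216) (by decide +kernel)
           (CovZ.subM 730750818665451479385489960049674337889812480000 (by decide +kernel)
            (CovZ.n2 (23808, 21216) (by decide +kernel)
             (CovZ.n2 (23856, 21264) (by decide +kernel)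
              (CovZ.n2 (23856, 21216) (by decide +kernel)
               (CovZ.leaf K2_ok TD_l2191 _)
               (CovZ.n1 (23880, 21240) (by decide +kernel)
                (CovZ.leaf K2_ok TD_l2192 _)
                (CovZ.leaf K2_ok TD_l2193 _)))
              (CovZ.leaf K2_ok TD_l2194 _))
             (CovZ.n1 (23856, 21168) (by decide +kernel)
              (CovZ.n2 (23808, 21168) (by decide +kernel)
               (CovZ.n2 (23832, 21192) (by decide +kernel)
                (CovZ.leaf K2_ok TD_l14832 _)
                (CovZ.leaf K2_ok TD_l2195 _))
               (CovZ.leaf K2_ok TD_l14833 _))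
              (CovZ.n1 (23856, 21216) (by decide +kernel)
               (CovZ.leaf K2_ok TD_l2196 _)
               (CovZ.n1 (23832, 21192) (by decide +kernel)
                (CovZ.leaf K2_ok TD_l2197 _)
                (CovZ.leaf K2_ok TD_l2198 _))))))
           (CovZ.n1 (23904, 21312) (by decide +kernel)
            (CovZ.leaf K2_ok TD_l2199 _)
            (CovZ.n1 (23856, 21264) (by decide +kernel)
             (CovZ.n2 (23856, 21312) (by decide +kernel)
              (CovZ.leaf K2_ok TD_l2200 _)
              (CovZ.n1 (23832, 21288) (by decide +kernel)
               (CovZ.leaf K2_ok TD_l2201 _)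
               (CovZ.leaf K2_ok TD_l2202 _)))
             (CovZ.n1 (23904, 21264) (by decide +kernel)
              (CovZ.leaf K2_ok TD_l2203 _)
              (CovZ.leaf K2_ok TD_l2204 _)))))))
        (CovZ.n1 (24000, 20928) (by decide +kernel)
         (CovZ.badM (by decide +kernel))
         (CovZ.n1 (24000, 21120) (by decide +kernel)
          (CovZ.n2 (24096, 21024) (by decide +kernel)
           (CovZ.subM 20282409603652247447649508130816 (by decide +kernel)
            (CovZ.n2 (24000, 21024) (by decide +kernel)
             (CovZ.n2 (24048, 21072) (by decide +kernel)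
              (CovZ.n2 (24048, 21024) (by decide +kernel)
               (CovZ.leaf K2_ok TD_l2205 _)
               (CovZ.leaf K2_ok TD_l2206 _))
              (CovZ.leaf K2_ok TD_l2207 _))
             (CovZ.n1 (24048, 20976) (by decide +kernel)
              (CovZ.n2 (24000, 20976) (by decide +kernel)
               (CovZ.n2 (24024, 21000) (by decide +kernel)
                (CovZ.leaf K2_ok TD_l2208 _)
                (CovZ.leaf K2_ok TD_l2209 _))
               (CovZ.leaf K2_ok TD_l2210 _))
              (CovZ.n1 (24048, 21024) (by decide +kernel)
               (CovZ.leaf K2_ok TD_l2211 _)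
               (CovZ.n1 (24024, 21000) (by decide +kernel)
                (CovZ.leaf K2_ok TD_l2212 _)
                (CovZ.leaf K2_ok TD_l2213 _))))))
           (CovZ.n1 (24096, 21120) (by decide +kernel)
            (CovZ.leaf K2_ok TD_l2214 _)
            (CovZ.subM 485667223056432267729865476705879726660601709763034900595362706086991533933435289600 (by decide +kernel)
             (CovZ.n1 (24048, 21072) (by decide +kernel)
              (CovZ.n2 (24048, 21120) (by decide +kernel)
               (CovZ.leaf K2_ok TD_l2215 _)
               (CovZ.leaf K2_ok TD_l2216 _))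
              (CovZ.n1 (24096, 21072) (by decide +kernel)
               (CovZ.leaf K2_ok TD_l2217 _)
               (CovZ.leaf K2_ok TD_l2218 _))))))
          (CovZ.subM 20283647543691532827924407255040 (by decide +kernel)
           (CovZ.n1 (23904, 21024) (by decide +kernel)
            (CovZ.n2 (23904, 21120) (by decide +kernel)
             (CovZ.n2 (23952, 21072) (by decide +kernel)
              (CovZ.n2 (23904, 21072) (by decide +kernel)
               (CovZ.n2 (23928, 21096) (by decide +kernel)
                (CovZ.leaf K2_ok TD_l2219 _)
                (CovZ.leaf K2_ok TD_l2220 _))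
               (CovZ.n1 (23928, 21048) (by decide +kernel)
                (CovZ.badM (by decide +kernel))
                (CovZ.leaf K2_ok TD_l2221 _)))
              (CovZ.n1 (23952, 21120) (by decide +kernel)
               (CovZ.leaf K2_ok TD_l2222 _)
               (CovZ.n1 (23928, 21096) (by decide +kernel)
                (CovZ.leaf K2_ok TD_l2223 _)
                (CovZ.leaf K2_ok TD_l2224 _))))
             (CovZ.n1 (23856, 21072) (by decide +kernel)
              (CovZ.n2 (23856, 21120) (by decide +kernel)
               (CovZ.leaf K2_ok TD_l2225 _)
               (CovZ.badM (by decide +kernel)))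
              (CovZ.n1 (23904, 21072) (by decide +kernel)
               (CovZ.badM (by decide +kernel))
               (CovZ.n1 (23880, 21096) (by decide +kernel)
                (CovZ.leaf K2_ok TD_l2226 _)
                (CovZ.badM (by decide +kernel))))))
            (CovZ.n1 (24000, 21024) (by decide +kernel)
             (CovZ.n2 (23952, 20976) (by decide +kernel)
              (CovZ.n2 (23952, 21024) (by decide +kernel)
               (CovZ.n2 (23976, 21000) (by decide +kernel)
                (CovZ.badM (by decide +kernel))
                (CovZ.leaf K2_ok TD_l2227 _))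
               (CovZ.badM (by decide +kernel)))
              (CovZ.n1 (24000, 20976) (by decide +kernel)
               (CovZ.badM (by decide +kernel))
               (CovZ.n1 (23976, 21000) (by decide +kernel)
                (CovZ.leaf K2_ok TD_l2228 _)
                (CovZ.badM (by decide +kernel)))))
             (CovZ.n1 (23952, 21072) (by decide +kernel)
              (CovZ.n2 (24000, 21072) (by decide +kernel)
               (CovZ.n2 (23976, 21048) (by decide +kernel)
                (CovZ.leaf K2_ok TD_l2229 _)
                (CovZ.leaf K2_ok TD_l2230 _))
               (CovZ.leaf K2_ok TD_l2231 _))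
              (CovZ.n1 (23952, 21024) (by decide +kernel)
               (CovZ.n2 (23928, 21048) (by decide +kernel)
                (CovZ.leaf K2_ok TD_l2232 _)
                (CovZ.badM (by decide +kernel)))
               (CovZ.leaf K2_ok TD_l2233 _))))))))))

theorem TD_u40 : CovZ TD_M (toL (selN TD_LN 4271974071842305832013100728084286377208581001665096282306265348016431461570250703240370495447588)) [0, 7, 6, 1] (24192, 21120) (24576, 21504) (23808, 21504) :=
    (CovZ.n1 (24192, 21504) (by decide +kernel)
       (CovZ.n2 (24384, 21312) (by decide +kernel)
        (CovZ.subM 485667223057315691262254668870671376141723987686400101645642931924193849199718039588 (by decide +kernel)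
         (CovZ.n2 (24192, 21312) (by decide +kernel)
          (CovZ.n2 (24288, 21408) (by decide +kernel)
           (CovZ.n2 (24288, 21312) (by decide +kernel)
            (CovZ.leaf K2_ok TD_l2234 _)
            (CovZ.leaf K2_ok TD_l2235 _))
           (CovZ.leaf K2_ok TD_l2236 _))
          (CovZ.n1 (24288, 21216) (by decide +kernel)
           (CovZ.n2 (24192, 21216) (by decide +kernel)
            (CovZ.n2 (24240, 21264) (by decide +kernel)
             (CovZ.leaf K2_ok TD_l2237 _)
             (CovZ.leaf K2_ok TD_l2238 _))
            (CovZ.leaf K2_ok TD_l2239 _))
           (CovZ.n1 (24288, 21312) (by decide +kernel)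
            (CovZ.leaf K2_ok TD_l2240 _)
            (CovZ.n1 (24240, 21264) (by decide +kernel)
             (CovZ.leaf K2_ok TD_l2241 _)
             (CovZ.leaf K2_ok TD_l2242 _))))))
        (CovZ.n1 (24384, 21504) (by decide +kernel)
         (CovZ.leaf K2_ok TD_l2243 _)
         (CovZ.subM 485667223057315691262254668870671376141723987686400101645642931924193849199718039588 (by decide +kernel)
          (CovZ.n1 (24288, 21408) (by decide +kernel)
           (CovZ.n2 (24288, 21504) (by decide +kernel)
            (CovZ.leaf K2_ok TD_l2244 _)
            (CovZ.leaf K2_ok TD_l2245 _))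
           (CovZ.n1 (24384, 21408) (by decide +kernel)
            (CovZ.leaf K2_ok TD_l2246 _)
            (CovZ.leaf K2_ok TD_l2247 _))))))
       (CovZ.subM 4271974071842305832013100728030366483874279716089447263881769615746086332433244579275398791036964 (by decide +kernel)
        (CovZ.n1 (24000, 21312) (by decide +kernel)
         (CovZ.n2 (24000, 21504) (by decide +kernel)
          (CovZ.n2 (24096, 21408) (by decide +kernel)
           (CovZ.n2 (24000, 21408) (by decide +kernel)
            (CovZ.n2 (24048, 21456) (by decide +kernel)
             (CovZ.leaf K2_ok TD_l2248 _)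
             (CovZ.leaf K2_ok TD_l2249 _))
            (CovZ.leaf K2_ok TD_l2250 _))
           (CovZ.n1 (24096, 21504) (by decide +kernel)
            (CovZ.leaf K2_ok TD_l2251 _)
            (CovZ.n1 (24048, 21456) (by decide +kernel)
             (CovZ.leaf K2_ok TD_l2252 _)
             (CovZ.leaf K2_ok TD_l2253 _))))
          (CovZ.n1 (23904, 21408) (by decide +kernel)
           (CovZ.n2 (23904, 21504) (by decide +kernel)
            (CovZ.leaf K2_ok TD_l2254 _)
            (CovZ.n1 (23856, 21456) (by decide +kernel)
             (CovZ.leaf K2_ok TD_l2255 _)
             (CovZ.leaf K2_ok TD_l2256 _)))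
           (CovZ.n1 (24000, 21408) (by decide +kernel)
            (CovZ.n2 (23952, 21360) (by decide +kernel)
             (CovZ.leaf K2_ok TD_l2257 _)
             (CovZ.leaf K2_ok TD_l2258 _))
            (CovZ.n1 (23952, 21456) (by decide +kernel)
             (CovZ.leaf K2_ok TD_l2259 _)
             (CovZ.leaf K2_ok TD_l2260 _)))))
         (CovZ.n1 (24192, 21312) (by decide +kernel)
          (CovZ.n2 (24096, 21216) (by decide +kernel)
           (CovZ.n2 (24096, 21312) (by decide +kernel)
            (CovZ.leaf K2_ok TD_l2261 _)
            (CovZ.n1 (24048, 21264) (by decide +kernel)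
             (CovZ.leaf K2_ok TD_l2262 _)
             (CovZ.leaf K2_ok TD_l2263 _)))
           (CovZ.n1 (24192, 21216) (by decide +kernel)
            (CovZ.n2 (24144, 21168) (by decide +kernel)
             (CovZ.leaf K2_ok TD_l2264 _)
             (CovZ.leaf K2_ok TD_l2265 _))
            (CovZ.n1 (24144, 21264) (by decide +kernel)
             (CovZ.leaf K2_ok TD_l2266 _)
             (CovZ.leaf K2_ok TD_l2267 _))))
          (CovZ.n1 (24096, 21408) (by decide +kernel)
           (CovZ.n2 (24192, 21408) (by decide +kernel)
            (CovZ.n2 (24144, 21360) (by decide +kernel)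
             (CovZ.leaf K2_ok TD_l2268 _)
             (CovZ.leaf K2_ok TD_l2269 _))
            (CovZ.leaf K2_ok TD_l2270 _))
           (CovZ.n1 (24096, 21312) (by decide +kernel)
            (CovZ.n2 (24048, 21360) (by decide +kernel)
             (CovZ.leaf K2_ok TD_l2271 _)
             (CovZ.leaf K2_ok TD_l2272 _))
            (CovZ.n1 (24144, 21360) (by decide +kernel)
             (CovZ.leaf K2_ok TD_l2273 _)
             (CovZ.leaf K2_ok TD_l2274 _))))))))

theorem TD_u41 : CovZ TD_M (toL (selN TD_LN 311374014529653351350899318390055948462711277917973377885499868795109957822658961591212453362333948994213)) [0, 7, 6, 1] (24576, 19968) (25344, 19968) (25344, 20736) :=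
    (CovZ.subM 273414684297236042268809665270088745155861894348469890229489329864995403502324586780480340024648228 (by decide +kernel)
      (CovZ.n2 (24960, 20352) (by decide +kernel)
       (CovZ.n2 (25344, 20352) (by decide +kernel)
        (CovZ.n2 (25152, 20160) (by decide +kernel)
         (CovZ.n2 (25152, 20352) (by decide +kernel)
          (CovZ.n2 (25248, 20256) (by decide +kernel)
           (CovZ.leaf K2_ok TD_l4805 _)
           (CovZ.n1 (25248, 20352) (by decide +kernel)
            (CovZ.leaf K2_ok TD_l4806 _)
            (CovZ.leaf K2_ok TD_l4807 _)))
          (CovZ.subM 273406340597876976213785835705393932923815049604862694004478886985434185598108299419393477587255328 (by decide +kernel)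
           (CovZ.n1 (25056, 20256) (by decide +kernel)
            (CovZ.n2 (25056, 20352) (by decide +kernel)
             (CovZ.leaf K2_ok TD_l4808 _)
             (CovZ.n1 (25008, 20304) (by decide +kernel)
              (CovZ.leaf K2_ok TD_l4809 _)
              (CovZ.leaf K2_ok TD_l4810 _)))
            (CovZ.n1 (25152, 20256) (by decide +kernel)
             (CovZ.n2 (25104, 20208) (by decide +kernel)
              (CovZ.leaf K2_ok TD_l4811 _)
              (CovZ.leaf K2_ok TD_l4812 _))
             (CovZ.leaf K2_ok TD_l4813 _)))))
         (CovZ.n1 (25344, 20160) (by decide +kernel)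
          (CovZ.n2 (25248, 20064) (by decide +kernel)
           (CovZ.n2 (25248, 20160) (by decide +kernel)
            (CovZ.leaf K2_ok TD_l4814 _)
            (CovZ.n1 (25200, 20112) (by decide +kernel)
             (CovZ.leaf K2_ok TD_l4815 _)
             (CovZ.leaf K2_ok TD_l4816 _)))
           (CovZ.n1 (25344, 20064) (by decide +kernel)
            (CovZ.n2 (25296, 20016) (by decide +kernel)
             (CovZ.leaf K2_ok TD_l4817 _)
             (CovZ.leaf K2_ok TD_l4818 _))
            (CovZ.leaf K2_ok TD_l4819 _)))
          (CovZ.n1 (25248, 20256) (by decide +kernel)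
           (CovZ.n2 (25344, 20256) (by decide +kernel)
            (CovZ.leaf K2_ok TD_l4820 _)
            (CovZ.leaf K2_ok TD_l4821 _))
           (CovZ.n1 (25248, 20160) (by decide +kernel)
            (CovZ.leaf K2_ok TD_l4822 _)
            (CovZ.leaf K2_ok TD_l4823 _)))))
        (CovZ.n1 (25152, 20544) (by decide +kernel)
         (CovZ.n2 (25344, 20544) (by decide +kernel)
          (CovZ.n2 (25248, 20448) (by decide +kernel)
           (CovZ.leaf K2_ok TD_l4824 _)
           (CovZ.n1 (25344, 20448) (by decide +kernel)
            (CovZ.leaf K2_ok TD_l4825 _)
            (CovZ.leaf K2_ok TD_l4826 _)))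
          (CovZ.n1 (25248, 20640) (by decide +kernel)
           (CovZ.leaf K2_ok TD_l4827 _)
           (CovZ.n1 (25248, 20544) (by decide +kernel)
            (CovZ.leaf K2_ok TD_l4828 _)
            (CovZ.leaf K2_ok TD_l4829 _))))
         (CovZ.n1 (25152, 20352) (by decide +kernel)
          (CovZ.n2 (25056, 20448) (by decide +kernel)
           (CovZ.n2 (25152, 20448) (by decide +kernel)
            (CovZ.leaf K2_ok TD_l4830 _)
            (CovZ.leaf K2_ok TD_l4831 _))
           (CovZ.n1 (25056, 20352) (by decide +kernel)
            (CovZ.leaf K2_ok TD_l4832 _)
            (CovZ.leaf K2_ok TD_l4833 _)))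
          (CovZ.n1 (25248, 20448) (by decide +kernel)
           (CovZ.n2 (25248, 20352) (by decide +kernel)
            (CovZ.leaf K2_ok TD_l4834 _)
            (CovZ.leaf K2_ok TD_l4835 _))
           (CovZ.leaf K2_ok TD_l4836 _)))))
       (CovZ.n1 (24960, 19968) (by decide +kernel)
        (CovZ.subM 273406340597876976213785834821970400534622884813213943633019629071692237160298820376603675938783264 (by decide +kernel)
         (CovZ.n2 (24768, 20160) (by decide +kernel)
          (CovZ.n2 (24960, 20160) (by decide +kernel)
           (CovZ.subM 273406340597876976213785834821970400534622884813213943633019629071692237160298819782126291742883840 (by decide +kernel)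
            (CovZ.n2 (24864, 20064) (by decide +kernel)
             (CovZ.n2 (24864, 20160) (by decide +kernel)
              (CovZ.n2 (24912, 20112) (by decide +kernel)
               (CovZ.badM (by decide +kernel))
               (CovZ.n1 (24912, 20160) (by decide +kernel)
                (CovZ.leaf K2_ok TD_l4837 _)
                (CovZ.badM (by decide +kernel))))
              (CovZ.badM (by decide +kernel)))
             (CovZ.n1 (24960, 20064) (by decide +kernel)
              (CovZ.subM 273406340597876490546562778389702670669146178861651554553221325801244124899921990402939147127881728 (by decide +kernel)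
               (CovZ.n2 (24912, 20016) (by decide +kernel)
                (CovZ.n2 (24912, 20064) (by decide +kernel)
                 (CovZ.n2 (24936, 20040) (by decide +kernel)
                  (CovZ.badM (by decide +kernel))
                  (CovZ.n1 (24936, 20064) (by decide +kernel)
                   (CovZ.badM (by decide +kernel))
                   (CovZ.badM (by decide +kernel))))
                 (CovZ.badM (by decide +kernel)))
                (CovZ.badM (by decide +kernel))))
              (CovZ.n1 (24912, 20112) (by decide +kernel)
               (CovZ.n2 (24960, 20112) (by decide +kernel)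
                (CovZ.n2 (24936, 20088) (by decide +kernel)
                 (CovZ.leaf K2_ok TD_l4838 _)
                 (CovZ.leaf K2_ok TD_l4839 _))
                (CovZ.leaf K2_ok TD_l4840 _))
               (CovZ.subM 273406340597876490546562778389702670669146178933487283031309866036791641797592733385067543480238080 (by decide +kernel)
                (CovZ.n1 (24912, 20064) (by decide +kernel)
                 (CovZ.badM (by decide +kernel))
                 (CovZ.n1 (24936, 20088) (by decide +kernel)
                  (CovZ.n2 (24936, 20064) (by decide +kernel)
                   (CovZ.badM (by decide +kernel))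
                   (CovZ.leaf K2_ok TD_l15258 _))
                  (CovZ.badM (by decide +kernel)))))))))
           (CovZ.n1 (24864, 20256) (by decide +kernel)
            (CovZ.n2 (24960, 20256) (by decide +kernel)
             (CovZ.n2 (24912, 20208) (by decide +kernel)
              (CovZ.leaf K2_ok TD_l4841 _)
              (CovZ.leaf K2_ok TD_l4842 _))
             (CovZ.n1 (24912, 20304) (by decide +kernel)
              (CovZ.leaf K2_ok TD_l4843 _)
              (CovZ.leaf K2_ok TD_l4844 _)))
            (CovZ.n1 (24864, 20160) (by decide +kernel)
             (CovZ.n2 (24816, 20208) (by decide +kernel)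
              (CovZ.n2 (24864, 20208) (by decide +kernel)
               (CovZ.badM (by decide +kernel))
               (CovZ.leaf K2_ok TD_l4847 _))
              (CovZ.badM (by decide +kernel)))
             (CovZ.n1 (24912, 20208) (by decide +kernel)
              (CovZ.n2 (24912, 20160) (by decide +kernel)
               (CovZ.n2 (24888, 20184) (by decide +kernel)
                (CovZ.leaf K2_ok TD_l4849 _)
                (CovZ.badM (by decide +kernel)))
               (CovZ.leaf K2_ok TD_l4850 _))
              (CovZ.leaf K2_ok TD_l4851 _)))))
          (CovZ.subM 273406340597876490546562778389702670669146178933487283031309866036791641797592733385067543480238080 (by decide +kernel)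
           (CovZ.n1 (24768, 19968) (by decide +kernel)
            (CovZ.badM (by decide +kernel))
            (CovZ.n1 (24864, 20064) (by decide +kernel)
             (CovZ.n2 (24864, 19968) (by decide +kernel)
              (CovZ.badM (by decide +kernel))
              (CovZ.n1 (24912, 20016) (by decide +kernel)
               (CovZ.badM (by decide +kernel))
               (CovZ.badM (by decide +kernel))))
             (CovZ.badM (by decide +kernel)))))))
        (CovZ.n1 (25152, 20160) (by decide +kernel)
         (CovZ.n2 (25152, 19968) (by decide +kernel)
          (CovZ.subM 485667223056432267729865476705951562389079798303270448112260376829955651195453308960 (by decide +kernel)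
           (CovZ.n2 (25056, 20064) (by decide +kernel)
            (CovZ.n2 (25152, 20064) (by decide +kernel)
             (CovZ.n2 (25104, 20016) (by decide +kernel)
              (CovZ.leaf K2_ok TD_l4852 _)
              (CovZ.leaf K2_ok TD_l4853 _))
             (CovZ.n1 (25104, 20112) (by decide +kernel)
              (CovZ.leaf K2_ok TD_l4854 _)
              (CovZ.n1 (25104, 20064) (by decide +kernel)
               (CovZ.leaf K2_ok TD_l4855 _)
               (CovZ.leaf K2_ok TD_l4856 _))))
            (CovZ.subM 485667223056432267729865476705879726660601709763034880312953102434726635900522987520 (by decide +kernel)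
             (CovZ.n1 (25056, 19968) (by decide +kernel)
              (CovZ.n2 (25008, 20016) (by decide +kernel)
               (CovZ.n2 (25056, 20016) (by decide +kernel)
                (CovZ.badM (by decide +kernel))
                (CovZ.n1 (25032, 20040) (by decide +kernel)
                 (CovZ.leaf K2_ok TD_l15260 _)
                 (CovZ.badM (by decide +kernel))))
               (CovZ.badM (by decide +kernel)))
              (CovZ.n1 (25104, 20016) (by decide +kernel)
               (CovZ.n2 (25104, 19968) (by decide +kernel)
                (CovZ.n2 (25080, 19992) (by decide +kernel)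
                 (CovZ.leaf K2_ok TD_l15261 _)
                 (CovZ.badM (by decide +kernel)))
                (CovZ.leaf K2_ok TD_l15262 _))
               (CovZ.leaf K2_ok TD_l15263 _))))))
          (CovZ.n1 (25248, 20064) (by decide +kernel)
           (CovZ.subM 8343699359551722246885996962542097523550617347543265717442149579753123784383027431351689166880 (by decide +kernel)
            (CovZ.n2 (25248, 19968) (by decide +kernel)
             (CovZ.n2 (25200, 20016) (by decide +kernel)
              (CovZ.leaf K2_ok TD_l4857 _)
              (CovZ.n1 (25200, 19968) (by decide +kernel)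
               (CovZ.leaf K2_ok TD_l4858 _)
               (CovZ.leaf K2_ok TD_l4859 _)))
             (CovZ.n1 (25296, 20016) (by decide +kernel)
              (CovZ.leaf K2_ok TD_l4860 _)
              (CovZ.leaf K2_ok TD_l4861 _))))
           (CovZ.n1 (25152, 20064) (by decide +kernel)
            (CovZ.n2 (25200, 20112) (by decide +kernel)
             (CovZ.leaf K2_ok TD_l4862 _)
             (CovZ.leaf K2_ok TD_l4863 _))
            (CovZ.leaf K2_ok TD_l4864 _))))
         (CovZ.subM 273406340597876976213785834821970400534622884813213943633019629071692237160298820358590376940929056 (by decide +kernel)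
          (CovZ.n1 (24960, 20160) (by decide +kernel)
           (CovZ.n2 (25056, 20256) (by decide +kernel)
            (CovZ.n2 (25056, 20160) (by decide +kernel)
             (CovZ.n2 (25008, 20208) (by decide +kernel)
              (CovZ.leaf K2_ok TD_l4865 _)
              (CovZ.leaf K2_ok TD_l4866 _))
             (CovZ.n1 (25104, 20208) (by decide +kernel)
              (CovZ.leaf K2_ok TD_l4867 _)
              (CovZ.leaf K2_ok TD_l4868 _)))
            (CovZ.n1 (24960, 20256) (by decide +kernel)
             (CovZ.n2 (25008, 20304) (by decide +kernel)
              (CovZ.leaf K2_ok TD_l4869 _)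
              (CovZ.leaf K2_ok TD_l4870 _))
             (CovZ.leaf K2_ok TD_l4871 _)))
           (CovZ.n1 (25056, 20064) (by decide +kernel)
            (CovZ.subM 273406340597876976213785834821970400534622884813213943633019629071692237160298819782126291742883840 (by decide +kernel)
             (CovZ.n2 (24960, 20064) (by decide +kernel)
              (CovZ.n2 (25008, 20112) (by decide +kernel)
               (CovZ.n2 (25008, 20064) (by decide +kernel)
                (CovZ.n2 (24984, 20088) (by decide +kernel)
                 (CovZ.leaf K2_ok TD_l4872 _)
                 (CovZ.leaf K2_ok TD_l15264 _))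
                (CovZ.leaf K2_ok TD_l4873 _))
               (CovZ.leaf K2_ok TD_l4874 _))
              (CovZ.n1 (25008, 20016) (by decide +kernel)
               (CovZ.badM (by decide +kernel))
               (CovZ.n1 (25008, 20064) (by decide +kernel)
                (CovZ.leaf K2_ok TD_l15265 _)
                (CovZ.badM (by decide +kernel))))))
            (CovZ.n1 (25056, 20160) (by decide +kernel)
             (CovZ.leaf K2_ok TD_l4875 _)
             (CovZ.n1 (25008, 20112) (by decide +kernel)
              (CovZ.n2 (25008, 20160) (by decide +kernel)
               (CovZ.leaf K2_ok TD_l4876 _)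
               (CovZ.leaf K2_ok TD_l4877 _))
              (CovZ.leaf K2_ok TD_l4878 _))))))))))

theorem TD_u42 : CovZ TD_M (toL (selN TD_LN 311374014529653351350899318390055948462711277917973377885499868795109957822658961591212453362333948994213)) [0, 7, 6, 1] (25344, 19968) (26112, 19968) (25344, 20736) :=
    (CovZ.n1 (25728, 20352) (by decide +kernel)
      (CovZ.n2 (25728, 19968) (by decide +kernel)
       (CovZ.subM 275342078849665482663865934288917762821586850747372448796444590404512999288232356953690762002468 (by decide +kernel)
        (CovZ.n2 (25536, 20160) (by decide +kernel)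
         (CovZ.n2 (25728, 20160) (by decide +kernel)
          (CovZ.n2 (25632, 20064) (by decide +kernel)
           (CovZ.leaf K2_ok TD_l4879 _)
           (CovZ.leaf K2_ok TD_l4880 _))
          (CovZ.n1 (25632, 20256) (by decide +kernel)
           (CovZ.leaf K2_ok TD_l4881 _)
           (CovZ.leaf K2_ok TD_l4882 _)))
         (CovZ.n1 (25536, 19968) (by decide +kernel)
          (CovZ.n2 (25440, 20064) (by decide +kernel)
           (CovZ.n2 (25536, 20064) (by decide +kernel)
            (CovZ.leaf K2_ok TD_l4883 _)
            (CovZ.leaf K2_ok TD_l4884 _))
           (CovZ.n1 (25440, 19968) (by decide +kernel)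
            (CovZ.leaf K2_ok TD_l4885 _)
            (CovZ.leaf K2_ok TD_l4886 _)))
          (CovZ.n1 (25632, 20064) (by decide +kernel)
           (CovZ.n2 (25632, 19968) (by decide +kernel)
            (CovZ.leaf K2_ok TD_l4887 _)
            (CovZ.leaf K2_ok TD_l4888 _))
           (CovZ.leaf K2_ok TD_l4889 _)))))
       (CovZ.n1 (25920, 20160) (by decide +kernel)
        (CovZ.n2 (25920, 19968) (by decide +kernel)
         (CovZ.n2 (25824, 20064) (by decide +kernel)
          (CovZ.leaf K2_ok TD_l4890 _)
          (CovZ.leaf K2_ok TD_l4891 _))
         (CovZ.n1 (26016, 20064) (by decide +kernel)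
          (CovZ.leaf K2_ok TD_l4892 _)
          (CovZ.leaf K2_ok TD_l4893 _)))
        (CovZ.n1 (25728, 20160) (by decide +kernel)
         (CovZ.n2 (25824, 20256) (by decide +kernel)
          (CovZ.leaf K2_ok TD_l4894 _)
          (CovZ.leaf K2_ok TD_l4895 _))
         (CovZ.leaf K2_ok TD_l4896 _))))
      (CovZ.subM 273681682676726156029226644323991588431967765718385240563020534156530698042348214049056749095379492 (by decide +kernel)
       (CovZ.n1 (25344, 20352) (by decide +kernel)
        (CovZ.n2 (25536, 20544) (by decide +kernel)
         (CovZ.n2 (25536, 20352) (by decide +kernel)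
          (CovZ.n2 (25440, 20448) (by decide +kernel)
           (CovZ.leaf K2_ok TD_l4897 _)
           (CovZ.leaf K2_ok TD_l4898 _))
          (CovZ.n1 (25632, 20448) (by decide +kernel)
           (CovZ.leaf K2_ok TD_l4899 _)
           (CovZ.leaf K2_ok TD_l4900 _)))
         (CovZ.n1 (25344, 20544) (by decide +kernel)
          (CovZ.n2 (25440, 20640) (by decide +kernel)
           (CovZ.leaf K2_ok TD_l4901 _)
           (CovZ.leaf K2_ok TD_l4902 _))
          (CovZ.leaf K2_ok TD_l4903 _)))
        (CovZ.n1 (25536, 20160) (by decide +kernel)
         (CovZ.subM 273414684297236042268809665270088745155861894342483576668486566100113343359186595473301995815845920 (by decide +kernel)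
          (CovZ.n2 (25344, 20160) (by decide +kernel)
           (CovZ.n2 (25440, 20256) (by decide +kernel)
            (CovZ.n2 (25440, 20160) (by decide +kernel)
             (CovZ.leaf K2_ok TD_l4904 _)
             (CovZ.leaf K2_ok TD_l4905 _))
            (CovZ.leaf K2_ok TD_l4906 _))
           (CovZ.n1 (25440, 20064) (by decide +kernel)
            (CovZ.leaf K2_ok TD_l4907 _)
            (CovZ.leaf K2_ok TD_l4908 _))))
         (CovZ.n1 (25536, 20352) (by decide +kernel)
          (CovZ.leaf K2_ok TD_l4909 _)
          (CovZ.n1 (25440, 20256) (by decide +kernel)
           (CovZ.leaf K2_ok TD_l4910 _)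
           (CovZ.leaf K2_ok TD_l4911 _)))))))

theorem TD_u43 : CovZ TD_M (toL (selN TD_LN 273414684297236042268809665270088745155861894348470620980307995316535634983155551603686095508759076)) [0, 7, 6, 1] (24576, 21504) (24576, 20736) (25344, 20736) :=
    (CovZ.n2 (24960, 21120) (by decide +kernel)
       (CovZ.n2 (24960, 20736) (by decide +kernel)
        (CovZ.n2 (24768, 20928) (by decide +kernel)
         (CovZ.n2 (24960, 20928) (by decide +kernel)
          (CovZ.n2 (24864, 20832) (by decide +kernel)
           (CovZ.leaf K2_ok TD_l4912 _)
           (CovZ.n1 (24960, 20832) (by decide +kernel)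
            (CovZ.leaf K2_ok TD_l4913 _)
            (CovZ.leaf K2_ok TD_l4914 _)))
          (CovZ.n1 (24864, 21024) (by decide +kernel)
           (CovZ.leaf K2_ok TD_l4915 _)
           (CovZ.n1 (24864, 20928) (by decide +kernel)
            (CovZ.leaf K2_ok TD_l4916 _)
            (CovZ.leaf K2_ok TD_l4917 _))))
         (CovZ.n1 (24768, 20736) (by decide +kernel)
          (CovZ.subM 485667223057315691262254668870677361724534171784713605733582068164023197833938084388 (by decide +kernel)
           (CovZ.n2 (24672, 20832) (by decide +kernel)
            (CovZ.n2 (24768, 20832) (by decide +kernel)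
             (CovZ.n2 (24720, 20784) (by decide +kernel)
              (CovZ.leaf K2_ok TD_l4918 _)
              (CovZ.leaf K2_ok TD_l4919 _))
             (CovZ.leaf K2_ok TD_l4920 _))
            (CovZ.n1 (24672, 20736) (by decide +kernel)
             (CovZ.leaf K2_ok TD_l4921 _)
             (CovZ.n1 (24720, 20784) (by decide +kernel)
              (CovZ.leaf K2_ok TD_l4922 _)
              (CovZ.leaf K2_ok TD_l4923 _)))))
          (CovZ.n1 (24864, 20832) (by decide +kernel)
           (CovZ.n2 (24864, 20736) (by decide +kernel)
            (CovZ.leaf K2_ok TD_l4924 _)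
            (CovZ.leaf K2_ok TD_l4925 _))
           (CovZ.leaf K2_ok TD_l4926 _))))
        (CovZ.n1 (25152, 20928) (by decide +kernel)
         (CovZ.n2 (25152, 20736) (by decide +kernel)
          (CovZ.n2 (25056, 20832) (by decide +kernel)
           (CovZ.leaf K2_ok TD_l4927 _)
           (CovZ.n1 (25056, 20736) (by decide +kernel)
            (CovZ.leaf K2_ok TD_l4928 _)
            (CovZ.leaf K2_ok TD_l4929 _)))
          (CovZ.n1 (25248, 20832) (by decide +kernel)
           (CovZ.leaf K2_ok TD_l4930 _)
           (CovZ.leaf K2_ok TD_l4931 _)))
         (CovZ.n1 (24960, 20928) (by decide +kernel)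
          (CovZ.n2 (25056, 21024) (by decide +kernel)
           (CovZ.leaf K2_ok TD_l4932 _)
           (CovZ.leaf K2_ok TD_l4933 _))
          (CovZ.leaf K2_ok TD_l4934 _))))
       (CovZ.n1 (24576, 21120) (by decide +kernel)
        (CovZ.n2 (24768, 21312) (by decide +kernel)
         (CovZ.n2 (24768, 21120) (by decide +kernel)
          (CovZ.n2 (24672, 21216) (by decide +kernel)
           (CovZ.leaf K2_ok TD_l4935 _)
           (CovZ.n1 (24672, 21120) (by decide +kernel)
            (CovZ.leaf K2_ok TD_l4936 _)
            (CovZ.leaf K2_ok TD_l4937 _)))
          (CovZ.n1 (24864, 21216) (by decide +kernel)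
           (CovZ.leaf K2_ok TD_l4938 _)
           (CovZ.leaf K2_ok TD_l4939 _)))
         (CovZ.n1 (24576, 21312) (by decide +kernel)
          (CovZ.n2 (24672, 21408) (by decide +kernel)
           (CovZ.leaf K2_ok TD_l4940 _)
           (CovZ.leaf K2_ok TD_l4941 _))
          (CovZ.leaf K2_ok TD_l4942 _)))
        (CovZ.n1 (24768, 20928) (by decide +kernel)
         (CovZ.subM 485667223057315691262254668870677362455284990450165064835424484522164707661904355876 (by decide +kernel)
          (CovZ.n2 (24576, 20928) (by decide +kernel)
           (CovZ.n2 (24672, 21024) (by decide +kernel)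
            (CovZ.n2 (24672, 20928) (by decide +kernel)
             (CovZ.leaf K2_ok TD_l4943 _)
             (CovZ.leaf K2_ok TD_l4944 _))
            (CovZ.leaf K2_ok TD_l4945 _))
           (CovZ.n1 (24672, 20832) (by decide +kernel)
            (CovZ.n2 (24576, 20832) (by decide +kernel)
             (CovZ.n2 (24624, 20880) (by decide +kernel)
              (CovZ.leaf K2_ok TD_l4946 _)
              (CovZ.leaf K2_ok TD_l4947 _))
             (CovZ.leaf K2_ok TD_l4948 _))
            (CovZ.n1 (24672, 20928) (by decide +kernel)
             (CovZ.leaf K2_ok TD_l4949 _)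
             (CovZ.n1 (24624, 20880) (by decide +kernel)
              (CovZ.leaf K2_ok TD_l4950 _)
              (CovZ.leaf K2_ok TD_l4951 _))))))
         (CovZ.n1 (24768, 21120) (by decide +kernel)
          (CovZ.leaf K2_ok TD_l4952 _)
          (CovZ.n1 (24672, 21024) (by decide +kernel)
           (CovZ.leaf K2_ok TD_l4953 _)
           (CovZ.n1 (24768, 21024) (by decide +kernel)
            (CovZ.leaf K2_ok TD_l4954 _)
            (CovZ.leaf K2_ok TD_l4955 _)))))))

theorem TD_u44 : CovZ TD_M (toL (selN TD_LN 273414684297236042268809665270088745155861894348470620980307995316535634983155551603686095508759076)) [0, 7, 6, 1] (24576, 20736) (24576, 19968) (25344, 20736) :=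
    (CovZ.n1 (24960, 20352) (by decide +kernel)
       (CovZ.subM 273406340597876976213785835705393932923815049610849007565481650750397375379660897408265377284104736 (by decide +kernel)
        (CovZ.n2 (24576, 20352) (by decide +kernel)
         (CovZ.n2 (24768, 20544) (by decide +kernel)
          (CovZ.n2 (24768, 20352) (by decide +kernel)
           (CovZ.n2 (24672, 20448) (by decide +kernel)
            (CovZ.n2 (24768, 20448) (by decide +kernel)
             (CovZ.n2 (24720, 20400) (by decide +kernel)
              (CovZ.leaf K2_ok TD_l4956 _)
              (CovZ.leaf K2_ok TD_l4957 _))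
             (CovZ.n1 (24720, 20496) (by decide +kernel)
              (CovZ.leaf K2_ok TD_l4958 _)
              (CovZ.n1 (24720, 20448) (by decide +kernel)
               (CovZ.leaf K2_ok TD_l4959 _)
               (CovZ.leaf K2_ok TD_l4960 _))))
            (CovZ.subM 485667223056432267729865476705879726660601709763034900595362706086973518950810255360 (by decide +kernel)
             (CovZ.n1 (24672, 20352) (by decide +kernel)
              (CovZ.n2 (24624, 20400) (by decide +kernel)
               (CovZ.n2 (24672, 20400) (by decide +kernel)
                (CovZ.badM (by decide +kernel))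
                (CovZ.leaf K2_ok TD_l4961 _))
               (CovZ.badM (by decide +kernel)))
              (CovZ.n1 (24720, 20400) (by decide +kernel)
               (CovZ.n2 (24720, 20352) (by decide +kernel)
                (CovZ.leaf K2_ok TD_l4962 _)
                (CovZ.leaf K2_ok TD_l4963 _))
               (CovZ.leaf K2_ok TD_l4964 _)))))
           (CovZ.n1 (24864, 20448) (by decide +kernel)
            (CovZ.subM 273406340597876976213785835705393932923815049604862694004478886985434185598108299419392378075611168 (by decide +kernel)
             (CovZ.n2 (24864, 20352) (by decide +kernel)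
              (CovZ.n2 (24816, 20400) (by decide +kernel)
               (CovZ.leaf K2_ok TD_l4965 _)
               (CovZ.leaf K2_ok TD_l4966 _))
              (CovZ.n1 (24912, 20400) (by decide +kernel)
               (CovZ.leaf K2_ok TD_l4967 _)
               (CovZ.leaf K2_ok TD_l4968 _))))
            (CovZ.n1 (24768, 20448) (by decide +kernel)
             (CovZ.n2 (24816, 20496) (by decide +kernel)
              (CovZ.leaf K2_ok TD_l4969 _)
              (CovZ.leaf K2_ok TD_l4970 _))
             (CovZ.leaf K2_ok TD_l4971 _))))
          (CovZ.n1 (24576, 20544) (by decide +kernel)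
           (CovZ.n2 (24672, 20640) (by decide +kernel)
            (CovZ.n2 (24672, 20544) (by decide +kernel)
             (CovZ.n2 (24624, 20592) (by decide +kernel)
              (CovZ.leaf K2_ok TD_l4972 _)
              (CovZ.n1 (24624, 20544) (by decide +kernel)
               (CovZ.leaf K2_ok TD_l4973 _)
               (CovZ.leaf K2_ok TD_l4974 _)))
             (CovZ.n1 (24720, 20592) (by decide +kernel)
              (CovZ.leaf K2_ok TD_l4975 _)
              (CovZ.leaf K2_ok TD_l4976 _)))
            (CovZ.n1 (24576, 20640) (by decide +kernel)
             (CovZ.n2 (24624, 20688) (by decide +kernel)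
              (CovZ.leaf K2_ok TD_l4977 _)
              (CovZ.leaf K2_ok TD_l4978 _))
             (CovZ.leaf K2_ok TD_l4979 _)))
           (CovZ.n1 (24672, 20448) (by decide +kernel)
            (CovZ.subM 5986313561002763764983472191156250218306250207142400 (by decide +kernel)
             (CovZ.n2 (24576, 20448) (by decide +kernel)
              (CovZ.n2 (24624, 20496) (by decide +kernel)
               (CovZ.n2 (24624, 20448) (by decide +kernel)
                (CovZ.leaf K2_ok TD_l4980 _)
                (CovZ.leaf K2_ok TD_l4981 _))
               (CovZ.leaf K2_ok TD_l4982 _))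
              (CovZ.n1 (24624, 20400) (by decide +kernel)
               (CovZ.badM (by decide +kernel))
               (CovZ.n1 (24624, 20448) (by decide +kernel)
                (CovZ.leaf K2_ok TD_l4983 _)
                (CovZ.badM (by decide +kernel))))))
            (CovZ.n1 (24672, 20544) (by decide +kernel)
             (CovZ.leaf K2_ok TD_l4984 _)
             (CovZ.n1 (24624, 20496) (by decide +kernel)
              (CovZ.leaf K2_ok TD_l4985 _)
              (CovZ.leaf K2_ok TD_l4986 _))))))
         (CovZ.subM 273406340597876976213785834821970400534622884813213943633019629071692237160298820376603675938783264 (by decide +kernel)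
          (CovZ.n1 (24768, 20160) (by decide +kernel)
           (CovZ.badM (by decide +kernel))
           (CovZ.n1 (24768, 20352) (by decide +kernel)
            (CovZ.n2 (24864, 20256) (by decide +kernel)
             (CovZ.subM 485667223056432267729865476705879726660601709763034900595362706086973518950810255360 (by decide +kernel)
              (CovZ.n2 (24768, 20256) (by decide +kernel)
               (CovZ.n2 (24816, 20304) (by decide +kernel)
                (CovZ.n2 (24816, 20256) (by decide +kernel)
                 (CovZ.n2 (24792, 20280) (by decide +kernel)
                  (CovZ.leaf K2_ok TD_l4987 _)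
                  (CovZ.badM (by decide +kernel)))
                 (CovZ.leaf K2_ok TD_l4988 _))
                (CovZ.leaf K2_ok TD_l4989 _))
               (CovZ.n1 (24816, 20208) (by decide +kernel)
                (CovZ.badM (by decide +kernel))
                (CovZ.n1 (24816, 20256) (by decide +kernel)
                 (CovZ.leaf K2_ok TD_l4990 _)
                 (CovZ.badM (by decide +kernel))))))
             (CovZ.n1 (24864, 20352) (by decide +kernel)
              (CovZ.leaf K2_ok TD_l4991 _)
              (CovZ.n1 (24816, 20304) (by decide +kernel)
               (CovZ.leaf K2_ok TD_l4992 _)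
               (CovZ.leaf K2_ok TD_l4993 _))))
            (CovZ.subM 485667223056432267729865476705879726660601709763034900595362706086973518950810255360 (by decide +kernel)
             (CovZ.n1 (24672, 20256) (by decide +kernel)
              (CovZ.n2 (24672, 20352) (by decide +kernel)
               (CovZ.n2 (24720, 20304) (by decide +kernel)
                (CovZ.badM (by decide +kernel))
                (CovZ.n1 (24720, 20352) (by decide +kernel)
                 (CovZ.leaf K2_ok TD_l4994 _)
                 (CovZ.badM (by decide +kernel))))
               (CovZ.badM (by decide +kernel)))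
              (CovZ.n1 (24768, 20256) (by decide +kernel)
               (CovZ.badM (by decide +kernel))
               (CovZ.n1 (24720, 20304) (by decide +kernel)
                (CovZ.n2 (24768, 20304) (by decide +kernel)
                 (CovZ.badM (by decide +kernel))
                 (CovZ.leaf K2_ok TD_l4995 _))
                (CovZ.badM (by decide +kernel)))))))))))
       (CovZ.n1 (24960, 20736) (by decide +kernel)
        (CovZ.n2 (25152, 20544) (by decide +kernel)
         (CovZ.n2 (24960, 20544) (by decide +kernel)
          (CovZ.n2 (25056, 20640) (by decide +kernel)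
           (CovZ.n2 (25056, 20544) (by decide +kernel)
            (CovZ.leaf K2_ok TD_l4996 _)
            (CovZ.leaf K2_ok TD_l4997 _))
           (CovZ.leaf K2_ok TD_l4998 _))
          (CovZ.subM 273406340597876976213785835705393932923815049610849007565481650750316245741246290708556289281122852 (by decide +kernel)
           (CovZ.n1 (25056, 20448) (by decide +kernel)
            (CovZ.leaf K2_ok TD_l4999 _)
            (CovZ.n1 (25056, 20544) (by decide +kernel)
             (CovZ.leaf K2_ok TD_l5000 _)
             (CovZ.n1 (25008, 20496) (by decide +kernel)
              (CovZ.leaf K2_ok TD_l5001 _)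
              (CovZ.leaf K2_ok TD_l5002 _))))))
         (CovZ.n1 (25152, 20736) (by decide +kernel)
          (CovZ.leaf K2_ok TD_l5003 _)
          (CovZ.n1 (25056, 20640) (by decide +kernel)
           (CovZ.leaf K2_ok TD_l5004 _)
           (CovZ.n1 (25152, 20640) (by decide +kernel)
            (CovZ.leaf K2_ok TD_l5005 _)
            (CovZ.leaf K2_ok TD_l5006 _)))))
        (CovZ.n1 (24768, 20544) (by decide +kernel)
         (CovZ.n2 (24768, 20736) (by decide +kernel)
          (CovZ.subM 273406340597876976213785835705393932923815049610849007565481650750397375379660897390250978774639140 (by decide +kernel)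
           (CovZ.n2 (24864, 20640) (by decide +kernel)
            (CovZ.leaf K2_ok TD_l5007 _)
            (CovZ.n1 (24864, 20736) (by decide +kernel)
             (CovZ.leaf K2_ok TD_l5008 _)
             (CovZ.n1 (24816, 20688) (by decide +kernel)
              (CovZ.leaf K2_ok TD_l5009 _)
              (CovZ.leaf K2_ok TD_l5010 _)))))
          (CovZ.subM 485667223057315691262254668870677361724534171784713605733582068164023197833938084384 (by decide +kernel)
           (CovZ.n1 (24672, 20640) (by decide +kernel)
            (CovZ.n2 (24672, 20736) (by decide +kernel)
             (CovZ.leaf K2_ok TD_l5011 _)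
             (CovZ.n1 (24624, 20688) (by decide +kernel)
              (CovZ.leaf K2_ok TD_l5012 _)
              (CovZ.leaf K2_ok TD_l5013 _)))
            (CovZ.n1 (24768, 20640) (by decide +kernel)
             (CovZ.n2 (24720, 20592) (by decide +kernel)
              (CovZ.leaf K2_ok TD_l5014 _)
              (CovZ.leaf K2_ok TD_l5015 _))
             (CovZ.leaf K2_ok TD_l5016 _)))))
         (CovZ.subM 273406340597876976213785835705393932923815049610849007565481650750397375379660897390250978774639140 (by decide +kernel)
          (CovZ.n1 (24960, 20544) (by decide +kernel)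
           (CovZ.n2 (24864, 20448) (by decide +kernel)
            (CovZ.n2 (24864, 20544) (by decide +kernel)
             (CovZ.leaf K2_ok TD_l5017 _)
             (CovZ.n1 (24816, 20496) (by decide +kernel)
              (CovZ.leaf K2_ok TD_l5018 _)
              (CovZ.leaf K2_ok TD_l5019 _)))
            (CovZ.n1 (24960, 20448) (by decide +kernel)
             (CovZ.n2 (24912, 20400) (by decide +kernel)
              (CovZ.leaf K2_ok TD_l5020 _)
              (CovZ.leaf K2_ok TD_l5021 _))
             (CovZ.leaf K2_ok TD_l5022 _)))
           (CovZ.n1 (24864, 20640) (by decide +kernel)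
            (CovZ.n2 (24960, 20640) (by decide +kernel)
             (CovZ.n2 (24912, 20592) (by decide +kernel)
              (CovZ.leaf K2_ok TD_l5023 _)
              (CovZ.leaf K2_ok TD_l5024 _))
             (CovZ.leaf K2_ok TD_l5025 _))
            (CovZ.n1 (24864, 20544) (by decide +kernel)
             (CovZ.leaf K2_ok TD_l5026 _)
             (CovZ.leaf K2_ok TD_l5027 _))))))))

end Pool.Agent.TET
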